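import Pool.Agent.Helper38_TET.TD_M
import Pool.Agent.Helper38_TET.TD_L
import Pool.Agent.Helper38_TET.TD_12
import Pool.Agent.Helper38_TET.TD_13
import Pool.Agent.Helper38_TET.TD_26
import Pool.Agent.Helper38_TET.TD_27
import Pool.Agent.Helper38_TET.TD_28
import Pool.Agent.Helper38_TET.TD_30
import Pool.Agent.Helper38_TET.TD_43
import Pool.Agent.Helper38_TET.TD_44
import Pool.Agent.Helper38_TET.TD_55
import Pool.Agent.Helper38_TET.TD_56
import Pool.Agent.Helper38_TET.TD_57
import Pool.Agent.Helper38_TET.TD_58
import Pool.Agent.Helper38_TET.TD_71
import Pool.Agent.Helper38_TET.TD_72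
import Pool.Agent.Helper38_TET.TD_83
import Pool.Agent.Helper38_TET.TD_84
import Pool.Agent.Helper38_TET.TD_85
import Pool.Agent.Helper38_TET.TD_86
import Pool.Agent.Helper38_TET.TD_99
import Pool.Agent.Helper38_TET.TD_101
import Pool.Agent.Helper38_TET.TD_120
import Pool.Agent.Helper38_TET.TD_U0
import Pool.Agent.Helper38_TET.TD_U1
import Pool.Agent.Helper38_TET.TD_U2

/-!
# MP_c7c9bf_co: certificates, family TD
-/

set_option autoImplicit false
set_option maxRecDepth 100000

namespace Pool.Agent.TET

theorem TD_s0_0 : SqZ TD_M TD_L [0, 7, 6, 1] 18432 12288 1536 0 0 :=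
  SqZ.mk (a := 18432) (b := 19968) (c := 12288) (d := 13824) (by norm_num) (by norm_num) (by norm_num) (by norm_num)
    (CovZ.topM TD_LL 0 (by decide +kernel) (CovZ.badM (by decide +kernel)))
    (CovZ.topM TD_LL 0 (by decide +kernel) (CovZ.badM (by decide +kernel)))

theorem TD_s1_0 : SqZ TD_M TD_L [0, 7, 6, 1] 18432 12288 1536 1 0 :=
  SqZ.mk (a := 19968) (b := 21504) (c := 12288) (d := 13824) (by norm_num) (by norm_num) (by norm_num) (by norm_num)
    (CovZ.topM TD_LL 0 (by decide +kernel) (CovZ.badM (by decide +kernel)))
    (CovZ.topM TD_LL 0 (by decide +kernel) (CovZ.badM (by decide +kernel)))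

theorem TD_s2_0 : SqZ TD_M TD_L [0, 7, 6, 1] 18432 12288 1536 2 0 :=
  SqZ.mk (a := 21504) (b := 23040) (c := 12288) (d := 13824) (by norm_num) (by norm_num) (by norm_num) (by norm_num)
    (CovZ.topM TD_LL 0 (by decide +kernel) (CovZ.badM (by decide +kernel)))
    (CovZ.topM TD_LL 0 (by decide +kernel) (CovZ.badM (by decide +kernel)))

theorem TD_s3_0 : SqZ TD_M TD_L [0, 7, 6, 1] 18432 12288 1536 3 0 :=
  SqZ.mk (a := 23040) (b := 24576) (c := 12288) (d := 13824) (by norm_num) (by norm_num) (by norm_num) (by norm_num)
    (CovZ.topM TD_LL 0 (by decide +kernel) (CovZ.badM (by decide +kernel)))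
    (CovZ.topM TD_LL 0 (by decide +kernel) (CovZ.badM (by decide +kernel)))

theorem TD_s4_0 : SqZ TD_M TD_L [0, 7, 6, 1] 18432 12288 1536 4 0 :=
  SqZ.mk (a := 24576) (b := 26112) (c := 12288) (d := 13824) (by norm_num) (by norm_num) (by norm_num) (by norm_num)
    (CovZ.topM TD_LL 0 (by decide +kernel) (CovZ.badM (by decide +kernel)))
    (CovZ.topM TD_LL 0 (by decide +kernel) (CovZ.badM (by decide +kernel)))

theorem TD_s5_0 : SqZ TD_M TD_L [0, 7, 6, 1] 18432 12288 1536 5 0 :=
  SqZ.mk (a := 26112) (b := 27648) (c := 12288) (d := 13824) (by norm_num) (by norm_num) (by norm_num) (by norm_num)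
    (CovZ.topM TD_LL 8958978968711216842229769122273777112486581988938598139599956403855167484720643781523509973086428463104 (by decide +kernel) (CovZ.n2 (26880, 13056) (by decide +kernel)
    (CovZ.badM (by decide +kernel))
    (CovZ.badM (by decide +kernel))))
    (CovZ.topM TD_LL 8958978968711726101223852743795344223908684333478861006698372887917826519832982376848450807262974312448 (by decide +kernel) (CovZ.n0 (26880, 13056) (by decide +kernel)
    (CovZ.badM (by decide +kernel))
    (CovZ.n1 (26880, 13824) (by decide +kernel)
     (CovZ.badM (by decide +kernel))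
     (CovZ.badM (by decide +kernel)))))

theorem TD_s6_0 : SqZ TD_M TD_L [0, 7, 6, 1] 18432 12288 1536 6 0 :=
  SqZ.mk (a := 27648) (b := 29184) (c := 12288) (d := 13824) (by norm_num) (by norm_num) (by norm_num) (by norm_num)
    (CovZ.topM TD_LL 348449143727040986586495598010130648530944 (by decide +kernel) (CovZ.n2 (28416, 13056) (by decide +kernel)
    (CovZ.badM (by decide +kernel))
    (CovZ.badM (by decide +kernel))))
    (CovZ.topM TD_LL 348449143727040986586495598010130648530944 (by decide +kernel) (CovZ.n0 (28416, 13056) (by decide +kernel)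
    (CovZ.badM (by decide +kernel))
    (CovZ.n1 (28416, 13824) (by decide +kernel)
     (CovZ.badM (by decide +kernel))
     (CovZ.badM (by decide +kernel)))))

theorem TD_s7_0 : SqZ TD_M TD_L [0, 7, 6, 1] 18432 12288 1536 7 0 :=
  SqZ.mk (a := 29184) (b := 30720) (c := 12288) (d := 13824) (by norm_num) (by norm_num) (by norm_num) (by norm_num)
    (CovZ.topM TD_LL 0 (by decide +kernel) (CovZ.badM (by decide +kernel)))
    (CovZ.topM TD_LL 0 (by decide +kernel) (CovZ.badM (by decide +kernel)))

theorem TD_s8_0 : SqZ TD_M TD_L [0, 7, 6, 1] 18432 12288 1536 8 0 :=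
  SqZ.mk (a := 30720) (b := 32256) (c := 12288) (d := 13824) (by norm_num) (by norm_num) (by norm_num) (by norm_num)
    (CovZ.topM TD_LL 0 (by decide +kernel) (CovZ.badM (by decide +kernel)))
    (CovZ.topM TD_LL 0 (by decide +kernel) (CovZ.badM (by decide +kernel)))

theorem TD_s0_1 : SqZ TD_M TD_L [0, 7, 6, 1] 18432 12288 1536 0 1 :=
  SqZ.mk (a := 18432) (b := 19968) (c := 13824) (d := 15360) (by norm_num) (by norm_num) (by norm_num) (by norm_num)
    (CovZ.topM TD_LL 0 (by decide +kernel) (CovZ.badM (by decide +kernel)))
    (CovZ.topM TD_LL 0 (by decide +kernel) (CovZ.badM (by decide +kernel)))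

theorem TD_s1_1 : SqZ TD_M TD_L [0, 7, 6, 1] 18432 12288 1536 1 1 :=
  SqZ.mk (a := 19968) (b := 21504) (c := 13824) (d := 15360) (by norm_num) (by norm_num) (by norm_num) (by norm_num)
    (CovZ.topM TD_LL 0 (by decide +kernel) (CovZ.badM (by decide +kernel)))
    (CovZ.topM TD_LL 0 (by decide +kernel) (CovZ.badM (by decide +kernel)))

theorem TD_s2_1 : SqZ TD_M TD_L [0, 7, 6, 1] 18432 12288 1536 2 1 :=
  SqZ.mk (a := 21504) (b := 23040) (c := 13824) (d := 15360) (by norm_num) (by norm_num) (by norm_num) (by norm_num)
    (CovZ.topM TD_LL 0 (by decide +kernel) (CovZ.badM (by decide +kernel)))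
    (CovZ.topM TD_LL 0 (by decide +kernel) (CovZ.badM (by decide +kernel)))

theorem TD_s3_1 : SqZ TD_M TD_L [0, 7, 6, 1] 18432 12288 1536 3 1 :=
  SqZ.mk (a := 23040) (b := 24576) (c := 13824) (d := 15360) (by norm_num) (by norm_num) (by norm_num) (by norm_num)
    (CovZ.topM TD_LL 0 (by decide +kernel) (CovZ.badM (by decide +kernel)))
    (CovZ.topM TD_LL 0 (by decide +kernel) (CovZ.badM (by decide +kernel)))

theorem TD_s4_1 : SqZ TD_M TD_L [0, 7, 6, 1] 18432 12288 1536 4 1 :=
  SqZ.mk (a := 24576) (b := 26112) (c := 13824) (d := 15360) (by norm_num) (by norm_num) (by norm_num) (by norm_num)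
    (CovZ.topM TD_LL 0 (by decide +kernel) (CovZ.badM (by decide +kernel)))
    (CovZ.topM TD_LL 237144008010280619586375691070856095868095453307164404662616149773667871179669504 (by decide +kernel) (CovZ.n0 (25344, 14592) (by decide +kernel)
    (CovZ.badM (by decide +kernel))
    (CovZ.n1 (25344, 15360) (by decide +kernel)
     (CovZ.n2 (25728, 14976) (by decide +kernel)
      (CovZ.badM (by decide +kernel))
      (CovZ.n1 (25728, 15360) (by decide +kernel)
       (CovZ.badM (by decide +kernel))
       (CovZ.badM (by decide +kernel))))
     (CovZ.badM (by decide +kernel)))))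

theorem TD_s5_1 : SqZ TD_M TD_L [0, 7, 6, 1] 18432 12288 1536 5 1 :=
  SqZ.mk (a := 26112) (b := 27648) (c := 13824) (d := 15360) (by norm_num) (by norm_num) (by norm_num) (by norm_num)
    (CovZ.topM TD_LL 4596520521635848766399353867493693220694962846602521996440486773144404247387434784576177586119486216470528 (by decide +kernel) (CovZ.n2 (26880, 14592) (by decide +kernel)
    (CovZ.subM 842498333348457493583344221469363458551160763204392890034487820288 (by decide +kernel)
     (CovZ.n2 (27648, 14592) (by decide +kernel)
      (CovZ.badM (by decide +kernel))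
      (CovZ.n1 (27264, 14976) (by decide +kernel)
       (CovZ.n2 (27648, 14976) (by decide +kernel)
        (CovZ.badM (by decide +kernel))
        (CovZ.n1 (27456, 15168) (by decide +kernel)
         (CovZ.badM (by decide +kernel))
         (CovZ.badM (by decide +kernel))))
       (CovZ.badM (by decide +kernel)))))
    (CovZ.n1 (26880, 13824) (by decide +kernel)
     (CovZ.badM (by decide +kernel))
     (CovZ.badM (by decide +kernel)))))
    (CovZ.topM TD_LL 4596520521635848770377939788414761202690966860217587021060934779167605317843207470132573223341888318341120 (by decide +kernel) (CovZ.n0 (26880, 14592) (by decide +kernel)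
    (CovZ.subM 29642774844752946028434172162224104410437116074403984394101141506025761187823616 (by decide +kernel)
     (CovZ.n2 (26112, 14592) (by decide +kernel)
      (CovZ.n2 (26496, 14976) (by decide +kernel)
       (CovZ.badM (by decide +kernel))
       (CovZ.n1 (26112, 14976) (by decide +kernel)
        (CovZ.n2 (26304, 15168) (by decide +kernel)
         (CovZ.badM (by decide +kernel))
         (CovZ.badM (by decide +kernel)))
        (CovZ.badM (by decide +kernel))))
      (CovZ.badM (by decide +kernel))))
    (CovZ.n1 (26880, 15360) (by decide +kernel)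
     (CovZ.subM 509258994083621521567112264600677888720360681760705532022493663499358529333724211033669632 (by decide +kernel)
      (CovZ.n2 (27264, 14976) (by decide +kernel)
       (CovZ.badM (by decide +kernel))
       (CovZ.n1 (27264, 15360) (by decide +kernel)
        (CovZ.n2 (27456, 15168) (by decide +kernel)
         (CovZ.badM (by decide +kernel))
         (CovZ.n1 (27456, 15360) (by decide +kernel)
          (CovZ.badM (by decide +kernel))
          (CovZ.badM (by decide +kernel))))
        (CovZ.badM (by decide +kernel)))))
     (CovZ.subM 8963353470160782866078543769531126661199770911245879548589105078437301537053446537841408724422344441856 (by decide +kernel)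
      (CovZ.n1 (26496, 14976) (by decide +kernel)
       (CovZ.n2 (26496, 15360) (by decide +kernel)
        (CovZ.n2 (26688, 15168) (by decide +kernel)
         (CovZ.badM (by decide +kernel))
         (CovZ.n1 (26688, 15360) (by decide +kernel)
          (CovZ.badM (by decide +kernel))
          (CovZ.badM (by decide +kernel))))
        (CovZ.n1 (26304, 15168) (by decide +kernel)
         (CovZ.n2 (26304, 15360) (by decide +kernel)
          (CovZ.badM (by decide +kernel))
          (CovZ.badM (by decide +kernel)))
         (CovZ.badM (by decide +kernel))))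
       (CovZ.n1 (26880, 14976) (by decide +kernel)
        (CovZ.badM (by decide +kernel))
        (CovZ.n1 (26688, 15168) (by decide +kernel)
         (CovZ.badM (by decide +kernel))
         (CovZ.badM (by decide +kernel)))))))))

theorem TD_s6_1 : SqZ TD_M TD_L [0, 7, 6, 1] 18432 12288 1536 6 1 :=
  SqZ.mk (a := 27648) (b := 29184) (c := 13824) (d := 15360) (by norm_num) (by norm_num) (by norm_num) (by norm_num)
    (CovZ.topM TD_LL 8749002899140999515745385068029282341879320498694657985141142949487986747878609515236699118053196800 (by decide +kernel) (CovZ.n2 (28416, 14592) (by decide +kernel)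
    (CovZ.n2 (29184, 14592) (by decide +kernel)
     (CovZ.badM (by decide +kernel))
     (CovZ.n1 (28800, 14976) (by decide +kernel)
      (CovZ.n2 (29184, 14976) (by decide +kernel)
       (CovZ.subM 7957171782556586274486115970349133441607327136117379269566779664852929179848463739846656 (by decide +kernel)
        (CovZ.n2 (28992, 14784) (by decide +kernel)
         (CovZ.n2 (28992, 14976) (by decide +kernel)
          (CovZ.n2 (29088, 14880) (by decide +kernel)
           (CovZ.subM 7957171782556586274486115970349133441607298412757563479047423630290551952200534008528896 (by decide +kernel)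
            (CovZ.n2 (28992, 14880) (by decide +kernel)
             (CovZ.n2 (29040, 14928) (by decide +kernel)
              (CovZ.badM (by decide +kernel))
              (CovZ.n1 (28992, 14928) (by decide +kernel)
               (CovZ.leaf K2_ok TD_l8339 _)
               (CovZ.badM (by decide +kernel))))
             (CovZ.badM (by decide +kernel))))
           (CovZ.n1 (29088, 14976) (by decide +kernel)
            (CovZ.n2 (29136, 14928) (by decide +kernel)
             (CovZ.n2 (29088, 14928) (by decide +kernel)
              (CovZ.leaf K2_ok TD_l8341 _)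
              (CovZ.leaf K2_ok TD_l8342 _))
             (CovZ.n1 (29136, 14976) (by decide +kernel)
              (CovZ.leaf K2_ok TD_l8343 _)
              (CovZ.leaf K2_ok TD_l8344 _)))
            (CovZ.n1 (29040, 14928) (by decide +kernel)
             (CovZ.n2 (29040, 14976) (by decide +kernel)
              (CovZ.leaf K2_ok TD_l8345 _)
              (CovZ.n1 (29016, 14952) (by decide +kernel)
               (CovZ.leaf K2_ok TD_l8346 _)
               (CovZ.leaf K2_ok TD_l8347 _)))
             (CovZ.n1 (29088, 14928) (by decide +kernel)
              (CovZ.n2 (29064, 14904) (by decide +kernel)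
               (CovZ.leaf K2_ok TD_l8348 _)
               (CovZ.leaf K2_ok TD_l8349 _))
              (CovZ.n1 (29064, 14952) (by decide +kernel)
               (CovZ.leaf K2_ok TD_l8350 _)
               (CovZ.leaf K2_ok TD_l8351 _))))))
          (CovZ.subM 7957171782556586274486115970349133441607298412757563479047423630290551952200534008528896 (by decide +kernel)
           (CovZ.n1 (28896, 14880) (by decide +kernel)
            (CovZ.n2 (28896, 14976) (by decide +kernel)
             (CovZ.n2 (28944, 14928) (by decide +kernel)
              (CovZ.badM (by decide +kernel))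
              (CovZ.n1 (28944, 14976) (by decide +kernel)
               (CovZ.leaf K2_ok TD_l8352 _)
               (CovZ.n1 (28920, 14952) (by decide +kernel)
                (CovZ.leaf K2_ok TD_l8353 _)
                (CovZ.leaf K2_ok TD_l8354 _))))
             (CovZ.badM (by decide +kernel)))
            (CovZ.n1 (28992, 14880) (by decide +kernel)
             (CovZ.badM (by decide +kernel))
             (CovZ.n1 (28944, 14928) (by decide +kernel)
              (CovZ.n2 (28992, 14928) (by decide +kernel)
               (CovZ.badM (by decide +kernel))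
               (CovZ.n1 (28968, 14952) (by decide +kernel)
                (CovZ.leaf K2_ok TD_l8355 _)
                (CovZ.badM (by decide +kernel))))
              (CovZ.badM (by decide +kernel)))))))
         (CovZ.n1 (29184, 14784) (by decide +kernel)
          (CovZ.badM (by decide +kernel))
          (CovZ.n1 (29088, 14880) (by decide +kernel)
           (CovZ.n2 (29184, 14880) (by decide +kernel)
            (CovZ.subM 83076749736557242056487941284298752 (by decide +kernel)
             (CovZ.n2 (29136, 14832) (by decide +kernel)
              (CovZ.n2 (29136, 14880) (by decide +kernel)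
               (CovZ.n2 (29160, 14856) (by decide +kernel)
                (CovZ.badM (by decide +kernel))
                (CovZ.leaf K2_ok TD_l8357 _))
               (CovZ.badM (by decide +kernel)))
              (CovZ.n1 (29184, 14832) (by decide +kernel)
               (CovZ.badM (by decide +kernel))
               (CovZ.n1 (29160, 14856) (by decide +kernel)
                (CovZ.leaf K2_ok TD_l8358 _)
                (CovZ.badM (by decide +kernel))))))
            (CovZ.n1 (29136, 14928) (by decide +kernel)
             (CovZ.n2 (29184, 14928) (by decide +kernel)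
              (CovZ.n2 (29160, 14904) (by decide +kernel)
               (CovZ.leaf K2_ok TD_l8359 _)
               (CovZ.leaf K2_ok TD_l8360 _))
              (CovZ.leaf K2_ok TD_l8361 _))
             (CovZ.n1 (29136, 14880) (by decide +kernel)
              (CovZ.n2 (29112, 14904) (by decide +kernel)
               (CovZ.leaf K2_ok TD_l8362 _)
               (CovZ.badM (by decide +kernel)))
              (CovZ.leaf K2_ok TD_l8364 _))))
           (CovZ.badM (by decide +kernel))))))
       (CovZ.n1 (28992, 15168) (by decide +kernel)
        (CovZ.n2 (29184, 15168) (by decide +kernel)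
         (CovZ.subM 7957171782556586274486115970349133441607327136117379269566782140733007750609013538095104 (by decide +kernel)
          (CovZ.n2 (29088, 15072) (by decide +kernel)
           (CovZ.n2 (29088, 15168) (by decide +kernel)
            (CovZ.leaf K2_ok TD_l8365 _)
            (CovZ.n1 (29040, 15120) (by decide +kernel)
             (CovZ.leaf K2_ok TD_l8366 _)
             (CovZ.leaf K2_ok TD_l8367 _)))
           (CovZ.n1 (29184, 15072) (by decide +kernel)
            (CovZ.n2 (29136, 15024) (by decide +kernel)
             (CovZ.leaf K2_ok TD_l8368 _)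
             (CovZ.leaf K2_ok TD_l8369 _))
            (CovZ.n1 (29136, 15120) (by decide +kernel)
             (CovZ.leaf K2_ok TD_l8370 _)
             (CovZ.leaf K2_ok TD_l8371 _)))))
         (CovZ.n1 (29088, 15264) (by decide +kernel)
          (CovZ.n2 (29184, 15264) (by decide +kernel)
           (CovZ.leaf K2_ok TD_l8372 _)
           (CovZ.leaf K2_ok TD_l8373 _))
          (CovZ.n1 (29088, 15168) (by decide +kernel)
           (CovZ.leaf K2_ok TD_l8374 _)
           (CovZ.leaf K2_ok TD_l8375 _))))
        (CovZ.subM 7957171782556586274486115970349133441607327136117379269566782140733007750609013538095104 (by decide +kernel)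
         (CovZ.n1 (28992, 14976) (by decide +kernel)
          (CovZ.n2 (28896, 15072) (by decide +kernel)
           (CovZ.n2 (28992, 15072) (by decide +kernel)
            (CovZ.n2 (28944, 15024) (by decide +kernel)
             (CovZ.n2 (28944, 15072) (by decide +kernel)
              (CovZ.leaf K2_ok TD_l8376 _)
              (CovZ.leaf K2_ok TD_l8377 _))
             (CovZ.n1 (28992, 15024) (by decide +kernel)
              (CovZ.leaf K2_ok TD_l8378 _)
              (CovZ.leaf K2_ok TD_l8379 _)))
            (CovZ.n1 (28944, 15120) (by decide +kernel)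
             (CovZ.leaf K2_ok TD_l8380 _)
             (CovZ.n1 (28944, 15072) (by decide +kernel)
              (CovZ.leaf K2_ok TD_l8381 _)
              (CovZ.leaf K2_ok TD_l8382 _))))
           (CovZ.subM 7957171782556586274486115970349133441607321427126608362650505695151809325309608197160960 (by decide +kernel)
            (CovZ.n1 (28896, 14976) (by decide +kernel)
             (CovZ.n2 (28848, 15024) (by decide +kernel)
              (CovZ.n2 (28896, 15024) (by decide +kernel)
               (CovZ.n2 (28872, 15000) (by decide +kernel)
                (CovZ.leaf K2_ok TD_l8383 _)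
                (CovZ.leaf K2_ok TD_l8384 _))
               (CovZ.leaf K2_ok TD_l8385 _))
              (CovZ.n1 (28848, 14976) (by decide +kernel)
               (CovZ.n2 (28824, 15000) (by decide +kernel)
                (CovZ.leaf K2_ok TD_l8386 _)
                (CovZ.badM (by decide +kernel)))
               (CovZ.n1 (28872, 15000) (by decide +kernel)
                (CovZ.leaf K2_ok TD_l8387 _)
                (CovZ.leaf K2_ok TD_l8388 _))))
             (CovZ.n1 (28944, 15024) (by decide +kernel)
              (CovZ.n2 (28944, 14976) (by decide +kernel)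
               (CovZ.n2 (28920, 15000) (by decide +kernel)
                (CovZ.leaf K2_ok TD_l8389 _)
                (CovZ.leaf K2_ok TD_l8390 _))
               (CovZ.leaf K2_ok TD_l8391 _))
              (CovZ.leaf K2_ok TD_l8392 _)))))
          (CovZ.n1 (29088, 15072) (by decide +kernel)
           (CovZ.n2 (29088, 14976) (by decide +kernel)
            (CovZ.n2 (29040, 15024) (by decide +kernel)
             (CovZ.n2 (29088, 15024) (by decide +kernel)
              (CovZ.leaf K2_ok TD_l8393 _)
              (CovZ.leaf K2_ok TD_l8394 _))
             (CovZ.n1 (29040, 14976) (by decide +kernel)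
              (CovZ.leaf K2_ok TD_l8395 _)
              (CovZ.leaf K2_ok TD_l8396 _)))
            (CovZ.n1 (29136, 15024) (by decide +kernel)
             (CovZ.n2 (29136, 14976) (by decide +kernel)
              (CovZ.leaf K2_ok TD_l8397 _)
              (CovZ.leaf K2_ok TD_l8398 _))
             (CovZ.leaf K2_ok TD_l8399 _)))
           (CovZ.n1 (28992, 15072) (by decide +kernel)
            (CovZ.n2 (29040, 15120) (by decide +kernel)
             (CovZ.leaf K2_ok TD_l8400 _)
             (CovZ.leaf K2_ok TD_l8401 _))
            (CovZ.n1 (29040, 15024) (by decide +kernel)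
             (CovZ.leaf K2_ok TD_l8402 _)
             (CovZ.n1 (29040, 15072) (by decide +kernel)
              (CovZ.leaf K2_ok TD_l8403 _)
              (CovZ.leaf K2_ok TD_l8404 _)))))))))
      (CovZ.badM (by decide +kernel))))
    (CovZ.n1 (28416, 13824) (by decide +kernel)
     (CovZ.n2 (28032, 14208) (by decide +kernel)
      (CovZ.badM (by decide +kernel))
      (CovZ.badM (by decide +kernel)))
     (CovZ.badM (by decide +kernel)))))
    (CovZ.topM TD_LL 8749002899140999515745385068029282341879320498694657985141142949487986747878609515236699118053196800 (by decide +kernel) (CovZ.n0 (28416, 14592) (by decide +kernel)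
    (CovZ.subM 348449143727043462466574168770680446844928 (by decide +kernel)
     (CovZ.n2 (27648, 14592) (by decide +kernel)
      (CovZ.n2 (28032, 14976) (by decide +kernel)
       (CovZ.n2 (28032, 14592) (by decide +kernel)
        (CovZ.n2 (27840, 14784) (by decide +kernel)
         (CovZ.badM (by decide +kernel))
         (CovZ.badM (by decide +kernel)))
        (CovZ.badM (by decide +kernel)))
       (CovZ.n1 (27648, 14976) (by decide +kernel)
        (CovZ.n2 (27840, 15168) (by decide +kernel)
         (CovZ.n2 (27840, 14976) (by decide +kernel)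
          (CovZ.n2 (27744, 15072) (by decide +kernel)
           (CovZ.badM (by decide +kernel))
           (CovZ.badM (by decide +kernel)))
          (CovZ.badM (by decide +kernel)))
         (CovZ.n1 (27648, 15168) (by decide +kernel)
          (CovZ.n2 (27744, 15264) (by decide +kernel)
           (CovZ.n2 (27744, 15168) (by decide +kernel)
            (CovZ.badM (by decide +kernel))
            (CovZ.badM (by decide +kernel)))
           (CovZ.badM (by decide +kernel)))
          (CovZ.n1 (27744, 15072) (by decide +kernel)
           (CovZ.badM (by decide +kernel))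
           (CovZ.n1 (27744, 15168) (by decide +kernel)
            (CovZ.badM (by decide +kernel))
            (CovZ.badM (by decide +kernel))))))
        (CovZ.n1 (27840, 14784) (by decide +kernel)
         (CovZ.badM (by decide +kernel))
         (CovZ.n1 (27840, 14976) (by decide +kernel)
          (CovZ.badM (by decide +kernel))
          (CovZ.badM (by decide +kernel))))))
      (CovZ.n1 (28032, 14208) (by decide +kernel)
       (CovZ.badM (by decide +kernel))
       (CovZ.n1 (28032, 14592) (by decide +kernel)
        (CovZ.badM (by decide +kernel))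
        (CovZ.badM (by decide +kernel))))))
    (CovZ.n1 (28416, 15360) (by decide +kernel)
     TD_u0
     TD_u1)))

theorem TD_s7_1 : SqZ TD_M TD_L [0, 7, 6, 1] 18432 12288 1536 7 1 :=
  SqZ.mk (a := 29184) (b := 30720) (c := 13824) (d := 15360) (by norm_num) (by norm_num) (by norm_num) (by norm_num)
    (CovZ.topM TD_LL 8749002899140004869272565494758775070076607984589326584563753855814280996882577473754986770077910144 (by decide +kernel) (CovZ.n2 (29952, 14592) (by decide +kernel)
    (CovZ.n2 (30720, 14592) (by decide +kernel)
     TD_u2
     TD_u3)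
    (CovZ.n1 (29952, 13824) (by decide +kernel)
     (CovZ.n2 (29568, 14208) (by decide +kernel)
      (CovZ.badM (by decide +kernel))
      (CovZ.badM (by decide +kernel)))
     (CovZ.badM (by decide +kernel)))))
    (CovZ.topM TD_LL 8749002899140004869272565494758775070076607984589326584563753855814280996882577473754986770077910144 (by decide +kernel) (CovZ.n0 (29952, 14592) (by decide +kernel)
    (CovZ.n2 (29184, 14592) (by decide +kernel)
     (CovZ.n2 (29568, 14976) (by decide +kernel)
      TD_u4
      TD_u5)
     (CovZ.n1 (29568, 14208) (by decide +kernel)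
      (CovZ.badM (by decide +kernel))
      (CovZ.n1 (29568, 14592) (by decide +kernel)
       (CovZ.badM (by decide +kernel))
       (CovZ.badM (by decide +kernel)))))
    (CovZ.n1 (29952, 15360) (by decide +kernel)
     TD_u6
     TD_u7)))

theorem TD_s8_1 : SqZ TD_M TD_L [0, 7, 6, 1] 18432 12288 1536 8 1 :=
  SqZ.mk (a := 30720) (b := 32256) (c := 13824) (d := 15360) (by norm_num) (by norm_num) (by norm_num) (by norm_num)
    (CovZ.topM TD_LL 8749002899132047697490008908470485461412677723572849751412073196463651523506527649262864172182470784 (by decide +kernel) (CovZ.n2 (31488, 14592) (by decide +kernel)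
    (CovZ.subM 5708990770823839526709023956368811464073478144 (by decide +kernel)
     (CovZ.n2 (32256, 14592) (by decide +kernel)
      (CovZ.n2 (31872, 14208) (by decide +kernel)
       (CovZ.n2 (31872, 14592) (by decide +kernel)
        (CovZ.badM (by decide +kernel))
        (CovZ.n1 (31680, 14400) (by decide +kernel)
         (CovZ.n2 (31680, 14592) (by decide +kernel)
          (CovZ.badM (by decide +kernel))
          (CovZ.n1 (31584, 14496) (by decide +kernel)
           (CovZ.n2 (31584, 14592) (by decide +kernel)
            (CovZ.badM (by decide +kernel))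
            (CovZ.leaf K2_ok TD_l12505 _))
           (CovZ.badM (by decide +kernel))))
         (CovZ.badM (by decide +kernel))))
       (CovZ.badM (by decide +kernel)))
      (CovZ.n1 (31872, 14976) (by decide +kernel)
       (CovZ.badM (by decide +kernel))
       (CovZ.n1 (31872, 14592) (by decide +kernel)
        (CovZ.n2 (31680, 14784) (by decide +kernel)
         (CovZ.badM (by decide +kernel))
         (CovZ.n1 (31680, 14592) (by decide +kernel)
          (CovZ.n2 (31584, 14688) (by decide +kernel)
           (CovZ.badM (by decide +kernel))
           (CovZ.n1 (31584, 14592) (by decide +kernel)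
            (CovZ.leaf K2_ok TD_l12573 _)
            (CovZ.badM (by decide +kernel))))
          (CovZ.badM (by decide +kernel))))
        (CovZ.badM (by decide +kernel))))))
    (CovZ.subM 5708990770823839524233143877798050914275229696 (by decide +kernel)
     (CovZ.n1 (31488, 13824) (by decide +kernel)
      (CovZ.n2 (31104, 14208) (by decide +kernel)
       (CovZ.n2 (31488, 14208) (by decide +kernel)
        (CovZ.badM (by decide +kernel))
        (CovZ.n1 (31296, 14400) (by decide +kernel)
         (CovZ.n2 (31488, 14400) (by decide +kernel)
          (CovZ.n2 (31392, 14304) (by decide +kernel)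
           (CovZ.n2 (31392, 14400) (by decide +kernel)
            (CovZ.n2 (31440, 14352) (by decide +kernel)
             (CovZ.leaf K2_ok TD_l12583 _)
             (CovZ.leaf K2_ok TD_l12584 _))
            (CovZ.n1 (31344, 14352) (by decide +kernel)
             (CovZ.n2 (31344, 14400) (by decide +kernel)
              (CovZ.leaf K2_ok TD_l12585 _)
              (CovZ.leaf K2_ok TD_l12586 _))
             (CovZ.n1 (31392, 14352) (by decide +kernel)
              (CovZ.leaf K2_ok TD_l12587 _)
              (CovZ.leaf K2_ok TD_l12588 _))))
           (CovZ.n1 (31488, 14304) (by decide +kernel)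
            (CovZ.n2 (31440, 14256) (by decide +kernel)
             (CovZ.n2 (31440, 14304) (by decide +kernel)
              (CovZ.leaf K2_ok TD_l12589 _)
              (CovZ.n1 (31416, 14280) (by decide +kernel)
               (CovZ.leaf K2_ok TD_l12590 _)
               (CovZ.leaf K2_ok TD_l12591 _)))
             (CovZ.n1 (31488, 14256) (by decide +kernel)
              (CovZ.n2 (31464, 14232) (by decide +kernel)
               (CovZ.leaf K2_ok TD_l12592 _)
               (CovZ.leaf K2_ok TD_l12593 _))
              (CovZ.leaf K2_ok TD_l12594 _)))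
            (CovZ.n1 (31440, 14352) (by decide +kernel)
             (CovZ.n2 (31488, 14352) (by decide +kernel)
              (CovZ.leaf K2_ok TD_l12595 _)
              (CovZ.leaf K2_ok TD_l12596 _))
             (CovZ.n1 (31440, 14304) (by decide +kernel)
              (CovZ.leaf K2_ok TD_l12597 _)
              (CovZ.leaf K2_ok TD_l12598 _)))))
          (CovZ.n1 (31392, 14496) (by decide +kernel)
           (CovZ.n2 (31488, 14496) (by decide +kernel)
            (CovZ.n2 (31440, 14448) (by decide +kernel)
             (CovZ.leaf K2_ok TD_l12599 _)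
             (CovZ.leaf K2_ok TD_l12600 _))
            (CovZ.leaf K2_ok TD_l12601 _))
           (CovZ.n1 (31392, 14400) (by decide +kernel)
            (CovZ.n2 (31344, 14448) (by decide +kernel)
             (CovZ.leaf K2_ok TD_l12602 _)
             (CovZ.leaf K2_ok TD_l12603 _))
            (CovZ.n1 (31440, 14448) (by decide +kernel)
             (CovZ.leaf K2_ok TD_l12604 _)
             (CovZ.leaf K2_ok TD_l12605 _)))))
         (CovZ.n1 (31296, 14208) (by decide +kernel)
          (CovZ.n2 (31200, 14304) (by decide +kernel)
           (CovZ.n2 (31296, 14304) (by decide +kernel)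
            (CovZ.n2 (31248, 14256) (by decide +kernel)
             (CovZ.n2 (31248, 14304) (by decide +kernel)
              (CovZ.leaf K2_ok TD_l17983 _)
              (CovZ.badM (by decide +kernel)))
             (CovZ.n1 (31296, 14256) (by decide +kernel)
              (CovZ.badM (by decide +kernel))
              (CovZ.n1 (31272, 14280) (by decide +kernel)
               (CovZ.leaf K2_ok TD_l17984 _)
               (CovZ.badM (by decide +kernel)))))
            (CovZ.n1 (31248, 14352) (by decide +kernel)
             (CovZ.n2 (31296, 14352) (by decide +kernel)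
              (CovZ.leaf K2_ok TD_l12606 _)
              (CovZ.leaf K2_ok TD_l12607 _))
             (CovZ.n1 (31248, 14304) (by decide +kernel)
              (CovZ.n2 (31224, 14328) (by decide +kernel)
               (CovZ.leaf K2_ok TD_l12608 _)
               (CovZ.leaf K2_ok TD_l17985 _))
              (CovZ.leaf K2_ok TD_l12609 _))))
           (CovZ.badM (by decide +kernel)))
          (CovZ.n1 (31392, 14304) (by decide +kernel)
           (CovZ.n2 (31392, 14208) (by decide +kernel)
            (CovZ.n2 (31344, 14256) (by decide +kernel)
             (CovZ.n2 (31392, 14256) (by decide +kernel)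
              (CovZ.badM (by decide +kernel))
              (CovZ.n1 (31368, 14280) (by decide +kernel)
               (CovZ.leaf K2_ok TD_l12610 _)
               (CovZ.leaf K2_ok TD_l17986 _)))
             (CovZ.badM (by decide +kernel)))
            (CovZ.n1 (31440, 14256) (by decide +kernel)
             (CovZ.n2 (31440, 14208) (by decide +kernel)
              (CovZ.n2 (31416, 14232) (by decide +kernel)
               (CovZ.leaf K2_ok TD_l12611 _)
               (CovZ.badM (by decide +kernel)))
              (CovZ.n1 (31464, 14232) (by decide +kernel)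
               (CovZ.badM (by decide +kernel))
               (CovZ.leaf K2_ok TD_l12612 _)))
             (CovZ.n1 (31392, 14256) (by decide +kernel)
              (CovZ.leaf K2_ok TD_l12613 _)
              (CovZ.n1 (31416, 14232) (by decide +kernel)
               (CovZ.badM (by decide +kernel))
               (CovZ.leaf K2_ok TD_l12614 _)))))
           (CovZ.n1 (31296, 14304) (by decide +kernel)
            (CovZ.n2 (31344, 14352) (by decide +kernel)
             (CovZ.n2 (31344, 14304) (by decide +kernel)
              (CovZ.leaf K2_ok TD_l12615 _)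
              (CovZ.leaf K2_ok TD_l12616 _))
             (CovZ.leaf K2_ok TD_l12617 _))
            (CovZ.n1 (31344, 14256) (by decide +kernel)
             (CovZ.n2 (31296, 14256) (by decide +kernel)
              (CovZ.n2 (31320, 14280) (by decide +kernel)
               (CovZ.badM (by decide +kernel))
               (CovZ.leaf K2_ok TD_l17987 _))
              (CovZ.badM (by decide +kernel)))
             (CovZ.n1 (31344, 14304) (by decide +kernel)
              (CovZ.n2 (31368, 14280) (by decide +kernel)
               (CovZ.leaf K2_ok TD_l17988 _)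
               (CovZ.leaf K2_ok TD_l12618 _))
              (CovZ.n1 (31320, 14280) (by decide +kernel)
               (CovZ.leaf K2_ok TD_l17989 _)
               (CovZ.leaf K2_ok TD_l17990 _)))))))))
       (CovZ.badM (by decide +kernel)))
      (CovZ.n1 (31872, 14208) (by decide +kernel)
       (CovZ.n2 (31872, 13824) (by decide +kernel)
        (CovZ.n2 (31680, 14016) (by decide +kernel)
         (CovZ.badM (by decide +kernel))
         (CovZ.badM (by decide +kernel)))
        (CovZ.badM (by decide +kernel)))
       (CovZ.n1 (31488, 14208) (by decide +kernel)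
        (CovZ.n2 (31680, 14400) (by decide +kernel)
         (CovZ.n2 (31680, 14208) (by decide +kernel)
          (CovZ.n2 (31584, 14304) (by decide +kernel)
           (CovZ.badM (by decide +kernel))
           (CovZ.n1 (31584, 14208) (by decide +kernel)
            (CovZ.n2 (31536, 14256) (by decide +kernel)
             (CovZ.badM (by decide +kernel))
             (CovZ.n1 (31536, 14208) (by decide +kernel)
              (CovZ.n2 (31512, 14232) (by decide +kernel)
               (CovZ.badM (by decide +kernel))
               (CovZ.leaf K2_ok TD_l12629 _))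
              (CovZ.badM (by decide +kernel))))
            (CovZ.badM (by decide +kernel))))
          (CovZ.badM (by decide +kernel)))
         (CovZ.n1 (31488, 14400) (by decide +kernel)
          (CovZ.n2 (31584, 14496) (by decide +kernel)
           (CovZ.n2 (31584, 14400) (by decide +kernel)
            (CovZ.n2 (31536, 14448) (by decide +kernel)
             (CovZ.badM (by decide +kernel))
             (CovZ.leaf K2_ok TD_l12647 _))
            (CovZ.badM (by decide +kernel)))
           (CovZ.n1 (31488, 14496) (by decide +kernel)
            (CovZ.leaf K2_ok TD_l12649 _)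
            (CovZ.leaf K2_ok TD_l12650 _)))
          (CovZ.n1 (31584, 14304) (by decide +kernel)
           (CovZ.n2 (31488, 14304) (by decide +kernel)
            (CovZ.n2 (31536, 14352) (by decide +kernel)
             (CovZ.n2 (31536, 14304) (by decide +kernel)
              (CovZ.leaf K2_ok TD_l12651 _)
              (CovZ.badM (by decide +kernel)))
             (CovZ.leaf K2_ok TD_l12653 _))
            (CovZ.n1 (31536, 14256) (by decide +kernel)
             (CovZ.n2 (31488, 14256) (by decide +kernel)
              (CovZ.leaf K2_ok TD_l12654 _)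
              (CovZ.leaf K2_ok TD_l12655 _))
             (CovZ.n1 (31536, 14304) (by decide +kernel)
              (CovZ.badM (by decide +kernel))
              (CovZ.leaf K2_ok TD_l12657 _))))
           (CovZ.n1 (31584, 14400) (by decide +kernel)
            (CovZ.badM (by decide +kernel))
            (CovZ.n1 (31536, 14352) (by decide +kernel)
             (CovZ.leaf K2_ok TD_l12660 _)
             (CovZ.badM (by decide +kernel)))))))
        (CovZ.n1 (31680, 14016) (by decide +kernel)
         (CovZ.badM (by decide +kernel))
         (CovZ.n1 (31680, 14208) (by decide +kernel)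
          (CovZ.badM (by decide +kernel))
          (CovZ.n1 (31584, 14112) (by decide +kernel)
           (CovZ.n2 (31584, 14208) (by decide +kernel)
            (CovZ.badM (by decide +kernel))
            (CovZ.n1 (31536, 14160) (by decide +kernel)
             (CovZ.n2 (31536, 14208) (by decide +kernel)
              (CovZ.badM (by decide +kernel))
              (CovZ.badM (by decide +kernel)))
             (CovZ.badM (by decide +kernel))))
           (CovZ.badM (by decide +kernel)))))))))))
    (CovZ.topM TD_LL 8749002899132047697490008908470485461412677723572849751412073196463651523506527649262864172182470784 (by decide +kernel) (CovZ.n0 (31488, 14592) (by decide +kernel)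
    (CovZ.n2 (30720, 14592) (by decide +kernel)
     TD_u8
     TD_u9)
    (CovZ.n1 (31488, 15360) (by decide +kernel)
     (CovZ.subM 5708990770823839526709023956368811464073478144 (by decide +kernel)
      (CovZ.n2 (31872, 14976) (by decide +kernel)
       (CovZ.n2 (31488, 14976) (by decide +kernel)
        (CovZ.n2 (31680, 15168) (by decide +kernel)
         (CovZ.n2 (31680, 14976) (by decide +kernel)
          (CovZ.leaf K2_ok TD_l12818 _)
          (CovZ.badM (by decide +kernel)))
         (CovZ.leaf K2_ok TD_l12820 _))
        (CovZ.n1 (31680, 14784) (by decide +kernel)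
         (CovZ.n2 (31488, 14784) (by decide +kernel)
          (CovZ.leaf K2_ok TD_l12821 _)
          (CovZ.n1 (31584, 14688) (by decide +kernel)
           (CovZ.leaf K2_ok TD_l12822 _)
           (CovZ.leaf K2_ok TD_l12823 _)))
         (CovZ.n1 (31680, 14976) (by decide +kernel)
          (CovZ.badM (by decide +kernel))
          (CovZ.n1 (31584, 14880) (by decide +kernel)
           (CovZ.leaf K2_ok TD_l12825 _)
           (CovZ.badM (by decide +kernel))))))
       (CovZ.n1 (31872, 15360) (by decide +kernel)
        (CovZ.badM (by decide +kernel))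
        (CovZ.n1 (31680, 15168) (by decide +kernel)
         (CovZ.n2 (31680, 15360) (by decide +kernel)
          (CovZ.badM (by decide +kernel))
          (CovZ.leaf K2_ok TD_l12830 _))
         (CovZ.badM (by decide +kernel))))))
     (CovZ.n1 (31104, 14976) (by decide +kernel)
      (CovZ.n2 (31104, 15360) (by decide +kernel)
       (CovZ.n2 (31296, 15168) (by decide +kernel)
        (CovZ.leaf K2_ok TD_l12833 _)
        (CovZ.n1 (31296, 15360) (by decide +kernel)
         (CovZ.leaf K2_ok TD_l12834 _)
         (CovZ.leaf K2_ok TD_l12835 _)))
       (CovZ.n1 (30912, 15168) (by decide +kernel)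
        (CovZ.n2 (30912, 15360) (by decide +kernel)
         (CovZ.leaf K2_ok TD_l12836 _)
         (CovZ.leaf K2_ok TD_l12837 _))
        (CovZ.n1 (31104, 15168) (by decide +kernel)
         (CovZ.n2 (31008, 15072) (by decide +kernel)
          (CovZ.leaf K2_ok TD_l12838 _)
          (CovZ.leaf K2_ok TD_l12839 _))
         (CovZ.leaf K2_ok TD_l12840 _))))
      (CovZ.subM 5708990770823839526709023956368811464073478144 (by decide +kernel)
       (CovZ.n1 (31488, 14976) (by decide +kernel)
        (CovZ.n2 (31296, 14784) (by decide +kernel)
         (CovZ.n2 (31296, 14976) (by decide +kernel)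
          (CovZ.leaf K2_ok TD_l12841 _)
          (CovZ.n1 (31200, 14880) (by decide +kernel)
           (CovZ.leaf K2_ok TD_l12842 _)
           (CovZ.leaf K2_ok TD_l12843 _)))
         (CovZ.n1 (31488, 14784) (by decide +kernel)
          (CovZ.n2 (31392, 14688) (by decide +kernel)
           (CovZ.leaf K2_ok TD_l12844 _)
           (CovZ.n1 (31488, 14688) (by decide +kernel)
            (CovZ.leaf K2_ok TD_l12845 _)
            (CovZ.leaf K2_ok TD_l12846 _)))
          (CovZ.n1 (31392, 14880) (by decide +kernel)
           (CovZ.leaf K2_ok TD_l12847 _)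
           (CovZ.leaf K2_ok TD_l12848 _))))
        (CovZ.n1 (31296, 15168) (by decide +kernel)
         (CovZ.n2 (31488, 15168) (by decide +kernel)
          (CovZ.leaf K2_ok TD_l12849 _)
          (CovZ.leaf K2_ok TD_l12850 _))
         (CovZ.n1 (31296, 14976) (by decide +kernel)
          (CovZ.n2 (31200, 15072) (by decide +kernel)
           (CovZ.leaf K2_ok TD_l12851 _)
           (CovZ.leaf K2_ok TD_l12852 _))
          (CovZ.leaf K2_ok TD_l12853 _)))))))))

theorem TD_s0_2 : SqZ TD_M TD_L [0, 7, 6, 1] 18432 12288 1536 0 2 :=
  SqZ.mk (a := 18432) (b := 19968) (c := 15360) (d := 16896) (by norm_num) (by norm_num) (by norm_num) (by norm_num)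
    (CovZ.topM TD_LL 0 (by decide +kernel) (CovZ.badM (by decide +kernel)))
    (CovZ.topM TD_LL 0 (by decide +kernel) (CovZ.badM (by decide +kernel)))

theorem TD_s1_2 : SqZ TD_M TD_L [0, 7, 6, 1] 18432 12288 1536 1 2 :=
  SqZ.mk (a := 19968) (b := 21504) (c := 15360) (d := 16896) (by norm_num) (by norm_num) (by norm_num) (by norm_num)
    (CovZ.topM TD_LL 0 (by decide +kernel) (CovZ.badM (by decide +kernel)))
    (CovZ.topM TD_LL 0 (by decide +kernel) (CovZ.badM (by decide +kernel)))

theorem TD_s2_2 : SqZ TD_M TD_L [0, 7, 6, 1] 18432 12288 1536 2 2 :=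
  SqZ.mk (a := 21504) (b := 23040) (c := 15360) (d := 16896) (by norm_num) (by norm_num) (by norm_num) (by norm_num)
    (CovZ.topM TD_LL 0 (by decide +kernel) (CovZ.badM (by decide +kernel)))
    (CovZ.topM TD_LL 0 (by decide +kernel) (CovZ.badM (by decide +kernel)))

theorem TD_s3_2 : SqZ TD_M TD_L [0, 7, 6, 1] 18432 12288 1536 3 2 :=
  SqZ.mk (a := 23040) (b := 24576) (c := 15360) (d := 16896) (by norm_num) (by norm_num) (by norm_num) (by norm_num)
    (CovZ.topM TD_LL 0 (by decide +kernel) (CovZ.badM (by decide +kernel)))
    (CovZ.topM TD_LL 0 (by decide +kernel) (CovZ.badM (by decide +kernel)))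

theorem TD_s4_2 : SqZ TD_M TD_L [0, 7, 6, 1] 18432 12288 1536 4 2 :=
  SqZ.mk (a := 24576) (b := 26112) (c := 15360) (d := 16896) (by norm_num) (by norm_num) (by norm_num) (by norm_num)
    (CovZ.topM TD_LL 311373741114969054114857049580390680099402708753719976273568032473221628386257003564851299781715576356993 (by decide +kernel) (CovZ.n2 (25344, 16128) (by decide +kernel)
    (CovZ.n2 (26112, 16128) (by decide +kernel)
     TD_u14
     TD_u15)
    (CovZ.subM 20193801127505681293929392520734294777424036918440953311972761764186264155239687288129784149195012177920 (by decide +kernel)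
     (CovZ.n1 (25344, 15360) (by decide +kernel)
      (CovZ.badM (by decide +kernel))
      (CovZ.n1 (25728, 15744) (by decide +kernel)
       (CovZ.n2 (25728, 15360) (by decide +kernel)
        (CovZ.badM (by decide +kernel))
        (CovZ.n1 (25920, 15552) (by decide +kernel)
         (CovZ.badM (by decide +kernel))
         (CovZ.badM (by decide +kernel))))
       (CovZ.subM 266998379490113760301186964665527079878831362683631183117009838608464733886433499566831365521408 (by decide +kernel)
        (CovZ.n1 (25344, 15744) (by decide +kernel)
         (CovZ.n2 (25536, 15936) (by decide +kernel)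
          (CovZ.n2 (25536, 15744) (by decide +kernel)
           (CovZ.badM (by decide +kernel))
           (CovZ.n1 (25632, 15840) (by decide +kernel)
            (CovZ.badM (by decide +kernel))
            (CovZ.badM (by decide +kernel))))
          (CovZ.badM (by decide +kernel)))
         (CovZ.n1 (25536, 15552) (by decide +kernel)
          (CovZ.badM (by decide +kernel))
          (CovZ.n1 (25536, 15744) (by decide +kernel)
           (CovZ.badM (by decide +kernel))
           (CovZ.badM (by decide +kernel)))))))))))
    (CovZ.topM TD_LL 311373741114969054114857049580390680099402708753719976273568032473221628386257003564851299781715576356993 (by decide +kernel) (CovZ.n0 (25344, 16128) (by decide +kernel)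
    (CovZ.subM 618970019642690137449562112 (by decide +kernel)
     (CovZ.n2 (24576, 16128) (by decide +kernel)
      (CovZ.n2 (24960, 16512) (by decide +kernel)
       (CovZ.n2 (24960, 16128) (by decide +kernel)
        (CovZ.badM (by decide +kernel))
        (CovZ.n1 (25152, 16320) (by decide +kernel)
         (CovZ.badM (by decide +kernel))
         (CovZ.badM (by decide +kernel))))
       (CovZ.badM (by decide +kernel)))
      (CovZ.badM (by decide +kernel))))
    (CovZ.n1 (25344, 16896) (by decide +kernel)
     (CovZ.n2 (25728, 16512) (by decide +kernel)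
      (CovZ.subM 266998379490113760416979055628279862000043294644544161340368644218961131605970058618030744797184 (by decide +kernel)
       (CovZ.n2 (25344, 16512) (by decide +kernel)
        (CovZ.n2 (25536, 16704) (by decide +kernel)
         (CovZ.n2 (25536, 16512) (by decide +kernel)
          (CovZ.subM 1725436586697640946858688965580145398854247892843444268918585088409600 (by decide +kernel)
           (CovZ.n2 (25440, 16608) (by decide +kernel)
            (CovZ.n2 (25536, 16608) (by decide +kernel)
             (CovZ.n2 (25488, 16560) (by decide +kernel)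
              (CovZ.leaf K2_ok TD_l4020 _)
              (CovZ.leaf K2_ok TD_l4021 _))
             (CovZ.leaf K2_ok TD_l4022 _))
            (CovZ.n1 (25440, 16512) (by decide +kernel)
             (CovZ.n2 (25392, 16560) (by decide +kernel)
              (CovZ.leaf K2_ok TD_l4023 _)
              (CovZ.n1 (25392, 16512) (by decide +kernel)
               (CovZ.leaf K2_ok TD_l4024 _)
               (CovZ.leaf K2_ok TD_l4025 _)))
             (CovZ.leaf K2_ok TD_l4026 _))))
          (CovZ.n1 (25632, 16608) (by decide +kernel)
           (CovZ.n2 (25632, 16512) (by decide +kernel)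
            (CovZ.leaf K2_ok TD_l4027 _)
            (CovZ.leaf K2_ok TD_l4028 _))
           (CovZ.leaf K2_ok TD_l4029 _)))
         (CovZ.subM 1725436586697640946858688965580145398854247892843444268918585088409600 (by decide +kernel)
          (CovZ.n1 (25344, 16704) (by decide +kernel)
           (CovZ.n2 (25440, 16800) (by decide +kernel)
            (CovZ.n2 (25440, 16704) (by decide +kernel)
             (CovZ.leaf K2_ok TD_l4030 _)
             (CovZ.leaf K2_ok TD_l4031 _))
            (CovZ.leaf K2_ok TD_l4032 _))
           (CovZ.n1 (25440, 16608) (by decide +kernel)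
            (CovZ.n2 (25344, 16608) (by decide +kernel)
             (CovZ.leaf K2_ok TD_l4033 _)
             (CovZ.leaf K2_ok TD_l4034 _))
            (CovZ.n1 (25440, 16704) (by decide +kernel)
             (CovZ.leaf K2_ok TD_l4035 _)
             (CovZ.leaf K2_ok TD_l4036 _))))))
        (CovZ.n1 (25536, 16320) (by decide +kernel)
         (CovZ.subM 10889035741470649800847630127954032328704 (by decide +kernel)
          (CovZ.n2 (25344, 16320) (by decide +kernel)
           (CovZ.n2 (25440, 16416) (by decide +kernel)
            (CovZ.n2 (25440, 16320) (by decide +kernel)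
             (CovZ.n2 (25392, 16368) (by decide +kernel)
              (CovZ.n2 (25440, 16368) (by decide +kernel)
               (CovZ.n2 (25416, 16344) (by decide +kernel)
                (CovZ.leaf K2_ok TD_l15142 _)
                (CovZ.leaf K2_ok TD_l15143 _))
               (CovZ.n1 (25416, 16392) (by decide +kernel)
                (CovZ.leaf K2_ok TD_l4037 _)
                (CovZ.leaf K2_ok TD_l15144 _)))
              (CovZ.n1 (25392, 16320) (by decide +kernel)
               (CovZ.n2 (25368, 16344) (by decide +kernel)
                (CovZ.n2 (25392, 16344) (by decide +kernel)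
                 (CovZ.leaf K2_ok TD_l15145 _)
                 (CovZ.leaf K2_ok TD_l15146 _))
                (CovZ.badM (by decide +kernel)))
               (CovZ.n1 (25416, 16344) (by decide +kernel)
                (CovZ.n2 (25416, 16320) (by decide +kernel)
                 (CovZ.leaf K2_ok TD_l15149 _)
                 (CovZ.leaf K2_ok TD_l15150 _))
                (CovZ.leaf K2_ok TD_l15151 _))))
             (CovZ.n1 (25488, 16368) (by decide +kernel)
              (CovZ.n2 (25488, 16320) (by decide +kernel)
               (CovZ.n2 (25464, 16344) (by decide +kernel)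
                (CovZ.leaf K2_ok TD_l4038 _)
                (CovZ.n1 (25464, 16320) (by decide +kernel)
                 (CovZ.leaf K2_ok TD_l15152 _)
                 (CovZ.leaf K2_ok TD_l15153 _)))
               (CovZ.leaf K2_ok TD_l4039 _))
              (CovZ.n1 (25440, 16368) (by decide +kernel)
               (CovZ.leaf K2_ok TD_l4040 _)
               (CovZ.leaf K2_ok TD_l4041 _))))
            (CovZ.n1 (25344, 16416) (by decide +kernel)
             (CovZ.n2 (25392, 16464) (by decide +kernel)
              (CovZ.n2 (25392, 16416) (by decide +kernel)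
               (CovZ.n2 (25368, 16440) (by decide +kernel)
                (CovZ.leaf K2_ok TD_l4042 _)
                (CovZ.leaf K2_ok TD_l15154 _))
               (CovZ.leaf K2_ok TD_l4043 _))
              (CovZ.leaf K2_ok TD_l4044 _))
             (CovZ.n1 (25392, 16368) (by decide +kernel)
              (CovZ.n2 (25344, 16368) (by decide +kernel)
               (CovZ.n2 (25368, 16392) (by decide +kernel)
                (CovZ.n2 (25368, 16368) (by decide +kernel)
                 (CovZ.leaf K2_ok TD_l15155 _)
                 (CovZ.leaf K2_ok TD_l15156 _))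
                (CovZ.leaf K2_ok TD_l15157 _))
               (CovZ.n1 (25368, 16344) (by decide +kernel)
                (CovZ.leaf K2_ok TD_l15158 _)
                (CovZ.n1 (25368, 16368) (by decide +kernel)
                 (CovZ.leaf K2_ok TD_l15159 _)
                 (CovZ.leaf K2_ok TD_l15160 _))))
              (CovZ.n1 (25392, 16416) (by decide +kernel)
               (CovZ.leaf K2_ok TD_l4045 _)
               (CovZ.n1 (25368, 16392) (by decide +kernel)
                (CovZ.leaf K2_ok TD_l15161 _)
                (CovZ.leaf K2_ok TD_l15162 _))))))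
           (CovZ.n1 (25440, 16224) (by decide +kernel)
            (CovZ.badM (by decide +kernel))
            (CovZ.n1 (25440, 16320) (by decide +kernel)
             (CovZ.n2 (25488, 16272) (by decide +kernel)
              (CovZ.n2 (25440, 16272) (by decide +kernel)
               (CovZ.n2 (25464, 16296) (by decide +kernel)
                (CovZ.n2 (25464, 16272) (by decide +kernel)
                 (CovZ.leaf K2_ok TD_l15163 _)
                 (CovZ.leaf K2_ok TD_l15164 _))
                (CovZ.leaf K2_ok TD_l15165 _))
               (CovZ.n1 (25464, 16248) (by decide +kernel)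
                (CovZ.badM (by decide +kernel))
                (CovZ.n1 (25464, 16272) (by decide +kernel)
                 (CovZ.leaf K2_ok TD_l15166 _)
                 (CovZ.badM (by decide +kernel)))))
              (CovZ.n1 (25488, 16320) (by decide +kernel)
               (CovZ.n2 (25512, 16296) (by decide +kernel)
                (CovZ.leaf K2_ok TD_l15167 _)
                (CovZ.leaf K2_ok TD_l15168 _))
               (CovZ.n1 (25464, 16296) (by decide +kernel)
                (CovZ.n2 (25464, 16320) (by decide +kernel)
                 (CovZ.leaf K2_ok TD_l15169 _)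
                 (CovZ.leaf K2_ok TD_l15170 _))
                (CovZ.n1 (25488, 16296) (by decide +kernel)
                 (CovZ.leaf K2_ok TD_l15171 _)
                 (CovZ.leaf K2_ok TD_l15172 _)))))
             (CovZ.n1 (25392, 16272) (by decide +kernel)
              (CovZ.n2 (25392, 16320) (by decide +kernel)
               (CovZ.n2 (25416, 16296) (by decide +kernel)
                (CovZ.badM (by decide +kernel))
                (CovZ.n1 (25416, 16320) (by decide +kernel)
                 (CovZ.leaf K2_ok TD_l15173 _)
                 (CovZ.leaf K2_ok TD_l15174 _)))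
               (CovZ.badM (by decide +kernel)))
              (CovZ.n1 (25440, 16272) (by decide +kernel)
               (CovZ.badM (by decide +kernel))
               (CovZ.n1 (25416, 16296) (by decide +kernel)
                (CovZ.n2 (25440, 16296) (by decide +kernel)
                 (CovZ.badM (by decide +kernel))
                 (CovZ.leaf K2_ok TD_l15177 _))
                (CovZ.badM (by decide +kernel)))))))))
         (CovZ.n1 (25536, 16512) (by decide +kernel)
          (CovZ.n2 (25632, 16416) (by decide +kernel)
           (CovZ.subM 1725436586697640946952225070369323185619283722137286382176564771028992 (by decide +kernel)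
            (CovZ.n2 (25536, 16416) (by decide +kernel)
             (CovZ.n2 (25584, 16464) (by decide +kernel)
              (CovZ.n2 (25584, 16416) (by decide +kernel)
               (CovZ.leaf K2_ok TD_l4046 _)
               (CovZ.leaf K2_ok TD_l4047 _))
              (CovZ.leaf K2_ok TD_l4048 _))
             (CovZ.n1 (25584, 16368) (by decide +kernel)
              (CovZ.leaf K2_ok TD_l4049 _)
              (CovZ.n1 (25584, 16416) (by decide +kernel)
               (CovZ.leaf K2_ok TD_l4050 _)
               (CovZ.leaf K2_ok TD_l4051 _)))))
           (CovZ.n1 (25632, 16512) (by decide +kernel)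
            (CovZ.leaf K2_ok TD_l4052 _)
            (CovZ.n1 (25584, 16464) (by decide +kernel)
             (CovZ.leaf K2_ok TD_l4053 _)
             (CovZ.leaf K2_ok TD_l4054 _))))
          (CovZ.subM 1725436586697640946858688965580145398854247892843444268918585088278528 (by decide +kernel)
           (CovZ.n1 (25440, 16416) (by decide +kernel)
            (CovZ.n2 (25440, 16512) (by decide +kernel)
             (CovZ.n2 (25488, 16464) (by decide +kernel)
              (CovZ.leaf K2_ok TD_l4055 _)
              (CovZ.leaf K2_ok TD_l4056 _))
             (CovZ.n1 (25392, 16464) (by decide +kernel)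
              (CovZ.n2 (25392, 16512) (by decide +kernel)
               (CovZ.leaf K2_ok TD_l4057 _)
               (CovZ.leaf K2_ok TD_l4058 _))
              (CovZ.n1 (25440, 16464) (by decide +kernel)
               (CovZ.leaf K2_ok TD_l4059 _)
               (CovZ.leaf K2_ok TD_l4060 _))))
            (CovZ.n1 (25536, 16416) (by decide +kernel)
             (CovZ.n2 (25488, 16368) (by decide +kernel)
              (CovZ.n2 (25488, 16416) (by decide +kernel)
               (CovZ.leaf K2_ok TD_l4061 _)
               (CovZ.leaf K2_ok TD_l4062 _))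
              (CovZ.n1 (25536, 16368) (by decide +kernel)
               (CovZ.n2 (25512, 16344) (by decide +kernel)
                (CovZ.leaf K2_ok TD_l4063 _)
                (CovZ.leaf K2_ok TD_l4064 _))
               (CovZ.leaf K2_ok TD_l4065 _)))
             (CovZ.n1 (25488, 16464) (by decide +kernel)
              (CovZ.leaf K2_ok TD_l4066 _)
              (CovZ.n1 (25488, 16416) (by decide +kernel)
               (CovZ.leaf K2_ok TD_l4067 _)
               (CovZ.leaf K2_ok TD_l4068 _))))))))))
      (CovZ.n1 (25728, 16896) (by decide +kernel)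
       (CovZ.n2 (25920, 16704) (by decide +kernel)
        (CovZ.subM 286687327265757318503631776880963363925215021830098748267967656417689201810766193520530622814127470542848 (by decide +kernel)
         (CovZ.n2 (25728, 16704) (by decide +kernel)
          (CovZ.n2 (25824, 16800) (by decide +kernel)
           (CovZ.leaf K2_ok TD_l4069 _)
           (CovZ.leaf K2_ok TD_l4070 _))
          (CovZ.n1 (25824, 16608) (by decide +kernel)
           (CovZ.leaf K2_ok TD_l4071 _)
           (CovZ.leaf K2_ok TD_l4072 _))))
        (CovZ.n1 (25920, 16896) (by decide +kernel)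
         (CovZ.leaf K2_ok TD_l4073 _)
         (CovZ.n1 (25824, 16800) (by decide +kernel)
          (CovZ.leaf K2_ok TD_l4074 _)
          (CovZ.leaf K2_ok TD_l4075 _))))
       (CovZ.subM 266998379490113760416979055628279862803512316774039477517311278634527565152817736696319210291200 (by decide +kernel)
        (CovZ.n1 (25536, 16704) (by decide +kernel)
         (CovZ.n2 (25536, 16896) (by decide +kernel)
          (CovZ.leaf K2_ok TD_l4076 _)
          (CovZ.n1 (25440, 16800) (by decide +kernel)
           (CovZ.leaf K2_ok TD_l4077 _)
           (CovZ.leaf K2_ok TD_l4078 _)))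
         (CovZ.n1 (25728, 16704) (by decide +kernel)
          (CovZ.n2 (25632, 16608) (by decide +kernel)
           (CovZ.n2 (25632, 16704) (by decide +kernel)
            (CovZ.leaf K2_ok TD_l4079 _)
            (CovZ.leaf K2_ok TD_l4080 _))
           (CovZ.n1 (25728, 16608) (by decide +kernel)
            (CovZ.leaf K2_ok TD_l4081 _)
            (CovZ.leaf K2_ok TD_l4082 _)))
          (CovZ.n1 (25632, 16800) (by decide +kernel)
           (CovZ.leaf K2_ok TD_l4083 _)
           (CovZ.n1 (25632, 16704) (by decide +kernel)
            (CovZ.leaf K2_ok TD_l4084 _)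
            (CovZ.leaf K2_ok TD_l4085 _))))))))
     (CovZ.subM 1725436586697640946858688965580145398854247892843444268918585088278528 (by decide +kernel)
      (CovZ.n1 (24960, 16512) (by decide +kernel)
       TD_u16
       TD_u17)))))

theorem TD_s5_2 : SqZ TD_M TD_L [0, 7, 6, 1] 18432 12288 1536 5 2 :=
  SqZ.mk (a := 26112) (b := 27648) (c := 15360) (d := 16896) (by norm_num) (by norm_num) (by norm_num) (by norm_num)
    (CovZ.topM TD_LL 5517170450147596678178765189158591949017484878851954140789693505848731542697869082486149412574737132080257 (by decide +kernel) (CovZ.n2 (26880, 16128) (by decide +kernel)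
    TD_u21
    TD_u22))
    (CovZ.topM TD_LL 5517170450147596678178768983433772077394576518425990908468214465499936818484992606450170139747680549784705 (by decide +kernel) (CovZ.n0 (26880, 16128) (by decide +kernel)
    (CovZ.n2 (26112, 16128) (by decide +kernel)
     (CovZ.n2 (26496, 16512) (by decide +kernel)
      (CovZ.n2 (26496, 16128) (by decide +kernel)
       (CovZ.n2 (26304, 16320) (by decide +kernel)
        (CovZ.n2 (26496, 16320) (by decide +kernel)
         (CovZ.subM 5512646113477348409334595576295749518839630067411319463025755347753384940261200546269061412608043311431809 (by decide +kernel)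
          (CovZ.n2 (26400, 16224) (by decide +kernel)
           (CovZ.n2 (26400, 16320) (by decide +kernel)
            (CovZ.leaf K2_ok TD_l6540 _)
            (CovZ.leaf K2_ok TD_l6541 _))
           (CovZ.n1 (26496, 16224) (by decide +kernel)
            (CovZ.n2 (26448, 16176) (by decide +kernel)
             (CovZ.leaf K2_ok TD_l6542 _)
             (CovZ.leaf K2_ok TD_l6543 _))
            (CovZ.leaf K2_ok TD_l6544 _))))
         (CovZ.n1 (26400, 16416) (by decide +kernel)
          (CovZ.leaf K2_ok TD_l6545 _)
          (CovZ.n1 (26400, 16320) (by decide +kernel)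
           (CovZ.leaf K2_ok TD_l6546 _)
           (CovZ.leaf K2_ok TD_l6547 _))))
        (CovZ.n1 (26304, 16128) (by decide +kernel)
         (CovZ.subM 920575561984954148548798173339895847338824846876834553155490883120306666139377819775821280132003702898689 (by decide +kernel)
          (CovZ.n2 (26208, 16224) (by decide +kernel)
           (CovZ.n2 (26304, 16224) (by decide +kernel)
            (CovZ.n2 (26256, 16176) (by decide +kernel)
             (CovZ.leaf K2_ok TD_l6548 _)
             (CovZ.leaf K2_ok TD_l6549 _))
            (CovZ.leaf K2_ok TD_l6550 _))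
           (CovZ.n1 (26208, 16128) (by decide +kernel)
            (CovZ.n2 (26160, 16176) (by decide +kernel)
             (CovZ.leaf K2_ok TD_l6551 _)
             (CovZ.n1 (26160, 16128) (by decide +kernel)
              (CovZ.leaf K2_ok TD_l6552 _)
              (CovZ.leaf K2_ok TD_l6553 _)))
            (CovZ.n1 (26256, 16176) (by decide +kernel)
             (CovZ.leaf K2_ok TD_l6554 _)
             (CovZ.leaf K2_ok TD_l6555 _)))))
         (CovZ.subM 5512646113477348409334595576295749518839630067411319463025755347753384940261200546269061412608043311431681 (by decide +kernel)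
          (CovZ.n1 (26400, 16224) (by decide +kernel)
           (CovZ.n2 (26400, 16128) (by decide +kernel)
            (CovZ.n2 (26352, 16176) (by decide +kernel)
             (CovZ.leaf K2_ok TD_l6556 _)
             (CovZ.leaf K2_ok TD_l6557 _))
            (CovZ.leaf K2_ok TD_l6558 _))
           (CovZ.leaf K2_ok TD_l6559 _)))))
       (CovZ.subM 5223727790739310797723059538552190982861373691455208728003515499465078407502654421398525012791922928910465 (by decide +kernel)
        (CovZ.n1 (26688, 16320) (by decide +kernel)
         (CovZ.n2 (26688, 16128) (by decide +kernel)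
          (CovZ.n2 (26592, 16224) (by decide +kernel)
           (CovZ.n2 (26688, 16224) (by decide +kernel)
            (CovZ.leaf K2_ok TD_l6560 _)
            (CovZ.leaf K2_ok TD_l6561 _))
           (CovZ.n1 (26592, 16128) (by decide +kernel)
            (CovZ.leaf K2_ok TD_l6562 _)
            (CovZ.leaf K2_ok TD_l6563 _)))
          (CovZ.n1 (26784, 16224) (by decide +kernel)
           (CovZ.n2 (26784, 16128) (by decide +kernel)
            (CovZ.leaf K2_ok TD_l6564 _)
            (CovZ.leaf K2_ok TD_l6565 _))
           (CovZ.leaf K2_ok TD_l6566 _)))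
         (CovZ.n1 (26496, 16320) (by decide +kernel)
          (CovZ.n2 (26592, 16416) (by decide +kernel)
           (CovZ.leaf K2_ok TD_l6567 _)
           (CovZ.leaf K2_ok TD_l6568 _))
          (CovZ.n1 (26592, 16224) (by decide +kernel)
           (CovZ.leaf K2_ok TD_l6569 _)
           (CovZ.n1 (26592, 16320) (by decide +kernel)
            (CovZ.leaf K2_ok TD_l6570 _)
            (CovZ.leaf K2_ok TD_l6571 _)))))))
      (CovZ.n1 (26112, 16512) (by decide +kernel)
       (CovZ.n2 (26304, 16704) (by decide +kernel)
        (CovZ.n2 (26304, 16512) (by decide +kernel)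
         (CovZ.n2 (26208, 16608) (by decide +kernel)
          (CovZ.leaf K2_ok TD_l6572 _)
          (CovZ.leaf K2_ok TD_l6573 _))
         (CovZ.leaf K2_ok TD_l6574 _))
        (CovZ.n1 (26112, 16704) (by decide +kernel)
         (CovZ.leaf K2_ok TD_l6575 _)
         (CovZ.leaf K2_ok TD_l6576 _)))
       (CovZ.n1 (26304, 16320) (by decide +kernel)
        (CovZ.subM 920575561984954148548798173339895847338824846876834556148646236373995842620524976148788547077491000475777 (by decide +kernel)
         (CovZ.n2 (26112, 16320) (by decide +kernel)
          (CovZ.n2 (26208, 16416) (by decide +kernel)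
           (CovZ.n2 (26208, 16320) (by decide +kernel)
            (CovZ.leaf K2_ok TD_l6577 _)
            (CovZ.leaf K2_ok TD_l6578 _))
           (CovZ.leaf K2_ok TD_l6579 _))
          (CovZ.n1 (26208, 16224) (by decide +kernel)
           (CovZ.n2 (26112, 16224) (by decide +kernel)
            (CovZ.leaf K2_ok TD_l6580 _)
            (CovZ.leaf K2_ok TD_l6581 _))
           (CovZ.n1 (26208, 16320) (by decide +kernel)
            (CovZ.leaf K2_ok TD_l6582 _)
            (CovZ.n1 (26160, 16272) (by decide +kernel)
             (CovZ.leaf K2_ok TD_l6583 _)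
             (CovZ.leaf K2_ok TD_l6584 _))))))
        (CovZ.n1 (26304, 16512) (by decide +kernel)
         (CovZ.leaf K2_ok TD_l6585 _)
         (CovZ.n1 (26208, 16416) (by decide +kernel)
          (CovZ.leaf K2_ok TD_l6586 _)
          (CovZ.n1 (26304, 16416) (by decide +kernel)
           (CovZ.leaf K2_ok TD_l6587 _)
           (CovZ.leaf K2_ok TD_l6588 _)))))))
     (CovZ.subM 5517161701142024287522335488260926209722599405954081345008585087542201069906483495623921110322202768703488 (by decide +kernel)
      (CovZ.n1 (26496, 15744) (by decide +kernel)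
       (CovZ.n2 (26112, 15744) (by decide +kernel)
        TD_u25
        TD_u26)
       (CovZ.n1 (26496, 16128) (by decide +kernel)
        TD_u27
        TD_u28))))
    (CovZ.n1 (26880, 16896) (by decide +kernel)
     (CovZ.subM 8749005572390687520021366412507662162757686935736647739719482289253969686730917521794772534923676801 (by decide +kernel)
      (CovZ.n2 (27264, 16512) (by decide +kernel)
       (CovZ.n2 (26880, 16512) (by decide +kernel)
        (CovZ.n2 (27072, 16704) (by decide +kernel)
         (CovZ.n2 (27072, 16512) (by decide +kernel)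
          (CovZ.leaf K2_ok TD_l6666 _)
          (CovZ.leaf K2_ok TD_l6667 _))
         (CovZ.leaf K2_ok TD_l6668 _))
        (CovZ.n1 (27072, 16320) (by decide +kernel)
         (CovZ.n2 (26880, 16320) (by decide +kernel)
          (CovZ.leaf K2_ok TD_l6669 _)
          (CovZ.leaf K2_ok TD_l6670 _))
         (CovZ.n1 (27072, 16512) (by decide +kernel)
          (CovZ.leaf K2_ok TD_l6671 _)
          (CovZ.n1 (26976, 16416) (by decide +kernel)
           (CovZ.leaf K2_ok TD_l6672 _)
           (CovZ.leaf K2_ok TD_l6673 _)))))
       (CovZ.n1 (27264, 16896) (by decide +kernel)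
        (CovZ.n2 (27456, 16704) (by decide +kernel)
         (CovZ.leaf K2_ok TD_l6674 _)
         (CovZ.leaf K2_ok TD_l6675 _))
        (CovZ.n1 (27072, 16704) (by decide +kernel)
         (CovZ.n2 (27072, 16896) (by decide +kernel)
          (CovZ.leaf K2_ok TD_l6676 _)
          (CovZ.leaf K2_ok TD_l6677 _))
         (CovZ.leaf K2_ok TD_l6678 _)))))
     (CovZ.n1 (26496, 16512) (by decide +kernel)
      (CovZ.n2 (26496, 16896) (by decide +kernel)
       (CovZ.n2 (26688, 16704) (by decide +kernel)
        (CovZ.leaf K2_ok TD_l6679 _)
        (CovZ.n1 (26688, 16896) (by decide +kernel)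
         (CovZ.leaf K2_ok TD_l6680 _)
         (CovZ.leaf K2_ok TD_l6681 _)))
       (CovZ.n1 (26304, 16704) (by decide +kernel)
        (CovZ.n2 (26304, 16896) (by decide +kernel)
         (CovZ.leaf K2_ok TD_l6682 _)
         (CovZ.leaf K2_ok TD_l6683 _))
        (CovZ.n1 (26496, 16704) (by decide +kernel)
         (CovZ.n2 (26400, 16608) (by decide +kernel)
          (CovZ.leaf K2_ok TD_l6684 _)
          (CovZ.leaf K2_ok TD_l6685 _))
         (CovZ.leaf K2_ok TD_l6686 _))))
      (CovZ.subM 5223727790739310797723059538552190982861373691455208728003515499813527551229695407985020610802053644599425 (by decide +kernel)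
       (CovZ.n1 (26880, 16512) (by decide +kernel)
        (CovZ.n2 (26688, 16320) (by decide +kernel)
         (CovZ.n2 (26688, 16512) (by decide +kernel)
          (CovZ.leaf K2_ok TD_l6687 _)
          (CovZ.n1 (26592, 16416) (by decide +kernel)
           (CovZ.leaf K2_ok TD_l6688 _)
           (CovZ.leaf K2_ok TD_l6689 _)))
         (CovZ.n1 (26880, 16320) (by decide +kernel)
          (CovZ.n2 (26784, 16224) (by decide +kernel)
           (CovZ.leaf K2_ok TD_l6690 _)
           (CovZ.leaf K2_ok TD_l6691 _))
          (CovZ.n1 (26784, 16416) (by decide +kernel)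
           (CovZ.leaf K2_ok TD_l6692 _)
           (CovZ.leaf K2_ok TD_l6693 _))))
        (CovZ.n1 (26688, 16704) (by decide +kernel)
         (CovZ.n2 (26880, 16704) (by decide +kernel)
          (CovZ.leaf K2_ok TD_l6694 _)
          (CovZ.leaf K2_ok TD_l6695 _))
         (CovZ.n1 (26688, 16512) (by decide +kernel)
          (CovZ.leaf K2_ok TD_l6696 _)
          (CovZ.leaf K2_ok TD_l6697 _)))))))))

theorem TD_s6_2 : SqZ TD_M TD_L [0, 7, 6, 1] 18432 12288 1536 6 2 :=
  SqZ.mk (a := 27648) (b := 29184) (c := 15360) (d := 16896) (by norm_num) (by norm_num) (by norm_num) (by norm_num)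
    (CovZ.topM TD_LL 8749002964344085963329190815848344065965118299088601514947985203527836952379018647429277098746956929 (by decide +kernel) (CovZ.n2 (28416, 16128) (by decide +kernel)
    (CovZ.subM 8749002899140004869272565494758775070076607984589700728985698160116674284123608080990121390927629441 (by decide +kernel)
     (CovZ.n2 (29184, 16128) (by decide +kernel)
      (CovZ.n2 (28800, 15744) (by decide +kernel)
       (CovZ.n2 (28800, 16128) (by decide +kernel)
        (CovZ.n2 (28992, 15936) (by decide +kernel)
         (CovZ.leaf K2_ok TD_l8553 _)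
         (CovZ.leaf K2_ok TD_l8554 _))
        (CovZ.n1 (28608, 15936) (by decide +kernel)
         (CovZ.n2 (28608, 16128) (by decide +kernel)
          (CovZ.leaf K2_ok TD_l8555 _)
          (CovZ.leaf K2_ok TD_l8556 _))
         (CovZ.n1 (28800, 15936) (by decide +kernel)
          (CovZ.leaf K2_ok TD_l8557 _)
          (CovZ.leaf K2_ok TD_l8558 _))))
       (CovZ.n1 (29184, 15744) (by decide +kernel)
        (CovZ.n2 (28992, 15552) (by decide +kernel)
         (CovZ.n2 (28992, 15744) (by decide +kernel)
          (CovZ.leaf K2_ok TD_l8559 _)
          (CovZ.n1 (28896, 15648) (by decide +kernel)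
           (CovZ.leaf K2_ok TD_l8560 _)
           (CovZ.leaf K2_ok TD_l8561 _)))
         (CovZ.n1 (29184, 15552) (by decide +kernel)
          (CovZ.n2 (29088, 15456) (by decide +kernel)
           (CovZ.leaf K2_ok TD_l8562 _)
           (CovZ.leaf K2_ok TD_l8563 _))
          (CovZ.n1 (29088, 15648) (by decide +kernel)
           (CovZ.leaf K2_ok TD_l8564 _)
           (CovZ.leaf K2_ok TD_l8565 _))))
        (CovZ.n1 (28992, 15936) (by decide +kernel)
         (CovZ.n2 (29184, 15936) (by decide +kernel)
          (CovZ.leaf K2_ok TD_l8566 _)
          (CovZ.leaf K2_ok TD_l8567 _))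
         (CovZ.n1 (28992, 15744) (by decide +kernel)
          (CovZ.leaf K2_ok TD_l8568 _)
          (CovZ.leaf K2_ok TD_l8569 _)))))
      (CovZ.n1 (28800, 16512) (by decide +kernel)
       (CovZ.n2 (29184, 16512) (by decide +kernel)
        (CovZ.n2 (28992, 16320) (by decide +kernel)
         (CovZ.leaf K2_ok TD_l8570 _)
         (CovZ.leaf K2_ok TD_l8571 _))
        (CovZ.leaf K2_ok TD_l8572 _))
       (CovZ.n1 (28800, 16128) (by decide +kernel)
        (CovZ.n2 (28608, 16320) (by decide +kernel)
         (CovZ.leaf K2_ok TD_l8573 _)
         (CovZ.n1 (28608, 16128) (by decide +kernel)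
          (CovZ.leaf K2_ok TD_l8574 _)
          (CovZ.leaf K2_ok TD_l8575 _)))
        (CovZ.n1 (28992, 16320) (by decide +kernel)
         (CovZ.leaf K2_ok TD_l8576 _)
         (CovZ.leaf K2_ok TD_l8577 _))))))
    (CovZ.n1 (28416, 15360) (by decide +kernel)
     TD_u29
     TD_u30)))
    (CovZ.topM TD_LL 8749002964853344957412812337417180924654160480298327667705447855275714392881864748079656820331891841 (by decide +kernel) (CovZ.n0 (28416, 16128) (by decide +kernel)
    (CovZ.n2 (27648, 16128) (by decide +kernel)
     (CovZ.n2 (28032, 16512) (by decide +kernel)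
      (CovZ.n2 (28032, 16128) (by decide +kernel)
       (CovZ.n2 (27840, 16320) (by decide +kernel)
        (CovZ.n2 (28032, 16320) (by decide +kernel)
         (CovZ.leaf K2_ok TD_l8693 _)
         (CovZ.leaf K2_ok TD_l8694 _))
        (CovZ.n1 (27840, 16128) (by decide +kernel)
         (CovZ.leaf K2_ok TD_l8695 _)
         (CovZ.leaf K2_ok TD_l8696 _)))
       (CovZ.n1 (28224, 16320) (by decide +kernel)
        (CovZ.n2 (28224, 16128) (by decide +kernel)
         (CovZ.leaf K2_ok TD_l8697 _)
         (CovZ.leaf K2_ok TD_l8698 _))
        (CovZ.leaf K2_ok TD_l8699 _)))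
      (CovZ.n1 (27648, 16512) (by decide +kernel)
       (CovZ.n2 (27840, 16704) (by decide +kernel)
        (CovZ.leaf K2_ok TD_l8700 _)
        (CovZ.leaf K2_ok TD_l8701 _))
       (CovZ.n1 (27840, 16320) (by decide +kernel)
        (CovZ.leaf K2_ok TD_l8702 _)
        (CovZ.n1 (27840, 16512) (by decide +kernel)
         (CovZ.leaf K2_ok TD_l8703 _)
         (CovZ.leaf K2_ok TD_l8704 _)))))
     (CovZ.n1 (28032, 15744) (by decide +kernel)
      (CovZ.n2 (27648, 15744) (by decide +kernel)
       (CovZ.n2 (27840, 15936) (by decide +kernel)
        (CovZ.subM 8749002899142988808691024214611707363565488959819158279117755732920827680242483364327286007499115648 (by decide +kernel)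
         (CovZ.n2 (27840, 15744) (by decide +kernel)
          (CovZ.n2 (27744, 15840) (by decide +kernel)
           (CovZ.leaf K2_ok TD_l8705 _)
           (CovZ.n1 (27744, 15744) (by decide +kernel)
            (CovZ.leaf K2_ok TD_l8706 _)
            (CovZ.leaf K2_ok TD_l8707 _)))
          (CovZ.n1 (27936, 15840) (by decide +kernel)
           (CovZ.n2 (27936, 15744) (by decide +kernel)
            (CovZ.leaf K2_ok TD_l8708 _)
            (CovZ.leaf K2_ok TD_l8709 _))
           (CovZ.leaf K2_ok TD_l8710 _))))
        (CovZ.n1 (27648, 15936) (by decide +kernel)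
         (CovZ.leaf K2_ok TD_l8711 _)
         (CovZ.n1 (27744, 15840) (by decide +kernel)
          (CovZ.leaf K2_ok TD_l8712 _)
          (CovZ.leaf K2_ok TD_l8713 _))))
       (CovZ.subM 8749002899142988808691024214597903870871907832244288767393201682015925462298142591216960959051516928 (by decide +kernel)
        (CovZ.n1 (27840, 15552) (by decide +kernel)
         (CovZ.n2 (27648, 15552) (by decide +kernel)
          (CovZ.n2 (27744, 15648) (by decide +kernel)
           (CovZ.n2 (27744, 15552) (by decide +kernel)
            (CovZ.n2 (27696, 15600) (by decide +kernel)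
             (CovZ.leaf K2_ok TD_l8714 _)
             (CovZ.leaf K2_ok TD_l8715 _))
            (CovZ.leaf K2_ok TD_l8716 _))
           (CovZ.n1 (27648, 15648) (by decide +kernel)
            (CovZ.leaf K2_ok TD_l8717 _)
            (CovZ.leaf K2_ok TD_l8718 _)))
          (CovZ.n1 (27744, 15456) (by decide +kernel)
           (CovZ.n2 (27648, 15456) (by decide +kernel)
            (CovZ.n2 (27696, 15504) (by decide +kernel)
             (CovZ.n2 (27696, 15456) (by decide +kernel)
              (CovZ.leaf K2_ok TD_l8719 _)
              (CovZ.leaf K2_ok TD_l8720 _))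
             (CovZ.leaf K2_ok TD_l8721 _))
            (CovZ.subM 8749002899140004869272565494744971577383026857397580952168623737476759310919449420444677395766610944 (by decide +kernel)
             (CovZ.n1 (27696, 15408) (by decide +kernel)
              (CovZ.n2 (27648, 15408) (by decide +kernel)
               (CovZ.leaf K2_ok TD_l8722 _)
               (CovZ.leaf K2_ok TD_l8723 _))
              (CovZ.n1 (27696, 15456) (by decide +kernel)
               (CovZ.leaf K2_ok TD_l8724 _)
               (CovZ.n1 (27672, 15432) (by decide +kernel)
                (CovZ.leaf K2_ok TD_l8725 _)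
                (CovZ.leaf K2_ok TD_l8726 _))))))
           (CovZ.n1 (27744, 15552) (by decide +kernel)
            (CovZ.n2 (27792, 15504) (by decide +kernel)
             (CovZ.leaf K2_ok TD_l8727 _)
             (CovZ.leaf K2_ok TD_l8728 _))
            (CovZ.n1 (27696, 15504) (by decide +kernel)
             (CovZ.leaf K2_ok TD_l8729 _)
             (CovZ.n1 (27744, 15504) (by decide +kernel)
              (CovZ.leaf K2_ok TD_l8730 _)
              (CovZ.leaf K2_ok TD_l8731 _))))))
         (CovZ.n1 (27840, 15744) (by decide +kernel)
          (CovZ.n2 (27936, 15648) (by decide +kernel)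
           (CovZ.leaf K2_ok TD_l8732 _)
           (CovZ.n1 (27936, 15744) (by decide +kernel)
            (CovZ.leaf K2_ok TD_l8733 _)
            (CovZ.leaf K2_ok TD_l8734 _)))
          (CovZ.n1 (27744, 15648) (by decide +kernel)
           (CovZ.n2 (27744, 15744) (by decide +kernel)
            (CovZ.leaf K2_ok TD_l8735 _)
            (CovZ.leaf K2_ok TD_l8736 _))
           (CovZ.n1 (27840, 15648) (by decide +kernel)
            (CovZ.n2 (27792, 15600) (by decide +kernel)
             (CovZ.leaf K2_ok TD_l8737 _)
             (CovZ.leaf K2_ok TD_l8738 _))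
            (CovZ.leaf K2_ok TD_l8739 _)))))))
      (CovZ.n1 (28032, 16128) (by decide +kernel)
       (CovZ.subM 8749002964325156111976120255349037099176709138236689411927732151004980897375686901235021317266328705 (by decide +kernel)
        (CovZ.n2 (28224, 15936) (by decide +kernel)
         (CovZ.n2 (28032, 15936) (by decide +kernel)
          (CovZ.leaf K2_ok TD_l8740 _)
          (CovZ.leaf K2_ok TD_l8741 _))
         (CovZ.n1 (28224, 16128) (by decide +kernel)
          (CovZ.leaf K2_ok TD_l8742 _)
          (CovZ.leaf K2_ok TD_l8743 _))))
       (CovZ.n1 (27840, 15936) (by decide +kernel)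
        (CovZ.n2 (27840, 16128) (by decide +kernel)
         (CovZ.leaf K2_ok TD_l8744 _)
         (CovZ.n1 (27744, 16032) (by decide +kernel)
          (CovZ.leaf K2_ok TD_l8745 _)
          (CovZ.leaf K2_ok TD_l8746 _)))
        (CovZ.subM 8749002964325156111976120255349037099176709138236689411927732151004980894899806822664260767468014721 (by decide +kernel)
         (CovZ.n1 (28032, 15936) (by decide +kernel)
          (CovZ.n2 (27936, 15840) (by decide +kernel)
           (CovZ.leaf K2_ok TD_l8747 _)
           (CovZ.leaf K2_ok TD_l8748 _))
          (CovZ.n1 (27936, 16032) (by decide +kernel)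
           (CovZ.leaf K2_ok TD_l8749 _)
           (CovZ.leaf K2_ok TD_l8750 _))))))))
    (CovZ.n1 (28416, 16896) (by decide +kernel)
     (CovZ.subM 8749002899140004869272565494758775070076607984589700728985698160116674284123608080990121390927629441 (by decide +kernel)
      (CovZ.n2 (28800, 16512) (by decide +kernel)
       (CovZ.n2 (28416, 16512) (by decide +kernel)
        (CovZ.leaf K2_ok TD_l8751 _)
        (CovZ.leaf K2_ok TD_l8752 _))
       (CovZ.n1 (28800, 16896) (by decide +kernel)
        (CovZ.leaf K2_ok TD_l8753 _)
        (CovZ.n1 (28608, 16704) (by decide +kernel)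
         (CovZ.leaf K2_ok TD_l8754 _)
         (CovZ.leaf K2_ok TD_l8755 _)))))
     (CovZ.n1 (28032, 16512) (by decide +kernel)
      (CovZ.n2 (28032, 16896) (by decide +kernel)
       (CovZ.leaf K2_ok TD_l8756 _)
       (CovZ.n1 (27840, 16704) (by decide +kernel)
        (CovZ.leaf K2_ok TD_l8757 _)
        (CovZ.leaf K2_ok TD_l8758 _)))
      (CovZ.subM 8749002964325156111976120255349037099176709138236689411930519744159989522745883713290340863297309825 (by decide +kernel)
       (CovZ.n1 (28416, 16512) (by decide +kernel)
        (CovZ.n2 (28224, 16320) (by decide +kernel)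
         (CovZ.leaf K2_ok TD_l8759 _)
         (CovZ.leaf K2_ok TD_l8760 _))
        (CovZ.n1 (28224, 16704) (by decide +kernel)
         (CovZ.leaf K2_ok TD_l8761 _)
         (CovZ.leaf K2_ok TD_l8762 _))))))))

theorem TD_s7_2 : SqZ TD_M TD_L [0, 7, 6, 1] 18432 12288 1536 7 2 :=
  SqZ.mk (a := 29184) (b := 30720) (c := 15360) (d := 16896) (by norm_num) (by norm_num) (by norm_num) (by norm_num)
    (CovZ.topM TD_LL 8749002899140004869272565494758775070076607984589700728982910566961341140199752842208036555939990657 (by decide +kernel) (CovZ.n2 (29952, 16128) (by decide +kernel)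
    (CovZ.n2 (30720, 16128) (by decide +kernel)
     (CovZ.n2 (30336, 15744) (by decide +kernel)
      (CovZ.n2 (30336, 16128) (by decide +kernel)
       (CovZ.leaf K2_ok TD_l10749 _)
       (CovZ.n1 (30144, 15936) (by decide +kernel)
        (CovZ.leaf K2_ok TD_l10750 _)
        (CovZ.leaf K2_ok TD_l10751 _)))
      (CovZ.subM 8749002899132047697490008908470485461412677723573223895831229907610711666823703017715896090913472640 (by decide +kernel)
       (CovZ.n1 (30720, 15744) (by decide +kernel)
        (CovZ.n2 (30528, 15552) (by decide +kernel)
         (CovZ.leaf K2_ok TD_l10752 _)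
         (CovZ.leaf K2_ok TD_l10753 _))
        (CovZ.n1 (30528, 15936) (by decide +kernel)
         (CovZ.leaf K2_ok TD_l10754 _)
         (CovZ.leaf K2_ok TD_l10755 _)))))
     (CovZ.n1 (30336, 16512) (by decide +kernel)
      (CovZ.n2 (30720, 16512) (by decide +kernel)
       (CovZ.leaf K2_ok TD_l10756 _)
       (CovZ.leaf K2_ok TD_l10757 _))
      (CovZ.n1 (30336, 16128) (by decide +kernel)
       (CovZ.leaf K2_ok TD_l10758 _)
       (CovZ.leaf K2_ok TD_l10759 _))))
    (CovZ.n1 (29952, 15360) (by decide +kernel)
     (CovZ.n2 (29568, 15744) (by decide +kernel)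
      (CovZ.n2 (29952, 15744) (by decide +kernel)
       (CovZ.subM 8749002899140004869272565494744971577383026857014457072660793843321133793805950954463474829582470272 (by decide +kernel)
        (CovZ.n2 (29760, 15552) (by decide +kernel)
         (CovZ.n2 (29760, 15744) (by decide +kernel)
          (CovZ.leaf K2_ok TD_l10760 _)
          (CovZ.leaf K2_ok TD_l10761 _))
         (CovZ.n1 (29952, 15552) (by decide +kernel)
          (CovZ.leaf K2_ok TD_l10762 _)
          (CovZ.leaf K2_ok TD_l10763 _))))
       (CovZ.n1 (29760, 15936) (by decide +kernel)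
        (CovZ.leaf K2_ok TD_l10764 _)
        (CovZ.n1 (29760, 15744) (by decide +kernel)
         (CovZ.leaf K2_ok TD_l10765 _)
         (CovZ.leaf K2_ok TD_l10766 _))))
      (CovZ.n1 (29568, 15360) (by decide +kernel)
       (CovZ.n2 (29376, 15552) (by decide +kernel)
        (CovZ.n2 (29568, 15552) (by decide +kernel)
         (CovZ.n2 (29472, 15456) (by decide +kernel)
          (CovZ.leaf K2_ok TD_l10767 _)
          (CovZ.leaf K2_ok TD_l10768 _))
         (CovZ.leaf K2_ok TD_l10769 _))
        (CovZ.n1 (29376, 15360) (by decide +kernel)
         (CovZ.n2 (29280, 15456) (by decide +kernel)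
          (CovZ.leaf K2_ok TD_l10770 _)
          (CovZ.n1 (29280, 15360) (by decide +kernel)
           (CovZ.leaf K2_ok TD_l10771 _)
           (CovZ.leaf K2_ok TD_l10772 _)))
         (CovZ.leaf K2_ok TD_l10773 _)))
       (CovZ.subM 8749002899140004869272565494744971577383026857014457072660793843321133793805950954463474829582470272 (by decide +kernel)
        (CovZ.n1 (29760, 15552) (by decide +kernel)
         (CovZ.n2 (29760, 15360) (by decide +kernel)
          (CovZ.n2 (29664, 15456) (by decide +kernel)
           (CovZ.leaf K2_ok TD_l10774 _)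
           (CovZ.leaf K2_ok TD_l10775 _))
          (CovZ.leaf K2_ok TD_l10776 _))
         (CovZ.leaf K2_ok TD_l10777 _)))))
     (CovZ.n1 (30336, 15744) (by decide +kernel)
      (CovZ.subM 8749002899140004869272565494744971577383026857014457072660793843321133793805950954463474829582470272 (by decide +kernel)
       (CovZ.n2 (30336, 15360) (by decide +kernel)
        (CovZ.n2 (30144, 15552) (by decide +kernel)
         (CovZ.n2 (30336, 15552) (by decide +kernel)
          (CovZ.leaf K2_ok TD_l10778 _)
          (CovZ.leaf K2_ok TD_l10779 _))
         (CovZ.n1 (30144, 15360) (by decide +kernel)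
          (CovZ.leaf K2_ok TD_l10780 _)
          (CovZ.leaf K2_ok TD_l10781 _)))
        (CovZ.n1 (30528, 15552) (by decide +kernel)
         (CovZ.n2 (30528, 15360) (by decide +kernel)
          (CovZ.leaf K2_ok TD_l10782 _)
          (CovZ.leaf K2_ok TD_l10783 _))
         (CovZ.leaf K2_ok TD_l10784 _))))
      (CovZ.n1 (29952, 15744) (by decide +kernel)
       (CovZ.n2 (30144, 15936) (by decide +kernel)
        (CovZ.leaf K2_ok TD_l10785 _)
        (CovZ.leaf K2_ok TD_l10786 _))
       (CovZ.n1 (30144, 15552) (by decide +kernel)
        (CovZ.leaf K2_ok TD_l10787 _)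
        (CovZ.n1 (30144, 15744) (by decide +kernel)
         (CovZ.leaf K2_ok TD_l10788 _)
         (CovZ.leaf K2_ok TD_l10789 _))))))))
    (CovZ.topM TD_LL 8749002899140004869272565494758775070076607984589700728982910566961341140199752842208036555939990657 (by decide +kernel) (CovZ.n0 (29952, 16128) (by decide +kernel)
    (CovZ.n2 (29184, 16128) (by decide +kernel)
     (CovZ.n2 (29568, 16512) (by decide +kernel)
      (CovZ.n2 (29568, 16128) (by decide +kernel)
       (CovZ.n2 (29376, 16320) (by decide +kernel)
        (CovZ.leaf K2_ok TD_l10790 _)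
        (CovZ.leaf K2_ok TD_l10791 _))
       (CovZ.leaf K2_ok TD_l10792 _))
      (CovZ.leaf K2_ok TD_l10793 _))
     (CovZ.n1 (29568, 15744) (by decide +kernel)
      (CovZ.n2 (29184, 15744) (by decide +kernel)
       (CovZ.n2 (29376, 15936) (by decide +kernel)
        (CovZ.n2 (29376, 15744) (by decide +kernel)
         (CovZ.leaf K2_ok TD_l10794 _)
         (CovZ.leaf K2_ok TD_l10795 _))
        (CovZ.leaf K2_ok TD_l10796 _))
       (CovZ.n1 (29376, 15552) (by decide +kernel)
        (CovZ.n2 (29184, 15552) (by decide +kernel)
         (CovZ.leaf K2_ok TD_l10797 _)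
         (CovZ.leaf K2_ok TD_l10798 _))
        (CovZ.n1 (29376, 15744) (by decide +kernel)
         (CovZ.leaf K2_ok TD_l10799 _)
         (CovZ.leaf K2_ok TD_l10800 _))))
      (CovZ.n1 (29568, 16128) (by decide +kernel)
       (CovZ.leaf K2_ok TD_l10801 _)
       (CovZ.n1 (29376, 15936) (by decide +kernel)
        (CovZ.leaf K2_ok TD_l10802 _)
        (CovZ.leaf K2_ok TD_l10803 _)))))
    (CovZ.n1 (29952, 16896) (by decide +kernel)
     (CovZ.n2 (30336, 16512) (by decide +kernel)
      (CovZ.leaf K2_ok TD_l10804 _)
      (CovZ.n1 (30336, 16896) (by decide +kernel)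
       (CovZ.leaf K2_ok TD_l10805 _)
       (CovZ.leaf K2_ok TD_l10806 _)))
     (CovZ.n1 (29568, 16512) (by decide +kernel)
      (CovZ.n2 (29568, 16896) (by decide +kernel)
       (CovZ.leaf K2_ok TD_l10807 _)
       (CovZ.leaf K2_ok TD_l10808 _))
      (CovZ.n1 (29952, 16512) (by decide +kernel)
       (CovZ.n2 (29760, 16320) (by decide +kernel)
        (CovZ.leaf K2_ok TD_l10809 _)
        (CovZ.leaf K2_ok TD_l10810 _))
       (CovZ.leaf K2_ok TD_l10811 _))))))

theorem TD_s8_2 : SqZ TD_M TD_L [0, 7, 6, 1] 18432 12288 1536 8 2 :=
  SqZ.mk (a := 30720) (b := 32256) (c := 15360) (d := 16896) (by norm_num) (by norm_num) (by norm_num) (by norm_num)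
    (CovZ.topM TD_LL 8749002899132047697490008908470485461412677723573223895831229907610711666823703017715913683099517056 (by decide +kernel) (CovZ.n2 (31488, 16128) (by decide +kernel)
    (CovZ.subM 5708990770823839526709023956368811464073478144 (by decide +kernel)
     (CovZ.n2 (32256, 16128) (by decide +kernel)
      (CovZ.n2 (31872, 15744) (by decide +kernel)
       (CovZ.n2 (31872, 16128) (by decide +kernel)
        (CovZ.badM (by decide +kernel))
        (CovZ.n1 (31680, 15936) (by decide +kernel)
         (CovZ.leaf K2_ok TD_l12855 _)
         (CovZ.badM (by decide +kernel))))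
       (CovZ.badM (by decide +kernel)))
      (CovZ.n1 (31872, 16512) (by decide +kernel)
       (CovZ.badM (by decide +kernel))
       (CovZ.n1 (31872, 16128) (by decide +kernel)
        (CovZ.leaf K2_ok TD_l12862 _)
        (CovZ.badM (by decide +kernel))))))
    (CovZ.n1 (31488, 15360) (by decide +kernel)
     (CovZ.n2 (31104, 15744) (by decide +kernel)
      (CovZ.subM 5708990770823839526709023956368811464073478144 (by decide +kernel)
       (CovZ.n2 (31488, 15744) (by decide +kernel)
        (CovZ.n2 (31296, 15552) (by decide +kernel)
         (CovZ.leaf K2_ok TD_l12864 _)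
         (CovZ.leaf K2_ok TD_l12865 _))
        (CovZ.n1 (31296, 15936) (by decide +kernel)
         (CovZ.leaf K2_ok TD_l12866 _)
         (CovZ.leaf K2_ok TD_l12867 _))))
      (CovZ.n1 (31104, 15360) (by decide +kernel)
       (CovZ.n2 (30912, 15552) (by decide +kernel)
        (CovZ.leaf K2_ok TD_l12868 _)
        (CovZ.n1 (30912, 15360) (by decide +kernel)
         (CovZ.leaf K2_ok TD_l12869 _)
         (CovZ.leaf K2_ok TD_l12870 _)))
       (CovZ.n1 (31296, 15552) (by decide +kernel)
        (CovZ.leaf K2_ok TD_l12871 _)
        (CovZ.leaf K2_ok TD_l12872 _))))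
     (CovZ.subM 5708990770823839526709023956368811464073478144 (by decide +kernel)
      (CovZ.n1 (31872, 15744) (by decide +kernel)
       (CovZ.n2 (31872, 15360) (by decide +kernel)
        (CovZ.n2 (31680, 15552) (by decide +kernel)
         (CovZ.badM (by decide +kernel))
         (CovZ.leaf K2_ok TD_l12874 _))
        (CovZ.badM (by decide +kernel)))
       (CovZ.n1 (31488, 15744) (by decide +kernel)
        (CovZ.leaf K2_ok TD_l12877 _)
        (CovZ.leaf K2_ok TD_l12878 _)))))))
    (CovZ.topM TD_LL 8749002899132047697490008908470485461412677723573223895831229907610711666823703017715913683099517056 (by decide +kernel) (CovZ.n0 (31488, 16128) (by decide +kernel)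
    (CovZ.n2 (30720, 16128) (by decide +kernel)
     (CovZ.n2 (31104, 16512) (by decide +kernel)
      (CovZ.n2 (31104, 16128) (by decide +kernel)
       (CovZ.n2 (30912, 16320) (by decide +kernel)
        (CovZ.leaf K2_ok TD_l12879 _)
        (CovZ.leaf K2_ok TD_l12880 _))
       (CovZ.leaf K2_ok TD_l12881 _))
      (CovZ.leaf K2_ok TD_l12882 _))
     (CovZ.n1 (31104, 15744) (by decide +kernel)
      (CovZ.n2 (30720, 15744) (by decide +kernel)
       (CovZ.leaf K2_ok TD_l12883 _)
       (CovZ.n1 (30912, 15552) (by decide +kernel)
        (CovZ.leaf K2_ok TD_l12884 _)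
        (CovZ.leaf K2_ok TD_l12885 _)))
      (CovZ.n1 (31104, 16128) (by decide +kernel)
       (CovZ.leaf K2_ok TD_l12886 _)
       (CovZ.n1 (30912, 15936) (by decide +kernel)
        (CovZ.leaf K2_ok TD_l12887 _)
        (CovZ.leaf K2_ok TD_l12888 _)))))
    (CovZ.n1 (31488, 16896) (by decide +kernel)
     (CovZ.n2 (31872, 16512) (by decide +kernel)
      (CovZ.leaf K2_ok TD_l12889 _)
      (CovZ.leaf K2_ok TD_l12890 _))
     (CovZ.n1 (31104, 16512) (by decide +kernel)
      (CovZ.leaf K2_ok TD_l12891 _)
      (CovZ.n1 (31488, 16512) (by decide +kernel)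
       (CovZ.leaf K2_ok TD_l12892 _)
       (CovZ.leaf K2_ok TD_l12893 _))))))

theorem TD_s0_3 : SqZ TD_M TD_L [0, 7, 6, 1] 18432 12288 1536 0 3 :=
  SqZ.mk (a := 18432) (b := 19968) (c := 16896) (d := 18432) (by norm_num) (by norm_num) (by norm_num) (by norm_num)
    (CovZ.topM TD_LL 0 (by decide +kernel) (CovZ.badM (by decide +kernel)))
    (CovZ.topM TD_LL 0 (by decide +kernel) (CovZ.badM (by decide +kernel)))

theorem TD_s1_3 : SqZ TD_M TD_L [0, 7, 6, 1] 18432 12288 1536 1 3 :=
  SqZ.mk (a := 19968) (b := 21504) (c := 16896) (d := 18432) (by norm_num) (by norm_num) (by norm_num) (by norm_num)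
    (CovZ.topM TD_LL 0 (by decide +kernel) (CovZ.badM (by decide +kernel)))
    (CovZ.topM TD_LL 0 (by decide +kernel) (CovZ.badM (by decide +kernel)))

theorem TD_s2_3 : SqZ TD_M TD_L [0, 7, 6, 1] 18432 12288 1536 2 3 :=
  SqZ.mk (a := 21504) (b := 23040) (c := 16896) (d := 18432) (by norm_num) (by norm_num) (by norm_num) (by norm_num)
    (CovZ.topM TD_LL 0 (by decide +kernel) (CovZ.badM (by decide +kernel)))
    (CovZ.topM TD_LL 0 (by decide +kernel) (CovZ.badM (by decide +kernel)))

theorem TD_s3_3 : SqZ TD_M TD_L [0, 7, 6, 1] 18432 12288 1536 3 3 :=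
  SqZ.mk (a := 23040) (b := 24576) (c := 16896) (d := 18432) (by norm_num) (by norm_num) (by norm_num) (by norm_num)
    (CovZ.topM TD_LL 1725436586697640946858689143986106987099232406159170807415339686559744 (by decide +kernel) (CovZ.n2 (23808, 17664) (by decide +kernel)
    (CovZ.n2 (24576, 17664) (by decide +kernel)
     (CovZ.n2 (24192, 17280) (by decide +kernel)
      (CovZ.n2 (24192, 17664) (by decide +kernel)
       (CovZ.n2 (24384, 17472) (by decide +kernel)
        (CovZ.badM (by decide +kernel))
        (CovZ.n1 (24384, 17664) (by decide +kernel)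
         (CovZ.n2 (24480, 17568) (by decide +kernel)
          (CovZ.badM (by decide +kernel))
          (CovZ.n1 (24480, 17664) (by decide +kernel)
           (CovZ.n2 (24528, 17616) (by decide +kernel)
            (CovZ.badM (by decide +kernel))
            (CovZ.leaf K2_ok TD_l1901 _))
           (CovZ.badM (by decide +kernel))))
         (CovZ.badM (by decide +kernel))))
       (CovZ.badM (by decide +kernel)))
      (CovZ.n1 (24576, 17280) (by decide +kernel)
       (CovZ.n2 (24384, 17088) (by decide +kernel)
        (CovZ.n2 (24384, 17280) (by decide +kernel)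
         (CovZ.n2 (24480, 17184) (by decide +kernel)
          (CovZ.badM (by decide +kernel))
          (CovZ.n1 (24480, 17280) (by decide +kernel)
           (CovZ.leaf K2_ok TD_l1921 _)
           (CovZ.badM (by decide +kernel))))
         (CovZ.badM (by decide +kernel)))
        (CovZ.n1 (24576, 17088) (by decide +kernel)
         (CovZ.n2 (24480, 16992) (by decide +kernel)
          (CovZ.n2 (24480, 17088) (by decide +kernel)
           (CovZ.leaf K2_ok TD_l1928 _)
           (CovZ.badM (by decide +kernel)))
          (CovZ.n1 (24576, 16992) (by decide +kernel)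
           (CovZ.n2 (24528, 16944) (by decide +kernel)
            (CovZ.leaf K2_ok TD_l1931 _)
            (CovZ.leaf K2_ok TD_l1932 _))
           (CovZ.n1 (24528, 17040) (by decide +kernel)
            (CovZ.leaf K2_ok TD_l1933 _)
            (CovZ.leaf K2_ok TD_l1934 _))))
         (CovZ.n1 (24480, 17184) (by decide +kernel)
          (CovZ.n2 (24576, 17184) (by decide +kernel)
           (CovZ.leaf K2_ok TD_l1935 _)
           (CovZ.leaf K2_ok TD_l1936 _))
          (CovZ.n1 (24480, 17088) (by decide +kernel)
           (CovZ.badM (by decide +kernel))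
           (CovZ.leaf K2_ok TD_l1939 _)))))
       (CovZ.n1 (24384, 17472) (by decide +kernel)
        (CovZ.n2 (24576, 17472) (by decide +kernel)
         (CovZ.n2 (24480, 17376) (by decide +kernel)
          (CovZ.n2 (24480, 17472) (by decide +kernel)
           (CovZ.leaf K2_ok TD_l1940 _)
           (CovZ.badM (by decide +kernel)))
          (CovZ.n1 (24576, 17376) (by decide +kernel)
           (CovZ.leaf K2_ok TD_l1943 _)
           (CovZ.leaf K2_ok TD_l1944 _)))
         (CovZ.n1 (24480, 17568) (by decide +kernel)
          (CovZ.n2 (24576, 17568) (by decide +kernel)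
           (CovZ.n2 (24528, 17520) (by decide +kernel)
            (CovZ.leaf K2_ok TD_l1945 _)
            (CovZ.leaf K2_ok TD_l1946 _))
           (CovZ.n1 (24528, 17616) (by decide +kernel)
            (CovZ.leaf K2_ok TD_l1947 _)
            (CovZ.leaf K2_ok TD_l1948 _)))
          (CovZ.n1 (24480, 17472) (by decide +kernel)
           (CovZ.badM (by decide +kernel))
           (CovZ.leaf K2_ok TD_l1951 _))))
        (CovZ.n1 (24384, 17280) (by decide +kernel)
         (CovZ.badM (by decide +kernel))
         (CovZ.n1 (24480, 17376) (by decide +kernel)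
          (CovZ.n2 (24480, 17280) (by decide +kernel)
           (CovZ.badM (by decide +kernel))
           (CovZ.leaf K2_ok TD_l1960 _))
          (CovZ.badM (by decide +kernel)))))))
     (CovZ.n1 (24192, 18048) (by decide +kernel)
      (CovZ.n2 (24576, 18048) (by decide +kernel)
       (CovZ.n2 (24384, 17856) (by decide +kernel)
        (CovZ.n2 (24384, 18048) (by decide +kernel)
         (CovZ.n2 (24480, 17952) (by decide +kernel)
          (CovZ.badM (by decide +kernel))
          (CovZ.badM (by decide +kernel)))
         (CovZ.badM (by decide +kernel)))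
        (CovZ.n1 (24576, 17856) (by decide +kernel)
         (CovZ.n2 (24480, 17760) (by decide +kernel)
          (CovZ.n2 (24480, 17856) (by decide +kernel)
           (CovZ.n2 (24528, 17808) (by decide +kernel)
            (CovZ.badM (by decide +kernel))
            (CovZ.n1 (24528, 17856) (by decide +kernel)
             (CovZ.leaf K2_ok TD_l14821 _)
             (CovZ.badM (by decide +kernel))))
           (CovZ.badM (by decide +kernel)))
          (CovZ.n1 (24576, 17760) (by decide +kernel)
           (CovZ.n2 (24528, 17712) (by decide +kernel)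
            (CovZ.n2 (24528, 17760) (by decide +kernel)
             (CovZ.leaf K2_ok TD_l1962 _)
             (CovZ.badM (by decide +kernel)))
            (CovZ.n1 (24576, 17712) (by decide +kernel)
             (CovZ.leaf K2_ok TD_l1964 _)
             (CovZ.leaf K2_ok TD_l1965 _)))
           (CovZ.n1 (24528, 17808) (by decide +kernel)
            (CovZ.n2 (24576, 17808) (by decide +kernel)
             (CovZ.leaf K2_ok TD_l1966 _)
             (CovZ.leaf K2_ok TD_l1967 _))
            (CovZ.n1 (24528, 17760) (by decide +kernel)
             (CovZ.badM (by decide +kernel))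
             (CovZ.leaf K2_ok TD_l1970 _)))))
         (CovZ.n1 (24480, 17952) (by decide +kernel)
          (CovZ.n2 (24576, 17952) (by decide +kernel)
           (CovZ.n2 (24528, 17904) (by decide +kernel)
            (CovZ.n2 (24528, 17952) (by decide +kernel)
             (CovZ.leaf K2_ok TD_l14822 _)
             (CovZ.badM (by decide +kernel)))
            (CovZ.n1 (24576, 17904) (by decide +kernel)
             (CovZ.n2 (24552, 17880) (by decide +kernel)
              (CovZ.leaf K2_ok TD_l14823 _)
              (CovZ.leaf K2_ok TD_l14824 _))
             (CovZ.n1 (24552, 17928) (by decide +kernel)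
              (CovZ.leaf K2_ok TD_l14825 _)
              (CovZ.leaf K2_ok TD_l14826 _))))
           (CovZ.n1 (24528, 18000) (by decide +kernel)
            (CovZ.n2 (24576, 18000) (by decide +kernel)
             (CovZ.n2 (24552, 17976) (by decide +kernel)
              (CovZ.badM (by decide +kernel))
              (CovZ.leaf K2_ok TD_l14828 _))
             (CovZ.badM (by decide +kernel)))
            (CovZ.n1 (24528, 17952) (by decide +kernel)
             (CovZ.badM (by decide +kernel))
             (CovZ.n1 (24552, 17976) (by decide +kernel)
              (CovZ.leaf K2_ok TD_l14829 _)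
              (CovZ.badM (by decide +kernel))))))
          (CovZ.n1 (24480, 17856) (by decide +kernel)
           (CovZ.badM (by decide +kernel))
           (CovZ.n1 (24528, 17904) (by decide +kernel)
            (CovZ.n2 (24528, 17856) (by decide +kernel)
             (CovZ.badM (by decide +kernel))
             (CovZ.leaf K2_ok TD_l14830 _))
            (CovZ.badM (by decide +kernel)))))))
       (CovZ.badM (by decide +kernel)))
      (CovZ.n1 (24192, 17664) (by decide +kernel)
       (CovZ.badM (by decide +kernel))
       (CovZ.n1 (24384, 17856) (by decide +kernel)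
        (CovZ.n2 (24384, 17664) (by decide +kernel)
         (CovZ.badM (by decide +kernel))
         (CovZ.n1 (24480, 17760) (by decide +kernel)
          (CovZ.n2 (24480, 17664) (by decide +kernel)
           (CovZ.badM (by decide +kernel))
           (CovZ.n1 (24528, 17712) (by decide +kernel)
            (CovZ.n2 (24528, 17664) (by decide +kernel)
             (CovZ.badM (by decide +kernel))
             (CovZ.leaf K2_ok TD_l1978 _))
            (CovZ.badM (by decide +kernel))))
          (CovZ.badM (by decide +kernel))))
        (CovZ.badM (by decide +kernel))))))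
    (CovZ.n1 (23808, 16896) (by decide +kernel)
     (CovZ.badM (by decide +kernel))
     (CovZ.n1 (24192, 17280) (by decide +kernel)
      (CovZ.n2 (24192, 16896) (by decide +kernel)
       (CovZ.badM (by decide +kernel))
       (CovZ.n1 (24384, 17088) (by decide +kernel)
        (CovZ.n2 (24384, 16896) (by decide +kernel)
         (CovZ.badM (by decide +kernel))
         (CovZ.n1 (24480, 16992) (by decide +kernel)
          (CovZ.n2 (24480, 16896) (by decide +kernel)
           (CovZ.badM (by decide +kernel))
           (CovZ.n1 (24528, 16944) (by decide +kernel)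
            (CovZ.n2 (24528, 16896) (by decide +kernel)
             (CovZ.badM (by decide +kernel))
             (CovZ.leaf K2_ok TD_l1999 _))
            (CovZ.badM (by decide +kernel))))
          (CovZ.badM (by decide +kernel))))
        (CovZ.badM (by decide +kernel))))
      (CovZ.badM (by decide +kernel))))))
    (CovZ.topM TD_LL 1725436586697640946858688965569256363112777243042596638790631055949824 (by decide +kernel) (CovZ.n0 (23808, 17664) (by decide +kernel)
    (CovZ.badM (by decide +kernel))
    (CovZ.badM (by decide +kernel))))

theorem TD_s4_3 : SqZ TD_M TD_L [0, 7, 6, 1] 18432 12288 1536 4 3 :=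
  SqZ.mk (a := 24576) (b := 26112) (c := 16896) (d := 18432) (by norm_num) (by norm_num) (by norm_num) (by norm_num)
    (CovZ.topM TD_LL 311373741114969054114857049580390680099402708753719976273568032473221628386257003564851299781715643482241 (by decide +kernel) (CovZ.n2 (25344, 17664) (by decide +kernel)
    (CovZ.n2 (26112, 17664) (by decide +kernel)
     (CovZ.n2 (25728, 17280) (by decide +kernel)
      (CovZ.n2 (25728, 17664) (by decide +kernel)
       (CovZ.leaf K2_ok TD_l4176 _)
       (CovZ.n1 (25536, 17472) (by decide +kernel)
        (CovZ.leaf K2_ok TD_l4177 _)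
        (CovZ.leaf K2_ok TD_l4178 _)))
      (CovZ.n1 (26112, 17280) (by decide +kernel)
       (CovZ.n2 (25920, 17088) (by decide +kernel)
        (CovZ.leaf K2_ok TD_l4179 _)
        (CovZ.n1 (26112, 17088) (by decide +kernel)
         (CovZ.leaf K2_ok TD_l4180 _)
         (CovZ.leaf K2_ok TD_l4181 _)))
       (CovZ.n1 (25920, 17472) (by decide +kernel)
        (CovZ.leaf K2_ok TD_l4182 _)
        (CovZ.leaf K2_ok TD_l4183 _))))
     (CovZ.n1 (25728, 18048) (by decide +kernel)
      (CovZ.n2 (26112, 18048) (by decide +kernel)
       (CovZ.n2 (25920, 17856) (by decide +kernel)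
        (CovZ.leaf K2_ok TD_l4184 _)
        (CovZ.leaf K2_ok TD_l4185 _))
       (CovZ.n1 (25920, 18240) (by decide +kernel)
        (CovZ.leaf K2_ok TD_l4186 _)
        (CovZ.leaf K2_ok TD_l4187 _)))
      (CovZ.n1 (25728, 17664) (by decide +kernel)
       (CovZ.n2 (25536, 17856) (by decide +kernel)
        (CovZ.leaf K2_ok TD_l4188 _)
        (CovZ.n1 (25536, 17664) (by decide +kernel)
         (CovZ.leaf K2_ok TD_l4189 _)
         (CovZ.leaf K2_ok TD_l4190 _)))
       (CovZ.leaf K2_ok TD_l4191 _))))
    (CovZ.n1 (25344, 16896) (by decide +kernel)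
     (CovZ.subM 1725436586697640946858689143986106987099233025129190450105477136121856 (by decide +kernel)
      (CovZ.n2 (24960, 17280) (by decide +kernel)
       (CovZ.n2 (25344, 17280) (by decide +kernel)
        (CovZ.n2 (25152, 17088) (by decide +kernel)
         (CovZ.n2 (25152, 17280) (by decide +kernel)
          (CovZ.leaf K2_ok TD_l4192 _)
          (CovZ.n1 (25056, 17184) (by decide +kernel)
           (CovZ.leaf K2_ok TD_l4193 _)
           (CovZ.leaf K2_ok TD_l4194 _)))
         (CovZ.n1 (25344, 17088) (by decide +kernel)
          (CovZ.n2 (25248, 16992) (by decide +kernel)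
           (CovZ.leaf K2_ok TD_l4195 _)
           (CovZ.leaf K2_ok TD_l4196 _))
          (CovZ.leaf K2_ok TD_l4197 _)))
        (CovZ.n1 (25152, 17472) (by decide +kernel)
         (CovZ.n2 (25344, 17472) (by decide +kernel)
          (CovZ.leaf K2_ok TD_l4198 _)
          (CovZ.leaf K2_ok TD_l4199 _))
         (CovZ.n1 (25152, 17280) (by decide +kernel)
          (CovZ.leaf K2_ok TD_l4200 _)
          (CovZ.leaf K2_ok TD_l4201 _))))
       (CovZ.n1 (24960, 16896) (by decide +kernel)
        (CovZ.n2 (24768, 17088) (by decide +kernel)
         (CovZ.n2 (24960, 17088) (by decide +kernel)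
          (CovZ.n2 (24864, 16992) (by decide +kernel)
           (CovZ.n2 (24864, 17088) (by decide +kernel)
            (CovZ.leaf K2_ok TD_l4202 _)
            (CovZ.leaf K2_ok TD_l4203 _))
           (CovZ.n1 (24960, 16992) (by decide +kernel)
            (CovZ.leaf K2_ok TD_l4204 _)
            (CovZ.leaf K2_ok TD_l4205 _)))
          (CovZ.n1 (24864, 17184) (by decide +kernel)
           (CovZ.leaf K2_ok TD_l4206 _)
           (CovZ.n1 (24864, 17088) (by decide +kernel)
            (CovZ.leaf K2_ok TD_l4207 _)
            (CovZ.leaf K2_ok TD_l4208 _))))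
         (CovZ.n1 (24768, 16896) (by decide +kernel)
          (CovZ.n2 (24672, 16992) (by decide +kernel)
           (CovZ.n2 (24768, 16992) (by decide +kernel)
            (CovZ.n2 (24720, 16944) (by decide +kernel)
             (CovZ.leaf K2_ok TD_l4209 _)
             (CovZ.leaf K2_ok TD_l4210 _))
            (CovZ.leaf K2_ok TD_l4211 _))
           (CovZ.n1 (24672, 16896) (by decide +kernel)
            (CovZ.n2 (24624, 16944) (by decide +kernel)
             (CovZ.leaf K2_ok TD_l4212 _)
             (CovZ.leaf K2_ok TD_l4213 _))
            (CovZ.leaf K2_ok TD_l4214 _)))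
          (CovZ.n1 (24864, 16992) (by decide +kernel)
           (CovZ.n2 (24864, 16896) (by decide +kernel)
            (CovZ.leaf K2_ok TD_l4215 _)
            (CovZ.leaf K2_ok TD_l4216 _))
           (CovZ.leaf K2_ok TD_l4217 _))))
        (CovZ.n1 (25152, 17088) (by decide +kernel)
         (CovZ.n2 (25152, 16896) (by decide +kernel)
          (CovZ.n2 (25056, 16992) (by decide +kernel)
           (CovZ.leaf K2_ok TD_l4218 _)
           (CovZ.n1 (25056, 16896) (by decide +kernel)
            (CovZ.leaf K2_ok TD_l4219 _)
            (CovZ.leaf K2_ok TD_l4220 _)))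
          (CovZ.n1 (25248, 16992) (by decide +kernel)
           (CovZ.n2 (25248, 16896) (by decide +kernel)
            (CovZ.leaf K2_ok TD_l4221 _)
            (CovZ.leaf K2_ok TD_l4222 _))
           (CovZ.leaf K2_ok TD_l4223 _)))
         (CovZ.n1 (24960, 17088) (by decide +kernel)
          (CovZ.leaf K2_ok TD_l4224 _)
          (CovZ.leaf K2_ok TD_l4225 _))))))
     (CovZ.n1 (25728, 17280) (by decide +kernel)
      (CovZ.n2 (25728, 16896) (by decide +kernel)
       (CovZ.subM 266998379490113760416979055628279862803512316774039477517311278634527565152817736696319210291200 (by decide +kernel)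
        (CovZ.n2 (25536, 17088) (by decide +kernel)
         (CovZ.n2 (25728, 17088) (by decide +kernel)
          (CovZ.n2 (25632, 16992) (by decide +kernel)
           (CovZ.leaf K2_ok TD_l4226 _)
           (CovZ.leaf K2_ok TD_l4227 _))
          (CovZ.leaf K2_ok TD_l4228 _))
         (CovZ.n1 (25536, 16896) (by decide +kernel)
          (CovZ.n2 (25440, 16992) (by decide +kernel)
           (CovZ.leaf K2_ok TD_l4229 _)
           (CovZ.leaf K2_ok TD_l4230 _))
          (CovZ.leaf K2_ok TD_l4231 _))))
       (CovZ.n1 (25920, 17088) (by decide +kernel)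
        (CovZ.n2 (25920, 16896) (by decide +kernel)
         (CovZ.leaf K2_ok TD_l4232 _)
         (CovZ.leaf K2_ok TD_l4233 _))
        (CovZ.leaf K2_ok TD_l4234 _)))
      (CovZ.subM 266998379490113760416979055628279862803512316774039477517311278634527565152817736696319210291200 (by decide +kernel)
       (CovZ.n1 (25344, 17280) (by decide +kernel)
        (CovZ.n2 (25536, 17472) (by decide +kernel)
         (CovZ.n2 (25536, 17280) (by decide +kernel)
          (CovZ.leaf K2_ok TD_l4235 _)
          (CovZ.leaf K2_ok TD_l4236 _))
         (CovZ.leaf K2_ok TD_l4237 _))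
        (CovZ.n1 (25536, 17088) (by decide +kernel)
         (CovZ.leaf K2_ok TD_l4238 _)
         (CovZ.n1 (25536, 17280) (by decide +kernel)
          (CovZ.leaf K2_ok TD_l4239 _)
          (CovZ.leaf K2_ok TD_l4240 _)))))))))
    (CovZ.topM TD_LL 311373741114969054114857049580390680099402708753719976273568032473221628386257003564851299781715643482241 (by decide +kernel) (CovZ.n0 (25344, 17664) (by decide +kernel)
    TD_u31
    TD_u32))

theorem TD_s5_3 : SqZ TD_M TD_L [0, 7, 6, 1] 18432 12288 1536 5 3 :=
  SqZ.mk (a := 26112) (b := 27648) (c := 16896) (d := 18432) (by norm_num) (by norm_num) (by norm_num) (by norm_num)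
    (CovZ.topM TD_LL 5517170450147596678179254650656828509662306383902696788194875067209699853385587969156257112704231162432673 (by decide +kernel) (CovZ.n2 (26880, 17664) (by decide +kernel)
    (CovZ.subM 8749005572390688005688589468939929892623163641616374400321202941334976063431920439765342645467008129 (by decide +kernel)
     (CovZ.n2 (27648, 17664) (by decide +kernel)
      (CovZ.n2 (27264, 17280) (by decide +kernel)
       (CovZ.n2 (27264, 17664) (by decide +kernel)
        (CovZ.leaf K2_ok TD_l6698 _)
        (CovZ.n1 (27072, 17472) (by decide +kernel)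
         (CovZ.leaf K2_ok TD_l6699 _)
         (CovZ.leaf K2_ok TD_l6700 _)))
       (CovZ.n1 (27648, 17280) (by decide +kernel)
        (CovZ.n2 (27456, 17088) (by decide +kernel)
         (CovZ.leaf K2_ok TD_l6701 _)
         (CovZ.leaf K2_ok TD_l6702 _))
        (CovZ.leaf K2_ok TD_l6703 _)))
      (CovZ.n1 (27264, 18048) (by decide +kernel)
       (CovZ.leaf K2_ok TD_l6704 _)
       (CovZ.n1 (27264, 17664) (by decide +kernel)
        (CovZ.leaf K2_ok TD_l6705 _)
        (CovZ.leaf K2_ok TD_l6706 _)))))
    (CovZ.n1 (26880, 16896) (by decide +kernel)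
     (CovZ.n2 (26496, 17280) (by decide +kernel)
      (CovZ.n2 (26880, 17280) (by decide +kernel)
       (CovZ.n2 (26688, 17088) (by decide +kernel)
        (CovZ.leaf K2_ok TD_l6707 _)
        (CovZ.leaf K2_ok TD_l6708 _))
       (CovZ.leaf K2_ok TD_l6709 _))
      (CovZ.n1 (26496, 16896) (by decide +kernel)
       (CovZ.n2 (26304, 17088) (by decide +kernel)
        (CovZ.leaf K2_ok TD_l6710 _)
        (CovZ.n1 (26304, 16896) (by decide +kernel)
         (CovZ.leaf K2_ok TD_l6711 _)
         (CovZ.leaf K2_ok TD_l6712 _)))
       (CovZ.n1 (26688, 17088) (by decide +kernel)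
        (CovZ.n2 (26688, 16896) (by decide +kernel)
         (CovZ.leaf K2_ok TD_l6713 _)
         (CovZ.leaf K2_ok TD_l6714 _))
        (CovZ.leaf K2_ok TD_l6715 _))))
     (CovZ.subM 8749005572390687520021366412507662162757686935736647739719493178300095750478818005039271344164883585 (by decide +kernel)
      (CovZ.n1 (27264, 17280) (by decide +kernel)
       (CovZ.n2 (27264, 16896) (by decide +kernel)
        (CovZ.n2 (27072, 17088) (by decide +kernel)
         (CovZ.leaf K2_ok TD_l6716 _)
         (CovZ.leaf K2_ok TD_l6717 _))
        (CovZ.leaf K2_ok TD_l6718 _))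
       (CovZ.leaf K2_ok TD_l6719 _))))))
    (CovZ.topM TD_LL 5517170450147596678179254650658637761056639449456190084835635815769907196895988602969373637454354805083297 (by decide +kernel) (CovZ.n0 (26880, 17664) (by decide +kernel)
    (CovZ.n2 (26112, 17664) (by decide +kernel)
     (CovZ.n2 (26496, 18048) (by decide +kernel)
      (CovZ.n2 (26496, 17664) (by decide +kernel)
       (CovZ.leaf K2_ok TD_l6720 _)
       (CovZ.leaf K2_ok TD_l6721 _))
      (CovZ.leaf K2_ok TD_l6722 _))
     (CovZ.n1 (26496, 17280) (by decide +kernel)
      (CovZ.n2 (26112, 17280) (by decide +kernel)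
       (CovZ.leaf K2_ok TD_l6723 _)
       (CovZ.leaf K2_ok TD_l6724 _))
      (CovZ.n1 (26496, 17664) (by decide +kernel)
       (CovZ.leaf K2_ok TD_l6725 _)
       (CovZ.n1 (26304, 17472) (by decide +kernel)
        (CovZ.leaf K2_ok TD_l6726 _)
        (CovZ.leaf K2_ok TD_l6727 _)))))
    (CovZ.n1 (26880, 18432) (by decide +kernel)
     (CovZ.n2 (27264, 18048) (by decide +kernel)
      (CovZ.leaf K2_ok TD_l6728 _)
      (CovZ.n1 (27264, 18432) (by decide +kernel)
       (CovZ.leaf K2_ok TD_l6729 _)
       (CovZ.leaf K2_ok TD_l6730 _)))
     (CovZ.n1 (26496, 18048) (by decide +kernel)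
      (CovZ.n2 (26496, 18432) (by decide +kernel)
       (CovZ.leaf K2_ok TD_l6731 _)
       (CovZ.n1 (26304, 18240) (by decide +kernel)
        (CovZ.leaf K2_ok TD_l6732 _)
        (CovZ.leaf K2_ok TD_l6733 _)))
      (CovZ.n1 (26880, 18048) (by decide +kernel)
       (CovZ.leaf K2_ok TD_l6734 _)
       (CovZ.leaf K2_ok TD_l6735 _))))))

theorem TD_s6_3 : SqZ TD_M TD_L [0, 7, 6, 1] 18432 12288 1536 6 3 :=
  SqZ.mk (a := 27648) (b := 29184) (c := 16896) (d := 18432) (by norm_num) (by norm_num) (by norm_num) (by norm_num)
    (CovZ.topM TD_LL 8749002964853344957412812337417180924654160480298327667705447855275714392881864748079656820331891845 (by decide +kernel) (CovZ.n2 (28416, 17664) (by decide +kernel)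
    (CovZ.subM 8749002899140004869272565494760500506663305625536559417951267416479787061366650677628912021983579265 (by decide +kernel)
     (CovZ.n2 (29184, 17664) (by decide +kernel)
      (CovZ.n2 (28800, 17280) (by decide +kernel)
       (CovZ.leaf K2_ok TD_l8763 _)
       (CovZ.n1 (29184, 17280) (by decide +kernel)
        (CovZ.leaf K2_ok TD_l8764 _)
        (CovZ.leaf K2_ok TD_l8765 _)))
      (CovZ.n1 (28800, 18048) (by decide +kernel)
       (CovZ.leaf K2_ok TD_l8766 _)
       (CovZ.n1 (28800, 17664) (by decide +kernel)
        (CovZ.leaf K2_ok TD_l8767 _)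
        (CovZ.leaf K2_ok TD_l8768 _)))))
    (CovZ.n1 (28416, 16896) (by decide +kernel)
     (CovZ.n2 (28032, 17280) (by decide +kernel)
      (CovZ.n2 (28416, 17280) (by decide +kernel)
       (CovZ.leaf K2_ok TD_l8769 _)
       (CovZ.leaf K2_ok TD_l8770 _))
      (CovZ.n1 (28032, 16896) (by decide +kernel)
       (CovZ.leaf K2_ok TD_l8771 _)
       (CovZ.leaf K2_ok TD_l8772 _)))
     (CovZ.n1 (28800, 17280) (by decide +kernel)
      (CovZ.n2 (28800, 16896) (by decide +kernel)
       (CovZ.leaf K2_ok TD_l8773 _)
       (CovZ.leaf K2_ok TD_l8774 _))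
      (CovZ.leaf K2_ok TD_l8775 _)))))
    (CovZ.topM TD_LL 8749002964853344957442455112261933870682594652460551772115884971350118377275965889585682581519715461 (by decide +kernel) (CovZ.n0 (28416, 17664) (by decide +kernel)
    (CovZ.n2 (27648, 17664) (by decide +kernel)
     (CovZ.n2 (28032, 18048) (by decide +kernel)
      (CovZ.leaf K2_ok TD_l8776 _)
      (CovZ.leaf K2_ok TD_l8777 _))
     (CovZ.n1 (28032, 17280) (by decide +kernel)
      (CovZ.leaf K2_ok TD_l8778 _)
      (CovZ.n1 (28032, 17664) (by decide +kernel)
       (CovZ.leaf K2_ok TD_l8779 _)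
       (CovZ.leaf K2_ok TD_l8780 _))))
    (CovZ.n1 (28416, 18432) (by decide +kernel)
     (CovZ.leaf K2_ok TD_l8781 _)
     (CovZ.n1 (28032, 18048) (by decide +kernel)
      (CovZ.leaf K2_ok TD_l8782 _)
      (CovZ.leaf K2_ok TD_l8783 _)))))

theorem TD_s7_3 : SqZ TD_M TD_L [0, 7, 6, 1] 18432 12288 1536 7 3 :=
  SqZ.mk (a := 29184) (b := 30720) (c := 16896) (d := 18432) (by norm_num) (by norm_num) (by norm_num) (by norm_num)
    (CovZ.topM TD_LL 8749002899140004869272565494760500506663305625536559417948479823324453917442795438846827186995940481 (by decide +kernel) (CovZ.n2 (29952, 17664) (by decide +kernel)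
    (CovZ.n2 (30720, 17664) (by decide +kernel)
     (CovZ.n2 (30336, 17280) (by decide +kernel)
      (CovZ.leaf K2_ok TD_l10812 _)
      (CovZ.leaf K2_ok TD_l10813 _))
     (CovZ.n1 (30336, 18048) (by decide +kernel)
      (CovZ.leaf K2_ok TD_l10814 _)
      (CovZ.leaf K2_ok TD_l10815 _)))
    (CovZ.n1 (29952, 16896) (by decide +kernel)
     (CovZ.n2 (29568, 17280) (by decide +kernel)
      (CovZ.leaf K2_ok TD_l10816 _)
      (CovZ.n1 (29568, 16896) (by decide +kernel)
       (CovZ.leaf K2_ok TD_l10817 _)
       (CovZ.leaf K2_ok TD_l10818 _)))
     (CovZ.n1 (30336, 17280) (by decide +kernel)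
      (CovZ.leaf K2_ok TD_l10819 _)
      (CovZ.leaf K2_ok TD_l10820 _)))))
    (CovZ.topM TD_LL 8749002899140004869272565494760500506663305625536559417948479823324453917442795438846827186995940481 (by decide +kernel) (CovZ.n0 (29952, 17664) (by decide +kernel)
    (CovZ.n2 (29184, 17664) (by decide +kernel)
     (CovZ.leaf K2_ok TD_l10821 _)
     (CovZ.leaf K2_ok TD_l10822 _))
    (CovZ.n1 (29952, 18432) (by decide +kernel)
     (CovZ.leaf K2_ok TD_l10823 _)
     (CovZ.n1 (29568, 18048) (by decide +kernel)
      (CovZ.leaf K2_ok TD_l10824 _)
      (CovZ.leaf K2_ok TD_l10825 _)))))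

theorem TD_s8_3 : SqZ TD_M TD_L [0, 7, 6, 1] 18432 12288 1536 8 3 :=
  SqZ.mk (a := 30720) (b := 32256) (c := 16896) (d := 18432) (by norm_num) (by norm_num) (by norm_num) (by norm_num)
    (CovZ.topM TD_LL 8749002899132047697490008908470485461412677723573223895831229907610711666823703017715913683099517056 (by decide +kernel) (CovZ.n2 (31488, 17664) (by decide +kernel)
    (CovZ.subM 5708990770823839526709023956368811464073478144 (by decide +kernel)
     (CovZ.n2 (32256, 17664) (by decide +kernel)
      (CovZ.n2 (31872, 17280) (by decide +kernel)
       (CovZ.leaf K2_ok TD_l12894 _)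
       (CovZ.badM (by decide +kernel)))
      (CovZ.n1 (31872, 18048) (by decide +kernel)
       (CovZ.badM (by decide +kernel))
       (CovZ.leaf K2_ok TD_l12898 _))))
    (CovZ.n1 (31488, 16896) (by decide +kernel)
     (CovZ.n2 (31104, 17280) (by decide +kernel)
      (CovZ.leaf K2_ok TD_l12899 _)
      (CovZ.leaf K2_ok TD_l12900 _))
     (CovZ.leaf K2_ok TD_l12901 _))))
    (CovZ.topM TD_LL 8749002899132047697490008908470485461412677723573223895831229907610711666823703017715913683099517056 (by decide +kernel) (CovZ.n0 (31488, 17664) (by decide +kernel)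
    (CovZ.n2 (30720, 17664) (by decide +kernel)
     (CovZ.leaf K2_ok TD_l12902 _)
     (CovZ.leaf K2_ok TD_l12903 _))
    (CovZ.n1 (31488, 18432) (by decide +kernel)
     (CovZ.leaf K2_ok TD_l12904 _)
     (CovZ.n1 (31104, 18048) (by decide +kernel)
      (CovZ.leaf K2_ok TD_l12905 _)
      (CovZ.leaf K2_ok TD_l12906 _)))))

theorem TD_s0_4 : SqZ TD_M TD_L [0, 7, 6, 1] 18432 12288 1536 0 4 :=
  SqZ.mk (a := 18432) (b := 19968) (c := 18432) (d := 19968) (by norm_num) (by norm_num) (by norm_num) (by norm_num)
    (CovZ.topM TD_LL 0 (by decide +kernel) (CovZ.badM (by decide +kernel)))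
    (CovZ.topM TD_LL 0 (by decide +kernel) (CovZ.badM (by decide +kernel)))

theorem TD_s1_4 : SqZ TD_M TD_L [0, 7, 6, 1] 18432 12288 1536 1 4 :=
  SqZ.mk (a := 19968) (b := 21504) (c := 18432) (d := 19968) (by norm_num) (by norm_num) (by norm_num) (by norm_num)
    (CovZ.topM TD_LL 0 (by decide +kernel) (CovZ.badM (by decide +kernel)))
    (CovZ.topM TD_LL 0 (by decide +kernel) (CovZ.badM (by decide +kernel)))

theorem TD_s2_4 : SqZ TD_M TD_L [0, 7, 6, 1] 18432 12288 1536 2 4 :=
  SqZ.mk (a := 21504) (b := 23040) (c := 18432) (d := 19968) (by norm_num) (by norm_num) (by norm_num) (by norm_num)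
    (CovZ.topM TD_LL 0 (by decide +kernel) (CovZ.badM (by decide +kernel)))
    (CovZ.topM TD_LL 0 (by decide +kernel) (CovZ.badM (by decide +kernel)))

theorem TD_s3_4 : SqZ TD_M TD_L [0, 7, 6, 1] 18432 12288 1536 3 4 :=
  SqZ.mk (a := 23040) (b := 24576) (c := 18432) (d := 19968) (by norm_num) (by norm_num) (by norm_num) (by norm_num)
    (CovZ.topM TD_LL 0 (by decide +kernel) (CovZ.badM (by decide +kernel)))
    (CovZ.topM TD_LL 81129638414606681695789005144064 (by decide +kernel) (CovZ.n0 (23808, 19200) (by decide +kernel)
    (CovZ.badM (by decide +kernel))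
    (CovZ.n1 (23808, 19968) (by decide +kernel)
     (CovZ.badM (by decide +kernel))
     (CovZ.badM (by decide +kernel)))))

theorem TD_s4_4 : SqZ TD_M TD_L [0, 7, 6, 1] 18432 12288 1536 4 4 :=
  SqZ.mk (a := 24576) (b := 26112) (c := 18432) (d := 19968) (by norm_num) (by norm_num) (by norm_num) (by norm_num)
    (CovZ.topM TD_LL 311373741123312753474408771827277560485055946302761156523069997539187009978682984777111209585583671361701 (by decide +kernel) (CovZ.n2 (25344, 19200) (by decide +kernel)
    TD_u33
    TD_u34))
    (CovZ.topM TD_LL 311374014529653351350899318390055948462711277917973300062727078885140505852851058921533001555507868221605 (by decide +kernel) (CovZ.n0 (25344, 19200) (by decide +kernel)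
    (CovZ.subM 273414684297235556601586607954397482901193023599272437217229004915923283279970306099540036188897280 (by decide +kernel)
     (CovZ.n2 (24576, 19200) (by decide +kernel)
      (CovZ.n2 (24960, 19584) (by decide +kernel)
       (CovZ.subM 618970019642691236961189888 (by decide +kernel)
        (CovZ.n2 (24960, 19200) (by decide +kernel)
         (CovZ.badM (by decide +kernel))
         (CovZ.n1 (25152, 19392) (by decide +kernel)
          (CovZ.n2 (25152, 19200) (by decide +kernel)
           (CovZ.badM (by decide +kernel))
           (CovZ.n1 (25248, 19296) (by decide +kernel)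
            (CovZ.n2 (25248, 19200) (by decide +kernel)
             (CovZ.badM (by decide +kernel))
             (CovZ.n1 (25296, 19248) (by decide +kernel)
              (CovZ.n2 (25296, 19200) (by decide +kernel)
               (CovZ.badM (by decide +kernel))
               (CovZ.leaf K2_ok TD_l4641 _))
              (CovZ.badM (by decide +kernel))))
            (CovZ.badM (by decide +kernel))))
          (CovZ.badM (by decide +kernel)))))
       (CovZ.n1 (24576, 19584) (by decide +kernel)
        (CovZ.n2 (24768, 19776) (by decide +kernel)
         (CovZ.badM (by decide +kernel))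
         (CovZ.badM (by decide +kernel)))
        (CovZ.badM (by decide +kernel))))
      (CovZ.subM 618970019642691236961189888 (by decide +kernel)
       (CovZ.n1 (24960, 18816) (by decide +kernel)
        (CovZ.badM (by decide +kernel))
        (CovZ.n1 (24960, 19200) (by decide +kernel)
         (CovZ.n2 (25152, 19008) (by decide +kernel)
          (CovZ.badM (by decide +kernel))
          (CovZ.n1 (25152, 19200) (by decide +kernel)
           (CovZ.n2 (25248, 19104) (by decide +kernel)
            (CovZ.badM (by decide +kernel))
            (CovZ.n1 (25248, 19200) (by decide +kernel)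
             (CovZ.leaf K2_ok TD_l4642 _)
             (CovZ.badM (by decide +kernel))))
           (CovZ.badM (by decide +kernel))))
         (CovZ.badM (by decide +kernel)))))))
    (CovZ.n1 (25344, 19968) (by decide +kernel)
     TD_u35
     TD_u36)))

end Pool.Agent.TET
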