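import Pool.Agent.Helper38_TET.TD_M
import Pool.Agent.Helper38_TET.TD_L
import Pool.Agent.Helper38_TET.TD_0
import Pool.Agent.Helper38_TET.TD_2
import Pool.Agent.Helper38_TET.TD_3
import Pool.Agent.Helper38_TET.TD_4
import Pool.Agent.Helper38_TET.TD_5
import Pool.Agent.Helper38_TET.TD_6
import Pool.Agent.Helper38_TET.TD_15
import Pool.Agent.Helper38_TET.TD_16
import Pool.Agent.Helper38_TET.TD_17
import Pool.Agent.Helper38_TET.TD_98
import Pool.Agent.Helper38_TET.TD_99
import Pool.Agent.Helper38_TET.TD_121

/-!
# MP_c7c9bf_co: certificates, family TD
-/

set_option autoImplicit false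
set_option maxRecDepth 100000

namespace Pool.Agent.TET

theorem TD_u45 : CovZ TD_M (toL (selN TD_LN 73391957973826059906636091609160804498876649379218058793091360493723914857225555248245547644474391433052204)) [0, 7, 6, 1] (23040, 23040) (22656, 22656) (23040, 22272) :=
    (CovZ.n2 (23040, 22656) (by decide +kernel)
       (CovZ.subM 6407961107763215914408122434253838491811285518037821938595728349898810919999377461851708035432484 (by decide +kernel)
        (CovZ.n2 (22848, 22464) (by decide +kernel)
         (CovZ.n2 (22848, 22656) (by decide +kernel)
          (CovZ.n2 (22944, 22560) (by decide +kernel)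
           (CovZ.n2 (22848, 22560) (by decide +kernel)
            (CovZ.n2 (22896, 22608) (by decide +kernel)
             (CovZ.leaf K2_ok TD_l301 _)
             (CovZ.leaf K2_ok TD_l302 _))
            (CovZ.leaf K2_ok TD_l303 _))
           (CovZ.n1 (22944, 22656) (by decide +kernel)
            (CovZ.leaf K2_ok TD_l304 _)
            (CovZ.n1 (22896, 22608) (by decide +kernel)
             (CovZ.leaf K2_ok TD_l305 _)
             (CovZ.leaf K2_ok TD_l306 _))))
          (CovZ.n1 (22752, 22560) (by decide +kernel)
           (CovZ.n2 (22752, 22656) (by decide +kernel)
            (CovZ.leaf K2_ok TD_l307 _)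
            (CovZ.n1 (22704, 22608) (by decide +kernel)
             (CovZ.n2 (22704, 22656) (by decide +kernel)
              (CovZ.leaf K2_ok TD_l308 _)
              (CovZ.leaf K2_ok TD_l309 _))
             (CovZ.n1 (22752, 22608) (by decide +kernel)
              (CovZ.leaf K2_ok TD_l310 _)
              (CovZ.leaf K2_ok TD_l311 _))))
           (CovZ.n1 (22848, 22560) (by decide +kernel)
            (CovZ.n2 (22800, 22512) (by decide +kernel)
             (CovZ.n2 (22800, 22560) (by decide +kernel)
              (CovZ.leaf K2_ok TD_l312 _)
              (CovZ.leaf K2_ok TD_l313 _))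
             (CovZ.n1 (22848, 22512) (by decide +kernel)
              (CovZ.leaf K2_ok TD_l314 _)
              (CovZ.leaf K2_ok TD_l315 _)))
            (CovZ.n1 (22800, 22608) (by decide +kernel)
             (CovZ.leaf K2_ok TD_l316 _)
             (CovZ.n1 (22800, 22560) (by decide +kernel)
              (CovZ.leaf K2_ok TD_l317 _)
              (CovZ.leaf K2_ok TD_l318 _))))))
         (CovZ.n1 (23040, 22464) (by decide +kernel)
          (CovZ.n2 (22944, 22368) (by decide +kernel)
           (CovZ.n2 (22944, 22464) (by decide +kernel)
            (CovZ.leaf K2_ok TD_l319 _)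
            (CovZ.subM 4271974071841820164790043412393024122539710324302641086518795977074088603229228836439471566094368 (by decide +kernel)
             (CovZ.n1 (22896, 22416) (by decide +kernel)
              (CovZ.n2 (22896, 22464) (by decide +kernel)
               (CovZ.leaf K2_ok TD_l320 _)
               (CovZ.leaf K2_ok TD_l321 _))
              (CovZ.n1 (22944, 22416) (by decide +kernel)
               (CovZ.leaf K2_ok TD_l322 _)
               (CovZ.leaf K2_ok TD_l323 _)))))
           (CovZ.n1 (23040, 22368) (by decide +kernel)
            (CovZ.n2 (22992, 22320) (by decide +kernel)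
             (CovZ.n2 (22992, 22368) (by decide +kernel)
              (CovZ.leaf K2_ok TD_l324 _)
              (CovZ.leaf K2_ok TD_l325 _))
             (CovZ.n1 (23040, 22320) (by decide +kernel)
              (CovZ.leaf K2_ok TD_l326 _)
              (CovZ.leaf K2_ok TD_l327 _)))
            (CovZ.n1 (22992, 22416) (by decide +kernel)
             (CovZ.leaf K2_ok TD_l328 _)
             (CovZ.n1 (22992, 22368) (by decide +kernel)
              (CovZ.leaf K2_ok TD_l329 _)
              (CovZ.leaf K2_ok TD_l330 _)))))
          (CovZ.n1 (22944, 22560) (by decide +kernel)
           (CovZ.n2 (23040, 22560) (by decide +kernel)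
            (CovZ.n2 (22992, 22512) (by decide +kernel)
             (CovZ.leaf K2_ok TD_l331 _)
             (CovZ.leaf K2_ok TD_l332 _))
            (CovZ.leaf K2_ok TD_l333 _))
           (CovZ.n1 (22944, 22464) (by decide +kernel)
            (CovZ.n2 (22896, 22512) (by decide +kernel)
             (CovZ.leaf K2_ok TD_l334 _)
             (CovZ.n1 (22896, 22464) (by decide +kernel)
              (CovZ.leaf K2_ok TD_l335 _)
              (CovZ.leaf K2_ok TD_l336 _)))
            (CovZ.n1 (22992, 22512) (by decide +kernel)
             (CovZ.leaf K2_ok TD_l337 _)
             (CovZ.leaf K2_ok TD_l338 _)))))))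
       (CovZ.n1 (22848, 22848) (by decide +kernel)
        (CovZ.subM 4271975090360293999256143862307130581897661521415183313912145697282347419935037726587015565148204 (by decide +kernel)
         (CovZ.n2 (23040, 22848) (by decide +kernel)
          (CovZ.n2 (22944, 22752) (by decide +kernel)
           (CovZ.n2 (22944, 22848) (by decide +kernel)
            (CovZ.leaf K2_ok TD_l339 _)
            (CovZ.n1 (22896, 22800) (by decide +kernel)
             (CovZ.leaf K2_ok TD_l340 _)
             (CovZ.leaf K2_ok TD_l341 _)))
           (CovZ.n1 (23040, 22752) (by decide +kernel)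
            (CovZ.leaf K2_ok TD_l342 _)
            (CovZ.leaf K2_ok TD_l343 _)))
          (CovZ.n1 (22944, 22944) (by decide +kernel)
           (CovZ.n2 (23040, 22944) (by decide +kernel)
            (CovZ.leaf K2_ok TD_l344 _)
            (CovZ.leaf K2_ok TD_l345 _))
           (CovZ.n1 (22944, 22848) (by decide +kernel)
            (CovZ.leaf K2_ok TD_l346 _)
            (CovZ.leaf K2_ok TD_l347 _)))))
        (CovZ.subM 6407961107763215914408122434253838491811285518037821938595728349901346221199833920654710031777828 (by decide +kernel)
         (CovZ.n1 (22848, 22656) (by decide +kernel)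
          (CovZ.n2 (22752, 22752) (by decide +kernel)
           (CovZ.n2 (22848, 22752) (by decide +kernel)
            (CovZ.n2 (22800, 22704) (by decide +kernel)
             (CovZ.leaf K2_ok TD_l348 _)
             (CovZ.leaf K2_ok TD_l349 _))
            (CovZ.leaf K2_ok TD_l350 _))
           (CovZ.n1 (22752, 22656) (by decide +kernel)
            (CovZ.n2 (22704, 22704) (by decide +kernel)
             (CovZ.leaf K2_ok TD_l351 _)
             (CovZ.n1 (22704, 22656) (by decide +kernel)
              (CovZ.leaf K2_ok TD_l352 _)
              (CovZ.leaf K2_ok TD_l353 _)))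
            (CovZ.n1 (22800, 22704) (by decide +kernel)
             (CovZ.leaf K2_ok TD_l354 _)
             (CovZ.leaf K2_ok TD_l355 _))))
          (CovZ.n1 (22944, 22752) (by decide +kernel)
           (CovZ.n2 (22944, 22656) (by decide +kernel)
            (CovZ.leaf K2_ok TD_l356 _)
            (CovZ.leaf K2_ok TD_l357 _))
           (CovZ.leaf K2_ok TD_l358 _))))))

theorem TD_u46 : CovZ TD_M (toL (selN TD_LN 73391957973826059906636091609160804498876649379218058793091360493723914857225555248245547644474391433052204)) [0, 7, 6, 1] (22656, 22656) (22272, 22272) (23040, 22272) :=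
    (CovZ.n1 (22656, 22272) (by decide +kernel)
       (CovZ.subM 72757058443009017620909218624937598240422163048817310899380074736288673884302312339282941985161248 (by decide +kernel)
        (CovZ.n2 (22464, 22464) (by decide +kernel)
         (CovZ.n2 (22656, 22464) (by decide +kernel)
          (CovZ.badM (by decide +kernel))
          (CovZ.n1 (22560, 22560) (by decide +kernel)
           (CovZ.n2 (22656, 22560) (by decide +kernel)
            (CovZ.subM 1516450673500082374862520043669780870226509824 (by decide +kernel)
             (CovZ.n2 (22608, 22512) (by decide +kernel)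
              (CovZ.n2 (22608, 22560) (by decide +kernel)
               (CovZ.leaf K2_ok TD_l359 _)
               (CovZ.badM (by decide +kernel)))
              (CovZ.n1 (22656, 22512) (by decide +kernel)
               (CovZ.badM (by decide +kernel))
               (CovZ.n1 (22632, 22536) (by decide +kernel)
                (CovZ.leaf K2_ok TD_l360 _)
                (CovZ.badM (by decide +kernel))))))
            (CovZ.n1 (22608, 22608) (by decide +kernel)
             (CovZ.n2 (22656, 22608) (by decide +kernel)
              (CovZ.n2 (22632, 22584) (by decide +kernel)
               (CovZ.leaf K2_ok TD_l361 _)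
               (CovZ.leaf K2_ok TD_l362 _))
              (CovZ.leaf K2_ok TD_l363 _))
             (CovZ.subM 1516450673500082374862520043669780870226509824 (by decide +kernel)
              (CovZ.n1 (22608, 22560) (by decide +kernel)
               (CovZ.n2 (22584, 22584) (by decide +kernel)
                (CovZ.leaf K2_ok TD_l14708 _)
                (CovZ.badM (by decide +kernel)))
               (CovZ.n1 (22632, 22584) (by decide +kernel)
                (CovZ.leaf K2_ok TD_l364 _)
                (CovZ.leaf K2_ok TD_l14709 _))))))
           (CovZ.badM (by decide +kernel))))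
         (CovZ.badM (by decide +kernel))))
       (CovZ.subM 4271974071842305832013100728084286377208580995678246165374024936240173921032988909825730283569188 (by decide +kernel)
        (CovZ.n1 (22848, 22464) (by decide +kernel)
         (CovZ.n2 (22848, 22272) (by decide +kernel)
          (CovZ.n2 (22752, 22368) (by decide +kernel)
           (CovZ.n2 (22848, 22368) (by decide +kernel)
            (CovZ.subM 53919893334301279589516807081686418334543553986066651339415128899584 (by decide +kernel)
             (CovZ.n2 (22800, 22320) (by decide +kernel)
              (CovZ.n2 (22800, 22368) (by decide +kernel)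
               (CovZ.leaf K2_ok TD_l365 _)
               (CovZ.badM (by decide +kernel)))
              (CovZ.n1 (22848, 22320) (by decide +kernel)
               (CovZ.badM (by decide +kernel))
               (CovZ.n1 (22824, 22344) (by decide +kernel)
                (CovZ.leaf K2_ok TD_l366 _)
                (CovZ.badM (by decide +kernel))))))
            (CovZ.n1 (22800, 22416) (by decide +kernel)
             (CovZ.n2 (22848, 22416) (by decide +kernel)
              (CovZ.n2 (22824, 22392) (by decide +kernel)
               (CovZ.leaf K2_ok TD_l367 _)
               (CovZ.leaf K2_ok TD_l368 _))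
              (CovZ.leaf K2_ok TD_l369 _))
             (CovZ.subM 53919893334301279589516807081686418334543553986066651339415128899584 (by decide +kernel)
              (CovZ.n1 (22800, 22368) (by decide +kernel)
               (CovZ.n2 (22776, 22392) (by decide +kernel)
                (CovZ.leaf K2_ok TD_l370 _)
                (CovZ.badM (by decide +kernel)))
               (CovZ.n1 (22824, 22392) (by decide +kernel)
                (CovZ.leaf K2_ok TD_l371 _)
                (CovZ.leaf K2_ok TD_l372 _))))))
           (CovZ.badM (by decide +kernel)))
          (CovZ.n1 (22944, 22368) (by decide +kernel)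
           (CovZ.n2 (22944, 22272) (by decide +kernel)
            (CovZ.n2 (22896, 22320) (by decide +kernel)
             (CovZ.n2 (22944, 22320) (by decide +kernel)
              (CovZ.n2 (22920, 22296) (by decide +kernel)
               (CovZ.leaf K2_ok TD_l373 _)
               (CovZ.leaf K2_ok TD_l374 _))
              (CovZ.leaf K2_ok TD_l375 _))
             (CovZ.subM 4271974071841820164790043412393024122539710324302639659271103271114207544943258216007882311204864 (by decide +kernel)
              (CovZ.n1 (22896, 22272) (by decide +kernel)
               (CovZ.n2 (22872, 22296) (by decide +kernel)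
                (CovZ.leaf K2_ok TD_l376 _)
                (CovZ.badM (by decide +kernel)))
               (CovZ.n1 (22920, 22296) (by decide +kernel)
                (CovZ.leaf K2_ok TD_l377 _)
                (CovZ.leaf K2_ok TD_l378 _)))))
            (CovZ.n1 (22992, 22320) (by decide +kernel)
             (CovZ.n2 (22992, 22272) (by decide +kernel)
              (CovZ.leaf K2_ok TD_l379 _)
              (CovZ.leaf K2_ok TD_l380 _))
             (CovZ.leaf K2_ok TD_l381 _)))
           (CovZ.n1 (22848, 22368) (by decide +kernel)
            (CovZ.n2 (22896, 22416) (by decide +kernel)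
             (CovZ.n2 (22896, 22368) (by decide +kernel)
              (CovZ.leaf K2_ok TD_l382 _)
              (CovZ.leaf K2_ok TD_l383 _))
             (CovZ.leaf K2_ok TD_l384 _))
            (CovZ.n1 (22896, 22320) (by decide +kernel)
             (CovZ.n2 (22848, 22320) (by decide +kernel)
              (CovZ.n2 (22872, 22344) (by decide +kernel)
               (CovZ.leaf K2_ok TD_l385 _)
               (CovZ.leaf K2_ok TD_l386 _))
              (CovZ.leaf K2_ok TD_l387 _))
             (CovZ.n1 (22896, 22368) (by decide +kernel)
              (CovZ.leaf K2_ok TD_l388 _)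
              (CovZ.n1 (22872, 22344) (by decide +kernel)
               (CovZ.leaf K2_ok TD_l389 _)
               (CovZ.leaf K2_ok TD_l390 _)))))))
         (CovZ.n1 (22656, 22464) (by decide +kernel)
          (CovZ.n2 (22752, 22560) (by decide +kernel)
           (CovZ.n2 (22752, 22464) (by decide +kernel)
            (CovZ.n2 (22704, 22512) (by decide +kernel)
             (CovZ.n2 (22752, 22512) (by decide +kernel)
              (CovZ.n2 (22728, 22488) (by decide +kernel)
               (CovZ.leaf K2_ok TD_l391 _)
               (CovZ.leaf K2_ok TD_l392 _))
              (CovZ.leaf K2_ok TD_l393 _))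
             (CovZ.subM 53919893334301279589335546624712761429649151365124814743077447008256 (by decide +kernel)
              (CovZ.n1 (22704, 22464) (by decide +kernel)
               (CovZ.n2 (22680, 22488) (by decide +kernel)
                (CovZ.leaf K2_ok TD_l394 _)
                (CovZ.badM (by decide +kernel)))
               (CovZ.n1 (22728, 22488) (by decide +kernel)
                (CovZ.leaf K2_ok TD_l395 _)
                (CovZ.leaf K2_ok TD_l396 _)))))
            (CovZ.n1 (22800, 22512) (by decide +kernel)
             (CovZ.n2 (22800, 22464) (by decide +kernel)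
              (CovZ.leaf K2_ok TD_l397 _)
              (CovZ.leaf K2_ok TD_l398 _))
             (CovZ.leaf K2_ok TD_l399 _)))
           (CovZ.n1 (22656, 22560) (by decide +kernel)
            (CovZ.n2 (22704, 22608) (by decide +kernel)
             (CovZ.n2 (22704, 22560) (by decide +kernel)
              (CovZ.leaf K2_ok TD_l400 _)
              (CovZ.leaf K2_ok TD_l401 _))
             (CovZ.leaf K2_ok TD_l402 _))
            (CovZ.n1 (22704, 22512) (by decide +kernel)
             (CovZ.n2 (22656, 22512) (by decide +kernel)
              (CovZ.n2 (22680, 22536) (by decide +kernel)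
               (CovZ.leaf K2_ok TD_l403 _)
               (CovZ.leaf K2_ok TD_l404 _))
              (CovZ.leaf K2_ok TD_l405 _))
             (CovZ.n1 (22704, 22560) (by decide +kernel)
              (CovZ.leaf K2_ok TD_l406 _)
              (CovZ.n1 (22680, 22536) (by decide +kernel)
               (CovZ.leaf K2_ok TD_l407 _)
               (CovZ.leaf K2_ok TD_l408 _))))))
          (CovZ.n1 (22752, 22368) (by decide +kernel)
           (CovZ.badM (by decide +kernel))
           (CovZ.n1 (22752, 22464) (by decide +kernel)
            (CovZ.n2 (22800, 22416) (by decide +kernel)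
             (CovZ.n2 (22752, 22416) (by decide +kernel)
              (CovZ.n2 (22776, 22440) (by decide +kernel)
               (CovZ.leaf K2_ok TD_l409 _)
               (CovZ.leaf K2_ok TD_l410 _))
              (CovZ.leaf K2_ok TD_l411 _))
             (CovZ.n1 (22800, 22464) (by decide +kernel)
              (CovZ.leaf K2_ok TD_l412 _)
              (CovZ.n1 (22776, 22440) (by decide +kernel)
               (CovZ.leaf K2_ok TD_l413 _)
               (CovZ.leaf K2_ok TD_l414 _))))
            (CovZ.subM 53919893334301279589335546624712761429649151365124814743077447008256 (by decide +kernel)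
             (CovZ.n1 (22704, 22416) (by decide +kernel)
              (CovZ.n2 (22704, 22464) (by decide +kernel)
               (CovZ.leaf K2_ok TD_l415 _)
               (CovZ.badM (by decide +kernel)))
              (CovZ.n1 (22752, 22416) (by decide +kernel)
               (CovZ.badM (by decide +kernel))
               (CovZ.n1 (22728, 22440) (by decide +kernel)
                (CovZ.leaf K2_ok TD_l416 _)
                (CovZ.badM (by decide +kernel))))))))))))

theorem TD_u47 : CovZ TD_M (toL (selN TD_LN 73391957973826059906636091609160804498876649379218058793091360493723914857225555248245695218426981109465132)) [0, 7, 6, 1] (22272, 22272) (22656, 22656) (22272, 23040) :=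
    (CovZ.n2 (22272, 22656) (by decide +kernel)
       (CovZ.n2 (22464, 22848) (by decide +kernel)
        (CovZ.subM 72757058443009017620909218624937598240422163048820233902654736542128260283988629761868194801254432 (by decide +kernel)
         (CovZ.n2 (22464, 22656) (by decide +kernel)
          (CovZ.n2 (22368, 22752) (by decide +kernel)
           (CovZ.n2 (22464, 22752) (by decide +kernel)
            (CovZ.badM (by decide +kernel))
            (CovZ.n1 (22416, 22800) (by decide +kernel)
             (CovZ.n2 (22464, 22800) (by decide +kernel)
              (CovZ.n2 (22440, 22776) (by decide +kernel)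
               (CovZ.leaf K2_ok TD_l417 _)
               (CovZ.leaf K2_ok TD_l418 _))
              (CovZ.n1 (22440, 22824) (by decide +kernel)
               (CovZ.leaf K2_ok TD_l419 _)
               (CovZ.leaf K2_ok TD_l420 _)))
             (CovZ.n1 (22416, 22752) (by decide +kernel)
              (CovZ.badM (by decide +kernel))
              (CovZ.n1 (22440, 22776) (by decide +kernel)
               (CovZ.badM (by decide +kernel))
               (CovZ.badM (by decide +kernel))))))
           (CovZ.badM (by decide +kernel)))
          (CovZ.n1 (22560, 22752) (by decide +kernel)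
           (CovZ.n2 (22560, 22656) (by decide +kernel)
            (CovZ.n2 (22512, 22704) (by decide +kernel)
             (CovZ.n2 (22560, 22704) (by decide +kernel)
              (CovZ.n2 (22536, 22680) (by decide +kernel)
               (CovZ.leaf K2_ok TD_l421 _)
               (CovZ.leaf K2_ok TD_l422 _))
              (CovZ.n1 (22536, 22728) (by decide +kernel)
               (CovZ.leaf K2_ok TD_l423 _)
               (CovZ.leaf K2_ok TD_l424 _)))
             (CovZ.badM (by decide +kernel)))
            (CovZ.n1 (22608, 22704) (by decide +kernel)
             (CovZ.n2 (22608, 22656) (by decide +kernel)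
              (CovZ.leaf K2_ok TD_l425 _)
              (CovZ.leaf K2_ok TD_l426 _))
             (CovZ.leaf K2_ok TD_l427 _)))
           (CovZ.n1 (22464, 22752) (by decide +kernel)
            (CovZ.n2 (22512, 22800) (by decide +kernel)
             (CovZ.n2 (22512, 22752) (by decide +kernel)
              (CovZ.n2 (22488, 22776) (by decide +kernel)
               (CovZ.leaf K2_ok TD_l428 _)
               (CovZ.leaf K2_ok TD_l429 _))
              (CovZ.leaf K2_ok TD_l430 _))
             (CovZ.n1 (22464, 22800) (by decide +kernel)
              (CovZ.n2 (22488, 22824) (by decide +kernel)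
               (CovZ.leaf K2_ok TD_l431 _)
               (CovZ.leaf K2_ok TD_l432 _))
              (CovZ.leaf K2_ok TD_l433 _)))
            (CovZ.n1 (22512, 22704) (by decide +kernel)
             (CovZ.badM (by decide +kernel))
             (CovZ.n1 (22512, 22752) (by decide +kernel)
              (CovZ.leaf K2_ok TD_l434 _)
              (CovZ.n1 (22488, 22728) (by decide +kernel)
               (CovZ.leaf K2_ok TD_l435 _)
               (CovZ.leaf K2_ok TD_l436 _))))))))
        (CovZ.n1 (22272, 22848) (by decide +kernel)
         (CovZ.n2 (22368, 22944) (by decide +kernel)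
          (CovZ.subM 68485084371167197463529868923786730518325297044662954465369932345085133843602691095679085100138528 (by decide +kernel)
           (CovZ.n2 (22368, 22848) (by decide +kernel)
            (CovZ.n2 (22320, 22896) (by decide +kernel)
             (CovZ.n2 (22368, 22896) (by decide +kernel)
              (CovZ.n2 (22344, 22872) (by decide +kernel)
               (CovZ.leaf K2_ok TD_l437 _)
               (CovZ.leaf K2_ok TD_l438 _))
              (CovZ.leaf K2_ok TD_l439 _))
             (CovZ.badM (by decide +kernel)))
            (CovZ.n1 (22416, 22896) (by decide +kernel)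
             (CovZ.n2 (22416, 22848) (by decide +kernel)
              (CovZ.leaf K2_ok TD_l440 _)
              (CovZ.leaf K2_ok TD_l441 _))
             (CovZ.leaf K2_ok TD_l442 _))))
          (CovZ.n1 (22272, 22944) (by decide +kernel)
           (CovZ.n2 (22320, 22992) (by decide +kernel)
            (CovZ.subM 2255735810172697110003275139175630940076183808463609586296860971367148476661581026402973674119364648 (by decide +kernel)
             (CovZ.n2 (22320, 22944) (by decide +kernel)
              (CovZ.n2 (22296, 22968) (by decide +kernel)
               (CovZ.leaf K2_ok TD_l443 _)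
               (CovZ.leaf K2_ok TD_l444 _))
              (CovZ.n1 (22344, 22968) (by decide +kernel)
               (CovZ.leaf K2_ok TD_l445 _)
               (CovZ.leaf K2_ok TD_l446 _))))
            (CovZ.n1 (22272, 22992) (by decide +kernel)
             (CovZ.n2 (22296, 23016) (by decide +kernel)
              (CovZ.leaf K2_ok TD_l447 _)
              (CovZ.leaf K2_ok TD_l448 _))
             (CovZ.leaf K2_ok TD_l449 _)))
           (CovZ.subM 68485084371167197463529868923786730518325297044662953038122239639125252785014453297792144004612128 (by decide +kernel)
            (CovZ.n1 (22320, 22896) (by decide +kernel)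
             (CovZ.n2 (22272, 22896) (by decide +kernel)
              (CovZ.n2 (22296, 22920) (by decide +kernel)
               (CovZ.badM (by decide +kernel))
               (CovZ.badM (by decide +kernel)))
              (CovZ.badM (by decide +kernel)))
             (CovZ.n1 (22320, 22944) (by decide +kernel)
              (CovZ.leaf K2_ok TD_l450 _)
              (CovZ.n1 (22296, 22920) (by decide +kernel)
               (CovZ.leaf K2_ok TD_l451 _)
               (CovZ.leaf K2_ok TD_l452 _)))))))
         (CovZ.subM 68485084371167197456119175212598494011216754004106928362760653326483820832427348661822270627381280 (by decide +kernel)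
          (CovZ.n1 (22368, 22752) (by decide +kernel)
           (CovZ.badM (by decide +kernel))
           (CovZ.n1 (22368, 22848) (by decide +kernel)
            (CovZ.n2 (22416, 22800) (by decide +kernel)
             (CovZ.n2 (22368, 22800) (by decide +kernel)
              (CovZ.n2 (22392, 22824) (by decide +kernel)
               (CovZ.badM (by decide +kernel))
               (CovZ.leaf K2_ok TD_l14713 _))
              (CovZ.badM (by decide +kernel)))
             (CovZ.n1 (22416, 22848) (by decide +kernel)
              (CovZ.leaf K2_ok TD_l453 _)
              (CovZ.n1 (22392, 22824) (by decide +kernel)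
               (CovZ.leaf K2_ok TD_l454 _)
               (CovZ.leaf K2_ok TD_l455 _))))
            (CovZ.badM (by decide +kernel)))))))
       (CovZ.subM 72757058443009017620909218624937598240422163048817310899380074736288673884302312339282941985161248 (by decide +kernel)
        (CovZ.n1 (22464, 22464) (by decide +kernel)
         (CovZ.badM (by decide +kernel))
         (CovZ.n1 (22464, 22656) (by decide +kernel)
          (CovZ.n2 (22560, 22560) (by decide +kernel)
           (CovZ.badM (by decide +kernel))
           (CovZ.n1 (22560, 22656) (by decide +kernel)
            (CovZ.n2 (22608, 22608) (by decide +kernel)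
             (CovZ.n2 (22560, 22608) (by decide +kernel)
              (CovZ.n2 (22584, 22632) (by decide +kernel)
               (CovZ.leaf K2_ok TD_l14716 _)
               (CovZ.badM (by decide +kernel)))
              (CovZ.leaf K2_ok TD_l14718 _))
             (CovZ.n1 (22608, 22656) (by decide +kernel)
              (CovZ.leaf K2_ok TD_l456 _)
              (CovZ.n1 (22584, 22632) (by decide +kernel)
               (CovZ.leaf K2_ok TD_l457 _)
               (CovZ.leaf K2_ok TD_l458 _))))
            (CovZ.badM (by decide +kernel))))
          (CovZ.badM (by decide +kernel))))))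

theorem TD_u48 : CovZ TD_M (toL (selN TD_LN 73391957973826059906636091609160804498876649379218058793091360493723914857225555248245695218426981109465132)) [0, 7, 6, 1] (22656, 22656) (23040, 23040) (22272, 23040) :=
    (CovZ.n1 (22656, 23040) (by decide +kernel)
       (CovZ.n2 (22848, 22848) (by decide +kernel)
        (CovZ.subM 6407962126280718414428108252785420441831495372396596380413291071670577953840871474586140180217896 (by decide +kernel)
         (CovZ.n2 (22656, 22848) (by decide +kernel)
          (CovZ.n2 (22752, 22944) (by decide +kernel)
           (CovZ.n2 (22752, 22848) (by decide +kernel)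
            (CovZ.leaf K2_ok TD_l459 _)
            (CovZ.n1 (22800, 22896) (by decide +kernel)
             (CovZ.leaf K2_ok TD_l460 _)
             (CovZ.leaf K2_ok TD_l461 _)))
           (CovZ.n1 (22656, 22944) (by decide +kernel)
            (CovZ.n2 (22704, 22992) (by decide +kernel)
             (CovZ.leaf K2_ok TD_l462 _)
             (CovZ.leaf K2_ok TD_l463 _))
            (CovZ.leaf K2_ok TD_l464 _)))
          (CovZ.n1 (22752, 22752) (by decide +kernel)
           (CovZ.n2 (22656, 22752) (by decide +kernel)
            (CovZ.n2 (22704, 22800) (by decide +kernel)
             (CovZ.leaf K2_ok TD_l465 _)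
             (CovZ.leaf K2_ok TD_l466 _))
            (CovZ.leaf K2_ok TD_l467 _))
           (CovZ.n1 (22752, 22848) (by decide +kernel)
            (CovZ.leaf K2_ok TD_l468 _)
            (CovZ.n1 (22704, 22800) (by decide +kernel)
             (CovZ.leaf K2_ok TD_l469 _)
             (CovZ.leaf K2_ok TD_l470 _))))))
        (CovZ.n1 (22848, 23040) (by decide +kernel)
         (CovZ.n2 (22944, 22944) (by decide +kernel)
          (CovZ.leaf K2_ok TD_l471 _)
          (CovZ.n1 (22944, 23040) (by decide +kernel)
           (CovZ.leaf K2_ok TD_l472 _)
           (CovZ.leaf K2_ok TD_l473 _)))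
         (CovZ.subM 6407962126280718414428108252785420441831495372396596380413291071670577953840871474586140180217896 (by decide +kernel)
          (CovZ.n1 (22752, 22944) (by decide +kernel)
           (CovZ.n2 (22752, 23040) (by decide +kernel)
            (CovZ.leaf K2_ok TD_l474 _)
            (CovZ.n1 (22704, 22992) (by decide +kernel)
             (CovZ.leaf K2_ok TD_l475 _)
             (CovZ.leaf K2_ok TD_l476 _)))
           (CovZ.n1 (22848, 22944) (by decide +kernel)
            (CovZ.n2 (22800, 22896) (by decide +kernel)
             (CovZ.leaf K2_ok TD_l477 _)
             (CovZ.leaf K2_ok TD_l478 _))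
            (CovZ.leaf K2_ok TD_l479 _))))))
       (CovZ.n1 (22464, 22848) (by decide +kernel)
        (CovZ.n2 (22464, 23040) (by decide +kernel)
         (CovZ.n2 (22560, 22944) (by decide +kernel)
          (CovZ.n2 (22464, 22944) (by decide +kernel)
           (CovZ.n2 (22512, 22992) (by decide +kernel)
            (CovZ.leaf K2_ok TD_l480 _)
            (CovZ.leaf K2_ok TD_l481 _))
           (CovZ.leaf K2_ok TD_l482 _))
          (CovZ.n1 (22560, 23040) (by decide +kernel)
           (CovZ.leaf K2_ok TD_l483 _)
           (CovZ.n1 (22512, 22992) (by decide +kernel)
            (CovZ.leaf K2_ok TD_l484 _)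
            (CovZ.leaf K2_ok TD_l485 _))))
         (CovZ.n1 (22368, 22944) (by decide +kernel)
          (CovZ.n2 (22368, 23040) (by decide +kernel)
           (CovZ.leaf K2_ok TD_l486 _)
           (CovZ.n1 (22320, 22992) (by decide +kernel)
            (CovZ.n2 (22320, 23040) (by decide +kernel)
             (CovZ.leaf K2_ok TD_l487 _)
             (CovZ.n1 (22296, 23016) (by decide +kernel)
              (CovZ.leaf K2_ok TD_l488 _)
              (CovZ.leaf K2_ok TD_l489 _)))
            (CovZ.n1 (22368, 22992) (by decide +kernel)
             (CovZ.n2 (22344, 22968) (by decide +kernel)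
              (CovZ.leaf K2_ok TD_l490 _)
              (CovZ.leaf K2_ok TD_l491 _))
             (CovZ.leaf K2_ok TD_l492 _))))
          (CovZ.n1 (22464, 22944) (by decide +kernel)
           (CovZ.n2 (22416, 22896) (by decide +kernel)
            (CovZ.n2 (22416, 22944) (by decide +kernel)
             (CovZ.leaf K2_ok TD_l493 _)
             (CovZ.leaf K2_ok TD_l494 _))
            (CovZ.n1 (22464, 22896) (by decide +kernel)
             (CovZ.leaf K2_ok TD_l495 _)
             (CovZ.leaf K2_ok TD_l496 _)))
           (CovZ.n1 (22416, 22992) (by decide +kernel)
            (CovZ.leaf K2_ok TD_l497 _)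
            (CovZ.n1 (22416, 22944) (by decide +kernel)
             (CovZ.leaf K2_ok TD_l498 _)
             (CovZ.leaf K2_ok TD_l499 _))))))
        (CovZ.n1 (22656, 22848) (by decide +kernel)
         (CovZ.subM 4405473293415564175166077366973085011098913123382231226650068162457112948727964756797928266268704 (by decide +kernel)
          (CovZ.n2 (22560, 22752) (by decide +kernel)
           (CovZ.n2 (22560, 22848) (by decide +kernel)
            (CovZ.leaf K2_ok TD_l500 _)
            (CovZ.n1 (22512, 22800) (by decide +kernel)
             (CovZ.n2 (22512, 22848) (by decide +kernel)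
              (CovZ.leaf K2_ok TD_l501 _)
              (CovZ.n1 (22488, 22824) (by decide +kernel)
               (CovZ.leaf K2_ok TD_l502 _)
               (CovZ.leaf K2_ok TD_l503 _)))
             (CovZ.n1 (22560, 22800) (by decide +kernel)
              (CovZ.leaf K2_ok TD_l504 _)
              (CovZ.leaf K2_ok TD_l505 _))))
           (CovZ.n1 (22656, 22752) (by decide +kernel)
            (CovZ.n2 (22608, 22704) (by decide +kernel)
             (CovZ.n2 (22608, 22752) (by decide +kernel)
              (CovZ.leaf K2_ok TD_l506 _)
              (CovZ.leaf K2_ok TD_l507 _))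
             (CovZ.n1 (22656, 22704) (by decide +kernel)
              (CovZ.leaf K2_ok TD_l508 _)
              (CovZ.leaf K2_ok TD_l509 _)))
            (CovZ.n1 (22608, 22800) (by decide +kernel)
             (CovZ.leaf K2_ok TD_l510 _)
             (CovZ.n1 (22608, 22752) (by decide +kernel)
              (CovZ.leaf K2_ok TD_l511 _)
              (CovZ.leaf K2_ok TD_l512 _))))))
         (CovZ.n1 (22560, 22944) (by decide +kernel)
          (CovZ.n2 (22656, 22944) (by decide +kernel)
           (CovZ.n2 (22608, 22896) (by decide +kernel)
            (CovZ.leaf K2_ok TD_l513 _)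
            (CovZ.leaf K2_ok TD_l514 _))
           (CovZ.leaf K2_ok TD_l515 _))
          (CovZ.n1 (22560, 22848) (by decide +kernel)
           (CovZ.n2 (22512, 22896) (by decide +kernel)
            (CovZ.leaf K2_ok TD_l516 _)
            (CovZ.n1 (22512, 22848) (by decide +kernel)
             (CovZ.leaf K2_ok TD_l517 _)
             (CovZ.leaf K2_ok TD_l518 _)))
           (CovZ.n1 (22608, 22896) (by decide +kernel)
            (CovZ.n2 (22608, 22848) (by decide +kernel)
             (CovZ.leaf K2_ok TD_l519 _)
             (CovZ.leaf K2_ok TD_l520 _))
            (CovZ.leaf K2_ok TD_l521 _)))))))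

theorem TD_u49 : CovZ TD_M (toL (selN TD_LN 4271975090360293999256143862307130581897661527402227625733574913724921453507018897104759412515372)) [0, 7, 6, 1] (23808, 22272) (23424, 21888) (23808, 21504) :=
    (CovZ.n2 (23808, 21888) (by decide +kernel)
       (CovZ.subM 4271974071842305832013100728030366483874279716089448691129462321705967391021454707046229322235940 (by decide +kernel)
        (CovZ.n2 (23616, 21696) (by decide +kernel)
         (CovZ.n2 (23616, 21888) (by decide +kernel)
          (CovZ.n2 (23712, 21792) (by decide +kernel)
           (CovZ.n2 (23616, 21792) (by decide +kernel)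
            (CovZ.n2 (23664, 21840) (by decide +kernel)
             (CovZ.leaf K2_ok TD_l2359 _)
             (CovZ.leaf K2_ok TD_l2360 _))
            (CovZ.leaf K2_ok TD_l2361 _))
           (CovZ.n1 (23712, 21888) (by decide +kernel)
            (CovZ.leaf K2_ok TD_l2362 _)
            (CovZ.n1 (23664, 21840) (by decide +kernel)
             (CovZ.leaf K2_ok TD_l2363 _)
             (CovZ.leaf K2_ok TD_l2364 _))))
          (CovZ.n1 (23520, 21792) (by decide +kernel)
           (CovZ.n2 (23520, 21888) (by decide +kernel)
            (CovZ.leaf K2_ok TD_l2365 _)
            (CovZ.n1 (23472, 21840) (by decide +kernel)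
             (CovZ.leaf K2_ok TD_l2366 _)
             (CovZ.leaf K2_ok TD_l2367 _)))
           (CovZ.subM 4271974071842305832013100728030366483874279716088716513063104164266702080413234190315584854425636 (by decide +kernel)
            (CovZ.n1 (23616, 21792) (by decide +kernel)
             (CovZ.n2 (23568, 21744) (by decide +kernel)
              (CovZ.leaf K2_ok TD_l2368 _)
              (CovZ.leaf K2_ok TD_l2369 _))
             (CovZ.n1 (23568, 21840) (by decide +kernel)
              (CovZ.leaf K2_ok TD_l2370 _)
              (CovZ.n1 (23568, 21792) (by decide +kernel)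
               (CovZ.leaf K2_ok TD_l2371 _)
               (CovZ.leaf K2_ok TD_l2372 _)))))))
         (CovZ.n1 (23808, 21696) (by decide +kernel)
          (CovZ.n2 (23712, 21600) (by decide +kernel)
           (CovZ.n2 (23712, 21696) (by decide +kernel)
            (CovZ.leaf K2_ok TD_l2373 _)
            (CovZ.n1 (23664, 21648) (by decide +kernel)
             (CovZ.leaf K2_ok TD_l2374 _)
             (CovZ.leaf K2_ok TD_l2375 _)))
           (CovZ.n1 (23808, 21600) (by decide +kernel)
            (CovZ.n2 (23760, 21552) (by decide +kernel)
             (CovZ.leaf K2_ok TD_l2376 _)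
             (CovZ.leaf K2_ok TD_l2377 _))
            (CovZ.n1 (23760, 21648) (by decide +kernel)
             (CovZ.leaf K2_ok TD_l2378 _)
             (CovZ.leaf K2_ok TD_l2379 _))))
          (CovZ.n1 (23712, 21792) (by decide +kernel)
           (CovZ.n2 (23808, 21792) (by decide +kernel)
            (CovZ.n2 (23760, 21744) (by decide +kernel)
             (CovZ.leaf K2_ok TD_l2380 _)
             (CovZ.leaf K2_ok TD_l2381 _))
            (CovZ.leaf K2_ok TD_l2382 _))
           (CovZ.n1 (23712, 21696) (by decide +kernel)
            (CovZ.n2 (23664, 21744) (by decide +kernel)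
             (CovZ.leaf K2_ok TD_l2383 _)
             (CovZ.leaf K2_ok TD_l2384 _))
            (CovZ.n1 (23760, 21744) (by decide +kernel)
             (CovZ.leaf K2_ok TD_l2385 _)
             (CovZ.leaf K2_ok TD_l2386 _)))))))
       (CovZ.n1 (23616, 22080) (by decide +kernel)
        (CovZ.subM 4271974071842305832013100728030366483874279716089458771066292057547627364863873268081748575518756 (by decide +kernel)
         (CovZ.n2 (23808, 22080) (by decide +kernel)
          (CovZ.n2 (23712, 21984) (by decide +kernel)
           (CovZ.n2 (23712, 22080) (by decide +kernel)
            (CovZ.leaf K2_ok TD_l2387 _)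
            (CovZ.leaf K2_ok TD_l2388 _))
           (CovZ.n1 (23808, 21984) (by decide +kernel)
            (CovZ.leaf K2_ok TD_l2389 _)
            (CovZ.leaf K2_ok TD_l2390 _)))
          (CovZ.n1 (23712, 22176) (by decide +kernel)
           (CovZ.leaf K2_ok TD_l2391 _)
           (CovZ.n1 (23712, 22080) (by decide +kernel)
            (CovZ.leaf K2_ok TD_l2392 _)
            (CovZ.leaf K2_ok TD_l2393 _)))))
        (CovZ.subM 4271974071842305832013100728030366483874279716089460109111003969385015857309210303007320384208932 (by decide +kernel)
         (CovZ.n1 (23616, 21888) (by decide +kernel)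
          (CovZ.n2 (23520, 21984) (by decide +kernel)
           (CovZ.n2 (23616, 21984) (by decide +kernel)
            (CovZ.n2 (23568, 21936) (by decide +kernel)
             (CovZ.leaf K2_ok TD_l2394 _)
             (CovZ.leaf K2_ok TD_l2395 _))
            (CovZ.leaf K2_ok TD_l2396 _))
           (CovZ.n1 (23520, 21888) (by decide +kernel)
            (CovZ.n2 (23472, 21936) (by decide +kernel)
             (CovZ.leaf K2_ok TD_l2397 _)
             (CovZ.leaf K2_ok TD_l2398 _))
            (CovZ.n1 (23568, 21936) (by decide +kernel)
             (CovZ.leaf K2_ok TD_l2399 _)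
             (CovZ.leaf K2_ok TD_l2400 _))))
          (CovZ.n1 (23712, 21984) (by decide +kernel)
           (CovZ.n2 (23712, 21888) (by decide +kernel)
            (CovZ.leaf K2_ok TD_l2401 _)
            (CovZ.leaf K2_ok TD_l2402 _))
           (CovZ.leaf K2_ok TD_l2403 _))))))

theorem TD_u50 : CovZ TD_M (toL (selN TD_LN 4271975090360293999256143862307130581897661527402227625733574913724921453507018897104759412515372)) [0, 7, 6, 1] (23424, 21888) (23040, 21504) (23808, 21504) :=
    (CovZ.subM 4271974071842305832013100728084286377208580995678781294055808877093360621731682129962929783570468 (by decide +kernel)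
       (CovZ.n1 (23424, 21504) (by decide +kernel)
        (CovZ.n2 (23232, 21696) (by decide +kernel)
         (CovZ.n2 (23424, 21696) (by decide +kernel)
          (CovZ.subM 302231454903692727156736 (by decide +kernel)
           (CovZ.n2 (23328, 21600) (by decide +kernel)
            (CovZ.n2 (23328, 21696) (by decide +kernel)
             (CovZ.n2 (23376, 21648) (by decide +kernel)
              (CovZ.badM (by decide +kernel))
              (CovZ.n1 (23376, 21696) (by decide +kernel)
               (CovZ.leaf K2_ok TD_l2404 _)
               (CovZ.badM (by decide +kernel))))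
             (CovZ.badM (by decide +kernel)))
            (CovZ.n1 (23424, 21600) (by decide +kernel)
             (CovZ.badM (by decide +kernel))
             (CovZ.n1 (23376, 21648) (by decide +kernel)
              (CovZ.n2 (23424, 21648) (by decide +kernel)
               (CovZ.badM (by decide +kernel))
               (CovZ.n1 (23400, 21672) (by decide +kernel)
                (CovZ.leaf K2_ok TD_l2407 _)
                (CovZ.badM (by decide +kernel))))
              (CovZ.badM (by decide +kernel))))))
          (CovZ.n1 (23328, 21792) (by decide +kernel)
           (CovZ.n2 (23424, 21792) (by decide +kernel)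
            (CovZ.subM 485667223057315691262254668870671375410973169020948622262629154193768544805073190912 (by decide +kernel)
             (CovZ.n2 (23376, 21744) (by decide +kernel)
              (CovZ.n2 (23376, 21792) (by decide +kernel)
               (CovZ.leaf K2_ok TD_l2409 _)
               (CovZ.n1 (23352, 21768) (by decide +kernel)
                (CovZ.leaf K2_ok TD_l2410 _)
                (CovZ.leaf K2_ok TD_l2411 _)))
              (CovZ.n1 (23424, 21744) (by decide +kernel)
               (CovZ.n2 (23400, 21720) (by decide +kernel)
                (CovZ.leaf K2_ok TD_l2412 _)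
                (CovZ.leaf K2_ok TD_l2413 _))
               (CovZ.leaf K2_ok TD_l2414 _))))
            (CovZ.n1 (23376, 21840) (by decide +kernel)
             (CovZ.n2 (23424, 21840) (by decide +kernel)
              (CovZ.leaf K2_ok TD_l2415 _)
              (CovZ.leaf K2_ok TD_l2416 _))
             (CovZ.n1 (23376, 21792) (by decide +kernel)
              (CovZ.leaf K2_ok TD_l2417 _)
              (CovZ.leaf K2_ok TD_l2418 _))))
           (CovZ.subM 302231454903692727156736 (by decide +kernel)
            (CovZ.n1 (23328, 21696) (by decide +kernel)
             (CovZ.n2 (23280, 21744) (by decide +kernel)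
              (CovZ.n2 (23328, 21744) (by decide +kernel)
               (CovZ.badM (by decide +kernel))
               (CovZ.n1 (23304, 21768) (by decide +kernel)
                (CovZ.leaf K2_ok TD_l14836 _)
                (CovZ.badM (by decide +kernel))))
              (CovZ.badM (by decide +kernel)))
             (CovZ.n1 (23376, 21744) (by decide +kernel)
              (CovZ.n2 (23376, 21696) (by decide +kernel)
               (CovZ.n2 (23352, 21720) (by decide +kernel)
                (CovZ.leaf K2_ok TD_l14837 _)
                (CovZ.badM (by decide +kernel)))
               (CovZ.n1 (23400, 21720) (by decide +kernel)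
                (CovZ.leaf K2_ok TD_l2419 _)
                (CovZ.leaf K2_ok TD_l14838 _)))
              (CovZ.n1 (23328, 21744) (by decide +kernel)
               (CovZ.n2 (23352, 21768) (by decide +kernel)
                (CovZ.leaf K2_ok TD_l14839 _)
                (CovZ.leaf K2_ok TD_l14840 _))
               (CovZ.leaf K2_ok TD_l14841 _)))))))
         (CovZ.badM (by decide +kernel)))
        (CovZ.n1 (23616, 21696) (by decide +kernel)
         (CovZ.n2 (23616, 21504) (by decide +kernel)
          (CovZ.subM 485667223057315691262254668870671375410973169020948622262629154193768545354829004836 (by decide +kernel)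
           (CovZ.n2 (23520, 21600) (by decide +kernel)
            (CovZ.n2 (23616, 21600) (by decide +kernel)
             (CovZ.subM 485667223057315691262254668870671375410973169020948622262628851953090269110924738560 (by decide +kernel)
              (CovZ.n2 (23568, 21552) (by decide +kernel)
               (CovZ.n2 (23568, 21600) (by decide +kernel)
                (CovZ.leaf K2_ok TD_l2420 _)
                (CovZ.n1 (23544, 21576) (by decide +kernel)
                 (CovZ.leaf K2_ok TD_l2421 _)
                 (CovZ.leaf K2_ok TD_l2422 _)))
               (CovZ.n1 (23616, 21552) (by decide +kernel)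
                (CovZ.n2 (23592, 21528) (by decide +kernel)
                 (CovZ.leaf K2_ok TD_l2423 _)
                 (CovZ.leaf K2_ok TD_l2424 _))
                (CovZ.leaf K2_ok TD_l2425 _))))
             (CovZ.n1 (23568, 21648) (by decide +kernel)
              (CovZ.n2 (23616, 21648) (by decide +kernel)
               (CovZ.leaf K2_ok TD_l2426 _)
               (CovZ.leaf K2_ok TD_l2427 _))
              (CovZ.n1 (23568, 21600) (by decide +kernel)
               (CovZ.leaf K2_ok TD_l2428 _)
               (CovZ.n1 (23592, 21624) (by decide +kernel)
                (CovZ.leaf K2_ok TD_l2429 _)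
                (CovZ.leaf K2_ok TD_l2430 _)))))
            (CovZ.subM 302240678275729716150272 (by decide +kernel)
             (CovZ.n1 (23520, 21504) (by decide +kernel)
              (CovZ.n2 (23472, 21552) (by decide +kernel)
               (CovZ.n2 (23520, 21552) (by decide +kernel)
                (CovZ.n2 (23496, 21528) (by decide +kernel)
                 (CovZ.leaf K2_ok TD_l14842 _)
                 (CovZ.leaf K2_ok TD_l14843 _))
                (CovZ.n1 (23496, 21576) (by decide +kernel)
                 (CovZ.leaf K2_ok TD_l2431 _)
                 (CovZ.leaf K2_ok TD_l14844 _)))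
               (CovZ.badM (by decide +kernel)))
              (CovZ.n1 (23568, 21552) (by decide +kernel)
               (CovZ.n2 (23568, 21504) (by decide +kernel)
                (CovZ.n2 (23544, 21528) (by decide +kernel)
                 (CovZ.leaf K2_ok TD_l2432 _)
                 (CovZ.leaf K2_ok TD_l14845 _))
                (CovZ.n1 (23592, 21528) (by decide +kernel)
                 (CovZ.leaf K2_ok TD_l2433 _)
                 (CovZ.leaf K2_ok TD_l2434 _)))
               (CovZ.n1 (23520, 21552) (by decide +kernel)
                (CovZ.n2 (23544, 21576) (by decide +kernel)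
                 (CovZ.leaf K2_ok TD_l2435 _)
                 (CovZ.leaf K2_ok TD_l2436 _))
                (CovZ.leaf K2_ok TD_l2437 _)))))))
          (CovZ.n1 (23712, 21600) (by decide +kernel)
           (CovZ.n2 (23712, 21504) (by decide +kernel)
            (CovZ.subM 485667223057315691262254668870671375410973169020948622262628851953090269660680552484 (by decide +kernel)
             (CovZ.n2 (23664, 21552) (by decide +kernel)
              (CovZ.n2 (23712, 21552) (by decide +kernel)
               (CovZ.leaf K2_ok TD_l2438 _)
               (CovZ.leaf K2_ok TD_l2439 _))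
              (CovZ.n1 (23664, 21504) (by decide +kernel)
               (CovZ.leaf K2_ok TD_l2440 _)
               (CovZ.leaf K2_ok TD_l2441 _))))
            (CovZ.n1 (23760, 21552) (by decide +kernel)
             (CovZ.n2 (23760, 21504) (by decide +kernel)
              (CovZ.leaf K2_ok TD_l2442 _)
              (CovZ.leaf K2_ok TD_l2443 _))
             (CovZ.leaf K2_ok TD_l2444 _)))
           (CovZ.subM 485667223057315691262254668870671375410973169020948622262628851953090269660680552484 (by decide +kernel)
            (CovZ.n1 (23616, 21600) (by decide +kernel)
             (CovZ.n2 (23664, 21648) (by decide +kernel)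
              (CovZ.n2 (23664, 21600) (by decide +kernel)
               (CovZ.leaf K2_ok TD_l2445 _)
               (CovZ.leaf K2_ok TD_l2446 _))
              (CovZ.leaf K2_ok TD_l2447 _))
             (CovZ.n1 (23664, 21552) (by decide +kernel)
              (CovZ.leaf K2_ok TD_l2448 _)
              (CovZ.n1 (23664, 21600) (by decide +kernel)
               (CovZ.leaf K2_ok TD_l2449 _)
               (CovZ.n1 (23640, 21576) (by decide +kernel)
                (CovZ.leaf K2_ok TD_l2450 _)
                (CovZ.leaf K2_ok TD_l2451 _))))))))
         (CovZ.n1 (23424, 21696) (by decide +kernel)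
          (CovZ.n2 (23520, 21792) (by decide +kernel)
           (CovZ.subM 485667223057315691262254668870671375410973169020948622262629154193768545354829004836 (by decide +kernel)
            (CovZ.n2 (23520, 21696) (by decide +kernel)
             (CovZ.n2 (23472, 21744) (by decide +kernel)
              (CovZ.n2 (23520, 21744) (by decide +kernel)
               (CovZ.n2 (23496, 21720) (by decide +kernel)
                (CovZ.leaf K2_ok TD_l2452 _)
                (CovZ.leaf K2_ok TD_l2453 _))
               (CovZ.leaf K2_ok TD_l2454 _))
              (CovZ.n1 (23472, 21696) (by decide +kernel)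
               (CovZ.leaf K2_ok TD_l2455 _)
               (CovZ.leaf K2_ok TD_l2456 _)))
             (CovZ.n1 (23568, 21744) (by decide +kernel)
              (CovZ.n2 (23568, 21696) (by decide +kernel)
               (CovZ.leaf K2_ok TD_l2457 _)
               (CovZ.leaf K2_ok TD_l2458 _))
              (CovZ.leaf K2_ok TD_l2459 _))))
           (CovZ.n1 (23424, 21792) (by decide +kernel)
            (CovZ.n2 (23472, 21840) (by decide +kernel)
             (CovZ.n2 (23472, 21792) (by decide +kernel)
              (CovZ.leaf K2_ok TD_l2460 _)
              (CovZ.leaf K2_ok TD_l2461 _))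
             (CovZ.leaf K2_ok TD_l2462 _))
            (CovZ.subM 485667223057315691262254668870671375410973169020948622262629154193768545354829004836 (by decide +kernel)
             (CovZ.n1 (23472, 21744) (by decide +kernel)
              (CovZ.leaf K2_ok TD_l2463 _)
              (CovZ.n1 (23472, 21792) (by decide +kernel)
               (CovZ.leaf K2_ok TD_l2464 _)
               (CovZ.n1 (23448, 21768) (by decide +kernel)
                (CovZ.leaf K2_ok TD_l2465 _)
                (CovZ.leaf K2_ok TD_l2466 _)))))))
          (CovZ.subM 485667223057315691262254668870671375410973169020948622262629154193768545354829004836 (by decide +kernel)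
           (CovZ.n1 (23520, 21600) (by decide +kernel)
            (CovZ.subM 302240678275729716150272 (by decide +kernel)
             (CovZ.n2 (23424, 21600) (by decide +kernel)
              (CovZ.n2 (23472, 21648) (by decide +kernel)
               (CovZ.n2 (23472, 21600) (by decide +kernel)
                (CovZ.n2 (23448, 21624) (by decide +kernel)
                 (CovZ.leaf K2_ok TD_l2467 _)
                 (CovZ.badM (by decide +kernel)))
                (CovZ.n1 (23496, 21624) (by decide +kernel)
                 (CovZ.leaf K2_ok TD_l2468 _)
                 (CovZ.leaf K2_ok TD_l2469 _)))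
               (CovZ.n1 (23424, 21648) (by decide +kernel)
                (CovZ.n2 (23448, 21672) (by decide +kernel)
                 (CovZ.leaf K2_ok TD_l2470 _)
                 (CovZ.leaf K2_ok TD_l2471 _))
                (CovZ.leaf K2_ok TD_l2472 _)))
              (CovZ.n1 (23472, 21552) (by decide +kernel)
               (CovZ.badM (by decide +kernel))
               (CovZ.n1 (23472, 21600) (by decide +kernel)
                (CovZ.leaf K2_ok TD_l2473 _)
                (CovZ.badM (by decide +kernel))))))
            (CovZ.n1 (23520, 21696) (by decide +kernel)
             (CovZ.n2 (23568, 21648) (by decide +kernel)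
              (CovZ.n2 (23520, 21648) (by decide +kernel)
               (CovZ.leaf K2_ok TD_l2474 _)
               (CovZ.leaf K2_ok TD_l2475 _))
              (CovZ.n1 (23568, 21696) (by decide +kernel)
               (CovZ.leaf K2_ok TD_l2476 _)
               (CovZ.leaf K2_ok TD_l2477 _)))
             (CovZ.n1 (23472, 21648) (by decide +kernel)
              (CovZ.n2 (23472, 21696) (by decide +kernel)
               (CovZ.leaf K2_ok TD_l2478 _)
               (CovZ.n1 (23448, 21672) (by decide +kernel)
                (CovZ.leaf K2_ok TD_l2479 _)
                (CovZ.leaf K2_ok TD_l2480 _)))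
              (CovZ.n1 (23520, 21648) (by decide +kernel)
               (CovZ.n2 (23496, 21624) (by decide +kernel)
                (CovZ.leaf K2_ok TD_l2481 _)
                (CovZ.leaf K2_ok TD_l2482 _))
               (CovZ.leaf K2_ok TD_l2483 _))))))))))

theorem TD_u51 : CovZ TD_M (toL (selN TD_LN 4271975090360293999256143862307130581897661527402227625733574913724921453507018897104759412515372)) [0, 7, 6, 1] (23040, 21504) (23424, 21888) (23040, 22272) :=
    (CovZ.subM 4271974071842305832013100728084286377208580995678063477669358573375398460428269879306792447508516 (by decide +kernel)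
       (CovZ.n2 (23040, 21888) (by decide +kernel)
        (CovZ.n2 (23232, 22080) (by decide +kernel)
         (CovZ.n2 (23232, 21888) (by decide +kernel)
          (CovZ.n2 (23136, 21984) (by decide +kernel)
           (CovZ.subM 4271974071842305832013100728030366483874279716088727931044645811945750547003230464552335570894884 (by decide +kernel)
            (CovZ.n2 (23232, 21984) (by decide +kernel)
             (CovZ.n2 (23184, 21936) (by decide +kernel)
              (CovZ.n2 (23184, 21984) (by decide +kernel)
               (CovZ.leaf K2_ok TD_l2581 _)
               (CovZ.n1 (23160, 21960) (by decide +kernel)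
                (CovZ.leaf K2_ok TD_l2582 _)
                (CovZ.leaf K2_ok TD_l2583 _)))
              (CovZ.n1 (23232, 21936) (by decide +kernel)
               (CovZ.n2 (23208, 21912) (by decide +kernel)
                (CovZ.leaf K2_ok TD_l2584 _)
                (CovZ.leaf K2_ok TD_l2585 _))
               (CovZ.leaf K2_ok TD_l2586 _)))
             (CovZ.n1 (23184, 22032) (by decide +kernel)
              (CovZ.n2 (23232, 22032) (by decide +kernel)
               (CovZ.n2 (23208, 22008) (by decide +kernel)
                (CovZ.leaf K2_ok TD_l2587 _)
                (CovZ.leaf K2_ok TD_l2588 _))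
               (CovZ.leaf K2_ok TD_l2589 _))
              (CovZ.n1 (23184, 21984) (by decide +kernel)
               (CovZ.n2 (23160, 22008) (by decide +kernel)
                (CovZ.leaf K2_ok TD_l2590 _)
                (CovZ.leaf K2_ok TD_l2591 _))
               (CovZ.n1 (23208, 22008) (by decide +kernel)
                (CovZ.leaf K2_ok TD_l2592 _)
                (CovZ.leaf K2_ok TD_l2593 _))))))
           (CovZ.subM 4271974071841820164790043412339104229205409044713305539894083215644439451561281100045924173873152 (by decide +kernel)
            (CovZ.n1 (23136, 21888) (by decide +kernel)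
             (CovZ.badM (by decide +kernel))
             (CovZ.n1 (23184, 21936) (by decide +kernel)
              (CovZ.badM (by decide +kernel))
              (CovZ.n1 (23136, 21936) (by decide +kernel)
               (CovZ.n2 (23160, 21960) (by decide +kernel)
                (CovZ.badM (by decide +kernel))
                (CovZ.badM (by decide +kernel)))
               (CovZ.badM (by decide +kernel)))))))
          (CovZ.n1 (23328, 21984) (by decide +kernel)
           (CovZ.n2 (23328, 21888) (by decide +kernel)
            (CovZ.subM 4271974071842305832013100728030366483874279716088716513063104164266702080715474868591244643139620 (by decide +kernel)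
             (CovZ.n2 (23280, 21936) (by decide +kernel)
              (CovZ.n2 (23328, 21936) (by decide +kernel)
               (CovZ.n2 (23304, 21912) (by decide +kernel)
                (CovZ.leaf K2_ok TD_l2594 _)
                (CovZ.leaf K2_ok TD_l2595 _))
               (CovZ.leaf K2_ok TD_l2596 _))
              (CovZ.n1 (23280, 21888) (by decide +kernel)
               (CovZ.leaf K2_ok TD_l2597 _)
               (CovZ.leaf K2_ok TD_l2598 _))))
            (CovZ.n1 (23376, 21936) (by decide +kernel)
             (CovZ.n2 (23376, 21888) (by decide +kernel)
              (CovZ.leaf K2_ok TD_l2599 _)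
              (CovZ.leaf K2_ok TD_l2600 _))
             (CovZ.leaf K2_ok TD_l2601 _)))
           (CovZ.n1 (23232, 21984) (by decide +kernel)
            (CovZ.n2 (23280, 22032) (by decide +kernel)
             (CovZ.n2 (23280, 21984) (by decide +kernel)
              (CovZ.leaf K2_ok TD_l2602 _)
              (CovZ.leaf K2_ok TD_l2603 _))
             (CovZ.leaf K2_ok TD_l2604 _))
            (CovZ.subM 4271974071842305832013100728030366483874279716088716513063104164266702080715474868591244643139620 (by decide +kernel)
             (CovZ.n1 (23280, 21936) (by decide +kernel)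
              (CovZ.leaf K2_ok TD_l2605 _)
              (CovZ.n1 (23280, 21984) (by decide +kernel)
               (CovZ.leaf K2_ok TD_l2606 _)
               (CovZ.n1 (23256, 21960) (by decide +kernel)
                (CovZ.leaf K2_ok TD_l2607 _)
                (CovZ.leaf K2_ok TD_l2608 _))))))))
         (CovZ.n1 (23040, 22080) (by decide +kernel)
          (CovZ.n2 (23136, 22176) (by decide +kernel)
           (CovZ.n2 (23136, 22080) (by decide +kernel)
            (CovZ.n2 (23088, 22128) (by decide +kernel)
             (CovZ.n2 (23136, 22128) (by decide +kernel)
              (CovZ.n2 (23112, 22104) (by decide +kernel)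
               (CovZ.leaf K2_ok TD_l2609 _)
               (CovZ.leaf K2_ok TD_l2610 _))
              (CovZ.leaf K2_ok TD_l2611 _))
             (CovZ.subM 4271974071842305832013100728084286377208580995678061961218685073293024835848311593751398634749956 (by decide +kernel)
              (CovZ.n1 (23088, 22080) (by decide +kernel)
               (CovZ.n2 (23064, 22104) (by decide +kernel)
                (CovZ.leaf K2_ok TD_l2612 _)
                (CovZ.leaf K2_ok TD_l2613 _))
               (CovZ.n1 (23112, 22104) (by decide +kernel)
                (CovZ.leaf K2_ok TD_l2614 _)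
                (CovZ.leaf K2_ok TD_l2615 _)))))
            (CovZ.n1 (23184, 22128) (by decide +kernel)
             (CovZ.n2 (23184, 22080) (by decide +kernel)
              (CovZ.leaf K2_ok TD_l2616 _)
              (CovZ.leaf K2_ok TD_l2617 _))
             (CovZ.leaf K2_ok TD_l2618 _)))
           (CovZ.n1 (23040, 22176) (by decide +kernel)
            (CovZ.n2 (23088, 22224) (by decide +kernel)
             (CovZ.n2 (23088, 22176) (by decide +kernel)
              (CovZ.leaf K2_ok TD_l2619 _)
              (CovZ.leaf K2_ok TD_l2620 _))
             (CovZ.leaf K2_ok TD_l2621 _))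
            (CovZ.n1 (23088, 22128) (by decide +kernel)
             (CovZ.n2 (23040, 22128) (by decide +kernel)
              (CovZ.n2 (23064, 22152) (by decide +kernel)
               (CovZ.leaf K2_ok TD_l2622 _)
               (CovZ.leaf K2_ok TD_l2623 _))
              (CovZ.leaf K2_ok TD_l2624 _))
             (CovZ.n1 (23088, 22176) (by decide +kernel)
              (CovZ.leaf K2_ok TD_l2625 _)
              (CovZ.n1 (23064, 22152) (by decide +kernel)
               (CovZ.leaf K2_ok TD_l2626 _)
               (CovZ.leaf K2_ok TD_l2627 _))))))
          (CovZ.n1 (23136, 21984) (by decide +kernel)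
           (CovZ.badM (by decide +kernel))
           (CovZ.n1 (23136, 22080) (by decide +kernel)
            (CovZ.subM 4271974071842305832013100728030366483874279716088727931044645811945750547003230464552335570894884 (by decide +kernel)
             (CovZ.n2 (23184, 22032) (by decide +kernel)
              (CovZ.n2 (23136, 22032) (by decide +kernel)
               (CovZ.n2 (23160, 22056) (by decide +kernel)
                (CovZ.leaf K2_ok TD_l2628 _)
                (CovZ.leaf K2_ok TD_l2629 _))
               (CovZ.leaf K2_ok TD_l2630 _))
              (CovZ.n1 (23184, 22080) (by decide +kernel)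
               (CovZ.leaf K2_ok TD_l2631 _)
               (CovZ.n1 (23160, 22056) (by decide +kernel)
                (CovZ.leaf K2_ok TD_l2632 _)
                (CovZ.leaf K2_ok TD_l2633 _)))))
            (CovZ.subM 4271974071842305832013100728084286377208580995678050543237143425613976369560555995538503464124420 (by decide +kernel)
             (CovZ.n1 (23088, 22032) (by decide +kernel)
              (CovZ.n2 (23088, 22080) (by decide +kernel)
               (CovZ.leaf K2_ok TD_l2634 _)
               (CovZ.n1 (23064, 22056) (by decide +kernel)
                (CovZ.leaf K2_ok TD_l14848 _)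
                (CovZ.leaf K2_ok TD_l14849 _)))
              (CovZ.n1 (23136, 22032) (by decide +kernel)
               (CovZ.n2 (23112, 22008) (by decide +kernel)
                (CovZ.leaf K2_ok TD_l2635 _)
                (CovZ.leaf K2_ok TD_l2636 _))
               (CovZ.n1 (23112, 22056) (by decide +kernel)
                (CovZ.leaf K2_ok TD_l2637 _)
                (CovZ.leaf K2_ok TD_l2638 _)))))))))
        (CovZ.n1 (23232, 21696) (by decide +kernel)
         (CovZ.badM (by decide +kernel))
         (CovZ.n1 (23232, 21888) (by decide +kernel)
          (CovZ.n2 (23328, 21792) (by decide +kernel)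
           (CovZ.subM 302231454903658367418368 (by decide +kernel)
            (CovZ.n2 (23232, 21792) (by decide +kernel)
             (CovZ.n2 (23280, 21840) (by decide +kernel)
              (CovZ.n2 (23280, 21792) (by decide +kernel)
               (CovZ.n2 (23256, 21816) (by decide +kernel)
                (CovZ.leaf K2_ok TD_l14850 _)
                (CovZ.badM (by decide +kernel)))
               (CovZ.n1 (23304, 21816) (by decide +kernel)
                (CovZ.leaf K2_ok TD_l14851 _)
                (CovZ.leaf K2_ok TD_l14852 _)))
              (CovZ.n1 (23232, 21840) (by decide +kernel)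
               (CovZ.n2 (23256, 21864) (by decide +kernel)
                (CovZ.leaf K2_ok TD_l14853 _)
                (CovZ.badM (by decide +kernel)))
               (CovZ.leaf K2_ok TD_l14855 _)))
             (CovZ.n1 (23280, 21744) (by decide +kernel)
              (CovZ.badM (by decide +kernel))
              (CovZ.n1 (23280, 21792) (by decide +kernel)
               (CovZ.leaf K2_ok TD_l14856 _)
               (CovZ.badM (by decide +kernel))))))
           (CovZ.n1 (23328, 21888) (by decide +kernel)
            (CovZ.n2 (23376, 21840) (by decide +kernel)
             (CovZ.leaf K2_ok TD_l2639 _)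
             (CovZ.n1 (23376, 21888) (by decide +kernel)
              (CovZ.leaf K2_ok TD_l2640 _)
              (CovZ.leaf K2_ok TD_l2641 _)))
            (CovZ.subM 485667223057315691262254668870671375410973169020948622262629154193768544770579234820 (by decide +kernel)
             (CovZ.n1 (23280, 21840) (by decide +kernel)
              (CovZ.n2 (23280, 21888) (by decide +kernel)
               (CovZ.leaf K2_ok TD_l2642 _)
               (CovZ.n1 (23256, 21864) (by decide +kernel)
                (CovZ.leaf K2_ok TD_l2643 _)
                (CovZ.leaf K2_ok TD_l2644 _)))
              (CovZ.n1 (23328, 21840) (by decide +kernel)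
               (CovZ.n2 (23304, 21816) (by decide +kernel)
                (CovZ.leaf K2_ok TD_l2645 _)
                (CovZ.leaf K2_ok TD_l2646 _))
               (CovZ.leaf K2_ok TD_l2647 _))))))
          (CovZ.badM (by decide +kernel))))))

theorem TD_u52 : CovZ TD_M (toL (selN TD_LN 4271975090360293999256143862307130581897661527402227625733574913724921453507018897104759412515372)) [0, 7, 6, 1] (23424, 21888) (23808, 22272) (23040, 22272) :=
    (CovZ.n1 (23424, 22272) (by decide +kernel)
       (CovZ.n2 (23616, 22080) (by decide +kernel)
        (CovZ.subM 4271974071842305832013100728030366483874279716088729447495319312028124171432073006894955603427364 (by decide +kernel)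
         (CovZ.n2 (23424, 22080) (by decide +kernel)
          (CovZ.n2 (23520, 22176) (by decide +kernel)
           (CovZ.n2 (23520, 22080) (by decide +kernel)
            (CovZ.leaf K2_ok TD_l2648 _)
            (CovZ.leaf K2_ok TD_l2649 _))
           (CovZ.leaf K2_ok TD_l2650 _))
          (CovZ.n1 (23520, 21984) (by decide +kernel)
           (CovZ.n2 (23424, 21984) (by decide +kernel)
            (CovZ.n2 (23472, 22032) (by decide +kernel)
             (CovZ.leaf K2_ok TD_l2651 _)
             (CovZ.leaf K2_ok TD_l2652 _))
            (CovZ.leaf K2_ok TD_l2653 _))
           (CovZ.n1 (23520, 22080) (by decide +kernel)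
            (CovZ.leaf K2_ok TD_l2654 _)
            (CovZ.n1 (23472, 22032) (by decide +kernel)
             (CovZ.leaf K2_ok TD_l2655 _)
             (CovZ.leaf K2_ok TD_l2656 _))))))
        (CovZ.n1 (23616, 22272) (by decide +kernel)
         (CovZ.leaf K2_ok TD_l2657 _)
         (CovZ.subM 4271974071842305832013100728030366483874279716088729447495319312028124171432073006894955603427364 (by decide +kernel)
          (CovZ.n1 (23520, 22176) (by decide +kernel)
           (CovZ.n2 (23520, 22272) (by decide +kernel)
            (CovZ.leaf K2_ok TD_l2658 _)
            (CovZ.leaf K2_ok TD_l2659 _))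
           (CovZ.n1 (23616, 22176) (by decide +kernel)
            (CovZ.leaf K2_ok TD_l2660 _)
            (CovZ.leaf K2_ok TD_l2661 _))))))
       (CovZ.subM 4271974071842305832013100728084286377208580995678063477669358573375398460428271032230496077611044 (by decide +kernel)
        (CovZ.n1 (23232, 22080) (by decide +kernel)
         (CovZ.n2 (23232, 22272) (by decide +kernel)
          (CovZ.n2 (23328, 22176) (by decide +kernel)
           (CovZ.n2 (23232, 22176) (by decide +kernel)
            (CovZ.n2 (23280, 22224) (by decide +kernel)
             (CovZ.leaf K2_ok TD_l2662 _)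
             (CovZ.leaf K2_ok TD_l2663 _))
            (CovZ.leaf K2_ok TD_l2664 _))
           (CovZ.n1 (23328, 22272) (by decide +kernel)
            (CovZ.leaf K2_ok TD_l2665 _)
            (CovZ.n1 (23280, 22224) (by decide +kernel)
             (CovZ.leaf K2_ok TD_l2666 _)
             (CovZ.leaf K2_ok TD_l2667 _))))
          (CovZ.n1 (23136, 22176) (by decide +kernel)
           (CovZ.n2 (23136, 22272) (by decide +kernel)
            (CovZ.leaf K2_ok TD_l2668 _)
            (CovZ.n1 (23088, 22224) (by decide +kernel)
             (CovZ.n2 (23088, 22272) (by decide +kernel)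
              (CovZ.leaf K2_ok TD_l2669 _)
              (CovZ.leaf K2_ok TD_l2670 _))
             (CovZ.n1 (23136, 22224) (by decide +kernel)
              (CovZ.leaf K2_ok TD_l2671 _)
              (CovZ.leaf K2_ok TD_l2672 _))))
           (CovZ.n1 (23232, 22176) (by decide +kernel)
            (CovZ.n2 (23184, 22128) (by decide +kernel)
             (CovZ.leaf K2_ok TD_l2673 _)
             (CovZ.n1 (23232, 22128) (by decide +kernel)
              (CovZ.leaf K2_ok TD_l2674 _)
              (CovZ.leaf K2_ok TD_l2675 _)))
            (CovZ.n1 (23184, 22224) (by decide +kernel)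
             (CovZ.leaf K2_ok TD_l2676 _)
             (CovZ.n1 (23184, 22176) (by decide +kernel)
              (CovZ.leaf K2_ok TD_l2677 _)
              (CovZ.leaf K2_ok TD_l2678 _))))))
         (CovZ.n1 (23424, 22080) (by decide +kernel)
          (CovZ.n2 (23328, 21984) (by decide +kernel)
           (CovZ.n2 (23328, 22080) (by decide +kernel)
            (CovZ.leaf K2_ok TD_l2679 _)
            (CovZ.n1 (23280, 22032) (by decide +kernel)
             (CovZ.leaf K2_ok TD_l2680 _)
             (CovZ.n1 (23328, 22032) (by decide +kernel)
              (CovZ.leaf K2_ok TD_l2681 _)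
              (CovZ.leaf K2_ok TD_l2682 _))))
           (CovZ.n1 (23424, 21984) (by decide +kernel)
            (CovZ.n2 (23376, 21936) (by decide +kernel)
             (CovZ.leaf K2_ok TD_l2683 _)
             (CovZ.leaf K2_ok TD_l2684 _))
            (CovZ.n1 (23376, 22032) (by decide +kernel)
             (CovZ.leaf K2_ok TD_l2685 _)
             (CovZ.n1 (23376, 21984) (by decide +kernel)
              (CovZ.leaf K2_ok TD_l2686 _)
              (CovZ.leaf K2_ok TD_l2687 _)))))
          (CovZ.n1 (23328, 22176) (by decide +kernel)
           (CovZ.n2 (23424, 22176) (by decide +kernel)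
            (CovZ.n2 (23376, 22128) (by decide +kernel)
             (CovZ.leaf K2_ok TD_l2688 _)
             (CovZ.leaf K2_ok TD_l2689 _))
            (CovZ.leaf K2_ok TD_l2690 _))
           (CovZ.n1 (23328, 22080) (by decide +kernel)
            (CovZ.n2 (23280, 22128) (by decide +kernel)
             (CovZ.leaf K2_ok TD_l2691 _)
             (CovZ.n1 (23280, 22080) (by decide +kernel)
              (CovZ.leaf K2_ok TD_l2692 _)
              (CovZ.leaf K2_ok TD_l2693 _)))
            (CovZ.n1 (23376, 22128) (by decide +kernel)
             (CovZ.leaf K2_ok TD_l2694 _)
             (CovZ.leaf K2_ok TD_l2695 _))))))))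

theorem TD_u53 : CovZ TD_M (toL (selN TD_LN 2202736630793438522469866134487350618184039038680298258210867452189633265269432274099514051133472)) [0, 7, 6, 1] (21504, 24576) (21120, 24192) (21504, 23808) :=
    (CovZ.n2 (21504, 24192) (by decide +kernel)
       (CovZ.n2 (21312, 24000) (by decide +kernel)
        (CovZ.n2 (21312, 24192) (by decide +kernel)
         (CovZ.n2 (21408, 24096) (by decide +kernel)
          (CovZ.n2 (21312, 24096) (by decide +kernel)
           (CovZ.n2 (21360, 24144) (by decide +kernel)
            (CovZ.leaf K2_ok TD_l0 _)
            (CovZ.leaf K2_ok TD_l1 _))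
           (CovZ.leaf K2_ok TD_l2 _))
          (CovZ.n1 (21408, 24192) (by decide +kernel)
           (CovZ.leaf K2_ok TD_l3 _)
           (CovZ.n1 (21360, 24144) (by decide +kernel)
            (CovZ.leaf K2_ok TD_l4 _)
            (CovZ.leaf K2_ok TD_l5 _))))
         (CovZ.subM 2135987035920910082395021706169552114602704522356652859150022401944713529863552944011081519464448 (by decide +kernel)
          (CovZ.n1 (21216, 24096) (by decide +kernel)
           (CovZ.n2 (21216, 24192) (by decide +kernel)
            (CovZ.leaf K2_ok TD_l6 _)
            (CovZ.n1 (21168, 24144) (by decide +kernel)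
             (CovZ.n2 (21168, 24192) (by decide +kernel)
              (CovZ.leaf K2_ok TD_l7 _)
              (CovZ.n1 (21144, 24168) (by decide +kernel)
               (CovZ.leaf K2_ok TD_l8 _)
               (CovZ.leaf K2_ok TD_l9 _)))
             (CovZ.n1 (21216, 24144) (by decide +kernel)
              (CovZ.n2 (21192, 24120) (by decide +kernel)
               (CovZ.leaf K2_ok TD_l10 _)
               (CovZ.leaf K2_ok TD_l11 _))
              (CovZ.leaf K2_ok TD_l12 _))))
           (CovZ.n1 (21312, 24096) (by decide +kernel)
            (CovZ.n2 (21264, 24048) (by decide +kernel)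
             (CovZ.n2 (21264, 24096) (by decide +kernel)
              (CovZ.leaf K2_ok TD_l13 _)
              (CovZ.leaf K2_ok TD_l14 _))
             (CovZ.n1 (21312, 24048) (by decide +kernel)
              (CovZ.n2 (21288, 24024) (by decide +kernel)
               (CovZ.leaf K2_ok TD_l15 _)
               (CovZ.leaf K2_ok TD_l16 _))
              (CovZ.leaf K2_ok TD_l17 _)))
            (CovZ.n1 (21264, 24144) (by decide +kernel)
             (CovZ.leaf K2_ok TD_l18 _)
             (CovZ.n1 (21264, 24096) (by decide +kernel)
              (CovZ.leaf K2_ok TD_l19 _)
              (CovZ.leaf K2_ok TD_l20 _)))))))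
        (CovZ.n1 (21504, 24000) (by decide +kernel)
         (CovZ.n2 (21408, 23904) (by decide +kernel)
          (CovZ.n2 (21408, 24000) (by decide +kernel)
           (CovZ.leaf K2_ok TD_l21 _)
           (CovZ.subM 2135987035920910082395021706169552114602704522356652859150022401944713529863552944011081519464448 (by decide +kernel)
            (CovZ.n1 (21360, 23952) (by decide +kernel)
             (CovZ.n2 (21360, 24000) (by decide +kernel)
              (CovZ.leaf K2_ok TD_l22 _)
              (CovZ.n1 (21336, 23976) (by decide +kernel)
               (CovZ.leaf K2_ok TD_l23 _)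
               (CovZ.leaf K2_ok TD_l24 _)))
             (CovZ.n1 (21408, 23952) (by decide +kernel)
              (CovZ.leaf K2_ok TD_l25 _)
              (CovZ.leaf K2_ok TD_l26 _)))))
          (CovZ.n1 (21504, 23904) (by decide +kernel)
           (CovZ.n2 (21456, 23856) (by decide +kernel)
            (CovZ.n2 (21456, 23904) (by decide +kernel)
             (CovZ.leaf K2_ok TD_l27 _)
             (CovZ.leaf K2_ok TD_l28 _))
            (CovZ.n1 (21504, 23856) (by decide +kernel)
             (CovZ.n2 (21480, 23832) (by decide +kernel)
              (CovZ.leaf K2_ok TD_l29 _)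
              (CovZ.leaf K2_ok TD_l30 _))
             (CovZ.leaf K2_ok TD_l31 _)))
           (CovZ.n1 (21456, 23952) (by decide +kernel)
            (CovZ.leaf K2_ok TD_l32 _)
            (CovZ.n1 (21456, 23904) (by decide +kernel)
             (CovZ.leaf K2_ok TD_l33 _)
             (CovZ.leaf K2_ok TD_l34 _)))))
         (CovZ.n1 (21408, 24096) (by decide +kernel)
          (CovZ.n2 (21504, 24096) (by decide +kernel)
           (CovZ.n2 (21456, 24048) (by decide +kernel)
            (CovZ.leaf K2_ok TD_l35 _)
            (CovZ.leaf K2_ok TD_l36 _))
           (CovZ.leaf K2_ok TD_l37 _))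
          (CovZ.n1 (21408, 24000) (by decide +kernel)
           (CovZ.n2 (21360, 24048) (by decide +kernel)
            (CovZ.leaf K2_ok TD_l38 _)
            (CovZ.n1 (21360, 24000) (by decide +kernel)
             (CovZ.leaf K2_ok TD_l39 _)
             (CovZ.leaf K2_ok TD_l40 _)))
           (CovZ.n1 (21456, 24048) (by decide +kernel)
            (CovZ.n2 (21456, 24000) (by decide +kernel)
             (CovZ.leaf K2_ok TD_l41 _)
             (CovZ.leaf K2_ok TD_l42 _))
            (CovZ.leaf K2_ok TD_l43 _))))))
       (CovZ.n1 (21312, 24384) (by decide +kernel)
        (CovZ.n2 (21504, 24384) (by decide +kernel)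
         (CovZ.n2 (21408, 24288) (by decide +kernel)
          (CovZ.n2 (21408, 24384) (by decide +kernel)
           (CovZ.leaf K2_ok TD_l44 _)
           (CovZ.n1 (21360, 24336) (by decide +kernel)
            (CovZ.leaf K2_ok TD_l45 _)
            (CovZ.leaf K2_ok TD_l46 _)))
          (CovZ.n1 (21504, 24288) (by decide +kernel)
           (CovZ.leaf K2_ok TD_l47 _)
           (CovZ.leaf K2_ok TD_l48 _)))
         (CovZ.n1 (21408, 24480) (by decide +kernel)
          (CovZ.n2 (21504, 24480) (by decide +kernel)
           (CovZ.leaf K2_ok TD_l49 _)
           (CovZ.leaf K2_ok TD_l50 _))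
          (CovZ.n1 (21408, 24384) (by decide +kernel)
           (CovZ.leaf K2_ok TD_l51 _)
           (CovZ.leaf K2_ok TD_l52 _))))
        (CovZ.n1 (21312, 24192) (by decide +kernel)
         (CovZ.subM 2135987035920910082395021706169552114602704522356652859150022401944713529863552944011081519464448 (by decide +kernel)
          (CovZ.n2 (21216, 24288) (by decide +kernel)
           (CovZ.n2 (21312, 24288) (by decide +kernel)
            (CovZ.n2 (21264, 24240) (by decide +kernel)
             (CovZ.leaf K2_ok TD_l53 _)
             (CovZ.leaf K2_ok TD_l54 _))
            (CovZ.leaf K2_ok TD_l55 _))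
           (CovZ.n1 (21216, 24192) (by decide +kernel)
            (CovZ.n2 (21168, 24240) (by decide +kernel)
             (CovZ.leaf K2_ok TD_l56 _)
             (CovZ.n1 (21168, 24192) (by decide +kernel)
              (CovZ.leaf K2_ok TD_l57 _)
              (CovZ.leaf K2_ok TD_l58 _)))
            (CovZ.n1 (21264, 24240) (by decide +kernel)
             (CovZ.leaf K2_ok TD_l59 _)
             (CovZ.leaf K2_ok TD_l60 _)))))
         (CovZ.n1 (21408, 24288) (by decide +kernel)
          (CovZ.n2 (21408, 24192) (by decide +kernel)
           (CovZ.leaf K2_ok TD_l61 _)
           (CovZ.leaf K2_ok TD_l62 _))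
          (CovZ.leaf K2_ok TD_l63 _)))))

theorem TD_u54 : CovZ TD_M (toL (selN TD_LN 2202736630793438522469866134487350618184039038680298258210867452189633265269432274099514051133472)) [0, 7, 6, 1] (21120, 24192) (20736, 23808) (21504, 23808) :=
    (CovZ.subM 2202736630793438522469866134487350618184039038680298169007886658066822548536315266822278446317568 (by decide +kernel)
       (CovZ.n1 (21120, 23808) (by decide +kernel)
        (CovZ.subM 2135987035920910082395021706169552114602704522356652769947041607822219725780640568037360596418560 (by decide +kernel)
         (CovZ.n2 (20928, 24000) (by decide +kernel)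
          (CovZ.n2 (21120, 24000) (by decide +kernel)
           (CovZ.badM (by decide +kernel))
           (CovZ.n1 (21024, 24096) (by decide +kernel)
            (CovZ.n2 (21120, 24096) (by decide +kernel)
             (CovZ.badM (by decide +kernel))
             (CovZ.n1 (21072, 24144) (by decide +kernel)
              (CovZ.n2 (21120, 24144) (by decide +kernel)
               (CovZ.n2 (21096, 24120) (by decide +kernel)
                (CovZ.leaf K2_ok TD_l64 _)
                (CovZ.leaf K2_ok TD_l65 _))
               (CovZ.n1 (21096, 24168) (by decide +kernel)
                (CovZ.leaf K2_ok TD_l66 _)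
                (CovZ.leaf K2_ok TD_l67 _)))
              (CovZ.badM (by decide +kernel))))
            (CovZ.badM (by decide +kernel))))
          (CovZ.badM (by decide +kernel))))
        (CovZ.n1 (21312, 24000) (by decide +kernel)
         (CovZ.n2 (21312, 23808) (by decide +kernel)
          (CovZ.subM 2135987035920910082395021706169552114602704522356652769947041607822219725780640568037360596418560 (by decide +kernel)
           (CovZ.n2 (21216, 23904) (by decide +kernel)
            (CovZ.n2 (21312, 23904) (by decide +kernel)
             (CovZ.badM (by decide +kernel))
             (CovZ.n1 (21264, 23952) (by decide +kernel)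
              (CovZ.n2 (21312, 23952) (by decide +kernel)
               (CovZ.badM (by decide +kernel))
               (CovZ.n1 (21288, 23976) (by decide +kernel)
                (CovZ.leaf K2_ok TD_l68 _)
                (CovZ.badM (by decide +kernel))))
              (CovZ.badM (by decide +kernel))))
            (CovZ.badM (by decide +kernel))))
          (CovZ.n1 (21408, 23904) (by decide +kernel)
           (CovZ.n2 (21408, 23808) (by decide +kernel)
            (CovZ.subM 2135987035920910082395021706169552114602704522356652769947041607822219725780640568037360596418560 (by decide +kernel)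
             (CovZ.n2 (21360, 23856) (by decide +kernel)
              (CovZ.n2 (21408, 23856) (by decide +kernel)
               (CovZ.badM (by decide +kernel))
               (CovZ.n1 (21384, 23880) (by decide +kernel)
                (CovZ.leaf K2_ok TD_l71 _)
                (CovZ.badM (by decide +kernel))))
              (CovZ.badM (by decide +kernel))))
            (CovZ.n1 (21456, 23856) (by decide +kernel)
             (CovZ.n2 (21456, 23808) (by decide +kernel)
              (CovZ.n2 (21432, 23832) (by decide +kernel)
               (CovZ.leaf K2_ok TD_l74 _)
               (CovZ.badM (by decide +kernel)))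
              (CovZ.leaf K2_ok TD_l75 _))
             (CovZ.n1 (21408, 23856) (by decide +kernel)
              (CovZ.leaf K2_ok TD_l76 _)
              (CovZ.leaf K2_ok TD_l77 _))))
           (CovZ.subM 2135987035920910082395021706169552114602704522356652769947041607822219725780640568037360596418560 (by decide +kernel)
            (CovZ.n1 (21312, 23904) (by decide +kernel)
             (CovZ.n2 (21360, 23952) (by decide +kernel)
              (CovZ.n2 (21360, 23904) (by decide +kernel)
               (CovZ.n2 (21336, 23928) (by decide +kernel)
                (CovZ.leaf K2_ok TD_l14605 _)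
                (CovZ.badM (by decide +kernel)))
               (CovZ.leaf K2_ok TD_l78 _))
              (CovZ.n1 (21312, 23952) (by decide +kernel)
               (CovZ.n2 (21336, 23976) (by decide +kernel)
                (CovZ.leaf K2_ok TD_l79 _)
                (CovZ.leaf K2_ok TD_l80 _))
               (CovZ.leaf K2_ok TD_l14606 _)))
             (CovZ.n1 (21360, 23856) (by decide +kernel)
              (CovZ.badM (by decide +kernel))
              (CovZ.n1 (21360, 23904) (by decide +kernel)
               (CovZ.leaf K2_ok TD_l81 _)
               (CovZ.badM (by decide +kernel))))))))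
         (CovZ.subM 2135987035920910082395021706169552114602704522356652769947041607822219725780640568037360596418560 (by decide +kernel)
          (CovZ.n1 (21120, 24000) (by decide +kernel)
           (CovZ.n2 (21216, 24096) (by decide +kernel)
            (CovZ.n2 (21216, 24000) (by decide +kernel)
             (CovZ.n2 (21168, 24048) (by decide +kernel)
              (CovZ.n2 (21216, 24048) (by decide +kernel)
               (CovZ.badM (by decide +kernel))
               (CovZ.n1 (21192, 24072) (by decide +kernel)
                (CovZ.leaf K2_ok TD_l14607 _)
                (CovZ.leaf K2_ok TD_l18015 _)))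
              (CovZ.badM (by decide +kernel)))
             (CovZ.n1 (21264, 24048) (by decide +kernel)
              (CovZ.n2 (21264, 24000) (by decide +kernel)
               (CovZ.n2 (21240, 24024) (by decide +kernel)
                (CovZ.leaf K2_ok TD_l82 _)
                (CovZ.badM (by decide +kernel)))
               (CovZ.n1 (21288, 24024) (by decide +kernel)
                (CovZ.leaf K2_ok TD_l84 _)
                (CovZ.leaf K2_ok TD_l85 _)))
              (CovZ.leaf K2_ok TD_l86 _)))
            (CovZ.n1 (21120, 24096) (by decide +kernel)
             (CovZ.n2 (21168, 24144) (by decide +kernel)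
              (CovZ.n2 (21168, 24096) (by decide +kernel)
               (CovZ.n2 (21144, 24120) (by decide +kernel)
                (CovZ.leaf K2_ok TD_l87 _)
                (CovZ.leaf K2_ok TD_l18016 _))
               (CovZ.n1 (21192, 24120) (by decide +kernel)
                (CovZ.leaf K2_ok TD_l14608 _)
                (CovZ.leaf K2_ok TD_l88 _)))
              (CovZ.n1 (21120, 24144) (by decide +kernel)
               (CovZ.n2 (21144, 24168) (by decide +kernel)
                (CovZ.leaf K2_ok TD_l89 _)
                (CovZ.leaf K2_ok TD_l90 _))
               (CovZ.leaf K2_ok TD_l91 _)))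
             (CovZ.n1 (21168, 24048) (by decide +kernel)
              (CovZ.badM (by decide +kernel))
              (CovZ.n1 (21168, 24096) (by decide +kernel)
               (CovZ.leaf K2_ok TD_l14609 _)
               (CovZ.n1 (21144, 24072) (by decide +kernel)
                (CovZ.leaf K2_ok TD_l18017 _)
                (CovZ.leaf K2_ok TD_l18018 _))))))
           (CovZ.n1 (21216, 23904) (by decide +kernel)
            (CovZ.badM (by decide +kernel))
            (CovZ.n1 (21216, 24000) (by decide +kernel)
             (CovZ.n2 (21264, 23952) (by decide +kernel)
              (CovZ.badM (by decide +kernel))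
              (CovZ.n1 (21264, 24000) (by decide +kernel)
               (CovZ.leaf K2_ok TD_l92 _)
               (CovZ.badM (by decide +kernel))))
             (CovZ.badM (by decide +kernel)))))))))

theorem TD_u55 : CovZ TD_M (toL (selN TD_LN 73391957973892809501508620049235648927194447882799393309415005892784759907469999614676340235615198674681900)) [0, 7, 6, 1] (22272, 23808) (21888, 23424) (22272, 23040) :=
    (CovZ.n2 (22272, 23424) (by decide +kernel)
       (CovZ.n2 (22080, 23232) (by decide +kernel)
        (CovZ.n2 (22080, 23424) (by decide +kernel)
         (CovZ.n2 (22176, 23328) (by decide +kernel)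
          (CovZ.n2 (22080, 23328) (by decide +kernel)
           (CovZ.n2 (22128, 23376) (by decide +kernel)
            (CovZ.n2 (22128, 23328) (by decide +kernel)
             (CovZ.leaf K2_ok TD_l641 _)
             (CovZ.leaf K2_ok TD_l642 _))
            (CovZ.leaf K2_ok TD_l643 _))
           (CovZ.leaf K2_ok TD_l644 _))
          (CovZ.n1 (22176, 23424) (by decide +kernel)
           (CovZ.leaf K2_ok TD_l645 _)
           (CovZ.n1 (22128, 23376) (by decide +kernel)
            (CovZ.leaf K2_ok TD_l646 _)
            (CovZ.leaf K2_ok TD_l647 _))))
         (CovZ.subM 73391957969420585626530740722344278068799605176383486478064934714027815539295030005474192905275414442672160 (by decide +kernel)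
          (CovZ.n1 (21984, 23328) (by decide +kernel)
           (CovZ.n2 (21984, 23424) (by decide +kernel)
            (CovZ.leaf K2_ok TD_l648 _)
            (CovZ.n1 (21936, 23376) (by decide +kernel)
             (CovZ.n2 (21936, 23424) (by decide +kernel)
              (CovZ.leaf K2_ok TD_l649 _)
              (CovZ.n1 (21912, 23400) (by decide +kernel)
               (CovZ.leaf K2_ok TD_l650 _)
               (CovZ.leaf K2_ok TD_l651 _)))
             (CovZ.n1 (21984, 23376) (by decide +kernel)
              (CovZ.n2 (21960, 23352) (by decide +kernel)
               (CovZ.leaf K2_ok TD_l652 _)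
               (CovZ.leaf K2_ok TD_l653 _))
              (CovZ.leaf K2_ok TD_l654 _))))
           (CovZ.n1 (22080, 23328) (by decide +kernel)
            (CovZ.n2 (22032, 23280) (by decide +kernel)
             (CovZ.n2 (22032, 23328) (by decide +kernel)
              (CovZ.leaf K2_ok TD_l655 _)
              (CovZ.n1 (22008, 23304) (by decide +kernel)
               (CovZ.leaf K2_ok TD_l656 _)
               (CovZ.leaf K2_ok TD_l657 _)))
             (CovZ.n1 (22080, 23280) (by decide +kernel)
              (CovZ.n2 (22056, 23256) (by decide +kernel)
               (CovZ.leaf K2_ok TD_l658 _)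
               (CovZ.leaf K2_ok TD_l659 _))
              (CovZ.leaf K2_ok TD_l660 _)))
            (CovZ.n1 (22032, 23376) (by decide +kernel)
             (CovZ.leaf K2_ok TD_l661 _)
             (CovZ.n1 (22032, 23328) (by decide +kernel)
              (CovZ.leaf K2_ok TD_l662 _)
              (CovZ.leaf K2_ok TD_l663 _)))))))
        (CovZ.n1 (22272, 23232) (by decide +kernel)
         (CovZ.n2 (22176, 23136) (by decide +kernel)
          (CovZ.n2 (22176, 23232) (by decide +kernel)
           (CovZ.leaf K2_ok TD_l664 _)
           (CovZ.subM 2255735809408808618877842856824963806922666998069308755984430211015731032703057134370014882265301024 (by decide +kernel)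
            (CovZ.n1 (22128, 23184) (by decide +kernel)
             (CovZ.n2 (22128, 23232) (by decide +kernel)
              (CovZ.leaf K2_ok TD_l665 _)
              (CovZ.n1 (22104, 23208) (by decide +kernel)
               (CovZ.leaf K2_ok TD_l666 _)
               (CovZ.leaf K2_ok TD_l667 _)))
             (CovZ.n1 (22176, 23184) (by decide +kernel)
              (CovZ.n2 (22152, 23160) (by decide +kernel)
               (CovZ.leaf K2_ok TD_l668 _)
               (CovZ.leaf K2_ok TD_l669 _))
              (CovZ.leaf K2_ok TD_l670 _)))))
          (CovZ.n1 (22272, 23136) (by decide +kernel)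
           (CovZ.n2 (22224, 23088) (by decide +kernel)
            (CovZ.n2 (22224, 23136) (by decide +kernel)
             (CovZ.leaf K2_ok TD_l671 _)
             (CovZ.n1 (22200, 23112) (by decide +kernel)
              (CovZ.leaf K2_ok TD_l672 _)
              (CovZ.leaf K2_ok TD_l673 _)))
            (CovZ.n1 (22272, 23088) (by decide +kernel)
             (CovZ.n2 (22248, 23064) (by decide +kernel)
              (CovZ.leaf K2_ok TD_l674 _)
              (CovZ.leaf K2_ok TD_l675 _))
             (CovZ.leaf K2_ok TD_l676 _)))
           (CovZ.n1 (22224, 23184) (by decide +kernel)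
            (CovZ.leaf K2_ok TD_l677 _)
            (CovZ.n1 (22224, 23136) (by decide +kernel)
             (CovZ.leaf K2_ok TD_l678 _)
             (CovZ.leaf K2_ok TD_l679 _)))))
         (CovZ.n1 (22176, 23328) (by decide +kernel)
          (CovZ.n2 (22272, 23328) (by decide +kernel)
           (CovZ.n2 (22224, 23280) (by decide +kernel)
            (CovZ.leaf K2_ok TD_l680 _)
            (CovZ.leaf K2_ok TD_l681 _))
           (CovZ.leaf K2_ok TD_l682 _))
          (CovZ.n1 (22176, 23232) (by decide +kernel)
           (CovZ.n2 (22128, 23280) (by decide +kernel)
            (CovZ.leaf K2_ok TD_l683 _)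
            (CovZ.n1 (22128, 23232) (by decide +kernel)
             (CovZ.leaf K2_ok TD_l684 _)
             (CovZ.leaf K2_ok TD_l685 _)))
           (CovZ.n1 (22224, 23280) (by decide +kernel)
            (CovZ.leaf K2_ok TD_l686 _)
            (CovZ.leaf K2_ok TD_l687 _))))))
       (CovZ.n1 (22080, 23616) (by decide +kernel)
        (CovZ.n2 (22272, 23616) (by decide +kernel)
         (CovZ.n2 (22176, 23520) (by decide +kernel)
          (CovZ.n2 (22176, 23616) (by decide +kernel)
           (CovZ.leaf K2_ok TD_l688 _)
           (CovZ.n1 (22128, 23568) (by decide +kernel)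
            (CovZ.leaf K2_ok TD_l689 _)
            (CovZ.leaf K2_ok TD_l690 _)))
          (CovZ.n1 (22272, 23520) (by decide +kernel)
           (CovZ.n2 (22224, 23472) (by decide +kernel)
            (CovZ.leaf K2_ok TD_l691 _)
            (CovZ.leaf K2_ok TD_l692 _))
           (CovZ.leaf K2_ok TD_l693 _)))
         (CovZ.n1 (22176, 23712) (by decide +kernel)
          (CovZ.n2 (22272, 23712) (by decide +kernel)
           (CovZ.n2 (22224, 23664) (by decide +kernel)
            (CovZ.leaf K2_ok TD_l694 _)
            (CovZ.leaf K2_ok TD_l695 _))
           (CovZ.leaf K2_ok TD_l696 _))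
          (CovZ.n1 (22176, 23616) (by decide +kernel)
           (CovZ.leaf K2_ok TD_l697 _)
           (CovZ.n1 (22224, 23664) (by decide +kernel)
            (CovZ.leaf K2_ok TD_l698 _)
            (CovZ.leaf K2_ok TD_l699 _)))))
        (CovZ.n1 (22080, 23424) (by decide +kernel)
         (CovZ.subM 73391957969420585626530740722344278068799605176383486478064934714027815539295030005474192905275414442672128 (by decide +kernel)
          (CovZ.n2 (21984, 23520) (by decide +kernel)
           (CovZ.n2 (22080, 23520) (by decide +kernel)
            (CovZ.n2 (22032, 23472) (by decide +kernel)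
             (CovZ.leaf K2_ok TD_l700 _)
             (CovZ.leaf K2_ok TD_l701 _))
            (CovZ.leaf K2_ok TD_l702 _))
           (CovZ.n1 (21984, 23424) (by decide +kernel)
            (CovZ.n2 (21936, 23472) (by decide +kernel)
             (CovZ.leaf K2_ok TD_l703 _)
             (CovZ.n1 (21936, 23424) (by decide +kernel)
              (CovZ.leaf K2_ok TD_l704 _)
              (CovZ.leaf K2_ok TD_l705 _)))
            (CovZ.n1 (22032, 23472) (by decide +kernel)
             (CovZ.leaf K2_ok TD_l706 _)
             (CovZ.leaf K2_ok TD_l707 _)))))
         (CovZ.n1 (22176, 23520) (by decide +kernel)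
          (CovZ.n2 (22176, 23424) (by decide +kernel)
           (CovZ.leaf K2_ok TD_l708 _)
           (CovZ.n1 (22224, 23472) (by decide +kernel)
            (CovZ.leaf K2_ok TD_l709 _)
            (CovZ.leaf K2_ok TD_l710 _)))
          (CovZ.n1 (22080, 23520) (by decide +kernel)
           (CovZ.n2 (22128, 23568) (by decide +kernel)
            (CovZ.leaf K2_ok TD_l711 _)
            (CovZ.leaf K2_ok TD_l712 _))
           (CovZ.leaf K2_ok TD_l713 _))))))

theorem TD_u56 : CovZ TD_M (toL (selN TD_LN 73391957973892809501508620049235648927194447882799393309415005892784759907469999614676340235615198674681900)) [0, 7, 6, 1] (21888, 23424) (21504, 23040) (22272, 23040) :=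
    (CovZ.n1 (21888, 23040) (by decide +kernel)
       (CovZ.subM 73391955711682288371546268649666782105543999546719297239192176979758552090303975708694220952826623400345632 (by decide +kernel)
        (CovZ.n2 (21696, 23232) (by decide +kernel)
         (CovZ.n2 (21888, 23232) (by decide +kernel)
          (CovZ.badM (by decide +kernel))
          (CovZ.n1 (21792, 23328) (by decide +kernel)
           (CovZ.n2 (21888, 23328) (by decide +kernel)
            (CovZ.badM (by decide +kernel))
            (CovZ.n1 (21840, 23376) (by decide +kernel)
             (CovZ.n2 (21888, 23376) (by decide +kernel)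
              (CovZ.n2 (21864, 23352) (by decide +kernel)
               (CovZ.leaf K2_ok TD_l14719 _)
               (CovZ.leaf K2_ok TD_l14720 _))
              (CovZ.n1 (21864, 23400) (by decide +kernel)
               (CovZ.leaf K2_ok TD_l714 _)
               (CovZ.badM (by decide +kernel))))
             (CovZ.badM (by decide +kernel))))
           (CovZ.badM (by decide +kernel))))
         (CovZ.badM (by decide +kernel))))
       (CovZ.n1 (22080, 23232) (by decide +kernel)
        (CovZ.n2 (22080, 23040) (by decide +kernel)
         (CovZ.subM 2255602310219063561990282474257139973408395785996105439083699241896641217192837097209034791482032160 (by decide +kernel)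
          (CovZ.n2 (21984, 23136) (by decide +kernel)
           (CovZ.n2 (22080, 23136) (by decide +kernel)
            (CovZ.badM (by decide +kernel))
            (CovZ.n1 (22032, 23184) (by decide +kernel)
             (CovZ.n2 (22080, 23184) (by decide +kernel)
              (CovZ.n2 (22056, 23160) (by decide +kernel)
               (CovZ.leaf K2_ok TD_l715 _)
               (CovZ.leaf K2_ok TD_l716 _))
              (CovZ.n1 (22056, 23208) (by decide +kernel)
               (CovZ.leaf K2_ok TD_l717 _)
               (CovZ.leaf K2_ok TD_l718 _)))
             (CovZ.badM (by decide +kernel))))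
           (CovZ.badM (by decide +kernel))))
         (CovZ.subM 2255735810427326607045085899959186651127356078595043135505103002696666032840399126123887051138924584 (by decide +kernel)
          (CovZ.n1 (22176, 23136) (by decide +kernel)
           (CovZ.n2 (22176, 23040) (by decide +kernel)
            (CovZ.n2 (22128, 23088) (by decide +kernel)
             (CovZ.n2 (22176, 23088) (by decide +kernel)
              (CovZ.n2 (22152, 23064) (by decide +kernel)
               (CovZ.leaf K2_ok TD_l719 _)
               (CovZ.leaf K2_ok TD_l720 _))
              (CovZ.n1 (22152, 23112) (by decide +kernel)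
               (CovZ.leaf K2_ok TD_l721 _)
               (CovZ.leaf K2_ok TD_l722 _)))
             (CovZ.badM (by decide +kernel)))
            (CovZ.n1 (22224, 23088) (by decide +kernel)
             (CovZ.n2 (22224, 23040) (by decide +kernel)
              (CovZ.n2 (22200, 23064) (by decide +kernel)
               (CovZ.leaf K2_ok TD_l724 _)
               (CovZ.leaf K2_ok TD_l725 _))
              (CovZ.n1 (22248, 23064) (by decide +kernel)
               (CovZ.leaf K2_ok TD_l726 _)
               (CovZ.leaf K2_ok TD_l727 _)))
             (CovZ.leaf K2_ok TD_l728 _)))
           (CovZ.n1 (22080, 23136) (by decide +kernel)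
            (CovZ.n2 (22128, 23184) (by decide +kernel)
             (CovZ.n2 (22128, 23136) (by decide +kernel)
              (CovZ.n2 (22104, 23160) (by decide +kernel)
               (CovZ.leaf K2_ok TD_l729 _)
               (CovZ.leaf K2_ok TD_l730 _))
              (CovZ.n1 (22152, 23160) (by decide +kernel)
               (CovZ.leaf K2_ok TD_l731 _)
               (CovZ.leaf K2_ok TD_l732 _)))
             (CovZ.n1 (22080, 23184) (by decide +kernel)
              (CovZ.n2 (22104, 23208) (by decide +kernel)
               (CovZ.leaf K2_ok TD_l733 _)
               (CovZ.leaf K2_ok TD_l734 _))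
              (CovZ.leaf K2_ok TD_l735 _)))
            (CovZ.n1 (22128, 23088) (by decide +kernel)
             (CovZ.badM (by decide +kernel))
             (CovZ.n1 (22128, 23136) (by decide +kernel)
              (CovZ.leaf K2_ok TD_l736 _)
              (CovZ.n1 (22104, 23112) (by decide +kernel)
               (CovZ.leaf K2_ok TD_l14721 _)
               (CovZ.leaf K2_ok TD_l14722 _))))))))
        (CovZ.subM 73391957967284598590609830639949256362630053061780781955708281944080773931472731051077690908558813451780128 (by decide +kernel)
         (CovZ.n1 (21888, 23232) (by decide +kernel)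
          (CovZ.n2 (21984, 23328) (by decide +kernel)
           (CovZ.n2 (21984, 23232) (by decide +kernel)
            (CovZ.n2 (21936, 23280) (by decide +kernel)
             (CovZ.n2 (21984, 23280) (by decide +kernel)
              (CovZ.n2 (21960, 23256) (by decide +kernel)
               (CovZ.leaf K2_ok TD_l14723 _)
               (CovZ.leaf K2_ok TD_l14724 _))
              (CovZ.n1 (21960, 23304) (by decide +kernel)
               (CovZ.leaf K2_ok TD_l737 _)
               (CovZ.leaf K2_ok TD_l14725 _)))
             (CovZ.badM (by decide +kernel)))
            (CovZ.n1 (22032, 23280) (by decide +kernel)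
             (CovZ.n2 (22032, 23232) (by decide +kernel)
              (CovZ.n2 (22008, 23256) (by decide +kernel)
               (CovZ.leaf K2_ok TD_l738 _)
               (CovZ.leaf K2_ok TD_l739 _))
              (CovZ.leaf K2_ok TD_l740 _))
             (CovZ.n1 (21984, 23280) (by decide +kernel)
              (CovZ.n2 (22008, 23304) (by decide +kernel)
               (CovZ.leaf K2_ok TD_l741 _)
               (CovZ.leaf K2_ok TD_l742 _))
              (CovZ.leaf K2_ok TD_l743 _))))
           (CovZ.n1 (21888, 23328) (by decide +kernel)
            (CovZ.n2 (21936, 23376) (by decide +kernel)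
             (CovZ.n2 (21936, 23328) (by decide +kernel)
              (CovZ.n2 (21912, 23352) (by decide +kernel)
               (CovZ.leaf K2_ok TD_l744 _)
               (CovZ.leaf K2_ok TD_l14726 _))
              (CovZ.leaf K2_ok TD_l745 _))
             (CovZ.n1 (21888, 23376) (by decide +kernel)
              (CovZ.n2 (21912, 23400) (by decide +kernel)
               (CovZ.leaf K2_ok TD_l746 _)
               (CovZ.leaf K2_ok TD_l747 _))
              (CovZ.leaf K2_ok TD_l748 _)))
            (CovZ.n1 (21936, 23280) (by decide +kernel)
             (CovZ.badM (by decide +kernel))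
             (CovZ.n1 (21936, 23328) (by decide +kernel)
              (CovZ.leaf K2_ok TD_l749 _)
              (CovZ.n1 (21912, 23304) (by decide +kernel)
               (CovZ.leaf K2_ok TD_l14727 _)
               (CovZ.leaf K2_ok TD_l14728 _))))))
          (CovZ.n1 (21984, 23136) (by decide +kernel)
           (CovZ.badM (by decide +kernel))
           (CovZ.n1 (21984, 23232) (by decide +kernel)
            (CovZ.n2 (22032, 23184) (by decide +kernel)
             (CovZ.badM (by decide +kernel))
             (CovZ.n1 (22032, 23232) (by decide +kernel)
              (CovZ.leaf K2_ok TD_l750 _)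
              (CovZ.n1 (22008, 23208) (by decide +kernel)
               (CovZ.leaf K2_ok TD_l751 _)
               (CovZ.leaf K2_ok TD_l752 _))))
            (CovZ.badM (by decide +kernel))))))))

theorem TD_u57 : CovZ TD_M (toL (selN TD_LN 73391957973892809501508620049235648927194447882799393309415005892784759907469999614676340235615198674681900)) [0, 7, 6, 1] (23040, 24576) (22272, 23808) (23040, 23040) :=
    (CovZ.n2 (23040, 23808) (by decide +kernel)
     (CovZ.n2 (22656, 23424) (by decide +kernel)
      (CovZ.n2 (22656, 23808) (by decide +kernel)
       (CovZ.n2 (22848, 23616) (by decide +kernel)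
        (CovZ.subM 6474711721153246854502952681103218945412829888720241779474136121915022320271664065726947556065320 (by decide +kernel)
         (CovZ.n2 (22656, 23616) (by decide +kernel)
          (CovZ.n2 (22752, 23712) (by decide +kernel)
           (CovZ.n2 (22752, 23616) (by decide +kernel)
            (CovZ.leaf K2_ok TD_l529 _)
            (CovZ.leaf K2_ok TD_l530 _))
           (CovZ.leaf K2_ok TD_l531 _))
          (CovZ.n1 (22752, 23520) (by decide +kernel)
           (CovZ.leaf K2_ok TD_l532 _)
           (CovZ.n1 (22752, 23616) (by decide +kernel)
            (CovZ.leaf K2_ok TD_l533 _)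
            (CovZ.n1 (22704, 23568) (by decide +kernel)
             (CovZ.leaf K2_ok TD_l534 _)
             (CovZ.leaf K2_ok TD_l535 _))))))
        (CovZ.n1 (22848, 23808) (by decide +kernel)
         (CovZ.leaf K2_ok TD_l536 _)
         (CovZ.subM 6474711721153246854502952681103218945412829888720241779474136121915022320271664065726947556065288 (by decide +kernel)
          (CovZ.n1 (22752, 23712) (by decide +kernel)
           (CovZ.n2 (22752, 23808) (by decide +kernel)
            (CovZ.leaf K2_ok TD_l537 _)
            (CovZ.leaf K2_ok TD_l538 _))
           (CovZ.n1 (22848, 23712) (by decide +kernel)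
            (CovZ.leaf K2_ok TD_l539 _)
            (CovZ.leaf K2_ok TD_l540 _))))))
       (CovZ.n1 (22464, 23616) (by decide +kernel)
        (CovZ.n2 (22464, 23808) (by decide +kernel)
         (CovZ.n2 (22560, 23712) (by decide +kernel)
          (CovZ.leaf K2_ok TD_l541 _)
          (CovZ.n1 (22560, 23808) (by decide +kernel)
           (CovZ.leaf K2_ok TD_l542 _)
           (CovZ.n1 (22512, 23760) (by decide +kernel)
            (CovZ.leaf K2_ok TD_l543 _)
            (CovZ.leaf K2_ok TD_l544 _))))
         (CovZ.n1 (22368, 23712) (by decide +kernel)
          (CovZ.n2 (22368, 23808) (by decide +kernel)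
           (CovZ.leaf K2_ok TD_l545 _)
           (CovZ.n1 (22320, 23760) (by decide +kernel)
            (CovZ.leaf K2_ok TD_l546 _)
            (CovZ.leaf K2_ok TD_l547 _)))
          (CovZ.n1 (22464, 23712) (by decide +kernel)
           (CovZ.n2 (22416, 23664) (by decide +kernel)
            (CovZ.leaf K2_ok TD_l548 _)
            (CovZ.leaf K2_ok TD_l549 _))
           (CovZ.leaf K2_ok TD_l550 _))))
        (CovZ.n1 (22656, 23616) (by decide +kernel)
         (CovZ.n2 (22560, 23520) (by decide +kernel)
          (CovZ.n2 (22560, 23616) (by decide +kernel)
           (CovZ.leaf K2_ok TD_l551 _)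
           (CovZ.n1 (22512, 23568) (by decide +kernel)
            (CovZ.leaf K2_ok TD_l552 _)
            (CovZ.leaf K2_ok TD_l553 _)))
          (CovZ.n1 (22656, 23520) (by decide +kernel)
           (CovZ.n2 (22608, 23472) (by decide +kernel)
            (CovZ.leaf K2_ok TD_l554 _)
            (CovZ.leaf K2_ok TD_l555 _))
           (CovZ.leaf K2_ok TD_l556 _)))
         (CovZ.n1 (22560, 23712) (by decide +kernel)
          (CovZ.n2 (22656, 23712) (by decide +kernel)
           (CovZ.n2 (22608, 23664) (by decide +kernel)
            (CovZ.leaf K2_ok TD_l557 _)
            (CovZ.leaf K2_ok TD_l558 _))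
           (CovZ.leaf K2_ok TD_l559 _))
          (CovZ.n1 (22560, 23616) (by decide +kernel)
           (CovZ.leaf K2_ok TD_l560 _)
           (CovZ.n1 (22608, 23664) (by decide +kernel)
            (CovZ.leaf K2_ok TD_l561 _)
            (CovZ.leaf K2_ok TD_l562 _)))))))
      (CovZ.n1 (23040, 23424) (by decide +kernel)
       (CovZ.n2 (22848, 23232) (by decide +kernel)
        (CovZ.n2 (22848, 23424) (by decide +kernel)
         (CovZ.leaf K2_ok TD_l563 _)
         (CovZ.subM 6407962126280718414428108252785420441831495372396596380413291071670577953841019048538729990848552 (by decide +kernel)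
          (CovZ.n1 (22752, 23328) (by decide +kernel)
           (CovZ.n2 (22752, 23424) (by decide +kernel)
            (CovZ.leaf K2_ok TD_l564 _)
            (CovZ.n1 (22704, 23376) (by decide +kernel)
             (CovZ.leaf K2_ok TD_l565 _)
             (CovZ.leaf K2_ok TD_l566 _)))
           (CovZ.n1 (22848, 23328) (by decide +kernel)
            (CovZ.n2 (22800, 23280) (by decide +kernel)
             (CovZ.leaf K2_ok TD_l567 _)
             (CovZ.leaf K2_ok TD_l568 _))
            (CovZ.leaf K2_ok TD_l569 _)))))
        (CovZ.subM 4271975090360293999256143862307130581897661521415183313912145697282347419935037726587015565148204 (by decide +kernel)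
         (CovZ.n1 (23040, 23232) (by decide +kernel)
          (CovZ.n2 (22944, 23136) (by decide +kernel)
           (CovZ.n2 (22944, 23232) (by decide +kernel)
            (CovZ.leaf K2_ok TD_l570 _)
            (CovZ.leaf K2_ok TD_l571 _))
           (CovZ.n1 (23040, 23136) (by decide +kernel)
            (CovZ.leaf K2_ok TD_l572 _)
            (CovZ.leaf K2_ok TD_l573 _)))
          (CovZ.n1 (22944, 23328) (by decide +kernel)
           (CovZ.n2 (23040, 23328) (by decide +kernel)
            (CovZ.leaf K2_ok TD_l574 _)
            (CovZ.leaf K2_ok TD_l575 _))
           (CovZ.n1 (22944, 23232) (by decide +kernel)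
            (CovZ.leaf K2_ok TD_l576 _)
            (CovZ.leaf K2_ok TD_l577 _))))))
       (CovZ.n1 (22848, 23616) (by decide +kernel)
        (CovZ.subM 4338724685232822439330988290624929085478996037738828712972990747526791786365682743775233130364972 (by decide +kernel)
         (CovZ.n2 (23040, 23616) (by decide +kernel)
          (CovZ.n2 (22944, 23520) (by decide +kernel)
           (CovZ.leaf K2_ok TD_l578 _)
           (CovZ.n1 (23040, 23520) (by decide +kernel)
            (CovZ.leaf K2_ok TD_l579 _)
            (CovZ.leaf K2_ok TD_l580 _)))
          (CovZ.n1 (22944, 23712) (by decide +kernel)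
           (CovZ.leaf K2_ok TD_l581 _)
           (CovZ.n1 (22944, 23616) (by decide +kernel)
            (CovZ.leaf K2_ok TD_l582 _)
            (CovZ.leaf K2_ok TD_l583 _)))))
        (CovZ.n1 (22848, 23424) (by decide +kernel)
         (CovZ.subM 6407962126280718414428108252785420441831495372396596380413291071670577953841019048538729990848552 (by decide +kernel)
          (CovZ.n2 (22752, 23520) (by decide +kernel)
           (CovZ.n2 (22848, 23520) (by decide +kernel)
            (CovZ.leaf K2_ok TD_l584 _)
            (CovZ.leaf K2_ok TD_l585 _))
           (CovZ.n1 (22752, 23424) (by decide +kernel)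
            (CovZ.leaf K2_ok TD_l586 _)
            (CovZ.leaf K2_ok TD_l587 _))))
         (CovZ.n1 (22944, 23520) (by decide +kernel)
          (CovZ.n2 (22944, 23424) (by decide +kernel)
           (CovZ.leaf K2_ok TD_l588 _)
           (CovZ.leaf K2_ok TD_l589 _))
          (CovZ.leaf K2_ok TD_l590 _))))))
     (CovZ.n1 (22656, 24192) (by decide +kernel)
      (CovZ.n2 (23040, 24192) (by decide +kernel)
       (CovZ.n2 (22848, 24000) (by decide +kernel)
        (CovZ.n2 (22848, 24192) (by decide +kernel)
         (CovZ.leaf K2_ok TD_l591 _)
         (CovZ.n1 (22752, 24096) (by decide +kernel)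
          (CovZ.leaf K2_ok TD_l592 _)
          (CovZ.n1 (22848, 24096) (by decide +kernel)
           (CovZ.leaf K2_ok TD_l593 _)
           (CovZ.leaf K2_ok TD_l594 _))))
        (CovZ.subM 4338724685232822439330988290624929085478996037738828712972990747526791786365682743775233130364940 (by decide +kernel)
         (CovZ.n1 (23040, 24000) (by decide +kernel)
          (CovZ.n2 (22944, 23904) (by decide +kernel)
           (CovZ.leaf K2_ok TD_l595 _)
           (CovZ.leaf K2_ok TD_l596 _))
          (CovZ.n1 (22944, 24096) (by decide +kernel)
           (CovZ.leaf K2_ok TD_l597 _)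
           (CovZ.leaf K2_ok TD_l598 _)))))
       (CovZ.n1 (22848, 24384) (by decide +kernel)
        (CovZ.subM 4338724685232336772107931858357199220002290158012168111263227712646478833263246864782427221393420 (by decide +kernel)
         (CovZ.n2 (23040, 24384) (by decide +kernel)
          (CovZ.n2 (22944, 24288) (by decide +kernel)
           (CovZ.leaf K2_ok TD_l599 _)
           (CovZ.leaf K2_ok TD_l600 _))
          (CovZ.n1 (22944, 24480) (by decide +kernel)
           (CovZ.leaf K2_ok TD_l601 _)
           (CovZ.leaf K2_ok TD_l602 _))))
        (CovZ.n1 (22848, 24192) (by decide +kernel)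
         (CovZ.n2 (22752, 24288) (by decide +kernel)
          (CovZ.leaf K2_ok TD_l603 _)
          (CovZ.n1 (22752, 24192) (by decide +kernel)
           (CovZ.leaf K2_ok TD_l604 _)
           (CovZ.leaf K2_ok TD_l605 _)))
         (CovZ.n1 (22944, 24288) (by decide +kernel)
          (CovZ.leaf K2_ok TD_l606 _)
          (CovZ.leaf K2_ok TD_l607 _)))))
      (CovZ.n1 (22656, 23808) (by decide +kernel)
       (CovZ.n2 (22464, 24000) (by decide +kernel)
        (CovZ.n2 (22656, 24000) (by decide +kernel)
         (CovZ.n2 (22560, 23904) (by decide +kernel)
          (CovZ.n2 (22560, 24000) (by decide +kernel)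
           (CovZ.leaf K2_ok TD_l608 _)
           (CovZ.n1 (22512, 23952) (by decide +kernel)
            (CovZ.leaf K2_ok TD_l609 _)
            (CovZ.leaf K2_ok TD_l610 _)))
          (CovZ.n1 (22656, 23904) (by decide +kernel)
           (CovZ.n2 (22608, 23856) (by decide +kernel)
            (CovZ.leaf K2_ok TD_l611 _)
            (CovZ.leaf K2_ok TD_l612 _))
           (CovZ.leaf K2_ok TD_l613 _)))
         (CovZ.n1 (22560, 24096) (by decide +kernel)
          (CovZ.n2 (22656, 24096) (by decide +kernel)
           (CovZ.leaf K2_ok TD_l614 _)
           (CovZ.leaf K2_ok TD_l615 _))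
          (CovZ.n1 (22560, 24000) (by decide +kernel)
           (CovZ.leaf K2_ok TD_l616 _)
           (CovZ.leaf K2_ok TD_l617 _))))
        (CovZ.n1 (22464, 23808) (by decide +kernel)
         (CovZ.n2 (22368, 23904) (by decide +kernel)
          (CovZ.n2 (22464, 23904) (by decide +kernel)
           (CovZ.n2 (22416, 23856) (by decide +kernel)
            (CovZ.leaf K2_ok TD_l618 _)
            (CovZ.leaf K2_ok TD_l619 _))
           (CovZ.leaf K2_ok TD_l620 _))
          (CovZ.n1 (22368, 23808) (by decide +kernel)
           (CovZ.leaf K2_ok TD_l621 _)
           (CovZ.n1 (22416, 23856) (by decide +kernel)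
            (CovZ.leaf K2_ok TD_l622 _)
            (CovZ.leaf K2_ok TD_l623 _))))
         (CovZ.n1 (22560, 23904) (by decide +kernel)
          (CovZ.n2 (22560, 23808) (by decide +kernel)
           (CovZ.leaf K2_ok TD_l624 _)
           (CovZ.n1 (22608, 23856) (by decide +kernel)
            (CovZ.leaf K2_ok TD_l625 _)
            (CovZ.leaf K2_ok TD_l626 _)))
          (CovZ.leaf K2_ok TD_l627 _))))
       (CovZ.n1 (22848, 24000) (by decide +kernel)
        (CovZ.n2 (22848, 23808) (by decide +kernel)
         (CovZ.subM 6474711721153246854502952681103218945412829888720241779474136121915022320271664065726947556065288 (by decide +kernel)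
          (CovZ.n2 (22752, 23904) (by decide +kernel)
           (CovZ.n2 (22848, 23904) (by decide +kernel)
            (CovZ.leaf K2_ok TD_l628 _)
            (CovZ.leaf K2_ok TD_l629 _))
           (CovZ.n1 (22752, 23808) (by decide +kernel)
            (CovZ.leaf K2_ok TD_l630 _)
            (CovZ.leaf K2_ok TD_l631 _))))
         (CovZ.n1 (22944, 23904) (by decide +kernel)
          (CovZ.n2 (22944, 23808) (by decide +kernel)
           (CovZ.leaf K2_ok TD_l632 _)
           (CovZ.leaf K2_ok TD_l633 _))
          (CovZ.leaf K2_ok TD_l634 _)))
        (CovZ.subM 6474711721153246854502952681103218945412829888720241779474136121915022320271664065726947556065288 (by decide +kernel)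
         (CovZ.n1 (22656, 24000) (by decide +kernel)
          (CovZ.n2 (22752, 24096) (by decide +kernel)
           (CovZ.n2 (22752, 24000) (by decide +kernel)
            (CovZ.leaf K2_ok TD_l635 _)
            (CovZ.leaf K2_ok TD_l636 _))
           (CovZ.leaf K2_ok TD_l637 _))
          (CovZ.n1 (22752, 23904) (by decide +kernel)
           (CovZ.leaf K2_ok TD_l638 _)
           (CovZ.n1 (22752, 24000) (by decide +kernel)
            (CovZ.leaf K2_ok TD_l639 _)
            (CovZ.leaf K2_ok TD_l640 _)))))))))

theorem TD_u58 : CovZ TD_M (toL (selN TD_LN 73391957973892809501508620049235648927194447882799393309415005892784759907469999614676340235615198674681900)) [0, 7, 6, 1] (22272, 23808) (21504, 23040) (23040, 23040) :=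
    (CovZ.n1 (22272, 23040) (by decide +kernel)
     (CovZ.n2 (21888, 23424) (by decide +kernel)
      TD_u55
      TD_u56)
     (CovZ.n1 (22656, 23424) (by decide +kernel)
      (CovZ.n2 (22656, 23040) (by decide +kernel)
       (CovZ.n2 (22464, 23232) (by decide +kernel)
        (CovZ.n2 (22656, 23232) (by decide +kernel)
         (CovZ.n2 (22560, 23136) (by decide +kernel)
          (CovZ.n2 (22560, 23232) (by decide +kernel)
           (CovZ.leaf K2_ok TD_l753 _)
           (CovZ.n1 (22512, 23184) (by decide +kernel)
            (CovZ.leaf K2_ok TD_l754 _)
            (CovZ.leaf K2_ok TD_l755 _)))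
          (CovZ.n1 (22656, 23136) (by decide +kernel)
           (CovZ.n2 (22608, 23088) (by decide +kernel)
            (CovZ.leaf K2_ok TD_l756 _)
            (CovZ.leaf K2_ok TD_l757 _))
           (CovZ.leaf K2_ok TD_l758 _)))
         (CovZ.n1 (22560, 23328) (by decide +kernel)
          (CovZ.n2 (22656, 23328) (by decide +kernel)
           (CovZ.n2 (22608, 23280) (by decide +kernel)
            (CovZ.leaf K2_ok TD_l759 _)
            (CovZ.leaf K2_ok TD_l760 _))
           (CovZ.leaf K2_ok TD_l761 _))
          (CovZ.n1 (22560, 23232) (by decide +kernel)
           (CovZ.leaf K2_ok TD_l762 _)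
           (CovZ.n1 (22608, 23280) (by decide +kernel)
            (CovZ.leaf K2_ok TD_l763 _)
            (CovZ.leaf K2_ok TD_l764 _)))))
        (CovZ.n1 (22464, 23040) (by decide +kernel)
         (CovZ.n2 (22368, 23136) (by decide +kernel)
          (CovZ.n2 (22464, 23136) (by decide +kernel)
           (CovZ.n2 (22416, 23088) (by decide +kernel)
            (CovZ.leaf K2_ok TD_l765 _)
            (CovZ.leaf K2_ok TD_l766 _))
           (CovZ.leaf K2_ok TD_l767 _))
          (CovZ.n1 (22368, 23040) (by decide +kernel)
           (CovZ.n2 (22320, 23088) (by decide +kernel)
            (CovZ.leaf K2_ok TD_l768 _)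
            (CovZ.n1 (22320, 23040) (by decide +kernel)
             (CovZ.leaf K2_ok TD_l769 _)
             (CovZ.leaf K2_ok TD_l770 _)))
           (CovZ.n1 (22416, 23088) (by decide +kernel)
            (CovZ.leaf K2_ok TD_l771 _)
            (CovZ.leaf K2_ok TD_l772 _))))
         (CovZ.n1 (22560, 23136) (by decide +kernel)
          (CovZ.n2 (22560, 23040) (by decide +kernel)
           (CovZ.leaf K2_ok TD_l773 _)
           (CovZ.n1 (22608, 23088) (by decide +kernel)
            (CovZ.leaf K2_ok TD_l774 _)
            (CovZ.leaf K2_ok TD_l775 _)))
          (CovZ.n1 (22464, 23136) (by decide +kernel)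
           (CovZ.n2 (22512, 23184) (by decide +kernel)
            (CovZ.leaf K2_ok TD_l776 _)
            (CovZ.leaf K2_ok TD_l777 _))
           (CovZ.leaf K2_ok TD_l778 _)))))
       (CovZ.n1 (22848, 23232) (by decide +kernel)
        (CovZ.n2 (22848, 23040) (by decide +kernel)
         (CovZ.subM 6407962126280718414428108252785420441831495372396596380413291071670577953840871474586140314435624 (by decide +kernel)
          (CovZ.n2 (22752, 23136) (by decide +kernel)
           (CovZ.n2 (22848, 23136) (by decide +kernel)
            (CovZ.n2 (22800, 23088) (by decide +kernel)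
             (CovZ.leaf K2_ok TD_l779 _)
             (CovZ.leaf K2_ok TD_l780 _))
            (CovZ.leaf K2_ok TD_l781 _))
           (CovZ.n1 (22752, 23040) (by decide +kernel)
            (CovZ.leaf K2_ok TD_l782 _)
            (CovZ.n1 (22800, 23088) (by decide +kernel)
             (CovZ.leaf K2_ok TD_l783 _)
             (CovZ.leaf K2_ok TD_l784 _)))))
         (CovZ.n1 (22944, 23136) (by decide +kernel)
          (CovZ.n2 (22944, 23040) (by decide +kernel)
           (CovZ.leaf K2_ok TD_l785 _)
           (CovZ.leaf K2_ok TD_l786 _))
          (CovZ.leaf K2_ok TD_l787 _)))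
        (CovZ.subM 6407962126280718414428108252785420441831495372396596380413291071670577953841019048538729990848552 (by decide +kernel)
         (CovZ.n1 (22656, 23232) (by decide +kernel)
          (CovZ.n2 (22752, 23328) (by decide +kernel)
           (CovZ.n2 (22752, 23232) (by decide +kernel)
            (CovZ.leaf K2_ok TD_l788 _)
            (CovZ.leaf K2_ok TD_l789 _))
           (CovZ.n1 (22656, 23328) (by decide +kernel)
            (CovZ.n2 (22704, 23376) (by decide +kernel)
             (CovZ.leaf K2_ok TD_l790 _)
             (CovZ.leaf K2_ok TD_l791 _))
            (CovZ.leaf K2_ok TD_l792 _)))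
          (CovZ.n1 (22752, 23136) (by decide +kernel)
           (CovZ.n2 (22656, 23136) (by decide +kernel)
            (CovZ.n2 (22704, 23184) (by decide +kernel)
             (CovZ.leaf K2_ok TD_l793 _)
             (CovZ.leaf K2_ok TD_l794 _))
            (CovZ.leaf K2_ok TD_l795 _))
           (CovZ.n1 (22752, 23232) (by decide +kernel)
            (CovZ.leaf K2_ok TD_l796 _)
            (CovZ.n1 (22704, 23184) (by decide +kernel)
             (CovZ.leaf K2_ok TD_l797 _)
             (CovZ.leaf K2_ok TD_l798 _))))))))
      (CovZ.n1 (22272, 23424) (by decide +kernel)
       (CovZ.n2 (22464, 23616) (by decide +kernel)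
        (CovZ.n2 (22464, 23424) (by decide +kernel)
         (CovZ.n2 (22368, 23520) (by decide +kernel)
          (CovZ.n2 (22464, 23520) (by decide +kernel)
           (CovZ.n2 (22416, 23472) (by decide +kernel)
            (CovZ.leaf K2_ok TD_l799 _)
            (CovZ.leaf K2_ok TD_l800 _))
           (CovZ.leaf K2_ok TD_l801 _))
          (CovZ.n1 (22368, 23424) (by decide +kernel)
           (CovZ.leaf K2_ok TD_l802 _)
           (CovZ.n1 (22416, 23472) (by decide +kernel)
            (CovZ.leaf K2_ok TD_l803 _)
            (CovZ.leaf K2_ok TD_l804 _))))
         (CovZ.n1 (22560, 23520) (by decide +kernel)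
          (CovZ.n2 (22560, 23424) (by decide +kernel)
           (CovZ.leaf K2_ok TD_l805 _)
           (CovZ.n1 (22608, 23472) (by decide +kernel)
            (CovZ.leaf K2_ok TD_l806 _)
            (CovZ.leaf K2_ok TD_l807 _)))
          (CovZ.n1 (22464, 23520) (by decide +kernel)
           (CovZ.n2 (22512, 23568) (by decide +kernel)
            (CovZ.leaf K2_ok TD_l808 _)
            (CovZ.leaf K2_ok TD_l809 _))
           (CovZ.leaf K2_ok TD_l810 _))))
        (CovZ.n1 (22272, 23616) (by decide +kernel)
         (CovZ.n2 (22368, 23712) (by decide +kernel)
          (CovZ.n2 (22368, 23616) (by decide +kernel)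
           (CovZ.leaf K2_ok TD_l811 _)
           (CovZ.n1 (22416, 23664) (by decide +kernel)
            (CovZ.leaf K2_ok TD_l812 _)
            (CovZ.leaf K2_ok TD_l813 _)))
          (CovZ.n1 (22272, 23712) (by decide +kernel)
           (CovZ.n2 (22320, 23760) (by decide +kernel)
            (CovZ.leaf K2_ok TD_l814 _)
            (CovZ.leaf K2_ok TD_l815 _))
           (CovZ.leaf K2_ok TD_l816 _)))
         (CovZ.n1 (22368, 23520) (by decide +kernel)
          (CovZ.n2 (22272, 23520) (by decide +kernel)
           (CovZ.n2 (22320, 23568) (by decide +kernel)
            (CovZ.leaf K2_ok TD_l817 _)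
            (CovZ.leaf K2_ok TD_l818 _))
           (CovZ.leaf K2_ok TD_l819 _))
          (CovZ.n1 (22368, 23616) (by decide +kernel)
           (CovZ.leaf K2_ok TD_l820 _)
           (CovZ.n1 (22320, 23568) (by decide +kernel)
            (CovZ.leaf K2_ok TD_l821 _)
            (CovZ.leaf K2_ok TD_l822 _))))))
       (CovZ.n1 (22464, 23232) (by decide +kernel)
        (CovZ.n2 (22272, 23232) (by decide +kernel)
         (CovZ.n2 (22368, 23328) (by decide +kernel)
          (CovZ.n2 (22368, 23232) (by decide +kernel)
           (CovZ.leaf K2_ok TD_l823 _)
           (CovZ.n1 (22416, 23280) (by decide +kernel)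
            (CovZ.leaf K2_ok TD_l824 _)
            (CovZ.leaf K2_ok TD_l825 _)))
          (CovZ.n1 (22272, 23328) (by decide +kernel)
           (CovZ.n2 (22320, 23376) (by decide +kernel)
            (CovZ.leaf K2_ok TD_l826 _)
            (CovZ.leaf K2_ok TD_l827 _))
           (CovZ.leaf K2_ok TD_l828 _)))
         (CovZ.n1 (22368, 23136) (by decide +kernel)
          (CovZ.n2 (22272, 23136) (by decide +kernel)
           (CovZ.n2 (22320, 23184) (by decide +kernel)
            (CovZ.leaf K2_ok TD_l829 _)
            (CovZ.leaf K2_ok TD_l830 _))
           (CovZ.leaf K2_ok TD_l831 _))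
          (CovZ.n1 (22368, 23232) (by decide +kernel)
           (CovZ.leaf K2_ok TD_l832 _)
           (CovZ.n1 (22320, 23184) (by decide +kernel)
            (CovZ.leaf K2_ok TD_l833 _)
            (CovZ.leaf K2_ok TD_l834 _)))))
        (CovZ.n1 (22464, 23424) (by decide +kernel)
         (CovZ.n2 (22560, 23328) (by decide +kernel)
          (CovZ.n2 (22464, 23328) (by decide +kernel)
           (CovZ.n2 (22512, 23376) (by decide +kernel)
            (CovZ.leaf K2_ok TD_l835 _)
            (CovZ.leaf K2_ok TD_l836 _))
           (CovZ.leaf K2_ok TD_l837 _))
          (CovZ.n1 (22560, 23424) (by decide +kernel)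
           (CovZ.leaf K2_ok TD_l838 _)
           (CovZ.n1 (22512, 23376) (by decide +kernel)
            (CovZ.leaf K2_ok TD_l839 _)
            (CovZ.leaf K2_ok TD_l840 _))))
         (CovZ.n1 (22368, 23328) (by decide +kernel)
          (CovZ.n2 (22368, 23424) (by decide +kernel)
           (CovZ.leaf K2_ok TD_l841 _)
           (CovZ.n1 (22320, 23376) (by decide +kernel)
            (CovZ.leaf K2_ok TD_l842 _)
            (CovZ.leaf K2_ok TD_l843 _)))
          (CovZ.n1 (22464, 23328) (by decide +kernel)
           (CovZ.n2 (22416, 23280) (by decide +kernel)
            (CovZ.leaf K2_ok TD_l844 _)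
            (CovZ.leaf K2_ok TD_l845 _))
           (CovZ.leaf K2_ok TD_l846 _))))))))

theorem TD_u59 : CovZ TD_M (toL (selN TD_LN 73391957973892809501508620049235648927194447882799393309415005892784759907469999614676340235615198674681900)) [0, 7, 6, 1] (21504, 23040) (21888, 23424) (21504, 23808) :=
    (CovZ.subM 73391955711749037966418797089741626533861798050300631755515822378819397140548420075124865970014849555496992 (by decide +kernel)
       (CovZ.n2 (21504, 23424) (by decide +kernel)
        (CovZ.n2 (21696, 23616) (by decide +kernel)
         (CovZ.n2 (21696, 23424) (by decide +kernel)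
          (CovZ.subM 159694265216558943963369701376 (by decide +kernel)
           (CovZ.n2 (21600, 23520) (by decide +kernel)
            (CovZ.n2 (21696, 23520) (by decide +kernel)
             (CovZ.badM (by decide +kernel))
             (CovZ.n1 (21648, 23568) (by decide +kernel)
              (CovZ.n2 (21696, 23568) (by decide +kernel)
               (CovZ.badM (by decide +kernel))
               (CovZ.n1 (21672, 23592) (by decide +kernel)
                (CovZ.leaf K2_ok TD_l917 _)
                (CovZ.badM (by decide +kernel))))
              (CovZ.badM (by decide +kernel))))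
            (CovZ.badM (by decide +kernel))))
          (CovZ.n1 (21792, 23520) (by decide +kernel)
           (CovZ.n2 (21792, 23424) (by decide +kernel)
            (CovZ.subM 73391955711682288371546268649666782105490079653384995959602842860381532034831673552505810258467976749514752 (by decide +kernel)
             (CovZ.n2 (21744, 23472) (by decide +kernel)
              (CovZ.n2 (21792, 23472) (by decide +kernel)
               (CovZ.n2 (21768, 23448) (by decide +kernel)
                (CovZ.leaf K2_ok TD_l14729 _)
                (CovZ.leaf K2_ok TD_l14730 _))
               (CovZ.n1 (21768, 23496) (by decide +kernel)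
                (CovZ.leaf K2_ok TD_l918 _)
                (CovZ.leaf K2_ok TD_l14731 _)))
              (CovZ.badM (by decide +kernel))))
            (CovZ.n1 (21840, 23472) (by decide +kernel)
             (CovZ.n2 (21840, 23424) (by decide +kernel)
              (CovZ.n2 (21816, 23448) (by decide +kernel)
               (CovZ.leaf K2_ok TD_l919 _)
               (CovZ.badM (by decide +kernel)))
              (CovZ.n1 (21864, 23448) (by decide +kernel)
               (CovZ.leaf K2_ok TD_l920 _)
               (CovZ.leaf K2_ok TD_l921 _)))
             (CovZ.n1 (21792, 23472) (by decide +kernel)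
              (CovZ.n2 (21816, 23496) (by decide +kernel)
               (CovZ.leaf K2_ok TD_l922 _)
               (CovZ.leaf K2_ok TD_l923 _))
              (CovZ.leaf K2_ok TD_l924 _))))
           (CovZ.subM 73391955711682288371546268649666782105490079653384995959602842860381532034831673552505810258467985339449344 (by decide +kernel)
            (CovZ.n1 (21696, 23520) (by decide +kernel)
             (CovZ.n2 (21744, 23568) (by decide +kernel)
              (CovZ.n2 (21744, 23520) (by decide +kernel)
               (CovZ.n2 (21720, 23544) (by decide +kernel)
                (CovZ.leaf K2_ok TD_l925 _)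
                (CovZ.badM (by decide +kernel)))
               (CovZ.leaf K2_ok TD_l926 _))
              (CovZ.n1 (21696, 23568) (by decide +kernel)
               (CovZ.n2 (21720, 23592) (by decide +kernel)
                (CovZ.leaf K2_ok TD_l927 _)
                (CovZ.leaf K2_ok TD_l928 _))
               (CovZ.leaf K2_ok TD_l929 _)))
             (CovZ.n1 (21744, 23472) (by decide +kernel)
              (CovZ.badM (by decide +kernel))
              (CovZ.n1 (21744, 23520) (by decide +kernel)
               (CovZ.leaf K2_ok TD_l930 _)
               (CovZ.badM (by decide +kernel))))))))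
         (CovZ.subM 66749594872528440074844428317798503581334516323645399060845050244604060695861576132180934918144 (by decide +kernel)
          (CovZ.n1 (21504, 23616) (by decide +kernel)
           (CovZ.n2 (21600, 23712) (by decide +kernel)
            (CovZ.n2 (21600, 23616) (by decide +kernel)
             (CovZ.subM 158456325029699611098794164224 (by decide +kernel)
              (CovZ.n2 (21552, 23664) (by decide +kernel)
               (CovZ.n2 (21600, 23664) (by decide +kernel)
                (CovZ.badM (by decide +kernel))
                (CovZ.n1 (21576, 23688) (by decide +kernel)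
                 (CovZ.leaf K2_ok TD_l14732 _)
                 (CovZ.leaf K2_ok TD_l14733 _)))
               (CovZ.badM (by decide +kernel))))
             (CovZ.n1 (21648, 23664) (by decide +kernel)
              (CovZ.n2 (21648, 23616) (by decide +kernel)
               (CovZ.n2 (21624, 23640) (by decide +kernel)
                (CovZ.leaf K2_ok TD_l931 _)
                (CovZ.badM (by decide +kernel)))
               (CovZ.n1 (21672, 23640) (by decide +kernel)
                (CovZ.leaf K2_ok TD_l932 _)
                (CovZ.leaf K2_ok TD_l933 _)))
              (CovZ.n1 (21600, 23664) (by decide +kernel)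
               (CovZ.n2 (21624, 23688) (by decide +kernel)
                (CovZ.leaf K2_ok TD_l934 _)
                (CovZ.leaf K2_ok TD_l14734 _))
               (CovZ.leaf K2_ok TD_l935 _))))
            (CovZ.n1 (21504, 23712) (by decide +kernel)
             (CovZ.n2 (21552, 23760) (by decide +kernel)
              (CovZ.n2 (21552, 23712) (by decide +kernel)
               (CovZ.n2 (21528, 23736) (by decide +kernel)
                (CovZ.leaf K2_ok TD_l14735 _)
                (CovZ.leaf K2_ok TD_l14736 _))
               (CovZ.leaf K2_ok TD_l14737 _))
              (CovZ.n1 (21504, 23760) (by decide +kernel)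
               (CovZ.n2 (21528, 23784) (by decide +kernel)
                (CovZ.leaf K2_ok TD_l14738 _)
                (CovZ.leaf K2_ok TD_l14739 _))
               (CovZ.leaf K2_ok TD_l14740 _)))
             (CovZ.subM 158456325029699611098794164224 (by decide +kernel)
              (CovZ.n1 (21552, 23664) (by decide +kernel)
               (CovZ.badM (by decide +kernel))
               (CovZ.n1 (21552, 23712) (by decide +kernel)
                (CovZ.leaf K2_ok TD_l14741 _)
                (CovZ.n1 (21528, 23688) (by decide +kernel)
                 (CovZ.leaf K2_ok TD_l14742 _)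
                 (CovZ.leaf K2_ok TD_l14743 _)))))))
           (CovZ.n1 (21600, 23520) (by decide +kernel)
            (CovZ.badM (by decide +kernel))
            (CovZ.n1 (21600, 23616) (by decide +kernel)
             (CovZ.n2 (21648, 23568) (by decide +kernel)
              (CovZ.badM (by decide +kernel))
              (CovZ.n1 (21648, 23616) (by decide +kernel)
               (CovZ.leaf K2_ok TD_l936 _)
               (CovZ.badM (by decide +kernel))))
             (CovZ.badM (by decide +kernel)))))))
        (CovZ.n1 (21696, 23232) (by decide +kernel)
         (CovZ.badM (by decide +kernel))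
         (CovZ.n1 (21696, 23424) (by decide +kernel)
          (CovZ.n2 (21792, 23328) (by decide +kernel)
           (CovZ.badM (by decide +kernel))
           (CovZ.n1 (21792, 23424) (by decide +kernel)
            (CovZ.n2 (21840, 23376) (by decide +kernel)
             (CovZ.badM (by decide +kernel))
             (CovZ.n1 (21840, 23424) (by decide +kernel)
              (CovZ.leaf K2_ok TD_l937 _)
              (CovZ.badM (by decide +kernel))))
            (CovZ.badM (by decide +kernel))))
          (CovZ.badM (by decide +kernel))))))

theorem TD_u60 : CovZ TD_M (toL (selN TD_LN 73391957973892809501508620049235648927194447882799393309415005892784759907469999614676340235615198674681900)) [0, 7, 6, 1] (21888, 23424) (22272, 23808) (21504, 23808) :=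
    (CovZ.n1 (21888, 23808) (by decide +kernel)
       (CovZ.n2 (22080, 23616) (by decide +kernel)
        (CovZ.subM 73391957969487335221403269162419122497117403679964820994388580113088660589536939070704381463660638601478144 (by decide +kernel)
         (CovZ.n2 (21888, 23616) (by decide +kernel)
          (CovZ.n2 (21984, 23712) (by decide +kernel)
           (CovZ.n2 (21984, 23616) (by decide +kernel)
            (CovZ.leaf K2_ok TD_l938 _)
            (CovZ.n1 (22032, 23664) (by decide +kernel)
             (CovZ.leaf K2_ok TD_l939 _)
             (CovZ.leaf K2_ok TD_l940 _)))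
           (CovZ.n1 (21888, 23712) (by decide +kernel)
            (CovZ.n2 (21936, 23760) (by decide +kernel)
             (CovZ.leaf K2_ok TD_l941 _)
             (CovZ.leaf K2_ok TD_l942 _))
            (CovZ.leaf K2_ok TD_l943 _)))
          (CovZ.n1 (21984, 23520) (by decide +kernel)
           (CovZ.n2 (21888, 23520) (by decide +kernel)
            (CovZ.n2 (21936, 23568) (by decide +kernel)
             (CovZ.leaf K2_ok TD_l944 _)
             (CovZ.leaf K2_ok TD_l945 _))
            (CovZ.leaf K2_ok TD_l946 _))
           (CovZ.n1 (21984, 23616) (by decide +kernel)
            (CovZ.leaf K2_ok TD_l947 _)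
            (CovZ.n1 (21936, 23568) (by decide +kernel)
             (CovZ.leaf K2_ok TD_l948 _)
             (CovZ.leaf K2_ok TD_l949 _))))))
        (CovZ.n1 (22080, 23808) (by decide +kernel)
         (CovZ.n2 (22176, 23712) (by decide +kernel)
          (CovZ.n2 (22080, 23712) (by decide +kernel)
           (CovZ.n2 (22128, 23760) (by decide +kernel)
            (CovZ.leaf K2_ok TD_l950 _)
            (CovZ.leaf K2_ok TD_l951 _))
           (CovZ.leaf K2_ok TD_l952 _))
          (CovZ.n1 (22176, 23808) (by decide +kernel)
           (CovZ.leaf K2_ok TD_l953 _)
           (CovZ.n1 (22128, 23760) (by decide +kernel)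
            (CovZ.leaf K2_ok TD_l954 _)
            (CovZ.leaf K2_ok TD_l955 _))))
         (CovZ.subM 73391957969487335221403269162419122497117403679964820994388580113088660589536939070704381463660638601478144 (by decide +kernel)
          (CovZ.n1 (21984, 23712) (by decide +kernel)
           (CovZ.n2 (21984, 23808) (by decide +kernel)
            (CovZ.leaf K2_ok TD_l956 _)
            (CovZ.n1 (21936, 23760) (by decide +kernel)
             (CovZ.leaf K2_ok TD_l957 _)
             (CovZ.leaf K2_ok TD_l958 _)))
           (CovZ.n1 (22080, 23712) (by decide +kernel)
            (CovZ.n2 (22032, 23664) (by decide +kernel)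
             (CovZ.leaf K2_ok TD_l959 _)
             (CovZ.leaf K2_ok TD_l960 _))
            (CovZ.leaf K2_ok TD_l961 _))))))
       (CovZ.subM 73391957901135749785351631544638875357652715518072767171087834577811706964157827981849810090493718070034432 (by decide +kernel)
        (CovZ.n1 (21696, 23616) (by decide +kernel)
         (CovZ.n2 (21696, 23808) (by decide +kernel)
          (CovZ.n2 (21792, 23712) (by decide +kernel)
           (CovZ.n2 (21696, 23712) (by decide +kernel)
            (CovZ.n2 (21744, 23760) (by decide +kernel)
             (CovZ.leaf K2_ok TD_l962 _)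
             (CovZ.leaf K2_ok TD_l963 _))
            (CovZ.leaf K2_ok TD_l964 _))
           (CovZ.n1 (21792, 23808) (by decide +kernel)
            (CovZ.leaf K2_ok TD_l965 _)
            (CovZ.n1 (21744, 23760) (by decide +kernel)
             (CovZ.leaf K2_ok TD_l966 _)
             (CovZ.leaf K2_ok TD_l967 _))))
          (CovZ.n1 (21600, 23712) (by decide +kernel)
           (CovZ.n2 (21600, 23808) (by decide +kernel)
            (CovZ.leaf K2_ok TD_l968 _)
            (CovZ.subM 2202736630793438522469866134487350618184039038680298258210867452189633265269432274098963221577728 (by decide +kernel)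
             (CovZ.n1 (21552, 23760) (by decide +kernel)
              (CovZ.n2 (21552, 23808) (by decide +kernel)
               (CovZ.leaf K2_ok TD_l969 _)
               (CovZ.n1 (21528, 23784) (by decide +kernel)
                (CovZ.leaf K2_ok TD_l970 _)
                (CovZ.leaf K2_ok TD_l971 _)))
              (CovZ.n1 (21600, 23760) (by decide +kernel)
               (CovZ.leaf K2_ok TD_l972 _)
               (CovZ.leaf K2_ok TD_l973 _)))))
           (CovZ.n1 (21696, 23712) (by decide +kernel)
            (CovZ.subM 2135987035920910082395021706169552114602704522356652859150022401945188898838787256910745656360960 (by decide +kernel)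
             (CovZ.n2 (21648, 23664) (by decide +kernel)
              (CovZ.n2 (21648, 23712) (by decide +kernel)
               (CovZ.leaf K2_ok TD_l974 _)
               (CovZ.n1 (21624, 23688) (by decide +kernel)
                (CovZ.leaf K2_ok TD_l975 _)
                (CovZ.leaf K2_ok TD_l976 _)))
              (CovZ.n1 (21696, 23664) (by decide +kernel)
               (CovZ.n2 (21672, 23640) (by decide +kernel)
                (CovZ.leaf K2_ok TD_l977 _)
                (CovZ.leaf K2_ok TD_l978 _))
               (CovZ.leaf K2_ok TD_l979 _))))
            (CovZ.n1 (21648, 23760) (by decide +kernel)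
             (CovZ.leaf K2_ok TD_l980 _)
             (CovZ.n1 (21648, 23712) (by decide +kernel)
              (CovZ.leaf K2_ok TD_l981 _)
              (CovZ.leaf K2_ok TD_l982 _))))))
         (CovZ.n1 (21888, 23616) (by decide +kernel)
          (CovZ.n2 (21792, 23520) (by decide +kernel)
           (CovZ.n2 (21792, 23616) (by decide +kernel)
            (CovZ.leaf K2_ok TD_l983 _)
            (CovZ.n1 (21744, 23568) (by decide +kernel)
             (CovZ.n2 (21744, 23616) (by decide +kernel)
              (CovZ.leaf K2_ok TD_l984 _)
              (CovZ.n1 (21720, 23592) (by decide +kernel)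
               (CovZ.leaf K2_ok TD_l985 _)
               (CovZ.leaf K2_ok TD_l986 _)))
             (CovZ.n1 (21792, 23568) (by decide +kernel)
              (CovZ.leaf K2_ok TD_l987 _)
              (CovZ.leaf K2_ok TD_l988 _))))
           (CovZ.n1 (21888, 23520) (by decide +kernel)
            (CovZ.n2 (21840, 23472) (by decide +kernel)
             (CovZ.n2 (21840, 23520) (by decide +kernel)
              (CovZ.leaf K2_ok TD_l989 _)
              (CovZ.n1 (21816, 23496) (by decide +kernel)
               (CovZ.leaf K2_ok TD_l990 _)
               (CovZ.leaf K2_ok TD_l991 _)))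
             (CovZ.n1 (21888, 23472) (by decide +kernel)
              (CovZ.n2 (21864, 23448) (by decide +kernel)
               (CovZ.leaf K2_ok TD_l992 _)
               (CovZ.leaf K2_ok TD_l993 _))
              (CovZ.leaf K2_ok TD_l994 _)))
            (CovZ.n1 (21840, 23568) (by decide +kernel)
             (CovZ.leaf K2_ok TD_l995 _)
             (CovZ.n1 (21840, 23520) (by decide +kernel)
              (CovZ.leaf K2_ok TD_l996 _)
              (CovZ.leaf K2_ok TD_l997 _)))))
          (CovZ.n1 (21792, 23712) (by decide +kernel)
           (CovZ.n2 (21888, 23712) (by decide +kernel)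
            (CovZ.n2 (21840, 23664) (by decide +kernel)
             (CovZ.leaf K2_ok TD_l998 _)
             (CovZ.leaf K2_ok TD_l999 _))
            (CovZ.leaf K2_ok TD_l1000 _))
           (CovZ.n1 (21792, 23616) (by decide +kernel)
            (CovZ.n2 (21744, 23664) (by decide +kernel)
             (CovZ.leaf K2_ok TD_l1001 _)
             (CovZ.n1 (21744, 23616) (by decide +kernel)
              (CovZ.leaf K2_ok TD_l1002 _)
              (CovZ.leaf K2_ok TD_l1003 _)))
            (CovZ.n1 (21840, 23664) (by decide +kernel)
             (CovZ.n2 (21840, 23616) (by decide +kernel)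
              (CovZ.leaf K2_ok TD_l1004 _)
              (CovZ.leaf K2_ok TD_l1005 _))
             (CovZ.leaf K2_ok TD_l1006 _))))))))

end Pool.Agent.TET
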