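import Pool.Agent.Helper38_TET.TD_M
import Pool.Agent.Helper38_TET.TD_L
import Pool.Agent.Helper38_TET.TD_1
import Pool.Agent.Helper38_TET.TD_5
import Pool.Agent.Helper38_TET.TD_6
import Pool.Agent.Helper38_TET.TD_7
import Pool.Agent.Helper38_TET.TD_8
import Pool.Agent.Helper38_TET.TD_9
import Pool.Agent.Helper38_TET.TD_19
import Pool.Agent.Helper38_TET.TD_20
import Pool.Agent.Helper38_TET.TD_98
import Pool.Agent.Helper38_TET.TD_99
import Pool.Agent.Helper38_TET.TD_121
import Pool.Agent.Helper38_TET.TD_127
import Pool.Agent.Helper38_TET.TD_U3

/-!
# MP_c7c9bf_co: certificates, family TD
-/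

set_option autoImplicit false
set_option maxRecDepth 100000

namespace Pool.Agent.TET

theorem TD_u61 : CovZ TD_M (toL (selN TD_LN 73391957973892809501508620049235648927194447882799393309415005892784759907469999614676340235615198674681900)) [0, 7, 6, 1] (21504, 23040) (22272, 23808) (21504, 24576) :=
    (CovZ.n2 (21504, 23808) (by decide +kernel)
     (CovZ.n2 (21888, 24192) (by decide +kernel)
      (CovZ.n2 (21888, 23808) (by decide +kernel)
       (CovZ.subM 73391957901135749785351631544638875357652715518072767171087834577811706964157827981849810090493718070034432 (by decide +kernel)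
        (CovZ.n2 (21696, 24000) (by decide +kernel)
         (CovZ.n2 (21888, 24000) (by decide +kernel)
          (CovZ.n2 (21792, 23904) (by decide +kernel)
           (CovZ.n2 (21792, 24000) (by decide +kernel)
            (CovZ.leaf K2_ok TD_l847 _)
            (CovZ.n1 (21744, 23952) (by decide +kernel)
             (CovZ.leaf K2_ok TD_l848 _)
             (CovZ.leaf K2_ok TD_l849 _)))
           (CovZ.n1 (21888, 23904) (by decide +kernel)
            (CovZ.n2 (21840, 23856) (by decide +kernel)
             (CovZ.leaf K2_ok TD_l850 _)
             (CovZ.leaf K2_ok TD_l851 _))
            (CovZ.leaf K2_ok TD_l852 _)))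
          (CovZ.n1 (21792, 24096) (by decide +kernel)
           (CovZ.n2 (21888, 24096) (by decide +kernel)
            (CovZ.n2 (21840, 24048) (by decide +kernel)
             (CovZ.leaf K2_ok TD_l853 _)
             (CovZ.leaf K2_ok TD_l854 _))
            (CovZ.leaf K2_ok TD_l855 _))
           (CovZ.n1 (21792, 24000) (by decide +kernel)
            (CovZ.leaf K2_ok TD_l856 _)
            (CovZ.leaf K2_ok TD_l857 _))))
         (CovZ.n1 (21696, 23808) (by decide +kernel)
          (CovZ.n2 (21600, 23904) (by decide +kernel)
           (CovZ.n2 (21696, 23904) (by decide +kernel)
            (CovZ.n2 (21648, 23856) (by decide +kernel)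
             (CovZ.leaf K2_ok TD_l858 _)
             (CovZ.leaf K2_ok TD_l859 _))
            (CovZ.leaf K2_ok TD_l860 _))
           (CovZ.n1 (21600, 23808) (by decide +kernel)
            (CovZ.n2 (21552, 23856) (by decide +kernel)
             (CovZ.leaf K2_ok TD_l861 _)
             (CovZ.n1 (21552, 23808) (by decide +kernel)
              (CovZ.leaf K2_ok TD_l862 _)
              (CovZ.leaf K2_ok TD_l863 _)))
            (CovZ.n1 (21648, 23856) (by decide +kernel)
             (CovZ.leaf K2_ok TD_l864 _)
             (CovZ.leaf K2_ok TD_l865 _))))
          (CovZ.n1 (21792, 23904) (by decide +kernel)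
           (CovZ.n2 (21792, 23808) (by decide +kernel)
            (CovZ.leaf K2_ok TD_l866 _)
            (CovZ.leaf K2_ok TD_l867 _))
           (CovZ.n1 (21696, 23904) (by decide +kernel)
            (CovZ.n2 (21744, 23952) (by decide +kernel)
             (CovZ.leaf K2_ok TD_l868 _)
             (CovZ.leaf K2_ok TD_l869 _))
            (CovZ.leaf K2_ok TD_l870 _))))))
       (CovZ.n1 (22080, 24000) (by decide +kernel)
        (CovZ.n2 (22080, 23808) (by decide +kernel)
         (CovZ.subM 73391957969487335221403269162419122497117403679964820994388580113088660589536939070704381463660638601478144 (by decide +kernel)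
          (CovZ.n2 (21984, 23904) (by decide +kernel)
           (CovZ.n2 (22080, 23904) (by decide +kernel)
            (CovZ.n2 (22032, 23856) (by decide +kernel)
             (CovZ.leaf K2_ok TD_l871 _)
             (CovZ.leaf K2_ok TD_l872 _))
            (CovZ.leaf K2_ok TD_l873 _))
           (CovZ.n1 (21984, 23808) (by decide +kernel)
            (CovZ.leaf K2_ok TD_l874 _)
            (CovZ.n1 (22032, 23856) (by decide +kernel)
             (CovZ.leaf K2_ok TD_l875 _)
             (CovZ.leaf K2_ok TD_l876 _)))))
         (CovZ.n1 (22176, 23904) (by decide +kernel)
          (CovZ.n2 (22176, 23808) (by decide +kernel)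
           (CovZ.leaf K2_ok TD_l877 _)
           (CovZ.leaf K2_ok TD_l878 _))
          (CovZ.leaf K2_ok TD_l879 _)))
        (CovZ.subM 73391957969487335221403269162419122497117403679964820994388580113088660589536939070704381463660638601478144 (by decide +kernel)
         (CovZ.n1 (21888, 24000) (by decide +kernel)
          (CovZ.n2 (21984, 24096) (by decide +kernel)
           (CovZ.n2 (21984, 24000) (by decide +kernel)
            (CovZ.leaf K2_ok TD_l880 _)
            (CovZ.leaf K2_ok TD_l881 _))
           (CovZ.leaf K2_ok TD_l882 _))
          (CovZ.n1 (21984, 23904) (by decide +kernel)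
           (CovZ.leaf K2_ok TD_l883 _)
           (CovZ.n1 (21984, 24000) (by decide +kernel)
            (CovZ.leaf K2_ok TD_l884 _)
            (CovZ.leaf K2_ok TD_l885 _)))))))
      (CovZ.subM 73391957901135749785351631544638875357652715518072767171087834577811706964157827981849810090493718070034432 (by decide +kernel)
       (CovZ.n1 (21504, 24192) (by decide +kernel)
        (CovZ.n2 (21696, 24384) (by decide +kernel)
         (CovZ.n2 (21696, 24192) (by decide +kernel)
          (CovZ.n2 (21600, 24288) (by decide +kernel)
           (CovZ.n2 (21696, 24288) (by decide +kernel)
            (CovZ.leaf K2_ok TD_l886 _)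
            (CovZ.leaf K2_ok TD_l887 _))
           (CovZ.n1 (21600, 24192) (by decide +kernel)
            (CovZ.leaf K2_ok TD_l888 _)
            (CovZ.leaf K2_ok TD_l889 _)))
          (CovZ.n1 (21792, 24288) (by decide +kernel)
           (CovZ.n2 (21792, 24192) (by decide +kernel)
            (CovZ.leaf K2_ok TD_l890 _)
            (CovZ.leaf K2_ok TD_l891 _))
           (CovZ.leaf K2_ok TD_l892 _)))
         (CovZ.n1 (21504, 24384) (by decide +kernel)
          (CovZ.n2 (21600, 24480) (by decide +kernel)
           (CovZ.n2 (21600, 24384) (by decide +kernel)
            (CovZ.leaf K2_ok TD_l893 _)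
            (CovZ.leaf K2_ok TD_l894 _))
           (CovZ.leaf K2_ok TD_l895 _))
          (CovZ.n1 (21600, 24288) (by decide +kernel)
           (CovZ.leaf K2_ok TD_l896 _)
           (CovZ.n1 (21600, 24384) (by decide +kernel)
            (CovZ.leaf K2_ok TD_l897 _)
            (CovZ.leaf K2_ok TD_l898 _)))))
        (CovZ.n1 (21696, 24000) (by decide +kernel)
         (CovZ.n2 (21504, 24000) (by decide +kernel)
          (CovZ.n2 (21600, 24096) (by decide +kernel)
           (CovZ.n2 (21600, 24000) (by decide +kernel)
            (CovZ.leaf K2_ok TD_l899 _)
            (CovZ.leaf K2_ok TD_l900 _))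
           (CovZ.leaf K2_ok TD_l901 _))
          (CovZ.n1 (21600, 23904) (by decide +kernel)
           (CovZ.n2 (21504, 23904) (by decide +kernel)
            (CovZ.n2 (21552, 23952) (by decide +kernel)
             (CovZ.leaf K2_ok TD_l902 _)
             (CovZ.leaf K2_ok TD_l903 _))
            (CovZ.leaf K2_ok TD_l904 _))
           (CovZ.n1 (21600, 24000) (by decide +kernel)
            (CovZ.leaf K2_ok TD_l905 _)
            (CovZ.n1 (21552, 23952) (by decide +kernel)
             (CovZ.leaf K2_ok TD_l906 _)
             (CovZ.leaf K2_ok TD_l907 _)))))
         (CovZ.n1 (21696, 24192) (by decide +kernel)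
          (CovZ.n2 (21792, 24096) (by decide +kernel)
           (CovZ.leaf K2_ok TD_l908 _)
           (CovZ.n1 (21792, 24192) (by decide +kernel)
            (CovZ.leaf K2_ok TD_l909 _)
            (CovZ.leaf K2_ok TD_l910 _)))
          (CovZ.n1 (21600, 24096) (by decide +kernel)
           (CovZ.n2 (21600, 24192) (by decide +kernel)
            (CovZ.leaf K2_ok TD_l911 _)
            (CovZ.n1 (21552, 24144) (by decide +kernel)
             (CovZ.leaf K2_ok TD_l912 _)
             (CovZ.leaf K2_ok TD_l913 _)))
           (CovZ.n1 (21696, 24096) (by decide +kernel)
            (CovZ.n2 (21648, 24048) (by decide +kernel)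
             (CovZ.leaf K2_ok TD_l914 _)
             (CovZ.leaf K2_ok TD_l915 _))
            (CovZ.leaf K2_ok TD_l916 _))))))))
     (CovZ.n1 (21888, 23424) (by decide +kernel)
      TD_u59
      TD_u60))

theorem TD_u62 : CovZ TD_M (toL (selN TD_LN 73391957973892809501508620049235648927194447882799393309415005892784759907469999614676340235615198674681900)) [0, 7, 6, 1] (22272, 23808) (23040, 24576) (21504, 24576) :=
    (CovZ.n1 (22272, 24576) (by decide +kernel)
     (CovZ.n2 (22656, 24192) (by decide +kernel)
      (CovZ.n2 (22272, 24192) (by decide +kernel)
       (CovZ.n2 (22464, 24384) (by decide +kernel)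
        (CovZ.n2 (22464, 24192) (by decide +kernel)
         (CovZ.n2 (22368, 24288) (by decide +kernel)
          (CovZ.n2 (22464, 24288) (by decide +kernel)
           (CovZ.leaf K2_ok TD_l1007 _)
           (CovZ.leaf K2_ok TD_l1008 _))
          (CovZ.n1 (22368, 24192) (by decide +kernel)
           (CovZ.leaf K2_ok TD_l1009 _)
           (CovZ.leaf K2_ok TD_l1010 _)))
         (CovZ.n1 (22560, 24288) (by decide +kernel)
          (CovZ.n2 (22560, 24192) (by decide +kernel)
           (CovZ.leaf K2_ok TD_l1011 _)
           (CovZ.leaf K2_ok TD_l1012 _))
          (CovZ.leaf K2_ok TD_l1013 _)))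
        (CovZ.n1 (22272, 24384) (by decide +kernel)
         (CovZ.n2 (22368, 24480) (by decide +kernel)
          (CovZ.n2 (22368, 24384) (by decide +kernel)
           (CovZ.leaf K2_ok TD_l1014 _)
           (CovZ.leaf K2_ok TD_l1015 _))
          (CovZ.leaf K2_ok TD_l1016 _))
         (CovZ.leaf K2_ok TD_l1017 _)))
       (CovZ.n1 (22464, 24000) (by decide +kernel)
        (CovZ.n2 (22272, 24000) (by decide +kernel)
         (CovZ.n2 (22368, 24096) (by decide +kernel)
          (CovZ.n2 (22368, 24000) (by decide +kernel)
           (CovZ.leaf K2_ok TD_l1018 _)
           (CovZ.leaf K2_ok TD_l1019 _))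
          (CovZ.leaf K2_ok TD_l1020 _))
         (CovZ.n1 (22368, 23904) (by decide +kernel)
          (CovZ.leaf K2_ok TD_l1021 _)
          (CovZ.n1 (22368, 24000) (by decide +kernel)
           (CovZ.leaf K2_ok TD_l1022 _)
           (CovZ.n1 (22320, 23952) (by decide +kernel)
            (CovZ.leaf K2_ok TD_l1023 _)
            (CovZ.leaf K2_ok TD_l1024 _)))))
        (CovZ.n1 (22464, 24192) (by decide +kernel)
         (CovZ.n2 (22560, 24096) (by decide +kernel)
          (CovZ.leaf K2_ok TD_l1025 _)
          (CovZ.n1 (22560, 24192) (by decide +kernel)
           (CovZ.leaf K2_ok TD_l1026 _)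
           (CovZ.n1 (22512, 24144) (by decide +kernel)
            (CovZ.leaf K2_ok TD_l1027 _)
            (CovZ.leaf K2_ok TD_l1028 _))))
         (CovZ.n1 (22368, 24096) (by decide +kernel)
          (CovZ.n2 (22368, 24192) (by decide +kernel)
           (CovZ.leaf K2_ok TD_l1029 _)
           (CovZ.leaf K2_ok TD_l1030 _))
          (CovZ.n1 (22464, 24096) (by decide +kernel)
           (CovZ.n2 (22416, 24048) (by decide +kernel)
            (CovZ.leaf K2_ok TD_l1031 _)
            (CovZ.leaf K2_ok TD_l1032 _))
           (CovZ.leaf K2_ok TD_l1033 _))))))
      (CovZ.n1 (22656, 24576) (by decide +kernel)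
       (CovZ.n2 (22848, 24384) (by decide +kernel)
        (CovZ.subM 6474711721153246854502952681103218945412829888720241779474136121912487019071207606923954149654536 (by decide +kernel)
         (CovZ.n2 (22656, 24384) (by decide +kernel)
          (CovZ.n2 (22752, 24480) (by decide +kernel)
           (CovZ.n2 (22752, 24384) (by decide +kernel)
            (CovZ.leaf K2_ok TD_l1034 _)
            (CovZ.leaf K2_ok TD_l1035 _))
           (CovZ.leaf K2_ok TD_l1036 _))
          (CovZ.leaf K2_ok TD_l1037 _)))
        (CovZ.n1 (22848, 24576) (by decide +kernel)
         (CovZ.leaf K2_ok TD_l1038 _)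
         (CovZ.n1 (22752, 24480) (by decide +kernel)
          (CovZ.leaf K2_ok TD_l1039 _)
          (CovZ.leaf K2_ok TD_l1040 _))))
       (CovZ.n1 (22464, 24384) (by decide +kernel)
        (CovZ.n2 (22464, 24576) (by decide +kernel)
         (CovZ.leaf K2_ok TD_l1041 _)
         (CovZ.n1 (22368, 24480) (by decide +kernel)
          (CovZ.n2 (22368, 24576) (by decide +kernel)
           (CovZ.leaf K2_ok TD_l1042 _)
           (CovZ.leaf K2_ok TD_l1043 _))
          (CovZ.n1 (22464, 24480) (by decide +kernel)
           (CovZ.leaf K2_ok TD_l1044 _)
           (CovZ.leaf K2_ok TD_l1045 _))))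
        (CovZ.n1 (22656, 24384) (by decide +kernel)
         (CovZ.n2 (22560, 24288) (by decide +kernel)
          (CovZ.n2 (22560, 24384) (by decide +kernel)
           (CovZ.leaf K2_ok TD_l1046 _)
           (CovZ.leaf K2_ok TD_l1047 _))
          (CovZ.n1 (22656, 24288) (by decide +kernel)
           (CovZ.leaf K2_ok TD_l1048 _)
           (CovZ.leaf K2_ok TD_l1049 _)))
         (CovZ.n1 (22560, 24480) (by decide +kernel)
          (CovZ.n2 (22656, 24480) (by decide +kernel)
           (CovZ.leaf K2_ok TD_l1050 _)
           (CovZ.leaf K2_ok TD_l1051 _))
          (CovZ.n1 (22560, 24384) (by decide +kernel)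
           (CovZ.leaf K2_ok TD_l1052 _)
           (CovZ.leaf K2_ok TD_l1053 _)))))))
     (CovZ.n1 (21888, 24192) (by decide +kernel)
      (CovZ.n2 (21888, 24576) (by decide +kernel)
       (CovZ.n2 (22080, 24384) (by decide +kernel)
        (CovZ.subM 73391957969487335221403269162419122497117403679964820994388580113088660589536939070704381463660638601478144 (by decide +kernel)
         (CovZ.n2 (21888, 24384) (by decide +kernel)
          (CovZ.n2 (21984, 24480) (by decide +kernel)
           (CovZ.n2 (21984, 24384) (by decide +kernel)
            (CovZ.leaf K2_ok TD_l1054 _)
            (CovZ.leaf K2_ok TD_l1055 _))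
           (CovZ.leaf K2_ok TD_l1056 _))
          (CovZ.n1 (21984, 24288) (by decide +kernel)
           (CovZ.leaf K2_ok TD_l1057 _)
           (CovZ.n1 (21984, 24384) (by decide +kernel)
            (CovZ.leaf K2_ok TD_l1058 _)
            (CovZ.leaf K2_ok TD_l1059 _)))))
        (CovZ.n1 (22080, 24576) (by decide +kernel)
         (CovZ.leaf K2_ok TD_l1060 _)
         (CovZ.n1 (21984, 24480) (by decide +kernel)
          (CovZ.leaf K2_ok TD_l1061 _)
          (CovZ.n1 (22080, 24480) (by decide +kernel)
           (CovZ.leaf K2_ok TD_l1062 _)
           (CovZ.leaf K2_ok TD_l1063 _)))))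
       (CovZ.subM 73391957901135749785351631544638875357652715518072767171087834577811706964157827981849810090493718070034432 (by decide +kernel)
        (CovZ.n1 (21696, 24384) (by decide +kernel)
         (CovZ.n2 (21696, 24576) (by decide +kernel)
          (CovZ.leaf K2_ok TD_l1064 _)
          (CovZ.n1 (21600, 24480) (by decide +kernel)
           (CovZ.leaf K2_ok TD_l1065 _)
           (CovZ.n1 (21696, 24480) (by decide +kernel)
            (CovZ.leaf K2_ok TD_l1066 _)
            (CovZ.leaf K2_ok TD_l1067 _))))
         (CovZ.n1 (21888, 24384) (by decide +kernel)
          (CovZ.n2 (21792, 24288) (by decide +kernel)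
           (CovZ.leaf K2_ok TD_l1068 _)
           (CovZ.n1 (21888, 24288) (by decide +kernel)
            (CovZ.n2 (21840, 24240) (by decide +kernel)
             (CovZ.leaf K2_ok TD_l1069 _)
             (CovZ.leaf K2_ok TD_l1070 _))
            (CovZ.leaf K2_ok TD_l1071 _)))
          (CovZ.n1 (21792, 24480) (by decide +kernel)
           (CovZ.n2 (21888, 24480) (by decide +kernel)
            (CovZ.leaf K2_ok TD_l1072 _)
            (CovZ.leaf K2_ok TD_l1073 _))
           (CovZ.n1 (21792, 24384) (by decide +kernel)
            (CovZ.leaf K2_ok TD_l1074 _)
            (CovZ.leaf K2_ok TD_l1075 _)))))))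
      (CovZ.n1 (22272, 24192) (by decide +kernel)
       (CovZ.n2 (22080, 24000) (by decide +kernel)
        (CovZ.n2 (22080, 24192) (by decide +kernel)
         (CovZ.n2 (22176, 24096) (by decide +kernel)
          (CovZ.leaf K2_ok TD_l1076 _)
          (CovZ.n1 (22176, 24192) (by decide +kernel)
           (CovZ.leaf K2_ok TD_l1077 _)
           (CovZ.leaf K2_ok TD_l1078 _)))
         (CovZ.subM 73391957969487335221403269162419122497117403679964820994388580113088660589536939070704381463660638601478144 (by decide +kernel)
          (CovZ.n1 (21984, 24096) (by decide +kernel)
           (CovZ.n2 (21984, 24192) (by decide +kernel)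
            (CovZ.leaf K2_ok TD_l1079 _)
            (CovZ.leaf K2_ok TD_l1080 _))
           (CovZ.n1 (22080, 24096) (by decide +kernel)
            (CovZ.n2 (22032, 24048) (by decide +kernel)
             (CovZ.leaf K2_ok TD_l1081 _)
             (CovZ.leaf K2_ok TD_l1082 _))
            (CovZ.leaf K2_ok TD_l1083 _)))))
        (CovZ.n1 (22272, 24000) (by decide +kernel)
         (CovZ.n2 (22176, 23904) (by decide +kernel)
          (CovZ.n2 (22176, 24000) (by decide +kernel)
           (CovZ.leaf K2_ok TD_l1084 _)
           (CovZ.n1 (22128, 23952) (by decide +kernel)
            (CovZ.leaf K2_ok TD_l1085 _)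
            (CovZ.leaf K2_ok TD_l1086 _)))
          (CovZ.n1 (22272, 23904) (by decide +kernel)
           (CovZ.n2 (22224, 23856) (by decide +kernel)
            (CovZ.leaf K2_ok TD_l1087 _)
            (CovZ.leaf K2_ok TD_l1088 _))
           (CovZ.leaf K2_ok TD_l1089 _)))
         (CovZ.n1 (22176, 24096) (by decide +kernel)
          (CovZ.n2 (22272, 24096) (by decide +kernel)
           (CovZ.leaf K2_ok TD_l1090 _)
           (CovZ.leaf K2_ok TD_l1091 _))
          (CovZ.n1 (22176, 24000) (by decide +kernel)
           (CovZ.leaf K2_ok TD_l1092 _)
           (CovZ.leaf K2_ok TD_l1093 _)))))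
       (CovZ.n1 (22080, 24384) (by decide +kernel)
        (CovZ.n2 (22272, 24384) (by decide +kernel)
         (CovZ.n2 (22176, 24288) (by decide +kernel)
          (CovZ.n2 (22176, 24384) (by decide +kernel)
           (CovZ.leaf K2_ok TD_l1094 _)
           (CovZ.leaf K2_ok TD_l1095 _))
          (CovZ.n1 (22272, 24288) (by decide +kernel)
           (CovZ.leaf K2_ok TD_l1096 _)
           (CovZ.leaf K2_ok TD_l1097 _)))
         (CovZ.n1 (22176, 24480) (by decide +kernel)
          (CovZ.n2 (22272, 24480) (by decide +kernel)
           (CovZ.leaf K2_ok TD_l1098 _)
           (CovZ.leaf K2_ok TD_l1099 _))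
          (CovZ.n1 (22176, 24384) (by decide +kernel)
           (CovZ.leaf K2_ok TD_l1100 _)
           (CovZ.leaf K2_ok TD_l1101 _))))
        (CovZ.n1 (22080, 24192) (by decide +kernel)
         (CovZ.subM 73391957969487335221403269162419122497117403679964820994388580113088660589536939070704381463660638601478144 (by decide +kernel)
          (CovZ.n2 (21984, 24288) (by decide +kernel)
           (CovZ.n2 (22080, 24288) (by decide +kernel)
            (CovZ.leaf K2_ok TD_l1102 _)
            (CovZ.leaf K2_ok TD_l1103 _))
           (CovZ.n1 (21984, 24192) (by decide +kernel)
            (CovZ.leaf K2_ok TD_l1104 _)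
            (CovZ.leaf K2_ok TD_l1105 _))))
         (CovZ.n1 (22176, 24288) (by decide +kernel)
          (CovZ.n2 (22176, 24192) (by decide +kernel)
           (CovZ.leaf K2_ok TD_l1106 _)
           (CovZ.leaf K2_ok TD_l1107 _))
          (CovZ.leaf K2_ok TD_l1108 _)))))))

theorem TD_u63 : CovZ TD_M (toL (selN TD_LN 2202736630793438522469866134487350618184039038680298258210867452189633265269432274099514051133440)) [0, 7, 6, 1] (19968, 24576) (20736, 24576) (20736, 25344) :=
    (CovZ.subM 89202980794122493804082912393988119432527872 (by decide +kernel)
      (CovZ.n2 (20352, 24960) (by decide +kernel)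
       (CovZ.n2 (20736, 24960) (by decide +kernel)
        (CovZ.n2 (20544, 24768) (by decide +kernel)
         (CovZ.n2 (20544, 24960) (by decide +kernel)
          (CovZ.n2 (20640, 24864) (by decide +kernel)
           (CovZ.badM (by decide +kernel))
           (CovZ.n1 (20640, 24960) (by decide +kernel)
            (CovZ.n2 (20688, 24912) (by decide +kernel)
             (CovZ.badM (by decide +kernel))
             (CovZ.badM (by decide +kernel)))
            (CovZ.badM (by decide +kernel))))
          (CovZ.badM (by decide +kernel)))
         (CovZ.n1 (20736, 24768) (by decide +kernel)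
          (CovZ.n2 (20640, 24672) (by decide +kernel)
           (CovZ.n2 (20640, 24768) (by decide +kernel)
            (CovZ.n2 (20688, 24720) (by decide +kernel)
             (CovZ.leaf K2_ok TD_l14630 _)
             (CovZ.n1 (20688, 24768) (by decide +kernel)
              (CovZ.leaf K2_ok TD_l14631 _)
              (CovZ.leaf K2_ok TD_l14632 _)))
            (CovZ.n1 (20592, 24720) (by decide +kernel)
             (CovZ.n2 (20592, 24768) (by decide +kernel)
              (CovZ.leaf K2_ok TD_l14633 _)
              (CovZ.n1 (20568, 24744) (by decide +kernel)
               (CovZ.leaf K2_ok TD_l14634 _)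
               (CovZ.leaf K2_ok TD_l14635 _)))
             (CovZ.n1 (20640, 24720) (by decide +kernel)
              (CovZ.leaf K2_ok TD_l14636 _)
              (CovZ.leaf K2_ok TD_l14637 _))))
           (CovZ.n1 (20736, 24672) (by decide +kernel)
            (CovZ.n2 (20688, 24624) (by decide +kernel)
             (CovZ.n2 (20688, 24672) (by decide +kernel)
              (CovZ.leaf K2_ok TD_l14638 _)
              (CovZ.leaf K2_ok TD_l14639 _))
             (CovZ.n1 (20736, 24624) (by decide +kernel)
              (CovZ.leaf K2_ok TD_l14640 _)
              (CovZ.leaf K2_ok TD_l14641 _)))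
            (CovZ.n1 (20688, 24720) (by decide +kernel)
             (CovZ.leaf K2_ok TD_l14642 _)
             (CovZ.n1 (20688, 24672) (by decide +kernel)
              (CovZ.leaf K2_ok TD_l14643 _)
              (CovZ.leaf K2_ok TD_l14644 _)))))
          (CovZ.n1 (20640, 24864) (by decide +kernel)
           (CovZ.n2 (20736, 24864) (by decide +kernel)
            (CovZ.n2 (20688, 24816) (by decide +kernel)
             (CovZ.n2 (20688, 24864) (by decide +kernel)
              (CovZ.leaf K2_ok TD_l14645 _)
              (CovZ.badM (by decide +kernel)))
             (CovZ.n1 (20736, 24816) (by decide +kernel)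
              (CovZ.n2 (20712, 24792) (by decide +kernel)
               (CovZ.leaf K2_ok TD_l14646 _)
               (CovZ.leaf K2_ok TD_l14647 _))
              (CovZ.leaf K2_ok TD_l14648 _)))
            (CovZ.n1 (20688, 24912) (by decide +kernel)
             (CovZ.n2 (20736, 24912) (by decide +kernel)
              (CovZ.n2 (20712, 24888) (by decide +kernel)
               (CovZ.n2 (20712, 24912) (by decide +kernel)
                (CovZ.leaf K2_ok TD_l14649 _)
                (CovZ.badM (by decide +kernel)))
               (CovZ.n1 (20736, 24888) (by decide +kernel)
                (CovZ.leaf K2_ok TD_l14650 _)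
                (CovZ.leaf K2_ok TD_l14651 _)))
              (CovZ.badM (by decide +kernel)))
             (CovZ.n1 (20688, 24864) (by decide +kernel)
              (CovZ.badM (by decide +kernel))
              (CovZ.n1 (20712, 24888) (by decide +kernel)
               (CovZ.n2 (20712, 24864) (by decide +kernel)
                (CovZ.badM (by decide +kernel))
                (CovZ.leaf K2_ok TD_l14652 _))
               (CovZ.badM (by decide +kernel))))))
           (CovZ.n1 (20640, 24768) (by decide +kernel)
            (CovZ.badM (by decide +kernel))
            (CovZ.n1 (20688, 24816) (by decide +kernel)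
             (CovZ.n2 (20688, 24768) (by decide +kernel)
              (CovZ.badM (by decide +kernel))
              (CovZ.n1 (20712, 24792) (by decide +kernel)
               (CovZ.leaf K2_ok TD_l14653 _)
               (CovZ.badM (by decide +kernel))))
             (CovZ.badM (by decide +kernel)))))))
        (CovZ.badM (by decide +kernel)))
       (CovZ.badM (by decide +kernel))))

theorem TD_u64 : CovZ TD_M (toL (selN TD_LN 2202736630793438522469866134487350618184039038680298258210867452189633265269432274099514051133440)) [0, 7, 6, 1] (20736, 24576) (21504, 24576) (20736, 25344) :=
    (CovZ.n1 (21120, 24960) (by decide +kernel)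
      (CovZ.n2 (21120, 24576) (by decide +kernel)
       (CovZ.subM 2135987035920910082395021706169552114602704522356652859150022401944713529863552944011081519464448 (by decide +kernel)
        (CovZ.n2 (20928, 24768) (by decide +kernel)
         (CovZ.n2 (21120, 24768) (by decide +kernel)
          (CovZ.n2 (21024, 24672) (by decide +kernel)
           (CovZ.n2 (21024, 24768) (by decide +kernel)
            (CovZ.leaf K2_ok TD_l234 _)
            (CovZ.n1 (20976, 24720) (by decide +kernel)
             (CovZ.leaf K2_ok TD_l235 _)
             (CovZ.leaf K2_ok TD_l236 _)))
           (CovZ.n1 (21120, 24672) (by decide +kernel)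
            (CovZ.leaf K2_ok TD_l237 _)
            (CovZ.leaf K2_ok TD_l238 _)))
          (CovZ.n1 (21024, 24864) (by decide +kernel)
           (CovZ.n2 (21120, 24864) (by decide +kernel)
            (CovZ.n2 (21072, 24816) (by decide +kernel)
             (CovZ.leaf K2_ok TD_l239 _)
             (CovZ.leaf K2_ok TD_l240 _))
            (CovZ.n1 (21072, 24912) (by decide +kernel)
             (CovZ.leaf K2_ok TD_l241 _)
             (CovZ.leaf K2_ok TD_l242 _)))
           (CovZ.n1 (21024, 24768) (by decide +kernel)
            (CovZ.n2 (20976, 24816) (by decide +kernel)
             (CovZ.leaf K2_ok TD_l243 _)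
             (CovZ.leaf K2_ok TD_l244 _))
            (CovZ.n1 (21072, 24816) (by decide +kernel)
             (CovZ.leaf K2_ok TD_l245 _)
             (CovZ.leaf K2_ok TD_l246 _)))))
         (CovZ.n1 (20928, 24576) (by decide +kernel)
          (CovZ.n2 (20832, 24672) (by decide +kernel)
           (CovZ.n2 (20928, 24672) (by decide +kernel)
            (CovZ.n2 (20880, 24624) (by decide +kernel)
             (CovZ.leaf K2_ok TD_l14654 _)
             (CovZ.leaf K2_ok TD_l14655 _))
            (CovZ.leaf K2_ok TD_l14656 _))
           (CovZ.n1 (20832, 24576) (by decide +kernel)
            (CovZ.n2 (20784, 24624) (by decide +kernel)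
             (CovZ.leaf K2_ok TD_l14657 _)
             (CovZ.n1 (20784, 24576) (by decide +kernel)
              (CovZ.leaf K2_ok TD_l14658 _)
              (CovZ.leaf K2_ok TD_l14659 _)))
            (CovZ.n1 (20880, 24624) (by decide +kernel)
             (CovZ.leaf K2_ok TD_l14660 _)
             (CovZ.leaf K2_ok TD_l14661 _))))
          (CovZ.n1 (21024, 24672) (by decide +kernel)
           (CovZ.n2 (21024, 24576) (by decide +kernel)
            (CovZ.leaf K2_ok TD_l247 _)
            (CovZ.leaf K2_ok TD_l248 _))
           (CovZ.leaf K2_ok TD_l249 _)))))
       (CovZ.n1 (21312, 24768) (by decide +kernel)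
        (CovZ.n2 (21312, 24576) (by decide +kernel)
         (CovZ.subM 2135987035920910082395021706169552114602704522356652859150022401944713529863552944011081519464448 (by decide +kernel)
          (CovZ.n2 (21216, 24672) (by decide +kernel)
           (CovZ.n2 (21312, 24672) (by decide +kernel)
            (CovZ.leaf K2_ok TD_l250 _)
            (CovZ.leaf K2_ok TD_l251 _))
           (CovZ.n1 (21216, 24576) (by decide +kernel)
            (CovZ.leaf K2_ok TD_l252 _)
            (CovZ.leaf K2_ok TD_l253 _))))
         (CovZ.n1 (21408, 24672) (by decide +kernel)
          (CovZ.n2 (21408, 24576) (by decide +kernel)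
           (CovZ.leaf K2_ok TD_l254 _)
           (CovZ.leaf K2_ok TD_l255 _))
          (CovZ.leaf K2_ok TD_l256 _)))
        (CovZ.subM 2135987035920910082395021706169552114602704522356652859150022401944713529863552944011081519464448 (by decide +kernel)
         (CovZ.n1 (21120, 24768) (by decide +kernel)
          (CovZ.n2 (21216, 24864) (by decide +kernel)
           (CovZ.n2 (21216, 24768) (by decide +kernel)
            (CovZ.leaf K2_ok TD_l257 _)
            (CovZ.leaf K2_ok TD_l258 _))
           (CovZ.n1 (21120, 24864) (by decide +kernel)
            (CovZ.n2 (21168, 24912) (by decide +kernel)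
             (CovZ.leaf K2_ok TD_l259 _)
             (CovZ.leaf K2_ok TD_l260 _))
            (CovZ.leaf K2_ok TD_l261 _)))
          (CovZ.n1 (21216, 24672) (by decide +kernel)
           (CovZ.leaf K2_ok TD_l262 _)
           (CovZ.n1 (21216, 24768) (by decide +kernel)
            (CovZ.leaf K2_ok TD_l263 _)
            (CovZ.leaf K2_ok TD_l264 _)))))))
      (CovZ.subM 2135987035920910082395021706169552114602704522356652859150022401944713529863552944011081519464448 (by decide +kernel)
       (CovZ.n1 (20736, 24960) (by decide +kernel)
        (CovZ.n2 (20928, 25152) (by decide +kernel)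
         (CovZ.n2 (20928, 24960) (by decide +kernel)
          (CovZ.badM (by decide +kernel))
          (CovZ.n1 (21024, 25056) (by decide +kernel)
           (CovZ.n2 (21024, 24960) (by decide +kernel)
            (CovZ.badM (by decide +kernel))
            (CovZ.n1 (21072, 25008) (by decide +kernel)
             (CovZ.n2 (21072, 24960) (by decide +kernel)
              (CovZ.badM (by decide +kernel))
              (CovZ.n1 (21096, 24984) (by decide +kernel)
               (CovZ.leaf K2_ok TD_l270 _)
               (CovZ.badM (by decide +kernel))))
             (CovZ.badM (by decide +kernel))))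
           (CovZ.badM (by decide +kernel))))
         (CovZ.badM (by decide +kernel)))
        (CovZ.n1 (20928, 24768) (by decide +kernel)
         (CovZ.n2 (20736, 24768) (by decide +kernel)
          (CovZ.n2 (20832, 24864) (by decide +kernel)
           (CovZ.n2 (20832, 24768) (by decide +kernel)
            (CovZ.n2 (20784, 24816) (by decide +kernel)
             (CovZ.n2 (20832, 24816) (by decide +kernel)
              (CovZ.leaf K2_ok TD_l14662 _)
              (CovZ.leaf K2_ok TD_l14663 _))
             (CovZ.n1 (20784, 24768) (by decide +kernel)
              (CovZ.leaf K2_ok TD_l14664 _)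
              (CovZ.leaf K2_ok TD_l14665 _)))
            (CovZ.n1 (20880, 24816) (by decide +kernel)
             (CovZ.leaf K2_ok TD_l14666 _)
             (CovZ.leaf K2_ok TD_l14667 _)))
           (CovZ.n1 (20736, 24864) (by decide +kernel)
            (CovZ.n2 (20784, 24912) (by decide +kernel)
             (CovZ.n2 (20784, 24864) (by decide +kernel)
              (CovZ.n2 (20760, 24888) (by decide +kernel)
               (CovZ.leaf K2_ok TD_l14668 _)
               (CovZ.leaf K2_ok TD_l14669 _))
              (CovZ.n1 (20808, 24888) (by decide +kernel)
               (CovZ.leaf K2_ok TD_l14670 _)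
               (CovZ.leaf K2_ok TD_l14671 _)))
             (CovZ.n1 (20736, 24912) (by decide +kernel)
              (CovZ.badM (by decide +kernel))
              (CovZ.n1 (20760, 24888) (by decide +kernel)
               (CovZ.n2 (20736, 24888) (by decide +kernel)
                (CovZ.leaf K2_ok TD_l14672 _)
                (CovZ.leaf K2_ok TD_l14673 _))
               (CovZ.leaf K2_ok TD_l14674 _))))
            (CovZ.n1 (20784, 24816) (by decide +kernel)
             (CovZ.n2 (20736, 24816) (by decide +kernel)
              (CovZ.n2 (20760, 24840) (by decide +kernel)
               (CovZ.leaf K2_ok TD_l14675 _)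
               (CovZ.leaf K2_ok TD_l14676 _))
              (CovZ.leaf K2_ok TD_l14677 _))
             (CovZ.n1 (20784, 24864) (by decide +kernel)
              (CovZ.leaf K2_ok TD_l14678 _)
              (CovZ.n1 (20760, 24840) (by decide +kernel)
               (CovZ.leaf K2_ok TD_l14679 _)
               (CovZ.leaf K2_ok TD_l14680 _))))))
          (CovZ.n1 (20832, 24672) (by decide +kernel)
           (CovZ.n2 (20736, 24672) (by decide +kernel)
            (CovZ.n2 (20784, 24720) (by decide +kernel)
             (CovZ.leaf K2_ok TD_l14681 _)
             (CovZ.leaf K2_ok TD_l14682 _))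
            (CovZ.leaf K2_ok TD_l14683 _))
           (CovZ.n1 (20832, 24768) (by decide +kernel)
            (CovZ.leaf K2_ok TD_l14684 _)
            (CovZ.n1 (20784, 24720) (by decide +kernel)
             (CovZ.leaf K2_ok TD_l14685 _)
             (CovZ.leaf K2_ok TD_l14686 _)))))
         (CovZ.n1 (20928, 24960) (by decide +kernel)
          (CovZ.n2 (21024, 24864) (by decide +kernel)
           (CovZ.n2 (20928, 24864) (by decide +kernel)
            (CovZ.n2 (20976, 24912) (by decide +kernel)
             (CovZ.n2 (20976, 24864) (by decide +kernel)
              (CovZ.leaf K2_ok TD_l14687 _)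
              (CovZ.leaf K2_ok TD_l273 _))
             (CovZ.n1 (20928, 24912) (by decide +kernel)
              (CovZ.n2 (20952, 24936) (by decide +kernel)
               (CovZ.leaf K2_ok TD_l14688 _)
               (CovZ.leaf K2_ok TD_l14689 _))
              (CovZ.leaf K2_ok TD_l14690 _)))
            (CovZ.leaf K2_ok TD_l274 _))
           (CovZ.n1 (21024, 24960) (by decide +kernel)
            (CovZ.n2 (21072, 24912) (by decide +kernel)
             (CovZ.leaf K2_ok TD_l275 _)
             (CovZ.n1 (21072, 24960) (by decide +kernel)
              (CovZ.leaf K2_ok TD_l276 _)
              (CovZ.n1 (21048, 24936) (by decide +kernel)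
               (CovZ.leaf K2_ok TD_l277 _)
               (CovZ.leaf K2_ok TD_l278 _))))
            (CovZ.n1 (20976, 24912) (by decide +kernel)
             (CovZ.n2 (20976, 24960) (by decide +kernel)
              (CovZ.leaf K2_ok TD_l279 _)
              (CovZ.n1 (20952, 24936) (by decide +kernel)
               (CovZ.badM (by decide +kernel))
               (CovZ.leaf K2_ok TD_l14691 _)))
             (CovZ.n1 (21024, 24912) (by decide +kernel)
              (CovZ.leaf K2_ok TD_l280 _)
              (CovZ.leaf K2_ok TD_l281 _)))))
          (CovZ.n1 (20832, 24864) (by decide +kernel)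
           (CovZ.n2 (20832, 24960) (by decide +kernel)
            (CovZ.n2 (20880, 24912) (by decide +kernel)
             (CovZ.n2 (20832, 24912) (by decide +kernel)
              (CovZ.n2 (20856, 24936) (by decide +kernel)
               (CovZ.leaf K2_ok TD_l14692 _)
               (CovZ.badM (by decide +kernel)))
              (CovZ.leaf K2_ok TD_l14693 _))
             (CovZ.n1 (20880, 24960) (by decide +kernel)
              (CovZ.leaf K2_ok TD_l14694 _)
              (CovZ.n1 (20856, 24936) (by decide +kernel)
               (CovZ.badM (by decide +kernel))
               (CovZ.leaf K2_ok TD_l14695 _))))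
            (CovZ.n1 (20784, 24912) (by decide +kernel)
             (CovZ.badM (by decide +kernel))
             (CovZ.n1 (20832, 24912) (by decide +kernel)
              (CovZ.n2 (20808, 24888) (by decide +kernel)
               (CovZ.leaf K2_ok TD_l14696 _)
               (CovZ.leaf K2_ok TD_l14697 _))
              (CovZ.badM (by decide +kernel)))))
           (CovZ.n1 (20928, 24864) (by decide +kernel)
            (CovZ.n2 (20880, 24816) (by decide +kernel)
             (CovZ.n2 (20880, 24864) (by decide +kernel)
              (CovZ.leaf K2_ok TD_l14698 _)
              (CovZ.leaf K2_ok TD_l14699 _))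
             (CovZ.leaf K2_ok TD_l14700 _))
            (CovZ.n1 (20880, 24912) (by decide +kernel)
             (CovZ.n2 (20928, 24912) (by decide +kernel)
              (CovZ.n2 (20904, 24888) (by decide +kernel)
               (CovZ.leaf K2_ok TD_l14701 _)
               (CovZ.leaf K2_ok TD_l14702 _))
              (CovZ.n1 (20904, 24936) (by decide +kernel)
               (CovZ.leaf K2_ok TD_l14703 _)
               (CovZ.leaf K2_ok TD_l14704 _)))
             (CovZ.n1 (20880, 24864) (by decide +kernel)
              (CovZ.leaf K2_ok TD_l14705 _)
              (CovZ.n1 (20904, 24888) (by decide +kernel)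
               (CovZ.leaf K2_ok TD_l14706 _)
               (CovZ.leaf K2_ok TD_l14707 _)))))))))))

theorem TD_u65 : CovZ TD_M (toL (selN TD_LN 73391957973892809501508134382012592494926718017322687429688345291074996872587151360373449050740903966146572)) [0, 7, 6, 1] (23040, 25344) (22656, 25344) (22656, 24960) :=
    (CovZ.subM 2202737649311426689712910152187647105399585635655698029020852467689043233515995758756180090945548 (by decide +kernel)
        (CovZ.n2 (22848, 25152) (by decide +kernel)
         (CovZ.n2 (22656, 25152) (by decide +kernel)
          (CovZ.subM 2202737649311426689712909268764114716207420844004011809057698394471440988817302026852604481372168 (by decide +kernel)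
           (CovZ.n2 (22752, 25248) (by decide +kernel)
            (CovZ.n2 (22752, 25152) (by decide +kernel)
             (CovZ.n2 (22704, 25200) (by decide +kernel)
              (CovZ.leaf K2_ok TD_l1109 _)
              (CovZ.leaf K2_ok TD_l1110 _))
             (CovZ.n1 (22800, 25200) (by decide +kernel)
              (CovZ.leaf K2_ok TD_l1111 _)
              (CovZ.leaf K2_ok TD_l1112 _)))
            (CovZ.n1 (22656, 25248) (by decide +kernel)
             (CovZ.n2 (22704, 25296) (by decide +kernel)
              (CovZ.n2 (22704, 25248) (by decide +kernel)
               (CovZ.leaf K2_ok TD_l1113 _)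
               (CovZ.leaf K2_ok TD_l1114 _))
              (CovZ.n1 (22656, 25296) (by decide +kernel)
               (CovZ.n2 (22680, 25320) (by decide +kernel)
                (CovZ.leaf K2_ok TD_l1115 _)
                (CovZ.leaf K2_ok TD_l1116 _))
               (CovZ.leaf K2_ok TD_l1117 _)))
             (CovZ.n1 (22704, 25200) (by decide +kernel)
              (CovZ.leaf K2_ok TD_l1118 _)
              (CovZ.leaf K2_ok TD_l1119 _)))))
          (CovZ.n1 (22752, 25056) (by decide +kernel)
           (CovZ.n2 (22656, 25056) (by decide +kernel)
            (CovZ.leaf K2_ok TD_l1120 _)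
            (CovZ.leaf K2_ok TD_l1121 _))
           (CovZ.n1 (22752, 25152) (by decide +kernel)
            (CovZ.leaf K2_ok TD_l1122 _)
            (CovZ.n1 (22704, 25104) (by decide +kernel)
             (CovZ.leaf K2_ok TD_l1123 _)
             (CovZ.leaf K2_ok TD_l1124 _)))))
         (CovZ.n1 (22848, 25344) (by decide +kernel)
          (CovZ.subM 66750613390516607317888446018094990796881113295938140846789985205432803009342437632582159958028 (by decide +kernel)
           (CovZ.n2 (22944, 25248) (by decide +kernel)
            (CovZ.subM 66750613390516607317887562594562601604716321647176351405990423784435898912107778614387319767048 (by decide +kernel)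
             (CovZ.n2 (22848, 25248) (by decide +kernel)
              (CovZ.subM 53919893334301279589334030174039261347274288845708334260713345253384 (by decide +kernel)
               (CovZ.n2 (22896, 25296) (by decide +kernel)
                (CovZ.n2 (22896, 25248) (by decide +kernel)
                 (CovZ.leaf K2_ok TD_l1125 _)
                 (CovZ.leaf K2_ok TD_l1126 _))
                (CovZ.n1 (22848, 25296) (by decide +kernel)
                 (CovZ.n2 (22872, 25320) (by decide +kernel)
                  (CovZ.leaf K2_ok TD_l1127 _)
                  (CovZ.leaf K2_ok TD_l1128 _))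
                 (CovZ.leaf K2_ok TD_l1129 _))))
              (CovZ.leaf K2_ok TD_l1130 _)))
            (CovZ.n1 (22944, 25344) (by decide +kernel)
             (CovZ.subM 883477452282526466071238095819614838822768271192942315803980402060689420 (by decide +kernel)
              (CovZ.n2 (22992, 25296) (by decide +kernel)
               (CovZ.n2 (22944, 25296) (by decide +kernel)
                (CovZ.n2 (22968, 25320) (by decide +kernel)
                 (CovZ.leaf K2_ok TD_l1131 _)
                 (CovZ.leaf K2_ok TD_l1132 _))
                (CovZ.leaf K2_ok TD_l1133 _))
               (CovZ.n1 (22992, 25344) (by decide +kernel)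
                (CovZ.leaf K2_ok TD_l1134 _)
                (CovZ.n1 (22968, 25320) (by decide +kernel)
                 (CovZ.leaf K2_ok TD_l1135 _)
                 (CovZ.leaf K2_ok TD_l1136 _)))))
             (CovZ.subM 53919893334301279589334030174039261347274288845708334260713345253384 (by decide +kernel)
              (CovZ.n1 (22896, 25296) (by decide +kernel)
               (CovZ.n2 (22896, 25344) (by decide +kernel)
                (CovZ.leaf K2_ok TD_l1137 _)
                (CovZ.n1 (22872, 25320) (by decide +kernel)
                 (CovZ.leaf K2_ok TD_l1138 _)
                 (CovZ.leaf K2_ok TD_l1139 _)))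
               (CovZ.n1 (22944, 25296) (by decide +kernel)
                (CovZ.n2 (22920, 25272) (by decide +kernel)
                 (CovZ.leaf K2_ok TD_l1140 _)
                 (CovZ.leaf K2_ok TD_l1141 _))
                (CovZ.n1 (22920, 25320) (by decide +kernel)
                 (CovZ.leaf K2_ok TD_l1142 _)
                 (CovZ.leaf K2_ok TD_l1143 _))))))))
          (CovZ.subM 2202737649311426689712909268764114716207420844004011809057698394471440988817302026852604481372168 (by decide +kernel)
           (CovZ.n1 (22752, 25248) (by decide +kernel)
            (CovZ.subM 2135987035920910082395021706223472007937005801946169487825747232034279378750863383167773874061320 (by decide +kernel)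
             (CovZ.n2 (22752, 25344) (by decide +kernel)
              (CovZ.subM 53919893334301279589516717878705624212049749449760976150022917718024 (by decide +kernel)
               (CovZ.n2 (22800, 25296) (by decide +kernel)
                (CovZ.n2 (22752, 25296) (by decide +kernel)
                 (CovZ.n2 (22776, 25320) (by decide +kernel)
                  (CovZ.leaf K2_ok TD_l1144 _)
                  (CovZ.leaf K2_ok TD_l1145 _))
                 (CovZ.leaf K2_ok TD_l1146 _))
                (CovZ.n1 (22800, 25344) (by decide +kernel)
                 (CovZ.leaf K2_ok TD_l1147 _)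
                 (CovZ.n1 (22776, 25320) (by decide +kernel)
                  (CovZ.leaf K2_ok TD_l1148 _)
                  (CovZ.leaf K2_ok TD_l1149 _)))))
              (CovZ.n1 (22704, 25296) (by decide +kernel)
               (CovZ.n2 (22704, 25344) (by decide +kernel)
                (CovZ.leaf K2_ok TD_l1150 _)
                (CovZ.n1 (22680, 25320) (by decide +kernel)
                 (CovZ.leaf K2_ok TD_l1151 _)
                 (CovZ.leaf K2_ok TD_l1152 _)))
               (CovZ.n1 (22752, 25296) (by decide +kernel)
                (CovZ.leaf K2_ok TD_l1153 _)
                (CovZ.n1 (22728, 25320) (by decide +kernel)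
                 (CovZ.leaf K2_ok TD_l1154 _)
                 (CovZ.leaf K2_ok TD_l1155 _))))))
            (CovZ.n1 (22848, 25248) (by decide +kernel)
             (CovZ.n2 (22800, 25200) (by decide +kernel)
              (CovZ.leaf K2_ok TD_l1156 _)
              (CovZ.leaf K2_ok TD_l1157 _))
             (CovZ.subM 53919893334301279589516717878705624212049749449797869638170336821256 (by decide +kernel)
              (CovZ.n1 (22800, 25296) (by decide +kernel)
               (CovZ.n2 (22848, 25296) (by decide +kernel)
                (CovZ.leaf K2_ok TD_l1158 _)
                (CovZ.n1 (22824, 25320) (by decide +kernel)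
                 (CovZ.leaf K2_ok TD_l1159 _)
                 (CovZ.leaf K2_ok TD_l1160 _)))
               (CovZ.n1 (22800, 25248) (by decide +kernel)
                (CovZ.leaf K2_ok TD_l1161 _)
                (CovZ.leaf K2_ok TD_l1162 _))))))))))

theorem TD_u66 : CovZ TD_M (toL (selN TD_LN 73391957973892809501508134382012592494926718017322687429688345291074996872587151360373449050740903966146572)) [0, 7, 6, 1] (22656, 25344) (22272, 25344) (22656, 24960) :=
    (CovZ.subM 70687821988649937023016433094552461459801882842648255816315690405029712334059837889267536295362568 (by decide +kernel)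
        (CovZ.n1 (22464, 25152) (by decide +kernel)
         (CovZ.n2 (22464, 25344) (by decide +kernel)
          (CovZ.subM 2336236839056483577273291836587948230478632917210068936155682162411089087923834569200504762531848 (by decide +kernel)
           (CovZ.n2 (22560, 25248) (by decide +kernel)
            (CovZ.n2 (22464, 25248) (by decide +kernel)
             (CovZ.n2 (22512, 25296) (by decide +kernel)
              (CovZ.n2 (22512, 25248) (by decide +kernel)
               (CovZ.leaf K2_ok TD_l1163 _)
               (CovZ.n1 (22536, 25272) (by decide +kernel)
                (CovZ.leaf K2_ok TD_l1164 _)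
                (CovZ.leaf K2_ok TD_l1165 _)))
              (CovZ.n1 (22464, 25296) (by decide +kernel)
               (CovZ.n2 (22488, 25320) (by decide +kernel)
                (CovZ.leaf K2_ok TD_l18023 _)
                (CovZ.leaf K2_ok TD_l18024 _))
               (CovZ.leaf K2_ok TD_l1166 _)))
             (CovZ.n1 (22512, 25200) (by decide +kernel)
              (CovZ.leaf K2_ok TD_l1167 _)
              (CovZ.leaf K2_ok TD_l1168 _)))
            (CovZ.n1 (22560, 25344) (by decide +kernel)
             (CovZ.subM 2135988054438898249638064840446316212626086327680183633089206187240352517116635571149869674397704 (by decide +kernel)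
              (CovZ.n2 (22608, 25296) (by decide +kernel)
               (CovZ.n2 (22560, 25296) (by decide +kernel)
                (CovZ.n2 (22584, 25320) (by decide +kernel)
                 (CovZ.leaf K2_ok TD_l14744 _)
                 (CovZ.badM (by decide +kernel)))
                (CovZ.leaf K2_ok TD_l1169 _))
               (CovZ.n1 (22608, 25344) (by decide +kernel)
                (CovZ.leaf K2_ok TD_l1170 _)
                (CovZ.n1 (22584, 25320) (by decide +kernel)
                 (CovZ.badM (by decide +kernel))
                 (CovZ.leaf K2_ok TD_l14745 _)))))
             (CovZ.n1 (22512, 25296) (by decide +kernel)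
              (CovZ.subM 133499189745056887560382567823833514271212073203316900730969119089884831386575410882875427389440 (by decide +kernel)
               (CovZ.n2 (22512, 25344) (by decide +kernel)
                (CovZ.n2 (22536, 25320) (by decide +kernel)
                 (CovZ.leaf K2_ok TD_l18025 _)
                 (CovZ.leaf K2_ok TD_l18026 _))
                (CovZ.n1 (22488, 25320) (by decide +kernel)
                 (CovZ.badM (by decide +kernel))
                 (CovZ.leaf K2_ok TD_l18027 _))))
              (CovZ.subM 2269487244183955129787753697081913219788755360327474431210896287729241249977925605526304804831240 (by decide +kernel)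
               (CovZ.n1 (22560, 25296) (by decide +kernel)
                (CovZ.n2 (22536, 25272) (by decide +kernel)
                 (CovZ.leaf K2_ok TD_l1171 _)
                 (CovZ.leaf K2_ok TD_l1172 _))
                (CovZ.n1 (22536, 25320) (by decide +kernel)
                 (CovZ.badM (by decide +kernel))
                 (CovZ.leaf K2_ok TD_l18028 _))))))))
          (CovZ.n1 (22368, 25248) (by decide +kernel)
           (CovZ.subM 1018642318983756183506003846167168630055904671003450780527378611175445650176044858559430664 (by decide +kernel)
            (CovZ.n2 (22368, 25344) (by decide +kernel)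
             (CovZ.n2 (22416, 25296) (by decide +kernel)
              (CovZ.n2 (22368, 25296) (by decide +kernel)
               (CovZ.n2 (22392, 25320) (by decide +kernel)
                (CovZ.leaf K2_ok TD_l14746 _)
                (CovZ.leaf K2_ok TD_l14747 _))
               (CovZ.leaf K2_ok TD_l1173 _))
              (CovZ.subM 1018642318983756183505949926273834328776315336973276741266031336847310479893607203127427072 (by decide +kernel)
               (CovZ.n1 (22416, 25344) (by decide +kernel)
                (CovZ.n2 (22440, 25320) (by decide +kernel)
                 (CovZ.leaf K2_ok TD_l14748 _)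
                 (CovZ.leaf K2_ok TD_l18029 _))
                (CovZ.n1 (22392, 25320) (by decide +kernel)
                 (CovZ.leaf K2_ok TD_l18030 _)
                 (CovZ.leaf K2_ok TD_l14749 _)))))
             (CovZ.n1 (22320, 25296) (by decide +kernel)
              (CovZ.subM 1018642318983756183505949926273834328776315336973276741266031336808624853665939069536829440 (by decide +kernel)
               (CovZ.n2 (22320, 25344) (by decide +kernel)
                (CovZ.n2 (22344, 25320) (by decide +kernel)
                 (CovZ.leaf K2_ok TD_l14750 _)
                 (CovZ.leaf K2_ok TD_l14751 _))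
                (CovZ.n1 (22296, 25320) (by decide +kernel)
                 (CovZ.leaf K2_ok TD_l18031 _)
                 (CovZ.n1 (22320, 25320) (by decide +kernel)
                  (CovZ.leaf K2_ok TD_l18032 _)
                  (CovZ.leaf K2_ok TD_l18033 _)))))
              (CovZ.n1 (22368, 25296) (by decide +kernel)
               (CovZ.n2 (22344, 25272) (by decide +kernel)
                (CovZ.leaf K2_ok TD_l1174 _)
                (CovZ.leaf K2_ok TD_l1175 _))
               (CovZ.n1 (22344, 25320) (by decide +kernel)
                (CovZ.leaf K2_ok TD_l14752 _)
                (CovZ.leaf K2_ok TD_l14753 _))))))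
           (CovZ.n1 (22464, 25248) (by decide +kernel)
            (CovZ.n2 (22416, 25200) (by decide +kernel)
             (CovZ.leaf K2_ok TD_l1176 _)
             (CovZ.n1 (22464, 25200) (by decide +kernel)
              (CovZ.leaf K2_ok TD_l1177 _)
              (CovZ.leaf K2_ok TD_l1178 _)))
            (CovZ.subM 2269487244308285946300894068808995288934003610908614571519512235690353420702068647476870537805832 (by decide +kernel)
             (CovZ.n1 (22416, 25296) (by decide +kernel)
              (CovZ.n2 (22464, 25296) (by decide +kernel)
               (CovZ.n2 (22440, 25272) (by decide +kernel)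
                (CovZ.leaf K2_ok TD_l1179 _)
                (CovZ.leaf K2_ok TD_l1180 _))
               (CovZ.n1 (22440, 25320) (by decide +kernel)
                (CovZ.n2 (22464, 25320) (by decide +kernel)
                 (CovZ.leaf K2_ok TD_l18034 _)
                 (CovZ.leaf K2_ok TD_l18035 _))
                (CovZ.leaf K2_ok TD_l14754 _)))
              (CovZ.n1 (22416, 25248) (by decide +kernel)
               (CovZ.leaf K2_ok TD_l1181 _)
               (CovZ.n1 (22440, 25272) (by decide +kernel)
                (CovZ.leaf K2_ok TD_l1182 _)
                (CovZ.leaf K2_ok TD_l1183 _))))))))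
         (CovZ.n1 (22656, 25152) (by decide +kernel)
          (CovZ.n2 (22560, 25056) (by decide +kernel)
           (CovZ.n2 (22560, 25152) (by decide +kernel)
            (CovZ.leaf K2_ok TD_l1184 _)
            (CovZ.n1 (22512, 25104) (by decide +kernel)
             (CovZ.leaf K2_ok TD_l1185 _)
             (CovZ.leaf K2_ok TD_l1186 _)))
           (CovZ.n1 (22656, 25056) (by decide +kernel)
            (CovZ.leaf K2_ok TD_l1187 _)
            (CovZ.leaf K2_ok TD_l1188 _)))
          (CovZ.n1 (22560, 25248) (by decide +kernel)
           (CovZ.subM 2202737649311426689712909268764114716207420844004011809057698394472074814117416141553352866529288 (by decide +kernel)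
            (CovZ.n2 (22656, 25248) (by decide +kernel)
             (CovZ.n2 (22608, 25200) (by decide +kernel)
              (CovZ.leaf K2_ok TD_l1189 _)
              (CovZ.leaf K2_ok TD_l1190 _))
             (CovZ.subM 2135988054438898249638064840446316212626086327680366320793872550105127977720725106527326665965576 (by decide +kernel)
              (CovZ.n1 (22608, 25296) (by decide +kernel)
               (CovZ.n2 (22656, 25296) (by decide +kernel)
                (CovZ.leaf K2_ok TD_l1191 _)
                (CovZ.n1 (22632, 25320) (by decide +kernel)
                 (CovZ.leaf K2_ok TD_l1192 _)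
                 (CovZ.leaf K2_ok TD_l1193 _)))
               (CovZ.n1 (22608, 25248) (by decide +kernel)
                (CovZ.leaf K2_ok TD_l1194 _)
                (CovZ.leaf K2_ok TD_l1195 _))))))
           (CovZ.n1 (22560, 25152) (by decide +kernel)
            (CovZ.n2 (22512, 25200) (by decide +kernel)
             (CovZ.leaf K2_ok TD_l1196 _)
             (CovZ.leaf K2_ok TD_l1197 _))
            (CovZ.n1 (22608, 25200) (by decide +kernel)
             (CovZ.leaf K2_ok TD_l1198 _)
             (CovZ.leaf K2_ok TD_l1199 _)))))))

theorem TD_u67 : CovZ TD_M (toL (selN TD_LN 73391957973892809501508134382012592494926718017322687429688345291074996872587151360373449050740903966146572)) [0, 7, 6, 1] (23040, 26112) (22272, 25344) (23040, 24576) :=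
    (CovZ.n2 (23040, 25344) (by decide +kernel)
     (CovZ.n2 (22656, 24960) (by decide +kernel)
      (CovZ.n2 (22656, 25344) (by decide +kernel)
       TD_u65
       TD_u66)
      (CovZ.subM 6474711721153246854502953564526751334604994680369003568914935683333483923017325385568815601942540 (by decide +kernel)
       (CovZ.n1 (23040, 24960) (by decide +kernel)
        (CovZ.n2 (22848, 24768) (by decide +kernel)
         (CovZ.n2 (22848, 24960) (by decide +kernel)
          (CovZ.leaf K2_ok TD_l1200 _)
          (CovZ.n1 (22752, 24864) (by decide +kernel)
           (CovZ.leaf K2_ok TD_l1201 _)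
           (CovZ.leaf K2_ok TD_l1202 _)))
         (CovZ.n1 (23040, 24768) (by decide +kernel)
          (CovZ.n2 (22944, 24672) (by decide +kernel)
           (CovZ.leaf K2_ok TD_l1203 _)
           (CovZ.leaf K2_ok TD_l1204 _))
          (CovZ.leaf K2_ok TD_l1205 _)))
        (CovZ.n1 (22848, 25152) (by decide +kernel)
         (CovZ.n2 (23040, 25152) (by decide +kernel)
          (CovZ.n2 (22944, 25056) (by decide +kernel)
           (CovZ.n2 (22944, 25152) (by decide +kernel)
            (CovZ.leaf K2_ok TD_l1206 _)
            (CovZ.leaf K2_ok TD_l1207 _))
           (CovZ.n1 (23040, 25056) (by decide +kernel)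
            (CovZ.leaf K2_ok TD_l1208 _)
            (CovZ.leaf K2_ok TD_l1209 _)))
          (CovZ.subM 66750613390516607317888446018094990796881113295939568094482691165313861295311887127718542704652 (by decide +kernel)
           (CovZ.n1 (22944, 25248) (by decide +kernel)
            (CovZ.n2 (23040, 25248) (by decide +kernel)
             (CovZ.n2 (22992, 25200) (by decide +kernel)
              (CovZ.leaf K2_ok TD_l1210 _)
              (CovZ.leaf K2_ok TD_l1211 _))
             (CovZ.subM 883477452282526466071238095819614838822768271192942315803980402060689420 (by decide +kernel)
              (CovZ.n1 (22992, 25296) (by decide +kernel)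
               (CovZ.n2 (23040, 25296) (by decide +kernel)
                (CovZ.leaf K2_ok TD_l1212 _)
                (CovZ.leaf K2_ok TD_l1213 _))
               (CovZ.n1 (22992, 25248) (by decide +kernel)
                (CovZ.leaf K2_ok TD_l1214 _)
                (CovZ.leaf K2_ok TD_l1215 _)))))
            (CovZ.n1 (22944, 25152) (by decide +kernel)
             (CovZ.n2 (22896, 25200) (by decide +kernel)
              (CovZ.leaf K2_ok TD_l1216 _)
              (CovZ.leaf K2_ok TD_l1217 _))
             (CovZ.n1 (22992, 25200) (by decide +kernel)
              (CovZ.leaf K2_ok TD_l1218 _)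
              (CovZ.leaf K2_ok TD_l1219 _))))))
         (CovZ.n1 (22848, 24960) (by decide +kernel)
          (CovZ.n2 (22752, 25056) (by decide +kernel)
           (CovZ.n2 (22848, 25056) (by decide +kernel)
            (CovZ.leaf K2_ok TD_l1220 _)
            (CovZ.leaf K2_ok TD_l1221 _))
           (CovZ.leaf K2_ok TD_l1222 _))
          (CovZ.n1 (22944, 25056) (by decide +kernel)
           (CovZ.leaf K2_ok TD_l1223 _)
           (CovZ.leaf K2_ok TD_l1224 _)))))))
     (CovZ.subM 2269486225665966962544710562859069015099674834593471703928978980202850519861403920348924704980996 (by decide +kernel)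
      (CovZ.n1 (22656, 25728) (by decide +kernel)
       (CovZ.subM 2135987035920910082395021706223472007937005801946180905807288879713327845038655872617012355137536 (by decide +kernel)
        (CovZ.n2 (23040, 25728) (by decide +kernel)
         (CovZ.n2 (22848, 25536) (by decide +kernel)
          (CovZ.n2 (22848, 25728) (by decide +kernel)
           (CovZ.badM (by decide +kernel))
           (CovZ.n1 (22752, 25632) (by decide +kernel)
            (CovZ.badM (by decide +kernel))
            (CovZ.badM (by decide +kernel))))
          (CovZ.subM 53919893334301279589345448155580909026322755133463930221804407226368 (by decide +kernel)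
           (CovZ.n1 (23040, 25536) (by decide +kernel)
            (CovZ.n2 (22944, 25440) (by decide +kernel)
             (CovZ.badM (by decide +kernel))
             (CovZ.n1 (23040, 25440) (by decide +kernel)
              (CovZ.n2 (22992, 25392) (by decide +kernel)
               (CovZ.badM (by decide +kernel))
               (CovZ.n1 (23040, 25392) (by decide +kernel)
                (CovZ.n2 (23016, 25368) (by decide +kernel)
                 (CovZ.n2 (23016, 25392) (by decide +kernel)
                  (CovZ.leaf K2_ok TD_l14755 _)
                  (CovZ.badM (by decide +kernel)))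
                 (CovZ.n1 (23040, 25368) (by decide +kernel)
                  (CovZ.leaf K2_ok TD_l14756 _)
                  (CovZ.leaf K2_ok TD_l14757 _)))
                (CovZ.badM (by decide +kernel))))
              (CovZ.badM (by decide +kernel))))
            (CovZ.badM (by decide +kernel)))))
         (CovZ.n1 (22848, 25920) (by decide +kernel)
          (CovZ.badM (by decide +kernel))
          (CovZ.n1 (22848, 25728) (by decide +kernel)
           (CovZ.badM (by decide +kernel))
           (CovZ.badM (by decide +kernel))))))
       (CovZ.n1 (22656, 25344) (by decide +kernel)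
        (CovZ.subM 133499189745056880149688856635597007162669032647290798121690100488888848918171023223845115920384 (by decide +kernel)
         (CovZ.n2 (22464, 25536) (by decide +kernel)
          (CovZ.n2 (22656, 25536) (by decide +kernel)
           (CovZ.n2 (22560, 25440) (by decide +kernel)
            (CovZ.badM (by decide +kernel))
            (CovZ.badM (by decide +kernel)))
           (CovZ.badM (by decide +kernel)))
          (CovZ.n1 (22464, 25344) (by decide +kernel)
           (CovZ.n2 (22368, 25440) (by decide +kernel)
            (CovZ.badM (by decide +kernel))
            (CovZ.n1 (22368, 25344) (by decide +kernel)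
             (CovZ.n2 (22320, 25392) (by decide +kernel)
              (CovZ.badM (by decide +kernel))
              (CovZ.n1 (22320, 25344) (by decide +kernel)
               (CovZ.badM (by decide +kernel))
               (CovZ.badM (by decide +kernel))))
             (CovZ.badM (by decide +kernel))))
           (CovZ.n1 (22560, 25440) (by decide +kernel)
            (CovZ.n2 (22560, 25344) (by decide +kernel)
             (CovZ.n2 (22512, 25392) (by decide +kernel)
              (CovZ.n2 (22560, 25392) (by decide +kernel)
               (CovZ.n2 (22536, 25368) (by decide +kernel)
                (CovZ.badM (by decide +kernel))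
                (CovZ.badM (by decide +kernel)))
               (CovZ.badM (by decide +kernel)))
              (CovZ.n1 (22512, 25344) (by decide +kernel)
               (CovZ.badM (by decide +kernel))
               (CovZ.n1 (22536, 25368) (by decide +kernel)
                (CovZ.n2 (22536, 25344) (by decide +kernel)
                 (CovZ.leaf K2_ok TD_l18036 _)
                 (CovZ.badM (by decide +kernel)))
                (CovZ.badM (by decide +kernel)))))
             (CovZ.badM (by decide +kernel)))
            (CovZ.badM (by decide +kernel))))))
        (CovZ.n1 (22848, 25536) (by decide +kernel)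
         (CovZ.n2 (22848, 25344) (by decide +kernel)
          (CovZ.subM 182687704666362864785364124551392372245860974592 (by decide +kernel)
           (CovZ.n2 (22752, 25440) (by decide +kernel)
            (CovZ.n2 (22848, 25440) (by decide +kernel)
             (CovZ.n2 (22800, 25392) (by decide +kernel)
              (CovZ.n2 (22800, 25440) (by decide +kernel)
               (CovZ.badM (by decide +kernel))
               (CovZ.n1 (22776, 25416) (by decide +kernel)
                (CovZ.badM (by decide +kernel))
                (CovZ.n1 (22800, 25416) (by decide +kernel)
                 (CovZ.n2 (22788, 25404) (by decide +kernel)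
                  (CovZ.badM (by decide +kernel))
                  (CovZ.badM (by decide +kernel)))
                 (CovZ.badM (by decide +kernel)))))
              (CovZ.badM (by decide +kernel)))
             (CovZ.badM (by decide +kernel)))
            (CovZ.n1 (22752, 25344) (by decide +kernel)
             (CovZ.n2 (22704, 25392) (by decide +kernel)
              (CovZ.n2 (22752, 25392) (by decide +kernel)
               (CovZ.n2 (22728, 25368) (by decide +kernel)
                (CovZ.badM (by decide +kernel))
                (CovZ.n1 (22752, 25368) (by decide +kernel)
                 (CovZ.leaf K2_ok TD_l14758 _)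
                 (CovZ.badM (by decide +kernel))))
               (CovZ.badM (by decide +kernel)))
              (CovZ.n1 (22704, 25344) (by decide +kernel)
               (CovZ.n2 (22680, 25368) (by decide +kernel)
                (CovZ.badM (by decide +kernel))
                (CovZ.leaf K2_ok TD_l14759 _))
               (CovZ.n1 (22728, 25368) (by decide +kernel)
                (CovZ.leaf K2_ok TD_l14760 _)
                (CovZ.badM (by decide +kernel)))))
             (CovZ.n1 (22800, 25392) (by decide +kernel)
              (CovZ.n2 (22800, 25344) (by decide +kernel)
               (CovZ.n2 (22776, 25368) (by decide +kernel)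
                (CovZ.n2 (22800, 25368) (by decide +kernel)
                 (CovZ.leaf K2_ok TD_l14761 _)
                 (CovZ.leaf K2_ok TD_l14762 _))
                (CovZ.n1 (22776, 25344) (by decide +kernel)
                 (CovZ.leaf K2_ok TD_l14763 _)
                 (CovZ.leaf K2_ok TD_l14764 _)))
               (CovZ.badM (by decide +kernel)))
              (CovZ.n1 (22752, 25392) (by decide +kernel)
               (CovZ.n2 (22776, 25416) (by decide +kernel)
                (CovZ.n2 (22776, 25392) (by decide +kernel)
                 (CovZ.badM (by decide +kernel))
                 (CovZ.n1 (22788, 25404) (by decide +kernel)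
                  (CovZ.leaf K2_ok TD_l14765 _)
                  (CovZ.badM (by decide +kernel))))
                (CovZ.badM (by decide +kernel)))
               (CovZ.n1 (22776, 25368) (by decide +kernel)
                (CovZ.n2 (22752, 25368) (by decide +kernel)
                 (CovZ.n2 (22764, 25380) (by decide +kernel)
                  (CovZ.leaf K2_ok TD_l14766 _)
                  (CovZ.badM (by decide +kernel)))
                 (CovZ.leaf K2_ok TD_l14767 _))
                (CovZ.n1 (22776, 25392) (by decide +kernel)
                 (CovZ.leaf K2_ok TD_l14768 _)
                 (CovZ.n1 (22764, 25380) (by decide +kernel)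
                  (CovZ.badM (by decide +kernel))
                  (CovZ.leaf K2_ok TD_l14769 _)))))))))
          (CovZ.subM 53919893334301279589345448155580909026322755133463930221804407226372 (by decide +kernel)
           (CovZ.n1 (22944, 25440) (by decide +kernel)
            (CovZ.n2 (22944, 25344) (by decide +kernel)
             (CovZ.n2 (22896, 25392) (by decide +kernel)
              (CovZ.n2 (22944, 25392) (by decide +kernel)
               (CovZ.n2 (22920, 25368) (by decide +kernel)
                (CovZ.badM (by decide +kernel))
                (CovZ.badM (by decide +kernel)))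
               (CovZ.badM (by decide +kernel)))
              (CovZ.n1 (22896, 25344) (by decide +kernel)
               (CovZ.badM (by decide +kernel))
               (CovZ.n1 (22920, 25368) (by decide +kernel)
                (CovZ.leaf K2_ok TD_l14770 _)
                (CovZ.badM (by decide +kernel)))))
             (CovZ.n1 (22992, 25392) (by decide +kernel)
              (CovZ.n2 (22992, 25344) (by decide +kernel)
               (CovZ.badM (by decide +kernel))
               (CovZ.n1 (23016, 25368) (by decide +kernel)
                (CovZ.leaf K2_ok TD_l1226 _)
                (CovZ.badM (by decide +kernel))))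
              (CovZ.badM (by decide +kernel))))
            (CovZ.badM (by decide +kernel)))))
         (CovZ.subM 9903520314283042199192993792 (by decide +kernel)
          (CovZ.n1 (22656, 25536) (by decide +kernel)
           (CovZ.n2 (22752, 25632) (by decide +kernel)
            (CovZ.n2 (22752, 25536) (by decide +kernel)
             (CovZ.badM (by decide +kernel))
             (CovZ.badM (by decide +kernel)))
            (CovZ.badM (by decide +kernel)))
           (CovZ.n1 (22752, 25440) (by decide +kernel)
            (CovZ.badM (by decide +kernel))
            (CovZ.n1 (22752, 25536) (by decide +kernel)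
             (CovZ.badM (by decide +kernel))
             (CovZ.badM (by decide +kernel)))))))))))

theorem TD_u68 : CovZ TD_M (toL (selN TD_LN 73391957973892809501508134382012592494926718017322687429688345291074996872587151360373449050740903966146572)) [0, 7, 6, 1] (22272, 25344) (21504, 24576) (23040, 24576) :=
    (CovZ.n1 (22272, 24576) (by decide +kernel)
     (CovZ.n2 (21888, 24960) (by decide +kernel)
      (CovZ.n2 (22272, 24960) (by decide +kernel)
       (CovZ.n2 (22080, 24768) (by decide +kernel)
        (CovZ.n2 (22080, 24960) (by decide +kernel)
         (CovZ.leaf K2_ok TD_l1227 _)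
         (CovZ.n1 (21984, 24864) (by decide +kernel)
          (CovZ.leaf K2_ok TD_l1228 _)
          (CovZ.leaf K2_ok TD_l1229 _)))
        (CovZ.n1 (22272, 24768) (by decide +kernel)
         (CovZ.n2 (22176, 24672) (by decide +kernel)
          (CovZ.leaf K2_ok TD_l1230 _)
          (CovZ.n1 (22272, 24672) (by decide +kernel)
           (CovZ.leaf K2_ok TD_l1231 _)
           (CovZ.leaf K2_ok TD_l1232 _)))
         (CovZ.n1 (22176, 24864) (by decide +kernel)
          (CovZ.leaf K2_ok TD_l1233 _)
          (CovZ.n1 (22176, 24768) (by decide +kernel)
           (CovZ.leaf K2_ok TD_l1234 _)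
           (CovZ.leaf K2_ok TD_l1235 _)))))
       (CovZ.n1 (22080, 25152) (by decide +kernel)
        (CovZ.n2 (22272, 25152) (by decide +kernel)
         (CovZ.n2 (22176, 25056) (by decide +kernel)
          (CovZ.n2 (22176, 25152) (by decide +kernel)
           (CovZ.leaf K2_ok TD_l1236 _)
           (CovZ.n1 (22128, 25104) (by decide +kernel)
            (CovZ.leaf K2_ok TD_l1237 _)
            (CovZ.leaf K2_ok TD_l1238 _)))
          (CovZ.n1 (22272, 25056) (by decide +kernel)
           (CovZ.leaf K2_ok TD_l1239 _)
           (CovZ.leaf K2_ok TD_l1240 _)))
         (CovZ.subM 2257805047868374988687406077237038404738377448601075960099081552097253676817992922710960409721962504 (by decide +kernel)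
          (CovZ.n1 (22176, 25248) (by decide +kernel)
           (CovZ.n2 (22272, 25248) (by decide +kernel)
            (CovZ.n2 (22224, 25200) (by decide +kernel)
             (CovZ.n2 (22224, 25248) (by decide +kernel)
              (CovZ.leaf K2_ok TD_l1241 _)
              (CovZ.leaf K2_ok TD_l1242 _))
             (CovZ.n1 (22272, 25200) (by decide +kernel)
              (CovZ.leaf K2_ok TD_l1243 _)
              (CovZ.leaf K2_ok TD_l1244 _)))
            (CovZ.subM 68351586168111441620396878103375593941120873491728225611582072716342368113998915965203687256621064 (by decide +kernel)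
             (CovZ.n1 (22224, 25296) (by decide +kernel)
              (CovZ.n2 (22272, 25296) (by decide +kernel)
               (CovZ.n2 (22248, 25272) (by decide +kernel)
                (CovZ.leaf K2_ok TD_l1245 _)
                (CovZ.leaf K2_ok TD_l1246 _))
               (CovZ.n1 (22248, 25320) (by decide +kernel)
                (CovZ.n2 (22272, 25320) (by decide +kernel)
                 (CovZ.leaf K2_ok TD_l18037 _)
                 (CovZ.leaf K2_ok TD_l18038 _))
                (CovZ.leaf K2_ok TD_l18039 _)))
              (CovZ.n1 (22224, 25248) (by decide +kernel)
               (CovZ.leaf K2_ok TD_l1247 _)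
               (CovZ.n1 (22248, 25272) (by decide +kernel)
                (CovZ.leaf K2_ok TD_l1248 _)
                (CovZ.leaf K2_ok TD_l1249 _))))))
           (CovZ.n1 (22176, 25152) (by decide +kernel)
            (CovZ.n2 (22128, 25200) (by decide +kernel)
             (CovZ.n2 (22176, 25200) (by decide +kernel)
              (CovZ.leaf K2_ok TD_l1250 _)
              (CovZ.leaf K2_ok TD_l1251 _))
             (CovZ.leaf K2_ok TD_l1252 _))
            (CovZ.n1 (22224, 25200) (by decide +kernel)
             (CovZ.leaf K2_ok TD_l1253 _)
             (CovZ.leaf K2_ok TD_l1254 _))))))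
        (CovZ.n1 (22080, 24960) (by decide +kernel)
         (CovZ.subM 73391957969487335221403269162419122497117403679964820994388580113088660589536937832764341007344460720242688 (by decide +kernel)
          (CovZ.n2 (21984, 25056) (by decide +kernel)
           (CovZ.n2 (22080, 25056) (by decide +kernel)
            (CovZ.n2 (22032, 25008) (by decide +kernel)
             (CovZ.leaf K2_ok TD_l1255 _)
             (CovZ.leaf K2_ok TD_l1256 _))
            (CovZ.n1 (22032, 25104) (by decide +kernel)
             (CovZ.leaf K2_ok TD_l1257 _)
             (CovZ.leaf K2_ok TD_l1258 _)))
           (CovZ.n1 (21984, 24960) (by decide +kernel)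
            (CovZ.leaf K2_ok TD_l1259 _)
            (CovZ.leaf K2_ok TD_l1260 _))))
         (CovZ.n1 (22176, 25056) (by decide +kernel)
          (CovZ.n2 (22176, 24960) (by decide +kernel)
           (CovZ.leaf K2_ok TD_l1261 _)
           (CovZ.leaf K2_ok TD_l1262 _))
          (CovZ.n1 (22080, 25056) (by decide +kernel)
           (CovZ.n2 (22128, 25104) (by decide +kernel)
            (CovZ.leaf K2_ok TD_l1263 _)
            (CovZ.leaf K2_ok TD_l1264 _))
           (CovZ.leaf K2_ok TD_l1265 _))))))
      (CovZ.n1 (21888, 24576) (by decide +kernel)
       (CovZ.subM 73391957901135749785351631544638875357652715518072767171087834577811706964157827981849810090493718070034432 (by decide +kernel)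
        (CovZ.n2 (21696, 24768) (by decide +kernel)
         (CovZ.n2 (21888, 24768) (by decide +kernel)
          (CovZ.n2 (21792, 24672) (by decide +kernel)
           (CovZ.leaf K2_ok TD_l1266 _)
           (CovZ.leaf K2_ok TD_l1267 _))
          (CovZ.n1 (21792, 24864) (by decide +kernel)
           (CovZ.leaf K2_ok TD_l1268 _)
           (CovZ.n1 (21792, 24768) (by decide +kernel)
            (CovZ.leaf K2_ok TD_l1269 _)
            (CovZ.leaf K2_ok TD_l1270 _))))
         (CovZ.n1 (21696, 24576) (by decide +kernel)
          (CovZ.n2 (21600, 24672) (by decide +kernel)
           (CovZ.leaf K2_ok TD_l1271 _)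
           (CovZ.n1 (21600, 24576) (by decide +kernel)
            (CovZ.leaf K2_ok TD_l1272 _)
            (CovZ.leaf K2_ok TD_l1273 _)))
          (CovZ.n1 (21792, 24672) (by decide +kernel)
           (CovZ.n2 (21792, 24576) (by decide +kernel)
            (CovZ.leaf K2_ok TD_l1274 _)
            (CovZ.leaf K2_ok TD_l1275 _))
           (CovZ.leaf K2_ok TD_l1276 _)))))
       (CovZ.n1 (22080, 24768) (by decide +kernel)
        (CovZ.n2 (22080, 24576) (by decide +kernel)
         (CovZ.subM 73391957969487335221403269162419122497117403679964820994388580113088660589536939070704381463660638601478144 (by decide +kernel)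
          (CovZ.n2 (21984, 24672) (by decide +kernel)
           (CovZ.n2 (22080, 24672) (by decide +kernel)
            (CovZ.leaf K2_ok TD_l1277 _)
            (CovZ.leaf K2_ok TD_l1278 _))
           (CovZ.n1 (21984, 24576) (by decide +kernel)
            (CovZ.leaf K2_ok TD_l1279 _)
            (CovZ.leaf K2_ok TD_l1280 _))))
         (CovZ.n1 (22176, 24672) (by decide +kernel)
          (CovZ.n2 (22176, 24576) (by decide +kernel)
           (CovZ.leaf K2_ok TD_l1281 _)
           (CovZ.leaf K2_ok TD_l1282 _))
          (CovZ.leaf K2_ok TD_l1283 _)))
        (CovZ.n1 (21888, 24768) (by decide +kernel)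
         (CovZ.n2 (21984, 24864) (by decide +kernel)
          (CovZ.leaf K2_ok TD_l1284 _)
          (CovZ.leaf K2_ok TD_l1285 _))
         (CovZ.leaf K2_ok TD_l1286 _)))))
     (CovZ.n1 (22656, 24960) (by decide +kernel)
      (CovZ.n2 (22656, 24576) (by decide +kernel)
       (CovZ.n2 (22464, 24768) (by decide +kernel)
        (CovZ.n2 (22656, 24768) (by decide +kernel)
         (CovZ.n2 (22560, 24672) (by decide +kernel)
          (CovZ.leaf K2_ok TD_l1287 _)
          (CovZ.leaf K2_ok TD_l1288 _))
         (CovZ.n1 (22560, 24864) (by decide +kernel)
          (CovZ.leaf K2_ok TD_l1289 _)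
          (CovZ.n1 (22560, 24768) (by decide +kernel)
           (CovZ.leaf K2_ok TD_l1290 _)
           (CovZ.leaf K2_ok TD_l1291 _))))
        (CovZ.n1 (22464, 24576) (by decide +kernel)
         (CovZ.n2 (22368, 24672) (by decide +kernel)
          (CovZ.n2 (22464, 24672) (by decide +kernel)
           (CovZ.leaf K2_ok TD_l1292 _)
           (CovZ.leaf K2_ok TD_l1293 _))
          (CovZ.n1 (22368, 24576) (by decide +kernel)
           (CovZ.leaf K2_ok TD_l1294 _)
           (CovZ.leaf K2_ok TD_l1295 _)))
         (CovZ.n1 (22560, 24672) (by decide +kernel)
          (CovZ.n2 (22560, 24576) (by decide +kernel)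
           (CovZ.leaf K2_ok TD_l1296 _)
           (CovZ.leaf K2_ok TD_l1297 _))
          (CovZ.leaf K2_ok TD_l1298 _))))
       (CovZ.n1 (22848, 24768) (by decide +kernel)
        (CovZ.n2 (22848, 24576) (by decide +kernel)
         (CovZ.n2 (22752, 24672) (by decide +kernel)
          (CovZ.leaf K2_ok TD_l1299 _)
          (CovZ.leaf K2_ok TD_l1300 _))
         (CovZ.n1 (22944, 24672) (by decide +kernel)
          (CovZ.leaf K2_ok TD_l1301 _)
          (CovZ.leaf K2_ok TD_l1302 _)))
        (CovZ.n1 (22656, 24768) (by decide +kernel)
         (CovZ.n2 (22752, 24864) (by decide +kernel)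
          (CovZ.leaf K2_ok TD_l1303 _)
          (CovZ.leaf K2_ok TD_l1304 _))
         (CovZ.leaf K2_ok TD_l1305 _))))
      (CovZ.n1 (22272, 24960) (by decide +kernel)
       (CovZ.n2 (22464, 25152) (by decide +kernel)
        (CovZ.n2 (22464, 24960) (by decide +kernel)
         (CovZ.n2 (22368, 25056) (by decide +kernel)
          (CovZ.n2 (22464, 25056) (by decide +kernel)
           (CovZ.leaf K2_ok TD_l1306 _)
           (CovZ.leaf K2_ok TD_l1307 _))
          (CovZ.leaf K2_ok TD_l1308 _))
         (CovZ.subM 2336236839056483577273291836587948230478632917210253140311022025358564989127765174358182000066568 (by decide +kernel)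
          (CovZ.n1 (22560, 25056) (by decide +kernel)
           (CovZ.leaf K2_ok TD_l1309 _)
           (CovZ.n1 (22464, 25056) (by decide +kernel)
            (CovZ.n2 (22512, 25104) (by decide +kernel)
             (CovZ.leaf K2_ok TD_l1310 _)
             (CovZ.leaf K2_ok TD_l1311 _))
            (CovZ.leaf K2_ok TD_l1312 _)))))
        (CovZ.n1 (22272, 25152) (by decide +kernel)
         (CovZ.subM 70687821988649937023016433094552461459801882842648071612160350542082236423184500727192825660178440 (by decide +kernel)
          (CovZ.n2 (22368, 25248) (by decide +kernel)
           (CovZ.n2 (22368, 25152) (by decide +kernel)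
            (CovZ.n2 (22320, 25200) (by decide +kernel)
             (CovZ.n2 (22368, 25200) (by decide +kernel)
              (CovZ.leaf K2_ok TD_l1313 _)
              (CovZ.leaf K2_ok TD_l1314 _))
             (CovZ.leaf K2_ok TD_l1315 _))
            (CovZ.n1 (22416, 25200) (by decide +kernel)
             (CovZ.leaf K2_ok TD_l1316 _)
             (CovZ.leaf K2_ok TD_l1317 _)))
           (CovZ.n1 (22272, 25248) (by decide +kernel)
            (CovZ.subM 68351586168111441620396878103429513834455174771317559641756111977689642400426147776779645341401096 (by decide +kernel)
             (CovZ.n2 (22320, 25296) (by decide +kernel)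
              (CovZ.n2 (22320, 25248) (by decide +kernel)
               (CovZ.leaf K2_ok TD_l1318 _)
               (CovZ.n1 (22344, 25272) (by decide +kernel)
                (CovZ.leaf K2_ok TD_l1319 _)
                (CovZ.leaf K2_ok TD_l1320 _)))
              (CovZ.n1 (22272, 25296) (by decide +kernel)
               (CovZ.n2 (22296, 25320) (by decide +kernel)
                (CovZ.leaf K2_ok TD_l14771 _)
                (CovZ.leaf K2_ok TD_l18040 _))
               (CovZ.leaf K2_ok TD_l1321 _))))
            (CovZ.n1 (22320, 25200) (by decide +kernel)
             (CovZ.leaf K2_ok TD_l1322 _)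
             (CovZ.n1 (22320, 25248) (by decide +kernel)
              (CovZ.leaf K2_ok TD_l1323 _)
              (CovZ.leaf K2_ok TD_l1324 _))))))
         (CovZ.n1 (22368, 25056) (by decide +kernel)
          (CovZ.n2 (22272, 25056) (by decide +kernel)
           (CovZ.n2 (22320, 25104) (by decide +kernel)
            (CovZ.leaf K2_ok TD_l1325 _)
            (CovZ.leaf K2_ok TD_l1326 _))
           (CovZ.leaf K2_ok TD_l1327 _))
          (CovZ.n1 (22368, 25152) (by decide +kernel)
           (CovZ.leaf K2_ok TD_l1328 _)
           (CovZ.n1 (22320, 25104) (by decide +kernel)
            (CovZ.leaf K2_ok TD_l1329 _)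
            (CovZ.leaf K2_ok TD_l1330 _))))))
       (CovZ.n1 (22464, 24768) (by decide +kernel)
        (CovZ.n2 (22272, 24768) (by decide +kernel)
         (CovZ.n2 (22368, 24864) (by decide +kernel)
          (CovZ.n2 (22368, 24768) (by decide +kernel)
           (CovZ.leaf K2_ok TD_l1331 _)
           (CovZ.leaf K2_ok TD_l1332 _))
          (CovZ.leaf K2_ok TD_l1333 _))
         (CovZ.leaf K2_ok TD_l1334 _))
        (CovZ.n1 (22464, 24960) (by decide +kernel)
         (CovZ.leaf K2_ok TD_l1335 _)
         (CovZ.n1 (22368, 24864) (by decide +kernel)
          (CovZ.leaf K2_ok TD_l1336 _)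
          (CovZ.leaf K2_ok TD_l1337 _)))))))

theorem TD_u69 : CovZ TD_M (toL (selN TD_LN 73391957969487336239921257337072860225952016780954609352327564838106864487629156753540458531543567820652556)) [0, 7, 6, 1] (22272, 25344) (21888, 25344) (21888, 24960) :=
    (CovZ.n2 (22080, 25152) (by decide +kernel)
        (CovZ.n2 (21888, 25152) (by decide +kernel)
         (CovZ.subM 73391957969487335221403269162419122497117403679964820994388580023885679795414128353971263285447491424616448 (by decide +kernel)
          (CovZ.n2 (21984, 25248) (by decide +kernel)
           (CovZ.n2 (21984, 25152) (by decide +kernel)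
            (CovZ.n2 (21936, 25200) (by decide +kernel)
             (CovZ.n2 (21984, 25200) (by decide +kernel)
              (CovZ.leaf K2_ok TD_l1387 _)
              (CovZ.leaf K2_ok TD_l1388 _))
             (CovZ.n1 (21936, 25152) (by decide +kernel)
              (CovZ.leaf K2_ok TD_l1389 _)
              (CovZ.leaf K2_ok TD_l1390 _)))
            (CovZ.n1 (22032, 25200) (by decide +kernel)
             (CovZ.n2 (22032, 25152) (by decide +kernel)
              (CovZ.leaf K2_ok TD_l1391 _)
              (CovZ.leaf K2_ok TD_l1392 _))
             (CovZ.n1 (21984, 25200) (by decide +kernel)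
              (CovZ.n2 (22008, 25224) (by decide +kernel)
               (CovZ.leaf K2_ok TD_l1393 _)
               (CovZ.leaf K2_ok TD_l1394 _))
              (CovZ.leaf K2_ok TD_l1395 _))))
           (CovZ.subM 73391957898999762781259408592470198749427627284866596415160375369691938478402571298332179992314371647733760 (by decide +kernel)
            (CovZ.n1 (21888, 25248) (by decide +kernel)
             (CovZ.subM 2187250724814840611502728572215565829234565964659644553080075522131979180328037484419609251863855104 (by decide +kernel)
              (CovZ.n2 (21936, 25296) (by decide +kernel)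
               (CovZ.n2 (21936, 25248) (by decide +kernel)
                (CovZ.n2 (21912, 25272) (by decide +kernel)
                 (CovZ.n2 (21936, 25272) (by decide +kernel)
                  (CovZ.leaf K2_ok TD_l14774 _)
                  (CovZ.leaf K2_ok TD_l14775 _))
                 (CovZ.leaf K2_ok TD_l14776 _))
                (CovZ.n1 (21960, 25272) (by decide +kernel)
                 (CovZ.leaf K2_ok TD_l14777 _)
                 (CovZ.leaf K2_ok TD_l14778 _)))
               (CovZ.n1 (21888, 25296) (by decide +kernel)
                (CovZ.n2 (21912, 25320) (by decide +kernel)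
                 (CovZ.n2 (21912, 25296) (by decide +kernel)
                  (CovZ.leaf K2_ok TD_l14779 _)
                  (CovZ.n1 (21924, 25308) (by decide +kernel)
                   (CovZ.leaf K2_ok TD_l14780 _)
                   (CovZ.leaf K2_ok TD_l14781 _)))
                 (CovZ.n1 (21888, 25320) (by decide +kernel)
                  (CovZ.badM (by decide +kernel))
                  (CovZ.leaf K2_ok TD_l14782 _)))
                (CovZ.n1 (21912, 25272) (by decide +kernel)
                 (CovZ.leaf K2_ok TD_l14783 _)
                 (CovZ.n1 (21912, 25296) (by decide +kernel)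
                  (CovZ.leaf K2_ok TD_l14784 _)
                  (CovZ.n1 (21900, 25284) (by decide +kernel)
                   (CovZ.leaf K2_ok TD_l14785 _)
                   (CovZ.leaf K2_ok TD_l14786 _)))))))
             (CovZ.n1 (21936, 25200) (by decide +kernel)
              (CovZ.n2 (21888, 25200) (by decide +kernel)
               (CovZ.n2 (21912, 25224) (by decide +kernel)
                (CovZ.leaf K2_ok TD_l14787 _)
                (CovZ.leaf K2_ok TD_l14788 _))
               (CovZ.leaf K2_ok TD_l1396 _))
              (CovZ.n1 (21936, 25248) (by decide +kernel)
               (CovZ.leaf K2_ok TD_l14789 _)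
               (CovZ.n1 (21912, 25224) (by decide +kernel)
                (CovZ.leaf K2_ok TD_l14790 _)
                (CovZ.leaf K2_ok TD_l14791 _))))))))
         (CovZ.n1 (21984, 25056) (by decide +kernel)
          (CovZ.n2 (21888, 25056) (by decide +kernel)
           (CovZ.n2 (21936, 25104) (by decide +kernel)
            (CovZ.leaf K2_ok TD_l1397 _)
            (CovZ.leaf K2_ok TD_l1398 _))
           (CovZ.leaf K2_ok TD_l1399 _))
          (CovZ.n1 (21984, 25152) (by decide +kernel)
           (CovZ.leaf K2_ok TD_l1400 _)
           (CovZ.n1 (21936, 25104) (by decide +kernel)
            (CovZ.leaf K2_ok TD_l1401 _)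
            (CovZ.leaf K2_ok TD_l1402 _)))))
        (CovZ.subM 2257805047868374988687406077237038404738377448601075960099081552097253835274317803665683007133450248 (by decide +kernel)
         (CovZ.n1 (22080, 25344) (by decide +kernel)
          (CovZ.n2 (22176, 25248) (by decide +kernel)
           (CovZ.n2 (22080, 25248) (by decide +kernel)
            (CovZ.subM 68351585404222950494964595752708460787604063097430500990130640533626106975166898210184419715579904 (by decide +kernel)
             (CovZ.n2 (22128, 25296) (by decide +kernel)
              (CovZ.n2 (22128, 25248) (by decide +kernel)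
               (CovZ.n2 (22104, 25272) (by decide +kernel)
                (CovZ.leaf K2_ok TD_l1403 _)
                (CovZ.leaf K2_ok TD_l1404 _))
               (CovZ.n1 (22152, 25272) (by decide +kernel)
                (CovZ.leaf K2_ok TD_l1405 _)
                (CovZ.leaf K2_ok TD_l1406 _)))
              (CovZ.subM 68351585404222950487553902041520224280495520056874474887521361515025110758166882511444320297418752 (by decide +kernel)
               (CovZ.n1 (22080, 25296) (by decide +kernel)
                (CovZ.n2 (22104, 25320) (by decide +kernel)
                 (CovZ.leaf K2_ok TD_l18048 _)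
                 (CovZ.n1 (22080, 25320) (by decide +kernel)
                  (CovZ.n2 (22092, 25332) (by decide +kernel)
                   (CovZ.leaf K2_ok TD_l18049 _)
                   (CovZ.leaf K2_ok TD_l18050 _))
                  (CovZ.leaf K2_ok TD_l18051 _)))
                (CovZ.leaf K2_ok TD_l1407 _)))))
            (CovZ.n1 (22128, 25200) (by decide +kernel)
             (CovZ.leaf K2_ok TD_l1408 _)
             (CovZ.n1 (22128, 25248) (by decide +kernel)
              (CovZ.leaf K2_ok TD_l1409 _)
              (CovZ.n1 (22104, 25224) (by decide +kernel)
               (CovZ.leaf K2_ok TD_l1410 _)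
               (CovZ.leaf K2_ok TD_l1411 _)))))
           (CovZ.subM 68351586168111441620396878103375593941120873491728225611582072716342368113394453055396372669267976 (by decide +kernel)
            (CovZ.n1 (22176, 25344) (by decide +kernel)
             (CovZ.n2 (22224, 25296) (by decide +kernel)
              (CovZ.n2 (22176, 25296) (by decide +kernel)
               (CovZ.n2 (22200, 25320) (by decide +kernel)
                (CovZ.leaf K2_ok TD_l18052 _)
                (CovZ.n1 (22176, 25320) (by decide +kernel)
                 (CovZ.leaf K2_ok TD_l18053 _)
                 (CovZ.leaf K2_ok TD_l18054 _)))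
               (CovZ.leaf K2_ok TD_l1412 _))
              (CovZ.subM 1018642318983756183505949926273834328776315336973276741266031336769939225132427926732537856 (by decide +kernel)
               (CovZ.n1 (22224, 25344) (by decide +kernel)
                (CovZ.n2 (22248, 25320) (by decide +kernel)
                 (CovZ.leaf K2_ok TD_l18055 _)
                 (CovZ.n1 (22248, 25344) (by decide +kernel)
                  (CovZ.leaf K2_ok TD_l18056 _)
                  (CovZ.leaf K2_ok TD_l18057 _)))
                (CovZ.n1 (22200, 25320) (by decide +kernel)
                 (CovZ.n2 (22200, 25344) (by decide +kernel)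
                  (CovZ.leaf K2_ok TD_l18058 _)
                  (CovZ.n1 (22188, 25332) (by decide +kernel)
                   (CovZ.leaf K2_ok TD_l18059 _)
                   (CovZ.leaf K2_ok TD_l18060 _)))
                 (CovZ.n1 (22224, 25320) (by decide +kernel)
                  (CovZ.leaf K2_ok TD_l18061 _)
                  (CovZ.leaf K2_ok TD_l18062 _))))))
             (CovZ.n1 (22128, 25296) (by decide +kernel)
              (CovZ.subM 68351585149593453453153834969152749736431792965994028778613947398272143320146924490723618772221952 (by decide +kernel)
               (CovZ.n2 (22128, 25344) (by decide +kernel)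
                (CovZ.n2 (22152, 25320) (by decide +kernel)
                 (CovZ.n2 (22128, 25320) (by decide +kernel)
                  (CovZ.leaf K2_ok TD_l18063 _)
                  (CovZ.leaf K2_ok TD_l18064 _))
                 (CovZ.n1 (22152, 25344) (by decide +kernel)
                  (CovZ.leaf K2_ok TD_l18065 _)
                  (CovZ.n1 (22140, 25332) (by decide +kernel)
                   (CovZ.leaf K2_ok TD_l18066 _)
                   (CovZ.leaf K2_ok TD_l18067 _))))
                (CovZ.n1 (22104, 25320) (by decide +kernel)
                 (CovZ.n2 (22104, 25344) (by decide +kernel)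
                  (CovZ.leaf K2_ok TD_l18068 _)
                  (CovZ.leaf K2_ok TD_l18069 _))
                 (CovZ.n1 (22128, 25320) (by decide +kernel)
                  (CovZ.leaf K2_ok TD_l18070 _)
                  (CovZ.n1 (22116, 25332) (by decide +kernel)
                   (CovZ.leaf K2_ok TD_l18071 _)
                   (CovZ.leaf K2_ok TD_l18072 _))))))
              (CovZ.n1 (22176, 25296) (by decide +kernel)
               (CovZ.n2 (22152, 25272) (by decide +kernel)
                (CovZ.leaf K2_ok TD_l1413 _)
                (CovZ.leaf K2_ok TD_l1414 _))
               (CovZ.n1 (22152, 25320) (by decide +kernel)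
                (CovZ.n2 (22176, 25320) (by decide +kernel)
                 (CovZ.leaf K2_ok TD_l18073 _)
                 (CovZ.leaf K2_ok TD_l18074 _))
                (CovZ.leaf K2_ok TD_l14792 _)))))))
          (CovZ.n1 (21984, 25248) (by decide +kernel)
           (CovZ.subM 68351585436051637617780247139464688161892053823303668538551615431214805279329090320246456331534336 (by decide +kernel)
            (CovZ.n2 (21984, 25344) (by decide +kernel)
             (CovZ.n2 (22032, 25296) (by decide +kernel)
              (CovZ.n2 (21984, 25296) (by decide +kernel)
               (CovZ.badM (by decide +kernel))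
               (CovZ.n1 (22008, 25272) (by decide +kernel)
                (CovZ.leaf K2_ok TD_l14793 _)
                (CovZ.leaf K2_ok TD_l1415 _)))
              (CovZ.subM 68351585404222950487553902041520224280495520056871551884246699709188703388501449945405008398778368 (by decide +kernel)
               (CovZ.n1 (22032, 25344) (by decide +kernel)
                (CovZ.n2 (22056, 25320) (by decide +kernel)
                 (CovZ.n2 (22032, 25320) (by decide +kernel)
                  (CovZ.n2 (22044, 25332) (by decide +kernel)
                   (CovZ.leaf K2_ok TD_l18075 _)
                   (CovZ.badM (by decide +kernel)))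
                  (CovZ.leaf K2_ok TD_l18076 _))
                 (CovZ.n1 (22056, 25344) (by decide +kernel)
                  (CovZ.leaf K2_ok TD_l18077 _)
                  (CovZ.n1 (22044, 25332) (by decide +kernel)
                   (CovZ.leaf K2_ok TD_l18078 _)
                   (CovZ.leaf K2_ok TD_l18079 _))))
                (CovZ.badM (by decide +kernel)))))
             (CovZ.subM 31828687130226345097944463881396533766432116654304915722026101890827640374841447899201536 (by decide +kernel)
              (CovZ.n1 (21936, 25296) (by decide +kernel)
               (CovZ.n2 (21936, 25344) (by decide +kernel)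
                (CovZ.n2 (21960, 25320) (by decide +kernel)
                 (CovZ.n2 (21936, 25320) (by decide +kernel)
                  (CovZ.n2 (21948, 25332) (by decide +kernel)
                   (CovZ.leaf K2_ok TD_l18080 _)
                   (CovZ.badM (by decide +kernel)))
                  (CovZ.leaf K2_ok TD_l14794 _))
                 (CovZ.badM (by decide +kernel)))
                (CovZ.n1 (21912, 25320) (by decide +kernel)
                 (CovZ.badM (by decide +kernel))
                 (CovZ.n1 (21936, 25320) (by decide +kernel)
                  (CovZ.n2 (21924, 25308) (by decide +kernel)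
                   (CovZ.badM (by decide +kernel))
                   (CovZ.leaf K2_ok TD_l14795 _))
                  (CovZ.badM (by decide +kernel)))))
               (CovZ.n1 (21984, 25296) (by decide +kernel)
                (CovZ.n2 (21960, 25272) (by decide +kernel)
                 (CovZ.leaf K2_ok TD_l14796 _)
                 (CovZ.n1 (21984, 25272) (by decide +kernel)
                  (CovZ.leaf K2_ok TD_l14797 _)
                  (CovZ.leaf K2_ok TD_l14798 _)))
                (CovZ.n1 (21960, 25320) (by decide +kernel)
                 (CovZ.badM (by decide +kernel))
                 (CovZ.n1 (21960, 25296) (by decide +kernel)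
                  (CovZ.leaf K2_ok TD_l14799 _)
                  (CovZ.leaf K2_ok TD_l18081 _))))))))
           (CovZ.n1 (22080, 25248) (by decide +kernel)
            (CovZ.n2 (22032, 25200) (by decide +kernel)
             (CovZ.n2 (22032, 25248) (by decide +kernel)
              (CovZ.leaf K2_ok TD_l1416 _)
              (CovZ.n1 (22008, 25224) (by decide +kernel)
               (CovZ.leaf K2_ok TD_l1417 _)
               (CovZ.leaf K2_ok TD_l1418 _)))
             (CovZ.n1 (22080, 25200) (by decide +kernel)
              (CovZ.leaf K2_ok TD_l1419 _)
              (CovZ.leaf K2_ok TD_l1420 _)))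
            (CovZ.subM 68351585436051637617780247139464688161892053823303668538551615431214805279329090320246456331534336 (by decide +kernel)
             (CovZ.n1 (22032, 25296) (by decide +kernel)
              (CovZ.n2 (22080, 25296) (by decide +kernel)
               (CovZ.n2 (22056, 25272) (by decide +kernel)
                (CovZ.leaf K2_ok TD_l1421 _)
                (CovZ.leaf K2_ok TD_l1422 _))
               (CovZ.subM 68351585404222950487553902041520224280495520056871551884246699709188703388501449945405008398778368 (by decide +kernel)
                (CovZ.n1 (22056, 25320) (by decide +kernel)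
                 (CovZ.n2 (22080, 25320) (by decide +kernel)
                  (CovZ.leaf K2_ok TD_l18082 _)
                  (CovZ.leaf K2_ok TD_l18083 _))
                 (CovZ.n1 (22056, 25296) (by decide +kernel)
                  (CovZ.leaf K2_ok TD_l18084 _)
                  (CovZ.leaf K2_ok TD_l18085 _)))))
              (CovZ.n1 (22032, 25248) (by decide +kernel)
               (CovZ.n2 (22008, 25272) (by decide +kernel)
                (CovZ.leaf K2_ok TD_l1423 _)
                (CovZ.leaf K2_ok TD_l1424 _))
               (CovZ.n1 (22056, 25272) (by decide +kernel)
                (CovZ.leaf K2_ok TD_l1425 _)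
                (CovZ.leaf K2_ok TD_l1426 _))))))))))

theorem TD_u70 : CovZ TD_M (toL (selN TD_LN 73391957969487336239921257337072860225952016780954609352327564838106864487629156753540458531543567820652556)) [0, 7, 6, 1] (21888, 25344) (21504, 25344) (21888, 24960) :=
    (CovZ.subM 73391957901135749785351631544638875357652715518072767171087834577811706964157826743909769634177540054581248 (by decide +kernel)
        (CovZ.n1 (21696, 25152) (by decide +kernel)
         (CovZ.subM 73391957898999762749430721462243853651483163403470062648731181718661684562212797539336051362257608672018432 (by decide +kernel)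
          (CovZ.n2 (21696, 25344) (by decide +kernel)
           (CovZ.n2 (21792, 25248) (by decide +kernel)
            (CovZ.subM 73391955711749037966418797089741626533807878156966330475926488259442377085076116680996267245387426622865408 (by decide +kernel)
             (CovZ.n2 (21696, 25248) (by decide +kernel)
              (CovZ.n2 (21744, 25296) (by decide +kernel)
               (CovZ.n2 (21744, 25248) (by decide +kernel)
                (CovZ.badM (by decide +kernel))
                (CovZ.n1 (21768, 25272) (by decide +kernel)
                 (CovZ.n2 (21768, 25248) (by decide +kernel)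
                  (CovZ.leaf K2_ok TD_l18860 _)
                  (CovZ.leaf K2_ok TD_l18861 _))
                 (CovZ.n1 (21744, 25272) (by decide +kernel)
                  (CovZ.n2 (21756, 25284) (by decide +kernel)
                   (CovZ.leaf K2_ok TD_l18862 _)
                   (CovZ.badM (by decide +kernel)))
                  (CovZ.leaf K2_ok TD_l18863 _))))
               (CovZ.badM (by decide +kernel)))
              (CovZ.n1 (21744, 25200) (by decide +kernel)
               (CovZ.n2 (21696, 25200) (by decide +kernel)
                (CovZ.badM (by decide +kernel))
                (CovZ.leaf K2_ok TD_l1427 _))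
               (CovZ.n1 (21744, 25248) (by decide +kernel)
                (CovZ.n2 (21768, 25224) (by decide +kernel)
                 (CovZ.leaf K2_ok TD_l18864 _)
                 (CovZ.leaf K2_ok TD_l14800 _))
                (CovZ.badM (by decide +kernel))))))
            (CovZ.subM 2187250724783011924372502227117621365353169430893215359429045268215789406569192471517004317534978048 (by decide +kernel)
             (CovZ.n1 (21792, 25344) (by decide +kernel)
              (CovZ.n2 (21840, 25296) (by decide +kernel)
               (CovZ.badM (by decide +kernel))
               (CovZ.n1 (21840, 25344) (by decide +kernel)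
                (CovZ.n2 (21864, 25320) (by decide +kernel)
                 (CovZ.badM (by decide +kernel))
                 (CovZ.n1 (21864, 25344) (by decide +kernel)
                  (CovZ.n2 (21876, 25332) (by decide +kernel)
                   (CovZ.badM (by decide +kernel))
                   (CovZ.badM (by decide +kernel)))
                  (CovZ.badM (by decide +kernel))))
                (CovZ.badM (by decide +kernel))))
              (CovZ.badM (by decide +kernel)))))
           (CovZ.subM 66749594872528440074844428317798503581334516323645399060845050244602822755673545863404653117440 (by decide +kernel)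
            (CovZ.n1 (21600, 25248) (by decide +kernel)
             (CovZ.badM (by decide +kernel))
             (CovZ.n1 (21696, 25248) (by decide +kernel)
              (CovZ.n2 (21648, 25200) (by decide +kernel)
               (CovZ.badM (by decide +kernel))
               (CovZ.n1 (21696, 25200) (by decide +kernel)
                (CovZ.n2 (21672, 25176) (by decide +kernel)
                 (CovZ.leaf K2_ok TD_l1428 _)
                 (CovZ.leaf K2_ok TD_l1429 _))
                (CovZ.badM (by decide +kernel))))
              (CovZ.badM (by decide +kernel)))))))
         (CovZ.n1 (21888, 25152) (by decide +kernel)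
          (CovZ.n2 (21792, 25056) (by decide +kernel)
           (CovZ.n2 (21792, 25152) (by decide +kernel)
            (CovZ.n2 (21840, 25104) (by decide +kernel)
             (CovZ.leaf K2_ok TD_l1430 _)
             (CovZ.n1 (21840, 25152) (by decide +kernel)
              (CovZ.leaf K2_ok TD_l1431 _)
              (CovZ.leaf K2_ok TD_l1432 _)))
            (CovZ.subM 73391955713885025002339707172136648239977430271569034998283141029389418692898653319426964852761322305093632 (by decide +kernel)
             (CovZ.n1 (21744, 25104) (by decide +kernel)
              (CovZ.n2 (21744, 25152) (by decide +kernel)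
               (CovZ.leaf K2_ok TD_l1433 _)
               (CovZ.leaf K2_ok TD_l1434 _))
              (CovZ.n1 (21792, 25104) (by decide +kernel)
               (CovZ.leaf K2_ok TD_l1435 _)
               (CovZ.leaf K2_ok TD_l1436 _)))))
           (CovZ.n1 (21888, 25056) (by decide +kernel)
            (CovZ.n2 (21840, 25008) (by decide +kernel)
             (CovZ.leaf K2_ok TD_l1437 _)
             (CovZ.leaf K2_ok TD_l1438 _))
            (CovZ.n1 (21840, 25104) (by decide +kernel)
             (CovZ.leaf K2_ok TD_l1439 _)
             (CovZ.leaf K2_ok TD_l1440 _))))
          (CovZ.subM 73391957898999762749430721462243853651483163403470062648731181718661684562212797539336051362257608672018432 (by decide +kernel)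
           (CovZ.n1 (21792, 25248) (by decide +kernel)
            (CovZ.n2 (21888, 25248) (by decide +kernel)
             (CovZ.n2 (21840, 25200) (by decide +kernel)
              (CovZ.n2 (21840, 25248) (by decide +kernel)
               (CovZ.leaf K2_ok TD_l14801 _)
               (CovZ.badM (by decide +kernel)))
              (CovZ.n1 (21888, 25200) (by decide +kernel)
               (CovZ.n2 (21864, 25176) (by decide +kernel)
                (CovZ.leaf K2_ok TD_l1441 _)
                (CovZ.leaf K2_ok TD_l1442 _))
               (CovZ.n1 (21864, 25224) (by decide +kernel)
                (CovZ.leaf K2_ok TD_l14804 _)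
                (CovZ.leaf K2_ok TD_l14805 _))))
             (CovZ.subM 2187250724783011924372502227117621365353169430893215359429045268215789406569192471517004317534978048 (by decide +kernel)
              (CovZ.n1 (21840, 25296) (by decide +kernel)
               (CovZ.n2 (21888, 25296) (by decide +kernel)
                (CovZ.n2 (21864, 25272) (by decide +kernel)
                 (CovZ.n2 (21864, 25296) (by decide +kernel)
                  (CovZ.leaf K2_ok TD_l14806 _)
                  (CovZ.badM (by decide +kernel)))
                 (CovZ.n1 (21888, 25272) (by decide +kernel)
                  (CovZ.leaf K2_ok TD_l14807 _)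
                  (CovZ.leaf K2_ok TD_l14808 _)))
                (CovZ.n1 (21864, 25320) (by decide +kernel)
                 (CovZ.n2 (21888, 25320) (by decide +kernel)
                  (CovZ.n2 (21876, 25308) (by decide +kernel)
                   (CovZ.leaf K2_ok TD_l14809 _)
                   (CovZ.leaf K2_ok TD_l14810 _))
                  (CovZ.n1 (21876, 25332) (by decide +kernel)
                   (CovZ.badM (by decide +kernel))
                   (CovZ.leaf K2_ok TD_l18086 _)))
                 (CovZ.n1 (21864, 25296) (by decide +kernel)
                  (CovZ.badM (by decide +kernel))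
                  (CovZ.n1 (21876, 25308) (by decide +kernel)
                   (CovZ.leaf K2_ok TD_l14811 _)
                   (CovZ.badM (by decide +kernel))))))
               (CovZ.n1 (21840, 25248) (by decide +kernel)
                (CovZ.badM (by decide +kernel))
                (CovZ.n1 (21864, 25272) (by decide +kernel)
                 (CovZ.leaf K2_ok TD_l14812 _)
                 (CovZ.badM (by decide +kernel)))))))
            (CovZ.n1 (21792, 25152) (by decide +kernel)
             (CovZ.subM 73391955711749037966418797089741626533807878156966330475926488259442377085076116680996267245387426622865408 (by decide +kernel)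
              (CovZ.n2 (21744, 25200) (by decide +kernel)
               (CovZ.n2 (21792, 25200) (by decide +kernel)
                (CovZ.n2 (21768, 25176) (by decide +kernel)
                 (CovZ.leaf K2_ok TD_l1443 _)
                 (CovZ.leaf K2_ok TD_l1444 _))
                (CovZ.n1 (21768, 25224) (by decide +kernel)
                 (CovZ.leaf K2_ok TD_l14813 _)
                 (CovZ.leaf K2_ok TD_l14814 _)))
               (CovZ.n1 (21744, 25152) (by decide +kernel)
                (CovZ.leaf K2_ok TD_l1445 _)
                (CovZ.n1 (21768, 25176) (by decide +kernel)
                 (CovZ.leaf K2_ok TD_l1446 _)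
                 (CovZ.leaf K2_ok TD_l1447 _)))))
             (CovZ.n1 (21840, 25200) (by decide +kernel)
              (CovZ.n2 (21840, 25152) (by decide +kernel)
               (CovZ.leaf K2_ok TD_l1448 _)
               (CovZ.n1 (21864, 25176) (by decide +kernel)
                (CovZ.leaf K2_ok TD_l1449 _)
                (CovZ.leaf K2_ok TD_l1450 _)))
              (CovZ.n1 (21792, 25200) (by decide +kernel)
               (CovZ.n2 (21816, 25224) (by decide +kernel)
                (CovZ.leaf K2_ok TD_l14815 _)
                (CovZ.leaf K2_ok TD_l14816 _))
               (CovZ.leaf K2_ok TD_l1451 _)))))))))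

theorem TD_u71 : CovZ TD_M (toL (selN TD_LN 4338724685232822439330988290624929085478996043725873024794419963969365819786547033919643589829132)) [0, 7, 6, 1] (24576, 24576) (24576, 25344) (23808, 25344) :=
    (CovZ.n2 (24192, 24960) (by decide +kernel)
      (CovZ.n2 (24192, 25344) (by decide +kernel)
       (CovZ.subM 1018517988167243044017646376593881245323370002934230354095852661024685729077286459058184716 (by decide +kernel)
        (CovZ.n2 (24384, 25152) (by decide +kernel)
         (CovZ.n2 (24192, 25152) (by decide +kernel)
          (CovZ.subM 883423532389192164791649492540259465012900381156117245047975844113285132 (by decide +kernel)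
           (CovZ.n2 (24288, 25248) (by decide +kernel)
            (CovZ.leaf K2_ok TD_l2876 _)
            (CovZ.n1 (24192, 25248) (by decide +kernel)
             (CovZ.n2 (24240, 25296) (by decide +kernel)
              (CovZ.leaf K2_ok TD_l2877 _)
              (CovZ.leaf K2_ok TD_l2878 _))
             (CovZ.leaf K2_ok TD_l2879 _))))
          (CovZ.leaf K2_ok TD_l2880 _))
         (CovZ.n1 (24384, 25344) (by decide +kernel)
          (CovZ.n2 (24480, 25248) (by decide +kernel)
           (CovZ.n2 (24384, 25248) (by decide +kernel)
            (CovZ.n2 (24432, 25296) (by decide +kernel)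
             (CovZ.leaf K2_ok TD_l2881 _)
             (CovZ.leaf K2_ok TD_l2882 _))
            (CovZ.leaf K2_ok TD_l2883 _))
           (CovZ.n1 (24480, 25344) (by decide +kernel)
            (CovZ.leaf K2_ok TD_l2884 _)
            (CovZ.n1 (24432, 25296) (by decide +kernel)
             (CovZ.leaf K2_ok TD_l2885 _)
             (CovZ.leaf K2_ok TD_l2886 _))))
          (CovZ.subM 883423532389192164791649481122277923365221332689829489452014753051312140 (by decide +kernel)
           (CovZ.n1 (24288, 25248) (by decide +kernel)
            (CovZ.n2 (24288, 25344) (by decide +kernel)
             (CovZ.leaf K2_ok TD_l2887 _)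
             (CovZ.n1 (24240, 25296) (by decide +kernel)
              (CovZ.leaf K2_ok TD_l2888 _)
              (CovZ.leaf K2_ok TD_l2889 _)))
            (CovZ.n1 (24384, 25248) (by decide +kernel)
             (CovZ.leaf K2_ok TD_l2890 _)
             (CovZ.n1 (24336, 25296) (by decide +kernel)
              (CovZ.leaf K2_ok TD_l2891 _)
              (CovZ.leaf K2_ok TD_l2892 _))))))))
       (CovZ.subM 4271975090359808332033087429985480823086654362096995002324654340737537851012049120284117158592524 (by decide +kernel)
        (CovZ.n1 (24000, 25152) (by decide +kernel)
         (CovZ.n2 (24000, 25344) (by decide +kernel)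
          (CovZ.n2 (24096, 25248) (by decide +kernel)
           (CovZ.n2 (24000, 25248) (by decide +kernel)
            (CovZ.n2 (24048, 25296) (by decide +kernel)
             (CovZ.leaf K2_ok TD_l2893 _)
             (CovZ.leaf K2_ok TD_l2894 _))
            (CovZ.leaf K2_ok TD_l2895 _))
           (CovZ.n1 (24096, 25344) (by decide +kernel)
            (CovZ.leaf K2_ok TD_l2896 _)
            (CovZ.n1 (24048, 25296) (by decide +kernel)
             (CovZ.leaf K2_ok TD_l2897 _)
             (CovZ.leaf K2_ok TD_l2898 _))))
          (CovZ.n1 (23904, 25248) (by decide +kernel)
           (CovZ.n2 (23904, 25344) (by decide +kernel)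
            (CovZ.n2 (23952, 25296) (by decide +kernel)
             (CovZ.leaf K2_ok TD_l2899 _)
             (CovZ.leaf K2_ok TD_l2900 _))
            (CovZ.n1 (23856, 25296) (by decide +kernel)
             (CovZ.leaf K2_ok TD_l2901 _)
             (CovZ.n1 (23904, 25296) (by decide +kernel)
              (CovZ.leaf K2_ok TD_l2902 _)
              (CovZ.leaf K2_ok TD_l2903 _))))
           (CovZ.n1 (24000, 25248) (by decide +kernel)
            (CovZ.n2 (23952, 25200) (by decide +kernel)
             (CovZ.leaf K2_ok TD_l2904 _)
             (CovZ.leaf K2_ok TD_l2905 _))
            (CovZ.n1 (23952, 25296) (by decide +kernel)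
             (CovZ.n2 (24000, 25296) (by decide +kernel)
              (CovZ.leaf K2_ok TD_l2906 _)
              (CovZ.leaf K2_ok TD_l2907 _))
             (CovZ.leaf K2_ok TD_l2908 _)))))
         (CovZ.n1 (24192, 25152) (by decide +kernel)
          (CovZ.n2 (24096, 25056) (by decide +kernel)
           (CovZ.leaf K2_ok TD_l2909 _)
           (CovZ.leaf K2_ok TD_l2910 _))
          (CovZ.n1 (24096, 25248) (by decide +kernel)
           (CovZ.n2 (24192, 25248) (by decide +kernel)
            (CovZ.leaf K2_ok TD_l2911 _)
            (CovZ.n1 (24144, 25296) (by decide +kernel)
             (CovZ.leaf K2_ok TD_l2912 _)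
             (CovZ.leaf K2_ok TD_l2913 _)))
           (CovZ.n1 (24096, 25152) (by decide +kernel)
            (CovZ.leaf K2_ok TD_l2914 _)
            (CovZ.leaf K2_ok TD_l2915 _)))))))
      (CovZ.n1 (24576, 24960) (by decide +kernel)
       (CovZ.n2 (24384, 24768) (by decide +kernel)
        (CovZ.leaf K2_ok TD_l2916 _)
        (CovZ.leaf K2_ok TD_l2917 _))
       (CovZ.n1 (24384, 25152) (by decide +kernel)
        (CovZ.n2 (24576, 25152) (by decide +kernel)
         (CovZ.n2 (24480, 25056) (by decide +kernel)
          (CovZ.leaf K2_ok TD_l2918 _)
          (CovZ.leaf K2_ok TD_l2919 _))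
         (CovZ.n1 (24480, 25248) (by decide +kernel)
          (CovZ.n2 (24576, 25248) (by decide +kernel)
           (CovZ.leaf K2_ok TD_l2920 _)
           (CovZ.leaf K2_ok TD_l2921 _))
          (CovZ.leaf K2_ok TD_l2922 _)))
        (CovZ.n1 (24384, 24960) (by decide +kernel)
         (CovZ.leaf K2_ok TD_l2923 _)
         (CovZ.n1 (24480, 25056) (by decide +kernel)
          (CovZ.leaf K2_ok TD_l2924 _)
          (CovZ.leaf K2_ok TD_l2925 _))))))

theorem TD_u72 : CovZ TD_M (toL (selN TD_LN 4338724685232822439330988290624929085478996043725873024794419963969365819786547033919643589829132)) [0, 7, 6, 1] (24576, 25344) (24576, 26112) (23808, 25344) :=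
    (CovZ.subM 4271974071841820164790043412339104229205409044714039234411114873145795976692451810415009507336704 (by decide +kernel)
      (CovZ.n1 (24192, 25728) (by decide +kernel)
       (CovZ.n2 (24576, 25728) (by decide +kernel)
        (CovZ.n2 (24384, 25536) (by decide +kernel)
         (CovZ.badM (by decide +kernel))
         (CovZ.n1 (24576, 25536) (by decide +kernel)
          (CovZ.n2 (24480, 25440) (by decide +kernel)
           (CovZ.badM (by decide +kernel))
           (CovZ.n1 (24576, 25440) (by decide +kernel)
            (CovZ.n2 (24528, 25392) (by decide +kernel)
             (CovZ.n2 (24528, 25440) (by decide +kernel)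
              (CovZ.leaf K2_ok TD_l2926 _)
              (CovZ.n1 (24504, 25416) (by decide +kernel)
               (CovZ.badM (by decide +kernel))
               (CovZ.leaf K2_ok TD_l2928 _)))
             (CovZ.n1 (24576, 25392) (by decide +kernel)
              (CovZ.leaf K2_ok TD_l2929 _)
              (CovZ.leaf K2_ok TD_l2930 _)))
            (CovZ.badM (by decide +kernel))))
          (CovZ.badM (by decide +kernel))))
        (CovZ.badM (by decide +kernel)))
       (CovZ.n1 (24192, 25344) (by decide +kernel)
        (CovZ.subM 4271974071841820164790043412339104229205409044713305629097064009766932017704154769914906628063232 (by decide +kernel)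
         (CovZ.n2 (24000, 25536) (by decide +kernel)
          (CovZ.n2 (24192, 25536) (by decide +kernel)
           (CovZ.n2 (24096, 25440) (by decide +kernel)
            (CovZ.badM (by decide +kernel))
            (CovZ.n1 (24192, 25440) (by decide +kernel)
             (CovZ.n2 (24144, 25392) (by decide +kernel)
              (CovZ.badM (by decide +kernel))
              (CovZ.n1 (24192, 25392) (by decide +kernel)
               (CovZ.n2 (24168, 25368) (by decide +kernel)
                (CovZ.leaf K2_ok TD_l2932 _)
                (CovZ.leaf K2_ok TD_l2933 _))
               (CovZ.badM (by decide +kernel))))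
             (CovZ.badM (by decide +kernel))))
           (CovZ.badM (by decide +kernel)))
          (CovZ.n1 (24000, 25344) (by decide +kernel)
           (CovZ.n2 (23904, 25440) (by decide +kernel)
            (CovZ.n2 (24000, 25440) (by decide +kernel)
             (CovZ.n2 (23952, 25392) (by decide +kernel)
              (CovZ.badM (by decide +kernel))
              (CovZ.n1 (24000, 25392) (by decide +kernel)
               (CovZ.n2 (23976, 25368) (by decide +kernel)
                (CovZ.badM (by decide +kernel))
                (CovZ.leaf K2_ok TD_l2937 _))
               (CovZ.badM (by decide +kernel))))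
             (CovZ.badM (by decide +kernel)))
            (CovZ.n1 (23904, 25344) (by decide +kernel)
             (CovZ.subM 4271974071841820164790043412339104229205409044713305539894083215644439451561281102860673940979712 (by decide +kernel)
              (CovZ.n2 (23856, 25392) (by decide +kernel)
               (CovZ.n2 (23904, 25392) (by decide +kernel)
                (CovZ.n2 (23880, 25368) (by decide +kernel)
                 (CovZ.badM (by decide +kernel))
                 (CovZ.leaf K2_ok TD_l2938 _))
                (CovZ.badM (by decide +kernel)))
               (CovZ.n1 (23856, 25344) (by decide +kernel)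
                (CovZ.n2 (23832, 25368) (by decide +kernel)
                 (CovZ.badM (by decide +kernel))
                 (CovZ.leaf K2_ok TD_l18087 _))
                (CovZ.n1 (23880, 25368) (by decide +kernel)
                 (CovZ.leaf K2_ok TD_l2939 _)
                 (CovZ.badM (by decide +kernel))))))
             (CovZ.n1 (23952, 25392) (by decide +kernel)
              (CovZ.n2 (23952, 25344) (by decide +kernel)
               (CovZ.n2 (23928, 25368) (by decide +kernel)
                (CovZ.leaf K2_ok TD_l2940 _)
                (CovZ.leaf K2_ok TD_l2941 _))
               (CovZ.n1 (23976, 25368) (by decide +kernel)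
                (CovZ.leaf K2_ok TD_l2942 _)
                (CovZ.leaf K2_ok TD_l2943 _)))
              (CovZ.n1 (23904, 25392) (by decide +kernel)
               (CovZ.badM (by decide +kernel))
               (CovZ.leaf K2_ok TD_l2944 _)))))
           (CovZ.n1 (24096, 25440) (by decide +kernel)
            (CovZ.n2 (24096, 25344) (by decide +kernel)
             (CovZ.n2 (24048, 25392) (by decide +kernel)
              (CovZ.n2 (24096, 25392) (by decide +kernel)
               (CovZ.n2 (24072, 25368) (by decide +kernel)
                (CovZ.badM (by decide +kernel))
                (CovZ.leaf K2_ok TD_l2946 _))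
               (CovZ.badM (by decide +kernel)))
              (CovZ.n1 (24048, 25344) (by decide +kernel)
               (CovZ.leaf K2_ok TD_l2947 _)
               (CovZ.n1 (24072, 25368) (by decide +kernel)
                (CovZ.leaf K2_ok TD_l2948 _)
                (CovZ.leaf K2_ok TD_l2949 _))))
             (CovZ.n1 (24144, 25392) (by decide +kernel)
              (CovZ.n2 (24144, 25344) (by decide +kernel)
               (CovZ.leaf K2_ok TD_l2950 _)
               (CovZ.leaf K2_ok TD_l2951 _))
              (CovZ.n1 (24096, 25392) (by decide +kernel)
               (CovZ.badM (by decide +kernel))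
               (CovZ.leaf K2_ok TD_l2952 _))))
            (CovZ.n1 (24000, 25440) (by decide +kernel)
             (CovZ.badM (by decide +kernel))
             (CovZ.n1 (24048, 25392) (by decide +kernel)
              (CovZ.n2 (24000, 25392) (by decide +kernel)
               (CovZ.badM (by decide +kernel))
               (CovZ.leaf K2_ok TD_l2953 _))
              (CovZ.badM (by decide +kernel))))))))
        (CovZ.n1 (24384, 25536) (by decide +kernel)
         (CovZ.n2 (24384, 25344) (by decide +kernel)
          (CovZ.subM 579275536430268416 (by decide +kernel)
           (CovZ.n2 (24288, 25440) (by decide +kernel)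
            (CovZ.n2 (24384, 25440) (by decide +kernel)
             (CovZ.n2 (24336, 25392) (by decide +kernel)
              (CovZ.badM (by decide +kernel))
              (CovZ.n1 (24384, 25392) (by decide +kernel)
               (CovZ.leaf K2_ok TD_l2957 _)
               (CovZ.leaf K2_ok TD_l2958 _)))
             (CovZ.badM (by decide +kernel)))
            (CovZ.n1 (24288, 25344) (by decide +kernel)
             (CovZ.n2 (24240, 25392) (by decide +kernel)
              (CovZ.n2 (24288, 25392) (by decide +kernel)
               (CovZ.leaf K2_ok TD_l2959 _)
               (CovZ.badM (by decide +kernel)))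
              (CovZ.leaf K2_ok TD_l2962 _))
             (CovZ.n1 (24336, 25392) (by decide +kernel)
              (CovZ.leaf K2_ok TD_l2963 _)
              (CovZ.n1 (24288, 25392) (by decide +kernel)
               (CovZ.badM (by decide +kernel))
               (CovZ.leaf K2_ok TD_l2966 _))))))
          (CovZ.n1 (24480, 25440) (by decide +kernel)
           (CovZ.n2 (24480, 25344) (by decide +kernel)
            (CovZ.n2 (24432, 25392) (by decide +kernel)
             (CovZ.n2 (24480, 25392) (by decide +kernel)
              (CovZ.leaf K2_ok TD_l2967 _)
              (CovZ.leaf K2_ok TD_l2968 _))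
             (CovZ.leaf K2_ok TD_l2969 _))
            (CovZ.n1 (24528, 25392) (by decide +kernel)
             (CovZ.leaf K2_ok TD_l2970 _)
             (CovZ.n1 (24480, 25392) (by decide +kernel)
              (CovZ.n2 (24504, 25416) (by decide +kernel)
               (CovZ.leaf K2_ok TD_l2971 _)
               (CovZ.leaf K2_ok TD_l2972 _))
              (CovZ.leaf K2_ok TD_l2973 _))))
           (CovZ.subM 579275536430268416 (by decide +kernel)
            (CovZ.n1 (24384, 25440) (by decide +kernel)
             (CovZ.badM (by decide +kernel))
             (CovZ.n1 (24432, 25392) (by decide +kernel)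
              (CovZ.n2 (24384, 25392) (by decide +kernel)
               (CovZ.n2 (24408, 25416) (by decide +kernel)
                (CovZ.leaf K2_ok TD_l2974 _)
                (CovZ.leaf K2_ok TD_l2975 _))
               (CovZ.leaf K2_ok TD_l2976 _))
              (CovZ.n1 (24432, 25440) (by decide +kernel)
               (CovZ.leaf K2_ok TD_l2977 _)
               (CovZ.n1 (24408, 25416) (by decide +kernel)
                (CovZ.badM (by decide +kernel))
                (CovZ.leaf K2_ok TD_l2979 _))))))))
         (CovZ.subM 579275536430268416 (by decide +kernel)
          (CovZ.n1 (24192, 25536) (by decide +kernel)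
           (CovZ.badM (by decide +kernel))
           (CovZ.n1 (24288, 25440) (by decide +kernel)
            (CovZ.n2 (24192, 25440) (by decide +kernel)
             (CovZ.badM (by decide +kernel))
             (CovZ.n1 (24240, 25392) (by decide +kernel)
              (CovZ.n2 (24192, 25392) (by decide +kernel)
               (CovZ.badM (by decide +kernel))
               (CovZ.leaf K2_ok TD_l2982 _))
              (CovZ.badM (by decide +kernel))))
            (CovZ.badM (by decide +kernel)))))))))

theorem TD_u73 : CovZ TD_M (toL (selN TD_LN 4338724685232336772107931858357199220002290163999212423084656929007918276509348484631453686063628)) [0, 7, 6, 1] (23040, 26112) (23040, 25344) (23808, 25344) :=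
    (CovZ.subM 4271974071841820164790043412393024122539710324302652415297356830630643264980096513836533132820480 (by decide +kernel)
      (CovZ.n2 (23424, 25728) (by decide +kernel)
       (CovZ.n2 (23424, 25344) (by decide +kernel)
        (CovZ.subM 53919893334301279589346875403273614986203813418806190418434665218048 (by decide +kernel)
         (CovZ.n2 (23232, 25536) (by decide +kernel)
          (CovZ.n2 (23424, 25536) (by decide +kernel)
           (CovZ.n2 (23328, 25440) (by decide +kernel)
            (CovZ.badM (by decide +kernel))
            (CovZ.n1 (23424, 25440) (by decide +kernel)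
             (CovZ.n2 (23376, 25392) (by decide +kernel)
              (CovZ.badM (by decide +kernel))
              (CovZ.n1 (23424, 25392) (by decide +kernel)
               (CovZ.n2 (23400, 25368) (by decide +kernel)
                (CovZ.n2 (23400, 25392) (by decide +kernel)
                 (CovZ.leaf K2_ok TD_l14859 _)
                 (CovZ.n1 (23388, 25380) (by decide +kernel)
                  (CovZ.leaf K2_ok TD_l14860 _)
                  (CovZ.leaf K2_ok TD_l14861 _)))
                (CovZ.n1 (23424, 25368) (by decide +kernel)
                 (CovZ.leaf K2_ok TD_l14862 _)
                 (CovZ.n1 (23412, 25380) (by decide +kernel)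
                  (CovZ.leaf K2_ok TD_l14863 _)
                  (CovZ.leaf K2_ok TD_l14864 _))))
               (CovZ.n1 (23400, 25416) (by decide +kernel)
                (CovZ.n2 (23424, 25416) (by decide +kernel)
                 (CovZ.n2 (23412, 25404) (by decide +kernel)
                  (CovZ.badM (by decide +kernel))
                  (CovZ.n1 (23424, 25404) (by decide +kernel)
                   (CovZ.leaf K2_ok TD_l14865 _)
                   (CovZ.badM (by decide +kernel))))
                 (CovZ.badM (by decide +kernel)))
                (CovZ.n1 (23400, 25392) (by decide +kernel)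
                 (CovZ.badM (by decide +kernel))
                 (CovZ.n1 (23412, 25404) (by decide +kernel)
                  (CovZ.leaf K2_ok TD_l14866 _)
                  (CovZ.badM (by decide +kernel)))))))
             (CovZ.badM (by decide +kernel))))
           (CovZ.badM (by decide +kernel)))
          (CovZ.n1 (23232, 25344) (by decide +kernel)
           (CovZ.n2 (23136, 25440) (by decide +kernel)
            (CovZ.n2 (23232, 25440) (by decide +kernel)
             (CovZ.n2 (23184, 25392) (by decide +kernel)
              (CovZ.badM (by decide +kernel))
              (CovZ.n1 (23232, 25392) (by decide +kernel)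
               (CovZ.n2 (23208, 25368) (by decide +kernel)
                (CovZ.badM (by decide +kernel))
                (CovZ.n1 (23232, 25368) (by decide +kernel)
                 (CovZ.leaf K2_ok TD_l14867 _)
                 (CovZ.badM (by decide +kernel))))
               (CovZ.badM (by decide +kernel))))
             (CovZ.badM (by decide +kernel)))
            (CovZ.n1 (23136, 25344) (by decide +kernel)
             (CovZ.n2 (23088, 25392) (by decide +kernel)
              (CovZ.n2 (23136, 25392) (by decide +kernel)
               (CovZ.n2 (23112, 25368) (by decide +kernel)
                (CovZ.badM (by decide +kernel))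
                (CovZ.n1 (23136, 25368) (by decide +kernel)
                 (CovZ.leaf K2_ok TD_l14868 _)
                 (CovZ.badM (by decide +kernel))))
               (CovZ.badM (by decide +kernel)))
              (CovZ.n1 (23088, 25344) (by decide +kernel)
               (CovZ.n2 (23064, 25368) (by decide +kernel)
                (CovZ.n2 (23088, 25368) (by decide +kernel)
                 (CovZ.leaf K2_ok TD_l14869 _)
                 (CovZ.leaf K2_ok TD_l14870 _))
                (CovZ.leaf K2_ok TD_l3034 _))
               (CovZ.n1 (23112, 25368) (by decide +kernel)
                (CovZ.leaf K2_ok TD_l14871 _)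
                (CovZ.leaf K2_ok TD_l14872 _))))
             (CovZ.n1 (23184, 25392) (by decide +kernel)
              (CovZ.n2 (23184, 25344) (by decide +kernel)
               (CovZ.n2 (23160, 25368) (by decide +kernel)
                (CovZ.n2 (23184, 25368) (by decide +kernel)
                 (CovZ.leaf K2_ok TD_l14873 _)
                 (CovZ.badM (by decide +kernel)))
                (CovZ.leaf K2_ok TD_l14874 _))
               (CovZ.n1 (23208, 25368) (by decide +kernel)
                (CovZ.leaf K2_ok TD_l14875 _)
                (CovZ.n1 (23184, 25368) (by decide +kernel)
                 (CovZ.badM (by decide +kernel))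
                 (CovZ.leaf K2_ok TD_l14876 _))))
              (CovZ.n1 (23136, 25392) (by decide +kernel)
               (CovZ.badM (by decide +kernel))
               (CovZ.n1 (23160, 25368) (by decide +kernel)
                (CovZ.n2 (23136, 25368) (by decide +kernel)
                 (CovZ.badM (by decide +kernel))
                 (CovZ.leaf K2_ok TD_l14877 _))
                (CovZ.badM (by decide +kernel)))))))
           (CovZ.n1 (23328, 25440) (by decide +kernel)
            (CovZ.n2 (23328, 25344) (by decide +kernel)
             (CovZ.n2 (23280, 25392) (by decide +kernel)
              (CovZ.n2 (23328, 25392) (by decide +kernel)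
               (CovZ.n2 (23304, 25368) (by decide +kernel)
                (CovZ.badM (by decide +kernel))
                (CovZ.n1 (23328, 25368) (by decide +kernel)
                 (CovZ.leaf K2_ok TD_l14878 _)
                 (CovZ.badM (by decide +kernel))))
               (CovZ.badM (by decide +kernel)))
              (CovZ.n1 (23280, 25344) (by decide +kernel)
               (CovZ.n2 (23256, 25368) (by decide +kernel)
                (CovZ.badM (by decide +kernel))
                (CovZ.leaf K2_ok TD_l14879 _))
               (CovZ.n1 (23304, 25368) (by decide +kernel)
                (CovZ.leaf K2_ok TD_l14880 _)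
                (CovZ.badM (by decide +kernel)))))
             (CovZ.n1 (23376, 25392) (by decide +kernel)
              (CovZ.n2 (23376, 25344) (by decide +kernel)
               (CovZ.n2 (23352, 25368) (by decide +kernel)
                (CovZ.n2 (23376, 25368) (by decide +kernel)
                 (CovZ.leaf K2_ok TD_l14881 _)
                 (CovZ.leaf K2_ok TD_l14882 _))
                (CovZ.leaf K2_ok TD_l14883 _))
               (CovZ.n1 (23400, 25368) (by decide +kernel)
                (CovZ.leaf K2_ok TD_l3035 _)
                (CovZ.n1 (23376, 25368) (by decide +kernel)
                 (CovZ.n2 (23388, 25380) (by decide +kernel)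
                  (CovZ.leaf K2_ok TD_l14884 _)
                  (CovZ.leaf K2_ok TD_l14885 _))
                 (CovZ.leaf K2_ok TD_l14886 _))))
              (CovZ.n1 (23328, 25392) (by decide +kernel)
               (CovZ.badM (by decide +kernel))
               (CovZ.n1 (23352, 25368) (by decide +kernel)
                (CovZ.n2 (23328, 25368) (by decide +kernel)
                 (CovZ.badM (by decide +kernel))
                 (CovZ.leaf K2_ok TD_l14887 _))
                (CovZ.badM (by decide +kernel))))))
            (CovZ.n1 (23232, 25440) (by decide +kernel)
             (CovZ.badM (by decide +kernel))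
             (CovZ.n1 (23280, 25392) (by decide +kernel)
              (CovZ.n2 (23232, 25392) (by decide +kernel)
               (CovZ.badM (by decide +kernel))
               (CovZ.n1 (23256, 25368) (by decide +kernel)
                (CovZ.n2 (23232, 25368) (by decide +kernel)
                 (CovZ.badM (by decide +kernel))
                 (CovZ.leaf K2_ok TD_l14888 _))
                (CovZ.badM (by decide +kernel))))
              (CovZ.badM (by decide +kernel))))))))
        (CovZ.n1 (23616, 25536) (by decide +kernel)
         (CovZ.n2 (23616, 25344) (by decide +kernel)
          (CovZ.subM 1427247692705959881058285978672867173237522432 (by decide +kernel)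
           (CovZ.n2 (23520, 25440) (by decide +kernel)
            (CovZ.badM (by decide +kernel))
            (CovZ.n1 (23520, 25344) (by decide +kernel)
             (CovZ.n2 (23472, 25392) (by decide +kernel)
              (CovZ.badM (by decide +kernel))
              (CovZ.n1 (23472, 25344) (by decide +kernel)
               (CovZ.n2 (23448, 25368) (by decide +kernel)
                (CovZ.badM (by decide +kernel))
                (CovZ.leaf K2_ok TD_l14889 _))
               (CovZ.badM (by decide +kernel))))
             (CovZ.badM (by decide +kernel)))))
          (CovZ.subM 4271974071841820164790043412339104229205409044713305539894083215644439451561281100045924173873152 (by decide +kernel)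
           (CovZ.n1 (23712, 25440) (by decide +kernel)
            (CovZ.n2 (23712, 25344) (by decide +kernel)
             (CovZ.badM (by decide +kernel))
             (CovZ.n1 (23760, 25392) (by decide +kernel)
              (CovZ.n2 (23760, 25344) (by decide +kernel)
               (CovZ.badM (by decide +kernel))
               (CovZ.n1 (23784, 25368) (by decide +kernel)
                (CovZ.leaf K2_ok TD_l18088 _)
                (CovZ.badM (by decide +kernel))))
              (CovZ.badM (by decide +kernel))))
            (CovZ.badM (by decide +kernel)))))
         (CovZ.subM 1427247692705959881058285969449495136382746624 (by decide +kernel)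
          (CovZ.n1 (23424, 25536) (by decide +kernel)
           (CovZ.badM (by decide +kernel))
           (CovZ.n1 (23520, 25440) (by decide +kernel)
            (CovZ.n2 (23424, 25440) (by decide +kernel)
             (CovZ.n2 (23472, 25488) (by decide +kernel)
              (CovZ.n2 (23472, 25440) (by decide +kernel)
               (CovZ.badM (by decide +kernel))
               (CovZ.badM (by decide +kernel)))
              (CovZ.badM (by decide +kernel)))
             (CovZ.n1 (23472, 25392) (by decide +kernel)
              (CovZ.n2 (23424, 25392) (by decide +kernel)
               (CovZ.n2 (23448, 25416) (by decide +kernel)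
                (CovZ.n2 (23448, 25392) (by decide +kernel)
                 (CovZ.n2 (23436, 25404) (by decide +kernel)
                  (CovZ.badM (by decide +kernel))
                  (CovZ.leaf K2_ok TD_l14890 _))
                 (CovZ.badM (by decide +kernel)))
                (CovZ.n1 (23424, 25416) (by decide +kernel)
                 (CovZ.badM (by decide +kernel))
                 (CovZ.n1 (23436, 25404) (by decide +kernel)
                  (CovZ.leaf K2_ok TD_l14891 _)
                  (CovZ.n1 (23436, 25416) (by decide +kernel)
                   (CovZ.badM (by decide +kernel))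
                   (CovZ.n1 (23430, 25410) (by decide +kernel)
                    (CovZ.badM (by decide +kernel))
                    (CovZ.badM (by decide +kernel)))))))
               (CovZ.n1 (23448, 25368) (by decide +kernel)
                (CovZ.n2 (23424, 25368) (by decide +kernel)
                 (CovZ.n2 (23436, 25380) (by decide +kernel)
                  (CovZ.leaf K2_ok TD_l14892 _)
                  (CovZ.leaf K2_ok TD_l14893 _))
                 (CovZ.leaf K2_ok TD_l14894 _))
                (CovZ.n1 (23448, 25392) (by decide +kernel)
                 (CovZ.badM (by decide +kernel))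
                 (CovZ.n1 (23436, 25380) (by decide +kernel)
                  (CovZ.leaf K2_ok TD_l14895 _)
                  (CovZ.badM (by decide +kernel))))))
              (CovZ.n1 (23472, 25440) (by decide +kernel)
               (CovZ.badM (by decide +kernel))
               (CovZ.n1 (23448, 25416) (by decide +kernel)
                (CovZ.badM (by decide +kernel))
                (CovZ.badM (by decide +kernel))))))
            (CovZ.n1 (23520, 25536) (by decide +kernel)
             (CovZ.badM (by decide +kernel))
             (CovZ.n1 (23472, 25488) (by decide +kernel)
              (CovZ.badM (by decide +kernel))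
              (CovZ.badM (by decide +kernel)))))))))
       (CovZ.subM 53919893334301279589345448155580909026322755132836740923298282471424 (by decide +kernel)
        (CovZ.n1 (23040, 25728) (by decide +kernel)
         (CovZ.badM (by decide +kernel))
         (CovZ.n1 (23232, 25536) (by decide +kernel)
          (CovZ.n2 (23040, 25536) (by decide +kernel)
           (CovZ.badM (by decide +kernel))
           (CovZ.n1 (23136, 25440) (by decide +kernel)
            (CovZ.n2 (23040, 25440) (by decide +kernel)
             (CovZ.badM (by decide +kernel))
             (CovZ.n1 (23088, 25392) (by decide +kernel)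
              (CovZ.n2 (23040, 25392) (by decide +kernel)
               (CovZ.badM (by decide +kernel))
               (CovZ.n1 (23064, 25368) (by decide +kernel)
                (CovZ.leaf K2_ok TD_l14896 _)
                (CovZ.n1 (23064, 25392) (by decide +kernel)
                 (CovZ.leaf K2_ok TD_l14897 _)
                 (CovZ.n1 (23052, 25380) (by decide +kernel)
                  (CovZ.badM (by decide +kernel))
                  (CovZ.leaf K2_ok TD_l14898 _)))))
              (CovZ.badM (by decide +kernel))))
            (CovZ.badM (by decide +kernel))))
          (CovZ.badM (by decide +kernel)))))))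

theorem TD_u74 : CovZ TD_M (toL (selN TD_LN 4338724685232336772107931858357199220002290163999212423084656929007918276509348484631453686063628)) [0, 7, 6, 1] (23040, 25344) (23040, 24576) (23808, 25344) :=
    (CovZ.n1 (23424, 24960) (by decide +kernel)
      (CovZ.n2 (23040, 24960) (by decide +kernel)
       (CovZ.subM 4338724685232336772107931858357199220002290158012168111263227712646477595171464644637452192972812 (by decide +kernel)
        (CovZ.n2 (23232, 25152) (by decide +kernel)
         (CovZ.n2 (23232, 24960) (by decide +kernel)
          (CovZ.n2 (23136, 25056) (by decide +kernel)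
           (CovZ.n2 (23232, 25056) (by decide +kernel)
            (CovZ.leaf K2_ok TD_l3036 _)
            (CovZ.leaf K2_ok TD_l3037 _))
           (CovZ.leaf K2_ok TD_l3038 _))
          (CovZ.n1 (23328, 25056) (by decide +kernel)
           (CovZ.leaf K2_ok TD_l3039 _)
           (CovZ.leaf K2_ok TD_l3040 _)))
         (CovZ.n1 (23040, 25152) (by decide +kernel)
          (CovZ.n2 (23136, 25248) (by decide +kernel)
           (CovZ.n2 (23136, 25152) (by decide +kernel)
            (CovZ.n2 (23088, 25200) (by decide +kernel)
             (CovZ.leaf K2_ok TD_l3041 _)
             (CovZ.leaf K2_ok TD_l3042 _))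
            (CovZ.n1 (23184, 25200) (by decide +kernel)
             (CovZ.leaf K2_ok TD_l3043 _)
             (CovZ.leaf K2_ok TD_l3044 _)))
           (CovZ.n1 (23040, 25248) (by decide +kernel)
            (CovZ.subM 883477452282526466071238097246862531528728152251228285253475538443436044 (by decide +kernel)
             (CovZ.n2 (23088, 25296) (by decide +kernel)
              (CovZ.n2 (23088, 25248) (by decide +kernel)
               (CovZ.leaf K2_ok TD_l3045 _)
               (CovZ.leaf K2_ok TD_l3046 _))
              (CovZ.n1 (23040, 25296) (by decide +kernel)
               (CovZ.n2 (23064, 25320) (by decide +kernel)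
                (CovZ.leaf K2_ok TD_l3047 _)
                (CovZ.leaf K2_ok TD_l3048 _))
               (CovZ.leaf K2_ok TD_l3049 _))))
            (CovZ.leaf K2_ok TD_l3050 _)))
          (CovZ.n1 (23136, 25056) (by decide +kernel)
           (CovZ.leaf K2_ok TD_l3051 _)
           (CovZ.n1 (23136, 25152) (by decide +kernel)
            (CovZ.leaf K2_ok TD_l3052 _)
            (CovZ.leaf K2_ok TD_l3053 _))))))
       (CovZ.n1 (23232, 24768) (by decide +kernel)
        (CovZ.n2 (23040, 24768) (by decide +kernel)
         (CovZ.n2 (23136, 24864) (by decide +kernel)
          (CovZ.leaf K2_ok TD_l3054 _)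
          (CovZ.leaf K2_ok TD_l3055 _))
         (CovZ.leaf K2_ok TD_l3056 _))
        (CovZ.n1 (23232, 24960) (by decide +kernel)
         (CovZ.leaf K2_ok TD_l3057 _)
         (CovZ.n1 (23136, 24864) (by decide +kernel)
          (CovZ.leaf K2_ok TD_l3058 _)
          (CovZ.leaf K2_ok TD_l3059 _)))))
      (CovZ.n1 (23424, 25344) (by decide +kernel)
       (CovZ.subM 4271975090359808332033087429985480823086654362096996429572347046697418909600259248054956279726092 (by decide +kernel)
        (CovZ.n2 (23616, 25152) (by decide +kernel)
         (CovZ.n2 (23424, 25152) (by decide +kernel)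
          (CovZ.n2 (23520, 25248) (by decide +kernel)
           (CovZ.n2 (23520, 25152) (by decide +kernel)
            (CovZ.leaf K2_ok TD_l3060 _)
            (CovZ.n1 (23568, 25200) (by decide +kernel)
             (CovZ.leaf K2_ok TD_l3061 _)
             (CovZ.leaf K2_ok TD_l3062 _)))
           (CovZ.subM 883423532389192164791648763305891473061503370528828317877382505755049996 (by decide +kernel)
            (CovZ.n1 (23424, 25248) (by decide +kernel)
             (CovZ.n2 (23472, 25296) (by decide +kernel)
              (CovZ.leaf K2_ok TD_l3063 _)
              (CovZ.n1 (23424, 25296) (by decide +kernel)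
               (CovZ.n2 (23448, 25320) (by decide +kernel)
                (CovZ.leaf K2_ok TD_l3064 _)
                (CovZ.leaf K2_ok TD_l3065 _))
               (CovZ.leaf K2_ok TD_l3066 _)))
             (CovZ.leaf K2_ok TD_l3067 _))))
          (CovZ.n1 (23520, 25056) (by decide +kernel)
           (CovZ.leaf K2_ok TD_l3068 _)
           (CovZ.leaf K2_ok TD_l3069 _)))
         (CovZ.n1 (23616, 25344) (by decide +kernel)
          (CovZ.n2 (23712, 25248) (by decide +kernel)
           (CovZ.n2 (23616, 25248) (by decide +kernel)
            (CovZ.n2 (23664, 25296) (by decide +kernel)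
             (CovZ.leaf K2_ok TD_l3070 _)
             (CovZ.leaf K2_ok TD_l3071 _))
            (CovZ.leaf K2_ok TD_l3072 _))
           (CovZ.n1 (23712, 25344) (by decide +kernel)
            (CovZ.n2 (23760, 25296) (by decide +kernel)
             (CovZ.leaf K2_ok TD_l3073 _)
             (CovZ.n1 (23760, 25344) (by decide +kernel)
              (CovZ.leaf K2_ok TD_l3074 _)
              (CovZ.leaf K2_ok TD_l3075 _)))
            (CovZ.subM 4271974071841820164790044295762636618397573836362067418537863571187928921801388849657599397724172 (by decide +kernel)
             (CovZ.n1 (23664, 25296) (by decide +kernel)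
              (CovZ.n2 (23664, 25344) (by decide +kernel)
               (CovZ.leaf K2_ok TD_l3076 _)
               (CovZ.leaf K2_ok TD_l3077 _))
              (CovZ.n1 (23712, 25296) (by decide +kernel)
               (CovZ.leaf K2_ok TD_l3078 _)
               (CovZ.leaf K2_ok TD_l3079 _))))))
          (CovZ.n1 (23520, 25248) (by decide +kernel)
           (CovZ.subM 883423532389192164791648763305891473061503370528526086422478848461373452 (by decide +kernel)
            (CovZ.n2 (23520, 25344) (by decide +kernel)
             (CovZ.n2 (23568, 25296) (by decide +kernel)
              (CovZ.n2 (23520, 25296) (by decide +kernel)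
               (CovZ.n2 (23544, 25320) (by decide +kernel)
                (CovZ.leaf K2_ok TD_l3080 _)
                (CovZ.leaf K2_ok TD_l3081 _))
               (CovZ.leaf K2_ok TD_l3082 _))
              (CovZ.n1 (23568, 25344) (by decide +kernel)
               (CovZ.leaf K2_ok TD_l3083 _)
               (CovZ.n1 (23544, 25320) (by decide +kernel)
                (CovZ.leaf K2_ok TD_l3084 _)
                (CovZ.leaf K2_ok TD_l3085 _))))
             (CovZ.n1 (23472, 25296) (by decide +kernel)
              (CovZ.n2 (23472, 25344) (by decide +kernel)
               (CovZ.leaf K2_ok TD_l3086 _)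
               (CovZ.n1 (23448, 25320) (by decide +kernel)
                (CovZ.leaf K2_ok TD_l3087 _)
                (CovZ.leaf K2_ok TD_l3088 _)))
              (CovZ.n1 (23520, 25296) (by decide +kernel)
               (CovZ.leaf K2_ok TD_l3089 _)
               (CovZ.leaf K2_ok TD_l3090 _)))))
           (CovZ.subM 4271974071841820164790044295762636618397573836362067418537863571187928921801388849657599397724172 (by decide +kernel)
            (CovZ.n1 (23616, 25248) (by decide +kernel)
             (CovZ.n2 (23568, 25200) (by decide +kernel)
              (CovZ.leaf K2_ok TD_l3091 _)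
              (CovZ.leaf K2_ok TD_l3092 _))
             (CovZ.n1 (23568, 25296) (by decide +kernel)
              (CovZ.n2 (23616, 25296) (by decide +kernel)
               (CovZ.leaf K2_ok TD_l3093 _)
               (CovZ.leaf K2_ok TD_l3094 _))
              (CovZ.leaf K2_ok TD_l3095 _))))))))
       (CovZ.subM 4338724685232336772107931858357199220002290158009245107988565906810070225506032078598140327886860 (by decide +kernel)
        (CovZ.n1 (23232, 25152) (by decide +kernel)
         (CovZ.n2 (23232, 25344) (by decide +kernel)
          (CovZ.n2 (23328, 25248) (by decide +kernel)
           (CovZ.subM 883423532389192164791648763305891473061503370528828317877382471395311628 (by decide +kernel)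
            (CovZ.n2 (23232, 25248) (by decide +kernel)
             (CovZ.n2 (23280, 25296) (by decide +kernel)
              (CovZ.n2 (23280, 25248) (by decide +kernel)
               (CovZ.leaf K2_ok TD_l3096 _)
               (CovZ.leaf K2_ok TD_l3097 _))
              (CovZ.n1 (23232, 25296) (by decide +kernel)
               (CovZ.n2 (23256, 25320) (by decide +kernel)
                (CovZ.leaf K2_ok TD_l3098 _)
                (CovZ.leaf K2_ok TD_l3099 _))
               (CovZ.leaf K2_ok TD_l3100 _)))
             (CovZ.leaf K2_ok TD_l3101 _)))
           (CovZ.subM 883423532389192164791648763305891473061503370528526086422478848461373452 (by decide +kernel)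
            (CovZ.n1 (23328, 25344) (by decide +kernel)
             (CovZ.n2 (23376, 25296) (by decide +kernel)
              (CovZ.n2 (23328, 25296) (by decide +kernel)
               (CovZ.n2 (23352, 25320) (by decide +kernel)
                (CovZ.leaf K2_ok TD_l3102 _)
                (CovZ.leaf K2_ok TD_l3103 _))
               (CovZ.leaf K2_ok TD_l3104 _))
              (CovZ.n1 (23376, 25344) (by decide +kernel)
               (CovZ.leaf K2_ok TD_l3105 _)
               (CovZ.n1 (23352, 25320) (by decide +kernel)
                (CovZ.leaf K2_ok TD_l3106 _)
                (CovZ.leaf K2_ok TD_l3107 _))))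
             (CovZ.n1 (23280, 25296) (by decide +kernel)
              (CovZ.n2 (23280, 25344) (by decide +kernel)
               (CovZ.leaf K2_ok TD_l3108 _)
               (CovZ.n1 (23256, 25320) (by decide +kernel)
                (CovZ.leaf K2_ok TD_l3109 _)
                (CovZ.leaf K2_ok TD_l3110 _)))
              (CovZ.n1 (23328, 25296) (by decide +kernel)
               (CovZ.leaf K2_ok TD_l3111 _)
               (CovZ.n1 (23304, 25320) (by decide +kernel)
                (CovZ.leaf K2_ok TD_l3112 _)
                (CovZ.leaf K2_ok TD_l3113 _)))))))
          (CovZ.n1 (23136, 25248) (by decide +kernel)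
           (CovZ.subM 883477452282526466071238097246862531528728152251228285253475538443436044 (by decide +kernel)
            (CovZ.n2 (23136, 25344) (by decide +kernel)
             (CovZ.n2 (23184, 25296) (by decide +kernel)
              (CovZ.n2 (23136, 25296) (by decide +kernel)
               (CovZ.n2 (23160, 25320) (by decide +kernel)
                (CovZ.leaf K2_ok TD_l3114 _)
                (CovZ.leaf K2_ok TD_l3115 _))
               (CovZ.leaf K2_ok TD_l3116 _))
              (CovZ.n1 (23184, 25344) (by decide +kernel)
               (CovZ.leaf K2_ok TD_l3117 _)
               (CovZ.n1 (23160, 25320) (by decide +kernel)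
                (CovZ.leaf K2_ok TD_l3118 _)
                (CovZ.leaf K2_ok TD_l3119 _))))
             (CovZ.n1 (23088, 25296) (by decide +kernel)
              (CovZ.n2 (23088, 25344) (by decide +kernel)
               (CovZ.leaf K2_ok TD_l3120 _)
               (CovZ.n1 (23064, 25320) (by decide +kernel)
                (CovZ.leaf K2_ok TD_l3121 _)
                (CovZ.leaf K2_ok TD_l3122 _)))
              (CovZ.n1 (23136, 25296) (by decide +kernel)
               (CovZ.leaf K2_ok TD_l3123 _)
               (CovZ.leaf K2_ok TD_l3124 _)))))
           (CovZ.subM 883423532389192164791648763305891473061503370528828317877382471395311628 (by decide +kernel)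
            (CovZ.n1 (23232, 25248) (by decide +kernel)
             (CovZ.n2 (23184, 25200) (by decide +kernel)
              (CovZ.leaf K2_ok TD_l3125 _)
              (CovZ.leaf K2_ok TD_l3126 _))
             (CovZ.n1 (23184, 25296) (by decide +kernel)
              (CovZ.n2 (23232, 25296) (by decide +kernel)
               (CovZ.leaf K2_ok TD_l3127 _)
               (CovZ.n1 (23208, 25320) (by decide +kernel)
                (CovZ.leaf K2_ok TD_l3128 _)
                (CovZ.leaf K2_ok TD_l3129 _)))
              (CovZ.n1 (23184, 25248) (by decide +kernel)
               (CovZ.leaf K2_ok TD_l3130 _)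
               (CovZ.leaf K2_ok TD_l3131 _)))))))
         (CovZ.n1 (23424, 25152) (by decide +kernel)
          (CovZ.n2 (23328, 25056) (by decide +kernel)
           (CovZ.leaf K2_ok TD_l3132 _)
           (CovZ.n1 (23424, 25056) (by decide +kernel)
            (CovZ.leaf K2_ok TD_l3133 _)
            (CovZ.leaf K2_ok TD_l3134 _)))
          (CovZ.n1 (23328, 25248) (by decide +kernel)
           (CovZ.n2 (23424, 25248) (by decide +kernel)
            (CovZ.n2 (23376, 25200) (by decide +kernel)
             (CovZ.leaf K2_ok TD_l3135 _)
             (CovZ.leaf K2_ok TD_l3136 _))
            (CovZ.subM 883423532389192164791648763305891473061503370528526086422478848461373452 (by decide +kernel)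
             (CovZ.n1 (23376, 25296) (by decide +kernel)
              (CovZ.n2 (23424, 25296) (by decide +kernel)
               (CovZ.leaf K2_ok TD_l3137 _)
               (CovZ.n1 (23400, 25320) (by decide +kernel)
                (CovZ.leaf K2_ok TD_l3138 _)
                (CovZ.leaf K2_ok TD_l3139 _)))
              (CovZ.leaf K2_ok TD_l3140 _))))
           (CovZ.n1 (23328, 25152) (by decide +kernel)
            (CovZ.n2 (23280, 25200) (by decide +kernel)
             (CovZ.leaf K2_ok TD_l3141 _)
             (CovZ.leaf K2_ok TD_l3142 _))
            (CovZ.n1 (23376, 25200) (by decide +kernel)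
             (CovZ.leaf K2_ok TD_l3143 _)
             (CovZ.leaf K2_ok TD_l3144 _)))))))))

end Pool.Agent.TET
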