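import Pool.Agent.Helper38_TET.TD_M
import Pool.Agent.Helper38_TET.TD_L
import Pool.Agent.Helper38_TET.TD_0
import Pool.Agent.Helper38_TET.TD_1
import Pool.Agent.Helper38_TET.TD_2
import Pool.Agent.Helper38_TET.TD_3
import Pool.Agent.Helper38_TET.TD_15
import Pool.Agent.Helper38_TET.TD_16
import Pool.Agent.Helper38_TET.TD_17
import Pool.Agent.Helper38_TET.TD_18
import Pool.Agent.Helper38_TET.TD_19
import Pool.Agent.Helper38_TET.TD_31
import Pool.Agent.Helper38_TET.TD_32
import Pool.Agent.Helper38_TET.TD_33
import Pool.Agent.Helper38_TET.TD_34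
import Pool.Agent.Helper38_TET.TD_44
import Pool.Agent.Helper38_TET.TD_45
import Pool.Agent.Helper38_TET.TD_46
import Pool.Agent.Helper38_TET.TD_58
import Pool.Agent.Helper38_TET.TD_72
import Pool.Agent.Helper38_TET.TD_86
import Pool.Agent.Helper38_TET.TD_98
import Pool.Agent.Helper38_TET.TD_99
import Pool.Agent.Helper38_TET.TD_U2
import Pool.Agent.Helper38_TET.TD_U3
import Pool.Agent.Helper38_TET.TD_U4

/-!
# MP_c7c9bf_co: certificates, family TD
-/

set_option autoImplicit false
set_option maxRecDepth 100000

namespace Pool.Agent.TET

theorem TD_s5_4 : SqZ TD_M TD_L [0, 7, 6, 1] 18432 12288 1536 5 4 :=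
  SqZ.mk (a := 26112) (b := 27648) (c := 18432) (d := 19968) (by norm_num) (by norm_num) (by norm_num) (by norm_num)
    (CovZ.topM TD_LL 5517170450155940377538320705682467325751030432336360593709726807666851627249722354398653680653741416696997 (by decide +kernel) (CovZ.n2 (26880, 19200) (by decide +kernel)
    (CovZ.subM 8749013916090047071743613298504624281960539254804042403486204536617263098335462831791117804482120837 (by decide +kernel)
     (CovZ.n2 (27648, 19200) (by decide +kernel)
      (CovZ.n2 (27264, 18816) (by decide +kernel)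
       (CovZ.n2 (27264, 19200) (by decide +kernel)
        (CovZ.leaf K2_ok TD_l6736 _)
        (CovZ.leaf K2_ok TD_l6737 _))
       (CovZ.n1 (27648, 18816) (by decide +kernel)
        (CovZ.leaf K2_ok TD_l6738 _)
        (CovZ.leaf K2_ok TD_l6739 _)))
      (CovZ.n1 (27264, 19584) (by decide +kernel)
       (CovZ.n2 (27648, 19584) (by decide +kernel)
        (CovZ.leaf K2_ok TD_l6740 _)
        (CovZ.leaf K2_ok TD_l6741 _))
       (CovZ.n1 (27264, 19200) (by decide +kernel)
        (CovZ.n2 (27072, 19392) (by decide +kernel)
         (CovZ.leaf K2_ok TD_l6742 _)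
         (CovZ.leaf K2_ok TD_l6743 _))
        (CovZ.leaf K2_ok TD_l6744 _)))))
    (CovZ.n1 (26880, 18432) (by decide +kernel)
     (CovZ.n2 (26496, 18816) (by decide +kernel)
      (CovZ.subM 5223727790739310797723545205775247415129103556931914607730176101534179621851478391918283324313370485637249 (by decide +kernel)
       (CovZ.n2 (26880, 18816) (by decide +kernel)
        (CovZ.n2 (26688, 18624) (by decide +kernel)
         (CovZ.leaf K2_ok TD_l6745 _)
         (CovZ.leaf K2_ok TD_l6746 _))
        (CovZ.n1 (26688, 19008) (by decide +kernel)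
         (CovZ.leaf K2_ok TD_l6747 _)
         (CovZ.leaf K2_ok TD_l6748 _))))
      (CovZ.n1 (26496, 18432) (by decide +kernel)
       (CovZ.n2 (26304, 18624) (by decide +kernel)
        (CovZ.leaf K2_ok TD_l6749 _)
        (CovZ.leaf K2_ok TD_l6750 _))
       (CovZ.leaf K2_ok TD_l6751 _)))
     (CovZ.n1 (27264, 18816) (by decide +kernel)
      (CovZ.n2 (27264, 18432) (by decide +kernel)
       (CovZ.leaf K2_ok TD_l6752 _)
       (CovZ.leaf K2_ok TD_l6753 _))
      (CovZ.leaf K2_ok TD_l6754 _)))))
    (CovZ.topM TD_LL 5517170450155940377538320705682467325751030432336360593709726807666851629845870783666067494918989581307045 (by decide +kernel) (CovZ.n0 (26880, 19200) (by decide +kernel)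
    (CovZ.n2 (26112, 19200) (by decide +kernel)
     (CovZ.n2 (26496, 19584) (by decide +kernel)
      (CovZ.n2 (26496, 19200) (by decide +kernel)
       (CovZ.n2 (26304, 19392) (by decide +kernel)
        (CovZ.n2 (26496, 19392) (by decide +kernel)
         (CovZ.leaf K2_ok TD_l6755 _)
         (CovZ.leaf K2_ok TD_l6756 _))
        (CovZ.n1 (26304, 19200) (by decide +kernel)
         (CovZ.leaf K2_ok TD_l6757 _)
         (CovZ.leaf K2_ok TD_l6758 _)))
       (CovZ.n1 (26688, 19392) (by decide +kernel)
        (CovZ.leaf K2_ok TD_l6759 _)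
        (CovZ.leaf K2_ok TD_l6760 _)))
      (CovZ.n1 (26112, 19584) (by decide +kernel)
       (CovZ.n2 (26304, 19776) (by decide +kernel)
        (CovZ.n2 (26304, 19584) (by decide +kernel)
         (CovZ.n2 (26208, 19680) (by decide +kernel)
          (CovZ.leaf K2_ok TD_l6761 _)
          (CovZ.leaf K2_ok TD_l6762 _))
         (CovZ.leaf K2_ok TD_l6763 _))
        (CovZ.leaf K2_ok TD_l6764 _))
       (CovZ.n1 (26304, 19392) (by decide +kernel)
        (CovZ.leaf K2_ok TD_l6765 _)
        (CovZ.n1 (26304, 19584) (by decide +kernel)
         (CovZ.leaf K2_ok TD_l6766 _)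
         (CovZ.n1 (26208, 19488) (by decide +kernel)
          (CovZ.leaf K2_ok TD_l6767 _)
          (CovZ.leaf K2_ok TD_l6768 _))))))
     (CovZ.n1 (26496, 18816) (by decide +kernel)
      (CovZ.n2 (26112, 18816) (by decide +kernel)
       (CovZ.n2 (26304, 19008) (by decide +kernel)
        (CovZ.leaf K2_ok TD_l6769 _)
        (CovZ.leaf K2_ok TD_l6770 _))
       (CovZ.leaf K2_ok TD_l6771 _))
      (CovZ.n1 (26496, 19200) (by decide +kernel)
       (CovZ.leaf K2_ok TD_l6772 _)
       (CovZ.n1 (26304, 19008) (by decide +kernel)
        (CovZ.leaf K2_ok TD_l6773 _)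
        (CovZ.leaf K2_ok TD_l6774 _)))))
    (CovZ.n1 (26880, 19968) (by decide +kernel)
     (CovZ.subM 8749013916090047071743613298504624281960539254804042403486204536617263098335462831791117804482120837 (by decide +kernel)
      (CovZ.n2 (27264, 19584) (by decide +kernel)
       (CovZ.leaf K2_ok TD_l6775 _)
       (CovZ.n1 (27264, 19968) (by decide +kernel)
        (CovZ.leaf K2_ok TD_l6776 _)
        (CovZ.n1 (27072, 19776) (by decide +kernel)
         (CovZ.leaf K2_ok TD_l6777 _)
         (CovZ.leaf K2_ok TD_l6778 _)))))
     (CovZ.n1 (26496, 19584) (by decide +kernel)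
      (CovZ.n2 (26496, 19968) (by decide +kernel)
       (CovZ.leaf K2_ok TD_l6779 _)
       (CovZ.n1 (26304, 19776) (by decide +kernel)
        (CovZ.n2 (26304, 19968) (by decide +kernel)
         (CovZ.leaf K2_ok TD_l6780 _)
         (CovZ.leaf K2_ok TD_l6781 _))
        (CovZ.n1 (26496, 19776) (by decide +kernel)
         (CovZ.leaf K2_ok TD_l6782 _)
         (CovZ.leaf K2_ok TD_l6783 _))))
      (CovZ.subM 5223727790747654497082611260799076979823494539812085116604221421504957464085166707463954797933641081077893 (by decide +kernel)
       (CovZ.n1 (26880, 19584) (by decide +kernel)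
        (CovZ.n2 (26688, 19392) (by decide +kernel)
         (CovZ.leaf K2_ok TD_l6784 _)
         (CovZ.leaf K2_ok TD_l6785 _))
        (CovZ.n1 (26688, 19776) (by decide +kernel)
         (CovZ.leaf K2_ok TD_l6786 _)
         (CovZ.n1 (26688, 19584) (by decide +kernel)
          (CovZ.leaf K2_ok TD_l6787 _)
          (CovZ.leaf K2_ok TD_l6788 _)))))))))

theorem TD_s6_4 : SqZ TD_M TD_L [0, 7, 6, 1] 18432 12288 1536 6 4 :=
  SqZ.mk (a := 27648) (b := 29184) (c := 18432) (d := 19968) (by norm_num) (by norm_num) (by norm_num) (by norm_num)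
    (CovZ.topM TD_LL 8749011308552704023497478941826628260019970265648219775280886566632405412179508281611457740534828165 (by decide +kernel) (CovZ.n2 (28416, 19200) (by decide +kernel)
    (CovZ.subM 8749002899140004869272565494760500506663305625536560879452904747382705265051483393911931677849013377 (by decide +kernel)
     (CovZ.n2 (29184, 19200) (by decide +kernel)
      (CovZ.n2 (28800, 18816) (by decide +kernel)
       (CovZ.leaf K2_ok TD_l8784 _)
       (CovZ.leaf K2_ok TD_l8785 _))
      (CovZ.n1 (28800, 19584) (by decide +kernel)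
       (CovZ.leaf K2_ok TD_l8786 _)
       (CovZ.leaf K2_ok TD_l8787 _))))
    (CovZ.n1 (28416, 18432) (by decide +kernel)
     (CovZ.n2 (28032, 18816) (by decide +kernel)
      (CovZ.leaf K2_ok TD_l8788 _)
      (CovZ.leaf K2_ok TD_l8789 _))
     (CovZ.leaf K2_ok TD_l8790 _))))
    (CovZ.topM TD_LL 8749011308552704023497478941826628260019970265648219775280886566632405412179508281611457740534828165 (by decide +kernel) (CovZ.n0 (28416, 19200) (by decide +kernel)
    (CovZ.n2 (27648, 19200) (by decide +kernel)
     (CovZ.n2 (28032, 19584) (by decide +kernel)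
      (CovZ.n2 (28032, 19200) (by decide +kernel)
       (CovZ.leaf K2_ok TD_l8791 _)
       (CovZ.leaf K2_ok TD_l8792 _))
      (CovZ.leaf K2_ok TD_l8793 _))
     (CovZ.leaf K2_ok TD_l8794 _))
    (CovZ.n1 (28416, 19968) (by decide +kernel)
     (CovZ.leaf K2_ok TD_l8795 _)
     (CovZ.n1 (28032, 19584) (by decide +kernel)
      (CovZ.leaf K2_ok TD_l8796 _)
      (CovZ.leaf K2_ok TD_l8797 _)))))

theorem TD_s7_4 : SqZ TD_M TD_L [0, 7, 6, 1] 18432 12288 1536 7 4 :=
  SqZ.mk (a := 29184) (b := 30720) (c := 18432) (d := 19968) (by norm_num) (by norm_num) (by norm_num) (by norm_num)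
    (CovZ.topM TD_LL 8749002899140004869272565494760500506663305625536559417948479823324453917442795438846827186928831617 (by decide +kernel) (CovZ.n2 (29952, 19200) (by decide +kernel)
    (CovZ.n2 (30720, 19200) (by decide +kernel)
     (CovZ.n2 (30336, 18816) (by decide +kernel)
      (CovZ.leaf K2_ok TD_l10826 _)
      (CovZ.leaf K2_ok TD_l10827 _))
     (CovZ.n1 (30336, 19584) (by decide +kernel)
      (CovZ.leaf K2_ok TD_l10828 _)
      (CovZ.leaf K2_ok TD_l10829 _)))
    (CovZ.n1 (29952, 18432) (by decide +kernel)
     (CovZ.leaf K2_ok TD_l10830 _)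
     (CovZ.leaf K2_ok TD_l10831 _))))
    (CovZ.topM TD_LL 8749002899140004869272565494760500506663305625536559417948479823324453917442795438846827186928831617 (by decide +kernel) (CovZ.n0 (29952, 19200) (by decide +kernel)
    (CovZ.n2 (29184, 19200) (by decide +kernel)
     (CovZ.n2 (29568, 19584) (by decide +kernel)
      (CovZ.leaf K2_ok TD_l10832 _)
      (CovZ.leaf K2_ok TD_l10833 _))
     (CovZ.leaf K2_ok TD_l10834 _))
    (CovZ.n1 (29952, 19968) (by decide +kernel)
     (CovZ.leaf K2_ok TD_l10835 _)
     (CovZ.n1 (29568, 19584) (by decide +kernel)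
      (CovZ.leaf K2_ok TD_l10836 _)
      (CovZ.leaf K2_ok TD_l10837 _)))))

theorem TD_s8_4 : SqZ TD_M TD_L [0, 7, 6, 1] 18432 12288 1536 8 4 :=
  SqZ.mk (a := 30720) (b := 32256) (c := 18432) (d := 19968) (by norm_num) (by norm_num) (by norm_num) (by norm_num)
    (CovZ.topM TD_LL 8749002899132047697490008908470485461412677723573223895831229907610711666823703017715913683099517056 (by decide +kernel) (CovZ.n2 (31488, 19200) (by decide +kernel)
    (CovZ.subM 5708990770823839526709023956368811464073478144 (by decide +kernel)
     (CovZ.n2 (32256, 19200) (by decide +kernel)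
      (CovZ.n2 (31872, 18816) (by decide +kernel)
       (CovZ.leaf K2_ok TD_l12907 _)
       (CovZ.badM (by decide +kernel)))
      (CovZ.n1 (31872, 19584) (by decide +kernel)
       (CovZ.badM (by decide +kernel))
       (CovZ.leaf K2_ok TD_l12912 _))))
    (CovZ.n1 (31488, 18432) (by decide +kernel)
     (CovZ.n2 (31104, 18816) (by decide +kernel)
      (CovZ.leaf K2_ok TD_l12913 _)
      (CovZ.leaf K2_ok TD_l12914 _))
     (CovZ.n1 (31872, 18816) (by decide +kernel)
      (CovZ.leaf K2_ok TD_l12915 _)
      (CovZ.leaf K2_ok TD_l12916 _)))))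
    (CovZ.topM TD_LL 8749002899132047697490008908470485461412677723573223895831229907610711666823703017715913683099517056 (by decide +kernel) (CovZ.n0 (31488, 19200) (by decide +kernel)
    (CovZ.n2 (30720, 19200) (by decide +kernel)
     (CovZ.n2 (31104, 19584) (by decide +kernel)
      (CovZ.leaf K2_ok TD_l12917 _)
      (CovZ.leaf K2_ok TD_l12918 _))
     (CovZ.leaf K2_ok TD_l12919 _))
    (CovZ.n1 (31488, 19968) (by decide +kernel)
     (CovZ.n2 (31872, 19584) (by decide +kernel)
      (CovZ.leaf K2_ok TD_l12920 _)
      (CovZ.leaf K2_ok TD_l12921 _))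
     (CovZ.n1 (31104, 19584) (by decide +kernel)
      (CovZ.leaf K2_ok TD_l12922 _)
      (CovZ.leaf K2_ok TD_l12923 _)))))

theorem TD_s0_5 : SqZ TD_M TD_L [0, 7, 6, 1] 18432 12288 1536 0 5 :=
  SqZ.mk (a := 18432) (b := 19968) (c := 19968) (d := 21504) (by norm_num) (by norm_num) (by norm_num) (by norm_num)
    (CovZ.topM TD_LL 0 (by decide +kernel) (CovZ.badM (by decide +kernel)))
    (CovZ.topM TD_LL 0 (by decide +kernel) (CovZ.badM (by decide +kernel)))

theorem TD_s1_5 : SqZ TD_M TD_L [0, 7, 6, 1] 18432 12288 1536 1 5 :=
  SqZ.mk (a := 19968) (b := 21504) (c := 19968) (d := 21504) (by norm_num) (by norm_num) (by norm_num) (by norm_num)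
    (CovZ.topM TD_LL 0 (by decide +kernel) (CovZ.badM (by decide +kernel)))
    (CovZ.topM TD_LL 0 (by decide +kernel) (CovZ.badM (by decide +kernel)))

theorem TD_s2_5 : SqZ TD_M TD_L [0, 7, 6, 1] 18432 12288 1536 2 5 :=
  SqZ.mk (a := 21504) (b := 23040) (c := 19968) (d := 21504) (by norm_num) (by norm_num) (by norm_num) (by norm_num)
    (CovZ.topM TD_LL 0 (by decide +kernel) (CovZ.badM (by decide +kernel)))
    (CovZ.topM TD_LL 0 (by decide +kernel) (CovZ.badM (by decide +kernel)))

theorem TD_s3_5 : SqZ TD_M TD_L [0, 7, 6, 1] 18432 12288 1536 3 5 :=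
  SqZ.mk (a := 23040) (b := 24576) (c := 19968) (d := 21504) (by norm_num) (by norm_num) (by norm_num) (by norm_num)
    (CovZ.topM TD_LL 4271974071842305832013100728084286377208581001665096282306265348016431461570250703240370495447588 (by decide +kernel) (CovZ.n2 (23808, 20736) (by decide +kernel)
    (CovZ.n2 (24576, 20736) (by decide +kernel)
     TD_u37
     TD_u38)
    (CovZ.subM 5986313561002763764963189781552597970858600699011584 (by decide +kernel)
     (CovZ.n1 (23808, 19968) (by decide +kernel)
      (CovZ.badM (by decide +kernel))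
      (CovZ.n1 (24192, 20352) (by decide +kernel)
       (CovZ.n2 (24192, 19968) (by decide +kernel)
        (CovZ.badM (by decide +kernel))
        (CovZ.n1 (24384, 20160) (by decide +kernel)
         (CovZ.badM (by decide +kernel))
         (CovZ.badM (by decide +kernel))))
       (CovZ.badM (by decide +kernel)))))))
    (CovZ.topM TD_LL 4271974071842305832013100728084286377208581001665096282306265348016431461570250703240370495447588 (by decide +kernel) (CovZ.n0 (23808, 20736) (by decide +kernel)
    (CovZ.n2 (23040, 20736) (by decide +kernel)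
     (CovZ.n2 (23424, 21120) (by decide +kernel)
      (CovZ.badM (by decide +kernel))
      (CovZ.badM (by decide +kernel)))
     (CovZ.badM (by decide +kernel)))
    (CovZ.n1 (23808, 21504) (by decide +kernel)
     (CovZ.n2 (24192, 21120) (by decide +kernel)
      TD_u39
      TD_u40)
     (CovZ.subM 485667223057315745182148003171950965475754161725661448921170019285302465176962859040 (by decide +kernel)
      (CovZ.n1 (23424, 21120) (by decide +kernel)
       (CovZ.n2 (23424, 21504) (by decide +kernel)
        (CovZ.n2 (23616, 21312) (by decide +kernel)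
         (CovZ.badM (by decide +kernel))
         (CovZ.n1 (23616, 21504) (by decide +kernel)
          (CovZ.n2 (23712, 21408) (by decide +kernel)
           (CovZ.subM 1237940039285380310466822144 (by decide +kernel)
            (CovZ.n2 (23616, 21408) (by decide +kernel)
             (CovZ.n2 (23664, 21456) (by decide +kernel)
              (CovZ.n2 (23664, 21408) (by decide +kernel)
               (CovZ.leaf K2_ok TD_l2275 _)
               (CovZ.n1 (23688, 21432) (by decide +kernel)
                (CovZ.leaf K2_ok TD_l2276 _)
                (CovZ.leaf K2_ok TD_l2277 _)))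
              (CovZ.n1 (23616, 21456) (by decide +kernel)
               (CovZ.n2 (23640, 21480) (by decide +kernel)
                (CovZ.leaf K2_ok TD_l2278 _)
                (CovZ.leaf K2_ok TD_l2279 _))
               (CovZ.leaf K2_ok TD_l2280 _)))
             (CovZ.n1 (23664, 21360) (by decide +kernel)
              (CovZ.badM (by decide +kernel))
              (CovZ.n1 (23664, 21408) (by decide +kernel)
               (CovZ.leaf K2_ok TD_l2281 _)
               (CovZ.badM (by decide +kernel))))))
           (CovZ.n1 (23712, 21504) (by decide +kernel)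
            (CovZ.n2 (23760, 21456) (by decide +kernel)
             (CovZ.leaf K2_ok TD_l2282 _)
             (CovZ.n1 (23760, 21504) (by decide +kernel)
              (CovZ.leaf K2_ok TD_l2283 _)
              (CovZ.leaf K2_ok TD_l2284 _)))
            (CovZ.subM 485667223057315691262254668870671375410973169020948622262628851953090269110924738560 (by decide +kernel)
             (CovZ.n1 (23664, 21456) (by decide +kernel)
              (CovZ.n2 (23664, 21504) (by decide +kernel)
               (CovZ.leaf K2_ok TD_l2285 _)
               (CovZ.n1 (23640, 21480) (by decide +kernel)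
                (CovZ.leaf K2_ok TD_l2286 _)
                (CovZ.leaf K2_ok TD_l2287 _)))
              (CovZ.n1 (23712, 21456) (by decide +kernel)
               (CovZ.n2 (23688, 21432) (by decide +kernel)
                (CovZ.leaf K2_ok TD_l2288 _)
                (CovZ.leaf K2_ok TD_l2289 _))
               (CovZ.leaf K2_ok TD_l2290 _))))))
          (CovZ.subM 302240678275729716150272 (by decide +kernel)
           (CovZ.n1 (23520, 21408) (by decide +kernel)
            (CovZ.n2 (23520, 21504) (by decide +kernel)
             (CovZ.n2 (23568, 21456) (by decide +kernel)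
              (CovZ.badM (by decide +kernel))
              (CovZ.n1 (23568, 21504) (by decide +kernel)
               (CovZ.leaf K2_ok TD_l2291 _)
               (CovZ.n1 (23544, 21480) (by decide +kernel)
                (CovZ.leaf K2_ok TD_l14834 _)
                (CovZ.leaf K2_ok TD_l14835 _))))
             (CovZ.badM (by decide +kernel)))
            (CovZ.n1 (23616, 21408) (by decide +kernel)
             (CovZ.badM (by decide +kernel))
             (CovZ.n1 (23568, 21456) (by decide +kernel)
              (CovZ.n2 (23616, 21456) (by decide +kernel)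
               (CovZ.badM (by decide +kernel))
               (CovZ.n1 (23592, 21480) (by decide +kernel)
                (CovZ.leaf K2_ok TD_l2292 _)
                (CovZ.badM (by decide +kernel))))
              (CovZ.badM (by decide +kernel))))))))
        (CovZ.badM (by decide +kernel)))
       (CovZ.n1 (23808, 21120) (by decide +kernel)
        (CovZ.badM (by decide +kernel))
        (CovZ.n1 (23616, 21312) (by decide +kernel)
         (CovZ.n2 (23808, 21312) (by decide +kernel)
          (CovZ.subM 730750818665451479385489960049674337889812480000 (by decide +kernel)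
           (CovZ.n2 (23712, 21216) (by decide +kernel)
            (CovZ.n2 (23712, 21312) (by decide +kernel)
             (CovZ.n2 (23760, 21264) (by decide +kernel)
              (CovZ.badM (by decide +kernel))
              (CovZ.n1 (23760, 21312) (by decide +kernel)
               (CovZ.leaf K2_ok TD_l2294 _)
               (CovZ.badM (by decide +kernel))))
             (CovZ.badM (by decide +kernel)))
            (CovZ.n1 (23808, 21216) (by decide +kernel)
             (CovZ.n2 (23760, 21168) (by decide +kernel)
              (CovZ.n2 (23760, 21216) (by decide +kernel)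
               (CovZ.leaf K2_ok TD_l2299 _)
               (CovZ.badM (by decide +kernel)))
              (CovZ.n1 (23808, 21168) (by decide +kernel)
               (CovZ.badM (by decide +kernel))
               (CovZ.n1 (23784, 21192) (by decide +kernel)
                (CovZ.leaf K2_ok TD_l2300 _)
                (CovZ.badM (by decide +kernel)))))
             (CovZ.n1 (23760, 21264) (by decide +kernel)
              (CovZ.n2 (23808, 21264) (by decide +kernel)
               (CovZ.n2 (23784, 21240) (by decide +kernel)
                (CovZ.leaf K2_ok TD_l2301 _)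
                (CovZ.leaf K2_ok TD_l2302 _))
               (CovZ.leaf K2_ok TD_l2303 _))
              (CovZ.n1 (23760, 21216) (by decide +kernel)
               (CovZ.badM (by decide +kernel))
               (CovZ.n1 (23784, 21240) (by decide +kernel)
                (CovZ.leaf K2_ok TD_l2304 _)
                (CovZ.badM (by decide +kernel))))))))
          (CovZ.n1 (23712, 21408) (by decide +kernel)
           (CovZ.n2 (23808, 21408) (by decide +kernel)
            (CovZ.n2 (23760, 21360) (by decide +kernel)
             (CovZ.n2 (23760, 21408) (by decide +kernel)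
              (CovZ.leaf K2_ok TD_l2305 _)
              (CovZ.n1 (23736, 21384) (by decide +kernel)
               (CovZ.leaf K2_ok TD_l2306 _)
               (CovZ.leaf K2_ok TD_l2307 _)))
             (CovZ.n1 (23808, 21360) (by decide +kernel)
              (CovZ.n2 (23784, 21336) (by decide +kernel)
               (CovZ.leaf K2_ok TD_l2308 _)
               (CovZ.leaf K2_ok TD_l2309 _))
              (CovZ.leaf K2_ok TD_l2310 _)))
            (CovZ.n1 (23760, 21456) (by decide +kernel)
             (CovZ.n2 (23808, 21456) (by decide +kernel)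
              (CovZ.leaf K2_ok TD_l2311 _)
              (CovZ.leaf K2_ok TD_l2312 _))
             (CovZ.n1 (23760, 21408) (by decide +kernel)
              (CovZ.leaf K2_ok TD_l2313 _)
              (CovZ.leaf K2_ok TD_l2314 _))))
           (CovZ.subM 730750818665451479385489960049674337924306436096 (by decide +kernel)
            (CovZ.n1 (23712, 21312) (by decide +kernel)
             (CovZ.n2 (23664, 21360) (by decide +kernel)
              (CovZ.n2 (23712, 21360) (by decide +kernel)
               (CovZ.badM (by decide +kernel))
               (CovZ.leaf K2_ok TD_l2317 _))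
              (CovZ.badM (by decide +kernel)))
             (CovZ.n1 (23760, 21360) (by decide +kernel)
              (CovZ.n2 (23760, 21312) (by decide +kernel)
               (CovZ.leaf K2_ok TD_l2320 _)
               (CovZ.leaf K2_ok TD_l2321 _))
              (CovZ.n1 (23712, 21360) (by decide +kernel)
               (CovZ.n2 (23736, 21384) (by decide +kernel)
                (CovZ.leaf K2_ok TD_l2322 _)
                (CovZ.leaf K2_ok TD_l2323 _))
               (CovZ.leaf K2_ok TD_l2324 _)))))))
         (CovZ.subM 730750818665451459101842416358141509965405224960 (by decide +kernel)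
          (CovZ.n1 (23616, 21120) (by decide +kernel)
           (CovZ.badM (by decide +kernel))
           (CovZ.n1 (23712, 21216) (by decide +kernel)
            (CovZ.n2 (23712, 21120) (by decide +kernel)
             (CovZ.badM (by decide +kernel))
             (CovZ.n1 (23760, 21168) (by decide +kernel)
              (CovZ.badM (by decide +kernel))
              (CovZ.badM (by decide +kernel))))
            (CovZ.badM (by decide +kernel))))))))))))

theorem TD_s4_5 : SqZ TD_M TD_L [0, 7, 6, 1] 18432 12288 1536 4 5 :=
  SqZ.mk (a := 24576) (b := 26112) (c := 19968) (d := 21504) (by norm_num) (by norm_num) (by norm_num) (by norm_num)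
    (CovZ.topM TD_LL 311374014529653351350899318390055948462711277917973377885499868795109957822658961591212453362333948994213 (by decide +kernel) (CovZ.n2 (25344, 20736) (by decide +kernel)
    (CovZ.n2 (26112, 20736) (by decide +kernel)
     (CovZ.n2 (25728, 20352) (by decide +kernel)
      (CovZ.n2 (25728, 20736) (by decide +kernel)
       (CovZ.n2 (25920, 20544) (by decide +kernel)
        (CovZ.n2 (25728, 20544) (by decide +kernel)
         (CovZ.leaf K2_ok TD_l4769 _)
         (CovZ.leaf K2_ok TD_l4770 _))
        (CovZ.n1 (25920, 20736) (by decide +kernel)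
         (CovZ.leaf K2_ok TD_l4771 _)
         (CovZ.leaf K2_ok TD_l4772 _)))
       (CovZ.subM 273681682676726156029226644323991588431967765718385240563020534156530698042348214049056749095379492 (by decide +kernel)
        (CovZ.n1 (25536, 20544) (by decide +kernel)
         (CovZ.n2 (25536, 20736) (by decide +kernel)
          (CovZ.leaf K2_ok TD_l4773 _)
          (CovZ.n1 (25440, 20640) (by decide +kernel)
           (CovZ.leaf K2_ok TD_l4774 _)
           (CovZ.leaf K2_ok TD_l4775 _)))
         (CovZ.n1 (25728, 20544) (by decide +kernel)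
          (CovZ.n2 (25632, 20448) (by decide +kernel)
           (CovZ.leaf K2_ok TD_l4776 _)
           (CovZ.leaf K2_ok TD_l4777 _))
          (CovZ.leaf K2_ok TD_l4778 _)))))
      (CovZ.n1 (26112, 20352) (by decide +kernel)
       (CovZ.n2 (25920, 20160) (by decide +kernel)
        (CovZ.n2 (25920, 20352) (by decide +kernel)
         (CovZ.leaf K2_ok TD_l4779 _)
         (CovZ.n1 (25824, 20256) (by decide +kernel)
          (CovZ.leaf K2_ok TD_l4780 _)
          (CovZ.leaf K2_ok TD_l4781 _)))
        (CovZ.n1 (26112, 20160) (by decide +kernel)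
         (CovZ.n2 (26016, 20064) (by decide +kernel)
          (CovZ.leaf K2_ok TD_l4782 _)
          (CovZ.leaf K2_ok TD_l4783 _))
         (CovZ.leaf K2_ok TD_l4784 _)))
       (CovZ.n1 (25920, 20544) (by decide +kernel)
        (CovZ.n2 (26112, 20544) (by decide +kernel)
         (CovZ.n2 (26016, 20448) (by decide +kernel)
          (CovZ.leaf K2_ok TD_l4785 _)
          (CovZ.leaf K2_ok TD_l4786 _))
         (CovZ.leaf K2_ok TD_l4787 _))
        (CovZ.n1 (25920, 20352) (by decide +kernel)
         (CovZ.leaf K2_ok TD_l4788 _)
         (CovZ.n1 (26016, 20448) (by decide +kernel)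
          (CovZ.leaf K2_ok TD_l4789 _)
          (CovZ.leaf K2_ok TD_l4790 _))))))
     (CovZ.n1 (25728, 21120) (by decide +kernel)
      (CovZ.n2 (26112, 21120) (by decide +kernel)
       (CovZ.n2 (25920, 20928) (by decide +kernel)
        (CovZ.leaf K2_ok TD_l4791 _)
        (CovZ.leaf K2_ok TD_l4792 _))
       (CovZ.n1 (25920, 21312) (by decide +kernel)
        (CovZ.leaf K2_ok TD_l4793 _)
        (CovZ.leaf K2_ok TD_l4794 _)))
      (CovZ.n1 (25728, 20736) (by decide +kernel)
       (CovZ.subM 273681682676726156029226644323991588431967765718385971313839199608070929523179178872262503505748516 (by decide +kernel)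
        (CovZ.n2 (25536, 20928) (by decide +kernel)
         (CovZ.n2 (25728, 20928) (by decide +kernel)
          (CovZ.n2 (25632, 20832) (by decide +kernel)
           (CovZ.leaf K2_ok TD_l4795 _)
           (CovZ.leaf K2_ok TD_l4796 _))
          (CovZ.leaf K2_ok TD_l4797 _))
         (CovZ.n1 (25536, 20736) (by decide +kernel)
          (CovZ.n2 (25440, 20832) (by decide +kernel)
           (CovZ.leaf K2_ok TD_l4798 _)
           (CovZ.leaf K2_ok TD_l4799 _))
          (CovZ.n1 (25632, 20832) (by decide +kernel)
           (CovZ.leaf K2_ok TD_l4800 _)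
           (CovZ.leaf K2_ok TD_l4801 _)))))
       (CovZ.n1 (25920, 20928) (by decide +kernel)
        (CovZ.n2 (25920, 20736) (by decide +kernel)
         (CovZ.leaf K2_ok TD_l4802 _)
         (CovZ.leaf K2_ok TD_l4803 _))
        (CovZ.leaf K2_ok TD_l4804 _)))))
    (CovZ.n1 (25344, 19968) (by decide +kernel)
     TD_u41
     TD_u42)))
    (CovZ.topM TD_LL 311374014529653351350899318390055948462711277917973377885499868795109957822658961591212453362333948994213 (by decide +kernel) (CovZ.n0 (25344, 20736) (by decide +kernel)
    (CovZ.subM 273414684297236042268809665270088745155861894348470620980307995316535634983155551603686095508759076 (by decide +kernel)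
     (CovZ.n2 (24576, 20736) (by decide +kernel)
      TD_u43
      TD_u44))
    (CovZ.n1 (25344, 21504) (by decide +kernel)
     (CovZ.n2 (25728, 21120) (by decide +kernel)
      (CovZ.subM 273681682676726156029226644323991588431967765718385971313839199608070929523179178872262503505748516 (by decide +kernel)
       (CovZ.n2 (25344, 21120) (by decide +kernel)
        (CovZ.n2 (25536, 21312) (by decide +kernel)
         (CovZ.n2 (25536, 21120) (by decide +kernel)
          (CovZ.leaf K2_ok TD_l5028 _)
          (CovZ.leaf K2_ok TD_l5029 _))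
         (CovZ.leaf K2_ok TD_l5030 _))
        (CovZ.n1 (25536, 20928) (by decide +kernel)
         (CovZ.n2 (25344, 20928) (by decide +kernel)
          (CovZ.n2 (25440, 21024) (by decide +kernel)
           (CovZ.leaf K2_ok TD_l5031 _)
           (CovZ.leaf K2_ok TD_l5032 _))
          (CovZ.leaf K2_ok TD_l5033 _))
         (CovZ.n1 (25536, 21120) (by decide +kernel)
          (CovZ.leaf K2_ok TD_l5034 _)
          (CovZ.leaf K2_ok TD_l5035 _)))))
      (CovZ.n1 (25728, 21504) (by decide +kernel)
       (CovZ.leaf K2_ok TD_l5036 _)
       (CovZ.n1 (25536, 21312) (by decide +kernel)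
        (CovZ.leaf K2_ok TD_l5037 _)
        (CovZ.leaf K2_ok TD_l5038 _))))
     (CovZ.subM 273414684297236042268809665270088745155861894348470620980307995316535634983155551603686095508759076 (by decide +kernel)
      (CovZ.n1 (24960, 21120) (by decide +kernel)
       (CovZ.n2 (24960, 21504) (by decide +kernel)
        (CovZ.n2 (25152, 21312) (by decide +kernel)
         (CovZ.leaf K2_ok TD_l5039 _)
         (CovZ.n1 (25152, 21504) (by decide +kernel)
          (CovZ.leaf K2_ok TD_l5040 _)
          (CovZ.n1 (25056, 21408) (by decide +kernel)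
           (CovZ.leaf K2_ok TD_l5041 _)
           (CovZ.leaf K2_ok TD_l5042 _))))
        (CovZ.n1 (24768, 21312) (by decide +kernel)
         (CovZ.n2 (24768, 21504) (by decide +kernel)
          (CovZ.leaf K2_ok TD_l5043 _)
          (CovZ.n1 (24672, 21408) (by decide +kernel)
           (CovZ.leaf K2_ok TD_l5044 _)
           (CovZ.leaf K2_ok TD_l5045 _)))
         (CovZ.n1 (24960, 21312) (by decide +kernel)
          (CovZ.n2 (24864, 21216) (by decide +kernel)
           (CovZ.leaf K2_ok TD_l5046 _)
           (CovZ.leaf K2_ok TD_l5047 _))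
          (CovZ.n1 (24864, 21408) (by decide +kernel)
           (CovZ.leaf K2_ok TD_l5048 _)
           (CovZ.leaf K2_ok TD_l5049 _)))))
       (CovZ.n1 (25344, 21120) (by decide +kernel)
        (CovZ.n2 (25152, 20928) (by decide +kernel)
         (CovZ.n2 (25152, 21120) (by decide +kernel)
          (CovZ.leaf K2_ok TD_l5050 _)
          (CovZ.n1 (25056, 21024) (by decide +kernel)
           (CovZ.leaf K2_ok TD_l5051 _)
           (CovZ.leaf K2_ok TD_l5052 _)))
         (CovZ.n1 (25344, 20928) (by decide +kernel)
          (CovZ.n2 (25248, 20832) (by decide +kernel)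
           (CovZ.leaf K2_ok TD_l5053 _)
           (CovZ.leaf K2_ok TD_l5054 _))
          (CovZ.leaf K2_ok TD_l5055 _)))
        (CovZ.n1 (25152, 21312) (by decide +kernel)
         (CovZ.n2 (25344, 21312) (by decide +kernel)
          (CovZ.leaf K2_ok TD_l5056 _)
          (CovZ.leaf K2_ok TD_l5057 _))
         (CovZ.n1 (25152, 21120) (by decide +kernel)
          (CovZ.leaf K2_ok TD_l5058 _)
          (CovZ.leaf K2_ok TD_l5059 _)))))))))

theorem TD_s5_5 : SqZ TD_M TD_L [0, 7, 6, 1] 18432 12288 1536 5 5 :=
  SqZ.mk (a := 26112) (b := 27648) (c := 19968) (d := 21504) (by norm_num) (by norm_num) (by norm_num) (by norm_num)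
    (CovZ.topM TD_LL 5517170450155940377538320705682467324026015094805393953420613722099841048030095851547901418645502833127077 (by decide +kernel) (CovZ.n2 (26880, 20736) (by decide +kernel)
    (CovZ.subM 8749013916090047071743613298502899266623008288091917547650072058740300995922814228237764420115164805 (by decide +kernel)
     (CovZ.n2 (27648, 20736) (by decide +kernel)
      (CovZ.n2 (27264, 20352) (by decide +kernel)
       (CovZ.n2 (27264, 20736) (by decide +kernel)
        (CovZ.leaf K2_ok TD_l6789 _)
        (CovZ.leaf K2_ok TD_l6790 _))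
       (CovZ.n1 (27648, 20352) (by decide +kernel)
        (CovZ.leaf K2_ok TD_l6791 _)
        (CovZ.leaf K2_ok TD_l6792 _)))
      (CovZ.n1 (27264, 21120) (by decide +kernel)
       (CovZ.n2 (27648, 21120) (by decide +kernel)
        (CovZ.leaf K2_ok TD_l6793 _)
        (CovZ.leaf K2_ok TD_l6794 _))
       (CovZ.n1 (27264, 20736) (by decide +kernel)
        (CovZ.leaf K2_ok TD_l6795 _)
        (CovZ.leaf K2_ok TD_l6796 _)))))
    (CovZ.n1 (26880, 19968) (by decide +kernel)
     (CovZ.n2 (26496, 20352) (by decide +kernel)
      (CovZ.subM 5223727790747654497082611260799076978098479202281118452369851237420617375079938862431685245228037699592837 (by decide +kernel)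
       (CovZ.n2 (26880, 20352) (by decide +kernel)
        (CovZ.n2 (26688, 20160) (by decide +kernel)
         (CovZ.leaf K2_ok TD_l6797 _)
         (CovZ.leaf K2_ok TD_l6798 _))
        (CovZ.n1 (26688, 20544) (by decide +kernel)
         (CovZ.leaf K2_ok TD_l6799 _)
         (CovZ.leaf K2_ok TD_l6800 _))))
      (CovZ.n1 (26496, 19968) (by decide +kernel)
       (CovZ.n2 (26304, 20160) (by decide +kernel)
        (CovZ.n2 (26496, 20160) (by decide +kernel)
         (CovZ.leaf K2_ok TD_l6801 _)
         (CovZ.leaf K2_ok TD_l6802 _))
        (CovZ.n1 (26304, 19968) (by decide +kernel)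
         (CovZ.leaf K2_ok TD_l6803 _)
         (CovZ.leaf K2_ok TD_l6804 _)))
       (CovZ.n1 (26688, 20160) (by decide +kernel)
        (CovZ.n2 (26688, 19968) (by decide +kernel)
         (CovZ.leaf K2_ok TD_l6805 _)
         (CovZ.leaf K2_ok TD_l6806 _))
        (CovZ.leaf K2_ok TD_l6807 _))))
     (CovZ.subM 8749013916090047071743613298502899266623008288091917547650072058740300995922814228237764420115164805 (by decide +kernel)
      (CovZ.n1 (27264, 20352) (by decide +kernel)
       (CovZ.n2 (27264, 19968) (by decide +kernel)
        (CovZ.n2 (27072, 20160) (by decide +kernel)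
         (CovZ.leaf K2_ok TD_l6808 _)
         (CovZ.leaf K2_ok TD_l6809 _))
        (CovZ.leaf K2_ok TD_l6810 _))
       (CovZ.n1 (26880, 20352) (by decide +kernel)
        (CovZ.n2 (27072, 20544) (by decide +kernel)
         (CovZ.leaf K2_ok TD_l6811 _)
         (CovZ.leaf K2_ok TD_l6812 _))
        (CovZ.leaf K2_ok TD_l6813 _)))))))
    (CovZ.topM TD_LL 5517170723562280975414811252245245713728685763951572815072168096904316225368895226767924334655730335542949 (by decide +kernel) (CovZ.n0 (26880, 20736) (by decide +kernel)
    (CovZ.n2 (26112, 20736) (by decide +kernel)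
     (CovZ.n2 (26496, 21120) (by decide +kernel)
      (CovZ.n2 (26496, 20736) (by decide +kernel)
       (CovZ.n2 (26304, 20928) (by decide +kernel)
        (CovZ.leaf K2_ok TD_l6814 _)
        (CovZ.leaf K2_ok TD_l6815 _))
       (CovZ.leaf K2_ok TD_l6816 _))
      (CovZ.leaf K2_ok TD_l6817 _))
     (CovZ.n1 (26496, 20352) (by decide +kernel)
      (CovZ.n2 (26112, 20352) (by decide +kernel)
       (CovZ.n2 (26304, 20544) (by decide +kernel)
        (CovZ.n2 (26304, 20352) (by decide +kernel)
         (CovZ.leaf K2_ok TD_l6818 _)
         (CovZ.leaf K2_ok TD_l6819 _))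
        (CovZ.leaf K2_ok TD_l6820 _))
       (CovZ.n1 (26304, 20160) (by decide +kernel)
        (CovZ.n2 (26112, 20160) (by decide +kernel)
         (CovZ.leaf K2_ok TD_l6821 _)
         (CovZ.leaf K2_ok TD_l6822 _))
        (CovZ.n1 (26304, 20352) (by decide +kernel)
         (CovZ.leaf K2_ok TD_l6823 _)
         (CovZ.n1 (26208, 20256) (by decide +kernel)
          (CovZ.leaf K2_ok TD_l6824 _)
          (CovZ.leaf K2_ok TD_l6825 _)))))
      (CovZ.n1 (26496, 20736) (by decide +kernel)
       (CovZ.leaf K2_ok TD_l6826 _)
       (CovZ.n1 (26304, 20544) (by decide +kernel)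
        (CovZ.leaf K2_ok TD_l6827 _)
        (CovZ.n1 (26496, 20544) (by decide +kernel)
         (CovZ.leaf K2_ok TD_l6828 _)
         (CovZ.leaf K2_ok TD_l6829 _))))))
    (CovZ.n1 (26880, 21504) (by decide +kernel)
     (CovZ.n2 (27264, 21120) (by decide +kernel)
      (CovZ.leaf K2_ok TD_l6830 _)
      (CovZ.leaf K2_ok TD_l6831 _))
     (CovZ.n1 (26496, 21120) (by decide +kernel)
      (CovZ.n2 (26496, 21504) (by decide +kernel)
       (CovZ.leaf K2_ok TD_l6832 _)
       (CovZ.leaf K2_ok TD_l6833 _))
      (CovZ.n1 (26880, 21120) (by decide +kernel)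
       (CovZ.leaf K2_ok TD_l6834 _)
       (CovZ.leaf K2_ok TD_l6835 _))))))

theorem TD_s6_5 : SqZ TD_M TD_L [0, 7, 6, 1] 18432 12288 1536 6 5 :=
  SqZ.mk (a := 27648) (b := 29184) (c := 19968) (d := 21504) (by norm_num) (by norm_num) (by norm_num) (by norm_num)
    (CovZ.topM TD_LL 8749011308552704023497478941826628681269136939876966566952997301314134692092680021306874459561520261 (by decide +kernel) (CovZ.n2 (28416, 20736) (by decide +kernel)
    (CovZ.subM 8749002899140004869272565494760500506663305625536560879452904747382705269384273531410903377484311681 (by decide +kernel)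
     (CovZ.n2 (29184, 20736) (by decide +kernel)
      (CovZ.n2 (28800, 20352) (by decide +kernel)
       (CovZ.leaf K2_ok TD_l8798 _)
       (CovZ.leaf K2_ok TD_l8799 _))
      (CovZ.n1 (28800, 21120) (by decide +kernel)
       (CovZ.leaf K2_ok TD_l8800 _)
       (CovZ.leaf K2_ok TD_l8801 _))))
    (CovZ.n1 (28416, 19968) (by decide +kernel)
     (CovZ.n2 (28032, 20352) (by decide +kernel)
      (CovZ.n2 (28416, 20352) (by decide +kernel)
       (CovZ.leaf K2_ok TD_l8802 _)
       (CovZ.leaf K2_ok TD_l8803 _))
      (CovZ.n1 (28032, 19968) (by decide +kernel)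
       (CovZ.leaf K2_ok TD_l8804 _)
       (CovZ.leaf K2_ok TD_l8805 _)))
     (CovZ.n1 (28800, 20352) (by decide +kernel)
      (CovZ.n2 (28800, 19968) (by decide +kernel)
       (CovZ.leaf K2_ok TD_l8806 _)
       (CovZ.leaf K2_ok TD_l8807 _))
      (CovZ.leaf K2_ok TD_l8808 _)))))
    (CovZ.topM TD_LL 8749011308552704023497478941824903244682439298930107877987428044951021914849637424668083828505570437 (by decide +kernel) (CovZ.n0 (28416, 20736) (by decide +kernel)
    (CovZ.n2 (27648, 20736) (by decide +kernel)
     (CovZ.n2 (28032, 21120) (by decide +kernel)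
      (CovZ.n2 (28032, 20736) (by decide +kernel)
       (CovZ.leaf K2_ok TD_l8809 _)
       (CovZ.leaf K2_ok TD_l8810 _))
      (CovZ.leaf K2_ok TD_l8811 _))
     (CovZ.n1 (28032, 20352) (by decide +kernel)
      (CovZ.leaf K2_ok TD_l8812 _)
      (CovZ.n1 (28032, 20736) (by decide +kernel)
       (CovZ.leaf K2_ok TD_l8813 _)
       (CovZ.leaf K2_ok TD_l8814 _))))
    (CovZ.n1 (28416, 21504) (by decide +kernel)
     (CovZ.leaf K2_ok TD_l8815 _)
     (CovZ.n1 (28032, 21120) (by decide +kernel)
      (CovZ.leaf K2_ok TD_l8816 _)
      (CovZ.leaf K2_ok TD_l8817 _)))))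

theorem TD_s7_5 : SqZ TD_M TD_L [0, 7, 6, 1] 18432 12288 1536 7 5 :=
  SqZ.mk (a := 29184) (b := 30720) (c := 19968) (d := 21504) (by norm_num) (by norm_num) (by norm_num) (by norm_num)
    (CovZ.topM TD_LL 8749002899140004869272565494760500506663305625536559417948479823324453922394555595988489024013692033 (by decide +kernel) (CovZ.n2 (29952, 20736) (by decide +kernel)
    (CovZ.n2 (30720, 20736) (by decide +kernel)
     (CovZ.n2 (30336, 20352) (by decide +kernel)
      (CovZ.leaf K2_ok TD_l10838 _)
      (CovZ.leaf K2_ok TD_l10839 _))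
     (CovZ.leaf K2_ok TD_l10840 _))
    (CovZ.n1 (29952, 19968) (by decide +kernel)
     (CovZ.n2 (29568, 20352) (by decide +kernel)
      (CovZ.leaf K2_ok TD_l10841 _)
      (CovZ.leaf K2_ok TD_l10842 _))
     (CovZ.leaf K2_ok TD_l10843 _))))
    (CovZ.topM TD_LL 8749002899140004869272565494760500506663305625536559417948479823324453922394555595988489024013692033 (by decide +kernel) (CovZ.n0 (29952, 20736) (by decide +kernel)
    (CovZ.n2 (29184, 20736) (by decide +kernel)
     (CovZ.leaf K2_ok TD_l10844 _)
     (CovZ.leaf K2_ok TD_l10845 _))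
    (CovZ.n1 (29952, 21504) (by decide +kernel)
     (CovZ.leaf K2_ok TD_l10846 _)
     (CovZ.leaf K2_ok TD_l10847 _))))

theorem TD_s8_5 : SqZ TD_M TD_L [0, 7, 6, 1] 18432 12288 1536 8 5 :=
  SqZ.mk (a := 30720) (b := 32256) (c := 19968) (d := 21504) (by norm_num) (by norm_num) (by norm_num) (by norm_num)
    (CovZ.topM TD_LL 8749002899132047697490008908470485461412677723573223895831229907610711666823703017715913683099525248 (by decide +kernel) (CovZ.n2 (31488, 20736) (by decide +kernel)
    (CovZ.subM 5708990770823839526709023956368811464073478144 (by decide +kernel)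
     (CovZ.n2 (32256, 20736) (by decide +kernel)
      (CovZ.n2 (31872, 20352) (by decide +kernel)
       (CovZ.leaf K2_ok TD_l12924 _)
       (CovZ.badM (by decide +kernel)))
      (CovZ.n1 (31872, 21120) (by decide +kernel)
       (CovZ.badM (by decide +kernel))
       (CovZ.leaf K2_ok TD_l12927 _))))
    (CovZ.n1 (31488, 19968) (by decide +kernel)
     (CovZ.n2 (31104, 20352) (by decide +kernel)
      (CovZ.leaf K2_ok TD_l12928 _)
      (CovZ.leaf K2_ok TD_l12929 _))
     (CovZ.n1 (31872, 20352) (by decide +kernel)
      (CovZ.leaf K2_ok TD_l12930 _)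
      (CovZ.leaf K2_ok TD_l12931 _)))))
    (CovZ.topM TD_LL 8749002899132047697490008908470485461412677723573223895831229907610711666823703017715913683099525248 (by decide +kernel) (CovZ.n0 (31488, 20736) (by decide +kernel)
    (CovZ.n2 (30720, 20736) (by decide +kernel)
     (CovZ.leaf K2_ok TD_l12932 _)
     (CovZ.leaf K2_ok TD_l12933 _))
    (CovZ.n1 (31488, 21504) (by decide +kernel)
     (CovZ.leaf K2_ok TD_l12934 _)
     (CovZ.leaf K2_ok TD_l12935 _))))

theorem TD_s0_6 : SqZ TD_M TD_L [0, 7, 6, 1] 18432 12288 1536 0 6 :=
  SqZ.mk (a := 18432) (b := 19968) (c := 21504) (d := 23040) (by norm_num) (by norm_num) (by norm_num) (by norm_num)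
    (CovZ.topM TD_LL 0 (by decide +kernel) (CovZ.badM (by decide +kernel)))
    (CovZ.topM TD_LL 0 (by decide +kernel) (CovZ.badM (by decide +kernel)))

theorem TD_s1_6 : SqZ TD_M TD_L [0, 7, 6, 1] 18432 12288 1536 1 6 :=
  SqZ.mk (a := 19968) (b := 21504) (c := 21504) (d := 23040) (by norm_num) (by norm_num) (by norm_num) (by norm_num)
    (CovZ.topM TD_LL 0 (by decide +kernel) (CovZ.badM (by decide +kernel)))
    (CovZ.topM TD_LL 0 (by decide +kernel) (CovZ.badM (by decide +kernel)))

theorem TD_s2_6 : SqZ TD_M TD_L [0, 7, 6, 1] 18432 12288 1536 2 6 :=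
  SqZ.mk (a := 21504) (b := 23040) (c := 21504) (d := 23040) (by norm_num) (by norm_num) (by norm_num) (by norm_num)
    (CovZ.topM TD_LL 73391957973826059906636091609160804498876649379218058793091360493723914857225555248245547644474391433052204 (by decide +kernel) (CovZ.n2 (22272, 22272) (by decide +kernel)
    (CovZ.n2 (23040, 22272) (by decide +kernel)
     (CovZ.subM 72757058411180816157905930842684396613694499953763539639500383416400289181654147687900519235321892 (by decide +kernel)
      (CovZ.n2 (22656, 21888) (by decide +kernel)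
       (CovZ.n2 (22656, 22272) (by decide +kernel)
        (CovZ.n2 (22848, 22080) (by decide +kernel)
         (CovZ.badM (by decide +kernel))
         (CovZ.n1 (22848, 22272) (by decide +kernel)
          (CovZ.n2 (22944, 22176) (by decide +kernel)
           (CovZ.badM (by decide +kernel))
           (CovZ.n1 (22944, 22272) (by decide +kernel)
            (CovZ.subM 4271974071842305832013100728084286377208580995678063477669358573375398460428269879306757953552420 (by decide +kernel)
             (CovZ.n2 (22992, 22224) (by decide +kernel)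
              (CovZ.n2 (22944, 22224) (by decide +kernel)
               (CovZ.n2 (22968, 22248) (by decide +kernel)
                (CovZ.leaf K2_ok TD_l282 _)
                (CovZ.leaf K2_ok TD_l283 _))
               (CovZ.leaf K2_ok TD_l284 _))
              (CovZ.n1 (22992, 22272) (by decide +kernel)
               (CovZ.leaf K2_ok TD_l285 _)
               (CovZ.n1 (22968, 22248) (by decide +kernel)
                (CovZ.leaf K2_ok TD_l286 _)
                (CovZ.leaf K2_ok TD_l287 _)))))
            (CovZ.subM 4271974071841820164790043412393024122539710324302639659271103271114207544943258216007882311204864 (by decide +kernel)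
             (CovZ.n1 (22896, 22224) (by decide +kernel)
              (CovZ.n2 (22896, 22272) (by decide +kernel)
               (CovZ.leaf K2_ok TD_l288 _)
               (CovZ.badM (by decide +kernel)))
              (CovZ.n1 (22944, 22224) (by decide +kernel)
               (CovZ.badM (by decide +kernel))
               (CovZ.n1 (22920, 22248) (by decide +kernel)
                (CovZ.leaf K2_ok TD_l289 _)
                (CovZ.badM (by decide +kernel))))))))
          (CovZ.badM (by decide +kernel))))
        (CovZ.badM (by decide +kernel)))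
       (CovZ.n1 (23040, 21888) (by decide +kernel)
        (CovZ.badM (by decide +kernel))
        (CovZ.n1 (22848, 22080) (by decide +kernel)
         (CovZ.n2 (23040, 22080) (by decide +kernel)
          (CovZ.badM (by decide +kernel))
          (CovZ.n1 (22944, 22176) (by decide +kernel)
           (CovZ.subM 4271974071842305832013100728084286377208580995678063477669358573375398460428269879306757953552420 (by decide +kernel)
            (CovZ.n2 (23040, 22176) (by decide +kernel)
             (CovZ.n2 (22992, 22128) (by decide +kernel)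
              (CovZ.n2 (22992, 22176) (by decide +kernel)
               (CovZ.leaf K2_ok TD_l290 _)
               (CovZ.badM (by decide +kernel)))
              (CovZ.n1 (23040, 22128) (by decide +kernel)
               (CovZ.n2 (23016, 22104) (by decide +kernel)
                (CovZ.leaf K2_ok TD_l291 _)
                (CovZ.leaf K2_ok TD_l292 _))
               (CovZ.n1 (23016, 22152) (by decide +kernel)
                (CovZ.leaf K2_ok TD_l293 _)
                (CovZ.leaf K2_ok TD_l294 _))))
             (CovZ.n1 (22992, 22224) (by decide +kernel)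
              (CovZ.n2 (23040, 22224) (by decide +kernel)
               (CovZ.n2 (23016, 22200) (by decide +kernel)
                (CovZ.leaf K2_ok TD_l295 _)
                (CovZ.leaf K2_ok TD_l296 _))
               (CovZ.leaf K2_ok TD_l297 _))
              (CovZ.n1 (22992, 22176) (by decide +kernel)
               (CovZ.n2 (22968, 22200) (by decide +kernel)
                (CovZ.leaf K2_ok TD_l298 _)
                (CovZ.badM (by decide +kernel)))
               (CovZ.n1 (23016, 22200) (by decide +kernel)
                (CovZ.leaf K2_ok TD_l299 _)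
                (CovZ.leaf K2_ok TD_l300 _))))))
           (CovZ.subM 11417981541647679048466287755598212895170625540 (by decide +kernel)
            (CovZ.n1 (22944, 22080) (by decide +kernel)
             (CovZ.badM (by decide +kernel))
             (CovZ.n1 (22992, 22128) (by decide +kernel)
              (CovZ.n2 (22992, 22080) (by decide +kernel)
               (CovZ.badM (by decide +kernel))
               (CovZ.n1 (23016, 22104) (by decide +kernel)
                (CovZ.badM (by decide +kernel))
                (CovZ.badM (by decide +kernel))))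
              (CovZ.badM (by decide +kernel)))))))
         (CovZ.badM (by decide +kernel))))))
     (CovZ.n1 (22656, 22656) (by decide +kernel)
      TD_u45
      TD_u46))
    (CovZ.n1 (22272, 21504) (by decide +kernel)
     (CovZ.badM (by decide +kernel))
     (CovZ.n1 (22656, 21888) (by decide +kernel)
      (CovZ.badM (by decide +kernel))
      (CovZ.badM (by decide +kernel))))))
    (CovZ.topM TD_LL 73391957973826059906636091609160804498876649379218058793091360493723914857225555248245695218426981109465132 (by decide +kernel) (CovZ.n0 (22272, 22272) (by decide +kernel)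
    (CovZ.n2 (21504, 22272) (by decide +kernel)
     (CovZ.n2 (21888, 22656) (by decide +kernel)
      (CovZ.badM (by decide +kernel))
      (CovZ.badM (by decide +kernel)))
     (CovZ.badM (by decide +kernel)))
    (CovZ.n1 (22272, 23040) (by decide +kernel)
     (CovZ.n2 (22656, 22656) (by decide +kernel)
      TD_u47
      TD_u48)
     (CovZ.subM 2255735810172697110003275139175630940076183808463609586296860971367148635127426491029223645347053608 (by decide +kernel)
      (CovZ.n1 (21888, 22656) (by decide +kernel)
       (CovZ.n2 (21888, 23040) (by decide +kernel)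
        (CovZ.n2 (22080, 22848) (by decide +kernel)
         (CovZ.badM (by decide +kernel))
         (CovZ.n1 (22080, 23040) (by decide +kernel)
          (CovZ.n2 (22176, 22944) (by decide +kernel)
           (CovZ.badM (by decide +kernel))
           (CovZ.n1 (22176, 23040) (by decide +kernel)
            (CovZ.n2 (22224, 22992) (by decide +kernel)
             (CovZ.badM (by decide +kernel))
             (CovZ.n1 (22224, 23040) (by decide +kernel)
              (CovZ.leaf K2_ok TD_l522 _)
              (CovZ.n1 (22200, 23016) (by decide +kernel)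
               (CovZ.leaf K2_ok TD_l523 _)
               (CovZ.leaf K2_ok TD_l524 _))))
            (CovZ.badM (by decide +kernel))))
          (CovZ.badM (by decide +kernel))))
        (CovZ.badM (by decide +kernel)))
       (CovZ.n1 (22272, 22656) (by decide +kernel)
        (CovZ.badM (by decide +kernel))
        (CovZ.n1 (22080, 22848) (by decide +kernel)
         (CovZ.n2 (22272, 22848) (by decide +kernel)
          (CovZ.badM (by decide +kernel))
          (CovZ.n1 (22176, 22944) (by decide +kernel)
           (CovZ.n2 (22272, 22944) (by decide +kernel)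
            (CovZ.badM (by decide +kernel))
            (CovZ.n1 (22224, 22992) (by decide +kernel)
             (CovZ.n2 (22272, 22992) (by decide +kernel)
              (CovZ.n2 (22248, 22968) (by decide +kernel)
               (CovZ.leaf K2_ok TD_l525 _)
               (CovZ.leaf K2_ok TD_l526 _))
              (CovZ.n1 (22248, 23016) (by decide +kernel)
               (CovZ.leaf K2_ok TD_l527 _)
               (CovZ.leaf K2_ok TD_l528 _)))
             (CovZ.n1 (22224, 22944) (by decide +kernel)
              (CovZ.badM (by decide +kernel))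
              (CovZ.n1 (22248, 22968) (by decide +kernel)
               (CovZ.badM (by decide +kernel))
               (CovZ.badM (by decide +kernel))))))
           (CovZ.badM (by decide +kernel))))
         (CovZ.badM (by decide +kernel)))))))))

theorem TD_s3_6 : SqZ TD_M TD_L [0, 7, 6, 1] 18432 12288 1536 3 6 :=
  SqZ.mk (a := 23040) (b := 24576) (c := 21504) (d := 23040) (by norm_num) (by norm_num) (by norm_num) (by norm_num)
    (CovZ.topM TD_LL 4271975090360293999256143862307130581897661527402227625733574913724921453507018897104759412515372 (by decide +kernel) (CovZ.n2 (23808, 22272) (by decide +kernel)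
    (CovZ.n2 (24576, 22272) (by decide +kernel)
     (CovZ.n2 (24192, 21888) (by decide +kernel)
      (CovZ.n2 (24192, 22272) (by decide +kernel)
       (CovZ.n2 (24384, 22080) (by decide +kernel)
        (CovZ.leaf K2_ok TD_l2325 _)
        (CovZ.n1 (24384, 22272) (by decide +kernel)
         (CovZ.leaf K2_ok TD_l2326 _)
         (CovZ.leaf K2_ok TD_l2327 _)))
       (CovZ.subM 4271974071842305832013100728030366483874279716089458771066292057547627364863873268081748575518756 (by decide +kernel)
        (CovZ.n1 (24000, 22080) (by decide +kernel)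
         (CovZ.n2 (24000, 22272) (by decide +kernel)
          (CovZ.leaf K2_ok TD_l2328 _)
          (CovZ.n1 (23904, 22176) (by decide +kernel)
           (CovZ.leaf K2_ok TD_l2329 _)
           (CovZ.leaf K2_ok TD_l2330 _)))
         (CovZ.n1 (24192, 22080) (by decide +kernel)
          (CovZ.n2 (24096, 21984) (by decide +kernel)
           (CovZ.leaf K2_ok TD_l2331 _)
           (CovZ.leaf K2_ok TD_l2332 _))
          (CovZ.n1 (24096, 22176) (by decide +kernel)
           (CovZ.leaf K2_ok TD_l2333 _)
           (CovZ.leaf K2_ok TD_l2334 _))))))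
      (CovZ.n1 (24576, 21888) (by decide +kernel)
       (CovZ.n2 (24384, 21696) (by decide +kernel)
        (CovZ.n2 (24384, 21888) (by decide +kernel)
         (CovZ.leaf K2_ok TD_l2335 _)
         (CovZ.n1 (24288, 21792) (by decide +kernel)
          (CovZ.leaf K2_ok TD_l2336 _)
          (CovZ.leaf K2_ok TD_l2337 _)))
        (CovZ.n1 (24576, 21696) (by decide +kernel)
         (CovZ.n2 (24480, 21600) (by decide +kernel)
          (CovZ.leaf K2_ok TD_l2338 _)
          (CovZ.leaf K2_ok TD_l2339 _))
         (CovZ.leaf K2_ok TD_l2340 _)))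
       (CovZ.n1 (24384, 22080) (by decide +kernel)
        (CovZ.n2 (24576, 22080) (by decide +kernel)
         (CovZ.n2 (24480, 21984) (by decide +kernel)
          (CovZ.leaf K2_ok TD_l2341 _)
          (CovZ.leaf K2_ok TD_l2342 _))
         (CovZ.leaf K2_ok TD_l2343 _))
        (CovZ.n1 (24384, 21888) (by decide +kernel)
         (CovZ.n2 (24288, 21984) (by decide +kernel)
          (CovZ.leaf K2_ok TD_l2344 _)
          (CovZ.leaf K2_ok TD_l2345 _))
         (CovZ.leaf K2_ok TD_l2346 _)))))
     (CovZ.n1 (24192, 22656) (by decide +kernel)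
      (CovZ.n2 (24576, 22656) (by decide +kernel)
       (CovZ.n2 (24384, 22464) (by decide +kernel)
        (CovZ.leaf K2_ok TD_l2347 _)
        (CovZ.leaf K2_ok TD_l2348 _))
       (CovZ.n1 (24384, 22848) (by decide +kernel)
        (CovZ.leaf K2_ok TD_l2349 _)
        (CovZ.n1 (24384, 22656) (by decide +kernel)
         (CovZ.leaf K2_ok TD_l2350 _)
         (CovZ.leaf K2_ok TD_l2351 _))))
      (CovZ.n1 (24192, 22272) (by decide +kernel)
       (CovZ.subM 4271975090360293999256143862253210688563360241823655604034417375617852042054523149750101667217444 (by decide +kernel)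
        (CovZ.n2 (24000, 22464) (by decide +kernel)
         (CovZ.n2 (24192, 22464) (by decide +kernel)
          (CovZ.leaf K2_ok TD_l2352 _)
          (CovZ.leaf K2_ok TD_l2353 _))
         (CovZ.n1 (24000, 22272) (by decide +kernel)
          (CovZ.leaf K2_ok TD_l2354 _)
          (CovZ.leaf K2_ok TD_l2355 _))))
       (CovZ.n1 (24384, 22464) (by decide +kernel)
        (CovZ.n2 (24384, 22272) (by decide +kernel)
         (CovZ.leaf K2_ok TD_l2356 _)
         (CovZ.leaf K2_ok TD_l2357 _))
        (CovZ.leaf K2_ok TD_l2358 _)))))
    (CovZ.n1 (23808, 21504) (by decide +kernel)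
     (CovZ.n2 (23424, 21888) (by decide +kernel)
      TD_u49
      TD_u50)
     (CovZ.n1 (24192, 21888) (by decide +kernel)
      (CovZ.n2 (24192, 21504) (by decide +kernel)
       (CovZ.subM 4271974071842305832013100728030366483874279716089447263881769615746086332433244579275398791036964 (by decide +kernel)
        (CovZ.n2 (24000, 21696) (by decide +kernel)
         (CovZ.n2 (24192, 21696) (by decide +kernel)
          (CovZ.n2 (24096, 21600) (by decide +kernel)
           (CovZ.n2 (24096, 21696) (by decide +kernel)
            (CovZ.leaf K2_ok TD_l2484 _)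
            (CovZ.leaf K2_ok TD_l2485 _))
           (CovZ.n1 (24192, 21600) (by decide +kernel)
            (CovZ.leaf K2_ok TD_l2486 _)
            (CovZ.leaf K2_ok TD_l2487 _)))
          (CovZ.n1 (24096, 21792) (by decide +kernel)
           (CovZ.leaf K2_ok TD_l2488 _)
           (CovZ.n1 (24096, 21696) (by decide +kernel)
            (CovZ.leaf K2_ok TD_l2489 _)
            (CovZ.leaf K2_ok TD_l2490 _))))
         (CovZ.n1 (24000, 21504) (by decide +kernel)
          (CovZ.n2 (23904, 21600) (by decide +kernel)
           (CovZ.n2 (24000, 21600) (by decide +kernel)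
            (CovZ.n2 (23952, 21552) (by decide +kernel)
             (CovZ.leaf K2_ok TD_l2491 _)
             (CovZ.leaf K2_ok TD_l2492 _))
            (CovZ.leaf K2_ok TD_l2493 _))
           (CovZ.n1 (23904, 21504) (by decide +kernel)
            (CovZ.n2 (23856, 21552) (by decide +kernel)
             (CovZ.leaf K2_ok TD_l2494 _)
             (CovZ.leaf K2_ok TD_l2495 _))
            (CovZ.n1 (23952, 21552) (by decide +kernel)
             (CovZ.leaf K2_ok TD_l2496 _)
             (CovZ.leaf K2_ok TD_l2497 _))))
          (CovZ.n1 (24096, 21600) (by decide +kernel)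
           (CovZ.n2 (24096, 21504) (by decide +kernel)
            (CovZ.leaf K2_ok TD_l2498 _)
            (CovZ.leaf K2_ok TD_l2499 _))
           (CovZ.leaf K2_ok TD_l2500 _)))))
       (CovZ.subM 485667223057315691262254668870677362455284990450165064835424484522164707800417067556 (by decide +kernel)
        (CovZ.n1 (24384, 21696) (by decide +kernel)
         (CovZ.n2 (24384, 21504) (by decide +kernel)
          (CovZ.n2 (24288, 21600) (by decide +kernel)
           (CovZ.leaf K2_ok TD_l2501 _)
           (CovZ.n1 (24288, 21504) (by decide +kernel)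
            (CovZ.leaf K2_ok TD_l2502 _)
            (CovZ.leaf K2_ok TD_l2503 _)))
          (CovZ.n1 (24480, 21600) (by decide +kernel)
           (CovZ.leaf K2_ok TD_l2504 _)
           (CovZ.leaf K2_ok TD_l2505 _)))
         (CovZ.n1 (24192, 21696) (by decide +kernel)
          (CovZ.n2 (24288, 21792) (by decide +kernel)
           (CovZ.leaf K2_ok TD_l2506 _)
           (CovZ.leaf K2_ok TD_l2507 _))
          (CovZ.leaf K2_ok TD_l2508 _)))))
      (CovZ.subM 4271974071842305832013100728030366483874279716089458771066292057547627364863873268081748575518756 (by decide +kernel)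
       (CovZ.n1 (23808, 21888) (by decide +kernel)
        (CovZ.n2 (24000, 22080) (by decide +kernel)
         (CovZ.n2 (24000, 21888) (by decide +kernel)
          (CovZ.n2 (23904, 21984) (by decide +kernel)
           (CovZ.leaf K2_ok TD_l2509 _)
           (CovZ.n1 (23904, 21888) (by decide +kernel)
            (CovZ.leaf K2_ok TD_l2510 _)
            (CovZ.leaf K2_ok TD_l2511 _)))
          (CovZ.n1 (24096, 21984) (by decide +kernel)
           (CovZ.leaf K2_ok TD_l2512 _)
           (CovZ.leaf K2_ok TD_l2513 _)))
         (CovZ.n1 (23808, 22080) (by decide +kernel)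
          (CovZ.n2 (23904, 22176) (by decide +kernel)
           (CovZ.n2 (23904, 22080) (by decide +kernel)
            (CovZ.leaf K2_ok TD_l2514 _)
            (CovZ.leaf K2_ok TD_l2515 _))
           (CovZ.leaf K2_ok TD_l2516 _))
          (CovZ.leaf K2_ok TD_l2517 _)))
        (CovZ.n1 (24000, 21696) (by decide +kernel)
         (CovZ.n2 (23808, 21696) (by decide +kernel)
          (CovZ.n2 (23904, 21792) (by decide +kernel)
           (CovZ.n2 (23904, 21696) (by decide +kernel)
            (CovZ.leaf K2_ok TD_l2518 _)
            (CovZ.leaf K2_ok TD_l2519 _))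
           (CovZ.leaf K2_ok TD_l2520 _))
          (CovZ.n1 (23904, 21600) (by decide +kernel)
           (CovZ.n2 (23808, 21600) (by decide +kernel)
            (CovZ.n2 (23856, 21648) (by decide +kernel)
             (CovZ.leaf K2_ok TD_l2521 _)
             (CovZ.leaf K2_ok TD_l2522 _))
            (CovZ.leaf K2_ok TD_l2523 _))
           (CovZ.n1 (23904, 21696) (by decide +kernel)
            (CovZ.leaf K2_ok TD_l2524 _)
            (CovZ.n1 (23856, 21648) (by decide +kernel)
             (CovZ.leaf K2_ok TD_l2525 _)
             (CovZ.leaf K2_ok TD_l2526 _)))))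
         (CovZ.n1 (24000, 21888) (by decide +kernel)
          (CovZ.leaf K2_ok TD_l2527 _)
          (CovZ.n1 (23904, 21792) (by decide +kernel)
           (CovZ.n2 (23904, 21888) (by decide +kernel)
            (CovZ.leaf K2_ok TD_l2528 _)
            (CovZ.leaf K2_ok TD_l2529 _))
           (CovZ.n1 (24000, 21792) (by decide +kernel)
            (CovZ.leaf K2_ok TD_l2530 _)
            (CovZ.leaf K2_ok TD_l2531 _)))))))))))
    (CovZ.topM TD_LL 4271975090360293999256143862307130581897661527402227625733574913724921453507018897104759412515372 (by decide +kernel) (CovZ.n0 (23808, 22272) (by decide +kernel)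
    (CovZ.n2 (23040, 22272) (by decide +kernel)
     (CovZ.n2 (23424, 22656) (by decide +kernel)
      (CovZ.n2 (23424, 22272) (by decide +kernel)
       (CovZ.subM 4271974071842305832013100728084286377208580995680986480944020379211805830093703598269816532631588 (by decide +kernel)
        (CovZ.n2 (23232, 22464) (by decide +kernel)
         (CovZ.n2 (23424, 22464) (by decide +kernel)
          (CovZ.n2 (23328, 22368) (by decide +kernel)
           (CovZ.n2 (23328, 22464) (by decide +kernel)
            (CovZ.leaf K2_ok TD_l2532 _)
            (CovZ.leaf K2_ok TD_l2533 _))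
           (CovZ.n1 (23424, 22368) (by decide +kernel)
            (CovZ.leaf K2_ok TD_l2534 _)
            (CovZ.leaf K2_ok TD_l2535 _)))
          (CovZ.n1 (23328, 22560) (by decide +kernel)
           (CovZ.leaf K2_ok TD_l2536 _)
           (CovZ.n1 (23328, 22464) (by decide +kernel)
            (CovZ.leaf K2_ok TD_l2537 _)
            (CovZ.leaf K2_ok TD_l2538 _))))
         (CovZ.n1 (23232, 22272) (by decide +kernel)
          (CovZ.n2 (23136, 22368) (by decide +kernel)
           (CovZ.n2 (23232, 22368) (by decide +kernel)
            (CovZ.n2 (23184, 22320) (by decide +kernel)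
             (CovZ.leaf K2_ok TD_l2539 _)
             (CovZ.leaf K2_ok TD_l2540 _))
            (CovZ.leaf K2_ok TD_l2541 _))
           (CovZ.n1 (23136, 22272) (by decide +kernel)
            (CovZ.n2 (23088, 22320) (by decide +kernel)
             (CovZ.leaf K2_ok TD_l2542 _)
             (CovZ.n1 (23088, 22272) (by decide +kernel)
              (CovZ.leaf K2_ok TD_l2543 _)
              (CovZ.leaf K2_ok TD_l2544 _)))
            (CovZ.n1 (23184, 22320) (by decide +kernel)
             (CovZ.leaf K2_ok TD_l2545 _)
             (CovZ.leaf K2_ok TD_l2546 _))))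
          (CovZ.n1 (23328, 22368) (by decide +kernel)
           (CovZ.n2 (23328, 22272) (by decide +kernel)
            (CovZ.leaf K2_ok TD_l2547 _)
            (CovZ.leaf K2_ok TD_l2548 _))
           (CovZ.leaf K2_ok TD_l2549 _)))))
       (CovZ.n1 (23616, 22464) (by decide +kernel)
        (CovZ.n2 (23616, 22272) (by decide +kernel)
         (CovZ.n2 (23520, 22368) (by decide +kernel)
          (CovZ.leaf K2_ok TD_l2550 _)
          (CovZ.n1 (23520, 22272) (by decide +kernel)
           (CovZ.leaf K2_ok TD_l2551 _)
           (CovZ.leaf K2_ok TD_l2552 _)))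
         (CovZ.n1 (23712, 22368) (by decide +kernel)
          (CovZ.leaf K2_ok TD_l2553 _)
          (CovZ.leaf K2_ok TD_l2554 _)))
        (CovZ.n1 (23424, 22464) (by decide +kernel)
         (CovZ.n2 (23520, 22560) (by decide +kernel)
          (CovZ.leaf K2_ok TD_l2555 _)
          (CovZ.leaf K2_ok TD_l2556 _))
         (CovZ.leaf K2_ok TD_l2557 _))))
      (CovZ.n1 (23040, 22656) (by decide +kernel)
       (CovZ.n2 (23232, 22848) (by decide +kernel)
        (CovZ.n2 (23232, 22656) (by decide +kernel)
         (CovZ.n2 (23136, 22752) (by decide +kernel)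
          (CovZ.leaf K2_ok TD_l2558 _)
          (CovZ.n1 (23136, 22656) (by decide +kernel)
           (CovZ.leaf K2_ok TD_l2559 _)
           (CovZ.leaf K2_ok TD_l2560 _)))
         (CovZ.n1 (23328, 22752) (by decide +kernel)
          (CovZ.leaf K2_ok TD_l2561 _)
          (CovZ.leaf K2_ok TD_l2562 _)))
        (CovZ.n1 (23040, 22848) (by decide +kernel)
         (CovZ.n2 (23136, 22944) (by decide +kernel)
          (CovZ.n2 (23136, 22848) (by decide +kernel)
           (CovZ.leaf K2_ok TD_l2563 _)
           (CovZ.leaf K2_ok TD_l2564 _))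
          (CovZ.leaf K2_ok TD_l2565 _))
         (CovZ.leaf K2_ok TD_l2566 _)))
       (CovZ.subM 4271974071842305832013100728084286377208580995680986480944020379211805830093703598269816532631588 (by decide +kernel)
        (CovZ.n1 (23232, 22464) (by decide +kernel)
         (CovZ.n2 (23040, 22464) (by decide +kernel)
          (CovZ.n2 (23136, 22560) (by decide +kernel)
           (CovZ.n2 (23136, 22464) (by decide +kernel)
            (CovZ.leaf K2_ok TD_l2567 _)
            (CovZ.leaf K2_ok TD_l2568 _))
           (CovZ.leaf K2_ok TD_l2569 _))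
          (CovZ.n1 (23136, 22368) (by decide +kernel)
           (CovZ.n2 (23040, 22368) (by decide +kernel)
            (CovZ.n2 (23088, 22416) (by decide +kernel)
             (CovZ.leaf K2_ok TD_l2570 _)
             (CovZ.leaf K2_ok TD_l2571 _))
            (CovZ.leaf K2_ok TD_l2572 _))
           (CovZ.n1 (23136, 22464) (by decide +kernel)
            (CovZ.leaf K2_ok TD_l2573 _)
            (CovZ.n1 (23088, 22416) (by decide +kernel)
             (CovZ.leaf K2_ok TD_l2574 _)
             (CovZ.leaf K2_ok TD_l2575 _)))))
         (CovZ.n1 (23232, 22656) (by decide +kernel)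
          (CovZ.leaf K2_ok TD_l2576 _)
          (CovZ.n1 (23136, 22560) (by decide +kernel)
           (CovZ.n2 (23136, 22656) (by decide +kernel)
            (CovZ.leaf K2_ok TD_l2577 _)
            (CovZ.leaf K2_ok TD_l2578 _))
           (CovZ.n1 (23232, 22560) (by decide +kernel)
            (CovZ.leaf K2_ok TD_l2579 _)
            (CovZ.leaf K2_ok TD_l2580 _))))))))
     (CovZ.n1 (23424, 21888) (by decide +kernel)
      TD_u51
      TD_u52))
    (CovZ.n1 (23808, 23040) (by decide +kernel)
     (CovZ.n2 (24192, 22656) (by decide +kernel)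
      (CovZ.subM 4271975090360293999256143862253210688563360241823655604034417375617852042054523149750101667217452 (by decide +kernel)
       (CovZ.n2 (23808, 22656) (by decide +kernel)
        (CovZ.n2 (24000, 22848) (by decide +kernel)
         (CovZ.n2 (24000, 22656) (by decide +kernel)
          (CovZ.leaf K2_ok TD_l2696 _)
          (CovZ.leaf K2_ok TD_l2697 _))
         (CovZ.leaf K2_ok TD_l2698 _))
        (CovZ.n1 (24000, 22464) (by decide +kernel)
         (CovZ.leaf K2_ok TD_l2699 _)
         (CovZ.n1 (24000, 22656) (by decide +kernel)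
          (CovZ.leaf K2_ok TD_l2700 _)
          (CovZ.leaf K2_ok TD_l2701 _)))))
      (CovZ.n1 (24192, 23040) (by decide +kernel)
       (CovZ.leaf K2_ok TD_l2702 _)
       (CovZ.subM 4271975090360293999256143862253210688563360241823655604034417375617852042054523149750101667217452 (by decide +kernel)
        (CovZ.n1 (24000, 22848) (by decide +kernel)
         (CovZ.n2 (24000, 23040) (by decide +kernel)
          (CovZ.leaf K2_ok TD_l2703 _)
          (CovZ.n1 (23904, 22944) (by decide +kernel)
           (CovZ.leaf K2_ok TD_l2704 _)
           (CovZ.leaf K2_ok TD_l2705 _)))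
         (CovZ.n1 (24192, 22848) (by decide +kernel)
          (CovZ.leaf K2_ok TD_l2706 _)
          (CovZ.leaf K2_ok TD_l2707 _))))))
     (CovZ.n1 (23424, 22656) (by decide +kernel)
      (CovZ.n2 (23424, 23040) (by decide +kernel)
       (CovZ.n2 (23616, 22848) (by decide +kernel)
        (CovZ.n2 (23424, 22848) (by decide +kernel)
         (CovZ.n2 (23520, 22944) (by decide +kernel)
          (CovZ.leaf K2_ok TD_l2708 _)
          (CovZ.leaf K2_ok TD_l2709 _))
         (CovZ.leaf K2_ok TD_l2710 _))
        (CovZ.n1 (23616, 23040) (by decide +kernel)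
         (CovZ.leaf K2_ok TD_l2711 _)
         (CovZ.n1 (23520, 22944) (by decide +kernel)
          (CovZ.leaf K2_ok TD_l2712 _)
          (CovZ.leaf K2_ok TD_l2713 _))))
       (CovZ.n1 (23232, 22848) (by decide +kernel)
        (CovZ.n2 (23232, 23040) (by decide +kernel)
         (CovZ.leaf K2_ok TD_l2714 _)
         (CovZ.n1 (23136, 22944) (by decide +kernel)
          (CovZ.leaf K2_ok TD_l2715 _)
          (CovZ.leaf K2_ok TD_l2716 _)))
        (CovZ.subM 4271975090360293999256143862253210688563360241822926280463444630098348848622722888563317285060652 (by decide +kernel)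
         (CovZ.n1 (23424, 22848) (by decide +kernel)
          (CovZ.n2 (23328, 22752) (by decide +kernel)
           (CovZ.leaf K2_ok TD_l2717 _)
           (CovZ.leaf K2_ok TD_l2718 _))
          (CovZ.n1 (23328, 22944) (by decide +kernel)
           (CovZ.leaf K2_ok TD_l2719 _)
           (CovZ.leaf K2_ok TD_l2720 _))))))
      (CovZ.n1 (23808, 22656) (by decide +kernel)
       (CovZ.n2 (23616, 22464) (by decide +kernel)
        (CovZ.n2 (23616, 22656) (by decide +kernel)
         (CovZ.leaf K2_ok TD_l2721 _)
         (CovZ.n1 (23520, 22560) (by decide +kernel)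
          (CovZ.leaf K2_ok TD_l2722 _)
          (CovZ.leaf K2_ok TD_l2723 _)))
        (CovZ.n1 (23808, 22464) (by decide +kernel)
         (CovZ.n2 (23712, 22368) (by decide +kernel)
          (CovZ.leaf K2_ok TD_l2724 _)
          (CovZ.leaf K2_ok TD_l2725 _))
         (CovZ.leaf K2_ok TD_l2726 _)))
       (CovZ.n1 (23616, 22848) (by decide +kernel)
        (CovZ.n2 (23808, 22848) (by decide +kernel)
         (CovZ.n2 (23712, 22752) (by decide +kernel)
          (CovZ.leaf K2_ok TD_l2727 _)
          (CovZ.leaf K2_ok TD_l2728 _))
         (CovZ.leaf K2_ok TD_l2729 _))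
        (CovZ.n1 (23616, 22656) (by decide +kernel)
         (CovZ.leaf K2_ok TD_l2730 _)
         (CovZ.n1 (23712, 22752) (by decide +kernel)
          (CovZ.leaf K2_ok TD_l2731 _)
          (CovZ.leaf K2_ok TD_l2732 _)))))))))

theorem TD_s4_6 : SqZ TD_M TD_L [0, 7, 6, 1] 18432 12288 1536 4 6 :=
  SqZ.mk (a := 24576) (b := 26112) (c := 21504) (d := 23040) (by norm_num) (by norm_num) (by norm_num) (by norm_num)
    (CovZ.topM TD_LL 311374014529654369868887485633099082685555482607053903619708119744776923571932105069617933243582211318437 (by decide +kernel) (CovZ.n2 (25344, 22272) (by decide +kernel)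
    (CovZ.n2 (26112, 22272) (by decide +kernel)
     (CovZ.n2 (25728, 21888) (by decide +kernel)
      (CovZ.n2 (25728, 22272) (by decide +kernel)
       (CovZ.leaf K2_ok TD_l5060 _)
       (CovZ.n1 (25536, 22080) (by decide +kernel)
        (CovZ.leaf K2_ok TD_l5061 _)
        (CovZ.leaf K2_ok TD_l5062 _)))
      (CovZ.n1 (26112, 21888) (by decide +kernel)
       (CovZ.n2 (25920, 21696) (by decide +kernel)
        (CovZ.leaf K2_ok TD_l5063 _)
        (CovZ.leaf K2_ok TD_l5064 _))
       (CovZ.leaf K2_ok TD_l5065 _)))
     (CovZ.n1 (25728, 22656) (by decide +kernel)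
      (CovZ.n2 (26112, 22656) (by decide +kernel)
       (CovZ.n2 (25920, 22464) (by decide +kernel)
        (CovZ.leaf K2_ok TD_l5066 _)
        (CovZ.leaf K2_ok TD_l5067 _))
       (CovZ.leaf K2_ok TD_l5068 _))
      (CovZ.n1 (25728, 22272) (by decide +kernel)
       (CovZ.leaf K2_ok TD_l5069 _)
       (CovZ.leaf K2_ok TD_l5070 _))))
    (CovZ.n1 (25344, 21504) (by decide +kernel)
     (CovZ.subM 273414684297236042268809665270088745155861894348470632398289536964214683449443307201898990679384612 (by decide +kernel)
      (CovZ.n2 (24960, 21888) (by decide +kernel)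
       (CovZ.n2 (25344, 21888) (by decide +kernel)
        (CovZ.n2 (25152, 21696) (by decide +kernel)
         (CovZ.leaf K2_ok TD_l5071 _)
         (CovZ.leaf K2_ok TD_l5072 _))
        (CovZ.n1 (25152, 22080) (by decide +kernel)
         (CovZ.leaf K2_ok TD_l5073 _)
         (CovZ.leaf K2_ok TD_l5074 _)))
       (CovZ.n1 (24960, 21504) (by decide +kernel)
        (CovZ.n2 (24768, 21696) (by decide +kernel)
         (CovZ.n2 (24960, 21696) (by decide +kernel)
          (CovZ.leaf K2_ok TD_l5075 _)
          (CovZ.leaf K2_ok TD_l5076 _))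
         (CovZ.n1 (24768, 21504) (by decide +kernel)
          (CovZ.leaf K2_ok TD_l5077 _)
          (CovZ.leaf K2_ok TD_l5078 _)))
        (CovZ.n1 (25152, 21696) (by decide +kernel)
         (CovZ.n2 (25152, 21504) (by decide +kernel)
          (CovZ.leaf K2_ok TD_l5079 _)
          (CovZ.leaf K2_ok TD_l5080 _))
         (CovZ.leaf K2_ok TD_l5081 _)))))
     (CovZ.n1 (25728, 21888) (by decide +kernel)
      (CovZ.n2 (25728, 21504) (by decide +kernel)
       (CovZ.n2 (25536, 21696) (by decide +kernel)
        (CovZ.leaf K2_ok TD_l5082 _)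
        (CovZ.leaf K2_ok TD_l5083 _))
       (CovZ.leaf K2_ok TD_l5084 _))
      (CovZ.n1 (25344, 21888) (by decide +kernel)
       (CovZ.n2 (25536, 22080) (by decide +kernel)
        (CovZ.leaf K2_ok TD_l5085 _)
        (CovZ.leaf K2_ok TD_l5086 _))
       (CovZ.leaf K2_ok TD_l5087 _))))))
    (CovZ.topM TD_LL 311374014529654369868887485633099082685555482607053903619708119744776923571932105069617933243582211318445 (by decide +kernel) (CovZ.n0 (25344, 22272) (by decide +kernel)
    (CovZ.subM 273414685315754030436052708404311589360550974874204829231257662282284908126633957083567343771083308 (by decide +kernel)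
     (CovZ.n2 (24576, 22272) (by decide +kernel)
      (CovZ.n2 (24960, 22656) (by decide +kernel)
       (CovZ.n2 (24960, 22272) (by decide +kernel)
        (CovZ.n2 (24768, 22464) (by decide +kernel)
         (CovZ.leaf K2_ok TD_l5088 _)
         (CovZ.leaf K2_ok TD_l5089 _))
        (CovZ.n1 (25152, 22464) (by decide +kernel)
         (CovZ.leaf K2_ok TD_l5090 _)
         (CovZ.leaf K2_ok TD_l5091 _)))
       (CovZ.n1 (24576, 22656) (by decide +kernel)
        (CovZ.n2 (24768, 22848) (by decide +kernel)
         (CovZ.n2 (24768, 22656) (by decide +kernel)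
          (CovZ.leaf K2_ok TD_l5092 _)
          (CovZ.leaf K2_ok TD_l5093 _))
         (CovZ.leaf K2_ok TD_l5094 _))
        (CovZ.leaf K2_ok TD_l5095 _)))
      (CovZ.n1 (24960, 21888) (by decide +kernel)
       (CovZ.n2 (24576, 21888) (by decide +kernel)
        (CovZ.n2 (24768, 22080) (by decide +kernel)
         (CovZ.n2 (24768, 21888) (by decide +kernel)
          (CovZ.leaf K2_ok TD_l5096 _)
          (CovZ.leaf K2_ok TD_l5097 _))
         (CovZ.leaf K2_ok TD_l5098 _))
        (CovZ.n1 (24768, 21696) (by decide +kernel)
         (CovZ.leaf K2_ok TD_l5099 _)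
         (CovZ.n1 (24768, 21888) (by decide +kernel)
          (CovZ.leaf K2_ok TD_l5100 _)
          (CovZ.leaf K2_ok TD_l5101 _))))
       (CovZ.n1 (24960, 22272) (by decide +kernel)
        (CovZ.leaf K2_ok TD_l5102 _)
        (CovZ.n1 (24768, 22080) (by decide +kernel)
         (CovZ.leaf K2_ok TD_l5103 _)
         (CovZ.leaf K2_ok TD_l5104 _))))))
    (CovZ.n1 (25344, 23040) (by decide +kernel)
     (CovZ.n2 (25728, 22656) (by decide +kernel)
      (CovZ.n2 (25344, 22656) (by decide +kernel)
       (CovZ.n2 (25536, 22848) (by decide +kernel)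
        (CovZ.leaf K2_ok TD_l5105 _)
        (CovZ.leaf K2_ok TD_l5106 _))
       (CovZ.leaf K2_ok TD_l5107 _))
      (CovZ.n1 (25728, 23040) (by decide +kernel)
       (CovZ.leaf K2_ok TD_l5108 _)
       (CovZ.n1 (25536, 22848) (by decide +kernel)
        (CovZ.leaf K2_ok TD_l5109 _)
        (CovZ.leaf K2_ok TD_l5110 _))))
     (CovZ.subM 273414685315754030436052708404311589360550974874204829231257662282284908126633957083567343771083308 (by decide +kernel)
      (CovZ.n1 (24960, 22656) (by decide +kernel)
       (CovZ.n2 (24960, 23040) (by decide +kernel)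
        (CovZ.leaf K2_ok TD_l5111 _)
        (CovZ.n1 (24768, 22848) (by decide +kernel)
         (CovZ.leaf K2_ok TD_l5112 _)
         (CovZ.leaf K2_ok TD_l5113 _)))
       (CovZ.n1 (25344, 22656) (by decide +kernel)
        (CovZ.n2 (25152, 22464) (by decide +kernel)
         (CovZ.leaf K2_ok TD_l5114 _)
         (CovZ.leaf K2_ok TD_l5115 _))
        (CovZ.n1 (25152, 22848) (by decide +kernel)
         (CovZ.leaf K2_ok TD_l5116 _)
         (CovZ.leaf K2_ok TD_l5117 _))))))))

theorem TD_s5_6 : SqZ TD_M TD_L [0, 7, 6, 1] 18432 12288 1536 5 6 :=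
  SqZ.mk (a := 26112) (b := 27648) (c := 21504) (d := 23040) (by norm_num) (by norm_num) (by norm_num) (by norm_num)
    (CovZ.topM TD_LL 5517170723562280975414811252245245713728685763951572815072168096904316225368895226767924336907534444195493 (by decide +kernel) (CovZ.n2 (26880, 22272) (by decide +kernel)
    (CovZ.subM 8749013916090047071743613298502899266623008288091917547471655208116395670398112260753087304598351493 (by decide +kernel)
     (CovZ.n2 (27648, 22272) (by decide +kernel)
      (CovZ.n2 (27264, 21888) (by decide +kernel)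
       (CovZ.leaf K2_ok TD_l6836 _)
       (CovZ.n1 (27648, 21888) (by decide +kernel)
        (CovZ.leaf K2_ok TD_l6837 _)
        (CovZ.leaf K2_ok TD_l6838 _)))
      (CovZ.n1 (27264, 22656) (by decide +kernel)
       (CovZ.leaf K2_ok TD_l6839 _)
       (CovZ.n1 (27264, 22272) (by decide +kernel)
        (CovZ.leaf K2_ok TD_l6840 _)
        (CovZ.leaf K2_ok TD_l6841 _)))))
    (CovZ.n1 (26880, 21504) (by decide +kernel)
     (CovZ.n2 (26496, 21888) (by decide +kernel)
      (CovZ.n2 (26880, 21888) (by decide +kernel)
       (CovZ.leaf K2_ok TD_l6842 _)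
       (CovZ.leaf K2_ok TD_l6843 _))
      (CovZ.n1 (26496, 21504) (by decide +kernel)
       (CovZ.leaf K2_ok TD_l6844 _)
       (CovZ.leaf K2_ok TD_l6845 _)))
     (CovZ.n1 (27264, 21888) (by decide +kernel)
      (CovZ.leaf K2_ok TD_l6846 _)
      (CovZ.leaf K2_ok TD_l6847 _)))))
    (CovZ.topM TD_LL 5517170723562280975414811252245245713728685763951572815072168096904316225368895226767924336907534444195493 (by decide +kernel) (CovZ.n0 (26880, 22272) (by decide +kernel)
    (CovZ.n2 (26112, 22272) (by decide +kernel)
     (CovZ.n2 (26496, 22656) (by decide +kernel)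
      (CovZ.n2 (26496, 22272) (by decide +kernel)
       (CovZ.leaf K2_ok TD_l6848 _)
       (CovZ.leaf K2_ok TD_l6849 _))
      (CovZ.leaf K2_ok TD_l6850 _))
     (CovZ.n1 (26496, 21888) (by decide +kernel)
      (CovZ.leaf K2_ok TD_l6851 _)
      (CovZ.n1 (26496, 22272) (by decide +kernel)
       (CovZ.leaf K2_ok TD_l6852 _)
       (CovZ.leaf K2_ok TD_l6853 _))))
    (CovZ.n1 (26880, 23040) (by decide +kernel)
     (CovZ.n2 (27264, 22656) (by decide +kernel)
      (CovZ.leaf K2_ok TD_l6854 _)
      (CovZ.leaf K2_ok TD_l6855 _))
     (CovZ.n1 (26496, 22656) (by decide +kernel)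
      (CovZ.n2 (26496, 23040) (by decide +kernel)
       (CovZ.leaf K2_ok TD_l6856 _)
       (CovZ.n1 (26304, 22848) (by decide +kernel)
        (CovZ.leaf K2_ok TD_l6857 _)
        (CovZ.leaf K2_ok TD_l6858 _)))
      (CovZ.n1 (26880, 22656) (by decide +kernel)
       (CovZ.leaf K2_ok TD_l6859 _)
       (CovZ.leaf K2_ok TD_l6860 _))))))

theorem TD_s6_6 : SqZ TD_M TD_L [0, 7, 6, 1] 18432 12288 1536 6 6 :=
  SqZ.mk (a := 27648) (b := 29184) (c := 21504) (d := 23040) (by norm_num) (by norm_num) (by norm_num) (by norm_num)
    (CovZ.topM TD_LL 8749011308552704023497478941824903244682439298930107877987428044951021914849637424670335632614222981 (by decide +kernel) (CovZ.n2 (28416, 22272) (by decide +kernel)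
    (CovZ.n2 (29184, 22272) (by decide +kernel)
     (CovZ.leaf K2_ok TD_l8818 _)
     (CovZ.n1 (28800, 22656) (by decide +kernel)
      (CovZ.leaf K2_ok TD_l8819 _)
      (CovZ.leaf K2_ok TD_l8820 _)))
    (CovZ.n1 (28416, 21504) (by decide +kernel)
     (CovZ.n2 (28032, 21888) (by decide +kernel)
      (CovZ.leaf K2_ok TD_l8821 _)
      (CovZ.leaf K2_ok TD_l8822 _))
     (CovZ.n1 (28800, 21888) (by decide +kernel)
      (CovZ.leaf K2_ok TD_l8823 _)
      (CovZ.leaf K2_ok TD_l8824 _)))))
    (CovZ.topM TD_LL 8749011308552704023497478941824903244682439298930107877809022083362776929717351678489148740566379653 (by decide +kernel) (CovZ.n0 (28416, 22272) (by decide +kernel)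
    (CovZ.n2 (27648, 22272) (by decide +kernel)
     (CovZ.n2 (28032, 22656) (by decide +kernel)
      (CovZ.leaf K2_ok TD_l8825 _)
      (CovZ.leaf K2_ok TD_l8826 _))
     (CovZ.leaf K2_ok TD_l8827 _))
    (CovZ.n1 (28416, 23040) (by decide +kernel)
     (CovZ.n2 (28800, 22656) (by decide +kernel)
      (CovZ.leaf K2_ok TD_l8828 _)
      (CovZ.leaf K2_ok TD_l8829 _))
     (CovZ.n1 (28032, 22656) (by decide +kernel)
      (CovZ.leaf K2_ok TD_l8830 _)
      (CovZ.leaf K2_ok TD_l8831 _)))))

theorem TD_s7_6 : SqZ TD_M TD_L [0, 7, 6, 1] 18432 12288 1536 7 6 :=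
  SqZ.mk (a := 29184) (b := 30720) (c := 21504) (d := 23040) (by norm_num) (by norm_num) (by norm_num) (by norm_num)
    (CovZ.topM TD_LL 8749002899140004869272565494760500506663305625536559417948479823324453922394555595988489024013692033 (by decide +kernel) (CovZ.n2 (29952, 22272) (by decide +kernel)
    (CovZ.n2 (30720, 22272) (by decide +kernel)
     (CovZ.leaf K2_ok TD_l10848 _)
     (CovZ.n1 (30336, 22656) (by decide +kernel)
      (CovZ.leaf K2_ok TD_l10849 _)
      (CovZ.leaf K2_ok TD_l10850 _)))
    (CovZ.n1 (29952, 21504) (by decide +kernel)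
     (CovZ.n2 (29568, 21888) (by decide +kernel)
      (CovZ.leaf K2_ok TD_l10851 _)
      (CovZ.leaf K2_ok TD_l10852 _))
     (CovZ.leaf K2_ok TD_l10853 _))))
    (CovZ.topM TD_LL 8749002899140004869272565494758775070076607984589700728982910566961341145151512999349698392957742209 (by decide +kernel) (CovZ.n0 (29952, 22272) (by decide +kernel)
    (CovZ.n2 (29184, 22272) (by decide +kernel)
     (CovZ.n2 (29568, 22656) (by decide +kernel)
      (CovZ.leaf K2_ok TD_l10854 _)
      (CovZ.leaf K2_ok TD_l10855 _))
     (CovZ.leaf K2_ok TD_l10856 _))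
    (CovZ.n1 (29952, 23040) (by decide +kernel)
     (CovZ.n2 (30336, 22656) (by decide +kernel)
      (CovZ.leaf K2_ok TD_l10857 _)
      (CovZ.leaf K2_ok TD_l10858 _))
     (CovZ.n1 (29568, 22656) (by decide +kernel)
      (CovZ.leaf K2_ok TD_l10859 _)
      (CovZ.leaf K2_ok TD_l10860 _)))))

theorem TD_s8_6 : SqZ TD_M TD_L [0, 7, 6, 1] 18432 12288 1536 8 6 :=
  SqZ.mk (a := 30720) (b := 32256) (c := 21504) (d := 23040) (by norm_num) (by norm_num) (by norm_num) (by norm_num)
    (CovZ.topM TD_LL 8749002899132047697490008908470485461412677723573223895831229907610711666823703017715913683099525248 (by decide +kernel) (CovZ.n2 (31488, 22272) (by decide +kernel)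
    (CovZ.subM 5708990770823839526709023956368811464073478144 (by decide +kernel)
     (CovZ.n2 (32256, 22272) (by decide +kernel)
      (CovZ.n2 (31872, 21888) (by decide +kernel)
       (CovZ.leaf K2_ok TD_l12936 _)
       (CovZ.badM (by decide +kernel)))
      (CovZ.n1 (31872, 22656) (by decide +kernel)
       (CovZ.badM (by decide +kernel))
       (CovZ.leaf K2_ok TD_l12940 _))))
    (CovZ.n1 (31488, 21504) (by decide +kernel)
     (CovZ.leaf K2_ok TD_l12941 _)
     (CovZ.n1 (31872, 21888) (by decide +kernel)
      (CovZ.leaf K2_ok TD_l12942 _)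
      (CovZ.leaf K2_ok TD_l12943 _)))))
    (CovZ.topM TD_LL 8749002899132047697490008908470485461412677723573223895831229907610711666823703017715913683099525248 (by decide +kernel) (CovZ.n0 (31488, 22272) (by decide +kernel)
    (CovZ.n2 (30720, 22272) (by decide +kernel)
     (CovZ.n2 (31104, 22656) (by decide +kernel)
      (CovZ.n2 (31104, 22272) (by decide +kernel)
       (CovZ.leaf K2_ok TD_l12944 _)
       (CovZ.leaf K2_ok TD_l12945 _))
      (CovZ.leaf K2_ok TD_l12946 _))
     (CovZ.leaf K2_ok TD_l12947 _))
    (CovZ.n1 (31488, 23040) (by decide +kernel)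
     (CovZ.n2 (31872, 22656) (by decide +kernel)
      (CovZ.leaf K2_ok TD_l12948 _)
      (CovZ.n1 (31872, 23040) (by decide +kernel)
       (CovZ.badM (by decide +kernel))
       (CovZ.leaf K2_ok TD_l12950 _)))
     (CovZ.n1 (31104, 22656) (by decide +kernel)
      (CovZ.leaf K2_ok TD_l12951 _)
      (CovZ.leaf K2_ok TD_l12952 _)))))

theorem TD_s0_7 : SqZ TD_M TD_L [0, 7, 6, 1] 18432 12288 1536 0 7 :=
  SqZ.mk (a := 18432) (b := 19968) (c := 23040) (d := 24576) (by norm_num) (by norm_num) (by norm_num) (by norm_num)
    (CovZ.topM TD_LL 0 (by decide +kernel) (CovZ.badM (by decide +kernel)))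
    (CovZ.topM TD_LL 0 (by decide +kernel) (CovZ.badM (by decide +kernel)))

theorem TD_s1_7 : SqZ TD_M TD_L [0, 7, 6, 1] 18432 12288 1536 1 7 :=
  SqZ.mk (a := 19968) (b := 21504) (c := 23040) (d := 24576) (by norm_num) (by norm_num) (by norm_num) (by norm_num)
    (CovZ.topM TD_LL 2202736630793438522469866134487350618184039038680298258210867452189633265269432274099514051133472 (by decide +kernel) (CovZ.n2 (20736, 23808) (by decide +kernel)
    (CovZ.n2 (21504, 23808) (by decide +kernel)
     (CovZ.subM 66749594872528440074844428317798503581334516323645399060845050244602822755674716799316359381024 (by decide +kernel)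
      (CovZ.n2 (21120, 23424) (by decide +kernel)
       (CovZ.n2 (21120, 23808) (by decide +kernel)
        (CovZ.n2 (21312, 23616) (by decide +kernel)
         (CovZ.badM (by decide +kernel))
         (CovZ.n1 (21312, 23808) (by decide +kernel)
          (CovZ.n2 (21408, 23712) (by decide +kernel)
           (CovZ.badM (by decide +kernel))
           (CovZ.n1 (21408, 23808) (by decide +kernel)
            (CovZ.n2 (21456, 23760) (by decide +kernel)
             (CovZ.badM (by decide +kernel))
             (CovZ.n1 (21456, 23808) (by decide +kernel)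
              (CovZ.leaf K2_ok TD_l14600 _)
              (CovZ.badM (by decide +kernel))))
            (CovZ.badM (by decide +kernel))))
          (CovZ.badM (by decide +kernel))))
        (CovZ.badM (by decide +kernel)))
       (CovZ.n1 (21504, 23424) (by decide +kernel)
        (CovZ.badM (by decide +kernel))
        (CovZ.n1 (21312, 23616) (by decide +kernel)
         (CovZ.n2 (21504, 23616) (by decide +kernel)
          (CovZ.badM (by decide +kernel))
          (CovZ.n1 (21408, 23712) (by decide +kernel)
           (CovZ.n2 (21504, 23712) (by decide +kernel)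
            (CovZ.badM (by decide +kernel))
            (CovZ.n1 (21456, 23760) (by decide +kernel)
             (CovZ.n2 (21504, 23760) (by decide +kernel)
              (CovZ.n2 (21480, 23736) (by decide +kernel)
               (CovZ.leaf K2_ok TD_l14601 _)
               (CovZ.leaf K2_ok TD_l14602 _))
              (CovZ.n1 (21480, 23784) (by decide +kernel)
               (CovZ.leaf K2_ok TD_l14603 _)
               (CovZ.leaf K2_ok TD_l14604 _)))
             (CovZ.n1 (21456, 23712) (by decide +kernel)
              (CovZ.badM (by decide +kernel))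
              (CovZ.n1 (21480, 23736) (by decide +kernel)
               (CovZ.badM (by decide +kernel))
               (CovZ.badM (by decide +kernel))))))
           (CovZ.badM (by decide +kernel))))
         (CovZ.badM (by decide +kernel))))))
     (CovZ.n1 (21120, 24192) (by decide +kernel)
      TD_u53
      TD_u54))
    (CovZ.n1 (20736, 23040) (by decide +kernel)
     (CovZ.badM (by decide +kernel))
     (CovZ.n1 (21120, 23424) (by decide +kernel)
      (CovZ.badM (by decide +kernel))
      (CovZ.badM (by decide +kernel))))))
    (CovZ.topM TD_LL 2202736630793438522469866134487350618184039038680298258210867452189633265269432274099514051133440 (by decide +kernel) (CovZ.n0 (20736, 23808) (by decide +kernel)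
    (CovZ.badM (by decide +kernel))
    (CovZ.n1 (20736, 24576) (by decide +kernel)
     (CovZ.n2 (21120, 24192) (by decide +kernel)
      (CovZ.subM 2135987035920910082395021706169552114602704522356652769947041607822219725780640568037360596418560 (by decide +kernel)
       (CovZ.n2 (20736, 24192) (by decide +kernel)
        (CovZ.n2 (20928, 24384) (by decide +kernel)
         (CovZ.n2 (20928, 24192) (by decide +kernel)
          (CovZ.n2 (20832, 24288) (by decide +kernel)
           (CovZ.n2 (20928, 24288) (by decide +kernel)
            (CovZ.badM (by decide +kernel))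
            (CovZ.n1 (20880, 24336) (by decide +kernel)
             (CovZ.n2 (20928, 24336) (by decide +kernel)
              (CovZ.badM (by decide +kernel))
              (CovZ.n1 (20904, 24360) (by decide +kernel)
               (CovZ.leaf K2_ok TD_l14610 _)
               (CovZ.badM (by decide +kernel))))
             (CovZ.badM (by decide +kernel))))
           (CovZ.badM (by decide +kernel)))
          (CovZ.n1 (21024, 24288) (by decide +kernel)
           (CovZ.n2 (21024, 24192) (by decide +kernel)
            (CovZ.n2 (20976, 24240) (by decide +kernel)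
             (CovZ.n2 (21024, 24240) (by decide +kernel)
              (CovZ.badM (by decide +kernel))
              (CovZ.n1 (21000, 24264) (by decide +kernel)
               (CovZ.leaf K2_ok TD_l97 _)
               (CovZ.badM (by decide +kernel))))
             (CovZ.badM (by decide +kernel)))
            (CovZ.n1 (21072, 24240) (by decide +kernel)
             (CovZ.n2 (21072, 24192) (by decide +kernel)
              (CovZ.n2 (21048, 24216) (by decide +kernel)
               (CovZ.leaf K2_ok TD_l99 _)
               (CovZ.badM (by decide +kernel)))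
              (CovZ.leaf K2_ok TD_l100 _))
             (CovZ.n1 (21024, 24240) (by decide +kernel)
              (CovZ.n2 (21048, 24264) (by decide +kernel)
               (CovZ.leaf K2_ok TD_l101 _)
               (CovZ.leaf K2_ok TD_l102 _))
              (CovZ.leaf K2_ok TD_l103 _))))
           (CovZ.n1 (20928, 24288) (by decide +kernel)
            (CovZ.n2 (20976, 24336) (by decide +kernel)
             (CovZ.n2 (20976, 24288) (by decide +kernel)
              (CovZ.n2 (20952, 24312) (by decide +kernel)
               (CovZ.leaf K2_ok TD_l14611 _)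
               (CovZ.badM (by decide +kernel)))
              (CovZ.leaf K2_ok TD_l104 _))
             (CovZ.leaf K2_ok TD_l14612 _))
            (CovZ.n1 (20976, 24240) (by decide +kernel)
             (CovZ.badM (by decide +kernel))
             (CovZ.n1 (20976, 24288) (by decide +kernel)
              (CovZ.leaf K2_ok TD_l105 _)
              (CovZ.badM (by decide +kernel)))))))
         (CovZ.n1 (20736, 24384) (by decide +kernel)
          (CovZ.n2 (20832, 24480) (by decide +kernel)
           (CovZ.n2 (20832, 24384) (by decide +kernel)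
            (CovZ.badM (by decide +kernel))
            (CovZ.n1 (20880, 24432) (by decide +kernel)
             (CovZ.n2 (20880, 24384) (by decide +kernel)
              (CovZ.badM (by decide +kernel))
              (CovZ.leaf K2_ok TD_l14613 _))
             (CovZ.badM (by decide +kernel))))
           (CovZ.badM (by decide +kernel)))
          (CovZ.n1 (20832, 24288) (by decide +kernel)
           (CovZ.badM (by decide +kernel))
           (CovZ.n1 (20832, 24384) (by decide +kernel)
            (CovZ.n2 (20880, 24336) (by decide +kernel)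
             (CovZ.badM (by decide +kernel))
             (CovZ.n1 (20880, 24384) (by decide +kernel)
              (CovZ.leaf K2_ok TD_l14614 _)
              (CovZ.badM (by decide +kernel))))
            (CovZ.badM (by decide +kernel))))))
        (CovZ.n1 (20928, 24000) (by decide +kernel)
         (CovZ.badM (by decide +kernel))
         (CovZ.n1 (20928, 24192) (by decide +kernel)
          (CovZ.n2 (21024, 24096) (by decide +kernel)
           (CovZ.badM (by decide +kernel))
           (CovZ.n1 (21024, 24192) (by decide +kernel)
            (CovZ.n2 (21072, 24144) (by decide +kernel)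
             (CovZ.badM (by decide +kernel))
             (CovZ.n1 (21072, 24192) (by decide +kernel)
              (CovZ.leaf K2_ok TD_l106 _)
              (CovZ.badM (by decide +kernel))))
            (CovZ.badM (by decide +kernel))))
          (CovZ.badM (by decide +kernel))))))
      (CovZ.n1 (21120, 24576) (by decide +kernel)
       (CovZ.n2 (21312, 24384) (by decide +kernel)
        (CovZ.subM 2135987035920910082395021706169552114602704522356652859150022401944713529863552944011081519464448 (by decide +kernel)
         (CovZ.n2 (21120, 24384) (by decide +kernel)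
          (CovZ.n2 (21216, 24480) (by decide +kernel)
           (CovZ.n2 (21216, 24384) (by decide +kernel)
            (CovZ.leaf K2_ok TD_l107 _)
            (CovZ.leaf K2_ok TD_l108 _))
           (CovZ.leaf K2_ok TD_l109 _))
          (CovZ.n1 (21216, 24288) (by decide +kernel)
           (CovZ.n2 (21120, 24288) (by decide +kernel)
            (CovZ.n2 (21168, 24336) (by decide +kernel)
             (CovZ.leaf K2_ok TD_l110 _)
             (CovZ.leaf K2_ok TD_l111 _))
            (CovZ.leaf K2_ok TD_l112 _))
           (CovZ.n1 (21216, 24384) (by decide +kernel)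
            (CovZ.leaf K2_ok TD_l113 _)
            (CovZ.n1 (21168, 24336) (by decide +kernel)
             (CovZ.leaf K2_ok TD_l114 _)
             (CovZ.leaf K2_ok TD_l115 _))))))
        (CovZ.n1 (21312, 24576) (by decide +kernel)
         (CovZ.n2 (21408, 24480) (by decide +kernel)
          (CovZ.leaf K2_ok TD_l116 _)
          (CovZ.n1 (21408, 24576) (by decide +kernel)
           (CovZ.leaf K2_ok TD_l117 _)
           (CovZ.leaf K2_ok TD_l118 _)))
         (CovZ.subM 2135987035920910082395021706169552114602704522356652859150022401944713529863552944011081519464448 (by decide +kernel)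
          (CovZ.n1 (21216, 24480) (by decide +kernel)
           (CovZ.n2 (21216, 24576) (by decide +kernel)
            (CovZ.leaf K2_ok TD_l119 _)
            (CovZ.n1 (21168, 24528) (by decide +kernel)
             (CovZ.leaf K2_ok TD_l120 _)
             (CovZ.leaf K2_ok TD_l121 _)))
           (CovZ.n1 (21312, 24480) (by decide +kernel)
            (CovZ.leaf K2_ok TD_l122 _)
            (CovZ.leaf K2_ok TD_l123 _))))))
       (CovZ.subM 2135987035920910082395021706169552114602704522356652859150022401944713529863552944011081519464448 (by decide +kernel)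
        (CovZ.n1 (20928, 24384) (by decide +kernel)
         (CovZ.n2 (20928, 24576) (by decide +kernel)
          (CovZ.n2 (21024, 24480) (by decide +kernel)
           (CovZ.n2 (20928, 24480) (by decide +kernel)
            (CovZ.n2 (20976, 24528) (by decide +kernel)
             (CovZ.leaf K2_ok TD_l124 _)
             (CovZ.leaf K2_ok TD_l14615 _))
            (CovZ.leaf K2_ok TD_l125 _))
           (CovZ.n1 (21024, 24576) (by decide +kernel)
            (CovZ.leaf K2_ok TD_l126 _)
            (CovZ.n1 (20976, 24528) (by decide +kernel)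
             (CovZ.leaf K2_ok TD_l127 _)
             (CovZ.leaf K2_ok TD_l128 _))))
          (CovZ.n1 (20832, 24480) (by decide +kernel)
           (CovZ.n2 (20832, 24576) (by decide +kernel)
            (CovZ.leaf K2_ok TD_l14616 _)
            (CovZ.n1 (20784, 24528) (by decide +kernel)
             (CovZ.n2 (20784, 24576) (by decide +kernel)
              (CovZ.leaf K2_ok TD_l14617 _)
              (CovZ.leaf K2_ok TD_l14618 _))
             (CovZ.n1 (20832, 24528) (by decide +kernel)
              (CovZ.leaf K2_ok TD_l14619 _)
              (CovZ.leaf K2_ok TD_l14620 _))))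
           (CovZ.n1 (20928, 24480) (by decide +kernel)
            (CovZ.n2 (20880, 24432) (by decide +kernel)
             (CovZ.n2 (20880, 24480) (by decide +kernel)
              (CovZ.leaf K2_ok TD_l14621 _)
              (CovZ.leaf K2_ok TD_l14622 _))
             (CovZ.n1 (20928, 24432) (by decide +kernel)
              (CovZ.leaf K2_ok TD_l14623 _)
              (CovZ.leaf K2_ok TD_l14624 _)))
            (CovZ.n1 (20880, 24528) (by decide +kernel)
             (CovZ.leaf K2_ok TD_l14625 _)
             (CovZ.n1 (20880, 24480) (by decide +kernel)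
              (CovZ.leaf K2_ok TD_l14626 _)
              (CovZ.leaf K2_ok TD_l14627 _))))))
         (CovZ.n1 (21120, 24384) (by decide +kernel)
          (CovZ.n2 (21024, 24288) (by decide +kernel)
           (CovZ.n2 (21024, 24384) (by decide +kernel)
            (CovZ.leaf K2_ok TD_l129 _)
            (CovZ.n1 (20976, 24336) (by decide +kernel)
             (CovZ.n2 (20976, 24384) (by decide +kernel)
              (CovZ.leaf K2_ok TD_l130 _)
              (CovZ.leaf K2_ok TD_l14628 _))
             (CovZ.n1 (21024, 24336) (by decide +kernel)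
              (CovZ.n2 (21000, 24312) (by decide +kernel)
               (CovZ.leaf K2_ok TD_l131 _)
               (CovZ.leaf K2_ok TD_l132 _))
              (CovZ.leaf K2_ok TD_l133 _))))
           (CovZ.n1 (21120, 24288) (by decide +kernel)
            (CovZ.n2 (21072, 24240) (by decide +kernel)
             (CovZ.n2 (21072, 24288) (by decide +kernel)
              (CovZ.leaf K2_ok TD_l134 _)
              (CovZ.n1 (21048, 24264) (by decide +kernel)
               (CovZ.leaf K2_ok TD_l135 _)
               (CovZ.leaf K2_ok TD_l136 _)))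
             (CovZ.n1 (21120, 24240) (by decide +kernel)
              (CovZ.leaf K2_ok TD_l137 _)
              (CovZ.leaf K2_ok TD_l138 _)))
            (CovZ.n1 (21072, 24336) (by decide +kernel)
             (CovZ.leaf K2_ok TD_l139 _)
             (CovZ.n1 (21072, 24288) (by decide +kernel)
              (CovZ.leaf K2_ok TD_l140 _)
              (CovZ.leaf K2_ok TD_l141 _)))))
          (CovZ.n1 (21024, 24480) (by decide +kernel)
           (CovZ.n2 (21120, 24480) (by decide +kernel)
            (CovZ.n2 (21072, 24432) (by decide +kernel)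
             (CovZ.leaf K2_ok TD_l142 _)
             (CovZ.leaf K2_ok TD_l143 _))
            (CovZ.leaf K2_ok TD_l144 _))
           (CovZ.n1 (21024, 24384) (by decide +kernel)
            (CovZ.n2 (20976, 24432) (by decide +kernel)
             (CovZ.leaf K2_ok TD_l145 _)
             (CovZ.n1 (20976, 24384) (by decide +kernel)
              (CovZ.leaf K2_ok TD_l14629 _)
              (CovZ.leaf K2_ok TD_l146 _)))
            (CovZ.n1 (21072, 24432) (by decide +kernel)
             (CovZ.leaf K2_ok TD_l147 _)
             (CovZ.leaf K2_ok TD_l148 _)))))))))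
     (CovZ.badM (by decide +kernel)))))

theorem TD_s2_7 : SqZ TD_M TD_L [0, 7, 6, 1] 18432 12288 1536 2 7 :=
  SqZ.mk (a := 21504) (b := 23040) (c := 23040) (d := 24576) (by norm_num) (by norm_num) (by norm_num) (by norm_num)
    (CovZ.topM TD_LL 73391957973892809501508620049235648927194447882799393309415005892784759907469999614676340235615198674681900 (by decide +kernel) (CovZ.n2 (22272, 23808) (by decide +kernel)
    TD_u57
    TD_u58))
    (CovZ.topM TD_LL 73391957973892809501508620049235648927194447882799393309415005892784759907469999614676340235615198674681900 (by decide +kernel) (CovZ.n0 (22272, 23808) (by decide +kernel)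
    TD_u61
    TD_u62))

theorem TD_s3_7 : SqZ TD_M TD_L [0, 7, 6, 1] 18432 12288 1536 3 7 :=
  SqZ.mk (a := 23040) (b := 24576) (c := 23040) (d := 24576) (by norm_num) (by norm_num) (by norm_num) (by norm_num)
    (CovZ.topM TD_LL 4338724685232822439330988290624929085478996043725873024794419963969365819937663914292976977732140 (by decide +kernel) (CovZ.n2 (23808, 23808) (by decide +kernel)
    (CovZ.n2 (24576, 23808) (by decide +kernel)
     (CovZ.n2 (24192, 23424) (by decide +kernel)
      (CovZ.n2 (24192, 23808) (by decide +kernel)
       (CovZ.leaf K2_ok TD_l2733 _)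
       (CovZ.subM 4271975090360293999256143862253210688563360241823655604034417375617852042054523149750101667217452 (by decide +kernel)
        (CovZ.n1 (24000, 23616) (by decide +kernel)
         (CovZ.n2 (24000, 23808) (by decide +kernel)
          (CovZ.leaf K2_ok TD_l2734 _)
          (CovZ.leaf K2_ok TD_l2735 _))
         (CovZ.n1 (24192, 23616) (by decide +kernel)
          (CovZ.leaf K2_ok TD_l2736 _)
          (CovZ.leaf K2_ok TD_l2737 _)))))
      (CovZ.n1 (24576, 23424) (by decide +kernel)
       (CovZ.n2 (24384, 23232) (by decide +kernel)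
        (CovZ.leaf K2_ok TD_l2738 _)
        (CovZ.n1 (24576, 23232) (by decide +kernel)
         (CovZ.leaf K2_ok TD_l2739 _)
         (CovZ.leaf K2_ok TD_l2740 _)))
       (CovZ.n1 (24384, 23616) (by decide +kernel)
        (CovZ.n2 (24576, 23616) (by decide +kernel)
         (CovZ.leaf K2_ok TD_l2741 _)
         (CovZ.leaf K2_ok TD_l2742 _))
        (CovZ.n1 (24384, 23424) (by decide +kernel)
         (CovZ.leaf K2_ok TD_l2743 _)
         (CovZ.leaf K2_ok TD_l2744 _)))))
     (CovZ.n1 (24192, 24192) (by decide +kernel)
      (CovZ.n2 (24576, 24192) (by decide +kernel)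
       (CovZ.n2 (24384, 24000) (by decide +kernel)
        (CovZ.leaf K2_ok TD_l2745 _)
        (CovZ.leaf K2_ok TD_l2746 _))
       (CovZ.n1 (24384, 24384) (by decide +kernel)
        (CovZ.leaf K2_ok TD_l2747 _)
        (CovZ.n1 (24384, 24192) (by decide +kernel)
         (CovZ.leaf K2_ok TD_l2748 _)
         (CovZ.leaf K2_ok TD_l2749 _))))
      (CovZ.n1 (24192, 23808) (by decide +kernel)
       (CovZ.subM 4271975090360293999256143862253210688563360241823655604034417375617852042054523149750101667217452 (by decide +kernel)
        (CovZ.n2 (24000, 24000) (by decide +kernel)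
         (CovZ.n2 (24192, 24000) (by decide +kernel)
          (CovZ.leaf K2_ok TD_l2750 _)
          (CovZ.leaf K2_ok TD_l2751 _))
         (CovZ.n1 (24000, 23808) (by decide +kernel)
          (CovZ.leaf K2_ok TD_l2752 _)
          (CovZ.leaf K2_ok TD_l2753 _))))
       (CovZ.n1 (24384, 24000) (by decide +kernel)
        (CovZ.n2 (24384, 23808) (by decide +kernel)
         (CovZ.leaf K2_ok TD_l2754 _)
         (CovZ.leaf K2_ok TD_l2755 _))
        (CovZ.leaf K2_ok TD_l2756 _)))))
    (CovZ.n1 (23808, 23040) (by decide +kernel)
     (CovZ.n2 (23424, 23424) (by decide +kernel)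
      (CovZ.n2 (23808, 23424) (by decide +kernel)
       (CovZ.n2 (23616, 23232) (by decide +kernel)
        (CovZ.n2 (23616, 23424) (by decide +kernel)
         (CovZ.leaf K2_ok TD_l2757 _)
         (CovZ.n1 (23520, 23328) (by decide +kernel)
          (CovZ.leaf K2_ok TD_l2758 _)
          (CovZ.leaf K2_ok TD_l2759 _)))
        (CovZ.n1 (23808, 23232) (by decide +kernel)
         (CovZ.n2 (23712, 23136) (by decide +kernel)
          (CovZ.leaf K2_ok TD_l2760 _)
          (CovZ.leaf K2_ok TD_l2761 _))
         (CovZ.leaf K2_ok TD_l2762 _)))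
       (CovZ.n1 (23616, 23616) (by decide +kernel)
        (CovZ.n2 (23808, 23616) (by decide +kernel)
         (CovZ.n2 (23712, 23520) (by decide +kernel)
          (CovZ.leaf K2_ok TD_l2763 _)
          (CovZ.leaf K2_ok TD_l2764 _))
         (CovZ.leaf K2_ok TD_l2765 _))
        (CovZ.n1 (23616, 23424) (by decide +kernel)
         (CovZ.leaf K2_ok TD_l2766 _)
         (CovZ.leaf K2_ok TD_l2767 _))))
      (CovZ.n1 (23424, 23040) (by decide +kernel)
       (CovZ.n2 (23232, 23232) (by decide +kernel)
        (CovZ.subM 4271975090360293999256143862253210688563360241822926280463444630098348848622722888563317285060652 (by decide +kernel)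
         (CovZ.n2 (23424, 23232) (by decide +kernel)
          (CovZ.n2 (23328, 23136) (by decide +kernel)
           (CovZ.leaf K2_ok TD_l2768 _)
           (CovZ.leaf K2_ok TD_l2769 _))
          (CovZ.n1 (23328, 23328) (by decide +kernel)
           (CovZ.leaf K2_ok TD_l2770 _)
           (CovZ.leaf K2_ok TD_l2771 _))))
        (CovZ.n1 (23232, 23040) (by decide +kernel)
         (CovZ.n2 (23136, 23136) (by decide +kernel)
          (CovZ.leaf K2_ok TD_l2772 _)
          (CovZ.leaf K2_ok TD_l2773 _))
         (CovZ.n1 (23328, 23136) (by decide +kernel)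
          (CovZ.leaf K2_ok TD_l2774 _)
          (CovZ.leaf K2_ok TD_l2775 _))))
       (CovZ.n1 (23616, 23232) (by decide +kernel)
        (CovZ.n2 (23616, 23040) (by decide +kernel)
         (CovZ.leaf K2_ok TD_l2776 _)
         (CovZ.n1 (23712, 23136) (by decide +kernel)
          (CovZ.leaf K2_ok TD_l2777 _)
          (CovZ.leaf K2_ok TD_l2778 _)))
        (CovZ.n1 (23424, 23232) (by decide +kernel)
         (CovZ.n2 (23520, 23328) (by decide +kernel)
          (CovZ.leaf K2_ok TD_l2779 _)
          (CovZ.leaf K2_ok TD_l2780 _))
         (CovZ.leaf K2_ok TD_l2781 _)))))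
     (CovZ.n1 (24192, 23424) (by decide +kernel)
      (CovZ.n2 (24192, 23040) (by decide +kernel)
       (CovZ.subM 4271975090360293999256143862253210688563360241823655604034417375617852042054523149750101667217452 (by decide +kernel)
        (CovZ.n2 (24000, 23232) (by decide +kernel)
         (CovZ.n2 (24192, 23232) (by decide +kernel)
          (CovZ.leaf K2_ok TD_l2782 _)
          (CovZ.leaf K2_ok TD_l2783 _))
         (CovZ.n1 (24000, 23040) (by decide +kernel)
          (CovZ.leaf K2_ok TD_l2784 _)
          (CovZ.leaf K2_ok TD_l2785 _))))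
       (CovZ.n1 (24384, 23232) (by decide +kernel)
        (CovZ.n2 (24384, 23040) (by decide +kernel)
         (CovZ.leaf K2_ok TD_l2786 _)
         (CovZ.leaf K2_ok TD_l2787 _))
        (CovZ.leaf K2_ok TD_l2788 _)))
      (CovZ.subM 4271975090360293999256143862253210688563360241823655604034417375617852042054523149750101667217452 (by decide +kernel)
       (CovZ.n1 (23808, 23424) (by decide +kernel)
        (CovZ.n2 (24000, 23616) (by decide +kernel)
         (CovZ.n2 (24000, 23424) (by decide +kernel)
          (CovZ.leaf K2_ok TD_l2789 _)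
          (CovZ.leaf K2_ok TD_l2790 _))
         (CovZ.leaf K2_ok TD_l2791 _))
        (CovZ.n1 (24000, 23232) (by decide +kernel)
         (CovZ.leaf K2_ok TD_l2792 _)
         (CovZ.n1 (24000, 23424) (by decide +kernel)
          (CovZ.leaf K2_ok TD_l2793 _)
          (CovZ.leaf K2_ok TD_l2794 _)))))))))
    (CovZ.topM TD_LL 4338724685232822439330988290624929085478996043725873024794419963969365819937663914292976977732140 (by decide +kernel) (CovZ.n0 (23808, 23808) (by decide +kernel)
    (CovZ.n2 (23040, 23808) (by decide +kernel)
     (CovZ.n2 (23424, 24192) (by decide +kernel)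
      (CovZ.n2 (23424, 23808) (by decide +kernel)
       (CovZ.n2 (23232, 24000) (by decide +kernel)
        (CovZ.n2 (23424, 24000) (by decide +kernel)
         (CovZ.n2 (23328, 23904) (by decide +kernel)
          (CovZ.leaf K2_ok TD_l2795 _)
          (CovZ.leaf K2_ok TD_l2796 _))
         (CovZ.leaf K2_ok TD_l2797 _))
        (CovZ.n1 (23232, 23808) (by decide +kernel)
         (CovZ.n2 (23136, 23904) (by decide +kernel)
          (CovZ.leaf K2_ok TD_l2798 _)
          (CovZ.leaf K2_ok TD_l2799 _))
         (CovZ.n1 (23328, 23904) (by decide +kernel)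
          (CovZ.leaf K2_ok TD_l2800 _)
          (CovZ.leaf K2_ok TD_l2801 _))))
       (CovZ.n1 (23616, 24000) (by decide +kernel)
        (CovZ.n2 (23616, 23808) (by decide +kernel)
         (CovZ.leaf K2_ok TD_l2802 _)
         (CovZ.leaf K2_ok TD_l2803 _))
        (CovZ.n1 (23424, 24000) (by decide +kernel)
         (CovZ.n2 (23520, 24096) (by decide +kernel)
          (CovZ.leaf K2_ok TD_l2804 _)
          (CovZ.leaf K2_ok TD_l2805 _))
         (CovZ.leaf K2_ok TD_l2806 _))))
      (CovZ.n1 (23040, 24192) (by decide +kernel)
       (CovZ.n2 (23232, 24384) (by decide +kernel)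
        (CovZ.n2 (23232, 24192) (by decide +kernel)
         (CovZ.n2 (23136, 24288) (by decide +kernel)
          (CovZ.leaf K2_ok TD_l2807 _)
          (CovZ.leaf K2_ok TD_l2808 _))
         (CovZ.n1 (23328, 24288) (by decide +kernel)
          (CovZ.leaf K2_ok TD_l2809 _)
          (CovZ.leaf K2_ok TD_l2810 _)))
        (CovZ.n1 (23040, 24384) (by decide +kernel)
         (CovZ.n2 (23136, 24480) (by decide +kernel)
          (CovZ.leaf K2_ok TD_l2811 _)
          (CovZ.leaf K2_ok TD_l2812 _))
         (CovZ.leaf K2_ok TD_l2813 _)))
       (CovZ.n1 (23232, 24000) (by decide +kernel)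
        (CovZ.n2 (23040, 24000) (by decide +kernel)
         (CovZ.n2 (23136, 24096) (by decide +kernel)
          (CovZ.leaf K2_ok TD_l2814 _)
          (CovZ.leaf K2_ok TD_l2815 _))
         (CovZ.leaf K2_ok TD_l2816 _))
        (CovZ.n1 (23232, 24192) (by decide +kernel)
         (CovZ.leaf K2_ok TD_l2817 _)
         (CovZ.n1 (23136, 24096) (by decide +kernel)
          (CovZ.leaf K2_ok TD_l2818 _)
          (CovZ.leaf K2_ok TD_l2819 _))))))
     (CovZ.n1 (23424, 23424) (by decide +kernel)
      (CovZ.n2 (23040, 23424) (by decide +kernel)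
       (CovZ.n2 (23232, 23616) (by decide +kernel)
        (CovZ.n2 (23232, 23424) (by decide +kernel)
         (CovZ.n2 (23136, 23520) (by decide +kernel)
          (CovZ.leaf K2_ok TD_l2820 _)
          (CovZ.leaf K2_ok TD_l2821 _))
         (CovZ.n1 (23328, 23520) (by decide +kernel)
          (CovZ.leaf K2_ok TD_l2822 _)
          (CovZ.leaf K2_ok TD_l2823 _)))
        (CovZ.n1 (23040, 23616) (by decide +kernel)
         (CovZ.n2 (23136, 23712) (by decide +kernel)
          (CovZ.leaf K2_ok TD_l2824 _)
          (CovZ.leaf K2_ok TD_l2825 _))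
         (CovZ.leaf K2_ok TD_l2826 _)))
       (CovZ.n1 (23232, 23232) (by decide +kernel)
        (CovZ.n2 (23040, 23232) (by decide +kernel)
         (CovZ.n2 (23136, 23328) (by decide +kernel)
          (CovZ.leaf K2_ok TD_l2827 _)
          (CovZ.leaf K2_ok TD_l2828 _))
         (CovZ.leaf K2_ok TD_l2829 _))
        (CovZ.n1 (23232, 23424) (by decide +kernel)
         (CovZ.leaf K2_ok TD_l2830 _)
         (CovZ.n1 (23136, 23328) (by decide +kernel)
          (CovZ.leaf K2_ok TD_l2831 _)
          (CovZ.leaf K2_ok TD_l2832 _)))))
      (CovZ.n1 (23424, 23808) (by decide +kernel)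
       (CovZ.n2 (23616, 23616) (by decide +kernel)
        (CovZ.n2 (23424, 23616) (by decide +kernel)
         (CovZ.n2 (23520, 23712) (by decide +kernel)
          (CovZ.leaf K2_ok TD_l2833 _)
          (CovZ.leaf K2_ok TD_l2834 _))
         (CovZ.leaf K2_ok TD_l2835 _))
        (CovZ.n1 (23616, 23808) (by decide +kernel)
         (CovZ.leaf K2_ok TD_l2836 _)
         (CovZ.n1 (23520, 23712) (by decide +kernel)
          (CovZ.leaf K2_ok TD_l2837 _)
          (CovZ.leaf K2_ok TD_l2838 _))))
       (CovZ.n1 (23232, 23616) (by decide +kernel)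
        (CovZ.n2 (23232, 23808) (by decide +kernel)
         (CovZ.leaf K2_ok TD_l2839 _)
         (CovZ.n1 (23136, 23712) (by decide +kernel)
          (CovZ.leaf K2_ok TD_l2840 _)
          (CovZ.leaf K2_ok TD_l2841 _)))
        (CovZ.subM 4271975090360293999256143862253210688563360241822926280463444630098348848622722888563317285060652 (by decide +kernel)
         (CovZ.n1 (23424, 23616) (by decide +kernel)
          (CovZ.n2 (23328, 23520) (by decide +kernel)
           (CovZ.leaf K2_ok TD_l2842 _)
           (CovZ.leaf K2_ok TD_l2843 _))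
          (CovZ.n1 (23328, 23712) (by decide +kernel)
           (CovZ.leaf K2_ok TD_l2844 _)
           (CovZ.leaf K2_ok TD_l2845 _))))))))
    (CovZ.n1 (23808, 24576) (by decide +kernel)
     (CovZ.n2 (24192, 24192) (by decide +kernel)
      (CovZ.subM 4271975090360293999256143862253210688563360241823655604034417375617852042054523149750101667217452 (by decide +kernel)
       (CovZ.n2 (23808, 24192) (by decide +kernel)
        (CovZ.n2 (24000, 24384) (by decide +kernel)
         (CovZ.n2 (24000, 24192) (by decide +kernel)
          (CovZ.leaf K2_ok TD_l2846 _)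
          (CovZ.leaf K2_ok TD_l2847 _))
         (CovZ.leaf K2_ok TD_l2848 _))
        (CovZ.n1 (24000, 24000) (by decide +kernel)
         (CovZ.leaf K2_ok TD_l2849 _)
         (CovZ.n1 (24000, 24192) (by decide +kernel)
          (CovZ.leaf K2_ok TD_l2850 _)
          (CovZ.leaf K2_ok TD_l2851 _)))))
      (CovZ.n1 (24192, 24576) (by decide +kernel)
       (CovZ.leaf K2_ok TD_l2852 _)
       (CovZ.n1 (24000, 24384) (by decide +kernel)
        (CovZ.leaf K2_ok TD_l2853 _)
        (CovZ.n1 (24192, 24384) (by decide +kernel)
         (CovZ.leaf K2_ok TD_l2854 _)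
         (CovZ.leaf K2_ok TD_l2855 _)))))
     (CovZ.n1 (23424, 24192) (by decide +kernel)
      (CovZ.n2 (23424, 24576) (by decide +kernel)
       (CovZ.subM 4271975090360293999256143862253210688563360241823657031282110081577733100642733277520932064198668 (by decide +kernel)
        (CovZ.n2 (23616, 24384) (by decide +kernel)
         (CovZ.leaf K2_ok TD_l2856 _)
         (CovZ.n1 (23616, 24576) (by decide +kernel)
          (CovZ.leaf K2_ok TD_l2857 _)
          (CovZ.n1 (23520, 24480) (by decide +kernel)
           (CovZ.leaf K2_ok TD_l2858 _)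
           (CovZ.leaf K2_ok TD_l2859 _)))))
       (CovZ.subM 4338724685232822439330988290624929085478996037738828712972990747526791786213938674103427977445388 (by decide +kernel)
        (CovZ.n1 (23232, 24384) (by decide +kernel)
         (CovZ.n2 (23232, 24576) (by decide +kernel)
          (CovZ.leaf K2_ok TD_l2860 _)
          (CovZ.n1 (23136, 24480) (by decide +kernel)
           (CovZ.leaf K2_ok TD_l2861 _)
           (CovZ.leaf K2_ok TD_l2862 _)))
         (CovZ.n1 (23424, 24384) (by decide +kernel)
          (CovZ.n2 (23328, 24288) (by decide +kernel)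
           (CovZ.leaf K2_ok TD_l2863 _)
           (CovZ.leaf K2_ok TD_l2864 _))
          (CovZ.leaf K2_ok TD_l2865 _)))))
      (CovZ.n1 (23808, 24192) (by decide +kernel)
       (CovZ.n2 (23616, 24000) (by decide +kernel)
        (CovZ.n2 (23616, 24192) (by decide +kernel)
         (CovZ.leaf K2_ok TD_l2866 _)
         (CovZ.n1 (23520, 24096) (by decide +kernel)
          (CovZ.leaf K2_ok TD_l2867 _)
          (CovZ.leaf K2_ok TD_l2868 _)))
        (CovZ.n1 (23808, 24000) (by decide +kernel)
         (CovZ.n2 (23712, 23904) (by decide +kernel)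
          (CovZ.leaf K2_ok TD_l2869 _)
          (CovZ.leaf K2_ok TD_l2870 _))
         (CovZ.leaf K2_ok TD_l2871 _)))
       (CovZ.subM 4271975090360293999256143862253210688563360241823657031282110081577733100642733277520932064198668 (by decide +kernel)
        (CovZ.n1 (23616, 24384) (by decide +kernel)
         (CovZ.n2 (23808, 24384) (by decide +kernel)
          (CovZ.leaf K2_ok TD_l2872 _)
          (CovZ.leaf K2_ok TD_l2873 _))
         (CovZ.n1 (23616, 24192) (by decide +kernel)
          (CovZ.leaf K2_ok TD_l2874 _)
          (CovZ.leaf K2_ok TD_l2875 _)))))))))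

theorem TD_s4_7 : SqZ TD_M TD_L [0, 7, 6, 1] 18432 12288 1536 4 7 :=
  SqZ.mk (a := 24576) (b := 26112) (c := 23040) (d := 24576) (by norm_num) (by norm_num) (by norm_num) (by norm_num)
    (CovZ.topM TD_LL 311365265526755237821189995624190612200094069929330330769962416662351283759935307565925039190874119103149 (by decide +kernel) (CovZ.n2 (25344, 23808) (by decide +kernel)
    (CovZ.n2 (26112, 23808) (by decide +kernel)
     (CovZ.n2 (25728, 23424) (by decide +kernel)
      (CovZ.n2 (25728, 23808) (by decide +kernel)
       (CovZ.leaf K2_ok TD_l5118 _)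
       (CovZ.n1 (25536, 23616) (by decide +kernel)
        (CovZ.leaf K2_ok TD_l5119 _)
        (CovZ.leaf K2_ok TD_l5120 _)))
      (CovZ.n1 (26112, 23424) (by decide +kernel)
       (CovZ.n2 (25920, 23232) (by decide +kernel)
        (CovZ.leaf K2_ok TD_l5121 _)
        (CovZ.leaf K2_ok TD_l5122 _))
       (CovZ.leaf K2_ok TD_l5123 _)))
     (CovZ.n1 (25728, 24192) (by decide +kernel)
      (CovZ.n2 (26112, 24192) (by decide +kernel)
       (CovZ.n2 (25920, 24000) (by decide +kernel)
        (CovZ.leaf K2_ok TD_l5124 _)
        (CovZ.leaf K2_ok TD_l5125 _))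
       (CovZ.leaf K2_ok TD_l5126 _))
      (CovZ.n1 (25728, 23808) (by decide +kernel)
       (CovZ.n2 (25536, 24000) (by decide +kernel)
        (CovZ.leaf K2_ok TD_l5127 _)
        (CovZ.leaf K2_ok TD_l5128 _))
       (CovZ.n1 (25920, 24000) (by decide +kernel)
        (CovZ.leaf K2_ok TD_l5129 _)
        (CovZ.leaf K2_ok TD_l5130 _)))))
    (CovZ.n1 (25344, 23040) (by decide +kernel)
     (CovZ.subM 273414685315754030436052708404311589360550974874204829231257662282284908126633957083567343771083308 (by decide +kernel)
      (CovZ.n2 (24960, 23424) (by decide +kernel)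
       (CovZ.n2 (25344, 23424) (by decide +kernel)
        (CovZ.n2 (25152, 23232) (by decide +kernel)
         (CovZ.leaf K2_ok TD_l5131 _)
         (CovZ.leaf K2_ok TD_l5132 _))
        (CovZ.n1 (25152, 23616) (by decide +kernel)
         (CovZ.leaf K2_ok TD_l5133 _)
         (CovZ.leaf K2_ok TD_l5134 _)))
       (CovZ.n1 (24960, 23040) (by decide +kernel)
        (CovZ.n2 (24768, 23232) (by decide +kernel)
         (CovZ.leaf K2_ok TD_l5135 _)
         (CovZ.leaf K2_ok TD_l5136 _))
        (CovZ.n1 (25152, 23232) (by decide +kernel)
         (CovZ.leaf K2_ok TD_l5137 _)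
         (CovZ.leaf K2_ok TD_l5138 _)))))
     (CovZ.n1 (25728, 23424) (by decide +kernel)
      (CovZ.n2 (25728, 23040) (by decide +kernel)
       (CovZ.n2 (25536, 23232) (by decide +kernel)
        (CovZ.leaf K2_ok TD_l5139 _)
        (CovZ.leaf K2_ok TD_l5140 _))
       (CovZ.n1 (25920, 23232) (by decide +kernel)
        (CovZ.leaf K2_ok TD_l5141 _)
        (CovZ.leaf K2_ok TD_l5142 _)))
      (CovZ.n1 (25344, 23424) (by decide +kernel)
       (CovZ.n2 (25536, 23616) (by decide +kernel)
        (CovZ.leaf K2_ok TD_l5143 _)
        (CovZ.leaf K2_ok TD_l5144 _))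
       (CovZ.leaf K2_ok TD_l5145 _))))))
    (CovZ.topM TD_LL 311365265526755237821189995624190612200094069929330330769962416662351283759935307565925039190874119103149 (by decide +kernel) (CovZ.n0 (25344, 23808) (by decide +kernel)
    (CovZ.subM 273414685315754030436052708404311589360550974874204829231257662282284908126633957083567343771083308 (by decide +kernel)
     (CovZ.n2 (24576, 23808) (by decide +kernel)
      (CovZ.n2 (24960, 24192) (by decide +kernel)
       (CovZ.n2 (24960, 23808) (by decide +kernel)
        (CovZ.n2 (24768, 24000) (by decide +kernel)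
         (CovZ.leaf K2_ok TD_l5146 _)
         (CovZ.leaf K2_ok TD_l5147 _))
        (CovZ.n1 (25152, 24000) (by decide +kernel)
         (CovZ.leaf K2_ok TD_l5148 _)
         (CovZ.leaf K2_ok TD_l5149 _)))
       (CovZ.n1 (24576, 24192) (by decide +kernel)
        (CovZ.n2 (24768, 24384) (by decide +kernel)
         (CovZ.leaf K2_ok TD_l5150 _)
         (CovZ.leaf K2_ok TD_l5151 _))
        (CovZ.leaf K2_ok TD_l5152 _)))
      (CovZ.n1 (24960, 23424) (by decide +kernel)
       (CovZ.n2 (24576, 23424) (by decide +kernel)
        (CovZ.n2 (24768, 23616) (by decide +kernel)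
         (CovZ.leaf K2_ok TD_l5153 _)
         (CovZ.leaf K2_ok TD_l5154 _))
        (CovZ.leaf K2_ok TD_l5155 _))
       (CovZ.n1 (24960, 23808) (by decide +kernel)
        (CovZ.leaf K2_ok TD_l5156 _)
        (CovZ.n1 (24768, 23616) (by decide +kernel)
         (CovZ.leaf K2_ok TD_l5157 _)
         (CovZ.leaf K2_ok TD_l5158 _))))))
    (CovZ.n1 (25344, 24576) (by decide +kernel)
     (CovZ.n2 (25728, 24192) (by decide +kernel)
      (CovZ.n2 (25344, 24192) (by decide +kernel)
       (CovZ.n2 (25536, 24384) (by decide +kernel)
        (CovZ.leaf K2_ok TD_l5159 _)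
        (CovZ.leaf K2_ok TD_l5160 _))
       (CovZ.leaf K2_ok TD_l5161 _))
      (CovZ.n1 (25728, 24576) (by decide +kernel)
       (CovZ.leaf K2_ok TD_l5162 _)
       (CovZ.n1 (25536, 24384) (by decide +kernel)
        (CovZ.leaf K2_ok TD_l5163 _)
        (CovZ.leaf K2_ok TD_l5164 _))))
     (CovZ.subM 273414685315754030436052708404311589360550974874204829231257662282284908126633957083567343636865580 (by decide +kernel)
      (CovZ.n1 (24960, 24192) (by decide +kernel)
       (CovZ.n2 (24960, 24576) (by decide +kernel)
        (CovZ.leaf K2_ok TD_l5165 _)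
        (CovZ.n1 (24768, 24384) (by decide +kernel)
         (CovZ.leaf K2_ok TD_l5166 _)
         (CovZ.leaf K2_ok TD_l5167 _)))
       (CovZ.n1 (25344, 24192) (by decide +kernel)
        (CovZ.n2 (25152, 24000) (by decide +kernel)
         (CovZ.leaf K2_ok TD_l5168 _)
         (CovZ.leaf K2_ok TD_l5169 _))
        (CovZ.n1 (25152, 24384) (by decide +kernel)
         (CovZ.leaf K2_ok TD_l5170 _)
         (CovZ.leaf K2_ok TD_l5171 _))))))))

theorem TD_s5_7 : SqZ TD_M TD_L [0, 7, 6, 1] 18432 12288 1536 5 7 :=
  SqZ.mk (a := 26112) (b := 27648) (c := 23040) (d := 24576) (by norm_num) (by norm_num) (by norm_num) (by norm_num)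
    (CovZ.topM TD_LL 5517170723562280975414811252245245713728685763951572815072168096904316225368895226767924336907534444195493 (by decide +kernel) (CovZ.n2 (26880, 23808) (by decide +kernel)
    (CovZ.subM 8749013916090047071743613298502899266623008288091917547471655208116395670398112260753087304598351493 (by decide +kernel)
     (CovZ.n2 (27648, 23808) (by decide +kernel)
      (CovZ.n2 (27264, 23424) (by decide +kernel)
       (CovZ.n2 (27264, 23808) (by decide +kernel)
        (CovZ.leaf K2_ok TD_l6861 _)
        (CovZ.n1 (27072, 23616) (by decide +kernel)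
         (CovZ.leaf K2_ok TD_l6862 _)
         (CovZ.leaf K2_ok TD_l6863 _)))
       (CovZ.n1 (27648, 23424) (by decide +kernel)
        (CovZ.leaf K2_ok TD_l6864 _)
        (CovZ.leaf K2_ok TD_l6865 _)))
      (CovZ.n1 (27264, 24192) (by decide +kernel)
       (CovZ.n2 (27648, 24192) (by decide +kernel)
        (CovZ.n2 (27456, 24000) (by decide +kernel)
         (CovZ.leaf K2_ok TD_l6866 _)
         (CovZ.leaf K2_ok TD_l6867 _))
        (CovZ.leaf K2_ok TD_l6868 _))
       (CovZ.n1 (27264, 23808) (by decide +kernel)
        (CovZ.leaf K2_ok TD_l6869 _)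
        (CovZ.n1 (27456, 24000) (by decide +kernel)
         (CovZ.leaf K2_ok TD_l6870 _)
         (CovZ.leaf K2_ok TD_l6871 _))))))
    (CovZ.n1 (26880, 23040) (by decide +kernel)
     (CovZ.n2 (26496, 23424) (by decide +kernel)
      (CovZ.n2 (26880, 23424) (by decide +kernel)
       (CovZ.leaf K2_ok TD_l6872 _)
       (CovZ.leaf K2_ok TD_l6873 _))
      (CovZ.n1 (26496, 23040) (by decide +kernel)
       (CovZ.leaf K2_ok TD_l6874 _)
       (CovZ.leaf K2_ok TD_l6875 _)))
     (CovZ.subM 8749013916090047071743613298502899266623008288091917547471655208116395670398112260753087304598351493 (by decide +kernel)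
      (CovZ.n1 (27264, 23424) (by decide +kernel)
       (CovZ.n2 (27264, 23040) (by decide +kernel)
        (CovZ.leaf K2_ok TD_l6876 _)
        (CovZ.leaf K2_ok TD_l6877 _))
       (CovZ.n1 (26880, 23424) (by decide +kernel)
        (CovZ.leaf K2_ok TD_l6878 _)
        (CovZ.leaf K2_ok TD_l6879 _)))))))
    (CovZ.topM TD_LL 5517161974559381843367113762236337243243224351273849242222422393821890585556898429264231442854826351980197 (by decide +kernel) (CovZ.n0 (26880, 23808) (by decide +kernel)
    (CovZ.n2 (26112, 23808) (by decide +kernel)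
     (CovZ.n2 (26496, 24192) (by decide +kernel)
      (CovZ.n2 (26496, 23808) (by decide +kernel)
       (CovZ.leaf K2_ok TD_l6880 _)
       (CovZ.n1 (26688, 24000) (by decide +kernel)
        (CovZ.leaf K2_ok TD_l6881 _)
        (CovZ.leaf K2_ok TD_l6882 _)))
      (CovZ.n1 (26112, 24192) (by decide +kernel)
       (CovZ.n2 (26304, 24384) (by decide +kernel)
        (CovZ.leaf K2_ok TD_l6883 _)
        (CovZ.leaf K2_ok TD_l6884 _))
       (CovZ.leaf K2_ok TD_l6885 _)))
     (CovZ.n1 (26496, 23424) (by decide +kernel)
      (CovZ.leaf K2_ok TD_l6886 _)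
      (CovZ.n1 (26496, 23808) (by decide +kernel)
       (CovZ.leaf K2_ok TD_l6887 _)
       (CovZ.n1 (26304, 23616) (by decide +kernel)
        (CovZ.leaf K2_ok TD_l6888 _)
        (CovZ.leaf K2_ok TD_l6889 _)))))
    (CovZ.n1 (26880, 24576) (by decide +kernel)
     (CovZ.subM 11016957999374253604390032413805210330564519067801768572782476583673600608567859034596506136197 (by decide +kernel)
      (CovZ.n2 (27264, 24192) (by decide +kernel)
       (CovZ.n2 (26880, 24192) (by decide +kernel)
        (CovZ.n2 (27072, 24384) (by decide +kernel)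
         (CovZ.leaf K2_ok TD_l6890 _)
         (CovZ.leaf K2_ok TD_l6891 _))
        (CovZ.leaf K2_ok TD_l6892 _))
       (CovZ.n1 (27264, 24576) (by decide +kernel)
        (CovZ.leaf K2_ok TD_l6893 _)
        (CovZ.n1 (27072, 24384) (by decide +kernel)
         (CovZ.leaf K2_ok TD_l6894 _)
         (CovZ.leaf K2_ok TD_l6895 _)))))
     (CovZ.n1 (26496, 24192) (by decide +kernel)
      (CovZ.n2 (26496, 24576) (by decide +kernel)
       (CovZ.leaf K2_ok TD_l6896 _)
       (CovZ.n1 (26304, 24384) (by decide +kernel)
        (CovZ.leaf K2_ok TD_l6897 _)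
        (CovZ.leaf K2_ok TD_l6898 _)))
      (CovZ.n1 (26880, 24192) (by decide +kernel)
       (CovZ.n2 (26688, 24000) (by decide +kernel)
        (CovZ.leaf K2_ok TD_l6899 _)
        (CovZ.leaf K2_ok TD_l6900 _))
       (CovZ.leaf K2_ok TD_l6901 _))))))

end Pool.Agent.TET
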