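import Pool.Agent.Helper38_TET.TD_M
import Pool.Agent.Helper38_TET.TD_L
import Pool.Agent.Helper38_TET.TD_34
import Pool.Agent.Helper38_TET.TD_35
import Pool.Agent.Helper38_TET.TD_36
import Pool.Agent.Helper38_TET.TD_46
import Pool.Agent.Helper38_TET.TD_47
import Pool.Agent.Helper38_TET.TD_102
import Pool.Agent.Helper38_TET.TD_103
import Pool.Agent.Helper38_TET.TD_108
import Pool.Agent.Helper38_TET.TD_109
import Pool.Agent.Helper38_TET.TD_110
import Pool.Agent.Helper38_TET.TD_111
import Pool.Agent.Helper38_TET.TD_121
import Pool.Agent.Helper38_TET.TD_123
import Pool.Agent.Helper38_TET.TD_127

/-!
# MP_c7c9bf_co: certificates, family TD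
-/

set_option autoImplicit false
set_option maxRecDepth 100000

namespace Pool.Agent.TET

theorem TD_u75 : CovZ TD_M (toL (selN TD_LN 311365265526755237821189995624190612200094069929330330769962416662351283759935307565925039190872911143437)) [0, 7, 6, 1] (25728, 25728) (25920, 25536) (26112, 25728) :=
    (CovZ.subM 293442659681541621717917331230517893877873981013658748354691181076852482178740903565756161123032252809217 (by decide +kernel)
         (CovZ.n2 (25920, 25728) (by decide +kernel)
          (CovZ.n2 (26016, 25632) (by decide +kernel)
           (CovZ.n2 (25920, 25632) (by decide +kernel)
            (CovZ.subM 8543948143683640329580086824678208458410818089426611079788166431370008541537168881787637352890368 (by decide +kernel)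
             (CovZ.n2 (25968, 25680) (by decide +kernel)
              (CovZ.n2 (25968, 25632) (by decide +kernel)
               (CovZ.n2 (25944, 25656) (by decide +kernel)
                (CovZ.n2 (25968, 25656) (by decide +kernel)
                 (CovZ.n2 (25956, 25644) (by decide +kernel)
                  (CovZ.badM (by decide +kernel))
                  (CovZ.n1 (25968, 25644) (by decide +kernel)
                   (CovZ.leaf K2_ok TD_l15266 _)
                   (CovZ.badM (by decide +kernel))))
                 (CovZ.badM (by decide +kernel)))
                (CovZ.n1 (25944, 25632) (by decide +kernel)
                 (CovZ.badM (by decide +kernel))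
                 (CovZ.n1 (25956, 25644) (by decide +kernel)
                  (CovZ.n2 (25956, 25632) (by decide +kernel)
                   (CovZ.leaf K2_ok TD_l15269 _)
                   (CovZ.leaf K2_ok TD_l15270 _))
                  (CovZ.badM (by decide +kernel)))))
               (CovZ.n1 (25992, 25656) (by decide +kernel)
                (CovZ.n2 (25992, 25632) (by decide +kernel)
                 (CovZ.n2 (25980, 25644) (by decide +kernel)
                  (CovZ.badM (by decide +kernel))
                  (CovZ.n1 (25980, 25632) (by decide +kernel)
                   (CovZ.leaf K2_ok TD_l15273 _)
                   (CovZ.n1 (25986, 25638) (by decide +kernel)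
                    (CovZ.leaf K2_ok TD_l15274 _)
                    (CovZ.n1 (25980, 25638) (by decide +kernel)
                     (CovZ.badM (by decide +kernel))
                     (CovZ.leaf K2_ok TD_l15275 _)))))
                 (CovZ.badM (by decide +kernel)))
                (CovZ.n1 (25968, 25656) (by decide +kernel)
                 (CovZ.badM (by decide +kernel))
                 (CovZ.n1 (25980, 25644) (by decide +kernel)
                  (CovZ.n2 (25968, 25644) (by decide +kernel)
                   (CovZ.badM (by decide +kernel))
                   (CovZ.leaf K2_ok TD_l15276 _))
                  (CovZ.badM (by decide +kernel))))))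
              (CovZ.badM (by decide +kernel))))
            (CovZ.n1 (25968, 25584) (by decide +kernel)
             (CovZ.subM 286688420899463409368660018040114396467534253669215522509127485337972055267186177027983456954859839815680 (by decide +kernel)
              (CovZ.n2 (25920, 25584) (by decide +kernel)
               (CovZ.n2 (25944, 25608) (by decide +kernel)
                (CovZ.n2 (25944, 25584) (by decide +kernel)
                 (CovZ.leaf K2_ok TD_l15277 _)
                 (CovZ.leaf K2_ok TD_l15278 _))
                (CovZ.n1 (25920, 25608) (by decide +kernel)
                 (CovZ.n2 (25932, 25620) (by decide +kernel)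
                  (CovZ.leaf K2_ok TD_l15279 _)
                  (CovZ.leaf K2_ok TD_l15280 _))
                 (CovZ.leaf K2_ok TD_l15281 _)))
               (CovZ.n1 (25944, 25560) (by decide +kernel)
                (CovZ.leaf K2_ok TD_l15282 _)
                (CovZ.leaf K2_ok TD_l15283 _))))
             (CovZ.subM 286723425455008081243090307655835103089273359457624770431399559349726982434941335521612921329853424205824 (by decide +kernel)
              (CovZ.n1 (25968, 25632) (by decide +kernel)
               (CovZ.n2 (25992, 25608) (by decide +kernel)
                (CovZ.n2 (25968, 25608) (by decide +kernel)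
                 (CovZ.n2 (25980, 25620) (by decide +kernel)
                  (CovZ.leaf K2_ok TD_l15284 _)
                  (CovZ.leaf K2_ok TD_l15285 _))
                 (CovZ.leaf K2_ok TD_l15286 _))
                (CovZ.n1 (25992, 25632) (by decide +kernel)
                 (CovZ.n2 (26004, 25620) (by decide +kernel)
                  (CovZ.leaf K2_ok TD_l15287 _)
                  (CovZ.leaf K2_ok TD_l15288 _))
                 (CovZ.n1 (25980, 25620) (by decide +kernel)
                  (CovZ.n2 (25980, 25632) (by decide +kernel)
                   (CovZ.leaf K2_ok TD_l15289 _)
                   (CovZ.leaf K2_ok TD_l15290 _))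
                  (CovZ.n1 (25992, 25620) (by decide +kernel)
                   (CovZ.leaf K2_ok TD_l15291 _)
                   (CovZ.leaf K2_ok TD_l15292 _)))))
               (CovZ.n1 (25944, 25608) (by decide +kernel)
                (CovZ.subM 1093900704470417307406111070266318966039238271614474829704734612424520276149188643602501414925893632 (by decide +kernel)
                 (CovZ.n2 (25944, 25632) (by decide +kernel)
                  (CovZ.n2 (25956, 25620) (by decide +kernel)
                   (CovZ.leaf K2_ok TD_l15293 _)
                   (CovZ.leaf K2_ok TD_l15294 _))
                  (CovZ.n1 (25932, 25620) (by decide +kernel)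
                   (CovZ.leaf K2_ok TD_l15295 _)
                   (CovZ.leaf K2_ok TD_l15296 _))))
                (CovZ.n1 (25968, 25608) (by decide +kernel)
                 (CovZ.leaf K2_ok TD_l15297 _)
                 (CovZ.n1 (25956, 25620) (by decide +kernel)
                  (CovZ.n2 (25968, 25620) (by decide +kernel)
                   (CovZ.leaf K2_ok TD_l15298 _)
                   (CovZ.leaf K2_ok TD_l15299 _))
                  (CovZ.leaf K2_ok TD_l15300 _))))))))
           (CovZ.subM 2239744742177804707880915832553844457072121117432787439883436493887338598261040037484670713290624598016 (by decide +kernel)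
            (CovZ.n1 (26016, 25728) (by decide +kernel)
             (CovZ.n2 (26064, 25680) (by decide +kernel)
              (CovZ.n2 (26016, 25680) (by decide +kernel)
               (CovZ.badM (by decide +kernel))
               (CovZ.n1 (26040, 25656) (by decide +kernel)
                (CovZ.badM (by decide +kernel))
                (CovZ.badM (by decide +kernel))))
              (CovZ.badM (by decide +kernel)))
             (CovZ.badM (by decide +kernel)))))
          (CovZ.subM 286687327274101017862697831789000837656851577084500075902909272452668850290686577340021845198271328288768 (by decide +kernel)
           (CovZ.n1 (25824, 25632) (by decide +kernel)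
            (CovZ.badM (by decide +kernel))
            (CovZ.n1 (25920, 25632) (by decide +kernel)
             (CovZ.n2 (25872, 25584) (by decide +kernel)
              (CovZ.n2 (25872, 25632) (by decide +kernel)
               (CovZ.n2 (25896, 25608) (by decide +kernel)
                (CovZ.n2 (25872, 25608) (by decide +kernel)
                 (CovZ.n2 (25884, 25620) (by decide +kernel)
                  (CovZ.leaf K2_ok TD_l15301 _)
                  (CovZ.badM (by decide +kernel)))
                 (CovZ.leaf K2_ok TD_l15302 _))
                (CovZ.subM 275342078911345219859956597080341814004535568912517695416901980224620946756238756024702577147904 (by decide +kernel)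
                 (CovZ.n1 (25896, 25632) (by decide +kernel)
                  (CovZ.n2 (25908, 25620) (by decide +kernel)
                   (CovZ.leaf K2_ok TD_l15303 _)
                   (CovZ.badM (by decide +kernel)))
                  (CovZ.n1 (25884, 25620) (by decide +kernel)
                   (CovZ.badM (by decide +kernel))
                   (CovZ.n1 (25896, 25620) (by decide +kernel)
                    (CovZ.leaf K2_ok TD_l15304 _)
                    (CovZ.badM (by decide +kernel)))))))
               (CovZ.subM 275342078849179815323207388393524901153440886861204221855236808091219341371206274916351173722112 (by decide +kernel)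
                (CovZ.n1 (25848, 25608) (by decide +kernel)
                 (CovZ.badM (by decide +kernel))
                 (CovZ.n1 (25872, 25608) (by decide +kernel)
                  (CovZ.n2 (25860, 25596) (by decide +kernel)
                   (CovZ.leaf K2_ok TD_l15305 _)
                   (CovZ.leaf K2_ok TD_l15306 _))
                  (CovZ.badM (by decide +kernel))))))
              (CovZ.n1 (25920, 25584) (by decide +kernel)
               (CovZ.n2 (25896, 25560) (by decide +kernel)
                (CovZ.leaf K2_ok TD_l15307 _)
                (CovZ.n1 (25920, 25560) (by decide +kernel)
                 (CovZ.leaf K2_ok TD_l15308 _)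
                 (CovZ.leaf K2_ok TD_l15309 _)))
               (CovZ.n1 (25896, 25608) (by decide +kernel)
                (CovZ.n2 (25920, 25608) (by decide +kernel)
                 (CovZ.leaf K2_ok TD_l15310 _)
                 (CovZ.n1 (25908, 25620) (by decide +kernel)
                  (CovZ.n2 (25920, 25620) (by decide +kernel)
                   (CovZ.leaf K2_ok TD_l15311 _)
                   (CovZ.badM (by decide +kernel)))
                  (CovZ.leaf K2_ok TD_l15312 _)))
                (CovZ.n1 (25896, 25584) (by decide +kernel)
                 (CovZ.leaf K2_ok TD_l15313 _)
                 (CovZ.n1 (25908, 25596) (by decide +kernel)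
                  (CovZ.leaf K2_ok TD_l15314 _)
                  (CovZ.leaf K2_ok TD_l15315 _))))))
             (CovZ.badM (by decide +kernel)))))))

theorem TD_u76 : CovZ TD_M (toL (selN TD_LN 311365265526755237821189995624190612200094069929330330769962416662351283759935307565925039190872911143437)) [0, 7, 6, 1] (25920, 25536) (26112, 25344) (26112, 25728) :=
    (CovZ.n1 (26112, 25536) (by decide +kernel)
         (CovZ.n2 (26016, 25440) (by decide +kernel)
          (CovZ.n2 (26016, 25536) (by decide +kernel)
           (CovZ.n2 (26064, 25488) (by decide +kernel)
            (CovZ.leaf K2_ok TD_l5201 _)
            (CovZ.n1 (26064, 25536) (by decide +kernel)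
             (CovZ.leaf K2_ok TD_l5202 _)
             (CovZ.leaf K2_ok TD_l5203 _)))
           (CovZ.subM 291202914939363689664690859555820513150985606023602538068373339712476840953695272790155672434029864550400 (by decide +kernel)
            (CovZ.n1 (25968, 25488) (by decide +kernel)
             (CovZ.n2 (25968, 25536) (by decide +kernel)
              (CovZ.leaf K2_ok TD_l5204 _)
              (CovZ.leaf K2_ok TD_l5205 _))
             (CovZ.n1 (26016, 25488) (by decide +kernel)
              (CovZ.leaf K2_ok TD_l5206 _)
              (CovZ.leaf K2_ok TD_l5207 _)))))
          (CovZ.n1 (26112, 25440) (by decide +kernel)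
           (CovZ.n2 (26064, 25392) (by decide +kernel)
            (CovZ.leaf K2_ok TD_l5208 _)
            (CovZ.leaf K2_ok TD_l5209 _))
           (CovZ.n1 (26064, 25488) (by decide +kernel)
            (CovZ.n2 (26112, 25488) (by decide +kernel)
             (CovZ.leaf K2_ok TD_l5210 _)
             (CovZ.leaf K2_ok TD_l5211 _))
            (CovZ.leaf K2_ok TD_l5212 _))))
         (CovZ.n1 (26016, 25632) (by decide +kernel)
          (CovZ.n2 (26112, 25632) (by decide +kernel)
           (CovZ.n2 (26064, 25584) (by decide +kernel)
            (CovZ.subM 293442659681541621717917331230517893877873981013658700464202674522355175968903953930789430395303977025536 (by decide +kernel)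
             (CovZ.n2 (26064, 25632) (by decide +kernel)
              (CovZ.n2 (26088, 25608) (by decide +kernel)
               (CovZ.n2 (26064, 25608) (by decide +kernel)
                (CovZ.n2 (26076, 25620) (by decide +kernel)
                 (CovZ.leaf K2_ok TD_l15316 _)
                 (CovZ.leaf K2_ok TD_l15317 _))
                (CovZ.leaf K2_ok TD_l15318 _))
               (CovZ.n1 (26088, 25632) (by decide +kernel)
                (CovZ.leaf K2_ok TD_l15319 _)
                (CovZ.n1 (26076, 25620) (by decide +kernel)
                 (CovZ.leaf K2_ok TD_l15320 _)
                 (CovZ.leaf K2_ok TD_l15321 _))))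
              (CovZ.n1 (26040, 25608) (by decide +kernel)
               (CovZ.subM 291202914939363690161528428612284622646234168482898848139552455878071256748649377820578198093880555995136 (by decide +kernel)
                (CovZ.n2 (26040, 25632) (by decide +kernel)
                 (CovZ.n2 (26052, 25620) (by decide +kernel)
                  (CovZ.leaf K2_ok TD_l15322 _)
                  (CovZ.leaf K2_ok TD_l15323 _))
                 (CovZ.n1 (26028, 25620) (by decide +kernel)
                  (CovZ.leaf K2_ok TD_l15324 _)
                  (CovZ.leaf K2_ok TD_l15325 _))))
               (CovZ.n1 (26064, 25608) (by decide +kernel)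
                (CovZ.n2 (26052, 25596) (by decide +kernel)
                 (CovZ.leaf K2_ok TD_l15326 _)
                 (CovZ.leaf K2_ok TD_l15327 _))
                (CovZ.n1 (26052, 25620) (by decide +kernel)
                 (CovZ.n2 (26064, 25620) (by decide +kernel)
                  (CovZ.leaf K2_ok TD_l15328 _)
                  (CovZ.leaf K2_ok TD_l15329 _))
                 (CovZ.leaf K2_ok TD_l15330 _))))))
            (CovZ.n1 (26112, 25584) (by decide +kernel)
             (CovZ.n2 (26088, 25560) (by decide +kernel)
              (CovZ.leaf K2_ok TD_l15331 _)
              (CovZ.n1 (26112, 25560) (by decide +kernel)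
               (CovZ.leaf K2_ok TD_l15332 _)
               (CovZ.leaf K2_ok TD_l15333 _)))
             (CovZ.subM 311360617618964055402862536813913969607893205891812761478751096893098530484298758635728760420691265716224 (by decide +kernel)
              (CovZ.n1 (26088, 25608) (by decide +kernel)
               (CovZ.n2 (26112, 25608) (by decide +kernel)
                (CovZ.leaf K2_ok TD_l15334 _)
                (CovZ.n1 (26100, 25620) (by decide +kernel)
                 (CovZ.leaf K2_ok TD_l15335 _)
                 (CovZ.leaf K2_ok TD_l15336 _)))
               (CovZ.leaf K2_ok TD_l15337 _)))))
           (CovZ.subM 293441557503887259761252132643272447220258766372771291742486935263533607655335919243879011299344359882752 (by decide +kernel)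
            (CovZ.n1 (26064, 25680) (by decide +kernel)
             (CovZ.n2 (26112, 25680) (by decide +kernel)
              (CovZ.n2 (26088, 25656) (by decide +kernel)
               (CovZ.badM (by decide +kernel))
               (CovZ.n1 (26112, 25656) (by decide +kernel)
                (CovZ.n2 (26100, 25644) (by decide +kernel)
                 (CovZ.subM 293406561225292351583025175896664958457503787611116389857889208976874506857905183660626294503967134056448 (by decide +kernel)
                  (CovZ.n2 (26100, 25656) (by decide +kernel)
                   (CovZ.leaf K2_ok TD_l15338 _)
                   (CovZ.n1 (26094, 25650) (by decide +kernel)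
                    (CovZ.leaf K2_ok TD_l18904 _)
                    (CovZ.n1 (26100, 25650) (by decide +kernel)
                     (CovZ.leaf K2_ok TD_l15339 _)
                     (CovZ.leaf K2_ok TD_l18905 _)))))
                 (CovZ.n1 (26112, 25644) (by decide +kernel)
                  (CovZ.leaf K2_ok TD_l15340 _)
                  (CovZ.leaf K2_ok TD_l15341 _)))
                (CovZ.subM 4479489484355608421114884561136888556243290994469299069799978201927583742360321890761754986543214231552 (by decide +kernel)
                 (CovZ.n1 (26100, 25668) (by decide +kernel)
                  (CovZ.n2 (26112, 25668) (by decide +kernel)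
                   (CovZ.n2 (26106, 25662) (by decide +kernel)
                    (CovZ.badM (by decide +kernel))
                    (CovZ.n1 (26112, 25662) (by decide +kernel)
                     (CovZ.leaf K2_ok TD_l18906 _)
                     (CovZ.badM (by decide +kernel))))
                   (CovZ.badM (by decide +kernel)))
                  (CovZ.n1 (26100, 25656) (by decide +kernel)
                   (CovZ.badM (by decide +kernel))
                   (CovZ.n1 (26106, 25662) (by decide +kernel)
                    (CovZ.n2 (26106, 25656) (by decide +kernel)
                     (CovZ.leaf K2_ok TD_l18907 _)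
                     (CovZ.leaf K2_ok TD_l18908 _))
                    (CovZ.badM (by decide +kernel))))))))
              (CovZ.badM (by decide +kernel)))
             (CovZ.n1 (26064, 25632) (by decide +kernel)
              (CovZ.subM 286687326998758939448675848324356761149285937346349281709840547260101408549556906084831711865642212655104 (by decide +kernel)
               (CovZ.n2 (26040, 25656) (by decide +kernel)
                (CovZ.n2 (26064, 25656) (by decide +kernel)
                 (CovZ.n2 (26052, 25644) (by decide +kernel)
                  (CovZ.subM 497323236409786642155382248146820840112148163895994940786093455554889761169780835876864 (by decide +kernel)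
                   (CovZ.n2 (26052, 25656) (by decide +kernel)
                    (CovZ.n2 (26058, 25650) (by decide +kernel)
                     (CovZ.leaf K2_ok TD_l15342 _)
                     (CovZ.badM (by decide +kernel)))
                    (CovZ.n1 (26046, 25650) (by decide +kernel)
                     (CovZ.badM (by decide +kernel))
                     (CovZ.n1 (26052, 25650) (by decide +kernel)
                      (CovZ.leaf K2_ok TD_l15343 _)
                      (CovZ.badM (by decide +kernel))))))
                  (CovZ.n1 (26064, 25644) (by decide +kernel)
                   (CovZ.leaf K2_ok TD_l15344 _)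
                   (CovZ.n1 (26058, 25650) (by decide +kernel)
                    (CovZ.n2 (26064, 25650) (by decide +kernel)
                     (CovZ.leaf K2_ok TD_l18108 _)
                     (CovZ.badM (by decide +kernel)))
                    (CovZ.leaf K2_ok TD_l15345 _))))
                 (CovZ.badM (by decide +kernel)))
                (CovZ.n1 (26040, 25632) (by decide +kernel)
                 (CovZ.n2 (26028, 25644) (by decide +kernel)
                  (CovZ.n2 (26040, 25644) (by decide +kernel)
                   (CovZ.leaf K2_ok TD_l15346 _)
                   (CovZ.badM (by decide +kernel)))
                  (CovZ.leaf K2_ok TD_l15347 _))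
                 (CovZ.n1 (26052, 25644) (by decide +kernel)
                  (CovZ.leaf K2_ok TD_l15348 _)
                  (CovZ.n1 (26040, 25644) (by decide +kernel)
                   (CovZ.n2 (26046, 25650) (by decide +kernel)
                    (CovZ.leaf K2_ok TD_l15349 _)
                    (CovZ.badM (by decide +kernel)))
                   (CovZ.leaf K2_ok TD_l15350 _))))))
              (CovZ.n1 (26088, 25656) (by decide +kernel)
               (CovZ.n2 (26088, 25632) (by decide +kernel)
                (CovZ.n2 (26076, 25644) (by decide +kernel)
                 (CovZ.n2 (26088, 25644) (by decide +kernel)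
                  (CovZ.leaf K2_ok TD_l15351 _)
                  (CovZ.n1 (26082, 25650) (by decide +kernel)
                   (CovZ.leaf K2_ok TD_l15352 _)
                   (CovZ.leaf K2_ok TD_l15353 _)))
                 (CovZ.leaf K2_ok TD_l15354 _))
                (CovZ.n1 (26100, 25644) (by decide +kernel)
                 (CovZ.leaf K2_ok TD_l15355 _)
                 (CovZ.n1 (26088, 25644) (by decide +kernel)
                  (CovZ.n2 (26094, 25650) (by decide +kernel)
                   (CovZ.leaf K2_ok TD_l15356 _)
                   (CovZ.leaf K2_ok TD_l15357 _))
                  (CovZ.leaf K2_ok TD_l15358 _))))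
               (CovZ.subM 288927071740936743659233527747123963450975810316961229037575819857993795652612219839344637565003322359808 (by decide +kernel)
                (CovZ.n1 (26064, 25656) (by decide +kernel)
                 (CovZ.badM (by decide +kernel))
                 (CovZ.n1 (26076, 25644) (by decide +kernel)
                  (CovZ.n2 (26064, 25644) (by decide +kernel)
                   (CovZ.n2 (26070, 25650) (by decide +kernel)
                    (CovZ.leaf K2_ok TD_l18109 _)
                    (CovZ.leaf K2_ok TD_l18110 _))
                   (CovZ.leaf K2_ok TD_l15359 _))
                  (CovZ.subM 288927071740936743659233527747123963450975810316961224536150776878812807564980525469541266600783838707712 (by decide +kernel)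
                   (CovZ.n1 (26076, 25656) (by decide +kernel)
                    (CovZ.leaf K2_ok TD_l18111 _)
                    (CovZ.n1 (26070, 25650) (by decide +kernel)
                     (CovZ.badM (by decide +kernel))
                     (CovZ.n1 (26076, 25650) (by decide +kernel)
                      (CovZ.leaf K2_ok TD_l18112 _)
                      (CovZ.badM (by decide +kernel))))))))))))))
          (CovZ.n1 (26016, 25536) (by decide +kernel)
           (CovZ.subM 291202914939363689664690859555820513150983960519045210874558976598585027717617976254607869343432720777216 (by decide +kernel)
            (CovZ.n2 (25968, 25584) (by decide +kernel)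
             (CovZ.n2 (26016, 25584) (by decide +kernel)
              (CovZ.n2 (25992, 25560) (by decide +kernel)
               (CovZ.leaf K2_ok TD_l15360 _)
               (CovZ.leaf K2_ok TD_l15361 _))
              (CovZ.n1 (25992, 25608) (by decide +kernel)
               (CovZ.n2 (26016, 25608) (by decide +kernel)
                (CovZ.leaf K2_ok TD_l15362 _)
                (CovZ.n1 (26004, 25620) (by decide +kernel)
                 (CovZ.leaf K2_ok TD_l15363 _)
                 (CovZ.leaf K2_ok TD_l15364 _)))
               (CovZ.n1 (25992, 25584) (by decide +kernel)
                (CovZ.leaf K2_ok TD_l15365 _)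
                (CovZ.n1 (26004, 25596) (by decide +kernel)
                 (CovZ.leaf K2_ok TD_l15366 _)
                 (CovZ.leaf K2_ok TD_l15367 _)))))
             (CovZ.n1 (25968, 25536) (by decide +kernel)
              (CovZ.n2 (25944, 25560) (by decide +kernel)
               (CovZ.leaf K2_ok TD_l15368 _)
               (CovZ.leaf K2_ok TD_l15369 _))
              (CovZ.n1 (25992, 25560) (by decide +kernel)
               (CovZ.leaf K2_ok TD_l5213 _)
               (CovZ.leaf K2_ok TD_l5214 _)))))
           (CovZ.n1 (26064, 25584) (by decide +kernel)
            (CovZ.n2 (26064, 25536) (by decide +kernel)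
             (CovZ.n2 (26040, 25560) (by decide +kernel)
              (CovZ.leaf K2_ok TD_l15370 _)
              (CovZ.leaf K2_ok TD_l15371 _))
             (CovZ.n1 (26088, 25560) (by decide +kernel)
              (CovZ.leaf K2_ok TD_l5215 _)
              (CovZ.leaf K2_ok TD_l15372 _)))
            (CovZ.subM 309120872876786123846473634210154709531339372643743248762484729929134891713725988074018462587061337587712 (by decide +kernel)
             (CovZ.n1 (26016, 25584) (by decide +kernel)
              (CovZ.n2 (26040, 25608) (by decide +kernel)
               (CovZ.leaf K2_ok TD_l15373 _)
               (CovZ.n1 (26016, 25608) (by decide +kernel)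
                (CovZ.n2 (26028, 25620) (by decide +kernel)
                 (CovZ.leaf K2_ok TD_l15374 _)
                 (CovZ.leaf K2_ok TD_l15375 _))
                (CovZ.leaf K2_ok TD_l15376 _)))
              (CovZ.leaf K2_ok TD_l15377 _)))))))

theorem TD_u77 : CovZ TD_M (toL (selN TD_LN 311365265526755237821189995624190612200094069929330330769962416662351283759935307565925039190872911143437)) [0, 7, 6, 1] (25344, 25344) (25728, 25344) (25728, 25728) :=
    (CovZ.subM 273681682676726156029226643440568056042775600926737220942379941694328981085369699813708316455100928 (by decide +kernel)
        (CovZ.n2 (25536, 25536) (by decide +kernel)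
         (CovZ.n2 (25728, 25536) (by decide +kernel)
          (CovZ.n2 (25632, 25440) (by decide +kernel)
           (CovZ.n2 (25632, 25536) (by decide +kernel)
            (CovZ.n2 (25680, 25488) (by decide +kernel)
             (CovZ.n2 (25632, 25488) (by decide +kernel)
              (CovZ.n2 (25656, 25512) (by decide +kernel)
               (CovZ.leaf K2_ok TD_l5216 _)
               (CovZ.leaf K2_ok TD_l5217 _))
              (CovZ.leaf K2_ok TD_l5218 _))
             (CovZ.n1 (25680, 25536) (by decide +kernel)
              (CovZ.leaf K2_ok TD_l5219 _)
              (CovZ.n1 (25656, 25512) (by decide +kernel)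
               (CovZ.leaf K2_ok TD_l5220 _)
               (CovZ.leaf K2_ok TD_l5221 _))))
            (CovZ.n1 (25584, 25488) (by decide +kernel)
             (CovZ.n2 (25584, 25536) (by decide +kernel)
              (CovZ.leaf K2_ok TD_l5222 _)
              (CovZ.n1 (25560, 25512) (by decide +kernel)
               (CovZ.leaf K2_ok TD_l5223 _)
               (CovZ.leaf K2_ok TD_l5224 _)))
             (CovZ.n1 (25632, 25488) (by decide +kernel)
              (CovZ.leaf K2_ok TD_l5225 _)
              (CovZ.leaf K2_ok TD_l5226 _))))
           (CovZ.n1 (25728, 25440) (by decide +kernel)
            (CovZ.n2 (25680, 25392) (by decide +kernel)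
             (CovZ.leaf K2_ok TD_l5227 _)
             (CovZ.leaf K2_ok TD_l5228 _))
            (CovZ.n1 (25680, 25488) (by decide +kernel)
             (CovZ.n2 (25728, 25488) (by decide +kernel)
              (CovZ.leaf K2_ok TD_l5229 _)
              (CovZ.leaf K2_ok TD_l5230 _))
             (CovZ.leaf K2_ok TD_l5231 _))))
          (CovZ.subM 275342078849179815323207277965583352504420347768220344992083583522917676744585752634550420242432 (by decide +kernel)
           (CovZ.n1 (25632, 25632) (by decide +kernel)
            (CovZ.n2 (25728, 25632) (by decide +kernel)
             (CovZ.n2 (25680, 25584) (by decide +kernel)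
              (CovZ.subM 14474011154664525231415395255581126253405429579358483308826287759107037331456 (by decide +kernel)
               (CovZ.n2 (25680, 25632) (by decide +kernel)
                (CovZ.n2 (25704, 25608) (by decide +kernel)
                 (CovZ.n2 (25680, 25608) (by decide +kernel)
                  (CovZ.badM (by decide +kernel))
                  (CovZ.leaf K2_ok TD_l15378 _))
                 (CovZ.badM (by decide +kernel)))
                (CovZ.n1 (25656, 25608) (by decide +kernel)
                 (CovZ.badM (by decide +kernel))
                 (CovZ.n1 (25680, 25608) (by decide +kernel)
                  (CovZ.n2 (25668, 25596) (by decide +kernel)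
                   (CovZ.leaf K2_ok TD_l15379 _)
                   (CovZ.leaf K2_ok TD_l15380 _))
                  (CovZ.badM (by decide +kernel))))))
              (CovZ.n1 (25728, 25584) (by decide +kernel)
               (CovZ.n2 (25704, 25560) (by decide +kernel)
                (CovZ.leaf K2_ok TD_l15381 _)
                (CovZ.n1 (25728, 25560) (by decide +kernel)
                 (CovZ.leaf K2_ok TD_l15382 _)
                 (CovZ.leaf K2_ok TD_l15383 _)))
               (CovZ.subM 266998379490113760313851724425858539556753460643698827285963417322171778325248469769956980948992 (by decide +kernel)
                (CovZ.n1 (25704, 25608) (by decide +kernel)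
                 (CovZ.n2 (25728, 25608) (by decide +kernel)
                  (CovZ.n2 (25716, 25596) (by decide +kernel)
                   (CovZ.leaf K2_ok TD_l15384 _)
                   (CovZ.leaf K2_ok TD_l15385 _))
                  (CovZ.badM (by decide +kernel)))
                 (CovZ.n1 (25704, 25584) (by decide +kernel)
                  (CovZ.n2 (25692, 25596) (by decide +kernel)
                   (CovZ.n2 (25704, 25596) (by decide +kernel)
                    (CovZ.leaf K2_ok TD_l15386 _)
                    (CovZ.leaf K2_ok TD_l15387 _))
                   (CovZ.leaf K2_ok TD_l15388 _))
                  (CovZ.n1 (25716, 25596) (by decide +kernel)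
                   (CovZ.leaf K2_ok TD_l15389 _)
                   (CovZ.leaf K2_ok TD_l15390 _)))))))
             (CovZ.badM (by decide +kernel)))
            (CovZ.n1 (25632, 25536) (by decide +kernel)
             (CovZ.subM 8343699359066055023829564694389337375613211705366266109122171290311039244622130559907216228352 (by decide +kernel)
              (CovZ.n2 (25584, 25584) (by decide +kernel)
               (CovZ.n2 (25632, 25584) (by decide +kernel)
                (CovZ.n2 (25608, 25560) (by decide +kernel)
                 (CovZ.n2 (25608, 25584) (by decide +kernel)
                  (CovZ.leaf K2_ok TD_l15391 _)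
                  (CovZ.leaf K2_ok TD_l15392 _))
                 (CovZ.n1 (25632, 25560) (by decide +kernel)
                  (CovZ.leaf K2_ok TD_l15393 _)
                  (CovZ.leaf K2_ok TD_l15394 _)))
                (CovZ.badM (by decide +kernel)))
               (CovZ.n1 (25584, 25536) (by decide +kernel)
                (CovZ.n2 (25560, 25560) (by decide +kernel)
                 (CovZ.n2 (25584, 25560) (by decide +kernel)
                  (CovZ.leaf K2_ok TD_l15395 _)
                  (CovZ.badM (by decide +kernel)))
                 (CovZ.leaf K2_ok TD_l15397 _))
                (CovZ.n1 (25608, 25560) (by decide +kernel)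
                 (CovZ.leaf K2_ok TD_l15398 _)
                 (CovZ.leaf K2_ok TD_l15399 _)))))
             (CovZ.n1 (25680, 25584) (by decide +kernel)
              (CovZ.n2 (25680, 25536) (by decide +kernel)
               (CovZ.n2 (25656, 25560) (by decide +kernel)
                (CovZ.n2 (25680, 25560) (by decide +kernel)
                 (CovZ.leaf K2_ok TD_l15400 _)
                 (CovZ.leaf K2_ok TD_l15401 _))
                (CovZ.leaf K2_ok TD_l15402 _))
               (CovZ.n1 (25704, 25560) (by decide +kernel)
                (CovZ.leaf K2_ok TD_l15403 _)
                (CovZ.leaf K2_ok TD_l15404 _)))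
              (CovZ.subM 8343699359066055023829564694389337375613211705366266109802736024152916171548879774770752651264 (by decide +kernel)
               (CovZ.n1 (25632, 25584) (by decide +kernel)
                (CovZ.subM 14474011154664524427946373126085988482339312817046947431858947215852677627904 (by decide +kernel)
                 (CovZ.n2 (25656, 25608) (by decide +kernel)
                  (CovZ.n2 (25656, 25584) (by decide +kernel)
                   (CovZ.n2 (25644, 25596) (by decide +kernel)
                    (CovZ.leaf K2_ok TD_l18113 _)
                    (CovZ.leaf K2_ok TD_l18114 _))
                   (CovZ.n1 (25668, 25596) (by decide +kernel)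
                    (CovZ.leaf K2_ok TD_l15405 _)
                    (CovZ.leaf K2_ok TD_l15406 _)))
                  (CovZ.badM (by decide +kernel))))
                (CovZ.n1 (25656, 25560) (by decide +kernel)
                 (CovZ.leaf K2_ok TD_l15407 _)
                 (CovZ.n1 (25656, 25584) (by decide +kernel)
                  (CovZ.leaf K2_ok TD_l15408 _)
                  (CovZ.leaf K2_ok TD_l15409 _))))))))))
         (CovZ.n1 (25536, 25344) (by decide +kernel)
          (CovZ.n2 (25440, 25440) (by decide +kernel)
           (CovZ.n2 (25536, 25440) (by decide +kernel)
            (CovZ.n2 (25488, 25392) (by decide +kernel)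
             (CovZ.leaf K2_ok TD_l5232 _)
             (CovZ.leaf K2_ok TD_l5233 _))
            (CovZ.subM 273414684297235556601586607954397061652026349448348418335028239686102968373447428922201679388082176 (by decide +kernel)
             (CovZ.n1 (25488, 25488) (by decide +kernel)
              (CovZ.n2 (25536, 25488) (by decide +kernel)
               (CovZ.leaf K2_ok TD_l5234 _)
               (CovZ.n1 (25512, 25512) (by decide +kernel)
                (CovZ.leaf K2_ok TD_l5235 _)
                (CovZ.leaf K2_ok TD_l5236 _)))
              (CovZ.n1 (25488, 25440) (by decide +kernel)
               (CovZ.leaf K2_ok TD_l5237 _)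
               (CovZ.leaf K2_ok TD_l5238 _)))))
           (CovZ.n1 (25440, 25344) (by decide +kernel)
            (CovZ.n2 (25392, 25392) (by decide +kernel)
             (CovZ.leaf K2_ok TD_l5239 _)
             (CovZ.leaf K2_ok TD_l5240 _))
            (CovZ.n1 (25488, 25392) (by decide +kernel)
             (CovZ.leaf K2_ok TD_l5241 _)
             (CovZ.leaf K2_ok TD_l5242 _))))
          (CovZ.n1 (25632, 25440) (by decide +kernel)
           (CovZ.n2 (25632, 25344) (by decide +kernel)
            (CovZ.n2 (25584, 25392) (by decide +kernel)
             (CovZ.leaf K2_ok TD_l5243 _)
             (CovZ.leaf K2_ok TD_l5244 _))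
            (CovZ.n1 (25680, 25392) (by decide +kernel)
             (CovZ.leaf K2_ok TD_l5245 _)
             (CovZ.leaf K2_ok TD_l5246 _)))
           (CovZ.n1 (25536, 25440) (by decide +kernel)
            (CovZ.n2 (25584, 25488) (by decide +kernel)
             (CovZ.leaf K2_ok TD_l5247 _)
             (CovZ.n1 (25536, 25488) (by decide +kernel)
              (CovZ.n2 (25560, 25512) (by decide +kernel)
               (CovZ.leaf K2_ok TD_l5248 _)
               (CovZ.leaf K2_ok TD_l5249 _))
              (CovZ.leaf K2_ok TD_l5250 _)))
            (CovZ.leaf K2_ok TD_l5251 _))))))

theorem TD_u78 : CovZ TD_M (toL (selN TD_LN 311365265526755237821189995624190612200094069929330330769962416662351283759935307565925039190872911143437)) [0, 7, 6, 1] (25728, 25344) (26112, 25344) (25728, 25728) :=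
    (CovZ.n1 (25920, 25536) (by decide +kernel)
        (CovZ.n2 (25920, 25344) (by decide +kernel)
         (CovZ.subM 286687600680441615739674045690627748864991201802187358231149121280319617505219713737412699262075241914880 (by decide +kernel)
          (CovZ.n2 (25824, 25440) (by decide +kernel)
           (CovZ.n2 (25920, 25440) (by decide +kernel)
            (CovZ.n2 (25872, 25392) (by decide +kernel)
             (CovZ.leaf K2_ok TD_l5252 _)
             (CovZ.leaf K2_ok TD_l5253 _))
            (CovZ.n1 (25872, 25488) (by decide +kernel)
             (CovZ.n2 (25920, 25488) (by decide +kernel)
              (CovZ.leaf K2_ok TD_l5254 _)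
              (CovZ.leaf K2_ok TD_l5255 _))
             (CovZ.leaf K2_ok TD_l5256 _)))
           (CovZ.n1 (25824, 25344) (by decide +kernel)
            (CovZ.leaf K2_ok TD_l5257 _)
            (CovZ.n1 (25872, 25392) (by decide +kernel)
             (CovZ.leaf K2_ok TD_l5258 _)
             (CovZ.leaf K2_ok TD_l5259 _)))))
         (CovZ.n1 (26016, 25440) (by decide +kernel)
          (CovZ.n2 (26016, 25344) (by decide +kernel)
           (CovZ.leaf K2_ok TD_l5260 _)
           (CovZ.n1 (26064, 25392) (by decide +kernel)
            (CovZ.leaf K2_ok TD_l5261 _)
            (CovZ.leaf K2_ok TD_l5262 _)))
          (CovZ.n1 (25920, 25440) (by decide +kernel)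
           (CovZ.n2 (25968, 25488) (by decide +kernel)
            (CovZ.leaf K2_ok TD_l5263 _)
            (CovZ.leaf K2_ok TD_l5264 _))
           (CovZ.leaf K2_ok TD_l5265 _))))
        (CovZ.subM 286687600680441615739674045690627748864991201802187358231149121280319617505219713737412699262075241914880 (by decide +kernel)
         (CovZ.n1 (25728, 25536) (by decide +kernel)
          (CovZ.subM 286687327274101017862697831789000837656851577084500075902909272452668850290686577340021845198271328288768 (by decide +kernel)
           (CovZ.n2 (25824, 25632) (by decide +kernel)
            (CovZ.n2 (25824, 25536) (by decide +kernel)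
             (CovZ.n2 (25776, 25584) (by decide +kernel)
              (CovZ.n2 (25824, 25584) (by decide +kernel)
               (CovZ.n2 (25800, 25560) (by decide +kernel)
                (CovZ.n2 (25800, 25584) (by decide +kernel)
                 (CovZ.leaf K2_ok TD_l15410 _)
                 (CovZ.leaf K2_ok TD_l15411 _))
                (CovZ.n1 (25824, 25560) (by decide +kernel)
                 (CovZ.leaf K2_ok TD_l15412 _)
                 (CovZ.leaf K2_ok TD_l15413 _)))
               (CovZ.subM 275342078849179815323207388393524901153440886861158549929155287865343662817791382604108611452928 (by decide +kernel)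
                (CovZ.n1 (25800, 25608) (by decide +kernel)
                 (CovZ.n2 (25824, 25608) (by decide +kernel)
                  (CovZ.n2 (25812, 25596) (by decide +kernel)
                   (CovZ.leaf K2_ok TD_l15414 _)
                   (CovZ.leaf K2_ok TD_l15415 _))
                  (CovZ.badM (by decide +kernel)))
                 (CovZ.n1 (25800, 25584) (by decide +kernel)
                  (CovZ.n2 (25788, 25596) (by decide +kernel)
                   (CovZ.leaf K2_ok TD_l15416 _)
                   (CovZ.leaf K2_ok TD_l15417 _))
                  (CovZ.n1 (25812, 25596) (by decide +kernel)
                   (CovZ.leaf K2_ok TD_l15418 _)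
                   (CovZ.leaf K2_ok TD_l15419 _))))))
              (CovZ.n1 (25776, 25536) (by decide +kernel)
               (CovZ.n2 (25752, 25560) (by decide +kernel)
                (CovZ.n2 (25776, 25560) (by decide +kernel)
                 (CovZ.leaf K2_ok TD_l15420 _)
                 (CovZ.leaf K2_ok TD_l15421 _))
                (CovZ.leaf K2_ok TD_l15422 _))
               (CovZ.n1 (25800, 25560) (by decide +kernel)
                (CovZ.leaf K2_ok TD_l15423 _)
                (CovZ.leaf K2_ok TD_l15424 _))))
             (CovZ.n1 (25872, 25584) (by decide +kernel)
              (CovZ.n2 (25872, 25536) (by decide +kernel)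
               (CovZ.n2 (25848, 25560) (by decide +kernel)
                (CovZ.n2 (25872, 25560) (by decide +kernel)
                 (CovZ.leaf K2_ok TD_l15425 _)
                 (CovZ.leaf K2_ok TD_l15426 _))
                (CovZ.leaf K2_ok TD_l15427 _))
               (CovZ.n1 (25896, 25560) (by decide +kernel)
                (CovZ.leaf K2_ok TD_l15428 _)
                (CovZ.leaf K2_ok TD_l15429 _)))
              (CovZ.n1 (25824, 25584) (by decide +kernel)
               (CovZ.subM 275342078849179815323207388393524901153440886861204221855321878682949575987072118568209115774976 (by decide +kernel)
                (CovZ.n2 (25848, 25608) (by decide +kernel)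
                 (CovZ.n2 (25848, 25584) (by decide +kernel)
                  (CovZ.leaf K2_ok TD_l15430 _)
                  (CovZ.n1 (25860, 25596) (by decide +kernel)
                   (CovZ.leaf K2_ok TD_l15431 _)
                   (CovZ.leaf K2_ok TD_l15432 _)))
                 (CovZ.n1 (25824, 25608) (by decide +kernel)
                  (CovZ.badM (by decide +kernel))
                  (CovZ.leaf K2_ok TD_l15433 _))))
               (CovZ.n1 (25848, 25560) (by decide +kernel)
                (CovZ.leaf K2_ok TD_l15434 _)
                (CovZ.n1 (25848, 25584) (by decide +kernel)
                 (CovZ.leaf K2_ok TD_l15435 _)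
                 (CovZ.leaf K2_ok TD_l15436 _))))))
            (CovZ.n1 (25728, 25632) (by decide +kernel)
             (CovZ.badM (by decide +kernel))
             (CovZ.n1 (25776, 25584) (by decide +kernel)
              (CovZ.n2 (25728, 25584) (by decide +kernel)
               (CovZ.subM 266998379490113760313851724425858539556753460643698827285963417322171778325248469769956980948992 (by decide +kernel)
                (CovZ.n2 (25752, 25608) (by decide +kernel)
                 (CovZ.n2 (25752, 25584) (by decide +kernel)
                  (CovZ.n2 (25740, 25596) (by decide +kernel)
                   (CovZ.leaf K2_ok TD_l15437 _)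
                   (CovZ.leaf K2_ok TD_l15438 _))
                  (CovZ.n1 (25764, 25596) (by decide +kernel)
                   (CovZ.leaf K2_ok TD_l15439 _)
                   (CovZ.leaf K2_ok TD_l15440 _)))
                 (CovZ.n1 (25728, 25608) (by decide +kernel)
                  (CovZ.badM (by decide +kernel))
                  (CovZ.leaf K2_ok TD_l15441 _))))
               (CovZ.n1 (25752, 25560) (by decide +kernel)
                (CovZ.leaf K2_ok TD_l15442 _)
                (CovZ.n1 (25752, 25584) (by decide +kernel)
                 (CovZ.leaf K2_ok TD_l15443 _)
                 (CovZ.leaf K2_ok TD_l15444 _))))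
              (CovZ.subM 266998379490113760313851834853800088205774071572414036733127362464501482663223849391743953797120 (by decide +kernel)
               (CovZ.n1 (25776, 25632) (by decide +kernel)
                (CovZ.n2 (25800, 25608) (by decide +kernel)
                 (CovZ.n2 (25776, 25608) (by decide +kernel)
                  (CovZ.badM (by decide +kernel))
                  (CovZ.n1 (25788, 25596) (by decide +kernel)
                   (CovZ.leaf K2_ok TD_l15445 _)
                   (CovZ.leaf K2_ok TD_l15446 _)))
                 (CovZ.badM (by decide +kernel)))
                (CovZ.n1 (25752, 25608) (by decide +kernel)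
                 (CovZ.badM (by decide +kernel))
                 (CovZ.n1 (25776, 25608) (by decide +kernel)
                  (CovZ.n2 (25764, 25596) (by decide +kernel)
                   (CovZ.leaf K2_ok TD_l15447 _)
                   (CovZ.leaf K2_ok TD_l15448 _))
                  (CovZ.badM (by decide +kernel))))))))))
          (CovZ.n1 (25824, 25440) (by decide +kernel)
           (CovZ.n2 (25728, 25440) (by decide +kernel)
            (CovZ.n2 (25776, 25488) (by decide +kernel)
             (CovZ.leaf K2_ok TD_l5266 _)
             (CovZ.n1 (25728, 25488) (by decide +kernel)
              (CovZ.n2 (25752, 25512) (by decide +kernel)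
               (CovZ.leaf K2_ok TD_l5267 _)
               (CovZ.leaf K2_ok TD_l5268 _))
              (CovZ.leaf K2_ok TD_l5269 _)))
            (CovZ.leaf K2_ok TD_l5270 _))
           (CovZ.n1 (25824, 25536) (by decide +kernel)
            (CovZ.n2 (25872, 25488) (by decide +kernel)
             (CovZ.leaf K2_ok TD_l5271 _)
             (CovZ.n1 (25872, 25536) (by decide +kernel)
              (CovZ.leaf K2_ok TD_l5272 _)
              (CovZ.n1 (25848, 25512) (by decide +kernel)
               (CovZ.leaf K2_ok TD_l5273 _)
               (CovZ.leaf K2_ok TD_l5274 _))))
            (CovZ.n1 (25776, 25488) (by decide +kernel)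
             (CovZ.n2 (25776, 25536) (by decide +kernel)
              (CovZ.leaf K2_ok TD_l5275 _)
              (CovZ.n1 (25752, 25512) (by decide +kernel)
               (CovZ.leaf K2_ok TD_l5276 _)
               (CovZ.leaf K2_ok TD_l5277 _)))
             (CovZ.n1 (25824, 25488) (by decide +kernel)
              (CovZ.leaf K2_ok TD_l5278 _)
              (CovZ.leaf K2_ok TD_l5279 _))))))))

theorem TD_u79 : CovZ TD_M (toL (selN TD_LN 273414685315754030436052708404311589360550974874204829231257662282284908126633957083567342563123724)) [0, 7, 6, 1] (24576, 26112) (24576, 25344) (25344, 25344) :=
    (CovZ.n2 (24960, 25728) (by decide +kernel)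
       (CovZ.n2 (24960, 25344) (by decide +kernel)
        (CovZ.subM 273406340597876490546562778389702670669146178939474327343131295253153086192750735065298929333592576 (by decide +kernel)
         (CovZ.n2 (24768, 25536) (by decide +kernel)
          (CovZ.n2 (24960, 25536) (by decide +kernel)
           (CovZ.n2 (24864, 25440) (by decide +kernel)
            (CovZ.subM 47890488506554412235618106715019100887638820287152128 (by decide +kernel)
             (CovZ.n2 (24864, 25536) (by decide +kernel)
              (CovZ.n2 (24912, 25488) (by decide +kernel)
               (CovZ.n2 (24864, 25488) (by decide +kernel)
                (CovZ.badM (by decide +kernel))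
                (CovZ.leaf K2_ok TD_l5306 _))
               (CovZ.badM (by decide +kernel)))
              (CovZ.n1 (24816, 25488) (by decide +kernel)
               (CovZ.badM (by decide +kernel))
               (CovZ.n1 (24864, 25488) (by decide +kernel)
                (CovZ.n2 (24840, 25464) (by decide +kernel)
                 (CovZ.badM (by decide +kernel))
                 (CovZ.leaf K2_ok TD_l5308 _))
                (CovZ.badM (by decide +kernel))))))
            (CovZ.n1 (24960, 25440) (by decide +kernel)
             (CovZ.n2 (24912, 25392) (by decide +kernel)
              (CovZ.leaf K2_ok TD_l5309 _)
              (CovZ.n1 (24960, 25392) (by decide +kernel)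
               (CovZ.leaf K2_ok TD_l5310 _)
               (CovZ.leaf K2_ok TD_l5311 _)))
             (CovZ.subM 71835731332583925647467279014242681881681621218754560 (by decide +kernel)
              (CovZ.n1 (24912, 25488) (by decide +kernel)
               (CovZ.n2 (24960, 25488) (by decide +kernel)
                (CovZ.n2 (24936, 25464) (by decide +kernel)
                 (CovZ.badM (by decide +kernel))
                 (CovZ.leaf K2_ok TD_l5313 _))
                (CovZ.badM (by decide +kernel)))
               (CovZ.n1 (24912, 25440) (by decide +kernel)
                (CovZ.leaf K2_ok TD_l5314 _)
                (CovZ.n1 (24936, 25464) (by decide +kernel)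
                 (CovZ.leaf K2_ok TD_l5315 _)
                 (CovZ.leaf K2_ok TD_l5316 _)))))))
           (CovZ.badM (by decide +kernel)))
          (CovZ.n1 (24768, 25344) (by decide +kernel)
           (CovZ.n2 (24672, 25440) (by decide +kernel)
            (CovZ.n2 (24768, 25440) (by decide +kernel)
             (CovZ.n2 (24720, 25392) (by decide +kernel)
              (CovZ.n2 (24720, 25440) (by decide +kernel)
               (CovZ.leaf K2_ok TD_l5317 _)
               (CovZ.leaf K2_ok TD_l5318 _))
              (CovZ.n1 (24768, 25392) (by decide +kernel)
               (CovZ.leaf K2_ok TD_l5319 _)
               (CovZ.leaf K2_ok TD_l5320 _)))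
             (CovZ.subM 2854495385411919762116571938898990272765493248 (by decide +kernel)
              (CovZ.n1 (24720, 25488) (by decide +kernel)
               (CovZ.n2 (24768, 25488) (by decide +kernel)
                (CovZ.n2 (24744, 25464) (by decide +kernel)
                 (CovZ.badM (by decide +kernel))
                 (CovZ.leaf K2_ok TD_l15449 _))
                (CovZ.badM (by decide +kernel)))
               (CovZ.n1 (24720, 25440) (by decide +kernel)
                (CovZ.badM (by decide +kernel))
                (CovZ.n1 (24744, 25464) (by decide +kernel)
                 (CovZ.leaf K2_ok TD_l15450 _)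
                 (CovZ.badM (by decide +kernel)))))))
            (CovZ.n1 (24672, 25344) (by decide +kernel)
             (CovZ.n2 (24624, 25392) (by decide +kernel)
              (CovZ.n2 (24672, 25392) (by decide +kernel)
               (CovZ.leaf K2_ok TD_l5321 _)
               (CovZ.leaf K2_ok TD_l5322 _))
              (CovZ.leaf K2_ok TD_l5323 _))
             (CovZ.n1 (24720, 25392) (by decide +kernel)
              (CovZ.leaf K2_ok TD_l5324 _)
              (CovZ.leaf K2_ok TD_l5325 _))))
           (CovZ.n1 (24864, 25440) (by decide +kernel)
            (CovZ.n2 (24864, 25344) (by decide +kernel)
             (CovZ.n2 (24816, 25392) (by decide +kernel)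
              (CovZ.n2 (24864, 25392) (by decide +kernel)
               (CovZ.leaf K2_ok TD_l5326 _)
               (CovZ.leaf K2_ok TD_l5327 _))
              (CovZ.leaf K2_ok TD_l5328 _))
             (CovZ.n1 (24912, 25392) (by decide +kernel)
              (CovZ.leaf K2_ok TD_l5329 _)
              (CovZ.leaf K2_ok TD_l5330 _)))
            (CovZ.n1 (24768, 25440) (by decide +kernel)
             (CovZ.subM 2854495385411919762116571938899553222718914560 (by decide +kernel)
              (CovZ.n2 (24816, 25488) (by decide +kernel)
               (CovZ.n2 (24816, 25440) (by decide +kernel)
                (CovZ.n2 (24792, 25464) (by decide +kernel)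
                 (CovZ.leaf K2_ok TD_l15451 _)
                 (CovZ.leaf K2_ok TD_l15452 _))
                (CovZ.n1 (24840, 25464) (by decide +kernel)
                 (CovZ.leaf K2_ok TD_l5331 _)
                 (CovZ.leaf K2_ok TD_l5332 _)))
               (CovZ.n1 (24768, 25488) (by decide +kernel)
                (CovZ.badM (by decide +kernel))
                (CovZ.leaf K2_ok TD_l15453 _))))
             (CovZ.n1 (24816, 25392) (by decide +kernel)
              (CovZ.leaf K2_ok TD_l5333 _)
              (CovZ.n1 (24816, 25440) (by decide +kernel)
               (CovZ.leaf K2_ok TD_l5334 _)
               (CovZ.leaf K2_ok TD_l5335 _))))))))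
        (CovZ.n1 (25152, 25536) (by decide +kernel)
         (CovZ.n2 (25152, 25344) (by decide +kernel)
          (CovZ.subM 273406340597876490546562778389702670669146178939474327343131295253153086192750735065440766333575680 (by decide +kernel)
           (CovZ.n2 (25056, 25440) (by decide +kernel)
            (CovZ.n2 (25152, 25440) (by decide +kernel)
             (CovZ.n2 (25104, 25392) (by decide +kernel)
              (CovZ.leaf K2_ok TD_l5336 _)
              (CovZ.leaf K2_ok TD_l5337 _))
             (CovZ.subM 273406340597876490546562778389702670669146178939473596592312629801673701940730725251113319942586368 (by decide +kernel)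
              (CovZ.n1 (25104, 25488) (by decide +kernel)
               (CovZ.n2 (25152, 25488) (by decide +kernel)
                (CovZ.n2 (25128, 25464) (by decide +kernel)
                 (CovZ.leaf K2_ok TD_l5338 _)
                 (CovZ.leaf K2_ok TD_l5339 _))
                (CovZ.n1 (25128, 25512) (by decide +kernel)
                 (CovZ.leaf K2_ok TD_l15454 _)
                 (CovZ.leaf K2_ok TD_l15455 _)))
               (CovZ.n1 (25104, 25440) (by decide +kernel)
                (CovZ.leaf K2_ok TD_l5340 _)
                (CovZ.leaf K2_ok TD_l5341 _)))))
            (CovZ.n1 (25056, 25344) (by decide +kernel)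
             (CovZ.n2 (25008, 25392) (by decide +kernel)
              (CovZ.leaf K2_ok TD_l5342 _)
              (CovZ.leaf K2_ok TD_l5343 _))
             (CovZ.n1 (25104, 25392) (by decide +kernel)
              (CovZ.leaf K2_ok TD_l5344 _)
              (CovZ.leaf K2_ok TD_l5345 _)))))
          (CovZ.n1 (25248, 25440) (by decide +kernel)
           (CovZ.n2 (25248, 25344) (by decide +kernel)
            (CovZ.n2 (25200, 25392) (by decide +kernel)
             (CovZ.leaf K2_ok TD_l5346 _)
             (CovZ.leaf K2_ok TD_l5347 _))
            (CovZ.n1 (25296, 25392) (by decide +kernel)
             (CovZ.leaf K2_ok TD_l5348 _)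
             (CovZ.leaf K2_ok TD_l5349 _)))
           (CovZ.subM 273406340597876490546562778389702670669146178939474327343131295253153086192750735065440731982225920 (by decide +kernel)
            (CovZ.n1 (25152, 25440) (by decide +kernel)
             (CovZ.n2 (25200, 25488) (by decide +kernel)
              (CovZ.n2 (25200, 25440) (by decide +kernel)
               (CovZ.leaf K2_ok TD_l5350 _)
               (CovZ.leaf K2_ok TD_l5351 _))
              (CovZ.n1 (25152, 25488) (by decide +kernel)
               (CovZ.n2 (25176, 25512) (by decide +kernel)
                (CovZ.leaf K2_ok TD_l15456 _)
                (CovZ.leaf K2_ok TD_l15457 _))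
               (CovZ.leaf K2_ok TD_l5352 _)))
             (CovZ.n1 (25200, 25392) (by decide +kernel)
              (CovZ.leaf K2_ok TD_l5353 _)
              (CovZ.leaf K2_ok TD_l5354 _))))))
         (CovZ.subM 273406340597876490546562778389702670669146178939474327343131295253153086192750735065298929333592576 (by decide +kernel)
          (CovZ.n1 (24960, 25536) (by decide +kernel)
           (CovZ.badM (by decide +kernel))
           (CovZ.n1 (25056, 25440) (by decide +kernel)
            (CovZ.n2 (24960, 25440) (by decide +kernel)
             (CovZ.subM 77822042039091304000429572089048577130192320914784256 (by decide +kernel)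
              (CovZ.n2 (25008, 25488) (by decide +kernel)
               (CovZ.n2 (25008, 25440) (by decide +kernel)
                (CovZ.leaf K2_ok TD_l5355 _)
                (CovZ.n1 (25032, 25464) (by decide +kernel)
                 (CovZ.leaf K2_ok TD_l5356 _)
                 (CovZ.leaf K2_ok TD_l5357 _)))
               (CovZ.n1 (24960, 25488) (by decide +kernel)
                (CovZ.badM (by decide +kernel))
                (CovZ.leaf K2_ok TD_l5359 _))))
             (CovZ.n1 (25008, 25392) (by decide +kernel)
              (CovZ.leaf K2_ok TD_l5360 _)
              (CovZ.leaf K2_ok TD_l5361 _)))
            (CovZ.subM 77822042039091304000429572089048577130192320914784256 (by decide +kernel)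
             (CovZ.n1 (25056, 25536) (by decide +kernel)
              (CovZ.n2 (25104, 25488) (by decide +kernel)
               (CovZ.n2 (25056, 25488) (by decide +kernel)
                (CovZ.n2 (25080, 25512) (by decide +kernel)
                 (CovZ.leaf K2_ok TD_l15458 _)
                 (CovZ.badM (by decide +kernel)))
                (CovZ.leaf K2_ok TD_l5362 _))
               (CovZ.subM 5986310706507378352962293074805895248510699696029696 (by decide +kernel)
                (CovZ.n1 (25104, 25536) (by decide +kernel)
                 (CovZ.n2 (25128, 25512) (by decide +kernel)
                  (CovZ.leaf K2_ok TD_l15459 _)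
                  (CovZ.badM (by decide +kernel)))
                 (CovZ.n1 (25080, 25512) (by decide +kernel)
                  (CovZ.badM (by decide +kernel))
                  (CovZ.n1 (25104, 25512) (by decide +kernel)
                   (CovZ.leaf K2_ok TD_l15460 _)
                   (CovZ.badM (by decide +kernel)))))))
              (CovZ.n1 (25008, 25488) (by decide +kernel)
               (CovZ.badM (by decide +kernel))
               (CovZ.n1 (25056, 25488) (by decide +kernel)
                (CovZ.n2 (25032, 25464) (by decide +kernel)
                 (CovZ.leaf K2_ok TD_l5363 _)
                 (CovZ.leaf K2_ok TD_l5364 _))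
                (CovZ.badM (by decide +kernel)))))))))))
       (CovZ.subM 71836462083402591098926380856659040601904035661898240 (by decide +kernel)
        (CovZ.n1 (24576, 25728) (by decide +kernel)
         (CovZ.badM (by decide +kernel))
         (CovZ.n1 (24768, 25536) (by decide +kernel)
          (CovZ.n2 (24576, 25536) (by decide +kernel)
           (CovZ.badM (by decide +kernel))
           (CovZ.n1 (24672, 25440) (by decide +kernel)
            (CovZ.n2 (24576, 25440) (by decide +kernel)
             (CovZ.badM (by decide +kernel))
             (CovZ.n1 (24624, 25392) (by decide +kernel)
              (CovZ.n2 (24576, 25392) (by decide +kernel)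
               (CovZ.leaf K2_ok TD_l5365 _)
               (CovZ.leaf K2_ok TD_l5366 _))
              (CovZ.n1 (24624, 25440) (by decide +kernel)
               (CovZ.leaf K2_ok TD_l5367 _)
               (CovZ.n1 (24600, 25416) (by decide +kernel)
                (CovZ.leaf K2_ok TD_l5368 _)
                (CovZ.leaf K2_ok TD_l5369 _)))))
            (CovZ.badM (by decide +kernel))))
          (CovZ.badM (by decide +kernel))))))

theorem TD_u80 : CovZ TD_M (toL (selN TD_LN 273414685315754030436052708404311589360550974874204829231257662282284908126633957083567342563123724)) [0, 7, 6, 1] (24576, 25344) (24576, 24576) (25344, 25344) :=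
    (CovZ.n1 (24960, 24960) (by decide +kernel)
       (CovZ.n2 (24576, 24960) (by decide +kernel)
        (CovZ.n2 (24768, 25152) (by decide +kernel)
         (CovZ.n2 (24768, 24960) (by decide +kernel)
          (CovZ.leaf K2_ok TD_l5370 _)
          (CovZ.n1 (24864, 25056) (by decide +kernel)
           (CovZ.leaf K2_ok TD_l5371 _)
           (CovZ.leaf K2_ok TD_l5372 _)))
         (CovZ.subM 883423532389192164797635806101262228777863570937669843018834994568126988 (by decide +kernel)
          (CovZ.n1 (24576, 25152) (by decide +kernel)
           (CovZ.n2 (24672, 25248) (by decide +kernel)
            (CovZ.leaf K2_ok TD_l5373 _)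
            (CovZ.n1 (24576, 25248) (by decide +kernel)
             (CovZ.n2 (24624, 25296) (by decide +kernel)
              (CovZ.leaf K2_ok TD_l5374 _)
              (CovZ.leaf K2_ok TD_l5375 _))
             (CovZ.leaf K2_ok TD_l5376 _)))
           (CovZ.leaf K2_ok TD_l5377 _))))
        (CovZ.n1 (24768, 24768) (by decide +kernel)
         (CovZ.leaf K2_ok TD_l5378 _)
         (CovZ.leaf K2_ok TD_l5379 _)))
       (CovZ.n1 (24960, 25344) (by decide +kernel)
        (CovZ.n2 (25152, 25152) (by decide +kernel)
         (CovZ.n2 (24960, 25152) (by decide +kernel)
          (CovZ.n2 (25056, 25248) (by decide +kernel)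
           (CovZ.leaf K2_ok TD_l5380 _)
           (CovZ.leaf K2_ok TD_l5381 _))
          (CovZ.leaf K2_ok TD_l5382 _))
         (CovZ.n1 (25152, 25344) (by decide +kernel)
          (CovZ.n2 (25248, 25248) (by decide +kernel)
           (CovZ.leaf K2_ok TD_l5383 _)
           (CovZ.n1 (25248, 25344) (by decide +kernel)
            (CovZ.leaf K2_ok TD_l5384 _)
            (CovZ.leaf K2_ok TD_l5385 _)))
          (CovZ.subM 273406340597876490546562779273126203058338343731123077714590553166976164268974820807941996742205956 (by decide +kernel)
           (CovZ.n1 (25056, 25248) (by decide +kernel)
            (CovZ.n2 (25056, 25344) (by decide +kernel)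
             (CovZ.leaf K2_ok TD_l5386 _)
             (CovZ.n1 (25008, 25296) (by decide +kernel)
              (CovZ.leaf K2_ok TD_l5387 _)
              (CovZ.leaf K2_ok TD_l5388 _)))
            (CovZ.n1 (25152, 25248) (by decide +kernel)
             (CovZ.leaf K2_ok TD_l5389 _)
             (CovZ.leaf K2_ok TD_l5390 _))))))
        (CovZ.n1 (24768, 25152) (by decide +kernel)
         (CovZ.subM 273406340597876490546562779273126203058338343731123077714590553166895034630560214126245108225434124 (by decide +kernel)
          (CovZ.n2 (24768, 25344) (by decide +kernel)
           (CovZ.n2 (24864, 25248) (by decide +kernel)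
            (CovZ.n2 (24768, 25248) (by decide +kernel)
             (CovZ.n2 (24816, 25296) (by decide +kernel)
              (CovZ.leaf K2_ok TD_l5391 _)
              (CovZ.leaf K2_ok TD_l5392 _))
             (CovZ.leaf K2_ok TD_l5393 _))
            (CovZ.n1 (24864, 25344) (by decide +kernel)
             (CovZ.leaf K2_ok TD_l5394 _)
             (CovZ.n1 (24816, 25296) (by decide +kernel)
              (CovZ.leaf K2_ok TD_l5395 _)
              (CovZ.leaf K2_ok TD_l5396 _))))
           (CovZ.n1 (24672, 25248) (by decide +kernel)
            (CovZ.n2 (24672, 25344) (by decide +kernel)
             (CovZ.leaf K2_ok TD_l5397 _)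
             (CovZ.n1 (24624, 25296) (by decide +kernel)
              (CovZ.leaf K2_ok TD_l5398 _)
              (CovZ.leaf K2_ok TD_l5399 _)))
            (CovZ.n1 (24768, 25248) (by decide +kernel)
             (CovZ.leaf K2_ok TD_l5400 _)
             (CovZ.leaf K2_ok TD_l5401 _)))))
         (CovZ.n1 (24960, 25152) (by decide +kernel)
          (CovZ.n2 (24864, 25056) (by decide +kernel)
           (CovZ.leaf K2_ok TD_l5402 _)
           (CovZ.leaf K2_ok TD_l5403 _))
          (CovZ.n1 (24864, 25248) (by decide +kernel)
           (CovZ.n2 (24960, 25248) (by decide +kernel)
            (CovZ.leaf K2_ok TD_l5404 _)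
            (CovZ.leaf K2_ok TD_l5405 _))
           (CovZ.leaf K2_ok TD_l5406 _))))))

theorem TD_u81 : CovZ TD_M (toL (selN TD_LN 10495349474194613004008345692487337274634429451885453189422589539114563053928537171057121952768)) [0, 7, 6, 1] (27648, 25728) (27456, 25728) (27456, 25536) :=
    (CovZ.n2 (27552, 25632) (by decide +kernel)
            (CovZ.n2 (27456, 25632) (by decide +kernel)
             (CovZ.subM 2086453991691950902916219703681744828764968068658047668693225279646669360245557301465019580416 (by decide +kernel)
              (CovZ.n2 (27504, 25680) (by decide +kernel)
               (CovZ.n2 (27504, 25632) (by decide +kernel)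
                (CovZ.n2 (27480, 25656) (by decide +kernel)
                 (CovZ.n2 (27504, 25656) (by decide +kernel)
                  (CovZ.leaf K2_ok TD_l16228 _)
                  (CovZ.n1 (27492, 25668) (by decide +kernel)
                   (CovZ.leaf K2_ok TD_l16229 _)
                   (CovZ.leaf K2_ok TD_l16230 _)))
                 (CovZ.n1 (27480, 25632) (by decide +kernel)
                  (CovZ.leaf K2_ok TD_l16231 _)
                  (CovZ.leaf K2_ok TD_l16232 _)))
                (CovZ.n1 (27528, 25656) (by decide +kernel)
                 (CovZ.leaf K2_ok TD_l16233 _)
                 (CovZ.n1 (27504, 25656) (by decide +kernel)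
                  (CovZ.n2 (27516, 25668) (by decide +kernel)
                   (CovZ.leaf K2_ok TD_l16234 _)
                   (CovZ.leaf K2_ok TD_l16235 _))
                  (CovZ.leaf K2_ok TD_l16236 _))))
               (CovZ.n1 (27456, 25680) (by decide +kernel)
                (CovZ.n2 (27480, 25704) (by decide +kernel)
                 (CovZ.n2 (27480, 25680) (by decide +kernel)
                  (CovZ.subM 2086450013106059624623082460623759647869806929003153249320691707317652441215997996140830130176 (by decide +kernel)
                   (CovZ.n2 (27468, 25692) (by decide +kernel)
                    (CovZ.n2 (27480, 25692) (by decide +kernel)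
                     (CovZ.leaf K2_ok TD_l16237 _)
                     (CovZ.n1 (27474, 25698) (by decide +kernel)
                      (CovZ.leaf K2_ok TD_l16238 _)
                      (CovZ.leaf K2_ok TD_l16239 _)))
                    (CovZ.leaf K2_ok TD_l16240 _)))
                  (CovZ.n1 (27492, 25692) (by decide +kernel)
                   (CovZ.leaf K2_ok TD_l16241 _)
                   (CovZ.leaf K2_ok TD_l16242 _)))
                 (CovZ.subM 2086450013104162487033004468585246279723849716809160719841024950098485627386502022376361820160 (by decide +kernel)
                  (CovZ.n1 (27456, 25704) (by decide +kernel)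
                   (CovZ.badM (by decide +kernel))
                   (CovZ.n1 (27468, 25692) (by decide +kernel)
                    (CovZ.leaf K2_ok TD_l16248 _)
                    (CovZ.n1 (27468, 25704) (by decide +kernel)
                     (CovZ.leaf K2_ok TD_l16249 _)
                     (CovZ.leaf K2_ok TD_l16250 _))))))
                (CovZ.n1 (27480, 25656) (by decide +kernel)
                 (CovZ.n2 (27456, 25656) (by decide +kernel)
                  (CovZ.n2 (27468, 25668) (by decide +kernel)
                   (CovZ.leaf K2_ok TD_l16251 _)
                   (CovZ.leaf K2_ok TD_l16252 _))
                  (CovZ.leaf K2_ok TD_l16253 _))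
                 (CovZ.n1 (27480, 25680) (by decide +kernel)
                  (CovZ.leaf K2_ok TD_l16254 _)
                  (CovZ.n1 (27468, 25668) (by decide +kernel)
                   (CovZ.leaf K2_ok TD_l16255 _)
                   (CovZ.leaf K2_ok TD_l16256 _)))))))
             (CovZ.n1 (27504, 25584) (by decide +kernel)
              (CovZ.n2 (27456, 25584) (by decide +kernel)
               (CovZ.n2 (27480, 25608) (by decide +kernel)
                (CovZ.leaf K2_ok TD_l6924 _)
                (CovZ.leaf K2_ok TD_l6925 _))
               (CovZ.leaf K2_ok TD_l6926 _))
              (CovZ.subM 10430154345404478746319068708835681342054668511580991165560135983426389713191374794014391795712 (by decide +kernel)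
               (CovZ.n1 (27504, 25632) (by decide +kernel)
                (CovZ.n2 (27528, 25608) (by decide +kernel)
                 (CovZ.leaf K2_ok TD_l6927 _)
                 (CovZ.leaf K2_ok TD_l6928 _))
                (CovZ.n1 (27480, 25608) (by decide +kernel)
                 (CovZ.leaf K2_ok TD_l16257 _)
                 (CovZ.leaf K2_ok TD_l6929 _))))))
            (CovZ.subM 2086461948863733459502494189797715177898792799864512861556001576669541276719566403963245821952 (by decide +kernel)
             (CovZ.n1 (27552, 25728) (by decide +kernel)
              (CovZ.n2 (27600, 25680) (by decide +kernel)
               (CovZ.subM 2086450013104162487033018272077939860903146310825109022862853292478537818979648599858786336768 (by decide +kernel)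
                (CovZ.n2 (27552, 25680) (by decide +kernel)
                 (CovZ.n2 (27576, 25704) (by decide +kernel)
                  (CovZ.n2 (27576, 25680) (by decide +kernel)
                   (CovZ.n2 (27564, 25692) (by decide +kernel)
                    (CovZ.n2 (27576, 25692) (by decide +kernel)
                     (CovZ.leaf K2_ok TD_l16258 _)
                     (CovZ.badM (by decide +kernel)))
                    (CovZ.leaf K2_ok TD_l16259 _))
                   (CovZ.subM 509258994083621521567111422102344590452096061774344173894900251511221088454540428058820608 (by decide +kernel)
                    (CovZ.n1 (27588, 25692) (by decide +kernel)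
                     (CovZ.leaf K2_ok TD_l16260 _)
                     (CovZ.n1 (27576, 25692) (by decide +kernel)
                      (CovZ.n2 (27582, 25698) (by decide +kernel)
                       (CovZ.leaf K2_ok TD_l16261 _)
                       (CovZ.badM (by decide +kernel)))
                      (CovZ.leaf K2_ok TD_l16262 _)))))
                  (CovZ.subM 2086434098760597373860469299845999162585307619494492703194150930982744541647517315917884162048 (by decide +kernel)
                   (CovZ.n1 (27552, 25704) (by decide +kernel)
                    (CovZ.badM (by decide +kernel))
                    (CovZ.n1 (27564, 25692) (by decide +kernel)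
                     (CovZ.n2 (27552, 25692) (by decide +kernel)
                      (CovZ.badM (by decide +kernel))
                      (CovZ.leaf K2_ok TD_l16263 _))
                     (CovZ.badM (by decide +kernel))))))
                 (CovZ.n1 (27576, 25656) (by decide +kernel)
                  (CovZ.n2 (27552, 25656) (by decide +kernel)
                   (CovZ.n2 (27564, 25668) (by decide +kernel)
                    (CovZ.leaf K2_ok TD_l16264 _)
                    (CovZ.leaf K2_ok TD_l16265 _))
                   (CovZ.leaf K2_ok TD_l16266 _))
                  (CovZ.n1 (27576, 25680) (by decide +kernel)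
                   (CovZ.leaf K2_ok TD_l16267 _)
                   (CovZ.n1 (27564, 25668) (by decide +kernel)
                    (CovZ.leaf K2_ok TD_l16268 _)
                    (CovZ.leaf K2_ok TD_l16269 _))))))
               (CovZ.subM 7957171782556586274486115970349183630836261770617674797989312539473557522394726789021696 (by decide +kernel)
                (CovZ.n1 (27600, 25728) (by decide +kernel)
                 (CovZ.n2 (27624, 25704) (by decide +kernel)
                  (CovZ.n2 (27600, 25704) (by decide +kernel)
                   (CovZ.n2 (27612, 25716) (by decide +kernel)
                    (CovZ.n2 (27612, 25704) (by decide +kernel)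
                     (CovZ.n2 (27606, 25710) (by decide +kernel)
                      (CovZ.n2 (27612, 25710) (by decide +kernel)
                       (CovZ.leaf K2_ok TD_l16270 _)
                       (CovZ.badM (by decide +kernel)))
                      (CovZ.leaf K2_ok TD_l16271 _))
                     (CovZ.n1 (27618, 25710) (by decide +kernel)
                      (CovZ.leaf K2_ok TD_l16272 _)
                      (CovZ.leaf K2_ok TD_l16273 _)))
                    (CovZ.n1 (27600, 25716) (by decide +kernel)
                     (CovZ.badM (by decide +kernel))
                     (CovZ.n1 (27606, 25710) (by decide +kernel)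
                      (CovZ.n2 (27600, 25710) (by decide +kernel)
                       (CovZ.badM (by decide +kernel))
                       (CovZ.leaf K2_ok TD_l16274 _))
                      (CovZ.badM (by decide +kernel)))))
                   (CovZ.n1 (27612, 25692) (by decide +kernel)
                    (CovZ.leaf K2_ok TD_l16275 _)
                    (CovZ.n1 (27612, 25704) (by decide +kernel)
                     (CovZ.leaf K2_ok TD_l16276 _)
                     (CovZ.leaf K2_ok TD_l16277 _))))
                  (CovZ.n1 (27624, 25728) (by decide +kernel)
                   (CovZ.n2 (27636, 25716) (by decide +kernel)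
                    (CovZ.n2 (27624, 25716) (by decide +kernel)
                     (CovZ.badM (by decide +kernel))
                     (CovZ.n1 (27630, 25710) (by decide +kernel)
                      (CovZ.leaf K2_ok TD_l16278 _)
                      (CovZ.badM (by decide +kernel))))
                    (CovZ.badM (by decide +kernel)))
                   (CovZ.n1 (27612, 25716) (by decide +kernel)
                    (CovZ.badM (by decide +kernel))
                    (CovZ.n1 (27624, 25716) (by decide +kernel)
                     (CovZ.n2 (27618, 25710) (by decide +kernel)
                      (CovZ.badM (by decide +kernel))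
                      (CovZ.leaf K2_ok TD_l16279 _))
                     (CovZ.badM (by decide +kernel))))))
                 (CovZ.n1 (27576, 25704) (by decide +kernel)
                  (CovZ.n2 (27576, 25728) (by decide +kernel)
                   (CovZ.n2 (27588, 25716) (by decide +kernel)
                    (CovZ.n2 (27576, 25716) (by decide +kernel)
                     (CovZ.badM (by decide +kernel))
                     (CovZ.n1 (27582, 25710) (by decide +kernel)
                      (CovZ.badM (by decide +kernel))
                      (CovZ.badM (by decide +kernel))))
                    (CovZ.badM (by decide +kernel)))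
                   (CovZ.badM (by decide +kernel)))
                  (CovZ.n1 (27600, 25704) (by decide +kernel)
                   (CovZ.n2 (27588, 25692) (by decide +kernel)
                    (CovZ.n2 (27588, 25704) (by decide +kernel)
                     (CovZ.leaf K2_ok TD_l16280 _)
                     (CovZ.n1 (27582, 25698) (by decide +kernel)
                      (CovZ.leaf K2_ok TD_l16281 _)
                      (CovZ.leaf K2_ok TD_l16282 _)))
                    (CovZ.n1 (27600, 25692) (by decide +kernel)
                     (CovZ.leaf K2_ok TD_l16283 _)
                     (CovZ.n1 (27594, 25698) (by decide +kernel)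
                      (CovZ.leaf K2_ok TD_l16284 _)
                      (CovZ.leaf K2_ok TD_l16285 _))))
                   (CovZ.n1 (27588, 25716) (by decide +kernel)
                    (CovZ.n2 (27600, 25716) (by decide +kernel)
                     (CovZ.n2 (27594, 25710) (by decide +kernel)
                      (CovZ.badM (by decide +kernel))
                      (CovZ.n1 (27600, 25710) (by decide +kernel)
                       (CovZ.leaf K2_ok TD_l16286 _)
                       (CovZ.badM (by decide +kernel))))
                     (CovZ.badM (by decide +kernel)))
                    (CovZ.n1 (27588, 25704) (by decide +kernel)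
                     (CovZ.n2 (27582, 25710) (by decide +kernel)
                      (CovZ.leaf K2_ok TD_l16287 _)
                      (CovZ.leaf K2_ok TD_l16288 _))
                     (CovZ.n1 (27594, 25710) (by decide +kernel)
                      (CovZ.leaf K2_ok TD_l16289 _)
                      (CovZ.leaf K2_ok TD_l16290 _)))))))))
              (CovZ.n1 (27504, 25680) (by decide +kernel)
               (CovZ.subM 2086453991691950902916219703681744828714395715809473336367399827750709157186138910432960708608 (by decide +kernel)
                (CovZ.n2 (27504, 25728) (by decide +kernel)
                 (CovZ.n2 (27528, 25704) (by decide +kernel)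
                  (CovZ.n2 (27504, 25704) (by decide +kernel)
                   (CovZ.badM (by decide +kernel))
                   (CovZ.n1 (27516, 25692) (by decide +kernel)
                    (CovZ.leaf K2_ok TD_l16291 _)
                    (CovZ.n1 (27516, 25704) (by decide +kernel)
                     (CovZ.leaf K2_ok TD_l16292 _)
                     (CovZ.n1 (27510, 25698) (by decide +kernel)
                      (CovZ.badM (by decide +kernel))
                      (CovZ.leaf K2_ok TD_l16293 _)))))
                  (CovZ.badM (by decide +kernel)))
                 (CovZ.n1 (27480, 25704) (by decide +kernel)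
                  (CovZ.badM (by decide +kernel))
                  (CovZ.n1 (27504, 25704) (by decide +kernel)
                   (CovZ.n2 (27492, 25692) (by decide +kernel)
                    (CovZ.n2 (27492, 25704) (by decide +kernel)
                     (CovZ.leaf K2_ok TD_l16294 _)
                     (CovZ.leaf K2_ok TD_l16295 _))
                    (CovZ.n1 (27504, 25692) (by decide +kernel)
                     (CovZ.leaf K2_ok TD_l16296 _)
                     (CovZ.leaf K2_ok TD_l16297 _)))
                   (CovZ.n1 (27492, 25716) (by decide +kernel)
                    (CovZ.badM (by decide +kernel))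
                    (CovZ.n1 (27492, 25704) (by decide +kernel)
                     (CovZ.badM (by decide +kernel))
                     (CovZ.badM (by decide +kernel))))))))
               (CovZ.subM 2086453991690053765326155515135925035469483990589098929428674001437780471086816208284964356096 (by decide +kernel)
                (CovZ.n1 (27552, 25680) (by decide +kernel)
                 (CovZ.n2 (27528, 25656) (by decide +kernel)
                  (CovZ.n2 (27528, 25680) (by decide +kernel)
                   (CovZ.leaf K2_ok TD_l16298 _)
                   (CovZ.n1 (27516, 25668) (by decide +kernel)
                    (CovZ.leaf K2_ok TD_l16299 _)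
                    (CovZ.leaf K2_ok TD_l16300 _)))
                  (CovZ.n1 (27552, 25656) (by decide +kernel)
                   (CovZ.leaf K2_ok TD_l16301 _)
                   (CovZ.n1 (27540, 25668) (by decide +kernel)
                    (CovZ.leaf K2_ok TD_l16302 _)
                    (CovZ.leaf K2_ok TD_l16303 _))))
                 (CovZ.n1 (27528, 25704) (by decide +kernel)
                  (CovZ.subM 2086434098760597373860469299845999162585307619494492703194150930982744541647517315917884162048 (by decide +kernel)
                   (CovZ.n2 (27552, 25704) (by decide +kernel)
                    (CovZ.n2 (27540, 25692) (by decide +kernel)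
                     (CovZ.badM (by decide +kernel))
                     (CovZ.n1 (27552, 25692) (by decide +kernel)
                      (CovZ.leaf K2_ok TD_l16304 _)
                      (CovZ.badM (by decide +kernel))))
                    (CovZ.badM (by decide +kernel))))
                  (CovZ.n1 (27528, 25680) (by decide +kernel)
                   (CovZ.n2 (27516, 25692) (by decide +kernel)
                    (CovZ.n2 (27528, 25692) (by decide +kernel)
                     (CovZ.leaf K2_ok TD_l16305 _)
                     (CovZ.n1 (27522, 25698) (by decide +kernel)
                      (CovZ.badM (by decide +kernel))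
                      (CovZ.leaf K2_ok TD_l16306 _)))
                    (CovZ.leaf K2_ok TD_l16307 _))
                   (CovZ.n1 (27540, 25692) (by decide +kernel)
                    (CovZ.leaf K2_ok TD_l16308 _)
                    (CovZ.leaf K2_ok TD_l16309 _))))))))))

theorem TD_u82 : CovZ TD_M (toL (selN TD_LN 10495349474194613004008345692487337274634429451885453189422589539114563053928537171057121952768)) [0, 7, 6, 1] (27456, 25728) (27264, 25728) (27456, 25536) :=
    (CovZ.n1 (27360, 25632) (by decide +kernel)
            (CovZ.subM 525173337648966278294562498983406510037496234245429050643372640369771437314668655976382464 (by decide +kernel)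
             (CovZ.n2 (27360, 25728) (by decide +kernel)
              (CovZ.subM 525173337648734694116083654043042856185939002950442657084234828409070304644887154438176768 (by decide +kernel)
               (CovZ.n2 (27408, 25680) (by decide +kernel)
                (CovZ.badM (by decide +kernel))
                (CovZ.n1 (27408, 25728) (by decide +kernel)
                 (CovZ.n2 (27432, 25704) (by decide +kernel)
                  (CovZ.n2 (27408, 25704) (by decide +kernel)
                   (CovZ.n2 (27420, 25716) (by decide +kernel)
                    (CovZ.n2 (27420, 25704) (by decide +kernel)
                     (CovZ.badM (by decide +kernel))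
                     (CovZ.n1 (27426, 25710) (by decide +kernel)
                      (CovZ.leaf K2_ok TD_l18375 _)
                      (CovZ.badM (by decide +kernel))))
                    (CovZ.badM (by decide +kernel)))
                   (CovZ.n1 (27420, 25692) (by decide +kernel)
                    (CovZ.n2 (27408, 25692) (by decide +kernel)
                     (CovZ.n2 (27414, 25698) (by decide +kernel)
                      (CovZ.leaf K2_ok TD_l18376 _)
                      (CovZ.badM (by decide +kernel)))
                     (CovZ.leaf K2_ok TD_l16313 _))
                    (CovZ.n1 (27420, 25704) (by decide +kernel)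
                     (CovZ.leaf K2_ok TD_l18377 _)
                     (CovZ.leaf K2_ok TD_l18378 _))))
                  (CovZ.n1 (27432, 25728) (by decide +kernel)
                   (CovZ.n2 (27444, 25716) (by decide +kernel)
                    (CovZ.n2 (27432, 25716) (by decide +kernel)
                     (CovZ.badM (by decide +kernel))
                     (CovZ.n1 (27438, 25710) (by decide +kernel)
                      (CovZ.leaf K2_ok TD_l18379 _)
                      (CovZ.badM (by decide +kernel))))
                    (CovZ.badM (by decide +kernel)))
                   (CovZ.n1 (27420, 25716) (by decide +kernel)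
                    (CovZ.badM (by decide +kernel))
                    (CovZ.n1 (27432, 25716) (by decide +kernel)
                     (CovZ.n2 (27426, 25710) (by decide +kernel)
                      (CovZ.badM (by decide +kernel))
                      (CovZ.n1 (27432, 25710) (by decide +kernel)
                       (CovZ.leaf K2_ok TD_l18380 _)
                       (CovZ.badM (by decide +kernel))))
                     (CovZ.badM (by decide +kernel))))))
                 (CovZ.badM (by decide +kernel)))))
              (CovZ.n1 (27312, 25680) (by decide +kernel)
               (CovZ.subM 348449143727040986586495598010130648530944 (by decide +kernel)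
                (CovZ.n2 (27312, 25728) (by decide +kernel)
                 (CovZ.n2 (27336, 25704) (by decide +kernel)
                  (CovZ.n2 (27312, 25704) (by decide +kernel)
                   (CovZ.badM (by decide +kernel))
                   (CovZ.n1 (27324, 25692) (by decide +kernel)
                    (CovZ.n2 (27312, 25692) (by decide +kernel)
                     (CovZ.badM (by decide +kernel))
                     (CovZ.leaf K2_ok TD_l16315 _))
                    (CovZ.badM (by decide +kernel))))
                  (CovZ.badM (by decide +kernel)))
                 (CovZ.n1 (27288, 25704) (by decide +kernel)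
                  (CovZ.badM (by decide +kernel))
                  (CovZ.n1 (27312, 25704) (by decide +kernel)
                   (CovZ.n2 (27300, 25692) (by decide +kernel)
                    (CovZ.badM (by decide +kernel))
                    (CovZ.n1 (27312, 25692) (by decide +kernel)
                     (CovZ.leaf K2_ok TD_l16316 _)
                     (CovZ.badM (by decide +kernel))))
                   (CovZ.badM (by decide +kernel))))))
               (CovZ.subM 4212498094494464503877823623644330384447200491329537591474428837888 (by decide +kernel)
                (CovZ.n1 (27360, 25680) (by decide +kernel)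
                 (CovZ.n2 (27336, 25656) (by decide +kernel)
                  (CovZ.n2 (27336, 25680) (by decide +kernel)
                   (CovZ.n2 (27348, 25668) (by decide +kernel)
                    (CovZ.leaf K2_ok TD_l16317 _)
                    (CovZ.badM (by decide +kernel)))
                   (CovZ.n1 (27324, 25668) (by decide +kernel)
                    (CovZ.leaf K2_ok TD_l16318 _)
                    (CovZ.leaf K2_ok TD_l16319 _)))
                  (CovZ.n1 (27360, 25656) (by decide +kernel)
                   (CovZ.leaf K2_ok TD_l16320 _)
                   (CovZ.n1 (27348, 25668) (by decide +kernel)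
                    (CovZ.badM (by decide +kernel))
                    (CovZ.leaf K2_ok TD_l16321 _))))
                 (CovZ.n1 (27336, 25704) (by decide +kernel)
                  (CovZ.badM (by decide +kernel))
                  (CovZ.n1 (27336, 25680) (by decide +kernel)
                   (CovZ.n2 (27324, 25692) (by decide +kernel)
                    (CovZ.badM (by decide +kernel))
                    (CovZ.leaf K2_ok TD_l16322 _))
                   (CovZ.badM (by decide +kernel)))))))))
            (CovZ.n1 (27456, 25632) (by decide +kernel)
             (CovZ.n2 (27408, 25584) (by decide +kernel)
              (CovZ.n2 (27408, 25632) (by decide +kernel)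
               (CovZ.leaf K2_ok TD_l6930 _)
               (CovZ.n1 (27384, 25608) (by decide +kernel)
                (CovZ.leaf K2_ok TD_l16323 _)
                (CovZ.leaf K2_ok TD_l6931 _)))
              (CovZ.n1 (27456, 25584) (by decide +kernel)
               (CovZ.n2 (27432, 25560) (by decide +kernel)
                (CovZ.leaf K2_ok TD_l6932 _)
                (CovZ.leaf K2_ok TD_l6933 _))
               (CovZ.n1 (27432, 25608) (by decide +kernel)
                (CovZ.leaf K2_ok TD_l6934 _)
                (CovZ.leaf K2_ok TD_l6935 _))))
             (CovZ.subM 2086453991691950902916219703681744828764201820887614724264046106133094205653747931903927779328 (by decide +kernel)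
              (CovZ.n1 (27408, 25680) (by decide +kernel)
               (CovZ.n2 (27456, 25680) (by decide +kernel)
                (CovZ.n2 (27432, 25656) (by decide +kernel)
                 (CovZ.n2 (27432, 25680) (by decide +kernel)
                  (CovZ.n2 (27444, 25668) (by decide +kernel)
                   (CovZ.leaf K2_ok TD_l16324 _)
                   (CovZ.leaf K2_ok TD_l16325 _))
                  (CovZ.n1 (27420, 25668) (by decide +kernel)
                   (CovZ.leaf K2_ok TD_l16326 _)
                   (CovZ.n1 (27432, 25668) (by decide +kernel)
                    (CovZ.leaf K2_ok TD_l16327 _)
                    (CovZ.leaf K2_ok TD_l16328 _))))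
                 (CovZ.n1 (27456, 25656) (by decide +kernel)
                  (CovZ.leaf K2_ok TD_l16329 _)
                  (CovZ.n1 (27444, 25668) (by decide +kernel)
                   (CovZ.leaf K2_ok TD_l16330 _)
                   (CovZ.leaf K2_ok TD_l16331 _))))
                (CovZ.subM 2086450013104162487033004468585246279723849716809160719841024950098485627386502022376361820160 (by decide +kernel)
                 (CovZ.n1 (27432, 25704) (by decide +kernel)
                  (CovZ.n2 (27456, 25704) (by decide +kernel)
                   (CovZ.n2 (27444, 25692) (by decide +kernel)
                    (CovZ.n2 (27444, 25704) (by decide +kernel)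
                     (CovZ.leaf K2_ok TD_l16332 _)
                     (CovZ.leaf K2_ok TD_l16333 _))
                    (CovZ.n1 (27456, 25692) (by decide +kernel)
                     (CovZ.leaf K2_ok TD_l16334 _)
                     (CovZ.n1 (27450, 25698) (by decide +kernel)
                      (CovZ.n2 (27456, 25698) (by decide +kernel)
                       (CovZ.leaf K2_ok TD_l16335 _)
                       (CovZ.leaf K2_ok TD_l16336 _))
                      (CovZ.leaf K2_ok TD_l16337 _))))
                   (CovZ.n1 (27444, 25716) (by decide +kernel)
                    (CovZ.badM (by decide +kernel))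
                    (CovZ.n1 (27444, 25704) (by decide +kernel)
                     (CovZ.n2 (27438, 25710) (by decide +kernel)
                      (CovZ.badM (by decide +kernel))
                      (CovZ.leaf K2_ok TD_l16343 _))
                     (CovZ.badM (by decide +kernel)))))
                  (CovZ.n1 (27432, 25680) (by decide +kernel)
                   (CovZ.n2 (27420, 25692) (by decide +kernel)
                    (CovZ.n2 (27432, 25692) (by decide +kernel)
                     (CovZ.leaf K2_ok TD_l16346 _)
                     (CovZ.leaf K2_ok TD_l16347 _))
                    (CovZ.leaf K2_ok TD_l16348 _))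
                   (CovZ.n1 (27444, 25692) (by decide +kernel)
                    (CovZ.leaf K2_ok TD_l16349 _)
                    (CovZ.leaf K2_ok TD_l16350 _))))))
               (CovZ.n1 (27408, 25632) (by decide +kernel)
                (CovZ.n2 (27384, 25656) (by decide +kernel)
                 (CovZ.n2 (27408, 25656) (by decide +kernel)
                  (CovZ.leaf K2_ok TD_l16351 _)
                  (CovZ.leaf K2_ok TD_l16352 _))
                 (CovZ.n1 (27384, 25632) (by decide +kernel)
                  (CovZ.leaf K2_ok TD_l16353 _)
                  (CovZ.leaf K2_ok TD_l16354 _)))
                (CovZ.n1 (27432, 25656) (by decide +kernel)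
                 (CovZ.leaf K2_ok TD_l16355 _)
                 (CovZ.n1 (27408, 25656) (by decide +kernel)
                  (CovZ.n2 (27420, 25668) (by decide +kernel)
                   (CovZ.leaf K2_ok TD_l16356 _)
                   (CovZ.leaf K2_ok TD_l16357 _))
                  (CovZ.leaf K2_ok TD_l16358 _))))))))

theorem TD_u83 : CovZ TD_M (toL (selN TD_LN 11016957999374253604390032413805210330564519067801768572782476583673600608567859034596506136069)) [0, 7, 6, 1] (27648, 26112) (27264, 25728) (27648, 25344) :=
    (CovZ.n2 (27648, 25728) (by decide +kernel)
        (CovZ.n2 (27456, 25536) (by decide +kernel)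
         (CovZ.subM 10495349474194613004008345692487337274634429451885453189422589539114563053928537171057121952768 (by decide +kernel)
          (CovZ.n2 (27456, 25728) (by decide +kernel)
           TD_u81
           TD_u82))
         (CovZ.n1 (27648, 25536) (by decide +kernel)
          (CovZ.n2 (27552, 25440) (by decide +kernel)
           (CovZ.n2 (27552, 25536) (by decide +kernel)
            (CovZ.leaf K2_ok TD_l6936 _)
            (CovZ.n1 (27504, 25488) (by decide +kernel)
             (CovZ.leaf K2_ok TD_l6937 _)
             (CovZ.leaf K2_ok TD_l6938 _)))
           (CovZ.subM 10495345496092521222372242802714472998492060893240312533496013402176217996526500978321044564992 (by decide +kernel)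
            (CovZ.n1 (27648, 25440) (by decide +kernel)
             (CovZ.n2 (27600, 25392) (by decide +kernel)
              (CovZ.leaf K2_ok TD_l6939 _)
              (CovZ.leaf K2_ok TD_l6940 _))
             (CovZ.n1 (27600, 25488) (by decide +kernel)
              (CovZ.n2 (27648, 25488) (by decide +kernel)
               (CovZ.leaf K2_ok TD_l6941 _)
               (CovZ.leaf K2_ok TD_l6942 _))
              (CovZ.leaf K2_ok TD_l6943 _)))))
          (CovZ.subM 10495349474194612772424167213642396910980577894654158203029030401302602352795867389557731230720 (by decide +kernel)
           (CovZ.n1 (27552, 25632) (by decide +kernel)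
            (CovZ.n2 (27648, 25632) (by decide +kernel)
             (CovZ.n2 (27600, 25584) (by decide +kernel)
              (CovZ.n2 (27600, 25632) (by decide +kernel)
               (CovZ.leaf K2_ok TD_l6944 _)
               (CovZ.n1 (27576, 25608) (by decide +kernel)
                (CovZ.leaf K2_ok TD_l16359 _)
                (CovZ.leaf K2_ok TD_l6945 _)))
              (CovZ.n1 (27648, 25584) (by decide +kernel)
               (CovZ.leaf K2_ok TD_l6946 _)
               (CovZ.n1 (27624, 25608) (by decide +kernel)
                (CovZ.leaf K2_ok TD_l16360 _)
                (CovZ.leaf K2_ok TD_l6947 _))))
             (CovZ.subM 2086457970275945043619292758193910210036587918146357743509710774748837242284849210516186333184 (by decide +kernel)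
              (CovZ.n1 (27600, 25680) (by decide +kernel)
               (CovZ.n2 (27648, 25680) (by decide +kernel)
                (CovZ.n2 (27624, 25656) (by decide +kernel)
                 (CovZ.n2 (27624, 25680) (by decide +kernel)
                  (CovZ.leaf K2_ok TD_l16361 _)
                  (CovZ.n1 (27612, 25668) (by decide +kernel)
                   (CovZ.leaf K2_ok TD_l16362 _)
                   (CovZ.leaf K2_ok TD_l16363 _)))
                 (CovZ.n1 (27648, 25656) (by decide +kernel)
                  (CovZ.leaf K2_ok TD_l16364 _)
                  (CovZ.n1 (27636, 25668) (by decide +kernel)
                   (CovZ.leaf K2_ok TD_l16365 _)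
                   (CovZ.leaf K2_ok TD_l16366 _))))
                (CovZ.subM 7957171782556586274486115970349183630836261770617674797989312539473557522394726789021696 (by decide +kernel)
                 (CovZ.n1 (27624, 25704) (by decide +kernel)
                  (CovZ.n2 (27648, 25704) (by decide +kernel)
                   (CovZ.n2 (27636, 25692) (by decide +kernel)
                    (CovZ.n2 (27636, 25704) (by decide +kernel)
                     (CovZ.leaf K2_ok TD_l16367 _)
                     (CovZ.n1 (27630, 25698) (by decide +kernel)
                      (CovZ.leaf K2_ok TD_l16368 _)
                      (CovZ.leaf K2_ok TD_l16369 _)))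
                    (CovZ.n1 (27648, 25692) (by decide +kernel)
                     (CovZ.leaf K2_ok TD_l16370 _)
                     (CovZ.leaf K2_ok TD_l16371 _)))
                   (CovZ.n1 (27636, 25716) (by decide +kernel)
                    (CovZ.n2 (27648, 25716) (by decide +kernel)
                     (CovZ.n2 (27642, 25710) (by decide +kernel)
                      (CovZ.leaf K2_ok TD_l16372 _)
                      (CovZ.leaf K2_ok TD_l16373 _))
                     (CovZ.badM (by decide +kernel)))
                    (CovZ.n1 (27636, 25704) (by decide +kernel)
                     (CovZ.n2 (27630, 25710) (by decide +kernel)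
                      (CovZ.n2 (27636, 25710) (by decide +kernel)
                       (CovZ.n2 (27633, 25707) (by decide +kernel)
                        (CovZ.badM (by decide +kernel))
                        (CovZ.leaf K2_ok TD_l16374 _))
                       (CovZ.badM (by decide +kernel)))
                      (CovZ.leaf K2_ok TD_l16375 _))
                     (CovZ.n1 (27642, 25710) (by decide +kernel)
                      (CovZ.leaf K2_ok TD_l16376 _)
                      (CovZ.n1 (27636, 25710) (by decide +kernel)
                       (CovZ.badM (by decide +kernel))
                       (CovZ.leaf K2_ok TD_l16377 _))))))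
                  (CovZ.n1 (27624, 25680) (by decide +kernel)
                   (CovZ.n2 (27612, 25692) (by decide +kernel)
                    (CovZ.n2 (27624, 25692) (by decide +kernel)
                     (CovZ.leaf K2_ok TD_l16378 _)
                     (CovZ.leaf K2_ok TD_l16379 _))
                    (CovZ.leaf K2_ok TD_l16380 _))
                   (CovZ.n1 (27636, 25692) (by decide +kernel)
                    (CovZ.leaf K2_ok TD_l16381 _)
                    (CovZ.n1 (27624, 25692) (by decide +kernel)
                     (CovZ.leaf K2_ok TD_l16382 _)
                     (CovZ.leaf K2_ok TD_l16383 _)))))))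
               (CovZ.n1 (27600, 25632) (by decide +kernel)
                (CovZ.n2 (27576, 25656) (by decide +kernel)
                 (CovZ.n2 (27600, 25656) (by decide +kernel)
                  (CovZ.leaf K2_ok TD_l16384 _)
                  (CovZ.n1 (27588, 25668) (by decide +kernel)
                   (CovZ.leaf K2_ok TD_l16385 _)
                   (CovZ.leaf K2_ok TD_l16386 _)))
                 (CovZ.leaf K2_ok TD_l16387 _))
                (CovZ.n1 (27624, 25656) (by decide +kernel)
                 (CovZ.leaf K2_ok TD_l16388 _)
                 (CovZ.n1 (27600, 25656) (by decide +kernel)
                  (CovZ.leaf K2_ok TD_l16389 _)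
                  (CovZ.leaf K2_ok TD_l16390 _)))))))
            (CovZ.n1 (27552, 25536) (by decide +kernel)
             (CovZ.n2 (27504, 25584) (by decide +kernel)
              (CovZ.n2 (27552, 25584) (by decide +kernel)
               (CovZ.leaf K2_ok TD_l6948 _)
               (CovZ.n1 (27528, 25608) (by decide +kernel)
                (CovZ.leaf K2_ok TD_l6949 _)
                (CovZ.leaf K2_ok TD_l6950 _)))
              (CovZ.n1 (27504, 25536) (by decide +kernel)
               (CovZ.leaf K2_ok TD_l6951 _)
               (CovZ.leaf K2_ok TD_l6952 _)))
             (CovZ.n1 (27600, 25584) (by decide +kernel)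
              (CovZ.n2 (27600, 25536) (by decide +kernel)
               (CovZ.leaf K2_ok TD_l6953 _)
               (CovZ.leaf K2_ok TD_l6954 _))
              (CovZ.n1 (27552, 25584) (by decide +kernel)
               (CovZ.n2 (27576, 25608) (by decide +kernel)
                (CovZ.leaf K2_ok TD_l6955 _)
                (CovZ.leaf K2_ok TD_l6956 _))
               (CovZ.leaf K2_ok TD_l6957 _))))))))
        (CovZ.subM 2086461948863733459502494189797715177847071075337453497950926505451487436883936239477793488896 (by decide +kernel)
         (CovZ.n1 (27456, 25920) (by decide +kernel)
          (CovZ.n2 (27648, 25920) (by decide +kernel)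
           (CovZ.n2 (27552, 25824) (by decide +kernel)
            (CovZ.badM (by decide +kernel))
            (CovZ.badM (by decide +kernel)))
           (CovZ.badM (by decide +kernel)))
          (CovZ.n1 (27456, 25728) (by decide +kernel)
           (CovZ.n2 (27360, 25824) (by decide +kernel)
            (CovZ.badM (by decide +kernel))
            (CovZ.n1 (27360, 25728) (by decide +kernel)
             (CovZ.badM (by decide +kernel))
             (CovZ.badM (by decide +kernel))))
           (CovZ.subM 11935759570972469475917719775316995646489016567875609852926094070882228725881922335539200 (by decide +kernel)
            (CovZ.n1 (27552, 25824) (by decide +kernel)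
             (CovZ.n2 (27552, 25728) (by decide +kernel)
              (CovZ.n2 (27504, 25776) (by decide +kernel)
               (CovZ.badM (by decide +kernel))
               (CovZ.n1 (27504, 25728) (by decide +kernel)
                (CovZ.badM (by decide +kernel))
                (CovZ.badM (by decide +kernel))))
              (CovZ.n1 (27600, 25776) (by decide +kernel)
               (CovZ.n2 (27600, 25728) (by decide +kernel)
                (CovZ.badM (by decide +kernel))
                (CovZ.badM (by decide +kernel)))
               (CovZ.badM (by decide +kernel))))
             (CovZ.badM (by decide +kernel))))))))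

theorem TD_u84 : CovZ TD_M (toL (selN TD_LN 11016957999374253604390032413805210330564519067801768572782476583673600608567859034596506136069)) [0, 7, 6, 1] (27264, 25728) (26880, 25344) (27648, 25344) :=
    (CovZ.n1 (27264, 25344) (by decide +kernel)
        (CovZ.n2 (27072, 25536) (by decide +kernel)
         (CovZ.n2 (27264, 25536) (by decide +kernel)
          (CovZ.n2 (27168, 25440) (by decide +kernel)
           (CovZ.n2 (27168, 25536) (by decide +kernel)
            (CovZ.leaf K2_ok TD_l6958 _)
            (CovZ.n1 (27120, 25488) (by decide +kernel)
             (CovZ.leaf K2_ok TD_l6959 _)
             (CovZ.leaf K2_ok TD_l6960 _)))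
           (CovZ.subM 10494828279928552413438643872567173367438670780173186428308246138969516224958930793957028847616 (by decide +kernel)
            (CovZ.n1 (27264, 25440) (by decide +kernel)
             (CovZ.n2 (27216, 25392) (by decide +kernel)
              (CovZ.leaf K2_ok TD_l6961 _)
              (CovZ.leaf K2_ok TD_l6962 _))
             (CovZ.n1 (27216, 25488) (by decide +kernel)
              (CovZ.n2 (27264, 25488) (by decide +kernel)
               (CovZ.leaf K2_ok TD_l6963 _)
               (CovZ.leaf K2_ok TD_l6964 _))
              (CovZ.leaf K2_ok TD_l6965 _)))))
          (CovZ.subM 8408887525818443905152361762458001198950177237270314560828164439365061413244895638508454019072 (by decide +kernel)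
           (CovZ.n1 (27168, 25632) (by decide +kernel)
            (CovZ.n2 (27264, 25632) (by decide +kernel)
             (CovZ.n2 (27216, 25584) (by decide +kernel)
              (CovZ.n2 (27216, 25632) (by decide +kernel)
               (CovZ.n2 (27240, 25608) (by decide +kernel)
                (CovZ.leaf K2_ok TD_l6966 _)
                (CovZ.leaf K2_ok TD_l16391 _))
               (CovZ.n1 (27192, 25608) (by decide +kernel)
                (CovZ.leaf K2_ok TD_l6967 _)
                (CovZ.leaf K2_ok TD_l6968 _)))
              (CovZ.n1 (27264, 25584) (by decide +kernel)
               (CovZ.leaf K2_ok TD_l6969 _)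
               (CovZ.n1 (27240, 25608) (by decide +kernel)
                (CovZ.leaf K2_ok TD_l6970 _)
                (CovZ.leaf K2_ok TD_l6971 _))))
             (CovZ.subM 2983939418690304031411138544994334892690361487711808049029232489341144806730176562987008 (by decide +kernel)
              (CovZ.n1 (27216, 25680) (by decide +kernel)
               (CovZ.n2 (27264, 25680) (by decide +kernel)
                (CovZ.n2 (27240, 25656) (by decide +kernel)
                 (CovZ.n2 (27240, 25680) (by decide +kernel)
                  (CovZ.leaf K2_ok TD_l16392 _)
                  (CovZ.n1 (27228, 25668) (by decide +kernel)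
                   (CovZ.leaf K2_ok TD_l16393 _)
                   (CovZ.leaf K2_ok TD_l16394 _)))
                 (CovZ.n1 (27264, 25656) (by decide +kernel)
                  (CovZ.leaf K2_ok TD_l16395 _)
                  (CovZ.leaf K2_ok TD_l16396 _)))
                (CovZ.badM (by decide +kernel)))
               (CovZ.n1 (27216, 25632) (by decide +kernel)
                (CovZ.n2 (27192, 25656) (by decide +kernel)
                 (CovZ.n2 (27216, 25656) (by decide +kernel)
                  (CovZ.leaf K2_ok TD_l16397 _)
                  (CovZ.n1 (27204, 25668) (by decide +kernel)
                   (CovZ.n2 (27216, 25668) (by decide +kernel)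
                    (CovZ.leaf K2_ok TD_l16398 _)
                    (CovZ.leaf K2_ok TD_l16399 _))
                   (CovZ.leaf K2_ok TD_l16400 _)))
                 (CovZ.leaf K2_ok TD_l16401 _))
                (CovZ.n1 (27240, 25656) (by decide +kernel)
                 (CovZ.leaf K2_ok TD_l16402 _)
                 (CovZ.n1 (27216, 25656) (by decide +kernel)
                  (CovZ.n2 (27228, 25668) (by decide +kernel)
                   (CovZ.leaf K2_ok TD_l16403 _)
                   (CovZ.leaf K2_ok TD_l16404 _))
                  (CovZ.leaf K2_ok TD_l16405 _)))))))
            (CovZ.n1 (27168, 25536) (by decide +kernel)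
             (CovZ.n2 (27120, 25584) (by decide +kernel)
              (CovZ.n2 (27168, 25584) (by decide +kernel)
               (CovZ.leaf K2_ok TD_l6972 _)
               (CovZ.n1 (27144, 25608) (by decide +kernel)
                (CovZ.leaf K2_ok TD_l6973 _)
                (CovZ.leaf K2_ok TD_l6974 _)))
              (CovZ.n1 (27120, 25536) (by decide +kernel)
               (CovZ.leaf K2_ok TD_l6975 _)
               (CovZ.leaf K2_ok TD_l6976 _)))
             (CovZ.n1 (27216, 25584) (by decide +kernel)
              (CovZ.n2 (27216, 25536) (by decide +kernel)
               (CovZ.leaf K2_ok TD_l6977 _)
               (CovZ.leaf K2_ok TD_l6978 _))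
              (CovZ.n1 (27168, 25584) (by decide +kernel)
               (CovZ.n2 (27192, 25608) (by decide +kernel)
                (CovZ.leaf K2_ok TD_l6979 _)
                (CovZ.leaf K2_ok TD_l6980 _))
               (CovZ.leaf K2_ok TD_l6981 _)))))))
         (CovZ.n1 (27072, 25344) (by decide +kernel)
          (CovZ.n2 (26976, 25440) (by decide +kernel)
           (CovZ.subM 8930368735758204848421864419721004460156314751749310465740891532921913692128276370606394499073 (by decide +kernel)
            (CovZ.n2 (27072, 25440) (by decide +kernel)
             (CovZ.n2 (27024, 25392) (by decide +kernel)
              (CovZ.leaf K2_ok TD_l6982 _)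
              (CovZ.leaf K2_ok TD_l6983 _))
             (CovZ.n1 (27024, 25488) (by decide +kernel)
              (CovZ.n2 (27072, 25488) (by decide +kernel)
               (CovZ.leaf K2_ok TD_l6984 _)
               (CovZ.leaf K2_ok TD_l6985 _))
              (CovZ.leaf K2_ok TD_l6986 _))))
           (CovZ.n1 (26976, 25344) (by decide +kernel)
            (CovZ.leaf K2_ok TD_l6987 _)
            (CovZ.leaf K2_ok TD_l6988 _)))
          (CovZ.n1 (27168, 25440) (by decide +kernel)
           (CovZ.n2 (27168, 25344) (by decide +kernel)
            (CovZ.leaf K2_ok TD_l6989 _)
            (CovZ.n1 (27216, 25392) (by decide +kernel)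
             (CovZ.leaf K2_ok TD_l6990 _)
             (CovZ.leaf K2_ok TD_l6991 _)))
           (CovZ.n1 (27072, 25440) (by decide +kernel)
            (CovZ.n2 (27120, 25488) (by decide +kernel)
             (CovZ.leaf K2_ok TD_l6992 _)
             (CovZ.leaf K2_ok TD_l6993 _))
            (CovZ.leaf K2_ok TD_l6994 _)))))
        (CovZ.n1 (27456, 25536) (by decide +kernel)
         (CovZ.n2 (27456, 25344) (by decide +kernel)
          (CovZ.n2 (27360, 25440) (by decide +kernel)
           (CovZ.subM 10495341517508527081669169748202320472724028867903776985989381006230174415979732053227288453120 (by decide +kernel)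
            (CovZ.n2 (27456, 25440) (by decide +kernel)
             (CovZ.n2 (27408, 25392) (by decide +kernel)
              (CovZ.leaf K2_ok TD_l6995 _)
              (CovZ.leaf K2_ok TD_l6996 _))
             (CovZ.n1 (27408, 25488) (by decide +kernel)
              (CovZ.leaf K2_ok TD_l6997 _)
              (CovZ.leaf K2_ok TD_l6998 _))))
           (CovZ.n1 (27360, 25344) (by decide +kernel)
            (CovZ.leaf K2_ok TD_l6999 _)
            (CovZ.leaf K2_ok TD_l7000 _)))
          (CovZ.n1 (27552, 25440) (by decide +kernel)
           (CovZ.n2 (27552, 25344) (by decide +kernel)
            (CovZ.leaf K2_ok TD_l7001 _)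
            (CovZ.leaf K2_ok TD_l7002 _))
           (CovZ.n1 (27456, 25440) (by decide +kernel)
            (CovZ.n2 (27504, 25488) (by decide +kernel)
             (CovZ.leaf K2_ok TD_l7003 _)
             (CovZ.leaf K2_ok TD_l7004 _))
            (CovZ.leaf K2_ok TD_l7005 _))))
         (CovZ.n1 (27264, 25536) (by decide +kernel)
          (CovZ.subM 10495341517508497670478503474101232402205718199569159549486819089737515435688955634500314857472 (by decide +kernel)
           (CovZ.n2 (27360, 25632) (by decide +kernel)
            (CovZ.n2 (27360, 25536) (by decide +kernel)
             (CovZ.n2 (27312, 25584) (by decide +kernel)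
              (CovZ.n2 (27360, 25584) (by decide +kernel)
               (CovZ.leaf K2_ok TD_l7006 _)
               (CovZ.n1 (27336, 25608) (by decide +kernel)
                (CovZ.leaf K2_ok TD_l7007 _)
                (CovZ.leaf K2_ok TD_l7008 _)))
              (CovZ.n1 (27312, 25536) (by decide +kernel)
               (CovZ.leaf K2_ok TD_l7009 _)
               (CovZ.n1 (27336, 25560) (by decide +kernel)
                (CovZ.leaf K2_ok TD_l7010 _)
                (CovZ.leaf K2_ok TD_l7011 _))))
             (CovZ.n1 (27408, 25584) (by decide +kernel)
              (CovZ.n2 (27408, 25536) (by decide +kernel)
               (CovZ.leaf K2_ok TD_l7012 _)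
               (CovZ.leaf K2_ok TD_l7013 _))
              (CovZ.n1 (27360, 25584) (by decide +kernel)
               (CovZ.n2 (27384, 25608) (by decide +kernel)
                (CovZ.leaf K2_ok TD_l7014 _)
                (CovZ.leaf K2_ok TD_l7015 _))
               (CovZ.leaf K2_ok TD_l7016 _))))
            (CovZ.n1 (27264, 25632) (by decide +kernel)
             (CovZ.subM 2983939418690304031411138544944118078807268041601121733643571158012325963174464286883840 (by decide +kernel)
              (CovZ.n2 (27312, 25680) (by decide +kernel)
               (CovZ.n2 (27312, 25632) (by decide +kernel)
                (CovZ.n2 (27288, 25656) (by decide +kernel)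
                 (CovZ.n2 (27312, 25656) (by decide +kernel)
                  (CovZ.leaf K2_ok TD_l16406 _)
                  (CovZ.n1 (27300, 25668) (by decide +kernel)
                   (CovZ.leaf K2_ok TD_l16407 _)
                   (CovZ.leaf K2_ok TD_l16408 _)))
                 (CovZ.leaf K2_ok TD_l16409 _))
                (CovZ.subM 2983939418458719852936505999830923859178536935531020523572859774719875254010062552694784 (by decide +kernel)
                 (CovZ.n1 (27336, 25656) (by decide +kernel)
                  (CovZ.leaf K2_ok TD_l16410 _)
                  (CovZ.n1 (27312, 25656) (by decide +kernel)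
                   (CovZ.n2 (27324, 25668) (by decide +kernel)
                    (CovZ.leaf K2_ok TD_l16411 _)
                    (CovZ.leaf K2_ok TD_l16412 _))
                   (CovZ.leaf K2_ok TD_l16413 _)))))
               (CovZ.n1 (27264, 25680) (by decide +kernel)
                (CovZ.subM 1989292945639146568621528992587283360401824603537840013488896894159133586060264150663168 (by decide +kernel)
                 (CovZ.n2 (27288, 25704) (by decide +kernel)
                  (CovZ.n2 (27288, 25680) (by decide +kernel)
                   (CovZ.n2 (27276, 25692) (by decide +kernel)
                    (CovZ.n2 (27288, 25692) (by decide +kernel)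
                     (CovZ.leaf K2_ok TD_l16414 _)
                     (CovZ.badM (by decide +kernel)))
                    (CovZ.leaf K2_ok TD_l16415 _))
                   (CovZ.n1 (27300, 25692) (by decide +kernel)
                    (CovZ.leaf K2_ok TD_l16416 _)
                    (CovZ.n1 (27288, 25692) (by decide +kernel)
                     (CovZ.badM (by decide +kernel))
                     (CovZ.leaf K2_ok TD_l16417 _))))
                  (CovZ.badM (by decide +kernel))))
                (CovZ.n1 (27288, 25656) (by decide +kernel)
                 (CovZ.n2 (27264, 25656) (by decide +kernel)
                  (CovZ.n2 (27276, 25668) (by decide +kernel)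
                   (CovZ.leaf K2_ok TD_l16418 _)
                   (CovZ.leaf K2_ok TD_l16419 _))
                  (CovZ.leaf K2_ok TD_l16420 _))
                 (CovZ.n1 (27288, 25680) (by decide +kernel)
                  (CovZ.leaf K2_ok TD_l16421 _)
                  (CovZ.n1 (27276, 25668) (by decide +kernel)
                   (CovZ.leaf K2_ok TD_l16422 _)
                   (CovZ.leaf K2_ok TD_l16423 _)))))))
             (CovZ.n1 (27312, 25584) (by decide +kernel)
              (CovZ.n2 (27264, 25584) (by decide +kernel)
               (CovZ.n2 (27288, 25608) (by decide +kernel)
                (CovZ.leaf K2_ok TD_l7017 _)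
                (CovZ.leaf K2_ok TD_l7018 _))
               (CovZ.leaf K2_ok TD_l7019 _))
              (CovZ.n1 (27312, 25632) (by decide +kernel)
               (CovZ.leaf K2_ok TD_l7020 _)
               (CovZ.n1 (27288, 25608) (by decide +kernel)
                (CovZ.leaf K2_ok TD_l16424 _)
                (CovZ.leaf K2_ok TD_l7021 _)))))))
          (CovZ.n1 (27360, 25440) (by decide +kernel)
           (CovZ.n2 (27264, 25440) (by decide +kernel)
            (CovZ.n2 (27312, 25488) (by decide +kernel)
             (CovZ.leaf K2_ok TD_l7022 _)
             (CovZ.leaf K2_ok TD_l7023 _))
            (CovZ.leaf K2_ok TD_l7024 _))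
           (CovZ.n1 (27360, 25536) (by decide +kernel)
            (CovZ.leaf K2_ok TD_l7025 _)
            (CovZ.n1 (27312, 25488) (by decide +kernel)
             (CovZ.leaf K2_ok TD_l7026 _)
             (CovZ.leaf K2_ok TD_l7027 _)))))))

theorem TD_u85 : CovZ TD_M (toL (selN TD_LN 5517161974557295902613003683370825805886061207338665655372711649586112219641912282232169881666626536009221)) [0, 7, 6, 1] (26112, 25344) (26496, 25344) (26496, 25728) :=
    (CovZ.n2 (26304, 25536) (by decide +kernel)
        (CovZ.n2 (26496, 25536) (by decide +kernel)
         (CovZ.n2 (26400, 25440) (by decide +kernel)
          (CovZ.n2 (26400, 25536) (by decide +kernel)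
           (CovZ.n2 (26448, 25488) (by decide +kernel)
            (CovZ.leaf K2_ok TD_l7051 _)
            (CovZ.leaf K2_ok TD_l7052 _))
           (CovZ.n1 (26352, 25488) (by decide +kernel)
            (CovZ.leaf K2_ok TD_l7053 _)
            (CovZ.n1 (26400, 25488) (by decide +kernel)
             (CovZ.leaf K2_ok TD_l7054 _)
             (CovZ.leaf K2_ok TD_l7055 _))))
          (CovZ.subM 5510406368476515924496152622410817034558930263503215365910147333203699714834828193102846636958190051287553 (by decide +kernel)
           (CovZ.n1 (26496, 25440) (by decide +kernel)
            (CovZ.n2 (26448, 25392) (by decide +kernel)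
             (CovZ.leaf K2_ok TD_l7056 _)
             (CovZ.leaf K2_ok TD_l7057 _))
            (CovZ.n1 (26448, 25488) (by decide +kernel)
             (CovZ.n2 (26496, 25488) (by decide +kernel)
              (CovZ.leaf K2_ok TD_l7058 _)
              (CovZ.leaf K2_ok TD_l7059 _))
             (CovZ.leaf K2_ok TD_l7060 _)))))
         (CovZ.subM 5512646113218693729204033538245180130412018801361389444713998559097540956554431174252241064320896564461568 (by decide +kernel)
          (CovZ.n1 (26400, 25632) (by decide +kernel)
           (CovZ.n2 (26496, 25632) (by decide +kernel)
            (CovZ.n2 (26448, 25584) (by decide +kernel)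
             (CovZ.n2 (26448, 25632) (by decide +kernel)
              (CovZ.n2 (26472, 25608) (by decide +kernel)
               (CovZ.n2 (26448, 25608) (by decide +kernel)
                (CovZ.n2 (26460, 25620) (by decide +kernel)
                 (CovZ.leaf K2_ok TD_l16425 _)
                 (CovZ.leaf K2_ok TD_l16426 _))
                (CovZ.leaf K2_ok TD_l16427 _))
               (CovZ.n1 (26472, 25632) (by decide +kernel)
                (CovZ.leaf K2_ok TD_l16428 _)
                (CovZ.n1 (26460, 25620) (by decide +kernel)
                 (CovZ.leaf K2_ok TD_l16429 _)
                 (CovZ.leaf K2_ok TD_l16430 _))))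
              (CovZ.n1 (26424, 25608) (by decide +kernel)
               (CovZ.n2 (26424, 25632) (by decide +kernel)
                (CovZ.leaf K2_ok TD_l16431 _)
                (CovZ.leaf K2_ok TD_l16432 _))
               (CovZ.n1 (26448, 25608) (by decide +kernel)
                (CovZ.leaf K2_ok TD_l16433 _)
                (CovZ.leaf K2_ok TD_l16434 _))))
             (CovZ.n1 (26496, 25584) (by decide +kernel)
              (CovZ.n2 (26472, 25560) (by decide +kernel)
               (CovZ.leaf K2_ok TD_l7061 _)
               (CovZ.leaf K2_ok TD_l7062 _))
              (CovZ.n1 (26472, 25608) (by decide +kernel)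
               (CovZ.n2 (26496, 25608) (by decide +kernel)
                (CovZ.leaf K2_ok TD_l16435 _)
                (CovZ.leaf K2_ok TD_l16436 _))
               (CovZ.leaf K2_ok TD_l16437 _))))
            (CovZ.n1 (26448, 25680) (by decide +kernel)
             (CovZ.subM 5187883125594568418785178093028519606293589222372326239197395281493194640836142937302018526120495598796800 (by decide +kernel)
              (CovZ.n2 (26496, 25680) (by decide +kernel)
               (CovZ.n2 (26472, 25656) (by decide +kernel)
                (CovZ.subM 5169895175633431320194307593144609532487944651274668815886322948885685285181356781921930334899988672282624 (by decide +kernel)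
                 (CovZ.n2 (26472, 25680) (by decide +kernel)
                  (CovZ.n2 (26484, 25668) (by decide +kernel)
                   (CovZ.n2 (26472, 25668) (by decide +kernel)
                    (CovZ.n2 (26478, 25674) (by decide +kernel)
                     (CovZ.leaf K2_ok TD_l16438 _)
                     (CovZ.leaf K2_ok TD_l18977 _))
                    (CovZ.leaf K2_ok TD_l16439 _))
                   (CovZ.subM 582338007467743845920026441507123416028533452318117835089823214994195218889519203934106190319540844363776 (by decide +kernel)
                    (CovZ.n1 (26484, 25680) (by decide +kernel)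
                     (CovZ.leaf K2_ok TD_l16440 _)
                     (CovZ.n1 (26478, 25674) (by decide +kernel)
                      (CovZ.badM (by decide +kernel))
                      (CovZ.n1 (26484, 25674) (by decide +kernel)
                       (CovZ.leaf K2_ok TD_l16441 _)
                       (CovZ.leaf K2_ok TD_l18978 _))))))
                  (CovZ.n1 (26460, 25668) (by decide +kernel)
                   (CovZ.subM 559936185544451052639360570142111069530411374308662383724997275240947967795040236345219373317901778944 (by decide +kernel)
                    (CovZ.n2 (26460, 25680) (by decide +kernel)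
                     (CovZ.n2 (26466, 25674) (by decide +kernel)
                      (CovZ.n2 (26460, 25674) (by decide +kernel)
                       (CovZ.badM (by decide +kernel))
                       (CovZ.leaf K2_ok TD_l18979 _))
                      (CovZ.badM (by decide +kernel)))
                     (CovZ.badM (by decide +kernel))))
                   (CovZ.n1 (26472, 25668) (by decide +kernel)
                    (CovZ.leaf K2_ok TD_l16442 _)
                    (CovZ.n1 (26466, 25674) (by decide +kernel)
                     (CovZ.n2 (26472, 25674) (by decide +kernel)
                      (CovZ.leaf K2_ok TD_l18980 _)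
                      (CovZ.badM (by decide +kernel)))
                     (CovZ.leaf K2_ok TD_l18981 _))))))
                (CovZ.n1 (26496, 25656) (by decide +kernel)
                 (CovZ.n2 (26484, 25644) (by decide +kernel)
                  (CovZ.leaf K2_ok TD_l16443 _)
                  (CovZ.leaf K2_ok TD_l16444 _))
                 (CovZ.subM 5169895175633431320194432804225553768931968757217882050503352635263983567611437465143651787715246039236608 (by decide +kernel)
                  (CovZ.n1 (26484, 25668) (by decide +kernel)
                   (CovZ.n2 (26496, 25668) (by decide +kernel)
                    (CovZ.leaf K2_ok TD_l16445 _)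
                    (CovZ.leaf K2_ok TD_l16446 _))
                   (CovZ.n1 (26484, 25656) (by decide +kernel)
                    (CovZ.leaf K2_ok TD_l16447 _)
                    (CovZ.leaf K2_ok TD_l16448 _))))))
               (CovZ.badM (by decide +kernel))))
             (CovZ.n1 (26448, 25632) (by decide +kernel)
              (CovZ.subM 5223159105283803649981851861243265854171987636643338342696603727033822293402736143634870692579528297938944 (by decide +kernel)
               (CovZ.n2 (26424, 25656) (by decide +kernel)
                (CovZ.n2 (26448, 25656) (by decide +kernel)
                 (CovZ.n2 (26436, 25644) (by decide +kernel)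
                  (CovZ.leaf K2_ok TD_l16449 _)
                  (CovZ.n1 (26448, 25644) (by decide +kernel)
                   (CovZ.leaf K2_ok TD_l16450 _)
                   (CovZ.leaf K2_ok TD_l16451 _)))
                 (CovZ.subM 5169330864946372117966576783551969393904757807617571126549175201836354815173781726510557616844653318897664 (by decide +kernel)
                  (CovZ.n1 (26436, 25668) (by decide +kernel)
                   (CovZ.n2 (26448, 25668) (by decide +kernel)
                    (CovZ.n2 (26442, 25662) (by decide +kernel)
                     (CovZ.leaf K2_ok TD_l18982 _)
                     (CovZ.n1 (26448, 25662) (by decide +kernel)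
                      (CovZ.leaf K2_ok TD_l16452 _)
                      (CovZ.leaf K2_ok TD_l18983 _)))
                    (CovZ.badM (by decide +kernel)))
                   (CovZ.n1 (26436, 25656) (by decide +kernel)
                    (CovZ.badM (by decide +kernel))
                    (CovZ.n1 (26442, 25662) (by decide +kernel)
                     (CovZ.leaf K2_ok TD_l16453 _)
                     (CovZ.leaf K2_ok TD_l18984 _))))))
                (CovZ.n1 (26424, 25632) (by decide +kernel)
                 (CovZ.n2 (26412, 25644) (by decide +kernel)
                  (CovZ.n2 (26424, 25644) (by decide +kernel)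
                   (CovZ.leaf K2_ok TD_l16454 _)
                   (CovZ.leaf K2_ok TD_l16455 _))
                  (CovZ.leaf K2_ok TD_l16456 _))
                 (CovZ.n1 (26436, 25644) (by decide +kernel)
                  (CovZ.leaf K2_ok TD_l16457 _)
                  (CovZ.leaf K2_ok TD_l16458 _)))))
              (CovZ.n1 (26472, 25656) (by decide +kernel)
               (CovZ.n2 (26472, 25632) (by decide +kernel)
                (CovZ.n2 (26460, 25644) (by decide +kernel)
                 (CovZ.n2 (26472, 25644) (by decide +kernel)
                  (CovZ.leaf K2_ok TD_l16459 _)
                  (CovZ.leaf K2_ok TD_l16460 _))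
                 (CovZ.leaf K2_ok TD_l16461 _))
                (CovZ.n1 (26484, 25644) (by decide +kernel)
                 (CovZ.leaf K2_ok TD_l16462 _)
                 (CovZ.leaf K2_ok TD_l16463 _)))
               (CovZ.subM 5187883125594503233665572026282781501256559044654548204056065412283357913659067792897262315376468123713536 (by decide +kernel)
                (CovZ.n1 (26448, 25656) (by decide +kernel)
                 (CovZ.subM 5169895175633366135043064889589735864013769734576421646295278764642878767762260356808146334542475324030976 (by decide +kernel)
                  (CovZ.n2 (26460, 25668) (by decide +kernel)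
                   (CovZ.n2 (26460, 25656) (by decide +kernel)
                    (CovZ.n2 (26454, 25662) (by decide +kernel)
                     (CovZ.n2 (26460, 25662) (by decide +kernel)
                      (CovZ.leaf K2_ok TD_l16464 _)
                      (CovZ.leaf K2_ok TD_l18985 _))
                     (CovZ.leaf K2_ok TD_l16465 _))
                    (CovZ.leaf K2_ok TD_l16466 _))
                   (CovZ.n1 (26448, 25668) (by decide +kernel)
                    (CovZ.badM (by decide +kernel))
                    (CovZ.leaf K2_ok TD_l16467 _))))
                 (CovZ.n1 (26460, 25644) (by decide +kernel)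
                  (CovZ.leaf K2_ok TD_l16468 _)
                  (CovZ.leaf K2_ok TD_l16469 _))))))))
           (CovZ.n1 (26400, 25536) (by decide +kernel)
            (CovZ.n2 (26352, 25584) (by decide +kernel)
             (CovZ.n2 (26400, 25584) (by decide +kernel)
              (CovZ.n2 (26376, 25560) (by decide +kernel)
               (CovZ.leaf K2_ok TD_l7063 _)
               (CovZ.leaf K2_ok TD_l7064 _))
              (CovZ.n1 (26376, 25608) (by decide +kernel)
               (CovZ.n2 (26400, 25608) (by decide +kernel)
                (CovZ.leaf K2_ok TD_l16470 _)
                (CovZ.leaf K2_ok TD_l16471 _))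
               (CovZ.leaf K2_ok TD_l16472 _)))
             (CovZ.n1 (26352, 25536) (by decide +kernel)
              (CovZ.leaf K2_ok TD_l7065 _)
              (CovZ.n1 (26376, 25560) (by decide +kernel)
               (CovZ.leaf K2_ok TD_l7066 _)
               (CovZ.leaf K2_ok TD_l7067 _))))
            (CovZ.n1 (26448, 25584) (by decide +kernel)
             (CovZ.n2 (26448, 25536) (by decide +kernel)
              (CovZ.leaf K2_ok TD_l7068 _)
              (CovZ.n1 (26472, 25560) (by decide +kernel)
               (CovZ.leaf K2_ok TD_l7069 _)
               (CovZ.leaf K2_ok TD_l7070 _)))
             (CovZ.n1 (26400, 25584) (by decide +kernel)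
              (CovZ.n2 (26424, 25608) (by decide +kernel)
               (CovZ.leaf K2_ok TD_l16473 _)
               (CovZ.leaf K2_ok TD_l16474 _))
              (CovZ.leaf K2_ok TD_l7071 _)))))))
        (CovZ.n1 (26304, 25344) (by decide +kernel)
         (CovZ.n2 (26208, 25440) (by decide +kernel)
          (CovZ.subM 920574468367935456340222304786254204890157760768568882515707359206154566907509284442688134009746876293633 (by decide +kernel)
           (CovZ.n2 (26304, 25440) (by decide +kernel)
            (CovZ.n2 (26256, 25392) (by decide +kernel)
             (CovZ.leaf K2_ok TD_l7072 _)
             (CovZ.leaf K2_ok TD_l7073 _))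
            (CovZ.n1 (26256, 25488) (by decide +kernel)
             (CovZ.n2 (26304, 25488) (by decide +kernel)
              (CovZ.leaf K2_ok TD_l7074 _)
              (CovZ.leaf K2_ok TD_l7075 _))
             (CovZ.leaf K2_ok TD_l7076 _))))
          (CovZ.n1 (26208, 25344) (by decide +kernel)
           (CovZ.leaf K2_ok TD_l7077 _)
           (CovZ.n1 (26256, 25392) (by decide +kernel)
            (CovZ.leaf K2_ok TD_l7078 _)
            (CovZ.leaf K2_ok TD_l7079 _))))
         (CovZ.n1 (26400, 25440) (by decide +kernel)
          (CovZ.n2 (26400, 25344) (by decide +kernel)
           (CovZ.leaf K2_ok TD_l7080 _)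
           (CovZ.n1 (26448, 25392) (by decide +kernel)
            (CovZ.leaf K2_ok TD_l7081 _)
            (CovZ.leaf K2_ok TD_l7082 _)))
          (CovZ.n1 (26304, 25440) (by decide +kernel)
           (CovZ.n2 (26352, 25488) (by decide +kernel)
            (CovZ.leaf K2_ok TD_l7083 _)
            (CovZ.leaf K2_ok TD_l7084 _))
           (CovZ.leaf K2_ok TD_l7085 _)))))

theorem TD_u86 : CovZ TD_M (toL (selN TD_LN 5517161974557295902613003683370825805886061207338665655372711649586112219641912282232169881666626536009221)) [0, 7, 6, 1] (26496, 25344) (26880, 25344) (26496, 25728) :=
    (CovZ.subM 5223719041477756985544800010490790794341823775278056814225523759688849946126309105334272785180957094240769 (by decide +kernel)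
        (CovZ.n1 (26688, 25536) (by decide +kernel)
         (CovZ.n2 (26688, 25344) (by decide +kernel)
          (CovZ.n2 (26592, 25440) (by decide +kernel)
           (CovZ.n2 (26688, 25440) (by decide +kernel)
            (CovZ.n2 (26640, 25392) (by decide +kernel)
             (CovZ.leaf K2_ok TD_l7086 _)
             (CovZ.leaf K2_ok TD_l7087 _))
            (CovZ.n1 (26640, 25488) (by decide +kernel)
             (CovZ.n2 (26688, 25488) (by decide +kernel)
              (CovZ.leaf K2_ok TD_l7088 _)
              (CovZ.leaf K2_ok TD_l7089 _))
             (CovZ.leaf K2_ok TD_l7090 _)))
           (CovZ.n1 (26592, 25344) (by decide +kernel)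
            (CovZ.leaf K2_ok TD_l7091 _)
            (CovZ.leaf K2_ok TD_l7092 _)))
          (CovZ.n1 (26784, 25440) (by decide +kernel)
           (CovZ.n2 (26784, 25344) (by decide +kernel)
            (CovZ.leaf K2_ok TD_l7093 _)
            (CovZ.n1 (26832, 25392) (by decide +kernel)
             (CovZ.leaf K2_ok TD_l7094 _)
             (CovZ.leaf K2_ok TD_l7095 _)))
           (CovZ.n1 (26688, 25440) (by decide +kernel)
            (CovZ.n2 (26736, 25488) (by decide +kernel)
             (CovZ.leaf K2_ok TD_l7096 _)
             (CovZ.leaf K2_ok TD_l7097 _))
            (CovZ.leaf K2_ok TD_l7098 _))))
         (CovZ.n1 (26496, 25536) (by decide +kernel)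
          (CovZ.n2 (26592, 25632) (by decide +kernel)
           (CovZ.n2 (26592, 25536) (by decide +kernel)
            (CovZ.n2 (26544, 25584) (by decide +kernel)
             (CovZ.n2 (26592, 25584) (by decide +kernel)
              (CovZ.n2 (26568, 25560) (by decide +kernel)
               (CovZ.leaf K2_ok TD_l7099 _)
               (CovZ.leaf K2_ok TD_l7100 _))
              (CovZ.n1 (26568, 25608) (by decide +kernel)
               (CovZ.n2 (26592, 25608) (by decide +kernel)
                (CovZ.leaf K2_ok TD_l16475 _)
                (CovZ.leaf K2_ok TD_l16476 _))
               (CovZ.leaf K2_ok TD_l16477 _)))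
             (CovZ.n1 (26544, 25536) (by decide +kernel)
              (CovZ.leaf K2_ok TD_l7101 _)
              (CovZ.n1 (26568, 25560) (by decide +kernel)
               (CovZ.leaf K2_ok TD_l7102 _)
               (CovZ.leaf K2_ok TD_l7103 _))))
            (CovZ.subM 5161006188696778467649168741486357035866290361894260266447570924308739078004071848603617104024793042124800 (by decide +kernel)
             (CovZ.n1 (26640, 25584) (by decide +kernel)
              (CovZ.n2 (26640, 25536) (by decide +kernel)
               (CovZ.leaf K2_ok TD_l7104 _)
               (CovZ.n1 (26664, 25560) (by decide +kernel)
                (CovZ.leaf K2_ok TD_l7105 _)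
                (CovZ.leaf K2_ok TD_l7106 _)))
              (CovZ.n1 (26592, 25584) (by decide +kernel)
               (CovZ.n2 (26616, 25608) (by decide +kernel)
                (CovZ.leaf K2_ok TD_l16478 _)
                (CovZ.leaf K2_ok TD_l16479 _))
               (CovZ.leaf K2_ok TD_l7107 _)))))
           (CovZ.n1 (26496, 25632) (by decide +kernel)
            (CovZ.subM 5187883125594568418785178093028519606293589222372301767907515917643910025102339765152979520443975691403264 (by decide +kernel)
             (CovZ.n2 (26544, 25680) (by decide +kernel)
              (CovZ.n2 (26544, 25632) (by decide +kernel)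
               (CovZ.n2 (26520, 25656) (by decide +kernel)
                (CovZ.n2 (26544, 25656) (by decide +kernel)
                 (CovZ.n2 (26532, 25644) (by decide +kernel)
                  (CovZ.n2 (26532, 25656) (by decide +kernel)
                   (CovZ.leaf K2_ok TD_l16480 _)
                   (CovZ.leaf K2_ok TD_l16481 _))
                  (CovZ.n1 (26544, 25644) (by decide +kernel)
                   (CovZ.leaf K2_ok TD_l16482 _)
                   (CovZ.leaf K2_ok TD_l16483 _)))
                 (CovZ.subM 5169895175633431320194432833868328613698394758985629532624790553244609457392805250663366920829453534756864 (by decide +kernel)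
                  (CovZ.n1 (26532, 25668) (by decide +kernel)
                   (CovZ.n2 (26544, 25668) (by decide +kernel)
                    (CovZ.leaf K2_ok TD_l16484 _)
                    (CovZ.n1 (26538, 25674) (by decide +kernel)
                     (CovZ.leaf K2_ok TD_l16485 _)
                     (CovZ.leaf K2_ok TD_l16486 _)))
                   (CovZ.n1 (26532, 25656) (by decide +kernel)
                    (CovZ.leaf K2_ok TD_l16487 _)
                    (CovZ.leaf K2_ok TD_l16488 _)))))
                (CovZ.n1 (26520, 25632) (by decide +kernel)
                 (CovZ.n2 (26508, 25644) (by decide +kernel)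
                  (CovZ.leaf K2_ok TD_l16489 _)
                  (CovZ.leaf K2_ok TD_l16490 _))
                 (CovZ.n1 (26532, 25644) (by decide +kernel)
                  (CovZ.leaf K2_ok TD_l16491 _)
                  (CovZ.leaf K2_ok TD_l16492 _))))
               (CovZ.n1 (26568, 25656) (by decide +kernel)
                (CovZ.n2 (26568, 25632) (by decide +kernel)
                 (CovZ.leaf K2_ok TD_l16493 _)
                 (CovZ.n1 (26580, 25644) (by decide +kernel)
                  (CovZ.leaf K2_ok TD_l16494 _)
                  (CovZ.leaf K2_ok TD_l16495 _)))
                (CovZ.n1 (26544, 25656) (by decide +kernel)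
                 (CovZ.subM 5169335239447886869141793473298186502736704134380357057185920508538819662890881450774821678491974626181120 (by decide +kernel)
                  (CovZ.n2 (26556, 25668) (by decide +kernel)
                   (CovZ.n2 (26556, 25656) (by decide +kernel)
                    (CovZ.leaf K2_ok TD_l16496 _)
                    (CovZ.n1 (26562, 25662) (by decide +kernel)
                     (CovZ.leaf K2_ok TD_l16497 _)
                     (CovZ.leaf K2_ok TD_l16498 _)))
                   (CovZ.leaf K2_ok TD_l16499 _)))
                 (CovZ.n1 (26556, 25644) (by decide +kernel)
                  (CovZ.leaf K2_ok TD_l16500 _)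
                  (CovZ.leaf K2_ok TD_l16501 _)))))
              (CovZ.n1 (26496, 25680) (by decide +kernel)
               (CovZ.badM (by decide +kernel))
               (CovZ.n1 (26520, 25656) (by decide +kernel)
                (CovZ.n2 (26496, 25656) (by decide +kernel)
                 (CovZ.subM 5169895175633431320194432804225553768945448730551457370400686142807493382988820856562225414803692346933248 (by decide +kernel)
                  (CovZ.n2 (26508, 25668) (by decide +kernel)
                   (CovZ.n2 (26508, 25656) (by decide +kernel)
                    (CovZ.leaf K2_ok TD_l16502 _)
                    (CovZ.n1 (26514, 25662) (by decide +kernel)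
                     (CovZ.leaf K2_ok TD_l16503 _)
                     (CovZ.leaf K2_ok TD_l16504 _)))
                   (CovZ.leaf K2_ok TD_l16505 _)))
                 (CovZ.n1 (26508, 25644) (by decide +kernel)
                  (CovZ.leaf K2_ok TD_l16506 _)
                  (CovZ.leaf K2_ok TD_l16507 _)))
                (CovZ.subM 5169895175633431320194432804225553768945448730551457370400686142807493382988820856562225414803692346933248 (by decide +kernel)
                 (CovZ.n1 (26520, 25680) (by decide +kernel)
                  (CovZ.n2 (26532, 25668) (by decide +kernel)
                   (CovZ.n2 (26520, 25668) (by decide +kernel)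
                    (CovZ.n2 (26526, 25674) (by decide +kernel)
                     (CovZ.leaf K2_ok TD_l16508 _)
                     (CovZ.leaf K2_ok TD_l16509 _))
                    (CovZ.leaf K2_ok TD_l16510 _))
                   (CovZ.subM 573379028499032629077921883928849154097611190536257309308383326298107269527766119092237812086584834523136 (by decide +kernel)
                    (CovZ.n1 (26532, 25680) (by decide +kernel)
                     (CovZ.n2 (26538, 25674) (by decide +kernel)
                      (CovZ.n2 (26532, 25674) (by decide +kernel)
                       (CovZ.leaf K2_ok TD_l16511 _)
                       (CovZ.leaf K2_ok TD_l16512 _))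
                      (CovZ.n1 (26538, 25680) (by decide +kernel)
                       (CovZ.leaf K2_ok TD_l16513 _)
                       (CovZ.leaf K2_ok TD_l16514 _)))
                     (CovZ.n1 (26526, 25674) (by decide +kernel)
                      (CovZ.n2 (26526, 25680) (by decide +kernel)
                       (CovZ.leaf K2_ok TD_l16515 _)
                       (CovZ.leaf K2_ok TD_l16516 _))
                      (CovZ.n1 (26532, 25674) (by decide +kernel)
                       (CovZ.leaf K2_ok TD_l16517 _)
                       (CovZ.leaf K2_ok TD_l16518 _))))))
                  (CovZ.n1 (26508, 25668) (by decide +kernel)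
                   (CovZ.subM 582338007467743845920030236245358823142744056989345208769891835573119722292683865424729514851742676680704 (by decide +kernel)
                    (CovZ.n2 (26508, 25680) (by decide +kernel)
                     (CovZ.n2 (26514, 25674) (by decide +kernel)
                      (CovZ.leaf K2_ok TD_l16519 _)
                      (CovZ.leaf K2_ok TD_l16520 _))
                     (CovZ.n1 (26502, 25674) (by decide +kernel)
                      (CovZ.leaf K2_ok TD_l16521 _)
                      (CovZ.n1 (26508, 25674) (by decide +kernel)
                       (CovZ.leaf K2_ok TD_l16522 _)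
                       (CovZ.leaf K2_ok TD_l16523 _)))))
                   (CovZ.n1 (26520, 25668) (by decide +kernel)
                    (CovZ.leaf K2_ok TD_l16524 _)
                    (CovZ.n1 (26514, 25674) (by decide +kernel)
                     (CovZ.n2 (26520, 25674) (by decide +kernel)
                      (CovZ.leaf K2_ok TD_l16525 _)
                      (CovZ.leaf K2_ok TD_l16526 _))
                     (CovZ.leaf K2_ok TD_l16527 _))))))))))
            (CovZ.n1 (26544, 25584) (by decide +kernel)
             (CovZ.n2 (26496, 25584) (by decide +kernel)
              (CovZ.n2 (26520, 25608) (by decide +kernel)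
               (CovZ.leaf K2_ok TD_l16528 _)
               (CovZ.n1 (26496, 25608) (by decide +kernel)
                (CovZ.n2 (26508, 25620) (by decide +kernel)
                 (CovZ.leaf K2_ok TD_l16529 _)
                 (CovZ.leaf K2_ok TD_l16530 _))
                (CovZ.leaf K2_ok TD_l16531 _)))
              (CovZ.leaf K2_ok TD_l7108 _))
             (CovZ.n1 (26544, 25632) (by decide +kernel)
              (CovZ.n2 (26568, 25608) (by decide +kernel)
               (CovZ.n2 (26544, 25608) (by decide +kernel)
                (CovZ.n2 (26556, 25620) (by decide +kernel)
                 (CovZ.leaf K2_ok TD_l16532 _)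
                 (CovZ.leaf K2_ok TD_l16533 _))
                (CovZ.leaf K2_ok TD_l16534 _))
               (CovZ.n1 (26568, 25632) (by decide +kernel)
                (CovZ.leaf K2_ok TD_l16535 _)
                (CovZ.leaf K2_ok TD_l16536 _)))
              (CovZ.n1 (26520, 25608) (by decide +kernel)
               (CovZ.n2 (26520, 25632) (by decide +kernel)
                (CovZ.leaf K2_ok TD_l16537 _)
                (CovZ.n1 (26508, 25620) (by decide +kernel)
                 (CovZ.leaf K2_ok TD_l16538 _)
                 (CovZ.leaf K2_ok TD_l16539 _)))
               (CovZ.n1 (26544, 25608) (by decide +kernel)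
                (CovZ.leaf K2_ok TD_l16540 _)
                (CovZ.leaf K2_ok TD_l16541 _)))))))
          (CovZ.n1 (26592, 25440) (by decide +kernel)
           (CovZ.n2 (26496, 25440) (by decide +kernel)
            (CovZ.n2 (26544, 25488) (by decide +kernel)
             (CovZ.leaf K2_ok TD_l7109 _)
             (CovZ.leaf K2_ok TD_l7110 _))
            (CovZ.leaf K2_ok TD_l7111 _))
           (CovZ.n1 (26592, 25536) (by decide +kernel)
            (CovZ.n2 (26640, 25488) (by decide +kernel)
             (CovZ.leaf K2_ok TD_l7112 _)
             (CovZ.leaf K2_ok TD_l7113 _))
            (CovZ.n1 (26544, 25488) (by decide +kernel)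
             (CovZ.leaf K2_ok TD_l7114 _)
             (CovZ.n1 (26592, 25488) (by decide +kernel)
              (CovZ.leaf K2_ok TD_l7115 _)
              (CovZ.leaf K2_ok TD_l7116 _))))))))

theorem TD_u87 : CovZ TD_M (toL (selN TD_LN 5517161974557295902613003683370825805886061207338665655372711649586112219641912282232169881666626536009221)) [0, 7, 6, 1] (26496, 25728) (26304, 25728) (26304, 25536) :=
    (CovZ.subM 925648881238550705982391717998231404065942794590655035014716469886579129973477164011062452074884003528704 (by decide +kernel)
          (CovZ.n2 (26400, 25632) (by decide +kernel)
           (CovZ.n2 (26304, 25632) (by decide +kernel)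
            (CovZ.subM 636157498802211060736236114553693500785948056047903836929568867065855100437727640405851172313266560958464 (by decide +kernel)
             (CovZ.n2 (26352, 25680) (by decide +kernel)
              (CovZ.n2 (26352, 25632) (by decide +kernel)
               (CovZ.n2 (26328, 25656) (by decide +kernel)
                (CovZ.n2 (26352, 25656) (by decide +kernel)
                 (CovZ.n2 (26340, 25644) (by decide +kernel)
                  (CovZ.leaf K2_ok TD_l16584 _)
                  (CovZ.leaf K2_ok TD_l16585 _))
                 (CovZ.subM 35835915874844867369003144324920253832618495128462295314917203983043572897274171726824757771709026664448 (by decide +kernel)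
                  (CovZ.n1 (26340, 25668) (by decide +kernel)
                   (CovZ.n2 (26352, 25668) (by decide +kernel)
                    (CovZ.leaf K2_ok TD_l16586 _)
                    (CovZ.subM 35835915874844867368919077415431822348475891344322272627903088441580547264007087441754711955650750971904 (by decide +kernel)
                     (CovZ.n1 (26346, 25674) (by decide +kernel)
                      (CovZ.badM (by decide +kernel))
                      (CovZ.n1 (26346, 25668) (by decide +kernel)
                       (CovZ.leaf K2_ok TD_l18382 _)
                       (CovZ.n1 (26349, 25671) (by decide +kernel)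
                        (CovZ.leaf K2_ok TD_l18383 _)
                        (CovZ.leaf K2_ok TD_l18384 _))))))
                   (CovZ.n1 (26340, 25656) (by decide +kernel)
                    (CovZ.n2 (26334, 25662) (by decide +kernel)
                     (CovZ.n2 (26340, 25662) (by decide +kernel)
                      (CovZ.leaf K2_ok TD_l16587 _)
                      (CovZ.leaf K2_ok TD_l18385 _))
                     (CovZ.leaf K2_ok TD_l16588 _))
                    (CovZ.leaf K2_ok TD_l16589 _)))))
                (CovZ.n1 (26328, 25632) (by decide +kernel)
                 (CovZ.n2 (26316, 25644) (by decide +kernel)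
                  (CovZ.n2 (26328, 25644) (by decide +kernel)
                   (CovZ.leaf K2_ok TD_l16590 _)
                   (CovZ.leaf K2_ok TD_l16591 _))
                  (CovZ.leaf K2_ok TD_l16592 _))
                 (CovZ.n1 (26340, 25644) (by decide +kernel)
                  (CovZ.leaf K2_ok TD_l16593 _)
                  (CovZ.leaf K2_ok TD_l16594 _))))
               (CovZ.n1 (26376, 25656) (by decide +kernel)
                (CovZ.n2 (26376, 25632) (by decide +kernel)
                 (CovZ.n2 (26364, 25644) (by decide +kernel)
                  (CovZ.n2 (26376, 25644) (by decide +kernel)
                   (CovZ.leaf K2_ok TD_l16595 _)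
                   (CovZ.leaf K2_ok TD_l16596 _))
                  (CovZ.leaf K2_ok TD_l16597 _))
                 (CovZ.n1 (26388, 25644) (by decide +kernel)
                  (CovZ.leaf K2_ok TD_l16598 _)
                  (CovZ.leaf K2_ok TD_l16599 _)))
                (CovZ.n1 (26352, 25656) (by decide +kernel)
                 (CovZ.subM 35835915874844867369003144324920364260560043777482894271011000415450812115017726453009640372096607453184 (by decide +kernel)
                  (CovZ.n2 (26364, 25668) (by decide +kernel)
                   (CovZ.n2 (26364, 25656) (by decide +kernel)
                    (CovZ.leaf K2_ok TD_l16600 _)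
                    (CovZ.leaf K2_ok TD_l16601 _))
                   (CovZ.n1 (26352, 25668) (by decide +kernel)
                    (CovZ.badM (by decide +kernel))
                    (CovZ.leaf K2_ok TD_l16602 _))))
                 (CovZ.n1 (26364, 25644) (by decide +kernel)
                  (CovZ.leaf K2_ok TD_l16603 _)
                  (CovZ.leaf K2_ok TD_l16604 _)))))
              (CovZ.n1 (26304, 25680) (by decide +kernel)
               (CovZ.badM (by decide +kernel))
               (CovZ.n1 (26328, 25656) (by decide +kernel)
                (CovZ.n2 (26304, 25656) (by decide +kernel)
                 (CovZ.subM 35835915874844867368927140250217864704517101991237760416872434203081386958646920401640404744524999426048 (by decide +kernel)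
                  (CovZ.n2 (26316, 25668) (by decide +kernel)
                   (CovZ.n2 (26316, 25656) (by decide +kernel)
                    (CovZ.n2 (26310, 25662) (by decide +kernel)
                     (CovZ.leaf K2_ok TD_l16605 _)
                     (CovZ.leaf K2_ok TD_l16606 _))
                    (CovZ.n1 (26322, 25662) (by decide +kernel)
                     (CovZ.leaf K2_ok TD_l16607 _)
                     (CovZ.n1 (26316, 25662) (by decide +kernel)
                      (CovZ.leaf K2_ok TD_l18386 _)
                      (CovZ.leaf K2_ok TD_l16608 _))))
                   (CovZ.subM 35835915874844867368926665039483634757166086964109962832985192884782434559839115276897428711115843436544 (by decide +kernel)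
                    (CovZ.n1 (26304, 25668) (by decide +kernel)
                     (CovZ.badM (by decide +kernel))
                     (CovZ.n1 (26310, 25662) (by decide +kernel)
                      (CovZ.leaf K2_ok TD_l18387 _)
                      (CovZ.n1 (26310, 25668) (by decide +kernel)
                       (CovZ.leaf K2_ok TD_l18388 _)
                       (CovZ.leaf K2_ok TD_l18389 _)))))))
                 (CovZ.n1 (26316, 25644) (by decide +kernel)
                  (CovZ.leaf K2_ok TD_l16609 _)
                  (CovZ.n1 (26316, 25656) (by decide +kernel)
                   (CovZ.leaf K2_ok TD_l16610 _)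
                   (CovZ.leaf K2_ok TD_l16611 _))))
                (CovZ.subM 35835915874844867368942317350938819924649854883467214982705763736140438669630919090831020335803488272384 (by decide +kernel)
                 (CovZ.n1 (26328, 25680) (by decide +kernel)
                  (CovZ.n2 (26340, 25668) (by decide +kernel)
                   (CovZ.n2 (26328, 25668) (by decide +kernel)
                    (CovZ.n2 (26334, 25674) (by decide +kernel)
                     (CovZ.leaf K2_ok TD_l18390 _)
                     (CovZ.n1 (26328, 25674) (by decide +kernel)
                      (CovZ.badM (by decide +kernel))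
                      (CovZ.leaf K2_ok TD_l18391 _)))
                    (CovZ.n1 (26334, 25662) (by decide +kernel)
                     (CovZ.leaf K2_ok TD_l16612 _)
                     (CovZ.leaf K2_ok TD_l18392 _)))
                   (CovZ.subM 35835915874844867368919077415431822348475891344322272627903088441580547264007087441754711955650750971904 (by decide +kernel)
                    (CovZ.n1 (26340, 25680) (by decide +kernel)
                     (CovZ.n2 (26346, 25674) (by decide +kernel)
                      (CovZ.leaf K2_ok TD_l18393 _)
                      (CovZ.badM (by decide +kernel)))
                     (CovZ.n1 (26334, 25674) (by decide +kernel)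
                      (CovZ.badM (by decide +kernel))
                      (CovZ.n1 (26340, 25674) (by decide +kernel)
                       (CovZ.leaf K2_ok TD_l18394 _)
                       (CovZ.badM (by decide +kernel)))))))
                  (CovZ.n1 (26316, 25668) (by decide +kernel)
                   (CovZ.badM (by decide +kernel))
                   (CovZ.n1 (26328, 25668) (by decide +kernel)
                    (CovZ.n2 (26322, 25662) (by decide +kernel)
                     (CovZ.leaf K2_ok TD_l18395 _)
                     (CovZ.leaf K2_ok TD_l16613 _))
                    (CovZ.n1 (26322, 25674) (by decide +kernel)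
                     (CovZ.n2 (26328, 25674) (by decide +kernel)
                      (CovZ.leaf K2_ok TD_l18396 _)
                      (CovZ.badM (by decide +kernel)))
                     (CovZ.leaf K2_ok TD_l18397 _))))))))))
            (CovZ.n1 (26352, 25584) (by decide +kernel)
             (CovZ.n2 (26304, 25584) (by decide +kernel)
              (CovZ.n2 (26328, 25608) (by decide +kernel)
               (CovZ.leaf K2_ok TD_l16614 _)
               (CovZ.leaf K2_ok TD_l16615 _))
              (CovZ.leaf K2_ok TD_l7135 _))
             (CovZ.n1 (26352, 25632) (by decide +kernel)
              (CovZ.n2 (26376, 25608) (by decide +kernel)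
               (CovZ.leaf K2_ok TD_l16616 _)
               (CovZ.n1 (26376, 25632) (by decide +kernel)
                (CovZ.leaf K2_ok TD_l16617 _)
                (CovZ.leaf K2_ok TD_l16618 _)))
              (CovZ.n1 (26328, 25608) (by decide +kernel)
               (CovZ.n2 (26328, 25632) (by decide +kernel)
                (CovZ.leaf K2_ok TD_l16619 _)
                (CovZ.leaf K2_ok TD_l16620 _))
               (CovZ.n1 (26352, 25608) (by decide +kernel)
                (CovZ.leaf K2_ok TD_l16621 _)
                (CovZ.leaf K2_ok TD_l16622 _))))))
           (CovZ.n1 (26400, 25728) (by decide +kernel)
            (CovZ.n2 (26448, 25680) (by decide +kernel)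
             (CovZ.subM 636157498802211060736236114553693500784263059356098515000855449992386916195138867831103396593251070771200 (by decide +kernel)
              (CovZ.n2 (26400, 25680) (by decide +kernel)
               (CovZ.badM (by decide +kernel))
               (CovZ.n1 (26424, 25656) (by decide +kernel)
                (CovZ.n2 (26400, 25656) (by decide +kernel)
                 (CovZ.subM 118571099379874502407085515252307925588088525912560434799162598818454849013678080 (by decide +kernel)
                  (CovZ.n2 (26412, 25668) (by decide +kernel)
                   (CovZ.n2 (26412, 25656) (by decide +kernel)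
                    (CovZ.leaf K2_ok TD_l18398 _)
                    (CovZ.badM (by decide +kernel)))
                   (CovZ.n1 (26400, 25668) (by decide +kernel)
                    (CovZ.badM (by decide +kernel))
                    (CovZ.leaf K2_ok TD_l18399 _))))
                 (CovZ.leaf K2_ok TD_l16623 _))
                (CovZ.n1 (26424, 25680) (by decide +kernel)
                 (CovZ.badM (by decide +kernel))
                 (CovZ.n1 (26412, 25668) (by decide +kernel)
                  (CovZ.badM (by decide +kernel))
                  (CovZ.badM (by decide +kernel)))))))
             (CovZ.badM (by decide +kernel)))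
            (CovZ.subM 636157498802211060736236114553693500785948056047903836929568867065855100437727640405851172313266560958464 (by decide +kernel)
             (CovZ.n1 (26352, 25680) (by decide +kernel)
              (CovZ.badM (by decide +kernel))
              (CovZ.n1 (26400, 25680) (by decide +kernel)
               (CovZ.n2 (26376, 25656) (by decide +kernel)
                (CovZ.subM 35835915874844867369002669114157864761857545581878377711980875227787027125191258260507025672706518417408 (by decide +kernel)
                 (CovZ.n2 (26376, 25680) (by decide +kernel)
                  (CovZ.n2 (26388, 25668) (by decide +kernel)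
                   (CovZ.n2 (26376, 25668) (by decide +kernel)
                    (CovZ.badM (by decide +kernel))
                    (CovZ.leaf K2_ok TD_l18400 _))
                   (CovZ.badM (by decide +kernel)))
                  (CovZ.n1 (26364, 25668) (by decide +kernel)
                   (CovZ.badM (by decide +kernel))
                   (CovZ.n1 (26376, 25668) (by decide +kernel)
                    (CovZ.n2 (26370, 25662) (by decide +kernel)
                     (CovZ.leaf K2_ok TD_l16624 _)
                     (CovZ.leaf K2_ok TD_l18401 _))
                    (CovZ.badM (by decide +kernel))))))
                (CovZ.n1 (26400, 25656) (by decide +kernel)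
                 (CovZ.n2 (26388, 25644) (by decide +kernel)
                  (CovZ.leaf K2_ok TD_l16625 _)
                  (CovZ.leaf K2_ok TD_l16626 _))
                 (CovZ.subM 35835915874844867369002669114157864760172548915181462724814186784848300208088936734098239892637542776832 (by decide +kernel)
                  (CovZ.n1 (26388, 25668) (by decide +kernel)
                   (CovZ.n2 (26400, 25668) (by decide +kernel)
                    (CovZ.n2 (26394, 25662) (by decide +kernel)
                     (CovZ.leaf K2_ok TD_l18402 _)
                     (CovZ.leaf K2_ok TD_l18403 _))
                    (CovZ.badM (by decide +kernel)))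
                   (CovZ.n1 (26388, 25656) (by decide +kernel)
                    (CovZ.leaf K2_ok TD_l18404 _)
                    (CovZ.n1 (26394, 25662) (by decide +kernel)
                     (CovZ.leaf K2_ok TD_l18405 _)
                     (CovZ.leaf K2_ok TD_l18406 _)))))))
               (CovZ.badM (by decide +kernel))))))))

end Pool.Agent.TET
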