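import Pool.Agent.Helper38_TET.TD_M
import Pool.Agent.Helper38_TET.TD_L
import Pool.Agent.Helper38_TET.TD_47
import Pool.Agent.Helper38_TET.TD_48
import Pool.Agent.Helper38_TET.TD_59
import Pool.Agent.Helper38_TET.TD_60
import Pool.Agent.Helper38_TET.TD_72
import Pool.Agent.Helper38_TET.TD_73
import Pool.Agent.Helper38_TET.TD_111
import Pool.Agent.Helper38_TET.TD_112
import Pool.Agent.Helper38_TET.TD_113
import Pool.Agent.Helper38_TET.TD_117
import Pool.Agent.Helper38_TET.TD_118
import Pool.Agent.Helper38_TET.TD_120
import Pool.Agent.Helper38_TET.TD_123
import Pool.Agent.Helper38_TET.TD_125

/-!
# MP_c7c9bf_co: certificates, family TD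
-/

set_option autoImplicit false
set_option maxRecDepth 100000

namespace Pool.Agent.TET

theorem TD_u88 : CovZ TD_M (toL (selN TD_LN 5517161974557295902613003683370825805886061207338665655372711649586112219641912282232169881666626536009221)) [0, 7, 6, 1] (26304, 25728) (26112, 25728) (26304, 25536) :=
    (CovZ.subM 920575561993297847908349895588591093970261778555149296036714849649362586910483163483059340693962854760448 (by decide +kernel)
          (CovZ.n1 (26208, 25632) (by decide +kernel)
           (CovZ.subM 20192698958716754194405688492693532451395162722975882407189888541195782703712315085917106579486223106048 (by decide +kernel)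
            (CovZ.n2 (26208, 25728) (by decide +kernel)
             (CovZ.n2 (26256, 25680) (by decide +kernel)
              (CovZ.n2 (26208, 25680) (by decide +kernel)
               (CovZ.badM (by decide +kernel))
               (CovZ.n1 (26232, 25656) (by decide +kernel)
                (CovZ.n2 (26208, 25656) (by decide +kernel)
                 (CovZ.badM (by decide +kernel))
                 (CovZ.n1 (26220, 25644) (by decide +kernel)
                  (CovZ.leaf K2_ok TD_l16627 _)
                  (CovZ.n1 (26220, 25656) (by decide +kernel)
                   (CovZ.leaf K2_ok TD_l16628 _)
                   (CovZ.leaf K2_ok TD_l16629 _))))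
                (CovZ.badM (by decide +kernel))))
              (CovZ.badM (by decide +kernel)))
             (CovZ.n1 (26160, 25680) (by decide +kernel)
              (CovZ.badM (by decide +kernel))
              (CovZ.n1 (26208, 25680) (by decide +kernel)
               (CovZ.n2 (26184, 25656) (by decide +kernel)
                (CovZ.badM (by decide +kernel))
                (CovZ.n1 (26208, 25656) (by decide +kernel)
                 (CovZ.n2 (26196, 25644) (by decide +kernel)
                  (CovZ.n2 (26196, 25656) (by decide +kernel)
                   (CovZ.leaf K2_ok TD_l16630 _)
                   (CovZ.leaf K2_ok TD_l18407 _))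
                  (CovZ.n1 (26208, 25644) (by decide +kernel)
                   (CovZ.leaf K2_ok TD_l16631 _)
                   (CovZ.leaf K2_ok TD_l16632 _)))
                 (CovZ.badM (by decide +kernel))))
               (CovZ.badM (by decide +kernel))))))
           (CovZ.n1 (26304, 25632) (by decide +kernel)
            (CovZ.n2 (26256, 25584) (by decide +kernel)
             (CovZ.n2 (26256, 25632) (by decide +kernel)
              (CovZ.n2 (26280, 25608) (by decide +kernel)
               (CovZ.n2 (26256, 25608) (by decide +kernel)
                (CovZ.n2 (26268, 25620) (by decide +kernel)
                 (CovZ.leaf K2_ok TD_l16633 _)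
                 (CovZ.leaf K2_ok TD_l16634 _))
                (CovZ.leaf K2_ok TD_l16635 _))
               (CovZ.n1 (26280, 25632) (by decide +kernel)
                (CovZ.leaf K2_ok TD_l16636 _)
                (CovZ.n1 (26268, 25620) (by decide +kernel)
                 (CovZ.leaf K2_ok TD_l16637 _)
                 (CovZ.leaf K2_ok TD_l16638 _))))
              (CovZ.n1 (26232, 25608) (by decide +kernel)
               (CovZ.n2 (26232, 25632) (by decide +kernel)
                (CovZ.leaf K2_ok TD_l16639 _)
                (CovZ.n1 (26220, 25620) (by decide +kernel)
                 (CovZ.leaf K2_ok TD_l16640 _)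
                 (CovZ.leaf K2_ok TD_l16641 _)))
               (CovZ.n1 (26256, 25608) (by decide +kernel)
                (CovZ.leaf K2_ok TD_l16642 _)
                (CovZ.n1 (26244, 25620) (by decide +kernel)
                 (CovZ.leaf K2_ok TD_l16643 _)
                 (CovZ.leaf K2_ok TD_l16644 _)))))
             (CovZ.n1 (26304, 25584) (by decide +kernel)
              (CovZ.n2 (26280, 25560) (by decide +kernel)
               (CovZ.leaf K2_ok TD_l7136 _)
               (CovZ.leaf K2_ok TD_l7137 _))
              (CovZ.n1 (26280, 25608) (by decide +kernel)
               (CovZ.n2 (26304, 25608) (by decide +kernel)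
                (CovZ.leaf K2_ok TD_l16645 _)
                (CovZ.leaf K2_ok TD_l16646 _))
               (CovZ.leaf K2_ok TD_l16647 _))))
            (CovZ.subM 56028614566563242011053663892310353613610446967708942537856320344564338613585806963287909917944035934208 (by decide +kernel)
             (CovZ.n1 (26256, 25680) (by decide +kernel)
              (CovZ.n2 (26304, 25680) (by decide +kernel)
               (CovZ.n2 (26280, 25656) (by decide +kernel)
                (CovZ.n2 (26280, 25680) (by decide +kernel)
                 (CovZ.n2 (26292, 25668) (by decide +kernel)
                  (CovZ.badM (by decide +kernel))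
                  (CovZ.badM (by decide +kernel)))
                 (CovZ.badM (by decide +kernel)))
                (CovZ.n1 (26304, 25656) (by decide +kernel)
                 (CovZ.n2 (26292, 25644) (by decide +kernel)
                  (CovZ.n2 (26292, 25656) (by decide +kernel)
                   (CovZ.leaf K2_ok TD_l16648 _)
                   (CovZ.leaf K2_ok TD_l16649 _))
                  (CovZ.n1 (26304, 25644) (by decide +kernel)
                   (CovZ.leaf K2_ok TD_l16650 _)
                   (CovZ.leaf K2_ok TD_l16651 _)))
                 (CovZ.subM 35835915874844867368926665039483634757166086964109962832985192884782434559839115276897428711115843436544 (by decide +kernel)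
                  (CovZ.n1 (26292, 25668) (by decide +kernel)
                   (CovZ.n2 (26304, 25668) (by decide +kernel)
                    (CovZ.n2 (26298, 25662) (by decide +kernel)
                     (CovZ.leaf K2_ok TD_l18408 _)
                     (CovZ.n1 (26304, 25662) (by decide +kernel)
                      (CovZ.leaf K2_ok TD_l18409 _)
                      (CovZ.leaf K2_ok TD_l18410 _)))
                    (CovZ.badM (by decide +kernel)))
                   (CovZ.n1 (26292, 25656) (by decide +kernel)
                    (CovZ.n2 (26286, 25662) (by decide +kernel)
                     (CovZ.leaf K2_ok TD_l18411 _)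
                     (CovZ.leaf K2_ok TD_l18412 _))
                    (CovZ.n1 (26298, 25662) (by decide +kernel)
                     (CovZ.leaf K2_ok TD_l18413 _)
                     (CovZ.leaf K2_ok TD_l18414 _)))))))
               (CovZ.badM (by decide +kernel)))
              (CovZ.n1 (26256, 25632) (by decide +kernel)
               (CovZ.n2 (26232, 25656) (by decide +kernel)
                (CovZ.n2 (26256, 25656) (by decide +kernel)
                 (CovZ.n2 (26244, 25644) (by decide +kernel)
                  (CovZ.n2 (26244, 25656) (by decide +kernel)
                   (CovZ.leaf K2_ok TD_l16652 _)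
                   (CovZ.leaf K2_ok TD_l16653 _))
                  (CovZ.n1 (26256, 25644) (by decide +kernel)
                   (CovZ.leaf K2_ok TD_l16654 _)
                   (CovZ.leaf K2_ok TD_l16655 _)))
                 (CovZ.badM (by decide +kernel)))
                (CovZ.n1 (26232, 25632) (by decide +kernel)
                 (CovZ.n2 (26220, 25644) (by decide +kernel)
                  (CovZ.n2 (26232, 25644) (by decide +kernel)
                   (CovZ.leaf K2_ok TD_l16656 _)
                   (CovZ.leaf K2_ok TD_l16657 _))
                  (CovZ.leaf K2_ok TD_l16658 _))
                 (CovZ.n1 (26244, 25644) (by decide +kernel)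
                  (CovZ.leaf K2_ok TD_l16659 _)
                  (CovZ.leaf K2_ok TD_l16660 _))))
               (CovZ.n1 (26280, 25656) (by decide +kernel)
                (CovZ.n2 (26280, 25632) (by decide +kernel)
                 (CovZ.n2 (26268, 25644) (by decide +kernel)
                  (CovZ.n2 (26280, 25644) (by decide +kernel)
                   (CovZ.leaf K2_ok TD_l16661 _)
                   (CovZ.leaf K2_ok TD_l16662 _))
                  (CovZ.leaf K2_ok TD_l16663 _))
                 (CovZ.n1 (26292, 25644) (by decide +kernel)
                  (CovZ.leaf K2_ok TD_l16664 _)
                  (CovZ.leaf K2_ok TD_l16665 _)))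
                (CovZ.n1 (26256, 25656) (by decide +kernel)
                 (CovZ.badM (by decide +kernel))
                 (CovZ.n1 (26268, 25644) (by decide +kernel)
                  (CovZ.leaf K2_ok TD_l16666 _)
                  (CovZ.n1 (26268, 25656) (by decide +kernel)
                   (CovZ.leaf K2_ok TD_l16667 _)
                   (CovZ.leaf K2_ok TD_l16668 _)))))))))))

theorem TD_u89 : CovZ TD_M (toL (selN TD_LN 8930496050510490502112693471061466618061462785414610796801801620291966052098602207683050209280)) [0, 7, 6, 1] (27264, 25728) (27072, 25728) (27072, 25536) :=
    (CovZ.n2 (27168, 25632) (by decide +kernel)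
            (CovZ.n2 (27072, 25632) (by decide +kernel)
             (CovZ.subM 2983939418690304031411138532339697794150813067818856571842576994478796230690682984988672 (by decide +kernel)
              (CovZ.n2 (27120, 25680) (by decide +kernel)
               (CovZ.n2 (27120, 25632) (by decide +kernel)
                (CovZ.n2 (27096, 25656) (by decide +kernel)
                 (CovZ.n2 (27120, 25656) (by decide +kernel)
                  (CovZ.leaf K2_ok TD_l16699 _)
                  (CovZ.leaf K2_ok TD_l16700 _))
                 (CovZ.n1 (27096, 25632) (by decide +kernel)
                  (CovZ.leaf K2_ok TD_l16701 _)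
                  (CovZ.n1 (27108, 25644) (by decide +kernel)
                   (CovZ.leaf K2_ok TD_l16702 _)
                   (CovZ.leaf K2_ok TD_l16703 _))))
                (CovZ.n1 (27144, 25656) (by decide +kernel)
                 (CovZ.n2 (27144, 25632) (by decide +kernel)
                  (CovZ.leaf K2_ok TD_l16704 _)
                  (CovZ.n1 (27156, 25644) (by decide +kernel)
                   (CovZ.leaf K2_ok TD_l16705 _)
                   (CovZ.leaf K2_ok TD_l16706 _)))
                 (CovZ.n1 (27120, 25656) (by decide +kernel)
                  (CovZ.n2 (27132, 25668) (by decide +kernel)
                   (CovZ.leaf K2_ok TD_l16707 _)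
                   (CovZ.leaf K2_ok TD_l16708 _))
                  (CovZ.leaf K2_ok TD_l16709 _))))
               (CovZ.n1 (27072, 25680) (by decide +kernel)
                (CovZ.badM (by decide +kernel))
                (CovZ.n1 (27096, 25656) (by decide +kernel)
                 (CovZ.n2 (27072, 25656) (by decide +kernel)
                  (CovZ.n2 (27084, 25668) (by decide +kernel)
                   (CovZ.leaf K2_ok TD_l16710 _)
                   (CovZ.leaf K2_ok TD_l16711 _))
                  (CovZ.leaf K2_ok TD_l16712 _))
                 (CovZ.n1 (27096, 25680) (by decide +kernel)
                  (CovZ.leaf K2_ok TD_l16713 _)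
                  (CovZ.n1 (27084, 25668) (by decide +kernel)
                   (CovZ.leaf K2_ok TD_l16714 _)
                   (CovZ.leaf K2_ok TD_l16715 _)))))))
             (CovZ.n1 (27120, 25584) (by decide +kernel)
              (CovZ.n2 (27072, 25584) (by decide +kernel)
               (CovZ.n2 (27096, 25608) (by decide +kernel)
                (CovZ.leaf K2_ok TD_l16716 _)
                (CovZ.leaf K2_ok TD_l16717 _))
               (CovZ.leaf K2_ok TD_l7177 _))
              (CovZ.subM 8408887494248177268894186367978218983139049489287459908360343637749752379821551408262246563840 (by decide +kernel)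
               (CovZ.n1 (27120, 25632) (by decide +kernel)
                (CovZ.leaf K2_ok TD_l7178 _)
                (CovZ.n1 (27096, 25608) (by decide +kernel)
                 (CovZ.leaf K2_ok TD_l16718 _)
                 (CovZ.n1 (27120, 25608) (by decide +kernel)
                  (CovZ.leaf K2_ok TD_l16719 _)
                  (CovZ.leaf K2_ok TD_l16720 _)))))))
            (CovZ.subM 2983939418690304031411138545195202148222735272154553310571877814656420180953025667399680 (by decide +kernel)
             (CovZ.n1 (27168, 25728) (by decide +kernel)
              (CovZ.n2 (27216, 25680) (by decide +kernel)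
               (CovZ.n2 (27168, 25680) (by decide +kernel)
                (CovZ.n2 (27192, 25704) (by decide +kernel)
                 (CovZ.n2 (27192, 25680) (by decide +kernel)
                  (CovZ.badM (by decide +kernel))
                  (CovZ.badM (by decide +kernel)))
                 (CovZ.badM (by decide +kernel)))
                (CovZ.n1 (27192, 25656) (by decide +kernel)
                 (CovZ.n2 (27168, 25656) (by decide +kernel)
                  (CovZ.n2 (27180, 25668) (by decide +kernel)
                   (CovZ.leaf K2_ok TD_l16721 _)
                   (CovZ.leaf K2_ok TD_l16722 _))
                  (CovZ.leaf K2_ok TD_l16723 _))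
                 (CovZ.n1 (27192, 25680) (by decide +kernel)
                  (CovZ.n2 (27204, 25668) (by decide +kernel)
                   (CovZ.leaf K2_ok TD_l16724 _)
                   (CovZ.n1 (27204, 25680) (by decide +kernel)
                    (CovZ.leaf K2_ok TD_l16725 _)
                    (CovZ.leaf K2_ok TD_l16726 _)))
                  (CovZ.n1 (27180, 25668) (by decide +kernel)
                   (CovZ.leaf K2_ok TD_l16727 _)
                   (CovZ.leaf K2_ok TD_l16728 _)))))
               (CovZ.badM (by decide +kernel)))
              (CovZ.n1 (27120, 25680) (by decide +kernel)
               (CovZ.badM (by decide +kernel))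
               (CovZ.n1 (27168, 25680) (by decide +kernel)
                (CovZ.n2 (27144, 25656) (by decide +kernel)
                 (CovZ.n2 (27144, 25680) (by decide +kernel)
                  (CovZ.n2 (27156, 25668) (by decide +kernel)
                   (CovZ.leaf K2_ok TD_l16729 _)
                   (CovZ.leaf K2_ok TD_l16730 _))
                  (CovZ.n1 (27132, 25668) (by decide +kernel)
                   (CovZ.leaf K2_ok TD_l16731 _)
                   (CovZ.n1 (27144, 25668) (by decide +kernel)
                    (CovZ.leaf K2_ok TD_l16732 _)
                    (CovZ.leaf K2_ok TD_l16733 _))))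
                 (CovZ.n1 (27168, 25656) (by decide +kernel)
                  (CovZ.n2 (27156, 25644) (by decide +kernel)
                   (CovZ.leaf K2_ok TD_l16734 _)
                   (CovZ.leaf K2_ok TD_l16735 _))
                  (CovZ.n1 (27156, 25668) (by decide +kernel)
                   (CovZ.n2 (27168, 25668) (by decide +kernel)
                    (CovZ.leaf K2_ok TD_l16736 _)
                    (CovZ.leaf K2_ok TD_l16737 _))
                   (CovZ.leaf K2_ok TD_l16738 _))))
                (CovZ.subM 21778071482940061661655974875633165533184 (by decide +kernel)
                 (CovZ.n1 (27144, 25704) (by decide +kernel)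
                  (CovZ.badM (by decide +kernel))
                  (CovZ.n1 (27144, 25680) (by decide +kernel)
                   (CovZ.badM (by decide +kernel))
                   (CovZ.n1 (27156, 25692) (by decide +kernel)
                    (CovZ.n2 (27156, 25680) (by decide +kernel)
                     (CovZ.leaf K2_ok TD_l16739 _)
                     (CovZ.badM (by decide +kernel)))
                    (CovZ.badM (by decide +kernel)))))))))))

theorem TD_u90 : CovZ TD_M (toL (selN TD_LN 8930496050510490502112693471061466618061462785414610796801801620291966052098602207683050209280)) [0, 7, 6, 1] (27072, 25728) (26880, 25728) (27072, 25536) :=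
    (CovZ.n1 (26976, 25632) (by decide +kernel)
            (CovZ.subM 521611508629568149674312731318878225801543986840124511410687659723644348651445820516091297792 (by decide +kernel)
             (CovZ.n2 (26976, 25728) (by decide +kernel)
              (CovZ.n2 (27024, 25680) (by decide +kernel)
               (CovZ.subM 521482204588101257658006407839904959090393378368934374424175953066756676669116211997492379648 (by decide +kernel)
                (CovZ.n2 (26976, 25680) (by decide +kernel)
                 (CovZ.subM 994646472819573284311607097471024970269873280501738708173885675970514989013842698174464 (by decide +kernel)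
                  (CovZ.n2 (27000, 25704) (by decide +kernel)
                   (CovZ.n2 (27000, 25680) (by decide +kernel)
                    (CovZ.n2 (26988, 25692) (by decide +kernel)
                     (CovZ.badM (by decide +kernel))
                     (CovZ.n1 (26988, 25680) (by decide +kernel)
                      (CovZ.leaf K2_ok TD_l18415 _)
                      (CovZ.leaf K2_ok TD_l18416 _)))
                    (CovZ.n1 (27012, 25692) (by decide +kernel)
                     (CovZ.n2 (27012, 25680) (by decide +kernel)
                      (CovZ.leaf K2_ok TD_l18417 _)
                      (CovZ.n1 (27018, 25686) (by decide +kernel)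
                       (CovZ.leaf K2_ok TD_l18418 _)
                       (CovZ.leaf K2_ok TD_l18419 _)))
                     (CovZ.n1 (27000, 25692) (by decide +kernel)
                      (CovZ.badM (by decide +kernel))
                      (CovZ.leaf K2_ok TD_l18420 _))))
                   (CovZ.n1 (26976, 25704) (by decide +kernel)
                    (CovZ.badM (by decide +kernel))
                    (CovZ.n1 (26988, 25692) (by decide +kernel)
                     (CovZ.n2 (26976, 25692) (by decide +kernel)
                      (CovZ.badM (by decide +kernel))
                      (CovZ.leaf K2_ok TD_l18421 _))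
                     (CovZ.badM (by decide +kernel))))))
                 (CovZ.n1 (27000, 25656) (by decide +kernel)
                  (CovZ.n2 (26976, 25656) (by decide +kernel)
                   (CovZ.n2 (26988, 25668) (by decide +kernel)
                    (CovZ.leaf K2_ok TD_l16740 _)
                    (CovZ.leaf K2_ok TD_l16741 _))
                   (CovZ.leaf K2_ok TD_l16742 _))
                  (CovZ.n1 (27000, 25680) (by decide +kernel)
                   (CovZ.n2 (27012, 25668) (by decide +kernel)
                    (CovZ.leaf K2_ok TD_l16743 _)
                    (CovZ.leaf K2_ok TD_l16744 _))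
                   (CovZ.n1 (26988, 25668) (by decide +kernel)
                    (CovZ.leaf K2_ok TD_l16745 _)
                    (CovZ.n1 (27000, 25668) (by decide +kernel)
                     (CovZ.leaf K2_ok TD_l16746 _)
                     (CovZ.leaf K2_ok TD_l16747 _)))))))
               (CovZ.subM 994646472819573284310764496293641680200912301594695434880927953786318994025066751066112 (by decide +kernel)
                (CovZ.n1 (27024, 25728) (by decide +kernel)
                 (CovZ.n2 (27048, 25704) (by decide +kernel)
                  (CovZ.n2 (27024, 25704) (by decide +kernel)
                   (CovZ.badM (by decide +kernel))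
                   (CovZ.n1 (27036, 25692) (by decide +kernel)
                    (CovZ.n2 (27024, 25692) (by decide +kernel)
                     (CovZ.badM (by decide +kernel))
                     (CovZ.leaf K2_ok TD_l18422 _))
                    (CovZ.badM (by decide +kernel))))
                  (CovZ.badM (by decide +kernel)))
                 (CovZ.n1 (27000, 25704) (by decide +kernel)
                  (CovZ.badM (by decide +kernel))
                  (CovZ.n1 (27024, 25704) (by decide +kernel)
                   (CovZ.n2 (27012, 25692) (by decide +kernel)
                    (CovZ.badM (by decide +kernel))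
                    (CovZ.n1 (27024, 25692) (by decide +kernel)
                     (CovZ.n2 (27018, 25686) (by decide +kernel)
                      (CovZ.badM (by decide +kernel))
                      (CovZ.leaf K2_ok TD_l18423 _))
                     (CovZ.badM (by decide +kernel))))
                   (CovZ.badM (by decide +kernel)))))))
              (CovZ.n1 (26928, 25680) (by decide +kernel)
               (CovZ.subM 842498333348457493583344221469363458551160763204392890034487820288 (by decide +kernel)
                (CovZ.n2 (26928, 25728) (by decide +kernel)
                 (CovZ.n2 (26952, 25704) (by decide +kernel)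
                  (CovZ.n2 (26928, 25704) (by decide +kernel)
                   (CovZ.badM (by decide +kernel))
                   (CovZ.n1 (26940, 25692) (by decide +kernel)
                    (CovZ.badM (by decide +kernel))
                    (CovZ.badM (by decide +kernel))))
                  (CovZ.badM (by decide +kernel)))
                 (CovZ.badM (by decide +kernel))))
               (CovZ.subM 521481209941628438197800309221218834789867181543077396893330676888432414857929852642127773696 (by decide +kernel)
                (CovZ.n1 (26976, 25680) (by decide +kernel)
                 (CovZ.n2 (26952, 25656) (by decide +kernel)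
                  (CovZ.n2 (26952, 25680) (by decide +kernel)
                   (CovZ.leaf K2_ok TD_l16748 _)
                   (CovZ.n1 (26940, 25668) (by decide +kernel)
                    (CovZ.leaf K2_ok TD_l16749 _)
                    (CovZ.leaf K2_ok TD_l16750 _)))
                  (CovZ.n1 (26976, 25656) (by decide +kernel)
                   (CovZ.n2 (26964, 25644) (by decide +kernel)
                    (CovZ.leaf K2_ok TD_l16751 _)
                    (CovZ.leaf K2_ok TD_l16752 _))
                   (CovZ.n1 (26964, 25668) (by decide +kernel)
                    (CovZ.leaf K2_ok TD_l16753 _)
                    (CovZ.leaf K2_ok TD_l16754 _))))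
                 (CovZ.subM 842601177383290068960978907043273292957722184195994988775947108352 (by decide +kernel)
                  (CovZ.n1 (26952, 25704) (by decide +kernel)
                   (CovZ.n2 (26976, 25704) (by decide +kernel)
                    (CovZ.n2 (26964, 25692) (by decide +kernel)
                     (CovZ.badM (by decide +kernel))
                     (CovZ.n1 (26976, 25692) (by decide +kernel)
                      (CovZ.leaf K2_ok TD_l18424 _)
                      (CovZ.badM (by decide +kernel))))
                    (CovZ.badM (by decide +kernel)))
                   (CovZ.n1 (26952, 25680) (by decide +kernel)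
                    (CovZ.n2 (26940, 25692) (by decide +kernel)
                     (CovZ.n2 (26952, 25692) (by decide +kernel)
                      (CovZ.n2 (26946, 25686) (by decide +kernel)
                       (CovZ.badM (by decide +kernel))
                       (CovZ.leaf K2_ok TD_l18425 _))
                      (CovZ.badM (by decide +kernel)))
                     (CovZ.n1 (26940, 25680) (by decide +kernel)
                      (CovZ.badM (by decide +kernel))
                      (CovZ.n1 (26946, 25686) (by decide +kernel)
                       (CovZ.leaf K2_ok TD_l18426 _)
                       (CovZ.leaf K2_ok TD_l18427 _))))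
                    (CovZ.n1 (26964, 25692) (by decide +kernel)
                     (CovZ.n2 (26964, 25680) (by decide +kernel)
                      (CovZ.n2 (26958, 25686) (by decide +kernel)
                       (CovZ.n2 (26964, 25686) (by decide +kernel)
                        (CovZ.leaf K2_ok TD_l18428 _)
                        (CovZ.badM (by decide +kernel)))
                       (CovZ.leaf K2_ok TD_l18429 _))
                      (CovZ.leaf K2_ok TD_l18430 _))
                     (CovZ.n1 (26952, 25692) (by decide +kernel)
                      (CovZ.badM (by decide +kernel))
                      (CovZ.n1 (26958, 25686) (by decide +kernel)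
                       (CovZ.leaf K2_ok TD_l18431 _)
                       (CovZ.badM (by decide +kernel)))))))))))))
            (CovZ.n1 (27072, 25632) (by decide +kernel)
             (CovZ.n2 (27024, 25584) (by decide +kernel)
              (CovZ.n2 (27024, 25632) (by decide +kernel)
               (CovZ.leaf K2_ok TD_l16755 _)
               (CovZ.n1 (27000, 25608) (by decide +kernel)
                (CovZ.leaf K2_ok TD_l16756 _)
                (CovZ.leaf K2_ok TD_l16757 _)))
              (CovZ.n1 (27072, 25584) (by decide +kernel)
               (CovZ.n2 (27048, 25560) (by decide +kernel)
                (CovZ.leaf K2_ok TD_l7179 _)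
                (CovZ.leaf K2_ok TD_l7180 _))
               (CovZ.n1 (27048, 25608) (by decide +kernel)
                (CovZ.n2 (27072, 25608) (by decide +kernel)
                 (CovZ.leaf K2_ok TD_l16758 _)
                 (CovZ.leaf K2_ok TD_l16759 _))
                (CovZ.leaf K2_ok TD_l16760 _))))
             (CovZ.subM 521484193881047128388753504001339815533140085258170613141969963407073038718073327327983435776 (by decide +kernel)
              (CovZ.n1 (27024, 25680) (by decide +kernel)
               (CovZ.n2 (27072, 25680) (by decide +kernel)
                (CovZ.n2 (27048, 25656) (by decide +kernel)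
                 (CovZ.n2 (27048, 25680) (by decide +kernel)
                  (CovZ.n2 (27060, 25668) (by decide +kernel)
                   (CovZ.leaf K2_ok TD_l16761 _)
                   (CovZ.n1 (27060, 25680) (by decide +kernel)
                    (CovZ.leaf K2_ok TD_l16762 _)
                    (CovZ.leaf K2_ok TD_l16763 _)))
                  (CovZ.n1 (27036, 25668) (by decide +kernel)
                   (CovZ.leaf K2_ok TD_l16764 _)
                   (CovZ.n1 (27048, 25668) (by decide +kernel)
                    (CovZ.leaf K2_ok TD_l16765 _)
                    (CovZ.leaf K2_ok TD_l16766 _))))
                 (CovZ.n1 (27072, 25656) (by decide +kernel)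
                  (CovZ.leaf K2_ok TD_l16767 _)
                  (CovZ.n1 (27060, 25668) (by decide +kernel)
                   (CovZ.n2 (27072, 25668) (by decide +kernel)
                    (CovZ.leaf K2_ok TD_l16768 _)
                    (CovZ.leaf K2_ok TD_l16769 _))
                   (CovZ.leaf K2_ok TD_l16770 _))))
                (CovZ.subM 994646472819573284310764496293641680200912301594695434880927953786318994025066751066112 (by decide +kernel)
                 (CovZ.n1 (27048, 25704) (by decide +kernel)
                  (CovZ.badM (by decide +kernel))
                  (CovZ.n1 (27048, 25680) (by decide +kernel)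
                   (CovZ.n2 (27036, 25692) (by decide +kernel)
                    (CovZ.badM (by decide +kernel))
                    (CovZ.n1 (27036, 25680) (by decide +kernel)
                     (CovZ.leaf K2_ok TD_l18432 _)
                     (CovZ.leaf K2_ok TD_l18433 _)))
                   (CovZ.badM (by decide +kernel))))))
               (CovZ.n1 (27024, 25632) (by decide +kernel)
                (CovZ.n2 (27000, 25656) (by decide +kernel)
                 (CovZ.n2 (27024, 25656) (by decide +kernel)
                  (CovZ.n2 (27012, 25644) (by decide +kernel)
                   (CovZ.leaf K2_ok TD_l16771 _)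
                   (CovZ.leaf K2_ok TD_l16772 _))
                  (CovZ.n1 (27012, 25668) (by decide +kernel)
                   (CovZ.n2 (27024, 25668) (by decide +kernel)
                    (CovZ.leaf K2_ok TD_l16773 _)
                    (CovZ.leaf K2_ok TD_l16774 _))
                   (CovZ.leaf K2_ok TD_l16775 _)))
                 (CovZ.n1 (27000, 25632) (by decide +kernel)
                  (CovZ.leaf K2_ok TD_l16776 _)
                  (CovZ.n1 (27012, 25644) (by decide +kernel)
                   (CovZ.leaf K2_ok TD_l16777 _)
                   (CovZ.leaf K2_ok TD_l16778 _))))
                (CovZ.n1 (27048, 25656) (by decide +kernel)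
                 (CovZ.leaf K2_ok TD_l16779 _)
                 (CovZ.n1 (27024, 25656) (by decide +kernel)
                  (CovZ.n2 (27036, 25668) (by decide +kernel)
                   (CovZ.leaf K2_ok TD_l16780 _)
                   (CovZ.leaf K2_ok TD_l16781 _))
                  (CovZ.leaf K2_ok TD_l16782 _))))))))

theorem TD_u91 : CovZ TD_M (toL (selN TD_LN 5223719041477756985544800010490790794341823775278056814225523759688849946126309105334272785180957094240769)) [0, 7, 6, 1] (26880, 25728) (26688, 25728) (26688, 25536) :=
    (CovZ.subM 5160931822172135845243740076410635036726375191253434555055899063832304569926695828608824957248637470015488 (by decide +kernel)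
           (CovZ.n2 (26784, 25632) (by decide +kernel)
            (CovZ.n2 (26688, 25632) (by decide +kernel)
             (CovZ.n2 (26736, 25680) (by decide +kernel)
              (CovZ.n2 (26736, 25632) (by decide +kernel)
               (CovZ.n2 (26712, 25656) (by decide +kernel)
                (CovZ.subM 573374653998104671578763287920596843337005931235638874020372556678242787951579535561467252980286113185792 (by decide +kernel)
                 (CovZ.n2 (26736, 25656) (by decide +kernel)
                  (CovZ.n2 (26724, 25644) (by decide +kernel)
                   (CovZ.leaf K2_ok TD_l16783 _)
                   (CovZ.leaf K2_ok TD_l16784 _))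
                  (CovZ.n1 (26724, 25668) (by decide +kernel)
                   (CovZ.n2 (26736, 25668) (by decide +kernel)
                    (CovZ.leaf K2_ok TD_l16785 _)
                    (CovZ.leaf K2_ok TD_l16786 _))
                   (CovZ.leaf K2_ok TD_l16787 _))))
                (CovZ.n1 (26712, 25632) (by decide +kernel)
                 (CovZ.n2 (26700, 25644) (by decide +kernel)
                  (CovZ.leaf K2_ok TD_l16788 _)
                  (CovZ.leaf K2_ok TD_l16789 _))
                 (CovZ.n1 (26724, 25644) (by decide +kernel)
                  (CovZ.leaf K2_ok TD_l16790 _)
                  (CovZ.leaf K2_ok TD_l16791 _))))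
               (CovZ.subM 573374653998104671578763287920596843337005931235246555161910889130503051112629056410460855765007111028736 (by decide +kernel)
                (CovZ.n1 (26760, 25656) (by decide +kernel)
                 (CovZ.n2 (26760, 25632) (by decide +kernel)
                  (CovZ.leaf K2_ok TD_l16792 _)
                  (CovZ.n1 (26772, 25644) (by decide +kernel)
                   (CovZ.leaf K2_ok TD_l16793 _)
                   (CovZ.leaf K2_ok TD_l16794 _)))
                 (CovZ.n1 (26736, 25656) (by decide +kernel)
                  (CovZ.subM 573374653997517877902826640631285843373913500329849310044730420622250000436748017983275609719771188166656 (by decide +kernel)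
                   (CovZ.n2 (26748, 25668) (by decide +kernel)
                    (CovZ.leaf K2_ok TD_l16795 _)
                    (CovZ.n1 (26736, 25668) (by decide +kernel)
                     (CovZ.n2 (26742, 25674) (by decide +kernel)
                      (CovZ.leaf K2_ok TD_l16796 _)
                      (CovZ.leaf K2_ok TD_l16797 _))
                     (CovZ.leaf K2_ok TD_l16798 _))))
                  (CovZ.leaf K2_ok TD_l16799 _)))))
              (CovZ.n1 (26688, 25680) (by decide +kernel)
               (CovZ.badM (by decide +kernel))
               (CovZ.n1 (26712, 25656) (by decide +kernel)
                (CovZ.n2 (26688, 25656) (by decide +kernel)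
                 (CovZ.n2 (26700, 25668) (by decide +kernel)
                  (CovZ.leaf K2_ok TD_l16800 _)
                  (CovZ.leaf K2_ok TD_l16801 _))
                 (CovZ.leaf K2_ok TD_l16802 _))
                (CovZ.subM 5160371885977660901124468431698629848763373038745417401207200174714199020370235597531377086142508896878592 (by decide +kernel)
                 (CovZ.n1 (26712, 25680) (by decide +kernel)
                  (CovZ.subM 573374653997517877902826640631285843373913500330241628903192088169989737275698497134282006935050190323712 (by decide +kernel)
                   (CovZ.n2 (26724, 25668) (by decide +kernel)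
                    (CovZ.leaf K2_ok TD_l16803 _)
                    (CovZ.n1 (26724, 25680) (by decide +kernel)
                     (CovZ.leaf K2_ok TD_l16804 _)
                     (CovZ.n1 (26718, 25674) (by decide +kernel)
                      (CovZ.leaf K2_ok TD_l16805 _)
                      (CovZ.leaf K2_ok TD_l16806 _)))))
                  (CovZ.n1 (26700, 25668) (by decide +kernel)
                   (CovZ.n2 (26700, 25680) (by decide +kernel)
                    (CovZ.leaf K2_ok TD_l16807 _)
                    (CovZ.leaf K2_ok TD_l16808 _))
                   (CovZ.n1 (26712, 25668) (by decide +kernel)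
                    (CovZ.leaf K2_ok TD_l16809 _)
                    (CovZ.leaf K2_ok TD_l16810 _))))))))
             (CovZ.n1 (26736, 25584) (by decide +kernel)
              (CovZ.n2 (26688, 25584) (by decide +kernel)
               (CovZ.n2 (26712, 25608) (by decide +kernel)
                (CovZ.leaf K2_ok TD_l16811 _)
                (CovZ.leaf K2_ok TD_l16812 _))
               (CovZ.leaf K2_ok TD_l7181 _))
              (CovZ.n1 (26736, 25632) (by decide +kernel)
               (CovZ.n2 (26760, 25608) (by decide +kernel)
                (CovZ.leaf K2_ok TD_l16813 _)
                (CovZ.leaf K2_ok TD_l16814 _))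
               (CovZ.n1 (26712, 25608) (by decide +kernel)
                (CovZ.n2 (26712, 25632) (by decide +kernel)
                 (CovZ.leaf K2_ok TD_l16815 _)
                 (CovZ.leaf K2_ok TD_l16816 _))
                (CovZ.n1 (26736, 25608) (by decide +kernel)
                 (CovZ.leaf K2_ok TD_l16817 _)
                 (CovZ.leaf K2_ok TD_l16818 _))))))
            (CovZ.n1 (26784, 25728) (by decide +kernel)
             (CovZ.subM 586793675936647289311000070932217774867059828221599675230481933134412289638185444931276898304 (by decide +kernel)
              (CovZ.n2 (26832, 25680) (by decide +kernel)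
               (CovZ.n2 (26784, 25680) (by decide +kernel)
                (CovZ.badM (by decide +kernel))
                (CovZ.n1 (26808, 25656) (by decide +kernel)
                 (CovZ.n2 (26784, 25656) (by decide +kernel)
                  (CovZ.n2 (26796, 25668) (by decide +kernel)
                   (CovZ.leaf K2_ok TD_l18434 _)
                   (CovZ.badM (by decide +kernel)))
                  (CovZ.leaf K2_ok TD_l16819 _))
                 (CovZ.subM 102844034832575377634685573909834406561420991602098741459288064 (by decide +kernel)
                  (CovZ.n1 (26808, 25680) (by decide +kernel)
                   (CovZ.n2 (26820, 25668) (by decide +kernel)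
                    (CovZ.leaf K2_ok TD_l18435 _)
                    (CovZ.badM (by decide +kernel)))
                   (CovZ.n1 (26796, 25668) (by decide +kernel)
                    (CovZ.badM (by decide +kernel))
                    (CovZ.leaf K2_ok TD_l18436 _))))))
               (CovZ.badM (by decide +kernel))))
             (CovZ.n1 (26736, 25680) (by decide +kernel)
              (CovZ.badM (by decide +kernel))
              (CovZ.subM 573374653998104671578763287920596843337005931235246555161910889130503051112629056410460855765007111028736 (by decide +kernel)
               (CovZ.n1 (26784, 25680) (by decide +kernel)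
                (CovZ.n2 (26760, 25656) (by decide +kernel)
                 (CovZ.subM 573374653997517877902826640631285843266073713661246750866062360274171477742199440293113319795356747169792 (by decide +kernel)
                  (CovZ.n2 (26760, 25680) (by decide +kernel)
                   (CovZ.badM (by decide +kernel))
                   (CovZ.n1 (26748, 25668) (by decide +kernel)
                    (CovZ.n2 (26748, 25680) (by decide +kernel)
                     (CovZ.leaf K2_ok TD_l16820 _)
                     (CovZ.leaf K2_ok TD_l16821 _))
                    (CovZ.n1 (26760, 25668) (by decide +kernel)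
                     (CovZ.leaf K2_ok TD_l16822 _)
                     (CovZ.leaf K2_ok TD_l16823 _)))))
                 (CovZ.n1 (26784, 25656) (by decide +kernel)
                  (CovZ.n2 (26772, 25644) (by decide +kernel)
                   (CovZ.leaf K2_ok TD_l16824 _)
                   (CovZ.leaf K2_ok TD_l16825 _))
                  (CovZ.badM (by decide +kernel))))
                (CovZ.badM (by decide +kernel))))))))

theorem TD_u92 : CovZ TD_M (toL (selN TD_LN 5223719041477756985544800010490790794341823775278056814225523759688849946126309105334272785180957094240769)) [0, 7, 6, 1] (26688, 25728) (26496, 25728) (26688, 25536) :=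
    (CovZ.n1 (26592, 25632) (by decide +kernel)
           (CovZ.subM 5187883125594568418785162441643401135026319988822309009612167612445600305469003820490276907915832832557056 (by decide +kernel)
            (CovZ.n2 (26592, 25728) (by decide +kernel)
             (CovZ.n2 (26640, 25680) (by decide +kernel)
              (CovZ.n2 (26592, 25680) (by decide +kernel)
               (CovZ.badM (by decide +kernel))
               (CovZ.n1 (26616, 25656) (by decide +kernel)
                (CovZ.n2 (26592, 25656) (by decide +kernel)
                 (CovZ.n2 (26604, 25668) (by decide +kernel)
                  (CovZ.leaf K2_ok TD_l16826 _)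
                  (CovZ.n1 (26592, 25668) (by decide +kernel)
                   (CovZ.leaf K2_ok TD_l16827 _)
                   (CovZ.leaf K2_ok TD_l16828 _)))
                 (CovZ.leaf K2_ok TD_l16829 _))
                (CovZ.subM 5160376260479175652299563704175912725624217552391418460542441509500143176484795424184548142202920642805760 (by decide +kernel)
                 (CovZ.n1 (26616, 25680) (by decide +kernel)
                  (CovZ.n2 (26628, 25668) (by decide +kernel)
                   (CovZ.n2 (26616, 25668) (by decide +kernel)
                    (CovZ.n2 (26622, 25674) (by decide +kernel)
                     (CovZ.leaf K2_ok TD_l16830 _)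
                     (CovZ.leaf K2_ok TD_l16831 _))
                    (CovZ.leaf K2_ok TD_l16832 _))
                   (CovZ.n1 (26628, 25680) (by decide +kernel)
                    (CovZ.leaf K2_ok TD_l16833 _)
                    (CovZ.leaf K2_ok TD_l16834 _)))
                  (CovZ.n1 (26604, 25668) (by decide +kernel)
                   (CovZ.n2 (26604, 25680) (by decide +kernel)
                    (CovZ.leaf K2_ok TD_l16835 _)
                    (CovZ.leaf K2_ok TD_l16836 _))
                   (CovZ.n1 (26616, 25668) (by decide +kernel)
                    (CovZ.leaf K2_ok TD_l16837 _)
                    (CovZ.n1 (26610, 25674) (by decide +kernel)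
                     (CovZ.leaf K2_ok TD_l16838 _)
                     (CovZ.leaf K2_ok TD_l16839 _))))))))
              (CovZ.badM (by decide +kernel)))
             (CovZ.n1 (26544, 25680) (by decide +kernel)
              (CovZ.badM (by decide +kernel))
              (CovZ.n1 (26592, 25680) (by decide +kernel)
               (CovZ.n2 (26568, 25656) (by decide +kernel)
                (CovZ.subM 5169335239447886869141793473298186502736704134380357057185920508538819662890881450774821678491974626181120 (by decide +kernel)
                 (CovZ.n2 (26568, 25680) (by decide +kernel)
                  (CovZ.n2 (26580, 25668) (by decide +kernel)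
                   (CovZ.n2 (26568, 25668) (by decide +kernel)
                    (CovZ.n2 (26574, 25674) (by decide +kernel)
                     (CovZ.leaf K2_ok TD_l16840 _)
                     (CovZ.leaf K2_ok TD_l16841 _))
                    (CovZ.leaf K2_ok TD_l16842 _))
                   (CovZ.subM 573379028498967443926679210016863408588106869702601404235156146428361010914717198821536742550340636770304 (by decide +kernel)
                    (CovZ.n1 (26580, 25680) (by decide +kernel)
                     (CovZ.n2 (26586, 25674) (by decide +kernel)
                      (CovZ.leaf K2_ok TD_l16843 _)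
                      (CovZ.n1 (26586, 25680) (by decide +kernel)
                       (CovZ.leaf K2_ok TD_l16844 _)
                       (CovZ.leaf K2_ok TD_l16845 _)))
                     (CovZ.n1 (26574, 25674) (by decide +kernel)
                      (CovZ.leaf K2_ok TD_l16846 _)
                      (CovZ.n1 (26580, 25674) (by decide +kernel)
                       (CovZ.leaf K2_ok TD_l16847 _)
                       (CovZ.leaf K2_ok TD_l16848 _))))))
                  (CovZ.n1 (26556, 25668) (by decide +kernel)
                   (CovZ.n2 (26556, 25680) (by decide +kernel)
                    (CovZ.leaf K2_ok TD_l16849 _)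
                    (CovZ.leaf K2_ok TD_l16850 _))
                   (CovZ.n1 (26568, 25668) (by decide +kernel)
                    (CovZ.n2 (26562, 25662) (by decide +kernel)
                     (CovZ.leaf K2_ok TD_l16851 _)
                     (CovZ.leaf K2_ok TD_l16852 _))
                    (CovZ.leaf K2_ok TD_l16853 _)))))
                (CovZ.n1 (26592, 25656) (by decide +kernel)
                 (CovZ.n2 (26580, 25644) (by decide +kernel)
                  (CovZ.leaf K2_ok TD_l16854 _)
                  (CovZ.leaf K2_ok TD_l16855 _))
                 (CovZ.subM 5160376260479175652299563704175912725624217552391418460542898228761809083646734075694771980646563121725440 (by decide +kernel)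
                  (CovZ.n1 (26580, 25668) (by decide +kernel)
                   (CovZ.n2 (26592, 25668) (by decide +kernel)
                    (CovZ.leaf K2_ok TD_l16856 _)
                    (CovZ.n1 (26586, 25674) (by decide +kernel)
                     (CovZ.leaf K2_ok TD_l16857 _)
                     (CovZ.leaf K2_ok TD_l16858 _)))
                   (CovZ.leaf K2_ok TD_l16859 _)))))
               (CovZ.subM 29642774844752946028434172162224104410437116074403984394101141506025761187823616 (by decide +kernel)
                (CovZ.n1 (26568, 25704) (by decide +kernel)
                 (CovZ.badM (by decide +kernel))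
                 (CovZ.n1 (26568, 25680) (by decide +kernel)
                  (CovZ.n2 (26556, 25692) (by decide +kernel)
                   (CovZ.n2 (26568, 25692) (by decide +kernel)
                    (CovZ.n2 (26562, 25686) (by decide +kernel)
                     (CovZ.badM (by decide +kernel))
                     (CovZ.n1 (26568, 25686) (by decide +kernel)
                      (CovZ.leaf K2_ok TD_l18437 _)
                      (CovZ.badM (by decide +kernel))))
                    (CovZ.badM (by decide +kernel)))
                   (CovZ.n1 (26556, 25680) (by decide +kernel)
                    (CovZ.n2 (26550, 25686) (by decide +kernel)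
                     (CovZ.n2 (26556, 25686) (by decide +kernel)
                      (CovZ.leaf K2_ok TD_l18438 _)
                      (CovZ.badM (by decide +kernel)))
                     (CovZ.leaf K2_ok TD_l18439 _))
                    (CovZ.n1 (26562, 25686) (by decide +kernel)
                     (CovZ.leaf K2_ok TD_l18440 _)
                     (CovZ.n1 (26556, 25686) (by decide +kernel)
                      (CovZ.badM (by decide +kernel))
                      (CovZ.leaf K2_ok TD_l18441 _)))))
                  (CovZ.n1 (26580, 25692) (by decide +kernel)
                   (CovZ.n2 (26580, 25680) (by decide +kernel)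
                    (CovZ.n2 (26574, 25686) (by decide +kernel)
                     (CovZ.badM (by decide +kernel))
                     (CovZ.leaf K2_ok TD_l18442 _))
                    (CovZ.badM (by decide +kernel)))
                   (CovZ.n1 (26568, 25692) (by decide +kernel)
                    (CovZ.badM (by decide +kernel))
                    (CovZ.n1 (26574, 25686) (by decide +kernel)
                     (CovZ.n2 (26568, 25686) (by decide +kernel)
                      (CovZ.badM (by decide +kernel))
                      (CovZ.leaf K2_ok TD_l18443 _))
                     (CovZ.badM (by decide +kernel))))))))))))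
           (CovZ.subM 5161006188696778467649168741486357035866290361894260266447570924308739078004071848603617104024793042124800 (by decide +kernel)
            (CovZ.n1 (26688, 25632) (by decide +kernel)
             (CovZ.n2 (26640, 25584) (by decide +kernel)
              (CovZ.n2 (26640, 25632) (by decide +kernel)
               (CovZ.n2 (26664, 25608) (by decide +kernel)
                (CovZ.leaf K2_ok TD_l16860 _)
                (CovZ.leaf K2_ok TD_l16861 _))
               (CovZ.n1 (26616, 25608) (by decide +kernel)
                (CovZ.leaf K2_ok TD_l16862 _)
                (CovZ.n1 (26640, 25608) (by decide +kernel)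
                 (CovZ.leaf K2_ok TD_l16863 _)
                 (CovZ.leaf K2_ok TD_l16864 _))))
              (CovZ.n1 (26688, 25584) (by decide +kernel)
               (CovZ.n2 (26664, 25560) (by decide +kernel)
                (CovZ.leaf K2_ok TD_l7182 _)
                (CovZ.leaf K2_ok TD_l7183 _))
               (CovZ.n1 (26664, 25608) (by decide +kernel)
                (CovZ.n2 (26688, 25608) (by decide +kernel)
                 (CovZ.leaf K2_ok TD_l16865 _)
                 (CovZ.leaf K2_ok TD_l16866 _))
                (CovZ.leaf K2_ok TD_l16867 _))))
             (CovZ.n1 (26640, 25680) (by decide +kernel)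
              (CovZ.n2 (26688, 25680) (by decide +kernel)
               (CovZ.n2 (26664, 25656) (by decide +kernel)
                (CovZ.subM 5160371885977660901124472225973923055353031744183655353445590821782176815550236325130049523793265462083584 (by decide +kernel)
                 (CovZ.n2 (26664, 25680) (by decide +kernel)
                  (CovZ.n2 (26676, 25668) (by decide +kernel)
                   (CovZ.leaf K2_ok TD_l16868 _)
                   (CovZ.n1 (26676, 25680) (by decide +kernel)
                    (CovZ.leaf K2_ok TD_l16869 _)
                    (CovZ.leaf K2_ok TD_l16870 _)))
                  (CovZ.n1 (26652, 25668) (by decide +kernel)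
                   (CovZ.n2 (26652, 25680) (by decide +kernel)
                    (CovZ.leaf K2_ok TD_l16871 _)
                    (CovZ.n1 (26646, 25674) (by decide +kernel)
                     (CovZ.leaf K2_ok TD_l16872 _)
                     (CovZ.leaf K2_ok TD_l16873 _)))
                   (CovZ.n1 (26664, 25668) (by decide +kernel)
                    (CovZ.leaf K2_ok TD_l16874 _)
                    (CovZ.leaf K2_ok TD_l16875 _)))))
                (CovZ.n1 (26688, 25656) (by decide +kernel)
                 (CovZ.n2 (26676, 25644) (by decide +kernel)
                  (CovZ.leaf K2_ok TD_l16876 _)
                  (CovZ.leaf K2_ok TD_l16877 _))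
                 (CovZ.n1 (26676, 25668) (by decide +kernel)
                  (CovZ.n2 (26688, 25668) (by decide +kernel)
                   (CovZ.leaf K2_ok TD_l16878 _)
                   (CovZ.leaf K2_ok TD_l16879 _))
                  (CovZ.leaf K2_ok TD_l16880 _))))
               (CovZ.subM 107839786769036186944854952569451153465871240347799977035838993203200 (by decide +kernel)
                (CovZ.n1 (26664, 25704) (by decide +kernel)
                 (CovZ.badM (by decide +kernel))
                 (CovZ.n1 (26664, 25680) (by decide +kernel)
                  (CovZ.n2 (26652, 25692) (by decide +kernel)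
                   (CovZ.n2 (26664, 25692) (by decide +kernel)
                    (CovZ.n2 (26658, 25686) (by decide +kernel)
                     (CovZ.badM (by decide +kernel))
                     (CovZ.n1 (26664, 25686) (by decide +kernel)
                      (CovZ.leaf K2_ok TD_l18444 _)
                      (CovZ.badM (by decide +kernel))))
                    (CovZ.badM (by decide +kernel)))
                   (CovZ.n1 (26652, 25680) (by decide +kernel)
                    (CovZ.badM (by decide +kernel))
                    (CovZ.n1 (26658, 25686) (by decide +kernel)
                     (CovZ.leaf K2_ok TD_l18445 _)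
                     (CovZ.badM (by decide +kernel)))))
                  (CovZ.n1 (26676, 25692) (by decide +kernel)
                   (CovZ.n2 (26676, 25680) (by decide +kernel)
                    (CovZ.n2 (26670, 25686) (by decide +kernel)
                     (CovZ.badM (by decide +kernel))
                     (CovZ.leaf K2_ok TD_l18446 _))
                    (CovZ.badM (by decide +kernel)))
                   (CovZ.n1 (26664, 25692) (by decide +kernel)
                    (CovZ.badM (by decide +kernel))
                    (CovZ.n1 (26670, 25686) (by decide +kernel)
                     (CovZ.leaf K2_ok TD_l18447 _)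
                     (CovZ.badM (by decide +kernel)))))))))
              (CovZ.n1 (26640, 25632) (by decide +kernel)
               (CovZ.n2 (26616, 25656) (by decide +kernel)
                (CovZ.n2 (26640, 25656) (by decide +kernel)
                 (CovZ.n2 (26628, 25644) (by decide +kernel)
                  (CovZ.leaf K2_ok TD_l16881 _)
                  (CovZ.leaf K2_ok TD_l16882 _))
                 (CovZ.n1 (26628, 25668) (by decide +kernel)
                  (CovZ.n2 (26640, 25668) (by decide +kernel)
                   (CovZ.leaf K2_ok TD_l16883 _)
                   (CovZ.leaf K2_ok TD_l16884 _))
                  (CovZ.leaf K2_ok TD_l16885 _)))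
                (CovZ.n1 (26616, 25632) (by decide +kernel)
                 (CovZ.leaf K2_ok TD_l16886 _)
                 (CovZ.n1 (26628, 25644) (by decide +kernel)
                  (CovZ.leaf K2_ok TD_l16887 _)
                  (CovZ.leaf K2_ok TD_l16888 _))))
               (CovZ.n1 (26664, 25656) (by decide +kernel)
                (CovZ.n2 (26664, 25632) (by decide +kernel)
                 (CovZ.n2 (26652, 25644) (by decide +kernel)
                  (CovZ.leaf K2_ok TD_l16889 _)
                  (CovZ.leaf K2_ok TD_l16890 _))
                 (CovZ.n1 (26676, 25644) (by decide +kernel)
                  (CovZ.leaf K2_ok TD_l16891 _)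
                  (CovZ.leaf K2_ok TD_l16892 _)))
                (CovZ.n1 (26640, 25656) (by decide +kernel)
                 (CovZ.n2 (26652, 25668) (by decide +kernel)
                  (CovZ.leaf K2_ok TD_l16893 _)
                  (CovZ.leaf K2_ok TD_l16894 _))
                 (CovZ.leaf K2_ok TD_l16895 _))))))))

theorem TD_u93 : CovZ TD_M (toL (selN TD_LN 5517161974557295902613003683370825805886061207338665655372711649586112219641912282232169881666626536009221)) [0, 7, 6, 1] (27648, 26112) (26880, 26112) (26880, 25344) :=
    (CovZ.subM 8931017245264174738878595056642066395380932218091024337004110668687453576506297844193371942401 (by decide +kernel)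
      (CovZ.n2 (27264, 25728) (by decide +kernel)
       (CovZ.n2 (26880, 25728) (by decide +kernel)
        (CovZ.n2 (27072, 25920) (by decide +kernel)
         (CovZ.n2 (27072, 25728) (by decide +kernel)
          (CovZ.badM (by decide +kernel))
          (CovZ.badM (by decide +kernel)))
         (CovZ.badM (by decide +kernel)))
        (CovZ.n1 (27072, 25536) (by decide +kernel)
         (CovZ.n2 (26880, 25536) (by decide +kernel)
          (CovZ.subM 8930496050510520144887538220637488863333908467722574123485325113743746613614967671841420771328 (by decide +kernel)
           (CovZ.n2 (26976, 25632) (by decide +kernel)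
            (CovZ.n2 (26976, 25536) (by decide +kernel)
             (CovZ.n2 (26928, 25584) (by decide +kernel)
              (CovZ.n2 (26976, 25584) (by decide +kernel)
               (CovZ.n2 (26952, 25560) (by decide +kernel)
                (CovZ.leaf K2_ok TD_l7160 _)
                (CovZ.leaf K2_ok TD_l7161 _))
               (CovZ.n1 (26952, 25608) (by decide +kernel)
                (CovZ.n2 (26976, 25608) (by decide +kernel)
                 (CovZ.leaf K2_ok TD_l16669 _)
                 (CovZ.leaf K2_ok TD_l16670 _))
                (CovZ.leaf K2_ok TD_l16671 _)))
              (CovZ.n1 (26928, 25536) (by decide +kernel)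
               (CovZ.leaf K2_ok TD_l7162 _)
               (CovZ.n1 (26952, 25560) (by decide +kernel)
                (CovZ.leaf K2_ok TD_l7163 _)
                (CovZ.leaf K2_ok TD_l7164 _))))
             (CovZ.n1 (27024, 25584) (by decide +kernel)
              (CovZ.n2 (27024, 25536) (by decide +kernel)
               (CovZ.leaf K2_ok TD_l7165 _)
               (CovZ.leaf K2_ok TD_l7166 _))
              (CovZ.n1 (26976, 25584) (by decide +kernel)
               (CovZ.n2 (27000, 25608) (by decide +kernel)
                (CovZ.leaf K2_ok TD_l16672 _)
                (CovZ.leaf K2_ok TD_l16673 _))
               (CovZ.leaf K2_ok TD_l7167 _))))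
            (CovZ.n1 (26880, 25632) (by decide +kernel)
             (CovZ.subM 521608524693943734550409701484580222001704728533364313339794546195139359629058535108045176832 (by decide +kernel)
              (CovZ.n2 (26928, 25680) (by decide +kernel)
               (CovZ.n2 (26928, 25632) (by decide +kernel)
                (CovZ.n2 (26904, 25656) (by decide +kernel)
                 (CovZ.subM 521481209941628438197800308378720451224595804957630546843618055082622376727888209860045570048 (by decide +kernel)
                  (CovZ.n2 (26928, 25656) (by decide +kernel)
                   (CovZ.leaf K2_ok TD_l16674 _)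
                   (CovZ.n1 (26916, 25668) (by decide +kernel)
                    (CovZ.n2 (26928, 25668) (by decide +kernel)
                     (CovZ.leaf K2_ok TD_l16675 _)
                     (CovZ.leaf K2_ok TD_l16676 _))
                    (CovZ.leaf K2_ok TD_l16677 _))))
                 (CovZ.n1 (26904, 25632) (by decide +kernel)
                  (CovZ.leaf K2_ok TD_l16678 _)
                  (CovZ.leaf K2_ok TD_l16679 _)))
                (CovZ.n1 (26952, 25656) (by decide +kernel)
                 (CovZ.n2 (26952, 25632) (by decide +kernel)
                  (CovZ.leaf K2_ok TD_l16680 _)
                  (CovZ.n1 (26964, 25644) (by decide +kernel)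
                   (CovZ.leaf K2_ok TD_l16681 _)
                   (CovZ.leaf K2_ok TD_l16682 _)))
                 (CovZ.n1 (26928, 25656) (by decide +kernel)
                  (CovZ.n2 (26940, 25668) (by decide +kernel)
                   (CovZ.leaf K2_ok TD_l16683 _)
                   (CovZ.leaf K2_ok TD_l16684 _))
                  (CovZ.leaf K2_ok TD_l16685 _))))
               (CovZ.n1 (26880, 25680) (by decide +kernel)
                (CovZ.badM (by decide +kernel))
                (CovZ.n1 (26904, 25656) (by decide +kernel)
                 (CovZ.n2 (26880, 25656) (by decide +kernel)
                  (CovZ.n2 (26892, 25668) (by decide +kernel)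
                   (CovZ.leaf K2_ok TD_l16686 _)
                   (CovZ.leaf K2_ok TD_l16687 _))
                  (CovZ.leaf K2_ok TD_l16688 _))
                 (CovZ.subM 103044902088108482172734577772652481621844589901912463718219776 (by decide +kernel)
                  (CovZ.n1 (26904, 25680) (by decide +kernel)
                   (CovZ.n2 (26916, 25668) (by decide +kernel)
                    (CovZ.leaf K2_ok TD_l16689 _)
                    (CovZ.leaf K2_ok TD_l16690 _))
                   (CovZ.n1 (26892, 25668) (by decide +kernel)
                    (CovZ.leaf K2_ok TD_l16691 _)
                    (CovZ.n1 (26904, 25668) (by decide +kernel)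
                     (CovZ.leaf K2_ok TD_l16692 _)
                     (CovZ.leaf K2_ok TD_l16693 _)))))))))
             (CovZ.n1 (26928, 25584) (by decide +kernel)
              (CovZ.n2 (26880, 25584) (by decide +kernel)
               (CovZ.n2 (26904, 25608) (by decide +kernel)
                (CovZ.leaf K2_ok TD_l7168 _)
                (CovZ.leaf K2_ok TD_l7169 _))
               (CovZ.leaf K2_ok TD_l7170 _))
              (CovZ.n1 (26928, 25632) (by decide +kernel)
               (CovZ.n2 (26952, 25608) (by decide +kernel)
                (CovZ.leaf K2_ok TD_l16694 _)
                (CovZ.leaf K2_ok TD_l16695 _))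
               (CovZ.n1 (26904, 25608) (by decide +kernel)
                (CovZ.leaf K2_ok TD_l16696 _)
                (CovZ.n1 (26928, 25608) (by decide +kernel)
                 (CovZ.leaf K2_ok TD_l16697 _)
                 (CovZ.leaf K2_ok TD_l16698 _))))))))
          (CovZ.n1 (26976, 25440) (by decide +kernel)
           (CovZ.n2 (26880, 25440) (by decide +kernel)
            (CovZ.n2 (26928, 25488) (by decide +kernel)
             (CovZ.leaf K2_ok TD_l7171 _)
             (CovZ.leaf K2_ok TD_l7172 _))
            (CovZ.leaf K2_ok TD_l7173 _))
           (CovZ.n1 (26976, 25536) (by decide +kernel)
            (CovZ.leaf K2_ok TD_l7174 _)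
            (CovZ.n1 (26928, 25488) (by decide +kernel)
             (CovZ.leaf K2_ok TD_l7175 _)
             (CovZ.leaf K2_ok TD_l7176 _)))))
         (CovZ.subM 8930496050510490502112693471061466618061462785414610796801801620291966052098602207683050209280 (by decide +kernel)
          (CovZ.n1 (27072, 25728) (by decide +kernel)
           TD_u89
           TD_u90))))
       (CovZ.subM 517216165866178107841597538072693673704474396829241626221159285705443118949522651821899776 (by decide +kernel)
        (CovZ.n1 (27264, 26112) (by decide +kernel)
         (CovZ.n2 (27456, 25920) (by decide +kernel)
          (CovZ.n2 (27264, 25920) (by decide +kernel)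
           (CovZ.badM (by decide +kernel))
           (CovZ.n1 (27360, 25824) (by decide +kernel)
            (CovZ.badM (by decide +kernel))
            (CovZ.badM (by decide +kernel))))
          (CovZ.badM (by decide +kernel)))
         (CovZ.badM (by decide +kernel))))))

theorem TD_u94 : CovZ TD_M (toL (selN TD_LN 5517161974557295902613003683370825805886061207338665655372711649586112219641912282232169881666626536009221)) [0, 7, 6, 1] (26880, 26112) (26112, 26112) (26880, 25344) :=
    (CovZ.n1 (26496, 25728) (by decide +kernel)
      (CovZ.n2 (26496, 26112) (by decide +kernel)
       (CovZ.badM (by decide +kernel))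
       (CovZ.n1 (26304, 25920) (by decide +kernel)
        (CovZ.badM (by decide +kernel))
        (CovZ.badM (by decide +kernel))))
      (CovZ.subM 5223719041477756985544800010490790794341823775278056814225523759688849946126309105334272785180957094240769 (by decide +kernel)
       (CovZ.n1 (26880, 25728) (by decide +kernel)
        (CovZ.n2 (26688, 25536) (by decide +kernel)
         (CovZ.n2 (26688, 25728) (by decide +kernel)
          TD_u91
          TD_u92)
         (CovZ.n1 (26880, 25536) (by decide +kernel)
          (CovZ.n2 (26784, 25440) (by decide +kernel)
           (CovZ.n2 (26784, 25536) (by decide +kernel)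
            (CovZ.n2 (26832, 25488) (by decide +kernel)
             (CovZ.leaf K2_ok TD_l7184 _)
             (CovZ.leaf K2_ok TD_l7185 _))
            (CovZ.n1 (26736, 25488) (by decide +kernel)
             (CovZ.leaf K2_ok TD_l7186 _)
             (CovZ.leaf K2_ok TD_l7187 _)))
           (CovZ.subM 559936194474944119210462024725631793731944626404463333147026333605380907928986039484227711414734742017 (by decide +kernel)
            (CovZ.n1 (26880, 25440) (by decide +kernel)
             (CovZ.n2 (26832, 25392) (by decide +kernel)
              (CovZ.leaf K2_ok TD_l7188 _)
              (CovZ.leaf K2_ok TD_l7189 _))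
             (CovZ.n1 (26832, 25488) (by decide +kernel)
              (CovZ.n2 (26880, 25488) (by decide +kernel)
               (CovZ.leaf K2_ok TD_l7190 _)
               (CovZ.leaf K2_ok TD_l7191 _))
              (CovZ.leaf K2_ok TD_l7192 _)))))
          (CovZ.subM 5160931822172135845243740076410635036726375191253434555055899063832304569926695828608824959500437283700736 (by decide +kernel)
           (CovZ.n1 (26784, 25632) (by decide +kernel)
            (CovZ.n2 (26880, 25632) (by decide +kernel)
             (CovZ.n2 (26832, 25584) (by decide +kernel)
              (CovZ.n2 (26832, 25632) (by decide +kernel)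
               (CovZ.n2 (26856, 25608) (by decide +kernel)
                (CovZ.leaf K2_ok TD_l16896 _)
                (CovZ.leaf K2_ok TD_l7193 _))
               (CovZ.n1 (26808, 25608) (by decide +kernel)
                (CovZ.leaf K2_ok TD_l16897 _)
                (CovZ.n1 (26832, 25608) (by decide +kernel)
                 (CovZ.leaf K2_ok TD_l16898 _)
                 (CovZ.leaf K2_ok TD_l16899 _))))
              (CovZ.n1 (26880, 25584) (by decide +kernel)
               (CovZ.n2 (26856, 25560) (by decide +kernel)
                (CovZ.leaf K2_ok TD_l7194 _)
                (CovZ.leaf K2_ok TD_l7195 _))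
               (CovZ.n1 (26856, 25608) (by decide +kernel)
                (CovZ.leaf K2_ok TD_l7196 _)
                (CovZ.leaf K2_ok TD_l7197 _))))
             (CovZ.subM 586793675936647289311000070932217774867059828221599675230481933134412289638185444931276898304 (by decide +kernel)
              (CovZ.n1 (26832, 25680) (by decide +kernel)
               (CovZ.n2 (26880, 25680) (by decide +kernel)
                (CovZ.n2 (26856, 25656) (by decide +kernel)
                 (CovZ.subM 103044902088108482169946984622836153729152625117831418529972224 (by decide +kernel)
                  (CovZ.n2 (26856, 25680) (by decide +kernel)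
                   (CovZ.n2 (26868, 25668) (by decide +kernel)
                    (CovZ.leaf K2_ok TD_l16900 _)
                    (CovZ.n1 (26868, 25680) (by decide +kernel)
                     (CovZ.leaf K2_ok TD_l16901 _)
                     (CovZ.leaf K2_ok TD_l18448 _)))
                   (CovZ.n1 (26844, 25668) (by decide +kernel)
                    (CovZ.n2 (26844, 25680) (by decide +kernel)
                     (CovZ.leaf K2_ok TD_l18449 _)
                     (CovZ.badM (by decide +kernel)))
                    (CovZ.n1 (26856, 25668) (by decide +kernel)
                     (CovZ.leaf K2_ok TD_l16902 _)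
                     (CovZ.leaf K2_ok TD_l18450 _)))))
                 (CovZ.n1 (26880, 25656) (by decide +kernel)
                  (CovZ.n2 (26868, 25644) (by decide +kernel)
                   (CovZ.leaf K2_ok TD_l16903 _)
                   (CovZ.leaf K2_ok TD_l16904 _))
                  (CovZ.n1 (26868, 25668) (by decide +kernel)
                   (CovZ.n2 (26880, 25668) (by decide +kernel)
                    (CovZ.leaf K2_ok TD_l16905 _)
                    (CovZ.leaf K2_ok TD_l16906 _))
                   (CovZ.leaf K2_ok TD_l16907 _))))
                (CovZ.badM (by decide +kernel)))
               (CovZ.n1 (26832, 25632) (by decide +kernel)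
                (CovZ.n2 (26808, 25656) (by decide +kernel)
                 (CovZ.n2 (26832, 25656) (by decide +kernel)
                  (CovZ.leaf K2_ok TD_l16908 _)
                  (CovZ.n1 (26820, 25668) (by decide +kernel)
                   (CovZ.n2 (26832, 25668) (by decide +kernel)
                    (CovZ.leaf K2_ok TD_l18451 _)
                    (CovZ.badM (by decide +kernel)))
                   (CovZ.leaf K2_ok TD_l18452 _)))
                 (CovZ.n1 (26808, 25632) (by decide +kernel)
                  (CovZ.n2 (26796, 25644) (by decide +kernel)
                   (CovZ.leaf K2_ok TD_l16909 _)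
                   (CovZ.leaf K2_ok TD_l16910 _))
                  (CovZ.n1 (26820, 25644) (by decide +kernel)
                   (CovZ.leaf K2_ok TD_l16911 _)
                   (CovZ.leaf K2_ok TD_l16912 _))))
                (CovZ.n1 (26856, 25656) (by decide +kernel)
                 (CovZ.n2 (26856, 25632) (by decide +kernel)
                  (CovZ.leaf K2_ok TD_l16913 _)
                  (CovZ.n1 (26868, 25644) (by decide +kernel)
                   (CovZ.leaf K2_ok TD_l16914 _)
                   (CovZ.leaf K2_ok TD_l16915 _)))
                 (CovZ.n1 (26832, 25656) (by decide +kernel)
                  (CovZ.n2 (26844, 25668) (by decide +kernel)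
                   (CovZ.leaf K2_ok TD_l16916 _)
                   (CovZ.leaf K2_ok TD_l18453 _))
                  (CovZ.leaf K2_ok TD_l16917 _)))))))
            (CovZ.n1 (26784, 25536) (by decide +kernel)
             (CovZ.n2 (26736, 25584) (by decide +kernel)
              (CovZ.n2 (26784, 25584) (by decide +kernel)
               (CovZ.n2 (26760, 25560) (by decide +kernel)
                (CovZ.leaf K2_ok TD_l7198 _)
                (CovZ.leaf K2_ok TD_l7199 _))
               (CovZ.n1 (26760, 25608) (by decide +kernel)
                (CovZ.n2 (26784, 25608) (by decide +kernel)
                 (CovZ.leaf K2_ok TD_l16918 _)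
                 (CovZ.leaf K2_ok TD_l16919 _))
                (CovZ.leaf K2_ok TD_l16920 _)))
              (CovZ.n1 (26736, 25536) (by decide +kernel)
               (CovZ.leaf K2_ok TD_l7200 _)
               (CovZ.leaf K2_ok TD_l7201 _)))
             (CovZ.n1 (26832, 25584) (by decide +kernel)
              (CovZ.n2 (26832, 25536) (by decide +kernel)
               (CovZ.leaf K2_ok TD_l7202 _)
               (CovZ.n1 (26856, 25560) (by decide +kernel)
                (CovZ.leaf K2_ok TD_l7203 _)
                (CovZ.leaf K2_ok TD_l7204 _)))
              (CovZ.n1 (26784, 25584) (by decide +kernel)
               (CovZ.n2 (26808, 25608) (by decide +kernel)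
                (CovZ.leaf K2_ok TD_l16921 _)
                (CovZ.leaf K2_ok TD_l16922 _))
               (CovZ.leaf K2_ok TD_l7205 _))))))))
        (CovZ.n1 (26688, 25920) (by decide +kernel)
         (CovZ.badM (by decide +kernel))
         (CovZ.n1 (26688, 25728) (by decide +kernel)
          (CovZ.badM (by decide +kernel))
          (CovZ.badM (by decide +kernel)))))))

theorem TD_u95 : CovZ TD_M (toL (selN TD_LN 7957171782556586288289608663930261016852444603059510641719182318749530912792101100055681)) [0, 7, 6, 1] (29184, 24576) (29184, 25344) (28416, 25344) :=
    (CovZ.n2 (28800, 24960) (by decide +kernel)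
       (CovZ.n2 (28800, 25344) (by decide +kernel)
        (CovZ.n2 (28992, 25152) (by decide +kernel)
         (CovZ.n2 (28800, 25152) (by decide +kernel)
          (CovZ.n2 (28896, 25248) (by decide +kernel)
           (CovZ.leaf K2_ok TD_l8871 _)
           (CovZ.leaf K2_ok TD_l8872 _))
          (CovZ.leaf K2_ok TD_l8873 _))
         (CovZ.n1 (28992, 25344) (by decide +kernel)
          (CovZ.n2 (29088, 25248) (by decide +kernel)
           (CovZ.leaf K2_ok TD_l8874 _)
           (CovZ.leaf K2_ok TD_l8875 _))
          (CovZ.n1 (28896, 25248) (by decide +kernel)
           (CovZ.leaf K2_ok TD_l8876 _)
           (CovZ.n1 (28992, 25248) (by decide +kernel)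
            (CovZ.leaf K2_ok TD_l8877 _)
            (CovZ.leaf K2_ok TD_l8878 _)))))
        (CovZ.n1 (28608, 25152) (by decide +kernel)
         (CovZ.n2 (28608, 25344) (by decide +kernel)
          (CovZ.n2 (28704, 25248) (by decide +kernel)
           (CovZ.leaf K2_ok TD_l8879 _)
           (CovZ.leaf K2_ok TD_l8880 _))
          (CovZ.n1 (28512, 25248) (by decide +kernel)
           (CovZ.leaf K2_ok TD_l8881 _)
           (CovZ.n1 (28608, 25248) (by decide +kernel)
            (CovZ.leaf K2_ok TD_l8882 _)
            (CovZ.leaf K2_ok TD_l8883 _))))
         (CovZ.n1 (28800, 25152) (by decide +kernel)
          (CovZ.n2 (28704, 25056) (by decide +kernel)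
           (CovZ.leaf K2_ok TD_l8884 _)
           (CovZ.leaf K2_ok TD_l8885 _))
          (CovZ.n1 (28704, 25248) (by decide +kernel)
           (CovZ.n2 (28800, 25248) (by decide +kernel)
            (CovZ.leaf K2_ok TD_l8886 _)
            (CovZ.leaf K2_ok TD_l8887 _))
           (CovZ.leaf K2_ok TD_l8888 _)))))
       (CovZ.n1 (29184, 24960) (by decide +kernel)
        (CovZ.n2 (28992, 24768) (by decide +kernel)
         (CovZ.leaf K2_ok TD_l8889 _)
         (CovZ.n1 (29184, 24768) (by decide +kernel)
          (CovZ.leaf K2_ok TD_l8890 _)
          (CovZ.leaf K2_ok TD_l8891 _)))
        (CovZ.n1 (28992, 25152) (by decide +kernel)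
         (CovZ.n2 (29184, 25152) (by decide +kernel)
          (CovZ.n2 (29088, 25056) (by decide +kernel)
           (CovZ.leaf K2_ok TD_l8892 _)
           (CovZ.leaf K2_ok TD_l8893 _))
          (CovZ.n1 (29088, 25248) (by decide +kernel)
           (CovZ.n2 (29184, 25248) (by decide +kernel)
            (CovZ.leaf K2_ok TD_l8894 _)
            (CovZ.leaf K2_ok TD_l8895 _))
           (CovZ.leaf K2_ok TD_l8896 _)))
         (CovZ.n1 (28992, 24960) (by decide +kernel)
          (CovZ.leaf K2_ok TD_l8897 _)
          (CovZ.n1 (29088, 25056) (by decide +kernel)
           (CovZ.leaf K2_ok TD_l8898 _)
           (CovZ.leaf K2_ok TD_l8899 _))))))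

theorem TD_u96 : CovZ TD_M (toL (selN TD_LN 7957171782556586288289608663930261016852444603059510641719182318749530912792101100055681)) [0, 7, 6, 1] (29184, 25344) (29184, 26112) (28416, 25344) :=
    (CovZ.n1 (28800, 25728) (by decide +kernel)
       (CovZ.n2 (29184, 25728) (by decide +kernel)
        (CovZ.n2 (28992, 25536) (by decide +kernel)
         (CovZ.subM 141012366263296 (by decide +kernel)
          (CovZ.n2 (28992, 25728) (by decide +kernel)
           (CovZ.n2 (29088, 25632) (by decide +kernel)
            (CovZ.n2 (28992, 25632) (by decide +kernel)
             (CovZ.badM (by decide +kernel))
             (CovZ.n1 (29040, 25584) (by decide +kernel)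
              (CovZ.n2 (28992, 25584) (by decide +kernel)
               (CovZ.badM (by decide +kernel))
               (CovZ.leaf K2_ok TD_l8900 _))
              (CovZ.badM (by decide +kernel))))
            (CovZ.badM (by decide +kernel)))
           (CovZ.n1 (28896, 25632) (by decide +kernel)
            (CovZ.badM (by decide +kernel))
            (CovZ.n1 (28992, 25632) (by decide +kernel)
             (CovZ.n2 (28944, 25584) (by decide +kernel)
              (CovZ.badM (by decide +kernel))
              (CovZ.n1 (28992, 25584) (by decide +kernel)
               (CovZ.n2 (28968, 25560) (by decide +kernel)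
                (CovZ.leaf K2_ok TD_l8901 _)
                (CovZ.leaf K2_ok TD_l8902 _))
               (CovZ.badM (by decide +kernel))))
             (CovZ.badM (by decide +kernel))))))
         (CovZ.n1 (29184, 25536) (by decide +kernel)
          (CovZ.n2 (29088, 25440) (by decide +kernel)
           (CovZ.subM 374167255119794525494997413948357413882296086301696 (by decide +kernel)
            (CovZ.n2 (29088, 25536) (by decide +kernel)
             (CovZ.n2 (29136, 25488) (by decide +kernel)
              (CovZ.leaf K2_ok TD_l8903 _)
              (CovZ.leaf K2_ok TD_l8904 _))
             (CovZ.n1 (29040, 25488) (by decide +kernel)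
              (CovZ.leaf K2_ok TD_l8905 _)
              (CovZ.n1 (29088, 25488) (by decide +kernel)
               (CovZ.leaf K2_ok TD_l8906 _)
               (CovZ.leaf K2_ok TD_l8907 _)))))
           (CovZ.n1 (29184, 25440) (by decide +kernel)
            (CovZ.n2 (29136, 25392) (by decide +kernel)
             (CovZ.leaf K2_ok TD_l8908 _)
             (CovZ.leaf K2_ok TD_l8909 _))
            (CovZ.n1 (29136, 25488) (by decide +kernel)
             (CovZ.n2 (29184, 25488) (by decide +kernel)
              (CovZ.leaf K2_ok TD_l8910 _)
              (CovZ.leaf K2_ok TD_l8911 _))
             (CovZ.leaf K2_ok TD_l8912 _))))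
          (CovZ.subM 141012366263296 (by decide +kernel)
           (CovZ.n1 (29088, 25632) (by decide +kernel)
            (CovZ.n2 (29184, 25632) (by decide +kernel)
             (CovZ.n2 (29136, 25584) (by decide +kernel)
              (CovZ.badM (by decide +kernel))
              (CovZ.n1 (29184, 25584) (by decide +kernel)
               (CovZ.n2 (29160, 25560) (by decide +kernel)
                (CovZ.leaf K2_ok TD_l8913 _)
                (CovZ.leaf K2_ok TD_l8914 _))
               (CovZ.badM (by decide +kernel))))
             (CovZ.badM (by decide +kernel)))
            (CovZ.n1 (29088, 25536) (by decide +kernel)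
             (CovZ.n2 (29040, 25584) (by decide +kernel)
              (CovZ.n2 (29088, 25584) (by decide +kernel)
               (CovZ.n2 (29064, 25560) (by decide +kernel)
                (CovZ.leaf K2_ok TD_l8915 _)
                (CovZ.leaf K2_ok TD_l8916 _))
               (CovZ.badM (by decide +kernel)))
              (CovZ.n1 (29040, 25536) (by decide +kernel)
               (CovZ.n2 (29016, 25560) (by decide +kernel)
                (CovZ.leaf K2_ok TD_l8917 _)
                (CovZ.leaf K2_ok TD_l8918 _))
               (CovZ.n1 (29064, 25560) (by decide +kernel)
                (CovZ.leaf K2_ok TD_l8919 _)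
                (CovZ.leaf K2_ok TD_l8920 _))))
             (CovZ.n1 (29136, 25584) (by decide +kernel)
              (CovZ.n2 (29136, 25536) (by decide +kernel)
               (CovZ.leaf K2_ok TD_l8921 _)
               (CovZ.n1 (29160, 25560) (by decide +kernel)
                (CovZ.leaf K2_ok TD_l8922 _)
                (CovZ.leaf K2_ok TD_l8923 _)))
              (CovZ.n1 (29088, 25584) (by decide +kernel)
               (CovZ.badM (by decide +kernel))
               (CovZ.leaf K2_ok TD_l8924 _))))))))
        (CovZ.badM (by decide +kernel)))
       (CovZ.n1 (28800, 25344) (by decide +kernel)
        (CovZ.n2 (28608, 25536) (by decide +kernel)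
         (CovZ.subM 13803492693581127575243678979673845430397215358289130524207344533924864 (by decide +kernel)
          (CovZ.n2 (28800, 25536) (by decide +kernel)
           (CovZ.n2 (28704, 25440) (by decide +kernel)
            (CovZ.n2 (28704, 25536) (by decide +kernel)
             (CovZ.n2 (28752, 25488) (by decide +kernel)
              (CovZ.leaf K2_ok TD_l8925 _)
              (CovZ.leaf K2_ok TD_l8926 _))
             (CovZ.n1 (28656, 25488) (by decide +kernel)
              (CovZ.leaf K2_ok TD_l8927 _)
              (CovZ.n1 (28704, 25488) (by decide +kernel)
               (CovZ.leaf K2_ok TD_l8928 _)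
               (CovZ.leaf K2_ok TD_l8929 _))))
            (CovZ.n1 (28800, 25440) (by decide +kernel)
             (CovZ.n2 (28752, 25392) (by decide +kernel)
              (CovZ.leaf K2_ok TD_l8930 _)
              (CovZ.leaf K2_ok TD_l8931 _))
             (CovZ.n1 (28752, 25488) (by decide +kernel)
              (CovZ.n2 (28800, 25488) (by decide +kernel)
               (CovZ.leaf K2_ok TD_l8932 _)
               (CovZ.leaf K2_ok TD_l8933 _))
              (CovZ.leaf K2_ok TD_l8934 _))))
           (CovZ.subM 22835963083378434849145012831819311685555979264 (by decide +kernel)
            (CovZ.n1 (28704, 25632) (by decide +kernel)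
             (CovZ.n2 (28800, 25632) (by decide +kernel)
              (CovZ.n2 (28752, 25584) (by decide +kernel)
               (CovZ.badM (by decide +kernel))
               (CovZ.n1 (28800, 25584) (by decide +kernel)
                (CovZ.n2 (28776, 25560) (by decide +kernel)
                 (CovZ.leaf K2_ok TD_l8935 _)
                 (CovZ.leaf K2_ok TD_l8936 _))
                (CovZ.badM (by decide +kernel))))
              (CovZ.badM (by decide +kernel)))
             (CovZ.n1 (28704, 25536) (by decide +kernel)
              (CovZ.n2 (28656, 25584) (by decide +kernel)
               (CovZ.n2 (28704, 25584) (by decide +kernel)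
                (CovZ.n2 (28680, 25560) (by decide +kernel)
                 (CovZ.leaf K2_ok TD_l8937 _)
                 (CovZ.leaf K2_ok TD_l8938 _))
                (CovZ.badM (by decide +kernel)))
               (CovZ.n1 (28656, 25536) (by decide +kernel)
                (CovZ.leaf K2_ok TD_l8939 _)
                (CovZ.leaf K2_ok TD_l8940 _)))
              (CovZ.n1 (28752, 25584) (by decide +kernel)
               (CovZ.n2 (28752, 25536) (by decide +kernel)
                (CovZ.leaf K2_ok TD_l8941 _)
                (CovZ.n1 (28776, 25560) (by decide +kernel)
                 (CovZ.leaf K2_ok TD_l8942 _)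
                 (CovZ.leaf K2_ok TD_l8943 _)))
               (CovZ.n1 (28704, 25584) (by decide +kernel)
                (CovZ.badM (by decide +kernel))
                (CovZ.leaf K2_ok TD_l8944 _))))))))
         (CovZ.n1 (28608, 25344) (by decide +kernel)
          (CovZ.n2 (28512, 25440) (by decide +kernel)
           (CovZ.n2 (28608, 25440) (by decide +kernel)
            (CovZ.n2 (28560, 25392) (by decide +kernel)
             (CovZ.leaf K2_ok TD_l8945 _)
             (CovZ.leaf K2_ok TD_l8946 _))
            (CovZ.n1 (28560, 25488) (by decide +kernel)
             (CovZ.leaf K2_ok TD_l8947 _)
             (CovZ.leaf K2_ok TD_l8948 _)))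
           (CovZ.n1 (28512, 25344) (by decide +kernel)
            (CovZ.leaf K2_ok TD_l8949 _)
            (CovZ.n1 (28560, 25392) (by decide +kernel)
             (CovZ.leaf K2_ok TD_l8950 _)
             (CovZ.leaf K2_ok TD_l8951 _))))
          (CovZ.n1 (28704, 25440) (by decide +kernel)
           (CovZ.n2 (28704, 25344) (by decide +kernel)
            (CovZ.leaf K2_ok TD_l8952 _)
            (CovZ.n1 (28752, 25392) (by decide +kernel)
             (CovZ.leaf K2_ok TD_l8953 _)
             (CovZ.leaf K2_ok TD_l8954 _)))
           (CovZ.n1 (28608, 25440) (by decide +kernel)
            (CovZ.n2 (28656, 25488) (by decide +kernel)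
             (CovZ.leaf K2_ok TD_l8955 _)
             (CovZ.leaf K2_ok TD_l8956 _))
            (CovZ.leaf K2_ok TD_l8957 _)))))
        (CovZ.n1 (28992, 25536) (by decide +kernel)
         (CovZ.n2 (28992, 25344) (by decide +kernel)
          (CovZ.subM 13803492693581127575243678979673845430397215358289130524207344533924864 (by decide +kernel)
           (CovZ.n2 (28896, 25440) (by decide +kernel)
            (CovZ.n2 (28992, 25440) (by decide +kernel)
             (CovZ.n2 (28944, 25392) (by decide +kernel)
              (CovZ.leaf K2_ok TD_l8958 _)
              (CovZ.leaf K2_ok TD_l8959 _))
             (CovZ.n1 (28944, 25488) (by decide +kernel)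
              (CovZ.n2 (28992, 25488) (by decide +kernel)
               (CovZ.leaf K2_ok TD_l8960 _)
               (CovZ.leaf K2_ok TD_l8961 _))
              (CovZ.leaf K2_ok TD_l8962 _)))
            (CovZ.n1 (28896, 25344) (by decide +kernel)
             (CovZ.leaf K2_ok TD_l8963 _)
             (CovZ.n1 (28944, 25392) (by decide +kernel)
              (CovZ.leaf K2_ok TD_l8964 _)
              (CovZ.leaf K2_ok TD_l8965 _)))))
          (CovZ.n1 (29088, 25440) (by decide +kernel)
           (CovZ.n2 (29088, 25344) (by decide +kernel)
            (CovZ.leaf K2_ok TD_l8966 _)
            (CovZ.n1 (29136, 25392) (by decide +kernel)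
             (CovZ.leaf K2_ok TD_l8967 _)
             (CovZ.leaf K2_ok TD_l8968 _)))
           (CovZ.n1 (28992, 25440) (by decide +kernel)
            (CovZ.n2 (29040, 25488) (by decide +kernel)
             (CovZ.leaf K2_ok TD_l8969 _)
             (CovZ.leaf K2_ok TD_l8970 _))
            (CovZ.leaf K2_ok TD_l8971 _))))
         (CovZ.subM 13803492693581127575243678979673845430397215358289130524207344533924864 (by decide +kernel)
          (CovZ.n1 (28800, 25536) (by decide +kernel)
           (CovZ.subM 22835963083295358096932575511192063194490209280 (by decide +kernel)
            (CovZ.n2 (28896, 25632) (by decide +kernel)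
             (CovZ.n2 (28896, 25536) (by decide +kernel)
              (CovZ.n2 (28848, 25584) (by decide +kernel)
               (CovZ.n2 (28896, 25584) (by decide +kernel)
                (CovZ.n2 (28872, 25560) (by decide +kernel)
                 (CovZ.leaf K2_ok TD_l8972 _)
                 (CovZ.leaf K2_ok TD_l8973 _))
                (CovZ.badM (by decide +kernel)))
               (CovZ.n1 (28848, 25536) (by decide +kernel)
                (CovZ.leaf K2_ok TD_l8974 _)
                (CovZ.n1 (28872, 25560) (by decide +kernel)
                 (CovZ.leaf K2_ok TD_l8975 _)
                 (CovZ.leaf K2_ok TD_l8976 _))))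
              (CovZ.n1 (28944, 25584) (by decide +kernel)
               (CovZ.n2 (28944, 25536) (by decide +kernel)
                (CovZ.leaf K2_ok TD_l8977 _)
                (CovZ.n1 (28968, 25560) (by decide +kernel)
                 (CovZ.leaf K2_ok TD_l8978 _)
                 (CovZ.leaf K2_ok TD_l8979 _)))
               (CovZ.n1 (28896, 25584) (by decide +kernel)
                (CovZ.badM (by decide +kernel))
                (CovZ.leaf K2_ok TD_l8980 _))))
             (CovZ.n1 (28800, 25632) (by decide +kernel)
              (CovZ.badM (by decide +kernel))
              (CovZ.n1 (28848, 25584) (by decide +kernel)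
               (CovZ.n2 (28800, 25584) (by decide +kernel)
                (CovZ.badM (by decide +kernel))
                (CovZ.leaf K2_ok TD_l8981 _))
               (CovZ.badM (by decide +kernel))))))
           (CovZ.n1 (28896, 25440) (by decide +kernel)
            (CovZ.n2 (28800, 25440) (by decide +kernel)
             (CovZ.n2 (28848, 25488) (by decide +kernel)
              (CovZ.leaf K2_ok TD_l8982 _)
              (CovZ.leaf K2_ok TD_l8983 _))
             (CovZ.leaf K2_ok TD_l8984 _))
            (CovZ.n1 (28896, 25536) (by decide +kernel)
             (CovZ.n2 (28944, 25488) (by decide +kernel)
              (CovZ.leaf K2_ok TD_l8985 _)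
              (CovZ.n1 (28944, 25536) (by decide +kernel)
               (CovZ.leaf K2_ok TD_l8986 _)
               (CovZ.leaf K2_ok TD_l8987 _)))
             (CovZ.n1 (28848, 25488) (by decide +kernel)
              (CovZ.leaf K2_ok TD_l8988 _)
              (CovZ.n1 (28896, 25488) (by decide +kernel)
               (CovZ.leaf K2_ok TD_l8989 _)
               (CovZ.leaf K2_ok TD_l8990 _))))))))))

theorem TD_u97 : CovZ TD_M (toL (selN TD_LN 533130509431291280404373262706973119884283032439022858302954609950791327192423384387420160)) [0, 7, 6, 1] (27840, 25728) (27744, 25728) (27744, 25632) :=
    (CovZ.n2 (27792, 25680) (by decide +kernel)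
              (CovZ.n2 (27744, 25680) (by decide +kernel)
               (CovZ.subM 1149371655649416643851837020099289129770542282905223168 (by decide +kernel)
                (CovZ.n2 (27768, 25704) (by decide +kernel)
                 (CovZ.n2 (27768, 25680) (by decide +kernel)
                  (CovZ.n2 (27756, 25692) (by decide +kernel)
                   (CovZ.n2 (27768, 25692) (by decide +kernel)
                    (CovZ.leaf K2_ok TD_l17572 _)
                    (CovZ.leaf K2_ok TD_l17573 _))
                   (CovZ.leaf K2_ok TD_l17574 _))
                  (CovZ.n1 (27780, 25692) (by decide +kernel)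
                   (CovZ.leaf K2_ok TD_l17575 _)
                   (CovZ.leaf K2_ok TD_l17576 _)))
                 (CovZ.n1 (27744, 25704) (by decide +kernel)
                  (CovZ.n2 (27756, 25716) (by decide +kernel)
                   (CovZ.n2 (27756, 25704) (by decide +kernel)
                    (CovZ.n2 (27750, 25710) (by decide +kernel)
                     (CovZ.n2 (27756, 25710) (by decide +kernel)
                      (CovZ.leaf K2_ok TD_l17577 _)
                      (CovZ.badM (by decide +kernel)))
                     (CovZ.leaf K2_ok TD_l17578 _))
                    (CovZ.n1 (27762, 25710) (by decide +kernel)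
                     (CovZ.leaf K2_ok TD_l17579 _)
                     (CovZ.n1 (27756, 25710) (by decide +kernel)
                      (CovZ.badM (by decide +kernel))
                      (CovZ.leaf K2_ok TD_l17580 _))))
                   (CovZ.n1 (27744, 25716) (by decide +kernel)
                    (CovZ.badM (by decide +kernel))
                    (CovZ.n1 (27750, 25710) (by decide +kernel)
                     (CovZ.n2 (27744, 25710) (by decide +kernel)
                      (CovZ.badM (by decide +kernel))
                      (CovZ.leaf K2_ok TD_l17581 _))
                     (CovZ.badM (by decide +kernel)))))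
                  (CovZ.n1 (27756, 25692) (by decide +kernel)
                   (CovZ.n2 (27744, 25692) (by decide +kernel)
                    (CovZ.n2 (27750, 25698) (by decide +kernel)
                     (CovZ.leaf K2_ok TD_l17582 _)
                     (CovZ.leaf K2_ok TD_l17583 _))
                    (CovZ.leaf K2_ok TD_l17584 _))
                   (CovZ.n1 (27756, 25704) (by decide +kernel)
                    (CovZ.leaf K2_ok TD_l17585 _)
                    (CovZ.n1 (27750, 25698) (by decide +kernel)
                     (CovZ.leaf K2_ok TD_l17586 _)
                     (CovZ.leaf K2_ok TD_l17587 _)))))))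
               (CovZ.n1 (27768, 25656) (by decide +kernel)
                (CovZ.n2 (27744, 25656) (by decide +kernel)
                 (CovZ.n2 (27756, 25668) (by decide +kernel)
                  (CovZ.leaf K2_ok TD_l17588 _)
                  (CovZ.leaf K2_ok TD_l17589 _))
                 (CovZ.leaf K2_ok TD_l17590 _))
                (CovZ.subM 7957171782556586274486115970349134590978954062174208660112439514495554626549877194096640 (by decide +kernel)
                 (CovZ.n1 (27768, 25680) (by decide +kernel)
                  (CovZ.n2 (27780, 25668) (by decide +kernel)
                   (CovZ.leaf K2_ok TD_l17591 _)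
                   (CovZ.leaf K2_ok TD_l17592 _))
                  (CovZ.n1 (27756, 25668) (by decide +kernel)
                   (CovZ.leaf K2_ok TD_l17593 _)
                   (CovZ.leaf K2_ok TD_l17594 _))))))
              (CovZ.subM 1149371655649416643851837020099289129770542282905223168 (by decide +kernel)
               (CovZ.n1 (27792, 25728) (by decide +kernel)
                (CovZ.n2 (27816, 25704) (by decide +kernel)
                 (CovZ.n2 (27792, 25704) (by decide +kernel)
                  (CovZ.n2 (27804, 25716) (by decide +kernel)
                   (CovZ.n2 (27804, 25704) (by decide +kernel)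
                    (CovZ.n2 (27798, 25710) (by decide +kernel)
                     (CovZ.n2 (27804, 25710) (by decide +kernel)
                      (CovZ.leaf K2_ok TD_l17595 _)
                      (CovZ.badM (by decide +kernel)))
                     (CovZ.leaf K2_ok TD_l17596 _))
                    (CovZ.leaf K2_ok TD_l17597 _))
                   (CovZ.n1 (27792, 25716) (by decide +kernel)
                    (CovZ.badM (by decide +kernel))
                    (CovZ.n1 (27798, 25710) (by decide +kernel)
                     (CovZ.leaf K2_ok TD_l17598 _)
                     (CovZ.badM (by decide +kernel)))))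
                  (CovZ.n1 (27804, 25692) (by decide +kernel)
                   (CovZ.leaf K2_ok TD_l17599 _)
                   (CovZ.n1 (27804, 25704) (by decide +kernel)
                    (CovZ.leaf K2_ok TD_l17600 _)
                    (CovZ.leaf K2_ok TD_l17601 _))))
                 (CovZ.n1 (27816, 25728) (by decide +kernel)
                  (CovZ.badM (by decide +kernel))
                  (CovZ.n1 (27804, 25716) (by decide +kernel)
                   (CovZ.badM (by decide +kernel))
                   (CovZ.n1 (27816, 25716) (by decide +kernel)
                    (CovZ.n2 (27810, 25710) (by decide +kernel)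
                     (CovZ.badM (by decide +kernel))
                     (CovZ.badM (by decide +kernel)))
                    (CovZ.badM (by decide +kernel))))))
                (CovZ.n1 (27768, 25704) (by decide +kernel)
                 (CovZ.n2 (27768, 25728) (by decide +kernel)
                  (CovZ.n2 (27780, 25716) (by decide +kernel)
                   (CovZ.n2 (27768, 25716) (by decide +kernel)
                    (CovZ.badM (by decide +kernel))
                    (CovZ.n1 (27774, 25710) (by decide +kernel)
                     (CovZ.leaf K2_ok TD_l17604 _)
                     (CovZ.badM (by decide +kernel))))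
                   (CovZ.badM (by decide +kernel)))
                  (CovZ.n1 (27756, 25716) (by decide +kernel)
                   (CovZ.badM (by decide +kernel))
                   (CovZ.n1 (27768, 25716) (by decide +kernel)
                    (CovZ.n2 (27762, 25710) (by decide +kernel)
                     (CovZ.badM (by decide +kernel))
                     (CovZ.n1 (27768, 25710) (by decide +kernel)
                      (CovZ.leaf K2_ok TD_l17605 _)
                      (CovZ.badM (by decide +kernel))))
                    (CovZ.badM (by decide +kernel)))))
                 (CovZ.n1 (27792, 25704) (by decide +kernel)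
                  (CovZ.n2 (27780, 25692) (by decide +kernel)
                   (CovZ.leaf K2_ok TD_l17606 _)
                   (CovZ.n1 (27792, 25692) (by decide +kernel)
                    (CovZ.leaf K2_ok TD_l17607 _)
                    (CovZ.leaf K2_ok TD_l17608 _)))
                  (CovZ.n1 (27780, 25716) (by decide +kernel)
                   (CovZ.n2 (27792, 25716) (by decide +kernel)
                    (CovZ.leaf K2_ok TD_l17609 _)
                    (CovZ.badM (by decide +kernel)))
                   (CovZ.n1 (27780, 25704) (by decide +kernel)
                    (CovZ.n2 (27774, 25710) (by decide +kernel)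
                     (CovZ.n2 (27780, 25710) (by decide +kernel)
                      (CovZ.leaf K2_ok TD_l17610 _)
                      (CovZ.badM (by decide +kernel)))
                     (CovZ.leaf K2_ok TD_l17611 _))
                    (CovZ.n1 (27786, 25710) (by decide +kernel)
                     (CovZ.leaf K2_ok TD_l17612 _)
                     (CovZ.leaf K2_ok TD_l17613 _)))))))))

theorem TD_u98 : CovZ TD_M (toL (selN TD_LN 533130509431291280404373262706973119884283032439022858302954609950791327192423384387420160)) [0, 7, 6, 1] (27744, 25728) (27648, 25728) (27744, 25632) :=
    (CovZ.n1 (27696, 25680) (by decide +kernel)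
              (CovZ.subM 7957171782556586274486115970349183630836261770617674797989312539473557522394726789021696 (by decide +kernel)
               (CovZ.n2 (27696, 25728) (by decide +kernel)
                (CovZ.n2 (27720, 25704) (by decide +kernel)
                 (CovZ.n2 (27696, 25704) (by decide +kernel)
                  (CovZ.n2 (27708, 25716) (by decide +kernel)
                   (CovZ.n2 (27708, 25704) (by decide +kernel)
                    (CovZ.n2 (27702, 25710) (by decide +kernel)
                     (CovZ.n2 (27708, 25710) (by decide +kernel)
                      (CovZ.leaf K2_ok TD_l17614 _)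
                      (CovZ.badM (by decide +kernel)))
                     (CovZ.leaf K2_ok TD_l17615 _))
                    (CovZ.n1 (27714, 25710) (by decide +kernel)
                     (CovZ.leaf K2_ok TD_l17616 _)
                     (CovZ.leaf K2_ok TD_l17617 _)))
                   (CovZ.n1 (27696, 25716) (by decide +kernel)
                    (CovZ.badM (by decide +kernel))
                    (CovZ.leaf K2_ok TD_l17618 _)))
                  (CovZ.n1 (27708, 25692) (by decide +kernel)
                   (CovZ.n2 (27696, 25692) (by decide +kernel)
                    (CovZ.n2 (27702, 25698) (by decide +kernel)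
                     (CovZ.leaf K2_ok TD_l17619 _)
                     (CovZ.leaf K2_ok TD_l17620 _))
                    (CovZ.leaf K2_ok TD_l17621 _))
                   (CovZ.n1 (27708, 25704) (by decide +kernel)
                    (CovZ.leaf K2_ok TD_l17622 _)
                    (CovZ.leaf K2_ok TD_l17623 _))))
                 (CovZ.n1 (27720, 25728) (by decide +kernel)
                  (CovZ.n2 (27732, 25716) (by decide +kernel)
                   (CovZ.n2 (27720, 25716) (by decide +kernel)
                    (CovZ.badM (by decide +kernel))
                    (CovZ.leaf K2_ok TD_l17624 _))
                   (CovZ.badM (by decide +kernel)))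
                  (CovZ.n1 (27708, 25716) (by decide +kernel)
                   (CovZ.badM (by decide +kernel))
                   (CovZ.n1 (27720, 25716) (by decide +kernel)
                    (CovZ.n2 (27714, 25710) (by decide +kernel)
                     (CovZ.badM (by decide +kernel))
                     (CovZ.n1 (27720, 25710) (by decide +kernel)
                      (CovZ.leaf K2_ok TD_l17625 _)
                      (CovZ.badM (by decide +kernel))))
                    (CovZ.badM (by decide +kernel))))))
                (CovZ.n1 (27672, 25704) (by decide +kernel)
                 (CovZ.n2 (27672, 25728) (by decide +kernel)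
                  (CovZ.n2 (27684, 25716) (by decide +kernel)
                   (CovZ.n2 (27672, 25716) (by decide +kernel)
                    (CovZ.badM (by decide +kernel))
                    (CovZ.n1 (27678, 25710) (by decide +kernel)
                     (CovZ.leaf K2_ok TD_l17626 _)
                     (CovZ.badM (by decide +kernel))))
                   (CovZ.badM (by decide +kernel)))
                  (CovZ.n1 (27660, 25716) (by decide +kernel)
                   (CovZ.badM (by decide +kernel))
                   (CovZ.n1 (27672, 25716) (by decide +kernel)
                    (CovZ.n2 (27666, 25710) (by decide +kernel)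
                     (CovZ.badM (by decide +kernel))
                     (CovZ.leaf K2_ok TD_l17627 _))
                    (CovZ.badM (by decide +kernel)))))
                 (CovZ.n1 (27696, 25704) (by decide +kernel)
                  (CovZ.n2 (27684, 25692) (by decide +kernel)
                   (CovZ.leaf K2_ok TD_l17628 _)
                   (CovZ.n1 (27696, 25692) (by decide +kernel)
                    (CovZ.leaf K2_ok TD_l17629 _)
                    (CovZ.leaf K2_ok TD_l17630 _)))
                  (CovZ.n1 (27684, 25716) (by decide +kernel)
                   (CovZ.n2 (27696, 25716) (by decide +kernel)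
                    (CovZ.n2 (27690, 25710) (by decide +kernel)
                     (CovZ.badM (by decide +kernel))
                     (CovZ.leaf K2_ok TD_l17631 _))
                    (CovZ.badM (by decide +kernel)))
                   (CovZ.n1 (27684, 25704) (by decide +kernel)
                    (CovZ.n2 (27678, 25710) (by decide +kernel)
                     (CovZ.n2 (27684, 25710) (by decide +kernel)
                      (CovZ.leaf K2_ok TD_l17632 _)
                      (CovZ.badM (by decide +kernel)))
                     (CovZ.leaf K2_ok TD_l17633 _))
                    (CovZ.n1 (27690, 25710) (by decide +kernel)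
                     (CovZ.leaf K2_ok TD_l17634 _)
                     (CovZ.leaf K2_ok TD_l17635 _))))))))
              (CovZ.n1 (27744, 25680) (by decide +kernel)
               (CovZ.n2 (27720, 25656) (by decide +kernel)
                (CovZ.n2 (27720, 25680) (by decide +kernel)
                 (CovZ.leaf K2_ok TD_l17636 _)
                 (CovZ.n1 (27708, 25668) (by decide +kernel)
                  (CovZ.leaf K2_ok TD_l17637 _)
                  (CovZ.leaf K2_ok TD_l17638 _)))
                (CovZ.n1 (27744, 25656) (by decide +kernel)
                 (CovZ.leaf K2_ok TD_l17639 _)
                 (CovZ.leaf K2_ok TD_l17640 _)))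
               (CovZ.subM 7957171782556586274486115970349183630836261770617674797989312539473557522394726789021696 (by decide +kernel)
                (CovZ.n1 (27720, 25704) (by decide +kernel)
                 (CovZ.n2 (27744, 25704) (by decide +kernel)
                  (CovZ.n2 (27732, 25692) (by decide +kernel)
                   (CovZ.n2 (27732, 25704) (by decide +kernel)
                    (CovZ.n2 (27738, 25698) (by decide +kernel)
                     (CovZ.leaf K2_ok TD_l17641 _)
                     (CovZ.leaf K2_ok TD_l17642 _))
                    (CovZ.n1 (27726, 25698) (by decide +kernel)
                     (CovZ.leaf K2_ok TD_l17643 _)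
                     (CovZ.leaf K2_ok TD_l17644 _)))
                   (CovZ.n1 (27744, 25692) (by decide +kernel)
                    (CovZ.leaf K2_ok TD_l17645 _)
                    (CovZ.n1 (27738, 25698) (by decide +kernel)
                     (CovZ.leaf K2_ok TD_l17646 _)
                     (CovZ.leaf K2_ok TD_l17647 _))))
                  (CovZ.n1 (27732, 25716) (by decide +kernel)
                   (CovZ.n2 (27744, 25716) (by decide +kernel)
                    (CovZ.n2 (27738, 25710) (by decide +kernel)
                     (CovZ.badM (by decide +kernel))
                     (CovZ.n1 (27744, 25710) (by decide +kernel)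
                      (CovZ.leaf K2_ok TD_l17648 _)
                      (CovZ.badM (by decide +kernel))))
                    (CovZ.badM (by decide +kernel)))
                   (CovZ.n1 (27732, 25704) (by decide +kernel)
                    (CovZ.n2 (27726, 25710) (by decide +kernel)
                     (CovZ.leaf K2_ok TD_l17649 _)
                     (CovZ.leaf K2_ok TD_l17650 _))
                    (CovZ.n1 (27738, 25710) (by decide +kernel)
                     (CovZ.leaf K2_ok TD_l17651 _)
                     (CovZ.leaf K2_ok TD_l17652 _)))))
                 (CovZ.n1 (27720, 25680) (by decide +kernel)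
                  (CovZ.n2 (27708, 25692) (by decide +kernel)
                   (CovZ.n2 (27720, 25692) (by decide +kernel)
                    (CovZ.leaf K2_ok TD_l17653 _)
                    (CovZ.leaf K2_ok TD_l17654 _))
                   (CovZ.leaf K2_ok TD_l17655 _))
                  (CovZ.n1 (27732, 25692) (by decide +kernel)
                   (CovZ.n2 (27732, 25680) (by decide +kernel)
                    (CovZ.leaf K2_ok TD_l17656 _)
                    (CovZ.leaf K2_ok TD_l17657 _))
                   (CovZ.leaf K2_ok TD_l17658 _)))))))

theorem TD_u99 : CovZ TD_M (toL (selN TD_LN 8409420656326007470033354417783269761575357258132105939657722964932919847985739211220549954565)) [0, 7, 6, 1] (27648, 25728) (27648, 25344) (28032, 25728) :=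
    (CovZ.n1 (27840, 25536) (by decide +kernel)
        (CovZ.n2 (27648, 25536) (by decide +kernel)
         (CovZ.subM 8409418666547364965055508775157134096739726156918229297398244346319720865704313020938295706624 (by decide +kernel)
          (CovZ.n2 (27744, 25632) (by decide +kernel)
           (CovZ.n2 (27744, 25536) (by decide +kernel)
            (CovZ.n2 (27696, 25584) (by decide +kernel)
             (CovZ.n2 (27744, 25584) (by decide +kernel)
              (CovZ.leaf K2_ok TD_l9069 _)
              (CovZ.n1 (27720, 25608) (by decide +kernel)
               (CovZ.leaf K2_ok TD_l17501 _)
               (CovZ.leaf K2_ok TD_l17502 _)))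
             (CovZ.leaf K2_ok TD_l9070 _))
            (CovZ.subM 65702367408569732868445663059866375956076078420112144470209587073976220997145798038102475776 (by decide +kernel)
             (CovZ.n1 (27792, 25584) (by decide +kernel)
              (CovZ.n2 (27792, 25536) (by decide +kernel)
               (CovZ.leaf K2_ok TD_l9071 _)
               (CovZ.leaf K2_ok TD_l9072 _))
              (CovZ.n1 (27744, 25584) (by decide +kernel)
               (CovZ.n2 (27768, 25608) (by decide +kernel)
                (CovZ.leaf K2_ok TD_l17503 _)
                (CovZ.leaf K2_ok TD_l17504 _))
               (CovZ.leaf K2_ok TD_l9073 _)))))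
           (CovZ.n1 (27648, 25632) (by decide +kernel)
            (CovZ.subM 533130509431291280404373262706973119884283032439022858302954609950791327192423384387420160 (by decide +kernel)
             (CovZ.n2 (27696, 25680) (by decide +kernel)
              (CovZ.n2 (27696, 25632) (by decide +kernel)
               (CovZ.n2 (27672, 25656) (by decide +kernel)
                (CovZ.n2 (27696, 25656) (by decide +kernel)
                 (CovZ.leaf K2_ok TD_l17505 _)
                 (CovZ.leaf K2_ok TD_l17506 _))
                (CovZ.leaf K2_ok TD_l17507 _))
               (CovZ.n1 (27720, 25656) (by decide +kernel)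
                (CovZ.n2 (27720, 25632) (by decide +kernel)
                 (CovZ.leaf K2_ok TD_l17508 _)
                 (CovZ.leaf K2_ok TD_l17509 _))
                (CovZ.n1 (27696, 25656) (by decide +kernel)
                 (CovZ.n2 (27708, 25668) (by decide +kernel)
                  (CovZ.leaf K2_ok TD_l17510 _)
                  (CovZ.leaf K2_ok TD_l17511 _))
                 (CovZ.leaf K2_ok TD_l17512 _))))
              (CovZ.n1 (27648, 25680) (by decide +kernel)
               (CovZ.subM 7957171782556586274486115970349183630836261770617674797989312539473557522394726789021696 (by decide +kernel)
                (CovZ.n2 (27672, 25704) (by decide +kernel)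
                 (CovZ.n2 (27672, 25680) (by decide +kernel)
                  (CovZ.n2 (27660, 25692) (by decide +kernel)
                   (CovZ.n2 (27672, 25692) (by decide +kernel)
                    (CovZ.leaf K2_ok TD_l17513 _)
                    (CovZ.leaf K2_ok TD_l17514 _))
                   (CovZ.leaf K2_ok TD_l17515 _))
                  (CovZ.n1 (27684, 25692) (by decide +kernel)
                   (CovZ.leaf K2_ok TD_l17516 _)
                   (CovZ.leaf K2_ok TD_l17517 _)))
                 (CovZ.n1 (27648, 25704) (by decide +kernel)
                  (CovZ.n2 (27660, 25716) (by decide +kernel)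
                   (CovZ.n2 (27660, 25704) (by decide +kernel)
                    (CovZ.n2 (27654, 25710) (by decide +kernel)
                     (CovZ.n2 (27660, 25710) (by decide +kernel)
                      (CovZ.leaf K2_ok TD_l17518 _)
                      (CovZ.badM (by decide +kernel)))
                     (CovZ.n1 (27654, 25704) (by decide +kernel)
                      (CovZ.leaf K2_ok TD_l17519 _)
                      (CovZ.leaf K2_ok TD_l17520 _)))
                    (CovZ.leaf K2_ok TD_l17521 _))
                   (CovZ.n1 (27648, 25716) (by decide +kernel)
                    (CovZ.badM (by decide +kernel))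
                    (CovZ.n1 (27654, 25710) (by decide +kernel)
                     (CovZ.leaf K2_ok TD_l17522 _)
                     (CovZ.badM (by decide +kernel)))))
                  (CovZ.n1 (27660, 25692) (by decide +kernel)
                   (CovZ.leaf K2_ok TD_l17523 _)
                   (CovZ.n1 (27660, 25704) (by decide +kernel)
                    (CovZ.leaf K2_ok TD_l17524 _)
                    (CovZ.leaf K2_ok TD_l17525 _))))))
               (CovZ.n1 (27672, 25656) (by decide +kernel)
                (CovZ.n2 (27648, 25656) (by decide +kernel)
                 (CovZ.n2 (27660, 25668) (by decide +kernel)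
                  (CovZ.leaf K2_ok TD_l17526 _)
                  (CovZ.leaf K2_ok TD_l17527 _))
                 (CovZ.leaf K2_ok TD_l17528 _))
                (CovZ.n1 (27672, 25680) (by decide +kernel)
                 (CovZ.leaf K2_ok TD_l17529 _)
                 (CovZ.n1 (27660, 25668) (by decide +kernel)
                  (CovZ.leaf K2_ok TD_l17530 _)
                  (CovZ.leaf K2_ok TD_l17531 _)))))))
            (CovZ.n1 (27696, 25584) (by decide +kernel)
             (CovZ.n2 (27648, 25584) (by decide +kernel)
              (CovZ.n2 (27672, 25608) (by decide +kernel)
               (CovZ.leaf K2_ok TD_l17532 _)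
               (CovZ.leaf K2_ok TD_l17533 _))
              (CovZ.leaf K2_ok TD_l9074 _))
             (CovZ.n1 (27696, 25632) (by decide +kernel)
              (CovZ.leaf K2_ok TD_l17534 _)
              (CovZ.n1 (27672, 25608) (by decide +kernel)
               (CovZ.leaf K2_ok TD_l17535 _)
               (CovZ.n1 (27696, 25608) (by decide +kernel)
                (CovZ.leaf K2_ok TD_l17536 _)
                (CovZ.leaf K2_ok TD_l17537 _))))))))
         (CovZ.n1 (27744, 25440) (by decide +kernel)
          (CovZ.n2 (27648, 25440) (by decide +kernel)
           (CovZ.n2 (27696, 25488) (by decide +kernel)
            (CovZ.leaf K2_ok TD_l9075 _)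
            (CovZ.leaf K2_ok TD_l9076 _))
           (CovZ.leaf K2_ok TD_l9077 _))
          (CovZ.n1 (27744, 25536) (by decide +kernel)
           (CovZ.n2 (27792, 25488) (by decide +kernel)
            (CovZ.leaf K2_ok TD_l9078 _)
            (CovZ.leaf K2_ok TD_l9079 _))
           (CovZ.n1 (27696, 25488) (by decide +kernel)
            (CovZ.leaf K2_ok TD_l9080 _)
            (CovZ.leaf K2_ok TD_l9081 _)))))
        (CovZ.subM 8344233484221959134683253378416643486409585100099801676436360718532988319641465340666818069504 (by decide +kernel)
         (CovZ.n1 (27840, 25728) (by decide +kernel)
          (CovZ.subM 7957171782556586288289608663930261016851068736283743425297311934692192064134922050208768 (by decide +kernel)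
           (CovZ.n2 (27936, 25632) (by decide +kernel)
            (CovZ.n2 (27840, 25632) (by decide +kernel)
             (CovZ.subM 7957171782556586288289608663930261016476832973274699091612484028679951214742766127939584 (by decide +kernel)
              (CovZ.n2 (27888, 25680) (by decide +kernel)
               (CovZ.n2 (27888, 25632) (by decide +kernel)
                (CovZ.n2 (27864, 25656) (by decide +kernel)
                 (CovZ.n2 (27888, 25656) (by decide +kernel)
                  (CovZ.leaf K2_ok TD_l17538 _)
                  (CovZ.n1 (27876, 25668) (by decide +kernel)
                   (CovZ.leaf K2_ok TD_l17539 _)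
                   (CovZ.leaf K2_ok TD_l17540 _)))
                 (CovZ.leaf K2_ok TD_l17541 _))
                (CovZ.n1 (27912, 25656) (by decide +kernel)
                 (CovZ.leaf K2_ok TD_l17542 _)
                 (CovZ.n1 (27888, 25656) (by decide +kernel)
                  (CovZ.n2 (27900, 25668) (by decide +kernel)
                   (CovZ.leaf K2_ok TD_l17543 _)
                   (CovZ.leaf K2_ok TD_l17544 _))
                  (CovZ.leaf K2_ok TD_l17545 _))))
               (CovZ.n1 (27840, 25680) (by decide +kernel)
                (CovZ.badM (by decide +kernel))
                (CovZ.n1 (27864, 25656) (by decide +kernel)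
                 (CovZ.n2 (27840, 25656) (by decide +kernel)
                  (CovZ.n2 (27852, 25668) (by decide +kernel)
                   (CovZ.leaf K2_ok TD_l17551 _)
                   (CovZ.leaf K2_ok TD_l17552 _))
                  (CovZ.leaf K2_ok TD_l17553 _))
                 (CovZ.n1 (27864, 25680) (by decide +kernel)
                  (CovZ.leaf K2_ok TD_l17554 _)
                  (CovZ.n1 (27852, 25668) (by decide +kernel)
                   (CovZ.leaf K2_ok TD_l17555 _)
                   (CovZ.leaf K2_ok TD_l17556 _)))))))
             (CovZ.n1 (27888, 25584) (by decide +kernel)
              (CovZ.n2 (27840, 25584) (by decide +kernel)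
               (CovZ.n2 (27864, 25608) (by decide +kernel)
                (CovZ.leaf K2_ok TD_l17557 _)
                (CovZ.leaf K2_ok TD_l17558 _))
               (CovZ.leaf K2_ok TD_l9082 _))
              (CovZ.n1 (27888, 25632) (by decide +kernel)
               (CovZ.leaf K2_ok TD_l17559 _)
               (CovZ.n1 (27864, 25608) (by decide +kernel)
                (CovZ.leaf K2_ok TD_l17560 _)
                (CovZ.leaf K2_ok TD_l17561 _)))))
            (CovZ.subM 22835963084707662842454048626152217183671812096 (by decide +kernel)
             (CovZ.n1 (27936, 25728) (by decide +kernel)
              (CovZ.n2 (27984, 25680) (by decide +kernel)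
               (CovZ.n2 (27936, 25680) (by decide +kernel)
                (CovZ.badM (by decide +kernel))
                (CovZ.n1 (27960, 25656) (by decide +kernel)
                 (CovZ.n2 (27936, 25656) (by decide +kernel)
                  (CovZ.n2 (27948, 25668) (by decide +kernel)
                   (CovZ.leaf K2_ok TD_l17562 _)
                   (CovZ.leaf K2_ok TD_l17563 _))
                  (CovZ.leaf K2_ok TD_l17564 _))
                 (CovZ.n1 (27960, 25680) (by decide +kernel)
                  (CovZ.leaf K2_ok TD_l17565 _)
                  (CovZ.n1 (27948, 25668) (by decide +kernel)
                   (CovZ.leaf K2_ok TD_l17566 _)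
                   (CovZ.leaf K2_ok TD_l17567 _)))))
               (CovZ.badM (by decide +kernel)))
              (CovZ.n1 (27888, 25680) (by decide +kernel)
               (CovZ.badM (by decide +kernel))
               (CovZ.n1 (27936, 25680) (by decide +kernel)
                (CovZ.n2 (27912, 25656) (by decide +kernel)
                 (CovZ.n2 (27912, 25680) (by decide +kernel)
                  (CovZ.leaf K2_ok TD_l17568 _)
                  (CovZ.leaf K2_ok TD_l17569 _))
                 (CovZ.n1 (27936, 25656) (by decide +kernel)
                  (CovZ.leaf K2_ok TD_l17570 _)
                  (CovZ.leaf K2_ok TD_l17571 _)))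
                (CovZ.badM (by decide +kernel))))))))
          (CovZ.n1 (27744, 25632) (by decide +kernel)
           (CovZ.subM 533130509431291280404373262706973119884283032439022858302954609950791327192423384387420160 (by decide +kernel)
            (CovZ.n2 (27744, 25728) (by decide +kernel)
             TD_u97
             TD_u98))
           (CovZ.n1 (27840, 25632) (by decide +kernel)
            (CovZ.n2 (27792, 25584) (by decide +kernel)
             (CovZ.subM 517216165866178107855401030766274802428715587039175405524600163588541991498161780640710656 (by decide +kernel)
              (CovZ.n2 (27792, 25632) (by decide +kernel)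
               (CovZ.n2 (27816, 25608) (by decide +kernel)
                (CovZ.leaf K2_ok TD_l17659 _)
                (CovZ.leaf K2_ok TD_l17660 _))
               (CovZ.n1 (27768, 25608) (by decide +kernel)
                (CovZ.leaf K2_ok TD_l17661 _)
                (CovZ.leaf K2_ok TD_l17662 _))))
             (CovZ.subM 7957171782556586288289608663930261399974953952755958014884068722269487968819702596109312 (by decide +kernel)
              (CovZ.n1 (27840, 25584) (by decide +kernel)
               (CovZ.leaf K2_ok TD_l9083 _)
               (CovZ.n1 (27816, 25608) (by decide +kernel)
                (CovZ.n2 (27840, 25608) (by decide +kernel)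
                 (CovZ.leaf K2_ok TD_l17663 _)
                 (CovZ.leaf K2_ok TD_l17664 _))
                (CovZ.leaf K2_ok TD_l17665 _)))))
            (CovZ.subM 517216165866178107855401030766274802428715587039175405519407866730007163869631284311490560 (by decide +kernel)
             (CovZ.n1 (27792, 25680) (by decide +kernel)
              (CovZ.n2 (27840, 25680) (by decide +kernel)
               (CovZ.n2 (27816, 25656) (by decide +kernel)
                (CovZ.n2 (27816, 25680) (by decide +kernel)
                 (CovZ.leaf K2_ok TD_l17666 _)
                 (CovZ.n1 (27804, 25668) (by decide +kernel)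
                  (CovZ.leaf K2_ok TD_l17667 _)
                  (CovZ.leaf K2_ok TD_l17668 _)))
                (CovZ.n1 (27840, 25656) (by decide +kernel)
                 (CovZ.leaf K2_ok TD_l17669 _)
                 (CovZ.n1 (27828, 25668) (by decide +kernel)
                  (CovZ.leaf K2_ok TD_l17670 _)
                  (CovZ.leaf K2_ok TD_l17671 _))))
               (CovZ.subM 383123885216472214672663506524134537961172721813422080 (by decide +kernel)
                (CovZ.n1 (27816, 25704) (by decide +kernel)
                 (CovZ.badM (by decide +kernel))
                 (CovZ.n1 (27816, 25680) (by decide +kernel)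
                  (CovZ.n2 (27804, 25692) (by decide +kernel)
                   (CovZ.n2 (27816, 25692) (by decide +kernel)
                    (CovZ.leaf K2_ok TD_l17682 _)
                    (CovZ.n1 (27810, 25698) (by decide +kernel)
                     (CovZ.badM (by decide +kernel))
                     (CovZ.leaf K2_ok TD_l17684 _)))
                   (CovZ.leaf K2_ok TD_l17685 _))
                  (CovZ.n1 (27828, 25692) (by decide +kernel)
                   (CovZ.leaf K2_ok TD_l17686 _)
                   (CovZ.n1 (27816, 25692) (by decide +kernel)
                    (CovZ.badM (by decide +kernel))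
                    (CovZ.leaf K2_ok TD_l17688 _)))))))
              (CovZ.n1 (27792, 25632) (by decide +kernel)
               (CovZ.n2 (27768, 25656) (by decide +kernel)
                (CovZ.n2 (27792, 25656) (by decide +kernel)
                 (CovZ.leaf K2_ok TD_l17689 _)
                 (CovZ.leaf K2_ok TD_l17690 _))
                (CovZ.leaf K2_ok TD_l17691 _))
               (CovZ.n1 (27816, 25656) (by decide +kernel)
                (CovZ.leaf K2_ok TD_l17692 _)
                (CovZ.n1 (27792, 25656) (by decide +kernel)
                 (CovZ.n2 (27804, 25668) (by decide +kernel)
                  (CovZ.leaf K2_ok TD_l17693 _)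
                  (CovZ.leaf K2_ok TD_l17694 _))
                 (CovZ.leaf K2_ok TD_l17695 _)))))))))))

theorem TD_u100 : CovZ TD_M (toL (selN TD_LN 8409420656326007470033354417783269761575357258132105939657722964932919847985739211220549954565)) [0, 7, 6, 1] (27648, 26112) (27648, 25344) (28416, 25344) :=
    (CovZ.n2 (28032, 25728) (by decide +kernel)
      (CovZ.n2 (28032, 25344) (by decide +kernel)
       (CovZ.n2 (27840, 25536) (by decide +kernel)
        (CovZ.subM 65193108414486111346878551637764031414663841127547881094685034418465145084642251023671389184 (by decide +kernel)
         (CovZ.n2 (28032, 25536) (by decide +kernel)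
          (CovZ.n2 (27936, 25440) (by decide +kernel)
           (CovZ.n2 (27936, 25536) (by decide +kernel)
            (CovZ.leaf K2_ok TD_l9018 _)
            (CovZ.n1 (27888, 25488) (by decide +kernel)
             (CovZ.leaf K2_ok TD_l9019 _)
             (CovZ.n1 (27936, 25488) (by decide +kernel)
              (CovZ.leaf K2_ok TD_l9020 _)
              (CovZ.leaf K2_ok TD_l9021 _))))
           (CovZ.n1 (28032, 25440) (by decide +kernel)
            (CovZ.n2 (27984, 25392) (by decide +kernel)
             (CovZ.leaf K2_ok TD_l9022 _)
             (CovZ.leaf K2_ok TD_l9023 _))
            (CovZ.n1 (27984, 25488) (by decide +kernel)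
             (CovZ.leaf K2_ok TD_l9024 _)
             (CovZ.leaf K2_ok TD_l9025 _))))
          (CovZ.subM 7957171782556586288289608663930261016851068736283743425297311934692192064134922050208768 (by decide +kernel)
           (CovZ.n1 (27936, 25632) (by decide +kernel)
            (CovZ.n2 (28032, 25632) (by decide +kernel)
             (CovZ.n2 (27984, 25584) (by decide +kernel)
              (CovZ.n2 (27984, 25632) (by decide +kernel)
               (CovZ.leaf K2_ok TD_l17456 _)
               (CovZ.n1 (27960, 25608) (by decide +kernel)
                (CovZ.leaf K2_ok TD_l17457 _)
                (CovZ.leaf K2_ok TD_l17458 _)))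
              (CovZ.n1 (28032, 25584) (by decide +kernel)
               (CovZ.leaf K2_ok TD_l9026 _)
               (CovZ.n1 (28008, 25608) (by decide +kernel)
                (CovZ.leaf K2_ok TD_l17459 _)
                (CovZ.leaf K2_ok TD_l17460 _))))
             (CovZ.subM 22835963084707662842454048626152217183671812096 (by decide +kernel)
              (CovZ.n1 (27984, 25680) (by decide +kernel)
               (CovZ.n2 (28032, 25680) (by decide +kernel)
                (CovZ.n2 (28008, 25656) (by decide +kernel)
                 (CovZ.n2 (28008, 25680) (by decide +kernel)
                  (CovZ.leaf K2_ok TD_l17461 _)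
                  (CovZ.n1 (27996, 25668) (by decide +kernel)
                   (CovZ.leaf K2_ok TD_l17462 _)
                   (CovZ.leaf K2_ok TD_l17463 _)))
                 (CovZ.n1 (28032, 25656) (by decide +kernel)
                  (CovZ.n2 (28020, 25644) (by decide +kernel)
                   (CovZ.leaf K2_ok TD_l17464 _)
                   (CovZ.leaf K2_ok TD_l17465 _))
                  (CovZ.n1 (28020, 25668) (by decide +kernel)
                   (CovZ.n2 (28032, 25668) (by decide +kernel)
                    (CovZ.leaf K2_ok TD_l17466 _)
                    (CovZ.leaf K2_ok TD_l17467 _))
                   (CovZ.leaf K2_ok TD_l17468 _))))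
                (CovZ.badM (by decide +kernel)))
               (CovZ.n1 (27984, 25632) (by decide +kernel)
                (CovZ.n2 (27960, 25656) (by decide +kernel)
                 (CovZ.n2 (27984, 25656) (by decide +kernel)
                  (CovZ.leaf K2_ok TD_l17469 _)
                  (CovZ.n1 (27972, 25668) (by decide +kernel)
                   (CovZ.leaf K2_ok TD_l17470 _)
                   (CovZ.leaf K2_ok TD_l17471 _)))
                 (CovZ.leaf K2_ok TD_l17472 _))
                (CovZ.n1 (28008, 25656) (by decide +kernel)
                 (CovZ.n2 (28008, 25632) (by decide +kernel)
                  (CovZ.leaf K2_ok TD_l17473 _)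
                  (CovZ.n1 (28020, 25644) (by decide +kernel)
                   (CovZ.leaf K2_ok TD_l17474 _)
                   (CovZ.leaf K2_ok TD_l17475 _)))
                 (CovZ.n1 (27984, 25656) (by decide +kernel)
                  (CovZ.n2 (27996, 25668) (by decide +kernel)
                   (CovZ.leaf K2_ok TD_l17476 _)
                   (CovZ.leaf K2_ok TD_l17477 _))
                  (CovZ.leaf K2_ok TD_l17478 _)))))))
            (CovZ.n1 (27936, 25536) (by decide +kernel)
             (CovZ.n2 (27888, 25584) (by decide +kernel)
              (CovZ.n2 (27936, 25584) (by decide +kernel)
               (CovZ.leaf K2_ok TD_l9027 _)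
               (CovZ.n1 (27912, 25608) (by decide +kernel)
                (CovZ.leaf K2_ok TD_l17479 _)
                (CovZ.leaf K2_ok TD_l17480 _)))
              (CovZ.n1 (27888, 25536) (by decide +kernel)
               (CovZ.leaf K2_ok TD_l9028 _)
               (CovZ.leaf K2_ok TD_l9029 _)))
             (CovZ.n1 (27984, 25584) (by decide +kernel)
              (CovZ.n2 (27984, 25536) (by decide +kernel)
               (CovZ.leaf K2_ok TD_l9030 _)
               (CovZ.leaf K2_ok TD_l9031 _))
              (CovZ.n1 (27936, 25584) (by decide +kernel)
               (CovZ.n2 (27960, 25608) (by decide +kernel)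
                (CovZ.leaf K2_ok TD_l17481 _)
                (CovZ.leaf K2_ok TD_l17482 _))
               (CovZ.leaf K2_ok TD_l9032 _))))))))
        (CovZ.n1 (27840, 25344) (by decide +kernel)
         (CovZ.n2 (27744, 25440) (by decide +kernel)
          (CovZ.subM 65702367408569732868445663059866375956076079881613781801112829801166472297297139541854940160 (by decide +kernel)
           (CovZ.n2 (27840, 25440) (by decide +kernel)
            (CovZ.n2 (27792, 25392) (by decide +kernel)
             (CovZ.leaf K2_ok TD_l9033 _)
             (CovZ.leaf K2_ok TD_l9034 _))
            (CovZ.n1 (27792, 25488) (by decide +kernel)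
             (CovZ.leaf K2_ok TD_l9035 _)
             (CovZ.leaf K2_ok TD_l9036 _))))
          (CovZ.n1 (27744, 25344) (by decide +kernel)
           (CovZ.leaf K2_ok TD_l9037 _)
           (CovZ.leaf K2_ok TD_l9038 _)))
         (CovZ.subM 65193108414486111346878551637764031414663841127547881094685034418465145084642251023671389184 (by decide +kernel)
          (CovZ.n1 (27936, 25440) (by decide +kernel)
           (CovZ.n2 (27936, 25344) (by decide +kernel)
            (CovZ.leaf K2_ok TD_l9039 _)
            (CovZ.leaf K2_ok TD_l9040 _))
           (CovZ.n1 (27840, 25440) (by decide +kernel)
            (CovZ.n2 (27888, 25488) (by decide +kernel)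
             (CovZ.leaf K2_ok TD_l9041 _)
             (CovZ.leaf K2_ok TD_l9042 _))
            (CovZ.leaf K2_ok TD_l9043 _))))))
       (CovZ.subM 65193108414486111346878551637764031414663841127547881094685034420941025163213011573469637632 (by decide +kernel)
        (CovZ.n1 (28224, 25536) (by decide +kernel)
         (CovZ.n2 (28224, 25344) (by decide +kernel)
          (CovZ.n2 (28128, 25440) (by decide +kernel)
           (CovZ.n2 (28224, 25440) (by decide +kernel)
            (CovZ.n2 (28176, 25392) (by decide +kernel)
             (CovZ.leaf K2_ok TD_l9044 _)
             (CovZ.leaf K2_ok TD_l9045 _))
            (CovZ.n1 (28176, 25488) (by decide +kernel)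
             (CovZ.n2 (28224, 25488) (by decide +kernel)
              (CovZ.leaf K2_ok TD_l9046 _)
              (CovZ.leaf K2_ok TD_l9047 _))
             (CovZ.leaf K2_ok TD_l9048 _)))
           (CovZ.n1 (28128, 25344) (by decide +kernel)
            (CovZ.leaf K2_ok TD_l9049 _)
            (CovZ.leaf K2_ok TD_l9050 _)))
          (CovZ.n1 (28320, 25440) (by decide +kernel)
           (CovZ.n2 (28320, 25344) (by decide +kernel)
            (CovZ.leaf K2_ok TD_l9051 _)
            (CovZ.n1 (28368, 25392) (by decide +kernel)
             (CovZ.leaf K2_ok TD_l9052 _)
             (CovZ.leaf K2_ok TD_l9053 _)))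
           (CovZ.n1 (28224, 25440) (by decide +kernel)
            (CovZ.n2 (28272, 25488) (by decide +kernel)
             (CovZ.leaf K2_ok TD_l9054 _)
             (CovZ.leaf K2_ok TD_l9055 _))
            (CovZ.leaf K2_ok TD_l9056 _))))
         (CovZ.n1 (28032, 25536) (by decide +kernel)
          (CovZ.subM 7957171782556586288289608663930261016851068736283743425297311934692192064134922050208768 (by decide +kernel)
           (CovZ.n2 (28128, 25632) (by decide +kernel)
            (CovZ.n2 (28128, 25536) (by decide +kernel)
             (CovZ.n2 (28080, 25584) (by decide +kernel)
              (CovZ.n2 (28128, 25584) (by decide +kernel)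
               (CovZ.leaf K2_ok TD_l9057 _)
               (CovZ.n1 (28104, 25608) (by decide +kernel)
                (CovZ.n2 (28128, 25608) (by decide +kernel)
                 (CovZ.leaf K2_ok TD_l17483 _)
                 (CovZ.leaf K2_ok TD_l17484 _))
                (CovZ.leaf K2_ok TD_l17485 _)))
              (CovZ.leaf K2_ok TD_l9058 _))
             (CovZ.n1 (28176, 25584) (by decide +kernel)
              (CovZ.n2 (28176, 25536) (by decide +kernel)
               (CovZ.leaf K2_ok TD_l9059 _)
               (CovZ.leaf K2_ok TD_l9060 _))
              (CovZ.n1 (28128, 25584) (by decide +kernel)
               (CovZ.n2 (28152, 25608) (by decide +kernel)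
                (CovZ.leaf K2_ok TD_l17486 _)
                (CovZ.leaf K2_ok TD_l17487 _))
               (CovZ.leaf K2_ok TD_l9061 _))))
            (CovZ.n1 (28032, 25632) (by decide +kernel)
             (CovZ.subM 1412304745521473114960295001547866112 (by decide +kernel)
              (CovZ.n2 (28080, 25680) (by decide +kernel)
               (CovZ.n2 (28080, 25632) (by decide +kernel)
                (CovZ.n2 (28056, 25656) (by decide +kernel)
                 (CovZ.n2 (28080, 25656) (by decide +kernel)
                  (CovZ.leaf K2_ok TD_l17488 _)
                  (CovZ.badM (by decide +kernel)))
                 (CovZ.leaf K2_ok TD_l17489 _))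
                (CovZ.n1 (28104, 25656) (by decide +kernel)
                 (CovZ.leaf K2_ok TD_l17490 _)
                 (CovZ.n1 (28080, 25656) (by decide +kernel)
                  (CovZ.badM (by decide +kernel))
                  (CovZ.leaf K2_ok TD_l17491 _))))
               (CovZ.n1 (28032, 25680) (by decide +kernel)
                (CovZ.badM (by decide +kernel))
                (CovZ.n1 (28056, 25656) (by decide +kernel)
                 (CovZ.n2 (28032, 25656) (by decide +kernel)
                  (CovZ.n2 (28044, 25668) (by decide +kernel)
                   (CovZ.leaf K2_ok TD_l17492 _)
                   (CovZ.leaf K2_ok TD_l17493 _))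
                  (CovZ.leaf K2_ok TD_l17494 _))
                 (CovZ.n1 (28056, 25680) (by decide +kernel)
                  (CovZ.badM (by decide +kernel))
                  (CovZ.n1 (28044, 25668) (by decide +kernel)
                   (CovZ.leaf K2_ok TD_l17495 _)
                   (CovZ.badM (by decide +kernel))))))))
             (CovZ.n1 (28080, 25584) (by decide +kernel)
              (CovZ.n2 (28032, 25584) (by decide +kernel)
               (CovZ.n2 (28056, 25608) (by decide +kernel)
                (CovZ.leaf K2_ok TD_l17496 _)
                (CovZ.leaf K2_ok TD_l17497 _))
               (CovZ.leaf K2_ok TD_l9062 _))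
              (CovZ.n1 (28080, 25632) (by decide +kernel)
               (CovZ.leaf K2_ok TD_l17498 _)
               (CovZ.n1 (28056, 25608) (by decide +kernel)
                (CovZ.leaf K2_ok TD_l17499 _)
                (CovZ.leaf K2_ok TD_l17500 _)))))))
          (CovZ.n1 (28128, 25440) (by decide +kernel)
           (CovZ.n2 (28032, 25440) (by decide +kernel)
            (CovZ.n2 (28080, 25488) (by decide +kernel)
             (CovZ.leaf K2_ok TD_l9063 _)
             (CovZ.leaf K2_ok TD_l9064 _))
            (CovZ.leaf K2_ok TD_l9065 _))
           (CovZ.n1 (28128, 25536) (by decide +kernel)
            (CovZ.leaf K2_ok TD_l9066 _)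
            (CovZ.n1 (28080, 25488) (by decide +kernel)
             (CovZ.leaf K2_ok TD_l9067 _)
             (CovZ.leaf K2_ok TD_l9068 _))))))))
      (CovZ.n1 (27648, 25728) (by decide +kernel)
       (CovZ.subM 50572352848574332325825451895960203059418391032058871808 (by decide +kernel)
        (CovZ.n2 (27840, 25920) (by decide +kernel)
         (CovZ.n2 (27840, 25728) (by decide +kernel)
          (CovZ.n2 (27744, 25824) (by decide +kernel)
           (CovZ.badM (by decide +kernel))
           (CovZ.n1 (27744, 25728) (by decide +kernel)
            (CovZ.badM (by decide +kernel))
            (CovZ.badM (by decide +kernel))))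
          (CovZ.badM (by decide +kernel)))
         (CovZ.badM (by decide +kernel))))
       TD_u99))

theorem TD_u101 : CovZ TD_M (toL (selN TD_LN 8409420656326007470033354417783269761575357258132105939657722964932919847985739211220549954565)) [0, 7, 6, 1] (27648, 25344) (27648, 24576) (28416, 25344) :=
    (CovZ.n1 (28032, 24960) (by decide +kernel)
      (CovZ.n2 (27648, 24960) (by decide +kernel)
       (CovZ.n2 (27840, 25152) (by decide +kernel)
        (CovZ.n2 (27840, 24960) (by decide +kernel)
         (CovZ.leaf K2_ok TD_l9084 _)
         (CovZ.leaf K2_ok TD_l9085 _))
        (CovZ.n1 (27648, 25152) (by decide +kernel)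
         (CovZ.n2 (27744, 25248) (by decide +kernel)
          (CovZ.leaf K2_ok TD_l9086 _)
          (CovZ.leaf K2_ok TD_l9087 _))
         (CovZ.leaf K2_ok TD_l9088 _)))
       (CovZ.n1 (27840, 24768) (by decide +kernel)
        (CovZ.leaf K2_ok TD_l9089 _)
        (CovZ.leaf K2_ok TD_l9090 _)))
      (CovZ.n1 (28032, 25344) (by decide +kernel)
       (CovZ.subM 65193108414486111346878551637764031414663841127547881094685034420941025163213011573469670401 (by decide +kernel)
        (CovZ.n2 (28224, 25152) (by decide +kernel)
         (CovZ.n2 (28032, 25152) (by decide +kernel)
          (CovZ.n2 (28128, 25248) (by decide +kernel)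
           (CovZ.leaf K2_ok TD_l9091 _)
           (CovZ.leaf K2_ok TD_l9092 _))
          (CovZ.leaf K2_ok TD_l9093 _))
         (CovZ.n1 (28224, 25344) (by decide +kernel)
          (CovZ.n2 (28320, 25248) (by decide +kernel)
           (CovZ.leaf K2_ok TD_l9094 _)
           (CovZ.leaf K2_ok TD_l9095 _))
          (CovZ.n1 (28128, 25248) (by decide +kernel)
           (CovZ.leaf K2_ok TD_l9096 _)
           (CovZ.n1 (28224, 25248) (by decide +kernel)
            (CovZ.leaf K2_ok TD_l9097 _)
            (CovZ.leaf K2_ok TD_l9098 _))))))
       (CovZ.n1 (27840, 25152) (by decide +kernel)
        (CovZ.n2 (27840, 25344) (by decide +kernel)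
         (CovZ.leaf K2_ok TD_l9099 _)
         (CovZ.n1 (27744, 25248) (by decide +kernel)
          (CovZ.leaf K2_ok TD_l9100 _)
          (CovZ.leaf K2_ok TD_l9101 _)))
        (CovZ.subM 65193108414486111346878551637764031414663841127547881094685034418465145084642251023671421953 (by decide +kernel)
         (CovZ.n1 (28032, 25152) (by decide +kernel)
          (CovZ.n2 (27936, 25056) (by decide +kernel)
           (CovZ.leaf K2_ok TD_l9102 _)
           (CovZ.leaf K2_ok TD_l9103 _))
          (CovZ.n1 (27936, 25248) (by decide +kernel)
           (CovZ.n2 (28032, 25248) (by decide +kernel)
            (CovZ.leaf K2_ok TD_l9104 _)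
            (CovZ.leaf K2_ok TD_l9105 _))
           (CovZ.leaf K2_ok TD_l9106 _)))))))

theorem TD_u102 : CovZ TD_M (toL (selN TD_LN 8749002899132047697490008908691341344509975764771136077715103951265307629700011509683063543985873024)) [0, 7, 6, 1] (30336, 25728) (30528, 25536) (30720, 25728) :=
    (CovZ.subM 220855883097298041197912187592864814478435487109452369765200775161577472 (by decide +kernel)
           (CovZ.n2 (30528, 25728) (by decide +kernel)
            (CovZ.n2 (30624, 25632) (by decide +kernel)
             (CovZ.n2 (30528, 25632) (by decide +kernel)
              (CovZ.n2 (30576, 25680) (by decide +kernel)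
               (CovZ.n2 (30576, 25632) (by decide +kernel)
                (CovZ.n2 (30552, 25656) (by decide +kernel)
                 (CovZ.n2 (30576, 25656) (by decide +kernel)
                  (CovZ.leaf K2_ok TD_l18649 _)
                  (CovZ.leaf K2_ok TD_l18650 _))
                 (CovZ.n1 (30552, 25632) (by decide +kernel)
                  (CovZ.n2 (30540, 25644) (by decide +kernel)
                   (CovZ.leaf K2_ok TD_l18651 _)
                   (CovZ.leaf K2_ok TD_l18652 _))
                  (CovZ.leaf K2_ok TD_l18653 _)))
                (CovZ.n1 (30600, 25656) (by decide +kernel)
                 (CovZ.n2 (30600, 25632) (by decide +kernel)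
                  (CovZ.leaf K2_ok TD_l18654 _)
                  (CovZ.leaf K2_ok TD_l18655 _))
                 (CovZ.leaf K2_ok TD_l18656 _)))
               (CovZ.n1 (30528, 25680) (by decide +kernel)
                (CovZ.n2 (30552, 25704) (by decide +kernel)
                 (CovZ.n2 (30552, 25680) (by decide +kernel)
                  (CovZ.leaf K2_ok TD_l18657 _)
                  (CovZ.n1 (30564, 25692) (by decide +kernel)
                   (CovZ.leaf K2_ok TD_l18658 _)
                   (CovZ.leaf K2_ok TD_l18659 _)))
                 (CovZ.leaf K2_ok TD_l18660 _))
                (CovZ.n1 (30552, 25656) (by decide +kernel)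
                 (CovZ.n2 (30528, 25656) (by decide +kernel)
                  (CovZ.leaf K2_ok TD_l18661 _)
                  (CovZ.leaf K2_ok TD_l18662 _))
                 (CovZ.leaf K2_ok TD_l18663 _))))
              (CovZ.n1 (30576, 25584) (by decide +kernel)
               (CovZ.n2 (30528, 25584) (by decide +kernel)
                (CovZ.n2 (30552, 25608) (by decide +kernel)
                 (CovZ.n2 (30552, 25584) (by decide +kernel)
                  (CovZ.n2 (30540, 25596) (by decide +kernel)
                   (CovZ.n2 (30552, 25596) (by decide +kernel)
                    (CovZ.leaf K2_ok TD_l18664 _)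
                    (CovZ.leaf K2_ok TD_l18665 _))
                   (CovZ.badM (by decide +kernel)))
                  (CovZ.n1 (30564, 25596) (by decide +kernel)
                   (CovZ.leaf K2_ok TD_l18666 _)
                   (CovZ.leaf K2_ok TD_l18667 _)))
                 (CovZ.n1 (30528, 25608) (by decide +kernel)
                  (CovZ.n2 (30540, 25620) (by decide +kernel)
                   (CovZ.leaf K2_ok TD_l18668 _)
                   (CovZ.leaf K2_ok TD_l18669 _))
                  (CovZ.leaf K2_ok TD_l18670 _)))
                (CovZ.n1 (30552, 25560) (by decide +kernel)
                 (CovZ.badM (by decide +kernel))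
                 (CovZ.n1 (30552, 25584) (by decide +kernel)
                  (CovZ.n2 (30564, 25572) (by decide +kernel)
                   (CovZ.leaf K2_ok TD_l18671 _)
                   (CovZ.leaf K2_ok TD_l18672 _))
                  (CovZ.badM (by decide +kernel)))))
               (CovZ.n1 (30576, 25632) (by decide +kernel)
                (CovZ.n2 (30600, 25608) (by decide +kernel)
                 (CovZ.n2 (30576, 25608) (by decide +kernel)
                  (CovZ.leaf K2_ok TD_l18673 _)
                  (CovZ.leaf K2_ok TD_l18674 _))
                 (CovZ.leaf K2_ok TD_l18675 _))
                (CovZ.n1 (30552, 25608) (by decide +kernel)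
                 (CovZ.n2 (30552, 25632) (by decide +kernel)
                  (CovZ.leaf K2_ok TD_l18676 _)
                  (CovZ.n1 (30540, 25620) (by decide +kernel)
                   (CovZ.leaf K2_ok TD_l18677 _)
                   (CovZ.n1 (30552, 25620) (by decide +kernel)
                    (CovZ.leaf K2_ok TD_l18678 _)
                    (CovZ.leaf K2_ok TD_l18679 _))))
                 (CovZ.n1 (30576, 25608) (by decide +kernel)
                  (CovZ.n2 (30564, 25596) (by decide +kernel)
                   (CovZ.leaf K2_ok TD_l18680 _)
                   (CovZ.leaf K2_ok TD_l18681 _))
                  (CovZ.n1 (30564, 25620) (by decide +kernel)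
                   (CovZ.leaf K2_ok TD_l18682 _)
                   (CovZ.n1 (30564, 25608) (by decide +kernel)
                    (CovZ.leaf K2_ok TD_l18683 _)
                    (CovZ.leaf K2_ok TD_l18684 _))))))))
             (CovZ.n1 (30624, 25728) (by decide +kernel)
              (CovZ.n2 (30672, 25680) (by decide +kernel)
               (CovZ.n2 (30624, 25680) (by decide +kernel)
                (CovZ.n2 (30648, 25704) (by decide +kernel)
                 (CovZ.n2 (30648, 25680) (by decide +kernel)
                  (CovZ.leaf K2_ok TD_l18685 _)
                  (CovZ.leaf K2_ok TD_l18686 _))
                 (CovZ.leaf K2_ok TD_l18687 _))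
                (CovZ.leaf K2_ok TD_l18688 _))
               (CovZ.n1 (30672, 25728) (by decide +kernel)
                (CovZ.leaf K2_ok TD_l18689 _)
                (CovZ.n1 (30648, 25704) (by decide +kernel)
                 (CovZ.leaf K2_ok TD_l18690 _)
                 (CovZ.leaf K2_ok TD_l18691 _))))
              (CovZ.n1 (30576, 25680) (by decide +kernel)
               (CovZ.n2 (30576, 25728) (by decide +kernel)
                (CovZ.n2 (30600, 25704) (by decide +kernel)
                 (CovZ.leaf K2_ok TD_l18692 _)
                 (CovZ.leaf K2_ok TD_l18693 _))
                (CovZ.n1 (30552, 25704) (by decide +kernel)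
                 (CovZ.leaf K2_ok TD_l18694 _)
                 (CovZ.n1 (30576, 25704) (by decide +kernel)
                  (CovZ.leaf K2_ok TD_l18695 _)
                  (CovZ.leaf K2_ok TD_l18696 _))))
               (CovZ.n1 (30624, 25680) (by decide +kernel)
                (CovZ.n2 (30600, 25656) (by decide +kernel)
                 (CovZ.leaf K2_ok TD_l18697 _)
                 (CovZ.n1 (30624, 25656) (by decide +kernel)
                  (CovZ.leaf K2_ok TD_l18698 _)
                  (CovZ.leaf K2_ok TD_l18699 _)))
                (CovZ.n1 (30600, 25704) (by decide +kernel)
                 (CovZ.leaf K2_ok TD_l18700 _)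
                 (CovZ.n1 (30600, 25680) (by decide +kernel)
                  (CovZ.leaf K2_ok TD_l18701 _)
                  (CovZ.leaf K2_ok TD_l18702 _)))))))
            (CovZ.n1 (30432, 25632) (by decide +kernel)
             (CovZ.n2 (30432, 25728) (by decide +kernel)
              (CovZ.n2 (30480, 25680) (by decide +kernel)
               (CovZ.badM (by decide +kernel))
               (CovZ.n1 (30480, 25728) (by decide +kernel)
                (CovZ.n2 (30504, 25704) (by decide +kernel)
                 (CovZ.n2 (30480, 25704) (by decide +kernel)
                  (CovZ.n2 (30492, 25716) (by decide +kernel)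
                   (CovZ.leaf K2_ok TD_l18703 _)
                   (CovZ.leaf K2_ok TD_l18704 _))
                  (CovZ.leaf K2_ok TD_l18705 _))
                 (CovZ.n1 (30504, 25728) (by decide +kernel)
                  (CovZ.leaf K2_ok TD_l18706 _)
                  (CovZ.n1 (30492, 25716) (by decide +kernel)
                   (CovZ.leaf K2_ok TD_l18707 _)
                   (CovZ.leaf K2_ok TD_l18708 _))))
                (CovZ.n1 (30456, 25704) (by decide +kernel)
                 (CovZ.leaf K2_ok TD_l18709 _)
                 (CovZ.n1 (30480, 25704) (by decide +kernel)
                  (CovZ.badM (by decide +kernel))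
                  (CovZ.n1 (30468, 25716) (by decide +kernel)
                   (CovZ.leaf K2_ok TD_l18710 _)
                   (CovZ.badM (by decide +kernel)))))))
              (CovZ.badM (by decide +kernel)))
             (CovZ.n1 (30528, 25632) (by decide +kernel)
              (CovZ.n2 (30480, 25584) (by decide +kernel)
               (CovZ.n2 (30480, 25632) (by decide +kernel)
                (CovZ.n2 (30504, 25608) (by decide +kernel)
                 (CovZ.badM (by decide +kernel))
                 (CovZ.n1 (30504, 25632) (by decide +kernel)
                  (CovZ.leaf K2_ok TD_l18711 _)
                  (CovZ.badM (by decide +kernel))))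
                (CovZ.badM (by decide +kernel)))
               (CovZ.n1 (30528, 25584) (by decide +kernel)
                (CovZ.badM (by decide +kernel))
                (CovZ.n1 (30504, 25608) (by decide +kernel)
                 (CovZ.n2 (30528, 25608) (by decide +kernel)
                  (CovZ.badM (by decide +kernel))
                  (CovZ.n1 (30516, 25620) (by decide +kernel)
                   (CovZ.leaf K2_ok TD_l18712 _)
                   (CovZ.badM (by decide +kernel))))
                 (CovZ.badM (by decide +kernel)))))
              (CovZ.n1 (30480, 25680) (by decide +kernel)
               (CovZ.n2 (30528, 25680) (by decide +kernel)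
                (CovZ.n2 (30504, 25656) (by decide +kernel)
                 (CovZ.n2 (30504, 25680) (by decide +kernel)
                  (CovZ.leaf K2_ok TD_l18713 _)
                  (CovZ.n1 (30492, 25668) (by decide +kernel)
                   (CovZ.leaf K2_ok TD_l18714 _)
                   (CovZ.leaf K2_ok TD_l18715 _)))
                 (CovZ.n1 (30528, 25656) (by decide +kernel)
                  (CovZ.n2 (30516, 25644) (by decide +kernel)
                   (CovZ.leaf K2_ok TD_l18716 _)
                   (CovZ.leaf K2_ok TD_l18717 _))
                  (CovZ.n1 (30516, 25668) (by decide +kernel)
                   (CovZ.leaf K2_ok TD_l18718 _)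
                   (CovZ.leaf K2_ok TD_l18719 _))))
                (CovZ.n1 (30504, 25704) (by decide +kernel)
                 (CovZ.n2 (30528, 25704) (by decide +kernel)
                  (CovZ.leaf K2_ok TD_l18720 _)
                  (CovZ.leaf K2_ok TD_l18721 _))
                 (CovZ.n1 (30504, 25680) (by decide +kernel)
                  (CovZ.leaf K2_ok TD_l18722 _)
                  (CovZ.n1 (30516, 25692) (by decide +kernel)
                   (CovZ.leaf K2_ok TD_l18723 _)
                   (CovZ.leaf K2_ok TD_l18724 _)))))
               (CovZ.n1 (30480, 25632) (by decide +kernel)
                (CovZ.badM (by decide +kernel))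
                (CovZ.n1 (30504, 25656) (by decide +kernel)
                 (CovZ.n2 (30504, 25632) (by decide +kernel)
                  (CovZ.badM (by decide +kernel))
                  (CovZ.n1 (30516, 25644) (by decide +kernel)
                   (CovZ.leaf K2_ok TD_l18725 _)
                   (CovZ.badM (by decide +kernel))))
                 (CovZ.badM (by decide +kernel)))))))))

theorem TD_u103 : CovZ TD_M (toL (selN TD_LN 8749002899132047697490008908691341344509975764771136077715103951265307629700011509683063543985873024)) [0, 7, 6, 1] (30528, 25536) (30720, 25344) (30720, 25728) :=
    (CovZ.n1 (30720, 25536) (by decide +kernel)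
           (CovZ.n2 (30624, 25440) (by decide +kernel)
            (CovZ.subM 374144419156711147060143317175368453049510933823488 (by decide +kernel)
             (CovZ.n2 (30624, 25536) (by decide +kernel)
              (CovZ.n2 (30672, 25488) (by decide +kernel)
               (CovZ.n2 (30624, 25488) (by decide +kernel)
                (CovZ.badM (by decide +kernel))
                (CovZ.leaf K2_ok TD_l17963 _))
               (CovZ.badM (by decide +kernel)))
              (CovZ.n1 (30576, 25488) (by decide +kernel)
               (CovZ.badM (by decide +kernel))
               (CovZ.n1 (30624, 25488) (by decide +kernel)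
                (CovZ.n2 (30600, 25464) (by decide +kernel)
                 (CovZ.badM (by decide +kernel))
                 (CovZ.leaf K2_ok TD_l17964 _))
                (CovZ.badM (by decide +kernel))))))
            (CovZ.n1 (30720, 25440) (by decide +kernel)
             (CovZ.n2 (30672, 25392) (by decide +kernel)
              (CovZ.n2 (30672, 25440) (by decide +kernel)
               (CovZ.leaf K2_ok TD_l10947 _)
               (CovZ.leaf K2_ok TD_l10948 _))
              (CovZ.n1 (30720, 25392) (by decide +kernel)
               (CovZ.leaf K2_ok TD_l10949 _)
               (CovZ.leaf K2_ok TD_l10950 _)))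
             (CovZ.n1 (30672, 25488) (by decide +kernel)
              (CovZ.n2 (30720, 25488) (by decide +kernel)
               (CovZ.n2 (30696, 25464) (by decide +kernel)
                (CovZ.badM (by decide +kernel))
                (CovZ.leaf K2_ok TD_l17965 _))
               (CovZ.badM (by decide +kernel)))
              (CovZ.n1 (30672, 25440) (by decide +kernel)
               (CovZ.n2 (30648, 25464) (by decide +kernel)
                (CovZ.leaf K2_ok TD_l17966 _)
                (CovZ.leaf K2_ok TD_l17967 _))
               (CovZ.n1 (30696, 25464) (by decide +kernel)
                (CovZ.leaf K2_ok TD_l17968 _)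
                (CovZ.leaf K2_ok TD_l17969 _))))))
           (CovZ.subM 220855883097298041197912187592864814478435487109452369765200775161577472 (by decide +kernel)
            (CovZ.n1 (30624, 25632) (by decide +kernel)
             (CovZ.n2 (30720, 25632) (by decide +kernel)
              (CovZ.badM (by decide +kernel))
              (CovZ.n1 (30672, 25680) (by decide +kernel)
               (CovZ.n2 (30720, 25680) (by decide +kernel)
                (CovZ.n2 (30696, 25656) (by decide +kernel)
                 (CovZ.leaf K2_ok TD_l18726 _)
                 (CovZ.badM (by decide +kernel)))
                (CovZ.n1 (30696, 25704) (by decide +kernel)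
                 (CovZ.leaf K2_ok TD_l18727 _)
                 (CovZ.leaf K2_ok TD_l18728 _)))
               (CovZ.n1 (30672, 25632) (by decide +kernel)
                (CovZ.n2 (30648, 25656) (by decide +kernel)
                 (CovZ.n2 (30672, 25656) (by decide +kernel)
                  (CovZ.leaf K2_ok TD_l18729 _)
                  (CovZ.leaf K2_ok TD_l18730 _))
                 (CovZ.n1 (30648, 25632) (by decide +kernel)
                  (CovZ.leaf K2_ok TD_l18731 _)
                  (CovZ.leaf K2_ok TD_l18732 _)))
                (CovZ.n1 (30696, 25656) (by decide +kernel)
                 (CovZ.badM (by decide +kernel))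
                 (CovZ.leaf K2_ok TD_l18733 _)))))
             (CovZ.badM (by decide +kernel)))))

end Pool.Agent.TET
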