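import Pool.Agent.Helper38_TET.TD_M
import Pool.Agent.Helper38_TET.TD_L
import Pool.Agent.Helper38_TET.TD_1
import Pool.Agent.Helper38_TET.TD_8
import Pool.Agent.Helper38_TET.TD_9
import Pool.Agent.Helper38_TET.TD_19
import Pool.Agent.Helper38_TET.TD_20
import Pool.Agent.Helper38_TET.TD_34
import Pool.Agent.Helper38_TET.TD_35
import Pool.Agent.Helper38_TET.TD_36
import Pool.Agent.Helper38_TET.TD_46
import Pool.Agent.Helper38_TET.TD_47
import Pool.Agent.Helper38_TET.TD_58
import Pool.Agent.Helper38_TET.TD_59
import Pool.Agent.Helper38_TET.TD_60
import Pool.Agent.Helper38_TET.TD_72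
import Pool.Agent.Helper38_TET.TD_73
import Pool.Agent.Helper38_TET.TD_86
import Pool.Agent.Helper38_TET.TD_87
import Pool.Agent.Helper38_TET.TD_88
import Pool.Agent.Helper38_TET.TD_99
import Pool.Agent.Helper38_TET.TD_103
import Pool.Agent.Helper38_TET.TD_110
import Pool.Agent.Helper38_TET.TD_111
import Pool.Agent.Helper38_TET.TD_118
import Pool.Agent.Helper38_TET.TD_121
import Pool.Agent.Helper38_TET.TD_123
import Pool.Agent.Helper38_TET.TD_127
import Pool.Agent.Helper38_TET.TD_U4
import Pool.Agent.Helper38_TET.TD_U5
import Pool.Agent.Helper38_TET.TD_U6
import Pool.Agent.Helper38_TET.TD_U7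

/-!
# MP_c7c9bf_co: certificates, family TD
-/

set_option autoImplicit false
set_option maxRecDepth 100000

namespace Pool.Agent.TET

theorem TD_s6_7 : SqZ TD_M TD_L [0, 7, 6, 1] 18432 12288 1536 6 7 :=
  SqZ.mk (a := 27648) (b := 29184) (c := 23040) (d := 24576) (by norm_num) (by norm_num) (by norm_num) (by norm_num)
    (CovZ.topM TD_LL 8749011308552704023497478941824903244682439298930107877809022083362776929717351678489148740566379653 (by decide +kernel) (CovZ.n2 (28416, 23808) (by decide +kernel)
    (CovZ.subM 8749002899140004869272565494758775070076607984589702190308929529431347507008945188590925854380518529 (by decide +kernel)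
     (CovZ.n2 (29184, 23808) (by decide +kernel)
      (CovZ.n2 (28800, 23424) (by decide +kernel)
       (CovZ.n2 (28800, 23808) (by decide +kernel)
        (CovZ.leaf K2_ok TD_l8832 _)
        (CovZ.leaf K2_ok TD_l8833 _))
       (CovZ.n1 (29184, 23424) (by decide +kernel)
        (CovZ.leaf K2_ok TD_l8834 _)
        (CovZ.leaf K2_ok TD_l8835 _)))
      (CovZ.n1 (28800, 24192) (by decide +kernel)
       (CovZ.n2 (29184, 24192) (by decide +kernel)
        (CovZ.n2 (28992, 24000) (by decide +kernel)
         (CovZ.leaf K2_ok TD_l8836 _)
         (CovZ.leaf K2_ok TD_l8837 _))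
        (CovZ.leaf K2_ok TD_l8838 _))
       (CovZ.n1 (28800, 23808) (by decide +kernel)
        (CovZ.leaf K2_ok TD_l8839 _)
        (CovZ.leaf K2_ok TD_l8840 _)))))
    (CovZ.n1 (28416, 23040) (by decide +kernel)
     (CovZ.n2 (28032, 23424) (by decide +kernel)
      (CovZ.n2 (28416, 23424) (by decide +kernel)
       (CovZ.leaf K2_ok TD_l8841 _)
       (CovZ.leaf K2_ok TD_l8842 _))
      (CovZ.n1 (28032, 23040) (by decide +kernel)
       (CovZ.leaf K2_ok TD_l8843 _)
       (CovZ.leaf K2_ok TD_l8844 _)))
     (CovZ.subM 8749002899140004869272565494758775070076607984589702190308929529431347507008945188590925854380518529 (by decide +kernel)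
      (CovZ.n1 (28800, 23424) (by decide +kernel)
       (CovZ.n2 (28800, 23040) (by decide +kernel)
        (CovZ.leaf K2_ok TD_l8845 _)
        (CovZ.leaf K2_ok TD_l8846 _))
       (CovZ.n1 (28416, 23424) (by decide +kernel)
        (CovZ.leaf K2_ok TD_l8847 _)
        (CovZ.leaf K2_ok TD_l8848 _)))))))
    (CovZ.topM TD_LL 8749011308552704023497478941824903244682439298930107877809022083362776929717351678489148740566379653 (by decide +kernel) (CovZ.n0 (28416, 23808) (by decide +kernel)
    (CovZ.n2 (27648, 23808) (by decide +kernel)
     (CovZ.n2 (28032, 24192) (by decide +kernel)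
      (CovZ.n2 (28032, 23808) (by decide +kernel)
       (CovZ.leaf K2_ok TD_l8849 _)
       (CovZ.leaf K2_ok TD_l8850 _))
      (CovZ.n1 (27648, 24192) (by decide +kernel)
       (CovZ.n2 (27840, 24384) (by decide +kernel)
        (CovZ.leaf K2_ok TD_l8851 _)
        (CovZ.leaf K2_ok TD_l8852 _))
       (CovZ.leaf K2_ok TD_l8853 _)))
     (CovZ.n1 (28032, 23424) (by decide +kernel)
      (CovZ.n2 (27648, 23424) (by decide +kernel)
       (CovZ.leaf K2_ok TD_l8854 _)
       (CovZ.leaf K2_ok TD_l8855 _))
      (CovZ.n1 (28032, 23808) (by decide +kernel)
       (CovZ.leaf K2_ok TD_l8856 _)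
       (CovZ.n1 (27840, 23616) (by decide +kernel)
        (CovZ.leaf K2_ok TD_l8857 _)
        (CovZ.leaf K2_ok TD_l8858 _)))))
    (CovZ.n1 (28416, 24576) (by decide +kernel)
     (CovZ.subM 8749002899140004869272565494758775070076607984589702190308929529431347507008945188590925854380518529 (by decide +kernel)
      (CovZ.n2 (28800, 24192) (by decide +kernel)
       (CovZ.n2 (28416, 24192) (by decide +kernel)
        (CovZ.n2 (28608, 24384) (by decide +kernel)
         (CovZ.leaf K2_ok TD_l8859 _)
         (CovZ.leaf K2_ok TD_l8860 _))
        (CovZ.leaf K2_ok TD_l8861 _))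
       (CovZ.n1 (28800, 24576) (by decide +kernel)
        (CovZ.leaf K2_ok TD_l8862 _)
        (CovZ.n1 (28608, 24384) (by decide +kernel)
         (CovZ.leaf K2_ok TD_l8863 _)
         (CovZ.leaf K2_ok TD_l8864 _)))))
     (CovZ.n1 (28032, 24192) (by decide +kernel)
      (CovZ.n2 (28032, 24576) (by decide +kernel)
       (CovZ.leaf K2_ok TD_l8865 _)
       (CovZ.n1 (27840, 24384) (by decide +kernel)
        (CovZ.leaf K2_ok TD_l8866 _)
        (CovZ.leaf K2_ok TD_l8867 _)))
      (CovZ.n1 (28416, 24192) (by decide +kernel)
       (CovZ.n2 (28224, 24000) (by decide +kernel)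
        (CovZ.leaf K2_ok TD_l8868 _)
        (CovZ.leaf K2_ok TD_l8869 _))
       (CovZ.leaf K2_ok TD_l8870 _))))))

theorem TD_s7_7 : SqZ TD_M TD_L [0, 7, 6, 1] 18432 12288 1536 7 7 :=
  SqZ.mk (a := 29184) (b := 30720) (c := 23040) (d := 24576) (by norm_num) (by norm_num) (by norm_num) (by norm_num)
    (CovZ.topM TD_LL 8749002899140004869272565494758775070076607984589700728982910566961341145151512999349698392957742209 (by decide +kernel) (CovZ.n2 (29952, 23808) (by decide +kernel)
    (CovZ.n2 (30720, 23808) (by decide +kernel)
     (CovZ.n2 (30336, 23424) (by decide +kernel)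
      (CovZ.n2 (30336, 23808) (by decide +kernel)
       (CovZ.leaf K2_ok TD_l10861 _)
       (CovZ.n1 (30144, 23616) (by decide +kernel)
        (CovZ.leaf K2_ok TD_l10862 _)
        (CovZ.leaf K2_ok TD_l10863 _)))
      (CovZ.leaf K2_ok TD_l10864 _))
     (CovZ.n1 (30336, 24192) (by decide +kernel)
      (CovZ.n2 (30720, 24192) (by decide +kernel)
       (CovZ.leaf K2_ok TD_l10865 _)
       (CovZ.n1 (30528, 24384) (by decide +kernel)
        (CovZ.leaf K2_ok TD_l10866 _)
        (CovZ.leaf K2_ok TD_l10867 _)))
      (CovZ.n1 (30336, 23808) (by decide +kernel)
       (CovZ.leaf K2_ok TD_l10868 _)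
       (CovZ.leaf K2_ok TD_l10869 _))))
    (CovZ.n1 (29952, 23040) (by decide +kernel)
     (CovZ.n2 (29568, 23424) (by decide +kernel)
      (CovZ.n2 (29952, 23424) (by decide +kernel)
       (CovZ.leaf K2_ok TD_l10870 _)
       (CovZ.leaf K2_ok TD_l10871 _))
      (CovZ.n1 (29568, 23040) (by decide +kernel)
       (CovZ.leaf K2_ok TD_l10872 _)
       (CovZ.leaf K2_ok TD_l10873 _)))
     (CovZ.n1 (30336, 23424) (by decide +kernel)
      (CovZ.n2 (30336, 23040) (by decide +kernel)
       (CovZ.leaf K2_ok TD_l10874 _)
       (CovZ.leaf K2_ok TD_l10875 _))
      (CovZ.n1 (29952, 23424) (by decide +kernel)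
       (CovZ.leaf K2_ok TD_l10876 _)
       (CovZ.leaf K2_ok TD_l10877 _))))))
    (CovZ.topM TD_LL 8749002899140004869272565494758775070076607984589700728804504605373096160019227253168511500909898881 (by decide +kernel) (CovZ.n0 (29952, 23808) (by decide +kernel)
    (CovZ.n2 (29184, 23808) (by decide +kernel)
     (CovZ.n2 (29568, 24192) (by decide +kernel)
      (CovZ.n2 (29568, 23808) (by decide +kernel)
       (CovZ.leaf K2_ok TD_l10878 _)
       (CovZ.n1 (29760, 24000) (by decide +kernel)
        (CovZ.leaf K2_ok TD_l10879 _)
        (CovZ.leaf K2_ok TD_l10880 _)))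
      (CovZ.n1 (29184, 24192) (by decide +kernel)
       (CovZ.n2 (29376, 24384) (by decide +kernel)
        (CovZ.leaf K2_ok TD_l10881 _)
        (CovZ.leaf K2_ok TD_l10882 _))
       (CovZ.leaf K2_ok TD_l10883 _)))
     (CovZ.n1 (29568, 23424) (by decide +kernel)
      (CovZ.n2 (29184, 23424) (by decide +kernel)
       (CovZ.leaf K2_ok TD_l10884 _)
       (CovZ.leaf K2_ok TD_l10885 _))
      (CovZ.n1 (29568, 23808) (by decide +kernel)
       (CovZ.leaf K2_ok TD_l10886 _)
       (CovZ.leaf K2_ok TD_l10887 _))))
    (CovZ.n1 (29952, 24576) (by decide +kernel)
     (CovZ.n2 (30336, 24192) (by decide +kernel)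
      (CovZ.n2 (29952, 24192) (by decide +kernel)
       (CovZ.n2 (30144, 24384) (by decide +kernel)
        (CovZ.leaf K2_ok TD_l10888 _)
        (CovZ.leaf K2_ok TD_l10889 _))
       (CovZ.leaf K2_ok TD_l10890 _))
      (CovZ.n1 (30336, 24576) (by decide +kernel)
       (CovZ.leaf K2_ok TD_l10891 _)
       (CovZ.n1 (30144, 24384) (by decide +kernel)
        (CovZ.leaf K2_ok TD_l10892 _)
        (CovZ.leaf K2_ok TD_l10893 _))))
     (CovZ.n1 (29568, 24192) (by decide +kernel)
      (CovZ.n2 (29568, 24576) (by decide +kernel)
       (CovZ.leaf K2_ok TD_l10894 _)
       (CovZ.n1 (29376, 24384) (by decide +kernel)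
        (CovZ.leaf K2_ok TD_l10895 _)
        (CovZ.leaf K2_ok TD_l10896 _)))
      (CovZ.n1 (29952, 24192) (by decide +kernel)
       (CovZ.n2 (29760, 24000) (by decide +kernel)
        (CovZ.leaf K2_ok TD_l10897 _)
        (CovZ.leaf K2_ok TD_l10898 _))
       (CovZ.leaf K2_ok TD_l10899 _))))))

theorem TD_s8_7 : SqZ TD_M TD_L [0, 7, 6, 1] 18432 12288 1536 8 7 :=
  SqZ.mk (a := 30720) (b := 32256) (c := 23040) (d := 24576) (by norm_num) (by norm_num) (by norm_num) (by norm_num)
    (CovZ.topM TD_LL 8749002899132047697490008908470485461412677723573223895831229907610711666823703017715913683099525248 (by decide +kernel) (CovZ.n2 (31488, 23808) (by decide +kernel)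
    (CovZ.subM 5708990770823839526709023956368811464073478144 (by decide +kernel)
     (CovZ.n2 (32256, 23808) (by decide +kernel)
      (CovZ.n2 (31872, 23424) (by decide +kernel)
       (CovZ.n2 (31872, 23808) (by decide +kernel)
        (CovZ.badM (by decide +kernel))
        (CovZ.n1 (31680, 23616) (by decide +kernel)
         (CovZ.leaf K2_ok TD_l12954 _)
         (CovZ.badM (by decide +kernel))))
       (CovZ.badM (by decide +kernel)))
      (CovZ.n1 (31872, 24192) (by decide +kernel)
       (CovZ.badM (by decide +kernel))
       (CovZ.n1 (31872, 23808) (by decide +kernel)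
        (CovZ.n2 (31680, 24000) (by decide +kernel)
         (CovZ.badM (by decide +kernel))
         (CovZ.leaf K2_ok TD_l12969 _))
        (CovZ.badM (by decide +kernel))))))
    (CovZ.n1 (31488, 23040) (by decide +kernel)
     (CovZ.n2 (31104, 23424) (by decide +kernel)
      (CovZ.n2 (31488, 23424) (by decide +kernel)
       (CovZ.leaf K2_ok TD_l12972 _)
       (CovZ.leaf K2_ok TD_l12973 _))
      (CovZ.leaf K2_ok TD_l12974 _))
     (CovZ.subM 5708990770823839526709023956368811464073478144 (by decide +kernel)
      (CovZ.n1 (31872, 23424) (by decide +kernel)
       (CovZ.n2 (31872, 23040) (by decide +kernel)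
        (CovZ.leaf K2_ok TD_l12975 _)
        (CovZ.badM (by decide +kernel)))
       (CovZ.n1 (31488, 23424) (by decide +kernel)
        (CovZ.n2 (31680, 23616) (by decide +kernel)
         (CovZ.leaf K2_ok TD_l12978 _)
         (CovZ.leaf K2_ok TD_l12979 _))
        (CovZ.leaf K2_ok TD_l12980 _)))))))
    (CovZ.topM TD_LL 8749002899132047697490008908470485461412677723573223895831229907610711666823703017715913683099525248 (by decide +kernel) (CovZ.n0 (31488, 23808) (by decide +kernel)
    (CovZ.n2 (30720, 23808) (by decide +kernel)
     (CovZ.n2 (31104, 24192) (by decide +kernel)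
      (CovZ.n2 (31104, 23808) (by decide +kernel)
       (CovZ.leaf K2_ok TD_l12981 _)
       (CovZ.n1 (31296, 24000) (by decide +kernel)
        (CovZ.leaf K2_ok TD_l12982 _)
        (CovZ.leaf K2_ok TD_l12983 _)))
      (CovZ.n1 (30720, 24192) (by decide +kernel)
       (CovZ.n2 (30912, 24384) (by decide +kernel)
        (CovZ.leaf K2_ok TD_l12984 _)
        (CovZ.leaf K2_ok TD_l12985 _))
       (CovZ.leaf K2_ok TD_l12986 _)))
     (CovZ.n1 (31104, 23424) (by decide +kernel)
      (CovZ.leaf K2_ok TD_l12987 _)
      (CovZ.n1 (31104, 23808) (by decide +kernel)
       (CovZ.leaf K2_ok TD_l12988 _)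
       (CovZ.leaf K2_ok TD_l12989 _))))
    (CovZ.n1 (31488, 24576) (by decide +kernel)
     (CovZ.subM 5708990770823839526709023956368811464073478144 (by decide +kernel)
      (CovZ.n2 (31872, 24192) (by decide +kernel)
       (CovZ.n2 (31488, 24192) (by decide +kernel)
        (CovZ.n2 (31680, 24384) (by decide +kernel)
         (CovZ.n2 (31680, 24192) (by decide +kernel)
          (CovZ.leaf K2_ok TD_l12990 _)
          (CovZ.badM (by decide +kernel)))
         (CovZ.n1 (31488, 24384) (by decide +kernel)
          (CovZ.leaf K2_ok TD_l12992 _)
          (CovZ.leaf K2_ok TD_l12993 _)))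
        (CovZ.leaf K2_ok TD_l12994 _))
       (CovZ.n1 (31872, 24576) (by decide +kernel)
        (CovZ.badM (by decide +kernel))
        (CovZ.n1 (31680, 24384) (by decide +kernel)
         (CovZ.n2 (31680, 24576) (by decide +kernel)
          (CovZ.badM (by decide +kernel))
          (CovZ.n1 (31584, 24480) (by decide +kernel)
           (CovZ.leaf K2_ok TD_l13002 _)
           (CovZ.badM (by decide +kernel))))
         (CovZ.badM (by decide +kernel))))))
     (CovZ.n1 (31104, 24192) (by decide +kernel)
      (CovZ.n2 (31104, 24576) (by decide +kernel)
       (CovZ.subM 5708990770823839526709023956368811464073478144 (by decide +kernel)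
        (CovZ.n2 (31296, 24384) (by decide +kernel)
         (CovZ.n2 (31104, 24384) (by decide +kernel)
          (CovZ.leaf K2_ok TD_l13007 _)
          (CovZ.leaf K2_ok TD_l13008 _))
         (CovZ.n1 (31296, 24576) (by decide +kernel)
          (CovZ.leaf K2_ok TD_l13009 _)
          (CovZ.n1 (31200, 24480) (by decide +kernel)
           (CovZ.leaf K2_ok TD_l13010 _)
           (CovZ.leaf K2_ok TD_l13011 _)))))
       (CovZ.n1 (30912, 24384) (by decide +kernel)
        (CovZ.n2 (30912, 24576) (by decide +kernel)
         (CovZ.leaf K2_ok TD_l13012 _)
         (CovZ.leaf K2_ok TD_l13013 _))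
        (CovZ.n1 (31104, 24384) (by decide +kernel)
         (CovZ.leaf K2_ok TD_l13014 _)
         (CovZ.leaf K2_ok TD_l13015 _))))
      (CovZ.subM 5708990770823839526709023956368811464073478144 (by decide +kernel)
       (CovZ.n1 (31488, 24192) (by decide +kernel)
        (CovZ.n2 (31296, 24000) (by decide +kernel)
         (CovZ.leaf K2_ok TD_l13016 _)
         (CovZ.n1 (31488, 24000) (by decide +kernel)
          (CovZ.leaf K2_ok TD_l13017 _)
          (CovZ.leaf K2_ok TD_l13018 _)))
        (CovZ.n1 (31296, 24384) (by decide +kernel)
         (CovZ.n2 (31488, 24384) (by decide +kernel)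
          (CovZ.leaf K2_ok TD_l13019 _)
          (CovZ.n1 (31392, 24480) (by decide +kernel)
           (CovZ.leaf K2_ok TD_l13020 _)
           (CovZ.leaf K2_ok TD_l13021 _)))
         (CovZ.n1 (31296, 24192) (by decide +kernel)
          (CovZ.leaf K2_ok TD_l13022 _)
          (CovZ.leaf K2_ok TD_l13023 _)))))))))

theorem TD_s0_8 : SqZ TD_M TD_L [0, 7, 6, 1] 18432 12288 1536 0 8 :=
  SqZ.mk (a := 18432) (b := 19968) (c := 24576) (d := 26112) (by norm_num) (by norm_num) (by norm_num) (by norm_num)
    (CovZ.topM TD_LL 18014398509481984 (by decide +kernel) (CovZ.n2 (19200, 25344) (by decide +kernel)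
    (CovZ.n2 (19968, 25344) (by decide +kernel)
     (CovZ.badM (by decide +kernel))
     (CovZ.badM (by decide +kernel)))
    (CovZ.badM (by decide +kernel))))
    (CovZ.topM TD_LL 18014398509481984 (by decide +kernel) (CovZ.n0 (19200, 25344) (by decide +kernel)
    (CovZ.badM (by decide +kernel))
    (CovZ.badM (by decide +kernel))))

theorem TD_s1_8 : SqZ TD_M TD_L [0, 7, 6, 1] 18432 12288 1536 1 8 :=
  SqZ.mk (a := 19968) (b := 21504) (c := 24576) (d := 26112) (by norm_num) (by norm_num) (by norm_num) (by norm_num)
    (CovZ.topM TD_LL 2202736630793438522469866134487350618184039038680298258210867452189633265269432274099514051133440 (by decide +kernel) (CovZ.n2 (20736, 25344) (by decide +kernel)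
    (CovZ.n2 (21504, 25344) (by decide +kernel)
     (CovZ.n2 (21120, 24960) (by decide +kernel)
      (CovZ.n2 (21120, 25344) (by decide +kernel)
       (CovZ.n2 (21312, 25152) (by decide +kernel)
        (CovZ.subM 2135987035920910082395021706169552114602704522356652769947041607822219725780640550022962086936576 (by decide +kernel)
         (CovZ.n2 (21120, 25152) (by decide +kernel)
          (CovZ.badM (by decide +kernel))
          (CovZ.n1 (21216, 25056) (by decide +kernel)
           (CovZ.n2 (21120, 25056) (by decide +kernel)
            (CovZ.badM (by decide +kernel))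
            (CovZ.n1 (21168, 25008) (by decide +kernel)
             (CovZ.n2 (21120, 25008) (by decide +kernel)
              (CovZ.badM (by decide +kernel))
              (CovZ.leaf K2_ok TD_l151 _))
             (CovZ.badM (by decide +kernel))))
           (CovZ.badM (by decide +kernel)))))
        (CovZ.n1 (21312, 25344) (by decide +kernel)
         (CovZ.n2 (21408, 25248) (by decide +kernel)
          (CovZ.badM (by decide +kernel))
          (CovZ.badM (by decide +kernel)))
         (CovZ.badM (by decide +kernel))))
       (CovZ.subM 2135987035920910082395021706169552114602704522356652769947041607822219725780640550022962086936576 (by decide +kernel)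
        (CovZ.n1 (20928, 25152) (by decide +kernel)
         (CovZ.badM (by decide +kernel))
         (CovZ.n1 (21120, 25152) (by decide +kernel)
          (CovZ.n2 (21024, 25056) (by decide +kernel)
           (CovZ.badM (by decide +kernel))
           (CovZ.n1 (21120, 25056) (by decide +kernel)
            (CovZ.n2 (21072, 25008) (by decide +kernel)
             (CovZ.badM (by decide +kernel))
             (CovZ.n1 (21120, 25008) (by decide +kernel)
              (CovZ.n2 (21096, 24984) (by decide +kernel)
               (CovZ.leaf K2_ok TD_l157 _)
               (CovZ.leaf K2_ok TD_l158 _))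
              (CovZ.badM (by decide +kernel))))
            (CovZ.badM (by decide +kernel))))
          (CovZ.badM (by decide +kernel))))))
      (CovZ.n1 (21504, 24960) (by decide +kernel)
       (CovZ.n2 (21312, 24768) (by decide +kernel)
        (CovZ.n2 (21312, 24960) (by decide +kernel)
         (CovZ.n2 (21408, 24864) (by decide +kernel)
          (CovZ.n2 (21312, 24864) (by decide +kernel)
           (CovZ.n2 (21360, 24912) (by decide +kernel)
            (CovZ.leaf K2_ok TD_l161 _)
            (CovZ.leaf K2_ok TD_l162 _))
           (CovZ.leaf K2_ok TD_l163 _))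
          (CovZ.n1 (21408, 24960) (by decide +kernel)
           (CovZ.leaf K2_ok TD_l164 _)
           (CovZ.n1 (21360, 24912) (by decide +kernel)
            (CovZ.leaf K2_ok TD_l165 _)
            (CovZ.leaf K2_ok TD_l166 _))))
         (CovZ.subM 2135987035920910082395021706169552114602704522356652859150022401944713529863552925996683009982464 (by decide +kernel)
          (CovZ.n1 (21216, 24864) (by decide +kernel)
           (CovZ.n2 (21216, 24960) (by decide +kernel)
            (CovZ.leaf K2_ok TD_l167 _)
            (CovZ.n1 (21168, 24912) (by decide +kernel)
             (CovZ.n2 (21168, 24960) (by decide +kernel)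
              (CovZ.leaf K2_ok TD_l168 _)
              (CovZ.leaf K2_ok TD_l169 _))
             (CovZ.leaf K2_ok TD_l170 _)))
           (CovZ.n1 (21312, 24864) (by decide +kernel)
            (CovZ.n2 (21264, 24816) (by decide +kernel)
             (CovZ.leaf K2_ok TD_l171 _)
             (CovZ.leaf K2_ok TD_l172 _))
            (CovZ.leaf K2_ok TD_l173 _)))))
        (CovZ.n1 (21504, 24768) (by decide +kernel)
         (CovZ.n2 (21408, 24672) (by decide +kernel)
          (CovZ.leaf K2_ok TD_l174 _)
          (CovZ.n1 (21504, 24672) (by decide +kernel)
           (CovZ.leaf K2_ok TD_l175 _)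
           (CovZ.leaf K2_ok TD_l176 _)))
         (CovZ.n1 (21408, 24864) (by decide +kernel)
          (CovZ.n2 (21504, 24864) (by decide +kernel)
           (CovZ.leaf K2_ok TD_l177 _)
           (CovZ.leaf K2_ok TD_l178 _))
          (CovZ.n1 (21408, 24768) (by decide +kernel)
           (CovZ.leaf K2_ok TD_l179 _)
           (CovZ.leaf K2_ok TD_l180 _)))))
       (CovZ.n1 (21312, 25152) (by decide +kernel)
        (CovZ.n2 (21504, 25152) (by decide +kernel)
         (CovZ.n2 (21408, 25056) (by decide +kernel)
          (CovZ.subM 66749594872528440074844428317798503581334516323645399060845050244919735405731756135842855256064 (by decide +kernel)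
           (CovZ.n2 (21408, 25152) (by decide +kernel)
            (CovZ.n2 (21456, 25104) (by decide +kernel)
             (CovZ.n2 (21408, 25104) (by decide +kernel)
              (CovZ.n2 (21432, 25128) (by decide +kernel)
               (CovZ.leaf K2_ok TD_l181 _)
               (CovZ.badM (by decide +kernel)))
              (CovZ.leaf K2_ok TD_l183 _))
             (CovZ.n1 (21456, 25152) (by decide +kernel)
              (CovZ.leaf K2_ok TD_l184 _)
              (CovZ.n1 (21432, 25128) (by decide +kernel)
               (CovZ.leaf K2_ok TD_l185 _)
               (CovZ.leaf K2_ok TD_l186 _))))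
            (CovZ.badM (by decide +kernel))))
          (CovZ.n1 (21504, 25056) (by decide +kernel)
           (CovZ.n2 (21456, 25008) (by decide +kernel)
            (CovZ.n2 (21456, 25056) (by decide +kernel)
             (CovZ.leaf K2_ok TD_l193 _)
             (CovZ.leaf K2_ok TD_l194 _))
            (CovZ.leaf K2_ok TD_l195 _))
           (CovZ.n1 (21456, 25104) (by decide +kernel)
            (CovZ.n2 (21504, 25104) (by decide +kernel)
             (CovZ.n2 (21480, 25080) (by decide +kernel)
              (CovZ.leaf K2_ok TD_l196 _)
              (CovZ.leaf K2_ok TD_l197 _))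
             (CovZ.n1 (21480, 25128) (by decide +kernel)
              (CovZ.leaf K2_ok TD_l198 _)
              (CovZ.leaf K2_ok TD_l199 _)))
            (CovZ.n1 (21456, 25056) (by decide +kernel)
             (CovZ.leaf K2_ok TD_l200 _)
             (CovZ.leaf K2_ok TD_l201 _)))))
         (CovZ.subM 66749594872528440074844428317798503581334516323645399060845050244444366430646170109723245805568 (by decide +kernel)
          (CovZ.n1 (21408, 25248) (by decide +kernel)
           (CovZ.n2 (21504, 25248) (by decide +kernel)
            (CovZ.n2 (21456, 25200) (by decide +kernel)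
             (CovZ.badM (by decide +kernel))
             (CovZ.n1 (21504, 25200) (by decide +kernel)
              (CovZ.n2 (21480, 25176) (by decide +kernel)
               (CovZ.n2 (21480, 25200) (by decide +kernel)
                (CovZ.leaf K2_ok TD_l18019 _)
                (CovZ.badM (by decide +kernel)))
               (CovZ.n1 (21504, 25176) (by decide +kernel)
                (CovZ.leaf K2_ok TD_l18020 _)
                (CovZ.leaf K2_ok TD_l18021 _)))
              (CovZ.badM (by decide +kernel))))
            (CovZ.badM (by decide +kernel)))
           (CovZ.n1 (21408, 25152) (by decide +kernel)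
            (CovZ.badM (by decide +kernel))
            (CovZ.n1 (21456, 25200) (by decide +kernel)
             (CovZ.n2 (21456, 25152) (by decide +kernel)
              (CovZ.badM (by decide +kernel))
              (CovZ.n1 (21480, 25176) (by decide +kernel)
               (CovZ.n2 (21480, 25152) (by decide +kernel)
                (CovZ.badM (by decide +kernel))
                (CovZ.leaf K2_ok TD_l18022 _))
               (CovZ.badM (by decide +kernel))))
             (CovZ.badM (by decide +kernel)))))))
        (CovZ.n1 (21312, 24960) (by decide +kernel)
         (CovZ.subM 2135987035920910082395021706169552114602704522356652859150022401944712291923513640616408110858240 (by decide +kernel)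
          (CovZ.n2 (21216, 25056) (by decide +kernel)
           (CovZ.n2 (21312, 25056) (by decide +kernel)
            (CovZ.n2 (21264, 25008) (by decide +kernel)
             (CovZ.n2 (21264, 25056) (by decide +kernel)
              (CovZ.leaf K2_ok TD_l202 _)
              (CovZ.n1 (21240, 25032) (by decide +kernel)
               (CovZ.badM (by decide +kernel))
               (CovZ.leaf K2_ok TD_l204 _)))
             (CovZ.n1 (21312, 25008) (by decide +kernel)
              (CovZ.leaf K2_ok TD_l205 _)
              (CovZ.leaf K2_ok TD_l206 _)))
            (CovZ.badM (by decide +kernel)))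
           (CovZ.n1 (21216, 24960) (by decide +kernel)
            (CovZ.n2 (21168, 25008) (by decide +kernel)
             (CovZ.n2 (21216, 25008) (by decide +kernel)
              (CovZ.leaf K2_ok TD_l213 _)
              (CovZ.leaf K2_ok TD_l214 _))
             (CovZ.n1 (21168, 24960) (by decide +kernel)
              (CovZ.leaf K2_ok TD_l215 _)
              (CovZ.leaf K2_ok TD_l216 _)))
            (CovZ.n1 (21264, 25008) (by decide +kernel)
             (CovZ.n2 (21264, 24960) (by decide +kernel)
              (CovZ.leaf K2_ok TD_l217 _)
              (CovZ.leaf K2_ok TD_l218 _))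
             (CovZ.n1 (21216, 25008) (by decide +kernel)
              (CovZ.n2 (21240, 25032) (by decide +kernel)
               (CovZ.leaf K2_ok TD_l219 _)
               (CovZ.leaf K2_ok TD_l220 _))
              (CovZ.leaf K2_ok TD_l221 _))))))
         (CovZ.n1 (21408, 25056) (by decide +kernel)
          (CovZ.n2 (21408, 24960) (by decide +kernel)
           (CovZ.n2 (21360, 25008) (by decide +kernel)
            (CovZ.n2 (21408, 25008) (by decide +kernel)
             (CovZ.leaf K2_ok TD_l222 _)
             (CovZ.leaf K2_ok TD_l223 _))
            (CovZ.leaf K2_ok TD_l224 _))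
           (CovZ.n1 (21456, 25008) (by decide +kernel)
            (CovZ.leaf K2_ok TD_l225 _)
            (CovZ.leaf K2_ok TD_l226 _)))
          (CovZ.subM 2135987035920910082395021706169552114602704522356652859150022401944712291923513640616408110858240 (by decide +kernel)
           (CovZ.n1 (21312, 25056) (by decide +kernel)
            (CovZ.badM (by decide +kernel))
            (CovZ.n1 (21360, 25008) (by decide +kernel)
             (CovZ.leaf K2_ok TD_l231 _)
             (CovZ.n1 (21360, 25056) (by decide +kernel)
              (CovZ.leaf K2_ok TD_l232 _)
              (CovZ.leaf K2_ok TD_l233 _))))))))))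
     (CovZ.subM 1152921504606846976 (by decide +kernel)
      (CovZ.n1 (21120, 25728) (by decide +kernel)
       (CovZ.badM (by decide +kernel))
       (CovZ.n1 (21120, 25344) (by decide +kernel)
        (CovZ.badM (by decide +kernel))
        (CovZ.n1 (21312, 25536) (by decide +kernel)
         (CovZ.n2 (21312, 25344) (by decide +kernel)
          (CovZ.badM (by decide +kernel))
          (CovZ.badM (by decide +kernel)))
         (CovZ.badM (by decide +kernel)))))))
    (CovZ.n1 (20736, 24576) (by decide +kernel)
     TD_u63
     TD_u64)))
    (CovZ.topM TD_LL 2202736630793438522469866134487350618184039038680298258210867452189633265269284700146924374720512 (by decide +kernel) (CovZ.n0 (20736, 25344) (by decide +kernel)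
    (CovZ.n2 (19968, 25344) (by decide +kernel)
     (CovZ.badM (by decide +kernel))
     (CovZ.n1 (20352, 24960) (by decide +kernel)
      (CovZ.badM (by decide +kernel))
      (CovZ.badM (by decide +kernel))))
    (CovZ.n1 (20736, 26112) (by decide +kernel)
     (CovZ.n2 (21120, 25728) (by decide +kernel)
      (CovZ.badM (by decide +kernel))
      (CovZ.badM (by decide +kernel)))
     (CovZ.badM (by decide +kernel)))))

theorem TD_s2_8 : SqZ TD_M TD_L [0, 7, 6, 1] 18432 12288 1536 2 8 :=
  SqZ.mk (a := 21504) (b := 23040) (c := 24576) (d := 26112) (by norm_num) (by norm_num) (by norm_num) (by norm_num)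
    (CovZ.topM TD_LL 73391957973892809501508134382012592494926718017322687429688345291074996872587151360373449050740903966146572 (by decide +kernel) (CovZ.n2 (22272, 25344) (by decide +kernel)
    TD_u67
    TD_u68))
    (CovZ.topM TD_LL 73391957969487336239921257337072860225952016780954609352327564838106864487629156753540458531543567820652556 (by decide +kernel) (CovZ.n0 (22272, 25344) (by decide +kernel)
    (CovZ.n2 (21504, 25344) (by decide +kernel)
     (CovZ.subM 73391957967284599609003488005500546547448368318207399032384056722581821283310502358841140815141029407621120 (by decide +kernel)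
      (CovZ.n2 (21888, 25728) (by decide +kernel)
       (CovZ.n2 (21888, 25344) (by decide +kernel)
        (CovZ.subM 73391957898933013154558193022169009223111445006554426852818202289426800250620920427433065216528339638943744 (by decide +kernel)
         (CovZ.n2 (21696, 25536) (by decide +kernel)
          (CovZ.badM (by decide +kernel))
          (CovZ.n1 (21696, 25344) (by decide +kernel)
           (CovZ.badM (by decide +kernel))
           (CovZ.n1 (21792, 25440) (by decide +kernel)
            (CovZ.n2 (21792, 25344) (by decide +kernel)
             (CovZ.badM (by decide +kernel))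
             (CovZ.n1 (21840, 25392) (by decide +kernel)
              (CovZ.n2 (21840, 25344) (by decide +kernel)
               (CovZ.badM (by decide +kernel))
               (CovZ.n1 (21864, 25368) (by decide +kernel)
                (CovZ.n2 (21864, 25344) (by decide +kernel)
                 (CovZ.badM (by decide +kernel))
                 (CovZ.badM (by decide +kernel)))
                (CovZ.badM (by decide +kernel))))
              (CovZ.badM (by decide +kernel))))
            (CovZ.badM (by decide +kernel))))))
        (CovZ.subM 68351586454445294983331537324336923311652972179565854433155021032689502693574154777358062827077632 (by decide +kernel)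
         (CovZ.n1 (22080, 25536) (by decide +kernel)
          (CovZ.n2 (22080, 25344) (by decide +kernel)
           (CovZ.subM 68351585435927306808677800478925842599855348613275631497577616696018281915440367879954011089010688 (by decide +kernel)
            (CovZ.n2 (21984, 25440) (by decide +kernel)
             (CovZ.badM (by decide +kernel))
             (CovZ.n1 (21984, 25344) (by decide +kernel)
              (CovZ.n2 (21936, 25392) (by decide +kernel)
               (CovZ.badM (by decide +kernel))
               (CovZ.n1 (21936, 25344) (by decide +kernel)
                (CovZ.badM (by decide +kernel))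
                (CovZ.badM (by decide +kernel))))
              (CovZ.n1 (22032, 25392) (by decide +kernel)
               (CovZ.n2 (22032, 25344) (by decide +kernel)
                (CovZ.badM (by decide +kernel))
                (CovZ.badM (by decide +kernel)))
               (CovZ.badM (by decide +kernel))))))
           (CovZ.subM 1018517988174653736845411080711797623566290222935577404336671220775715935258174793388654592 (by decide +kernel)
            (CovZ.n1 (22176, 25440) (by decide +kernel)
             (CovZ.n2 (22176, 25344) (by decide +kernel)
              (CovZ.n2 (22128, 25392) (by decide +kernel)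
               (CovZ.badM (by decide +kernel))
               (CovZ.n1 (22128, 25344) (by decide +kernel)
                (CovZ.badM (by decide +kernel))
                (CovZ.n1 (22152, 25368) (by decide +kernel)
                 (CovZ.n2 (22152, 25344) (by decide +kernel)
                  (CovZ.badM (by decide +kernel))
                  (CovZ.badM (by decide +kernel)))
                 (CovZ.badM (by decide +kernel)))))
              (CovZ.n1 (22224, 25392) (by decide +kernel)
               (CovZ.n2 (22224, 25344) (by decide +kernel)
                (CovZ.badM (by decide +kernel))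
                (CovZ.badM (by decide +kernel)))
               (CovZ.badM (by decide +kernel))))
             (CovZ.n1 (22080, 25440) (by decide +kernel)
              (CovZ.badM (by decide +kernel))
              (CovZ.n1 (22128, 25392) (by decide +kernel)
               (CovZ.badM (by decide +kernel))
               (CovZ.badM (by decide +kernel)))))))
          (CovZ.subM 68351585435927306808677800478925842599855348613275631497577616696018281915440367879954011089010688 (by decide +kernel)
           (CovZ.n1 (21888, 25536) (by decide +kernel)
            (CovZ.badM (by decide +kernel))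
            (CovZ.n1 (21984, 25440) (by decide +kernel)
             (CovZ.n2 (21888, 25440) (by decide +kernel)
              (CovZ.badM (by decide +kernel))
              (CovZ.n1 (21936, 25392) (by decide +kernel)
               (CovZ.badM (by decide +kernel))
               (CovZ.badM (by decide +kernel))))
             (CovZ.badM (by decide +kernel))))))))
       (CovZ.n1 (21504, 25728) (by decide +kernel)
        (CovZ.badM (by decide +kernel))
        (CovZ.n1 (21696, 25536) (by decide +kernel)
         (CovZ.badM (by decide +kernel))
         (CovZ.badM (by decide +kernel))))))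
     (CovZ.n1 (21888, 24960) (by decide +kernel)
      (CovZ.subM 73391957901135749785351631544638875357652715518072767171087834577811706964157827981849810090493718070034432 (by decide +kernel)
       (CovZ.n2 (21504, 24960) (by decide +kernel)
        (CovZ.n2 (21696, 25152) (by decide +kernel)
         (CovZ.n2 (21696, 24960) (by decide +kernel)
          (CovZ.subM 2202736630793438522469866134487350618184039038680298258210867452189632027329245396752250966114304 (by decide +kernel)
           (CovZ.n2 (21600, 25056) (by decide +kernel)
            (CovZ.n2 (21696, 25056) (by decide +kernel)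
             (CovZ.n2 (21648, 25008) (by decide +kernel)
              (CovZ.leaf K2_ok TD_l1338 _)
              (CovZ.leaf K2_ok TD_l1339 _))
             (CovZ.n1 (21648, 25104) (by decide +kernel)
              (CovZ.n2 (21696, 25104) (by decide +kernel)
               (CovZ.leaf K2_ok TD_l1340 _)
               (CovZ.leaf K2_ok TD_l1341 _))
              (CovZ.leaf K2_ok TD_l1342 _)))
            (CovZ.n1 (21600, 24960) (by decide +kernel)
             (CovZ.n2 (21552, 25008) (by decide +kernel)
              (CovZ.leaf K2_ok TD_l1343 _)
              (CovZ.leaf K2_ok TD_l1344 _))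
             (CovZ.n1 (21648, 25008) (by decide +kernel)
              (CovZ.leaf K2_ok TD_l1345 _)
              (CovZ.leaf K2_ok TD_l1346 _)))))
          (CovZ.n1 (21792, 25056) (by decide +kernel)
           (CovZ.n2 (21792, 24960) (by decide +kernel)
            (CovZ.leaf K2_ok TD_l1347 _)
            (CovZ.n1 (21840, 25008) (by decide +kernel)
             (CovZ.leaf K2_ok TD_l1348 _)
             (CovZ.leaf K2_ok TD_l1349 _)))
           (CovZ.n1 (21696, 25056) (by decide +kernel)
            (CovZ.n2 (21744, 25104) (by decide +kernel)
             (CovZ.leaf K2_ok TD_l1350 _)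
             (CovZ.leaf K2_ok TD_l1351 _))
            (CovZ.leaf K2_ok TD_l1352 _))))
         (CovZ.subM 2202736630793438522469866134487350618184039038680298258210867452189632027329245396752250966114304 (by decide +kernel)
          (CovZ.n1 (21504, 25152) (by decide +kernel)
           (CovZ.subM 66749594872528440074844428317798503581334516323645399060845050244602822755673545863404653117440 (by decide +kernel)
            (CovZ.n2 (21600, 25248) (by decide +kernel)
             (CovZ.n2 (21600, 25152) (by decide +kernel)
              (CovZ.n2 (21552, 25200) (by decide +kernel)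
               (CovZ.n2 (21600, 25200) (by decide +kernel)
                (CovZ.n2 (21576, 25176) (by decide +kernel)
                 (CovZ.leaf K2_ok TD_l18041 _)
                 (CovZ.leaf K2_ok TD_l14772 _))
                (CovZ.badM (by decide +kernel)))
               (CovZ.n1 (21552, 25152) (by decide +kernel)
                (CovZ.n2 (21528, 25176) (by decide +kernel)
                 (CovZ.leaf K2_ok TD_l18042 _)
                 (CovZ.leaf K2_ok TD_l18043 _))
                (CovZ.n1 (21576, 25176) (by decide +kernel)
                 (CovZ.leaf K2_ok TD_l14773 _)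
                 (CovZ.leaf K2_ok TD_l18044 _))))
              (CovZ.n1 (21648, 25200) (by decide +kernel)
               (CovZ.n2 (21648, 25152) (by decide +kernel)
                (CovZ.n2 (21624, 25176) (by decide +kernel)
                 (CovZ.leaf K2_ok TD_l1353 _)
                 (CovZ.leaf K2_ok TD_l1354 _))
                (CovZ.n1 (21672, 25176) (by decide +kernel)
                 (CovZ.leaf K2_ok TD_l1355 _)
                 (CovZ.leaf K2_ok TD_l1356 _)))
               (CovZ.n1 (21600, 25200) (by decide +kernel)
                (CovZ.badM (by decide +kernel))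
                (CovZ.leaf K2_ok TD_l1357 _))))
             (CovZ.n1 (21504, 25248) (by decide +kernel)
              (CovZ.badM (by decide +kernel))
              (CovZ.n1 (21552, 25200) (by decide +kernel)
               (CovZ.n2 (21504, 25200) (by decide +kernel)
                (CovZ.badM (by decide +kernel))
                (CovZ.n1 (21528, 25176) (by decide +kernel)
                 (CovZ.leaf K2_ok TD_l18045 _)
                 (CovZ.n1 (21528, 25200) (by decide +kernel)
                  (CovZ.leaf K2_ok TD_l18046 _)
                  (CovZ.leaf K2_ok TD_l18047 _))))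
               (CovZ.badM (by decide +kernel))))))
           (CovZ.n1 (21600, 25056) (by decide +kernel)
            (CovZ.n2 (21504, 25056) (by decide +kernel)
             (CovZ.n2 (21552, 25104) (by decide +kernel)
              (CovZ.n2 (21552, 25056) (by decide +kernel)
               (CovZ.leaf K2_ok TD_l1358 _)
               (CovZ.leaf K2_ok TD_l1359 _))
              (CovZ.n1 (21504, 25104) (by decide +kernel)
               (CovZ.n2 (21528, 25128) (by decide +kernel)
                (CovZ.leaf K2_ok TD_l1360 _)
                (CovZ.leaf K2_ok TD_l1361 _))
               (CovZ.leaf K2_ok TD_l1362 _)))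
             (CovZ.leaf K2_ok TD_l1363 _))
            (CovZ.n1 (21600, 25152) (by decide +kernel)
             (CovZ.n2 (21648, 25104) (by decide +kernel)
              (CovZ.n2 (21600, 25104) (by decide +kernel)
               (CovZ.n2 (21624, 25128) (by decide +kernel)
                (CovZ.leaf K2_ok TD_l1364 _)
                (CovZ.leaf K2_ok TD_l1365 _))
               (CovZ.leaf K2_ok TD_l1366 _))
              (CovZ.n1 (21648, 25152) (by decide +kernel)
               (CovZ.leaf K2_ok TD_l1367 _)
               (CovZ.n1 (21624, 25128) (by decide +kernel)
                (CovZ.leaf K2_ok TD_l1368 _)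
                (CovZ.leaf K2_ok TD_l1369 _))))
             (CovZ.n1 (21552, 25104) (by decide +kernel)
              (CovZ.n2 (21552, 25152) (by decide +kernel)
               (CovZ.leaf K2_ok TD_l1370 _)
               (CovZ.n1 (21528, 25128) (by decide +kernel)
                (CovZ.leaf K2_ok TD_l1371 _)
                (CovZ.leaf K2_ok TD_l1372 _)))
              (CovZ.n1 (21600, 25104) (by decide +kernel)
               (CovZ.leaf K2_ok TD_l1373 _)
               (CovZ.leaf K2_ok TD_l1374 _))))))))
        (CovZ.n1 (21696, 24768) (by decide +kernel)
         (CovZ.n2 (21504, 24768) (by decide +kernel)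
          (CovZ.n2 (21600, 24864) (by decide +kernel)
           (CovZ.n2 (21600, 24768) (by decide +kernel)
            (CovZ.leaf K2_ok TD_l1375 _)
            (CovZ.leaf K2_ok TD_l1376 _))
           (CovZ.leaf K2_ok TD_l1377 _))
          (CovZ.leaf K2_ok TD_l1378 _))
         (CovZ.n1 (21696, 24960) (by decide +kernel)
          (CovZ.n2 (21792, 24864) (by decide +kernel)
           (CovZ.leaf K2_ok TD_l1379 _)
           (CovZ.n1 (21792, 24960) (by decide +kernel)
            (CovZ.leaf K2_ok TD_l1380 _)
            (CovZ.leaf K2_ok TD_l1381 _)))
          (CovZ.n1 (21600, 24864) (by decide +kernel)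
           (CovZ.n2 (21600, 24960) (by decide +kernel)
            (CovZ.leaf K2_ok TD_l1382 _)
            (CovZ.n1 (21552, 24912) (by decide +kernel)
             (CovZ.leaf K2_ok TD_l1383 _)
             (CovZ.leaf K2_ok TD_l1384 _)))
           (CovZ.n1 (21696, 24864) (by decide +kernel)
            (CovZ.leaf K2_ok TD_l1385 _)
            (CovZ.leaf K2_ok TD_l1386 _)))))))
      (CovZ.n1 (21888, 25344) (by decide +kernel)
       TD_u69
       TD_u70)))
    (CovZ.subM 11417981541647679048466287757901804104570634244 (by decide +kernel)
     (CovZ.n1 (22272, 26112) (by decide +kernel)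
      (CovZ.n2 (22656, 25728) (by decide +kernel)
       (CovZ.n2 (22272, 25728) (by decide +kernel)
        (CovZ.badM (by decide +kernel))
        (CovZ.n1 (22464, 25536) (by decide +kernel)
         (CovZ.n2 (22272, 25536) (by decide +kernel)
          (CovZ.badM (by decide +kernel))
          (CovZ.n1 (22368, 25440) (by decide +kernel)
           (CovZ.n2 (22272, 25440) (by decide +kernel)
            (CovZ.badM (by decide +kernel))
            (CovZ.n1 (22320, 25392) (by decide +kernel)
             (CovZ.badM (by decide +kernel))
             (CovZ.badM (by decide +kernel))))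
           (CovZ.badM (by decide +kernel))))
         (CovZ.badM (by decide +kernel))))
       (CovZ.badM (by decide +kernel)))
      (CovZ.badM (by decide +kernel))))))

theorem TD_s3_8 : SqZ TD_M TD_L [0, 7, 6, 1] 18432 12288 1536 3 8 :=
  SqZ.mk (a := 23040) (b := 24576) (c := 24576) (d := 26112) (by norm_num) (by norm_num) (by norm_num) (by norm_num)
    (CovZ.topM TD_LL 4338724685232822439330988290624929085478996043725873024794419963969365819786547033919643589829132 (by decide +kernel) (CovZ.n2 (23808, 25344) (by decide +kernel)
    (CovZ.n2 (24576, 25344) (by decide +kernel)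
     TD_u71
     TD_u72)
    (CovZ.n1 (23808, 24576) (by decide +kernel)
     (CovZ.n2 (23424, 24960) (by decide +kernel)
      (CovZ.n2 (23808, 24960) (by decide +kernel)
       (CovZ.n2 (23616, 24768) (by decide +kernel)
        (CovZ.n2 (23616, 24960) (by decide +kernel)
         (CovZ.leaf K2_ok TD_l2986 _)
         (CovZ.n1 (23520, 24864) (by decide +kernel)
          (CovZ.leaf K2_ok TD_l2987 _)
          (CovZ.leaf K2_ok TD_l2988 _)))
        (CovZ.n1 (23808, 24768) (by decide +kernel)
         (CovZ.leaf K2_ok TD_l2989 _)
         (CovZ.leaf K2_ok TD_l2990 _)))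
       (CovZ.subM 4271975090359808332033087429985480823086654362096996429572347046697418909600259248054956279726092 (by decide +kernel)
        (CovZ.n1 (23616, 25152) (by decide +kernel)
         (CovZ.n2 (23808, 25152) (by decide +kernel)
          (CovZ.n2 (23712, 25056) (by decide +kernel)
           (CovZ.leaf K2_ok TD_l2991 _)
           (CovZ.leaf K2_ok TD_l2992 _))
          (CovZ.n1 (23712, 25248) (by decide +kernel)
           (CovZ.n2 (23808, 25248) (by decide +kernel)
            (CovZ.n2 (23760, 25200) (by decide +kernel)
             (CovZ.leaf K2_ok TD_l2993 _)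
             (CovZ.leaf K2_ok TD_l2994 _))
            (CovZ.n1 (23760, 25296) (by decide +kernel)
             (CovZ.n2 (23808, 25296) (by decide +kernel)
              (CovZ.leaf K2_ok TD_l2995 _)
              (CovZ.leaf K2_ok TD_l2996 _))
             (CovZ.leaf K2_ok TD_l2997 _)))
           (CovZ.n1 (23712, 25152) (by decide +kernel)
            (CovZ.leaf K2_ok TD_l2998 _)
            (CovZ.n1 (23760, 25200) (by decide +kernel)
             (CovZ.leaf K2_ok TD_l2999 _)
             (CovZ.leaf K2_ok TD_l3000 _)))))
         (CovZ.n1 (23616, 24960) (by decide +kernel)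
          (CovZ.n2 (23520, 25056) (by decide +kernel)
           (CovZ.leaf K2_ok TD_l3001 _)
           (CovZ.leaf K2_ok TD_l3002 _))
          (CovZ.n1 (23712, 25056) (by decide +kernel)
           (CovZ.leaf K2_ok TD_l3003 _)
           (CovZ.leaf K2_ok TD_l3004 _))))))
      (CovZ.n1 (23424, 24576) (by decide +kernel)
       (CovZ.n2 (23232, 24768) (by decide +kernel)
        (CovZ.n2 (23424, 24768) (by decide +kernel)
         (CovZ.n2 (23328, 24672) (by decide +kernel)
          (CovZ.leaf K2_ok TD_l3005 _)
          (CovZ.leaf K2_ok TD_l3006 _))
         (CovZ.leaf K2_ok TD_l3007 _))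
        (CovZ.n1 (23232, 24576) (by decide +kernel)
         (CovZ.leaf K2_ok TD_l3008 _)
         (CovZ.leaf K2_ok TD_l3009 _)))
       (CovZ.n1 (23616, 24768) (by decide +kernel)
        (CovZ.n2 (23616, 24576) (by decide +kernel)
         (CovZ.leaf K2_ok TD_l3010 _)
         (CovZ.leaf K2_ok TD_l3011 _))
        (CovZ.leaf K2_ok TD_l3012 _))))
     (CovZ.n1 (24192, 24960) (by decide +kernel)
      (CovZ.n2 (24192, 24576) (by decide +kernel)
       (CovZ.subM 4271975090360293999256143862253210688563360241823655604034417375617852042054523149750101532999692 (by decide +kernel)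
        (CovZ.n2 (24000, 24768) (by decide +kernel)
         (CovZ.n2 (24192, 24768) (by decide +kernel)
          (CovZ.leaf K2_ok TD_l3013 _)
          (CovZ.leaf K2_ok TD_l3014 _))
         (CovZ.n1 (24000, 24576) (by decide +kernel)
          (CovZ.leaf K2_ok TD_l3015 _)
          (CovZ.leaf K2_ok TD_l3016 _))))
       (CovZ.n1 (24384, 24768) (by decide +kernel)
        (CovZ.n2 (24384, 24576) (by decide +kernel)
         (CovZ.leaf K2_ok TD_l3017 _)
         (CovZ.leaf K2_ok TD_l3018 _))
        (CovZ.leaf K2_ok TD_l3019 _)))
      (CovZ.subM 4271975090359808332033087429985480823086654362096995002324654340737539088952088423678800230875148 (by decide +kernel)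
       (CovZ.n1 (23808, 24960) (by decide +kernel)
        (CovZ.n2 (24000, 25152) (by decide +kernel)
         (CovZ.n2 (24000, 24960) (by decide +kernel)
          (CovZ.n2 (23904, 25056) (by decide +kernel)
           (CovZ.leaf K2_ok TD_l3020 _)
           (CovZ.leaf K2_ok TD_l3021 _))
          (CovZ.n1 (24096, 25056) (by decide +kernel)
           (CovZ.leaf K2_ok TD_l3022 _)
           (CovZ.leaf K2_ok TD_l3023 _)))
         (CovZ.n1 (23808, 25152) (by decide +kernel)
          (CovZ.n2 (23904, 25248) (by decide +kernel)
           (CovZ.n2 (23904, 25152) (by decide +kernel)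
            (CovZ.leaf K2_ok TD_l3024 _)
            (CovZ.n1 (23952, 25200) (by decide +kernel)
             (CovZ.leaf K2_ok TD_l3025 _)
             (CovZ.leaf K2_ok TD_l3026 _)))
           (CovZ.n1 (23808, 25248) (by decide +kernel)
            (CovZ.n2 (23856, 25296) (by decide +kernel)
             (CovZ.leaf K2_ok TD_l3027 _)
             (CovZ.leaf K2_ok TD_l3028 _))
            (CovZ.leaf K2_ok TD_l3029 _)))
          (CovZ.leaf K2_ok TD_l3030 _)))
        (CovZ.n1 (24000, 24768) (by decide +kernel)
         (CovZ.leaf K2_ok TD_l3031 _)
         (CovZ.n1 (24000, 24960) (by decide +kernel)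
          (CovZ.leaf K2_ok TD_l3032 _)
          (CovZ.leaf K2_ok TD_l3033 _)))))))))
    (CovZ.topM TD_LL 4338724685232336772107931858357199220002290163999212423084656929007918276509348484631453686063628 (by decide +kernel) (CovZ.n0 (23808, 25344) (by decide +kernel)
    (CovZ.n2 (23040, 25344) (by decide +kernel)
     TD_u73
     TD_u74)
    (CovZ.subM 4271974071841820164790043412393024122539710324302640997315815182951594798692340917875306779402752 (by decide +kernel)
     (CovZ.n1 (23808, 26112) (by decide +kernel)
      (CovZ.n2 (24192, 25728) (by decide +kernel)
       (CovZ.subM 4271974071841820164790043412339104229205409044713305539894083215644439451561281100045924173873152 (by decide +kernel)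
        (CovZ.n2 (23808, 25728) (by decide +kernel)
         (CovZ.badM (by decide +kernel))
         (CovZ.n1 (24000, 25536) (by decide +kernel)
          (CovZ.n2 (23808, 25536) (by decide +kernel)
           (CovZ.n2 (23904, 25632) (by decide +kernel)
            (CovZ.n2 (23904, 25536) (by decide +kernel)
             (CovZ.badM (by decide +kernel))
             (CovZ.badM (by decide +kernel)))
            (CovZ.badM (by decide +kernel)))
           (CovZ.n1 (23904, 25440) (by decide +kernel)
            (CovZ.n2 (23808, 25440) (by decide +kernel)
             (CovZ.n2 (23856, 25488) (by decide +kernel)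
              (CovZ.n2 (23856, 25440) (by decide +kernel)
               (CovZ.badM (by decide +kernel))
               (CovZ.badM (by decide +kernel)))
              (CovZ.badM (by decide +kernel)))
             (CovZ.n1 (23856, 25392) (by decide +kernel)
              (CovZ.n2 (23808, 25392) (by decide +kernel)
               (CovZ.n2 (23832, 25416) (by decide +kernel)
                (CovZ.n2 (23832, 25392) (by decide +kernel)
                 (CovZ.leaf K2_ok TD_l18089 _)
                 (CovZ.badM (by decide +kernel)))
                (CovZ.badM (by decide +kernel)))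
               (CovZ.n1 (23832, 25368) (by decide +kernel)
                (CovZ.leaf K2_ok TD_l18090 _)
                (CovZ.leaf K2_ok TD_l18091 _)))
              (CovZ.n1 (23856, 25440) (by decide +kernel)
               (CovZ.badM (by decide +kernel))
               (CovZ.n1 (23832, 25416) (by decide +kernel)
                (CovZ.badM (by decide +kernel))
                (CovZ.badM (by decide +kernel))))))
            (CovZ.n1 (23904, 25536) (by decide +kernel)
             (CovZ.badM (by decide +kernel))
             (CovZ.n1 (23856, 25488) (by decide +kernel)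
              (CovZ.badM (by decide +kernel))
              (CovZ.badM (by decide +kernel))))))
          (CovZ.n1 (24000, 25728) (by decide +kernel)
           (CovZ.badM (by decide +kernel))
           (CovZ.n1 (23904, 25632) (by decide +kernel)
            (CovZ.badM (by decide +kernel))
            (CovZ.badM (by decide +kernel)))))))
       (CovZ.badM (by decide +kernel)))
      (CovZ.subM 4271974071841820164790043412393024122539710324302640997315815182951594798692340917875304631894016 (by decide +kernel)
       (CovZ.n1 (23424, 25728) (by decide +kernel)
        (CovZ.badM (by decide +kernel))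
        (CovZ.n1 (23808, 25728) (by decide +kernel)
         (CovZ.n2 (23616, 25536) (by decide +kernel)
          (CovZ.badM (by decide +kernel))
          (CovZ.n1 (23808, 25536) (by decide +kernel)
           (CovZ.n2 (23712, 25440) (by decide +kernel)
            (CovZ.badM (by decide +kernel))
            (CovZ.n1 (23808, 25440) (by decide +kernel)
             (CovZ.n2 (23760, 25392) (by decide +kernel)
              (CovZ.badM (by decide +kernel))
              (CovZ.n1 (23808, 25392) (by decide +kernel)
               (CovZ.n2 (23784, 25368) (by decide +kernel)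
                (CovZ.badM (by decide +kernel))
                (CovZ.n1 (23808, 25368) (by decide +kernel)
                 (CovZ.leaf K2_ok TD_l18092 _)
                 (CovZ.leaf K2_ok TD_l18093 _)))
               (CovZ.badM (by decide +kernel))))
             (CovZ.badM (by decide +kernel))))
           (CovZ.badM (by decide +kernel))))
         (CovZ.badM (by decide +kernel)))))))))

theorem TD_s4_8 : SqZ TD_M TD_L [0, 7, 6, 1] 18432 12288 1536 4 8 :=
  SqZ.mk (a := 24576) (b := 26112) (c := 24576) (d := 26112) (by norm_num) (by norm_num) (by norm_num) (by norm_num)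
    (CovZ.topM TD_LL 311365265526755237821189995624190612200094069929330330769962416662351283759935307565925039190872911143437 (by decide +kernel) (CovZ.n2 (25344, 25344) (by decide +kernel)
    (CovZ.n2 (26112, 25344) (by decide +kernel)
     (CovZ.n2 (25728, 24960) (by decide +kernel)
      (CovZ.n2 (25728, 25344) (by decide +kernel)
       (CovZ.n2 (25920, 25152) (by decide +kernel)
        (CovZ.n2 (25728, 25152) (by decide +kernel)
         (CovZ.n2 (25824, 25248) (by decide +kernel)
          (CovZ.leaf K2_ok TD_l5172 _)
          (CovZ.leaf K2_ok TD_l5173 _))
         (CovZ.leaf K2_ok TD_l5174 _))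
        (CovZ.n1 (25920, 25344) (by decide +kernel)
         (CovZ.n2 (26016, 25248) (by decide +kernel)
          (CovZ.leaf K2_ok TD_l5175 _)
          (CovZ.leaf K2_ok TD_l5176 _))
         (CovZ.n1 (25824, 25248) (by decide +kernel)
          (CovZ.leaf K2_ok TD_l5177 _)
          (CovZ.n1 (25920, 25248) (by decide +kernel)
           (CovZ.leaf K2_ok TD_l5178 _)
           (CovZ.leaf K2_ok TD_l5179 _)))))
       (CovZ.subM 273681682676726156029226644323991588431967765718385971313839199608070929523179178874514307614401028 (by decide +kernel)
        (CovZ.n1 (25536, 25152) (by decide +kernel)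
         (CovZ.n2 (25536, 25344) (by decide +kernel)
          (CovZ.n2 (25632, 25248) (by decide +kernel)
           (CovZ.leaf K2_ok TD_l5180 _)
           (CovZ.n1 (25632, 25344) (by decide +kernel)
            (CovZ.leaf K2_ok TD_l5181 _)
            (CovZ.leaf K2_ok TD_l5182 _)))
          (CovZ.n1 (25440, 25248) (by decide +kernel)
           (CovZ.n2 (25440, 25344) (by decide +kernel)
            (CovZ.leaf K2_ok TD_l5183 _)
            (CovZ.leaf K2_ok TD_l5184 _))
           (CovZ.n1 (25536, 25248) (by decide +kernel)
            (CovZ.leaf K2_ok TD_l5185 _)
            (CovZ.leaf K2_ok TD_l5186 _))))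
         (CovZ.n1 (25728, 25152) (by decide +kernel)
          (CovZ.n2 (25632, 25056) (by decide +kernel)
           (CovZ.leaf K2_ok TD_l5187 _)
           (CovZ.leaf K2_ok TD_l5188 _))
          (CovZ.n1 (25632, 25248) (by decide +kernel)
           (CovZ.n2 (25728, 25248) (by decide +kernel)
            (CovZ.leaf K2_ok TD_l5189 _)
            (CovZ.leaf K2_ok TD_l5190 _))
           (CovZ.leaf K2_ok TD_l5191 _))))))
      (CovZ.n1 (26112, 24960) (by decide +kernel)
       (CovZ.n2 (25920, 24768) (by decide +kernel)
        (CovZ.leaf K2_ok TD_l5192 _)
        (CovZ.leaf K2_ok TD_l5193 _))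
       (CovZ.n1 (25920, 25152) (by decide +kernel)
        (CovZ.n2 (26112, 25152) (by decide +kernel)
         (CovZ.n2 (26016, 25056) (by decide +kernel)
          (CovZ.leaf K2_ok TD_l5194 _)
          (CovZ.leaf K2_ok TD_l5195 _))
         (CovZ.n1 (26016, 25248) (by decide +kernel)
          (CovZ.n2 (26112, 25248) (by decide +kernel)
           (CovZ.leaf K2_ok TD_l5196 _)
           (CovZ.leaf K2_ok TD_l5197 _))
          (CovZ.leaf K2_ok TD_l5198 _)))
        (CovZ.n1 (25920, 24960) (by decide +kernel)
         (CovZ.leaf K2_ok TD_l5199 _)
         (CovZ.leaf K2_ok TD_l5200 _)))))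
     (CovZ.n1 (25728, 25728) (by decide +kernel)
      (CovZ.n2 (26112, 25728) (by decide +kernel)
       (CovZ.n2 (25920, 25536) (by decide +kernel)
        TD_u75
        TD_u76)
       (CovZ.badM (by decide +kernel)))
      (CovZ.n1 (25728, 25344) (by decide +kernel)
       TD_u77
       TD_u78)))
    (CovZ.n1 (25344, 24576) (by decide +kernel)
     (CovZ.subM 273414685315754030436052708404311589360550974874204829231257662282284908126633957083567342563123724 (by decide +kernel)
      (CovZ.n2 (24960, 24960) (by decide +kernel)
       (CovZ.n2 (25344, 24960) (by decide +kernel)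
        (CovZ.n2 (25152, 24768) (by decide +kernel)
         (CovZ.leaf K2_ok TD_l5280 _)
         (CovZ.leaf K2_ok TD_l5281 _))
        (CovZ.n1 (25152, 25152) (by decide +kernel)
         (CovZ.n2 (25344, 25152) (by decide +kernel)
          (CovZ.n2 (25248, 25056) (by decide +kernel)
           (CovZ.leaf K2_ok TD_l5282 _)
           (CovZ.leaf K2_ok TD_l5283 _))
          (CovZ.n1 (25248, 25248) (by decide +kernel)
           (CovZ.n2 (25344, 25248) (by decide +kernel)
            (CovZ.leaf K2_ok TD_l5284 _)
            (CovZ.leaf K2_ok TD_l5285 _))
           (CovZ.leaf K2_ok TD_l5286 _)))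
         (CovZ.n1 (25152, 24960) (by decide +kernel)
          (CovZ.leaf K2_ok TD_l5287 _)
          (CovZ.n1 (25248, 25056) (by decide +kernel)
           (CovZ.leaf K2_ok TD_l5288 _)
           (CovZ.leaf K2_ok TD_l5289 _)))))
       (CovZ.n1 (24960, 24576) (by decide +kernel)
        (CovZ.n2 (24768, 24768) (by decide +kernel)
         (CovZ.leaf K2_ok TD_l5290 _)
         (CovZ.leaf K2_ok TD_l5291 _))
        (CovZ.n1 (25152, 24768) (by decide +kernel)
         (CovZ.leaf K2_ok TD_l5292 _)
         (CovZ.leaf K2_ok TD_l5293 _)))))
     (CovZ.n1 (25728, 24960) (by decide +kernel)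
      (CovZ.n2 (25728, 24576) (by decide +kernel)
       (CovZ.n2 (25536, 24768) (by decide +kernel)
        (CovZ.leaf K2_ok TD_l5294 _)
        (CovZ.leaf K2_ok TD_l5295 _))
       (CovZ.n1 (25920, 24768) (by decide +kernel)
        (CovZ.leaf K2_ok TD_l5296 _)
        (CovZ.leaf K2_ok TD_l5297 _)))
      (CovZ.subM 273681682676726156029226644323991588431967765718385982731820741255749977989466934470475398676374020 (by decide +kernel)
       (CovZ.n1 (25344, 24960) (by decide +kernel)
        (CovZ.n2 (25536, 25152) (by decide +kernel)
         (CovZ.n2 (25536, 24960) (by decide +kernel)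
          (CovZ.leaf K2_ok TD_l5298 _)
          (CovZ.n1 (25632, 25056) (by decide +kernel)
           (CovZ.leaf K2_ok TD_l5299 _)
           (CovZ.leaf K2_ok TD_l5300 _)))
         (CovZ.n1 (25344, 25152) (by decide +kernel)
          (CovZ.n2 (25440, 25248) (by decide +kernel)
           (CovZ.leaf K2_ok TD_l5301 _)
           (CovZ.leaf K2_ok TD_l5302 _))
          (CovZ.leaf K2_ok TD_l5303 _)))
        (CovZ.n1 (25536, 24768) (by decide +kernel)
         (CovZ.leaf K2_ok TD_l5304 _)
         (CovZ.leaf K2_ok TD_l5305 _))))))))
    (CovZ.topM TD_LL 311365265526755237821189995624190612200094069929330330769962416662351283759935307565925039190872911143437 (by decide +kernel) (CovZ.n0 (25344, 25344) (by decide +kernel)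
    (CovZ.subM 273414685315754030436052708404311589360550974874204829231257662282284908126633957083567342563123724 (by decide +kernel)
     (CovZ.n2 (24576, 25344) (by decide +kernel)
      TD_u79
      TD_u80))
    (CovZ.n1 (25344, 26112) (by decide +kernel)
     (CovZ.n2 (25728, 25728) (by decide +kernel)
      (CovZ.subM 273681682676725670361887794919063009981875324062001872432816908674701897929813200821933313018192384 (by decide +kernel)
       (CovZ.n2 (25344, 25728) (by decide +kernel)
        (CovZ.badM (by decide +kernel))
        (CovZ.n1 (25536, 25536) (by decide +kernel)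
         (CovZ.n2 (25344, 25536) (by decide +kernel)
          (CovZ.subM 273406340597876490546562778389702672314650736182857596708190508358594629882657856036519010476490752 (by decide +kernel)
           (CovZ.n2 (25440, 25632) (by decide +kernel)
            (CovZ.n2 (25440, 25536) (by decide +kernel)
             (CovZ.n2 (25392, 25584) (by decide +kernel)
              (CovZ.n2 (25440, 25584) (by decide +kernel)
               (CovZ.n2 (25416, 25560) (by decide +kernel)
                (CovZ.n2 (25416, 25584) (by decide +kernel)
                 (CovZ.leaf K2_ok TD_l18115 _)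
                 (CovZ.n1 (25404, 25572) (by decide +kernel)
                  (CovZ.badM (by decide +kernel))
                  (CovZ.leaf K2_ok TD_l18116 _)))
                (CovZ.n1 (25440, 25560) (by decide +kernel)
                 (CovZ.leaf K2_ok TD_l15461 _)
                 (CovZ.n1 (25428, 25572) (by decide +kernel)
                  (CovZ.leaf K2_ok TD_l18117 _)
                  (CovZ.leaf K2_ok TD_l18118 _))))
               (CovZ.badM (by decide +kernel)))
              (CovZ.n1 (25392, 25536) (by decide +kernel)
               (CovZ.n2 (25368, 25560) (by decide +kernel)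
                (CovZ.n2 (25392, 25560) (by decide +kernel)
                 (CovZ.leaf K2_ok TD_l15462 _)
                 (CovZ.n1 (25380, 25572) (by decide +kernel)
                  (CovZ.leaf K2_ok TD_l18119 _)
                  (CovZ.leaf K2_ok TD_l18120 _)))
                (CovZ.leaf K2_ok TD_l15463 _))
               (CovZ.n1 (25416, 25560) (by decide +kernel)
                (CovZ.leaf K2_ok TD_l15464 _)
                (CovZ.n1 (25392, 25560) (by decide +kernel)
                 (CovZ.n2 (25404, 25572) (by decide +kernel)
                  (CovZ.leaf K2_ok TD_l18121 _)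
                  (CovZ.leaf K2_ok TD_l18122 _))
                 (CovZ.leaf K2_ok TD_l15465 _)))))
             (CovZ.n1 (25488, 25584) (by decide +kernel)
              (CovZ.n2 (25488, 25536) (by decide +kernel)
               (CovZ.n2 (25464, 25560) (by decide +kernel)
                (CovZ.n2 (25488, 25560) (by decide +kernel)
                 (CovZ.leaf K2_ok TD_l18123 _)
                 (CovZ.n1 (25476, 25572) (by decide +kernel)
                  (CovZ.badM (by decide +kernel))
                  (CovZ.leaf K2_ok TD_l18124 _)))
                (CovZ.leaf K2_ok TD_l15466 _))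
               (CovZ.n1 (25512, 25560) (by decide +kernel)
                (CovZ.leaf K2_ok TD_l18125 _)
                (CovZ.n1 (25488, 25560) (by decide +kernel)
                 (CovZ.badM (by decide +kernel))
                 (CovZ.leaf K2_ok TD_l18126 _))))
              (CovZ.n1 (25440, 25584) (by decide +kernel)
               (CovZ.badM (by decide +kernel))
               (CovZ.n1 (25464, 25560) (by decide +kernel)
                (CovZ.n2 (25440, 25560) (by decide +kernel)
                 (CovZ.n2 (25452, 25572) (by decide +kernel)
                  (CovZ.leaf K2_ok TD_l18127 _)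
                  (CovZ.leaf K2_ok TD_l18128 _))
                 (CovZ.leaf K2_ok TD_l15467 _))
                (CovZ.n1 (25464, 25584) (by decide +kernel)
                 (CovZ.leaf K2_ok TD_l18129 _)
                 (CovZ.n1 (25452, 25572) (by decide +kernel)
                  (CovZ.badM (by decide +kernel))
                  (CovZ.leaf K2_ok TD_l18130 _)))))))
            (CovZ.n1 (25344, 25632) (by decide +kernel)
             (CovZ.badM (by decide +kernel))
             (CovZ.n1 (25392, 25584) (by decide +kernel)
              (CovZ.n2 (25344, 25584) (by decide +kernel)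
               (CovZ.badM (by decide +kernel))
               (CovZ.n1 (25368, 25560) (by decide +kernel)
                (CovZ.n2 (25344, 25560) (by decide +kernel)
                 (CovZ.badM (by decide +kernel))
                 (CovZ.leaf K2_ok TD_l15468 _))
                (CovZ.badM (by decide +kernel))))
              (CovZ.badM (by decide +kernel))))))
          (CovZ.n1 (25440, 25440) (by decide +kernel)
           (CovZ.n2 (25344, 25440) (by decide +kernel)
            (CovZ.n2 (25392, 25488) (by decide +kernel)
             (CovZ.n2 (25392, 25440) (by decide +kernel)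
              (CovZ.leaf K2_ok TD_l5407 _)
              (CovZ.leaf K2_ok TD_l5408 _))
             (CovZ.n1 (25344, 25488) (by decide +kernel)
              (CovZ.n2 (25368, 25512) (by decide +kernel)
               (CovZ.leaf K2_ok TD_l5409 _)
               (CovZ.leaf K2_ok TD_l5410 _))
              (CovZ.leaf K2_ok TD_l5411 _)))
            (CovZ.leaf K2_ok TD_l5412 _))
           (CovZ.n1 (25440, 25536) (by decide +kernel)
            (CovZ.subM 273414684297235556601572133943242397127598403075222332346546580938019763302942496724200690246877184 (by decide +kernel)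
             (CovZ.n2 (25488, 25488) (by decide +kernel)
              (CovZ.n2 (25440, 25488) (by decide +kernel)
               (CovZ.n2 (25464, 25512) (by decide +kernel)
                (CovZ.leaf K2_ok TD_l5413 _)
                (CovZ.leaf K2_ok TD_l5414 _))
               (CovZ.leaf K2_ok TD_l5415 _))
              (CovZ.n1 (25488, 25536) (by decide +kernel)
               (CovZ.leaf K2_ok TD_l5416 _)
               (CovZ.n1 (25464, 25512) (by decide +kernel)
                (CovZ.leaf K2_ok TD_l5417 _)
                (CovZ.leaf K2_ok TD_l5418 _)))))
            (CovZ.n1 (25392, 25488) (by decide +kernel)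
             (CovZ.subM 273406340597876490546562778389702672314650736260681145920845309855259823505118655706968783522496512 (by decide +kernel)
              (CovZ.n2 (25392, 25536) (by decide +kernel)
               (CovZ.n2 (25416, 25512) (by decide +kernel)
                (CovZ.leaf K2_ok TD_l5419 _)
                (CovZ.leaf K2_ok TD_l5420 _))
               (CovZ.n1 (25368, 25512) (by decide +kernel)
                (CovZ.leaf K2_ok TD_l5421 _)
                (CovZ.leaf K2_ok TD_l5422 _))))
             (CovZ.n1 (25440, 25488) (by decide +kernel)
              (CovZ.leaf K2_ok TD_l5423 _)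
              (CovZ.n1 (25416, 25512) (by decide +kernel)
               (CovZ.leaf K2_ok TD_l5424 _)
               (CovZ.leaf K2_ok TD_l5425 _)))))))
         (CovZ.subM 266998379490113760299377713271194015128807088265901677117726963359253342171053177832805301747712 (by decide +kernel)
          (CovZ.n1 (25536, 25728) (by decide +kernel)
           (CovZ.n2 (25632, 25632) (by decide +kernel)
            (CovZ.n2 (25536, 25632) (by decide +kernel)
             (CovZ.badM (by decide +kernel))
             (CovZ.n1 (25584, 25584) (by decide +kernel)
              (CovZ.badM (by decide +kernel))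
              (CovZ.badM (by decide +kernel))))
            (CovZ.badM (by decide +kernel)))
           (CovZ.badM (by decide +kernel)))))))
      (CovZ.badM (by decide +kernel)))
     (CovZ.subM 273414684297235556601586607954397482901193023677095210007138974367832243953829031119350418433401344 (by decide +kernel)
      (CovZ.n1 (24960, 25728) (by decide +kernel)
       (CovZ.badM (by decide +kernel))
       (CovZ.n1 (25344, 25728) (by decide +kernel)
        (CovZ.n2 (25152, 25536) (by decide +kernel)
         (CovZ.n2 (25152, 25728) (by decide +kernel)
          (CovZ.n2 (25248, 25632) (by decide +kernel)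
           (CovZ.badM (by decide +kernel))
           (CovZ.badM (by decide +kernel)))
          (CovZ.badM (by decide +kernel)))
         (CovZ.n1 (25344, 25536) (by decide +kernel)
          (CovZ.n2 (25248, 25440) (by decide +kernel)
           (CovZ.n2 (25248, 25536) (by decide +kernel)
            (CovZ.n2 (25296, 25488) (by decide +kernel)
             (CovZ.n2 (25248, 25488) (by decide +kernel)
              (CovZ.n2 (25272, 25512) (by decide +kernel)
               (CovZ.leaf K2_ok TD_l5426 _)
               (CovZ.leaf K2_ok TD_l5427 _))
              (CovZ.leaf K2_ok TD_l5428 _))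
             (CovZ.n1 (25296, 25536) (by decide +kernel)
              (CovZ.leaf K2_ok TD_l5429 _)
              (CovZ.n1 (25272, 25512) (by decide +kernel)
               (CovZ.leaf K2_ok TD_l5430 _)
               (CovZ.leaf K2_ok TD_l5431 _))))
            (CovZ.subM 273406340597876490546562778389702670669146178939473596592312629801693984350334376921538366713888768 (by decide +kernel)
             (CovZ.n1 (25200, 25488) (by decide +kernel)
              (CovZ.subM 53876796358566405176660637673253057236597396784283648 (by decide +kernel)
               (CovZ.n2 (25200, 25536) (by decide +kernel)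
                (CovZ.n2 (25224, 25512) (by decide +kernel)
                 (CovZ.leaf K2_ok TD_l5432 _)
                 (CovZ.leaf K2_ok TD_l5433 _))
                (CovZ.n1 (25176, 25512) (by decide +kernel)
                 (CovZ.leaf K2_ok TD_l15470 _)
                 (CovZ.n1 (25200, 25512) (by decide +kernel)
                  (CovZ.leaf K2_ok TD_l15471 _)
                  (CovZ.leaf K2_ok TD_l15472 _)))))
              (CovZ.n1 (25248, 25488) (by decide +kernel)
               (CovZ.leaf K2_ok TD_l5434 _)
               (CovZ.n1 (25224, 25512) (by decide +kernel)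
                (CovZ.leaf K2_ok TD_l5435 _)
                (CovZ.leaf K2_ok TD_l5436 _))))))
           (CovZ.n1 (25344, 25440) (by decide +kernel)
            (CovZ.n2 (25296, 25392) (by decide +kernel)
             (CovZ.leaf K2_ok TD_l5437 _)
             (CovZ.leaf K2_ok TD_l5438 _))
            (CovZ.n1 (25296, 25488) (by decide +kernel)
             (CovZ.n2 (25344, 25488) (by decide +kernel)
              (CovZ.leaf K2_ok TD_l5439 _)
              (CovZ.n1 (25320, 25512) (by decide +kernel)
               (CovZ.leaf K2_ok TD_l5440 _)
               (CovZ.leaf K2_ok TD_l5441 _)))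
             (CovZ.n1 (25296, 25440) (by decide +kernel)
              (CovZ.leaf K2_ok TD_l5442 _)
              (CovZ.leaf K2_ok TD_l5443 _)))))
          (CovZ.subM 273406340597876490546562778389702672314650736182857596708190508358594629882657856036519010476490752 (by decide +kernel)
           (CovZ.n1 (25248, 25632) (by decide +kernel)
            (CovZ.n2 (25344, 25632) (by decide +kernel)
             (CovZ.n2 (25296, 25584) (by decide +kernel)
              (CovZ.badM (by decide +kernel))
              (CovZ.n1 (25344, 25584) (by decide +kernel)
               (CovZ.n2 (25320, 25560) (by decide +kernel)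
                (CovZ.badM (by decide +kernel))
                (CovZ.n1 (25344, 25560) (by decide +kernel)
                 (CovZ.leaf K2_ok TD_l15473 _)
                 (CovZ.badM (by decide +kernel))))
               (CovZ.badM (by decide +kernel))))
             (CovZ.badM (by decide +kernel)))
            (CovZ.n1 (25248, 25536) (by decide +kernel)
             (CovZ.badM (by decide +kernel))
             (CovZ.n1 (25296, 25584) (by decide +kernel)
              (CovZ.n2 (25296, 25536) (by decide +kernel)
               (CovZ.badM (by decide +kernel))
               (CovZ.n1 (25320, 25560) (by decide +kernel)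
                (CovZ.n2 (25320, 25536) (by decide +kernel)
                 (CovZ.badM (by decide +kernel))
                 (CovZ.leaf K2_ok TD_l15475 _))
                (CovZ.badM (by decide +kernel))))
              (CovZ.badM (by decide +kernel))))))))
        (CovZ.badM (by decide +kernel))))))))

theorem TD_s5_8 : SqZ TD_M TD_L [0, 7, 6, 1] 18432 12288 1536 5 8 :=
  SqZ.mk (a := 26112) (b := 27648) (c := 24576) (d := 26112) (by norm_num) (by norm_num) (by norm_num) (by norm_num)
    (CovZ.topM TD_LL 5517161974559381843367113762236337243243224351273849242222422393821890585556898429264231442854826351980069 (by decide +kernel) (CovZ.n2 (26880, 25344) (by decide +kernel)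
    (CovZ.subM 11016957999374253604390032413805210330564519067801768572782476583673600608567859034596506136069 (by decide +kernel)
     (CovZ.n2 (27648, 25344) (by decide +kernel)
      (CovZ.n2 (27264, 24960) (by decide +kernel)
       (CovZ.n2 (27264, 25344) (by decide +kernel)
        (CovZ.n2 (27456, 25152) (by decide +kernel)
         (CovZ.n2 (27264, 25152) (by decide +kernel)
          (CovZ.n2 (27360, 25248) (by decide +kernel)
           (CovZ.leaf K2_ok TD_l6902 _)
           (CovZ.leaf K2_ok TD_l6903 _))
          (CovZ.leaf K2_ok TD_l6904 _))
         (CovZ.n1 (27456, 25344) (by decide +kernel)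
          (CovZ.leaf K2_ok TD_l6905 _)
          (CovZ.n1 (27360, 25248) (by decide +kernel)
           (CovZ.leaf K2_ok TD_l6906 _)
           (CovZ.leaf K2_ok TD_l6907 _))))
        (CovZ.n1 (27072, 25152) (by decide +kernel)
         (CovZ.n2 (27072, 25344) (by decide +kernel)
          (CovZ.leaf K2_ok TD_l6908 _)
          (CovZ.n1 (26976, 25248) (by decide +kernel)
           (CovZ.leaf K2_ok TD_l6909 _)
           (CovZ.leaf K2_ok TD_l6910 _)))
         (CovZ.n1 (27264, 25152) (by decide +kernel)
          (CovZ.n2 (27168, 25056) (by decide +kernel)
           (CovZ.leaf K2_ok TD_l6911 _)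
           (CovZ.leaf K2_ok TD_l6912 _))
          (CovZ.n1 (27168, 25248) (by decide +kernel)
           (CovZ.n2 (27264, 25248) (by decide +kernel)
            (CovZ.leaf K2_ok TD_l6913 _)
            (CovZ.leaf K2_ok TD_l6914 _))
           (CovZ.leaf K2_ok TD_l6915 _)))))
       (CovZ.n1 (27648, 24960) (by decide +kernel)
        (CovZ.n2 (27456, 24768) (by decide +kernel)
         (CovZ.leaf K2_ok TD_l6916 _)
         (CovZ.leaf K2_ok TD_l6917 _))
        (CovZ.n1 (27456, 25152) (by decide +kernel)
         (CovZ.n2 (27648, 25152) (by decide +kernel)
          (CovZ.n2 (27552, 25056) (by decide +kernel)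
           (CovZ.leaf K2_ok TD_l6918 _)
           (CovZ.leaf K2_ok TD_l6919 _))
          (CovZ.n1 (27552, 25248) (by decide +kernel)
           (CovZ.leaf K2_ok TD_l6920 _)
           (CovZ.leaf K2_ok TD_l6921 _)))
         (CovZ.n1 (27456, 24960) (by decide +kernel)
          (CovZ.leaf K2_ok TD_l6922 _)
          (CovZ.leaf K2_ok TD_l6923 _)))))
      (CovZ.n1 (27264, 25728) (by decide +kernel)
       TD_u83
       TD_u84)))
    (CovZ.n1 (26880, 24576) (by decide +kernel)
     (CovZ.n2 (26496, 24960) (by decide +kernel)
      (CovZ.subM 5223719041477756985544800010490790794341823775278056814225523759688849946126309105334272785183160412463621 (by decide +kernel)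
       (CovZ.n2 (26880, 24960) (by decide +kernel)
        (CovZ.n2 (26688, 24768) (by decide +kernel)
         (CovZ.leaf K2_ok TD_l7028 _)
         (CovZ.leaf K2_ok TD_l7029 _))
        (CovZ.n1 (26688, 25152) (by decide +kernel)
         (CovZ.n2 (26880, 25152) (by decide +kernel)
          (CovZ.n2 (26784, 25056) (by decide +kernel)
           (CovZ.leaf K2_ok TD_l7030 _)
           (CovZ.leaf K2_ok TD_l7031 _))
          (CovZ.n1 (26784, 25248) (by decide +kernel)
           (CovZ.leaf K2_ok TD_l7032 _)
           (CovZ.leaf K2_ok TD_l7033 _)))
         (CovZ.n1 (26688, 24960) (by decide +kernel)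
          (CovZ.leaf K2_ok TD_l7034 _)
          (CovZ.n1 (26784, 25056) (by decide +kernel)
           (CovZ.leaf K2_ok TD_l7035 _)
           (CovZ.leaf K2_ok TD_l7036 _))))))
      (CovZ.n1 (26496, 24576) (by decide +kernel)
       (CovZ.n2 (26304, 24768) (by decide +kernel)
        (CovZ.leaf K2_ok TD_l7037 _)
        (CovZ.leaf K2_ok TD_l7038 _))
       (CovZ.n1 (26688, 24768) (by decide +kernel)
        (CovZ.leaf K2_ok TD_l7039 _)
        (CovZ.leaf K2_ok TD_l7040 _))))
     (CovZ.subM 11016957999374253604390032413805210330564519067801768572782476583673600608567859034596506136069 (by decide +kernel)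
      (CovZ.n1 (27264, 24960) (by decide +kernel)
       (CovZ.n2 (27264, 24576) (by decide +kernel)
        (CovZ.n2 (27072, 24768) (by decide +kernel)
         (CovZ.leaf K2_ok TD_l7041 _)
         (CovZ.leaf K2_ok TD_l7042 _))
        (CovZ.n1 (27456, 24768) (by decide +kernel)
         (CovZ.leaf K2_ok TD_l7043 _)
         (CovZ.leaf K2_ok TD_l7044 _)))
       (CovZ.n1 (26880, 24960) (by decide +kernel)
        (CovZ.n2 (27072, 25152) (by decide +kernel)
         (CovZ.n2 (27072, 24960) (by decide +kernel)
          (CovZ.leaf K2_ok TD_l7045 _)
          (CovZ.leaf K2_ok TD_l7046 _))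
         (CovZ.n1 (26880, 25152) (by decide +kernel)
          (CovZ.n2 (26976, 25248) (by decide +kernel)
           (CovZ.leaf K2_ok TD_l7047 _)
           (CovZ.leaf K2_ok TD_l7048 _))
          (CovZ.leaf K2_ok TD_l7049 _)))
        (CovZ.leaf K2_ok TD_l7050 _)))))))
    (CovZ.topM TD_LL 5517161974557295902613003683370825805886061207338665655372711649586112219641912282232169881666626536009221 (by decide +kernel) (CovZ.n0 (26880, 25344) (by decide +kernel)
    (CovZ.n2 (26112, 25344) (by decide +kernel)
     (CovZ.n2 (26496, 25728) (by decide +kernel)
      (CovZ.n2 (26496, 25344) (by decide +kernel)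
       TD_u85
       TD_u86)
      (CovZ.n1 (26112, 25728) (by decide +kernel)
       (CovZ.n2 (26304, 25920) (by decide +kernel)
        (CovZ.n2 (26304, 25728) (by decide +kernel)
         (CovZ.badM (by decide +kernel))
         (CovZ.badM (by decide +kernel)))
        (CovZ.badM (by decide +kernel)))
       (CovZ.n1 (26304, 25536) (by decide +kernel)
        (CovZ.n2 (26112, 25536) (by decide +kernel)
         (CovZ.subM 920575561993297847908349895588591093970261778555149296036714849649447657502213398098925184345820796813312 (by decide +kernel)
          (CovZ.n2 (26208, 25632) (by decide +kernel)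
           (CovZ.n2 (26208, 25536) (by decide +kernel)
            (CovZ.n2 (26160, 25584) (by decide +kernel)
             (CovZ.n2 (26208, 25584) (by decide +kernel)
              (CovZ.n2 (26184, 25560) (by decide +kernel)
               (CovZ.leaf K2_ok TD_l7117 _)
               (CovZ.leaf K2_ok TD_l7118 _))
              (CovZ.n1 (26184, 25608) (by decide +kernel)
               (CovZ.n2 (26208, 25608) (by decide +kernel)
                (CovZ.leaf K2_ok TD_l16542 _)
                (CovZ.n1 (26196, 25620) (by decide +kernel)
                 (CovZ.leaf K2_ok TD_l16543 _)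
                 (CovZ.leaf K2_ok TD_l16544 _)))
               (CovZ.leaf K2_ok TD_l16545 _)))
             (CovZ.n1 (26160, 25536) (by decide +kernel)
              (CovZ.n2 (26136, 25560) (by decide +kernel)
               (CovZ.leaf K2_ok TD_l7119 _)
               (CovZ.leaf K2_ok TD_l7120 _))
              (CovZ.n1 (26184, 25560) (by decide +kernel)
               (CovZ.leaf K2_ok TD_l7121 _)
               (CovZ.leaf K2_ok TD_l7122 _))))
            (CovZ.n1 (26256, 25584) (by decide +kernel)
             (CovZ.n2 (26256, 25536) (by decide +kernel)
              (CovZ.leaf K2_ok TD_l7123 _)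
              (CovZ.n1 (26280, 25560) (by decide +kernel)
               (CovZ.leaf K2_ok TD_l7124 _)
               (CovZ.leaf K2_ok TD_l7125 _)))
             (CovZ.n1 (26208, 25584) (by decide +kernel)
              (CovZ.n2 (26232, 25608) (by decide +kernel)
               (CovZ.leaf K2_ok TD_l16546 _)
               (CovZ.n1 (26208, 25608) (by decide +kernel)
                (CovZ.n2 (26220, 25620) (by decide +kernel)
                 (CovZ.leaf K2_ok TD_l16547 _)
                 (CovZ.leaf K2_ok TD_l16548 _))
                (CovZ.leaf K2_ok TD_l16549 _)))
              (CovZ.leaf K2_ok TD_l7126 _))))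
           (CovZ.n1 (26112, 25632) (by decide +kernel)
            (CovZ.subM 311359515441309820854254674369003081048894286770384839158374393127995402979924125527242312699744278806528 (by decide +kernel)
             (CovZ.n2 (26160, 25680) (by decide +kernel)
              (CovZ.n2 (26160, 25632) (by decide +kernel)
               (CovZ.n2 (26136, 25656) (by decide +kernel)
                (CovZ.n2 (26160, 25656) (by decide +kernel)
                 (CovZ.n2 (26148, 25644) (by decide +kernel)
                  (CovZ.n2 (26148, 25656) (by decide +kernel)
                   (CovZ.leaf K2_ok TD_l18986 _)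
                   (CovZ.n1 (26142, 25650) (by decide +kernel)
                    (CovZ.badM (by decide +kernel))
                    (CovZ.leaf K2_ok TD_l18987 _)))
                  (CovZ.n1 (26160, 25644) (by decide +kernel)
                   (CovZ.leaf K2_ok TD_l16550 _)
                   (CovZ.leaf K2_ok TD_l18381 _)))
                 (CovZ.badM (by decide +kernel)))
                (CovZ.n1 (26136, 25632) (by decide +kernel)
                 (CovZ.subM 293441557503887259761252132643272447221943763039468218702275036721229040497024390382078294100812727582720 (by decide +kernel)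
                  (CovZ.n2 (26124, 25644) (by decide +kernel)
                   (CovZ.n2 (26136, 25644) (by decide +kernel)
                    (CovZ.leaf K2_ok TD_l16551 _)
                    (CovZ.n1 (26130, 25650) (by decide +kernel)
                     (CovZ.n2 (26136, 25650) (by decide +kernel)
                      (CovZ.leaf K2_ok TD_l18988 _)
                      (CovZ.leaf K2_ok TD_l18989 _))
                     (CovZ.leaf K2_ok TD_l16552 _)))
                   (CovZ.leaf K2_ok TD_l16553 _)))
                 (CovZ.n1 (26148, 25644) (by decide +kernel)
                  (CovZ.leaf K2_ok TD_l16554 _)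
                  (CovZ.n1 (26136, 25644) (by decide +kernel)
                   (CovZ.n2 (26142, 25650) (by decide +kernel)
                    (CovZ.leaf K2_ok TD_l18990 _)
                    (CovZ.leaf K2_ok TD_l18991 _))
                   (CovZ.leaf K2_ok TD_l16555 _)))))
               (CovZ.n1 (26184, 25656) (by decide +kernel)
                (CovZ.n2 (26184, 25632) (by decide +kernel)
                 (CovZ.n2 (26172, 25644) (by decide +kernel)
                  (CovZ.n2 (26184, 25644) (by decide +kernel)
                   (CovZ.leaf K2_ok TD_l16556 _)
                   (CovZ.badM (by decide +kernel)))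
                  (CovZ.leaf K2_ok TD_l16557 _))
                 (CovZ.n1 (26196, 25644) (by decide +kernel)
                  (CovZ.leaf K2_ok TD_l16558 _)
                  (CovZ.leaf K2_ok TD_l16559 _)))
                (CovZ.n1 (26160, 25656) (by decide +kernel)
                 (CovZ.badM (by decide +kernel))
                 (CovZ.n1 (26172, 25644) (by decide +kernel)
                  (CovZ.n2 (26160, 25644) (by decide +kernel)
                   (CovZ.badM (by decide +kernel))
                   (CovZ.leaf K2_ok TD_l16560 _))
                  (CovZ.badM (by decide +kernel))))))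
              (CovZ.subM 293441557503887259761252132643272447220258766372771291742486935263533607655335919243879011299344359882752 (by decide +kernel)
               (CovZ.n1 (26112, 25680) (by decide +kernel)
                (CovZ.badM (by decide +kernel))
                (CovZ.n1 (26136, 25656) (by decide +kernel)
                 (CovZ.n2 (26112, 25656) (by decide +kernel)
                  (CovZ.subM 4479489484355608421114884561136888556243290994469299069799978201927583742360321890761754986543214231552 (by decide +kernel)
                   (CovZ.n2 (26124, 25668) (by decide +kernel)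
                    (CovZ.n2 (26124, 25656) (by decide +kernel)
                     (CovZ.n2 (26118, 25662) (by decide +kernel)
                      (CovZ.badM (by decide +kernel))
                      (CovZ.leaf K2_ok TD_l18992 _))
                     (CovZ.badM (by decide +kernel)))
                    (CovZ.n1 (26112, 25668) (by decide +kernel)
                     (CovZ.badM (by decide +kernel))
                     (CovZ.n1 (26118, 25662) (by decide +kernel)
                      (CovZ.n2 (26112, 25662) (by decide +kernel)
                       (CovZ.badM (by decide +kernel))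
                       (CovZ.leaf K2_ok TD_l18993 _))
                      (CovZ.badM (by decide +kernel))))))
                  (CovZ.n1 (26124, 25644) (by decide +kernel)
                   (CovZ.n2 (26112, 25644) (by decide +kernel)
                    (CovZ.n2 (26118, 25650) (by decide +kernel)
                     (CovZ.leaf K2_ok TD_l16561 _)
                     (CovZ.leaf K2_ok TD_l16562 _))
                    (CovZ.leaf K2_ok TD_l16563 _))
                   (CovZ.subM 293406561225292351583024938754466200433935560137739092065053925479945911626030030851494246297877631467520 (by decide +kernel)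
                    (CovZ.n1 (26124, 25656) (by decide +kernel)
                     (CovZ.leaf K2_ok TD_l16564 _)
                     (CovZ.n1 (26118, 25650) (by decide +kernel)
                      (CovZ.n2 (26118, 25656) (by decide +kernel)
                       (CovZ.leaf K2_ok TD_l18994 _)
                       (CovZ.leaf K2_ok TD_l16565 _))
                      (CovZ.leaf K2_ok TD_l16566 _))))))
                 (CovZ.badM (by decide +kernel)))))))
            (CovZ.n1 (26160, 25584) (by decide +kernel)
             (CovZ.n2 (26112, 25584) (by decide +kernel)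
              (CovZ.n2 (26136, 25608) (by decide +kernel)
               (CovZ.n2 (26136, 25584) (by decide +kernel)
                (CovZ.leaf K2_ok TD_l16567 _)
                (CovZ.leaf K2_ok TD_l16568 _))
               (CovZ.n1 (26112, 25608) (by decide +kernel)
                (CovZ.n2 (26124, 25620) (by decide +kernel)
                 (CovZ.leaf K2_ok TD_l16569 _)
                 (CovZ.leaf K2_ok TD_l16570 _))
                (CovZ.leaf K2_ok TD_l16571 _)))
              (CovZ.leaf K2_ok TD_l16572 _))
             (CovZ.n1 (26160, 25632) (by decide +kernel)
              (CovZ.n2 (26184, 25608) (by decide +kernel)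
               (CovZ.n2 (26160, 25608) (by decide +kernel)
                (CovZ.n2 (26172, 25620) (by decide +kernel)
                 (CovZ.leaf K2_ok TD_l16573 _)
                 (CovZ.leaf K2_ok TD_l16574 _))
                (CovZ.leaf K2_ok TD_l16575 _))
               (CovZ.n1 (26184, 25632) (by decide +kernel)
                (CovZ.leaf K2_ok TD_l16576 _)
                (CovZ.n1 (26172, 25620) (by decide +kernel)
                 (CovZ.leaf K2_ok TD_l16577 _)
                 (CovZ.leaf K2_ok TD_l16578 _))))
              (CovZ.n1 (26136, 25608) (by decide +kernel)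
               (CovZ.n2 (26136, 25632) (by decide +kernel)
                (CovZ.leaf K2_ok TD_l16579 _)
                (CovZ.n1 (26124, 25620) (by decide +kernel)
                 (CovZ.leaf K2_ok TD_l16580 _)
                 (CovZ.leaf K2_ok TD_l16581 _)))
               (CovZ.n1 (26160, 25608) (by decide +kernel)
                (CovZ.leaf K2_ok TD_l16582 _)
                (CovZ.leaf K2_ok TD_l16583 _))))))))
         (CovZ.n1 (26208, 25440) (by decide +kernel)
          (CovZ.n2 (26112, 25440) (by decide +kernel)
           (CovZ.n2 (26160, 25488) (by decide +kernel)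
            (CovZ.leaf K2_ok TD_l7127 _)
            (CovZ.leaf K2_ok TD_l7128 _))
           (CovZ.leaf K2_ok TD_l7129 _))
          (CovZ.subM 920575561993297847908349895588591093970263424059706623230529212763339470738290694634472410852520330657793 (by decide +kernel)
           (CovZ.n1 (26208, 25536) (by decide +kernel)
            (CovZ.n2 (26256, 25488) (by decide +kernel)
             (CovZ.leaf K2_ok TD_l7130 _)
             (CovZ.leaf K2_ok TD_l7131 _))
            (CovZ.n1 (26160, 25488) (by decide +kernel)
             (CovZ.leaf K2_ok TD_l7132 _)
             (CovZ.n1 (26208, 25488) (by decide +kernel)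
              (CovZ.leaf K2_ok TD_l7133 _)
              (CovZ.leaf K2_ok TD_l7134 _)))))))
        (CovZ.n1 (26304, 25728) (by decide +kernel)
         TD_u87
         TD_u88))))
     (CovZ.n1 (26496, 24960) (by decide +kernel)
      (CovZ.n2 (26112, 24960) (by decide +kernel)
       (CovZ.n2 (26304, 25152) (by decide +kernel)
        (CovZ.n2 (26304, 24960) (by decide +kernel)
         (CovZ.leaf K2_ok TD_l7138 _)
         (CovZ.leaf K2_ok TD_l7139 _))
        (CovZ.n1 (26112, 25152) (by decide +kernel)
         (CovZ.n2 (26208, 25248) (by decide +kernel)
          (CovZ.leaf K2_ok TD_l7140 _)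
          (CovZ.leaf K2_ok TD_l7141 _))
         (CovZ.leaf K2_ok TD_l7142 _)))
       (CovZ.leaf K2_ok TD_l7143 _))
      (CovZ.n1 (26496, 25344) (by decide +kernel)
       (CovZ.subM 5223719041477756985544800010490790794341823775278056814225523759688849946126309105334272785183160412463621 (by decide +kernel)
        (CovZ.n2 (26688, 25152) (by decide +kernel)
         (CovZ.n2 (26496, 25152) (by decide +kernel)
          (CovZ.n2 (26592, 25248) (by decide +kernel)
           (CovZ.leaf K2_ok TD_l7144 _)
           (CovZ.leaf K2_ok TD_l7145 _))
          (CovZ.leaf K2_ok TD_l7146 _))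
         (CovZ.n1 (26688, 25344) (by decide +kernel)
          (CovZ.n2 (26784, 25248) (by decide +kernel)
           (CovZ.leaf K2_ok TD_l7147 _)
           (CovZ.leaf K2_ok TD_l7148 _))
          (CovZ.n1 (26592, 25248) (by decide +kernel)
           (CovZ.leaf K2_ok TD_l7149 _)
           (CovZ.leaf K2_ok TD_l7150 _)))))
       (CovZ.n1 (26304, 25152) (by decide +kernel)
        (CovZ.n2 (26304, 25344) (by decide +kernel)
         (CovZ.n2 (26400, 25248) (by decide +kernel)
          (CovZ.leaf K2_ok TD_l7151 _)
          (CovZ.leaf K2_ok TD_l7152 _))
         (CovZ.n1 (26208, 25248) (by decide +kernel)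
          (CovZ.leaf K2_ok TD_l7153 _)
          (CovZ.n1 (26304, 25248) (by decide +kernel)
           (CovZ.leaf K2_ok TD_l7154 _)
           (CovZ.leaf K2_ok TD_l7155 _))))
        (CovZ.n1 (26496, 25152) (by decide +kernel)
         (CovZ.n2 (26400, 25056) (by decide +kernel)
          (CovZ.leaf K2_ok TD_l7156 _)
          (CovZ.leaf K2_ok TD_l7157 _))
         (CovZ.n1 (26400, 25248) (by decide +kernel)
          (CovZ.leaf K2_ok TD_l7158 _)
          (CovZ.leaf K2_ok TD_l7159 _)))))))
    (CovZ.n1 (26880, 26112) (by decide +kernel)
     TD_u93
     TD_u94)))

theorem TD_s6_8 : SqZ TD_M TD_L [0, 7, 6, 1] 18432 12288 1536 6 8 :=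
  SqZ.mk (a := 27648) (b := 29184) (c := 24576) (d := 26112) (by norm_num) (by norm_num) (by norm_num) (by norm_num)
    (CovZ.topM TD_LL 8409420656326007470033354417783269761575357258132105939657722964932919847985739211220550020229 (by decide +kernel) (CovZ.n2 (28416, 25344) (by decide +kernel)
    (CovZ.subM 7957171782556586288289608663930261016852444603059510641719182318749530912792101100055681 (by decide +kernel)
     (CovZ.n2 (29184, 25344) (by decide +kernel)
      TD_u95
      TD_u96))
    (CovZ.n1 (28416, 24576) (by decide +kernel)
     (CovZ.n2 (28032, 24960) (by decide +kernel)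
      (CovZ.subM 65193108414486111346878551637764031414663841127547881094685034420941025163213011573469670529 (by decide +kernel)
       (CovZ.n2 (28416, 24960) (by decide +kernel)
        (CovZ.n2 (28224, 24768) (by decide +kernel)
         (CovZ.leaf K2_ok TD_l8991 _)
         (CovZ.n1 (28416, 24768) (by decide +kernel)
          (CovZ.leaf K2_ok TD_l8992 _)
          (CovZ.leaf K2_ok TD_l8993 _)))
        (CovZ.n1 (28224, 25152) (by decide +kernel)
         (CovZ.n2 (28416, 25152) (by decide +kernel)
          (CovZ.n2 (28320, 25056) (by decide +kernel)
           (CovZ.leaf K2_ok TD_l8994 _)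
           (CovZ.leaf K2_ok TD_l8995 _))
          (CovZ.n1 (28320, 25248) (by decide +kernel)
           (CovZ.n2 (28416, 25248) (by decide +kernel)
            (CovZ.leaf K2_ok TD_l8996 _)
            (CovZ.leaf K2_ok TD_l8997 _))
           (CovZ.leaf K2_ok TD_l8998 _)))
         (CovZ.n1 (28224, 24960) (by decide +kernel)
          (CovZ.leaf K2_ok TD_l8999 _)
          (CovZ.leaf K2_ok TD_l9000 _)))))
      (CovZ.n1 (28032, 24576) (by decide +kernel)
       (CovZ.n2 (27840, 24768) (by decide +kernel)
        (CovZ.leaf K2_ok TD_l9001 _)
        (CovZ.leaf K2_ok TD_l9002 _))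
       (CovZ.n1 (28224, 24768) (by decide +kernel)
        (CovZ.leaf K2_ok TD_l9003 _)
        (CovZ.leaf K2_ok TD_l9004 _))))
     (CovZ.subM 7957171782556586288289608663930261016852444603059510641719182318749530912792101100055681 (by decide +kernel)
      (CovZ.n1 (28800, 24960) (by decide +kernel)
       (CovZ.n2 (28800, 24576) (by decide +kernel)
        (CovZ.n2 (28608, 24768) (by decide +kernel)
         (CovZ.n2 (28800, 24768) (by decide +kernel)
          (CovZ.leaf K2_ok TD_l9005 _)
          (CovZ.leaf K2_ok TD_l9006 _))
         (CovZ.leaf K2_ok TD_l9007 _))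
        (CovZ.n1 (28992, 24768) (by decide +kernel)
         (CovZ.leaf K2_ok TD_l9008 _)
         (CovZ.leaf K2_ok TD_l9009 _)))
       (CovZ.n1 (28416, 24960) (by decide +kernel)
        (CovZ.n2 (28608, 25152) (by decide +kernel)
         (CovZ.n2 (28608, 24960) (by decide +kernel)
          (CovZ.leaf K2_ok TD_l9010 _)
          (CovZ.n1 (28704, 25056) (by decide +kernel)
           (CovZ.leaf K2_ok TD_l9011 _)
           (CovZ.leaf K2_ok TD_l9012 _)))
         (CovZ.n1 (28416, 25152) (by decide +kernel)
          (CovZ.n2 (28512, 25248) (by decide +kernel)
           (CovZ.leaf K2_ok TD_l9013 _)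
           (CovZ.leaf K2_ok TD_l9014 _))
          (CovZ.leaf K2_ok TD_l9015 _)))
        (CovZ.n1 (28608, 24768) (by decide +kernel)
         (CovZ.leaf K2_ok TD_l9016 _)
         (CovZ.leaf K2_ok TD_l9017 _))))))))
    (CovZ.topM TD_LL 8409420656326007470033354417783269761575357258132105939657722964932919847985739211220549954565 (by decide +kernel) (CovZ.n0 (28416, 25344) (by decide +kernel)
    (CovZ.n2 (27648, 25344) (by decide +kernel)
     TD_u100
     TD_u101)
    (CovZ.n1 (28416, 26112) (by decide +kernel)
     (CovZ.subM 7957171782556586288289608663930261016852438894068739817879658085605653114811555568970752 (by decide +kernel)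
      (CovZ.n2 (28800, 25728) (by decide +kernel)
       (CovZ.n2 (28416, 25728) (by decide +kernel)
        (CovZ.badM (by decide +kernel))
        (CovZ.n1 (28608, 25536) (by decide +kernel)
         (CovZ.n2 (28416, 25536) (by decide +kernel)
          (CovZ.subM 374167255119794530687289320723027900874100616201216 (by decide +kernel)
           (CovZ.n2 (28512, 25632) (by decide +kernel)
            (CovZ.n2 (28512, 25536) (by decide +kernel)
             (CovZ.n2 (28464, 25584) (by decide +kernel)
              (CovZ.n2 (28512, 25584) (by decide +kernel)
               (CovZ.n2 (28488, 25560) (by decide +kernel)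
                (CovZ.leaf K2_ok TD_l9107 _)
                (CovZ.leaf K2_ok TD_l9108 _))
               (CovZ.badM (by decide +kernel)))
              (CovZ.n1 (28464, 25536) (by decide +kernel)
               (CovZ.leaf K2_ok TD_l9109 _)
               (CovZ.leaf K2_ok TD_l9110 _)))
             (CovZ.n1 (28560, 25584) (by decide +kernel)
              (CovZ.n2 (28560, 25536) (by decide +kernel)
               (CovZ.n2 (28536, 25560) (by decide +kernel)
                (CovZ.leaf K2_ok TD_l9111 _)
                (CovZ.leaf K2_ok TD_l9112 _))
               (CovZ.n1 (28584, 25560) (by decide +kernel)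
                (CovZ.leaf K2_ok TD_l9113 _)
                (CovZ.leaf K2_ok TD_l9114 _)))
              (CovZ.n1 (28512, 25584) (by decide +kernel)
               (CovZ.badM (by decide +kernel))
               (CovZ.leaf K2_ok TD_l9116 _))))
            (CovZ.n1 (28416, 25632) (by decide +kernel)
             (CovZ.badM (by decide +kernel))
             (CovZ.n1 (28464, 25584) (by decide +kernel)
              (CovZ.n2 (28416, 25584) (by decide +kernel)
               (CovZ.n2 (28440, 25608) (by decide +kernel)
                (CovZ.leaf K2_ok TD_l17696 _)
                (CovZ.leaf K2_ok TD_l17697 _))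
               (CovZ.leaf K2_ok TD_l9117 _))
              (CovZ.n1 (28464, 25632) (by decide +kernel)
               (CovZ.badM (by decide +kernel))
               (CovZ.n1 (28440, 25608) (by decide +kernel)
                (CovZ.leaf K2_ok TD_l17698 _)
                (CovZ.badM (by decide +kernel))))))))
          (CovZ.n1 (28512, 25440) (by decide +kernel)
           (CovZ.n2 (28416, 25440) (by decide +kernel)
            (CovZ.n2 (28464, 25488) (by decide +kernel)
             (CovZ.leaf K2_ok TD_l9118 _)
             (CovZ.leaf K2_ok TD_l9119 _))
            (CovZ.leaf K2_ok TD_l9120 _))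
           (CovZ.n1 (28512, 25536) (by decide +kernel)
            (CovZ.n2 (28560, 25488) (by decide +kernel)
             (CovZ.leaf K2_ok TD_l9121 _)
             (CovZ.leaf K2_ok TD_l9122 _))
            (CovZ.n1 (28464, 25488) (by decide +kernel)
             (CovZ.leaf K2_ok TD_l9123 _)
             (CovZ.n1 (28512, 25488) (by decide +kernel)
              (CovZ.leaf K2_ok TD_l9124 _)
              (CovZ.leaf K2_ok TD_l9125 _))))))
         (CovZ.subM 22835963083383627146003547659447842181885199360 (by decide +kernel)
          (CovZ.n1 (28608, 25728) (by decide +kernel)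
           (CovZ.n2 (28704, 25632) (by decide +kernel)
            (CovZ.n2 (28608, 25632) (by decide +kernel)
             (CovZ.badM (by decide +kernel))
             (CovZ.n1 (28656, 25584) (by decide +kernel)
              (CovZ.n2 (28608, 25584) (by decide +kernel)
               (CovZ.badM (by decide +kernel))
               (CovZ.leaf K2_ok TD_l9126 _))
              (CovZ.badM (by decide +kernel))))
            (CovZ.badM (by decide +kernel)))
           (CovZ.n1 (28512, 25632) (by decide +kernel)
            (CovZ.badM (by decide +kernel))
            (CovZ.n1 (28608, 25632) (by decide +kernel)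
             (CovZ.n2 (28560, 25584) (by decide +kernel)
              (CovZ.badM (by decide +kernel))
              (CovZ.n1 (28608, 25584) (by decide +kernel)
               (CovZ.n2 (28584, 25560) (by decide +kernel)
                (CovZ.leaf K2_ok TD_l9127 _)
                (CovZ.leaf K2_ok TD_l9128 _))
               (CovZ.badM (by decide +kernel))))
             (CovZ.badM (by decide +kernel))))))))
       (CovZ.badM (by decide +kernel))))
     (CovZ.n1 (28032, 25728) (by decide +kernel)
      (CovZ.n2 (28032, 26112) (by decide +kernel)
       (CovZ.badM (by decide +kernel))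
       (CovZ.n1 (27840, 25920) (by decide +kernel)
        (CovZ.badM (by decide +kernel))
        (CovZ.badM (by decide +kernel))))
      (CovZ.subM 65193108414486111346878551637764031414663841127547881094685034420941025163213011573469637632 (by decide +kernel)
       (CovZ.n1 (28416, 25728) (by decide +kernel)
        (CovZ.n2 (28224, 25536) (by decide +kernel)
         (CovZ.subM 13803492693581127575243770323526179946249890780281718682694937839928320 (by decide +kernel)
          (CovZ.n2 (28224, 25728) (by decide +kernel)
           (CovZ.n2 (28320, 25632) (by decide +kernel)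
            (CovZ.n2 (28224, 25632) (by decide +kernel)
             (CovZ.badM (by decide +kernel))
             (CovZ.n1 (28272, 25584) (by decide +kernel)
              (CovZ.n2 (28224, 25584) (by decide +kernel)
               (CovZ.n2 (28248, 25608) (by decide +kernel)
                (CovZ.leaf K2_ok TD_l17699 _)
                (CovZ.leaf K2_ok TD_l17700 _))
               (CovZ.leaf K2_ok TD_l9129 _))
              (CovZ.n1 (28272, 25632) (by decide +kernel)
               (CovZ.leaf K2_ok TD_l9130 _)
               (CovZ.n1 (28248, 25608) (by decide +kernel)
                (CovZ.leaf K2_ok TD_l17701 _)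
                (CovZ.leaf K2_ok TD_l17702 _)))))
            (CovZ.badM (by decide +kernel)))
           (CovZ.n1 (28128, 25632) (by decide +kernel)
            (CovZ.n2 (28128, 25728) (by decide +kernel)
             (CovZ.badM (by decide +kernel))
             (CovZ.n1 (28080, 25680) (by decide +kernel)
              (CovZ.badM (by decide +kernel))
              (CovZ.badM (by decide +kernel))))
            (CovZ.n1 (28224, 25632) (by decide +kernel)
             (CovZ.n2 (28176, 25584) (by decide +kernel)
              (CovZ.n2 (28176, 25632) (by decide +kernel)
               (CovZ.leaf K2_ok TD_l17703 _)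
               (CovZ.n1 (28152, 25608) (by decide +kernel)
                (CovZ.leaf K2_ok TD_l17704 _)
                (CovZ.leaf K2_ok TD_l17705 _)))
              (CovZ.n1 (28224, 25584) (by decide +kernel)
               (CovZ.leaf K2_ok TD_l9131 _)
               (CovZ.n1 (28200, 25608) (by decide +kernel)
                (CovZ.leaf K2_ok TD_l17706 _)
                (CovZ.leaf K2_ok TD_l17707 _))))
             (CovZ.badM (by decide +kernel))))))
         (CovZ.n1 (28416, 25536) (by decide +kernel)
          (CovZ.n2 (28320, 25440) (by decide +kernel)
           (CovZ.n2 (28320, 25536) (by decide +kernel)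
            (CovZ.n2 (28368, 25488) (by decide +kernel)
             (CovZ.leaf K2_ok TD_l9132 _)
             (CovZ.leaf K2_ok TD_l9133 _))
            (CovZ.n1 (28272, 25488) (by decide +kernel)
             (CovZ.leaf K2_ok TD_l9134 _)
             (CovZ.n1 (28320, 25488) (by decide +kernel)
              (CovZ.leaf K2_ok TD_l9135 _)
              (CovZ.leaf K2_ok TD_l9136 _))))
           (CovZ.n1 (28416, 25440) (by decide +kernel)
            (CovZ.n2 (28368, 25392) (by decide +kernel)
             (CovZ.leaf K2_ok TD_l9137 _)
             (CovZ.leaf K2_ok TD_l9138 _))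
            (CovZ.n1 (28368, 25488) (by decide +kernel)
             (CovZ.n2 (28416, 25488) (by decide +kernel)
              (CovZ.leaf K2_ok TD_l9139 _)
              (CovZ.leaf K2_ok TD_l9140 _))
             (CovZ.leaf K2_ok TD_l9141 _))))
          (CovZ.subM 13803492693581127575243678979673845435589507265063801011199149063799808 (by decide +kernel)
           (CovZ.n1 (28320, 25632) (by decide +kernel)
            (CovZ.n2 (28416, 25632) (by decide +kernel)
             (CovZ.n2 (28368, 25584) (by decide +kernel)
              (CovZ.subM 22835963083383627143527667580876940619720687616 (by decide +kernel)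
               (CovZ.n2 (28368, 25632) (by decide +kernel)
                (CovZ.leaf K2_ok TD_l17708 _)
                (CovZ.n1 (28344, 25608) (by decide +kernel)
                 (CovZ.leaf K2_ok TD_l17709 _)
                 (CovZ.n1 (28368, 25608) (by decide +kernel)
                  (CovZ.leaf K2_ok TD_l17710 _)
                  (CovZ.leaf K2_ok TD_l17711 _)))))
              (CovZ.n1 (28416, 25584) (by decide +kernel)
               (CovZ.leaf K2_ok TD_l9142 _)
               (CovZ.n1 (28392, 25608) (by decide +kernel)
                (CovZ.leaf K2_ok TD_l17712 _)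
                (CovZ.leaf K2_ok TD_l17713 _))))
             (CovZ.badM (by decide +kernel)))
            (CovZ.n1 (28320, 25536) (by decide +kernel)
             (CovZ.n2 (28272, 25584) (by decide +kernel)
              (CovZ.n2 (28320, 25584) (by decide +kernel)
               (CovZ.leaf K2_ok TD_l9143 _)
               (CovZ.n1 (28296, 25608) (by decide +kernel)
                (CovZ.n2 (28320, 25608) (by decide +kernel)
                 (CovZ.leaf K2_ok TD_l17714 _)
                 (CovZ.leaf K2_ok TD_l17715 _))
                (CovZ.leaf K2_ok TD_l9144 _)))
              (CovZ.n1 (28272, 25536) (by decide +kernel)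
               (CovZ.leaf K2_ok TD_l9145 _)
               (CovZ.leaf K2_ok TD_l9146 _)))
             (CovZ.n1 (28368, 25584) (by decide +kernel)
              (CovZ.n2 (28368, 25536) (by decide +kernel)
               (CovZ.leaf K2_ok TD_l9147 _)
               (CovZ.leaf K2_ok TD_l9148 _))
              (CovZ.n1 (28320, 25584) (by decide +kernel)
               (CovZ.n2 (28344, 25608) (by decide +kernel)
                (CovZ.leaf K2_ok TD_l17716 _)
                (CovZ.leaf K2_ok TD_l17717 _))
               (CovZ.leaf K2_ok TD_l9149 _))))))))
        (CovZ.badM (by decide +kernel))))))))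

theorem TD_s7_8 : SqZ TD_M TD_L [0, 7, 6, 1] 18432 12288 1536 7 8 :=
  SqZ.mk (a := 29184) (b := 30720) (c := 24576) (d := 26112) (by norm_num) (by norm_num) (by norm_num) (by norm_num)
    (CovZ.topM TD_LL 8885706069438958655896984690007049644203733703369691832928692499868323724077920890552704926126009489 (by decide +kernel) (CovZ.n2 (29952, 25344) (by decide +kernel)
    (CovZ.n2 (30720, 25344) (by decide +kernel)
     (CovZ.n2 (30336, 24960) (by decide +kernel)
      (CovZ.subM 8749002899132047697490008908691341344509975764771136106260057805467582000602288140729524581652573312 (by decide +kernel)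
       (CovZ.n2 (30336, 25344) (by decide +kernel)
        (CovZ.n2 (30528, 25152) (by decide +kernel)
         (CovZ.n2 (30336, 25152) (by decide +kernel)
          (CovZ.subM 8749002899132047697490008908470485461412677723573223895831229907610711666823703017715913683099459712 (by decide +kernel)
           (CovZ.n2 (30432, 25248) (by decide +kernel)
            (CovZ.leaf K2_ok TD_l10900 _)
            (CovZ.n1 (30336, 25248) (by decide +kernel)
             (CovZ.n2 (30384, 25296) (by decide +kernel)
              (CovZ.leaf K2_ok TD_l10901 _)
              (CovZ.leaf K2_ok TD_l10902 _))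
             (CovZ.leaf K2_ok TD_l10903 _))))
          (CovZ.leaf K2_ok TD_l10904 _))
         (CovZ.subM 8749002899132047697490008908470485461412677723573223895831229907610711666823703017715913683099459712 (by decide +kernel)
          (CovZ.n1 (30528, 25344) (by decide +kernel)
           (CovZ.n2 (30624, 25248) (by decide +kernel)
            (CovZ.n2 (30528, 25248) (by decide +kernel)
             (CovZ.n2 (30576, 25296) (by decide +kernel)
              (CovZ.leaf K2_ok TD_l10905 _)
              (CovZ.leaf K2_ok TD_l10906 _))
             (CovZ.leaf K2_ok TD_l10907 _))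
            (CovZ.n1 (30624, 25344) (by decide +kernel)
             (CovZ.leaf K2_ok TD_l10908 _)
             (CovZ.n1 (30576, 25296) (by decide +kernel)
              (CovZ.leaf K2_ok TD_l10909 _)
              (CovZ.leaf K2_ok TD_l10910 _))))
           (CovZ.n1 (30432, 25248) (by decide +kernel)
            (CovZ.n2 (30432, 25344) (by decide +kernel)
             (CovZ.leaf K2_ok TD_l10911 _)
             (CovZ.n1 (30384, 25296) (by decide +kernel)
              (CovZ.leaf K2_ok TD_l10912 _)
              (CovZ.leaf K2_ok TD_l10913 _)))
            (CovZ.n1 (30528, 25248) (by decide +kernel)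
             (CovZ.leaf K2_ok TD_l10914 _)
             (CovZ.leaf K2_ok TD_l10915 _))))))
        (CovZ.n1 (30144, 25152) (by decide +kernel)
         (CovZ.n2 (30144, 25344) (by decide +kernel)
          (CovZ.subM 374150128147481970899670026199324821860975007244416 (by decide +kernel)
           (CovZ.n2 (30240, 25248) (by decide +kernel)
            (CovZ.n2 (30144, 25248) (by decide +kernel)
             (CovZ.n2 (30192, 25296) (by decide +kernel)
              (CovZ.leaf K2_ok TD_l10916 _)
              (CovZ.leaf K2_ok TD_l10917 _))
             (CovZ.leaf K2_ok TD_l10918 _))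
            (CovZ.n1 (30240, 25344) (by decide +kernel)
             (CovZ.leaf K2_ok TD_l10919 _)
             (CovZ.n1 (30192, 25296) (by decide +kernel)
              (CovZ.leaf K2_ok TD_l10920 _)
              (CovZ.leaf K2_ok TD_l10921 _)))))
          (CovZ.n1 (30048, 25248) (by decide +kernel)
           (CovZ.n2 (30048, 25344) (by decide +kernel)
            (CovZ.leaf K2_ok TD_l10922 _)
            (CovZ.leaf K2_ok TD_l10923 _))
           (CovZ.n1 (30144, 25248) (by decide +kernel)
            (CovZ.leaf K2_ok TD_l10924 _)
            (CovZ.leaf K2_ok TD_l10925 _))))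
         (CovZ.n1 (30336, 25152) (by decide +kernel)
          (CovZ.n2 (30240, 25056) (by decide +kernel)
           (CovZ.leaf K2_ok TD_l10926 _)
           (CovZ.leaf K2_ok TD_l10927 _))
          (CovZ.n1 (30240, 25248) (by decide +kernel)
           (CovZ.n2 (30336, 25248) (by decide +kernel)
            (CovZ.leaf K2_ok TD_l10928 _)
            (CovZ.leaf K2_ok TD_l10929 _))
           (CovZ.leaf K2_ok TD_l10930 _))))))
      (CovZ.subM 8749002899132047697490008908470485461412677723573223895831229907610711666823703017715913683099525248 (by decide +kernel)
       (CovZ.n1 (30720, 24960) (by decide +kernel)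
        (CovZ.n2 (30528, 24768) (by decide +kernel)
         (CovZ.n2 (30528, 24960) (by decide +kernel)
          (CovZ.leaf K2_ok TD_l10931 _)
          (CovZ.n1 (30432, 24864) (by decide +kernel)
           (CovZ.leaf K2_ok TD_l10932 _)
           (CovZ.leaf K2_ok TD_l10933 _)))
         (CovZ.n1 (30720, 24768) (by decide +kernel)
          (CovZ.leaf K2_ok TD_l10934 _)
          (CovZ.leaf K2_ok TD_l10935 _)))
        (CovZ.n1 (30528, 25152) (by decide +kernel)
         (CovZ.n2 (30720, 25152) (by decide +kernel)
          (CovZ.n2 (30624, 25056) (by decide +kernel)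
           (CovZ.leaf K2_ok TD_l10936 _)
           (CovZ.n1 (30720, 25056) (by decide +kernel)
            (CovZ.leaf K2_ok TD_l10937 _)
            (CovZ.leaf K2_ok TD_l10938 _)))
          (CovZ.n1 (30624, 25248) (by decide +kernel)
           (CovZ.n2 (30720, 25248) (by decide +kernel)
            (CovZ.leaf K2_ok TD_l10939 _)
            (CovZ.n1 (30672, 25296) (by decide +kernel)
             (CovZ.leaf K2_ok TD_l10940 _)
             (CovZ.leaf K2_ok TD_l10941 _)))
           (CovZ.leaf K2_ok TD_l10942 _)))
         (CovZ.n1 (30528, 24960) (by decide +kernel)
          (CovZ.n2 (30432, 25056) (by decide +kernel)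
           (CovZ.leaf K2_ok TD_l10943 _)
           (CovZ.leaf K2_ok TD_l10944 _))
          (CovZ.n1 (30624, 25056) (by decide +kernel)
           (CovZ.leaf K2_ok TD_l10945 _)
           (CovZ.leaf K2_ok TD_l10946 _)))))))
     (CovZ.subM 8749002899132063238841146714523908700205230352922389239805779451676835741131864932109337736521985168 (by decide +kernel)
      (CovZ.n1 (30336, 25728) (by decide +kernel)
       TD_u104
       TD_u105)))
    (CovZ.n1 (29952, 24576) (by decide +kernel)
     (CovZ.n2 (29568, 24960) (by decide +kernel)
      (CovZ.subM 8749002899140004869272565494744971577383026857014831217079950554468193937123126322916524340499524736 (by decide +kernel)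
       (CovZ.n2 (29952, 24960) (by decide +kernel)
        (CovZ.n2 (29760, 24768) (by decide +kernel)
         (CovZ.n2 (29760, 24960) (by decide +kernel)
          (CovZ.leaf K2_ok TD_l11037 _)
          (CovZ.leaf K2_ok TD_l11038 _))
         (CovZ.n1 (29952, 24768) (by decide +kernel)
          (CovZ.leaf K2_ok TD_l11039 _)
          (CovZ.leaf K2_ok TD_l11040 _)))
        (CovZ.n1 (29760, 25152) (by decide +kernel)
         (CovZ.n2 (29952, 25152) (by decide +kernel)
          (CovZ.n2 (29856, 25056) (by decide +kernel)
           (CovZ.leaf K2_ok TD_l11041 _)
           (CovZ.leaf K2_ok TD_l11042 _))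
          (CovZ.n1 (29856, 25248) (by decide +kernel)
           (CovZ.n2 (29952, 25248) (by decide +kernel)
            (CovZ.leaf K2_ok TD_l11043 _)
            (CovZ.leaf K2_ok TD_l11044 _))
           (CovZ.leaf K2_ok TD_l11045 _)))
         (CovZ.n1 (29760, 24960) (by decide +kernel)
          (CovZ.n2 (29664, 25056) (by decide +kernel)
           (CovZ.leaf K2_ok TD_l11046 _)
           (CovZ.leaf K2_ok TD_l11047 _))
          (CovZ.n1 (29856, 25056) (by decide +kernel)
           (CovZ.leaf K2_ok TD_l11048 _)
           (CovZ.leaf K2_ok TD_l11049 _))))))
      (CovZ.n1 (29568, 24576) (by decide +kernel)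
       (CovZ.n2 (29376, 24768) (by decide +kernel)
        (CovZ.n2 (29568, 24768) (by decide +kernel)
         (CovZ.leaf K2_ok TD_l11050 _)
         (CovZ.leaf K2_ok TD_l11051 _))
        (CovZ.leaf K2_ok TD_l11052 _))
       (CovZ.n1 (29760, 24768) (by decide +kernel)
        (CovZ.leaf K2_ok TD_l11053 _)
        (CovZ.leaf K2_ok TD_l11054 _))))
     (CovZ.subM 8749002899140004869272565494744971577383026857014831217079950554468193937123126322916524340499524736 (by decide +kernel)
      (CovZ.n1 (30336, 24960) (by decide +kernel)
       (CovZ.n2 (30336, 24576) (by decide +kernel)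
        (CovZ.n2 (30144, 24768) (by decide +kernel)
         (CovZ.n2 (30336, 24768) (by decide +kernel)
          (CovZ.leaf K2_ok TD_l11055 _)
          (CovZ.leaf K2_ok TD_l11056 _))
         (CovZ.leaf K2_ok TD_l11057 _))
        (CovZ.n1 (30528, 24768) (by decide +kernel)
         (CovZ.leaf K2_ok TD_l11058 _)
         (CovZ.leaf K2_ok TD_l11059 _)))
       (CovZ.n1 (29952, 24960) (by decide +kernel)
        (CovZ.n2 (30144, 25152) (by decide +kernel)
         (CovZ.n2 (30144, 24960) (by decide +kernel)
          (CovZ.n2 (30048, 25056) (by decide +kernel)
           (CovZ.leaf K2_ok TD_l11060 _)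
           (CovZ.leaf K2_ok TD_l11061 _))
          (CovZ.n1 (30240, 25056) (by decide +kernel)
           (CovZ.leaf K2_ok TD_l11062 _)
           (CovZ.leaf K2_ok TD_l11063 _)))
         (CovZ.n1 (29952, 25152) (by decide +kernel)
          (CovZ.n2 (30048, 25248) (by decide +kernel)
           (CovZ.leaf K2_ok TD_l11064 _)
           (CovZ.n1 (29952, 25248) (by decide +kernel)
            (CovZ.leaf K2_ok TD_l11065 _)
            (CovZ.leaf K2_ok TD_l11066 _)))
          (CovZ.leaf K2_ok TD_l11067 _)))
        (CovZ.n1 (30144, 24768) (by decide +kernel)
         (CovZ.leaf K2_ok TD_l11068 _)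
         (CovZ.n1 (30144, 24960) (by decide +kernel)
          (CovZ.leaf K2_ok TD_l11069 _)
          (CovZ.leaf K2_ok TD_l11070 _)))))))))
    (CovZ.topM TD_LL 136703170306910958406975781536564182791055979796842087225610074228511727280417197658652218033794193 (by decide +kernel) (CovZ.n0 (29952, 25344) (by decide +kernel)
    (CovZ.n2 (29184, 25344) (by decide +kernel)
     TD_u106
     TD_u107)
    (CovZ.n1 (29952, 26112) (by decide +kernel)
     TD_u108
     TD_u109)))

theorem TD_s8_8 : SqZ TD_M TD_L [0, 7, 6, 1] 18432 12288 1536 8 8 :=
  SqZ.mk (a := 30720) (b := 32256) (c := 24576) (d := 26112) (by norm_num) (by norm_num) (by norm_num) (by norm_num)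
    (CovZ.topM TD_LL 8749002899132063238841146714303052817107932311724477035108245792184347671972224354219703140687618192 (by decide +kernel) (CovZ.n2 (31488, 25344) (by decide +kernel)
    (CovZ.subM 15541351137805832567355695254588151253144986003933138540164349837585875741467247443968 (by decide +kernel)
     (CovZ.n2 (32256, 25344) (by decide +kernel)
      (CovZ.n2 (31872, 24960) (by decide +kernel)
       (CovZ.n2 (31872, 25344) (by decide +kernel)
        (CovZ.badM (by decide +kernel))
        (CovZ.n1 (31680, 25152) (by decide +kernel)
         (CovZ.n2 (31680, 25344) (by decide +kernel)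
          (CovZ.badM (by decide +kernel))
          (CovZ.n1 (31584, 25248) (by decide +kernel)
           (CovZ.n2 (31584, 25344) (by decide +kernel)
            (CovZ.badM (by decide +kernel))
            (CovZ.n1 (31536, 25296) (by decide +kernel)
             (CovZ.n2 (31536, 25344) (by decide +kernel)
              (CovZ.badM (by decide +kernel))
              (CovZ.n1 (31512, 25320) (by decide +kernel)
               (CovZ.leaf K2_ok TD_l13052 _)
               (CovZ.badM (by decide +kernel))))
             (CovZ.badM (by decide +kernel))))
           (CovZ.badM (by decide +kernel))))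
         (CovZ.badM (by decide +kernel))))
       (CovZ.badM (by decide +kernel)))
      (CovZ.n1 (31872, 25728) (by decide +kernel)
       (CovZ.badM (by decide +kernel))
       (CovZ.subM 5708990770823839524233143877797980545531052032 (by decide +kernel)
        (CovZ.n1 (31872, 25344) (by decide +kernel)
         (CovZ.n2 (31680, 25536) (by decide +kernel)
          (CovZ.badM (by decide +kernel))
          (CovZ.n1 (31680, 25344) (by decide +kernel)
           (CovZ.n2 (31584, 25440) (by decide +kernel)
            (CovZ.badM (by decide +kernel))
            (CovZ.n1 (31584, 25344) (by decide +kernel)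
             (CovZ.n2 (31536, 25392) (by decide +kernel)
              (CovZ.badM (by decide +kernel))
              (CovZ.n1 (31536, 25344) (by decide +kernel)
               (CovZ.badM (by decide +kernel))
               (CovZ.badM (by decide +kernel))))
             (CovZ.badM (by decide +kernel))))
           (CovZ.badM (by decide +kernel))))
         (CovZ.badM (by decide +kernel)))))))
    (CovZ.n1 (31488, 24576) (by decide +kernel)
     (CovZ.n2 (31104, 24960) (by decide +kernel)
      (CovZ.subM 5708990770823839526709023956368811464073478144 (by decide +kernel)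
       (CovZ.n2 (31488, 24960) (by decide +kernel)
        (CovZ.n2 (31296, 24768) (by decide +kernel)
         (CovZ.n2 (31296, 24960) (by decide +kernel)
          (CovZ.n2 (31392, 24864) (by decide +kernel)
           (CovZ.leaf K2_ok TD_l13107 _)
           (CovZ.leaf K2_ok TD_l13108 _))
          (CovZ.n1 (31200, 24864) (by decide +kernel)
           (CovZ.leaf K2_ok TD_l13109 _)
           (CovZ.n1 (31296, 24864) (by decide +kernel)
            (CovZ.leaf K2_ok TD_l13110 _)
            (CovZ.leaf K2_ok TD_l13111 _))))
         (CovZ.n1 (31488, 24768) (by decide +kernel)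
          (CovZ.n2 (31392, 24672) (by decide +kernel)
           (CovZ.leaf K2_ok TD_l13112 _)
           (CovZ.n1 (31488, 24672) (by decide +kernel)
            (CovZ.leaf K2_ok TD_l13113 _)
            (CovZ.leaf K2_ok TD_l13114 _)))
          (CovZ.n1 (31392, 24864) (by decide +kernel)
           (CovZ.n2 (31488, 24864) (by decide +kernel)
            (CovZ.leaf K2_ok TD_l13115 _)
            (CovZ.leaf K2_ok TD_l13116 _))
           (CovZ.n1 (31392, 24768) (by decide +kernel)
            (CovZ.leaf K2_ok TD_l13117 _)
            (CovZ.leaf K2_ok TD_l13118 _)))))
        (CovZ.n1 (31296, 25152) (by decide +kernel)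
         (CovZ.n2 (31488, 25152) (by decide +kernel)
          (CovZ.n2 (31392, 25056) (by decide +kernel)
           (CovZ.n2 (31392, 25152) (by decide +kernel)
            (CovZ.leaf K2_ok TD_l13119 _)
            (CovZ.n1 (31344, 25104) (by decide +kernel)
             (CovZ.leaf K2_ok TD_l13120 _)
             (CovZ.leaf K2_ok TD_l13121 _)))
           (CovZ.n1 (31488, 25056) (by decide +kernel)
            (CovZ.n2 (31440, 25008) (by decide +kernel)
             (CovZ.leaf K2_ok TD_l13122 _)
             (CovZ.leaf K2_ok TD_l13123 _))
            (CovZ.n1 (31440, 25104) (by decide +kernel)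
             (CovZ.leaf K2_ok TD_l13124 _)
             (CovZ.leaf K2_ok TD_l13125 _))))
          (CovZ.n1 (31392, 25248) (by decide +kernel)
           (CovZ.n2 (31488, 25248) (by decide +kernel)
            (CovZ.n2 (31440, 25200) (by decide +kernel)
             (CovZ.leaf K2_ok TD_l13126 _)
             (CovZ.n1 (31488, 25200) (by decide +kernel)
              (CovZ.leaf K2_ok TD_l13127 _)
              (CovZ.leaf K2_ok TD_l13128 _)))
            (CovZ.n1 (31440, 25296) (by decide +kernel)
             (CovZ.n2 (31488, 25296) (by decide +kernel)
              (CovZ.n2 (31464, 25272) (by decide +kernel)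
               (CovZ.leaf K2_ok TD_l13129 _)
               (CovZ.leaf K2_ok TD_l13130 _))
              (CovZ.n1 (31464, 25320) (by decide +kernel)
               (CovZ.leaf K2_ok TD_l13131 _)
               (CovZ.leaf K2_ok TD_l13132 _)))
             (CovZ.n1 (31440, 25248) (by decide +kernel)
              (CovZ.leaf K2_ok TD_l13133 _)
              (CovZ.n1 (31464, 25272) (by decide +kernel)
               (CovZ.leaf K2_ok TD_l13134 _)
               (CovZ.leaf K2_ok TD_l13135 _)))))
           (CovZ.n1 (31392, 25152) (by decide +kernel)
            (CovZ.n2 (31344, 25200) (by decide +kernel)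
             (CovZ.n2 (31392, 25200) (by decide +kernel)
              (CovZ.leaf K2_ok TD_l13136 _)
              (CovZ.leaf K2_ok TD_l13137 _))
             (CovZ.n1 (31344, 25152) (by decide +kernel)
              (CovZ.leaf K2_ok TD_l13138 _)
              (CovZ.leaf K2_ok TD_l13139 _)))
            (CovZ.n1 (31440, 25200) (by decide +kernel)
             (CovZ.n2 (31440, 25152) (by decide +kernel)
              (CovZ.leaf K2_ok TD_l13140 _)
              (CovZ.leaf K2_ok TD_l13141 _))
             (CovZ.leaf K2_ok TD_l13142 _)))))
         (CovZ.n1 (31296, 24960) (by decide +kernel)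
          (CovZ.n2 (31200, 25056) (by decide +kernel)
           (CovZ.n2 (31296, 25056) (by decide +kernel)
            (CovZ.leaf K2_ok TD_l13143 _)
            (CovZ.n1 (31248, 25104) (by decide +kernel)
             (CovZ.leaf K2_ok TD_l13144 _)
             (CovZ.leaf K2_ok TD_l13145 _)))
           (CovZ.n1 (31200, 24960) (by decide +kernel)
            (CovZ.n2 (31152, 25008) (by decide +kernel)
             (CovZ.leaf K2_ok TD_l13146 _)
             (CovZ.leaf K2_ok TD_l13147 _))
            (CovZ.leaf K2_ok TD_l13148 _)))
          (CovZ.n1 (31392, 25056) (by decide +kernel)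
           (CovZ.n2 (31392, 24960) (by decide +kernel)
            (CovZ.n2 (31344, 25008) (by decide +kernel)
             (CovZ.leaf K2_ok TD_l13149 _)
             (CovZ.leaf K2_ok TD_l13150 _))
            (CovZ.n1 (31440, 25008) (by decide +kernel)
             (CovZ.leaf K2_ok TD_l13151 _)
             (CovZ.leaf K2_ok TD_l13152 _)))
           (CovZ.n1 (31296, 25056) (by decide +kernel)
            (CovZ.n2 (31344, 25104) (by decide +kernel)
             (CovZ.leaf K2_ok TD_l13153 _)
             (CovZ.leaf K2_ok TD_l13154 _))
            (CovZ.leaf K2_ok TD_l13155 _)))))))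
      (CovZ.n1 (31104, 24576) (by decide +kernel)
       (CovZ.n2 (30912, 24768) (by decide +kernel)
        (CovZ.subM 5708990770823839526709023956368811464073478144 (by decide +kernel)
         (CovZ.n2 (31104, 24768) (by decide +kernel)
          (CovZ.n2 (31008, 24672) (by decide +kernel)
           (CovZ.leaf K2_ok TD_l13156 _)
           (CovZ.leaf K2_ok TD_l13157 _))
          (CovZ.n1 (31008, 24864) (by decide +kernel)
           (CovZ.n2 (31104, 24864) (by decide +kernel)
            (CovZ.leaf K2_ok TD_l13158 _)
            (CovZ.leaf K2_ok TD_l13159 _))
           (CovZ.leaf K2_ok TD_l13160 _))))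
        (CovZ.n1 (30912, 24576) (by decide +kernel)
         (CovZ.leaf K2_ok TD_l13161 _)
         (CovZ.n1 (31008, 24672) (by decide +kernel)
          (CovZ.leaf K2_ok TD_l13162 _)
          (CovZ.leaf K2_ok TD_l13163 _))))
       (CovZ.subM 5708990770823839526709023956368811464073478144 (by decide +kernel)
        (CovZ.n1 (31296, 24768) (by decide +kernel)
         (CovZ.n2 (31296, 24576) (by decide +kernel)
          (CovZ.n2 (31200, 24672) (by decide +kernel)
           (CovZ.n2 (31296, 24672) (by decide +kernel)
            (CovZ.leaf K2_ok TD_l13164 _)
            (CovZ.leaf K2_ok TD_l13165 _))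
           (CovZ.leaf K2_ok TD_l13166 _))
          (CovZ.n1 (31392, 24672) (by decide +kernel)
           (CovZ.leaf K2_ok TD_l13167 _)
           (CovZ.leaf K2_ok TD_l13168 _)))
         (CovZ.n1 (31104, 24768) (by decide +kernel)
          (CovZ.n2 (31200, 24864) (by decide +kernel)
           (CovZ.n2 (31200, 24768) (by decide +kernel)
            (CovZ.leaf K2_ok TD_l13169 _)
            (CovZ.leaf K2_ok TD_l13170 _))
           (CovZ.leaf K2_ok TD_l13171 _))
          (CovZ.leaf K2_ok TD_l13172 _))))))
     (CovZ.subM 5708990770823839526709023956368811464073478144 (by decide +kernel)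
      (CovZ.n1 (31872, 24960) (by decide +kernel)
       (CovZ.n2 (31872, 24576) (by decide +kernel)
        (CovZ.n2 (31680, 24768) (by decide +kernel)
         (CovZ.badM (by decide +kernel))
         (CovZ.n1 (31680, 24576) (by decide +kernel)
          (CovZ.n2 (31584, 24672) (by decide +kernel)
           (CovZ.badM (by decide +kernel))
           (CovZ.leaf K2_ok TD_l13183 _))
          (CovZ.badM (by decide +kernel))))
        (CovZ.badM (by decide +kernel)))
       (CovZ.n1 (31488, 24960) (by decide +kernel)
        (CovZ.n2 (31680, 25152) (by decide +kernel)
         (CovZ.n2 (31680, 24960) (by decide +kernel)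
          (CovZ.n2 (31584, 25056) (by decide +kernel)
           (CovZ.badM (by decide +kernel))
           (CovZ.n1 (31584, 24960) (by decide +kernel)
            (CovZ.n2 (31536, 25008) (by decide +kernel)
             (CovZ.badM (by decide +kernel))
             (CovZ.leaf K2_ok TD_l13202 _))
            (CovZ.badM (by decide +kernel))))
          (CovZ.badM (by decide +kernel)))
         (CovZ.n1 (31488, 25152) (by decide +kernel)
          (CovZ.n2 (31584, 25248) (by decide +kernel)
           (CovZ.n2 (31584, 25152) (by decide +kernel)
            (CovZ.n2 (31536, 25200) (by decide +kernel)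
             (CovZ.badM (by decide +kernel))
             (CovZ.n1 (31536, 25152) (by decide +kernel)
              (CovZ.leaf K2_ok TD_l13214 _)
              (CovZ.badM (by decide +kernel))))
            (CovZ.badM (by decide +kernel)))
           (CovZ.n1 (31488, 25248) (by decide +kernel)
            (CovZ.n2 (31536, 25296) (by decide +kernel)
             (CovZ.n2 (31536, 25248) (by decide +kernel)
              (CovZ.n2 (31512, 25272) (by decide +kernel)
               (CovZ.badM (by decide +kernel))
               (CovZ.leaf K2_ok TD_l13221 _))
              (CovZ.badM (by decide +kernel)))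
             (CovZ.n1 (31488, 25296) (by decide +kernel)
              (CovZ.n2 (31512, 25320) (by decide +kernel)
               (CovZ.leaf K2_ok TD_l13222 _)
               (CovZ.leaf K2_ok TD_l13223 _))
              (CovZ.leaf K2_ok TD_l13224 _)))
            (CovZ.n1 (31536, 25200) (by decide +kernel)
             (CovZ.leaf K2_ok TD_l13225 _)
             (CovZ.leaf K2_ok TD_l13226 _))))
          (CovZ.n1 (31584, 25056) (by decide +kernel)
           (CovZ.n2 (31488, 25056) (by decide +kernel)
            (CovZ.n2 (31536, 25104) (by decide +kernel)
             (CovZ.leaf K2_ok TD_l13227 _)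
             (CovZ.leaf K2_ok TD_l13228 _))
            (CovZ.leaf K2_ok TD_l13229 _))
           (CovZ.n1 (31584, 25152) (by decide +kernel)
            (CovZ.badM (by decide +kernel))
            (CovZ.n1 (31536, 25104) (by decide +kernel)
             (CovZ.leaf K2_ok TD_l13231 _)
             (CovZ.badM (by decide +kernel)))))))
        (CovZ.n1 (31680, 24768) (by decide +kernel)
         (CovZ.n2 (31488, 24768) (by decide +kernel)
          (CovZ.n2 (31584, 24864) (by decide +kernel)
           (CovZ.n2 (31584, 24768) (by decide +kernel)
            (CovZ.leaf K2_ok TD_l13234 _)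
            (CovZ.badM (by decide +kernel)))
           (CovZ.leaf K2_ok TD_l13236 _))
          (CovZ.leaf K2_ok TD_l13237 _))
         (CovZ.n1 (31680, 24960) (by decide +kernel)
          (CovZ.badM (by decide +kernel))
          (CovZ.n1 (31584, 24864) (by decide +kernel)
           (CovZ.n2 (31584, 24960) (by decide +kernel)
            (CovZ.badM (by decide +kernel))
            (CovZ.leaf K2_ok TD_l13243 _))
           (CovZ.badM (by decide +kernel)))))))))))
    (CovZ.topM TD_LL 8749002899132063238841146714523908700205230352922389222701110606662783159081676723984903915849195664 (by decide +kernel) (CovZ.n0 (31488, 25344) (by decide +kernel)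
    TD_u112
    TD_u113))

theorem TD_s0_9 : SqZ TD_M TD_L [0, 7, 6, 1] 18432 12288 1536 0 9 :=
  SqZ.mk (a := 18432) (b := 19968) (c := 26112) (d := 27648) (by norm_num) (by norm_num) (by norm_num) (by norm_num)
    (CovZ.topM TD_LL 0 (by decide +kernel) (CovZ.badM (by decide +kernel)))
    (CovZ.topM TD_LL 0 (by decide +kernel) (CovZ.badM (by decide +kernel)))

theorem TD_s1_9 : SqZ TD_M TD_L [0, 7, 6, 1] 18432 12288 1536 1 9 :=
  SqZ.mk (a := 19968) (b := 21504) (c := 26112) (d := 27648) (by norm_num) (by norm_num) (by norm_num) (by norm_num)
    (CovZ.topM TD_LL 1152921504741064704 (by decide +kernel) (CovZ.n2 (20736, 26880) (by decide +kernel)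
    (CovZ.badM (by decide +kernel))
    (CovZ.n1 (20736, 26112) (by decide +kernel)
     (CovZ.badM (by decide +kernel))
     (CovZ.badM (by decide +kernel)))))
    (CovZ.topM TD_LL 1152921504741064704 (by decide +kernel) (CovZ.n0 (20736, 26880) (by decide +kernel)
    (CovZ.badM (by decide +kernel))
    (CovZ.badM (by decide +kernel))))

theorem TD_s2_9 : SqZ TD_M TD_L [0, 7, 6, 1] 18432 12288 1536 2 9 :=
  SqZ.mk (a := 21504) (b := 23040) (c := 26112) (d := 27648) (by norm_num) (by norm_num) (by norm_num) (by norm_num)
    (CovZ.topM TD_LL 0 (by decide +kernel) (CovZ.badM (by decide +kernel)))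
    (CovZ.topM TD_LL 0 (by decide +kernel) (CovZ.badM (by decide +kernel)))

theorem TD_s3_9 : SqZ TD_M TD_L [0, 7, 6, 1] 18432 12288 1536 3 9 :=
  SqZ.mk (a := 23040) (b := 24576) (c := 26112) (d := 27648) (by norm_num) (by norm_num) (by norm_num) (by norm_num)
    (CovZ.topM TD_LL 9223372036854775808 (by decide +kernel) (CovZ.n2 (23808, 26880) (by decide +kernel)
    (CovZ.badM (by decide +kernel))
    (CovZ.n1 (23808, 26112) (by decide +kernel)
     (CovZ.badM (by decide +kernel))
     (CovZ.badM (by decide +kernel)))))
    (CovZ.topM TD_LL 0 (by decide +kernel) (CovZ.badM (by decide +kernel)))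

theorem TD_s4_9 : SqZ TD_M TD_L [0, 7, 6, 1] 18432 12288 1536 4 9 :=
  SqZ.mk (a := 24576) (b := 26112) (c := 26112) (d := 27648) (by norm_num) (by norm_num) (by norm_num) (by norm_num)
    (CovZ.topM TD_LL 0 (by decide +kernel) (CovZ.badM (by decide +kernel)))
    (CovZ.topM TD_LL 4398046511104 (by decide +kernel) (CovZ.n0 (25344, 26880) (by decide +kernel)
    (CovZ.badM (by decide +kernel))
    (CovZ.n1 (25344, 27648) (by decide +kernel)
     (CovZ.n2 (25728, 27264) (by decide +kernel)
      (CovZ.badM (by decide +kernel))
      (CovZ.n1 (25728, 27648) (by decide +kernel)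
       (CovZ.badM (by decide +kernel))
       (CovZ.badM (by decide +kernel))))
     (CovZ.badM (by decide +kernel)))))

end Pool.Agent.TET
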