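import Pool.Agent.Helper38_TET.TD_M
import Pool.Agent.Helper38_TET.TD_L
import Pool.Agent.Helper38_TET.TD_48
import Pool.Agent.Helper38_TET.TD_61
import Pool.Agent.Helper38_TET.TD_73
import Pool.Agent.Helper38_TET.TD_74
import Pool.Agent.Helper38_TET.TD_75
import Pool.Agent.Helper38_TET.TD_88
import Pool.Agent.Helper38_TET.TD_89
import Pool.Agent.Helper38_TET.TD_90
import Pool.Agent.Helper38_TET.TD_113
import Pool.Agent.Helper38_TET.TD_114
import Pool.Agent.Helper38_TET.TD_118
import Pool.Agent.Helper38_TET.TD_120
import Pool.Agent.Helper38_TET.TD_123
import Pool.Agent.Helper38_TET.TD_124
import Pool.Agent.Helper38_TET.TD_125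
import Pool.Agent.Helper38_TET.TD_126
import Pool.Agent.Helper38_TET.TD_U6

/-!
# MP_c7c9bf_co: certificates, family TD
-/

set_option autoImplicit false
set_option maxRecDepth 100000

namespace Pool.Agent.TET

theorem TD_u104 : CovZ TD_M (toL (selN TD_LN 8749002899132063238841146714523908700205230352922389239805779451676835741131864932109337736521985168)) [0, 7, 6, 1] (30720, 26112) (30336, 25728) (30720, 25344) :=
    (CovZ.n2 (30720, 25728) (by decide +kernel)
        (CovZ.subM 8749002899132047697490008908691341344509975764771136077715103951265307629700011509683063543985873024 (by decide +kernel)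
         (CovZ.n2 (30528, 25536) (by decide +kernel)
          TD_u102
          TD_u103))
        (CovZ.subM 15541351137806053423238792552629349165326847577231594605501608730280999482416829562896 (by decide +kernel)
         (CovZ.n1 (30528, 25920) (by decide +kernel)
          (CovZ.n2 (30720, 25920) (by decide +kernel)
           (CovZ.n2 (30624, 25824) (by decide +kernel)
            (CovZ.n2 (30624, 25920) (by decide +kernel)
             (CovZ.n2 (30672, 25872) (by decide +kernel)
              (CovZ.leaf K2_ok TD_l18734 _)
              (CovZ.leaf K2_ok TD_l10951 _))
             (CovZ.n1 (30576, 25872) (by decide +kernel)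
              (CovZ.n2 (30576, 25920) (by decide +kernel)
               (CovZ.leaf K2_ok TD_l18735 _)
               (CovZ.leaf K2_ok TD_l18736 _))
              (CovZ.n1 (30624, 25872) (by decide +kernel)
               (CovZ.n2 (30600, 25848) (by decide +kernel)
                (CovZ.leaf K2_ok TD_l18737 _)
                (CovZ.leaf K2_ok TD_l18738 _))
               (CovZ.leaf K2_ok TD_l18739 _))))
            (CovZ.n1 (30720, 25824) (by decide +kernel)
             (CovZ.n2 (30672, 25776) (by decide +kernel)
              (CovZ.n2 (30672, 25824) (by decide +kernel)
               (CovZ.leaf K2_ok TD_l18740 _)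
               (CovZ.n1 (30648, 25800) (by decide +kernel)
                (CovZ.leaf K2_ok TD_l18741 _)
                (CovZ.leaf K2_ok TD_l18742 _)))
              (CovZ.n1 (30720, 25776) (by decide +kernel)
               (CovZ.n2 (30696, 25752) (by decide +kernel)
                (CovZ.leaf K2_ok TD_l18743 _)
                (CovZ.leaf K2_ok TD_l18744 _))
               (CovZ.leaf K2_ok TD_l18745 _)))
             (CovZ.n1 (30672, 25872) (by decide +kernel)
              (CovZ.n2 (30720, 25872) (by decide +kernel)
               (CovZ.leaf K2_ok TD_l18746 _)
               (CovZ.leaf K2_ok TD_l10952 _))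
              (CovZ.n1 (30672, 25824) (by decide +kernel)
               (CovZ.leaf K2_ok TD_l18747 _)
               (CovZ.leaf K2_ok TD_l18748 _)))))
           (CovZ.n1 (30624, 26016) (by decide +kernel)
            (CovZ.n2 (30720, 26016) (by decide +kernel)
             (CovZ.n2 (30672, 25968) (by decide +kernel)
              (CovZ.leaf K2_ok TD_l10953 _)
              (CovZ.n1 (30720, 25968) (by decide +kernel)
               (CovZ.leaf K2_ok TD_l10954 _)
               (CovZ.leaf K2_ok TD_l10955 _)))
             (CovZ.n1 (30672, 26064) (by decide +kernel)
              (CovZ.leaf K2_ok TD_l10956 _)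
              (CovZ.n1 (30672, 26016) (by decide +kernel)
               (CovZ.leaf K2_ok TD_l10957 _)
               (CovZ.leaf K2_ok TD_l10958 _))))
            (CovZ.n1 (30624, 25920) (by decide +kernel)
             (CovZ.n2 (30576, 25968) (by decide +kernel)
              (CovZ.n2 (30624, 25968) (by decide +kernel)
               (CovZ.leaf K2_ok TD_l10959 _)
               (CovZ.leaf K2_ok TD_l10960 _))
              (CovZ.n1 (30576, 25920) (by decide +kernel)
               (CovZ.leaf K2_ok TD_l10961 _)
               (CovZ.leaf K2_ok TD_l10962 _)))
             (CovZ.n1 (30672, 25968) (by decide +kernel)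
              (CovZ.n2 (30672, 25920) (by decide +kernel)
               (CovZ.leaf K2_ok TD_l10963 _)
               (CovZ.leaf K2_ok TD_l10964 _))
              (CovZ.leaf K2_ok TD_l10965 _)))))
          (CovZ.n1 (30528, 25728) (by decide +kernel)
           (CovZ.n2 (30432, 25824) (by decide +kernel)
            (CovZ.n2 (30528, 25824) (by decide +kernel)
             (CovZ.n2 (30480, 25776) (by decide +kernel)
              (CovZ.n2 (30480, 25824) (by decide +kernel)
               (CovZ.leaf K2_ok TD_l18749 _)
               (CovZ.n1 (30456, 25800) (by decide +kernel)
                (CovZ.leaf K2_ok TD_l18750 _)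
                (CovZ.leaf K2_ok TD_l18751 _)))
              (CovZ.n1 (30528, 25776) (by decide +kernel)
               (CovZ.n2 (30504, 25752) (by decide +kernel)
                (CovZ.leaf K2_ok TD_l18752 _)
                (CovZ.n1 (30528, 25752) (by decide +kernel)
                 (CovZ.leaf K2_ok TD_l18753 _)
                 (CovZ.leaf K2_ok TD_l18754 _)))
               (CovZ.n1 (30504, 25800) (by decide +kernel)
                (CovZ.leaf K2_ok TD_l18755 _)
                (CovZ.leaf K2_ok TD_l18756 _))))
             (CovZ.n1 (30480, 25872) (by decide +kernel)
              (CovZ.n2 (30528, 25872) (by decide +kernel)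
               (CovZ.n2 (30504, 25848) (by decide +kernel)
                (CovZ.leaf K2_ok TD_l18757 _)
                (CovZ.leaf K2_ok TD_l18758 _))
               (CovZ.leaf K2_ok TD_l18759 _))
              (CovZ.n1 (30480, 25824) (by decide +kernel)
               (CovZ.n2 (30456, 25848) (by decide +kernel)
                (CovZ.leaf K2_ok TD_l18760 _)
                (CovZ.leaf K2_ok TD_l18761 _))
               (CovZ.n1 (30504, 25848) (by decide +kernel)
                (CovZ.leaf K2_ok TD_l18762 _)
                (CovZ.leaf K2_ok TD_l18763 _)))))
            (CovZ.n1 (30432, 25728) (by decide +kernel)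
             (CovZ.n2 (30384, 25776) (by decide +kernel)
              (CovZ.n2 (30432, 25776) (by decide +kernel)
               (CovZ.badM (by decide +kernel))
               (CovZ.n1 (30408, 25800) (by decide +kernel)
                (CovZ.n2 (30432, 25800) (by decide +kernel)
                 (CovZ.leaf K2_ok TD_l18764 _)
                 (CovZ.leaf K2_ok TD_l18765 _))
                (CovZ.badM (by decide +kernel))))
              (CovZ.badM (by decide +kernel)))
             (CovZ.n1 (30480, 25776) (by decide +kernel)
              (CovZ.n2 (30480, 25728) (by decide +kernel)
               (CovZ.n2 (30456, 25752) (by decide +kernel)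
                (CovZ.n2 (30480, 25752) (by decide +kernel)
                 (CovZ.leaf K2_ok TD_l18766 _)
                 (CovZ.leaf K2_ok TD_l18767 _))
                (CovZ.n1 (30456, 25728) (by decide +kernel)
                 (CovZ.n2 (30444, 25740) (by decide +kernel)
                  (CovZ.leaf K2_ok TD_l18768 _)
                  (CovZ.badM (by decide +kernel)))
                 (CovZ.leaf K2_ok TD_l18769 _)))
               (CovZ.n1 (30504, 25752) (by decide +kernel)
                (CovZ.n2 (30504, 25728) (by decide +kernel)
                 (CovZ.leaf K2_ok TD_l18770 _)
                 (CovZ.leaf K2_ok TD_l18771 _))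
                (CovZ.leaf K2_ok TD_l18772 _)))
              (CovZ.n1 (30432, 25776) (by decide +kernel)
               (CovZ.n2 (30456, 25800) (by decide +kernel)
                (CovZ.leaf K2_ok TD_l18773 _)
                (CovZ.leaf K2_ok TD_l18774 _))
               (CovZ.n1 (30456, 25752) (by decide +kernel)
                (CovZ.n2 (30432, 25752) (by decide +kernel)
                 (CovZ.leaf K2_ok TD_l18775 _)
                 (CovZ.leaf K2_ok TD_l18776 _))
                (CovZ.leaf K2_ok TD_l18777 _))))))
           (CovZ.n1 (30624, 25824) (by decide +kernel)
            (CovZ.n2 (30624, 25728) (by decide +kernel)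
             (CovZ.n2 (30576, 25776) (by decide +kernel)
              (CovZ.n2 (30624, 25776) (by decide +kernel)
               (CovZ.n2 (30600, 25752) (by decide +kernel)
                (CovZ.leaf K2_ok TD_l18778 _)
                (CovZ.leaf K2_ok TD_l18779 _))
               (CovZ.n1 (30600, 25800) (by decide +kernel)
                (CovZ.leaf K2_ok TD_l18780 _)
                (CovZ.leaf K2_ok TD_l18781 _)))
              (CovZ.n1 (30576, 25728) (by decide +kernel)
               (CovZ.n2 (30552, 25752) (by decide +kernel)
                (CovZ.n2 (30576, 25752) (by decide +kernel)
                 (CovZ.leaf K2_ok TD_l18782 _)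
                 (CovZ.leaf K2_ok TD_l18783 _))
                (CovZ.n1 (30552, 25728) (by decide +kernel)
                 (CovZ.leaf K2_ok TD_l18784 _)
                 (CovZ.leaf K2_ok TD_l18785 _)))
               (CovZ.n1 (30600, 25752) (by decide +kernel)
                (CovZ.leaf K2_ok TD_l18786 _)
                (CovZ.leaf K2_ok TD_l18787 _))))
             (CovZ.n1 (30672, 25776) (by decide +kernel)
              (CovZ.n2 (30672, 25728) (by decide +kernel)
               (CovZ.n2 (30648, 25752) (by decide +kernel)
                (CovZ.leaf K2_ok TD_l18788 _)
                (CovZ.leaf K2_ok TD_l18789 _))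
               (CovZ.n1 (30696, 25752) (by decide +kernel)
                (CovZ.leaf K2_ok TD_l18790 _)
                (CovZ.leaf K2_ok TD_l18791 _)))
              (CovZ.n1 (30624, 25776) (by decide +kernel)
               (CovZ.leaf K2_ok TD_l18792 _)
               (CovZ.leaf K2_ok TD_l18793 _))))
            (CovZ.n1 (30528, 25824) (by decide +kernel)
             (CovZ.n2 (30576, 25872) (by decide +kernel)
              (CovZ.n2 (30576, 25824) (by decide +kernel)
               (CovZ.n2 (30552, 25848) (by decide +kernel)
                (CovZ.leaf K2_ok TD_l18794 _)
                (CovZ.leaf K2_ok TD_l18795 _))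
               (CovZ.leaf K2_ok TD_l18796 _))
              (CovZ.n1 (30528, 25872) (by decide +kernel)
               (CovZ.leaf K2_ok TD_l18797 _)
               (CovZ.leaf K2_ok TD_l18798 _)))
             (CovZ.n1 (30576, 25776) (by decide +kernel)
              (CovZ.n2 (30528, 25776) (by decide +kernel)
               (CovZ.n2 (30552, 25800) (by decide +kernel)
                (CovZ.leaf K2_ok TD_l18799 _)
                (CovZ.leaf K2_ok TD_l18800 _))
               (CovZ.leaf K2_ok TD_l18801 _))
              (CovZ.n1 (30576, 25824) (by decide +kernel)
               (CovZ.leaf K2_ok TD_l18802 _)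
               (CovZ.n1 (30552, 25800) (by decide +kernel)
                (CovZ.leaf K2_ok TD_l18803 _)
                (CovZ.leaf K2_ok TD_l18804 _))))))))))

theorem TD_u105 : CovZ TD_M (toL (selN TD_LN 8749002899132063238841146714523908700205230352922389239805779451676835741131864932109337736521985168)) [0, 7, 6, 1] (30336, 25728) (29952, 25344) (30720, 25344) :=
    (CovZ.n1 (30336, 25344) (by decide +kernel)
        (CovZ.n2 (30144, 25536) (by decide +kernel)
         (CovZ.subM 374144419156711147060145793055447023810060732080128 (by decide +kernel)
          (CovZ.n2 (30336, 25536) (by decide +kernel)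
           (CovZ.n2 (30240, 25440) (by decide +kernel)
            (CovZ.n2 (30240, 25536) (by decide +kernel)
             (CovZ.n2 (30288, 25488) (by decide +kernel)
              (CovZ.n2 (30240, 25488) (by decide +kernel)
               (CovZ.badM (by decide +kernel))
               (CovZ.leaf K2_ok TD_l10966 _))
              (CovZ.badM (by decide +kernel)))
             (CovZ.n1 (30192, 25488) (by decide +kernel)
              (CovZ.badM (by decide +kernel))
              (CovZ.n1 (30240, 25488) (by decide +kernel)
               (CovZ.leaf K2_ok TD_l10971 _)
               (CovZ.badM (by decide +kernel)))))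
            (CovZ.n1 (30336, 25440) (by decide +kernel)
             (CovZ.n2 (30288, 25392) (by decide +kernel)
              (CovZ.leaf K2_ok TD_l10973 _)
              (CovZ.n1 (30336, 25392) (by decide +kernel)
               (CovZ.leaf K2_ok TD_l10974 _)
               (CovZ.leaf K2_ok TD_l10975 _)))
             (CovZ.n1 (30288, 25488) (by decide +kernel)
              (CovZ.n2 (30336, 25488) (by decide +kernel)
               (CovZ.n2 (30312, 25464) (by decide +kernel)
                (CovZ.leaf K2_ok TD_l10976 _)
                (CovZ.leaf K2_ok TD_l10977 _))
               (CovZ.badM (by decide +kernel)))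
              (CovZ.n1 (30288, 25440) (by decide +kernel)
               (CovZ.leaf K2_ok TD_l10980 _)
               (CovZ.leaf K2_ok TD_l10981 _)))))
           (CovZ.badM (by decide +kernel))))
         (CovZ.n1 (30144, 25344) (by decide +kernel)
          (CovZ.n2 (30048, 25440) (by decide +kernel)
           (CovZ.subM 374144419156711147060145793055447023810060732080128 (by decide +kernel)
            (CovZ.n2 (30144, 25440) (by decide +kernel)
             (CovZ.n2 (30096, 25392) (by decide +kernel)
              (CovZ.leaf K2_ok TD_l10982 _)
              (CovZ.n1 (30144, 25392) (by decide +kernel)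
               (CovZ.leaf K2_ok TD_l10983 _)
               (CovZ.leaf K2_ok TD_l10984 _)))
             (CovZ.n1 (30096, 25488) (by decide +kernel)
              (CovZ.n2 (30144, 25488) (by decide +kernel)
               (CovZ.leaf K2_ok TD_l10985 _)
               (CovZ.badM (by decide +kernel)))
              (CovZ.leaf K2_ok TD_l10988 _))))
           (CovZ.n1 (30048, 25344) (by decide +kernel)
            (CovZ.n2 (30000, 25392) (by decide +kernel)
             (CovZ.leaf K2_ok TD_l10989 _)
             (CovZ.leaf K2_ok TD_l10990 _))
            (CovZ.n1 (30096, 25392) (by decide +kernel)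
             (CovZ.leaf K2_ok TD_l10991 _)
             (CovZ.leaf K2_ok TD_l10992 _))))
          (CovZ.subM 374144419156711147060145793055447023810060732080128 (by decide +kernel)
           (CovZ.n1 (30240, 25440) (by decide +kernel)
            (CovZ.n2 (30240, 25344) (by decide +kernel)
             (CovZ.n2 (30192, 25392) (by decide +kernel)
              (CovZ.n2 (30240, 25392) (by decide +kernel)
               (CovZ.leaf K2_ok TD_l10993 _)
               (CovZ.leaf K2_ok TD_l10994 _))
              (CovZ.leaf K2_ok TD_l10995 _))
             (CovZ.n1 (30288, 25392) (by decide +kernel)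
              (CovZ.leaf K2_ok TD_l10996 _)
              (CovZ.leaf K2_ok TD_l10997 _)))
            (CovZ.n1 (30144, 25440) (by decide +kernel)
             (CovZ.n2 (30192, 25488) (by decide +kernel)
              (CovZ.n2 (30192, 25440) (by decide +kernel)
               (CovZ.leaf K2_ok TD_l10998 _)
               (CovZ.n1 (30216, 25464) (by decide +kernel)
                (CovZ.leaf K2_ok TD_l10999 _)
                (CovZ.leaf K2_ok TD_l11000 _)))
              (CovZ.n1 (30144, 25488) (by decide +kernel)
               (CovZ.badM (by decide +kernel))
               (CovZ.leaf K2_ok TD_l11003 _)))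
             (CovZ.n1 (30192, 25392) (by decide +kernel)
              (CovZ.leaf K2_ok TD_l11004 _)
              (CovZ.leaf K2_ok TD_l11005 _)))))))
        (CovZ.subM 8749002899132047697490008908691341344509975764771136077715103951265307629700011509683063543985873024 (by decide +kernel)
         (CovZ.n1 (30528, 25536) (by decide +kernel)
          (CovZ.n2 (30528, 25344) (by decide +kernel)
           (CovZ.n2 (30432, 25440) (by decide +kernel)
            (CovZ.n2 (30528, 25440) (by decide +kernel)
             (CovZ.n2 (30480, 25392) (by decide +kernel)
              (CovZ.leaf K2_ok TD_l11006 _)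
              (CovZ.n1 (30528, 25392) (by decide +kernel)
               (CovZ.leaf K2_ok TD_l11007 _)
               (CovZ.leaf K2_ok TD_l11008 _)))
             (CovZ.subM 374144419156711147060143317175368453049510933823488 (by decide +kernel)
              (CovZ.n1 (30480, 25488) (by decide +kernel)
               (CovZ.n2 (30528, 25488) (by decide +kernel)
                (CovZ.n2 (30504, 25464) (by decide +kernel)
                 (CovZ.badM (by decide +kernel))
                 (CovZ.leaf K2_ok TD_l17970 _))
                (CovZ.badM (by decide +kernel)))
               (CovZ.n1 (30480, 25440) (by decide +kernel)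
                (CovZ.leaf K2_ok TD_l11009 _)
                (CovZ.n1 (30504, 25464) (by decide +kernel)
                 (CovZ.leaf K2_ok TD_l11010 _)
                 (CovZ.leaf K2_ok TD_l11011 _))))))
            (CovZ.n1 (30432, 25344) (by decide +kernel)
             (CovZ.n2 (30384, 25392) (by decide +kernel)
              (CovZ.n2 (30432, 25392) (by decide +kernel)
               (CovZ.leaf K2_ok TD_l11012 _)
               (CovZ.leaf K2_ok TD_l11013 _))
              (CovZ.leaf K2_ok TD_l11014 _))
             (CovZ.n1 (30480, 25392) (by decide +kernel)
              (CovZ.leaf K2_ok TD_l11015 _)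
              (CovZ.leaf K2_ok TD_l11016 _))))
           (CovZ.n1 (30624, 25440) (by decide +kernel)
            (CovZ.n2 (30624, 25344) (by decide +kernel)
             (CovZ.n2 (30576, 25392) (by decide +kernel)
              (CovZ.n2 (30624, 25392) (by decide +kernel)
               (CovZ.leaf K2_ok TD_l11017 _)
               (CovZ.leaf K2_ok TD_l11018 _))
              (CovZ.leaf K2_ok TD_l11019 _))
             (CovZ.n1 (30672, 25392) (by decide +kernel)
              (CovZ.leaf K2_ok TD_l11020 _)
              (CovZ.leaf K2_ok TD_l11021 _)))
            (CovZ.n1 (30528, 25440) (by decide +kernel)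
             (CovZ.subM 374144419156711147060143317175368453049510933823488 (by decide +kernel)
              (CovZ.n2 (30576, 25488) (by decide +kernel)
               (CovZ.n2 (30576, 25440) (by decide +kernel)
                (CovZ.n2 (30552, 25464) (by decide +kernel)
                 (CovZ.leaf K2_ok TD_l17971 _)
                 (CovZ.leaf K2_ok TD_l17972 _))
                (CovZ.n1 (30600, 25464) (by decide +kernel)
                 (CovZ.leaf K2_ok TD_l17973 _)
                 (CovZ.leaf K2_ok TD_l17974 _)))
               (CovZ.n1 (30528, 25488) (by decide +kernel)
                (CovZ.badM (by decide +kernel))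
                (CovZ.leaf K2_ok TD_l17975 _))))
             (CovZ.n1 (30576, 25392) (by decide +kernel)
              (CovZ.n2 (30528, 25392) (by decide +kernel)
               (CovZ.leaf K2_ok TD_l11022 _)
               (CovZ.leaf K2_ok TD_l11023 _))
              (CovZ.n1 (30576, 25440) (by decide +kernel)
               (CovZ.leaf K2_ok TD_l11024 _)
               (CovZ.leaf K2_ok TD_l11025 _))))))
          (CovZ.n1 (30336, 25536) (by decide +kernel)
           (CovZ.badM (by decide +kernel))
           (CovZ.n1 (30432, 25440) (by decide +kernel)
            (CovZ.n2 (30336, 25440) (by decide +kernel)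
             (CovZ.subM 374144419156711147060143317175368453049510933823488 (by decide +kernel)
              (CovZ.n2 (30384, 25488) (by decide +kernel)
               (CovZ.n2 (30384, 25440) (by decide +kernel)
                (CovZ.leaf K2_ok TD_l11026 _)
                (CovZ.n1 (30408, 25464) (by decide +kernel)
                 (CovZ.leaf K2_ok TD_l11027 _)
                 (CovZ.leaf K2_ok TD_l11028 _)))
               (CovZ.n1 (30336, 25488) (by decide +kernel)
                (CovZ.badM (by decide +kernel))
                (CovZ.leaf K2_ok TD_l11031 _))))
             (CovZ.n1 (30384, 25392) (by decide +kernel)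
              (CovZ.leaf K2_ok TD_l11032 _)
              (CovZ.leaf K2_ok TD_l11033 _)))
            (CovZ.subM 374144419156711147060143317175368453049510933823488 (by decide +kernel)
             (CovZ.n1 (30432, 25536) (by decide +kernel)
              (CovZ.n2 (30480, 25488) (by decide +kernel)
               (CovZ.n2 (30432, 25488) (by decide +kernel)
                (CovZ.badM (by decide +kernel))
                (CovZ.leaf K2_ok TD_l11034 _))
               (CovZ.badM (by decide +kernel)))
              (CovZ.n1 (30384, 25488) (by decide +kernel)
               (CovZ.badM (by decide +kernel))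
               (CovZ.n1 (30432, 25488) (by decide +kernel)
                (CovZ.n2 (30408, 25464) (by decide +kernel)
                 (CovZ.leaf K2_ok TD_l17976 _)
                 (CovZ.leaf K2_ok TD_l11036 _))
                (CovZ.badM (by decide +kernel)))))))))))

theorem TD_u106 : CovZ TD_M (toL (selN TD_LN 136703170306910958406975781536564182791055979796842087225610074228511727280417197658652218033794193)) [0, 7, 6, 1] (29184, 26112) (29184, 25344) (29952, 25344) :=
    (CovZ.subM 13803492693581127575243678979673845430397215358289130524277713278102528 (by decide +kernel)
      (CovZ.n2 (29568, 25728) (by decide +kernel)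
       (CovZ.n2 (29568, 25344) (by decide +kernel)
        (CovZ.n2 (29376, 25536) (by decide +kernel)
         (CovZ.n2 (29568, 25536) (by decide +kernel)
          (CovZ.n2 (29472, 25440) (by decide +kernel)
           (CovZ.subM 374167255119794442418242725630958215732242856020992 (by decide +kernel)
            (CovZ.n2 (29472, 25536) (by decide +kernel)
             (CovZ.n2 (29520, 25488) (by decide +kernel)
              (CovZ.n2 (29472, 25488) (by decide +kernel)
               (CovZ.n2 (29496, 25512) (by decide +kernel)
                (CovZ.leaf K2_ok TD_l11071 _)
                (CovZ.leaf K2_ok TD_l11072 _))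
               (CovZ.leaf K2_ok TD_l11073 _))
              (CovZ.n1 (29520, 25536) (by decide +kernel)
               (CovZ.leaf K2_ok TD_l11074 _)
               (CovZ.n1 (29496, 25512) (by decide +kernel)
                (CovZ.leaf K2_ok TD_l11075 _)
                (CovZ.leaf K2_ok TD_l11076 _))))
             (CovZ.n1 (29424, 25488) (by decide +kernel)
              (CovZ.n2 (29424, 25536) (by decide +kernel)
               (CovZ.leaf K2_ok TD_l11077 _)
               (CovZ.leaf K2_ok TD_l11078 _))
              (CovZ.n1 (29472, 25488) (by decide +kernel)
               (CovZ.leaf K2_ok TD_l11079 _)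
               (CovZ.leaf K2_ok TD_l11080 _)))))
           (CovZ.n1 (29568, 25440) (by decide +kernel)
            (CovZ.n2 (29520, 25392) (by decide +kernel)
             (CovZ.leaf K2_ok TD_l11081 _)
             (CovZ.leaf K2_ok TD_l11082 _))
            (CovZ.n1 (29520, 25488) (by decide +kernel)
             (CovZ.n2 (29568, 25488) (by decide +kernel)
              (CovZ.leaf K2_ok TD_l11083 _)
              (CovZ.leaf K2_ok TD_l11084 _))
             (CovZ.leaf K2_ok TD_l11085 _))))
          (CovZ.badM (by decide +kernel)))
         (CovZ.n1 (29376, 25344) (by decide +kernel)
          (CovZ.n2 (29280, 25440) (by decide +kernel)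
           (CovZ.n2 (29376, 25440) (by decide +kernel)
            (CovZ.n2 (29328, 25392) (by decide +kernel)
             (CovZ.leaf K2_ok TD_l11086 _)
             (CovZ.leaf K2_ok TD_l11087 _))
            (CovZ.n1 (29328, 25488) (by decide +kernel)
             (CovZ.n2 (29376, 25488) (by decide +kernel)
              (CovZ.leaf K2_ok TD_l11088 _)
              (CovZ.leaf K2_ok TD_l11089 _))
             (CovZ.leaf K2_ok TD_l11090 _)))
           (CovZ.n1 (29280, 25344) (by decide +kernel)
            (CovZ.leaf K2_ok TD_l11091 _)
            (CovZ.n1 (29328, 25392) (by decide +kernel)
             (CovZ.leaf K2_ok TD_l11092 _)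
             (CovZ.leaf K2_ok TD_l11093 _))))
          (CovZ.n1 (29472, 25440) (by decide +kernel)
           (CovZ.n2 (29472, 25344) (by decide +kernel)
            (CovZ.leaf K2_ok TD_l11094 _)
            (CovZ.n1 (29520, 25392) (by decide +kernel)
             (CovZ.leaf K2_ok TD_l11095 _)
             (CovZ.leaf K2_ok TD_l11096 _)))
           (CovZ.n1 (29376, 25440) (by decide +kernel)
            (CovZ.subM 374167255119794442418242725630958215732242856020992 (by decide +kernel)
             (CovZ.n2 (29424, 25488) (by decide +kernel)
              (CovZ.leaf K2_ok TD_l11097 _)
              (CovZ.n1 (29376, 25488) (by decide +kernel)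
               (CovZ.n2 (29400, 25512) (by decide +kernel)
                (CovZ.leaf K2_ok TD_l11098 _)
                (CovZ.leaf K2_ok TD_l11099 _))
               (CovZ.leaf K2_ok TD_l11100 _))))
            (CovZ.leaf K2_ok TD_l11101 _)))))
        (CovZ.n1 (29760, 25536) (by decide +kernel)
         (CovZ.n2 (29760, 25344) (by decide +kernel)
          (CovZ.n2 (29664, 25440) (by decide +kernel)
           (CovZ.n2 (29760, 25440) (by decide +kernel)
            (CovZ.n2 (29712, 25392) (by decide +kernel)
             (CovZ.leaf K2_ok TD_l11102 _)
             (CovZ.n1 (29760, 25392) (by decide +kernel)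
              (CovZ.leaf K2_ok TD_l11103 _)
              (CovZ.leaf K2_ok TD_l11104 _)))
            (CovZ.n1 (29712, 25488) (by decide +kernel)
             (CovZ.n2 (29760, 25488) (by decide +kernel)
              (CovZ.leaf K2_ok TD_l11105 _)
              (CovZ.leaf K2_ok TD_l11106 _))
             (CovZ.leaf K2_ok TD_l11107 _)))
           (CovZ.n1 (29664, 25344) (by decide +kernel)
            (CovZ.n2 (29616, 25392) (by decide +kernel)
             (CovZ.leaf K2_ok TD_l11108 _)
             (CovZ.leaf K2_ok TD_l11109 _))
            (CovZ.n1 (29712, 25392) (by decide +kernel)
             (CovZ.leaf K2_ok TD_l11110 _)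
             (CovZ.leaf K2_ok TD_l11111 _))))
          (CovZ.n1 (29856, 25440) (by decide +kernel)
           (CovZ.n2 (29856, 25344) (by decide +kernel)
            (CovZ.n2 (29808, 25392) (by decide +kernel)
             (CovZ.leaf K2_ok TD_l11112 _)
             (CovZ.leaf K2_ok TD_l11113 _))
            (CovZ.n1 (29904, 25392) (by decide +kernel)
             (CovZ.leaf K2_ok TD_l11114 _)
             (CovZ.leaf K2_ok TD_l11115 _)))
           (CovZ.n1 (29760, 25440) (by decide +kernel)
            (CovZ.n2 (29808, 25488) (by decide +kernel)
             (CovZ.leaf K2_ok TD_l11116 _)
             (CovZ.leaf K2_ok TD_l11117 _))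
            (CovZ.leaf K2_ok TD_l11118 _))))
         (CovZ.n1 (29568, 25536) (by decide +kernel)
          (CovZ.badM (by decide +kernel))
          (CovZ.n1 (29664, 25440) (by decide +kernel)
           (CovZ.n2 (29568, 25440) (by decide +kernel)
            (CovZ.subM 374167255119794442418242725630958215732242856020992 (by decide +kernel)
             (CovZ.n2 (29616, 25488) (by decide +kernel)
              (CovZ.leaf K2_ok TD_l11120 _)
              (CovZ.n1 (29568, 25488) (by decide +kernel)
               (CovZ.n2 (29592, 25512) (by decide +kernel)
                (CovZ.leaf K2_ok TD_l11121 _)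
                (CovZ.leaf K2_ok TD_l11122 _))
               (CovZ.leaf K2_ok TD_l11123 _))))
            (CovZ.leaf K2_ok TD_l11124 _))
           (CovZ.subM 374167255119794442418242725630958215732242856020992 (by decide +kernel)
            (CovZ.n1 (29664, 25536) (by decide +kernel)
             (CovZ.n2 (29712, 25488) (by decide +kernel)
              (CovZ.n2 (29664, 25488) (by decide +kernel)
               (CovZ.n2 (29688, 25512) (by decide +kernel)
                (CovZ.leaf K2_ok TD_l11125 _)
                (CovZ.leaf K2_ok TD_l11126 _))
               (CovZ.leaf K2_ok TD_l11127 _))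
              (CovZ.n1 (29712, 25536) (by decide +kernel)
               (CovZ.leaf K2_ok TD_l11128 _)
               (CovZ.n1 (29688, 25512) (by decide +kernel)
                (CovZ.leaf K2_ok TD_l11129 _)
                (CovZ.leaf K2_ok TD_l11130 _))))
             (CovZ.n1 (29616, 25488) (by decide +kernel)
              (CovZ.n2 (29616, 25536) (by decide +kernel)
               (CovZ.leaf K2_ok TD_l11131 _)
               (CovZ.n1 (29592, 25512) (by decide +kernel)
                (CovZ.leaf K2_ok TD_l11132 _)
                (CovZ.leaf K2_ok TD_l11133 _)))
              (CovZ.n1 (29664, 25488) (by decide +kernel)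
               (CovZ.leaf K2_ok TD_l11134 _)
               (CovZ.n1 (29640, 25512) (by decide +kernel)
                (CovZ.leaf K2_ok TD_l11135 _)
                (CovZ.leaf K2_ok TD_l11136 _))))))))))
       (CovZ.n1 (29184, 25728) (by decide +kernel)
        (CovZ.badM (by decide +kernel))
        (CovZ.n1 (29376, 25536) (by decide +kernel)
         (CovZ.n2 (29184, 25536) (by decide +kernel)
          (CovZ.subM 141012366262272 (by decide +kernel)
           (CovZ.n2 (29280, 25632) (by decide +kernel)
            (CovZ.n2 (29280, 25536) (by decide +kernel)
             (CovZ.n2 (29232, 25584) (by decide +kernel)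
              (CovZ.badM (by decide +kernel))
              (CovZ.n1 (29232, 25536) (by decide +kernel)
               (CovZ.n2 (29208, 25560) (by decide +kernel)
                (CovZ.badM (by decide +kernel))
                (CovZ.leaf K2_ok TD_l11139 _))
               (CovZ.badM (by decide +kernel))))
             (CovZ.badM (by decide +kernel)))
            (CovZ.n1 (29184, 25632) (by decide +kernel)
             (CovZ.badM (by decide +kernel))
             (CovZ.n1 (29232, 25584) (by decide +kernel)
              (CovZ.n2 (29184, 25584) (by decide +kernel)
               (CovZ.badM (by decide +kernel))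
               (CovZ.leaf K2_ok TD_l11144 _))
              (CovZ.badM (by decide +kernel))))))
          (CovZ.n1 (29280, 25440) (by decide +kernel)
           (CovZ.n2 (29184, 25440) (by decide +kernel)
            (CovZ.n2 (29232, 25488) (by decide +kernel)
             (CovZ.leaf K2_ok TD_l11145 _)
             (CovZ.n1 (29184, 25488) (by decide +kernel)
              (CovZ.n2 (29208, 25512) (by decide +kernel)
               (CovZ.leaf K2_ok TD_l11146 _)
               (CovZ.leaf K2_ok TD_l11147 _))
              (CovZ.leaf K2_ok TD_l11148 _)))
            (CovZ.leaf K2_ok TD_l11149 _))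
           (CovZ.n1 (29280, 25536) (by decide +kernel)
            (CovZ.subM 374167255119794525494992462188200272220184123542528 (by decide +kernel)
             (CovZ.n2 (29328, 25488) (by decide +kernel)
              (CovZ.n2 (29280, 25488) (by decide +kernel)
               (CovZ.leaf K2_ok TD_l11150 _)
               (CovZ.leaf K2_ok TD_l11151 _))
              (CovZ.n1 (29328, 25536) (by decide +kernel)
               (CovZ.leaf K2_ok TD_l11152 _)
               (CovZ.leaf K2_ok TD_l11153 _))))
            (CovZ.n1 (29232, 25488) (by decide +kernel)
             (CovZ.n2 (29232, 25536) (by decide +kernel)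
              (CovZ.leaf K2_ok TD_l11154 _)
              (CovZ.n1 (29208, 25512) (by decide +kernel)
               (CovZ.leaf K2_ok TD_l11155 _)
               (CovZ.leaf K2_ok TD_l11156 _)))
             (CovZ.n1 (29280, 25488) (by decide +kernel)
              (CovZ.leaf K2_ok TD_l11157 _)
              (CovZ.leaf K2_ok TD_l11158 _))))))
         (CovZ.n1 (29376, 25728) (by decide +kernel)
          (CovZ.badM (by decide +kernel))
          (CovZ.n1 (29280, 25632) (by decide +kernel)
           (CovZ.badM (by decide +kernel))
           (CovZ.badM (by decide +kernel))))))))

theorem TD_u107 : CovZ TD_M (toL (selN TD_LN 136703170306910958406975781536564182791055979796842087225610074228511727280417197658652218033794193)) [0, 7, 6, 1] (29184, 25344) (29184, 24576) (29952, 25344) :=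
    (CovZ.n1 (29568, 24960) (by decide +kernel)
      (CovZ.n2 (29184, 24960) (by decide +kernel)
       (CovZ.n2 (29376, 25152) (by decide +kernel)
        (CovZ.n2 (29376, 24960) (by decide +kernel)
         (CovZ.leaf K2_ok TD_l11159 _)
         (CovZ.n1 (29472, 25056) (by decide +kernel)
          (CovZ.leaf K2_ok TD_l11160 _)
          (CovZ.leaf K2_ok TD_l11161 _)))
        (CovZ.n1 (29184, 25152) (by decide +kernel)
         (CovZ.n2 (29280, 25248) (by decide +kernel)
          (CovZ.leaf K2_ok TD_l11162 _)
          (CovZ.leaf K2_ok TD_l11163 _))
         (CovZ.leaf K2_ok TD_l11164 _)))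
       (CovZ.n1 (29376, 24768) (by decide +kernel)
        (CovZ.leaf K2_ok TD_l11165 _)
        (CovZ.leaf K2_ok TD_l11166 _)))
      (CovZ.n1 (29568, 25344) (by decide +kernel)
       (CovZ.subM 7957171782556586274486115970349133441981471376868128828381940325622630022471632407243904 (by decide +kernel)
        (CovZ.n2 (29760, 25152) (by decide +kernel)
         (CovZ.n2 (29568, 25152) (by decide +kernel)
          (CovZ.n2 (29664, 25248) (by decide +kernel)
           (CovZ.leaf K2_ok TD_l11167 _)
           (CovZ.n1 (29568, 25248) (by decide +kernel)
            (CovZ.leaf K2_ok TD_l11168 _)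
            (CovZ.leaf K2_ok TD_l11169 _)))
          (CovZ.leaf K2_ok TD_l11170 _))
         (CovZ.n1 (29760, 25344) (by decide +kernel)
          (CovZ.n2 (29856, 25248) (by decide +kernel)
           (CovZ.n2 (29760, 25248) (by decide +kernel)
            (CovZ.leaf K2_ok TD_l11171 _)
            (CovZ.leaf K2_ok TD_l11172 _))
           (CovZ.n1 (29856, 25344) (by decide +kernel)
            (CovZ.leaf K2_ok TD_l11173 _)
            (CovZ.n1 (29808, 25296) (by decide +kernel)
             (CovZ.leaf K2_ok TD_l11174 _)
             (CovZ.leaf K2_ok TD_l11175 _))))
          (CovZ.n1 (29664, 25248) (by decide +kernel)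
           (CovZ.n2 (29664, 25344) (by decide +kernel)
            (CovZ.leaf K2_ok TD_l11176 _)
            (CovZ.leaf K2_ok TD_l11177 _))
           (CovZ.n1 (29760, 25248) (by decide +kernel)
            (CovZ.leaf K2_ok TD_l11178 _)
            (CovZ.leaf K2_ok TD_l11179 _))))))
       (CovZ.n1 (29376, 25152) (by decide +kernel)
        (CovZ.subM 13803492693581127575243678979673845430397215358289130524277713278102528 (by decide +kernel)
         (CovZ.n2 (29376, 25344) (by decide +kernel)
          (CovZ.n2 (29472, 25248) (by decide +kernel)
           (CovZ.leaf K2_ok TD_l11180 _)
           (CovZ.leaf K2_ok TD_l11181 _))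
          (CovZ.n1 (29280, 25248) (by decide +kernel)
           (CovZ.leaf K2_ok TD_l11182 _)
           (CovZ.n1 (29376, 25248) (by decide +kernel)
            (CovZ.leaf K2_ok TD_l11183 _)
            (CovZ.leaf K2_ok TD_l11184 _)))))
        (CovZ.subM 7957171782556586274486115970349133441981471376868128828381940325622630022471632407243904 (by decide +kernel)
         (CovZ.n1 (29568, 25152) (by decide +kernel)
          (CovZ.n2 (29472, 25056) (by decide +kernel)
           (CovZ.leaf K2_ok TD_l11185 _)
           (CovZ.leaf K2_ok TD_l11186 _))
          (CovZ.n1 (29472, 25248) (by decide +kernel)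
           (CovZ.n2 (29568, 25248) (by decide +kernel)
            (CovZ.leaf K2_ok TD_l11187 _)
            (CovZ.leaf K2_ok TD_l11188 _))
           (CovZ.leaf K2_ok TD_l11189 _)))))))

theorem TD_u108 : CovZ TD_M (toL (selN TD_LN 136703170306910958406975781536564182791055979796842087225610074228511727280417197658652218033794193)) [0, 7, 6, 1] (30720, 26112) (29952, 26112) (29952, 25344) :=
    (CovZ.subM 15541351137806053423238792552629349539494102697026037023744334361239215285028429769744 (by decide +kernel)
      (CovZ.n2 (30336, 25728) (by decide +kernel)
       (CovZ.n2 (29952, 25728) (by decide +kernel)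
        (CovZ.n2 (30144, 25920) (by decide +kernel)
         (CovZ.badM (by decide +kernel))
         (CovZ.badM (by decide +kernel)))
        (CovZ.n1 (30144, 25536) (by decide +kernel)
         (CovZ.n2 (29952, 25536) (by decide +kernel)
          (CovZ.badM (by decide +kernel))
          (CovZ.n1 (30048, 25440) (by decide +kernel)
           (CovZ.n2 (29952, 25440) (by decide +kernel)
            (CovZ.subM 374144419156711147060143317175368453049510933826560 (by decide +kernel)
             (CovZ.n2 (30000, 25488) (by decide +kernel)
              (CovZ.leaf K2_ok TD_l11190 _)
              (CovZ.n1 (29952, 25488) (by decide +kernel)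
               (CovZ.n2 (29976, 25512) (by decide +kernel)
                (CovZ.leaf K2_ok TD_l11191 _)
                (CovZ.leaf K2_ok TD_l11192 _))
               (CovZ.leaf K2_ok TD_l11193 _))))
            (CovZ.leaf K2_ok TD_l11194 _))
           (CovZ.subM 374144419156711147060143317175368453049510933826560 (by decide +kernel)
            (CovZ.n1 (30048, 25536) (by decide +kernel)
             (CovZ.n2 (30096, 25488) (by decide +kernel)
              (CovZ.n2 (30048, 25488) (by decide +kernel)
               (CovZ.badM (by decide +kernel))
               (CovZ.leaf K2_ok TD_l11197 _))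
              (CovZ.badM (by decide +kernel)))
             (CovZ.n1 (30000, 25488) (by decide +kernel)
              (CovZ.n2 (30000, 25536) (by decide +kernel)
               (CovZ.badM (by decide +kernel))
               (CovZ.n1 (29976, 25512) (by decide +kernel)
                (CovZ.leaf K2_ok TD_l11202 _)
                (CovZ.badM (by decide +kernel))))
              (CovZ.n1 (30048, 25488) (by decide +kernel)
               (CovZ.leaf K2_ok TD_l11204 _)
               (CovZ.badM (by decide +kernel))))))))
         (CovZ.badM (by decide +kernel))))
       (CovZ.subM 15541351137806053423238792552629349165326847577231594605501608730280999482416829562896 (by decide +kernel)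
        (CovZ.n1 (30336, 26112) (by decide +kernel)
         (CovZ.n2 (30528, 25920) (by decide +kernel)
          (CovZ.n2 (30336, 25920) (by decide +kernel)
           (CovZ.n2 (30432, 26016) (by decide +kernel)
            (CovZ.n2 (30432, 25920) (by decide +kernel)
             (CovZ.n2 (30384, 25968) (by decide +kernel)
              (CovZ.n2 (30432, 25968) (by decide +kernel)
               (CovZ.n2 (30408, 25944) (by decide +kernel)
                (CovZ.leaf K2_ok TD_l11207 _)
                (CovZ.leaf K2_ok TD_l11208 _))
               (CovZ.leaf K2_ok TD_l11209 _))
              (CovZ.n1 (30384, 25920) (by decide +kernel)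
               (CovZ.n2 (30360, 25944) (by decide +kernel)
                (CovZ.leaf K2_ok TD_l11210 _)
                (CovZ.leaf K2_ok TD_l17977 _))
               (CovZ.n1 (30408, 25944) (by decide +kernel)
                (CovZ.leaf K3_ok TD_l17978 _)
                (CovZ.leaf K3_ok TD_l11211 _))))
             (CovZ.n1 (30480, 25968) (by decide +kernel)
              (CovZ.n2 (30480, 25920) (by decide +kernel)
               (CovZ.leaf K2_ok TD_l11212 _)
               (CovZ.leaf K3_ok TD_l11213 _))
              (CovZ.leaf K2_ok TD_l11214 _)))
            (CovZ.n1 (30336, 26016) (by decide +kernel)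
             (CovZ.n2 (30384, 26064) (by decide +kernel)
              (CovZ.n2 (30384, 26016) (by decide +kernel)
               (CovZ.n2 (30360, 26040) (by decide +kernel)
                (CovZ.leaf K3_ok TD_l11215 _)
                (CovZ.leaf K2_ok TD_l11216 _))
               (CovZ.leaf K2_ok TD_l11217 _))
              (CovZ.leaf K3_ok TD_l11218 _))
             (CovZ.n1 (30384, 25968) (by decide +kernel)
              (CovZ.n2 (30336, 25968) (by decide +kernel)
               (CovZ.leaf K2_ok TD_l11219 _)
               (CovZ.leaf K2_ok TD_l11220 _))
              (CovZ.n1 (30384, 26016) (by decide +kernel)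
               (CovZ.leaf K2_ok TD_l11221 _)
               (CovZ.leaf K2_ok TD_l11222 _)))))
           (CovZ.n1 (30432, 25824) (by decide +kernel)
            (CovZ.n2 (30336, 25824) (by decide +kernel)
             (CovZ.n2 (30384, 25872) (by decide +kernel)
              (CovZ.n2 (30384, 25824) (by decide +kernel)
               (CovZ.n2 (30360, 25848) (by decide +kernel)
                (CovZ.n2 (30384, 25848) (by decide +kernel)
                 (CovZ.badM (by decide +kernel))
                 (CovZ.leaf K2_ok TD_l18805 _))
                (CovZ.badM (by decide +kernel)))
               (CovZ.n1 (30408, 25848) (by decide +kernel)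
                (CovZ.n2 (30408, 25824) (by decide +kernel)
                 (CovZ.leaf K2_ok TD_l18806 _)
                 (CovZ.leaf K2_ok TD_l18807 _))
                (CovZ.leaf K2_ok TD_l18808 _)))
              (CovZ.n1 (30336, 25872) (by decide +kernel)
               (CovZ.n2 (30360, 25896) (by decide +kernel)
                (CovZ.leaf K2_ok TD_l18809 _)
                (CovZ.badM (by decide +kernel)))
               (CovZ.leaf K2_ok TD_l18810 _)))
             (CovZ.n1 (30384, 25776) (by decide +kernel)
              (CovZ.badM (by decide +kernel))
              (CovZ.n1 (30384, 25824) (by decide +kernel)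
               (CovZ.n2 (30408, 25800) (by decide +kernel)
                (CovZ.badM (by decide +kernel))
                (CovZ.leaf K2_ok TD_l18811 _))
               (CovZ.badM (by decide +kernel)))))
            (CovZ.n1 (30432, 25920) (by decide +kernel)
             (CovZ.n2 (30480, 25872) (by decide +kernel)
              (CovZ.n2 (30432, 25872) (by decide +kernel)
               (CovZ.n2 (30456, 25896) (by decide +kernel)
                (CovZ.leaf K2_ok TD_l18812 _)
                (CovZ.leaf K2_ok TD_l18813 _))
               (CovZ.leaf K2_ok TD_l18814 _))
              (CovZ.n1 (30480, 25920) (by decide +kernel)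
               (CovZ.leaf K2_ok TD_l18815 _)
               (CovZ.n1 (30456, 25896) (by decide +kernel)
                (CovZ.leaf K2_ok TD_l18816 _)
                (CovZ.leaf K2_ok TD_l18817 _))))
             (CovZ.n1 (30384, 25872) (by decide +kernel)
              (CovZ.n2 (30384, 25920) (by decide +kernel)
               (CovZ.leaf K2_ok TD_l18818 _)
               (CovZ.n1 (30360, 25896) (by decide +kernel)
                (CovZ.leaf K2_ok TD_l18819 _)
                (CovZ.leaf K2_ok TD_l18820 _)))
              (CovZ.n1 (30432, 25872) (by decide +kernel)
               (CovZ.n2 (30408, 25848) (by decide +kernel)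
                (CovZ.leaf K2_ok TD_l18821 _)
                (CovZ.leaf K2_ok TD_l18822 _))
               (CovZ.n1 (30408, 25896) (by decide +kernel)
                (CovZ.leaf K2_ok TD_l18823 _)
                (CovZ.leaf K2_ok TD_l18824 _)))))))
          (CovZ.n1 (30528, 26112) (by decide +kernel)
           (CovZ.n2 (30624, 26016) (by decide +kernel)
            (CovZ.n2 (30528, 26016) (by decide +kernel)
             (CovZ.n2 (30576, 26064) (by decide +kernel)
              (CovZ.n2 (30576, 26016) (by decide +kernel)
               (CovZ.leaf K3_ok TD_l11223 _)
               (CovZ.leaf K2_ok TD_l11224 _))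
              (CovZ.leaf K2_ok TD_l11225 _))
             (CovZ.n1 (30576, 25968) (by decide +kernel)
              (CovZ.leaf K2_ok TD_l11226 _)
              (CovZ.leaf K2_ok TD_l11227 _)))
            (CovZ.n1 (30624, 26112) (by decide +kernel)
             (CovZ.leaf K2_ok TD_l11228 _)
             (CovZ.n1 (30576, 26064) (by decide +kernel)
              (CovZ.leaf K2_ok TD_l11229 _)
              (CovZ.leaf K2_ok TD_l11230 _))))
           (CovZ.n1 (30432, 26016) (by decide +kernel)
            (CovZ.n2 (30432, 26112) (by decide +kernel)
             (CovZ.leaf K3_ok TD_l11231 _)
             (CovZ.n1 (30384, 26064) (by decide +kernel)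
              (CovZ.leaf K3_ok TD_l11232 _)
              (CovZ.n1 (30432, 26064) (by decide +kernel)
               (CovZ.leaf K3_ok TD_l11233 _)
               (CovZ.leaf K3_ok TD_l11234 _))))
            (CovZ.n1 (30528, 26016) (by decide +kernel)
             (CovZ.n2 (30480, 25968) (by decide +kernel)
              (CovZ.n2 (30480, 26016) (by decide +kernel)
               (CovZ.leaf K3_ok TD_l11235 _)
               (CovZ.leaf K3_ok TD_l11236 _))
              (CovZ.n1 (30528, 25968) (by decide +kernel)
               (CovZ.leaf K2_ok TD_l11237 _)
               (CovZ.leaf K2_ok TD_l11238 _)))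
             (CovZ.n1 (30480, 26064) (by decide +kernel)
              (CovZ.n2 (30528, 26064) (by decide +kernel)
               (CovZ.leaf K2_ok TD_l11239 _)
               (CovZ.leaf K3_ok TD_l11240 _))
              (CovZ.n1 (30480, 26016) (by decide +kernel)
               (CovZ.leaf K2_ok TD_l11241 _)
               (CovZ.leaf K3_ok TD_l11242 _)))))))
         (CovZ.n1 (30144, 25920) (by decide +kernel)
          (CovZ.n2 (30144, 26112) (by decide +kernel)
           (CovZ.n2 (30240, 26016) (by decide +kernel)
            (CovZ.badM (by decide +kernel))
            (CovZ.n1 (30240, 26112) (by decide +kernel)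
             (CovZ.n2 (30288, 26064) (by decide +kernel)
              (CovZ.n2 (30240, 26064) (by decide +kernel)
               (CovZ.n2 (30264, 26088) (by decide +kernel)
                (CovZ.leaf K3_ok TD_l11248 _)
                (CovZ.leaf K3_ok TD_l11249 _))
               (CovZ.leaf K2_ok TD_l11250 _))
              (CovZ.n1 (30288, 26112) (by decide +kernel)
               (CovZ.leaf K2_ok TD_l11251 _)
               (CovZ.leaf K2_ok TD_l11252 _)))
             (CovZ.n1 (30192, 26064) (by decide +kernel)
              (CovZ.n2 (30192, 26112) (by decide +kernel)
               (CovZ.leaf K3_ok TD_l11253 _)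
               (CovZ.badM (by decide +kernel)))
              (CovZ.n1 (30240, 26064) (by decide +kernel)
               (CovZ.badM (by decide +kernel))
               (CovZ.leaf K3_ok TD_l11258 _)))))
           (CovZ.badM (by decide +kernel)))
          (CovZ.n1 (30336, 25920) (by decide +kernel)
           (CovZ.badM (by decide +kernel))
           (CovZ.n1 (30240, 26016) (by decide +kernel)
            (CovZ.n2 (30336, 26016) (by decide +kernel)
             (CovZ.n2 (30288, 25968) (by decide +kernel)
              (CovZ.n2 (30288, 26016) (by decide +kernel)
               (CovZ.leaf K2_ok TD_l11263 _)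
               (CovZ.badM (by decide +kernel)))
              (CovZ.n1 (30336, 25968) (by decide +kernel)
               (CovZ.n2 (30312, 25944) (by decide +kernel)
                (CovZ.leaf K3_ok TD_l11266 _)
                (CovZ.leaf K2_ok TD_l11267 _))
               (CovZ.n1 (30312, 25992) (by decide +kernel)
                (CovZ.leaf K2_ok TD_l11268 _)
                (CovZ.leaf K2_ok TD_l11269 _))))
             (CovZ.n1 (30288, 26064) (by decide +kernel)
              (CovZ.n2 (30336, 26064) (by decide +kernel)
               (CovZ.leaf K2_ok TD_l11270 _)
               (CovZ.leaf K3_ok TD_l11271 _))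
              (CovZ.n1 (30288, 26016) (by decide +kernel)
               (CovZ.n2 (30264, 26040) (by decide +kernel)
                (CovZ.leaf K3_ok TD_l11272 _)
                (CovZ.badM (by decide +kernel)))
               (CovZ.n1 (30312, 26040) (by decide +kernel)
                (CovZ.leaf K3_ok TD_l11274 _)
                (CovZ.leaf K2_ok TD_l11275 _)))))
            (CovZ.badM (by decide +kernel)))))))))

theorem TD_u109 : CovZ TD_M (toL (selN TD_LN 136703170306910958406975781536564182791055979796842087225610074228511727280417197658652218033794193)) [0, 7, 6, 1] (29952, 26112) (29184, 26112) (29952, 25344) :=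
    (CovZ.subM 136703170298938245273281389194851335334573089431199944531730457343040310127352110558934297126923264 (by decide +kernel)
      (CovZ.n1 (29568, 25728) (by decide +kernel)
       (CovZ.n2 (29568, 26112) (by decide +kernel)
        (CovZ.badM (by decide +kernel))
        (CovZ.badM (by decide +kernel)))
       (CovZ.n1 (29952, 25728) (by decide +kernel)
        (CovZ.n2 (29760, 25536) (by decide +kernel)
         (CovZ.badM (by decide +kernel))
         (CovZ.n1 (29952, 25536) (by decide +kernel)
          (CovZ.n2 (29856, 25440) (by decide +kernel)
           (CovZ.subM 374167255119794442418240249750879644971693057772544 (by decide +kernel)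
            (CovZ.n2 (29856, 25536) (by decide +kernel)
             (CovZ.n2 (29904, 25488) (by decide +kernel)
              (CovZ.n2 (29856, 25488) (by decide +kernel)
               (CovZ.n2 (29880, 25512) (by decide +kernel)
                (CovZ.leaf K2_ok TD_l11278 _)
                (CovZ.leaf K2_ok TD_l11279 _))
               (CovZ.leaf K2_ok TD_l11280 _))
              (CovZ.n1 (29904, 25536) (by decide +kernel)
               (CovZ.leaf K2_ok TD_l11281 _)
               (CovZ.n1 (29880, 25512) (by decide +kernel)
                (CovZ.leaf K2_ok TD_l11282 _)
                (CovZ.leaf K2_ok TD_l11283 _))))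
             (CovZ.n1 (29808, 25488) (by decide +kernel)
              (CovZ.n2 (29808, 25536) (by decide +kernel)
               (CovZ.leaf K2_ok TD_l11284 _)
               (CovZ.n1 (29784, 25512) (by decide +kernel)
                (CovZ.leaf K2_ok TD_l11285 _)
                (CovZ.leaf K2_ok TD_l11286 _)))
              (CovZ.n1 (29856, 25488) (by decide +kernel)
               (CovZ.leaf K2_ok TD_l11287 _)
               (CovZ.leaf K2_ok TD_l11288 _)))))
           (CovZ.n1 (29952, 25440) (by decide +kernel)
            (CovZ.n2 (29904, 25392) (by decide +kernel)
             (CovZ.leaf K2_ok TD_l11289 _)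
             (CovZ.leaf K2_ok TD_l11290 _))
            (CovZ.n1 (29904, 25488) (by decide +kernel)
             (CovZ.n2 (29952, 25488) (by decide +kernel)
              (CovZ.leaf K2_ok TD_l11291 _)
              (CovZ.leaf K2_ok TD_l11292 _))
             (CovZ.leaf K2_ok TD_l11293 _))))
          (CovZ.badM (by decide +kernel))))
        (CovZ.badM (by decide +kernel)))))

theorem TD_u110 : CovZ TD_M (toL (selN TD_LN 8749002899132063238841146714523908700205230352922389222701110606662783159081676723984903915849195664)) [0, 7, 6, 1] (30720, 24576) (31104, 24960) (30720, 25344) :=
    (CovZ.n2 (30720, 24960) (by decide +kernel)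
       (CovZ.n2 (30912, 25152) (by decide +kernel)
        (CovZ.n2 (30912, 24960) (by decide +kernel)
         (CovZ.n2 (30816, 25056) (by decide +kernel)
          (CovZ.n2 (30912, 25056) (by decide +kernel)
           (CovZ.leaf K2_ok TD_l13291 _)
           (CovZ.leaf K2_ok TD_l13292 _))
          (CovZ.leaf K2_ok TD_l13293 _))
         (CovZ.subM 5708990770823839526709023956368811464073478144 (by decide +kernel)
          (CovZ.n1 (31008, 25056) (by decide +kernel)
           (CovZ.n2 (31008, 24960) (by decide +kernel)
            (CovZ.leaf K2_ok TD_l13294 _)
            (CovZ.leaf K2_ok TD_l13295 _))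
           (CovZ.n1 (30912, 25056) (by decide +kernel)
            (CovZ.n2 (30960, 25104) (by decide +kernel)
             (CovZ.leaf K2_ok TD_l13296 _)
             (CovZ.leaf K2_ok TD_l13297 _))
            (CovZ.leaf K2_ok TD_l13298 _)))))
        (CovZ.n1 (30720, 25152) (by decide +kernel)
         (CovZ.n2 (30816, 25248) (by decide +kernel)
          (CovZ.n2 (30816, 25152) (by decide +kernel)
           (CovZ.leaf K2_ok TD_l13299 _)
           (CovZ.n1 (30864, 25200) (by decide +kernel)
            (CovZ.leaf K2_ok TD_l13300 _)
            (CovZ.leaf K2_ok TD_l13301 _)))
          (CovZ.n1 (30720, 25248) (by decide +kernel)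
           (CovZ.n2 (30768, 25296) (by decide +kernel)
            (CovZ.leaf K2_ok TD_l13302 _)
            (CovZ.leaf K2_ok TD_l13303 _))
           (CovZ.leaf K2_ok TD_l13304 _)))
         (CovZ.n1 (30816, 25056) (by decide +kernel)
          (CovZ.leaf K2_ok TD_l13305 _)
          (CovZ.n1 (30816, 25152) (by decide +kernel)
           (CovZ.leaf K2_ok TD_l13306 _)
           (CovZ.leaf K2_ok TD_l13307 _)))))
       (CovZ.n1 (30912, 24768) (by decide +kernel)
        (CovZ.n2 (30720, 24768) (by decide +kernel)
         (CovZ.n2 (30816, 24864) (by decide +kernel)
          (CovZ.leaf K2_ok TD_l13308 _)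
          (CovZ.leaf K2_ok TD_l13309 _))
         (CovZ.leaf K2_ok TD_l13310 _))
        (CovZ.n1 (30912, 24960) (by decide +kernel)
         (CovZ.n2 (31008, 24864) (by decide +kernel)
          (CovZ.leaf K2_ok TD_l13311 _)
          (CovZ.leaf K2_ok TD_l13312 _))
         (CovZ.n1 (30816, 24864) (by decide +kernel)
          (CovZ.leaf K2_ok TD_l13313 _)
          (CovZ.leaf K2_ok TD_l13314 _)))))

theorem TD_u111 : CovZ TD_M (toL (selN TD_LN 8749002899132063238841146714523908700205230352922389222701110606662783159081676723984903915849195664)) [0, 7, 6, 1] (31104, 24960) (31488, 25344) (30720, 25344) :=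
    (CovZ.n1 (31104, 25344) (by decide +kernel)
       (CovZ.subM 5708990770823839526709023956368811464073478144 (by decide +kernel)
        (CovZ.n2 (31296, 25152) (by decide +kernel)
         (CovZ.n2 (31104, 25152) (by decide +kernel)
          (CovZ.n2 (31200, 25248) (by decide +kernel)
           (CovZ.n2 (31200, 25152) (by decide +kernel)
            (CovZ.n2 (31152, 25200) (by decide +kernel)
             (CovZ.n2 (31200, 25200) (by decide +kernel)
              (CovZ.leaf K2_ok TD_l13315 _)
              (CovZ.leaf K2_ok TD_l13316 _))
             (CovZ.leaf K2_ok TD_l13317 _))
            (CovZ.n1 (31248, 25200) (by decide +kernel)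
             (CovZ.n2 (31248, 25152) (by decide +kernel)
              (CovZ.leaf K2_ok TD_l13318 _)
              (CovZ.leaf K2_ok TD_l13319 _))
             (CovZ.leaf K2_ok TD_l13320 _)))
           (CovZ.n1 (31104, 25248) (by decide +kernel)
            (CovZ.n2 (31152, 25296) (by decide +kernel)
             (CovZ.n2 (31152, 25248) (by decide +kernel)
              (CovZ.leaf K2_ok TD_l13321 _)
              (CovZ.leaf K2_ok TD_l13322 _))
             (CovZ.n1 (31104, 25296) (by decide +kernel)
              (CovZ.leaf K2_ok TD_l13323 _)
              (CovZ.leaf K2_ok TD_l13324 _)))
            (CovZ.leaf K2_ok TD_l13325 _)))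
          (CovZ.n1 (31200, 25056) (by decide +kernel)
           (CovZ.n2 (31104, 25056) (by decide +kernel)
            (CovZ.n2 (31152, 25104) (by decide +kernel)
             (CovZ.leaf K2_ok TD_l13326 _)
             (CovZ.leaf K2_ok TD_l13327 _))
            (CovZ.leaf K2_ok TD_l13328 _))
           (CovZ.n1 (31200, 25152) (by decide +kernel)
            (CovZ.leaf K2_ok TD_l13329 _)
            (CovZ.n1 (31152, 25104) (by decide +kernel)
             (CovZ.leaf K2_ok TD_l13330 _)
             (CovZ.leaf K2_ok TD_l13331 _)))))
         (CovZ.n1 (31296, 25344) (by decide +kernel)
          (CovZ.n2 (31392, 25248) (by decide +kernel)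
           (CovZ.n2 (31296, 25248) (by decide +kernel)
            (CovZ.n2 (31344, 25296) (by decide +kernel)
             (CovZ.n2 (31344, 25248) (by decide +kernel)
              (CovZ.leaf K2_ok TD_l13332 _)
              (CovZ.leaf K2_ok TD_l13333 _))
             (CovZ.n1 (31296, 25296) (by decide +kernel)
              (CovZ.n2 (31320, 25320) (by decide +kernel)
               (CovZ.leaf K2_ok TD_l13334 _)
               (CovZ.leaf K2_ok TD_l13335 _))
              (CovZ.leaf K2_ok TD_l13336 _)))
            (CovZ.n1 (31344, 25200) (by decide +kernel)
             (CovZ.leaf K2_ok TD_l13337 _)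
             (CovZ.leaf K2_ok TD_l13338 _)))
           (CovZ.n1 (31392, 25344) (by decide +kernel)
            (CovZ.n2 (31440, 25296) (by decide +kernel)
             (CovZ.n2 (31392, 25296) (by decide +kernel)
              (CovZ.leaf K2_ok TD_l13339 _)
              (CovZ.leaf K2_ok TD_l13340 _))
             (CovZ.n1 (31440, 25344) (by decide +kernel)
              (CovZ.leaf K2_ok TD_l13341 _)
              (CovZ.n1 (31416, 25320) (by decide +kernel)
               (CovZ.leaf K2_ok TD_l13342 _)
               (CovZ.leaf K2_ok TD_l13343 _))))
            (CovZ.n1 (31344, 25296) (by decide +kernel)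
             (CovZ.n2 (31344, 25344) (by decide +kernel)
              (CovZ.leaf K2_ok TD_l13344 _)
              (CovZ.n1 (31320, 25320) (by decide +kernel)
               (CovZ.leaf K2_ok TD_l13345 _)
               (CovZ.leaf K2_ok TD_l13346 _)))
             (CovZ.n1 (31392, 25296) (by decide +kernel)
              (CovZ.n2 (31368, 25272) (by decide +kernel)
               (CovZ.leaf K2_ok TD_l13347 _)
               (CovZ.leaf K2_ok TD_l13348 _))
              (CovZ.n1 (31368, 25320) (by decide +kernel)
               (CovZ.leaf K2_ok TD_l13349 _)
               (CovZ.leaf K2_ok TD_l13350 _))))))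
          (CovZ.n1 (31200, 25248) (by decide +kernel)
           (CovZ.n2 (31200, 25344) (by decide +kernel)
            (CovZ.n2 (31248, 25296) (by decide +kernel)
             (CovZ.n2 (31200, 25296) (by decide +kernel)
              (CovZ.n2 (31224, 25320) (by decide +kernel)
               (CovZ.leaf K2_ok TD_l13351 _)
               (CovZ.leaf K2_ok TD_l13352 _))
              (CovZ.leaf K2_ok TD_l13353 _))
             (CovZ.n1 (31248, 25344) (by decide +kernel)
              (CovZ.leaf K2_ok TD_l13354 _)
              (CovZ.n1 (31224, 25320) (by decide +kernel)
               (CovZ.leaf K2_ok TD_l13355 _)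
               (CovZ.leaf K2_ok TD_l13356 _))))
            (CovZ.n1 (31152, 25296) (by decide +kernel)
             (CovZ.n2 (31152, 25344) (by decide +kernel)
              (CovZ.leaf K2_ok TD_l13357 _)
              (CovZ.n1 (31128, 25320) (by decide +kernel)
               (CovZ.leaf K2_ok TD_l13358 _)
               (CovZ.leaf K2_ok TD_l13359 _)))
             (CovZ.n1 (31200, 25296) (by decide +kernel)
              (CovZ.leaf K2_ok TD_l13360 _)
              (CovZ.n1 (31176, 25320) (by decide +kernel)
               (CovZ.leaf K2_ok TD_l13361 _)
               (CovZ.leaf K2_ok TD_l13362 _)))))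
           (CovZ.n1 (31296, 25248) (by decide +kernel)
            (CovZ.n2 (31248, 25200) (by decide +kernel)
             (CovZ.leaf K2_ok TD_l13363 _)
             (CovZ.n1 (31296, 25200) (by decide +kernel)
              (CovZ.leaf K2_ok TD_l13364 _)
              (CovZ.leaf K2_ok TD_l13365 _)))
            (CovZ.n1 (31248, 25296) (by decide +kernel)
             (CovZ.n2 (31296, 25296) (by decide +kernel)
              (CovZ.leaf K2_ok TD_l13366 _)
              (CovZ.n1 (31272, 25320) (by decide +kernel)
               (CovZ.leaf K2_ok TD_l13367 _)
               (CovZ.leaf K2_ok TD_l13368 _)))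
             (CovZ.n1 (31248, 25248) (by decide +kernel)
              (CovZ.leaf K2_ok TD_l13369 _)
              (CovZ.leaf K2_ok TD_l13370 _))))))))
       (CovZ.n1 (30912, 25152) (by decide +kernel)
        (CovZ.n2 (30912, 25344) (by decide +kernel)
         (CovZ.subM 5708990770823839526709023956368811464073478144 (by decide +kernel)
          (CovZ.n2 (31008, 25248) (by decide +kernel)
           (CovZ.n2 (30912, 25248) (by decide +kernel)
            (CovZ.n2 (30960, 25296) (by decide +kernel)
             (CovZ.n2 (30960, 25248) (by decide +kernel)
              (CovZ.leaf K2_ok TD_l13371 _)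
              (CovZ.leaf K2_ok TD_l13372 _))
             (CovZ.n1 (30912, 25296) (by decide +kernel)
              (CovZ.leaf K2_ok TD_l13373 _)
              (CovZ.leaf K2_ok TD_l13374 _)))
            (CovZ.leaf K2_ok TD_l13375 _))
           (CovZ.n1 (31008, 25344) (by decide +kernel)
            (CovZ.n2 (31056, 25296) (by decide +kernel)
             (CovZ.n2 (31008, 25296) (by decide +kernel)
              (CovZ.leaf K2_ok TD_l13376 _)
              (CovZ.leaf K2_ok TD_l13377 _))
             (CovZ.n1 (31056, 25344) (by decide +kernel)
              (CovZ.leaf K2_ok TD_l13378 _)
              (CovZ.n1 (31032, 25320) (by decide +kernel)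
               (CovZ.leaf K2_ok TD_l13379 _)
               (CovZ.leaf K2_ok TD_l13380 _))))
            (CovZ.n1 (30960, 25296) (by decide +kernel)
             (CovZ.n2 (30960, 25344) (by decide +kernel)
              (CovZ.leaf K2_ok TD_l13381 _)
              (CovZ.leaf K2_ok TD_l13382 _))
             (CovZ.n1 (31008, 25296) (by decide +kernel)
              (CovZ.leaf K2_ok TD_l13383 _)
              (CovZ.n1 (30984, 25320) (by decide +kernel)
               (CovZ.leaf K2_ok TD_l13384 _)
               (CovZ.leaf K2_ok TD_l13385 _)))))))
         (CovZ.n1 (30816, 25248) (by decide +kernel)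
          (CovZ.subM 8749002899132047697490008908470485461412677723573223895831229907610711666823703017715913683099459712 (by decide +kernel)
           (CovZ.n2 (30816, 25344) (by decide +kernel)
            (CovZ.subM 5708990770823839526709023956368811464073412608 (by decide +kernel)
             (CovZ.n2 (30864, 25296) (by decide +kernel)
              (CovZ.n2 (30816, 25296) (by decide +kernel)
               (CovZ.leaf K2_ok TD_l13386 _)
               (CovZ.leaf K2_ok TD_l13387 _))
              (CovZ.n1 (30864, 25344) (by decide +kernel)
               (CovZ.leaf K2_ok TD_l13388 _)
               (CovZ.n1 (30840, 25320) (by decide +kernel)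
                (CovZ.leaf K2_ok TD_l13389 _)
                (CovZ.leaf K2_ok TD_l13390 _)))))
            (CovZ.n1 (30768, 25296) (by decide +kernel)
             (CovZ.n2 (30768, 25344) (by decide +kernel)
              (CovZ.leaf K2_ok TD_l13391 _)
              (CovZ.leaf K2_ok TD_l13392 _))
             (CovZ.n1 (30816, 25296) (by decide +kernel)
              (CovZ.leaf K2_ok TD_l13393 _)
              (CovZ.leaf K2_ok TD_l13394 _)))))
          (CovZ.subM 5708990770823839526709023956368811464073478144 (by decide +kernel)
           (CovZ.n1 (30912, 25248) (by decide +kernel)
            (CovZ.n2 (30864, 25200) (by decide +kernel)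
             (CovZ.leaf K2_ok TD_l13395 _)
             (CovZ.n1 (30912, 25200) (by decide +kernel)
              (CovZ.leaf K2_ok TD_l13396 _)
              (CovZ.leaf K2_ok TD_l13397 _)))
            (CovZ.n1 (30864, 25296) (by decide +kernel)
             (CovZ.n2 (30912, 25296) (by decide +kernel)
              (CovZ.leaf K2_ok TD_l13398 _)
              (CovZ.n1 (30888, 25320) (by decide +kernel)
               (CovZ.leaf K2_ok TD_l13399 _)
               (CovZ.leaf K2_ok TD_l13400 _)))
             (CovZ.n1 (30864, 25248) (by decide +kernel)
              (CovZ.leaf K2_ok TD_l13401 _)
              (CovZ.leaf K2_ok TD_l13402 _)))))))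
        (CovZ.subM 5708990770823839526709023956368811464073478144 (by decide +kernel)
         (CovZ.n1 (31104, 25152) (by decide +kernel)
          (CovZ.n2 (31008, 25056) (by decide +kernel)
           (CovZ.n2 (31008, 25152) (by decide +kernel)
            (CovZ.leaf K2_ok TD_l13403 _)
            (CovZ.n1 (30960, 25104) (by decide +kernel)
             (CovZ.leaf K2_ok TD_l13404 _)
             (CovZ.leaf K2_ok TD_l13405 _)))
           (CovZ.n1 (31104, 25056) (by decide +kernel)
            (CovZ.n2 (31056, 25008) (by decide +kernel)
             (CovZ.leaf K2_ok TD_l13406 _)
             (CovZ.leaf K2_ok TD_l13407 _))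
            (CovZ.n1 (31056, 25104) (by decide +kernel)
             (CovZ.leaf K2_ok TD_l13408 _)
             (CovZ.leaf K2_ok TD_l13409 _))))
          (CovZ.n1 (31008, 25248) (by decide +kernel)
           (CovZ.n2 (31104, 25248) (by decide +kernel)
            (CovZ.n2 (31056, 25200) (by decide +kernel)
             (CovZ.leaf K2_ok TD_l13410 _)
             (CovZ.n1 (31104, 25200) (by decide +kernel)
              (CovZ.leaf K2_ok TD_l13411 _)
              (CovZ.leaf K2_ok TD_l13412 _)))
            (CovZ.n1 (31056, 25296) (by decide +kernel)
             (CovZ.n2 (31104, 25296) (by decide +kernel)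
              (CovZ.leaf K2_ok TD_l13413 _)
              (CovZ.n1 (31080, 25320) (by decide +kernel)
               (CovZ.leaf K2_ok TD_l13414 _)
               (CovZ.leaf K2_ok TD_l13415 _)))
             (CovZ.n1 (31056, 25248) (by decide +kernel)
              (CovZ.leaf K2_ok TD_l13416 _)
              (CovZ.leaf K2_ok TD_l13417 _))))
           (CovZ.n1 (31008, 25152) (by decide +kernel)
            (CovZ.n2 (30960, 25200) (by decide +kernel)
             (CovZ.n2 (31008, 25200) (by decide +kernel)
              (CovZ.leaf K2_ok TD_l13418 _)
              (CovZ.leaf K2_ok TD_l13419 _))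
             (CovZ.leaf K2_ok TD_l13420 _))
            (CovZ.n1 (31056, 25200) (by decide +kernel)
             (CovZ.leaf K2_ok TD_l13421 _)
             (CovZ.leaf K2_ok TD_l13422 _))))))))

theorem TD_u112 : CovZ TD_M (toL (selN TD_LN 8749002899132063238841146714523908700205230352922389222701110606662783159081676723984903915849195664)) [0, 7, 6, 1] (30720, 24576) (31488, 25344) (30720, 26112) :=
    (CovZ.n2 (30720, 25344) (by decide +kernel)
     (CovZ.n2 (31104, 25728) (by decide +kernel)
      (CovZ.subM 8749002899132047697490008908470485461412677723573223890122239136786872142590559139917862768824295552 (by decide +kernel)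
       (CovZ.n2 (31104, 25344) (by decide +kernel)
        (CovZ.n2 (30912, 25536) (by decide +kernel)
         (CovZ.badM (by decide +kernel))
         (CovZ.n1 (30912, 25344) (by decide +kernel)
          (CovZ.n2 (30816, 25440) (by decide +kernel)
           (CovZ.subM 2475880078570760549798248448 (by decide +kernel)
            (CovZ.n2 (30912, 25440) (by decide +kernel)
             (CovZ.n2 (30864, 25392) (by decide +kernel)
              (CovZ.badM (by decide +kernel))
              (CovZ.n1 (30912, 25392) (by decide +kernel)
               (CovZ.n2 (30888, 25368) (by decide +kernel)
                (CovZ.badM (by decide +kernel))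
                (CovZ.leaf K2_ok TD_l13246 _))
               (CovZ.badM (by decide +kernel))))
             (CovZ.badM (by decide +kernel))))
           (CovZ.n1 (30816, 25344) (by decide +kernel)
            (CovZ.n2 (30768, 25392) (by decide +kernel)
             (CovZ.n2 (30816, 25392) (by decide +kernel)
              (CovZ.n2 (30792, 25368) (by decide +kernel)
               (CovZ.badM (by decide +kernel))
               (CovZ.leaf K2_ok TD_l13248 _))
              (CovZ.badM (by decide +kernel)))
             (CovZ.n1 (30768, 25344) (by decide +kernel)
              (CovZ.leaf K2_ok TD_l13249 _)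
              (CovZ.n1 (30792, 25368) (by decide +kernel)
               (CovZ.leaf K2_ok TD_l13250 _)
               (CovZ.leaf K2_ok TD_l13251 _))))
            (CovZ.subM 2475880078570760549798248448 (by decide +kernel)
             (CovZ.n1 (30864, 25392) (by decide +kernel)
              (CovZ.n2 (30864, 25344) (by decide +kernel)
               (CovZ.n2 (30840, 25368) (by decide +kernel)
                (CovZ.leaf K2_ok TD_l13252 _)
                (CovZ.leaf K2_ok TD_l13253 _))
               (CovZ.n1 (30888, 25368) (by decide +kernel)
                (CovZ.leaf K2_ok TD_l13254 _)
                (CovZ.leaf K2_ok TD_l13255 _)))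
              (CovZ.n1 (30816, 25392) (by decide +kernel)
               (CovZ.badM (by decide +kernel))
               (CovZ.leaf K2_ok TD_l13256 _))))))
          (CovZ.subM 2475880078570760549798248448 (by decide +kernel)
           (CovZ.n1 (31008, 25440) (by decide +kernel)
            (CovZ.n2 (31008, 25344) (by decide +kernel)
             (CovZ.n2 (30960, 25392) (by decide +kernel)
              (CovZ.badM (by decide +kernel))
              (CovZ.n1 (30960, 25344) (by decide +kernel)
               (CovZ.n2 (30936, 25368) (by decide +kernel)
                (CovZ.badM (by decide +kernel))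
                (CovZ.leaf K2_ok TD_l13258 _))
               (CovZ.badM (by decide +kernel))))
             (CovZ.badM (by decide +kernel)))
            (CovZ.n1 (30912, 25440) (by decide +kernel)
             (CovZ.badM (by decide +kernel))
             (CovZ.n1 (30960, 25392) (by decide +kernel)
              (CovZ.n2 (30912, 25392) (by decide +kernel)
               (CovZ.badM (by decide +kernel))
               (CovZ.leaf K2_ok TD_l13261 _))
              (CovZ.badM (by decide +kernel))))))))
        (CovZ.badM (by decide +kernel))))
      (CovZ.n1 (30720, 25728) (by decide +kernel)
       (CovZ.subM 15541351137806053423238792552629349165326847577231594605501608730280999482416829562896 (by decide +kernel)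
        (CovZ.n2 (30912, 25920) (by decide +kernel)
         (CovZ.n2 (30912, 25728) (by decide +kernel)
          (CovZ.n2 (30816, 25824) (by decide +kernel)
           (CovZ.n2 (30912, 25824) (by decide +kernel)
            (CovZ.n2 (30864, 25776) (by decide +kernel)
             (CovZ.n2 (30864, 25824) (by decide +kernel)
              (CovZ.badM (by decide +kernel))
              (CovZ.n1 (30840, 25800) (by decide +kernel)
               (CovZ.leaf K2_ok TD_l18832 _)
               (CovZ.badM (by decide +kernel))))
             (CovZ.badM (by decide +kernel)))
            (CovZ.n1 (30864, 25872) (by decide +kernel)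
             (CovZ.n2 (30912, 25872) (by decide +kernel)
              (CovZ.n2 (30888, 25848) (by decide +kernel)
               (CovZ.leaf K2_ok TD_l18833 _)
               (CovZ.leaf K2_ok TD_l18834 _))
              (CovZ.n1 (30888, 25896) (by decide +kernel)
               (CovZ.leaf K2_ok TD_l13263 _)
               (CovZ.leaf K2_ok TD_l13264 _)))
             (CovZ.n1 (30864, 25824) (by decide +kernel)
              (CovZ.n2 (30840, 25848) (by decide +kernel)
               (CovZ.leaf K2_ok TD_l18835 _)
               (CovZ.leaf K2_ok TD_l18836 _))
              (CovZ.n1 (30888, 25848) (by decide +kernel)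
               (CovZ.badM (by decide +kernel))
               (CovZ.leaf K2_ok TD_l18837 _)))))
           (CovZ.n1 (30816, 25728) (by decide +kernel)
            (CovZ.n2 (30768, 25776) (by decide +kernel)
             (CovZ.n2 (30816, 25776) (by decide +kernel)
              (CovZ.n2 (30792, 25752) (by decide +kernel)
               (CovZ.leaf K2_ok TD_l18838 _)
               (CovZ.badM (by decide +kernel)))
              (CovZ.n1 (30792, 25800) (by decide +kernel)
               (CovZ.leaf K2_ok TD_l18839 _)
               (CovZ.leaf K2_ok TD_l18840 _)))
             (CovZ.n1 (30768, 25728) (by decide +kernel)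
              (CovZ.n2 (30744, 25752) (by decide +kernel)
               (CovZ.leaf K2_ok TD_l18841 _)
               (CovZ.leaf K2_ok TD_l18842 _))
              (CovZ.n1 (30792, 25752) (by decide +kernel)
               (CovZ.badM (by decide +kernel))
               (CovZ.leaf K2_ok TD_l18843 _))))
            (CovZ.n1 (30864, 25776) (by decide +kernel)
             (CovZ.badM (by decide +kernel))
             (CovZ.n1 (30816, 25776) (by decide +kernel)
              (CovZ.n2 (30840, 25800) (by decide +kernel)
               (CovZ.badM (by decide +kernel))
               (CovZ.leaf K2_ok TD_l18844 _))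
              (CovZ.badM (by decide +kernel))))))
          (CovZ.n1 (31008, 25824) (by decide +kernel)
           (CovZ.badM (by decide +kernel))
           (CovZ.n1 (30912, 25824) (by decide +kernel)
            (CovZ.n2 (30960, 25872) (by decide +kernel)
             (CovZ.badM (by decide +kernel))
             (CovZ.n1 (30912, 25872) (by decide +kernel)
              (CovZ.n2 (30936, 25896) (by decide +kernel)
               (CovZ.leaf K2_ok TD_l13265 _)
               (CovZ.leaf K2_ok TD_l13266 _))
              (CovZ.leaf K2_ok TD_l18845 _)))
            (CovZ.badM (by decide +kernel)))))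
         (CovZ.n1 (30720, 25920) (by decide +kernel)
          (CovZ.n2 (30816, 26016) (by decide +kernel)
           (CovZ.n2 (30816, 25920) (by decide +kernel)
            (CovZ.n2 (30768, 25968) (by decide +kernel)
             (CovZ.n2 (30816, 25968) (by decide +kernel)
              (CovZ.n2 (30792, 25944) (by decide +kernel)
               (CovZ.leaf K2_ok TD_l13267 _)
               (CovZ.leaf K2_ok TD_l13268 _))
              (CovZ.leaf K2_ok TD_l13269 _))
             (CovZ.n1 (30768, 25920) (by decide +kernel)
              (CovZ.leaf K2_ok TD_l13270 _)
              (CovZ.leaf K2_ok TD_l13271 _)))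
            (CovZ.n1 (30864, 25968) (by decide +kernel)
             (CovZ.n2 (30864, 25920) (by decide +kernel)
              (CovZ.leaf K2_ok TD_l13272 _)
              (CovZ.leaf K2_ok TD_l13273 _))
             (CovZ.leaf K2_ok TD_l13274 _)))
           (CovZ.n1 (30720, 26016) (by decide +kernel)
            (CovZ.n2 (30768, 26064) (by decide +kernel)
             (CovZ.n2 (30768, 26016) (by decide +kernel)
              (CovZ.leaf K3_ok TD_l13275 _)
              (CovZ.leaf K2_ok TD_l13276 _))
             (CovZ.leaf K2_ok TD_l13277 _))
            (CovZ.n1 (30768, 25968) (by decide +kernel)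
             (CovZ.leaf K3_ok TD_l13278 _)
             (CovZ.leaf K2_ok TD_l13279 _))))
          (CovZ.n1 (30816, 25824) (by decide +kernel)
           (CovZ.n2 (30720, 25824) (by decide +kernel)
            (CovZ.n2 (30768, 25872) (by decide +kernel)
             (CovZ.n2 (30768, 25824) (by decide +kernel)
              (CovZ.leaf K2_ok TD_l18846 _)
              (CovZ.n1 (30792, 25848) (by decide +kernel)
               (CovZ.leaf K2_ok TD_l18847 _)
               (CovZ.leaf K2_ok TD_l18848 _)))
             (CovZ.leaf K2_ok TD_l13280 _))
            (CovZ.n1 (30768, 25776) (by decide +kernel)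
             (CovZ.n2 (30720, 25776) (by decide +kernel)
              (CovZ.leaf K2_ok TD_l18849 _)
              (CovZ.leaf K2_ok TD_l18850 _))
             (CovZ.n1 (30768, 25824) (by decide +kernel)
              (CovZ.leaf K2_ok TD_l18851 _)
              (CovZ.n1 (30744, 25800) (by decide +kernel)
               (CovZ.leaf K2_ok TD_l18852 _)
               (CovZ.leaf K2_ok TD_l18853 _)))))
           (CovZ.n1 (30816, 25920) (by decide +kernel)
            (CovZ.n2 (30864, 25872) (by decide +kernel)
             (CovZ.n2 (30816, 25872) (by decide +kernel)
              (CovZ.leaf K2_ok TD_l13281 _)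
              (CovZ.leaf K2_ok TD_l18854 _))
             (CovZ.n1 (30864, 25920) (by decide +kernel)
              (CovZ.leaf K2_ok TD_l13282 _)
              (CovZ.leaf K2_ok TD_l13283 _)))
            (CovZ.n1 (30768, 25872) (by decide +kernel)
             (CovZ.n2 (30768, 25920) (by decide +kernel)
              (CovZ.leaf K2_ok TD_l13284 _)
              (CovZ.leaf K2_ok TD_l13285 _))
             (CovZ.n1 (30816, 25872) (by decide +kernel)
              (CovZ.n2 (30792, 25848) (by decide +kernel)
               (CovZ.leaf K2_ok TD_l18855 _)
               (CovZ.leaf K2_ok TD_l18856 _))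
              (CovZ.n1 (30792, 25896) (by decide +kernel)
               (CovZ.leaf K2_ok TD_l13286 _)
               (CovZ.leaf K2_ok TD_l18857 _)))))))))
       (CovZ.subM 8749002899132047697490008908691341344509975764771136077715103951265307629700011509683063543985873024 (by decide +kernel)
        (CovZ.n1 (30912, 25536) (by decide +kernel)
         (CovZ.n2 (30720, 25536) (by decide +kernel)
          (CovZ.subM 8749002899132047697490008908691341344509975764770761933295947240118247483906956062659253483253792768 (by decide +kernel)
           (CovZ.n2 (30816, 25632) (by decide +kernel)
            (CovZ.n2 (30816, 25536) (by decide +kernel)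
             (CovZ.badM (by decide +kernel))
             (CovZ.badM (by decide +kernel)))
            (CovZ.n1 (30720, 25632) (by decide +kernel)
             (CovZ.n2 (30768, 25680) (by decide +kernel)
              (CovZ.badM (by decide +kernel))
              (CovZ.n1 (30720, 25680) (by decide +kernel)
               (CovZ.n2 (30744, 25704) (by decide +kernel)
                (CovZ.badM (by decide +kernel))
                (CovZ.leaf K2_ok TD_l18858 _))
               (CovZ.badM (by decide +kernel))))
             (CovZ.badM (by decide +kernel)))))
          (CovZ.n1 (30816, 25440) (by decide +kernel)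
           (CovZ.n2 (30720, 25440) (by decide +kernel)
            (CovZ.n2 (30768, 25488) (by decide +kernel)
             (CovZ.n2 (30768, 25440) (by decide +kernel)
              (CovZ.n2 (30744, 25464) (by decide +kernel)
               (CovZ.badM (by decide +kernel))
               (CovZ.leaf K2_ok TD_l17998 _))
              (CovZ.badM (by decide +kernel)))
             (CovZ.n1 (30720, 25488) (by decide +kernel)
              (CovZ.badM (by decide +kernel))
              (CovZ.n1 (30744, 25464) (by decide +kernel)
               (CovZ.leaf K2_ok TD_l17999 _)
               (CovZ.badM (by decide +kernel)))))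
            (CovZ.n1 (30768, 25392) (by decide +kernel)
             (CovZ.n2 (30720, 25392) (by decide +kernel)
              (CovZ.n2 (30744, 25416) (by decide +kernel)
               (CovZ.leaf K2_ok TD_l13287 _)
               (CovZ.leaf K2_ok TD_l13288 _))
              (CovZ.leaf K2_ok TD_l13289 _))
             (CovZ.n1 (30768, 25440) (by decide +kernel)
              (CovZ.badM (by decide +kernel))
              (CovZ.n1 (30744, 25416) (by decide +kernel)
               (CovZ.leaf K2_ok TD_l13290 _)
               (CovZ.badM (by decide +kernel))))))
           (CovZ.n1 (30816, 25536) (by decide +kernel)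
            (CovZ.badM (by decide +kernel))
            (CovZ.n1 (30768, 25488) (by decide +kernel)
             (CovZ.badM (by decide +kernel))
             (CovZ.badM (by decide +kernel))))))
         (CovZ.subM 8749002899132047697490008908691341344509975764770761933295947240118247483906956062659253483253792768 (by decide +kernel)
          (CovZ.n1 (30912, 25728) (by decide +kernel)
           (CovZ.badM (by decide +kernel))
           (CovZ.n1 (30816, 25632) (by decide +kernel)
            (CovZ.n2 (30816, 25728) (by decide +kernel)
             (CovZ.badM (by decide +kernel))
             (CovZ.n1 (30768, 25680) (by decide +kernel)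
              (CovZ.n2 (30768, 25728) (by decide +kernel)
               (CovZ.badM (by decide +kernel))
               (CovZ.n1 (30744, 25704) (by decide +kernel)
                (CovZ.leaf K2_ok TD_l18859 _)
                (CovZ.badM (by decide +kernel))))
              (CovZ.badM (by decide +kernel))))
            (CovZ.badM (by decide +kernel)))))))))
     (CovZ.n1 (31104, 24960) (by decide +kernel)
      TD_u110
      TD_u111))

theorem TD_u113 : CovZ TD_M (toL (selN TD_LN 8749002899132063238841146714523908700205230352922389222701110606662783159081676723984903915849195664)) [0, 7, 6, 1] (31488, 25344) (32256, 26112) (30720, 26112) :=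
    (CovZ.n1 (31488, 26112) (by decide +kernel)
     (CovZ.subM 15541351137805832567355695254588151253139277013162314700637640813629506930003173965824 (by decide +kernel)
      (CovZ.n2 (31872, 25728) (by decide +kernel)
       (CovZ.n2 (31488, 25728) (by decide +kernel)
        (CovZ.n2 (31680, 25920) (by decide +kernel)
         (CovZ.badM (by decide +kernel))
         (CovZ.n1 (31488, 25920) (by decide +kernel)
          (CovZ.n2 (31584, 26016) (by decide +kernel)
           (CovZ.badM (by decide +kernel))
           (CovZ.n1 (31488, 26016) (by decide +kernel)
            (CovZ.n2 (31536, 26064) (by decide +kernel)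
             (CovZ.badM (by decide +kernel))
             (CovZ.n1 (31488, 26064) (by decide +kernel)
              (CovZ.n2 (31512, 26088) (by decide +kernel)
               (CovZ.badM (by decide +kernel))
               (CovZ.leaf K3_ok TD_l13423 _))
              (CovZ.badM (by decide +kernel))))
            (CovZ.badM (by decide +kernel))))
          (CovZ.badM (by decide +kernel))))
        (CovZ.badM (by decide +kernel)))
       (CovZ.n1 (31872, 26112) (by decide +kernel)
        (CovZ.badM (by decide +kernel))
        (CovZ.n1 (31680, 25920) (by decide +kernel)
         (CovZ.n2 (31680, 26112) (by decide +kernel)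
          (CovZ.badM (by decide +kernel))
          (CovZ.n1 (31584, 26016) (by decide +kernel)
           (CovZ.n2 (31584, 26112) (by decide +kernel)
            (CovZ.badM (by decide +kernel))
            (CovZ.n1 (31536, 26064) (by decide +kernel)
             (CovZ.n2 (31536, 26112) (by decide +kernel)
              (CovZ.badM (by decide +kernel))
              (CovZ.n1 (31512, 26088) (by decide +kernel)
               (CovZ.leaf K3_ok TD_l13424 _)
               (CovZ.badM (by decide +kernel))))
             (CovZ.badM (by decide +kernel))))
           (CovZ.badM (by decide +kernel))))
         (CovZ.badM (by decide +kernel))))))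
     (CovZ.n1 (31104, 25728) (by decide +kernel)
      (CovZ.subM 15541351137806053423238792552629349165326869877976793136124750265999272130778603978768 (by decide +kernel)
       (CovZ.n2 (31104, 26112) (by decide +kernel)
        (CovZ.n2 (31296, 25920) (by decide +kernel)
         (CovZ.n2 (31104, 25920) (by decide +kernel)
          (CovZ.n2 (31200, 26016) (by decide +kernel)
           (CovZ.badM (by decide +kernel))
           (CovZ.n1 (31104, 26016) (by decide +kernel)
            (CovZ.n2 (31152, 26064) (by decide +kernel)
             (CovZ.badM (by decide +kernel))
             (CovZ.n1 (31104, 26064) (by decide +kernel)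
              (CovZ.leaf K2_ok TD_l13434 _)
              (CovZ.leaf K2_ok TD_l13435 _)))
            (CovZ.badM (by decide +kernel))))
          (CovZ.badM (by decide +kernel)))
         (CovZ.n1 (31296, 26112) (by decide +kernel)
          (CovZ.n2 (31392, 26016) (by decide +kernel)
           (CovZ.n2 (31296, 26016) (by decide +kernel)
            (CovZ.n2 (31344, 26064) (by decide +kernel)
             (CovZ.badM (by decide +kernel))
             (CovZ.n1 (31296, 26064) (by decide +kernel)
              (CovZ.n2 (31320, 26088) (by decide +kernel)
               (CovZ.badM (by decide +kernel))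
               (CovZ.leaf K2_ok TD_l13440 _))
              (CovZ.badM (by decide +kernel))))
            (CovZ.badM (by decide +kernel)))
           (CovZ.n1 (31392, 26112) (by decide +kernel)
            (CovZ.n2 (31440, 26064) (by decide +kernel)
             (CovZ.n2 (31392, 26064) (by decide +kernel)
              (CovZ.n2 (31416, 26088) (by decide +kernel)
               (CovZ.badM (by decide +kernel))
               (CovZ.leaf K2_ok TD_l13441 _))
              (CovZ.badM (by decide +kernel)))
             (CovZ.n1 (31440, 26112) (by decide +kernel)
              (CovZ.leaf K2_ok TD_l13442 _)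
              (CovZ.n1 (31416, 26088) (by decide +kernel)
               (CovZ.leaf K2_ok TD_l13443 _)
               (CovZ.leaf K2_ok TD_l13444 _))))
            (CovZ.n1 (31344, 26064) (by decide +kernel)
             (CovZ.n2 (31344, 26112) (by decide +kernel)
              (CovZ.leaf K2_ok TD_l13445 _)
              (CovZ.n1 (31320, 26088) (by decide +kernel)
               (CovZ.leaf K2_ok TD_l13446 _)
               (CovZ.leaf K2_ok TD_l13447 _)))
             (CovZ.n1 (31392, 26064) (by decide +kernel)
              (CovZ.badM (by decide +kernel))
              (CovZ.n1 (31368, 26088) (by decide +kernel)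
               (CovZ.leaf K2_ok TD_l13448 _)
               (CovZ.badM (by decide +kernel)))))))
          (CovZ.n1 (31200, 26016) (by decide +kernel)
           (CovZ.n2 (31200, 26112) (by decide +kernel)
            (CovZ.n2 (31248, 26064) (by decide +kernel)
             (CovZ.n2 (31200, 26064) (by decide +kernel)
              (CovZ.leaf K2_ok TD_l13449 _)
              (CovZ.badM (by decide +kernel)))
             (CovZ.n1 (31248, 26112) (by decide +kernel)
              (CovZ.leaf K2_ok TD_l13451 _)
              (CovZ.n1 (31224, 26088) (by decide +kernel)
               (CovZ.leaf K2_ok TD_l13452 _)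
               (CovZ.leaf K2_ok TD_l13453 _))))
            (CovZ.n1 (31152, 26064) (by decide +kernel)
             (CovZ.n2 (31152, 26112) (by decide +kernel)
              (CovZ.leaf K2_ok TD_l13454 _)
              (CovZ.leaf K2_ok TD_l13455 _))
             (CovZ.n1 (31200, 26064) (by decide +kernel)
              (CovZ.badM (by decide +kernel))
              (CovZ.n1 (31176, 26088) (by decide +kernel)
               (CovZ.leaf K2_ok TD_l13458 _)
               (CovZ.badM (by decide +kernel))))))
           (CovZ.n1 (31296, 26016) (by decide +kernel)
            (CovZ.badM (by decide +kernel))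
            (CovZ.n1 (31248, 26064) (by decide +kernel)
             (CovZ.n2 (31296, 26064) (by decide +kernel)
              (CovZ.badM (by decide +kernel))
              (CovZ.n1 (31272, 26088) (by decide +kernel)
               (CovZ.leaf K2_ok TD_l13462 _)
               (CovZ.badM (by decide +kernel))))
             (CovZ.badM (by decide +kernel)))))))
        (CovZ.n1 (30912, 25920) (by decide +kernel)
         (CovZ.n2 (30912, 26112) (by decide +kernel)
          (CovZ.n2 (31008, 26016) (by decide +kernel)
           (CovZ.n2 (30912, 26016) (by decide +kernel)
            (CovZ.n2 (30960, 26064) (by decide +kernel)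
             (CovZ.n2 (30960, 26016) (by decide +kernel)
              (CovZ.leaf K2_ok TD_l13465 _)
              (CovZ.leaf K2_ok TD_l13466 _))
             (CovZ.leaf K2_ok TD_l13467 _))
            (CovZ.n1 (30960, 25968) (by decide +kernel)
             (CovZ.n2 (30912, 25968) (by decide +kernel)
              (CovZ.leaf K2_ok TD_l13468 _)
              (CovZ.leaf K2_ok TD_l13469 _))
             (CovZ.n1 (30960, 26016) (by decide +kernel)
              (CovZ.leaf K2_ok TD_l13470 _)
              (CovZ.leaf K2_ok TD_l13471 _))))
           (CovZ.n1 (31008, 26112) (by decide +kernel)
            (CovZ.n2 (31056, 26064) (by decide +kernel)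
             (CovZ.leaf K2_ok TD_l13472 _)
             (CovZ.n1 (31056, 26112) (by decide +kernel)
              (CovZ.leaf K3_ok TD_l13473 _)
              (CovZ.leaf K2_ok TD_l13474 _)))
            (CovZ.n1 (30960, 26064) (by decide +kernel)
             (CovZ.leaf K2_ok TD_l13475 _)
             (CovZ.n1 (31008, 26064) (by decide +kernel)
              (CovZ.leaf K2_ok TD_l13476 _)
              (CovZ.leaf K2_ok TD_l13477 _)))))
          (CovZ.n1 (30816, 26016) (by decide +kernel)
           (CovZ.n2 (30816, 26112) (by decide +kernel)
            (CovZ.leaf K2_ok TD_l13478 _)
            (CovZ.n1 (30768, 26064) (by decide +kernel)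
             (CovZ.leaf K3_ok TD_l13479 _)
             (CovZ.n1 (30816, 26064) (by decide +kernel)
              (CovZ.leaf K2_ok TD_l13480 _)
              (CovZ.leaf K3_ok TD_l13481 _))))
           (CovZ.n1 (30912, 26016) (by decide +kernel)
            (CovZ.n2 (30864, 25968) (by decide +kernel)
             (CovZ.n2 (30864, 26016) (by decide +kernel)
              (CovZ.leaf K2_ok TD_l13482 _)
              (CovZ.leaf K2_ok TD_l13483 _))
             (CovZ.n1 (30912, 25968) (by decide +kernel)
              (CovZ.leaf K2_ok TD_l13484 _)
              (CovZ.leaf K2_ok TD_l13485 _)))
            (CovZ.n1 (30864, 26064) (by decide +kernel)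
             (CovZ.n2 (30912, 26064) (by decide +kernel)
              (CovZ.leaf K2_ok TD_l13486 _)
              (CovZ.leaf K2_ok TD_l13487 _))
             (CovZ.n1 (30864, 26016) (by decide +kernel)
              (CovZ.leaf K2_ok TD_l13488 _)
              (CovZ.leaf K2_ok TD_l13489 _))))))
         (CovZ.n1 (31104, 25920) (by decide +kernel)
          (CovZ.n2 (31008, 25824) (by decide +kernel)
           (CovZ.n2 (31008, 25920) (by decide +kernel)
            (CovZ.badM (by decide +kernel))
            (CovZ.n1 (30960, 25872) (by decide +kernel)
             (CovZ.n2 (30960, 25920) (by decide +kernel)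
              (CovZ.leaf K2_ok TD_l13490 _)
              (CovZ.n1 (30936, 25896) (by decide +kernel)
               (CovZ.leaf K2_ok TD_l13491 _)
               (CovZ.leaf K2_ok TD_l13492 _)))
             (CovZ.badM (by decide +kernel))))
           (CovZ.badM (by decide +kernel)))
          (CovZ.n1 (31008, 26016) (by decide +kernel)
           (CovZ.n2 (31104, 26016) (by decide +kernel)
            (CovZ.n2 (31056, 25968) (by decide +kernel)
             (CovZ.n2 (31056, 26016) (by decide +kernel)
              (CovZ.leaf K3_ok TD_l13494 _)
              (CovZ.n1 (31032, 25992) (by decide +kernel)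
               (CovZ.leaf K2_ok TD_l13495 _)
               (CovZ.leaf K3_ok TD_l13496 _)))
             (CovZ.badM (by decide +kernel)))
            (CovZ.n1 (31056, 26064) (by decide +kernel)
             (CovZ.n2 (31104, 26064) (by decide +kernel)
              (CovZ.leaf K2_ok TD_l13498 _)
              (CovZ.leaf K2_ok TD_l13499 _))
             (CovZ.n1 (31056, 26016) (by decide +kernel)
              (CovZ.leaf K3_ok TD_l13500 _)
              (CovZ.leaf K3_ok TD_l13501 _))))
           (CovZ.n1 (31008, 25920) (by decide +kernel)
            (CovZ.n2 (30960, 25968) (by decide +kernel)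
             (CovZ.n2 (31008, 25968) (by decide +kernel)
              (CovZ.n2 (30984, 25944) (by decide +kernel)
               (CovZ.leaf K2_ok TD_l13502 _)
               (CovZ.leaf K2_ok TD_l18006 _))
              (CovZ.n1 (30984, 25992) (by decide +kernel)
               (CovZ.leaf K2_ok TD_l13503 _)
               (CovZ.leaf K2_ok TD_l13504 _)))
             (CovZ.n1 (30960, 25920) (by decide +kernel)
              (CovZ.n2 (30936, 25944) (by decide +kernel)
               (CovZ.leaf K2_ok TD_l13505 _)
               (CovZ.leaf K2_ok TD_l13506 _))
              (CovZ.n1 (30984, 25944) (by decide +kernel)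
               (CovZ.leaf K2_ok TD_l13507 _)
               (CovZ.leaf K2_ok TD_l13508 _))))
            (CovZ.n1 (31056, 25968) (by decide +kernel)
             (CovZ.badM (by decide +kernel))
             (CovZ.n1 (31008, 25968) (by decide +kernel)
              (CovZ.leaf K2_ok TD_l13509 _)
              (CovZ.leaf K2_ok TD_l18011 _)))))))))
      (CovZ.subM 15541351137805832567355695254588151253139277013162314700637640813629506930003173965824 (by decide +kernel)
       (CovZ.n1 (31488, 25728) (by decide +kernel)
        (CovZ.badM (by decide +kernel))
        (CovZ.n1 (31296, 25920) (by decide +kernel)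
         (CovZ.n2 (31488, 25920) (by decide +kernel)
          (CovZ.badM (by decide +kernel))
          (CovZ.n1 (31392, 26016) (by decide +kernel)
           (CovZ.n2 (31488, 26016) (by decide +kernel)
            (CovZ.badM (by decide +kernel))
            (CovZ.n1 (31440, 26064) (by decide +kernel)
             (CovZ.n2 (31488, 26064) (by decide +kernel)
              (CovZ.badM (by decide +kernel))
              (CovZ.n1 (31464, 26088) (by decide +kernel)
               (CovZ.leaf K3_ok TD_l13510 _)
               (CovZ.badM (by decide +kernel))))
             (CovZ.badM (by decide +kernel))))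
           (CovZ.badM (by decide +kernel))))
         (CovZ.badM (by decide +kernel)))))))

theorem TD_u114 : CovZ TD_M (toL (selN TD_LN 17498022503996387948760236620086929082192071653346366103775977035015643534450024063824620351898255360)) [0, 7, 6, 1] (26880, 27648) (27072, 27456) (27264, 27648) :=
    (CovZ.n2 (27072, 27648) (by decide +kernel)
          (CovZ.n2 (27168, 27552) (by decide +kernel)
           (CovZ.subM 17498005800301380063305436985977160102764773221075947021024501290505737333947969630390474966522920960 (by decide +kernel)
            (CovZ.n2 (27072, 27552) (by decide +kernel)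
             (CovZ.n2 (27120, 27600) (by decide +kernel)
              (CovZ.n2 (27120, 27552) (by decide +kernel)
               (CovZ.n2 (27096, 27576) (by decide +kernel)
                (CovZ.n2 (27120, 27576) (by decide +kernel)
                 (CovZ.leaf K2_ok TD_l17021 _)
                 (CovZ.leaf K3_ok TD_l17022 _))
                (CovZ.n1 (27096, 27552) (by decide +kernel)
                 (CovZ.leaf K2_ok TD_l17023 _)
                 (CovZ.leaf K3_ok TD_l17024 _)))
               (CovZ.n1 (27144, 27576) (by decide +kernel)
                (CovZ.n2 (27144, 27552) (by decide +kernel)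
                 (CovZ.leaf K3_ok TD_l17025 _)
                 (CovZ.leaf K3_ok TD_l17026 _))
                (CovZ.leaf K2_ok TD_l7268 _)))
              (CovZ.n1 (27072, 27600) (by decide +kernel)
               (CovZ.n2 (27096, 27624) (by decide +kernel)
                (CovZ.n2 (27096, 27600) (by decide +kernel)
                 (CovZ.leaf K3_ok TD_l17027 _)
                 (CovZ.leaf K2_ok TD_l17028 _))
                (CovZ.leaf K2_ok TD_l17029 _))
               (CovZ.leaf K2_ok TD_l17030 _)))
             (CovZ.n1 (27120, 27504) (by decide +kernel)
              (CovZ.subM 6901746346790563787434755862277025452451108972170386555162524223799296 (by decide +kernel)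
               (CovZ.n2 (27072, 27504) (by decide +kernel)
                (CovZ.n2 (27096, 27528) (by decide +kernel)
                 (CovZ.n2 (27096, 27504) (by decide +kernel)
                  (CovZ.badM (by decide +kernel))
                  (CovZ.n1 (27108, 27516) (by decide +kernel)
                   (CovZ.n2 (27108, 27504) (by decide +kernel)
                    (CovZ.leaf K3_ok TD_l18468 _)
                    (CovZ.leaf K3_ok TD_l18469 _))
                   (CovZ.leaf K2_ok TD_l18470 _)))
                 (CovZ.badM (by decide +kernel)))
                (CovZ.badM (by decide +kernel))))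
              (CovZ.n1 (27120, 27552) (by decide +kernel)
               (CovZ.leaf K3_ok TD_l17031 _)
               (CovZ.subM 248691987227721777372643601673354406079952430501128171877318996563422457517610079617024 (by decide +kernel)
                (CovZ.n1 (27096, 27528) (by decide +kernel)
                 (CovZ.n2 (27096, 27552) (by decide +kernel)
                  (CovZ.leaf K3_ok TD_l17032 _)
                  (CovZ.n1 (27084, 27540) (by decide +kernel)
                   (CovZ.leaf K3_ok TD_l18471 _)
                   (CovZ.leaf K3_ok TD_l18472 _)))
                 (CovZ.n1 (27120, 27528) (by decide +kernel)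
                  (CovZ.n2 (27108, 27516) (by decide +kernel)
                   (CovZ.leaf K3_ok TD_l18473 _)
                   (CovZ.leaf K3_ok TD_l18474 _))
                  (CovZ.leaf K3_ok TD_l17033 _))))))))
           (CovZ.n1 (27168, 27648) (by decide +kernel)
            (CovZ.n2 (27216, 27600) (by decide +kernel)
             (CovZ.n2 (27168, 27600) (by decide +kernel)
              (CovZ.n2 (27192, 27624) (by decide +kernel)
               (CovZ.leaf K3_ok TD_l7269 _)
               (CovZ.leaf K2_ok TD_l7270 _))
              (CovZ.leaf K2_ok TD_l7271 _))
             (CovZ.n1 (27216, 27648) (by decide +kernel)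
              (CovZ.leaf K3_ok TD_l7272 _)
              (CovZ.n1 (27192, 27624) (by decide +kernel)
               (CovZ.leaf K3_ok TD_l7273 _)
               (CovZ.leaf K3_ok TD_l7274 _))))
            (CovZ.n1 (27120, 27600) (by decide +kernel)
             (CovZ.n2 (27120, 27648) (by decide +kernel)
              (CovZ.leaf K2_ok TD_l7275 _)
              (CovZ.n1 (27096, 27624) (by decide +kernel)
               (CovZ.leaf K2_ok TD_l7276 _)
               (CovZ.leaf K2_ok TD_l7277 _)))
             (CovZ.n1 (27168, 27600) (by decide +kernel)
              (CovZ.n2 (27144, 27576) (by decide +kernel)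
               (CovZ.leaf K2_ok TD_l7278 _)
               (CovZ.leaf K3_ok TD_l7279 _))
              (CovZ.n1 (27144, 27624) (by decide +kernel)
               (CovZ.leaf K3_ok TD_l7280 _)
               (CovZ.leaf K2_ok TD_l7281 _))))))
          (CovZ.subM 17498022503996387918402329825078265127757052366486856047200798569107184482373804301274624265971302400 (by decide +kernel)
           (CovZ.n1 (26976, 27552) (by decide +kernel)
            (CovZ.n2 (26976, 27648) (by decide +kernel)
             (CovZ.n2 (27024, 27600) (by decide +kernel)
              (CovZ.n2 (26976, 27600) (by decide +kernel)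
               (CovZ.n2 (27000, 27624) (by decide +kernel)
                (CovZ.badM (by decide +kernel))
                (CovZ.leaf K2_ok TD_l17034 _))
               (CovZ.badM (by decide +kernel)))
              (CovZ.n1 (27024, 27648) (by decide +kernel)
               (CovZ.leaf K2_ok TD_l17035 _)
               (CovZ.n1 (27000, 27624) (by decide +kernel)
                (CovZ.leaf K2_ok TD_l17036 _)
                (CovZ.n1 (27024, 27624) (by decide +kernel)
                 (CovZ.leaf K2_ok TD_l17037 _)
                 (CovZ.leaf K2_ok TD_l17038 _)))))
             (CovZ.subM 16703695007885454799641118492605214485419340488104863499336797887653162225855811079018196762624 (by decide +kernel)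
              (CovZ.n1 (26928, 27600) (by decide +kernel)
               (CovZ.n2 (26928, 27648) (by decide +kernel)
                (CovZ.n2 (26952, 27624) (by decide +kernel)
                 (CovZ.leaf K2_ok TD_l17039 _)
                 (CovZ.leaf K2_ok TD_l17040 _))
                (CovZ.subM 16703695007885454799641118492394589902082226114709027442395443384131690248431464077284478025728 (by decide +kernel)
                 (CovZ.n1 (26904, 27624) (by decide +kernel)
                  (CovZ.n2 (26904, 27648) (by decide +kernel)
                   (CovZ.leaf K2_ok TD_l17041 _)
                   (CovZ.n1 (26892, 27636) (by decide +kernel)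
                    (CovZ.leaf K2_ok TD_l17042 _)
                    (CovZ.leaf K2_ok TD_l17043 _)))
                  (CovZ.n1 (26928, 27624) (by decide +kernel)
                   (CovZ.leaf K2_ok TD_l17044 _)
                   (CovZ.leaf K2_ok TD_l17045 _)))))
               (CovZ.n1 (26976, 27600) (by decide +kernel)
                (CovZ.n2 (26952, 27576) (by decide +kernel)
                 (CovZ.leaf K2_ok TD_l17046 _)
                 (CovZ.badM (by decide +kernel)))
                (CovZ.n1 (26952, 27624) (by decide +kernel)
                 (CovZ.n2 (26976, 27624) (by decide +kernel)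
                  (CovZ.leaf K2_ok TD_l17047 _)
                  (CovZ.leaf K2_ok TD_l17048 _))
                 (CovZ.n1 (26952, 27600) (by decide +kernel)
                  (CovZ.leaf K2_ok TD_l17049 _)
                  (CovZ.leaf K2_ok TD_l17050 _)))))))
            (CovZ.n1 (27072, 27552) (by decide +kernel)
             (CovZ.badM (by decide +kernel))
             (CovZ.n1 (27024, 27600) (by decide +kernel)
              (CovZ.n2 (27072, 27600) (by decide +kernel)
               (CovZ.n2 (27048, 27576) (by decide +kernel)
                (CovZ.leaf K2_ok TD_l17051 _)
                (CovZ.n1 (27072, 27576) (by decide +kernel)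
                 (CovZ.leaf K2_ok TD_l17052 _)
                 (CovZ.leaf K3_ok TD_l17053 _)))
               (CovZ.n1 (27048, 27624) (by decide +kernel)
                (CovZ.n2 (27072, 27624) (by decide +kernel)
                 (CovZ.leaf K2_ok TD_l17054 _)
                 (CovZ.leaf K2_ok TD_l17055 _))
                (CovZ.n1 (27048, 27600) (by decide +kernel)
                 (CovZ.leaf K2_ok TD_l17056 _)
                 (CovZ.leaf K2_ok TD_l17057 _))))
              (CovZ.n1 (27024, 27552) (by decide +kernel)
               (CovZ.badM (by decide +kernel))
               (CovZ.n1 (27048, 27576) (by decide +kernel)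
                (CovZ.badM (by decide +kernel))
                (CovZ.badM (by decide +kernel)))))))))

theorem TD_u115 : CovZ TD_M (toL (selN TD_LN 17498022503996387948760236620086929082192071653346366103775977035015643534450024063824620351898255360)) [0, 7, 6, 1] (27072, 27456) (27264, 27264) (27264, 27648) :=
    (CovZ.n1 (27264, 27456) (by decide +kernel)
          (CovZ.badM (by decide +kernel))
          (CovZ.n1 (27168, 27552) (by decide +kernel)
           (CovZ.n2 (27264, 27552) (by decide +kernel)
            (CovZ.n2 (27216, 27504) (by decide +kernel)
             (CovZ.n2 (27216, 27552) (by decide +kernel)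
              (CovZ.leaf K2_ok TD_l17058 _)
              (CovZ.n1 (27192, 27528) (by decide +kernel)
               (CovZ.leaf K3_ok TD_l17059 _)
               (CovZ.n1 (27216, 27528) (by decide +kernel)
                (CovZ.leaf K2_ok TD_l17060 _)
                (CovZ.leaf K3_ok TD_l17061 _))))
             (CovZ.subM 2037036006707214268706387863028157376344347308126797688087203492181294424458350653318627328 (by decide +kernel)
              (CovZ.n1 (27264, 27504) (by decide +kernel)
               (CovZ.n2 (27240, 27480) (by decide +kernel)
                (CovZ.n2 (27240, 27504) (by decide +kernel)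
                 (CovZ.leaf K3_ok TD_l17062 _)
                 (CovZ.leaf K2_ok TD_l17063 _))
                (CovZ.n1 (27264, 27480) (by decide +kernel)
                 (CovZ.n2 (27252, 27468) (by decide +kernel)
                  (CovZ.leaf K3_ok TD_l17064 _)
                  (CovZ.leaf K3_ok TD_l17065 _))
                 (CovZ.leaf K3_ok TD_l17066 _)))
               (CovZ.n1 (27240, 27528) (by decide +kernel)
                (CovZ.n2 (27264, 27528) (by decide +kernel)
                 (CovZ.leaf K3_ok TD_l17067 _)
                 (CovZ.leaf K2_ok TD_l17068 _))
                (CovZ.n1 (27240, 27504) (by decide +kernel)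
                 (CovZ.leaf K3_ok TD_l17069 _)
                 (CovZ.leaf K3_ok TD_l17070 _))))))
            (CovZ.n1 (27216, 27600) (by decide +kernel)
             (CovZ.n2 (27264, 27600) (by decide +kernel)
              (CovZ.n2 (27240, 27576) (by decide +kernel)
               (CovZ.leaf K3_ok TD_l7282 _)
               (CovZ.leaf K3_ok TD_l7283 _))
              (CovZ.n1 (27240, 27624) (by decide +kernel)
               (CovZ.leaf K3_ok TD_l7284 _)
               (CovZ.leaf K3_ok TD_l7285 _)))
             (CovZ.n1 (27216, 27552) (by decide +kernel)
              (CovZ.n2 (27192, 27576) (by decide +kernel)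
               (CovZ.leaf K3_ok TD_l7286 _)
               (CovZ.n1 (27192, 27552) (by decide +kernel)
                (CovZ.leaf K3_ok TD_l17071 _)
                (CovZ.leaf K3_ok TD_l17072 _)))
              (CovZ.n1 (27240, 27576) (by decide +kernel)
               (CovZ.leaf K3_ok TD_l7287 _)
               (CovZ.leaf K3_ok TD_l7288 _)))))
           (CovZ.subM 2037284668325419154960077295035479592342689552668113564437544154338505510075431755697881088 (by decide +kernel)
            (CovZ.n1 (27168, 27456) (by decide +kernel)
             (CovZ.n2 (27120, 27504) (by decide +kernel)
              (CovZ.n2 (27168, 27504) (by decide +kernel)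
               (CovZ.subM 248661618204893321077691124073410420050228075398673858720231988446579748506266687766528 (by decide +kernel)
                (CovZ.n2 (27144, 27480) (by decide +kernel)
                 (CovZ.n2 (27144, 27504) (by decide +kernel)
                  (CovZ.leaf K3_ok TD_l18475 _)
                  (CovZ.n1 (27132, 27492) (by decide +kernel)
                   (CovZ.leaf K3_ok TD_l18476 _)
                   (CovZ.n1 (27144, 27492) (by decide +kernel)
                    (CovZ.badM (by decide +kernel))
                    (CovZ.leaf K3_ok TD_l18477 _))))
                 (CovZ.badM (by decide +kernel))))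
               (CovZ.n1 (27144, 27528) (by decide +kernel)
                (CovZ.n2 (27168, 27528) (by decide +kernel)
                 (CovZ.n2 (27156, 27516) (by decide +kernel)
                  (CovZ.leaf K3_ok TD_l17073 _)
                  (CovZ.leaf K3_ok TD_l17074 _))
                 (CovZ.leaf K3_ok TD_l17075 _))
                (CovZ.subM 248691972406334354996170587456268324967900225282559500851360520185868474048247242948608 (by decide +kernel)
                 (CovZ.n1 (27144, 27504) (by decide +kernel)
                  (CovZ.n2 (27132, 27516) (by decide +kernel)
                   (CovZ.leaf K3_ok TD_l17076 _)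
                   (CovZ.leaf K3_ok TD_l17077 _))
                  (CovZ.n1 (27156, 27516) (by decide +kernel)
                   (CovZ.leaf K2_ok TD_l17078 _)
                   (CovZ.leaf K3_ok TD_l17079 _))))))
              (CovZ.badM (by decide +kernel)))
             (CovZ.n1 (27216, 27504) (by decide +kernel)
              (CovZ.n2 (27216, 27456) (by decide +kernel)
               (CovZ.n2 (27192, 27480) (by decide +kernel)
                (CovZ.n2 (27216, 27480) (by decide +kernel)
                 (CovZ.n2 (27204, 27468) (by decide +kernel)
                  (CovZ.leaf K3_ok TD_l17080 _)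
                  (CovZ.leaf K3_ok TD_l17081 _))
                 (CovZ.leaf K3_ok TD_l17082 _))
                (CovZ.subM 2037035976334486086268445688409779895562533141234821741159225740005011850511782404392222720 (by decide +kernel)
                 (CovZ.n1 (27192, 27456) (by decide +kernel)
                  (CovZ.badM (by decide +kernel))
                  (CovZ.n1 (27204, 27468) (by decide +kernel)
                   (CovZ.n2 (27204, 27456) (by decide +kernel)
                    (CovZ.leaf K3_ok TD_l17084 _)
                    (CovZ.leaf K2_ok TD_l17085 _))
                   (CovZ.leaf K3_ok TD_l17086 _)))))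
               (CovZ.n1 (27240, 27480) (by decide +kernel)
                (CovZ.n2 (27240, 27456) (by decide +kernel)
                 (CovZ.n2 (27228, 27468) (by decide +kernel)
                  (CovZ.leaf K3_ok TD_l17087 _)
                  (CovZ.leaf K3_ok TD_l17088 _))
                 (CovZ.n1 (27252, 27468) (by decide +kernel)
                  (CovZ.leaf K3_ok TD_l17089 _)
                  (CovZ.leaf K2_ok TD_l17090 _)))
                (CovZ.leaf K3_ok TD_l17091 _)))
              (CovZ.n1 (27168, 27504) (by decide +kernel)
               (CovZ.n2 (27192, 27528) (by decide +kernel)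
                (CovZ.n2 (27192, 27504) (by decide +kernel)
                 (CovZ.leaf K3_ok TD_l17092 _)
                 (CovZ.leaf K3_ok TD_l17093 _))
                (CovZ.leaf K3_ok TD_l17094 _))
               (CovZ.n1 (27192, 27480) (by decide +kernel)
                (CovZ.badM (by decide +kernel))
                (CovZ.n1 (27192, 27504) (by decide +kernel)
                 (CovZ.leaf K3_ok TD_l17097 _)
                 (CovZ.n1 (27180, 27492) (by decide +kernel)
                  (CovZ.leaf K3_ok TD_l17098 _)
                  (CovZ.leaf K3_ok TD_l17099 _))))))))))

theorem TD_u116 : CovZ TD_M (toL (selN TD_LN 18348006972759929206322548428622235810278736324380555132433999241451702434993356201848025531855588968894482)) [0, 7, 6, 1] (26880, 26880) (27264, 27264) (26880, 27648) :=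
    (CovZ.subM 17498022501959103280434817458121579034536372603458727003194100816077435026973252759623252850444861440 (by decide +kernel)
       (CovZ.n2 (26880, 27264) (by decide +kernel)
        (CovZ.n2 (27072, 27456) (by decide +kernel)
         (CovZ.badM (by decide +kernel))
         (CovZ.n1 (26880, 27456) (by decide +kernel)
          (CovZ.n2 (26976, 27552) (by decide +kernel)
           (CovZ.badM (by decide +kernel))
           (CovZ.subM 16703695007885454799641118492394589902082226114709027442395443384131690248431464077284478025728 (by decide +kernel)
            (CovZ.n1 (26880, 27552) (by decide +kernel)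
             (CovZ.n2 (26928, 27600) (by decide +kernel)
              (CovZ.n2 (26928, 27552) (by decide +kernel)
               (CovZ.n2 (26904, 27576) (by decide +kernel)
                (CovZ.n2 (26928, 27576) (by decide +kernel)
                 (CovZ.badM (by decide +kernel))
                 (CovZ.n1 (26916, 27588) (by decide +kernel)
                  (CovZ.leaf K2_ok TD_l16952 _)
                  (CovZ.leaf K2_ok TD_l18455 _)))
                (CovZ.badM (by decide +kernel)))
               (CovZ.n1 (26952, 27576) (by decide +kernel)
                (CovZ.badM (by decide +kernel))
                (CovZ.n1 (26928, 27576) (by decide +kernel)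
                 (CovZ.n2 (26940, 27588) (by decide +kernel)
                  (CovZ.badM (by decide +kernel))
                  (CovZ.leaf K2_ok TD_l16953 _))
                 (CovZ.badM (by decide +kernel)))))
              (CovZ.n1 (26880, 27600) (by decide +kernel)
               (CovZ.n2 (26904, 27624) (by decide +kernel)
                (CovZ.n2 (26904, 27600) (by decide +kernel)
                 (CovZ.n2 (26892, 27612) (by decide +kernel)
                  (CovZ.leaf K2_ok TD_l16954 _)
                  (CovZ.leaf K2_ok TD_l16955 _))
                 (CovZ.n1 (26916, 27612) (by decide +kernel)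
                  (CovZ.leaf K2_ok TD_l16956 _)
                  (CovZ.leaf K2_ok TD_l16957 _)))
                (CovZ.leaf K2_ok TD_l16958 _))
               (CovZ.n1 (26904, 27576) (by decide +kernel)
                (CovZ.badM (by decide +kernel))
                (CovZ.n1 (26904, 27600) (by decide +kernel)
                 (CovZ.leaf K2_ok TD_l16959 _)
                 (CovZ.n1 (26892, 27588) (by decide +kernel)
                  (CovZ.leaf K2_ok TD_l18456 _)
                  (CovZ.leaf K2_ok TD_l18457 _))))))
             (CovZ.badM (by decide +kernel)))))
          (CovZ.badM (by decide +kernel))))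
        (CovZ.badM (by decide +kernel))))

theorem TD_u117 : CovZ TD_M (toL (selN TD_LN 18348006972759929206322548428622235810278736324380555132433999241451702434993356201848025531855588968894482)) [0, 7, 6, 1] (27264, 27264) (27648, 27648) (26880, 27648) :=
    (CovZ.n1 (27264, 27648) (by decide +kernel)
       (CovZ.n2 (27456, 27456) (by decide +kernel)
        (CovZ.subM 17498009972151059596332970618902723545806666576337928923581815292202514839535248483435649782500032512 (by decide +kernel)
         (CovZ.n2 (27264, 27456) (by decide +kernel)
          (CovZ.n2 (27360, 27552) (by decide +kernel)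
           (CovZ.n2 (27360, 27456) (by decide +kernel)
            (CovZ.n2 (27312, 27504) (by decide +kernel)
             (CovZ.n2 (27360, 27504) (by decide +kernel)
              (CovZ.n2 (27336, 27480) (by decide +kernel)
               (CovZ.leaf K3_ok TD_l16960 _)
               (CovZ.n1 (27360, 27480) (by decide +kernel)
                (CovZ.leaf K3_ok TD_l16961 _)
                (CovZ.leaf K3_ok TD_l16962 _)))
              (CovZ.n1 (27336, 27528) (by decide +kernel)
               (CovZ.leaf K3_ok TD_l16963 _)
               (CovZ.leaf K3_ok TD_l16964 _)))
             (CovZ.subM 4173886715539734747894498996667280157072858631643769059235604322235353720974211973706514694144 (by decide +kernel)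
              (CovZ.n1 (27312, 27456) (by decide +kernel)
               (CovZ.n2 (27288, 27480) (by decide +kernel)
                (CovZ.n2 (27312, 27480) (by decide +kernel)
                 (CovZ.leaf K3_ok TD_l16965 _)
                 (CovZ.leaf K3_ok TD_l16966 _))
                (CovZ.n1 (27288, 27456) (by decide +kernel)
                 (CovZ.n2 (27276, 27468) (by decide +kernel)
                  (CovZ.leaf K3_ok TD_l16967 _)
                  (CovZ.leaf K3_ok TD_l16968 _))
                 (CovZ.leaf K3_ok TD_l16969 _)))
               (CovZ.n1 (27336, 27480) (by decide +kernel)
                (CovZ.n2 (27336, 27456) (by decide +kernel)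
                 (CovZ.leaf K3_ok TD_l16970 _)
                 (CovZ.leaf K3_ok TD_l16971 _))
                (CovZ.leaf K3_ok TD_l16972 _)))))
            (CovZ.n1 (27408, 27504) (by decide +kernel)
             (CovZ.n2 (27408, 27456) (by decide +kernel)
              (CovZ.n2 (27384, 27480) (by decide +kernel)
               (CovZ.leaf K3_ok TD_l16973 _)
               (CovZ.n1 (27384, 27456) (by decide +kernel)
                (CovZ.leaf K3_ok TD_l16974 _)
                (CovZ.leaf K2_ok TD_l16975 _)))
              (CovZ.n1 (27432, 27480) (by decide +kernel)
               (CovZ.n2 (27432, 27456) (by decide +kernel)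
                (CovZ.leaf K3_ok TD_l16976 _)
                (CovZ.leaf K3_ok TD_l16977 _))
               (CovZ.leaf K3_ok TD_l16978 _)))
             (CovZ.n1 (27360, 27504) (by decide +kernel)
              (CovZ.n2 (27384, 27528) (by decide +kernel)
               (CovZ.leaf K3_ok TD_l16979 _)
               (CovZ.leaf K3_ok TD_l16980 _))
              (CovZ.leaf K3_ok TD_l16981 _))))
           (CovZ.n1 (27264, 27552) (by decide +kernel)
            (CovZ.n2 (27312, 27600) (by decide +kernel)
             (CovZ.n2 (27312, 27552) (by decide +kernel)
              (CovZ.n2 (27288, 27576) (by decide +kernel)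
               (CovZ.leaf K3_ok TD_l7232 _)
               (CovZ.leaf K3_ok TD_l7233 _))
              (CovZ.n1 (27336, 27576) (by decide +kernel)
               (CovZ.leaf K3_ok TD_l7234 _)
               (CovZ.leaf K3_ok TD_l7235 _)))
             (CovZ.n1 (27264, 27600) (by decide +kernel)
              (CovZ.n2 (27288, 27624) (by decide +kernel)
               (CovZ.leaf K3_ok TD_l7236 _)
               (CovZ.leaf K3_ok TD_l7237 _))
              (CovZ.leaf K3_ok TD_l7238 _)))
            (CovZ.n1 (27312, 27504) (by decide +kernel)
             (CovZ.n2 (27264, 27504) (by decide +kernel)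
              (CovZ.n2 (27288, 27528) (by decide +kernel)
               (CovZ.n2 (27288, 27504) (by decide +kernel)
                (CovZ.leaf K2_ok TD_l16982 _)
                (CovZ.leaf K3_ok TD_l16983 _))
               (CovZ.leaf K3_ok TD_l16984 _))
              (CovZ.n1 (27288, 27480) (by decide +kernel)
               (CovZ.leaf K3_ok TD_l16985 _)
               (CovZ.n1 (27288, 27504) (by decide +kernel)
                (CovZ.leaf K3_ok TD_l16986 _)
                (CovZ.leaf K3_ok TD_l16987 _))))
             (CovZ.n1 (27312, 27552) (by decide +kernel)
              (CovZ.leaf K3_ok TD_l16988 _)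
              (CovZ.n1 (27288, 27528) (by decide +kernel)
               (CovZ.leaf K2_ok TD_l16989 _)
               (CovZ.n1 (27312, 27528) (by decide +kernel)
                (CovZ.leaf K3_ok TD_l16990 _)
                (CovZ.leaf K3_ok TD_l16991 _)))))))
          (CovZ.subM 4171849679533046060367203534245754186617689680333770912922315002620546113899280133220961615872 (by decide +kernel)
           (CovZ.n1 (27360, 27360) (by decide +kernel)
            (CovZ.subM 4171849679533027533625799510550602004136390237072055796934402584882224672428869273899644223488 (by decide +kernel)
             (CovZ.n2 (27264, 27360) (by decide +kernel)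
              (CovZ.n2 (27312, 27408) (by decide +kernel)
               (CovZ.n2 (27312, 27360) (by decide +kernel)
                (CovZ.badM (by decide +kernel))
                (CovZ.n1 (27336, 27384) (by decide +kernel)
                 (CovZ.badM (by decide +kernel))
                 (CovZ.n1 (27312, 27384) (by decide +kernel)
                  (CovZ.n2 (27324, 27396) (by decide +kernel)
                   (CovZ.leaf K3_ok TD_l18458 _)
                   (CovZ.badM (by decide +kernel)))
                  (CovZ.badM (by decide +kernel)))))
               (CovZ.n1 (27264, 27408) (by decide +kernel)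
                (CovZ.n2 (27288, 27432) (by decide +kernel)
                 (CovZ.n2 (27288, 27408) (by decide +kernel)
                  (CovZ.badM (by decide +kernel))
                  (CovZ.n1 (27300, 27420) (by decide +kernel)
                   (CovZ.leaf K3_ok TD_l18459 _)
                   (CovZ.leaf K3_ok TD_l18460 _)))
                 (CovZ.badM (by decide +kernel)))
                (CovZ.badM (by decide +kernel))))
              (CovZ.badM (by decide +kernel))))
            (CovZ.n1 (27360, 27456) (by decide +kernel)
             (CovZ.n2 (27408, 27408) (by decide +kernel)
              (CovZ.n2 (27360, 27408) (by decide +kernel)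
               (CovZ.n2 (27384, 27432) (by decide +kernel)
                (CovZ.n2 (27384, 27408) (by decide +kernel)
                 (CovZ.leaf K3_ok TD_l16992 _)
                 (CovZ.leaf K2_ok TD_l16993 _))
                (CovZ.leaf K3_ok TD_l16994 _))
               (CovZ.subM 4171849679533046031419180793556735502301535045720894993280017912781785139246960146625412988928 (by decide +kernel)
                (CovZ.n1 (27384, 27384) (by decide +kernel)
                 (CovZ.leaf K3_ok TD_l16995 _)
                 (CovZ.n1 (27384, 27408) (by decide +kernel)
                  (CovZ.leaf K2_ok TD_l16996 _)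
                  (CovZ.n1 (27372, 27396) (by decide +kernel)
                   (CovZ.leaf K3_ok TD_l16997 _)
                   (CovZ.leaf K3_ok TD_l16998 _))))))
              (CovZ.n1 (27408, 27456) (by decide +kernel)
               (CovZ.leaf K2_ok TD_l16999 _)
               (CovZ.n1 (27384, 27432) (by decide +kernel)
                (CovZ.leaf K3_ok TD_l17000 _)
                (CovZ.n1 (27408, 27432) (by decide +kernel)
                 (CovZ.leaf K2_ok TD_l17001 _)
                 (CovZ.leaf K3_ok TD_l17002 _)))))
             (CovZ.n1 (27312, 27408) (by decide +kernel)
              (CovZ.n2 (27312, 27456) (by decide +kernel)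
               (CovZ.n2 (27336, 27432) (by decide +kernel)
                (CovZ.leaf K3_ok TD_l17003 _)
                (CovZ.leaf K3_ok TD_l17004 _))
               (CovZ.n1 (27288, 27432) (by decide +kernel)
                (CovZ.n2 (27288, 27456) (by decide +kernel)
                 (CovZ.leaf K3_ok TD_l17005 _)
                 (CovZ.n1 (27276, 27444) (by decide +kernel)
                  (CovZ.leaf K3_ok TD_l17006 _)
                  (CovZ.leaf K3_ok TD_l17007 _)))
                (CovZ.n1 (27312, 27432) (by decide +kernel)
                 (CovZ.leaf K3_ok TD_l17008 _)
                 (CovZ.n1 (27300, 27444) (by decide +kernel)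
                  (CovZ.leaf K3_ok TD_l17009 _)
                  (CovZ.leaf K3_ok TD_l17010 _)))))
              (CovZ.n1 (27360, 27408) (by decide +kernel)
               (CovZ.subM 4171849679533042326072269985467707623519715289660945515993031969292081836823780344477805182976 (by decide +kernel)
                (CovZ.n2 (27336, 27384) (by decide +kernel)
                 (CovZ.n2 (27336, 27408) (by decide +kernel)
                  (CovZ.leaf K3_ok TD_l17011 _)
                  (CovZ.n1 (27324, 27396) (by decide +kernel)
                   (CovZ.leaf K2_ok TD_l18461 _)
                   (CovZ.leaf K3_ok TD_l18462 _)))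
                 (CovZ.n1 (27360, 27384) (by decide +kernel)
                  (CovZ.n2 (27348, 27372) (by decide +kernel)
                   (CovZ.leaf K3_ok TD_l18463 _)
                   (CovZ.leaf K3_ok TD_l18464 _))
                  (CovZ.n1 (27348, 27396) (by decide +kernel)
                   (CovZ.leaf K3_ok TD_l17012 _)
                   (CovZ.n1 (27348, 27384) (by decide +kernel)
                    (CovZ.leaf K3_ok TD_l18465 _)
                    (CovZ.leaf K3_ok TD_l18466 _))))))
               (CovZ.n1 (27336, 27432) (by decide +kernel)
                (CovZ.n2 (27360, 27432) (by decide +kernel)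
                 (CovZ.leaf K3_ok TD_l17013 _)
                 (CovZ.leaf K3_ok TD_l17014 _))
                (CovZ.n1 (27336, 27408) (by decide +kernel)
                 (CovZ.n2 (27324, 27420) (by decide +kernel)
                  (CovZ.leaf K2_ok TD_l17015 _)
                  (CovZ.leaf K2_ok TD_l18467 _))
                 (CovZ.leaf K3_ok TD_l17016 _))))))))))
        (CovZ.n1 (27456, 27648) (by decide +kernel)
         (CovZ.n2 (27552, 27552) (by decide +kernel)
          (CovZ.subM 4171913336907302807724678639273017283469472656634797897015371331940671657736624230559030186000 (by decide +kernel)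
           (CovZ.n2 (27456, 27552) (by decide +kernel)
            (CovZ.n2 (27504, 27600) (by decide +kernel)
             (CovZ.n2 (27504, 27552) (by decide +kernel)
              (CovZ.leaf K3_ok TD_l7239 _)
              (CovZ.leaf K3_ok TD_l7240 _))
             (CovZ.leaf K3_ok TD_l7241 _))
            (CovZ.n1 (27504, 27504) (by decide +kernel)
             (CovZ.n2 (27456, 27504) (by decide +kernel)
              (CovZ.n2 (27480, 27528) (by decide +kernel)
               (CovZ.leaf K3_ok TD_l7242 _)
               (CovZ.leaf K3_ok TD_l7243 _))
              (CovZ.leaf K3_ok TD_l17017 _))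
             (CovZ.n1 (27504, 27552) (by decide +kernel)
              (CovZ.leaf K3_ok TD_l7244 _)
              (CovZ.n1 (27480, 27528) (by decide +kernel)
               (CovZ.leaf K3_ok TD_l7245 _)
               (CovZ.leaf K3_ok TD_l7246 _))))))
          (CovZ.n1 (27552, 27648) (by decide +kernel)
           (CovZ.leaf K3_ok TD_l7247 _)
           (CovZ.n1 (27504, 27600) (by decide +kernel)
            (CovZ.leaf K3_ok TD_l7248 _)
            (CovZ.n1 (27552, 27600) (by decide +kernel)
             (CovZ.leaf K3_ok TD_l7249 _)
             (CovZ.leaf K3_ok TD_l7250 _)))))
         (CovZ.subM 17498009972151059596332970618902757245741607452681931247626216032156268038030589725140287511036170256 (by decide +kernel)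
          (CovZ.n1 (27360, 27552) (by decide +kernel)
           (CovZ.n2 (27360, 27648) (by decide +kernel)
            (CovZ.n2 (27408, 27600) (by decide +kernel)
             (CovZ.leaf K3_ok TD_l7251 _)
             (CovZ.n1 (27408, 27648) (by decide +kernel)
              (CovZ.leaf K3_ok TD_l7252 _)
              (CovZ.leaf K3_ok TD_l7253 _)))
            (CovZ.n1 (27312, 27600) (by decide +kernel)
             (CovZ.n2 (27312, 27648) (by decide +kernel)
              (CovZ.leaf K2_ok TD_l7254 _)
              (CovZ.n1 (27288, 27624) (by decide +kernel)
               (CovZ.leaf K3_ok TD_l7255 _)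
               (CovZ.leaf K3_ok TD_l7256 _)))
             (CovZ.n1 (27360, 27600) (by decide +kernel)
              (CovZ.n2 (27336, 27576) (by decide +kernel)
               (CovZ.leaf K3_ok TD_l7257 _)
               (CovZ.leaf K3_ok TD_l7258 _))
              (CovZ.leaf K3_ok TD_l7259 _))))
           (CovZ.n1 (27456, 27552) (by decide +kernel)
            (CovZ.n2 (27408, 27504) (by decide +kernel)
             (CovZ.n2 (27408, 27552) (by decide +kernel)
              (CovZ.leaf K3_ok TD_l7260 _)
              (CovZ.n1 (27384, 27528) (by decide +kernel)
               (CovZ.leaf K3_ok TD_l7261 _)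
               (CovZ.leaf K3_ok TD_l7262 _)))
             (CovZ.subM 4171849679533046060367203534244934649784488810111263381132006369708479623287758787656683618304 (by decide +kernel)
              (CovZ.n1 (27456, 27504) (by decide +kernel)
               (CovZ.n2 (27432, 27480) (by decide +kernel)
                (CovZ.leaf K3_ok TD_l17018 _)
                (CovZ.leaf K3_ok TD_l17019 _))
               (CovZ.n1 (27432, 27528) (by decide +kernel)
                (CovZ.leaf K3_ok TD_l7263 _)
                (CovZ.leaf K3_ok TD_l17020 _)))))
            (CovZ.n1 (27408, 27600) (by decide +kernel)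
             (CovZ.n2 (27456, 27600) (by decide +kernel)
              (CovZ.leaf K3_ok TD_l7264 _)
              (CovZ.leaf K3_ok TD_l7265 _))
             (CovZ.n1 (27408, 27552) (by decide +kernel)
              (CovZ.leaf K3_ok TD_l7266 _)
              (CovZ.leaf K3_ok TD_l7267 _))))))))
       (CovZ.subM 17498022503996387948760236620086929082192071653346366103775977035015643534450024063824620351898255360 (by decide +kernel)
        (CovZ.n1 (27072, 27456) (by decide +kernel)
         TD_u114
         TD_u115)))

theorem TD_u118 : CovZ TD_M (toL (selN TD_LN 1146749478873998629485987774107232569967701140633345868879898636777982026398394733364657870991744008978448)) [0, 7, 6, 1] (28416, 26880) (28800, 26496) (29184, 26880) :=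
    (CovZ.n2 (28800, 26880) (by decide +kernel)
         (CovZ.n2 (28992, 26688) (by decide +kernel)
          (CovZ.subM 1146749307995035755813181123219946386681960342211434637495364047049669996129249653673964893695883677270016 (by decide +kernel)
           (CovZ.n2 (28800, 26688) (by decide +kernel)
            (CovZ.n2 (28896, 26784) (by decide +kernel)
             (CovZ.n2 (28896, 26688) (by decide +kernel)
              (CovZ.n2 (28848, 26736) (by decide +kernel)
               (CovZ.n2 (28896, 26736) (by decide +kernel)
                (CovZ.badM (by decide +kernel))
                (CovZ.n1 (28872, 26760) (by decide +kernel)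
                 (CovZ.n2 (28896, 26760) (by decide +kernel)
                  (CovZ.leaf K2_ok TD_l18502 _)
                  (CovZ.leaf K2_ok TD_l18503 _))
                 (CovZ.n1 (28872, 26736) (by decide +kernel)
                  (CovZ.leaf K2_ok TD_l18504 _)
                  (CovZ.leaf K2_ok TD_l18505 _))))
               (CovZ.badM (by decide +kernel)))
              (CovZ.n1 (28944, 26736) (by decide +kernel)
               (CovZ.badM (by decide +kernel))
               (CovZ.n1 (28896, 26736) (by decide +kernel)
                (CovZ.n2 (28920, 26760) (by decide +kernel)
                 (CovZ.n2 (28920, 26736) (by decide +kernel)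
                  (CovZ.leaf K2_ok TD_l18506 _)
                  (CovZ.leaf K3_ok TD_l18507 _))
                 (CovZ.leaf K3_ok TD_l18508 _))
                (CovZ.badM (by decide +kernel)))))
             (CovZ.n1 (28800, 26784) (by decide +kernel)
              (CovZ.n2 (28848, 26832) (by decide +kernel)
               (CovZ.n2 (28848, 26784) (by decide +kernel)
                (CovZ.n2 (28824, 26808) (by decide +kernel)
                 (CovZ.leaf K2_ok TD_l18509 _)
                 (CovZ.n1 (28824, 26784) (by decide +kernel)
                  (CovZ.leaf K2_ok TD_l18510 _)
                  (CovZ.leaf K2_ok TD_l18511 _)))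
                (CovZ.n1 (28872, 26808) (by decide +kernel)
                 (CovZ.leaf K3_ok TD_l18512 _)
                 (CovZ.leaf K3_ok TD_l18513 _)))
               (CovZ.n1 (28800, 26832) (by decide +kernel)
                (CovZ.n2 (28824, 26856) (by decide +kernel)
                 (CovZ.leaf K3_ok TD_l9150 _)
                 (CovZ.leaf K3_ok TD_l9151 _))
                (CovZ.leaf K3_ok TD_l18514 _)))
              (CovZ.n1 (28848, 26736) (by decide +kernel)
               (CovZ.n2 (28800, 26736) (by decide +kernel)
                (CovZ.n2 (28824, 26760) (by decide +kernel)
                 (CovZ.badM (by decide +kernel))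
                 (CovZ.leaf K2_ok TD_l18515 _))
                (CovZ.badM (by decide +kernel)))
               (CovZ.n1 (28848, 26784) (by decide +kernel)
                (CovZ.leaf K2_ok TD_l18516 _)
                (CovZ.n1 (28824, 26760) (by decide +kernel)
                 (CovZ.leaf K2_ok TD_l18517 _)
                 (CovZ.n1 (28848, 26760) (by decide +kernel)
                  (CovZ.badM (by decide +kernel))
                  (CovZ.leaf K3_ok TD_l18518 _)))))))
            (CovZ.badM (by decide +kernel))))
          (CovZ.n1 (28992, 26880) (by decide +kernel)
           (CovZ.n2 (29088, 26784) (by decide +kernel)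
            (CovZ.subM 7770675568902916499357420964499193983905748052365603474104405021715167207379376799760 (by decide +kernel)
             (CovZ.n2 (28992, 26784) (by decide +kernel)
              (CovZ.n2 (29040, 26832) (by decide +kernel)
               (CovZ.n2 (29040, 26784) (by decide +kernel)
                (CovZ.n2 (29016, 26808) (by decide +kernel)
                 (CovZ.leaf K3_ok TD_l9152 _)
                 (CovZ.leaf K3_ok TD_l9153 _))
                (CovZ.n1 (29064, 26808) (by decide +kernel)
                 (CovZ.leaf K3_ok TD_l9154 _)
                 (CovZ.leaf K3_ok TD_l9155 _)))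
               (CovZ.n1 (28992, 26832) (by decide +kernel)
                (CovZ.leaf K3_ok TD_l9156 _)
                (CovZ.leaf K3_ok TD_l9157 _)))
              (CovZ.n1 (29040, 26736) (by decide +kernel)
               (CovZ.n2 (28992, 26736) (by decide +kernel)
                (CovZ.n2 (29016, 26760) (by decide +kernel)
                 (CovZ.leaf K3_ok TD_l9158 _)
                 (CovZ.leaf K3_ok TD_l9159 _))
                (CovZ.badM (by decide +kernel)))
               (CovZ.n1 (29040, 26784) (by decide +kernel)
                (CovZ.leaf K3_ok TD_l9161 _)
                (CovZ.n1 (29016, 26760) (by decide +kernel)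
                 (CovZ.leaf K3_ok TD_l9162 _)
                 (CovZ.leaf K3_ok TD_l9163 _))))))
            (CovZ.n1 (29088, 26880) (by decide +kernel)
             (CovZ.leaf K3_ok TD_l9164 _)
             (CovZ.subM 136703170298946015948850292111350692755537588624856451077057617397478684769629631425305942782115856 (by decide +kernel)
              (CovZ.n1 (29040, 26832) (by decide +kernel)
               (CovZ.leaf K2_ok TD_l9165 _)
               (CovZ.n1 (29088, 26832) (by decide +kernel)
                (CovZ.n2 (29064, 26808) (by decide +kernel)
                 (CovZ.leaf K3_ok TD_l9166 _)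
                 (CovZ.leaf K2_ok TD_l9167 _))
                (CovZ.leaf K3_ok TD_l9168 _))))))
           (CovZ.subM 1146749307995035755813181182505496076403531972416984080300908988620059190326315616601820569648031391023120 (by decide +kernel)
            (CovZ.n1 (28896, 26784) (by decide +kernel)
             (CovZ.n2 (28896, 26880) (by decide +kernel)
              (CovZ.n2 (28944, 26832) (by decide +kernel)
               (CovZ.n2 (28896, 26832) (by decide +kernel)
                (CovZ.n2 (28920, 26856) (by decide +kernel)
                 (CovZ.leaf K3_ok TD_l9169 _)
                 (CovZ.leaf K3_ok TD_l9170 _))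
                (CovZ.leaf K3_ok TD_l9171 _))
               (CovZ.n1 (28944, 26880) (by decide +kernel)
                (CovZ.leaf K3_ok TD_l9172 _)
                (CovZ.n1 (28920, 26856) (by decide +kernel)
                 (CovZ.leaf K3_ok TD_l9173 _)
                 (CovZ.leaf K3_ok TD_l9174 _))))
              (CovZ.n1 (28848, 26832) (by decide +kernel)
               (CovZ.n2 (28848, 26880) (by decide +kernel)
                (CovZ.leaf K3_ok TD_l9175 _)
                (CovZ.n1 (28824, 26856) (by decide +kernel)
                 (CovZ.leaf K3_ok TD_l9176 _)
                 (CovZ.leaf K3_ok TD_l9177 _)))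
               (CovZ.n1 (28896, 26832) (by decide +kernel)
                (CovZ.n2 (28872, 26808) (by decide +kernel)
                 (CovZ.leaf K3_ok TD_l9178 _)
                 (CovZ.leaf K3_ok TD_l9179 _))
                (CovZ.n1 (28872, 26856) (by decide +kernel)
                 (CovZ.leaf K3_ok TD_l9180 _)
                 (CovZ.leaf K3_ok TD_l9181 _)))))
             (CovZ.n1 (28992, 26784) (by decide +kernel)
              (CovZ.subM 1146749307995035755813181123219946386681960342211434637495364047049669996129249653673964893695883677270016 (by decide +kernel)
               (CovZ.n2 (28944, 26736) (by decide +kernel)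
                (CovZ.n2 (28944, 26784) (by decide +kernel)
                 (CovZ.leaf K3_ok TD_l9182 _)
                 (CovZ.n1 (28920, 26760) (by decide +kernel)
                  (CovZ.leaf K3_ok TD_l17718 _)
                  (CovZ.leaf K3_ok TD_l17719 _)))
                (CovZ.n1 (28992, 26736) (by decide +kernel)
                 (CovZ.badM (by decide +kernel))
                 (CovZ.n1 (28968, 26760) (by decide +kernel)
                  (CovZ.leaf K3_ok TD_l9183 _)
                  (CovZ.leaf K3_ok TD_l17720 _)))))
              (CovZ.n1 (28944, 26832) (by decide +kernel)
               (CovZ.n2 (28992, 26832) (by decide +kernel)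
                (CovZ.n2 (28968, 26808) (by decide +kernel)
                 (CovZ.leaf K3_ok TD_l9184 _)
                 (CovZ.leaf K3_ok TD_l9185 _))
                (CovZ.leaf K3_ok TD_l9186 _))
               (CovZ.subM 1146749307995035755813181123219946386681960342211434637495364047049669996129249653674038680672178515476480 (by decide +kernel)
                (CovZ.n1 (28944, 26784) (by decide +kernel)
                 (CovZ.n2 (28920, 26808) (by decide +kernel)
                  (CovZ.leaf K3_ok TD_l9187 _)
                  (CovZ.leaf K3_ok TD_l17721 _))
                 (CovZ.n1 (28968, 26808) (by decide +kernel)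
                  (CovZ.leaf K3_ok TD_l9188 _)
                  (CovZ.leaf K3_ok TD_l9189 _))))))))))
         (CovZ.subM 1146749307995035755813181123219946386681960342211434637495364047049669996129249653673964893695883677270016 (by decide +kernel)
          (CovZ.n1 (28608, 26688) (by decide +kernel)
           (CovZ.n2 (28608, 26880) (by decide +kernel)
            (CovZ.n2 (28704, 26784) (by decide +kernel)
             (CovZ.badM (by decide +kernel))
             (CovZ.n1 (28704, 26880) (by decide +kernel)
              (CovZ.n2 (28752, 26832) (by decide +kernel)
               (CovZ.badM (by decide +kernel))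
               (CovZ.n1 (28752, 26880) (by decide +kernel)
                (CovZ.leaf K3_ok TD_l9190 _)
                (CovZ.badM (by decide +kernel))))
              (CovZ.badM (by decide +kernel))))
            (CovZ.badM (by decide +kernel)))
           (CovZ.n1 (28800, 26688) (by decide +kernel)
            (CovZ.badM (by decide +kernel))
            (CovZ.n1 (28704, 26784) (by decide +kernel)
             (CovZ.n2 (28800, 26784) (by decide +kernel)
              (CovZ.n2 (28752, 26736) (by decide +kernel)
               (CovZ.n2 (28752, 26784) (by decide +kernel)
                (CovZ.n2 (28776, 26760) (by decide +kernel)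
                 (CovZ.badM (by decide +kernel))
                 (CovZ.leaf K2_ok TD_l18519 _))
                (CovZ.badM (by decide +kernel)))
               (CovZ.n1 (28800, 26736) (by decide +kernel)
                (CovZ.badM (by decide +kernel))
                (CovZ.n1 (28776, 26760) (by decide +kernel)
                 (CovZ.n2 (28800, 26760) (by decide +kernel)
                  (CovZ.badM (by decide +kernel))
                  (CovZ.n1 (28788, 26772) (by decide +kernel)
                   (CovZ.leaf K2_ok TD_l18520 _)
                   (CovZ.leaf K2_ok TD_l18521 _)))
                 (CovZ.badM (by decide +kernel)))))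
              (CovZ.n1 (28752, 26832) (by decide +kernel)
               (CovZ.n2 (28800, 26832) (by decide +kernel)
                (CovZ.n2 (28776, 26808) (by decide +kernel)
                 (CovZ.leaf K3_ok TD_l18522 _)
                 (CovZ.n1 (28800, 26808) (by decide +kernel)
                  (CovZ.leaf K2_ok TD_l18523 _)
                  (CovZ.leaf K3_ok TD_l18524 _)))
                (CovZ.n1 (28776, 26856) (by decide +kernel)
                 (CovZ.leaf K3_ok TD_l9191 _)
                 (CovZ.leaf K3_ok TD_l9192 _)))
               (CovZ.n1 (28752, 26784) (by decide +kernel)
                (CovZ.badM (by decide +kernel))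
                (CovZ.n1 (28776, 26808) (by decide +kernel)
                 (CovZ.n2 (28776, 26784) (by decide +kernel)
                  (CovZ.badM (by decide +kernel))
                  (CovZ.leaf K3_ok TD_l18525 _))
                 (CovZ.badM (by decide +kernel))))))
             (CovZ.n1 (28704, 26688) (by decide +kernel)
              (CovZ.badM (by decide +kernel))
              (CovZ.n1 (28752, 26736) (by decide +kernel)
               (CovZ.badM (by decide +kernel))
               (CovZ.badM (by decide +kernel)))))))))

theorem TD_u119 : CovZ TD_M (toL (selN TD_LN 1146749478873998629485987774107232569967701140633345868879898636777982026398394733364657870991744008978448)) [0, 7, 6, 1] (28800, 26496) (29184, 26112) (29184, 26880) :=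
    (CovZ.n1 (29184, 26496) (by decide +kernel)
         (CovZ.badM (by decide +kernel))
         (CovZ.n1 (28992, 26688) (by decide +kernel)
          (CovZ.n2 (29184, 26688) (by decide +kernel)
           (CovZ.subM 524288 (by decide +kernel)
            (CovZ.n2 (29088, 26592) (by decide +kernel)
             (CovZ.n2 (29088, 26688) (by decide +kernel)
              (CovZ.n2 (29136, 26640) (by decide +kernel)
               (CovZ.badM (by decide +kernel))
               (CovZ.n1 (29136, 26688) (by decide +kernel)
                (CovZ.leaf K3_ok TD_l9193 _)
                (CovZ.badM (by decide +kernel))))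
              (CovZ.badM (by decide +kernel)))
             (CovZ.n1 (29184, 26592) (by decide +kernel)
              (CovZ.badM (by decide +kernel))
              (CovZ.n1 (29136, 26640) (by decide +kernel)
               (CovZ.n2 (29184, 26640) (by decide +kernel)
                (CovZ.badM (by decide +kernel))
                (CovZ.n1 (29160, 26664) (by decide +kernel)
                 (CovZ.leaf K2_ok TD_l9196 _)
                 (CovZ.leaf K3_ok TD_l9197 _)))
               (CovZ.badM (by decide +kernel))))))
           (CovZ.n1 (29088, 26784) (by decide +kernel)
            (CovZ.subM 136703170298946015948850292111350692755537588624856451077057622714390667909293049253557889335296016 (by decide +kernel)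
             (CovZ.n2 (29184, 26784) (by decide +kernel)
              (CovZ.subM 136703170298946015948850292111350692755537588624809683024663028504096166854982636581700658103058448 (by decide +kernel)
               (CovZ.n2 (29136, 26736) (by decide +kernel)
                (CovZ.n2 (29136, 26784) (by decide +kernel)
                 (CovZ.leaf K3_ok TD_l9198 _)
                 (CovZ.leaf K2_ok TD_l9199 _))
                (CovZ.n1 (29184, 26736) (by decide +kernel)
                 (CovZ.n2 (29160, 26712) (by decide +kernel)
                  (CovZ.leaf K2_ok TD_l9200 _)
                  (CovZ.leaf K3_ok TD_l9201 _))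
                 (CovZ.n1 (29160, 26760) (by decide +kernel)
                  (CovZ.leaf K2_ok TD_l9202 _)
                  (CovZ.leaf K3_ok TD_l9203 _)))))
              (CovZ.n1 (29136, 26832) (by decide +kernel)
               (CovZ.n2 (29184, 26832) (by decide +kernel)
                (CovZ.leaf K2_ok TD_l9204 _)
                (CovZ.leaf K3_ok TD_l9205 _))
               (CovZ.n1 (29136, 26784) (by decide +kernel)
                (CovZ.leaf K3_ok TD_l9206 _)
                (CovZ.leaf K3_ok TD_l9207 _)))))
            (CovZ.subM 7770675568902916283677847627294075626569627356208558085007249641390587358550495330320 (by decide +kernel)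
             (CovZ.n1 (29088, 26688) (by decide +kernel)
              (CovZ.n2 (29040, 26736) (by decide +kernel)
               (CovZ.n2 (29088, 26736) (by decide +kernel)
                (CovZ.n2 (29064, 26712) (by decide +kernel)
                 (CovZ.leaf K2_ok TD_l9208 _)
                 (CovZ.leaf K3_ok TD_l9209 _))
                (CovZ.n1 (29064, 26760) (by decide +kernel)
                 (CovZ.leaf K3_ok TD_l9210 _)
                 (CovZ.leaf K3_ok TD_l9211 _)))
               (CovZ.badM (by decide +kernel)))
              (CovZ.n1 (29136, 26736) (by decide +kernel)
               (CovZ.n2 (29136, 26688) (by decide +kernel)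
                (CovZ.n2 (29112, 26712) (by decide +kernel)
                 (CovZ.leaf K3_ok TD_l9214 _)
                 (CovZ.badM (by decide +kernel)))
                (CovZ.n1 (29160, 26712) (by decide +kernel)
                 (CovZ.leaf K3_ok TD_l9216 _)
                 (CovZ.leaf K2_ok TD_l9217 _)))
               (CovZ.n1 (29088, 26736) (by decide +kernel)
                (CovZ.leaf K2_ok TD_l9218 _)
                (CovZ.leaf K3_ok TD_l9219 _)))))))
          (CovZ.n1 (28992, 26496) (by decide +kernel)
           (CovZ.badM (by decide +kernel))
           (CovZ.n1 (29088, 26592) (by decide +kernel)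
            (CovZ.badM (by decide +kernel))
            (CovZ.badM (by decide +kernel))))))

end Pool.Agent.TET
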