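import Pool.Agent.Helper38_TET.TD_M
import Pool.Agent.Helper38_TET.TD_L
import Pool.Agent.Helper38_TET.TD_61
import Pool.Agent.Helper38_TET.TD_62
import Pool.Agent.Helper38_TET.TD_63
import Pool.Agent.Helper38_TET.TD_64
import Pool.Agent.Helper38_TET.TD_75
import Pool.Agent.Helper38_TET.TD_76
import Pool.Agent.Helper38_TET.TD_77
import Pool.Agent.Helper38_TET.TD_78
import Pool.Agent.Helper38_TET.TD_118
import Pool.Agent.Helper38_TET.TD_119
import Pool.Agent.Helper38_TET.TD_120
import Pool.Agent.Helper38_TET.TD_124
import Pool.Agent.Helper38_TET.TD_125
import Pool.Agent.Helper38_TET.TD_126
import Pool.Agent.Helper38_TET.TD_127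

/-!
# MP_c7c9bf_co: certificates, family TD
-/

set_option autoImplicit false
set_option maxRecDepth 100000

namespace Pool.Agent.TET

theorem TD_u120 : CovZ TD_M (toL (selN TD_LN 10321024457773116968717031851352377250495215710229168916201032372590725300687521609032716310054454265647122)) [0, 7, 6, 1] (28416, 26880) (28800, 26880) (28800, 27264) :=
    (CovZ.n2 (28608, 27072) (by decide +kernel)
         (CovZ.n2 (28800, 27072) (by decide +kernel)
          (CovZ.subM 10321023740081472899291001333013032774660665869220539808442151465649135419836871999379467905730973321396240 (by decide +kernel)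
           (CovZ.n2 (28704, 26976) (by decide +kernel)
            (CovZ.n2 (28704, 27072) (by decide +kernel)
             (CovZ.n2 (28752, 27024) (by decide +kernel)
              (CovZ.leaf K3_ok TD_l9264 _)
              (CovZ.leaf K3_ok TD_l9265 _))
             (CovZ.n1 (28656, 27024) (by decide +kernel)
              (CovZ.leaf K2_ok TD_l9266 _)
              (CovZ.n1 (28704, 27024) (by decide +kernel)
               (CovZ.leaf K2_ok TD_l9267 _)
               (CovZ.leaf K3_ok TD_l9268 _))))
            (CovZ.n1 (28800, 26976) (by decide +kernel)
             (CovZ.n2 (28752, 26928) (by decide +kernel)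
              (CovZ.n2 (28752, 26976) (by decide +kernel)
               (CovZ.leaf K3_ok TD_l9269 _)
               (CovZ.n1 (28728, 26952) (by decide +kernel)
                (CovZ.leaf K3_ok TD_l9270 _)
                (CovZ.leaf K3_ok TD_l9271 _)))
              (CovZ.n1 (28800, 26928) (by decide +kernel)
               (CovZ.n2 (28776, 26904) (by decide +kernel)
                (CovZ.leaf K2_ok TD_l9272 _)
                (CovZ.leaf K2_ok TD_l9273 _))
               (CovZ.leaf K3_ok TD_l9274 _)))
             (CovZ.n1 (28752, 27024) (by decide +kernel)
              (CovZ.n2 (28800, 27024) (by decide +kernel)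
               (CovZ.leaf K3_ok TD_l9275 _)
               (CovZ.leaf K3_ok TD_l9276 _))
              (CovZ.n1 (28752, 26976) (by decide +kernel)
               (CovZ.leaf K3_ok TD_l9277 _)
               (CovZ.leaf K3_ok TD_l9278 _))))))
          (CovZ.n1 (28704, 27168) (by decide +kernel)
           (CovZ.n2 (28800, 27168) (by decide +kernel)
            (CovZ.n2 (28752, 27120) (by decide +kernel)
             (CovZ.leaf K2_ok TD_l9279 _)
             (CovZ.leaf K2_ok TD_l9280 _))
            (CovZ.n1 (28752, 27216) (by decide +kernel)
             (CovZ.leaf K2_ok TD_l9281 _)
             (CovZ.leaf K2_ok TD_l9282 _)))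
           (CovZ.n1 (28704, 27072) (by decide +kernel)
            (CovZ.subM 10321023740081472899283230657444129858376988021593245732815581838292926861751884561659345431487690472165392 (by decide +kernel)
             (CovZ.n2 (28656, 27120) (by decide +kernel)
              (CovZ.n2 (28704, 27120) (by decide +kernel)
               (CovZ.leaf K2_ok TD_l9283 _)
               (CovZ.leaf K2_ok TD_l9284 _))
              (CovZ.n1 (28656, 27072) (by decide +kernel)
               (CovZ.leaf K2_ok TD_l9285 _)
               (CovZ.leaf K2_ok TD_l9286 _))))
            (CovZ.n1 (28752, 27120) (by decide +kernel)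
             (CovZ.n2 (28752, 27072) (by decide +kernel)
              (CovZ.leaf K2_ok TD_l9287 _)
              (CovZ.leaf K2_ok TD_l9288 _))
             (CovZ.leaf K2_ok TD_l9289 _)))))
         (CovZ.subM 10321023774257265474025562651333832386222082969252185490308785971941848328572002523118621265300429075382288 (by decide +kernel)
          (CovZ.n1 (28608, 26880) (by decide +kernel)
           (CovZ.n2 (28512, 26976) (by decide +kernel)
            (CovZ.n2 (28608, 26976) (by decide +kernel)
             (CovZ.subM 34175796648806513987292519835819890225736799674828307128233966583604718588174417939689819617624064 (by decide +kernel)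
              (CovZ.n2 (28560, 26928) (by decide +kernel)
               (CovZ.n2 (28560, 26976) (by decide +kernel)
                (CovZ.leaf K3_ok TD_l17722 _)
                (CovZ.n1 (28536, 26952) (by decide +kernel)
                 (CovZ.leaf K3_ok TD_l17723 _)
                 (CovZ.n1 (28560, 26952) (by decide +kernel)
                  (CovZ.badM (by decide +kernel))
                  (CovZ.leaf K2_ok TD_l17724 _))))
               (CovZ.n1 (28608, 26928) (by decide +kernel)
                (CovZ.badM (by decide +kernel))
                (CovZ.n1 (28584, 26952) (by decide +kernel)
                 (CovZ.leaf K3_ok TD_l17725 _)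
                 (CovZ.n1 (28584, 26928) (by decide +kernel)
                  (CovZ.leaf K2_ok TD_l17726 _)
                  (CovZ.leaf K3_ok TD_l17727 _))))))
             (CovZ.n1 (28560, 27024) (by decide +kernel)
              (CovZ.n2 (28608, 27024) (by decide +kernel)
               (CovZ.n2 (28584, 27000) (by decide +kernel)
                (CovZ.leaf K2_ok TD_l9290 _)
                (CovZ.leaf K2_ok TD_l9291 _))
               (CovZ.n1 (28584, 27048) (by decide +kernel)
                (CovZ.leaf K2_ok TD_l9292 _)
                (CovZ.leaf K2_ok TD_l9293 _)))
              (CovZ.subM 1146749342204207202048188714270153712671630160086938412588654565452497382599953231253265786390760904458240 (by decide +kernel)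
               (CovZ.n1 (28560, 26976) (by decide +kernel)
                (CovZ.n2 (28536, 27000) (by decide +kernel)
                 (CovZ.leaf K2_ok TD_l17728 _)
                 (CovZ.n1 (28536, 26976) (by decide +kernel)
                  (CovZ.leaf K2_ok TD_l17729 _)
                  (CovZ.leaf K2_ok TD_l17730 _)))
                (CovZ.n1 (28584, 27000) (by decide +kernel)
                 (CovZ.leaf K2_ok TD_l17731 _)
                 (CovZ.leaf K2_ok TD_l17732 _))))))
            (CovZ.subM 34175792574734561318320347298928513406980477476110548492243411663927130682517494436845212114354176 (by decide +kernel)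
             (CovZ.n1 (28512, 26880) (by decide +kernel)
              (CovZ.n2 (28464, 26928) (by decide +kernel)
               (CovZ.n2 (28512, 26928) (by decide +kernel)
                (CovZ.badM (by decide +kernel))
                (CovZ.n1 (28488, 26952) (by decide +kernel)
                 (CovZ.n2 (28512, 26952) (by decide +kernel)
                  (CovZ.badM (by decide +kernel))
                  (CovZ.leaf K2_ok TD_l17733 _))
                 (CovZ.badM (by decide +kernel))))
               (CovZ.badM (by decide +kernel)))
              (CovZ.n1 (28560, 26928) (by decide +kernel)
               (CovZ.badM (by decide +kernel))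
               (CovZ.n1 (28512, 26928) (by decide +kernel)
                (CovZ.n2 (28536, 26952) (by decide +kernel)
                 (CovZ.badM (by decide +kernel))
                 (CovZ.leaf K3_ok TD_l17734 _))
                (CovZ.badM (by decide +kernel)))))))
           (CovZ.n1 (28704, 26976) (by decide +kernel)
            (CovZ.subM 1147029276087812055411453531763644294526840529637207258577678549922927149125519273930396001183349509980176 (by decide +kernel)
             (CovZ.n2 (28704, 26880) (by decide +kernel)
              (CovZ.n2 (28656, 26928) (by decide +kernel)
               (CovZ.n2 (28704, 26928) (by decide +kernel)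
                (CovZ.n2 (28680, 26904) (by decide +kernel)
                 (CovZ.leaf K3_ok TD_l9294 _)
                 (CovZ.leaf K3_ok TD_l9295 _))
                (CovZ.n1 (28680, 26952) (by decide +kernel)
                 (CovZ.leaf K3_ok TD_l9296 _)
                 (CovZ.leaf K3_ok TD_l9297 _)))
               (CovZ.subM 279968092772225526319680285975681231931738463901075293214177035777793135787033919054848232915910787072 (by decide +kernel)
                (CovZ.n1 (28656, 26880) (by decide +kernel)
                 (CovZ.n2 (28632, 26904) (by decide +kernel)
                  (CovZ.leaf K3_ok TD_l17735 _)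
                  (CovZ.badM (by decide +kernel)))
                 (CovZ.n1 (28680, 26904) (by decide +kernel)
                  (CovZ.badM (by decide +kernel))
                  (CovZ.leaf K3_ok TD_l9298 _)))))
              (CovZ.n1 (28752, 26928) (by decide +kernel)
               (CovZ.subM 1147029276087807981339500862791471757635463710880885155594123165655836983462102631175627333829150845698048 (by decide +kernel)
                (CovZ.n2 (28752, 26880) (by decide +kernel)
                 (CovZ.n2 (28728, 26904) (by decide +kernel)
                  (CovZ.leaf K3_ok TD_l9299 _)
                  (CovZ.badM (by decide +kernel)))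
                 (CovZ.n1 (28776, 26904) (by decide +kernel)
                  (CovZ.leaf K2_ok TD_l9300 _)
                  (CovZ.leaf K2_ok TD_l9301 _))))
               (CovZ.n1 (28704, 26928) (by decide +kernel)
                (CovZ.n2 (28728, 26952) (by decide +kernel)
                 (CovZ.leaf K3_ok TD_l9302 _)
                 (CovZ.leaf K3_ok TD_l9303 _))
                (CovZ.leaf K3_ok TD_l9304 _)))))
            (CovZ.n1 (28608, 26976) (by decide +kernel)
             (CovZ.n2 (28656, 27024) (by decide +kernel)
              (CovZ.n2 (28656, 26976) (by decide +kernel)
               (CovZ.n2 (28632, 27000) (by decide +kernel)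
                (CovZ.leaf K2_ok TD_l9305 _)
                (CovZ.leaf K3_ok TD_l17736 _))
               (CovZ.leaf K3_ok TD_l9306 _))
              (CovZ.n1 (28608, 27024) (by decide +kernel)
               (CovZ.leaf K2_ok TD_l9307 _)
               (CovZ.leaf K2_ok TD_l9308 _)))
             (CovZ.subM 1147029276087812055403682856194741378243162682009913182951108922566718591040512024291440384042528675987472 (by decide +kernel)
              (CovZ.n1 (28656, 26928) (by decide +kernel)
               (CovZ.n2 (28608, 26928) (by decide +kernel)
                (CovZ.n2 (28632, 26952) (by decide +kernel)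
                 (CovZ.leaf K3_ok TD_l17737 _)
                 (CovZ.leaf K3_ok TD_l17738 _))
                (CovZ.leaf K3_ok TD_l17739 _))
               (CovZ.n1 (28656, 26976) (by decide +kernel)
                (CovZ.leaf K3_ok TD_l9309 _)
                (CovZ.n1 (28632, 26952) (by decide +kernel)
                 (CovZ.leaf K2_ok TD_l17740 _)
                 (CovZ.n1 (28656, 26952) (by decide +kernel)
                  (CovZ.leaf K3_ok TD_l17741 _)
                  (CovZ.leaf K2_ok TD_l17742 _)))))))))))

theorem TD_u121 : CovZ TD_M (toL (selN TD_LN 10321024457773116968717031851352377250495215710229168916201032372590725300687521609032716310054454265647122)) [0, 7, 6, 1] (28800, 26880) (29184, 26880) (28800, 27264) :=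
    (CovZ.subM 1147029959637038347538944118211630985731082585400308264149909129627086839746829684109943921621163581116432 (by decide +kernel)
         (CovZ.n1 (28992, 27072) (by decide +kernel)
          (CovZ.n2 (28992, 26880) (by decide +kernel)
           (CovZ.n2 (28896, 26976) (by decide +kernel)
            (CovZ.n2 (28992, 26976) (by decide +kernel)
             (CovZ.n2 (28944, 26928) (by decide +kernel)
              (CovZ.leaf K3_ok TD_l9310 _)
              (CovZ.n1 (28992, 26928) (by decide +kernel)
               (CovZ.leaf K2_ok TD_l9311 _)
               (CovZ.leaf K2_ok TD_l9312 _)))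
             (CovZ.n1 (28944, 27024) (by decide +kernel)
              (CovZ.n2 (28992, 27024) (by decide +kernel)
               (CovZ.leaf K3_ok TD_l9313 _)
               (CovZ.leaf K2_ok TD_l9314 _))
              (CovZ.n1 (28944, 26976) (by decide +kernel)
               (CovZ.leaf K3_ok TD_l9315 _)
               (CovZ.leaf K3_ok TD_l9316 _))))
            (CovZ.subM 1147029276087812055411453531763644294526840529637207258577678549922927149125519273930396001183349779464208 (by decide +kernel)
             (CovZ.n1 (28896, 26880) (by decide +kernel)
              (CovZ.n2 (28848, 26928) (by decide +kernel)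
               (CovZ.n2 (28896, 26928) (by decide +kernel)
                (CovZ.n2 (28872, 26904) (by decide +kernel)
                 (CovZ.leaf K2_ok TD_l9317 _)
                 (CovZ.leaf K3_ok TD_l9318 _))
                (CovZ.leaf K2_ok TD_l9319 _))
               (CovZ.n1 (28848, 26880) (by decide +kernel)
                (CovZ.n2 (28824, 26904) (by decide +kernel)
                 (CovZ.leaf K2_ok TD_l9320 _)
                 (CovZ.leaf K2_ok TD_l9321 _))
                (CovZ.n1 (28872, 26904) (by decide +kernel)
                 (CovZ.leaf K3_ok TD_l9322 _)
                 (CovZ.leaf K3_ok TD_l9323 _))))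
              (CovZ.n1 (28944, 26928) (by decide +kernel)
               (CovZ.n2 (28944, 26880) (by decide +kernel)
                (CovZ.leaf K3_ok TD_l9324 _)
                (CovZ.leaf K3_ok TD_l9325 _))
               (CovZ.leaf K3_ok TD_l9326 _)))))
           (CovZ.n1 (29088, 26976) (by decide +kernel)
            (CovZ.subM 136703174373017968617822464648242069574293910823574209713048180292524247384781792350992912239558672 (by decide +kernel)
             (CovZ.n2 (29088, 26880) (by decide +kernel)
              (CovZ.n2 (29040, 26928) (by decide +kernel)
               (CovZ.n2 (29088, 26928) (by decide +kernel)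
                (CovZ.leaf K2_ok TD_l9327 _)
                (CovZ.leaf K3_ok TD_l9328 _))
               (CovZ.n1 (29040, 26880) (by decide +kernel)
                (CovZ.leaf K3_ok TD_l9329 _)
                (CovZ.leaf K2_ok TD_l9330 _)))
              (CovZ.n1 (29136, 26928) (by decide +kernel)
               (CovZ.n2 (29136, 26880) (by decide +kernel)
                (CovZ.leaf K3_ok TD_l9331 _)
                (CovZ.leaf K3_ok TD_l9332 _))
               (CovZ.leaf K2_ok TD_l9333 _))))
            (CovZ.n1 (28992, 26976) (by decide +kernel)
             (CovZ.n2 (29040, 27024) (by decide +kernel)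
              (CovZ.n2 (29040, 26976) (by decide +kernel)
               (CovZ.leaf K3_ok TD_l9334 _)
               (CovZ.leaf K3_ok TD_l9335 _))
              (CovZ.leaf K3_ok TD_l9336 _))
             (CovZ.leaf K3_ok TD_l9337 _))))
          (CovZ.n1 (28800, 27072) (by decide +kernel)
           (CovZ.n2 (28896, 27168) (by decide +kernel)
            (CovZ.n2 (28896, 27072) (by decide +kernel)
             (CovZ.n2 (28848, 27120) (by decide +kernel)
              (CovZ.leaf K2_ok TD_l9338 _)
              (CovZ.n1 (28848, 27072) (by decide +kernel)
               (CovZ.leaf K3_ok TD_l9339 _)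
               (CovZ.leaf K3_ok TD_l9340 _)))
             (CovZ.n1 (28944, 27120) (by decide +kernel)
              (CovZ.leaf K2_ok TD_l9341 _)
              (CovZ.leaf K3_ok TD_l9342 _)))
            (CovZ.n1 (28800, 27168) (by decide +kernel)
             (CovZ.n2 (28848, 27216) (by decide +kernel)
              (CovZ.leaf K2_ok TD_l9343 _)
              (CovZ.leaf K2_ok TD_l9344 _))
             (CovZ.leaf K3_ok TD_l9345 _)))
           (CovZ.n1 (28896, 26976) (by decide +kernel)
            (CovZ.n2 (28800, 26976) (by decide +kernel)
             (CovZ.n2 (28848, 27024) (by decide +kernel)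
              (CovZ.n2 (28848, 26976) (by decide +kernel)
               (CovZ.leaf K2_ok TD_l9346 _)
               (CovZ.leaf K3_ok TD_l9347 _))
              (CovZ.leaf K2_ok TD_l9348 _))
             (CovZ.n1 (28848, 26928) (by decide +kernel)
              (CovZ.leaf K3_ok TD_l9349 _)
              (CovZ.leaf K3_ok TD_l9350 _)))
            (CovZ.n1 (28896, 27072) (by decide +kernel)
             (CovZ.leaf K2_ok TD_l9351 _)
             (CovZ.n1 (28848, 27024) (by decide +kernel)
              (CovZ.leaf K3_ok TD_l9352 _)
              (CovZ.n1 (28896, 27024) (by decide +kernel)
               (CovZ.leaf K3_ok TD_l9353 _)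
               (CovZ.leaf K2_ok TD_l9354 _))))))))

theorem TD_u122 : CovZ TD_M (toL (selN TD_LN 2436982315901069456447039718212689882718918093339342025026581500619688797305016448130744153464361084522496)) [0, 7, 6, 1] (28416, 26880) (28224, 27072) (28032, 26880) :=
    (CovZ.subM 34209204038819370893557506025282513157633753381857480341848300989191629071860733764016735973801984 (by decide +kernel)
          (CovZ.n2 (28224, 26880) (by decide +kernel)
           (CovZ.subM 32592576592686223945472730737122336505069724136441777707886229673385119408822252584306737152 (by decide +kernel)
            (CovZ.n2 (28128, 26976) (by decide +kernel)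
             (CovZ.n2 (28224, 26976) (by decide +kernel)
              (CovZ.subM 452312848583266388373324160190187140051835877600158453279131187530910662656 (by decide +kernel)
               (CovZ.n2 (28176, 26928) (by decide +kernel)
                (CovZ.n2 (28176, 26976) (by decide +kernel)
                 (CovZ.n2 (28200, 26952) (by decide +kernel)
                  (CovZ.badM (by decide +kernel))
                  (CovZ.n1 (28200, 26976) (by decide +kernel)
                   (CovZ.leaf K2_ok TD_l18531 _)
                   (CovZ.badM (by decide +kernel))))
                 (CovZ.badM (by decide +kernel)))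
                (CovZ.n1 (28224, 26928) (by decide +kernel)
                 (CovZ.n2 (28200, 26904) (by decide +kernel)
                  (CovZ.n2 (28200, 26928) (by decide +kernel)
                   (CovZ.n2 (28212, 26916) (by decide +kernel)
                    (CovZ.badM (by decide +kernel))
                    (CovZ.n1 (28212, 26928) (by decide +kernel)
                     (CovZ.badM (by decide +kernel))
                     (CovZ.badM (by decide +kernel))))
                   (CovZ.badM (by decide +kernel)))
                  (CovZ.badM (by decide +kernel)))
                 (CovZ.n1 (28200, 26952) (by decide +kernel)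
                  (CovZ.n2 (28224, 26952) (by decide +kernel)
                   (CovZ.n2 (28212, 26940) (by decide +kernel)
                    (CovZ.leaf K2_ok TD_l18532 _)
                    (CovZ.n1 (28224, 26940) (by decide +kernel)
                     (CovZ.n2 (28218, 26934) (by decide +kernel)
                      (CovZ.leaf K2_ok TD_l18533 _)
                      (CovZ.leaf K2_ok TD_l18534 _))
                     (CovZ.leaf K2_ok TD_l18535 _)))
                   (CovZ.n1 (28212, 26964) (by decide +kernel)
                    (CovZ.n2 (28224, 26964) (by decide +kernel)
                     (CovZ.leaf K2_ok TD_l18536 _)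
                     (CovZ.leaf K2_ok TD_l18537 _))
                    (CovZ.n1 (28212, 26952) (by decide +kernel)
                     (CovZ.badM (by decide +kernel))
                     (CovZ.leaf K2_ok TD_l18538 _))))
                  (CovZ.n1 (28200, 26928) (by decide +kernel)
                   (CovZ.badM (by decide +kernel))
                   (CovZ.n1 (28212, 26940) (by decide +kernel)
                    (CovZ.n2 (28212, 26928) (by decide +kernel)
                     (CovZ.badM (by decide +kernel))
                     (CovZ.n1 (28218, 26934) (by decide +kernel)
                      (CovZ.leaf K2_ok TD_l18539 _)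
                      (CovZ.badM (by decide +kernel))))
                    (CovZ.badM (by decide +kernel))))))))
              (CovZ.n1 (28176, 27024) (by decide +kernel)
               (CovZ.n2 (28224, 27024) (by decide +kernel)
                (CovZ.subM 452312848583266388373324160190187140051835877600158453279131187530910662656 (by decide +kernel)
                 (CovZ.n2 (28200, 27000) (by decide +kernel)
                  (CovZ.n2 (28200, 27024) (by decide +kernel)
                   (CovZ.leaf K2_ok TD_l18540 _)
                   (CovZ.badM (by decide +kernel)))
                  (CovZ.n1 (28224, 27000) (by decide +kernel)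
                   (CovZ.n2 (28212, 26988) (by decide +kernel)
                    (CovZ.leaf K2_ok TD_l18541 _)
                    (CovZ.leaf K2_ok TD_l18542 _))
                   (CovZ.n1 (28212, 27012) (by decide +kernel)
                    (CovZ.leaf K2_ok TD_l18543 _)
                    (CovZ.leaf K2_ok TD_l18544 _)))))
                (CovZ.n1 (28200, 27048) (by decide +kernel)
                 (CovZ.n2 (28224, 27048) (by decide +kernel)
                  (CovZ.leaf K2_ok TD_l17754 _)
                  (CovZ.leaf K2_ok TD_l17755 _))
                 (CovZ.n1 (28200, 27024) (by decide +kernel)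
                  (CovZ.badM (by decide +kernel))
                  (CovZ.leaf K2_ok TD_l18545 _))))
               (CovZ.subM 452312848583266388373324160190187140051835877600158453279131187530910662656 (by decide +kernel)
                (CovZ.n1 (28176, 26976) (by decide +kernel)
                 (CovZ.badM (by decide +kernel))
                 (CovZ.n1 (28200, 27000) (by decide +kernel)
                  (CovZ.n2 (28200, 26976) (by decide +kernel)
                   (CovZ.badM (by decide +kernel))
                   (CovZ.n1 (28212, 26988) (by decide +kernel)
                    (CovZ.n2 (28212, 26976) (by decide +kernel)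
                     (CovZ.badM (by decide +kernel))
                     (CovZ.leaf K2_ok TD_l18546 _))
                    (CovZ.badM (by decide +kernel))))
                  (CovZ.badM (by decide +kernel)))))))
             (CovZ.subM 452312848583266388373324160190187140051835877600158453279131187530910662656 (by decide +kernel)
              (CovZ.n1 (28128, 26880) (by decide +kernel)
               (CovZ.badM (by decide +kernel))
               (CovZ.n1 (28176, 26928) (by decide +kernel)
                (CovZ.n2 (28176, 26880) (by decide +kernel)
                 (CovZ.badM (by decide +kernel))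
                 (CovZ.n1 (28200, 26904) (by decide +kernel)
                  (CovZ.badM (by decide +kernel))
                  (CovZ.badM (by decide +kernel))))
                (CovZ.badM (by decide +kernel)))))))
           (CovZ.n1 (28320, 26976) (by decide +kernel)
            (CovZ.subM 452312848583266388373324160190187140051835877600158453279131187530910662656 (by decide +kernel)
             (CovZ.n2 (28320, 26880) (by decide +kernel)
              (CovZ.n2 (28272, 26928) (by decide +kernel)
               (CovZ.n2 (28320, 26928) (by decide +kernel)
                (CovZ.badM (by decide +kernel))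
                (CovZ.n1 (28296, 26952) (by decide +kernel)
                 (CovZ.n2 (28320, 26952) (by decide +kernel)
                  (CovZ.badM (by decide +kernel))
                  (CovZ.n1 (28308, 26964) (by decide +kernel)
                   (CovZ.leaf K2_ok TD_l18547 _)
                   (CovZ.leaf K2_ok TD_l18548 _)))
                 (CovZ.badM (by decide +kernel))))
               (CovZ.badM (by decide +kernel)))
              (CovZ.n1 (28368, 26928) (by decide +kernel)
               (CovZ.badM (by decide +kernel))
               (CovZ.n1 (28320, 26928) (by decide +kernel)
                (CovZ.n2 (28344, 26952) (by decide +kernel)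
                 (CovZ.badM (by decide +kernel))
                 (CovZ.n1 (28320, 26952) (by decide +kernel)
                  (CovZ.n2 (28332, 26964) (by decide +kernel)
                   (CovZ.badM (by decide +kernel))
                   (CovZ.leaf K2_ok TD_l18549 _))
                  (CovZ.badM (by decide +kernel))))
                (CovZ.badM (by decide +kernel))))))
            (CovZ.subM 34175792574735532652770530979101222535429249152958813327528816027817637992612891464950133213364224 (by decide +kernel)
             (CovZ.n1 (28224, 26976) (by decide +kernel)
              (CovZ.n2 (28272, 27024) (by decide +kernel)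
               (CovZ.subM 971334450183680172709128448771676895032887679992592659027332284381632830380800212992 (by decide +kernel)
                (CovZ.n2 (28272, 26976) (by decide +kernel)
                 (CovZ.n2 (28248, 27000) (by decide +kernel)
                  (CovZ.n2 (28272, 27000) (by decide +kernel)
                   (CovZ.n2 (28260, 26988) (by decide +kernel)
                    (CovZ.leaf K2_ok TD_l18550 _)
                    (CovZ.leaf K2_ok TD_l18551 _))
                   (CovZ.leaf K2_ok TD_l18552 _))
                  (CovZ.n1 (28248, 26976) (by decide +kernel)
                   (CovZ.n2 (28236, 26988) (by decide +kernel)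
                    (CovZ.leaf K2_ok TD_l18553 _)
                    (CovZ.leaf K2_ok TD_l18554 _))
                   (CovZ.n1 (28260, 26988) (by decide +kernel)
                    (CovZ.leaf K2_ok TD_l18555 _)
                    (CovZ.leaf K2_ok TD_l18556 _))))
                 (CovZ.n1 (28296, 27000) (by decide +kernel)
                  (CovZ.n2 (28296, 26976) (by decide +kernel)
                   (CovZ.leaf K2_ok TD_l18557 _)
                   (CovZ.n1 (28308, 26988) (by decide +kernel)
                    (CovZ.leaf K2_ok TD_l18558 _)
                    (CovZ.leaf K2_ok TD_l18559 _)))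
                  (CovZ.n1 (28272, 27000) (by decide +kernel)
                   (CovZ.leaf K2_ok TD_l18560 _)
                   (CovZ.leaf K2_ok TD_l18561 _)))))
               (CovZ.n1 (28224, 27024) (by decide +kernel)
                (CovZ.n2 (28248, 27048) (by decide +kernel)
                 (CovZ.n2 (28248, 27024) (by decide +kernel)
                  (CovZ.leaf K2_ok TD_l17756 _)
                  (CovZ.leaf K2_ok TD_l17757 _))
                 (CovZ.leaf K2_ok TD_l17758 _))
                (CovZ.subM 971334446565177384042997341785083613511390559577905638226064658148583330133514911744 (by decide +kernel)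
                 (CovZ.n1 (28248, 27000) (by decide +kernel)
                  (CovZ.n2 (28224, 27000) (by decide +kernel)
                   (CovZ.n2 (28236, 27012) (by decide +kernel)
                    (CovZ.leaf K2_ok TD_l18562 _)
                    (CovZ.leaf K2_ok TD_l18563 _))
                   (CovZ.leaf K2_ok TD_l18564 _))
                  (CovZ.n1 (28248, 27024) (by decide +kernel)
                   (CovZ.leaf K2_ok TD_l18565 _)
                   (CovZ.n1 (28236, 27012) (by decide +kernel)
                    (CovZ.leaf K2_ok TD_l18566 _)
                    (CovZ.leaf K2_ok TD_l18567 _)))))))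
              (CovZ.subM 452312848583266388373324160190187140051835877600158453279131187530910662656 (by decide +kernel)
               (CovZ.n1 (28272, 26928) (by decide +kernel)
                (CovZ.n2 (28224, 26928) (by decide +kernel)
                 (CovZ.n2 (28248, 26952) (by decide +kernel)
                  (CovZ.n2 (28248, 26928) (by decide +kernel)
                   (CovZ.n2 (28236, 26940) (by decide +kernel)
                    (CovZ.n2 (28248, 26940) (by decide +kernel)
                     (CovZ.leaf K2_ok TD_l18568 _)
                     (CovZ.leaf K2_ok TD_l18569 _))
                    (CovZ.n1 (28236, 26928) (by decide +kernel)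
                     (CovZ.leaf K2_ok TD_l18570 _)
                     (CovZ.leaf K2_ok TD_l18571 _)))
                   (CovZ.n1 (28260, 26940) (by decide +kernel)
                    (CovZ.badM (by decide +kernel))
                    (CovZ.leaf K2_ok TD_l18572 _)))
                  (CovZ.n1 (28224, 26952) (by decide +kernel)
                   (CovZ.n2 (28236, 26964) (by decide +kernel)
                    (CovZ.n2 (28236, 26952) (by decide +kernel)
                     (CovZ.leaf K2_ok TD_l18573 _)
                     (CovZ.n1 (28242, 26958) (by decide +kernel)
                      (CovZ.leaf K2_ok TD_l18574 _)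
                      (CovZ.leaf K2_ok TD_l18575 _)))
                    (CovZ.leaf K2_ok TD_l18576 _))
                   (CovZ.n1 (28236, 26940) (by decide +kernel)
                    (CovZ.n2 (28224, 26940) (by decide +kernel)
                     (CovZ.leaf K2_ok TD_l18577 _)
                     (CovZ.leaf K2_ok TD_l18578 _))
                    (CovZ.leaf K2_ok TD_l18579 _))))
                 (CovZ.badM (by decide +kernel)))
                (CovZ.n1 (28272, 26976) (by decide +kernel)
                 (CovZ.n2 (28296, 26952) (by decide +kernel)
                  (CovZ.n2 (28272, 26952) (by decide +kernel)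
                   (CovZ.n2 (28284, 26964) (by decide +kernel)
                    (CovZ.leaf K2_ok TD_l18580 _)
                    (CovZ.leaf K2_ok TD_l18581 _))
                   (CovZ.leaf K2_ok TD_l18582 _))
                  (CovZ.n1 (28296, 26976) (by decide +kernel)
                   (CovZ.leaf K2_ok TD_l18583 _)
                   (CovZ.n1 (28284, 26964) (by decide +kernel)
                    (CovZ.leaf K2_ok TD_l18584 _)
                    (CovZ.leaf K2_ok TD_l18585 _))))
                 (CovZ.n1 (28248, 26952) (by decide +kernel)
                  (CovZ.n2 (28248, 26976) (by decide +kernel)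
                   (CovZ.leaf K2_ok TD_l18586 _)
                   (CovZ.n1 (28236, 26964) (by decide +kernel)
                    (CovZ.leaf K2_ok TD_l18587 _)
                    (CovZ.n1 (28248, 26964) (by decide +kernel)
                     (CovZ.n2 (28242, 26958) (by decide +kernel)
                      (CovZ.leaf K2_ok TD_l18588 _)
                      (CovZ.leaf K2_ok TD_l18589 _))
                     (CovZ.leaf K2_ok TD_l18590 _))))
                  (CovZ.n1 (28272, 26952) (by decide +kernel)
                   (CovZ.n2 (28260, 26940) (by decide +kernel)
                    (CovZ.leaf K2_ok TD_l18591 _)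
                    (CovZ.n1 (28272, 26940) (by decide +kernel)
                     (CovZ.badM (by decide +kernel))
                     (CovZ.leaf K2_ok TD_l18592 _)))
                   (CovZ.n1 (28260, 26964) (by decide +kernel)
                    (CovZ.leaf K2_ok TD_l18593 _)
                    (CovZ.leaf K2_ok TD_l18594 _))))))))))))

theorem TD_u123 : CovZ TD_M (toL (selN TD_LN 2436982315901069456447039718212689882718918093339342025026581500619688797305016448130744153464361084522496)) [0, 7, 6, 1] (28224, 27072) (28032, 27264) (28032, 26880) :=
    (CovZ.n1 (28032, 27072) (by decide +kernel)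
          (CovZ.n2 (28128, 27168) (by decide +kernel)
           (CovZ.subM 17088059250246358752493922998141576780865736073625445449764285438066105303633222243866611627851776 (by decide +kernel)
            (CovZ.n2 (28128, 27072) (by decide +kernel)
             (CovZ.n2 (28080, 27120) (by decide +kernel)
              (CovZ.n2 (28128, 27120) (by decide +kernel)
               (CovZ.subM 971334446112864751139304290616877810657324115683779763720954043130483894961626415104 (by decide +kernel)
                (CovZ.n2 (28104, 27096) (by decide +kernel)
                 (CovZ.n2 (28104, 27120) (by decide +kernel)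
                  (CovZ.leaf K2_ok TD_l17759 _)
                  (CovZ.leaf K2_ok TD_l17760 _))
                 (CovZ.n1 (28128, 27096) (by decide +kernel)
                  (CovZ.leaf K2_ok TD_l17761 _)
                  (CovZ.leaf K2_ok TD_l17762 _))))
               (CovZ.n1 (28104, 27144) (by decide +kernel)
                (CovZ.n2 (28128, 27144) (by decide +kernel)
                 (CovZ.leaf K2_ok TD_l17763 _)
                 (CovZ.leaf K2_ok TD_l17764 _))
                (CovZ.n1 (28104, 27120) (by decide +kernel)
                 (CovZ.leaf K2_ok TD_l17765 _)
                 (CovZ.leaf K2_ok TD_l17766 _))))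
              (CovZ.subM 215679573337205118357336120696157045389097155380324579848828881993728 (by decide +kernel)
               (CovZ.n1 (28080, 27072) (by decide +kernel)
                (CovZ.n2 (28056, 27096) (by decide +kernel)
                 (CovZ.n2 (28080, 27096) (by decide +kernel)
                  (CovZ.badM (by decide +kernel))
                  (CovZ.leaf K2_ok TD_l18595 _))
                 (CovZ.badM (by decide +kernel)))
                (CovZ.n1 (28104, 27096) (by decide +kernel)
                 (CovZ.n2 (28104, 27072) (by decide +kernel)
                  (CovZ.leaf K2_ok TD_l18596 _)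
                  (CovZ.leaf K2_ok TD_l18597 _))
                 (CovZ.n1 (28080, 27096) (by decide +kernel)
                  (CovZ.leaf K2_ok TD_l18598 _)
                  (CovZ.leaf K2_ok TD_l18599 _))))))
             (CovZ.n1 (28176, 27120) (by decide +kernel)
              (CovZ.subM 17087896287368251993606738826956139487500626380824069670832068478219078918741534015266189232570368 (by decide +kernel)
               (CovZ.n2 (28176, 27072) (by decide +kernel)
                (CovZ.n2 (28152, 27096) (by decide +kernel)
                 (CovZ.n2 (28176, 27096) (by decide +kernel)
                  (CovZ.leaf K2_ok TD_l17767 _)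
                  (CovZ.leaf K2_ok TD_l17768 _))
                 (CovZ.n1 (28152, 27072) (by decide +kernel)
                  (CovZ.leaf K2_ok TD_l17769 _)
                  (CovZ.leaf K2_ok TD_l17770 _)))
                (CovZ.n1 (28200, 27096) (by decide +kernel)
                 (CovZ.n2 (28200, 27072) (by decide +kernel)
                  (CovZ.leaf K2_ok TD_l17771 _)
                  (CovZ.leaf K2_ok TD_l17772 _))
                 (CovZ.leaf K2_ok TD_l17773 _))))
              (CovZ.n1 (28128, 27120) (by decide +kernel)
               (CovZ.n2 (28152, 27144) (by decide +kernel)
                (CovZ.n2 (28152, 27120) (by decide +kernel)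
                 (CovZ.leaf K2_ok TD_l17774 _)
                 (CovZ.leaf K2_ok TD_l17775 _))
                (CovZ.leaf K2_ok TD_l17776 _))
               (CovZ.leaf K2_ok TD_l17777 _)))))
           (CovZ.n1 (28032, 27168) (by decide +kernel)
            (CovZ.n2 (28080, 27216) (by decide +kernel)
             (CovZ.subM 17088059250246358752551366729918391598855935997699237274440679808042415480031376831588628881735680 (by decide +kernel)
              (CovZ.n2 (28080, 27168) (by decide +kernel)
               (CovZ.n2 (28056, 27192) (by decide +kernel)
                (CovZ.n2 (28080, 27192) (by decide +kernel)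
                 (CovZ.leaf K2_ok TD_l17778 _)
                 (CovZ.leaf K2_ok TD_l17779 _))
                (CovZ.n1 (28056, 27168) (by decide +kernel)
                 (CovZ.leaf K2_ok TD_l17780 _)
                 (CovZ.leaf K2_ok TD_l17781 _)))
               (CovZ.n1 (28104, 27192) (by decide +kernel)
                (CovZ.leaf K2_ok TD_l17782 _)
                (CovZ.leaf K2_ok TD_l17783 _))))
             (CovZ.n1 (28032, 27216) (by decide +kernel)
              (CovZ.n2 (28056, 27240) (by decide +kernel)
               (CovZ.leaf K2_ok TD_l9356 _)
               (CovZ.leaf K2_ok TD_l9357 _))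
              (CovZ.leaf K2_ok TD_l17784 _)))
            (CovZ.subM 17088059250246358752493470685292993514477362749465255262624233602188505145179943112679080717189120 (by decide +kernel)
             (CovZ.n1 (28080, 27120) (by decide +kernel)
              (CovZ.n2 (28032, 27120) (by decide +kernel)
               (CovZ.n2 (28056, 27144) (by decide +kernel)
                (CovZ.n2 (28056, 27120) (by decide +kernel)
                 (CovZ.leaf K2_ok TD_l17785 _)
                 (CovZ.leaf K2_ok TD_l17786 _))
                (CovZ.leaf K2_ok TD_l17787 _))
               (CovZ.n1 (28056, 27096) (by decide +kernel)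
                (CovZ.badM (by decide +kernel))
                (CovZ.n1 (28056, 27120) (by decide +kernel)
                 (CovZ.leaf K2_ok TD_l18600 _)
                 (CovZ.badM (by decide +kernel)))))
              (CovZ.n1 (28080, 27168) (by decide +kernel)
               (CovZ.leaf K2_ok TD_l17788 _)
               (CovZ.n1 (28056, 27144) (by decide +kernel)
                (CovZ.leaf K2_ok TD_l17789 _)
                (CovZ.n1 (28080, 27144) (by decide +kernel)
                 (CovZ.leaf K2_ok TD_l17790 _)
                 (CovZ.leaf K2_ok TD_l17791 _))))))))
          (CovZ.subM 32592576592686223945472730737122336505069724136441777707886229673385119408822252584306737152 (by decide +kernel)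
           (CovZ.n1 (28128, 26976) (by decide +kernel)
            (CovZ.badM (by decide +kernel))
            (CovZ.n1 (28128, 27072) (by decide +kernel)
             (CovZ.n2 (28176, 27024) (by decide +kernel)
              (CovZ.badM (by decide +kernel))
              (CovZ.n1 (28176, 27072) (by decide +kernel)
               (CovZ.n2 (28200, 27048) (by decide +kernel)
                (CovZ.n2 (28176, 27048) (by decide +kernel)
                 (CovZ.leaf K2_ok TD_l17792 _)
                 (CovZ.badM (by decide +kernel)))
                (CovZ.leaf K2_ok TD_l17793 _))
               (CovZ.n1 (28152, 27048) (by decide +kernel)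
                (CovZ.leaf K2_ok TD_l17794 _)
                (CovZ.n1 (28176, 27048) (by decide +kernel)
                 (CovZ.badM (by decide +kernel))
                 (CovZ.leaf K2_ok TD_l17795 _)))))
             (CovZ.badM (by decide +kernel))))))

theorem TD_u124 : CovZ TD_M (toL (selN TD_LN 31105995667386630097885118992426969404753660758119273979100722411296191137993976592781242556705683904401426)) [0, 7, 6, 1] (27648, 27648) (27648, 27264) (28032, 27264) :=
    (CovZ.n2 (27840, 27456) (by decide +kernel)
        (CovZ.n2 (27840, 27264) (by decide +kernel)
         (CovZ.subM 18347989474734337055441190144588542015747044889371935724996953875372913641418526766482621581422723914010642 (by decide +kernel)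
          (CovZ.n2 (27744, 27360) (by decide +kernel)
           (CovZ.n2 (27840, 27360) (by decide +kernel)
            (CovZ.n2 (27792, 27312) (by decide +kernel)
             (CovZ.n2 (27792, 27360) (by decide +kernel)
              (CovZ.leaf K2_ok TD_l9358 _)
              (CovZ.n1 (27768, 27336) (by decide +kernel)
               (CovZ.leaf K2_ok TD_l17796 _)
               (CovZ.leaf K2_ok TD_l17797 _)))
             (CovZ.n1 (27840, 27312) (by decide +kernel)
              (CovZ.n2 (27816, 27288) (by decide +kernel)
               (CovZ.leaf K2_ok TD_l17798 _)
               (CovZ.leaf K2_ok TD_l17799 _))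
              (CovZ.n1 (27816, 27336) (by decide +kernel)
               (CovZ.leaf K2_ok TD_l9359 _)
               (CovZ.n1 (27816, 27312) (by decide +kernel)
                (CovZ.leaf K2_ok TD_l17800 _)
                (CovZ.leaf K2_ok TD_l17801 _)))))
            (CovZ.n1 (27792, 27408) (by decide +kernel)
             (CovZ.n2 (27840, 27408) (by decide +kernel)
              (CovZ.n2 (27816, 27384) (by decide +kernel)
               (CovZ.leaf K2_ok TD_l9360 _)
               (CovZ.leaf K2_ok TD_l9361 _))
              (CovZ.leaf K2_ok TD_l9362 _))
             (CovZ.n1 (27792, 27360) (by decide +kernel)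
              (CovZ.n2 (27768, 27384) (by decide +kernel)
               (CovZ.leaf K3_ok TD_l9363 _)
               (CovZ.leaf K2_ok TD_l17802 _))
              (CovZ.n1 (27816, 27384) (by decide +kernel)
               (CovZ.leaf K2_ok TD_l9364 _)
               (CovZ.leaf K2_ok TD_l9365 _)))))
           (CovZ.subM 1083703143296234861936959823224510562716266052004714812074821223999163489331153956941202456576 (by decide +kernel)
            (CovZ.n1 (27744, 27264) (by decide +kernel)
             (CovZ.n2 (27696, 27312) (by decide +kernel)
              (CovZ.n2 (27744, 27312) (by decide +kernel)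
               (CovZ.n2 (27720, 27288) (by decide +kernel)
                (CovZ.leaf K2_ok TD_l18601 _)
                (CovZ.n1 (27744, 27288) (by decide +kernel)
                 (CovZ.badM (by decide +kernel))
                 (CovZ.leaf K2_ok TD_l18602 _)))
               (CovZ.n1 (27720, 27336) (by decide +kernel)
                (CovZ.leaf K2_ok TD_l17803 _)
                (CovZ.n1 (27720, 27312) (by decide +kernel)
                 (CovZ.leaf K2_ok TD_l18603 _)
                 (CovZ.leaf K2_ok TD_l18604 _))))
              (CovZ.n1 (27696, 27264) (by decide +kernel)
               (CovZ.badM (by decide +kernel))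
               (CovZ.n1 (27720, 27288) (by decide +kernel)
                (CovZ.badM (by decide +kernel))
                (CovZ.leaf K2_ok TD_l18605 _))))
             (CovZ.n1 (27792, 27312) (by decide +kernel)
              (CovZ.subM 3885337842573659184788654719619192397723861174765189314123986065846166168132437147648 (by decide +kernel)
               (CovZ.n2 (27792, 27264) (by decide +kernel)
                (CovZ.badM (by decide +kernel))
                (CovZ.n1 (27816, 27288) (by decide +kernel)
                 (CovZ.n2 (27816, 27264) (by decide +kernel)
                  (CovZ.leaf K2_ok TD_l18606 _)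
                  (CovZ.leaf K2_ok TD_l17804 _))
                 (CovZ.leaf K2_ok TD_l18607 _))))
              (CovZ.n1 (27744, 27312) (by decide +kernel)
               (CovZ.n2 (27768, 27336) (by decide +kernel)
                (CovZ.n2 (27768, 27312) (by decide +kernel)
                 (CovZ.leaf K2_ok TD_l17805 _)
                 (CovZ.leaf K2_ok TD_l17806 _))
                (CovZ.leaf K2_ok TD_l17807 _))
               (CovZ.leaf K2_ok TD_l18608 _)))))))
         (CovZ.n1 (27936, 27360) (by decide +kernel)
          (CovZ.subM 2436982281692940972624145775609191210718201075269894168199241906232647927893561142318983684941106992123920 (by decide +kernel)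
           (CovZ.n2 (27936, 27264) (by decide +kernel)
            (CovZ.n2 (27888, 27312) (by decide +kernel)
             (CovZ.n2 (27936, 27312) (by decide +kernel)
              (CovZ.n2 (27912, 27288) (by decide +kernel)
               (CovZ.leaf K2_ok TD_l9366 _)
               (CovZ.leaf K2_ok TD_l9367 _))
              (CovZ.n1 (27912, 27336) (by decide +kernel)
               (CovZ.leaf K2_ok TD_l9368 _)
               (CovZ.leaf K3_ok TD_l9369 _)))
             (CovZ.subM 2436982264604001722836980851718446856247374780346719930273023365533022241438762129781143298883411706384384 (by decide +kernel)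
              (CovZ.n1 (27888, 27264) (by decide +kernel)
               (CovZ.n2 (27864, 27288) (by decide +kernel)
                (CovZ.leaf K3_ok TD_l17808 _)
                (CovZ.n1 (27864, 27264) (by decide +kernel)
                 (CovZ.leaf K2_ok TD_l17809 _)
                 (CovZ.leaf K3_ok TD_l17810 _)))
               (CovZ.n1 (27912, 27288) (by decide +kernel)
                (CovZ.n2 (27912, 27264) (by decide +kernel)
                 (CovZ.leaf K2_ok TD_l17811 _)
                 (CovZ.leaf K2_ok TD_l17812 _))
                (CovZ.leaf K2_ok TD_l17813 _)))))
            (CovZ.n1 (27984, 27312) (by decide +kernel)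
             (CovZ.n2 (27984, 27264) (by decide +kernel)
              (CovZ.n2 (27960, 27288) (by decide +kernel)
               (CovZ.leaf K3_ok TD_l9370 _)
               (CovZ.leaf K2_ok TD_l9371 _))
              (CovZ.n1 (28008, 27288) (by decide +kernel)
               (CovZ.leaf K2_ok TD_l9372 _)
               (CovZ.leaf K2_ok TD_l9373 _)))
             (CovZ.n1 (27936, 27312) (by decide +kernel)
              (CovZ.n2 (27960, 27336) (by decide +kernel)
               (CovZ.leaf K3_ok TD_l9374 _)
               (CovZ.leaf K2_ok TD_l9375 _))
              (CovZ.leaf K2_ok TD_l9376 _)))))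
          (CovZ.subM 20784971739338297973896413373843886755830684284698733872291397917940343841869883426404092293443389781708818 (by decide +kernel)
           (CovZ.n1 (27840, 27360) (by decide +kernel)
            (CovZ.n2 (27888, 27408) (by decide +kernel)
             (CovZ.n2 (27888, 27360) (by decide +kernel)
              (CovZ.n2 (27864, 27384) (by decide +kernel)
               (CovZ.leaf K2_ok TD_l9377 _)
               (CovZ.leaf K2_ok TD_l9378 _))
              (CovZ.leaf K2_ok TD_l9379 _))
             (CovZ.leaf K2_ok TD_l9380 _))
            (CovZ.n1 (27888, 27312) (by decide +kernel)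
             (CovZ.n2 (27840, 27312) (by decide +kernel)
              (CovZ.n2 (27864, 27336) (by decide +kernel)
               (CovZ.leaf K3_ok TD_l17814 _)
               (CovZ.leaf K2_ok TD_l9381 _))
              (CovZ.leaf K3_ok TD_l17815 _))
             (CovZ.n1 (27888, 27360) (by decide +kernel)
              (CovZ.leaf K3_ok TD_l9382 _)
              (CovZ.n1 (27864, 27336) (by decide +kernel)
               (CovZ.leaf K3_ok TD_l9383 _)
               (CovZ.leaf K2_ok TD_l9384 _))))))))
        (CovZ.n1 (27648, 27456) (by decide +kernel)
         (CovZ.n2 (27744, 27552) (by decide +kernel)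
          (CovZ.n2 (27744, 27456) (by decide +kernel)
           (CovZ.subM 18347989474734337055437304806774916378871585283508013119422171213139799359842890688787602648067483911589906 (by decide +kernel)
            (CovZ.n2 (27696, 27504) (by decide +kernel)
             (CovZ.n2 (27744, 27504) (by decide +kernel)
              (CovZ.leaf K3_ok TD_l9385 _)
              (CovZ.leaf K3_ok TD_l9386 _))
             (CovZ.n1 (27696, 27456) (by decide +kernel)
              (CovZ.leaf K3_ok TD_l9387 _)
              (CovZ.leaf K3_ok TD_l9388 _))))
           (CovZ.n1 (27792, 27504) (by decide +kernel)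
            (CovZ.n2 (27792, 27456) (by decide +kernel)
             (CovZ.leaf K3_ok TD_l9389 _)
             (CovZ.leaf K2_ok TD_l9390 _))
            (CovZ.leaf K3_ok TD_l9391 _)))
          (CovZ.subM 18347989474734337055437304806774930513648103510582649785802177156487925979714065693739267620917094252548114 (by decide +kernel)
           (CovZ.n1 (27648, 27552) (by decide +kernel)
            (CovZ.n2 (27696, 27600) (by decide +kernel)
             (CovZ.n2 (27696, 27552) (by decide +kernel)
              (CovZ.leaf K3_ok TD_l9392 _)
              (CovZ.leaf K3_ok TD_l9393 _))
             (CovZ.leaf K3_ok TD_l9394 _))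
            (CovZ.leaf K3_ok TD_l9395 _))))
         (CovZ.subM 18347989474734337055441190144588542015747044889371935724996953875372913641418526766482621581422723914010642 (by decide +kernel)
          (CovZ.n1 (27744, 27360) (by decide +kernel)
           (CovZ.n2 (27648, 27360) (by decide +kernel)
            (CovZ.n2 (27696, 27408) (by decide +kernel)
             (CovZ.subM 1083766796785157472053496527363621854552457707313213896315374712774707907757341681481202794496 (by decide +kernel)
              (CovZ.n2 (27696, 27360) (by decide +kernel)
               (CovZ.n2 (27672, 27384) (by decide +kernel)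
                (CovZ.leaf K2_ok TD_l17816 _)
                (CovZ.n1 (27672, 27360) (by decide +kernel)
                 (CovZ.leaf K2_ok TD_l18609 _)
                 (CovZ.leaf K2_ok TD_l18610 _)))
               (CovZ.n1 (27720, 27384) (by decide +kernel)
                (CovZ.leaf K2_ok TD_l17817 _)
                (CovZ.leaf K2_ok TD_l17818 _))))
             (CovZ.n1 (27648, 27408) (by decide +kernel)
              (CovZ.n2 (27672, 27432) (by decide +kernel)
               (CovZ.n2 (27672, 27408) (by decide +kernel)
                (CovZ.leaf K2_ok TD_l17819 _)
                (CovZ.leaf K2_ok TD_l17820 _))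
               (CovZ.leaf K2_ok TD_l9396 _))
              (CovZ.leaf K2_ok TD_l17821 _)))
            (CovZ.subM 1083703139410897019363300638435855842900914225050019863439763490399937847981789181169264230400 (by decide +kernel)
             (CovZ.n1 (27696, 27312) (by decide +kernel)
              (CovZ.subM 1042962419883258728842871989630040688047306860184738135808602670538321254213516061988288987136 (by decide +kernel)
               (CovZ.n2 (27648, 27312) (by decide +kernel)
                (CovZ.n2 (27672, 27336) (by decide +kernel)
                 (CovZ.n2 (27672, 27312) (by decide +kernel)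
                  (CovZ.badM (by decide +kernel))
                  (CovZ.leaf K3_ok TD_l18611 _))
                 (CovZ.badM (by decide +kernel)))
                (CovZ.badM (by decide +kernel))))
              (CovZ.n1 (27696, 27360) (by decide +kernel)
               (CovZ.leaf K3_ok TD_l17822 _)
               (CovZ.n1 (27672, 27336) (by decide +kernel)
                (CovZ.leaf K3_ok TD_l18612 _)
                (CovZ.n1 (27696, 27336) (by decide +kernel)
                 (CovZ.leaf K2_ok TD_l18613 _)
                 (CovZ.leaf K2_ok TD_l18614 _)))))))
           (CovZ.n1 (27744, 27456) (by decide +kernel)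
            (CovZ.n2 (27792, 27408) (by decide +kernel)
             (CovZ.leaf K3_ok TD_l9397 _)
             (CovZ.n1 (27792, 27456) (by decide +kernel)
              (CovZ.leaf K2_ok TD_l9398 _)
              (CovZ.leaf K2_ok TD_l9399 _)))
            (CovZ.n1 (27696, 27408) (by decide +kernel)
             (CovZ.n2 (27696, 27456) (by decide +kernel)
              (CovZ.leaf K2_ok TD_l9400 _)
              (CovZ.n1 (27672, 27432) (by decide +kernel)
               (CovZ.leaf K2_ok TD_l9401 _)
               (CovZ.leaf K2_ok TD_l9402 _)))
             (CovZ.n1 (27744, 27408) (by decide +kernel)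
              (CovZ.n2 (27720, 27384) (by decide +kernel)
               (CovZ.leaf K2_ok TD_l9403 _)
               (CovZ.leaf K2_ok TD_l9404 _))
              (CovZ.leaf K2_ok TD_l9405 _))))))))

theorem TD_u125 : CovZ TD_M (toL (selN TD_LN 31105995667386630097885118992426969404753660758119273979100722411296191137993976592781242556705683904401426)) [0, 7, 6, 1] (27648, 27264) (27648, 26880) (28032, 27264) :=
    (CovZ.subM 2436982281691898010204261512731350445115617918430856148872053939061363613115689815648628281460275619565568 (by decide +kernel)
        (CovZ.n1 (27840, 27072) (by decide +kernel)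
         (CovZ.badM (by decide +kernel))
         (CovZ.n1 (27840, 27264) (by decide +kernel)
          (CovZ.n2 (27936, 27168) (by decide +kernel)
           (CovZ.subM 2436982264603830611813997420441087414633297615855859573107496564426568652837414920063116408615428966842368 (by decide +kernel)
            (CovZ.n2 (27840, 27168) (by decide +kernel)
             (CovZ.n2 (27888, 27216) (by decide +kernel)
              (CovZ.subM 3885337784451458141838923813647037813284813678104279042503624819477808570410416996352 (by decide +kernel)
               (CovZ.n2 (27888, 27168) (by decide +kernel)
                (CovZ.n2 (27864, 27192) (by decide +kernel)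
                 (CovZ.n2 (27888, 27192) (by decide +kernel)
                  (CovZ.badM (by decide +kernel))
                  (CovZ.leaf K2_ok TD_l18615 _))
                 (CovZ.badM (by decide +kernel)))
                (CovZ.n1 (27912, 27192) (by decide +kernel)
                 (CovZ.badM (by decide +kernel))
                 (CovZ.n1 (27888, 27192) (by decide +kernel)
                  (CovZ.leaf K2_ok TD_l18616 _)
                  (CovZ.badM (by decide +kernel))))))
              (CovZ.n1 (27840, 27216) (by decide +kernel)
               (CovZ.n2 (27864, 27240) (by decide +kernel)
                (CovZ.n2 (27864, 27216) (by decide +kernel)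
                 (CovZ.leaf K2_ok TD_l18617 _)
                 (CovZ.n1 (27876, 27228) (by decide +kernel)
                  (CovZ.leaf K2_ok TD_l18618 _)
                  (CovZ.leaf K2_ok TD_l18619 _)))
                (CovZ.leaf K2_ok TD_l18620 _))
               (CovZ.n1 (27864, 27192) (by decide +kernel)
                (CovZ.badM (by decide +kernel))
                (CovZ.n1 (27864, 27216) (by decide +kernel)
                 (CovZ.leaf K2_ok TD_l18621 _)
                 (CovZ.leaf K2_ok TD_l18622 _)))))
             (CovZ.badM (by decide +kernel))))
           (CovZ.n1 (27936, 27264) (by decide +kernel)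
            (CovZ.n2 (27984, 27216) (by decide +kernel)
             (CovZ.subM 2436982281691898010204261510878620477969740639682911902077225326458392811540326939778663441972788966981632 (by decide +kernel)
              (CovZ.n2 (27936, 27216) (by decide +kernel)
               (CovZ.n2 (27960, 27240) (by decide +kernel)
                (CovZ.n2 (27960, 27216) (by decide +kernel)
                 (CovZ.leaf K2_ok TD_l17823 _)
                 (CovZ.leaf K2_ok TD_l17824 _))
                (CovZ.leaf K2_ok TD_l17825 _))
               (CovZ.leaf K2_ok TD_l17826 _)))
             (CovZ.n1 (27984, 27264) (by decide +kernel)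
              (CovZ.leaf K2_ok TD_l9406 _)
              (CovZ.n1 (27960, 27240) (by decide +kernel)
               (CovZ.leaf K2_ok TD_l17827 _)
               (CovZ.leaf K2_ok TD_l17828 _))))
            (CovZ.subM 2436982264604001722836980851718446828613324134224860850054740344096684009453780046385300739295130039615488 (by decide +kernel)
             (CovZ.n1 (27888, 27216) (by decide +kernel)
              (CovZ.n2 (27888, 27264) (by decide +kernel)
               (CovZ.leaf K2_ok TD_l17829 _)
               (CovZ.n1 (27864, 27240) (by decide +kernel)
                (CovZ.leaf K2_ok TD_l17830 _)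
                (CovZ.n1 (27888, 27240) (by decide +kernel)
                 (CovZ.leaf K2_ok TD_l17831 _)
                 (CovZ.leaf K2_ok TD_l17832 _))))
              (CovZ.n1 (27936, 27216) (by decide +kernel)
               (CovZ.n2 (27912, 27192) (by decide +kernel)
                (CovZ.leaf K2_ok TD_l18623 _)
                (CovZ.badM (by decide +kernel)))
               (CovZ.n1 (27912, 27240) (by decide +kernel)
                (CovZ.leaf K2_ok TD_l17833 _)
                (CovZ.n1 (27912, 27216) (by decide +kernel)
                 (CovZ.leaf K2_ok TD_l17834 _)
                 (CovZ.leaf K2_ok TD_l17835 _))))))))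
          (CovZ.subM 3885339695247086981847781496754952536730386827084943964373010697167510294742511386624 (by decide +kernel)
           (CovZ.n1 (27744, 27168) (by decide +kernel)
            (CovZ.n2 (27744, 27264) (by decide +kernel)
             (CovZ.n2 (27792, 27216) (by decide +kernel)
              (CovZ.badM (by decide +kernel))
              (CovZ.n1 (27792, 27264) (by decide +kernel)
               (CovZ.n2 (27816, 27240) (by decide +kernel)
                (CovZ.badM (by decide +kernel))
                (CovZ.leaf K2_ok TD_l18624 _))
               (CovZ.badM (by decide +kernel))))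
             (CovZ.badM (by decide +kernel)))
            (CovZ.n1 (27840, 27168) (by decide +kernel)
             (CovZ.badM (by decide +kernel))
             (CovZ.n1 (27792, 27216) (by decide +kernel)
              (CovZ.n2 (27840, 27216) (by decide +kernel)
               (CovZ.badM (by decide +kernel))
               (CovZ.n1 (27816, 27240) (by decide +kernel)
                (CovZ.n2 (27840, 27240) (by decide +kernel)
                 (CovZ.leaf K2_ok TD_l18625 _)
                 (CovZ.leaf K2_ok TD_l18626 _))
                (CovZ.badM (by decide +kernel))))
              (CovZ.badM (by decide +kernel)))))))))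

theorem TD_u126 : CovZ TD_M (toL (selN TD_LN 31105995667386630097885118992426969404753660758119273979100722411296191137993976592781242556705683904401426)) [0, 7, 6, 1] (28416, 26880) (28416, 27264) (28032, 27264) :=
    (CovZ.subM 2436982315901069456447039777498239572224704426539584222842735614063184685921675512507077924243679728373776 (by decide +kernel)
        (CovZ.n2 (28224, 27072) (by decide +kernel)
         (CovZ.n2 (28224, 27264) (by decide +kernel)
          (CovZ.n2 (28320, 27168) (by decide +kernel)
           (CovZ.subM 51263819232405298778325832037593662617632637915196279576516059542113859423757132723639165587034128 (by decide +kernel)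
            (CovZ.n2 (28224, 27168) (by decide +kernel)
             (CovZ.n2 (28272, 27216) (by decide +kernel)
              (CovZ.n2 (28272, 27168) (by decide +kernel)
               (CovZ.leaf K2_ok TD_l9555 _)
               (CovZ.leaf K2_ok TD_l9556 _))
              (CovZ.n1 (28224, 27216) (by decide +kernel)
               (CovZ.leaf K2_ok TD_l9557 _)
               (CovZ.leaf K2_ok TD_l9558 _)))
             (CovZ.n1 (28272, 27120) (by decide +kernel)
              (CovZ.n2 (28224, 27120) (by decide +kernel)
               (CovZ.n2 (28248, 27144) (by decide +kernel)
                (CovZ.leaf K2_ok TD_l17854 _)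
                (CovZ.leaf K2_ok TD_l17855 _))
               (CovZ.leaf K2_ok TD_l17856 _))
              (CovZ.n1 (28272, 27168) (by decide +kernel)
               (CovZ.leaf K2_ok TD_l9559 _)
               (CovZ.n1 (28248, 27144) (by decide +kernel)
                (CovZ.leaf K2_ok TD_l17857 _)
                (CovZ.leaf K2_ok TD_l17858 _))))))
           (CovZ.n1 (28320, 27264) (by decide +kernel)
            (CovZ.leaf K2_ok TD_l9560 _)
            (CovZ.n1 (28272, 27216) (by decide +kernel)
             (CovZ.leaf K2_ok TD_l9561 _)
             (CovZ.n1 (28320, 27216) (by decide +kernel)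
              (CovZ.leaf K2_ok TD_l9562 _)
              (CovZ.leaf K2_ok TD_l9563 _)))))
          (CovZ.n1 (28128, 27168) (by decide +kernel)
           (CovZ.n2 (28128, 27264) (by decide +kernel)
            (CovZ.subM 143483665701793906013933985242864280951151895557169089134167381422888179874194005038915201550897822830608 (by decide +kernel)
             (CovZ.n2 (28176, 27216) (by decide +kernel)
              (CovZ.n2 (28128, 27216) (by decide +kernel)
               (CovZ.n2 (28152, 27240) (by decide +kernel)
                (CovZ.leaf K2_ok TD_l9564 _)
                (CovZ.leaf K2_ok TD_l9565 _))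
               (CovZ.leaf K2_ok TD_l9566 _))
              (CovZ.n1 (28176, 27264) (by decide +kernel)
               (CovZ.leaf K3_ok TD_l9567 _)
               (CovZ.n1 (28152, 27240) (by decide +kernel)
                (CovZ.leaf K2_ok TD_l9568 _)
                (CovZ.leaf K2_ok TD_l9569 _)))))
            (CovZ.n1 (28080, 27216) (by decide +kernel)
             (CovZ.n2 (28080, 27264) (by decide +kernel)
              (CovZ.leaf K3_ok TD_l9570 _)
              (CovZ.n1 (28056, 27240) (by decide +kernel)
               (CovZ.leaf K2_ok TD_l9571 _)
               (CovZ.leaf K3_ok TD_l9572 _)))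
             (CovZ.subM 2436982281691865417624754880602394953544751662716013021010577002683413843091536081097923951929755753779216 (by decide +kernel)
              (CovZ.n1 (28128, 27216) (by decide +kernel)
               (CovZ.n2 (28104, 27192) (by decide +kernel)
                (CovZ.leaf K2_ok TD_l17859 _)
                (CovZ.leaf K2_ok TD_l17860 _))
               (CovZ.n1 (28104, 27240) (by decide +kernel)
                (CovZ.leaf K2_ok TD_l9573 _)
                (CovZ.leaf K2_ok TD_l17861 _))))))
           (CovZ.subM 140002202414436538257679286483847151366583734151518900568078961205500117396053934310812580018264215568 (by decide +kernel)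
            (CovZ.n1 (28224, 27168) (by decide +kernel)
             (CovZ.subM 17088026657670737400716542703010562229208221301653127823360369473330433797736292821607735462199296 (by decide +kernel)
              (CovZ.n2 (28176, 27120) (by decide +kernel)
               (CovZ.n2 (28176, 27168) (by decide +kernel)
                (CovZ.leaf K2_ok TD_l17862 _)
                (CovZ.n1 (28152, 27144) (by decide +kernel)
                 (CovZ.leaf K2_ok TD_l17863 _)
                 (CovZ.n1 (28176, 27144) (by decide +kernel)
                  (CovZ.leaf K2_ok TD_l17864 _)
                  (CovZ.leaf K2_ok TD_l17865 _))))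
               (CovZ.n1 (28224, 27120) (by decide +kernel)
                (CovZ.n2 (28200, 27096) (by decide +kernel)
                 (CovZ.leaf K2_ok TD_l17866 _)
                 (CovZ.leaf K2_ok TD_l17867 _))
                (CovZ.n1 (28200, 27144) (by decide +kernel)
                 (CovZ.leaf K2_ok TD_l17868 _)
                 (CovZ.leaf K2_ok TD_l17869 _)))))
             (CovZ.n1 (28176, 27216) (by decide +kernel)
              (CovZ.n2 (28224, 27216) (by decide +kernel)
               (CovZ.n2 (28200, 27192) (by decide +kernel)
                (CovZ.leaf K2_ok TD_l9574 _)
                (CovZ.leaf K2_ok TD_l9575 _))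
               (CovZ.leaf K2_ok TD_l9576 _))
              (CovZ.subM 140001134412770433897300144627920283836888920142791697267893553411859130351345998842730123304724598784 (by decide +kernel)
               (CovZ.n1 (28176, 27168) (by decide +kernel)
                (CovZ.n2 (28152, 27192) (by decide +kernel)
                 (CovZ.leaf K2_ok TD_l9577 _)
                 (CovZ.n1 (28152, 27168) (by decide +kernel)
                  (CovZ.leaf K2_ok TD_l17870 _)
                  (CovZ.leaf K2_ok TD_l17871 _)))
                (CovZ.n1 (28200, 27192) (by decide +kernel)
                 (CovZ.leaf K2_ok TD_l17872 _)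
                 (CovZ.leaf K2_ok TD_l9578 _)))))))))
         (CovZ.n1 (28416, 27072) (by decide +kernel)
          (CovZ.subM 51297067733611030200940299379507915522797874788738384875020715228577723802377182933201536036110336 (by decide +kernel)
           (CovZ.n2 (28320, 26976) (by decide +kernel)
            (CovZ.n2 (28320, 27072) (by decide +kernel)
             (CovZ.n2 (28368, 27024) (by decide +kernel)
              (CovZ.subM 34175792574734561318324418114565762804475837393505492124109289958057012086408022012807530609115136 (by decide +kernel)
               (CovZ.n2 (28320, 27024) (by decide +kernel)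
                (CovZ.n2 (28344, 27048) (by decide +kernel)
                 (CovZ.n2 (28344, 27024) (by decide +kernel)
                  (CovZ.leaf K2_ok TD_l17873 _)
                  (CovZ.leaf K2_ok TD_l17874 _))
                 (CovZ.leaf K2_ok TD_l17875 _))
                (CovZ.leaf K2_ok TD_l17876 _)))
              (CovZ.n1 (28368, 27072) (by decide +kernel)
               (CovZ.leaf K2_ok TD_l17877 _)
               (CovZ.n1 (28344, 27048) (by decide +kernel)
                (CovZ.leaf K2_ok TD_l17878 _)
                (CovZ.leaf K2_ok TD_l17879 _))))
             (CovZ.n1 (28272, 27024) (by decide +kernel)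
              (CovZ.n2 (28272, 27072) (by decide +kernel)
               (CovZ.leaf K2_ok TD_l17880 _)
               (CovZ.n1 (28248, 27048) (by decide +kernel)
                (CovZ.leaf K2_ok TD_l17881 _)
                (CovZ.n1 (28272, 27048) (by decide +kernel)
                 (CovZ.leaf K2_ok TD_l17882 _)
                 (CovZ.leaf K2_ok TD_l17883 _))))
              (CovZ.subM 34175792574734561318324418114565762804475837393505492124109289958057012086408022012807530609115136 (by decide +kernel)
               (CovZ.n1 (28320, 27024) (by decide +kernel)
                (CovZ.n2 (28296, 27000) (by decide +kernel)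
                 (CovZ.leaf K2_ok TD_l17884 _)
                 (CovZ.n1 (28320, 27000) (by decide +kernel)
                  (CovZ.leaf K2_ok TD_l18627 _)
                  (CovZ.leaf K2_ok TD_l17885 _)))
                (CovZ.n1 (28296, 27048) (by decide +kernel)
                 (CovZ.n2 (28320, 27048) (by decide +kernel)
                  (CovZ.leaf K2_ok TD_l17886 _)
                  (CovZ.leaf K2_ok TD_l17887 _))
                 (CovZ.n1 (28296, 27024) (by decide +kernel)
                  (CovZ.leaf K2_ok TD_l17888 _)
                  (CovZ.leaf K2_ok TD_l17889 _)))))))
            (CovZ.n1 (28416, 26976) (by decide +kernel)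
             (CovZ.subM 452312848583266388373324160190187140051835877600158453279131187530910662656 (by decide +kernel)
              (CovZ.n2 (28368, 26928) (by decide +kernel)
               (CovZ.n2 (28368, 26976) (by decide +kernel)
                (CovZ.badM (by decide +kernel))
                (CovZ.n1 (28344, 26952) (by decide +kernel)
                 (CovZ.n2 (28344, 26976) (by decide +kernel)
                  (CovZ.leaf K2_ok TD_l18628 _)
                  (CovZ.leaf K2_ok TD_l18629 _))
                 (CovZ.badM (by decide +kernel))))
               (CovZ.badM (by decide +kernel))))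
             (CovZ.n1 (28368, 27024) (by decide +kernel)
              (CovZ.n2 (28416, 27024) (by decide +kernel)
               (CovZ.n2 (28392, 27000) (by decide +kernel)
                (CovZ.leaf K2_ok TD_l17891 _)
                (CovZ.leaf K3_ok TD_l17892 _))
               (CovZ.n1 (28392, 27048) (by decide +kernel)
                (CovZ.n2 (28416, 27048) (by decide +kernel)
                 (CovZ.leaf K2_ok TD_l17893 _)
                 (CovZ.leaf K2_ok TD_l17894 _))
                (CovZ.n1 (28392, 27024) (by decide +kernel)
                 (CovZ.leaf K2_ok TD_l17895 _)
                 (CovZ.leaf K2_ok TD_l17896 _))))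
              (CovZ.n1 (28368, 26976) (by decide +kernel)
               (CovZ.subM 34175792574734561318324418114565762804475837393505492124109289293443014193950085560904000468942848 (by decide +kernel)
                (CovZ.n2 (28344, 27000) (by decide +kernel)
                 (CovZ.n2 (28368, 27000) (by decide +kernel)
                  (CovZ.leaf K2_ok TD_l17897 _)
                  (CovZ.leaf K2_ok TD_l17898 _))
                 (CovZ.n1 (28344, 26976) (by decide +kernel)
                  (CovZ.leaf K2_ok TD_l17899 _)
                  (CovZ.n1 (28356, 26988) (by decide +kernel)
                   (CovZ.leaf K2_ok TD_l18630 _)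
                   (CovZ.leaf K2_ok TD_l17900 _)))))
               (CovZ.n1 (28392, 27000) (by decide +kernel)
                (CovZ.n2 (28392, 26976) (by decide +kernel)
                 (CovZ.leaf K2_ok TD_l17901 _)
                 (CovZ.leaf K3_ok TD_l17902 _))
                (CovZ.leaf K3_ok TD_l17903 _)))))))
          (CovZ.n1 (28320, 27168) (by decide +kernel)
           (CovZ.subM 34209171446242778266619619094228003840202272043870847467819317014042284198321778716107812040085520 (by decide +kernel)
            (CovZ.n2 (28416, 27168) (by decide +kernel)
             (CovZ.n2 (28368, 27120) (by decide +kernel)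
              (CovZ.n2 (28368, 27168) (by decide +kernel)
               (CovZ.leaf K2_ok TD_l9579 _)
               (CovZ.n1 (28344, 27144) (by decide +kernel)
                (CovZ.leaf K2_ok TD_l9580 _)
                (CovZ.leaf K2_ok TD_l9581 _)))
              (CovZ.n1 (28416, 27120) (by decide +kernel)
               (CovZ.n2 (28392, 27096) (by decide +kernel)
                (CovZ.leaf K2_ok TD_l9582 _)
                (CovZ.leaf K2_ok TD_l9583 _))
               (CovZ.leaf K2_ok TD_l9584 _)))
             (CovZ.n1 (28368, 27216) (by decide +kernel)
              (CovZ.n2 (28416, 27216) (by decide +kernel)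
               (CovZ.leaf K2_ok TD_l9585 _)
               (CovZ.leaf K2_ok TD_l9586 _))
              (CovZ.n1 (28368, 27168) (by decide +kernel)
               (CovZ.leaf K2_ok TD_l9587 _)
               (CovZ.leaf K2_ok TD_l9588 _)))))
           (CovZ.subM 51297198103913515667335370249537865779881080610634561677342662327676877985569050022322762812489744 (by decide +kernel)
            (CovZ.n1 (28320, 27072) (by decide +kernel)
             (CovZ.n2 (28272, 27120) (by decide +kernel)
              (CovZ.subM 34175792574734561377609967804071654861356736017205445610629249991564096786053175505421233714888720 (by decide +kernel)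
               (CovZ.n2 (28320, 27120) (by decide +kernel)
                (CovZ.n2 (28296, 27096) (by decide +kernel)
                 (CovZ.leaf K2_ok TD_l17904 _)
                 (CovZ.leaf K2_ok TD_l17905 _))
                (CovZ.n1 (28296, 27144) (by decide +kernel)
                 (CovZ.leaf K2_ok TD_l9589 _)
                 (CovZ.leaf K2_ok TD_l17906 _))))
              (CovZ.subM 51263688862102813311930704628457639452263439631063780152750874116638520140465598763219737844383744 (by decide +kernel)
               (CovZ.n1 (28272, 27072) (by decide +kernel)
                (CovZ.n2 (28248, 27096) (by decide +kernel)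
                 (CovZ.leaf K2_ok TD_l17907 _)
                 (CovZ.n1 (28248, 27072) (by decide +kernel)
                  (CovZ.leaf K2_ok TD_l17908 _)
                  (CovZ.leaf K2_ok TD_l17909 _)))
                (CovZ.n1 (28296, 27096) (by decide +kernel)
                 (CovZ.n2 (28296, 27072) (by decide +kernel)
                  (CovZ.leaf K2_ok TD_l17910 _)
                  (CovZ.leaf K2_ok TD_l17911 _))
                 (CovZ.leaf K2_ok TD_l17912 _)))))
             (CovZ.n1 (28368, 27120) (by decide +kernel)
              (CovZ.n2 (28368, 27072) (by decide +kernel)
               (CovZ.n2 (28344, 27096) (by decide +kernel)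
                (CovZ.leaf K2_ok TD_l17913 _)
                (CovZ.leaf K2_ok TD_l17914 _))
               (CovZ.n1 (28392, 27096) (by decide +kernel)
                (CovZ.leaf K2_ok TD_l17915 _)
                (CovZ.leaf K2_ok TD_l17916 _)))
              (CovZ.n1 (28320, 27120) (by decide +kernel)
               (CovZ.n2 (28344, 27144) (by decide +kernel)
                (CovZ.leaf K2_ok TD_l9590 _)
                (CovZ.leaf K2_ok TD_l9591 _))
               (CovZ.leaf K2_ok TD_l17917 _)))))))))

theorem TD_u127 : CovZ TD_M (toL (selN TD_LN 31105995667386630097885118992426969404753660758119273979100722411296191137993976592781242556705683904401426)) [0, 7, 6, 1] (28416, 27264) (28416, 27648) (28032, 27264) :=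
    (CovZ.n1 (28224, 27456) (by decide +kernel)
        (CovZ.subM 143344261609258769142173066417378136625583565369639236258372012566033135015760620971982680657028835184658 (by decide +kernel)
         (CovZ.n2 (28416, 27456) (by decide +kernel)
          (CovZ.n2 (28320, 27360) (by decide +kernel)
           (CovZ.n2 (28320, 27456) (by decide +kernel)
            (CovZ.leaf K2_ok TD_l9592 _)
            (CovZ.n1 (28272, 27408) (by decide +kernel)
             (CovZ.leaf K2_ok TD_l9593 _)
             (CovZ.leaf K2_ok TD_l9594 _)))
           (CovZ.n1 (28416, 27360) (by decide +kernel)
            (CovZ.n2 (28368, 27312) (by decide +kernel)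
             (CovZ.leaf K2_ok TD_l9595 _)
             (CovZ.n1 (28416, 27312) (by decide +kernel)
              (CovZ.leaf K2_ok TD_l9596 _)
              (CovZ.leaf K2_ok TD_l9597 _)))
            (CovZ.n1 (28368, 27408) (by decide +kernel)
             (CovZ.leaf K2_ok TD_l9598 _)
             (CovZ.leaf K2_ok TD_l9599 _))))
          (CovZ.n1 (28320, 27552) (by decide +kernel)
           (CovZ.n2 (28416, 27552) (by decide +kernel)
            (CovZ.n2 (28368, 27504) (by decide +kernel)
             (CovZ.leaf K2_ok TD_l9600 _)
             (CovZ.leaf K2_ok TD_l9601 _))
            (CovZ.leaf K3_ok TD_l9602 _))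
           (CovZ.n1 (28320, 27456) (by decide +kernel)
            (CovZ.n2 (28272, 27504) (by decide +kernel)
             (CovZ.leaf K3_ok TD_l9603 _)
             (CovZ.leaf K2_ok TD_l9604 _))
            (CovZ.n1 (28368, 27504) (by decide +kernel)
             (CovZ.leaf K3_ok TD_l9605 _)
             (CovZ.leaf K2_ok TD_l9606 _))))))
        (CovZ.n1 (28224, 27264) (by decide +kernel)
         (CovZ.subM 20784971756425151298843809825706931325450789642880942623913211535530636827979794539462979131996117459275794 (by decide +kernel)
          (CovZ.n2 (28128, 27360) (by decide +kernel)
           (CovZ.n2 (28224, 27360) (by decide +kernel)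
            (CovZ.n2 (28176, 27312) (by decide +kernel)
             (CovZ.leaf K2_ok TD_l9607 _)
             (CovZ.n1 (28224, 27312) (by decide +kernel)
              (CovZ.leaf K3_ok TD_l9608 _)
              (CovZ.leaf K2_ok TD_l9609 _)))
            (CovZ.n1 (28176, 27408) (by decide +kernel)
             (CovZ.leaf K2_ok TD_l9610 _)
             (CovZ.n1 (28176, 27360) (by decide +kernel)
              (CovZ.leaf K2_ok TD_l9611 _)
              (CovZ.leaf K2_ok TD_l9612 _))))
           (CovZ.n1 (28128, 27264) (by decide +kernel)
            (CovZ.n2 (28080, 27312) (by decide +kernel)
             (CovZ.n2 (28128, 27312) (by decide +kernel)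
              (CovZ.n2 (28104, 27288) (by decide +kernel)
               (CovZ.leaf K3_ok TD_l9613 _)
               (CovZ.leaf K2_ok TD_l9614 _))
              (CovZ.leaf K3_ok TD_l9615 _))
             (CovZ.n1 (28080, 27264) (by decide +kernel)
              (CovZ.leaf K2_ok TD_l9616 _)
              (CovZ.n1 (28104, 27288) (by decide +kernel)
               (CovZ.leaf K2_ok TD_l9617 _)
               (CovZ.leaf K3_ok TD_l9618 _))))
            (CovZ.n1 (28176, 27312) (by decide +kernel)
             (CovZ.n2 (28176, 27264) (by decide +kernel)
              (CovZ.leaf K2_ok TD_l9619 _)
              (CovZ.leaf K3_ok TD_l9620 _))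
             (CovZ.leaf K3_ok TD_l9621 _)))))
         (CovZ.subM 143344261609258769142173066417364001849065338295002569878366069217906515144585616020317707807418494226450 (by decide +kernel)
          (CovZ.n1 (28320, 27360) (by decide +kernel)
           (CovZ.n2 (28320, 27264) (by decide +kernel)
            (CovZ.n2 (28272, 27312) (by decide +kernel)
             (CovZ.n2 (28320, 27312) (by decide +kernel)
              (CovZ.leaf K2_ok TD_l9622 _)
              (CovZ.leaf K2_ok TD_l9623 _))
             (CovZ.n1 (28272, 27264) (by decide +kernel)
              (CovZ.leaf K3_ok TD_l9624 _)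
              (CovZ.leaf K2_ok TD_l9625 _)))
            (CovZ.n1 (28368, 27312) (by decide +kernel)
             (CovZ.n2 (28368, 27264) (by decide +kernel)
              (CovZ.leaf K2_ok TD_l9626 _)
              (CovZ.leaf K2_ok TD_l9627 _))
             (CovZ.leaf K2_ok TD_l9628 _)))
           (CovZ.n1 (28224, 27360) (by decide +kernel)
            (CovZ.n2 (28272, 27408) (by decide +kernel)
             (CovZ.n2 (28272, 27360) (by decide +kernel)
              (CovZ.leaf K3_ok TD_l9629 _)
              (CovZ.leaf K2_ok TD_l9630 _))
             (CovZ.leaf K2_ok TD_l9631 _))
            (CovZ.leaf K3_ok TD_l9632 _))))))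

theorem TD_u128 : CovZ TD_M (toL (selN TD_LN 31105995667386630097885118992426969404753660758119273979100722411296191137993976592781242556705683904401426)) [0, 7, 6, 1] (29184, 27648) (28416, 27648) (28416, 26880) :=
    (CovZ.subM 10321024457773116968717031851352377250495215710229168916201032372590725300687521609032716310054454265647122 (by decide +kernel)
      (CovZ.n2 (28800, 27264) (by decide +kernel)
       (CovZ.n2 (28416, 27264) (by decide +kernel)
        (CovZ.n2 (28608, 27456) (by decide +kernel)
         (CovZ.n2 (28608, 27264) (by decide +kernel)
          (CovZ.n2 (28512, 27360) (by decide +kernel)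
           (CovZ.n2 (28608, 27360) (by decide +kernel)
            (CovZ.n2 (28560, 27312) (by decide +kernel)
             (CovZ.leaf K2_ok TD_l9407 _)
             (CovZ.leaf K2_ok TD_l9408 _))
            (CovZ.n1 (28560, 27408) (by decide +kernel)
             (CovZ.leaf K2_ok TD_l9409 _)
             (CovZ.leaf K2_ok TD_l9410 _)))
           (CovZ.n1 (28512, 27264) (by decide +kernel)
            (CovZ.n2 (28464, 27312) (by decide +kernel)
             (CovZ.leaf K2_ok TD_l9411 _)
             (CovZ.n1 (28464, 27264) (by decide +kernel)
              (CovZ.leaf K2_ok TD_l9412 _)
              (CovZ.leaf K2_ok TD_l9413 _)))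
            (CovZ.n1 (28560, 27312) (by decide +kernel)
             (CovZ.leaf K2_ok TD_l9414 _)
             (CovZ.leaf K2_ok TD_l9415 _))))
          (CovZ.n1 (28704, 27360) (by decide +kernel)
           (CovZ.n2 (28704, 27264) (by decide +kernel)
            (CovZ.n2 (28656, 27312) (by decide +kernel)
             (CovZ.leaf K2_ok TD_l9416 _)
             (CovZ.leaf K2_ok TD_l9417 _))
            (CovZ.n1 (28752, 27312) (by decide +kernel)
             (CovZ.leaf K2_ok TD_l9418 _)
             (CovZ.leaf K2_ok TD_l9419 _)))
           (CovZ.n1 (28608, 27360) (by decide +kernel)
            (CovZ.leaf K2_ok TD_l9420 _)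
            (CovZ.leaf K2_ok TD_l9421 _))))
         (CovZ.n1 (28416, 27456) (by decide +kernel)
          (CovZ.n2 (28512, 27552) (by decide +kernel)
           (CovZ.n2 (28512, 27456) (by decide +kernel)
            (CovZ.n2 (28464, 27504) (by decide +kernel)
             (CovZ.leaf K3_ok TD_l9422 _)
             (CovZ.leaf K2_ok TD_l9423 _))
            (CovZ.leaf K2_ok TD_l9424 _))
           (CovZ.leaf K3_ok TD_l9425 _))
          (CovZ.n1 (28512, 27360) (by decide +kernel)
           (CovZ.n2 (28416, 27360) (by decide +kernel)
            (CovZ.n2 (28464, 27408) (by decide +kernel)
             (CovZ.leaf K2_ok TD_l9426 _)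
             (CovZ.leaf K2_ok TD_l9427 _))
            (CovZ.leaf K2_ok TD_l9428 _))
           (CovZ.n1 (28512, 27456) (by decide +kernel)
            (CovZ.leaf K2_ok TD_l9429 _)
            (CovZ.n1 (28464, 27408) (by decide +kernel)
             (CovZ.leaf K3_ok TD_l9430 _)
             (CovZ.leaf K2_ok TD_l9431 _))))))
        (CovZ.n1 (28608, 27072) (by decide +kernel)
         (CovZ.n2 (28416, 27072) (by decide +kernel)
          (CovZ.n2 (28512, 27168) (by decide +kernel)
           (CovZ.n2 (28512, 27072) (by decide +kernel)
            (CovZ.n2 (28464, 27120) (by decide +kernel)
             (CovZ.n2 (28512, 27120) (by decide +kernel)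
              (CovZ.leaf K2_ok TD_l9432 _)
              (CovZ.leaf K2_ok TD_l9433 _))
             (CovZ.n1 (28464, 27072) (by decide +kernel)
              (CovZ.n2 (28440, 27096) (by decide +kernel)
               (CovZ.leaf K2_ok TD_l9434 _)
               (CovZ.leaf K2_ok TD_l17836 _))
              (CovZ.leaf K2_ok TD_l9435 _)))
            (CovZ.n1 (28560, 27120) (by decide +kernel)
             (CovZ.n2 (28560, 27072) (by decide +kernel)
              (CovZ.leaf K2_ok TD_l9436 _)
              (CovZ.leaf K2_ok TD_l9437 _))
             (CovZ.leaf K2_ok TD_l9438 _)))
           (CovZ.n1 (28416, 27168) (by decide +kernel)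
            (CovZ.n2 (28464, 27216) (by decide +kernel)
             (CovZ.n2 (28464, 27168) (by decide +kernel)
              (CovZ.leaf K2_ok TD_l9439 _)
              (CovZ.leaf K2_ok TD_l9440 _))
             (CovZ.leaf K2_ok TD_l9441 _))
            (CovZ.n1 (28464, 27120) (by decide +kernel)
             (CovZ.leaf K2_ok TD_l9442 _)
             (CovZ.n1 (28464, 27168) (by decide +kernel)
              (CovZ.leaf K2_ok TD_l9443 _)
              (CovZ.leaf K2_ok TD_l9444 _)))))
          (CovZ.subM 10320743806164493248491472295478953788706473383160990435169973471667915624747897436454934776097887467077648 (by decide +kernel)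
           (CovZ.n1 (28512, 26976) (by decide +kernel)
            (CovZ.subM 9173994498169457492686061788542360628802298831695951345382196869572547800593279322207263293315739482587136 (by decide +kernel)
             (CovZ.n2 (28416, 26976) (by decide +kernel)
              (CovZ.n2 (28464, 27024) (by decide +kernel)
               (CovZ.n2 (28464, 26976) (by decide +kernel)
                (CovZ.n2 (28440, 27000) (by decide +kernel)
                 (CovZ.leaf K2_ok TD_l17837 _)
                 (CovZ.n1 (28440, 26976) (by decide +kernel)
                  (CovZ.leaf K2_ok TD_l17838 _)
                  (CovZ.leaf K3_ok TD_l17839 _)))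
                (CovZ.n1 (28488, 27000) (by decide +kernel)
                 (CovZ.n2 (28488, 26976) (by decide +kernel)
                  (CovZ.leaf K2_ok TD_l17840 _)
                  (CovZ.leaf K2_ok TD_l17841 _))
                 (CovZ.leaf K2_ok TD_l17842 _)))
               (CovZ.n1 (28416, 27024) (by decide +kernel)
                (CovZ.n2 (28440, 27048) (by decide +kernel)
                 (CovZ.leaf K2_ok TD_l17843 _)
                 (CovZ.leaf K2_ok TD_l17844 _))
                (CovZ.leaf K2_ok TD_l17845 _)))
              (CovZ.subM 9173994498136078621177844899528695062114773363653601971060903849791103168281069914797568649285714860572672 (by decide +kernel)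
               (CovZ.n1 (28464, 26928) (by decide +kernel)
                (CovZ.n2 (28416, 26928) (by decide +kernel)
                 (CovZ.n2 (28440, 26952) (by decide +kernel)
                  (CovZ.badM (by decide +kernel))
                  (CovZ.badM (by decide +kernel)))
                 (CovZ.badM (by decide +kernel)))
                (CovZ.n1 (28464, 26976) (by decide +kernel)
                 (CovZ.leaf K2_ok TD_l17846 _)
                 (CovZ.n1 (28440, 26952) (by decide +kernel)
                  (CovZ.leaf K3_ok TD_l18995 _)
                  (CovZ.badM (by decide +kernel))))))))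
            (CovZ.n1 (28512, 27072) (by decide +kernel)
             (CovZ.n2 (28560, 27024) (by decide +kernel)
              (CovZ.n2 (28512, 27024) (by decide +kernel)
               (CovZ.n2 (28536, 27048) (by decide +kernel)
                (CovZ.leaf K2_ok TD_l17847 _)
                (CovZ.leaf K2_ok TD_l9445 _))
               (CovZ.leaf K2_ok TD_l17848 _))
              (CovZ.n1 (28560, 27072) (by decide +kernel)
               (CovZ.leaf K2_ok TD_l9446 _)
               (CovZ.n1 (28536, 27048) (by decide +kernel)
                (CovZ.leaf K2_ok TD_l9447 _)
                (CovZ.leaf K2_ok TD_l9448 _))))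
             (CovZ.n1 (28464, 27024) (by decide +kernel)
              (CovZ.n2 (28464, 27072) (by decide +kernel)
               (CovZ.leaf K2_ok TD_l9449 _)
               (CovZ.n1 (28440, 27048) (by decide +kernel)
                (CovZ.leaf K2_ok TD_l17849 _)
                (CovZ.leaf K2_ok TD_l17850 _)))
              (CovZ.n1 (28512, 27024) (by decide +kernel)
               (CovZ.n2 (28488, 27000) (by decide +kernel)
                (CovZ.leaf K2_ok TD_l17851 _)
                (CovZ.leaf K2_ok TD_l17852 _))
               (CovZ.n1 (28488, 27048) (by decide +kernel)
                (CovZ.leaf K2_ok TD_l9450 _)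
                (CovZ.leaf K2_ok TD_l17853 _))))))))
         (CovZ.n1 (28608, 27264) (by decide +kernel)
          (CovZ.n2 (28704, 27168) (by decide +kernel)
           (CovZ.subM 10321023740081472899283230657444129858376988021593245732815581838292926861751884561659345431487690472165392 (by decide +kernel)
            (CovZ.n2 (28608, 27168) (by decide +kernel)
             (CovZ.n2 (28656, 27216) (by decide +kernel)
              (CovZ.n2 (28656, 27168) (by decide +kernel)
               (CovZ.leaf K2_ok TD_l9451 _)
               (CovZ.leaf K2_ok TD_l9452 _))
              (CovZ.leaf K2_ok TD_l9453 _))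
             (CovZ.leaf K2_ok TD_l9454 _)))
           (CovZ.n1 (28704, 27264) (by decide +kernel)
            (CovZ.leaf K2_ok TD_l9455 _)
            (CovZ.n1 (28656, 27216) (by decide +kernel)
             (CovZ.leaf K2_ok TD_l9456 _)
             (CovZ.leaf K2_ok TD_l9457 _))))
          (CovZ.n1 (28512, 27168) (by decide +kernel)
           (CovZ.n2 (28512, 27264) (by decide +kernel)
            (CovZ.leaf K2_ok TD_l9458 _)
            (CovZ.n1 (28464, 27216) (by decide +kernel)
             (CovZ.leaf K2_ok TD_l9459 _)
             (CovZ.n1 (28512, 27216) (by decide +kernel)
              (CovZ.leaf K2_ok TD_l9460 _)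
              (CovZ.leaf K2_ok TD_l9461 _))))
           (CovZ.subM 10320743806164493248491472295479010327812546291459537100689997245060426756530602515384802382379335363334160 (by decide +kernel)
            (CovZ.n1 (28608, 27168) (by decide +kernel)
             (CovZ.n2 (28560, 27120) (by decide +kernel)
              (CovZ.leaf K2_ok TD_l9462 _)
              (CovZ.n1 (28608, 27120) (by decide +kernel)
               (CovZ.leaf K2_ok TD_l9463 _)
               (CovZ.leaf K2_ok TD_l9464 _)))
             (CovZ.n1 (28560, 27216) (by decide +kernel)
              (CovZ.leaf K2_ok TD_l9465 _)
              (CovZ.n1 (28560, 27168) (by decide +kernel)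
               (CovZ.leaf K2_ok TD_l9466 _)
               (CovZ.leaf K2_ok TD_l9467 _)))))))))
       (CovZ.n1 (28800, 27648) (by decide +kernel)
        (CovZ.n2 (28992, 27456) (by decide +kernel)
         (CovZ.n2 (28800, 27456) (by decide +kernel)
          (CovZ.n2 (28896, 27552) (by decide +kernel)
           (CovZ.n2 (28896, 27456) (by decide +kernel)
            (CovZ.leaf K2_ok TD_l9468 _)
            (CovZ.leaf K2_ok TD_l9469 _))
           (CovZ.leaf K2_ok TD_l9470 _))
          (CovZ.leaf K2_ok TD_l9471 _))
         (CovZ.n1 (28992, 27648) (by decide +kernel)
          (CovZ.leaf K2_ok TD_l9472 _)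
          (CovZ.n1 (28896, 27552) (by decide +kernel)
           (CovZ.leaf K2_ok TD_l9473 _)
           (CovZ.n1 (28992, 27552) (by decide +kernel)
            (CovZ.leaf K2_ok TD_l9474 _)
            (CovZ.leaf K2_ok TD_l9475 _)))))
        (CovZ.n1 (28608, 27456) (by decide +kernel)
         (CovZ.n2 (28608, 27648) (by decide +kernel)
          (CovZ.leaf K2_ok TD_l9476 _)
          (CovZ.n1 (28512, 27552) (by decide +kernel)
           (CovZ.leaf K3_ok TD_l9477 _)
           (CovZ.n1 (28608, 27552) (by decide +kernel)
            (CovZ.n2 (28560, 27504) (by decide +kernel)
             (CovZ.leaf K3_ok TD_l9478 _)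
             (CovZ.leaf K3_ok TD_l9479 _))
            (CovZ.leaf K2_ok TD_l9480 _))))
         (CovZ.n1 (28800, 27456) (by decide +kernel)
          (CovZ.n2 (28704, 27360) (by decide +kernel)
           (CovZ.n2 (28704, 27456) (by decide +kernel)
            (CovZ.leaf K2_ok TD_l9481 _)
            (CovZ.leaf K2_ok TD_l9482 _))
           (CovZ.n1 (28800, 27360) (by decide +kernel)
            (CovZ.n2 (28752, 27312) (by decide +kernel)
             (CovZ.leaf K2_ok TD_l9483 _)
             (CovZ.leaf K2_ok TD_l9484 _))
            (CovZ.leaf K2_ok TD_l9485 _)))
          (CovZ.n1 (28704, 27552) (by decide +kernel)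
           (CovZ.n2 (28800, 27552) (by decide +kernel)
            (CovZ.leaf K2_ok TD_l9486 _)
            (CovZ.leaf K2_ok TD_l9487 _))
           (CovZ.n1 (28704, 27456) (by decide +kernel)
            (CovZ.leaf K2_ok TD_l9488 _)
            (CovZ.leaf K2_ok TD_l9489 _))))))))

theorem TD_u129 : CovZ TD_M (toL (selN TD_LN 31105995667386630097885118992426969404753660758119273979100722411296191137993976592781242556705683904401426)) [0, 7, 6, 1] (28416, 27648) (27648, 27648) (28416, 26880) :=
    (CovZ.n1 (28032, 27264) (by decide +kernel)
      (CovZ.n2 (28032, 27648) (by decide +kernel)
       (CovZ.n2 (28224, 27456) (by decide +kernel)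
        (CovZ.subM 20784971756425151298843809825706945460227307869955579290293217490029136047116281115182503241169908553224210 (by decide +kernel)
         (CovZ.n2 (28032, 27456) (by decide +kernel)
          (CovZ.n2 (28128, 27552) (by decide +kernel)
           (CovZ.n2 (28128, 27456) (by decide +kernel)
            (CovZ.n2 (28080, 27504) (by decide +kernel)
             (CovZ.leaf K2_ok TD_l9490 _)
             (CovZ.leaf K2_ok TD_l9491 _))
            (CovZ.n1 (28176, 27504) (by decide +kernel)
             (CovZ.leaf K2_ok TD_l9492 _)
             (CovZ.leaf K2_ok TD_l9493 _)))
           (CovZ.n1 (28032, 27552) (by decide +kernel)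
            (CovZ.n2 (28080, 27600) (by decide +kernel)
             (CovZ.leaf K3_ok TD_l9494 _)
             (CovZ.leaf K2_ok TD_l9495 _))
            (CovZ.leaf K2_ok TD_l9496 _)))
          (CovZ.n1 (28128, 27360) (by decide +kernel)
           (CovZ.n2 (28032, 27360) (by decide +kernel)
            (CovZ.n2 (28080, 27408) (by decide +kernel)
             (CovZ.n2 (28080, 27360) (by decide +kernel)
              (CovZ.leaf K2_ok TD_l9497 _)
              (CovZ.leaf K2_ok TD_l9498 _))
             (CovZ.leaf K2_ok TD_l9499 _))
            (CovZ.leaf K3_ok TD_l9500 _))
           (CovZ.n1 (28128, 27456) (by decide +kernel)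
            (CovZ.leaf K3_ok TD_l9501 _)
            (CovZ.n1 (28080, 27408) (by decide +kernel)
             (CovZ.leaf K2_ok TD_l9502 _)
             (CovZ.n1 (28128, 27408) (by decide +kernel)
              (CovZ.leaf K2_ok TD_l9503 _)
              (CovZ.leaf K2_ok TD_l9504 _)))))))
        (CovZ.n1 (28224, 27648) (by decide +kernel)
         (CovZ.n2 (28320, 27552) (by decide +kernel)
          (CovZ.leaf K2_ok TD_l9505 _)
          (CovZ.n1 (28320, 27648) (by decide +kernel)
           (CovZ.leaf K2_ok TD_l9506 _)
           (CovZ.leaf K2_ok TD_l9507 _)))
         (CovZ.subM 20784971756425151298843809825706945460227307869955579290293217490029136047116281115182503241169908553224210 (by decide +kernel)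
          (CovZ.n1 (28128, 27552) (by decide +kernel)
           (CovZ.n2 (28128, 27648) (by decide +kernel)
            (CovZ.leaf K2_ok TD_l9508 _)
            (CovZ.n1 (28080, 27600) (by decide +kernel)
             (CovZ.leaf K2_ok TD_l9509 _)
             (CovZ.leaf K2_ok TD_l9510 _)))
           (CovZ.n1 (28224, 27552) (by decide +kernel)
            (CovZ.n2 (28176, 27504) (by decide +kernel)
             (CovZ.leaf K2_ok TD_l9511 _)
             (CovZ.leaf K2_ok TD_l9512 _))
            (CovZ.leaf K2_ok TD_l9513 _))))))
       (CovZ.n1 (27840, 27456) (by decide +kernel)
        (CovZ.n2 (27840, 27648) (by decide +kernel)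
         (CovZ.n2 (27936, 27552) (by decide +kernel)
          (CovZ.n2 (27840, 27552) (by decide +kernel)
           (CovZ.n2 (27888, 27600) (by decide +kernel)
            (CovZ.leaf K3_ok TD_l9514 _)
            (CovZ.leaf K3_ok TD_l9515 _))
           (CovZ.leaf K2_ok TD_l9516 _))
          (CovZ.n1 (27936, 27648) (by decide +kernel)
           (CovZ.leaf K2_ok TD_l9517 _)
           (CovZ.n1 (27888, 27600) (by decide +kernel)
            (CovZ.leaf K3_ok TD_l9518 _)
            (CovZ.leaf K2_ok TD_l9519 _))))
         (CovZ.n1 (27744, 27552) (by decide +kernel)
          (CovZ.n2 (27744, 27648) (by decide +kernel)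
           (CovZ.leaf K3_ok TD_l9520 _)
           (CovZ.n1 (27696, 27600) (by decide +kernel)
            (CovZ.leaf K3_ok TD_l9521 _)
            (CovZ.n1 (27744, 27600) (by decide +kernel)
             (CovZ.leaf K3_ok TD_l9522 _)
             (CovZ.leaf K3_ok TD_l9523 _))))
          (CovZ.subM 18347989474734337055441190144588556150523563113232696302858979278787658776815847952744557197165704632078354 (by decide +kernel)
           (CovZ.n1 (27840, 27552) (by decide +kernel)
            (CovZ.n2 (27792, 27504) (by decide +kernel)
             (CovZ.leaf K3_ok TD_l9524 _)
             (CovZ.n1 (27840, 27504) (by decide +kernel)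
              (CovZ.leaf K2_ok TD_l9525 _)
              (CovZ.leaf K2_ok TD_l9526 _)))
            (CovZ.n1 (27792, 27600) (by decide +kernel)
             (CovZ.leaf K3_ok TD_l9527 _)
             (CovZ.n1 (27792, 27552) (by decide +kernel)
              (CovZ.leaf K3_ok TD_l9528 _)
              (CovZ.leaf K3_ok TD_l9529 _)))))))
        (CovZ.n1 (28032, 27456) (by decide +kernel)
         (CovZ.n2 (27936, 27360) (by decide +kernel)
          (CovZ.n2 (27936, 27456) (by decide +kernel)
           (CovZ.leaf K3_ok TD_l9530 _)
           (CovZ.n1 (27888, 27408) (by decide +kernel)
            (CovZ.leaf K2_ok TD_l9531 _)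
            (CovZ.n1 (27936, 27408) (by decide +kernel)
             (CovZ.leaf K2_ok TD_l9532 _)
             (CovZ.leaf K3_ok TD_l9533 _))))
          (CovZ.subM 20784971756426194261263693084435321884591757432962064413143495213557217427062023071211791404848932296069138 (by decide +kernel)
           (CovZ.n1 (28032, 27360) (by decide +kernel)
            (CovZ.n2 (27984, 27312) (by decide +kernel)
             (CovZ.n2 (27984, 27360) (by decide +kernel)
              (CovZ.leaf K3_ok TD_l9534 _)
              (CovZ.n1 (27960, 27336) (by decide +kernel)
               (CovZ.leaf K3_ok TD_l9535 _)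
               (CovZ.leaf K2_ok TD_l9536 _)))
             (CovZ.n1 (28032, 27312) (by decide +kernel)
              (CovZ.n2 (28008, 27288) (by decide +kernel)
               (CovZ.leaf K2_ok TD_l9537 _)
               (CovZ.leaf K2_ok TD_l9538 _))
              (CovZ.leaf K2_ok TD_l9539 _)))
            (CovZ.n1 (27984, 27408) (by decide +kernel)
             (CovZ.n2 (28032, 27408) (by decide +kernel)
              (CovZ.leaf K3_ok TD_l9540 _)
              (CovZ.leaf K2_ok TD_l9541 _))
             (CovZ.n1 (27984, 27360) (by decide +kernel)
              (CovZ.leaf K3_ok TD_l9542 _)
              (CovZ.leaf K3_ok TD_l9543 _))))))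
         (CovZ.n1 (27936, 27552) (by decide +kernel)
          (CovZ.subM 20784971756426194261263693084435336019368275660036701079523501168055716646198509646931315586080317427945490 (by decide +kernel)
           (CovZ.n2 (28032, 27552) (by decide +kernel)
            (CovZ.n2 (27984, 27504) (by decide +kernel)
             (CovZ.leaf K3_ok TD_l9544 _)
             (CovZ.leaf K3_ok TD_l9545 _))
            (CovZ.n1 (27984, 27600) (by decide +kernel)
             (CovZ.leaf K3_ok TD_l9546 _)
             (CovZ.leaf K2_ok TD_l9547 _))))
          (CovZ.n1 (27936, 27456) (by decide +kernel)
           (CovZ.subM 20784971739338297973896413373843886755830684284698733872291397929090716442433269211805658408957788654931986 (by decide +kernel)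
            (CovZ.n2 (27888, 27504) (by decide +kernel)
             (CovZ.n2 (27936, 27504) (by decide +kernel)
              (CovZ.leaf K3_ok TD_l9548 _)
              (CovZ.leaf K3_ok TD_l9549 _))
             (CovZ.n1 (27888, 27456) (by decide +kernel)
              (CovZ.leaf K3_ok TD_l9550 _)
              (CovZ.leaf K2_ok TD_l9551 _))))
           (CovZ.n1 (27984, 27504) (by decide +kernel)
            (CovZ.n2 (27984, 27456) (by decide +kernel)
             (CovZ.leaf K3_ok TD_l9552 _)
             (CovZ.leaf K2_ok TD_l9553 _))
            (CovZ.leaf K3_ok TD_l9554 _)))))))
      (CovZ.n1 (28416, 27264) (by decide +kernel)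
       TD_u126
       TD_u127))

theorem TD_u130 : CovZ TD_M (toL (selN TD_LN 23312026706708969706916640179923424838664549631496503539017422259582942760043425562640)) [0, 7, 6, 1] (30720, 26112) (30336, 26496) (29952, 26112) :=
    (CovZ.n2 (30336, 26112) (by decide +kernel)
        (CovZ.n2 (30144, 26304) (by decide +kernel)
         (CovZ.n2 (30336, 26304) (by decide +kernel)
          (CovZ.subM 15541351137806053423238792552629349165326869877976793136124750265999272130778335543312 (by decide +kernel)
           (CovZ.n2 (30240, 26208) (by decide +kernel)
            (CovZ.n2 (30240, 26304) (by decide +kernel)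
             (CovZ.leaf K2_ok TD_l11465 _)
             (CovZ.n1 (30192, 26256) (by decide +kernel)
              (CovZ.leaf K3_ok TD_l11466 _)
              (CovZ.n1 (30240, 26256) (by decide +kernel)
               (CovZ.leaf K3_ok TD_l11467 _)
               (CovZ.leaf K3_ok TD_l11468 _))))
            (CovZ.n1 (30336, 26208) (by decide +kernel)
             (CovZ.n2 (30288, 26160) (by decide +kernel)
              (CovZ.leaf K2_ok TD_l11469 _)
              (CovZ.n1 (30336, 26160) (by decide +kernel)
               (CovZ.leaf K3_ok TD_l11470 _)
               (CovZ.leaf K2_ok TD_l11471 _)))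
             (CovZ.n1 (30288, 26256) (by decide +kernel)
              (CovZ.leaf K2_ok TD_l11472 _)
              (CovZ.leaf K2_ok TD_l11473 _)))))
          (CovZ.n1 (30240, 26400) (by decide +kernel)
           (CovZ.n2 (30336, 26400) (by decide +kernel)
            (CovZ.n2 (30288, 26352) (by decide +kernel)
             (CovZ.leaf K3_ok TD_l11474 _)
             (CovZ.leaf K2_ok TD_l11475 _))
            (CovZ.n1 (30288, 26448) (by decide +kernel)
             (CovZ.leaf K2_ok TD_l11476 _)
             (CovZ.leaf K3_ok TD_l11477 _)))
           (CovZ.subM 15541351137806053423238792552629349165326869880699052071492257973706268990232481234960 (by decide +kernel)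
            (CovZ.n1 (30240, 26304) (by decide +kernel)
             (CovZ.n2 (30192, 26352) (by decide +kernel)
              (CovZ.leaf K2_ok TD_l11478 _)
              (CovZ.n1 (30192, 26304) (by decide +kernel)
               (CovZ.leaf K3_ok TD_l11479 _)
               (CovZ.leaf K3_ok TD_l11480 _)))
             (CovZ.n1 (30288, 26352) (by decide +kernel)
              (CovZ.leaf K2_ok TD_l11481 _)
              (CovZ.leaf K3_ok TD_l11482 _))))))
         (CovZ.subM 15541351137806053423238792552629349165326869877976793136124750265999272130778335543312 (by decide +kernel)
          (CovZ.n1 (30144, 26112) (by decide +kernel)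
           (CovZ.n2 (30048, 26208) (by decide +kernel)
            (CovZ.n2 (30144, 26208) (by decide +kernel)
             (CovZ.badM (by decide +kernel))
             (CovZ.n1 (30096, 26256) (by decide +kernel)
              (CovZ.n2 (30144, 26256) (by decide +kernel)
               (CovZ.leaf K3_ok TD_l11488 _)
               (CovZ.leaf K3_ok TD_l11489 _))
              (CovZ.n1 (30096, 26208) (by decide +kernel)
               (CovZ.n2 (30072, 26232) (by decide +kernel)
                (CovZ.leaf K3_ok TD_l11490 _)
                (CovZ.leaf K2_ok TD_l11491 _))
               (CovZ.leaf K2_ok TD_l11492 _))))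
            (CovZ.badM (by decide +kernel)))
           (CovZ.n1 (30240, 26208) (by decide +kernel)
            (CovZ.n2 (30240, 26112) (by decide +kernel)
             (CovZ.n2 (30192, 26160) (by decide +kernel)
              (CovZ.n2 (30240, 26160) (by decide +kernel)
               (CovZ.n2 (30216, 26136) (by decide +kernel)
                (CovZ.leaf K2_ok TD_l11500 _)
                (CovZ.leaf K2_ok TD_l11501 _))
               (CovZ.leaf K2_ok TD_l11502 _))
              (CovZ.n1 (30192, 26112) (by decide +kernel)
               (CovZ.badM (by decide +kernel))
               (CovZ.n1 (30216, 26136) (by decide +kernel)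
                (CovZ.leaf K2_ok TD_l11505 _)
                (CovZ.badM (by decide +kernel)))))
             (CovZ.n1 (30288, 26160) (by decide +kernel)
              (CovZ.n2 (30288, 26112) (by decide +kernel)
               (CovZ.leaf K2_ok TD_l11507 _)
               (CovZ.leaf K2_ok TD_l11508 _))
              (CovZ.leaf K2_ok TD_l11509 _)))
            (CovZ.n1 (30144, 26208) (by decide +kernel)
             (CovZ.n2 (30192, 26256) (by decide +kernel)
              (CovZ.n2 (30192, 26208) (by decide +kernel)
               (CovZ.leaf K2_ok TD_l11510 _)
               (CovZ.leaf K3_ok TD_l11511 _))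
              (CovZ.leaf K2_ok TD_l11512 _))
             (CovZ.n1 (30192, 26160) (by decide +kernel)
              (CovZ.badM (by decide +kernel))
              (CovZ.n1 (30192, 26208) (by decide +kernel)
               (CovZ.leaf K2_ok TD_l11514 _)
               (CovZ.leaf K2_ok TD_l11515 _))))))))
        (CovZ.n1 (30528, 26304) (by decide +kernel)
         (CovZ.subM 15541351137806053423238792552629349165326869877976793136124750265999272130778335543312 (by decide +kernel)
          (CovZ.n2 (30528, 26112) (by decide +kernel)
           (CovZ.n2 (30432, 26208) (by decide +kernel)
            (CovZ.n2 (30528, 26208) (by decide +kernel)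
             (CovZ.n2 (30480, 26160) (by decide +kernel)
              (CovZ.leaf K2_ok TD_l11516 _)
              (CovZ.leaf K2_ok TD_l11517 _))
             (CovZ.n1 (30480, 26256) (by decide +kernel)
              (CovZ.leaf K2_ok TD_l11518 _)
              (CovZ.leaf K2_ok TD_l11519 _)))
            (CovZ.n1 (30432, 26112) (by decide +kernel)
             (CovZ.n2 (30384, 26160) (by decide +kernel)
              (CovZ.n2 (30432, 26160) (by decide +kernel)
               (CovZ.leaf K2_ok TD_l11520 _)
               (CovZ.leaf K2_ok TD_l11521 _))
              (CovZ.n1 (30384, 26112) (by decide +kernel)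
               (CovZ.leaf K2_ok TD_l11522 _)
               (CovZ.leaf K2_ok TD_l11523 _)))
             (CovZ.n1 (30480, 26160) (by decide +kernel)
              (CovZ.n2 (30480, 26112) (by decide +kernel)
               (CovZ.leaf K2_ok TD_l11524 _)
               (CovZ.leaf K2_ok TD_l11525 _))
              (CovZ.leaf K2_ok TD_l11526 _))))
           (CovZ.n1 (30624, 26208) (by decide +kernel)
            (CovZ.n2 (30624, 26112) (by decide +kernel)
             (CovZ.n2 (30576, 26160) (by decide +kernel)
              (CovZ.leaf K3_ok TD_l11527 _)
              (CovZ.leaf K2_ok TD_l11528 _))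
             (CovZ.n1 (30672, 26160) (by decide +kernel)
              (CovZ.leaf K2_ok TD_l11529 _)
              (CovZ.leaf K3_ok TD_l11530 _)))
            (CovZ.n1 (30528, 26208) (by decide +kernel)
             (CovZ.n2 (30576, 26256) (by decide +kernel)
              (CovZ.leaf K2_ok TD_l11531 _)
              (CovZ.leaf K2_ok TD_l11532 _))
             (CovZ.leaf K2_ok TD_l11533 _)))))
         (CovZ.n1 (30336, 26304) (by decide +kernel)
          (CovZ.n2 (30432, 26400) (by decide +kernel)
           (CovZ.n2 (30432, 26304) (by decide +kernel)
            (CovZ.n2 (30384, 26352) (by decide +kernel)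
             (CovZ.leaf K2_ok TD_l11534 _)
             (CovZ.leaf K2_ok TD_l11535 _))
            (CovZ.n1 (30480, 26352) (by decide +kernel)
             (CovZ.leaf K2_ok TD_l11536 _)
             (CovZ.leaf K2_ok TD_l11537 _)))
           (CovZ.n1 (30336, 26400) (by decide +kernel)
            (CovZ.leaf K2_ok TD_l11538 _)
            (CovZ.leaf K2_ok TD_l11539 _)))
          (CovZ.subM 15541351137806053423238792552629349165326869877976793136124750265999272130778335543312 (by decide +kernel)
           (CovZ.n1 (30432, 26208) (by decide +kernel)
            (CovZ.n2 (30336, 26208) (by decide +kernel)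
             (CovZ.n2 (30384, 26256) (by decide +kernel)
              (CovZ.leaf K2_ok TD_l11540 _)
              (CovZ.leaf K2_ok TD_l11541 _))
             (CovZ.leaf K2_ok TD_l11542 _))
            (CovZ.n1 (30432, 26304) (by decide +kernel)
             (CovZ.leaf K2_ok TD_l11543 _)
             (CovZ.n1 (30384, 26256) (by decide +kernel)
              (CovZ.leaf K2_ok TD_l11544 _)
              (CovZ.leaf K2_ok TD_l11545 _))))))))

theorem TD_u131 : CovZ TD_M (toL (selN TD_LN 23312026706708969706916640179923424838664549631496503539017422259582942760043425562640)) [0, 7, 6, 1] (30336, 26496) (29952, 26880) (29952, 26112) :=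
    (CovZ.n1 (29952, 26496) (by decide +kernel)
        (CovZ.n2 (30144, 26688) (by decide +kernel)
         (CovZ.n2 (30144, 26496) (by decide +kernel)
          (CovZ.n2 (30048, 26592) (by decide +kernel)
           (CovZ.n2 (30144, 26592) (by decide +kernel)
            (CovZ.n2 (30096, 26544) (by decide +kernel)
             (CovZ.leaf K3_ok TD_l11546 _)
             (CovZ.leaf K3_ok TD_l11547 _))
            (CovZ.n1 (30096, 26640) (by decide +kernel)
             (CovZ.leaf K3_ok TD_l11548 _)
             (CovZ.leaf K3_ok TD_l11549 _)))
           (CovZ.n1 (30048, 26496) (by decide +kernel)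
            (CovZ.n2 (30000, 26544) (by decide +kernel)
             (CovZ.leaf K3_ok TD_l11550 _)
             (CovZ.leaf K3_ok TD_l11551 _))
            (CovZ.n1 (30096, 26544) (by decide +kernel)
             (CovZ.leaf K3_ok TD_l11552 _)
             (CovZ.leaf K3_ok TD_l11553 _))))
          (CovZ.n1 (30240, 26592) (by decide +kernel)
           (CovZ.n2 (30240, 26496) (by decide +kernel)
            (CovZ.n2 (30192, 26544) (by decide +kernel)
             (CovZ.leaf K3_ok TD_l11554 _)
             (CovZ.leaf K3_ok TD_l11555 _))
            (CovZ.leaf K3_ok TD_l11556 _))
           (CovZ.leaf K2_ok TD_l11557 _)))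
         (CovZ.n1 (29952, 26688) (by decide +kernel)
          (CovZ.n2 (30048, 26784) (by decide +kernel)
           (CovZ.n2 (30048, 26688) (by decide +kernel)
            (CovZ.leaf K3_ok TD_l11558 _)
            (CovZ.leaf K3_ok TD_l11559 _))
           (CovZ.leaf K3_ok TD_l11560 _))
          (CovZ.n1 (30048, 26592) (by decide +kernel)
           (CovZ.n2 (29952, 26592) (by decide +kernel)
            (CovZ.n2 (30000, 26640) (by decide +kernel)
             (CovZ.leaf K3_ok TD_l11561 _)
             (CovZ.leaf K3_ok TD_l11562 _))
            (CovZ.leaf K3_ok TD_l11563 _))
           (CovZ.n1 (30048, 26688) (by decide +kernel)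
            (CovZ.leaf K3_ok TD_l11564 _)
            (CovZ.n1 (30000, 26640) (by decide +kernel)
             (CovZ.leaf K3_ok TD_l11565 _)
             (CovZ.leaf K3_ok TD_l11566 _))))))
        (CovZ.n1 (30144, 26304) (by decide +kernel)
         (CovZ.subM 220855883097298041197912187615168281935901477758695795034708590813249552 (by decide +kernel)
          (CovZ.n2 (29952, 26304) (by decide +kernel)
           (CovZ.n2 (30048, 26400) (by decide +kernel)
            (CovZ.n2 (30048, 26304) (by decide +kernel)
             (CovZ.n2 (30000, 26352) (by decide +kernel)
              (CovZ.n2 (30048, 26352) (by decide +kernel)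
               (CovZ.leaf K3_ok TD_l11567 _)
               (CovZ.leaf K3_ok TD_l11568 _))
              (CovZ.n1 (30000, 26304) (by decide +kernel)
               (CovZ.leaf K2_ok TD_l11569 _)
               (CovZ.leaf K2_ok TD_l11570 _)))
             (CovZ.n1 (30096, 26352) (by decide +kernel)
              (CovZ.n2 (30096, 26304) (by decide +kernel)
               (CovZ.leaf K3_ok TD_l11571 _)
               (CovZ.leaf K3_ok TD_l11572 _))
              (CovZ.leaf K3_ok TD_l11573 _)))
            (CovZ.n1 (29952, 26400) (by decide +kernel)
             (CovZ.n2 (30000, 26448) (by decide +kernel)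
              (CovZ.n2 (30000, 26400) (by decide +kernel)
               (CovZ.leaf K3_ok TD_l11574 _)
               (CovZ.leaf K3_ok TD_l11575 _))
              (CovZ.leaf K3_ok TD_l11576 _))
             (CovZ.n1 (30000, 26352) (by decide +kernel)
              (CovZ.leaf K2_ok TD_l11577 _)
              (CovZ.leaf K3_ok TD_l11578 _))))
           (CovZ.n1 (30048, 26208) (by decide +kernel)
            (CovZ.n2 (29952, 26208) (by decide +kernel)
             (CovZ.n2 (30000, 26256) (by decide +kernel)
              (CovZ.n2 (30000, 26208) (by decide +kernel)
               (CovZ.n2 (29976, 26232) (by decide +kernel)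
                (CovZ.leaf K2_ok TD_l11579 _)
                (CovZ.badM (by decide +kernel)))
               (CovZ.leaf K2_ok TD_l11581 _))
              (CovZ.leaf K3_ok TD_l11582 _))
             (CovZ.badM (by decide +kernel)))
            (CovZ.n1 (30048, 26304) (by decide +kernel)
             (CovZ.n2 (30096, 26256) (by decide +kernel)
              (CovZ.leaf K3_ok TD_l11584 _)
              (CovZ.leaf K2_ok TD_l11585 _))
             (CovZ.n1 (30000, 26256) (by decide +kernel)
              (CovZ.n2 (30000, 26304) (by decide +kernel)
               (CovZ.leaf K2_ok TD_l11586 _)
               (CovZ.n1 (29976, 26280) (by decide +kernel)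
                (CovZ.leaf K2_ok TD_l11587 _)
                (CovZ.leaf K3_ok TD_l11588 _)))
              (CovZ.n1 (30048, 26256) (by decide +kernel)
               (CovZ.n2 (30024, 26232) (by decide +kernel)
                (CovZ.leaf K2_ok TD_l11589 _)
                (CovZ.leaf K3_ok TD_l11590 _))
               (CovZ.leaf K2_ok TD_l11591 _)))))))
         (CovZ.n1 (30144, 26496) (by decide +kernel)
          (CovZ.n2 (30240, 26400) (by decide +kernel)
           (CovZ.n2 (30144, 26400) (by decide +kernel)
            (CovZ.n2 (30192, 26448) (by decide +kernel)
             (CovZ.leaf K3_ok TD_l11592 _)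
             (CovZ.leaf K2_ok TD_l11593 _))
            (CovZ.leaf K2_ok TD_l11594 _))
           (CovZ.n1 (30240, 26496) (by decide +kernel)
            (CovZ.leaf K3_ok TD_l11595 _)
            (CovZ.n1 (30192, 26448) (by decide +kernel)
             (CovZ.leaf K3_ok TD_l11596 _)
             (CovZ.leaf K3_ok TD_l11597 _))))
          (CovZ.subM 220855883097298041197912187615168281935901477758695795034708591081685008 (by decide +kernel)
           (CovZ.n1 (30048, 26400) (by decide +kernel)
            (CovZ.n2 (30048, 26496) (by decide +kernel)
             (CovZ.leaf K3_ok TD_l11598 _)
             (CovZ.n1 (30000, 26448) (by decide +kernel)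
              (CovZ.leaf K3_ok TD_l11599 _)
              (CovZ.leaf K3_ok TD_l11600 _)))
            (CovZ.n1 (30144, 26400) (by decide +kernel)
             (CovZ.n2 (30096, 26352) (by decide +kernel)
              (CovZ.leaf K3_ok TD_l11601 _)
              (CovZ.n1 (30144, 26352) (by decide +kernel)
               (CovZ.leaf K3_ok TD_l11602 _)
               (CovZ.leaf K3_ok TD_l11603 _)))
             (CovZ.n1 (30096, 26448) (by decide +kernel)
              (CovZ.leaf K2_ok TD_l11604 _)
              (CovZ.leaf K3_ok TD_l11605 _))))))))

theorem TD_u132 : CovZ TD_M (toL (selN TD_LN 683549230366222998115734792046139932116742554760447804633104961609517543107317610483654784982716434)) [0, 7, 6, 1] (30720, 27648) (29952, 26880) (30720, 26112) :=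
    (CovZ.subM 546846060067284510008841860500162534049019270605021354991595125550827077310975809760085850060226578 (by decide +kernel)
     (CovZ.n2 (30720, 26880) (by decide +kernel)
      (CovZ.n2 (30336, 26496) (by decide +kernel)
       (CovZ.n2 (30336, 26880) (by decide +kernel)
        (CovZ.n2 (30528, 26688) (by decide +kernel)
         (CovZ.n2 (30336, 26688) (by decide +kernel)
          (CovZ.n2 (30432, 26784) (by decide +kernel)
           (CovZ.n2 (30432, 26688) (by decide +kernel)
            (CovZ.leaf K2_ok TD_l11296 _)
            (CovZ.leaf K3_ok TD_l11297 _))
           (CovZ.leaf K3_ok TD_l11298 _))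
          (CovZ.leaf K2_ok TD_l11299 _))
         (CovZ.n1 (30528, 26880) (by decide +kernel)
          (CovZ.leaf K3_ok TD_l11300 _)
          (CovZ.n1 (30432, 26784) (by decide +kernel)
           (CovZ.leaf K3_ok TD_l11301 _)
           (CovZ.n1 (30528, 26784) (by decide +kernel)
            (CovZ.leaf K3_ok TD_l11302 _)
            (CovZ.leaf K3_ok TD_l11303 _)))))
        (CovZ.n1 (30144, 26688) (by decide +kernel)
         (CovZ.n2 (30144, 26880) (by decide +kernel)
          (CovZ.leaf K2_ok TD_l11304 _)
          (CovZ.n1 (30048, 26784) (by decide +kernel)
           (CovZ.leaf K3_ok TD_l11305 _)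
           (CovZ.n1 (30144, 26784) (by decide +kernel)
            (CovZ.leaf K3_ok TD_l11306 _)
            (CovZ.leaf K2_ok TD_l11307 _))))
         (CovZ.n1 (30336, 26688) (by decide +kernel)
          (CovZ.subM 23312026706708969706916640179923424838664549631496503539017422259582942760043425562640 (by decide +kernel)
           (CovZ.n2 (30240, 26592) (by decide +kernel)
            (CovZ.n2 (30240, 26688) (by decide +kernel)
             (CovZ.leaf K2_ok TD_l11308 _)
             (CovZ.leaf K2_ok TD_l11309 _))
            (CovZ.n1 (30336, 26592) (by decide +kernel)
             (CovZ.n2 (30288, 26544) (by decide +kernel)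
              (CovZ.leaf K3_ok TD_l11310 _)
              (CovZ.leaf K2_ok TD_l11311 _))
             (CovZ.leaf K2_ok TD_l11312 _))))
          (CovZ.n1 (30240, 26784) (by decide +kernel)
           (CovZ.n2 (30336, 26784) (by decide +kernel)
            (CovZ.leaf K3_ok TD_l11313 _)
            (CovZ.leaf K3_ok TD_l11314 _))
           (CovZ.n1 (30240, 26688) (by decide +kernel)
            (CovZ.leaf K3_ok TD_l11315 _)
            (CovZ.leaf K3_ok TD_l11316 _))))))
       (CovZ.n1 (30720, 26496) (by decide +kernel)
        (CovZ.subM 15541351137806053423238792552629349165326869880699052071492257973706268990232750194704 (by decide +kernel)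
         (CovZ.n2 (30528, 26304) (by decide +kernel)
          (CovZ.n2 (30528, 26496) (by decide +kernel)
           (CovZ.n2 (30624, 26400) (by decide +kernel)
            (CovZ.leaf K2_ok TD_l11317 _)
            (CovZ.leaf K2_ok TD_l11318 _))
           (CovZ.n1 (30432, 26400) (by decide +kernel)
            (CovZ.n2 (30432, 26496) (by decide +kernel)
             (CovZ.leaf K2_ok TD_l11319 _)
             (CovZ.n1 (30384, 26448) (by decide +kernel)
              (CovZ.leaf K2_ok TD_l11320 _)
              (CovZ.leaf K2_ok TD_l11321 _)))
            (CovZ.n1 (30528, 26400) (by decide +kernel)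
             (CovZ.n2 (30480, 26352) (by decide +kernel)
              (CovZ.leaf K2_ok TD_l11322 _)
              (CovZ.leaf K2_ok TD_l11323 _))
             (CovZ.leaf K2_ok TD_l11324 _))))
          (CovZ.n1 (30720, 26304) (by decide +kernel)
           (CovZ.n2 (30624, 26208) (by decide +kernel)
            (CovZ.n2 (30624, 26304) (by decide +kernel)
             (CovZ.leaf K2_ok TD_l11325 _)
             (CovZ.n1 (30576, 26256) (by decide +kernel)
              (CovZ.leaf K2_ok TD_l11326 _)
              (CovZ.leaf K2_ok TD_l11327 _)))
            (CovZ.n1 (30720, 26208) (by decide +kernel)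
             (CovZ.n2 (30672, 26160) (by decide +kernel)
              (CovZ.leaf K3_ok TD_l11328 _)
              (CovZ.leaf K2_ok TD_l11329 _))
             (CovZ.n1 (30672, 26256) (by decide +kernel)
              (CovZ.leaf K2_ok TD_l11330 _)
              (CovZ.leaf K2_ok TD_l11331 _))))
           (CovZ.n1 (30624, 26400) (by decide +kernel)
            (CovZ.n2 (30720, 26400) (by decide +kernel)
             (CovZ.leaf K2_ok TD_l11332 _)
             (CovZ.leaf K2_ok TD_l11333 _))
            (CovZ.n1 (30624, 26304) (by decide +kernel)
             (CovZ.n2 (30576, 26352) (by decide +kernel)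
              (CovZ.leaf K2_ok TD_l11334 _)
              (CovZ.leaf K3_ok TD_l11335 _))
             (CovZ.leaf K2_ok TD_l11336 _))))))
        (CovZ.n1 (30528, 26688) (by decide +kernel)
         (CovZ.subM 4074087494020109978590314615611308951452148882254147789217734908881383226852292634958364688 (by decide +kernel)
          (CovZ.n2 (30720, 26688) (by decide +kernel)
           (CovZ.n2 (30624, 26592) (by decide +kernel)
            (CovZ.leaf K2_ok TD_l11337 _)
            (CovZ.n1 (30720, 26592) (by decide +kernel)
             (CovZ.leaf K2_ok TD_l11338 _)
             (CovZ.leaf K2_ok TD_l11339 _)))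
           (CovZ.n1 (30624, 26784) (by decide +kernel)
            (CovZ.n2 (30720, 26784) (by decide +kernel)
             (CovZ.leaf K2_ok TD_l11340 _)
             (CovZ.leaf K2_ok TD_l11341 _))
            (CovZ.n1 (30624, 26688) (by decide +kernel)
             (CovZ.leaf K2_ok TD_l11342 _)
             (CovZ.leaf K3_ok TD_l11343 _)))))
         (CovZ.subM 23312026706708969706916640179923424838664549631496503539017422259582942760043425562640 (by decide +kernel)
          (CovZ.n1 (30528, 26496) (by decide +kernel)
           (CovZ.n2 (30432, 26592) (by decide +kernel)
            (CovZ.n2 (30528, 26592) (by decide +kernel)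
             (CovZ.leaf K2_ok TD_l11344 _)
             (CovZ.leaf K2_ok TD_l11345 _))
            (CovZ.n1 (30432, 26496) (by decide +kernel)
             (CovZ.leaf K2_ok TD_l11346 _)
             (CovZ.leaf K2_ok TD_l11347 _)))
           (CovZ.n1 (30624, 26592) (by decide +kernel)
            (CovZ.n2 (30624, 26496) (by decide +kernel)
             (CovZ.leaf K2_ok TD_l11348 _)
             (CovZ.leaf K2_ok TD_l11349 _))
            (CovZ.leaf K3_ok TD_l11350 _)))))))
      (CovZ.n1 (30336, 27264) (by decide +kernel)
       (CovZ.n2 (30720, 27264) (by decide +kernel)
        (CovZ.n2 (30528, 27072) (by decide +kernel)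
         (CovZ.n2 (30528, 27264) (by decide +kernel)
          (CovZ.leaf K3_ok TD_l11351 _)
          (CovZ.n1 (30432, 27168) (by decide +kernel)
           (CovZ.leaf K2_ok TD_l11352 _)
           (CovZ.leaf K3_ok TD_l11353 _)))
         (CovZ.n1 (30720, 27072) (by decide +kernel)
          (CovZ.n2 (30624, 26976) (by decide +kernel)
           (CovZ.leaf K3_ok TD_l11354 _)
           (CovZ.leaf K2_ok TD_l11355 _))
          (CovZ.n1 (30624, 27168) (by decide +kernel)
           (CovZ.leaf K2_ok TD_l11356 _)
           (CovZ.leaf K3_ok TD_l11357 _))))
        (CovZ.n1 (30528, 27456) (by decide +kernel)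
         (CovZ.n2 (30720, 27456) (by decide +kernel)
          (CovZ.leaf K2_ok TD_l11358 _)
          (CovZ.leaf K2_ok TD_l11359 _))
         (CovZ.n1 (30528, 27264) (by decide +kernel)
          (CovZ.n2 (30432, 27360) (by decide +kernel)
           (CovZ.leaf K3_ok TD_l11360 _)
           (CovZ.leaf K2_ok TD_l11361 _))
          (CovZ.leaf K2_ok TD_l11362 _))))
       (CovZ.n1 (30336, 26880) (by decide +kernel)
        (CovZ.n2 (30144, 27072) (by decide +kernel)
         (CovZ.n2 (30336, 27072) (by decide +kernel)
          (CovZ.n2 (30240, 26976) (by decide +kernel)
           (CovZ.leaf K2_ok TD_l11363 _)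
           (CovZ.n1 (30336, 26976) (by decide +kernel)
            (CovZ.leaf K2_ok TD_l11364 _)
            (CovZ.leaf K3_ok TD_l11365 _)))
          (CovZ.n1 (30240, 27168) (by decide +kernel)
           (CovZ.leaf K2_ok TD_l11366 _)
           (CovZ.leaf K2_ok TD_l11367 _)))
         (CovZ.n1 (30144, 26880) (by decide +kernel)
          (CovZ.n2 (30048, 26976) (by decide +kernel)
           (CovZ.n2 (30144, 26976) (by decide +kernel)
            (CovZ.leaf K2_ok TD_l11368 _)
            (CovZ.leaf K3_ok TD_l11369 _))
           (CovZ.n1 (30048, 26880) (by decide +kernel)
            (CovZ.leaf K3_ok TD_l11370 _)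
            (CovZ.leaf K3_ok TD_l11371 _)))
          (CovZ.n1 (30240, 26976) (by decide +kernel)
           (CovZ.n2 (30240, 26880) (by decide +kernel)
            (CovZ.leaf K2_ok TD_l11372 _)
            (CovZ.leaf K2_ok TD_l11373 _))
           (CovZ.leaf K2_ok TD_l11374 _))))
        (CovZ.n1 (30528, 27072) (by decide +kernel)
         (CovZ.n2 (30528, 26880) (by decide +kernel)
          (CovZ.n2 (30432, 26976) (by decide +kernel)
           (CovZ.leaf K3_ok TD_l11375 _)
           (CovZ.leaf K3_ok TD_l11376 _))
          (CovZ.n1 (30624, 26976) (by decide +kernel)
           (CovZ.leaf K2_ok TD_l11377 _)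
           (CovZ.leaf K3_ok TD_l11378 _)))
         (CovZ.n1 (30336, 27072) (by decide +kernel)
          (CovZ.n2 (30432, 27168) (by decide +kernel)
           (CovZ.leaf K2_ok TD_l11379 _)
           (CovZ.leaf K2_ok TD_l11380 _))
          (CovZ.leaf K3_ok TD_l11381 _)))))))

theorem TD_u133 : CovZ TD_M (toL (selN TD_LN 683549230366222998115734792046139932116742554760447804633104961609517543107317610483654784982716434)) [0, 7, 6, 1] (29952, 26880) (29184, 26112) (30720, 26112) :=
    (CovZ.n1 (29952, 26112) (by decide +kernel)
     (CovZ.subM 136703170298946015948850292332206575852835629822768638692225907308748137237820590095880600709238800 (by decide +kernel)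
      (CovZ.n2 (29568, 26496) (by decide +kernel)
       (CovZ.subM 7770675568903137139560944925335273585525294919079387369002922984032891719836580184080 (by decide +kernel)
        (CovZ.n2 (29952, 26496) (by decide +kernel)
         (CovZ.subM 22303467457465990649245786452749250474278928 (by decide +kernel)
          (CovZ.n2 (29760, 26304) (by decide +kernel)
           (CovZ.n2 (29760, 26496) (by decide +kernel)
            (CovZ.n2 (29856, 26400) (by decide +kernel)
             (CovZ.n2 (29760, 26400) (by decide +kernel)
              (CovZ.n2 (29808, 26448) (by decide +kernel)
               (CovZ.n2 (29808, 26400) (by decide +kernel)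
                (CovZ.leaf K3_ok TD_l11382 _)
                (CovZ.leaf K3_ok TD_l11383 _))
               (CovZ.leaf K3_ok TD_l11384 _))
              (CovZ.n1 (29808, 26352) (by decide +kernel)
               (CovZ.badM (by decide +kernel))
               (CovZ.n1 (29808, 26400) (by decide +kernel)
                (CovZ.leaf K3_ok TD_l11387 _)
                (CovZ.badM (by decide +kernel)))))
             (CovZ.n1 (29856, 26496) (by decide +kernel)
              (CovZ.leaf K2_ok TD_l11389 _)
              (CovZ.n1 (29808, 26448) (by decide +kernel)
               (CovZ.leaf K2_ok TD_l11390 _)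
               (CovZ.n1 (29856, 26448) (by decide +kernel)
                (CovZ.leaf K2_ok TD_l11391 _)
                (CovZ.leaf K3_ok TD_l11392 _)))))
            (CovZ.n1 (29664, 26400) (by decide +kernel)
             (CovZ.n2 (29664, 26496) (by decide +kernel)
              (CovZ.n2 (29712, 26448) (by decide +kernel)
               (CovZ.leaf K3_ok TD_l11393 _)
               (CovZ.n1 (29712, 26496) (by decide +kernel)
                (CovZ.leaf K3_ok TD_l11394 _)
                (CovZ.leaf K3_ok TD_l11395 _)))
              (CovZ.n1 (29616, 26448) (by decide +kernel)
               (CovZ.n2 (29616, 26496) (by decide +kernel)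
                (CovZ.leaf K3_ok TD_l11396 _)
                (CovZ.badM (by decide +kernel)))
               (CovZ.n1 (29664, 26448) (by decide +kernel)
                (CovZ.badM (by decide +kernel))
                (CovZ.leaf K3_ok TD_l11399 _))))
             (CovZ.n1 (29760, 26400) (by decide +kernel)
              (CovZ.badM (by decide +kernel))
              (CovZ.n1 (29712, 26448) (by decide +kernel)
               (CovZ.n2 (29760, 26448) (by decide +kernel)
                (CovZ.leaf K3_ok TD_l11402 _)
                (CovZ.leaf K3_ok TD_l11403 _))
               (CovZ.badM (by decide +kernel))))))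
           (CovZ.n1 (29952, 26304) (by decide +kernel)
            (CovZ.n2 (29856, 26208) (by decide +kernel)
             (CovZ.n2 (29856, 26304) (by decide +kernel)
              (CovZ.n2 (29904, 26256) (by decide +kernel)
               (CovZ.badM (by decide +kernel))
               (CovZ.n1 (29904, 26304) (by decide +kernel)
                (CovZ.leaf K3_ok TD_l11406 _)
                (CovZ.badM (by decide +kernel))))
              (CovZ.badM (by decide +kernel)))
             (CovZ.n1 (29952, 26208) (by decide +kernel)
              (CovZ.badM (by decide +kernel))
              (CovZ.n1 (29904, 26256) (by decide +kernel)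
               (CovZ.n2 (29952, 26256) (by decide +kernel)
                (CovZ.n2 (29928, 26232) (by decide +kernel)
                 (CovZ.leaf K3_ok TD_l11409 _)
                 (CovZ.leaf K3_ok TD_l11410 _))
                (CovZ.leaf K3_ok TD_l11411 _))
               (CovZ.n1 (29904, 26208) (by decide +kernel)
                (CovZ.badM (by decide +kernel))
                (CovZ.n1 (29928, 26232) (by decide +kernel)
                 (CovZ.badM (by decide +kernel))
                 (CovZ.badM (by decide +kernel)))))))
            (CovZ.n1 (29856, 26400) (by decide +kernel)
             (CovZ.n2 (29952, 26400) (by decide +kernel)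
              (CovZ.n2 (29904, 26352) (by decide +kernel)
               (CovZ.n2 (29904, 26400) (by decide +kernel)
                (CovZ.leaf K2_ok TD_l11412 _)
                (CovZ.leaf K2_ok TD_l11413 _))
               (CovZ.n1 (29952, 26352) (by decide +kernel)
                (CovZ.leaf K3_ok TD_l11414 _)
                (CovZ.leaf K3_ok TD_l11415 _)))
              (CovZ.n1 (29904, 26448) (by decide +kernel)
               (CovZ.n2 (29952, 26448) (by decide +kernel)
                (CovZ.leaf K3_ok TD_l11416 _)
                (CovZ.leaf K3_ok TD_l11417 _))
               (CovZ.n1 (29904, 26400) (by decide +kernel)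
                (CovZ.leaf K2_ok TD_l11418 _)
                (CovZ.leaf K2_ok TD_l11419 _))))
             (CovZ.n1 (29856, 26304) (by decide +kernel)
              (CovZ.n2 (29808, 26352) (by decide +kernel)
               (CovZ.n2 (29856, 26352) (by decide +kernel)
                (CovZ.badM (by decide +kernel))
                (CovZ.leaf K3_ok TD_l11422 _))
               (CovZ.badM (by decide +kernel)))
              (CovZ.n1 (29904, 26352) (by decide +kernel)
               (CovZ.n2 (29904, 26304) (by decide +kernel)
                (CovZ.badM (by decide +kernel))
                (CovZ.leaf K2_ok TD_l11427 _))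
               (CovZ.leaf K2_ok TD_l11428 _)))))))
         (CovZ.n1 (29760, 26688) (by decide +kernel)
          (CovZ.n2 (29952, 26688) (by decide +kernel)
           (CovZ.n2 (29856, 26592) (by decide +kernel)
            (CovZ.n2 (29856, 26688) (by decide +kernel)
             (CovZ.leaf K3_ok TD_l11429 _)
             (CovZ.n1 (29808, 26640) (by decide +kernel)
              (CovZ.leaf K3_ok TD_l11430 _)
              (CovZ.leaf K3_ok TD_l11431 _)))
            (CovZ.n1 (29952, 26592) (by decide +kernel)
             (CovZ.n2 (29904, 26544) (by decide +kernel)
              (CovZ.leaf K3_ok TD_l11432 _)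
              (CovZ.leaf K3_ok TD_l11433 _))
             (CovZ.n1 (29904, 26640) (by decide +kernel)
              (CovZ.leaf K3_ok TD_l11434 _)
              (CovZ.leaf K3_ok TD_l11435 _))))
           (CovZ.n1 (29856, 26784) (by decide +kernel)
            (CovZ.n2 (29952, 26784) (by decide +kernel)
             (CovZ.n2 (29904, 26736) (by decide +kernel)
              (CovZ.leaf K3_ok TD_l11436 _)
              (CovZ.leaf K3_ok TD_l11437 _))
             (CovZ.leaf K3_ok TD_l11438 _))
            (CovZ.n1 (29856, 26688) (by decide +kernel)
             (CovZ.n2 (29808, 26736) (by decide +kernel)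
              (CovZ.leaf K3_ok TD_l11439 _)
              (CovZ.leaf K3_ok TD_l11440 _))
             (CovZ.n1 (29904, 26736) (by decide +kernel)
              (CovZ.leaf K3_ok TD_l11441 _)
              (CovZ.leaf K3_ok TD_l11442 _)))))
          (CovZ.n1 (29760, 26496) (by decide +kernel)
           (CovZ.n2 (29664, 26592) (by decide +kernel)
            (CovZ.subM 7770675568902916283677847627294075626569627358930817020374757346662614000275248644112 (by decide +kernel)
             (CovZ.n2 (29760, 26592) (by decide +kernel)
              (CovZ.n2 (29712, 26544) (by decide +kernel)
               (CovZ.leaf K3_ok TD_l11443 _)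
               (CovZ.n1 (29760, 26544) (by decide +kernel)
                (CovZ.leaf K3_ok TD_l11444 _)
                (CovZ.leaf K3_ok TD_l11445 _)))
              (CovZ.n1 (29712, 26640) (by decide +kernel)
               (CovZ.leaf K3_ok TD_l11446 _)
               (CovZ.n1 (29712, 26592) (by decide +kernel)
                (CovZ.leaf K3_ok TD_l11447 _)
                (CovZ.leaf K3_ok TD_l11448 _)))))
            (CovZ.subM 2722258935367507710068180100888968822800 (by decide +kernel)
             (CovZ.n1 (29664, 26496) (by decide +kernel)
              (CovZ.n2 (29616, 26544) (by decide +kernel)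
               (CovZ.n2 (29664, 26544) (by decide +kernel)
                (CovZ.leaf K3_ok TD_l11449 _)
                (CovZ.leaf K3_ok TD_l11450 _))
               (CovZ.n1 (29616, 26496) (by decide +kernel)
                (CovZ.leaf K3_ok TD_l11451 _)
                (CovZ.leaf K2_ok TD_l11452 _)))
              (CovZ.n1 (29712, 26544) (by decide +kernel)
               (CovZ.n2 (29712, 26496) (by decide +kernel)
                (CovZ.leaf K3_ok TD_l11453 _)
                (CovZ.leaf K3_ok TD_l11454 _))
               (CovZ.leaf K3_ok TD_l11455 _)))))
           (CovZ.n1 (29856, 26592) (by decide +kernel)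
            (CovZ.subM 22303467457465990649243425269507815920631824 (by decide +kernel)
             (CovZ.n2 (29856, 26496) (by decide +kernel)
              (CovZ.n2 (29808, 26544) (by decide +kernel)
               (CovZ.leaf K3_ok TD_l11456 _)
               (CovZ.n1 (29808, 26496) (by decide +kernel)
                (CovZ.leaf K3_ok TD_l11457 _)
                (CovZ.leaf K3_ok TD_l11458 _)))
              (CovZ.n1 (29904, 26544) (by decide +kernel)
               (CovZ.n2 (29904, 26496) (by decide +kernel)
                (CovZ.leaf K3_ok TD_l11459 _)
                (CovZ.leaf K3_ok TD_l11460 _))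
               (CovZ.leaf K3_ok TD_l11461 _))))
            (CovZ.n1 (29760, 26592) (by decide +kernel)
             (CovZ.n2 (29808, 26640) (by decide +kernel)
              (CovZ.leaf K3_ok TD_l11462 _)
              (CovZ.leaf K3_ok TD_l11463 _))
             (CovZ.leaf K3_ok TD_l11464 _)))))))
       (CovZ.subM 136703170298938245273281389194851335334573089430825777298911408099152685591496713474117935069921280 (by decide +kernel)
        (CovZ.n1 (29568, 26112) (by decide +kernel)
         (CovZ.n2 (29376, 26304) (by decide +kernel)
          (CovZ.n2 (29568, 26304) (by decide +kernel)
           (CovZ.badM (by decide +kernel))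
           (CovZ.n1 (29472, 26400) (by decide +kernel)
            (CovZ.badM (by decide +kernel))
            (CovZ.badM (by decide +kernel))))
          (CovZ.badM (by decide +kernel)))
         (CovZ.n1 (29760, 26304) (by decide +kernel)
          (CovZ.n2 (29760, 26112) (by decide +kernel)
           (CovZ.badM (by decide +kernel))
           (CovZ.n1 (29856, 26208) (by decide +kernel)
            (CovZ.badM (by decide +kernel))
            (CovZ.badM (by decide +kernel))))
          (CovZ.badM (by decide +kernel)))))))
     (CovZ.subM 23312026706708969706916640179923424838664549631496503539017422259582942760043425562640 (by decide +kernel)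
      (CovZ.n1 (30336, 26496) (by decide +kernel)
       TD_u130
       TD_u131)))

theorem TD_u134 : CovZ TD_M (toL (selN TD_LN 136703170298946015948850292332206575852835629822768638692225907308748137237820590095880600709238800)) [0, 7, 6, 1] (29184, 26112) (29568, 26496) (29184, 26880) :=
    (CovZ.n2 (29184, 26496) (by decide +kernel)
        (CovZ.n2 (29376, 26688) (by decide +kernel)
         (CovZ.subM 136703170298938245273281389194851335334573089430825777276613385159557429957671063381570462532763664 (by decide +kernel)
          (CovZ.n2 (29376, 26496) (by decide +kernel)
           (CovZ.n2 (29280, 26592) (by decide +kernel)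
            (CovZ.n2 (29376, 26592) (by decide +kernel)
             (CovZ.n2 (29328, 26544) (by decide +kernel)
              (CovZ.n2 (29328, 26592) (by decide +kernel)
               (CovZ.leaf K2_ok TD_l11667 _)
               (CovZ.n1 (29304, 26568) (by decide +kernel)
                (CovZ.leaf K2_ok TD_l11668 _)
                (CovZ.leaf K2_ok TD_l11669 _)))
              (CovZ.n1 (29376, 26544) (by decide +kernel)
               (CovZ.n2 (29352, 26520) (by decide +kernel)
                (CovZ.leaf K2_ok TD_l18825 _)
                (CovZ.n1 (29376, 26520) (by decide +kernel)
                 (CovZ.leaf K2_ok TD_l18826 _)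
                 (CovZ.leaf K3_ok TD_l18827 _)))
               (CovZ.n1 (29352, 26568) (by decide +kernel)
                (CovZ.leaf K3_ok TD_l11670 _)
                (CovZ.leaf K2_ok TD_l11671 _))))
             (CovZ.n1 (29328, 26640) (by decide +kernel)
              (CovZ.n2 (29376, 26640) (by decide +kernel)
               (CovZ.n2 (29352, 26616) (by decide +kernel)
                (CovZ.leaf K2_ok TD_l11672 _)
                (CovZ.leaf K2_ok TD_l11673 _))
               (CovZ.leaf K3_ok TD_l11674 _))
              (CovZ.n1 (29328, 26592) (by decide +kernel)
               (CovZ.n2 (29304, 26616) (by decide +kernel)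
                (CovZ.leaf K2_ok TD_l11675 _)
                (CovZ.leaf K2_ok TD_l11676 _))
               (CovZ.n1 (29352, 26616) (by decide +kernel)
                (CovZ.leaf K3_ok TD_l11677 _)
                (CovZ.leaf K2_ok TD_l11678 _)))))
            (CovZ.badM (by decide +kernel)))
           (CovZ.n1 (29472, 26592) (by decide +kernel)
            (CovZ.n2 (29472, 26496) (by decide +kernel)
             (CovZ.n2 (29424, 26544) (by decide +kernel)
              (CovZ.n2 (29472, 26544) (by decide +kernel)
               (CovZ.badM (by decide +kernel))
               (CovZ.n1 (29448, 26568) (by decide +kernel)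
                (CovZ.leaf K3_ok TD_l11683 _)
                (CovZ.badM (by decide +kernel))))
              (CovZ.n1 (29424, 26496) (by decide +kernel)
               (CovZ.n2 (29400, 26520) (by decide +kernel)
                (CovZ.badM (by decide +kernel))
                (CovZ.leaf K2_ok TD_l18828 _))
               (CovZ.badM (by decide +kernel))))
             (CovZ.n1 (29520, 26544) (by decide +kernel)
              (CovZ.n2 (29520, 26496) (by decide +kernel)
               (CovZ.badM (by decide +kernel))
               (CovZ.n1 (29544, 26520) (by decide +kernel)
                (CovZ.leaf K3_ok TD_l11689 _)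
                (CovZ.badM (by decide +kernel))))
              (CovZ.n1 (29472, 26544) (by decide +kernel)
               (CovZ.leaf K3_ok TD_l11691 _)
               (CovZ.badM (by decide +kernel)))))
            (CovZ.n1 (29376, 26592) (by decide +kernel)
             (CovZ.n2 (29424, 26640) (by decide +kernel)
              (CovZ.n2 (29424, 26592) (by decide +kernel)
               (CovZ.n2 (29400, 26616) (by decide +kernel)
                (CovZ.leaf K2_ok TD_l11693 _)
                (CovZ.leaf K3_ok TD_l11694 _))
               (CovZ.leaf K3_ok TD_l11695 _))
              (CovZ.leaf K3_ok TD_l11696 _))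
             (CovZ.n1 (29424, 26544) (by decide +kernel)
              (CovZ.n2 (29376, 26544) (by decide +kernel)
               (CovZ.n2 (29400, 26568) (by decide +kernel)
                (CovZ.leaf K3_ok TD_l11697 _)
                (CovZ.leaf K3_ok TD_l11698 _))
               (CovZ.leaf K2_ok TD_l18829 _))
              (CovZ.n1 (29424, 26592) (by decide +kernel)
               (CovZ.leaf K3_ok TD_l11699 _)
               (CovZ.n1 (29400, 26568) (by decide +kernel)
                (CovZ.leaf K3_ok TD_l11700 _)
                (CovZ.badM (by decide +kernel)))))))))
         (CovZ.n1 (29184, 26688) (by decide +kernel)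
          (CovZ.n2 (29280, 26784) (by decide +kernel)
           (CovZ.subM 136703170298946015948850292111350692755537588624809683024663028504096166854982636581700658103058448 (by decide +kernel)
            (CovZ.n2 (29280, 26688) (by decide +kernel)
             (CovZ.n2 (29232, 26736) (by decide +kernel)
              (CovZ.n2 (29280, 26736) (by decide +kernel)
               (CovZ.n2 (29256, 26712) (by decide +kernel)
                (CovZ.leaf K2_ok TD_l11702 _)
                (CovZ.leaf K2_ok TD_l11703 _))
               (CovZ.leaf K2_ok TD_l11704 _))
              (CovZ.n1 (29232, 26688) (by decide +kernel)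
               (CovZ.n2 (29208, 26712) (by decide +kernel)
                (CovZ.leaf K2_ok TD_l11705 _)
                (CovZ.leaf K2_ok TD_l11706 _))
               (CovZ.n1 (29256, 26712) (by decide +kernel)
                (CovZ.leaf K2_ok TD_l11707 _)
                (CovZ.leaf K2_ok TD_l11708 _))))
             (CovZ.n1 (29328, 26736) (by decide +kernel)
              (CovZ.n2 (29328, 26688) (by decide +kernel)
               (CovZ.leaf K2_ok TD_l11709 _)
               (CovZ.leaf K3_ok TD_l11710 _))
              (CovZ.leaf K2_ok TD_l11711 _))))
           (CovZ.n1 (29184, 26784) (by decide +kernel)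
            (CovZ.n2 (29232, 26832) (by decide +kernel)
             (CovZ.n2 (29232, 26784) (by decide +kernel)
              (CovZ.leaf K2_ok TD_l11712 _)
              (CovZ.leaf K2_ok TD_l11713 _))
             (CovZ.leaf K2_ok TD_l11714 _))
            (CovZ.leaf K2_ok TD_l11715 _)))
          (CovZ.subM 136703170298938245273281389194851335334573089430825777276610662900622062449963356384711008387072016 (by decide +kernel)
           (CovZ.n1 (29280, 26592) (by decide +kernel)
            (CovZ.n2 (29184, 26592) (by decide +kernel)
             (CovZ.n2 (29232, 26640) (by decide +kernel)
              (CovZ.n2 (29232, 26592) (by decide +kernel)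
               (CovZ.n2 (29208, 26616) (by decide +kernel)
                (CovZ.leaf K2_ok TD_l11716 _)
                (CovZ.badM (by decide +kernel)))
               (CovZ.n1 (29256, 26616) (by decide +kernel)
                (CovZ.badM (by decide +kernel))
                (CovZ.leaf K2_ok TD_l11718 _)))
              (CovZ.n1 (29184, 26640) (by decide +kernel)
               (CovZ.n2 (29208, 26664) (by decide +kernel)
                (CovZ.leaf K2_ok TD_l11719 _)
                (CovZ.leaf K2_ok TD_l11720 _))
               (CovZ.leaf K3_ok TD_l11721 _)))
             (CovZ.badM (by decide +kernel)))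
            (CovZ.n1 (29280, 26688) (by decide +kernel)
             (CovZ.n2 (29328, 26640) (by decide +kernel)
              (CovZ.n2 (29280, 26640) (by decide +kernel)
               (CovZ.leaf K2_ok TD_l11723 _)
               (CovZ.leaf K2_ok TD_l11724 _))
              (CovZ.n1 (29328, 26688) (by decide +kernel)
               (CovZ.leaf K3_ok TD_l11725 _)
               (CovZ.leaf K2_ok TD_l11726 _)))
             (CovZ.n1 (29232, 26640) (by decide +kernel)
              (CovZ.n2 (29232, 26688) (by decide +kernel)
               (CovZ.leaf K2_ok TD_l11727 _)
               (CovZ.n1 (29208, 26664) (by decide +kernel)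
                (CovZ.leaf K2_ok TD_l11728 _)
                (CovZ.leaf K2_ok TD_l11729 _)))
              (CovZ.n1 (29280, 26640) (by decide +kernel)
               (CovZ.n2 (29256, 26616) (by decide +kernel)
                (CovZ.leaf K2_ok TD_l11730 _)
                (CovZ.leaf K2_ok TD_l11731 _))
               (CovZ.leaf K2_ok TD_l11732 _))))))))
        (CovZ.subM 136703170298938245273281389194851335334573089430825777276610662900622062449960995201469573563940864 (by decide +kernel)
         (CovZ.n1 (29376, 26304) (by decide +kernel)
          (CovZ.badM (by decide +kernel))
          (CovZ.n1 (29376, 26496) (by decide +kernel)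
           (CovZ.n2 (29472, 26400) (by decide +kernel)
            (CovZ.badM (by decide +kernel))
            (CovZ.n1 (29472, 26496) (by decide +kernel)
             (CovZ.badM (by decide +kernel))
             (CovZ.n1 (29424, 26448) (by decide +kernel)
              (CovZ.n2 (29424, 26496) (by decide +kernel)
               (CovZ.badM (by decide +kernel))
               (CovZ.n1 (29400, 26472) (by decide +kernel)
                (CovZ.leaf K3_ok TD_l18830 _)
                (CovZ.badM (by decide +kernel))))
              (CovZ.badM (by decide +kernel)))))
           (CovZ.badM (by decide +kernel))))))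

theorem TD_u135 : CovZ TD_M (toL (selN TD_LN 136703170298946015948850292332206575852835629822768638692225907308748137237820590095880600709238800)) [0, 7, 6, 1] (29568, 26496) (29952, 26880) (29184, 26880) :=
    (CovZ.n1 (29568, 26880) (by decide +kernel)
        (CovZ.subM 7770675568903137139560944925335273585525294919079387369002922984032891719836580184080 (by decide +kernel)
         (CovZ.n2 (29760, 26688) (by decide +kernel)
          (CovZ.n2 (29568, 26688) (by decide +kernel)
           (CovZ.n2 (29664, 26784) (by decide +kernel)
            (CovZ.n2 (29664, 26688) (by decide +kernel)
             (CovZ.n2 (29616, 26736) (by decide +kernel)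
              (CovZ.leaf K3_ok TD_l11733 _)
              (CovZ.n1 (29616, 26688) (by decide +kernel)
               (CovZ.leaf K3_ok TD_l11734 _)
               (CovZ.leaf K3_ok TD_l11735 _)))
             (CovZ.n1 (29712, 26736) (by decide +kernel)
              (CovZ.leaf K3_ok TD_l11736 _)
              (CovZ.leaf K3_ok TD_l11737 _)))
            (CovZ.n1 (29568, 26784) (by decide +kernel)
             (CovZ.n2 (29616, 26832) (by decide +kernel)
              (CovZ.leaf K3_ok TD_l11738 _)
              (CovZ.leaf K3_ok TD_l11739 _))
             (CovZ.leaf K3_ok TD_l11740 _)))
           (CovZ.n1 (29664, 26592) (by decide +kernel)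
            (CovZ.subM 7770675568902916283677847627294075626569627358930817020374757349023797241709802815504 (by decide +kernel)
             (CovZ.n2 (29568, 26592) (by decide +kernel)
              (CovZ.n2 (29616, 26640) (by decide +kernel)
               (CovZ.n2 (29616, 26592) (by decide +kernel)
                (CovZ.leaf K3_ok TD_l11741 _)
                (CovZ.leaf K3_ok TD_l11742 _))
               (CovZ.leaf K3_ok TD_l11743 _))
              (CovZ.n1 (29616, 26544) (by decide +kernel)
               (CovZ.leaf K3_ok TD_l11744 _)
               (CovZ.n1 (29616, 26592) (by decide +kernel)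
                (CovZ.leaf K3_ok TD_l11745 _)
                (CovZ.leaf K3_ok TD_l11746 _)))))
            (CovZ.n1 (29664, 26688) (by decide +kernel)
             (CovZ.leaf K3_ok TD_l11747 _)
             (CovZ.n1 (29616, 26640) (by decide +kernel)
              (CovZ.leaf K3_ok TD_l11748 _)
              (CovZ.n1 (29664, 26640) (by decide +kernel)
               (CovZ.leaf K3_ok TD_l11749 _)
               (CovZ.leaf K3_ok TD_l11750 _))))))
          (CovZ.n1 (29760, 26880) (by decide +kernel)
           (CovZ.n2 (29856, 26784) (by decide +kernel)
            (CovZ.n2 (29760, 26784) (by decide +kernel)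
             (CovZ.leaf K3_ok TD_l11751 _)
             (CovZ.leaf K3_ok TD_l11752 _))
            (CovZ.n1 (29856, 26880) (by decide +kernel)
             (CovZ.leaf K3_ok TD_l11753 _)
             (CovZ.leaf K3_ok TD_l11754 _)))
           (CovZ.n1 (29664, 26784) (by decide +kernel)
            (CovZ.n2 (29664, 26880) (by decide +kernel)
             (CovZ.leaf K3_ok TD_l11755 _)
             (CovZ.n1 (29616, 26832) (by decide +kernel)
              (CovZ.leaf K3_ok TD_l11756 _)
              (CovZ.leaf K3_ok TD_l11757 _)))
            (CovZ.n1 (29760, 26784) (by decide +kernel)
             (CovZ.n2 (29712, 26736) (by decide +kernel)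
              (CovZ.leaf K3_ok TD_l11758 _)
              (CovZ.leaf K3_ok TD_l11759 _))
             (CovZ.n1 (29712, 26832) (by decide +kernel)
              (CovZ.leaf K3_ok TD_l11760 _)
              (CovZ.leaf K3_ok TD_l11761 _)))))))
        (CovZ.n1 (29376, 26688) (by decide +kernel)
         (CovZ.n2 (29376, 26880) (by decide +kernel)
          (CovZ.subM 136703170298946015948850292111135013182200383506499114956364182611024955121956940055340273476567056 (by decide +kernel)
           (CovZ.n2 (29472, 26784) (by decide +kernel)
            (CovZ.n2 (29376, 26784) (by decide +kernel)
             (CovZ.n2 (29424, 26832) (by decide +kernel)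
              (CovZ.n2 (29424, 26784) (by decide +kernel)
               (CovZ.leaf K3_ok TD_l11762 _)
               (CovZ.leaf K3_ok TD_l11763 _))
              (CovZ.leaf K3_ok TD_l11764 _))
             (CovZ.leaf K3_ok TD_l11765 _))
            (CovZ.n1 (29472, 26880) (by decide +kernel)
             (CovZ.leaf K3_ok TD_l11766 _)
             (CovZ.n1 (29424, 26832) (by decide +kernel)
              (CovZ.leaf K3_ok TD_l11767 _)
              (CovZ.leaf K3_ok TD_l11768 _)))))
          (CovZ.n1 (29280, 26784) (by decide +kernel)
           (CovZ.n2 (29280, 26880) (by decide +kernel)
            (CovZ.leaf K2_ok TD_l11769 _)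
            (CovZ.n1 (29232, 26832) (by decide +kernel)
             (CovZ.leaf K2_ok TD_l11770 _)
             (CovZ.n1 (29280, 26832) (by decide +kernel)
              (CovZ.leaf K2_ok TD_l11771 _)
              (CovZ.leaf K2_ok TD_l11772 _))))
           (CovZ.subM 136703170298946015948850292111135013182200383506499114956361460352089587614249233058480819330875408 (by decide +kernel)
            (CovZ.n1 (29376, 26784) (by decide +kernel)
             (CovZ.n2 (29328, 26736) (by decide +kernel)
              (CovZ.leaf K3_ok TD_l11773 _)
              (CovZ.n1 (29376, 26736) (by decide +kernel)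
               (CovZ.leaf K3_ok TD_l11774 _)
               (CovZ.leaf K3_ok TD_l11775 _)))
             (CovZ.n1 (29328, 26832) (by decide +kernel)
              (CovZ.leaf K2_ok TD_l11776 _)
              (CovZ.n1 (29328, 26784) (by decide +kernel)
               (CovZ.leaf K3_ok TD_l11777 _)
               (CovZ.leaf K2_ok TD_l11778 _)))))))
         (CovZ.subM 136703170298946015948850292111135013182200383506499114956364182611024955121956940055340273476567056 (by decide +kernel)
          (CovZ.n1 (29568, 26688) (by decide +kernel)
           (CovZ.n2 (29472, 26592) (by decide +kernel)
            (CovZ.n2 (29472, 26688) (by decide +kernel)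
             (CovZ.n2 (29520, 26640) (by decide +kernel)
              (CovZ.leaf K3_ok TD_l11779 _)
              (CovZ.leaf K3_ok TD_l11780 _))
             (CovZ.subM 136703170298938245273281389194851335334573089430825777276610662900622062449963356384711008387072016 (by decide +kernel)
              (CovZ.n1 (29424, 26640) (by decide +kernel)
               (CovZ.n2 (29424, 26688) (by decide +kernel)
                (CovZ.leaf K3_ok TD_l11781 _)
                (CovZ.leaf K3_ok TD_l11782 _))
               (CovZ.n1 (29472, 26640) (by decide +kernel)
                (CovZ.leaf K3_ok TD_l11783 _)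
                (CovZ.leaf K3_ok TD_l11784 _)))))
            (CovZ.n1 (29568, 26592) (by decide +kernel)
             (CovZ.subM 2722258935367507710068180100888968822800 (by decide +kernel)
              (CovZ.n2 (29520, 26544) (by decide +kernel)
               (CovZ.n2 (29520, 26592) (by decide +kernel)
                (CovZ.leaf K3_ok TD_l11785 _)
                (CovZ.leaf K3_ok TD_l11786 _))
               (CovZ.n1 (29568, 26544) (by decide +kernel)
                (CovZ.n2 (29544, 26520) (by decide +kernel)
                 (CovZ.leaf K3_ok TD_l11787 _)
                 (CovZ.leaf K3_ok TD_l11788 _))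
                (CovZ.leaf K3_ok TD_l11789 _))))
             (CovZ.n1 (29520, 26640) (by decide +kernel)
              (CovZ.n2 (29568, 26640) (by decide +kernel)
               (CovZ.leaf K3_ok TD_l11790 _)
               (CovZ.leaf K3_ok TD_l11791 _))
              (CovZ.n1 (29520, 26592) (by decide +kernel)
               (CovZ.leaf K3_ok TD_l11792 _)
               (CovZ.leaf K3_ok TD_l11793 _)))))
           (CovZ.n1 (29472, 26784) (by decide +kernel)
            (CovZ.n2 (29568, 26784) (by decide +kernel)
             (CovZ.n2 (29520, 26736) (by decide +kernel)
              (CovZ.leaf K3_ok TD_l11794 _)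
              (CovZ.leaf K3_ok TD_l11795 _))
             (CovZ.n1 (29520, 26832) (by decide +kernel)
              (CovZ.leaf K3_ok TD_l11796 _)
              (CovZ.leaf K3_ok TD_l11797 _)))
            (CovZ.n1 (29472, 26688) (by decide +kernel)
             (CovZ.n2 (29424, 26736) (by decide +kernel)
              (CovZ.n2 (29472, 26736) (by decide +kernel)
               (CovZ.leaf K3_ok TD_l11798 _)
               (CovZ.leaf K3_ok TD_l11799 _))
              (CovZ.n1 (29424, 26688) (by decide +kernel)
               (CovZ.leaf K3_ok TD_l11800 _)
               (CovZ.leaf K3_ok TD_l11801 _)))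
             (CovZ.n1 (29520, 26736) (by decide +kernel)
              (CovZ.n2 (29520, 26688) (by decide +kernel)
               (CovZ.leaf K3_ok TD_l11802 _)
               (CovZ.leaf K3_ok TD_l11803 _))
              (CovZ.leaf K3_ok TD_l11804 _))))))))

end Pool.Agent.TET
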