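import Pool.Agent.Helper38_TET.TD_M
import Pool.Agent.Helper38_TET.TD_L
import Pool.Agent.Helper38_TET.TD_36
import Pool.Agent.Helper38_TET.TD_37
import Pool.Agent.Helper38_TET.TD_77
import Pool.Agent.Helper38_TET.TD_78
import Pool.Agent.Helper38_TET.TD_79
import Pool.Agent.Helper38_TET.TD_90
import Pool.Agent.Helper38_TET.TD_91
import Pool.Agent.Helper38_TET.TD_92
import Pool.Agent.Helper38_TET.TD_93
import Pool.Agent.Helper38_TET.TD_103
import Pool.Agent.Helper38_TET.TD_104
import Pool.Agent.Helper38_TET.TD_105
import Pool.Agent.Helper38_TET.TD_121
import Pool.Agent.Helper38_TET.TD_122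
import Pool.Agent.Helper38_TET.TD_123
import Pool.Agent.Helper38_TET.TD_U8

/-!
# MP_c7c9bf_co: certificates, family TD
-/

set_option autoImplicit false
set_option maxRecDepth 100000

namespace Pool.Agent.TET

theorem TD_u136 : CovZ TD_M (toL (selN TD_LN 683549230366222998115734792046139932116742554760447804633104961609517543107317610483654784982716434)) [0, 7, 6, 1] (29184, 26112) (29952, 26880) (29184, 27648) :=
    (CovZ.n2 (29184, 26880) (by decide +kernel)
     (CovZ.n2 (29568, 27264) (by decide +kernel)
      (CovZ.n2 (29568, 26880) (by decide +kernel)
       (CovZ.n2 (29376, 27072) (by decide +kernel)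
        (CovZ.subM 683549230366207213930985443641590630591039730686681805398327811658313015010673166872947555087941648 (by decide +kernel)
         (CovZ.n2 (29568, 27072) (by decide +kernel)
          (CovZ.n2 (29472, 26976) (by decide +kernel)
           (CovZ.n2 (29472, 27072) (by decide +kernel)
            (CovZ.leaf K3_ok TD_l11606 _)
            (CovZ.leaf K3_ok TD_l11607 _))
           (CovZ.n1 (29568, 26976) (by decide +kernel)
            (CovZ.n2 (29520, 26928) (by decide +kernel)
             (CovZ.leaf K3_ok TD_l11608 _)
             (CovZ.leaf K3_ok TD_l11609 _))
            (CovZ.leaf K3_ok TD_l11610 _)))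
          (CovZ.n1 (29472, 27168) (by decide +kernel)
           (CovZ.n2 (29568, 27168) (by decide +kernel)
            (CovZ.leaf K3_ok TD_l11611 _)
            (CovZ.leaf K3_ok TD_l11612 _))
           (CovZ.n1 (29472, 27072) (by decide +kernel)
            (CovZ.leaf K2_ok TD_l11613 _)
            (CovZ.leaf K3_ok TD_l11614 _)))))
        (CovZ.n1 (29376, 26880) (by decide +kernel)
         (CovZ.n2 (29280, 26976) (by decide +kernel)
          (CovZ.subM 136736549170454232837859886862185289252747372963378696291882437796889397703121479070201010593464336 (by decide +kernel)
           (CovZ.n2 (29376, 26976) (by decide +kernel)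
            (CovZ.n2 (29328, 26928) (by decide +kernel)
             (CovZ.leaf K2_ok TD_l11615 _)
             (CovZ.leaf K2_ok TD_l11616 _))
            (CovZ.n1 (29328, 27024) (by decide +kernel)
             (CovZ.leaf K3_ok TD_l11617 _)
             (CovZ.leaf K3_ok TD_l11618 _))))
          (CovZ.subM 136703174373017968617822464648242069574293910823574209713048180292524247384781718564016617401352208 (by decide +kernel)
           (CovZ.n1 (29280, 26880) (by decide +kernel)
            (CovZ.n2 (29232, 26928) (by decide +kernel)
             (CovZ.leaf K2_ok TD_l11619 _)
             (CovZ.n1 (29232, 26880) (by decide +kernel)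
              (CovZ.leaf K3_ok TD_l11620 _)
              (CovZ.leaf K2_ok TD_l11621 _)))
            (CovZ.n1 (29328, 26928) (by decide +kernel)
             (CovZ.leaf K2_ok TD_l11622 _)
             (CovZ.leaf K2_ok TD_l11623 _)))))
         (CovZ.subM 136736549170454232837859886862185289252747372963378696291885160055824765210829186067060464739155984 (by decide +kernel)
          (CovZ.n1 (29472, 26976) (by decide +kernel)
           (CovZ.n2 (29472, 26880) (by decide +kernel)
            (CovZ.n2 (29424, 26928) (by decide +kernel)
             (CovZ.leaf K3_ok TD_l11624 _)
             (CovZ.leaf K3_ok TD_l11625 _))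
            (CovZ.n1 (29520, 26928) (by decide +kernel)
             (CovZ.leaf K3_ok TD_l11626 _)
             (CovZ.leaf K2_ok TD_l11627 _)))
           (CovZ.n1 (29376, 26976) (by decide +kernel)
            (CovZ.leaf K3_ok TD_l11628 _)
            (CovZ.leaf K2_ok TD_l11629 _))))))
       (CovZ.subM 546846060067268968657704054667595178353764682453768215736882708434657062811700259709327118191558672 (by decide +kernel)
        (CovZ.n1 (29760, 27072) (by decide +kernel)
         (CovZ.n2 (29760, 26880) (by decide +kernel)
          (CovZ.n2 (29664, 26976) (by decide +kernel)
           (CovZ.n2 (29760, 26976) (by decide +kernel)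
            (CovZ.leaf K3_ok TD_l11630 _)
            (CovZ.leaf K3_ok TD_l11631 _))
           (CovZ.n1 (29664, 26880) (by decide +kernel)
            (CovZ.leaf K3_ok TD_l11632 _)
            (CovZ.leaf K3_ok TD_l11633 _)))
          (CovZ.n1 (29856, 26976) (by decide +kernel)
           (CovZ.n2 (29856, 26880) (by decide +kernel)
            (CovZ.leaf K3_ok TD_l11634 _)
            (CovZ.leaf K3_ok TD_l11635 _))
           (CovZ.leaf K3_ok TD_l11636 _)))
         (CovZ.n1 (29568, 27072) (by decide +kernel)
          (CovZ.n2 (29664, 27168) (by decide +kernel)
           (CovZ.n2 (29664, 27072) (by decide +kernel)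
            (CovZ.leaf K3_ok TD_l11637 _)
            (CovZ.leaf K2_ok TD_l11638 _))
           (CovZ.leaf K3_ok TD_l11639 _))
          (CovZ.n1 (29664, 26976) (by decide +kernel)
           (CovZ.leaf K3_ok TD_l11640 _)
           (CovZ.leaf K3_ok TD_l11641 _))))))
      (CovZ.n1 (29184, 27264) (by decide +kernel)
       (CovZ.n2 (29376, 27456) (by decide +kernel)
        (CovZ.n2 (29376, 27264) (by decide +kernel)
         (CovZ.n2 (29280, 27360) (by decide +kernel)
          (CovZ.n2 (29376, 27360) (by decide +kernel)
           (CovZ.leaf K2_ok TD_l11642 _)
           (CovZ.leaf K3_ok TD_l11643 _))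
          (CovZ.n1 (29280, 27264) (by decide +kernel)
           (CovZ.leaf K3_ok TD_l11644 _)
           (CovZ.leaf K3_ok TD_l11645 _)))
         (CovZ.n1 (29472, 27360) (by decide +kernel)
          (CovZ.n2 (29472, 27264) (by decide +kernel)
           (CovZ.leaf K2_ok TD_l11646 _)
           (CovZ.leaf K2_ok TD_l11647 _))
          (CovZ.leaf K2_ok TD_l11648 _)))
        (CovZ.n1 (29184, 27456) (by decide +kernel)
         (CovZ.n2 (29280, 27552) (by decide +kernel)
          (CovZ.n2 (29280, 27456) (by decide +kernel)
           (CovZ.leaf K2_ok TD_l11649 _)
           (CovZ.leaf K3_ok TD_l11650 _))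
          (CovZ.leaf K2_ok TD_l11651 _))
         (CovZ.leaf K3_ok TD_l11652 _)))
       (CovZ.n1 (29376, 27072) (by decide +kernel)
        (CovZ.n2 (29184, 27072) (by decide +kernel)
         (CovZ.n2 (29280, 27168) (by decide +kernel)
          (CovZ.n2 (29280, 27072) (by decide +kernel)
           (CovZ.n2 (29232, 27120) (by decide +kernel)
            (CovZ.leaf K3_ok TD_l11653 _)
            (CovZ.leaf K3_ok TD_l11654 _))
           (CovZ.leaf K3_ok TD_l11655 _))
          (CovZ.leaf K3_ok TD_l11656 _))
         (CovZ.n1 (29280, 26976) (by decide +kernel)
          (CovZ.n2 (29184, 26976) (by decide +kernel)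
           (CovZ.n2 (29232, 27024) (by decide +kernel)
            (CovZ.leaf K3_ok TD_l11657 _)
            (CovZ.leaf K3_ok TD_l11658 _))
           (CovZ.leaf K3_ok TD_l11659 _))
          (CovZ.n1 (29280, 27072) (by decide +kernel)
           (CovZ.leaf K3_ok TD_l11660 _)
           (CovZ.n1 (29232, 27024) (by decide +kernel)
            (CovZ.leaf K3_ok TD_l11661 _)
            (CovZ.leaf K3_ok TD_l11662 _)))))
        (CovZ.n1 (29376, 27264) (by decide +kernel)
         (CovZ.leaf K3_ok TD_l11663 _)
         (CovZ.n1 (29280, 27168) (by decide +kernel)
          (CovZ.leaf K3_ok TD_l11664 _)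
          (CovZ.n1 (29376, 27168) (by decide +kernel)
           (CovZ.leaf K3_ok TD_l11665 _)
           (CovZ.leaf K3_ok TD_l11666 _)))))))
     (CovZ.subM 136703170298946015948850292332206575852835629822768638692225907308748137237820590095880600709238800 (by decide +kernel)
      (CovZ.n1 (29568, 26496) (by decide +kernel)
       TD_u134
       TD_u135)))

theorem TD_u137 : CovZ TD_M (toL (selN TD_LN 683549230366222998115734792046139932116742554760447804633104961609517543107317610483654784982716434)) [0, 7, 6, 1] (29952, 26880) (30720, 27648) (29184, 27648) :=
    (CovZ.n1 (29952, 27648) (by decide +kernel)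
     (CovZ.subM 546846060067284510008841860500162534049019270605021354991595125550827077310975809760085850060226578 (by decide +kernel)
      (CovZ.n2 (30336, 27264) (by decide +kernel)
       (CovZ.n2 (29952, 27264) (by decide +kernel)
        (CovZ.n2 (30144, 27456) (by decide +kernel)
         (CovZ.n2 (30144, 27264) (by decide +kernel)
          (CovZ.n2 (30048, 27360) (by decide +kernel)
           (CovZ.leaf K2_ok TD_l11805 _)
           (CovZ.leaf K2_ok TD_l11806 _))
          (CovZ.n1 (30240, 27360) (by decide +kernel)
           (CovZ.leaf K2_ok TD_l11807 _)
           (CovZ.leaf K2_ok TD_l11808 _)))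
         (CovZ.n1 (29952, 27456) (by decide +kernel)
          (CovZ.n2 (30048, 27552) (by decide +kernel)
           (CovZ.leaf K2_ok TD_l11809 _)
           (CovZ.leaf K3_ok TD_l11810 _))
          (CovZ.leaf K2_ok TD_l11811 _)))
        (CovZ.n1 (30144, 27072) (by decide +kernel)
         (CovZ.n2 (29952, 27072) (by decide +kernel)
          (CovZ.n2 (30048, 27168) (by decide +kernel)
           (CovZ.n2 (30048, 27072) (by decide +kernel)
            (CovZ.leaf K2_ok TD_l11812 _)
            (CovZ.leaf K2_ok TD_l11813 _))
           (CovZ.leaf K2_ok TD_l11814 _))
          (CovZ.leaf K2_ok TD_l11815 _))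
         (CovZ.n1 (30144, 27264) (by decide +kernel)
          (CovZ.leaf K2_ok TD_l11816 _)
          (CovZ.n1 (30048, 27168) (by decide +kernel)
           (CovZ.leaf K2_ok TD_l11817 _)
           (CovZ.leaf K2_ok TD_l11818 _)))))
       (CovZ.n1 (30336, 27648) (by decide +kernel)
        (CovZ.n2 (30528, 27456) (by decide +kernel)
         (CovZ.leaf K2_ok TD_l11819 _)
         (CovZ.n1 (30528, 27648) (by decide +kernel)
          (CovZ.leaf K3_ok TD_l11820 _)
          (CovZ.leaf K3_ok TD_l11821 _)))
        (CovZ.n1 (30144, 27456) (by decide +kernel)
         (CovZ.n2 (30144, 27648) (by decide +kernel)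
          (CovZ.leaf K2_ok TD_l11822 _)
          (CovZ.n1 (30048, 27552) (by decide +kernel)
           (CovZ.leaf K3_ok TD_l11823 _)
           (CovZ.leaf K2_ok TD_l11824 _)))
         (CovZ.n1 (30336, 27456) (by decide +kernel)
          (CovZ.n2 (30240, 27360) (by decide +kernel)
           (CovZ.leaf K3_ok TD_l11825 _)
           (CovZ.leaf K2_ok TD_l11826 _))
          (CovZ.n1 (30240, 27552) (by decide +kernel)
           (CovZ.leaf K3_ok TD_l11827 _)
           (CovZ.leaf K2_ok TD_l11828 _)))))))
     (CovZ.n1 (29568, 27264) (by decide +kernel)
      (CovZ.n2 (29568, 27648) (by decide +kernel)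
       (CovZ.n2 (29760, 27456) (by decide +kernel)
        (CovZ.n2 (29568, 27456) (by decide +kernel)
         (CovZ.n2 (29664, 27552) (by decide +kernel)
          (CovZ.leaf K2_ok TD_l11829 _)
          (CovZ.leaf K2_ok TD_l11830 _))
         (CovZ.leaf K2_ok TD_l11831 _))
        (CovZ.n1 (29760, 27648) (by decide +kernel)
         (CovZ.leaf K2_ok TD_l11832 _)
         (CovZ.n1 (29664, 27552) (by decide +kernel)
          (CovZ.leaf K2_ok TD_l11833 _)
          (CovZ.leaf K2_ok TD_l11834 _))))
       (CovZ.n1 (29376, 27456) (by decide +kernel)
        (CovZ.n2 (29376, 27648) (by decide +kernel)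
         (CovZ.leaf K2_ok TD_l11835 _)
         (CovZ.n1 (29280, 27552) (by decide +kernel)
          (CovZ.leaf K2_ok TD_l11836 _)
          (CovZ.leaf K2_ok TD_l11837 _)))
        (CovZ.subM 683549230366207213930985443641590630591039730686681805398327811658313015010673166872947555087941650 (by decide +kernel)
         (CovZ.n1 (29568, 27456) (by decide +kernel)
          (CovZ.n2 (29472, 27360) (by decide +kernel)
           (CovZ.leaf K2_ok TD_l11838 _)
           (CovZ.n1 (29568, 27360) (by decide +kernel)
            (CovZ.leaf K2_ok TD_l11839 _)
            (CovZ.leaf K2_ok TD_l11840 _)))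
          (CovZ.n1 (29472, 27552) (by decide +kernel)
           (CovZ.leaf K2_ok TD_l11841 _)
           (CovZ.leaf K2_ok TD_l11842 _))))))
      (CovZ.n1 (29952, 27264) (by decide +kernel)
       (CovZ.subM 546846060067268968657704054667595178353764682453768215736882708434657062811700259709327118191558672 (by decide +kernel)
        (CovZ.n2 (29760, 27072) (by decide +kernel)
         (CovZ.n2 (29760, 27264) (by decide +kernel)
          (CovZ.leaf K2_ok TD_l11843 _)
          (CovZ.n1 (29664, 27168) (by decide +kernel)
           (CovZ.leaf K2_ok TD_l11844 _)
           (CovZ.n1 (29760, 27168) (by decide +kernel)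
            (CovZ.leaf K2_ok TD_l11845 _)
            (CovZ.leaf K2_ok TD_l11846 _))))
         (CovZ.n1 (29952, 27072) (by decide +kernel)
          (CovZ.n2 (29856, 26976) (by decide +kernel)
           (CovZ.leaf K3_ok TD_l11847 _)
           (CovZ.n1 (29952, 26976) (by decide +kernel)
            (CovZ.leaf K3_ok TD_l11848 _)
            (CovZ.leaf K2_ok TD_l11849 _)))
          (CovZ.n1 (29856, 27168) (by decide +kernel)
           (CovZ.n2 (29952, 27168) (by decide +kernel)
            (CovZ.leaf K2_ok TD_l11850 _)
            (CovZ.leaf K2_ok TD_l11851 _))
           (CovZ.n1 (29856, 27072) (by decide +kernel)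
            (CovZ.leaf K2_ok TD_l11852 _)
            (CovZ.leaf K2_ok TD_l11853 _))))))
       (CovZ.n1 (29760, 27456) (by decide +kernel)
        (CovZ.subM 546846060067268968657704054667595178353764682453768215736882708434657062811697898525804208392241170 (by decide +kernel)
         (CovZ.n2 (29952, 27456) (by decide +kernel)
          (CovZ.n2 (29856, 27360) (by decide +kernel)
           (CovZ.leaf K2_ok TD_l11854 _)
           (CovZ.leaf K2_ok TD_l11855 _))
          (CovZ.n1 (29856, 27552) (by decide +kernel)
           (CovZ.leaf K3_ok TD_l11856 _)
           (CovZ.leaf K3_ok TD_l11857 _))))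
        (CovZ.n1 (29760, 27264) (by decide +kernel)
         (CovZ.n2 (29664, 27360) (by decide +kernel)
          (CovZ.leaf K2_ok TD_l11858 _)
          (CovZ.n1 (29664, 27264) (by decide +kernel)
           (CovZ.leaf K2_ok TD_l11859 _)
           (CovZ.leaf K2_ok TD_l11860 _)))
         (CovZ.n1 (29856, 27360) (by decide +kernel)
          (CovZ.leaf K2_ok TD_l11861 _)
          (CovZ.leaf K2_ok TD_l11862 _)))))))

theorem TD_u138 : CovZ TD_M (toL (selN TD_LN 9295815584401888172603244443840205418362279032748301737063672866460035155478730900552232433399365648)) [0, 7, 6, 1] (31488, 26880) (31104, 26496) (31488, 26112) :=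
    (CovZ.subM 4074087494020109978590314615611308951452102114201753200324352390966736305795663644848553984 (by decide +kernel)
       (CovZ.n2 (31488, 26496) (by decide +kernel)
        (CovZ.n2 (31296, 26304) (by decide +kernel)
         (CovZ.n2 (31296, 26496) (by decide +kernel)
          (CovZ.subM 15541351137805832567355695254588151253139277013162314700637640813629506930003174490112 (by decide +kernel)
           (CovZ.n2 (31392, 26400) (by decide +kernel)
            (CovZ.n2 (31296, 26400) (by decide +kernel)
             (CovZ.n2 (31344, 26448) (by decide +kernel)
              (CovZ.n2 (31344, 26400) (by decide +kernel)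
               (CovZ.leaf K2_ok TD_l13566 _)
               (CovZ.leaf K2_ok TD_l13567 _))
              (CovZ.leaf K2_ok TD_l13568 _))
             (CovZ.leaf K3_ok TD_l13569 _))
            (CovZ.n1 (31392, 26496) (by decide +kernel)
             (CovZ.leaf K2_ok TD_l13570 _)
             (CovZ.n1 (31344, 26448) (by decide +kernel)
              (CovZ.leaf K2_ok TD_l13571 _)
              (CovZ.n1 (31392, 26448) (by decide +kernel)
               (CovZ.leaf K2_ok TD_l13572 _)
               (CovZ.leaf K2_ok TD_l13573 _))))))
          (CovZ.n1 (31200, 26400) (by decide +kernel)
           (CovZ.n2 (31200, 26496) (by decide +kernel)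
            (CovZ.leaf K2_ok TD_l13574 _)
            (CovZ.n1 (31152, 26448) (by decide +kernel)
             (CovZ.leaf K2_ok TD_l13575 _)
             (CovZ.leaf K2_ok TD_l13576 _)))
           (CovZ.subM 15541351137805832567355695254588151253139277013162314700637640813629506930003174490112 (by decide +kernel)
            (CovZ.n1 (31296, 26400) (by decide +kernel)
             (CovZ.n2 (31248, 26352) (by decide +kernel)
              (CovZ.leaf K2_ok TD_l13577 _)
              (CovZ.n1 (31296, 26352) (by decide +kernel)
               (CovZ.leaf K2_ok TD_l13578 _)
               (CovZ.leaf K2_ok TD_l13579 _)))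
             (CovZ.n1 (31248, 26448) (by decide +kernel)
              (CovZ.leaf K2_ok TD_l13580 _)
              (CovZ.n1 (31248, 26400) (by decide +kernel)
               (CovZ.leaf K2_ok TD_l13581 _)
               (CovZ.leaf K2_ok TD_l13582 _)))))))
         (CovZ.subM 15541351137805832567355695254588151253139277013162314700637640813629506930003174490112 (by decide +kernel)
          (CovZ.n1 (31488, 26304) (by decide +kernel)
           (CovZ.n2 (31392, 26208) (by decide +kernel)
            (CovZ.n2 (31392, 26304) (by decide +kernel)
             (CovZ.n2 (31440, 26256) (by decide +kernel)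
              (CovZ.leaf K2_ok TD_l13583 _)
              (CovZ.leaf K3_ok TD_l13584 _))
             (CovZ.n1 (31344, 26256) (by decide +kernel)
              (CovZ.leaf K2_ok TD_l13585 _)
              (CovZ.n1 (31392, 26256) (by decide +kernel)
               (CovZ.leaf K3_ok TD_l13586 _)
               (CovZ.leaf K2_ok TD_l13587 _))))
            (CovZ.n1 (31488, 26208) (by decide +kernel)
             (CovZ.n2 (31440, 26160) (by decide +kernel)
              (CovZ.n2 (31440, 26208) (by decide +kernel)
               (CovZ.leaf K3_ok TD_l13588 _)
               (CovZ.n1 (31416, 26184) (by decide +kernel)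
                (CovZ.leaf K2_ok TD_l13589 _)
                (CovZ.leaf K2_ok TD_l13590 _)))
              (CovZ.n1 (31488, 26160) (by decide +kernel)
               (CovZ.n2 (31464, 26136) (by decide +kernel)
                (CovZ.leaf K3_ok TD_l13591 _)
                (CovZ.leaf K2_ok TD_l13592 _))
               (CovZ.n1 (31464, 26184) (by decide +kernel)
                (CovZ.leaf K2_ok TD_l13593 _)
                (CovZ.leaf K3_ok TD_l13594 _))))
             (CovZ.n1 (31440, 26256) (by decide +kernel)
              (CovZ.n2 (31488, 26256) (by decide +kernel)
               (CovZ.leaf K2_ok TD_l13595 _)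
               (CovZ.n1 (31464, 26280) (by decide +kernel)
                (CovZ.leaf K2_ok TD_l13596 _)
                (CovZ.leaf K3_ok TD_l13597 _)))
              (CovZ.n1 (31440, 26208) (by decide +kernel)
               (CovZ.leaf K2_ok TD_l13598 _)
               (CovZ.leaf K2_ok TD_l13599 _)))))
           (CovZ.n1 (31392, 26400) (by decide +kernel)
            (CovZ.n2 (31488, 26400) (by decide +kernel)
             (CovZ.n2 (31440, 26352) (by decide +kernel)
              (CovZ.leaf K3_ok TD_l13600 _)
              (CovZ.n1 (31488, 26352) (by decide +kernel)
               (CovZ.leaf K3_ok TD_l13601 _)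
               (CovZ.leaf K3_ok TD_l13602 _)))
             (CovZ.n1 (31440, 26448) (by decide +kernel)
              (CovZ.leaf K2_ok TD_l13603 _)
              (CovZ.leaf K3_ok TD_l13604 _)))
            (CovZ.n1 (31392, 26304) (by decide +kernel)
             (CovZ.n2 (31344, 26352) (by decide +kernel)
              (CovZ.n2 (31392, 26352) (by decide +kernel)
               (CovZ.leaf K3_ok TD_l13605 _)
               (CovZ.leaf K2_ok TD_l13606 _))
              (CovZ.n1 (31344, 26304) (by decide +kernel)
               (CovZ.leaf K2_ok TD_l13607 _)
               (CovZ.leaf K2_ok TD_l13608 _)))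
             (CovZ.n1 (31440, 26352) (by decide +kernel)
              (CovZ.n2 (31440, 26304) (by decide +kernel)
               (CovZ.leaf K2_ok TD_l13609 _)
               (CovZ.leaf K3_ok TD_l13610 _))
              (CovZ.leaf K2_ok TD_l13611 _)))))))
        (CovZ.n1 (31296, 26688) (by decide +kernel)
         (CovZ.n2 (31488, 26688) (by decide +kernel)
          (CovZ.subM 15541351137805832567355695254588151253139277013162314700637640813629506930003174490112 (by decide +kernel)
           (CovZ.n2 (31392, 26592) (by decide +kernel)
            (CovZ.n2 (31392, 26688) (by decide +kernel)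
             (CovZ.leaf K2_ok TD_l13612 _)
             (CovZ.n1 (31344, 26640) (by decide +kernel)
              (CovZ.leaf K2_ok TD_l13613 _)
              (CovZ.leaf K2_ok TD_l13614 _)))
            (CovZ.n1 (31488, 26592) (by decide +kernel)
             (CovZ.n2 (31440, 26544) (by decide +kernel)
              (CovZ.leaf K2_ok TD_l13615 _)
              (CovZ.leaf K2_ok TD_l13616 _))
             (CovZ.n1 (31440, 26640) (by decide +kernel)
              (CovZ.leaf K2_ok TD_l13617 _)
              (CovZ.leaf K2_ok TD_l13618 _)))))
          (CovZ.n1 (31392, 26784) (by decide +kernel)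
           (CovZ.n2 (31488, 26784) (by decide +kernel)
            (CovZ.leaf K3_ok TD_l13619 _)
            (CovZ.leaf K2_ok TD_l13620 _))
           (CovZ.n1 (31392, 26688) (by decide +kernel)
            (CovZ.leaf K2_ok TD_l13621 _)
            (CovZ.leaf K2_ok TD_l13622 _))))
         (CovZ.n1 (31296, 26496) (by decide +kernel)
          (CovZ.n2 (31200, 26592) (by decide +kernel)
           (CovZ.subM 15541351137805832567355695254588151253139277013162314700637640813629506930003174490112 (by decide +kernel)
            (CovZ.n2 (31296, 26592) (by decide +kernel)
             (CovZ.n2 (31248, 26544) (by decide +kernel)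
              (CovZ.leaf K3_ok TD_l13623 _)
              (CovZ.leaf K3_ok TD_l13624 _))
             (CovZ.n1 (31248, 26640) (by decide +kernel)
              (CovZ.leaf K2_ok TD_l13625 _)
              (CovZ.leaf K2_ok TD_l13626 _))))
           (CovZ.n1 (31200, 26496) (by decide +kernel)
            (CovZ.n2 (31152, 26544) (by decide +kernel)
             (CovZ.leaf K3_ok TD_l13627 _)
             (CovZ.leaf K2_ok TD_l13628 _))
            (CovZ.n1 (31248, 26544) (by decide +kernel)
             (CovZ.leaf K3_ok TD_l13629 _)
             (CovZ.leaf K3_ok TD_l13630 _))))
          (CovZ.subM 15541351137805832567355695254588151253139277013162314700637640813629506930003174490112 (by decide +kernel)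
           (CovZ.n1 (31392, 26592) (by decide +kernel)
            (CovZ.n2 (31392, 26496) (by decide +kernel)
             (CovZ.n2 (31344, 26544) (by decide +kernel)
              (CovZ.leaf K2_ok TD_l13631 _)
              (CovZ.leaf K2_ok TD_l13632 _))
             (CovZ.n1 (31440, 26544) (by decide +kernel)
              (CovZ.leaf K2_ok TD_l13633 _)
              (CovZ.leaf K2_ok TD_l13634 _)))
            (CovZ.n1 (31296, 26592) (by decide +kernel)
             (CovZ.n2 (31344, 26640) (by decide +kernel)
              (CovZ.leaf K2_ok TD_l13635 _)
              (CovZ.leaf K2_ok TD_l13636 _))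
             (CovZ.leaf K3_ok TD_l13637 _))))))))

theorem TD_u139 : CovZ TD_M (toL (selN TD_LN 9295815584401888172603244443840205418362279032748301737063672866460035155478730900552232433399365648)) [0, 7, 6, 1] (31104, 26496) (30720, 26112) (31488, 26112) :=
    (CovZ.n1 (31104, 26112) (by decide +kernel)
       (CovZ.n2 (30912, 26304) (by decide +kernel)
        (CovZ.subM 15541351137806053423238792552629349165326869880699052071492257973706268990232481759232 (by decide +kernel)
         (CovZ.n2 (31104, 26304) (by decide +kernel)
          (CovZ.n2 (31008, 26208) (by decide +kernel)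
           (CovZ.n2 (31008, 26304) (by decide +kernel)
            (CovZ.leaf K2_ok TD_l13638 _)
            (CovZ.n1 (30960, 26256) (by decide +kernel)
             (CovZ.leaf K2_ok TD_l13639 _)
             (CovZ.n1 (31008, 26256) (by decide +kernel)
              (CovZ.leaf K2_ok TD_l13640 _)
              (CovZ.leaf K2_ok TD_l13641 _))))
           (CovZ.n1 (31104, 26208) (by decide +kernel)
            (CovZ.n2 (31056, 26160) (by decide +kernel)
             (CovZ.leaf K2_ok TD_l13642 _)
             (CovZ.n1 (31104, 26160) (by decide +kernel)
              (CovZ.leaf K3_ok TD_l13643 _)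
              (CovZ.leaf K2_ok TD_l13644 _)))
            (CovZ.n1 (31056, 26256) (by decide +kernel)
             (CovZ.n2 (31104, 26256) (by decide +kernel)
              (CovZ.leaf K2_ok TD_l13645 _)
              (CovZ.leaf K2_ok TD_l13646 _))
             (CovZ.n1 (31056, 26208) (by decide +kernel)
              (CovZ.leaf K2_ok TD_l13647 _)
              (CovZ.leaf K2_ok TD_l13648 _)))))
          (CovZ.n1 (31008, 26400) (by decide +kernel)
           (CovZ.n2 (31104, 26400) (by decide +kernel)
            (CovZ.n2 (31056, 26352) (by decide +kernel)
             (CovZ.leaf K3_ok TD_l13649 _)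
             (CovZ.leaf K3_ok TD_l13650 _))
            (CovZ.n1 (31056, 26448) (by decide +kernel)
             (CovZ.leaf K3_ok TD_l13651 _)
             (CovZ.leaf K3_ok TD_l13652 _)))
           (CovZ.n1 (31008, 26304) (by decide +kernel)
            (CovZ.n2 (30960, 26352) (by decide +kernel)
             (CovZ.leaf K3_ok TD_l13653 _)
             (CovZ.leaf K2_ok TD_l13654 _))
            (CovZ.n1 (31056, 26352) (by decide +kernel)
             (CovZ.leaf K2_ok TD_l13655 _)
             (CovZ.leaf K3_ok TD_l13656 _))))))
        (CovZ.subM 15541351137806053423238792552629349165326869880699052071492257973706268990232749670416 (by decide +kernel)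
         (CovZ.n1 (30912, 26112) (by decide +kernel)
          (CovZ.n2 (30816, 26208) (by decide +kernel)
           (CovZ.n2 (30912, 26208) (by decide +kernel)
            (CovZ.n2 (30864, 26160) (by decide +kernel)
             (CovZ.leaf K2_ok TD_l13657 _)
             (CovZ.n1 (30912, 26160) (by decide +kernel)
              (CovZ.leaf K2_ok TD_l13658 _)
              (CovZ.leaf K3_ok TD_l13659 _)))
            (CovZ.n1 (30864, 26256) (by decide +kernel)
             (CovZ.leaf K2_ok TD_l13660 _)
             (CovZ.leaf K3_ok TD_l13661 _)))
           (CovZ.n1 (30816, 26112) (by decide +kernel)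
            (CovZ.n2 (30768, 26160) (by decide +kernel)
             (CovZ.leaf K2_ok TD_l13662 _)
             (CovZ.leaf K2_ok TD_l13663 _))
            (CovZ.n1 (30864, 26160) (by decide +kernel)
             (CovZ.n2 (30864, 26112) (by decide +kernel)
              (CovZ.leaf K2_ok TD_l13664 _)
              (CovZ.leaf K2_ok TD_l13665 _))
             (CovZ.leaf K2_ok TD_l13666 _))))
          (CovZ.n1 (31008, 26208) (by decide +kernel)
           (CovZ.subM 15541351137806053423238792552629349165326869877976793136124750265999272130778335543296 (by decide +kernel)
            (CovZ.n2 (31008, 26112) (by decide +kernel)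
             (CovZ.n2 (30960, 26160) (by decide +kernel)
              (CovZ.n2 (31008, 26160) (by decide +kernel)
               (CovZ.leaf K3_ok TD_l13667 _)
               (CovZ.leaf K3_ok TD_l13668 _))
              (CovZ.n1 (30960, 26112) (by decide +kernel)
               (CovZ.leaf K2_ok TD_l13669 _)
               (CovZ.leaf K3_ok TD_l13670 _)))
             (CovZ.n1 (31056, 26160) (by decide +kernel)
              (CovZ.n2 (31056, 26112) (by decide +kernel)
               (CovZ.leaf K2_ok TD_l13671 _)
               (CovZ.leaf K2_ok TD_l13672 _))
              (CovZ.leaf K2_ok TD_l13673 _))))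
           (CovZ.n1 (30912, 26208) (by decide +kernel)
            (CovZ.n2 (30960, 26256) (by decide +kernel)
             (CovZ.n2 (30960, 26208) (by decide +kernel)
              (CovZ.leaf K3_ok TD_l13674 _)
              (CovZ.leaf K3_ok TD_l13675 _))
             (CovZ.leaf K3_ok TD_l13676 _))
            (CovZ.leaf K3_ok TD_l13677 _))))))
       (CovZ.subM 15541351137806053423238792552629349165326869880699052071492257973706268990232481759232 (by decide +kernel)
        (CovZ.n1 (31296, 26304) (by decide +kernel)
         (CovZ.n2 (31296, 26112) (by decide +kernel)
          (CovZ.n2 (31200, 26208) (by decide +kernel)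
           (CovZ.n2 (31296, 26208) (by decide +kernel)
            (CovZ.n2 (31248, 26160) (by decide +kernel)
             (CovZ.leaf K2_ok TD_l13678 _)
             (CovZ.n1 (31296, 26160) (by decide +kernel)
              (CovZ.n2 (31272, 26136) (by decide +kernel)
               (CovZ.leaf K2_ok TD_l13679 _)
               (CovZ.leaf K2_ok TD_l13680 _))
              (CovZ.leaf K2_ok TD_l13681 _)))
            (CovZ.n1 (31248, 26256) (by decide +kernel)
             (CovZ.n2 (31296, 26256) (by decide +kernel)
              (CovZ.leaf K3_ok TD_l13682 _)
              (CovZ.leaf K2_ok TD_l13683 _))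
             (CovZ.n1 (31248, 26208) (by decide +kernel)
              (CovZ.leaf K2_ok TD_l13684 _)
              (CovZ.leaf K2_ok TD_l13685 _))))
           (CovZ.n1 (31200, 26112) (by decide +kernel)
            (CovZ.n2 (31152, 26160) (by decide +kernel)
             (CovZ.n2 (31200, 26160) (by decide +kernel)
              (CovZ.leaf K2_ok TD_l13686 _)
              (CovZ.leaf K2_ok TD_l13687 _))
             (CovZ.n1 (31152, 26112) (by decide +kernel)
              (CovZ.leaf K2_ok TD_l13688 _)
              (CovZ.leaf K2_ok TD_l13689 _)))
            (CovZ.n1 (31248, 26160) (by decide +kernel)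
             (CovZ.n2 (31248, 26112) (by decide +kernel)
              (CovZ.leaf K2_ok TD_l13690 _)
              (CovZ.leaf K2_ok TD_l13691 _))
             (CovZ.leaf K2_ok TD_l13692 _))))
          (CovZ.n1 (31392, 26208) (by decide +kernel)
           (CovZ.n2 (31392, 26112) (by decide +kernel)
            (CovZ.n2 (31344, 26160) (by decide +kernel)
             (CovZ.n2 (31392, 26160) (by decide +kernel)
              (CovZ.n2 (31368, 26136) (by decide +kernel)
               (CovZ.leaf K3_ok TD_l13693 _)
               (CovZ.leaf K2_ok TD_l13694 _))
              (CovZ.leaf K2_ok TD_l13695 _))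
             (CovZ.n1 (31344, 26112) (by decide +kernel)
              (CovZ.leaf K2_ok TD_l13696 _)
              (CovZ.n1 (31368, 26136) (by decide +kernel)
               (CovZ.leaf K2_ok TD_l13697 _)
               (CovZ.leaf K2_ok TD_l13698 _))))
            (CovZ.n1 (31440, 26160) (by decide +kernel)
             (CovZ.n2 (31440, 26112) (by decide +kernel)
              (CovZ.n2 (31416, 26136) (by decide +kernel)
               (CovZ.leaf K2_ok TD_l13699 _)
               (CovZ.leaf K2_ok TD_l13700 _))
              (CovZ.n1 (31464, 26136) (by decide +kernel)
               (CovZ.leaf K3_ok TD_l13701 _)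
               (CovZ.leaf K2_ok TD_l13702 _)))
             (CovZ.n1 (31392, 26160) (by decide +kernel)
              (CovZ.n2 (31416, 26184) (by decide +kernel)
               (CovZ.leaf K2_ok TD_l13703 _)
               (CovZ.leaf K2_ok TD_l13704 _))
              (CovZ.leaf K2_ok TD_l13705 _))))
           (CovZ.n1 (31296, 26208) (by decide +kernel)
            (CovZ.n2 (31344, 26256) (by decide +kernel)
             (CovZ.n2 (31344, 26208) (by decide +kernel)
              (CovZ.leaf K2_ok TD_l13706 _)
              (CovZ.leaf K3_ok TD_l13707 _))
             (CovZ.leaf K3_ok TD_l13708 _))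
            (CovZ.n1 (31344, 26160) (by decide +kernel)
             (CovZ.leaf K2_ok TD_l13709 _)
             (CovZ.leaf K2_ok TD_l13710 _)))))
         (CovZ.n1 (31104, 26304) (by decide +kernel)
          (CovZ.n2 (31200, 26400) (by decide +kernel)
           (CovZ.n2 (31200, 26304) (by decide +kernel)
            (CovZ.n2 (31152, 26352) (by decide +kernel)
             (CovZ.leaf K2_ok TD_l13711 _)
             (CovZ.leaf K2_ok TD_l13712 _))
            (CovZ.n1 (31248, 26352) (by decide +kernel)
             (CovZ.n2 (31248, 26304) (by decide +kernel)
              (CovZ.leaf K3_ok TD_l13713 _)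
              (CovZ.leaf K3_ok TD_l13714 _))
             (CovZ.leaf K3_ok TD_l13715 _)))
           (CovZ.n1 (31104, 26400) (by decide +kernel)
            (CovZ.n2 (31152, 26448) (by decide +kernel)
             (CovZ.leaf K2_ok TD_l13716 _)
             (CovZ.leaf K2_ok TD_l13717 _))
            (CovZ.leaf K3_ok TD_l13718 _)))
          (CovZ.n1 (31200, 26208) (by decide +kernel)
           (CovZ.n2 (31104, 26208) (by decide +kernel)
            (CovZ.n2 (31152, 26256) (by decide +kernel)
             (CovZ.n2 (31152, 26208) (by decide +kernel)
              (CovZ.leaf K2_ok TD_l13719 _)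
              (CovZ.leaf K2_ok TD_l13720 _))
             (CovZ.leaf K2_ok TD_l13721 _))
            (CovZ.n1 (31152, 26160) (by decide +kernel)
             (CovZ.leaf K2_ok TD_l13722 _)
             (CovZ.leaf K2_ok TD_l13723 _)))
           (CovZ.n1 (31200, 26304) (by decide +kernel)
            (CovZ.n2 (31248, 26256) (by decide +kernel)
             (CovZ.leaf K2_ok TD_l13724 _)
             (CovZ.leaf K2_ok TD_l13725 _))
            (CovZ.n1 (31152, 26256) (by decide +kernel)
             (CovZ.leaf K2_ok TD_l13726 _)
             (CovZ.n1 (31200, 26256) (by decide +kernel)
              (CovZ.leaf K2_ok TD_l13727 _)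
              (CovZ.leaf K2_ok TD_l13728 _)))))))))

theorem TD_u140 : CovZ TD_M (toL (selN TD_LN 546812685269840475113235535369719956949601309175451991360590440820223158681227207658179725307150352)) [0, 7, 6, 1] (30720, 26112) (31488, 26880) (30720, 27648) :=
    (CovZ.n2 (30720, 26880) (by decide +kernel)
     (CovZ.n2 (31104, 27264) (by decide +kernel)
      (CovZ.n2 (31104, 26880) (by decide +kernel)
       (CovZ.n2 (30912, 27072) (by decide +kernel)
        (CovZ.n2 (31104, 27072) (by decide +kernel)
         (CovZ.n2 (31008, 26976) (by decide +kernel)
          (CovZ.leaf K3_ok TD_l13832 _)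
          (CovZ.n1 (31104, 26976) (by decide +kernel)
           (CovZ.leaf K3_ok TD_l13833 _)
           (CovZ.leaf K2_ok TD_l13834 _)))
         (CovZ.n1 (31008, 27168) (by decide +kernel)
          (CovZ.leaf K2_ok TD_l13835 _)
          (CovZ.leaf K2_ok TD_l13836 _)))
        (CovZ.n1 (30912, 26880) (by decide +kernel)
         (CovZ.n2 (30816, 26976) (by decide +kernel)
          (CovZ.leaf K2_ok TD_l13837 _)
          (CovZ.n1 (30816, 26880) (by decide +kernel)
           (CovZ.leaf K3_ok TD_l13838 _)
           (CovZ.leaf K2_ok TD_l13839 _)))
         (CovZ.n1 (31008, 26976) (by decide +kernel)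
          (CovZ.n2 (31008, 26880) (by decide +kernel)
           (CovZ.leaf K2_ok TD_l13840 _)
           (CovZ.leaf K2_ok TD_l13841 _))
          (CovZ.leaf K2_ok TD_l13842 _))))
       (CovZ.n1 (31296, 27072) (by decide +kernel)
        (CovZ.subM 4074087494020109978590314615611308951452102114201753200324352390966736305795663644848553984 (by decide +kernel)
         (CovZ.n2 (31296, 26880) (by decide +kernel)
          (CovZ.n2 (31200, 26976) (by decide +kernel)
           (CovZ.n2 (31296, 26976) (by decide +kernel)
            (CovZ.leaf K2_ok TD_l13843 _)
            (CovZ.leaf K2_ok TD_l13844 _))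
           (CovZ.n1 (31200, 26880) (by decide +kernel)
            (CovZ.leaf K3_ok TD_l13845 _)
            (CovZ.leaf K2_ok TD_l13846 _)))
          (CovZ.n1 (31392, 26976) (by decide +kernel)
           (CovZ.n2 (31392, 26880) (by decide +kernel)
            (CovZ.leaf K2_ok TD_l13847 _)
            (CovZ.leaf K2_ok TD_l13848 _))
           (CovZ.leaf K3_ok TD_l13849 _))))
        (CovZ.n1 (31104, 27072) (by decide +kernel)
         (CovZ.n2 (31200, 27168) (by decide +kernel)
          (CovZ.leaf K2_ok TD_l13850 _)
          (CovZ.leaf K2_ok TD_l13851 _))
         (CovZ.leaf K3_ok TD_l13852 _))))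
      (CovZ.n1 (30720, 27264) (by decide +kernel)
       (CovZ.n2 (30912, 27456) (by decide +kernel)
        (CovZ.n2 (30912, 27264) (by decide +kernel)
         (CovZ.n2 (30816, 27360) (by decide +kernel)
          (CovZ.leaf K3_ok TD_l13853 _)
          (CovZ.leaf K3_ok TD_l13854 _))
         (CovZ.n1 (31008, 27360) (by decide +kernel)
          (CovZ.leaf K3_ok TD_l13855 _)
          (CovZ.leaf K2_ok TD_l13856 _)))
        (CovZ.n1 (30720, 27456) (by decide +kernel)
         (CovZ.leaf K2_ok TD_l13857 _)
         (CovZ.leaf K2_ok TD_l13858 _)))
       (CovZ.n1 (30912, 27072) (by decide +kernel)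
        (CovZ.n2 (30720, 27072) (by decide +kernel)
         (CovZ.n2 (30816, 27168) (by decide +kernel)
          (CovZ.leaf K3_ok TD_l13859 _)
          (CovZ.leaf K3_ok TD_l13860 _))
         (CovZ.leaf K3_ok TD_l13861 _))
        (CovZ.n1 (30912, 27264) (by decide +kernel)
         (CovZ.leaf K2_ok TD_l13862 _)
         (CovZ.n1 (30816, 27168) (by decide +kernel)
          (CovZ.leaf K2_ok TD_l13863 _)
          (CovZ.leaf K2_ok TD_l13864 _))))))
     (CovZ.n1 (31104, 26496) (by decide +kernel)
      (CovZ.n2 (30720, 26496) (by decide +kernel)
       (CovZ.n2 (30912, 26688) (by decide +kernel)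
        (CovZ.n2 (30912, 26496) (by decide +kernel)
         (CovZ.n2 (30816, 26592) (by decide +kernel)
          (CovZ.n2 (30912, 26592) (by decide +kernel)
           (CovZ.leaf K2_ok TD_l13865 _)
           (CovZ.leaf K2_ok TD_l13866 _))
          (CovZ.n1 (30816, 26496) (by decide +kernel)
           (CovZ.leaf K2_ok TD_l13867 _)
           (CovZ.leaf K3_ok TD_l13868 _)))
         (CovZ.n1 (31008, 26592) (by decide +kernel)
          (CovZ.n2 (31008, 26496) (by decide +kernel)
           (CovZ.leaf K3_ok TD_l13869 _)
           (CovZ.leaf K2_ok TD_l13870 _))
          (CovZ.leaf K2_ok TD_l13871 _)))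
        (CovZ.n1 (30720, 26688) (by decide +kernel)
         (CovZ.n2 (30816, 26784) (by decide +kernel)
          (CovZ.n2 (30816, 26688) (by decide +kernel)
           (CovZ.leaf K3_ok TD_l13872 _)
           (CovZ.leaf K3_ok TD_l13873 _))
          (CovZ.leaf K3_ok TD_l13874 _))
         (CovZ.leaf K2_ok TD_l13875 _)))
       (CovZ.n1 (30912, 26304) (by decide +kernel)
        (CovZ.n2 (30720, 26304) (by decide +kernel)
         (CovZ.n2 (30816, 26400) (by decide +kernel)
          (CovZ.subM 15541351137806053423238792552629349165326869880699052071492257973706268990232749670416 (by decide +kernel)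
           (CovZ.n2 (30816, 26304) (by decide +kernel)
            (CovZ.n2 (30768, 26352) (by decide +kernel)
             (CovZ.leaf K3_ok TD_l13876 _)
             (CovZ.leaf K3_ok TD_l13877 _))
            (CovZ.n1 (30864, 26352) (by decide +kernel)
             (CovZ.leaf K3_ok TD_l13878 _)
             (CovZ.leaf K2_ok TD_l13879 _))))
          (CovZ.leaf K2_ok TD_l13880 _))
         (CovZ.subM 15541351137806053423238792552629349165326869880699052071492257973706268990232749670416 (by decide +kernel)
          (CovZ.n1 (30816, 26208) (by decide +kernel)
           (CovZ.n2 (30720, 26208) (by decide +kernel)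
            (CovZ.n2 (30768, 26256) (by decide +kernel)
             (CovZ.leaf K3_ok TD_l13881 _)
             (CovZ.leaf K2_ok TD_l13882 _))
            (CovZ.leaf K2_ok TD_l13883 _))
           (CovZ.n1 (30816, 26304) (by decide +kernel)
            (CovZ.leaf K3_ok TD_l13884 _)
            (CovZ.n1 (30768, 26256) (by decide +kernel)
             (CovZ.leaf K3_ok TD_l13885 _)
             (CovZ.leaf K3_ok TD_l13886 _))))))
        (CovZ.n1 (30912, 26496) (by decide +kernel)
         (CovZ.subM 15541351137806053423238792552629349165326869880699052071492257973706268990232481759232 (by decide +kernel)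
          (CovZ.n2 (31008, 26400) (by decide +kernel)
           (CovZ.n2 (30912, 26400) (by decide +kernel)
            (CovZ.n2 (30960, 26448) (by decide +kernel)
             (CovZ.leaf K3_ok TD_l13887 _)
             (CovZ.leaf K3_ok TD_l13888 _))
            (CovZ.leaf K3_ok TD_l13889 _))
           (CovZ.n1 (31008, 26496) (by decide +kernel)
            (CovZ.leaf K3_ok TD_l13890 _)
            (CovZ.n1 (30960, 26448) (by decide +kernel)
             (CovZ.leaf K3_ok TD_l13891 _)
             (CovZ.leaf K3_ok TD_l13892 _)))))
         (CovZ.n1 (30816, 26400) (by decide +kernel)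
          (CovZ.n2 (30816, 26496) (by decide +kernel)
           (CovZ.leaf K3_ok TD_l13893 _)
           (CovZ.leaf K3_ok TD_l13894 _))
          (CovZ.subM 15541351137806053423238792552629349165326869880699052071492257973706268990232481759232 (by decide +kernel)
           (CovZ.n1 (30912, 26400) (by decide +kernel)
            (CovZ.n2 (30864, 26352) (by decide +kernel)
             (CovZ.leaf K3_ok TD_l13895 _)
             (CovZ.leaf K3_ok TD_l13896 _))
            (CovZ.n1 (30864, 26448) (by decide +kernel)
             (CovZ.leaf K3_ok TD_l13897 _)
             (CovZ.leaf K3_ok TD_l13898 _))))))))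
      (CovZ.n1 (31104, 26880) (by decide +kernel)
       (CovZ.subM 4074087494020109978590314615611308951452102114201753200324352390966736305795663644848553984 (by decide +kernel)
        (CovZ.n2 (31296, 26688) (by decide +kernel)
         (CovZ.n2 (31104, 26688) (by decide +kernel)
          (CovZ.n2 (31200, 26784) (by decide +kernel)
           (CovZ.n2 (31200, 26688) (by decide +kernel)
            (CovZ.leaf K2_ok TD_l13899 _)
            (CovZ.leaf K2_ok TD_l13900 _))
           (CovZ.leaf K2_ok TD_l13901 _))
          (CovZ.n1 (31200, 26592) (by decide +kernel)
           (CovZ.n2 (31104, 26592) (by decide +kernel)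
            (CovZ.leaf K2_ok TD_l13902 _)
            (CovZ.leaf K2_ok TD_l13903 _))
           (CovZ.n1 (31200, 26688) (by decide +kernel)
            (CovZ.leaf K2_ok TD_l13904 _)
            (CovZ.leaf K3_ok TD_l13905 _))))
         (CovZ.n1 (31296, 26880) (by decide +kernel)
          (CovZ.n2 (31392, 26784) (by decide +kernel)
           (CovZ.leaf K2_ok TD_l13906 _)
           (CovZ.leaf K2_ok TD_l13907 _))
          (CovZ.n1 (31200, 26784) (by decide +kernel)
           (CovZ.leaf K2_ok TD_l13908 _)
           (CovZ.n1 (31296, 26784) (by decide +kernel)
            (CovZ.leaf K2_ok TD_l13909 _)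
            (CovZ.leaf K2_ok TD_l13910 _))))))
       (CovZ.n1 (30912, 26688) (by decide +kernel)
        (CovZ.n2 (30912, 26880) (by decide +kernel)
         (CovZ.leaf K2_ok TD_l13911 _)
         (CovZ.n1 (30816, 26784) (by decide +kernel)
          (CovZ.leaf K3_ok TD_l13912 _)
          (CovZ.n1 (30912, 26784) (by decide +kernel)
           (CovZ.leaf K3_ok TD_l13913 _)
           (CovZ.leaf K3_ok TD_l13914 _))))
        (CovZ.subM 4074087494020109978590314615611308951452102114201753200324352390966736305795663644848553984 (by decide +kernel)
         (CovZ.n1 (31104, 26688) (by decide +kernel)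
          (CovZ.n2 (31008, 26592) (by decide +kernel)
           (CovZ.leaf K3_ok TD_l13915 _)
           (CovZ.n1 (31104, 26592) (by decide +kernel)
            (CovZ.n2 (31056, 26544) (by decide +kernel)
             (CovZ.leaf K2_ok TD_l13916 _)
             (CovZ.leaf K2_ok TD_l13917 _))
            (CovZ.leaf K2_ok TD_l13918 _)))
          (CovZ.n1 (31008, 26784) (by decide +kernel)
           (CovZ.n2 (31104, 26784) (by decide +kernel)
            (CovZ.leaf K2_ok TD_l13919 _)
            (CovZ.leaf K2_ok TD_l13920 _))
           (CovZ.n1 (31008, 26688) (by decide +kernel)
            (CovZ.leaf K2_ok TD_l13921 _)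
            (CovZ.leaf K2_ok TD_l13922 _)))))))))

theorem TD_u141 : CovZ TD_M (toL (selN TD_LN 546812685269840475113235535369719956949601309175451991360590440820223158681227207658179725307150352)) [0, 7, 6, 1] (31488, 26880) (32256, 27648) (30720, 27648) :=
    (CovZ.n1 (31488, 27648) (by decide +kernel)
     (CovZ.subM 4074087494020109978369458732514010910254189926608885663586981536349576229033612211634307072 (by decide +kernel)
      (CovZ.n2 (31872, 27264) (by decide +kernel)
       (CovZ.n2 (31488, 27264) (by decide +kernel)
        (CovZ.n2 (31680, 27456) (by decide +kernel)
         (CovZ.n2 (31680, 27264) (by decide +kernel)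
          (CovZ.n2 (31584, 27360) (by decide +kernel)
           (CovZ.badM (by decide +kernel))
           (CovZ.leaf K2_ok TD_l13924 _))
          (CovZ.badM (by decide +kernel)))
         (CovZ.n1 (31488, 27456) (by decide +kernel)
          (CovZ.n2 (31584, 27552) (by decide +kernel)
           (CovZ.leaf K2_ok TD_l13928 _)
           (CovZ.leaf K2_ok TD_l13929 _))
          (CovZ.leaf K2_ok TD_l13930 _)))
        (CovZ.n1 (31680, 27072) (by decide +kernel)
         (CovZ.n2 (31488, 27072) (by decide +kernel)
          (CovZ.n2 (31584, 27168) (by decide +kernel)
           (CovZ.n2 (31584, 27072) (by decide +kernel)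
            (CovZ.leaf K3_ok TD_l13931 _)
            (CovZ.badM (by decide +kernel)))
           (CovZ.leaf K2_ok TD_l13933 _))
          (CovZ.leaf K3_ok TD_l13934 _))
         (CovZ.n1 (31680, 27264) (by decide +kernel)
          (CovZ.badM (by decide +kernel))
          (CovZ.n1 (31584, 27168) (by decide +kernel)
           (CovZ.leaf K3_ok TD_l13936 _)
           (CovZ.badM (by decide +kernel))))))
       (CovZ.n1 (31872, 27648) (by decide +kernel)
        (CovZ.badM (by decide +kernel))
        (CovZ.n1 (31680, 27456) (by decide +kernel)
         (CovZ.n2 (31680, 27648) (by decide +kernel)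
          (CovZ.badM (by decide +kernel))
          (CovZ.n1 (31584, 27552) (by decide +kernel)
           (CovZ.leaf K2_ok TD_l13946 _)
           (CovZ.badM (by decide +kernel))))
         (CovZ.badM (by decide +kernel))))))
     (CovZ.n1 (31104, 27264) (by decide +kernel)
      (CovZ.n2 (31104, 27648) (by decide +kernel)
       (CovZ.n2 (31296, 27456) (by decide +kernel)
        (CovZ.n2 (31104, 27456) (by decide +kernel)
         (CovZ.n2 (31200, 27552) (by decide +kernel)
          (CovZ.leaf K2_ok TD_l13953 _)
          (CovZ.leaf K2_ok TD_l13954 _))
         (CovZ.leaf K2_ok TD_l13955 _))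
        (CovZ.n1 (31296, 27648) (by decide +kernel)
         (CovZ.leaf K2_ok TD_l13956 _)
         (CovZ.n1 (31200, 27552) (by decide +kernel)
          (CovZ.leaf K3_ok TD_l13957 _)
          (CovZ.leaf K2_ok TD_l13958 _))))
       (CovZ.n1 (30912, 27456) (by decide +kernel)
        (CovZ.n2 (30912, 27648) (by decide +kernel)
         (CovZ.leaf K2_ok TD_l13959 _)
         (CovZ.leaf K2_ok TD_l13960 _))
        (CovZ.n1 (31104, 27456) (by decide +kernel)
         (CovZ.n2 (31008, 27360) (by decide +kernel)
          (CovZ.leaf K3_ok TD_l13961 _)
          (CovZ.leaf K2_ok TD_l13962 _))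
         (CovZ.n1 (31008, 27552) (by decide +kernel)
          (CovZ.leaf K3_ok TD_l13963 _)
          (CovZ.leaf K3_ok TD_l13964 _)))))
      (CovZ.n1 (31488, 27264) (by decide +kernel)
       (CovZ.n2 (31296, 27072) (by decide +kernel)
        (CovZ.n2 (31296, 27264) (by decide +kernel)
         (CovZ.leaf K3_ok TD_l13965 _)
         (CovZ.n1 (31200, 27168) (by decide +kernel)
          (CovZ.leaf K2_ok TD_l13966 _)
          (CovZ.n1 (31296, 27168) (by decide +kernel)
           (CovZ.leaf K3_ok TD_l13967 _)
           (CovZ.leaf K2_ok TD_l13968 _))))
        (CovZ.subM 4074087494020109978369458732514010910254189926608885663586981536349576229033612211634307072 (by decide +kernel)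
         (CovZ.n1 (31488, 27072) (by decide +kernel)
          (CovZ.n2 (31392, 26976) (by decide +kernel)
           (CovZ.leaf K2_ok TD_l13969 _)
           (CovZ.n1 (31488, 26976) (by decide +kernel)
            (CovZ.leaf K3_ok TD_l13970 _)
            (CovZ.leaf K3_ok TD_l13971 _)))
          (CovZ.n1 (31392, 27168) (by decide +kernel)
           (CovZ.n2 (31488, 27168) (by decide +kernel)
            (CovZ.leaf K2_ok TD_l13972 _)
            (CovZ.leaf K2_ok TD_l13973 _))
           (CovZ.n1 (31392, 27072) (by decide +kernel)
            (CovZ.leaf K2_ok TD_l13974 _)
            (CovZ.leaf K2_ok TD_l13975 _))))))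
       (CovZ.n1 (31296, 27456) (by decide +kernel)
        (CovZ.subM 4074087494020109978369458732514010910254189926608885663586981536349576229033612211634307072 (by decide +kernel)
         (CovZ.n2 (31488, 27456) (by decide +kernel)
          (CovZ.n2 (31392, 27360) (by decide +kernel)
           (CovZ.leaf K3_ok TD_l13976 _)
           (CovZ.leaf K2_ok TD_l13977 _))
          (CovZ.n1 (31392, 27552) (by decide +kernel)
           (CovZ.leaf K2_ok TD_l13978 _)
           (CovZ.leaf K2_ok TD_l13979 _))))
        (CovZ.n1 (31296, 27264) (by decide +kernel)
         (CovZ.n2 (31200, 27360) (by decide +kernel)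
          (CovZ.leaf K3_ok TD_l13980 _)
          (CovZ.leaf K2_ok TD_l13981 _))
         (CovZ.n1 (31392, 27360) (by decide +kernel)
          (CovZ.n2 (31392, 27264) (by decide +kernel)
           (CovZ.leaf K3_ok TD_l13982 _)
           (CovZ.leaf K3_ok TD_l13983 _))
          (CovZ.leaf K3_ok TD_l13984 _)))))))

theorem TD_u142 : CovZ TD_M (toL (selN TD_LN 71671831749950475343051800808764327776010127841364764353689298510880477352623032421712098971751530102784)) [0, 7, 6, 1] (25344, 28416) (25536, 28224) (25728, 28416) :=
    (CovZ.n2 (25536, 28416) (by decide +kernel)
          (CovZ.n2 (25632, 28320) (by decide +kernel)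
           (CovZ.subM 260740605213647830570577181981333142967527817719540694984211065606396011553531047006611439616 (by decide +kernel)
            (CovZ.n2 (25536, 28320) (by decide +kernel)
             (CovZ.n2 (25584, 28368) (by decide +kernel)
              (CovZ.n2 (25584, 28320) (by decide +kernel)
               (CovZ.n2 (25560, 28344) (by decide +kernel)
                (CovZ.n2 (25584, 28344) (by decide +kernel)
                 (CovZ.leaf K3_ok TD_l18131 _)
                 (CovZ.leaf K2_ok TD_l18132 _))
                (CovZ.badM (by decide +kernel)))
               (CovZ.n1 (25608, 28344) (by decide +kernel)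
                (CovZ.n2 (25608, 28320) (by decide +kernel)
                 (CovZ.leaf K2_ok TD_l15490 _)
                 (CovZ.leaf K3_ok TD_l15491 _))
                (CovZ.leaf K3_ok TD_l15492 _)))
              (CovZ.n1 (25536, 28368) (by decide +kernel)
               (CovZ.n2 (25560, 28392) (by decide +kernel)
                (CovZ.n2 (25560, 28368) (by decide +kernel)
                 (CovZ.leaf K3_ok TD_l18133 _)
                 (CovZ.leaf K3_ok TD_l18134 _))
                (CovZ.leaf K3_ok TD_l18135 _))
               (CovZ.leaf K3_ok TD_l18136 _)))
             (CovZ.n1 (25584, 28272) (by decide +kernel)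
              (CovZ.badM (by decide +kernel))
              (CovZ.n1 (25584, 28320) (by decide +kernel)
               (CovZ.leaf K3_ok TD_l15493 _)
               (CovZ.badM (by decide +kernel))))))
           (CovZ.n1 (25632, 28416) (by decide +kernel)
            (CovZ.n2 (25680, 28368) (by decide +kernel)
             (CovZ.n2 (25632, 28368) (by decide +kernel)
              (CovZ.n2 (25656, 28392) (by decide +kernel)
               (CovZ.leaf K2_ok TD_l15494 _)
               (CovZ.leaf K3_ok TD_l15495 _))
              (CovZ.leaf K3_ok TD_l15496 _))
             (CovZ.n1 (25680, 28416) (by decide +kernel)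
              (CovZ.leaf K2_ok TD_l5500 _)
              (CovZ.n1 (25656, 28392) (by decide +kernel)
               (CovZ.leaf K2_ok TD_l5501 _)
               (CovZ.leaf K2_ok TD_l5502 _))))
            (CovZ.subM 260740605213647830570577181981333142967527817719540694984211065606396011553531047006611439616 (by decide +kernel)
             (CovZ.n1 (25584, 28368) (by decide +kernel)
              (CovZ.n2 (25584, 28416) (by decide +kernel)
               (CovZ.leaf K3_ok TD_l15497 _)
               (CovZ.n1 (25560, 28392) (by decide +kernel)
                (CovZ.leaf K3_ok TD_l15498 _)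
                (CovZ.n1 (25584, 28392) (by decide +kernel)
                 (CovZ.leaf K2_ok TD_l15499 _)
                 (CovZ.leaf K2_ok TD_l15500 _))))
              (CovZ.n1 (25632, 28368) (by decide +kernel)
               (CovZ.n2 (25608, 28344) (by decide +kernel)
                (CovZ.leaf K3_ok TD_l15501 _)
                (CovZ.leaf K3_ok TD_l15502 _))
               (CovZ.n1 (25608, 28392) (by decide +kernel)
                (CovZ.n2 (25632, 28392) (by decide +kernel)
                 (CovZ.leaf K3_ok TD_l15503 _)
                 (CovZ.leaf K3_ok TD_l15504 _))
                (CovZ.n1 (25608, 28368) (by decide +kernel)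
                 (CovZ.leaf K3_ok TD_l15505 _)
                 (CovZ.leaf K3_ok TD_l15506 _))))))))
          (CovZ.subM 242833611528216133864932738352939863330300854881517440156476551217363035650651062272 (by decide +kernel)
           (CovZ.n1 (25440, 28320) (by decide +kernel)
            (CovZ.n2 (25440, 28416) (by decide +kernel)
             (CovZ.n2 (25488, 28368) (by decide +kernel)
              (CovZ.badM (by decide +kernel))
              (CovZ.n1 (25488, 28416) (by decide +kernel)
               (CovZ.n2 (25512, 28392) (by decide +kernel)
                (CovZ.badM (by decide +kernel))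
                (CovZ.n1 (25512, 28416) (by decide +kernel)
                 (CovZ.leaf K2_ok TD_l18137 _)
                 (CovZ.badM (by decide +kernel))))
               (CovZ.badM (by decide +kernel))))
             (CovZ.badM (by decide +kernel)))
            (CovZ.n1 (25536, 28320) (by decide +kernel)
             (CovZ.badM (by decide +kernel))
             (CovZ.n1 (25488, 28368) (by decide +kernel)
              (CovZ.n2 (25536, 28368) (by decide +kernel)
               (CovZ.badM (by decide +kernel))
               (CovZ.n1 (25512, 28392) (by decide +kernel)
                (CovZ.n2 (25536, 28392) (by decide +kernel)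
                 (CovZ.badM (by decide +kernel))
                 (CovZ.leaf K3_ok TD_l18138 _))
                (CovZ.badM (by decide +kernel))))
              (CovZ.badM (by decide +kernel)))))))

theorem TD_u143 : CovZ TD_M (toL (selN TD_LN 71671831749950475343051800808764327776010127841364764353689298510880477352623032421712098971751530102784)) [0, 7, 6, 1] (25536, 28224) (25728, 28032) (25728, 28416) :=
    (CovZ.n1 (25728, 28224) (by decide +kernel)
          (CovZ.subM 260740605213647830574110876110889911626694412721027403138725351002613715708769284735818006528 (by decide +kernel)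
           (CovZ.n2 (25632, 28128) (by decide +kernel)
            (CovZ.n2 (25632, 28224) (by decide +kernel)
             (CovZ.n2 (25680, 28176) (by decide +kernel)
              (CovZ.subM 260740604970814219045894742245957173273754549390725677113080945311112044285950310794060103680 (by decide +kernel)
               (CovZ.n2 (25632, 28176) (by decide +kernel)
                (CovZ.n2 (25656, 28200) (by decide +kernel)
                 (CovZ.n2 (25656, 28176) (by decide +kernel)
                  (CovZ.n2 (25644, 28188) (by decide +kernel)
                   (CovZ.leaf K3_ok TD_l18139 _)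
                   (CovZ.leaf K3_ok TD_l18140 _))
                  (CovZ.leaf K3_ok TD_l18141 _))
                 (CovZ.n1 (25632, 28200) (by decide +kernel)
                  (CovZ.n2 (25644, 28212) (by decide +kernel)
                   (CovZ.leaf K3_ok TD_l18142 _)
                   (CovZ.leaf K2_ok TD_l18143 _))
                  (CovZ.leaf K2_ok TD_l18144 _)))
                (CovZ.n1 (25656, 28152) (by decide +kernel)
                 (CovZ.badM (by decide +kernel))
                 (CovZ.n1 (25656, 28176) (by decide +kernel)
                  (CovZ.leaf K2_ok TD_l18145 _)
                  (CovZ.n1 (25644, 28164) (by decide +kernel)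
                   (CovZ.leaf K3_ok TD_l18146 _)
                   (CovZ.leaf K2_ok TD_l18147 _))))))
              (CovZ.n1 (25680, 28224) (by decide +kernel)
               (CovZ.leaf K3_ok TD_l15507 _)
               (CovZ.subM 260740605213647830574110876110889911626694412721026531994598385467588595503313346444711165952 (by decide +kernel)
                (CovZ.n1 (25656, 28200) (by decide +kernel)
                 (CovZ.n2 (25656, 28224) (by decide +kernel)
                  (CovZ.leaf K3_ok TD_l18148 _)
                  (CovZ.leaf K2_ok TD_l18149 _))
                 (CovZ.n1 (25680, 28200) (by decide +kernel)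
                  (CovZ.n2 (25668, 28188) (by decide +kernel)
                   (CovZ.leaf K3_ok TD_l18150 _)
                   (CovZ.leaf K3_ok TD_l18151 _))
                  (CovZ.leaf K3_ok TD_l18152 _))))))
             (CovZ.badM (by decide +kernel)))
            (CovZ.n1 (25728, 28128) (by decide +kernel)
             (CovZ.subM 260740604970814219045894742245957173273754549390726374011368399393085217277146331055357165568 (by decide +kernel)
              (CovZ.n2 (25680, 28080) (by decide +kernel)
               (CovZ.n2 (25680, 28128) (by decide +kernel)
                (CovZ.n2 (25704, 28104) (by decide +kernel)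
                 (CovZ.n2 (25680, 28104) (by decide +kernel)
                  (CovZ.n2 (25692, 28116) (by decide +kernel)
                   (CovZ.leaf K2_ok TD_l18153 _)
                   (CovZ.leaf K3_ok TD_l18154 _))
                  (CovZ.leaf K2_ok TD_l18155 _))
                 (CovZ.leaf K3_ok TD_l15508 _))
                (CovZ.n1 (25656, 28104) (by decide +kernel)
                 (CovZ.n2 (25656, 28128) (by decide +kernel)
                  (CovZ.leaf K2_ok TD_l18156 _)
                  (CovZ.badM (by decide +kernel)))
                 (CovZ.n1 (25680, 28104) (by decide +kernel)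
                  (CovZ.n2 (25668, 28092) (by decide +kernel)
                   (CovZ.leaf K2_ok TD_l18157 _)
                   (CovZ.leaf K3_ok TD_l18158 _))
                  (CovZ.n1 (25668, 28116) (by decide +kernel)
                   (CovZ.leaf K3_ok TD_l18159 _)
                   (CovZ.leaf K2_ok TD_l18160 _)))))
               (CovZ.n1 (25728, 28080) (by decide +kernel)
                (CovZ.n2 (25704, 28056) (by decide +kernel)
                 (CovZ.n2 (25704, 28080) (by decide +kernel)
                  (CovZ.leaf K3_ok TD_l15509 _)
                  (CovZ.n1 (25692, 28068) (by decide +kernel)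
                   (CovZ.leaf K3_ok TD_l18161 _)
                   (CovZ.leaf K3_ok TD_l18162 _)))
                 (CovZ.n1 (25728, 28056) (by decide +kernel)
                  (CovZ.n2 (25716, 28044) (by decide +kernel)
                   (CovZ.leaf K3_ok TD_l15510 _)
                   (CovZ.leaf K3_ok TD_l15511 _))
                  (CovZ.n1 (25716, 28068) (by decide +kernel)
                   (CovZ.leaf K3_ok TD_l15512 _)
                   (CovZ.leaf K3_ok TD_l15513 _))))
                (CovZ.n1 (25704, 28104) (by decide +kernel)
                 (CovZ.n2 (25728, 28104) (by decide +kernel)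
                  (CovZ.leaf K2_ok TD_l15514 _)
                  (CovZ.leaf K2_ok TD_l15515 _))
                 (CovZ.n1 (25704, 28080) (by decide +kernel)
                  (CovZ.n2 (25692, 28092) (by decide +kernel)
                   (CovZ.leaf K3_ok TD_l18163 _)
                   (CovZ.leaf K3_ok TD_l18164 _))
                  (CovZ.leaf K3_ok TD_l15516 _))))))
             (CovZ.n1 (25680, 28176) (by decide +kernel)
              (CovZ.n2 (25728, 28176) (by decide +kernel)
               (CovZ.n2 (25704, 28152) (by decide +kernel)
                (CovZ.n2 (25704, 28176) (by decide +kernel)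
                 (CovZ.leaf K3_ok TD_l15517 _)
                 (CovZ.leaf K2_ok TD_l18165 _))
                (CovZ.n1 (25728, 28152) (by decide +kernel)
                 (CovZ.leaf K2_ok TD_l15518 _)
                 (CovZ.leaf K2_ok TD_l15519 _)))
               (CovZ.n1 (25704, 28200) (by decide +kernel)
                (CovZ.n2 (25728, 28200) (by decide +kernel)
                 (CovZ.leaf K2_ok TD_l15520 _)
                 (CovZ.leaf K3_ok TD_l15521 _))
                (CovZ.n1 (25704, 28176) (by decide +kernel)
                 (CovZ.leaf K2_ok TD_l18166 _)
                 (CovZ.leaf K2_ok TD_l15522 _))))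
              (CovZ.subM 260740604970814219045894742245957173273754549390726374011368399393085217277146331055357165568 (by decide +kernel)
               (CovZ.n1 (25680, 28128) (by decide +kernel)
                (CovZ.n2 (25656, 28152) (by decide +kernel)
                 (CovZ.n2 (25680, 28152) (by decide +kernel)
                  (CovZ.n2 (25668, 28140) (by decide +kernel)
                   (CovZ.leaf K2_ok TD_l18167 _)
                   (CovZ.leaf K3_ok TD_l18168 _))
                  (CovZ.leaf K2_ok TD_l18169 _))
                 (CovZ.n1 (25656, 28128) (by decide +kernel)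
                  (CovZ.badM (by decide +kernel))
                  (CovZ.n1 (25668, 28140) (by decide +kernel)
                   (CovZ.leaf K3_ok TD_l18170 _)
                   (CovZ.leaf K2_ok TD_l18171 _))))
                (CovZ.n1 (25704, 28152) (by decide +kernel)
                 (CovZ.n2 (25704, 28128) (by decide +kernel)
                  (CovZ.leaf K3_ok TD_l18172 _)
                  (CovZ.leaf K2_ok TD_l15523 _))
                 (CovZ.n1 (25680, 28152) (by decide +kernel)
                  (CovZ.n2 (25692, 28164) (by decide +kernel)
                   (CovZ.leaf K3_ok TD_l18173 _)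
                   (CovZ.leaf K3_ok TD_l18174 _))
                  (CovZ.leaf K3_ok TD_l18175 _)))))))))
          (CovZ.n1 (25632, 28320) (by decide +kernel)
           (CovZ.n2 (25728, 28320) (by decide +kernel)
            (CovZ.n2 (25680, 28272) (by decide +kernel)
             (CovZ.n2 (25680, 28320) (by decide +kernel)
              (CovZ.leaf K2_ok TD_l5503 _)
              (CovZ.n1 (25656, 28296) (by decide +kernel)
               (CovZ.leaf K2_ok TD_l15524 _)
               (CovZ.leaf K2_ok TD_l15525 _)))
             (CovZ.n1 (25728, 28272) (by decide +kernel)
              (CovZ.n2 (25704, 28248) (by decide +kernel)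
               (CovZ.leaf K2_ok TD_l5504 _)
               (CovZ.leaf K3_ok TD_l5505 _))
              (CovZ.n1 (25704, 28296) (by decide +kernel)
               (CovZ.leaf K2_ok TD_l5506 _)
               (CovZ.leaf K3_ok TD_l5507 _))))
            (CovZ.n1 (25680, 28368) (by decide +kernel)
             (CovZ.n2 (25728, 28368) (by decide +kernel)
              (CovZ.n2 (25704, 28344) (by decide +kernel)
               (CovZ.leaf K3_ok TD_l5508 _)
               (CovZ.leaf K3_ok TD_l5509 _))
              (CovZ.n1 (25704, 28392) (by decide +kernel)
               (CovZ.leaf K2_ok TD_l5510 _)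
               (CovZ.leaf K2_ok TD_l5511 _)))
             (CovZ.n1 (25680, 28320) (by decide +kernel)
              (CovZ.n2 (25656, 28344) (by decide +kernel)
               (CovZ.leaf K3_ok TD_l15526 _)
               (CovZ.n1 (25656, 28320) (by decide +kernel)
                (CovZ.leaf K3_ok TD_l15527 _)
                (CovZ.leaf K3_ok TD_l15528 _)))
              (CovZ.n1 (25704, 28344) (by decide +kernel)
               (CovZ.leaf K3_ok TD_l5512 _)
               (CovZ.leaf K2_ok TD_l15529 _)))))
           (CovZ.subM 260740605213647830574110876110889911626694412721027403138725351002613715708769284735818006528 (by decide +kernel)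
            (CovZ.n1 (25632, 28224) (by decide +kernel)
             (CovZ.subM 260740605213647830570577181981333142967527817719540694984211065606396011553531047006611439616 (by decide +kernel)
              (CovZ.n2 (25584, 28272) (by decide +kernel)
               (CovZ.n2 (25632, 28272) (by decide +kernel)
                (CovZ.n2 (25608, 28248) (by decide +kernel)
                 (CovZ.n2 (25608, 28272) (by decide +kernel)
                  (CovZ.leaf K2_ok TD_l18176 _)
                  (CovZ.badM (by decide +kernel)))
                 (CovZ.n1 (25632, 28248) (by decide +kernel)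
                  (CovZ.leaf K2_ok TD_l18177 _)
                  (CovZ.leaf K2_ok TD_l18178 _)))
                (CovZ.n1 (25608, 28296) (by decide +kernel)
                 (CovZ.n2 (25632, 28296) (by decide +kernel)
                  (CovZ.leaf K2_ok TD_l18179 _)
                  (CovZ.leaf K2_ok TD_l15530 _))
                 (CovZ.n1 (25608, 28272) (by decide +kernel)
                  (CovZ.leaf K3_ok TD_l18180 _)
                  (CovZ.leaf K3_ok TD_l18181 _))))
               (CovZ.badM (by decide +kernel))))
             (CovZ.n1 (25680, 28272) (by decide +kernel)
              (CovZ.n2 (25680, 28224) (by decide +kernel)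
               (CovZ.n2 (25656, 28248) (by decide +kernel)
                (CovZ.n2 (25680, 28248) (by decide +kernel)
                 (CovZ.leaf K3_ok TD_l18182 _)
                 (CovZ.leaf K3_ok TD_l15531 _))
                (CovZ.n1 (25656, 28224) (by decide +kernel)
                 (CovZ.leaf K2_ok TD_l18183 _)
                 (CovZ.leaf K3_ok TD_l18184 _)))
               (CovZ.n1 (25704, 28248) (by decide +kernel)
                (CovZ.n2 (25704, 28224) (by decide +kernel)
                 (CovZ.leaf K3_ok TD_l15532 _)
                 (CovZ.leaf K2_ok TD_l15533 _))
                (CovZ.leaf K3_ok TD_l15534 _)))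
              (CovZ.n1 (25632, 28272) (by decide +kernel)
               (CovZ.n2 (25656, 28296) (by decide +kernel)
                (CovZ.n2 (25656, 28272) (by decide +kernel)
                 (CovZ.leaf K3_ok TD_l15535 _)
                 (CovZ.leaf K3_ok TD_l15536 _))
                (CovZ.leaf K3_ok TD_l15537 _))
               (CovZ.leaf K3_ok TD_l15538 _)))))))

theorem TD_u144 : CovZ TD_M (toL (selN TD_LN 260740605213647830574110876117471929855979236889647279868954753022544668616036609510921469952)) [0, 7, 6, 1] (26112, 28032) (25920, 28032) (25920, 27840) :=
    (CovZ.n2 (26016, 27936) (by decide +kernel)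
           (CovZ.subM 260740605213647830574110876117471929855979236889647105644382889502051365923504599123888177152 (by decide +kernel)
            (CovZ.n2 (25920, 27936) (by decide +kernel)
             (CovZ.n2 (25968, 27984) (by decide +kernel)
              (CovZ.n2 (25968, 27936) (by decide +kernel)
               (CovZ.n2 (25944, 27960) (by decide +kernel)
                (CovZ.n2 (25968, 27960) (by decide +kernel)
                 (CovZ.n2 (25956, 27948) (by decide +kernel)
                  (CovZ.leaf K3_ok TD_l15539 _)
                  (CovZ.leaf K3_ok TD_l15540 _))
                 (CovZ.leaf K3_ok TD_l15541 _))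
                (CovZ.n1 (25944, 27936) (by decide +kernel)
                 (CovZ.n2 (25932, 27948) (by decide +kernel)
                  (CovZ.leaf K3_ok TD_l15542 _)
                  (CovZ.leaf K3_ok TD_l18185 _))
                 (CovZ.n1 (25956, 27948) (by decide +kernel)
                  (CovZ.leaf K3_ok TD_l15543 _)
                  (CovZ.leaf K3_ok TD_l15544 _))))
               (CovZ.n1 (25992, 27960) (by decide +kernel)
                (CovZ.n2 (25992, 27936) (by decide +kernel)
                 (CovZ.n2 (25980, 27948) (by decide +kernel)
                  (CovZ.leaf K3_ok TD_l15545 _)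
                  (CovZ.leaf K3_ok TD_l15546 _))
                 (CovZ.n1 (26004, 27948) (by decide +kernel)
                  (CovZ.leaf K3_ok TD_l15547 _)
                  (CovZ.leaf K3_ok TD_l15548 _)))
                (CovZ.leaf K3_ok TD_l15549 _)))
              (CovZ.n1 (25920, 27984) (by decide +kernel)
               (CovZ.n2 (25944, 28008) (by decide +kernel)
                (CovZ.n2 (25944, 27984) (by decide +kernel)
                 (CovZ.leaf K3_ok TD_l15550 _)
                 (CovZ.leaf K3_ok TD_l15551 _))
                (CovZ.leaf K3_ok TD_l15552 _))
               (CovZ.n1 (25944, 27960) (by decide +kernel)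
                (CovZ.n2 (25920, 27960) (by decide +kernel)
                 (CovZ.n2 (25932, 27972) (by decide +kernel)
                  (CovZ.leaf K3_ok TD_l15553 _)
                  (CovZ.leaf K3_ok TD_l15554 _))
                 (CovZ.leaf K3_ok TD_l15555 _))
                (CovZ.n1 (25944, 27984) (by decide +kernel)
                 (CovZ.leaf K3_ok TD_l15556 _)
                 (CovZ.n1 (25932, 27972) (by decide +kernel)
                  (CovZ.leaf K3_ok TD_l15557 _)
                  (CovZ.leaf K3_ok TD_l15558 _))))))
             (CovZ.subM 3533694136138786888451419170105713783152017746240835345238444820465188864 (by decide +kernel)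
              (CovZ.n1 (25968, 27888) (by decide +kernel)
               (CovZ.n2 (25920, 27888) (by decide +kernel)
                (CovZ.n2 (25944, 27912) (by decide +kernel)
                 (CovZ.n2 (25944, 27888) (by decide +kernel)
                  (CovZ.n2 (25932, 27900) (by decide +kernel)
                   (CovZ.n2 (25944, 27900) (by decide +kernel)
                    (CovZ.n2 (25938, 27894) (by decide +kernel)
                     (CovZ.leaf K3_ok TD_l18186 _)
                     (CovZ.leaf K3_ok TD_l18187 _))
                    (CovZ.leaf K3_ok TD_l18188 _))
                   (CovZ.n1 (25932, 27888) (by decide +kernel)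
                    (CovZ.leaf K3_ok TD_l18189 _)
                    (CovZ.n1 (25938, 27894) (by decide +kernel)
                     (CovZ.n2 (25938, 27888) (by decide +kernel)
                      (CovZ.leaf K3_ok TD_l18190 _)
                      (CovZ.leaf K2_ok TD_l18191 _))
                     (CovZ.leaf K3_ok TD_l18192 _))))
                  (CovZ.n1 (25956, 27900) (by decide +kernel)
                   (CovZ.n2 (25956, 27888) (by decide +kernel)
                    (CovZ.leaf K2_ok TD_l18193 _)
                    (CovZ.n1 (25962, 27894) (by decide +kernel)
                     (CovZ.leaf K3_ok TD_l18194 _)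
                     (CovZ.leaf K3_ok TD_l18195 _)))
                   (CovZ.n1 (25944, 27900) (by decide +kernel)
                    (CovZ.n2 (25950, 27906) (by decide +kernel)
                     (CovZ.leaf K3_ok TD_l18196 _)
                     (CovZ.leaf K3_ok TD_l18197 _))
                    (CovZ.leaf K3_ok TD_l18198 _))))
                 (CovZ.n1 (25920, 27912) (by decide +kernel)
                  (CovZ.n2 (25932, 27924) (by decide +kernel)
                   (CovZ.n2 (25932, 27912) (by decide +kernel)
                    (CovZ.leaf K3_ok TD_l18199 _)
                    (CovZ.leaf K3_ok TD_l18200 _))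
                   (CovZ.leaf K3_ok TD_l18201 _))
                  (CovZ.leaf K3_ok TD_l18202 _)))
                (CovZ.badM (by decide +kernel)))
               (CovZ.n1 (25968, 27936) (by decide +kernel)
                (CovZ.n2 (25992, 27912) (by decide +kernel)
                 (CovZ.n2 (25968, 27912) (by decide +kernel)
                  (CovZ.n2 (25980, 27924) (by decide +kernel)
                   (CovZ.n2 (25980, 27912) (by decide +kernel)
                    (CovZ.leaf K3_ok TD_l15559 _)
                    (CovZ.leaf K3_ok TD_l15560 _))
                   (CovZ.leaf K3_ok TD_l15561 _))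
                  (CovZ.leaf K3_ok TD_l15562 _))
                 (CovZ.n1 (25992, 27936) (by decide +kernel)
                  (CovZ.leaf K3_ok TD_l15563 _)
                  (CovZ.n1 (25980, 27924) (by decide +kernel)
                   (CovZ.leaf K3_ok TD_l15564 _)
                   (CovZ.leaf K3_ok TD_l15565 _))))
                (CovZ.n1 (25944, 27912) (by decide +kernel)
                 (CovZ.n2 (25944, 27936) (by decide +kernel)
                  (CovZ.leaf K3_ok TD_l15566 _)
                  (CovZ.n1 (25932, 27924) (by decide +kernel)
                   (CovZ.leaf K3_ok TD_l18203 _)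
                   (CovZ.n1 (25944, 27924) (by decide +kernel)
                    (CovZ.leaf K3_ok TD_l18204 _)
                    (CovZ.leaf K3_ok TD_l18205 _))))
                 (CovZ.n1 (25968, 27912) (by decide +kernel)
                  (CovZ.n2 (25956, 27900) (by decide +kernel)
                   (CovZ.n2 (25956, 27912) (by decide +kernel)
                    (CovZ.leaf K3_ok TD_l18206 _)
                    (CovZ.n1 (25950, 27906) (by decide +kernel)
                     (CovZ.leaf K3_ok TD_l18207 _)
                     (CovZ.leaf K3_ok TD_l18208 _)))
                   (CovZ.n1 (25968, 27900) (by decide +kernel)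
                    (CovZ.n2 (25962, 27894) (by decide +kernel)
                     (CovZ.leaf K2_ok TD_l18209 _)
                     (CovZ.n1 (25968, 27894) (by decide +kernel)
                      (CovZ.n2 (25965, 27891) (by decide +kernel)
                       (CovZ.leaf K3_ok TD_l18210 _)
                       (CovZ.leaf K3_ok TD_l18211 _))
                      (CovZ.leaf K3_ok TD_l18212 _)))
                    (CovZ.leaf K3_ok TD_l18213 _)))
                  (CovZ.n1 (25956, 27924) (by decide +kernel)
                   (CovZ.leaf K3_ok TD_l15567 _)
                   (CovZ.n1 (25956, 27912) (by decide +kernel)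
                    (CovZ.leaf K3_ok TD_l18214 _)
                    (CovZ.leaf K3_ok TD_l18215 _))))))))))
           (CovZ.n1 (26016, 28032) (by decide +kernel)
            (CovZ.n2 (26064, 27984) (by decide +kernel)
             (CovZ.subM 260740605213647830574110876117471929855979236889647105644382889502051365923504599123888177152 (by decide +kernel)
              (CovZ.n2 (26016, 27984) (by decide +kernel)
               (CovZ.n2 (26040, 28008) (by decide +kernel)
                (CovZ.n2 (26040, 27984) (by decide +kernel)
                 (CovZ.leaf K3_ok TD_l15568 _)
                 (CovZ.leaf K3_ok TD_l15569 _))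
                (CovZ.leaf K3_ok TD_l15570 _))
               (CovZ.leaf K3_ok TD_l15571 _)))
             (CovZ.n1 (26064, 28032) (by decide +kernel)
              (CovZ.leaf K3_ok TD_l5513 _)
              (CovZ.n1 (26040, 28008) (by decide +kernel)
               (CovZ.leaf K3_ok TD_l15572 _)
               (CovZ.n1 (26064, 28008) (by decide +kernel)
                (CovZ.leaf K3_ok TD_l15573 _)
                (CovZ.leaf K3_ok TD_l15574 _)))))
            (CovZ.subM 260740605213647830574110876117471929855979236889647105644382889502051365923504599123888177152 (by decide +kernel)
             (CovZ.n1 (25968, 27984) (by decide +kernel)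
              (CovZ.n2 (25968, 28032) (by decide +kernel)
               (CovZ.leaf K3_ok TD_l15575 _)
               (CovZ.n1 (25944, 28008) (by decide +kernel)
                (CovZ.leaf K3_ok TD_l15576 _)
                (CovZ.n1 (25968, 28008) (by decide +kernel)
                 (CovZ.leaf K3_ok TD_l15577 _)
                 (CovZ.leaf K3_ok TD_l15578 _))))
              (CovZ.n1 (26016, 27984) (by decide +kernel)
               (CovZ.n2 (25992, 27960) (by decide +kernel)
                (CovZ.leaf K3_ok TD_l15579 _)
                (CovZ.n1 (26016, 27960) (by decide +kernel)
                 (CovZ.n2 (26004, 27948) (by decide +kernel)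
                  (CovZ.leaf K3_ok TD_l15580 _)
                  (CovZ.leaf K3_ok TD_l15581 _))
                 (CovZ.leaf K3_ok TD_l15582 _)))
               (CovZ.n1 (25992, 28008) (by decide +kernel)
                (CovZ.n2 (26016, 28008) (by decide +kernel)
                 (CovZ.leaf K3_ok TD_l15583 _)
                 (CovZ.leaf K3_ok TD_l15584 _))
                (CovZ.n1 (25992, 27984) (by decide +kernel)
                 (CovZ.leaf K3_ok TD_l15585 _)
                 (CovZ.leaf K3_ok TD_l15586 _))))))))

theorem TD_u145 : CovZ TD_M (toL (selN TD_LN 260740605213647830574110876117471929855979236889647279868954753022544668616036609510921469952)) [0, 7, 6, 1] (25920, 28032) (25728, 28032) (25920, 27840) :=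
    (CovZ.subM 260740605213647830574110876117471929855979236889647105644382889502051365923504599123888177152 (by decide +kernel)
           (CovZ.n1 (25824, 27936) (by decide +kernel)
            (CovZ.n2 (25824, 28032) (by decide +kernel)
             (CovZ.n2 (25872, 27984) (by decide +kernel)
              (CovZ.n2 (25824, 27984) (by decide +kernel)
               (CovZ.n2 (25848, 28008) (by decide +kernel)
                (CovZ.n2 (25848, 27984) (by decide +kernel)
                 (CovZ.n2 (25836, 27996) (by decide +kernel)
                  (CovZ.leaf K3_ok TD_l18216 _)
                  (CovZ.leaf K3_ok TD_l18217 _))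
                 (CovZ.leaf K3_ok TD_l18218 _))
                (CovZ.leaf K3_ok TD_l15587 _))
               (CovZ.subM 242833611531749828001071525241391282500406568643401809970158732596140567506630737920 (by decide +kernel)
                (CovZ.n1 (25848, 27960) (by decide +kernel)
                 (CovZ.badM (by decide +kernel))
                 (CovZ.n1 (25848, 27984) (by decide +kernel)
                  (CovZ.leaf K3_ok TD_l18219 _)
                  (CovZ.n1 (25836, 27972) (by decide +kernel)
                   (CovZ.leaf K3_ok TD_l18220 _)
                   (CovZ.leaf K3_ok TD_l18221 _))))))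
              (CovZ.n1 (25872, 28032) (by decide +kernel)
               (CovZ.leaf K3_ok TD_l15588 _)
               (CovZ.n1 (25848, 28008) (by decide +kernel)
                (CovZ.leaf K3_ok TD_l15589 _)
                (CovZ.n1 (25872, 28008) (by decide +kernel)
                 (CovZ.n2 (25860, 27996) (by decide +kernel)
                  (CovZ.leaf K3_ok TD_l18222 _)
                  (CovZ.leaf K3_ok TD_l18223 _))
                 (CovZ.leaf K3_ok TD_l15590 _)))))
             (CovZ.n1 (25776, 27984) (by decide +kernel)
              (CovZ.n2 (25776, 28032) (by decide +kernel)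
               (CovZ.n2 (25800, 28008) (by decide +kernel)
                (CovZ.leaf K3_ok TD_l15591 _)
                (CovZ.leaf K2_ok TD_l15592 _))
               (CovZ.subM 260740604970814219045894742245957173273754549390726374011368399393085217277146331055357165568 (by decide +kernel)
                (CovZ.n1 (25752, 28008) (by decide +kernel)
                 (CovZ.n2 (25752, 28032) (by decide +kernel)
                  (CovZ.leaf K2_ok TD_l15593 _)
                  (CovZ.n1 (25740, 28020) (by decide +kernel)
                   (CovZ.leaf K2_ok TD_l18224 _)
                   (CovZ.leaf K2_ok TD_l18225 _)))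
                 (CovZ.n1 (25776, 28008) (by decide +kernel)
                  (CovZ.n2 (25764, 27996) (by decide +kernel)
                   (CovZ.leaf K3_ok TD_l18226 _)
                   (CovZ.leaf K3_ok TD_l18227 _))
                  (CovZ.n1 (25764, 28020) (by decide +kernel)
                   (CovZ.leaf K3_ok TD_l15594 _)
                   (CovZ.leaf K2_ok TD_l18228 _))))))
              (CovZ.n1 (25824, 27984) (by decide +kernel)
               (CovZ.badM (by decide +kernel))
               (CovZ.n1 (25800, 28008) (by decide +kernel)
                (CovZ.n2 (25824, 28008) (by decide +kernel)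
                 (CovZ.n2 (25812, 27996) (by decide +kernel)
                  (CovZ.leaf K3_ok TD_l18229 _)
                  (CovZ.leaf K3_ok TD_l18230 _))
                 (CovZ.leaf K3_ok TD_l15595 _))
                (CovZ.subM 260740604970814219045894742245957173273754549390725677113080945311112044285950310794060103680 (by decide +kernel)
                 (CovZ.n1 (25800, 27984) (by decide +kernel)
                  (CovZ.n2 (25788, 27996) (by decide +kernel)
                   (CovZ.leaf K3_ok TD_l18231 _)
                   (CovZ.badM (by decide +kernel)))
                  (CovZ.n1 (25812, 27996) (by decide +kernel)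
                   (CovZ.leaf K2_ok TD_l18232 _)
                   (CovZ.leaf K3_ok TD_l18233 _))))))))
            (CovZ.n1 (25920, 27936) (by decide +kernel)
             (CovZ.subM 6582018229284824168619876730229402019930943462534319453394436096 (by decide +kernel)
              (CovZ.n2 (25872, 27888) (by decide +kernel)
               (CovZ.n2 (25872, 27936) (by decide +kernel)
                (CovZ.n2 (25896, 27912) (by decide +kernel)
                 (CovZ.n2 (25872, 27912) (by decide +kernel)
                  (CovZ.n2 (25884, 27924) (by decide +kernel)
                   (CovZ.n2 (25884, 27912) (by decide +kernel)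
                    (CovZ.badM (by decide +kernel))
                    (CovZ.leaf K3_ok TD_l18234 _))
                   (CovZ.badM (by decide +kernel)))
                  (CovZ.n1 (25884, 27900) (by decide +kernel)
                   (CovZ.badM (by decide +kernel))
                   (CovZ.n1 (25884, 27912) (by decide +kernel)
                    (CovZ.leaf K3_ok TD_l18235 _)
                    (CovZ.badM (by decide +kernel)))))
                 (CovZ.n1 (25896, 27936) (by decide +kernel)
                  (CovZ.leaf K3_ok TD_l18236 _)
                  (CovZ.n1 (25884, 27924) (by decide +kernel)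
                   (CovZ.n2 (25884, 27936) (by decide +kernel)
                    (CovZ.leaf K3_ok TD_l18237 _)
                    (CovZ.badM (by decide +kernel)))
                   (CovZ.n1 (25896, 27924) (by decide +kernel)
                    (CovZ.leaf K3_ok TD_l18238 _)
                    (CovZ.n1 (25890, 27930) (by decide +kernel)
                     (CovZ.leaf K3_ok TD_l18239 _)
                     (CovZ.leaf K3_ok TD_l18240 _))))))
                (CovZ.badM (by decide +kernel)))
               (CovZ.n1 (25920, 27888) (by decide +kernel)
                (CovZ.badM (by decide +kernel))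
                (CovZ.n1 (25896, 27912) (by decide +kernel)
                 (CovZ.n2 (25920, 27912) (by decide +kernel)
                  (CovZ.n2 (25908, 27900) (by decide +kernel)
                   (CovZ.n2 (25908, 27912) (by decide +kernel)
                    (CovZ.leaf K3_ok TD_l18241 _)
                    (CovZ.n1 (25902, 27906) (by decide +kernel)
                     (CovZ.leaf K3_ok TD_l18242 _)
                     (CovZ.leaf K3_ok TD_l18243 _)))
                   (CovZ.n1 (25920, 27900) (by decide +kernel)
                    (CovZ.n2 (25914, 27894) (by decide +kernel)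
                     (CovZ.leaf K3_ok TD_l18244 _)
                     (CovZ.leaf K3_ok TD_l18245 _))
                    (CovZ.leaf K3_ok TD_l18246 _)))
                  (CovZ.n1 (25908, 27924) (by decide +kernel)
                   (CovZ.n2 (25920, 27924) (by decide +kernel)
                    (CovZ.n2 (25914, 27918) (by decide +kernel)
                     (CovZ.leaf K3_ok TD_l18247 _)
                     (CovZ.leaf K3_ok TD_l18248 _))
                    (CovZ.leaf K3_ok TD_l18249 _))
                   (CovZ.n1 (25908, 27912) (by decide +kernel)
                    (CovZ.leaf K3_ok TD_l18250 _)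
                    (CovZ.leaf K3_ok TD_l18251 _))))
                 (CovZ.n1 (25896, 27888) (by decide +kernel)
                  (CovZ.n2 (25884, 27900) (by decide +kernel)
                   (CovZ.n2 (25896, 27900) (by decide +kernel)
                    (CovZ.badM (by decide +kernel))
                    (CovZ.n1 (25890, 27906) (by decide +kernel)
                     (CovZ.leaf K3_ok TD_l18252 _)
                     (CovZ.badM (by decide +kernel))))
                   (CovZ.badM (by decide +kernel)))
                  (CovZ.n1 (25908, 27900) (by decide +kernel)
                   (CovZ.n2 (25908, 27888) (by decide +kernel)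
                    (CovZ.leaf K3_ok TD_l18253 _)
                    (CovZ.n1 (25914, 27894) (by decide +kernel)
                     (CovZ.n2 (25914, 27888) (by decide +kernel)
                      (CovZ.n2 (25911, 27891) (by decide +kernel)
                       (CovZ.leaf K3_ok TD_l18254 _)
                       (CovZ.badM (by decide +kernel)))
                      (CovZ.leaf K3_ok TD_l18255 _))
                     (CovZ.leaf K3_ok TD_l18256 _)))
                   (CovZ.n1 (25896, 27900) (by decide +kernel)
                    (CovZ.n2 (25902, 27906) (by decide +kernel)
                     (CovZ.n2 (25902, 27900) (by decide +kernel)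
                      (CovZ.leaf K3_ok TD_l18257 _)
                      (CovZ.leaf K3_ok TD_l18258 _))
                     (CovZ.leaf K3_ok TD_l18259 _))
                    (CovZ.leaf K3_ok TD_l18260 _))))))))
             (CovZ.n1 (25872, 27984) (by decide +kernel)
              (CovZ.n2 (25920, 27984) (by decide +kernel)
               (CovZ.n2 (25896, 27960) (by decide +kernel)
                (CovZ.n2 (25896, 27984) (by decide +kernel)
                 (CovZ.leaf K3_ok TD_l18261 _)
                 (CovZ.n1 (25884, 27972) (by decide +kernel)
                  (CovZ.leaf K3_ok TD_l18262 _)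
                  (CovZ.leaf K3_ok TD_l18263 _)))
                (CovZ.n1 (25920, 27960) (by decide +kernel)
                 (CovZ.n2 (25908, 27948) (by decide +kernel)
                  (CovZ.leaf K3_ok TD_l18264 _)
                  (CovZ.leaf K3_ok TD_l18265 _))
                 (CovZ.n1 (25908, 27972) (by decide +kernel)
                  (CovZ.leaf K3_ok TD_l18266 _)
                  (CovZ.leaf K3_ok TD_l18267 _))))
               (CovZ.n1 (25896, 28008) (by decide +kernel)
                (CovZ.n2 (25920, 28008) (by decide +kernel)
                 (CovZ.leaf K3_ok TD_l15596 _)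
                 (CovZ.leaf K3_ok TD_l15597 _))
                (CovZ.n1 (25896, 27984) (by decide +kernel)
                 (CovZ.leaf K3_ok TD_l15598 _)
                 (CovZ.leaf K3_ok TD_l15599 _))))
              (CovZ.subM 242833611531749828001071525241391282500406568643401809970158732596140567506630737920 (by decide +kernel)
               (CovZ.n1 (25872, 27936) (by decide +kernel)
                (CovZ.n2 (25848, 27960) (by decide +kernel)
                 (CovZ.n2 (25872, 27960) (by decide +kernel)
                  (CovZ.badM (by decide +kernel))
                  (CovZ.n1 (25860, 27972) (by decide +kernel)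
                   (CovZ.leaf K3_ok TD_l18268 _)
                   (CovZ.leaf K3_ok TD_l18269 _)))
                 (CovZ.badM (by decide +kernel)))
                (CovZ.n1 (25896, 27960) (by decide +kernel)
                 (CovZ.n2 (25896, 27936) (by decide +kernel)
                  (CovZ.n2 (25884, 27948) (by decide +kernel)
                   (CovZ.n2 (25896, 27948) (by decide +kernel)
                    (CovZ.leaf K3_ok TD_l18270 _)
                    (CovZ.leaf K3_ok TD_l18271 _))
                   (CovZ.n1 (25884, 27936) (by decide +kernel)
                    (CovZ.leaf K3_ok TD_l18272 _)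
                    (CovZ.n1 (25890, 27942) (by decide +kernel)
                     (CovZ.leaf K3_ok TD_l18273 _)
                     (CovZ.leaf K3_ok TD_l18274 _))))
                  (CovZ.n1 (25908, 27948) (by decide +kernel)
                   (CovZ.n2 (25908, 27936) (by decide +kernel)
                    (CovZ.leaf K3_ok TD_l18275 _)
                    (CovZ.leaf K3_ok TD_l18276 _))
                   (CovZ.leaf K3_ok TD_l18277 _)))
                 (CovZ.n1 (25872, 27960) (by decide +kernel)
                  (CovZ.n2 (25884, 27972) (by decide +kernel)
                   (CovZ.leaf K3_ok TD_l18278 _)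
                   (CovZ.leaf K3_ok TD_l18279 _))
                  (CovZ.leaf K3_ok TD_l18280 _)))))))))

theorem TD_u146 : CovZ TD_M (toL (selN TD_LN 71671832283963530611089997296209901883905431517329306690001819881493054166035848905081649119717156454672)) [0, 7, 6, 1] (26112, 27648) (26112, 28032) (25728, 28032) :=
    (CovZ.subM 260740605213647830574110876117471929855979236889647279868954753022544668616036609510921469952 (by decide +kernel)
        (CovZ.n2 (25920, 27840) (by decide +kernel)
         (CovZ.n2 (25920, 28032) (by decide +kernel)
          TD_u144
          TD_u145)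
         (CovZ.n1 (26112, 27840) (by decide +kernel)
          (CovZ.badM (by decide +kernel))
          (CovZ.n1 (26016, 27936) (by decide +kernel)
           (CovZ.n2 (26112, 27936) (by decide +kernel)
            (CovZ.subM 242833611531749828001071525241391282500406568664669457902717386562601480471116251136 (by decide +kernel)
             (CovZ.n2 (26064, 27888) (by decide +kernel)
              (CovZ.n2 (26064, 27936) (by decide +kernel)
               (CovZ.n2 (26088, 27912) (by decide +kernel)
                (CovZ.n2 (26064, 27912) (by decide +kernel)
                 (CovZ.n2 (26076, 27924) (by decide +kernel)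
                  (CovZ.leaf K3_ok TD_l15600 _)
                  (CovZ.leaf K3_ok TD_l15601 _))
                 (CovZ.leaf K3_ok TD_l15602 _))
                (CovZ.n1 (26088, 27936) (by decide +kernel)
                 (CovZ.leaf K3_ok TD_l15603 _)
                 (CovZ.n1 (26076, 27924) (by decide +kernel)
                  (CovZ.leaf K3_ok TD_l15604 _)
                  (CovZ.leaf K3_ok TD_l15605 _))))
               (CovZ.n1 (26040, 27912) (by decide +kernel)
                (CovZ.n2 (26040, 27936) (by decide +kernel)
                 (CovZ.leaf K3_ok TD_l15606 _)
                 (CovZ.n1 (26028, 27924) (by decide +kernel)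
                  (CovZ.leaf K3_ok TD_l15607 _)
                  (CovZ.leaf K3_ok TD_l15608 _)))
                (CovZ.n1 (26064, 27912) (by decide +kernel)
                 (CovZ.n2 (26052, 27900) (by decide +kernel)
                  (CovZ.leaf K3_ok TD_l15609 _)
                  (CovZ.leaf K3_ok TD_l15610 _))
                 (CovZ.leaf K3_ok TD_l15611 _))))
              (CovZ.n1 (26112, 27888) (by decide +kernel)
               (CovZ.n2 (26088, 27864) (by decide +kernel)
                (CovZ.n2 (26088, 27888) (by decide +kernel)
                 (CovZ.leaf K3_ok TD_l18281 _)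
                 (CovZ.n1 (26076, 27876) (by decide +kernel)
                  (CovZ.leaf K3_ok TD_l18282 _)
                  (CovZ.n1 (26088, 27876) (by decide +kernel)
                   (CovZ.badM (by decide +kernel))
                   (CovZ.leaf K3_ok TD_l18283 _))))
                (CovZ.n1 (26112, 27864) (by decide +kernel)
                 (CovZ.badM (by decide +kernel))
                 (CovZ.n1 (26100, 27876) (by decide +kernel)
                  (CovZ.leaf K3_ok TD_l18284 _)
                  (CovZ.badM (by decide +kernel)))))
               (CovZ.n1 (26088, 27912) (by decide +kernel)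
                (CovZ.n2 (26112, 27912) (by decide +kernel)
                 (CovZ.n2 (26100, 27900) (by decide +kernel)
                  (CovZ.leaf K2_ok TD_l15612 _)
                  (CovZ.leaf K2_ok TD_l15613 _))
                 (CovZ.leaf K3_ok TD_l15614 _))
                (CovZ.n1 (26088, 27888) (by decide +kernel)
                 (CovZ.n2 (26076, 27900) (by decide +kernel)
                  (CovZ.leaf K3_ok TD_l15615 _)
                  (CovZ.leaf K3_ok TD_l15616 _))
                 (CovZ.n1 (26100, 27900) (by decide +kernel)
                  (CovZ.n2 (26100, 27888) (by decide +kernel)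
                   (CovZ.leaf K3_ok TD_l15617 _)
                   (CovZ.leaf K3_ok TD_l15618 _))
                  (CovZ.leaf K3_ok TD_l15619 _)))))))
            (CovZ.n1 (26064, 27984) (by decide +kernel)
             (CovZ.n2 (26112, 27984) (by decide +kernel)
              (CovZ.subM 260740605213647830574110876117471929855979236889647105644382889502051365923504599123888177152 (by decide +kernel)
               (CovZ.n2 (26088, 27960) (by decide +kernel)
                (CovZ.leaf K3_ok TD_l15620 _)
                (CovZ.n1 (26112, 27960) (by decide +kernel)
                 (CovZ.n2 (26100, 27948) (by decide +kernel)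
                  (CovZ.leaf K3_ok TD_l15621 _)
                  (CovZ.leaf K3_ok TD_l15622 _))
                 (CovZ.leaf K3_ok TD_l15623 _))))
              (CovZ.n1 (26088, 28008) (by decide +kernel)
               (CovZ.leaf K3_ok TD_l5514 _)
               (CovZ.n1 (26088, 27984) (by decide +kernel)
                (CovZ.leaf K3_ok TD_l15624 _)
                (CovZ.leaf K3_ok TD_l15625 _))))
             (CovZ.subM 260740605213647830574110876117471929855979236889647105644382889502051365923504599123888177152 (by decide +kernel)
              (CovZ.n1 (26064, 27936) (by decide +kernel)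
               (CovZ.n2 (26040, 27960) (by decide +kernel)
                (CovZ.n2 (26064, 27960) (by decide +kernel)
                 (CovZ.leaf K3_ok TD_l15626 _)
                 (CovZ.leaf K3_ok TD_l15627 _))
                (CovZ.n1 (26040, 27936) (by decide +kernel)
                 (CovZ.n2 (26028, 27948) (by decide +kernel)
                  (CovZ.leaf K3_ok TD_l15628 _)
                  (CovZ.leaf K3_ok TD_l15629 _))
                 (CovZ.leaf K3_ok TD_l15630 _)))
               (CovZ.n1 (26088, 27960) (by decide +kernel)
                (CovZ.n2 (26088, 27936) (by decide +kernel)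
                 (CovZ.leaf K3_ok TD_l15631 _)
                 (CovZ.leaf K3_ok TD_l15632 _))
                (CovZ.leaf K3_ok TD_l15633 _))))))
           (CovZ.subM 3533694136138786888451419170105713783152017746240835345238444820465188864 (by decide +kernel)
            (CovZ.n1 (26016, 27840) (by decide +kernel)
             (CovZ.n2 (25968, 27888) (by decide +kernel)
              (CovZ.n2 (26016, 27888) (by decide +kernel)
               (CovZ.badM (by decide +kernel))
               (CovZ.n1 (25992, 27912) (by decide +kernel)
                (CovZ.n2 (26016, 27912) (by decide +kernel)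
                 (CovZ.n2 (26004, 27900) (by decide +kernel)
                  (CovZ.leaf K3_ok TD_l15634 _)
                  (CovZ.n1 (26016, 27900) (by decide +kernel)
                   (CovZ.leaf K3_ok TD_l15635 _)
                   (CovZ.leaf K3_ok TD_l15636 _)))
                 (CovZ.n1 (26004, 27924) (by decide +kernel)
                  (CovZ.leaf K3_ok TD_l15637 _)
                  (CovZ.n1 (26004, 27912) (by decide +kernel)
                   (CovZ.leaf K3_ok TD_l15638 _)
                   (CovZ.leaf K3_ok TD_l15639 _))))
                (CovZ.n1 (25992, 27888) (by decide +kernel)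
                 (CovZ.n2 (25980, 27900) (by decide +kernel)
                  (CovZ.n2 (25992, 27900) (by decide +kernel)
                   (CovZ.leaf K3_ok TD_l18285 _)
                   (CovZ.leaf K3_ok TD_l15640 _))
                  (CovZ.n1 (25980, 27888) (by decide +kernel)
                   (CovZ.leaf K3_ok TD_l18286 _)
                   (CovZ.n1 (25986, 27894) (by decide +kernel)
                    (CovZ.leaf K3_ok TD_l18287 _)
                    (CovZ.leaf K3_ok TD_l18288 _))))
                 (CovZ.n1 (26004, 27900) (by decide +kernel)
                  (CovZ.n2 (26004, 27888) (by decide +kernel)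
                   (CovZ.leaf K3_ok TD_l15641 _)
                   (CovZ.leaf K3_ok TD_l15642 _))
                  (CovZ.n1 (25992, 27900) (by decide +kernel)
                   (CovZ.n2 (25998, 27906) (by decide +kernel)
                    (CovZ.leaf K3_ok TD_l15643 _)
                    (CovZ.leaf K3_ok TD_l15644 _))
                   (CovZ.leaf K3_ok TD_l15645 _))))))
              (CovZ.badM (by decide +kernel)))
             (CovZ.n1 (26064, 27888) (by decide +kernel)
              (CovZ.badM (by decide +kernel))
              (CovZ.n1 (26016, 27888) (by decide +kernel)
               (CovZ.n2 (26040, 27912) (by decide +kernel)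
                (CovZ.n2 (26040, 27888) (by decide +kernel)
                 (CovZ.n2 (26028, 27900) (by decide +kernel)
                  (CovZ.leaf K3_ok TD_l15646 _)
                  (CovZ.n1 (26028, 27888) (by decide +kernel)
                   (CovZ.leaf K3_ok TD_l15647 _)
                   (CovZ.leaf K3_ok TD_l15648 _)))
                 (CovZ.n1 (26052, 27900) (by decide +kernel)
                  (CovZ.n2 (26052, 27888) (by decide +kernel)
                   (CovZ.leaf K3_ok TD_l15649 _)
                   (CovZ.leaf K3_ok TD_l15650 _))
                  (CovZ.leaf K3_ok TD_l15651 _)))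
                (CovZ.n1 (26016, 27912) (by decide +kernel)
                 (CovZ.n2 (26028, 27924) (by decide +kernel)
                  (CovZ.leaf K3_ok TD_l15652 _)
                  (CovZ.leaf K3_ok TD_l15653 _))
                 (CovZ.leaf K3_ok TD_l15654 _)))
               (CovZ.badM (by decide +kernel))))))))))

theorem TD_u147 : CovZ TD_M (toL (selN TD_LN 71671832283963530611089997296209901883905431517329306690001819881493054166035848905081649119717156454672)) [0, 7, 6, 1] (26112, 28032) (26112, 28416) (25728, 28032) :=
    (CovZ.n1 (25920, 28224) (by decide +kernel)
        (CovZ.n2 (26112, 28224) (by decide +kernel)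
         (CovZ.subM 534273795873251844318019684984012775605820521573202167256804628554007648674527032385384716697600 (by decide +kernel)
          (CovZ.n2 (26016, 28128) (by decide +kernel)
           (CovZ.n2 (26016, 28224) (by decide +kernel)
            (CovZ.leaf K3_ok TD_l5515 _)
            (CovZ.n1 (25968, 28176) (by decide +kernel)
             (CovZ.leaf K2_ok TD_l5516 _)
             (CovZ.n1 (26016, 28176) (by decide +kernel)
              (CovZ.leaf K2_ok TD_l5517 _)
              (CovZ.leaf K3_ok TD_l5518 _))))
           (CovZ.n1 (26112, 28128) (by decide +kernel)
            (CovZ.n2 (26064, 28080) (by decide +kernel)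
             (CovZ.n2 (26064, 28128) (by decide +kernel)
              (CovZ.leaf K2_ok TD_l5519 _)
              (CovZ.leaf K2_ok TD_l5520 _))
             (CovZ.n1 (26112, 28080) (by decide +kernel)
              (CovZ.n2 (26088, 28056) (by decide +kernel)
               (CovZ.leaf K3_ok TD_l5521 _)
               (CovZ.leaf K3_ok TD_l5522 _))
              (CovZ.leaf K3_ok TD_l5523 _)))
            (CovZ.n1 (26064, 28176) (by decide +kernel)
             (CovZ.n2 (26112, 28176) (by decide +kernel)
              (CovZ.leaf K3_ok TD_l5524 _)
              (CovZ.leaf K3_ok TD_l5525 _))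
             (CovZ.n1 (26064, 28128) (by decide +kernel)
              (CovZ.leaf K3_ok TD_l5526 _)
              (CovZ.leaf K3_ok TD_l5527 _))))))
         (CovZ.n1 (26016, 28320) (by decide +kernel)
          (CovZ.n2 (26112, 28320) (by decide +kernel)
           (CovZ.n2 (26064, 28272) (by decide +kernel)
            (CovZ.leaf K2_ok TD_l5528 _)
            (CovZ.leaf K3_ok TD_l5529 _))
           (CovZ.n1 (26064, 28368) (by decide +kernel)
            (CovZ.leaf K2_ok TD_l5530 _)
            (CovZ.leaf K3_ok TD_l5531 _)))
          (CovZ.subM 534273795873251844318019684984012775605820521573202167256804628554007648674527032385384716697616 (by decide +kernel)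
           (CovZ.n1 (26016, 28224) (by decide +kernel)
            (CovZ.n2 (25968, 28272) (by decide +kernel)
             (CovZ.n2 (26016, 28272) (by decide +kernel)
              (CovZ.leaf K2_ok TD_l5532 _)
              (CovZ.leaf K2_ok TD_l5533 _))
             (CovZ.n1 (25968, 28224) (by decide +kernel)
              (CovZ.leaf K2_ok TD_l5534 _)
              (CovZ.leaf K2_ok TD_l5535 _)))
            (CovZ.n1 (26064, 28272) (by decide +kernel)
             (CovZ.n2 (26064, 28224) (by decide +kernel)
              (CovZ.leaf K2_ok TD_l5536 _)
              (CovZ.leaf K3_ok TD_l5537 _))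
             (CovZ.leaf K3_ok TD_l5538 _))))))
        (CovZ.subM 277036893024323719264258441624746955144390984038974769874043876617379719014143303160658132992 (by decide +kernel)
         (CovZ.n1 (25920, 28032) (by decide +kernel)
          (CovZ.n2 (25824, 28128) (by decide +kernel)
           (CovZ.n2 (25920, 28128) (by decide +kernel)
            (CovZ.subM 260740605213647830574110876117471929855979236889647279868954753022544659171303604189212442624 (by decide +kernel)
             (CovZ.n2 (25872, 28080) (by decide +kernel)
              (CovZ.n2 (25872, 28128) (by decide +kernel)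
               (CovZ.leaf K2_ok TD_l5539 _)
               (CovZ.n1 (25848, 28104) (by decide +kernel)
                (CovZ.leaf K2_ok TD_l5540 _)
                (CovZ.leaf K3_ok TD_l5541 _)))
              (CovZ.n1 (25920, 28080) (by decide +kernel)
               (CovZ.n2 (25896, 28056) (by decide +kernel)
                (CovZ.leaf K3_ok TD_l5542 _)
                (CovZ.leaf K3_ok TD_l5543 _))
               (CovZ.n1 (25896, 28104) (by decide +kernel)
                (CovZ.leaf K2_ok TD_l5544 _)
                (CovZ.leaf K3_ok TD_l5545 _)))))
            (CovZ.n1 (25872, 28176) (by decide +kernel)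
             (CovZ.n2 (25920, 28176) (by decide +kernel)
              (CovZ.leaf K2_ok TD_l5546 _)
              (CovZ.leaf K2_ok TD_l5547 _))
             (CovZ.n1 (25872, 28128) (by decide +kernel)
              (CovZ.n2 (25848, 28152) (by decide +kernel)
               (CovZ.leaf K3_ok TD_l5548 _)
               (CovZ.leaf K2_ok TD_l5549 _))
              (CovZ.leaf K2_ok TD_l5550 _))))
           (CovZ.subM 260740605213647830574110876117471929855979236889647279868954753022544659171303604189212442624 (by decide +kernel)
            (CovZ.n1 (25824, 28032) (by decide +kernel)
             (CovZ.n2 (25776, 28080) (by decide +kernel)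
              (CovZ.n2 (25824, 28080) (by decide +kernel)
               (CovZ.n2 (25800, 28056) (by decide +kernel)
                (CovZ.leaf K3_ok TD_l5551 _)
                (CovZ.leaf K3_ok TD_l5552 _))
               (CovZ.n1 (25800, 28104) (by decide +kernel)
                (CovZ.leaf K2_ok TD_l5553 _)
                (CovZ.leaf K2_ok TD_l5554 _)))
              (CovZ.subM 260740605213647830574110876110889911626694412721027228892885839549561768494509366706008227840 (by decide +kernel)
               (CovZ.n1 (25776, 28032) (by decide +kernel)
                (CovZ.n2 (25752, 28056) (by decide +kernel)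
                 (CovZ.n2 (25776, 28056) (by decide +kernel)
                  (CovZ.leaf K3_ok TD_l15655 _)
                  (CovZ.leaf K2_ok TD_l15656 _))
                 (CovZ.n1 (25752, 28032) (by decide +kernel)
                  (CovZ.n2 (25740, 28044) (by decide +kernel)
                   (CovZ.leaf K3_ok TD_l15657 _)
                   (CovZ.leaf K2_ok TD_l15658 _))
                  (CovZ.leaf K2_ok TD_l15659 _)))
                (CovZ.n1 (25800, 28056) (by decide +kernel)
                 (CovZ.n2 (25800, 28032) (by decide +kernel)
                  (CovZ.leaf K3_ok TD_l15660 _)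
                  (CovZ.leaf K3_ok TD_l15661 _))
                 (CovZ.leaf K2_ok TD_l15662 _)))))
             (CovZ.n1 (25872, 28080) (by decide +kernel)
              (CovZ.n2 (25872, 28032) (by decide +kernel)
               (CovZ.n2 (25848, 28056) (by decide +kernel)
                (CovZ.leaf K3_ok TD_l5555 _)
                (CovZ.n1 (25848, 28032) (by decide +kernel)
                 (CovZ.leaf K3_ok TD_l15663 _)
                 (CovZ.leaf K3_ok TD_l15664 _)))
               (CovZ.n1 (25896, 28056) (by decide +kernel)
                (CovZ.n2 (25896, 28032) (by decide +kernel)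
                 (CovZ.leaf K3_ok TD_l15665 _)
                 (CovZ.leaf K3_ok TD_l15666 _))
                (CovZ.leaf K3_ok TD_l5556 _)))
              (CovZ.n1 (25824, 28080) (by decide +kernel)
               (CovZ.n2 (25848, 28104) (by decide +kernel)
                (CovZ.leaf K3_ok TD_l5557 _)
                (CovZ.leaf K2_ok TD_l5558 _))
               (CovZ.leaf K3_ok TD_l5559 _))))))
          (CovZ.n1 (26016, 28128) (by decide +kernel)
           (CovZ.n2 (26016, 28032) (by decide +kernel)
            (CovZ.n2 (25968, 28080) (by decide +kernel)
             (CovZ.n2 (26016, 28080) (by decide +kernel)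
              (CovZ.n2 (25992, 28056) (by decide +kernel)
               (CovZ.leaf K3_ok TD_l5560 _)
               (CovZ.leaf K3_ok TD_l5561 _))
              (CovZ.leaf K3_ok TD_l5562 _))
             (CovZ.subM 260740605213647830574110876117471929855979236889647279868954753022544659171303604189212442624 (by decide +kernel)
              (CovZ.n1 (25968, 28032) (by decide +kernel)
               (CovZ.n2 (25944, 28056) (by decide +kernel)
                (CovZ.leaf K3_ok TD_l5563 _)
                (CovZ.n1 (25944, 28032) (by decide +kernel)
                 (CovZ.leaf K3_ok TD_l15667 _)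
                 (CovZ.leaf K3_ok TD_l15668 _)))
               (CovZ.n1 (25992, 28056) (by decide +kernel)
                (CovZ.leaf K3_ok TD_l5564 _)
                (CovZ.leaf K3_ok TD_l5565 _)))))
            (CovZ.n1 (26064, 28080) (by decide +kernel)
             (CovZ.n2 (26064, 28032) (by decide +kernel)
              (CovZ.n2 (26040, 28056) (by decide +kernel)
               (CovZ.leaf K3_ok TD_l5566 _)
               (CovZ.leaf K3_ok TD_l5567 _))
              (CovZ.n1 (26088, 28056) (by decide +kernel)
               (CovZ.leaf K3_ok TD_l5568 _)
               (CovZ.leaf K3_ok TD_l5569 _)))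
             (CovZ.leaf K3_ok TD_l5570 _)))
           (CovZ.n1 (25920, 28128) (by decide +kernel)
            (CovZ.n2 (25968, 28176) (by decide +kernel)
             (CovZ.n2 (25968, 28128) (by decide +kernel)
              (CovZ.leaf K3_ok TD_l5571 _)
              (CovZ.leaf K3_ok TD_l5572 _))
             (CovZ.leaf K2_ok TD_l5573 _))
            (CovZ.n1 (25968, 28080) (by decide +kernel)
             (CovZ.n2 (25920, 28080) (by decide +kernel)
              (CovZ.n2 (25944, 28104) (by decide +kernel)
               (CovZ.leaf K2_ok TD_l5574 _)
               (CovZ.leaf K3_ok TD_l5575 _))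
              (CovZ.leaf K3_ok TD_l5576 _))
             (CovZ.n1 (25968, 28128) (by decide +kernel)
              (CovZ.leaf K3_ok TD_l5577 _)
              (CovZ.n1 (25944, 28104) (by decide +kernel)
               (CovZ.leaf K2_ok TD_l5578 _)
               (CovZ.leaf K3_ok TD_l5579 _)))))))))

theorem TD_u148 : CovZ TD_M (toL (selN TD_LN 71671832283963530611089997296209901883905431517329306690001819881493054166035848905081649119717156454672)) [0, 7, 6, 1] (26112, 29184) (25728, 28800) (26112, 28416) :=
    (CovZ.n2 (26112, 28800) (by decide +kernel)
       (CovZ.n2 (25920, 28608) (by decide +kernel)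
        (CovZ.n2 (25920, 28800) (by decide +kernel)
         (CovZ.leaf K3_ok TD_l5580 _)
         (CovZ.subM 534257499585441168429329537418505500580532109826052839766804856342395953278175812453524291452928 (by decide +kernel)
          (CovZ.n1 (25824, 28704) (by decide +kernel)
           (CovZ.n2 (25824, 28800) (by decide +kernel)
            (CovZ.leaf K3_ok TD_l5581 _)
            (CovZ.n1 (25776, 28752) (by decide +kernel)
             (CovZ.leaf K3_ok TD_l5582 _)
             (CovZ.leaf K2_ok TD_l5583 _)))
           (CovZ.n1 (25920, 28704) (by decide +kernel)
            (CovZ.n2 (25872, 28656) (by decide +kernel)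
             (CovZ.leaf K3_ok TD_l5584 _)
             (CovZ.leaf K3_ok TD_l5585 _))
            (CovZ.n1 (25872, 28752) (by decide +kernel)
             (CovZ.leaf K2_ok TD_l5586 _)
             (CovZ.leaf K2_ok TD_l5587 _))))))
        (CovZ.n1 (26112, 28608) (by decide +kernel)
         (CovZ.n2 (26016, 28512) (by decide +kernel)
          (CovZ.n2 (26016, 28608) (by decide +kernel)
           (CovZ.leaf K2_ok TD_l5588 _)
           (CovZ.n1 (25968, 28560) (by decide +kernel)
            (CovZ.leaf K2_ok TD_l5589 _)
            (CovZ.leaf K2_ok TD_l5590 _)))
          (CovZ.n1 (26112, 28512) (by decide +kernel)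
           (CovZ.n2 (26064, 28464) (by decide +kernel)
            (CovZ.leaf K2_ok TD_l5591 _)
            (CovZ.leaf K2_ok TD_l5592 _))
           (CovZ.leaf K2_ok TD_l5593 _)))
         (CovZ.n1 (26016, 28704) (by decide +kernel)
          (CovZ.n2 (26112, 28704) (by decide +kernel)
           (CovZ.leaf K3_ok TD_l5594 _)
           (CovZ.leaf K3_ok TD_l5595 _))
          (CovZ.n1 (26016, 28608) (by decide +kernel)
           (CovZ.leaf K2_ok TD_l5596 _)
           (CovZ.leaf K3_ok TD_l5597 _)))))
       (CovZ.n1 (25920, 28992) (by decide +kernel)
        (CovZ.n2 (26112, 28992) (by decide +kernel)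
         (CovZ.n2 (26016, 28896) (by decide +kernel)
          (CovZ.leaf K3_ok TD_l5598 _)
          (CovZ.n1 (26112, 28896) (by decide +kernel)
           (CovZ.leaf K3_ok TD_l5599 _)
           (CovZ.leaf K3_ok TD_l5600 _)))
         (CovZ.n1 (26016, 29088) (by decide +kernel)
          (CovZ.leaf K2_ok TD_l5601 _)
          (CovZ.n1 (26016, 28992) (by decide +kernel)
           (CovZ.leaf K2_ok TD_l5602 _)
           (CovZ.leaf K3_ok TD_l5603 _))))
        (CovZ.n1 (25920, 28800) (by decide +kernel)
         (CovZ.subM 534257499585441168429329537418505500580532109826052839766804856342395953278176100683900443164672 (by decide +kernel)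
          (CovZ.n2 (25824, 28896) (by decide +kernel)
           (CovZ.n2 (25920, 28896) (by decide +kernel)
            (CovZ.leaf K3_ok TD_l5604 _)
            (CovZ.leaf K3_ok TD_l5605 _))
           (CovZ.n1 (25824, 28800) (by decide +kernel)
            (CovZ.leaf K3_ok TD_l5606 _)
            (CovZ.leaf K2_ok TD_l5607 _))))
         (CovZ.n1 (26016, 28896) (by decide +kernel)
          (CovZ.n2 (26016, 28800) (by decide +kernel)
           (CovZ.leaf K2_ok TD_l5608 _)
           (CovZ.leaf K3_ok TD_l5609 _))
          (CovZ.leaf K3_ok TD_l5610 _)))))

theorem TD_u149 : CovZ TD_M (toL (selN TD_LN 71671832283963530611089997296209901883905431517329306690001819881493054166035848905081649119717156454672)) [0, 7, 6, 1] (25728, 28800) (25344, 28416) (26112, 28416) :=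
    (CovZ.n1 (25728, 28416) (by decide +kernel)
       (CovZ.n2 (25536, 28608) (by decide +kernel)
        (CovZ.subM 534257499585441168429329537418505500580532109826052839766804856342395953278175812453524291452928 (by decide +kernel)
         (CovZ.n2 (25728, 28608) (by decide +kernel)
          (CovZ.n2 (25632, 28512) (by decide +kernel)
           (CovZ.n2 (25632, 28608) (by decide +kernel)
            (CovZ.leaf K3_ok TD_l5611 _)
            (CovZ.n1 (25584, 28560) (by decide +kernel)
             (CovZ.leaf K3_ok TD_l5612 _)
             (CovZ.n1 (25632, 28560) (by decide +kernel)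
              (CovZ.leaf K3_ok TD_l5613 _)
              (CovZ.leaf K2_ok TD_l5614 _))))
           (CovZ.n1 (25728, 28512) (by decide +kernel)
            (CovZ.n2 (25680, 28464) (by decide +kernel)
             (CovZ.leaf K3_ok TD_l5615 _)
             (CovZ.n1 (25728, 28464) (by decide +kernel)
              (CovZ.leaf K3_ok TD_l5616 _)
              (CovZ.leaf K2_ok TD_l5617 _)))
            (CovZ.n1 (25680, 28560) (by decide +kernel)
             (CovZ.n2 (25728, 28560) (by decide +kernel)
              (CovZ.leaf K2_ok TD_l5618 _)
              (CovZ.leaf K3_ok TD_l5619 _))
             (CovZ.n1 (25680, 28512) (by decide +kernel)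
              (CovZ.leaf K2_ok TD_l5620 _)
              (CovZ.leaf K2_ok TD_l5621 _)))))
          (CovZ.n1 (25632, 28704) (by decide +kernel)
           (CovZ.n2 (25728, 28704) (by decide +kernel)
            (CovZ.n2 (25680, 28656) (by decide +kernel)
             (CovZ.leaf K3_ok TD_l5622 _)
             (CovZ.leaf K2_ok TD_l5623 _))
            (CovZ.n1 (25680, 28752) (by decide +kernel)
             (CovZ.leaf K3_ok TD_l5624 _)
             (CovZ.n1 (25680, 28704) (by decide +kernel)
              (CovZ.leaf K3_ok TD_l5625 _)
              (CovZ.leaf K3_ok TD_l5626 _))))
           (CovZ.n1 (25632, 28608) (by decide +kernel)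
            (CovZ.n2 (25584, 28656) (by decide +kernel)
             (CovZ.n2 (25632, 28656) (by decide +kernel)
              (CovZ.leaf K2_ok TD_l5627 _)
              (CovZ.leaf K3_ok TD_l5628 _))
             (CovZ.n1 (25584, 28608) (by decide +kernel)
              (CovZ.leaf K2_ok TD_l5629 _)
              (CovZ.leaf K3_ok TD_l5630 _)))
            (CovZ.n1 (25680, 28656) (by decide +kernel)
             (CovZ.n2 (25680, 28608) (by decide +kernel)
              (CovZ.leaf K3_ok TD_l5631 _)
              (CovZ.leaf K2_ok TD_l5632 _))
             (CovZ.leaf K2_ok TD_l5633 _))))))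
        (CovZ.subM 71671831749950475343051800808764327776010127841364764353689298510880477352623032421712098971751530102784 (by decide +kernel)
         (CovZ.n1 (25536, 28416) (by decide +kernel)
          (CovZ.n2 (25440, 28512) (by decide +kernel)
           (CovZ.n2 (25536, 28512) (by decide +kernel)
            (CovZ.subM 71671831749950475343051800808760794081873989054476312934519191925995733665206883774094326379384557010944 (by decide +kernel)
             (CovZ.n2 (25488, 28464) (by decide +kernel)
              (CovZ.n2 (25488, 28512) (by decide +kernel)
               (CovZ.leaf K3_ok TD_l5634 _)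
               (CovZ.n1 (25464, 28488) (by decide +kernel)
                (CovZ.leaf K3_ok TD_l15669 _)
                (CovZ.leaf K2_ok TD_l15670 _)))
              (CovZ.n1 (25536, 28464) (by decide +kernel)
               (CovZ.n2 (25512, 28440) (by decide +kernel)
                (CovZ.leaf K3_ok TD_l15671 _)
                (CovZ.leaf K3_ok TD_l15672 _))
               (CovZ.n1 (25512, 28488) (by decide +kernel)
                (CovZ.leaf K2_ok TD_l5635 _)
                (CovZ.n1 (25512, 28464) (by decide +kernel)
                 (CovZ.leaf K3_ok TD_l15673 _)
                 (CovZ.leaf K3_ok TD_l15674 _))))))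
            (CovZ.n1 (25488, 28560) (by decide +kernel)
             (CovZ.n2 (25536, 28560) (by decide +kernel)
              (CovZ.n2 (25512, 28536) (by decide +kernel)
               (CovZ.leaf K2_ok TD_l5636 _)
               (CovZ.leaf K2_ok TD_l5637 _))
              (CovZ.leaf K3_ok TD_l5638 _))
             (CovZ.subM 71671831749950475343051800808760794081873989054476312934519191925995733665206883774094326379384557010944 (by decide +kernel)
              (CovZ.n1 (25488, 28512) (by decide +kernel)
               (CovZ.n2 (25464, 28536) (by decide +kernel)
                (CovZ.leaf K3_ok TD_l5639 _)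
                (CovZ.n1 (25464, 28512) (by decide +kernel)
                 (CovZ.leaf K3_ok TD_l15675 _)
                 (CovZ.leaf K3_ok TD_l15676 _)))
               (CovZ.n1 (25512, 28536) (by decide +kernel)
                (CovZ.leaf K3_ok TD_l5640 _)
                (CovZ.leaf K2_ok TD_l5641 _))))))
           (CovZ.subM 242833611528216133864932738352939863330300854881517440156476551217363035650651062272 (by decide +kernel)
            (CovZ.n1 (25440, 28416) (by decide +kernel)
             (CovZ.badM (by decide +kernel))
             (CovZ.n1 (25488, 28464) (by decide +kernel)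
              (CovZ.n2 (25488, 28416) (by decide +kernel)
               (CovZ.n2 (25464, 28440) (by decide +kernel)
                (CovZ.n2 (25488, 28440) (by decide +kernel)
                 (CovZ.badM (by decide +kernel))
                 (CovZ.leaf K3_ok TD_l18289 _))
                (CovZ.badM (by decide +kernel)))
               (CovZ.n1 (25512, 28440) (by decide +kernel)
                (CovZ.n2 (25512, 28416) (by decide +kernel)
                 (CovZ.leaf K3_ok TD_l18290 _)
                 (CovZ.leaf K3_ok TD_l18291 _))
                (CovZ.leaf K3_ok TD_l18292 _)))
              (CovZ.n1 (25440, 28464) (by decide +kernel)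
               (CovZ.n2 (25464, 28488) (by decide +kernel)
                (CovZ.n2 (25464, 28464) (by decide +kernel)
                 (CovZ.leaf K3_ok TD_l18293 _)
                 (CovZ.leaf K3_ok TD_l18294 _))
                (CovZ.leaf K3_ok TD_l18295 _))
               (CovZ.leaf K3_ok TD_l18296 _))))))
          (CovZ.n1 (25632, 28512) (by decide +kernel)
           (CovZ.n2 (25632, 28416) (by decide +kernel)
            (CovZ.subM 260740605213647830570577181981333142967527817719540695154393787441733521906246629877501394944 (by decide +kernel)
             (CovZ.n2 (25584, 28464) (by decide +kernel)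
              (CovZ.n2 (25632, 28464) (by decide +kernel)
               (CovZ.n2 (25608, 28440) (by decide +kernel)
                (CovZ.leaf K2_ok TD_l5642 _)
                (CovZ.leaf K2_ok TD_l5643 _))
               (CovZ.leaf K2_ok TD_l5644 _))
              (CovZ.subM 260740605213647830570577181981333142967527817719540694984211065606396011553531047006611439616 (by decide +kernel)
               (CovZ.n1 (25584, 28416) (by decide +kernel)
                (CovZ.n2 (25560, 28440) (by decide +kernel)
                 (CovZ.n2 (25584, 28440) (by decide +kernel)
                  (CovZ.leaf K3_ok TD_l15677 _)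
                  (CovZ.leaf K2_ok TD_l15678 _))
                 (CovZ.n1 (25560, 28416) (by decide +kernel)
                  (CovZ.leaf K3_ok TD_l15679 _)
                  (CovZ.leaf K3_ok TD_l15680 _)))
                (CovZ.n1 (25608, 28440) (by decide +kernel)
                 (CovZ.leaf K3_ok TD_l5645 _)
                 (CovZ.leaf K2_ok TD_l5646 _))))))
            (CovZ.n1 (25680, 28464) (by decide +kernel)
             (CovZ.n2 (25680, 28416) (by decide +kernel)
              (CovZ.n2 (25656, 28440) (by decide +kernel)
               (CovZ.leaf K2_ok TD_l5647 _)
               (CovZ.leaf K2_ok TD_l5648 _))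
              (CovZ.leaf K2_ok TD_l5649 _))
             (CovZ.leaf K3_ok TD_l5650 _)))
           (CovZ.subM 260740605213647830570577181981333142967527817719540695154393787441733521906246629877501394944 (by decide +kernel)
            (CovZ.n1 (25536, 28512) (by decide +kernel)
             (CovZ.n2 (25584, 28560) (by decide +kernel)
              (CovZ.n2 (25584, 28512) (by decide +kernel)
               (CovZ.leaf K3_ok TD_l5651 _)
               (CovZ.leaf K3_ok TD_l5652 _))
              (CovZ.leaf K3_ok TD_l5653 _))
             (CovZ.n1 (25584, 28464) (by decide +kernel)
              (CovZ.n2 (25536, 28464) (by decide +kernel)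
               (CovZ.n2 (25560, 28488) (by decide +kernel)
                (CovZ.leaf K2_ok TD_l15681 _)
                (CovZ.leaf K2_ok TD_l5654 _))
               (CovZ.leaf K3_ok TD_l15682 _))
              (CovZ.n1 (25584, 28512) (by decide +kernel)
               (CovZ.leaf K2_ok TD_l5655 _)
               (CovZ.n1 (25560, 28488) (by decide +kernel)
                (CovZ.leaf K3_ok TD_l5656 _)
                (CovZ.leaf K2_ok TD_l5657 _))))))))))
       (CovZ.n1 (25920, 28608) (by decide +kernel)
        (CovZ.n2 (25920, 28416) (by decide +kernel)
         (CovZ.subM 534257499585441168429329537418505500580532109826052839766804856342395953278175807949924664082432 (by decide +kernel)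
          (CovZ.n2 (25824, 28512) (by decide +kernel)
           (CovZ.n2 (25920, 28512) (by decide +kernel)
            (CovZ.n2 (25872, 28464) (by decide +kernel)
             (CovZ.leaf K3_ok TD_l5658 _)
             (CovZ.leaf K2_ok TD_l5659 _))
            (CovZ.n1 (25872, 28560) (by decide +kernel)
             (CovZ.leaf K2_ok TD_l5660 _)
             (CovZ.leaf K2_ok TD_l5661 _)))
           (CovZ.n1 (25824, 28416) (by decide +kernel)
            (CovZ.n2 (25776, 28464) (by decide +kernel)
             (CovZ.n2 (25824, 28464) (by decide +kernel)
              (CovZ.leaf K2_ok TD_l5662 _)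
              (CovZ.leaf K3_ok TD_l5663 _))
             (CovZ.n1 (25776, 28416) (by decide +kernel)
              (CovZ.leaf K3_ok TD_l5664 _)
              (CovZ.leaf K3_ok TD_l5665 _)))
            (CovZ.n1 (25872, 28464) (by decide +kernel)
             (CovZ.n2 (25872, 28416) (by decide +kernel)
              (CovZ.leaf K2_ok TD_l5666 _)
              (CovZ.leaf K2_ok TD_l5667 _))
             (CovZ.leaf K2_ok TD_l5668 _)))))
         (CovZ.n1 (26016, 28512) (by decide +kernel)
          (CovZ.n2 (26016, 28416) (by decide +kernel)
           (CovZ.n2 (25968, 28464) (by decide +kernel)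
            (CovZ.leaf K2_ok TD_l5669 _)
            (CovZ.leaf K2_ok TD_l5670 _))
           (CovZ.n1 (26064, 28464) (by decide +kernel)
            (CovZ.leaf K2_ok TD_l5671 _)
            (CovZ.leaf K2_ok TD_l5672 _)))
          (CovZ.n1 (25920, 28512) (by decide +kernel)
           (CovZ.n2 (25968, 28560) (by decide +kernel)
            (CovZ.leaf K2_ok TD_l5673 _)
            (CovZ.leaf K2_ok TD_l5674 _))
           (CovZ.leaf K2_ok TD_l5675 _))))
        (CovZ.subM 534257499585441168429329537418505500580532109826052839766804856342395953278175812453524291452928 (by decide +kernel)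
         (CovZ.n1 (25728, 28608) (by decide +kernel)
          (CovZ.n2 (25824, 28704) (by decide +kernel)
           (CovZ.n2 (25824, 28608) (by decide +kernel)
            (CovZ.n2 (25776, 28656) (by decide +kernel)
             (CovZ.leaf K3_ok TD_l5676 _)
             (CovZ.leaf K2_ok TD_l5677 _))
            (CovZ.n1 (25872, 28656) (by decide +kernel)
             (CovZ.leaf K2_ok TD_l5678 _)
             (CovZ.leaf K3_ok TD_l5679 _)))
           (CovZ.n1 (25728, 28704) (by decide +kernel)
            (CovZ.n2 (25776, 28752) (by decide +kernel)
             (CovZ.leaf K2_ok TD_l5680 _)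
             (CovZ.leaf K3_ok TD_l5681 _))
            (CovZ.leaf K2_ok TD_l5682 _)))
          (CovZ.n1 (25824, 28512) (by decide +kernel)
           (CovZ.n2 (25728, 28512) (by decide +kernel)
            (CovZ.n2 (25776, 28560) (by decide +kernel)
             (CovZ.n2 (25776, 28512) (by decide +kernel)
              (CovZ.leaf K3_ok TD_l5683 _)
              (CovZ.leaf K3_ok TD_l5684 _))
             (CovZ.leaf K2_ok TD_l5685 _))
            (CovZ.leaf K3_ok TD_l5686 _))
           (CovZ.n1 (25824, 28608) (by decide +kernel)
            (CovZ.leaf K3_ok TD_l5687 _)
            (CovZ.n1 (25776, 28560) (by decide +kernel)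
             (CovZ.leaf K3_ok TD_l5688 _)
             (CovZ.leaf K2_ok TD_l5689 _))))))))

theorem TD_u150 : CovZ TD_M (toL (selN TD_LN 71671832283963530611089997296209901883905431517329306690001819881493054166035848905081649119717156454672)) [0, 7, 6, 1] (26112, 29184) (25344, 28416) (26112, 27648) :=
    (CovZ.n2 (26112, 28416) (by decide +kernel)
     (CovZ.n2 (25728, 28032) (by decide +kernel)
      (CovZ.n2 (25728, 28416) (by decide +kernel)
       (CovZ.n2 (25920, 28224) (by decide +kernel)
        (CovZ.subM 260740605213647830574110876117471929855979236889647280039137474857882169524019187060102397952 (by decide +kernel)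
         (CovZ.n2 (25728, 28224) (by decide +kernel)
          (CovZ.n2 (25824, 28320) (by decide +kernel)
           (CovZ.n2 (25824, 28224) (by decide +kernel)
            (CovZ.n2 (25776, 28272) (by decide +kernel)
             (CovZ.n2 (25824, 28272) (by decide +kernel)
              (CovZ.n2 (25800, 28248) (by decide +kernel)
               (CovZ.leaf K2_ok TD_l5444 _)
               (CovZ.leaf K3_ok TD_l5445 _))
              (CovZ.leaf K2_ok TD_l5446 _))
             (CovZ.n1 (25776, 28224) (by decide +kernel)
              (CovZ.n2 (25752, 28248) (by decide +kernel)
               (CovZ.leaf K2_ok TD_l5447 _)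
               (CovZ.leaf K2_ok TD_l5448 _))
              (CovZ.n1 (25800, 28248) (by decide +kernel)
               (CovZ.leaf K2_ok TD_l5449 _)
               (CovZ.leaf K3_ok TD_l5450 _))))
            (CovZ.n1 (25872, 28272) (by decide +kernel)
             (CovZ.n2 (25872, 28224) (by decide +kernel)
              (CovZ.leaf K2_ok TD_l5451 _)
              (CovZ.leaf K3_ok TD_l5452 _))
             (CovZ.leaf K3_ok TD_l5453 _)))
           (CovZ.n1 (25728, 28320) (by decide +kernel)
            (CovZ.n2 (25776, 28368) (by decide +kernel)
             (CovZ.n2 (25776, 28320) (by decide +kernel)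
              (CovZ.n2 (25752, 28344) (by decide +kernel)
               (CovZ.leaf K3_ok TD_l5454 _)
               (CovZ.leaf K2_ok TD_l5455 _))
              (CovZ.n1 (25800, 28344) (by decide +kernel)
               (CovZ.leaf K2_ok TD_l5456 _)
               (CovZ.leaf K3_ok TD_l5457 _)))
             (CovZ.leaf K2_ok TD_l5458 _))
            (CovZ.n1 (25776, 28272) (by decide +kernel)
             (CovZ.n2 (25728, 28272) (by decide +kernel)
              (CovZ.n2 (25752, 28296) (by decide +kernel)
               (CovZ.leaf K2_ok TD_l5459 _)
               (CovZ.leaf K2_ok TD_l5460 _))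
              (CovZ.leaf K2_ok TD_l5461 _))
             (CovZ.n1 (25776, 28320) (by decide +kernel)
              (CovZ.leaf K2_ok TD_l5462 _)
              (CovZ.n1 (25752, 28296) (by decide +kernel)
               (CovZ.leaf K3_ok TD_l5463 _)
               (CovZ.leaf K2_ok TD_l5464 _))))))
          (CovZ.n1 (25824, 28128) (by decide +kernel)
           (CovZ.n2 (25728, 28128) (by decide +kernel)
            (CovZ.n2 (25776, 28176) (by decide +kernel)
             (CovZ.n2 (25776, 28128) (by decide +kernel)
              (CovZ.n2 (25752, 28152) (by decide +kernel)
               (CovZ.leaf K2_ok TD_l5465 _)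
               (CovZ.n1 (25752, 28128) (by decide +kernel)
                (CovZ.leaf K2_ok TD_l15476 _)
                (CovZ.leaf K2_ok TD_l15477 _)))
              (CovZ.n1 (25800, 28152) (by decide +kernel)
               (CovZ.leaf K3_ok TD_l5466 _)
               (CovZ.leaf K2_ok TD_l5467 _)))
             (CovZ.subM 260740605213647830574110876110889911626694412721027403138725351002613715708769284735818006528 (by decide +kernel)
              (CovZ.n1 (25728, 28176) (by decide +kernel)
               (CovZ.n2 (25752, 28200) (by decide +kernel)
                (CovZ.n2 (25752, 28176) (by decide +kernel)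
                 (CovZ.leaf K3_ok TD_l15478 _)
                 (CovZ.leaf K2_ok TD_l15479 _))
                (CovZ.leaf K3_ok TD_l15480 _))
               (CovZ.leaf K2_ok TD_l5468 _))))
            (CovZ.n1 (25776, 28080) (by decide +kernel)
             (CovZ.subM 260740604970814219045894742245957173273754549390726374011368399393085217277146331055357165568 (by decide +kernel)
              (CovZ.n2 (25728, 28080) (by decide +kernel)
               (CovZ.n2 (25752, 28104) (by decide +kernel)
                (CovZ.n2 (25752, 28080) (by decide +kernel)
                 (CovZ.leaf K2_ok TD_l15481 _)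
                 (CovZ.leaf K2_ok TD_l15482 _))
                (CovZ.leaf K3_ok TD_l15483 _))
               (CovZ.n1 (25752, 28056) (by decide +kernel)
                (CovZ.leaf K2_ok TD_l15484 _)
                (CovZ.leaf K2_ok TD_l15485 _))))
             (CovZ.n1 (25776, 28128) (by decide +kernel)
              (CovZ.leaf K2_ok TD_l5469 _)
              (CovZ.n1 (25752, 28104) (by decide +kernel)
               (CovZ.leaf K2_ok TD_l15486 _)
               (CovZ.leaf K2_ok TD_l5470 _)))))
           (CovZ.n1 (25824, 28224) (by decide +kernel)
            (CovZ.n2 (25872, 28176) (by decide +kernel)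
             (CovZ.n2 (25824, 28176) (by decide +kernel)
              (CovZ.n2 (25848, 28200) (by decide +kernel)
               (CovZ.leaf K2_ok TD_l5471 _)
               (CovZ.leaf K2_ok TD_l5472 _))
              (CovZ.leaf K2_ok TD_l5473 _))
             (CovZ.n1 (25872, 28224) (by decide +kernel)
              (CovZ.leaf K2_ok TD_l5474 _)
              (CovZ.n1 (25848, 28200) (by decide +kernel)
               (CovZ.leaf K2_ok TD_l5475 _)
               (CovZ.leaf K2_ok TD_l5476 _))))
            (CovZ.n1 (25776, 28176) (by decide +kernel)
             (CovZ.n2 (25776, 28224) (by decide +kernel)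
              (CovZ.leaf K2_ok TD_l5477 _)
              (CovZ.n1 (25752, 28200) (by decide +kernel)
               (CovZ.leaf K2_ok TD_l15487 _)
               (CovZ.leaf K2_ok TD_l15488 _)))
             (CovZ.n1 (25824, 28176) (by decide +kernel)
              (CovZ.n2 (25800, 28152) (by decide +kernel)
               (CovZ.leaf K2_ok TD_l5478 _)
               (CovZ.leaf K2_ok TD_l5479 _))
              (CovZ.n1 (25800, 28200) (by decide +kernel)
               (CovZ.leaf K2_ok TD_l5480 _)
               (CovZ.leaf K2_ok TD_l15489 _))))))))
        (CovZ.n1 (25920, 28416) (by decide +kernel)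
         (CovZ.n2 (26016, 28320) (by decide +kernel)
          (CovZ.subM 534257499585441168429329537418505500580532109826052839766804856342395953278175807949907483951104 (by decide +kernel)
           (CovZ.n2 (25920, 28320) (by decide +kernel)
            (CovZ.n2 (25968, 28368) (by decide +kernel)
             (CovZ.n2 (25968, 28320) (by decide +kernel)
              (CovZ.leaf K2_ok TD_l5481 _)
              (CovZ.leaf K3_ok TD_l5482 _))
             (CovZ.leaf K2_ok TD_l5483 _))
            (CovZ.leaf K2_ok TD_l5484 _)))
          (CovZ.n1 (26016, 28416) (by decide +kernel)
           (CovZ.leaf K2_ok TD_l5485 _)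
           (CovZ.n1 (25968, 28368) (by decide +kernel)
            (CovZ.leaf K3_ok TD_l5486 _)
            (CovZ.leaf K2_ok TD_l5487 _))))
         (CovZ.subM 534257499585441168429329537418505500580532109826052839766804856342395953278175807949907483951104 (by decide +kernel)
          (CovZ.n1 (25824, 28320) (by decide +kernel)
           (CovZ.n2 (25824, 28416) (by decide +kernel)
            (CovZ.leaf K3_ok TD_l5488 _)
            (CovZ.n1 (25776, 28368) (by decide +kernel)
             (CovZ.leaf K2_ok TD_l5489 _)
             (CovZ.n1 (25824, 28368) (by decide +kernel)
              (CovZ.leaf K2_ok TD_l5490 _)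
              (CovZ.leaf K2_ok TD_l5491 _))))
           (CovZ.n1 (25920, 28320) (by decide +kernel)
            (CovZ.n2 (25872, 28272) (by decide +kernel)
             (CovZ.n2 (25872, 28320) (by decide +kernel)
              (CovZ.leaf K2_ok TD_l5492 _)
              (CovZ.leaf K3_ok TD_l5493 _))
             (CovZ.n1 (25920, 28272) (by decide +kernel)
              (CovZ.leaf K2_ok TD_l5494 _)
              (CovZ.leaf K3_ok TD_l5495 _)))
            (CovZ.n1 (25872, 28368) (by decide +kernel)
             (CovZ.n2 (25920, 28368) (by decide +kernel)
              (CovZ.leaf K2_ok TD_l5496 _)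
              (CovZ.leaf K3_ok TD_l5497 _))
             (CovZ.n1 (25872, 28320) (by decide +kernel)
              (CovZ.leaf K2_ok TD_l5498 _)
              (CovZ.leaf K3_ok TD_l5499 _))))))))
       (CovZ.subM 71671831749950475343051800808764327776010127841364764353689298510880477352623032421712098971751530102784 (by decide +kernel)
        (CovZ.n1 (25536, 28224) (by decide +kernel)
         TD_u142
         TD_u143)))
      (CovZ.n1 (26112, 28032) (by decide +kernel)
       TD_u146
       TD_u147))
     (CovZ.n1 (25728, 28800) (by decide +kernel)
      TD_u148
      TD_u149))

theorem TD_u151 : CovZ TD_M (toL (selN TD_LN 71671832283963530611089997296209901883905431517329306690001819881493054166035848905081649119717156454672)) [0, 7, 6, 1] (25344, 28416) (24576, 27648) (26112, 27648) :=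
    (CovZ.subM 260740604970814219045894742252539191503039373559346424966169664933509463432212625711682289664 (by decide +kernel)
     (CovZ.n1 (25344, 27648) (by decide +kernel)
      (CovZ.badM (by decide +kernel))
      (CovZ.n1 (25728, 28032) (by decide +kernel)
       (CovZ.subM 260740604970814219045894742252539191503039373559345553843310347331042997193217600384791478272 (by decide +kernel)
        (CovZ.n2 (25728, 27648) (by decide +kernel)
         (CovZ.n2 (25536, 27840) (by decide +kernel)
          (CovZ.n2 (25728, 27840) (by decide +kernel)
           (CovZ.badM (by decide +kernel))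
           (CovZ.n1 (25632, 27936) (by decide +kernel)
            (CovZ.n2 (25728, 27936) (by decide +kernel)
             (CovZ.badM (by decide +kernel))
             (CovZ.n1 (25680, 27984) (by decide +kernel)
              (CovZ.n2 (25728, 27984) (by decide +kernel)
               (CovZ.badM (by decide +kernel))
               (CovZ.n1 (25704, 28008) (by decide +kernel)
                (CovZ.n2 (25728, 28008) (by decide +kernel)
                 (CovZ.badM (by decide +kernel))
                 (CovZ.n1 (25716, 28020) (by decide +kernel)
                  (CovZ.leaf K3_ok TD_l18297 _)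
                  (CovZ.n1 (25716, 28008) (by decide +kernel)
                   (CovZ.leaf K2_ok TD_l18298 _)
                   (CovZ.leaf K3_ok TD_l18299 _))))
                (CovZ.badM (by decide +kernel))))
              (CovZ.badM (by decide +kernel))))
            (CovZ.badM (by decide +kernel))))
          (CovZ.badM (by decide +kernel)))
         (CovZ.n1 (25920, 27840) (by decide +kernel)
          (CovZ.badM (by decide +kernel))
          (CovZ.n1 (25728, 27840) (by decide +kernel)
           (CovZ.n2 (25824, 27936) (by decide +kernel)
            (CovZ.badM (by decide +kernel))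
            (CovZ.n1 (25728, 27936) (by decide +kernel)
             (CovZ.n2 (25776, 27984) (by decide +kernel)
              (CovZ.badM (by decide +kernel))
              (CovZ.n1 (25728, 27984) (by decide +kernel)
               (CovZ.n2 (25752, 28008) (by decide +kernel)
                (CovZ.badM (by decide +kernel))
                (CovZ.n1 (25728, 28008) (by decide +kernel)
                 (CovZ.leaf K3_ok TD_l18300 _)
                 (CovZ.badM (by decide +kernel))))
               (CovZ.badM (by decide +kernel))))
             (CovZ.badM (by decide +kernel))))
           (CovZ.badM (by decide +kernel))))))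
       (CovZ.subM 260740604970814219045894742245957173273754549390726548235940262913578510524945336120681431040 (by decide +kernel)
        (CovZ.n1 (25344, 28032) (by decide +kernel)
         (CovZ.n2 (25536, 28224) (by decide +kernel)
          (CovZ.n2 (25536, 28032) (by decide +kernel)
           (CovZ.badM (by decide +kernel))
           (CovZ.n1 (25632, 28128) (by decide +kernel)
            (CovZ.n2 (25632, 28032) (by decide +kernel)
             (CovZ.badM (by decide +kernel))
             (CovZ.n1 (25680, 28080) (by decide +kernel)
              (CovZ.n2 (25680, 28032) (by decide +kernel)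
               (CovZ.n2 (25656, 28056) (by decide +kernel)
                (CovZ.n2 (25680, 28056) (by decide +kernel)
                 (CovZ.n2 (25668, 28044) (by decide +kernel)
                  (CovZ.leaf K2_ok TD_l18301 _)
                  (CovZ.leaf K2_ok TD_l18302 _))
                 (CovZ.n1 (25668, 28068) (by decide +kernel)
                  (CovZ.n2 (25680, 28068) (by decide +kernel)
                   (CovZ.leaf K3_ok TD_l18303 _)
                   (CovZ.leaf K2_ok TD_l18304 _))
                  (CovZ.n1 (25668, 28056) (by decide +kernel)
                   (CovZ.leaf K2_ok TD_l18305 _)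
                   (CovZ.leaf K3_ok TD_l18306 _))))
                (CovZ.n1 (25656, 28032) (by decide +kernel)
                 (CovZ.badM (by decide +kernel))
                 (CovZ.n1 (25668, 28044) (by decide +kernel)
                  (CovZ.leaf K2_ok TD_l18307 _)
                  (CovZ.leaf K3_ok TD_l18308 _))))
               (CovZ.n1 (25704, 28056) (by decide +kernel)
                (CovZ.n2 (25704, 28032) (by decide +kernel)
                 (CovZ.n2 (25692, 28044) (by decide +kernel)
                  (CovZ.leaf K3_ok TD_l18309 _)
                  (CovZ.n1 (25692, 28032) (by decide +kernel)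
                   (CovZ.leaf K3_ok TD_l18310 _)
                   (CovZ.leaf K3_ok TD_l18311 _)))
                 (CovZ.n1 (25716, 28044) (by decide +kernel)
                  (CovZ.leaf K2_ok TD_l15683 _)
                  (CovZ.leaf K3_ok TD_l18312 _)))
                (CovZ.n1 (25680, 28056) (by decide +kernel)
                 (CovZ.n2 (25692, 28068) (by decide +kernel)
                  (CovZ.leaf K2_ok TD_l18313 _)
                  (CovZ.leaf K2_ok TD_l18314 _))
                 (CovZ.leaf K3_ok TD_l18315 _))))
              (CovZ.n1 (25632, 28080) (by decide +kernel)
               (CovZ.n2 (25656, 28104) (by decide +kernel)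
                (CovZ.n2 (25656, 28080) (by decide +kernel)
                 (CovZ.badM (by decide +kernel))
                 (CovZ.n1 (25668, 28092) (by decide +kernel)
                  (CovZ.leaf K2_ok TD_l18316 _)
                  (CovZ.leaf K3_ok TD_l18317 _)))
                (CovZ.badM (by decide +kernel)))
               (CovZ.n1 (25656, 28056) (by decide +kernel)
                (CovZ.badM (by decide +kernel))
                (CovZ.n1 (25656, 28080) (by decide +kernel)
                 (CovZ.leaf K3_ok TD_l18318 _)
                 (CovZ.badM (by decide +kernel)))))))
            (CovZ.badM (by decide +kernel))))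
          (CovZ.badM (by decide +kernel)))
         (CovZ.n1 (25536, 27840) (by decide +kernel)
          (CovZ.badM (by decide +kernel))
          (CovZ.n1 (25536, 28032) (by decide +kernel)
           (CovZ.n2 (25632, 27936) (by decide +kernel)
            (CovZ.badM (by decide +kernel))
            (CovZ.n1 (25632, 28032) (by decide +kernel)
             (CovZ.n2 (25680, 27984) (by decide +kernel)
              (CovZ.badM (by decide +kernel))
              (CovZ.n1 (25680, 28032) (by decide +kernel)
               (CovZ.n2 (25704, 28008) (by decide +kernel)
                (CovZ.badM (by decide +kernel))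
                (CovZ.n1 (25704, 28032) (by decide +kernel)
                 (CovZ.leaf K2_ok TD_l18319 _)
                 (CovZ.n1 (25692, 28020) (by decide +kernel)
                  (CovZ.leaf K3_ok TD_l18320 _)
                  (CovZ.leaf K3_ok TD_l18321 _))))
               (CovZ.badM (by decide +kernel))))
             (CovZ.badM (by decide +kernel))))
           (CovZ.badM (by decide +kernel)))))))))

end Pool.Agent.TET
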