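import Pool.Agent.Helper38_TET.TD_M
import Pool.Agent.Helper38_TET.TD_L
import Pool.Agent.Helper38_TET.TD_9
import Pool.Agent.Helper38_TET.TD_10
import Pool.Agent.Helper38_TET.TD_22
import Pool.Agent.Helper38_TET.TD_23
import Pool.Agent.Helper38_TET.TD_37
import Pool.Agent.Helper38_TET.TD_38
import Pool.Agent.Helper38_TET.TD_48
import Pool.Agent.Helper38_TET.TD_49
import Pool.Agent.Helper38_TET.TD_50
import Pool.Agent.Helper38_TET.TD_51
import Pool.Agent.Helper38_TET.TD_52
import Pool.Agent.Helper38_TET.TD_61
import Pool.Agent.Helper38_TET.TD_62
import Pool.Agent.Helper38_TET.TD_64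
import Pool.Agent.Helper38_TET.TD_65
import Pool.Agent.Helper38_TET.TD_79
import Pool.Agent.Helper38_TET.TD_90
import Pool.Agent.Helper38_TET.TD_91
import Pool.Agent.Helper38_TET.TD_92
import Pool.Agent.Helper38_TET.TD_93
import Pool.Agent.Helper38_TET.TD_105
import Pool.Agent.Helper38_TET.TD_113
import Pool.Agent.Helper38_TET.TD_114
import Pool.Agent.Helper38_TET.TD_118
import Pool.Agent.Helper38_TET.TD_119
import Pool.Agent.Helper38_TET.TD_123
import Pool.Agent.Helper38_TET.TD_124
import Pool.Agent.Helper38_TET.TD_127
import Pool.Agent.Helper38_TET.TD_U10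
import Pool.Agent.Helper38_TET.TD_U7
import Pool.Agent.Helper38_TET.TD_U8
import Pool.Agent.Helper38_TET.TD_U9

/-!
# MP_c7c9bf_co: certificates, family TD
-/

set_option autoImplicit false
set_option maxRecDepth 100000

namespace Pool.Agent.TET

theorem TD_s5_9 : SqZ TD_M TD_L [0, 7, 6, 1] 18432 12288 1536 5 9 :=
  SqZ.mk (a := 26112) (b := 27648) (c := 26112) (d := 27648) (by norm_num) (by norm_num) (by norm_num) (by norm_num)
    (CovZ.topM TD_LL 18347989474737427246970606375599898564514246012124252006949576675793908473136173778354493445438449524936722 (by decide +kernel) (CovZ.n2 (26880, 26880) (by decide +kernel)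
    (CovZ.n2 (27648, 26880) (by decide +kernel)
     (CovZ.badM (by decide +kernel))
     (CovZ.n1 (27264, 27264) (by decide +kernel)
      (CovZ.n2 (27648, 27264) (by decide +kernel)
       (CovZ.n2 (27456, 27072) (by decide +kernel)
        (CovZ.n2 (27456, 27264) (by decide +kernel)
         (CovZ.badM (by decide +kernel))
         (CovZ.badM (by decide +kernel)))
        (CovZ.badM (by decide +kernel)))
       (CovZ.n1 (27456, 27456) (by decide +kernel)
        (CovZ.n2 (27648, 27456) (by decide +kernel)
         (CovZ.subM 18347989474737425201977427841335922751568084005219474291669058077984502023098791627627689043920772564779010 (by decide +kernel)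
          (CovZ.n2 (27552, 27360) (by decide +kernel)
           (CovZ.n2 (27552, 27456) (by decide +kernel)
            (CovZ.n2 (27600, 27408) (by decide +kernel)
             (CovZ.n2 (27552, 27408) (by decide +kernel)
              (CovZ.n2 (27576, 27432) (by decide +kernel)
               (CovZ.badM (by decide +kernel))
               (CovZ.leaf K3_ok TD_l16923 _))
              (CovZ.badM (by decide +kernel)))
             (CovZ.n1 (27600, 27456) (by decide +kernel)
              (CovZ.leaf K3_ok TD_l7206 _)
              (CovZ.n1 (27576, 27432) (by decide +kernel)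
               (CovZ.leaf K3_ok TD_l7207 _)
               (CovZ.leaf K3_ok TD_l7208 _))))
            (CovZ.subM 4171913336907302778762521519725395035826210225035517683982608820163699978842006604335221309440 (by decide +kernel)
             (CovZ.n1 (27504, 27408) (by decide +kernel)
              (CovZ.n2 (27504, 27456) (by decide +kernel)
               (CovZ.leaf K3_ok TD_l7209 _)
               (CovZ.n1 (27480, 27432) (by decide +kernel)
                (CovZ.leaf K2_ok TD_l16924 _)
                (CovZ.badM (by decide +kernel))))
              (CovZ.subM 63657374260452690195888927766011651447677907863717537486344395002711037826567573983985664 (by decide +kernel)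
               (CovZ.n1 (27552, 27408) (by decide +kernel)
                (CovZ.badM (by decide +kernel))
                (CovZ.n1 (27528, 27432) (by decide +kernel)
                 (CovZ.n2 (27552, 27432) (by decide +kernel)
                  (CovZ.badM (by decide +kernel))
                  (CovZ.leaf K3_ok TD_l16927 _))
                 (CovZ.badM (by decide +kernel))))))))
           (CovZ.n1 (27648, 27360) (by decide +kernel)
            (CovZ.badM (by decide +kernel))
            (CovZ.n1 (27600, 27408) (by decide +kernel)
             (CovZ.n2 (27648, 27408) (by decide +kernel)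
              (CovZ.badM (by decide +kernel))
              (CovZ.n1 (27624, 27432) (by decide +kernel)
               (CovZ.leaf K2_ok TD_l7210 _)
               (CovZ.leaf K2_ok TD_l16931 _)))
             (CovZ.badM (by decide +kernel))))))
         (CovZ.n1 (27552, 27552) (by decide +kernel)
          (CovZ.n2 (27648, 27552) (by decide +kernel)
           (CovZ.n2 (27600, 27504) (by decide +kernel)
            (CovZ.n2 (27600, 27552) (by decide +kernel)
             (CovZ.leaf K3_ok TD_l7211 _)
             (CovZ.leaf K3_ok TD_l7212 _))
            (CovZ.n1 (27648, 27504) (by decide +kernel)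
             (CovZ.n2 (27624, 27480) (by decide +kernel)
              (CovZ.leaf K3_ok TD_l7213 _)
              (CovZ.leaf K3_ok TD_l7214 _))
             (CovZ.n1 (27624, 27528) (by decide +kernel)
              (CovZ.leaf K3_ok TD_l7215 _)
              (CovZ.leaf K3_ok TD_l7216 _))))
           (CovZ.n1 (27600, 27600) (by decide +kernel)
            (CovZ.n2 (27648, 27600) (by decide +kernel)
             (CovZ.leaf K3_ok TD_l7217 _)
             (CovZ.leaf K3_ok TD_l7218 _))
            (CovZ.n1 (27600, 27552) (by decide +kernel)
             (CovZ.leaf K3_ok TD_l7219 _)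
             (CovZ.leaf K3_ok TD_l7220 _))))
          (CovZ.n1 (27552, 27456) (by decide +kernel)
           (CovZ.subM 4171913336907302807710543862754790208832806276628854548888751460765666706071651380948689223696 (by decide +kernel)
            (CovZ.n2 (27504, 27504) (by decide +kernel)
             (CovZ.n2 (27552, 27504) (by decide +kernel)
              (CovZ.n2 (27528, 27480) (by decide +kernel)
               (CovZ.leaf K3_ok TD_l7221 _)
               (CovZ.leaf K2_ok TD_l7222 _))
              (CovZ.n1 (27528, 27528) (by decide +kernel)
               (CovZ.leaf K3_ok TD_l7223 _)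
               (CovZ.leaf K3_ok TD_l7224 _)))
             (CovZ.n1 (27504, 27456) (by decide +kernel)
              (CovZ.n2 (27480, 27480) (by decide +kernel)
               (CovZ.leaf K3_ok TD_l16932 _)
               (CovZ.n1 (27480, 27456) (by decide +kernel)
                (CovZ.leaf K3_ok TD_l16933 _)
                (CovZ.leaf K2_ok TD_l16934 _)))
              (CovZ.n1 (27528, 27480) (by decide +kernel)
               (CovZ.leaf K3_ok TD_l7225 _)
               (CovZ.leaf K3_ok TD_l7226 _)))))
           (CovZ.n1 (27600, 27504) (by decide +kernel)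
            (CovZ.n2 (27600, 27456) (by decide +kernel)
             (CovZ.n2 (27576, 27480) (by decide +kernel)
              (CovZ.leaf K3_ok TD_l7227 _)
              (CovZ.leaf K3_ok TD_l7228 _))
             (CovZ.leaf K3_ok TD_l7229 _))
            (CovZ.n1 (27552, 27504) (by decide +kernel)
             (CovZ.leaf K3_ok TD_l7230 _)
             (CovZ.leaf K3_ok TD_l7231 _))))))
        (CovZ.subM 18347989474737425138319081301573671487002777956969331656631981604337266830767027099968120264112469966848002 (by decide +kernel)
         (CovZ.n1 (27456, 27264) (by decide +kernel)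
          (CovZ.n2 (27360, 27360) (by decide +kernel)
           (CovZ.subM 4171849679533046031419181224915882578446282825140705271084631776266746530446868289981385801728 (by decide +kernel)
            (CovZ.n2 (27456, 27360) (by decide +kernel)
             (CovZ.subM 18526734277970591267771357601390065256523197546502490246313213441266100742389760 (by decide +kernel)
              (CovZ.n2 (27408, 27312) (by decide +kernel)
               (CovZ.n2 (27408, 27360) (by decide +kernel)
                (CovZ.n2 (27432, 27336) (by decide +kernel)
                 (CovZ.badM (by decide +kernel))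
                 (CovZ.n1 (27432, 27360) (by decide +kernel)
                  (CovZ.badM (by decide +kernel))
                  (CovZ.badM (by decide +kernel))))
                (CovZ.badM (by decide +kernel)))
               (CovZ.n1 (27456, 27312) (by decide +kernel)
                (CovZ.badM (by decide +kernel))
                (CovZ.n1 (27432, 27336) (by decide +kernel)
                 (CovZ.badM (by decide +kernel))
                 (CovZ.badM (by decide +kernel))))))
             (CovZ.n1 (27408, 27408) (by decide +kernel)
              (CovZ.n2 (27456, 27408) (by decide +kernel)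
               (CovZ.subM 4171849679533046031412054740453674245191008660293093964500362142768019215128754840364340215808 (by decide +kernel)
                (CovZ.n2 (27432, 27384) (by decide +kernel)
                 (CovZ.n2 (27432, 27408) (by decide +kernel)
                  (CovZ.leaf K3_ok TD_l16935 _)
                  (CovZ.n1 (27420, 27396) (by decide +kernel)
                   (CovZ.leaf K3_ok TD_l16936 _)
                   (CovZ.leaf K2_ok TD_l16937 _)))
                 (CovZ.badM (by decide +kernel))))
               (CovZ.n1 (27432, 27432) (by decide +kernel)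
                (CovZ.n2 (27456, 27432) (by decide +kernel)
                 (CovZ.leaf K3_ok TD_l16938 _)
                 (CovZ.leaf K2_ok TD_l16939 _))
                (CovZ.n1 (27432, 27408) (by decide +kernel)
                 (CovZ.leaf K2_ok TD_l16940 _)
                 (CovZ.leaf K3_ok TD_l16941 _))))
              (CovZ.subM 4171849679533046031412054740453674245191008660293093964500362142768019215128754840364340215808 (by decide +kernel)
               (CovZ.n1 (27408, 27360) (by decide +kernel)
                (CovZ.n2 (27384, 27384) (by decide +kernel)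
                 (CovZ.n2 (27408, 27384) (by decide +kernel)
                  (CovZ.n2 (27396, 27372) (by decide +kernel)
                   (CovZ.leaf K3_ok TD_l16942 _)
                   (CovZ.badM (by decide +kernel)))
                  (CovZ.n1 (27396, 27396) (by decide +kernel)
                   (CovZ.leaf K3_ok TD_l16943 _)
                   (CovZ.leaf K3_ok TD_l16944 _)))
                 (CovZ.badM (by decide +kernel)))
                (CovZ.n1 (27432, 27384) (by decide +kernel)
                 (CovZ.n2 (27432, 27360) (by decide +kernel)
                  (CovZ.n2 (27420, 27372) (by decide +kernel)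
                   (CovZ.leaf K2_ok TD_l16945 _)
                   (CovZ.badM (by decide +kernel)))
                  (CovZ.badM (by decide +kernel)))
                 (CovZ.n1 (27408, 27384) (by decide +kernel)
                  (CovZ.n2 (27420, 27396) (by decide +kernel)
                   (CovZ.leaf K2_ok TD_l16946 _)
                   (CovZ.leaf K2_ok TD_l16947 _))
                  (CovZ.leaf K2_ok TD_l16948 _))))))))
           (CovZ.badM (by decide +kernel)))
          (CovZ.n1 (27552, 27360) (by decide +kernel)
           (CovZ.badM (by decide +kernel))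
           (CovZ.subM 4171849679533042326072325630797629024174762547127653966445122475768697267804180036761237323776 (by decide +kernel)
            (CovZ.n1 (27456, 27360) (by decide +kernel)
             (CovZ.n2 (27504, 27408) (by decide +kernel)
              (CovZ.badM (by decide +kernel))
              (CovZ.n1 (27456, 27408) (by decide +kernel)
               (CovZ.n2 (27480, 27432) (by decide +kernel)
                (CovZ.n2 (27480, 27408) (by decide +kernel)
                 (CovZ.leaf K2_ok TD_l18454 _)
                 (CovZ.badM (by decide +kernel)))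
                (CovZ.leaf K3_ok TD_l16951 _))
               (CovZ.badM (by decide +kernel))))
             (CovZ.badM (by decide +kernel)))))))))
      (CovZ.badM (by decide +kernel))))
    (CovZ.n1 (26880, 26112) (by decide +kernel)
     (CovZ.badM (by decide +kernel))
     (CovZ.badM (by decide +kernel)))))
    (CovZ.topM TD_LL 18348006972759929206322548428622235810278736324380555132433999241451702434993356201848025531855588968894482 (by decide +kernel) (CovZ.n0 (26880, 26880) (by decide +kernel)
    (CovZ.n2 (26112, 26880) (by decide +kernel)
     (CovZ.n2 (26496, 27264) (by decide +kernel)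
      (CovZ.badM (by decide +kernel))
      (CovZ.badM (by decide +kernel)))
     (CovZ.badM (by decide +kernel)))
    (CovZ.n1 (26880, 27648) (by decide +kernel)
     (CovZ.n2 (27264, 27264) (by decide +kernel)
      TD_u116
      TD_u117)
     (CovZ.subM 16703695007885454799644652186524146670741392709710513279427098351925596229147765867400778481664 (by decide +kernel)
      (CovZ.n1 (26496, 27264) (by decide +kernel)
       (CovZ.n2 (26496, 27648) (by decide +kernel)
        (CovZ.n2 (26688, 27456) (by decide +kernel)
         (CovZ.badM (by decide +kernel))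
         (CovZ.n1 (26688, 27648) (by decide +kernel)
          (CovZ.n2 (26784, 27552) (by decide +kernel)
           (CovZ.badM (by decide +kernel))
           (CovZ.n1 (26784, 27648) (by decide +kernel)
            (CovZ.n2 (26832, 27600) (by decide +kernel)
             (CovZ.badM (by decide +kernel))
             (CovZ.n1 (26832, 27648) (by decide +kernel)
              (CovZ.n2 (26856, 27624) (by decide +kernel)
               (CovZ.n2 (26832, 27624) (by decide +kernel)
                (CovZ.n2 (26844, 27636) (by decide +kernel)
                 (CovZ.leaf K2_ok TD_l17100 _)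
                 (CovZ.leaf K2_ok TD_l17101 _))
                (CovZ.leaf K2_ok TD_l17102 _))
               (CovZ.n1 (26856, 27648) (by decide +kernel)
                (CovZ.leaf K2_ok TD_l17103 _)
                (CovZ.n1 (26844, 27636) (by decide +kernel)
                 (CovZ.leaf K2_ok TD_l17104 _)
                 (CovZ.leaf K2_ok TD_l17105 _))))
              (CovZ.subM 1942668892225729070919461906823518906642406839052471828250758638707130236970278584320 (by decide +kernel)
               (CovZ.n1 (26808, 27624) (by decide +kernel)
                (CovZ.n2 (26808, 27648) (by decide +kernel)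
                 (CovZ.leaf K2_ok TD_l17106 _)
                 (CovZ.n1 (26796, 27636) (by decide +kernel)
                  (CovZ.leaf K2_ok TD_l17107 _)
                  (CovZ.leaf K2_ok TD_l17108 _)))
                (CovZ.n1 (26832, 27624) (by decide +kernel)
                 (CovZ.badM (by decide +kernel))
                 (CovZ.n1 (26820, 27636) (by decide +kernel)
                  (CovZ.leaf K2_ok TD_l17109 _)
                  (CovZ.badM (by decide +kernel))))))))
            (CovZ.badM (by decide +kernel))))
          (CovZ.badM (by decide +kernel))))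
        (CovZ.badM (by decide +kernel)))
       (CovZ.n1 (26880, 27264) (by decide +kernel)
        (CovZ.badM (by decide +kernel))
        (CovZ.n1 (26688, 27456) (by decide +kernel)
         (CovZ.n2 (26880, 27456) (by decide +kernel)
          (CovZ.badM (by decide +kernel))
          (CovZ.n1 (26784, 27552) (by decide +kernel)
           (CovZ.n2 (26880, 27552) (by decide +kernel)
            (CovZ.badM (by decide +kernel))
            (CovZ.n1 (26832, 27600) (by decide +kernel)
             (CovZ.n2 (26880, 27600) (by decide +kernel)
              (CovZ.badM (by decide +kernel))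
              (CovZ.n1 (26856, 27624) (by decide +kernel)
               (CovZ.n2 (26880, 27624) (by decide +kernel)
                (CovZ.n2 (26868, 27612) (by decide +kernel)
                 (CovZ.leaf K2_ok TD_l17110 _)
                 (CovZ.leaf K2_ok TD_l17111 _))
                (CovZ.leaf K2_ok TD_l17112 _))
               (CovZ.subM 16687398718132110018711107079449625895333629080911349765211594868110037836629480248819461390336 (by decide +kernel)
                (CovZ.n1 (26856, 27600) (by decide +kernel)
                 (CovZ.n2 (26844, 27612) (by decide +kernel)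
                  (CovZ.leaf K2_ok TD_l17113 _)
                  (CovZ.badM (by decide +kernel)))
                 (CovZ.n1 (26868, 27612) (by decide +kernel)
                  (CovZ.badM (by decide +kernel))
                  (CovZ.leaf K2_ok TD_l17114 _))))))
             (CovZ.badM (by decide +kernel))))
           (CovZ.badM (by decide +kernel))))
         (CovZ.badM (by decide +kernel)))))))))

theorem TD_s6_9 : SqZ TD_M TD_L [0, 7, 6, 1] 18432 12288 1536 6 9 :=
  SqZ.mk (a := 27648) (b := 29184) (c := 26112) (d := 27648) (by norm_num) (by norm_num) (by norm_num) (by norm_num)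
    (CovZ.topM TD_LL 31105995667386630097881233652789844518814710051382656902555082101801552669819752925014883993128855504687122 (by decide +kernel) (CovZ.n2 (28416, 26880) (by decide +kernel)
    (CovZ.subM 10321024457773116968717031851352377250495215710229168916201032372590725300687521609032716310054454265647122 (by decide +kernel)
     (CovZ.n2 (29184, 26880) (by decide +kernel)
      (CovZ.subM 1146749478873998629485987774107232569967701140633345868879898636777982026398394733364657870991744008978448 (by decide +kernel)
       (CovZ.n2 (28800, 26496) (by decide +kernel)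
        TD_u118
        TD_u119))
      (CovZ.n1 (28800, 27264) (by decide +kernel)
       (CovZ.n2 (29184, 27264) (by decide +kernel)
        (CovZ.subM 1147029959637038347538944118211630985731082585400308264149909129627086839746829684109943921621163581116432 (by decide +kernel)
         (CovZ.n2 (28992, 27072) (by decide +kernel)
          (CovZ.n2 (28992, 27264) (by decide +kernel)
           (CovZ.n2 (29088, 27168) (by decide +kernel)
            (CovZ.n2 (28992, 27168) (by decide +kernel)
             (CovZ.n2 (29040, 27216) (by decide +kernel)
              (CovZ.leaf K2_ok TD_l9220 _)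
              (CovZ.leaf K2_ok TD_l9221 _))
             (CovZ.leaf K3_ok TD_l9222 _))
            (CovZ.n1 (29088, 27264) (by decide +kernel)
             (CovZ.leaf K2_ok TD_l9223 _)
             (CovZ.n1 (29040, 27216) (by decide +kernel)
              (CovZ.leaf K2_ok TD_l9224 _)
              (CovZ.leaf K2_ok TD_l9225 _))))
           (CovZ.n1 (28896, 27168) (by decide +kernel)
            (CovZ.n2 (28896, 27264) (by decide +kernel)
             (CovZ.leaf K2_ok TD_l9226 _)
             (CovZ.n1 (28848, 27216) (by decide +kernel)
              (CovZ.leaf K2_ok TD_l9227 _)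
              (CovZ.leaf K2_ok TD_l9228 _)))
            (CovZ.n1 (28992, 27168) (by decide +kernel)
             (CovZ.n2 (28944, 27120) (by decide +kernel)
              (CovZ.leaf K2_ok TD_l9229 _)
              (CovZ.leaf K2_ok TD_l9230 _))
             (CovZ.n1 (28944, 27216) (by decide +kernel)
              (CovZ.leaf K2_ok TD_l9231 _)
              (CovZ.leaf K2_ok TD_l9232 _)))))
          (CovZ.n1 (29184, 27072) (by decide +kernel)
           (CovZ.n2 (29088, 26976) (by decide +kernel)
            (CovZ.n2 (29088, 27072) (by decide +kernel)
             (CovZ.leaf K3_ok TD_l9233 _)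
             (CovZ.n1 (29040, 27024) (by decide +kernel)
              (CovZ.leaf K3_ok TD_l9234 _)
              (CovZ.n1 (29088, 27024) (by decide +kernel)
               (CovZ.leaf K3_ok TD_l9235 _)
               (CovZ.leaf K3_ok TD_l9236 _))))
            (CovZ.n1 (29184, 26976) (by decide +kernel)
             (CovZ.n2 (29136, 26928) (by decide +kernel)
              (CovZ.leaf K3_ok TD_l9237 _)
              (CovZ.n1 (29184, 26928) (by decide +kernel)
               (CovZ.leaf K3_ok TD_l9238 _)
               (CovZ.leaf K3_ok TD_l9239 _)))
             (CovZ.n1 (29136, 27024) (by decide +kernel)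
              (CovZ.leaf K3_ok TD_l9240 _)
              (CovZ.leaf K3_ok TD_l9241 _))))
           (CovZ.n1 (29088, 27168) (by decide +kernel)
            (CovZ.n2 (29184, 27168) (by decide +kernel)
             (CovZ.n2 (29136, 27120) (by decide +kernel)
              (CovZ.leaf K3_ok TD_l9242 _)
              (CovZ.leaf K3_ok TD_l9243 _))
             (CovZ.n1 (29136, 27216) (by decide +kernel)
              (CovZ.leaf K3_ok TD_l9244 _)
              (CovZ.leaf K3_ok TD_l9245 _)))
            (CovZ.n1 (29088, 27072) (by decide +kernel)
             (CovZ.n2 (29040, 27120) (by decide +kernel)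
              (CovZ.leaf K3_ok TD_l9246 _)
              (CovZ.leaf K3_ok TD_l9247 _))
             (CovZ.n1 (29136, 27120) (by decide +kernel)
              (CovZ.leaf K3_ok TD_l9248 _)
              (CovZ.leaf K3_ok TD_l9249 _)))))))
        (CovZ.n1 (28992, 27456) (by decide +kernel)
         (CovZ.subM 683549230366207456764596985992716693324189925411282477763224262557446050849343978001640847339687954 (by decide +kernel)
          (CovZ.n2 (29184, 27456) (by decide +kernel)
           (CovZ.n2 (29088, 27360) (by decide +kernel)
            (CovZ.leaf K2_ok TD_l9250 _)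
            (CovZ.n1 (29184, 27360) (by decide +kernel)
             (CovZ.leaf K3_ok TD_l9251 _)
             (CovZ.leaf K3_ok TD_l9252 _)))
           (CovZ.n1 (29088, 27552) (by decide +kernel)
            (CovZ.n2 (29184, 27552) (by decide +kernel)
             (CovZ.leaf K2_ok TD_l9253 _)
             (CovZ.leaf K2_ok TD_l9254 _))
            (CovZ.n1 (29088, 27456) (by decide +kernel)
             (CovZ.leaf K2_ok TD_l9255 _)
             (CovZ.leaf K2_ok TD_l9256 _)))))
         (CovZ.n1 (28992, 27264) (by decide +kernel)
          (CovZ.subM 1147029959637038347538944118211630985731082585400308264149909129627086839746829684128833387552642161446930 (by decide +kernel)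
           (CovZ.n2 (28896, 27360) (by decide +kernel)
            (CovZ.n2 (28992, 27360) (by decide +kernel)
             (CovZ.leaf K2_ok TD_l9257 _)
             (CovZ.leaf K2_ok TD_l9258 _))
            (CovZ.n1 (28896, 27264) (by decide +kernel)
             (CovZ.leaf K2_ok TD_l9259 _)
             (CovZ.leaf K2_ok TD_l9260 _))))
          (CovZ.n1 (29088, 27360) (by decide +kernel)
           (CovZ.n2 (29088, 27264) (by decide +kernel)
            (CovZ.leaf K2_ok TD_l9261 _)
            (CovZ.leaf K2_ok TD_l9262 _))
           (CovZ.leaf K2_ok TD_l9263 _)))))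
       (CovZ.n1 (28800, 26880) (by decide +kernel)
        TD_u120
        TD_u121))))
    (CovZ.subM 7770675568902916283678259003433405928080166098504197422633495322922169650974747525120 (by decide +kernel)
     (CovZ.n1 (28416, 26112) (by decide +kernel)
      (CovZ.n2 (28032, 26496) (by decide +kernel)
       (CovZ.badM (by decide +kernel))
       (CovZ.badM (by decide +kernel)))
      (CovZ.n1 (28800, 26496) (by decide +kernel)
       (CovZ.badM (by decide +kernel))
       (CovZ.n1 (28416, 26496) (by decide +kernel)
        (CovZ.n2 (28608, 26688) (by decide +kernel)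
         (CovZ.badM (by decide +kernel))
         (CovZ.badM (by decide +kernel)))
        (CovZ.badM (by decide +kernel))))))))
    (CovZ.topM TD_LL 31105995667386630097885118992426969404753660758119273979100722411296191137993976592781242556705683904401426 (by decide +kernel) (CovZ.n0 (28416, 26880) (by decide +kernel)
    (CovZ.n2 (27648, 26880) (by decide +kernel)
     (CovZ.n2 (28032, 27264) (by decide +kernel)
      (CovZ.subM 2436982315901069456447039718212689882718918093339342025026581500619688797305016448130744153464361084522496 (by decide +kernel)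
       (CovZ.n2 (28032, 26880) (by decide +kernel)
        (CovZ.n2 (27840, 27072) (by decide +kernel)
         (CovZ.n2 (28032, 27072) (by decide +kernel)
          (CovZ.badM (by decide +kernel))
          (CovZ.n1 (27936, 27168) (by decide +kernel)
           (CovZ.n2 (28032, 27168) (by decide +kernel)
            (CovZ.subM 17088026657670737400715864233737687331232599263890861514074197506002515395852507333698016327499776 (by decide +kernel)
             (CovZ.n2 (27984, 27120) (by decide +kernel)
              (CovZ.n2 (27984, 27168) (by decide +kernel)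
               (CovZ.leaf K2_ok TD_l17743 _)
               (CovZ.subM 130370302485407109521180524058200214861497447967981447712291835174013235389564438123806457856 (by decide +kernel)
                (CovZ.n1 (27960, 27144) (by decide +kernel)
                 (CovZ.n2 (27960, 27168) (by decide +kernel)
                  (CovZ.leaf K2_ok TD_l18526 _)
                  (CovZ.badM (by decide +kernel)))
                 (CovZ.n1 (27984, 27144) (by decide +kernel)
                  (CovZ.badM (by decide +kernel))
                  (CovZ.leaf K2_ok TD_l18527 _)))))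
              (CovZ.n1 (28032, 27120) (by decide +kernel)
               (CovZ.badM (by decide +kernel))
               (CovZ.n1 (28008, 27144) (by decide +kernel)
                (CovZ.n2 (28032, 27144) (by decide +kernel)
                 (CovZ.badM (by decide +kernel))
                 (CovZ.leaf K2_ok TD_l17744 _))
                (CovZ.badM (by decide +kernel))))))
            (CovZ.n1 (27984, 27216) (by decide +kernel)
             (CovZ.n2 (28032, 27216) (by decide +kernel)
              (CovZ.n2 (28008, 27192) (by decide +kernel)
               (CovZ.leaf K2_ok TD_l17745 _)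
               (CovZ.n1 (28032, 27192) (by decide +kernel)
                (CovZ.leaf K2_ok TD_l17746 _)
                (CovZ.leaf K2_ok TD_l17747 _)))
              (CovZ.n1 (28008, 27240) (by decide +kernel)
               (CovZ.leaf K2_ok TD_l9355 _)
               (CovZ.n1 (28008, 27216) (by decide +kernel)
                (CovZ.leaf K2_ok TD_l17748 _)
                (CovZ.leaf K2_ok TD_l17749 _))))
             (CovZ.subM 17088059250246358752551366729911651612189148241969599216550871252977316997031417712297157842698240 (by decide +kernel)
              (CovZ.n1 (27984, 27168) (by decide +kernel)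
               (CovZ.n2 (27960, 27192) (by decide +kernel)
                (CovZ.n2 (27984, 27192) (by decide +kernel)
                 (CovZ.leaf K2_ok TD_l18528 _)
                 (CovZ.leaf K2_ok TD_l17750 _))
                (CovZ.n1 (27960, 27168) (by decide +kernel)
                 (CovZ.leaf K2_ok TD_l18529 _)
                 (CovZ.leaf K2_ok TD_l18530 _)))
               (CovZ.n1 (28008, 27192) (by decide +kernel)
                (CovZ.n2 (28008, 27168) (by decide +kernel)
                 (CovZ.leaf K2_ok TD_l17751 _)
                 (CovZ.leaf K2_ok TD_l17752 _))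
                (CovZ.leaf K2_ok TD_l17753 _))))))
           (CovZ.subM 130370302485407109577719630131108500853959497218393312547192473458700209844744947637101264896 (by decide +kernel)
            (CovZ.n1 (27936, 27072) (by decide +kernel)
             (CovZ.badM (by decide +kernel))
             (CovZ.n1 (27984, 27120) (by decide +kernel)
              (CovZ.badM (by decide +kernel))
              (CovZ.n1 (27936, 27120) (by decide +kernel)
               (CovZ.n2 (27960, 27144) (by decide +kernel)
                (CovZ.badM (by decide +kernel))
                (CovZ.badM (by decide +kernel)))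
               (CovZ.badM (by decide +kernel))))))))
         (CovZ.badM (by decide +kernel)))
        (CovZ.n1 (28224, 27072) (by decide +kernel)
         TD_u122
         TD_u123)))
      (CovZ.n1 (27648, 27264) (by decide +kernel)
       TD_u124
       TD_u125))
     (CovZ.subM 452312848583677764512654461700725882347475215226404137245683697684823670784 (by decide +kernel)
      (CovZ.n1 (28032, 26496) (by decide +kernel)
       (CovZ.badM (by decide +kernel))
       (CovZ.n1 (28032, 26880) (by decide +kernel)
        (CovZ.n2 (28224, 26688) (by decide +kernel)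
         (CovZ.n2 (28032, 26688) (by decide +kernel)
          (CovZ.n2 (28128, 26784) (by decide +kernel)
           (CovZ.badM (by decide +kernel))
           (CovZ.badM (by decide +kernel)))
          (CovZ.badM (by decide +kernel)))
         (CovZ.n1 (28224, 26880) (by decide +kernel)
          (CovZ.badM (by decide +kernel))
          (CovZ.n1 (28128, 26784) (by decide +kernel)
           (CovZ.n2 (28128, 26880) (by decide +kernel)
            (CovZ.badM (by decide +kernel))
            (CovZ.badM (by decide +kernel)))
           (CovZ.badM (by decide +kernel)))))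
        (CovZ.badM (by decide +kernel))))))
    (CovZ.n1 (28416, 27648) (by decide +kernel)
     TD_u128
     TD_u129)))

theorem TD_s7_9 : SqZ TD_M TD_L [0, 7, 6, 1] 18432 12288 1536 7 9 :=
  SqZ.mk (a := 29184) (b := 30720) (c := 26112) (d := 27648) (by norm_num) (by norm_num) (by norm_num) (by norm_num)
    (CovZ.topM TD_LL 683549230366222998115734792046139932116742554760447804633104961609517543107317610483654784982716434 (by decide +kernel) (CovZ.n2 (29952, 26880) (by decide +kernel)
    TD_u132
    TD_u133))
    (CovZ.topM TD_LL 683549230366222998115734792046139932116742554760447804633104961609517543107317610483654784982716434 (by decide +kernel) (CovZ.n0 (29952, 26880) (by decide +kernel)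
    TD_u136
    TD_u137))

theorem TD_s8_9 : SqZ TD_M TD_L [0, 7, 6, 1] 18432 12288 1536 8 9 :=
  SqZ.mk (a := 30720) (b := 32256) (c := 26112) (d := 27648) (by norm_num) (by norm_num) (by norm_num) (by norm_num)
    (CovZ.topM TD_LL 9295815584401888172603244443840205418362279032748301737063672866460035155478730900552232433399365648 (by decide +kernel) (CovZ.n2 (31488, 26880) (by decide +kernel)
    (CovZ.subM 4074087494020109978369458732514010910254189926608885663586981536349576229033612211634307072 (by decide +kernel)
     (CovZ.n2 (32256, 26880) (by decide +kernel)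
      (CovZ.n2 (31872, 26496) (by decide +kernel)
       (CovZ.n2 (31872, 26880) (by decide +kernel)
        (CovZ.badM (by decide +kernel))
        (CovZ.n1 (31680, 26688) (by decide +kernel)
         (CovZ.n2 (31680, 26880) (by decide +kernel)
          (CovZ.badM (by decide +kernel))
          (CovZ.n1 (31584, 26784) (by decide +kernel)
           (CovZ.n2 (31584, 26880) (by decide +kernel)
            (CovZ.badM (by decide +kernel))
            (CovZ.leaf K3_ok TD_l13517 _))
           (CovZ.badM (by decide +kernel))))
         (CovZ.badM (by decide +kernel))))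
       (CovZ.badM (by decide +kernel)))
      (CovZ.n1 (31872, 27264) (by decide +kernel)
       (CovZ.badM (by decide +kernel))
       (CovZ.n1 (31872, 26880) (by decide +kernel)
        (CovZ.n2 (31680, 27072) (by decide +kernel)
         (CovZ.badM (by decide +kernel))
         (CovZ.n1 (31680, 26880) (by decide +kernel)
          (CovZ.n2 (31584, 26976) (by decide +kernel)
           (CovZ.badM (by decide +kernel))
           (CovZ.n1 (31584, 26880) (by decide +kernel)
            (CovZ.leaf K3_ok TD_l13548 _)
            (CovZ.badM (by decide +kernel))))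
          (CovZ.badM (by decide +kernel))))
        (CovZ.badM (by decide +kernel))))))
    (CovZ.n1 (31488, 26112) (by decide +kernel)
     (CovZ.n2 (31104, 26496) (by decide +kernel)
      TD_u138
      TD_u139)
     (CovZ.subM 4074087494020109978369458732514010910254189926608885663586981536349576229033603415541284864 (by decide +kernel)
      (CovZ.n1 (31872, 26496) (by decide +kernel)
       (CovZ.n2 (31872, 26112) (by decide +kernel)
        (CovZ.n2 (31680, 26304) (by decide +kernel)
         (CovZ.badM (by decide +kernel))
         (CovZ.n1 (31680, 26112) (by decide +kernel)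
          (CovZ.n2 (31584, 26208) (by decide +kernel)
           (CovZ.badM (by decide +kernel))
           (CovZ.n1 (31584, 26112) (by decide +kernel)
            (CovZ.n2 (31536, 26160) (by decide +kernel)
             (CovZ.badM (by decide +kernel))
             (CovZ.n1 (31536, 26112) (by decide +kernel)
              (CovZ.n2 (31512, 26136) (by decide +kernel)
               (CovZ.badM (by decide +kernel))
               (CovZ.leaf K3_ok TD_l13747 _))
              (CovZ.badM (by decide +kernel))))
            (CovZ.badM (by decide +kernel))))
          (CovZ.badM (by decide +kernel))))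
        (CovZ.badM (by decide +kernel)))
       (CovZ.n1 (31488, 26496) (by decide +kernel)
        (CovZ.n2 (31680, 26688) (by decide +kernel)
         (CovZ.n2 (31680, 26496) (by decide +kernel)
          (CovZ.n2 (31584, 26592) (by decide +kernel)
           (CovZ.badM (by decide +kernel))
           (CovZ.n1 (31584, 26496) (by decide +kernel)
            (CovZ.n2 (31536, 26544) (by decide +kernel)
             (CovZ.badM (by decide +kernel))
             (CovZ.leaf K2_ok TD_l13760 _))
            (CovZ.badM (by decide +kernel))))
          (CovZ.badM (by decide +kernel)))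
         (CovZ.n1 (31488, 26688) (by decide +kernel)
          (CovZ.n2 (31584, 26784) (by decide +kernel)
           (CovZ.n2 (31584, 26688) (by decide +kernel)
            (CovZ.n2 (31536, 26736) (by decide +kernel)
             (CovZ.badM (by decide +kernel))
             (CovZ.leaf K2_ok TD_l13772 _))
            (CovZ.badM (by decide +kernel)))
           (CovZ.leaf K3_ok TD_l13775 _))
          (CovZ.n1 (31584, 26592) (by decide +kernel)
           (CovZ.n2 (31488, 26592) (by decide +kernel)
            (CovZ.n2 (31536, 26640) (by decide +kernel)
             (CovZ.leaf K2_ok TD_l13776 _)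
             (CovZ.leaf K2_ok TD_l13777 _))
            (CovZ.leaf K2_ok TD_l13778 _))
           (CovZ.n1 (31584, 26688) (by decide +kernel)
            (CovZ.badM (by decide +kernel))
            (CovZ.n1 (31536, 26640) (by decide +kernel)
             (CovZ.leaf K3_ok TD_l13780 _)
             (CovZ.badM (by decide +kernel)))))))
        (CovZ.n1 (31680, 26304) (by decide +kernel)
         (CovZ.n2 (31488, 26304) (by decide +kernel)
          (CovZ.n2 (31584, 26400) (by decide +kernel)
           (CovZ.n2 (31584, 26304) (by decide +kernel)
            (CovZ.n2 (31536, 26352) (by decide +kernel)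
             (CovZ.badM (by decide +kernel))
             (CovZ.n1 (31536, 26304) (by decide +kernel)
              (CovZ.leaf K3_ok TD_l13784 _)
              (CovZ.badM (by decide +kernel))))
            (CovZ.badM (by decide +kernel)))
           (CovZ.n1 (31488, 26400) (by decide +kernel)
            (CovZ.n2 (31536, 26448) (by decide +kernel)
             (CovZ.n2 (31536, 26400) (by decide +kernel)
              (CovZ.leaf K2_ok TD_l13789 _)
              (CovZ.badM (by decide +kernel)))
             (CovZ.leaf K3_ok TD_l13791 _))
            (CovZ.leaf K3_ok TD_l13792 _)))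
          (CovZ.n1 (31584, 26208) (by decide +kernel)
           (CovZ.n2 (31488, 26208) (by decide +kernel)
            (CovZ.n2 (31536, 26256) (by decide +kernel)
             (CovZ.n2 (31536, 26208) (by decide +kernel)
              (CovZ.leaf K2_ok TD_l13793 _)
              (CovZ.badM (by decide +kernel)))
             (CovZ.n1 (31488, 26256) (by decide +kernel)
              (CovZ.leaf K3_ok TD_l13796 _)
              (CovZ.leaf K2_ok TD_l13797 _)))
            (CovZ.n1 (31536, 26160) (by decide +kernel)
             (CovZ.n2 (31488, 26160) (by decide +kernel)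
              (CovZ.leaf K3_ok TD_l13798 _)
              (CovZ.leaf K2_ok TD_l13799 _))
             (CovZ.n1 (31536, 26208) (by decide +kernel)
              (CovZ.badM (by decide +kernel))
              (CovZ.n1 (31512, 26184) (by decide +kernel)
               (CovZ.leaf K3_ok TD_l13800 _)
               (CovZ.badM (by decide +kernel))))))
           (CovZ.n1 (31584, 26304) (by decide +kernel)
            (CovZ.badM (by decide +kernel))
            (CovZ.n1 (31536, 26256) (by decide +kernel)
             (CovZ.n2 (31536, 26304) (by decide +kernel)
              (CovZ.badM (by decide +kernel))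
              (CovZ.leaf K2_ok TD_l13807 _))
             (CovZ.badM (by decide +kernel))))))
         (CovZ.n1 (31680, 26496) (by decide +kernel)
          (CovZ.badM (by decide +kernel))
          (CovZ.n1 (31584, 26400) (by decide +kernel)
           (CovZ.n2 (31584, 26496) (by decide +kernel)
            (CovZ.badM (by decide +kernel))
            (CovZ.n1 (31536, 26448) (by decide +kernel)
             (CovZ.leaf K2_ok TD_l13821 _)
             (CovZ.badM (by decide +kernel))))
           (CovZ.badM (by decide +kernel)))))))))))
    (CovZ.topM TD_LL 546812685269840475113235535369719956949601309175451991360590440820223158681227207658179725307150352 (by decide +kernel) (CovZ.n0 (31488, 26880) (by decide +kernel)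
    TD_u140
    TD_u141))

theorem TD_s0_10 : SqZ TD_M TD_L [0, 7, 6, 1] 18432 12288 1536 0 10 :=
  SqZ.mk (a := 18432) (b := 19968) (c := 27648) (d := 29184) (by norm_num) (by norm_num) (by norm_num) (by norm_num)
    (CovZ.topM TD_LL 0 (by decide +kernel) (CovZ.badM (by decide +kernel)))
    (CovZ.topM TD_LL 0 (by decide +kernel) (CovZ.badM (by decide +kernel)))

theorem TD_s1_10 : SqZ TD_M TD_L [0, 7, 6, 1] 18432 12288 1536 1 10 :=
  SqZ.mk (a := 19968) (b := 21504) (c := 27648) (d := 29184) (by norm_num) (by norm_num) (by norm_num) (by norm_num)
    (CovZ.topM TD_LL 0 (by decide +kernel) (CovZ.badM (by decide +kernel)))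
    (CovZ.topM TD_LL 0 (by decide +kernel) (CovZ.badM (by decide +kernel)))

theorem TD_s2_10 : SqZ TD_M TD_L [0, 7, 6, 1] 18432 12288 1536 2 10 :=
  SqZ.mk (a := 21504) (b := 23040) (c := 27648) (d := 29184) (by norm_num) (by norm_num) (by norm_num) (by norm_num)
    (CovZ.topM TD_LL 0 (by decide +kernel) (CovZ.badM (by decide +kernel)))
    (CovZ.topM TD_LL 0 (by decide +kernel) (CovZ.badM (by decide +kernel)))

theorem TD_s3_10 : SqZ TD_M TD_L [0, 7, 6, 1] 18432 12288 1536 3 10 :=
  SqZ.mk (a := 23040) (b := 24576) (c := 27648) (d := 29184) (by norm_num) (by norm_num) (by norm_num) (by norm_num)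
    (CovZ.topM TD_LL 0 (by decide +kernel) (CovZ.badM (by decide +kernel)))
    (CovZ.topM TD_LL 0 (by decide +kernel) (CovZ.badM (by decide +kernel)))

theorem TD_s4_10 : SqZ TD_M TD_L [0, 7, 6, 1] 18432 12288 1536 4 10 :=
  SqZ.mk (a := 24576) (b := 26112) (c := 27648) (d := 29184) (by norm_num) (by norm_num) (by norm_num) (by norm_num)
    (CovZ.topM TD_LL 71671832283963530611089997296209901883905431517329306690001819881493054166035848905081649119717156454672 (by decide +kernel) (CovZ.n2 (25344, 28416) (by decide +kernel)
    TD_u150
    TD_u151))
    (CovZ.topM TD_LL 71671832283963530611089997296209901883905431517329306690001819881493054166035848905081649119717156454672 (by decide +kernel) (CovZ.n0 (25344, 28416) (by decide +kernel)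
    (CovZ.subM 170182721835337510352720051286145499136 (by decide +kernel)
     (CovZ.n2 (24576, 28416) (by decide +kernel)
      (CovZ.n2 (24960, 28800) (by decide +kernel)
       (CovZ.n2 (24960, 28416) (by decide +kernel)
        (CovZ.badM (by decide +kernel))
        (CovZ.n1 (25152, 28608) (by decide +kernel)
         (CovZ.badM (by decide +kernel))
         (CovZ.badM (by decide +kernel))))
       (CovZ.badM (by decide +kernel)))
      (CovZ.badM (by decide +kernel))))
    (CovZ.n1 (25344, 29184) (by decide +kernel)
     (CovZ.n2 (25728, 28800) (by decide +kernel)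
      (CovZ.n2 (25344, 28800) (by decide +kernel)
       (CovZ.n2 (25536, 28992) (by decide +kernel)
        (CovZ.n2 (25536, 28800) (by decide +kernel)
         (CovZ.subM 71671831749950475343051800808760794081880571072705597758687811802731279979209954381048804725122142568704 (by decide +kernel)
          (CovZ.n2 (25440, 28896) (by decide +kernel)
           (CovZ.n2 (25536, 28896) (by decide +kernel)
            (CovZ.n2 (25488, 28848) (by decide +kernel)
             (CovZ.leaf K3_ok TD_l5690 _)
             (CovZ.leaf K2_ok TD_l5691 _))
            (CovZ.n1 (25488, 28944) (by decide +kernel)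
             (CovZ.leaf K2_ok TD_l5692 _)
             (CovZ.leaf K2_ok TD_l5693 _)))
           (CovZ.n1 (25440, 28800) (by decide +kernel)
            (CovZ.n2 (25392, 28848) (by decide +kernel)
             (CovZ.n2 (25440, 28848) (by decide +kernel)
              (CovZ.leaf K2_ok TD_l5694 _)
              (CovZ.leaf K2_ok TD_l5695 _))
             (CovZ.n1 (25392, 28800) (by decide +kernel)
              (CovZ.leaf K3_ok TD_l5696 _)
              (CovZ.leaf K2_ok TD_l5697 _)))
            (CovZ.n1 (25488, 28848) (by decide +kernel)
             (CovZ.n2 (25488, 28800) (by decide +kernel)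
              (CovZ.leaf K2_ok TD_l5698 _)
              (CovZ.leaf K2_ok TD_l5699 _))
             (CovZ.leaf K2_ok TD_l5700 _)))))
         (CovZ.subM 534257499585441168429329537418505500580532109826052839766804856342395953278176100683900443164672 (by decide +kernel)
          (CovZ.n1 (25632, 28896) (by decide +kernel)
           (CovZ.n2 (25632, 28800) (by decide +kernel)
            (CovZ.n2 (25584, 28848) (by decide +kernel)
             (CovZ.leaf K2_ok TD_l5701 _)
             (CovZ.leaf K3_ok TD_l5702 _))
            (CovZ.n1 (25680, 28848) (by decide +kernel)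
             (CovZ.leaf K2_ok TD_l5703 _)
             (CovZ.leaf K2_ok TD_l5704 _)))
           (CovZ.n1 (25536, 28896) (by decide +kernel)
            (CovZ.n2 (25584, 28944) (by decide +kernel)
             (CovZ.leaf K2_ok TD_l5705 _)
             (CovZ.leaf K3_ok TD_l5706 _))
            (CovZ.leaf K3_ok TD_l5707 _)))))
        (CovZ.subM 71671831749950475343051800808760794081880571072705597758687811802731279979209954381048804725122142568704 (by decide +kernel)
         (CovZ.n1 (25344, 28992) (by decide +kernel)
          (CovZ.n2 (25440, 29088) (by decide +kernel)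
           (CovZ.n2 (25440, 28992) (by decide +kernel)
            (CovZ.n2 (25392, 29040) (by decide +kernel)
             (CovZ.leaf K2_ok TD_l5708 _)
             (CovZ.leaf K2_ok TD_l5709 _))
            (CovZ.n1 (25488, 29040) (by decide +kernel)
             (CovZ.leaf K3_ok TD_l5710 _)
             (CovZ.leaf K2_ok TD_l5711 _)))
           (CovZ.leaf K3_ok TD_l5712 _))
          (CovZ.n1 (25440, 28896) (by decide +kernel)
           (CovZ.n2 (25344, 28896) (by decide +kernel)
            (CovZ.n2 (25392, 28944) (by decide +kernel)
             (CovZ.n2 (25392, 28896) (by decide +kernel)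
              (CovZ.leaf K3_ok TD_l5713 _)
              (CovZ.leaf K2_ok TD_l5714 _))
             (CovZ.leaf K2_ok TD_l5715 _))
            (CovZ.leaf K2_ok TD_l5716 _))
           (CovZ.n1 (25440, 28992) (by decide +kernel)
            (CovZ.leaf K3_ok TD_l5717 _)
            (CovZ.n1 (25392, 28944) (by decide +kernel)
             (CovZ.leaf K2_ok TD_l5718 _)
             (CovZ.leaf K2_ok TD_l5719 _)))))))
       (CovZ.n1 (25536, 28608) (by decide +kernel)
        (CovZ.subM 71671831749950475343051800808760794081873989054476312934519191926001050577190023437585946146409678110720 (by decide +kernel)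
         (CovZ.n2 (25344, 28608) (by decide +kernel)
          (CovZ.n2 (25440, 28704) (by decide +kernel)
           (CovZ.n2 (25440, 28608) (by decide +kernel)
            (CovZ.n2 (25392, 28656) (by decide +kernel)
             (CovZ.n2 (25440, 28656) (by decide +kernel)
              (CovZ.n2 (25416, 28632) (by decide +kernel)
               (CovZ.leaf K3_ok TD_l5720 _)
               (CovZ.leaf K2_ok TD_l5721 _))
              (CovZ.leaf K3_ok TD_l5722 _))
             (CovZ.n1 (25392, 28608) (by decide +kernel)
              (CovZ.n2 (25368, 28632) (by decide +kernel)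
               (CovZ.leaf K3_ok TD_l5723 _)
               (CovZ.leaf K3_ok TD_l15684 _))
              (CovZ.leaf K3_ok TD_l5724 _)))
            (CovZ.n1 (25488, 28656) (by decide +kernel)
             (CovZ.n2 (25488, 28608) (by decide +kernel)
              (CovZ.leaf K3_ok TD_l5725 _)
              (CovZ.leaf K3_ok TD_l5726 _))
             (CovZ.leaf K3_ok TD_l5727 _)))
           (CovZ.n1 (25344, 28704) (by decide +kernel)
            (CovZ.n2 (25392, 28752) (by decide +kernel)
             (CovZ.n2 (25392, 28704) (by decide +kernel)
              (CovZ.leaf K3_ok TD_l5728 _)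
              (CovZ.leaf K2_ok TD_l5729 _))
             (CovZ.leaf K2_ok TD_l5730 _))
            (CovZ.n1 (25392, 28656) (by decide +kernel)
             (CovZ.n2 (25344, 28656) (by decide +kernel)
              (CovZ.n2 (25368, 28680) (by decide +kernel)
               (CovZ.leaf K3_ok TD_l5731 _)
               (CovZ.leaf K2_ok TD_l5732 _))
              (CovZ.leaf K2_ok TD_l5733 _))
             (CovZ.n1 (25392, 28704) (by decide +kernel)
              (CovZ.leaf K2_ok TD_l5734 _)
              (CovZ.n1 (25368, 28680) (by decide +kernel)
               (CovZ.leaf K2_ok TD_l5735 _)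
               (CovZ.leaf K2_ok TD_l5736 _))))))
          (CovZ.n1 (25440, 28512) (by decide +kernel)
           (CovZ.badM (by decide +kernel))
           (CovZ.n1 (25440, 28608) (by decide +kernel)
            (CovZ.n2 (25488, 28560) (by decide +kernel)
             (CovZ.n2 (25440, 28560) (by decide +kernel)
              (CovZ.n2 (25464, 28584) (by decide +kernel)
               (CovZ.leaf K3_ok TD_l5737 _)
               (CovZ.leaf K3_ok TD_l5738 _))
              (CovZ.leaf K3_ok TD_l5739 _))
             (CovZ.n1 (25488, 28608) (by decide +kernel)
              (CovZ.leaf K3_ok TD_l5740 _)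
              (CovZ.n1 (25464, 28584) (by decide +kernel)
               (CovZ.leaf K3_ok TD_l5741 _)
               (CovZ.leaf K3_ok TD_l5742 _))))
            (CovZ.subM 71671831749689734738080986589718433033757588649861724980129952085914307687689522967724619280993082146816 (by decide +kernel)
             (CovZ.n1 (25392, 28560) (by decide +kernel)
              (CovZ.n2 (25392, 28608) (by decide +kernel)
               (CovZ.leaf K3_ok TD_l5743 _)
               (CovZ.n1 (25368, 28584) (by decide +kernel)
                (CovZ.leaf K3_ok TD_l15685 _)
                (CovZ.leaf K3_ok TD_l15686 _)))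
              (CovZ.n1 (25440, 28560) (by decide +kernel)
               (CovZ.n2 (25416, 28536) (by decide +kernel)
                (CovZ.leaf K3_ok TD_l15687 _)
                (CovZ.leaf K3_ok TD_l15688 _))
               (CovZ.n1 (25416, 28584) (by decide +kernel)
                (CovZ.leaf K3_ok TD_l5744 _)
                (CovZ.leaf K3_ok TD_l15689 _)))))))))
        (CovZ.n1 (25536, 28800) (by decide +kernel)
         (CovZ.subM 534257499585441168429329537418505500580532109826052839766804856342395953278175812453524291452928 (by decide +kernel)
          (CovZ.n2 (25632, 28704) (by decide +kernel)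
           (CovZ.n2 (25536, 28704) (by decide +kernel)
            (CovZ.n2 (25584, 28752) (by decide +kernel)
             (CovZ.n2 (25584, 28704) (by decide +kernel)
              (CovZ.leaf K3_ok TD_l5745 _)
              (CovZ.leaf K3_ok TD_l5746 _))
             (CovZ.leaf K3_ok TD_l5747 _))
            (CovZ.leaf K3_ok TD_l5748 _))
           (CovZ.n1 (25632, 28800) (by decide +kernel)
            (CovZ.leaf K2_ok TD_l5749 _)
            (CovZ.n1 (25584, 28752) (by decide +kernel)
             (CovZ.leaf K3_ok TD_l5750 _)
             (CovZ.leaf K3_ok TD_l5751 _)))))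
         (CovZ.subM 71671831749950475343051800808760794081880571072705597758687811802731279979209954381048516494728810987520 (by decide +kernel)
          (CovZ.n1 (25440, 28704) (by decide +kernel)
           (CovZ.n2 (25440, 28800) (by decide +kernel)
            (CovZ.leaf K3_ok TD_l5752 _)
            (CovZ.n1 (25392, 28752) (by decide +kernel)
             (CovZ.leaf K3_ok TD_l5753 _)
             (CovZ.n1 (25440, 28752) (by decide +kernel)
              (CovZ.leaf K2_ok TD_l5754 _)
              (CovZ.leaf K3_ok TD_l5755 _))))
           (CovZ.n1 (25536, 28704) (by decide +kernel)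
            (CovZ.n2 (25488, 28656) (by decide +kernel)
             (CovZ.n2 (25488, 28704) (by decide +kernel)
              (CovZ.leaf K3_ok TD_l5756 _)
              (CovZ.leaf K3_ok TD_l5757 _))
             (CovZ.n1 (25536, 28656) (by decide +kernel)
              (CovZ.leaf K2_ok TD_l5758 _)
              (CovZ.leaf K3_ok TD_l5759 _)))
            (CovZ.n1 (25488, 28752) (by decide +kernel)
             (CovZ.n2 (25536, 28752) (by decide +kernel)
              (CovZ.leaf K2_ok TD_l5760 _)
              (CovZ.leaf K2_ok TD_l5761 _))
             (CovZ.n1 (25488, 28704) (by decide +kernel)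
              (CovZ.leaf K3_ok TD_l5762 _)
              (CovZ.leaf K3_ok TD_l5763 _)))))))))
      (CovZ.n1 (25728, 29184) (by decide +kernel)
       (CovZ.n2 (25920, 28992) (by decide +kernel)
        (CovZ.n2 (25728, 28992) (by decide +kernel)
         (CovZ.n2 (25824, 29088) (by decide +kernel)
          (CovZ.n2 (25824, 28992) (by decide +kernel)
           (CovZ.leaf K3_ok TD_l5764 _)
           (CovZ.leaf K2_ok TD_l5765 _))
          (CovZ.leaf K3_ok TD_l5766 _))
         (CovZ.leaf K2_ok TD_l5767 _))
        (CovZ.n1 (25920, 29184) (by decide +kernel)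
         (CovZ.leaf K3_ok TD_l5768 _)
         (CovZ.n1 (25824, 29088) (by decide +kernel)
          (CovZ.leaf K3_ok TD_l5769 _)
          (CovZ.leaf K3_ok TD_l5770 _))))
       (CovZ.n1 (25536, 28992) (by decide +kernel)
        (CovZ.n2 (25536, 29184) (by decide +kernel)
         (CovZ.leaf K3_ok TD_l5771 _)
         (CovZ.subM 71671831749950475343051800808760794081880571072705597758687811802731279979209954381048804725122142568704 (by decide +kernel)
          (CovZ.n1 (25440, 29088) (by decide +kernel)
           (CovZ.n2 (25440, 29184) (by decide +kernel)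
            (CovZ.leaf K3_ok TD_l5772 _)
            (CovZ.leaf K3_ok TD_l5773 _))
           (CovZ.n1 (25536, 29088) (by decide +kernel)
            (CovZ.leaf K3_ok TD_l5774 _)
            (CovZ.leaf K3_ok TD_l5775 _)))))
        (CovZ.n1 (25728, 28992) (by decide +kernel)
         (CovZ.subM 534257499585441168429329537418505500580532109826052839766804856342395953278176100683900443164672 (by decide +kernel)
          (CovZ.n2 (25632, 28896) (by decide +kernel)
           (CovZ.n2 (25632, 28992) (by decide +kernel)
            (CovZ.leaf K2_ok TD_l5776 _)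
            (CovZ.n1 (25584, 28944) (by decide +kernel)
             (CovZ.leaf K2_ok TD_l5777 _)
             (CovZ.leaf K2_ok TD_l5778 _)))
           (CovZ.n1 (25728, 28896) (by decide +kernel)
            (CovZ.n2 (25680, 28848) (by decide +kernel)
             (CovZ.leaf K2_ok TD_l5779 _)
             (CovZ.leaf K2_ok TD_l5780 _))
            (CovZ.leaf K2_ok TD_l5781 _))))
         (CovZ.n1 (25632, 29088) (by decide +kernel)
          (CovZ.n2 (25728, 29088) (by decide +kernel)
           (CovZ.leaf K3_ok TD_l5782 _)
           (CovZ.leaf K2_ok TD_l5783 _))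
          (CovZ.n1 (25632, 28992) (by decide +kernel)
           (CovZ.leaf K2_ok TD_l5784 _)
           (CovZ.leaf K3_ok TD_l5785 _)))))))
     (CovZ.subM 71671831749950475343051800808760794081873989054476312934519191926001050577190023437586270405668748132608 (by decide +kernel)
      (CovZ.n1 (24960, 28800) (by decide +kernel)
       TD_u152
       TD_u153)))))

theorem TD_s5_10 : SqZ TD_M TD_L [0, 7, 6, 1] 18432 12288 1536 5 10 :=
  SqZ.mk (a := 26112) (b := 27648) (c := 27648) (d := 29184) (by norm_num) (by norm_num) (by norm_num) (by norm_num)
    (CovZ.topM TD_LL 18348006973294186697950817814494975539516996297843294634057752183146410373439537053142290572666287596769298 (by decide +kernel) (CovZ.n2 (26880, 28416) (by decide +kernel)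
    (CovZ.n2 (27648, 28416) (by decide +kernel)
     (CovZ.n2 (27264, 28032) (by decide +kernel)
      (CovZ.n2 (27264, 28416) (by decide +kernel)
       (CovZ.n2 (27456, 28224) (by decide +kernel)
        (CovZ.n2 (27264, 28224) (by decide +kernel)
         (CovZ.n2 (27360, 28320) (by decide +kernel)
          (CovZ.n2 (27360, 28224) (by decide +kernel)
           (CovZ.leaf K2_ok TD_l7289 _)
           (CovZ.leaf K2_ok TD_l7290 _))
          (CovZ.leaf K2_ok TD_l7291 _))
         (CovZ.leaf K2_ok TD_l7292 _))
        (CovZ.n1 (27456, 28416) (by decide +kernel)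
         (CovZ.leaf K2_ok TD_l7293 _)
         (CovZ.n1 (27360, 28320) (by decide +kernel)
          (CovZ.leaf K2_ok TD_l7294 _)
          (CovZ.leaf K2_ok TD_l7295 _))))
       (CovZ.n1 (27072, 28224) (by decide +kernel)
        (CovZ.n2 (27072, 28416) (by decide +kernel)
         (CovZ.leaf K2_ok TD_l7296 _)
         (CovZ.n1 (26976, 28320) (by decide +kernel)
          (CovZ.leaf K3_ok TD_l7297 _)
          (CovZ.n1 (27072, 28320) (by decide +kernel)
           (CovZ.leaf K2_ok TD_l7298 _)
           (CovZ.leaf K2_ok TD_l7299 _))))
        (CovZ.n1 (27264, 28224) (by decide +kernel)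
         (CovZ.n2 (27168, 28128) (by decide +kernel)
          (CovZ.leaf K2_ok TD_l7300 _)
          (CovZ.n1 (27264, 28128) (by decide +kernel)
           (CovZ.leaf K2_ok TD_l7301 _)
           (CovZ.leaf K2_ok TD_l7302 _)))
         (CovZ.n1 (27168, 28320) (by decide +kernel)
          (CovZ.leaf K2_ok TD_l7303 _)
          (CovZ.n1 (27168, 28224) (by decide +kernel)
           (CovZ.leaf K2_ok TD_l7304 _)
           (CovZ.leaf K2_ok TD_l7305 _))))))
      (CovZ.n1 (27648, 28032) (by decide +kernel)
       (CovZ.n2 (27456, 27840) (by decide +kernel)
        (CovZ.n2 (27456, 28032) (by decide +kernel)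
         (CovZ.leaf K2_ok TD_l7306 _)
         (CovZ.n1 (27360, 27936) (by decide +kernel)
          (CovZ.n2 (27360, 28032) (by decide +kernel)
           (CovZ.leaf K2_ok TD_l7307 _)
           (CovZ.leaf K2_ok TD_l7308 _))
          (CovZ.n1 (27456, 27936) (by decide +kernel)
           (CovZ.n2 (27408, 27888) (by decide +kernel)
            (CovZ.leaf K2_ok TD_l7309 _)
            (CovZ.leaf K2_ok TD_l7310 _))
           (CovZ.leaf K2_ok TD_l7311 _))))
        (CovZ.n1 (27648, 27840) (by decide +kernel)
         (CovZ.n2 (27552, 27744) (by decide +kernel)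
          (CovZ.n2 (27552, 27840) (by decide +kernel)
           (CovZ.leaf K2_ok TD_l7312 _)
           (CovZ.n1 (27504, 27792) (by decide +kernel)
            (CovZ.leaf K2_ok TD_l7313 _)
            (CovZ.leaf K2_ok TD_l7314 _)))
          (CovZ.n1 (27648, 27744) (by decide +kernel)
           (CovZ.n2 (27600, 27696) (by decide +kernel)
            (CovZ.leaf K3_ok TD_l7315 _)
            (CovZ.leaf K2_ok TD_l7316 _))
           (CovZ.n1 (27600, 27792) (by decide +kernel)
            (CovZ.leaf K2_ok TD_l7317 _)
            (CovZ.leaf K3_ok TD_l7318 _))))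
         (CovZ.n1 (27552, 27936) (by decide +kernel)
          (CovZ.n2 (27648, 27936) (by decide +kernel)
           (CovZ.leaf K2_ok TD_l7319 _)
           (CovZ.leaf K2_ok TD_l7320 _))
          (CovZ.n1 (27552, 27840) (by decide +kernel)
           (CovZ.leaf K2_ok TD_l7321 _)
           (CovZ.leaf K2_ok TD_l7322 _)))))
       (CovZ.n1 (27456, 28224) (by decide +kernel)
        (CovZ.n2 (27648, 28224) (by decide +kernel)
         (CovZ.n2 (27552, 28128) (by decide +kernel)
          (CovZ.leaf K2_ok TD_l7323 _)
          (CovZ.n1 (27648, 28128) (by decide +kernel)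
           (CovZ.leaf K2_ok TD_l7324 _)
           (CovZ.leaf K2_ok TD_l7325 _)))
         (CovZ.n1 (27552, 28320) (by decide +kernel)
          (CovZ.leaf K2_ok TD_l7326 _)
          (CovZ.n1 (27552, 28224) (by decide +kernel)
           (CovZ.leaf K2_ok TD_l7327 _)
           (CovZ.leaf K2_ok TD_l7328 _))))
        (CovZ.n1 (27456, 28032) (by decide +kernel)
         (CovZ.n2 (27360, 28128) (by decide +kernel)
          (CovZ.n2 (27456, 28128) (by decide +kernel)
           (CovZ.leaf K2_ok TD_l7329 _)
           (CovZ.leaf K2_ok TD_l7330 _))
          (CovZ.n1 (27360, 28032) (by decide +kernel)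
           (CovZ.leaf K2_ok TD_l7331 _)
           (CovZ.leaf K2_ok TD_l7332 _)))
         (CovZ.n1 (27552, 28128) (by decide +kernel)
          (CovZ.n2 (27552, 28032) (by decide +kernel)
           (CovZ.leaf K2_ok TD_l7333 _)
           (CovZ.leaf K2_ok TD_l7334 _))
          (CovZ.leaf K2_ok TD_l7335 _))))))
     (CovZ.n1 (27264, 28800) (by decide +kernel)
      (CovZ.n2 (27648, 28800) (by decide +kernel)
       (CovZ.n2 (27456, 28608) (by decide +kernel)
        (CovZ.n2 (27456, 28800) (by decide +kernel)
         (CovZ.leaf K2_ok TD_l7336 _)
         (CovZ.n1 (27360, 28704) (by decide +kernel)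
          (CovZ.leaf K3_ok TD_l7337 _)
          (CovZ.leaf K3_ok TD_l7338 _)))
        (CovZ.n1 (27648, 28608) (by decide +kernel)
         (CovZ.n2 (27552, 28512) (by decide +kernel)
          (CovZ.leaf K2_ok TD_l7339 _)
          (CovZ.leaf K2_ok TD_l7340 _))
         (CovZ.leaf K2_ok TD_l7341 _)))
       (CovZ.n1 (27456, 28992) (by decide +kernel)
        (CovZ.n2 (27648, 28992) (by decide +kernel)
         (CovZ.leaf K2_ok TD_l7342 _)
         (CovZ.leaf K2_ok TD_l7343 _))
        (CovZ.n1 (27456, 28800) (by decide +kernel)
         (CovZ.leaf K3_ok TD_l7344 _)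
         (CovZ.leaf K2_ok TD_l7345 _))))
      (CovZ.n1 (27264, 28416) (by decide +kernel)
       (CovZ.n2 (27072, 28608) (by decide +kernel)
        (CovZ.n2 (27264, 28608) (by decide +kernel)
         (CovZ.n2 (27168, 28512) (by decide +kernel)
          (CovZ.leaf K3_ok TD_l7346 _)
          (CovZ.leaf K3_ok TD_l7347 _))
         (CovZ.n1 (27168, 28704) (by decide +kernel)
          (CovZ.leaf K3_ok TD_l7348 _)
          (CovZ.leaf K3_ok TD_l7349 _)))
        (CovZ.n1 (27072, 28416) (by decide +kernel)
         (CovZ.n2 (26976, 28512) (by decide +kernel)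
          (CovZ.leaf K2_ok TD_l7350 _)
          (CovZ.n1 (26976, 28416) (by decide +kernel)
           (CovZ.leaf K2_ok TD_l7351 _)
           (CovZ.leaf K2_ok TD_l7352 _)))
         (CovZ.n1 (27168, 28512) (by decide +kernel)
          (CovZ.n2 (27168, 28416) (by decide +kernel)
           (CovZ.leaf K2_ok TD_l7353 _)
           (CovZ.leaf K3_ok TD_l7354 _))
          (CovZ.leaf K3_ok TD_l7355 _))))
       (CovZ.n1 (27456, 28608) (by decide +kernel)
        (CovZ.n2 (27456, 28416) (by decide +kernel)
         (CovZ.n2 (27360, 28512) (by decide +kernel)
          (CovZ.leaf K3_ok TD_l7356 _)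
          (CovZ.leaf K3_ok TD_l7357 _))
         (CovZ.n1 (27552, 28512) (by decide +kernel)
          (CovZ.leaf K2_ok TD_l7358 _)
          (CovZ.leaf K2_ok TD_l7359 _)))
        (CovZ.leaf K2_ok TD_l7360 _)))))
    (CovZ.n1 (26880, 27648) (by decide +kernel)
     (CovZ.subM 550961194593326623228970655911111539425168250957140372996955970035207236102806607624973053071376 (by decide +kernel)
      (CovZ.n2 (26496, 28032) (by decide +kernel)
       TD_u156
       TD_u157))
     (CovZ.n1 (27264, 28032) (by decide +kernel)
      TD_u158
      TD_u159))))
    (CovZ.topM TD_LL 18348006973294186697950817814494975539516996297843294634057752183146410373439537053142290572705870015369234 (by decide +kernel) (CovZ.n0 (26880, 28416) (by decide +kernel)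
    (CovZ.subM 550961194593326623228970655911111539425168250957140372996955970035207236102806900398531250753552 (by decide +kernel)
     (CovZ.n2 (26112, 28416) (by decide +kernel)
      (CovZ.n2 (26496, 28800) (by decide +kernel)
       (CovZ.n2 (26496, 28416) (by decide +kernel)
        (CovZ.n2 (26304, 28608) (by decide +kernel)
         (CovZ.n2 (26496, 28608) (by decide +kernel)
          (CovZ.n2 (26400, 28512) (by decide +kernel)
           (CovZ.leaf K3_ok TD_l7630 _)
           (CovZ.n1 (26496, 28512) (by decide +kernel)
            (CovZ.leaf K3_ok TD_l7631 _)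
            (CovZ.leaf K3_ok TD_l7632 _)))
          (CovZ.n1 (26400, 28704) (by decide +kernel)
           (CovZ.leaf K3_ok TD_l7633 _)
           (CovZ.n1 (26400, 28608) (by decide +kernel)
            (CovZ.leaf K2_ok TD_l7634 _)
            (CovZ.leaf K3_ok TD_l7635 _))))
         (CovZ.subM 534273795873251844318019684984012775605820521573202168650660021963244354377098781279988625965072 (by decide +kernel)
          (CovZ.n1 (26304, 28416) (by decide +kernel)
           (CovZ.n2 (26208, 28512) (by decide +kernel)
            (CovZ.n2 (26304, 28512) (by decide +kernel)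
             (CovZ.leaf K2_ok TD_l7636 _)
             (CovZ.leaf K2_ok TD_l7637 _))
            (CovZ.n1 (26208, 28416) (by decide +kernel)
             (CovZ.n2 (26160, 28464) (by decide +kernel)
              (CovZ.leaf K2_ok TD_l7638 _)
              (CovZ.leaf K2_ok TD_l7639 _))
             (CovZ.leaf K2_ok TD_l7640 _)))
           (CovZ.n1 (26400, 28512) (by decide +kernel)
            (CovZ.n2 (26400, 28416) (by decide +kernel)
             (CovZ.leaf K2_ok TD_l7641 _)
             (CovZ.leaf K3_ok TD_l7642 _))
            (CovZ.leaf K3_ok TD_l7643 _)))))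
        (CovZ.n1 (26688, 28608) (by decide +kernel)
         (CovZ.n2 (26688, 28416) (by decide +kernel)
          (CovZ.n2 (26592, 28512) (by decide +kernel)
           (CovZ.n2 (26688, 28512) (by decide +kernel)
            (CovZ.leaf K3_ok TD_l7644 _)
            (CovZ.leaf K3_ok TD_l7645 _))
           (CovZ.n1 (26592, 28416) (by decide +kernel)
            (CovZ.leaf K2_ok TD_l7646 _)
            (CovZ.leaf K2_ok TD_l7647 _)))
          (CovZ.n1 (26784, 28512) (by decide +kernel)
           (CovZ.n2 (26784, 28416) (by decide +kernel)
            (CovZ.leaf K3_ok TD_l7648 _)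
            (CovZ.leaf K3_ok TD_l7649 _))
           (CovZ.leaf K3_ok TD_l7650 _)))
         (CovZ.n1 (26496, 28608) (by decide +kernel)
          (CovZ.n2 (26592, 28704) (by decide +kernel)
           (CovZ.leaf K2_ok TD_l7651 _)
           (CovZ.leaf K3_ok TD_l7652 _))
          (CovZ.leaf K3_ok TD_l7653 _))))
       (CovZ.n1 (26112, 28800) (by decide +kernel)
        (CovZ.n2 (26304, 28992) (by decide +kernel)
         (CovZ.n2 (26304, 28800) (by decide +kernel)
          (CovZ.n2 (26208, 28896) (by decide +kernel)
           (CovZ.leaf K3_ok TD_l7654 _)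
           (CovZ.n1 (26208, 28800) (by decide +kernel)
            (CovZ.leaf K3_ok TD_l7655 _)
            (CovZ.leaf K2_ok TD_l7656 _)))
          (CovZ.n1 (26400, 28896) (by decide +kernel)
           (CovZ.leaf K3_ok TD_l7657 _)
           (CovZ.leaf K2_ok TD_l7658 _)))
         (CovZ.n1 (26112, 28992) (by decide +kernel)
          (CovZ.n2 (26208, 29088) (by decide +kernel)
           (CovZ.n2 (26208, 28992) (by decide +kernel)
            (CovZ.leaf K3_ok TD_l7659 _)
            (CovZ.leaf K2_ok TD_l7660 _))
           (CovZ.leaf K2_ok TD_l7661 _))
          (CovZ.leaf K3_ok TD_l7662 _)))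
        (CovZ.n1 (26304, 28608) (by decide +kernel)
         (CovZ.subM 534273795873251844318019684984012775605820521573202168650649055832279128821147329375340940492816 (by decide +kernel)
          (CovZ.n2 (26112, 28608) (by decide +kernel)
           (CovZ.n2 (26208, 28704) (by decide +kernel)
            (CovZ.n2 (26208, 28608) (by decide +kernel)
             (CovZ.leaf K2_ok TD_l7663 _)
             (CovZ.leaf K2_ok TD_l7664 _))
            (CovZ.leaf K3_ok TD_l7665 _))
           (CovZ.leaf K2_ok TD_l7666 _)))
         (CovZ.n1 (26304, 28800) (by decide +kernel)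
          (CovZ.leaf K2_ok TD_l7667 _)
          (CovZ.n1 (26208, 28704) (by decide +kernel)
           (CovZ.leaf K3_ok TD_l7668 _)
           (CovZ.n1 (26304, 28704) (by decide +kernel)
            (CovZ.leaf K2_ok TD_l7669 _)
            (CovZ.leaf K2_ok TD_l7670 _)))))))
      (CovZ.n1 (26496, 28032) (by decide +kernel)
       (CovZ.subM 534273795873251844318019684984012775605820521573202168650660021963244354377098781279988625702928 (by decide +kernel)
        (CovZ.n2 (26112, 28032) (by decide +kernel)
         TD_u160
         TD_u161))
       (CovZ.n1 (26496, 28416) (by decide +kernel)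
        (CovZ.n2 (26688, 28224) (by decide +kernel)
         (CovZ.n2 (26496, 28224) (by decide +kernel)
          (CovZ.n2 (26592, 28320) (by decide +kernel)
           (CovZ.n2 (26592, 28224) (by decide +kernel)
            (CovZ.leaf K3_ok TD_l7738 _)
            (CovZ.leaf K3_ok TD_l7739 _))
           (CovZ.leaf K3_ok TD_l7740 _))
          (CovZ.subM 534273795875194513210241880360802680743984873884843089652680672670201888663405555289091365404688 (by decide +kernel)
           (CovZ.n1 (26592, 28128) (by decide +kernel)
            (CovZ.n2 (26496, 28128) (by decide +kernel)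
             (CovZ.n2 (26544, 28176) (by decide +kernel)
              (CovZ.leaf K3_ok TD_l7741 _)
              (CovZ.leaf K3_ok TD_l7742 _))
             (CovZ.leaf K3_ok TD_l7743 _))
            (CovZ.n1 (26592, 28224) (by decide +kernel)
             (CovZ.leaf K3_ok TD_l7744 _)
             (CovZ.n1 (26544, 28176) (by decide +kernel)
              (CovZ.leaf K3_ok TD_l7745 _)
              (CovZ.leaf K3_ok TD_l7746 _))))))
         (CovZ.n1 (26688, 28416) (by decide +kernel)
          (CovZ.leaf K3_ok TD_l7747 _)
          (CovZ.n1 (26592, 28320) (by decide +kernel)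
           (CovZ.leaf K2_ok TD_l7748 _)
           (CovZ.n1 (26688, 28320) (by decide +kernel)
            (CovZ.n2 (26640, 28272) (by decide +kernel)
             (CovZ.leaf K3_ok TD_l7749 _)
             (CovZ.leaf K3_ok TD_l7750 _))
            (CovZ.leaf K3_ok TD_l7751 _)))))
        (CovZ.subM 534273795873251844318019684984012775605820521573202168650660021963244354377098781279988625965072 (by decide +kernel)
         (CovZ.n1 (26304, 28224) (by decide +kernel)
          (CovZ.n2 (26304, 28416) (by decide +kernel)
           (CovZ.leaf K3_ok TD_l7752 _)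
           (CovZ.n1 (26208, 28320) (by decide +kernel)
            (CovZ.n2 (26208, 28416) (by decide +kernel)
             (CovZ.leaf K3_ok TD_l7753 _)
             (CovZ.n1 (26160, 28368) (by decide +kernel)
              (CovZ.leaf K2_ok TD_l7754 _)
              (CovZ.leaf K3_ok TD_l7755 _)))
            (CovZ.n1 (26304, 28320) (by decide +kernel)
             (CovZ.n2 (26256, 28272) (by decide +kernel)
              (CovZ.leaf K3_ok TD_l7756 _)
              (CovZ.leaf K3_ok TD_l7757 _))
             (CovZ.leaf K3_ok TD_l7758 _))))
          (CovZ.n1 (26496, 28224) (by decide +kernel)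
           (CovZ.n2 (26400, 28128) (by decide +kernel)
            (CovZ.n2 (26400, 28224) (by decide +kernel)
             (CovZ.leaf K3_ok TD_l7759 _)
             (CovZ.n1 (26352, 28176) (by decide +kernel)
              (CovZ.leaf K3_ok TD_l7760 _)
              (CovZ.leaf K3_ok TD_l7761 _)))
            (CovZ.n1 (26496, 28128) (by decide +kernel)
             (CovZ.n2 (26448, 28080) (by decide +kernel)
              (CovZ.leaf K3_ok TD_l7762 _)
              (CovZ.n1 (26496, 28080) (by decide +kernel)
               (CovZ.leaf K3_ok TD_l7763 _)
               (CovZ.leaf K3_ok TD_l7764 _)))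
             (CovZ.n1 (26448, 28176) (by decide +kernel)
              (CovZ.leaf K3_ok TD_l7765 _)
              (CovZ.leaf K3_ok TD_l7766 _))))
           (CovZ.n1 (26400, 28320) (by decide +kernel)
            (CovZ.n2 (26496, 28320) (by decide +kernel)
             (CovZ.n2 (26448, 28272) (by decide +kernel)
              (CovZ.leaf K3_ok TD_l7767 _)
              (CovZ.leaf K3_ok TD_l7768 _))
             (CovZ.leaf K2_ok TD_l7769 _))
            (CovZ.n1 (26400, 28224) (by decide +kernel)
             (CovZ.n2 (26352, 28272) (by decide +kernel)
              (CovZ.leaf K3_ok TD_l7770 _)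
              (CovZ.leaf K3_ok TD_l7771 _))
             (CovZ.leaf K3_ok TD_l7772 _))))))))))
    (CovZ.n1 (26880, 29184) (by decide +kernel)
     (CovZ.n2 (27264, 28800) (by decide +kernel)
      (CovZ.n2 (26880, 28800) (by decide +kernel)
       (CovZ.n2 (27072, 28992) (by decide +kernel)
        (CovZ.n2 (27072, 28800) (by decide +kernel)
         (CovZ.leaf K3_ok TD_l7773 _)
         (CovZ.leaf K2_ok TD_l7774 _))
        (CovZ.leaf K3_ok TD_l7775 _))
       (CovZ.n1 (27072, 28608) (by decide +kernel)
        (CovZ.n2 (26880, 28608) (by decide +kernel)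
         (CovZ.n2 (26976, 28704) (by decide +kernel)
          (CovZ.leaf K3_ok TD_l7776 _)
          (CovZ.leaf K3_ok TD_l7777 _))
         (CovZ.leaf K3_ok TD_l7778 _))
        (CovZ.n1 (27072, 28800) (by decide +kernel)
         (CovZ.leaf K3_ok TD_l7779 _)
         (CovZ.n1 (26976, 28704) (by decide +kernel)
          (CovZ.leaf K3_ok TD_l7780 _)
          (CovZ.leaf K3_ok TD_l7781 _)))))
      (CovZ.n1 (27264, 29184) (by decide +kernel)
       (CovZ.leaf K3_ok TD_l7782 _)
       (CovZ.n1 (27072, 28992) (by decide +kernel)
        (CovZ.leaf K2_ok TD_l7783 _)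
        (CovZ.n1 (27264, 28992) (by decide +kernel)
         (CovZ.leaf K3_ok TD_l7784 _)
         (CovZ.leaf K3_ok TD_l7785 _)))))
     (CovZ.subM 550961194593326623228970656126791112762373369314476493693113015424304391483131480247360132747280 (by decide +kernel)
      (CovZ.n1 (26496, 28800) (by decide +kernel)
       (CovZ.n2 (26496, 29184) (by decide +kernel)
        (CovZ.n2 (26688, 28992) (by decide +kernel)
         (CovZ.n2 (26496, 28992) (by decide +kernel)
          (CovZ.n2 (26592, 29088) (by decide +kernel)
           (CovZ.leaf K3_ok TD_l7786 _)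
           (CovZ.leaf K3_ok TD_l7787 _))
          (CovZ.leaf K2_ok TD_l7788 _))
         (CovZ.n1 (26688, 29184) (by decide +kernel)
          (CovZ.leaf K2_ok TD_l7789 _)
          (CovZ.n1 (26592, 29088) (by decide +kernel)
           (CovZ.leaf K2_ok TD_l7790 _)
           (CovZ.leaf K3_ok TD_l7791 _))))
        (CovZ.n1 (26304, 28992) (by decide +kernel)
         (CovZ.n2 (26304, 29184) (by decide +kernel)
          (CovZ.leaf K2_ok TD_l7792 _)
          (CovZ.n1 (26208, 29088) (by decide +kernel)
           (CovZ.leaf K2_ok TD_l7793 _)
           (CovZ.leaf K2_ok TD_l7794 _)))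
         (CovZ.n1 (26496, 28992) (by decide +kernel)
          (CovZ.n2 (26400, 28896) (by decide +kernel)
           (CovZ.leaf K2_ok TD_l7795 _)
           (CovZ.leaf K2_ok TD_l7796 _))
          (CovZ.n1 (26400, 29088) (by decide +kernel)
           (CovZ.leaf K2_ok TD_l7797 _)
           (CovZ.leaf K2_ok TD_l7798 _)))))
       (CovZ.n1 (26880, 28800) (by decide +kernel)
        (CovZ.n2 (26688, 28608) (by decide +kernel)
         (CovZ.n2 (26688, 28800) (by decide +kernel)
          (CovZ.leaf K3_ok TD_l7799 _)
          (CovZ.n1 (26592, 28704) (by decide +kernel)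
           (CovZ.leaf K2_ok TD_l7800 _)
           (CovZ.leaf K3_ok TD_l7801 _)))
         (CovZ.n1 (26880, 28608) (by decide +kernel)
          (CovZ.n2 (26784, 28512) (by decide +kernel)
           (CovZ.leaf K3_ok TD_l7802 _)
           (CovZ.leaf K3_ok TD_l7803 _))
          (CovZ.n1 (26784, 28704) (by decide +kernel)
           (CovZ.leaf K3_ok TD_l7804 _)
           (CovZ.leaf K3_ok TD_l7805 _))))
        (CovZ.n1 (26688, 28992) (by decide +kernel)
         (CovZ.n2 (26880, 28992) (by decide +kernel)
          (CovZ.n2 (26784, 28896) (by decide +kernel)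
           (CovZ.leaf K2_ok TD_l7806 _)
           (CovZ.leaf K3_ok TD_l7807 _))
          (CovZ.leaf K3_ok TD_l7808 _))
         (CovZ.n1 (26688, 28800) (by decide +kernel)
          (CovZ.n2 (26592, 28896) (by decide +kernel)
           (CovZ.leaf K3_ok TD_l7809 _)
           (CovZ.leaf K2_ok TD_l7810 _))
          (CovZ.n1 (26784, 28896) (by decide +kernel)
           (CovZ.leaf K3_ok TD_l7811 _)
           (CovZ.leaf K2_ok TD_l7812 _))))))))))

theorem TD_s6_10 : SqZ TD_M TD_L [0, 7, 6, 1] 18432 12288 1536 6 10 :=
  SqZ.mk (a := 27648) (b := 29184) (c := 27648) (d := 29184) (by norm_num) (by norm_num) (by norm_num) (by norm_num)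
    (CovZ.topM TD_LL 31106013165409115760698646082463497452804033209370054753881125167226274947989273114888914169889321047822354 (by decide +kernel) (CovZ.n2 (28416, 28416) (by decide +kernel)
    (CovZ.subM 10321024457773116968717031851352377250495215710229168916201032372590725300687521609042161047523861902921746 (by decide +kernel)
     (CovZ.n2 (29184, 28416) (by decide +kernel)
      (CovZ.n2 (28800, 28032) (by decide +kernel)
       (CovZ.n2 (28800, 28416) (by decide +kernel)
        (CovZ.leaf K3_ok TD_l9633 _)
        (CovZ.n1 (28608, 28224) (by decide +kernel)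
         (CovZ.n2 (28608, 28416) (by decide +kernel)
          (CovZ.leaf K2_ok TD_l9634 _)
          (CovZ.leaf K2_ok TD_l9635 _))
         (CovZ.n1 (28800, 28224) (by decide +kernel)
          (CovZ.n2 (28704, 28128) (by decide +kernel)
           (CovZ.leaf K2_ok TD_l9636 _)
           (CovZ.leaf K2_ok TD_l9637 _))
          (CovZ.leaf K3_ok TD_l9638 _))))
       (CovZ.n1 (29184, 28032) (by decide +kernel)
        (CovZ.n2 (28992, 27840) (by decide +kernel)
         (CovZ.n2 (28992, 28032) (by decide +kernel)
          (CovZ.leaf K2_ok TD_l9639 _)
          (CovZ.n1 (28896, 27936) (by decide +kernel)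
           (CovZ.leaf K2_ok TD_l9640 _)
           (CovZ.leaf K2_ok TD_l9641 _)))
         (CovZ.subM 683549230366207456764596985992716693324189925411282477763224262557446050849343978001640847339687954 (by decide +kernel)
          (CovZ.n1 (29184, 27840) (by decide +kernel)
           (CovZ.n2 (29088, 27744) (by decide +kernel)
            (CovZ.leaf K2_ok TD_l9642 _)
            (CovZ.leaf K2_ok TD_l9643 _))
           (CovZ.n1 (29088, 27936) (by decide +kernel)
            (CovZ.leaf K2_ok TD_l9644 _)
            (CovZ.leaf K2_ok TD_l9645 _)))))
        (CovZ.n1 (28992, 28224) (by decide +kernel)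
         (CovZ.n2 (29184, 28224) (by decide +kernel)
          (CovZ.leaf K2_ok TD_l9646 _)
          (CovZ.leaf K2_ok TD_l9647 _))
         (CovZ.n1 (28992, 28032) (by decide +kernel)
          (CovZ.n2 (28896, 28128) (by decide +kernel)
           (CovZ.leaf K2_ok TD_l9648 _)
           (CovZ.leaf K2_ok TD_l9649 _))
          (CovZ.leaf K2_ok TD_l9650 _)))))
      (CovZ.n1 (28800, 28800) (by decide +kernel)
       (CovZ.n2 (29184, 28800) (by decide +kernel)
        (CovZ.n2 (28992, 28608) (by decide +kernel)
         (CovZ.leaf K2_ok TD_l9651 _)
         (CovZ.n1 (29184, 28608) (by decide +kernel)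
          (CovZ.leaf K2_ok TD_l9652 _)
          (CovZ.leaf K2_ok TD_l9653 _)))
        (CovZ.n1 (28992, 28992) (by decide +kernel)
         (CovZ.n2 (29184, 28992) (by decide +kernel)
          (CovZ.leaf K3_ok TD_l9654 _)
          (CovZ.leaf K3_ok TD_l9655 _))
         (CovZ.n1 (28992, 28800) (by decide +kernel)
          (CovZ.leaf K3_ok TD_l9656 _)
          (CovZ.leaf K3_ok TD_l9657 _))))
       (CovZ.n1 (28800, 28416) (by decide +kernel)
        (CovZ.n2 (28608, 28608) (by decide +kernel)
         (CovZ.n2 (28800, 28608) (by decide +kernel)
          (CovZ.leaf K3_ok TD_l9658 _)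
          (CovZ.leaf K3_ok TD_l9659 _))
         (CovZ.n1 (28608, 28416) (by decide +kernel)
          (CovZ.n2 (28512, 28512) (by decide +kernel)
           (CovZ.leaf K2_ok TD_l9660 _)
           (CovZ.leaf K3_ok TD_l9661 _))
          (CovZ.leaf K3_ok TD_l9662 _)))
        (CovZ.n1 (28992, 28608) (by decide +kernel)
         (CovZ.n2 (28992, 28416) (by decide +kernel)
          (CovZ.leaf K2_ok TD_l9663 _)
          (CovZ.leaf K2_ok TD_l9664 _))
         (CovZ.leaf K3_ok TD_l9665 _))))))
    (CovZ.n1 (28416, 27648) (by decide +kernel)
     (CovZ.n2 (28032, 28032) (by decide +kernel)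
      (CovZ.n2 (28416, 28032) (by decide +kernel)
       (CovZ.n2 (28224, 27840) (by decide +kernel)
        (CovZ.n2 (28224, 28032) (by decide +kernel)
         (CovZ.leaf K2_ok TD_l9666 _)
         (CovZ.n1 (28128, 27936) (by decide +kernel)
          (CovZ.leaf K3_ok TD_l9667 _)
          (CovZ.n1 (28224, 27936) (by decide +kernel)
           (CovZ.leaf K2_ok TD_l9668 _)
           (CovZ.leaf K2_ok TD_l9669 _))))
        (CovZ.subM 143344261609258769142415900028906352759448498107992176121702313420914652455917097532644776658418776674322 (by decide +kernel)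
         (CovZ.n1 (28416, 27840) (by decide +kernel)
          (CovZ.n2 (28320, 27744) (by decide +kernel)
           (CovZ.leaf K2_ok TD_l9670 _)
           (CovZ.n1 (28416, 27744) (by decide +kernel)
            (CovZ.leaf K2_ok TD_l9671 _)
            (CovZ.leaf K2_ok TD_l9672 _)))
          (CovZ.n1 (28320, 27936) (by decide +kernel)
           (CovZ.leaf K2_ok TD_l9673 _)
           (CovZ.n1 (28320, 27840) (by decide +kernel)
            (CovZ.leaf K2_ok TD_l9674 _)
            (CovZ.leaf K2_ok TD_l9675 _))))))
       (CovZ.n1 (28224, 28224) (by decide +kernel)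
        (CovZ.subM 143344261609258769142415900028906352759448498107992176121702313420914652455917097532644776658487496151058 (by decide +kernel)
         (CovZ.n2 (28416, 28224) (by decide +kernel)
          (CovZ.n2 (28320, 28128) (by decide +kernel)
           (CovZ.leaf K3_ok TD_l9676 _)
           (CovZ.leaf K3_ok TD_l9677 _))
          (CovZ.n1 (28320, 28320) (by decide +kernel)
           (CovZ.leaf K3_ok TD_l9678 _)
           (CovZ.leaf K3_ok TD_l9679 _))))
        (CovZ.n1 (28224, 28032) (by decide +kernel)
         (CovZ.n2 (28128, 28128) (by decide +kernel)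
          (CovZ.leaf K3_ok TD_l9680 _)
          (CovZ.n1 (28128, 28032) (by decide +kernel)
           (CovZ.leaf K3_ok TD_l9681 _)
           (CovZ.leaf K3_ok TD_l9682 _)))
         (CovZ.n1 (28320, 28128) (by decide +kernel)
          (CovZ.leaf K2_ok TD_l9683 _)
          (CovZ.leaf K3_ok TD_l9684 _)))))
      (CovZ.n1 (28032, 27648) (by decide +kernel)
       (CovZ.n2 (27840, 27840) (by decide +kernel)
        (CovZ.n2 (28032, 27840) (by decide +kernel)
         (CovZ.n2 (27936, 27744) (by decide +kernel)
          (CovZ.n2 (27936, 27840) (by decide +kernel)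
           (CovZ.leaf K2_ok TD_l9685 _)
           (CovZ.leaf K2_ok TD_l9686 _))
          (CovZ.n1 (28032, 27744) (by decide +kernel)
           (CovZ.leaf K3_ok TD_l9687 _)
           (CovZ.leaf K3_ok TD_l9688 _)))
         (CovZ.n1 (27936, 27936) (by decide +kernel)
          (CovZ.n2 (28032, 27936) (by decide +kernel)
           (CovZ.leaf K2_ok TD_l9689 _)
           (CovZ.leaf K2_ok TD_l9690 _))
          (CovZ.n1 (27936, 27840) (by decide +kernel)
           (CovZ.leaf K2_ok TD_l9691 _)
           (CovZ.leaf K3_ok TD_l9692 _))))
        (CovZ.n1 (27840, 27648) (by decide +kernel)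
         (CovZ.n2 (27744, 27744) (by decide +kernel)
          (CovZ.subM 18347989474734337055441432978200084366657428045971049242722309579642540294256004429295774569208554537881618 (by decide +kernel)
           (CovZ.n2 (27840, 27744) (by decide +kernel)
            (CovZ.n2 (27792, 27696) (by decide +kernel)
             (CovZ.leaf K2_ok TD_l9693 _)
             (CovZ.leaf K3_ok TD_l9694 _))
            (CovZ.n1 (27792, 27792) (by decide +kernel)
             (CovZ.leaf K3_ok TD_l9695 _)
             (CovZ.leaf K3_ok TD_l9696 _))))
          (CovZ.subM 18348006972740135319536585124635321113803814990657912283328623257601412317233917791217216146197059640234002 (by decide +kernel)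
           (CovZ.n1 (27744, 27648) (by decide +kernel)
            (CovZ.n2 (27696, 27696) (by decide +kernel)
             (CovZ.leaf K2_ok TD_l9697 _)
             (CovZ.n1 (27696, 27648) (by decide +kernel)
              (CovZ.leaf K3_ok TD_l9698 _)
              (CovZ.leaf K3_ok TD_l9699 _)))
            (CovZ.n1 (27792, 27696) (by decide +kernel)
             (CovZ.leaf K2_ok TD_l9700 _)
             (CovZ.leaf K3_ok TD_l9701 _)))))
         (CovZ.n1 (27936, 27744) (by decide +kernel)
          (CovZ.n2 (27936, 27648) (by decide +kernel)
           (CovZ.n2 (27888, 27696) (by decide +kernel)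
            (CovZ.leaf K2_ok TD_l9702 _)
            (CovZ.leaf K2_ok TD_l9703 _))
           (CovZ.leaf K2_ok TD_l9704 _))
          (CovZ.leaf K3_ok TD_l9705 _))))
       (CovZ.n1 (28224, 27840) (by decide +kernel)
        (CovZ.n2 (28224, 27648) (by decide +kernel)
         (CovZ.subM 20784971756425151298844052659318473676361172802693932230156547790884017564556437591733720613212758459027474 (by decide +kernel)
          (CovZ.n2 (28128, 27744) (by decide +kernel)
           (CovZ.n2 (28224, 27744) (by decide +kernel)
            (CovZ.leaf K2_ok TD_l9706 _)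
            (CovZ.leaf K2_ok TD_l9707 _))
           (CovZ.n1 (28128, 27648) (by decide +kernel)
            (CovZ.leaf K2_ok TD_l9708 _)
            (CovZ.leaf K2_ok TD_l9709 _))))
         (CovZ.n1 (28320, 27744) (by decide +kernel)
          (CovZ.n2 (28320, 27648) (by decide +kernel)
           (CovZ.leaf K2_ok TD_l9710 _)
           (CovZ.leaf K2_ok TD_l9711 _))
          (CovZ.leaf K2_ok TD_l9712 _)))
        (CovZ.subM 20784971756425151298844052659318473676361172802693932230156547790884017564556437591743165346178497749454866 (by decide +kernel)
         (CovZ.n1 (28032, 27840) (by decide +kernel)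
          (CovZ.n2 (28128, 27936) (by decide +kernel)
           (CovZ.n2 (28128, 27840) (by decide +kernel)
            (CovZ.leaf K2_ok TD_l9713 _)
            (CovZ.leaf K2_ok TD_l9714 _))
           (CovZ.leaf K2_ok TD_l9715 _))
          (CovZ.leaf K3_ok TD_l9716 _))))))
     (CovZ.subM 10321024457773116968717031851352377250495215710229168916201032372590725300687521609042161043020262275551250 (by decide +kernel)
      (CovZ.n1 (28800, 28032) (by decide +kernel)
       (CovZ.n2 (28800, 27648) (by decide +kernel)
        (CovZ.n2 (28608, 27840) (by decide +kernel)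
         (CovZ.n2 (28800, 27840) (by decide +kernel)
          (CovZ.n2 (28704, 27744) (by decide +kernel)
           (CovZ.leaf K2_ok TD_l9717 _)
           (CovZ.n1 (28800, 27744) (by decide +kernel)
            (CovZ.leaf K2_ok TD_l9718 _)
            (CovZ.leaf K2_ok TD_l9719 _)))
          (CovZ.n1 (28704, 27936) (by decide +kernel)
           (CovZ.leaf K2_ok TD_l9720 _)
           (CovZ.leaf K2_ok TD_l9721 _)))
         (CovZ.n1 (28608, 27648) (by decide +kernel)
          (CovZ.n2 (28512, 27744) (by decide +kernel)
           (CovZ.n2 (28608, 27744) (by decide +kernel)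
            (CovZ.leaf K2_ok TD_l9722 _)
            (CovZ.leaf K2_ok TD_l9723 _))
           (CovZ.n1 (28512, 27648) (by decide +kernel)
            (CovZ.leaf K2_ok TD_l9724 _)
            (CovZ.leaf K2_ok TD_l9725 _)))
          (CovZ.n1 (28704, 27744) (by decide +kernel)
           (CovZ.n2 (28704, 27648) (by decide +kernel)
            (CovZ.leaf K2_ok TD_l9726 _)
            (CovZ.leaf K2_ok TD_l9727 _))
           (CovZ.leaf K2_ok TD_l9728 _))))
        (CovZ.n1 (28992, 27840) (by decide +kernel)
         (CovZ.n2 (28992, 27648) (by decide +kernel)
          (CovZ.n2 (28896, 27744) (by decide +kernel)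
           (CovZ.leaf K2_ok TD_l9729 _)
           (CovZ.n1 (28896, 27648) (by decide +kernel)
            (CovZ.leaf K2_ok TD_l9730 _)
            (CovZ.leaf K2_ok TD_l9731 _)))
          (CovZ.n1 (29088, 27744) (by decide +kernel)
           (CovZ.leaf K2_ok TD_l9732 _)
           (CovZ.leaf K2_ok TD_l9733 _)))
         (CovZ.n1 (28800, 27840) (by decide +kernel)
          (CovZ.n2 (28896, 27936) (by decide +kernel)
           (CovZ.leaf K2_ok TD_l9734 _)
           (CovZ.leaf K2_ok TD_l9735 _))
          (CovZ.leaf K2_ok TD_l9736 _))))
       (CovZ.n1 (28416, 28032) (by decide +kernel)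
        (CovZ.n2 (28608, 28224) (by decide +kernel)
         (CovZ.n2 (28608, 28032) (by decide +kernel)
          (CovZ.n2 (28512, 28128) (by decide +kernel)
           (CovZ.leaf K2_ok TD_l9737 _)
           (CovZ.leaf K3_ok TD_l9738 _))
          (CovZ.n1 (28704, 28128) (by decide +kernel)
           (CovZ.leaf K2_ok TD_l9739 _)
           (CovZ.leaf K3_ok TD_l9740 _)))
         (CovZ.leaf K3_ok TD_l9741 _))
        (CovZ.n1 (28608, 27840) (by decide +kernel)
         (CovZ.n2 (28416, 27840) (by decide +kernel)
          (CovZ.n2 (28512, 27936) (by decide +kernel)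
           (CovZ.n2 (28512, 27840) (by decide +kernel)
            (CovZ.leaf K2_ok TD_l9742 _)
            (CovZ.leaf K3_ok TD_l9743 _))
           (CovZ.leaf K3_ok TD_l9744 _))
          (CovZ.leaf K2_ok TD_l9745 _))
         (CovZ.n1 (28608, 28032) (by decide +kernel)
          (CovZ.leaf K2_ok TD_l9746 _)
          (CovZ.n1 (28512, 27936) (by decide +kernel)
           (CovZ.leaf K3_ok TD_l9747 _)
           (CovZ.leaf K2_ok TD_l9748 _))))))))))
    (CovZ.topM TD_LL 31106013165409115760698646082463497452804033209370054753881125167226274947989273114888914169889321047822354 (by decide +kernel) (CovZ.n0 (28416, 28416) (by decide +kernel)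
    (CovZ.n2 (27648, 28416) (by decide +kernel)
     (CovZ.n2 (28032, 28800) (by decide +kernel)
      (CovZ.n2 (28032, 28416) (by decide +kernel)
       (CovZ.n2 (27840, 28608) (by decide +kernel)
        (CovZ.n2 (28032, 28608) (by decide +kernel)
         (CovZ.n2 (27936, 28512) (by decide +kernel)
          (CovZ.leaf K3_ok TD_l9749 _)
          (CovZ.leaf K3_ok TD_l9750 _))
         (CovZ.leaf K2_ok TD_l9751 _))
        (CovZ.n1 (27840, 28416) (by decide +kernel)
         (CovZ.n2 (27744, 28512) (by decide +kernel)
          (CovZ.leaf K3_ok TD_l9752 _)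
          (CovZ.leaf K3_ok TD_l9753 _))
         (CovZ.leaf K3_ok TD_l9754 _)))
       (CovZ.n1 (28224, 28608) (by decide +kernel)
        (CovZ.n2 (28224, 28416) (by decide +kernel)
         (CovZ.leaf K3_ok TD_l9755 _)
         (CovZ.leaf K3_ok TD_l9756 _))
        (CovZ.leaf K3_ok TD_l9757 _)))
      (CovZ.n1 (27648, 28800) (by decide +kernel)
       (CovZ.n2 (27840, 28992) (by decide +kernel)
        (CovZ.n2 (27840, 28800) (by decide +kernel)
         (CovZ.leaf K2_ok TD_l9758 _)
         (CovZ.leaf K2_ok TD_l9759 _))
        (CovZ.leaf K2_ok TD_l9760 _))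
       (CovZ.leaf K2_ok TD_l9761 _)))
     (CovZ.n1 (28032, 28032) (by decide +kernel)
      (CovZ.n2 (27648, 28032) (by decide +kernel)
       (CovZ.n2 (27840, 28224) (by decide +kernel)
        (CovZ.n2 (27840, 28032) (by decide +kernel)
         (CovZ.n2 (27744, 28128) (by decide +kernel)
          (CovZ.leaf K2_ok TD_l9762 _)
          (CovZ.n1 (27744, 28032) (by decide +kernel)
           (CovZ.leaf K2_ok TD_l9763 _)
           (CovZ.leaf K2_ok TD_l9764 _)))
         (CovZ.n1 (27936, 28128) (by decide +kernel)
          (CovZ.n2 (27936, 28032) (by decide +kernel)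
           (CovZ.leaf K2_ok TD_l9765 _)
           (CovZ.leaf K2_ok TD_l9766 _))
          (CovZ.leaf K2_ok TD_l9767 _)))
        (CovZ.n1 (27648, 28224) (by decide +kernel)
         (CovZ.n2 (27744, 28320) (by decide +kernel)
          (CovZ.leaf K2_ok TD_l9768 _)
          (CovZ.leaf K2_ok TD_l9769 _))
         (CovZ.leaf K2_ok TD_l9770 _)))
       (CovZ.n1 (27840, 27840) (by decide +kernel)
        (CovZ.n2 (27648, 27840) (by decide +kernel)
         (CovZ.n2 (27744, 27936) (by decide +kernel)
          (CovZ.n2 (27744, 27840) (by decide +kernel)
           (CovZ.leaf K2_ok TD_l9771 _)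
           (CovZ.leaf K2_ok TD_l9772 _))
          (CovZ.leaf K2_ok TD_l9773 _))
         (CovZ.n1 (27744, 27744) (by decide +kernel)
          (CovZ.n2 (27648, 27744) (by decide +kernel)
           (CovZ.n2 (27696, 27792) (by decide +kernel)
            (CovZ.leaf K2_ok TD_l9774 _)
            (CovZ.leaf K2_ok TD_l9775 _))
           (CovZ.leaf K2_ok TD_l9776 _))
          (CovZ.n1 (27744, 27840) (by decide +kernel)
           (CovZ.leaf K2_ok TD_l9777 _)
           (CovZ.n1 (27696, 27792) (by decide +kernel)
            (CovZ.leaf K2_ok TD_l9778 _)
            (CovZ.leaf K2_ok TD_l9779 _)))))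
        (CovZ.n1 (27840, 28032) (by decide +kernel)
         (CovZ.leaf K2_ok TD_l9780 _)
         (CovZ.n1 (27744, 27936) (by decide +kernel)
          (CovZ.leaf K2_ok TD_l9781 _)
          (CovZ.n1 (27840, 27936) (by decide +kernel)
           (CovZ.leaf K2_ok TD_l9782 _)
           (CovZ.leaf K2_ok TD_l9783 _))))))
      (CovZ.n1 (28032, 28416) (by decide +kernel)
       (CovZ.n2 (28224, 28224) (by decide +kernel)
        (CovZ.n2 (28032, 28224) (by decide +kernel)
         (CovZ.n2 (28128, 28320) (by decide +kernel)
          (CovZ.leaf K3_ok TD_l9784 _)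
          (CovZ.leaf K3_ok TD_l9785 _))
         (CovZ.leaf K2_ok TD_l9786 _))
        (CovZ.n1 (28224, 28416) (by decide +kernel)
         (CovZ.leaf K3_ok TD_l9787 _)
         (CovZ.n1 (28128, 28320) (by decide +kernel)
          (CovZ.leaf K3_ok TD_l9788 _)
          (CovZ.leaf K3_ok TD_l9789 _))))
       (CovZ.n1 (27840, 28224) (by decide +kernel)
        (CovZ.n2 (27840, 28416) (by decide +kernel)
         (CovZ.leaf K3_ok TD_l9790 _)
         (CovZ.n1 (27744, 28320) (by decide +kernel)
          (CovZ.leaf K3_ok TD_l9791 _)
          (CovZ.leaf K2_ok TD_l9792 _)))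
        (CovZ.n1 (28032, 28224) (by decide +kernel)
         (CovZ.n2 (27936, 28128) (by decide +kernel)
          (CovZ.leaf K2_ok TD_l9793 _)
          (CovZ.leaf K2_ok TD_l9794 _))
         (CovZ.n1 (27936, 28320) (by decide +kernel)
          (CovZ.leaf K3_ok TD_l9795 _)
          (CovZ.n1 (27936, 28224) (by decide +kernel)
           (CovZ.leaf K2_ok TD_l9796 _)
           (CovZ.leaf K2_ok TD_l9797 _))))))))
    (CovZ.n1 (28416, 29184) (by decide +kernel)
     (CovZ.subM 10321024457773116968717031851352377250495215710229168916201032372590725300687521609042161047523861902921746 (by decide +kernel)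
      (CovZ.n2 (28800, 28800) (by decide +kernel)
       (CovZ.n2 (28416, 28800) (by decide +kernel)
        (CovZ.n2 (28608, 28992) (by decide +kernel)
         (CovZ.n2 (28608, 28800) (by decide +kernel)
          (CovZ.leaf K3_ok TD_l9798 _)
          (CovZ.leaf K2_ok TD_l9799 _))
         (CovZ.leaf K2_ok TD_l9800 _))
        (CovZ.leaf K3_ok TD_l9801 _))
       (CovZ.n1 (28800, 29184) (by decide +kernel)
        (CovZ.leaf K3_ok TD_l9802 _)
        (CovZ.n1 (28608, 28992) (by decide +kernel)
         (CovZ.leaf K2_ok TD_l9803 _)
         (CovZ.n1 (28800, 28992) (by decide +kernel)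
          (CovZ.leaf K2_ok TD_l9804 _)
          (CovZ.leaf K3_ok TD_l9805 _))))))
     (CovZ.n1 (28032, 28800) (by decide +kernel)
      (CovZ.n2 (28032, 29184) (by decide +kernel)
       (CovZ.leaf K3_ok TD_l9806 _)
       (CovZ.n1 (27840, 28992) (by decide +kernel)
        (CovZ.leaf K2_ok TD_l9807 _)
        (CovZ.n1 (28032, 28992) (by decide +kernel)
         (CovZ.leaf K3_ok TD_l9808 _)
         (CovZ.leaf K3_ok TD_l9809 _))))
      (CovZ.n1 (28416, 28800) (by decide +kernel)
       (CovZ.n2 (28224, 28608) (by decide +kernel)
        (CovZ.leaf K3_ok TD_l9810 _)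
        (CovZ.n1 (28416, 28608) (by decide +kernel)
         (CovZ.n2 (28320, 28512) (by decide +kernel)
          (CovZ.leaf K2_ok TD_l9811 _)
          (CovZ.leaf K3_ok TD_l9812 _))
         (CovZ.leaf K2_ok TD_l9813 _)))
       (CovZ.n1 (28224, 28992) (by decide +kernel)
        (CovZ.n2 (28416, 28992) (by decide +kernel)
         (CovZ.leaf K2_ok TD_l9814 _)
         (CovZ.leaf K2_ok TD_l9815 _))
        (CovZ.n1 (28224, 28800) (by decide +kernel)
         (CovZ.leaf K2_ok TD_l9816 _)
         (CovZ.leaf K3_ok TD_l9817 _))))))))

theorem TD_s7_10 : SqZ TD_M TD_L [0, 7, 6, 1] 18432 12288 1536 7 10 :=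
  SqZ.mk (a := 29184) (b := 30720) (c := 27648) (d := 29184) (by norm_num) (by norm_num) (by norm_num) (by norm_num)
    (CovZ.topM TD_LL 683549230366222998115734792046139932116742554760447804633104961609517543107317610483654784982716434 (by decide +kernel) (CovZ.n2 (29952, 28416) (by decide +kernel)
    (CovZ.subM 546846060067284510008841860500162534049019270605021354991595125550827077310975809760085850060226578 (by decide +kernel)
     (CovZ.n2 (30720, 28416) (by decide +kernel)
      (CovZ.n2 (30336, 28032) (by decide +kernel)
       (CovZ.n2 (30336, 28416) (by decide +kernel)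
        (CovZ.leaf K3_ok TD_l11863 _)
        (CovZ.n1 (30144, 28224) (by decide +kernel)
         (CovZ.leaf K2_ok TD_l11864 _)
         (CovZ.n1 (30336, 28224) (by decide +kernel)
          (CovZ.leaf K3_ok TD_l11865 _)
          (CovZ.leaf K3_ok TD_l11866 _))))
       (CovZ.n1 (30720, 28032) (by decide +kernel)
        (CovZ.n2 (30528, 27840) (by decide +kernel)
         (CovZ.leaf K3_ok TD_l11867 _)
         (CovZ.n1 (30720, 27840) (by decide +kernel)
          (CovZ.leaf K3_ok TD_l11868 _)
          (CovZ.leaf K3_ok TD_l11869 _)))
        (CovZ.n1 (30528, 28224) (by decide +kernel)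
         (CovZ.n2 (30720, 28224) (by decide +kernel)
          (CovZ.leaf K3_ok TD_l11870 _)
          (CovZ.leaf K2_ok TD_l11871 _))
         (CovZ.n1 (30528, 28032) (by decide +kernel)
          (CovZ.leaf K3_ok TD_l11872 _)
          (CovZ.leaf K3_ok TD_l11873 _)))))
      (CovZ.n1 (30336, 28800) (by decide +kernel)
       (CovZ.n2 (30720, 28800) (by decide +kernel)
        (CovZ.n2 (30528, 28608) (by decide +kernel)
         (CovZ.leaf K3_ok TD_l11874 _)
         (CovZ.leaf K2_ok TD_l11875 _))
        (CovZ.n1 (30528, 28992) (by decide +kernel)
         (CovZ.leaf K3_ok TD_l11876 _)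
         (CovZ.leaf K2_ok TD_l11877 _)))
       (CovZ.n1 (30336, 28416) (by decide +kernel)
        (CovZ.n2 (30144, 28608) (by decide +kernel)
         (CovZ.n2 (30336, 28608) (by decide +kernel)
          (CovZ.leaf K2_ok TD_l11878 _)
          (CovZ.leaf K2_ok TD_l11879 _))
         (CovZ.n1 (30144, 28416) (by decide +kernel)
          (CovZ.leaf K3_ok TD_l11880 _)
          (CovZ.leaf K2_ok TD_l11881 _)))
        (CovZ.n1 (30528, 28608) (by decide +kernel)
         (CovZ.n2 (30528, 28416) (by decide +kernel)
          (CovZ.leaf K2_ok TD_l11882 _)
          (CovZ.leaf K2_ok TD_l11883 _))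
         (CovZ.leaf K3_ok TD_l11884 _))))))
    (CovZ.n1 (29952, 27648) (by decide +kernel)
     (CovZ.n2 (29568, 28032) (by decide +kernel)
      (CovZ.n2 (29952, 28032) (by decide +kernel)
       (CovZ.n2 (29760, 27840) (by decide +kernel)
        (CovZ.leaf K2_ok TD_l11885 _)
        (CovZ.n1 (29952, 27840) (by decide +kernel)
         (CovZ.leaf K2_ok TD_l11886 _)
         (CovZ.leaf K2_ok TD_l11887 _)))
       (CovZ.n1 (29760, 28224) (by decide +kernel)
        (CovZ.n2 (29952, 28224) (by decide +kernel)
         (CovZ.leaf K3_ok TD_l11888 _)
         (CovZ.leaf K3_ok TD_l11889 _))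
        (CovZ.n1 (29760, 28032) (by decide +kernel)
         (CovZ.leaf K3_ok TD_l11890 _)
         (CovZ.leaf K2_ok TD_l11891 _))))
      (CovZ.n1 (29568, 27648) (by decide +kernel)
       (CovZ.n2 (29376, 27840) (by decide +kernel)
        (CovZ.subM 683549230366207213930985443641590630591039730686681805398327811658313015010673166872947555087941650 (by decide +kernel)
         (CovZ.n2 (29568, 27840) (by decide +kernel)
          (CovZ.n2 (29472, 27744) (by decide +kernel)
           (CovZ.leaf K2_ok TD_l11892 _)
           (CovZ.leaf K2_ok TD_l11893 _))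
          (CovZ.n1 (29472, 27936) (by decide +kernel)
           (CovZ.leaf K2_ok TD_l11894 _)
           (CovZ.leaf K2_ok TD_l11895 _))))
        (CovZ.n1 (29376, 27648) (by decide +kernel)
         (CovZ.n2 (29280, 27744) (by decide +kernel)
          (CovZ.leaf K2_ok TD_l11896 _)
          (CovZ.leaf K2_ok TD_l11897 _))
         (CovZ.n1 (29472, 27744) (by decide +kernel)
          (CovZ.leaf K2_ok TD_l11898 _)
          (CovZ.leaf K2_ok TD_l11899 _))))
       (CovZ.n1 (29760, 27840) (by decide +kernel)
        (CovZ.n2 (29760, 27648) (by decide +kernel)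
         (CovZ.n2 (29664, 27744) (by decide +kernel)
          (CovZ.leaf K2_ok TD_l11900 _)
          (CovZ.leaf K2_ok TD_l11901 _))
         (CovZ.leaf K2_ok TD_l11902 _))
        (CovZ.leaf K2_ok TD_l11903 _))))
     (CovZ.subM 546846060067284510008841860500162534049019270605021354991595125550827077310975809760085850060226578 (by decide +kernel)
      (CovZ.n1 (30336, 28032) (by decide +kernel)
       (CovZ.n2 (30336, 27648) (by decide +kernel)
        (CovZ.n2 (30144, 27840) (by decide +kernel)
         (CovZ.n2 (30336, 27840) (by decide +kernel)
          (CovZ.leaf K2_ok TD_l11904 _)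
          (CovZ.leaf K2_ok TD_l11905 _))
         (CovZ.n1 (30144, 27648) (by decide +kernel)
          (CovZ.leaf K3_ok TD_l11906 _)
          (CovZ.leaf K2_ok TD_l11907 _)))
        (CovZ.n1 (30528, 27840) (by decide +kernel)
         (CovZ.n2 (30528, 27648) (by decide +kernel)
          (CovZ.leaf K3_ok TD_l11908 _)
          (CovZ.leaf K3_ok TD_l11909 _))
         (CovZ.leaf K2_ok TD_l11910 _)))
       (CovZ.n1 (29952, 28032) (by decide +kernel)
        (CovZ.n2 (30144, 28224) (by decide +kernel)
         (CovZ.n2 (30144, 28032) (by decide +kernel)
          (CovZ.leaf K3_ok TD_l11911 _)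
          (CovZ.leaf K3_ok TD_l11912 _))
         (CovZ.leaf K3_ok TD_l11913 _))
        (CovZ.leaf K2_ok TD_l11914 _)))))))
    (CovZ.topM TD_LL 683549230366222998115734792046139932116742554760447804633104961609517543107317610483654853702193170 (by decide +kernel) (CovZ.n0 (29952, 28416) (by decide +kernel)
    (CovZ.n2 (29184, 28416) (by decide +kernel)
     (CovZ.n2 (29568, 28800) (by decide +kernel)
      (CovZ.n2 (29568, 28416) (by decide +kernel)
       (CovZ.n2 (29376, 28608) (by decide +kernel)
        (CovZ.n2 (29568, 28608) (by decide +kernel)
         (CovZ.leaf K2_ok TD_l11915 _)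
         (CovZ.leaf K2_ok TD_l11916 _))
        (CovZ.n1 (29376, 28416) (by decide +kernel)
         (CovZ.leaf K2_ok TD_l11917 _)
         (CovZ.leaf K2_ok TD_l11918 _)))
       (CovZ.n1 (29760, 28608) (by decide +kernel)
        (CovZ.n2 (29760, 28416) (by decide +kernel)
         (CovZ.leaf K2_ok TD_l11919 _)
         (CovZ.leaf K3_ok TD_l11920 _))
        (CovZ.leaf K2_ok TD_l11921 _)))
      (CovZ.n1 (29184, 28800) (by decide +kernel)
       (CovZ.n2 (29376, 28992) (by decide +kernel)
        (CovZ.n2 (29376, 28800) (by decide +kernel)
         (CovZ.leaf K2_ok TD_l11922 _)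
         (CovZ.leaf K2_ok TD_l11923 _))
        (CovZ.leaf K3_ok TD_l11924 _))
       (CovZ.leaf K2_ok TD_l11925 _)))
     (CovZ.n1 (29568, 28032) (by decide +kernel)
      (CovZ.n2 (29184, 28032) (by decide +kernel)
       (CovZ.n2 (29376, 28224) (by decide +kernel)
        (CovZ.n2 (29376, 28032) (by decide +kernel)
         (CovZ.leaf K2_ok TD_l11926 _)
         (CovZ.leaf K2_ok TD_l11927 _))
        (CovZ.leaf K2_ok TD_l11928 _))
       (CovZ.n1 (29376, 27840) (by decide +kernel)
        (CovZ.n2 (29184, 27840) (by decide +kernel)
         (CovZ.n2 (29280, 27936) (by decide +kernel)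
          (CovZ.leaf K2_ok TD_l11929 _)
          (CovZ.leaf K2_ok TD_l11930 _))
         (CovZ.leaf K2_ok TD_l11931 _))
        (CovZ.n1 (29376, 28032) (by decide +kernel)
         (CovZ.leaf K2_ok TD_l11932 _)
         (CovZ.n1 (29280, 27936) (by decide +kernel)
          (CovZ.leaf K2_ok TD_l11933 _)
          (CovZ.leaf K2_ok TD_l11934 _)))))
      (CovZ.n1 (29568, 28416) (by decide +kernel)
       (CovZ.leaf K2_ok TD_l11935 _)
       (CovZ.n1 (29376, 28224) (by decide +kernel)
        (CovZ.leaf K2_ok TD_l11936 _)
        (CovZ.n1 (29568, 28224) (by decide +kernel)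
         (CovZ.leaf K2_ok TD_l11937 _)
         (CovZ.leaf K2_ok TD_l11938 _))))))
    (CovZ.n1 (29952, 29184) (by decide +kernel)
     (CovZ.subM 546846060067284510008841860500162534049019270605021354991595125550827077310975809760085850060226578 (by decide +kernel)
      (CovZ.n2 (30336, 28800) (by decide +kernel)
       (CovZ.n2 (29952, 28800) (by decide +kernel)
        (CovZ.n2 (30144, 28992) (by decide +kernel)
         (CovZ.leaf K2_ok TD_l11939 _)
         (CovZ.leaf K2_ok TD_l11940 _))
        (CovZ.leaf K2_ok TD_l11941 _))
       (CovZ.n1 (30336, 29184) (by decide +kernel)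
        (CovZ.leaf K3_ok TD_l11942 _)
        (CovZ.n1 (30144, 28992) (by decide +kernel)
         (CovZ.leaf K2_ok TD_l11943 _)
         (CovZ.leaf K3_ok TD_l11944 _)))))
     (CovZ.n1 (29568, 28800) (by decide +kernel)
      (CovZ.n2 (29568, 29184) (by decide +kernel)
       (CovZ.leaf K2_ok TD_l11945 _)
       (CovZ.n1 (29376, 28992) (by decide +kernel)
        (CovZ.leaf K2_ok TD_l11946 _)
        (CovZ.leaf K2_ok TD_l11947 _)))
      (CovZ.subM 546846060067268968657704054667595178353764682453768215736882708434657062811700259709327118191558674 (by decide +kernel)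
       (CovZ.n1 (29952, 28800) (by decide +kernel)
        (CovZ.n2 (29760, 28608) (by decide +kernel)
         (CovZ.leaf K2_ok TD_l11948 _)
         (CovZ.n1 (29952, 28608) (by decide +kernel)
          (CovZ.leaf K3_ok TD_l11949 _)
          (CovZ.leaf K2_ok TD_l11950 _)))
        (CovZ.n1 (29760, 28992) (by decide +kernel)
         (CovZ.leaf K2_ok TD_l11951 _)
         (CovZ.leaf K2_ok TD_l11952 _))))))))

theorem TD_s8_10 : SqZ TD_M TD_L [0, 7, 6, 1] 18432 12288 1536 8 10 :=
  SqZ.mk (a := 30720) (b := 32256) (c := 27648) (d := 29184) (by norm_num) (by norm_num) (by norm_num) (by norm_num)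
    (CovZ.topM TD_LL 546812685269840475113235535369719956949601309175451991360590440820223158681227207658179725307150352 (by decide +kernel) (CovZ.n2 (31488, 28416) (by decide +kernel)
    (CovZ.subM 4074087494020109978369458732514010910254189926608885663586981536349576229033612211634307072 (by decide +kernel)
     (CovZ.n2 (32256, 28416) (by decide +kernel)
      (CovZ.n2 (31872, 28032) (by decide +kernel)
       (CovZ.n2 (31872, 28416) (by decide +kernel)
        (CovZ.badM (by decide +kernel))
        (CovZ.n1 (31680, 28224) (by decide +kernel)
         (CovZ.leaf K3_ok TD_l13986 _)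
         (CovZ.badM (by decide +kernel))))
       (CovZ.badM (by decide +kernel)))
      (CovZ.n1 (31872, 28800) (by decide +kernel)
       (CovZ.badM (by decide +kernel))
       (CovZ.n1 (31872, 28416) (by decide +kernel)
        (CovZ.n2 (31680, 28608) (by decide +kernel)
         (CovZ.badM (by decide +kernel))
         (CovZ.n1 (31680, 28416) (by decide +kernel)
          (CovZ.leaf K2_ok TD_l14007 _)
          (CovZ.badM (by decide +kernel))))
        (CovZ.badM (by decide +kernel))))))
    (CovZ.n1 (31488, 27648) (by decide +kernel)
     (CovZ.n2 (31104, 28032) (by decide +kernel)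
      (CovZ.n2 (31488, 28032) (by decide +kernel)
       (CovZ.n2 (31296, 27840) (by decide +kernel)
        (CovZ.leaf K2_ok TD_l14012 _)
        (CovZ.n1 (31488, 27840) (by decide +kernel)
         (CovZ.n2 (31392, 27744) (by decide +kernel)
          (CovZ.leaf K2_ok TD_l14013 _)
          (CovZ.leaf K2_ok TD_l14014 _))
         (CovZ.leaf K2_ok TD_l14015 _)))
       (CovZ.n1 (31296, 28224) (by decide +kernel)
        (CovZ.n2 (31488, 28224) (by decide +kernel)
         (CovZ.leaf K3_ok TD_l14016 _)
         (CovZ.leaf K2_ok TD_l14017 _))
        (CovZ.n1 (31296, 28032) (by decide +kernel)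
         (CovZ.leaf K3_ok TD_l14018 _)
         (CovZ.leaf K2_ok TD_l14019 _))))
      (CovZ.n1 (31104, 27648) (by decide +kernel)
       (CovZ.n2 (30912, 27840) (by decide +kernel)
        (CovZ.n2 (31104, 27840) (by decide +kernel)
         (CovZ.leaf K2_ok TD_l14020 _)
         (CovZ.leaf K3_ok TD_l14021 _))
        (CovZ.n1 (30912, 27648) (by decide +kernel)
         (CovZ.leaf K2_ok TD_l14022 _)
         (CovZ.leaf K3_ok TD_l14023 _)))
       (CovZ.n1 (31296, 27840) (by decide +kernel)
        (CovZ.n2 (31296, 27648) (by decide +kernel)
         (CovZ.n2 (31200, 27744) (by decide +kernel)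
          (CovZ.leaf K3_ok TD_l14024 _)
          (CovZ.leaf K2_ok TD_l14025 _))
         (CovZ.leaf K2_ok TD_l14026 _))
        (CovZ.leaf K3_ok TD_l14027 _))))
     (CovZ.subM 4074087494020109978369458732514010910254189926608885663586981536349576229033612211634307072 (by decide +kernel)
      (CovZ.n1 (31872, 28032) (by decide +kernel)
       (CovZ.n2 (31872, 27648) (by decide +kernel)
        (CovZ.n2 (31680, 27840) (by decide +kernel)
         (CovZ.badM (by decide +kernel))
         (CovZ.n1 (31680, 27648) (by decide +kernel)
          (CovZ.n2 (31584, 27744) (by decide +kernel)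
           (CovZ.badM (by decide +kernel))
           (CovZ.leaf K3_ok TD_l14032 _))
          (CovZ.badM (by decide +kernel))))
        (CovZ.badM (by decide +kernel)))
       (CovZ.n1 (31488, 28032) (by decide +kernel)
        (CovZ.n2 (31680, 28224) (by decide +kernel)
         (CovZ.n2 (31680, 28032) (by decide +kernel)
          (CovZ.leaf K2_ok TD_l14041 _)
          (CovZ.badM (by decide +kernel)))
         (CovZ.leaf K2_ok TD_l14043 _))
        (CovZ.n1 (31680, 27840) (by decide +kernel)
         (CovZ.n2 (31488, 27840) (by decide +kernel)
          (CovZ.leaf K2_ok TD_l14044 _)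
          (CovZ.leaf K2_ok TD_l14045 _))
         (CovZ.leaf K2_ok TD_l14046 _))))))))
    (CovZ.topM TD_LL 546812685269840475113235535369719956949601309175451991360590440820223158681227207658179725307150352 (by decide +kernel) (CovZ.n0 (31488, 28416) (by decide +kernel)
    (CovZ.n2 (30720, 28416) (by decide +kernel)
     (CovZ.n2 (31104, 28800) (by decide +kernel)
      (CovZ.n2 (31104, 28416) (by decide +kernel)
       (CovZ.n2 (30912, 28608) (by decide +kernel)
        (CovZ.n2 (31104, 28608) (by decide +kernel)
         (CovZ.leaf K3_ok TD_l14047 _)
         (CovZ.leaf K2_ok TD_l14048 _))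
        (CovZ.n1 (30912, 28416) (by decide +kernel)
         (CovZ.leaf K2_ok TD_l14049 _)
         (CovZ.leaf K3_ok TD_l14050 _)))
       (CovZ.n1 (31296, 28608) (by decide +kernel)
        (CovZ.n2 (31296, 28416) (by decide +kernel)
         (CovZ.leaf K3_ok TD_l14051 _)
         (CovZ.leaf K3_ok TD_l14052 _))
        (CovZ.leaf K3_ok TD_l14053 _)))
      (CovZ.n1 (30720, 28800) (by decide +kernel)
       (CovZ.n2 (30912, 28992) (by decide +kernel)
        (CovZ.leaf K2_ok TD_l14054 _)
        (CovZ.leaf K2_ok TD_l14055 _))
       (CovZ.leaf K2_ok TD_l14056 _)))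
     (CovZ.n1 (31104, 28032) (by decide +kernel)
      (CovZ.n2 (30720, 28032) (by decide +kernel)
       (CovZ.n2 (30912, 28224) (by decide +kernel)
        (CovZ.n2 (30912, 28032) (by decide +kernel)
         (CovZ.leaf K3_ok TD_l14057 _)
         (CovZ.leaf K2_ok TD_l14058 _))
        (CovZ.leaf K2_ok TD_l14059 _))
       (CovZ.leaf K2_ok TD_l14060 _))
      (CovZ.n1 (31104, 28416) (by decide +kernel)
       (CovZ.leaf K2_ok TD_l14061 _)
       (CovZ.n1 (30912, 28224) (by decide +kernel)
        (CovZ.leaf K3_ok TD_l14062 _)
        (CovZ.n1 (31104, 28224) (by decide +kernel)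
         (CovZ.leaf K3_ok TD_l14063 _)
         (CovZ.leaf K2_ok TD_l14064 _))))))
    (CovZ.n1 (31488, 29184) (by decide +kernel)
     (CovZ.subM 4074087494020109978369458732514010910254189926608885663586981536349576229033612211634307072 (by decide +kernel)
      (CovZ.n2 (31872, 28800) (by decide +kernel)
       (CovZ.n2 (31488, 28800) (by decide +kernel)
        (CovZ.n2 (31680, 28992) (by decide +kernel)
         (CovZ.leaf K2_ok TD_l14065 _)
         (CovZ.leaf K2_ok TD_l14066 _))
        (CovZ.leaf K2_ok TD_l14067 _))
       (CovZ.n1 (31872, 29184) (by decide +kernel)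
        (CovZ.badM (by decide +kernel))
        (CovZ.n1 (31680, 28992) (by decide +kernel)
         (CovZ.leaf K3_ok TD_l14069 _)
         (CovZ.badM (by decide +kernel))))))
     (CovZ.n1 (31104, 28800) (by decide +kernel)
      (CovZ.n2 (31104, 29184) (by decide +kernel)
       (CovZ.leaf K3_ok TD_l14071 _)
       (CovZ.n1 (30912, 28992) (by decide +kernel)
        (CovZ.leaf K2_ok TD_l14072 _)
        (CovZ.leaf K3_ok TD_l14073 _)))
      (CovZ.n1 (31488, 28800) (by decide +kernel)
       (CovZ.n2 (31296, 28608) (by decide +kernel)
        (CovZ.leaf K3_ok TD_l14074 _)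
        (CovZ.n1 (31488, 28608) (by decide +kernel)
         (CovZ.leaf K3_ok TD_l14075 _)
         (CovZ.leaf K2_ok TD_l14076 _)))
       (CovZ.n1 (31296, 28992) (by decide +kernel)
        (CovZ.leaf K2_ok TD_l14077 _)
        (CovZ.leaf K2_ok TD_l14078 _)))))))

theorem TD_s0_11 : SqZ TD_M TD_L [0, 7, 6, 1] 18432 12288 1536 0 11 :=
  SqZ.mk (a := 18432) (b := 19968) (c := 29184) (d := 30720) (by norm_num) (by norm_num) (by norm_num) (by norm_num)
    (CovZ.topM TD_LL 0 (by decide +kernel) (CovZ.badM (by decide +kernel)))
    (CovZ.topM TD_LL 0 (by decide +kernel) (CovZ.badM (by decide +kernel)))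

theorem TD_s1_11 : SqZ TD_M TD_L [0, 7, 6, 1] 18432 12288 1536 1 11 :=
  SqZ.mk (a := 19968) (b := 21504) (c := 29184) (d := 30720) (by norm_num) (by norm_num) (by norm_num) (by norm_num)
    (CovZ.topM TD_LL 0 (by decide +kernel) (CovZ.badM (by decide +kernel)))
    (CovZ.topM TD_LL 0 (by decide +kernel) (CovZ.badM (by decide +kernel)))

theorem TD_s2_11 : SqZ TD_M TD_L [0, 7, 6, 1] 18432 12288 1536 2 11 :=
  SqZ.mk (a := 21504) (b := 23040) (c := 29184) (d := 30720) (by norm_num) (by norm_num) (by norm_num) (by norm_num)
    (CovZ.topM TD_LL 1119872371088902105278721140284222139060822748617324767449994550481895935590080472690438746635803557888 (by decide +kernel) (CovZ.n2 (22272, 29952) (by decide +kernel)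
    (CovZ.n2 (23040, 29952) (by decide +kernel)
     (CovZ.n2 (22656, 29568) (by decide +kernel)
      (CovZ.n2 (22656, 29952) (by decide +kernel)
       (CovZ.badM (by decide +kernel))
       (CovZ.badM (by decide +kernel)))
      (CovZ.badM (by decide +kernel)))
     (CovZ.n1 (22656, 30336) (by decide +kernel)
      (CovZ.n2 (23040, 30336) (by decide +kernel)
       (CovZ.n2 (22848, 30144) (by decide +kernel)
        (CovZ.n2 (22848, 30336) (by decide +kernel)
         (CovZ.n2 (22944, 30240) (by decide +kernel)
          (CovZ.n2 (22848, 30240) (by decide +kernel)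
           (CovZ.n2 (22896, 30288) (by decide +kernel)
            (CovZ.n2 (22896, 30240) (by decide +kernel)
             (CovZ.badM (by decide +kernel))
             (CovZ.leaf K2_ok TD_l1453 _))
            (CovZ.badM (by decide +kernel)))
           (CovZ.n1 (22896, 30192) (by decide +kernel)
            (CovZ.badM (by decide +kernel))
            (CovZ.n1 (22896, 30240) (by decide +kernel)
             (CovZ.leaf K3_ok TD_l18865 _)
             (CovZ.badM (by decide +kernel)))))
          (CovZ.n1 (22944, 30336) (by decide +kernel)
           (CovZ.leaf K2_ok TD_l1455 _)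
           (CovZ.n1 (22896, 30288) (by decide +kernel)
            (CovZ.leaf K2_ok TD_l1456 _)
            (CovZ.n1 (22944, 30288) (by decide +kernel)
             (CovZ.leaf K2_ok TD_l1457 _)
             (CovZ.leaf K3_ok TD_l1458 _)))))
         (CovZ.badM (by decide +kernel)))
        (CovZ.n1 (23040, 30144) (by decide +kernel)
         (CovZ.badM (by decide +kernel))
         (CovZ.n1 (22944, 30240) (by decide +kernel)
          (CovZ.n2 (23040, 30240) (by decide +kernel)
           (CovZ.n2 (22992, 30192) (by decide +kernel)
            (CovZ.n2 (22992, 30240) (by decide +kernel)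
             (CovZ.leaf K2_ok TD_l1474 _)
             (CovZ.leaf K2_ok TD_l18866 _))
            (CovZ.n1 (23040, 30192) (by decide +kernel)
             (CovZ.badM (by decide +kernel))
             (CovZ.leaf K3_ok TD_l1475 _)))
           (CovZ.n1 (22992, 30288) (by decide +kernel)
            (CovZ.leaf K3_ok TD_l1476 _)
            (CovZ.n1 (22992, 30240) (by decide +kernel)
             (CovZ.leaf K2_ok TD_l1477 _)
             (CovZ.leaf K2_ok TD_l1478 _))))
          (CovZ.n1 (22944, 30144) (by decide +kernel)
           (CovZ.n2 (22896, 30192) (by decide +kernel)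
            (CovZ.n2 (22944, 30192) (by decide +kernel)
             (CovZ.n2 (22920, 30168) (by decide +kernel)
              (CovZ.leaf K3_ok TD_l18867 _)
              (CovZ.leaf K2_ok TD_l18868 _))
             (CovZ.n1 (22920, 30216) (by decide +kernel)
              (CovZ.leaf K2_ok TD_l18869 _)
              (CovZ.leaf K2_ok TD_l18870 _)))
            (CovZ.n1 (22896, 30144) (by decide +kernel)
             (CovZ.badM (by decide +kernel))
             (CovZ.n1 (22920, 30168) (by decide +kernel)
              (CovZ.badM (by decide +kernel))
              (CovZ.leaf K2_ok TD_l18871 _))))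
           (CovZ.n1 (22992, 30192) (by decide +kernel)
            (CovZ.badM (by decide +kernel))
            (CovZ.leaf K3_ok TD_l18872 _))))))
       (CovZ.n1 (22848, 30528) (by decide +kernel)
        (CovZ.n2 (23040, 30528) (by decide +kernel)
         (CovZ.n2 (22944, 30432) (by decide +kernel)
          (CovZ.n2 (22944, 30528) (by decide +kernel)
           (CovZ.leaf K3_ok TD_l1479 _)
           (CovZ.leaf K3_ok TD_l1480 _))
          (CovZ.n1 (23040, 30432) (by decide +kernel)
           (CovZ.n2 (22992, 30384) (by decide +kernel)
            (CovZ.leaf K2_ok TD_l1481 _)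
            (CovZ.leaf K2_ok TD_l1482 _))
           (CovZ.leaf K2_ok TD_l1483 _)))
         (CovZ.n1 (22944, 30624) (by decide +kernel)
          (CovZ.leaf K3_ok TD_l1484 _)
          (CovZ.n1 (22944, 30528) (by decide +kernel)
           (CovZ.leaf K2_ok TD_l1485 _)
           (CovZ.leaf K3_ok TD_l1486 _))))
        (CovZ.n1 (22848, 30336) (by decide +kernel)
         (CovZ.badM (by decide +kernel))
         (CovZ.n1 (22944, 30432) (by decide +kernel)
          (CovZ.n2 (22944, 30336) (by decide +kernel)
           (CovZ.n2 (22896, 30384) (by decide +kernel)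
            (CovZ.leaf K2_ok TD_l1498 _)
            (CovZ.n1 (22896, 30336) (by decide +kernel)
             (CovZ.badM (by decide +kernel))
             (CovZ.leaf K2_ok TD_l1500 _)))
           (CovZ.n1 (22992, 30384) (by decide +kernel)
            (CovZ.leaf K2_ok TD_l1501 _)
            (CovZ.leaf K2_ok TD_l1502 _)))
          (CovZ.leaf K3_ok TD_l1503 _)))))
      (CovZ.n1 (22656, 29952) (by decide +kernel)
       (CovZ.badM (by decide +kernel))
       (CovZ.n1 (22848, 30144) (by decide +kernel)
        (CovZ.badM (by decide +kernel))
        (CovZ.badM (by decide +kernel))))))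
    (CovZ.n1 (22272, 29184) (by decide +kernel)
     (CovZ.badM (by decide +kernel))
     (CovZ.n1 (22656, 29568) (by decide +kernel)
      (CovZ.badM (by decide +kernel))
      (CovZ.badM (by decide +kernel))))))
    (CovZ.topM TD_LL 1119872371088902105278721140284222139060822748617324767449994550481895935590080472690438746635803557888 (by decide +kernel) (CovZ.n0 (22272, 29952) (by decide +kernel)
    (CovZ.badM (by decide +kernel))
    (CovZ.n1 (22272, 30720) (by decide +kernel)
     (CovZ.n2 (22656, 30336) (by decide +kernel)
      (CovZ.badM (by decide +kernel))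
      (CovZ.n1 (22656, 30720) (by decide +kernel)
       (CovZ.n2 (22848, 30528) (by decide +kernel)
        (CovZ.badM (by decide +kernel))
        (CovZ.n1 (22848, 30720) (by decide +kernel)
         (CovZ.leaf K3_ok TD_l1558 _)
         (CovZ.badM (by decide +kernel))))
       (CovZ.badM (by decide +kernel))))
     (CovZ.badM (by decide +kernel)))))

theorem TD_s3_11 : SqZ TD_M TD_L [0, 7, 6, 1] 18432 12288 1536 3 11 :=
  SqZ.mk (a := 23040) (b := 24576) (c := 29184) (d := 30720) (by norm_num) (by norm_num) (by norm_num) (by norm_num)
    (CovZ.topM TD_LL 36767649687590833920511215311423109485778797415342359704781551382276515459293594254241160801069208797446464 (by decide +kernel) (CovZ.n2 (23808, 29952) (by decide +kernel)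
    TD_u164
    TD_u165))
    (CovZ.topM TD_LL 36768769559961922822616494032563393707917858238090977029549001376826997355229184334713851239815844601004352 (by decide +kernel) (CovZ.n0 (23808, 29952) (by decide +kernel)
    (CovZ.subM 36697097728212233087878413045973675274884100649441115304568871424741247913351347009592987288508646788432128 (by decide +kernel)
     (CovZ.n2 (23040, 29952) (by decide +kernel)
      (CovZ.n2 (23424, 30336) (by decide +kernel)
       (CovZ.n2 (23424, 29952) (by decide +kernel)
        (CovZ.badM (by decide +kernel))
        (CovZ.n1 (23616, 30144) (by decide +kernel)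
         (CovZ.n2 (23616, 29952) (by decide +kernel)
          (CovZ.badM (by decide +kernel))
          (CovZ.n1 (23712, 30048) (by decide +kernel)
           (CovZ.n2 (23712, 29952) (by decide +kernel)
            (CovZ.badM (by decide +kernel))
            (CovZ.n1 (23760, 30000) (by decide +kernel)
             (CovZ.n2 (23760, 29952) (by decide +kernel)
              (CovZ.badM (by decide +kernel))
              (CovZ.leaf K2_ok TD_l3446 _))
             (CovZ.badM (by decide +kernel))))
           (CovZ.badM (by decide +kernel))))
         (CovZ.badM (by decide +kernel))))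
       (CovZ.n1 (23040, 30336) (by decide +kernel)
        (CovZ.n2 (23232, 30528) (by decide +kernel)
         (CovZ.n2 (23232, 30336) (by decide +kernel)
          (CovZ.n2 (23136, 30432) (by decide +kernel)
           (CovZ.n2 (23232, 30432) (by decide +kernel)
            (CovZ.leaf K3_ok TD_l3461 _)
            (CovZ.leaf K3_ok TD_l3462 _))
           (CovZ.n1 (23136, 30336) (by decide +kernel)
            (CovZ.n2 (23088, 30384) (by decide +kernel)
             (CovZ.leaf K3_ok TD_l3463 _)
             (CovZ.leaf K3_ok TD_l3464 _))
            (CovZ.leaf K3_ok TD_l3465 _)))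
          (CovZ.n1 (23328, 30432) (by decide +kernel)
           (CovZ.n2 (23328, 30336) (by decide +kernel)
            (CovZ.leaf K3_ok TD_l3466 _)
            (CovZ.leaf K2_ok TD_l3467 _))
           (CovZ.leaf K2_ok TD_l3468 _)))
         (CovZ.n1 (23040, 30528) (by decide +kernel)
          (CovZ.n2 (23136, 30624) (by decide +kernel)
           (CovZ.n2 (23136, 30528) (by decide +kernel)
            (CovZ.leaf K3_ok TD_l3469 _)
            (CovZ.leaf K3_ok TD_l3470 _))
           (CovZ.leaf K3_ok TD_l3471 _))
          (CovZ.leaf K2_ok TD_l3472 _)))
        (CovZ.n1 (23232, 30144) (by decide +kernel)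
         (CovZ.n2 (23040, 30144) (by decide +kernel)
          (CovZ.n2 (23136, 30240) (by decide +kernel)
           (CovZ.badM (by decide +kernel))
           (CovZ.n1 (23040, 30240) (by decide +kernel)
            (CovZ.n2 (23088, 30288) (by decide +kernel)
             (CovZ.n2 (23088, 30240) (by decide +kernel)
              (CovZ.leaf K2_ok TD_l3478 _)
              (CovZ.leaf K2_ok TD_l3479 _))
             (CovZ.leaf K3_ok TD_l3480 _))
            (CovZ.leaf K2_ok TD_l3481 _)))
          (CovZ.badM (by decide +kernel)))
         (CovZ.n1 (23232, 30336) (by decide +kernel)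
          (CovZ.n2 (23328, 30240) (by decide +kernel)
           (CovZ.n2 (23232, 30240) (by decide +kernel)
            (CovZ.n2 (23280, 30288) (by decide +kernel)
             (CovZ.badM (by decide +kernel))
             (CovZ.leaf K3_ok TD_l3484 _))
            (CovZ.badM (by decide +kernel)))
           (CovZ.n1 (23328, 30336) (by decide +kernel)
            (CovZ.leaf K3_ok TD_l3486 _)
            (CovZ.n1 (23280, 30288) (by decide +kernel)
             (CovZ.leaf K2_ok TD_l3487 _)
             (CovZ.leaf K3_ok TD_l3488 _))))
          (CovZ.n1 (23136, 30240) (by decide +kernel)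
           (CovZ.n2 (23136, 30336) (by decide +kernel)
            (CovZ.leaf K3_ok TD_l3489 _)
            (CovZ.n1 (23088, 30288) (by decide +kernel)
             (CovZ.leaf K3_ok TD_l3490 _)
             (CovZ.leaf K2_ok TD_l3491 _)))
           (CovZ.n1 (23232, 30240) (by decide +kernel)
            (CovZ.badM (by decide +kernel))
            (CovZ.n1 (23184, 30288) (by decide +kernel)
             (CovZ.leaf K2_ok TD_l3494 _)
             (CovZ.n1 (23184, 30240) (by decide +kernel)
              (CovZ.leaf K3_ok TD_l3495 _)
              (CovZ.leaf K3_ok TD_l3496 _)))))))))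
      (CovZ.n1 (23424, 29568) (by decide +kernel)
       (CovZ.badM (by decide +kernel))
       (CovZ.n1 (23424, 29952) (by decide +kernel)
        (CovZ.n2 (23616, 29760) (by decide +kernel)
         (CovZ.badM (by decide +kernel))
         (CovZ.n1 (23616, 29952) (by decide +kernel)
          (CovZ.n2 (23712, 29856) (by decide +kernel)
           (CovZ.badM (by decide +kernel))
           (CovZ.n1 (23712, 29952) (by decide +kernel)
            (CovZ.leaf K2_ok TD_l3502 _)
            (CovZ.badM (by decide +kernel))))
          (CovZ.badM (by decide +kernel))))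
        (CovZ.badM (by decide +kernel))))))
    (CovZ.n1 (23808, 30720) (by decide +kernel)
     (CovZ.n2 (24192, 30336) (by decide +kernel)
      (CovZ.subM 36768769559961922822616251198951865491783993305352624089685671075972110520877044718499141829206302701650176 (by decide +kernel)
       (CovZ.n2 (23808, 30336) (by decide +kernel)
        (CovZ.n2 (24000, 30528) (by decide +kernel)
         (CovZ.n2 (24000, 30336) (by decide +kernel)
          (CovZ.n2 (23904, 30432) (by decide +kernel)
           (CovZ.leaf K3_ok TD_l3524 _)
           (CovZ.leaf K3_ok TD_l3525 _))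
          (CovZ.n1 (24096, 30432) (by decide +kernel)
           (CovZ.leaf K2_ok TD_l3526 _)
           (CovZ.leaf K2_ok TD_l3527 _)))
         (CovZ.leaf K2_ok TD_l3528 _))
        (CovZ.n1 (24000, 30144) (by decide +kernel)
         (CovZ.n2 (23808, 30144) (by decide +kernel)
          (CovZ.n2 (23904, 30240) (by decide +kernel)
           (CovZ.n2 (23904, 30144) (by decide +kernel)
            (CovZ.leaf K2_ok TD_l3529 _)
            (CovZ.leaf K3_ok TD_l3530 _))
           (CovZ.leaf K3_ok TD_l3531 _))
          (CovZ.n1 (23904, 30048) (by decide +kernel)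
           (CovZ.leaf K3_ok TD_l3532 _)
           (CovZ.n1 (23904, 30144) (by decide +kernel)
            (CovZ.leaf K3_ok TD_l3533 _)
            (CovZ.leaf K2_ok TD_l3534 _))))
         (CovZ.n1 (24000, 30336) (by decide +kernel)
          (CovZ.leaf K3_ok TD_l3535 _)
          (CovZ.n1 (23904, 30240) (by decide +kernel)
           (CovZ.leaf K3_ok TD_l3536 _)
           (CovZ.leaf K3_ok TD_l3537 _))))))
      (CovZ.n1 (24192, 30720) (by decide +kernel)
       (CovZ.leaf K2_ok TD_l3538 _)
       (CovZ.subM 36768769559961922822616251198951865491783993305352624089685671075972110520877044718499141829206302701650176 (by decide +kernel)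
        (CovZ.n1 (24000, 30528) (by decide +kernel)
         (CovZ.n2 (24000, 30720) (by decide +kernel)
          (CovZ.leaf K3_ok TD_l3539 _)
          (CovZ.leaf K2_ok TD_l3540 _))
         (CovZ.n1 (24192, 30528) (by decide +kernel)
          (CovZ.n2 (24096, 30432) (by decide +kernel)
           (CovZ.leaf K3_ok TD_l3541 _)
           (CovZ.leaf K3_ok TD_l3542 _))
          (CovZ.leaf K2_ok TD_l3543 _))))))
     (CovZ.subM 36768769559961922822616251198951865491783993305352624089685671075972110520877044718499141829206302701650176 (by decide +kernel)
      (CovZ.n1 (23424, 30336) (by decide +kernel)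
       (CovZ.n2 (23424, 30720) (by decide +kernel)
        (CovZ.n2 (23616, 30528) (by decide +kernel)
         (CovZ.n2 (23424, 30528) (by decide +kernel)
          (CovZ.n2 (23520, 30624) (by decide +kernel)
           (CovZ.leaf K2_ok TD_l3544 _)
           (CovZ.leaf K3_ok TD_l3545 _))
          (CovZ.leaf K3_ok TD_l3546 _))
         (CovZ.n1 (23616, 30720) (by decide +kernel)
          (CovZ.leaf K3_ok TD_l3547 _)
          (CovZ.n1 (23520, 30624) (by decide +kernel)
           (CovZ.leaf K3_ok TD_l3548 _)
           (CovZ.leaf K2_ok TD_l3549 _))))
        (CovZ.n1 (23232, 30528) (by decide +kernel)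
         (CovZ.n2 (23232, 30720) (by decide +kernel)
          (CovZ.leaf K2_ok TD_l3550 _)
          (CovZ.n1 (23136, 30624) (by decide +kernel)
           (CovZ.leaf K3_ok TD_l3551 _)
           (CovZ.leaf K3_ok TD_l3552 _)))
         (CovZ.n1 (23424, 30528) (by decide +kernel)
          (CovZ.n2 (23328, 30432) (by decide +kernel)
           (CovZ.leaf K2_ok TD_l3553 _)
           (CovZ.leaf K2_ok TD_l3554 _))
          (CovZ.n1 (23328, 30624) (by decide +kernel)
           (CovZ.leaf K3_ok TD_l3555 _)
           (CovZ.leaf K3_ok TD_l3556 _)))))
       (CovZ.n1 (23808, 30336) (by decide +kernel)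
        (CovZ.n2 (23616, 30144) (by decide +kernel)
         (CovZ.n2 (23616, 30336) (by decide +kernel)
          (CovZ.leaf K2_ok TD_l3557 _)
          (CovZ.badM (by decide +kernel)))
         (CovZ.n1 (23808, 30144) (by decide +kernel)
          (CovZ.n2 (23712, 30048) (by decide +kernel)
           (CovZ.n2 (23712, 30144) (by decide +kernel)
            (CovZ.leaf K2_ok TD_l3561 _)
            (CovZ.badM (by decide +kernel)))
           (CovZ.n1 (23808, 30048) (by decide +kernel)
            (CovZ.n2 (23760, 30000) (by decide +kernel)
             (CovZ.leaf K3_ok TD_l3564 _)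
             (CovZ.leaf K2_ok TD_l3565 _))
            (CovZ.leaf K2_ok TD_l3566 _)))
          (CovZ.n1 (23712, 30240) (by decide +kernel)
           (CovZ.leaf K2_ok TD_l3567 _)
           (CovZ.n1 (23712, 30144) (by decide +kernel)
            (CovZ.badM (by decide +kernel))
            (CovZ.leaf K2_ok TD_l3569 _)))))
        (CovZ.n1 (23616, 30528) (by decide +kernel)
         (CovZ.n2 (23808, 30528) (by decide +kernel)
          (CovZ.n2 (23712, 30432) (by decide +kernel)
           (CovZ.leaf K3_ok TD_l3570 _)
           (CovZ.leaf K3_ok TD_l3571 _))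
          (CovZ.leaf K2_ok TD_l3572 _))
         (CovZ.n1 (23616, 30336) (by decide +kernel)
          (CovZ.n2 (23520, 30432) (by decide +kernel)
           (CovZ.leaf K2_ok TD_l3573 _)
           (CovZ.n1 (23520, 30336) (by decide +kernel)
            (CovZ.leaf K3_ok TD_l3574 _)
            (CovZ.leaf K2_ok TD_l3575 _)))
          (CovZ.n1 (23712, 30432) (by decide +kernel)
           (CovZ.n2 (23712, 30336) (by decide +kernel)
            (CovZ.badM (by decide +kernel))
            (CovZ.leaf K3_ok TD_l3577 _))
           (CovZ.leaf K3_ok TD_l3578 _))))))))))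

end Pool.Agent.TET
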