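import Pool.Agent.Helper38_TET.TD_M
import Pool.Agent.Helper38_TET.TD_L
import Pool.Agent.Helper38_TET.TD_20
import Pool.Agent.Helper38_TET.TD_21
import Pool.Agent.Helper38_TET.TD_22
import Pool.Agent.Helper38_TET.TD_38
import Pool.Agent.Helper38_TET.TD_39
import Pool.Agent.Helper38_TET.TD_40
import Pool.Agent.Helper38_TET.TD_49
import Pool.Agent.Helper38_TET.TD_50
import Pool.Agent.Helper38_TET.TD_51
import Pool.Agent.Helper38_TET.TD_99
import Pool.Agent.Helper38_TET.TD_100
import Pool.Agent.Helper38_TET.TD_105
import Pool.Agent.Helper38_TET.TD_114
import Pool.Agent.Helper38_TET.TD_115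
import Pool.Agent.Helper38_TET.TD_116
import Pool.Agent.Helper38_TET.TD_124

/-!
# MP_c7c9bf_co: certificates, family TD
-/

set_option autoImplicit false
set_option maxRecDepth 100000

namespace Pool.Agent.TET

theorem TD_u152 : CovZ TD_M (toL (selN TD_LN 71671831749950475343051800808760794081873989054476312934519191926001050577190023437586270405668748132608)) [0, 7, 6, 1] (24576, 29184) (24960, 28800) (25344, 29184) :=
    (CovZ.n2 (24960, 29184) (by decide +kernel)
        (CovZ.n2 (25152, 28992) (by decide +kernel)
         (CovZ.subM 71671831749689734738080986589718433033757588649861724980129952085749441877837325120863807191992556847360 (by decide +kernel)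
          (CovZ.n2 (24960, 28992) (by decide +kernel)
           (CovZ.n2 (25056, 29088) (by decide +kernel)
            (CovZ.n2 (25056, 28992) (by decide +kernel)
             (CovZ.n2 (25008, 29040) (by decide +kernel)
              (CovZ.n2 (25056, 29040) (by decide +kernel)
               (CovZ.leaf K3_ok TD_l5786 _)
               (CovZ.leaf K2_ok TD_l5787 _))
              (CovZ.n1 (25008, 28992) (by decide +kernel)
               (CovZ.n2 (24984, 29016) (by decide +kernel)
                (CovZ.leaf K3_ok TD_l5788 _)
                (CovZ.leaf K3_ok TD_l5789 _))
               (CovZ.leaf K2_ok TD_l5790 _)))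
             (CovZ.n1 (25104, 29040) (by decide +kernel)
              (CovZ.n2 (25104, 28992) (by decide +kernel)
               (CovZ.leaf K2_ok TD_l5791 _)
               (CovZ.leaf K2_ok TD_l5792 _))
              (CovZ.leaf K3_ok TD_l5793 _)))
            (CovZ.n1 (24960, 29088) (by decide +kernel)
             (CovZ.n2 (25008, 29136) (by decide +kernel)
              (CovZ.n2 (25008, 29088) (by decide +kernel)
               (CovZ.leaf K3_ok TD_l5794 _)
               (CovZ.leaf K2_ok TD_l5795 _))
              (CovZ.leaf K3_ok TD_l5796 _))
             (CovZ.n1 (25008, 29040) (by decide +kernel)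
              (CovZ.leaf K3_ok TD_l5797 _)
              (CovZ.n1 (25008, 29088) (by decide +kernel)
               (CovZ.leaf K3_ok TD_l5798 _)
               (CovZ.leaf K3_ok TD_l5799 _)))))
           (CovZ.n1 (25056, 28896) (by decide +kernel)
            (CovZ.badM (by decide +kernel))
            (CovZ.n1 (25056, 28992) (by decide +kernel)
             (CovZ.n2 (25104, 28944) (by decide +kernel)
              (CovZ.leaf K2_ok TD_l5801 _)
              (CovZ.n1 (25104, 28992) (by decide +kernel)
               (CovZ.leaf K2_ok TD_l5802 _)
               (CovZ.leaf K2_ok TD_l5803 _)))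
             (CovZ.subM 71671831749689734737838152978190216899892655911508785116799651230867924437680848569646155925897034596352 (by decide +kernel)
              (CovZ.n1 (25008, 28944) (by decide +kernel)
               (CovZ.n2 (25008, 28992) (by decide +kernel)
                (CovZ.leaf K3_ok TD_l5804 _)
                (CovZ.n1 (24984, 28968) (by decide +kernel)
                 (CovZ.leaf K3_ok TD_l5805 _)
                 (CovZ.leaf K2_ok TD_l5806 _)))
               (CovZ.n1 (25056, 28944) (by decide +kernel)
                (CovZ.badM (by decide +kernel))
                (CovZ.n1 (25032, 28968) (by decide +kernel)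
                 (CovZ.leaf K3_ok TD_l5807 _)
                 (CovZ.leaf K3_ok TD_l5808 _)))))))))
         (CovZ.n1 (25152, 29184) (by decide +kernel)
          (CovZ.n2 (25248, 29088) (by decide +kernel)
           (CovZ.n2 (25152, 29088) (by decide +kernel)
            (CovZ.n2 (25200, 29136) (by decide +kernel)
             (CovZ.leaf K3_ok TD_l5809 _)
             (CovZ.leaf K3_ok TD_l5810 _))
            (CovZ.leaf K3_ok TD_l5811 _))
           (CovZ.n1 (25248, 29184) (by decide +kernel)
            (CovZ.leaf K2_ok TD_l5812 _)
            (CovZ.n1 (25200, 29136) (by decide +kernel)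
             (CovZ.leaf K2_ok TD_l5813 _)
             (CovZ.leaf K2_ok TD_l5814 _))))
          (CovZ.subM 71671831749689734738080986589718433033757588649861724980129952085749441877837325120863807191992556847360 (by decide +kernel)
           (CovZ.n1 (25056, 29088) (by decide +kernel)
            (CovZ.n2 (25056, 29184) (by decide +kernel)
             (CovZ.leaf K2_ok TD_l5815 _)
             (CovZ.n1 (25008, 29136) (by decide +kernel)
              (CovZ.leaf K2_ok TD_l5816 _)
              (CovZ.n1 (25056, 29136) (by decide +kernel)
               (CovZ.leaf K3_ok TD_l5817 _)
               (CovZ.leaf K3_ok TD_l5818 _))))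
            (CovZ.n1 (25152, 29088) (by decide +kernel)
             (CovZ.n2 (25104, 29040) (by decide +kernel)
              (CovZ.leaf K2_ok TD_l5819 _)
              (CovZ.n1 (25152, 29040) (by decide +kernel)
               (CovZ.leaf K2_ok TD_l5820 _)
               (CovZ.leaf K2_ok TD_l5821 _)))
             (CovZ.n1 (25104, 29136) (by decide +kernel)
              (CovZ.leaf K2_ok TD_l5822 _)
              (CovZ.n1 (25104, 29088) (by decide +kernel)
               (CovZ.leaf K3_ok TD_l5823 _)
               (CovZ.leaf K2_ok TD_l5824 _))))))))
        (CovZ.subM 71671831749689734738080986589718433033757588649861724980129952085749441877837325120863807191992556847360 (by decide +kernel)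
         (CovZ.n1 (24768, 28992) (by decide +kernel)
          (CovZ.n2 (24768, 29184) (by decide +kernel)
           (CovZ.n2 (24864, 29088) (by decide +kernel)
            (CovZ.subM 5316911983139663491615228241121378304 (by decide +kernel)
             (CovZ.n2 (24768, 29088) (by decide +kernel)
              (CovZ.n2 (24816, 29136) (by decide +kernel)
               (CovZ.n2 (24816, 29088) (by decide +kernel)
                (CovZ.n2 (24792, 29112) (by decide +kernel)
                 (CovZ.leaf K2_ok TD_l5825 _)
                 (CovZ.badM (by decide +kernel)))
                (CovZ.n1 (24840, 29112) (by decide +kernel)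
                 (CovZ.leaf K2_ok TD_l5826 _)
                 (CovZ.leaf K3_ok TD_l5827 _)))
               (CovZ.n1 (24768, 29136) (by decide +kernel)
                (CovZ.n2 (24792, 29160) (by decide +kernel)
                 (CovZ.leaf K2_ok TD_l5828 _)
                 (CovZ.leaf K2_ok TD_l5829 _))
                (CovZ.leaf K2_ok TD_l5830 _)))
              (CovZ.n1 (24816, 29040) (by decide +kernel)
               (CovZ.badM (by decide +kernel))
               (CovZ.n1 (24816, 29088) (by decide +kernel)
                (CovZ.leaf K2_ok TD_l5831 _)
                (CovZ.badM (by decide +kernel))))))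
            (CovZ.n1 (24864, 29184) (by decide +kernel)
             (CovZ.leaf K3_ok TD_l5832 _)
             (CovZ.subM 71671831749689734737838152978190216899892655911508785116799651230846656789748289915679695013001268559872 (by decide +kernel)
              (CovZ.n1 (24816, 29136) (by decide +kernel)
               (CovZ.n2 (24816, 29184) (by decide +kernel)
                (CovZ.leaf K2_ok TD_l5833 _)
                (CovZ.n1 (24792, 29160) (by decide +kernel)
                 (CovZ.leaf K2_ok TD_l5834 _)
                 (CovZ.leaf K2_ok TD_l5835 _)))
               (CovZ.n1 (24864, 29136) (by decide +kernel)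
                (CovZ.n2 (24840, 29112) (by decide +kernel)
                 (CovZ.leaf K3_ok TD_l5836 _)
                 (CovZ.leaf K3_ok TD_l5837 _))
                (CovZ.leaf K2_ok TD_l5838 _))))))
           (CovZ.subM 5316911983139663491615228241121378304 (by decide +kernel)
            (CovZ.n1 (24672, 29088) (by decide +kernel)
             (CovZ.n2 (24672, 29184) (by decide +kernel)
              (CovZ.n2 (24720, 29136) (by decide +kernel)
               (CovZ.badM (by decide +kernel))
               (CovZ.n1 (24720, 29184) (by decide +kernel)
                (CovZ.leaf K3_ok TD_l5839 _)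
                (CovZ.n1 (24696, 29160) (by decide +kernel)
                 (CovZ.leaf K2_ok TD_l15690 _)
                 (CovZ.leaf K2_ok TD_l15691 _))))
              (CovZ.badM (by decide +kernel)))
             (CovZ.n1 (24768, 29088) (by decide +kernel)
              (CovZ.badM (by decide +kernel))
              (CovZ.n1 (24720, 29136) (by decide +kernel)
               (CovZ.n2 (24768, 29136) (by decide +kernel)
                (CovZ.n2 (24744, 29112) (by decide +kernel)
                 (CovZ.leaf K2_ok TD_l15692 _)
                 (CovZ.n1 (24768, 29112) (by decide +kernel)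
                  (CovZ.badM (by decide +kernel))
                  (CovZ.leaf K3_ok TD_l15693 _)))
                (CovZ.n1 (24744, 29160) (by decide +kernel)
                 (CovZ.leaf K3_ok TD_l5840 _)
                 (CovZ.leaf K2_ok TD_l15694 _)))
               (CovZ.badM (by decide +kernel)))))))
          (CovZ.n1 (24960, 28992) (by decide +kernel)
           (CovZ.badM (by decide +kernel))
           (CovZ.n1 (24864, 29088) (by decide +kernel)
            (CovZ.n2 (24960, 29088) (by decide +kernel)
             (CovZ.subM 71671831749689734737838152978190216899892655911508785116799651230867924437680848569646155925897034596352 (by decide +kernel)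
              (CovZ.n2 (24912, 29040) (by decide +kernel)
               (CovZ.n2 (24912, 29088) (by decide +kernel)
                (CovZ.leaf K2_ok TD_l5843 _)
                (CovZ.n1 (24888, 29064) (by decide +kernel)
                 (CovZ.leaf K3_ok TD_l5844 _)
                 (CovZ.leaf K2_ok TD_l5845 _)))
               (CovZ.n1 (24960, 29040) (by decide +kernel)
                (CovZ.n2 (24936, 29016) (by decide +kernel)
                 (CovZ.leaf K2_ok TD_l5846 _)
                 (CovZ.leaf K3_ok TD_l5847 _))
                (CovZ.leaf K2_ok TD_l5848 _))))
             (CovZ.n1 (24912, 29136) (by decide +kernel)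
              (CovZ.n2 (24960, 29136) (by decide +kernel)
               (CovZ.leaf K3_ok TD_l5849 _)
               (CovZ.leaf K3_ok TD_l5850 _))
              (CovZ.n1 (24912, 29088) (by decide +kernel)
               (CovZ.leaf K2_ok TD_l5851 _)
               (CovZ.leaf K2_ok TD_l5852 _))))
            (CovZ.subM 5316911983139663491615228241121378304 (by decide +kernel)
             (CovZ.n1 (24864, 28992) (by decide +kernel)
              (CovZ.n2 (24816, 29040) (by decide +kernel)
               (CovZ.n2 (24864, 29040) (by decide +kernel)
                (CovZ.badM (by decide +kernel))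
                (CovZ.n1 (24840, 29064) (by decide +kernel)
                 (CovZ.leaf K3_ok TD_l5853 _)
                 (CovZ.badM (by decide +kernel))))
               (CovZ.badM (by decide +kernel)))
              (CovZ.n1 (24912, 29040) (by decide +kernel)
               (CovZ.n2 (24912, 28992) (by decide +kernel)
                (CovZ.n2 (24888, 29016) (by decide +kernel)
                 (CovZ.leaf K2_ok TD_l15695 _)
                 (CovZ.badM (by decide +kernel)))
                (CovZ.n1 (24936, 29016) (by decide +kernel)
                 (CovZ.badM (by decide +kernel))
                 (CovZ.leaf K2_ok TD_l15696 _)))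
               (CovZ.n1 (24864, 29040) (by decide +kernel)
                (CovZ.n2 (24888, 29064) (by decide +kernel)
                 (CovZ.leaf K2_ok TD_l15697 _)
                 (CovZ.leaf K2_ok TD_l5855 _))
                (CovZ.leaf K2_ok TD_l15698 _))))))))))

theorem TD_u153 : CovZ TD_M (toL (selN TD_LN 71671831749950475343051800808760794081873989054476312934519191926001050577190023437586270405668748132608)) [0, 7, 6, 1] (24960, 28800) (25344, 28416) (25344, 29184) :=
    (CovZ.n1 (25344, 28800) (by decide +kernel)
        (CovZ.subM 71671831749689734738080986589718433033757588649861724980129952085919624599672662631216239048018203246592 (by decide +kernel)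
         (CovZ.n2 (25152, 28608) (by decide +kernel)
          (CovZ.n2 (25152, 28800) (by decide +kernel)
           (CovZ.n2 (25248, 28704) (by decide +kernel)
            (CovZ.badM (by decide +kernel))
            (CovZ.n1 (25248, 28800) (by decide +kernel)
             (CovZ.n2 (25296, 28752) (by decide +kernel)
              (CovZ.n2 (25248, 28752) (by decide +kernel)
               (CovZ.n2 (25272, 28776) (by decide +kernel)
                (CovZ.leaf K2_ok TD_l5857 _)
                (CovZ.leaf K2_ok TD_l5858 _))
               (CovZ.leaf K2_ok TD_l5859 _))
              (CovZ.n1 (25296, 28800) (by decide +kernel)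
               (CovZ.leaf K3_ok TD_l5860 _)
               (CovZ.n1 (25272, 28776) (by decide +kernel)
                (CovZ.leaf K2_ok TD_l5861 _)
                (CovZ.leaf K3_ok TD_l5862 _))))
             (CovZ.subM 71671831749689734738080986589718433033757588649861724980129952085744124965854185457371903733306564280320 (by decide +kernel)
              (CovZ.n1 (25200, 28752) (by decide +kernel)
               (CovZ.n2 (25200, 28800) (by decide +kernel)
                (CovZ.leaf K2_ok TD_l5863 _)
                (CovZ.badM (by decide +kernel)))
               (CovZ.n1 (25248, 28752) (by decide +kernel)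
                (CovZ.badM (by decide +kernel))
                (CovZ.n1 (25224, 28776) (by decide +kernel)
                 (CovZ.leaf K2_ok TD_l5866 _)
                 (CovZ.badM (by decide +kernel))))))))
           (CovZ.badM (by decide +kernel)))
          (CovZ.n1 (25344, 28608) (by decide +kernel)
           (CovZ.badM (by decide +kernel))
           (CovZ.n1 (25248, 28704) (by decide +kernel)
            (CovZ.n2 (25344, 28704) (by decide +kernel)
             (CovZ.n2 (25296, 28656) (by decide +kernel)
              (CovZ.n2 (25296, 28704) (by decide +kernel)
               (CovZ.leaf K3_ok TD_l5868 _)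
               (CovZ.n1 (25272, 28680) (by decide +kernel)
                (CovZ.leaf K3_ok TD_l15699 _)
                (CovZ.leaf K3_ok TD_l15700 _)))
              (CovZ.n1 (25344, 28656) (by decide +kernel)
               (CovZ.n2 (25320, 28632) (by decide +kernel)
                (CovZ.leaf K2_ok TD_l15701 _)
                (CovZ.leaf K3_ok TD_l15702 _))
               (CovZ.n1 (25320, 28680) (by decide +kernel)
                (CovZ.leaf K2_ok TD_l5869 _)
                (CovZ.n1 (25320, 28656) (by decide +kernel)
                 (CovZ.leaf K3_ok TD_l15703 _)
                 (CovZ.leaf K3_ok TD_l15704 _)))))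
             (CovZ.n1 (25296, 28752) (by decide +kernel)
              (CovZ.n2 (25344, 28752) (by decide +kernel)
               (CovZ.n2 (25320, 28728) (by decide +kernel)
                (CovZ.leaf K3_ok TD_l5870 _)
                (CovZ.leaf K2_ok TD_l5871 _))
               (CovZ.n1 (25320, 28776) (by decide +kernel)
                (CovZ.leaf K3_ok TD_l5872 _)
                (CovZ.leaf K3_ok TD_l5873 _)))
              (CovZ.n1 (25296, 28704) (by decide +kernel)
               (CovZ.n2 (25272, 28728) (by decide +kernel)
                (CovZ.leaf K2_ok TD_l5874 _)
                (CovZ.leaf K3_ok TD_l15705 _))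
               (CovZ.n1 (25320, 28728) (by decide +kernel)
                (CovZ.leaf K2_ok TD_l5875 _)
                (CovZ.leaf K2_ok TD_l5876 _)))))
            (CovZ.n1 (25248, 28608) (by decide +kernel)
             (CovZ.badM (by decide +kernel))
             (CovZ.n1 (25296, 28656) (by decide +kernel)
              (CovZ.badM (by decide +kernel))
              (CovZ.badM (by decide +kernel))))))))
        (CovZ.n1 (25152, 28992) (by decide +kernel)
         (CovZ.n2 (25344, 28992) (by decide +kernel)
          (CovZ.n2 (25248, 28896) (by decide +kernel)
           (CovZ.n2 (25248, 28992) (by decide +kernel)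
            (CovZ.leaf K2_ok TD_l5877 _)
            (CovZ.n1 (25200, 28944) (by decide +kernel)
             (CovZ.leaf K3_ok TD_l5878 _)
             (CovZ.n1 (25248, 28944) (by decide +kernel)
              (CovZ.leaf K3_ok TD_l5879 _)
              (CovZ.leaf K2_ok TD_l5880 _))))
           (CovZ.n1 (25344, 28896) (by decide +kernel)
            (CovZ.n2 (25296, 28848) (by decide +kernel)
             (CovZ.leaf K2_ok TD_l5881 _)
             (CovZ.n1 (25344, 28848) (by decide +kernel)
              (CovZ.leaf K2_ok TD_l5882 _)
              (CovZ.leaf K2_ok TD_l5883 _)))
            (CovZ.n1 (25296, 28944) (by decide +kernel)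
             (CovZ.n2 (25344, 28944) (by decide +kernel)
              (CovZ.leaf K2_ok TD_l5884 _)
              (CovZ.leaf K2_ok TD_l5885 _))
             (CovZ.n1 (25296, 28896) (by decide +kernel)
              (CovZ.leaf K2_ok TD_l5886 _)
              (CovZ.leaf K3_ok TD_l5887 _)))))
          (CovZ.n1 (25248, 29088) (by decide +kernel)
           (CovZ.n2 (25344, 29088) (by decide +kernel)
            (CovZ.n2 (25296, 29040) (by decide +kernel)
             (CovZ.leaf K3_ok TD_l5888 _)
             (CovZ.leaf K3_ok TD_l5889 _))
            (CovZ.n1 (25296, 29136) (by decide +kernel)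
             (CovZ.leaf K2_ok TD_l5890 _)
             (CovZ.leaf K3_ok TD_l5891 _)))
           (CovZ.n1 (25248, 28992) (by decide +kernel)
            (CovZ.n2 (25200, 29040) (by decide +kernel)
             (CovZ.leaf K3_ok TD_l5892 _)
             (CovZ.n1 (25200, 28992) (by decide +kernel)
              (CovZ.leaf K3_ok TD_l5893 _)
              (CovZ.leaf K3_ok TD_l5894 _)))
            (CovZ.n1 (25296, 29040) (by decide +kernel)
             (CovZ.n2 (25296, 28992) (by decide +kernel)
              (CovZ.leaf K3_ok TD_l5895 _)
              (CovZ.leaf K3_ok TD_l5896 _))
             (CovZ.leaf K3_ok TD_l5897 _)))))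
         (CovZ.n1 (25152, 28800) (by decide +kernel)
          (CovZ.subM 71671831749689734738080986589718433033757588649861724980129952085749441877837325120863518961616405135360 (by decide +kernel)
           (CovZ.n2 (25056, 28896) (by decide +kernel)
            (CovZ.n2 (25152, 28896) (by decide +kernel)
             (CovZ.n2 (25104, 28848) (by decide +kernel)
              (CovZ.n2 (25104, 28896) (by decide +kernel)
               (CovZ.leaf K2_ok TD_l15706 _)
               (CovZ.badM (by decide +kernel)))
              (CovZ.n1 (25152, 28848) (by decide +kernel)
               (CovZ.badM (by decide +kernel))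
               (CovZ.n1 (25128, 28872) (by decide +kernel)
                (CovZ.leaf K2_ok TD_l15707 _)
                (CovZ.badM (by decide +kernel)))))
             (CovZ.n1 (25104, 28944) (by decide +kernel)
              (CovZ.n2 (25152, 28944) (by decide +kernel)
               (CovZ.n2 (25128, 28920) (by decide +kernel)
                (CovZ.leaf K3_ok TD_l5898 _)
                (CovZ.leaf K3_ok TD_l5899 _))
               (CovZ.leaf K2_ok TD_l5900 _))
              (CovZ.n1 (25104, 28896) (by decide +kernel)
               (CovZ.n2 (25080, 28920) (by decide +kernel)
                (CovZ.leaf K2_ok TD_l5901 _)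
                (CovZ.badM (by decide +kernel)))
               (CovZ.n1 (25128, 28920) (by decide +kernel)
                (CovZ.n2 (25128, 28896) (by decide +kernel)
                 (CovZ.leaf K2_ok TD_l15708 _)
                 (CovZ.leaf K2_ok TD_l15709 _))
                (CovZ.leaf K2_ok TD_l5902 _)))))
            (CovZ.badM (by decide +kernel))))
          (CovZ.n1 (25248, 28896) (by decide +kernel)
           (CovZ.n2 (25248, 28800) (by decide +kernel)
            (CovZ.subM 71671831749689734738080986589718433033757588649861724980129952085749441877837325120863518961616405135360 (by decide +kernel)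
             (CovZ.n2 (25200, 28848) (by decide +kernel)
              (CovZ.n2 (25248, 28848) (by decide +kernel)
               (CovZ.n2 (25224, 28824) (by decide +kernel)
                (CovZ.leaf K3_ok TD_l5903 _)
                (CovZ.leaf K2_ok TD_l5904 _))
               (CovZ.leaf K2_ok TD_l5905 _))
              (CovZ.n1 (25200, 28800) (by decide +kernel)
               (CovZ.n2 (25176, 28824) (by decide +kernel)
                (CovZ.leaf K2_ok TD_l15710 _)
                (CovZ.badM (by decide +kernel)))
               (CovZ.n1 (25224, 28824) (by decide +kernel)
                (CovZ.leaf K2_ok TD_l5906 _)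
                (CovZ.leaf K2_ok TD_l5907 _)))))
            (CovZ.n1 (25296, 28848) (by decide +kernel)
             (CovZ.n2 (25296, 28800) (by decide +kernel)
              (CovZ.n2 (25272, 28824) (by decide +kernel)
               (CovZ.leaf K2_ok TD_l5908 _)
               (CovZ.leaf K2_ok TD_l5909 _))
              (CovZ.leaf K2_ok TD_l5910 _))
             (CovZ.leaf K3_ok TD_l5911 _)))
           (CovZ.subM 71671831749689734738080986589718433033757588649861724980129952085749441877837325120863518961616405135360 (by decide +kernel)
            (CovZ.n1 (25152, 28896) (by decide +kernel)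
             (CovZ.n2 (25200, 28944) (by decide +kernel)
              (CovZ.n2 (25200, 28896) (by decide +kernel)
               (CovZ.leaf K2_ok TD_l5912 _)
               (CovZ.leaf K2_ok TD_l5913 _))
              (CovZ.leaf K3_ok TD_l5914 _))
             (CovZ.n1 (25200, 28848) (by decide +kernel)
              (CovZ.n2 (25152, 28848) (by decide +kernel)
               (CovZ.n2 (25176, 28872) (by decide +kernel)
                (CovZ.leaf K2_ok TD_l15711 _)
                (CovZ.leaf K2_ok TD_l15712 _))
               (CovZ.leaf K2_ok TD_l15713 _))
              (CovZ.n1 (25200, 28896) (by decide +kernel)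
               (CovZ.leaf K3_ok TD_l5915 _)
               (CovZ.n1 (25176, 28872) (by decide +kernel)
                (CovZ.leaf K2_ok TD_l5916 _)
                (CovZ.leaf K3_ok TD_l5917 _))))))))))

theorem TD_u154 : CovZ TD_M (toL (selN TD_LN 550700453988112975398396545034993243136095471077268058293211647729430307524709253977521360207872)) [0, 7, 6, 1] (26496, 27648) (26688, 27648) (26688, 27840) :=
    (CovZ.n2 (26592, 27744) (by decide +kernel)
            (CovZ.n2 (26688, 27744) (by decide +kernel)
             (CovZ.subM 534013055269980865379671303178814765582788061242954928209827255995524203127746767242076360802304 (by decide +kernel)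
              (CovZ.n2 (26640, 27696) (by decide +kernel)
               (CovZ.n2 (26640, 27744) (by decide +kernel)
                (CovZ.leaf K2_ok TD_l17135 _)
                (CovZ.subM 533996758980227520598755426542388028650676130589163193880557309332977100849324118889606196232192 (by decide +kernel)
                 (CovZ.n1 (26616, 27720) (by decide +kernel)
                  (CovZ.n2 (26616, 27744) (by decide +kernel)
                   (CovZ.leaf K2_ok TD_l17136 _)
                   (CovZ.leaf K2_ok TD_l17137 _))
                  (CovZ.n1 (26640, 27720) (by decide +kernel)
                   (CovZ.n2 (26628, 27708) (by decide +kernel)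
                    (CovZ.leaf K2_ok TD_l17138 _)
                    (CovZ.leaf K2_ok TD_l17139 _))
                   (CovZ.leaf K2_ok TD_l17140 _)))))
               (CovZ.n1 (26688, 27696) (by decide +kernel)
                (CovZ.subM 533996758980227520598755426542388028650676130589163193880556977025978154620355892937841126146048 (by decide +kernel)
                 (CovZ.n2 (26664, 27672) (by decide +kernel)
                  (CovZ.n2 (26664, 27696) (by decide +kernel)
                   (CovZ.leaf K2_ok TD_l17141 _)
                   (CovZ.n1 (26652, 27684) (by decide +kernel)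
                    (CovZ.leaf K2_ok TD_l17142 _)
                    (CovZ.leaf K2_ok TD_l17143 _)))
                  (CovZ.n1 (26688, 27672) (by decide +kernel)
                   (CovZ.n2 (26676, 27660) (by decide +kernel)
                    (CovZ.leaf K2_ok TD_l17144 _)
                    (CovZ.n1 (26688, 27660) (by decide +kernel)
                     (CovZ.leaf K2_ok TD_l17145 _)
                     (CovZ.leaf K2_ok TD_l17146 _)))
                   (CovZ.n1 (26676, 27684) (by decide +kernel)
                    (CovZ.leaf K2_ok TD_l17147 _)
                    (CovZ.leaf K2_ok TD_l17148 _)))))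
                (CovZ.n1 (26664, 27720) (by decide +kernel)
                 (CovZ.n2 (26688, 27720) (by decide +kernel)
                  (CovZ.leaf K2_ok TD_l17149 _)
                  (CovZ.leaf K2_ok TD_l17150 _))
                 (CovZ.n1 (26664, 27696) (by decide +kernel)
                  (CovZ.n2 (26652, 27708) (by decide +kernel)
                   (CovZ.leaf K2_ok TD_l17151 _)
                   (CovZ.leaf K2_ok TD_l17152 _))
                  (CovZ.leaf K2_ok TD_l17153 _))))))
             (CovZ.n1 (26640, 27792) (by decide +kernel)
              (CovZ.n2 (26688, 27792) (by decide +kernel)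
               (CovZ.n2 (26664, 27768) (by decide +kernel)
                (CovZ.leaf K2_ok TD_l17154 _)
                (CovZ.leaf K2_ok TD_l17155 _))
               (CovZ.n1 (26664, 27816) (by decide +kernel)
                (CovZ.leaf K2_ok TD_l7459 _)
                (CovZ.leaf K2_ok TD_l7460 _)))
              (CovZ.subM 534013055269980865379671303178814765582788061242954928209827422149023676242230880217958895845376 (by decide +kernel)
               (CovZ.n1 (26640, 27744) (by decide +kernel)
                (CovZ.n2 (26616, 27768) (by decide +kernel)
                 (CovZ.n2 (26640, 27768) (by decide +kernel)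
                  (CovZ.leaf K2_ok TD_l17156 _)
                  (CovZ.leaf K2_ok TD_l17157 _))
                 (CovZ.n1 (26616, 27744) (by decide +kernel)
                  (CovZ.leaf K2_ok TD_l17158 _)
                  (CovZ.leaf K2_ok TD_l17159 _)))
                (CovZ.n1 (26664, 27768) (by decide +kernel)
                 (CovZ.n2 (26664, 27744) (by decide +kernel)
                  (CovZ.leaf K2_ok TD_l17160 _)
                  (CovZ.leaf K2_ok TD_l17161 _))
                 (CovZ.leaf K2_ok TD_l17162 _))))))
            (CovZ.subM 533996758980227520598755426542388028650676130589163193880556977025978154620355892937841126146048 (by decide +kernel)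
             (CovZ.n1 (26592, 27648) (by decide +kernel)
              (CovZ.n2 (26544, 27696) (by decide +kernel)
               (CovZ.n2 (26592, 27696) (by decide +kernel)
                (CovZ.badM (by decide +kernel))
                (CovZ.n1 (26568, 27720) (by decide +kernel)
                 (CovZ.n2 (26592, 27720) (by decide +kernel)
                  (CovZ.n2 (26580, 27708) (by decide +kernel)
                   (CovZ.leaf K2_ok TD_l17163 _)
                   (CovZ.leaf K2_ok TD_l17164 _))
                  (CovZ.n1 (26580, 27732) (by decide +kernel)
                   (CovZ.leaf K2_ok TD_l17165 _)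
                   (CovZ.leaf K2_ok TD_l17166 _)))
                 (CovZ.badM (by decide +kernel))))
               (CovZ.badM (by decide +kernel)))
              (CovZ.n1 (26640, 27696) (by decide +kernel)
               (CovZ.n2 (26640, 27648) (by decide +kernel)
                (CovZ.n2 (26616, 27672) (by decide +kernel)
                 (CovZ.n2 (26640, 27672) (by decide +kernel)
                  (CovZ.n2 (26628, 27660) (by decide +kernel)
                   (CovZ.leaf K2_ok TD_l17167 _)
                   (CovZ.n1 (26640, 27660) (by decide +kernel)
                    (CovZ.n2 (26634, 27654) (by decide +kernel)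
                     (CovZ.leaf K2_ok TD_l17168 _)
                     (CovZ.leaf K2_ok TD_l17169 _))
                    (CovZ.leaf K2_ok TD_l17170 _)))
                  (CovZ.n1 (26628, 27684) (by decide +kernel)
                   (CovZ.n2 (26640, 27684) (by decide +kernel)
                    (CovZ.leaf K2_ok TD_l17171 _)
                    (CovZ.leaf K2_ok TD_l17172 _))
                   (CovZ.n1 (26628, 27672) (by decide +kernel)
                    (CovZ.leaf K2_ok TD_l17173 _)
                    (CovZ.leaf K2_ok TD_l17174 _))))
                 (CovZ.n1 (26616, 27648) (by decide +kernel)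
                  (CovZ.n2 (26604, 27660) (by decide +kernel)
                   (CovZ.n2 (26616, 27660) (by decide +kernel)
                    (CovZ.badM (by decide +kernel))
                    (CovZ.leaf K2_ok TD_l17175 _))
                   (CovZ.badM (by decide +kernel)))
                  (CovZ.n1 (26628, 27660) (by decide +kernel)
                   (CovZ.n2 (26628, 27648) (by decide +kernel)
                    (CovZ.leaf K2_ok TD_l17176 _)
                    (CovZ.n1 (26634, 27654) (by decide +kernel)
                     (CovZ.badM (by decide +kernel))
                     (CovZ.leaf K2_ok TD_l17177 _)))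
                   (CovZ.leaf K2_ok TD_l17178 _))))
                (CovZ.n1 (26664, 27672) (by decide +kernel)
                 (CovZ.n2 (26664, 27648) (by decide +kernel)
                  (CovZ.n2 (26652, 27660) (by decide +kernel)
                   (CovZ.n2 (26664, 27660) (by decide +kernel)
                    (CovZ.leaf K2_ok TD_l17179 _)
                    (CovZ.leaf K2_ok TD_l17180 _))
                   (CovZ.n1 (26652, 27648) (by decide +kernel)
                    (CovZ.leaf K2_ok TD_l17181 _)
                    (CovZ.leaf K2_ok TD_l17182 _)))
                  (CovZ.n1 (26676, 27660) (by decide +kernel)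
                   (CovZ.n2 (26676, 27648) (by decide +kernel)
                    (CovZ.leaf K2_ok TD_l17183 _)
                    (CovZ.leaf K2_ok TD_l17184 _))
                   (CovZ.leaf K2_ok TD_l17185 _)))
                 (CovZ.n1 (26640, 27672) (by decide +kernel)
                  (CovZ.n2 (26652, 27684) (by decide +kernel)
                   (CovZ.n2 (26652, 27672) (by decide +kernel)
                    (CovZ.leaf K2_ok TD_l17186 _)
                    (CovZ.leaf K2_ok TD_l17187 _))
                   (CovZ.leaf K2_ok TD_l17188 _))
                  (CovZ.leaf K2_ok TD_l17189 _))))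
               (CovZ.n1 (26592, 27696) (by decide +kernel)
                (CovZ.n2 (26616, 27720) (by decide +kernel)
                 (CovZ.n2 (26616, 27696) (by decide +kernel)
                  (CovZ.n2 (26604, 27708) (by decide +kernel)
                   (CovZ.leaf K2_ok TD_l17190 _)
                   (CovZ.n1 (26604, 27696) (by decide +kernel)
                    (CovZ.leaf K2_ok TD_l17191 _)
                    (CovZ.leaf K2_ok TD_l17192 _)))
                  (CovZ.n1 (26628, 27708) (by decide +kernel)
                   (CovZ.n2 (26628, 27696) (by decide +kernel)
                    (CovZ.leaf K2_ok TD_l17193 _)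
                    (CovZ.leaf K2_ok TD_l17194 _))
                   (CovZ.leaf K2_ok TD_l17195 _)))
                 (CovZ.leaf K2_ok TD_l17196 _))
                (CovZ.n1 (26616, 27672) (by decide +kernel)
                 (CovZ.n2 (26592, 27672) (by decide +kernel)
                  (CovZ.n2 (26604, 27684) (by decide +kernel)
                   (CovZ.n2 (26604, 27672) (by decide +kernel)
                    (CovZ.badM (by decide +kernel))
                    (CovZ.leaf K2_ok TD_l17197 _))
                   (CovZ.badM (by decide +kernel)))
                  (CovZ.leaf K2_ok TD_l17198 _))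
                 (CovZ.n1 (26616, 27696) (by decide +kernel)
                  (CovZ.leaf K2_ok TD_l17199 _)
                  (CovZ.n1 (26604, 27684) (by decide +kernel)
                   (CovZ.leaf K2_ok TD_l17200 _)
                   (CovZ.leaf K2_ok TD_l17201 _)))))))))

theorem TD_u155 : CovZ TD_M (toL (selN TD_LN 550700453988112975398396545034993243136095471077268058293211647729430307524709253977521360207872)) [0, 7, 6, 1] (26688, 27648) (26880, 27648) (26688, 27840) :=
    (CovZ.n1 (26784, 27744) (by decide +kernel)
            (CovZ.n2 (26784, 27648) (by decide +kernel)
             (CovZ.subM 534013055269980865379671303179025390166125175616350764439419334877181959726279777445532842065920 (by decide +kernel)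
              (CovZ.n2 (26736, 27696) (by decide +kernel)
               (CovZ.n2 (26784, 27696) (by decide +kernel)
                (CovZ.subM 534013055269980865379671303179025390166125175616350764264981878842461538500262228090969493864448 (by decide +kernel)
                 (CovZ.n2 (26760, 27672) (by decide +kernel)
                  (CovZ.n2 (26760, 27696) (by decide +kernel)
                   (CovZ.leaf K2_ok TD_l17202 _)
                   (CovZ.n1 (26748, 27684) (by decide +kernel)
                    (CovZ.leaf K2_ok TD_l17203 _)
                    (CovZ.leaf K2_ok TD_l17204 _)))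
                  (CovZ.n1 (26784, 27672) (by decide +kernel)
                   (CovZ.n2 (26772, 27660) (by decide +kernel)
                    (CovZ.leaf K2_ok TD_l17205 _)
                    (CovZ.leaf K2_ok TD_l17206 _))
                   (CovZ.leaf K2_ok TD_l17207 _))))
                (CovZ.n1 (26760, 27720) (by decide +kernel)
                 (CovZ.n2 (26784, 27720) (by decide +kernel)
                  (CovZ.leaf K2_ok TD_l17208 _)
                  (CovZ.leaf K2_ok TD_l17209 _))
                 (CovZ.n1 (26760, 27696) (by decide +kernel)
                  (CovZ.leaf K2_ok TD_l17210 _)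
                  (CovZ.leaf K2_ok TD_l17211 _))))
               (CovZ.subM 533996758980227520598755426542388028650676130589163193880557309332977100849324118889606196232192 (by decide +kernel)
                (CovZ.n1 (26736, 27648) (by decide +kernel)
                 (CovZ.n2 (26712, 27672) (by decide +kernel)
                  (CovZ.n2 (26736, 27672) (by decide +kernel)
                   (CovZ.n2 (26724, 27660) (by decide +kernel)
                    (CovZ.leaf K3_ok TD_l17212 _)
                    (CovZ.leaf K3_ok TD_l17213 _))
                   (CovZ.leaf K2_ok TD_l17214 _))
                  (CovZ.n1 (26712, 27648) (by decide +kernel)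
                   (CovZ.n2 (26700, 27660) (by decide +kernel)
                    (CovZ.leaf K2_ok TD_l17215 _)
                    (CovZ.leaf K2_ok TD_l17216 _))
                   (CovZ.n1 (26724, 27660) (by decide +kernel)
                    (CovZ.n2 (26724, 27648) (by decide +kernel)
                     (CovZ.leaf K2_ok TD_l17217 _)
                     (CovZ.leaf K2_ok TD_l17218 _))
                    (CovZ.leaf K2_ok TD_l17219 _))))
                 (CovZ.n1 (26760, 27672) (by decide +kernel)
                  (CovZ.n2 (26760, 27648) (by decide +kernel)
                   (CovZ.leaf K2_ok TD_l17220 _)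
                   (CovZ.n1 (26772, 27660) (by decide +kernel)
                    (CovZ.leaf K2_ok TD_l17221 _)
                    (CovZ.leaf K2_ok TD_l17222 _)))
                  (CovZ.n1 (26736, 27672) (by decide +kernel)
                   (CovZ.n2 (26748, 27684) (by decide +kernel)
                    (CovZ.leaf K2_ok TD_l17223 _)
                    (CovZ.leaf K2_ok TD_l17224 _))
                   (CovZ.leaf K2_ok TD_l17225 _)))))))
             (CovZ.n1 (26832, 27696) (by decide +kernel)
              (CovZ.subM 550700453988112975398396545034993243136095471077268057378532479292448089877874092611249715019776 (by decide +kernel)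
               (CovZ.n2 (26832, 27648) (by decide +kernel)
                (CovZ.n2 (26808, 27672) (by decide +kernel)
                 (CovZ.n2 (26832, 27672) (by decide +kernel)
                  (CovZ.leaf K2_ok TD_l17226 _)
                  (CovZ.leaf K3_ok TD_l17227 _))
                 (CovZ.n1 (26808, 27648) (by decide +kernel)
                  (CovZ.leaf K2_ok TD_l17228 _)
                  (CovZ.leaf K2_ok TD_l17229 _)))
                (CovZ.n1 (26856, 27672) (by decide +kernel)
                 (CovZ.n2 (26856, 27648) (by decide +kernel)
                  (CovZ.leaf K2_ok TD_l17230 _)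
                  (CovZ.leaf K2_ok TD_l17231 _))
                 (CovZ.leaf K2_ok TD_l17232 _))))
              (CovZ.subM 534013055269980865379671303179025390166125175616350764439419334877181959726279777445532842065920 (by decide +kernel)
               (CovZ.n1 (26784, 27696) (by decide +kernel)
                (CovZ.n2 (26808, 27720) (by decide +kernel)
                 (CovZ.n2 (26808, 27696) (by decide +kernel)
                  (CovZ.leaf K2_ok TD_l17233 _)
                  (CovZ.leaf K2_ok TD_l17234 _))
                 (CovZ.leaf K2_ok TD_l17235 _))
                (CovZ.n1 (26808, 27672) (by decide +kernel)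
                 (CovZ.leaf K2_ok TD_l17236 _)
                 (CovZ.leaf K2_ok TD_l17237 _))))))
            (CovZ.n1 (26688, 27744) (by decide +kernel)
             (CovZ.n2 (26736, 27792) (by decide +kernel)
              (CovZ.subM 534013055269980865379671303179025390166125175616350764439419334877181959726574925350729374760960 (by decide +kernel)
               (CovZ.n2 (26736, 27744) (by decide +kernel)
                (CovZ.n2 (26712, 27768) (by decide +kernel)
                 (CovZ.leaf K2_ok TD_l7461 _)
                 (CovZ.n1 (26712, 27744) (by decide +kernel)
                  (CovZ.leaf K2_ok TD_l17238 _)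
                  (CovZ.leaf K2_ok TD_l17239 _)))
                (CovZ.n1 (26760, 27768) (by decide +kernel)
                 (CovZ.n2 (26760, 27744) (by decide +kernel)
                  (CovZ.leaf K2_ok TD_l17240 _)
                  (CovZ.leaf K2_ok TD_l17241 _))
                 (CovZ.leaf K2_ok TD_l7462 _))))
              (CovZ.n1 (26688, 27792) (by decide +kernel)
               (CovZ.n2 (26712, 27816) (by decide +kernel)
                (CovZ.leaf K2_ok TD_l7463 _)
                (CovZ.leaf K2_ok TD_l7464 _))
               (CovZ.leaf K2_ok TD_l7465 _)))
             (CovZ.subM 534013055269980865379671303179025390166125175616350764439419334877181959726574925350712194891776 (by decide +kernel)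
              (CovZ.n1 (26736, 27696) (by decide +kernel)
               (CovZ.n2 (26688, 27696) (by decide +kernel)
                (CovZ.n2 (26712, 27720) (by decide +kernel)
                 (CovZ.n2 (26712, 27696) (by decide +kernel)
                  (CovZ.leaf K2_ok TD_l17242 _)
                  (CovZ.leaf K2_ok TD_l17243 _))
                 (CovZ.leaf K2_ok TD_l17244 _))
                (CovZ.subM 533996758980227520598755426542388028650676130589163193880557309332977100849324118889606196232192 (by decide +kernel)
                 (CovZ.n1 (26712, 27672) (by decide +kernel)
                  (CovZ.n2 (26688, 27672) (by decide +kernel)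
                   (CovZ.n2 (26700, 27684) (by decide +kernel)
                    (CovZ.leaf K2_ok TD_l17245 _)
                    (CovZ.leaf K2_ok TD_l17246 _))
                   (CovZ.leaf K2_ok TD_l17247 _))
                  (CovZ.n1 (26712, 27696) (by decide +kernel)
                   (CovZ.leaf K2_ok TD_l17248 _)
                   (CovZ.n1 (26700, 27684) (by decide +kernel)
                    (CovZ.leaf K2_ok TD_l17249 _)
                    (CovZ.leaf K2_ok TD_l17250 _))))))
               (CovZ.n1 (26736, 27744) (by decide +kernel)
                (CovZ.leaf K2_ok TD_l17251 _)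
                (CovZ.n1 (26712, 27720) (by decide +kernel)
                 (CovZ.leaf K2_ok TD_l17252 _)
                 (CovZ.n1 (26736, 27720) (by decide +kernel)
                  (CovZ.leaf K2_ok TD_l17253 _)
                  (CovZ.leaf K2_ok TD_l17254 _))))))))

theorem TD_u156 : CovZ TD_M (toL (selN TD_LN 550961194593326623228970655911111539425168250957140372996955970035207236102806607624973053071376)) [0, 7, 6, 1] (26880, 28416) (26496, 28032) (26880, 27648) :=
    (CovZ.n2 (26880, 28032) (by decide +kernel)
        (CovZ.n2 (26688, 27840) (by decide +kernel)
         (CovZ.n2 (26688, 28032) (by decide +kernel)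
          (CovZ.n2 (26784, 27936) (by decide +kernel)
           (CovZ.n2 (26688, 27936) (by decide +kernel)
            (CovZ.n2 (26736, 27984) (by decide +kernel)
             (CovZ.n2 (26736, 27936) (by decide +kernel)
              (CovZ.leaf K2_ok TD_l7361 _)
              (CovZ.leaf K2_ok TD_l7362 _))
             (CovZ.leaf K2_ok TD_l7363 _))
            (CovZ.leaf K2_ok TD_l7364 _))
           (CovZ.n1 (26784, 28032) (by decide +kernel)
            (CovZ.leaf K2_ok TD_l7365 _)
            (CovZ.n1 (26736, 27984) (by decide +kernel)
             (CovZ.leaf K2_ok TD_l7366 _)
             (CovZ.leaf K2_ok TD_l7367 _))))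
          (CovZ.subM 534273795875194513210241880360802680743984873884843089652680672670201888663405555289091365404688 (by decide +kernel)
           (CovZ.n1 (26592, 27936) (by decide +kernel)
            (CovZ.n2 (26592, 28032) (by decide +kernel)
             (CovZ.leaf K2_ok TD_l7368 _)
             (CovZ.n1 (26544, 27984) (by decide +kernel)
              (CovZ.leaf K2_ok TD_l7369 _)
              (CovZ.n1 (26592, 27984) (by decide +kernel)
               (CovZ.leaf K2_ok TD_l7370 _)
               (CovZ.leaf K2_ok TD_l7371 _))))
            (CovZ.n1 (26688, 27936) (by decide +kernel)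
             (CovZ.n2 (26640, 27888) (by decide +kernel)
              (CovZ.n2 (26640, 27936) (by decide +kernel)
               (CovZ.leaf K2_ok TD_l7372 _)
               (CovZ.leaf K2_ok TD_l7373 _))
              (CovZ.n1 (26688, 27888) (by decide +kernel)
               (CovZ.leaf K2_ok TD_l7374 _)
               (CovZ.leaf K2_ok TD_l7375 _)))
             (CovZ.n1 (26640, 27984) (by decide +kernel)
              (CovZ.n2 (26688, 27984) (by decide +kernel)
               (CovZ.leaf K2_ok TD_l7376 _)
               (CovZ.leaf K2_ok TD_l7377 _))
              (CovZ.n1 (26640, 27936) (by decide +kernel)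
               (CovZ.leaf K2_ok TD_l7378 _)
               (CovZ.leaf K2_ok TD_l7379 _)))))))
         (CovZ.n1 (26880, 27840) (by decide +kernel)
          (CovZ.n2 (26784, 27744) (by decide +kernel)
           (CovZ.n2 (26784, 27840) (by decide +kernel)
            (CovZ.n2 (26832, 27792) (by decide +kernel)
             (CovZ.n2 (26784, 27792) (by decide +kernel)
              (CovZ.n2 (26808, 27816) (by decide +kernel)
               (CovZ.leaf K2_ok TD_l7380 _)
               (CovZ.leaf K2_ok TD_l7381 _))
              (CovZ.leaf K2_ok TD_l7382 _))
             (CovZ.n1 (26832, 27840) (by decide +kernel)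
              (CovZ.leaf K2_ok TD_l7383 _)
              (CovZ.n1 (26808, 27816) (by decide +kernel)
               (CovZ.leaf K2_ok TD_l7384 _)
               (CovZ.leaf K2_ok TD_l7385 _))))
            (CovZ.subM 534273795874951679598713664227141790570739763570740004976409682132747573032919094954730397368320 (by decide +kernel)
             (CovZ.n1 (26736, 27792) (by decide +kernel)
              (CovZ.n2 (26736, 27840) (by decide +kernel)
               (CovZ.leaf K2_ok TD_l7386 _)
               (CovZ.n1 (26712, 27816) (by decide +kernel)
                (CovZ.leaf K2_ok TD_l7387 _)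
                (CovZ.leaf K2_ok TD_l7388 _)))
              (CovZ.n1 (26784, 27792) (by decide +kernel)
               (CovZ.n2 (26760, 27768) (by decide +kernel)
                (CovZ.leaf K2_ok TD_l7389 _)
                (CovZ.leaf K2_ok TD_l7390 _))
               (CovZ.n1 (26760, 27816) (by decide +kernel)
                (CovZ.leaf K2_ok TD_l7391 _)
                (CovZ.leaf K2_ok TD_l7392 _))))))
           (CovZ.n1 (26880, 27744) (by decide +kernel)
            (CovZ.subM 550700453988112975398396545034993243136095471077268057596323994099314613678406140508545503723520 (by decide +kernel)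
             (CovZ.n2 (26832, 27696) (by decide +kernel)
              (CovZ.n2 (26832, 27744) (by decide +kernel)
               (CovZ.leaf K2_ok TD_l7393 _)
               (CovZ.n1 (26808, 27720) (by decide +kernel)
                (CovZ.leaf K2_ok TD_l7394 _)
                (CovZ.leaf K2_ok TD_l7395 _)))
              (CovZ.n1 (26880, 27696) (by decide +kernel)
               (CovZ.n2 (26856, 27672) (by decide +kernel)
                (CovZ.leaf K2_ok TD_l7396 _)
                (CovZ.n1 (26880, 27672) (by decide +kernel)
                 (CovZ.leaf K2_ok TD_l17115 _)
                 (CovZ.leaf K2_ok TD_l17116 _)))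
               (CovZ.n1 (26856, 27720) (by decide +kernel)
                (CovZ.leaf K2_ok TD_l7397 _)
                (CovZ.leaf K2_ok TD_l7398 _)))))
            (CovZ.n1 (26832, 27792) (by decide +kernel)
             (CovZ.n2 (26880, 27792) (by decide +kernel)
              (CovZ.n2 (26856, 27768) (by decide +kernel)
               (CovZ.leaf K2_ok TD_l7399 _)
               (CovZ.leaf K2_ok TD_l7400 _))
              (CovZ.leaf K2_ok TD_l7401 _))
             (CovZ.subM 550700453988112975398396545034994065888374131680289135080915272774567105046338957298494627381248 (by decide +kernel)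
              (CovZ.n1 (26832, 27744) (by decide +kernel)
               (CovZ.n2 (26808, 27768) (by decide +kernel)
                (CovZ.leaf K2_ok TD_l7402 _)
                (CovZ.leaf K2_ok TD_l7403 _))
               (CovZ.n1 (26856, 27768) (by decide +kernel)
                (CovZ.leaf K2_ok TD_l7404 _)
                (CovZ.leaf K2_ok TD_l7405 _)))))))
          (CovZ.n1 (26784, 27936) (by decide +kernel)
           (CovZ.n2 (26880, 27936) (by decide +kernel)
            (CovZ.n2 (26832, 27888) (by decide +kernel)
             (CovZ.leaf K2_ok TD_l7406 _)
             (CovZ.n1 (26880, 27888) (by decide +kernel)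
              (CovZ.leaf K2_ok TD_l7407 _)
              (CovZ.leaf K2_ok TD_l7408 _)))
            (CovZ.n1 (26832, 27984) (by decide +kernel)
             (CovZ.leaf K2_ok TD_l7409 _)
             (CovZ.n1 (26832, 27936) (by decide +kernel)
              (CovZ.leaf K2_ok TD_l7410 _)
              (CovZ.leaf K2_ok TD_l7411 _))))
           (CovZ.n1 (26784, 27840) (by decide +kernel)
            (CovZ.n2 (26736, 27888) (by decide +kernel)
             (CovZ.n2 (26784, 27888) (by decide +kernel)
              (CovZ.leaf K2_ok TD_l7412 _)
              (CovZ.leaf K2_ok TD_l7413 _))
             (CovZ.n1 (26736, 27840) (by decide +kernel)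
              (CovZ.leaf K2_ok TD_l7414 _)
              (CovZ.leaf K2_ok TD_l7415 _)))
            (CovZ.n1 (26832, 27888) (by decide +kernel)
             (CovZ.n2 (26832, 27840) (by decide +kernel)
              (CovZ.leaf K2_ok TD_l7416 _)
              (CovZ.leaf K2_ok TD_l7417 _))
             (CovZ.leaf K2_ok TD_l7418 _))))))
        (CovZ.n1 (26688, 28224) (by decide +kernel)
         (CovZ.n2 (26880, 28224) (by decide +kernel)
          (CovZ.n2 (26784, 28128) (by decide +kernel)
           (CovZ.n2 (26784, 28224) (by decide +kernel)
            (CovZ.leaf K2_ok TD_l7419 _)
            (CovZ.n1 (26736, 28176) (by decide +kernel)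
             (CovZ.leaf K2_ok TD_l7420 _)
             (CovZ.leaf K2_ok TD_l7421 _)))
           (CovZ.n1 (26880, 28128) (by decide +kernel)
            (CovZ.n2 (26832, 28080) (by decide +kernel)
             (CovZ.leaf K2_ok TD_l7422 _)
             (CovZ.leaf K2_ok TD_l7423 _))
            (CovZ.leaf K2_ok TD_l7424 _)))
          (CovZ.n1 (26784, 28320) (by decide +kernel)
           (CovZ.n2 (26880, 28320) (by decide +kernel)
            (CovZ.leaf K2_ok TD_l7425 _)
            (CovZ.leaf K3_ok TD_l7426 _))
           (CovZ.n1 (26784, 28224) (by decide +kernel)
            (CovZ.leaf K2_ok TD_l7427 _)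
            (CovZ.leaf K3_ok TD_l7428 _))))
         (CovZ.n1 (26688, 28032) (by decide +kernel)
          (CovZ.subM 534273795875194513210241880360802680743984873884843089652680672670201888663405555289091365404688 (by decide +kernel)
           (CovZ.n2 (26592, 28128) (by decide +kernel)
            (CovZ.n2 (26688, 28128) (by decide +kernel)
             (CovZ.n2 (26640, 28080) (by decide +kernel)
              (CovZ.leaf K3_ok TD_l7429 _)
              (CovZ.leaf K3_ok TD_l7430 _))
             (CovZ.n1 (26640, 28176) (by decide +kernel)
              (CovZ.leaf K3_ok TD_l7431 _)
              (CovZ.leaf K3_ok TD_l7432 _)))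
            (CovZ.n1 (26592, 28032) (by decide +kernel)
             (CovZ.n2 (26544, 28080) (by decide +kernel)
              (CovZ.leaf K3_ok TD_l7433 _)
              (CovZ.n1 (26544, 28032) (by decide +kernel)
               (CovZ.leaf K2_ok TD_l7434 _)
               (CovZ.leaf K3_ok TD_l7435 _)))
             (CovZ.n1 (26640, 28080) (by decide +kernel)
              (CovZ.n2 (26640, 28032) (by decide +kernel)
               (CovZ.leaf K2_ok TD_l7436 _)
               (CovZ.leaf K2_ok TD_l7437 _))
              (CovZ.leaf K3_ok TD_l7438 _)))))
          (CovZ.n1 (26784, 28128) (by decide +kernel)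
           (CovZ.n2 (26784, 28032) (by decide +kernel)
            (CovZ.n2 (26736, 28080) (by decide +kernel)
             (CovZ.leaf K2_ok TD_l7439 _)
             (CovZ.leaf K2_ok TD_l7440 _))
            (CovZ.n1 (26832, 28080) (by decide +kernel)
             (CovZ.leaf K2_ok TD_l7441 _)
             (CovZ.leaf K2_ok TD_l7442 _)))
           (CovZ.leaf K2_ok TD_l7443 _)))))

theorem TD_u157 : CovZ TD_M (toL (selN TD_LN 550961194593326623228970655911111539425168250957140372996955970035207236102806607624973053071376)) [0, 7, 6, 1] (26496, 28032) (26112, 27648) (26880, 27648) :=
    (CovZ.n1 (26496, 27648) (by decide +kernel)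
        (CovZ.subM 534273795873251844318019684984012775605820521573202168650654705051261214713607166012165085724672 (by decide +kernel)
         (CovZ.n2 (26304, 27840) (by decide +kernel)
          (CovZ.n2 (26496, 27840) (by decide +kernel)
           (CovZ.subM 533996758980227520598755426542388028650676130589163193880599844466582941328043677323957156970496 (by decide +kernel)
            (CovZ.n2 (26400, 27744) (by decide +kernel)
             (CovZ.n2 (26400, 27840) (by decide +kernel)
              (CovZ.n2 (26448, 27792) (by decide +kernel)
               (CovZ.badM (by decide +kernel))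
               (CovZ.n1 (26448, 27840) (by decide +kernel)
                (CovZ.leaf K3_ok TD_l17117 _)
                (CovZ.n1 (26424, 27816) (by decide +kernel)
                 (CovZ.leaf K2_ok TD_l17118 _)
                 (CovZ.n1 (26448, 27816) (by decide +kernel)
                  (CovZ.badM (by decide +kernel))
                  (CovZ.leaf K2_ok TD_l17120 _)))))
              (CovZ.badM (by decide +kernel)))
             (CovZ.n1 (26496, 27744) (by decide +kernel)
              (CovZ.badM (by decide +kernel))
              (CovZ.n1 (26448, 27792) (by decide +kernel)
               (CovZ.n2 (26496, 27792) (by decide +kernel)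
                (CovZ.badM (by decide +kernel))
                (CovZ.n1 (26472, 27816) (by decide +kernel)
                 (CovZ.n2 (26496, 27816) (by decide +kernel)
                  (CovZ.leaf K2_ok TD_l17121 _)
                  (CovZ.leaf K3_ok TD_l17122 _))
                 (CovZ.n1 (26472, 27792) (by decide +kernel)
                  (CovZ.leaf K2_ok TD_l17123 _)
                  (CovZ.leaf K2_ok TD_l17124 _))))
               (CovZ.badM (by decide +kernel))))))
           (CovZ.n1 (26400, 27936) (by decide +kernel)
            (CovZ.n2 (26496, 27936) (by decide +kernel)
             (CovZ.n2 (26448, 27888) (by decide +kernel)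
              (CovZ.n2 (26448, 27936) (by decide +kernel)
               (CovZ.leaf K2_ok TD_l7444 _)
               (CovZ.n1 (26424, 27912) (by decide +kernel)
                (CovZ.leaf K2_ok TD_l7445 _)
                (CovZ.leaf K2_ok TD_l7446 _)))
              (CovZ.n1 (26496, 27888) (by decide +kernel)
               (CovZ.n2 (26472, 27864) (by decide +kernel)
                (CovZ.leaf K3_ok TD_l7447 _)
                (CovZ.leaf K3_ok TD_l7448 _))
               (CovZ.n1 (26472, 27912) (by decide +kernel)
                (CovZ.leaf K2_ok TD_l7449 _)
                (CovZ.leaf K2_ok TD_l7450 _))))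
             (CovZ.n1 (26448, 27984) (by decide +kernel)
              (CovZ.n2 (26496, 27984) (by decide +kernel)
               (CovZ.leaf K3_ok TD_l7451 _)
               (CovZ.leaf K2_ok TD_l7452 _))
              (CovZ.n1 (26448, 27936) (by decide +kernel)
               (CovZ.n2 (26424, 27960) (by decide +kernel)
                (CovZ.leaf K2_ok TD_l7453 _)
                (CovZ.leaf K3_ok TD_l7454 _))
               (CovZ.leaf K2_ok TD_l7455 _))))
            (CovZ.n1 (26400, 27840) (by decide +kernel)
             (CovZ.subM 534273795873251844318016151289883218837161354978200681419815508882079014735098977993589123973120 (by decide +kernel)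
              (CovZ.n2 (26352, 27888) (by decide +kernel)
               (CovZ.n2 (26400, 27888) (by decide +kernel)
                (CovZ.badM (by decide +kernel))
                (CovZ.n1 (26376, 27912) (by decide +kernel)
                 (CovZ.leaf K2_ok TD_l7456 _)
                 (CovZ.n1 (26376, 27888) (by decide +kernel)
                  (CovZ.leaf K3_ok TD_l17125 _)
                  (CovZ.leaf K2_ok TD_l17126 _))))
               (CovZ.badM (by decide +kernel))))
             (CovZ.n1 (26448, 27888) (by decide +kernel)
              (CovZ.subM 534273795873009010706487935156011704080579130290701762081979360068758072882782173445040604446720 (by decide +kernel)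
               (CovZ.n2 (26448, 27840) (by decide +kernel)
                (CovZ.n2 (26424, 27864) (by decide +kernel)
                 (CovZ.n2 (26448, 27864) (by decide +kernel)
                  (CovZ.leaf K3_ok TD_l17127 _)
                  (CovZ.leaf K3_ok TD_l17128 _))
                 (CovZ.n1 (26424, 27840) (by decide +kernel)
                  (CovZ.badM (by decide +kernel))
                  (CovZ.leaf K2_ok TD_l17130 _)))
                (CovZ.n1 (26472, 27864) (by decide +kernel)
                 (CovZ.n2 (26472, 27840) (by decide +kernel)
                  (CovZ.leaf K3_ok TD_l17131 _)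
                  (CovZ.leaf K3_ok TD_l17132 _))
                 (CovZ.leaf K3_ok TD_l17133 _))))
              (CovZ.n1 (26400, 27888) (by decide +kernel)
               (CovZ.n2 (26424, 27912) (by decide +kernel)
                (CovZ.leaf K2_ok TD_l7457 _)
                (CovZ.leaf K2_ok TD_l7458 _))
               (CovZ.leaf K3_ok TD_l17134 _))))))
          (CovZ.n1 (26304, 27648) (by decide +kernel)
           (CovZ.n2 (26208, 27744) (by decide +kernel)
            (CovZ.badM (by decide +kernel))
            (CovZ.badM (by decide +kernel)))
           (CovZ.badM (by decide +kernel)))))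
        (CovZ.n1 (26688, 27840) (by decide +kernel)
         (CovZ.subM 550700453988112975398396545034993243136095471077268058293211647729430307524709253977521360207872 (by decide +kernel)
          (CovZ.n2 (26688, 27648) (by decide +kernel)
           TD_u154
           TD_u155))
         (CovZ.subM 534273795875194513210241880360802680743984873884843089652675355758218748999913940060850244026368 (by decide +kernel)
          (CovZ.n1 (26496, 27840) (by decide +kernel)
           (CovZ.n2 (26592, 27936) (by decide +kernel)
            (CovZ.n2 (26592, 27840) (by decide +kernel)
             (CovZ.n2 (26544, 27888) (by decide +kernel)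
              (CovZ.n2 (26592, 27888) (by decide +kernel)
               (CovZ.n2 (26568, 27864) (by decide +kernel)
                (CovZ.leaf K2_ok TD_l7466 _)
                (CovZ.leaf K2_ok TD_l7467 _))
               (CovZ.n1 (26568, 27912) (by decide +kernel)
                (CovZ.leaf K2_ok TD_l7468 _)
                (CovZ.leaf K3_ok TD_l7469 _)))
              (CovZ.n1 (26544, 27840) (by decide +kernel)
               (CovZ.n2 (26520, 27864) (by decide +kernel)
                (CovZ.leaf K2_ok TD_l7470 _)
                (CovZ.leaf K3_ok TD_l7471 _))
               (CovZ.n1 (26568, 27864) (by decide +kernel)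
                (CovZ.leaf K3_ok TD_l7472 _)
                (CovZ.leaf K3_ok TD_l7473 _))))
             (CovZ.n1 (26640, 27888) (by decide +kernel)
              (CovZ.n2 (26640, 27840) (by decide +kernel)
               (CovZ.n2 (26616, 27864) (by decide +kernel)
                (CovZ.leaf K2_ok TD_l7474 _)
                (CovZ.leaf K2_ok TD_l7475 _))
               (CovZ.leaf K2_ok TD_l7476 _))
              (CovZ.leaf K2_ok TD_l7477 _)))
            (CovZ.n1 (26496, 27936) (by decide +kernel)
             (CovZ.n2 (26544, 27984) (by decide +kernel)
              (CovZ.n2 (26544, 27936) (by decide +kernel)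
               (CovZ.leaf K2_ok TD_l7478 _)
               (CovZ.leaf K2_ok TD_l7479 _))
              (CovZ.leaf K2_ok TD_l7480 _))
             (CovZ.n1 (26544, 27888) (by decide +kernel)
              (CovZ.n2 (26496, 27888) (by decide +kernel)
               (CovZ.n2 (26520, 27912) (by decide +kernel)
                (CovZ.leaf K3_ok TD_l7481 _)
                (CovZ.leaf K3_ok TD_l7482 _))
               (CovZ.leaf K3_ok TD_l7483 _))
              (CovZ.n1 (26544, 27936) (by decide +kernel)
               (CovZ.leaf K2_ok TD_l7484 _)
               (CovZ.n1 (26520, 27912) (by decide +kernel)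
                (CovZ.leaf K3_ok TD_l7485 _)
                (CovZ.leaf K2_ok TD_l7486 _))))))
           (CovZ.n1 (26592, 27744) (by decide +kernel)
            (CovZ.subM 533996758980227520598755426542388028650676130589163193880599844628842218157257040715535167258624 (by decide +kernel)
             (CovZ.n2 (26496, 27744) (by decide +kernel)
              (CovZ.n2 (26544, 27792) (by decide +kernel)
               (CovZ.n2 (26544, 27744) (by decide +kernel)
                (CovZ.n2 (26520, 27768) (by decide +kernel)
                 (CovZ.n2 (26544, 27768) (by decide +kernel)
                  (CovZ.leaf K2_ok TD_l17255 _)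
                  (CovZ.leaf K2_ok TD_l17256 _))
                 (CovZ.badM (by decide +kernel)))
                (CovZ.n1 (26568, 27768) (by decide +kernel)
                 (CovZ.n2 (26568, 27744) (by decide +kernel)
                  (CovZ.leaf K2_ok TD_l17257 _)
                  (CovZ.leaf K2_ok TD_l17258 _))
                 (CovZ.leaf K2_ok TD_l17259 _)))
               (CovZ.n1 (26496, 27792) (by decide +kernel)
                (CovZ.n2 (26520, 27816) (by decide +kernel)
                 (CovZ.n2 (26520, 27792) (by decide +kernel)
                  (CovZ.n2 (26508, 27804) (by decide +kernel)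
                   (CovZ.leaf K2_ok TD_l17260 _)
                   (CovZ.leaf K2_ok TD_l17261 _))
                  (CovZ.leaf K2_ok TD_l17262 _))
                 (CovZ.leaf K2_ok TD_l17263 _))
                (CovZ.leaf K2_ok TD_l17264 _)))
              (CovZ.n1 (26544, 27696) (by decide +kernel)
               (CovZ.badM (by decide +kernel))
               (CovZ.n1 (26544, 27744) (by decide +kernel)
                (CovZ.n2 (26568, 27720) (by decide +kernel)
                 (CovZ.badM (by decide +kernel))
                 (CovZ.n1 (26568, 27744) (by decide +kernel)
                  (CovZ.leaf K2_ok TD_l17265 _)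
                  (CovZ.leaf K2_ok TD_l17266 _)))
                (CovZ.badM (by decide +kernel))))))
            (CovZ.n1 (26592, 27840) (by decide +kernel)
             (CovZ.n2 (26640, 27792) (by decide +kernel)
              (CovZ.subM 534013055268038196487445574107895303675964542336312521544999688337792884011255661961936476569600 (by decide +kernel)
               (CovZ.n2 (26592, 27792) (by decide +kernel)
                (CovZ.n2 (26616, 27816) (by decide +kernel)
                 (CovZ.n2 (26616, 27792) (by decide +kernel)
                  (CovZ.leaf K2_ok TD_l17267 _)
                  (CovZ.leaf K2_ok TD_l17268 _))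
                 (CovZ.leaf K2_ok TD_l7487 _))
                (CovZ.leaf K2_ok TD_l17269 _)))
              (CovZ.n1 (26640, 27840) (by decide +kernel)
               (CovZ.leaf K2_ok TD_l7488 _)
               (CovZ.n1 (26616, 27816) (by decide +kernel)
                (CovZ.leaf K2_ok TD_l7489 _)
                (CovZ.leaf K2_ok TD_l7490 _))))
             (CovZ.subM 534013055268038196487445574107895303675964542336312521544999688337792884011255661961936476569600 (by decide +kernel)
              (CovZ.n1 (26544, 27792) (by decide +kernel)
               (CovZ.n2 (26544, 27840) (by decide +kernel)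
                (CovZ.leaf K2_ok TD_l7491 _)
                (CovZ.n1 (26520, 27816) (by decide +kernel)
                 (CovZ.leaf K3_ok TD_l17270 _)
                 (CovZ.leaf K2_ok TD_l17271 _)))
               (CovZ.n1 (26592, 27792) (by decide +kernel)
                (CovZ.n2 (26568, 27768) (by decide +kernel)
                 (CovZ.leaf K2_ok TD_l17272 _)
                 (CovZ.n1 (26592, 27768) (by decide +kernel)
                  (CovZ.leaf K2_ok TD_l17273 _)
                  (CovZ.leaf K2_ok TD_l17274 _)))
                (CovZ.n1 (26568, 27816) (by decide +kernel)
                 (CovZ.leaf K2_ok TD_l7492 _)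
                 (CovZ.n1 (26568, 27792) (by decide +kernel)
                  (CovZ.leaf K2_ok TD_l17275 _)
                  (CovZ.leaf K2_ok TD_l17276 _))))))))))))

theorem TD_u158 : CovZ TD_M (toL (selN TD_LN 18348006973294186697950817814494975539516996297843294634057752183146410373439537053142290572666287596769298)) [0, 7, 6, 1] (27648, 27648) (27264, 28032) (26880, 27648) :=
    (CovZ.n2 (27264, 27648) (by decide +kernel)
       (CovZ.n2 (27072, 27840) (by decide +kernel)
        (CovZ.subM 17498022503996388191593848148303069687113083731990437091107539454366574609267846125962851486301949968 (by decide +kernel)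
         (CovZ.n2 (27264, 27840) (by decide +kernel)
          (CovZ.n2 (27168, 27744) (by decide +kernel)
           (CovZ.n2 (27168, 27840) (by decide +kernel)
            (CovZ.leaf K2_ok TD_l7493 _)
            (CovZ.n1 (27120, 27792) (by decide +kernel)
             (CovZ.leaf K2_ok TD_l7494 _)
             (CovZ.n1 (27168, 27792) (by decide +kernel)
              (CovZ.leaf K2_ok TD_l7495 _)
              (CovZ.leaf K2_ok TD_l7496 _))))
           (CovZ.n1 (27264, 27744) (by decide +kernel)
            (CovZ.n2 (27216, 27696) (by decide +kernel)
             (CovZ.leaf K3_ok TD_l7497 _)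
             (CovZ.n1 (27264, 27696) (by decide +kernel)
              (CovZ.leaf K2_ok TD_l7498 _)
              (CovZ.leaf K3_ok TD_l7499 _)))
            (CovZ.n1 (27216, 27792) (by decide +kernel)
             (CovZ.leaf K2_ok TD_l7500 _)
             (CovZ.n1 (27216, 27744) (by decide +kernel)
              (CovZ.leaf K2_ok TD_l7501 _)
              (CovZ.leaf K2_ok TD_l7502 _)))))
          (CovZ.n1 (27168, 27936) (by decide +kernel)
           (CovZ.n2 (27264, 27936) (by decide +kernel)
            (CovZ.n2 (27216, 27888) (by decide +kernel)
             (CovZ.leaf K2_ok TD_l7503 _)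
             (CovZ.leaf K2_ok TD_l7504 _))
            (CovZ.n1 (27216, 27984) (by decide +kernel)
             (CovZ.leaf K2_ok TD_l7505 _)
             (CovZ.leaf K2_ok TD_l7506 _)))
           (CovZ.n1 (27168, 27840) (by decide +kernel)
            (CovZ.n2 (27120, 27888) (by decide +kernel)
             (CovZ.leaf K2_ok TD_l7507 _)
             (CovZ.n1 (27120, 27840) (by decide +kernel)
              (CovZ.leaf K2_ok TD_l7508 _)
              (CovZ.leaf K2_ok TD_l7509 _)))
            (CovZ.n1 (27216, 27888) (by decide +kernel)
             (CovZ.leaf K2_ok TD_l7510 _)
             (CovZ.leaf K2_ok TD_l7511 _))))))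
        (CovZ.subM 17498556761495973389928665946090653451555472235049031976786791415315882431172440886488795826210471952 (by decide +kernel)
         (CovZ.n1 (27072, 27648) (by decide +kernel)
          (CovZ.n2 (26976, 27744) (by decide +kernel)
           (CovZ.n2 (27072, 27744) (by decide +kernel)
            (CovZ.n2 (27024, 27696) (by decide +kernel)
             (CovZ.n2 (27024, 27744) (by decide +kernel)
              (CovZ.leaf K2_ok TD_l7512 _)
              (CovZ.n1 (27000, 27720) (by decide +kernel)
               (CovZ.leaf K2_ok TD_l7513 _)
               (CovZ.leaf K2_ok TD_l7514 _)))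
             (CovZ.n1 (27072, 27696) (by decide +kernel)
              (CovZ.n2 (27048, 27672) (by decide +kernel)
               (CovZ.leaf K2_ok TD_l7515 _)
               (CovZ.leaf K2_ok TD_l7516 _))
              (CovZ.leaf K2_ok TD_l7517 _)))
            (CovZ.n1 (27024, 27792) (by decide +kernel)
             (CovZ.n2 (27072, 27792) (by decide +kernel)
              (CovZ.leaf K2_ok TD_l7518 _)
              (CovZ.leaf K2_ok TD_l7519 _))
             (CovZ.n1 (27024, 27744) (by decide +kernel)
              (CovZ.leaf K2_ok TD_l7520 _)
              (CovZ.leaf K2_ok TD_l7521 _))))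
           (CovZ.subM 17498556500755368145922928580504807515785703042617445210394679131401122443668088148827826344762015744 (by decide +kernel)
            (CovZ.n1 (26976, 27648) (by decide +kernel)
             (CovZ.n2 (26928, 27696) (by decide +kernel)
              (CovZ.n2 (26976, 27696) (by decide +kernel)
               (CovZ.n2 (26952, 27672) (by decide +kernel)
                (CovZ.leaf K2_ok TD_l17277 _)
                (CovZ.leaf K2_ok TD_l17278 _))
               (CovZ.n1 (26952, 27720) (by decide +kernel)
                (CovZ.leaf K2_ok TD_l7522 _)
                (CovZ.leaf K2_ok TD_l7523 _)))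
              (CovZ.subM 550700453988112975398396545034993243136095471077268057597685123566998212789754683229673220997120 (by decide +kernel)
               (CovZ.n1 (26928, 27648) (by decide +kernel)
                (CovZ.n2 (26904, 27672) (by decide +kernel)
                 (CovZ.n2 (26928, 27672) (by decide +kernel)
                  (CovZ.leaf K2_ok TD_l17279 _)
                  (CovZ.leaf K2_ok TD_l17280 _))
                 (CovZ.n1 (26904, 27648) (by decide +kernel)
                  (CovZ.leaf K2_ok TD_l17281 _)
                  (CovZ.leaf K2_ok TD_l17282 _)))
                (CovZ.n1 (26952, 27672) (by decide +kernel)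
                 (CovZ.n2 (26952, 27648) (by decide +kernel)
                  (CovZ.leaf K2_ok TD_l17283 _)
                  (CovZ.leaf K2_ok TD_l17284 _))
                 (CovZ.leaf K2_ok TD_l17285 _)))))
             (CovZ.n1 (27024, 27696) (by decide +kernel)
              (CovZ.n2 (27024, 27648) (by decide +kernel)
               (CovZ.n2 (27000, 27672) (by decide +kernel)
                (CovZ.leaf K2_ok TD_l7524 _)
                (CovZ.leaf K2_ok TD_l17286 _))
               (CovZ.n1 (27048, 27672) (by decide +kernel)
                (CovZ.leaf K2_ok TD_l17287 _)
                (CovZ.leaf K2_ok TD_l7525 _)))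
              (CovZ.n1 (26976, 27696) (by decide +kernel)
               (CovZ.n2 (27000, 27720) (by decide +kernel)
                (CovZ.leaf K2_ok TD_l7526 _)
                (CovZ.leaf K2_ok TD_l7527 _))
               (CovZ.leaf K2_ok TD_l7528 _))))))
          (CovZ.n1 (27168, 27744) (by decide +kernel)
           (CovZ.n2 (27168, 27648) (by decide +kernel)
            (CovZ.n2 (27120, 27696) (by decide +kernel)
             (CovZ.n2 (27168, 27696) (by decide +kernel)
              (CovZ.n2 (27144, 27672) (by decide +kernel)
               (CovZ.leaf K2_ok TD_l7529 _)
               (CovZ.leaf K2_ok TD_l7530 _))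
              (CovZ.leaf K2_ok TD_l7531 _))
             (CovZ.n1 (27120, 27648) (by decide +kernel)
              (CovZ.n2 (27096, 27672) (by decide +kernel)
               (CovZ.leaf K2_ok TD_l7532 _)
               (CovZ.leaf K2_ok TD_l7533 _))
              (CovZ.n1 (27144, 27672) (by decide +kernel)
               (CovZ.leaf K2_ok TD_l7534 _)
               (CovZ.leaf K2_ok TD_l7535 _))))
            (CovZ.n1 (27216, 27696) (by decide +kernel)
             (CovZ.n2 (27216, 27648) (by decide +kernel)
              (CovZ.n2 (27192, 27672) (by decide +kernel)
               (CovZ.leaf K2_ok TD_l7536 _)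
               (CovZ.leaf K3_ok TD_l7537 _))
              (CovZ.leaf K3_ok TD_l7538 _))
             (CovZ.leaf K2_ok TD_l7539 _)))
           (CovZ.n1 (27072, 27744) (by decide +kernel)
            (CovZ.n2 (27120, 27792) (by decide +kernel)
             (CovZ.n2 (27120, 27744) (by decide +kernel)
              (CovZ.leaf K2_ok TD_l7540 _)
              (CovZ.leaf K2_ok TD_l7541 _))
             (CovZ.leaf K2_ok TD_l7542 _))
            (CovZ.n1 (27120, 27696) (by decide +kernel)
             (CovZ.leaf K2_ok TD_l7543 _)
             (CovZ.leaf K2_ok TD_l7544 _)))))))
       (CovZ.n1 (27456, 27840) (by decide +kernel)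
        (CovZ.n2 (27456, 27648) (by decide +kernel)
         (CovZ.n2 (27360, 27744) (by decide +kernel)
          (CovZ.subM 17498026659549529279304194523877876187892968990331332672795142060563589320194086616670892683118514192 (by decide +kernel)
           (CovZ.n2 (27456, 27744) (by decide +kernel)
            (CovZ.n2 (27408, 27696) (by decide +kernel)
             (CovZ.leaf K2_ok TD_l7545 _)
             (CovZ.n1 (27456, 27696) (by decide +kernel)
              (CovZ.leaf K3_ok TD_l7546 _)
              (CovZ.leaf K2_ok TD_l7547 _)))
            (CovZ.n1 (27408, 27792) (by decide +kernel)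
             (CovZ.leaf K2_ok TD_l7548 _)
             (CovZ.leaf K2_ok TD_l7549 _))))
          (CovZ.subM 17498026675846065539118878020157402202642528074722759308304865045083023167180422980265717514753806352 (by decide +kernel)
           (CovZ.n1 (27360, 27648) (by decide +kernel)
            (CovZ.n2 (27312, 27696) (by decide +kernel)
             (CovZ.n2 (27360, 27696) (by decide +kernel)
              (CovZ.leaf K3_ok TD_l7550 _)
              (CovZ.leaf K3_ok TD_l7551 _))
             (CovZ.n1 (27312, 27648) (by decide +kernel)
              (CovZ.leaf K2_ok TD_l7552 _)
              (CovZ.leaf K2_ok TD_l7553 _)))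
            (CovZ.n1 (27408, 27696) (by decide +kernel)
             (CovZ.n2 (27408, 27648) (by decide +kernel)
              (CovZ.leaf K3_ok TD_l7554 _)
              (CovZ.leaf K3_ok TD_l7555 _))
             (CovZ.leaf K3_ok TD_l7556 _)))))
         (CovZ.n1 (27552, 27744) (by decide +kernel)
          (CovZ.n2 (27552, 27648) (by decide +kernel)
           (CovZ.n2 (27504, 27696) (by decide +kernel)
            (CovZ.leaf K3_ok TD_l7557 _)
            (CovZ.n1 (27504, 27648) (by decide +kernel)
             (CovZ.leaf K3_ok TD_l7558 _)
             (CovZ.leaf K3_ok TD_l7559 _)))
           (CovZ.n1 (27600, 27696) (by decide +kernel)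
            (CovZ.n2 (27600, 27648) (by decide +kernel)
             (CovZ.leaf K3_ok TD_l7560 _)
             (CovZ.leaf K3_ok TD_l7561 _))
            (CovZ.leaf K3_ok TD_l7562 _)))
          (CovZ.n1 (27456, 27744) (by decide +kernel)
           (CovZ.n2 (27504, 27792) (by decide +kernel)
            (CovZ.leaf K3_ok TD_l7563 _)
            (CovZ.leaf K3_ok TD_l7564 _))
           (CovZ.leaf K3_ok TD_l7565 _))))
        (CovZ.n1 (27264, 27840) (by decide +kernel)
         (CovZ.n2 (27360, 27936) (by decide +kernel)
          (CovZ.n2 (27360, 27840) (by decide +kernel)
           (CovZ.n2 (27312, 27888) (by decide +kernel)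
            (CovZ.leaf K2_ok TD_l7566 _)
            (CovZ.leaf K2_ok TD_l7567 _))
           (CovZ.n1 (27408, 27888) (by decide +kernel)
            (CovZ.leaf K2_ok TD_l7568 _)
            (CovZ.leaf K2_ok TD_l7569 _)))
          (CovZ.leaf K2_ok TD_l7570 _))
         (CovZ.n1 (27360, 27744) (by decide +kernel)
          (CovZ.subM 17498026675846065781952489548373509107628597707747394124920441948021135810536056429470950873245945872 (by decide +kernel)
           (CovZ.n2 (27264, 27744) (by decide +kernel)
            (CovZ.n2 (27312, 27792) (by decide +kernel)
             (CovZ.n2 (27312, 27744) (by decide +kernel)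
              (CovZ.leaf K2_ok TD_l7571 _)
              (CovZ.leaf K3_ok TD_l7572 _))
             (CovZ.leaf K2_ok TD_l7573 _))
            (CovZ.leaf K2_ok TD_l7574 _)))
          (CovZ.n1 (27360, 27840) (by decide +kernel)
           (CovZ.leaf K2_ok TD_l7575 _)
           (CovZ.n1 (27312, 27792) (by decide +kernel)
            (CovZ.leaf K2_ok TD_l7576 _)
            (CovZ.leaf K2_ok TD_l7577 _)))))))

theorem TD_u159 : CovZ TD_M (toL (selN TD_LN 18348006973294186697950817814494975539516996297843294634057752183146410373439537053142290572666287596769298)) [0, 7, 6, 1] (27264, 28032) (26880, 28416) (26880, 27648) :=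
    (CovZ.n1 (26880, 28032) (by decide +kernel)
       (CovZ.n2 (27072, 28224) (by decide +kernel)
        (CovZ.n2 (27072, 28032) (by decide +kernel)
         (CovZ.subM 17498556761495973359570759158149377762816008495903317063118432198436438894565461546016809604913041424 (by decide +kernel)
          (CovZ.n2 (26976, 28128) (by decide +kernel)
           (CovZ.n2 (27072, 28128) (by decide +kernel)
            (CovZ.n2 (27024, 28080) (by decide +kernel)
             (CovZ.leaf K2_ok TD_l7578 _)
             (CovZ.leaf K2_ok TD_l7579 _))
            (CovZ.leaf K2_ok TD_l7580 _))
           (CovZ.n1 (26976, 28032) (by decide +kernel)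
            (CovZ.n2 (26928, 28080) (by decide +kernel)
             (CovZ.leaf K2_ok TD_l7581 _)
             (CovZ.leaf K2_ok TD_l7582 _))
            (CovZ.leaf K2_ok TD_l7583 _))))
         (CovZ.n1 (27168, 28128) (by decide +kernel)
          (CovZ.n2 (27168, 28032) (by decide +kernel)
           (CovZ.leaf K2_ok TD_l7584 _)
           (CovZ.leaf K2_ok TD_l7585 _))
          (CovZ.leaf K2_ok TD_l7586 _)))
        (CovZ.subM 17498556761495973359570759158149377762816008495903317063118432198436438894565461546016809604913041424 (by decide +kernel)
         (CovZ.n1 (26880, 28224) (by decide +kernel)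
          (CovZ.n2 (26976, 28320) (by decide +kernel)
           (CovZ.n2 (26976, 28224) (by decide +kernel)
            (CovZ.leaf K3_ok TD_l7587 _)
            (CovZ.leaf K3_ok TD_l7588 _))
           (CovZ.leaf K2_ok TD_l7589 _))
          (CovZ.n1 (26976, 28128) (by decide +kernel)
           (CovZ.leaf K2_ok TD_l7590 _)
           (CovZ.n1 (26976, 28224) (by decide +kernel)
            (CovZ.leaf K2_ok TD_l7591 _)
            (CovZ.n1 (26928, 28176) (by decide +kernel)
             (CovZ.leaf K3_ok TD_l7592 _)
             (CovZ.leaf K2_ok TD_l7593 _)))))))
       (CovZ.n1 (27072, 27840) (by decide +kernel)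
        (CovZ.subM 17498556761495973359570759158149377762816008495903317063118432195777982902995629800065080296276492304 (by decide +kernel)
         (CovZ.n2 (26880, 27840) (by decide +kernel)
          (CovZ.n2 (26976, 27936) (by decide +kernel)
           (CovZ.n2 (26976, 27840) (by decide +kernel)
            (CovZ.n2 (26928, 27888) (by decide +kernel)
             (CovZ.n2 (26976, 27888) (by decide +kernel)
              (CovZ.leaf K2_ok TD_l7594 _)
              (CovZ.leaf K2_ok TD_l7595 _))
             (CovZ.n1 (26928, 27840) (by decide +kernel)
              (CovZ.leaf K2_ok TD_l7596 _)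
              (CovZ.leaf K2_ok TD_l7597 _)))
            (CovZ.n1 (27024, 27888) (by decide +kernel)
             (CovZ.n2 (27024, 27840) (by decide +kernel)
              (CovZ.leaf K2_ok TD_l7598 _)
              (CovZ.leaf K2_ok TD_l7599 _))
             (CovZ.leaf K2_ok TD_l7600 _)))
           (CovZ.n1 (26880, 27936) (by decide +kernel)
            (CovZ.n2 (26928, 27984) (by decide +kernel)
             (CovZ.leaf K2_ok TD_l7601 _)
             (CovZ.leaf K2_ok TD_l7602 _))
            (CovZ.leaf K2_ok TD_l7603 _)))
          (CovZ.n1 (26976, 27744) (by decide +kernel)
           (CovZ.n2 (26880, 27744) (by decide +kernel)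
            (CovZ.n2 (26928, 27792) (by decide +kernel)
             (CovZ.n2 (26928, 27744) (by decide +kernel)
              (CovZ.n2 (26904, 27768) (by decide +kernel)
               (CovZ.leaf K2_ok TD_l7604 _)
               (CovZ.leaf K2_ok TD_l7605 _))
              (CovZ.leaf K2_ok TD_l7606 _))
             (CovZ.leaf K2_ok TD_l7607 _))
            (CovZ.subM 550700454236774593603289866112685189961784551730517210480955577874465987010263819462712329502720 (by decide +kernel)
             (CovZ.n1 (26928, 27696) (by decide +kernel)
              (CovZ.n2 (26880, 27696) (by decide +kernel)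
               (CovZ.n2 (26904, 27720) (by decide +kernel)
                (CovZ.n2 (26904, 27696) (by decide +kernel)
                 (CovZ.leaf K2_ok TD_l17288 _)
                 (CovZ.leaf K2_ok TD_l17289 _))
                (CovZ.leaf K2_ok TD_l7608 _))
               (CovZ.leaf K2_ok TD_l17290 _))
              (CovZ.n1 (26928, 27744) (by decide +kernel)
               (CovZ.leaf K2_ok TD_l7609 _)
               (CovZ.n1 (26904, 27720) (by decide +kernel)
                (CovZ.leaf K2_ok TD_l7610 _)
                (CovZ.leaf K2_ok TD_l7611 _))))))
           (CovZ.n1 (26976, 27840) (by decide +kernel)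
            (CovZ.leaf K2_ok TD_l7612 _)
            (CovZ.n1 (26928, 27792) (by decide +kernel)
             (CovZ.leaf K2_ok TD_l7613 _)
             (CovZ.n1 (26976, 27792) (by decide +kernel)
              (CovZ.n2 (26952, 27768) (by decide +kernel)
               (CovZ.leaf K2_ok TD_l7614 _)
               (CovZ.leaf K2_ok TD_l7615 _))
              (CovZ.leaf K2_ok TD_l7616 _)))))))
        (CovZ.n1 (27072, 28032) (by decide +kernel)
         (CovZ.subM 17498022503996388191593848148303069687113083731990437091107539454366574609267846421110756665654775824 (by decide +kernel)
          (CovZ.n2 (27168, 27936) (by decide +kernel)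
           (CovZ.n2 (27072, 27936) (by decide +kernel)
            (CovZ.n2 (27120, 27984) (by decide +kernel)
             (CovZ.leaf K2_ok TD_l7617 _)
             (CovZ.leaf K2_ok TD_l7618 _))
            (CovZ.leaf K2_ok TD_l7619 _))
           (CovZ.n1 (27168, 28032) (by decide +kernel)
            (CovZ.leaf K2_ok TD_l7620 _)
            (CovZ.n1 (27120, 27984) (by decide +kernel)
             (CovZ.leaf K2_ok TD_l7621 _)
             (CovZ.leaf K2_ok TD_l7622 _)))))
         (CovZ.subM 17498556761495973359570759158149377762816008495903317063118432198436438894565461546016809604913041424 (by decide +kernel)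
          (CovZ.n1 (26976, 27936) (by decide +kernel)
           (CovZ.n2 (26976, 28032) (by decide +kernel)
            (CovZ.leaf K2_ok TD_l7623 _)
            (CovZ.n1 (26928, 27984) (by decide +kernel)
             (CovZ.leaf K2_ok TD_l7624 _)
             (CovZ.leaf K2_ok TD_l7625 _)))
           (CovZ.n1 (27072, 27936) (by decide +kernel)
            (CovZ.n2 (27024, 27888) (by decide +kernel)
             (CovZ.leaf K2_ok TD_l7626 _)
             (CovZ.leaf K2_ok TD_l7627 _))
            (CovZ.n1 (27024, 27984) (by decide +kernel)
             (CovZ.leaf K2_ok TD_l7628 _)
             (CovZ.leaf K2_ok TD_l7629 _))))))))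

theorem TD_u160 : CovZ TD_M (toL (selN TD_LN 534273795873251844318019684984012775605820521573202168650660021963244354377098781279988625702928)) [0, 7, 6, 1] (26112, 28416) (26112, 28032) (26496, 28032) :=
    (CovZ.n2 (26304, 28224) (by decide +kernel)
          (CovZ.n2 (26304, 28032) (by decide +kernel)
           (CovZ.n2 (26208, 28128) (by decide +kernel)
            (CovZ.n2 (26304, 28128) (by decide +kernel)
             (CovZ.n2 (26256, 28080) (by decide +kernel)
              (CovZ.leaf K3_ok TD_l7671 _)
              (CovZ.n1 (26304, 28080) (by decide +kernel)
               (CovZ.leaf K3_ok TD_l7672 _)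
               (CovZ.leaf K3_ok TD_l7673 _)))
             (CovZ.n1 (26256, 28176) (by decide +kernel)
              (CovZ.leaf K3_ok TD_l7674 _)
              (CovZ.n1 (26256, 28128) (by decide +kernel)
               (CovZ.leaf K3_ok TD_l7675 _)
               (CovZ.leaf K3_ok TD_l7676 _))))
            (CovZ.n1 (26208, 28032) (by decide +kernel)
             (CovZ.n2 (26160, 28080) (by decide +kernel)
              (CovZ.n2 (26208, 28080) (by decide +kernel)
               (CovZ.n2 (26184, 28056) (by decide +kernel)
                (CovZ.leaf K3_ok TD_l7677 _)
                (CovZ.leaf K3_ok TD_l7678 _))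
               (CovZ.leaf K3_ok TD_l7679 _))
              (CovZ.n1 (26160, 28032) (by decide +kernel)
               (CovZ.leaf K3_ok TD_l7680 _)
               (CovZ.n1 (26184, 28056) (by decide +kernel)
                (CovZ.leaf K3_ok TD_l7681 _)
                (CovZ.leaf K3_ok TD_l7682 _))))
             (CovZ.n1 (26256, 28080) (by decide +kernel)
              (CovZ.n2 (26256, 28032) (by decide +kernel)
               (CovZ.leaf K3_ok TD_l7683 _)
               (CovZ.n1 (26280, 28056) (by decide +kernel)
                (CovZ.leaf K3_ok TD_l7684 _)
                (CovZ.leaf K3_ok TD_l7685 _)))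
              (CovZ.leaf K3_ok TD_l7686 _))))
           (CovZ.n1 (26400, 28128) (by decide +kernel)
            (CovZ.n2 (26400, 28032) (by decide +kernel)
             (CovZ.n2 (26352, 28080) (by decide +kernel)
              (CovZ.n2 (26400, 28080) (by decide +kernel)
               (CovZ.leaf K3_ok TD_l7687 _)
               (CovZ.leaf K3_ok TD_l7688 _))
              (CovZ.n1 (26352, 28032) (by decide +kernel)
               (CovZ.leaf K3_ok TD_l7689 _)
               (CovZ.leaf K3_ok TD_l7690 _)))
             (CovZ.n1 (26448, 28080) (by decide +kernel)
              (CovZ.n2 (26448, 28032) (by decide +kernel)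
               (CovZ.leaf K3_ok TD_l7691 _)
               (CovZ.leaf K2_ok TD_l7692 _))
              (CovZ.leaf K3_ok TD_l7693 _)))
            (CovZ.n1 (26304, 28128) (by decide +kernel)
             (CovZ.n2 (26352, 28176) (by decide +kernel)
              (CovZ.n2 (26352, 28128) (by decide +kernel)
               (CovZ.leaf K3_ok TD_l7694 _)
               (CovZ.leaf K3_ok TD_l7695 _))
              (CovZ.leaf K3_ok TD_l7696 _))
             (CovZ.leaf K3_ok TD_l7697 _))))
          (CovZ.n1 (26112, 28224) (by decide +kernel)
           (CovZ.n2 (26208, 28320) (by decide +kernel)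
            (CovZ.n2 (26208, 28224) (by decide +kernel)
             (CovZ.n2 (26160, 28272) (by decide +kernel)
              (CovZ.leaf K3_ok TD_l7698 _)
              (CovZ.leaf K3_ok TD_l7699 _))
             (CovZ.n1 (26256, 28272) (by decide +kernel)
              (CovZ.leaf K3_ok TD_l7700 _)
              (CovZ.leaf K3_ok TD_l7701 _)))
            (CovZ.n1 (26112, 28320) (by decide +kernel)
             (CovZ.n2 (26160, 28368) (by decide +kernel)
              (CovZ.leaf K3_ok TD_l7702 _)
              (CovZ.leaf K3_ok TD_l7703 _))
             (CovZ.leaf K3_ok TD_l7704 _)))
           (CovZ.n1 (26208, 28128) (by decide +kernel)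
            (CovZ.n2 (26112, 28128) (by decide +kernel)
             (CovZ.n2 (26160, 28176) (by decide +kernel)
              (CovZ.n2 (26160, 28128) (by decide +kernel)
               (CovZ.leaf K3_ok TD_l7705 _)
               (CovZ.leaf K3_ok TD_l7706 _))
              (CovZ.leaf K3_ok TD_l7707 _))
             (CovZ.leaf K3_ok TD_l7708 _))
            (CovZ.n1 (26208, 28224) (by decide +kernel)
             (CovZ.leaf K3_ok TD_l7709 _)
             (CovZ.n1 (26160, 28176) (by decide +kernel)
              (CovZ.leaf K3_ok TD_l7710 _)
              (CovZ.leaf K3_ok TD_l7711 _))))))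

theorem TD_u161 : CovZ TD_M (toL (selN TD_LN 534273795873251844318019684984012775605820521573202168650660021963244354377098781279988625702928)) [0, 7, 6, 1] (26112, 28032) (26112, 27648) (26496, 28032) :=
    (CovZ.n1 (26304, 27840) (by decide +kernel)
          (CovZ.subM 260740605213647830574110876117471929855979236889647279868954753022544668616036605112874958848 (by decide +kernel)
           (CovZ.n2 (26112, 27840) (by decide +kernel)
            (CovZ.n2 (26208, 27936) (by decide +kernel)
             (CovZ.subM 260740605213647830574110876117471929855979236889646408746095435420078192932308578862591115264 (by decide +kernel)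
              (CovZ.n2 (26208, 27840) (by decide +kernel)
               (CovZ.n2 (26160, 27888) (by decide +kernel)
                (CovZ.n2 (26208, 27888) (by decide +kernel)
                 (CovZ.n2 (26184, 27864) (by decide +kernel)
                  (CovZ.n2 (26184, 27888) (by decide +kernel)
                   (CovZ.badM (by decide +kernel))
                   (CovZ.n1 (26172, 27876) (by decide +kernel)
                    (CovZ.leaf K2_ok TD_l18478 _)
                    (CovZ.leaf K2_ok TD_l18479 _)))
                  (CovZ.badM (by decide +kernel)))
                 (CovZ.n1 (26184, 27912) (by decide +kernel)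
                  (CovZ.n2 (26208, 27912) (by decide +kernel)
                   (CovZ.n2 (26196, 27900) (by decide +kernel)
                    (CovZ.leaf K2_ok TD_l17291 _)
                    (CovZ.leaf K3_ok TD_l17292 _))
                   (CovZ.leaf K2_ok TD_l17293 _))
                  (CovZ.n1 (26184, 27888) (by decide +kernel)
                   (CovZ.leaf K3_ok TD_l17294 _)
                   (CovZ.n1 (26196, 27900) (by decide +kernel)
                    (CovZ.leaf K2_ok TD_l17295 _)
                    (CovZ.leaf K2_ok TD_l17296 _)))))
                (CovZ.n1 (26160, 27840) (by decide +kernel)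
                 (CovZ.n2 (26136, 27864) (by decide +kernel)
                  (CovZ.n2 (26160, 27864) (by decide +kernel)
                   (CovZ.n2 (26148, 27852) (by decide +kernel)
                    (CovZ.leaf K2_ok TD_l18480 _)
                    (CovZ.leaf K2_ok TD_l18481 _))
                   (CovZ.n1 (26148, 27876) (by decide +kernel)
                    (CovZ.leaf K2_ok TD_l18482 _)
                    (CovZ.leaf K2_ok TD_l18483 _)))
                  (CovZ.badM (by decide +kernel)))
                 (CovZ.n1 (26184, 27864) (by decide +kernel)
                  (CovZ.n2 (26184, 27840) (by decide +kernel)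
                   (CovZ.n2 (26172, 27852) (by decide +kernel)
                    (CovZ.leaf K2_ok TD_l18484 _)
                    (CovZ.badM (by decide +kernel)))
                   (CovZ.badM (by decide +kernel)))
                  (CovZ.n1 (26160, 27864) (by decide +kernel)
                   (CovZ.n2 (26172, 27876) (by decide +kernel)
                    (CovZ.n2 (26172, 27864) (by decide +kernel)
                     (CovZ.leaf K2_ok TD_l18485 _)
                     (CovZ.leaf K2_ok TD_l18486 _))
                    (CovZ.leaf K3_ok TD_l18487 _))
                   (CovZ.leaf K2_ok TD_l18488 _)))))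
               (CovZ.n1 (26256, 27888) (by decide +kernel)
                (CovZ.badM (by decide +kernel))
                (CovZ.n1 (26208, 27888) (by decide +kernel)
                 (CovZ.n2 (26232, 27912) (by decide +kernel)
                  (CovZ.n2 (26232, 27888) (by decide +kernel)
                   (CovZ.leaf K2_ok TD_l17297 _)
                   (CovZ.leaf K3_ok TD_l17298 _))
                  (CovZ.leaf K2_ok TD_l17299 _))
                 (CovZ.badM (by decide +kernel))))))
             (CovZ.n1 (26112, 27936) (by decide +kernel)
              (CovZ.n2 (26160, 27984) (by decide +kernel)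
               (CovZ.n2 (26160, 27936) (by decide +kernel)
                (CovZ.n2 (26136, 27960) (by decide +kernel)
                 (CovZ.n2 (26160, 27960) (by decide +kernel)
                  (CovZ.leaf K2_ok TD_l17300 _)
                  (CovZ.leaf K2_ok TD_l17301 _))
                 (CovZ.n1 (26136, 27936) (by decide +kernel)
                  (CovZ.leaf K3_ok TD_l17302 _)
                  (CovZ.leaf K3_ok TD_l17303 _)))
                (CovZ.n1 (26184, 27960) (by decide +kernel)
                 (CovZ.n2 (26184, 27936) (by decide +kernel)
                  (CovZ.leaf K2_ok TD_l17304 _)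
                  (CovZ.leaf K2_ok TD_l17305 _))
                 (CovZ.leaf K2_ok TD_l17306 _)))
               (CovZ.n1 (26112, 27984) (by decide +kernel)
                (CovZ.n2 (26136, 28008) (by decide +kernel)
                 (CovZ.leaf K3_ok TD_l17307 _)
                 (CovZ.leaf K3_ok TD_l7712 _))
                (CovZ.leaf K3_ok TD_l17308 _)))
              (CovZ.subM 260740605213647830574110876117471929855979236889646408746095435420078192932308578862591115264 (by decide +kernel)
               (CovZ.n1 (26160, 27888) (by decide +kernel)
                (CovZ.n2 (26112, 27888) (by decide +kernel)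
                 (CovZ.n2 (26136, 27912) (by decide +kernel)
                  (CovZ.n2 (26136, 27888) (by decide +kernel)
                   (CovZ.leaf K2_ok TD_l17309 _)
                   (CovZ.leaf K3_ok TD_l17310 _))
                  (CovZ.n1 (26112, 27912) (by decide +kernel)
                   (CovZ.leaf K2_ok TD_l17311 _)
                   (CovZ.leaf K3_ok TD_l17312 _)))
                 (CovZ.n1 (26136, 27864) (by decide +kernel)
                  (CovZ.n2 (26112, 27864) (by decide +kernel)
                   (CovZ.n2 (26124, 27876) (by decide +kernel)
                    (CovZ.n2 (26124, 27864) (by decide +kernel)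
                     (CovZ.leaf K2_ok TD_l18489 _)
                     (CovZ.leaf K2_ok TD_l18490 _))
                    (CovZ.leaf K2_ok TD_l18491 _))
                   (CovZ.badM (by decide +kernel)))
                  (CovZ.n1 (26136, 27888) (by decide +kernel)
                   (CovZ.leaf K2_ok TD_l18492 _)
                   (CovZ.n1 (26124, 27876) (by decide +kernel)
                    (CovZ.leaf K3_ok TD_l18493 _)
                    (CovZ.leaf K2_ok TD_l18494 _)))))
                (CovZ.n1 (26160, 27936) (by decide +kernel)
                 (CovZ.leaf K2_ok TD_l17313 _)
                 (CovZ.n1 (26136, 27912) (by decide +kernel)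
                  (CovZ.n2 (26136, 27936) (by decide +kernel)
                   (CovZ.leaf K3_ok TD_l17314 _)
                   (CovZ.leaf K3_ok TD_l17315 _))
                  (CovZ.n1 (26160, 27912) (by decide +kernel)
                   (CovZ.leaf K2_ok TD_l17316 _)
                   (CovZ.leaf K2_ok TD_l17317 _))))))))
            (CovZ.n1 (26208, 27744) (by decide +kernel)
             (CovZ.badM (by decide +kernel))
             (CovZ.n1 (26208, 27840) (by decide +kernel)
              (CovZ.badM (by decide +kernel))
              (CovZ.badM (by decide +kernel))))))
          (CovZ.n1 (26304, 28032) (by decide +kernel)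
           (CovZ.n2 (26400, 27936) (by decide +kernel)
            (CovZ.subM 534273795873251844318016151289883218837161354978200681419815508882079014744543710959328683884544 (by decide +kernel)
             (CovZ.n2 (26304, 27936) (by decide +kernel)
              (CovZ.n2 (26352, 27984) (by decide +kernel)
               (CovZ.n2 (26352, 27936) (by decide +kernel)
                (CovZ.n2 (26328, 27960) (by decide +kernel)
                 (CovZ.leaf K3_ok TD_l7713 _)
                 (CovZ.n1 (26328, 27936) (by decide +kernel)
                  (CovZ.leaf K3_ok TD_l17318 _)
                  (CovZ.leaf K3_ok TD_l17319 _)))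
                (CovZ.n1 (26376, 27960) (by decide +kernel)
                 (CovZ.leaf K3_ok TD_l7714 _)
                 (CovZ.leaf K3_ok TD_l7715 _)))
               (CovZ.leaf K3_ok TD_l7716 _))
              (CovZ.n1 (26352, 27888) (by decide +kernel)
               (CovZ.subM 260740605213647830570577181987915161196812641888161442837299785228793421255060391786627203072 (by decide +kernel)
                (CovZ.n2 (26304, 27888) (by decide +kernel)
                 (CovZ.n2 (26328, 27912) (by decide +kernel)
                  (CovZ.n2 (26328, 27888) (by decide +kernel)
                   (CovZ.leaf K3_ok TD_l17320 _)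
                   (CovZ.leaf K3_ok TD_l17321 _))
                  (CovZ.leaf K3_ok TD_l17322 _))
                 (CovZ.badM (by decide +kernel))))
               (CovZ.n1 (26352, 27936) (by decide +kernel)
                (CovZ.leaf K3_ok TD_l7717 _)
                (CovZ.n1 (26328, 27912) (by decide +kernel)
                 (CovZ.leaf K3_ok TD_l17323 _)
                 (CovZ.leaf K3_ok TD_l17324 _))))))
            (CovZ.n1 (26400, 28032) (by decide +kernel)
             (CovZ.leaf K3_ok TD_l7718 _)
             (CovZ.n1 (26352, 27984) (by decide +kernel)
              (CovZ.n2 (26352, 28032) (by decide +kernel)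
               (CovZ.leaf K3_ok TD_l7719 _)
               (CovZ.leaf K3_ok TD_l7720 _))
              (CovZ.n1 (26400, 27984) (by decide +kernel)
               (CovZ.n2 (26376, 27960) (by decide +kernel)
                (CovZ.leaf K3_ok TD_l7721 _)
                (CovZ.leaf K3_ok TD_l7722 _))
               (CovZ.leaf K3_ok TD_l7723 _)))))
           (CovZ.n1 (26208, 27936) (by decide +kernel)
            (CovZ.n2 (26208, 28032) (by decide +kernel)
             (CovZ.subM 534273795873251844318016151289883218837161354978200681419772973586213897436610789133399712858112 (by decide +kernel)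
              (CovZ.n2 (26256, 27984) (by decide +kernel)
               (CovZ.n2 (26208, 27984) (by decide +kernel)
                (CovZ.n2 (26232, 28008) (by decide +kernel)
                 (CovZ.leaf K3_ok TD_l7724 _)
                 (CovZ.leaf K3_ok TD_l7725 _))
                (CovZ.leaf K3_ok TD_l17325 _))
               (CovZ.n1 (26256, 28032) (by decide +kernel)
                (CovZ.leaf K3_ok TD_l7726 _)
                (CovZ.n1 (26232, 28008) (by decide +kernel)
                 (CovZ.leaf K3_ok TD_l7727 _)
                 (CovZ.leaf K3_ok TD_l7728 _)))))
             (CovZ.subM 277036893024323719264258441624746955144390984038974769874043876617379719014143298762611621888 (by decide +kernel)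
              (CovZ.n1 (26160, 27984) (by decide +kernel)
               (CovZ.n2 (26160, 28032) (by decide +kernel)
                (CovZ.leaf K3_ok TD_l7729 _)
                (CovZ.n1 (26136, 28008) (by decide +kernel)
                 (CovZ.leaf K3_ok TD_l7730 _)
                 (CovZ.leaf K3_ok TD_l7731 _)))
               (CovZ.n1 (26208, 27984) (by decide +kernel)
                (CovZ.n2 (26184, 27960) (by decide +kernel)
                 (CovZ.leaf K2_ok TD_l17326 _)
                 (CovZ.leaf K2_ok TD_l17327 _))
                (CovZ.n1 (26184, 28008) (by decide +kernel)
                 (CovZ.leaf K3_ok TD_l7732 _)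
                 (CovZ.leaf K3_ok TD_l7733 _))))))
            (CovZ.subM 534273795873251844318016151289883218837161354978200681419772973586213897436610789133399712858112 (by decide +kernel)
             (CovZ.n1 (26304, 27936) (by decide +kernel)
              (CovZ.subM 260740605213647830570577181987915161196812641888161442837299785228793421255060391786627203072 (by decide +kernel)
               (CovZ.n2 (26256, 27888) (by decide +kernel)
                (CovZ.n2 (26256, 27936) (by decide +kernel)
                 (CovZ.leaf K3_ok TD_l17328 _)
                 (CovZ.n1 (26232, 27912) (by decide +kernel)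
                  (CovZ.leaf K2_ok TD_l17329 _)
                  (CovZ.n1 (26256, 27912) (by decide +kernel)
                   (CovZ.leaf K2_ok TD_l17330 _)
                   (CovZ.leaf K2_ok TD_l17331 _))))
                (CovZ.n1 (26304, 27888) (by decide +kernel)
                 (CovZ.badM (by decide +kernel))
                 (CovZ.n1 (26280, 27912) (by decide +kernel)
                  (CovZ.leaf K3_ok TD_l17332 _)
                  (CovZ.n1 (26280, 27888) (by decide +kernel)
                   (CovZ.leaf K3_ok TD_l17333 _)
                   (CovZ.leaf K3_ok TD_l17334 _))))))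
              (CovZ.n1 (26256, 27984) (by decide +kernel)
               (CovZ.n2 (26304, 27984) (by decide +kernel)
                (CovZ.n2 (26280, 27960) (by decide +kernel)
                 (CovZ.leaf K3_ok TD_l7734 _)
                 (CovZ.leaf K3_ok TD_l7735 _))
                (CovZ.n1 (26280, 28008) (by decide +kernel)
                 (CovZ.leaf K3_ok TD_l7736 _)
                 (CovZ.leaf K3_ok TD_l7737 _)))
               (CovZ.subM 277036893024323719260724747495190186485224389037488932842388908823628471653167085436094382080 (by decide +kernel)
                (CovZ.n1 (26256, 27936) (by decide +kernel)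
                 (CovZ.n2 (26232, 27960) (by decide +kernel)
                  (CovZ.leaf K2_ok TD_l17335 _)
                  (CovZ.n1 (26232, 27936) (by decide +kernel)
                   (CovZ.leaf K3_ok TD_l17336 _)
                   (CovZ.leaf K3_ok TD_l17337 _)))
                 (CovZ.n1 (26280, 27960) (by decide +kernel)
                  (CovZ.n2 (26280, 27936) (by decide +kernel)
                   (CovZ.leaf K3_ok TD_l17338 _)
                   (CovZ.leaf K3_ok TD_l17339 _))
                  (CovZ.leaf K3_ok TD_l17340 _))))))))))

theorem TD_u162 : CovZ TD_M (toL (selN TD_LN 36767649687590833920511215311423109485778797415342359704781551382276515459293594254241160801069208797446464)) [0, 7, 6, 1] (23808, 29952) (24192, 29568) (24576, 29952) :=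
    (CovZ.n2 (24192, 29952) (by decide +kernel)
       (CovZ.n2 (24384, 29760) (by decide +kernel)
        (CovZ.subM 36767649687590833920510972477811581269644932482604006764918221081421628624941454638026451390459666898092288 (by decide +kernel)
         (CovZ.n2 (24192, 29760) (by decide +kernel)
          (CovZ.n2 (24288, 29856) (by decide +kernel)
           (CovZ.n2 (24288, 29760) (by decide +kernel)
            (CovZ.n2 (24240, 29808) (by decide +kernel)
             (CovZ.leaf K3_ok TD_l3145 _)
             (CovZ.leaf K3_ok TD_l3146 _))
            (CovZ.leaf K3_ok TD_l3147 _))
           (CovZ.leaf K2_ok TD_l3148 _))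
          (CovZ.n1 (24288, 29664) (by decide +kernel)
           (CovZ.n2 (24192, 29664) (by decide +kernel)
            (CovZ.n2 (24240, 29712) (by decide +kernel)
             (CovZ.n2 (24240, 29664) (by decide +kernel)
              (CovZ.leaf K2_ok TD_l3149 _)
              (CovZ.leaf K2_ok TD_l3150 _))
             (CovZ.leaf K3_ok TD_l3151 _))
            (CovZ.leaf K3_ok TD_l3152 _))
           (CovZ.n1 (24288, 29760) (by decide +kernel)
            (CovZ.leaf K3_ok TD_l3153 _)
            (CovZ.n1 (24240, 29712) (by decide +kernel)
             (CovZ.leaf K3_ok TD_l3154 _)
             (CovZ.leaf K2_ok TD_l3155 _))))))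
        (CovZ.n1 (24384, 29952) (by decide +kernel)
         (CovZ.leaf K3_ok TD_l3156 _)
         (CovZ.subM 36767649687590833920510972477811581269644932482604006764918221081421628624941454638026451390459666898092288 (by decide +kernel)
          (CovZ.n1 (24288, 29856) (by decide +kernel)
           (CovZ.n2 (24288, 29952) (by decide +kernel)
            (CovZ.leaf K3_ok TD_l3157 _)
            (CovZ.leaf K3_ok TD_l3158 _))
           (CovZ.n1 (24384, 29856) (by decide +kernel)
            (CovZ.leaf K3_ok TD_l3159 _)
            (CovZ.leaf K3_ok TD_l3160 _))))))
       (CovZ.subM 36767649687590833920510972477811581269644932482604006764918221081421607357293522079372484929546702412579072 (by decide +kernel)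
        (CovZ.n1 (24000, 29760) (by decide +kernel)
         (CovZ.n2 (24000, 29952) (by decide +kernel)
          (CovZ.n2 (24096, 29856) (by decide +kernel)
           (CovZ.n2 (24000, 29856) (by decide +kernel)
            (CovZ.n2 (24048, 29904) (by decide +kernel)
             (CovZ.leaf K2_ok TD_l3161 _)
             (CovZ.leaf K2_ok TD_l3162 _))
            (CovZ.leaf K3_ok TD_l3163 _))
           (CovZ.n1 (24096, 29952) (by decide +kernel)
            (CovZ.leaf K2_ok TD_l3164 _)
            (CovZ.n1 (24048, 29904) (by decide +kernel)
             (CovZ.leaf K2_ok TD_l3165 _)
             (CovZ.leaf K3_ok TD_l3166 _))))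
          (CovZ.n1 (23904, 29856) (by decide +kernel)
           (CovZ.n2 (23904, 29952) (by decide +kernel)
            (CovZ.leaf K2_ok TD_l3167 _)
            (CovZ.n1 (23856, 29904) (by decide +kernel)
             (CovZ.leaf K2_ok TD_l3168 _)
             (CovZ.leaf K2_ok TD_l3169 _)))
           (CovZ.n1 (24000, 29856) (by decide +kernel)
            (CovZ.n2 (23952, 29808) (by decide +kernel)
             (CovZ.leaf K3_ok TD_l3170 _)
             (CovZ.leaf K3_ok TD_l3171 _))
            (CovZ.n1 (23952, 29904) (by decide +kernel)
             (CovZ.leaf K3_ok TD_l3172 _)
             (CovZ.leaf K2_ok TD_l3173 _)))))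
         (CovZ.n1 (24192, 29760) (by decide +kernel)
          (CovZ.n2 (24096, 29664) (by decide +kernel)
           (CovZ.n2 (24096, 29760) (by decide +kernel)
            (CovZ.leaf K3_ok TD_l3174 _)
            (CovZ.n1 (24048, 29712) (by decide +kernel)
             (CovZ.leaf K3_ok TD_l3175 _)
             (CovZ.n1 (24096, 29712) (by decide +kernel)
              (CovZ.leaf K2_ok TD_l3176 _)
              (CovZ.leaf K2_ok TD_l3177 _))))
           (CovZ.n1 (24192, 29664) (by decide +kernel)
            (CovZ.n2 (24144, 29616) (by decide +kernel)
             (CovZ.n2 (24144, 29664) (by decide +kernel)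
              (CovZ.leaf K3_ok TD_l3178 _)
              (CovZ.leaf K3_ok TD_l3179 _))
             (CovZ.n1 (24192, 29616) (by decide +kernel)
              (CovZ.leaf K2_ok TD_l3180 _)
              (CovZ.leaf K3_ok TD_l3181 _)))
            (CovZ.n1 (24144, 29712) (by decide +kernel)
             (CovZ.leaf K2_ok TD_l3182 _)
             (CovZ.n1 (24144, 29664) (by decide +kernel)
              (CovZ.leaf K3_ok TD_l3183 _)
              (CovZ.leaf K3_ok TD_l3184 _)))))
          (CovZ.n1 (24096, 29856) (by decide +kernel)
           (CovZ.n2 (24192, 29856) (by decide +kernel)
            (CovZ.n2 (24144, 29808) (by decide +kernel)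
             (CovZ.leaf K3_ok TD_l3185 _)
             (CovZ.leaf K2_ok TD_l3186 _))
            (CovZ.leaf K3_ok TD_l3187 _))
           (CovZ.n1 (24096, 29760) (by decide +kernel)
            (CovZ.n2 (24048, 29808) (by decide +kernel)
             (CovZ.leaf K2_ok TD_l3188 _)
             (CovZ.n1 (24048, 29760) (by decide +kernel)
              (CovZ.leaf K3_ok TD_l3189 _)
              (CovZ.leaf K2_ok TD_l3190 _)))
            (CovZ.n1 (24144, 29808) (by decide +kernel)
             (CovZ.leaf K3_ok TD_l3191 _)
             (CovZ.leaf K3_ok TD_l3192 _))))))))

theorem TD_u163 : CovZ TD_M (toL (selN TD_LN 36767649687590833920511215311423109485778797415342359704781551382276515459293594254241160801069208797446464)) [0, 7, 6, 1] (24192, 29568) (24576, 29184) (24576, 29952) :=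
    (CovZ.n1 (24576, 29568) (by decide +kernel)
       (CovZ.n2 (24384, 29376) (by decide +kernel)
        (CovZ.n2 (24384, 29568) (by decide +kernel)
         (CovZ.n2 (24480, 29472) (by decide +kernel)
          (CovZ.subM 256 (by decide +kernel)
           (CovZ.n2 (24384, 29472) (by decide +kernel)
            (CovZ.n2 (24432, 29520) (by decide +kernel)
             (CovZ.n2 (24432, 29472) (by decide +kernel)
              (CovZ.leaf K3_ok TD_l3193 _)
              (CovZ.leaf K3_ok TD_l3194 _))
             (CovZ.leaf K2_ok TD_l3195 _))
            (CovZ.n1 (24432, 29424) (by decide +kernel)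
             (CovZ.leaf K3_ok TD_l3196 _)
             (CovZ.n1 (24432, 29472) (by decide +kernel)
              (CovZ.leaf K3_ok TD_l3197 _)
              (CovZ.leaf K2_ok TD_l3198 _)))))
          (CovZ.n1 (24480, 29568) (by decide +kernel)
           (CovZ.leaf K3_ok TD_l3199 _)
           (CovZ.n1 (24432, 29520) (by decide +kernel)
            (CovZ.leaf K2_ok TD_l3200 _)
            (CovZ.n1 (24480, 29520) (by decide +kernel)
             (CovZ.leaf K2_ok TD_l3201 _)
             (CovZ.leaf K3_ok TD_l3202 _)))))
         (CovZ.subM 256 (by decide +kernel)
          (CovZ.n1 (24288, 29472) (by decide +kernel)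
           (CovZ.n2 (24288, 29568) (by decide +kernel)
            (CovZ.leaf K3_ok TD_l3203 _)
            (CovZ.n1 (24240, 29520) (by decide +kernel)
             (CovZ.n2 (24240, 29568) (by decide +kernel)
              (CovZ.leaf K2_ok TD_l3204 _)
              (CovZ.leaf K2_ok TD_l3205 _))
             (CovZ.n1 (24288, 29520) (by decide +kernel)
              (CovZ.n2 (24264, 29496) (by decide +kernel)
               (CovZ.leaf K2_ok TD_l3206 _)
               (CovZ.leaf K3_ok TD_l3207 _))
              (CovZ.n1 (24264, 29544) (by decide +kernel)
               (CovZ.leaf K2_ok TD_l3208 _)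
               (CovZ.leaf K3_ok TD_l3209 _)))))
           (CovZ.n1 (24384, 29472) (by decide +kernel)
            (CovZ.n2 (24336, 29424) (by decide +kernel)
             (CovZ.n2 (24336, 29472) (by decide +kernel)
              (CovZ.leaf K2_ok TD_l3210 _)
              (CovZ.badM (by decide +kernel)))
             (CovZ.n1 (24384, 29424) (by decide +kernel)
              (CovZ.badM (by decide +kernel))
              (CovZ.n1 (24360, 29448) (by decide +kernel)
               (CovZ.leaf K3_ok TD_l3215 _)
               (CovZ.badM (by decide +kernel)))))
            (CovZ.n1 (24336, 29520) (by decide +kernel)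
             (CovZ.n2 (24384, 29520) (by decide +kernel)
              (CovZ.leaf K2_ok TD_l3217 _)
              (CovZ.leaf K3_ok TD_l3218 _))
             (CovZ.n1 (24336, 29472) (by decide +kernel)
              (CovZ.n2 (24312, 29496) (by decide +kernel)
               (CovZ.leaf K2_ok TD_l3219 _)
               (CovZ.leaf K3_ok TD_l3220 _))
              (CovZ.leaf K3_ok TD_l3221 _)))))))
        (CovZ.n1 (24576, 29376) (by decide +kernel)
         (CovZ.subM 5316911983139663491903458617273090368 (by decide +kernel)
          (CovZ.n2 (24480, 29280) (by decide +kernel)
           (CovZ.n2 (24480, 29376) (by decide +kernel)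
            (CovZ.n2 (24528, 29328) (by decide +kernel)
             (CovZ.badM (by decide +kernel))
             (CovZ.n1 (24528, 29376) (by decide +kernel)
              (CovZ.leaf K2_ok TD_l3225 _)
              (CovZ.n1 (24504, 29352) (by decide +kernel)
               (CovZ.leaf K2_ok TD_l3226 _)
               (CovZ.leaf K3_ok TD_l3227 _))))
            (CovZ.badM (by decide +kernel)))
           (CovZ.n1 (24576, 29280) (by decide +kernel)
            (CovZ.n2 (24528, 29232) (by decide +kernel)
             (CovZ.n2 (24528, 29280) (by decide +kernel)
              (CovZ.leaf K2_ok TD_l14899 _)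
              (CovZ.badM (by decide +kernel)))
             (CovZ.n1 (24576, 29232) (by decide +kernel)
              (CovZ.badM (by decide +kernel))
              (CovZ.n1 (24552, 29256) (by decide +kernel)
               (CovZ.leaf K2_ok TD_l14900 _)
               (CovZ.badM (by decide +kernel)))))
            (CovZ.n1 (24528, 29328) (by decide +kernel)
             (CovZ.n2 (24576, 29328) (by decide +kernel)
              (CovZ.n2 (24552, 29304) (by decide +kernel)
               (CovZ.leaf K2_ok TD_l3232 _)
               (CovZ.leaf K3_ok TD_l3233 _))
              (CovZ.leaf K2_ok TD_l3234 _))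
             (CovZ.n1 (24528, 29280) (by decide +kernel)
              (CovZ.badM (by decide +kernel))
              (CovZ.n1 (24552, 29304) (by decide +kernel)
               (CovZ.leaf K2_ok TD_l3236 _)
               (CovZ.badM (by decide +kernel))))))))
         (CovZ.n1 (24480, 29472) (by decide +kernel)
          (CovZ.n2 (24576, 29472) (by decide +kernel)
           (CovZ.n2 (24528, 29424) (by decide +kernel)
            (CovZ.leaf K3_ok TD_l3238 _)
            (CovZ.n1 (24576, 29424) (by decide +kernel)
             (CovZ.leaf K3_ok TD_l3239 _)
             (CovZ.leaf K2_ok TD_l3240 _)))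
           (CovZ.n1 (24528, 29520) (by decide +kernel)
            (CovZ.leaf K3_ok TD_l3241 _)
            (CovZ.n1 (24528, 29472) (by decide +kernel)
             (CovZ.leaf K2_ok TD_l3242 _)
             (CovZ.leaf K2_ok TD_l3243 _))))
          (CovZ.subM 5316911983139663491903458685992567104 (by decide +kernel)
           (CovZ.n1 (24480, 29376) (by decide +kernel)
            (CovZ.n2 (24432, 29424) (by decide +kernel)
             (CovZ.n2 (24480, 29424) (by decide +kernel)
              (CovZ.n2 (24456, 29400) (by decide +kernel)
               (CovZ.leaf K3_ok TD_l3244 _)
               (CovZ.leaf K3_ok TD_l3245 _))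
              (CovZ.leaf K3_ok TD_l3246 _))
             (CovZ.badM (by decide +kernel)))
            (CovZ.n1 (24528, 29424) (by decide +kernel)
             (CovZ.n2 (24528, 29376) (by decide +kernel)
              (CovZ.leaf K2_ok TD_l3251 _)
              (CovZ.leaf K3_ok TD_l3252 _))
             (CovZ.leaf K3_ok TD_l3253 _)))))))
       (CovZ.n1 (24384, 29760) (by decide +kernel)
        (CovZ.n2 (24576, 29760) (by decide +kernel)
         (CovZ.n2 (24480, 29664) (by decide +kernel)
          (CovZ.n2 (24480, 29760) (by decide +kernel)
           (CovZ.leaf K3_ok TD_l3254 _)
           (CovZ.n1 (24432, 29712) (by decide +kernel)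
            (CovZ.leaf K3_ok TD_l3255 _)
            (CovZ.leaf K3_ok TD_l3256 _)))
          (CovZ.n1 (24576, 29664) (by decide +kernel)
           (CovZ.n2 (24528, 29616) (by decide +kernel)
            (CovZ.leaf K3_ok TD_l3257 _)
            (CovZ.leaf K2_ok TD_l3258 _))
           (CovZ.leaf K2_ok TD_l3259 _)))
         (CovZ.n1 (24480, 29856) (by decide +kernel)
          (CovZ.n2 (24576, 29856) (by decide +kernel)
           (CovZ.leaf K2_ok TD_l3260 _)
           (CovZ.leaf K2_ok TD_l3261 _))
          (CovZ.n1 (24480, 29760) (by decide +kernel)
           (CovZ.leaf K2_ok TD_l3262 _)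
           (CovZ.leaf K3_ok TD_l3263 _))))
        (CovZ.n1 (24384, 29568) (by decide +kernel)
         (CovZ.subM 36767649687590833920510972477811581269644932482604006764918221081421628624941454638026451390459666898092288 (by decide +kernel)
          (CovZ.n2 (24288, 29664) (by decide +kernel)
           (CovZ.n2 (24384, 29664) (by decide +kernel)
            (CovZ.n2 (24336, 29616) (by decide +kernel)
             (CovZ.leaf K2_ok TD_l3264 _)
             (CovZ.leaf K2_ok TD_l3265 _))
            (CovZ.n1 (24336, 29712) (by decide +kernel)
             (CovZ.leaf K3_ok TD_l3266 _)
             (CovZ.n1 (24336, 29664) (by decide +kernel)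
              (CovZ.leaf K2_ok TD_l3267 _)
              (CovZ.leaf K3_ok TD_l3268 _))))
           (CovZ.n1 (24288, 29568) (by decide +kernel)
            (CovZ.n2 (24240, 29616) (by decide +kernel)
             (CovZ.n2 (24288, 29616) (by decide +kernel)
              (CovZ.leaf K3_ok TD_l3269 _)
              (CovZ.leaf K3_ok TD_l3270 _))
             (CovZ.n1 (24240, 29568) (by decide +kernel)
              (CovZ.leaf K2_ok TD_l3271 _)
              (CovZ.leaf K3_ok TD_l3272 _)))
            (CovZ.n1 (24336, 29616) (by decide +kernel)
             (CovZ.n2 (24336, 29568) (by decide +kernel)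
              (CovZ.leaf K3_ok TD_l3273 _)
              (CovZ.leaf K2_ok TD_l3274 _))
             (CovZ.leaf K2_ok TD_l3275 _)))))
         (CovZ.n1 (24480, 29664) (by decide +kernel)
          (CovZ.n2 (24480, 29568) (by decide +kernel)
           (CovZ.n2 (24432, 29616) (by decide +kernel)
            (CovZ.leaf K2_ok TD_l3276 _)
            (CovZ.n1 (24432, 29568) (by decide +kernel)
             (CovZ.leaf K3_ok TD_l3277 _)
             (CovZ.leaf K3_ok TD_l3278 _)))
           (CovZ.n1 (24528, 29616) (by decide +kernel)
            (CovZ.leaf K2_ok TD_l3279 _)
            (CovZ.leaf K2_ok TD_l3280 _)))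
          (CovZ.n1 (24384, 29664) (by decide +kernel)
           (CovZ.n2 (24432, 29712) (by decide +kernel)
            (CovZ.leaf K2_ok TD_l3281 _)
            (CovZ.leaf K3_ok TD_l3282 _))
           (CovZ.leaf K2_ok TD_l3283 _))))))

theorem TD_u164 : CovZ TD_M (toL (selN TD_LN 36767649687590833920511215311423109485778797415342359704781551382276515459293594254241160801069208797446464)) [0, 7, 6, 1] (24576, 30720) (23808, 29952) (24576, 29184) :=
    (CovZ.n2 (24576, 29952) (by decide +kernel)
     (CovZ.n2 (24192, 29568) (by decide +kernel)
      TD_u162
      TD_u163)
     (CovZ.n1 (24192, 30336) (by decide +kernel)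
      (CovZ.n2 (24576, 30336) (by decide +kernel)
       (CovZ.n2 (24384, 30144) (by decide +kernel)
        (CovZ.n2 (24384, 30336) (by decide +kernel)
         (CovZ.leaf K2_ok TD_l3284 _)
         (CovZ.n1 (24288, 30240) (by decide +kernel)
          (CovZ.leaf K2_ok TD_l3285 _)
          (CovZ.leaf K2_ok TD_l3286 _)))
        (CovZ.n1 (24576, 30144) (by decide +kernel)
         (CovZ.n2 (24480, 30048) (by decide +kernel)
          (CovZ.leaf K2_ok TD_l3287 _)
          (CovZ.leaf K3_ok TD_l3288 _))
         (CovZ.n1 (24480, 30240) (by decide +kernel)
          (CovZ.leaf K3_ok TD_l3289 _)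
          (CovZ.leaf K3_ok TD_l3290 _))))
       (CovZ.n1 (24384, 30528) (by decide +kernel)
        (CovZ.n2 (24576, 30528) (by decide +kernel)
         (CovZ.leaf K2_ok TD_l3291 _)
         (CovZ.leaf K2_ok TD_l3292 _))
        (CovZ.n1 (24384, 30336) (by decide +kernel)
         (CovZ.leaf K3_ok TD_l3293 _)
         (CovZ.leaf K2_ok TD_l3294 _))))
      (CovZ.n1 (24192, 29952) (by decide +kernel)
       (CovZ.subM 36767649687590833920510972477811581269644932482604006764918221081421628624941454638026451390459666898092288 (by decide +kernel)
        (CovZ.n2 (24000, 30144) (by decide +kernel)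
         (CovZ.n2 (24192, 30144) (by decide +kernel)
          (CovZ.n2 (24096, 30048) (by decide +kernel)
           (CovZ.leaf K2_ok TD_l3295 _)
           (CovZ.n1 (24192, 30048) (by decide +kernel)
            (CovZ.leaf K2_ok TD_l3296 _)
            (CovZ.leaf K2_ok TD_l3297 _)))
          (CovZ.n1 (24096, 30240) (by decide +kernel)
           (CovZ.leaf K2_ok TD_l3298 _)
           (CovZ.n1 (24096, 30144) (by decide +kernel)
            (CovZ.leaf K2_ok TD_l3299 _)
            (CovZ.leaf K2_ok TD_l3300 _))))
         (CovZ.n1 (24000, 29952) (by decide +kernel)
          (CovZ.n2 (23904, 30048) (by decide +kernel)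
           (CovZ.n2 (24000, 30048) (by decide +kernel)
            (CovZ.n2 (23952, 30000) (by decide +kernel)
             (CovZ.leaf K2_ok TD_l3301 _)
             (CovZ.leaf K2_ok TD_l3302 _))
            (CovZ.leaf K2_ok TD_l3303 _))
           (CovZ.n1 (23904, 29952) (by decide +kernel)
            (CovZ.n2 (23856, 30000) (by decide +kernel)
             (CovZ.leaf K3_ok TD_l3304 _)
             (CovZ.leaf K3_ok TD_l3305 _))
            (CovZ.leaf K2_ok TD_l3306 _)))
          (CovZ.n1 (24096, 30048) (by decide +kernel)
           (CovZ.n2 (24096, 29952) (by decide +kernel)
            (CovZ.leaf K2_ok TD_l3307 _)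
            (CovZ.leaf K2_ok TD_l3308 _))
           (CovZ.leaf K2_ok TD_l3309 _)))))
       (CovZ.n1 (24384, 30144) (by decide +kernel)
        (CovZ.n2 (24384, 29952) (by decide +kernel)
         (CovZ.n2 (24288, 30048) (by decide +kernel)
          (CovZ.leaf K2_ok TD_l3310 _)
          (CovZ.n1 (24288, 29952) (by decide +kernel)
           (CovZ.leaf K2_ok TD_l3311 _)
           (CovZ.leaf K2_ok TD_l3312 _)))
         (CovZ.n1 (24480, 30048) (by decide +kernel)
          (CovZ.n2 (24480, 29952) (by decide +kernel)
           (CovZ.leaf K3_ok TD_l3313 _)
           (CovZ.leaf K2_ok TD_l3314 _))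
          (CovZ.leaf K2_ok TD_l3315 _)))
        (CovZ.n1 (24192, 30144) (by decide +kernel)
         (CovZ.n2 (24288, 30240) (by decide +kernel)
          (CovZ.leaf K2_ok TD_l3316 _)
          (CovZ.leaf K2_ok TD_l3317 _))
         (CovZ.leaf K2_ok TD_l3318 _))))))

theorem TD_u165 : CovZ TD_M (toL (selN TD_LN 36767649687590833920511215311423109485778797415342359704781551382276515459293594254241160801069208797446464)) [0, 7, 6, 1] (23808, 29952) (23040, 29184) (24576, 29184) :=
    (CovZ.subM 36695977855841144185773134324833391052745039826692497979801421430190771334327740068783788753220628257964352 (by decide +kernel)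
     (CovZ.n1 (23808, 29184) (by decide +kernel)
      (CovZ.n2 (23424, 29568) (by decide +kernel)
       (CovZ.n2 (23808, 29568) (by decide +kernel)
        (CovZ.badM (by decide +kernel))
        (CovZ.n1 (23616, 29760) (by decide +kernel)
         (CovZ.n2 (23808, 29760) (by decide +kernel)
          (CovZ.n2 (23712, 29664) (by decide +kernel)
           (CovZ.n2 (23712, 29760) (by decide +kernel)
            (CovZ.n2 (23760, 29712) (by decide +kernel)
             (CovZ.badM (by decide +kernel))
             (CovZ.n1 (23760, 29760) (by decide +kernel)
              (CovZ.leaf K2_ok TD_l14901 _)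
              (CovZ.badM (by decide +kernel))))
            (CovZ.badM (by decide +kernel)))
           (CovZ.n1 (23808, 29664) (by decide +kernel)
            (CovZ.badM (by decide +kernel))
            (CovZ.n1 (23760, 29712) (by decide +kernel)
             (CovZ.n2 (23808, 29712) (by decide +kernel)
              (CovZ.badM (by decide +kernel))
              (CovZ.n1 (23784, 29736) (by decide +kernel)
               (CovZ.leaf K2_ok TD_l14902 _)
               (CovZ.badM (by decide +kernel))))
             (CovZ.badM (by decide +kernel)))))
          (CovZ.n1 (23712, 29856) (by decide +kernel)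
           (CovZ.n2 (23808, 29856) (by decide +kernel)
            (CovZ.n2 (23760, 29808) (by decide +kernel)
             (CovZ.n2 (23760, 29856) (by decide +kernel)
              (CovZ.leaf K2_ok TD_l3319 _)
              (CovZ.badM (by decide +kernel)))
             (CovZ.n1 (23808, 29808) (by decide +kernel)
              (CovZ.n2 (23784, 29784) (by decide +kernel)
               (CovZ.leaf K3_ok TD_l3322 _)
               (CovZ.leaf K2_ok TD_l3323 _))
              (CovZ.leaf K2_ok TD_l3324 _)))
            (CovZ.n1 (23760, 29904) (by decide +kernel)
             (CovZ.n2 (23808, 29904) (by decide +kernel)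
              (CovZ.leaf K3_ok TD_l3325 _)
              (CovZ.leaf K2_ok TD_l3326 _))
             (CovZ.n1 (23760, 29856) (by decide +kernel)
              (CovZ.badM (by decide +kernel))
              (CovZ.leaf K2_ok TD_l3328 _))))
           (CovZ.n1 (23712, 29760) (by decide +kernel)
            (CovZ.badM (by decide +kernel))
            (CovZ.n1 (23760, 29808) (by decide +kernel)
             (CovZ.n2 (23760, 29760) (by decide +kernel)
              (CovZ.badM (by decide +kernel))
              (CovZ.n1 (23784, 29784) (by decide +kernel)
               (CovZ.leaf K2_ok TD_l14903 _)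
               (CovZ.badM (by decide +kernel))))
             (CovZ.badM (by decide +kernel))))))
         (CovZ.n1 (23616, 29568) (by decide +kernel)
          (CovZ.badM (by decide +kernel))
          (CovZ.n1 (23712, 29664) (by decide +kernel)
           (CovZ.badM (by decide +kernel))
           (CovZ.badM (by decide +kernel))))))
       (CovZ.badM (by decide +kernel)))
      (CovZ.n1 (24192, 29568) (by decide +kernel)
       (CovZ.n2 (24192, 29184) (by decide +kernel)
        (CovZ.n2 (24000, 29376) (by decide +kernel)
         (CovZ.n2 (24192, 29376) (by decide +kernel)
          (CovZ.badM (by decide +kernel))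
          (CovZ.n1 (24096, 29472) (by decide +kernel)
           (CovZ.n2 (24192, 29472) (by decide +kernel)
            (CovZ.badM (by decide +kernel))
            (CovZ.n1 (24144, 29520) (by decide +kernel)
             (CovZ.n2 (24192, 29520) (by decide +kernel)
              (CovZ.badM (by decide +kernel))
              (CovZ.n1 (24168, 29544) (by decide +kernel)
               (CovZ.leaf K3_ok TD_l3337 _)
               (CovZ.badM (by decide +kernel))))
             (CovZ.badM (by decide +kernel))))
           (CovZ.badM (by decide +kernel))))
         (CovZ.badM (by decide +kernel)))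
        (CovZ.n1 (24384, 29376) (by decide +kernel)
         (CovZ.n2 (24384, 29184) (by decide +kernel)
          (CovZ.badM (by decide +kernel))
          (CovZ.n1 (24480, 29280) (by decide +kernel)
           (CovZ.n2 (24480, 29184) (by decide +kernel)
            (CovZ.badM (by decide +kernel))
            (CovZ.n1 (24528, 29232) (by decide +kernel)
             (CovZ.badM (by decide +kernel))
             (CovZ.badM (by decide +kernel))))
           (CovZ.badM (by decide +kernel))))
         (CovZ.n1 (24192, 29376) (by decide +kernel)
          (CovZ.n2 (24288, 29472) (by decide +kernel)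
           (CovZ.badM (by decide +kernel))
           (CovZ.n1 (24192, 29472) (by decide +kernel)
            (CovZ.n2 (24240, 29520) (by decide +kernel)
             (CovZ.badM (by decide +kernel))
             (CovZ.leaf K2_ok TD_l3348 _))
            (CovZ.badM (by decide +kernel))))
          (CovZ.badM (by decide +kernel)))))
       (CovZ.n1 (23808, 29568) (by decide +kernel)
        (CovZ.n2 (24000, 29760) (by decide +kernel)
         (CovZ.n2 (24000, 29568) (by decide +kernel)
          (CovZ.n2 (23904, 29664) (by decide +kernel)
           (CovZ.n2 (24000, 29664) (by decide +kernel)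
            (CovZ.n2 (23952, 29616) (by decide +kernel)
             (CovZ.n2 (23952, 29664) (by decide +kernel)
              (CovZ.leaf K3_ok TD_l3350 _)
              (CovZ.badM (by decide +kernel)))
             (CovZ.n1 (24000, 29616) (by decide +kernel)
              (CovZ.badM (by decide +kernel))
              (CovZ.n1 (23976, 29640) (by decide +kernel)
               (CovZ.leaf K2_ok TD_l3351 _)
               (CovZ.badM (by decide +kernel)))))
            (CovZ.n1 (23952, 29712) (by decide +kernel)
             (CovZ.n2 (24000, 29712) (by decide +kernel)
              (CovZ.n2 (23976, 29688) (by decide +kernel)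
               (CovZ.leaf K2_ok TD_l3352 _)
               (CovZ.leaf K2_ok TD_l3353 _))
              (CovZ.leaf K2_ok TD_l3354 _))
             (CovZ.n1 (23952, 29664) (by decide +kernel)
              (CovZ.n2 (23928, 29688) (by decide +kernel)
               (CovZ.leaf K3_ok TD_l3355 _)
               (CovZ.badM (by decide +kernel)))
              (CovZ.n1 (23976, 29688) (by decide +kernel)
               (CovZ.leaf K3_ok TD_l3356 _)
               (CovZ.leaf K2_ok TD_l3357 _)))))
           (CovZ.badM (by decide +kernel)))
          (CovZ.n1 (24096, 29664) (by decide +kernel)
           (CovZ.n2 (24096, 29568) (by decide +kernel)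
            (CovZ.n2 (24048, 29616) (by decide +kernel)
             (CovZ.n2 (24096, 29616) (by decide +kernel)
              (CovZ.n2 (24072, 29592) (by decide +kernel)
               (CovZ.leaf K2_ok TD_l3358 _)
               (CovZ.leaf K2_ok TD_l3359 _))
              (CovZ.n1 (24072, 29640) (by decide +kernel)
               (CovZ.leaf K2_ok TD_l3360 _)
               (CovZ.leaf K2_ok TD_l3361 _)))
             (CovZ.badM (by decide +kernel)))
            (CovZ.n1 (24144, 29616) (by decide +kernel)
             (CovZ.n2 (24144, 29568) (by decide +kernel)
              (CovZ.n2 (24120, 29592) (by decide +kernel)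
               (CovZ.leaf K3_ok TD_l3364 _)
               (CovZ.leaf K3_ok TD_l3365 _))
              (CovZ.leaf K3_ok TD_l3366 _))
             (CovZ.leaf K2_ok TD_l3367 _)))
           (CovZ.n1 (24000, 29664) (by decide +kernel)
            (CovZ.n2 (24048, 29712) (by decide +kernel)
             (CovZ.n2 (24048, 29664) (by decide +kernel)
              (CovZ.leaf K2_ok TD_l3368 _)
              (CovZ.leaf K2_ok TD_l3369 _))
             (CovZ.leaf K2_ok TD_l3370 _))
            (CovZ.n1 (24048, 29616) (by decide +kernel)
             (CovZ.n2 (24000, 29616) (by decide +kernel)
              (CovZ.n2 (24024, 29640) (by decide +kernel)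
               (CovZ.badM (by decide +kernel))
               (CovZ.leaf K3_ok TD_l3372 _))
              (CovZ.badM (by decide +kernel)))
             (CovZ.n1 (24048, 29664) (by decide +kernel)
              (CovZ.leaf K2_ok TD_l3374 _)
              (CovZ.n1 (24024, 29640) (by decide +kernel)
               (CovZ.leaf K2_ok TD_l3375 _)
               (CovZ.leaf K3_ok TD_l3376 _)))))))
         (CovZ.n1 (23808, 29760) (by decide +kernel)
          (CovZ.n2 (23904, 29856) (by decide +kernel)
           (CovZ.n2 (23904, 29760) (by decide +kernel)
            (CovZ.n2 (23856, 29808) (by decide +kernel)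
             (CovZ.n2 (23904, 29808) (by decide +kernel)
              (CovZ.leaf K2_ok TD_l3377 _)
              (CovZ.leaf K2_ok TD_l3378 _))
             (CovZ.n1 (23856, 29760) (by decide +kernel)
              (CovZ.n2 (23832, 29784) (by decide +kernel)
               (CovZ.leaf K2_ok TD_l3379 _)
               (CovZ.leaf K3_ok TD_l3380 _))
              (CovZ.leaf K2_ok TD_l3381 _)))
            (CovZ.n1 (23952, 29808) (by decide +kernel)
             (CovZ.n2 (23952, 29760) (by decide +kernel)
              (CovZ.leaf K3_ok TD_l3382 _)
              (CovZ.leaf K3_ok TD_l3383 _))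
             (CovZ.leaf K3_ok TD_l3384 _)))
           (CovZ.n1 (23808, 29856) (by decide +kernel)
            (CovZ.n2 (23856, 29904) (by decide +kernel)
             (CovZ.n2 (23856, 29856) (by decide +kernel)
              (CovZ.leaf K3_ok TD_l3385 _)
              (CovZ.leaf K2_ok TD_l3386 _))
             (CovZ.leaf K2_ok TD_l3387 _))
            (CovZ.leaf K2_ok TD_l3388 _)))
          (CovZ.n1 (23904, 29664) (by decide +kernel)
           (CovZ.n2 (23808, 29664) (by decide +kernel)
            (CovZ.n2 (23856, 29712) (by decide +kernel)
             (CovZ.badM (by decide +kernel))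
             (CovZ.n1 (23808, 29712) (by decide +kernel)
              (CovZ.n2 (23832, 29736) (by decide +kernel)
               (CovZ.badM (by decide +kernel))
               (CovZ.leaf K2_ok TD_l14904 _))
              (CovZ.badM (by decide +kernel))))
            (CovZ.badM (by decide +kernel)))
           (CovZ.n1 (23904, 29760) (by decide +kernel)
            (CovZ.n2 (23952, 29712) (by decide +kernel)
             (CovZ.leaf K2_ok TD_l3389 _)
             (CovZ.n1 (23952, 29760) (by decide +kernel)
              (CovZ.leaf K2_ok TD_l3390 _)
              (CovZ.n1 (23928, 29736) (by decide +kernel)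
               (CovZ.leaf K2_ok TD_l3391 _)
               (CovZ.leaf K2_ok TD_l3392 _))))
            (CovZ.n1 (23856, 29712) (by decide +kernel)
             (CovZ.n2 (23856, 29760) (by decide +kernel)
              (CovZ.leaf K2_ok TD_l3393 _)
              (CovZ.n1 (23832, 29736) (by decide +kernel)
               (CovZ.leaf K3_ok TD_l3394 _)
               (CovZ.leaf K3_ok TD_l3395 _)))
             (CovZ.n1 (23904, 29712) (by decide +kernel)
              (CovZ.n2 (23880, 29688) (by decide +kernel)
               (CovZ.leaf K3_ok TD_l14905 _)
               (CovZ.leaf K2_ok TD_l14906 _))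
              (CovZ.n1 (23880, 29736) (by decide +kernel)
               (CovZ.leaf K2_ok TD_l3396 _)
               (CovZ.leaf K2_ok TD_l3397 _))))))))
        (CovZ.n1 (24000, 29376) (by decide +kernel)
         (CovZ.badM (by decide +kernel))
         (CovZ.n1 (24000, 29568) (by decide +kernel)
          (CovZ.n2 (24096, 29472) (by decide +kernel)
           (CovZ.badM (by decide +kernel))
           (CovZ.n1 (24096, 29568) (by decide +kernel)
            (CovZ.n2 (24144, 29520) (by decide +kernel)
             (CovZ.badM (by decide +kernel))
             (CovZ.n1 (24144, 29568) (by decide +kernel)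
              (CovZ.leaf K2_ok TD_l3398 _)
              (CovZ.badM (by decide +kernel))))
            (CovZ.badM (by decide +kernel))))
          (CovZ.badM (by decide +kernel))))))))

theorem TD_u166 : CovZ TD_M (toL (selN TD_LN 36767649688125107716384224322129600954628945258209827286491423250072259071581792778025378498881728141328720)) [0, 7, 6, 1] (24576, 29184) (25344, 29184) (25344, 29952) :=
    (CovZ.subM 36767649687591094661116186125642151846826920397765203577560109241993497297394966883501345798602321203298624 (by decide +kernel)
      (CovZ.n2 (24960, 29568) (by decide +kernel)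
       (CovZ.n2 (25344, 29568) (by decide +kernel)
        (CovZ.n2 (25152, 29376) (by decide +kernel)
         (CovZ.n2 (25152, 29568) (by decide +kernel)
          (CovZ.leaf K2_ok TD_l5951 _)
          (CovZ.n1 (25056, 29472) (by decide +kernel)
           (CovZ.leaf K2_ok TD_l5952 _)
           (CovZ.n1 (25152, 29472) (by decide +kernel)
            (CovZ.leaf K3_ok TD_l5953 _)
            (CovZ.leaf K3_ok TD_l5954 _))))
         (CovZ.n1 (25344, 29376) (by decide +kernel)
          (CovZ.n2 (25248, 29280) (by decide +kernel)
           (CovZ.n2 (25248, 29376) (by decide +kernel)
            (CovZ.leaf K2_ok TD_l5955 _)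
            (CovZ.leaf K2_ok TD_l5956 _))
           (CovZ.n1 (25344, 29280) (by decide +kernel)
            (CovZ.leaf K2_ok TD_l5957 _)
            (CovZ.leaf K3_ok TD_l5958 _)))
          (CovZ.n1 (25248, 29472) (by decide +kernel)
           (CovZ.leaf K2_ok TD_l5959 _)
           (CovZ.n1 (25248, 29376) (by decide +kernel)
            (CovZ.leaf K2_ok TD_l5960 _)
            (CovZ.leaf K3_ok TD_l5961 _)))))
        (CovZ.n1 (25152, 29760) (by decide +kernel)
         (CovZ.n2 (25344, 29760) (by decide +kernel)
          (CovZ.n2 (25248, 29664) (by decide +kernel)
           (CovZ.leaf K2_ok TD_l5962 _)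
           (CovZ.leaf K3_ok TD_l5963 _))
          (CovZ.n1 (25248, 29856) (by decide +kernel)
           (CovZ.leaf K3_ok TD_l5964 _)
           (CovZ.leaf K3_ok TD_l5965 _)))
         (CovZ.n1 (25152, 29568) (by decide +kernel)
          (CovZ.n2 (25056, 29664) (by decide +kernel)
           (CovZ.leaf K2_ok TD_l5966 _)
           (CovZ.n1 (25056, 29568) (by decide +kernel)
            (CovZ.leaf K3_ok TD_l5967 _)
            (CovZ.leaf K2_ok TD_l5968 _)))
          (CovZ.n1 (25248, 29664) (by decide +kernel)
           (CovZ.n2 (25248, 29568) (by decide +kernel)
            (CovZ.leaf K2_ok TD_l5969 _)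
            (CovZ.leaf K2_ok TD_l5970 _))
           (CovZ.leaf K3_ok TD_l5971 _)))))
       (CovZ.n1 (24960, 29184) (by decide +kernel)
        (CovZ.subM 71671831749689734738080986589718433033757588649861724980129952085749441877837325120863807192009736716608 (by decide +kernel)
         (CovZ.n2 (24768, 29376) (by decide +kernel)
          (CovZ.n2 (24960, 29376) (by decide +kernel)
           (CovZ.n2 (24864, 29280) (by decide +kernel)
            (CovZ.n2 (24864, 29376) (by decide +kernel)
             (CovZ.leaf K2_ok TD_l5972 _)
             (CovZ.n1 (24816, 29328) (by decide +kernel)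
              (CovZ.leaf K2_ok TD_l5973 _)
              (CovZ.leaf K2_ok TD_l5974 _)))
            (CovZ.n1 (24960, 29280) (by decide +kernel)
             (CovZ.n2 (24912, 29232) (by decide +kernel)
              (CovZ.leaf K2_ok TD_l5975 _)
              (CovZ.n1 (24960, 29232) (by decide +kernel)
               (CovZ.leaf K3_ok TD_l5976 _)
               (CovZ.leaf K2_ok TD_l5977 _)))
             (CovZ.n1 (24912, 29328) (by decide +kernel)
              (CovZ.leaf K2_ok TD_l5978 _)
              (CovZ.leaf K2_ok TD_l5979 _))))
           (CovZ.n1 (24864, 29472) (by decide +kernel)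
            (CovZ.n2 (24960, 29472) (by decide +kernel)
             (CovZ.leaf K3_ok TD_l5980 _)
             (CovZ.leaf K2_ok TD_l5981 _))
            (CovZ.n1 (24864, 29376) (by decide +kernel)
             (CovZ.n2 (24816, 29424) (by decide +kernel)
              (CovZ.leaf K2_ok TD_l5982 _)
              (CovZ.leaf K2_ok TD_l5983 _))
             (CovZ.n1 (24912, 29424) (by decide +kernel)
              (CovZ.leaf K3_ok TD_l5984 _)
              (CovZ.leaf K3_ok TD_l5985 _)))))
          (CovZ.n1 (24768, 29184) (by decide +kernel)
           (CovZ.n2 (24672, 29280) (by decide +kernel)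
            (CovZ.n2 (24768, 29280) (by decide +kernel)
             (CovZ.subM 5316911983139663491903458685992567104 (by decide +kernel)
              (CovZ.n2 (24720, 29232) (by decide +kernel)
               (CovZ.n2 (24720, 29280) (by decide +kernel)
                (CovZ.leaf K2_ok TD_l5986 _)
                (CovZ.leaf K2_ok TD_l5987 _))
               (CovZ.n1 (24768, 29232) (by decide +kernel)
                (CovZ.n2 (24744, 29208) (by decide +kernel)
                 (CovZ.leaf K3_ok TD_l5988 _)
                 (CovZ.leaf K2_ok TD_l5989 _))
                (CovZ.leaf K2_ok TD_l5990 _))))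
             (CovZ.n1 (24720, 29328) (by decide +kernel)
              (CovZ.n2 (24768, 29328) (by decide +kernel)
               (CovZ.leaf K2_ok TD_l5991 _)
               (CovZ.leaf K2_ok TD_l5992 _))
              (CovZ.n1 (24720, 29280) (by decide +kernel)
               (CovZ.leaf K3_ok TD_l5993 _)
               (CovZ.leaf K3_ok TD_l5994 _))))
            (CovZ.subM 5316911983139663491903458617273090112 (by decide +kernel)
             (CovZ.n1 (24672, 29184) (by decide +kernel)
              (CovZ.n2 (24624, 29232) (by decide +kernel)
               (CovZ.n2 (24672, 29232) (by decide +kernel)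
                (CovZ.n2 (24648, 29208) (by decide +kernel)
                 (CovZ.leaf K3_ok TD_l5995 _)
                 (CovZ.leaf K2_ok TD_l5996 _))
                (CovZ.n1 (24648, 29256) (by decide +kernel)
                 (CovZ.leaf K3_ok TD_l5997 _)
                 (CovZ.leaf K2_ok TD_l5998 _)))
               (CovZ.n1 (24624, 29184) (by decide +kernel)
                (CovZ.n2 (24600, 29208) (by decide +kernel)
                 (CovZ.leaf K2_ok TD_l15714 _)
                 (CovZ.badM (by decide +kernel)))
                (CovZ.n1 (24648, 29208) (by decide +kernel)
                 (CovZ.n2 (24648, 29184) (by decide +kernel)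
                  (CovZ.leaf K3_ok TD_l15715 _)
                  (CovZ.leaf K3_ok TD_l15716 _))
                 (CovZ.leaf K2_ok TD_l15717 _))))
              (CovZ.n1 (24720, 29232) (by decide +kernel)
               (CovZ.n2 (24720, 29184) (by decide +kernel)
                (CovZ.n2 (24696, 29208) (by decide +kernel)
                 (CovZ.leaf K2_ok TD_l5999 _)
                 (CovZ.leaf K2_ok TD_l6000 _))
                (CovZ.n1 (24744, 29208) (by decide +kernel)
                 (CovZ.leaf K2_ok TD_l6001 _)
                 (CovZ.leaf K2_ok TD_l6002 _)))
               (CovZ.n1 (24672, 29232) (by decide +kernel)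
                (CovZ.leaf K3_ok TD_l6003 _)
                (CovZ.leaf K3_ok TD_l6004 _))))))
           (CovZ.n1 (24864, 29280) (by decide +kernel)
            (CovZ.n2 (24864, 29184) (by decide +kernel)
             (CovZ.n2 (24816, 29232) (by decide +kernel)
              (CovZ.n2 (24864, 29232) (by decide +kernel)
               (CovZ.leaf K2_ok TD_l6005 _)
               (CovZ.leaf K2_ok TD_l6006 _))
              (CovZ.n1 (24816, 29184) (by decide +kernel)
               (CovZ.leaf K3_ok TD_l6007 _)
               (CovZ.leaf K2_ok TD_l6008 _)))
             (CovZ.n1 (24912, 29232) (by decide +kernel)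
              (CovZ.n2 (24912, 29184) (by decide +kernel)
               (CovZ.leaf K3_ok TD_l6009 _)
               (CovZ.leaf K3_ok TD_l6010 _))
              (CovZ.leaf K3_ok TD_l6011 _)))
            (CovZ.n1 (24768, 29280) (by decide +kernel)
             (CovZ.n2 (24816, 29328) (by decide +kernel)
              (CovZ.n2 (24816, 29280) (by decide +kernel)
               (CovZ.leaf K2_ok TD_l6012 _)
               (CovZ.leaf K2_ok TD_l6013 _))
              (CovZ.leaf K2_ok TD_l6014 _))
             (CovZ.leaf K3_ok TD_l6015 _))))))
        (CovZ.n1 (25152, 29376) (by decide +kernel)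
         (CovZ.n2 (25152, 29184) (by decide +kernel)
          (CovZ.subM 71671831749689734738080986589718433033757588649861724980129952085749441877837325120863807192009736716608 (by decide +kernel)
           (CovZ.n2 (25056, 29280) (by decide +kernel)
            (CovZ.n2 (25152, 29280) (by decide +kernel)
             (CovZ.n2 (25104, 29232) (by decide +kernel)
              (CovZ.leaf K2_ok TD_l6016 _)
              (CovZ.leaf K2_ok TD_l6017 _))
             (CovZ.leaf K2_ok TD_l6018 _))
            (CovZ.n1 (25056, 29184) (by decide +kernel)
             (CovZ.n2 (25008, 29232) (by decide +kernel)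
              (CovZ.leaf K3_ok TD_l6019 _)
              (CovZ.n1 (25008, 29184) (by decide +kernel)
               (CovZ.leaf K3_ok TD_l6020 _)
               (CovZ.leaf K2_ok TD_l6021 _)))
             (CovZ.n1 (25104, 29232) (by decide +kernel)
              (CovZ.leaf K2_ok TD_l6022 _)
              (CovZ.leaf K2_ok TD_l6023 _)))))
          (CovZ.n1 (25248, 29280) (by decide +kernel)
           (CovZ.n2 (25248, 29184) (by decide +kernel)
            (CovZ.leaf K2_ok TD_l6024 _)
            (CovZ.leaf K2_ok TD_l6025 _))
           (CovZ.leaf K2_ok TD_l6026 _)))
         (CovZ.subM 71671831749689734738080986589718433033757588649861724980129952085749441877837325120863807192009736716608 (by decide +kernel)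
          (CovZ.n1 (24960, 29376) (by decide +kernel)
           (CovZ.n2 (25056, 29472) (by decide +kernel)
            (CovZ.n2 (25056, 29376) (by decide +kernel)
             (CovZ.leaf K2_ok TD_l6027 _)
             (CovZ.leaf K2_ok TD_l6028 _))
            (CovZ.leaf K2_ok TD_l6029 _))
           (CovZ.n1 (25056, 29280) (by decide +kernel)
            (CovZ.n2 (24960, 29280) (by decide +kernel)
             (CovZ.n2 (25008, 29328) (by decide +kernel)
              (CovZ.leaf K3_ok TD_l6030 _)
              (CovZ.leaf K3_ok TD_l6031 _))
             (CovZ.leaf K3_ok TD_l6032 _))
            (CovZ.n1 (25056, 29376) (by decide +kernel)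
             (CovZ.leaf K2_ok TD_l6033 _)
             (CovZ.n1 (25008, 29328) (by decide +kernel)
              (CovZ.leaf K2_ok TD_l6034 _)
              (CovZ.leaf K2_ok TD_l6035 _))))))))))

theorem TD_u167 : CovZ TD_M (toL (selN TD_LN 36767649688125107716384224322129600954628945258209827286491423250072259071581792778025378498881728141328720)) [0, 7, 6, 1] (25344, 29184) (26112, 29184) (25344, 29952) :=
    (CovZ.n1 (25728, 29568) (by decide +kernel)
      (CovZ.n2 (25728, 29184) (by decide +kernel)
       (CovZ.n2 (25536, 29376) (by decide +kernel)
        (CovZ.n2 (25728, 29376) (by decide +kernel)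
         (CovZ.n2 (25632, 29280) (by decide +kernel)
          (CovZ.leaf K2_ok TD_l6036 _)
          (CovZ.leaf K3_ok TD_l6037 _))
         (CovZ.n1 (25632, 29472) (by decide +kernel)
          (CovZ.leaf K2_ok TD_l6038 _)
          (CovZ.n1 (25632, 29376) (by decide +kernel)
           (CovZ.leaf K3_ok TD_l6039 _)
           (CovZ.leaf K2_ok TD_l6040 _))))
        (CovZ.n1 (25536, 29184) (by decide +kernel)
         (CovZ.subM 71671831749950475343051800808760794081880571072705597758687811802731279979209954381048948840310218424640 (by decide +kernel)
          (CovZ.n2 (25440, 29280) (by decide +kernel)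
           (CovZ.n2 (25536, 29280) (by decide +kernel)
            (CovZ.leaf K2_ok TD_l6041 _)
            (CovZ.leaf K3_ok TD_l6042 _))
           (CovZ.n1 (25440, 29184) (by decide +kernel)
            (CovZ.leaf K2_ok TD_l6043 _)
            (CovZ.leaf K2_ok TD_l6044 _))))
         (CovZ.n1 (25632, 29280) (by decide +kernel)
          (CovZ.n2 (25632, 29184) (by decide +kernel)
           (CovZ.leaf K3_ok TD_l6045 _)
           (CovZ.leaf K3_ok TD_l6046 _))
          (CovZ.leaf K2_ok TD_l6047 _))))
       (CovZ.n1 (25920, 29376) (by decide +kernel)
        (CovZ.n2 (25920, 29184) (by decide +kernel)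
         (CovZ.n2 (25824, 29280) (by decide +kernel)
          (CovZ.leaf K3_ok TD_l6048 _)
          (CovZ.n1 (25824, 29184) (by decide +kernel)
           (CovZ.leaf K2_ok TD_l6049 _)
           (CovZ.leaf K3_ok TD_l6050 _)))
         (CovZ.n1 (26016, 29280) (by decide +kernel)
          (CovZ.leaf K3_ok TD_l6051 _)
          (CovZ.leaf K3_ok TD_l6052 _)))
        (CovZ.n1 (25728, 29376) (by decide +kernel)
         (CovZ.n2 (25824, 29472) (by decide +kernel)
          (CovZ.leaf K2_ok TD_l6053 _)
          (CovZ.leaf K2_ok TD_l6054 _))
         (CovZ.leaf K2_ok TD_l6055 _))))
      (CovZ.n1 (25344, 29568) (by decide +kernel)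
       (CovZ.n2 (25536, 29760) (by decide +kernel)
        (CovZ.n2 (25536, 29568) (by decide +kernel)
         (CovZ.n2 (25440, 29664) (by decide +kernel)
          (CovZ.leaf K3_ok TD_l6056 _)
          (CovZ.leaf K3_ok TD_l6057 _))
         (CovZ.n1 (25632, 29664) (by decide +kernel)
          (CovZ.leaf K2_ok TD_l6058 _)
          (CovZ.leaf K2_ok TD_l6059 _)))
        (CovZ.leaf K3_ok TD_l6060 _))
       (CovZ.n1 (25536, 29376) (by decide +kernel)
        (CovZ.subM 71671831749950475343051800808760794081880571072705597758687811802731279979209954381048948840310218424640 (by decide +kernel)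
         (CovZ.n2 (25344, 29376) (by decide +kernel)
          (CovZ.n2 (25440, 29472) (by decide +kernel)
           (CovZ.n2 (25440, 29376) (by decide +kernel)
            (CovZ.leaf K2_ok TD_l6061 _)
            (CovZ.leaf K2_ok TD_l6062 _))
           (CovZ.leaf K2_ok TD_l6063 _))
          (CovZ.leaf K3_ok TD_l6064 _)))
        (CovZ.n1 (25536, 29568) (by decide +kernel)
         (CovZ.leaf K3_ok TD_l6065 _)
         (CovZ.n1 (25440, 29472) (by decide +kernel)
          (CovZ.leaf K3_ok TD_l6066 _)
          (CovZ.leaf K3_ok TD_l6067 _))))))

end Pool.Agent.TET
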