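import Pool.Agent.Helper38_TET.TD_M
import Pool.Agent.Helper38_TET.TD_L
import Pool.Agent.Helper38_TET.TD_24
import Pool.Agent.Helper38_TET.TD_25
import Pool.Agent.Helper38_TET.TD_41
import Pool.Agent.Helper38_TET.TD_42
import Pool.Agent.Helper38_TET.TD_53
import Pool.Agent.Helper38_TET.TD_54
import Pool.Agent.Helper38_TET.TD_55
import Pool.Agent.Helper38_TET.TD_100
import Pool.Agent.Helper38_TET.TD_105
import Pool.Agent.Helper38_TET.TD_106
import Pool.Agent.Helper38_TET.TD_116
import Pool.Agent.Helper38_TET.TD_123
import Pool.Agent.Helper38_TET.TD_124
import Pool.Agent.Helper38_TET.TD_127

/-!
# MP_c7c9bf_co: certificates, family TD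
-/

set_option autoImplicit false
set_option maxRecDepth 100000

namespace Pool.Agent.TET

theorem TD_u168 : CovZ TD_M (toL (selN TD_LN 36768769559962183563221464846782436068965974638495591617503390616667078781206701695520220946914236075868480)) [0, 7, 6, 1] (23808, 31488) (24192, 31872) (23808, 32256) :=
    (CovZ.subM 36768769559961922822616251198951865491783993305352624089685671075972110520877044718499141829206302701650176 (by decide +kernel)
       (CovZ.n2 (23808, 31872) (by decide +kernel)
        (CovZ.n2 (24000, 32064) (by decide +kernel)
         (CovZ.n2 (24000, 31872) (by decide +kernel)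
          (CovZ.n2 (23904, 31968) (by decide +kernel)
           (CovZ.n2 (24000, 31968) (by decide +kernel)
            (CovZ.n2 (23952, 31920) (by decide +kernel)
             (CovZ.leaf K2_ok TD_l3764 _)
             (CovZ.leaf K2_ok TD_l3765 _))
            (CovZ.n1 (23952, 32016) (by decide +kernel)
             (CovZ.n2 (24000, 32016) (by decide +kernel)
              (CovZ.leaf K2_ok TD_l3766 _)
              (CovZ.leaf K2_ok TD_l3767 _))
             (CovZ.n1 (23952, 31968) (by decide +kernel)
              (CovZ.leaf K2_ok TD_l3768 _)
              (CovZ.leaf K2_ok TD_l3769 _))))
           (CovZ.n1 (23904, 31872) (by decide +kernel)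
            (CovZ.n2 (23856, 31920) (by decide +kernel)
             (CovZ.leaf K2_ok TD_l14917 _)
             (CovZ.n1 (23856, 31872) (by decide +kernel)
              (CovZ.leaf K2_ok TD_l14918 _)
              (CovZ.leaf K2_ok TD_l14919 _)))
            (CovZ.n1 (23952, 31920) (by decide +kernel)
             (CovZ.leaf K2_ok TD_l3770 _)
             (CovZ.leaf K2_ok TD_l3771 _))))
          (CovZ.n1 (24096, 31968) (by decide +kernel)
           (CovZ.n2 (24096, 31872) (by decide +kernel)
            (CovZ.leaf K2_ok TD_l3772 _)
            (CovZ.n1 (24144, 31920) (by decide +kernel)
             (CovZ.leaf K2_ok TD_l3773 _)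
             (CovZ.leaf K2_ok TD_l3774 _)))
           (CovZ.n1 (24000, 31968) (by decide +kernel)
            (CovZ.n2 (24048, 32016) (by decide +kernel)
             (CovZ.n2 (24048, 31968) (by decide +kernel)
              (CovZ.leaf K2_ok TD_l3775 _)
              (CovZ.leaf K2_ok TD_l3776 _))
             (CovZ.n1 (24000, 32016) (by decide +kernel)
              (CovZ.n2 (24024, 32040) (by decide +kernel)
               (CovZ.leaf K2_ok TD_l3777 _)
               (CovZ.leaf K2_ok TD_l3778 _))
              (CovZ.leaf K2_ok TD_l3779 _)))
            (CovZ.n1 (24048, 31920) (by decide +kernel)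
             (CovZ.leaf K2_ok TD_l3780 _)
             (CovZ.leaf K2_ok TD_l3781 _)))))
         (CovZ.n1 (23808, 32064) (by decide +kernel)
          (CovZ.badM (by decide +kernel))
          (CovZ.n1 (23904, 31968) (by decide +kernel)
           (CovZ.n2 (23808, 31968) (by decide +kernel)
            (CovZ.n2 (23856, 32016) (by decide +kernel)
             (CovZ.n2 (23856, 31968) (by decide +kernel)
              (CovZ.n2 (23832, 31992) (by decide +kernel)
               (CovZ.leaf K2_ok TD_l18884 _)
               (CovZ.leaf K2_ok TD_l14920 _))
              (CovZ.n1 (23880, 31992) (by decide +kernel)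
               (CovZ.leaf K2_ok TD_l18885 _)
               (CovZ.leaf K2_ok TD_l18886 _)))
             (CovZ.n1 (23808, 32016) (by decide +kernel)
              (CovZ.n2 (23832, 32040) (by decide +kernel)
               (CovZ.n2 (23832, 32016) (by decide +kernel)
                (CovZ.leaf K2_ok TD_l18887 _)
                (CovZ.n1 (23844, 32028) (by decide +kernel)
                 (CovZ.leaf K2_ok TD_l18888 _)
                 (CovZ.leaf K2_ok TD_l18889 _)))
               (CovZ.n1 (23808, 32040) (by decide +kernel)
                (CovZ.badM (by decide +kernel))
                (CovZ.leaf K2_ok TD_l18890 _)))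
              (CovZ.n1 (23832, 31992) (by decide +kernel)
               (CovZ.leaf K2_ok TD_l14921 _)
               (CovZ.leaf K2_ok TD_l18891 _))))
            (CovZ.n1 (23856, 31920) (by decide +kernel)
             (CovZ.leaf K2_ok TD_l14922 _)
             (CovZ.n1 (23856, 31968) (by decide +kernel)
              (CovZ.leaf K2_ok TD_l14923 _)
              (CovZ.leaf K2_ok TD_l14924 _))))
           (CovZ.n1 (23904, 32064) (by decide +kernel)
            (CovZ.n2 (23952, 32016) (by decide +kernel)
             (CovZ.n2 (23904, 32016) (by decide +kernel)
              (CovZ.n2 (23928, 32040) (by decide +kernel)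
               (CovZ.leaf K2_ok TD_l3782 _)
               (CovZ.leaf K2_ok TD_l18892 _))
              (CovZ.leaf K2_ok TD_l3783 _))
             (CovZ.n1 (23952, 32064) (by decide +kernel)
              (CovZ.n2 (23976, 32040) (by decide +kernel)
               (CovZ.leaf K2_ok TD_l3784 _)
               (CovZ.badM (by decide +kernel)))
              (CovZ.n1 (23928, 32040) (by decide +kernel)
               (CovZ.badM (by decide +kernel))
               (CovZ.leaf K2_ok TD_l3785 _))))
            (CovZ.n1 (23856, 32016) (by decide +kernel)
             (CovZ.n2 (23856, 32064) (by decide +kernel)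
              (CovZ.n2 (23880, 32040) (by decide +kernel)
               (CovZ.leaf K2_ok TD_l18893 _)
               (CovZ.badM (by decide +kernel)))
              (CovZ.n1 (23832, 32040) (by decide +kernel)
               (CovZ.badM (by decide +kernel))
               (CovZ.n1 (23856, 32040) (by decide +kernel)
                (CovZ.leaf K2_ok TD_l18894 _)
                (CovZ.badM (by decide +kernel)))))
             (CovZ.n1 (23904, 32016) (by decide +kernel)
              (CovZ.leaf K2_ok TD_l18895 _)
              (CovZ.n1 (23880, 32040) (by decide +kernel)
               (CovZ.leaf K2_ok TD_l18896 _)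
               (CovZ.leaf K2_ok TD_l18897 _))))))))
        (CovZ.n1 (24000, 31680) (by decide +kernel)
         (CovZ.n2 (23808, 31680) (by decide +kernel)
          (CovZ.n2 (23904, 31776) (by decide +kernel)
           (CovZ.n2 (23904, 31680) (by decide +kernel)
            (CovZ.leaf K2_ok TD_l3786 _)
            (CovZ.leaf K2_ok TD_l3787 _))
           (CovZ.n1 (23808, 31776) (by decide +kernel)
            (CovZ.n2 (23856, 31824) (by decide +kernel)
             (CovZ.leaf K2_ok TD_l3788 _)
             (CovZ.leaf K2_ok TD_l3789 _))
            (CovZ.leaf K2_ok TD_l3790 _)))
          (CovZ.n1 (23904, 31584) (by decide +kernel)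
           (CovZ.leaf K2_ok TD_l3791 _)
           (CovZ.leaf K2_ok TD_l3792 _)))
         (CovZ.n1 (24000, 31872) (by decide +kernel)
          (CovZ.n2 (24096, 31776) (by decide +kernel)
           (CovZ.leaf K2_ok TD_l3793 _)
           (CovZ.n1 (24096, 31872) (by decide +kernel)
            (CovZ.leaf K2_ok TD_l3794 _)
            (CovZ.leaf K2_ok TD_l3795 _)))
          (CovZ.n1 (23904, 31776) (by decide +kernel)
           (CovZ.n2 (23904, 31872) (by decide +kernel)
            (CovZ.leaf K2_ok TD_l3796 _)
            (CovZ.leaf K2_ok TD_l3797 _))
           (CovZ.n1 (24000, 31776) (by decide +kernel)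
            (CovZ.leaf K2_ok TD_l3798 _)
            (CovZ.leaf K2_ok TD_l3799 _)))))))

theorem TD_u169 : CovZ TD_M (toL (selN TD_LN 36768769559962183563221464846782436068965974638495591617503390616667078781206701695520220946914236075868480)) [0, 7, 6, 1] (24192, 31872) (24576, 32256) (23808, 32256) :=
    (CovZ.n1 (24192, 32256) (by decide +kernel)
       (CovZ.n2 (24384, 32064) (by decide +kernel)
        (CovZ.subM 36768769559961922822616251198951865491783993305352624089685671075972089253229112159845175368293338216136704 (by decide +kernel)
         (CovZ.n2 (24192, 32064) (by decide +kernel)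
          (CovZ.n2 (24288, 32160) (by decide +kernel)
           (CovZ.n2 (24288, 32064) (by decide +kernel)
            (CovZ.n2 (24240, 32112) (by decide +kernel)
             (CovZ.n2 (24288, 32112) (by decide +kernel)
              (CovZ.leaf K2_ok TD_l3800 _)
              (CovZ.leaf K2_ok TD_l3801 _))
             (CovZ.n1 (24240, 32064) (by decide +kernel)
              (CovZ.leaf K2_ok TD_l3802 _)
              (CovZ.leaf K2_ok TD_l3803 _)))
            (CovZ.n1 (24336, 32112) (by decide +kernel)
             (CovZ.n2 (24336, 32064) (by decide +kernel)
              (CovZ.leaf K2_ok TD_l3804 _)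
              (CovZ.leaf K2_ok TD_l3805 _))
             (CovZ.n1 (24288, 32112) (by decide +kernel)
              (CovZ.n2 (24312, 32136) (by decide +kernel)
               (CovZ.leaf K2_ok TD_l3806 _)
               (CovZ.leaf K2_ok TD_l3807 _))
              (CovZ.leaf K2_ok TD_l3808 _))))
           (CovZ.n1 (24192, 32160) (by decide +kernel)
            (CovZ.badM (by decide +kernel))
            (CovZ.n1 (24240, 32112) (by decide +kernel)
             (CovZ.n2 (24192, 32112) (by decide +kernel)
              (CovZ.badM (by decide +kernel))
              (CovZ.leaf K2_ok TD_l3811 _))
             (CovZ.badM (by decide +kernel)))))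
          (CovZ.n1 (24288, 31968) (by decide +kernel)
           (CovZ.n2 (24192, 31968) (by decide +kernel)
            (CovZ.n2 (24240, 32016) (by decide +kernel)
             (CovZ.leaf K2_ok TD_l3815 _)
             (CovZ.leaf K2_ok TD_l3816 _))
            (CovZ.leaf K2_ok TD_l3817 _))
           (CovZ.n1 (24288, 32064) (by decide +kernel)
            (CovZ.leaf K2_ok TD_l3818 _)
            (CovZ.n1 (24240, 32016) (by decide +kernel)
             (CovZ.leaf K2_ok TD_l3819 _)
             (CovZ.leaf K2_ok TD_l3820 _))))))
        (CovZ.n1 (24384, 32256) (by decide +kernel)
         (CovZ.n2 (24480, 32160) (by decide +kernel)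
          (CovZ.subM 71671831749689734737838152978190216899892655911508785116799651230841339877765150252188079784691427704832 (by decide +kernel)
           (CovZ.n2 (24384, 32160) (by decide +kernel)
            (CovZ.n2 (24432, 32208) (by decide +kernel)
             (CovZ.n2 (24432, 32160) (by decide +kernel)
              (CovZ.leaf K2_ok TD_l3821 _)
              (CovZ.n1 (24456, 32184) (by decide +kernel)
               (CovZ.leaf K2_ok TD_l3822 _)
               (CovZ.leaf K2_ok TD_l3823 _)))
             (CovZ.badM (by decide +kernel)))
            (CovZ.n1 (24432, 32112) (by decide +kernel)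
             (CovZ.leaf K2_ok TD_l3825 _)
             (CovZ.leaf K2_ok TD_l3826 _))))
          (CovZ.subM 71671831749950475343051800808760794081873989054476312934519191925809600207422127273266765147060574355520 (by decide +kernel)
           (CovZ.n1 (24480, 32256) (by decide +kernel)
            (CovZ.n2 (24528, 32208) (by decide +kernel)
             (CovZ.n2 (24480, 32208) (by decide +kernel)
              (CovZ.badM (by decide +kernel))
              (CovZ.leaf K2_ok TD_l3827 _))
             (CovZ.n1 (24528, 32256) (by decide +kernel)
              (CovZ.n2 (24552, 32232) (by decide +kernel)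
               (CovZ.badM (by decide +kernel))
               (CovZ.leaf K2_ok TD_l14925 _))
              (CovZ.badM (by decide +kernel))))
            (CovZ.n1 (24432, 32208) (by decide +kernel)
             (CovZ.badM (by decide +kernel))
             (CovZ.n1 (24480, 32208) (by decide +kernel)
              (CovZ.leaf K2_ok TD_l3828 _)
              (CovZ.badM (by decide +kernel)))))))
         (CovZ.subM 71671831749689734737838152978190216899892655911508785116799651230841339877765150252188079784691427704832 (by decide +kernel)
          (CovZ.n1 (24288, 32160) (by decide +kernel)
           (CovZ.badM (by decide +kernel))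
           (CovZ.n1 (24384, 32160) (by decide +kernel)
            (CovZ.n2 (24336, 32112) (by decide +kernel)
             (CovZ.n2 (24336, 32160) (by decide +kernel)
              (CovZ.leaf K2_ok TD_l3830 _)
              (CovZ.leaf K2_ok TD_l3831 _))
             (CovZ.leaf K2_ok TD_l3832 _))
            (CovZ.badM (by decide +kernel)))))))
       (CovZ.subM 36768769559961922822616251198951865491783993305352624089685671075972089253229112159845175368293338216136704 (by decide +kernel)
        (CovZ.n1 (24000, 32064) (by decide +kernel)
         (CovZ.badM (by decide +kernel))
         (CovZ.n1 (24192, 32064) (by decide +kernel)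
          (CovZ.n2 (24096, 31968) (by decide +kernel)
           (CovZ.n2 (24096, 32064) (by decide +kernel)
            (CovZ.n2 (24144, 32016) (by decide +kernel)
             (CovZ.leaf K2_ok TD_l3839 _)
             (CovZ.leaf K2_ok TD_l3840 _))
            (CovZ.n1 (24048, 32016) (by decide +kernel)
             (CovZ.n2 (24048, 32064) (by decide +kernel)
              (CovZ.leaf K2_ok TD_l3841 _)
              (CovZ.leaf K2_ok TD_l3842 _))
             (CovZ.leaf K2_ok TD_l3843 _)))
           (CovZ.n1 (24192, 31968) (by decide +kernel)
            (CovZ.leaf K2_ok TD_l3844 _)
            (CovZ.n1 (24144, 32016) (by decide +kernel)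
             (CovZ.leaf K2_ok TD_l3845 _)
             (CovZ.leaf K2_ok TD_l3846 _))))
          (CovZ.n1 (24096, 32160) (by decide +kernel)
           (CovZ.n2 (24192, 32160) (by decide +kernel)
            (CovZ.n2 (24144, 32112) (by decide +kernel)
             (CovZ.badM (by decide +kernel))
             (CovZ.n1 (24192, 32112) (by decide +kernel)
              (CovZ.leaf K2_ok TD_l3847 _)
              (CovZ.badM (by decide +kernel))))
            (CovZ.badM (by decide +kernel)))
           (CovZ.n1 (24096, 32064) (by decide +kernel)
            (CovZ.n2 (24048, 32112) (by decide +kernel)
             (CovZ.n2 (24096, 32112) (by decide +kernel)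
              (CovZ.leaf K2_ok TD_l3849 _)
              (CovZ.badM (by decide +kernel)))
             (CovZ.n1 (24048, 32064) (by decide +kernel)
              (CovZ.badM (by decide +kernel))
              (CovZ.n1 (24072, 32088) (by decide +kernel)
               (CovZ.leaf K2_ok TD_l3850 _)
               (CovZ.badM (by decide +kernel)))))
            (CovZ.n1 (24144, 32112) (by decide +kernel)
             (CovZ.n2 (24144, 32064) (by decide +kernel)
              (CovZ.leaf K2_ok TD_l3852 _)
              (CovZ.n1 (24168, 32088) (by decide +kernel)
               (CovZ.leaf K2_ok TD_l3853 _)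
               (CovZ.leaf K2_ok TD_l3854 _)))
             (CovZ.n1 (24096, 32112) (by decide +kernel)
              (CovZ.badM (by decide +kernel))
              (CovZ.leaf K2_ok TD_l3855 _)))))))))

theorem TD_u170 : CovZ TD_M (toL (selN TD_LN 36768769559962183563221464846782436068965974638495591617503390616667078781206701695520220946914236075868480)) [0, 7, 6, 1] (23040, 30720) (23808, 31488) (23040, 32256) :=
    (CovZ.subM 36768769559961922822616251198951865491783993305352624089685671075972110520877044718499141829206302701650176 (by decide +kernel)
     (CovZ.n2 (23040, 31488) (by decide +kernel)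
      (CovZ.n2 (23424, 31872) (by decide +kernel)
       (CovZ.n2 (23424, 31488) (by decide +kernel)
        (CovZ.n2 (23232, 31680) (by decide +kernel)
         (CovZ.n2 (23424, 31680) (by decide +kernel)
          (CovZ.n2 (23328, 31584) (by decide +kernel)
           (CovZ.n2 (23328, 31680) (by decide +kernel)
            (CovZ.n2 (23376, 31632) (by decide +kernel)
             (CovZ.leaf K2_ok TD_l3672 _)
             (CovZ.leaf K2_ok TD_l3673 _))
            (CovZ.n1 (23280, 31632) (by decide +kernel)
             (CovZ.leaf K2_ok TD_l3674 _)
             (CovZ.leaf K2_ok TD_l3675 _)))
           (CovZ.n1 (23424, 31584) (by decide +kernel)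
            (CovZ.leaf K2_ok TD_l3676 _)
            (CovZ.leaf K2_ok TD_l3677 _)))
          (CovZ.n1 (23328, 31776) (by decide +kernel)
           (CovZ.n2 (23424, 31776) (by decide +kernel)
            (CovZ.n2 (23376, 31728) (by decide +kernel)
             (CovZ.badM (by decide +kernel))
             (CovZ.leaf K2_ok TD_l3679 _))
            (CovZ.badM (by decide +kernel)))
           (CovZ.n1 (23328, 31680) (by decide +kernel)
            (CovZ.n2 (23280, 31728) (by decide +kernel)
             (CovZ.n2 (23328, 31728) (by decide +kernel)
              (CovZ.leaf K2_ok TD_l3683 _)
              (CovZ.badM (by decide +kernel)))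
             (CovZ.n1 (23280, 31680) (by decide +kernel)
              (CovZ.leaf K2_ok TD_l3684 _)
              (CovZ.leaf K2_ok TD_l3685 _)))
            (CovZ.n1 (23376, 31728) (by decide +kernel)
             (CovZ.n2 (23376, 31680) (by decide +kernel)
              (CovZ.leaf K2_ok TD_l3686 _)
              (CovZ.leaf K2_ok TD_l3687 _))
             (CovZ.n1 (23328, 31728) (by decide +kernel)
              (CovZ.badM (by decide +kernel))
              (CovZ.leaf K2_ok TD_l3688 _))))))
         (CovZ.n1 (23232, 31488) (by decide +kernel)
          (CovZ.n2 (23136, 31584) (by decide +kernel)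
           (CovZ.n2 (23232, 31584) (by decide +kernel)
            (CovZ.leaf K2_ok TD_l3689 _)
            (CovZ.n1 (23184, 31632) (by decide +kernel)
             (CovZ.leaf K2_ok TD_l3690 _)
             (CovZ.n1 (23184, 31584) (by decide +kernel)
              (CovZ.leaf K2_ok TD_l3691 _)
              (CovZ.leaf K2_ok TD_l3692 _))))
           (CovZ.n1 (23136, 31488) (by decide +kernel)
            (CovZ.n2 (23088, 31536) (by decide +kernel)
             (CovZ.leaf K2_ok TD_l14907 _)
             (CovZ.leaf K2_ok TD_l3693 _))
            (CovZ.n1 (23184, 31536) (by decide +kernel)
             (CovZ.leaf K2_ok TD_l3694 _)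
             (CovZ.leaf K2_ok TD_l3695 _))))
          (CovZ.n1 (23328, 31584) (by decide +kernel)
           (CovZ.n2 (23328, 31488) (by decide +kernel)
            (CovZ.leaf K2_ok TD_l3696 _)
            (CovZ.leaf K2_ok TD_l3697 _))
           (CovZ.n1 (23232, 31584) (by decide +kernel)
            (CovZ.n2 (23280, 31632) (by decide +kernel)
             (CovZ.leaf K2_ok TD_l3698 _)
             (CovZ.leaf K2_ok TD_l3699 _))
            (CovZ.leaf K2_ok TD_l3700 _)))))
        (CovZ.n1 (23616, 31680) (by decide +kernel)
         (CovZ.n2 (23616, 31488) (by decide +kernel)
          (CovZ.n2 (23520, 31584) (by decide +kernel)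
           (CovZ.leaf K2_ok TD_l3701 _)
           (CovZ.n1 (23520, 31488) (by decide +kernel)
            (CovZ.leaf K2_ok TD_l3702 _)
            (CovZ.leaf K2_ok TD_l3703 _)))
          (CovZ.n1 (23712, 31584) (by decide +kernel)
           (CovZ.leaf K2_ok TD_l3704 _)
           (CovZ.leaf K2_ok TD_l3705 _)))
         (CovZ.n1 (23424, 31680) (by decide +kernel)
          (CovZ.n2 (23520, 31776) (by decide +kernel)
           (CovZ.n2 (23520, 31680) (by decide +kernel)
            (CovZ.n2 (23472, 31728) (by decide +kernel)
             (CovZ.leaf K2_ok TD_l3706 _)
             (CovZ.leaf K2_ok TD_l3707 _))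
            (CovZ.n1 (23568, 31728) (by decide +kernel)
             (CovZ.leaf K2_ok TD_l3708 _)
             (CovZ.leaf K2_ok TD_l3709 _)))
           (CovZ.n1 (23424, 31776) (by decide +kernel)
            (CovZ.badM (by decide +kernel))
            (CovZ.n1 (23472, 31728) (by decide +kernel)
             (CovZ.leaf K2_ok TD_l3714 _)
             (CovZ.leaf K2_ok TD_l3715 _))))
          (CovZ.n1 (23520, 31584) (by decide +kernel)
           (CovZ.n2 (23424, 31584) (by decide +kernel)
            (CovZ.n2 (23472, 31632) (by decide +kernel)
             (CovZ.leaf K2_ok TD_l3716 _)
             (CovZ.leaf K2_ok TD_l3717 _))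
            (CovZ.leaf K2_ok TD_l3718 _))
           (CovZ.n1 (23520, 31680) (by decide +kernel)
            (CovZ.leaf K2_ok TD_l3719 _)
            (CovZ.leaf K2_ok TD_l3720 _))))))
       (CovZ.n1 (23040, 31872) (by decide +kernel)
        (CovZ.badM (by decide +kernel))
        (CovZ.n1 (23232, 31680) (by decide +kernel)
         (CovZ.n2 (23040, 31680) (by decide +kernel)
          (CovZ.badM (by decide +kernel))
          (CovZ.n1 (23136, 31584) (by decide +kernel)
           (CovZ.n2 (23040, 31584) (by decide +kernel)
            (CovZ.n2 (23088, 31632) (by decide +kernel)
             (CovZ.n2 (23088, 31584) (by decide +kernel)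
              (CovZ.leaf K2_ok TD_l3724 _)
              (CovZ.leaf K2_ok TD_l14908 _))
             (CovZ.n1 (23040, 31632) (by decide +kernel)
              (CovZ.n2 (23064, 31656) (by decide +kernel)
               (CovZ.leaf K2_ok TD_l14909 _)
               (CovZ.leaf K2_ok TD_l14910 _))
              (CovZ.leaf K2_ok TD_l14911 _)))
            (CovZ.n1 (23088, 31536) (by decide +kernel)
             (CovZ.leaf K2_ok TD_l3725 _)
             (CovZ.leaf K2_ok TD_l3726 _)))
           (CovZ.n1 (23136, 31680) (by decide +kernel)
            (CovZ.n2 (23184, 31632) (by decide +kernel)
             (CovZ.n2 (23136, 31632) (by decide +kernel)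
              (CovZ.n2 (23160, 31656) (by decide +kernel)
               (CovZ.leaf K2_ok TD_l3727 _)
               (CovZ.leaf K2_ok TD_l14912 _))
              (CovZ.leaf K2_ok TD_l3728 _))
             (CovZ.n1 (23184, 31680) (by decide +kernel)
              (CovZ.leaf K2_ok TD_l3729 _)
              (CovZ.leaf K2_ok TD_l3730 _)))
            (CovZ.n1 (23088, 31632) (by decide +kernel)
             (CovZ.n2 (23088, 31680) (by decide +kernel)
              (CovZ.leaf K2_ok TD_l14913 _)
              (CovZ.n1 (23064, 31656) (by decide +kernel)
               (CovZ.badM (by decide +kernel))
               (CovZ.leaf K2_ok TD_l14914 _)))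
             (CovZ.n1 (23136, 31632) (by decide +kernel)
              (CovZ.leaf K2_ok TD_l14915 _)
              (CovZ.leaf K2_ok TD_l14916 _))))))
         (CovZ.badM (by decide +kernel)))))
      (CovZ.n1 (23424, 31104) (by decide +kernel)
       (CovZ.n2 (23040, 31104) (by decide +kernel)
        (CovZ.n2 (23232, 31296) (by decide +kernel)
         (CovZ.n2 (23232, 31104) (by decide +kernel)
          (CovZ.n2 (23136, 31200) (by decide +kernel)
           (CovZ.leaf K2_ok TD_l3733 _)
           (CovZ.leaf K2_ok TD_l3734 _))
          (CovZ.n1 (23328, 31200) (by decide +kernel)
           (CovZ.leaf K2_ok TD_l3735 _)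
           (CovZ.leaf K2_ok TD_l3736 _)))
         (CovZ.n1 (23040, 31296) (by decide +kernel)
          (CovZ.n2 (23136, 31392) (by decide +kernel)
           (CovZ.n2 (23136, 31296) (by decide +kernel)
            (CovZ.leaf K2_ok TD_l3737 _)
            (CovZ.leaf K2_ok TD_l3738 _))
           (CovZ.n1 (23040, 31392) (by decide +kernel)
            (CovZ.n2 (23088, 31440) (by decide +kernel)
             (CovZ.leaf K2_ok TD_l3739 _)
             (CovZ.leaf K2_ok TD_l3740 _))
            (CovZ.leaf K2_ok TD_l3741 _)))
          (CovZ.leaf K2_ok TD_l3742 _)))
        (CovZ.n1 (23232, 30912) (by decide +kernel)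
         (CovZ.n2 (23040, 30912) (by decide +kernel)
          (CovZ.n2 (23136, 31008) (by decide +kernel)
           (CovZ.leaf K2_ok TD_l3743 _)
           (CovZ.leaf K2_ok TD_l3744 _))
          (CovZ.leaf K2_ok TD_l3745 _))
         (CovZ.n1 (23232, 31104) (by decide +kernel)
          (CovZ.leaf K2_ok TD_l3746 _)
          (CovZ.n1 (23136, 31008) (by decide +kernel)
           (CovZ.leaf K2_ok TD_l3747 _)
           (CovZ.leaf K2_ok TD_l3748 _)))))
       (CovZ.n1 (23424, 31488) (by decide +kernel)
        (CovZ.n2 (23616, 31296) (by decide +kernel)
         (CovZ.n2 (23424, 31296) (by decide +kernel)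
          (CovZ.n2 (23520, 31392) (by decide +kernel)
           (CovZ.leaf K2_ok TD_l3749 _)
           (CovZ.leaf K2_ok TD_l3750 _))
          (CovZ.leaf K2_ok TD_l3751 _))
         (CovZ.n1 (23616, 31488) (by decide +kernel)
          (CovZ.leaf K2_ok TD_l3752 _)
          (CovZ.n1 (23520, 31392) (by decide +kernel)
           (CovZ.leaf K2_ok TD_l3753 _)
           (CovZ.leaf K2_ok TD_l3754 _))))
        (CovZ.n1 (23232, 31296) (by decide +kernel)
         (CovZ.n2 (23232, 31488) (by decide +kernel)
          (CovZ.n2 (23328, 31392) (by decide +kernel)
           (CovZ.leaf K2_ok TD_l3755 _)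
           (CovZ.leaf K2_ok TD_l3756 _))
          (CovZ.n1 (23136, 31392) (by decide +kernel)
           (CovZ.n2 (23136, 31488) (by decide +kernel)
            (CovZ.leaf K2_ok TD_l3757 _)
            (CovZ.leaf K2_ok TD_l3758 _))
           (CovZ.leaf K2_ok TD_l3759 _)))
         (CovZ.n1 (23424, 31296) (by decide +kernel)
          (CovZ.n2 (23328, 31200) (by decide +kernel)
           (CovZ.leaf K2_ok TD_l3760 _)
           (CovZ.leaf K2_ok TD_l3761 _))
          (CovZ.n1 (23328, 31392) (by decide +kernel)
           (CovZ.leaf K2_ok TD_l3762 _)
           (CovZ.leaf K2_ok TD_l3763 _))))))))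

theorem TD_u171 : CovZ TD_M (toL (selN TD_LN 36768769559962183563221464846782436068965974638495591617503390616667078781206701695520220946914236075868480)) [0, 7, 6, 1] (23808, 31488) (24576, 32256) (23040, 32256) :=
    (CovZ.n1 (23808, 32256) (by decide +kernel)
     (CovZ.n2 (24192, 31872) (by decide +kernel)
      TD_u168
      TD_u169)
     (CovZ.subM 36768769559961922822616251198951865491783993305352624089685671075972110520877044718499141829206302701650176 (by decide +kernel)
      (CovZ.n1 (23424, 31872) (by decide +kernel)
       (CovZ.n2 (23424, 32256) (by decide +kernel)
        (CovZ.n2 (23616, 32064) (by decide +kernel)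
         (CovZ.badM (by decide +kernel))
         (CovZ.n1 (23616, 32256) (by decide +kernel)
          (CovZ.n2 (23712, 32160) (by decide +kernel)
           (CovZ.badM (by decide +kernel))
           (CovZ.badM (by decide +kernel)))
          (CovZ.badM (by decide +kernel))))
        (CovZ.badM (by decide +kernel)))
       (CovZ.n1 (23808, 31872) (by decide +kernel)
        (CovZ.n2 (23616, 31680) (by decide +kernel)
         (CovZ.n2 (23616, 31872) (by decide +kernel)
          (CovZ.n2 (23712, 31776) (by decide +kernel)
           (CovZ.n2 (23616, 31776) (by decide +kernel)
            (CovZ.n2 (23664, 31824) (by decide +kernel)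
             (CovZ.leaf K2_ok TD_l3856 _)
             (CovZ.badM (by decide +kernel)))
            (CovZ.leaf K2_ok TD_l3858 _))
           (CovZ.n1 (23712, 31872) (by decide +kernel)
            (CovZ.n2 (23760, 31824) (by decide +kernel)
             (CovZ.leaf K2_ok TD_l3859 _)
             (CovZ.leaf K2_ok TD_l3860 _))
            (CovZ.n1 (23664, 31824) (by decide +kernel)
             (CovZ.n2 (23664, 31872) (by decide +kernel)
              (CovZ.leaf K2_ok TD_l3861 _)
              (CovZ.badM (by decide +kernel)))
             (CovZ.leaf K2_ok TD_l3863 _))))
          (CovZ.n1 (23520, 31776) (by decide +kernel)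
           (CovZ.badM (by decide +kernel))
           (CovZ.n1 (23616, 31776) (by decide +kernel)
            (CovZ.n2 (23568, 31728) (by decide +kernel)
             (CovZ.leaf K2_ok TD_l3869 _)
             (CovZ.leaf K2_ok TD_l3870 _))
            (CovZ.badM (by decide +kernel)))))
         (CovZ.n1 (23808, 31680) (by decide +kernel)
          (CovZ.n2 (23712, 31584) (by decide +kernel)
           (CovZ.leaf K2_ok TD_l3874 _)
           (CovZ.leaf K2_ok TD_l3875 _))
          (CovZ.n1 (23712, 31776) (by decide +kernel)
           (CovZ.n2 (23808, 31776) (by decide +kernel)
            (CovZ.leaf K2_ok TD_l3876 _)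
            (CovZ.leaf K2_ok TD_l3877 _))
           (CovZ.n1 (23712, 31680) (by decide +kernel)
            (CovZ.leaf K2_ok TD_l3878 _)
            (CovZ.n1 (23760, 31728) (by decide +kernel)
             (CovZ.leaf K2_ok TD_l3879 _)
             (CovZ.leaf K2_ok TD_l3880 _))))))
        (CovZ.n1 (23616, 32064) (by decide +kernel)
         (CovZ.n2 (23808, 32064) (by decide +kernel)
          (CovZ.n2 (23712, 31968) (by decide +kernel)
           (CovZ.n2 (23712, 32064) (by decide +kernel)
            (CovZ.n2 (23760, 32016) (by decide +kernel)
             (CovZ.badM (by decide +kernel))
             (CovZ.n1 (23760, 32064) (by decide +kernel)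
              (CovZ.n2 (23784, 32040) (by decide +kernel)
               (CovZ.badM (by decide +kernel))
               (CovZ.badM (by decide +kernel)))
              (CovZ.badM (by decide +kernel))))
            (CovZ.badM (by decide +kernel)))
           (CovZ.n1 (23808, 31968) (by decide +kernel)
            (CovZ.n2 (23760, 31920) (by decide +kernel)
             (CovZ.n2 (23760, 31968) (by decide +kernel)
              (CovZ.leaf K2_ok TD_l14926 _)
              (CovZ.leaf K2_ok TD_l18898 _))
             (CovZ.leaf K2_ok TD_l14927 _))
            (CovZ.n1 (23760, 32016) (by decide +kernel)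
             (CovZ.n2 (23808, 32016) (by decide +kernel)
              (CovZ.n2 (23784, 31992) (by decide +kernel)
               (CovZ.leaf K2_ok TD_l14928 _)
               (CovZ.leaf K2_ok TD_l14929 _))
              (CovZ.n1 (23784, 32040) (by decide +kernel)
               (CovZ.n2 (23808, 32040) (by decide +kernel)
                (CovZ.leaf K2_ok TD_l18899 _)
                (CovZ.badM (by decide +kernel)))
               (CovZ.n1 (23784, 32016) (by decide +kernel)
                (CovZ.badM (by decide +kernel))
                (CovZ.leaf K2_ok TD_l18900 _))))
             (CovZ.n1 (23760, 31968) (by decide +kernel)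
              (CovZ.badM (by decide +kernel))
              (CovZ.n1 (23784, 31992) (by decide +kernel)
               (CovZ.leaf K2_ok TD_l14930 _)
               (CovZ.badM (by decide +kernel)))))))
          (CovZ.n1 (23712, 32160) (by decide +kernel)
           (CovZ.badM (by decide +kernel))
           (CovZ.n1 (23712, 32064) (by decide +kernel)
            (CovZ.badM (by decide +kernel))
            (CovZ.badM (by decide +kernel)))))
         (CovZ.n1 (23616, 31872) (by decide +kernel)
          (CovZ.badM (by decide +kernel))
          (CovZ.n1 (23712, 31968) (by decide +kernel)
           (CovZ.n2 (23712, 31872) (by decide +kernel)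
            (CovZ.n2 (23664, 31920) (by decide +kernel)
             (CovZ.n2 (23712, 31920) (by decide +kernel)
              (CovZ.leaf K2_ok TD_l3881 _)
              (CovZ.n1 (23688, 31944) (by decide +kernel)
               (CovZ.leaf K2_ok TD_l3882 _)
               (CovZ.leaf K2_ok TD_l3883 _)))
             (CovZ.n1 (23664, 31872) (by decide +kernel)
              (CovZ.badM (by decide +kernel))
              (CovZ.n1 (23688, 31896) (by decide +kernel)
               (CovZ.leaf K2_ok TD_l3884 _)
               (CovZ.leaf K2_ok TD_l3885 _))))
            (CovZ.n1 (23760, 31920) (by decide +kernel)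
             (CovZ.n2 (23760, 31872) (by decide +kernel)
              (CovZ.leaf K2_ok TD_l3886 _)
              (CovZ.leaf K2_ok TD_l3887 _))
             (CovZ.n1 (23712, 31920) (by decide +kernel)
              (CovZ.n2 (23736, 31944) (by decide +kernel)
               (CovZ.leaf K2_ok TD_l3888 _)
               (CovZ.leaf K2_ok TD_l3889 _))
              (CovZ.leaf K2_ok TD_l3890 _))))
           (CovZ.n1 (23616, 31968) (by decide +kernel)
            (CovZ.badM (by decide +kernel))
            (CovZ.n1 (23664, 31920) (by decide +kernel)
             (CovZ.badM (by decide +kernel))
             (CovZ.n1 (23664, 31968) (by decide +kernel)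
              (CovZ.n2 (23688, 31944) (by decide +kernel)
               (CovZ.leaf K2_ok TD_l3891 _)
               (CovZ.leaf K2_ok TD_l18901 _))
              (CovZ.badM (by decide +kernel))))))))))))

theorem TD_u172 : CovZ TD_M (toL (selN TD_LN 71671831749950475343051800808760794081880571072705597758687811802710012493536672556295851318906563330112)) [0, 7, 6, 1] (25344, 33024) (24960, 32640) (25344, 32256) :=
    (CovZ.n2 (25344, 32640) (by decide +kernel)
        (CovZ.n2 (25152, 32448) (by decide +kernel)
         (CovZ.subM 6582018229284824168619876900412286114545283028649322699313643520 (by decide +kernel)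
          (CovZ.n2 (25152, 32640) (by decide +kernel)
           (CovZ.n2 (25248, 32544) (by decide +kernel)
            (CovZ.badM (by decide +kernel))
            (CovZ.n1 (25248, 32640) (by decide +kernel)
             (CovZ.n2 (25296, 32592) (by decide +kernel)
              (CovZ.badM (by decide +kernel))
              (CovZ.badM (by decide +kernel)))
             (CovZ.badM (by decide +kernel))))
           (CovZ.badM (by decide +kernel))))
         (CovZ.n1 (25344, 32448) (by decide +kernel)
          (CovZ.n2 (25248, 32352) (by decide +kernel)
           (CovZ.n2 (25248, 32448) (by decide +kernel)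
            (CovZ.n2 (25296, 32400) (by decide +kernel)
             (CovZ.n2 (25248, 32400) (by decide +kernel)
              (CovZ.n2 (25272, 32424) (by decide +kernel)
               (CovZ.leaf K2_ok TD_l15723 _)
               (CovZ.leaf K2_ok TD_l18909 _))
              (CovZ.leaf K2_ok TD_l6338 _))
             (CovZ.n1 (25296, 32448) (by decide +kernel)
              (CovZ.leaf K2_ok TD_l6339 _)
              (CovZ.n1 (25272, 32424) (by decide +kernel)
               (CovZ.badM (by decide +kernel))
               (CovZ.leaf K2_ok TD_l15724 _))))
            (CovZ.subM 71671831749689734737838152978190216899892655911508785116799651230841339877765150252188079784691427704896 (by decide +kernel)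
             (CovZ.n1 (25200, 32400) (by decide +kernel)
              (CovZ.badM (by decide +kernel))
              (CovZ.n1 (25248, 32400) (by decide +kernel)
               (CovZ.n2 (25224, 32376) (by decide +kernel)
                (CovZ.leaf K2_ok TD_l6340 _)
                (CovZ.leaf K2_ok TD_l6341 _))
               (CovZ.n1 (25224, 32424) (by decide +kernel)
                (CovZ.leaf K2_ok TD_l18910 _)
                (CovZ.n1 (25224, 32400) (by decide +kernel)
                 (CovZ.badM (by decide +kernel))
                 (CovZ.leaf K2_ok TD_l18911 _)))))))
           (CovZ.n1 (25344, 32352) (by decide +kernel)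
            (CovZ.leaf K2_ok TD_l6342 _)
            (CovZ.n1 (25296, 32400) (by decide +kernel)
             (CovZ.leaf K2_ok TD_l6343 _)
             (CovZ.n1 (25296, 32352) (by decide +kernel)
              (CovZ.n2 (25272, 32376) (by decide +kernel)
               (CovZ.leaf K2_ok TD_l6344 _)
               (CovZ.leaf K2_ok TD_l6345 _))
              (CovZ.n1 (25320, 32376) (by decide +kernel)
               (CovZ.leaf K2_ok TD_l6346 _)
               (CovZ.leaf K2_ok TD_l6347 _))))))
          (CovZ.subM 6582018229284824168619876900412286114545283028649322699313643520 (by decide +kernel)
           (CovZ.n1 (25248, 32544) (by decide +kernel)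
            (CovZ.n2 (25344, 32544) (by decide +kernel)
             (CovZ.n2 (25296, 32496) (by decide +kernel)
              (CovZ.n2 (25296, 32544) (by decide +kernel)
               (CovZ.n2 (25320, 32520) (by decide +kernel)
                (CovZ.badM (by decide +kernel))
                (CovZ.n1 (25320, 32544) (by decide +kernel)
                 (CovZ.leaf K2_ok TD_l15725 _)
                 (CovZ.badM (by decide +kernel))))
               (CovZ.badM (by decide +kernel)))
              (CovZ.n1 (25344, 32496) (by decide +kernel)
               (CovZ.leaf K2_ok TD_l15726 _)
               (CovZ.n1 (25320, 32520) (by decide +kernel)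
                (CovZ.leaf K2_ok TD_l15727 _)
                (CovZ.n1 (25320, 32496) (by decide +kernel)
                 (CovZ.badM (by decide +kernel))
                 (CovZ.leaf K2_ok TD_l15728 _)))))
             (CovZ.subM 170182884094614339566078939264528154624 (by decide +kernel)
              (CovZ.n1 (25296, 32592) (by decide +kernel)
               (CovZ.n2 (25344, 32592) (by decide +kernel)
                (CovZ.n2 (25320, 32568) (by decide +kernel)
                 (CovZ.n2 (25320, 32592) (by decide +kernel)
                  (CovZ.n2 (25332, 32580) (by decide +kernel)
                   (CovZ.badM (by decide +kernel))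
                   (CovZ.badM (by decide +kernel)))
                  (CovZ.badM (by decide +kernel)))
                 (CovZ.n1 (25344, 32568) (by decide +kernel)
                  (CovZ.n2 (25332, 32556) (by decide +kernel)
                   (CovZ.n2 (25332, 32568) (by decide +kernel)
                    (CovZ.leaf K2_ok TD_l15729 _)
                    (CovZ.badM (by decide +kernel)))
                   (CovZ.leaf K2_ok TD_l15730 _))
                  (CovZ.n1 (25332, 32580) (by decide +kernel)
                   (CovZ.n2 (25344, 32580) (by decide +kernel)
                    (CovZ.n2 (25338, 32574) (by decide +kernel)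
                     (CovZ.badM (by decide +kernel))
                     (CovZ.leaf K2_ok TD_l15731 _))
                    (CovZ.badM (by decide +kernel)))
                   (CovZ.n1 (25332, 32568) (by decide +kernel)
                    (CovZ.badM (by decide +kernel))
                    (CovZ.leaf K2_ok TD_l15732 _)))))
                (CovZ.badM (by decide +kernel)))
               (CovZ.n1 (25296, 32544) (by decide +kernel)
                (CovZ.badM (by decide +kernel))
                (CovZ.n1 (25320, 32568) (by decide +kernel)
                 (CovZ.n2 (25320, 32544) (by decide +kernel)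
                  (CovZ.badM (by decide +kernel))
                  (CovZ.n1 (25332, 32556) (by decide +kernel)
                   (CovZ.leaf K2_ok TD_l15733 _)
                   (CovZ.badM (by decide +kernel))))
                 (CovZ.badM (by decide +kernel)))))))
            (CovZ.n1 (25248, 32448) (by decide +kernel)
             (CovZ.badM (by decide +kernel))
             (CovZ.n1 (25296, 32496) (by decide +kernel)
              (CovZ.n2 (25296, 32448) (by decide +kernel)
               (CovZ.badM (by decide +kernel))
               (CovZ.n1 (25320, 32472) (by decide +kernel)
                (CovZ.n2 (25320, 32448) (by decide +kernel)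
                 (CovZ.badM (by decide +kernel))
                 (CovZ.leaf K2_ok TD_l15734 _))
                (CovZ.badM (by decide +kernel))))
              (CovZ.badM (by decide +kernel))))))))
        (CovZ.subM 170182721835337510352715582870889955328 (by decide +kernel)
         (CovZ.n1 (25152, 32832) (by decide +kernel)
          (CovZ.badM (by decide +kernel))
          (CovZ.n1 (25152, 32640) (by decide +kernel)
           (CovZ.badM (by decide +kernel))
           (CovZ.n1 (25248, 32736) (by decide +kernel)
            (CovZ.n2 (25248, 32640) (by decide +kernel)
             (CovZ.badM (by decide +kernel))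
             (CovZ.badM (by decide +kernel)))
            (CovZ.badM (by decide +kernel)))))))

theorem TD_u173 : CovZ TD_M (toL (selN TD_LN 71671831749950475343051800808760794081880571072705597758687811802710012493536672556295851318906563330112)) [0, 7, 6, 1] (24960, 32640) (24576, 32256) (25344, 32256) :=
    (CovZ.n1 (24960, 32256) (by decide +kernel)
        (CovZ.subM 71671831749950475343051800808760794081873989054476312934519191925809600207422127273266909262231470342208 (by decide +kernel)
         (CovZ.n2 (24768, 32448) (by decide +kernel)
          (CovZ.n2 (24960, 32448) (by decide +kernel)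
           (CovZ.n2 (24864, 32352) (by decide +kernel)
            (CovZ.badM (by decide +kernel))
            (CovZ.n1 (24960, 32352) (by decide +kernel)
             (CovZ.n2 (24912, 32304) (by decide +kernel)
              (CovZ.subM 71671831749689734737838152978190216899892655911508785116799651230841339877765150252188079784691427704832 (by decide +kernel)
               (CovZ.n2 (24912, 32352) (by decide +kernel)
                (CovZ.n2 (24936, 32328) (by decide +kernel)
                 (CovZ.leaf K3_ok TD_l18912 _)
                 (CovZ.badM (by decide +kernel)))
                (CovZ.n1 (24888, 32328) (by decide +kernel)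
                 (CovZ.badM (by decide +kernel))
                 (CovZ.n1 (24912, 32328) (by decide +kernel)
                  (CovZ.leaf K2_ok TD_l18913 _)
                  (CovZ.badM (by decide +kernel))))))
              (CovZ.leaf K2_ok TD_l6349 _))
             (CovZ.badM (by decide +kernel))))
           (CovZ.badM (by decide +kernel)))
          (CovZ.n1 (24768, 32256) (by decide +kernel)
           (CovZ.n2 (24672, 32352) (by decide +kernel)
            (CovZ.subM 71671831749689734738080986589718433033757588649861724980129952085728174229904766466897058048651919622144 (by decide +kernel)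
             (CovZ.n2 (24768, 32352) (by decide +kernel)
              (CovZ.n2 (24720, 32304) (by decide +kernel)
               (CovZ.badM (by decide +kernel))
               (CovZ.n1 (24768, 32304) (by decide +kernel)
                (CovZ.leaf K2_ok TD_l15735 _)
                (CovZ.badM (by decide +kernel))))
              (CovZ.badM (by decide +kernel))))
            (CovZ.n1 (24672, 32256) (by decide +kernel)
             (CovZ.subM 260740605213647830570577181981333142967527817719540694968260329656977021078685362351966781440 (by decide +kernel)
              (CovZ.n2 (24624, 32304) (by decide +kernel)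
               (CovZ.n2 (24672, 32304) (by decide +kernel)
                (CovZ.leaf K2_ok TD_l15736 _)
                (CovZ.n1 (24648, 32328) (by decide +kernel)
                 (CovZ.badM (by decide +kernel))
                 (CovZ.n1 (24648, 32304) (by decide +kernel)
                  (CovZ.leaf K2_ok TD_l15737 _)
                  (CovZ.leaf K2_ok TD_l18329 _))))
               (CovZ.n1 (24624, 32256) (by decide +kernel)
                (CovZ.n2 (24600, 32280) (by decide +kernel)
                 (CovZ.leaf K2_ok TD_l15738 _)
                 (CovZ.leaf K2_ok TD_l15739 _))
                (CovZ.n1 (24648, 32280) (by decide +kernel)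
                 (CovZ.leaf K2_ok TD_l15740 _)
                 (CovZ.leaf K2_ok TD_l15741 _)))))
             (CovZ.subM 71671831749689734738080986589718433033757588649861724980129952085728174229904766466897058048651919622144 (by decide +kernel)
              (CovZ.n1 (24720, 32304) (by decide +kernel)
               (CovZ.n2 (24720, 32256) (by decide +kernel)
                (CovZ.leaf K2_ok TD_l15742 _)
                (CovZ.n1 (24744, 32280) (by decide +kernel)
                 (CovZ.leaf K2_ok TD_l15743 _)
                 (CovZ.leaf K2_ok TD_l15744 _)))
               (CovZ.n1 (24672, 32304) (by decide +kernel)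
                (CovZ.badM (by decide +kernel))
                (CovZ.leaf K2_ok TD_l15745 _))))))
           (CovZ.n1 (24864, 32352) (by decide +kernel)
            (CovZ.n2 (24864, 32256) (by decide +kernel)
             (CovZ.n2 (24816, 32304) (by decide +kernel)
              (CovZ.n2 (24864, 32304) (by decide +kernel)
               (CovZ.leaf K2_ok TD_l6352 _)
               (CovZ.badM (by decide +kernel)))
              (CovZ.n1 (24816, 32256) (by decide +kernel)
               (CovZ.leaf K2_ok TD_l15746 _)
               (CovZ.n1 (24840, 32280) (by decide +kernel)
                (CovZ.leaf K2_ok TD_l6353 _)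
                (CovZ.leaf K2_ok TD_l6354 _))))
             (CovZ.n1 (24912, 32304) (by decide +kernel)
              (CovZ.n2 (24912, 32256) (by decide +kernel)
               (CovZ.leaf K2_ok TD_l6355 _)
               (CovZ.leaf K2_ok TD_l6356 _))
              (CovZ.n1 (24864, 32304) (by decide +kernel)
               (CovZ.n2 (24888, 32328) (by decide +kernel)
                (CovZ.n2 (24888, 32304) (by decide +kernel)
                 (CovZ.badM (by decide +kernel))
                 (CovZ.leaf K3_ok TD_l18914 _))
                (CovZ.badM (by decide +kernel)))
               (CovZ.leaf K3_ok TD_l6357 _))))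
            (CovZ.subM 71671831749689734738080986589718433033757588649861724980129952085728174229904766466897058048651919622144 (by decide +kernel)
             (CovZ.n1 (24768, 32352) (by decide +kernel)
              (CovZ.badM (by decide +kernel))
              (CovZ.n1 (24816, 32304) (by decide +kernel)
               (CovZ.n2 (24768, 32304) (by decide +kernel)
                (CovZ.badM (by decide +kernel))
                (CovZ.leaf K2_ok TD_l15747 _))
               (CovZ.badM (by decide +kernel)))))))))
        (CovZ.n1 (25152, 32448) (by decide +kernel)
         (CovZ.n2 (25152, 32256) (by decide +kernel)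
          (CovZ.subM 71671831749689734738080986589718433033757588649861724980129952085722857317921626803405875165975025811520 (by decide +kernel)
           (CovZ.n2 (25056, 32352) (by decide +kernel)
            (CovZ.n2 (25152, 32352) (by decide +kernel)
             (CovZ.n2 (25104, 32304) (by decide +kernel)
              (CovZ.leaf K2_ok TD_l6358 _)
              (CovZ.leaf K2_ok TD_l6359 _))
             (CovZ.subM 71671831749689734737838152978190216899892655911508785116799651230841339877765150252188079784691427704896 (by decide +kernel)
              (CovZ.n1 (25104, 32400) (by decide +kernel)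
               (CovZ.n2 (25152, 32400) (by decide +kernel)
                (CovZ.n2 (25128, 32376) (by decide +kernel)
                 (CovZ.badM (by decide +kernel))
                 (CovZ.leaf K2_ok TD_l6360 _))
                (CovZ.badM (by decide +kernel)))
               (CovZ.n1 (25104, 32352) (by decide +kernel)
                (CovZ.n2 (25080, 32376) (by decide +kernel)
                 (CovZ.leaf K2_ok TD_l6361 _)
                 (CovZ.leaf K2_ok TD_l6362 _))
                (CovZ.n1 (25128, 32376) (by decide +kernel)
                 (CovZ.leaf K2_ok TD_l6363 _)
                 (CovZ.leaf K2_ok TD_l6364 _))))))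
            (CovZ.n1 (25056, 32256) (by decide +kernel)
             (CovZ.n2 (25008, 32304) (by decide +kernel)
              (CovZ.leaf K2_ok TD_l6365 _)
              (CovZ.leaf K2_ok TD_l6366 _))
             (CovZ.n1 (25104, 32304) (by decide +kernel)
              (CovZ.leaf K2_ok TD_l6367 _)
              (CovZ.leaf K2_ok TD_l6368 _)))))
          (CovZ.n1 (25248, 32352) (by decide +kernel)
           (CovZ.n2 (25248, 32256) (by decide +kernel)
            (CovZ.leaf K2_ok TD_l6369 _)
            (CovZ.n1 (25296, 32304) (by decide +kernel)
             (CovZ.leaf K2_ok TD_l6370 _)
             (CovZ.leaf K2_ok TD_l6371 _)))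
           (CovZ.subM 71671831749689734737838152978190216899892655911508785116799651230841339877765150252188512130324374749248 (by decide +kernel)
            (CovZ.n1 (25152, 32352) (by decide +kernel)
             (CovZ.n2 (25200, 32400) (by decide +kernel)
              (CovZ.n2 (25200, 32352) (by decide +kernel)
               (CovZ.n2 (25176, 32376) (by decide +kernel)
                (CovZ.leaf K2_ok TD_l6372 _)
                (CovZ.leaf K2_ok TD_l6373 _))
               (CovZ.n1 (25224, 32376) (by decide +kernel)
                (CovZ.leaf K2_ok TD_l6374 _)
                (CovZ.leaf K2_ok TD_l6375 _)))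
              (CovZ.n1 (25152, 32400) (by decide +kernel)
               (CovZ.badM (by decide +kernel))
               (CovZ.leaf K2_ok TD_l6376 _)))
             (CovZ.n1 (25200, 32304) (by decide +kernel)
              (CovZ.leaf K2_ok TD_l6377 _)
              (CovZ.leaf K2_ok TD_l6378 _))))))
         (CovZ.subM 71671831749689734738080986589718433033757588649861724980129952085722857317921626803405586935598874099776 (by decide +kernel)
          (CovZ.n1 (24960, 32448) (by decide +kernel)
           (CovZ.badM (by decide +kernel))
           (CovZ.n1 (25056, 32352) (by decide +kernel)
            (CovZ.n2 (24960, 32352) (by decide +kernel)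
             (CovZ.badM (by decide +kernel))
             (CovZ.n1 (25008, 32304) (by decide +kernel)
              (CovZ.leaf K2_ok TD_l6381 _)
              (CovZ.leaf K2_ok TD_l6382 _)))
            (CovZ.badM (by decide +kernel)))))))

theorem TD_u174 : CovZ TD_M (toL (selN TD_LN 71671832283686493718065673576949177136416823349073367125132950302656668404830844684532541700093044326464)) [0, 7, 6, 1] (25344, 32256) (25536, 32448) (25344, 32640) :=
    (CovZ.n2 (25344, 32448) (by decide +kernel)
          (CovZ.subM 71671831749689734737838152978190216899899237929738069940968271107741752163879695535216697547008977928256 (by decide +kernel)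
           (CovZ.n2 (25440, 32544) (by decide +kernel)
            (CovZ.n2 (25440, 32448) (by decide +kernel)
             (CovZ.n2 (25392, 32496) (by decide +kernel)
              (CovZ.n2 (25440, 32496) (by decide +kernel)
               (CovZ.n2 (25416, 32472) (by decide +kernel)
                (CovZ.n2 (25416, 32496) (by decide +kernel)
                 (CovZ.leaf K2_ok TD_l15754 _)
                 (CovZ.leaf K2_ok TD_l15755 _))
                (CovZ.leaf K2_ok TD_l6431 _))
               (CovZ.n1 (25416, 32520) (by decide +kernel)
                (CovZ.leaf K2_ok TD_l15756 _)
                (CovZ.n1 (25416, 32496) (by decide +kernel)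
                 (CovZ.leaf K2_ok TD_l15757 _)
                 (CovZ.leaf K2_ok TD_l15758 _))))
              (CovZ.n1 (25392, 32448) (by decide +kernel)
               (CovZ.n2 (25368, 32472) (by decide +kernel)
                (CovZ.leaf K2_ok TD_l15759 _)
                (CovZ.n1 (25368, 32448) (by decide +kernel)
                 (CovZ.leaf K2_ok TD_l15760 _)
                 (CovZ.leaf K2_ok TD_l15761 _)))
               (CovZ.n1 (25416, 32472) (by decide +kernel)
                (CovZ.leaf K2_ok TD_l6432 _)
                (CovZ.leaf K2_ok TD_l15762 _))))
             (CovZ.n1 (25488, 32496) (by decide +kernel)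
              (CovZ.n2 (25488, 32448) (by decide +kernel)
               (CovZ.n2 (25464, 32472) (by decide +kernel)
                (CovZ.leaf K2_ok TD_l6433 _)
                (CovZ.leaf K2_ok TD_l6434 _))
               (CovZ.n1 (25512, 32472) (by decide +kernel)
                (CovZ.leaf K2_ok TD_l6435 _)
                (CovZ.leaf K2_ok TD_l6436 _)))
              (CovZ.n1 (25440, 32496) (by decide +kernel)
               (CovZ.n2 (25464, 32520) (by decide +kernel)
                (CovZ.n2 (25464, 32496) (by decide +kernel)
                 (CovZ.leaf K2_ok TD_l15763 _)
                 (CovZ.leaf K2_ok TD_l15764 _))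
                (CovZ.leaf K2_ok TD_l15765 _))
               (CovZ.leaf K2_ok TD_l6437 _))))
            (CovZ.subM 6582018229284824168619876900412286114545283028613258717922590720 (by decide +kernel)
             (CovZ.n1 (25344, 32544) (by decide +kernel)
              (CovZ.n2 (25392, 32592) (by decide +kernel)
               (CovZ.n2 (25392, 32544) (by decide +kernel)
                (CovZ.n2 (25368, 32568) (by decide +kernel)
                 (CovZ.n2 (25392, 32568) (by decide +kernel)
                  (CovZ.n2 (25380, 32556) (by decide +kernel)
                   (CovZ.leaf K2_ok TD_l15766 _)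
                   (CovZ.leaf K2_ok TD_l15767 _))
                  (CovZ.n1 (25380, 32580) (by decide +kernel)
                   (CovZ.leaf K2_ok TD_l15768 _)
                   (CovZ.n1 (25380, 32568) (by decide +kernel)
                    (CovZ.leaf K2_ok TD_l15769 _)
                    (CovZ.leaf K2_ok TD_l15770 _))))
                 (CovZ.n1 (25368, 32544) (by decide +kernel)
                  (CovZ.n2 (25356, 32556) (by decide +kernel)
                   (CovZ.leaf K2_ok TD_l15771 _)
                   (CovZ.leaf K2_ok TD_l15772 _))
                  (CovZ.n1 (25380, 32556) (by decide +kernel)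
                   (CovZ.leaf K2_ok TD_l15773 _)
                   (CovZ.leaf K2_ok TD_l15774 _))))
                (CovZ.n1 (25416, 32568) (by decide +kernel)
                 (CovZ.n2 (25416, 32544) (by decide +kernel)
                  (CovZ.leaf K2_ok TD_l15775 _)
                  (CovZ.n1 (25428, 32556) (by decide +kernel)
                   (CovZ.leaf K2_ok TD_l15776 _)
                   (CovZ.leaf K2_ok TD_l15777 _)))
                 (CovZ.n1 (25392, 32568) (by decide +kernel)
                  (CovZ.n2 (25404, 32580) (by decide +kernel)
                   (CovZ.n2 (25404, 32568) (by decide +kernel)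
                    (CovZ.leaf K2_ok TD_l15778 _)
                    (CovZ.leaf K2_ok TD_l15779 _))
                   (CovZ.leaf K2_ok TD_l15780 _))
                  (CovZ.leaf K2_ok TD_l15781 _))))
               (CovZ.n1 (25344, 32592) (by decide +kernel)
                (CovZ.badM (by decide +kernel))
                (CovZ.n1 (25368, 32568) (by decide +kernel)
                 (CovZ.n2 (25344, 32568) (by decide +kernel)
                  (CovZ.n2 (25356, 32580) (by decide +kernel)
                   (CovZ.n2 (25356, 32568) (by decide +kernel)
                    (CovZ.leaf K2_ok TD_l15782 _)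
                    (CovZ.leaf K2_ok TD_l15783 _))
                   (CovZ.leaf K2_ok TD_l15784 _))
                  (CovZ.leaf K2_ok TD_l15785 _))
                 (CovZ.n1 (25368, 32592) (by decide +kernel)
                  (CovZ.n2 (25380, 32580) (by decide +kernel)
                   (CovZ.leaf K2_ok TD_l15786 _)
                   (CovZ.badM (by decide +kernel)))
                  (CovZ.n1 (25356, 32580) (by decide +kernel)
                   (CovZ.badM (by decide +kernel))
                   (CovZ.n1 (25368, 32580) (by decide +kernel)
                    (CovZ.leaf K2_ok TD_l15787 _)
                    (CovZ.badM (by decide +kernel))))))))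
              (CovZ.n1 (25392, 32496) (by decide +kernel)
               (CovZ.n2 (25344, 32496) (by decide +kernel)
                (CovZ.n2 (25368, 32520) (by decide +kernel)
                 (CovZ.n2 (25368, 32496) (by decide +kernel)
                  (CovZ.leaf K2_ok TD_l15788 _)
                  (CovZ.leaf K2_ok TD_l15789 _))
                 (CovZ.leaf K2_ok TD_l15790 _))
                (CovZ.leaf K2_ok TD_l15791 _))
               (CovZ.n1 (25392, 32544) (by decide +kernel)
                (CovZ.n2 (25416, 32520) (by decide +kernel)
                 (CovZ.leaf K2_ok TD_l15792 _)
                 (CovZ.n1 (25416, 32544) (by decide +kernel)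
                  (CovZ.leaf K2_ok TD_l15793 _)
                  (CovZ.leaf K2_ok TD_l15794 _)))
                (CovZ.n1 (25368, 32520) (by decide +kernel)
                 (CovZ.n2 (25368, 32544) (by decide +kernel)
                  (CovZ.leaf K2_ok TD_l15795 _)
                  (CovZ.leaf K2_ok TD_l15796 _))
                 (CovZ.leaf K2_ok TD_l15797 _))))))))
          (CovZ.n1 (25440, 32352) (by decide +kernel)
           (CovZ.n2 (25344, 32352) (by decide +kernel)
            (CovZ.n2 (25392, 32400) (by decide +kernel)
             (CovZ.leaf K2_ok TD_l6438 _)
             (CovZ.leaf K2_ok TD_l6439 _))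
            (CovZ.leaf K2_ok TD_l6440 _))
           (CovZ.n1 (25440, 32448) (by decide +kernel)
            (CovZ.n2 (25488, 32400) (by decide +kernel)
             (CovZ.leaf K2_ok TD_l6441 _)
             (CovZ.leaf K2_ok TD_l6442 _))
            (CovZ.n1 (25392, 32400) (by decide +kernel)
             (CovZ.leaf K2_ok TD_l6443 _)
             (CovZ.leaf K2_ok TD_l6444 _)))))

theorem TD_u175 : CovZ TD_M (toL (selN TD_LN 71671832283686493718065673576949177136416823349073367125132950302656668404830844684532541700093044326464)) [0, 7, 6, 1] (25536, 32448) (25728, 32640) (25344, 32640) :=
    (CovZ.n1 (25536, 32640) (by decide +kernel)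
          (CovZ.subM 533996758980227520598758960236524167437564582008333299071815286988690826153722965261816644763712 (by decide +kernel)
           (CovZ.n2 (25632, 32544) (by decide +kernel)
            (CovZ.subM 6582018229284824168619876900370747739677004407589518346916462656 (by decide +kernel)
             (CovZ.n2 (25536, 32544) (by decide +kernel)
              (CovZ.subM 6582018229284824168619876730229564279207772675897711031404724224 (by decide +kernel)
               (CovZ.n2 (25584, 32592) (by decide +kernel)
                (CovZ.n2 (25584, 32544) (by decide +kernel)
                 (CovZ.n2 (25560, 32568) (by decide +kernel)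
                  (CovZ.n2 (25584, 32568) (by decide +kernel)
                   (CovZ.leaf K2_ok TD_l15798 _)
                   (CovZ.leaf K2_ok TD_l15799 _))
                  (CovZ.n1 (25560, 32544) (by decide +kernel)
                   (CovZ.leaf K2_ok TD_l15800 _)
                   (CovZ.leaf K2_ok TD_l15801 _)))
                 (CovZ.n1 (25608, 32568) (by decide +kernel)
                  (CovZ.n2 (25608, 32544) (by decide +kernel)
                   (CovZ.leaf K2_ok TD_l15802 _)
                   (CovZ.leaf K2_ok TD_l15803 _))
                  (CovZ.leaf K2_ok TD_l15804 _)))
                (CovZ.n1 (25536, 32592) (by decide +kernel)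
                 (CovZ.badM (by decide +kernel))
                 (CovZ.n1 (25560, 32568) (by decide +kernel)
                  (CovZ.leaf K2_ok TD_l15805 _)
                  (CovZ.n1 (25560, 32592) (by decide +kernel)
                   (CovZ.leaf K2_ok TD_l15806 _)
                   (CovZ.leaf K2_ok TD_l15807 _))))))
              (CovZ.n1 (25584, 32496) (by decide +kernel)
               (CovZ.n2 (25536, 32496) (by decide +kernel)
                (CovZ.n2 (25560, 32520) (by decide +kernel)
                 (CovZ.leaf K2_ok TD_l15808 _)
                 (CovZ.leaf K2_ok TD_l15809 _))
                (CovZ.leaf K2_ok TD_l6445 _))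
               (CovZ.n1 (25584, 32544) (by decide +kernel)
                (CovZ.leaf K2_ok TD_l6446 _)
                (CovZ.leaf K2_ok TD_l15810 _)))))
            (CovZ.subM 533996758980227520598758960236524167437564582008333299071645145805230356921991273454501133025280 (by decide +kernel)
             (CovZ.n1 (25632, 32640) (by decide +kernel)
              (CovZ.n2 (25680, 32592) (by decide +kernel)
               (CovZ.subM 3533694136138786888451419170105713761884532072959010592140923433989963776 (by decide +kernel)
                (CovZ.n2 (25632, 32592) (by decide +kernel)
                 (CovZ.n2 (25656, 32616) (by decide +kernel)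
                  (CovZ.n2 (25656, 32592) (by decide +kernel)
                   (CovZ.badM (by decide +kernel))
                   (CovZ.leaf K2_ok TD_l18334 _))
                  (CovZ.badM (by decide +kernel)))
                 (CovZ.n1 (25656, 32568) (by decide +kernel)
                  (CovZ.leaf K2_ok TD_l15811 _)
                  (CovZ.n1 (25656, 32592) (by decide +kernel)
                   (CovZ.leaf K2_ok TD_l15812 _)
                   (CovZ.leaf K2_ok TD_l15813 _)))))
               (CovZ.subM 533996758980227520598758960236517585419335297184164678498016628786869175976324179723208431239168 (by decide +kernel)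
                (CovZ.n1 (25680, 32640) (by decide +kernel)
                 (CovZ.n2 (25704, 32616) (by decide +kernel)
                  (CovZ.n2 (25680, 32616) (by decide +kernel)
                   (CovZ.n2 (25692, 32628) (by decide +kernel)
                    (CovZ.leaf K2_ok TD_l18335 _)
                    (CovZ.leaf K2_ok TD_l18336 _))
                   (CovZ.leaf K2_ok TD_l18337 _))
                  (CovZ.badM (by decide +kernel)))
                 (CovZ.n1 (25656, 32616) (by decide +kernel)
                  (CovZ.n2 (25656, 32640) (by decide +kernel)
                   (CovZ.leaf K2_ok TD_l18338 _)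
                   (CovZ.badM (by decide +kernel)))
                  (CovZ.n1 (25680, 32616) (by decide +kernel)
                   (CovZ.leaf K2_ok TD_l18339 _)
                   (CovZ.leaf K2_ok TD_l18340 _))))))
              (CovZ.subM 6582018229284824168619876730229564279207772675897711031404724224 (by decide +kernel)
               (CovZ.n1 (25584, 32592) (by decide +kernel)
                (CovZ.badM (by decide +kernel))
                (CovZ.n1 (25632, 32592) (by decide +kernel)
                 (CovZ.n2 (25608, 32568) (by decide +kernel)
                  (CovZ.n2 (25608, 32592) (by decide +kernel)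
                   (CovZ.leaf K2_ok TD_l15814 _)
                   (CovZ.leaf K2_ok TD_l15815 _))
                  (CovZ.leaf K2_ok TD_l15816 _))
                 (CovZ.badM (by decide +kernel)))))))))
          (CovZ.subM 71671831749689734737838152978190216899899237929738069940968271107741710625504827256595669303038344167488 (by decide +kernel)
           (CovZ.n1 (25440, 32544) (by decide +kernel)
            (CovZ.subM 162259276829213363391578010288128 (by decide +kernel)
             (CovZ.n2 (25440, 32640) (by decide +kernel)
              (CovZ.n2 (25488, 32592) (by decide +kernel)
               (CovZ.n2 (25440, 32592) (by decide +kernel)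
                (CovZ.badM (by decide +kernel))
                (CovZ.n1 (25464, 32568) (by decide +kernel)
                 (CovZ.n2 (25440, 32568) (by decide +kernel)
                  (CovZ.n2 (25452, 32580) (by decide +kernel)
                   (CovZ.leaf K2_ok TD_l15817 _)
                   (CovZ.leaf K2_ok TD_l15818 _))
                  (CovZ.leaf K2_ok TD_l15819 _))
                 (CovZ.n1 (25464, 32592) (by decide +kernel)
                  (CovZ.leaf K2_ok TD_l15820 _)
                  (CovZ.n1 (25452, 32580) (by decide +kernel)
                   (CovZ.badM (by decide +kernel))
                   (CovZ.leaf K2_ok TD_l15821 _)))))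
               (CovZ.badM (by decide +kernel)))
              (CovZ.n1 (25392, 32592) (by decide +kernel)
               (CovZ.badM (by decide +kernel))
               (CovZ.n1 (25440, 32592) (by decide +kernel)
                (CovZ.n2 (25416, 32568) (by decide +kernel)
                 (CovZ.n2 (25416, 32592) (by decide +kernel)
                  (CovZ.leaf K2_ok TD_l15822 _)
                  (CovZ.n1 (25404, 32580) (by decide +kernel)
                   (CovZ.badM (by decide +kernel))
                   (CovZ.leaf K2_ok TD_l15823 _)))
                 (CovZ.n1 (25440, 32568) (by decide +kernel)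
                  (CovZ.n2 (25428, 32556) (by decide +kernel)
                   (CovZ.leaf K2_ok TD_l15824 _)
                   (CovZ.leaf K2_ok TD_l15825 _))
                  (CovZ.n1 (25428, 32580) (by decide +kernel)
                   (CovZ.leaf K2_ok TD_l15826 _)
                   (CovZ.leaf K2_ok TD_l15827 _))))
                (CovZ.badM (by decide +kernel))))))
            (CovZ.n1 (25536, 32544) (by decide +kernel)
             (CovZ.n2 (25488, 32496) (by decide +kernel)
              (CovZ.subM 6582018229284824168619876900370747739677004407585014747288829952 (by decide +kernel)
               (CovZ.n2 (25488, 32544) (by decide +kernel)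
                (CovZ.leaf K2_ok TD_l15828 _)
                (CovZ.n1 (25464, 32520) (by decide +kernel)
                 (CovZ.n2 (25464, 32544) (by decide +kernel)
                  (CovZ.leaf K2_ok TD_l15829 _)
                  (CovZ.leaf K2_ok TD_l15830 _))
                 (CovZ.leaf K2_ok TD_l15831 _))))
              (CovZ.n1 (25536, 32496) (by decide +kernel)
               (CovZ.n2 (25512, 32472) (by decide +kernel)
                (CovZ.leaf K2_ok TD_l6447 _)
                (CovZ.leaf K2_ok TD_l6448 _))
               (CovZ.n1 (25512, 32520) (by decide +kernel)
                (CovZ.leaf K2_ok TD_l15832 _)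
                (CovZ.n1 (25512, 32496) (by decide +kernel)
                 (CovZ.leaf K2_ok TD_l15833 _)
                 (CovZ.leaf K2_ok TD_l15834 _)))))
             (CovZ.subM 6582018229284824168619876730229564279207772675897711031404724224 (by decide +kernel)
              (CovZ.n1 (25488, 32592) (by decide +kernel)
               (CovZ.n2 (25536, 32592) (by decide +kernel)
                (CovZ.n2 (25512, 32568) (by decide +kernel)
                 (CovZ.n2 (25512, 32592) (by decide +kernel)
                  (CovZ.leaf K2_ok TD_l15835 _)
                  (CovZ.n1 (25500, 32580) (by decide +kernel)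
                   (CovZ.badM (by decide +kernel))
                   (CovZ.leaf K2_ok TD_l15836 _)))
                 (CovZ.n1 (25536, 32568) (by decide +kernel)
                  (CovZ.leaf K2_ok TD_l15837 _)
                  (CovZ.leaf K2_ok TD_l15838 _)))
                (CovZ.badM (by decide +kernel)))
               (CovZ.n1 (25488, 32544) (by decide +kernel)
                (CovZ.n2 (25464, 32568) (by decide +kernel)
                 (CovZ.n2 (25488, 32568) (by decide +kernel)
                  (CovZ.n2 (25476, 32556) (by decide +kernel)
                   (CovZ.leaf K2_ok TD_l15839 _)
                   (CovZ.leaf K2_ok TD_l15840 _))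
                  (CovZ.leaf K2_ok TD_l15841 _))
                 (CovZ.n1 (25464, 32544) (by decide +kernel)
                  (CovZ.leaf K2_ok TD_l15842 _)
                  (CovZ.n1 (25476, 32556) (by decide +kernel)
                   (CovZ.leaf K2_ok TD_l15843 _)
                   (CovZ.leaf K2_ok TD_l15844 _))))
                (CovZ.n1 (25512, 32568) (by decide +kernel)
                 (CovZ.n2 (25512, 32544) (by decide +kernel)
                  (CovZ.leaf K2_ok TD_l15845 _)
                  (CovZ.leaf K2_ok TD_l15846 _))
                 (CovZ.n1 (25488, 32568) (by decide +kernel)
                  (CovZ.n2 (25500, 32580) (by decide +kernel)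
                   (CovZ.leaf K2_ok TD_l15847 _)
                   (CovZ.leaf K2_ok TD_l15848 _))
                  (CovZ.leaf K2_ok TD_l15849 _))))))))))

theorem TD_u176 : CovZ TD_M (toL (selN TD_LN 72791704655052432716368718436494124022966254265946631457451814431953682453693370723805626953371294629952)) [0, 7, 6, 1] (26112, 33792) (25344, 33024) (26112, 32256) :=
    (CovZ.n2 (26112, 33024) (by decide +kernel)
     (CovZ.n2 (25728, 32640) (by decide +kernel)
      (CovZ.n2 (25728, 33024) (by decide +kernel)
       (CovZ.n2 (25920, 32832) (by decide +kernel)
        (CovZ.badM (by decide +kernel))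
        (CovZ.badM (by decide +kernel)))
       (CovZ.badM (by decide +kernel)))
      (CovZ.n1 (26112, 32640) (by decide +kernel)
       (CovZ.n2 (25920, 32448) (by decide +kernel)
        (CovZ.subM 534013055268038196487445574107901885694193827160481142118457690165060504397833620617102995226688 (by decide +kernel)
         (CovZ.n2 (25920, 32640) (by decide +kernel)
          (CovZ.n2 (26016, 32544) (by decide +kernel)
           (CovZ.n2 (25920, 32544) (by decide +kernel)
            (CovZ.subM 6582018229284824168619876730229564279207772676334560195259924544 (by decide +kernel)
             (CovZ.n2 (25968, 32592) (by decide +kernel)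
              (CovZ.n2 (25968, 32544) (by decide +kernel)
               (CovZ.leaf K2_ok TD_l6292 _)
               (CovZ.leaf K2_ok TD_l6293 _))
              (CovZ.n1 (25920, 32592) (by decide +kernel)
               (CovZ.n2 (25944, 32616) (by decide +kernel)
                (CovZ.leaf K2_ok TD_l6294 _)
                (CovZ.leaf K2_ok TD_l6295 _))
               (CovZ.leaf K2_ok TD_l6296 _))))
            (CovZ.n1 (25968, 32496) (by decide +kernel)
             (CovZ.leaf K2_ok TD_l6297 _)
             (CovZ.leaf K2_ok TD_l6298 _)))
           (CovZ.n1 (26016, 32640) (by decide +kernel)
            (CovZ.n2 (26064, 32592) (by decide +kernel)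
             (CovZ.n2 (26016, 32592) (by decide +kernel)
              (CovZ.n2 (26040, 32616) (by decide +kernel)
               (CovZ.leaf K2_ok TD_l6299 _)
               (CovZ.leaf K2_ok TD_l6300 _))
              (CovZ.leaf K2_ok TD_l6301 _))
             (CovZ.n1 (26064, 32640) (by decide +kernel)
              (CovZ.leaf K2_ok TD_l6302 _)
              (CovZ.n1 (26040, 32616) (by decide +kernel)
               (CovZ.leaf K2_ok TD_l6303 _)
               (CovZ.leaf K2_ok TD_l6304 _))))
            (CovZ.subM 6582018229284824168619876730229564279207772676334560195259924544 (by decide +kernel)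
             (CovZ.n1 (25968, 32592) (by decide +kernel)
              (CovZ.n2 (25968, 32640) (by decide +kernel)
               (CovZ.leaf K2_ok TD_l6305 _)
               (CovZ.leaf K2_ok TD_l6306 _))
              (CovZ.n1 (26016, 32592) (by decide +kernel)
               (CovZ.n2 (25992, 32568) (by decide +kernel)
                (CovZ.leaf K2_ok TD_l6307 _)
                (CovZ.leaf K2_ok TD_l6308 _))
               (CovZ.leaf K2_ok TD_l6309 _))))))
          (CovZ.n1 (25824, 32544) (by decide +kernel)
           (CovZ.subM 533996758980227520598755426542394610668905415413331813060388918973916112390827231237033223782464 (by decide +kernel)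
            (CovZ.n2 (25824, 32640) (by decide +kernel)
             (CovZ.n2 (25872, 32592) (by decide +kernel)
              (CovZ.n2 (25824, 32592) (by decide +kernel)
               (CovZ.n2 (25848, 32616) (by decide +kernel)
                (CovZ.leaf K2_ok TD_l6310 _)
                (CovZ.leaf K2_ok TD_l18322 _))
               (CovZ.leaf K2_ok TD_l6311 _))
              (CovZ.subM 6582018229284824168619876730229402019930943462534319453394436096 (by decide +kernel)
               (CovZ.n1 (25872, 32640) (by decide +kernel)
                (CovZ.n2 (25896, 32616) (by decide +kernel)
                 (CovZ.leaf K2_ok TD_l6312 _)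
                 (CovZ.badM (by decide +kernel)))
                (CovZ.n1 (25848, 32616) (by decide +kernel)
                 (CovZ.badM (by decide +kernel))
                 (CovZ.leaf K2_ok TD_l6313 _)))))
             (CovZ.n1 (25776, 32592) (by decide +kernel)
              (CovZ.badM (by decide +kernel))
              (CovZ.n1 (25824, 32592) (by decide +kernel)
               (CovZ.n2 (25800, 32568) (by decide +kernel)
                (CovZ.leaf K2_ok TD_l6314 _)
                (CovZ.leaf K2_ok TD_l6315 _))
               (CovZ.n1 (25800, 32616) (by decide +kernel)
                (CovZ.leaf K2_ok TD_l18323 _)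
                (CovZ.n1 (25800, 32592) (by decide +kernel)
                 (CovZ.leaf K2_ok TD_l18324 _)
                 (CovZ.leaf K2_ok TD_l18325 _)))))))
           (CovZ.n1 (25920, 32544) (by decide +kernel)
            (CovZ.n2 (25872, 32496) (by decide +kernel)
             (CovZ.leaf K2_ok TD_l6316 _)
             (CovZ.leaf K2_ok TD_l6317 _))
            (CovZ.subM 533996758980227520598755426542394610668905415413331813060388918973916112390827523971009002864704 (by decide +kernel)
             (CovZ.n1 (25872, 32592) (by decide +kernel)
              (CovZ.n2 (25920, 32592) (by decide +kernel)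
               (CovZ.n2 (25896, 32568) (by decide +kernel)
                (CovZ.leaf K2_ok TD_l6318 _)
                (CovZ.leaf K2_ok TD_l6319 _))
               (CovZ.n1 (25896, 32616) (by decide +kernel)
                (CovZ.leaf K2_ok TD_l6320 _)
                (CovZ.leaf K2_ok TD_l6321 _)))
              (CovZ.n1 (25872, 32544) (by decide +kernel)
               (CovZ.n2 (25848, 32568) (by decide +kernel)
                (CovZ.leaf K2_ok TD_l6322 _)
                (CovZ.leaf K2_ok TD_l6323 _))
               (CovZ.n1 (25896, 32568) (by decide +kernel)
                (CovZ.leaf K2_ok TD_l6324 _)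
                (CovZ.leaf K2_ok TD_l6325 _)))))))))
        (CovZ.n1 (26112, 32448) (by decide +kernel)
         (CovZ.n2 (26016, 32352) (by decide +kernel)
          (CovZ.n2 (26016, 32448) (by decide +kernel)
           (CovZ.leaf K2_ok TD_l6326 _)
           (CovZ.leaf K2_ok TD_l6327 _))
          (CovZ.leaf K2_ok TD_l6328 _))
         (CovZ.subM 534013055268038196487445574107901885694193827160481142118457690165060504397833620617102995226688 (by decide +kernel)
          (CovZ.n1 (26016, 32544) (by decide +kernel)
           (CovZ.n2 (26112, 32544) (by decide +kernel)
            (CovZ.leaf K2_ok TD_l6329 _)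
            (CovZ.n1 (26064, 32592) (by decide +kernel)
             (CovZ.leaf K2_ok TD_l6330 _)
             (CovZ.n1 (26064, 32544) (by decide +kernel)
              (CovZ.leaf K2_ok TD_l6331 _)
              (CovZ.leaf K2_ok TD_l6332 _))))
           (CovZ.n1 (26016, 32448) (by decide +kernel)
            (CovZ.leaf K2_ok TD_l6333 _)
            (CovZ.n1 (26064, 32496) (by decide +kernel)
             (CovZ.leaf K2_ok TD_l6334 _)
             (CovZ.leaf K2_ok TD_l6335 _)))))))
       (CovZ.subM 16296287810675888690147565513857043517696571317948760574428729643829657220687845293718503488 (by decide +kernel)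
        (CovZ.n1 (25920, 32832) (by decide +kernel)
         (CovZ.n2 (26112, 32832) (by decide +kernel)
          (CovZ.n2 (26016, 32736) (by decide +kernel)
           (CovZ.badM (by decide +kernel))
           (CovZ.n1 (26112, 32736) (by decide +kernel)
            (CovZ.n2 (26064, 32688) (by decide +kernel)
             (CovZ.badM (by decide +kernel))
             (CovZ.n1 (26112, 32688) (by decide +kernel)
              (CovZ.n2 (26088, 32664) (by decide +kernel)
               (CovZ.n2 (26088, 32688) (by decide +kernel)
                (CovZ.leaf K2_ok TD_l15722 _)
                (CovZ.badM (by decide +kernel)))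
               (CovZ.leaf K2_ok TD_l6336 _))
              (CovZ.badM (by decide +kernel))))
            (CovZ.badM (by decide +kernel))))
          (CovZ.badM (by decide +kernel)))
         (CovZ.n1 (25920, 32640) (by decide +kernel)
          (CovZ.badM (by decide +kernel))
          (CovZ.n1 (26016, 32736) (by decide +kernel)
           (CovZ.n2 (26016, 32640) (by decide +kernel)
            (CovZ.badM (by decide +kernel))
            (CovZ.n1 (26064, 32688) (by decide +kernel)
             (CovZ.n2 (26064, 32640) (by decide +kernel)
              (CovZ.n2 (26040, 32664) (by decide +kernel)
               (CovZ.leaf K2_ok TD_l18326 _)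
               (CovZ.leaf K2_ok TD_l18327 _))
              (CovZ.n1 (26088, 32664) (by decide +kernel)
               (CovZ.leaf K2_ok TD_l6337 _)
               (CovZ.leaf K2_ok TD_l18328 _)))
             (CovZ.badM (by decide +kernel))))
           (CovZ.badM (by decide +kernel))))))))
     (CovZ.badM (by decide +kernel)))

theorem TD_u177 : CovZ TD_M (toL (selN TD_LN 72791704655052432716368718436494124022966254265946631457451814431953682453693370723805626953371294629952)) [0, 7, 6, 1] (25344, 33024) (24576, 32256) (26112, 32256) :=
    (CovZ.n1 (25344, 32256) (by decide +kernel)
     (CovZ.subM 71671831749950475343051800808760794081880571072705597758687811802710012493536672556295851318906563330112 (by decide +kernel)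
      (CovZ.n2 (24960, 32640) (by decide +kernel)
       TD_u172
       TD_u173))
     (CovZ.n1 (25728, 32640) (by decide +kernel)
      (CovZ.n2 (25728, 32256) (by decide +kernel)
       (CovZ.n2 (25536, 32448) (by decide +kernel)
        (CovZ.subM 1119872905085661085506241739043182375584990186181906775783293622297224462655774905034900626853048090688 (by decide +kernel)
         (CovZ.n2 (25728, 32448) (by decide +kernel)
          (CovZ.n2 (25632, 32352) (by decide +kernel)
           (CovZ.n2 (25632, 32448) (by decide +kernel)
            (CovZ.leaf K2_ok TD_l6383 _)
            (CovZ.leaf K2_ok TD_l6384 _))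
           (CovZ.n1 (25728, 32352) (by decide +kernel)
            (CovZ.leaf K2_ok TD_l6385 _)
            (CovZ.leaf K2_ok TD_l6386 _)))
          (CovZ.n1 (25632, 32544) (by decide +kernel)
           (CovZ.n2 (25728, 32544) (by decide +kernel)
            (CovZ.n2 (25680, 32496) (by decide +kernel)
             (CovZ.n2 (25680, 32544) (by decide +kernel)
              (CovZ.leaf K2_ok TD_l6387 _)
              (CovZ.n1 (25656, 32520) (by decide +kernel)
               (CovZ.leaf K2_ok TD_l6388 _)
               (CovZ.leaf K2_ok TD_l6389 _)))
             (CovZ.leaf K2_ok TD_l6390 _))
            (CovZ.subM 533996758980227520598758960236524167437564582008333299071645145805230356921991273454501133025280 (by decide +kernel)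
             (CovZ.n1 (25680, 32592) (by decide +kernel)
              (CovZ.n2 (25728, 32592) (by decide +kernel)
               (CovZ.n2 (25704, 32568) (by decide +kernel)
                (CovZ.n2 (25704, 32592) (by decide +kernel)
                 (CovZ.leaf K2_ok TD_l15748 _)
                 (CovZ.leaf K2_ok TD_l15749 _))
                (CovZ.leaf K2_ok TD_l6391 _))
               (CovZ.n1 (25704, 32616) (by decide +kernel)
                (CovZ.badM (by decide +kernel))
                (CovZ.n1 (25704, 32592) (by decide +kernel)
                 (CovZ.leaf K2_ok TD_l18330 _)
                 (CovZ.leaf K2_ok TD_l18331 _))))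
              (CovZ.n1 (25680, 32544) (by decide +kernel)
               (CovZ.n2 (25656, 32568) (by decide +kernel)
                (CovZ.leaf K2_ok TD_l15750 _)
                (CovZ.n1 (25656, 32544) (by decide +kernel)
                 (CovZ.leaf K2_ok TD_l15751 _)
                 (CovZ.leaf K2_ok TD_l15752 _)))
               (CovZ.n1 (25704, 32568) (by decide +kernel)
                (CovZ.leaf K2_ok TD_l6392 _)
                (CovZ.leaf K2_ok TD_l15753 _))))))
           (CovZ.n1 (25632, 32448) (by decide +kernel)
            (CovZ.n2 (25584, 32496) (by decide +kernel)
             (CovZ.leaf K2_ok TD_l6393 _)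
             (CovZ.n1 (25584, 32448) (by decide +kernel)
              (CovZ.leaf K2_ok TD_l6394 _)
              (CovZ.leaf K2_ok TD_l6395 _)))
            (CovZ.n1 (25680, 32496) (by decide +kernel)
             (CovZ.leaf K2_ok TD_l6396 _)
             (CovZ.n1 (25632, 32496) (by decide +kernel)
              (CovZ.leaf K2_ok TD_l6397 _)
              (CovZ.leaf K2_ok TD_l6398 _)))))))
        (CovZ.n1 (25536, 32256) (by decide +kernel)
         (CovZ.subM 71671831749689734737838152978190216899899237929738069940968271107741752163879695535217165956623316025408 (by decide +kernel)
          (CovZ.n2 (25440, 32352) (by decide +kernel)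
           (CovZ.n2 (25536, 32352) (by decide +kernel)
            (CovZ.leaf K2_ok TD_l6399 _)
            (CovZ.leaf K2_ok TD_l6400 _))
           (CovZ.n1 (25440, 32256) (by decide +kernel)
            (CovZ.leaf K2_ok TD_l6401 _)
            (CovZ.n1 (25488, 32304) (by decide +kernel)
             (CovZ.leaf K2_ok TD_l6402 _)
             (CovZ.leaf K2_ok TD_l6403 _)))))
         (CovZ.subM 1119872905085661085506241739043182375584990186181906775783293622297224462655774905034900626853048090688 (by decide +kernel)
          (CovZ.n1 (25632, 32352) (by decide +kernel)
           (CovZ.n2 (25632, 32256) (by decide +kernel)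
            (CovZ.leaf K2_ok TD_l6404 _)
            (CovZ.leaf K2_ok TD_l6405 _))
           (CovZ.n1 (25536, 32352) (by decide +kernel)
            (CovZ.n2 (25584, 32400) (by decide +kernel)
             (CovZ.leaf K2_ok TD_l6406 _)
             (CovZ.leaf K2_ok TD_l6407 _))
            (CovZ.leaf K2_ok TD_l6408 _))))))
       (CovZ.n1 (25920, 32448) (by decide +kernel)
        (CovZ.n2 (25920, 32256) (by decide +kernel)
         (CovZ.n2 (25824, 32352) (by decide +kernel)
          (CovZ.leaf K2_ok TD_l6409 _)
          (CovZ.n1 (25824, 32256) (by decide +kernel)
           (CovZ.leaf K2_ok TD_l6410 _)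
           (CovZ.leaf K2_ok TD_l6411 _)))
         (CovZ.n1 (26016, 32352) (by decide +kernel)
          (CovZ.n2 (26016, 32256) (by decide +kernel)
           (CovZ.leaf K2_ok TD_l6412 _)
           (CovZ.leaf K2_ok TD_l6413 _))
          (CovZ.leaf K2_ok TD_l6414 _)))
        (CovZ.subM 533996758980227520598758960236524167437564582008333299071815328527065694432344461880217244532800 (by decide +kernel)
         (CovZ.n1 (25728, 32448) (by decide +kernel)
          (CovZ.n2 (25824, 32544) (by decide +kernel)
           (CovZ.n2 (25824, 32448) (by decide +kernel)
            (CovZ.n2 (25776, 32496) (by decide +kernel)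
             (CovZ.leaf K2_ok TD_l6415 _)
             (CovZ.leaf K2_ok TD_l6416 _))
            (CovZ.n1 (25872, 32496) (by decide +kernel)
             (CovZ.leaf K2_ok TD_l6417 _)
             (CovZ.leaf K2_ok TD_l6418 _)))
           (CovZ.n1 (25728, 32544) (by decide +kernel)
            (CovZ.subM 533996758980227520598758960236524167437564582008333299071645145805230356921991273454501133287488 (by decide +kernel)
             (CovZ.n2 (25776, 32592) (by decide +kernel)
              (CovZ.n2 (25776, 32544) (by decide +kernel)
               (CovZ.n2 (25752, 32568) (by decide +kernel)
                (CovZ.leaf K2_ok TD_l6419 _)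
                (CovZ.leaf K2_ok TD_l6420 _))
               (CovZ.n1 (25800, 32568) (by decide +kernel)
                (CovZ.leaf K2_ok TD_l6421 _)
                (CovZ.leaf K2_ok TD_l6422 _)))
              (CovZ.n1 (25728, 32592) (by decide +kernel)
               (CovZ.badM (by decide +kernel))
               (CovZ.leaf K2_ok TD_l6423 _))))
            (CovZ.n1 (25776, 32496) (by decide +kernel)
             (CovZ.leaf K2_ok TD_l6424 _)
             (CovZ.leaf K2_ok TD_l6425 _))))
          (CovZ.n1 (25824, 32352) (by decide +kernel)
           (CovZ.n2 (25728, 32352) (by decide +kernel)
            (CovZ.n2 (25776, 32400) (by decide +kernel)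
             (CovZ.leaf K2_ok TD_l6426 _)
             (CovZ.leaf K2_ok TD_l6427 _))
            (CovZ.leaf K2_ok TD_l6428 _))
           (CovZ.n1 (25824, 32448) (by decide +kernel)
            (CovZ.leaf K2_ok TD_l6429 _)
            (CovZ.leaf K2_ok TD_l6430 _)))))))
      (CovZ.subM 71671832283686493718065673576949177136416823349073367125132950302656668404830844684532541700093044326464 (by decide +kernel)
       (CovZ.n1 (25344, 32640) (by decide +kernel)
        (CovZ.subM 533996758980227520598758960236517585419335297184164679194914916240951149149315375743469728301056 (by decide +kernel)
         (CovZ.n2 (25536, 32832) (by decide +kernel)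
          (CovZ.n2 (25536, 32640) (by decide +kernel)
           (CovZ.badM (by decide +kernel))
           (CovZ.n1 (25632, 32736) (by decide +kernel)
            (CovZ.n2 (25632, 32640) (by decide +kernel)
             (CovZ.badM (by decide +kernel))
             (CovZ.n1 (25680, 32688) (by decide +kernel)
              (CovZ.n2 (25680, 32640) (by decide +kernel)
               (CovZ.n2 (25656, 32664) (by decide +kernel)
                (CovZ.badM (by decide +kernel))
                (CovZ.n1 (25656, 32640) (by decide +kernel)
                 (CovZ.badM (by decide +kernel))
                 (CovZ.n1 (25668, 32652) (by decide +kernel)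
                  (CovZ.leaf K2_ok TD_l18332 _)
                  (CovZ.leaf K2_ok TD_l18333 _))))
               (CovZ.badM (by decide +kernel)))
              (CovZ.n1 (25632, 32688) (by decide +kernel)
               (CovZ.badM (by decide +kernel))
               (CovZ.n1 (25656, 32664) (by decide +kernel)
                (CovZ.badM (by decide +kernel))
                (CovZ.badM (by decide +kernel))))))
            (CovZ.badM (by decide +kernel))))
          (CovZ.badM (by decide +kernel))))
        (CovZ.n1 (25536, 32448) (by decide +kernel)
         TD_u174
         TD_u175)))))

theorem TD_u178 : CovZ TD_M (toL (selN TD_LN 18348006973293925957345604166664390827558496737625690439860026699103294184052397644236959389273042736910402)) [0, 7, 6, 1] (27648, 33024) (27264, 33024) (27264, 32640) :=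
    (CovZ.n2 (27456, 32832) (by decide +kernel)
        (CovZ.subM 17498026675846065539118878006022625683592701159395776281283857871285241318625168217646757437974253568 (by decide +kernel)
         (CovZ.n2 (27264, 32832) (by decide +kernel)
          (CovZ.n2 (27360, 32928) (by decide +kernel)
           (CovZ.n2 (27360, 32832) (by decide +kernel)
            (CovZ.n2 (27312, 32880) (by decide +kernel)
             (CovZ.n2 (27360, 32880) (by decide +kernel)
              (CovZ.leaf K2_ok TD_l7955 _)
              (CovZ.leaf K2_ok TD_l7956 _))
             (CovZ.n1 (27312, 32832) (by decide +kernel)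
              (CovZ.leaf K2_ok TD_l7957 _)
              (CovZ.leaf K2_ok TD_l7958 _)))
            (CovZ.n1 (27408, 32880) (by decide +kernel)
             (CovZ.n2 (27408, 32832) (by decide +kernel)
              (CovZ.leaf K2_ok TD_l7959 _)
              (CovZ.leaf K2_ok TD_l7960 _))
             (CovZ.n1 (27360, 32880) (by decide +kernel)
              (CovZ.n2 (27384, 32904) (by decide +kernel)
               (CovZ.leaf K2_ok TD_l7961 _)
               (CovZ.leaf K2_ok TD_l7962 _))
              (CovZ.leaf K2_ok TD_l7963 _))))
           (CovZ.n1 (27264, 32928) (by decide +kernel)
            (CovZ.subM 17498022501959349999387864406395028377299434054109822637428479353034804595782343312386658556939599872 (by decide +kernel)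
             (CovZ.n2 (27312, 32976) (by decide +kernel)
              (CovZ.n2 (27312, 32928) (by decide +kernel)
               (CovZ.n2 (27288, 32952) (by decide +kernel)
                (CovZ.leaf K2_ok TD_l7964 _)
                (CovZ.leaf K2_ok TD_l7965 _))
               (CovZ.n1 (27336, 32952) (by decide +kernel)
                (CovZ.leaf K2_ok TD_l7966 _)
                (CovZ.leaf K2_ok TD_l7967 _)))
              (CovZ.n1 (27264, 32976) (by decide +kernel)
               (CovZ.badM (by decide +kernel))
               (CovZ.leaf K2_ok TD_l17342 _))))
            (CovZ.n1 (27312, 32880) (by decide +kernel)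
             (CovZ.n2 (27264, 32880) (by decide +kernel)
              (CovZ.n2 (27288, 32904) (by decide +kernel)
               (CovZ.leaf K2_ok TD_l7968 _)
               (CovZ.leaf K2_ok TD_l7969 _))
              (CovZ.leaf K2_ok TD_l7970 _))
             (CovZ.n1 (27312, 32928) (by decide +kernel)
              (CovZ.leaf K2_ok TD_l7971 _)
              (CovZ.n1 (27288, 32904) (by decide +kernel)
               (CovZ.leaf K2_ok TD_l7972 _)
               (CovZ.leaf K2_ok TD_l7973 _))))))
          (CovZ.n1 (27360, 32736) (by decide +kernel)
           (CovZ.n2 (27264, 32736) (by decide +kernel)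
            (CovZ.n2 (27312, 32784) (by decide +kernel)
             (CovZ.n2 (27312, 32736) (by decide +kernel)
              (CovZ.leaf K2_ok TD_l7974 _)
              (CovZ.leaf K2_ok TD_l7975 _))
             (CovZ.leaf K2_ok TD_l7976 _))
            (CovZ.leaf K2_ok TD_l7977 _))
           (CovZ.n1 (27360, 32832) (by decide +kernel)
            (CovZ.n2 (27408, 32784) (by decide +kernel)
             (CovZ.leaf K2_ok TD_l7978 _)
             (CovZ.n1 (27408, 32832) (by decide +kernel)
              (CovZ.leaf K2_ok TD_l7979 _)
              (CovZ.leaf K2_ok TD_l7980 _)))
            (CovZ.n1 (27312, 32784) (by decide +kernel)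
             (CovZ.n2 (27312, 32832) (by decide +kernel)
              (CovZ.leaf K2_ok TD_l7981 _)
              (CovZ.leaf K2_ok TD_l7982 _))
             (CovZ.leaf K2_ok TD_l7983 _))))))
        (CovZ.subM 18044839355068439888717516133339775576463991256617824522968463362181004145561347743196938236292239362 (by decide +kernel)
         (CovZ.n1 (27456, 33024) (by decide +kernel)
          (CovZ.n2 (27552, 32928) (by decide +kernel)
           (CovZ.n2 (27456, 32928) (by decide +kernel)
            (CovZ.subM 17498026657576150434378022851197136899212746244964070126082013520025690905237488631738014561252409344 (by decide +kernel)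
             (CovZ.n2 (27504, 32976) (by decide +kernel)
              (CovZ.n2 (27504, 32928) (by decide +kernel)
               (CovZ.n2 (27480, 32952) (by decide +kernel)
                (CovZ.leaf K2_ok TD_l7984 _)
                (CovZ.leaf K2_ok TD_l7985 _))
               (CovZ.n1 (27528, 32952) (by decide +kernel)
                (CovZ.leaf K2_ok TD_l7986 _)
                (CovZ.leaf K2_ok TD_l7987 _)))
              (CovZ.n1 (27456, 32976) (by decide +kernel)
               (CovZ.badM (by decide +kernel))
               (CovZ.leaf K2_ok TD_l7988 _))))
            (CovZ.n1 (27504, 32880) (by decide +kernel)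
             (CovZ.leaf K2_ok TD_l7989 _)
             (CovZ.n1 (27504, 32928) (by decide +kernel)
              (CovZ.leaf K2_ok TD_l7990 _)
              (CovZ.n1 (27480, 32904) (by decide +kernel)
               (CovZ.leaf K2_ok TD_l7991 _)
               (CovZ.leaf K2_ok TD_l7992 _)))))
           (CovZ.n1 (27552, 33024) (by decide +kernel)
            (CovZ.subM 18044839338771903416419717202949971669513209181134668530362285607342090697055776872621888429719814146 (by decide +kernel)
             (CovZ.n2 (27600, 32976) (by decide +kernel)
              (CovZ.n2 (27552, 32976) (by decide +kernel)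
               (CovZ.n2 (27576, 33000) (by decide +kernel)
                (CovZ.leaf K2_ok TD_l7993 _)
                (CovZ.leaf K2_ok TD_l7994 _))
               (CovZ.leaf K2_ok TD_l7995 _))
              (CovZ.n1 (27600, 33024) (by decide +kernel)
               (CovZ.leaf K2_ok TD_l7996 _)
               (CovZ.n1 (27576, 33000) (by decide +kernel)
                (CovZ.leaf K2_ok TD_l7997 _)
                (CovZ.leaf K2_ok TD_l7998 _)))))
            (CovZ.subM 17498026657576150434378022851197136899212743106413202432741631602130979301404280580560292329235152896 (by decide +kernel)
             (CovZ.n1 (27504, 32976) (by decide +kernel)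
              (CovZ.n2 (27504, 33024) (by decide +kernel)
               (CovZ.leaf K2_ok TD_l7999 _)
               (CovZ.badM (by decide +kernel)))
              (CovZ.n1 (27552, 32976) (by decide +kernel)
               (CovZ.n2 (27528, 32952) (by decide +kernel)
                (CovZ.leaf K2_ok TD_l8000 _)
                (CovZ.leaf K2_ok TD_l8001 _))
               (CovZ.n1 (27528, 33000) (by decide +kernel)
                (CovZ.leaf K2_ok TD_l8002 _)
                (CovZ.leaf K2_ok TD_l8003 _)))))))
          (CovZ.n1 (27360, 32928) (by decide +kernel)
           (CovZ.subM 17498022501959349999387864406395055337246101204749617304443566372665478232926765852959139660549849088 (by decide +kernel)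
            (CovZ.n2 (27360, 33024) (by decide +kernel)
             (CovZ.n2 (27408, 32976) (by decide +kernel)
              (CovZ.n2 (27360, 32976) (by decide +kernel)
               (CovZ.n2 (27384, 33000) (by decide +kernel)
                (CovZ.n2 (27384, 32976) (by decide +kernel)
                 (CovZ.leaf K2_ok TD_l17343 _)
                 (CovZ.leaf K2_ok TD_l17344 _))
                (CovZ.badM (by decide +kernel)))
               (CovZ.leaf K2_ok TD_l8004 _))
              (CovZ.n1 (27408, 33024) (by decide +kernel)
               (CovZ.leaf K2_ok TD_l17345 _)
               (CovZ.n1 (27384, 33000) (by decide +kernel)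
                (CovZ.badM (by decide +kernel))
                (CovZ.leaf K2_ok TD_l17346 _))))
             (CovZ.n1 (27312, 32976) (by decide +kernel)
              (CovZ.badM (by decide +kernel))
              (CovZ.n1 (27360, 32976) (by decide +kernel)
               (CovZ.n2 (27336, 32952) (by decide +kernel)
                (CovZ.leaf K2_ok TD_l17349 _)
                (CovZ.leaf K2_ok TD_l8005 _))
               (CovZ.badM (by decide +kernel))))))
           (CovZ.n1 (27456, 32928) (by decide +kernel)
            (CovZ.n2 (27408, 32880) (by decide +kernel)
             (CovZ.n2 (27408, 32928) (by decide +kernel)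
              (CovZ.leaf K2_ok TD_l8006 _)
              (CovZ.n1 (27384, 32904) (by decide +kernel)
               (CovZ.leaf K2_ok TD_l8007 _)
               (CovZ.leaf K2_ok TD_l8008 _)))
             (CovZ.n1 (27456, 32880) (by decide +kernel)
              (CovZ.leaf K2_ok TD_l8009 _)
              (CovZ.leaf K2_ok TD_l8010 _)))
            (CovZ.subM 17498026657512493060121275500761846845202804638837978416653206633752652575185630820759185877534507008 (by decide +kernel)
             (CovZ.n1 (27408, 32976) (by decide +kernel)
              (CovZ.n2 (27456, 32976) (by decide +kernel)
               (CovZ.n2 (27432, 32952) (by decide +kernel)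
                (CovZ.leaf K2_ok TD_l8011 _)
                (CovZ.leaf K2_ok TD_l8012 _))
               (CovZ.n1 (27432, 33000) (by decide +kernel)
                (CovZ.badM (by decide +kernel))
                (CovZ.n1 (27432, 32976) (by decide +kernel)
                 (CovZ.leaf K2_ok TD_l17351 _)
                 (CovZ.badM (by decide +kernel)))))
              (CovZ.n1 (27408, 32928) (by decide +kernel)
               (CovZ.n2 (27384, 32952) (by decide +kernel)
                (CovZ.leaf K2_ok TD_l8013 _)
                (CovZ.leaf K2_ok TD_l8014 _))
               (CovZ.n1 (27432, 32952) (by decide +kernel)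
                (CovZ.leaf K2_ok TD_l8015 _)
                (CovZ.leaf K2_ok TD_l8016 _))))))))))

theorem TD_u179 : CovZ TD_M (toL (selN TD_LN 18348006973293925957345604166664390827558496737625690439860026699103294184052397644236959389273042736910402)) [0, 7, 6, 1] (27264, 33024) (26880, 33024) (27264, 32640) :=
    (CovZ.subM 17498022503996386006091344380223088390250629869489508259998715056205892438587321364156794909917974528 (by decide +kernel)
        (CovZ.n1 (27072, 32832) (by decide +kernel)
         (CovZ.n2 (27072, 33024) (by decide +kernel)
          (CovZ.n2 (27168, 32928) (by decide +kernel)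
           (CovZ.subM 17498022503996137344469434132920356520615262846779349408004639438874925651527689727476655632903311360 (by decide +kernel)
            (CovZ.n2 (27072, 32928) (by decide +kernel)
             (CovZ.subM 30354201441027016733116592294117482916287606860189680019559568902170379456331382784 (by decide +kernel)
              (CovZ.n2 (27120, 32976) (by decide +kernel)
               (CovZ.n2 (27120, 32928) (by decide +kernel)
                (CovZ.n2 (27096, 32952) (by decide +kernel)
                 (CovZ.badM (by decide +kernel))
                 (CovZ.n1 (27096, 32928) (by decide +kernel)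
                  (CovZ.badM (by decide +kernel))
                  (CovZ.leaf K2_ok TD_l18495 _)))
                (CovZ.badM (by decide +kernel)))
               (CovZ.n1 (27072, 32976) (by decide +kernel)
                (CovZ.badM (by decide +kernel))
                (CovZ.n1 (27096, 32952) (by decide +kernel)
                 (CovZ.badM (by decide +kernel))
                 (CovZ.badM (by decide +kernel))))))
             (CovZ.n1 (27120, 32880) (by decide +kernel)
              (CovZ.n2 (27072, 32880) (by decide +kernel)
               (CovZ.n2 (27096, 32904) (by decide +kernel)
                (CovZ.leaf K2_ok TD_l8017 _)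
                (CovZ.leaf K2_ok TD_l17352 _))
               (CovZ.leaf K2_ok TD_l8018 _))
              (CovZ.n1 (27120, 32928) (by decide +kernel)
               (CovZ.leaf K2_ok TD_l8019 _)
               (CovZ.n1 (27096, 32904) (by decide +kernel)
                (CovZ.leaf K2_ok TD_l17353 _)
                (CovZ.leaf K2_ok TD_l8020 _))))))
           (CovZ.n1 (27168, 33024) (by decide +kernel)
            (CovZ.n2 (27216, 32976) (by decide +kernel)
             (CovZ.badM (by decide +kernel))
             (CovZ.badM (by decide +kernel)))
            (CovZ.badM (by decide +kernel))))
          (CovZ.subM 17498022503996137314115232691893339787498268818150801744148147088494467340263719243072012619584901120 (by decide +kernel)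
           (CovZ.n1 (26976, 32928) (by decide +kernel)
            (CovZ.subM 2037035976349307473690822161423595247132580445915756299070403687834503307061646309789270016 (by decide +kernel)
             (CovZ.n2 (26976, 33024) (by decide +kernel)
              (CovZ.n2 (27024, 32976) (by decide +kernel)
               (CovZ.n2 (26976, 32976) (by decide +kernel)
                (CovZ.badM (by decide +kernel))
                (CovZ.n1 (27000, 32952) (by decide +kernel)
                 (CovZ.badM (by decide +kernel))
                 (CovZ.badM (by decide +kernel))))
               (CovZ.badM (by decide +kernel)))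
              (CovZ.badM (by decide +kernel))))
            (CovZ.n1 (27072, 32928) (by decide +kernel)
             (CovZ.n2 (27024, 32880) (by decide +kernel)
              (CovZ.subM 2037035976349307473697723907770385810920015201778034686005398666940895825855312311472881664 (by decide +kernel)
               (CovZ.n2 (27024, 32928) (by decide +kernel)
                (CovZ.n2 (27048, 32904) (by decide +kernel)
                 (CovZ.leaf K2_ok TD_l17354 _)
                 (CovZ.n1 (27048, 32928) (by decide +kernel)
                  (CovZ.leaf K2_ok TD_l17355 _)
                  (CovZ.leaf K2_ok TD_l17356 _)))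
                (CovZ.n1 (27000, 32904) (by decide +kernel)
                 (CovZ.n2 (27000, 32928) (by decide +kernel)
                  (CovZ.leaf K2_ok TD_l17357 _)
                  (CovZ.leaf K2_ok TD_l17358 _))
                 (CovZ.leaf K2_ok TD_l17359 _))))
              (CovZ.n1 (27072, 32880) (by decide +kernel)
               (CovZ.n2 (27048, 32856) (by decide +kernel)
                (CovZ.leaf K2_ok TD_l8021 _)
                (CovZ.leaf K2_ok TD_l8022 _))
               (CovZ.n1 (27048, 32904) (by decide +kernel)
                (CovZ.leaf K2_ok TD_l17360 _)
                (CovZ.leaf K2_ok TD_l17361 _))))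
             (CovZ.subM 2037035976349307473690822161423595247132580445915756299070403687834503307061646309789270016 (by decide +kernel)
              (CovZ.n1 (27024, 32976) (by decide +kernel)
               (CovZ.badM (by decide +kernel))
               (CovZ.n1 (27024, 32928) (by decide +kernel)
                (CovZ.n2 (27000, 32952) (by decide +kernel)
                 (CovZ.badM (by decide +kernel))
                 (CovZ.n1 (27000, 32928) (by decide +kernel)
                  (CovZ.badM (by decide +kernel))
                  (CovZ.badM (by decide +kernel))))
                (CovZ.n1 (27048, 32952) (by decide +kernel)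
                 (CovZ.n2 (27048, 32928) (by decide +kernel)
                  (CovZ.badM (by decide +kernel))
                  (CovZ.badM (by decide +kernel)))
                 (CovZ.badM (by decide +kernel))))))))))
         (CovZ.n1 (27264, 32832) (by decide +kernel)
          (CovZ.n2 (27168, 32736) (by decide +kernel)
           (CovZ.n2 (27168, 32832) (by decide +kernel)
            (CovZ.n2 (27216, 32784) (by decide +kernel)
             (CovZ.leaf K2_ok TD_l8023 _)
             (CovZ.n1 (27216, 32832) (by decide +kernel)
              (CovZ.leaf K2_ok TD_l8024 _)
              (CovZ.leaf K2_ok TD_l8025 _)))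
            (CovZ.n1 (27120, 32784) (by decide +kernel)
             (CovZ.n2 (27120, 32832) (by decide +kernel)
              (CovZ.leaf K2_ok TD_l8026 _)
              (CovZ.n1 (27096, 32808) (by decide +kernel)
               (CovZ.leaf K2_ok TD_l8027 _)
               (CovZ.leaf K2_ok TD_l8028 _)))
             (CovZ.n1 (27168, 32784) (by decide +kernel)
              (CovZ.leaf K2_ok TD_l8029 _)
              (CovZ.leaf K2_ok TD_l8030 _))))
           (CovZ.n1 (27264, 32736) (by decide +kernel)
            (CovZ.leaf K2_ok TD_l8031 _)
            (CovZ.n1 (27216, 32784) (by decide +kernel)
             (CovZ.leaf K2_ok TD_l8032 _)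
             (CovZ.n1 (27216, 32736) (by decide +kernel)
              (CovZ.leaf K2_ok TD_l8033 _)
              (CovZ.leaf K2_ok TD_l8034 _)))))
          (CovZ.n1 (27168, 32928) (by decide +kernel)
           (CovZ.n2 (27264, 32928) (by decide +kernel)
            (CovZ.n2 (27216, 32880) (by decide +kernel)
             (CovZ.n2 (27216, 32928) (by decide +kernel)
              (CovZ.leaf K2_ok TD_l8035 _)
              (CovZ.n1 (27192, 32904) (by decide +kernel)
               (CovZ.leaf K2_ok TD_l17362 _)
               (CovZ.leaf K2_ok TD_l8036 _)))
             (CovZ.n1 (27264, 32880) (by decide +kernel)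
              (CovZ.n2 (27240, 32856) (by decide +kernel)
               (CovZ.leaf K2_ok TD_l8037 _)
               (CovZ.leaf K2_ok TD_l8038 _))
              (CovZ.n1 (27240, 32904) (by decide +kernel)
               (CovZ.leaf K2_ok TD_l8039 _)
               (CovZ.leaf K2_ok TD_l8040 _))))
            (CovZ.n1 (27216, 32976) (by decide +kernel)
             (CovZ.badM (by decide +kernel))
             (CovZ.n1 (27216, 32928) (by decide +kernel)
              (CovZ.badM (by decide +kernel))
              (CovZ.badM (by decide +kernel)))))
           (CovZ.n1 (27168, 32832) (by decide +kernel)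
            (CovZ.subM 17498022503996386006087639026241434211739336257199399636080038112733645883516136307225161899591077888 (by decide +kernel)
             (CovZ.n2 (27120, 32880) (by decide +kernel)
              (CovZ.n2 (27168, 32880) (by decide +kernel)
               (CovZ.n2 (27144, 32856) (by decide +kernel)
                (CovZ.leaf K2_ok TD_l8041 _)
                (CovZ.leaf K2_ok TD_l8042 _))
               (CovZ.n1 (27144, 32904) (by decide +kernel)
                (CovZ.leaf K2_ok TD_l8043 _)
                (CovZ.leaf K2_ok TD_l8044 _)))
              (CovZ.n1 (27120, 32832) (by decide +kernel)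
               (CovZ.leaf K2_ok TD_l8045 _)
               (CovZ.n1 (27144, 32856) (by decide +kernel)
                (CovZ.leaf K2_ok TD_l8046 _)
                (CovZ.leaf K2_ok TD_l8047 _)))))
            (CovZ.n1 (27216, 32880) (by decide +kernel)
             (CovZ.n2 (27216, 32832) (by decide +kernel)
              (CovZ.leaf K2_ok TD_l8048 _)
              (CovZ.n1 (27240, 32856) (by decide +kernel)
               (CovZ.leaf K2_ok TD_l8049 _)
               (CovZ.leaf K2_ok TD_l8050 _)))
             (CovZ.n1 (27168, 32880) (by decide +kernel)
              (CovZ.n2 (27192, 32904) (by decide +kernel)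
               (CovZ.leaf K2_ok TD_l8051 _)
               (CovZ.leaf K2_ok TD_l8052 _))
              (CovZ.leaf K2_ok TD_l8053 _))))))))

theorem TD_u180 : CovZ TD_M (toL (selN TD_LN 18348006973293925957345604166664390827558496737625690439860026699103294184052397644236959389273042736910402)) [0, 7, 6, 1] (26112, 32256) (26880, 32256) (26880, 33024) :=
    (CovZ.subM 550700453988112975398385944168291552544769175116751009649996826037164982577800296814532854288448 (by decide +kernel)
      (CovZ.n2 (26496, 32640) (by decide +kernel)
       (CovZ.n2 (26880, 32640) (by decide +kernel)
        (CovZ.n2 (26688, 32448) (by decide +kernel)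
         (CovZ.n2 (26688, 32640) (by decide +kernel)
          (CovZ.n2 (26784, 32544) (by decide +kernel)
           (CovZ.n2 (26688, 32544) (by decide +kernel)
            (CovZ.n2 (26736, 32592) (by decide +kernel)
             (CovZ.leaf K2_ok TD_l8098 _)
             (CovZ.leaf K2_ok TD_l8099 _))
            (CovZ.leaf K2_ok TD_l8100 _))
           (CovZ.n1 (26784, 32640) (by decide +kernel)
            (CovZ.leaf K2_ok TD_l8101 _)
            (CovZ.leaf K2_ok TD_l8102 _)))
          (CovZ.subM 16296289753344780915876636433318950341215477960355599637700697619617566608961759837674536960 (by decide +kernel)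
           (CovZ.n1 (26592, 32544) (by decide +kernel)
            (CovZ.n2 (26592, 32640) (by decide +kernel)
             (CovZ.leaf K2_ok TD_l8103 _)
             (CovZ.leaf K2_ok TD_l8104 _))
            (CovZ.n1 (26688, 32544) (by decide +kernel)
             (CovZ.leaf K2_ok TD_l8105 _)
             (CovZ.leaf K2_ok TD_l8106 _)))))
         (CovZ.n1 (26880, 32448) (by decide +kernel)
          (CovZ.leaf K2_ok TD_l8107 _)
          (CovZ.n1 (26784, 32544) (by decide +kernel)
           (CovZ.leaf K2_ok TD_l8108 _)
           (CovZ.n1 (26784, 32448) (by decide +kernel)
            (CovZ.leaf K2_ok TD_l8109 _)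
            (CovZ.leaf K2_ok TD_l8110 _)))))
        (CovZ.n1 (26688, 32832) (by decide +kernel)
         (CovZ.n2 (26880, 32832) (by decide +kernel)
          (CovZ.n2 (26784, 32736) (by decide +kernel)
           (CovZ.subM 16703695007885454799626983931773967125433877932586329061059365966507174554895513930648199892992 (by decide +kernel)
            (CovZ.n2 (26784, 32832) (by decide +kernel)
             (CovZ.n2 (26832, 32784) (by decide +kernel)
              (CovZ.n2 (26784, 32784) (by decide +kernel)
               (CovZ.n2 (26808, 32808) (by decide +kernel)
                (CovZ.leaf K2_ok TD_l8111 _)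
                (CovZ.leaf K2_ok TD_l8112 _))
               (CovZ.leaf K2_ok TD_l8113 _))
              (CovZ.n1 (26832, 32832) (by decide +kernel)
               (CovZ.leaf K2_ok TD_l8114 _)
               (CovZ.n1 (26808, 32808) (by decide +kernel)
                (CovZ.leaf K2_ok TD_l17363 _)
                (CovZ.leaf K2_ok TD_l8115 _))))
             (CovZ.subM 16296289753344780915876636643943533678329851356190261155297372002787947593295664947168018432 (by decide +kernel)
              (CovZ.n1 (26736, 32784) (by decide +kernel)
               (CovZ.n2 (26736, 32832) (by decide +kernel)
                (CovZ.leaf K2_ok TD_l8116 _)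
                (CovZ.n1 (26712, 32808) (by decide +kernel)
                 (CovZ.leaf K2_ok TD_l17364 _)
                 (CovZ.leaf K2_ok TD_l8117 _)))
               (CovZ.n1 (26784, 32784) (by decide +kernel)
                (CovZ.leaf K2_ok TD_l8118 _)
                (CovZ.n1 (26760, 32808) (by decide +kernel)
                 (CovZ.leaf K2_ok TD_l8119 _)
                 (CovZ.leaf K2_ok TD_l8120 _)))))))
           (CovZ.n1 (26880, 32736) (by decide +kernel)
            (CovZ.n2 (26832, 32688) (by decide +kernel)
             (CovZ.n2 (26832, 32736) (by decide +kernel)
              (CovZ.leaf K2_ok TD_l8121 _)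
              (CovZ.leaf K2_ok TD_l8122 _))
             (CovZ.leaf K2_ok TD_l8123 _))
            (CovZ.n1 (26832, 32784) (by decide +kernel)
             (CovZ.n2 (26880, 32784) (by decide +kernel)
              (CovZ.leaf K2_ok TD_l8124 _)
              (CovZ.n1 (26856, 32808) (by decide +kernel)
               (CovZ.leaf K2_ok TD_l8125 _)
               (CovZ.leaf K2_ok TD_l8126 _)))
             (CovZ.n1 (26832, 32736) (by decide +kernel)
              (CovZ.leaf K2_ok TD_l8127 _)
              (CovZ.leaf K2_ok TD_l8128 _)))))
          (CovZ.subM 16687398718132110018711107295340646568154618195635699313309815578477993619352949863440575369216 (by decide +kernel)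
           (CovZ.n1 (26784, 32928) (by decide +kernel)
            (CovZ.n2 (26880, 32928) (by decide +kernel)
             (CovZ.n2 (26832, 32880) (by decide +kernel)
              (CovZ.n2 (26832, 32928) (by decide +kernel)
               (CovZ.n2 (26856, 32904) (by decide +kernel)
                (CovZ.badM (by decide +kernel))
                (CovZ.badM (by decide +kernel)))
               (CovZ.badM (by decide +kernel)))
              (CovZ.n1 (26880, 32880) (by decide +kernel)
               (CovZ.n2 (26856, 32856) (by decide +kernel)
                (CovZ.n2 (26856, 32880) (by decide +kernel)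
                 (CovZ.leaf K2_ok TD_l17366 _)
                 (CovZ.badM (by decide +kernel)))
                (CovZ.leaf K2_ok TD_l8129 _))
               (CovZ.n1 (26856, 32904) (by decide +kernel)
                (CovZ.badM (by decide +kernel))
                (CovZ.n1 (26856, 32880) (by decide +kernel)
                 (CovZ.badM (by decide +kernel))
                 (CovZ.leaf K2_ok TD_l17369 _)))))
             (CovZ.n1 (26832, 32976) (by decide +kernel)
              (CovZ.badM (by decide +kernel))
              (CovZ.n1 (26832, 32928) (by decide +kernel)
               (CovZ.badM (by decide +kernel))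
               (CovZ.badM (by decide +kernel)))))
            (CovZ.n1 (26784, 32832) (by decide +kernel)
             (CovZ.subM 210624583337114373395836055367673171636736419769324174273692041216 (by decide +kernel)
              (CovZ.n2 (26736, 32880) (by decide +kernel)
               (CovZ.n2 (26784, 32880) (by decide +kernel)
                (CovZ.n2 (26760, 32856) (by decide +kernel)
                 (CovZ.badM (by decide +kernel))
                 (CovZ.leaf K2_ok TD_l17370 _))
                (CovZ.badM (by decide +kernel)))
               (CovZ.n1 (26736, 32832) (by decide +kernel)
                (CovZ.n2 (26712, 32856) (by decide +kernel)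
                 (CovZ.leaf K2_ok TD_l17371 _)
                 (CovZ.n1 (26712, 32832) (by decide +kernel)
                  (CovZ.badM (by decide +kernel))
                  (CovZ.leaf K2_ok TD_l17373 _)))
                (CovZ.n1 (26760, 32856) (by decide +kernel)
                 (CovZ.leaf K2_ok TD_l17374 _)
                 (CovZ.leaf K2_ok TD_l17375 _)))))
             (CovZ.n1 (26832, 32880) (by decide +kernel)
              (CovZ.n2 (26832, 32832) (by decide +kernel)
               (CovZ.n2 (26808, 32856) (by decide +kernel)
                (CovZ.leaf K2_ok TD_l17376 _)
                (CovZ.leaf K2_ok TD_l17377 _))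
               (CovZ.n1 (26856, 32856) (by decide +kernel)
                (CovZ.leaf K2_ok TD_l8130 _)
                (CovZ.leaf K2_ok TD_l17378 _)))
              (CovZ.n1 (26784, 32880) (by decide +kernel)
               (CovZ.badM (by decide +kernel))
               (CovZ.leaf K2_ok TD_l17379 _)))))))
         (CovZ.n1 (26688, 32640) (by decide +kernel)
          (CovZ.subM 16296289753344780915876636433318950341215477960355599637700535360340737395598368190944772096 (by decide +kernel)
           (CovZ.n2 (26592, 32736) (by decide +kernel)
            (CovZ.n2 (26688, 32736) (by decide +kernel)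
             (CovZ.n2 (26640, 32688) (by decide +kernel)
              (CovZ.n2 (26640, 32736) (by decide +kernel)
               (CovZ.leaf K2_ok TD_l8131 _)
               (CovZ.leaf K2_ok TD_l8132 _))
              (CovZ.leaf K2_ok TD_l8133 _))
             (CovZ.subM 16296289753344780915876636433318950341215477960354205787956507364997756497049537259193237504 (by decide +kernel)
              (CovZ.n1 (26640, 32784) (by decide +kernel)
               (CovZ.n2 (26688, 32784) (by decide +kernel)
                (CovZ.n2 (26664, 32760) (by decide +kernel)
                 (CovZ.leaf K2_ok TD_l8134 _)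
                 (CovZ.leaf K2_ok TD_l8135 _))
                (CovZ.n1 (26664, 32808) (by decide +kernel)
                 (CovZ.leaf K2_ok TD_l17380 _)
                 (CovZ.leaf K2_ok TD_l17381 _)))
               (CovZ.n1 (26640, 32736) (by decide +kernel)
                (CovZ.leaf K2_ok TD_l8136 _)
                (CovZ.n1 (26664, 32760) (by decide +kernel)
                 (CovZ.leaf K2_ok TD_l8137 _)
                 (CovZ.leaf K2_ok TD_l8138 _))))))
            (CovZ.n1 (26592, 32640) (by decide +kernel)
             (CovZ.n2 (26544, 32688) (by decide +kernel)
              (CovZ.leaf K2_ok TD_l8139 _)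
              (CovZ.n1 (26544, 32640) (by decide +kernel)
               (CovZ.leaf K2_ok TD_l8140 _)
               (CovZ.leaf K2_ok TD_l8141 _)))
             (CovZ.n1 (26640, 32688) (by decide +kernel)
              (CovZ.n2 (26640, 32640) (by decide +kernel)
               (CovZ.leaf K2_ok TD_l8142 _)
               (CovZ.leaf K2_ok TD_l8143 _))
              (CovZ.leaf K2_ok TD_l8144 _)))))
          (CovZ.n1 (26784, 32736) (by decide +kernel)
           (CovZ.n2 (26784, 32640) (by decide +kernel)
            (CovZ.n2 (26736, 32688) (by decide +kernel)
             (CovZ.leaf K2_ok TD_l8145 _)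
             (CovZ.leaf K2_ok TD_l8146 _))
            (CovZ.n1 (26832, 32688) (by decide +kernel)
             (CovZ.leaf K2_ok TD_l8147 _)
             (CovZ.leaf K2_ok TD_l8148 _)))
           (CovZ.subM 16296289753344780915876636643943533678329851356191654951872280166734293575692213467705507840 (by decide +kernel)
            (CovZ.n1 (26688, 32736) (by decide +kernel)
             (CovZ.n2 (26736, 32784) (by decide +kernel)
              (CovZ.n2 (26736, 32736) (by decide +kernel)
               (CovZ.leaf K2_ok TD_l8149 _)
               (CovZ.leaf K2_ok TD_l8150 _))
              (CovZ.n1 (26688, 32784) (by decide +kernel)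
               (CovZ.n2 (26712, 32808) (by decide +kernel)
                (CovZ.leaf K2_ok TD_l8151 _)
                (CovZ.leaf K2_ok TD_l17382 _))
               (CovZ.leaf K2_ok TD_l8152 _)))
             (CovZ.n1 (26736, 32688) (by decide +kernel)
              (CovZ.leaf K2_ok TD_l8153 _)
              (CovZ.n1 (26736, 32736) (by decide +kernel)
               (CovZ.leaf K2_ok TD_l8154 _)
               (CovZ.leaf K2_ok TD_l8155 _)))))))))
       (CovZ.n1 (26496, 32256) (by decide +kernel)
        (CovZ.n2 (26304, 32448) (by decide +kernel)
         (CovZ.subM 534013055268038196487445574107901885694193827160481142118471314752017299785530884643937634746368 (by decide +kernel)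
          (CovZ.n2 (26496, 32448) (by decide +kernel)
           (CovZ.n2 (26400, 32352) (by decide +kernel)
            (CovZ.leaf K2_ok TD_l8156 _)
            (CovZ.leaf K2_ok TD_l8157 _))
           (CovZ.n1 (26400, 32544) (by decide +kernel)
            (CovZ.n2 (26496, 32544) (by decide +kernel)
             (CovZ.leaf K2_ok TD_l8158 _)
             (CovZ.leaf K2_ok TD_l8159 _))
            (CovZ.n1 (26400, 32448) (by decide +kernel)
             (CovZ.leaf K2_ok TD_l8160 _)
             (CovZ.leaf K2_ok TD_l8161 _)))))
         (CovZ.n1 (26304, 32256) (by decide +kernel)
          (CovZ.n2 (26208, 32352) (by decide +kernel)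
           (CovZ.leaf K2_ok TD_l8162 _)
           (CovZ.leaf K2_ok TD_l8163 _))
          (CovZ.n1 (26400, 32352) (by decide +kernel)
           (CovZ.leaf K2_ok TD_l8164 _)
           (CovZ.leaf K2_ok TD_l8165 _))))
        (CovZ.n1 (26688, 32448) (by decide +kernel)
         (CovZ.n2 (26688, 32256) (by decide +kernel)
          (CovZ.leaf K2_ok TD_l8166 _)
          (CovZ.n1 (26784, 32352) (by decide +kernel)
           (CovZ.leaf K2_ok TD_l8167 _)
           (CovZ.leaf K2_ok TD_l8168 _)))
         (CovZ.subM 534013055269980865379671303178821347601017346067123548957523620426768585309753901905025378287616 (by decide +kernel)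
          (CovZ.n1 (26496, 32448) (by decide +kernel)
           (CovZ.n2 (26592, 32544) (by decide +kernel)
            (CovZ.n2 (26592, 32448) (by decide +kernel)
             (CovZ.leaf K2_ok TD_l8169 _)
             (CovZ.leaf K2_ok TD_l8170 _))
            (CovZ.n1 (26496, 32544) (by decide +kernel)
             (CovZ.n2 (26544, 32592) (by decide +kernel)
              (CovZ.leaf K2_ok TD_l8171 _)
              (CovZ.leaf K2_ok TD_l8172 _))
             (CovZ.leaf K2_ok TD_l8173 _)))
           (CovZ.n1 (26592, 32352) (by decide +kernel)
            (CovZ.leaf K2_ok TD_l8174 _)
            (CovZ.leaf K2_ok TD_l8175 _))))))))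

theorem TD_u181 : CovZ TD_M (toL (selN TD_LN 18348006973293925957345604166664390827558496737625690439860026699103294184052397644236959389273042736910402)) [0, 7, 6, 1] (26880, 32256) (27648, 32256) (26880, 33024) :=
    (CovZ.n1 (27264, 32640) (by decide +kernel)
      (CovZ.n2 (27264, 32256) (by decide +kernel)
       (CovZ.n2 (27072, 32448) (by decide +kernel)
        (CovZ.n2 (27264, 32448) (by decide +kernel)
         (CovZ.leaf K2_ok TD_l8176 _)
         (CovZ.n1 (27168, 32544) (by decide +kernel)
          (CovZ.leaf K2_ok TD_l8177 _)
          (CovZ.leaf K2_ok TD_l8178 _)))
        (CovZ.n1 (27072, 32256) (by decide +kernel)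
         (CovZ.leaf K2_ok TD_l8179 _)
         (CovZ.n1 (27168, 32352) (by decide +kernel)
          (CovZ.leaf K2_ok TD_l8180 _)
          (CovZ.leaf K2_ok TD_l8181 _))))
       (CovZ.n1 (27456, 32448) (by decide +kernel)
        (CovZ.n2 (27456, 32256) (by decide +kernel)
         (CovZ.leaf K2_ok TD_l8182 _)
         (CovZ.n1 (27552, 32352) (by decide +kernel)
          (CovZ.leaf K2_ok TD_l8183 _)
          (CovZ.leaf K2_ok TD_l8184 _)))
        (CovZ.n1 (27264, 32448) (by decide +kernel)
         (CovZ.n2 (27360, 32544) (by decide +kernel)
          (CovZ.leaf K2_ok TD_l8185 _)
          (CovZ.leaf K2_ok TD_l8186 _))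
         (CovZ.leaf K2_ok TD_l8187 _))))
      (CovZ.n1 (26880, 32640) (by decide +kernel)
       (CovZ.subM 17498022503996387948760236605952374990108626176787375259603734856669478040046479360457718875682770944 (by decide +kernel)
        (CovZ.n2 (27072, 32832) (by decide +kernel)
         (CovZ.n2 (27072, 32640) (by decide +kernel)
          (CovZ.n2 (26976, 32736) (by decide +kernel)
           (CovZ.n2 (27072, 32736) (by decide +kernel)
            (CovZ.n2 (27024, 32688) (by decide +kernel)
             (CovZ.leaf K2_ok TD_l8188 _)
             (CovZ.leaf K2_ok TD_l8189 _))
            (CovZ.n1 (27024, 32784) (by decide +kernel)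
             (CovZ.n2 (27072, 32784) (by decide +kernel)
              (CovZ.leaf K2_ok TD_l8190 _)
              (CovZ.leaf K2_ok TD_l8191 _))
             (CovZ.n1 (27024, 32736) (by decide +kernel)
              (CovZ.leaf K2_ok TD_l8192 _)
              (CovZ.leaf K2_ok TD_l8193 _))))
           (CovZ.n1 (26976, 32640) (by decide +kernel)
            (CovZ.leaf K2_ok TD_l8194 _)
            (CovZ.n1 (27024, 32688) (by decide +kernel)
             (CovZ.leaf K2_ok TD_l8195 _)
             (CovZ.leaf K2_ok TD_l8196 _))))
          (CovZ.n1 (27168, 32736) (by decide +kernel)
           (CovZ.n2 (27168, 32640) (by decide +kernel)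
            (CovZ.leaf K2_ok TD_l8197 _)
            (CovZ.n1 (27216, 32688) (by decide +kernel)
             (CovZ.leaf K2_ok TD_l8198 _)
             (CovZ.leaf K2_ok TD_l8199 _)))
           (CovZ.n1 (27072, 32736) (by decide +kernel)
            (CovZ.n2 (27120, 32784) (by decide +kernel)
             (CovZ.n2 (27120, 32736) (by decide +kernel)
              (CovZ.leaf K2_ok TD_l8200 _)
              (CovZ.leaf K2_ok TD_l8201 _))
             (CovZ.leaf K2_ok TD_l8202 _))
            (CovZ.leaf K2_ok TD_l8203 _))))
         (CovZ.n1 (26880, 32832) (by decide +kernel)
          (CovZ.subM 17498022503996137314115232691893555467894358302025543072650489446608894259230685136394573841608740864 (by decide +kernel)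
           (CovZ.n2 (26976, 32928) (by decide +kernel)
            (CovZ.n2 (26976, 32832) (by decide +kernel)
             (CovZ.n2 (26928, 32880) (by decide +kernel)
              (CovZ.subM 16703695005942785907401254644956900920622136609031992525004226274889022261528970053482853699584 (by decide +kernel)
               (CovZ.n2 (26976, 32880) (by decide +kernel)
                (CovZ.n2 (26952, 32856) (by decide +kernel)
                 (CovZ.leaf K2_ok TD_l17383 _)
                 (CovZ.leaf K2_ok TD_l8204 _))
                (CovZ.n1 (26952, 32904) (by decide +kernel)
                 (CovZ.leaf K2_ok TD_l17384 _)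
                 (CovZ.n1 (26952, 32880) (by decide +kernel)
                  (CovZ.leaf K2_ok TD_l17385 _)
                  (CovZ.leaf K2_ok TD_l17386 _)))))
              (CovZ.n1 (26928, 32832) (by decide +kernel)
               (CovZ.n2 (26904, 32856) (by decide +kernel)
                (CovZ.leaf K2_ok TD_l8205 _)
                (CovZ.leaf K2_ok TD_l8206 _))
               (CovZ.n1 (26952, 32856) (by decide +kernel)
                (CovZ.leaf K2_ok TD_l8207 _)
                (CovZ.leaf K2_ok TD_l8208 _))))
             (CovZ.n1 (27024, 32880) (by decide +kernel)
              (CovZ.n2 (27024, 32832) (by decide +kernel)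
               (CovZ.leaf K2_ok TD_l8209 _)
               (CovZ.n1 (27048, 32856) (by decide +kernel)
                (CovZ.leaf K2_ok TD_l8210 _)
                (CovZ.leaf K2_ok TD_l8211 _)))
              (CovZ.subM 16705732041919120393487523090645310298783188077425658461254883184525810782139247512174353977344 (by decide +kernel)
               (CovZ.n1 (26976, 32880) (by decide +kernel)
                (CovZ.n2 (27000, 32904) (by decide +kernel)
                 (CovZ.n2 (27000, 32880) (by decide +kernel)
                  (CovZ.leaf K2_ok TD_l17387 _)
                  (CovZ.leaf K2_ok TD_l17388 _))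
                 (CovZ.leaf K2_ok TD_l17389 _))
                (CovZ.leaf K2_ok TD_l8212 _)))))
            (CovZ.subM 16687398718132110018711107295130021984817503822239863259303604181523957282405350070659026259968 (by decide +kernel)
             (CovZ.n1 (26880, 32928) (by decide +kernel)
              (CovZ.badM (by decide +kernel))
              (CovZ.n1 (26928, 32880) (by decide +kernel)
               (CovZ.n2 (26880, 32880) (by decide +kernel)
                (CovZ.badM (by decide +kernel))
                (CovZ.leaf K2_ok TD_l8213 _))
               (CovZ.n1 (26928, 32928) (by decide +kernel)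
                (CovZ.leaf K2_ok TD_l17390 _)
                (CovZ.badM (by decide +kernel))))))))
          (CovZ.n1 (26976, 32736) (by decide +kernel)
           (CovZ.n2 (26880, 32736) (by decide +kernel)
            (CovZ.subM 16703695254604404112294575938545629292020779076171997622042214633171104445589861089434425888768 (by decide +kernel)
             (CovZ.n2 (26928, 32784) (by decide +kernel)
              (CovZ.n2 (26928, 32736) (by decide +kernel)
               (CovZ.leaf K2_ok TD_l8214 _)
               (CovZ.leaf K2_ok TD_l8215 _))
              (CovZ.n1 (26880, 32784) (by decide +kernel)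
               (CovZ.n2 (26904, 32808) (by decide +kernel)
                (CovZ.leaf K2_ok TD_l8216 _)
                (CovZ.leaf K2_ok TD_l8217 _))
               (CovZ.leaf K2_ok TD_l8218 _))))
            (CovZ.n1 (26928, 32688) (by decide +kernel)
             (CovZ.leaf K2_ok TD_l8219 _)
             (CovZ.n1 (26928, 32736) (by decide +kernel)
              (CovZ.leaf K2_ok TD_l8220 _)
              (CovZ.leaf K2_ok TD_l8221 _))))
           (CovZ.n1 (26976, 32832) (by decide +kernel)
            (CovZ.n2 (27024, 32784) (by decide +kernel)
             (CovZ.n2 (26976, 32784) (by decide +kernel)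
              (CovZ.n2 (27000, 32808) (by decide +kernel)
               (CovZ.leaf K2_ok TD_l8222 _)
               (CovZ.leaf K2_ok TD_l8223 _))
              (CovZ.leaf K2_ok TD_l8224 _))
             (CovZ.n1 (27024, 32832) (by decide +kernel)
              (CovZ.leaf K2_ok TD_l8225 _)
              (CovZ.n1 (27000, 32808) (by decide +kernel)
               (CovZ.leaf K2_ok TD_l8226 _)
               (CovZ.leaf K2_ok TD_l8227 _))))
            (CovZ.subM 16703695254604404112294575938545629292020779076171997622042214633171104445589861089434425888768 (by decide +kernel)
             (CovZ.n1 (26928, 32784) (by decide +kernel)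
              (CovZ.n2 (26928, 32832) (by decide +kernel)
               (CovZ.leaf K2_ok TD_l8228 _)
               (CovZ.n1 (26904, 32808) (by decide +kernel)
                (CovZ.leaf K2_ok TD_l8229 _)
                (CovZ.leaf K2_ok TD_l8230 _)))
              (CovZ.n1 (26976, 32784) (by decide +kernel)
               (CovZ.leaf K2_ok TD_l8231 _)
               (CovZ.leaf K2_ok TD_l8232 _)))))))))
       (CovZ.n1 (27072, 32448) (by decide +kernel)
        (CovZ.subM 17498022503996387918402329818011092554800477420696887510562424084177438316417966400082184642984153088 (by decide +kernel)
         (CovZ.n2 (26880, 32448) (by decide +kernel)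
          (CovZ.n2 (26976, 32544) (by decide +kernel)
           (CovZ.n2 (26976, 32448) (by decide +kernel)
            (CovZ.leaf K2_ok TD_l8233 _)
            (CovZ.leaf K2_ok TD_l8234 _))
           (CovZ.n1 (26880, 32544) (by decide +kernel)
            (CovZ.n2 (26928, 32592) (by decide +kernel)
             (CovZ.leaf K2_ok TD_l8235 _)
             (CovZ.leaf K2_ok TD_l8236 _))
            (CovZ.leaf K2_ok TD_l8237 _)))
          (CovZ.leaf K2_ok TD_l8238 _)))
        (CovZ.subM 17498022503996387948760236605952374990108626176787375259603734901863392156010448252550550571944251392 (by decide +kernel)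
         (CovZ.n1 (27072, 32640) (by decide +kernel)
          (CovZ.n2 (27168, 32544) (by decide +kernel)
           (CovZ.leaf K2_ok TD_l8239 _)
           (CovZ.leaf K2_ok TD_l8240 _))
          (CovZ.n1 (26976, 32544) (by decide +kernel)
           (CovZ.n2 (26976, 32640) (by decide +kernel)
            (CovZ.leaf K2_ok TD_l8241 _)
            (CovZ.leaf K2_ok TD_l8242 _))
           (CovZ.leaf K2_ok TD_l8243 _)))))))

theorem TD_u182 : CovZ TD_M (toL (selN TD_LN 550700453988112975398385944168291552544769175116751009649996826037164982577800296814532854288448)) [0, 7, 6, 1] (26112, 32256) (26496, 32640) (26112, 33024) :=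
    (CovZ.n2 (26112, 32640) (by decide +kernel)
        (CovZ.subM 16296287810675888690147565513857043517696571317948760585394860609055213172581102705154719808 (by decide +kernel)
         (CovZ.n2 (26304, 32832) (by decide +kernel)
          (CovZ.n2 (26304, 32640) (by decide +kernel)
           (CovZ.n2 (26208, 32736) (by decide +kernel)
            (CovZ.subM 16296287810675888690147565513857043517696571317948760574428729643829657220976075669870215168 (by decide +kernel)
             (CovZ.n2 (26304, 32736) (by decide +kernel)
              (CovZ.n2 (26256, 32688) (by decide +kernel)
               (CovZ.n2 (26256, 32736) (by decide +kernel)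
                (CovZ.leaf K2_ok TD_l8244 _)
                (CovZ.n1 (26232, 32712) (by decide +kernel)
                 (CovZ.badM (by decide +kernel))
                 (CovZ.leaf K2_ok TD_l8245 _)))
               (CovZ.n1 (26304, 32688) (by decide +kernel)
                (CovZ.n2 (26280, 32664) (by decide +kernel)
                 (CovZ.leaf K2_ok TD_l8246 _)
                 (CovZ.leaf K2_ok TD_l8247 _))
                (CovZ.n1 (26280, 32712) (by decide +kernel)
                 (CovZ.leaf K2_ok TD_l8248 _)
                 (CovZ.leaf K2_ok TD_l8249 _))))
              (CovZ.badM (by decide +kernel))))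
            (CovZ.n1 (26208, 32640) (by decide +kernel)
             (CovZ.subM 16296287810675888690147565513857043517696571317948760574428729643829657220687845293718503488 (by decide +kernel)
              (CovZ.n2 (26160, 32688) (by decide +kernel)
               (CovZ.n2 (26208, 32688) (by decide +kernel)
                (CovZ.n2 (26184, 32664) (by decide +kernel)
                 (CovZ.leaf K2_ok TD_l8250 _)
                 (CovZ.leaf K2_ok TD_l8251 _))
                (CovZ.badM (by decide +kernel)))
               (CovZ.n1 (26160, 32640) (by decide +kernel)
                (CovZ.n2 (26136, 32664) (by decide +kernel)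
                 (CovZ.leaf K2_ok TD_l8252 _)
                 (CovZ.leaf K2_ok TD_l8253 _))
                (CovZ.n1 (26184, 32664) (by decide +kernel)
                 (CovZ.leaf K2_ok TD_l8254 _)
                 (CovZ.leaf K2_ok TD_l8255 _)))))
             (CovZ.subM 16296287810675888690147565513857043517696571317948760574428729643829657220976075669870215168 (by decide +kernel)
              (CovZ.n1 (26256, 32688) (by decide +kernel)
               (CovZ.n2 (26256, 32640) (by decide +kernel)
                (CovZ.leaf K2_ok TD_l8256 _)
                (CovZ.n1 (26280, 32664) (by decide +kernel)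
                 (CovZ.leaf K2_ok TD_l8257 _)
                 (CovZ.leaf K2_ok TD_l8258 _)))
               (CovZ.n1 (26208, 32688) (by decide +kernel)
                (CovZ.n2 (26232, 32712) (by decide +kernel)
                 (CovZ.leaf K2_ok TD_l8259 _)
                 (CovZ.badM (by decide +kernel)))
                (CovZ.leaf K2_ok TD_l8260 _))))))
           (CovZ.n1 (26400, 32736) (by decide +kernel)
            (CovZ.n2 (26400, 32640) (by decide +kernel)
             (CovZ.n2 (26352, 32688) (by decide +kernel)
              (CovZ.n2 (26400, 32688) (by decide +kernel)
               (CovZ.n2 (26376, 32664) (by decide +kernel)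
                (CovZ.leaf K2_ok TD_l8261 _)
                (CovZ.leaf K2_ok TD_l8262 _))
               (CovZ.leaf K2_ok TD_l8263 _))
              (CovZ.n1 (26352, 32640) (by decide +kernel)
               (CovZ.leaf K2_ok TD_l8264 _)
               (CovZ.n1 (26376, 32664) (by decide +kernel)
                (CovZ.leaf K2_ok TD_l8265 _)
                (CovZ.leaf K2_ok TD_l8266 _))))
             (CovZ.n1 (26448, 32688) (by decide +kernel)
              (CovZ.n2 (26448, 32640) (by decide +kernel)
               (CovZ.leaf K2_ok TD_l8267 _)
               (CovZ.leaf K2_ok TD_l8268 _))
              (CovZ.n1 (26400, 32688) (by decide +kernel)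
               (CovZ.n2 (26424, 32712) (by decide +kernel)
                (CovZ.leaf K2_ok TD_l8269 _)
                (CovZ.leaf K2_ok TD_l8270 _))
               (CovZ.leaf K2_ok TD_l8271 _))))
            (CovZ.subM 16296287810675888690147565513857043517696571317948760574428729643829657220976075669870215168 (by decide +kernel)
             (CovZ.n1 (26304, 32736) (by decide +kernel)
              (CovZ.subM 262144 (by decide +kernel)
               (CovZ.n2 (26352, 32784) (by decide +kernel)
                (CovZ.n2 (26352, 32736) (by decide +kernel)
                 (CovZ.badM (by decide +kernel))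
                 (CovZ.n1 (26376, 32760) (by decide +kernel)
                  (CovZ.leaf K2_ok TD_l8272 _)
                  (CovZ.badM (by decide +kernel))))
                (CovZ.badM (by decide +kernel))))
              (CovZ.n1 (26352, 32688) (by decide +kernel)
               (CovZ.n2 (26304, 32688) (by decide +kernel)
                (CovZ.n2 (26328, 32712) (by decide +kernel)
                 (CovZ.leaf K2_ok TD_l8274 _)
                 (CovZ.leaf K2_ok TD_l8275 _))
                (CovZ.leaf K2_ok TD_l8276 _))
               (CovZ.n1 (26352, 32736) (by decide +kernel)
                (CovZ.leaf K2_ok TD_l8277 _)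
                (CovZ.n1 (26328, 32712) (by decide +kernel)
                 (CovZ.leaf K2_ok TD_l8278 _)
                 (CovZ.leaf K2_ok TD_l8279 _))))))))
          (CovZ.subM 16296287810675888690147565513857043517696571317948760574428729643829657220687845293718503488 (by decide +kernel)
           (CovZ.n1 (26112, 32832) (by decide +kernel)
            (CovZ.badM (by decide +kernel))
            (CovZ.n1 (26208, 32736) (by decide +kernel)
             (CovZ.n2 (26112, 32736) (by decide +kernel)
              (CovZ.badM (by decide +kernel))
              (CovZ.n1 (26160, 32688) (by decide +kernel)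
               (CovZ.n2 (26112, 32688) (by decide +kernel)
                (CovZ.badM (by decide +kernel))
                (CovZ.leaf K2_ok TD_l8280 _))
               (CovZ.badM (by decide +kernel))))
             (CovZ.badM (by decide +kernel)))))))
        (CovZ.n1 (26304, 32448) (by decide +kernel)
         (CovZ.subM 534013055268038196487449107802031442462852993755482627955662144772306294699227358751808791248960 (by decide +kernel)
          (CovZ.n2 (26112, 32448) (by decide +kernel)
           (CovZ.n2 (26208, 32544) (by decide +kernel)
            (CovZ.n2 (26208, 32448) (by decide +kernel)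
             (CovZ.leaf K2_ok TD_l8281 _)
             (CovZ.n1 (26256, 32496) (by decide +kernel)
              (CovZ.leaf K2_ok TD_l8282 _)
              (CovZ.leaf K2_ok TD_l8283 _)))
            (CovZ.n1 (26112, 32544) (by decide +kernel)
             (CovZ.n2 (26160, 32592) (by decide +kernel)
              (CovZ.n2 (26160, 32544) (by decide +kernel)
               (CovZ.leaf K2_ok TD_l8284 _)
               (CovZ.leaf K2_ok TD_l8285 _))
              (CovZ.n1 (26112, 32592) (by decide +kernel)
               (CovZ.n2 (26136, 32616) (by decide +kernel)
                (CovZ.leaf K2_ok TD_l8286 _)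
                (CovZ.leaf K2_ok TD_l8287 _))
               (CovZ.leaf K2_ok TD_l8288 _)))
             (CovZ.leaf K2_ok TD_l8289 _)))
           (CovZ.n1 (26208, 32352) (by decide +kernel)
            (CovZ.leaf K2_ok TD_l8290 _)
            (CovZ.leaf K2_ok TD_l8291 _))))
         (CovZ.subM 16296287810675888690147565513857043517696571317949457483682476950305215377140519011228057664 (by decide +kernel)
          (CovZ.n1 (26304, 32640) (by decide +kernel)
           (CovZ.n2 (26400, 32544) (by decide +kernel)
            (CovZ.n2 (26304, 32544) (by decide +kernel)
             (CovZ.n2 (26352, 32592) (by decide +kernel)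
              (CovZ.leaf K2_ok TD_l8292 _)
              (CovZ.leaf K2_ok TD_l8293 _))
             (CovZ.leaf K2_ok TD_l8294 _))
            (CovZ.n1 (26400, 32640) (by decide +kernel)
             (CovZ.n2 (26448, 32592) (by decide +kernel)
              (CovZ.leaf K2_ok TD_l8295 _)
              (CovZ.leaf K2_ok TD_l8296 _))
             (CovZ.n1 (26352, 32592) (by decide +kernel)
              (CovZ.leaf K2_ok TD_l8297 _)
              (CovZ.leaf K2_ok TD_l8298 _))))
           (CovZ.n1 (26208, 32544) (by decide +kernel)
            (CovZ.n2 (26208, 32640) (by decide +kernel)
             (CovZ.n2 (26256, 32592) (by decide +kernel)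
              (CovZ.leaf K2_ok TD_l8299 _)
              (CovZ.leaf K2_ok TD_l8300 _))
             (CovZ.n1 (26160, 32592) (by decide +kernel)
              (CovZ.n2 (26160, 32640) (by decide +kernel)
               (CovZ.leaf K2_ok TD_l8301 _)
               (CovZ.n1 (26136, 32616) (by decide +kernel)
                (CovZ.leaf K2_ok TD_l8302 _)
                (CovZ.leaf K2_ok TD_l8303 _)))
              (CovZ.leaf K2_ok TD_l8304 _)))
            (CovZ.n1 (26304, 32544) (by decide +kernel)
             (CovZ.leaf K2_ok TD_l8305 _)
             (CovZ.n1 (26256, 32592) (by decide +kernel)
              (CovZ.leaf K2_ok TD_l8306 _)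
              (CovZ.leaf K2_ok TD_l8307 _))))))))

theorem TD_u183 : CovZ TD_M (toL (selN TD_LN 550700453988112975398385944168291552544769175116751009649996826037164982577800296814532854288448)) [0, 7, 6, 1] (26496, 32640) (26880, 33024) (26112, 33024) :=
    (CovZ.n1 (26496, 33024) (by decide +kernel)
        (CovZ.n2 (26688, 32832) (by decide +kernel)
         (CovZ.subM 16296289753344780915876636433318950341215477960355599637700535360340737395598363792898260992 (by decide +kernel)
          (CovZ.n2 (26496, 32832) (by decide +kernel)
           (CovZ.subM 1942668892225729070919461906823518906642406839052139521251812409738904285205208760320 (by decide +kernel)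
            (CovZ.n2 (26592, 32928) (by decide +kernel)
             (CovZ.n2 (26592, 32832) (by decide +kernel)
              (CovZ.badM (by decide +kernel))
              (CovZ.n1 (26640, 32880) (by decide +kernel)
               (CovZ.n2 (26640, 32832) (by decide +kernel)
                (CovZ.badM (by decide +kernel))
                (CovZ.n1 (26664, 32856) (by decide +kernel)
                 (CovZ.n2 (26664, 32832) (by decide +kernel)
                  (CovZ.badM (by decide +kernel))
                  (CovZ.leaf K2_ok TD_l17391 _))
                 (CovZ.badM (by decide +kernel))))
               (CovZ.badM (by decide +kernel))))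
             (CovZ.badM (by decide +kernel))))
           (CovZ.n1 (26592, 32736) (by decide +kernel)
            (CovZ.n2 (26496, 32736) (by decide +kernel)
             (CovZ.subM 16296287810675888690147565513857043517696571317947366746284656579991559257118617465616859136 (by decide +kernel)
              (CovZ.n2 (26544, 32784) (by decide +kernel)
               (CovZ.n2 (26544, 32736) (by decide +kernel)
                (CovZ.n2 (26520, 32760) (by decide +kernel)
                 (CovZ.leaf K2_ok TD_l8308 _)
                 (CovZ.leaf K2_ok TD_l8309 _))
                (CovZ.n1 (26568, 32760) (by decide +kernel)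
                 (CovZ.leaf K2_ok TD_l8310 _)
                 (CovZ.leaf K2_ok TD_l8311 _)))
               (CovZ.n1 (26496, 32784) (by decide +kernel)
                (CovZ.n2 (26520, 32808) (by decide +kernel)
                 (CovZ.leaf K2_ok TD_l17392 _)
                 (CovZ.leaf K2_ok TD_l17393 _))
                (CovZ.leaf K2_ok TD_l8312 _))))
             (CovZ.n1 (26544, 32688) (by decide +kernel)
              (CovZ.n2 (26496, 32688) (by decide +kernel)
               (CovZ.n2 (26520, 32712) (by decide +kernel)
                (CovZ.leaf K2_ok TD_l8313 _)
                (CovZ.leaf K2_ok TD_l8314 _))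
               (CovZ.leaf K2_ok TD_l8315 _))
              (CovZ.n1 (26544, 32736) (by decide +kernel)
               (CovZ.leaf K2_ok TD_l8316 _)
               (CovZ.n1 (26520, 32712) (by decide +kernel)
                (CovZ.leaf K2_ok TD_l8317 _)
                (CovZ.leaf K2_ok TD_l8318 _)))))
            (CovZ.subM 16296289753344780915876636433318950341215477960354205787956507364997756496905422071117643776 (by decide +kernel)
             (CovZ.n1 (26592, 32832) (by decide +kernel)
              (CovZ.n2 (26640, 32784) (by decide +kernel)
               (CovZ.n2 (26592, 32784) (by decide +kernel)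
                (CovZ.n2 (26616, 32808) (by decide +kernel)
                 (CovZ.n2 (26616, 32784) (by decide +kernel)
                  (CovZ.leaf K2_ok TD_l17394 _)
                  (CovZ.leaf K2_ok TD_l17395 _))
                 (CovZ.leaf K2_ok TD_l17396 _))
                (CovZ.leaf K2_ok TD_l8319 _))
               (CovZ.subM 1942668892225729070919461906823518906642406839052471828250758638707130236970278584320 (by decide +kernel)
                (CovZ.n1 (26640, 32832) (by decide +kernel)
                 (CovZ.leaf K2_ok TD_l17397 _)
                 (CovZ.n1 (26616, 32808) (by decide +kernel)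
                  (CovZ.n2 (26616, 32832) (by decide +kernel)
                   (CovZ.leaf K2_ok TD_l17398 _)
                   (CovZ.leaf K2_ok TD_l17399 _))
                  (CovZ.leaf K2_ok TD_l17400 _)))))
              (CovZ.n1 (26544, 32784) (by decide +kernel)
               (CovZ.subM 332306998946228968225951765070348288 (by decide +kernel)
                (CovZ.n2 (26544, 32832) (by decide +kernel)
                 (CovZ.n2 (26568, 32808) (by decide +kernel)
                  (CovZ.leaf K2_ok TD_l17401 _)
                  (CovZ.badM (by decide +kernel)))
                 (CovZ.n1 (26520, 32808) (by decide +kernel)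
                  (CovZ.badM (by decide +kernel))
                  (CovZ.leaf K2_ok TD_l17402 _))))
               (CovZ.n1 (26592, 32784) (by decide +kernel)
                (CovZ.n2 (26568, 32760) (by decide +kernel)
                 (CovZ.leaf K2_ok TD_l8320 _)
                 (CovZ.leaf K2_ok TD_l8321 _))
                (CovZ.subM 332306998946228968225951765070086144 (by decide +kernel)
                 (CovZ.n1 (26568, 32808) (by decide +kernel)
                  (CovZ.n2 (26592, 32808) (by decide +kernel)
                   (CovZ.leaf K2_ok TD_l17403 _)
                   (CovZ.badM (by decide +kernel)))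
                  (CovZ.n1 (26568, 32784) (by decide +kernel)
                   (CovZ.leaf K2_ok TD_l17404 _)
                   (CovZ.leaf K2_ok TD_l17405 _)))))))))))
         (CovZ.subM 215891020672820989114724349548098054556868327925734148728628810354688 (by decide +kernel)
          (CovZ.n1 (26688, 33024) (by decide +kernel)
           (CovZ.n2 (26784, 32928) (by decide +kernel)
            (CovZ.n2 (26688, 32928) (by decide +kernel)
             (CovZ.badM (by decide +kernel))
             (CovZ.n1 (26736, 32880) (by decide +kernel)
              (CovZ.badM (by decide +kernel))
              (CovZ.badM (by decide +kernel))))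
            (CovZ.n1 (26784, 33024) (by decide +kernel)
             (CovZ.n2 (26832, 32976) (by decide +kernel)
              (CovZ.badM (by decide +kernel))
              (CovZ.badM (by decide +kernel)))
             (CovZ.badM (by decide +kernel))))
           (CovZ.n1 (26592, 32928) (by decide +kernel)
            (CovZ.badM (by decide +kernel))
            (CovZ.badM (by decide +kernel))))))
        (CovZ.subM 16296287810675888690147565513857043517696571317948760585394860609055213172581102705154719808 (by decide +kernel)
         (CovZ.n1 (26304, 32832) (by decide +kernel)
          (CovZ.n2 (26304, 33024) (by decide +kernel)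
           (CovZ.n2 (26400, 32928) (by decide +kernel)
            (CovZ.badM (by decide +kernel))
            (CovZ.badM (by decide +kernel)))
           (CovZ.badM (by decide +kernel)))
          (CovZ.n1 (26496, 32832) (by decide +kernel)
           (CovZ.n2 (26400, 32736) (by decide +kernel)
            (CovZ.subM 10966130965225555951456408247313104896 (by decide +kernel)
             (CovZ.n2 (26400, 32832) (by decide +kernel)
              (CovZ.n2 (26448, 32784) (by decide +kernel)
               (CovZ.n2 (26400, 32784) (by decide +kernel)
                (CovZ.badM (by decide +kernel))
                (CovZ.n1 (26424, 32760) (by decide +kernel)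
                 (CovZ.leaf K2_ok TD_l8322 _)
                 (CovZ.n1 (26424, 32784) (by decide +kernel)
                  (CovZ.leaf K2_ok TD_l17408 _)
                  (CovZ.badM (by decide +kernel)))))
               (CovZ.n1 (26448, 32832) (by decide +kernel)
                (CovZ.n2 (26472, 32808) (by decide +kernel)
                 (CovZ.badM (by decide +kernel))
                 (CovZ.badM (by decide +kernel)))
                (CovZ.badM (by decide +kernel))))
              (CovZ.n1 (26352, 32784) (by decide +kernel)
               (CovZ.badM (by decide +kernel))
               (CovZ.n1 (26400, 32784) (by decide +kernel)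
                (CovZ.n2 (26376, 32760) (by decide +kernel)
                 (CovZ.badM (by decide +kernel))
                 (CovZ.leaf K2_ok TD_l8324 _))
                (CovZ.badM (by decide +kernel))))))
            (CovZ.n1 (26496, 32736) (by decide +kernel)
             (CovZ.n2 (26448, 32688) (by decide +kernel)
              (CovZ.n2 (26448, 32736) (by decide +kernel)
               (CovZ.leaf K2_ok TD_l8325 _)
               (CovZ.n1 (26424, 32712) (by decide +kernel)
                (CovZ.leaf K2_ok TD_l8326 _)
                (CovZ.leaf K2_ok TD_l8327 _)))
              (CovZ.n1 (26496, 32688) (by decide +kernel)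
               (CovZ.n2 (26472, 32664) (by decide +kernel)
                (CovZ.leaf K2_ok TD_l8328 _)
                (CovZ.leaf K2_ok TD_l8329 _))
               (CovZ.leaf K2_ok TD_l8330 _)))
             (CovZ.subM 16296287810675888690147565507275025288411747149327490016055254560060606349563101896780283904 (by decide +kernel)
              (CovZ.n1 (26448, 32784) (by decide +kernel)
               (CovZ.n2 (26496, 32784) (by decide +kernel)
                (CovZ.n2 (26472, 32760) (by decide +kernel)
                 (CovZ.leaf K2_ok TD_l8331 _)
                 (CovZ.leaf K2_ok TD_l8332 _))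
                (CovZ.n1 (26472, 32808) (by decide +kernel)
                 (CovZ.leaf K2_ok TD_l17409 _)
                 (CovZ.n1 (26472, 32784) (by decide +kernel)
                  (CovZ.leaf K2_ok TD_l17410 _)
                  (CovZ.leaf K2_ok TD_l17411 _))))
               (CovZ.n1 (26448, 32736) (by decide +kernel)
                (CovZ.n2 (26424, 32760) (by decide +kernel)
                 (CovZ.leaf K2_ok TD_l8333 _)
                 (CovZ.leaf K2_ok TD_l8334 _))
                (CovZ.n1 (26472, 32760) (by decide +kernel)
                 (CovZ.leaf K2_ok TD_l8335 _)
                 (CovZ.leaf K2_ok TD_l8336 _)))))))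
           (CovZ.subM 10633823966279326983230456482242756608 (by decide +kernel)
            (CovZ.n1 (26400, 32928) (by decide +kernel)
             (CovZ.badM (by decide +kernel))
             (CovZ.n1 (26400, 32832) (by decide +kernel)
              (CovZ.badM (by decide +kernel))
              (CovZ.n1 (26448, 32880) (by decide +kernel)
               (CovZ.n2 (26448, 32832) (by decide +kernel)
                (CovZ.badM (by decide +kernel))
                (CovZ.badM (by decide +kernel)))
               (CovZ.badM (by decide +kernel))))))))))

end Pool.Agent.TET
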