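import Pool.Agent.Helper38_TET.TD_M
import Pool.Agent.Helper38_TET.TD_L
import Pool.Agent.Helper38_TET.TD_66
import Pool.Agent.Helper38_TET.TD_67
import Pool.Agent.Helper38_TET.TD_68
import Pool.Agent.Helper38_TET.TD_80
import Pool.Agent.Helper38_TET.TD_81
import Pool.Agent.Helper38_TET.TD_82
import Pool.Agent.Helper38_TET.TD_83
import Pool.Agent.Helper38_TET.TD_95
import Pool.Agent.Helper38_TET.TD_96
import Pool.Agent.Helper38_TET.TD_120
import Pool.Agent.Helper38_TET.TD_125
import Pool.Agent.Helper38_TET.TD_126

/-!
# MP_c7c9bf_co: certificates, family TD
-/

set_option autoImplicit false
set_option maxRecDepth 100000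

namespace Pool.Agent.TET

theorem TD_u184 : CovZ TD_M (toL (selN TD_LN 10321024457773116968716789017740849034145671204153610762199394646921627773549595640552803477215547139559442)) [0, 7, 6, 1] (28416, 33024) (28800, 33024) (28800, 33408) :=
    (CovZ.n2 (28608, 33216) (by decide +kernel)
         (CovZ.subM 10321024423597324393982227699419992883478181195823418414765968314841771639739359310088998496286107546681344 (by decide +kernel)
          (CovZ.n2 (28800, 33216) (by decide +kernel)
           (CovZ.n2 (28704, 33120) (by decide +kernel)
            (CovZ.subM 1147029412790978280277746076787311262765227415260979251304157558105728621336825297727080468484600297947136 (by decide +kernel)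
             (CovZ.n2 (28704, 33216) (by decide +kernel)
              (CovZ.n2 (28752, 33168) (by decide +kernel)
               (CovZ.n2 (28704, 33168) (by decide +kernel)
                (CovZ.badM (by decide +kernel))
                (CovZ.leaf K2_ok TD_l10006 _))
               (CovZ.badM (by decide +kernel)))
              (CovZ.n1 (28656, 33168) (by decide +kernel)
               (CovZ.badM (by decide +kernel))
               (CovZ.n1 (28704, 33168) (by decide +kernel)
                (CovZ.n2 (28680, 33144) (by decide +kernel)
                 (CovZ.badM (by decide +kernel))
                 (CovZ.leaf K2_ok TD_l10007 _))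
                (CovZ.badM (by decide +kernel))))))
            (CovZ.n1 (28800, 33120) (by decide +kernel)
             (CovZ.n2 (28752, 33072) (by decide +kernel)
              (CovZ.n2 (28752, 33120) (by decide +kernel)
               (CovZ.leaf K2_ok TD_l10008 _)
               (CovZ.n1 (28728, 33096) (by decide +kernel)
                (CovZ.leaf K2_ok TD_l10009 _)
                (CovZ.leaf K2_ok TD_l10010 _)))
              (CovZ.n1 (28800, 33072) (by decide +kernel)
               (CovZ.leaf K2_ok TD_l10011 _)
               (CovZ.leaf K2_ok TD_l10012 _)))
             (CovZ.subM 1147029412790978280277746076787325397541745642323061714213390139926183662361584969848975700663012230692864 (by decide +kernel)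
              (CovZ.n1 (28752, 33168) (by decide +kernel)
               (CovZ.n2 (28800, 33168) (by decide +kernel)
                (CovZ.n2 (28776, 33144) (by decide +kernel)
                 (CovZ.leaf K2_ok TD_l10013 _)
                 (CovZ.leaf K2_ok TD_l10014 _))
                (CovZ.badM (by decide +kernel)))
               (CovZ.n1 (28752, 33120) (by decide +kernel)
                (CovZ.n2 (28728, 33144) (by decide +kernel)
                 (CovZ.leaf K2_ok TD_l10015 _)
                 (CovZ.leaf K2_ok TD_l10016 _))
                (CovZ.n1 (28776, 33144) (by decide +kernel)
                 (CovZ.leaf K2_ok TD_l10017 _)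
                 (CovZ.leaf K2_ok TD_l10018 _)))))))
           (CovZ.badM (by decide +kernel))))
         (CovZ.n1 (28608, 33024) (by decide +kernel)
          (CovZ.n2 (28512, 33120) (by decide +kernel)
           (CovZ.subM 10320744352977174444244453388604581241778726283489326276188036817642397417355015994382758820953237479227392 (by decide +kernel)
            (CovZ.n2 (28608, 33120) (by decide +kernel)
             (CovZ.n2 (28560, 33072) (by decide +kernel)
              (CovZ.n2 (28560, 33120) (by decide +kernel)
               (CovZ.leaf K2_ok TD_l17920 _)
               (CovZ.n1 (28536, 33096) (by decide +kernel)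
                (CovZ.leaf K2_ok TD_l17921 _)
                (CovZ.leaf K2_ok TD_l17922 _)))
              (CovZ.n1 (28608, 33072) (by decide +kernel)
               (CovZ.n2 (28584, 33048) (by decide +kernel)
                (CovZ.leaf K2_ok TD_l10019 _)
                (CovZ.leaf K2_ok TD_l10020 _))
               (CovZ.leaf K2_ok TD_l10021 _)))
             (CovZ.badM (by decide +kernel))))
           (CovZ.n1 (28512, 33024) (by decide +kernel)
            (CovZ.n2 (28464, 33072) (by decide +kernel)
             (CovZ.n2 (28512, 33072) (by decide +kernel)
              (CovZ.n2 (28488, 33048) (by decide +kernel)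
               (CovZ.leaf K2_ok TD_l10022 _)
               (CovZ.leaf K2_ok TD_l10023 _))
              (CovZ.leaf K2_ok TD_l17923 _))
             (CovZ.n1 (28464, 33024) (by decide +kernel)
              (CovZ.leaf K2_ok TD_l10024 _)
              (CovZ.n1 (28488, 33048) (by decide +kernel)
               (CovZ.leaf K2_ok TD_l10025 _)
               (CovZ.leaf K2_ok TD_l10026 _))))
            (CovZ.subM 10320744352977174444244453388604581241778726283489326276188036817642397417355015994382758820953237479227392 (by decide +kernel)
             (CovZ.n1 (28560, 33072) (by decide +kernel)
              (CovZ.n2 (28560, 33024) (by decide +kernel)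
               (CovZ.leaf K2_ok TD_l10027 _)
               (CovZ.leaf K2_ok TD_l10028 _))
              (CovZ.n1 (28512, 33072) (by decide +kernel)
               (CovZ.n2 (28536, 33096) (by decide +kernel)
                (CovZ.leaf K2_ok TD_l17924 _)
                (CovZ.leaf K2_ok TD_l17925 _))
               (CovZ.leaf K2_ok TD_l10029 _))))))
          (CovZ.subM 10321024423597324393982227699419992883478181195823418414765968314841771639739359310088998496286107546681344 (by decide +kernel)
           (CovZ.n1 (28704, 33120) (by decide +kernel)
            (CovZ.n2 (28704, 33024) (by decide +kernel)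
             (CovZ.n2 (28656, 33072) (by decide +kernel)
              (CovZ.n2 (28704, 33072) (by decide +kernel)
               (CovZ.n2 (28680, 33048) (by decide +kernel)
                (CovZ.leaf K2_ok TD_l10030 _)
                (CovZ.leaf K2_ok TD_l10031 _))
               (CovZ.leaf K2_ok TD_l10032 _))
              (CovZ.n1 (28656, 33024) (by decide +kernel)
               (CovZ.leaf K2_ok TD_l10033 _)
               (CovZ.leaf K2_ok TD_l10034 _)))
             (CovZ.n1 (28752, 33072) (by decide +kernel)
              (CovZ.n2 (28752, 33024) (by decide +kernel)
               (CovZ.leaf K2_ok TD_l10035 _)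
               (CovZ.n1 (28776, 33048) (by decide +kernel)
                (CovZ.leaf K2_ok TD_l10036 _)
                (CovZ.leaf K2_ok TD_l10037 _)))
              (CovZ.n1 (28704, 33072) (by decide +kernel)
               (CovZ.n2 (28728, 33096) (by decide +kernel)
                (CovZ.leaf K2_ok TD_l10038 _)
                (CovZ.leaf K2_ok TD_l10039 _))
               (CovZ.leaf K2_ok TD_l10040 _))))
            (CovZ.n1 (28608, 33120) (by decide +kernel)
             (CovZ.subM 1147029276087807981331730127937019151630214233060595744851810654138857162629755598127129649874205900013568 (by decide +kernel)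
              (CovZ.n2 (28656, 33168) (by decide +kernel)
               (CovZ.n2 (28656, 33120) (by decide +kernel)
                (CovZ.n2 (28632, 33144) (by decide +kernel)
                 (CovZ.leaf K2_ok TD_l17926 _)
                 (CovZ.leaf K2_ok TD_l17927 _))
                (CovZ.n1 (28680, 33144) (by decide +kernel)
                 (CovZ.leaf K2_ok TD_l10041 _)
                 (CovZ.leaf K2_ok TD_l10042 _)))
               (CovZ.n1 (28608, 33168) (by decide +kernel)
                (CovZ.badM (by decide +kernel))
                (CovZ.n1 (28632, 33144) (by decide +kernel)
                 (CovZ.badM (by decide +kernel))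
                 (CovZ.badM (by decide +kernel))))))
             (CovZ.n1 (28656, 33072) (by decide +kernel)
              (CovZ.n2 (28608, 33072) (by decide +kernel)
               (CovZ.n2 (28632, 33096) (by decide +kernel)
                (CovZ.leaf K2_ok TD_l10043 _)
                (CovZ.leaf K2_ok TD_l10044 _))
               (CovZ.leaf K2_ok TD_l10045 _))
              (CovZ.n1 (28656, 33120) (by decide +kernel)
               (CovZ.leaf K2_ok TD_l10046 _)
               (CovZ.n1 (28632, 33096) (by decide +kernel)
                (CovZ.leaf K2_ok TD_l17928 _)
                (CovZ.leaf K2_ok TD_l10047 _)))))))))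

theorem TD_u185 : CovZ TD_M (toL (selN TD_LN 10321024457773116968716789017740849034145671204153610762199394646921627773549595640552803477215547139559442)) [0, 7, 6, 1] (28800, 33024) (29184, 33024) (28800, 33408) :=
    (CovZ.subM 1147029959637038347538944118211645120291921239137739716344839595766408556537717282495437132529395298729984 (by decide +kernel)
         (CovZ.n1 (28992, 33216) (by decide +kernel)
          (CovZ.n2 (28992, 33024) (by decide +kernel)
           (CovZ.n2 (28896, 33120) (by decide +kernel)
            (CovZ.n2 (28992, 33120) (by decide +kernel)
             (CovZ.n2 (28944, 33072) (by decide +kernel)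
              (CovZ.n2 (28944, 33120) (by decide +kernel)
               (CovZ.leaf K2_ok TD_l10048 _)
               (CovZ.n1 (28920, 33096) (by decide +kernel)
                (CovZ.leaf K2_ok TD_l10049 _)
                (CovZ.leaf K2_ok TD_l10050 _)))
              (CovZ.n1 (28992, 33072) (by decide +kernel)
               (CovZ.leaf K2_ok TD_l10051 _)
               (CovZ.n1 (28968, 33096) (by decide +kernel)
                (CovZ.leaf K2_ok TD_l10052 _)
                (CovZ.leaf K2_ok TD_l10053 _))))
             (CovZ.subM 1147029412824353077706239621255844695416967046486434896748643212100397629398799879225575550655201328234496 (by decide +kernel)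
              (CovZ.n1 (28944, 33168) (by decide +kernel)
               (CovZ.n2 (28992, 33168) (by decide +kernel)
                (CovZ.n2 (28968, 33144) (by decide +kernel)
                 (CovZ.badM (by decide +kernel))
                 (CovZ.leaf K2_ok TD_l10054 _))
                (CovZ.badM (by decide +kernel)))
               (CovZ.n1 (28944, 33120) (by decide +kernel)
                (CovZ.n2 (28920, 33144) (by decide +kernel)
                 (CovZ.leaf K2_ok TD_l10055 _)
                 (CovZ.leaf K2_ok TD_l10056 _))
                (CovZ.n1 (28968, 33144) (by decide +kernel)
                 (CovZ.leaf K2_ok TD_l10057 _)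
                 (CovZ.leaf K2_ok TD_l10058 _))))))
            (CovZ.n1 (28896, 33024) (by decide +kernel)
             (CovZ.n2 (28848, 33072) (by decide +kernel)
              (CovZ.n2 (28896, 33072) (by decide +kernel)
               (CovZ.leaf K2_ok TD_l10059 _)
               (CovZ.leaf K2_ok TD_l10060 _))
              (CovZ.n1 (28848, 33024) (by decide +kernel)
               (CovZ.leaf K2_ok TD_l10061 _)
               (CovZ.leaf K2_ok TD_l10062 _)))
             (CovZ.n1 (28944, 33072) (by decide +kernel)
              (CovZ.n2 (28944, 33024) (by decide +kernel)
               (CovZ.leaf K2_ok TD_l10063 _)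
               (CovZ.leaf K2_ok TD_l10064 _))
              (CovZ.n1 (28896, 33072) (by decide +kernel)
               (CovZ.n2 (28920, 33096) (by decide +kernel)
                (CovZ.leaf K2_ok TD_l10065 _)
                (CovZ.leaf K2_ok TD_l10066 _))
               (CovZ.leaf K2_ok TD_l10067 _)))))
           (CovZ.n1 (29088, 33120) (by decide +kernel)
            (CovZ.n2 (29088, 33024) (by decide +kernel)
             (CovZ.subM 683549230366207213930985457776367148818114367257234071985160576136925606966207699410732339483901952 (by decide +kernel)
              (CovZ.n2 (29040, 33072) (by decide +kernel)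
               (CovZ.n2 (29088, 33072) (by decide +kernel)
                (CovZ.leaf K2_ok TD_l10068 _)
                (CovZ.leaf K2_ok TD_l10069 _))
               (CovZ.n1 (29040, 33024) (by decide +kernel)
                (CovZ.leaf K2_ok TD_l10070 _)
                (CovZ.leaf K2_ok TD_l10071 _))))
             (CovZ.n1 (29136, 33072) (by decide +kernel)
              (CovZ.n2 (29136, 33024) (by decide +kernel)
               (CovZ.leaf K2_ok TD_l10072 _)
               (CovZ.leaf K2_ok TD_l10073 _))
              (CovZ.leaf K2_ok TD_l10074 _)))
            (CovZ.subM 683549230366207213930985457776367148818114367257234071985160576136925606966207699410732339483901952 (by decide +kernel)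
             (CovZ.n1 (28992, 33120) (by decide +kernel)
              (CovZ.subM 136736545096374509493318825543786752813438393355367605919489214704071451207959728490813286273515520 (by decide +kernel)
               (CovZ.n2 (29040, 33168) (by decide +kernel)
                (CovZ.n2 (29040, 33120) (by decide +kernel)
                 (CovZ.n2 (29016, 33144) (by decide +kernel)
                  (CovZ.leaf K2_ok TD_l10075 _)
                  (CovZ.leaf K2_ok TD_l10076 _))
                 (CovZ.n1 (29064, 33144) (by decide +kernel)
                  (CovZ.leaf K2_ok TD_l10077 _)
                  (CovZ.leaf K2_ok TD_l10078 _)))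
                (CovZ.n1 (28992, 33168) (by decide +kernel)
                 (CovZ.badM (by decide +kernel))
                 (CovZ.leaf K2_ok TD_l10079 _))))
              (CovZ.n1 (29040, 33072) (by decide +kernel)
               (CovZ.leaf K2_ok TD_l10080 _)
               (CovZ.n1 (29040, 33120) (by decide +kernel)
                (CovZ.leaf K2_ok TD_l10081 _)
                (CovZ.n1 (29016, 33096) (by decide +kernel)
                 (CovZ.leaf K2_ok TD_l10082 _)
                 (CovZ.leaf K2_ok TD_l10083 _))))))))
          (CovZ.n1 (28800, 33216) (by decide +kernel)
           (CovZ.badM (by decide +kernel))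
           (CovZ.n1 (28896, 33120) (by decide +kernel)
            (CovZ.n2 (28800, 33120) (by decide +kernel)
             (CovZ.n2 (28848, 33168) (by decide +kernel)
              (CovZ.n2 (28848, 33120) (by decide +kernel)
               (CovZ.n2 (28824, 33144) (by decide +kernel)
                (CovZ.leaf K2_ok TD_l10084 _)
                (CovZ.leaf K2_ok TD_l10085 _))
               (CovZ.n1 (28872, 33144) (by decide +kernel)
                (CovZ.leaf K2_ok TD_l10086 _)
                (CovZ.leaf K2_ok TD_l10087 _)))
              (CovZ.n1 (28800, 33168) (by decide +kernel)
               (CovZ.badM (by decide +kernel))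
               (CovZ.leaf K2_ok TD_l10088 _)))
             (CovZ.n1 (28848, 33072) (by decide +kernel)
              (CovZ.n2 (28800, 33072) (by decide +kernel)
               (CovZ.n2 (28824, 33096) (by decide +kernel)
                (CovZ.leaf K2_ok TD_l10089 _)
                (CovZ.leaf K2_ok TD_l10090 _))
               (CovZ.leaf K2_ok TD_l10091 _))
              (CovZ.n1 (28848, 33120) (by decide +kernel)
               (CovZ.leaf K2_ok TD_l10092 _)
               (CovZ.n1 (28824, 33096) (by decide +kernel)
                (CovZ.leaf K2_ok TD_l10093 _)
                (CovZ.leaf K2_ok TD_l10094 _)))))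
            (CovZ.subM 1147029412790978280269975401218422481258067794695767638586820512569975104276577715371955621826637921779712 (by decide +kernel)
             (CovZ.n1 (28896, 33216) (by decide +kernel)
              (CovZ.n2 (28944, 33168) (by decide +kernel)
               (CovZ.n2 (28896, 33168) (by decide +kernel)
                (CovZ.badM (by decide +kernel))
                (CovZ.leaf K2_ok TD_l10095 _))
               (CovZ.badM (by decide +kernel)))
              (CovZ.n1 (28848, 33168) (by decide +kernel)
               (CovZ.badM (by decide +kernel))
               (CovZ.n1 (28896, 33168) (by decide +kernel)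
                (CovZ.n2 (28872, 33144) (by decide +kernel)
                 (CovZ.leaf K2_ok TD_l17929 _)
                 (CovZ.leaf K2_ok TD_l10096 _))
                (CovZ.badM (by decide +kernel))))))))))

theorem TD_u186 : CovZ TD_M (toL (selN TD_LN 31106013165409115760698403248851969236670168276631701814017794866371186029443399323182902748683879876923410)) [0, 7, 6, 1] (29184, 33792) (28416, 33024) (29184, 32256) :=
    (CovZ.subM 10321024457773116968716789017740849034145671204153610762199394646921627773549595640552803477215547139559442 (by decide +kernel)
     (CovZ.n2 (29184, 33024) (by decide +kernel)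
      (CovZ.n2 (28800, 32640) (by decide +kernel)
       (CovZ.n2 (28800, 33024) (by decide +kernel)
        (CovZ.subM 1147029959637038347538944118211645120291921239137739716344839595766408556537717282495437132529464287694850 (by decide +kernel)
         (CovZ.n2 (28992, 32832) (by decide +kernel)
          (CovZ.n2 (28800, 32832) (by decide +kernel)
           (CovZ.n2 (28896, 32928) (by decide +kernel)
            (CovZ.n2 (28896, 32832) (by decide +kernel)
             (CovZ.n2 (28848, 32880) (by decide +kernel)
              (CovZ.leaf K2_ok TD_l9906 _)
              (CovZ.leaf K2_ok TD_l9907 _))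
             (CovZ.n1 (28944, 32880) (by decide +kernel)
              (CovZ.leaf K2_ok TD_l9908 _)
              (CovZ.leaf K2_ok TD_l9909 _)))
            (CovZ.n1 (28800, 32928) (by decide +kernel)
             (CovZ.n2 (28848, 32976) (by decide +kernel)
              (CovZ.n2 (28848, 32928) (by decide +kernel)
               (CovZ.leaf K2_ok TD_l9910 _)
               (CovZ.leaf K2_ok TD_l9911 _))
              (CovZ.leaf K2_ok TD_l9912 _))
             (CovZ.leaf K2_ok TD_l9913 _)))
           (CovZ.n1 (28896, 32736) (by decide +kernel)
            (CovZ.n2 (28800, 32736) (by decide +kernel)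
             (CovZ.n2 (28848, 32784) (by decide +kernel)
              (CovZ.leaf K2_ok TD_l9914 _)
              (CovZ.leaf K2_ok TD_l9915 _))
             (CovZ.leaf K2_ok TD_l9916 _))
            (CovZ.n1 (28896, 32832) (by decide +kernel)
             (CovZ.leaf K2_ok TD_l9917 _)
             (CovZ.leaf K2_ok TD_l9918 _))))
          (CovZ.n1 (28992, 33024) (by decide +kernel)
           (CovZ.subM 683549230366207213930985457776367148818114367257234071985160576136925606966207699410732339752861698 (by decide +kernel)
            (CovZ.n2 (29088, 32928) (by decide +kernel)
             (CovZ.n2 (28992, 32928) (by decide +kernel)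
              (CovZ.n2 (29040, 32976) (by decide +kernel)
               (CovZ.leaf K2_ok TD_l9919 _)
               (CovZ.leaf K2_ok TD_l9920 _))
              (CovZ.leaf K2_ok TD_l9921 _))
             (CovZ.n1 (29088, 33024) (by decide +kernel)
              (CovZ.n2 (29136, 32976) (by decide +kernel)
               (CovZ.leaf K2_ok TD_l9922 _)
               (CovZ.n1 (29136, 33024) (by decide +kernel)
                (CovZ.leaf K2_ok TD_l9923 _)
                (CovZ.leaf K2_ok TD_l9924 _)))
              (CovZ.n1 (29040, 32976) (by decide +kernel)
               (CovZ.leaf K2_ok TD_l9925 _)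
               (CovZ.leaf K2_ok TD_l9926 _)))))
           (CovZ.n1 (28896, 32928) (by decide +kernel)
            (CovZ.n2 (28896, 33024) (by decide +kernel)
             (CovZ.n2 (28944, 32976) (by decide +kernel)
              (CovZ.leaf K2_ok TD_l9927 _)
              (CovZ.n1 (28944, 33024) (by decide +kernel)
               (CovZ.leaf K2_ok TD_l9928 _)
               (CovZ.leaf K2_ok TD_l9929 _)))
             (CovZ.n1 (28848, 32976) (by decide +kernel)
              (CovZ.n2 (28848, 33024) (by decide +kernel)
               (CovZ.leaf K2_ok TD_l9930 _)
               (CovZ.leaf K2_ok TD_l9931 _))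
              (CovZ.leaf K2_ok TD_l9932 _)))
            (CovZ.n1 (28992, 32928) (by decide +kernel)
             (CovZ.n2 (28944, 32880) (by decide +kernel)
              (CovZ.leaf K2_ok TD_l9933 _)
              (CovZ.leaf K2_ok TD_l9934 _))
             (CovZ.n1 (28944, 32976) (by decide +kernel)
              (CovZ.leaf K2_ok TD_l9935 _)
              (CovZ.n1 (28944, 32928) (by decide +kernel)
               (CovZ.leaf K2_ok TD_l9936 _)
               (CovZ.leaf K2_ok TD_l9937 _))))))))
        (CovZ.n1 (28608, 32832) (by decide +kernel)
         (CovZ.n2 (28608, 33024) (by decide +kernel)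
          (CovZ.n2 (28704, 32928) (by decide +kernel)
           (CovZ.subM 10321024286894154095036211750569700772343168013623034908313621410874900181032289610489047677675713417183234 (by decide +kernel)
            (CovZ.n2 (28608, 32928) (by decide +kernel)
             (CovZ.n2 (28656, 32976) (by decide +kernel)
              (CovZ.n2 (28656, 32928) (by decide +kernel)
               (CovZ.leaf K2_ok TD_l9938 _)
               (CovZ.leaf K2_ok TD_l9939 _))
              (CovZ.leaf K2_ok TD_l9940 _))
             (CovZ.leaf K2_ok TD_l9941 _)))
           (CovZ.n1 (28704, 33024) (by decide +kernel)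
            (CovZ.n2 (28752, 32976) (by decide +kernel)
             (CovZ.leaf K2_ok TD_l9942 _)
             (CovZ.n1 (28752, 33024) (by decide +kernel)
              (CovZ.leaf K2_ok TD_l9943 _)
              (CovZ.leaf K2_ok TD_l9944 _)))
            (CovZ.n1 (28656, 32976) (by decide +kernel)
             (CovZ.n2 (28656, 33024) (by decide +kernel)
              (CovZ.leaf K2_ok TD_l9945 _)
              (CovZ.leaf K2_ok TD_l9946 _))
             (CovZ.leaf K2_ok TD_l9947 _))))
          (CovZ.n1 (28512, 32928) (by decide +kernel)
           (CovZ.n2 (28512, 33024) (by decide +kernel)
            (CovZ.n2 (28560, 32976) (by decide +kernel)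
             (CovZ.leaf K2_ok TD_l9948 _)
             (CovZ.n1 (28560, 33024) (by decide +kernel)
              (CovZ.leaf K2_ok TD_l9949 _)
              (CovZ.leaf K2_ok TD_l9950 _)))
            (CovZ.n1 (28464, 32976) (by decide +kernel)
             (CovZ.n2 (28464, 33024) (by decide +kernel)
              (CovZ.leaf K2_ok TD_l9951 _)
              (CovZ.leaf K2_ok TD_l9952 _))
             (CovZ.leaf K2_ok TD_l9953 _)))
           (CovZ.subM 10320744352977174444244453388604581241778726283489326276188036817642400075811007564214504628567358308352002 (by decide +kernel)
            (CovZ.n1 (28608, 32928) (by decide +kernel)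
             (CovZ.n2 (28560, 32880) (by decide +kernel)
              (CovZ.leaf K2_ok TD_l9954 _)
              (CovZ.leaf K2_ok TD_l9955 _))
             (CovZ.n1 (28560, 32976) (by decide +kernel)
              (CovZ.leaf K2_ok TD_l9956 _)
              (CovZ.n1 (28560, 32928) (by decide +kernel)
               (CovZ.leaf K2_ok TD_l9957 _)
               (CovZ.leaf K2_ok TD_l9958 _)))))))
         (CovZ.n1 (28800, 32832) (by decide +kernel)
          (CovZ.n2 (28704, 32736) (by decide +kernel)
           (CovZ.n2 (28704, 32832) (by decide +kernel)
            (CovZ.leaf K2_ok TD_l9959 _)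
            (CovZ.n1 (28656, 32784) (by decide +kernel)
             (CovZ.leaf K2_ok TD_l9960 _)
             (CovZ.leaf K2_ok TD_l9961 _)))
           (CovZ.n1 (28800, 32736) (by decide +kernel)
            (CovZ.leaf K2_ok TD_l9962 _)
            (CovZ.leaf K2_ok TD_l9963 _)))
          (CovZ.n1 (28704, 32928) (by decide +kernel)
           (CovZ.subM 10321024423597324393982227699419992883478181195810864211295194953314100060891676326651843189512813397671938 (by decide +kernel)
            (CovZ.n2 (28800, 32928) (by decide +kernel)
             (CovZ.n2 (28752, 32880) (by decide +kernel)
              (CovZ.leaf K2_ok TD_l9964 _)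
              (CovZ.leaf K2_ok TD_l9965 _))
             (CovZ.n1 (28752, 32976) (by decide +kernel)
              (CovZ.leaf K2_ok TD_l9966 _)
              (CovZ.n1 (28752, 32928) (by decide +kernel)
               (CovZ.leaf K2_ok TD_l9967 _)
               (CovZ.leaf K2_ok TD_l9968 _)))))
           (CovZ.n1 (28704, 32832) (by decide +kernel)
            (CovZ.n2 (28656, 32880) (by decide +kernel)
             (CovZ.leaf K2_ok TD_l9969 _)
             (CovZ.leaf K2_ok TD_l9970 _))
            (CovZ.n1 (28752, 32880) (by decide +kernel)
             (CovZ.leaf K2_ok TD_l9971 _)
             (CovZ.leaf K2_ok TD_l9972 _)))))))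
       (CovZ.n1 (29184, 32640) (by decide +kernel)
        (CovZ.n2 (28992, 32448) (by decide +kernel)
         (CovZ.n2 (28992, 32640) (by decide +kernel)
          (CovZ.leaf K2_ok TD_l9973 _)
          (CovZ.n1 (28896, 32544) (by decide +kernel)
           (CovZ.leaf K2_ok TD_l9974 _)
           (CovZ.leaf K2_ok TD_l9975 _)))
         (CovZ.subM 683549230366207213930985457776367148818114367257280840037555165030308124880854620467361398314766354 (by decide +kernel)
          (CovZ.n1 (29184, 32448) (by decide +kernel)
           (CovZ.n2 (29088, 32352) (by decide +kernel)
            (CovZ.leaf K2_ok TD_l9976 _)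
            (CovZ.leaf K2_ok TD_l9977 _))
           (CovZ.n1 (29088, 32544) (by decide +kernel)
            (CovZ.leaf K2_ok TD_l9978 _)
            (CovZ.leaf K2_ok TD_l9979 _)))))
        (CovZ.n1 (28992, 32832) (by decide +kernel)
         (CovZ.subM 683549230366207213930985457776367148818114367257234071985160576136925606966207699410732408473391122 (by decide +kernel)
          (CovZ.n2 (29184, 32832) (by decide +kernel)
           (CovZ.n2 (29088, 32736) (by decide +kernel)
            (CovZ.n2 (29088, 32832) (by decide +kernel)
             (CovZ.leaf K2_ok TD_l9980 _)
             (CovZ.leaf K2_ok TD_l9981 _))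
            (CovZ.leaf K2_ok TD_l9982 _))
           (CovZ.n1 (29088, 32928) (by decide +kernel)
            (CovZ.n2 (29184, 32928) (by decide +kernel)
             (CovZ.n2 (29136, 32880) (by decide +kernel)
              (CovZ.leaf K2_ok TD_l9983 _)
              (CovZ.leaf K2_ok TD_l9984 _))
             (CovZ.n1 (29136, 32976) (by decide +kernel)
              (CovZ.leaf K2_ok TD_l9985 _)
              (CovZ.leaf K2_ok TD_l9986 _)))
            (CovZ.n1 (29088, 32832) (by decide +kernel)
             (CovZ.leaf K2_ok TD_l9987 _)
             (CovZ.n1 (29136, 32880) (by decide +kernel)
              (CovZ.leaf K2_ok TD_l9988 _)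
              (CovZ.leaf K2_ok TD_l9989 _))))))
         (CovZ.n1 (28992, 32640) (by decide +kernel)
          (CovZ.n2 (28896, 32736) (by decide +kernel)
           (CovZ.leaf K2_ok TD_l9990 _)
           (CovZ.n1 (28896, 32640) (by decide +kernel)
            (CovZ.leaf K2_ok TD_l9991 _)
            (CovZ.leaf K2_ok TD_l9992 _)))
          (CovZ.n1 (29088, 32736) (by decide +kernel)
           (CovZ.n2 (29088, 32640) (by decide +kernel)
            (CovZ.leaf K2_ok TD_l9993 _)
            (CovZ.leaf K2_ok TD_l9994 _))
           (CovZ.leaf K2_ok TD_l9995 _))))))
      (CovZ.n1 (28800, 33408) (by decide +kernel)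
       (CovZ.subM 1147029959637038347531173442642742204008243391510445640718269968410199998452710032854046545170844803923968 (by decide +kernel)
        (CovZ.n2 (29184, 33408) (by decide +kernel)
         (CovZ.n2 (28992, 33216) (by decide +kernel)
          (CovZ.badM (by decide +kernel))
          (CovZ.subM 683549230366199443255416554860083470970487073181607502357804367578840599716566308823373788989620224 (by decide +kernel)
           (CovZ.n1 (29184, 33216) (by decide +kernel)
            (CovZ.n2 (29088, 33120) (by decide +kernel)
             (CovZ.n2 (29088, 33216) (by decide +kernel)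
              (CovZ.n2 (29136, 33168) (by decide +kernel)
               (CovZ.n2 (29088, 33168) (by decide +kernel)
                (CovZ.badM (by decide +kernel))
                (CovZ.leaf K2_ok TD_l9996 _))
               (CovZ.badM (by decide +kernel)))
              (CovZ.n1 (29040, 33168) (by decide +kernel)
               (CovZ.badM (by decide +kernel))
               (CovZ.n1 (29088, 33168) (by decide +kernel)
                (CovZ.n2 (29064, 33144) (by decide +kernel)
                 (CovZ.leaf K2_ok TD_l17918 _)
                 (CovZ.leaf K2_ok TD_l9997 _))
                (CovZ.badM (by decide +kernel)))))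
             (CovZ.n1 (29184, 33120) (by decide +kernel)
              (CovZ.n2 (29136, 33072) (by decide +kernel)
               (CovZ.n2 (29136, 33120) (by decide +kernel)
                (CovZ.leaf K2_ok TD_l9998 _)
                (CovZ.leaf K2_ok TD_l9999 _))
               (CovZ.n1 (29184, 33072) (by decide +kernel)
                (CovZ.leaf K2_ok TD_l10000 _)
                (CovZ.leaf K2_ok TD_l10001 _)))
              (CovZ.n1 (29136, 33168) (by decide +kernel)
               (CovZ.n2 (29184, 33168) (by decide +kernel)
                (CovZ.n2 (29160, 33144) (by decide +kernel)
                 (CovZ.leaf K2_ok TD_l17919 _)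
                 (CovZ.leaf K2_ok TD_l10002 _))
                (CovZ.badM (by decide +kernel)))
               (CovZ.n1 (29136, 33120) (by decide +kernel)
                (CovZ.leaf K2_ok TD_l10003 _)
                (CovZ.n1 (29160, 33144) (by decide +kernel)
                 (CovZ.leaf K2_ok TD_l10004 _)
                 (CovZ.leaf K2_ok TD_l10005 _))))))
            (CovZ.badM (by decide +kernel)))))
         (CovZ.badM (by decide +kernel))))
       (CovZ.n1 (28800, 33024) (by decide +kernel)
        TD_u184
        TD_u185))))

theorem TD_u187 : CovZ TD_M (toL (selN TD_LN 31106013165409115760698403248851969236670168276631701814017794866371186029443399323182902748683879876923410)) [0, 7, 6, 1] (28416, 33024) (27648, 32256) (29184, 32256) :=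
    (CovZ.n1 (28416, 32256) (by decide +kernel)
     (CovZ.n2 (28032, 32640) (by decide +kernel)
      (CovZ.n2 (28416, 32640) (by decide +kernel)
       (CovZ.n2 (28224, 32448) (by decide +kernel)
        (CovZ.n2 (28224, 32640) (by decide +kernel)
         (CovZ.leaf K2_ok TD_l10097 _)
         (CovZ.leaf K2_ok TD_l10098 _))
        (CovZ.n1 (28416, 32448) (by decide +kernel)
         (CovZ.leaf K2_ok TD_l10099 _)
         (CovZ.leaf K2_ok TD_l10100 _)))
       (CovZ.subM 20784971790634322745086588033040506012556664345248834728292819159119116170209728543869380414095700637257730 (by decide +kernel)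
        (CovZ.n1 (28224, 32832) (by decide +kernel)
         (CovZ.n2 (28416, 32832) (by decide +kernel)
          (CovZ.n2 (28320, 32736) (by decide +kernel)
           (CovZ.n2 (28320, 32832) (by decide +kernel)
            (CovZ.leaf K2_ok TD_l10101 _)
            (CovZ.leaf K2_ok TD_l10102 _))
           (CovZ.n1 (28416, 32736) (by decide +kernel)
            (CovZ.leaf K3_ok TD_l10103 _)
            (CovZ.leaf K2_ok TD_l10104 _)))
          (CovZ.n1 (28320, 32928) (by decide +kernel)
           (CovZ.subM 581021852641995759359745190008194183832232061219368887040401247798026863745143194140437947569143810 (by decide +kernel)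
            (CovZ.n2 (28416, 32928) (by decide +kernel)
             (CovZ.n2 (28368, 32880) (by decide +kernel)
              (CovZ.leaf K3_ok TD_l10105 _)
              (CovZ.leaf K2_ok TD_l10106 _))
             (CovZ.n1 (28368, 32976) (by decide +kernel)
              (CovZ.n2 (28416, 32976) (by decide +kernel)
               (CovZ.leaf K2_ok TD_l10107 _)
               (CovZ.leaf K2_ok TD_l10108 _))
              (CovZ.n1 (28368, 32928) (by decide +kernel)
               (CovZ.leaf K2_ok TD_l10109 _)
               (CovZ.leaf K2_ok TD_l10110 _)))))
           (CovZ.n1 (28320, 32832) (by decide +kernel)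
            (CovZ.n2 (28272, 32880) (by decide +kernel)
             (CovZ.leaf K2_ok TD_l10111 _)
             (CovZ.leaf K3_ok TD_l10112 _))
            (CovZ.n1 (28368, 32880) (by decide +kernel)
             (CovZ.leaf K2_ok TD_l10113 _)
             (CovZ.leaf K2_ok TD_l10114 _)))))
         (CovZ.n1 (28224, 32640) (by decide +kernel)
          (CovZ.n2 (28128, 32736) (by decide +kernel)
           (CovZ.n2 (28224, 32736) (by decide +kernel)
            (CovZ.leaf K3_ok TD_l10115 _)
            (CovZ.leaf K3_ok TD_l10116 _))
           (CovZ.n1 (28128, 32640) (by decide +kernel)
            (CovZ.leaf K2_ok TD_l10117 _)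
            (CovZ.leaf K2_ok TD_l10118 _)))
          (CovZ.n1 (28320, 32736) (by decide +kernel)
           (CovZ.n2 (28320, 32640) (by decide +kernel)
            (CovZ.leaf K2_ok TD_l10119 _)
            (CovZ.leaf K2_ok TD_l10120 _))
           (CovZ.n1 (28224, 32736) (by decide +kernel)
            (CovZ.n2 (28272, 32784) (by decide +kernel)
             (CovZ.leaf K3_ok TD_l10121 _)
             (CovZ.leaf K3_ok TD_l10122 _))
            (CovZ.leaf K2_ok TD_l10123 _)))))))
      (CovZ.n1 (28032, 32256) (by decide +kernel)
       (CovZ.n2 (27840, 32448) (by decide +kernel)
        (CovZ.n2 (28032, 32448) (by decide +kernel)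
         (CovZ.leaf K2_ok TD_l10124 _)
         (CovZ.leaf K2_ok TD_l10125 _))
        (CovZ.n1 (27840, 32256) (by decide +kernel)
         (CovZ.leaf K2_ok TD_l10126 _)
         (CovZ.leaf K2_ok TD_l10127 _)))
       (CovZ.n1 (28224, 32448) (by decide +kernel)
        (CovZ.n2 (28224, 32256) (by decide +kernel)
         (CovZ.leaf K2_ok TD_l10128 _)
         (CovZ.leaf K2_ok TD_l10129 _))
        (CovZ.n1 (28032, 32448) (by decide +kernel)
         (CovZ.n2 (28128, 32544) (by decide +kernel)
          (CovZ.leaf K2_ok TD_l10130 _)
          (CovZ.leaf K2_ok TD_l10131 _))
         (CovZ.leaf K2_ok TD_l10132 _)))))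
     (CovZ.subM 10321024457773116968716789017740849034145671204153610762199394646921627773549595640552803477215547139559442 (by decide +kernel)
      (CovZ.n1 (28800, 32640) (by decide +kernel)
       (CovZ.n2 (28800, 32256) (by decide +kernel)
        (CovZ.n2 (28608, 32448) (by decide +kernel)
         (CovZ.n2 (28800, 32448) (by decide +kernel)
          (CovZ.leaf K2_ok TD_l10133 _)
          (CovZ.leaf K2_ok TD_l10134 _))
         (CovZ.n1 (28608, 32256) (by decide +kernel)
          (CovZ.leaf K2_ok TD_l10135 _)
          (CovZ.leaf K2_ok TD_l10136 _)))
        (CovZ.n1 (28992, 32448) (by decide +kernel)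
         (CovZ.n2 (28992, 32256) (by decide +kernel)
          (CovZ.leaf K2_ok TD_l10137 _)
          (CovZ.leaf K2_ok TD_l10138 _))
         (CovZ.n1 (28800, 32448) (by decide +kernel)
          (CovZ.n2 (28896, 32544) (by decide +kernel)
           (CovZ.leaf K2_ok TD_l10139 _)
           (CovZ.leaf K2_ok TD_l10140 _))
          (CovZ.leaf K2_ok TD_l10141 _))))
       (CovZ.n1 (28416, 32640) (by decide +kernel)
        (CovZ.n2 (28608, 32832) (by decide +kernel)
         (CovZ.n2 (28608, 32640) (by decide +kernel)
          (CovZ.n2 (28512, 32736) (by decide +kernel)
           (CovZ.n2 (28608, 32736) (by decide +kernel)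
            (CovZ.leaf K2_ok TD_l10142 _)
            (CovZ.leaf K2_ok TD_l10143 _))
           (CovZ.n1 (28512, 32640) (by decide +kernel)
            (CovZ.leaf K3_ok TD_l10144 _)
            (CovZ.leaf K2_ok TD_l10145 _)))
          (CovZ.n1 (28704, 32736) (by decide +kernel)
           (CovZ.n2 (28704, 32640) (by decide +kernel)
            (CovZ.leaf K2_ok TD_l10146 _)
            (CovZ.leaf K2_ok TD_l10147 _))
           (CovZ.n1 (28608, 32736) (by decide +kernel)
            (CovZ.n2 (28656, 32784) (by decide +kernel)
             (CovZ.leaf K2_ok TD_l10148 _)
             (CovZ.leaf K2_ok TD_l10149 _))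
            (CovZ.leaf K2_ok TD_l10150 _))))
         (CovZ.n1 (28416, 32832) (by decide +kernel)
          (CovZ.n2 (28512, 32928) (by decide +kernel)
           (CovZ.n2 (28512, 32832) (by decide +kernel)
            (CovZ.n2 (28464, 32880) (by decide +kernel)
             (CovZ.leaf K2_ok TD_l10151 _)
             (CovZ.leaf K2_ok TD_l10152 _))
            (CovZ.n1 (28560, 32880) (by decide +kernel)
             (CovZ.leaf K3_ok TD_l10153 _)
             (CovZ.leaf K2_ok TD_l10154 _)))
           (CovZ.n1 (28416, 32928) (by decide +kernel)
            (CovZ.n2 (28464, 32976) (by decide +kernel)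
             (CovZ.n2 (28464, 32928) (by decide +kernel)
              (CovZ.leaf K3_ok TD_l10155 _)
              (CovZ.leaf K2_ok TD_l10156 _))
             (CovZ.leaf K2_ok TD_l10157 _))
            (CovZ.leaf K2_ok TD_l10158 _)))
          (CovZ.n1 (28512, 32736) (by decide +kernel)
           (CovZ.n2 (28416, 32736) (by decide +kernel)
            (CovZ.n2 (28464, 32784) (by decide +kernel)
             (CovZ.leaf K3_ok TD_l10159 _)
             (CovZ.leaf K2_ok TD_l10160 _))
            (CovZ.leaf K2_ok TD_l10161 _))
           (CovZ.n1 (28512, 32832) (by decide +kernel)
            (CovZ.leaf K2_ok TD_l10162 _)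
            (CovZ.leaf K2_ok TD_l10163 _)))))
        (CovZ.n1 (28608, 32448) (by decide +kernel)
         (CovZ.n2 (28416, 32448) (by decide +kernel)
          (CovZ.n2 (28512, 32544) (by decide +kernel)
           (CovZ.leaf K2_ok TD_l10164 _)
           (CovZ.leaf K3_ok TD_l10165 _))
          (CovZ.leaf K2_ok TD_l10166 _))
         (CovZ.n1 (28608, 32640) (by decide +kernel)
          (CovZ.leaf K2_ok TD_l10167 _)
          (CovZ.leaf K2_ok TD_l10168 _)))))))

theorem TD_u188 : CovZ TD_M (toL (selN TD_LN 31106013165409115760698403248851969236670168276631701813971026813976597136060881408535981692054890035548162)) [0, 7, 6, 1] (27648, 32256) (28032, 32640) (27648, 33024) :=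
    (CovZ.n2 (27648, 32640) (by decide +kernel)
       (CovZ.n2 (27840, 32832) (by decide +kernel)
        (CovZ.n2 (27840, 32640) (by decide +kernel)
         (CovZ.subM 18348006972756822718254717234654018085891066816141404031891221194602567201160912091898598181322848461656066 (by decide +kernel)
          (CovZ.n2 (27744, 32736) (by decide +kernel)
           (CovZ.n2 (27840, 32736) (by decide +kernel)
            (CovZ.leaf K2_ok TD_l10197 _)
            (CovZ.leaf K2_ok TD_l10198 _))
           (CovZ.n1 (27744, 32640) (by decide +kernel)
            (CovZ.leaf K2_ok TD_l10199 _)
            (CovZ.leaf K2_ok TD_l10200 _))))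
         (CovZ.n1 (27936, 32736) (by decide +kernel)
          (CovZ.n2 (27936, 32640) (by decide +kernel)
           (CovZ.leaf K3_ok TD_l10201 _)
           (CovZ.leaf K2_ok TD_l10202 _))
          (CovZ.n1 (27840, 32736) (by decide +kernel)
           (CovZ.n2 (27888, 32784) (by decide +kernel)
            (CovZ.leaf K3_ok TD_l10203 _)
            (CovZ.leaf K3_ok TD_l10204 _))
           (CovZ.leaf K3_ok TD_l10205 _))))
        (CovZ.subM 18348006972756822718254717175368468396385174759273059707443012373728335052352943303696315169271257366532098 (by decide +kernel)
         (CovZ.n1 (27648, 32832) (by decide +kernel)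
          (CovZ.n2 (27744, 32928) (by decide +kernel)
           (CovZ.n2 (27744, 32832) (by decide +kernel)
            (CovZ.n2 (27696, 32880) (by decide +kernel)
             (CovZ.n2 (27744, 32880) (by decide +kernel)
              (CovZ.leaf K3_ok TD_l10206 _)
              (CovZ.leaf K2_ok TD_l10207 _))
             (CovZ.n1 (27696, 32832) (by decide +kernel)
              (CovZ.leaf K2_ok TD_l10208 _)
              (CovZ.leaf K2_ok TD_l10209 _)))
            (CovZ.n1 (27792, 32880) (by decide +kernel)
             (CovZ.n2 (27792, 32832) (by decide +kernel)
              (CovZ.leaf K2_ok TD_l10210 _)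
              (CovZ.leaf K3_ok TD_l10211 _))
             (CovZ.leaf K2_ok TD_l10212 _)))
           (CovZ.n1 (27648, 32928) (by decide +kernel)
            (CovZ.subM 18044836250625363293340663086346258627128107739918941484111526739983917697787237326394708194607759362 (by decide +kernel)
             (CovZ.n2 (27696, 32976) (by decide +kernel)
              (CovZ.n2 (27696, 32928) (by decide +kernel)
               (CovZ.leaf K2_ok TD_l10213 _)
               (CovZ.n1 (27720, 32952) (by decide +kernel)
                (CovZ.leaf K2_ok TD_l10214 _)
                (CovZ.leaf K2_ok TD_l10215 _)))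
              (CovZ.n1 (27648, 32976) (by decide +kernel)
               (CovZ.n2 (27672, 33000) (by decide +kernel)
                (CovZ.leaf K2_ok TD_l10216 _)
                (CovZ.leaf K2_ok TD_l10217 _))
               (CovZ.leaf K2_ok TD_l10218 _))))
            (CovZ.n1 (27696, 32880) (by decide +kernel)
             (CovZ.leaf K2_ok TD_l10219 _)
             (CovZ.n1 (27696, 32928) (by decide +kernel)
              (CovZ.leaf K2_ok TD_l10220 _)
              (CovZ.leaf K2_ok TD_l10221 _)))))
          (CovZ.n1 (27744, 32736) (by decide +kernel)
           (CovZ.n2 (27648, 32736) (by decide +kernel)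
            (CovZ.n2 (27696, 32784) (by decide +kernel)
             (CovZ.leaf K2_ok TD_l10222 _)
             (CovZ.leaf K2_ok TD_l10223 _))
            (CovZ.leaf K3_ok TD_l10224 _))
           (CovZ.n1 (27744, 32832) (by decide +kernel)
            (CovZ.leaf K3_ok TD_l10225 _)
            (CovZ.n1 (27696, 32784) (by decide +kernel)
             (CovZ.leaf K2_ok TD_l10226 _)
             (CovZ.leaf K3_ok TD_l10227 _)))))))
       (CovZ.n1 (27840, 32448) (by decide +kernel)
        (CovZ.n2 (27648, 32448) (by decide +kernel)
         (CovZ.n2 (27744, 32544) (by decide +kernel)
          (CovZ.leaf K2_ok TD_l10228 _)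
          (CovZ.leaf K2_ok TD_l10229 _))
         (CovZ.leaf K2_ok TD_l10230 _))
        (CovZ.n1 (27840, 32640) (by decide +kernel)
         (CovZ.n2 (27936, 32544) (by decide +kernel)
          (CovZ.leaf K3_ok TD_l10231 _)
          (CovZ.leaf K2_ok TD_l10232 _))
         (CovZ.n1 (27744, 32544) (by decide +kernel)
          (CovZ.leaf K2_ok TD_l10233 _)
          (CovZ.leaf K2_ok TD_l10234 _)))))

theorem TD_u189 : CovZ TD_M (toL (selN TD_LN 31106013165409115760698403248851969236670168276631701813971026813976597136060881408535981692054890035548162)) [0, 7, 6, 1] (28032, 32640) (28416, 33024) (27648, 33024) :=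
    (CovZ.n1 (28032, 33024) (by decide +kernel)
       (CovZ.subM 20784971790634322745086588033040506012556664345248834728292819159119116170209728543869380414095700637257730 (by decide +kernel)
        (CovZ.n2 (28224, 32832) (by decide +kernel)
         (CovZ.n2 (28032, 32832) (by decide +kernel)
          (CovZ.n2 (28128, 32928) (by decide +kernel)
           (CovZ.n2 (28128, 32832) (by decide +kernel)
            (CovZ.n2 (28080, 32880) (by decide +kernel)
             (CovZ.leaf K2_ok TD_l10235 _)
             (CovZ.n1 (28080, 32832) (by decide +kernel)
              (CovZ.leaf K3_ok TD_l10236 _)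
              (CovZ.leaf K3_ok TD_l10237 _)))
            (CovZ.n1 (28176, 32880) (by decide +kernel)
             (CovZ.n2 (28176, 32832) (by decide +kernel)
              (CovZ.leaf K3_ok TD_l10238 _)
              (CovZ.leaf K3_ok TD_l10239 _))
             (CovZ.leaf K3_ok TD_l10240 _)))
           (CovZ.n1 (28032, 32928) (by decide +kernel)
            (CovZ.subM 20784971756425020928541324418596957831828768669606552028459085246158958793261166383917010715018482814025730 (by decide +kernel)
             (CovZ.n2 (28080, 32976) (by decide +kernel)
              (CovZ.n2 (28080, 32928) (by decide +kernel)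
               (CovZ.leaf K3_ok TD_l10241 _)
               (CovZ.leaf K3_ok TD_l10242 _))
              (CovZ.n1 (28032, 32976) (by decide +kernel)
               (CovZ.n2 (28056, 33000) (by decide +kernel)
                (CovZ.leaf K2_ok TD_l10243 _)
                (CovZ.leaf K3_ok TD_l10244 _))
               (CovZ.leaf K2_ok TD_l10245 _))))
            (CovZ.n1 (28080, 32880) (by decide +kernel)
             (CovZ.leaf K3_ok TD_l10246 _)
             (CovZ.n1 (28080, 32928) (by decide +kernel)
              (CovZ.leaf K3_ok TD_l10247 _)
              (CovZ.leaf K3_ok TD_l10248 _)))))
          (CovZ.n1 (28128, 32736) (by decide +kernel)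
           (CovZ.n2 (28032, 32736) (by decide +kernel)
            (CovZ.n2 (28080, 32784) (by decide +kernel)
             (CovZ.leaf K3_ok TD_l10249 _)
             (CovZ.leaf K3_ok TD_l10250 _))
            (CovZ.leaf K3_ok TD_l10251 _))
           (CovZ.n1 (28128, 32832) (by decide +kernel)
            (CovZ.leaf K3_ok TD_l10252 _)
            (CovZ.leaf K2_ok TD_l10253 _))))
         (CovZ.n1 (28224, 33024) (by decide +kernel)
          (CovZ.n2 (28320, 32928) (by decide +kernel)
           (CovZ.subM 143344261575749527331470770298262204835569721283137366997491884034221186247728505326660510618478075445250 (by decide +kernel)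
            (CovZ.n2 (28224, 32928) (by decide +kernel)
             (CovZ.n2 (28272, 32976) (by decide +kernel)
              (CovZ.n2 (28272, 32928) (by decide +kernel)
               (CovZ.leaf K2_ok TD_l10254 _)
               (CovZ.leaf K2_ok TD_l10255 _))
              (CovZ.leaf K2_ok TD_l10256 _))
             (CovZ.n1 (28272, 32880) (by decide +kernel)
              (CovZ.leaf K2_ok TD_l10257 _)
              (CovZ.n1 (28272, 32928) (by decide +kernel)
               (CovZ.leaf K2_ok TD_l10258 _)
               (CovZ.leaf K2_ok TD_l10259 _)))))
           (CovZ.subM 143344261609128398839687659307856955885845791830126728096101915437141660580859954395566119331938120499202 (by decide +kernel)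
            (CovZ.n1 (28320, 33024) (by decide +kernel)
             (CovZ.n2 (28368, 32976) (by decide +kernel)
              (CovZ.leaf K2_ok TD_l10260 _)
              (CovZ.n1 (28368, 33024) (by decide +kernel)
               (CovZ.leaf K3_ok TD_l10261 _)
               (CovZ.leaf K2_ok TD_l10262 _)))
             (CovZ.n1 (28272, 32976) (by decide +kernel)
              (CovZ.n2 (28272, 33024) (by decide +kernel)
               (CovZ.leaf K2_ok TD_l10263 _)
               (CovZ.leaf K2_ok TD_l10264 _))
              (CovZ.n1 (28320, 32976) (by decide +kernel)
               (CovZ.leaf K2_ok TD_l10265 _)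
               (CovZ.leaf K2_ok TD_l10266 _))))))
          (CovZ.n1 (28128, 32928) (by decide +kernel)
           (CovZ.subM 20784971756425020928541324418597424279453870163069562018999281376647137249009941547321954819055624065646594 (by decide +kernel)
            (CovZ.n2 (28128, 33024) (by decide +kernel)
             (CovZ.n2 (28176, 32976) (by decide +kernel)
              (CovZ.n2 (28128, 32976) (by decide +kernel)
               (CovZ.n2 (28152, 33000) (by decide +kernel)
                (CovZ.leaf K3_ok TD_l10267 _)
                (CovZ.leaf K2_ok TD_l10268 _))
               (CovZ.leaf K2_ok TD_l10269 _))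
              (CovZ.n1 (28176, 33024) (by decide +kernel)
               (CovZ.leaf K2_ok TD_l10270 _)
               (CovZ.n1 (28152, 33000) (by decide +kernel)
                (CovZ.leaf K2_ok TD_l10271 _)
                (CovZ.leaf K2_ok TD_l10272 _))))
             (CovZ.n1 (28080, 32976) (by decide +kernel)
              (CovZ.n2 (28080, 33024) (by decide +kernel)
               (CovZ.leaf K2_ok TD_l10273 _)
               (CovZ.n1 (28056, 33000) (by decide +kernel)
                (CovZ.leaf K2_ok TD_l10274 _)
                (CovZ.leaf K2_ok TD_l10275 _)))
              (CovZ.n1 (28128, 32976) (by decide +kernel)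
               (CovZ.leaf K3_ok TD_l10276 _)
               (CovZ.leaf K2_ok TD_l10277 _)))))
           (CovZ.subM 18491473140434916824350996833675609540765793600730887700638164174463883286182926397590518074527358776246274 (by decide +kernel)
            (CovZ.n1 (28224, 32928) (by decide +kernel)
             (CovZ.n2 (28176, 32880) (by decide +kernel)
              (CovZ.leaf K2_ok TD_l10278 _)
              (CovZ.leaf K2_ok TD_l10279 _))
             (CovZ.n1 (28176, 32976) (by decide +kernel)
              (CovZ.n2 (28224, 32976) (by decide +kernel)
               (CovZ.leaf K2_ok TD_l10280 _)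
               (CovZ.leaf K2_ok TD_l10281 _))
              (CovZ.n1 (28176, 32928) (by decide +kernel)
               (CovZ.leaf K2_ok TD_l10282 _)
               (CovZ.leaf K2_ok TD_l10283 _)))))))))
       (CovZ.n1 (27840, 32832) (by decide +kernel)
        (CovZ.subM 20784989254448679987734594375667881949613145937655932070477520066100825465732916222314182849940129054720002 (by decide +kernel)
         (CovZ.n2 (27840, 33024) (by decide +kernel)
          (CovZ.n2 (27936, 32928) (by decide +kernel)
           (CovZ.n2 (27840, 32928) (by decide +kernel)
            (CovZ.n2 (27888, 32976) (by decide +kernel)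
             (CovZ.n2 (27888, 32928) (by decide +kernel)
              (CovZ.leaf K2_ok TD_l10284 _)
              (CovZ.leaf K2_ok TD_l10285 _))
             (CovZ.n1 (27840, 32976) (by decide +kernel)
              (CovZ.n2 (27864, 33000) (by decide +kernel)
               (CovZ.leaf K2_ok TD_l10286 _)
               (CovZ.leaf K2_ok TD_l10287 _))
              (CovZ.leaf K2_ok TD_l10288 _)))
            (CovZ.n1 (27888, 32880) (by decide +kernel)
             (CovZ.leaf K2_ok TD_l10289 _)
             (CovZ.n1 (27888, 32928) (by decide +kernel)
              (CovZ.leaf K2_ok TD_l10290 _)
              (CovZ.leaf K2_ok TD_l10291 _))))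
           (CovZ.n1 (27936, 33024) (by decide +kernel)
            (CovZ.n2 (27984, 32976) (by decide +kernel)
             (CovZ.n2 (27936, 32976) (by decide +kernel)
              (CovZ.n2 (27960, 33000) (by decide +kernel)
               (CovZ.leaf K2_ok TD_l10292 _)
               (CovZ.leaf K2_ok TD_l10293 _))
              (CovZ.leaf K2_ok TD_l10294 _))
             (CovZ.n1 (27984, 33024) (by decide +kernel)
              (CovZ.leaf K2_ok TD_l10295 _)
              (CovZ.n1 (27960, 33000) (by decide +kernel)
               (CovZ.leaf K2_ok TD_l10296 _)
               (CovZ.leaf K2_ok TD_l10297 _))))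
            (CovZ.n1 (27888, 32976) (by decide +kernel)
             (CovZ.n2 (27888, 33024) (by decide +kernel)
              (CovZ.leaf K2_ok TD_l10298 _)
              (CovZ.n1 (27864, 33000) (by decide +kernel)
               (CovZ.leaf K2_ok TD_l10299 _)
               (CovZ.leaf K2_ok TD_l10300 _)))
             (CovZ.n1 (27936, 32976) (by decide +kernel)
              (CovZ.leaf K2_ok TD_l10301 _)
              (CovZ.leaf K2_ok TD_l10302 _)))))
          (CovZ.n1 (27744, 32928) (by decide +kernel)
           (CovZ.n2 (27744, 33024) (by decide +kernel)
            (CovZ.subM 546813764962553650639813492858370783275115587066060178985667645630039461291997507192136015036809218 (by decide +kernel)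
             (CovZ.n2 (27792, 32976) (by decide +kernel)
              (CovZ.n2 (27744, 32976) (by decide +kernel)
               (CovZ.n2 (27768, 33000) (by decide +kernel)
                (CovZ.leaf K2_ok TD_l10303 _)
                (CovZ.leaf K2_ok TD_l10304 _))
               (CovZ.leaf K2_ok TD_l10305 _))
              (CovZ.n1 (27792, 33024) (by decide +kernel)
               (CovZ.leaf K2_ok TD_l10306 _)
               (CovZ.n1 (27768, 33000) (by decide +kernel)
                (CovZ.leaf K2_ok TD_l10307 _)
                (CovZ.leaf K2_ok TD_l10308 _)))))
            (CovZ.subM 18044836250625363292392094291314164354218214230727770142977539025602990197176000798201883836597403650 (by decide +kernel)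
             (CovZ.n1 (27696, 32976) (by decide +kernel)
              (CovZ.n2 (27696, 33024) (by decide +kernel)
               (CovZ.leaf K2_ok TD_l10309 _)
               (CovZ.n1 (27672, 33000) (by decide +kernel)
                (CovZ.leaf K2_ok TD_l10310 _)
                (CovZ.leaf K2_ok TD_l10311 _)))
              (CovZ.n1 (27744, 32976) (by decide +kernel)
               (CovZ.n2 (27720, 32952) (by decide +kernel)
                (CovZ.leaf K2_ok TD_l10312 _)
                (CovZ.leaf K2_ok TD_l10313 _))
               (CovZ.n1 (27720, 33000) (by decide +kernel)
                (CovZ.leaf K2_ok TD_l10314 _)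
                (CovZ.leaf K2_ok TD_l10315 _))))))
           (CovZ.n1 (27840, 32928) (by decide +kernel)
            (CovZ.n2 (27792, 32880) (by decide +kernel)
             (CovZ.n2 (27792, 32928) (by decide +kernel)
              (CovZ.leaf K3_ok TD_l10316 _)
              (CovZ.leaf K3_ok TD_l10317 _))
             (CovZ.leaf K2_ok TD_l10318 _))
            (CovZ.n1 (27792, 32976) (by decide +kernel)
             (CovZ.subM 18347989474734336991782843541835394233473007606682991568894759076768710764385495622606534717614096314793986 (by decide +kernel)
              (CovZ.n2 (27840, 32976) (by decide +kernel)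
               (CovZ.n2 (27816, 32952) (by decide +kernel)
                (CovZ.leaf K2_ok TD_l10319 _)
                (CovZ.leaf K2_ok TD_l10320 _))
               (CovZ.n1 (27816, 33000) (by decide +kernel)
                (CovZ.leaf K2_ok TD_l10321 _)
                (CovZ.leaf K2_ok TD_l10322 _))))
             (CovZ.n1 (27792, 32928) (by decide +kernel)
              (CovZ.leaf K2_ok TD_l10323 _)
              (CovZ.n1 (27816, 32952) (by decide +kernel)
               (CovZ.leaf K2_ok TD_l10324 _)
               (CovZ.leaf K2_ok TD_l10325 _))))))))
        (CovZ.n1 (28032, 32832) (by decide +kernel)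
         (CovZ.n2 (27936, 32736) (by decide +kernel)
          (CovZ.n2 (27936, 32832) (by decide +kernel)
           (CovZ.leaf K3_ok TD_l10326 _)
           (CovZ.leaf K2_ok TD_l10327 _))
          (CovZ.n1 (28032, 32736) (by decide +kernel)
           (CovZ.leaf K2_ok TD_l10328 _)
           (CovZ.leaf K2_ok TD_l10329 _)))
         (CovZ.subM 20784971756426194261263693084435321911976481639933968854877101899863113638208636018350762701382744602050562 (by decide +kernel)
          (CovZ.n1 (27936, 32928) (by decide +kernel)
           (CovZ.n2 (28032, 32928) (by decide +kernel)
            (CovZ.n2 (27984, 32880) (by decide +kernel)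
             (CovZ.n2 (27984, 32928) (by decide +kernel)
              (CovZ.leaf K3_ok TD_l10330 _)
              (CovZ.leaf K3_ok TD_l10331 _))
             (CovZ.leaf K3_ok TD_l10332 _))
            (CovZ.n1 (27984, 32976) (by decide +kernel)
             (CovZ.n2 (28032, 32976) (by decide +kernel)
              (CovZ.leaf K2_ok TD_l10333 _)
              (CovZ.leaf K2_ok TD_l10334 _))
             (CovZ.n1 (27984, 32928) (by decide +kernel)
              (CovZ.leaf K2_ok TD_l10335 _)
              (CovZ.leaf K2_ok TD_l10336 _))))
           (CovZ.n1 (27936, 32832) (by decide +kernel)
            (CovZ.n2 (27888, 32880) (by decide +kernel)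
             (CovZ.leaf K2_ok TD_l10337 _)
             (CovZ.n1 (27888, 32832) (by decide +kernel)
              (CovZ.leaf K2_ok TD_l10338 _)
              (CovZ.leaf K3_ok TD_l10339 _)))
            (CovZ.n1 (27984, 32880) (by decide +kernel)
             (CovZ.n2 (27984, 32832) (by decide +kernel)
              (CovZ.leaf K3_ok TD_l10340 _)
              (CovZ.leaf K3_ok TD_l10341 _))
             (CovZ.leaf K3_ok TD_l10342 _))))))))

theorem TD_u190 : CovZ TD_M (toL (selN TD_LN 31106013165409115760698403248851969236670168276631701813971026813976597136060881408535981692054890035548162)) [0, 7, 6, 1] (27648, 32256) (28416, 33024) (27648, 33792) :=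
    (CovZ.n2 (27648, 33024) (by decide +kernel)
     (CovZ.subM 20784989288657843222176093043861531858787032648604622226823935625542101621787106472254860358819130588004352 (by decide +kernel)
      (CovZ.n2 (28032, 33408) (by decide +kernel)
       (CovZ.n2 (28032, 33024) (by decide +kernel)
        (CovZ.n2 (27840, 33216) (by decide +kernel)
         (CovZ.subM 20784971756426055742816330943797063109091135333186954172962591485575425626496678496496669602615994391461888 (by decide +kernel)
          (CovZ.n2 (28032, 33216) (by decide +kernel)
           (CovZ.n2 (27936, 33120) (by decide +kernel)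
            (CovZ.badM (by decide +kernel))
            (CovZ.n1 (28032, 33120) (by decide +kernel)
             (CovZ.n2 (27984, 33072) (by decide +kernel)
              (CovZ.badM (by decide +kernel))
              (CovZ.n1 (28032, 33072) (by decide +kernel)
               (CovZ.n2 (28008, 33048) (by decide +kernel)
                (CovZ.leaf K2_ok TD_l10169 _)
                (CovZ.leaf K2_ok TD_l10170 _))
               (CovZ.n1 (28008, 33096) (by decide +kernel)
                (CovZ.badM (by decide +kernel))
                (CovZ.n1 (28008, 33072) (by decide +kernel)
                 (CovZ.leaf K2_ok TD_l18631 _)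
                 (CovZ.badM (by decide +kernel))))))
             (CovZ.badM (by decide +kernel))))
           (CovZ.badM (by decide +kernel))))
         (CovZ.n1 (27840, 33024) (by decide +kernel)
          (CovZ.subM 17498022485662813527091889201475847536890322233244400723455557649473297509279074525635566088069578752 (by decide +kernel)
           (CovZ.n2 (27744, 33120) (by decide +kernel)
            (CovZ.subM 1667355148462087078234163932460474855240562772367527378944 (by decide +kernel)
             (CovZ.n2 (27840, 33120) (by decide +kernel)
              (CovZ.n2 (27792, 33072) (by decide +kernel)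
               (CovZ.badM (by decide +kernel))
               (CovZ.n1 (27840, 33072) (by decide +kernel)
                (CovZ.n2 (27816, 33048) (by decide +kernel)
                 (CovZ.badM (by decide +kernel))
                 (CovZ.badM (by decide +kernel)))
                (CovZ.badM (by decide +kernel))))
              (CovZ.badM (by decide +kernel))))
            (CovZ.n1 (27744, 33024) (by decide +kernel)
             (CovZ.subM 1852673427797164439069588955042627778775482898760468878028734831783610465386496 (by decide +kernel)
              (CovZ.n2 (27696, 33072) (by decide +kernel)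
               (CovZ.badM (by decide +kernel))
               (CovZ.n1 (27696, 33024) (by decide +kernel)
                (CovZ.n2 (27672, 33048) (by decide +kernel)
                 (CovZ.badM (by decide +kernel))
                 (CovZ.n1 (27672, 33024) (by decide +kernel)
                  (CovZ.badM (by decide +kernel))
                  (CovZ.leaf K2_ok TD_l18632 _)))
                (CovZ.badM (by decide +kernel)))))
             (CovZ.subM 1863514577692920852104032351935714430743761380007028457472 (by decide +kernel)
              (CovZ.n1 (27792, 33072) (by decide +kernel)
               (CovZ.n2 (27792, 33024) (by decide +kernel)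
                (CovZ.n2 (27768, 33048) (by decide +kernel)
                 (CovZ.leaf K2_ok TD_l10171 _)
                 (CovZ.leaf K2_ok TD_l10172 _))
                (CovZ.n1 (27816, 33048) (by decide +kernel)
                 (CovZ.leaf K2_ok TD_l17931 _)
                 (CovZ.leaf K2_ok TD_l17932 _)))
               (CovZ.n1 (27744, 33072) (by decide +kernel)
                (CovZ.badM (by decide +kernel))
                (CovZ.leaf K2_ok TD_l17933 _)))))))
          (CovZ.subM 20784971756426055742816330943797063109091135333186954172962591485575425626496678496496669602615994391461888 (by decide +kernel)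
           (CovZ.n1 (27936, 33120) (by decide +kernel)
            (CovZ.n2 (27936, 33024) (by decide +kernel)
             (CovZ.subM 20784971192524435297272300596792589576952122821734882726590979399021350268205169886921410011172525777616896 (by decide +kernel)
              (CovZ.n2 (27888, 33072) (by decide +kernel)
               (CovZ.n2 (27936, 33072) (by decide +kernel)
                (CovZ.n2 (27912, 33048) (by decide +kernel)
                 (CovZ.leaf K2_ok TD_l17934 _)
                 (CovZ.leaf K2_ok TD_l17935 _))
                (CovZ.badM (by decide +kernel)))
               (CovZ.n1 (27888, 33024) (by decide +kernel)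
                (CovZ.badM (by decide +kernel))
                (CovZ.n1 (27912, 33048) (by decide +kernel)
                 (CovZ.leaf K2_ok TD_l17936 _)
                 (CovZ.leaf K2_ok TD_l17937 _)))))
             (CovZ.n1 (27984, 33072) (by decide +kernel)
              (CovZ.n2 (27984, 33024) (by decide +kernel)
               (CovZ.n2 (27960, 33048) (by decide +kernel)
                (CovZ.leaf K2_ok TD_l17938 _)
                (CovZ.leaf K2_ok TD_l17939 _))
               (CovZ.n1 (28008, 33048) (by decide +kernel)
                (CovZ.leaf K2_ok TD_l10173 _)
                (CovZ.leaf K2_ok TD_l17940 _)))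
              (CovZ.n1 (27936, 33072) (by decide +kernel)
               (CovZ.badM (by decide +kernel))
               (CovZ.leaf K2_ok TD_l17941 _))))
            (CovZ.n1 (27840, 33120) (by decide +kernel)
             (CovZ.badM (by decide +kernel))
             (CovZ.n1 (27888, 33072) (by decide +kernel)
              (CovZ.badM (by decide +kernel))
              (CovZ.badM (by decide +kernel))))))))
        (CovZ.n1 (28224, 33216) (by decide +kernel)
         (CovZ.n2 (28224, 33024) (by decide +kernel)
          (CovZ.subM 20784971756425012780397419080653079205671116525556917812915250477126484684226813513884430413628127563481088 (by decide +kernel)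
           (CovZ.n2 (28128, 33120) (by decide +kernel)
            (CovZ.n2 (28224, 33120) (by decide +kernel)
             (CovZ.n2 (28176, 33072) (by decide +kernel)
              (CovZ.badM (by decide +kernel))
              (CovZ.n1 (28224, 33072) (by decide +kernel)
               (CovZ.n2 (28200, 33048) (by decide +kernel)
                (CovZ.leaf K2_ok TD_l10174 _)
                (CovZ.leaf K2_ok TD_l10175 _))
               (CovZ.badM (by decide +kernel))))
             (CovZ.badM (by decide +kernel)))
            (CovZ.n1 (28128, 33024) (by decide +kernel)
             (CovZ.n2 (28080, 33072) (by decide +kernel)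
              (CovZ.n2 (28128, 33072) (by decide +kernel)
               (CovZ.n2 (28104, 33048) (by decide +kernel)
                (CovZ.leaf K3_ok TD_l10176 _)
                (CovZ.leaf K2_ok TD_l10177 _))
               (CovZ.n1 (28104, 33096) (by decide +kernel)
                (CovZ.badM (by decide +kernel))
                (CovZ.n1 (28104, 33072) (by decide +kernel)
                 (CovZ.leaf K2_ok TD_l17942 _)
                 (CovZ.badM (by decide +kernel)))))
              (CovZ.n1 (28080, 33024) (by decide +kernel)
               (CovZ.n2 (28056, 33048) (by decide +kernel)
                (CovZ.leaf K2_ok TD_l10178 _)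
                (CovZ.leaf K3_ok TD_l10179 _))
               (CovZ.n1 (28104, 33048) (by decide +kernel)
                (CovZ.leaf K2_ok TD_l10180 _)
                (CovZ.leaf K2_ok TD_l10181 _))))
             (CovZ.n1 (28176, 33072) (by decide +kernel)
              (CovZ.n2 (28176, 33024) (by decide +kernel)
               (CovZ.n2 (28152, 33048) (by decide +kernel)
                (CovZ.leaf K2_ok TD_l10182 _)
                (CovZ.leaf K2_ok TD_l10183 _))
               (CovZ.n1 (28200, 33048) (by decide +kernel)
                (CovZ.leaf K2_ok TD_l10184 _)
                (CovZ.leaf K2_ok TD_l10185 _)))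
              (CovZ.n1 (28128, 33072) (by decide +kernel)
               (CovZ.badM (by decide +kernel))
               (CovZ.leaf K2_ok TD_l10186 _))))))
          (CovZ.subM 143344261609128398839687659307856955885845791830126727909029705858786087050788295804266330977531682881536 (by decide +kernel)
           (CovZ.n1 (28320, 33120) (by decide +kernel)
            (CovZ.n2 (28320, 33024) (by decide +kernel)
             (CovZ.n2 (28272, 33072) (by decide +kernel)
              (CovZ.n2 (28320, 33072) (by decide +kernel)
               (CovZ.n2 (28296, 33048) (by decide +kernel)
                (CovZ.leaf K2_ok TD_l10187 _)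
                (CovZ.leaf K2_ok TD_l10188 _))
               (CovZ.n1 (28296, 33096) (by decide +kernel)
                (CovZ.leaf K2_ok TD_l17943 _)
                (CovZ.leaf K2_ok TD_l17944 _)))
              (CovZ.n1 (28272, 33024) (by decide +kernel)
               (CovZ.leaf K2_ok TD_l10189 _)
               (CovZ.n1 (28296, 33048) (by decide +kernel)
                (CovZ.leaf K2_ok TD_l10190 _)
                (CovZ.leaf K2_ok TD_l10191 _))))
             (CovZ.n1 (28368, 33072) (by decide +kernel)
              (CovZ.n2 (28368, 33024) (by decide +kernel)
               (CovZ.leaf K3_ok TD_l10192 _)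
               (CovZ.leaf K2_ok TD_l10193 _))
              (CovZ.n1 (28320, 33072) (by decide +kernel)
               (CovZ.n2 (28344, 33096) (by decide +kernel)
                (CovZ.leaf K3_ok TD_l17945 _)
                (CovZ.leaf K2_ok TD_l17946 _))
               (CovZ.leaf K2_ok TD_l10194 _))))
            (CovZ.n1 (28224, 33120) (by decide +kernel)
             (CovZ.badM (by decide +kernel))
             (CovZ.n1 (28272, 33072) (by decide +kernel)
              (CovZ.n2 (28224, 33072) (by decide +kernel)
               (CovZ.n2 (28248, 33096) (by decide +kernel)
                (CovZ.leaf K2_ok TD_l17947 _)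
                (CovZ.badM (by decide +kernel)))
               (CovZ.leaf K2_ok TD_l10195 _))
              (CovZ.n1 (28272, 33120) (by decide +kernel)
               (CovZ.leaf K2_ok TD_l17948 _)
               (CovZ.n1 (28248, 33096) (by decide +kernel)
                (CovZ.badM (by decide +kernel))
                (CovZ.leaf K2_ok TD_l17949 _))))))))
         (CovZ.subM 20784971756425012780396447686920893664898590335973605072953500548952041530424743636265673953994021921619968 (by decide +kernel)
          (CovZ.n1 (28032, 33216) (by decide +kernel)
           (CovZ.badM (by decide +kernel))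
           (CovZ.n1 (28128, 33120) (by decide +kernel)
            (CovZ.n2 (28032, 33120) (by decide +kernel)
             (CovZ.badM (by decide +kernel))
             (CovZ.n1 (28080, 33072) (by decide +kernel)
              (CovZ.n2 (28032, 33072) (by decide +kernel)
               (CovZ.badM (by decide +kernel))
               (CovZ.leaf K2_ok TD_l10196 _))
              (CovZ.badM (by decide +kernel))))
            (CovZ.badM (by decide +kernel)))))))
       (CovZ.subM 143483648613889470501776596258621422973166611240051665421237096334274067603509233419702697251570905513984 (by decide +kernel)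
        (CovZ.n1 (27648, 33408) (by decide +kernel)
         (CovZ.badM (by decide +kernel))
         (CovZ.n1 (27840, 33216) (by decide +kernel)
          (CovZ.subM 1852673427797164439069785114471858612549352767179944117604237886276061890609152 (by decide +kernel)
           (CovZ.n2 (27648, 33216) (by decide +kernel)
            (CovZ.badM (by decide +kernel))
            (CovZ.n1 (27744, 33120) (by decide +kernel)
             (CovZ.n2 (27648, 33120) (by decide +kernel)
              (CovZ.badM (by decide +kernel))
              (CovZ.n1 (27696, 33072) (by decide +kernel)
               (CovZ.n2 (27648, 33072) (by decide +kernel)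
                (CovZ.badM (by decide +kernel))
                (CovZ.n1 (27672, 33048) (by decide +kernel)
                 (CovZ.badM (by decide +kernel))
                 (CovZ.badM (by decide +kernel))))
               (CovZ.badM (by decide +kernel))))
             (CovZ.badM (by decide +kernel)))))
          (CovZ.badM (by decide +kernel)))))))
     (CovZ.n1 (28032, 32640) (by decide +kernel)
      TD_u188
      TD_u189))

theorem TD_u191 : CovZ TD_M (toL (selN TD_LN 31106013165409115760698403248851969236670168276631701813971026813976597136060881408535981692054890035548162)) [0, 7, 6, 1] (28416, 33024) (29184, 33792) (27648, 33792) :=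
    (CovZ.subM 31106013165408977178594637292837100231798639283542281608689951066160954829353715362694005056744619688591360 (by decide +kernel)
     (CovZ.n1 (28416, 33792) (by decide +kernel)
      (CovZ.subM 10321024457773116968716789017740849034145671204153610762152626594526993021801223146304651677404461565214720 (by decide +kernel)
       (CovZ.n2 (28800, 33408) (by decide +kernel)
        (CovZ.n2 (28416, 33408) (by decide +kernel)
         (CovZ.badM (by decide +kernel))
         (CovZ.n1 (28608, 33216) (by decide +kernel)
          (CovZ.n2 (28416, 33216) (by decide +kernel)
           (CovZ.badM (by decide +kernel))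
           (CovZ.n1 (28512, 33120) (by decide +kernel)
            (CovZ.n2 (28416, 33120) (by decide +kernel)
             (CovZ.n2 (28464, 33168) (by decide +kernel)
              (CovZ.n2 (28464, 33120) (by decide +kernel)
               (CovZ.badM (by decide +kernel))
               (CovZ.badM (by decide +kernel)))
              (CovZ.badM (by decide +kernel)))
             (CovZ.n1 (28464, 33072) (by decide +kernel)
              (CovZ.n2 (28416, 33072) (by decide +kernel)
               (CovZ.n2 (28440, 33096) (by decide +kernel)
                (CovZ.leaf K2_ok TD_l10343 _)
                (CovZ.leaf K2_ok TD_l17950 _))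
               (CovZ.leaf K2_ok TD_l10344 _))
              (CovZ.n1 (28464, 33120) (by decide +kernel)
               (CovZ.leaf K2_ok TD_l17951 _)
               (CovZ.n1 (28440, 33096) (by decide +kernel)
                (CovZ.leaf K2_ok TD_l17952 _)
                (CovZ.leaf K2_ok TD_l17953 _)))))
            (CovZ.n1 (28512, 33216) (by decide +kernel)
             (CovZ.badM (by decide +kernel))
             (CovZ.n1 (28464, 33168) (by decide +kernel)
              (CovZ.badM (by decide +kernel))
              (CovZ.badM (by decide +kernel))))))
          (CovZ.badM (by decide +kernel))))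
        (CovZ.badM (by decide +kernel))))
      (CovZ.n1 (28032, 33408) (by decide +kernel)
       (CovZ.badM (by decide +kernel))
       (CovZ.n1 (28416, 33408) (by decide +kernel)
        (CovZ.n2 (28224, 33216) (by decide +kernel)
         (CovZ.badM (by decide +kernel))
         (CovZ.subM 143344261609128398839687659307856955885845791830126727909029705858786087050788295804266330977531682881536 (by decide +kernel)
          (CovZ.n1 (28416, 33216) (by decide +kernel)
           (CovZ.n2 (28320, 33120) (by decide +kernel)
            (CovZ.badM (by decide +kernel))
            (CovZ.n1 (28416, 33120) (by decide +kernel)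
             (CovZ.n2 (28368, 33072) (by decide +kernel)
              (CovZ.n2 (28368, 33120) (by decide +kernel)
               (CovZ.leaf K2_ok TD_l17954 _)
               (CovZ.n1 (28344, 33096) (by decide +kernel)
                (CovZ.leaf K2_ok TD_l17955 _)
                (CovZ.leaf K2_ok TD_l17956 _)))
              (CovZ.n1 (28416, 33072) (by decide +kernel)
               (CovZ.n2 (28392, 33048) (by decide +kernel)
                (CovZ.leaf K2_ok TD_l10345 _)
                (CovZ.leaf K2_ok TD_l10346 _))
               (CovZ.n1 (28392, 33096) (by decide +kernel)
                (CovZ.leaf K2_ok TD_l17957 _)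
                (CovZ.leaf K2_ok TD_l17958 _))))
             (CovZ.badM (by decide +kernel))))
           (CovZ.badM (by decide +kernel)))))
        (CovZ.badM (by decide +kernel))))))

theorem TD_u192 : CovZ TD_M (toL (selN TD_LN 546846060067284510008841860500162534049019270509240383687477071903430388114081485783914654923751442)) [0, 7, 6, 1] (30720, 33792) (30336, 33408) (30720, 33024) :=
    (CovZ.subM 546812681195768522444263362611972697033546945874603016413549657612040782213768813096797722127106064 (by decide +kernel)
        (CovZ.n2 (30720, 33408) (by decide +kernel)
         (CovZ.n2 (30528, 33216) (by decide +kernel)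
          (CovZ.badM (by decide +kernel))
          (CovZ.n1 (30720, 33216) (by decide +kernel)
           (CovZ.n2 (30624, 33120) (by decide +kernel)
            (CovZ.subM 15541351137805832567355695254588151299907307107006009552532413924832290910631777796112 (by decide +kernel)
             (CovZ.n2 (30624, 33216) (by decide +kernel)
              (CovZ.n2 (30672, 33168) (by decide +kernel)
               (CovZ.n2 (30624, 33168) (by decide +kernel)
                (CovZ.n2 (30648, 33192) (by decide +kernel)
                 (CovZ.leaf K2_ok TD_l12086 _)
                 (CovZ.leaf K2_ok TD_l12087 _))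
                (CovZ.leaf K2_ok TD_l12088 _))
               (CovZ.n1 (30672, 33216) (by decide +kernel)
                (CovZ.leaf K2_ok TD_l12089 _)
                (CovZ.n1 (30648, 33192) (by decide +kernel)
                 (CovZ.leaf K2_ok TD_l17979 _)
                 (CovZ.leaf K2_ok TD_l12090 _))))
              (CovZ.n1 (30576, 33168) (by decide +kernel)
               (CovZ.n2 (30576, 33216) (by decide +kernel)
                (CovZ.leaf K2_ok TD_l12091 _)
                (CovZ.n1 (30552, 33192) (by decide +kernel)
                 (CovZ.badM (by decide +kernel))
                 (CovZ.leaf K2_ok TD_l12092 _)))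
               (CovZ.n1 (30624, 33168) (by decide +kernel)
                (CovZ.leaf K2_ok TD_l12093 _)
                (CovZ.leaf K2_ok TD_l12094 _)))))
            (CovZ.n1 (30720, 33120) (by decide +kernel)
             (CovZ.n2 (30672, 33072) (by decide +kernel)
              (CovZ.n2 (30672, 33120) (by decide +kernel)
               (CovZ.leaf K2_ok TD_l12095 _)
               (CovZ.leaf K2_ok TD_l12096 _))
              (CovZ.leaf K2_ok TD_l12097 _))
             (CovZ.subM 15541351137805832567355695254588151299907307107006009552532413924832290910631777796112 (by decide +kernel)
              (CovZ.n1 (30672, 33168) (by decide +kernel)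
               (CovZ.n2 (30720, 33168) (by decide +kernel)
                (CovZ.n2 (30696, 33144) (by decide +kernel)
                 (CovZ.leaf K2_ok TD_l12098 _)
                 (CovZ.leaf K2_ok TD_l12099 _))
                (CovZ.leaf K2_ok TD_l12100 _))
               (CovZ.n1 (30672, 33120) (by decide +kernel)
                (CovZ.leaf K2_ok TD_l12101 _)
                (CovZ.n1 (30696, 33144) (by decide +kernel)
                 (CovZ.leaf K2_ok TD_l12102 _)
                 (CovZ.leaf K2_ok TD_l12103 _)))))))
           (CovZ.subM 46768052394588893382517914646921056628989841375248 (by decide +kernel)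
            (CovZ.n1 (30624, 33312) (by decide +kernel)
             (CovZ.n2 (30720, 33312) (by decide +kernel)
              (CovZ.n2 (30672, 33264) (by decide +kernel)
               (CovZ.badM (by decide +kernel))
               (CovZ.n1 (30720, 33264) (by decide +kernel)
                (CovZ.n2 (30696, 33240) (by decide +kernel)
                 (CovZ.badM (by decide +kernel))
                 (CovZ.leaf K2_ok TD_l17980 _))
                (CovZ.badM (by decide +kernel))))
              (CovZ.badM (by decide +kernel)))
             (CovZ.n1 (30624, 33216) (by decide +kernel)
              (CovZ.badM (by decide +kernel))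
              (CovZ.n1 (30672, 33264) (by decide +kernel)
               (CovZ.n2 (30672, 33216) (by decide +kernel)
                (CovZ.badM (by decide +kernel))
                (CovZ.n1 (30696, 33240) (by decide +kernel)
                 (CovZ.leaf K2_ok TD_l17981 _)
                 (CovZ.badM (by decide +kernel))))
               (CovZ.badM (by decide +kernel))))))))
         (CovZ.badM (by decide +kernel))))

theorem TD_u193 : CovZ TD_M (toL (selN TD_LN 546846060067284510008841860500162534049019270509240383687477071903430388114081485783914654923751442)) [0, 7, 6, 1] (30336, 33408) (29952, 33024) (30720, 33024) :=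
    (CovZ.n1 (30336, 33024) (by decide +kernel)
        (CovZ.n2 (30144, 33216) (by decide +kernel)
         (CovZ.subM 546812681195768522444263362611972697033546945874603016413552379870976149721476520093657176272797712 (by decide +kernel)
          (CovZ.n2 (30336, 33216) (by decide +kernel)
           (CovZ.n2 (30240, 33120) (by decide +kernel)
            (CovZ.subM 15541351137805832567355695254588151253139254712417116170014499277911234281641936420864 (by decide +kernel)
             (CovZ.n2 (30240, 33216) (by decide +kernel)
              (CovZ.n2 (30288, 33168) (by decide +kernel)
               (CovZ.n2 (30240, 33168) (by decide +kernel)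
                (CovZ.badM (by decide +kernel))
                (CovZ.leaf K2_ok TD_l12106 _))
               (CovZ.n1 (30288, 33216) (by decide +kernel)
                (CovZ.leaf K2_ok TD_l12107 _)
                (CovZ.badM (by decide +kernel))))
              (CovZ.n1 (30192, 33168) (by decide +kernel)
               (CovZ.badM (by decide +kernel))
               (CovZ.n1 (30240, 33168) (by decide +kernel)
                (CovZ.n2 (30216, 33144) (by decide +kernel)
                 (CovZ.badM (by decide +kernel))
                 (CovZ.leaf K2_ok TD_l12112 _))
                (CovZ.badM (by decide +kernel))))))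
            (CovZ.n1 (30336, 33120) (by decide +kernel)
             (CovZ.n2 (30288, 33072) (by decide +kernel)
              (CovZ.n2 (30288, 33120) (by decide +kernel)
               (CovZ.leaf K2_ok TD_l12114 _)
               (CovZ.leaf K2_ok TD_l12115 _))
              (CovZ.n1 (30336, 33072) (by decide +kernel)
               (CovZ.leaf K2_ok TD_l12116 _)
               (CovZ.leaf K2_ok TD_l12117 _)))
             (CovZ.subM 15541351137805832567355695254588151253139254712417116170014499277911234281641936420864 (by decide +kernel)
              (CovZ.n1 (30288, 33168) (by decide +kernel)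
               (CovZ.n2 (30336, 33168) (by decide +kernel)
                (CovZ.leaf K2_ok TD_l12118 _)
                (CovZ.leaf K2_ok TD_l12119 _))
               (CovZ.n1 (30288, 33120) (by decide +kernel)
                (CovZ.leaf K2_ok TD_l12120 _)
                (CovZ.leaf K2_ok TD_l12121 _))))))
           (CovZ.badM (by decide +kernel))))
         (CovZ.n1 (30144, 33024) (by decide +kernel)
          (CovZ.n2 (30048, 33120) (by decide +kernel)
           (CovZ.subM 546812681195752981093125557000261224435590398921215296699310188339859104417004057567947319925014528 (by decide +kernel)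
            (CovZ.n2 (30144, 33120) (by decide +kernel)
             (CovZ.n2 (30096, 33072) (by decide +kernel)
              (CovZ.n2 (30096, 33120) (by decide +kernel)
               (CovZ.leaf K2_ok TD_l12122 _)
               (CovZ.leaf K2_ok TD_l12123 _))
              (CovZ.leaf K2_ok TD_l12124 _))
             (CovZ.subM 268435456 (by decide +kernel)
              (CovZ.n1 (30096, 33168) (by decide +kernel)
               (CovZ.n2 (30144, 33168) (by decide +kernel)
                (CovZ.n2 (30120, 33144) (by decide +kernel)
                 (CovZ.badM (by decide +kernel))
                 (CovZ.leaf K2_ok TD_l12126 _))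
                (CovZ.badM (by decide +kernel)))
               (CovZ.n1 (30096, 33120) (by decide +kernel)
                (CovZ.leaf K2_ok TD_l12129 _)
                (CovZ.n1 (30120, 33144) (by decide +kernel)
                 (CovZ.leaf K2_ok TD_l12130 _)
                 (CovZ.leaf K2_ok TD_l12131 _)))))))
           (CovZ.n1 (30048, 33024) (by decide +kernel)
            (CovZ.n2 (30000, 33072) (by decide +kernel)
             (CovZ.leaf K2_ok TD_l12132 _)
             (CovZ.n1 (30000, 33024) (by decide +kernel)
              (CovZ.leaf K2_ok TD_l12133 _)
              (CovZ.leaf K2_ok TD_l12134 _)))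
            (CovZ.n1 (30096, 33072) (by decide +kernel)
             (CovZ.n2 (30096, 33024) (by decide +kernel)
              (CovZ.leaf K2_ok TD_l12135 _)
              (CovZ.leaf K2_ok TD_l12136 _))
             (CovZ.leaf K2_ok TD_l12137 _))))
          (CovZ.n1 (30240, 33120) (by decide +kernel)
           (CovZ.n2 (30240, 33024) (by decide +kernel)
            (CovZ.n2 (30192, 33072) (by decide +kernel)
             (CovZ.leaf K2_ok TD_l12138 _)
             (CovZ.n1 (30192, 33024) (by decide +kernel)
              (CovZ.leaf K2_ok TD_l12139 _)
              (CovZ.leaf K2_ok TD_l12140 _)))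
            (CovZ.n1 (30288, 33072) (by decide +kernel)
             (CovZ.n2 (30288, 33024) (by decide +kernel)
              (CovZ.leaf K2_ok TD_l12141 _)
              (CovZ.leaf K2_ok TD_l12142 _))
             (CovZ.leaf K2_ok TD_l12143 _)))
           (CovZ.subM 546812681195752981093125557000261224435590398921215296699310188339859104417004057567947319925014528 (by decide +kernel)
            (CovZ.n1 (30144, 33120) (by decide +kernel)
             (CovZ.subM 268435456 (by decide +kernel)
              (CovZ.n2 (30192, 33168) (by decide +kernel)
               (CovZ.n2 (30192, 33120) (by decide +kernel)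
                (CovZ.leaf K2_ok TD_l12144 _)
                (CovZ.n1 (30216, 33144) (by decide +kernel)
                 (CovZ.leaf K2_ok TD_l12145 _)
                 (CovZ.leaf K2_ok TD_l12146 _)))
               (CovZ.n1 (30144, 33168) (by decide +kernel)
                (CovZ.badM (by decide +kernel))
                (CovZ.leaf K2_ok TD_l12149 _))))
             (CovZ.n1 (30192, 33072) (by decide +kernel)
              (CovZ.leaf K2_ok TD_l12150 _)
              (CovZ.n1 (30192, 33120) (by decide +kernel)
               (CovZ.leaf K2_ok TD_l12151 _)
               (CovZ.leaf K2_ok TD_l12152 _))))))))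
        (CovZ.subM 546812681195768522444263362611972697033546945874603016413552379870976149721476520093657176272797712 (by decide +kernel)
         (CovZ.n1 (30528, 33216) (by decide +kernel)
          (CovZ.n2 (30528, 33024) (by decide +kernel)
           (CovZ.n2 (30432, 33120) (by decide +kernel)
            (CovZ.n2 (30528, 33120) (by decide +kernel)
             (CovZ.n2 (30480, 33072) (by decide +kernel)
              (CovZ.n2 (30480, 33120) (by decide +kernel)
               (CovZ.leaf K2_ok TD_l12153 _)
               (CovZ.leaf K2_ok TD_l12154 _))
              (CovZ.leaf K2_ok TD_l12155 _))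
             (CovZ.subM 15541351137805832567355695254588151299907307107006009552532413924832290910631777796112 (by decide +kernel)
              (CovZ.n1 (30480, 33168) (by decide +kernel)
               (CovZ.n2 (30528, 33168) (by decide +kernel)
                (CovZ.n2 (30504, 33144) (by decide +kernel)
                 (CovZ.leaf K2_ok TD_l12156 _)
                 (CovZ.leaf K2_ok TD_l12157 _))
                (CovZ.leaf K2_ok TD_l12158 _))
               (CovZ.n1 (30480, 33120) (by decide +kernel)
                (CovZ.leaf K2_ok TD_l12159 _)
                (CovZ.n1 (30504, 33144) (by decide +kernel)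
                 (CovZ.leaf K2_ok TD_l12160 _)
                 (CovZ.leaf K2_ok TD_l12161 _))))))
            (CovZ.n1 (30432, 33024) (by decide +kernel)
             (CovZ.n2 (30384, 33072) (by decide +kernel)
              (CovZ.leaf K2_ok TD_l12162 _)
              (CovZ.n1 (30384, 33024) (by decide +kernel)
               (CovZ.leaf K2_ok TD_l12163 _)
               (CovZ.leaf K2_ok TD_l12164 _)))
             (CovZ.n1 (30480, 33072) (by decide +kernel)
              (CovZ.n2 (30480, 33024) (by decide +kernel)
               (CovZ.leaf K2_ok TD_l12165 _)
               (CovZ.leaf K2_ok TD_l12166 _))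
              (CovZ.leaf K2_ok TD_l12167 _))))
           (CovZ.n1 (30624, 33120) (by decide +kernel)
            (CovZ.n2 (30624, 33024) (by decide +kernel)
             (CovZ.n2 (30576, 33072) (by decide +kernel)
              (CovZ.leaf K2_ok TD_l12168 _)
              (CovZ.n1 (30576, 33024) (by decide +kernel)
               (CovZ.leaf K2_ok TD_l12169 _)
               (CovZ.leaf K2_ok TD_l12170 _)))
             (CovZ.n1 (30672, 33072) (by decide +kernel)
              (CovZ.n2 (30672, 33024) (by decide +kernel)
               (CovZ.leaf K2_ok TD_l12171 _)
               (CovZ.leaf K2_ok TD_l12172 _))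
              (CovZ.leaf K2_ok TD_l12173 _)))
            (CovZ.n1 (30528, 33120) (by decide +kernel)
             (CovZ.subM 15541351137805832567355695254588151299907307107006009552532413924832290910631777796112 (by decide +kernel)
              (CovZ.n2 (30576, 33168) (by decide +kernel)
               (CovZ.n2 (30576, 33120) (by decide +kernel)
                (CovZ.leaf K2_ok TD_l12174 _)
                (CovZ.leaf K2_ok TD_l12175 _))
               (CovZ.n1 (30528, 33168) (by decide +kernel)
                (CovZ.n2 (30552, 33192) (by decide +kernel)
                 (CovZ.leaf K2_ok TD_l12176 _)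
                 (CovZ.leaf K2_ok TD_l12177 _))
                (CovZ.leaf K2_ok TD_l12178 _))))
             (CovZ.n1 (30576, 33072) (by decide +kernel)
              (CovZ.leaf K2_ok TD_l12179 _)
              (CovZ.n1 (30576, 33120) (by decide +kernel)
               (CovZ.leaf K2_ok TD_l12180 _)
               (CovZ.leaf K2_ok TD_l12181 _))))))
          (CovZ.n1 (30336, 33216) (by decide +kernel)
           (CovZ.badM (by decide +kernel))
           (CovZ.n1 (30432, 33120) (by decide +kernel)
            (CovZ.n2 (30336, 33120) (by decide +kernel)
             (CovZ.subM 15541351137805832567355695254588151253139254712417116170014499277911234281641936420864 (by decide +kernel)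
              (CovZ.n2 (30384, 33168) (by decide +kernel)
               (CovZ.n2 (30384, 33120) (by decide +kernel)
                (CovZ.leaf K2_ok TD_l12182 _)
                (CovZ.n1 (30408, 33144) (by decide +kernel)
                 (CovZ.leaf K2_ok TD_l12183 _)
                 (CovZ.leaf K2_ok TD_l12184 _)))
               (CovZ.n1 (30336, 33168) (by decide +kernel)
                (CovZ.n2 (30360, 33192) (by decide +kernel)
                 (CovZ.leaf K2_ok TD_l12185 _)
                 (CovZ.leaf K2_ok TD_l12186 _))
                (CovZ.leaf K2_ok TD_l12187 _))))
             (CovZ.n1 (30384, 33072) (by decide +kernel)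
              (CovZ.leaf K2_ok TD_l12188 _)
              (CovZ.n1 (30384, 33120) (by decide +kernel)
               (CovZ.leaf K2_ok TD_l12189 _)
               (CovZ.leaf K2_ok TD_l12190 _))))
            (CovZ.subM 15541351137805832567355695254588151253139254712417116170014499277911234281641936420864 (by decide +kernel)
             (CovZ.n1 (30432, 33216) (by decide +kernel)
              (CovZ.n2 (30480, 33168) (by decide +kernel)
               (CovZ.n2 (30432, 33168) (by decide +kernel)
                (CovZ.n2 (30456, 33192) (by decide +kernel)
                 (CovZ.leaf K2_ok TD_l12191 _)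
                 (CovZ.leaf K2_ok TD_l12192 _))
                (CovZ.leaf K2_ok TD_l12193 _))
               (CovZ.n1 (30480, 33216) (by decide +kernel)
                (CovZ.leaf K2_ok TD_l12194 _)
                (CovZ.n1 (30456, 33192) (by decide +kernel)
                 (CovZ.badM (by decide +kernel))
                 (CovZ.leaf K2_ok TD_l12195 _))))
              (CovZ.n1 (30384, 33168) (by decide +kernel)
               (CovZ.n2 (30384, 33216) (by decide +kernel)
                (CovZ.leaf K2_ok TD_l12196 _)
                (CovZ.n1 (30360, 33192) (by decide +kernel)
                 (CovZ.badM (by decide +kernel))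
                 (CovZ.leaf K2_ok TD_l12198 _)))
               (CovZ.n1 (30432, 33168) (by decide +kernel)
                (CovZ.n2 (30408, 33144) (by decide +kernel)
                 (CovZ.leaf K2_ok TD_l12199 _)
                 (CovZ.leaf K2_ok TD_l12200 _))
                (CovZ.leaf K2_ok TD_l12201 _))))))))))

theorem TD_u194 : CovZ TD_M (toL (selN TD_LN 683549230366222755282123263829790387610666996606446166907435864082379617138828252949375335957794834)) [0, 7, 6, 1] (29952, 33024) (29568, 33408) (29184, 33024) :=
    (CovZ.n2 (29568, 33024) (by decide +kernel)
       (CovZ.subM 683549230366199443255416554860083470970487073181607502357807089837775967224274015820233243403747328 (by decide +kernel)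
        (CovZ.n2 (29376, 33216) (by decide +kernel)
         (CovZ.n2 (29568, 33216) (by decide +kernel)
          (CovZ.n2 (29472, 33120) (by decide +kernel)
           (CovZ.subM 136736545096374509493318811409010234586363756688987599976143807684679652140884024707204611469475840 (by decide +kernel)
            (CovZ.n2 (29472, 33216) (by decide +kernel)
             (CovZ.n2 (29520, 33168) (by decide +kernel)
              (CovZ.n2 (29472, 33168) (by decide +kernel)
               (CovZ.n2 (29496, 33192) (by decide +kernel)
                (CovZ.leaf K2_ok TD_l12255 _)
                (CovZ.leaf K2_ok TD_l12256 _))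
               (CovZ.leaf K2_ok TD_l12257 _))
              (CovZ.n1 (29520, 33216) (by decide +kernel)
               (CovZ.leaf K2_ok TD_l12258 _)
               (CovZ.n1 (29496, 33192) (by decide +kernel)
                (CovZ.badM (by decide +kernel))
                (CovZ.leaf K2_ok TD_l12260 _))))
             (CovZ.n1 (29424, 33168) (by decide +kernel)
              (CovZ.badM (by decide +kernel))
              (CovZ.n1 (29472, 33168) (by decide +kernel)
               (CovZ.n2 (29448, 33144) (by decide +kernel)
                (CovZ.leaf K2_ok TD_l12263 _)
                (CovZ.leaf K2_ok TD_l12264 _))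
               (CovZ.n1 (29448, 33192) (by decide +kernel)
                (CovZ.leaf K2_ok TD_l12265 _)
                (CovZ.leaf K2_ok TD_l12266 _))))))
           (CovZ.n1 (29568, 33120) (by decide +kernel)
            (CovZ.n2 (29520, 33072) (by decide +kernel)
             (CovZ.n2 (29520, 33120) (by decide +kernel)
              (CovZ.leaf K2_ok TD_l12267 _)
              (CovZ.leaf K2_ok TD_l12268 _))
             (CovZ.n1 (29568, 33072) (by decide +kernel)
              (CovZ.leaf K2_ok TD_l12269 _)
              (CovZ.leaf K2_ok TD_l12270 _)))
            (CovZ.subM 33374797436264220037422214158899251790667258161822699533144784057589690923029505735037905534976 (by decide +kernel)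
             (CovZ.n1 (29520, 33168) (by decide +kernel)
              (CovZ.n2 (29568, 33168) (by decide +kernel)
               (CovZ.n2 (29544, 33144) (by decide +kernel)
                (CovZ.leaf K2_ok TD_l12271 _)
                (CovZ.leaf K2_ok TD_l12272 _))
               (CovZ.n1 (29544, 33192) (by decide +kernel)
                (CovZ.leaf K2_ok TD_l12273 _)
                (CovZ.leaf K2_ok TD_l12274 _)))
              (CovZ.n1 (29520, 33120) (by decide +kernel)
               (CovZ.leaf K2_ok TD_l12275 _)
               (CovZ.n1 (29544, 33144) (by decide +kernel)
                (CovZ.leaf K2_ok TD_l12276 _)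
                (CovZ.leaf K2_ok TD_l12277 _)))))))
          (CovZ.subM 2722258935367507707706996859454145691648 (by decide +kernel)
           (CovZ.n1 (29472, 33312) (by decide +kernel)
            (CovZ.badM (by decide +kernel))
            (CovZ.n1 (29472, 33216) (by decide +kernel)
             (CovZ.badM (by decide +kernel))
             (CovZ.n1 (29520, 33264) (by decide +kernel)
              (CovZ.n2 (29520, 33216) (by decide +kernel)
               (CovZ.badM (by decide +kernel))
               (CovZ.badM (by decide +kernel)))
              (CovZ.badM (by decide +kernel)))))))
         (CovZ.n1 (29376, 33024) (by decide +kernel)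
          (CovZ.n2 (29280, 33120) (by decide +kernel)
           (CovZ.n2 (29376, 33120) (by decide +kernel)
            (CovZ.n2 (29328, 33072) (by decide +kernel)
             (CovZ.n2 (29328, 33120) (by decide +kernel)
              (CovZ.leaf K2_ok TD_l12278 _)
              (CovZ.leaf K2_ok TD_l12279 _))
             (CovZ.n1 (29376, 33072) (by decide +kernel)
              (CovZ.leaf K2_ok TD_l12280 _)
              (CovZ.leaf K2_ok TD_l12281 _)))
            (CovZ.subM 136736545096374509493318811409010234586363756688987599976141085425744284633176317710345157323784192 (by decide +kernel)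
             (CovZ.n1 (29328, 33168) (by decide +kernel)
              (CovZ.n2 (29376, 33168) (by decide +kernel)
               (CovZ.n2 (29352, 33144) (by decide +kernel)
                (CovZ.leaf K2_ok TD_l12282 _)
                (CovZ.leaf K2_ok TD_l12283 _))
               (CovZ.badM (by decide +kernel)))
              (CovZ.n1 (29328, 33120) (by decide +kernel)
               (CovZ.leaf K2_ok TD_l12286 _)
               (CovZ.n1 (29352, 33144) (by decide +kernel)
                (CovZ.leaf K2_ok TD_l12287 _)
                (CovZ.leaf K2_ok TD_l12288 _))))))
           (CovZ.n1 (29280, 33024) (by decide +kernel)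
            (CovZ.n2 (29232, 33072) (by decide +kernel)
             (CovZ.n2 (29280, 33072) (by decide +kernel)
              (CovZ.leaf K2_ok TD_l12289 _)
              (CovZ.leaf K2_ok TD_l12290 _))
             (CovZ.n1 (29232, 33024) (by decide +kernel)
              (CovZ.leaf K2_ok TD_l12291 _)
              (CovZ.leaf K2_ok TD_l12292 _)))
            (CovZ.n1 (29328, 33072) (by decide +kernel)
             (CovZ.n2 (29328, 33024) (by decide +kernel)
              (CovZ.leaf K2_ok TD_l12293 _)
              (CovZ.leaf K2_ok TD_l12294 _))
             (CovZ.leaf K2_ok TD_l12295 _))))
          (CovZ.n1 (29472, 33120) (by decide +kernel)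
           (CovZ.n2 (29472, 33024) (by decide +kernel)
            (CovZ.n2 (29424, 33072) (by decide +kernel)
             (CovZ.n2 (29472, 33072) (by decide +kernel)
              (CovZ.leaf K2_ok TD_l12296 _)
              (CovZ.leaf K2_ok TD_l12297 _))
             (CovZ.n1 (29424, 33024) (by decide +kernel)
              (CovZ.leaf K2_ok TD_l12298 _)
              (CovZ.leaf K2_ok TD_l12299 _)))
            (CovZ.n1 (29520, 33072) (by decide +kernel)
             (CovZ.n2 (29520, 33024) (by decide +kernel)
              (CovZ.leaf K2_ok TD_l12300 _)
              (CovZ.leaf K2_ok TD_l12301 _))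
             (CovZ.leaf K2_ok TD_l12302 _)))
           (CovZ.n1 (29376, 33120) (by decide +kernel)
            (CovZ.subM 136736545096374509493318811409010234586363756688987599976141085425744284633176317710345157323784192 (by decide +kernel)
             (CovZ.n2 (29424, 33168) (by decide +kernel)
              (CovZ.n2 (29424, 33120) (by decide +kernel)
               (CovZ.leaf K2_ok TD_l12303 _)
               (CovZ.n1 (29448, 33144) (by decide +kernel)
                (CovZ.leaf K2_ok TD_l12304 _)
                (CovZ.leaf K2_ok TD_l12305 _)))
              (CovZ.n1 (29376, 33168) (by decide +kernel)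
               (CovZ.badM (by decide +kernel))
               (CovZ.leaf K2_ok TD_l12308 _))))
            (CovZ.n1 (29424, 33072) (by decide +kernel)
             (CovZ.leaf K2_ok TD_l12309 _)
             (CovZ.n1 (29424, 33120) (by decide +kernel)
              (CovZ.leaf K2_ok TD_l12310 _)
              (CovZ.n1 (29400, 33096) (by decide +kernel)
               (CovZ.leaf K2_ok TD_l12311 _)
               (CovZ.leaf K2_ok TD_l12312 _)))))))))
       (CovZ.subM 546846060067261197982135151751311500506137388282313906753013857335792848450517697876144677557108736 (by decide +kernel)
        (CovZ.n1 (29760, 33216) (by decide +kernel)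
         (CovZ.n2 (29760, 33024) (by decide +kernel)
          (CovZ.n2 (29664, 33120) (by decide +kernel)
           (CovZ.n2 (29760, 33120) (by decide +kernel)
            (CovZ.n2 (29712, 33072) (by decide +kernel)
             (CovZ.n2 (29712, 33120) (by decide +kernel)
              (CovZ.leaf K2_ok TD_l12313 _)
              (CovZ.leaf K2_ok TD_l12314 _))
             (CovZ.n1 (29760, 33072) (by decide +kernel)
              (CovZ.leaf K2_ok TD_l12315 _)
              (CovZ.leaf K2_ok TD_l12316 _)))
            (CovZ.subM 33374797436264220037422214158899251790667258161822699533144784057589690923029505453562928824320 (by decide +kernel)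
             (CovZ.n1 (29712, 33168) (by decide +kernel)
              (CovZ.n2 (29760, 33168) (by decide +kernel)
               (CovZ.n2 (29736, 33144) (by decide +kernel)
                (CovZ.leaf K2_ok TD_l12317 _)
                (CovZ.leaf K2_ok TD_l12318 _))
               (CovZ.n1 (29736, 33192) (by decide +kernel)
                (CovZ.leaf K2_ok TD_l12319 _)
                (CovZ.leaf K2_ok TD_l12320 _)))
              (CovZ.n1 (29712, 33120) (by decide +kernel)
               (CovZ.leaf K2_ok TD_l12321 _)
               (CovZ.n1 (29736, 33144) (by decide +kernel)
                (CovZ.leaf K2_ok TD_l12322 _)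
                (CovZ.leaf K2_ok TD_l12323 _))))))
           (CovZ.n1 (29664, 33024) (by decide +kernel)
            (CovZ.n2 (29616, 33072) (by decide +kernel)
             (CovZ.leaf K2_ok TD_l12324 _)
             (CovZ.n1 (29616, 33024) (by decide +kernel)
              (CovZ.leaf K2_ok TD_l12325 _)
              (CovZ.leaf K2_ok TD_l12326 _)))
            (CovZ.n1 (29712, 33072) (by decide +kernel)
             (CovZ.n2 (29712, 33024) (by decide +kernel)
              (CovZ.leaf K2_ok TD_l12327 _)
              (CovZ.leaf K2_ok TD_l12328 _))
             (CovZ.leaf K2_ok TD_l12329 _))))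
          (CovZ.n1 (29856, 33120) (by decide +kernel)
           (CovZ.n2 (29856, 33024) (by decide +kernel)
            (CovZ.n2 (29808, 33072) (by decide +kernel)
             (CovZ.leaf K2_ok TD_l12330 _)
             (CovZ.n1 (29808, 33024) (by decide +kernel)
              (CovZ.leaf K2_ok TD_l12331 _)
              (CovZ.leaf K2_ok TD_l12332 _)))
            (CovZ.n1 (29904, 33072) (by decide +kernel)
             (CovZ.n2 (29904, 33024) (by decide +kernel)
              (CovZ.leaf K2_ok TD_l12333 _)
              (CovZ.leaf K2_ok TD_l12334 _))
             (CovZ.leaf K2_ok TD_l12335 _)))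
           (CovZ.n1 (29760, 33120) (by decide +kernel)
            (CovZ.subM 33374797436264220037422214158899251790667258161822699533144784057589690923029505453562928300032 (by decide +kernel)
             (CovZ.n2 (29808, 33168) (by decide +kernel)
              (CovZ.n2 (29808, 33120) (by decide +kernel)
               (CovZ.leaf K2_ok TD_l12336 _)
               (CovZ.n1 (29832, 33144) (by decide +kernel)
                (CovZ.leaf K2_ok TD_l12337 _)
                (CovZ.leaf K2_ok TD_l12338 _)))
              (CovZ.n1 (29760, 33168) (by decide +kernel)
               (CovZ.n2 (29784, 33192) (by decide +kernel)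
                (CovZ.leaf K2_ok TD_l12339 _)
                (CovZ.leaf K2_ok TD_l12340 _))
               (CovZ.leaf K2_ok TD_l12341 _))))
            (CovZ.n1 (29808, 33072) (by decide +kernel)
             (CovZ.n2 (29760, 33072) (by decide +kernel)
              (CovZ.n2 (29784, 33096) (by decide +kernel)
               (CovZ.leaf K2_ok TD_l12342 _)
               (CovZ.leaf K2_ok TD_l12343 _))
              (CovZ.leaf K2_ok TD_l12344 _))
             (CovZ.n1 (29808, 33120) (by decide +kernel)
              (CovZ.leaf K2_ok TD_l12345 _)
              (CovZ.leaf K2_ok TD_l12346 _))))))
         (CovZ.n1 (29568, 33216) (by decide +kernel)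
          (CovZ.badM (by decide +kernel))
          (CovZ.n1 (29664, 33120) (by decide +kernel)
           (CovZ.n2 (29568, 33120) (by decide +kernel)
            (CovZ.subM 33374797436264220037422214158899251790667258161822699533144784057589690923029505735037905534976 (by decide +kernel)
             (CovZ.n2 (29616, 33168) (by decide +kernel)
              (CovZ.n2 (29616, 33120) (by decide +kernel)
               (CovZ.leaf K2_ok TD_l12347 _)
               (CovZ.n1 (29640, 33144) (by decide +kernel)
                (CovZ.leaf K2_ok TD_l12348 _)
                (CovZ.leaf K2_ok TD_l12349 _)))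
              (CovZ.n1 (29568, 33168) (by decide +kernel)
               (CovZ.n2 (29592, 33192) (by decide +kernel)
                (CovZ.leaf K2_ok TD_l12350 _)
                (CovZ.leaf K2_ok TD_l12351 _))
               (CovZ.leaf K2_ok TD_l12352 _))))
            (CovZ.n1 (29616, 33072) (by decide +kernel)
             (CovZ.leaf K2_ok TD_l12353 _)
             (CovZ.n1 (29616, 33120) (by decide +kernel)
              (CovZ.leaf K2_ok TD_l12354 _)
              (CovZ.leaf K2_ok TD_l12355 _))))
           (CovZ.subM 33374797436264220037422214158899251790667258161822699533144784057589690923029505735037905534976 (by decide +kernel)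
            (CovZ.n1 (29664, 33216) (by decide +kernel)
             (CovZ.n2 (29712, 33168) (by decide +kernel)
              (CovZ.n2 (29664, 33168) (by decide +kernel)
               (CovZ.n2 (29688, 33192) (by decide +kernel)
                (CovZ.leaf K2_ok TD_l12356 _)
                (CovZ.leaf K2_ok TD_l12357 _))
               (CovZ.leaf K2_ok TD_l12358 _))
              (CovZ.n1 (29712, 33216) (by decide +kernel)
               (CovZ.leaf K2_ok TD_l12359 _)
               (CovZ.n1 (29688, 33192) (by decide +kernel)
                (CovZ.badM (by decide +kernel))
                (CovZ.leaf K2_ok TD_l12361 _))))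
             (CovZ.n1 (29616, 33168) (by decide +kernel)
              (CovZ.n2 (29616, 33216) (by decide +kernel)
               (CovZ.leaf K2_ok TD_l12362 _)
               (CovZ.n1 (29592, 33192) (by decide +kernel)
                (CovZ.leaf K2_ok TD_l12363 _)
                (CovZ.leaf K2_ok TD_l12364 _)))
              (CovZ.n1 (29664, 33168) (by decide +kernel)
               (CovZ.n2 (29640, 33144) (by decide +kernel)
                (CovZ.leaf K2_ok TD_l12365 _)
                (CovZ.leaf K2_ok TD_l12366 _))
               (CovZ.leaf K2_ok TD_l12367 _))))))))))

theorem TD_u195 : CovZ TD_M (toL (selN TD_LN 683549230366222755282123263829790387610666996606446166907435864082379617138828252949375335957794834)) [0, 7, 6, 1] (29568, 33408) (29184, 33792) (29184, 33024) :=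
    (CovZ.subM 683549230366199443255416554860083470970487073181607502357807089837775967224274015820233243135311872 (by decide +kernel)
       (CovZ.n1 (29184, 33408) (by decide +kernel)
        (CovZ.badM (by decide +kernel))
        (CovZ.n1 (29376, 33216) (by decide +kernel)
         (CovZ.n2 (29184, 33216) (by decide +kernel)
          (CovZ.n2 (29280, 33312) (by decide +kernel)
           (CovZ.n2 (29280, 33216) (by decide +kernel)
            (CovZ.badM (by decide +kernel))
            (CovZ.badM (by decide +kernel)))
           (CovZ.badM (by decide +kernel)))
          (CovZ.n1 (29280, 33120) (by decide +kernel)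
           (CovZ.n2 (29184, 33120) (by decide +kernel)
            (CovZ.n2 (29232, 33168) (by decide +kernel)
             (CovZ.n2 (29232, 33120) (by decide +kernel)
              (CovZ.leaf K2_ok TD_l12368 _)
              (CovZ.n1 (29256, 33144) (by decide +kernel)
               (CovZ.leaf K2_ok TD_l12369 _)
               (CovZ.leaf K2_ok TD_l12370 _)))
             (CovZ.n1 (29184, 33168) (by decide +kernel)
              (CovZ.n2 (29208, 33192) (by decide +kernel)
               (CovZ.leaf K2_ok TD_l17982 _)
               (CovZ.badM (by decide +kernel)))
              (CovZ.leaf K2_ok TD_l12371 _)))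
            (CovZ.n1 (29232, 33072) (by decide +kernel)
             (CovZ.n2 (29184, 33072) (by decide +kernel)
              (CovZ.leaf K2_ok TD_l12372 _)
              (CovZ.leaf K2_ok TD_l12373 _))
             (CovZ.n1 (29232, 33120) (by decide +kernel)
              (CovZ.leaf K2_ok TD_l12374 _)
              (CovZ.n1 (29208, 33096) (by decide +kernel)
               (CovZ.leaf K2_ok TD_l12375 _)
               (CovZ.leaf K2_ok TD_l12376 _)))))
           (CovZ.n1 (29280, 33216) (by decide +kernel)
            (CovZ.n2 (29328, 33168) (by decide +kernel)
             (CovZ.n2 (29280, 33168) (by decide +kernel)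
              (CovZ.badM (by decide +kernel))
              (CovZ.leaf K2_ok TD_l12378 _))
             (CovZ.badM (by decide +kernel)))
            (CovZ.n1 (29232, 33168) (by decide +kernel)
             (CovZ.n2 (29232, 33216) (by decide +kernel)
              (CovZ.badM (by decide +kernel))
              (CovZ.n1 (29208, 33192) (by decide +kernel)
               (CovZ.badM (by decide +kernel))
               (CovZ.badM (by decide +kernel))))
             (CovZ.n1 (29280, 33168) (by decide +kernel)
              (CovZ.n2 (29256, 33144) (by decide +kernel)
               (CovZ.leaf K2_ok TD_l12381 _)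
               (CovZ.leaf K2_ok TD_l12382 _))
              (CovZ.badM (by decide +kernel)))))))
         (CovZ.subM 2724917391359077539452804473574706380800 (by decide +kernel)
          (CovZ.n1 (29376, 33408) (by decide +kernel)
           (CovZ.n2 (29472, 33312) (by decide +kernel)
            (CovZ.badM (by decide +kernel))
            (CovZ.badM (by decide +kernel)))
           (CovZ.n1 (29280, 33312) (by decide +kernel)
            (CovZ.badM (by decide +kernel))
            (CovZ.badM (by decide +kernel))))))))

theorem TD_u196 : CovZ TD_M (toL (selN TD_LN 683549230366222755282123263829790387610666996606446166907435864082379617138828252949375335957794834)) [0, 7, 6, 1] (29184, 32256) (29952, 33024) (29184, 33792) :=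
    (CovZ.n2 (29184, 33024) (by decide +kernel)
     (CovZ.n2 (29568, 33408) (by decide +kernel)
      TD_u194
      TD_u195)
     (CovZ.n1 (29568, 32640) (by decide +kernel)
      (CovZ.n2 (29184, 32640) (by decide +kernel)
       (CovZ.n2 (29376, 32832) (by decide +kernel)
        (CovZ.n2 (29376, 32640) (by decide +kernel)
         (CovZ.n2 (29280, 32736) (by decide +kernel)
          (CovZ.leaf K2_ok TD_l12383 _)
          (CovZ.n1 (29280, 32640) (by decide +kernel)
           (CovZ.leaf K2_ok TD_l12384 _)
           (CovZ.leaf K2_ok TD_l12385 _)))
         (CovZ.n1 (29472, 32736) (by decide +kernel)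
          (CovZ.leaf K2_ok TD_l12386 _)
          (CovZ.leaf K2_ok TD_l12387 _)))
        (CovZ.n1 (29184, 32832) (by decide +kernel)
         (CovZ.n2 (29280, 32928) (by decide +kernel)
          (CovZ.n2 (29280, 32832) (by decide +kernel)
           (CovZ.leaf K2_ok TD_l12388 _)
           (CovZ.n1 (29328, 32880) (by decide +kernel)
            (CovZ.leaf K2_ok TD_l12389 _)
            (CovZ.leaf K2_ok TD_l12390 _)))
          (CovZ.n1 (29184, 32928) (by decide +kernel)
           (CovZ.n2 (29232, 32976) (by decide +kernel)
            (CovZ.leaf K2_ok TD_l12391 _)
            (CovZ.leaf K2_ok TD_l12392 _))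
           (CovZ.leaf K2_ok TD_l12393 _)))
         (CovZ.n1 (29280, 32736) (by decide +kernel)
          (CovZ.leaf K2_ok TD_l12394 _)
          (CovZ.n1 (29280, 32832) (by decide +kernel)
           (CovZ.leaf K2_ok TD_l12395 _)
           (CovZ.leaf K2_ok TD_l12396 _)))))
       (CovZ.n1 (29376, 32448) (by decide +kernel)
        (CovZ.n2 (29184, 32448) (by decide +kernel)
         (CovZ.n2 (29280, 32544) (by decide +kernel)
          (CovZ.leaf K2_ok TD_l12397 _)
          (CovZ.leaf K2_ok TD_l12398 _))
         (CovZ.leaf K2_ok TD_l12399 _))
        (CovZ.n1 (29376, 32640) (by decide +kernel)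
         (CovZ.leaf K2_ok TD_l12400 _)
         (CovZ.leaf K2_ok TD_l12401 _))))
      (CovZ.n1 (29568, 33024) (by decide +kernel)
       (CovZ.n2 (29760, 32832) (by decide +kernel)
        (CovZ.subM 546846060067268968657704054446739295256466641160075056817599095110294263363817847695306786387525650 (by decide +kernel)
         (CovZ.n2 (29568, 32832) (by decide +kernel)
          (CovZ.n2 (29664, 32928) (by decide +kernel)
           (CovZ.n2 (29664, 32832) (by decide +kernel)
            (CovZ.leaf K2_ok TD_l12402 _)
            (CovZ.n1 (29712, 32880) (by decide +kernel)
             (CovZ.leaf K2_ok TD_l12403 _)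
             (CovZ.leaf K2_ok TD_l12404 _)))
           (CovZ.n1 (29568, 32928) (by decide +kernel)
            (CovZ.n2 (29616, 32976) (by decide +kernel)
             (CovZ.leaf K2_ok TD_l12405 _)
             (CovZ.leaf K2_ok TD_l12406 _))
            (CovZ.leaf K2_ok TD_l12407 _)))
          (CovZ.n1 (29664, 32736) (by decide +kernel)
           (CovZ.leaf K2_ok TD_l12408 _)
           (CovZ.n1 (29664, 32832) (by decide +kernel)
            (CovZ.leaf K2_ok TD_l12409 _)
            (CovZ.leaf K2_ok TD_l12410 _)))))
        (CovZ.subM 546846060067261197982135151751311500506137388282360674805408446229175366365164618932773667398483986 (by decide +kernel)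
         (CovZ.n1 (29760, 33024) (by decide +kernel)
          (CovZ.n2 (29856, 32928) (by decide +kernel)
           (CovZ.n2 (29760, 32928) (by decide +kernel)
            (CovZ.n2 (29808, 32976) (by decide +kernel)
             (CovZ.leaf K2_ok TD_l12411 _)
             (CovZ.leaf K2_ok TD_l12412 _))
            (CovZ.leaf K2_ok TD_l12413 _))
           (CovZ.n1 (29856, 33024) (by decide +kernel)
            (CovZ.leaf K2_ok TD_l12414 _)
            (CovZ.n1 (29808, 32976) (by decide +kernel)
             (CovZ.leaf K2_ok TD_l12415 _)
             (CovZ.leaf K2_ok TD_l12416 _))))
          (CovZ.n1 (29664, 32928) (by decide +kernel)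
           (CovZ.n2 (29664, 33024) (by decide +kernel)
            (CovZ.leaf K2_ok TD_l12417 _)
            (CovZ.n1 (29616, 32976) (by decide +kernel)
             (CovZ.leaf K2_ok TD_l12418 _)
             (CovZ.leaf K2_ok TD_l12419 _)))
           (CovZ.n1 (29760, 32928) (by decide +kernel)
            (CovZ.leaf K2_ok TD_l12420 _)
            (CovZ.n1 (29712, 32976) (by decide +kernel)
             (CovZ.leaf K2_ok TD_l12421 _)
             (CovZ.leaf K2_ok TD_l12422 _)))))))
       (CovZ.n1 (29376, 32832) (by decide +kernel)
        (CovZ.n2 (29376, 33024) (by decide +kernel)
         (CovZ.subM 683549230366207213930985443641590630591039730590854066041815169117533807899131921840147370110091266 (by decide +kernel)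
          (CovZ.n2 (29472, 32928) (by decide +kernel)
           (CovZ.n2 (29376, 32928) (by decide +kernel)
            (CovZ.n2 (29424, 32976) (by decide +kernel)
             (CovZ.leaf K2_ok TD_l12423 _)
             (CovZ.leaf K2_ok TD_l12424 _))
            (CovZ.leaf K2_ok TD_l12425 _))
           (CovZ.n1 (29472, 33024) (by decide +kernel)
            (CovZ.leaf K2_ok TD_l12426 _)
            (CovZ.n1 (29424, 32976) (by decide +kernel)
             (CovZ.leaf K2_ok TD_l12427 _)
             (CovZ.leaf K2_ok TD_l12428 _)))))
         (CovZ.n1 (29280, 32928) (by decide +kernel)
          (CovZ.n2 (29280, 33024) (by decide +kernel)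
           (CovZ.leaf K2_ok TD_l12429 _)
           (CovZ.n1 (29232, 32976) (by decide +kernel)
            (CovZ.leaf K2_ok TD_l12430 _)
            (CovZ.leaf K2_ok TD_l12431 _)))
          (CovZ.subM 683549230366207213930985443641590630591039730590854066041812446858598440391424214843287915964399618 (by decide +kernel)
           (CovZ.n1 (29376, 32928) (by decide +kernel)
            (CovZ.n2 (29328, 32880) (by decide +kernel)
             (CovZ.leaf K2_ok TD_l12432 _)
             (CovZ.leaf K2_ok TD_l12433 _))
            (CovZ.n1 (29328, 32976) (by decide +kernel)
             (CovZ.leaf K2_ok TD_l12434 _)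
             (CovZ.leaf K2_ok TD_l12435 _))))))
        (CovZ.subM 683549230366207213930985443641590630591039730590900834094209758010916325813778842896776359951466514 (by decide +kernel)
         (CovZ.n1 (29568, 32832) (by decide +kernel)
          (CovZ.n2 (29472, 32736) (by decide +kernel)
           (CovZ.n2 (29472, 32832) (by decide +kernel)
            (CovZ.leaf K2_ok TD_l12436 _)
            (CovZ.leaf K2_ok TD_l12437 _))
           (CovZ.leaf K2_ok TD_l12438 _))
          (CovZ.n1 (29472, 32928) (by decide +kernel)
           (CovZ.n2 (29568, 32928) (by decide +kernel)
            (CovZ.leaf K2_ok TD_l12439 _)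
            (CovZ.n1 (29520, 32976) (by decide +kernel)
             (CovZ.leaf K2_ok TD_l12440 _)
             (CovZ.leaf K2_ok TD_l12441 _)))
           (CovZ.n1 (29472, 32832) (by decide +kernel)
            (CovZ.leaf K2_ok TD_l12442 _)
            (CovZ.n1 (29520, 32880) (by decide +kernel)
             (CovZ.leaf K2_ok TD_l12443 _)
             (CovZ.leaf K2_ok TD_l12444 _))))))))))

theorem TD_u197 : CovZ TD_M (toL (selN TD_LN 683549230366222755282123263829790387610666996606446166907435864082379617138828252949375335957794834)) [0, 7, 6, 1] (29952, 33024) (30720, 33792) (29184, 33792) :=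
    (CovZ.n1 (29952, 33792) (by decide +kernel)
     (CovZ.subM 546846060067276739333272957583878856201391976433567046007726274451962862949795609110144844248383488 (by decide +kernel)
      (CovZ.n2 (30336, 33408) (by decide +kernel)
       (CovZ.n2 (29952, 33408) (by decide +kernel)
        (CovZ.badM (by decide +kernel))
        (CovZ.n1 (30144, 33216) (by decide +kernel)
         (CovZ.n2 (29952, 33216) (by decide +kernel)
          (CovZ.n2 (30048, 33312) (by decide +kernel)
           (CovZ.n2 (30048, 33216) (by decide +kernel)
            (CovZ.badM (by decide +kernel))
            (CovZ.badM (by decide +kernel)))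
           (CovZ.badM (by decide +kernel)))
          (CovZ.n1 (30048, 33120) (by decide +kernel)
           (CovZ.n2 (29952, 33120) (by decide +kernel)
            (CovZ.subM 33374797436264220037422435014782349088708456074010314698704461023699941911117543302699595857920 (by decide +kernel)
             (CovZ.n2 (30000, 33168) (by decide +kernel)
              (CovZ.n2 (30000, 33120) (by decide +kernel)
               (CovZ.leaf K2_ok TD_l12445 _)
               (CovZ.n1 (30024, 33144) (by decide +kernel)
                (CovZ.leaf K2_ok TD_l12446 _)
                (CovZ.leaf K2_ok TD_l12447 _)))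
              (CovZ.n1 (29952, 33168) (by decide +kernel)
               (CovZ.n2 (29976, 33192) (by decide +kernel)
                (CovZ.leaf K2_ok TD_l12448 _)
                (CovZ.leaf K2_ok TD_l12449 _))
               (CovZ.leaf K2_ok TD_l12450 _))))
            (CovZ.n1 (30000, 33072) (by decide +kernel)
             (CovZ.leaf K2_ok TD_l12451 _)
             (CovZ.n1 (30000, 33120) (by decide +kernel)
              (CovZ.leaf K2_ok TD_l12452 _)
              (CovZ.leaf K2_ok TD_l12453 _))))
           (CovZ.subM 33374797436264220037422214158899251790667258161822699530422525122222183215322508594108782608384 (by decide +kernel)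
            (CovZ.n1 (30048, 33216) (by decide +kernel)
             (CovZ.badM (by decide +kernel))
             (CovZ.n1 (30000, 33168) (by decide +kernel)
              (CovZ.n2 (30000, 33216) (by decide +kernel)
               (CovZ.badM (by decide +kernel))
               (CovZ.n1 (29976, 33192) (by decide +kernel)
                (CovZ.leaf K2_ok TD_l18831 _)
                (CovZ.badM (by decide +kernel))))
              (CovZ.badM (by decide +kernel)))))))
         (CovZ.n1 (30144, 33408) (by decide +kernel)
          (CovZ.badM (by decide +kernel))
          (CovZ.n1 (30048, 33312) (by decide +kernel)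
           (CovZ.badM (by decide +kernel))
           (CovZ.badM (by decide +kernel))))))
       (CovZ.badM (by decide +kernel))))
     (CovZ.n1 (29568, 33408) (by decide +kernel)
      (CovZ.n2 (29568, 33792) (by decide +kernel)
       (CovZ.n2 (29760, 33600) (by decide +kernel)
        (CovZ.badM (by decide +kernel))
        (CovZ.badM (by decide +kernel)))
       (CovZ.badM (by decide +kernel)))
      (CovZ.subM 546846060067261197982135151751311500506137388282313906753013857335792848450517697876144677557108736 (by decide +kernel)
       (CovZ.n1 (29952, 33408) (by decide +kernel)
        (CovZ.n2 (29760, 33216) (by decide +kernel)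
         (CovZ.n2 (29760, 33408) (by decide +kernel)
          (CovZ.n2 (29856, 33312) (by decide +kernel)
           (CovZ.badM (by decide +kernel))
           (CovZ.badM (by decide +kernel)))
          (CovZ.badM (by decide +kernel)))
         (CovZ.n1 (29952, 33216) (by decide +kernel)
          (CovZ.n2 (29856, 33120) (by decide +kernel)
           (CovZ.subM 33374797436264220037422435014782349088708456074010314698704461023699941911117543302699595857920 (by decide +kernel)
            (CovZ.n2 (29856, 33216) (by decide +kernel)
             (CovZ.n2 (29904, 33168) (by decide +kernel)
              (CovZ.n2 (29856, 33168) (by decide +kernel)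
               (CovZ.n2 (29880, 33192) (by decide +kernel)
                (CovZ.leaf K2_ok TD_l12464 _)
                (CovZ.leaf K2_ok TD_l12465 _))
               (CovZ.leaf K2_ok TD_l12466 _))
              (CovZ.n1 (29904, 33216) (by decide +kernel)
               (CovZ.leaf K2_ok TD_l12467 _)
               (CovZ.n1 (29880, 33192) (by decide +kernel)
                (CovZ.leaf K2_ok TD_l12468 _)
                (CovZ.leaf K2_ok TD_l12469 _))))
             (CovZ.n1 (29808, 33168) (by decide +kernel)
              (CovZ.n2 (29808, 33216) (by decide +kernel)
               (CovZ.leaf K2_ok TD_l12470 _)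
               (CovZ.n1 (29784, 33192) (by decide +kernel)
                (CovZ.leaf K2_ok TD_l12471 _)
                (CovZ.leaf K2_ok TD_l12472 _)))
              (CovZ.n1 (29856, 33168) (by decide +kernel)
               (CovZ.n2 (29832, 33144) (by decide +kernel)
                (CovZ.leaf K2_ok TD_l12473 _)
                (CovZ.leaf K2_ok TD_l12474 _))
               (CovZ.n1 (29832, 33192) (by decide +kernel)
                (CovZ.leaf K2_ok TD_l12475 _)
                (CovZ.leaf K2_ok TD_l12476 _))))))
           (CovZ.n1 (29952, 33120) (by decide +kernel)
            (CovZ.n2 (29904, 33072) (by decide +kernel)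
             (CovZ.n2 (29904, 33120) (by decide +kernel)
              (CovZ.leaf K2_ok TD_l12477 _)
              (CovZ.leaf K2_ok TD_l12478 _))
             (CovZ.n1 (29952, 33072) (by decide +kernel)
              (CovZ.leaf K2_ok TD_l12479 _)
              (CovZ.leaf K2_ok TD_l12480 _)))
            (CovZ.subM 33374797436264220037422435014782349088708456074010314698704461023699941911117543302699595857920 (by decide +kernel)
             (CovZ.n1 (29904, 33168) (by decide +kernel)
              (CovZ.n2 (29952, 33168) (by decide +kernel)
               (CovZ.leaf K2_ok TD_l12481 _)
               (CovZ.leaf K2_ok TD_l12482 _))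
              (CovZ.n1 (29904, 33120) (by decide +kernel)
               (CovZ.leaf K2_ok TD_l12483 _)
               (CovZ.leaf K2_ok TD_l12484 _))))))
          (CovZ.subM 220855883097298041197912187615165559676966110250988088037849136667557888 (by decide +kernel)
           (CovZ.n1 (29856, 33312) (by decide +kernel)
            (CovZ.badM (by decide +kernel))
            (CovZ.n1 (29856, 33216) (by decide +kernel)
             (CovZ.badM (by decide +kernel))
             (CovZ.n1 (29904, 33264) (by decide +kernel)
              (CovZ.n2 (29904, 33216) (by decide +kernel)
               (CovZ.badM (by decide +kernel))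
               (CovZ.badM (by decide +kernel)))
              (CovZ.badM (by decide +kernel))))))))
        (CovZ.n1 (29760, 33600) (by decide +kernel)
         (CovZ.badM (by decide +kernel))
         (CovZ.n1 (29760, 33408) (by decide +kernel)
          (CovZ.badM (by decide +kernel))
          (CovZ.badM (by decide +kernel))))))))

theorem TD_u198 : CovZ TD_M (toL (selN TD_LN 546812685269840475113235535369719956949601309175451991360590440820223158681227207658179725307150352)) [0, 7, 6, 1] (31488, 33024) (31104, 33408) (30720, 33024) :=
    (CovZ.n2 (31104, 33024) (by decide +kernel)
       (CovZ.n2 (30912, 33216) (by decide +kernel)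
        (CovZ.subM 15541351137805832567355695254588151253139254712417116170014499277911234290437761007616 (by decide +kernel)
         (CovZ.n2 (31104, 33216) (by decide +kernel)
          (CovZ.n2 (31008, 33120) (by decide +kernel)
           (CovZ.n2 (31008, 33216) (by decide +kernel)
            (CovZ.n2 (31056, 33168) (by decide +kernel)
             (CovZ.n2 (31008, 33168) (by decide +kernel)
              (CovZ.n2 (31032, 33192) (by decide +kernel)
               (CovZ.leaf K2_ok TD_l14357 _)
               (CovZ.leaf K2_ok TD_l14358 _))
              (CovZ.leaf K2_ok TD_l14359 _))
             (CovZ.n1 (31056, 33216) (by decide +kernel)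
              (CovZ.leaf K2_ok TD_l14360 _)
              (CovZ.n1 (31032, 33192) (by decide +kernel)
               (CovZ.badM (by decide +kernel))
               (CovZ.leaf K2_ok TD_l14362 _))))
            (CovZ.n1 (30960, 33168) (by decide +kernel)
             (CovZ.n2 (30960, 33216) (by decide +kernel)
              (CovZ.leaf K2_ok TD_l14363 _)
              (CovZ.n1 (30936, 33192) (by decide +kernel)
               (CovZ.badM (by decide +kernel))
               (CovZ.leaf K2_ok TD_l14365 _)))
             (CovZ.n1 (31008, 33168) (by decide +kernel)
              (CovZ.n2 (30984, 33144) (by decide +kernel)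
               (CovZ.leaf K2_ok TD_l14366 _)
               (CovZ.leaf K2_ok TD_l14367 _))
              (CovZ.n1 (30984, 33192) (by decide +kernel)
               (CovZ.leaf K2_ok TD_l14368 _)
               (CovZ.leaf K2_ok TD_l14369 _)))))
           (CovZ.n1 (31104, 33120) (by decide +kernel)
            (CovZ.n2 (31056, 33072) (by decide +kernel)
             (CovZ.n2 (31056, 33120) (by decide +kernel)
              (CovZ.leaf K2_ok TD_l14370 _)
              (CovZ.leaf K2_ok TD_l14371 _))
             (CovZ.leaf K2_ok TD_l14372 _))
            (CovZ.n1 (31056, 33168) (by decide +kernel)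
             (CovZ.n2 (31104, 33168) (by decide +kernel)
              (CovZ.n2 (31080, 33144) (by decide +kernel)
               (CovZ.leaf K2_ok TD_l14373 _)
               (CovZ.leaf K2_ok TD_l14374 _))
              (CovZ.n1 (31080, 33192) (by decide +kernel)
               (CovZ.leaf K2_ok TD_l14375 _)
               (CovZ.leaf K2_ok TD_l14376 _)))
             (CovZ.n1 (31056, 33120) (by decide +kernel)
              (CovZ.leaf K2_ok TD_l14377 _)
              (CovZ.n1 (31080, 33144) (by decide +kernel)
               (CovZ.leaf K2_ok TD_l14378 _)
               (CovZ.leaf K2_ok TD_l14379 _))))))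
          (CovZ.badM (by decide +kernel))))
        (CovZ.n1 (30912, 33024) (by decide +kernel)
         (CovZ.n2 (30816, 33120) (by decide +kernel)
          (CovZ.subM 15541351137805832567355695254588151253139254712417116170014499277911234290437761007616 (by decide +kernel)
           (CovZ.n2 (30912, 33120) (by decide +kernel)
            (CovZ.n2 (30864, 33072) (by decide +kernel)
             (CovZ.n2 (30864, 33120) (by decide +kernel)
              (CovZ.leaf K2_ok TD_l14381 _)
              (CovZ.leaf K2_ok TD_l14382 _))
             (CovZ.leaf K2_ok TD_l14383 _))
            (CovZ.n1 (30864, 33168) (by decide +kernel)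
             (CovZ.n2 (30912, 33168) (by decide +kernel)
              (CovZ.n2 (30888, 33144) (by decide +kernel)
               (CovZ.leaf K2_ok TD_l14384 _)
               (CovZ.leaf K2_ok TD_l14385 _))
              (CovZ.n1 (30888, 33192) (by decide +kernel)
               (CovZ.leaf K2_ok TD_l14386 _)
               (CovZ.leaf K2_ok TD_l14387 _)))
             (CovZ.n1 (30864, 33120) (by decide +kernel)
              (CovZ.leaf K2_ok TD_l14388 _)
              (CovZ.leaf K2_ok TD_l14389 _)))))
          (CovZ.n1 (30816, 33024) (by decide +kernel)
           (CovZ.n2 (30768, 33072) (by decide +kernel)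
            (CovZ.leaf K2_ok TD_l14390 _)
            (CovZ.n1 (30768, 33024) (by decide +kernel)
             (CovZ.n2 (30744, 33048) (by decide +kernel)
              (CovZ.leaf K2_ok TD_l14391 _)
              (CovZ.leaf K2_ok TD_l14392 _))
             (CovZ.leaf K2_ok TD_l14393 _)))
           (CovZ.n1 (30864, 33072) (by decide +kernel)
            (CovZ.n2 (30864, 33024) (by decide +kernel)
             (CovZ.leaf K2_ok TD_l14394 _)
             (CovZ.leaf K2_ok TD_l14395 _))
            (CovZ.leaf K2_ok TD_l14396 _))))
         (CovZ.subM 15541351137805832567355695254588151253139254712417116170014499277911234290437761007616 (by decide +kernel)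
          (CovZ.n1 (31008, 33120) (by decide +kernel)
           (CovZ.n2 (31008, 33024) (by decide +kernel)
            (CovZ.n2 (30960, 33072) (by decide +kernel)
             (CovZ.leaf K2_ok TD_l14397 _)
             (CovZ.n1 (30960, 33024) (by decide +kernel)
              (CovZ.leaf K2_ok TD_l14398 _)
              (CovZ.leaf K2_ok TD_l14399 _)))
            (CovZ.n1 (31056, 33072) (by decide +kernel)
             (CovZ.n2 (31056, 33024) (by decide +kernel)
              (CovZ.leaf K2_ok TD_l14400 _)
              (CovZ.leaf K2_ok TD_l14401 _))
             (CovZ.leaf K2_ok TD_l14402 _)))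
           (CovZ.n1 (30912, 33120) (by decide +kernel)
            (CovZ.n2 (30960, 33168) (by decide +kernel)
             (CovZ.n2 (30960, 33120) (by decide +kernel)
              (CovZ.n2 (30936, 33144) (by decide +kernel)
               (CovZ.leaf K2_ok TD_l14403 _)
               (CovZ.leaf K2_ok TD_l14404 _))
              (CovZ.n1 (30984, 33144) (by decide +kernel)
               (CovZ.leaf K2_ok TD_l14405 _)
               (CovZ.leaf K2_ok TD_l14406 _)))
             (CovZ.n1 (30912, 33168) (by decide +kernel)
              (CovZ.n2 (30936, 33192) (by decide +kernel)
               (CovZ.leaf K2_ok TD_l14407 _)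
               (CovZ.leaf K2_ok TD_l14408 _))
              (CovZ.leaf K2_ok TD_l14409 _)))
            (CovZ.n1 (30960, 33072) (by decide +kernel)
             (CovZ.leaf K2_ok TD_l14410 _)
             (CovZ.n1 (30960, 33120) (by decide +kernel)
              (CovZ.leaf K2_ok TD_l14411 _)
              (CovZ.leaf K2_ok TD_l14412 _))))))))
       (CovZ.subM 15541351137805832567355695254588151253139254712417116170014499277911234290437761007616 (by decide +kernel)
        (CovZ.n1 (31296, 33216) (by decide +kernel)
         (CovZ.n2 (31296, 33024) (by decide +kernel)
          (CovZ.n2 (31200, 33120) (by decide +kernel)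
           (CovZ.n2 (31296, 33120) (by decide +kernel)
            (CovZ.n2 (31248, 33072) (by decide +kernel)
             (CovZ.leaf K2_ok TD_l14413 _)
             (CovZ.leaf K2_ok TD_l14414 _))
            (CovZ.n1 (31248, 33168) (by decide +kernel)
             (CovZ.n2 (31296, 33168) (by decide +kernel)
              (CovZ.n2 (31272, 33144) (by decide +kernel)
               (CovZ.leaf K2_ok TD_l14415 _)
               (CovZ.leaf K2_ok TD_l14416 _))
              (CovZ.n1 (31272, 33192) (by decide +kernel)
               (CovZ.leaf K2_ok TD_l14417 _)
               (CovZ.leaf K2_ok TD_l14418 _)))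
             (CovZ.n1 (31248, 33120) (by decide +kernel)
              (CovZ.n2 (31224, 33144) (by decide +kernel)
               (CovZ.leaf K2_ok TD_l14419 _)
               (CovZ.leaf K2_ok TD_l14420 _))
              (CovZ.leaf K2_ok TD_l14421 _))))
           (CovZ.n1 (31200, 33024) (by decide +kernel)
            (CovZ.n2 (31152, 33072) (by decide +kernel)
             (CovZ.leaf K2_ok TD_l14422 _)
             (CovZ.n1 (31152, 33024) (by decide +kernel)
              (CovZ.leaf K2_ok TD_l14423 _)
              (CovZ.leaf K2_ok TD_l14424 _)))
            (CovZ.n1 (31248, 33072) (by decide +kernel)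
             (CovZ.n2 (31248, 33024) (by decide +kernel)
              (CovZ.leaf K2_ok TD_l14425 _)
              (CovZ.leaf K2_ok TD_l14426 _))
             (CovZ.leaf K2_ok TD_l14427 _))))
          (CovZ.n1 (31392, 33120) (by decide +kernel)
           (CovZ.n2 (31392, 33024) (by decide +kernel)
            (CovZ.n2 (31344, 33072) (by decide +kernel)
             (CovZ.leaf K2_ok TD_l14428 _)
             (CovZ.n1 (31344, 33024) (by decide +kernel)
              (CovZ.leaf K2_ok TD_l14429 _)
              (CovZ.leaf K2_ok TD_l14430 _)))
            (CovZ.n1 (31440, 33072) (by decide +kernel)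
             (CovZ.n2 (31440, 33024) (by decide +kernel)
              (CovZ.leaf K2_ok TD_l14431 _)
              (CovZ.leaf K2_ok TD_l14432 _))
             (CovZ.leaf K2_ok TD_l14433 _)))
           (CovZ.n1 (31296, 33120) (by decide +kernel)
            (CovZ.n2 (31344, 33168) (by decide +kernel)
             (CovZ.n2 (31344, 33120) (by decide +kernel)
              (CovZ.leaf K2_ok TD_l14434 _)
              (CovZ.leaf K2_ok TD_l14435 _))
             (CovZ.n1 (31296, 33168) (by decide +kernel)
              (CovZ.n2 (31320, 33192) (by decide +kernel)
               (CovZ.leaf K2_ok TD_l14436 _)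
               (CovZ.leaf K2_ok TD_l14437 _))
              (CovZ.leaf K2_ok TD_l14438 _)))
            (CovZ.n1 (31344, 33072) (by decide +kernel)
             (CovZ.leaf K2_ok TD_l14439 _)
             (CovZ.leaf K2_ok TD_l14440 _)))))
         (CovZ.n1 (31104, 33216) (by decide +kernel)
          (CovZ.badM (by decide +kernel))
          (CovZ.n1 (31200, 33120) (by decide +kernel)
           (CovZ.n2 (31104, 33120) (by decide +kernel)
            (CovZ.n2 (31152, 33168) (by decide +kernel)
             (CovZ.n2 (31152, 33120) (by decide +kernel)
              (CovZ.leaf K2_ok TD_l14444 _)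
              (CovZ.n1 (31176, 33144) (by decide +kernel)
               (CovZ.leaf K2_ok TD_l14445 _)
               (CovZ.leaf K2_ok TD_l14446 _)))
             (CovZ.n1 (31104, 33168) (by decide +kernel)
              (CovZ.n2 (31128, 33192) (by decide +kernel)
               (CovZ.leaf K2_ok TD_l14447 _)
               (CovZ.leaf K2_ok TD_l14448 _))
              (CovZ.leaf K2_ok TD_l14449 _)))
            (CovZ.n1 (31152, 33072) (by decide +kernel)
             (CovZ.leaf K2_ok TD_l14450 _)
             (CovZ.n1 (31152, 33120) (by decide +kernel)
              (CovZ.leaf K2_ok TD_l14451 _)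
              (CovZ.n1 (31128, 33096) (by decide +kernel)
               (CovZ.leaf K2_ok TD_l14452 _)
               (CovZ.leaf K2_ok TD_l14453 _)))))
           (CovZ.n1 (31200, 33216) (by decide +kernel)
            (CovZ.n2 (31248, 33168) (by decide +kernel)
             (CovZ.n2 (31200, 33168) (by decide +kernel)
              (CovZ.n2 (31224, 33192) (by decide +kernel)
               (CovZ.leaf K2_ok TD_l14454 _)
               (CovZ.leaf K2_ok TD_l14455 _))
              (CovZ.leaf K2_ok TD_l14456 _))
             (CovZ.n1 (31248, 33216) (by decide +kernel)
              (CovZ.leaf K2_ok TD_l14457 _)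
              (CovZ.n1 (31224, 33192) (by decide +kernel)
               (CovZ.badM (by decide +kernel))
               (CovZ.leaf K2_ok TD_l14459 _))))
            (CovZ.n1 (31152, 33168) (by decide +kernel)
             (CovZ.n2 (31152, 33216) (by decide +kernel)
              (CovZ.leaf K2_ok TD_l14460 _)
              (CovZ.n1 (31128, 33192) (by decide +kernel)
               (CovZ.badM (by decide +kernel))
               (CovZ.leaf K2_ok TD_l14462 _)))
             (CovZ.n1 (31200, 33168) (by decide +kernel)
              (CovZ.n2 (31176, 33144) (by decide +kernel)
               (CovZ.leaf K2_ok TD_l14463 _)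
               (CovZ.leaf K2_ok TD_l14464 _))
              (CovZ.n1 (31176, 33192) (by decide +kernel)
               (CovZ.leaf K2_ok TD_l14465 _)
               (CovZ.leaf K2_ok TD_l14466 _))))))))))

theorem TD_u199 : CovZ TD_M (toL (selN TD_LN 546812685269840475113235535369719956949601309175451991360590440820223158681227207658179725307150352)) [0, 7, 6, 1] (31104, 33408) (30720, 33792) (30720, 33024) :=
    (CovZ.n1 (30720, 33408) (by decide +kernel)
       (CovZ.badM (by decide +kernel))
       (CovZ.n1 (30912, 33216) (by decide +kernel)
        (CovZ.n2 (30720, 33216) (by decide +kernel)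
         (CovZ.subM 46768052394588893382517914646921056628990109810704 (by decide +kernel)
          (CovZ.n2 (30816, 33312) (by decide +kernel)
           (CovZ.n2 (30816, 33216) (by decide +kernel)
            (CovZ.n2 (30768, 33264) (by decide +kernel)
             (CovZ.badM (by decide +kernel))
             (CovZ.n1 (30768, 33216) (by decide +kernel)
              (CovZ.n2 (30744, 33240) (by decide +kernel)
               (CovZ.badM (by decide +kernel))
               (CovZ.leaf K2_ok TD_l18012 _))
              (CovZ.badM (by decide +kernel))))
            (CovZ.badM (by decide +kernel)))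
           (CovZ.n1 (30720, 33312) (by decide +kernel)
            (CovZ.badM (by decide +kernel))
            (CovZ.n1 (30768, 33264) (by decide +kernel)
             (CovZ.n2 (30720, 33264) (by decide +kernel)
              (CovZ.badM (by decide +kernel))
              (CovZ.n1 (30744, 33240) (by decide +kernel)
               (CovZ.leaf K2_ok TD_l18013 _)
               (CovZ.badM (by decide +kernel))))
             (CovZ.badM (by decide +kernel))))))
         (CovZ.n1 (30816, 33120) (by decide +kernel)
          (CovZ.n2 (30720, 33120) (by decide +kernel)
           (CovZ.subM 15541351137805832567355695254588151299907307107006009552532413924832290910631777796112 (by decide +kernel)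
            (CovZ.n2 (30768, 33168) (by decide +kernel)
             (CovZ.n2 (30768, 33120) (by decide +kernel)
              (CovZ.n2 (30744, 33144) (by decide +kernel)
               (CovZ.leaf K2_ok TD_l14467 _)
               (CovZ.leaf K2_ok TD_l14468 _))
              (CovZ.n1 (30792, 33144) (by decide +kernel)
               (CovZ.leaf K2_ok TD_l14469 _)
               (CovZ.leaf K2_ok TD_l14470 _)))
             (CovZ.n1 (30720, 33168) (by decide +kernel)
              (CovZ.n2 (30744, 33192) (by decide +kernel)
               (CovZ.leaf K2_ok TD_l14471 _)
               (CovZ.leaf K2_ok TD_l14472 _))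
              (CovZ.leaf K2_ok TD_l14473 _))))
           (CovZ.n1 (30768, 33072) (by decide +kernel)
            (CovZ.leaf K2_ok TD_l14474 _)
            (CovZ.n1 (30768, 33120) (by decide +kernel)
             (CovZ.leaf K2_ok TD_l14475 _)
             (CovZ.n1 (30744, 33096) (by decide +kernel)
              (CovZ.leaf K2_ok TD_l14476 _)
              (CovZ.leaf K2_ok TD_l14477 _)))))
          (CovZ.subM 15541351137805832567355695254588151299907307107006009552532413924832290910631777796112 (by decide +kernel)
           (CovZ.n1 (30816, 33216) (by decide +kernel)
            (CovZ.n2 (30864, 33168) (by decide +kernel)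
             (CovZ.n2 (30816, 33168) (by decide +kernel)
              (CovZ.n2 (30840, 33192) (by decide +kernel)
               (CovZ.leaf K2_ok TD_l14478 _)
               (CovZ.leaf K2_ok TD_l14479 _))
              (CovZ.leaf K2_ok TD_l14480 _))
             (CovZ.n1 (30864, 33216) (by decide +kernel)
              (CovZ.leaf K2_ok TD_l14481 _)
              (CovZ.n1 (30840, 33192) (by decide +kernel)
               (CovZ.badM (by decide +kernel))
               (CovZ.leaf K2_ok TD_l14482 _))))
            (CovZ.n1 (30768, 33168) (by decide +kernel)
             (CovZ.n2 (30768, 33216) (by decide +kernel)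
              (CovZ.leaf K2_ok TD_l14483 _)
              (CovZ.n1 (30744, 33192) (by decide +kernel)
               (CovZ.leaf K2_ok TD_l18014 _)
               (CovZ.leaf K2_ok TD_l14484 _)))
             (CovZ.n1 (30816, 33168) (by decide +kernel)
              (CovZ.n2 (30792, 33144) (by decide +kernel)
               (CovZ.leaf K2_ok TD_l14485 _)
               (CovZ.leaf K2_ok TD_l14486 _))
              (CovZ.n1 (30792, 33192) (by decide +kernel)
               (CovZ.leaf K2_ok TD_l14487 _)
               (CovZ.leaf K2_ok TD_l14488 _))))))))
        (CovZ.n1 (30912, 33408) (by decide +kernel)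
         (CovZ.badM (by decide +kernel))
         (CovZ.n1 (30816, 33312) (by decide +kernel)
          (CovZ.badM (by decide +kernel))
          (CovZ.badM (by decide +kernel))))))

end Pool.Agent.TET
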