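import Pool.Agent.Helper38_TET.TD_M
import Pool.Agent.Helper38_TET.TD_L
import Pool.Agent.Helper38_TET.TD_10
import Pool.Agent.Helper38_TET.TD_11
import Pool.Agent.Helper38_TET.TD_12
import Pool.Agent.Helper38_TET.TD_23
import Pool.Agent.Helper38_TET.TD_24
import Pool.Agent.Helper38_TET.TD_39
import Pool.Agent.Helper38_TET.TD_40
import Pool.Agent.Helper38_TET.TD_41
import Pool.Agent.Helper38_TET.TD_52
import Pool.Agent.Helper38_TET.TD_53
import Pool.Agent.Helper38_TET.TD_65
import Pool.Agent.Helper38_TET.TD_66
import Pool.Agent.Helper38_TET.TD_79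
import Pool.Agent.Helper38_TET.TD_80
import Pool.Agent.Helper38_TET.TD_81
import Pool.Agent.Helper38_TET.TD_93
import Pool.Agent.Helper38_TET.TD_94
import Pool.Agent.Helper38_TET.TD_99
import Pool.Agent.Helper38_TET.TD_100
import Pool.Agent.Helper38_TET.TD_105
import Pool.Agent.Helper38_TET.TD_106
import Pool.Agent.Helper38_TET.TD_124
import Pool.Agent.Helper38_TET.TD_127
import Pool.Agent.Helper38_TET.TD_U10
import Pool.Agent.Helper38_TET.TD_U11
import Pool.Agent.Helper38_TET.TD_U12

/-!
# MP_c7c9bf_co: certificates, family TD
-/

set_option autoImplicit false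
set_option maxRecDepth 100000

namespace Pool.Agent.TET

theorem TD_s4_11 : SqZ TD_M TD_L [0, 7, 6, 1] 18432 12288 1536 4 11 :=
  SqZ.mk (a := 24576) (b := 26112) (c := 29184) (d := 30720) (by norm_num) (by norm_num) (by norm_num) (by norm_num)
    (CovZ.topM TD_LL 36767649688125107716384224322129600954628945258209827286491423250072259071581792778025378498881728141328720 (by decide +kernel) (CovZ.n2 (25344, 29952) (by decide +kernel)
    (CovZ.n2 (26112, 29952) (by decide +kernel)
     (CovZ.n2 (25728, 29568) (by decide +kernel)
      (CovZ.n2 (25728, 29952) (by decide +kernel)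
       (CovZ.n2 (25920, 29760) (by decide +kernel)
        (CovZ.leaf K3_ok TD_l5918 _)
        (CovZ.n1 (25920, 29952) (by decide +kernel)
         (CovZ.leaf K3_ok TD_l5919 _)
         (CovZ.leaf K2_ok TD_l5920 _)))
       (CovZ.n1 (25536, 29760) (by decide +kernel)
        (CovZ.n2 (25536, 29952) (by decide +kernel)
         (CovZ.leaf K3_ok TD_l5921 _)
         (CovZ.leaf K2_ok TD_l5922 _))
        (CovZ.n1 (25728, 29760) (by decide +kernel)
         (CovZ.n2 (25632, 29664) (by decide +kernel)
          (CovZ.leaf K3_ok TD_l5923 _)
          (CovZ.leaf K3_ok TD_l5924 _))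
         (CovZ.n1 (25632, 29856) (by decide +kernel)
          (CovZ.leaf K3_ok TD_l5925 _)
          (CovZ.leaf K2_ok TD_l5926 _)))))
      (CovZ.n1 (26112, 29568) (by decide +kernel)
       (CovZ.n2 (25920, 29376) (by decide +kernel)
        (CovZ.n2 (25920, 29568) (by decide +kernel)
         (CovZ.leaf K2_ok TD_l5927 _)
         (CovZ.n1 (25824, 29472) (by decide +kernel)
          (CovZ.leaf K2_ok TD_l5928 _)
          (CovZ.leaf K3_ok TD_l5929 _)))
        (CovZ.n1 (26112, 29376) (by decide +kernel)
         (CovZ.n2 (26016, 29280) (by decide +kernel)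
          (CovZ.leaf K3_ok TD_l5930 _)
          (CovZ.leaf K3_ok TD_l5931 _))
         (CovZ.n1 (26016, 29472) (by decide +kernel)
          (CovZ.leaf K3_ok TD_l5932 _)
          (CovZ.leaf K3_ok TD_l5933 _))))
       (CovZ.n1 (25920, 29760) (by decide +kernel)
        (CovZ.n2 (26112, 29760) (by decide +kernel)
         (CovZ.leaf K3_ok TD_l5934 _)
         (CovZ.leaf K3_ok TD_l5935 _))
        (CovZ.n1 (25920, 29568) (by decide +kernel)
         (CovZ.leaf K2_ok TD_l5936 _)
         (CovZ.leaf K3_ok TD_l5937 _)))))
     (CovZ.n1 (25728, 30336) (by decide +kernel)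
      (CovZ.n2 (26112, 30336) (by decide +kernel)
       (CovZ.n2 (25920, 30144) (by decide +kernel)
        (CovZ.leaf K2_ok TD_l5938 _)
        (CovZ.n1 (26112, 30144) (by decide +kernel)
         (CovZ.leaf K2_ok TD_l5939 _)
         (CovZ.leaf K3_ok TD_l5940 _)))
       (CovZ.n1 (25920, 30528) (by decide +kernel)
        (CovZ.leaf K2_ok TD_l5941 _)
        (CovZ.n1 (25920, 30336) (by decide +kernel)
         (CovZ.leaf K2_ok TD_l5942 _)
         (CovZ.leaf K3_ok TD_l5943 _))))
      (CovZ.n1 (25728, 29952) (by decide +kernel)
       (CovZ.n2 (25536, 30144) (by decide +kernel)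
        (CovZ.n2 (25728, 30144) (by decide +kernel)
         (CovZ.leaf K2_ok TD_l5944 _)
         (CovZ.leaf K3_ok TD_l5945 _))
        (CovZ.n1 (25536, 29952) (by decide +kernel)
         (CovZ.leaf K3_ok TD_l5946 _)
         (CovZ.leaf K3_ok TD_l5947 _)))
       (CovZ.n1 (25920, 30144) (by decide +kernel)
        (CovZ.n2 (25920, 29952) (by decide +kernel)
         (CovZ.leaf K3_ok TD_l5948 _)
         (CovZ.leaf K3_ok TD_l5949 _))
        (CovZ.leaf K2_ok TD_l5950 _)))))
    (CovZ.n1 (25344, 29184) (by decide +kernel)
     TD_u166
     TD_u167)))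
    (CovZ.topM TD_LL 36767649688125107716384224322129600954628945258209827286491423250072259071581792778025378498881728141328720 (by decide +kernel) (CovZ.n0 (25344, 29952) (by decide +kernel)
    (CovZ.subM 36767649687591094661116186125642151846826920397765203577560109241993497297394966883501345798602321203298624 (by decide +kernel)
     (CovZ.n2 (24576, 29952) (by decide +kernel)
      (CovZ.n2 (24960, 30336) (by decide +kernel)
       (CovZ.n2 (24960, 29952) (by decide +kernel)
        (CovZ.n2 (24768, 30144) (by decide +kernel)
         (CovZ.n2 (24960, 30144) (by decide +kernel)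
          (CovZ.n2 (24864, 30048) (by decide +kernel)
           (CovZ.leaf K3_ok TD_l6068 _)
           (CovZ.leaf K2_ok TD_l6069 _))
          (CovZ.leaf K3_ok TD_l6070 _))
         (CovZ.n1 (24768, 29952) (by decide +kernel)
          (CovZ.n2 (24672, 30048) (by decide +kernel)
           (CovZ.leaf K3_ok TD_l6071 _)
           (CovZ.leaf K3_ok TD_l6072 _))
          (CovZ.n1 (24864, 30048) (by decide +kernel)
           (CovZ.leaf K2_ok TD_l6073 _)
           (CovZ.leaf K2_ok TD_l6074 _))))
        (CovZ.n1 (25152, 30144) (by decide +kernel)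
         (CovZ.n2 (25152, 29952) (by decide +kernel)
          (CovZ.n2 (25056, 30048) (by decide +kernel)
           (CovZ.leaf K3_ok TD_l6075 _)
           (CovZ.leaf K2_ok TD_l6076 _))
          (CovZ.leaf K3_ok TD_l6077 _))
         (CovZ.leaf K2_ok TD_l6078 _)))
       (CovZ.n1 (24576, 30336) (by decide +kernel)
        (CovZ.n2 (24768, 30528) (by decide +kernel)
         (CovZ.n2 (24768, 30336) (by decide +kernel)
          (CovZ.leaf K2_ok TD_l6079 _)
          (CovZ.leaf K2_ok TD_l6080 _))
         (CovZ.leaf K2_ok TD_l6081 _))
        (CovZ.n1 (24768, 30144) (by decide +kernel)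
         (CovZ.n2 (24576, 30144) (by decide +kernel)
          (CovZ.leaf K2_ok TD_l6082 _)
          (CovZ.leaf K3_ok TD_l6083 _))
         (CovZ.n1 (24768, 30336) (by decide +kernel)
          (CovZ.leaf K2_ok TD_l6084 _)
          (CovZ.leaf K2_ok TD_l6085 _)))))
      (CovZ.n1 (24960, 29568) (by decide +kernel)
       (CovZ.subM 36767649687590833920511215311423109485778797415342359704781551382276515459293594254241160656954020721590592 (by decide +kernel)
        (CovZ.n2 (24576, 29568) (by decide +kernel)
         (CovZ.n2 (24768, 29760) (by decide +kernel)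
          (CovZ.n2 (24768, 29568) (by decide +kernel)
           (CovZ.n2 (24672, 29664) (by decide +kernel)
            (CovZ.n2 (24768, 29664) (by decide +kernel)
             (CovZ.leaf K2_ok TD_l6086 _)
             (CovZ.leaf K3_ok TD_l6087 _))
            (CovZ.n1 (24672, 29568) (by decide +kernel)
             (CovZ.leaf K2_ok TD_l6088 _)
             (CovZ.leaf K3_ok TD_l6089 _)))
           (CovZ.n1 (24864, 29664) (by decide +kernel)
            (CovZ.n2 (24864, 29568) (by decide +kernel)
             (CovZ.leaf K2_ok TD_l6090 _)
             (CovZ.leaf K2_ok TD_l6091 _))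
            (CovZ.leaf K3_ok TD_l6092 _)))
          (CovZ.n1 (24576, 29760) (by decide +kernel)
           (CovZ.n2 (24672, 29856) (by decide +kernel)
            (CovZ.n2 (24672, 29760) (by decide +kernel)
             (CovZ.leaf K3_ok TD_l6093 _)
             (CovZ.leaf K2_ok TD_l6094 _))
            (CovZ.leaf K2_ok TD_l6095 _))
           (CovZ.leaf K3_ok TD_l6096 _)))
         (CovZ.n1 (24768, 29376) (by decide +kernel)
          (CovZ.n2 (24576, 29376) (by decide +kernel)
           (CovZ.n2 (24672, 29472) (by decide +kernel)
            (CovZ.n2 (24672, 29376) (by decide +kernel)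
             (CovZ.n2 (24624, 29424) (by decide +kernel)
              (CovZ.leaf K2_ok TD_l6097 _)
              (CovZ.n1 (24624, 29376) (by decide +kernel)
               (CovZ.leaf K2_ok TD_l6098 _)
               (CovZ.leaf K2_ok TD_l6099 _)))
             (CovZ.n1 (24720, 29424) (by decide +kernel)
              (CovZ.n2 (24720, 29376) (by decide +kernel)
               (CovZ.leaf K2_ok TD_l6100 _)
               (CovZ.leaf K2_ok TD_l6101 _))
              (CovZ.leaf K2_ok TD_l6102 _)))
            (CovZ.n1 (24576, 29472) (by decide +kernel)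
             (CovZ.n2 (24624, 29520) (by decide +kernel)
              (CovZ.leaf K3_ok TD_l6103 _)
              (CovZ.leaf K3_ok TD_l6104 _))
             (CovZ.leaf K2_ok TD_l6105 _)))
           (CovZ.n1 (24672, 29280) (by decide +kernel)
            (CovZ.subM 5316911983139663491903458617273090368 (by decide +kernel)
             (CovZ.n2 (24576, 29280) (by decide +kernel)
              (CovZ.n2 (24624, 29328) (by decide +kernel)
               (CovZ.n2 (24624, 29280) (by decide +kernel)
                (CovZ.n2 (24600, 29304) (by decide +kernel)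
                 (CovZ.leaf K2_ok TD_l6106 _)
                 (CovZ.leaf K2_ok TD_l6107 _))
                (CovZ.leaf K2_ok TD_l6108 _))
               (CovZ.leaf K2_ok TD_l6109 _))
              (CovZ.n1 (24624, 29232) (by decide +kernel)
               (CovZ.n2 (24576, 29232) (by decide +kernel)
                (CovZ.n2 (24600, 29256) (by decide +kernel)
                 (CovZ.n2 (24600, 29232) (by decide +kernel)
                  (CovZ.leaf K3_ok TD_l15718 _)
                  (CovZ.leaf K3_ok TD_l15719 _))
                 (CovZ.leaf K2_ok TD_l15720 _))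
                (CovZ.leaf K3_ok TD_l15721 _))
               (CovZ.n1 (24624, 29280) (by decide +kernel)
                (CovZ.leaf K3_ok TD_l6110 _)
                (CovZ.n1 (24600, 29256) (by decide +kernel)
                 (CovZ.leaf K2_ok TD_l6111 _)
                 (CovZ.leaf K3_ok TD_l6112 _))))))
            (CovZ.n1 (24672, 29376) (by decide +kernel)
             (CovZ.leaf K3_ok TD_l6113 _)
             (CovZ.subM 5316911983139663491903458685992567104 (by decide +kernel)
              (CovZ.n1 (24624, 29328) (by decide +kernel)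
               (CovZ.n2 (24624, 29376) (by decide +kernel)
                (CovZ.leaf K2_ok TD_l6114 _)
                (CovZ.leaf K2_ok TD_l6115 _))
               (CovZ.n1 (24672, 29328) (by decide +kernel)
                (CovZ.leaf K3_ok TD_l6116 _)
                (CovZ.leaf K2_ok TD_l6117 _)))))))
          (CovZ.n1 (24768, 29568) (by decide +kernel)
           (CovZ.n2 (24864, 29472) (by decide +kernel)
            (CovZ.leaf K2_ok TD_l6118 _)
            (CovZ.n1 (24864, 29568) (by decide +kernel)
             (CovZ.leaf K2_ok TD_l6119 _)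
             (CovZ.leaf K2_ok TD_l6120 _)))
           (CovZ.n1 (24672, 29472) (by decide +kernel)
            (CovZ.n2 (24672, 29568) (by decide +kernel)
             (CovZ.leaf K2_ok TD_l6121 _)
             (CovZ.n1 (24624, 29520) (by decide +kernel)
              (CovZ.leaf K3_ok TD_l6122 _)
              (CovZ.leaf K2_ok TD_l6123 _)))
            (CovZ.n1 (24768, 29472) (by decide +kernel)
             (CovZ.n2 (24720, 29424) (by decide +kernel)
              (CovZ.leaf K2_ok TD_l6124 _)
              (CovZ.leaf K2_ok TD_l6125 _))
             (CovZ.n1 (24720, 29520) (by decide +kernel)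
              (CovZ.leaf K2_ok TD_l6126 _)
              (CovZ.leaf K2_ok TD_l6127 _))))))))
       (CovZ.n1 (24960, 29952) (by decide +kernel)
        (CovZ.n2 (25152, 29760) (by decide +kernel)
         (CovZ.n2 (24960, 29760) (by decide +kernel)
          (CovZ.n2 (25056, 29856) (by decide +kernel)
           (CovZ.leaf K3_ok TD_l6128 _)
           (CovZ.leaf K3_ok TD_l6129 _))
          (CovZ.leaf K3_ok TD_l6130 _))
         (CovZ.n1 (25152, 29952) (by decide +kernel)
          (CovZ.leaf K3_ok TD_l6131 _)
          (CovZ.n1 (25056, 29856) (by decide +kernel)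
           (CovZ.leaf K2_ok TD_l6132 _)
           (CovZ.leaf K2_ok TD_l6133 _))))
        (CovZ.n1 (24768, 29760) (by decide +kernel)
         (CovZ.n2 (24768, 29952) (by decide +kernel)
          (CovZ.leaf K3_ok TD_l6134 _)
          (CovZ.n1 (24672, 29856) (by decide +kernel)
           (CovZ.leaf K2_ok TD_l6135 _)
           (CovZ.leaf K3_ok TD_l6136 _)))
         (CovZ.n1 (24960, 29760) (by decide +kernel)
          (CovZ.n2 (24864, 29664) (by decide +kernel)
           (CovZ.leaf K3_ok TD_l6137 _)
           (CovZ.n1 (24960, 29664) (by decide +kernel)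
            (CovZ.leaf K3_ok TD_l6138 _)
            (CovZ.leaf K3_ok TD_l6139 _)))
          (CovZ.n1 (24864, 29856) (by decide +kernel)
           (CovZ.leaf K2_ok TD_l6140 _)
           (CovZ.n1 (24864, 29760) (by decide +kernel)
            (CovZ.leaf K3_ok TD_l6141 _)
            (CovZ.leaf K3_ok TD_l6142 _)))))))))
    (CovZ.n1 (25344, 30720) (by decide +kernel)
     (CovZ.n2 (25728, 30336) (by decide +kernel)
      (CovZ.n2 (25344, 30336) (by decide +kernel)
       (CovZ.n2 (25536, 30528) (by decide +kernel)
        (CovZ.n2 (25536, 30336) (by decide +kernel)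
         (CovZ.leaf K2_ok TD_l6143 _)
         (CovZ.leaf K3_ok TD_l6144 _))
        (CovZ.leaf K2_ok TD_l6145 _))
       (CovZ.leaf K2_ok TD_l6146 _))
      (CovZ.n1 (25728, 30720) (by decide +kernel)
       (CovZ.leaf K3_ok TD_l6147 _)
       (CovZ.n1 (25536, 30528) (by decide +kernel)
        (CovZ.leaf K3_ok TD_l6148 _)
        (CovZ.leaf K2_ok TD_l6149 _))))
     (CovZ.n1 (24960, 30336) (by decide +kernel)
      (CovZ.n2 (24960, 30720) (by decide +kernel)
       (CovZ.leaf K2_ok TD_l6150 _)
       (CovZ.n1 (24768, 30528) (by decide +kernel)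
        (CovZ.leaf K2_ok TD_l6151 _)
        (CovZ.n1 (24960, 30528) (by decide +kernel)
         (CovZ.leaf K2_ok TD_l6152 _)
         (CovZ.leaf K3_ok TD_l6153 _))))
      (CovZ.n1 (25344, 30336) (by decide +kernel)
       (CovZ.n2 (25152, 30144) (by decide +kernel)
        (CovZ.leaf K2_ok TD_l6154 _)
        (CovZ.n1 (25344, 30144) (by decide +kernel)
         (CovZ.leaf K2_ok TD_l6155 _)
         (CovZ.leaf K2_ok TD_l6156 _)))
       (CovZ.n1 (25152, 30528) (by decide +kernel)
        (CovZ.leaf K2_ok TD_l6157 _)
        (CovZ.n1 (25152, 30336) (by decide +kernel)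
         (CovZ.leaf K2_ok TD_l6158 _)
         (CovZ.leaf K3_ok TD_l6159 _))))))))

theorem TD_s5_11 : SqZ TD_M TD_L [0, 7, 6, 1] 18432 12288 1536 5 11 :=
  SqZ.mk (a := 26112) (b := 27648) (c := 29184) (d := 30720) (by norm_num) (by norm_num) (by norm_num) (by norm_num)
    (CovZ.topM TD_LL 18348006973294186697950817814494975539516996297843294634057752183146410373439537053142290572705870015369298 (by decide +kernel) (CovZ.n2 (26880, 29952) (by decide +kernel)
    (CovZ.n2 (27648, 29952) (by decide +kernel)
     (CovZ.n2 (27264, 29568) (by decide +kernel)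
      (CovZ.n2 (27264, 29952) (by decide +kernel)
       (CovZ.leaf K3_ok TD_l7813 _)
       (CovZ.n1 (27072, 29760) (by decide +kernel)
        (CovZ.leaf K3_ok TD_l7814 _)
        (CovZ.leaf K2_ok TD_l7815 _)))
      (CovZ.n1 (27648, 29568) (by decide +kernel)
       (CovZ.n2 (27456, 29376) (by decide +kernel)
        (CovZ.leaf K3_ok TD_l7816 _)
        (CovZ.n1 (27648, 29376) (by decide +kernel)
         (CovZ.leaf K2_ok TD_l7817 _)
         (CovZ.leaf K3_ok TD_l7818 _)))
       (CovZ.n1 (27456, 29760) (by decide +kernel)
        (CovZ.leaf K3_ok TD_l7819 _)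
        (CovZ.n1 (27456, 29568) (by decide +kernel)
         (CovZ.leaf K2_ok TD_l7820 _)
         (CovZ.leaf K3_ok TD_l7821 _)))))
     (CovZ.n1 (27264, 30336) (by decide +kernel)
      (CovZ.n2 (27648, 30336) (by decide +kernel)
       (CovZ.n2 (27456, 30144) (by decide +kernel)
        (CovZ.leaf K3_ok TD_l7822 _)
        (CovZ.leaf K2_ok TD_l7823 _))
       (CovZ.n1 (27456, 30528) (by decide +kernel)
        (CovZ.leaf K2_ok TD_l7824 _)
        (CovZ.leaf K2_ok TD_l7825 _)))
      (CovZ.n1 (27264, 29952) (by decide +kernel)
       (CovZ.n2 (27072, 30144) (by decide +kernel)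
        (CovZ.leaf K2_ok TD_l7826 _)
        (CovZ.leaf K2_ok TD_l7827 _))
       (CovZ.n1 (27456, 30144) (by decide +kernel)
        (CovZ.leaf K3_ok TD_l7828 _)
        (CovZ.leaf K2_ok TD_l7829 _)))))
    (CovZ.n1 (26880, 29184) (by decide +kernel)
     (CovZ.subM 550961194593326623228970656126791112762373369314476493693113015424304391483131480247360132747344 (by decide +kernel)
      (CovZ.n2 (26496, 29568) (by decide +kernel)
       (CovZ.n2 (26880, 29568) (by decide +kernel)
        (CovZ.n2 (26688, 29376) (by decide +kernel)
         (CovZ.leaf K3_ok TD_l7830 _)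
         (CovZ.n1 (26880, 29376) (by decide +kernel)
          (CovZ.leaf K3_ok TD_l7831 _)
          (CovZ.leaf K3_ok TD_l7832 _)))
        (CovZ.n1 (26688, 29760) (by decide +kernel)
         (CovZ.n2 (26880, 29760) (by decide +kernel)
          (CovZ.leaf K3_ok TD_l7833 _)
          (CovZ.leaf K2_ok TD_l7834 _))
         (CovZ.n1 (26688, 29568) (by decide +kernel)
          (CovZ.leaf K2_ok TD_l7835 _)
          (CovZ.leaf K3_ok TD_l7836 _))))
       (CovZ.n1 (26496, 29184) (by decide +kernel)
        (CovZ.n2 (26304, 29376) (by decide +kernel)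
         (CovZ.n2 (26496, 29376) (by decide +kernel)
          (CovZ.n2 (26400, 29280) (by decide +kernel)
           (CovZ.leaf K2_ok TD_l7837 _)
           (CovZ.leaf K2_ok TD_l7838 _))
          (CovZ.n1 (26400, 29472) (by decide +kernel)
           (CovZ.leaf K3_ok TD_l7839 _)
           (CovZ.leaf K3_ok TD_l7840 _)))
         (CovZ.n1 (26304, 29184) (by decide +kernel)
          (CovZ.n2 (26208, 29280) (by decide +kernel)
           (CovZ.leaf K2_ok TD_l7841 _)
           (CovZ.leaf K2_ok TD_l7842 _))
          (CovZ.leaf K3_ok TD_l7843 _)))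
        (CovZ.n1 (26688, 29376) (by decide +kernel)
         (CovZ.n2 (26688, 29184) (by decide +kernel)
          (CovZ.leaf K2_ok TD_l7844 _)
          (CovZ.leaf K2_ok TD_l7845 _))
         (CovZ.leaf K2_ok TD_l7846 _)))))
     (CovZ.n1 (27264, 29568) (by decide +kernel)
      (CovZ.n2 (27264, 29184) (by decide +kernel)
       (CovZ.n2 (27072, 29376) (by decide +kernel)
        (CovZ.n2 (27264, 29376) (by decide +kernel)
         (CovZ.leaf K2_ok TD_l7847 _)
         (CovZ.leaf K3_ok TD_l7848 _))
        (CovZ.n1 (27072, 29184) (by decide +kernel)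
         (CovZ.leaf K2_ok TD_l7849 _)
         (CovZ.leaf K3_ok TD_l7850 _)))
       (CovZ.n1 (27456, 29376) (by decide +kernel)
        (CovZ.n2 (27456, 29184) (by decide +kernel)
         (CovZ.leaf K2_ok TD_l7851 _)
         (CovZ.leaf K3_ok TD_l7852 _))
        (CovZ.leaf K2_ok TD_l7853 _)))
      (CovZ.n1 (26880, 29568) (by decide +kernel)
       (CovZ.n2 (27072, 29760) (by decide +kernel)
        (CovZ.n2 (27072, 29568) (by decide +kernel)
         (CovZ.leaf K2_ok TD_l7854 _)
         (CovZ.leaf K3_ok TD_l7855 _))
        (CovZ.leaf K3_ok TD_l7856 _))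
       (CovZ.leaf K2_ok TD_l7857 _))))))
    (CovZ.topM TD_LL 18348006973294186697950817814494975539516996297843294634057752183146410373439537053142290572705870015369298 (by decide +kernel) (CovZ.n0 (26880, 29952) (by decide +kernel)
    (CovZ.subM 550961194593326623228970656126791112762373369314476493693113015424304391483131480247360132747344 (by decide +kernel)
     (CovZ.n2 (26112, 29952) (by decide +kernel)
      (CovZ.n2 (26496, 30336) (by decide +kernel)
       (CovZ.n2 (26496, 29952) (by decide +kernel)
        (CovZ.n2 (26304, 30144) (by decide +kernel)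
         (CovZ.leaf K2_ok TD_l7858 _)
         (CovZ.n1 (26304, 29952) (by decide +kernel)
          (CovZ.leaf K2_ok TD_l7859 _)
          (CovZ.leaf K3_ok TD_l7860 _)))
        (CovZ.n1 (26688, 30144) (by decide +kernel)
         (CovZ.n2 (26688, 29952) (by decide +kernel)
          (CovZ.leaf K3_ok TD_l7861 _)
          (CovZ.leaf K2_ok TD_l7862 _))
         (CovZ.leaf K3_ok TD_l7863 _)))
       (CovZ.n1 (26112, 30336) (by decide +kernel)
        (CovZ.n2 (26304, 30528) (by decide +kernel)
         (CovZ.leaf K2_ok TD_l7864 _)
         (CovZ.leaf K3_ok TD_l7865 _))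
        (CovZ.leaf K3_ok TD_l7866 _)))
      (CovZ.n1 (26496, 29568) (by decide +kernel)
       (CovZ.n2 (26112, 29568) (by decide +kernel)
        (CovZ.n2 (26304, 29760) (by decide +kernel)
         (CovZ.n2 (26304, 29568) (by decide +kernel)
          (CovZ.leaf K3_ok TD_l7867 _)
          (CovZ.leaf K2_ok TD_l7868 _))
         (CovZ.leaf K3_ok TD_l7869 _))
        (CovZ.n1 (26304, 29376) (by decide +kernel)
         (CovZ.n2 (26112, 29376) (by decide +kernel)
          (CovZ.leaf K2_ok TD_l7870 _)
          (CovZ.leaf K2_ok TD_l7871 _))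
         (CovZ.n1 (26304, 29568) (by decide +kernel)
          (CovZ.leaf K3_ok TD_l7872 _)
          (CovZ.leaf K3_ok TD_l7873 _))))
       (CovZ.n1 (26496, 29952) (by decide +kernel)
        (CovZ.leaf K2_ok TD_l7874 _)
        (CovZ.n1 (26304, 29760) (by decide +kernel)
         (CovZ.n2 (26304, 29952) (by decide +kernel)
          (CovZ.leaf K3_ok TD_l7875 _)
          (CovZ.leaf K2_ok TD_l7876 _))
         (CovZ.n1 (26496, 29760) (by decide +kernel)
          (CovZ.leaf K2_ok TD_l7877 _)
          (CovZ.leaf K3_ok TD_l7878 _)))))))
    (CovZ.n1 (26880, 30720) (by decide +kernel)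
     (CovZ.n2 (27264, 30336) (by decide +kernel)
      (CovZ.n2 (26880, 30336) (by decide +kernel)
       (CovZ.n2 (27072, 30528) (by decide +kernel)
        (CovZ.leaf K2_ok TD_l7879 _)
        (CovZ.leaf K2_ok TD_l7880 _))
       (CovZ.leaf K3_ok TD_l7881 _))
      (CovZ.n1 (27264, 30720) (by decide +kernel)
       (CovZ.leaf K2_ok TD_l7882 _)
       (CovZ.n1 (27072, 30528) (by decide +kernel)
        (CovZ.leaf K2_ok TD_l7883 _)
        (CovZ.leaf K3_ok TD_l7884 _))))
     (CovZ.subM 550961194593326623228970656126791112762373369314476493693113015424304391483131480247360132747344 (by decide +kernel)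
      (CovZ.n1 (26496, 30336) (by decide +kernel)
       (CovZ.n2 (26496, 30720) (by decide +kernel)
        (CovZ.leaf K2_ok TD_l7885 _)
        (CovZ.n1 (26304, 30528) (by decide +kernel)
         (CovZ.leaf K3_ok TD_l7886 _)
         (CovZ.leaf K2_ok TD_l7887 _)))
       (CovZ.n1 (26880, 30336) (by decide +kernel)
        (CovZ.n2 (26688, 30144) (by decide +kernel)
         (CovZ.leaf K2_ok TD_l7888 _)
         (CovZ.leaf K3_ok TD_l7889 _))
        (CovZ.n1 (26688, 30528) (by decide +kernel)
         (CovZ.leaf K2_ok TD_l7890 _)
         (CovZ.leaf K3_ok TD_l7891 _))))))))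

theorem TD_s6_11 : SqZ TD_M TD_L [0, 7, 6, 1] 18432 12288 1536 6 11 :=
  SqZ.mk (a := 27648) (b := 29184) (c := 29184) (d := 30720) (by norm_num) (by norm_num) (by norm_num) (by norm_num)
    (CovZ.topM TD_LL 31106013165409115760698646082463497452804033209370054753881125167226274947989273114888914169893719094333458 (by decide +kernel) (CovZ.n2 (28416, 29952) (by decide +kernel)
    (CovZ.subM 10321024457773116968717031851352377250495215710229168916201032372590725300687521609042161047528259949432850 (by decide +kernel)
     (CovZ.n2 (29184, 29952) (by decide +kernel)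
      (CovZ.n2 (28800, 29568) (by decide +kernel)
       (CovZ.n2 (28800, 29952) (by decide +kernel)
        (CovZ.leaf K2_ok TD_l9818 _)
        (CovZ.n1 (28608, 29760) (by decide +kernel)
         (CovZ.leaf K2_ok TD_l9819 _)
         (CovZ.leaf K3_ok TD_l9820 _)))
       (CovZ.n1 (29184, 29568) (by decide +kernel)
        (CovZ.n2 (28992, 29376) (by decide +kernel)
         (CovZ.leaf K2_ok TD_l9821 _)
         (CovZ.leaf K3_ok TD_l9822 _))
        (CovZ.leaf K2_ok TD_l9823 _)))
      (CovZ.n1 (28800, 30336) (by decide +kernel)
       (CovZ.n2 (29184, 30336) (by decide +kernel)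
        (CovZ.n2 (28992, 30144) (by decide +kernel)
         (CovZ.leaf K2_ok TD_l9824 _)
         (CovZ.leaf K2_ok TD_l9825 _))
        (CovZ.leaf K3_ok TD_l9826 _))
       (CovZ.n1 (28800, 29952) (by decide +kernel)
        (CovZ.n2 (28608, 30144) (by decide +kernel)
         (CovZ.leaf K2_ok TD_l9827 _)
         (CovZ.leaf K2_ok TD_l9828 _))
        (CovZ.n1 (28992, 30144) (by decide +kernel)
         (CovZ.leaf K2_ok TD_l9829 _)
         (CovZ.leaf K3_ok TD_l9830 _))))))
    (CovZ.n1 (28416, 29184) (by decide +kernel)
     (CovZ.n2 (28032, 29568) (by decide +kernel)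
      (CovZ.n2 (28416, 29568) (by decide +kernel)
       (CovZ.n2 (28224, 29376) (by decide +kernel)
        (CovZ.leaf K2_ok TD_l9831 _)
        (CovZ.leaf K2_ok TD_l9832 _))
       (CovZ.n1 (28224, 29760) (by decide +kernel)
        (CovZ.leaf K3_ok TD_l9833 _)
        (CovZ.leaf K2_ok TD_l9834 _)))
      (CovZ.n1 (28032, 29184) (by decide +kernel)
       (CovZ.n2 (27840, 29376) (by decide +kernel)
        (CovZ.leaf K2_ok TD_l9835 _)
        (CovZ.n1 (27840, 29184) (by decide +kernel)
         (CovZ.leaf K2_ok TD_l9836 _)
         (CovZ.leaf K2_ok TD_l9837 _)))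
       (CovZ.n1 (28224, 29376) (by decide +kernel)
        (CovZ.n2 (28224, 29184) (by decide +kernel)
         (CovZ.leaf K2_ok TD_l9838 _)
         (CovZ.leaf K2_ok TD_l9839 _))
        (CovZ.leaf K2_ok TD_l9840 _))))
     (CovZ.subM 10321024457773116968717031851352377250495215710229168916201032372590725300687521609042161047523861902921746 (by decide +kernel)
      (CovZ.n1 (28800, 29568) (by decide +kernel)
       (CovZ.n2 (28800, 29184) (by decide +kernel)
        (CovZ.n2 (28608, 29376) (by decide +kernel)
         (CovZ.leaf K3_ok TD_l9841 _)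
         (CovZ.leaf K2_ok TD_l9842 _))
        (CovZ.n1 (28992, 29376) (by decide +kernel)
         (CovZ.leaf K3_ok TD_l9843 _)
         (CovZ.leaf K3_ok TD_l9844 _)))
       (CovZ.n1 (28416, 29568) (by decide +kernel)
        (CovZ.n2 (28608, 29760) (by decide +kernel)
         (CovZ.leaf K3_ok TD_l9845 _)
         (CovZ.leaf K3_ok TD_l9846 _))
        (CovZ.leaf K2_ok TD_l9847 _)))))))
    (CovZ.topM TD_LL 31106013165409115760698646082463497452804033209370054753881125167226274947989273114888914169893719094333458 (by decide +kernel) (CovZ.n0 (28416, 29952) (by decide +kernel)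
    (CovZ.n2 (27648, 29952) (by decide +kernel)
     (CovZ.n2 (28032, 30336) (by decide +kernel)
      (CovZ.n2 (28032, 29952) (by decide +kernel)
       (CovZ.n2 (27840, 30144) (by decide +kernel)
        (CovZ.leaf K2_ok TD_l9848 _)
        (CovZ.leaf K2_ok TD_l9849 _))
       (CovZ.n1 (28224, 30144) (by decide +kernel)
        (CovZ.leaf K3_ok TD_l9850 _)
        (CovZ.leaf K2_ok TD_l9851 _)))
      (CovZ.leaf K2_ok TD_l9852 _))
     (CovZ.n1 (28032, 29568) (by decide +kernel)
      (CovZ.n2 (27648, 29568) (by decide +kernel)
       (CovZ.n2 (27840, 29760) (by decide +kernel)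
        (CovZ.leaf K2_ok TD_l9853 _)
        (CovZ.leaf K3_ok TD_l9854 _))
       (CovZ.leaf K2_ok TD_l9855 _))
      (CovZ.n1 (28032, 29952) (by decide +kernel)
       (CovZ.leaf K2_ok TD_l9856 _)
       (CovZ.n1 (27840, 29760) (by decide +kernel)
        (CovZ.leaf K3_ok TD_l9857 _)
        (CovZ.leaf K2_ok TD_l9858 _)))))
    (CovZ.n1 (28416, 30720) (by decide +kernel)
     (CovZ.leaf K2_ok TD_l9859 _)
     (CovZ.n1 (28032, 30336) (by decide +kernel)
      (CovZ.n2 (28032, 30720) (by decide +kernel)
       (CovZ.leaf K3_ok TD_l9860 _)
       (CovZ.leaf K3_ok TD_l9861 _))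
      (CovZ.n1 (28416, 30336) (by decide +kernel)
       (CovZ.n2 (28224, 30144) (by decide +kernel)
        (CovZ.leaf K3_ok TD_l9862 _)
        (CovZ.leaf K2_ok TD_l9863 _))
       (CovZ.leaf K3_ok TD_l9864 _))))))

theorem TD_s7_11 : SqZ TD_M TD_L [0, 7, 6, 1] 18432 12288 1536 7 11 :=
  SqZ.mk (a := 29184) (b := 30720) (c := 29184) (d := 30720) (by norm_num) (by norm_num) (by norm_num) (by norm_num)
    (CovZ.topM TD_LL 683549230366222998115734792046139932116742554760447804633104961609517543107317610483654853702193170 (by decide +kernel) (CovZ.n2 (29952, 29952) (by decide +kernel)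
    (CovZ.subM 546846060067284510008841860500162534049019270605021354991595125550827077310975809760085850060226578 (by decide +kernel)
     (CovZ.n2 (30720, 29952) (by decide +kernel)
      (CovZ.n2 (30336, 29568) (by decide +kernel)
       (CovZ.n2 (30336, 29952) (by decide +kernel)
        (CovZ.leaf K2_ok TD_l11953 _)
        (CovZ.n1 (30144, 29760) (by decide +kernel)
         (CovZ.leaf K2_ok TD_l11954 _)
         (CovZ.leaf K2_ok TD_l11955 _)))
       (CovZ.n1 (30720, 29568) (by decide +kernel)
        (CovZ.n2 (30528, 29376) (by decide +kernel)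
         (CovZ.leaf K3_ok TD_l11956 _)
         (CovZ.leaf K3_ok TD_l11957 _))
        (CovZ.n1 (30528, 29760) (by decide +kernel)
         (CovZ.leaf K3_ok TD_l11958 _)
         (CovZ.leaf K2_ok TD_l11959 _))))
      (CovZ.n1 (30336, 30336) (by decide +kernel)
       (CovZ.n2 (30720, 30336) (by decide +kernel)
        (CovZ.leaf K2_ok TD_l11960 _)
        (CovZ.leaf K3_ok TD_l11961 _))
       (CovZ.n1 (30336, 29952) (by decide +kernel)
        (CovZ.leaf K3_ok TD_l11962 _)
        (CovZ.leaf K2_ok TD_l11963 _)))))
    (CovZ.n1 (29952, 29184) (by decide +kernel)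
     (CovZ.n2 (29568, 29568) (by decide +kernel)
      (CovZ.n2 (29952, 29568) (by decide +kernel)
       (CovZ.n2 (29760, 29376) (by decide +kernel)
        (CovZ.leaf K2_ok TD_l11964 _)
        (CovZ.leaf K2_ok TD_l11965 _))
       (CovZ.leaf K2_ok TD_l11966 _))
      (CovZ.n1 (29568, 29184) (by decide +kernel)
       (CovZ.n2 (29376, 29376) (by decide +kernel)
        (CovZ.leaf K2_ok TD_l11967 _)
        (CovZ.leaf K2_ok TD_l11968 _))
       (CovZ.n1 (29760, 29376) (by decide +kernel)
        (CovZ.leaf K2_ok TD_l11969 _)
        (CovZ.leaf K2_ok TD_l11970 _))))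
     (CovZ.subM 546846060067284510008841860500162534049019270605021354991595125550827077310975809760085850060226578 (by decide +kernel)
      (CovZ.n1 (30336, 29568) (by decide +kernel)
       (CovZ.n2 (30336, 29184) (by decide +kernel)
        (CovZ.leaf K2_ok TD_l11971 _)
        (CovZ.n1 (30528, 29376) (by decide +kernel)
         (CovZ.leaf K3_ok TD_l11972 _)
         (CovZ.leaf K3_ok TD_l11973 _)))
       (CovZ.n1 (29952, 29568) (by decide +kernel)
        (CovZ.n2 (30144, 29760) (by decide +kernel)
         (CovZ.leaf K2_ok TD_l11974 _)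
         (CovZ.leaf K2_ok TD_l11975 _))
        (CovZ.leaf K2_ok TD_l11976 _)))))))
    (CovZ.topM TD_LL 683549230366222998115734792046139932116742554760447804633104961609517543107317610483659251748704274 (by decide +kernel) (CovZ.n0 (29952, 29952) (by decide +kernel)
    (CovZ.n2 (29184, 29952) (by decide +kernel)
     (CovZ.n2 (29568, 30336) (by decide +kernel)
      (CovZ.n2 (29568, 29952) (by decide +kernel)
       (CovZ.leaf K3_ok TD_l11977 _)
       (CovZ.leaf K2_ok TD_l11978 _))
      (CovZ.leaf K3_ok TD_l11979 _))
     (CovZ.n1 (29568, 29568) (by decide +kernel)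
      (CovZ.n2 (29184, 29568) (by decide +kernel)
       (CovZ.n2 (29376, 29760) (by decide +kernel)
        (CovZ.leaf K2_ok TD_l11980 _)
        (CovZ.leaf K2_ok TD_l11981 _))
       (CovZ.leaf K2_ok TD_l11982 _))
      (CovZ.n1 (29568, 29952) (by decide +kernel)
       (CovZ.leaf K2_ok TD_l11983 _)
       (CovZ.n1 (29376, 29760) (by decide +kernel)
        (CovZ.leaf K2_ok TD_l11984 _)
        (CovZ.leaf K2_ok TD_l11985 _)))))
    (CovZ.n1 (29952, 30720) (by decide +kernel)
     (CovZ.leaf K3_ok TD_l11986 _)
     (CovZ.n1 (29568, 30336) (by decide +kernel)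
      (CovZ.leaf K2_ok TD_l11987 _)
      (CovZ.n1 (29952, 30336) (by decide +kernel)
       (CovZ.leaf K2_ok TD_l11988 _)
       (CovZ.leaf K2_ok TD_l11989 _))))))

theorem TD_s8_11 : SqZ TD_M TD_L [0, 7, 6, 1] 18432 12288 1536 8 11 :=
  SqZ.mk (a := 30720) (b := 32256) (c := 29184) (d := 30720) (by norm_num) (by norm_num) (by norm_num) (by norm_num)
    (CovZ.topM TD_LL 546812685269840475113235535369719956949601309175451991360590440820223158681227207658179725307150352 (by decide +kernel) (CovZ.n2 (31488, 29952) (by decide +kernel)
    (CovZ.subM 4074087494020109978369458732514010910254189926608885663586981536349576229033612211634307072 (by decide +kernel)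
     (CovZ.n2 (32256, 29952) (by decide +kernel)
      (CovZ.n2 (31872, 29568) (by decide +kernel)
       (CovZ.n2 (31872, 29952) (by decide +kernel)
        (CovZ.badM (by decide +kernel))
        (CovZ.n1 (31680, 29760) (by decide +kernel)
         (CovZ.leaf K2_ok TD_l14080 _)
         (CovZ.badM (by decide +kernel))))
       (CovZ.badM (by decide +kernel)))
      (CovZ.n1 (31872, 30336) (by decide +kernel)
       (CovZ.badM (by decide +kernel))
       (CovZ.n1 (31872, 29952) (by decide +kernel)
        (CovZ.leaf K2_ok TD_l14088 _)
        (CovZ.badM (by decide +kernel))))))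
    (CovZ.n1 (31488, 29184) (by decide +kernel)
     (CovZ.n2 (31104, 29568) (by decide +kernel)
      (CovZ.n2 (31488, 29568) (by decide +kernel)
       (CovZ.n2 (31296, 29376) (by decide +kernel)
        (CovZ.leaf K3_ok TD_l14090 _)
        (CovZ.leaf K3_ok TD_l14091 _))
       (CovZ.n1 (31296, 29760) (by decide +kernel)
        (CovZ.leaf K2_ok TD_l14092 _)
        (CovZ.leaf K2_ok TD_l14093 _)))
      (CovZ.n1 (31104, 29184) (by decide +kernel)
       (CovZ.n2 (30912, 29376) (by decide +kernel)
        (CovZ.leaf K2_ok TD_l14094 _)
        (CovZ.leaf K3_ok TD_l14095 _))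
       (CovZ.n1 (31296, 29376) (by decide +kernel)
        (CovZ.leaf K3_ok TD_l14096 _)
        (CovZ.leaf K2_ok TD_l14097 _))))
     (CovZ.subM 4074087494020109978369458732514010910254189926608885663586981536349576229033612211634307072 (by decide +kernel)
      (CovZ.n1 (31872, 29568) (by decide +kernel)
       (CovZ.n2 (31872, 29184) (by decide +kernel)
        (CovZ.n2 (31680, 29376) (by decide +kernel)
         (CovZ.badM (by decide +kernel))
         (CovZ.leaf K3_ok TD_l14099 _))
        (CovZ.badM (by decide +kernel)))
       (CovZ.n1 (31488, 29568) (by decide +kernel)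
        (CovZ.n2 (31680, 29760) (by decide +kernel)
         (CovZ.leaf K2_ok TD_l14102 _)
         (CovZ.leaf K2_ok TD_l14103 _))
        (CovZ.leaf K3_ok TD_l14104 _)))))))
    (CovZ.topM TD_LL 546812685269840475113235535369719956949601309175451991360590440820223158681227207658179725307150352 (by decide +kernel) (CovZ.n0 (31488, 29952) (by decide +kernel)
    (CovZ.n2 (30720, 29952) (by decide +kernel)
     (CovZ.n2 (31104, 30336) (by decide +kernel)
      (CovZ.n2 (31104, 29952) (by decide +kernel)
       (CovZ.leaf K3_ok TD_l14105 _)
       (CovZ.leaf K3_ok TD_l14106 _))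
      (CovZ.leaf K2_ok TD_l14107 _))
     (CovZ.n1 (31104, 29568) (by decide +kernel)
      (CovZ.n2 (30720, 29568) (by decide +kernel)
       (CovZ.n2 (30912, 29760) (by decide +kernel)
        (CovZ.leaf K3_ok TD_l14108 _)
        (CovZ.leaf K3_ok TD_l14109 _))
       (CovZ.leaf K2_ok TD_l14110 _))
      (CovZ.n1 (31104, 29952) (by decide +kernel)
       (CovZ.leaf K3_ok TD_l14111 _)
       (CovZ.n1 (30912, 29760) (by decide +kernel)
        (CovZ.leaf K3_ok TD_l14112 _)
        (CovZ.leaf K2_ok TD_l14113 _)))))
    (CovZ.n1 (31488, 30720) (by decide +kernel)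
     (CovZ.leaf K2_ok TD_l14114 _)
     (CovZ.n1 (31104, 30336) (by decide +kernel)
      (CovZ.leaf K2_ok TD_l14115 _)
      (CovZ.n1 (31488, 30336) (by decide +kernel)
       (CovZ.n2 (31296, 30144) (by decide +kernel)
        (CovZ.leaf K2_ok TD_l14116 _)
        (CovZ.leaf K2_ok TD_l14117 _))
       (CovZ.leaf K2_ok TD_l14118 _))))))

theorem TD_s0_12 : SqZ TD_M TD_L [0, 7, 6, 1] 18432 12288 1536 0 12 :=
  SqZ.mk (a := 18432) (b := 19968) (c := 30720) (d := 32256) (by norm_num) (by norm_num) (by norm_num) (by norm_num)
    (CovZ.topM TD_LL 0 (by decide +kernel) (CovZ.badM (by decide +kernel)))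
    (CovZ.topM TD_LL 0 (by decide +kernel) (CovZ.badM (by decide +kernel)))

theorem TD_s1_12 : SqZ TD_M TD_L [0, 7, 6, 1] 18432 12288 1536 1 12 :=
  SqZ.mk (a := 19968) (b := 21504) (c := 30720) (d := 32256) (by norm_num) (by norm_num) (by norm_num) (by norm_num)
    (CovZ.topM TD_LL 0 (by decide +kernel) (CovZ.badM (by decide +kernel)))
    (CovZ.topM TD_LL 0 (by decide +kernel) (CovZ.badM (by decide +kernel)))

theorem TD_s2_12 : SqZ TD_M TD_L [0, 7, 6, 1] 18432 12288 1536 2 12 :=
  SqZ.mk (a := 21504) (b := 23040) (c := 30720) (d := 32256) (by norm_num) (by norm_num) (by norm_num) (by norm_num)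
    (CovZ.topM TD_LL 1119872371088902105278721140284222139060822748617324767449994550503163583522639126656899659600289071104 (by decide +kernel) (CovZ.n2 (22272, 31488) (by decide +kernel)
    (CovZ.n2 (23040, 31488) (by decide +kernel)
     (CovZ.n2 (22656, 31104) (by decide +kernel)
      (CovZ.n2 (22656, 31488) (by decide +kernel)
       (CovZ.n2 (22848, 31296) (by decide +kernel)
        (CovZ.badM (by decide +kernel))
        (CovZ.n1 (22848, 31488) (by decide +kernel)
         (CovZ.n2 (22944, 31392) (by decide +kernel)
          (CovZ.n2 (22848, 31392) (by decide +kernel)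
           (CovZ.n2 (22896, 31440) (by decide +kernel)
            (CovZ.leaf K2_ok TD_l1647 _)
            (CovZ.badM (by decide +kernel)))
           (CovZ.leaf K2_ok TD_l1649 _))
          (CovZ.n1 (22944, 31488) (by decide +kernel)
           (CovZ.leaf K2_ok TD_l1650 _)
           (CovZ.n1 (22896, 31440) (by decide +kernel)
            (CovZ.leaf K2_ok TD_l1651 _)
            (CovZ.leaf K2_ok TD_l1652 _))))
         (CovZ.badM (by decide +kernel))))
       (CovZ.badM (by decide +kernel)))
      (CovZ.n1 (23040, 31104) (by decide +kernel)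
       (CovZ.n2 (22848, 30912) (by decide +kernel)
        (CovZ.n2 (22848, 31104) (by decide +kernel)
         (CovZ.leaf K2_ok TD_l1685 _)
         (CovZ.badM (by decide +kernel)))
        (CovZ.n1 (23040, 30912) (by decide +kernel)
         (CovZ.n2 (22944, 30816) (by decide +kernel)
          (CovZ.n2 (22944, 30912) (by decide +kernel)
           (CovZ.leaf K2_ok TD_l1689 _)
           (CovZ.leaf K2_ok TD_l1690 _))
          (CovZ.leaf K2_ok TD_l1691 _))
         (CovZ.n1 (22944, 31008) (by decide +kernel)
          (CovZ.leaf K2_ok TD_l1692 _)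
          (CovZ.leaf K2_ok TD_l1693 _))))
       (CovZ.n1 (22848, 31296) (by decide +kernel)
        (CovZ.n2 (23040, 31296) (by decide +kernel)
         (CovZ.n2 (22944, 31200) (by decide +kernel)
          (CovZ.leaf K2_ok TD_l1694 _)
          (CovZ.leaf K2_ok TD_l1695 _))
         (CovZ.n1 (22944, 31392) (by decide +kernel)
          (CovZ.n2 (23040, 31392) (by decide +kernel)
           (CovZ.leaf K2_ok TD_l1696 _)
           (CovZ.leaf K2_ok TD_l1697 _))
          (CovZ.n1 (22944, 31296) (by decide +kernel)
           (CovZ.leaf K2_ok TD_l1698 _)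
           (CovZ.leaf K2_ok TD_l1699 _))))
        (CovZ.n1 (22848, 31104) (by decide +kernel)
         (CovZ.badM (by decide +kernel))
         (CovZ.n1 (22944, 31200) (by decide +kernel)
          (CovZ.n2 (22944, 31104) (by decide +kernel)
           (CovZ.leaf K2_ok TD_l1703 _)
           (CovZ.leaf K2_ok TD_l1704 _))
          (CovZ.leaf K2_ok TD_l1705 _))))))
     (CovZ.n1 (22656, 31872) (by decide +kernel)
      (CovZ.n2 (23040, 31872) (by decide +kernel)
       (CovZ.n2 (22848, 31680) (by decide +kernel)
        (CovZ.badM (by decide +kernel))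
        (CovZ.n1 (23040, 31680) (by decide +kernel)
         (CovZ.n2 (22944, 31584) (by decide +kernel)
          (CovZ.n2 (22944, 31680) (by decide +kernel)
           (CovZ.n2 (22992, 31632) (by decide +kernel)
            (CovZ.n2 (22944, 31632) (by decide +kernel)
             (CovZ.badM (by decide +kernel))
             (CovZ.n1 (22968, 31608) (by decide +kernel)
              (CovZ.leaf K2_ok TD_l18873 _)
              (CovZ.leaf K2_ok TD_l18874 _)))
            (CovZ.n1 (22992, 31680) (by decide +kernel)
             (CovZ.n2 (23016, 31656) (by decide +kernel)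
              (CovZ.badM (by decide +kernel))
              (CovZ.badM (by decide +kernel)))
             (CovZ.badM (by decide +kernel))))
           (CovZ.n1 (22896, 31632) (by decide +kernel)
            (CovZ.badM (by decide +kernel))
            (CovZ.n1 (22944, 31632) (by decide +kernel)
             (CovZ.n2 (22920, 31608) (by decide +kernel)
              (CovZ.badM (by decide +kernel))
              (CovZ.leaf K2_ok TD_l18875 _))
             (CovZ.badM (by decide +kernel)))))
          (CovZ.n1 (23040, 31584) (by decide +kernel)
           (CovZ.n2 (22992, 31536) (by decide +kernel)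
            (CovZ.n2 (22992, 31584) (by decide +kernel)
             (CovZ.leaf K2_ok TD_l1706 _)
             (CovZ.leaf K2_ok TD_l1707 _))
            (CovZ.leaf K2_ok TD_l1708 _))
           (CovZ.n1 (22992, 31632) (by decide +kernel)
            (CovZ.n2 (23040, 31632) (by decide +kernel)
             (CovZ.leaf K2_ok TD_l14817 _)
             (CovZ.n1 (23016, 31656) (by decide +kernel)
              (CovZ.leaf K2_ok TD_l14818 _)
              (CovZ.n1 (23016, 31632) (by decide +kernel)
               (CovZ.badM (by decide +kernel))
               (CovZ.leaf K2_ok TD_l14819 _))))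
            (CovZ.n1 (22992, 31584) (by decide +kernel)
             (CovZ.n2 (22968, 31608) (by decide +kernel)
              (CovZ.leaf K2_ok TD_l18876 _)
              (CovZ.leaf K2_ok TD_l18877 _))
             (CovZ.n1 (23016, 31608) (by decide +kernel)
              (CovZ.leaf K2_ok TD_l14820 _)
              (CovZ.leaf K2_ok TD_l18878 _))))))
         (CovZ.badM (by decide +kernel))))
       (CovZ.badM (by decide +kernel)))
      (CovZ.n1 (22656, 31488) (by decide +kernel)
       (CovZ.badM (by decide +kernel))
       (CovZ.n1 (22848, 31680) (by decide +kernel)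
        (CovZ.n2 (22848, 31488) (by decide +kernel)
         (CovZ.badM (by decide +kernel))
         (CovZ.n1 (22944, 31584) (by decide +kernel)
          (CovZ.n2 (22944, 31488) (by decide +kernel)
           (CovZ.n2 (22896, 31536) (by decide +kernel)
            (CovZ.n2 (22944, 31536) (by decide +kernel)
             (CovZ.leaf K2_ok TD_l1715 _)
             (CovZ.leaf K2_ok TD_l18879 _))
            (CovZ.n1 (22896, 31488) (by decide +kernel)
             (CovZ.badM (by decide +kernel))
             (CovZ.leaf K2_ok TD_l1717 _)))
           (CovZ.n1 (22992, 31536) (by decide +kernel)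
            (CovZ.n2 (22992, 31488) (by decide +kernel)
             (CovZ.leaf K2_ok TD_l1718 _)
             (CovZ.leaf K2_ok TD_l1719 _))
            (CovZ.n1 (22944, 31536) (by decide +kernel)
             (CovZ.n2 (22968, 31560) (by decide +kernel)
              (CovZ.leaf K2_ok TD_l1720 _)
              (CovZ.leaf K2_ok TD_l18880 _))
             (CovZ.leaf K2_ok TD_l1721 _))))
          (CovZ.n1 (22848, 31584) (by decide +kernel)
           (CovZ.n2 (22896, 31632) (by decide +kernel)
            (CovZ.n2 (22896, 31584) (by decide +kernel)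
             (CovZ.badM (by decide +kernel))
             (CovZ.n1 (22920, 31608) (by decide +kernel)
              (CovZ.leaf K2_ok TD_l18881 _)
              (CovZ.leaf K2_ok TD_l18882 _)))
            (CovZ.badM (by decide +kernel)))
           (CovZ.n1 (22896, 31536) (by decide +kernel)
            (CovZ.badM (by decide +kernel))
            (CovZ.n1 (22896, 31584) (by decide +kernel)
             (CovZ.leaf K2_ok TD_l18883 _)
             (CovZ.badM (by decide +kernel)))))))
        (CovZ.badM (by decide +kernel))))))
    (CovZ.n1 (22272, 30720) (by decide +kernel)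
     (CovZ.badM (by decide +kernel))
     (CovZ.n1 (22656, 31104) (by decide +kernel)
      (CovZ.n2 (22656, 30720) (by decide +kernel)
       (CovZ.badM (by decide +kernel))
       (CovZ.n1 (22848, 30912) (by decide +kernel)
        (CovZ.n2 (22848, 30720) (by decide +kernel)
         (CovZ.badM (by decide +kernel))
         (CovZ.n1 (22944, 30816) (by decide +kernel)
          (CovZ.n2 (22944, 30720) (by decide +kernel)
           (CovZ.leaf K2_ok TD_l1830 _)
           (CovZ.leaf K2_ok TD_l1831 _))
          (CovZ.leaf K2_ok TD_l1832 _)))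
        (CovZ.badM (by decide +kernel))))
      (CovZ.badM (by decide +kernel))))))
    (CovZ.topM TD_LL 1119872371088902105278721140284222139060822748617324767449994550503163583522639126656899659600289071104 (by decide +kernel) (CovZ.n0 (22272, 31488) (by decide +kernel)
    (CovZ.badM (by decide +kernel))
    (CovZ.n1 (22272, 32256) (by decide +kernel)
     (CovZ.n2 (22656, 31872) (by decide +kernel)
      (CovZ.badM (by decide +kernel))
      (CovZ.badM (by decide +kernel)))
     (CovZ.badM (by decide +kernel)))))

theorem TD_s3_12 : SqZ TD_M TD_L [0, 7, 6, 1] 18432 12288 1536 3 12 :=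
  SqZ.mk (a := 23040) (b := 24576) (c := 30720) (d := 32256) (by norm_num) (by norm_num) (by norm_num) (by norm_num)
    (CovZ.topM TD_LL 36768769559962183563221464846782436068965974638495591617503390616667078781206701695520220946914236075868480 (by decide +kernel) (CovZ.n2 (23808, 31488) (by decide +kernel)
    (CovZ.n2 (24576, 31488) (by decide +kernel)
     (CovZ.n2 (24192, 31104) (by decide +kernel)
      (CovZ.n2 (24192, 31488) (by decide +kernel)
       (CovZ.n2 (24384, 31296) (by decide +kernel)
        (CovZ.leaf K2_ok TD_l3579 _)
        (CovZ.leaf K2_ok TD_l3580 _))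
       (CovZ.subM 36768769559961922822616251198951865491783993305352624089685671075972110520877044718499141829206302701650176 (by decide +kernel)
        (CovZ.n1 (24000, 31296) (by decide +kernel)
         (CovZ.n2 (24000, 31488) (by decide +kernel)
          (CovZ.leaf K2_ok TD_l3581 _)
          (CovZ.leaf K2_ok TD_l3582 _))
         (CovZ.n1 (24192, 31296) (by decide +kernel)
          (CovZ.leaf K2_ok TD_l3583 _)
          (CovZ.leaf K2_ok TD_l3584 _)))))
      (CovZ.n1 (24576, 31104) (by decide +kernel)
       (CovZ.n2 (24384, 30912) (by decide +kernel)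
        (CovZ.n2 (24384, 31104) (by decide +kernel)
         (CovZ.leaf K2_ok TD_l3585 _)
         (CovZ.leaf K2_ok TD_l3586 _))
        (CovZ.n1 (24576, 30912) (by decide +kernel)
         (CovZ.leaf K2_ok TD_l3587 _)
         (CovZ.leaf K2_ok TD_l3588 _)))
       (CovZ.n1 (24384, 31296) (by decide +kernel)
        (CovZ.n2 (24576, 31296) (by decide +kernel)
         (CovZ.leaf K2_ok TD_l3589 _)
         (CovZ.leaf K2_ok TD_l3590 _))
        (CovZ.n1 (24384, 31104) (by decide +kernel)
         (CovZ.leaf K2_ok TD_l3591 _)
         (CovZ.leaf K2_ok TD_l3592 _)))))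
     (CovZ.n1 (24192, 31872) (by decide +kernel)
      (CovZ.n2 (24576, 31872) (by decide +kernel)
       (CovZ.n2 (24384, 31680) (by decide +kernel)
        (CovZ.n2 (24384, 31872) (by decide +kernel)
         (CovZ.leaf K2_ok TD_l3593 _)
         (CovZ.n1 (24288, 31776) (by decide +kernel)
          (CovZ.leaf K2_ok TD_l3594 _)
          (CovZ.leaf K2_ok TD_l3595 _)))
        (CovZ.n1 (24576, 31680) (by decide +kernel)
         (CovZ.leaf K2_ok TD_l3596 _)
         (CovZ.leaf K2_ok TD_l3597 _)))
       (CovZ.n1 (24384, 32064) (by decide +kernel)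
        (CovZ.n2 (24576, 32064) (by decide +kernel)
         (CovZ.n2 (24480, 31968) (by decide +kernel)
          (CovZ.n2 (24480, 32064) (by decide +kernel)
           (CovZ.leaf K2_ok TD_l3598 _)
           (CovZ.leaf K2_ok TD_l3599 _))
          (CovZ.leaf K2_ok TD_l3600 _))
         (CovZ.n1 (24480, 32160) (by decide +kernel)
          (CovZ.n2 (24576, 32160) (by decide +kernel)
           (CovZ.n2 (24528, 32112) (by decide +kernel)
            (CovZ.leaf K2_ok TD_l3601 _)
            (CovZ.leaf K2_ok TD_l3602 _))
           (CovZ.n1 (24528, 32208) (by decide +kernel)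
            (CovZ.n2 (24576, 32208) (by decide +kernel)
             (CovZ.leaf K2_ok TD_l3603 _)
             (CovZ.leaf K2_ok TD_l3604 _))
            (CovZ.n1 (24528, 32160) (by decide +kernel)
             (CovZ.leaf K2_ok TD_l3605 _)
             (CovZ.leaf K2_ok TD_l3606 _))))
          (CovZ.n1 (24480, 32064) (by decide +kernel)
           (CovZ.n2 (24432, 32112) (by decide +kernel)
            (CovZ.leaf K2_ok TD_l3607 _)
            (CovZ.leaf K2_ok TD_l3608 _))
           (CovZ.n1 (24528, 32112) (by decide +kernel)
            (CovZ.leaf K2_ok TD_l3609 _)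
            (CovZ.leaf K2_ok TD_l3610 _)))))
        (CovZ.n1 (24384, 31872) (by decide +kernel)
         (CovZ.subM 36768769559961922822616251198951865491783993305352624089685671075972089253229112159845175368293338216136704 (by decide +kernel)
          (CovZ.n2 (24288, 31968) (by decide +kernel)
           (CovZ.n2 (24384, 31968) (by decide +kernel)
            (CovZ.leaf K2_ok TD_l3611 _)
            (CovZ.leaf K2_ok TD_l3612 _))
           (CovZ.n1 (24288, 31872) (by decide +kernel)
            (CovZ.leaf K2_ok TD_l3613 _)
            (CovZ.leaf K2_ok TD_l3614 _))))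
         (CovZ.n1 (24480, 31968) (by decide +kernel)
          (CovZ.n2 (24480, 31872) (by decide +kernel)
           (CovZ.leaf K2_ok TD_l3615 _)
           (CovZ.leaf K2_ok TD_l3616 _))
          (CovZ.n1 (24384, 31968) (by decide +kernel)
           (CovZ.n2 (24432, 32016) (by decide +kernel)
            (CovZ.leaf K2_ok TD_l3617 _)
            (CovZ.leaf K2_ok TD_l3618 _))
           (CovZ.leaf K2_ok TD_l3619 _))))))
      (CovZ.n1 (24192, 31488) (by decide +kernel)
       (CovZ.subM 36768769559961922822616251198951865491783993305352624089685671075972110520877044718499141829206302701650176 (by decide +kernel)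
        (CovZ.n2 (24000, 31680) (by decide +kernel)
         (CovZ.n2 (24192, 31680) (by decide +kernel)
          (CovZ.leaf K2_ok TD_l3620 _)
          (CovZ.n1 (24096, 31776) (by decide +kernel)
           (CovZ.leaf K2_ok TD_l3621 _)
           (CovZ.leaf K2_ok TD_l3622 _)))
         (CovZ.n1 (24000, 31488) (by decide +kernel)
          (CovZ.n2 (23904, 31584) (by decide +kernel)
           (CovZ.leaf K2_ok TD_l3623 _)
           (CovZ.leaf K2_ok TD_l3624 _))
          (CovZ.n1 (24096, 31584) (by decide +kernel)
           (CovZ.leaf K2_ok TD_l3625 _)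
           (CovZ.leaf K2_ok TD_l3626 _)))))
       (CovZ.n1 (24384, 31680) (by decide +kernel)
        (CovZ.n2 (24384, 31488) (by decide +kernel)
         (CovZ.leaf K2_ok TD_l3627 _)
         (CovZ.leaf K2_ok TD_l3628 _))
        (CovZ.n1 (24192, 31680) (by decide +kernel)
         (CovZ.n2 (24288, 31776) (by decide +kernel)
          (CovZ.leaf K2_ok TD_l3629 _)
          (CovZ.leaf K2_ok TD_l3630 _))
         (CovZ.leaf K2_ok TD_l3631 _))))))
    (CovZ.n1 (23808, 30720) (by decide +kernel)
     (CovZ.subM 36768769559961922822616251198951865491783993305352624089685671075972110520877044718499141829206302701650176 (by decide +kernel)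
      (CovZ.n2 (23424, 31104) (by decide +kernel)
       (CovZ.n2 (23808, 31104) (by decide +kernel)
        (CovZ.n2 (23616, 30912) (by decide +kernel)
         (CovZ.n2 (23616, 31104) (by decide +kernel)
          (CovZ.leaf K2_ok TD_l3632 _)
          (CovZ.n1 (23520, 31008) (by decide +kernel)
           (CovZ.leaf K2_ok TD_l3633 _)
           (CovZ.leaf K2_ok TD_l3634 _)))
         (CovZ.n1 (23808, 30912) (by decide +kernel)
          (CovZ.n2 (23712, 30816) (by decide +kernel)
           (CovZ.leaf K2_ok TD_l3635 _)
           (CovZ.leaf K2_ok TD_l3636 _))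
          (CovZ.n1 (23712, 31008) (by decide +kernel)
           (CovZ.leaf K2_ok TD_l3637 _)
           (CovZ.leaf K2_ok TD_l3638 _))))
        (CovZ.n1 (23616, 31296) (by decide +kernel)
         (CovZ.n2 (23808, 31296) (by decide +kernel)
          (CovZ.leaf K2_ok TD_l3639 _)
          (CovZ.n1 (23712, 31392) (by decide +kernel)
           (CovZ.leaf K2_ok TD_l3640 _)
           (CovZ.leaf K2_ok TD_l3641 _)))
         (CovZ.n1 (23616, 31104) (by decide +kernel)
          (CovZ.leaf K2_ok TD_l3642 _)
          (CovZ.leaf K2_ok TD_l3643 _))))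
       (CovZ.n1 (23424, 30720) (by decide +kernel)
        (CovZ.n2 (23232, 30912) (by decide +kernel)
         (CovZ.n2 (23424, 30912) (by decide +kernel)
          (CovZ.n2 (23328, 30816) (by decide +kernel)
           (CovZ.leaf K2_ok TD_l3644 _)
           (CovZ.leaf K2_ok TD_l3645 _))
          (CovZ.n1 (23328, 31008) (by decide +kernel)
           (CovZ.leaf K2_ok TD_l3646 _)
           (CovZ.leaf K2_ok TD_l3647 _)))
         (CovZ.n1 (23232, 30720) (by decide +kernel)
          (CovZ.n2 (23136, 30816) (by decide +kernel)
           (CovZ.leaf K2_ok TD_l3648 _)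
           (CovZ.leaf K2_ok TD_l3649 _))
          (CovZ.n1 (23328, 30816) (by decide +kernel)
           (CovZ.leaf K2_ok TD_l3650 _)
           (CovZ.leaf K2_ok TD_l3651 _))))
        (CovZ.n1 (23616, 30912) (by decide +kernel)
         (CovZ.n2 (23616, 30720) (by decide +kernel)
          (CovZ.n2 (23520, 30816) (by decide +kernel)
           (CovZ.leaf K2_ok TD_l3652 _)
           (CovZ.leaf K2_ok TD_l3653 _))
          (CovZ.n1 (23712, 30816) (by decide +kernel)
           (CovZ.leaf K2_ok TD_l3654 _)
           (CovZ.leaf K2_ok TD_l3655 _)))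
         (CovZ.n1 (23424, 30912) (by decide +kernel)
          (CovZ.n2 (23520, 31008) (by decide +kernel)
           (CovZ.leaf K2_ok TD_l3656 _)
           (CovZ.leaf K2_ok TD_l3657 _))
          (CovZ.leaf K2_ok TD_l3658 _))))))
     (CovZ.n1 (24192, 31104) (by decide +kernel)
      (CovZ.n2 (24192, 30720) (by decide +kernel)
       (CovZ.subM 36768769559961922822616251198951865491783993305352624089685671075972110520877044718499141829206302701650176 (by decide +kernel)
        (CovZ.n2 (24000, 30912) (by decide +kernel)
         (CovZ.n2 (24192, 30912) (by decide +kernel)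
          (CovZ.leaf K2_ok TD_l3659 _)
          (CovZ.leaf K2_ok TD_l3660 _))
         (CovZ.n1 (24000, 30720) (by decide +kernel)
          (CovZ.leaf K2_ok TD_l3661 _)
          (CovZ.leaf K2_ok TD_l3662 _))))
       (CovZ.n1 (24384, 30912) (by decide +kernel)
        (CovZ.n2 (24384, 30720) (by decide +kernel)
         (CovZ.leaf K2_ok TD_l3663 _)
         (CovZ.leaf K2_ok TD_l3664 _))
        (CovZ.leaf K2_ok TD_l3665 _)))
      (CovZ.subM 36768769559961922822616251198951865491783993305352624089685671075972110520877044718499141829206302701650176 (by decide +kernel)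
       (CovZ.n1 (23808, 31104) (by decide +kernel)
        (CovZ.n2 (24000, 31296) (by decide +kernel)
         (CovZ.n2 (24000, 31104) (by decide +kernel)
          (CovZ.leaf K2_ok TD_l3666 _)
          (CovZ.leaf K2_ok TD_l3667 _))
         (CovZ.leaf K2_ok TD_l3668 _))
        (CovZ.n1 (24000, 30912) (by decide +kernel)
         (CovZ.leaf K2_ok TD_l3669 _)
         (CovZ.n1 (24000, 31104) (by decide +kernel)
          (CovZ.leaf K2_ok TD_l3670 _)
          (CovZ.leaf K2_ok TD_l3671 _)))))))))
    (CovZ.topM TD_LL 36768769559962183563221464846782436068965974638495591617503390616667078781206701695520220946914236075868480 (by decide +kernel) (CovZ.n0 (23808, 31488) (by decide +kernel)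
    TD_u170
    TD_u171))

theorem TD_s4_12 : SqZ TD_M TD_L [0, 7, 6, 1] 18432 12288 1536 4 12 :=
  SqZ.mk (a := 24576) (b := 26112) (c := 30720) (d := 32256) (by norm_num) (by norm_num) (by norm_num) (by norm_num)
    (CovZ.topM TD_LL 36768769560496196618489503043269885176768006080958444611258873244622740967517382858498068937628363944886608 (by decide +kernel) (CovZ.n2 (25344, 31488) (by decide +kernel)
    (CovZ.n2 (26112, 31488) (by decide +kernel)
     (CovZ.n2 (25728, 31104) (by decide +kernel)
      (CovZ.n2 (25728, 31488) (by decide +kernel)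
       (CovZ.leaf K2_ok TD_l6160 _)
       (CovZ.n1 (25536, 31296) (by decide +kernel)
        (CovZ.leaf K2_ok TD_l6161 _)
        (CovZ.leaf K2_ok TD_l6162 _)))
      (CovZ.n1 (26112, 31104) (by decide +kernel)
       (CovZ.n2 (25920, 30912) (by decide +kernel)
        (CovZ.leaf K2_ok TD_l6163 _)
        (CovZ.leaf K2_ok TD_l6164 _))
       (CovZ.n1 (25920, 31296) (by decide +kernel)
        (CovZ.leaf K2_ok TD_l6165 _)
        (CovZ.leaf K2_ok TD_l6166 _))))
     (CovZ.n1 (25728, 31872) (by decide +kernel)
      (CovZ.n2 (26112, 31872) (by decide +kernel)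
       (CovZ.n2 (25920, 31680) (by decide +kernel)
        (CovZ.leaf K2_ok TD_l6167 _)
        (CovZ.leaf K2_ok TD_l6168 _))
       (CovZ.n1 (25920, 32064) (by decide +kernel)
        (CovZ.n2 (26112, 32064) (by decide +kernel)
         (CovZ.leaf K2_ok TD_l6169 _)
         (CovZ.leaf K2_ok TD_l6170 _))
        (CovZ.n1 (25920, 31872) (by decide +kernel)
         (CovZ.leaf K2_ok TD_l6171 _)
         (CovZ.leaf K2_ok TD_l6172 _))))
      (CovZ.n1 (25728, 31488) (by decide +kernel)
       (CovZ.n2 (25536, 31680) (by decide +kernel)
        (CovZ.leaf K2_ok TD_l6173 _)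
        (CovZ.n1 (25536, 31488) (by decide +kernel)
         (CovZ.leaf K2_ok TD_l6174 _)
         (CovZ.leaf K2_ok TD_l6175 _)))
       (CovZ.n1 (25920, 31680) (by decide +kernel)
        (CovZ.leaf K2_ok TD_l6176 _)
        (CovZ.leaf K2_ok TD_l6177 _)))))
    (CovZ.n1 (25344, 30720) (by decide +kernel)
     (CovZ.n2 (24960, 31104) (by decide +kernel)
      (CovZ.n2 (25344, 31104) (by decide +kernel)
       (CovZ.n2 (25152, 30912) (by decide +kernel)
        (CovZ.n2 (25152, 31104) (by decide +kernel)
         (CovZ.leaf K2_ok TD_l6178 _)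
         (CovZ.leaf K2_ok TD_l6179 _))
        (CovZ.leaf K2_ok TD_l6180 _))
       (CovZ.n1 (25152, 31296) (by decide +kernel)
        (CovZ.leaf K2_ok TD_l6181 _)
        (CovZ.n1 (25152, 31104) (by decide +kernel)
         (CovZ.leaf K2_ok TD_l6182 _)
         (CovZ.leaf K2_ok TD_l6183 _))))
      (CovZ.n1 (24960, 30720) (by decide +kernel)
       (CovZ.subM 36768769559962183563221464846782436068965974638495591617503390616667078781206701695520220946914236075868480 (by decide +kernel)
        (CovZ.n2 (24768, 30912) (by decide +kernel)
         (CovZ.n2 (24960, 30912) (by decide +kernel)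
          (CovZ.leaf K2_ok TD_l6184 _)
          (CovZ.leaf K2_ok TD_l6185 _))
         (CovZ.n1 (24768, 30720) (by decide +kernel)
          (CovZ.leaf K2_ok TD_l6186 _)
          (CovZ.leaf K2_ok TD_l6187 _))))
       (CovZ.n1 (25152, 30912) (by decide +kernel)
        (CovZ.leaf K2_ok TD_l6188 _)
        (CovZ.leaf K2_ok TD_l6189 _))))
     (CovZ.n1 (25728, 31104) (by decide +kernel)
      (CovZ.n2 (25728, 30720) (by decide +kernel)
       (CovZ.n2 (25536, 30912) (by decide +kernel)
        (CovZ.leaf K2_ok TD_l6190 _)
        (CovZ.leaf K2_ok TD_l6191 _))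
       (CovZ.n1 (25920, 30912) (by decide +kernel)
        (CovZ.leaf K2_ok TD_l6192 _)
        (CovZ.leaf K2_ok TD_l6193 _)))
      (CovZ.n1 (25344, 31104) (by decide +kernel)
       (CovZ.n2 (25536, 31296) (by decide +kernel)
        (CovZ.leaf K2_ok TD_l6194 _)
        (CovZ.leaf K2_ok TD_l6195 _))
       (CovZ.leaf K2_ok TD_l6196 _))))))
    (CovZ.topM TD_LL 36768769560496196618489503043269885176768006080958444611258873244622740967517382858498068937628363944886608 (by decide +kernel) (CovZ.n0 (25344, 31488) (by decide +kernel)
    (CovZ.n2 (24576, 31488) (by decide +kernel)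
     (CovZ.n2 (24960, 31872) (by decide +kernel)
      (CovZ.n2 (24960, 31488) (by decide +kernel)
       (CovZ.subM 36768769559962183563221464846782436068965974638495591617503390616667078781206701695520220946914236075868480 (by decide +kernel)
        (CovZ.n2 (24768, 31680) (by decide +kernel)
         (CovZ.n2 (24960, 31680) (by decide +kernel)
          (CovZ.leaf K2_ok TD_l6197 _)
          (CovZ.leaf K2_ok TD_l6198 _))
         (CovZ.n1 (24768, 31488) (by decide +kernel)
          (CovZ.leaf K2_ok TD_l6199 _)
          (CovZ.leaf K2_ok TD_l6200 _))))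
       (CovZ.n1 (25152, 31680) (by decide +kernel)
        (CovZ.leaf K2_ok TD_l6201 _)
        (CovZ.leaf K2_ok TD_l6202 _)))
      (CovZ.subM 36768769559962183563221464846782436068965974638495591617503390616667078781206701695520220946914236075868480 (by decide +kernel)
       (CovZ.n1 (24576, 31872) (by decide +kernel)
        (CovZ.n2 (24768, 32064) (by decide +kernel)
         (CovZ.n2 (24768, 31872) (by decide +kernel)
          (CovZ.n2 (24672, 31968) (by decide +kernel)
           (CovZ.leaf K2_ok TD_l6203 _)
           (CovZ.leaf K2_ok TD_l6204 _))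
          (CovZ.n1 (24864, 31968) (by decide +kernel)
           (CovZ.leaf K2_ok TD_l6205 _)
           (CovZ.leaf K2_ok TD_l6206 _)))
         (CovZ.n1 (24576, 32064) (by decide +kernel)
          (CovZ.n2 (24672, 32160) (by decide +kernel)
           (CovZ.n2 (24672, 32064) (by decide +kernel)
            (CovZ.leaf K2_ok TD_l6207 _)
            (CovZ.n1 (24720, 32112) (by decide +kernel)
             (CovZ.leaf K2_ok TD_l6208 _)
             (CovZ.leaf K2_ok TD_l6209 _)))
           (CovZ.n1 (24576, 32160) (by decide +kernel)
            (CovZ.n2 (24624, 32208) (by decide +kernel)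
             (CovZ.n2 (24624, 32160) (by decide +kernel)
              (CovZ.leaf K2_ok TD_l6210 _)
              (CovZ.leaf K2_ok TD_l6211 _))
             (CovZ.n1 (24576, 32208) (by decide +kernel)
              (CovZ.n2 (24600, 32232) (by decide +kernel)
               (CovZ.leaf K2_ok TD_l6212 _)
               (CovZ.leaf K2_ok TD_l6213 _))
              (CovZ.leaf K2_ok TD_l6214 _)))
            (CovZ.leaf K2_ok TD_l6215 _)))
          (CovZ.n1 (24672, 31968) (by decide +kernel)
           (CovZ.leaf K2_ok TD_l6216 _)
           (CovZ.leaf K2_ok TD_l6217 _))))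
        (CovZ.n1 (24768, 31680) (by decide +kernel)
         (CovZ.n2 (24576, 31680) (by decide +kernel)
          (CovZ.n2 (24672, 31776) (by decide +kernel)
           (CovZ.leaf K2_ok TD_l6218 _)
           (CovZ.leaf K2_ok TD_l6219 _))
          (CovZ.leaf K2_ok TD_l6220 _))
         (CovZ.n1 (24768, 31872) (by decide +kernel)
          (CovZ.leaf K2_ok TD_l6221 _)
          (CovZ.leaf K2_ok TD_l6222 _))))))
     (CovZ.n1 (24960, 31104) (by decide +kernel)
      (CovZ.subM 36768769559962183563221464846782436068965974638495591617503390616667078781206701695520220946914236075868480 (by decide +kernel)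
       (CovZ.n2 (24576, 31104) (by decide +kernel)
        (CovZ.n2 (24768, 31296) (by decide +kernel)
         (CovZ.n2 (24768, 31104) (by decide +kernel)
          (CovZ.leaf K2_ok TD_l6223 _)
          (CovZ.leaf K2_ok TD_l6224 _))
         (CovZ.leaf K2_ok TD_l6225 _))
        (CovZ.n1 (24768, 30912) (by decide +kernel)
         (CovZ.leaf K2_ok TD_l6226 _)
         (CovZ.n1 (24768, 31104) (by decide +kernel)
          (CovZ.leaf K2_ok TD_l6227 _)
          (CovZ.leaf K2_ok TD_l6228 _)))))
      (CovZ.n1 (24960, 31488) (by decide +kernel)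
       (CovZ.leaf K2_ok TD_l6229 _)
       (CovZ.n1 (24768, 31296) (by decide +kernel)
        (CovZ.leaf K2_ok TD_l6230 _)
        (CovZ.n1 (24960, 31296) (by decide +kernel)
         (CovZ.leaf K2_ok TD_l6231 _)
         (CovZ.leaf K2_ok TD_l6232 _))))))
    (CovZ.n1 (25344, 32256) (by decide +kernel)
     (CovZ.n2 (25728, 31872) (by decide +kernel)
      (CovZ.n2 (25344, 31872) (by decide +kernel)
       (CovZ.n2 (25536, 32064) (by decide +kernel)
        (CovZ.n2 (25536, 31872) (by decide +kernel)
         (CovZ.leaf K2_ok TD_l6233 _)
         (CovZ.leaf K2_ok TD_l6234 _))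
        (CovZ.n1 (25344, 32064) (by decide +kernel)
         (CovZ.n2 (25440, 32160) (by decide +kernel)
          (CovZ.leaf K2_ok TD_l6235 _)
          (CovZ.leaf K2_ok TD_l6236 _))
         (CovZ.leaf K2_ok TD_l6237 _)))
       (CovZ.n1 (25536, 31680) (by decide +kernel)
        (CovZ.leaf K2_ok TD_l6238 _)
        (CovZ.leaf K2_ok TD_l6239 _)))
      (CovZ.n1 (25728, 32256) (by decide +kernel)
       (CovZ.n2 (25920, 32064) (by decide +kernel)
        (CovZ.n2 (25728, 32064) (by decide +kernel)
         (CovZ.n2 (25824, 32160) (by decide +kernel)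
          (CovZ.leaf K2_ok TD_l6240 _)
          (CovZ.leaf K2_ok TD_l6241 _))
         (CovZ.leaf K2_ok TD_l6242 _))
        (CovZ.n1 (25920, 32256) (by decide +kernel)
         (CovZ.leaf K2_ok TD_l6243 _)
         (CovZ.leaf K2_ok TD_l6244 _)))
       (CovZ.n1 (25536, 32064) (by decide +kernel)
        (CovZ.n2 (25536, 32256) (by decide +kernel)
         (CovZ.n2 (25632, 32160) (by decide +kernel)
          (CovZ.leaf K2_ok TD_l6245 _)
          (CovZ.leaf K2_ok TD_l6246 _))
         (CovZ.n1 (25440, 32160) (by decide +kernel)
          (CovZ.leaf K2_ok TD_l6247 _)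
          (CovZ.leaf K2_ok TD_l6248 _)))
        (CovZ.n1 (25728, 32064) (by decide +kernel)
         (CovZ.leaf K2_ok TD_l6249 _)
         (CovZ.leaf K2_ok TD_l6250 _)))))
     (CovZ.subM 36768769559962183563221464846782436068965981220513820902327559236543979193492816240803249600740535017144384 (by decide +kernel)
      (CovZ.n1 (24960, 31872) (by decide +kernel)
       (CovZ.n2 (24960, 32256) (by decide +kernel)
        (CovZ.n2 (25152, 32064) (by decide +kernel)
         (CovZ.subM 36768769559962183563221464846782436068965974638495591617503390616667057513558769136866254486001271590355008 (by decide +kernel)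
          (CovZ.n2 (24960, 32064) (by decide +kernel)
           (CovZ.n2 (25056, 32160) (by decide +kernel)
            (CovZ.n2 (25056, 32064) (by decide +kernel)
             (CovZ.leaf K2_ok TD_l6251 _)
             (CovZ.leaf K2_ok TD_l6252 _))
            (CovZ.n1 (24960, 32160) (by decide +kernel)
             (CovZ.n2 (25008, 32208) (by decide +kernel)
              (CovZ.leaf K2_ok TD_l6253 _)
              (CovZ.leaf K2_ok TD_l6254 _))
             (CovZ.leaf K2_ok TD_l6255 _)))
           (CovZ.leaf K2_ok TD_l6256 _)))
         (CovZ.n1 (25152, 32256) (by decide +kernel)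
          (CovZ.n2 (25248, 32160) (by decide +kernel)
           (CovZ.leaf K2_ok TD_l6257 _)
           (CovZ.n1 (25248, 32256) (by decide +kernel)
            (CovZ.leaf K2_ok TD_l6258 _)
            (CovZ.leaf K2_ok TD_l6259 _)))
          (CovZ.subM 72791704120778636843359707730002655172818411398479049747579946636210070165494846939587929140869130616896 (by decide +kernel)
           (CovZ.n1 (25056, 32160) (by decide +kernel)
            (CovZ.n2 (25056, 32256) (by decide +kernel)
             (CovZ.leaf K2_ok TD_l6260 _)
             (CovZ.leaf K2_ok TD_l6261 _))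
            (CovZ.n1 (25152, 32160) (by decide +kernel)
             (CovZ.leaf K2_ok TD_l6262 _)
             (CovZ.leaf K2_ok TD_l6263 _))))))
        (CovZ.subM 36768769559962183563221464846782436068965974638495591617503390616667057513558769136866254486001271590355008 (by decide +kernel)
         (CovZ.n1 (24768, 32064) (by decide +kernel)
          (CovZ.n2 (24768, 32256) (by decide +kernel)
           (CovZ.n2 (24864, 32160) (by decide +kernel)
            (CovZ.n2 (24768, 32160) (by decide +kernel)
             (CovZ.n2 (24816, 32208) (by decide +kernel)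
              (CovZ.leaf K2_ok TD_l6264 _)
              (CovZ.leaf K2_ok TD_l6265 _))
             (CovZ.leaf K2_ok TD_l6266 _))
            (CovZ.n1 (24864, 32256) (by decide +kernel)
             (CovZ.leaf K2_ok TD_l6267 _)
             (CovZ.n1 (24816, 32208) (by decide +kernel)
              (CovZ.leaf K2_ok TD_l6268 _)
              (CovZ.leaf K2_ok TD_l6269 _))))
           (CovZ.n1 (24672, 32160) (by decide +kernel)
            (CovZ.n2 (24672, 32256) (by decide +kernel)
             (CovZ.n2 (24720, 32208) (by decide +kernel)
              (CovZ.leaf K2_ok TD_l6270 _)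
              (CovZ.leaf K2_ok TD_l6271 _))
             (CovZ.n1 (24624, 32208) (by decide +kernel)
              (CovZ.n2 (24624, 32256) (by decide +kernel)
               (CovZ.leaf K2_ok TD_l6272 _)
               (CovZ.leaf K2_ok TD_l6273 _))
              (CovZ.leaf K2_ok TD_l6274 _)))
            (CovZ.n1 (24768, 32160) (by decide +kernel)
             (CovZ.leaf K2_ok TD_l6275 _)
             (CovZ.n1 (24720, 32208) (by decide +kernel)
              (CovZ.leaf K2_ok TD_l6276 _)
              (CovZ.leaf K2_ok TD_l6277 _)))))
          (CovZ.n1 (24960, 32064) (by decide +kernel)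
           (CovZ.n2 (24864, 31968) (by decide +kernel)
            (CovZ.leaf K2_ok TD_l6278 _)
            (CovZ.leaf K2_ok TD_l6279 _))
           (CovZ.n1 (24864, 32160) (by decide +kernel)
            (CovZ.n2 (24960, 32160) (by decide +kernel)
             (CovZ.leaf K2_ok TD_l6280 _)
             (CovZ.leaf K2_ok TD_l6281 _))
            (CovZ.n1 (24864, 32064) (by decide +kernel)
             (CovZ.leaf K2_ok TD_l6282 _)
             (CovZ.leaf K2_ok TD_l6283 _)))))))
       (CovZ.n1 (25344, 31872) (by decide +kernel)
        (CovZ.n2 (25152, 31680) (by decide +kernel)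
         (CovZ.leaf K2_ok TD_l6284 _)
         (CovZ.leaf K2_ok TD_l6285 _))
        (CovZ.n1 (25152, 32064) (by decide +kernel)
         (CovZ.n2 (25344, 32064) (by decide +kernel)
          (CovZ.leaf K2_ok TD_l6286 _)
          (CovZ.n1 (25248, 32160) (by decide +kernel)
           (CovZ.leaf K2_ok TD_l6287 _)
           (CovZ.leaf K2_ok TD_l6288 _)))
         (CovZ.n1 (25152, 31872) (by decide +kernel)
          (CovZ.leaf K2_ok TD_l6289 _)
          (CovZ.n1 (25248, 31968) (by decide +kernel)
           (CovZ.leaf K2_ok TD_l6290 _)
           (CovZ.leaf K2_ok TD_l6291 _))))))))))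

theorem TD_s5_12 : SqZ TD_M TD_L [0, 7, 6, 1] 18432 12288 1536 5 12 :=
  SqZ.mk (a := 26112) (b := 27648) (c := 30720) (d := 32256) (by norm_num) (by norm_num) (by norm_num) (by norm_num)
    (CovZ.topM TD_LL 18348006973294186697950817814494975539516996297843294634057752183146410373439537053142290572705870015369298 (by decide +kernel) (CovZ.n2 (26880, 31488) (by decide +kernel)
    (CovZ.n2 (27648, 31488) (by decide +kernel)
     (CovZ.n2 (27264, 31104) (by decide +kernel)
      (CovZ.n2 (27264, 31488) (by decide +kernel)
       (CovZ.leaf K2_ok TD_l7892 _)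
       (CovZ.n1 (27072, 31296) (by decide +kernel)
        (CovZ.leaf K2_ok TD_l7893 _)
        (CovZ.leaf K2_ok TD_l7894 _)))
      (CovZ.n1 (27648, 31104) (by decide +kernel)
       (CovZ.n2 (27456, 30912) (by decide +kernel)
        (CovZ.leaf K2_ok TD_l7895 _)
        (CovZ.leaf K2_ok TD_l7896 _))
       (CovZ.n1 (27456, 31296) (by decide +kernel)
        (CovZ.leaf K2_ok TD_l7897 _)
        (CovZ.leaf K2_ok TD_l7898 _))))
     (CovZ.n1 (27264, 31872) (by decide +kernel)
      (CovZ.n2 (27648, 31872) (by decide +kernel)
       (CovZ.n2 (27456, 31680) (by decide +kernel)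
        (CovZ.leaf K2_ok TD_l7899 _)
        (CovZ.leaf K3_ok TD_l7900 _))
       (CovZ.n1 (27456, 32064) (by decide +kernel)
        (CovZ.leaf K2_ok TD_l7901 _)
        (CovZ.leaf K2_ok TD_l7902 _)))
      (CovZ.n1 (27264, 31488) (by decide +kernel)
       (CovZ.n2 (27072, 31680) (by decide +kernel)
        (CovZ.leaf K2_ok TD_l7903 _)
        (CovZ.leaf K2_ok TD_l7904 _))
       (CovZ.n1 (27456, 31680) (by decide +kernel)
        (CovZ.leaf K2_ok TD_l7905 _)
        (CovZ.leaf K3_ok TD_l7906 _)))))
    (CovZ.n1 (26880, 30720) (by decide +kernel)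
     (CovZ.subM 550961194593326623228970656126791112762373369314476493693113015424304391483131480247360132747344 (by decide +kernel)
      (CovZ.n2 (26496, 31104) (by decide +kernel)
       (CovZ.n2 (26880, 31104) (by decide +kernel)
        (CovZ.n2 (26688, 30912) (by decide +kernel)
         (CovZ.leaf K2_ok TD_l7907 _)
         (CovZ.leaf K2_ok TD_l7908 _))
        (CovZ.n1 (26688, 31296) (by decide +kernel)
         (CovZ.leaf K2_ok TD_l7909 _)
         (CovZ.leaf K2_ok TD_l7910 _)))
       (CovZ.n1 (26496, 30720) (by decide +kernel)
        (CovZ.n2 (26304, 30912) (by decide +kernel)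
         (CovZ.leaf K2_ok TD_l7911 _)
         (CovZ.leaf K2_ok TD_l7912 _))
        (CovZ.n1 (26688, 30912) (by decide +kernel)
         (CovZ.leaf K2_ok TD_l7913 _)
         (CovZ.leaf K2_ok TD_l7914 _)))))
     (CovZ.n1 (27264, 31104) (by decide +kernel)
      (CovZ.n2 (27264, 30720) (by decide +kernel)
       (CovZ.n2 (27072, 30912) (by decide +kernel)
        (CovZ.leaf K2_ok TD_l7915 _)
        (CovZ.leaf K2_ok TD_l7916 _))
       (CovZ.n1 (27456, 30912) (by decide +kernel)
        (CovZ.leaf K2_ok TD_l7917 _)
        (CovZ.leaf K2_ok TD_l7918 _)))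
      (CovZ.n1 (26880, 31104) (by decide +kernel)
       (CovZ.n2 (27072, 31296) (by decide +kernel)
        (CovZ.leaf K2_ok TD_l7919 _)
        (CovZ.leaf K2_ok TD_l7920 _))
       (CovZ.leaf K2_ok TD_l7921 _))))))
    (CovZ.topM TD_LL 18348006973294186697950817814494961404740478070768657967677746239798283753568362048190625599856259674411090 (by decide +kernel) (CovZ.n0 (26880, 31488) (by decide +kernel)
    (CovZ.subM 550961194593326623228956521350272885687736702934470550344986395553129386531466507397749791789136 (by decide +kernel)
     (CovZ.n2 (26112, 31488) (by decide +kernel)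
      (CovZ.n2 (26496, 31872) (by decide +kernel)
       (CovZ.n2 (26496, 31488) (by decide +kernel)
        (CovZ.n2 (26304, 31680) (by decide +kernel)
         (CovZ.leaf K2_ok TD_l7922 _)
         (CovZ.leaf K2_ok TD_l7923 _))
        (CovZ.n1 (26688, 31680) (by decide +kernel)
         (CovZ.leaf K2_ok TD_l7924 _)
         (CovZ.leaf K2_ok TD_l7925 _)))
       (CovZ.n1 (26112, 31872) (by decide +kernel)
        (CovZ.subM 534013055268281030098977323935896375201205933618812928810559986793786004748508857696732709126208 (by decide +kernel)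
         (CovZ.n2 (26304, 32064) (by decide +kernel)
          (CovZ.n2 (26304, 31872) (by decide +kernel)
           (CovZ.leaf K2_ok TD_l7926 _)
           (CovZ.leaf K2_ok TD_l7927 _))
          (CovZ.n1 (26112, 32064) (by decide +kernel)
           (CovZ.n2 (26208, 32160) (by decide +kernel)
            (CovZ.leaf K2_ok TD_l7928 _)
            (CovZ.leaf K2_ok TD_l7929 _))
           (CovZ.leaf K2_ok TD_l7930 _))))
        (CovZ.leaf K2_ok TD_l7931 _)))
      (CovZ.n1 (26496, 31104) (by decide +kernel)
       (CovZ.n2 (26112, 31104) (by decide +kernel)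
        (CovZ.n2 (26304, 31296) (by decide +kernel)
         (CovZ.leaf K2_ok TD_l7932 _)
         (CovZ.leaf K2_ok TD_l7933 _))
        (CovZ.leaf K2_ok TD_l7934 _))
       (CovZ.n1 (26496, 31488) (by decide +kernel)
        (CovZ.leaf K2_ok TD_l7935 _)
        (CovZ.n1 (26304, 31296) (by decide +kernel)
         (CovZ.leaf K2_ok TD_l7936 _)
         (CovZ.leaf K2_ok TD_l7937 _))))))
    (CovZ.n1 (26880, 32256) (by decide +kernel)
     (CovZ.n2 (27264, 31872) (by decide +kernel)
      (CovZ.n2 (26880, 31872) (by decide +kernel)
       (CovZ.n2 (27072, 32064) (by decide +kernel)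
        (CovZ.leaf K2_ok TD_l7938 _)
        (CovZ.leaf K2_ok TD_l7939 _))
       (CovZ.leaf K2_ok TD_l7940 _))
      (CovZ.n1 (27264, 32256) (by decide +kernel)
       (CovZ.n2 (27456, 32064) (by decide +kernel)
        (CovZ.leaf K2_ok TD_l7941 _)
        (CovZ.leaf K2_ok TD_l7942 _))
       (CovZ.n1 (27072, 32064) (by decide +kernel)
        (CovZ.leaf K2_ok TD_l7943 _)
        (CovZ.leaf K2_ok TD_l7944 _))))
     (CovZ.subM 550700453988355809009914160302156485283122114980081310504904928037237157446475772020203311075408 (by decide +kernel)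
      (CovZ.n1 (26496, 31872) (by decide +kernel)
       (CovZ.n2 (26496, 32256) (by decide +kernel)
        (CovZ.n2 (26688, 32064) (by decide +kernel)
         (CovZ.leaf K2_ok TD_l7945 _)
         (CovZ.n1 (26688, 32256) (by decide +kernel)
          (CovZ.leaf K2_ok TD_l7946 _)
          (CovZ.leaf K2_ok TD_l7947 _)))
        (CovZ.n1 (26304, 32064) (by decide +kernel)
         (CovZ.n2 (26304, 32256) (by decide +kernel)
          (CovZ.leaf K2_ok TD_l7948 _)
          (CovZ.leaf K2_ok TD_l7949 _))
         (CovZ.leaf K2_ok TD_l7950 _)))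
       (CovZ.n1 (26880, 31872) (by decide +kernel)
        (CovZ.n2 (26688, 31680) (by decide +kernel)
         (CovZ.leaf K2_ok TD_l7951 _)
         (CovZ.leaf K2_ok TD_l7952 _))
        (CovZ.n1 (26688, 32064) (by decide +kernel)
         (CovZ.leaf K2_ok TD_l7953 _)
         (CovZ.leaf K2_ok TD_l7954 _))))))))

theorem TD_s6_12 : SqZ TD_M TD_L [0, 7, 6, 1] 18432 12288 1536 6 12 :=
  SqZ.mk (a := 27648) (b := 29184) (c := 30720) (d := 32256) (by norm_num) (by norm_num) (by norm_num) (by norm_num)
    (CovZ.topM TD_LL 31106013165409115760698646082463497452804033209370054753881125167226274947989273114888914169893719094333458 (by decide +kernel) (CovZ.n2 (28416, 31488) (by decide +kernel)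
    (CovZ.subM 10321024457773116968717031851352377250495215710229168916201032372590725300687521609042161047528259949432850 (by decide +kernel)
     (CovZ.n2 (29184, 31488) (by decide +kernel)
      (CovZ.n2 (28800, 31104) (by decide +kernel)
       (CovZ.n2 (28800, 31488) (by decide +kernel)
        (CovZ.leaf K2_ok TD_l9865 _)
        (CovZ.n1 (28608, 31296) (by decide +kernel)
         (CovZ.leaf K2_ok TD_l9866 _)
         (CovZ.leaf K2_ok TD_l9867 _)))
       (CovZ.n1 (29184, 31104) (by decide +kernel)
        (CovZ.leaf K2_ok TD_l9868 _)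
        (CovZ.leaf K2_ok TD_l9869 _)))
      (CovZ.n1 (28800, 31872) (by decide +kernel)
       (CovZ.n2 (29184, 31872) (by decide +kernel)
        (CovZ.n2 (28992, 31680) (by decide +kernel)
         (CovZ.leaf K2_ok TD_l9870 _)
         (CovZ.leaf K2_ok TD_l9871 _))
        (CovZ.leaf K2_ok TD_l9872 _))
       (CovZ.n1 (28800, 31488) (by decide +kernel)
        (CovZ.leaf K2_ok TD_l9873 _)
        (CovZ.leaf K2_ok TD_l9874 _)))))
    (CovZ.n1 (28416, 30720) (by decide +kernel)
     (CovZ.n2 (28032, 31104) (by decide +kernel)
      (CovZ.n2 (28416, 31104) (by decide +kernel)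
       (CovZ.leaf K2_ok TD_l9875 _)
       (CovZ.leaf K2_ok TD_l9876 _))
      (CovZ.n1 (28032, 30720) (by decide +kernel)
       (CovZ.leaf K2_ok TD_l9877 _)
       (CovZ.leaf K2_ok TD_l9878 _)))
     (CovZ.subM 10321024457773116968717031851352377250495215710229168916201032372590725300687521609042161047528259949432850 (by decide +kernel)
      (CovZ.n1 (28800, 31104) (by decide +kernel)
       (CovZ.n2 (28800, 30720) (by decide +kernel)
        (CovZ.leaf K2_ok TD_l9879 _)
        (CovZ.leaf K2_ok TD_l9880 _))
       (CovZ.n1 (28416, 31104) (by decide +kernel)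
        (CovZ.n2 (28608, 31296) (by decide +kernel)
         (CovZ.leaf K2_ok TD_l9881 _)
         (CovZ.leaf K2_ok TD_l9882 _))
        (CovZ.leaf K2_ok TD_l9883 _)))))))
    (CovZ.topM TD_LL 31106013165409115760698646082463497452804033209370054753881125167226274947989273114888914169893719094333458 (by decide +kernel) (CovZ.n0 (28416, 31488) (by decide +kernel)
    (CovZ.n2 (27648, 31488) (by decide +kernel)
     (CovZ.n2 (28032, 31872) (by decide +kernel)
      (CovZ.n2 (28032, 31488) (by decide +kernel)
       (CovZ.leaf K2_ok TD_l9884 _)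
       (CovZ.leaf K2_ok TD_l9885 _))
      (CovZ.n1 (27648, 31872) (by decide +kernel)
       (CovZ.n2 (27840, 32064) (by decide +kernel)
        (CovZ.leaf K2_ok TD_l9886 _)
        (CovZ.leaf K2_ok TD_l9887 _))
       (CovZ.leaf K2_ok TD_l9888 _)))
     (CovZ.n1 (28032, 31104) (by decide +kernel)
      (CovZ.n2 (27648, 31104) (by decide +kernel)
       (CovZ.n2 (27840, 31296) (by decide +kernel)
        (CovZ.leaf K2_ok TD_l9889 _)
        (CovZ.leaf K2_ok TD_l9890 _))
       (CovZ.leaf K2_ok TD_l9891 _))
      (CovZ.n1 (28032, 31488) (by decide +kernel)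
       (CovZ.leaf K2_ok TD_l9892 _)
       (CovZ.n1 (27840, 31296) (by decide +kernel)
        (CovZ.leaf K2_ok TD_l9893 _)
        (CovZ.leaf K2_ok TD_l9894 _)))))
    (CovZ.n1 (28416, 32256) (by decide +kernel)
     (CovZ.subM 10321024457773116968717031851352377250495215710229168916201032372590725300687521609042161011499462930468882 (by decide +kernel)
      (CovZ.n2 (28800, 31872) (by decide +kernel)
       (CovZ.n2 (28416, 31872) (by decide +kernel)
        (CovZ.n2 (28608, 32064) (by decide +kernel)
         (CovZ.leaf K2_ok TD_l9895 _)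
         (CovZ.leaf K2_ok TD_l9896 _))
        (CovZ.leaf K2_ok TD_l9897 _))
       (CovZ.n1 (28800, 32256) (by decide +kernel)
        (CovZ.leaf K2_ok TD_l9898 _)
        (CovZ.leaf K2_ok TD_l9899 _))))
     (CovZ.n1 (28032, 31872) (by decide +kernel)
      (CovZ.n2 (28032, 32256) (by decide +kernel)
       (CovZ.n2 (28224, 32064) (by decide +kernel)
        (CovZ.leaf K2_ok TD_l9900 _)
        (CovZ.leaf K2_ok TD_l9901 _))
       (CovZ.n1 (27840, 32064) (by decide +kernel)
        (CovZ.leaf K2_ok TD_l9902 _)
        (CovZ.leaf K2_ok TD_l9903 _)))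
      (CovZ.n1 (28416, 31872) (by decide +kernel)
       (CovZ.leaf K2_ok TD_l9904 _)
       (CovZ.leaf K2_ok TD_l9905 _))))))

theorem TD_s7_12 : SqZ TD_M TD_L [0, 7, 6, 1] 18432 12288 1536 7 12 :=
  SqZ.mk (a := 29184) (b := 30720) (c := 30720) (d := 32256) (by norm_num) (by norm_num) (by norm_num) (by norm_num)
    (CovZ.topM TD_LL 683549230366222998115734792046139932116742554760447804633104961609517543107317610483659251748704274 (by decide +kernel) (CovZ.n2 (29952, 31488) (by decide +kernel)
    (CovZ.subM 546846060067284510008841860500162534049019270605021354991595125550827077310975809760085850060226578 (by decide +kernel)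
     (CovZ.n2 (30720, 31488) (by decide +kernel)
      (CovZ.n2 (30336, 31104) (by decide +kernel)
       (CovZ.n2 (30336, 31488) (by decide +kernel)
        (CovZ.leaf K2_ok TD_l11990 _)
        (CovZ.leaf K2_ok TD_l11991 _))
       (CovZ.n1 (30720, 31104) (by decide +kernel)
        (CovZ.leaf K2_ok TD_l11992 _)
        (CovZ.leaf K2_ok TD_l11993 _)))
      (CovZ.n1 (30336, 31872) (by decide +kernel)
       (CovZ.n2 (30720, 31872) (by decide +kernel)
        (CovZ.leaf K2_ok TD_l11994 _)
        (CovZ.leaf K2_ok TD_l11995 _))
       (CovZ.n1 (30336, 31488) (by decide +kernel)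
        (CovZ.leaf K2_ok TD_l11996 _)
        (CovZ.n1 (30528, 31680) (by decide +kernel)
         (CovZ.leaf K2_ok TD_l11997 _)
         (CovZ.leaf K2_ok TD_l11998 _))))))
    (CovZ.n1 (29952, 30720) (by decide +kernel)
     (CovZ.n2 (29568, 31104) (by decide +kernel)
      (CovZ.n2 (29952, 31104) (by decide +kernel)
       (CovZ.leaf K3_ok TD_l11999 _)
       (CovZ.leaf K2_ok TD_l12000 _))
      (CovZ.n1 (29568, 30720) (by decide +kernel)
       (CovZ.leaf K2_ok TD_l12001 _)
       (CovZ.leaf K2_ok TD_l12002 _)))
     (CovZ.n1 (30336, 31104) (by decide +kernel)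
      (CovZ.n2 (30336, 30720) (by decide +kernel)
       (CovZ.leaf K2_ok TD_l12003 _)
       (CovZ.leaf K2_ok TD_l12004 _))
      (CovZ.leaf K2_ok TD_l12005 _)))))
    (CovZ.topM TD_LL 683549230366222998115734792046139932116742554760447804633104961609517543107317610483659251748704274 (by decide +kernel) (CovZ.n0 (29952, 31488) (by decide +kernel)
    (CovZ.n2 (29184, 31488) (by decide +kernel)
     (CovZ.n2 (29568, 31872) (by decide +kernel)
      (CovZ.n2 (29568, 31488) (by decide +kernel)
       (CovZ.leaf K2_ok TD_l12006 _)
       (CovZ.leaf K2_ok TD_l12007 _))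
      (CovZ.n1 (29184, 31872) (by decide +kernel)
       (CovZ.n2 (29376, 32064) (by decide +kernel)
        (CovZ.leaf K2_ok TD_l12008 _)
        (CovZ.leaf K2_ok TD_l12009 _))
       (CovZ.leaf K2_ok TD_l12010 _)))
     (CovZ.n1 (29568, 31104) (by decide +kernel)
      (CovZ.leaf K2_ok TD_l12011 _)
      (CovZ.n1 (29568, 31488) (by decide +kernel)
       (CovZ.leaf K2_ok TD_l12012 _)
       (CovZ.leaf K2_ok TD_l12013 _))))
    (CovZ.n1 (29952, 32256) (by decide +kernel)
     (CovZ.subM 546846060067284510008841860500162534049019270605021354991595125550827077310975809760085850060226578 (by decide +kernel)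
      (CovZ.n2 (30336, 31872) (by decide +kernel)
       (CovZ.n2 (29952, 31872) (by decide +kernel)
        (CovZ.n2 (30144, 32064) (by decide +kernel)
         (CovZ.leaf K2_ok TD_l12014 _)
         (CovZ.leaf K2_ok TD_l12015 _))
        (CovZ.leaf K2_ok TD_l12016 _))
       (CovZ.n1 (30336, 32256) (by decide +kernel)
        (CovZ.leaf K2_ok TD_l12017 _)
        (CovZ.n1 (30144, 32064) (by decide +kernel)
         (CovZ.leaf K2_ok TD_l12018 _)
         (CovZ.leaf K2_ok TD_l12019 _)))))
     (CovZ.n1 (29568, 31872) (by decide +kernel)
      (CovZ.n2 (29568, 32256) (by decide +kernel)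
       (CovZ.leaf K2_ok TD_l12020 _)
       (CovZ.n1 (29376, 32064) (by decide +kernel)
        (CovZ.leaf K2_ok TD_l12021 _)
        (CovZ.leaf K2_ok TD_l12022 _)))
      (CovZ.n1 (29952, 31872) (by decide +kernel)
       (CovZ.leaf K2_ok TD_l12023 _)
       (CovZ.leaf K2_ok TD_l12024 _))))))

theorem TD_s8_12 : SqZ TD_M TD_L [0, 7, 6, 1] 18432 12288 1536 8 12 :=
  SqZ.mk (a := 30720) (b := 32256) (c := 30720) (d := 32256) (by norm_num) (by norm_num) (by norm_num) (by norm_num)
    (CovZ.topM TD_LL 546812685269840475113235535369719956949601309175451991360590440820223158681227207658179725307150352 (by decide +kernel) (CovZ.n2 (31488, 31488) (by decide +kernel)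
    (CovZ.subM 4074087494020109978369458732514010910254189926608885663586981536349576229033612211634307072 (by decide +kernel)
     (CovZ.n2 (32256, 31488) (by decide +kernel)
      (CovZ.n2 (31872, 31104) (by decide +kernel)
       (CovZ.n2 (31872, 31488) (by decide +kernel)
        (CovZ.badM (by decide +kernel))
        (CovZ.leaf K2_ok TD_l14120 _))
       (CovZ.badM (by decide +kernel)))
      (CovZ.n1 (31872, 31872) (by decide +kernel)
       (CovZ.badM (by decide +kernel))
       (CovZ.n1 (31872, 31488) (by decide +kernel)
        (CovZ.leaf K2_ok TD_l14127 _)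
        (CovZ.badM (by decide +kernel))))))
    (CovZ.n1 (31488, 30720) (by decide +kernel)
     (CovZ.n2 (31104, 31104) (by decide +kernel)
      (CovZ.n2 (31488, 31104) (by decide +kernel)
       (CovZ.leaf K2_ok TD_l14130 _)
       (CovZ.leaf K2_ok TD_l14131 _))
      (CovZ.n1 (31104, 30720) (by decide +kernel)
       (CovZ.leaf K2_ok TD_l14132 _)
       (CovZ.leaf K2_ok TD_l14133 _)))
     (CovZ.subM 4074087494020109978369458732514010910254189926608885663586981536349576229033612211634307072 (by decide +kernel)
      (CovZ.n1 (31872, 31104) (by decide +kernel)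
       (CovZ.n2 (31872, 30720) (by decide +kernel)
        (CovZ.leaf K2_ok TD_l14134 _)
        (CovZ.badM (by decide +kernel)))
       (CovZ.n1 (31488, 31104) (by decide +kernel)
        (CovZ.leaf K2_ok TD_l14136 _)
        (CovZ.leaf K3_ok TD_l14137 _)))))))
    (CovZ.topM TD_LL 546812685269840475113235535369719956949601309175451991360590440820223158681227207658179725307150352 (by decide +kernel) (CovZ.n0 (31488, 31488) (by decide +kernel)
    (CovZ.n2 (30720, 31488) (by decide +kernel)
     (CovZ.n2 (31104, 31872) (by decide +kernel)
      (CovZ.n2 (31104, 31488) (by decide +kernel)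
       (CovZ.leaf K3_ok TD_l14138 _)
       (CovZ.n1 (31296, 31680) (by decide +kernel)
        (CovZ.leaf K2_ok TD_l14139 _)
        (CovZ.leaf K2_ok TD_l14140 _)))
      (CovZ.n1 (30720, 31872) (by decide +kernel)
       (CovZ.n2 (30912, 32064) (by decide +kernel)
        (CovZ.n2 (30912, 31872) (by decide +kernel)
         (CovZ.leaf K2_ok TD_l14141 _)
         (CovZ.leaf K2_ok TD_l14142 _))
        (CovZ.leaf K2_ok TD_l14143 _))
       (CovZ.leaf K2_ok TD_l14144 _)))
     (CovZ.n1 (31104, 31104) (by decide +kernel)
      (CovZ.leaf K2_ok TD_l14145 _)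
      (CovZ.n1 (31104, 31488) (by decide +kernel)
       (CovZ.leaf K2_ok TD_l14146 _)
       (CovZ.leaf K2_ok TD_l14147 _))))
    (CovZ.n1 (31488, 32256) (by decide +kernel)
     (CovZ.subM 4074087494020109978369458732514010910254189926608885663586981536349576229033612211634307072 (by decide +kernel)
      (CovZ.n2 (31872, 31872) (by decide +kernel)
       (CovZ.n2 (31488, 31872) (by decide +kernel)
        (CovZ.n2 (31680, 32064) (by decide +kernel)
         (CovZ.leaf K2_ok TD_l14148 _)
         (CovZ.leaf K2_ok TD_l14149 _))
        (CovZ.leaf K2_ok TD_l14150 _))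
       (CovZ.n1 (31872, 32256) (by decide +kernel)
        (CovZ.badM (by decide +kernel))
        (CovZ.n1 (31680, 32064) (by decide +kernel)
         (CovZ.leaf K2_ok TD_l14152 _)
         (CovZ.badM (by decide +kernel))))))
     (CovZ.n1 (31104, 31872) (by decide +kernel)
      (CovZ.n2 (31104, 32256) (by decide +kernel)
       (CovZ.leaf K2_ok TD_l14154 _)
       (CovZ.n1 (30912, 32064) (by decide +kernel)
        (CovZ.leaf K2_ok TD_l14155 _)
        (CovZ.leaf K2_ok TD_l14156 _)))
      (CovZ.n1 (31488, 31872) (by decide +kernel)
       (CovZ.n2 (31296, 31680) (by decide +kernel)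
        (CovZ.leaf K2_ok TD_l14157 _)
        (CovZ.leaf K2_ok TD_l14158 _))
       (CovZ.n1 (31296, 32064) (by decide +kernel)
        (CovZ.leaf K2_ok TD_l14159 _)
        (CovZ.leaf K2_ok TD_l14160 _)))))))

theorem TD_s0_13 : SqZ TD_M TD_L [0, 7, 6, 1] 18432 12288 1536 0 13 :=
  SqZ.mk (a := 18432) (b := 19968) (c := 32256) (d := 33792) (by norm_num) (by norm_num) (by norm_num) (by norm_num)
    (CovZ.topM TD_LL 0 (by decide +kernel) (CovZ.badM (by decide +kernel)))
    (CovZ.topM TD_LL 0 (by decide +kernel) (CovZ.badM (by decide +kernel)))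

theorem TD_s1_13 : SqZ TD_M TD_L [0, 7, 6, 1] 18432 12288 1536 1 13 :=
  SqZ.mk (a := 19968) (b := 21504) (c := 32256) (d := 33792) (by norm_num) (by norm_num) (by norm_num) (by norm_num)
    (CovZ.topM TD_LL 0 (by decide +kernel) (CovZ.badM (by decide +kernel)))
    (CovZ.topM TD_LL 0 (by decide +kernel) (CovZ.badM (by decide +kernel)))

theorem TD_s2_13 : SqZ TD_M TD_L [0, 7, 6, 1] 18432 12288 1536 2 13 :=
  SqZ.mk (a := 21504) (b := 23040) (c := 32256) (d := 33792) (by norm_num) (by norm_num) (by norm_num) (by norm_num)
    (CovZ.topM TD_LL 0 (by decide +kernel) (CovZ.badM (by decide +kernel)))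
    (CovZ.topM TD_LL 0 (by decide +kernel) (CovZ.badM (by decide +kernel)))

theorem TD_s3_13 : SqZ TD_M TD_L [0, 7, 6, 1] 18432 12288 1536 3 13 :=
  SqZ.mk (a := 23040) (b := 24576) (c := 32256) (d := 33792) (by norm_num) (by norm_num) (by norm_num) (by norm_num)
    (CovZ.topM TD_LL 260740605213647830570577181981333142967527817719540694968260329656977021078685362283247304960 (by decide +kernel) (CovZ.n2 (23808, 33024) (by decide +kernel)
    (CovZ.n2 (24576, 33024) (by decide +kernel)
     (CovZ.n2 (24192, 32640) (by decide +kernel)
      (CovZ.badM (by decide +kernel))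
      (CovZ.n1 (24576, 32640) (by decide +kernel)
       (CovZ.n2 (24384, 32448) (by decide +kernel)
        (CovZ.n2 (24384, 32640) (by decide +kernel)
         (CovZ.n2 (24480, 32544) (by decide +kernel)
          (CovZ.badM (by decide +kernel))
          (CovZ.badM (by decide +kernel)))
         (CovZ.badM (by decide +kernel)))
        (CovZ.n1 (24576, 32448) (by decide +kernel)
         (CovZ.n2 (24480, 32352) (by decide +kernel)
          (CovZ.n2 (24480, 32448) (by decide +kernel)
           (CovZ.n2 (24528, 32400) (by decide +kernel)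
            (CovZ.badM (by decide +kernel))
            (CovZ.badM (by decide +kernel)))
           (CovZ.badM (by decide +kernel)))
          (CovZ.n1 (24576, 32352) (by decide +kernel)
           (CovZ.n2 (24528, 32304) (by decide +kernel)
            (CovZ.n2 (24528, 32352) (by decide +kernel)
             (CovZ.n2 (24552, 32328) (by decide +kernel)
              (CovZ.badM (by decide +kernel))
              (CovZ.badM (by decide +kernel)))
             (CovZ.badM (by decide +kernel)))
            (CovZ.n1 (24576, 32304) (by decide +kernel)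
             (CovZ.n2 (24552, 32280) (by decide +kernel)
              (CovZ.n2 (24552, 32304) (by decide +kernel)
               (CovZ.leaf K2_ok TD_l14931 _)
               (CovZ.badM (by decide +kernel)))
              (CovZ.leaf K2_ok TD_l14932 _))
             (CovZ.n1 (24552, 32328) (by decide +kernel)
              (CovZ.n2 (24576, 32328) (by decide +kernel)
               (CovZ.leaf K2_ok TD_l14933 _)
               (CovZ.badM (by decide +kernel)))
              (CovZ.n1 (24552, 32304) (by decide +kernel)
               (CovZ.badM (by decide +kernel))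
               (CovZ.n1 (24564, 32316) (by decide +kernel)
                (CovZ.leaf K2_ok TD_l14934 _)
                (CovZ.badM (by decide +kernel)))))))
           (CovZ.n1 (24528, 32400) (by decide +kernel)
            (CovZ.badM (by decide +kernel))
            (CovZ.n1 (24528, 32352) (by decide +kernel)
             (CovZ.badM (by decide +kernel))
             (CovZ.badM (by decide +kernel))))))
         (CovZ.n1 (24480, 32544) (by decide +kernel)
          (CovZ.badM (by decide +kernel))
          (CovZ.n1 (24480, 32448) (by decide +kernel)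
           (CovZ.badM (by decide +kernel))
           (CovZ.badM (by decide +kernel))))))
       (CovZ.badM (by decide +kernel))))
     (CovZ.badM (by decide +kernel)))
    (CovZ.n1 (23808, 32256) (by decide +kernel)
     (CovZ.n2 (23424, 32640) (by decide +kernel)
      (CovZ.badM (by decide +kernel))
      (CovZ.n1 (23424, 32256) (by decide +kernel)
       (CovZ.badM (by decide +kernel))
       (CovZ.badM (by decide +kernel))))
     (CovZ.n1 (24192, 32640) (by decide +kernel)
      (CovZ.n2 (24192, 32256) (by decide +kernel)
       (CovZ.badM (by decide +kernel))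
       (CovZ.n1 (24384, 32448) (by decide +kernel)
        (CovZ.n2 (24384, 32256) (by decide +kernel)
         (CovZ.badM (by decide +kernel))
         (CovZ.n1 (24480, 32352) (by decide +kernel)
          (CovZ.n2 (24480, 32256) (by decide +kernel)
           (CovZ.badM (by decide +kernel))
           (CovZ.n1 (24528, 32304) (by decide +kernel)
            (CovZ.n2 (24528, 32256) (by decide +kernel)
             (CovZ.badM (by decide +kernel))
             (CovZ.n1 (24552, 32280) (by decide +kernel)
              (CovZ.n2 (24552, 32256) (by decide +kernel)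
               (CovZ.badM (by decide +kernel))
               (CovZ.leaf K2_ok TD_l14935 _))
              (CovZ.badM (by decide +kernel))))
            (CovZ.badM (by decide +kernel))))
          (CovZ.badM (by decide +kernel))))
        (CovZ.badM (by decide +kernel))))
      (CovZ.badM (by decide +kernel))))))
    (CovZ.topM TD_LL 260740605213647830570577181981333142967527817719540694968260329656977021078685362283247304960 (by decide +kernel) (CovZ.n0 (23808, 33024) (by decide +kernel)
    (CovZ.n2 (23040, 33024) (by decide +kernel)
     (CovZ.badM (by decide +kernel))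
     (CovZ.n1 (23424, 32640) (by decide +kernel)
      (CovZ.badM (by decide +kernel))
      (CovZ.badM (by decide +kernel))))
    (CovZ.badM (by decide +kernel))))

theorem TD_s4_13 : SqZ TD_M TD_L [0, 7, 6, 1] 18432 12288 1536 4 13 :=
  SqZ.mk (a := 24576) (b := 26112) (c := 32256) (d := 33792) (by norm_num) (by norm_num) (by norm_num) (by norm_num)
    (CovZ.topM TD_LL 72791704655052432716368718436494124022966254265946631457451814431953682453693370723805626953371294629952 (by decide +kernel) (CovZ.n2 (25344, 33024) (by decide +kernel)
    TD_u176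
    TD_u177))
    (CovZ.topM TD_LL 534273795873251844318019684984012775605820521573202168650627788184346570167180868457892508860416 (by decide +kernel) (CovZ.n0 (25344, 33024) (by decide +kernel)
    (CovZ.subM 260740605213647830570577181987915161196812641888160571868672615771522304107339188582188318720 (by decide +kernel)
     (CovZ.n2 (24576, 33024) (by decide +kernel)
      (CovZ.n2 (24960, 33408) (by decide +kernel)
       (CovZ.n2 (24960, 33024) (by decide +kernel)
        (CovZ.badM (by decide +kernel))
        (CovZ.badM (by decide +kernel)))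
       (CovZ.badM (by decide +kernel)))
      (CovZ.n1 (24960, 32640) (by decide +kernel)
       (CovZ.subM 260740605213647830570577181981333142967527817719540694968260329656977021078685362283247304704 (by decide +kernel)
        (CovZ.n2 (24576, 32640) (by decide +kernel)
         (CovZ.badM (by decide +kernel))
         (CovZ.n1 (24768, 32448) (by decide +kernel)
          (CovZ.n2 (24576, 32448) (by decide +kernel)
           (CovZ.badM (by decide +kernel))
           (CovZ.n1 (24672, 32352) (by decide +kernel)
            (CovZ.n2 (24576, 32352) (by decide +kernel)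
             (CovZ.badM (by decide +kernel))
             (CovZ.n1 (24624, 32304) (by decide +kernel)
              (CovZ.n2 (24576, 32304) (by decide +kernel)
               (CovZ.n2 (24600, 32328) (by decide +kernel)
                (CovZ.n2 (24600, 32304) (by decide +kernel)
                 (CovZ.leaf K2_ok TD_l15850 _)
                 (CovZ.n1 (24612, 32316) (by decide +kernel)
                  (CovZ.leaf K2_ok TD_l15851 _)
                  (CovZ.leaf K2_ok TD_l15852 _)))
                (CovZ.n1 (24576, 32328) (by decide +kernel)
                 (CovZ.badM (by decide +kernel))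
                 (CovZ.leaf K2_ok TD_l15853 _)))
               (CovZ.n1 (24600, 32280) (by decide +kernel)
                (CovZ.leaf K2_ok TD_l15854 _)
                (CovZ.leaf K2_ok TD_l15855 _)))
              (CovZ.n1 (24624, 32352) (by decide +kernel)
               (CovZ.n2 (24648, 32328) (by decide +kernel)
                (CovZ.n2 (24624, 32328) (by decide +kernel)
                 (CovZ.badM (by decide +kernel))
                 (CovZ.leaf K2_ok TD_l15856 _))
                (CovZ.badM (by decide +kernel)))
               (CovZ.n1 (24600, 32328) (by decide +kernel)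
                (CovZ.badM (by decide +kernel))
                (CovZ.n1 (24624, 32328) (by decide +kernel)
                 (CovZ.leaf K2_ok TD_l15857 _)
                 (CovZ.badM (by decide +kernel)))))))
            (CovZ.badM (by decide +kernel))))
          (CovZ.badM (by decide +kernel)))))
       (CovZ.n1 (24960, 33024) (by decide +kernel)
        (CovZ.n2 (25152, 32832) (by decide +kernel)
         (CovZ.badM (by decide +kernel))
         (CovZ.badM (by decide +kernel)))
        (CovZ.badM (by decide +kernel))))))
    (CovZ.badM (by decide +kernel))))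

theorem TD_s5_13 : SqZ TD_M TD_L [0, 7, 6, 1] 18432 12288 1536 5 13 :=
  SqZ.mk (a := 26112) (b := 27648) (c := 32256) (d := 33792) (by norm_num) (by norm_num) (by norm_num) (by norm_num)
    (CovZ.topM TD_LL 18348006973293925957345604166664390827558496737625690439860026699103294184052397644236959389273042736910402 (by decide +kernel) (CovZ.n2 (26880, 33024) (by decide +kernel)
    (CovZ.n2 (27648, 33024) (by decide +kernel)
     (CovZ.n2 (27264, 32640) (by decide +kernel)
      (CovZ.n2 (27264, 33024) (by decide +kernel)
       TD_u178
       TD_u179)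
      (CovZ.n1 (27648, 32640) (by decide +kernel)
       (CovZ.n2 (27456, 32448) (by decide +kernel)
        (CovZ.n2 (27456, 32640) (by decide +kernel)
         (CovZ.n2 (27552, 32544) (by decide +kernel)
          (CovZ.leaf K2_ok TD_l8054 _)
          (CovZ.leaf K2_ok TD_l8055 _))
         (CovZ.n1 (27360, 32544) (by decide +kernel)
          (CovZ.leaf K2_ok TD_l8056 _)
          (CovZ.leaf K2_ok TD_l8057 _)))
        (CovZ.n1 (27648, 32448) (by decide +kernel)
         (CovZ.leaf K2_ok TD_l8058 _)
         (CovZ.n1 (27552, 32544) (by decide +kernel)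
          (CovZ.leaf K2_ok TD_l8059 _)
          (CovZ.leaf K2_ok TD_l8060 _))))
       (CovZ.n1 (27456, 32832) (by decide +kernel)
        (CovZ.n2 (27648, 32832) (by decide +kernel)
         (CovZ.n2 (27552, 32736) (by decide +kernel)
          (CovZ.n2 (27552, 32832) (by decide +kernel)
           (CovZ.leaf K2_ok TD_l8061 _)
           (CovZ.n1 (27504, 32784) (by decide +kernel)
            (CovZ.leaf K2_ok TD_l8062 _)
            (CovZ.leaf K2_ok TD_l8063 _)))
          (CovZ.n1 (27648, 32736) (by decide +kernel)
           (CovZ.leaf K2_ok TD_l8064 _)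
           (CovZ.n1 (27600, 32784) (by decide +kernel)
            (CovZ.leaf K2_ok TD_l8065 _)
            (CovZ.leaf K3_ok TD_l8066 _))))
         (CovZ.subM 18044839338771903416419717203008636540203996778947912561670242234662200918212760773383114293292044290 (by decide +kernel)
          (CovZ.n1 (27552, 32928) (by decide +kernel)
           (CovZ.n2 (27648, 32928) (by decide +kernel)
            (CovZ.n2 (27600, 32880) (by decide +kernel)
             (CovZ.n2 (27600, 32928) (by decide +kernel)
              (CovZ.leaf K2_ok TD_l8067 _)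
              (CovZ.leaf K2_ok TD_l8068 _))
             (CovZ.n1 (27648, 32880) (by decide +kernel)
              (CovZ.leaf K2_ok TD_l8069 _)
              (CovZ.leaf K2_ok TD_l8070 _)))
            (CovZ.n1 (27600, 32976) (by decide +kernel)
             (CovZ.subM 18044835166922223883392212518105355228899856468517698960296690907495063000325217115681331316988575746 (by decide +kernel)
              (CovZ.n2 (27648, 32976) (by decide +kernel)
               (CovZ.n2 (27624, 32952) (by decide +kernel)
                (CovZ.leaf K2_ok TD_l8071 _)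
                (CovZ.leaf K2_ok TD_l8072 _))
               (CovZ.n1 (27624, 33000) (by decide +kernel)
                (CovZ.leaf K2_ok TD_l8073 _)
                (CovZ.leaf K2_ok TD_l8074 _))))
             (CovZ.n1 (27600, 32928) (by decide +kernel)
              (CovZ.n2 (27576, 32952) (by decide +kernel)
               (CovZ.leaf K2_ok TD_l8075 _)
               (CovZ.leaf K2_ok TD_l8076 _))
              (CovZ.n1 (27624, 32952) (by decide +kernel)
               (CovZ.leaf K2_ok TD_l8077 _)
               (CovZ.leaf K2_ok TD_l8078 _)))))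
           (CovZ.n1 (27552, 32832) (by decide +kernel)
            (CovZ.n2 (27504, 32880) (by decide +kernel)
             (CovZ.n2 (27552, 32880) (by decide +kernel)
              (CovZ.leaf K2_ok TD_l8079 _)
              (CovZ.leaf K2_ok TD_l8080 _))
             (CovZ.n1 (27504, 32832) (by decide +kernel)
              (CovZ.leaf K2_ok TD_l8081 _)
              (CovZ.leaf K2_ok TD_l8082 _)))
            (CovZ.n1 (27600, 32880) (by decide +kernel)
             (CovZ.n2 (27600, 32832) (by decide +kernel)
              (CovZ.leaf K2_ok TD_l8083 _)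
              (CovZ.leaf K2_ok TD_l8084 _))
             (CovZ.leaf K2_ok TD_l8085 _))))))
        (CovZ.n1 (27456, 32640) (by decide +kernel)
         (CovZ.subM 17498026675846065539118878006022625736248846993674369630242871715778913469642547663728927185690431488 (by decide +kernel)
          (CovZ.n2 (27360, 32736) (by decide +kernel)
           (CovZ.n2 (27456, 32736) (by decide +kernel)
            (CovZ.leaf K2_ok TD_l8086 _)
            (CovZ.n1 (27408, 32784) (by decide +kernel)
             (CovZ.leaf K2_ok TD_l8087 _)
             (CovZ.leaf K2_ok TD_l8088 _)))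
           (CovZ.n1 (27360, 32640) (by decide +kernel)
            (CovZ.leaf K2_ok TD_l8089 _)
            (CovZ.n1 (27408, 32688) (by decide +kernel)
             (CovZ.leaf K2_ok TD_l8090 _)
             (CovZ.leaf K2_ok TD_l8091 _)))))
         (CovZ.n1 (27552, 32736) (by decide +kernel)
          (CovZ.n2 (27552, 32640) (by decide +kernel)
           (CovZ.leaf K2_ok TD_l8092 _)
           (CovZ.n1 (27600, 32688) (by decide +kernel)
            (CovZ.leaf K2_ok TD_l8093 _)
            (CovZ.leaf K3_ok TD_l8094 _)))
          (CovZ.n1 (27456, 32736) (by decide +kernel)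
           (CovZ.n2 (27504, 32784) (by decide +kernel)
            (CovZ.leaf K2_ok TD_l8095 _)
            (CovZ.leaf K2_ok TD_l8096 _))
           (CovZ.leaf K2_ok TD_l8097 _)))))))
     (CovZ.subM 4171913585600212637851362135393958350704804364572598261196669958342147127576474122947517218816 (by decide +kernel)
      (CovZ.n1 (27264, 33408) (by decide +kernel)
       (CovZ.subM 4171849928194649414925079494774845358625873983896765173395839431021576535551103545190859669504 (by decide +kernel)
        (CovZ.n2 (27648, 33408) (by decide +kernel)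
         (CovZ.n2 (27456, 33216) (by decide +kernel)
          (CovZ.badM (by decide +kernel))
          (CovZ.subM 4171849679533027504684902822965467730943933655655638470082471410291538826033518880524670599168 (by decide +kernel)
           (CovZ.n1 (27648, 33216) (by decide +kernel)
            (CovZ.n2 (27552, 33120) (by decide +kernel)
             (CovZ.badM (by decide +kernel))
             (CovZ.n1 (27648, 33120) (by decide +kernel)
              (CovZ.n2 (27600, 33072) (by decide +kernel)
               (CovZ.badM (by decide +kernel))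
               (CovZ.badM (by decide +kernel)))
              (CovZ.badM (by decide +kernel))))
            (CovZ.badM (by decide +kernel)))))
         (CovZ.badM (by decide +kernel))))
       (CovZ.n1 (27264, 33024) (by decide +kernel)
        (CovZ.n2 (27072, 33216) (by decide +kernel)
         (CovZ.badM (by decide +kernel))
         (CovZ.n1 (27072, 33024) (by decide +kernel)
          (CovZ.badM (by decide +kernel))
          (CovZ.badM (by decide +kernel))))
        (CovZ.n1 (27456, 33216) (by decide +kernel)
         (CovZ.n2 (27456, 33024) (by decide +kernel)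
          (CovZ.subM 3705346855594118253554271520278013051304639509300498049262642688253220148477952 (by decide +kernel)
           (CovZ.n2 (27360, 33120) (by decide +kernel)
            (CovZ.n2 (27456, 33120) (by decide +kernel)
             (CovZ.n2 (27408, 33072) (by decide +kernel)
              (CovZ.badM (by decide +kernel))
              (CovZ.n1 (27456, 33072) (by decide +kernel)
               (CovZ.n2 (27432, 33048) (by decide +kernel)
                (CovZ.badM (by decide +kernel))
                (CovZ.badM (by decide +kernel)))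
               (CovZ.badM (by decide +kernel))))
             (CovZ.badM (by decide +kernel)))
            (CovZ.n1 (27360, 33024) (by decide +kernel)
             (CovZ.badM (by decide +kernel))
             (CovZ.n1 (27408, 33072) (by decide +kernel)
              (CovZ.n2 (27408, 33024) (by decide +kernel)
               (CovZ.badM (by decide +kernel))
               (CovZ.n1 (27432, 33048) (by decide +kernel)
                (CovZ.n2 (27432, 33024) (by decide +kernel)
                 (CovZ.leaf K2_ok TD_l18496 _)
                 (CovZ.badM (by decide +kernel)))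
                (CovZ.badM (by decide +kernel))))
              (CovZ.badM (by decide +kernel))))))
          (CovZ.subM 4171913336908236526170158413151527579775807424407523626406494521617081068523549959251644383232 (by decide +kernel)
           (CovZ.n1 (27552, 33120) (by decide +kernel)
            (CovZ.n2 (27552, 33024) (by decide +kernel)
             (CovZ.n2 (27504, 33072) (by decide +kernel)
              (CovZ.badM (by decide +kernel))
              (CovZ.n1 (27504, 33024) (by decide +kernel)
               (CovZ.badM (by decide +kernel))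
               (CovZ.badM (by decide +kernel))))
             (CovZ.n1 (27600, 33072) (by decide +kernel)
              (CovZ.n2 (27600, 33024) (by decide +kernel)
               (CovZ.badM (by decide +kernel))
               (CovZ.badM (by decide +kernel)))
              (CovZ.badM (by decide +kernel))))
            (CovZ.n1 (27456, 33120) (by decide +kernel)
             (CovZ.badM (by decide +kernel))
             (CovZ.n1 (27504, 33072) (by decide +kernel)
              (CovZ.badM (by decide +kernel))
              (CovZ.badM (by decide +kernel)))))))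
         (CovZ.badM (by decide +kernel)))))))
    (CovZ.n1 (26880, 32256) (by decide +kernel)
     TD_u180
     TD_u181)))
    (CovZ.topM TD_LL 18045373353864458065606810678768948197499446694464920189061256188124471027523319941337244033327829058 (by decide +kernel) (CovZ.n0 (26880, 33024) (by decide +kernel)
    (CovZ.subM 550700453988112975398385944168291552544769175116751009649996826037164982577800296814532854288448 (by decide +kernel)
     (CovZ.n2 (26112, 33024) (by decide +kernel)
      (CovZ.subM 1942668892225729286810482579644508021366745236788228636774848893416555525418097049600 (by decide +kernel)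
       (CovZ.n2 (26496, 33408) (by decide +kernel)
        (CovZ.n2 (26496, 33024) (by decide +kernel)
         (CovZ.n2 (26304, 33216) (by decide +kernel)
          (CovZ.badM (by decide +kernel))
          (CovZ.n1 (26304, 33024) (by decide +kernel)
           (CovZ.badM (by decide +kernel))
           (CovZ.badM (by decide +kernel))))
         (CovZ.subM 215680396089483874741328502342358114426918966965893322561222023839744 (by decide +kernel)
          (CovZ.n1 (26688, 33216) (by decide +kernel)
           (CovZ.n2 (26688, 33024) (by decide +kernel)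
            (CovZ.badM (by decide +kernel))
            (CovZ.n1 (26784, 33120) (by decide +kernel)
             (CovZ.n2 (26784, 33024) (by decide +kernel)
              (CovZ.badM (by decide +kernel))
              (CovZ.badM (by decide +kernel)))
             (CovZ.badM (by decide +kernel))))
           (CovZ.badM (by decide +kernel)))))
        (CovZ.n1 (26112, 33408) (by decide +kernel)
         (CovZ.badM (by decide +kernel))
         (CovZ.n1 (26304, 33216) (by decide +kernel)
          (CovZ.badM (by decide +kernel))
          (CovZ.badM (by decide +kernel))))))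
      (CovZ.n1 (26496, 32640) (by decide +kernel)
       TD_u182
       TD_u183)))
    (CovZ.subM 63657405563222926282640619112992078930380675833087800830527320570592025082347380505837568 (by decide +kernel)
     (CovZ.n1 (26880, 33792) (by decide +kernel)
      (CovZ.n2 (27264, 33408) (by decide +kernel)
       (CovZ.n2 (26880, 33408) (by decide +kernel)
        (CovZ.badM (by decide +kernel))
        (CovZ.n1 (27072, 33216) (by decide +kernel)
         (CovZ.badM (by decide +kernel))
         (CovZ.badM (by decide +kernel))))
       (CovZ.badM (by decide +kernel)))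
      (CovZ.badM (by decide +kernel))))))

theorem TD_s6_13 : SqZ TD_M TD_L [0, 7, 6, 1] 18432 12288 1536 6 13 :=
  SqZ.mk (a := 27648) (b := 29184) (c := 32256) (d := 33792) (by norm_num) (by norm_num) (by norm_num) (by norm_num)
    (CovZ.topM TD_LL 31106013165409115760698403248851969236670168276631701814017794866371186029443399323182902748683879876923410 (by decide +kernel) (CovZ.n2 (28416, 33024) (by decide +kernel)
    TD_u186
    TD_u187))
    (CovZ.topM TD_LL 31106013165409115760698403248851969236670168276631701813971026813976597136060881408535981692054890035548162 (by decide +kernel) (CovZ.n0 (28416, 33024) (by decide +kernel)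
    TD_u190
    TD_u191))

theorem TD_s7_13 : SqZ TD_M TD_L [0, 7, 6, 1] 18432 12288 1536 7 13 :=
  SqZ.mk (a := 29184) (b := 30720) (c := 32256) (d := 33792) (by norm_num) (by norm_num) (by norm_num) (by norm_num)
    (CovZ.topM TD_LL 683549230366222755282123263829790387610666996606446166907435864082379617138828252949375335957794834 (by decide +kernel) (CovZ.n2 (29952, 33024) (by decide +kernel)
    (CovZ.subM 546846060067284510008841860500162534049019270509240383687477071903430388114081485783914654923751442 (by decide +kernel)
     (CovZ.n2 (30720, 33024) (by decide +kernel)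
      (CovZ.n2 (30336, 32640) (by decide +kernel)
       (CovZ.n2 (30336, 33024) (by decide +kernel)
        (CovZ.n2 (30528, 32832) (by decide +kernel)
         (CovZ.n2 (30336, 32832) (by decide +kernel)
          (CovZ.n2 (30432, 32928) (by decide +kernel)
           (CovZ.n2 (30432, 32832) (by decide +kernel)
            (CovZ.leaf K2_ok TD_l12025 _)
            (CovZ.n1 (30480, 32880) (by decide +kernel)
             (CovZ.leaf K2_ok TD_l12026 _)
             (CovZ.leaf K2_ok TD_l12027 _)))
           (CovZ.n1 (30336, 32928) (by decide +kernel)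
            (CovZ.n2 (30384, 32976) (by decide +kernel)
             (CovZ.leaf K2_ok TD_l12028 _)
             (CovZ.leaf K2_ok TD_l12029 _))
            (CovZ.leaf K2_ok TD_l12030 _)))
          (CovZ.n1 (30432, 32736) (by decide +kernel)
           (CovZ.leaf K2_ok TD_l12031 _)
           (CovZ.n1 (30432, 32832) (by decide +kernel)
            (CovZ.leaf K2_ok TD_l12032 _)
            (CovZ.leaf K2_ok TD_l12033 _))))
         (CovZ.n1 (30528, 33024) (by decide +kernel)
          (CovZ.n2 (30624, 32928) (by decide +kernel)
           (CovZ.n2 (30528, 32928) (by decide +kernel)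
            (CovZ.n2 (30576, 32976) (by decide +kernel)
             (CovZ.leaf K2_ok TD_l12034 _)
             (CovZ.leaf K2_ok TD_l12035 _))
            (CovZ.leaf K2_ok TD_l12036 _))
           (CovZ.n1 (30624, 33024) (by decide +kernel)
            (CovZ.leaf K2_ok TD_l12037 _)
            (CovZ.n1 (30576, 32976) (by decide +kernel)
             (CovZ.leaf K2_ok TD_l12038 _)
             (CovZ.leaf K2_ok TD_l12039 _))))
          (CovZ.n1 (30432, 32928) (by decide +kernel)
           (CovZ.n2 (30432, 33024) (by decide +kernel)
            (CovZ.leaf K2_ok TD_l12040 _)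
            (CovZ.n1 (30384, 32976) (by decide +kernel)
             (CovZ.leaf K2_ok TD_l12041 _)
             (CovZ.leaf K2_ok TD_l12042 _)))
           (CovZ.n1 (30528, 32928) (by decide +kernel)
            (CovZ.leaf K2_ok TD_l12043 _)
            (CovZ.n1 (30480, 32976) (by decide +kernel)
             (CovZ.leaf K2_ok TD_l12044 _)
             (CovZ.leaf K2_ok TD_l12045 _))))))
        (CovZ.n1 (30144, 32832) (by decide +kernel)
         (CovZ.n2 (30144, 33024) (by decide +kernel)
          (CovZ.n2 (30240, 32928) (by decide +kernel)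
           (CovZ.n2 (30144, 32928) (by decide +kernel)
            (CovZ.n2 (30192, 32976) (by decide +kernel)
             (CovZ.leaf K2_ok TD_l12046 _)
             (CovZ.leaf K2_ok TD_l12047 _))
            (CovZ.leaf K2_ok TD_l12048 _))
           (CovZ.n1 (30240, 33024) (by decide +kernel)
            (CovZ.leaf K2_ok TD_l12049 _)
            (CovZ.n1 (30192, 32976) (by decide +kernel)
             (CovZ.leaf K2_ok TD_l12050 _)
             (CovZ.leaf K2_ok TD_l12051 _))))
          (CovZ.n1 (30048, 32928) (by decide +kernel)
           (CovZ.n2 (30048, 33024) (by decide +kernel)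
            (CovZ.leaf K2_ok TD_l12052 _)
            (CovZ.n1 (30000, 32976) (by decide +kernel)
             (CovZ.leaf K2_ok TD_l12053 _)
             (CovZ.leaf K2_ok TD_l12054 _)))
           (CovZ.n1 (30144, 32928) (by decide +kernel)
            (CovZ.leaf K2_ok TD_l12055 _)
            (CovZ.n1 (30096, 32976) (by decide +kernel)
             (CovZ.leaf K2_ok TD_l12056 _)
             (CovZ.leaf K2_ok TD_l12057 _)))))
         (CovZ.n1 (30336, 32832) (by decide +kernel)
          (CovZ.n2 (30240, 32736) (by decide +kernel)
           (CovZ.n2 (30240, 32832) (by decide +kernel)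
            (CovZ.leaf K2_ok TD_l12058 _)
            (CovZ.leaf K2_ok TD_l12059 _))
           (CovZ.leaf K2_ok TD_l12060 _))
          (CovZ.n1 (30240, 32928) (by decide +kernel)
           (CovZ.n2 (30336, 32928) (by decide +kernel)
            (CovZ.n2 (30288, 32880) (by decide +kernel)
             (CovZ.leaf K2_ok TD_l12061 _)
             (CovZ.leaf K2_ok TD_l12062 _))
            (CovZ.n1 (30288, 32976) (by decide +kernel)
             (CovZ.leaf K2_ok TD_l12063 _)
             (CovZ.leaf K2_ok TD_l12064 _)))
           (CovZ.n1 (30240, 32832) (by decide +kernel)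
            (CovZ.leaf K2_ok TD_l12065 _)
            (CovZ.n1 (30288, 32880) (by decide +kernel)
             (CovZ.leaf K2_ok TD_l12066 _)
             (CovZ.leaf K2_ok TD_l12067 _)))))))
       (CovZ.n1 (30720, 32640) (by decide +kernel)
        (CovZ.n2 (30528, 32448) (by decide +kernel)
         (CovZ.n2 (30528, 32640) (by decide +kernel)
          (CovZ.leaf K2_ok TD_l12068 _)
          (CovZ.leaf K2_ok TD_l12069 _))
         (CovZ.n1 (30720, 32448) (by decide +kernel)
          (CovZ.leaf K2_ok TD_l12070 _)
          (CovZ.leaf K2_ok TD_l12071 _)))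
        (CovZ.n1 (30528, 32832) (by decide +kernel)
         (CovZ.n2 (30720, 32832) (by decide +kernel)
          (CovZ.n2 (30624, 32736) (by decide +kernel)
           (CovZ.n2 (30624, 32832) (by decide +kernel)
            (CovZ.leaf K2_ok TD_l12072 _)
            (CovZ.leaf K2_ok TD_l12073 _))
           (CovZ.leaf K2_ok TD_l12074 _))
          (CovZ.n1 (30624, 32928) (by decide +kernel)
           (CovZ.n2 (30720, 32928) (by decide +kernel)
            (CovZ.n2 (30672, 32880) (by decide +kernel)
             (CovZ.leaf K2_ok TD_l12075 _)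
             (CovZ.leaf K2_ok TD_l12076 _))
            (CovZ.n1 (30672, 32976) (by decide +kernel)
             (CovZ.leaf K2_ok TD_l12077 _)
             (CovZ.leaf K2_ok TD_l12078 _)))
           (CovZ.n1 (30624, 32832) (by decide +kernel)
            (CovZ.leaf K2_ok TD_l12079 _)
            (CovZ.n1 (30672, 32880) (by decide +kernel)
             (CovZ.leaf K2_ok TD_l12080 _)
             (CovZ.leaf K2_ok TD_l12081 _)))))
         (CovZ.n1 (30528, 32640) (by decide +kernel)
          (CovZ.n2 (30432, 32736) (by decide +kernel)
           (CovZ.leaf K2_ok TD_l12082 _)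
           (CovZ.leaf K2_ok TD_l12083 _))
          (CovZ.n1 (30624, 32736) (by decide +kernel)
           (CovZ.leaf K2_ok TD_l12084 _)
           (CovZ.leaf K2_ok TD_l12085 _))))))
      (CovZ.n1 (30336, 33408) (by decide +kernel)
       TD_u192
       TD_u193)))
    (CovZ.n1 (29952, 32256) (by decide +kernel)
     (CovZ.n2 (29568, 32640) (by decide +kernel)
      (CovZ.n2 (29952, 32640) (by decide +kernel)
       (CovZ.n2 (29760, 32448) (by decide +kernel)
        (CovZ.n2 (29760, 32640) (by decide +kernel)
         (CovZ.leaf K2_ok TD_l12202 _)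
         (CovZ.leaf K2_ok TD_l12203 _))
        (CovZ.n1 (29952, 32448) (by decide +kernel)
         (CovZ.leaf K2_ok TD_l12204 _)
         (CovZ.leaf K2_ok TD_l12205 _)))
       (CovZ.n1 (29760, 32832) (by decide +kernel)
        (CovZ.subM 546846060067268968657704054667595178353764682357987244432764654787260373614803574549633013255766034 (by decide +kernel)
         (CovZ.n2 (29952, 32832) (by decide +kernel)
          (CovZ.n2 (29856, 32736) (by decide +kernel)
           (CovZ.n2 (29856, 32832) (by decide +kernel)
            (CovZ.leaf K2_ok TD_l12206 _)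
            (CovZ.leaf K2_ok TD_l12207 _))
           (CovZ.leaf K2_ok TD_l12208 _))
          (CovZ.n1 (29856, 32928) (by decide +kernel)
           (CovZ.n2 (29952, 32928) (by decide +kernel)
            (CovZ.leaf K2_ok TD_l12209 _)
            (CovZ.n1 (29904, 32976) (by decide +kernel)
             (CovZ.leaf K2_ok TD_l12210 _)
             (CovZ.leaf K2_ok TD_l12211 _)))
           (CovZ.n1 (29856, 32832) (by decide +kernel)
            (CovZ.leaf K2_ok TD_l12212 _)
            (CovZ.n1 (29904, 32880) (by decide +kernel)
             (CovZ.leaf K2_ok TD_l12213 _)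
             (CovZ.leaf K2_ok TD_l12214 _))))))
        (CovZ.n1 (29760, 32640) (by decide +kernel)
         (CovZ.n2 (29664, 32736) (by decide +kernel)
          (CovZ.leaf K2_ok TD_l12215 _)
          (CovZ.leaf K2_ok TD_l12216 _))
         (CovZ.n1 (29856, 32736) (by decide +kernel)
          (CovZ.leaf K2_ok TD_l12217 _)
          (CovZ.leaf K2_ok TD_l12218 _)))))
      (CovZ.n1 (29568, 32256) (by decide +kernel)
       (CovZ.n2 (29376, 32448) (by decide +kernel)
        (CovZ.n2 (29568, 32448) (by decide +kernel)
         (CovZ.leaf K2_ok TD_l12219 _)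
         (CovZ.leaf K2_ok TD_l12220 _))
        (CovZ.n1 (29376, 32256) (by decide +kernel)
         (CovZ.leaf K2_ok TD_l12221 _)
         (CovZ.leaf K2_ok TD_l12222 _)))
       (CovZ.n1 (29760, 32448) (by decide +kernel)
        (CovZ.n2 (29760, 32256) (by decide +kernel)
         (CovZ.leaf K2_ok TD_l12223 _)
         (CovZ.leaf K2_ok TD_l12224 _))
        (CovZ.n1 (29568, 32448) (by decide +kernel)
         (CovZ.n2 (29664, 32544) (by decide +kernel)
          (CovZ.leaf K2_ok TD_l12225 _)
          (CovZ.leaf K2_ok TD_l12226 _))
         (CovZ.leaf K2_ok TD_l12227 _)))))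
     (CovZ.subM 546846060067284510008841860500162534049019270509240383687477071903430388114081485783914654923751442 (by decide +kernel)
      (CovZ.n1 (30336, 32640) (by decide +kernel)
       (CovZ.n2 (30336, 32256) (by decide +kernel)
        (CovZ.n2 (30144, 32448) (by decide +kernel)
         (CovZ.n2 (30336, 32448) (by decide +kernel)
          (CovZ.leaf K2_ok TD_l12228 _)
          (CovZ.leaf K2_ok TD_l12229 _))
         (CovZ.n1 (30144, 32256) (by decide +kernel)
          (CovZ.leaf K2_ok TD_l12230 _)
          (CovZ.leaf K2_ok TD_l12231 _)))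
        (CovZ.n1 (30528, 32448) (by decide +kernel)
         (CovZ.n2 (30528, 32256) (by decide +kernel)
          (CovZ.leaf K2_ok TD_l12232 _)
          (CovZ.leaf K2_ok TD_l12233 _))
         (CovZ.n1 (30336, 32448) (by decide +kernel)
          (CovZ.n2 (30432, 32544) (by decide +kernel)
           (CovZ.leaf K2_ok TD_l12234 _)
           (CovZ.leaf K2_ok TD_l12235 _))
          (CovZ.leaf K2_ok TD_l12236 _))))
       (CovZ.n1 (29952, 32640) (by decide +kernel)
        (CovZ.n2 (30144, 32832) (by decide +kernel)
         (CovZ.n2 (30144, 32640) (by decide +kernel)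
          (CovZ.n2 (30048, 32736) (by decide +kernel)
           (CovZ.leaf K2_ok TD_l12237 _)
           (CovZ.leaf K2_ok TD_l12238 _))
          (CovZ.n1 (30240, 32736) (by decide +kernel)
           (CovZ.leaf K2_ok TD_l12239 _)
           (CovZ.leaf K2_ok TD_l12240 _)))
         (CovZ.n1 (29952, 32832) (by decide +kernel)
          (CovZ.n2 (30048, 32928) (by decide +kernel)
           (CovZ.n2 (30048, 32832) (by decide +kernel)
            (CovZ.leaf K2_ok TD_l12241 _)
            (CovZ.n1 (30096, 32880) (by decide +kernel)
             (CovZ.leaf K2_ok TD_l12242 _)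
             (CovZ.leaf K2_ok TD_l12243 _)))
           (CovZ.n1 (29952, 32928) (by decide +kernel)
            (CovZ.n2 (30000, 32976) (by decide +kernel)
             (CovZ.leaf K2_ok TD_l12244 _)
             (CovZ.leaf K2_ok TD_l12245 _))
            (CovZ.leaf K2_ok TD_l12246 _)))
          (CovZ.n1 (30048, 32736) (by decide +kernel)
           (CovZ.leaf K2_ok TD_l12247 _)
           (CovZ.n1 (30048, 32832) (by decide +kernel)
            (CovZ.leaf K2_ok TD_l12248 _)
            (CovZ.leaf K2_ok TD_l12249 _)))))
        (CovZ.n1 (30144, 32448) (by decide +kernel)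
         (CovZ.n2 (29952, 32448) (by decide +kernel)
          (CovZ.n2 (30048, 32544) (by decide +kernel)
           (CovZ.leaf K2_ok TD_l12250 _)
           (CovZ.leaf K2_ok TD_l12251 _))
          (CovZ.leaf K2_ok TD_l12252 _))
         (CovZ.n1 (30144, 32640) (by decide +kernel)
          (CovZ.leaf K2_ok TD_l12253 _)
          (CovZ.leaf K2_ok TD_l12254 _)))))))))
    (CovZ.topM TD_LL 683549230366222755282123263829790387610666996606446166907435864082379617138828252949375335957794834 (by decide +kernel) (CovZ.n0 (29952, 33024) (by decide +kernel)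
    TD_u196
    TD_u197))

end Pool.Agent.TET
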