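import Pool.Agent.Helper38_TET.TD_M
import Pool.Agent.Helper38_TET.TD_L
import Pool.Agent.Helper38_TET.TD_94
import Pool.Agent.Helper38_TET.TD_95
import Pool.Agent.Helper38_TET.TD_96
import Pool.Agent.Helper38_TET.TD_97
import Pool.Agent.Helper38_TET.TD_U12

/-!
# MP_c7c9bf_co: certificates, family TD
-/

set_option autoImplicit false
set_option maxRecDepth 100000

namespace Pool.Agent.TET

theorem TD_s8_13 : SqZ TD_M TD_L [0, 7, 6, 1] 18432 12288 1536 8 13 :=
  SqZ.mk (a := 30720) (b := 32256) (c := 32256) (d := 33792) (by norm_num) (by norm_num) (by norm_num) (by norm_num)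
    (CovZ.topM TD_LL 546812685269840475113235535369719956949601309175451991360590440820223158681227207658179725307150352 (by decide +kernel) (CovZ.n2 (31488, 33024) (by decide +kernel)
    (CovZ.subM 4074087494020109978369458732514010910254189926586584918388450913208040510760963850128326656 (by decide +kernel)
     (CovZ.n2 (32256, 33024) (by decide +kernel)
      (CovZ.n2 (31872, 32640) (by decide +kernel)
       (CovZ.n2 (31872, 33024) (by decide +kernel)
        (CovZ.badM (by decide +kernel))
        (CovZ.n1 (31680, 32832) (by decide +kernel)
         (CovZ.n2 (31680, 33024) (by decide +kernel)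
          (CovZ.badM (by decide +kernel))
          (CovZ.n1 (31584, 32928) (by decide +kernel)
           (CovZ.n2 (31584, 33024) (by decide +kernel)
            (CovZ.badM (by decide +kernel))
            (CovZ.n1 (31536, 32976) (by decide +kernel)
             (CovZ.leaf K2_ok TD_l14191 _)
             (CovZ.badM (by decide +kernel))))
           (CovZ.badM (by decide +kernel))))
         (CovZ.badM (by decide +kernel))))
       (CovZ.badM (by decide +kernel)))
      (CovZ.n1 (31872, 33408) (by decide +kernel)
       (CovZ.badM (by decide +kernel))
       (CovZ.n1 (31872, 33024) (by decide +kernel)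
        (CovZ.n2 (31680, 33216) (by decide +kernel)
         (CovZ.badM (by decide +kernel))
         (CovZ.n1 (31680, 33024) (by decide +kernel)
          (CovZ.n2 (31584, 33120) (by decide +kernel)
           (CovZ.badM (by decide +kernel))
           (CovZ.n1 (31584, 33024) (by decide +kernel)
            (CovZ.n2 (31536, 33072) (by decide +kernel)
             (CovZ.badM (by decide +kernel))
             (CovZ.n1 (31536, 33024) (by decide +kernel)
              (CovZ.leaf K2_ok TD_l14245 _)
              (CovZ.badM (by decide +kernel))))
            (CovZ.badM (by decide +kernel))))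
          (CovZ.badM (by decide +kernel))))
        (CovZ.badM (by decide +kernel))))))
    (CovZ.n1 (31488, 32256) (by decide +kernel)
     (CovZ.n2 (31104, 32640) (by decide +kernel)
      (CovZ.subM 4074087494020109978369458732514010910254189926586587640647386280715748217757823304274018304 (by decide +kernel)
       (CovZ.n2 (31488, 32640) (by decide +kernel)
        (CovZ.n2 (31296, 32448) (by decide +kernel)
         (CovZ.n2 (31296, 32640) (by decide +kernel)
          (CovZ.leaf K2_ok TD_l14290 _)
          (CovZ.n1 (31200, 32544) (by decide +kernel)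
           (CovZ.leaf K2_ok TD_l14291 _)
           (CovZ.leaf K2_ok TD_l14292 _)))
         (CovZ.n1 (31488, 32448) (by decide +kernel)
          (CovZ.leaf K2_ok TD_l14293 _)
          (CovZ.n1 (31392, 32544) (by decide +kernel)
           (CovZ.leaf K2_ok TD_l14294 _)
           (CovZ.leaf K2_ok TD_l14295 _))))
        (CovZ.n1 (31296, 32832) (by decide +kernel)
         (CovZ.n2 (31488, 32832) (by decide +kernel)
          (CovZ.n2 (31392, 32736) (by decide +kernel)
           (CovZ.n2 (31392, 32832) (by decide +kernel)
            (CovZ.leaf K2_ok TD_l14296 _)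
            (CovZ.leaf K2_ok TD_l14297 _))
           (CovZ.n1 (31488, 32736) (by decide +kernel)
            (CovZ.leaf K2_ok TD_l14298 _)
            (CovZ.leaf K2_ok TD_l14299 _)))
          (CovZ.n1 (31392, 32928) (by decide +kernel)
           (CovZ.n2 (31488, 32928) (by decide +kernel)
            (CovZ.n2 (31440, 32880) (by decide +kernel)
             (CovZ.leaf K2_ok TD_l14300 _)
             (CovZ.leaf K2_ok TD_l14301 _))
            (CovZ.n1 (31440, 32976) (by decide +kernel)
             (CovZ.leaf K2_ok TD_l14302 _)
             (CovZ.leaf K2_ok TD_l14303 _)))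
           (CovZ.n1 (31392, 32832) (by decide +kernel)
            (CovZ.leaf K2_ok TD_l14304 _)
            (CovZ.n1 (31440, 32880) (by decide +kernel)
             (CovZ.leaf K2_ok TD_l14305 _)
             (CovZ.leaf K2_ok TD_l14306 _)))))
         (CovZ.n1 (31296, 32640) (by decide +kernel)
          (CovZ.n2 (31200, 32736) (by decide +kernel)
           (CovZ.leaf K2_ok TD_l14307 _)
           (CovZ.n1 (31200, 32640) (by decide +kernel)
            (CovZ.leaf K2_ok TD_l14308 _)
            (CovZ.leaf K2_ok TD_l14309 _)))
          (CovZ.n1 (31392, 32736) (by decide +kernel)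
           (CovZ.n2 (31392, 32640) (by decide +kernel)
            (CovZ.leaf K2_ok TD_l14310 _)
            (CovZ.leaf K2_ok TD_l14311 _))
           (CovZ.leaf K2_ok TD_l14312 _))))))
      (CovZ.n1 (31104, 32256) (by decide +kernel)
       (CovZ.n2 (30912, 32448) (by decide +kernel)
        (CovZ.n2 (31104, 32448) (by decide +kernel)
         (CovZ.n2 (31008, 32352) (by decide +kernel)
          (CovZ.leaf K2_ok TD_l14313 _)
          (CovZ.leaf K2_ok TD_l14314 _))
         (CovZ.n1 (31008, 32544) (by decide +kernel)
          (CovZ.leaf K2_ok TD_l14315 _)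
          (CovZ.leaf K2_ok TD_l14316 _)))
        (CovZ.n1 (30912, 32256) (by decide +kernel)
         (CovZ.leaf K2_ok TD_l14317 _)
         (CovZ.n1 (31008, 32352) (by decide +kernel)
          (CovZ.leaf K2_ok TD_l14318 _)
          (CovZ.leaf K2_ok TD_l14319 _))))
       (CovZ.n1 (31296, 32448) (by decide +kernel)
        (CovZ.n2 (31296, 32256) (by decide +kernel)
         (CovZ.leaf K2_ok TD_l14320 _)
         (CovZ.leaf K2_ok TD_l14321 _))
        (CovZ.n1 (31104, 32448) (by decide +kernel)
         (CovZ.n2 (31200, 32544) (by decide +kernel)
          (CovZ.leaf K2_ok TD_l14322 _)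
          (CovZ.leaf K2_ok TD_l14323 _))
         (CovZ.leaf K2_ok TD_l14324 _)))))
     (CovZ.subM 4074087494020109978369458732514010910254189926586584918388450913208040510760963850128326656 (by decide +kernel)
      (CovZ.n1 (31872, 32640) (by decide +kernel)
       (CovZ.n2 (31872, 32256) (by decide +kernel)
        (CovZ.n2 (31680, 32448) (by decide +kernel)
         (CovZ.badM (by decide +kernel))
         (CovZ.n1 (31680, 32256) (by decide +kernel)
          (CovZ.leaf K2_ok TD_l14327 _)
          (CovZ.badM (by decide +kernel))))
        (CovZ.badM (by decide +kernel)))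
       (CovZ.n1 (31488, 32640) (by decide +kernel)
        (CovZ.n2 (31680, 32832) (by decide +kernel)
         (CovZ.n2 (31680, 32640) (by decide +kernel)
          (CovZ.n2 (31584, 32736) (by decide +kernel)
           (CovZ.badM (by decide +kernel))
           (CovZ.n1 (31584, 32640) (by decide +kernel)
            (CovZ.leaf K2_ok TD_l14336 _)
            (CovZ.badM (by decide +kernel))))
          (CovZ.badM (by decide +kernel)))
         (CovZ.n1 (31488, 32832) (by decide +kernel)
          (CovZ.n2 (31584, 32928) (by decide +kernel)
           (CovZ.n2 (31584, 32832) (by decide +kernel)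
            (CovZ.n2 (31536, 32880) (by decide +kernel)
             (CovZ.badM (by decide +kernel))
             (CovZ.leaf K2_ok TD_l14342 _))
            (CovZ.badM (by decide +kernel)))
           (CovZ.n1 (31488, 32928) (by decide +kernel)
            (CovZ.n2 (31536, 32976) (by decide +kernel)
             (CovZ.n2 (31536, 32928) (by decide +kernel)
              (CovZ.leaf K2_ok TD_l14345 _)
              (CovZ.badM (by decide +kernel)))
             (CovZ.leaf K2_ok TD_l14347 _))
            (CovZ.leaf K2_ok TD_l14348 _)))
          (CovZ.n1 (31584, 32736) (by decide +kernel)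
           (CovZ.leaf K2_ok TD_l14349 _)
           (CovZ.n1 (31584, 32832) (by decide +kernel)
            (CovZ.badM (by decide +kernel))
            (CovZ.leaf K2_ok TD_l14351 _)))))
        (CovZ.n1 (31680, 32448) (by decide +kernel)
         (CovZ.n2 (31488, 32448) (by decide +kernel)
          (CovZ.n2 (31584, 32544) (by decide +kernel)
           (CovZ.leaf K2_ok TD_l14352 _)
           (CovZ.leaf K2_ok TD_l14353 _))
          (CovZ.leaf K2_ok TD_l14354 _))
         (CovZ.n1 (31680, 32640) (by decide +kernel)
          (CovZ.badM (by decide +kernel))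
          (CovZ.leaf K2_ok TD_l14356 _)))))))))
    (CovZ.topM TD_LL 546812685269840475113235535369719956949601309175451991360590440820223158681227207658179725307150352 (by decide +kernel) (CovZ.n0 (31488, 33024) (by decide +kernel)
    (CovZ.n2 (30720, 33024) (by decide +kernel)
     (CovZ.n2 (31104, 33408) (by decide +kernel)
      TD_u198
      TD_u199)
     (CovZ.n1 (31104, 32640) (by decide +kernel)
      (CovZ.n2 (30720, 32640) (by decide +kernel)
       (CovZ.n2 (30912, 32832) (by decide +kernel)
        (CovZ.n2 (30912, 32640) (by decide +kernel)
         (CovZ.n2 (30816, 32736) (by decide +kernel)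
          (CovZ.n2 (30912, 32736) (by decide +kernel)
           (CovZ.leaf K2_ok TD_l14489 _)
           (CovZ.leaf K2_ok TD_l14490 _))
          (CovZ.n1 (30816, 32640) (by decide +kernel)
           (CovZ.leaf K2_ok TD_l14491 _)
           (CovZ.leaf K2_ok TD_l14492 _)))
         (CovZ.n1 (31008, 32736) (by decide +kernel)
          (CovZ.n2 (31008, 32640) (by decide +kernel)
           (CovZ.leaf K2_ok TD_l14493 _)
           (CovZ.leaf K2_ok TD_l14494 _))
          (CovZ.leaf K2_ok TD_l14495 _)))
        (CovZ.n1 (30720, 32832) (by decide +kernel)
         (CovZ.n2 (30816, 32928) (by decide +kernel)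
          (CovZ.n2 (30816, 32832) (by decide +kernel)
           (CovZ.leaf K2_ok TD_l14496 _)
           (CovZ.n1 (30864, 32880) (by decide +kernel)
            (CovZ.leaf K2_ok TD_l14497 _)
            (CovZ.leaf K2_ok TD_l14498 _)))
          (CovZ.n1 (30720, 32928) (by decide +kernel)
           (CovZ.n2 (30768, 32976) (by decide +kernel)
            (CovZ.leaf K2_ok TD_l14499 _)
            (CovZ.leaf K2_ok TD_l14500 _))
           (CovZ.leaf K2_ok TD_l14501 _)))
         (CovZ.n1 (30816, 32736) (by decide +kernel)
          (CovZ.leaf K2_ok TD_l14502 _)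
          (CovZ.n1 (30816, 32832) (by decide +kernel)
           (CovZ.leaf K2_ok TD_l14503 _)
           (CovZ.leaf K2_ok TD_l14504 _)))))
       (CovZ.n1 (30912, 32448) (by decide +kernel)
        (CovZ.n2 (30720, 32448) (by decide +kernel)
         (CovZ.n2 (30816, 32544) (by decide +kernel)
          (CovZ.leaf K2_ok TD_l14505 _)
          (CovZ.leaf K2_ok TD_l14506 _))
         (CovZ.leaf K2_ok TD_l14507 _))
        (CovZ.n1 (30912, 32640) (by decide +kernel)
         (CovZ.leaf K2_ok TD_l14508 _)
         (CovZ.n1 (30816, 32544) (by decide +kernel)
          (CovZ.leaf K2_ok TD_l14509 _)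
          (CovZ.leaf K2_ok TD_l14510 _)))))
      (CovZ.n1 (31104, 33024) (by decide +kernel)
       (CovZ.subM 4074087494020109978369458732514010910254189926586587640647386280715748217757823304274018304 (by decide +kernel)
        (CovZ.n2 (31296, 32832) (by decide +kernel)
         (CovZ.n2 (31104, 32832) (by decide +kernel)
          (CovZ.n2 (31200, 32928) (by decide +kernel)
           (CovZ.n2 (31200, 32832) (by decide +kernel)
            (CovZ.leaf K2_ok TD_l14511 _)
            (CovZ.n1 (31248, 32880) (by decide +kernel)
             (CovZ.leaf K2_ok TD_l14512 _)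
             (CovZ.leaf K2_ok TD_l14513 _)))
           (CovZ.n1 (31104, 32928) (by decide +kernel)
            (CovZ.n2 (31152, 32976) (by decide +kernel)
             (CovZ.leaf K2_ok TD_l14514 _)
             (CovZ.leaf K2_ok TD_l14515 _))
            (CovZ.leaf K2_ok TD_l14516 _)))
          (CovZ.n1 (31200, 32736) (by decide +kernel)
           (CovZ.leaf K2_ok TD_l14517 _)
           (CovZ.n1 (31200, 32832) (by decide +kernel)
            (CovZ.leaf K2_ok TD_l14518 _)
            (CovZ.leaf K2_ok TD_l14519 _))))
         (CovZ.n1 (31296, 33024) (by decide +kernel)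
          (CovZ.n2 (31392, 32928) (by decide +kernel)
           (CovZ.n2 (31296, 32928) (by decide +kernel)
            (CovZ.n2 (31344, 32976) (by decide +kernel)
             (CovZ.leaf K2_ok TD_l14520 _)
             (CovZ.leaf K2_ok TD_l14521 _))
            (CovZ.leaf K2_ok TD_l14522 _))
           (CovZ.n1 (31392, 33024) (by decide +kernel)
            (CovZ.leaf K2_ok TD_l14523 _)
            (CovZ.n1 (31344, 32976) (by decide +kernel)
             (CovZ.leaf K2_ok TD_l14524 _)
             (CovZ.leaf K2_ok TD_l14525 _))))
          (CovZ.n1 (31200, 32928) (by decide +kernel)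
           (CovZ.n2 (31200, 33024) (by decide +kernel)
            (CovZ.leaf K2_ok TD_l14526 _)
            (CovZ.n1 (31152, 32976) (by decide +kernel)
             (CovZ.leaf K2_ok TD_l14527 _)
             (CovZ.leaf K2_ok TD_l14528 _)))
           (CovZ.n1 (31296, 32928) (by decide +kernel)
            (CovZ.n2 (31248, 32880) (by decide +kernel)
             (CovZ.leaf K2_ok TD_l14529 _)
             (CovZ.leaf K2_ok TD_l14530 _))
            (CovZ.n1 (31248, 32976) (by decide +kernel)
             (CovZ.leaf K2_ok TD_l14531 _)
             (CovZ.leaf K2_ok TD_l14532 _)))))))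
       (CovZ.n1 (30912, 32832) (by decide +kernel)
        (CovZ.n2 (30912, 33024) (by decide +kernel)
         (CovZ.subM 4074087494020109978369458732514010910254189926586587640647386280715748217757823304274018304 (by decide +kernel)
          (CovZ.n2 (31008, 32928) (by decide +kernel)
           (CovZ.n2 (30912, 32928) (by decide +kernel)
            (CovZ.n2 (30960, 32976) (by decide +kernel)
             (CovZ.leaf K2_ok TD_l14533 _)
             (CovZ.leaf K2_ok TD_l14534 _))
            (CovZ.leaf K2_ok TD_l14535 _))
           (CovZ.n1 (31008, 33024) (by decide +kernel)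
            (CovZ.leaf K2_ok TD_l14536 _)
            (CovZ.n1 (30960, 32976) (by decide +kernel)
             (CovZ.leaf K2_ok TD_l14537 _)
             (CovZ.leaf K2_ok TD_l14538 _)))))
         (CovZ.n1 (30816, 32928) (by decide +kernel)
          (CovZ.n2 (30816, 33024) (by decide +kernel)
           (CovZ.leaf K2_ok TD_l14539 _)
           (CovZ.n1 (30768, 32976) (by decide +kernel)
            (CovZ.leaf K2_ok TD_l14540 _)
            (CovZ.leaf K2_ok TD_l14541 _)))
          (CovZ.subM 4074087494020109978369458732514010910254189926586587640647386280715748217757823304274018304 (by decide +kernel)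
           (CovZ.n1 (30912, 32928) (by decide +kernel)
            (CovZ.n2 (30864, 32880) (by decide +kernel)
             (CovZ.leaf K2_ok TD_l14542 _)
             (CovZ.leaf K2_ok TD_l14543 _))
            (CovZ.n1 (30864, 32976) (by decide +kernel)
             (CovZ.leaf K2_ok TD_l14544 _)
             (CovZ.leaf K2_ok TD_l14545 _))))))
        (CovZ.subM 4074087494020109978369458732514010910254189926586587640647386280715748217757823304274018304 (by decide +kernel)
         (CovZ.n1 (31104, 32832) (by decide +kernel)
          (CovZ.n2 (31008, 32736) (by decide +kernel)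
           (CovZ.n2 (31008, 32832) (by decide +kernel)
            (CovZ.leaf K2_ok TD_l14546 _)
            (CovZ.leaf K2_ok TD_l14547 _))
           (CovZ.leaf K2_ok TD_l14548 _))
          (CovZ.n1 (31008, 32928) (by decide +kernel)
           (CovZ.n2 (31104, 32928) (by decide +kernel)
            (CovZ.n2 (31056, 32880) (by decide +kernel)
             (CovZ.leaf K2_ok TD_l14549 _)
             (CovZ.leaf K2_ok TD_l14550 _))
            (CovZ.n1 (31056, 32976) (by decide +kernel)
             (CovZ.leaf K2_ok TD_l14551 _)
             (CovZ.leaf K2_ok TD_l14552 _)))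
           (CovZ.n1 (31008, 32832) (by decide +kernel)
            (CovZ.leaf K2_ok TD_l14553 _)
            (CovZ.n1 (31056, 32880) (by decide +kernel)
             (CovZ.leaf K2_ok TD_l14554 _)
             (CovZ.leaf K2_ok TD_l14555 _))))))))))
    (CovZ.subM 546812681195768522444263362611972697033546945874603016413549657612040782213768813096797722126581776 (by decide +kernel)
     (CovZ.n1 (31488, 33792) (by decide +kernel)
      (CovZ.subM 15541351137805832567355695254588151253139254712417116170014499277911234290437761007616 (by decide +kernel)
       (CovZ.n2 (31872, 33408) (by decide +kernel)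
        (CovZ.n2 (31488, 33408) (by decide +kernel)
         (CovZ.badM (by decide +kernel))
         (CovZ.n1 (31680, 33216) (by decide +kernel)
          (CovZ.n2 (31488, 33216) (by decide +kernel)
           (CovZ.badM (by decide +kernel))
           (CovZ.n1 (31584, 33120) (by decide +kernel)
            (CovZ.n2 (31488, 33120) (by decide +kernel)
             (CovZ.n2 (31536, 33168) (by decide +kernel)
              (CovZ.n2 (31536, 33120) (by decide +kernel)
               (CovZ.leaf K2_ok TD_l14556 _)
               (CovZ.badM (by decide +kernel)))
              (CovZ.n1 (31488, 33168) (by decide +kernel)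
               (CovZ.n2 (31512, 33192) (by decide +kernel)
                (CovZ.leaf K2_ok TD_l14559 _)
                (CovZ.leaf K2_ok TD_l14560 _))
               (CovZ.n1 (31512, 33144) (by decide +kernel)
                (CovZ.leaf K2_ok TD_l14561 _)
                (CovZ.leaf K2_ok TD_l14562 _))))
             (CovZ.leaf K2_ok TD_l14563 _))
            (CovZ.n1 (31584, 33216) (by decide +kernel)
             (CovZ.badM (by decide +kernel))
             (CovZ.n1 (31536, 33168) (by decide +kernel)
              (CovZ.n2 (31536, 33216) (by decide +kernel)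
               (CovZ.badM (by decide +kernel))
               (CovZ.n1 (31512, 33192) (by decide +kernel)
                (CovZ.badM (by decide +kernel))
                (CovZ.badM (by decide +kernel))))
              (CovZ.badM (by decide +kernel))))))
          (CovZ.badM (by decide +kernel))))
        (CovZ.badM (by decide +kernel))))
      (CovZ.n1 (31104, 33408) (by decide +kernel)
       (CovZ.badM (by decide +kernel))
       (CovZ.subM 15541351137805832567355695254588151253139254712417116170014499277911234290437761007616 (by decide +kernel)
        (CovZ.n1 (31488, 33408) (by decide +kernel)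
         (CovZ.n2 (31296, 33216) (by decide +kernel)
          (CovZ.badM (by decide +kernel))
          (CovZ.n1 (31488, 33216) (by decide +kernel)
           (CovZ.n2 (31392, 33120) (by decide +kernel)
            (CovZ.n2 (31392, 33216) (by decide +kernel)
             (CovZ.n2 (31440, 33168) (by decide +kernel)
              (CovZ.n2 (31392, 33168) (by decide +kernel)
               (CovZ.n2 (31416, 33192) (by decide +kernel)
                (CovZ.leaf K2_ok TD_l14577 _)
                (CovZ.leaf K2_ok TD_l14578 _))
               (CovZ.leaf K2_ok TD_l14579 _))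
              (CovZ.n1 (31440, 33216) (by decide +kernel)
               (CovZ.leaf K2_ok TD_l14580 _)
               (CovZ.n1 (31416, 33192) (by decide +kernel)
                (CovZ.badM (by decide +kernel))
                (CovZ.leaf K2_ok TD_l14582 _))))
             (CovZ.n1 (31344, 33168) (by decide +kernel)
              (CovZ.n2 (31344, 33216) (by decide +kernel)
               (CovZ.leaf K2_ok TD_l14583 _)
               (CovZ.n1 (31320, 33192) (by decide +kernel)
                (CovZ.badM (by decide +kernel))
                (CovZ.leaf K2_ok TD_l14584 _)))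
              (CovZ.n1 (31392, 33168) (by decide +kernel)
               (CovZ.n2 (31368, 33144) (by decide +kernel)
                (CovZ.leaf K2_ok TD_l14585 _)
                (CovZ.leaf K2_ok TD_l14586 _))
               (CovZ.n1 (31368, 33192) (by decide +kernel)
                (CovZ.leaf K2_ok TD_l14587 _)
                (CovZ.leaf K2_ok TD_l14588 _)))))
            (CovZ.n1 (31488, 33120) (by decide +kernel)
             (CovZ.n2 (31440, 33072) (by decide +kernel)
              (CovZ.n2 (31440, 33120) (by decide +kernel)
               (CovZ.leaf K2_ok TD_l14589 _)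
               (CovZ.leaf K2_ok TD_l14590 _))
              (CovZ.leaf K2_ok TD_l14591 _))
             (CovZ.n1 (31440, 33168) (by decide +kernel)
              (CovZ.n2 (31488, 33168) (by decide +kernel)
               (CovZ.n2 (31464, 33144) (by decide +kernel)
                (CovZ.leaf K2_ok TD_l14592 _)
                (CovZ.leaf K2_ok TD_l14593 _))
               (CovZ.n1 (31464, 33192) (by decide +kernel)
                (CovZ.leaf K2_ok TD_l14594 _)
                (CovZ.leaf K2_ok TD_l14595 _)))
              (CovZ.n1 (31440, 33120) (by decide +kernel)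
               (CovZ.n2 (31416, 33144) (by decide +kernel)
                (CovZ.leaf K2_ok TD_l14596 _)
                (CovZ.leaf K2_ok TD_l14597 _))
               (CovZ.n1 (31464, 33144) (by decide +kernel)
                (CovZ.leaf K2_ok TD_l14598 _)
                (CovZ.leaf K2_ok TD_l14599 _))))))
           (CovZ.badM (by decide +kernel))))
         (CovZ.badM (by decide +kernel)))))))))

theorem TD_s0_14 : SqZ TD_M TD_L [0, 7, 6, 1] 18432 12288 1536 0 14 :=
  SqZ.mk (a := 18432) (b := 19968) (c := 33792) (d := 35328) (by norm_num) (by norm_num) (by norm_num) (by norm_num)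
    (CovZ.topM TD_LL 0 (by decide +kernel) (CovZ.badM (by decide +kernel)))
    (CovZ.topM TD_LL 0 (by decide +kernel) (CovZ.badM (by decide +kernel)))

theorem TD_s1_14 : SqZ TD_M TD_L [0, 7, 6, 1] 18432 12288 1536 1 14 :=
  SqZ.mk (a := 19968) (b := 21504) (c := 33792) (d := 35328) (by norm_num) (by norm_num) (by norm_num) (by norm_num)
    (CovZ.topM TD_LL 0 (by decide +kernel) (CovZ.badM (by decide +kernel)))
    (CovZ.topM TD_LL 0 (by decide +kernel) (CovZ.badM (by decide +kernel)))

theorem TD_s2_14 : SqZ TD_M TD_L [0, 7, 6, 1] 18432 12288 1536 2 14 :=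
  SqZ.mk (a := 21504) (b := 23040) (c := 33792) (d := 35328) (by norm_num) (by norm_num) (by norm_num) (by norm_num)
    (CovZ.topM TD_LL 0 (by decide +kernel) (CovZ.badM (by decide +kernel)))
    (CovZ.topM TD_LL 0 (by decide +kernel) (CovZ.badM (by decide +kernel)))

theorem TD_s3_14 : SqZ TD_M TD_L [0, 7, 6, 1] 18432 12288 1536 3 14 :=
  SqZ.mk (a := 23040) (b := 24576) (c := 33792) (d := 35328) (by norm_num) (by norm_num) (by norm_num) (by norm_num)
    (CovZ.topM TD_LL 0 (by decide +kernel) (CovZ.badM (by decide +kernel)))
    (CovZ.topM TD_LL 0 (by decide +kernel) (CovZ.badM (by decide +kernel)))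

theorem TD_s4_14 : SqZ TD_M TD_L [0, 7, 6, 1] 18432 12288 1536 4 14 :=
  SqZ.mk (a := 24576) (b := 26112) (c := 33792) (d := 35328) (by norm_num) (by norm_num) (by norm_num) (by norm_num)
    (CovZ.topM TD_LL 0 (by decide +kernel) (CovZ.badM (by decide +kernel)))
    (CovZ.topM TD_LL 0 (by decide +kernel) (CovZ.badM (by decide +kernel)))

theorem TD_s5_14 : SqZ TD_M TD_L [0, 7, 6, 1] 18432 12288 1536 5 14 :=
  SqZ.mk (a := 26112) (b := 27648) (c := 33792) (d := 35328) (by norm_num) (by norm_num) (by norm_num) (by norm_num)
    (CovZ.topM TD_LL 948568795032094272909896647742039034474369632275639104444444579370546590027612160 (by decide +kernel) (CovZ.n2 (26880, 34560) (by decide +kernel)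
    (CovZ.badM (by decide +kernel))
    (CovZ.n1 (26880, 33792) (by decide +kernel)
     (CovZ.badM (by decide +kernel))
     (CovZ.badM (by decide +kernel)))))
    (CovZ.topM TD_LL 948568795032094272909896647742039034474369632275639104444444579370546590027612160 (by decide +kernel) (CovZ.n0 (26880, 34560) (by decide +kernel)
    (CovZ.badM (by decide +kernel))
    (CovZ.badM (by decide +kernel))))

theorem TD_s6_14 : SqZ TD_M TD_L [0, 7, 6, 1] 18432 12288 1536 6 14 :=
  SqZ.mk (a := 27648) (b := 29184) (c := 33792) (d := 35328) (by norm_num) (by norm_num) (by norm_num) (by norm_num)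
    (CovZ.topM TD_LL 79395594890748191533977263058392161865417005516820228406570385408 (by decide +kernel) (CovZ.n2 (28416, 34560) (by decide +kernel)
    (CovZ.badM (by decide +kernel))
    (CovZ.n1 (28416, 33792) (by decide +kernel)
     (CovZ.badM (by decide +kernel))
     (CovZ.badM (by decide +kernel)))))
    (CovZ.topM TD_LL 0 (by decide +kernel) (CovZ.badM (by decide +kernel)))

theorem TD_s7_14 : SqZ TD_M TD_L [0, 7, 6, 1] 18432 12288 1536 7 14 :=
  SqZ.mk (a := 29184) (b := 30720) (c := 33792) (d := 35328) (by norm_num) (by norm_num) (by norm_num) (by norm_num)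
    (CovZ.topM TD_LL 0 (by decide +kernel) (CovZ.badM (by decide +kernel)))
    (CovZ.topM TD_LL 0 (by decide +kernel) (CovZ.badM (by decide +kernel)))

theorem TD_s8_14 : SqZ TD_M TD_L [0, 7, 6, 1] 18432 12288 1536 8 14 :=
  SqZ.mk (a := 30720) (b := 32256) (c := 33792) (d := 35328) (by norm_num) (by norm_num) (by norm_num) (by norm_num)
    (CovZ.topM TD_LL 46768052394588893382517914646921056628989841375232 (by decide +kernel) (CovZ.n2 (31488, 34560) (by decide +kernel)
    (CovZ.badM (by decide +kernel))
    (CovZ.n1 (31488, 33792) (by decide +kernel)
     (CovZ.badM (by decide +kernel))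
     (CovZ.badM (by decide +kernel)))))
    (CovZ.topM TD_LL 0 (by decide +kernel) (CovZ.badM (by decide +kernel)))

end Pool.Agent.TET
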