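import Pool.Agent.Helper38_TET.RegB
import Pool.Agent.Helper38_TET.TD_S0
import Pool.Agent.Helper38_TET.TD_S1
import Pool.Agent.Helper38_TET.TD_S2
import Pool.Agent.Helper38_TET.TD_S3
import Pool.Agent.Helper38_TET.TD_S4
import Pool.Agent.Helper38_TET.TD_S5

/-!
# MP_c7c9bf_co: certificates, family TD
-/

set_option autoImplicit false
set_option maxRecDepth 100000

namespace Pool.Agent.TET

theorem TD_r0 : ∀ i < 9, SqZ TD_M TD_L [0, 7, 6, 1] 18432 12288 1536 i 0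
  | 0, _ => TD_s0_0
  | 1, _ => TD_s1_0
  | 2, _ => TD_s2_0
  | 3, _ => TD_s3_0
  | 4, _ => TD_s4_0
  | 5, _ => TD_s5_0
  | 6, _ => TD_s6_0
  | 7, _ => TD_s7_0
  | 8, _ => TD_s8_0
  | n + 9, h => absurd h (by omega)

theorem TD_r1 : ∀ i < 9, SqZ TD_M TD_L [0, 7, 6, 1] 18432 12288 1536 i 1
  | 0, _ => TD_s0_1
  | 1, _ => TD_s1_1
  | 2, _ => TD_s2_1
  | 3, _ => TD_s3_1
  | 4, _ => TD_s4_1
  | 5, _ => TD_s5_1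
  | 6, _ => TD_s6_1
  | 7, _ => TD_s7_1
  | 8, _ => TD_s8_1
  | n + 9, h => absurd h (by omega)

theorem TD_r2 : ∀ i < 9, SqZ TD_M TD_L [0, 7, 6, 1] 18432 12288 1536 i 2
  | 0, _ => TD_s0_2
  | 1, _ => TD_s1_2
  | 2, _ => TD_s2_2
  | 3, _ => TD_s3_2
  | 4, _ => TD_s4_2
  | 5, _ => TD_s5_2
  | 6, _ => TD_s6_2
  | 7, _ => TD_s7_2
  | 8, _ => TD_s8_2
  | n + 9, h => absurd h (by omega)

theorem TD_r3 : ∀ i < 9, SqZ TD_M TD_L [0, 7, 6, 1] 18432 12288 1536 i 3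
  | 0, _ => TD_s0_3
  | 1, _ => TD_s1_3
  | 2, _ => TD_s2_3
  | 3, _ => TD_s3_3
  | 4, _ => TD_s4_3
  | 5, _ => TD_s5_3
  | 6, _ => TD_s6_3
  | 7, _ => TD_s7_3
  | 8, _ => TD_s8_3
  | n + 9, h => absurd h (by omega)

theorem TD_r4 : ∀ i < 9, SqZ TD_M TD_L [0, 7, 6, 1] 18432 12288 1536 i 4
  | 0, _ => TD_s0_4
  | 1, _ => TD_s1_4
  | 2, _ => TD_s2_4
  | 3, _ => TD_s3_4
  | 4, _ => TD_s4_4
  | 5, _ => TD_s5_4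
  | 6, _ => TD_s6_4
  | 7, _ => TD_s7_4
  | 8, _ => TD_s8_4
  | n + 9, h => absurd h (by omega)

theorem TD_r5 : ∀ i < 9, SqZ TD_M TD_L [0, 7, 6, 1] 18432 12288 1536 i 5
  | 0, _ => TD_s0_5
  | 1, _ => TD_s1_5
  | 2, _ => TD_s2_5
  | 3, _ => TD_s3_5
  | 4, _ => TD_s4_5
  | 5, _ => TD_s5_5
  | 6, _ => TD_s6_5
  | 7, _ => TD_s7_5
  | 8, _ => TD_s8_5
  | n + 9, h => absurd h (by omega)

theorem TD_r6 : ∀ i < 9, SqZ TD_M TD_L [0, 7, 6, 1] 18432 12288 1536 i 6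
  | 0, _ => TD_s0_6
  | 1, _ => TD_s1_6
  | 2, _ => TD_s2_6
  | 3, _ => TD_s3_6
  | 4, _ => TD_s4_6
  | 5, _ => TD_s5_6
  | 6, _ => TD_s6_6
  | 7, _ => TD_s7_6
  | 8, _ => TD_s8_6
  | n + 9, h => absurd h (by omega)

theorem TD_r7 : ∀ i < 9, SqZ TD_M TD_L [0, 7, 6, 1] 18432 12288 1536 i 7
  | 0, _ => TD_s0_7
  | 1, _ => TD_s1_7
  | 2, _ => TD_s2_7
  | 3, _ => TD_s3_7
  | 4, _ => TD_s4_7
  | 5, _ => TD_s5_7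
  | 6, _ => TD_s6_7
  | 7, _ => TD_s7_7
  | 8, _ => TD_s8_7
  | n + 9, h => absurd h (by omega)

theorem TD_r8 : ∀ i < 9, SqZ TD_M TD_L [0, 7, 6, 1] 18432 12288 1536 i 8
  | 0, _ => TD_s0_8
  | 1, _ => TD_s1_8
  | 2, _ => TD_s2_8
  | 3, _ => TD_s3_8
  | 4, _ => TD_s4_8
  | 5, _ => TD_s5_8
  | 6, _ => TD_s6_8
  | 7, _ => TD_s7_8
  | 8, _ => TD_s8_8
  | n + 9, h => absurd h (by omega)

theorem TD_r9 : ∀ i < 9, SqZ TD_M TD_L [0, 7, 6, 1] 18432 12288 1536 i 9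
  | 0, _ => TD_s0_9
  | 1, _ => TD_s1_9
  | 2, _ => TD_s2_9
  | 3, _ => TD_s3_9
  | 4, _ => TD_s4_9
  | 5, _ => TD_s5_9
  | 6, _ => TD_s6_9
  | 7, _ => TD_s7_9
  | 8, _ => TD_s8_9
  | n + 9, h => absurd h (by omega)

theorem TD_r10 : ∀ i < 9, SqZ TD_M TD_L [0, 7, 6, 1] 18432 12288 1536 i 10
  | 0, _ => TD_s0_10
  | 1, _ => TD_s1_10
  | 2, _ => TD_s2_10
  | 3, _ => TD_s3_10
  | 4, _ => TD_s4_10
  | 5, _ => TD_s5_10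
  | 6, _ => TD_s6_10
  | 7, _ => TD_s7_10
  | 8, _ => TD_s8_10
  | n + 9, h => absurd h (by omega)

theorem TD_r11 : ∀ i < 9, SqZ TD_M TD_L [0, 7, 6, 1] 18432 12288 1536 i 11
  | 0, _ => TD_s0_11
  | 1, _ => TD_s1_11
  | 2, _ => TD_s2_11
  | 3, _ => TD_s3_11
  | 4, _ => TD_s4_11
  | 5, _ => TD_s5_11
  | 6, _ => TD_s6_11
  | 7, _ => TD_s7_11
  | 8, _ => TD_s8_11
  | n + 9, h => absurd h (by omega)

theorem TD_r12 : ∀ i < 9, SqZ TD_M TD_L [0, 7, 6, 1] 18432 12288 1536 i 12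
  | 0, _ => TD_s0_12
  | 1, _ => TD_s1_12
  | 2, _ => TD_s2_12
  | 3, _ => TD_s3_12
  | 4, _ => TD_s4_12
  | 5, _ => TD_s5_12
  | 6, _ => TD_s6_12
  | 7, _ => TD_s7_12
  | 8, _ => TD_s8_12
  | n + 9, h => absurd h (by omega)

theorem TD_r13 : ∀ i < 9, SqZ TD_M TD_L [0, 7, 6, 1] 18432 12288 1536 i 13
  | 0, _ => TD_s0_13
  | 1, _ => TD_s1_13
  | 2, _ => TD_s2_13
  | 3, _ => TD_s3_13
  | 4, _ => TD_s4_13
  | 5, _ => TD_s5_13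
  | 6, _ => TD_s6_13
  | 7, _ => TD_s7_13
  | 8, _ => TD_s8_13
  | n + 9, h => absurd h (by omega)

theorem TD_r14 : ∀ i < 9, SqZ TD_M TD_L [0, 7, 6, 1] 18432 12288 1536 i 14
  | 0, _ => TD_s0_14
  | 1, _ => TD_s1_14
  | 2, _ => TD_s2_14
  | 3, _ => TD_s3_14
  | 4, _ => TD_s4_14
  | 5, _ => TD_s5_14
  | 6, _ => TD_s6_14
  | 7, _ => TD_s7_14
  | 8, _ => TD_s8_14
  | n + 9, h => absurd h (by omega)

theorem TD_rows : ∀ j < 15, ∀ i < 9, SqZ TD_M TD_L [0, 7, 6, 1] 18432 12288 1536 i j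
  | 0, _ => TD_r0
  | 1, _ => TD_r1
  | 2, _ => TD_r2
  | 3, _ => TD_r3
  | 4, _ => TD_r4
  | 5, _ => TD_r5
  | 6, _ => TD_r6
  | 7, _ => TD_r7
  | 8, _ => TD_r8
  | 9, _ => TD_r9
  | 10, _ => TD_r10
  | 11, _ => TD_r11
  | 12, _ => TD_r12
  | 13, _ => TD_r13
  | 14, _ => TD_r14
  | n + 15, h => absurd h (by omega)

theorem TD_cov (X Y : ℝ) (h1 : ((18432 : ℤ) : ℝ) ≤ X) (h2 : X ≤ (32256 : ℤ)) (h3 : ((12288 : ℤ) : ℝ) ≤ Y)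
    (h4 : Y ≤ (35328 : ℤ)) : Out TD_L X Y ∨ GoodV [0, 7, 6, 1] (TD_M.v X Y) := by
  push_cast at h1 h2 h3 h4
  refine gridZ (by norm_num) (by norm_num) (by norm_num) TD_rows ?_ ?_ ?_ ?_ <;> push_cast <;> linarith

theorem TD_fr (x y : ℝ) : swp (VD x y) =
    TD_M.v (30720 * x / (1 : ℤ)) (30720 * y / (1 : ℤ)) := by
  funext i j
  fin_cases i <;> fin_cases j <;> simp [swp, VD, FM.v, Z3.ev, TD_M] <;> ring

end Pool.Agent.TET
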