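import Pool.Agent.Helper38_TET.TD_C

/-!
# MP_c7c9bf_co: certificates, family TD
-/

set_option autoImplicit false
set_option maxRecDepth 100000

namespace Pool.Agent.TET

theorem TD_rg0 : ROK [.l ⟨0, 20, 0, -17⟩ ⟨0, 20, 0, 17⟩, .l ⟨0, -20, 0, 19⟩ ⟨0, 20, 0, 19⟩, .l ⟨0, 20, 0, -17⟩ ⟨0, 683, 3941, 2668⟩, .l ⟨0, 20, 0, -19⟩ ⟨0, 683, 3941, 2668⟩, .l ⟨0, 20, 0, -17⟩ ⟨0, -683, -3941, -3855⟩, .l ⟨0, 20, 0, -19⟩ ⟨0, -683, -3941, -3855⟩] := by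
  refine rok_ds (s := 1) (nlo := 17) (nhi := 19) (q := 20) (by decide) (by decide) (by decide) (by decide) (k := 1) (by decide) (Q := [(683, 3941, -2668), (-683, -3941, 3855)])
    (P := [⟨-522240, 20, 0⟩, ⟨583680, -20, 0⟩, ⟨-81960960, 683, 3941⟩, ⟨118425600, -683, -3941⟩]) rfl rfl
    (List.mem_of_getElem? (i := 0) rfl) TD_fr TD_cov ?_
  · intro X Y h
    simp only [List.forall_mem_cons, List.not_mem_nil, false_imp_iff, implies_true, and_true] at h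
    push_cast at h ⊢
    obtain ⟨h0, h1, h2, h3⟩ := h
    refine ⟨⟨?_, ?_⟩, ?_, ?_⟩ <;> linarith

theorem TD_rg1 : ROK [.l ⟨0, 40, 0, -36⟩ ⟨0, 40, 0, 36⟩, .l ⟨0, -40, 0, 39⟩ ⟨0, 40, 0, 39⟩, .l ⟨0, 40, 0, -36⟩ ⟨0, 0, 4000, 3573⟩, .l ⟨0, 40, 0, -39⟩ ⟨0, 0, 4000, 3573⟩, .l ⟨0, 40, 0, -36⟩ ⟨0, 0, -4000, -4299⟩, .l ⟨0, 40, 0, -39⟩ ⟨0, 0, -4000, -4299⟩] := by
  refine rok_ds (s := 1) (nlo := 36) (nhi := 39) (q := 40) (by decide) (by decide) (by decide) (by decide) (k := 1) (by decide) (Q := [(0, 4000, -3573), (0, -4000, 4299)])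
    (P := [⟨-1105920, 40, 0⟩, ⟨1198080, -40, 0⟩, ⟨-109762560, 0, 4000⟩, ⟨132065280, 0, -4000⟩]) rfl rfl
    (List.mem_of_getElem? (i := 1) rfl) TD_fr TD_cov ?_
  · intro X Y h
    simp only [List.forall_mem_cons, List.not_mem_nil, false_imp_iff, implies_true, and_true] at h
    push_cast at h ⊢
    obtain ⟨h0, h1, h2, h3⟩ := h
    refine ⟨⟨?_, ?_⟩, ?_, ?_⟩ <;> linarith

theorem TD_rg2 : ROK [.l ⟨0, 20, 0, -15⟩ ⟨0, 20, 0, 15⟩, .l ⟨0, -20, 0, 18⟩ ⟨0, 20, 0, 18⟩, .l ⟨0, 20, 0, -15⟩ ⟨0, 1201, 1599, 2051⟩, .l ⟨0, 20, 0, -18⟩ ⟨0, 1201, 1599, 2051⟩, .l ⟨0, 20, 0, -15⟩ ⟨0, -232, -3993, -3467⟩, .l ⟨0, 20, 0, -18⟩ ⟨0, -232, -3993, -3467⟩] := by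
  refine rok_ds (s := 1) (nlo := 15) (nhi := 18) (q := 20) (by decide) (by decide) (by decide) (by decide) (k := 1) (by decide) (Q := [(1201, 1599, -2051), (-232, -3993, 3467)])
    (P := [⟨-460800, 20, 0⟩, ⟨552960, -20, 0⟩, ⟨-63006720, 1201, 1599⟩, ⟨106506240, -232, -3993⟩]) rfl rfl
    (List.mem_of_getElem? (i := 2) rfl) TD_fr TD_cov ?_
  · intro X Y h
    simp only [List.forall_mem_cons, List.not_mem_nil, false_imp_iff, implies_true, and_true] at h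
    push_cast at h ⊢
    obtain ⟨h0, h1, h2, h3⟩ := h
    refine ⟨⟨?_, ?_⟩, ?_, ?_⟩ <;> linarith

theorem TD_rg3 : ROK [.l ⟨0, 40, 0, -29⟩ ⟨0, 40, 0, 29⟩, .l ⟨0, -40, 0, 32⟩ ⟨0, 40, 0, 32⟩, .l ⟨0, 40, 0, -29⟩ ⟨0, 0, 1000, -1789⟩, .l ⟨0, 40, 0, -32⟩ ⟨0, 0, 1000, -1789⟩, .l ⟨0, 40, 0, -29⟩ ⟨0, 0, -4000, -3293⟩, .l ⟨0, 40, 0, -32⟩ ⟨0, 0, -4000, -3293⟩, .l ⟨0, 40, 0, -29⟩ ⟨0, -103, 3999, 2916⟩, .l ⟨0, 40, 0, -32⟩ ⟨0, -103, 3999, 2916⟩] := by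
  refine rok_ds (s := 1) (nlo := 29) (nhi := 32) (q := 40) (by decide) (by decide) (by decide) (by decide) (k := 1) (by decide) (Q := [(0, 1000, 1789), (0, -4000, 3293), (-103, 3999, -2916)])
    (P := [⟨-890880, 40, 0⟩, ⟨983040, -40, 0⟩, ⟨54958080, 0, 1000⟩, ⟨101160960, 0, -4000⟩, ⟨-89579520, -103, 3999⟩]) rfl rfl
    (List.mem_of_getElem? (i := 3) rfl) TD_fr TD_cov ?_
  · intro X Y h
    simp only [List.forall_mem_cons, List.not_mem_nil, false_imp_iff, implies_true, and_true] at h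
    push_cast at h ⊢
    obtain ⟨h0, h1, h2, h3, h4⟩ := h
    refine ⟨⟨?_, ?_⟩, ?_, ?_⟩ <;> linarith

theorem TD_rg4 : ROK [.l ⟨0, 20, 0, -17⟩ ⟨0, 20, 0, 17⟩, .l ⟨0, -20, 0, 20⟩ ⟨0, 20, 0, 20⟩, .l ⟨0, 20, 0, -17⟩ ⟨0, 1781, 3582, 4808⟩, .l ⟨0, 20, 0, -20⟩ ⟨0, 1781, 3582, 4808⟩, .l ⟨0, 20, 0, -17⟩ ⟨0, 1329, -3773, -2751⟩, .l ⟨0, 20, 0, -20⟩ ⟨0, 1329, -3773, -2751⟩] := by
  refine rok_ds (s := 1) (nlo := 17) (nhi := 20) (q := 20) (by decide) (by decide) (by decide) (by decide) (k := 1) (by decide) (Q := [(1781, 3582, -4808), (1329, -3773, 2751)])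
    (P := [⟨-522240, 20, 0⟩, ⟨614400, -20, 0⟩, ⟨-147701760, 1781, 3582⟩, ⟨84510720, 1329, -3773⟩]) rfl rfl
    (List.mem_of_getElem? (i := 4) rfl) TD_fr TD_cov ?_
  · intro X Y h
    simp only [List.forall_mem_cons, List.not_mem_nil, false_imp_iff, implies_true, and_true] at h
    push_cast at h ⊢
    obtain ⟨h0, h1, h2, h3⟩ := h
    refine ⟨⟨?_, ?_⟩, ?_, ?_⟩ <;> linarith

theorem TD_rg5 : ROK [.l ⟨0, 20, 0, -13⟩ ⟨0, 20, 0, 13⟩, .l ⟨0, -20, 0, 17⟩ ⟨0, 20, 0, 17⟩, .l ⟨0, 20, 0, -13⟩ ⟨0, 649, 3947, -8609⟩, .l ⟨0, 20, 0, -17⟩ ⟨0, 649, 3947, -8609⟩, .l ⟨0, 20, 0, -13⟩ ⟨0, 977, -3879, -2254⟩, .l ⟨0, 20, 0, -17⟩ ⟨0, 977, -3879, -2254⟩, .l ⟨0, 20, 0, -13⟩ ⟨0, 2833, 2824, 4164⟩, .l ⟨0, 20, 0, -17⟩ ⟨0, 2833, 2824, 4164⟩] := by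
  refine rok_ds (s := 1) (nlo := 13) (nhi := 17) (q := 20) (by decide) (by decide) (by decide) (by decide) (k := 1) (by decide) (Q := [(649, 3947, 8609), (977, -3879, 2254), (2833, 2824, -4164)])
    (P := [⟨-399360, 20, 0⟩, ⟨522240, -20, 0⟩, ⟨264468480, 649, 3947⟩, ⟨69242880, 977, -3879⟩, ⟨-127918080, 2833, 2824⟩]) rfl rfl
    (List.mem_of_getElem? (i := 5) rfl) TD_fr TD_cov ?_
  · intro X Y h
    simp only [List.forall_mem_cons, List.not_mem_nil, false_imp_iff, implies_true, and_true] at h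
    push_cast at h ⊢
    obtain ⟨h0, h1, h2, h3, h4⟩ := h
    refine ⟨⟨?_, ?_⟩, ?_, ?_⟩ <;> linarith

theorem TD_rg6 : ROK [.l ⟨0, 20, 0, -16⟩ ⟨0, 20, 0, 16⟩, .l ⟨0, -20, 0, 17⟩ ⟨0, 20, 0, 17⟩, .l ⟨0, 20, 0, -16⟩ ⟨0, 0, 400, 381⟩, .l ⟨0, 20, 0, -17⟩ ⟨0, 0, 400, 381⟩, .l ⟨0, 20, 0, -16⟩ ⟨0, 1126, -3838, -3121⟩, .l ⟨0, 20, 0, -17⟩ ⟨0, 1126, -3838, -3121⟩] := by
  refine rok_ds (s := 1) (nlo := 16) (nhi := 17) (q := 20) (by decide) (by decide) (by decide) (by decide) (k := 1) (by decide) (Q := [(0, 400, -381), (1126, -3838, 3121)])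
    (P := [⟨-491520, 20, 0⟩, ⟨522240, -20, 0⟩, ⟨-11704320, 0, 400⟩, ⟨95877120, 1126, -3838⟩]) rfl rfl
    (List.mem_of_getElem? (i := 6) rfl) TD_fr TD_cov ?_
  · intro X Y h
    simp only [List.forall_mem_cons, List.not_mem_nil, false_imp_iff, implies_true, and_true] at h
    push_cast at h ⊢
    obtain ⟨h0, h1, h2, h3⟩ := h
    refine ⟨⟨?_, ?_⟩, ?_, ?_⟩ <;> linarith

theorem TD_rg7 : ROK [.l ⟨0, 20, 0, -17⟩ ⟨0, 20, 0, 17⟩, .l ⟨0, -20, 0, 20⟩ ⟨0, 20, 0, 20⟩, .l ⟨0, 20, 0, -17⟩ ⟨0, 1233, 3805, 3078⟩, .l ⟨0, 20, 0, -20⟩ ⟨0, 1233, 3805, 3078⟩, .l ⟨0, 20, 0, -17⟩ ⟨0, 1289, -3787, -1848⟩, .l ⟨0, 20, 0, -20⟩ ⟨0, 1289, -3787, -1848⟩] := by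
  refine rok_ds (s := 1) (nlo := 17) (nhi := 20) (q := 20) (by decide) (by decide) (by decide) (by decide) (k := 1) (by decide) (Q := [(1233, 3805, -3078), (1289, -3787, 1848)])
    (P := [⟨-522240, 20, 0⟩, ⟨614400, -20, 0⟩, ⟨-94556160, 1233, 3805⟩, ⟨56770560, 1289, -3787⟩]) rfl rfl
    (List.mem_of_getElem? (i := 7) rfl) TD_fr TD_cov ?_
  · intro X Y h
    simp only [List.forall_mem_cons, List.not_mem_nil, false_imp_iff, implies_true, and_true] at h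
    push_cast at h ⊢
    obtain ⟨h0, h1, h2, h3⟩ := h
    refine ⟨⟨?_, ?_⟩, ?_, ?_⟩ <;> linarith

theorem TD_rg8 : ROK [.l ⟨0, 40, 0, -31⟩ ⟨0, 40, 0, 31⟩, .l ⟨0, -40, 0, 33⟩ ⟨0, 40, 0, 33⟩, .l ⟨0, 40, 0, -31⟩ ⟨0, 1872, 3535, 4875⟩, .l ⟨0, 40, 0, -33⟩ ⟨0, 1872, 3535, 4875⟩, .l ⟨0, 40, 0, -31⟩ ⟨0, -1600, -3666, -5057⟩, .l ⟨0, 40, 0, -33⟩ ⟨0, -1600, -3666, -5057⟩] := by
  refine rok_ds (s := 1) (nlo := 31) (nhi := 33) (q := 40) (by decide) (by decide) (by decide) (by decide) (k := 1) (by decide) (Q := [(1872, 3535, -4875), (-1600, -3666, 5057)])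
    (P := [⟨-952320, 40, 0⟩, ⟨1013760, -40, 0⟩, ⟨-149760000, 1872, 3535⟩, ⟨155351040, -1600, -3666⟩]) rfl rfl
    (List.mem_of_getElem? (i := 8) rfl) TD_fr TD_cov ?_
  · intro X Y h
    simp only [List.forall_mem_cons, List.not_mem_nil, false_imp_iff, implies_true, and_true] at h
    push_cast at h ⊢
    obtain ⟨h0, h1, h2, h3⟩ := h
    refine ⟨⟨?_, ?_⟩, ?_, ?_⟩ <;> linarith

theorem TD_rg9 : ROK [.l ⟨0, 40, 0, -32⟩ ⟨0, 40, 0, 32⟩, .l ⟨0, -40, 0, 35⟩ ⟨0, 40, 0, 35⟩, .l ⟨0, 40, 0, -32⟩ ⟨0, 0, 4000, 2667⟩, .l ⟨0, 40, 0, -35⟩ ⟨0, 0, 4000, 2667⟩, .l ⟨0, 40, 0, -32⟩ ⟨0, 0, -4000, -3311⟩, .l ⟨0, 40, 0, -35⟩ ⟨0, 0, -4000, -3311⟩] := by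
  refine rok_ds (s := 1) (nlo := 32) (nhi := 35) (q := 40) (by decide) (by decide) (by decide) (by decide) (k := 1) (by decide) (Q := [(0, 4000, -2667), (0, -4000, 3311)])
    (P := [⟨-983040, 40, 0⟩, ⟨1075200, -40, 0⟩, ⟨-81930240, 0, 4000⟩, ⟨101713920, 0, -4000⟩]) rfl rfl
    (List.mem_of_getElem? (i := 9) rfl) TD_fr TD_cov ?_
  · intro X Y h
    simp only [List.forall_mem_cons, List.not_mem_nil, false_imp_iff, implies_true, and_true] at h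
    push_cast at h ⊢
    obtain ⟨h0, h1, h2, h3⟩ := h
    refine ⟨⟨?_, ?_⟩, ?_, ?_⟩ <;> linarith

theorem TD_rg10 : ROK [.l ⟨0, 40, 0, -36⟩ ⟨0, 40, 0, 36⟩, .l ⟨0, -40, 0, 39⟩ ⟨0, 40, 0, 39⟩, .l ⟨0, 40, 0, -36⟩ ⟨0, 115, 3998, 2107⟩, .l ⟨0, 40, 0, -39⟩ ⟨0, 115, 3998, 2107⟩, .l ⟨0, 40, 0, -36⟩ ⟨0, -115, -3998, -3432⟩, .l ⟨0, 40, 0, -39⟩ ⟨0, -115, -3998, -3432⟩] := by
  refine rok_ds (s := 1) (nlo := 36) (nhi := 39) (q := 40) (by decide) (by decide) (by decide) (by decide) (k := 1) (by decide) (Q := [(115, 3998, -2107), (-115, -3998, 3432)])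
    (P := [⟨-1105920, 40, 0⟩, ⟨1198080, -40, 0⟩, ⟨-64727040, 115, 3998⟩, ⟨105431040, -115, -3998⟩]) rfl rfl
    (List.mem_of_getElem? (i := 10) rfl) TD_fr TD_cov ?_
  · intro X Y h
    simp only [List.forall_mem_cons, List.not_mem_nil, false_imp_iff, implies_true, and_true] at h
    push_cast at h ⊢
    obtain ⟨h0, h1, h2, h3⟩ := h
    refine ⟨⟨?_, ?_⟩, ?_, ?_⟩ <;> linarith

theorem TD_rg11 : ROK [.l ⟨0, 40, 0, -36⟩ ⟨0, 40, 0, 36⟩, .l ⟨0, -40, 0, 39⟩ ⟨0, 40, 0, 39⟩, .l ⟨0, 40, 0, -36⟩ ⟨0, 0, 1000, 501⟩, .l ⟨0, 40, 0, -39⟩ ⟨0, 0, 1000, 501⟩, .l ⟨0, 40, 0, -36⟩ ⟨0, 0, -1000, -831⟩, .l ⟨0, 40, 0, -39⟩ ⟨0, 0, -1000, -831⟩] := by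
  refine rok_ds (s := 1) (nlo := 36) (nhi := 39) (q := 40) (by decide) (by decide) (by decide) (by decide) (k := 1) (by decide) (Q := [(0, 1000, -501), (0, -1000, 831)])
    (P := [⟨-1105920, 40, 0⟩, ⟨1198080, -40, 0⟩, ⟨-15390720, 0, 1000⟩, ⟨25528320, 0, -1000⟩]) rfl rfl
    (List.mem_of_getElem? (i := 11) rfl) TD_fr TD_cov ?_
  · intro X Y h
    simp only [List.forall_mem_cons, List.not_mem_nil, false_imp_iff, implies_true, and_true] at h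
    push_cast at h ⊢
    obtain ⟨h0, h1, h2, h3⟩ := h
    refine ⟨⟨?_, ?_⟩, ?_, ?_⟩ <;> linarith

theorem TD_rg12 : ROK [.l ⟨0, 40, 0, -35⟩ ⟨0, 40, 0, 35⟩, .l ⟨0, -40, 0, 38⟩ ⟨0, 40, 0, 38⟩, .l ⟨0, 40, 0, -35⟩ ⟨0, 795, 3920, 4202⟩, .l ⟨0, 40, 0, -38⟩ ⟨0, 795, 3920, 4202⟩, .l ⟨0, 40, 0, -35⟩ ⟨0, -53, -4000, -4323⟩, .l ⟨0, 40, 0, -38⟩ ⟨0, -53, -4000, -4323⟩, .l ⟨0, 40, 0, -35⟩ ⟨0, 2372, 3221, 5017⟩, .l ⟨0, 40, 0, -38⟩ ⟨0, 2372, 3221, 5017⟩] := by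
  refine rok_ds (s := 1) (nlo := 35) (nhi := 38) (q := 40) (by decide) (by decide) (by decide) (by decide) (k := 1) (by decide) (Q := [(795, 3920, -4202), (-53, -4000, 4323), (2372, 3221, -5017)])
    (P := [⟨-1075200, 40, 0⟩, ⟨1167360, -40, 0⟩, ⟨-129085440, 795, 3920⟩, ⟨132802560, -53, -4000⟩, ⟨-154122240, 2372, 3221⟩]) rfl rfl
    (List.mem_of_getElem? (i := 12) rfl) TD_fr TD_cov ?_
  · intro X Y h
    simp only [List.forall_mem_cons, List.not_mem_nil, false_imp_iff, implies_true, and_true] at h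
    push_cast at h ⊢
    obtain ⟨h0, h1, h2, h3, h4⟩ := h
    refine ⟨⟨?_, ?_⟩, ?_, ?_⟩ <;> linarith

theorem TD_rg13 : ROK [.l ⟨0, 5, 0, -4⟩ ⟨0, 5, 0, 4⟩, .l ⟨0, -5, 0, 5⟩ ⟨0, 5, 0, 5⟩, .l ⟨0, 5, 0, -4⟩ ⟨0, 0, 4000, 2667⟩, .l ⟨0, 5, 0, -5⟩ ⟨0, 0, 4000, 2667⟩, .l ⟨0, 5, 0, -4⟩ ⟨0, 0, -4000, -3311⟩, .l ⟨0, 5, 0, -5⟩ ⟨0, 0, -4000, -3311⟩] := by
  refine rok_ds (s := 1) (nlo := 4) (nhi := 5) (q := 5) (by decide) (by decide) (by decide) (by decide) (k := 1) (by decide) (Q := [(0, 4000, -2667), (0, -4000, 3311)])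
    (P := [⟨-122880, 5, 0⟩, ⟨153600, -5, 0⟩, ⟨-81930240, 0, 4000⟩, ⟨101713920, 0, -4000⟩]) rfl rfl
    (List.mem_of_getElem? (i := 13) rfl) TD_fr TD_cov ?_
  · intro X Y h
    simp only [List.forall_mem_cons, List.not_mem_nil, false_imp_iff, implies_true, and_true] at h
    push_cast at h ⊢
    obtain ⟨h0, h1, h2, h3⟩ := h
    refine ⟨⟨?_, ?_⟩, ?_, ?_⟩ <;> linarith

theorem TD_rg14 : ROK [.l ⟨0, 20, 0, -16⟩ ⟨0, 20, 0, 16⟩, .l ⟨0, -20, 0, 19⟩ ⟨0, 20, 0, 19⟩, .l ⟨0, 20, 0, -16⟩ ⟨0, 0, 250, 127⟩, .l ⟨0, 20, 0, -19⟩ ⟨0, 0, 250, 127⟩, .l ⟨0, 20, 0, -16⟩ ⟨0, 0, -4000, -3311⟩, .l ⟨0, 20, 0, -19⟩ ⟨0, 0, -4000, -3311⟩, .l ⟨0, 20, 0, -16⟩ ⟨0, 3596, 1752, 4099⟩, .l ⟨0, 20, 0, -19⟩ ⟨0, 3596, 1752, 4099⟩] := by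
  refine rok_ds (s := 1) (nlo := 16) (nhi := 19) (q := 20) (by decide) (by decide) (by decide) (by decide) (k := 1) (by decide) (Q := [(0, 250, -127), (0, -4000, 3311), (3596, 1752, -4099)])
    (P := [⟨-491520, 20, 0⟩, ⟨583680, -20, 0⟩, ⟨-3901440, 0, 250⟩, ⟨101713920, 0, -4000⟩, ⟨-125921280, 3596, 1752⟩]) rfl rfl
    (List.mem_of_getElem? (i := 14) rfl) TD_fr TD_cov ?_
  · intro X Y h
    simp only [List.forall_mem_cons, List.not_mem_nil, false_imp_iff, implies_true, and_true] at h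
    push_cast at h ⊢
    obtain ⟨h0, h1, h2, h3, h4⟩ := h
    refine ⟨⟨?_, ?_⟩, ?_, ?_⟩ <;> linarith

theorem TD_rg15 : ROK [.l ⟨0, 40, 0, -35⟩ ⟨0, 40, 0, 35⟩, .l ⟨0, -40, 0, 37⟩ ⟨0, 40, 0, 37⟩, .l ⟨0, 40, 0, -35⟩ ⟨0, 1273, 3792, 3047⟩, .l ⟨0, 40, 0, -37⟩ ⟨0, 1273, 3792, 3047⟩, .l ⟨0, 40, 0, -35⟩ ⟨0, -1273, -3792, -4273⟩, .l ⟨0, 40, 0, -37⟩ ⟨0, -1273, -3792, -4273⟩, .l ⟨0, 40, 0, -35⟩ ⟨0, 2833, 2824, 3963⟩, .l ⟨0, 40, 0, -37⟩ ⟨0, 2833, 2824, 3963⟩] := by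
  refine rok_ds (s := 1) (nlo := 35) (nhi := 37) (q := 40) (by decide) (by decide) (by decide) (by decide) (k := 1) (by decide) (Q := [(1273, 3792, -3047), (-1273, -3792, 4273), (2833, 2824, -3963)])
    (P := [⟨-1075200, 40, 0⟩, ⟨1136640, -40, 0⟩, ⟨-93603840, 1273, 3792⟩, ⟨131266560, -1273, -3792⟩, ⟨-121743360, 2833, 2824⟩]) rfl rfl
    (List.mem_of_getElem? (i := 15) rfl) TD_fr TD_cov ?_
  · intro X Y h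
    simp only [List.forall_mem_cons, List.not_mem_nil, false_imp_iff, implies_true, and_true] at h
    push_cast at h ⊢
    obtain ⟨h0, h1, h2, h3, h4⟩ := h
    refine ⟨⟨?_, ?_⟩, ?_, ?_⟩ <;> linarith

theorem TD_rg16 : ROK [.l ⟨0, 40, 0, -37⟩ ⟨0, 40, 0, 37⟩, .l ⟨0, -40, 0, 41⟩ ⟨0, 40, 0, 41⟩, .l ⟨0, 40, 0, -37⟩ ⟨0, 1056, 3858, 2879⟩, .l ⟨0, 40, 0, -41⟩ ⟨0, 1056, 3858, 2879⟩, .l ⟨0, 40, 0, -37⟩ ⟨0, 1012, -3870, -2153⟩, .l ⟨0, 40, 0, -41⟩ ⟨0, 1012, -3870, -2153⟩] := by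
  refine rok_ds (s := 1) (nlo := 37) (nhi := 41) (q := 40) (by decide) (by decide) (by decide) (by decide) (k := 1) (by decide) (Q := [(1056, 3858, -2879), (1012, -3870, 2153)])
    (P := [⟨-1136640, 40, 0⟩, ⟨1259520, -40, 0⟩, ⟨-88442880, 1056, 3858⟩, ⟨66140160, 1012, -3870⟩]) rfl rfl
    (List.mem_of_getElem? (i := 16) rfl) TD_fr TD_cov ?_
  · intro X Y h
    simp only [List.forall_mem_cons, List.not_mem_nil, false_imp_iff, implies_true, and_true] at h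
    push_cast at h ⊢
    obtain ⟨h0, h1, h2, h3⟩ := h
    refine ⟨⟨?_, ?_⟩, ?_, ?_⟩ <;> linarith

theorem TD_rg17 : ROK [.l ⟨0, 480, 0, -397⟩ ⟨0, 480, 0, 397⟩, .l ⟨0, -480, 0, 408⟩ ⟨0, 480, 0, 408⟩, .l ⟨0, 480, 0, -397⟩ ⟨0, 0, 800, -1251⟩, .l ⟨0, 480, 0, -408⟩ ⟨0, 0, 800, -1251⟩, .l ⟨0, 480, 0, -397⟩ ⟨0, 0, -1000, -831⟩, .l ⟨0, 480, 0, -408⟩ ⟨0, 0, -1000, -831⟩, .l ⟨0, 480, 0, -397⟩ ⟨0, 2829, 2828, 3886⟩, .l ⟨0, 480, 0, -408⟩ ⟨0, 2829, 2828, 3886⟩] := by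
  refine rok_ds (s := 1) (nlo := 397) (nhi := 408) (q := 480) (by decide) (by decide) (by decide) (by decide) (k := 1) (by decide) (Q := [(0, 800, 1251), (0, -1000, 831), (2829, 2828, -3886)])
    (P := [⟨-12195840, 480, 0⟩, ⟨12533760, -480, 0⟩, ⟨38430720, 0, 800⟩, ⟨25528320, 0, -1000⟩, ⟨-119377920, 2829, 2828⟩]) rfl rfl
    (List.mem_of_getElem? (i := 17) rfl) TD_fr TD_cov ?_
  · intro X Y h
    simp only [List.forall_mem_cons, List.not_mem_nil, false_imp_iff, implies_true, and_true] at h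
    push_cast at h ⊢
    obtain ⟨h0, h1, h2, h3, h4⟩ := h
    refine ⟨⟨?_, ?_⟩, ?_, ?_⟩ <;> linarith

theorem TD_rg18 : ROK [.l ⟨0, 80, 0, -66⟩ ⟨0, 80, 0, 66⟩, .l ⟨0, -80, 0, 69⟩ ⟨0, 80, 0, 69⟩, .l ⟨0, 80, 0, -66⟩ ⟨0, 1245, 3801, 4576⟩, .l ⟨0, 80, 0, -69⟩ ⟨0, 1245, 3801, 4576⟩, .l ⟨0, 80, 0, -66⟩ ⟨0, 128, -379, -294⟩, .l ⟨0, 80, 0, -69⟩ ⟨0, 128, -379, -294⟩] := by
  refine rok_ds (s := 1) (nlo := 66) (nhi := 69) (q := 80) (by decide) (by decide) (by decide) (by decide) (k := 1) (by decide) (Q := [(1245, 3801, -4576), (128, -379, 294)])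
    (P := [⟨-2027520, 80, 0⟩, ⟨2119680, -80, 0⟩, ⟨-140574720, 1245, 3801⟩, ⟨9031680, 128, -379⟩]) rfl rfl
    (List.mem_of_getElem? (i := 18) rfl) TD_fr TD_cov ?_
  · intro X Y h
    simp only [List.forall_mem_cons, List.not_mem_nil, false_imp_iff, implies_true, and_true] at h
    push_cast at h ⊢
    obtain ⟨h0, h1, h2, h3⟩ := h
    refine ⟨⟨?_, ?_⟩, ?_, ?_⟩ <;> linarith

theorem TD_rg19 : ROK [.l ⟨0, 40, 0, -38⟩ ⟨0, 40, 0, 38⟩, .l ⟨0, -40, 0, 41⟩ ⟨0, 40, 0, 41⟩, .l ⟨0, 40, 0, -38⟩ ⟨0, -2329, 3252, -11120⟩, .l ⟨0, 40, 0, -41⟩ ⟨0, -2329, 3252, -11120⟩, .l ⟨0, 40, 0, -38⟩ ⟨0, -311, -3988, -4600⟩, .l ⟨0, 40, 0, -41⟩ ⟨0, -311, -3988, -4600⟩, .l ⟨0, 40, 0, -38⟩ ⟨0, 584, 3957, 3987⟩, .l ⟨0, 40, 0, -41⟩ ⟨0, 584, 3957, 3987⟩] := by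
  refine rok_ds (s := 1) (nlo := 38) (nhi := 41) (q := 40) (by decide) (by decide) (by decide) (by decide) (k := 1) (by decide) (Q := [(-2329, 3252, 11120), (-311, -3988, 4600), (584, 3957, -3987)])
    (P := [⟨-1167360, 40, 0⟩, ⟨1259520, -40, 0⟩, ⟨341606400, -2329, 3252⟩, ⟨141312000, -311, -3988⟩, ⟨-122480640, 584, 3957⟩]) rfl rfl
    (List.mem_of_getElem? (i := 19) rfl) TD_fr TD_cov ?_
  · intro X Y h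
    simp only [List.forall_mem_cons, List.not_mem_nil, false_imp_iff, implies_true, and_true] at h
    push_cast at h ⊢
    obtain ⟨h0, h1, h2, h3, h4⟩ := h
    refine ⟨⟨?_, ?_⟩, ?_, ?_⟩ <;> linarith

theorem TD_rg20 : ROK [.l ⟨0, 20, 0, -17⟩ ⟨0, 20, 0, 17⟩, .l ⟨0, -20, 0, 19⟩ ⟨0, 20, 0, 19⟩, .l ⟨0, 20, 0, -17⟩ ⟨0, 0, 200, -417⟩, .l ⟨0, 20, 0, -19⟩ ⟨0, 0, 200, -417⟩, .l ⟨0, 20, 0, -17⟩ ⟨0, 5, -2000, -2122⟩, .l ⟨0, 20, 0, -19⟩ ⟨0, 5, -2000, -2122⟩, .l ⟨0, 20, 0, -17⟩ ⟨0, 1453, 3727, 4639⟩, .l ⟨0, 20, 0, -19⟩ ⟨0, 1453, 3727, 4639⟩] := by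
  refine rok_ds (s := 1) (nlo := 17) (nhi := 19) (q := 20) (by decide) (by decide) (by decide) (by decide) (k := 1) (by decide) (Q := [(0, 200, 417), (5, -2000, 2122), (1453, 3727, -4639)])
    (P := [⟨-522240, 20, 0⟩, ⟨583680, -20, 0⟩, ⟨12810240, 0, 200⟩, ⟨65187840, 5, -2000⟩, ⟨-142510080, 1453, 3727⟩]) rfl rfl
    (List.mem_of_getElem? (i := 20) rfl) TD_fr TD_cov ?_
  · intro X Y h
    simp only [List.forall_mem_cons, List.not_mem_nil, false_imp_iff, implies_true, and_true] at h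
    push_cast at h ⊢
    obtain ⟨h0, h1, h2, h3, h4⟩ := h
    refine ⟨⟨?_, ?_⟩, ?_, ?_⟩ <;> linarith

theorem TD_rg21 : ROK [.l ⟨0, 480, 0, -448⟩ ⟨0, 480, 0, 448⟩, .l ⟨0, -480, 0, 457⟩ ⟨0, 480, 0, 457⟩, .l ⟨0, 480, 0, -448⟩ ⟨0, 0, 250, 219⟩, .l ⟨0, 480, 0, -457⟩ ⟨0, 0, 250, 219⟩, .l ⟨0, 480, 0, -448⟩ ⟨0, 0, -800, -863⟩, .l ⟨0, 480, 0, -457⟩ ⟨0, 0, -800, -863⟩] := by
  refine rok_ds (s := 1) (nlo := 448) (nhi := 457) (q := 480) (by decide) (by decide) (by decide) (by decide) (k := 1) (by decide) (Q := [(0, 250, -219), (0, -800, 863)])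
    (P := [⟨-13762560, 480, 0⟩, ⟨14039040, -480, 0⟩, ⟨-6727680, 0, 250⟩, ⟨26511360, 0, -800⟩]) rfl rfl
    (List.mem_of_getElem? (i := 21) rfl) TD_fr TD_cov ?_
  · intro X Y h
    simp only [List.forall_mem_cons, List.not_mem_nil, false_imp_iff, implies_true, and_true] at h
    push_cast at h ⊢
    obtain ⟨h0, h1, h2, h3⟩ := h
    refine ⟨⟨?_, ?_⟩, ?_, ?_⟩ <;> linarith

theorem TD_rg22 : ROK [.l ⟨0, 480, 0, -395⟩ ⟨0, 480, 0, 395⟩, .l ⟨0, -480, 0, 406⟩ ⟨0, 480, 0, 406⟩, .l ⟨0, 480, 0, -395⟩ ⟨0, -353, 3984, 2272⟩, .l ⟨0, 480, 0, -406⟩ ⟨0, -353, 3984, 2272⟩, .l ⟨0, 480, 0, -395⟩ ⟨0, -157, -1994, -1786⟩, .l ⟨0, 480, 0, -406⟩ ⟨0, -157, -1994, -1786⟩] := by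
  refine rok_ds (s := 1) (nlo := 395) (nhi := 406) (q := 480) (by decide) (by decide) (by decide) (by decide) (k := 1) (by decide) (Q := [(-353, 3984, -2272), (-157, -1994, 1786)])
    (P := [⟨-12134400, 480, 0⟩, ⟨12472320, -480, 0⟩, ⟨-69795840, -353, 3984⟩, ⟨54865920, -157, -1994⟩]) rfl rfl
    (List.mem_of_getElem? (i := 22) rfl) TD_fr TD_cov ?_
  · intro X Y h
    simp only [List.forall_mem_cons, List.not_mem_nil, false_imp_iff, implies_true, and_true] at h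
    push_cast at h ⊢
    obtain ⟨h0, h1, h2, h3⟩ := h
    refine ⟨⟨?_, ?_⟩, ?_, ?_⟩ <;> linarith

theorem TD_rg23 : ROK [.l ⟨0, 480, 0, -394⟩ ⟨0, 480, 0, 394⟩, .l ⟨0, -480, 0, 401⟩ ⟨0, 480, 0, 401⟩, .l ⟨0, 480, 0, -394⟩ ⟨0, 0, 4000, 2579⟩, .l ⟨0, 480, 0, -401⟩ ⟨0, 0, 4000, 2579⟩, .l ⟨0, 480, 0, -394⟩ ⟨0, 0, -1000, -831⟩, .l ⟨0, 480, 0, -401⟩ ⟨0, 0, -1000, -831⟩] := by
  refine rok_ds (s := 1) (nlo := 394) (nhi := 401) (q := 480) (by decide) (by decide) (by decide) (by decide) (k := 1) (by decide) (Q := [(0, 4000, -2579), (0, -1000, 831)])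
    (P := [⟨-12103680, 480, 0⟩, ⟨12318720, -480, 0⟩, ⟨-79226880, 0, 4000⟩, ⟨25528320, 0, -1000⟩]) rfl rfl
    (List.mem_of_getElem? (i := 23) rfl) TD_fr TD_cov ?_
  · intro X Y h
    simp only [List.forall_mem_cons, List.not_mem_nil, false_imp_iff, implies_true, and_true] at h
    push_cast at h ⊢
    obtain ⟨h0, h1, h2, h3⟩ := h
    refine ⟨⟨?_, ?_⟩, ?_, ?_⟩ <;> linarith

end Pool.Agent.TET
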