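import Pool.Agent.Helper38_TET.TD_C

/-!
# MP_c7c9bf_co: certificates, family TD
-/

set_option autoImplicit false
set_option maxRecDepth 100000

namespace Pool.Agent.TET

theorem TD_rg312 : ROK [.l ⟨0, 40, 0, -33⟩ ⟨0, 40, 0, 33⟩, .l ⟨0, -40, 0, 36⟩ ⟨0, 40, 0, 36⟩, .l ⟨0, 40, 0, -33⟩ ⟨0, 0, 4000, 2573⟩, .l ⟨0, 40, 0, -36⟩ ⟨0, 0, 4000, 2573⟩, .l ⟨0, 40, 0, -33⟩ ⟨0, 0, -500, -417⟩, .l ⟨0, 40, 0, -36⟩ ⟨0, 0, -500, -417⟩, .l ⟨0, 40, 0, -33⟩ ⟨0, 995, -3874, -2391⟩, .l ⟨0, 40, 0, -36⟩ ⟨0, 995, -3874, -2391⟩] := by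
  refine rok_ds (s := 1) (nlo := 33) (nhi := 36) (q := 40) (by decide) (by decide) (by decide) (by decide) (k := 1) (by decide) (Q := [(0, 4000, -2573), (0, -500, 417), (995, -3874, 2391)])
    (P := [⟨-1013760, 40, 0⟩, ⟨1105920, -40, 0⟩, ⟨-79042560, 0, 4000⟩, ⟨12810240, 0, -500⟩, ⟨73451520, 995, -3874⟩]) rfl rfl
    (List.mem_of_getElem? (i := 312) rfl) TD_fr TD_cov ?_
  · intro X Y h
    simp only [List.forall_mem_cons, List.not_mem_nil, false_imp_iff, implies_true, and_true] at h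
    push_cast at h ⊢
    obtain ⟨h0, h1, h2, h3, h4⟩ := h
    refine ⟨⟨?_, ?_⟩, ?_, ?_⟩ <;> linarith

theorem TD_rg313 : ROK [.l ⟨0, 40, 0, -35⟩ ⟨0, 40, 0, 35⟩, .l ⟨0, -40, 0, 36⟩ ⟨0, 40, 0, 36⟩, .l ⟨0, 40, 0, -35⟩ ⟨0, -718, 3935, 2910⟩, .l ⟨0, 40, 0, -36⟩ ⟨0, -718, 3935, 2910⟩, .l ⟨0, 40, 0, -35⟩ ⟨0, 718, -3935, -3580⟩, .l ⟨0, 40, 0, -36⟩ ⟨0, 718, -3935, -3580⟩] := by
  refine rok_ds (s := 1) (nlo := 35) (nhi := 36) (q := 40) (by decide) (by decide) (by decide) (by decide) (k := 1) (by decide) (Q := [(-718, 3935, -2910), (718, -3935, 3580)])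
    (P := [⟨-1075200, 40, 0⟩, ⟨1105920, -40, 0⟩, ⟨-89395200, -718, 3935⟩, ⟨109977600, 718, -3935⟩]) rfl rfl
    (List.mem_of_getElem? (i := 313) rfl) TD_fr TD_cov ?_
  · intro X Y h
    simp only [List.forall_mem_cons, List.not_mem_nil, false_imp_iff, implies_true, and_true] at h
    push_cast at h ⊢
    obtain ⟨h0, h1, h2, h3⟩ := h
    refine ⟨⟨?_, ?_⟩, ?_, ?_⟩ <;> linarith

theorem TD_rg314 : ROK [.l ⟨0, 40, 0, -37⟩ ⟨0, 40, 0, 37⟩, .l ⟨0, -40, 0, 39⟩ ⟨0, 40, 0, 39⟩, .l ⟨0, 40, 0, -37⟩ ⟨0, -336, 3986, 3191⟩, .l ⟨0, 40, 0, -39⟩ ⟨0, -336, 3986, 3191⟩, .l ⟨0, 40, 0, -37⟩ ⟨0, 336, -3986, -3981⟩, .l ⟨0, 40, 0, -39⟩ ⟨0, 336, -3986, -3981⟩] := by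
  refine rok_ds (s := 1) (nlo := 37) (nhi := 39) (q := 40) (by decide) (by decide) (by decide) (by decide) (k := 1) (by decide) (Q := [(-336, 3986, -3191), (336, -3986, 3981)])
    (P := [⟨-1136640, 40, 0⟩, ⟨1198080, -40, 0⟩, ⟨-98027520, -336, 3986⟩, ⟨122296320, 336, -3986⟩]) rfl rfl
    (List.mem_of_getElem? (i := 314) rfl) TD_fr TD_cov ?_
  · intro X Y h
    simp only [List.forall_mem_cons, List.not_mem_nil, false_imp_iff, implies_true, and_true] at h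
    push_cast at h ⊢
    obtain ⟨h0, h1, h2, h3⟩ := h
    refine ⟨⟨?_, ?_⟩, ?_, ?_⟩ <;> linarith

theorem TD_rg315 : ROK [.l ⟨0, 20, 0, -14⟩ ⟨0, 20, 0, 14⟩, .l ⟨0, -20, 0, 15⟩ ⟨0, 20, 0, 15⟩, .l ⟨0, 20, 0, -14⟩ ⟨0, 0, 1000, 773⟩, .l ⟨0, 20, 0, -15⟩ ⟨0, 0, 1000, 773⟩, .l ⟨0, 20, 0, -14⟩ ⟨0, 0, -50, -41⟩, .l ⟨0, 20, 0, -15⟩ ⟨0, 0, -50, -41⟩] := by
  refine rok_ds (s := 1) (nlo := 14) (nhi := 15) (q := 20) (by decide) (by decide) (by decide) (by decide) (k := 1) (by decide) (Q := [(0, 1000, -773), (0, -50, 41)])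
    (P := [⟨-430080, 20, 0⟩, ⟨460800, -20, 0⟩, ⟨-23746560, 0, 1000⟩, ⟨1259520, 0, -50⟩]) rfl rfl
    (List.mem_of_getElem? (i := 315) rfl) TD_fr TD_cov ?_
  · intro X Y h
    simp only [List.forall_mem_cons, List.not_mem_nil, false_imp_iff, implies_true, and_true] at h
    push_cast at h ⊢
    obtain ⟨h0, h1, h2, h3⟩ := h
    refine ⟨⟨?_, ?_⟩, ?_, ?_⟩ <;> linarith

theorem TD_rg316 : ROK [.l ⟨0, 240, 0, -173⟩ ⟨0, 240, 0, 173⟩, .l ⟨0, -240, 0, 176⟩ ⟨0, 240, 0, 176⟩, .l ⟨0, 240, 0, -173⟩ ⟨0, -34, 4000, -6043⟩, .l ⟨0, 240, 0, -176⟩ ⟨0, -34, 4000, -6043⟩, .l ⟨0, 240, 0, -173⟩ ⟨0, 2547, -3084, -677⟩, .l ⟨0, 240, 0, -176⟩ ⟨0, 2547, -3084, -677⟩, .l ⟨0, 240, 0, -173⟩ ⟨0, 2837, 2820, 4164⟩, .l ⟨0, 240, 0, -176⟩ ⟨0, 2837, 2820, 4164⟩] := by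
  refine rok_ds (s := 1) (nlo := 173) (nhi := 176) (q := 240) (by decide) (by decide) (by decide) (by decide) (k := 1) (by decide) (Q := [(-34, 4000, 6043), (2547, -3084, 677), (2837, 2820, -4164)])
    (P := [⟨-5314560, 240, 0⟩, ⟨5406720, -240, 0⟩, ⟨185640960, -34, 4000⟩, ⟨20797440, 2547, -3084⟩, ⟨-127918080, 2837, 2820⟩]) rfl rfl
    (List.mem_of_getElem? (i := 316) rfl) TD_fr TD_cov ?_
  · intro X Y h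
    simp only [List.forall_mem_cons, List.not_mem_nil, false_imp_iff, implies_true, and_true] at h
    push_cast at h ⊢
    obtain ⟨h0, h1, h2, h3, h4⟩ := h
    refine ⟨⟨?_, ?_⟩, ?_, ?_⟩ <;> linarith

theorem TD_rg317 : ROK [.l ⟨0, 80, 0, -67⟩ ⟨0, 80, 0, 67⟩, .l ⟨0, -80, 0, 69⟩ ⟨0, 80, 0, 69⟩, .l ⟨0, 80, 0, -67⟩ ⟨0, 0, 2000, 1049⟩, .l ⟨0, 80, 0, -69⟩ ⟨0, 0, 2000, 1049⟩, .l ⟨0, 80, 0, -67⟩ ⟨0, 538, -3964, -2851⟩, .l ⟨0, 80, 0, -69⟩ ⟨0, 538, -3964, -2851⟩, .l ⟨0, 80, 0, -67⟩ ⟨0, -1835, -796, -2227⟩, .l ⟨0, 80, 0, -69⟩ ⟨0, -1835, -796, -2227⟩] := by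
  refine rok_ds (s := 1) (nlo := 67) (nhi := 69) (q := 80) (by decide) (by decide) (by decide) (by decide) (k := 1) (by decide) (Q := [(0, 2000, -1049), (538, -3964, 2851), (-1835, -796, 2227)])
    (P := [⟨-2058240, 80, 0⟩, ⟨2119680, -80, 0⟩, ⟨-32225280, 0, 2000⟩, ⟨87582720, 538, -3964⟩, ⟨68413440, -1835, -796⟩]) rfl rfl
    (List.mem_of_getElem? (i := 317) rfl) TD_fr TD_cov ?_
  · intro X Y h
    simp only [List.forall_mem_cons, List.not_mem_nil, false_imp_iff, implies_true, and_true] at h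
    push_cast at h ⊢
    obtain ⟨h0, h1, h2, h3, h4⟩ := h
    refine ⟨⟨?_, ?_⟩, ?_, ?_⟩ <;> linarith

theorem TD_rg318 : ROK [.l ⟨0, 80, 0, -67⟩ ⟨0, 80, 0, 67⟩, .l ⟨0, -80, 0, 70⟩ ⟨0, 80, 0, 70⟩, .l ⟨0, 80, 0, -67⟩ ⟨0, 0, 4000, 3601⟩, .l ⟨0, 80, 0, -70⟩ ⟨0, 0, 4000, 3601⟩, .l ⟨0, 80, 0, -67⟩ ⟨0, -1577, -3676, -5220⟩, .l ⟨0, 80, 0, -70⟩ ⟨0, -1577, -3676, -5220⟩, .l ⟨0, 80, 0, -67⟩ ⟨0, 2787, 2869, 5001⟩, .l ⟨0, 80, 0, -70⟩ ⟨0, 2787, 2869, 5001⟩] := by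
  refine rok_ds (s := 1) (nlo := 67) (nhi := 70) (q := 80) (by decide) (by decide) (by decide) (by decide) (k := 1) (by decide) (Q := [(0, 4000, -3601), (-1577, -3676, 5220), (2787, 2869, -5001)])
    (P := [⟨-2058240, 80, 0⟩, ⟨2150400, -80, 0⟩, ⟨-110622720, 0, 4000⟩, ⟨160358400, -1577, -3676⟩, ⟨-153630720, 2787, 2869⟩]) rfl rfl
    (List.mem_of_getElem? (i := 318) rfl) TD_fr TD_cov ?_
  · intro X Y h
    simp only [List.forall_mem_cons, List.not_mem_nil, false_imp_iff, implies_true, and_true] at h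
    push_cast at h ⊢
    obtain ⟨h0, h1, h2, h3, h4⟩ := h
    refine ⟨⟨?_, ?_⟩, ?_, ?_⟩ <;> linarith

theorem TD_rg319 : ROK [.l ⟨0, 960, 0, -872⟩ ⟨0, 960, 0, 872⟩, .l ⟨0, -960, 0, 879⟩ ⟨0, 960, 0, 879⟩, .l ⟨0, 960, 0, -872⟩ ⟨0, 0, 800, 709⟩, .l ⟨0, 960, 0, -879⟩ ⟨0, 0, 800, 709⟩, .l ⟨0, 960, 0, -872⟩ ⟨0, 0, -800, -861⟩, .l ⟨0, 960, 0, -879⟩ ⟨0, 0, -800, -861⟩] := by
  refine rok_ds (s := 1) (nlo := 872) (nhi := 879) (q := 960) (by decide) (by decide) (by decide) (by decide) (k := 1) (by decide) (Q := [(0, 800, -709), (0, -800, 861)])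
    (P := [⟨-26787840, 960, 0⟩, ⟨27002880, -960, 0⟩, ⟨-21780480, 0, 800⟩, ⟨26449920, 0, -800⟩]) rfl rfl
    (List.mem_of_getElem? (i := 319) rfl) TD_fr TD_cov ?_
  · intro X Y h
    simp only [List.forall_mem_cons, List.not_mem_nil, false_imp_iff, implies_true, and_true] at h
    push_cast at h ⊢
    obtain ⟨h0, h1, h2, h3⟩ := h
    refine ⟨⟨?_, ?_⟩, ?_, ?_⟩ <;> linarith

theorem TD_rg320 : ROK [.l ⟨0, 80, 0, -55⟩ ⟨0, 80, 0, 55⟩, .l ⟨0, -80, 0, 59⟩ ⟨0, 80, 0, 59⟩, .l ⟨0, 80, 0, -55⟩ ⟨0, 2559, 3074, 4174⟩, .l ⟨0, 80, 0, -59⟩ ⟨0, 2559, 3074, 4174⟩, .l ⟨0, 80, 0, -55⟩ ⟨0, 793, -3921, -2645⟩, .l ⟨0, 80, 0, -59⟩ ⟨0, 793, -3921, -2645⟩] := by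
  refine rok_ds (s := 1) (nlo := 55) (nhi := 59) (q := 80) (by decide) (by decide) (by decide) (by decide) (k := 1) (by decide) (Q := [(2559, 3074, -4174), (793, -3921, 2645)])
    (P := [⟨-1689600, 80, 0⟩, ⟨1812480, -80, 0⟩, ⟨-128225280, 2559, 3074⟩, ⟨81254400, 793, -3921⟩]) rfl rfl
    (List.mem_of_getElem? (i := 320) rfl) TD_fr TD_cov ?_
  · intro X Y h
    simp only [List.forall_mem_cons, List.not_mem_nil, false_imp_iff, implies_true, and_true] at h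
    push_cast at h ⊢
    obtain ⟨h0, h1, h2, h3⟩ := h
    refine ⟨⟨?_, ?_⟩, ?_, ?_⟩ <;> linarith

theorem TD_rg321 : ROK [.l ⟨0, 80, 0, -59⟩ ⟨0, 80, 0, 59⟩, .l ⟨0, -80, 0, 62⟩ ⟨0, 80, 0, 62⟩, .l ⟨0, 80, 0, -59⟩ ⟨0, 1655, 3642, 3852⟩, .l ⟨0, 80, 0, -62⟩ ⟨0, 1655, 3642, 3852⟩, .l ⟨0, 80, 0, -59⟩ ⟨0, 2567, -3068, -545⟩, .l ⟨0, 80, 0, -62⟩ ⟨0, 2567, -3068, -545⟩, .l ⟨0, 80, 0, -59⟩ ⟨0, 3189, 2414, 4130⟩, .l ⟨0, 80, 0, -62⟩ ⟨0, 3189, 2414, 4130⟩] := by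
  refine rok_ds (s := 1) (nlo := 59) (nhi := 62) (q := 80) (by decide) (by decide) (by decide) (by decide) (k := 1) (by decide) (Q := [(1655, 3642, -3852), (2567, -3068, 545), (3189, 2414, -4130)])
    (P := [⟨-1812480, 80, 0⟩, ⟨1904640, -80, 0⟩, ⟨-118333440, 1655, 3642⟩, ⟨16742400, 2567, -3068⟩, ⟨-126873600, 3189, 2414⟩]) rfl rfl
    (List.mem_of_getElem? (i := 321) rfl) TD_fr TD_cov ?_
  · intro X Y h
    simp only [List.forall_mem_cons, List.not_mem_nil, false_imp_iff, implies_true, and_true] at h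
    push_cast at h ⊢
    obtain ⟨h0, h1, h2, h3, h4⟩ := h
    refine ⟨⟨?_, ?_⟩, ?_, ?_⟩ <;> linarith

theorem TD_rg322 : ROK [.l ⟨0, 960, 0, -812⟩ ⟨0, 960, 0, 812⟩, .l ⟨0, -960, 0, 819⟩ ⟨0, 960, 0, 819⟩, .l ⟨0, 960, 0, -812⟩ ⟨0, 0, 800, 417⟩, .l ⟨0, 960, 0, -819⟩ ⟨0, 0, 800, 417⟩, .l ⟨0, 960, 0, -812⟩ ⟨0, -541, -3963, -3764⟩, .l ⟨0, 960, 0, -819⟩ ⟨0, -541, -3963, -3764⟩] := by
  refine rok_ds (s := 1) (nlo := 812) (nhi := 819) (q := 960) (by decide) (by decide) (by decide) (by decide) (k := 1) (by decide) (Q := [(0, 800, -417), (-541, -3963, 3764)])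
    (P := [⟨-24944640, 960, 0⟩, ⟨25159680, -960, 0⟩, ⟨-12810240, 0, 800⟩, ⟨115630080, -541, -3963⟩]) rfl rfl
    (List.mem_of_getElem? (i := 322) rfl) TD_fr TD_cov ?_
  · intro X Y h
    simp only [List.forall_mem_cons, List.not_mem_nil, false_imp_iff, implies_true, and_true] at h
    push_cast at h ⊢
    obtain ⟨h0, h1, h2, h3⟩ := h
    refine ⟨⟨?_, ?_⟩, ?_, ?_⟩ <;> linarith

theorem TD_rg323 : ROK [.l ⟨0, 480, 0, -437⟩ ⟨0, 480, 0, 437⟩, .l ⟨0, -480, 0, 441⟩ ⟨0, 480, 0, 441⟩, .l ⟨0, 480, 0, -437⟩ ⟨0, 321, 947, 1130⟩, .l ⟨0, 480, 0, -441⟩ ⟨0, 321, 947, 1130⟩, .l ⟨0, 480, 0, -437⟩ ⟨0, 1570, -3679, -2524⟩, .l ⟨0, 480, 0, -441⟩ ⟨0, 1570, -3679, -2524⟩, .l ⟨0, 480, 0, -437⟩ ⟨0, -326, -3987, -4590⟩, .l ⟨0, 480, 0, -441⟩ ⟨0, -326, -3987, -4590⟩] := by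
  refine rok_ds (s := 1) (nlo := 437) (nhi := 441) (q := 480) (by decide) (by decide) (by decide) (by decide) (k := 1) (by decide) (Q := [(321, 947, -1130), (1570, -3679, 2524), (-326, -3987, 4590)])
    (P := [⟨-13424640, 480, 0⟩, ⟨13547520, -480, 0⟩, ⟨-34713600, 321, 947⟩, ⟨77537280, 1570, -3679⟩, ⟨141004800, -326, -3987⟩]) rfl rfl
    (List.mem_of_getElem? (i := 323) rfl) TD_fr TD_cov ?_
  · intro X Y h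
    simp only [List.forall_mem_cons, List.not_mem_nil, false_imp_iff, implies_true, and_true] at h
    push_cast at h ⊢
    obtain ⟨h0, h1, h2, h3, h4⟩ := h
    refine ⟨⟨?_, ?_⟩, ?_, ?_⟩ <;> linarith

theorem TD_rg324 : ROK [.l ⟨0, 960, 0, -885⟩ ⟨0, 960, 0, 885⟩, .l ⟨0, -960, 0, 893⟩ ⟨0, 960, 0, 893⟩, .l ⟨0, 960, 0, -885⟩ ⟨0, 471, 1944, 2144⟩, .l ⟨0, 960, 0, -893⟩ ⟨0, 471, 1944, 2144⟩, .l ⟨0, 960, 0, -885⟩ ⟨0, 76, -3999, -4240⟩, .l ⟨0, 960, 0, -893⟩ ⟨0, 76, -3999, -4240⟩] := by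
  refine rok_ds (s := 1) (nlo := 885) (nhi := 893) (q := 960) (by decide) (by decide) (by decide) (by decide) (k := 1) (by decide) (Q := [(471, 1944, -2144), (76, -3999, 4240)])
    (P := [⟨-27187200, 960, 0⟩, ⟨27432960, -960, 0⟩, ⟨-65863680, 471, 1944⟩, ⟨130252800, 76, -3999⟩]) rfl rfl
    (List.mem_of_getElem? (i := 324) rfl) TD_fr TD_cov ?_
  · intro X Y h
    simp only [List.forall_mem_cons, List.not_mem_nil, false_imp_iff, implies_true, and_true] at h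
    push_cast at h ⊢
    obtain ⟨h0, h1, h2, h3⟩ := h
    refine ⟨⟨?_, ?_⟩, ?_, ?_⟩ <;> linarith

theorem TD_rg325 : ROK [.l ⟨0, 960, 0, -689⟩ ⟨0, 960, 0, 689⟩, .l ⟨0, -960, 0, 699⟩ ⟨0, 960, 0, 699⟩, .l ⟨0, 960, 0, -689⟩ ⟨0, 1062, 3856, -8321⟩, .l ⟨0, 960, 0, -699⟩ ⟨0, 1062, 3856, -8321⟩, .l ⟨0, 960, 0, -689⟩ ⟨0, -531, -1928, -1971⟩, .l ⟨0, 960, 0, -699⟩ ⟨0, -531, -1928, -1971⟩, .l ⟨0, 960, 0, -689⟩ ⟨0, 2757, 2898, 4165⟩, .l ⟨0, 960, 0, -699⟩ ⟨0, 2757, 2898, 4165⟩] := by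
  refine rok_ds (s := 1) (nlo := 689) (nhi := 699) (q := 960) (by decide) (by decide) (by decide) (by decide) (k := 1) (by decide) (Q := [(1062, 3856, 8321), (-531, -1928, 1971), (2757, 2898, -4165)])
    (P := [⟨-21166080, 960, 0⟩, ⟨21473280, -960, 0⟩, ⟨255621120, 1062, 3856⟩, ⟨60549120, -531, -1928⟩, ⟨-127948800, 2757, 2898⟩]) rfl rfl
    (List.mem_of_getElem? (i := 325) rfl) TD_fr TD_cov ?_
  · intro X Y h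
    simp only [List.forall_mem_cons, List.not_mem_nil, false_imp_iff, implies_true, and_true] at h
    push_cast at h ⊢
    obtain ⟨h0, h1, h2, h3, h4⟩ := h
    refine ⟨⟨?_, ?_⟩, ?_, ?_⟩ <;> linarith

theorem TD_rg326 : ROK [.l ⟨0, 480, 0, -449⟩ ⟨0, 480, 0, 449⟩, .l ⟨0, -480, 0, 459⟩ ⟨0, 480, 0, 459⟩, .l ⟨0, 480, 0, -449⟩ ⟨0, 0, 250, -481⟩, .l ⟨0, 480, 0, -459⟩ ⟨0, 0, 250, -481⟩, .l ⟨0, 480, 0, -449⟩ ⟨0, 0, -800, -863⟩, .l ⟨0, 480, 0, -459⟩ ⟨0, 0, -800, -863⟩, .l ⟨0, 480, 0, -449⟩ ⟨0, 2909, 2745, 5151⟩, .l ⟨0, 480, 0, -459⟩ ⟨0, 2909, 2745, 5151⟩] := by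
  refine rok_ds (s := 1) (nlo := 449) (nhi := 459) (q := 480) (by decide) (by decide) (by decide) (by decide) (k := 1) (by decide) (Q := [(0, 250, 481), (0, -800, 863), (2909, 2745, -5151)])
    (P := [⟨-13793280, 480, 0⟩, ⟨14100480, -480, 0⟩, ⟨14776320, 0, 250⟩, ⟨26511360, 0, -800⟩, ⟨-158238720, 2909, 2745⟩]) rfl rfl
    (List.mem_of_getElem? (i := 326) rfl) TD_fr TD_cov ?_
  · intro X Y h
    simp only [List.forall_mem_cons, List.not_mem_nil, false_imp_iff, implies_true, and_true] at h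
    push_cast at h ⊢
    obtain ⟨h0, h1, h2, h3, h4⟩ := h
    refine ⟨⟨?_, ?_⟩, ?_, ?_⟩ <;> linarith

theorem TD_rg327 : ROK [.l ⟨0, 80, 0, -65⟩ ⟨0, 80, 0, 65⟩, .l ⟨0, -80, 0, 68⟩ ⟨0, 80, 0, 68⟩, .l ⟨0, 80, 0, -65⟩ ⟨0, -2131, 3385, 482⟩, .l ⟨0, 80, 0, -68⟩ ⟨0, -2131, 3385, 482⟩, .l ⟨0, 80, 0, -65⟩ ⟨0, -1738, -3603, -4439⟩, .l ⟨0, 80, 0, -68⟩ ⟨0, -1738, -3603, -4439⟩, .l ⟨0, 80, 0, -65⟩ ⟨0, 1653, -3643, -1665⟩, .l ⟨0, 80, 0, -68⟩ ⟨0, 1653, -3643, -1665⟩] := by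
  refine rok_ds (s := 1) (nlo := 65) (nhi := 68) (q := 80) (by decide) (by decide) (by decide) (by decide) (k := 1) (by decide) (Q := [(-2131, 3385, -482), (-1738, -3603, 4439), (1653, -3643, 1665)])
    (P := [⟨-1996800, 80, 0⟩, ⟨2088960, -80, 0⟩, ⟨-14807040, -2131, 3385⟩, ⟨136366080, -1738, -3603⟩, ⟨51148800, 1653, -3643⟩]) rfl rfl
    (List.mem_of_getElem? (i := 327) rfl) TD_fr TD_cov ?_
  · intro X Y h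
    simp only [List.forall_mem_cons, List.not_mem_nil, false_imp_iff, implies_true, and_true] at h
    push_cast at h ⊢
    obtain ⟨h0, h1, h2, h3, h4⟩ := h
    refine ⟨⟨?_, ?_⟩, ?_, ?_⟩ <;> linarith

theorem TD_rg328 : ROK [.l ⟨0, 10, 0, -9⟩ ⟨0, 10, 0, 9⟩, .l ⟨0, -10, 0, 10⟩ ⟨0, 10, 0, 10⟩, .l ⟨0, 10, 0, -9⟩ ⟨0, 0, 1000, -1931⟩, .l ⟨0, 10, 0, -10⟩ ⟨0, 0, 1000, -1931⟩, .l ⟨0, 10, 0, -9⟩ ⟨0, 0, -4000, -4311⟩, .l ⟨0, 10, 0, -10⟩ ⟨0, 0, -4000, -4311⟩, .l ⟨0, 10, 0, -9⟩ ⟨0, 601, 3955, 4071⟩, .l ⟨0, 10, 0, -10⟩ ⟨0, 601, 3955, 4071⟩, .l ⟨0, 10, 0, -9⟩ ⟨0, 589, -3956, -3717⟩, .l ⟨0, 10, 0, -10⟩ ⟨0, 589, -3956, -3717⟩] := by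
  refine rok_ds (s := 1) (nlo := 9) (nhi := 10) (q := 10) (by decide) (by decide) (by decide) (by decide) (k := 1) (by decide) (Q := [(0, 1000, 1931), (0, -4000, 4311), (601, 3955, -4071), (589, -3956, 3717)])
    (P := [⟨-276480, 10, 0⟩, ⟨307200, -10, 0⟩, ⟨59320320, 0, 1000⟩, ⟨132433920, 0, -4000⟩, ⟨-125061120, 601, 3955⟩, ⟨114186240, 589, -3956⟩]) rfl rfl
    (List.mem_of_getElem? (i := 328) rfl) TD_fr TD_cov ?_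
  · intro X Y h
    simp only [List.forall_mem_cons, List.not_mem_nil, false_imp_iff, implies_true, and_true] at h
    push_cast at h ⊢
    obtain ⟨h0, h1, h2, h3, h4, h5⟩ := h
    refine ⟨⟨?_, ?_⟩, ?_, ?_⟩ <;> linarith

theorem TD_rg329 : ROK [.l ⟨0, 960, 0, -811⟩ ⟨0, 960, 0, 811⟩, .l ⟨0, -960, 0, 818⟩ ⟨0, 960, 0, 818⟩, .l ⟨0, 960, 0, -811⟩ ⟨0, 0, 2000, -3533⟩, .l ⟨0, 960, 0, -818⟩ ⟨0, 0, 2000, -3533⟩, .l ⟨0, 960, 0, -811⟩ ⟨0, -98, -3999, -3419⟩, .l ⟨0, 960, 0, -818⟩ ⟨0, -98, -3999, -3419⟩, .l ⟨0, 960, 0, -811⟩ ⟨0, -622, 3951, 1538⟩, .l ⟨0, 960, 0, -818⟩ ⟨0, -622, 3951, 1538⟩] := by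
  refine rok_ds (s := 1) (nlo := 811) (nhi := 818) (q := 960) (by decide) (by decide) (by decide) (by decide) (k := 1) (by decide) (Q := [(0, 2000, 3533), (-98, -3999, 3419), (-622, 3951, -1538)])
    (P := [⟨-24913920, 960, 0⟩, ⟨25128960, -960, 0⟩, ⟨108533760, 0, 2000⟩, ⟨105031680, -98, -3999⟩, ⟨-47247360, -622, 3951⟩]) rfl rfl
    (List.mem_of_getElem? (i := 329) rfl) TD_fr TD_cov ?_
  · intro X Y h
    simp only [List.forall_mem_cons, List.not_mem_nil, false_imp_iff, implies_true, and_true] at h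
    push_cast at h ⊢
    obtain ⟨h0, h1, h2, h3, h4⟩ := h
    refine ⟨⟨?_, ?_⟩, ?_, ?_⟩ <;> linarith

theorem TD_rg330 : ROK [.l ⟨0, 480, 0, -342⟩ ⟨0, 480, 0, 342⟩, .l ⟨0, -480, 0, 349⟩ ⟨0, 480, 0, 349⟩, .l ⟨0, 480, 0, -342⟩ ⟨0, 0, 250, 187⟩, .l ⟨0, 480, 0, -349⟩ ⟨0, 0, 250, 187⟩, .l ⟨0, 480, 0, -342⟩ ⟨0, -2232, -3319, -4325⟩, .l ⟨0, 480, 0, -349⟩ ⟨0, -2232, -3319, -4325⟩, .l ⟨0, 480, 0, -342⟩ ⟨0, 3141, 2477, 4127⟩, .l ⟨0, 480, 0, -349⟩ ⟨0, 3141, 2477, 4127⟩] := by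
  refine rok_ds (s := 1) (nlo := 342) (nhi := 349) (q := 480) (by decide) (by decide) (by decide) (by decide) (k := 1) (by decide) (Q := [(0, 250, -187), (-2232, -3319, 4325), (3141, 2477, -4127)])
    (P := [⟨-10506240, 480, 0⟩, ⟨10721280, -480, 0⟩, ⟨-5744640, 0, 250⟩, ⟨132864000, -2232, -3319⟩, ⟨-126781440, 3141, 2477⟩]) rfl rfl
    (List.mem_of_getElem? (i := 330) rfl) TD_fr TD_cov ?_
  · intro X Y h
    simp only [List.forall_mem_cons, List.not_mem_nil, false_imp_iff, implies_true, and_true] at h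
    push_cast at h ⊢
    obtain ⟨h0, h1, h2, h3, h4⟩ := h
    refine ⟨⟨?_, ?_⟩, ?_, ?_⟩ <;> linarith

theorem TD_rg331 : ROK [.l ⟨0, 480, 0, -407⟩ ⟨0, 480, 0, 407⟩, .l ⟨0, -480, 0, 416⟩ ⟨0, 480, 0, 416⟩, .l ⟨0, 480, 0, -407⟩ ⟨0, 0, 160, -347⟩, .l ⟨0, 480, 0, -416⟩ ⟨0, 0, 160, -347⟩, .l ⟨0, 480, 0, -407⟩ ⟨0, 0, -4000, -3343⟩, .l ⟨0, 480, 0, -416⟩ ⟨0, 0, -4000, -3343⟩, .l ⟨0, 480, 0, -407⟩ ⟨0, 3331, 2214, 4021⟩, .l ⟨0, 480, 0, -416⟩ ⟨0, 3331, 2214, 4021⟩, .l ⟨0, 480, 0, -407⟩ ⟨0, 1762, -3591, -1482⟩, .l ⟨0, 480, 0, -416⟩ ⟨0, 1762, -3591, -1482⟩] := by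
  refine rok_ds (s := 1) (nlo := 407) (nhi := 416) (q := 480) (by decide) (by decide) (by decide) (by decide) (k := 1) (by decide) (Q := [(0, 160, 347), (0, -4000, 3343), (3331, 2214, -4021), (1762, -3591, 1482)])
    (P := [⟨-12503040, 480, 0⟩, ⟨12779520, -480, 0⟩, ⟨10659840, 0, 160⟩, ⟨102696960, 0, -4000⟩, ⟨-123525120, 3331, 2214⟩, ⟨45527040, 1762, -3591⟩]) rfl rfl
    (List.mem_of_getElem? (i := 331) rfl) TD_fr TD_cov ?_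
  · intro X Y h
    simp only [List.forall_mem_cons, List.not_mem_nil, false_imp_iff, implies_true, and_true] at h
    push_cast at h ⊢
    obtain ⟨h0, h1, h2, h3, h4, h5⟩ := h
    refine ⟨⟨?_, ?_⟩, ?_, ?_⟩ <;> linarith

theorem TD_rg332 : ROK [.l ⟨0, 20, 0, -17⟩ ⟨0, 20, 0, 17⟩, .l ⟨0, -20, 0, 20⟩ ⟨0, 20, 0, 20⟩, .l ⟨0, 20, 0, -17⟩ ⟨0, 2675, 2974, 3903⟩, .l ⟨0, 20, 0, -20⟩ ⟨0, 2675, 2974, 3903⟩, .l ⟨0, 20, 0, -17⟩ ⟨0, 2003, -3462, -864⟩, .l ⟨0, 20, 0, -20⟩ ⟨0, 2003, -3462, -864⟩, .l ⟨0, 20, 0, -17⟩ ⟨0, 227, 3994, 2198⟩, .l ⟨0, 20, 0, -20⟩ ⟨0, 227, 3994, 2198⟩] := by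
  refine rok_ds (s := 1) (nlo := 17) (nhi := 20) (q := 20) (by decide) (by decide) (by decide) (by decide) (k := 1) (by decide) (Q := [(2675, 2974, -3903), (2003, -3462, 864), (227, 3994, -2198)])
    (P := [⟨-522240, 20, 0⟩, ⟨614400, -20, 0⟩, ⟨-119900160, 2675, 2974⟩, ⟨26542080, 2003, -3462⟩, ⟨-67522560, 227, 3994⟩]) rfl rfl
    (List.mem_of_getElem? (i := 332) rfl) TD_fr TD_cov ?_
  · intro X Y h
    simp only [List.forall_mem_cons, List.not_mem_nil, false_imp_iff, implies_true, and_true] at h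
    push_cast at h ⊢
    obtain ⟨h0, h1, h2, h3, h4⟩ := h
    refine ⟨⟨?_, ?_⟩, ?_, ?_⟩ <;> linarith

theorem TD_rg333 : ROK [.l ⟨0, 480, 0, -423⟩ ⟨0, 480, 0, 423⟩, .l ⟨0, -480, 0, 433⟩ ⟨0, 480, 0, 433⟩, .l ⟨0, 480, 0, -423⟩ ⟨0, -387, 1962, 1421⟩, .l ⟨0, 480, 0, -433⟩ ⟨0, -387, 1962, 1421⟩, .l ⟨0, 480, 0, -423⟩ ⟨0, 387, -1962, -1759⟩, .l ⟨0, 480, 0, -433⟩ ⟨0, 387, -1962, -1759⟩] := by
  refine rok_ds (s := 1) (nlo := 423) (nhi := 433) (q := 480) (by decide) (by decide) (by decide) (by decide) (k := 1) (by decide) (Q := [(-387, 1962, -1421), (387, -1962, 1759)])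
    (P := [⟨-12994560, 480, 0⟩, ⟨13301760, -480, 0⟩, ⟨-43653120, -387, 1962⟩, ⟨54036480, 387, -1962⟩]) rfl rfl
    (List.mem_of_getElem? (i := 333) rfl) TD_fr TD_cov ?_
  · intro X Y h
    simp only [List.forall_mem_cons, List.not_mem_nil, false_imp_iff, implies_true, and_true] at h
    push_cast at h ⊢
    obtain ⟨h0, h1, h2, h3⟩ := h
    refine ⟨⟨?_, ?_⟩, ?_, ?_⟩ <;> linarith

theorem TD_rg334 : ROK [.l ⟨0, 960, 0, -813⟩ ⟨0, 960, 0, 813⟩, .l ⟨0, -960, 0, 821⟩ ⟨0, 960, 0, 821⟩, .l ⟨0, 960, 0, -813⟩ ⟨0, -363, 3983, 1768⟩, .l ⟨0, 960, 0, -821⟩ ⟨0, -363, 3983, 1768⟩, .l ⟨0, 960, 0, -813⟩ ⟨0, 363, -3983, -3015⟩, .l ⟨0, 960, 0, -821⟩ ⟨0, 363, -3983, -3015⟩] := by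
  refine rok_ds (s := 1) (nlo := 813) (nhi := 821) (q := 960) (by decide) (by decide) (by decide) (by decide) (k := 1) (by decide) (Q := [(-363, 3983, -1768), (363, -3983, 3015)])
    (P := [⟨-24975360, 960, 0⟩, ⟨25221120, -960, 0⟩, ⟨-54312960, -363, 3983⟩, ⟨92620800, 363, -3983⟩]) rfl rfl
    (List.mem_of_getElem? (i := 334) rfl) TD_fr TD_cov ?_
  · intro X Y h
    simp only [List.forall_mem_cons, List.not_mem_nil, false_imp_iff, implies_true, and_true] at h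
    push_cast at h ⊢
    obtain ⟨h0, h1, h2, h3⟩ := h
    refine ⟨⟨?_, ?_⟩, ?_, ?_⟩ <;> linarith

theorem TD_rg335 : ROK [.l ⟨0, 960, 0, -824⟩ ⟨0, 960, 0, 824⟩, .l ⟨0, -960, 0, 831⟩ ⟨0, 960, 0, 831⟩, .l ⟨0, 960, 0, -824⟩ ⟨0, 0, 200, 103⟩, .l ⟨0, 960, 0, -831⟩ ⟨0, 0, 200, 103⟩, .l ⟨0, 960, 0, -824⟩ ⟨0, 0, -200, -167⟩, .l ⟨0, 960, 0, -831⟩ ⟨0, 0, -200, -167⟩] := by
  refine rok_ds (s := 1) (nlo := 824) (nhi := 831) (q := 960) (by decide) (by decide) (by decide) (by decide) (k := 1) (by decide) (Q := [(0, 200, -103), (0, -200, 167)])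
    (P := [⟨-25313280, 960, 0⟩, ⟨25528320, -960, 0⟩, ⟨-3164160, 0, 200⟩, ⟨5130240, 0, -200⟩]) rfl rfl
    (List.mem_of_getElem? (i := 335) rfl) TD_fr TD_cov ?_
  · intro X Y h
    simp only [List.forall_mem_cons, List.not_mem_nil, false_imp_iff, implies_true, and_true] at h
    push_cast at h ⊢
    obtain ⟨h0, h1, h2, h3⟩ := h
    refine ⟨⟨?_, ?_⟩, ?_, ?_⟩ <;> linarith

end Pool.Agent.TET
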