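import Pool.Agent.Helper38_TET.TE_M
import Pool.Agent.Helper38_TET.TE_L
import Pool.Agent.Helper38_TET.TE_19
import Pool.Agent.Helper38_TET.TE_20
import Pool.Agent.Helper38_TET.TE_21
import Pool.Agent.Helper38_TET.TE_50
import Pool.Agent.Helper38_TET.TE_51
import Pool.Agent.Helper38_TET.TE_88
import Pool.Agent.Helper38_TET.TE_89
import Pool.Agent.Helper38_TET.TE_90
import Pool.Agent.Helper38_TET.TE_91
import Pool.Agent.Helper38_TET.TE_99
import Pool.Agent.Helper38_TET.TE_115
import Pool.Agent.Helper38_TET.TE_117
import Pool.Agent.Helper38_TET.TE_123
import Pool.Agent.Helper38_TET.TE_129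
import Pool.Agent.Helper38_TET.TE_132

/-!
# MP_c7c9bf_co: certificates, family TE
-/

set_option autoImplicit false
set_option maxRecDepth 100000

namespace Pool.Agent.TET

theorem TE_u16 : CovZ TE_M (toL (selN TE_LN 1496577676626844920548844817897693583685708324798624)) [0, 7, 6, 1] (5120, 17920) (6400, 19200) (5120, 20480) :=
    (CovZ.n2 (5120, 19200) (by decide +kernel)
     (CovZ.n2 (5760, 19840) (by decide +kernel)
      (CovZ.n2 (5760, 19200) (by decide +kernel)
       (CovZ.badM (by decide +kernel))
       (CovZ.badM (by decide +kernel)))
      (CovZ.n1 (5120, 19840) (by decide +kernel)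
       (CovZ.n2 (5440, 20160) (by decide +kernel)
        (CovZ.subM 332308266597436020548402015520161952 (by decide +kernel)
         (CovZ.n2 (5440, 19840) (by decide +kernel)
          (CovZ.n2 (5280, 20000) (by decide +kernel)
           (CovZ.n2 (5440, 20000) (by decide +kernel)
            (CovZ.n2 (5360, 19920) (by decide +kernel)
             (CovZ.n2 (5360, 20000) (by decide +kernel)
              (CovZ.n2 (5400, 19960) (by decide +kernel)
               (CovZ.leaf K2_ok TE_l13282 _)
               (CovZ.leaf K2_ok TE_l13283 _))
              (CovZ.n1 (5320, 19960) (by decide +kernel)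
               (CovZ.leaf K2_ok TE_l13284 _)
               (CovZ.leaf K2_ok TE_l13285 _)))
             (CovZ.badM (by decide +kernel)))
            (CovZ.n1 (5360, 20080) (by decide +kernel)
             (CovZ.n2 (5440, 20080) (by decide +kernel)
              (CovZ.leaf K2_ok TE_l13286 _)
              (CovZ.leaf K2_ok TE_l13287 _))
             (CovZ.n1 (5360, 20000) (by decide +kernel)
              (CovZ.leaf K2_ok TE_l13288 _)
              (CovZ.leaf K2_ok TE_l13289 _))))
           (CovZ.n1 (5280, 19840) (by decide +kernel)
            (CovZ.n2 (5200, 19920) (by decide +kernel)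
             (CovZ.n2 (5280, 19920) (by decide +kernel)
              (CovZ.n2 (5240, 19880) (by decide +kernel)
               (CovZ.leaf K2_ok TE_l13290 _)
               (CovZ.leaf K2_ok TE_l13291 _))
              (CovZ.leaf K2_ok TE_l13292 _))
             (CovZ.n1 (5200, 19840) (by decide +kernel)
              (CovZ.leaf K2_ok TE_l13293 _)
              (CovZ.n1 (5240, 19880) (by decide +kernel)
               (CovZ.leaf K2_ok TE_l13294 _)
               (CovZ.leaf K2_ok TE_l13295 _))))
            (CovZ.n1 (5360, 19920) (by decide +kernel)
             (CovZ.badM (by decide +kernel))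
             (CovZ.n1 (5280, 19920) (by decide +kernel)
              (CovZ.n2 (5320, 19960) (by decide +kernel)
               (CovZ.leaf K2_ok TE_l13297 _)
               (CovZ.leaf K2_ok TE_l13298 _))
              (CovZ.n1 (5320, 19880) (by decide +kernel)
               (CovZ.leaf K2_ok TE_l13299 _)
               (CovZ.leaf K2_ok TE_l13300 _))))))
          (CovZ.n1 (5600, 20000) (by decide +kernel)
           (CovZ.badM (by decide +kernel))
           (CovZ.n1 (5440, 20000) (by decide +kernel)
            (CovZ.n2 (5520, 20080) (by decide +kernel)
             (CovZ.badM (by decide +kernel))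
             (CovZ.n1 (5440, 20080) (by decide +kernel)
              (CovZ.leaf K2_ok TE_l13301 _)
              (CovZ.n1 (5480, 20040) (by decide +kernel)
               (CovZ.leaf K2_ok TE_l13302 _)
               (CovZ.leaf K2_ok TE_l13303 _))))
            (CovZ.badM (by decide +kernel))))))
        (CovZ.n1 (5120, 20160) (by decide +kernel)
         (CovZ.n2 (5280, 20320) (by decide +kernel)
          (CovZ.n2 (5280, 20160) (by decide +kernel)
           (CovZ.leaf K2_ok TE_l13304 _)
           (CovZ.n1 (5360, 20240) (by decide +kernel)
            (CovZ.leaf K2_ok TE_l13305 _)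
            (CovZ.leaf K2_ok TE_l13306 _)))
          (CovZ.n1 (5120, 20320) (by decide +kernel)
           (CovZ.leaf K2_ok TE_l13307 _)
           (CovZ.leaf K2_ok TE_l13308 _)))
         (CovZ.subM 332308266597436020548402015520161952 (by decide +kernel)
          (CovZ.n1 (5280, 20000) (by decide +kernel)
           (CovZ.n2 (5120, 20000) (by decide +kernel)
            (CovZ.n2 (5200, 20080) (by decide +kernel)
             (CovZ.leaf K2_ok TE_l13309 _)
             (CovZ.leaf K2_ok TE_l13310 _))
            (CovZ.n1 (5200, 19920) (by decide +kernel)
             (CovZ.n2 (5120, 19920) (by decide +kernel)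
              (CovZ.leaf K2_ok TE_l13311 _)
              (CovZ.leaf K2_ok TE_l13312 _))
             (CovZ.leaf K2_ok TE_l13313 _)))
           (CovZ.n1 (5280, 20160) (by decide +kernel)
            (CovZ.n2 (5360, 20080) (by decide +kernel)
             (CovZ.n2 (5280, 20080) (by decide +kernel)
              (CovZ.leaf K2_ok TE_l13314 _)
              (CovZ.leaf K2_ok TE_l13315 _))
             (CovZ.leaf K2_ok TE_l13316 _))
            (CovZ.n1 (5200, 20080) (by decide +kernel)
             (CovZ.leaf K2_ok TE_l13317 _)
             (CovZ.leaf K2_ok TE_l13318 _)))))))
       (CovZ.subM 332308266597436020548402015520161952 (by decide +kernel)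
        (CovZ.n1 (5440, 19520) (by decide +kernel)
         (CovZ.n2 (5120, 19520) (by decide +kernel)
          (CovZ.n2 (5280, 19680) (by decide +kernel)
           (CovZ.badM (by decide +kernel))
           (CovZ.n1 (5120, 19680) (by decide +kernel)
            (CovZ.n2 (5200, 19760) (by decide +kernel)
             (CovZ.badM (by decide +kernel))
             (CovZ.n1 (5120, 19760) (by decide +kernel)
              (CovZ.n2 (5160, 19800) (by decide +kernel)
               (CovZ.leaf K2_ok TE_l13319 _)
               (CovZ.leaf K2_ok TE_l13320 _))
              (CovZ.n1 (5160, 19720) (by decide +kernel)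
               (CovZ.leaf K2_ok TE_l13321 _)
               (CovZ.leaf K2_ok TE_l13322 _))))
            (CovZ.badM (by decide +kernel))))
          (CovZ.badM (by decide +kernel)))
         (CovZ.n1 (5440, 19840) (by decide +kernel)
          (CovZ.badM (by decide +kernel))
          (CovZ.n1 (5280, 19680) (by decide +kernel)
           (CovZ.n2 (5280, 19840) (by decide +kernel)
            (CovZ.badM (by decide +kernel))
            (CovZ.n1 (5200, 19760) (by decide +kernel)
             (CovZ.n2 (5200, 19840) (by decide +kernel)
              (CovZ.n2 (5240, 19800) (by decide +kernel)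
               (CovZ.leaf K2_ok TE_l13323 _)
               (CovZ.leaf K2_ok TE_l13324 _))
              (CovZ.n1 (5160, 19800) (by decide +kernel)
               (CovZ.leaf K2_ok TE_l13325 _)
               (CovZ.leaf K2_ok TE_l13326 _)))
             (CovZ.badM (by decide +kernel))))
           (CovZ.badM (by decide +kernel))))))))
     (CovZ.n1 (5760, 18560) (by decide +kernel)
      (CovZ.badM (by decide +kernel))
      (CovZ.n1 (5760, 19200) (by decide +kernel)
       (CovZ.badM (by decide +kernel))
       (CovZ.badM (by decide +kernel)))))

theorem TE_u17 : CovZ TE_M (toL (selN TE_LN 1496577676626844920548844817897693583685708324798624)) [0, 7, 6, 1] (6400, 19200) (7680, 20480) (5120, 20480) :=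
    (CovZ.n1 (6400, 20480) (by decide +kernel)
     (CovZ.badM (by decide +kernel))
     (CovZ.n1 (5760, 19840) (by decide +kernel)
      (CovZ.n2 (5760, 20480) (by decide +kernel)
       (CovZ.n2 (6080, 20160) (by decide +kernel)
        (CovZ.n2 (5760, 20160) (by decide +kernel)
         (CovZ.n2 (5920, 20320) (by decide +kernel)
          (CovZ.badM (by decide +kernel))
          (CovZ.n1 (5760, 20320) (by decide +kernel)
           (CovZ.n2 (5840, 20400) (by decide +kernel)
            (CovZ.badM (by decide +kernel))
            (CovZ.n1 (5760, 20400) (by decide +kernel)
             (CovZ.leaf K2_ok TE_l13327 _)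
             (CovZ.n1 (5800, 20360) (by decide +kernel)
              (CovZ.leaf K2_ok TE_l13328 _)
              (CovZ.leaf K2_ok TE_l13329 _))))
           (CovZ.badM (by decide +kernel))))
         (CovZ.badM (by decide +kernel)))
        (CovZ.n1 (6080, 20480) (by decide +kernel)
         (CovZ.badM (by decide +kernel))
         (CovZ.n1 (5920, 20320) (by decide +kernel)
          (CovZ.n2 (5920, 20480) (by decide +kernel)
           (CovZ.badM (by decide +kernel))
           (CovZ.n1 (5840, 20400) (by decide +kernel)
            (CovZ.n2 (5840, 20480) (by decide +kernel)
             (CovZ.n2 (5880, 20440) (by decide +kernel)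
              (CovZ.leaf K2_ok TE_l13330 _)
              (CovZ.leaf K2_ok TE_l13331 _))
             (CovZ.leaf K2_ok TE_l13332 _))
            (CovZ.badM (by decide +kernel))))
          (CovZ.badM (by decide +kernel)))))
       (CovZ.n1 (5440, 20160) (by decide +kernel)
        (CovZ.n2 (5440, 20480) (by decide +kernel)
         (CovZ.n2 (5600, 20320) (by decide +kernel)
          (CovZ.n2 (5440, 20320) (by decide +kernel)
           (CovZ.n2 (5520, 20400) (by decide +kernel)
            (CovZ.leaf K2_ok TE_l13333 _)
            (CovZ.leaf K2_ok TE_l13334 _))
           (CovZ.n1 (5520, 20240) (by decide +kernel)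
            (CovZ.n2 (5440, 20240) (by decide +kernel)
             (CovZ.leaf K2_ok TE_l13335 _)
             (CovZ.leaf K2_ok TE_l13336 _))
            (CovZ.leaf K2_ok TE_l13337 _)))
          (CovZ.n1 (5600, 20480) (by decide +kernel)
           (CovZ.n2 (5680, 20400) (by decide +kernel)
            (CovZ.n2 (5600, 20400) (by decide +kernel)
             (CovZ.leaf K2_ok TE_l13338 _)
             (CovZ.leaf K2_ok TE_l13339 _))
            (CovZ.leaf K2_ok TE_l13340 _))
           (CovZ.n1 (5520, 20400) (by decide +kernel)
            (CovZ.leaf K2_ok TE_l13341 _)
            (CovZ.leaf K2_ok TE_l13342 _))))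
         (CovZ.n1 (5280, 20320) (by decide +kernel)
          (CovZ.n2 (5280, 20480) (by decide +kernel)
           (CovZ.leaf K2_ok TE_l13343 _)
           (CovZ.leaf K2_ok TE_l13344 _))
          (CovZ.n1 (5440, 20320) (by decide +kernel)
           (CovZ.n2 (5360, 20240) (by decide +kernel)
            (CovZ.leaf K2_ok TE_l13345 _)
            (CovZ.leaf K2_ok TE_l13346 _))
           (CovZ.leaf K2_ok TE_l13347 _))))
        (CovZ.n1 (5760, 20160) (by decide +kernel)
         (CovZ.subM 332306998946835796930686537235955872 (by decide +kernel)
          (CovZ.n2 (5600, 20000) (by decide +kernel)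
           (CovZ.n2 (5600, 20160) (by decide +kernel)
            (CovZ.subM 4611686018427387904 (by decide +kernel)
             (CovZ.n2 (5680, 20080) (by decide +kernel)
              (CovZ.badM (by decide +kernel))
              (CovZ.n1 (5680, 20160) (by decide +kernel)
               (CovZ.badM (by decide +kernel))
               (CovZ.n1 (5640, 20120) (by decide +kernel)
                (CovZ.leaf K2_ok TE_l18366 _)
                (CovZ.badM (by decide +kernel))))))
            (CovZ.n1 (5520, 20080) (by decide +kernel)
             (CovZ.n2 (5520, 20160) (by decide +kernel)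
              (CovZ.n2 (5560, 20120) (by decide +kernel)
               (CovZ.leaf K2_ok TE_l13348 _)
               (CovZ.leaf K2_ok TE_l13349 _))
              (CovZ.n1 (5480, 20120) (by decide +kernel)
               (CovZ.leaf K2_ok TE_l13350 _)
               (CovZ.leaf K2_ok TE_l13351 _)))
             (CovZ.badM (by decide +kernel))))
           (CovZ.badM (by decide +kernel))))
         (CovZ.n1 (5600, 20320) (by decide +kernel)
          (CovZ.n2 (5760, 20320) (by decide +kernel)
           (CovZ.subM 332306998946835796930686537235955872 (by decide +kernel)
            (CovZ.n2 (5680, 20240) (by decide +kernel)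
             (CovZ.n2 (5680, 20320) (by decide +kernel)
              (CovZ.n2 (5720, 20280) (by decide +kernel)
               (CovZ.leaf K2_ok TE_l13352 _)
               (CovZ.leaf K2_ok TE_l13353 _))
              (CovZ.n1 (5640, 20280) (by decide +kernel)
               (CovZ.leaf K2_ok TE_l13354 _)
               (CovZ.leaf K2_ok TE_l13355 _)))
             (CovZ.badM (by decide +kernel))))
           (CovZ.n1 (5680, 20400) (by decide +kernel)
            (CovZ.n2 (5760, 20400) (by decide +kernel)
             (CovZ.leaf K2_ok TE_l13356 _)
             (CovZ.leaf K2_ok TE_l13357 _))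
            (CovZ.n1 (5680, 20320) (by decide +kernel)
             (CovZ.leaf K2_ok TE_l13358 _)
             (CovZ.leaf K2_ok TE_l13359 _))))
          (CovZ.subM 332306998946835796930686537235955872 (by decide +kernel)
           (CovZ.n1 (5600, 20160) (by decide +kernel)
            (CovZ.n2 (5520, 20240) (by decide +kernel)
             (CovZ.n2 (5600, 20240) (by decide +kernel)
              (CovZ.leaf K2_ok TE_l13360 _)
              (CovZ.leaf K2_ok TE_l13361 _))
             (CovZ.n1 (5520, 20160) (by decide +kernel)
              (CovZ.leaf K2_ok TE_l13362 _)
              (CovZ.leaf K2_ok TE_l13363 _)))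
            (CovZ.n1 (5680, 20240) (by decide +kernel)
             (CovZ.n2 (5680, 20160) (by decide +kernel)
              (CovZ.n2 (5640, 20200) (by decide +kernel)
               (CovZ.leaf K2_ok TE_l13364 _)
               (CovZ.leaf K2_ok TE_l18367 _))
              (CovZ.badM (by decide +kernel)))
             (CovZ.n1 (5600, 20240) (by decide +kernel)
              (CovZ.n2 (5640, 20280) (by decide +kernel)
               (CovZ.leaf K2_ok TE_l13365 _)
               (CovZ.leaf K2_ok TE_l13366 _))
              (CovZ.n1 (5640, 20200) (by decide +kernel)
               (CovZ.leaf K2_ok TE_l13367 _)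
               (CovZ.leaf K2_ok TE_l13368 _))))))))))
      (CovZ.badM (by decide +kernel))))

theorem TE_u18 : CovZ TE_M (toL (selN TE_LN 416840289539206557559574717529942752584657132754254741921)) [0, 7, 6, 1] (7680, 23040) (7040, 22400) (7680, 21760) :=
    (CovZ.n2 (7680, 22400) (by decide +kernel)
       (CovZ.n2 (7360, 22080) (by decide +kernel)
        (CovZ.n2 (7360, 22400) (by decide +kernel)
         (CovZ.subM 24519928653854265630491192239365329773977660297515663776 (by decide +kernel)
          (CovZ.n2 (7520, 22240) (by decide +kernel)
           (CovZ.n2 (7360, 22240) (by decide +kernel)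
            (CovZ.n2 (7440, 22320) (by decide +kernel)
             (CovZ.leaf K2_ok TE_l13419 _)
             (CovZ.leaf K2_ok TE_l13420 _))
            (CovZ.n1 (7440, 22160) (by decide +kernel)
             (CovZ.n2 (7360, 22160) (by decide +kernel)
              (CovZ.leaf K2_ok TE_l13421 _)
              (CovZ.leaf K2_ok TE_l13422 _))
             (CovZ.n1 (7440, 22240) (by decide +kernel)
              (CovZ.leaf K2_ok TE_l13423 _)
              (CovZ.leaf K2_ok TE_l13424 _))))
           (CovZ.n1 (7520, 22400) (by decide +kernel)
            (CovZ.n2 (7600, 22320) (by decide +kernel)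
             (CovZ.n2 (7520, 22320) (by decide +kernel)
              (CovZ.leaf K2_ok TE_l13425 _)
              (CovZ.leaf K2_ok TE_l13426 _))
             (CovZ.n1 (7600, 22400) (by decide +kernel)
              (CovZ.leaf K2_ok TE_l13427 _)
              (CovZ.leaf K2_ok TE_l13428 _)))
            (CovZ.n1 (7440, 22320) (by decide +kernel)
             (CovZ.leaf K2_ok TE_l13429 _)
             (CovZ.leaf K2_ok TE_l13430 _)))))
         (CovZ.subM 43556475274151672519529415466290518196640 (by decide +kernel)
          (CovZ.n1 (7200, 22240) (by decide +kernel)
           (CovZ.n2 (7200, 22400) (by decide +kernel)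
            (CovZ.leaf K2_ok TE_l13431 _)
            (CovZ.leaf K2_ok TE_l13432 _))
           (CovZ.n1 (7360, 22240) (by decide +kernel)
            (CovZ.n2 (7280, 22160) (by decide +kernel)
             (CovZ.leaf K2_ok TE_l13433 _)
             (CovZ.leaf K2_ok TE_l13434 _))
            (CovZ.leaf K2_ok TE_l13435 _)))))
        (CovZ.subM 24519928653854265630491192239365329773401199545212240288 (by decide +kernel)
         (CovZ.n1 (7680, 22080) (by decide +kernel)
          (CovZ.n2 (7520, 21920) (by decide +kernel)
           (CovZ.n2 (7520, 22080) (by decide +kernel)
            (CovZ.badM (by decide +kernel))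
            (CovZ.n1 (7440, 22000) (by decide +kernel)
             (CovZ.n2 (7440, 22080) (by decide +kernel)
              (CovZ.n2 (7480, 22040) (by decide +kernel)
               (CovZ.leaf K2_ok TE_l13436 _)
               (CovZ.leaf K2_ok TE_l13437 _))
              (CovZ.n1 (7400, 22040) (by decide +kernel)
               (CovZ.leaf K2_ok TE_l13438 _)
               (CovZ.leaf K2_ok TE_l13439 _)))
             (CovZ.badM (by decide +kernel))))
           (CovZ.badM (by decide +kernel)))
          (CovZ.n1 (7520, 22240) (by decide +kernel)
           (CovZ.n2 (7680, 22240) (by decide +kernel)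
            (CovZ.n2 (7600, 22160) (by decide +kernel)
             (CovZ.n2 (7600, 22240) (by decide +kernel)
              (CovZ.n2 (7640, 22200) (by decide +kernel)
               (CovZ.leaf K2_ok TE_l13441 _)
               (CovZ.leaf K2_ok TE_l13442 _))
              (CovZ.n1 (7560, 22200) (by decide +kernel)
               (CovZ.leaf K2_ok TE_l13443 _)
               (CovZ.leaf K2_ok TE_l13444 _)))
             (CovZ.n1 (7680, 22160) (by decide +kernel)
              (CovZ.badM (by decide +kernel))
              (CovZ.n1 (7640, 22200) (by decide +kernel)
               (CovZ.badM (by decide +kernel))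
               (CovZ.badM (by decide +kernel)))))
            (CovZ.n1 (7600, 22320) (by decide +kernel)
             (CovZ.n2 (7680, 22320) (by decide +kernel)
              (CovZ.leaf K2_ok TE_l13445 _)
              (CovZ.leaf K2_ok TE_l13446 _))
             (CovZ.n1 (7600, 22240) (by decide +kernel)
              (CovZ.leaf K2_ok TE_l13447 _)
              (CovZ.n1 (7640, 22280) (by decide +kernel)
               (CovZ.leaf K2_ok TE_l13448 _)
               (CovZ.leaf K2_ok TE_l13449 _)))))
           (CovZ.n1 (7520, 22080) (by decide +kernel)
            (CovZ.n2 (7440, 22160) (by decide +kernel)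
             (CovZ.n2 (7520, 22160) (by decide +kernel)
              (CovZ.n2 (7480, 22120) (by decide +kernel)
               (CovZ.leaf K2_ok TE_l13450 _)
               (CovZ.leaf K2_ok TE_l13451 _))
              (CovZ.leaf K2_ok TE_l13452 _))
             (CovZ.n1 (7440, 22080) (by decide +kernel)
              (CovZ.leaf K2_ok TE_l13453 _)
              (CovZ.n1 (7480, 22120) (by decide +kernel)
               (CovZ.leaf K2_ok TE_l13454 _)
               (CovZ.leaf K2_ok TE_l13455 _))))
            (CovZ.n1 (7600, 22160) (by decide +kernel)
             (CovZ.badM (by decide +kernel))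
             (CovZ.n1 (7520, 22160) (by decide +kernel)
              (CovZ.leaf K2_ok TE_l13456 _)
              (CovZ.n1 (7560, 22120) (by decide +kernel)
               (CovZ.leaf K2_ok TE_l13457 _)
               (CovZ.leaf K2_ok TE_l13458 _)))))))))
       (CovZ.n1 (7360, 22720) (by decide +kernel)
        (CovZ.n2 (7680, 22720) (by decide +kernel)
         (CovZ.n2 (7520, 22560) (by decide +kernel)
          (CovZ.n2 (7520, 22720) (by decide +kernel)
           (CovZ.leaf K2_ok TE_l13459 _)
           (CovZ.leaf K2_ok TE_l13460 _))
          (CovZ.n1 (7680, 22560) (by decide +kernel)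
           (CovZ.n2 (7600, 22480) (by decide +kernel)
            (CovZ.leaf K2_ok TE_l13461 _)
            (CovZ.leaf K2_ok TE_l13462 _))
           (CovZ.leaf K2_ok TE_l13463 _)))
         (CovZ.n1 (7520, 22880) (by decide +kernel)
          (CovZ.n2 (7680, 22880) (by decide +kernel)
           (CovZ.leaf K2_ok TE_l13464 _)
           (CovZ.leaf K2_ok TE_l13465 _))
          (CovZ.n1 (7520, 22720) (by decide +kernel)
           (CovZ.leaf K2_ok TE_l13466 _)
           (CovZ.leaf K2_ok TE_l13467 _))))
        (CovZ.n1 (7360, 22400) (by decide +kernel)
         (CovZ.n2 (7200, 22560) (by decide +kernel)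
          (CovZ.n2 (7360, 22560) (by decide +kernel)
           (CovZ.leaf K2_ok TE_l13468 _)
           (CovZ.leaf K2_ok TE_l13469 _))
          (CovZ.n1 (7200, 22400) (by decide +kernel)
           (CovZ.leaf K2_ok TE_l13470 _)
           (CovZ.leaf K2_ok TE_l13471 _)))
         (CovZ.n1 (7520, 22560) (by decide +kernel)
          (CovZ.n2 (7520, 22400) (by decide +kernel)
           (CovZ.leaf K2_ok TE_l13472 _)
           (CovZ.n1 (7600, 22480) (by decide +kernel)
            (CovZ.leaf K2_ok TE_l13473 _)
            (CovZ.leaf K2_ok TE_l13474 _)))
          (CovZ.n1 (7360, 22560) (by decide +kernel)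
           (CovZ.leaf K2_ok TE_l13475 _)
           (CovZ.leaf K2_ok TE_l13476 _))))))

theorem TE_u19 : CovZ TE_M (toL (selN TE_LN 416840289539206557559574717529942752584657132754254741921)) [0, 7, 6, 1] (7040, 22400) (6400, 21760) (7680, 21760) :=
    (CovZ.subM 1496577676670401063514724941221007839279983869591968 (by decide +kernel)
       (CovZ.n1 (7040, 21760) (by decide +kernel)
        (CovZ.n2 (6720, 22080) (by decide +kernel)
         (CovZ.n2 (7040, 22080) (by decide +kernel)
          (CovZ.n2 (6880, 21920) (by decide +kernel)
           (CovZ.n2 (6880, 22080) (by decide +kernel)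
            (CovZ.leaf K2_ok TE_l13477 _)
            (CovZ.leaf K2_ok TE_l13478 _))
           (CovZ.n1 (7040, 21920) (by decide +kernel)
            (CovZ.n2 (6960, 21840) (by decide +kernel)
             (CovZ.leaf K2_ok TE_l13479 _)
             (CovZ.leaf K2_ok TE_l13480 _))
            (CovZ.leaf K2_ok TE_l13481 _)))
          (CovZ.n1 (6880, 22240) (by decide +kernel)
           (CovZ.n2 (7040, 22240) (by decide +kernel)
            (CovZ.leaf K2_ok TE_l13482 _)
            (CovZ.leaf K2_ok TE_l13483 _))
           (CovZ.n1 (6880, 22080) (by decide +kernel)
            (CovZ.leaf K2_ok TE_l13484 _)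
            (CovZ.leaf K2_ok TE_l13485 _))))
         (CovZ.n1 (6720, 21760) (by decide +kernel)
          (CovZ.n2 (6560, 21920) (by decide +kernel)
           (CovZ.n2 (6720, 21920) (by decide +kernel)
            (CovZ.leaf K2_ok TE_l13486 _)
            (CovZ.leaf K2_ok TE_l13487 _))
           (CovZ.n1 (6560, 21760) (by decide +kernel)
            (CovZ.leaf K2_ok TE_l13488 _)
            (CovZ.leaf K2_ok TE_l13489 _)))
          (CovZ.n1 (6880, 21920) (by decide +kernel)
           (CovZ.n2 (6880, 21760) (by decide +kernel)
            (CovZ.leaf K2_ok TE_l13490 _)
            (CovZ.n1 (6960, 21840) (by decide +kernel)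
             (CovZ.leaf K2_ok TE_l13491 _)
             (CovZ.leaf K2_ok TE_l13492 _)))
           (CovZ.n1 (6720, 21920) (by decide +kernel)
            (CovZ.leaf K2_ok TE_l13493 _)
            (CovZ.leaf K2_ok TE_l13494 _)))))
        (CovZ.n1 (7360, 22080) (by decide +kernel)
         (CovZ.n2 (7360, 21760) (by decide +kernel)
          (CovZ.n2 (7200, 21920) (by decide +kernel)
           (CovZ.n2 (7360, 21920) (by decide +kernel)
            (CovZ.subM 332307003898595986354009765958385824 (by decide +kernel)
             (CovZ.n2 (7280, 21840) (by decide +kernel)
              (CovZ.n2 (7280, 21920) (by decide +kernel)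
               (CovZ.n2 (7320, 21880) (by decide +kernel)
                (CovZ.leaf K2_ok TE_l13495 _)
                (CovZ.leaf K2_ok TE_l13496 _))
               (CovZ.leaf K2_ok TE_l13497 _))
              (CovZ.badM (by decide +kernel))))
            (CovZ.n1 (7280, 22000) (by decide +kernel)
             (CovZ.n2 (7360, 22000) (by decide +kernel)
              (CovZ.n2 (7320, 21960) (by decide +kernel)
               (CovZ.leaf K2_ok TE_l13498 _)
               (CovZ.leaf K2_ok TE_l13499 _))
              (CovZ.leaf K2_ok TE_l13500 _))
             (CovZ.n1 (7280, 21920) (by decide +kernel)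
              (CovZ.leaf K2_ok TE_l13501 _)
              (CovZ.n1 (7320, 21960) (by decide +kernel)
               (CovZ.leaf K2_ok TE_l13502 _)
               (CovZ.leaf K2_ok TE_l13503 _)))))
           (CovZ.subM 332307003898595986354009765958385824 (by decide +kernel)
            (CovZ.n1 (7200, 21760) (by decide +kernel)
             (CovZ.n2 (7120, 21840) (by decide +kernel)
              (CovZ.n2 (7200, 21840) (by decide +kernel)
               (CovZ.n2 (7160, 21800) (by decide +kernel)
                (CovZ.leaf K2_ok TE_l13504 _)
                (CovZ.leaf K2_ok TE_l13505 _))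
               (CovZ.leaf K2_ok TE_l13506 _))
              (CovZ.n1 (7120, 21760) (by decide +kernel)
               (CovZ.leaf K2_ok TE_l13507 _)
               (CovZ.leaf K2_ok TE_l13508 _)))
             (CovZ.n1 (7280, 21840) (by decide +kernel)
              (CovZ.badM (by decide +kernel))
              (CovZ.n1 (7200, 21840) (by decide +kernel)
               (CovZ.n2 (7240, 21880) (by decide +kernel)
                (CovZ.leaf K2_ok TE_l13509 _)
                (CovZ.leaf K2_ok TE_l13510 _))
               (CovZ.n1 (7240, 21800) (by decide +kernel)
                (CovZ.leaf K2_ok TE_l13511 _)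
                (CovZ.leaf K2_ok TE_l13512 _)))))))
          (CovZ.n1 (7520, 21920) (by decide +kernel)
           (CovZ.n2 (7520, 21760) (by decide +kernel)
            (CovZ.n2 (7440, 21840) (by decide +kernel)
             (CovZ.badM (by decide +kernel))
             (CovZ.badM (by decide +kernel)))
            (CovZ.badM (by decide +kernel)))
           (CovZ.n1 (7360, 21920) (by decide +kernel)
            (CovZ.n2 (7440, 22000) (by decide +kernel)
             (CovZ.n2 (7440, 21920) (by decide +kernel)
              (CovZ.n2 (7400, 21960) (by decide +kernel)
               (CovZ.leaf K2_ok TE_l18368 _)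
               (CovZ.badM (by decide +kernel)))
              (CovZ.badM (by decide +kernel)))
             (CovZ.n1 (7360, 22000) (by decide +kernel)
              (CovZ.leaf K2_ok TE_l13513 _)
              (CovZ.n1 (7400, 21960) (by decide +kernel)
               (CovZ.leaf K2_ok TE_l13514 _)
               (CovZ.leaf K2_ok TE_l13515 _))))
            (CovZ.n1 (7440, 21840) (by decide +kernel)
             (CovZ.badM (by decide +kernel))
             (CovZ.n1 (7440, 21920) (by decide +kernel)
              (CovZ.badM (by decide +kernel))
              (CovZ.badM (by decide +kernel)))))))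
         (CovZ.n1 (7040, 22080) (by decide +kernel)
          (CovZ.n2 (7200, 22240) (by decide +kernel)
           (CovZ.n2 (7200, 22080) (by decide +kernel)
            (CovZ.leaf K2_ok TE_l13516 _)
            (CovZ.n1 (7280, 22160) (by decide +kernel)
             (CovZ.leaf K2_ok TE_l13517 _)
             (CovZ.leaf K2_ok TE_l13518 _)))
           (CovZ.n1 (7040, 22240) (by decide +kernel)
            (CovZ.leaf K2_ok TE_l13519 _)
            (CovZ.leaf K2_ok TE_l13520 _)))
          (CovZ.n1 (7200, 21920) (by decide +kernel)
           (CovZ.n2 (7040, 21920) (by decide +kernel)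
            (CovZ.n2 (7120, 22000) (by decide +kernel)
             (CovZ.leaf K2_ok TE_l13521 _)
             (CovZ.leaf K2_ok TE_l13522 _))
            (CovZ.subM 332307003898595986930470518261809312 (by decide +kernel)
             (CovZ.n1 (7120, 21840) (by decide +kernel)
              (CovZ.n2 (7040, 21840) (by decide +kernel)
               (CovZ.leaf K2_ok TE_l13523 _)
               (CovZ.leaf K2_ok TE_l13524 _))
              (CovZ.n1 (7120, 21920) (by decide +kernel)
               (CovZ.leaf K2_ok TE_l13525 _)
               (CovZ.leaf K2_ok TE_l13526 _)))))
           (CovZ.n1 (7200, 22080) (by decide +kernel)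
            (CovZ.n2 (7280, 22000) (by decide +kernel)
             (CovZ.n2 (7200, 22000) (by decide +kernel)
              (CovZ.leaf K2_ok TE_l13527 _)
              (CovZ.leaf K2_ok TE_l13528 _))
             (CovZ.n1 (7280, 22080) (by decide +kernel)
              (CovZ.leaf K2_ok TE_l13529 _)
              (CovZ.leaf K2_ok TE_l13530 _)))
            (CovZ.n1 (7120, 22000) (by decide +kernel)
             (CovZ.leaf K2_ok TE_l13531 _)
             (CovZ.leaf K2_ok TE_l13532 _))))))))

theorem TE_u20 : CovZ TE_M (toL (selN TE_LN 1496577676670401063514724941221005533436974660075680)) [0, 7, 6, 1] (5120, 20480) (6400, 20480) (6400, 21760) :=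
    (CovZ.n2 (5760, 21120) (by decide +kernel)
       (CovZ.n2 (6400, 21120) (by decide +kernel)
        (CovZ.n2 (6080, 20800) (by decide +kernel)
         (CovZ.n2 (6080, 21120) (by decide +kernel)
          (CovZ.n2 (6240, 20960) (by decide +kernel)
           (CovZ.n2 (6080, 20960) (by decide +kernel)
            (CovZ.n2 (6160, 21040) (by decide +kernel)
             (CovZ.leaf K2_ok TE_l13533 _)
             (CovZ.leaf K2_ok TE_l13534 _))
            (CovZ.n1 (6160, 20880) (by decide +kernel)
             (CovZ.n2 (6080, 20880) (by decide +kernel)
              (CovZ.leaf K2_ok TE_l13535 _)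
              (CovZ.leaf K2_ok TE_l13536 _))
             (CovZ.leaf K2_ok TE_l13537 _)))
           (CovZ.n1 (6240, 21120) (by decide +kernel)
            (CovZ.n2 (6320, 21040) (by decide +kernel)
             (CovZ.n2 (6240, 21040) (by decide +kernel)
              (CovZ.leaf K2_ok TE_l13538 _)
              (CovZ.leaf K2_ok TE_l13539 _))
             (CovZ.leaf K2_ok TE_l13540 _))
            (CovZ.n1 (6160, 21040) (by decide +kernel)
             (CovZ.leaf K2_ok TE_l13541 _)
             (CovZ.leaf K2_ok TE_l13542 _))))
          (CovZ.n1 (5920, 20960) (by decide +kernel)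
           (CovZ.n2 (5920, 21120) (by decide +kernel)
            (CovZ.leaf K2_ok TE_l13543 _)
            (CovZ.leaf K2_ok TE_l13544 _))
           (CovZ.n1 (6080, 20960) (by decide +kernel)
            (CovZ.n2 (6000, 20880) (by decide +kernel)
             (CovZ.leaf K2_ok TE_l13545 _)
             (CovZ.leaf K2_ok TE_l13546 _))
            (CovZ.leaf K2_ok TE_l13547 _))))
         (CovZ.subM 332307003898595986354009765824184480 (by decide +kernel)
          (CovZ.n1 (6400, 20800) (by decide +kernel)
           (CovZ.n2 (6240, 20640) (by decide +kernel)
            (CovZ.n2 (6240, 20800) (by decide +kernel)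
             (CovZ.badM (by decide +kernel))
             (CovZ.n1 (6160, 20720) (by decide +kernel)
              (CovZ.n2 (6160, 20800) (by decide +kernel)
               (CovZ.n2 (6200, 20760) (by decide +kernel)
                (CovZ.leaf K2_ok TE_l13548 _)
                (CovZ.leaf K2_ok TE_l13549 _))
               (CovZ.leaf K2_ok TE_l13550 _))
              (CovZ.badM (by decide +kernel))))
            (CovZ.badM (by decide +kernel)))
           (CovZ.n1 (6240, 20960) (by decide +kernel)
            (CovZ.n2 (6400, 20960) (by decide +kernel)
             (CovZ.n2 (6320, 20880) (by decide +kernel)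
              (CovZ.n2 (6320, 20960) (by decide +kernel)
               (CovZ.n2 (6360, 20920) (by decide +kernel)
                (CovZ.leaf K2_ok TE_l13551 _)
                (CovZ.leaf K2_ok TE_l13552 _))
               (CovZ.leaf K2_ok TE_l13553 _))
              (CovZ.badM (by decide +kernel)))
             (CovZ.n1 (6320, 21040) (by decide +kernel)
              (CovZ.n2 (6400, 21040) (by decide +kernel)
               (CovZ.leaf K2_ok TE_l13554 _)
               (CovZ.leaf K2_ok TE_l13555 _))
              (CovZ.n1 (6320, 20960) (by decide +kernel)
               (CovZ.leaf K2_ok TE_l13556 _)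
               (CovZ.leaf K2_ok TE_l13557 _))))
            (CovZ.n1 (6240, 20800) (by decide +kernel)
             (CovZ.n2 (6160, 20880) (by decide +kernel)
              (CovZ.n2 (6240, 20880) (by decide +kernel)
               (CovZ.n2 (6200, 20840) (by decide +kernel)
                (CovZ.leaf K2_ok TE_l13558 _)
                (CovZ.leaf K2_ok TE_l13559 _))
               (CovZ.leaf K2_ok TE_l13560 _))
              (CovZ.n1 (6160, 20800) (by decide +kernel)
               (CovZ.leaf K2_ok TE_l13561 _)
               (CovZ.n1 (6200, 20840) (by decide +kernel)
                (CovZ.leaf K2_ok TE_l13562 _)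
                (CovZ.leaf K2_ok TE_l13563 _))))
             (CovZ.n1 (6320, 20880) (by decide +kernel)
              (CovZ.badM (by decide +kernel))
              (CovZ.n1 (6240, 20880) (by decide +kernel)
               (CovZ.n2 (6280, 20920) (by decide +kernel)
                (CovZ.leaf K2_ok TE_l13564 _)
                (CovZ.leaf K2_ok TE_l13565 _))
               (CovZ.n1 (6280, 20840) (by decide +kernel)
                (CovZ.leaf K2_ok TE_l13566 _)
                (CovZ.leaf K2_ok TE_l13567 _)))))))))
        (CovZ.n1 (6080, 21440) (by decide +kernel)
         (CovZ.n2 (6400, 21440) (by decide +kernel)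
          (CovZ.n2 (6240, 21280) (by decide +kernel)
           (CovZ.n2 (6240, 21440) (by decide +kernel)
            (CovZ.leaf K2_ok TE_l13568 _)
            (CovZ.leaf K2_ok TE_l13569 _))
           (CovZ.n1 (6400, 21280) (by decide +kernel)
            (CovZ.n2 (6320, 21200) (by decide +kernel)
             (CovZ.leaf K2_ok TE_l13570 _)
             (CovZ.leaf K2_ok TE_l13571 _))
            (CovZ.leaf K2_ok TE_l13572 _)))
          (CovZ.n1 (6240, 21600) (by decide +kernel)
           (CovZ.n2 (6400, 21600) (by decide +kernel)
            (CovZ.leaf K2_ok TE_l13573 _)
            (CovZ.leaf K2_ok TE_l13574 _))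
           (CovZ.n1 (6240, 21440) (by decide +kernel)
            (CovZ.leaf K2_ok TE_l13575 _)
            (CovZ.leaf K2_ok TE_l13576 _))))
         (CovZ.n1 (6080, 21120) (by decide +kernel)
          (CovZ.n2 (5920, 21280) (by decide +kernel)
           (CovZ.n2 (6080, 21280) (by decide +kernel)
            (CovZ.leaf K2_ok TE_l13577 _)
            (CovZ.leaf K2_ok TE_l13578 _))
           (CovZ.leaf K2_ok TE_l13579 _))
          (CovZ.n1 (6240, 21280) (by decide +kernel)
           (CovZ.n2 (6240, 21120) (by decide +kernel)
            (CovZ.leaf K2_ok TE_l13580 _)
            (CovZ.n1 (6320, 21200) (by decide +kernel)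
             (CovZ.leaf K2_ok TE_l13581 _)
             (CovZ.leaf K2_ok TE_l13582 _)))
           (CovZ.n1 (6080, 21280) (by decide +kernel)
            (CovZ.leaf K2_ok TE_l13583 _)
            (CovZ.leaf K2_ok TE_l13584 _))))))
       (CovZ.n1 (5760, 20480) (by decide +kernel)
        (CovZ.n2 (5440, 20800) (by decide +kernel)
         (CovZ.n2 (5760, 20800) (by decide +kernel)
          (CovZ.n2 (5600, 20640) (by decide +kernel)
           (CovZ.n2 (5600, 20800) (by decide +kernel)
            (CovZ.leaf K2_ok TE_l13585 _)
            (CovZ.leaf K2_ok TE_l13586 _))
           (CovZ.n1 (5760, 20640) (by decide +kernel)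
            (CovZ.n2 (5680, 20560) (by decide +kernel)
             (CovZ.leaf K2_ok TE_l13587 _)
             (CovZ.leaf K2_ok TE_l13588 _))
            (CovZ.leaf K2_ok TE_l13589 _)))
          (CovZ.n1 (5600, 20960) (by decide +kernel)
           (CovZ.n2 (5760, 20960) (by decide +kernel)
            (CovZ.leaf K2_ok TE_l13590 _)
            (CovZ.leaf K2_ok TE_l13591 _))
           (CovZ.leaf K2_ok TE_l13592 _)))
         (CovZ.n1 (5440, 20480) (by decide +kernel)
          (CovZ.n2 (5280, 20640) (by decide +kernel)
           (CovZ.n2 (5440, 20640) (by decide +kernel)
            (CovZ.leaf K2_ok TE_l13593 _)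
            (CovZ.leaf K2_ok TE_l13594 _))
           (CovZ.leaf K2_ok TE_l13595 _))
          (CovZ.n1 (5600, 20640) (by decide +kernel)
           (CovZ.n2 (5600, 20480) (by decide +kernel)
            (CovZ.leaf K2_ok TE_l13596 _)
            (CovZ.n1 (5680, 20560) (by decide +kernel)
             (CovZ.leaf K2_ok TE_l13597 _)
             (CovZ.leaf K2_ok TE_l13598 _)))
           (CovZ.n1 (5440, 20640) (by decide +kernel)
            (CovZ.leaf K2_ok TE_l13599 _)
            (CovZ.leaf K2_ok TE_l13600 _)))))
        (CovZ.n1 (6080, 20800) (by decide +kernel)
         (CovZ.n2 (6080, 20480) (by decide +kernel)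
          (CovZ.n2 (5920, 20640) (by decide +kernel)
           (CovZ.subM 332307003898595990965695784251556000 (by decide +kernel)
            (CovZ.n2 (6080, 20640) (by decide +kernel)
             (CovZ.n2 (6000, 20560) (by decide +kernel)
              (CovZ.n2 (6000, 20640) (by decide +kernel)
               (CovZ.n2 (6040, 20600) (by decide +kernel)
                (CovZ.leaf K2_ok TE_l13601 _)
                (CovZ.leaf K2_ok TE_l13602 _))
               (CovZ.n1 (5960, 20600) (by decide +kernel)
                (CovZ.leaf K2_ok TE_l13603 _)
                (CovZ.leaf K2_ok TE_l13604 _)))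
              (CovZ.badM (by decide +kernel)))
             (CovZ.n1 (6000, 20720) (by decide +kernel)
              (CovZ.n2 (6080, 20720) (by decide +kernel)
               (CovZ.n2 (6040, 20680) (by decide +kernel)
                (CovZ.leaf K2_ok TE_l13605 _)
                (CovZ.leaf K2_ok TE_l13606 _))
               (CovZ.leaf K2_ok TE_l13607 _))
              (CovZ.n1 (6000, 20640) (by decide +kernel)
               (CovZ.leaf K2_ok TE_l13608 _)
               (CovZ.n1 (6040, 20680) (by decide +kernel)
                (CovZ.leaf K2_ok TE_l13609 _)
                (CovZ.leaf K2_ok TE_l13610 _))))))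
           (CovZ.n1 (5920, 20480) (by decide +kernel)
            (CovZ.n2 (5840, 20560) (by decide +kernel)
             (CovZ.n2 (5920, 20560) (by decide +kernel)
              (CovZ.n2 (5880, 20520) (by decide +kernel)
               (CovZ.leaf K2_ok TE_l13611 _)
               (CovZ.leaf K2_ok TE_l13612 _))
              (CovZ.leaf K2_ok TE_l13613 _))
             (CovZ.n1 (5840, 20480) (by decide +kernel)
              (CovZ.leaf K2_ok TE_l13614 _)
              (CovZ.leaf K2_ok TE_l13615 _)))
            (CovZ.subM 332307003898595990965695784251556000 (by decide +kernel)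
             (CovZ.n1 (6000, 20560) (by decide +kernel)
              (CovZ.badM (by decide +kernel))
              (CovZ.n1 (5920, 20560) (by decide +kernel)
               (CovZ.leaf K2_ok TE_l13616 _)
               (CovZ.n1 (5960, 20520) (by decide +kernel)
                (CovZ.leaf K2_ok TE_l13617 _)
                (CovZ.leaf K2_ok TE_l13618 _)))))))
          (CovZ.subM 332307003898595986354009765824168096 (by decide +kernel)
           (CovZ.n1 (6240, 20640) (by decide +kernel)
            (CovZ.badM (by decide +kernel))
            (CovZ.n1 (6080, 20640) (by decide +kernel)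
             (CovZ.n2 (6160, 20720) (by decide +kernel)
              (CovZ.badM (by decide +kernel))
              (CovZ.n1 (6080, 20720) (by decide +kernel)
               (CovZ.leaf K2_ok TE_l13619 _)
               (CovZ.n1 (6120, 20680) (by decide +kernel)
                (CovZ.leaf K2_ok TE_l13620 _)
                (CovZ.leaf K2_ok TE_l13621 _))))
             (CovZ.badM (by decide +kernel))))))
         (CovZ.n1 (5760, 20800) (by decide +kernel)
          (CovZ.n2 (5920, 20960) (by decide +kernel)
           (CovZ.n2 (5920, 20800) (by decide +kernel)
            (CovZ.leaf K2_ok TE_l13622 _)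
            (CovZ.n1 (6000, 20880) (by decide +kernel)
             (CovZ.leaf K2_ok TE_l13623 _)
             (CovZ.leaf K2_ok TE_l13624 _)))
           (CovZ.n1 (5760, 20960) (by decide +kernel)
            (CovZ.leaf K2_ok TE_l13625 _)
            (CovZ.leaf K2_ok TE_l13626 _)))
          (CovZ.n1 (5920, 20640) (by decide +kernel)
           (CovZ.n2 (5760, 20640) (by decide +kernel)
            (CovZ.n2 (5840, 20720) (by decide +kernel)
             (CovZ.leaf K2_ok TE_l13627 _)
             (CovZ.leaf K2_ok TE_l13628 _))
            (CovZ.n1 (5840, 20560) (by decide +kernel)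
             (CovZ.n2 (5760, 20560) (by decide +kernel)
              (CovZ.leaf K2_ok TE_l13629 _)
              (CovZ.leaf K2_ok TE_l13630 _))
             (CovZ.leaf K2_ok TE_l13631 _)))
           (CovZ.n1 (5920, 20800) (by decide +kernel)
            (CovZ.n2 (6000, 20720) (by decide +kernel)
             (CovZ.n2 (5920, 20720) (by decide +kernel)
              (CovZ.leaf K2_ok TE_l13632 _)
              (CovZ.leaf K2_ok TE_l13633 _))
             (CovZ.leaf K2_ok TE_l13634 _))
            (CovZ.n1 (5840, 20720) (by decide +kernel)
             (CovZ.leaf K2_ok TE_l13635 _)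
             (CovZ.leaf K2_ok TE_l13636 _))))))))

theorem TE_u21 : CovZ TE_M (toL (selN TE_LN 1496577676670401063514724941221005533436974660075680)) [0, 7, 6, 1] (6400, 20480) (7680, 20480) (6400, 21760) :=
    (CovZ.n1 (7040, 21120) (by decide +kernel)
       (CovZ.badM (by decide +kernel))
       (CovZ.n1 (6400, 21120) (by decide +kernel)
        (CovZ.n2 (6720, 21440) (by decide +kernel)
         (CovZ.n2 (6720, 21120) (by decide +kernel)
          (CovZ.subM 332307003898595986354009765824184480 (by decide +kernel)
           (CovZ.n2 (6560, 21280) (by decide +kernel)
            (CovZ.n2 (6720, 21280) (by decide +kernel)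
             (CovZ.n2 (6640, 21200) (by decide +kernel)
              (CovZ.n2 (6640, 21280) (by decide +kernel)
               (CovZ.n2 (6680, 21240) (by decide +kernel)
                (CovZ.leaf K2_ok TE_l13637 _)
                (CovZ.leaf K2_ok TE_l13638 _))
               (CovZ.n1 (6600, 21240) (by decide +kernel)
                (CovZ.leaf K2_ok TE_l13639 _)
                (CovZ.leaf K2_ok TE_l13640 _)))
              (CovZ.badM (by decide +kernel)))
             (CovZ.n1 (6640, 21360) (by decide +kernel)
              (CovZ.n2 (6720, 21360) (by decide +kernel)
               (CovZ.leaf K2_ok TE_l13641 _)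
               (CovZ.leaf K2_ok TE_l13642 _))
              (CovZ.n1 (6640, 21280) (by decide +kernel)
               (CovZ.leaf K2_ok TE_l13643 _)
               (CovZ.n1 (6680, 21320) (by decide +kernel)
                (CovZ.leaf K2_ok TE_l13644 _)
                (CovZ.leaf K2_ok TE_l13645 _)))))
            (CovZ.n1 (6560, 21120) (by decide +kernel)
             (CovZ.n2 (6480, 21200) (by decide +kernel)
              (CovZ.n2 (6560, 21200) (by decide +kernel)
               (CovZ.n2 (6520, 21160) (by decide +kernel)
                (CovZ.leaf K2_ok TE_l13646 _)
                (CovZ.leaf K2_ok TE_l13647 _))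
               (CovZ.leaf K2_ok TE_l13648 _))
              (CovZ.n1 (6480, 21120) (by decide +kernel)
               (CovZ.leaf K2_ok TE_l13649 _)
               (CovZ.leaf K2_ok TE_l13650 _)))
             (CovZ.n1 (6640, 21200) (by decide +kernel)
              (CovZ.badM (by decide +kernel))
              (CovZ.n1 (6560, 21200) (by decide +kernel)
               (CovZ.leaf K2_ok TE_l13651 _)
               (CovZ.n1 (6600, 21160) (by decide +kernel)
                (CovZ.leaf K2_ok TE_l13652 _)
                (CovZ.leaf K2_ok TE_l13653 _)))))))
          (CovZ.subM 332307003898595986354009765958385824 (by decide +kernel)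
           (CovZ.n1 (6880, 21280) (by decide +kernel)
            (CovZ.badM (by decide +kernel))
            (CovZ.n1 (6720, 21280) (by decide +kernel)
             (CovZ.n2 (6800, 21360) (by decide +kernel)
              (CovZ.badM (by decide +kernel))
              (CovZ.n1 (6720, 21360) (by decide +kernel)
               (CovZ.leaf K2_ok TE_l13654 _)
               (CovZ.n1 (6760, 21320) (by decide +kernel)
                (CovZ.leaf K2_ok TE_l13655 _)
                (CovZ.leaf K2_ok TE_l13656 _))))
             (CovZ.badM (by decide +kernel))))))
         (CovZ.n1 (6400, 21440) (by decide +kernel)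
          (CovZ.n2 (6560, 21600) (by decide +kernel)
           (CovZ.n2 (6560, 21440) (by decide +kernel)
            (CovZ.leaf K2_ok TE_l13657 _)
            (CovZ.n1 (6640, 21520) (by decide +kernel)
             (CovZ.leaf K2_ok TE_l13658 _)
             (CovZ.leaf K2_ok TE_l13659 _)))
           (CovZ.n1 (6400, 21600) (by decide +kernel)
            (CovZ.leaf K2_ok TE_l13660 _)
            (CovZ.leaf K2_ok TE_l13661 _)))
          (CovZ.n1 (6560, 21280) (by decide +kernel)
           (CovZ.n2 (6400, 21280) (by decide +kernel)
            (CovZ.n2 (6480, 21360) (by decide +kernel)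
             (CovZ.leaf K2_ok TE_l13662 _)
             (CovZ.leaf K2_ok TE_l13663 _))
            (CovZ.n1 (6480, 21200) (by decide +kernel)
             (CovZ.n2 (6400, 21200) (by decide +kernel)
              (CovZ.leaf K2_ok TE_l13664 _)
              (CovZ.leaf K2_ok TE_l13665 _))
             (CovZ.leaf K2_ok TE_l13666 _)))
           (CovZ.n1 (6560, 21440) (by decide +kernel)
            (CovZ.n2 (6640, 21360) (by decide +kernel)
             (CovZ.n2 (6560, 21360) (by decide +kernel)
              (CovZ.leaf K2_ok TE_l13667 _)
              (CovZ.leaf K2_ok TE_l13668 _))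
             (CovZ.leaf K2_ok TE_l13669 _))
            (CovZ.n1 (6480, 21360) (by decide +kernel)
             (CovZ.leaf K2_ok TE_l13670 _)
             (CovZ.leaf K2_ok TE_l13671 _))))))
        (CovZ.n1 (6720, 20800) (by decide +kernel)
         (CovZ.subM 332307003898595986354009765824184480 (by decide +kernel)
          (CovZ.n2 (6400, 20800) (by decide +kernel)
           (CovZ.n2 (6560, 20960) (by decide +kernel)
            (CovZ.badM (by decide +kernel))
            (CovZ.n1 (6400, 20960) (by decide +kernel)
             (CovZ.n2 (6480, 21040) (by decide +kernel)
              (CovZ.badM (by decide +kernel))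
              (CovZ.n1 (6400, 21040) (by decide +kernel)
               (CovZ.leaf K2_ok TE_l13672 _)
               (CovZ.n1 (6440, 21000) (by decide +kernel)
                (CovZ.leaf K2_ok TE_l13673 _)
                (CovZ.leaf K2_ok TE_l13674 _))))
             (CovZ.badM (by decide +kernel))))
           (CovZ.badM (by decide +kernel))))
         (CovZ.n1 (6720, 21120) (by decide +kernel)
          (CovZ.badM (by decide +kernel))
          (CovZ.subM 332307003898595986354009765824184480 (by decide +kernel)
           (CovZ.n1 (6560, 20960) (by decide +kernel)
            (CovZ.n2 (6560, 21120) (by decide +kernel)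
             (CovZ.badM (by decide +kernel))
             (CovZ.n1 (6480, 21040) (by decide +kernel)
              (CovZ.n2 (6480, 21120) (by decide +kernel)
               (CovZ.n2 (6520, 21080) (by decide +kernel)
                (CovZ.leaf K2_ok TE_l13675 _)
                (CovZ.leaf K2_ok TE_l13676 _))
               (CovZ.leaf K2_ok TE_l13677 _))
              (CovZ.n1 (6560, 21040) (by decide +kernel)
               (CovZ.badM (by decide +kernel))
               (CovZ.n1 (6520, 21080) (by decide +kernel)
                (CovZ.badM (by decide +kernel))
                (CovZ.leaf K2_ok TE_l18369 _)))))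
            (CovZ.badM (by decide +kernel))))))))

theorem TE_u22 : CovZ TE_M (toL (selN TE_LN 416838787115523207166808134185950562049160167365934055585)) [0, 7, 6, 1] (7680, 20480) (8960, 21760) (7680, 23040) :=
    (CovZ.n2 (7680, 21760) (by decide +kernel)
     (CovZ.n2 (8320, 22400) (by decide +kernel)
      (CovZ.subM 392318858461667547739736838950479151006433244110380859392 (by decide +kernel)
       (CovZ.n2 (8320, 21760) (by decide +kernel)
        (CovZ.n2 (8000, 22080) (by decide +kernel)
         (CovZ.badM (by decide +kernel))
         (CovZ.n1 (8000, 21760) (by decide +kernel)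
          (CovZ.n2 (7840, 21920) (by decide +kernel)
           (CovZ.badM (by decide +kernel))
           (CovZ.badM (by decide +kernel)))
          (CovZ.badM (by decide +kernel))))
        (CovZ.badM (by decide +kernel))))
      (CovZ.n1 (7680, 22400) (by decide +kernel)
       (CovZ.n2 (8000, 22720) (by decide +kernel)
        (CovZ.subM 392318858461668941876926421039262556512881314444511019168 (by decide +kernel)
         (CovZ.n2 (8000, 22400) (by decide +kernel)
          (CovZ.n2 (7840, 22560) (by decide +kernel)
           (CovZ.n2 (8000, 22560) (by decide +kernel)
            (CovZ.n2 (7920, 22480) (by decide +kernel)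
             (CovZ.n2 (7920, 22560) (by decide +kernel)
              (CovZ.n2 (7960, 22520) (by decide +kernel)
               (CovZ.leaf K2_ok TE_l14861 _)
               (CovZ.leaf K2_ok TE_l14862 _))
              (CovZ.n1 (7880, 22520) (by decide +kernel)
               (CovZ.leaf K2_ok TE_l14863 _)
               (CovZ.leaf K2_ok TE_l14864 _)))
             (CovZ.badM (by decide +kernel)))
            (CovZ.n1 (7920, 22640) (by decide +kernel)
             (CovZ.n2 (8000, 22640) (by decide +kernel)
              (CovZ.n2 (7960, 22600) (by decide +kernel)
               (CovZ.leaf K2_ok TE_l14865 _)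
               (CovZ.leaf K2_ok TE_l14866 _))
              (CovZ.leaf K2_ok TE_l14867 _))
             (CovZ.n1 (7920, 22560) (by decide +kernel)
              (CovZ.leaf K2_ok TE_l14868 _)
              (CovZ.leaf K2_ok TE_l14869 _))))
           (CovZ.n1 (7840, 22400) (by decide +kernel)
            (CovZ.n2 (7760, 22480) (by decide +kernel)
             (CovZ.n2 (7840, 22480) (by decide +kernel)
              (CovZ.leaf K2_ok TE_l14870 _)
              (CovZ.leaf K2_ok TE_l14871 _))
             (CovZ.n1 (7760, 22400) (by decide +kernel)
              (CovZ.leaf K2_ok TE_l14872 _)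
              (CovZ.n1 (7800, 22440) (by decide +kernel)
               (CovZ.leaf K2_ok TE_l14873 _)
               (CovZ.leaf K2_ok TE_l14874 _))))
            (CovZ.n1 (7920, 22480) (by decide +kernel)
             (CovZ.badM (by decide +kernel))
             (CovZ.n1 (7840, 22480) (by decide +kernel)
              (CovZ.n2 (7880, 22520) (by decide +kernel)
               (CovZ.leaf K2_ok TE_l14875 _)
               (CovZ.leaf K2_ok TE_l14876 _))
              (CovZ.n1 (7880, 22440) (by decide +kernel)
               (CovZ.leaf K2_ok TE_l14877 _)
               (CovZ.leaf K2_ok TE_l14878 _))))))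
          (CovZ.n1 (8160, 22560) (by decide +kernel)
           (CovZ.badM (by decide +kernel))
           (CovZ.n1 (8000, 22560) (by decide +kernel)
            (CovZ.n2 (8080, 22640) (by decide +kernel)
             (CovZ.n2 (8080, 22560) (by decide +kernel)
              (CovZ.n2 (8040, 22600) (by decide +kernel)
               (CovZ.leaf K2_ok TE_l19660 _)
               (CovZ.badM (by decide +kernel)))
              (CovZ.badM (by decide +kernel)))
             (CovZ.n1 (8000, 22640) (by decide +kernel)
              (CovZ.n2 (8040, 22680) (by decide +kernel)
               (CovZ.leaf K2_ok TE_l14879 _)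
               (CovZ.leaf K2_ok TE_l14880 _))
              (CovZ.n1 (8040, 22600) (by decide +kernel)
               (CovZ.leaf K2_ok TE_l14881 _)
               (CovZ.leaf K2_ok TE_l14882 _))))
            (CovZ.n1 (8080, 22480) (by decide +kernel)
             (CovZ.badM (by decide +kernel))
             (CovZ.n1 (8080, 22560) (by decide +kernel)
              (CovZ.badM (by decide +kernel))
              (CovZ.badM (by decide +kernel))))))))
        (CovZ.n1 (7680, 22720) (by decide +kernel)
         (CovZ.n2 (7840, 22880) (by decide +kernel)
          (CovZ.n2 (7840, 22720) (by decide +kernel)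
           (CovZ.leaf K2_ok TE_l14883 _)
           (CovZ.n1 (7920, 22800) (by decide +kernel)
            (CovZ.leaf K2_ok TE_l14884 _)
            (CovZ.leaf K2_ok TE_l14885 _)))
          (CovZ.n1 (7680, 22880) (by decide +kernel)
           (CovZ.leaf K2_ok TE_l14886 _)
           (CovZ.leaf K2_ok TE_l14887 _)))
         (CovZ.n1 (7840, 22560) (by decide +kernel)
          (CovZ.subM 416838787115521769814085065309721157468389099876854530208 (by decide +kernel)
           (CovZ.n2 (7680, 22560) (by decide +kernel)
            (CovZ.n2 (7760, 22640) (by decide +kernel)
             (CovZ.leaf K2_ok TE_l14888 _)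
             (CovZ.leaf K2_ok TE_l14889 _))
            (CovZ.n1 (7760, 22480) (by decide +kernel)
             (CovZ.n2 (7680, 22480) (by decide +kernel)
              (CovZ.leaf K2_ok TE_l14890 _)
              (CovZ.leaf K2_ok TE_l14891 _))
             (CovZ.n1 (7760, 22560) (by decide +kernel)
              (CovZ.leaf K2_ok TE_l14892 _)
              (CovZ.leaf K2_ok TE_l14893 _)))))
          (CovZ.n1 (7840, 22720) (by decide +kernel)
           (CovZ.subM 392318858461668941876926421039262556512881314444511019168 (by decide +kernel)
            (CovZ.n2 (7920, 22640) (by decide +kernel)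
             (CovZ.n2 (7840, 22640) (by decide +kernel)
              (CovZ.leaf K2_ok TE_l14894 _)
              (CovZ.leaf K2_ok TE_l14895 _))
             (CovZ.n1 (7920, 22720) (by decide +kernel)
              (CovZ.leaf K2_ok TE_l14896 _)
              (CovZ.leaf K2_ok TE_l14897 _))))
           (CovZ.n1 (7760, 22640) (by decide +kernel)
            (CovZ.leaf K2_ok TE_l14898 _)
            (CovZ.leaf K2_ok TE_l14899 _))))))
       (CovZ.n1 (8000, 22080) (by decide +kernel)
        (CovZ.subM 43896757639804960382835501373590274572448 (by decide +kernel)
         (CovZ.n2 (7680, 22080) (by decide +kernel)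
          (CovZ.n2 (7840, 22240) (by decide +kernel)
           (CovZ.subM 36028797018963968 (by decide +kernel)
            (CovZ.n2 (7840, 22080) (by decide +kernel)
             (CovZ.n2 (7760, 22160) (by decide +kernel)
              (CovZ.n2 (7840, 22160) (by decide +kernel)
               (CovZ.badM (by decide +kernel))
               (CovZ.n1 (7800, 22200) (by decide +kernel)
                (CovZ.badM (by decide +kernel))
                (CovZ.badM (by decide +kernel))))
              (CovZ.badM (by decide +kernel)))
             (CovZ.badM (by decide +kernel))))
           (CovZ.n1 (7680, 22240) (by decide +kernel)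
            (CovZ.n2 (7760, 22320) (by decide +kernel)
             (CovZ.n2 (7760, 22240) (by decide +kernel)
              (CovZ.n2 (7720, 22280) (by decide +kernel)
               (CovZ.badM (by decide +kernel))
               (CovZ.leaf K2_ok TE_l19338 _))
              (CovZ.badM (by decide +kernel)))
             (CovZ.n1 (7680, 22320) (by decide +kernel)
              (CovZ.n2 (7720, 22360) (by decide +kernel)
               (CovZ.leaf K2_ok TE_l14900 _)
               (CovZ.leaf K2_ok TE_l14901 _))
              (CovZ.n1 (7720, 22280) (by decide +kernel)
               (CovZ.leaf K2_ok TE_l14902 _)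
               (CovZ.leaf K2_ok TE_l14903 _))))
            (CovZ.subM 36028797018963968 (by decide +kernel)
             (CovZ.n1 (7760, 22160) (by decide +kernel)
              (CovZ.badM (by decide +kernel))
              (CovZ.n1 (7760, 22240) (by decide +kernel)
               (CovZ.n2 (7800, 22200) (by decide +kernel)
                (CovZ.badM (by decide +kernel))
                (CovZ.badM (by decide +kernel)))
               (CovZ.badM (by decide +kernel)))))))
          (CovZ.n1 (7840, 21920) (by decide +kernel)
           (CovZ.badM (by decide +kernel))
           (CovZ.badM (by decide +kernel)))))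
        (CovZ.subM 392318858461668941876926421039262556512304853692207595680 (by decide +kernel)
         (CovZ.n1 (8000, 22400) (by decide +kernel)
          (CovZ.badM (by decide +kernel))
          (CovZ.n1 (7840, 22240) (by decide +kernel)
           (CovZ.n2 (7840, 22400) (by decide +kernel)
            (CovZ.badM (by decide +kernel))
            (CovZ.n1 (7760, 22320) (by decide +kernel)
             (CovZ.n2 (7760, 22400) (by decide +kernel)
              (CovZ.n2 (7800, 22360) (by decide +kernel)
               (CovZ.leaf K2_ok TE_l14904 _)
               (CovZ.leaf K2_ok TE_l14905 _))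
              (CovZ.leaf K2_ok TE_l14906 _))
             (CovZ.n1 (7840, 22320) (by decide +kernel)
              (CovZ.badM (by decide +kernel))
              (CovZ.n1 (7800, 22360) (by decide +kernel)
               (CovZ.leaf K2_ok TE_l19661 _)
               (CovZ.badM (by decide +kernel))))))
           (CovZ.badM (by decide +kernel))))))))
     (CovZ.subM 392318858461667547739736838950479151006433244110380859392 (by decide +kernel)
      (CovZ.n1 (8320, 21120) (by decide +kernel)
       (CovZ.badM (by decide +kernel))
       (CovZ.n1 (8320, 21760) (by decide +kernel)
        (CovZ.badM (by decide +kernel))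
        (CovZ.n1 (8000, 21440) (by decide +kernel)
         (CovZ.n2 (8000, 21760) (by decide +kernel)
          (CovZ.badM (by decide +kernel))
          (CovZ.badM (by decide +kernel)))
         (CovZ.badM (by decide +kernel)))))))

theorem TE_u23 : CovZ TE_M (toL (selN TE_LN 416838787115523207166808134185950562049160167365934055585)) [0, 7, 6, 1] (8960, 21760) (10240, 23040) (7680, 23040) :=
    (CovZ.n1 (8960, 23040) (by decide +kernel)
     (CovZ.badM (by decide +kernel))
     (CovZ.n1 (8320, 22400) (by decide +kernel)
      (CovZ.n2 (8320, 23040) (by decide +kernel)
       (CovZ.subM 1394137189584624084605889155925865150808224 (by decide +kernel)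
        (CovZ.n2 (8640, 22720) (by decide +kernel)
         (CovZ.n2 (8320, 22720) (by decide +kernel)
          (CovZ.n2 (8480, 22880) (by decide +kernel)
           (CovZ.badM (by decide +kernel))
           (CovZ.n1 (8320, 22880) (by decide +kernel)
            (CovZ.n2 (8400, 22960) (by decide +kernel)
             (CovZ.badM (by decide +kernel))
             (CovZ.n1 (8320, 22960) (by decide +kernel)
              (CovZ.n2 (8360, 23000) (by decide +kernel)
               (CovZ.leaf K2_ok TE_l14908 _)
               (CovZ.leaf K2_ok TE_l14909 _))
              (CovZ.n1 (8360, 22920) (by decide +kernel)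
               (CovZ.leaf K2_ok TE_l14910 _)
               (CovZ.leaf K2_ok TE_l14911 _))))
            (CovZ.badM (by decide +kernel))))
          (CovZ.badM (by decide +kernel)))
         (CovZ.n1 (8640, 23040) (by decide +kernel)
          (CovZ.badM (by decide +kernel))
          (CovZ.n1 (8480, 22880) (by decide +kernel)
           (CovZ.n2 (8480, 23040) (by decide +kernel)
            (CovZ.badM (by decide +kernel))
            (CovZ.n1 (8400, 22960) (by decide +kernel)
             (CovZ.n2 (8400, 23040) (by decide +kernel)
              (CovZ.n2 (8440, 23000) (by decide +kernel)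
               (CovZ.leaf K2_ok TE_l14912 _)
               (CovZ.leaf K2_ok TE_l14913 _))
              (CovZ.leaf K2_ok TE_l14914 _))
             (CovZ.n1 (8480, 22960) (by decide +kernel)
              (CovZ.badM (by decide +kernel))
              (CovZ.n1 (8440, 23000) (by decide +kernel)
               (CovZ.leaf K2_ok TE_l19339 _)
               (CovZ.badM (by decide +kernel))))))
           (CovZ.badM (by decide +kernel))))))
       (CovZ.n1 (8000, 22720) (by decide +kernel)
        (CovZ.n2 (8000, 23040) (by decide +kernel)
         (CovZ.n2 (8160, 22880) (by decide +kernel)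
          (CovZ.n2 (8000, 22880) (by decide +kernel)
           (CovZ.n2 (8080, 22960) (by decide +kernel)
            (CovZ.leaf K2_ok TE_l14915 _)
            (CovZ.leaf K2_ok TE_l14916 _))
           (CovZ.subM 1394137189582088783405432697193240488575136 (by decide +kernel)
            (CovZ.n1 (8080, 22800) (by decide +kernel)
             (CovZ.n2 (8000, 22800) (by decide +kernel)
              (CovZ.leaf K2_ok TE_l14917 _)
              (CovZ.leaf K2_ok TE_l14918 _))
             (CovZ.n1 (8080, 22880) (by decide +kernel)
              (CovZ.leaf K2_ok TE_l14919 _)
              (CovZ.leaf K2_ok TE_l14920 _)))))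
          (CovZ.n1 (8160, 23040) (by decide +kernel)
           (CovZ.subM 1394137189582088783405432697193240488575136 (by decide +kernel)
            (CovZ.n2 (8240, 22960) (by decide +kernel)
             (CovZ.n2 (8160, 22960) (by decide +kernel)
              (CovZ.leaf K2_ok TE_l14921 _)
              (CovZ.leaf K2_ok TE_l14922 _))
             (CovZ.n1 (8240, 23040) (by decide +kernel)
              (CovZ.leaf K2_ok TE_l14923 _)
              (CovZ.leaf K2_ok TE_l14924 _))))
           (CovZ.n1 (8080, 22960) (by decide +kernel)
            (CovZ.leaf K2_ok TE_l14925 _)
            (CovZ.leaf K2_ok TE_l14926 _))))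
         (CovZ.n1 (7840, 22880) (by decide +kernel)
          (CovZ.n2 (7840, 23040) (by decide +kernel)
           (CovZ.leaf K2_ok TE_l14927 _)
           (CovZ.leaf K2_ok TE_l14928 _))
          (CovZ.n1 (8000, 22880) (by decide +kernel)
           (CovZ.n2 (7920, 22800) (by decide +kernel)
            (CovZ.leaf K2_ok TE_l14929 _)
            (CovZ.leaf K2_ok TE_l14930 _))
           (CovZ.leaf K2_ok TE_l14931 _))))
        (CovZ.subM 1394137189582088783405432697193240488575136 (by decide +kernel)
         (CovZ.n1 (8320, 22720) (by decide +kernel)
          (CovZ.n2 (8160, 22560) (by decide +kernel)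
           (CovZ.n2 (8160, 22720) (by decide +kernel)
            (CovZ.badM (by decide +kernel))
            (CovZ.n1 (8080, 22640) (by decide +kernel)
             (CovZ.n2 (8080, 22720) (by decide +kernel)
              (CovZ.n2 (8120, 22680) (by decide +kernel)
               (CovZ.leaf K2_ok TE_l14932 _)
               (CovZ.leaf K2_ok TE_l14933 _))
              (CovZ.n1 (8040, 22680) (by decide +kernel)
               (CovZ.leaf K2_ok TE_l14934 _)
               (CovZ.leaf K2_ok TE_l14935 _)))
             (CovZ.badM (by decide +kernel))))
           (CovZ.badM (by decide +kernel)))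
          (CovZ.n1 (8160, 22880) (by decide +kernel)
           (CovZ.n2 (8320, 22880) (by decide +kernel)
            (CovZ.n2 (8240, 22800) (by decide +kernel)
             (CovZ.n2 (8240, 22880) (by decide +kernel)
              (CovZ.n2 (8280, 22840) (by decide +kernel)
               (CovZ.leaf K2_ok TE_l14937 _)
               (CovZ.leaf K2_ok TE_l14938 _))
              (CovZ.leaf K2_ok TE_l14939 _))
             (CovZ.badM (by decide +kernel)))
            (CovZ.n1 (8240, 22960) (by decide +kernel)
             (CovZ.n2 (8320, 22960) (by decide +kernel)
              (CovZ.n2 (8280, 22920) (by decide +kernel)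
               (CovZ.leaf K2_ok TE_l14942 _)
               (CovZ.leaf K2_ok TE_l14943 _))
              (CovZ.leaf K2_ok TE_l14944 _))
             (CovZ.n1 (8240, 22880) (by decide +kernel)
              (CovZ.leaf K2_ok TE_l14945 _)
              (CovZ.n1 (8280, 22920) (by decide +kernel)
               (CovZ.leaf K2_ok TE_l14946 _)
               (CovZ.leaf K2_ok TE_l14947 _)))))
           (CovZ.n1 (8160, 22720) (by decide +kernel)
            (CovZ.n2 (8080, 22800) (by decide +kernel)
             (CovZ.n2 (8160, 22800) (by decide +kernel)
              (CovZ.n2 (8120, 22760) (by decide +kernel)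
               (CovZ.leaf K2_ok TE_l14948 _)
               (CovZ.leaf K2_ok TE_l14949 _))
              (CovZ.leaf K2_ok TE_l14950 _))
             (CovZ.n1 (8080, 22720) (by decide +kernel)
              (CovZ.leaf K2_ok TE_l14951 _)
              (CovZ.n1 (8120, 22760) (by decide +kernel)
               (CovZ.leaf K2_ok TE_l14952 _)
               (CovZ.leaf K2_ok TE_l14953 _))))
            (CovZ.n1 (8240, 22800) (by decide +kernel)
             (CovZ.n2 (8240, 22720) (by decide +kernel)
              (CovZ.n2 (8200, 22760) (by decide +kernel)
               (CovZ.leaf K2_ok TE_l19340 _)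
               (CovZ.leaf K2_ok TE_l19341 _))
              (CovZ.badM (by decide +kernel)))
             (CovZ.n1 (8160, 22800) (by decide +kernel)
              (CovZ.leaf K2_ok TE_l14954 _)
              (CovZ.n1 (8200, 22760) (by decide +kernel)
               (CovZ.leaf K2_ok TE_l14955 _)
               (CovZ.leaf K2_ok TE_l14956 _))))))))))
      (CovZ.badM (by decide +kernel))))

theorem TE_u24 : CovZ TE_M (toL (selN TE_LN 1048577)) [0, 7, 6, 1] (0, 25600) (0, 24960) (640, 24960) :=
    (CovZ.n2 (320, 25280) (by decide +kernel)
         (CovZ.n2 (320, 24960) (by decide +kernel)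
          (CovZ.n2 (160, 25120) (by decide +kernel)
           (CovZ.n2 (320, 25120) (by decide +kernel)
            (CovZ.n2 (240, 25040) (by decide +kernel)
             (CovZ.badM (by decide +kernel))
             (CovZ.n1 (320, 25040) (by decide +kernel)
              (CovZ.n2 (280, 25000) (by decide +kernel)
               (CovZ.n2 (280, 25040) (by decide +kernel)
                (CovZ.n2 (300, 25020) (by decide +kernel)
                 (CovZ.leaf K2_ok TE_l2870 _)
                 (CovZ.badM (by decide +kernel)))
                (CovZ.n1 (260, 25020) (by decide +kernel)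
                 (CovZ.badM (by decide +kernel))
                 (CovZ.leaf K2_ok TE_l2873 _)))
               (CovZ.n1 (320, 25000) (by decide +kernel)
                (CovZ.leaf K2_ok TE_l2874 _)
                (CovZ.leaf K2_ok TE_l2875 _)))
              (CovZ.badM (by decide +kernel))))
            (CovZ.badM (by decide +kernel)))
           (CovZ.n1 (160, 24960) (by decide +kernel)
            (CovZ.n2 (80, 25040) (by decide +kernel)
             (CovZ.n2 (160, 25040) (by decide +kernel)
              (CovZ.n2 (120, 25000) (by decide +kernel)
               (CovZ.badM (by decide +kernel))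
               (CovZ.n1 (160, 25000) (by decide +kernel)
                (CovZ.leaf K2_ok TE_l2876 _)
                (CovZ.badM (by decide +kernel))))
              (CovZ.badM (by decide +kernel)))
             (CovZ.n1 (80, 24960) (by decide +kernel)
              (CovZ.n2 (40, 25000) (by decide +kernel)
               (CovZ.n2 (80, 25000) (by decide +kernel)
                (CovZ.leaf K2_ok TE_l17147 _)
                (CovZ.badM (by decide +kernel)))
               (CovZ.leaf K2_ok TE_l17148 _))
              (CovZ.n1 (120, 25000) (by decide +kernel)
               (CovZ.leaf K2_ok TE_l2878 _)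
               (CovZ.n1 (80, 25000) (by decide +kernel)
                (CovZ.badM (by decide +kernel))
                (CovZ.leaf K2_ok TE_l17149 _)))))
            (CovZ.n1 (240, 25040) (by decide +kernel)
             (CovZ.n2 (240, 24960) (by decide +kernel)
              (CovZ.n2 (200, 25000) (by decide +kernel)
               (CovZ.n2 (240, 25000) (by decide +kernel)
                (CovZ.leaf K2_ok TE_l2879 _)
                (CovZ.leaf K2_ok TE_l2880 _))
               (CovZ.leaf K2_ok TE_l2881 _))
              (CovZ.n1 (280, 25000) (by decide +kernel)
               (CovZ.leaf K2_ok TE_l2882 _)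
               (CovZ.n1 (240, 25000) (by decide +kernel)
                (CovZ.n2 (260, 25020) (by decide +kernel)
                 (CovZ.leaf K2_ok TE_l2883 _)
                 (CovZ.leaf K2_ok TE_l2884 _))
                (CovZ.leaf K2_ok TE_l2885 _))))
             (CovZ.n1 (160, 25040) (by decide +kernel)
              (CovZ.badM (by decide +kernel))
              (CovZ.n1 (200, 25000) (by decide +kernel)
               (CovZ.n2 (160, 25000) (by decide +kernel)
                (CovZ.n2 (180, 25020) (by decide +kernel)
                 (CovZ.leaf K2_ok TE_l2887 _)
                 (CovZ.badM (by decide +kernel)))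
                (CovZ.leaf K2_ok TE_l2889 _))
               (CovZ.n1 (200, 25040) (by decide +kernel)
                (CovZ.n2 (220, 25020) (by decide +kernel)
                 (CovZ.leaf K2_ok TE_l2890 _)
                 (CovZ.badM (by decide +kernel)))
                (CovZ.n1 (180, 25020) (by decide +kernel)
                 (CovZ.badM (by decide +kernel))
                 (CovZ.leaf K2_ok TE_l2892 _))))))))
          (CovZ.n1 (480, 25120) (by decide +kernel)
           (CovZ.n2 (480, 24960) (by decide +kernel)
            (CovZ.n2 (400, 25040) (by decide +kernel)
             (CovZ.n2 (480, 25040) (by decide +kernel)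
              (CovZ.n2 (440, 25000) (by decide +kernel)
               (CovZ.n2 (440, 25040) (by decide +kernel)
                (CovZ.n2 (460, 25020) (by decide +kernel)
                 (CovZ.leaf K2_ok TE_l17150 _)
                 (CovZ.badM (by decide +kernel)))
                (CovZ.n1 (420, 25020) (by decide +kernel)
                 (CovZ.badM (by decide +kernel))
                 (CovZ.leaf K2_ok TE_l17151 _)))
               (CovZ.n1 (480, 25000) (by decide +kernel)
                (CovZ.leaf K2_ok TE_l2893 _)
                (CovZ.leaf K2_ok TE_l17152 _)))
              (CovZ.badM (by decide +kernel)))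
             (CovZ.n1 (400, 24960) (by decide +kernel)
              (CovZ.n2 (360, 25000) (by decide +kernel)
               (CovZ.n2 (400, 25000) (by decide +kernel)
                (CovZ.leaf K2_ok TE_l2894 _)
                (CovZ.leaf K2_ok TE_l2895 _))
               (CovZ.leaf K2_ok TE_l2896 _))
              (CovZ.n1 (440, 25000) (by decide +kernel)
               (CovZ.leaf K2_ok TE_l2897 _)
               (CovZ.n1 (400, 25000) (by decide +kernel)
                (CovZ.n2 (420, 25020) (by decide +kernel)
                 (CovZ.leaf K2_ok TE_l2898 _)
                 (CovZ.leaf K2_ok TE_l2899 _))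
                (CovZ.leaf K2_ok TE_l2900 _)))))
            (CovZ.n1 (560, 25040) (by decide +kernel)
             (CovZ.n2 (560, 24960) (by decide +kernel)
              (CovZ.n2 (520, 25000) (by decide +kernel)
               (CovZ.n2 (560, 25000) (by decide +kernel)
                (CovZ.leaf K2_ok TE_l2901 _)
                (CovZ.leaf K2_ok TE_l17153 _))
               (CovZ.leaf K2_ok TE_l2902 _))
              (CovZ.n1 (600, 25000) (by decide +kernel)
               (CovZ.leaf K2_ok TE_l2903 _)
               (CovZ.n1 (560, 25000) (by decide +kernel)
                (CovZ.n2 (580, 25020) (by decide +kernel)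
                 (CovZ.leaf K2_ok TE_l17154 _)
                 (CovZ.leaf K2_ok TE_l17155 _))
                (CovZ.leaf K2_ok TE_l2904 _))))
             (CovZ.n1 (480, 25040) (by decide +kernel)
              (CovZ.badM (by decide +kernel))
              (CovZ.n1 (520, 25000) (by decide +kernel)
               (CovZ.n2 (480, 25000) (by decide +kernel)
                (CovZ.n2 (500, 25020) (by decide +kernel)
                 (CovZ.leaf K2_ok TE_l17156 _)
                 (CovZ.leaf K2_ok TE_l17157 _))
                (CovZ.leaf K2_ok TE_l2905 _))
               (CovZ.n1 (520, 25040) (by decide +kernel)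
                (CovZ.n2 (540, 25020) (by decide +kernel)
                 (CovZ.leaf K2_ok TE_l17158 _)
                 (CovZ.badM (by decide +kernel)))
                (CovZ.n1 (500, 25020) (by decide +kernel)
                 (CovZ.badM (by decide +kernel))
                 (CovZ.leaf K2_ok TE_l17159 _)))))))
           (CovZ.n1 (320, 25120) (by decide +kernel)
            (CovZ.badM (by decide +kernel))
            (CovZ.n1 (400, 25040) (by decide +kernel)
             (CovZ.n2 (320, 25040) (by decide +kernel)
              (CovZ.badM (by decide +kernel))
              (CovZ.n1 (360, 25000) (by decide +kernel)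
               (CovZ.n2 (320, 25000) (by decide +kernel)
                (CovZ.n2 (340, 25020) (by decide +kernel)
                 (CovZ.leaf K2_ok TE_l2906 _)
                 (CovZ.leaf K2_ok TE_l2907 _))
                (CovZ.leaf K2_ok TE_l2908 _))
               (CovZ.n1 (360, 25040) (by decide +kernel)
                (CovZ.n2 (380, 25020) (by decide +kernel)
                 (CovZ.leaf K2_ok TE_l2909 _)
                 (CovZ.badM (by decide +kernel)))
                (CovZ.n1 (340, 25020) (by decide +kernel)
                 (CovZ.badM (by decide +kernel))
                 (CovZ.leaf K2_ok TE_l2910 _)))))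
             (CovZ.badM (by decide +kernel))))))
         (CovZ.n1 (0, 25280) (by decide +kernel)
          (CovZ.badM (by decide +kernel))
          (CovZ.n1 (160, 25120) (by decide +kernel)
           (CovZ.n2 (0, 25120) (by decide +kernel)
            (CovZ.badM (by decide +kernel))
            (CovZ.n1 (80, 25040) (by decide +kernel)
             (CovZ.n2 (0, 25040) (by decide +kernel)
              (CovZ.badM (by decide +kernel))
              (CovZ.n1 (40, 25000) (by decide +kernel)
               (CovZ.n2 (0, 25000) (by decide +kernel)
                (CovZ.badM (by decide +kernel))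
                (CovZ.leaf K2_ok TE_l17160 _))
               (CovZ.badM (by decide +kernel))))
             (CovZ.badM (by decide +kernel))))
           (CovZ.badM (by decide +kernel)))))

theorem TE_u25 : CovZ TE_M (toL (selN TE_LN 1048577)) [0, 7, 6, 1] (0, 24960) (0, 24320) (640, 24960) :=
    (CovZ.n1 (320, 24640) (by decide +kernel)
         (CovZ.n2 (0, 24640) (by decide +kernel)
          (CovZ.n2 (160, 24800) (by decide +kernel)
           (CovZ.n2 (160, 24640) (by decide +kernel)
            (CovZ.leaf K2_ok TE_l2911 _)
            (CovZ.n1 (240, 24720) (by decide +kernel)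
             (CovZ.leaf K2_ok TE_l2912 _)
             (CovZ.leaf K2_ok TE_l2913 _)))
           (CovZ.n1 (0, 24800) (by decide +kernel)
            (CovZ.n2 (80, 24880) (by decide +kernel)
             (CovZ.leaf K2_ok TE_l2914 _)
             (CovZ.n1 (0, 24880) (by decide +kernel)
              (CovZ.n2 (40, 24920) (by decide +kernel)
               (CovZ.leaf K2_ok TE_l2915 _)
               (CovZ.leaf K2_ok TE_l2916 _))
              (CovZ.leaf K2_ok TE_l2917 _)))
            (CovZ.leaf K2_ok TE_l2918 _)))
          (CovZ.n1 (160, 24480) (by decide +kernel)
           (CovZ.leaf K2_ok TE_l2919 _)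
           (CovZ.leaf K2_ok TE_l2920 _)))
         (CovZ.n1 (320, 24960) (by decide +kernel)
          (CovZ.n2 (480, 24800) (by decide +kernel)
           (CovZ.n2 (320, 24800) (by decide +kernel)
            (CovZ.n2 (400, 24880) (by decide +kernel)
             (CovZ.leaf K2_ok TE_l2921 _)
             (CovZ.n1 (320, 24880) (by decide +kernel)
              (CovZ.n2 (360, 24920) (by decide +kernel)
               (CovZ.leaf K2_ok TE_l2922 _)
               (CovZ.leaf K2_ok TE_l2923 _))
              (CovZ.leaf K2_ok TE_l2924 _)))
            (CovZ.n1 (400, 24720) (by decide +kernel)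
             (CovZ.leaf K2_ok TE_l2925 _)
             (CovZ.leaf K2_ok TE_l2926 _)))
           (CovZ.n1 (480, 24960) (by decide +kernel)
            (CovZ.n2 (560, 24880) (by decide +kernel)
             (CovZ.n2 (480, 24880) (by decide +kernel)
              (CovZ.n2 (520, 24920) (by decide +kernel)
               (CovZ.leaf K2_ok TE_l2927 _)
               (CovZ.leaf K2_ok TE_l2928 _))
              (CovZ.leaf K2_ok TE_l2929 _))
             (CovZ.n1 (560, 24960) (by decide +kernel)
              (CovZ.n2 (600, 24920) (by decide +kernel)
               (CovZ.leaf K2_ok TE_l2930 _)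
               (CovZ.leaf K2_ok TE_l2931 _))
              (CovZ.n1 (520, 24920) (by decide +kernel)
               (CovZ.leaf K2_ok TE_l2932 _)
               (CovZ.leaf K2_ok TE_l2933 _))))
            (CovZ.n1 (400, 24880) (by decide +kernel)
             (CovZ.n2 (400, 24960) (by decide +kernel)
              (CovZ.n2 (440, 24920) (by decide +kernel)
               (CovZ.leaf K2_ok TE_l2934 _)
               (CovZ.leaf K2_ok TE_l2935 _))
              (CovZ.n1 (360, 24920) (by decide +kernel)
               (CovZ.leaf K2_ok TE_l2936 _)
               (CovZ.leaf K2_ok TE_l2937 _)))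
             (CovZ.n1 (480, 24880) (by decide +kernel)
              (CovZ.leaf K2_ok TE_l2938 _)
              (CovZ.leaf K2_ok TE_l2939 _)))))
          (CovZ.n1 (160, 24800) (by decide +kernel)
           (CovZ.n2 (160, 24960) (by decide +kernel)
            (CovZ.n2 (240, 24880) (by decide +kernel)
             (CovZ.n2 (160, 24880) (by decide +kernel)
              (CovZ.n2 (200, 24920) (by decide +kernel)
               (CovZ.leaf K2_ok TE_l2940 _)
               (CovZ.leaf K2_ok TE_l2941 _))
              (CovZ.leaf K2_ok TE_l2942 _))
             (CovZ.n1 (240, 24960) (by decide +kernel)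
              (CovZ.n2 (280, 24920) (by decide +kernel)
               (CovZ.leaf K2_ok TE_l2943 _)
               (CovZ.leaf K2_ok TE_l2944 _))
              (CovZ.n1 (200, 24920) (by decide +kernel)
               (CovZ.leaf K2_ok TE_l2945 _)
               (CovZ.leaf K2_ok TE_l2946 _))))
            (CovZ.n1 (80, 24880) (by decide +kernel)
             (CovZ.n2 (80, 24960) (by decide +kernel)
              (CovZ.n2 (120, 24920) (by decide +kernel)
               (CovZ.leaf K2_ok TE_l2947 _)
               (CovZ.leaf K2_ok TE_l2948 _))
              (CovZ.n1 (40, 24920) (by decide +kernel)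
               (CovZ.leaf K2_ok TE_l2949 _)
               (CovZ.leaf K2_ok TE_l2950 _)))
             (CovZ.n1 (160, 24880) (by decide +kernel)
              (CovZ.leaf K2_ok TE_l2951 _)
              (CovZ.leaf K2_ok TE_l2952 _))))
           (CovZ.n1 (320, 24800) (by decide +kernel)
            (CovZ.n2 (240, 24720) (by decide +kernel)
             (CovZ.leaf K2_ok TE_l2953 _)
             (CovZ.leaf K2_ok TE_l2954 _))
            (CovZ.n1 (240, 24880) (by decide +kernel)
             (CovZ.n2 (320, 24880) (by decide +kernel)
              (CovZ.leaf K2_ok TE_l2955 _)
              (CovZ.leaf K2_ok TE_l2956 _))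
             (CovZ.leaf K2_ok TE_l2957 _))))))

theorem TE_u26 : CovZ TE_M (toL (selN TE_LN 5708993493082774891760213287662835921205592064)) [0, 7, 6, 1] (1280, 24320) (1920, 24960) (1280, 25600) :=
    (CovZ.subM 1048576 (by decide +kernel)
        (CovZ.n2 (1280, 24960) (by decide +kernel)
         (CovZ.n2 (1600, 25280) (by decide +kernel)
          (CovZ.n2 (1600, 24960) (by decide +kernel)
           (CovZ.n2 (1440, 25120) (by decide +kernel)
            (CovZ.n2 (1600, 25120) (by decide +kernel)
             (CovZ.n2 (1520, 25040) (by decide +kernel)
              (CovZ.n2 (1520, 25120) (by decide +kernel)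
               (CovZ.n2 (1560, 25080) (by decide +kernel)
                (CovZ.n2 (1520, 25080) (by decide +kernel)
                 (CovZ.badM (by decide +kernel))
                 (CovZ.leaf K2_ok TE_l2972 _))
                (CovZ.badM (by decide +kernel)))
               (CovZ.n1 (1480, 25080) (by decide +kernel)
                (CovZ.badM (by decide +kernel))
                (CovZ.n1 (1520, 25080) (by decide +kernel)
                 (CovZ.leaf K2_ok TE_l2973 _)
                 (CovZ.badM (by decide +kernel)))))
              (CovZ.n1 (1600, 25040) (by decide +kernel)
               (CovZ.n2 (1560, 25000) (by decide +kernel)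
                (CovZ.leaf K2_ok TE_l2974 _)
                (CovZ.leaf K2_ok TE_l2975 _))
               (CovZ.n1 (1560, 25080) (by decide +kernel)
                (CovZ.n2 (1600, 25080) (by decide +kernel)
                 (CovZ.leaf K2_ok TE_l2976 _)
                 (CovZ.badM (by decide +kernel)))
                (CovZ.leaf K2_ok TE_l2977 _))))
             (CovZ.badM (by decide +kernel)))
            (CovZ.n1 (1440, 24960) (by decide +kernel)
             (CovZ.n2 (1360, 25040) (by decide +kernel)
              (CovZ.n2 (1440, 25040) (by decide +kernel)
               (CovZ.n2 (1400, 25000) (by decide +kernel)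
                (CovZ.leaf K2_ok TE_l2978 _)
                (CovZ.leaf K2_ok TE_l2979 _))
               (CovZ.n1 (1400, 25080) (by decide +kernel)
                (CovZ.n2 (1440, 25080) (by decide +kernel)
                 (CovZ.leaf K2_ok TE_l2980 _)
                 (CovZ.badM (by decide +kernel)))
                (CovZ.leaf K2_ok TE_l2981 _)))
              (CovZ.n1 (1360, 24960) (by decide +kernel)
               (CovZ.leaf K2_ok TE_l2982 _)
               (CovZ.n1 (1400, 25000) (by decide +kernel)
                (CovZ.leaf K2_ok TE_l2983 _)
                (CovZ.leaf K2_ok TE_l2984 _))))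
             (CovZ.n1 (1520, 25040) (by decide +kernel)
              (CovZ.n2 (1520, 24960) (by decide +kernel)
               (CovZ.leaf K2_ok TE_l2985 _)
               (CovZ.n1 (1560, 25000) (by decide +kernel)
                (CovZ.leaf K2_ok TE_l2986 _)
                (CovZ.leaf K2_ok TE_l2987 _)))
              (CovZ.n1 (1440, 25040) (by decide +kernel)
               (CovZ.n2 (1480, 25080) (by decide +kernel)
                (CovZ.leaf K2_ok TE_l2988 _)
                (CovZ.n1 (1440, 25080) (by decide +kernel)
                 (CovZ.badM (by decide +kernel))
                 (CovZ.leaf K2_ok TE_l2989 _)))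
               (CovZ.n1 (1480, 25000) (by decide +kernel)
                (CovZ.leaf K2_ok TE_l2990 _)
                (CovZ.leaf K2_ok TE_l2991 _))))))
           (CovZ.n1 (1760, 25120) (by decide +kernel)
            (CovZ.n2 (1760, 24960) (by decide +kernel)
             (CovZ.n2 (1680, 25040) (by decide +kernel)
              (CovZ.n2 (1760, 25040) (by decide +kernel)
               (CovZ.n2 (1720, 25000) (by decide +kernel)
                (CovZ.leaf K2_ok TE_l2992 _)
                (CovZ.leaf K2_ok TE_l2993 _))
               (CovZ.n1 (1720, 25080) (by decide +kernel)
                (CovZ.leaf K2_ok TE_l2994 _)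
                (CovZ.leaf K2_ok TE_l2995 _)))
              (CovZ.n1 (1680, 24960) (by decide +kernel)
               (CovZ.leaf K2_ok TE_l2996 _)
               (CovZ.n1 (1720, 25000) (by decide +kernel)
                (CovZ.leaf K2_ok TE_l2997 _)
                (CovZ.leaf K2_ok TE_l2998 _))))
             (CovZ.n1 (1840, 25040) (by decide +kernel)
              (CovZ.n2 (1840, 24960) (by decide +kernel)
               (CovZ.leaf K2_ok TE_l2999 _)
               (CovZ.n1 (1880, 25000) (by decide +kernel)
                (CovZ.leaf K2_ok TE_l3000 _)
                (CovZ.leaf K2_ok TE_l3001 _)))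
              (CovZ.n1 (1760, 25040) (by decide +kernel)
               (CovZ.n2 (1800, 25080) (by decide +kernel)
                (CovZ.leaf K2_ok TE_l3002 _)
                (CovZ.n1 (1760, 25080) (by decide +kernel)
                 (CovZ.leaf K2_ok TE_l17161 _)
                 (CovZ.leaf K2_ok TE_l3003 _)))
               (CovZ.leaf K2_ok TE_l3004 _))))
            (CovZ.n1 (1600, 25120) (by decide +kernel)
             (CovZ.badM (by decide +kernel))
             (CovZ.n1 (1680, 25040) (by decide +kernel)
              (CovZ.n2 (1600, 25040) (by decide +kernel)
               (CovZ.n2 (1640, 25080) (by decide +kernel)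
                (CovZ.leaf K2_ok TE_l3005 _)
                (CovZ.n1 (1600, 25080) (by decide +kernel)
                 (CovZ.badM (by decide +kernel))
                 (CovZ.leaf K2_ok TE_l3006 _)))
               (CovZ.n1 (1640, 25000) (by decide +kernel)
                (CovZ.leaf K2_ok TE_l3007 _)
                (CovZ.leaf K2_ok TE_l3008 _)))
              (CovZ.n1 (1680, 25120) (by decide +kernel)
               (CovZ.n2 (1720, 25080) (by decide +kernel)
                (CovZ.n2 (1680, 25080) (by decide +kernel)
                 (CovZ.badM (by decide +kernel))
                 (CovZ.leaf K2_ok TE_l3009 _))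
                (CovZ.badM (by decide +kernel)))
               (CovZ.n1 (1640, 25080) (by decide +kernel)
                (CovZ.badM (by decide +kernel))
                (CovZ.n1 (1680, 25080) (by decide +kernel)
                 (CovZ.leaf K2_ok TE_l3010 _)
                 (CovZ.badM (by decide +kernel)))))))))
          (CovZ.n1 (1280, 25280) (by decide +kernel)
           (CovZ.badM (by decide +kernel))
           (CovZ.n1 (1440, 25120) (by decide +kernel)
            (CovZ.n2 (1280, 25120) (by decide +kernel)
             (CovZ.badM (by decide +kernel))
             (CovZ.n1 (1360, 25040) (by decide +kernel)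
              (CovZ.n2 (1280, 25040) (by decide +kernel)
               (CovZ.n2 (1320, 25080) (by decide +kernel)
                (CovZ.leaf K2_ok TE_l3011 _)
                (CovZ.n1 (1280, 25080) (by decide +kernel)
                 (CovZ.badM (by decide +kernel))
                 (CovZ.leaf K2_ok TE_l3012 _)))
               (CovZ.n1 (1320, 25000) (by decide +kernel)
                (CovZ.leaf K2_ok TE_l3013 _)
                (CovZ.leaf K2_ok TE_l3014 _)))
              (CovZ.n1 (1360, 25120) (by decide +kernel)
               (CovZ.n2 (1400, 25080) (by decide +kernel)
                (CovZ.n2 (1360, 25080) (by decide +kernel)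
                 (CovZ.badM (by decide +kernel))
                 (CovZ.leaf K2_ok TE_l3015 _))
                (CovZ.badM (by decide +kernel)))
               (CovZ.n1 (1320, 25080) (by decide +kernel)
                (CovZ.badM (by decide +kernel))
                (CovZ.n1 (1360, 25080) (by decide +kernel)
                 (CovZ.n2 (1340, 25060) (by decide +kernel)
                  (CovZ.leaf K2_ok TE_l3016 _)
                  (CovZ.leaf K2_ok TE_l3017 _))
                 (CovZ.badM (by decide +kernel)))))))
            (CovZ.badM (by decide +kernel)))))
         (CovZ.n1 (1600, 24640) (by decide +kernel)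
          (CovZ.n2 (1280, 24640) (by decide +kernel)
           (CovZ.n2 (1440, 24800) (by decide +kernel)
            (CovZ.n2 (1440, 24640) (by decide +kernel)
             (CovZ.leaf K2_ok TE_l3018 _)
             (CovZ.n1 (1520, 24720) (by decide +kernel)
              (CovZ.leaf K2_ok TE_l3019 _)
              (CovZ.leaf K2_ok TE_l3020 _)))
            (CovZ.n1 (1280, 24800) (by decide +kernel)
             (CovZ.n2 (1360, 24880) (by decide +kernel)
              (CovZ.leaf K2_ok TE_l3021 _)
              (CovZ.n1 (1280, 24880) (by decide +kernel)
               (CovZ.leaf K2_ok TE_l3022 _)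
               (CovZ.leaf K2_ok TE_l3023 _)))
             (CovZ.leaf K2_ok TE_l3024 _)))
           (CovZ.n1 (1440, 24480) (by decide +kernel)
            (CovZ.n2 (1280, 24480) (by decide +kernel)
             (CovZ.leaf K2_ok TE_l3025 _)
             (CovZ.leaf K2_ok TE_l3026 _))
            (CovZ.n1 (1440, 24640) (by decide +kernel)
             (CovZ.leaf K2_ok TE_l3027 _)
             (CovZ.leaf K2_ok TE_l3028 _))))
          (CovZ.n1 (1600, 24960) (by decide +kernel)
           (CovZ.n2 (1760, 24800) (by decide +kernel)
            (CovZ.n2 (1600, 24800) (by decide +kernel)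
             (CovZ.n2 (1680, 24880) (by decide +kernel)
              (CovZ.leaf K2_ok TE_l3029 _)
              (CovZ.n1 (1600, 24880) (by decide +kernel)
               (CovZ.leaf K2_ok TE_l3030 _)
               (CovZ.leaf K2_ok TE_l3031 _)))
             (CovZ.leaf K2_ok TE_l3032 _))
            (CovZ.n1 (1760, 24960) (by decide +kernel)
             (CovZ.n2 (1840, 24880) (by decide +kernel)
              (CovZ.n2 (1760, 24880) (by decide +kernel)
               (CovZ.leaf K2_ok TE_l3033 _)
               (CovZ.leaf K2_ok TE_l3034 _))
              (CovZ.n1 (1840, 24960) (by decide +kernel)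
               (CovZ.leaf K2_ok TE_l3035 _)
               (CovZ.leaf K2_ok TE_l3036 _)))
             (CovZ.n1 (1680, 24880) (by decide +kernel)
              (CovZ.n2 (1680, 24960) (by decide +kernel)
               (CovZ.leaf K2_ok TE_l3037 _)
               (CovZ.leaf K2_ok TE_l3038 _))
              (CovZ.leaf K2_ok TE_l3039 _))))
           (CovZ.n1 (1440, 24800) (by decide +kernel)
            (CovZ.n2 (1440, 24960) (by decide +kernel)
             (CovZ.n2 (1520, 24880) (by decide +kernel)
              (CovZ.n2 (1440, 24880) (by decide +kernel)
               (CovZ.leaf K2_ok TE_l3040 _)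
               (CovZ.leaf K2_ok TE_l3041 _))
              (CovZ.n1 (1520, 24960) (by decide +kernel)
               (CovZ.leaf K2_ok TE_l3042 _)
               (CovZ.n1 (1480, 24920) (by decide +kernel)
                (CovZ.leaf K2_ok TE_l3043 _)
                (CovZ.leaf K2_ok TE_l3044 _))))
             (CovZ.n1 (1360, 24880) (by decide +kernel)
              (CovZ.n2 (1360, 24960) (by decide +kernel)
               (CovZ.leaf K2_ok TE_l3045 _)
               (CovZ.n1 (1320, 24920) (by decide +kernel)
                (CovZ.leaf K2_ok TE_l3046 _)
                (CovZ.leaf K2_ok TE_l3047 _)))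
              (CovZ.n1 (1440, 24880) (by decide +kernel)
               (CovZ.leaf K2_ok TE_l3048 _)
               (CovZ.leaf K2_ok TE_l3049 _))))
            (CovZ.n1 (1600, 24800) (by decide +kernel)
             (CovZ.n2 (1520, 24720) (by decide +kernel)
              (CovZ.leaf K2_ok TE_l3050 _)
              (CovZ.leaf K2_ok TE_l3051 _))
             (CovZ.n1 (1520, 24880) (by decide +kernel)
              (CovZ.leaf K2_ok TE_l3052 _)
              (CovZ.leaf K2_ok TE_l3053 _))))))))

theorem TE_u27 : CovZ TE_M (toL (selN TE_LN 5708993493082774891760213287662835921205592064)) [0, 7, 6, 1] (1920, 24960) (2560, 25600) (1280, 25600) :=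
    (CovZ.n1 (1920, 25600) (by decide +kernel)
        (CovZ.n2 (2240, 25280) (by decide +kernel)
         (CovZ.subM 1048576 (by decide +kernel)
          (CovZ.n2 (1920, 25280) (by decide +kernel)
           (CovZ.badM (by decide +kernel))
           (CovZ.n1 (2080, 25120) (by decide +kernel)
            (CovZ.n2 (1920, 25120) (by decide +kernel)
             (CovZ.badM (by decide +kernel))
             (CovZ.n1 (2000, 25040) (by decide +kernel)
              (CovZ.n2 (1920, 25040) (by decide +kernel)
               (CovZ.n2 (1960, 25080) (by decide +kernel)
                (CovZ.leaf K2_ok TE_l3054 _)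
                (CovZ.leaf K2_ok TE_l3055 _))
               (CovZ.leaf K2_ok TE_l3056 _))
              (CovZ.n1 (2000, 25120) (by decide +kernel)
               (CovZ.n2 (2040, 25080) (by decide +kernel)
                (CovZ.leaf K2_ok TE_l3057 _)
                (CovZ.leaf K2_ok TE_l17162 _))
               (CovZ.n1 (1960, 25080) (by decide +kernel)
                (CovZ.leaf K2_ok TE_l17163 _)
                (CovZ.leaf K2_ok TE_l3058 _)))))
            (CovZ.badM (by decide +kernel)))))
         (CovZ.n1 (2240, 25600) (by decide +kernel)
          (CovZ.subM 5708990770823839524233143877797980545530986496 (by decide +kernel)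
           (CovZ.n2 (2400, 25440) (by decide +kernel)
            (CovZ.n2 (2240, 25440) (by decide +kernel)
             (CovZ.n2 (2320, 25520) (by decide +kernel)
              (CovZ.n2 (2320, 25440) (by decide +kernel)
               (CovZ.badM (by decide +kernel))
               (CovZ.n1 (2360, 25480) (by decide +kernel)
                (CovZ.badM (by decide +kernel))
                (CovZ.badM (by decide +kernel))))
              (CovZ.badM (by decide +kernel)))
             (CovZ.n1 (2320, 25360) (by decide +kernel)
              (CovZ.badM (by decide +kernel))
              (CovZ.n1 (2320, 25440) (by decide +kernel)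
               (CovZ.badM (by decide +kernel))
               (CovZ.badM (by decide +kernel)))))
            (CovZ.n1 (2400, 25600) (by decide +kernel)
             (CovZ.badM (by decide +kernel))
             (CovZ.n1 (2320, 25520) (by decide +kernel)
              (CovZ.badM (by decide +kernel))
              (CovZ.n1 (2400, 25520) (by decide +kernel)
               (CovZ.n2 (2360, 25480) (by decide +kernel)
                (CovZ.n2 (2360, 25520) (by decide +kernel)
                 (CovZ.badM (by decide +kernel))
                 (CovZ.badM (by decide +kernel)))
                (CovZ.badM (by decide +kernel)))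
               (CovZ.n1 (2360, 25560) (by decide +kernel)
                (CovZ.badM (by decide +kernel))
                (CovZ.n1 (2360, 25520) (by decide +kernel)
                 (CovZ.badM (by decide +kernel))
                 (CovZ.badM (by decide +kernel)))))))))
          (CovZ.badM (by decide +kernel))))
        (CovZ.subM 1048576 (by decide +kernel)
         (CovZ.n1 (1600, 25280) (by decide +kernel)
          (CovZ.badM (by decide +kernel))
          (CovZ.n1 (1920, 25280) (by decide +kernel)
           (CovZ.n2 (1760, 25120) (by decide +kernel)
            (CovZ.badM (by decide +kernel))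
            (CovZ.n1 (1920, 25120) (by decide +kernel)
             (CovZ.n2 (1840, 25040) (by decide +kernel)
              (CovZ.n2 (1840, 25120) (by decide +kernel)
               (CovZ.n2 (1880, 25080) (by decide +kernel)
                (CovZ.leaf K2_ok TE_l3059 _)
                (CovZ.leaf K2_ok TE_l17164 _))
               (CovZ.n1 (1800, 25080) (by decide +kernel)
                (CovZ.n2 (1800, 25120) (by decide +kernel)
                 (CovZ.leaf K2_ok TE_l17165 _)
                 (CovZ.leaf K2_ok TE_l17166 _))
                (CovZ.leaf K2_ok TE_l3060 _)))
              (CovZ.n1 (1920, 25040) (by decide +kernel)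
               (CovZ.n2 (1880, 25000) (by decide +kernel)
                (CovZ.leaf K2_ok TE_l3061 _)
                (CovZ.leaf K2_ok TE_l3062 _))
               (CovZ.leaf K2_ok TE_l3063 _)))
             (CovZ.badM (by decide +kernel))))
           (CovZ.badM (by decide +kernel))))))

theorem TE_u28 : CovZ TE_M (toL (selN TE_LN 1048576)) [0, 7, 6, 1] (1280, 24320) (1280, 24960) (640, 24960) :=
    (CovZ.n2 (960, 24640) (by decide +kernel)
         (CovZ.n2 (960, 24960) (by decide +kernel)
          (CovZ.n2 (1120, 24800) (by decide +kernel)
           (CovZ.n2 (960, 24800) (by decide +kernel)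
            (CovZ.n2 (1040, 24880) (by decide +kernel)
             (CovZ.leaf K2_ok TE_l3064 _)
             (CovZ.n1 (960, 24880) (by decide +kernel)
              (CovZ.n2 (1000, 24920) (by decide +kernel)
               (CovZ.leaf K2_ok TE_l3065 _)
               (CovZ.leaf K2_ok TE_l3066 _))
              (CovZ.leaf K2_ok TE_l3067 _)))
            (CovZ.n1 (1040, 24720) (by decide +kernel)
             (CovZ.leaf K2_ok TE_l3068 _)
             (CovZ.leaf K2_ok TE_l3069 _)))
           (CovZ.n1 (1120, 24960) (by decide +kernel)
            (CovZ.n2 (1200, 24880) (by decide +kernel)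
             (CovZ.n2 (1120, 24880) (by decide +kernel)
              (CovZ.n2 (1160, 24920) (by decide +kernel)
               (CovZ.leaf K2_ok TE_l3070 _)
               (CovZ.leaf K2_ok TE_l3071 _))
              (CovZ.leaf K2_ok TE_l3072 _))
             (CovZ.n1 (1200, 24960) (by decide +kernel)
              (CovZ.leaf K2_ok TE_l3073 _)
              (CovZ.n1 (1160, 24920) (by decide +kernel)
               (CovZ.leaf K2_ok TE_l3074 _)
               (CovZ.leaf K2_ok TE_l3075 _))))
            (CovZ.n1 (1040, 24880) (by decide +kernel)
             (CovZ.n2 (1040, 24960) (by decide +kernel)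
              (CovZ.leaf K2_ok TE_l3076 _)
              (CovZ.n1 (1000, 24920) (by decide +kernel)
               (CovZ.leaf K2_ok TE_l3077 _)
               (CovZ.leaf K2_ok TE_l3078 _)))
             (CovZ.n1 (1120, 24880) (by decide +kernel)
              (CovZ.leaf K2_ok TE_l3079 _)
              (CovZ.leaf K2_ok TE_l3080 _)))))
          (CovZ.n1 (800, 24800) (by decide +kernel)
           (CovZ.n2 (800, 24960) (by decide +kernel)
            (CovZ.n2 (880, 24880) (by decide +kernel)
             (CovZ.n2 (800, 24880) (by decide +kernel)
              (CovZ.n2 (840, 24920) (by decide +kernel)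
               (CovZ.leaf K2_ok TE_l3081 _)
               (CovZ.leaf K2_ok TE_l3082 _))
              (CovZ.leaf K2_ok TE_l3083 _))
             (CovZ.n1 (880, 24960) (by decide +kernel)
              (CovZ.leaf K2_ok TE_l3084 _)
              (CovZ.n1 (840, 24920) (by decide +kernel)
               (CovZ.leaf K2_ok TE_l3085 _)
               (CovZ.leaf K2_ok TE_l3086 _))))
            (CovZ.n1 (720, 24880) (by decide +kernel)
             (CovZ.n2 (720, 24960) (by decide +kernel)
              (CovZ.n2 (760, 24920) (by decide +kernel)
               (CovZ.leaf K2_ok TE_l3087 _)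
               (CovZ.leaf K2_ok TE_l3088 _))
              (CovZ.n1 (680, 24920) (by decide +kernel)
               (CovZ.leaf K2_ok TE_l3089 _)
               (CovZ.leaf K2_ok TE_l3090 _)))
             (CovZ.n1 (800, 24880) (by decide +kernel)
              (CovZ.leaf K2_ok TE_l3091 _)
              (CovZ.leaf K2_ok TE_l3092 _))))
           (CovZ.n1 (960, 24800) (by decide +kernel)
            (CovZ.n2 (880, 24720) (by decide +kernel)
             (CovZ.leaf K2_ok TE_l3093 _)
             (CovZ.leaf K2_ok TE_l3094 _))
            (CovZ.n1 (880, 24880) (by decide +kernel)
             (CovZ.n2 (960, 24880) (by decide +kernel)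
              (CovZ.leaf K2_ok TE_l3095 _)
              (CovZ.leaf K2_ok TE_l3096 _))
             (CovZ.leaf K2_ok TE_l3097 _)))))
         (CovZ.n1 (1280, 24640) (by decide +kernel)
          (CovZ.n2 (1120, 24480) (by decide +kernel)
           (CovZ.n2 (1120, 24640) (by decide +kernel)
            (CovZ.leaf K2_ok TE_l3098 _)
            (CovZ.leaf K2_ok TE_l3099 _))
           (CovZ.leaf K2_ok TE_l3100 _))
          (CovZ.n1 (1120, 24800) (by decide +kernel)
           (CovZ.n2 (1280, 24800) (by decide +kernel)
            (CovZ.n2 (1200, 24720) (by decide +kernel)
             (CovZ.leaf K2_ok TE_l3101 _)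
             (CovZ.leaf K2_ok TE_l3102 _))
            (CovZ.n1 (1200, 24880) (by decide +kernel)
             (CovZ.n2 (1280, 24880) (by decide +kernel)
              (CovZ.leaf K2_ok TE_l3103 _)
              (CovZ.leaf K2_ok TE_l3104 _))
             (CovZ.leaf K2_ok TE_l3105 _)))
           (CovZ.n1 (1120, 24640) (by decide +kernel)
            (CovZ.leaf K2_ok TE_l3106 _)
            (CovZ.n1 (1200, 24720) (by decide +kernel)
             (CovZ.leaf K2_ok TE_l3107 _)
             (CovZ.leaf K2_ok TE_l3108 _))))))

theorem TE_u29 : CovZ TE_M (toL (selN TE_LN 1048576)) [0, 7, 6, 1] (1280, 24960) (1280, 25600) (640, 24960) :=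
    (CovZ.n1 (960, 25280) (by decide +kernel)
         (CovZ.n2 (1280, 25280) (by decide +kernel)
          (CovZ.n2 (1120, 25120) (by decide +kernel)
           (CovZ.badM (by decide +kernel))
           (CovZ.n1 (1280, 25120) (by decide +kernel)
            (CovZ.n2 (1200, 25040) (by decide +kernel)
             (CovZ.n2 (1200, 25120) (by decide +kernel)
              (CovZ.n2 (1240, 25080) (by decide +kernel)
               (CovZ.n2 (1200, 25080) (by decide +kernel)
                (CovZ.badM (by decide +kernel))
                (CovZ.leaf K2_ok TE_l3109 _))
               (CovZ.badM (by decide +kernel)))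
              (CovZ.n1 (1160, 25080) (by decide +kernel)
               (CovZ.badM (by decide +kernel))
               (CovZ.n1 (1200, 25080) (by decide +kernel)
                (CovZ.n2 (1180, 25060) (by decide +kernel)
                 (CovZ.badM (by decide +kernel))
                 (CovZ.leaf K2_ok TE_l3111 _))
                (CovZ.badM (by decide +kernel)))))
             (CovZ.n1 (1280, 25040) (by decide +kernel)
              (CovZ.n2 (1240, 25000) (by decide +kernel)
               (CovZ.leaf K2_ok TE_l3112 _)
               (CovZ.leaf K2_ok TE_l3113 _))
              (CovZ.n1 (1240, 25080) (by decide +kernel)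
               (CovZ.n2 (1280, 25080) (by decide +kernel)
                (CovZ.n2 (1260, 25060) (by decide +kernel)
                 (CovZ.badM (by decide +kernel))
                 (CovZ.leaf K2_ok TE_l3115 _))
                (CovZ.badM (by decide +kernel)))
               (CovZ.n1 (1240, 25040) (by decide +kernel)
                (CovZ.leaf K2_ok TE_l3116 _)
                (CovZ.n1 (1260, 25060) (by decide +kernel)
                 (CovZ.leaf K2_ok TE_l3117 _)
                 (CovZ.leaf K2_ok TE_l3118 _))))))
            (CovZ.badM (by decide +kernel))))
          (CovZ.badM (by decide +kernel)))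
         (CovZ.n1 (960, 24960) (by decide +kernel)
          (CovZ.n2 (800, 25120) (by decide +kernel)
           (CovZ.n2 (960, 25120) (by decide +kernel)
            (CovZ.n2 (880, 25040) (by decide +kernel)
             (CovZ.badM (by decide +kernel))
             (CovZ.n1 (960, 25040) (by decide +kernel)
              (CovZ.n2 (920, 25000) (by decide +kernel)
               (CovZ.n2 (920, 25040) (by decide +kernel)
                (CovZ.leaf K2_ok TE_l3123 _)
                (CovZ.n1 (900, 25020) (by decide +kernel)
                 (CovZ.leaf K2_ok TE_l3124 _)
                 (CovZ.leaf K2_ok TE_l3125 _)))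
               (CovZ.leaf K2_ok TE_l3126 _))
              (CovZ.n1 (920, 25080) (by decide +kernel)
               (CovZ.n2 (960, 25080) (by decide +kernel)
                (CovZ.n2 (940, 25060) (by decide +kernel)
                 (CovZ.badM (by decide +kernel))
                 (CovZ.leaf K2_ok TE_l3128 _))
                (CovZ.badM (by decide +kernel)))
               (CovZ.n1 (920, 25040) (by decide +kernel)
                (CovZ.badM (by decide +kernel))
                (CovZ.n1 (940, 25060) (by decide +kernel)
                 (CovZ.leaf K2_ok TE_l3130 _)
                 (CovZ.badM (by decide +kernel)))))))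
            (CovZ.badM (by decide +kernel)))
           (CovZ.n1 (800, 24960) (by decide +kernel)
            (CovZ.n2 (720, 25040) (by decide +kernel)
             (CovZ.n2 (800, 25040) (by decide +kernel)
              (CovZ.n2 (760, 25000) (by decide +kernel)
               (CovZ.n2 (760, 25040) (by decide +kernel)
                (CovZ.leaf K2_ok TE_l17178 _)
                (CovZ.n1 (740, 25020) (by decide +kernel)
                 (CovZ.leaf K2_ok TE_l17179 _)
                 (CovZ.leaf K2_ok TE_l17180 _)))
               (CovZ.n1 (800, 25000) (by decide +kernel)
                (CovZ.leaf K2_ok TE_l17181 _)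
                (CovZ.leaf K2_ok TE_l17182 _)))
              (CovZ.badM (by decide +kernel)))
             (CovZ.n1 (720, 24960) (by decide +kernel)
              (CovZ.n2 (680, 25000) (by decide +kernel)
               (CovZ.n2 (720, 25000) (by decide +kernel)
                (CovZ.leaf K2_ok TE_l17183 _)
                (CovZ.leaf K2_ok TE_l17184 _))
               (CovZ.leaf K2_ok TE_l17185 _))
              (CovZ.n1 (760, 25000) (by decide +kernel)
               (CovZ.leaf K2_ok TE_l17186 _)
               (CovZ.n1 (720, 25000) (by decide +kernel)
                (CovZ.n2 (740, 25020) (by decide +kernel)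
                 (CovZ.leaf K2_ok TE_l17187 _)
                 (CovZ.leaf K2_ok TE_l17188 _))
                (CovZ.leaf K2_ok TE_l17189 _)))))
            (CovZ.n1 (880, 25040) (by decide +kernel)
             (CovZ.n2 (880, 24960) (by decide +kernel)
              (CovZ.n2 (840, 25000) (by decide +kernel)
               (CovZ.leaf K2_ok TE_l3132 _)
               (CovZ.leaf K2_ok TE_l17190 _))
              (CovZ.n1 (920, 25000) (by decide +kernel)
               (CovZ.leaf K2_ok TE_l3133 _)
               (CovZ.n1 (880, 25000) (by decide +kernel)
                (CovZ.leaf K2_ok TE_l3134 _)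
                (CovZ.leaf K2_ok TE_l3135 _))))
             (CovZ.n1 (800, 25040) (by decide +kernel)
              (CovZ.badM (by decide +kernel))
              (CovZ.n1 (840, 25000) (by decide +kernel)
               (CovZ.n2 (800, 25000) (by decide +kernel)
                (CovZ.leaf K2_ok TE_l17191 _)
                (CovZ.leaf K2_ok TE_l17192 _))
               (CovZ.n1 (840, 25040) (by decide +kernel)
                (CovZ.leaf K2_ok TE_l3138 _)
                (CovZ.n1 (820, 25020) (by decide +kernel)
                 (CovZ.leaf K2_ok TE_l17193 _)
                 (CovZ.leaf K2_ok TE_l17194 _))))))))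
          (CovZ.n1 (1120, 25120) (by decide +kernel)
           (CovZ.n2 (1120, 24960) (by decide +kernel)
            (CovZ.n2 (1040, 25040) (by decide +kernel)
             (CovZ.n2 (1120, 25040) (by decide +kernel)
              (CovZ.n2 (1080, 25000) (by decide +kernel)
               (CovZ.n2 (1080, 25040) (by decide +kernel)
                (CovZ.leaf K2_ok TE_l3139 _)
                (CovZ.leaf K2_ok TE_l3140 _))
               (CovZ.leaf K2_ok TE_l3141 _))
              (CovZ.n1 (1080, 25080) (by decide +kernel)
               (CovZ.n2 (1120, 25080) (by decide +kernel)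
                (CovZ.n2 (1100, 25060) (by decide +kernel)
                 (CovZ.badM (by decide +kernel))
                 (CovZ.leaf K2_ok TE_l3143 _))
                (CovZ.badM (by decide +kernel)))
               (CovZ.n1 (1080, 25040) (by decide +kernel)
                (CovZ.leaf K2_ok TE_l3144 _)
                (CovZ.n1 (1100, 25060) (by decide +kernel)
                 (CovZ.leaf K2_ok TE_l3145 _)
                 (CovZ.leaf K2_ok TE_l3146 _)))))
             (CovZ.n1 (1040, 24960) (by decide +kernel)
              (CovZ.n2 (1000, 25000) (by decide +kernel)
               (CovZ.leaf K2_ok TE_l3147 _)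
               (CovZ.leaf K2_ok TE_l3148 _))
              (CovZ.n1 (1080, 25000) (by decide +kernel)
               (CovZ.leaf K2_ok TE_l3149 _)
               (CovZ.n1 (1040, 25000) (by decide +kernel)
                (CovZ.leaf K2_ok TE_l3150 _)
                (CovZ.leaf K2_ok TE_l3151 _)))))
            (CovZ.n1 (1200, 25040) (by decide +kernel)
             (CovZ.n2 (1200, 24960) (by decide +kernel)
              (CovZ.leaf K2_ok TE_l3152 _)
              (CovZ.n1 (1240, 25000) (by decide +kernel)
               (CovZ.leaf K2_ok TE_l3153 _)
               (CovZ.leaf K2_ok TE_l3154 _)))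
             (CovZ.n1 (1120, 25040) (by decide +kernel)
              (CovZ.n2 (1160, 25080) (by decide +kernel)
               (CovZ.n2 (1160, 25040) (by decide +kernel)
                (CovZ.leaf K2_ok TE_l3155 _)
                (CovZ.n1 (1180, 25060) (by decide +kernel)
                 (CovZ.leaf K2_ok TE_l3156 _)
                 (CovZ.leaf K2_ok TE_l3157 _)))
               (CovZ.n1 (1120, 25080) (by decide +kernel)
                (CovZ.badM (by decide +kernel))
                (CovZ.n1 (1140, 25060) (by decide +kernel)
                 (CovZ.leaf K2_ok TE_l3158 _)
                 (CovZ.badM (by decide +kernel)))))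
              (CovZ.n1 (1160, 25000) (by decide +kernel)
               (CovZ.n2 (1120, 25000) (by decide +kernel)
                (CovZ.leaf K2_ok TE_l3160 _)
                (CovZ.leaf K2_ok TE_l3161 _))
               (CovZ.n1 (1160, 25040) (by decide +kernel)
                (CovZ.leaf K2_ok TE_l3162 _)
                (CovZ.leaf K2_ok TE_l3163 _))))))
           (CovZ.n1 (960, 25120) (by decide +kernel)
            (CovZ.badM (by decide +kernel))
            (CovZ.n1 (1040, 25040) (by decide +kernel)
             (CovZ.n2 (960, 25040) (by decide +kernel)
              (CovZ.n2 (1000, 25080) (by decide +kernel)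
               (CovZ.n2 (1000, 25040) (by decide +kernel)
                (CovZ.leaf K2_ok TE_l3164 _)
                (CovZ.n1 (1020, 25060) (by decide +kernel)
                 (CovZ.leaf K2_ok TE_l3165 _)
                 (CovZ.leaf K2_ok TE_l3166 _)))
               (CovZ.n1 (960, 25080) (by decide +kernel)
                (CovZ.badM (by decide +kernel))
                (CovZ.n1 (980, 25060) (by decide +kernel)
                 (CovZ.leaf K2_ok TE_l3167 _)
                 (CovZ.badM (by decide +kernel)))))
              (CovZ.n1 (1000, 25000) (by decide +kernel)
               (CovZ.n2 (960, 25000) (by decide +kernel)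
                (CovZ.leaf K2_ok TE_l3169 _)
                (CovZ.leaf K2_ok TE_l3170 _))
               (CovZ.n1 (1000, 25040) (by decide +kernel)
                (CovZ.leaf K2_ok TE_l3171 _)
                (CovZ.leaf K2_ok TE_l3172 _))))
             (CovZ.n1 (1040, 25120) (by decide +kernel)
              (CovZ.n2 (1080, 25080) (by decide +kernel)
               (CovZ.n2 (1040, 25080) (by decide +kernel)
                (CovZ.badM (by decide +kernel))
                (CovZ.n1 (1060, 25060) (by decide +kernel)
                 (CovZ.leaf K2_ok TE_l3173 _)
                 (CovZ.badM (by decide +kernel))))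
               (CovZ.badM (by decide +kernel)))
              (CovZ.n1 (1000, 25080) (by decide +kernel)
               (CovZ.badM (by decide +kernel))
               (CovZ.n1 (1040, 25080) (by decide +kernel)
                (CovZ.n2 (1020, 25060) (by decide +kernel)
                 (CovZ.badM (by decide +kernel))
                 (CovZ.leaf K2_ok TE_l3176 _))
                (CovZ.badM (by decide +kernel))))))))))

theorem TE_u30 : CovZ TE_M (toL (selN TE_LN 416852686361469110882706480293171047041727165948723057593)) [0, 7, 6, 1] (2560, 25600) (3200, 24960) (3840, 25600) :=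
    (CovZ.subM 423835475566416609107481306957156506336821995164576 (by decide +kernel)
       (CovZ.n2 (3200, 25600) (by decide +kernel)
        (CovZ.n2 (3520, 25280) (by decide +kernel)
         (CovZ.n2 (3200, 25280) (by decide +kernel)
          (CovZ.n2 (3360, 25440) (by decide +kernel)
           (CovZ.leaf K2_ok TE_l7599 _)
           (CovZ.n1 (3200, 25440) (by decide +kernel)
            (CovZ.leaf K2_ok TE_l7600 _)
            (CovZ.leaf K2_ok TE_l7601 _)))
          (CovZ.n1 (3360, 25120) (by decide +kernel)
           (CovZ.n2 (3200, 25120) (by decide +kernel)
            (CovZ.n2 (3280, 25200) (by decide +kernel)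
             (CovZ.leaf K2_ok TE_l7602 _)
             (CovZ.leaf K2_ok TE_l7603 _))
            (CovZ.leaf K2_ok TE_l7604 _))
           (CovZ.n1 (3360, 25280) (by decide +kernel)
            (CovZ.leaf K2_ok TE_l7605 _)
            (CovZ.n1 (3280, 25200) (by decide +kernel)
             (CovZ.leaf K2_ok TE_l7606 _)
             (CovZ.leaf K2_ok TE_l7607 _)))))
         (CovZ.n1 (3520, 25600) (by decide +kernel)
          (CovZ.leaf K2_ok TE_l7608 _)
          (CovZ.n1 (3360, 25440) (by decide +kernel)
           (CovZ.leaf K2_ok TE_l7609 _)
           (CovZ.leaf K2_ok TE_l7610 _))))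
        (CovZ.n1 (2880, 25280) (by decide +kernel)
         (CovZ.n2 (2880, 25600) (by decide +kernel)
          (CovZ.n2 (3040, 25440) (by decide +kernel)
           (CovZ.subM 377067422431373285203549633072172654120092024963104 (by decide +kernel)
            (CovZ.n2 (2880, 25440) (by decide +kernel)
             (CovZ.n2 (2960, 25520) (by decide +kernel)
              (CovZ.n2 (2960, 25440) (by decide +kernel)
               (CovZ.leaf K2_ok TE_l7611 _)
               (CovZ.leaf K2_ok TE_l7612 _))
              (CovZ.n1 (2880, 25520) (by decide +kernel)
               (CovZ.n2 (2920, 25560) (by decide +kernel)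
                (CovZ.leaf K2_ok TE_l7613 _)
                (CovZ.n1 (2880, 25560) (by decide +kernel)
                 (CovZ.leaf K2_ok TE_l7614 _)
                 (CovZ.leaf K2_ok TE_l7615 _)))
               (CovZ.n1 (2920, 25480) (by decide +kernel)
                (CovZ.leaf K2_ok TE_l7616 _)
                (CovZ.leaf K2_ok TE_l7617 _))))
             (CovZ.n1 (2960, 25360) (by decide +kernel)
              (CovZ.n2 (2880, 25360) (by decide +kernel)
               (CovZ.n2 (2920, 25400) (by decide +kernel)
                (CovZ.leaf K2_ok TE_l7618 _)
                (CovZ.leaf K2_ok TE_l7619 _))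
               (CovZ.n1 (2920, 25320) (by decide +kernel)
                (CovZ.n2 (2880, 25320) (by decide +kernel)
                 (CovZ.leaf K2_ok TE_l7620 _)
                 (CovZ.leaf K2_ok TE_l7621 _))
                (CovZ.leaf K2_ok TE_l7622 _)))
              (CovZ.n1 (2960, 25440) (by decide +kernel)
               (CovZ.leaf K2_ok TE_l7623 _)
               (CovZ.n1 (2920, 25400) (by decide +kernel)
                (CovZ.leaf K2_ok TE_l7624 _)
                (CovZ.leaf K2_ok TE_l7625 _))))))
           (CovZ.n1 (3040, 25600) (by decide +kernel)
            (CovZ.leaf K2_ok TE_l7626 _)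
            (CovZ.subM 377067422431373285203549633072172672134490534461472 (by decide +kernel)
             (CovZ.n1 (2960, 25520) (by decide +kernel)
              (CovZ.n2 (2960, 25600) (by decide +kernel)
               (CovZ.leaf K2_ok TE_l7627 _)
               (CovZ.n1 (2920, 25560) (by decide +kernel)
                (CovZ.n2 (2920, 25600) (by decide +kernel)
                 (CovZ.leaf K2_ok TE_l7628 _)
                 (CovZ.leaf K2_ok TE_l7629 _))
                (CovZ.leaf K2_ok TE_l7630 _)))
              (CovZ.leaf K2_ok TE_l7631 _)))))
          (CovZ.subM 420912471551300372769942587657312815133717252538368 (by decide +kernel)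
           (CovZ.n1 (2720, 25440) (by decide +kernel)
            (CovZ.n2 (2720, 25600) (by decide +kernel)
             (CovZ.subM 332327281355832661978010632661237760 (by decide +kernel)
              (CovZ.n2 (2800, 25520) (by decide +kernel)
               (CovZ.n2 (2720, 25520) (by decide +kernel)
                (CovZ.n2 (2760, 25560) (by decide +kernel)
                 (CovZ.badM (by decide +kernel))
                 (CovZ.badM (by decide +kernel)))
                (CovZ.badM (by decide +kernel)))
               (CovZ.n1 (2800, 25600) (by decide +kernel)
                (CovZ.n2 (2840, 25560) (by decide +kernel)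
                 (CovZ.subM 4611686020575395840 (by decide +kernel)
                  (CovZ.n2 (2800, 25560) (by decide +kernel)
                   (CovZ.n2 (2820, 25580) (by decide +kernel)
                    (CovZ.leaf K2_ok TE_l7632 _)
                    (CovZ.leaf K2_ok TE_l7633 _))
                   (CovZ.n1 (2820, 25540) (by decide +kernel)
                    (CovZ.badM (by decide +kernel))
                    (CovZ.leaf K2_ok TE_l7634 _))))
                 (CovZ.n1 (2840, 25600) (by decide +kernel)
                  (CovZ.leaf K2_ok TE_l7635 _)
                  (CovZ.n1 (2820, 25580) (by decide +kernel)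
                   (CovZ.leaf K2_ok TE_l7636 _)
                   (CovZ.leaf K2_ok TE_l7637 _))))
                (CovZ.subM 20282409603651670423949398769664 (by decide +kernel)
                 (CovZ.n1 (2760, 25560) (by decide +kernel)
                  (CovZ.n2 (2760, 25600) (by decide +kernel)
                   (CovZ.n2 (2780, 25580) (by decide +kernel)
                    (CovZ.badM (by decide +kernel))
                    (CovZ.leaf K2_ok TE_l17442 _))
                   (CovZ.badM (by decide +kernel)))
                  (CovZ.n1 (2800, 25560) (by decide +kernel)
                   (CovZ.badM (by decide +kernel))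
                   (CovZ.n1 (2780, 25580) (by decide +kernel)
                    (CovZ.leaf K2_ok TE_l17443 _)
                    (CovZ.badM (by decide +kernel)))))))))
             (CovZ.n1 (2640, 25520) (by decide +kernel)
              (CovZ.n2 (2640, 25600) (by decide +kernel)
               (CovZ.badM (by decide +kernel))
               (CovZ.badM (by decide +kernel)))
              (CovZ.badM (by decide +kernel))))
            (CovZ.n1 (2880, 25440) (by decide +kernel)
             (CovZ.subM 374144419156711147060143317177730212839659019960320 (by decide +kernel)
              (CovZ.n2 (2800, 25360) (by decide +kernel)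
               (CovZ.n2 (2800, 25440) (by decide +kernel)
                (CovZ.n2 (2840, 25400) (by decide +kernel)
                 (CovZ.subM 2361183276619198889984 (by decide +kernel)
                  (CovZ.n2 (2800, 25400) (by decide +kernel)
                   (CovZ.n2 (2820, 25420) (by decide +kernel)
                    (CovZ.leaf K2_ok TE_l7638 _)
                    (CovZ.badM (by decide +kernel)))
                   (CovZ.n1 (2820, 25380) (by decide +kernel)
                    (CovZ.leaf K2_ok TE_l7639 _)
                    (CovZ.leaf K2_ok TE_l7640 _))))
                 (CovZ.n1 (2840, 25440) (by decide +kernel)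
                  (CovZ.leaf K2_ok TE_l7641 _)
                  (CovZ.n1 (2820, 25420) (by decide +kernel)
                   (CovZ.badM (by decide +kernel))
                   (CovZ.leaf K2_ok TE_l7642 _))))
                (CovZ.subM 2361183241434822606848 (by decide +kernel)
                 (CovZ.n1 (2760, 25400) (by decide +kernel)
                  (CovZ.badM (by decide +kernel))
                  (CovZ.n1 (2800, 25400) (by decide +kernel)
                   (CovZ.n2 (2780, 25380) (by decide +kernel)
                    (CovZ.badM (by decide +kernel))
                    (CovZ.leaf K2_ok TE_l7643 _))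
                   (CovZ.badM (by decide +kernel))))))
               (CovZ.n1 (2880, 25360) (by decide +kernel)
                (CovZ.n2 (2840, 25320) (by decide +kernel)
                 (CovZ.n2 (2840, 25360) (by decide +kernel)
                  (CovZ.leaf K2_ok TE_l7644 _)
                  (CovZ.leaf K2_ok TE_l7645 _))
                 (CovZ.leaf K2_ok TE_l7646 _))
                (CovZ.n1 (2840, 25400) (by decide +kernel)
                 (CovZ.leaf K2_ok TE_l7647 _)
                 (CovZ.n1 (2840, 25360) (by decide +kernel)
                  (CovZ.leaf K2_ok TE_l7648 _)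
                  (CovZ.leaf K2_ok TE_l7649 _))))))
             (CovZ.n1 (2800, 25520) (by decide +kernel)
              (CovZ.n2 (2880, 25520) (by decide +kernel)
               (CovZ.n2 (2840, 25480) (by decide +kernel)
                (CovZ.n2 (2840, 25520) (by decide +kernel)
                 (CovZ.n2 (2860, 25500) (by decide +kernel)
                  (CovZ.leaf K2_ok TE_l7650 _)
                  (CovZ.leaf K2_ok TE_l7651 _))
                 (CovZ.n1 (2820, 25500) (by decide +kernel)
                  (CovZ.badM (by decide +kernel))
                  (CovZ.leaf K2_ok TE_l17444 _)))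
                (CovZ.n1 (2880, 25480) (by decide +kernel)
                 (CovZ.n2 (2860, 25460) (by decide +kernel)
                  (CovZ.leaf K2_ok TE_l7652 _)
                  (CovZ.leaf K2_ok TE_l7653 _))
                 (CovZ.leaf K2_ok TE_l7654 _)))
               (CovZ.n1 (2840, 25560) (by decide +kernel)
                (CovZ.n2 (2880, 25560) (by decide +kernel)
                 (CovZ.n2 (2860, 25540) (by decide +kernel)
                  (CovZ.leaf K2_ok TE_l7655 _)
                  (CovZ.leaf K2_ok TE_l7656 _))
                 (CovZ.leaf K2_ok TE_l7657 _))
                (CovZ.n1 (2840, 25520) (by decide +kernel)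
                 (CovZ.n2 (2820, 25540) (by decide +kernel)
                  (CovZ.leaf K2_ok TE_l7658 _)
                  (CovZ.badM (by decide +kernel)))
                 (CovZ.n1 (2860, 25540) (by decide +kernel)
                  (CovZ.leaf K2_ok TE_l7659 _)
                  (CovZ.leaf K2_ok TE_l7660 _)))))
              (CovZ.n1 (2800, 25440) (by decide +kernel)
               (CovZ.badM (by decide +kernel))
               (CovZ.n1 (2840, 25480) (by decide +kernel)
                (CovZ.n2 (2840, 25440) (by decide +kernel)
                 (CovZ.badM (by decide +kernel))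
                 (CovZ.leaf K2_ok TE_l7661 _))
                (CovZ.n1 (2800, 25480) (by decide +kernel)
                 (CovZ.n2 (2820, 25500) (by decide +kernel)
                  (CovZ.leaf K2_ok TE_l17445 _)
                  (CovZ.badM (by decide +kernel)))
                 (CovZ.badM (by decide +kernel))))))))))
         (CovZ.n1 (3200, 25280) (by decide +kernel)
          (CovZ.n2 (3040, 25120) (by decide +kernel)
           (CovZ.n2 (3040, 25280) (by decide +kernel)
            (CovZ.n2 (3120, 25200) (by decide +kernel)
             (CovZ.n2 (3040, 25200) (by decide +kernel)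
              (CovZ.leaf K2_ok TE_l7662 _)
              (CovZ.leaf K2_ok TE_l7663 _))
             (CovZ.n1 (3120, 25280) (by decide +kernel)
              (CovZ.leaf K2_ok TE_l7664 _)
              (CovZ.leaf K2_ok TE_l7665 _)))
            (CovZ.subM 374144419156711479448271901821309732173233670066208 (by decide +kernel)
             (CovZ.n1 (2960, 25200) (by decide +kernel)
              (CovZ.n2 (2960, 25280) (by decide +kernel)
               (CovZ.leaf K2_ok TE_l7666 _)
               (CovZ.n1 (2920, 25240) (by decide +kernel)
                (CovZ.leaf K2_ok TE_l7667 _)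
                (CovZ.leaf K2_ok TE_l7668 _)))
              (CovZ.leaf K2_ok TE_l7669 _))))
           (CovZ.n1 (3200, 25120) (by decide +kernel)
            (CovZ.n2 (3120, 25040) (by decide +kernel)
             (CovZ.leaf K2_ok TE_l7670 _)
             (CovZ.leaf K2_ok TE_l7671 _))
            (CovZ.leaf K2_ok TE_l7672 _)))
          (CovZ.n1 (3040, 25440) (by decide +kernel)
           (CovZ.n2 (3200, 25440) (by decide +kernel)
            (CovZ.n2 (3120, 25360) (by decide +kernel)
             (CovZ.leaf K2_ok TE_l7673 _)
             (CovZ.leaf K2_ok TE_l7674 _))
            (CovZ.leaf K2_ok TE_l7675 _))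
           (CovZ.n1 (3040, 25280) (by decide +kernel)
            (CovZ.subM 377067422431373285203549633072172510004903949111328 (by decide +kernel)
             (CovZ.n2 (2960, 25360) (by decide +kernel)
              (CovZ.n2 (3040, 25360) (by decide +kernel)
               (CovZ.n2 (3000, 25320) (by decide +kernel)
                (CovZ.leaf K2_ok TE_l7676 _)
                (CovZ.leaf K2_ok TE_l7677 _))
               (CovZ.leaf K2_ok TE_l7678 _))
              (CovZ.n1 (2960, 25280) (by decide +kernel)
               (CovZ.leaf K2_ok TE_l7679 _)
               (CovZ.n1 (3000, 25320) (by decide +kernel)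
                (CovZ.leaf K2_ok TE_l7680 _)
                (CovZ.leaf K2_ok TE_l7681 _)))))
            (CovZ.n1 (3120, 25360) (by decide +kernel)
             (CovZ.leaf K2_ok TE_l7682 _)
             (CovZ.leaf K2_ok TE_l7683 _))))))))

theorem TE_u31 : CovZ TE_M (toL (selN TE_LN 416852686361469110882706480293171047041727165948723057593)) [0, 7, 6, 1] (2560, 23040) (3840, 24320) (2560, 25600) :=
    (CovZ.subM 423835475522860466141561569514806186719588609708193 (by decide +kernel)
     (CovZ.n2 (2560, 24320) (by decide +kernel)
      (CovZ.n2 (3200, 24960) (by decide +kernel)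
       (CovZ.n2 (3200, 24320) (by decide +kernel)
        (CovZ.subM 377067423128271572738761244659733494232804684206113 (by decide +kernel)
         (CovZ.n2 (2880, 24640) (by decide +kernel)
          (CovZ.n2 (3200, 24640) (by decide +kernel)
           (CovZ.n2 (3040, 24480) (by decide +kernel)
            (CovZ.leaf K2_ok TE_l7502 _)
            (CovZ.leaf K2_ok TE_l7503 _))
           (CovZ.leaf K2_ok TE_l7504 _))
          (CovZ.n1 (2880, 24320) (by decide +kernel)
           (CovZ.leaf K2_ok TE_l7505 _)
           (CovZ.n1 (3040, 24480) (by decide +kernel)
            (CovZ.leaf K2_ok TE_l7506 _)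
            (CovZ.leaf K2_ok TE_l7507 _)))))
        (CovZ.n1 (3520, 24640) (by decide +kernel)
         (CovZ.leaf K2_ok TE_l7508 _)
         (CovZ.n1 (3200, 24640) (by decide +kernel)
          (CovZ.n2 (3360, 24800) (by decide +kernel)
           (CovZ.leaf K2_ok TE_l7509 _)
           (CovZ.n1 (3200, 24800) (by decide +kernel)
            (CovZ.leaf K2_ok TE_l7510 _)
            (CovZ.leaf K2_ok TE_l7511 _)))
          (CovZ.leaf K2_ok TE_l7512 _))))
       (CovZ.n1 (2560, 24960) (by decide +kernel)
        (CovZ.n2 (2880, 25280) (by decide +kernel)
         (CovZ.subM 377067423128271572738761244659733494232804684730400 (by decide +kernel)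
          (CovZ.n2 (2880, 24960) (by decide +kernel)
           (CovZ.subM 374144419156711147141272955592336318074695721160704 (by decide +kernel)
            (CovZ.n2 (2720, 25120) (by decide +kernel)
             (CovZ.n2 (2880, 25120) (by decide +kernel)
              (CovZ.n2 (2800, 25040) (by decide +kernel)
               (CovZ.leaf K2_ok TE_l7513 _)
               (CovZ.leaf K2_ok TE_l7514 _))
              (CovZ.n1 (2800, 25200) (by decide +kernel)
               (CovZ.n2 (2880, 25200) (by decide +kernel)
                (CovZ.leaf K2_ok TE_l7515 _)
                (CovZ.leaf K2_ok TE_l7516 _))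
               (CovZ.leaf K2_ok TE_l7517 _)))
             (CovZ.n1 (2720, 24960) (by decide +kernel)
              (CovZ.leaf K2_ok TE_l7518 _)
              (CovZ.n1 (2800, 25040) (by decide +kernel)
               (CovZ.leaf K2_ok TE_l7519 _)
               (CovZ.leaf K2_ok TE_l7520 _)))))
           (CovZ.n1 (3040, 25120) (by decide +kernel)
            (CovZ.n2 (3040, 24960) (by decide +kernel)
             (CovZ.leaf K2_ok TE_l7521 _)
             (CovZ.n1 (3120, 25040) (by decide +kernel)
              (CovZ.leaf K2_ok TE_l7522 _)
              (CovZ.leaf K2_ok TE_l7523 _)))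
            (CovZ.n1 (2880, 25120) (by decide +kernel)
             (CovZ.n2 (2960, 25200) (by decide +kernel)
              (CovZ.leaf K2_ok TE_l7524 _)
              (CovZ.n1 (2880, 25200) (by decide +kernel)
               (CovZ.n2 (2920, 25240) (by decide +kernel)
                (CovZ.leaf K2_ok TE_l7525 _)
                (CovZ.leaf K2_ok TE_l7526 _))
               (CovZ.leaf K2_ok TE_l7527 _)))
             (CovZ.n1 (2960, 25040) (by decide +kernel)
              (CovZ.leaf K2_ok TE_l7528 _)
              (CovZ.leaf K2_ok TE_l7529 _))))))
         (CovZ.subM 420912471551300040462943641428302507547031884529664 (by decide +kernel)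
          (CovZ.n1 (2560, 25280) (by decide +kernel)
           (CovZ.n2 (2720, 25440) (by decide +kernel)
            (CovZ.n2 (2720, 25280) (by decide +kernel)
             (CovZ.subM 2361183241434822606848 (by decide +kernel)
              (CovZ.n2 (2640, 25360) (by decide +kernel)
               (CovZ.n2 (2720, 25360) (by decide +kernel)
                (CovZ.n2 (2680, 25320) (by decide +kernel)
                 (CovZ.badM (by decide +kernel))
                 (CovZ.n1 (2720, 25320) (by decide +kernel)
                  (CovZ.leaf K2_ok TE_l7530 _)
                  (CovZ.badM (by decide +kernel))))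
                (CovZ.badM (by decide +kernel)))
               (CovZ.n1 (2640, 25280) (by decide +kernel)
                (CovZ.badM (by decide +kernel))
                (CovZ.n1 (2680, 25320) (by decide +kernel)
                 (CovZ.leaf K2_ok TE_l7531 _)
                 (CovZ.badM (by decide +kernel))))))
             (CovZ.n1 (2800, 25360) (by decide +kernel)
              (CovZ.n2 (2800, 25280) (by decide +kernel)
               (CovZ.n2 (2760, 25320) (by decide +kernel)
                (CovZ.n2 (2800, 25320) (by decide +kernel)
                 (CovZ.leaf K2_ok TE_l7532 _)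
                 (CovZ.leaf K2_ok TE_l7533 _))
                (CovZ.leaf K2_ok TE_l7534 _))
               (CovZ.n1 (2840, 25320) (by decide +kernel)
                (CovZ.leaf K2_ok TE_l7535 _)
                (CovZ.n1 (2800, 25320) (by decide +kernel)
                 (CovZ.leaf K2_ok TE_l7536 _)
                 (CovZ.leaf K2_ok TE_l7537 _))))
              (CovZ.subM 2361183241434822606848 (by decide +kernel)
               (CovZ.n1 (2720, 25360) (by decide +kernel)
                (CovZ.n2 (2760, 25400) (by decide +kernel)
                 (CovZ.n2 (2760, 25360) (by decide +kernel)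
                  (CovZ.badM (by decide +kernel))
                  (CovZ.n1 (2780, 25380) (by decide +kernel)
                   (CovZ.leaf K2_ok TE_l7538 _)
                   (CovZ.badM (by decide +kernel))))
                 (CovZ.badM (by decide +kernel)))
                (CovZ.n1 (2760, 25320) (by decide +kernel)
                 (CovZ.n2 (2720, 25320) (by decide +kernel)
                  (CovZ.n2 (2740, 25340) (by decide +kernel)
                   (CovZ.leaf K2_ok TE_l7539 _)
                   (CovZ.badM (by decide +kernel)))
                  (CovZ.leaf K2_ok TE_l7540 _))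
                 (CovZ.n1 (2760, 25360) (by decide +kernel)
                  (CovZ.leaf K2_ok TE_l7541 _)
                  (CovZ.n1 (2740, 25340) (by decide +kernel)
                   (CovZ.badM (by decide +kernel))
                   (CovZ.leaf K2_ok TE_l7542 _))))))))
            (CovZ.n1 (2560, 25440) (by decide +kernel)
             (CovZ.n2 (2640, 25520) (by decide +kernel)
              (CovZ.badM (by decide +kernel))
              (CovZ.badM (by decide +kernel)))
             (CovZ.badM (by decide +kernel))))
           (CovZ.n1 (2720, 25120) (by decide +kernel)
            (CovZ.subM 2361183241434826801152 (by decide +kernel)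
             (CovZ.n2 (2560, 25120) (by decide +kernel)
              (CovZ.n2 (2640, 25200) (by decide +kernel)
               (CovZ.n2 (2640, 25120) (by decide +kernel)
                (CovZ.leaf K2_ok TE_l7543 _)
                (CovZ.n1 (2680, 25160) (by decide +kernel)
                 (CovZ.leaf K2_ok TE_l7544 _)
                 (CovZ.leaf K2_ok TE_l7545 _)))
               (CovZ.n1 (2560, 25200) (by decide +kernel)
                (CovZ.n2 (2600, 25240) (by decide +kernel)
                 (CovZ.leaf K2_ok TE_l7546 _)
                 (CovZ.badM (by decide +kernel)))
                (CovZ.leaf K2_ok TE_l7547 _)))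
              (CovZ.n1 (2640, 25040) (by decide +kernel)
               (CovZ.n2 (2560, 25040) (by decide +kernel)
                (CovZ.leaf K2_ok TE_l7548 _)
                (CovZ.leaf K2_ok TE_l7549 _))
               (CovZ.n1 (2640, 25120) (by decide +kernel)
                (CovZ.leaf K2_ok TE_l7550 _)
                (CovZ.leaf K2_ok TE_l7551 _)))))
            (CovZ.n1 (2720, 25280) (by decide +kernel)
             (CovZ.n2 (2800, 25200) (by decide +kernel)
              (CovZ.n2 (2720, 25200) (by decide +kernel)
               (CovZ.n2 (2760, 25240) (by decide +kernel)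
                (CovZ.leaf K2_ok TE_l7552 _)
                (CovZ.leaf K2_ok TE_l7553 _))
               (CovZ.leaf K2_ok TE_l7554 _))
              (CovZ.n1 (2800, 25280) (by decide +kernel)
               (CovZ.n2 (2840, 25240) (by decide +kernel)
                (CovZ.leaf K2_ok TE_l7555 _)
                (CovZ.leaf K2_ok TE_l7556 _))
               (CovZ.n1 (2760, 25240) (by decide +kernel)
                (CovZ.leaf K2_ok TE_l7557 _)
                (CovZ.leaf K2_ok TE_l7558 _))))
             (CovZ.subM 2361183241434826801152 (by decide +kernel)
              (CovZ.n1 (2640, 25200) (by decide +kernel)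
               (CovZ.n2 (2640, 25280) (by decide +kernel)
                (CovZ.n2 (2680, 25240) (by decide +kernel)
                 (CovZ.leaf K2_ok TE_l7559 _)
                 (CovZ.leaf K2_ok TE_l7560 _))
                (CovZ.n1 (2600, 25240) (by decide +kernel)
                 (CovZ.badM (by decide +kernel))
                 (CovZ.leaf K2_ok TE_l7561 _)))
               (CovZ.n1 (2720, 25200) (by decide +kernel)
                (CovZ.n2 (2680, 25160) (by decide +kernel)
                 (CovZ.leaf K2_ok TE_l7562 _)
                 (CovZ.leaf K2_ok TE_l7563 _))
                (CovZ.leaf K2_ok TE_l7564 _)))))))))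
        (CovZ.subM 377067423128271572738761244659733494232804684206112 (by decide +kernel)
         (CovZ.n1 (2880, 24640) (by decide +kernel)
          (CovZ.subM 374144419156711147141272955592336318074695721160704 (by decide +kernel)
           (CovZ.n2 (2560, 24640) (by decide +kernel)
            (CovZ.n2 (2720, 24800) (by decide +kernel)
             (CovZ.leaf K2_ok TE_l7565 _)
             (CovZ.n1 (2560, 24800) (by decide +kernel)
              (CovZ.n2 (2640, 24880) (by decide +kernel)
               (CovZ.leaf K2_ok TE_l7566 _)
               (CovZ.leaf K2_ok TE_l7567 _))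
              (CovZ.leaf K2_ok TE_l7568 _)))
            (CovZ.n1 (2720, 24480) (by decide +kernel)
             (CovZ.leaf K2_ok TE_l7569 _)
             (CovZ.leaf K2_ok TE_l7570 _))))
          (CovZ.n1 (2880, 24960) (by decide +kernel)
           (CovZ.n2 (3040, 24800) (by decide +kernel)
            (CovZ.n2 (2880, 24800) (by decide +kernel)
             (CovZ.leaf K2_ok TE_l7571 _)
             (CovZ.leaf K2_ok TE_l7572 _))
            (CovZ.n1 (3040, 24960) (by decide +kernel)
             (CovZ.leaf K2_ok TE_l7573 _)
             (CovZ.leaf K2_ok TE_l7574 _)))
           (CovZ.subM 374144419156711147141272955592336318074695721160704 (by decide +kernel)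
            (CovZ.n1 (2720, 24800) (by decide +kernel)
             (CovZ.n2 (2720, 24960) (by decide +kernel)
              (CovZ.leaf K2_ok TE_l7575 _)
              (CovZ.n1 (2640, 24880) (by decide +kernel)
               (CovZ.leaf K2_ok TE_l7576 _)
               (CovZ.leaf K2_ok TE_l7577 _)))
             (CovZ.leaf K2_ok TE_l7578 _))))))))
      (CovZ.n1 (3200, 23680) (by decide +kernel)
       (CovZ.subM 374144419853609434595354928765328090555709321646113 (by decide +kernel)
        (CovZ.n2 (2560, 23680) (by decide +kernel)
         (CovZ.n2 (2880, 24000) (by decide +kernel)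
          (CovZ.leaf K2_ok TE_l7579 _)
          (CovZ.n1 (2560, 24000) (by decide +kernel)
           (CovZ.leaf K2_ok TE_l7580 _)
           (CovZ.leaf K2_ok TE_l7581 _)))
         (CovZ.leaf K2_ok TE_l7582 _)))
       (CovZ.n1 (3200, 24320) (by decide +kernel)
        (CovZ.n2 (3520, 24000) (by decide +kernel)
         (CovZ.n2 (3200, 24000) (by decide +kernel)
          (CovZ.leaf K2_ok TE_l7583 _)
          (CovZ.leaf K2_ok TE_l7584 _))
         (CovZ.leaf K2_ok TE_l7585 _))
        (CovZ.n1 (2880, 24000) (by decide +kernel)
         (CovZ.n2 (2880, 24320) (by decide +kernel)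
          (CovZ.leaf K2_ok TE_l7586 _)
          (CovZ.leaf K2_ok TE_l7587 _))
         (CovZ.leaf K2_ok TE_l7588 _))))))

end Pool.Agent.TET
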