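import Pool.Agent.Helper38_TET.TE_M
import Pool.Agent.Helper38_TET.TE_L
import Pool.Agent.Helper38_TET.TE_0
import Pool.Agent.Helper38_TET.TE_1
import Pool.Agent.Helper38_TET.TE_2
import Pool.Agent.Helper38_TET.TE_3
import Pool.Agent.Helper38_TET.TE_14
import Pool.Agent.Helper38_TET.TE_15
import Pool.Agent.Helper38_TET.TE_17
import Pool.Agent.Helper38_TET.TE_18
import Pool.Agent.Helper38_TET.TE_48
import Pool.Agent.Helper38_TET.TE_49
import Pool.Agent.Helper38_TET.TE_114
import Pool.Agent.Helper38_TET.TE_115
import Pool.Agent.Helper38_TET.TE_U0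
import Pool.Agent.Helper38_TET.TE_U1

/-!
# MP_c7c9bf_co: certificates, family TE
-/

set_option autoImplicit false
set_option maxRecDepth 100000

namespace Pool.Agent.TET

theorem TE_s0_0 : SqZ TE_M TE_L [0, 7, 6, 1] (-10240) 12800 2560 0 0 :=
  SqZ.mk (a := (-10240)) (b := (-7680)) (c := 12800) (d := 15360) (by norm_num) (by norm_num) (by norm_num) (by norm_num)
    (CovZ.topM TE_LL 0 (by decide +kernel) (CovZ.badM (by decide +kernel)))
    (CovZ.topM TE_LL 0 (by decide +kernel) (CovZ.badM (by decide +kernel)))

theorem TE_s1_0 : SqZ TE_M TE_L [0, 7, 6, 1] (-10240) 12800 2560 1 0 :=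
  SqZ.mk (a := (-7680)) (b := (-5120)) (c := 12800) (d := 15360) (by norm_num) (by norm_num) (by norm_num) (by norm_num)
    (CovZ.topM TE_LL 0 (by decide +kernel) (CovZ.badM (by decide +kernel)))
    (CovZ.topM TE_LL 0 (by decide +kernel) (CovZ.badM (by decide +kernel)))

theorem TE_s2_0 : SqZ TE_M TE_L [0, 7, 6, 1] (-10240) 12800 2560 2 0 :=
  SqZ.mk (a := (-5120)) (b := (-2560)) (c := 12800) (d := 15360) (by norm_num) (by norm_num) (by norm_num) (by norm_num)
    (CovZ.topM TE_LL 0 (by decide +kernel) (CovZ.badM (by decide +kernel)))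
    (CovZ.topM TE_LL 0 (by decide +kernel) (CovZ.badM (by decide +kernel)))

theorem TE_s3_0 : SqZ TE_M TE_L [0, 7, 6, 1] (-10240) 12800 2560 3 0 :=
  SqZ.mk (a := (-2560)) (b := 0) (c := 12800) (d := 15360) (by norm_num) (by norm_num) (by norm_num) (by norm_num)
    (CovZ.topM TE_LL 81129638414606681695789005144064 (by decide +kernel) (CovZ.n2 (-1280, 14080) (by decide +kernel)
    (CovZ.n2 (0, 14080) (by decide +kernel)
     (CovZ.badM (by decide +kernel))
     (CovZ.n1 (-640, 14720) (by decide +kernel)
      (CovZ.n2 (0, 14720) (by decide +kernel)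
       (CovZ.badM (by decide +kernel))
       (CovZ.n1 (-320, 15040) (by decide +kernel)
        (CovZ.n2 (0, 15040) (by decide +kernel)
         (CovZ.n2 (-160, 14880) (by decide +kernel)
          (CovZ.n2 (-160, 15040) (by decide +kernel)
           (CovZ.n2 (-80, 14960) (by decide +kernel)
            (CovZ.leaf K2_ok TE_l46 _)
            (CovZ.leaf K2_ok TE_l47 _))
           (CovZ.n1 (-240, 14960) (by decide +kernel)
            (CovZ.n2 (-240, 15040) (by decide +kernel)
             (CovZ.leaf K2_ok TE_l48 _)
             (CovZ.badM (by decide +kernel)))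
            (CovZ.n1 (-160, 14960) (by decide +kernel)
             (CovZ.badM (by decide +kernel))
             (CovZ.n1 (-200, 15000) (by decide +kernel)
              (CovZ.leaf K2_ok TE_l51 _)
              (CovZ.badM (by decide +kernel))))))
          (CovZ.n1 (0, 14880) (by decide +kernel)
           (CovZ.n2 (-80, 14800) (by decide +kernel)
            (CovZ.n2 (-80, 14880) (by decide +kernel)
             (CovZ.leaf K2_ok TE_l53 _)
             (CovZ.badM (by decide +kernel)))
            (CovZ.n1 (0, 14800) (by decide +kernel)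
             (CovZ.leaf K2_ok TE_l55 _)
             (CovZ.leaf K2_ok TE_l56 _)))
           (CovZ.n1 (-80, 14960) (by decide +kernel)
            (CovZ.leaf K2_ok TE_l57 _)
            (CovZ.n1 (-80, 14880) (by decide +kernel)
             (CovZ.leaf K2_ok TE_l58 _)
             (CovZ.leaf K2_ok TE_l59 _)))))
         (CovZ.n1 (-160, 15200) (by decide +kernel)
          (CovZ.n2 (0, 15200) (by decide +kernel)
           (CovZ.leaf K2_ok TE_l60 _)
           (CovZ.leaf K2_ok TE_l61 _))
          (CovZ.n1 (-160, 15040) (by decide +kernel)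
           (CovZ.n2 (-240, 15120) (by decide +kernel)
            (CovZ.leaf K2_ok TE_l62 _)
            (CovZ.n1 (-240, 15040) (by decide +kernel)
             (CovZ.badM (by decide +kernel))
             (CovZ.leaf K2_ok TE_l63 _)))
           (CovZ.n1 (-80, 15120) (by decide +kernel)
            (CovZ.leaf K2_ok TE_l64 _)
            (CovZ.leaf K2_ok TE_l65 _)))))
        (CovZ.badM (by decide +kernel))))
      (CovZ.badM (by decide +kernel))))
    (CovZ.badM (by decide +kernel))))
    (CovZ.topM TE_LL 5708990770823920653871558484479711518908219392 (by decide +kernel) (CovZ.n0 (-1280, 14080) (by decide +kernel)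
    (CovZ.badM (by decide +kernel))
    (CovZ.n1 (-1280, 15360) (by decide +kernel)
     (CovZ.n2 (-640, 14720) (by decide +kernel)
      (CovZ.n2 (-1280, 14720) (by decide +kernel)
       (CovZ.n2 (-960, 15040) (by decide +kernel)
        (CovZ.badM (by decide +kernel))
        (CovZ.badM (by decide +kernel)))
       (CovZ.badM (by decide +kernel)))
      (CovZ.n1 (-640, 15360) (by decide +kernel)
       (CovZ.n2 (-320, 15040) (by decide +kernel)
        (CovZ.badM (by decide +kernel))
        (CovZ.n1 (-320, 15360) (by decide +kernel)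
         (CovZ.n2 (-160, 15200) (by decide +kernel)
          (CovZ.n2 (-320, 15200) (by decide +kernel)
           (CovZ.n2 (-240, 15280) (by decide +kernel)
            (CovZ.n2 (-240, 15200) (by decide +kernel)
             (CovZ.leaf K2_ok TE_l70 _)
             (CovZ.leaf K2_ok TE_l71 _))
            (CovZ.n1 (-320, 15280) (by decide +kernel)
             (CovZ.leaf K2_ok TE_l72 _)
             (CovZ.leaf K2_ok TE_l73 _)))
           (CovZ.n1 (-240, 15120) (by decide +kernel)
            (CovZ.badM (by decide +kernel))
            (CovZ.n1 (-240, 15200) (by decide +kernel)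
             (CovZ.leaf K2_ok TE_l74 _)
             (CovZ.n1 (-280, 15160) (by decide +kernel)
              (CovZ.leaf K2_ok TE_l75 _)
              (CovZ.leaf K2_ok TE_l76 _)))))
          (CovZ.n1 (-160, 15360) (by decide +kernel)
           (CovZ.leaf K2_ok TE_l77 _)
           (CovZ.n1 (-240, 15280) (by decide +kernel)
            (CovZ.leaf K2_ok TE_l78 _)
            (CovZ.leaf K2_ok TE_l79 _))))
         (CovZ.n1 (-480, 15200) (by decide +kernel)
          (CovZ.n2 (-480, 15360) (by decide +kernel)
           (CovZ.n2 (-400, 15280) (by decide +kernel)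
            (CovZ.badM (by decide +kernel))
            (CovZ.n1 (-400, 15360) (by decide +kernel)
             (CovZ.n2 (-360, 15320) (by decide +kernel)
              (CovZ.badM (by decide +kernel))
              (CovZ.leaf K2_ok TE_l80 _))
             (CovZ.badM (by decide +kernel))))
           (CovZ.badM (by decide +kernel)))
          (CovZ.n1 (-320, 15200) (by decide +kernel)
           (CovZ.badM (by decide +kernel))
           (CovZ.n1 (-400, 15280) (by decide +kernel)
            (CovZ.n2 (-320, 15280) (by decide +kernel)
             (CovZ.badM (by decide +kernel))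
             (CovZ.n1 (-360, 15320) (by decide +kernel)
              (CovZ.leaf K2_ok TE_l81 _)
              (CovZ.badM (by decide +kernel))))
            (CovZ.badM (by decide +kernel)))))))
       (CovZ.n1 (-960, 15040) (by decide +kernel)
        (CovZ.n2 (-960, 15360) (by decide +kernel)
         (CovZ.n2 (-800, 15200) (by decide +kernel)
          (CovZ.badM (by decide +kernel))
          (CovZ.n1 (-800, 15360) (by decide +kernel)
           (CovZ.badM (by decide +kernel))
           (CovZ.badM (by decide +kernel))))
         (CovZ.badM (by decide +kernel)))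
        (CovZ.badM (by decide +kernel)))))
     (CovZ.badM (by decide +kernel)))))

theorem TE_s4_0 : SqZ TE_M TE_L [0, 7, 6, 1] (-10240) 12800 2560 4 0 :=
  SqZ.mk (a := 0) (b := 2560) (c := 12800) (d := 15360) (by norm_num) (by norm_num) (by norm_num) (by norm_num)
    (CovZ.topM TE_LL 374144419156711147060143317175368453031918731001856 (by decide +kernel) (CovZ.n2 (1280, 14080) (by decide +kernel)
    (CovZ.n2 (2560, 14080) (by decide +kernel)
     (CovZ.n2 (1920, 13440) (by decide +kernel)
      (CovZ.n2 (1920, 14080) (by decide +kernel)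
       (CovZ.badM (by decide +kernel))
       (CovZ.n1 (1600, 13760) (by decide +kernel)
        (CovZ.n2 (1600, 14080) (by decide +kernel)
         (CovZ.badM (by decide +kernel))
         (CovZ.n1 (1440, 13920) (by decide +kernel)
          (CovZ.n2 (1440, 14080) (by decide +kernel)
           (CovZ.badM (by decide +kernel))
           (CovZ.badM (by decide +kernel)))
          (CovZ.badM (by decide +kernel))))
        (CovZ.badM (by decide +kernel))))
      (CovZ.badM (by decide +kernel)))
     (CovZ.n1 (1920, 14720) (by decide +kernel)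
      (CovZ.badM (by decide +kernel))
      (CovZ.n1 (1920, 14080) (by decide +kernel)
       (CovZ.n2 (1600, 14400) (by decide +kernel)
        (CovZ.badM (by decide +kernel))
        (CovZ.n1 (1600, 14080) (by decide +kernel)
         (CovZ.n2 (1440, 14240) (by decide +kernel)
          (CovZ.badM (by decide +kernel))
          (CovZ.n1 (1440, 14080) (by decide +kernel)
           (CovZ.badM (by decide +kernel))
           (CovZ.badM (by decide +kernel))))
         (CovZ.badM (by decide +kernel))))
       (CovZ.badM (by decide +kernel)))))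
    (CovZ.n1 (1280, 12800) (by decide +kernel)
     (CovZ.badM (by decide +kernel))
     (CovZ.n1 (1920, 13440) (by decide +kernel)
      (CovZ.badM (by decide +kernel))
      (CovZ.n1 (1280, 13440) (by decide +kernel)
       (CovZ.n2 (1600, 13760) (by decide +kernel)
        (CovZ.n2 (1600, 13440) (by decide +kernel)
         (CovZ.n2 (1440, 13600) (by decide +kernel)
          (CovZ.badM (by decide +kernel))
          (CovZ.n1 (1440, 13440) (by decide +kernel)
           (CovZ.n2 (1360, 13520) (by decide +kernel)
            (CovZ.badM (by decide +kernel))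
            (CovZ.n1 (1360, 13440) (by decide +kernel)
             (CovZ.badM (by decide +kernel))
             (CovZ.badM (by decide +kernel))))
           (CovZ.badM (by decide +kernel))))
         (CovZ.badM (by decide +kernel)))
        (CovZ.n1 (1280, 13760) (by decide +kernel)
         (CovZ.n2 (1440, 13920) (by decide +kernel)
          (CovZ.n2 (1440, 13760) (by decide +kernel)
           (CovZ.badM (by decide +kernel))
           (CovZ.badM (by decide +kernel)))
          (CovZ.badM (by decide +kernel)))
         (CovZ.n1 (1440, 13600) (by decide +kernel)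
          (CovZ.badM (by decide +kernel))
          (CovZ.n1 (1440, 13760) (by decide +kernel)
           (CovZ.badM (by decide +kernel))
           (CovZ.badM (by decide +kernel))))))
       (CovZ.n1 (1600, 13120) (by decide +kernel)
        (CovZ.n2 (1280, 13120) (by decide +kernel)
         (CovZ.n2 (1440, 13280) (by decide +kernel)
          (CovZ.badM (by decide +kernel))
          (CovZ.n1 (1280, 13280) (by decide +kernel)
           (CovZ.n2 (1360, 13360) (by decide +kernel)
            (CovZ.badM (by decide +kernel))
            (CovZ.badM (by decide +kernel)))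
           (CovZ.badM (by decide +kernel))))
         (CovZ.badM (by decide +kernel)))
        (CovZ.n1 (1600, 13440) (by decide +kernel)
         (CovZ.badM (by decide +kernel))
         (CovZ.n1 (1440, 13280) (by decide +kernel)
          (CovZ.n2 (1440, 13440) (by decide +kernel)
           (CovZ.badM (by decide +kernel))
           (CovZ.n1 (1360, 13360) (by decide +kernel)
            (CovZ.n2 (1360, 13440) (by decide +kernel)
             (CovZ.badM (by decide +kernel))
             (CovZ.badM (by decide +kernel)))
            (CovZ.badM (by decide +kernel))))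
          (CovZ.badM (by decide +kernel))))))))))
    (CovZ.topM TE_LL 374144419156711147141272955592336317969146887274496 (by decide +kernel) (CovZ.n0 (1280, 14080) (by decide +kernel)
    (CovZ.n2 (0, 14080) (by decide +kernel)
     (CovZ.n2 (640, 14720) (by decide +kernel)
      (CovZ.badM (by decide +kernel))
      (CovZ.n1 (0, 14720) (by decide +kernel)
       (CovZ.n2 (320, 15040) (by decide +kernel)
        (CovZ.n2 (320, 14720) (by decide +kernel)
         (CovZ.n2 (160, 14880) (by decide +kernel)
          (CovZ.n2 (320, 14880) (by decide +kernel)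
           (CovZ.n2 (240, 14800) (by decide +kernel)
            (CovZ.n2 (240, 14880) (by decide +kernel)
             (CovZ.leaf K2_ok TE_l2241 _)
             (CovZ.n1 (200, 14840) (by decide +kernel)
              (CovZ.leaf K2_ok TE_l2242 _)
              (CovZ.leaf K2_ok TE_l2243 _)))
            (CovZ.n1 (320, 14800) (by decide +kernel)
             (CovZ.n2 (280, 14760) (by decide +kernel)
              (CovZ.leaf K2_ok TE_l17133 _)
              (CovZ.badM (by decide +kernel)))
             (CovZ.leaf K2_ok TE_l17134 _)))
           (CovZ.n1 (240, 14960) (by decide +kernel)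
            (CovZ.n2 (320, 14960) (by decide +kernel)
             (CovZ.n2 (280, 14920) (by decide +kernel)
              (CovZ.leaf K2_ok TE_l2244 _)
              (CovZ.leaf K2_ok TE_l2245 _))
             (CovZ.leaf K2_ok TE_l2246 _))
            (CovZ.leaf K2_ok TE_l2247 _)))
          (CovZ.n1 (160, 14720) (by decide +kernel)
           (CovZ.n2 (80, 14800) (by decide +kernel)
            (CovZ.n2 (160, 14800) (by decide +kernel)
             (CovZ.n2 (120, 14760) (by decide +kernel)
              (CovZ.leaf K2_ok TE_l2248 _)
              (CovZ.leaf K2_ok TE_l2249 _))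
             (CovZ.leaf K2_ok TE_l2250 _))
            (CovZ.leaf K2_ok TE_l2251 _))
           (CovZ.n1 (240, 14800) (by decide +kernel)
            (CovZ.n2 (240, 14720) (by decide +kernel)
             (CovZ.leaf K2_ok TE_l17135 _)
             (CovZ.n1 (280, 14760) (by decide +kernel)
              (CovZ.badM (by decide +kernel))
              (CovZ.leaf K2_ok TE_l17136 _)))
            (CovZ.n1 (160, 14800) (by decide +kernel)
             (CovZ.leaf K2_ok TE_l2252 _)
             (CovZ.leaf K2_ok TE_l2253 _)))))
         (CovZ.n1 (480, 14880) (by decide +kernel)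
          (CovZ.badM (by decide +kernel))
          (CovZ.n1 (320, 14880) (by decide +kernel)
           (CovZ.n2 (400, 14960) (by decide +kernel)
            (CovZ.badM (by decide +kernel))
            (CovZ.n1 (320, 14960) (by decide +kernel)
             (CovZ.leaf K2_ok TE_l2254 _)
             (CovZ.leaf K2_ok TE_l2255 _)))
           (CovZ.badM (by decide +kernel)))))
        (CovZ.n1 (0, 15040) (by decide +kernel)
         (CovZ.n2 (160, 15200) (by decide +kernel)
          (CovZ.n2 (160, 15040) (by decide +kernel)
           (CovZ.leaf K2_ok TE_l2256 _)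
           (CovZ.leaf K2_ok TE_l2257 _))
          (CovZ.n1 (0, 15200) (by decide +kernel)
           (CovZ.leaf K2_ok TE_l2258 _)
           (CovZ.leaf K2_ok TE_l2259 _)))
         (CovZ.n1 (160, 14880) (by decide +kernel)
          (CovZ.n2 (0, 14880) (by decide +kernel)
           (CovZ.leaf K2_ok TE_l2260 _)
           (CovZ.n1 (80, 14800) (by decide +kernel)
            (CovZ.leaf K2_ok TE_l2261 _)
            (CovZ.leaf K2_ok TE_l2262 _)))
          (CovZ.n1 (160, 15040) (by decide +kernel)
           (CovZ.n2 (240, 14960) (by decide +kernel)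
            (CovZ.leaf K2_ok TE_l2263 _)
            (CovZ.leaf K2_ok TE_l2264 _))
           (CovZ.n1 (80, 14960) (by decide +kernel)
            (CovZ.leaf K2_ok TE_l2265 _)
            (CovZ.leaf K2_ok TE_l2266 _))))))
       (CovZ.n1 (320, 14400) (by decide +kernel)
        (CovZ.n2 (0, 14400) (by decide +kernel)
         (CovZ.n2 (160, 14560) (by decide +kernel)
          (CovZ.badM (by decide +kernel))
          (CovZ.n1 (0, 14560) (by decide +kernel)
           (CovZ.n2 (80, 14640) (by decide +kernel)
            (CovZ.n2 (80, 14560) (by decide +kernel)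
             (CovZ.leaf K2_ok TE_l17137 _)
             (CovZ.n1 (120, 14600) (by decide +kernel)
              (CovZ.badM (by decide +kernel))
              (CovZ.leaf K2_ok TE_l17138 _)))
            (CovZ.n1 (0, 14640) (by decide +kernel)
             (CovZ.leaf K2_ok TE_l2267 _)
             (CovZ.leaf K2_ok TE_l2268 _)))
           (CovZ.n1 (80, 14480) (by decide +kernel)
            (CovZ.badM (by decide +kernel))
            (CovZ.n1 (80, 14560) (by decide +kernel)
             (CovZ.badM (by decide +kernel))
             (CovZ.badM (by decide +kernel))))))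
         (CovZ.badM (by decide +kernel)))
        (CovZ.n1 (320, 14720) (by decide +kernel)
         (CovZ.badM (by decide +kernel))
         (CovZ.n1 (160, 14560) (by decide +kernel)
          (CovZ.n2 (160, 14720) (by decide +kernel)
           (CovZ.n2 (240, 14640) (by decide +kernel)
            (CovZ.n2 (160, 14640) (by decide +kernel)
             (CovZ.n2 (200, 14680) (by decide +kernel)
              (CovZ.badM (by decide +kernel))
              (CovZ.leaf K2_ok TE_l17139 _))
             (CovZ.badM (by decide +kernel)))
            (CovZ.n1 (240, 14720) (by decide +kernel)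
             (CovZ.badM (by decide +kernel))
             (CovZ.n1 (200, 14680) (by decide +kernel)
              (CovZ.leaf K2_ok TE_l17140 _)
              (CovZ.badM (by decide +kernel)))))
           (CovZ.n1 (80, 14640) (by decide +kernel)
            (CovZ.n2 (80, 14720) (by decide +kernel)
             (CovZ.leaf K2_ok TE_l2269 _)
             (CovZ.n1 (40, 14680) (by decide +kernel)
              (CovZ.leaf K2_ok TE_l2270 _)
              (CovZ.leaf K2_ok TE_l2271 _)))
            (CovZ.n1 (160, 14640) (by decide +kernel)
             (CovZ.n2 (120, 14600) (by decide +kernel)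
              (CovZ.leaf K2_ok TE_l17141 _)
              (CovZ.badM (by decide +kernel)))
             (CovZ.leaf K2_ok TE_l17142 _))))
          (CovZ.badM (by decide +kernel)))))))
     (CovZ.badM (by decide +kernel)))
    (CovZ.n1 (1280, 15360) (by decide +kernel)
     (CovZ.n2 (1920, 14720) (by decide +kernel)
      (CovZ.n2 (1280, 14720) (by decide +kernel)
       (CovZ.n2 (1600, 15040) (by decide +kernel)
        (CovZ.n2 (1600, 14720) (by decide +kernel)
         (CovZ.n2 (1440, 14880) (by decide +kernel)
          (CovZ.n2 (1600, 14880) (by decide +kernel)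
           (CovZ.n2 (1520, 14800) (by decide +kernel)
            (CovZ.badM (by decide +kernel))
            (CovZ.badM (by decide +kernel)))
           (CovZ.badM (by decide +kernel)))
          (CovZ.n1 (1440, 14720) (by decide +kernel)
           (CovZ.badM (by decide +kernel))
           (CovZ.n1 (1520, 14800) (by decide +kernel)
            (CovZ.n2 (1520, 14720) (by decide +kernel)
             (CovZ.badM (by decide +kernel))
             (CovZ.badM (by decide +kernel)))
            (CovZ.badM (by decide +kernel)))))
         (CovZ.badM (by decide +kernel)))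
        (CovZ.badM (by decide +kernel)))
       (CovZ.n1 (1600, 14400) (by decide +kernel)
        (CovZ.n2 (1280, 14400) (by decide +kernel)
         (CovZ.n2 (1440, 14560) (by decide +kernel)
          (CovZ.n2 (1440, 14400) (by decide +kernel)
           (CovZ.badM (by decide +kernel))
           (CovZ.badM (by decide +kernel)))
          (CovZ.badM (by decide +kernel)))
         (CovZ.n1 (1440, 14240) (by decide +kernel)
          (CovZ.badM (by decide +kernel))
          (CovZ.n1 (1440, 14400) (by decide +kernel)
           (CovZ.badM (by decide +kernel))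
           (CovZ.badM (by decide +kernel)))))
        (CovZ.n1 (1600, 14720) (by decide +kernel)
         (CovZ.badM (by decide +kernel))
         (CovZ.n1 (1440, 14560) (by decide +kernel)
          (CovZ.n2 (1440, 14720) (by decide +kernel)
           (CovZ.n2 (1520, 14640) (by decide +kernel)
            (CovZ.badM (by decide +kernel))
            (CovZ.n1 (1520, 14720) (by decide +kernel)
             (CovZ.badM (by decide +kernel))
             (CovZ.badM (by decide +kernel))))
           (CovZ.badM (by decide +kernel)))
          (CovZ.badM (by decide +kernel))))))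
      (CovZ.n1 (1920, 15360) (by decide +kernel)
       (CovZ.badM (by decide +kernel))
       (CovZ.n1 (1600, 15040) (by decide +kernel)
        (CovZ.n2 (1600, 15360) (by decide +kernel)
         (CovZ.badM (by decide +kernel))
         (CovZ.badM (by decide +kernel)))
        (CovZ.badM (by decide +kernel)))))
     (CovZ.n1 (640, 14720) (by decide +kernel)
      (CovZ.n2 (640, 15360) (by decide +kernel)
       (CovZ.n2 (960, 15040) (by decide +kernel)
        (CovZ.n2 (640, 15040) (by decide +kernel)
         (CovZ.n2 (800, 15200) (by decide +kernel)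
          (CovZ.badM (by decide +kernel))
          (CovZ.n1 (640, 15200) (by decide +kernel)
           (CovZ.n2 (720, 15280) (by decide +kernel)
            (CovZ.badM (by decide +kernel))
            (CovZ.n1 (640, 15280) (by decide +kernel)
             (CovZ.leaf K2_ok TE_l2272 _)
             (CovZ.leaf K2_ok TE_l2273 _)))
           (CovZ.badM (by decide +kernel))))
         (CovZ.badM (by decide +kernel)))
        (CovZ.n1 (960, 15360) (by decide +kernel)
         (CovZ.badM (by decide +kernel))
         (CovZ.n1 (800, 15200) (by decide +kernel)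
          (CovZ.n2 (800, 15360) (by decide +kernel)
           (CovZ.badM (by decide +kernel))
           (CovZ.n1 (720, 15280) (by decide +kernel)
            (CovZ.n2 (720, 15360) (by decide +kernel)
             (CovZ.leaf K2_ok TE_l2274 _)
             (CovZ.n1 (680, 15320) (by decide +kernel)
              (CovZ.leaf K2_ok TE_l2275 _)
              (CovZ.leaf K2_ok TE_l2276 _)))
            (CovZ.badM (by decide +kernel))))
          (CovZ.badM (by decide +kernel)))))
       (CovZ.n1 (320, 15040) (by decide +kernel)
        (CovZ.n2 (320, 15360) (by decide +kernel)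
         (CovZ.n2 (480, 15200) (by decide +kernel)
          (CovZ.n2 (320, 15200) (by decide +kernel)
           (CovZ.leaf K2_ok TE_l2277 _)
           (CovZ.leaf K2_ok TE_l2278 _))
          (CovZ.n1 (480, 15360) (by decide +kernel)
           (CovZ.leaf K2_ok TE_l2279 _)
           (CovZ.n1 (400, 15280) (by decide +kernel)
            (CovZ.leaf K2_ok TE_l2280 _)
            (CovZ.leaf K2_ok TE_l2281 _))))
         (CovZ.n1 (160, 15200) (by decide +kernel)
          (CovZ.n2 (160, 15360) (by decide +kernel)
           (CovZ.leaf K2_ok TE_l2282 _)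
           (CovZ.n1 (80, 15280) (by decide +kernel)
            (CovZ.leaf K2_ok TE_l2283 _)
            (CovZ.leaf K2_ok TE_l2284 _)))
          (CovZ.leaf K2_ok TE_l2285 _)))
        (CovZ.n1 (640, 15040) (by decide +kernel)
         (CovZ.n2 (480, 14880) (by decide +kernel)
          (CovZ.n2 (480, 15040) (by decide +kernel)
           (CovZ.badM (by decide +kernel))
           (CovZ.n1 (400, 14960) (by decide +kernel)
            (CovZ.leaf K2_ok TE_l2286 _)
            (CovZ.badM (by decide +kernel))))
          (CovZ.badM (by decide +kernel)))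
         (CovZ.n1 (480, 15200) (by decide +kernel)
          (CovZ.n2 (640, 15200) (by decide +kernel)
           (CovZ.n2 (560, 15120) (by decide +kernel)
            (CovZ.leaf K2_ok TE_l2287 _)
            (CovZ.badM (by decide +kernel)))
           (CovZ.leaf K2_ok TE_l2288 _))
          (CovZ.n1 (480, 15040) (by decide +kernel)
           (CovZ.leaf K2_ok TE_l2289 _)
           (CovZ.n1 (560, 15120) (by decide +kernel)
            (CovZ.badM (by decide +kernel))
            (CovZ.leaf K2_ok TE_l2290 _)))))))
      (CovZ.badM (by decide +kernel))))))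

theorem TE_s5_0 : SqZ TE_M TE_L [0, 7, 6, 1] (-10240) 12800 2560 5 0 :=
  SqZ.mk (a := 2560) (b := 5120) (c := 12800) (d := 15360) (by norm_num) (by norm_num) (by norm_num) (by norm_num)
    (CovZ.topM TE_LL 0 (by decide +kernel) (CovZ.badM (by decide +kernel)))
    (CovZ.topM TE_LL 0 (by decide +kernel) (CovZ.badM (by decide +kernel)))

theorem TE_s6_0 : SqZ TE_M TE_L [0, 7, 6, 1] (-10240) 12800 2560 6 0 :=
  SqZ.mk (a := 5120) (b := 7680) (c := 12800) (d := 15360) (by norm_num) (by norm_num) (by norm_num) (by norm_num)
    (CovZ.topM TE_LL 0 (by decide +kernel) (CovZ.badM (by decide +kernel)))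
    (CovZ.topM TE_LL 0 (by decide +kernel) (CovZ.badM (by decide +kernel)))

theorem TE_s7_0 : SqZ TE_M TE_L [0, 7, 6, 1] (-10240) 12800 2560 7 0 :=
  SqZ.mk (a := 7680) (b := 10240) (c := 12800) (d := 15360) (by norm_num) (by norm_num) (by norm_num) (by norm_num)
    (CovZ.topM TE_LL 0 (by decide +kernel) (CovZ.badM (by decide +kernel)))
    (CovZ.topM TE_LL 0 (by decide +kernel) (CovZ.badM (by decide +kernel)))

theorem TE_s8_0 : SqZ TE_M TE_L [0, 7, 6, 1] (-10240) 12800 2560 8 0 :=
  SqZ.mk (a := 10240) (b := 12800) (c := 12800) (d := 15360) (by norm_num) (by norm_num) (by norm_num) (by norm_num)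
    (CovZ.topM TE_LL 0 (by decide +kernel) (CovZ.badM (by decide +kernel)))
    (CovZ.topM TE_LL 0 (by decide +kernel) (CovZ.badM (by decide +kernel)))

theorem TE_s9_0 : SqZ TE_M TE_L [0, 7, 6, 1] (-10240) 12800 2560 9 0 :=
  SqZ.mk (a := 12800) (b := 15360) (c := 12800) (d := 15360) (by norm_num) (by norm_num) (by norm_num) (by norm_num)
    (CovZ.topM TE_LL 0 (by decide +kernel) (CovZ.badM (by decide +kernel)))
    (CovZ.topM TE_LL 0 (by decide +kernel) (CovZ.badM (by decide +kernel)))

theorem TE_s10_0 : SqZ TE_M TE_L [0, 7, 6, 1] (-10240) 12800 2560 10 0 :=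
  SqZ.mk (a := 15360) (b := 17920) (c := 12800) (d := 15360) (by norm_num) (by norm_num) (by norm_num) (by norm_num)
    (CovZ.topM TE_LL 0 (by decide +kernel) (CovZ.badM (by decide +kernel)))
    (CovZ.topM TE_LL 0 (by decide +kernel) (CovZ.badM (by decide +kernel)))

theorem TE_s0_1 : SqZ TE_M TE_L [0, 7, 6, 1] (-10240) 12800 2560 0 1 :=
  SqZ.mk (a := (-10240)) (b := (-7680)) (c := 15360) (d := 17920) (by norm_num) (by norm_num) (by norm_num) (by norm_num)
    (CovZ.topM TE_LL 0 (by decide +kernel) (CovZ.badM (by decide +kernel)))
    (CovZ.topM TE_LL 95780971304118053647396689196894323976171195136475136 (by decide +kernel) (CovZ.n0 (-8960, 16640) (by decide +kernel)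
    (CovZ.n2 (-10240, 16640) (by decide +kernel)
     (CovZ.n2 (-9600, 17280) (by decide +kernel)
      (CovZ.badM (by decide +kernel))
      (CovZ.badM (by decide +kernel)))
     (CovZ.badM (by decide +kernel)))
    (CovZ.n1 (-8960, 17920) (by decide +kernel)
     (CovZ.badM (by decide +kernel))
     (CovZ.n1 (-9600, 17280) (by decide +kernel)
      (CovZ.badM (by decide +kernel))
      (CovZ.badM (by decide +kernel))))))

theorem TE_s1_1 : SqZ TE_M TE_L [0, 7, 6, 1] (-10240) 12800 2560 1 1 :=
  SqZ.mk (a := (-7680)) (b := (-5120)) (c := 15360) (d := 17920) (by norm_num) (by norm_num) (by norm_num) (by norm_num)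
    (CovZ.topM TE_LL 4096 (by decide +kernel) (CovZ.n2 (-6400, 16640) (by decide +kernel)
    (CovZ.n2 (-5120, 16640) (by decide +kernel)
     (CovZ.badM (by decide +kernel))
     (CovZ.badM (by decide +kernel)))
    (CovZ.badM (by decide +kernel))))
    (CovZ.topM TE_LL 0 (by decide +kernel) (CovZ.badM (by decide +kernel)))

theorem TE_s2_1 : SqZ TE_M TE_L [0, 7, 6, 1] (-10240) 12800 2560 2 1 :=
  SqZ.mk (a := (-5120)) (b := (-2560)) (c := 15360) (d := 17920) (by norm_num) (by norm_num) (by norm_num) (by norm_num)
    (CovZ.topM TE_LL 4194304 (by decide +kernel) (CovZ.n2 (-3840, 16640) (by decide +kernel)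
    (CovZ.n2 (-2560, 16640) (by decide +kernel)
     (CovZ.n2 (-3200, 16000) (by decide +kernel)
      (CovZ.badM (by decide +kernel))
      (CovZ.badM (by decide +kernel)))
     (CovZ.badM (by decide +kernel)))
    (CovZ.n1 (-3840, 15360) (by decide +kernel)
     (CovZ.badM (by decide +kernel))
     (CovZ.n1 (-3200, 16000) (by decide +kernel)
      (CovZ.badM (by decide +kernel))
      (CovZ.badM (by decide +kernel))))))
    (CovZ.topM TE_LL 4096 (by decide +kernel) (CovZ.n0 (-3840, 16640) (by decide +kernel)
    (CovZ.n2 (-5120, 16640) (by decide +kernel)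
     (CovZ.n2 (-4480, 17280) (by decide +kernel)
      (CovZ.badM (by decide +kernel))
      (CovZ.badM (by decide +kernel)))
     (CovZ.badM (by decide +kernel)))
    (CovZ.n1 (-3840, 17920) (by decide +kernel)
     (CovZ.badM (by decide +kernel))
     (CovZ.n1 (-4480, 17280) (by decide +kernel)
      (CovZ.badM (by decide +kernel))
      (CovZ.badM (by decide +kernel))))))

theorem TE_s3_1 : SqZ TE_M TE_L [0, 7, 6, 1] (-10240) 12800 2560 3 1 :=
  SqZ.mk (a := (-2560)) (b := 0) (c := 15360) (d := 17920) (by norm_num) (by norm_num) (by norm_num) (by norm_num)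
    (CovZ.topM TE_LL 5708990770823920653871560845662952953731874816 (by decide +kernel) (CovZ.n2 (-1280, 16640) (by decide +kernel)
    (CovZ.n2 (0, 16640) (by decide +kernel)
     TE_u0
     TE_u1)
    (CovZ.n1 (-1280, 15360) (by decide +kernel)
     (CovZ.badM (by decide +kernel))
     (CovZ.n1 (-640, 16000) (by decide +kernel)
      (CovZ.n2 (-640, 15360) (by decide +kernel)
       (CovZ.n2 (-960, 15680) (by decide +kernel)
        (CovZ.n2 (-640, 15680) (by decide +kernel)
         (CovZ.n2 (-800, 15520) (by decide +kernel)
          (CovZ.badM (by decide +kernel))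
          (CovZ.n1 (-640, 15520) (by decide +kernel)
           (CovZ.n2 (-720, 15440) (by decide +kernel)
            (CovZ.badM (by decide +kernel))
            (CovZ.badM (by decide +kernel)))
           (CovZ.badM (by decide +kernel))))
         (CovZ.n1 (-800, 15840) (by decide +kernel)
          (CovZ.n2 (-640, 15840) (by decide +kernel)
           (CovZ.badM (by decide +kernel))
           (CovZ.n1 (-720, 15920) (by decide +kernel)
            (CovZ.n2 (-640, 15920) (by decide +kernel)
             (CovZ.badM (by decide +kernel))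
             (CovZ.n1 (-680, 15960) (by decide +kernel)
              (CovZ.leaf K2_ok TE_l16988 _)
              (CovZ.badM (by decide +kernel))))
            (CovZ.badM (by decide +kernel))))
          (CovZ.badM (by decide +kernel))))
        (CovZ.n1 (-960, 15360) (by decide +kernel)
         (CovZ.badM (by decide +kernel))
         (CovZ.n1 (-800, 15520) (by decide +kernel)
          (CovZ.n2 (-800, 15360) (by decide +kernel)
           (CovZ.badM (by decide +kernel))
           (CovZ.n1 (-720, 15440) (by decide +kernel)
            (CovZ.badM (by decide +kernel))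
            (CovZ.badM (by decide +kernel))))
          (CovZ.badM (by decide +kernel)))))
       (CovZ.n1 (-320, 15680) (by decide +kernel)
        (CovZ.n2 (-320, 15360) (by decide +kernel)
         (CovZ.n2 (-480, 15520) (by decide +kernel)
          (CovZ.n2 (-320, 15520) (by decide +kernel)
           (CovZ.n2 (-400, 15440) (by decide +kernel)
            (CovZ.n2 (-400, 15520) (by decide +kernel)
             (CovZ.leaf K2_ok TE_l179 _)
             (CovZ.n1 (-440, 15480) (by decide +kernel)
              (CovZ.leaf K2_ok TE_l180 _)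
              (CovZ.leaf K2_ok TE_l181 _)))
            (CovZ.n1 (-320, 15440) (by decide +kernel)
             (CovZ.leaf K2_ok TE_l182 _)
             (CovZ.leaf K2_ok TE_l183 _)))
           (CovZ.n1 (-400, 15600) (by decide +kernel)
            (CovZ.leaf K2_ok TE_l184 _)
            (CovZ.n1 (-400, 15520) (by decide +kernel)
             (CovZ.n2 (-440, 15560) (by decide +kernel)
              (CovZ.leaf K2_ok TE_l185 _)
              (CovZ.leaf K2_ok TE_l186 _))
             (CovZ.leaf K2_ok TE_l187 _))))
          (CovZ.n1 (-480, 15360) (by decide +kernel)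
           (CovZ.badM (by decide +kernel))
           (CovZ.n1 (-400, 15440) (by decide +kernel)
            (CovZ.n2 (-400, 15360) (by decide +kernel)
             (CovZ.badM (by decide +kernel))
             (CovZ.n1 (-360, 15400) (by decide +kernel)
              (CovZ.leaf K2_ok TE_l188 _)
              (CovZ.badM (by decide +kernel))))
            (CovZ.badM (by decide +kernel)))))
         (CovZ.n1 (-160, 15520) (by decide +kernel)
          (CovZ.n2 (-160, 15360) (by decide +kernel)
           (CovZ.n2 (-240, 15440) (by decide +kernel)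
            (CovZ.leaf K2_ok TE_l189 _)
            (CovZ.leaf K2_ok TE_l190 _))
           (CovZ.leaf K2_ok TE_l191 _))
          (CovZ.n1 (-320, 15520) (by decide +kernel)
           (CovZ.n2 (-240, 15600) (by decide +kernel)
            (CovZ.leaf K2_ok TE_l192 _)
            (CovZ.leaf K2_ok TE_l193 _))
           (CovZ.n1 (-240, 15440) (by decide +kernel)
            (CovZ.n2 (-320, 15440) (by decide +kernel)
             (CovZ.leaf K2_ok TE_l194 _)
             (CovZ.leaf K2_ok TE_l195 _))
            (CovZ.leaf K2_ok TE_l196 _)))))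
        (CovZ.n1 (-640, 15680) (by decide +kernel)
         (CovZ.n2 (-480, 15840) (by decide +kernel)
          (CovZ.n2 (-480, 15680) (by decide +kernel)
           (CovZ.n2 (-560, 15760) (by decide +kernel)
            (CovZ.n2 (-480, 15760) (by decide +kernel)
             (CovZ.leaf K2_ok TE_l197 _)
             (CovZ.leaf K2_ok TE_l198 _))
            (CovZ.n1 (-560, 15680) (by decide +kernel)
             (CovZ.badM (by decide +kernel))
             (CovZ.n1 (-520, 15720) (by decide +kernel)
              (CovZ.leaf K2_ok TE_l16989 _)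
              (CovZ.leaf K2_ok TE_l199 _))))
           (CovZ.n1 (-400, 15760) (by decide +kernel)
            (CovZ.leaf K2_ok TE_l200 _)
            (CovZ.n1 (-480, 15760) (by decide +kernel)
             (CovZ.leaf K2_ok TE_l201 _)
             (CovZ.leaf K2_ok TE_l202 _))))
          (CovZ.n1 (-640, 15840) (by decide +kernel)
           (CovZ.n2 (-560, 15920) (by decide +kernel)
            (CovZ.n2 (-560, 15840) (by decide +kernel)
             (CovZ.leaf K2_ok TE_l203 _)
             (CovZ.leaf K2_ok TE_l204 _))
            (CovZ.n1 (-640, 15920) (by decide +kernel)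
             (CovZ.leaf K2_ok TE_l205 _)
             (CovZ.leaf K2_ok TE_l206 _)))
           (CovZ.n1 (-560, 15760) (by decide +kernel)
            (CovZ.badM (by decide +kernel))
            (CovZ.n1 (-560, 15840) (by decide +kernel)
             (CovZ.leaf K2_ok TE_l207 _)
             (CovZ.n1 (-600, 15800) (by decide +kernel)
              (CovZ.leaf K2_ok TE_l208 _)
              (CovZ.leaf K2_ok TE_l209 _))))))
         (CovZ.n1 (-480, 15520) (by decide +kernel)
          (CovZ.badM (by decide +kernel))
          (CovZ.n1 (-480, 15680) (by decide +kernel)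
           (CovZ.n2 (-400, 15600) (by decide +kernel)
            (CovZ.n2 (-480, 15600) (by decide +kernel)
             (CovZ.leaf K2_ok TE_l210 _)
             (CovZ.n1 (-440, 15560) (by decide +kernel)
              (CovZ.leaf K2_ok TE_l16990 _)
              (CovZ.leaf K2_ok TE_l211 _)))
            (CovZ.leaf K2_ok TE_l212 _))
           (CovZ.n1 (-560, 15600) (by decide +kernel)
            (CovZ.n2 (-560, 15680) (by decide +kernel)
             (CovZ.n2 (-520, 15640) (by decide +kernel)
              (CovZ.badM (by decide +kernel))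
              (CovZ.leaf K2_ok TE_l16991 _))
             (CovZ.badM (by decide +kernel)))
            (CovZ.n1 (-480, 15600) (by decide +kernel)
             (CovZ.badM (by decide +kernel))
             (CovZ.n1 (-520, 15640) (by decide +kernel)
              (CovZ.leaf K2_ok TE_l16992 _)
              (CovZ.badM (by decide +kernel))))))))))
      (CovZ.n1 (-1280, 16000) (by decide +kernel)
       (CovZ.n2 (-960, 16320) (by decide +kernel)
        (CovZ.n2 (-960, 16000) (by decide +kernel)
         (CovZ.badM (by decide +kernel))
         (CovZ.n1 (-800, 16160) (by decide +kernel)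
          (CovZ.n2 (-800, 16000) (by decide +kernel)
           (CovZ.badM (by decide +kernel))
           (CovZ.n1 (-720, 16080) (by decide +kernel)
            (CovZ.n2 (-720, 16000) (by decide +kernel)
             (CovZ.n2 (-760, 16040) (by decide +kernel)
              (CovZ.leaf K2_ok TE_l213 _)
              (CovZ.badM (by decide +kernel)))
             (CovZ.n1 (-680, 16040) (by decide +kernel)
              (CovZ.leaf K2_ok TE_l16993 _)
              (CovZ.leaf K2_ok TE_l214 _)))
            (CovZ.n1 (-800, 16080) (by decide +kernel)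
             (CovZ.n2 (-760, 16120) (by decide +kernel)
              (CovZ.leaf K2_ok TE_l215 _)
              (CovZ.badM (by decide +kernel)))
             (CovZ.n1 (-760, 16040) (by decide +kernel)
              (CovZ.badM (by decide +kernel))
              (CovZ.leaf K2_ok TE_l216 _)))))
          (CovZ.badM (by decide +kernel))))
        (CovZ.badM (by decide +kernel)))
       (CovZ.n1 (-960, 15680) (by decide +kernel)
        (CovZ.badM (by decide +kernel))
        (CovZ.n1 (-960, 16000) (by decide +kernel)
         (CovZ.n2 (-800, 15840) (by decide +kernel)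
          (CovZ.badM (by decide +kernel))
          (CovZ.n1 (-800, 16000) (by decide +kernel)
           (CovZ.n2 (-720, 15920) (by decide +kernel)
            (CovZ.badM (by decide +kernel))
            (CovZ.n1 (-720, 16000) (by decide +kernel)
             (CovZ.n2 (-680, 15960) (by decide +kernel)
              (CovZ.badM (by decide +kernel))
              (CovZ.leaf K2_ok TE_l16994 _))
             (CovZ.badM (by decide +kernel))))
           (CovZ.badM (by decide +kernel))))
         (CovZ.badM (by decide +kernel)))))))))
    (CovZ.topM TE_LL 81129638416967864937223832993792 (by decide +kernel) (CovZ.n0 (-1280, 16640) (by decide +kernel)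
    (CovZ.n2 (-2560, 16640) (by decide +kernel)
     (CovZ.n2 (-1920, 17280) (by decide +kernel)
      (CovZ.n2 (-1920, 16640) (by decide +kernel)
       (CovZ.badM (by decide +kernel))
       (CovZ.n1 (-1600, 16960) (by decide +kernel)
        (CovZ.badM (by decide +kernel))
        (CovZ.n1 (-1920, 16960) (by decide +kernel)
         (CovZ.n2 (-1760, 17120) (by decide +kernel)
          (CovZ.badM (by decide +kernel))
          (CovZ.badM (by decide +kernel)))
         (CovZ.badM (by decide +kernel)))))
      (CovZ.badM (by decide +kernel)))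
     (CovZ.badM (by decide +kernel)))
    (CovZ.n1 (-1280, 17920) (by decide +kernel)
     TE_u2
     TE_u3)))

theorem TE_s4_1 : SqZ TE_M TE_L [0, 7, 6, 1] (-10240) 12800 2560 4 1 :=
  SqZ.mk (a := 0) (b := 2560) (c := 15360) (d := 17920) (by norm_num) (by norm_num) (by norm_num) (by norm_num)
    (CovZ.topM TE_LL 374144419156711147141272955592336317969146888323072 (by decide +kernel) (CovZ.n2 (1280, 16640) (by decide +kernel)
    (CovZ.n2 (2560, 16640) (by decide +kernel)
     (CovZ.n2 (1920, 16000) (by decide +kernel)
      (CovZ.n2 (1920, 16640) (by decide +kernel)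
       (CovZ.subM 2361183241439151128576 (by decide +kernel)
        (CovZ.n2 (2240, 16320) (by decide +kernel)
         (CovZ.n2 (1920, 16320) (by decide +kernel)
          (CovZ.n2 (2080, 16480) (by decide +kernel)
           (CovZ.badM (by decide +kernel))
           (CovZ.n1 (1920, 16480) (by decide +kernel)
            (CovZ.n2 (2000, 16560) (by decide +kernel)
             (CovZ.badM (by decide +kernel))
             (CovZ.n1 (1920, 16560) (by decide +kernel)
              (CovZ.n2 (1960, 16600) (by decide +kernel)
               (CovZ.leaf K2_ok TE_l2291 _)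
               (CovZ.leaf K2_ok TE_l2292 _))
              (CovZ.n1 (1960, 16520) (by decide +kernel)
               (CovZ.leaf K2_ok TE_l2293 _)
               (CovZ.leaf K2_ok TE_l2294 _))))
            (CovZ.badM (by decide +kernel))))
          (CovZ.badM (by decide +kernel)))
         (CovZ.n1 (2240, 16640) (by decide +kernel)
          (CovZ.badM (by decide +kernel))
          (CovZ.n1 (2080, 16480) (by decide +kernel)
           (CovZ.n2 (2080, 16640) (by decide +kernel)
            (CovZ.badM (by decide +kernel))
            (CovZ.n1 (2000, 16560) (by decide +kernel)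
             (CovZ.n2 (2000, 16640) (by decide +kernel)
              (CovZ.n2 (2040, 16600) (by decide +kernel)
               (CovZ.leaf K2_ok TE_l2295 _)
               (CovZ.leaf K2_ok TE_l2296 _))
              (CovZ.n1 (1960, 16600) (by decide +kernel)
               (CovZ.leaf K2_ok TE_l2297 _)
               (CovZ.leaf K2_ok TE_l2298 _)))
             (CovZ.badM (by decide +kernel))))
           (CovZ.badM (by decide +kernel))))))
       (CovZ.subM 374144419156711147141272955592336317969142558752768 (by decide +kernel)
        (CovZ.n1 (1600, 16320) (by decide +kernel)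
         (CovZ.n2 (1600, 16640) (by decide +kernel)
          (CovZ.n2 (1760, 16480) (by decide +kernel)
           (CovZ.n2 (1600, 16480) (by decide +kernel)
            (CovZ.n2 (1680, 16560) (by decide +kernel)
             (CovZ.leaf K2_ok TE_l2299 _)
             (CovZ.leaf K2_ok TE_l2300 _))
            (CovZ.n1 (1680, 16400) (by decide +kernel)
             (CovZ.n2 (1600, 16400) (by decide +kernel)
              (CovZ.leaf K2_ok TE_l2301 _)
              (CovZ.leaf K2_ok TE_l2302 _))
             (CovZ.leaf K2_ok TE_l2303 _)))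
           (CovZ.n1 (1760, 16640) (by decide +kernel)
            (CovZ.n2 (1840, 16560) (by decide +kernel)
             (CovZ.n2 (1760, 16560) (by decide +kernel)
              (CovZ.leaf K2_ok TE_l2304 _)
              (CovZ.leaf K2_ok TE_l2305 _))
             (CovZ.leaf K2_ok TE_l2306 _))
            (CovZ.n1 (1680, 16560) (by decide +kernel)
             (CovZ.leaf K2_ok TE_l2307 _)
             (CovZ.n1 (1760, 16560) (by decide +kernel)
              (CovZ.leaf K2_ok TE_l2308 _)
              (CovZ.leaf K2_ok TE_l2309 _)))))
          (CovZ.n1 (1440, 16480) (by decide +kernel)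
           (CovZ.n2 (1440, 16640) (by decide +kernel)
            (CovZ.leaf K2_ok TE_l2310 _)
            (CovZ.n1 (1360, 16560) (by decide +kernel)
             (CovZ.leaf K2_ok TE_l2311 _)
             (CovZ.leaf K2_ok TE_l2312 _)))
           (CovZ.n1 (1600, 16480) (by decide +kernel)
            (CovZ.n2 (1520, 16400) (by decide +kernel)
             (CovZ.leaf K2_ok TE_l2313 _)
             (CovZ.n1 (1600, 16400) (by decide +kernel)
              (CovZ.leaf K2_ok TE_l2314 _)
              (CovZ.leaf K2_ok TE_l2315 _)))
            (CovZ.leaf K2_ok TE_l2316 _))))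
         (CovZ.n1 (1920, 16320) (by decide +kernel)
          (CovZ.n2 (1760, 16160) (by decide +kernel)
           (CovZ.n2 (1760, 16320) (by decide +kernel)
            (CovZ.badM (by decide +kernel))
            (CovZ.n1 (1680, 16240) (by decide +kernel)
             (CovZ.n2 (1680, 16320) (by decide +kernel)
              (CovZ.n2 (1720, 16280) (by decide +kernel)
               (CovZ.leaf K2_ok TE_l2317 _)
               (CovZ.leaf K2_ok TE_l2318 _))
              (CovZ.n1 (1640, 16280) (by decide +kernel)
               (CovZ.leaf K2_ok TE_l2319 _)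
               (CovZ.leaf K2_ok TE_l2320 _)))
             (CovZ.badM (by decide +kernel))))
           (CovZ.badM (by decide +kernel)))
          (CovZ.n1 (1760, 16480) (by decide +kernel)
           (CovZ.n2 (1920, 16480) (by decide +kernel)
            (CovZ.n2 (1840, 16400) (by decide +kernel)
             (CovZ.n2 (1840, 16480) (by decide +kernel)
              (CovZ.n2 (1880, 16440) (by decide +kernel)
               (CovZ.leaf K2_ok TE_l2321 _)
               (CovZ.leaf K2_ok TE_l2322 _))
              (CovZ.n1 (1800, 16440) (by decide +kernel)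
               (CovZ.leaf K2_ok TE_l2323 _)
               (CovZ.leaf K2_ok TE_l2324 _)))
             (CovZ.badM (by decide +kernel)))
            (CovZ.n1 (1840, 16560) (by decide +kernel)
             (CovZ.n2 (1920, 16560) (by decide +kernel)
              (CovZ.n2 (1880, 16520) (by decide +kernel)
               (CovZ.leaf K2_ok TE_l2325 _)
               (CovZ.leaf K2_ok TE_l2326 _))
              (CovZ.leaf K2_ok TE_l2327 _))
             (CovZ.n1 (1840, 16480) (by decide +kernel)
              (CovZ.leaf K2_ok TE_l2328 _)
              (CovZ.leaf K2_ok TE_l2329 _))))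
           (CovZ.n1 (1760, 16320) (by decide +kernel)
            (CovZ.n2 (1680, 16400) (by decide +kernel)
             (CovZ.n2 (1760, 16400) (by decide +kernel)
              (CovZ.n2 (1720, 16360) (by decide +kernel)
               (CovZ.leaf K2_ok TE_l2330 _)
               (CovZ.leaf K2_ok TE_l2331 _))
              (CovZ.leaf K2_ok TE_l2332 _))
             (CovZ.n1 (1680, 16320) (by decide +kernel)
              (CovZ.leaf K2_ok TE_l2333 _)
              (CovZ.leaf K2_ok TE_l2334 _)))
            (CovZ.n1 (1840, 16400) (by decide +kernel)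
             (CovZ.badM (by decide +kernel))
             (CovZ.n1 (1760, 16400) (by decide +kernel)
              (CovZ.leaf K2_ok TE_l2335 _)
              (CovZ.n1 (1800, 16360) (by decide +kernel)
               (CovZ.leaf K2_ok TE_l2336 _)
               (CovZ.leaf K2_ok TE_l2337 _))))))))))
      (CovZ.badM (by decide +kernel)))
     (CovZ.n1 (1920, 17280) (by decide +kernel)
      TE_u4
      TE_u5))
    (CovZ.n1 (1280, 15360) (by decide +kernel)
     TE_u6
     TE_u7)))
    (CovZ.topM TE_LL 374144419156711147141272955592336318004326965444609 (by decide +kernel) (CovZ.n0 (1280, 16640) (by decide +kernel)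
    (CovZ.subM 81129638416967864972408200888320 (by decide +kernel)
     (CovZ.n2 (0, 16640) (by decide +kernel)
      (CovZ.n2 (640, 17280) (by decide +kernel)
       (CovZ.n2 (640, 16640) (by decide +kernel)
        (CovZ.n2 (320, 16960) (by decide +kernel)
         (CovZ.n2 (640, 16960) (by decide +kernel)
          (CovZ.leaf K2_ok TE_l2610 _)
          (CovZ.leaf K2_ok TE_l2611 _))
         (CovZ.leaf K2_ok TE_l2612 _))
        (CovZ.n1 (960, 16960) (by decide +kernel)
         (CovZ.n2 (960, 16640) (by decide +kernel)
          (CovZ.leaf K2_ok TE_l2613 _)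
          (CovZ.n1 (1120, 16800) (by decide +kernel)
           (CovZ.leaf K2_ok TE_l2614 _)
           (CovZ.leaf K2_ok TE_l2615 _)))
         (CovZ.n1 (640, 16960) (by decide +kernel)
          (CovZ.leaf K2_ok TE_l2616 _)
          (CovZ.leaf K2_ok TE_l2617 _))))
       (CovZ.n1 (0, 17280) (by decide +kernel)
        (CovZ.n2 (320, 17600) (by decide +kernel)
         (CovZ.leaf K2_ok TE_l2618 _)
         (CovZ.leaf K2_ok TE_l2619 _))
        (CovZ.n1 (320, 16960) (by decide +kernel)
         (CovZ.leaf K2_ok TE_l2620 _)
         (CovZ.leaf K2_ok TE_l2621 _))))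
      (CovZ.n1 (640, 16000) (by decide +kernel)
       (CovZ.n2 (0, 16000) (by decide +kernel)
        (CovZ.n2 (320, 16320) (by decide +kernel)
         (CovZ.n2 (320, 16000) (by decide +kernel)
          (CovZ.leaf K2_ok TE_l2622 _)
          (CovZ.n1 (480, 16160) (by decide +kernel)
           (CovZ.leaf K2_ok TE_l2623 _)
           (CovZ.leaf K2_ok TE_l2624 _)))
         (CovZ.n1 (0, 16320) (by decide +kernel)
          (CovZ.leaf K2_ok TE_l2625 _)
          (CovZ.leaf K2_ok TE_l2626 _)))
        (CovZ.n1 (320, 15680) (by decide +kernel)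
         (CovZ.n2 (0, 15680) (by decide +kernel)
          (CovZ.n2 (160, 15840) (by decide +kernel)
           (CovZ.leaf K2_ok TE_l2627 _)
           (CovZ.leaf K2_ok TE_l2628 _))
          (CovZ.n1 (160, 15520) (by decide +kernel)
           (CovZ.leaf K2_ok TE_l2629 _)
           (CovZ.leaf K2_ok TE_l2630 _)))
         (CovZ.n1 (320, 16000) (by decide +kernel)
          (CovZ.n2 (480, 15840) (by decide +kernel)
           (CovZ.leaf K2_ok TE_l2631 _)
           (CovZ.leaf K2_ok TE_l2632 _))
          (CovZ.n1 (160, 15840) (by decide +kernel)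
           (CovZ.leaf K2_ok TE_l2633 _)
           (CovZ.leaf K2_ok TE_l2634 _)))))
       (CovZ.n1 (640, 16640) (by decide +kernel)
        (CovZ.n2 (960, 16320) (by decide +kernel)
         (CovZ.n2 (640, 16320) (by decide +kernel)
          (CovZ.n2 (800, 16480) (by decide +kernel)
           (CovZ.leaf K2_ok TE_l2635 _)
           (CovZ.leaf K2_ok TE_l2636 _))
          (CovZ.n1 (800, 16160) (by decide +kernel)
           (CovZ.leaf K2_ok TE_l2637 _)
           (CovZ.leaf K2_ok TE_l2638 _)))
         (CovZ.n1 (960, 16640) (by decide +kernel)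
          (CovZ.n2 (1120, 16480) (by decide +kernel)
           (CovZ.leaf K2_ok TE_l2639 _)
           (CovZ.leaf K2_ok TE_l2640 _))
          (CovZ.n1 (800, 16480) (by decide +kernel)
           (CovZ.leaf K2_ok TE_l2641 _)
           (CovZ.leaf K2_ok TE_l2642 _))))
        (CovZ.n1 (320, 16320) (by decide +kernel)
         (CovZ.leaf K2_ok TE_l2643 _)
         (CovZ.n1 (640, 16320) (by decide +kernel)
          (CovZ.n2 (480, 16160) (by decide +kernel)
           (CovZ.leaf K2_ok TE_l2644 _)
           (CovZ.leaf K2_ok TE_l2645 _))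
          (CovZ.leaf K2_ok TE_l2646 _)))))))
    (CovZ.n1 (1280, 17920) (by decide +kernel)
     (CovZ.n2 (1920, 17280) (by decide +kernel)
      (CovZ.subM 374144419156711147141272955592336317969142559801344 (by decide +kernel)
       (CovZ.n2 (1280, 17280) (by decide +kernel)
        (CovZ.n2 (1600, 17600) (by decide +kernel)
         (CovZ.n2 (1600, 17280) (by decide +kernel)
          (CovZ.leaf K2_ok TE_l2647 _)
          (CovZ.n1 (1760, 17440) (by decide +kernel)
           (CovZ.leaf K2_ok TE_l2648 _)
           (CovZ.leaf K2_ok TE_l2649 _)))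
         (CovZ.n1 (1280, 17600) (by decide +kernel)
          (CovZ.leaf K2_ok TE_l2650 _)
          (CovZ.leaf K2_ok TE_l2651 _)))
        (CovZ.n1 (1600, 16960) (by decide +kernel)
         (CovZ.n2 (1280, 16960) (by decide +kernel)
          (CovZ.n2 (1440, 17120) (by decide +kernel)
           (CovZ.leaf K2_ok TE_l2652 _)
           (CovZ.leaf K2_ok TE_l2653 _))
          (CovZ.n1 (1440, 16800) (by decide +kernel)
           (CovZ.leaf K2_ok TE_l2654 _)
           (CovZ.leaf K2_ok TE_l2655 _)))
         (CovZ.n1 (1600, 17280) (by decide +kernel)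
          (CovZ.n2 (1760, 17120) (by decide +kernel)
           (CovZ.n2 (1600, 17120) (by decide +kernel)
            (CovZ.leaf K2_ok TE_l2656 _)
            (CovZ.leaf K2_ok TE_l2657 _))
           (CovZ.leaf K2_ok TE_l2658 _))
          (CovZ.n1 (1440, 17120) (by decide +kernel)
           (CovZ.leaf K2_ok TE_l2659 _)
           (CovZ.leaf K2_ok TE_l2660 _))))))
      (CovZ.n1 (1920, 17920) (by decide +kernel)
       (CovZ.subM 81129638416967864937223862353920 (by decide +kernel)
        (CovZ.n2 (2240, 17600) (by decide +kernel)
         (CovZ.n2 (1920, 17600) (by decide +kernel)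
          (CovZ.n2 (2080, 17760) (by decide +kernel)
           (CovZ.leaf K2_ok TE_l2661 _)
           (CovZ.leaf K2_ok TE_l2662 _))
          (CovZ.n1 (2080, 17440) (by decide +kernel)
           (CovZ.leaf K2_ok TE_l2663 _)
           (CovZ.leaf K2_ok TE_l2664 _)))
         (CovZ.n1 (2240, 17920) (by decide +kernel)
          (CovZ.n2 (2400, 17760) (by decide +kernel)
           (CovZ.leaf K2_ok TE_l2665 _)
           (CovZ.leaf K2_ok TE_l2666 _))
          (CovZ.n1 (2080, 17760) (by decide +kernel)
           (CovZ.leaf K2_ok TE_l2667 _)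
           (CovZ.leaf K2_ok TE_l2668 _)))))
       (CovZ.subM 374144419156711147141272955592336317969142559801344 (by decide +kernel)
        (CovZ.n1 (1600, 17600) (by decide +kernel)
         (CovZ.n2 (1600, 17920) (by decide +kernel)
          (CovZ.leaf K2_ok TE_l2669 _)
          (CovZ.leaf K2_ok TE_l2670 _))
         (CovZ.n1 (1920, 17600) (by decide +kernel)
          (CovZ.n2 (1760, 17440) (by decide +kernel)
           (CovZ.leaf K2_ok TE_l2671 _)
           (CovZ.leaf K2_ok TE_l2672 _))
          (CovZ.leaf K2_ok TE_l2673 _))))))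
     (CovZ.subM 81129638416967864972408200888320 (by decide +kernel)
      (CovZ.n1 (640, 17280) (by decide +kernel)
       (CovZ.n2 (640, 17920) (by decide +kernel)
        (CovZ.n2 (960, 17600) (by decide +kernel)
         (CovZ.leaf K2_ok TE_l2674 _)
         (CovZ.leaf K2_ok TE_l2675 _))
        (CovZ.n1 (320, 17600) (by decide +kernel)
         (CovZ.leaf K2_ok TE_l2676 _)
         (CovZ.leaf K2_ok TE_l2677 _)))
       (CovZ.n1 (1280, 17280) (by decide +kernel)
        (CovZ.n2 (960, 16960) (by decide +kernel)
         (CovZ.leaf K2_ok TE_l2678 _)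
         (CovZ.n1 (1280, 16960) (by decide +kernel)
          (CovZ.n2 (1120, 16800) (by decide +kernel)
           (CovZ.leaf K2_ok TE_l2679 _)
           (CovZ.leaf K2_ok TE_l2680 _))
          (CovZ.leaf K2_ok TE_l2681 _)))
        (CovZ.n1 (960, 17600) (by decide +kernel)
         (CovZ.leaf K2_ok TE_l2682 _)
         (CovZ.leaf K2_ok TE_l2683 _))))))))

theorem TE_s5_1 : SqZ TE_M TE_L [0, 7, 6, 1] (-10240) 12800 2560 5 1 :=
  SqZ.mk (a := 2560) (b := 5120) (c := 15360) (d := 17920) (by norm_num) (by norm_num) (by norm_num) (by norm_num)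
    (CovZ.topM TE_LL 0 (by decide +kernel) (CovZ.badM (by decide +kernel)))
    (CovZ.topM TE_LL 1267651207052322450250441687200 (by decide +kernel) (CovZ.n0 (3840, 16640) (by decide +kernel)
    TE_u8
    TE_u9))

theorem TE_s6_1 : SqZ TE_M TE_L [0, 7, 6, 1] (-10240) 12800 2560 6 1 :=
  SqZ.mk (a := 5120) (b := 7680) (c := 15360) (d := 17920) (by norm_num) (by norm_num) (by norm_num) (by norm_num)
    (CovZ.topM TE_LL 0 (by decide +kernel) (CovZ.badM (by decide +kernel)))
    (CovZ.topM TE_LL 0 (by decide +kernel) (CovZ.badM (by decide +kernel)))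

theorem TE_s7_1 : SqZ TE_M TE_L [0, 7, 6, 1] (-10240) 12800 2560 7 1 :=
  SqZ.mk (a := 7680) (b := 10240) (c := 15360) (d := 17920) (by norm_num) (by norm_num) (by norm_num) (by norm_num)
    (CovZ.topM TE_LL 0 (by decide +kernel) (CovZ.badM (by decide +kernel)))
    (CovZ.topM TE_LL 0 (by decide +kernel) (CovZ.badM (by decide +kernel)))

theorem TE_s8_1 : SqZ TE_M TE_L [0, 7, 6, 1] (-10240) 12800 2560 8 1 :=
  SqZ.mk (a := 10240) (b := 12800) (c := 15360) (d := 17920) (by norm_num) (by norm_num) (by norm_num) (by norm_num)
    (CovZ.topM TE_LL 34359738368 (by decide +kernel) (CovZ.n2 (11520, 16640) (by decide +kernel)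
    (CovZ.badM (by decide +kernel))
    (CovZ.badM (by decide +kernel))))
    (CovZ.topM TE_LL 34359738368 (by decide +kernel) (CovZ.n0 (11520, 16640) (by decide +kernel)
    (CovZ.badM (by decide +kernel))
    (CovZ.badM (by decide +kernel))))

theorem TE_s9_1 : SqZ TE_M TE_L [0, 7, 6, 1] (-10240) 12800 2560 9 1 :=
  SqZ.mk (a := 12800) (b := 15360) (c := 15360) (d := 17920) (by norm_num) (by norm_num) (by norm_num) (by norm_num)
    (CovZ.topM TE_LL 5846006549323611672814739330865132078623730171904 (by decide +kernel) (CovZ.n2 (14080, 16640) (by decide +kernel)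
    (CovZ.badM (by decide +kernel))
    (CovZ.badM (by decide +kernel))))
    (CovZ.topM TE_LL 5846006549323611672814739330865132078623730171904 (by decide +kernel) (CovZ.n0 (14080, 16640) (by decide +kernel)
    (CovZ.badM (by decide +kernel))
    (CovZ.badM (by decide +kernel))))

theorem TE_s10_1 : SqZ TE_M TE_L [0, 7, 6, 1] (-10240) 12800 2560 10 1 :=
  SqZ.mk (a := 15360) (b := 17920) (c := 15360) (d := 17920) (by norm_num) (by norm_num) (by norm_num) (by norm_num)
    (CovZ.topM TE_LL 0 (by decide +kernel) (CovZ.badM (by decide +kernel)))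
    (CovZ.topM TE_LL 0 (by decide +kernel) (CovZ.badM (by decide +kernel)))

theorem TE_s0_2 : SqZ TE_M TE_L [0, 7, 6, 1] (-10240) 12800 2560 0 2 :=
  SqZ.mk (a := (-10240)) (b := (-7680)) (c := 17920) (d := 20480) (by norm_num) (by norm_num) (by norm_num) (by norm_num)
    (CovZ.topM TE_LL 95780971304118053647396689196894323976171195136475136 (by decide +kernel) (CovZ.n2 (-8960, 19200) (by decide +kernel)
    (CovZ.n2 (-7680, 19200) (by decide +kernel)
     (CovZ.n2 (-8320, 18560) (by decide +kernel)
      (CovZ.badM (by decide +kernel))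
      (CovZ.badM (by decide +kernel)))
     (CovZ.badM (by decide +kernel)))
    (CovZ.n1 (-8960, 17920) (by decide +kernel)
     (CovZ.badM (by decide +kernel))
     (CovZ.n1 (-8320, 18560) (by decide +kernel)
      (CovZ.badM (by decide +kernel))
      (CovZ.badM (by decide +kernel))))))
    (CovZ.topM TE_LL 0 (by decide +kernel) (CovZ.badM (by decide +kernel)))

theorem TE_s1_2 : SqZ TE_M TE_L [0, 7, 6, 1] (-10240) 12800 2560 1 2 :=
  SqZ.mk (a := (-7680)) (b := (-5120)) (c := 17920) (d := 20480) (by norm_num) (by norm_num) (by norm_num) (by norm_num)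
    (CovZ.topM TE_LL 0 (by decide +kernel) (CovZ.badM (by decide +kernel)))
    (CovZ.topM TE_LL 95780971304118053647396689196894323976171195136475136 (by decide +kernel) (CovZ.n0 (-6400, 19200) (by decide +kernel)
    (CovZ.n2 (-7680, 19200) (by decide +kernel)
     (CovZ.badM (by decide +kernel))
     (CovZ.badM (by decide +kernel)))
    (CovZ.badM (by decide +kernel))))

theorem TE_s2_2 : SqZ TE_M TE_L [0, 7, 6, 1] (-10240) 12800 2560 2 2 :=
  SqZ.mk (a := (-5120)) (b := (-2560)) (c := 17920) (d := 20480) (by norm_num) (by norm_num) (by norm_num) (by norm_num)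
    (CovZ.topM TE_LL 81129638416967864937223827755009 (by decide +kernel) (CovZ.n2 (-3840, 19200) (by decide +kernel)
    (CovZ.n2 (-2560, 19200) (by decide +kernel)
     (CovZ.n2 (-3200, 18560) (by decide +kernel)
      (CovZ.badM (by decide +kernel))
      (CovZ.badM (by decide +kernel)))
     (CovZ.n1 (-3200, 19840) (by decide +kernel)
      (CovZ.n2 (-2560, 19840) (by decide +kernel)
       (CovZ.n2 (-2880, 19520) (by decide +kernel)
        (CovZ.n2 (-2880, 19840) (by decide +kernel)
         (CovZ.n2 (-2720, 19680) (by decide +kernel)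
          (CovZ.n2 (-2880, 19680) (by decide +kernel)
           (CovZ.n2 (-2800, 19760) (by decide +kernel)
            (CovZ.n2 (-2800, 19680) (by decide +kernel)
             (CovZ.n2 (-2840, 19720) (by decide +kernel)
              (CovZ.leaf K2_ok TE_l0 _)
              (CovZ.badM (by decide +kernel)))
             (CovZ.n1 (-2760, 19720) (by decide +kernel)
              (CovZ.leaf K2_ok TE_l1 _)
              (CovZ.leaf K2_ok TE_l2 _)))
            (CovZ.n1 (-2880, 19760) (by decide +kernel)
             (CovZ.n2 (-2840, 19800) (by decide +kernel)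
              (CovZ.leaf K2_ok TE_l3 _)
              (CovZ.badM (by decide +kernel)))
             (CovZ.n1 (-2840, 19720) (by decide +kernel)
              (CovZ.badM (by decide +kernel))
              (CovZ.leaf K2_ok TE_l4 _))))
           (CovZ.n1 (-2800, 19600) (by decide +kernel)
            (CovZ.badM (by decide +kernel))
            (CovZ.n1 (-2800, 19680) (by decide +kernel)
             (CovZ.n2 (-2760, 19640) (by decide +kernel)
              (CovZ.badM (by decide +kernel))
              (CovZ.leaf K2_ok TE_l5 _))
             (CovZ.badM (by decide +kernel)))))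
          (CovZ.n1 (-2720, 19840) (by decide +kernel)
           (CovZ.n2 (-2640, 19760) (by decide +kernel)
            (CovZ.n2 (-2720, 19760) (by decide +kernel)
             (CovZ.leaf K2_ok TE_l6 _)
             (CovZ.leaf K2_ok TE_l7 _))
            (CovZ.leaf K2_ok TE_l8 _))
           (CovZ.n1 (-2800, 19760) (by decide +kernel)
            (CovZ.n2 (-2800, 19840) (by decide +kernel)
             (CovZ.leaf K2_ok TE_l9 _)
             (CovZ.n1 (-2840, 19800) (by decide +kernel)
              (CovZ.badM (by decide +kernel))
              (CovZ.leaf K2_ok TE_l10 _)))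
            (CovZ.n1 (-2720, 19760) (by decide +kernel)
             (CovZ.leaf K2_ok TE_l11 _)
             (CovZ.leaf K2_ok TE_l12 _)))))
         (CovZ.badM (by decide +kernel)))
        (CovZ.n1 (-2560, 19520) (by decide +kernel)
         (CovZ.n2 (-2720, 19360) (by decide +kernel)
          (CovZ.n2 (-2720, 19520) (by decide +kernel)
           (CovZ.n2 (-2640, 19440) (by decide +kernel)
            (CovZ.badM (by decide +kernel))
            (CovZ.n1 (-2640, 19520) (by decide +kernel)
             (CovZ.leaf K2_ok TE_l13 _)
             (CovZ.n1 (-2680, 19480) (by decide +kernel)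
              (CovZ.leaf K2_ok TE_l14 _)
              (CovZ.leaf K2_ok TE_l15 _))))
           (CovZ.badM (by decide +kernel)))
          (CovZ.n1 (-2560, 19360) (by decide +kernel)
           (CovZ.badM (by decide +kernel))
           (CovZ.n1 (-2640, 19440) (by decide +kernel)
            (CovZ.n2 (-2560, 19440) (by decide +kernel)
             (CovZ.n2 (-2600, 19400) (by decide +kernel)
              (CovZ.leaf K2_ok TE_l16 _)
              (CovZ.leaf K2_ok TE_l17 _))
             (CovZ.leaf K2_ok TE_l18 _))
            (CovZ.badM (by decide +kernel)))))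
         (CovZ.n1 (-2720, 19680) (by decide +kernel)
          (CovZ.n2 (-2560, 19680) (by decide +kernel)
           (CovZ.n2 (-2640, 19600) (by decide +kernel)
            (CovZ.n2 (-2640, 19680) (by decide +kernel)
             (CovZ.leaf K2_ok TE_l19 _)
             (CovZ.leaf K2_ok TE_l20 _))
            (CovZ.n1 (-2560, 19600) (by decide +kernel)
             (CovZ.leaf K2_ok TE_l21 _)
             (CovZ.leaf K2_ok TE_l22 _)))
           (CovZ.n1 (-2640, 19760) (by decide +kernel)
            (CovZ.leaf K2_ok TE_l23 _)
            (CovZ.n1 (-2640, 19680) (by decide +kernel)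
             (CovZ.leaf K2_ok TE_l24 _)
             (CovZ.leaf K2_ok TE_l25 _))))
          (CovZ.n1 (-2720, 19520) (by decide +kernel)
           (CovZ.n2 (-2800, 19600) (by decide +kernel)
            (CovZ.n2 (-2720, 19600) (by decide +kernel)
             (CovZ.badM (by decide +kernel))
             (CovZ.n1 (-2760, 19640) (by decide +kernel)
              (CovZ.leaf K2_ok TE_l26 _)
              (CovZ.badM (by decide +kernel))))
            (CovZ.badM (by decide +kernel)))
           (CovZ.n1 (-2640, 19600) (by decide +kernel)
            (CovZ.n2 (-2640, 19520) (by decide +kernel)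
             (CovZ.n2 (-2680, 19560) (by decide +kernel)
              (CovZ.leaf K2_ok TE_l27 _)
              (CovZ.leaf K2_ok TE_l28 _))
             (CovZ.leaf K2_ok TE_l29 _))
            (CovZ.n1 (-2720, 19600) (by decide +kernel)
             (CovZ.leaf K2_ok TE_l30 _)
             (CovZ.n1 (-2680, 19560) (by decide +kernel)
              (CovZ.leaf K2_ok TE_l31 _)
              (CovZ.leaf K2_ok TE_l32 _))))))))
       (CovZ.n1 (-2880, 20160) (by decide +kernel)
        (CovZ.n2 (-2560, 20160) (by decide +kernel)
         (CovZ.n2 (-2720, 20000) (by decide +kernel)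
          (CovZ.badM (by decide +kernel))
          (CovZ.n1 (-2560, 20000) (by decide +kernel)
           (CovZ.leaf K2_ok TE_l33 _)
           (CovZ.leaf K2_ok TE_l34 _)))
         (CovZ.badM (by decide +kernel)))
        (CovZ.n1 (-2880, 19840) (by decide +kernel)
         (CovZ.badM (by decide +kernel))
         (CovZ.n1 (-2720, 20000) (by decide +kernel)
          (CovZ.n2 (-2720, 19840) (by decide +kernel)
           (CovZ.n2 (-2800, 19920) (by decide +kernel)
            (CovZ.leaf K2_ok TE_l35 _)
            (CovZ.n1 (-2800, 19840) (by decide +kernel)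
             (CovZ.badM (by decide +kernel))
             (CovZ.leaf K2_ok TE_l36 _)))
           (CovZ.n1 (-2640, 19920) (by decide +kernel)
            (CovZ.leaf K2_ok TE_l37 _)
            (CovZ.leaf K2_ok TE_l38 _)))
          (CovZ.badM (by decide +kernel))))))
      (CovZ.badM (by decide +kernel))))
    (CovZ.n1 (-3840, 17920) (by decide +kernel)
     (CovZ.badM (by decide +kernel))
     (CovZ.n1 (-3200, 18560) (by decide +kernel)
      (CovZ.badM (by decide +kernel))
      (CovZ.badM (by decide +kernel))))))
    (CovZ.topM TE_LL 0 (by decide +kernel) (CovZ.badM (by decide +kernel)))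

theorem TE_s3_2 : SqZ TE_M TE_L [0, 7, 6, 1] (-10240) 12800 2560 3 2 :=
  SqZ.mk (a := (-2560)) (b := 0) (c := 17920) (d := 20480) (by norm_num) (by norm_num) (by norm_num) (by norm_num)
    (CovZ.topM TE_LL 81129638416967864937223832993793 (by decide +kernel) (CovZ.n2 (-1280, 19200) (by decide +kernel)
    (CovZ.n2 (0, 19200) (by decide +kernel)
     (CovZ.n2 (-640, 18560) (by decide +kernel)
      (CovZ.n2 (-640, 19200) (by decide +kernel)
       (CovZ.leaf K2_ok TE_l291 _)
       (CovZ.n1 (-960, 18880) (by decide +kernel)
        (CovZ.leaf K2_ok TE_l292 _)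
        (CovZ.leaf K2_ok TE_l293 _)))
      (CovZ.n1 (0, 18560) (by decide +kernel)
       (CovZ.leaf K2_ok TE_l294 _)
       (CovZ.leaf K2_ok TE_l295 _)))
     (CovZ.n1 (-640, 19840) (by decide +kernel)
      (CovZ.leaf K2_ok TE_l296 _)
      (CovZ.n1 (-640, 19200) (by decide +kernel)
       (CovZ.n2 (-960, 19520) (by decide +kernel)
        (CovZ.leaf K2_ok TE_l297 _)
        (CovZ.leaf K2_ok TE_l298 _))
       (CovZ.leaf K2_ok TE_l299 _))))
    (CovZ.n1 (-1280, 17920) (by decide +kernel)
     (CovZ.n2 (-1920, 18560) (by decide +kernel)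
      (CovZ.n2 (-1280, 18560) (by decide +kernel)
       (CovZ.n2 (-1600, 18240) (by decide +kernel)
        (CovZ.n2 (-1600, 18560) (by decide +kernel)
         (CovZ.n2 (-1440, 18400) (by decide +kernel)
          (CovZ.n2 (-1600, 18400) (by decide +kernel)
           (CovZ.leaf K2_ok TE_l300 _)
           (CovZ.leaf K2_ok TE_l301 _))
          (CovZ.leaf K2_ok TE_l302 _))
         (CovZ.n1 (-1760, 18400) (by decide +kernel)
          (CovZ.n2 (-1760, 18560) (by decide +kernel)
           (CovZ.leaf K2_ok TE_l303 _)
           (CovZ.n1 (-1840, 18480) (by decide +kernel)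
            (CovZ.leaf K2_ok TE_l304 _)
            (CovZ.leaf K2_ok TE_l305 _)))
          (CovZ.n1 (-1600, 18400) (by decide +kernel)
           (CovZ.leaf K2_ok TE_l306 _)
           (CovZ.leaf K2_ok TE_l307 _))))
        (CovZ.n1 (-1280, 18240) (by decide +kernel)
         (CovZ.n2 (-1440, 18080) (by decide +kernel)
          (CovZ.n2 (-1440, 18240) (by decide +kernel)
           (CovZ.leaf K2_ok TE_l308 _)
           (CovZ.leaf K2_ok TE_l309 _))
          (CovZ.leaf K2_ok TE_l310 _))
         (CovZ.n1 (-1440, 18400) (by decide +kernel)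
          (CovZ.leaf K2_ok TE_l311 _)
          (CovZ.n1 (-1440, 18240) (by decide +kernel)
           (CovZ.leaf K2_ok TE_l312 _)
           (CovZ.leaf K2_ok TE_l313 _)))))
       (CovZ.n1 (-1600, 18880) (by decide +kernel)
        (CovZ.n2 (-1280, 18880) (by decide +kernel)
         (CovZ.leaf K2_ok TE_l314 _)
         (CovZ.leaf K2_ok TE_l315 _))
        (CovZ.n1 (-1600, 18560) (by decide +kernel)
         (CovZ.n2 (-1760, 18720) (by decide +kernel)
          (CovZ.leaf K2_ok TE_l316 _)
          (CovZ.n1 (-1760, 18560) (by decide +kernel)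
           (CovZ.leaf K2_ok TE_l317 _)
           (CovZ.leaf K2_ok TE_l318 _)))
         (CovZ.n1 (-1440, 18720) (by decide +kernel)
          (CovZ.leaf K2_ok TE_l319 _)
          (CovZ.leaf K2_ok TE_l320 _)))))
      (CovZ.n1 (-1920, 17920) (by decide +kernel)
       (CovZ.n2 (-2240, 18240) (by decide +kernel)
        (CovZ.n2 (-1920, 18240) (by decide +kernel)
         (CovZ.badM (by decide +kernel))
         (CovZ.n1 (-2080, 18400) (by decide +kernel)
          (CovZ.n2 (-1920, 18400) (by decide +kernel)
           (CovZ.n2 (-2000, 18320) (by decide +kernel)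
            (CovZ.n2 (-2000, 18400) (by decide +kernel)
             (CovZ.n2 (-1960, 18360) (by decide +kernel)
              (CovZ.badM (by decide +kernel))
              (CovZ.leaf K2_ok TE_l17048 _))
             (CovZ.badM (by decide +kernel)))
            (CovZ.n1 (-1920, 18320) (by decide +kernel)
             (CovZ.n2 (-1960, 18280) (by decide +kernel)
              (CovZ.leaf K2_ok TE_l17049 _)
              (CovZ.leaf K2_ok TE_l17050 _))
             (CovZ.n1 (-1960, 18360) (by decide +kernel)
              (CovZ.leaf K2_ok TE_l17051 _)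
              (CovZ.leaf K2_ok TE_l17052 _))))
           (CovZ.n1 (-2000, 18480) (by decide +kernel)
            (CovZ.leaf K2_ok TE_l321 _)
            (CovZ.n1 (-2000, 18400) (by decide +kernel)
             (CovZ.n2 (-2040, 18440) (by decide +kernel)
              (CovZ.leaf K2_ok TE_l17053 _)
              (CovZ.badM (by decide +kernel)))
             (CovZ.leaf K2_ok TE_l17054 _))))
          (CovZ.badM (by decide +kernel))))
        (CovZ.badM (by decide +kernel)))
       (CovZ.n1 (-1600, 18240) (by decide +kernel)
        (CovZ.n2 (-1600, 17920) (by decide +kernel)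
         (CovZ.n2 (-1760, 18080) (by decide +kernel)
          (CovZ.n2 (-1600, 18080) (by decide +kernel)
           (CovZ.n2 (-1680, 18000) (by decide +kernel)
            (CovZ.leaf K2_ok TE_l322 _)
            (CovZ.leaf K2_ok TE_l323 _))
           (CovZ.n1 (-1680, 18160) (by decide +kernel)
            (CovZ.leaf K2_ok TE_l324 _)
            (CovZ.leaf K2_ok TE_l325 _)))
          (CovZ.n1 (-1760, 17920) (by decide +kernel)
           (CovZ.n2 (-1840, 18000) (by decide +kernel)
            (CovZ.n2 (-1760, 18000) (by decide +kernel)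
             (CovZ.n2 (-1800, 17960) (by decide +kernel)
              (CovZ.leaf K2_ok TE_l17055 _)
              (CovZ.leaf K2_ok TE_l17056 _))
             (CovZ.n1 (-1800, 18040) (by decide +kernel)
              (CovZ.leaf K2_ok TE_l17057 _)
              (CovZ.leaf K2_ok TE_l17058 _)))
            (CovZ.badM (by decide +kernel)))
           (CovZ.n1 (-1680, 18000) (by decide +kernel)
            (CovZ.n2 (-1680, 17920) (by decide +kernel)
             (CovZ.leaf K2_ok TE_l17059 _)
             (CovZ.leaf K2_ok TE_l17060 _))
            (CovZ.n1 (-1760, 18000) (by decide +kernel)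
             (CovZ.leaf K2_ok TE_l17061 _)
             (CovZ.leaf K2_ok TE_l17062 _)))))
         (CovZ.n1 (-1440, 18080) (by decide +kernel)
          (CovZ.n2 (-1440, 17920) (by decide +kernel)
           (CovZ.n2 (-1520, 18000) (by decide +kernel)
            (CovZ.leaf K2_ok TE_l326 _)
            (CovZ.leaf K2_ok TE_l327 _))
           (CovZ.leaf K2_ok TE_l328 _))
          (CovZ.n1 (-1600, 18080) (by decide +kernel)
           (CovZ.leaf K2_ok TE_l329 _)
           (CovZ.n1 (-1520, 18000) (by decide +kernel)
            (CovZ.leaf K2_ok TE_l330 _)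
            (CovZ.leaf K2_ok TE_l331 _)))))
        (CovZ.n1 (-1920, 18240) (by decide +kernel)
         (CovZ.n2 (-1760, 18400) (by decide +kernel)
          (CovZ.n2 (-1760, 18240) (by decide +kernel)
           (CovZ.n2 (-1840, 18320) (by decide +kernel)
            (CovZ.leaf K2_ok TE_l332 _)
            (CovZ.n1 (-1840, 18240) (by decide +kernel)
             (CovZ.leaf K2_ok TE_l333 _)
             (CovZ.leaf K2_ok TE_l334 _)))
           (CovZ.n1 (-1680, 18320) (by decide +kernel)
            (CovZ.leaf K2_ok TE_l335 _)
            (CovZ.leaf K2_ok TE_l336 _)))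
          (CovZ.n1 (-1920, 18400) (by decide +kernel)
           (CovZ.n2 (-1840, 18480) (by decide +kernel)
            (CovZ.leaf K2_ok TE_l337 _)
            (CovZ.leaf K2_ok TE_l338 _))
           (CovZ.n1 (-1840, 18320) (by decide +kernel)
            (CovZ.n2 (-1920, 18320) (by decide +kernel)
             (CovZ.leaf K2_ok TE_l339 _)
             (CovZ.leaf K2_ok TE_l340 _))
            (CovZ.leaf K2_ok TE_l341 _))))
         (CovZ.n1 (-1760, 18080) (by decide +kernel)
          (CovZ.n2 (-1920, 18080) (by decide +kernel)
           (CovZ.n2 (-1840, 18160) (by decide +kernel)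
            (CovZ.n2 (-1840, 18080) (by decide +kernel)
             (CovZ.n2 (-1880, 18120) (by decide +kernel)
              (CovZ.leaf K2_ok TE_l17063 _)
              (CovZ.badM (by decide +kernel)))
             (CovZ.n1 (-1800, 18120) (by decide +kernel)
              (CovZ.leaf K2_ok TE_l17064 _)
              (CovZ.leaf K2_ok TE_l17065 _)))
            (CovZ.n1 (-1920, 18160) (by decide +kernel)
             (CovZ.n2 (-1880, 18200) (by decide +kernel)
              (CovZ.leaf K2_ok TE_l17066 _)
              (CovZ.badM (by decide +kernel)))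
             (CovZ.n1 (-1880, 18120) (by decide +kernel)
              (CovZ.badM (by decide +kernel))
              (CovZ.leaf K2_ok TE_l17067 _))))
           (CovZ.n1 (-1840, 18000) (by decide +kernel)
            (CovZ.badM (by decide +kernel))
            (CovZ.n1 (-1840, 18080) (by decide +kernel)
             (CovZ.n2 (-1800, 18040) (by decide +kernel)
              (CovZ.badM (by decide +kernel))
              (CovZ.leaf K2_ok TE_l17068 _))
             (CovZ.badM (by decide +kernel)))))
          (CovZ.n1 (-1760, 18240) (by decide +kernel)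
           (CovZ.n2 (-1680, 18160) (by decide +kernel)
            (CovZ.n2 (-1760, 18160) (by decide +kernel)
             (CovZ.leaf K2_ok TE_l342 _)
             (CovZ.leaf K2_ok TE_l343 _))
            (CovZ.leaf K2_ok TE_l344 _))
           (CovZ.n1 (-1840, 18160) (by decide +kernel)
            (CovZ.n2 (-1840, 18240) (by decide +kernel)
             (CovZ.leaf K2_ok TE_l345 _)
             (CovZ.leaf K2_ok TE_l17069 _))
            (CovZ.n1 (-1760, 18160) (by decide +kernel)
             (CovZ.leaf K2_ok TE_l17070 _)
             (CovZ.leaf K2_ok TE_l346 _)))))))))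
     (CovZ.n1 (-640, 18560) (by decide +kernel)
      (CovZ.n2 (-640, 17920) (by decide +kernel)
       (CovZ.n2 (-960, 18240) (by decide +kernel)
        (CovZ.leaf K2_ok TE_l347 _)
        (CovZ.n1 (-960, 17920) (by decide +kernel)
         (CovZ.n2 (-1120, 18080) (by decide +kernel)
          (CovZ.leaf K2_ok TE_l348 _)
          (CovZ.leaf K2_ok TE_l349 _))
         (CovZ.leaf K2_ok TE_l350 _)))
       (CovZ.n1 (-320, 18240) (by decide +kernel)
        (CovZ.leaf K2_ok TE_l351 _)
        (CovZ.leaf K2_ok TE_l352 _)))
      (CovZ.n1 (-1280, 18560) (by decide +kernel)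
       (CovZ.n2 (-960, 18880) (by decide +kernel)
        (CovZ.n2 (-960, 18560) (by decide +kernel)
         (CovZ.leaf K2_ok TE_l353 _)
         (CovZ.leaf K2_ok TE_l354 _))
        (CovZ.n1 (-1280, 18880) (by decide +kernel)
         (CovZ.leaf K2_ok TE_l355 _)
         (CovZ.leaf K2_ok TE_l356 _)))
       (CovZ.n1 (-960, 18240) (by decide +kernel)
        (CovZ.n2 (-1280, 18240) (by decide +kernel)
         (CovZ.leaf K2_ok TE_l357 _)
         (CovZ.n1 (-1120, 18080) (by decide +kernel)
          (CovZ.leaf K2_ok TE_l358 _)
          (CovZ.leaf K2_ok TE_l359 _)))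
        (CovZ.n1 (-960, 18560) (by decide +kernel)
         (CovZ.leaf K2_ok TE_l360 _)
         (CovZ.leaf K2_ok TE_l361 _))))))))
    (CovZ.topM TE_LL 81129638416967864937223828803585 (by decide +kernel) (CovZ.n0 (-1280, 19200) (by decide +kernel)
    (CovZ.n2 (-2560, 19200) (by decide +kernel)
     TE_u10
     TE_u11)
    (CovZ.n1 (-1280, 20480) (by decide +kernel)
     (CovZ.n2 (-640, 19840) (by decide +kernel)
      (CovZ.n2 (-1280, 19840) (by decide +kernel)
       (CovZ.leaf K2_ok TE_l476 _)
       (CovZ.n1 (-960, 19520) (by decide +kernel)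
        (CovZ.leaf K2_ok TE_l477 _)
        (CovZ.leaf K2_ok TE_l478 _)))
      (CovZ.n1 (-640, 20480) (by decide +kernel)
       (CovZ.leaf K2_ok TE_l479 _)
       (CovZ.leaf K2_ok TE_l480 _)))
     (CovZ.n1 (-1920, 19840) (by decide +kernel)
      (CovZ.n2 (-1920, 20480) (by decide +kernel)
       (CovZ.n2 (-1600, 20160) (by decide +kernel)
        (CovZ.leaf K2_ok TE_l481 _)
        (CovZ.leaf K2_ok TE_l482 _))
       (CovZ.n1 (-2240, 20160) (by decide +kernel)
        (CovZ.n2 (-2240, 20480) (by decide +kernel)
         (CovZ.leaf K2_ok TE_l483 _)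
         (CovZ.n1 (-2400, 20320) (by decide +kernel)
          (CovZ.badM (by decide +kernel))
          (CovZ.leaf K2_ok TE_l485 _)))
        (CovZ.n1 (-1920, 20160) (by decide +kernel)
         (CovZ.leaf K2_ok TE_l486 _)
         (CovZ.leaf K2_ok TE_l487 _))))
      (CovZ.n1 (-1280, 19840) (by decide +kernel)
       (CovZ.n2 (-1600, 19520) (by decide +kernel)
        (CovZ.leaf K2_ok TE_l488 _)
        (CovZ.leaf K2_ok TE_l489 _))
       (CovZ.n1 (-1600, 20160) (by decide +kernel)
        (CovZ.leaf K2_ok TE_l490 _)
        (CovZ.n1 (-1600, 19840) (by decide +kernel)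
         (CovZ.leaf K2_ok TE_l491 _)
         (CovZ.leaf K2_ok TE_l492 _))))))))

theorem TE_s4_2 : SqZ TE_M TE_L [0, 7, 6, 1] (-10240) 12800 2560 4 2 :=
  SqZ.mk (a := 0) (b := 2560) (c := 17920) (d := 20480) (by norm_num) (by norm_num) (by norm_num) (by norm_num)
    (CovZ.topM TE_LL 374144419156711147141272955592336318004326978027521 (by decide +kernel) (CovZ.n2 (1280, 19200) (by decide +kernel)
    (CovZ.n2 (2560, 19200) (by decide +kernel)
     (CovZ.n2 (1920, 18560) (by decide +kernel)
      (CovZ.n2 (1920, 19200) (by decide +kernel)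
       (CovZ.n2 (2240, 18880) (by decide +kernel)
        (CovZ.leaf K2_ok TE_l2684 _)
        (CovZ.leaf K2_ok TE_l2685 _))
       (CovZ.n1 (1600, 18880) (by decide +kernel)
        (CovZ.leaf K2_ok TE_l2686 _)
        (CovZ.leaf K2_ok TE_l2687 _)))
      (CovZ.n1 (2560, 18560) (by decide +kernel)
       (CovZ.n2 (2240, 18240) (by decide +kernel)
        (CovZ.n2 (2240, 18560) (by decide +kernel)
         (CovZ.leaf K2_ok TE_l2688 _)
         (CovZ.leaf K2_ok TE_l2689 _))
        (CovZ.n1 (2560, 18240) (by decide +kernel)
         (CovZ.n2 (2400, 18080) (by decide +kernel)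
          (CovZ.leaf K2_ok TE_l2690 _)
          (CovZ.leaf K2_ok TE_l2691 _))
         (CovZ.leaf K2_ok TE_l2692 _)))
       (CovZ.n1 (2240, 18880) (by decide +kernel)
        (CovZ.leaf K2_ok TE_l2693 _)
        (CovZ.leaf K2_ok TE_l2694 _))))
     (CovZ.n1 (1920, 19840) (by decide +kernel)
      (CovZ.n2 (2560, 19840) (by decide +kernel)
       (CovZ.n2 (2240, 19520) (by decide +kernel)
        (CovZ.leaf K2_ok TE_l2695 _)
        (CovZ.leaf K2_ok TE_l2696 _))
       (CovZ.leaf K2_ok TE_l2697 _))
      (CovZ.n1 (1920, 19200) (by decide +kernel)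
       (CovZ.leaf K2_ok TE_l2698 _)
       (CovZ.n1 (2240, 19520) (by decide +kernel)
        (CovZ.leaf K2_ok TE_l2699 _)
        (CovZ.leaf K2_ok TE_l2700 _)))))
    (CovZ.n1 (1280, 17920) (by decide +kernel)
     (CovZ.n2 (640, 18560) (by decide +kernel)
      (CovZ.n2 (1280, 18560) (by decide +kernel)
       (CovZ.n2 (960, 18240) (by decide +kernel)
        (CovZ.leaf K2_ok TE_l2701 _)
        (CovZ.leaf K2_ok TE_l2702 _))
       (CovZ.leaf K2_ok TE_l2703 _))
      (CovZ.n1 (640, 17920) (by decide +kernel)
       (CovZ.leaf K2_ok TE_l2704 _)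
       (CovZ.n1 (960, 18240) (by decide +kernel)
        (CovZ.leaf K2_ok TE_l2705 _)
        (CovZ.leaf K2_ok TE_l2706 _))))
     (CovZ.n1 (1920, 18560) (by decide +kernel)
      (CovZ.n2 (1920, 17920) (by decide +kernel)
       (CovZ.subM 81129638416967864937223828799489 (by decide +kernel)
        (CovZ.n2 (1600, 18240) (by decide +kernel)
         (CovZ.n2 (1920, 18240) (by decide +kernel)
          (CovZ.n2 (1760, 18080) (by decide +kernel)
           (CovZ.leaf K2_ok TE_l2707 _)
           (CovZ.leaf K2_ok TE_l2708 _))
          (CovZ.leaf K2_ok TE_l2709 _))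
         (CovZ.leaf K2_ok TE_l2710 _)))
       (CovZ.n1 (2240, 18240) (by decide +kernel)
        (CovZ.n2 (2240, 17920) (by decide +kernel)
         (CovZ.leaf K2_ok TE_l2711 _)
         (CovZ.n1 (2400, 18080) (by decide +kernel)
          (CovZ.leaf K2_ok TE_l2712 _)
          (CovZ.leaf K2_ok TE_l2713 _)))
        (CovZ.n1 (1920, 18240) (by decide +kernel)
         (CovZ.leaf K2_ok TE_l2714 _)
         (CovZ.leaf K2_ok TE_l2715 _))))
      (CovZ.n1 (1280, 18560) (by decide +kernel)
       (CovZ.n2 (1600, 18880) (by decide +kernel)
        (CovZ.leaf K2_ok TE_l2716 _)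
        (CovZ.leaf K2_ok TE_l2717 _))
       (CovZ.n1 (1600, 18240) (by decide +kernel)
        (CovZ.leaf K2_ok TE_l2718 _)
        (CovZ.leaf K2_ok TE_l2719 _)))))))
    (CovZ.topM TE_LL 374150128147481970980797208079027229818939304312833 (by decide +kernel) (CovZ.n0 (1280, 19200) (by decide +kernel)
    (CovZ.n2 (0, 19200) (by decide +kernel)
     (CovZ.n2 (640, 19840) (by decide +kernel)
      (CovZ.leaf K2_ok TE_l2720 _)
      (CovZ.leaf K2_ok TE_l2721 _))
     (CovZ.n1 (640, 18560) (by decide +kernel)
      (CovZ.n2 (0, 18560) (by decide +kernel)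
       (CovZ.leaf K2_ok TE_l2722 _)
       (CovZ.leaf K2_ok TE_l2723 _))
      (CovZ.leaf K2_ok TE_l2724 _)))
    (CovZ.n1 (1280, 20480) (by decide +kernel)
     (CovZ.n2 (1920, 19840) (by decide +kernel)
      (CovZ.n2 (1280, 19840) (by decide +kernel)
       (CovZ.leaf K2_ok TE_l2725 _)
       (CovZ.leaf K2_ok TE_l2726 _))
      (CovZ.leaf K2_ok TE_l2727 _))
     (CovZ.n1 (640, 19840) (by decide +kernel)
      (CovZ.leaf K2_ok TE_l2728 _)
      (CovZ.leaf K2_ok TE_l2729 _)))))

theorem TE_s5_2 : SqZ TE_M TE_L [0, 7, 6, 1] (-10240) 12800 2560 5 2 :=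
  SqZ.mk (a := 2560) (b := 5120) (c := 17920) (d := 20480) (by norm_num) (by norm_num) (by norm_num) (by norm_num)
    (CovZ.topM TE_LL 2923003274662138144673967101453690902079688671392 (by decide +kernel) (CovZ.n2 (3840, 19200) (by decide +kernel)
    (CovZ.n2 (5120, 19200) (by decide +kernel)
     TE_u12
     TE_u13)
    (CovZ.n1 (3840, 17920) (by decide +kernel)
     (CovZ.subM 606824093048753746870304 (by decide +kernel)
      (CovZ.n2 (3200, 18560) (by decide +kernel)
       TE_u14
       TE_u15))
     (CovZ.n1 (4480, 18560) (by decide +kernel)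
      (CovZ.badM (by decide +kernel))
      (CovZ.n1 (3840, 18560) (by decide +kernel)
       (CovZ.n2 (4160, 18880) (by decide +kernel)
        (CovZ.subM 606824093048753738481824 (by decide +kernel)
         (CovZ.n2 (4160, 18560) (by decide +kernel)
          (CovZ.n2 (4000, 18720) (by decide +kernel)
           (CovZ.n2 (4160, 18720) (by decide +kernel)
            (CovZ.n2 (4080, 18640) (by decide +kernel)
             (CovZ.n2 (4080, 18720) (by decide +kernel)
              (CovZ.n2 (4120, 18680) (by decide +kernel)
               (CovZ.leaf K2_ok TE_l7318 _)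
               (CovZ.leaf K2_ok TE_l7319 _))
              (CovZ.n1 (4040, 18680) (by decide +kernel)
               (CovZ.leaf K2_ok TE_l7320 _)
               (CovZ.leaf K2_ok TE_l7321 _)))
             (CovZ.badM (by decide +kernel)))
            (CovZ.n1 (4080, 18800) (by decide +kernel)
             (CovZ.n2 (4160, 18800) (by decide +kernel)
              (CovZ.n2 (4120, 18760) (by decide +kernel)
               (CovZ.leaf K2_ok TE_l7322 _)
               (CovZ.leaf K2_ok TE_l7323 _))
              (CovZ.leaf K2_ok TE_l7324 _))
             (CovZ.n1 (4080, 18720) (by decide +kernel)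
              (CovZ.leaf K2_ok TE_l7325 _)
              (CovZ.n1 (4120, 18760) (by decide +kernel)
               (CovZ.leaf K2_ok TE_l7326 _)
               (CovZ.leaf K2_ok TE_l7327 _)))))
           (CovZ.n1 (4000, 18560) (by decide +kernel)
            (CovZ.n2 (3920, 18640) (by decide +kernel)
             (CovZ.n2 (4000, 18640) (by decide +kernel)
              (CovZ.leaf K2_ok TE_l7328 _)
              (CovZ.leaf K2_ok TE_l7329 _))
             (CovZ.n1 (3920, 18560) (by decide +kernel)
              (CovZ.leaf K2_ok TE_l7330 _)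
              (CovZ.leaf K2_ok TE_l7331 _)))
            (CovZ.n1 (4080, 18640) (by decide +kernel)
             (CovZ.badM (by decide +kernel))
             (CovZ.n1 (4000, 18640) (by decide +kernel)
              (CovZ.n2 (4040, 18680) (by decide +kernel)
               (CovZ.leaf K2_ok TE_l7332 _)
               (CovZ.leaf K2_ok TE_l7333 _))
              (CovZ.n1 (4040, 18600) (by decide +kernel)
               (CovZ.leaf K2_ok TE_l7334 _)
               (CovZ.leaf K2_ok TE_l7335 _))))))
          (CovZ.n1 (4320, 18720) (by decide +kernel)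
           (CovZ.badM (by decide +kernel))
           (CovZ.n1 (4160, 18720) (by decide +kernel)
            (CovZ.n2 (4240, 18800) (by decide +kernel)
             (CovZ.badM (by decide +kernel))
             (CovZ.n1 (4160, 18800) (by decide +kernel)
              (CovZ.leaf K2_ok TE_l7336 _)
              (CovZ.n1 (4200, 18760) (by decide +kernel)
               (CovZ.leaf K2_ok TE_l7337 _)
               (CovZ.leaf K2_ok TE_l7338 _))))
            (CovZ.badM (by decide +kernel))))))
        (CovZ.n1 (3840, 18880) (by decide +kernel)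
         (CovZ.n2 (4000, 19040) (by decide +kernel)
          (CovZ.n2 (4000, 18880) (by decide +kernel)
           (CovZ.leaf K2_ok TE_l7339 _)
           (CovZ.n1 (4080, 18960) (by decide +kernel)
            (CovZ.leaf K2_ok TE_l7340 _)
            (CovZ.leaf K2_ok TE_l7341 _)))
          (CovZ.n1 (3840, 19040) (by decide +kernel)
           (CovZ.leaf K2_ok TE_l7342 _)
           (CovZ.leaf K2_ok TE_l7343 _)))
         (CovZ.subM 606824093048753738481824 (by decide +kernel)
          (CovZ.n1 (4000, 18720) (by decide +kernel)
           (CovZ.n2 (3840, 18720) (by decide +kernel)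
            (CovZ.n2 (3920, 18800) (by decide +kernel)
             (CovZ.leaf K2_ok TE_l7344 _)
             (CovZ.leaf K2_ok TE_l7345 _))
            (CovZ.n1 (3920, 18640) (by decide +kernel)
             (CovZ.n2 (3840, 18640) (by decide +kernel)
              (CovZ.leaf K2_ok TE_l7346 _)
              (CovZ.leaf K2_ok TE_l7347 _))
             (CovZ.leaf K2_ok TE_l7348 _)))
           (CovZ.n1 (4000, 18880) (by decide +kernel)
            (CovZ.n2 (4080, 18800) (by decide +kernel)
             (CovZ.n2 (4000, 18800) (by decide +kernel)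
              (CovZ.leaf K2_ok TE_l7349 _)
              (CovZ.leaf K2_ok TE_l7350 _))
             (CovZ.leaf K2_ok TE_l7351 _))
            (CovZ.n1 (3920, 18800) (by decide +kernel)
             (CovZ.leaf K2_ok TE_l7352 _)
             (CovZ.leaf K2_ok TE_l7353 _)))))))
       (CovZ.subM 606824093048753738481824 (by decide +kernel)
        (CovZ.n1 (4160, 18240) (by decide +kernel)
         (CovZ.n2 (3840, 18240) (by decide +kernel)
          (CovZ.n2 (4000, 18400) (by decide +kernel)
           (CovZ.badM (by decide +kernel))
           (CovZ.n1 (3840, 18400) (by decide +kernel)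
            (CovZ.n2 (3920, 18480) (by decide +kernel)
             (CovZ.badM (by decide +kernel))
             (CovZ.n1 (3840, 18480) (by decide +kernel)
              (CovZ.n2 (3880, 18520) (by decide +kernel)
               (CovZ.leaf K2_ok TE_l7354 _)
               (CovZ.leaf K2_ok TE_l7355 _))
              (CovZ.n1 (3880, 18440) (by decide +kernel)
               (CovZ.leaf K2_ok TE_l7356 _)
               (CovZ.leaf K2_ok TE_l7357 _))))
            (CovZ.badM (by decide +kernel))))
          (CovZ.badM (by decide +kernel)))
         (CovZ.n1 (4160, 18560) (by decide +kernel)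
          (CovZ.badM (by decide +kernel))
          (CovZ.n1 (4000, 18400) (by decide +kernel)
           (CovZ.n2 (4000, 18560) (by decide +kernel)
            (CovZ.badM (by decide +kernel))
            (CovZ.n1 (3920, 18480) (by decide +kernel)
             (CovZ.n2 (3920, 18560) (by decide +kernel)
              (CovZ.n2 (3960, 18520) (by decide +kernel)
               (CovZ.leaf K2_ok TE_l7358 _)
               (CovZ.leaf K2_ok TE_l7359 _))
              (CovZ.n1 (3880, 18520) (by decide +kernel)
               (CovZ.leaf K2_ok TE_l7360 _)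
               (CovZ.leaf K2_ok TE_l7361 _)))
             (CovZ.badM (by decide +kernel))))
           (CovZ.badM (by decide +kernel)))))))))))
    (CovZ.topM TE_LL 2923003971560425679885578689051568653314367160481 (by decide +kernel) (CovZ.n0 (3840, 19200) (by decide +kernel)
    (CovZ.n2 (2560, 19200) (by decide +kernel)
     (CovZ.n2 (3200, 19840) (by decide +kernel)
      (CovZ.subM 81129639021430774744542752014369 (by decide +kernel)
       (CovZ.n2 (3200, 19200) (by decide +kernel)
        (CovZ.n2 (2880, 19520) (by decide +kernel)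
         (CovZ.n2 (3200, 19520) (by decide +kernel)
          (CovZ.leaf K2_ok TE_l7364 _)
          (CovZ.leaf K2_ok TE_l7365 _))
         (CovZ.leaf K2_ok TE_l7366 _))
        (CovZ.n1 (3520, 19520) (by decide +kernel)
         (CovZ.n2 (3520, 19200) (by decide +kernel)
          (CovZ.leaf K2_ok TE_l7367 _)
          (CovZ.n1 (3680, 19360) (by decide +kernel)
           (CovZ.leaf K2_ok TE_l7368 _)
           (CovZ.leaf K2_ok TE_l7369 _)))
         (CovZ.n1 (3200, 19520) (by decide +kernel)
          (CovZ.leaf K2_ok TE_l7370 _)
          (CovZ.leaf K2_ok TE_l7371 _)))))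
      (CovZ.subM 696898287535211611589959060992669543039009 (by decide +kernel)
       (CovZ.n1 (2560, 19840) (by decide +kernel)
        (CovZ.n2 (2880, 20160) (by decide +kernel)
         (CovZ.leaf K2_ok TE_l7372 _)
         (CovZ.leaf K2_ok TE_l7373 _))
        (CovZ.n1 (2880, 19520) (by decide +kernel)
         (CovZ.leaf K2_ok TE_l7374 _)
         (CovZ.leaf K2_ok TE_l7375 _)))))
     (CovZ.subM 81129639021430774744542752014369 (by decide +kernel)
      (CovZ.n1 (3200, 18560) (by decide +kernel)
       (CovZ.n2 (2560, 18560) (by decide +kernel)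
        (CovZ.n2 (2880, 18880) (by decide +kernel)
         (CovZ.n2 (2880, 18560) (by decide +kernel)
          (CovZ.leaf K2_ok TE_l7376 _)
          (CovZ.n1 (3040, 18720) (by decide +kernel)
           (CovZ.leaf K2_ok TE_l7377 _)
           (CovZ.leaf K2_ok TE_l7378 _)))
         (CovZ.n1 (2560, 18880) (by decide +kernel)
          (CovZ.leaf K2_ok TE_l7379 _)
          (CovZ.leaf K2_ok TE_l7380 _)))
        (CovZ.n1 (2880, 18240) (by decide +kernel)
         (CovZ.subM 81129638416967864937223861305344 (by decide +kernel)
          (CovZ.n2 (2560, 18240) (by decide +kernel)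
           (CovZ.n2 (2720, 18400) (by decide +kernel)
            (CovZ.leaf K2_ok TE_l7381 _)
            (CovZ.leaf K2_ok TE_l7382 _))
           (CovZ.n1 (2720, 18080) (by decide +kernel)
            (CovZ.leaf K2_ok TE_l7383 _)
            (CovZ.leaf K2_ok TE_l7384 _))))
         (CovZ.n1 (2880, 18560) (by decide +kernel)
          (CovZ.n2 (3040, 18400) (by decide +kernel)
           (CovZ.leaf K2_ok TE_l7385 _)
           (CovZ.leaf K2_ok TE_l7386 _))
          (CovZ.n1 (2720, 18400) (by decide +kernel)
           (CovZ.leaf K2_ok TE_l7387 _)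
           (CovZ.leaf K2_ok TE_l7388 _)))))
       (CovZ.n1 (3200, 19200) (by decide +kernel)
        (CovZ.n2 (3520, 18880) (by decide +kernel)
         (CovZ.n2 (3200, 18880) (by decide +kernel)
          (CovZ.n2 (3360, 19040) (by decide +kernel)
           (CovZ.leaf K2_ok TE_l7389 _)
           (CovZ.leaf K2_ok TE_l7390 _))
          (CovZ.n1 (3360, 18720) (by decide +kernel)
           (CovZ.leaf K2_ok TE_l7391 _)
           (CovZ.leaf K2_ok TE_l7392 _)))
         (CovZ.n1 (3520, 19200) (by decide +kernel)
          (CovZ.n2 (3680, 19040) (by decide +kernel)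
           (CovZ.leaf K2_ok TE_l7393 _)
           (CovZ.leaf K2_ok TE_l7394 _))
          (CovZ.n1 (3360, 19040) (by decide +kernel)
           (CovZ.leaf K2_ok TE_l7395 _)
           (CovZ.leaf K2_ok TE_l7396 _))))
        (CovZ.n1 (2880, 18880) (by decide +kernel)
         (CovZ.leaf K2_ok TE_l7397 _)
         (CovZ.n1 (3200, 18880) (by decide +kernel)
          (CovZ.n2 (3040, 18720) (by decide +kernel)
           (CovZ.leaf K2_ok TE_l7398 _)
           (CovZ.leaf K2_ok TE_l7399 _))
          (CovZ.leaf K2_ok TE_l7400 _)))))))
    (CovZ.n1 (3840, 20480) (by decide +kernel)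
     (CovZ.n2 (4480, 19840) (by decide +kernel)
      (CovZ.n2 (3840, 19840) (by decide +kernel)
       (CovZ.n2 (4160, 20160) (by decide +kernel)
        (CovZ.n2 (4160, 19840) (by decide +kernel)
         (CovZ.leaf K2_ok TE_l7401 _)
         (CovZ.n1 (4320, 20000) (by decide +kernel)
          (CovZ.leaf K2_ok TE_l7402 _)
          (CovZ.leaf K2_ok TE_l7403 _)))
        (CovZ.n1 (3840, 20160) (by decide +kernel)
         (CovZ.leaf K2_ok TE_l7404 _)
         (CovZ.leaf K2_ok TE_l7405 _)))
       (CovZ.subM 81129639021431351205295055437984 (by decide +kernel)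
        (CovZ.n1 (4160, 19520) (by decide +kernel)
         (CovZ.n2 (3840, 19520) (by decide +kernel)
          (CovZ.n2 (4000, 19680) (by decide +kernel)
           (CovZ.leaf K2_ok TE_l7406 _)
           (CovZ.leaf K2_ok TE_l7407 _))
          (CovZ.n1 (4000, 19360) (by decide +kernel)
           (CovZ.leaf K2_ok TE_l7408 _)
           (CovZ.leaf K2_ok TE_l7409 _)))
         (CovZ.n1 (4160, 19840) (by decide +kernel)
          (CovZ.n2 (4320, 19680) (by decide +kernel)
           (CovZ.leaf K2_ok TE_l7410 _)
           (CovZ.leaf K2_ok TE_l7411 _))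
          (CovZ.n1 (4000, 19680) (by decide +kernel)
           (CovZ.leaf K2_ok TE_l7412 _)
           (CovZ.leaf K2_ok TE_l7413 _))))))
      (CovZ.n1 (4480, 20480) (by decide +kernel)
       (CovZ.n2 (4800, 20160) (by decide +kernel)
        (CovZ.subM 332306998946835792895461271120380064 (by decide +kernel)
         (CovZ.n2 (4480, 20160) (by decide +kernel)
          (CovZ.n2 (4640, 20320) (by decide +kernel)
           (CovZ.leaf K2_ok TE_l7414 _)
           (CovZ.leaf K2_ok TE_l7415 _))
          (CovZ.n1 (4640, 20000) (by decide +kernel)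
           (CovZ.leaf K2_ok TE_l7416 _)
           (CovZ.leaf K2_ok TE_l7417 _))))
        (CovZ.n1 (4800, 20480) (by decide +kernel)
         (CovZ.n2 (4960, 20320) (by decide +kernel)
          (CovZ.leaf K2_ok TE_l7418 _)
          (CovZ.leaf K2_ok TE_l7419 _))
         (CovZ.n1 (4640, 20320) (by decide +kernel)
          (CovZ.leaf K2_ok TE_l7420 _)
          (CovZ.leaf K2_ok TE_l7421 _))))
       (CovZ.n1 (4160, 20160) (by decide +kernel)
        (CovZ.leaf K2_ok TE_l7422 _)
        (CovZ.n1 (4480, 20160) (by decide +kernel)
         (CovZ.n2 (4320, 20000) (by decide +kernel)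
          (CovZ.leaf K2_ok TE_l7423 _)
          (CovZ.leaf K2_ok TE_l7424 _))
         (CovZ.leaf K2_ok TE_l7425 _)))))
     (CovZ.n1 (3200, 19840) (by decide +kernel)
      (CovZ.n2 (3200, 20480) (by decide +kernel)
       (CovZ.n2 (3520, 20160) (by decide +kernel)
        (CovZ.leaf K2_ok TE_l7426 _)
        (CovZ.leaf K2_ok TE_l7427 _))
       (CovZ.n1 (2880, 20160) (by decide +kernel)
        (CovZ.leaf K2_ok TE_l7428 _)
        (CovZ.leaf K2_ok TE_l7429 _)))
      (CovZ.n1 (3840, 19840) (by decide +kernel)
       (CovZ.subM 81129639021431351205295055437857 (by decide +kernel)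
        (CovZ.n2 (3520, 19520) (by decide +kernel)
         (CovZ.leaf K2_ok TE_l7430 _)
         (CovZ.n1 (3840, 19520) (by decide +kernel)
          (CovZ.n2 (3680, 19360) (by decide +kernel)
           (CovZ.leaf K2_ok TE_l7431 _)
           (CovZ.leaf K2_ok TE_l7432 _))
          (CovZ.leaf K2_ok TE_l7433 _))))
       (CovZ.n1 (3520, 20160) (by decide +kernel)
        (CovZ.n2 (3840, 20160) (by decide +kernel)
         (CovZ.leaf K2_ok TE_l7434 _)
         (CovZ.leaf K2_ok TE_l7435 _))
        (CovZ.leaf K2_ok TE_l7436 _)))))))

theorem TE_s6_2 : SqZ TE_M TE_L [0, 7, 6, 1] (-10240) 12800 2560 6 2 :=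
  SqZ.mk (a := 5120) (b := 7680) (c := 17920) (d := 20480) (by norm_num) (by norm_num) (by norm_num) (by norm_num)
    (CovZ.topM TE_LL 0 (by decide +kernel) (CovZ.badM (by decide +kernel)))
    (CovZ.topM TE_LL 1496577676626844920548844817897693583685708324798624 (by decide +kernel) (CovZ.n0 (6400, 19200) (by decide +kernel)
    TE_u16
    TE_u17))

theorem TE_s7_2 : SqZ TE_M TE_L [0, 7, 6, 1] (-10240) 12800 2560 7 2 :=
  SqZ.mk (a := 7680) (b := 10240) (c := 17920) (d := 20480) (by norm_num) (by norm_num) (by norm_num) (by norm_num)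
    (CovZ.topM TE_LL 34359738368 (by decide +kernel) (CovZ.n2 (8960, 19200) (by decide +kernel)
    (CovZ.n2 (10240, 19200) (by decide +kernel)
     (CovZ.badM (by decide +kernel))
     (CovZ.n1 (9600, 19840) (by decide +kernel)
      (CovZ.badM (by decide +kernel))
      (CovZ.badM (by decide +kernel))))
    (CovZ.badM (by decide +kernel))))
    (CovZ.topM TE_LL 34359738368 (by decide +kernel) (CovZ.n0 (8960, 19200) (by decide +kernel)
    (CovZ.badM (by decide +kernel))
    (CovZ.n1 (8960, 20480) (by decide +kernel)
     (CovZ.n2 (9600, 19840) (by decide +kernel)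
      (CovZ.badM (by decide +kernel))
      (CovZ.badM (by decide +kernel)))
     (CovZ.badM (by decide +kernel)))))

theorem TE_s8_2 : SqZ TE_M TE_L [0, 7, 6, 1] (-10240) 12800 2560 8 2 :=
  SqZ.mk (a := 10240) (b := 12800) (c := 17920) (d := 20480) (by norm_num) (by norm_num) (by norm_num) (by norm_num)
    (CovZ.topM TE_LL 5846006549323611672814739330865132078623730171904 (by decide +kernel) (CovZ.n2 (11520, 19200) (by decide +kernel)
    (CovZ.badM (by decide +kernel))
    (CovZ.badM (by decide +kernel))))
    (CovZ.topM TE_LL 5846006549323611672814739330865132078623730171904 (by decide +kernel) (CovZ.n0 (11520, 19200) (by decide +kernel)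
    (CovZ.badM (by decide +kernel))
    (CovZ.badM (by decide +kernel))))

theorem TE_s9_2 : SqZ TE_M TE_L [0, 7, 6, 1] (-10240) 12800 2560 9 2 :=
  SqZ.mk (a := 12800) (b := 15360) (c := 17920) (d := 20480) (by norm_num) (by norm_num) (by norm_num) (by norm_num)
    (CovZ.topM TE_LL 0 (by decide +kernel) (CovZ.badM (by decide +kernel)))
    (CovZ.topM TE_LL 0 (by decide +kernel) (CovZ.badM (by decide +kernel)))

theorem TE_s10_2 : SqZ TE_M TE_L [0, 7, 6, 1] (-10240) 12800 2560 10 2 :=
  SqZ.mk (a := 15360) (b := 17920) (c := 17920) (d := 20480) (by norm_num) (by norm_num) (by norm_num) (by norm_num)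
    (CovZ.topM TE_LL 170141183460469231731687303715884105728 (by decide +kernel) (CovZ.n2 (16640, 19200) (by decide +kernel)
    (CovZ.badM (by decide +kernel))
    (CovZ.badM (by decide +kernel))))
    (CovZ.topM TE_LL 170141183460469231731687303715884105728 (by decide +kernel) (CovZ.n0 (16640, 19200) (by decide +kernel)
    (CovZ.badM (by decide +kernel))
    (CovZ.badM (by decide +kernel))))

theorem TE_s0_3 : SqZ TE_M TE_L [0, 7, 6, 1] (-10240) 12800 2560 0 3 :=
  SqZ.mk (a := (-10240)) (b := (-7680)) (c := 20480) (d := 23040) (by norm_num) (by norm_num) (by norm_num) (by norm_num)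
    (CovZ.topM TE_LL 0 (by decide +kernel) (CovZ.badM (by decide +kernel)))
    (CovZ.topM TE_LL 0 (by decide +kernel) (CovZ.badM (by decide +kernel)))

theorem TE_s1_3 : SqZ TE_M TE_L [0, 7, 6, 1] (-10240) 12800 2560 1 3 :=
  SqZ.mk (a := (-7680)) (b := (-5120)) (c := 20480) (d := 23040) (by norm_num) (by norm_num) (by norm_num) (by norm_num)
    (CovZ.topM TE_LL 0 (by decide +kernel) (CovZ.badM (by decide +kernel)))
    (CovZ.topM TE_LL 0 (by decide +kernel) (CovZ.badM (by decide +kernel)))

theorem TE_s2_3 : SqZ TE_M TE_L [0, 7, 6, 1] (-10240) 12800 2560 2 3 :=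
  SqZ.mk (a := (-5120)) (b := (-2560)) (c := 20480) (d := 23040) (by norm_num) (by norm_num) (by norm_num) (by norm_num)
    (CovZ.topM TE_LL 0 (by decide +kernel) (CovZ.badM (by decide +kernel)))
    (CovZ.topM TE_LL 0 (by decide +kernel) (CovZ.badM (by decide +kernel)))

theorem TE_s3_3 : SqZ TE_M TE_L [0, 7, 6, 1] (-10240) 12800 2560 3 3 :=
  SqZ.mk (a := (-2560)) (b := 0) (c := 20480) (d := 23040) (by norm_num) (by norm_num) (by norm_num) (by norm_num)
    (CovZ.topM TE_LL 81129638416967864937223828803585 (by decide +kernel) (CovZ.n2 (-1280, 21760) (by decide +kernel)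
    (CovZ.n2 (0, 21760) (by decide +kernel)
     (CovZ.n2 (-640, 21120) (by decide +kernel)
      (CovZ.leaf K2_ok TE_l493 _)
      (CovZ.leaf K2_ok TE_l494 _))
     (CovZ.n1 (-640, 22400) (by decide +kernel)
      (CovZ.leaf K2_ok TE_l495 _)
      (CovZ.leaf K2_ok TE_l496 _)))
    (CovZ.n1 (-1280, 20480) (by decide +kernel)
     (CovZ.n2 (-1920, 21120) (by decide +kernel)
      (CovZ.n2 (-1280, 21120) (by decide +kernel)
       (CovZ.leaf K2_ok TE_l497 _)
       (CovZ.leaf K2_ok TE_l498 _))
      (CovZ.n1 (-1920, 20480) (by decide +kernel)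
       (CovZ.n2 (-2240, 20800) (by decide +kernel)
        (CovZ.leaf K2_ok TE_l499 _)
        (CovZ.n1 (-2240, 20480) (by decide +kernel)
         (CovZ.badM (by decide +kernel))
         (CovZ.leaf K2_ok TE_l501 _)))
       (CovZ.n1 (-1600, 20800) (by decide +kernel)
        (CovZ.leaf K2_ok TE_l502 _)
        (CovZ.leaf K2_ok TE_l503 _))))
     (CovZ.n1 (-640, 21120) (by decide +kernel)
      (CovZ.n2 (-640, 20480) (by decide +kernel)
       (CovZ.leaf K2_ok TE_l504 _)
       (CovZ.leaf K2_ok TE_l505 _))
      (CovZ.leaf K2_ok TE_l506 _)))))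
    (CovZ.topM TE_LL 1048576 (by decide +kernel) (CovZ.n0 (-1280, 21760) (by decide +kernel)
    (CovZ.badM (by decide +kernel))
    (CovZ.n1 (-1280, 23040) (by decide +kernel)
     (CovZ.n2 (-640, 22400) (by decide +kernel)
      (CovZ.badM (by decide +kernel))
      (CovZ.n1 (-640, 23040) (by decide +kernel)
       (CovZ.leaf K2_ok TE_l524 _)
       (CovZ.badM (by decide +kernel))))
     (CovZ.badM (by decide +kernel)))))

theorem TE_s4_3 : SqZ TE_M TE_L [0, 7, 6, 1] (-10240) 12800 2560 4 3 :=
  SqZ.mk (a := 0) (b := 2560) (c := 20480) (d := 23040) (by norm_num) (by norm_num) (by norm_num) (by norm_num)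
    (CovZ.topM TE_LL 374150128147481970980797208079027229898104141516801 (by decide +kernel) (CovZ.n2 (1280, 21760) (by decide +kernel)
    (CovZ.n2 (2560, 21760) (by decide +kernel)
     (CovZ.n2 (1920, 21120) (by decide +kernel)
      (CovZ.leaf K2_ok TE_l2730 _)
      (CovZ.leaf K2_ok TE_l2731 _))
     (CovZ.leaf K2_ok TE_l2732 _))
    (CovZ.n1 (1280, 20480) (by decide +kernel)
     (CovZ.leaf K2_ok TE_l2733 _)
     (CovZ.n1 (1920, 21120) (by decide +kernel)
      (CovZ.leaf K2_ok TE_l2734 _)
      (CovZ.leaf K2_ok TE_l2735 _)))))
    (CovZ.topM TE_LL 46773761385359717323454215154231503910326376599553 (by decide +kernel) (CovZ.n0 (1280, 21760) (by decide +kernel)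
    (CovZ.n2 (0, 21760) (by decide +kernel)
     (CovZ.n2 (640, 22400) (by decide +kernel)
      (CovZ.leaf K2_ok TE_l2736 _)
      (CovZ.leaf K2_ok TE_l2737 _))
     (CovZ.leaf K2_ok TE_l2738 _))
    (CovZ.n1 (1280, 23040) (by decide +kernel)
     (CovZ.n2 (1920, 22400) (by decide +kernel)
      (CovZ.leaf K2_ok TE_l2739 _)
      (CovZ.n1 (1920, 23040) (by decide +kernel)
       (CovZ.leaf K2_ok TE_l2740 _)
       (CovZ.leaf K2_ok TE_l2741 _)))
     (CovZ.n1 (640, 22400) (by decide +kernel)
      (CovZ.leaf K2_ok TE_l2742 _)
      (CovZ.leaf K2_ok TE_l2743 _)))))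

theorem TE_s5_3 : SqZ TE_M TE_L [0, 7, 6, 1] (-10240) 12800 2560 5 3 :=
  SqZ.mk (a := 2560) (b := 5120) (c := 20480) (d := 23040) (by norm_num) (by norm_num) (by norm_num) (by norm_num)
    (CovZ.topM TE_LL 1499500680641961156886338970713878853799986962907297 (by decide +kernel) (CovZ.n2 (3840, 21760) (by decide +kernel)
    (CovZ.n2 (5120, 21760) (by decide +kernel)
     (CovZ.n2 (4480, 21120) (by decide +kernel)
      (CovZ.n2 (4480, 21760) (by decide +kernel)
       (CovZ.n2 (4800, 21440) (by decide +kernel)
        (CovZ.leaf K2_ok TE_l7437 _)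
        (CovZ.leaf K2_ok TE_l7438 _))
       (CovZ.n1 (4160, 21440) (by decide +kernel)
        (CovZ.leaf K2_ok TE_l7439 _)
        (CovZ.leaf K2_ok TE_l7440 _)))
      (CovZ.n1 (5120, 21120) (by decide +kernel)
       (CovZ.subM 332389396235850627806558556832940193 (by decide +kernel)
        (CovZ.n2 (4800, 20800) (by decide +kernel)
         (CovZ.leaf K2_ok TE_l7441 _)
         (CovZ.n1 (5120, 20800) (by decide +kernel)
          (CovZ.n2 (4960, 20640) (by decide +kernel)
           (CovZ.leaf K2_ok TE_l7442 _)
           (CovZ.leaf K2_ok TE_l7443 _))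
          (CovZ.leaf K2_ok TE_l7444 _))))
       (CovZ.n1 (4800, 21440) (by decide +kernel)
        (CovZ.leaf K2_ok TE_l7445 _)
        (CovZ.leaf K2_ok TE_l7446 _))))
     (CovZ.n1 (4480, 22400) (by decide +kernel)
      (CovZ.n2 (5120, 22400) (by decide +kernel)
       (CovZ.n2 (4800, 22080) (by decide +kernel)
        (CovZ.leaf K2_ok TE_l7447 _)
        (CovZ.leaf K2_ok TE_l7448 _))
       (CovZ.leaf K2_ok TE_l7449 _))
      (CovZ.n1 (4480, 21760) (by decide +kernel)
       (CovZ.leaf K2_ok TE_l7450 _)
       (CovZ.n1 (4800, 22080) (by decide +kernel)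
        (CovZ.leaf K2_ok TE_l7451 _)
        (CovZ.leaf K2_ok TE_l7452 _)))))
    (CovZ.n1 (3840, 20480) (by decide +kernel)
     (CovZ.subM 696898287535211612194422547260740728783009 (by decide +kernel)
      (CovZ.n2 (3200, 21120) (by decide +kernel)
       (CovZ.n2 (3840, 21120) (by decide +kernel)
        (CovZ.n2 (3520, 20800) (by decide +kernel)
         (CovZ.leaf K2_ok TE_l7453 _)
         (CovZ.leaf K2_ok TE_l7454 _))
        (CovZ.leaf K2_ok TE_l7455 _))
       (CovZ.n1 (3200, 20480) (by decide +kernel)
        (CovZ.leaf K2_ok TE_l7456 _)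
        (CovZ.n1 (3520, 20800) (by decide +kernel)
         (CovZ.leaf K2_ok TE_l7457 _)
         (CovZ.leaf K2_ok TE_l7458 _)))))
     (CovZ.subM 332389396235850627824608139714494625 (by decide +kernel)
      (CovZ.n1 (4480, 21120) (by decide +kernel)
       (CovZ.n2 (4480, 20480) (by decide +kernel)
        (CovZ.n2 (4160, 20800) (by decide +kernel)
         (CovZ.n2 (4480, 20800) (by decide +kernel)
          (CovZ.leaf K2_ok TE_l7459 _)
          (CovZ.leaf K2_ok TE_l7460 _))
         (CovZ.leaf K2_ok TE_l7461 _))
        (CovZ.n1 (4800, 20800) (by decide +kernel)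
         (CovZ.n2 (4800, 20480) (by decide +kernel)
          (CovZ.leaf K2_ok TE_l7462 _)
          (CovZ.n1 (4960, 20640) (by decide +kernel)
           (CovZ.leaf K2_ok TE_l7463 _)
           (CovZ.leaf K2_ok TE_l7464 _)))
         (CovZ.n1 (4480, 20800) (by decide +kernel)
          (CovZ.leaf K2_ok TE_l7465 _)
          (CovZ.leaf K2_ok TE_l7466 _))))
       (CovZ.n1 (3840, 21120) (by decide +kernel)
        (CovZ.n2 (4160, 21440) (by decide +kernel)
         (CovZ.leaf K2_ok TE_l7467 _)
         (CovZ.leaf K2_ok TE_l7468 _))
        (CovZ.n1 (4160, 20800) (by decide +kernel)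
         (CovZ.leaf K2_ok TE_l7469 _)
         (CovZ.leaf K2_ok TE_l7470 _))))))))
    (CovZ.topM TE_LL 1873645099798672303945214637289019077430408990707873 (by decide +kernel) (CovZ.n0 (3840, 21760) (by decide +kernel)
    (CovZ.n2 (2560, 21760) (by decide +kernel)
     (CovZ.n2 (3200, 22400) (by decide +kernel)
      (CovZ.leaf K2_ok TE_l7471 _)
      (CovZ.n1 (2560, 22400) (by decide +kernel)
       (CovZ.leaf K2_ok TE_l7472 _)
       (CovZ.leaf K2_ok TE_l7473 _)))
     (CovZ.n1 (3200, 21120) (by decide +kernel)
      (CovZ.n2 (2560, 21120) (by decide +kernel)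
       (CovZ.leaf K2_ok TE_l7474 _)
       (CovZ.leaf K2_ok TE_l7475 _))
      (CovZ.leaf K2_ok TE_l7476 _)))
    (CovZ.n1 (3840, 23040) (by decide +kernel)
     (CovZ.n2 (4480, 22400) (by decide +kernel)
      (CovZ.n2 (3840, 22400) (by decide +kernel)
       (CovZ.leaf K2_ok TE_l7477 _)
       (CovZ.leaf K2_ok TE_l7478 _))
      (CovZ.leaf K2_ok TE_l7479 _))
     (CovZ.n1 (3200, 22400) (by decide +kernel)
      (CovZ.leaf K2_ok TE_l7480 _)
      (CovZ.leaf K2_ok TE_l7481 _)))))

end Pool.Agent.TET
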