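import Pool.Agent.Helper38_TET.TE_M
import Pool.Agent.Helper38_TET.TE_L
import Pool.Agent.Helper38_TET.TE_5
import Pool.Agent.Helper38_TET.TE_6
import Pool.Agent.Helper38_TET.TE_7
import Pool.Agent.Helper38_TET.TE_8
import Pool.Agent.Helper38_TET.TE_9
import Pool.Agent.Helper38_TET.TE_50
import Pool.Agent.Helper38_TET.TE_51
import Pool.Agent.Helper38_TET.TE_99
import Pool.Agent.Helper38_TET.TE_100
import Pool.Agent.Helper38_TET.TE_101
import Pool.Agent.Helper38_TET.TE_103
import Pool.Agent.Helper38_TET.TE_104
import Pool.Agent.Helper38_TET.TE_114
import Pool.Agent.Helper38_TET.TE_129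
import Pool.Agent.Helper38_TET.TE_130
import Pool.Agent.Helper38_TET.TE_U1

/-!
# MP_c7c9bf_co: certificates, family TE
-/

set_option autoImplicit false
set_option maxRecDepth 100000

namespace Pool.Agent.TET

theorem TE_u32 : CovZ TE_M (toL (selN TE_LN 416852686361469110882706480293171047041727165948723057593)) [0, 7, 6, 1] (3840, 24320) (5120, 25600) (2560, 25600) :=
    (CovZ.n1 (3840, 25600) (by decide +kernel)
     (CovZ.n2 (4480, 24960) (by decide +kernel)
      (CovZ.subM 1496577677367299351048703564718372155685765894427049 (by decide +kernel)
       (CovZ.n2 (3840, 24960) (by decide +kernel)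
        (CovZ.n2 (4160, 25280) (by decide +kernel)
         (CovZ.leaf K2_ok TE_l7589 _)
         (CovZ.n1 (3840, 25280) (by decide +kernel)
          (CovZ.leaf K2_ok TE_l7590 _)
          (CovZ.leaf K2_ok TE_l7591 _)))
        (CovZ.n1 (4160, 24640) (by decide +kernel)
         (CovZ.n2 (3840, 24640) (by decide +kernel)
          (CovZ.leaf K2_ok TE_l7592 _)
          (CovZ.leaf K2_ok TE_l7593 _))
         (CovZ.n1 (4160, 24960) (by decide +kernel)
          (CovZ.leaf K2_ok TE_l7594 _)
          (CovZ.leaf K2_ok TE_l7595 _)))))
      (CovZ.n1 (4480, 25600) (by decide +kernel)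
       (CovZ.leaf K2_ok TE_l7596 _)
       (CovZ.n1 (4160, 25280) (by decide +kernel)
        (CovZ.leaf K2_ok TE_l7597 _)
        (CovZ.leaf K2_ok TE_l7598 _))))
     (CovZ.n1 (3200, 24960) (by decide +kernel)
      TE_u30
      (CovZ.subM 2923004015116568644537665531215182145574188667297 (by decide +kernel)
       (CovZ.n1 (3840, 24960) (by decide +kernel)
        (CovZ.n2 (3520, 24640) (by decide +kernel)
         (CovZ.n2 (3520, 24960) (by decide +kernel)
          (CovZ.leaf K2_ok TE_l7684 _)
          (CovZ.n1 (3360, 24800) (by decide +kernel)
           (CovZ.leaf K2_ok TE_l7685 _)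
           (CovZ.leaf K2_ok TE_l7686 _)))
         (CovZ.n1 (3840, 24640) (by decide +kernel)
          (CovZ.leaf K2_ok TE_l7687 _)
          (CovZ.leaf K2_ok TE_l7688 _)))
        (CovZ.n1 (3520, 25280) (by decide +kernel)
         (CovZ.n2 (3840, 25280) (by decide +kernel)
          (CovZ.n2 (3680, 25120) (by decide +kernel)
           (CovZ.leaf K2_ok TE_l7689 _)
           (CovZ.leaf K2_ok TE_l7690 _))
          (CovZ.leaf K2_ok TE_l7691 _))
         (CovZ.n1 (3520, 24960) (by decide +kernel)
          (CovZ.n2 (3360, 25120) (by decide +kernel)
           (CovZ.n2 (3520, 25120) (by decide +kernel)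
            (CovZ.leaf K2_ok TE_l7692 _)
            (CovZ.leaf K2_ok TE_l7693 _))
           (CovZ.leaf K2_ok TE_l7694 _))
          (CovZ.n1 (3680, 25120) (by decide +kernel)
           (CovZ.leaf K2_ok TE_l7695 _)
           (CovZ.n1 (3520, 25120) (by decide +kernel)
            (CovZ.leaf K2_ok TE_l7696 _)
            (CovZ.leaf K2_ok TE_l7697 _)))))))))

theorem TE_u33 : CovZ TE_M (toL (selN TE_LN 11972986789818226621236265467702197063750005669036209)) [0, 7, 6, 1] (10240, 23040) (10240, 24320) (8960, 24320) :=
    (CovZ.n2 (9600, 23680) (by decide +kernel)
       (CovZ.n2 (9600, 24320) (by decide +kernel)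
        (CovZ.subM 365375409673340403475757663165889582389140717744 (by decide +kernel)
         (CovZ.n2 (9920, 24000) (by decide +kernel)
          (CovZ.n2 (9600, 24000) (by decide +kernel)
           (CovZ.n2 (9760, 24160) (by decide +kernel)
            (CovZ.subM 16 (by decide +kernel)
             (CovZ.n2 (9760, 24000) (by decide +kernel)
              (CovZ.n2 (9680, 24080) (by decide +kernel)
               (CovZ.badM (by decide +kernel))
               (CovZ.n1 (9680, 24000) (by decide +kernel)
                (CovZ.n2 (9640, 24040) (by decide +kernel)
                 (CovZ.badM (by decide +kernel))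
                 (CovZ.badM (by decide +kernel)))
                (CovZ.badM (by decide +kernel))))
              (CovZ.badM (by decide +kernel))))
            (CovZ.n1 (9600, 24160) (by decide +kernel)
             (CovZ.n2 (9680, 24240) (by decide +kernel)
              (CovZ.badM (by decide +kernel))
              (CovZ.n1 (9600, 24240) (by decide +kernel)
               (CovZ.n2 (9640, 24280) (by decide +kernel)
                (CovZ.leaf K2_ok TE_l14957 _)
                (CovZ.leaf K2_ok TE_l14958 _))
               (CovZ.n1 (9640, 24200) (by decide +kernel)
                (CovZ.leaf K2_ok TE_l14959 _)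
                (CovZ.leaf K2_ok TE_l14960 _))))
             (CovZ.subM 16 (by decide +kernel)
              (CovZ.n1 (9680, 24080) (by decide +kernel)
               (CovZ.n2 (9600, 24080) (by decide +kernel)
                (CovZ.badM (by decide +kernel))
                (CovZ.n1 (9640, 24040) (by decide +kernel)
                 (CovZ.badM (by decide +kernel))
                 (CovZ.badM (by decide +kernel))))
               (CovZ.badM (by decide +kernel))))))
           (CovZ.subM 16 (by decide +kernel)
            (CovZ.n1 (9760, 23840) (by decide +kernel)
             (CovZ.badM (by decide +kernel))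
             (CovZ.n1 (9760, 24000) (by decide +kernel)
              (CovZ.n2 (9840, 23920) (by decide +kernel)
               (CovZ.badM (by decide +kernel))
               (CovZ.badM (by decide +kernel)))
              (CovZ.badM (by decide +kernel))))))
          (CovZ.n1 (9920, 24320) (by decide +kernel)
           (CovZ.badM (by decide +kernel))
           (CovZ.n1 (9760, 24160) (by decide +kernel)
            (CovZ.n2 (9760, 24320) (by decide +kernel)
             (CovZ.badM (by decide +kernel))
             (CovZ.n1 (9680, 24240) (by decide +kernel)
              (CovZ.n2 (9680, 24320) (by decide +kernel)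
               (CovZ.n2 (9720, 24280) (by decide +kernel)
                (CovZ.leaf K2_ok TE_l14961 _)
                (CovZ.leaf K2_ok TE_l14962 _))
               (CovZ.leaf K2_ok TE_l14963 _))
              (CovZ.badM (by decide +kernel))))
            (CovZ.badM (by decide +kernel))))))
        (CovZ.n1 (9280, 24000) (by decide +kernel)
         (CovZ.n2 (9280, 24320) (by decide +kernel)
          (CovZ.n2 (9440, 24160) (by decide +kernel)
           (CovZ.n2 (9280, 24160) (by decide +kernel)
            (CovZ.n2 (9360, 24240) (by decide +kernel)
             (CovZ.leaf K2_ok TE_l14964 _)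
             (CovZ.leaf K2_ok TE_l14965 _))
            (CovZ.n1 (9360, 24080) (by decide +kernel)
             (CovZ.leaf K2_ok TE_l14966 _)
             (CovZ.n1 (9360, 24160) (by decide +kernel)
              (CovZ.leaf K2_ok TE_l14967 _)
              (CovZ.leaf K2_ok TE_l14968 _))))
           (CovZ.n1 (9440, 24320) (by decide +kernel)
            (CovZ.n2 (9520, 24240) (by decide +kernel)
             (CovZ.leaf K2_ok TE_l14969 _)
             (CovZ.n1 (9520, 24320) (by decide +kernel)
              (CovZ.leaf K2_ok TE_l14970 _)
              (CovZ.leaf K2_ok TE_l14971 _)))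
            (CovZ.n1 (9360, 24240) (by decide +kernel)
             (CovZ.leaf K2_ok TE_l14972 _)
             (CovZ.leaf K2_ok TE_l14973 _))))
          (CovZ.n1 (9120, 24160) (by decide +kernel)
           (CovZ.n2 (9120, 24320) (by decide +kernel)
            (CovZ.leaf K2_ok TE_l14974 _)
            (CovZ.leaf K2_ok TE_l14975 _))
           (CovZ.n1 (9280, 24160) (by decide +kernel)
            (CovZ.n2 (9200, 24080) (by decide +kernel)
             (CovZ.leaf K2_ok TE_l14976 _)
             (CovZ.leaf K2_ok TE_l14977 _))
            (CovZ.leaf K2_ok TE_l14978 _))))
         (CovZ.subM 365375409673340403475757663165889573593047695536 (by decide +kernel)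
          (CovZ.n1 (9600, 24000) (by decide +kernel)
           (CovZ.n2 (9440, 23840) (by decide +kernel)
            (CovZ.n2 (9440, 24000) (by decide +kernel)
             (CovZ.n2 (9520, 23920) (by decide +kernel)
              (CovZ.badM (by decide +kernel))
              (CovZ.n1 (9520, 24000) (by decide +kernel)
               (CovZ.badM (by decide +kernel))
               (CovZ.badM (by decide +kernel))))
             (CovZ.n1 (9360, 23920) (by decide +kernel)
              (CovZ.n2 (9360, 24000) (by decide +kernel)
               (CovZ.n2 (9400, 23960) (by decide +kernel)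
                (CovZ.leaf K2_ok TE_l14979 _)
                (CovZ.leaf K2_ok TE_l14980 _))
               (CovZ.leaf K2_ok TE_l14981 _))
              (CovZ.badM (by decide +kernel))))
            (CovZ.badM (by decide +kernel)))
           (CovZ.n1 (9440, 24160) (by decide +kernel)
            (CovZ.n2 (9600, 24160) (by decide +kernel)
             (CovZ.n2 (9520, 24080) (by decide +kernel)
              (CovZ.n2 (9520, 24160) (by decide +kernel)
               (CovZ.n2 (9560, 24120) (by decide +kernel)
                (CovZ.leaf K2_ok TE_l14983 _)
                (CovZ.leaf K2_ok TE_l14984 _))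
               (CovZ.leaf K2_ok TE_l14985 _))
              (CovZ.n1 (9600, 24080) (by decide +kernel)
               (CovZ.badM (by decide +kernel))
               (CovZ.n1 (9560, 24120) (by decide +kernel)
                (CovZ.badM (by decide +kernel))
                (CovZ.leaf K2_ok TE_l19342 _))))
             (CovZ.n1 (9520, 24240) (by decide +kernel)
              (CovZ.n2 (9600, 24240) (by decide +kernel)
               (CovZ.n2 (9560, 24200) (by decide +kernel)
                (CovZ.leaf K2_ok TE_l14986 _)
                (CovZ.leaf K2_ok TE_l14987 _))
               (CovZ.leaf K2_ok TE_l14988 _))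
              (CovZ.n1 (9520, 24160) (by decide +kernel)
               (CovZ.leaf K2_ok TE_l14989 _)
               (CovZ.n1 (9560, 24200) (by decide +kernel)
                (CovZ.leaf K2_ok TE_l14990 _)
                (CovZ.leaf K2_ok TE_l14991 _)))))
            (CovZ.n1 (9440, 24000) (by decide +kernel)
             (CovZ.n2 (9360, 24080) (by decide +kernel)
              (CovZ.n2 (9440, 24080) (by decide +kernel)
               (CovZ.leaf K2_ok TE_l14992 _)
               (CovZ.leaf K2_ok TE_l14993 _))
              (CovZ.n1 (9360, 24000) (by decide +kernel)
               (CovZ.leaf K2_ok TE_l14994 _)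
               (CovZ.n1 (9400, 24040) (by decide +kernel)
                (CovZ.leaf K2_ok TE_l14995 _)
                (CovZ.leaf K2_ok TE_l14996 _))))
             (CovZ.n1 (9520, 24080) (by decide +kernel)
              (CovZ.n2 (9520, 24000) (by decide +kernel)
               (CovZ.n2 (9480, 24040) (by decide +kernel)
                (CovZ.leaf K2_ok TE_l19343 _)
                (CovZ.leaf K2_ok TE_l19344 _))
               (CovZ.badM (by decide +kernel)))
              (CovZ.n1 (9440, 24080) (by decide +kernel)
               (CovZ.n2 (9480, 24120) (by decide +kernel)
                (CovZ.leaf K2_ok TE_l14997 _)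
                (CovZ.leaf K2_ok TE_l14998 _))
               (CovZ.n1 (9480, 24040) (by decide +kernel)
                (CovZ.leaf K2_ok TE_l14999 _)
                (CovZ.leaf K2_ok TE_l15000 _))))))))))
       (CovZ.subM 17592186044432 (by decide +kernel)
        (CovZ.n1 (10240, 23680) (by decide +kernel)
         (CovZ.badM (by decide +kernel))
         (CovZ.n1 (9920, 24000) (by decide +kernel)
          (CovZ.badM (by decide +kernel))
          (CovZ.n1 (9920, 23680) (by decide +kernel)
           (CovZ.n2 (9760, 23840) (by decide +kernel)
            (CovZ.n2 (9920, 23840) (by decide +kernel)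
             (CovZ.badM (by decide +kernel))
             (CovZ.n1 (9840, 23920) (by decide +kernel)
              (CovZ.badM (by decide +kernel))
              (CovZ.badM (by decide +kernel))))
            (CovZ.badM (by decide +kernel)))
           (CovZ.n1 (10080, 23840) (by decide +kernel)
            (CovZ.badM (by decide +kernel))
            (CovZ.n1 (9920, 23840) (by decide +kernel)
             (CovZ.badM (by decide +kernel))
             (CovZ.badM (by decide +kernel)))))))))

theorem TE_u34 : CovZ TE_M (toL (selN TE_LN 11972986789818226621236265467702197063750005669036209)) [0, 7, 6, 1] (10240, 24320) (10240, 25600) (8960, 24320) :=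
    (CovZ.n1 (9600, 24960) (by decide +kernel)
       (CovZ.n2 (10240, 24960) (by decide +kernel)
        (CovZ.n2 (9920, 24640) (by decide +kernel)
         (CovZ.n2 (9920, 24960) (by decide +kernel)
          (CovZ.subM 340614673964450536245103917776536404001 (by decide +kernel)
           (CovZ.n2 (10080, 24800) (by decide +kernel)
            (CovZ.n2 (9920, 24800) (by decide +kernel)
             (CovZ.n2 (10000, 24880) (by decide +kernel)
              (CovZ.leaf K2_ok TE_l15001 _)
              (CovZ.leaf K2_ok TE_l15002 _))
             (CovZ.n1 (10000, 24720) (by decide +kernel)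
              (CovZ.leaf K2_ok TE_l15003 _)
              (CovZ.n1 (10000, 24800) (by decide +kernel)
               (CovZ.leaf K2_ok TE_l15004 _)
               (CovZ.leaf K2_ok TE_l15005 _))))
            (CovZ.n1 (10080, 24960) (by decide +kernel)
             (CovZ.n2 (10160, 24880) (by decide +kernel)
              (CovZ.leaf K2_ok TE_l15006 _)
              (CovZ.n1 (10160, 24960) (by decide +kernel)
               (CovZ.leaf K2_ok TE_l15007 _)
               (CovZ.leaf K2_ok TE_l15008 _)))
             (CovZ.n1 (10000, 24880) (by decide +kernel)
              (CovZ.leaf K2_ok TE_l15009 _)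
              (CovZ.leaf K2_ok TE_l15010 _)))))
          (CovZ.n1 (9760, 24800) (by decide +kernel)
           (CovZ.n2 (9760, 24960) (by decide +kernel)
            (CovZ.leaf K2_ok TE_l15011 _)
            (CovZ.leaf K2_ok TE_l15012 _))
           (CovZ.n1 (9920, 24800) (by decide +kernel)
            (CovZ.n2 (9840, 24720) (by decide +kernel)
             (CovZ.leaf K2_ok TE_l15013 _)
             (CovZ.leaf K2_ok TE_l15014 _))
            (CovZ.leaf K2_ok TE_l15015 _))))
         (CovZ.subM 340614673924836454987971748979764363296 (by decide +kernel)
          (CovZ.n1 (10240, 24640) (by decide +kernel)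
           (CovZ.n2 (10080, 24480) (by decide +kernel)
            (CovZ.n2 (10080, 24640) (by decide +kernel)
             (CovZ.badM (by decide +kernel))
             (CovZ.n1 (10000, 24560) (by decide +kernel)
              (CovZ.n2 (10000, 24640) (by decide +kernel)
               (CovZ.n2 (10040, 24600) (by decide +kernel)
                (CovZ.leaf K2_ok TE_l15016 _)
                (CovZ.leaf K2_ok TE_l15017 _))
               (CovZ.leaf K2_ok TE_l15018 _))
              (CovZ.badM (by decide +kernel))))
            (CovZ.badM (by decide +kernel)))
           (CovZ.n1 (10080, 24800) (by decide +kernel)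
            (CovZ.n2 (10240, 24800) (by decide +kernel)
             (CovZ.n2 (10160, 24720) (by decide +kernel)
              (CovZ.n2 (10160, 24800) (by decide +kernel)
               (CovZ.n2 (10200, 24760) (by decide +kernel)
                (CovZ.leaf K2_ok TE_l15020 _)
                (CovZ.leaf K2_ok TE_l15021 _))
               (CovZ.leaf K2_ok TE_l15022 _))
              (CovZ.badM (by decide +kernel)))
             (CovZ.n1 (10160, 24880) (by decide +kernel)
              (CovZ.n2 (10240, 24880) (by decide +kernel)
               (CovZ.leaf K2_ok TE_l15023 _)
               (CovZ.leaf K2_ok TE_l15024 _))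
              (CovZ.n1 (10160, 24800) (by decide +kernel)
               (CovZ.leaf K2_ok TE_l15025 _)
               (CovZ.n1 (10200, 24840) (by decide +kernel)
                (CovZ.leaf K2_ok TE_l15026 _)
                (CovZ.leaf K2_ok TE_l15027 _)))))
            (CovZ.n1 (10080, 24640) (by decide +kernel)
             (CovZ.n2 (10000, 24720) (by decide +kernel)
              (CovZ.n2 (10080, 24720) (by decide +kernel)
               (CovZ.leaf K2_ok TE_l15028 _)
               (CovZ.leaf K2_ok TE_l15029 _))
              (CovZ.n1 (10000, 24640) (by decide +kernel)
               (CovZ.leaf K2_ok TE_l15030 _)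
               (CovZ.n1 (10040, 24680) (by decide +kernel)
                (CovZ.leaf K2_ok TE_l15031 _)
                (CovZ.leaf K2_ok TE_l15032 _))))
             (CovZ.n1 (10160, 24720) (by decide +kernel)
              (CovZ.badM (by decide +kernel))
              (CovZ.n1 (10080, 24720) (by decide +kernel)
               (CovZ.n2 (10120, 24760) (by decide +kernel)
                (CovZ.leaf K2_ok TE_l15033 _)
                (CovZ.leaf K2_ok TE_l15034 _))
               (CovZ.n1 (10120, 24680) (by decide +kernel)
                (CovZ.leaf K2_ok TE_l15035 _)
                (CovZ.leaf K2_ok TE_l15036 _)))))))))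
        (CovZ.n1 (9920, 25280) (by decide +kernel)
         (CovZ.n2 (10240, 25280) (by decide +kernel)
          (CovZ.n2 (10080, 25120) (by decide +kernel)
           (CovZ.n2 (10080, 25280) (by decide +kernel)
            (CovZ.leaf K2_ok TE_l15037 _)
            (CovZ.leaf K2_ok TE_l15038 _))
           (CovZ.n1 (10240, 25120) (by decide +kernel)
            (CovZ.n2 (10160, 25040) (by decide +kernel)
             (CovZ.leaf K2_ok TE_l15039 _)
             (CovZ.leaf K2_ok TE_l15040 _))
            (CovZ.leaf K2_ok TE_l15041 _)))
          (CovZ.n1 (10080, 25440) (by decide +kernel)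
           (CovZ.leaf K2_ok TE_l15042 _)
           (CovZ.n1 (10080, 25280) (by decide +kernel)
            (CovZ.leaf K2_ok TE_l15043 _)
            (CovZ.leaf K2_ok TE_l15044 _))))
         (CovZ.n1 (9920, 24960) (by decide +kernel)
          (CovZ.n2 (9760, 25120) (by decide +kernel)
           (CovZ.leaf K2_ok TE_l15045 _)
           (CovZ.n1 (9760, 24960) (by decide +kernel)
            (CovZ.leaf K2_ok TE_l15046 _)
            (CovZ.leaf K2_ok TE_l15047 _)))
          (CovZ.n1 (10080, 25120) (by decide +kernel)
           (CovZ.n2 (10080, 24960) (by decide +kernel)
            (CovZ.leaf K2_ok TE_l15048 _)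
            (CovZ.n1 (10160, 25040) (by decide +kernel)
             (CovZ.leaf K2_ok TE_l15049 _)
             (CovZ.leaf K2_ok TE_l15050 _)))
           (CovZ.n1 (9920, 25120) (by decide +kernel)
            (CovZ.leaf K2_ok TE_l15051 _)
            (CovZ.leaf K2_ok TE_l15052 _))))))
       (CovZ.n1 (9600, 24320) (by decide +kernel)
        (CovZ.n2 (9280, 24640) (by decide +kernel)
         (CovZ.n2 (9600, 24640) (by decide +kernel)
          (CovZ.n2 (9440, 24480) (by decide +kernel)
           (CovZ.n2 (9440, 24640) (by decide +kernel)
            (CovZ.leaf K2_ok TE_l15053 _)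
            (CovZ.leaf K2_ok TE_l15054 _))
           (CovZ.n1 (9600, 24480) (by decide +kernel)
            (CovZ.n2 (9520, 24400) (by decide +kernel)
             (CovZ.leaf K2_ok TE_l15055 _)
             (CovZ.leaf K2_ok TE_l15056 _))
            (CovZ.leaf K2_ok TE_l15057 _)))
          (CovZ.n1 (9440, 24800) (by decide +kernel)
           (CovZ.leaf K2_ok TE_l15058 _)
           (CovZ.n1 (9440, 24640) (by decide +kernel)
            (CovZ.leaf K2_ok TE_l15059 _)
            (CovZ.leaf K2_ok TE_l15060 _))))
         (CovZ.n1 (9280, 24320) (by decide +kernel)
          (CovZ.n2 (9120, 24480) (by decide +kernel)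
           (CovZ.n2 (9280, 24480) (by decide +kernel)
            (CovZ.leaf K2_ok TE_l15061 _)
            (CovZ.leaf K2_ok TE_l15062 _))
           (CovZ.n1 (9120, 24320) (by decide +kernel)
            (CovZ.leaf K2_ok TE_l15063 _)
            (CovZ.leaf K2_ok TE_l15064 _)))
          (CovZ.n1 (9440, 24480) (by decide +kernel)
           (CovZ.n2 (9440, 24320) (by decide +kernel)
            (CovZ.leaf K2_ok TE_l15065 _)
            (CovZ.n1 (9520, 24400) (by decide +kernel)
             (CovZ.leaf K2_ok TE_l15066 _)
             (CovZ.leaf K2_ok TE_l15067 _)))
           (CovZ.n1 (9280, 24480) (by decide +kernel)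
            (CovZ.leaf K2_ok TE_l15068 _)
            (CovZ.leaf K2_ok TE_l15069 _)))))
        (CovZ.n1 (9920, 24640) (by decide +kernel)
         (CovZ.subM 365375409673340403475757663165889582389141242016 (by decide +kernel)
          (CovZ.n2 (9920, 24320) (by decide +kernel)
           (CovZ.n2 (9760, 24480) (by decide +kernel)
            (CovZ.n2 (9920, 24480) (by decide +kernel)
             (CovZ.n2 (9840, 24400) (by decide +kernel)
              (CovZ.n2 (9840, 24480) (by decide +kernel)
               (CovZ.n2 (9880, 24440) (by decide +kernel)
                (CovZ.leaf K2_ok TE_l15070 _)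
                (CovZ.leaf K2_ok TE_l15071 _))
               (CovZ.leaf K2_ok TE_l15072 _))
              (CovZ.n1 (9920, 24400) (by decide +kernel)
               (CovZ.badM (by decide +kernel))
               (CovZ.n1 (9880, 24440) (by decide +kernel)
                (CovZ.leaf K2_ok TE_l19345 _)
                (CovZ.leaf K2_ok TE_l19346 _))))
             (CovZ.n1 (9840, 24560) (by decide +kernel)
              (CovZ.n2 (9920, 24560) (by decide +kernel)
               (CovZ.n2 (9880, 24520) (by decide +kernel)
                (CovZ.leaf K2_ok TE_l15073 _)
                (CovZ.leaf K2_ok TE_l15074 _))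
               (CovZ.leaf K2_ok TE_l15075 _))
              (CovZ.n1 (9840, 24480) (by decide +kernel)
               (CovZ.leaf K2_ok TE_l15076 _)
               (CovZ.n1 (9880, 24520) (by decide +kernel)
                (CovZ.leaf K2_ok TE_l15077 _)
                (CovZ.leaf K2_ok TE_l15078 _)))))
            (CovZ.n1 (9760, 24320) (by decide +kernel)
             (CovZ.n2 (9680, 24400) (by decide +kernel)
              (CovZ.n2 (9760, 24400) (by decide +kernel)
               (CovZ.leaf K2_ok TE_l15079 _)
               (CovZ.leaf K2_ok TE_l15080 _))
              (CovZ.n1 (9680, 24320) (by decide +kernel)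
               (CovZ.leaf K2_ok TE_l15081 _)
               (CovZ.n1 (9720, 24360) (by decide +kernel)
                (CovZ.leaf K2_ok TE_l15082 _)
                (CovZ.leaf K2_ok TE_l15083 _))))
             (CovZ.n1 (9840, 24400) (by decide +kernel)
              (CovZ.badM (by decide +kernel))
              (CovZ.n1 (9760, 24400) (by decide +kernel)
               (CovZ.n2 (9800, 24440) (by decide +kernel)
                (CovZ.leaf K2_ok TE_l15084 _)
                (CovZ.leaf K2_ok TE_l15085 _))
               (CovZ.n1 (9800, 24360) (by decide +kernel)
                (CovZ.leaf K2_ok TE_l15086 _)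
                (CovZ.leaf K2_ok TE_l15087 _))))))
           (CovZ.n1 (10080, 24480) (by decide +kernel)
            (CovZ.badM (by decide +kernel))
            (CovZ.n1 (9920, 24480) (by decide +kernel)
             (CovZ.n2 (10000, 24560) (by decide +kernel)
              (CovZ.badM (by decide +kernel))
              (CovZ.n1 (9920, 24560) (by decide +kernel)
               (CovZ.n2 (9960, 24600) (by decide +kernel)
                (CovZ.leaf K2_ok TE_l15088 _)
                (CovZ.leaf K2_ok TE_l15089 _))
               (CovZ.n1 (9960, 24520) (by decide +kernel)
                (CovZ.leaf K2_ok TE_l15090 _)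
                (CovZ.leaf K2_ok TE_l15091 _))))
             (CovZ.badM (by decide +kernel))))))
         (CovZ.n1 (9600, 24640) (by decide +kernel)
          (CovZ.n2 (9760, 24800) (by decide +kernel)
           (CovZ.n2 (9760, 24640) (by decide +kernel)
            (CovZ.leaf K2_ok TE_l15092 _)
            (CovZ.n1 (9840, 24720) (by decide +kernel)
             (CovZ.leaf K2_ok TE_l15093 _)
             (CovZ.leaf K2_ok TE_l15094 _)))
           (CovZ.n1 (9600, 24800) (by decide +kernel)
            (CovZ.leaf K2_ok TE_l15095 _)
            (CovZ.leaf K2_ok TE_l15096 _)))
          (CovZ.n1 (9760, 24480) (by decide +kernel)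
           (CovZ.n2 (9600, 24480) (by decide +kernel)
            (CovZ.n2 (9680, 24560) (by decide +kernel)
             (CovZ.leaf K2_ok TE_l15097 _)
             (CovZ.leaf K2_ok TE_l15098 _))
            (CovZ.n1 (9680, 24400) (by decide +kernel)
             (CovZ.leaf K2_ok TE_l15099 _)
             (CovZ.n1 (9680, 24480) (by decide +kernel)
              (CovZ.leaf K2_ok TE_l15100 _)
              (CovZ.leaf K2_ok TE_l15101 _))))
           (CovZ.subM 340614673964450536243950996271930081313 (by decide +kernel)
            (CovZ.n1 (9760, 24640) (by decide +kernel)
             (CovZ.n2 (9840, 24560) (by decide +kernel)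
              (CovZ.leaf K2_ok TE_l15102 _)
              (CovZ.n1 (9840, 24640) (by decide +kernel)
               (CovZ.leaf K2_ok TE_l15103 _)
               (CovZ.leaf K2_ok TE_l15104 _)))
             (CovZ.n1 (9680, 24560) (by decide +kernel)
              (CovZ.leaf K2_ok TE_l15105 _)
              (CovZ.leaf K2_ok TE_l15106 _)))))))))

theorem TE_u35 : CovZ TE_M (toL (selN TE_LN 416850760102311587870232813646122836795317234530995732657)) [0, 7, 6, 1] (8960, 24320) (8320, 23680) (8960, 23040) :=
    (CovZ.n2 (8960, 23680) (by decide +kernel)
       (CovZ.n2 (8640, 23360) (by decide +kernel)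
        (CovZ.n2 (8640, 23680) (by decide +kernel)
         (CovZ.subM 1394137189584624084605891479924010362339488 (by decide +kernel)
          (CovZ.n2 (8800, 23520) (by decide +kernel)
           (CovZ.n2 (8640, 23520) (by decide +kernel)
            (CovZ.n2 (8720, 23600) (by decide +kernel)
             (CovZ.leaf K2_ok TE_l15107 _)
             (CovZ.leaf K2_ok TE_l15108 _))
            (CovZ.n1 (8720, 23440) (by decide +kernel)
             (CovZ.n2 (8640, 23440) (by decide +kernel)
              (CovZ.leaf K2_ok TE_l15109 _)
              (CovZ.leaf K2_ok TE_l15110 _))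
             (CovZ.n1 (8720, 23520) (by decide +kernel)
              (CovZ.leaf K2_ok TE_l15111 _)
              (CovZ.leaf K2_ok TE_l15112 _))))
           (CovZ.n1 (8800, 23680) (by decide +kernel)
            (CovZ.n2 (8880, 23600) (by decide +kernel)
             (CovZ.n2 (8800, 23600) (by decide +kernel)
              (CovZ.leaf K2_ok TE_l15113 _)
              (CovZ.leaf K2_ok TE_l15114 _))
             (CovZ.n1 (8880, 23680) (by decide +kernel)
              (CovZ.leaf K2_ok TE_l15115 _)
              (CovZ.leaf K2_ok TE_l15116 _)))
            (CovZ.n1 (8720, 23600) (by decide +kernel)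
             (CovZ.leaf K2_ok TE_l15117 _)
             (CovZ.leaf K2_ok TE_l15118 _)))))
         (CovZ.n1 (8480, 23520) (by decide +kernel)
          (CovZ.n2 (8480, 23680) (by decide +kernel)
           (CovZ.leaf K2_ok TE_l15119 _)
           (CovZ.leaf K2_ok TE_l15120 _))
          (CovZ.n1 (8640, 23520) (by decide +kernel)
           (CovZ.n2 (8560, 23440) (by decide +kernel)
            (CovZ.leaf K2_ok TE_l15121 _)
            (CovZ.leaf K2_ok TE_l15122 _))
           (CovZ.leaf K2_ok TE_l15123 _))))
        (CovZ.subM 340614673924837059452629076096315293856 (by decide +kernel)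
         (CovZ.n1 (8960, 23360) (by decide +kernel)
          (CovZ.n2 (8800, 23200) (by decide +kernel)
           (CovZ.n2 (8800, 23360) (by decide +kernel)
            (CovZ.badM (by decide +kernel))
            (CovZ.n1 (8720, 23280) (by decide +kernel)
             (CovZ.n2 (8720, 23360) (by decide +kernel)
              (CovZ.n2 (8760, 23320) (by decide +kernel)
               (CovZ.leaf K2_ok TE_l15124 _)
               (CovZ.leaf K2_ok TE_l15125 _))
              (CovZ.leaf K2_ok TE_l15126 _))
             (CovZ.badM (by decide +kernel))))
           (CovZ.badM (by decide +kernel)))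
          (CovZ.n1 (8800, 23520) (by decide +kernel)
           (CovZ.n2 (8960, 23520) (by decide +kernel)
            (CovZ.n2 (8880, 23440) (by decide +kernel)
             (CovZ.n2 (8880, 23520) (by decide +kernel)
              (CovZ.n2 (8920, 23480) (by decide +kernel)
               (CovZ.leaf K2_ok TE_l15127 _)
               (CovZ.leaf K2_ok TE_l15128 _))
              (CovZ.n1 (8840, 23480) (by decide +kernel)
               (CovZ.leaf K2_ok TE_l15129 _)
               (CovZ.leaf K2_ok TE_l15130 _)))
             (CovZ.badM (by decide +kernel)))
            (CovZ.n1 (8880, 23600) (by decide +kernel)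
             (CovZ.n2 (8960, 23600) (by decide +kernel)
              (CovZ.leaf K2_ok TE_l15133 _)
              (CovZ.leaf K2_ok TE_l15134 _))
             (CovZ.n1 (8880, 23520) (by decide +kernel)
              (CovZ.leaf K2_ok TE_l15135 _)
              (CovZ.n1 (8920, 23560) (by decide +kernel)
               (CovZ.leaf K2_ok TE_l15136 _)
               (CovZ.leaf K2_ok TE_l15137 _)))))
           (CovZ.n1 (8800, 23360) (by decide +kernel)
            (CovZ.n2 (8720, 23440) (by decide +kernel)
             (CovZ.n2 (8800, 23440) (by decide +kernel)
              (CovZ.leaf K2_ok TE_l15138 _)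
              (CovZ.leaf K2_ok TE_l15139 _))
             (CovZ.n1 (8720, 23360) (by decide +kernel)
              (CovZ.leaf K2_ok TE_l15140 _)
              (CovZ.n1 (8760, 23400) (by decide +kernel)
               (CovZ.leaf K2_ok TE_l15141 _)
               (CovZ.leaf K2_ok TE_l15142 _))))
            (CovZ.n1 (8880, 23440) (by decide +kernel)
             (CovZ.badM (by decide +kernel))
             (CovZ.n1 (8800, 23440) (by decide +kernel)
              (CovZ.n2 (8840, 23480) (by decide +kernel)
               (CovZ.leaf K2_ok TE_l15143 _)
               (CovZ.leaf K2_ok TE_l15144 _))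
              (CovZ.n1 (8840, 23400) (by decide +kernel)
               (CovZ.leaf K2_ok TE_l15145 _)
               (CovZ.leaf K2_ok TE_l15146 _)))))))))
       (CovZ.n1 (8640, 24000) (by decide +kernel)
        (CovZ.n2 (8960, 24000) (by decide +kernel)
         (CovZ.subM 11972986789818396762419725936933929922110570947936417 (by decide +kernel)
          (CovZ.n2 (8800, 23840) (by decide +kernel)
           (CovZ.n2 (8800, 24000) (by decide +kernel)
            (CovZ.leaf K2_ok TE_l15147 _)
            (CovZ.leaf K2_ok TE_l15148 _))
           (CovZ.n1 (8960, 23840) (by decide +kernel)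
            (CovZ.n2 (8880, 23760) (by decide +kernel)
             (CovZ.leaf K2_ok TE_l15149 _)
             (CovZ.leaf K2_ok TE_l15150 _))
            (CovZ.leaf K2_ok TE_l15151 _))))
         (CovZ.n1 (8800, 24160) (by decide +kernel)
          (CovZ.n2 (8960, 24160) (by decide +kernel)
           (CovZ.leaf K2_ok TE_l15152 _)
           (CovZ.leaf K2_ok TE_l15153 _))
          (CovZ.n1 (8800, 24000) (by decide +kernel)
           (CovZ.leaf K2_ok TE_l15154 _)
           (CovZ.leaf K2_ok TE_l15155 _))))
        (CovZ.n1 (8640, 23680) (by decide +kernel)
         (CovZ.n2 (8480, 23840) (by decide +kernel)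
          (CovZ.n2 (8640, 23840) (by decide +kernel)
           (CovZ.leaf K2_ok TE_l15156 _)
           (CovZ.leaf K2_ok TE_l15157 _))
          (CovZ.n1 (8480, 23680) (by decide +kernel)
           (CovZ.leaf K2_ok TE_l15158 _)
           (CovZ.leaf K2_ok TE_l15159 _)))
         (CovZ.subM 11972986789818226621236225854225404588906126256373921 (by decide +kernel)
          (CovZ.n1 (8800, 23840) (by decide +kernel)
           (CovZ.n2 (8800, 23680) (by decide +kernel)
            (CovZ.leaf K2_ok TE_l15160 _)
            (CovZ.n1 (8880, 23760) (by decide +kernel)
             (CovZ.leaf K2_ok TE_l15161 _)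
             (CovZ.leaf K2_ok TE_l15162 _)))
           (CovZ.n1 (8640, 23840) (by decide +kernel)
            (CovZ.leaf K2_ok TE_l15163 _)
            (CovZ.leaf K2_ok TE_l15164 _)))))))

theorem TE_u36 : CovZ TE_M (toL (selN TE_LN 416850760102311587870232813646122836795317234530995732657)) [0, 7, 6, 1] (8320, 23680) (7680, 23040) (8960, 23040) :=
    (CovZ.n1 (8320, 23040) (by decide +kernel)
       (CovZ.n2 (8000, 23360) (by decide +kernel)
        (CovZ.n2 (8320, 23360) (by decide +kernel)
         (CovZ.n2 (8160, 23200) (by decide +kernel)
          (CovZ.n2 (8160, 23360) (by decide +kernel)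
           (CovZ.leaf K2_ok TE_l15165 _)
           (CovZ.leaf K2_ok TE_l15166 _))
          (CovZ.n1 (8320, 23200) (by decide +kernel)
           (CovZ.n2 (8240, 23120) (by decide +kernel)
            (CovZ.leaf K2_ok TE_l15167 _)
            (CovZ.leaf K2_ok TE_l15168 _))
           (CovZ.leaf K2_ok TE_l15169 _)))
         (CovZ.n1 (8160, 23520) (by decide +kernel)
          (CovZ.n2 (8320, 23520) (by decide +kernel)
           (CovZ.leaf K2_ok TE_l15170 _)
           (CovZ.leaf K2_ok TE_l15171 _))
          (CovZ.n1 (8160, 23360) (by decide +kernel)
           (CovZ.leaf K2_ok TE_l15172 _)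
           (CovZ.leaf K2_ok TE_l15173 _))))
        (CovZ.n1 (8000, 23040) (by decide +kernel)
         (CovZ.n2 (7840, 23200) (by decide +kernel)
          (CovZ.n2 (8000, 23200) (by decide +kernel)
           (CovZ.leaf K2_ok TE_l15174 _)
           (CovZ.leaf K2_ok TE_l15175 _))
          (CovZ.n1 (7840, 23040) (by decide +kernel)
           (CovZ.leaf K2_ok TE_l15176 _)
           (CovZ.leaf K2_ok TE_l15177 _)))
         (CovZ.n1 (8160, 23200) (by decide +kernel)
          (CovZ.n2 (8160, 23040) (by decide +kernel)
           (CovZ.leaf K2_ok TE_l15178 _)
           (CovZ.n1 (8240, 23120) (by decide +kernel)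
            (CovZ.leaf K2_ok TE_l15179 _)
            (CovZ.leaf K2_ok TE_l15180 _)))
          (CovZ.n1 (8000, 23200) (by decide +kernel)
           (CovZ.leaf K2_ok TE_l15181 _)
           (CovZ.leaf K2_ok TE_l15182 _)))))
       (CovZ.n1 (8640, 23360) (by decide +kernel)
        (CovZ.subM 1394137189584624084605889155925865150808224 (by decide +kernel)
         (CovZ.n2 (8640, 23040) (by decide +kernel)
          (CovZ.n2 (8480, 23200) (by decide +kernel)
           (CovZ.n2 (8640, 23200) (by decide +kernel)
            (CovZ.n2 (8560, 23120) (by decide +kernel)
             (CovZ.n2 (8560, 23200) (by decide +kernel)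
              (CovZ.n2 (8600, 23160) (by decide +kernel)
               (CovZ.leaf K2_ok TE_l15183 _)
               (CovZ.leaf K2_ok TE_l15184 _))
              (CovZ.n1 (8520, 23160) (by decide +kernel)
               (CovZ.leaf K2_ok TE_l15185 _)
               (CovZ.leaf K2_ok TE_l15186 _)))
             (CovZ.badM (by decide +kernel)))
            (CovZ.n1 (8560, 23280) (by decide +kernel)
             (CovZ.n2 (8640, 23280) (by decide +kernel)
              (CovZ.n2 (8600, 23240) (by decide +kernel)
               (CovZ.leaf K2_ok TE_l15187 _)
               (CovZ.leaf K2_ok TE_l15188 _))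
              (CovZ.leaf K2_ok TE_l15189 _))
             (CovZ.n1 (8560, 23200) (by decide +kernel)
              (CovZ.leaf K2_ok TE_l15190 _)
              (CovZ.n1 (8600, 23240) (by decide +kernel)
               (CovZ.leaf K2_ok TE_l15191 _)
               (CovZ.leaf K2_ok TE_l15192 _)))))
           (CovZ.n1 (8480, 23040) (by decide +kernel)
            (CovZ.n2 (8400, 23120) (by decide +kernel)
             (CovZ.n2 (8480, 23120) (by decide +kernel)
              (CovZ.leaf K2_ok TE_l15193 _)
              (CovZ.leaf K2_ok TE_l15194 _))
             (CovZ.n1 (8400, 23040) (by decide +kernel)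
              (CovZ.leaf K2_ok TE_l15195 _)
              (CovZ.n1 (8440, 23080) (by decide +kernel)
               (CovZ.leaf K2_ok TE_l15196 _)
               (CovZ.leaf K2_ok TE_l15197 _))))
            (CovZ.n1 (8560, 23120) (by decide +kernel)
             (CovZ.badM (by decide +kernel))
             (CovZ.n1 (8480, 23120) (by decide +kernel)
              (CovZ.leaf K2_ok TE_l15198 _)
              (CovZ.n1 (8520, 23080) (by decide +kernel)
               (CovZ.leaf K2_ok TE_l15199 _)
               (CovZ.leaf K2_ok TE_l15200 _))))))
          (CovZ.n1 (8800, 23200) (by decide +kernel)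
           (CovZ.badM (by decide +kernel))
           (CovZ.n1 (8640, 23200) (by decide +kernel)
            (CovZ.n2 (8720, 23280) (by decide +kernel)
             (CovZ.badM (by decide +kernel))
             (CovZ.n1 (8640, 23280) (by decide +kernel)
              (CovZ.n2 (8680, 23320) (by decide +kernel)
               (CovZ.leaf K2_ok TE_l15202 _)
               (CovZ.leaf K2_ok TE_l15203 _))
              (CovZ.n1 (8680, 23240) (by decide +kernel)
               (CovZ.leaf K2_ok TE_l15204 _)
               (CovZ.leaf K2_ok TE_l15205 _))))
            (CovZ.badM (by decide +kernel))))))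
        (CovZ.n1 (8320, 23360) (by decide +kernel)
         (CovZ.n2 (8480, 23520) (by decide +kernel)
          (CovZ.n2 (8480, 23360) (by decide +kernel)
           (CovZ.leaf K2_ok TE_l15206 _)
           (CovZ.n1 (8560, 23440) (by decide +kernel)
            (CovZ.leaf K2_ok TE_l15207 _)
            (CovZ.leaf K2_ok TE_l15208 _)))
          (CovZ.n1 (8320, 23520) (by decide +kernel)
           (CovZ.leaf K2_ok TE_l15209 _)
           (CovZ.leaf K2_ok TE_l15210 _)))
         (CovZ.subM 1394137189584624084605891479783272873984160 (by decide +kernel)
          (CovZ.n1 (8480, 23200) (by decide +kernel)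
           (CovZ.n2 (8320, 23200) (by decide +kernel)
            (CovZ.n2 (8400, 23280) (by decide +kernel)
             (CovZ.leaf K2_ok TE_l15211 _)
             (CovZ.leaf K2_ok TE_l15212 _))
            (CovZ.n1 (8400, 23120) (by decide +kernel)
             (CovZ.n2 (8320, 23120) (by decide +kernel)
              (CovZ.leaf K2_ok TE_l15213 _)
              (CovZ.leaf K2_ok TE_l15214 _))
             (CovZ.n1 (8400, 23200) (by decide +kernel)
              (CovZ.leaf K2_ok TE_l15215 _)
              (CovZ.leaf K2_ok TE_l15216 _))))
           (CovZ.n1 (8480, 23360) (by decide +kernel)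
            (CovZ.n2 (8560, 23280) (by decide +kernel)
             (CovZ.n2 (8480, 23280) (by decide +kernel)
              (CovZ.leaf K2_ok TE_l15217 _)
              (CovZ.leaf K2_ok TE_l15218 _))
             (CovZ.n1 (8560, 23360) (by decide +kernel)
              (CovZ.leaf K2_ok TE_l15219 _)
              (CovZ.leaf K2_ok TE_l15220 _)))
            (CovZ.n1 (8400, 23280) (by decide +kernel)
             (CovZ.leaf K2_ok TE_l15221 _)
             (CovZ.leaf K2_ok TE_l15222 _))))))))

theorem TE_u37 : CovZ TE_M (toL (selN TE_LN 11972986788424430046328101521356214671683094795321521)) [0, 7, 6, 1] (10240, 23040) (11520, 24320) (10240, 25600) :=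
    (CovZ.n2 (10240, 24320) (by decide +kernel)
     (CovZ.n2 (10880, 24960) (by decide +kernel)
      (CovZ.badM (by decide +kernel))
      (CovZ.n1 (10240, 24960) (by decide +kernel)
       (CovZ.n2 (10560, 25280) (by decide +kernel)
        (CovZ.subM 332307003897991523444202451203260449 (by decide +kernel)
         (CovZ.n2 (10560, 24960) (by decide +kernel)
          (CovZ.n2 (10400, 25120) (by decide +kernel)
           (CovZ.n2 (10560, 25120) (by decide +kernel)
            (CovZ.n2 (10480, 25040) (by decide +kernel)
             (CovZ.n2 (10480, 25120) (by decide +kernel)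
              (CovZ.n2 (10520, 25080) (by decide +kernel)
               (CovZ.leaf K2_ok TE_l15511 _)
               (CovZ.leaf K2_ok TE_l15512 _))
              (CovZ.leaf K2_ok TE_l15513 _))
             (CovZ.badM (by decide +kernel)))
            (CovZ.n1 (10480, 25200) (by decide +kernel)
             (CovZ.n2 (10560, 25200) (by decide +kernel)
              (CovZ.leaf K2_ok TE_l15515 _)
              (CovZ.leaf K2_ok TE_l15516 _))
             (CovZ.n1 (10480, 25120) (by decide +kernel)
              (CovZ.leaf K2_ok TE_l15517 _)
              (CovZ.n1 (10520, 25160) (by decide +kernel)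
               (CovZ.leaf K2_ok TE_l15518 _)
               (CovZ.leaf K2_ok TE_l15519 _)))))
           (CovZ.n1 (10400, 24960) (by decide +kernel)
            (CovZ.n2 (10320, 25040) (by decide +kernel)
             (CovZ.n2 (10400, 25040) (by decide +kernel)
              (CovZ.leaf K2_ok TE_l15520 _)
              (CovZ.leaf K2_ok TE_l15521 _))
             (CovZ.n1 (10320, 24960) (by decide +kernel)
              (CovZ.leaf K2_ok TE_l15522 _)
              (CovZ.n1 (10360, 25000) (by decide +kernel)
               (CovZ.leaf K2_ok TE_l15523 _)
               (CovZ.leaf K2_ok TE_l15524 _))))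
            (CovZ.n1 (10480, 25040) (by decide +kernel)
             (CovZ.badM (by decide +kernel))
             (CovZ.n1 (10400, 25040) (by decide +kernel)
              (CovZ.n2 (10440, 25080) (by decide +kernel)
               (CovZ.leaf K2_ok TE_l15525 _)
               (CovZ.leaf K2_ok TE_l15526 _))
              (CovZ.n1 (10440, 25000) (by decide +kernel)
               (CovZ.leaf K2_ok TE_l15527 _)
               (CovZ.leaf K2_ok TE_l15528 _))))))
          (CovZ.n1 (10720, 25120) (by decide +kernel)
           (CovZ.badM (by decide +kernel))
           (CovZ.n1 (10560, 25120) (by decide +kernel)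
            (CovZ.n2 (10640, 25200) (by decide +kernel)
             (CovZ.badM (by decide +kernel))
             (CovZ.n1 (10560, 25200) (by decide +kernel)
              (CovZ.n2 (10600, 25240) (by decide +kernel)
               (CovZ.leaf K2_ok TE_l15531 _)
               (CovZ.leaf K2_ok TE_l15532 _))
              (CovZ.n1 (10600, 25160) (by decide +kernel)
               (CovZ.leaf K2_ok TE_l15533 _)
               (CovZ.leaf K2_ok TE_l15534 _))))
            (CovZ.badM (by decide +kernel))))))
        (CovZ.n1 (10240, 25280) (by decide +kernel)
         (CovZ.n2 (10400, 25440) (by decide +kernel)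
          (CovZ.n2 (10400, 25280) (by decide +kernel)
           (CovZ.leaf K2_ok TE_l15536 _)
           (CovZ.n1 (10480, 25360) (by decide +kernel)
            (CovZ.leaf K2_ok TE_l15537 _)
            (CovZ.leaf K2_ok TE_l15538 _)))
          (CovZ.n1 (10240, 25440) (by decide +kernel)
           (CovZ.leaf K2_ok TE_l15539 _)
           (CovZ.leaf K2_ok TE_l15540 _)))
         (CovZ.subM 11972621413014757038231629661684571073394846390550561 (by decide +kernel)
          (CovZ.n1 (10400, 25120) (by decide +kernel)
           (CovZ.n2 (10240, 25120) (by decide +kernel)
            (CovZ.n2 (10320, 25200) (by decide +kernel)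
             (CovZ.leaf K2_ok TE_l15541 _)
             (CovZ.leaf K2_ok TE_l15542 _))
            (CovZ.n1 (10320, 25040) (by decide +kernel)
             (CovZ.leaf K2_ok TE_l15543 _)
             (CovZ.n1 (10320, 25120) (by decide +kernel)
              (CovZ.leaf K2_ok TE_l15544 _)
              (CovZ.leaf K2_ok TE_l15545 _))))
           (CovZ.n1 (10400, 25280) (by decide +kernel)
            (CovZ.n2 (10480, 25200) (by decide +kernel)
             (CovZ.leaf K2_ok TE_l15546 _)
             (CovZ.n1 (10480, 25280) (by decide +kernel)
              (CovZ.leaf K2_ok TE_l15547 _)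
              (CovZ.leaf K2_ok TE_l15548 _)))
            (CovZ.n1 (10320, 25200) (by decide +kernel)
             (CovZ.leaf K2_ok TE_l15549 _)
             (CovZ.leaf K2_ok TE_l15550 _)))))))
       (CovZ.subM 340614673924836454987971731387578318880 (by decide +kernel)
        (CovZ.n1 (10560, 24640) (by decide +kernel)
         (CovZ.n2 (10240, 24640) (by decide +kernel)
          (CovZ.n2 (10400, 24800) (by decide +kernel)
           (CovZ.badM (by decide +kernel))
           (CovZ.n1 (10240, 24800) (by decide +kernel)
            (CovZ.n2 (10320, 24880) (by decide +kernel)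
             (CovZ.subM 1152921504606846976 (by decide +kernel)
              (CovZ.n2 (10320, 24800) (by decide +kernel)
               (CovZ.n2 (10280, 24840) (by decide +kernel)
                (CovZ.leaf K2_ok TE_l15551 _)
                (CovZ.leaf K2_ok TE_l15552 _))
               (CovZ.n1 (10360, 24840) (by decide +kernel)
                (CovZ.badM (by decide +kernel))
                (CovZ.leaf K2_ok TE_l19437 _))))
             (CovZ.n1 (10240, 24880) (by decide +kernel)
              (CovZ.leaf K2_ok TE_l15553 _)
              (CovZ.n1 (10280, 24840) (by decide +kernel)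
               (CovZ.leaf K2_ok TE_l15554 _)
               (CovZ.leaf K2_ok TE_l15555 _))))
            (CovZ.badM (by decide +kernel))))
          (CovZ.badM (by decide +kernel)))
         (CovZ.n1 (10560, 24960) (by decide +kernel)
          (CovZ.badM (by decide +kernel))
          (CovZ.n1 (10400, 24800) (by decide +kernel)
           (CovZ.n2 (10400, 24960) (by decide +kernel)
            (CovZ.badM (by decide +kernel))
            (CovZ.n1 (10320, 24880) (by decide +kernel)
             (CovZ.n2 (10320, 24960) (by decide +kernel)
              (CovZ.n2 (10360, 24920) (by decide +kernel)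
               (CovZ.leaf K2_ok TE_l15556 _)
               (CovZ.leaf K2_ok TE_l15557 _))
              (CovZ.leaf K2_ok TE_l15558 _))
             (CovZ.badM (by decide +kernel))))
           (CovZ.badM (by decide +kernel))))))))
     (CovZ.subM 16 (by decide +kernel)
      (CovZ.n1 (10880, 23680) (by decide +kernel)
       (CovZ.n2 (10240, 23680) (by decide +kernel)
        (CovZ.badM (by decide +kernel))
        (CovZ.n1 (10560, 23360) (by decide +kernel)
         (CovZ.badM (by decide +kernel))
         (CovZ.badM (by decide +kernel))))
       (CovZ.badM (by decide +kernel)))))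

theorem TE_u38 : CovZ TE_M (toL (selN TE_LN 11972986788424430046328101521356214671683094795321521)) [0, 7, 6, 1] (11520, 24320) (12800, 25600) (10240, 25600) :=
    (CovZ.n1 (11520, 25600) (by decide +kernel)
     (CovZ.badM (by decide +kernel))
     (CovZ.n1 (10880, 24960) (by decide +kernel)
      (CovZ.n2 (10880, 25600) (by decide +kernel)
       (CovZ.subM 332307003897991523444202451203260449 (by decide +kernel)
        (CovZ.n2 (11200, 25280) (by decide +kernel)
         (CovZ.n2 (10880, 25280) (by decide +kernel)
          (CovZ.n2 (11040, 25440) (by decide +kernel)
           (CovZ.badM (by decide +kernel))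
           (CovZ.n1 (10880, 25440) (by decide +kernel)
            (CovZ.n2 (10960, 25520) (by decide +kernel)
             (CovZ.badM (by decide +kernel))
             (CovZ.n1 (10880, 25520) (by decide +kernel)
              (CovZ.n2 (10920, 25560) (by decide +kernel)
               (CovZ.leaf K2_ok TE_l15559 _)
               (CovZ.leaf K2_ok TE_l15560 _))
              (CovZ.n1 (10920, 25480) (by decide +kernel)
               (CovZ.leaf K2_ok TE_l15561 _)
               (CovZ.leaf K2_ok TE_l15562 _))))
            (CovZ.badM (by decide +kernel))))
          (CovZ.badM (by decide +kernel)))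
         (CovZ.n1 (11200, 25600) (by decide +kernel)
          (CovZ.badM (by decide +kernel))
          (CovZ.n1 (11040, 25440) (by decide +kernel)
           (CovZ.n2 (11040, 25600) (by decide +kernel)
            (CovZ.n2 (11120, 25520) (by decide +kernel)
             (CovZ.n2 (11040, 25520) (by decide +kernel)
              (CovZ.badM (by decide +kernel))
              (CovZ.badM (by decide +kernel)))
             (CovZ.badM (by decide +kernel)))
            (CovZ.n1 (10960, 25520) (by decide +kernel)
             (CovZ.n2 (10960, 25600) (by decide +kernel)
              (CovZ.n2 (11000, 25560) (by decide +kernel)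
               (CovZ.leaf K2_ok TE_l15563 _)
               (CovZ.leaf K2_ok TE_l15564 _))
              (CovZ.leaf K2_ok TE_l15565 _))
             (CovZ.n1 (11040, 25520) (by decide +kernel)
              (CovZ.badM (by decide +kernel))
              (CovZ.badM (by decide +kernel)))))
           (CovZ.badM (by decide +kernel))))))
       (CovZ.n1 (10560, 25280) (by decide +kernel)
        (CovZ.subM 11972621413014757038231629661684571073394846390550561 (by decide +kernel)
         (CovZ.n2 (10560, 25600) (by decide +kernel)
          (CovZ.n2 (10720, 25440) (by decide +kernel)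
           (CovZ.n2 (10560, 25440) (by decide +kernel)
            (CovZ.n2 (10640, 25520) (by decide +kernel)
             (CovZ.leaf K2_ok TE_l15566 _)
             (CovZ.leaf K2_ok TE_l15567 _))
            (CovZ.n1 (10640, 25360) (by decide +kernel)
             (CovZ.leaf K2_ok TE_l15568 _)
             (CovZ.n1 (10640, 25440) (by decide +kernel)
              (CovZ.leaf K2_ok TE_l15569 _)
              (CovZ.leaf K2_ok TE_l15570 _))))
           (CovZ.n1 (10720, 25600) (by decide +kernel)
            (CovZ.n2 (10800, 25520) (by decide +kernel)
             (CovZ.leaf K2_ok TE_l15571 _)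
             (CovZ.n1 (10800, 25600) (by decide +kernel)
              (CovZ.leaf K2_ok TE_l15572 _)
              (CovZ.leaf K2_ok TE_l15573 _)))
            (CovZ.n1 (10640, 25520) (by decide +kernel)
             (CovZ.leaf K2_ok TE_l15574 _)
             (CovZ.leaf K2_ok TE_l15575 _))))
          (CovZ.n1 (10400, 25440) (by decide +kernel)
           (CovZ.n2 (10400, 25600) (by decide +kernel)
            (CovZ.leaf K2_ok TE_l15576 _)
            (CovZ.leaf K2_ok TE_l15577 _))
           (CovZ.n1 (10560, 25440) (by decide +kernel)
            (CovZ.n2 (10480, 25360) (by decide +kernel)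
             (CovZ.leaf K2_ok TE_l15578 _)
             (CovZ.leaf K2_ok TE_l15579 _))
            (CovZ.leaf K2_ok TE_l15580 _)))))
        (CovZ.subM 332307003897991523444202451203260449 (by decide +kernel)
         (CovZ.n1 (10880, 25280) (by decide +kernel)
          (CovZ.n2 (10720, 25120) (by decide +kernel)
           (CovZ.n2 (10720, 25280) (by decide +kernel)
            (CovZ.badM (by decide +kernel))
            (CovZ.n1 (10640, 25200) (by decide +kernel)
             (CovZ.n2 (10640, 25280) (by decide +kernel)
              (CovZ.n2 (10680, 25240) (by decide +kernel)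
               (CovZ.leaf K2_ok TE_l15581 _)
               (CovZ.leaf K2_ok TE_l15582 _))
              (CovZ.leaf K2_ok TE_l15583 _))
             (CovZ.badM (by decide +kernel))))
           (CovZ.badM (by decide +kernel)))
          (CovZ.n1 (10720, 25440) (by decide +kernel)
           (CovZ.n2 (10880, 25440) (by decide +kernel)
            (CovZ.n2 (10800, 25360) (by decide +kernel)
             (CovZ.n2 (10800, 25440) (by decide +kernel)
              (CovZ.n2 (10840, 25400) (by decide +kernel)
               (CovZ.leaf K2_ok TE_l15584 _)
               (CovZ.leaf K2_ok TE_l15585 _))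
              (CovZ.n1 (10760, 25400) (by decide +kernel)
               (CovZ.leaf K2_ok TE_l15586 _)
               (CovZ.leaf K2_ok TE_l15587 _)))
             (CovZ.badM (by decide +kernel)))
            (CovZ.n1 (10800, 25520) (by decide +kernel)
             (CovZ.n2 (10880, 25520) (by decide +kernel)
              (CovZ.leaf K2_ok TE_l15588 _)
              (CovZ.leaf K2_ok TE_l15589 _))
             (CovZ.n1 (10800, 25440) (by decide +kernel)
              (CovZ.leaf K2_ok TE_l15590 _)
              (CovZ.leaf K2_ok TE_l15591 _))))
           (CovZ.n1 (10720, 25280) (by decide +kernel)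
            (CovZ.n2 (10640, 25360) (by decide +kernel)
             (CovZ.n2 (10720, 25360) (by decide +kernel)
              (CovZ.leaf K2_ok TE_l15592 _)
              (CovZ.leaf K2_ok TE_l15593 _))
             (CovZ.n1 (10640, 25280) (by decide +kernel)
              (CovZ.leaf K2_ok TE_l15594 _)
              (CovZ.n1 (10680, 25320) (by decide +kernel)
               (CovZ.leaf K2_ok TE_l15595 _)
               (CovZ.leaf K2_ok TE_l15596 _))))
            (CovZ.n1 (10800, 25360) (by decide +kernel)
             (CovZ.badM (by decide +kernel))
             (CovZ.n1 (10720, 25360) (by decide +kernel)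
              (CovZ.n2 (10760, 25400) (by decide +kernel)
               (CovZ.leaf K2_ok TE_l15597 _)
               (CovZ.leaf K2_ok TE_l15598 _))
              (CovZ.n1 (10760, 25320) (by decide +kernel)
               (CovZ.leaf K2_ok TE_l15599 _)
               (CovZ.leaf K2_ok TE_l15600 _))))))))))
      (CovZ.badM (by decide +kernel))))

theorem TE_u39 : CovZ TE_M (toL (selN TE_LN 25122199407995357248419059763261755272496521352250489044992)) [0, 7, 6, 1] (0, 28160) (-320, 27840) (0, 27520) :=
    (CovZ.n2 (0, 27840) (by decide +kernel)
         (CovZ.subM 5846095752304436949328617051524395993177937412096 (by decide +kernel)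
          (CovZ.n2 (-160, 27680) (by decide +kernel)
           (CovZ.n2 (-160, 27840) (by decide +kernel)
            (CovZ.n2 (-80, 27760) (by decide +kernel)
             (CovZ.n2 (-160, 27760) (by decide +kernel)
              (CovZ.n2 (-120, 27800) (by decide +kernel)
               (CovZ.leaf K2_ok TE_l867 _)
               (CovZ.leaf K2_ok TE_l868 _))
              (CovZ.leaf K2_ok TE_l869 _))
             (CovZ.n1 (-80, 27840) (by decide +kernel)
              (CovZ.leaf K2_ok TE_l870 _)
              (CovZ.n1 (-120, 27800) (by decide +kernel)
               (CovZ.leaf K2_ok TE_l871 _)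
               (CovZ.leaf K2_ok TE_l872 _))))
            (CovZ.n1 (-240, 27760) (by decide +kernel)
             (CovZ.n2 (-240, 27840) (by decide +kernel)
              (CovZ.leaf K2_ok TE_l873 _)
              (CovZ.n1 (-280, 27800) (by decide +kernel)
               (CovZ.leaf K2_ok TE_l874 _)
               (CovZ.leaf K2_ok TE_l875 _)))
             (CovZ.n1 (-160, 27760) (by decide +kernel)
              (CovZ.n2 (-200, 27720) (by decide +kernel)
               (CovZ.leaf K2_ok TE_l876 _)
               (CovZ.leaf K2_ok TE_l877 _))
              (CovZ.leaf K2_ok TE_l878 _))))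
           (CovZ.n1 (0, 27680) (by decide +kernel)
            (CovZ.n2 (-80, 27600) (by decide +kernel)
             (CovZ.n2 (-80, 27680) (by decide +kernel)
              (CovZ.n2 (-40, 27640) (by decide +kernel)
               (CovZ.leaf K2_ok TE_l879 _)
               (CovZ.leaf K2_ok TE_l880 _))
              (CovZ.n1 (-120, 27640) (by decide +kernel)
               (CovZ.leaf K2_ok TE_l881 _)
               (CovZ.leaf K2_ok TE_l882 _)))
             (CovZ.n1 (0, 27600) (by decide +kernel)
              (CovZ.n2 (-40, 27560) (by decide +kernel)
               (CovZ.leaf K2_ok TE_l883 _)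
               (CovZ.n1 (0, 27560) (by decide +kernel)
                (CovZ.leaf K2_ok TE_l884 _)
                (CovZ.leaf K2_ok TE_l885 _)))
              (CovZ.n1 (-40, 27640) (by decide +kernel)
               (CovZ.leaf K2_ok TE_l886 _)
               (CovZ.leaf K2_ok TE_l887 _))))
            (CovZ.n1 (-80, 27760) (by decide +kernel)
             (CovZ.n2 (0, 27760) (by decide +kernel)
              (CovZ.n2 (-40, 27720) (by decide +kernel)
               (CovZ.leaf K2_ok TE_l888 _)
               (CovZ.leaf K2_ok TE_l889 _))
              (CovZ.leaf K2_ok TE_l890 _))
             (CovZ.n1 (-80, 27680) (by decide +kernel)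
              (CovZ.n2 (-120, 27720) (by decide +kernel)
               (CovZ.leaf K2_ok TE_l891 _)
               (CovZ.leaf K2_ok TE_l892 _))
              (CovZ.n1 (-40, 27720) (by decide +kernel)
               (CovZ.leaf K2_ok TE_l893 _)
               (CovZ.leaf K2_ok TE_l894 _)))))))
         (CovZ.n1 (-160, 28000) (by decide +kernel)
          (CovZ.n2 (0, 28000) (by decide +kernel)
           (CovZ.n2 (-80, 27920) (by decide +kernel)
            (CovZ.n2 (-80, 28000) (by decide +kernel)
             (CovZ.leaf K2_ok TE_l895 _)
             (CovZ.leaf K2_ok TE_l896 _))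
            (CovZ.n1 (0, 27920) (by decide +kernel)
             (CovZ.n2 (-40, 27880) (by decide +kernel)
              (CovZ.leaf K2_ok TE_l897 _)
              (CovZ.leaf K2_ok TE_l898 _))
             (CovZ.leaf K2_ok TE_l899 _)))
           (CovZ.n1 (-80, 28080) (by decide +kernel)
            (CovZ.leaf K2_ok TE_l900 _)
            (CovZ.leaf K2_ok TE_l901 _)))
          (CovZ.n1 (-160, 27840) (by decide +kernel)
           (CovZ.n2 (-240, 27920) (by decide +kernel)
            (CovZ.n2 (-160, 27920) (by decide +kernel)
             (CovZ.n2 (-200, 27880) (by decide +kernel)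
              (CovZ.leaf K2_ok TE_l902 _)
              (CovZ.leaf K2_ok TE_l903 _))
             (CovZ.leaf K2_ok TE_l904 _))
            (CovZ.n1 (-240, 27840) (by decide +kernel)
             (CovZ.leaf K2_ok TE_l905 _)
             (CovZ.leaf K2_ok TE_l906 _)))
           (CovZ.n1 (-80, 27920) (by decide +kernel)
            (CovZ.n2 (-80, 27840) (by decide +kernel)
             (CovZ.leaf K2_ok TE_l907 _)
             (CovZ.leaf K2_ok TE_l908 _))
            (CovZ.n1 (-160, 27920) (by decide +kernel)
             (CovZ.leaf K2_ok TE_l909 _)
             (CovZ.leaf K2_ok TE_l910 _))))))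

theorem TE_u40 : CovZ TE_M (toL (selN TE_LN 25122199407995357248419059763261755272496521352250489044992)) [0, 7, 6, 1] (-320, 27840) (-640, 27520) (0, 27520) :=
    (CovZ.subM 5846095752304436949328617051505949249104227860480 (by decide +kernel)
         (CovZ.n1 (-320, 27520) (by decide +kernel)
          (CovZ.n2 (-480, 27680) (by decide +kernel)
           (CovZ.n2 (-320, 27680) (by decide +kernel)
            (CovZ.subM 89202980794122651022469082210889359113060352 (by decide +kernel)
             (CovZ.n2 (-400, 27600) (by decide +kernel)
              (CovZ.n2 (-400, 27680) (by decide +kernel)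
               (CovZ.n2 (-360, 27640) (by decide +kernel)
                (CovZ.leaf K2_ok TE_l911 _)
                (CovZ.leaf K2_ok TE_l912 _))
               (CovZ.n1 (-440, 27640) (by decide +kernel)
                (CovZ.leaf K2_ok TE_l913 _)
                (CovZ.leaf K2_ok TE_l914 _)))
              (CovZ.n1 (-320, 27600) (by decide +kernel)
               (CovZ.n2 (-360, 27560) (by decide +kernel)
                (CovZ.leaf K2_ok TE_l915 _)
                (CovZ.leaf K2_ok TE_l916 _))
               (CovZ.n1 (-360, 27640) (by decide +kernel)
                (CovZ.leaf K2_ok TE_l917 _)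
                (CovZ.leaf K2_ok TE_l918 _)))))
            (CovZ.n1 (-400, 27760) (by decide +kernel)
             (CovZ.n2 (-320, 27760) (by decide +kernel)
              (CovZ.n2 (-360, 27720) (by decide +kernel)
               (CovZ.leaf K2_ok TE_l919 _)
               (CovZ.leaf K2_ok TE_l920 _))
              (CovZ.leaf K2_ok TE_l921 _))
             (CovZ.n1 (-400, 27680) (by decide +kernel)
              (CovZ.leaf K2_ok TE_l922 _)
              (CovZ.n1 (-360, 27720) (by decide +kernel)
               (CovZ.leaf K2_ok TE_l923 _)
               (CovZ.leaf K2_ok TE_l924 _)))))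
           (CovZ.subM 89202980794122651022469082210889359113060352 (by decide +kernel)
            (CovZ.n1 (-480, 27520) (by decide +kernel)
             (CovZ.n2 (-560, 27600) (by decide +kernel)
              (CovZ.n2 (-480, 27600) (by decide +kernel)
               (CovZ.n2 (-520, 27560) (by decide +kernel)
                (CovZ.leaf K2_ok TE_l925 _)
                (CovZ.n1 (-480, 27560) (by decide +kernel)
                 (CovZ.leaf K2_ok TE_l926 _)
                 (CovZ.leaf K2_ok TE_l927 _)))
               (CovZ.n1 (-520, 27640) (by decide +kernel)
                (CovZ.leaf K2_ok TE_l928 _)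
                (CovZ.leaf K2_ok TE_l929 _)))
              (CovZ.n1 (-560, 27520) (by decide +kernel)
               (CovZ.n2 (-600, 27560) (by decide +kernel)
                (CovZ.n2 (-560, 27560) (by decide +kernel)
                 (CovZ.leaf K2_ok TE_l930 _)
                 (CovZ.leaf K2_ok TE_l931 _))
                (CovZ.n1 (-600, 27520) (by decide +kernel)
                 (CovZ.leaf K2_ok TE_l932 _)
                 (CovZ.leaf K2_ok TE_l933 _)))
               (CovZ.n1 (-520, 27560) (by decide +kernel)
                (CovZ.leaf K2_ok TE_l934 _)
                (CovZ.n1 (-560, 27560) (by decide +kernel)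
                 (CovZ.leaf K2_ok TE_l935 _)
                 (CovZ.leaf K2_ok TE_l936 _)))))
             (CovZ.n1 (-400, 27600) (by decide +kernel)
              (CovZ.n2 (-400, 27520) (by decide +kernel)
               (CovZ.n2 (-440, 27560) (by decide +kernel)
                (CovZ.n2 (-400, 27560) (by decide +kernel)
                 (CovZ.leaf K2_ok TE_l937 _)
                 (CovZ.leaf K2_ok TE_l938 _))
                (CovZ.leaf K2_ok TE_l939 _))
               (CovZ.n1 (-360, 27560) (by decide +kernel)
                (CovZ.n2 (-360, 27520) (by decide +kernel)
                 (CovZ.leaf K2_ok TE_l940 _)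
                 (CovZ.leaf K2_ok TE_l941 _))
                (CovZ.n1 (-400, 27560) (by decide +kernel)
                 (CovZ.leaf K2_ok TE_l942 _)
                 (CovZ.leaf K2_ok TE_l943 _))))
              (CovZ.n1 (-480, 27600) (by decide +kernel)
               (CovZ.n2 (-440, 27640) (by decide +kernel)
                (CovZ.leaf K2_ok TE_l944 _)
                (CovZ.leaf K2_ok TE_l945 _))
               (CovZ.n1 (-440, 27560) (by decide +kernel)
                (CovZ.n2 (-480, 27560) (by decide +kernel)
                 (CovZ.leaf K2_ok TE_l946 _)
                 (CovZ.leaf K2_ok TE_l947 _))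
                (CovZ.n1 (-440, 27600) (by decide +kernel)
                 (CovZ.leaf K2_ok TE_l948 _)
                 (CovZ.leaf K2_ok TE_l949 _))))))))
          (CovZ.n1 (-160, 27680) (by decide +kernel)
           (CovZ.subM 89202980814891838456608392725011344429940736 (by decide +kernel)
            (CovZ.n2 (-160, 27520) (by decide +kernel)
             (CovZ.n2 (-240, 27600) (by decide +kernel)
              (CovZ.n2 (-160, 27600) (by decide +kernel)
               (CovZ.n2 (-200, 27560) (by decide +kernel)
                (CovZ.leaf K2_ok TE_l950 _)
                (CovZ.n1 (-160, 27560) (by decide +kernel)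
                 (CovZ.leaf K2_ok TE_l951 _)
                 (CovZ.leaf K2_ok TE_l952 _)))
               (CovZ.n1 (-200, 27640) (by decide +kernel)
                (CovZ.leaf K2_ok TE_l953 _)
                (CovZ.leaf K2_ok TE_l954 _)))
              (CovZ.n1 (-240, 27520) (by decide +kernel)
               (CovZ.n2 (-280, 27560) (by decide +kernel)
                (CovZ.n2 (-240, 27560) (by decide +kernel)
                 (CovZ.leaf K2_ok TE_l955 _)
                 (CovZ.leaf K2_ok TE_l956 _))
                (CovZ.n1 (-280, 27520) (by decide +kernel)
                 (CovZ.leaf K2_ok TE_l957 _)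
                 (CovZ.leaf K2_ok TE_l958 _)))
               (CovZ.n1 (-200, 27560) (by decide +kernel)
                (CovZ.n2 (-200, 27520) (by decide +kernel)
                 (CovZ.leaf K2_ok TE_l959 _)
                 (CovZ.leaf K2_ok TE_l960 _))
                (CovZ.n1 (-240, 27560) (by decide +kernel)
                 (CovZ.leaf K2_ok TE_l961 _)
                 (CovZ.leaf K2_ok TE_l962 _)))))
             (CovZ.n1 (-80, 27600) (by decide +kernel)
              (CovZ.n2 (-80, 27520) (by decide +kernel)
               (CovZ.n2 (-120, 27560) (by decide +kernel)
                (CovZ.n2 (-80, 27560) (by decide +kernel)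
                 (CovZ.leaf K2_ok TE_l963 _)
                 (CovZ.leaf K2_ok TE_l964 _))
                (CovZ.n1 (-120, 27520) (by decide +kernel)
                 (CovZ.leaf K2_ok TE_l965 _)
                 (CovZ.leaf K2_ok TE_l966 _)))
               (CovZ.n1 (-40, 27560) (by decide +kernel)
                (CovZ.n2 (-40, 27520) (by decide +kernel)
                 (CovZ.leaf K2_ok TE_l967 _)
                 (CovZ.leaf K2_ok TE_l968 _))
                (CovZ.n1 (-80, 27560) (by decide +kernel)
                 (CovZ.leaf K2_ok TE_l969 _)
                 (CovZ.leaf K2_ok TE_l970 _))))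
              (CovZ.n1 (-160, 27600) (by decide +kernel)
               (CovZ.n2 (-120, 27640) (by decide +kernel)
                (CovZ.leaf K2_ok TE_l971 _)
                (CovZ.leaf K2_ok TE_l972 _))
               (CovZ.n1 (-120, 27560) (by decide +kernel)
                (CovZ.n2 (-160, 27560) (by decide +kernel)
                 (CovZ.leaf K2_ok TE_l973 _)
                 (CovZ.leaf K2_ok TE_l974 _))
                (CovZ.n1 (-120, 27600) (by decide +kernel)
                 (CovZ.leaf K2_ok TE_l975 _)
                 (CovZ.leaf K2_ok TE_l976 _)))))))
           (CovZ.n1 (-320, 27680) (by decide +kernel)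
            (CovZ.n2 (-240, 27760) (by decide +kernel)
             (CovZ.n2 (-240, 27680) (by decide +kernel)
              (CovZ.n2 (-280, 27720) (by decide +kernel)
               (CovZ.leaf K2_ok TE_l977 _)
               (CovZ.leaf K2_ok TE_l978 _))
              (CovZ.n1 (-200, 27720) (by decide +kernel)
               (CovZ.leaf K2_ok TE_l979 _)
               (CovZ.leaf K2_ok TE_l980 _)))
             (CovZ.n1 (-320, 27760) (by decide +kernel)
              (CovZ.n2 (-280, 27800) (by decide +kernel)
               (CovZ.leaf K2_ok TE_l981 _)
               (CovZ.leaf K2_ok TE_l982 _))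
              (CovZ.n1 (-280, 27720) (by decide +kernel)
               (CovZ.leaf K2_ok TE_l983 _)
               (CovZ.leaf K2_ok TE_l984 _))))
            (CovZ.subM 89202980814891838456608392725011344429940736 (by decide +kernel)
             (CovZ.n1 (-240, 27600) (by decide +kernel)
              (CovZ.n2 (-320, 27600) (by decide +kernel)
               (CovZ.n2 (-280, 27640) (by decide +kernel)
                (CovZ.leaf K2_ok TE_l985 _)
                (CovZ.leaf K2_ok TE_l986 _))
               (CovZ.n1 (-280, 27560) (by decide +kernel)
                (CovZ.n2 (-320, 27560) (by decide +kernel)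
                 (CovZ.leaf K2_ok TE_l987 _)
                 (CovZ.leaf K2_ok TE_l988 _))
                (CovZ.leaf K2_ok TE_l989 _)))
              (CovZ.n1 (-240, 27680) (by decide +kernel)
               (CovZ.n2 (-200, 27640) (by decide +kernel)
                (CovZ.leaf K2_ok TE_l990 _)
                (CovZ.leaf K2_ok TE_l991 _))
               (CovZ.n1 (-280, 27640) (by decide +kernel)
                (CovZ.leaf K2_ok TE_l992 _)
                (CovZ.leaf K2_ok TE_l993 _)))))))))

theorem TE_u41 : CovZ TE_M (toL (selN TE_LN 25122199407995357248419059763261755272496521352250489044992)) [0, 7, 6, 1] (0, 28160) (-640, 27520) (0, 26880) :=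
    (CovZ.n2 (0, 27520) (by decide +kernel)
       (CovZ.subM 802826827167871778985750196858138195210010624 (by decide +kernel)
        (CovZ.n2 (-320, 27200) (by decide +kernel)
         (CovZ.n2 (-320, 27520) (by decide +kernel)
          (CovZ.n2 (-160, 27360) (by decide +kernel)
           (CovZ.n2 (-320, 27360) (by decide +kernel)
            (CovZ.n2 (-240, 27440) (by decide +kernel)
             (CovZ.badM (by decide +kernel))
             (CovZ.n1 (-320, 27440) (by decide +kernel)
              (CovZ.n2 (-280, 27480) (by decide +kernel)
               (CovZ.badM (by decide +kernel))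
               (CovZ.n1 (-320, 27480) (by decide +kernel)
                (CovZ.n2 (-300, 27500) (by decide +kernel)
                 (CovZ.leaf K2_ok TE_l791 _)
                 (CovZ.leaf K2_ok TE_l792 _))
                (CovZ.leaf K2_ok TE_l793 _)))
              (CovZ.badM (by decide +kernel))))
            (CovZ.badM (by decide +kernel)))
           (CovZ.n1 (-160, 27520) (by decide +kernel)
            (CovZ.n2 (-80, 27440) (by decide +kernel)
             (CovZ.n2 (-160, 27440) (by decide +kernel)
              (CovZ.n2 (-120, 27480) (by decide +kernel)
               (CovZ.badM (by decide +kernel))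
               (CovZ.n1 (-160, 27480) (by decide +kernel)
                (CovZ.leaf K2_ok TE_l794 _)
                (CovZ.badM (by decide +kernel))))
              (CovZ.badM (by decide +kernel)))
             (CovZ.n1 (-80, 27520) (by decide +kernel)
              (CovZ.n2 (-40, 27480) (by decide +kernel)
               (CovZ.badM (by decide +kernel))
               (CovZ.n1 (-40, 27520) (by decide +kernel)
                (CovZ.leaf K2_ok TE_l17076 _)
                (CovZ.badM (by decide +kernel))))
              (CovZ.n1 (-120, 27480) (by decide +kernel)
               (CovZ.n2 (-120, 27520) (by decide +kernel)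
                (CovZ.badM (by decide +kernel))
                (CovZ.n1 (-140, 27500) (by decide +kernel)
                 (CovZ.leaf K2_ok TE_l798 _)
                 (CovZ.badM (by decide +kernel))))
               (CovZ.badM (by decide +kernel)))))
            (CovZ.n1 (-240, 27440) (by decide +kernel)
             (CovZ.n2 (-240, 27520) (by decide +kernel)
              (CovZ.n2 (-200, 27480) (by decide +kernel)
               (CovZ.n2 (-240, 27480) (by decide +kernel)
                (CovZ.n2 (-220, 27500) (by decide +kernel)
                 (CovZ.leaf K2_ok TE_l801 _)
                 (CovZ.leaf K2_ok TE_l802 _))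
                (CovZ.badM (by decide +kernel)))
               (CovZ.n1 (-200, 27520) (by decide +kernel)
                (CovZ.leaf K2_ok TE_l804 _)
                (CovZ.leaf K2_ok TE_l805 _)))
              (CovZ.n1 (-280, 27480) (by decide +kernel)
               (CovZ.n2 (-280, 27520) (by decide +kernel)
                (CovZ.leaf K2_ok TE_l806 _)
                (CovZ.n1 (-300, 27500) (by decide +kernel)
                 (CovZ.leaf K2_ok TE_l807 _)
                 (CovZ.leaf K2_ok TE_l808 _)))
               (CovZ.n1 (-240, 27480) (by decide +kernel)
                (CovZ.badM (by decide +kernel))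
                (CovZ.leaf K2_ok TE_l811 _))))
             (CovZ.n1 (-160, 27440) (by decide +kernel)
              (CovZ.badM (by decide +kernel))
              (CovZ.n1 (-200, 27480) (by decide +kernel)
               (CovZ.n2 (-160, 27480) (by decide +kernel)
                (CovZ.badM (by decide +kernel))
                (CovZ.leaf K2_ok TE_l812 _))
               (CovZ.badM (by decide +kernel)))))))
          (CovZ.n1 (-480, 27360) (by decide +kernel)
           (CovZ.n2 (-480, 27520) (by decide +kernel)
            (CovZ.n2 (-400, 27440) (by decide +kernel)
             (CovZ.n2 (-480, 27440) (by decide +kernel)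
              (CovZ.n2 (-440, 27480) (by decide +kernel)
               (CovZ.n2 (-440, 27440) (by decide +kernel)
                (CovZ.leaf K2_ok TE_l813 _)
                (CovZ.n1 (-420, 27460) (by decide +kernel)
                 (CovZ.leaf K2_ok TE_l814 _)
                 (CovZ.leaf K2_ok TE_l815 _)))
               (CovZ.n1 (-480, 27480) (by decide +kernel)
                (CovZ.leaf K2_ok TE_l816 _)
                (CovZ.leaf K2_ok TE_l817 _)))
              (CovZ.n1 (-440, 27400) (by decide +kernel)
               (CovZ.n2 (-480, 27400) (by decide +kernel)
                (CovZ.n2 (-460, 27420) (by decide +kernel)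
                 (CovZ.badM (by decide +kernel))
                 (CovZ.leaf K2_ok TE_l818 _))
                (CovZ.badM (by decide +kernel)))
               (CovZ.n1 (-440, 27440) (by decide +kernel)
                (CovZ.n2 (-420, 27420) (by decide +kernel)
                 (CovZ.leaf K2_ok TE_l819 _)
                 (CovZ.leaf K2_ok TE_l820 _))
                (CovZ.n1 (-460, 27420) (by decide +kernel)
                 (CovZ.leaf K2_ok TE_l821 _)
                 (CovZ.leaf K2_ok TE_l822 _)))))
             (CovZ.n1 (-400, 27520) (by decide +kernel)
              (CovZ.n2 (-360, 27480) (by decide +kernel)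
               (CovZ.n2 (-400, 27480) (by decide +kernel)
                (CovZ.n2 (-380, 27500) (by decide +kernel)
                 (CovZ.leaf K2_ok TE_l823 _)
                 (CovZ.leaf K2_ok TE_l824 _))
                (CovZ.leaf K2_ok TE_l825 _))
               (CovZ.n1 (-360, 27520) (by decide +kernel)
                (CovZ.leaf K2_ok TE_l826 _)
                (CovZ.n1 (-380, 27500) (by decide +kernel)
                 (CovZ.leaf K2_ok TE_l827 _)
                 (CovZ.leaf K2_ok TE_l828 _))))
              (CovZ.n1 (-440, 27480) (by decide +kernel)
               (CovZ.n2 (-440, 27520) (by decide +kernel)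
                (CovZ.leaf K2_ok TE_l829 _)
                (CovZ.n1 (-460, 27500) (by decide +kernel)
                 (CovZ.leaf K2_ok TE_l830 _)
                 (CovZ.leaf K2_ok TE_l831 _)))
               (CovZ.n1 (-400, 27480) (by decide +kernel)
                (CovZ.n2 (-420, 27460) (by decide +kernel)
                 (CovZ.leaf K2_ok TE_l832 _)
                 (CovZ.leaf K2_ok TE_l833 _))
                (CovZ.leaf K2_ok TE_l834 _)))))
            (CovZ.n1 (-560, 27440) (by decide +kernel)
             (CovZ.n2 (-560, 27520) (by decide +kernel)
              (CovZ.n2 (-520, 27480) (by decide +kernel)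
               (CovZ.n2 (-560, 27480) (by decide +kernel)
                (CovZ.n2 (-540, 27500) (by decide +kernel)
                 (CovZ.leaf K2_ok TE_l835 _)
                 (CovZ.leaf K2_ok TE_l836 _))
                (CovZ.leaf K2_ok TE_l837 _))
               (CovZ.n1 (-520, 27520) (by decide +kernel)
                (CovZ.leaf K2_ok TE_l838 _)
                (CovZ.leaf K2_ok TE_l839 _)))
              (CovZ.n1 (-600, 27480) (by decide +kernel)
               (CovZ.n2 (-600, 27520) (by decide +kernel)
                (CovZ.leaf K2_ok TE_l840 _)
                (CovZ.n1 (-620, 27500) (by decide +kernel)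
                 (CovZ.leaf K2_ok TE_l841 _)
                 (CovZ.leaf K2_ok TE_l842 _)))
               (CovZ.n1 (-560, 27480) (by decide +kernel)
                (CovZ.n2 (-580, 27460) (by decide +kernel)
                 (CovZ.leaf K2_ok TE_l843 _)
                 (CovZ.leaf K2_ok TE_l844 _))
                (CovZ.leaf K2_ok TE_l845 _))))
             (CovZ.n1 (-480, 27440) (by decide +kernel)
              (CovZ.n2 (-520, 27400) (by decide +kernel)
               (CovZ.n2 (-520, 27440) (by decide +kernel)
                (CovZ.n2 (-500, 27420) (by decide +kernel)
                 (CovZ.leaf K2_ok TE_l846 _)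
                 (CovZ.leaf K2_ok TE_l847 _))
                (CovZ.n1 (-540, 27420) (by decide +kernel)
                 (CovZ.leaf K2_ok TE_l848 _)
                 (CovZ.leaf K2_ok TE_l849 _)))
               (CovZ.n1 (-480, 27400) (by decide +kernel)
                (CovZ.badM (by decide +kernel))
                (CovZ.n1 (-500, 27420) (by decide +kernel)
                 (CovZ.leaf K2_ok TE_l850 _)
                 (CovZ.leaf K2_ok TE_l851 _))))
              (CovZ.n1 (-520, 27480) (by decide +kernel)
               (CovZ.n2 (-480, 27480) (by decide +kernel)
                (CovZ.n2 (-500, 27460) (by decide +kernel)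
                 (CovZ.leaf K2_ok TE_l852 _)
                 (CovZ.leaf K2_ok TE_l853 _))
                (CovZ.leaf K2_ok TE_l854 _))
               (CovZ.n1 (-520, 27440) (by decide +kernel)
                (CovZ.leaf K2_ok TE_l855 _)
                (CovZ.n1 (-500, 27460) (by decide +kernel)
                 (CovZ.leaf K2_ok TE_l856 _)
                 (CovZ.leaf K2_ok TE_l857 _)))))))
           (CovZ.n1 (-320, 27360) (by decide +kernel)
            (CovZ.badM (by decide +kernel))
            (CovZ.n1 (-400, 27440) (by decide +kernel)
             (CovZ.n2 (-320, 27440) (by decide +kernel)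
              (CovZ.badM (by decide +kernel))
              (CovZ.n1 (-360, 27480) (by decide +kernel)
               (CovZ.n2 (-320, 27480) (by decide +kernel)
                (CovZ.n2 (-340, 27460) (by decide +kernel)
                 (CovZ.leaf K2_ok TE_l859 _)
                 (CovZ.leaf K2_ok TE_l860 _))
                (CovZ.leaf K2_ok TE_l861 _))
               (CovZ.n1 (-360, 27440) (by decide +kernel)
                (CovZ.leaf K2_ok TE_l862 _)
                (CovZ.n1 (-340, 27460) (by decide +kernel)
                 (CovZ.badM (by decide +kernel))
                 (CovZ.leaf K2_ok TE_l864 _)))))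
             (CovZ.badM (by decide +kernel))))))
         (CovZ.n1 (0, 27200) (by decide +kernel)
          (CovZ.badM (by decide +kernel))
          (CovZ.n1 (-160, 27360) (by decide +kernel)
           (CovZ.n2 (0, 27360) (by decide +kernel)
            (CovZ.badM (by decide +kernel))
            (CovZ.n1 (-80, 27440) (by decide +kernel)
             (CovZ.n2 (0, 27440) (by decide +kernel)
              (CovZ.badM (by decide +kernel))
              (CovZ.n1 (-40, 27480) (by decide +kernel)
               (CovZ.n2 (0, 27480) (by decide +kernel)
                (CovZ.badM (by decide +kernel))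
                (CovZ.leaf K2_ok TE_l17077 _))
               (CovZ.badM (by decide +kernel))))
             (CovZ.badM (by decide +kernel))))
           (CovZ.badM (by decide +kernel))))))
       (CovZ.n1 (-320, 27840) (by decide +kernel)
        TE_u39
        TE_u40))

theorem TE_u42 : CovZ TE_M (toL (selN TE_LN 25122199407995357248419059763261755272496521352250489044992)) [0, 7, 6, 1] (-640, 27520) (-1280, 26880) (0, 26880) :=
    (CovZ.subM 802826827147102591551610886344016209893130240 (by decide +kernel)
       (CovZ.n1 (-640, 26880) (by decide +kernel)
        (CovZ.n2 (-960, 27200) (by decide +kernel)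
         (CovZ.n2 (-640, 27200) (by decide +kernel)
          (CovZ.badM (by decide +kernel))
          (CovZ.n1 (-800, 27360) (by decide +kernel)
           (CovZ.n2 (-640, 27360) (by decide +kernel)
            (CovZ.n2 (-720, 27280) (by decide +kernel)
             (CovZ.n2 (-720, 27360) (by decide +kernel)
              (CovZ.badM (by decide +kernel))
              (CovZ.n1 (-760, 27320) (by decide +kernel)
               (CovZ.n2 (-760, 27360) (by decide +kernel)
                (CovZ.badM (by decide +kernel))
                (CovZ.n1 (-780, 27340) (by decide +kernel)
                 (CovZ.leaf K2_ok TE_l17078 _)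
                 (CovZ.badM (by decide +kernel))))
               (CovZ.badM (by decide +kernel))))
             (CovZ.n1 (-640, 27280) (by decide +kernel)
              (CovZ.badM (by decide +kernel))
              (CovZ.n1 (-680, 27320) (by decide +kernel)
               (CovZ.n2 (-640, 27320) (by decide +kernel)
                (CovZ.badM (by decide +kernel))
                (CovZ.badM (by decide +kernel)))
               (CovZ.badM (by decide +kernel)))))
            (CovZ.n1 (-720, 27440) (by decide +kernel)
             (CovZ.n2 (-640, 27440) (by decide +kernel)
              (CovZ.n2 (-680, 27400) (by decide +kernel)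
               (CovZ.n2 (-680, 27440) (by decide +kernel)
                (CovZ.n2 (-660, 27420) (by decide +kernel)
                 (CovZ.leaf K2_ok TE_l995 _)
                 (CovZ.leaf K2_ok TE_l996 _))
                (CovZ.n1 (-700, 27420) (by decide +kernel)
                 (CovZ.leaf K2_ok TE_l997 _)
                 (CovZ.leaf K2_ok TE_l998 _)))
               (CovZ.n1 (-640, 27400) (by decide +kernel)
                (CovZ.n2 (-660, 27380) (by decide +kernel)
                 (CovZ.leaf K2_ok TE_l999 _)
                 (CovZ.leaf K2_ok TE_l1000 _))
                (CovZ.n1 (-660, 27420) (by decide +kernel)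
                 (CovZ.leaf K2_ok TE_l1001 _)
                 (CovZ.leaf K2_ok TE_l1002 _))))
              (CovZ.n1 (-680, 27480) (by decide +kernel)
               (CovZ.n2 (-640, 27480) (by decide +kernel)
                (CovZ.n2 (-660, 27460) (by decide +kernel)
                 (CovZ.leaf K2_ok TE_l1003 _)
                 (CovZ.leaf K2_ok TE_l1004 _))
                (CovZ.leaf K2_ok TE_l1005 _))
               (CovZ.n1 (-680, 27440) (by decide +kernel)
                (CovZ.leaf K2_ok TE_l1006 _)
                (CovZ.n1 (-660, 27460) (by decide +kernel)
                 (CovZ.leaf K2_ok TE_l1007 _)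
                 (CovZ.leaf K2_ok TE_l1008 _)))))
             (CovZ.n1 (-720, 27360) (by decide +kernel)
              (CovZ.n2 (-760, 27400) (by decide +kernel)
               (CovZ.n2 (-720, 27400) (by decide +kernel)
                (CovZ.n2 (-740, 27380) (by decide +kernel)
                 (CovZ.leaf K2_ok TE_l1009 _)
                 (CovZ.leaf K2_ok TE_l1010 _))
                (CovZ.n1 (-740, 27420) (by decide +kernel)
                 (CovZ.leaf K2_ok TE_l1011 _)
                 (CovZ.leaf K2_ok TE_l1012 _)))
               (CovZ.n1 (-760, 27360) (by decide +kernel)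
                (CovZ.n2 (-780, 27380) (by decide +kernel)
                 (CovZ.leaf K2_ok TE_l17079 _)
                 (CovZ.leaf K2_ok TE_l17080 _))
                (CovZ.n1 (-740, 27380) (by decide +kernel)
                 (CovZ.leaf K2_ok TE_l17081 _)
                 (CovZ.leaf K2_ok TE_l17082 _))))
              (CovZ.n1 (-680, 27400) (by decide +kernel)
               (CovZ.n2 (-680, 27360) (by decide +kernel)
                (CovZ.n2 (-700, 27380) (by decide +kernel)
                 (CovZ.leaf K2_ok TE_l1013 _)
                 (CovZ.badM (by decide +kernel)))
                (CovZ.n1 (-660, 27380) (by decide +kernel)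
                 (CovZ.badM (by decide +kernel))
                 (CovZ.leaf K2_ok TE_l1016 _)))
               (CovZ.n1 (-720, 27400) (by decide +kernel)
                (CovZ.n2 (-700, 27420) (by decide +kernel)
                 (CovZ.leaf K2_ok TE_l1017 _)
                 (CovZ.leaf K2_ok TE_l1018 _))
                (CovZ.n1 (-700, 27380) (by decide +kernel)
                 (CovZ.leaf K2_ok TE_l1019 _)
                 (CovZ.leaf K2_ok TE_l1020 _)))))))
           (CovZ.n1 (-800, 27200) (by decide +kernel)
            (CovZ.badM (by decide +kernel))
            (CovZ.n1 (-720, 27280) (by decide +kernel)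
             (CovZ.badM (by decide +kernel))
             (CovZ.n1 (-800, 27280) (by decide +kernel)
              (CovZ.n2 (-760, 27320) (by decide +kernel)
               (CovZ.badM (by decide +kernel))
               (CovZ.n1 (-800, 27320) (by decide +kernel)
                (CovZ.n2 (-780, 27340) (by decide +kernel)
                 (CovZ.badM (by decide +kernel))
                 (CovZ.badM (by decide +kernel)))
                (CovZ.badM (by decide +kernel))))
              (CovZ.badM (by decide +kernel)))))))
         (CovZ.badM (by decide +kernel)))
        (CovZ.n1 (-320, 27200) (by decide +kernel)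
         (CovZ.badM (by decide +kernel))
         (CovZ.n1 (-640, 27200) (by decide +kernel)
          (CovZ.n2 (-480, 27360) (by decide +kernel)
           (CovZ.badM (by decide +kernel))
           (CovZ.n1 (-640, 27360) (by decide +kernel)
            (CovZ.n2 (-560, 27440) (by decide +kernel)
             (CovZ.n2 (-560, 27360) (by decide +kernel)
              (CovZ.n2 (-600, 27400) (by decide +kernel)
               (CovZ.n2 (-560, 27400) (by decide +kernel)
                (CovZ.n2 (-580, 27380) (by decide +kernel)
                 (CovZ.badM (by decide +kernel))
                 (CovZ.leaf K2_ok TE_l1021 _))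
                (CovZ.n1 (-580, 27420) (by decide +kernel)
                 (CovZ.leaf K2_ok TE_l17083 _)
                 (CovZ.leaf K2_ok TE_l17084 _)))
               (CovZ.n1 (-600, 27360) (by decide +kernel)
                (CovZ.badM (by decide +kernel))
                (CovZ.n1 (-580, 27380) (by decide +kernel)
                 (CovZ.badM (by decide +kernel))
                 (CovZ.badM (by decide +kernel)))))
              (CovZ.n1 (-520, 27400) (by decide +kernel)
               (CovZ.badM (by decide +kernel))
               (CovZ.n1 (-560, 27400) (by decide +kernel)
                (CovZ.n2 (-540, 27420) (by decide +kernel)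
                 (CovZ.leaf K2_ok TE_l1022 _)
                 (CovZ.leaf K2_ok TE_l1023 _))
                (CovZ.n1 (-540, 27380) (by decide +kernel)
                 (CovZ.leaf K2_ok TE_l1024 _)
                 (CovZ.leaf K2_ok TE_l1025 _)))))
             (CovZ.n1 (-640, 27440) (by decide +kernel)
              (CovZ.n2 (-600, 27480) (by decide +kernel)
               (CovZ.n2 (-600, 27440) (by decide +kernel)
                (CovZ.leaf K2_ok TE_l1026 _)
                (CovZ.n1 (-580, 27460) (by decide +kernel)
                 (CovZ.leaf K2_ok TE_l1027 _)
                 (CovZ.leaf K2_ok TE_l1028 _)))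
               (CovZ.n1 (-640, 27480) (by decide +kernel)
                (CovZ.leaf K2_ok TE_l1029 _)
                (CovZ.leaf K2_ok TE_l1030 _)))
              (CovZ.n1 (-600, 27400) (by decide +kernel)
               (CovZ.n2 (-640, 27400) (by decide +kernel)
                (CovZ.n2 (-620, 27420) (by decide +kernel)
                 (CovZ.leaf K2_ok TE_l1031 _)
                 (CovZ.leaf K2_ok TE_l1032 _))
                (CovZ.n1 (-620, 27380) (by decide +kernel)
                 (CovZ.leaf K2_ok TE_l1033 _)
                 (CovZ.leaf K2_ok TE_l1034 _)))
               (CovZ.n1 (-600, 27440) (by decide +kernel)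
                (CovZ.leaf K2_ok TE_l1035 _)
                (CovZ.n1 (-620, 27420) (by decide +kernel)
                 (CovZ.leaf K2_ok TE_l1036 _)
                 (CovZ.leaf K2_ok TE_l1037 _))))))
            (CovZ.n1 (-560, 27280) (by decide +kernel)
             (CovZ.n2 (-640, 27280) (by decide +kernel)
              (CovZ.n2 (-600, 27320) (by decide +kernel)
               (CovZ.badM (by decide +kernel))
               (CovZ.n1 (-640, 27320) (by decide +kernel)
                (CovZ.n2 (-620, 27340) (by decide +kernel)
                 (CovZ.badM (by decide +kernel))
                 (CovZ.badM (by decide +kernel)))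
                (CovZ.badM (by decide +kernel))))
              (CovZ.badM (by decide +kernel)))
             (CovZ.n1 (-560, 27360) (by decide +kernel)
              (CovZ.badM (by decide +kernel))
              (CovZ.n1 (-600, 27320) (by decide +kernel)
               (CovZ.n2 (-600, 27360) (by decide +kernel)
                (CovZ.badM (by decide +kernel))
                (CovZ.n1 (-620, 27340) (by decide +kernel)
                 (CovZ.badM (by decide +kernel))
                 (CovZ.badM (by decide +kernel))))
               (CovZ.badM (by decide +kernel)))))))
          (CovZ.badM (by decide +kernel))))))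

theorem TE_u43 : CovZ TE_M (toL (selN TE_LN 25122199407994643624572706783321226129511796604682297671680)) [0, 7, 6, 1] (-640, 27520) (-960, 27840) (-1280, 27520) :=
    (CovZ.subM 22300747867371448898290931114062599948337152 (by decide +kernel)
         (CovZ.n2 (-960, 27520) (by decide +kernel)
          (CovZ.n2 (-1120, 27680) (by decide +kernel)
           (CovZ.n2 (-960, 27680) (by decide +kernel)
            (CovZ.subM 240160368801955394047908511744 (by decide +kernel)
             (CovZ.n2 (-1040, 27600) (by decide +kernel)
              (CovZ.n2 (-1040, 27680) (by decide +kernel)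
               (CovZ.n2 (-1000, 27640) (by decide +kernel)
                (CovZ.leaf K2_ok TE_l1038 _)
                (CovZ.leaf K2_ok TE_l1039 _))
               (CovZ.n1 (-1080, 27640) (by decide +kernel)
                (CovZ.leaf K2_ok TE_l1040 _)
                (CovZ.leaf K2_ok TE_l1041 _)))
              (CovZ.n1 (-960, 27600) (by decide +kernel)
               (CovZ.n2 (-1000, 27560) (by decide +kernel)
                (CovZ.leaf K2_ok TE_l1042 _)
                (CovZ.leaf K2_ok TE_l1043 _))
               (CovZ.n1 (-1000, 27640) (by decide +kernel)
                (CovZ.leaf K2_ok TE_l1044 _)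
                (CovZ.leaf K2_ok TE_l1045 _)))))
            (CovZ.n1 (-1040, 27760) (by decide +kernel)
             (CovZ.n2 (-960, 27760) (by decide +kernel)
              (CovZ.n2 (-1000, 27720) (by decide +kernel)
               (CovZ.leaf K2_ok TE_l1046 _)
               (CovZ.leaf K2_ok TE_l1047 _))
              (CovZ.leaf K2_ok TE_l1048 _))
             (CovZ.subM 10384833877438457212455040566951936 (by decide +kernel)
              (CovZ.n1 (-1040, 27680) (by decide +kernel)
               (CovZ.n2 (-1080, 27720) (by decide +kernel)
                (CovZ.leaf K2_ok TE_l1049 _)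
                (CovZ.leaf K2_ok TE_l1050 _))
               (CovZ.n1 (-1000, 27720) (by decide +kernel)
                (CovZ.leaf K2_ok TE_l1051 _)
                (CovZ.leaf K2_ok TE_l1052 _))))))
           (CovZ.subM 240160368801955394047908511744 (by decide +kernel)
            (CovZ.n1 (-1120, 27520) (by decide +kernel)
             (CovZ.n2 (-1200, 27600) (by decide +kernel)
              (CovZ.n2 (-1120, 27600) (by decide +kernel)
               (CovZ.n2 (-1160, 27560) (by decide +kernel)
                (CovZ.n2 (-1160, 27600) (by decide +kernel)
                 (CovZ.leaf K2_ok TE_l1053 _)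
                 (CovZ.n1 (-1180, 27580) (by decide +kernel)
                  (CovZ.leaf K2_ok TE_l1054 _)
                  (CovZ.leaf K2_ok TE_l17085 _)))
                (CovZ.n1 (-1120, 27560) (by decide +kernel)
                 (CovZ.badM (by decide +kernel))
                 (CovZ.leaf K2_ok TE_l1055 _)))
               (CovZ.n1 (-1160, 27640) (by decide +kernel)
                (CovZ.n2 (-1120, 27640) (by decide +kernel)
                 (CovZ.leaf K2_ok TE_l1056 _)
                 (CovZ.leaf K2_ok TE_l1057 _))
                (CovZ.n1 (-1160, 27600) (by decide +kernel)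
                 (CovZ.leaf K2_ok TE_l1058 _)
                 (CovZ.leaf K2_ok TE_l1059 _))))
              (CovZ.n1 (-1200, 27520) (by decide +kernel)
               (CovZ.n2 (-1240, 27560) (by decide +kernel)
                (CovZ.n2 (-1200, 27560) (by decide +kernel)
                 (CovZ.badM (by decide +kernel))
                 (CovZ.n1 (-1220, 27580) (by decide +kernel)
                  (CovZ.leaf K2_ok TE_l1060 _)
                  (CovZ.leaf K2_ok TE_l17086 _)))
                (CovZ.badM (by decide +kernel)))
               (CovZ.n1 (-1160, 27560) (by decide +kernel)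
                (CovZ.badM (by decide +kernel))
                (CovZ.n1 (-1200, 27560) (by decide +kernel)
                 (CovZ.n2 (-1180, 27580) (by decide +kernel)
                  (CovZ.badM (by decide +kernel))
                  (CovZ.leaf K2_ok TE_l1061 _))
                 (CovZ.badM (by decide +kernel))))))
             (CovZ.n1 (-1040, 27600) (by decide +kernel)
              (CovZ.n2 (-1040, 27520) (by decide +kernel)
               (CovZ.n2 (-1080, 27560) (by decide +kernel)
                (CovZ.n2 (-1040, 27560) (by decide +kernel)
                 (CovZ.leaf K2_ok TE_l1062 _)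
                 (CovZ.leaf K2_ok TE_l1063 _))
                (CovZ.n1 (-1080, 27520) (by decide +kernel)
                 (CovZ.leaf K2_ok TE_l1064 _)
                 (CovZ.leaf K2_ok TE_l1065 _)))
               (CovZ.n1 (-1000, 27560) (by decide +kernel)
                (CovZ.leaf K2_ok TE_l1066 _)
                (CovZ.leaf K2_ok TE_l1067 _)))
              (CovZ.n1 (-1120, 27600) (by decide +kernel)
               (CovZ.n2 (-1080, 27640) (by decide +kernel)
                (CovZ.leaf K2_ok TE_l1068 _)
                (CovZ.leaf K2_ok TE_l1069 _))
               (CovZ.n1 (-1080, 27560) (by decide +kernel)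
                (CovZ.n2 (-1120, 27560) (by decide +kernel)
                 (CovZ.leaf K2_ok TE_l1070 _)
                 (CovZ.leaf K2_ok TE_l1071 _))
                (CovZ.leaf K2_ok TE_l1072 _)))))))
          (CovZ.n1 (-800, 27680) (by decide +kernel)
           (CovZ.subM 158456326209120295913156247552 (by decide +kernel)
            (CovZ.n2 (-800, 27520) (by decide +kernel)
             (CovZ.n2 (-880, 27600) (by decide +kernel)
              (CovZ.n2 (-800, 27600) (by decide +kernel)
               (CovZ.n2 (-840, 27560) (by decide +kernel)
                (CovZ.leaf K2_ok TE_l1073 _)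
                (CovZ.leaf K2_ok TE_l1074 _))
               (CovZ.n1 (-840, 27640) (by decide +kernel)
                (CovZ.leaf K2_ok TE_l1075 _)
                (CovZ.leaf K2_ok TE_l1076 _)))
              (CovZ.n1 (-880, 27520) (by decide +kernel)
               (CovZ.n2 (-920, 27560) (by decide +kernel)
                (CovZ.leaf K2_ok TE_l1077 _)
                (CovZ.n1 (-920, 27520) (by decide +kernel)
                 (CovZ.leaf K2_ok TE_l1078 _)
                 (CovZ.leaf K2_ok TE_l1079 _)))
               (CovZ.n1 (-840, 27560) (by decide +kernel)
                (CovZ.n2 (-840, 27520) (by decide +kernel)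
                 (CovZ.leaf K2_ok TE_l1080 _)
                 (CovZ.leaf K2_ok TE_l1081 _))
                (CovZ.leaf K2_ok TE_l1082 _))))
             (CovZ.n1 (-720, 27600) (by decide +kernel)
              (CovZ.n2 (-720, 27520) (by decide +kernel)
               (CovZ.n2 (-760, 27560) (by decide +kernel)
                (CovZ.leaf K2_ok TE_l1083 _)
                (CovZ.leaf K2_ok TE_l1084 _))
               (CovZ.n1 (-680, 27560) (by decide +kernel)
                (CovZ.leaf K2_ok TE_l1085 _)
                (CovZ.n1 (-720, 27560) (by decide +kernel)
                 (CovZ.leaf K2_ok TE_l1086 _)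
                 (CovZ.leaf K2_ok TE_l1087 _))))
              (CovZ.n1 (-800, 27600) (by decide +kernel)
               (CovZ.n2 (-760, 27640) (by decide +kernel)
                (CovZ.leaf K2_ok TE_l1088 _)
                (CovZ.leaf K2_ok TE_l1089 _))
               (CovZ.n1 (-760, 27560) (by decide +kernel)
                (CovZ.leaf K2_ok TE_l1090 _)
                (CovZ.leaf K2_ok TE_l1091 _))))))
           (CovZ.n1 (-960, 27680) (by decide +kernel)
            (CovZ.n2 (-880, 27760) (by decide +kernel)
             (CovZ.n2 (-880, 27680) (by decide +kernel)
              (CovZ.n2 (-920, 27720) (by decide +kernel)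
               (CovZ.leaf K2_ok TE_l1092 _)
               (CovZ.leaf K2_ok TE_l1093 _))
              (CovZ.n1 (-840, 27720) (by decide +kernel)
               (CovZ.leaf K2_ok TE_l1094 _)
               (CovZ.leaf K2_ok TE_l1095 _)))
             (CovZ.n1 (-960, 27760) (by decide +kernel)
              (CovZ.n2 (-920, 27800) (by decide +kernel)
               (CovZ.leaf K2_ok TE_l1096 _)
               (CovZ.leaf K2_ok TE_l1097 _))
              (CovZ.n1 (-920, 27720) (by decide +kernel)
               (CovZ.leaf K2_ok TE_l1098 _)
               (CovZ.leaf K2_ok TE_l1099 _))))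
            (CovZ.subM 237684488723384633506700197888 (by decide +kernel)
             (CovZ.n1 (-880, 27600) (by decide +kernel)
              (CovZ.n2 (-960, 27600) (by decide +kernel)
               (CovZ.n2 (-920, 27640) (by decide +kernel)
                (CovZ.leaf K2_ok TE_l1100 _)
                (CovZ.leaf K2_ok TE_l1101 _))
               (CovZ.n1 (-920, 27560) (by decide +kernel)
                (CovZ.leaf K2_ok TE_l1102 _)
                (CovZ.leaf K2_ok TE_l1103 _)))
              (CovZ.n1 (-880, 27680) (by decide +kernel)
               (CovZ.n2 (-840, 27640) (by decide +kernel)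
                (CovZ.leaf K2_ok TE_l1104 _)
                (CovZ.leaf K2_ok TE_l1105 _))
               (CovZ.n1 (-920, 27640) (by decide +kernel)
                (CovZ.leaf K2_ok TE_l1106 _)
                (CovZ.leaf K2_ok TE_l1107 _)))))))))

theorem TE_u44 : CovZ TE_M (toL (selN TE_LN 25122199407994643624572706783321226129511796604682297671680)) [0, 7, 6, 1] (-960, 27840) (-1280, 28160) (-1280, 27520) :=
    (CovZ.subM 1532496271998609171812944802391983158459906889676226560 (by decide +kernel)
         (CovZ.n1 (-1280, 27840) (by decide +kernel)
          (CovZ.n2 (-1120, 28000) (by decide +kernel)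
           (CovZ.n2 (-1120, 27840) (by decide +kernel)
            (CovZ.n2 (-1200, 27920) (by decide +kernel)
             (CovZ.n2 (-1120, 27920) (by decide +kernel)
              (CovZ.n2 (-1160, 27880) (by decide +kernel)
               (CovZ.leaf K2_ok TE_l1108 _)
               (CovZ.leaf K2_ok TE_l1109 _))
              (CovZ.leaf K2_ok TE_l1110 _))
             (CovZ.subM 1532495541247789123870868015032018492013601087425609728 (by decide +kernel)
              (CovZ.n1 (-1200, 27840) (by decide +kernel)
               (CovZ.n2 (-1240, 27880) (by decide +kernel)
                (CovZ.leaf K2_ok TE_l1111 _)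
                (CovZ.leaf K2_ok TE_l1112 _))
               (CovZ.n1 (-1160, 27880) (by decide +kernel)
                (CovZ.leaf K2_ok TE_l1113 _)
                (CovZ.leaf K2_ok TE_l1114 _)))))
            (CovZ.n1 (-1040, 27920) (by decide +kernel)
             (CovZ.n2 (-1040, 27840) (by decide +kernel)
              (CovZ.leaf K2_ok TE_l1115 _)
              (CovZ.leaf K2_ok TE_l1116 _))
             (CovZ.n1 (-1120, 27920) (by decide +kernel)
              (CovZ.leaf K2_ok TE_l1117 _)
              (CovZ.leaf K2_ok TE_l1118 _))))
           (CovZ.n1 (-1280, 28000) (by decide +kernel)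
            (CovZ.subM 1532496271995820216194007475492038220984623715676323840 (by decide +kernel)
             (CovZ.n2 (-1200, 28080) (by decide +kernel)
              (CovZ.n2 (-1200, 28000) (by decide +kernel)
               (CovZ.leaf K2_ok TE_l1119 _)
               (CovZ.leaf K2_ok TE_l1120 _))
              (CovZ.n1 (-1280, 28080) (by decide +kernel)
               (CovZ.n2 (-1240, 28120) (by decide +kernel)
                (CovZ.leaf K2_ok TE_l1121 _)
                (CovZ.leaf K2_ok TE_l1122 _))
               (CovZ.leaf K2_ok TE_l1123 _))))
            (CovZ.subM 1532496271998609149205643554579930072806221523451904000 (by decide +kernel)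
             (CovZ.n1 (-1200, 27920) (by decide +kernel)
              (CovZ.n2 (-1280, 27920) (by decide +kernel)
               (CovZ.n2 (-1240, 27960) (by decide +kernel)
                (CovZ.leaf K2_ok TE_l1124 _)
                (CovZ.leaf K2_ok TE_l1125 _))
               (CovZ.n1 (-1240, 27880) (by decide +kernel)
                (CovZ.leaf K2_ok TE_l1126 _)
                (CovZ.leaf K2_ok TE_l1127 _)))
              (CovZ.n1 (-1200, 28000) (by decide +kernel)
               (CovZ.leaf K2_ok TE_l1128 _)
               (CovZ.n1 (-1240, 27960) (by decide +kernel)
                (CovZ.leaf K2_ok TE_l1129 _)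
                (CovZ.leaf K2_ok TE_l1130 _)))))))
          (CovZ.subM 22300747867371448588805921292717522633621504 (by decide +kernel)
           (CovZ.n1 (-1120, 27680) (by decide +kernel)
            (CovZ.n2 (-1280, 27680) (by decide +kernel)
             (CovZ.n2 (-1200, 27760) (by decide +kernel)
              (CovZ.subM 10384675421112248092159136067747840 (by decide +kernel)
               (CovZ.n2 (-1200, 27680) (by decide +kernel)
                (CovZ.n2 (-1240, 27720) (by decide +kernel)
                 (CovZ.n2 (-1200, 27720) (by decide +kernel)
                  (CovZ.leaf K2_ok TE_l1131 _)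
                  (CovZ.leaf K2_ok TE_l1132 _))
                 (CovZ.leaf K2_ok TE_l1133 _))
                (CovZ.n1 (-1160, 27720) (by decide +kernel)
                 (CovZ.leaf K2_ok TE_l1134 _)
                 (CovZ.leaf K2_ok TE_l1135 _))))
              (CovZ.subM 22300745198530702369698232536985955117039616 (by decide +kernel)
               (CovZ.n1 (-1280, 27760) (by decide +kernel)
                (CovZ.n2 (-1240, 27800) (by decide +kernel)
                 (CovZ.leaf K2_ok TE_l1136 _)
                 (CovZ.leaf K2_ok TE_l1137 _))
                (CovZ.n1 (-1240, 27720) (by decide +kernel)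
                 (CovZ.n2 (-1280, 27720) (by decide +kernel)
                  (CovZ.leaf K2_ok TE_l1138 _)
                  (CovZ.leaf K2_ok TE_l1139 _))
                 (CovZ.leaf K2_ok TE_l1140 _)))))
             (CovZ.subM 81704042592835098143409307648 (by decide +kernel)
              (CovZ.n1 (-1200, 27600) (by decide +kernel)
               (CovZ.n2 (-1280, 27600) (by decide +kernel)
                (CovZ.n2 (-1240, 27640) (by decide +kernel)
                 (CovZ.n2 (-1240, 27600) (by decide +kernel)
                  (CovZ.leaf K2_ok TE_l1141 _)
                  (CovZ.n1 (-1220, 27620) (by decide +kernel)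
                   (CovZ.leaf K2_ok TE_l1142 _)
                   (CovZ.leaf K2_ok TE_l1143 _)))
                 (CovZ.n1 (-1280, 27640) (by decide +kernel)
                  (CovZ.n2 (-1260, 27660) (by decide +kernel)
                   (CovZ.leaf K2_ok TE_l1144 _)
                   (CovZ.leaf K2_ok TE_l1145 _))
                  (CovZ.leaf K2_ok TE_l1146 _)))
                (CovZ.n1 (-1240, 27560) (by decide +kernel)
                 (CovZ.n2 (-1280, 27560) (by decide +kernel)
                  (CovZ.n2 (-1260, 27580) (by decide +kernel)
                   (CovZ.leaf K2_ok TE_l1147 _)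
                   (CovZ.leaf K2_ok TE_l1148 _))
                  (CovZ.badM (by decide +kernel)))
                 (CovZ.n1 (-1240, 27600) (by decide +kernel)
                  (CovZ.n2 (-1220, 27580) (by decide +kernel)
                   (CovZ.leaf K2_ok TE_l1149 _)
                   (CovZ.leaf K2_ok TE_l1150 _))
                  (CovZ.n1 (-1260, 27580) (by decide +kernel)
                   (CovZ.leaf K2_ok TE_l1151 _)
                   (CovZ.leaf K2_ok TE_l1152 _)))))
               (CovZ.n1 (-1200, 27680) (by decide +kernel)
                (CovZ.n2 (-1160, 27640) (by decide +kernel)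
                 (CovZ.n2 (-1200, 27640) (by decide +kernel)
                  (CovZ.leaf K2_ok TE_l1153 _)
                  (CovZ.leaf K2_ok TE_l1154 _))
                 (CovZ.leaf K2_ok TE_l1155 _))
                (CovZ.n1 (-1240, 27640) (by decide +kernel)
                 (CovZ.n2 (-1240, 27680) (by decide +kernel)
                  (CovZ.leaf K2_ok TE_l1156 _)
                  (CovZ.n1 (-1260, 27660) (by decide +kernel)
                   (CovZ.leaf K2_ok TE_l1157 _)
                   (CovZ.leaf K2_ok TE_l1158 _)))
                 (CovZ.n1 (-1200, 27640) (by decide +kernel)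
                  (CovZ.n2 (-1220, 27620) (by decide +kernel)
                   (CovZ.leaf K2_ok TE_l1159 _)
                   (CovZ.leaf K2_ok TE_l1160 _))
                  (CovZ.leaf K2_ok TE_l1161 _)))))))
            (CovZ.n1 (-1120, 27840) (by decide +kernel)
             (CovZ.n2 (-1040, 27760) (by decide +kernel)
              (CovZ.n2 (-1120, 27760) (by decide +kernel)
               (CovZ.n2 (-1080, 27800) (by decide +kernel)
                (CovZ.leaf K2_ok TE_l1162 _)
                (CovZ.leaf K2_ok TE_l1163 _))
               (CovZ.n1 (-1080, 27720) (by decide +kernel)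
                (CovZ.leaf K2_ok TE_l1164 _)
                (CovZ.leaf K2_ok TE_l1165 _)))
              (CovZ.n1 (-1040, 27840) (by decide +kernel)
               (CovZ.leaf K2_ok TE_l1166 _)
               (CovZ.n1 (-1080, 27800) (by decide +kernel)
                (CovZ.leaf K2_ok TE_l1167 _)
                (CovZ.leaf K2_ok TE_l1168 _))))
             (CovZ.n1 (-1200, 27760) (by decide +kernel)
              (CovZ.subM 22300747856986693939529978344600075677728768 (by decide +kernel)
               (CovZ.n2 (-1200, 27840) (by decide +kernel)
                (CovZ.n2 (-1160, 27800) (by decide +kernel)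
                 (CovZ.leaf K2_ok TE_l1169 _)
                 (CovZ.leaf K2_ok TE_l1170 _))
                (CovZ.n1 (-1240, 27800) (by decide +kernel)
                 (CovZ.leaf K2_ok TE_l1171 _)
                 (CovZ.leaf K2_ok TE_l1172 _))))
              (CovZ.n1 (-1120, 27760) (by decide +kernel)
               (CovZ.n2 (-1160, 27720) (by decide +kernel)
                (CovZ.leaf K2_ok TE_l1173 _)
                (CovZ.leaf K2_ok TE_l1174 _))
               (CovZ.n1 (-1160, 27800) (by decide +kernel)
                (CovZ.leaf K2_ok TE_l1175 _)
                (CovZ.leaf K2_ok TE_l1176 _)))))))))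

theorem TE_u45 : CovZ TE_M (toL (selN TE_LN 25122199407994643624572706783321226129511796604682297671680)) [0, 7, 6, 1] (0, 28160) (-640, 28160) (-640, 27520) :=
    (CovZ.n2 (-320, 27840) (by decide +kernel)
        (CovZ.n2 (-640, 27840) (by decide +kernel)
         (CovZ.n2 (-480, 28000) (by decide +kernel)
          (CovZ.n2 (-480, 27840) (by decide +kernel)
           (CovZ.n2 (-560, 27920) (by decide +kernel)
            (CovZ.n2 (-480, 27920) (by decide +kernel)
             (CovZ.n2 (-520, 27880) (by decide +kernel)
              (CovZ.leaf K2_ok TE_l1292 _)
              (CovZ.leaf K2_ok TE_l1293 _))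
             (CovZ.leaf K2_ok TE_l1294 _))
            (CovZ.n1 (-560, 27840) (by decide +kernel)
             (CovZ.leaf K2_ok TE_l1295 _)
             (CovZ.leaf K2_ok TE_l1296 _)))
           (CovZ.n1 (-400, 27920) (by decide +kernel)
            (CovZ.n2 (-400, 27840) (by decide +kernel)
             (CovZ.leaf K2_ok TE_l1297 _)
             (CovZ.leaf K2_ok TE_l1298 _))
            (CovZ.n1 (-480, 27920) (by decide +kernel)
             (CovZ.leaf K2_ok TE_l1299 _)
             (CovZ.leaf K2_ok TE_l1300 _))))
          (CovZ.n1 (-640, 28000) (by decide +kernel)
           (CovZ.n2 (-560, 28080) (by decide +kernel)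
            (CovZ.leaf K2_ok TE_l1301 _)
            (CovZ.leaf K2_ok TE_l1302 _))
           (CovZ.n1 (-560, 27920) (by decide +kernel)
            (CovZ.n2 (-640, 27920) (by decide +kernel)
             (CovZ.leaf K2_ok TE_l1303 _)
             (CovZ.leaf K2_ok TE_l1304 _))
            (CovZ.n1 (-560, 28000) (by decide +kernel)
             (CovZ.leaf K2_ok TE_l1305 _)
             (CovZ.leaf K2_ok TE_l1306 _)))))
         (CovZ.subM 5846028850071499813451071761106760263208995389440 (by decide +kernel)
          (CovZ.n1 (-480, 27680) (by decide +kernel)
           (CovZ.n2 (-640, 27680) (by decide +kernel)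
            (CovZ.n2 (-560, 27760) (by decide +kernel)
             (CovZ.subM 10384833877438457212455049156886528 (by decide +kernel)
              (CovZ.n2 (-560, 27680) (by decide +kernel)
               (CovZ.n2 (-600, 27720) (by decide +kernel)
                (CovZ.leaf K2_ok TE_l1307 _)
                (CovZ.leaf K2_ok TE_l1308 _))
               (CovZ.n1 (-520, 27720) (by decide +kernel)
                (CovZ.leaf K2_ok TE_l1309 _)
                (CovZ.leaf K2_ok TE_l1310 _))))
             (CovZ.n1 (-640, 27760) (by decide +kernel)
              (CovZ.n2 (-600, 27800) (by decide +kernel)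
               (CovZ.leaf K2_ok TE_l1311 _)
               (CovZ.leaf K2_ok TE_l1312 _))
              (CovZ.n1 (-600, 27720) (by decide +kernel)
               (CovZ.leaf K2_ok TE_l1313 _)
               (CovZ.leaf K2_ok TE_l1314 _))))
            (CovZ.subM 158456326209120295913089138688 (by decide +kernel)
             (CovZ.n1 (-560, 27600) (by decide +kernel)
              (CovZ.n2 (-640, 27600) (by decide +kernel)
               (CovZ.n2 (-600, 27640) (by decide +kernel)
                (CovZ.leaf K2_ok TE_l1315 _)
                (CovZ.leaf K2_ok TE_l1316 _))
               (CovZ.n1 (-600, 27560) (by decide +kernel)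
                (CovZ.n2 (-640, 27560) (by decide +kernel)
                 (CovZ.leaf K2_ok TE_l1317 _)
                 (CovZ.leaf K2_ok TE_l1318 _))
                (CovZ.leaf K2_ok TE_l1319 _)))
              (CovZ.n1 (-560, 27680) (by decide +kernel)
               (CovZ.n2 (-520, 27640) (by decide +kernel)
                (CovZ.leaf K2_ok TE_l1320 _)
                (CovZ.leaf K2_ok TE_l1321 _))
               (CovZ.n1 (-600, 27640) (by decide +kernel)
                (CovZ.leaf K2_ok TE_l1322 _)
                (CovZ.leaf K2_ok TE_l1323 _))))))
           (CovZ.n1 (-480, 27840) (by decide +kernel)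
            (CovZ.n2 (-400, 27760) (by decide +kernel)
             (CovZ.n2 (-480, 27760) (by decide +kernel)
              (CovZ.n2 (-440, 27800) (by decide +kernel)
               (CovZ.leaf K2_ok TE_l1324 _)
               (CovZ.leaf K2_ok TE_l1325 _))
              (CovZ.leaf K2_ok TE_l1326 _))
             (CovZ.n1 (-400, 27840) (by decide +kernel)
              (CovZ.leaf K2_ok TE_l1327 _)
              (CovZ.n1 (-440, 27800) (by decide +kernel)
               (CovZ.leaf K2_ok TE_l1328 _)
               (CovZ.leaf K2_ok TE_l1329 _))))
            (CovZ.n1 (-560, 27760) (by decide +kernel)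
             (CovZ.n2 (-560, 27840) (by decide +kernel)
              (CovZ.leaf K2_ok TE_l1330 _)
              (CovZ.n1 (-600, 27800) (by decide +kernel)
               (CovZ.leaf K2_ok TE_l1331 _)
               (CovZ.leaf K2_ok TE_l1332 _)))
             (CovZ.n1 (-480, 27760) (by decide +kernel)
              (CovZ.n2 (-520, 27720) (by decide +kernel)
               (CovZ.leaf K2_ok TE_l1333 _)
               (CovZ.leaf K2_ok TE_l1334 _))
              (CovZ.leaf K2_ok TE_l1335 _)))))))
        (CovZ.n1 (-320, 28160) (by decide +kernel)
         (CovZ.n2 (-160, 28000) (by decide +kernel)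
          (CovZ.n2 (-320, 28000) (by decide +kernel)
           (CovZ.n2 (-240, 28080) (by decide +kernel)
            (CovZ.leaf K2_ok TE_l1336 _)
            (CovZ.n1 (-320, 28080) (by decide +kernel)
             (CovZ.leaf K2_ok TE_l1337 _)
             (CovZ.leaf K2_ok TE_l1338 _)))
           (CovZ.n1 (-240, 27920) (by decide +kernel)
            (CovZ.n2 (-320, 27920) (by decide +kernel)
             (CovZ.leaf K2_ok TE_l1339 _)
             (CovZ.leaf K2_ok TE_l1340 _))
            (CovZ.n1 (-240, 28000) (by decide +kernel)
             (CovZ.leaf K2_ok TE_l1341 _)
             (CovZ.leaf K2_ok TE_l1342 _))))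
          (CovZ.n1 (-160, 28160) (by decide +kernel)
           (CovZ.n2 (-80, 28080) (by decide +kernel)
            (CovZ.n2 (-160, 28080) (by decide +kernel)
             (CovZ.leaf K2_ok TE_l1343 _)
             (CovZ.leaf K2_ok TE_l1344 _))
            (CovZ.leaf K2_ok TE_l1345 _))
           (CovZ.n1 (-240, 28080) (by decide +kernel)
            (CovZ.leaf K2_ok TE_l1346 _)
            (CovZ.leaf K2_ok TE_l1347 _))))
         (CovZ.n1 (-480, 28000) (by decide +kernel)
          (CovZ.n2 (-480, 28160) (by decide +kernel)
           (CovZ.n2 (-400, 28080) (by decide +kernel)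
            (CovZ.leaf K2_ok TE_l1348 _)
            (CovZ.leaf K2_ok TE_l1349 _))
           (CovZ.n1 (-560, 28080) (by decide +kernel)
            (CovZ.leaf K2_ok TE_l1350 _)
            (CovZ.leaf K2_ok TE_l1351 _)))
          (CovZ.n1 (-320, 28000) (by decide +kernel)
           (CovZ.n2 (-400, 27920) (by decide +kernel)
            (CovZ.n2 (-400, 28000) (by decide +kernel)
             (CovZ.leaf K2_ok TE_l1352 _)
             (CovZ.leaf K2_ok TE_l1353 _))
            (CovZ.n1 (-320, 27920) (by decide +kernel)
             (CovZ.n2 (-360, 27880) (by decide +kernel)
              (CovZ.leaf K2_ok TE_l1354 _)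
              (CovZ.leaf K2_ok TE_l1355 _))
             (CovZ.leaf K2_ok TE_l1356 _)))
           (CovZ.n1 (-400, 28080) (by decide +kernel)
            (CovZ.leaf K2_ok TE_l1357 _)
            (CovZ.leaf K2_ok TE_l1358 _))))))

theorem TE_u46 : CovZ TE_M (toL (selN TE_LN 25122199407994643624572706783321226129511796604682297671680)) [0, 7, 6, 1] (-640, 28160) (-1280, 28160) (-640, 27520) :=
    (CovZ.n1 (-960, 27840) (by decide +kernel)
        (CovZ.n2 (-960, 28160) (by decide +kernel)
         (CovZ.n2 (-800, 28000) (by decide +kernel)
          (CovZ.subM 1532496271998609171802519641379826121291237461306900480 (by decide +kernel)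
           (CovZ.n2 (-960, 28000) (by decide +kernel)
            (CovZ.n2 (-880, 28080) (by decide +kernel)
             (CovZ.leaf K2_ok TE_l1359 _)
             (CovZ.leaf K2_ok TE_l1360 _))
            (CovZ.n1 (-880, 27920) (by decide +kernel)
             (CovZ.n2 (-960, 27920) (by decide +kernel)
              (CovZ.leaf K2_ok TE_l1361 _)
              (CovZ.leaf K2_ok TE_l1362 _))
             (CovZ.n1 (-880, 28000) (by decide +kernel)
              (CovZ.leaf K2_ok TE_l1363 _)
              (CovZ.leaf K2_ok TE_l1364 _)))))
          (CovZ.subM 25109939443664725424882984142466787499033619642167660118016 (by decide +kernel)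
           (CovZ.n1 (-800, 28160) (by decide +kernel)
            (CovZ.n2 (-720, 28080) (by decide +kernel)
             (CovZ.leaf K2_ok TE_l1365 _)
             (CovZ.leaf K2_ok TE_l1366 _))
            (CovZ.n1 (-880, 28080) (by decide +kernel)
             (CovZ.leaf K2_ok TE_l1367 _)
             (CovZ.leaf K2_ok TE_l1368 _)))))
         (CovZ.subM 1532496271998609171802519641379826121291237461306900480 (by decide +kernel)
          (CovZ.n1 (-1120, 28000) (by decide +kernel)
           (CovZ.n2 (-1120, 28160) (by decide +kernel)
            (CovZ.n2 (-1040, 28080) (by decide +kernel)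
             (CovZ.leaf K2_ok TE_l1369 _)
             (CovZ.leaf K2_ok TE_l1370 _))
            (CovZ.n1 (-1200, 28080) (by decide +kernel)
             (CovZ.leaf K2_ok TE_l1371 _)
             (CovZ.n1 (-1120, 28080) (by decide +kernel)
              (CovZ.leaf K2_ok TE_l1372 _)
              (CovZ.leaf K2_ok TE_l1373 _))))
           (CovZ.n1 (-960, 28000) (by decide +kernel)
            (CovZ.n2 (-1040, 27920) (by decide +kernel)
             (CovZ.n2 (-1040, 28000) (by decide +kernel)
              (CovZ.leaf K2_ok TE_l1374 _)
              (CovZ.leaf K2_ok TE_l1375 _))
             (CovZ.n1 (-960, 27920) (by decide +kernel)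
              (CovZ.n2 (-1000, 27880) (by decide +kernel)
               (CovZ.leaf K2_ok TE_l1376 _)
               (CovZ.leaf K2_ok TE_l1377 _))
              (CovZ.leaf K2_ok TE_l1378 _)))
            (CovZ.n1 (-1040, 28080) (by decide +kernel)
             (CovZ.leaf K2_ok TE_l1379 _)
             (CovZ.leaf K2_ok TE_l1380 _))))))
        (CovZ.n1 (-640, 27840) (by decide +kernel)
         (CovZ.subM 22300747867371448898290931114062599948337152 (by decide +kernel)
          (CovZ.n2 (-800, 27680) (by decide +kernel)
           (CovZ.n2 (-800, 27840) (by decide +kernel)
            (CovZ.n2 (-720, 27760) (by decide +kernel)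
             (CovZ.n2 (-800, 27760) (by decide +kernel)
              (CovZ.n2 (-760, 27800) (by decide +kernel)
               (CovZ.leaf K2_ok TE_l1381 _)
               (CovZ.leaf K2_ok TE_l1382 _))
              (CovZ.leaf K2_ok TE_l1383 _))
             (CovZ.n1 (-720, 27840) (by decide +kernel)
              (CovZ.leaf K2_ok TE_l1384 _)
              (CovZ.n1 (-760, 27800) (by decide +kernel)
               (CovZ.leaf K2_ok TE_l1385 _)
               (CovZ.leaf K2_ok TE_l1386 _))))
            (CovZ.n1 (-880, 27760) (by decide +kernel)
             (CovZ.n2 (-880, 27840) (by decide +kernel)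
              (CovZ.leaf K2_ok TE_l1387 _)
              (CovZ.n1 (-920, 27800) (by decide +kernel)
               (CovZ.leaf K2_ok TE_l1388 _)
               (CovZ.leaf K2_ok TE_l1389 _)))
             (CovZ.n1 (-800, 27760) (by decide +kernel)
              (CovZ.n2 (-840, 27720) (by decide +kernel)
               (CovZ.leaf K2_ok TE_l1390 _)
               (CovZ.leaf K2_ok TE_l1391 _))
              (CovZ.leaf K2_ok TE_l1392 _))))
           (CovZ.n1 (-640, 27680) (by decide +kernel)
            (CovZ.subM 158456326209120295913156247552 (by decide +kernel)
             (CovZ.n2 (-720, 27600) (by decide +kernel)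
              (CovZ.n2 (-720, 27680) (by decide +kernel)
               (CovZ.n2 (-680, 27640) (by decide +kernel)
                (CovZ.leaf K2_ok TE_l1393 _)
                (CovZ.leaf K2_ok TE_l1394 _))
               (CovZ.n1 (-760, 27640) (by decide +kernel)
                (CovZ.leaf K2_ok TE_l1395 _)
                (CovZ.leaf K2_ok TE_l1396 _)))
              (CovZ.n1 (-640, 27600) (by decide +kernel)
               (CovZ.n2 (-680, 27560) (by decide +kernel)
                (CovZ.leaf K2_ok TE_l1397 _)
                (CovZ.n1 (-640, 27560) (by decide +kernel)
                 (CovZ.leaf K2_ok TE_l1398 _)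
                 (CovZ.leaf K2_ok TE_l1399 _)))
               (CovZ.n1 (-680, 27640) (by decide +kernel)
                (CovZ.leaf K2_ok TE_l1400 _)
                (CovZ.leaf K2_ok TE_l1401 _)))))
            (CovZ.n1 (-720, 27760) (by decide +kernel)
             (CovZ.n2 (-640, 27760) (by decide +kernel)
              (CovZ.n2 (-680, 27720) (by decide +kernel)
               (CovZ.leaf K2_ok TE_l1402 _)
               (CovZ.leaf K2_ok TE_l1403 _))
              (CovZ.leaf K2_ok TE_l1404 _))
             (CovZ.n1 (-720, 27680) (by decide +kernel)
              (CovZ.leaf K2_ok TE_l1405 _)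
              (CovZ.n1 (-680, 27720) (by decide +kernel)
               (CovZ.leaf K2_ok TE_l1406 _)
               (CovZ.leaf K2_ok TE_l1407 _)))))))
         (CovZ.n1 (-800, 28000) (by decide +kernel)
          (CovZ.n2 (-640, 28000) (by decide +kernel)
           (CovZ.n2 (-720, 27920) (by decide +kernel)
            (CovZ.n2 (-720, 28000) (by decide +kernel)
             (CovZ.leaf K2_ok TE_l1408 _)
             (CovZ.leaf K2_ok TE_l1409 _))
            (CovZ.n1 (-640, 27920) (by decide +kernel)
             (CovZ.n2 (-680, 27880) (by decide +kernel)
              (CovZ.leaf K2_ok TE_l1410 _)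
              (CovZ.leaf K2_ok TE_l1411 _))
             (CovZ.leaf K2_ok TE_l1412 _)))
           (CovZ.n1 (-720, 28080) (by decide +kernel)
            (CovZ.leaf K2_ok TE_l1413 _)
            (CovZ.leaf K2_ok TE_l1414 _)))
          (CovZ.n1 (-800, 27840) (by decide +kernel)
           (CovZ.subM 1532496271998609150545256302538241810087385489479827456 (by decide +kernel)
            (CovZ.n2 (-880, 27920) (by decide +kernel)
             (CovZ.n2 (-800, 27920) (by decide +kernel)
              (CovZ.n2 (-840, 27880) (by decide +kernel)
               (CovZ.leaf K2_ok TE_l1415 _)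
               (CovZ.leaf K2_ok TE_l1416 _))
              (CovZ.leaf K2_ok TE_l1417 _))
             (CovZ.n1 (-880, 27840) (by decide +kernel)
              (CovZ.leaf K2_ok TE_l1418 _)
              (CovZ.leaf K2_ok TE_l1419 _))))
           (CovZ.n1 (-720, 27920) (by decide +kernel)
            (CovZ.n2 (-720, 27840) (by decide +kernel)
             (CovZ.leaf K2_ok TE_l1420 _)
             (CovZ.leaf K2_ok TE_l1421 _))
            (CovZ.n1 (-800, 27920) (by decide +kernel)
             (CovZ.leaf K2_ok TE_l1422 _)
             (CovZ.leaf K2_ok TE_l1423 _)))))))

theorem TE_u47 : CovZ TE_M (toL (selN TE_LN 1532496271998609169154488653913250252638722208240238592)) [0, 7, 6, 1] (-2560, 28160) (-1920, 27520) (-1280, 28160) :=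
    (CovZ.subM 1532495540868677835234547611187794658871155407257075712 (by decide +kernel)
        (CovZ.n2 (-1920, 28160) (by decide +kernel)
         (CovZ.n2 (-1600, 27840) (by decide +kernel)
          (CovZ.subM 2788955608552572250668994527165727044009984 (by decide +kernel)
           (CovZ.n2 (-1920, 27840) (by decide +kernel)
            (CovZ.n2 (-1760, 28000) (by decide +kernel)
             (CovZ.n2 (-1760, 27840) (by decide +kernel)
              (CovZ.n2 (-1840, 27920) (by decide +kernel)
               (CovZ.n2 (-1760, 27920) (by decide +kernel)
                (CovZ.badM (by decide +kernel))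
                (CovZ.badM (by decide +kernel)))
               (CovZ.badM (by decide +kernel)))
              (CovZ.n1 (-1680, 27920) (by decide +kernel)
               (CovZ.badM (by decide +kernel))
               (CovZ.n1 (-1760, 27920) (by decide +kernel)
                (CovZ.badM (by decide +kernel))
                (CovZ.badM (by decide +kernel)))))
             (CovZ.n1 (-1920, 28000) (by decide +kernel)
              (CovZ.badM (by decide +kernel))
              (CovZ.n1 (-1840, 27920) (by decide +kernel)
               (CovZ.n2 (-1920, 27920) (by decide +kernel)
                (CovZ.badM (by decide +kernel))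
                (CovZ.badM (by decide +kernel)))
               (CovZ.badM (by decide +kernel)))))
            (CovZ.n1 (-1760, 27680) (by decide +kernel)
             (CovZ.n2 (-1920, 27680) (by decide +kernel)
              (CovZ.n2 (-1840, 27760) (by decide +kernel)
               (CovZ.badM (by decide +kernel))
               (CovZ.badM (by decide +kernel)))
              (CovZ.badM (by decide +kernel)))
             (CovZ.n1 (-1760, 27840) (by decide +kernel)
              (CovZ.n2 (-1680, 27760) (by decide +kernel)
               (CovZ.n2 (-1760, 27760) (by decide +kernel)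
                (CovZ.badM (by decide +kernel))
                (CovZ.badM (by decide +kernel)))
               (CovZ.badM (by decide +kernel)))
              (CovZ.n1 (-1840, 27760) (by decide +kernel)
               (CovZ.badM (by decide +kernel))
               (CovZ.n1 (-1760, 27760) (by decide +kernel)
                (CovZ.badM (by decide +kernel))
                (CovZ.badM (by decide +kernel))))))))
          (CovZ.subM 1532495540865890240755462722690979517842419407285911552 (by decide +kernel)
           (CovZ.n1 (-1600, 28160) (by decide +kernel)
            (CovZ.n2 (-1440, 28000) (by decide +kernel)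
             (CovZ.n2 (-1600, 28000) (by decide +kernel)
              (CovZ.badM (by decide +kernel))
              (CovZ.n1 (-1520, 27920) (by decide +kernel)
               (CovZ.n2 (-1600, 27920) (by decide +kernel)
                (CovZ.badM (by decide +kernel))
                (CovZ.badM (by decide +kernel)))
               (CovZ.badM (by decide +kernel))))
             (CovZ.n1 (-1440, 28160) (by decide +kernel)
              (CovZ.n2 (-1360, 28080) (by decide +kernel)
               (CovZ.n2 (-1440, 28080) (by decide +kernel)
                (CovZ.n2 (-1400, 28120) (by decide +kernel)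
                 (CovZ.n2 (-1400, 28080) (by decide +kernel)
                  (CovZ.badM (by decide +kernel))
                  (CovZ.n1 (-1380, 28100) (by decide +kernel)
                   (CovZ.leaf K2_ok TE_l1424 _)
                   (CovZ.badM (by decide +kernel))))
                 (CovZ.badM (by decide +kernel)))
                (CovZ.n1 (-1400, 28040) (by decide +kernel)
                 (CovZ.badM (by decide +kernel))
                 (CovZ.n1 (-1400, 28080) (by decide +kernel)
                  (CovZ.n2 (-1380, 28060) (by decide +kernel)
                   (CovZ.badM (by decide +kernel))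
                   (CovZ.leaf K2_ok TE_l1427 _))
                  (CovZ.badM (by decide +kernel)))))
               (CovZ.n1 (-1360, 28160) (by decide +kernel)
                (CovZ.n2 (-1320, 28120) (by decide +kernel)
                 (CovZ.leaf K2_ok TE_l1428 _)
                 (CovZ.leaf K2_ok TE_l1429 _))
                (CovZ.n1 (-1400, 28120) (by decide +kernel)
                 (CovZ.badM (by decide +kernel))
                 (CovZ.n1 (-1360, 28120) (by decide +kernel)
                  (CovZ.n2 (-1380, 28100) (by decide +kernel)
                   (CovZ.leaf K2_ok TE_l1433 _)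
                   (CovZ.leaf K2_ok TE_l1434 _))
                  (CovZ.leaf K2_ok TE_l1435 _)))))
              (CovZ.badM (by decide +kernel))))
            (CovZ.n1 (-1760, 28000) (by decide +kernel)
             (CovZ.badM (by decide +kernel))
             (CovZ.n1 (-1600, 28000) (by decide +kernel)
              (CovZ.n2 (-1680, 27920) (by decide +kernel)
               (CovZ.badM (by decide +kernel))
               (CovZ.n1 (-1600, 27920) (by decide +kernel)
                (CovZ.badM (by decide +kernel))
                (CovZ.badM (by decide +kernel))))
              (CovZ.badM (by decide +kernel)))))))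
         (CovZ.subM 2788955608552572250668994527165727044009984 (by decide +kernel)
          (CovZ.n1 (-2240, 27840) (by decide +kernel)
           (CovZ.badM (by decide +kernel))
           (CovZ.n1 (-1920, 27840) (by decide +kernel)
            (CovZ.n2 (-2080, 27680) (by decide +kernel)
             (CovZ.badM (by decide +kernel))
             (CovZ.n1 (-1920, 27680) (by decide +kernel)
              (CovZ.badM (by decide +kernel))
              (CovZ.badM (by decide +kernel))))
            (CovZ.n1 (-2080, 28000) (by decide +kernel)
             (CovZ.n2 (-1920, 28000) (by decide +kernel)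
              (CovZ.n2 (-2000, 27920) (by decide +kernel)
               (CovZ.badM (by decide +kernel))
               (CovZ.n1 (-1920, 27920) (by decide +kernel)
                (CovZ.badM (by decide +kernel))
                (CovZ.badM (by decide +kernel))))
              (CovZ.badM (by decide +kernel)))
             (CovZ.n1 (-2080, 27840) (by decide +kernel)
              (CovZ.n2 (-2160, 27920) (by decide +kernel)
               (CovZ.n2 (-2080, 27920) (by decide +kernel)
                (CovZ.badM (by decide +kernel))
                (CovZ.badM (by decide +kernel)))
               (CovZ.badM (by decide +kernel)))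
              (CovZ.n1 (-2000, 27920) (by decide +kernel)
               (CovZ.badM (by decide +kernel))
               (CovZ.n1 (-2080, 27920) (by decide +kernel)
                (CovZ.badM (by decide +kernel))
                (CovZ.badM (by decide +kernel)))))))))))

end Pool.Agent.TET
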