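import Pool.Agent.Helper38_TET.TE_M
import Pool.Agent.Helper38_TET.TE_L
import Pool.Agent.Helper38_TET.TE_7
import Pool.Agent.Helper38_TET.TE_8
import Pool.Agent.Helper38_TET.TE_9
import Pool.Agent.Helper38_TET.TE_21
import Pool.Agent.Helper38_TET.TE_22
import Pool.Agent.Helper38_TET.TE_23
import Pool.Agent.Helper38_TET.TE_24
import Pool.Agent.Helper38_TET.TE_25
import Pool.Agent.Helper38_TET.TE_114
import Pool.Agent.Helper38_TET.TE_115
import Pool.Agent.Helper38_TET.TE_116
import Pool.Agent.Helper38_TET.TE_132
import Pool.Agent.Helper38_TET.TE_U2

/-!
# MP_c7c9bf_co: certificates, family TE
-/

set_option autoImplicit false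
set_option maxRecDepth 100000

namespace Pool.Agent.TET

theorem TE_u48 : CovZ TE_M (toL (selN TE_LN 1532496271998609169154488653913250252638722208240238592)) [0, 7, 6, 1] (-1920, 27520) (-1280, 26880) (-1280, 28160) :=
    (CovZ.n1 (-1280, 27520) (by decide +kernel)
        (CovZ.n2 (-1600, 27200) (by decide +kernel)
         (CovZ.badM (by decide +kernel))
         (CovZ.badM (by decide +kernel)))
        (CovZ.n1 (-1600, 27840) (by decide +kernel)
         (CovZ.n2 (-1280, 27840) (by decide +kernel)
          (CovZ.subM 22300746538143294347563839268614557786963968 (by decide +kernel)
           (CovZ.n2 (-1440, 27680) (by decide +kernel)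
            (CovZ.n2 (-1440, 27840) (by decide +kernel)
             (CovZ.n2 (-1360, 27760) (by decide +kernel)
              (CovZ.n2 (-1440, 27760) (by decide +kernel)
               (CovZ.n2 (-1400, 27800) (by decide +kernel)
                (CovZ.badM (by decide +kernel))
                (CovZ.n1 (-1440, 27800) (by decide +kernel)
                 (CovZ.badM (by decide +kernel))
                 (CovZ.badM (by decide +kernel))))
               (CovZ.badM (by decide +kernel)))
              (CovZ.n1 (-1360, 27840) (by decide +kernel)
               (CovZ.n2 (-1320, 27800) (by decide +kernel)
                (CovZ.n2 (-1360, 27800) (by decide +kernel)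
                 (CovZ.n2 (-1340, 27820) (by decide +kernel)
                  (CovZ.leaf K2_ok TE_l19570 _)
                  (CovZ.badM (by decide +kernel)))
                 (CovZ.badM (by decide +kernel)))
                (CovZ.n1 (-1320, 27840) (by decide +kernel)
                 (CovZ.leaf K2_ok TE_l1436 _)
                 (CovZ.n1 (-1340, 27820) (by decide +kernel)
                  (CovZ.badM (by decide +kernel))
                  (CovZ.leaf K2_ok TE_l19571 _))))
               (CovZ.n1 (-1400, 27800) (by decide +kernel)
                (CovZ.badM (by decide +kernel))
                (CovZ.n1 (-1360, 27800) (by decide +kernel)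
                 (CovZ.badM (by decide +kernel))
                 (CovZ.badM (by decide +kernel))))))
             (CovZ.n1 (-1520, 27760) (by decide +kernel)
              (CovZ.badM (by decide +kernel))
              (CovZ.n1 (-1440, 27760) (by decide +kernel)
               (CovZ.badM (by decide +kernel))
               (CovZ.n1 (-1480, 27800) (by decide +kernel)
                (CovZ.n2 (-1440, 27800) (by decide +kernel)
                 (CovZ.badM (by decide +kernel))
                 (CovZ.badM (by decide +kernel)))
                (CovZ.badM (by decide +kernel))))))
            (CovZ.n1 (-1280, 27680) (by decide +kernel)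
             (CovZ.n2 (-1360, 27600) (by decide +kernel)
              (CovZ.n2 (-1360, 27680) (by decide +kernel)
               (CovZ.n2 (-1320, 27640) (by decide +kernel)
                (CovZ.n2 (-1360, 27640) (by decide +kernel)
                 (CovZ.badM (by decide +kernel))
                 (CovZ.badM (by decide +kernel)))
                (CovZ.n1 (-1320, 27680) (by decide +kernel)
                 (CovZ.n2 (-1300, 27660) (by decide +kernel)
                  (CovZ.badM (by decide +kernel))
                  (CovZ.leaf K2_ok TE_l1437 _))
                 (CovZ.badM (by decide +kernel))))
               (CovZ.n1 (-1400, 27640) (by decide +kernel)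
                (CovZ.badM (by decide +kernel))
                (CovZ.n1 (-1360, 27640) (by decide +kernel)
                 (CovZ.badM (by decide +kernel))
                 (CovZ.badM (by decide +kernel)))))
              (CovZ.n1 (-1280, 27600) (by decide +kernel)
               (CovZ.badM (by decide +kernel))
               (CovZ.n1 (-1320, 27640) (by decide +kernel)
                (CovZ.n2 (-1280, 27640) (by decide +kernel)
                 (CovZ.badM (by decide +kernel))
                 (CovZ.n1 (-1300, 27660) (by decide +kernel)
                  (CovZ.leaf K2_ok TE_l1439 _)
                  (CovZ.badM (by decide +kernel))))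
                (CovZ.badM (by decide +kernel)))))
             (CovZ.n1 (-1360, 27760) (by decide +kernel)
              (CovZ.n2 (-1280, 27760) (by decide +kernel)
               (CovZ.n2 (-1320, 27720) (by decide +kernel)
                (CovZ.n2 (-1320, 27760) (by decide +kernel)
                 (CovZ.leaf K2_ok TE_l1441 _)
                 (CovZ.badM (by decide +kernel)))
                (CovZ.n1 (-1280, 27720) (by decide +kernel)
                 (CovZ.n2 (-1300, 27700) (by decide +kernel)
                  (CovZ.leaf K2_ok TE_l1442 _)
                  (CovZ.leaf K2_ok TE_l1443 _))
                 (CovZ.leaf K2_ok TE_l1444 _)))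
               (CovZ.n1 (-1320, 27800) (by decide +kernel)
                (CovZ.n2 (-1280, 27800) (by decide +kernel)
                 (CovZ.leaf K2_ok TE_l1445 _)
                 (CovZ.leaf K2_ok TE_l1446 _))
                (CovZ.n1 (-1320, 27760) (by decide +kernel)
                 (CovZ.badM (by decide +kernel))
                 (CovZ.n1 (-1300, 27780) (by decide +kernel)
                  (CovZ.leaf K2_ok TE_l1447 _)
                  (CovZ.badM (by decide +kernel))))))
              (CovZ.n1 (-1360, 27680) (by decide +kernel)
               (CovZ.badM (by decide +kernel))
               (CovZ.n1 (-1320, 27720) (by decide +kernel)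
                (CovZ.n2 (-1320, 27680) (by decide +kernel)
                 (CovZ.badM (by decide +kernel))
                 (CovZ.n1 (-1300, 27700) (by decide +kernel)
                  (CovZ.leaf K2_ok TE_l1448 _)
                  (CovZ.badM (by decide +kernel))))
                (CovZ.badM (by decide +kernel))))))))
          (CovZ.subM 1532496271998609167814835495568752293459520367309619200 (by decide +kernel)
           (CovZ.n1 (-1440, 28000) (by decide +kernel)
            (CovZ.n2 (-1280, 28000) (by decide +kernel)
             (CovZ.n2 (-1360, 27920) (by decide +kernel)
              (CovZ.subM 1532496271616707523892882957957445298081074484961345536 (by decide +kernel)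
               (CovZ.n2 (-1360, 28000) (by decide +kernel)
                (CovZ.n2 (-1320, 27960) (by decide +kernel)
                 (CovZ.n2 (-1360, 27960) (by decide +kernel)
                  (CovZ.n2 (-1340, 27980) (by decide +kernel)
                   (CovZ.leaf K2_ok TE_l1450 _)
                   (CovZ.leaf K2_ok TE_l1451 _))
                  (CovZ.leaf K2_ok TE_l1452 _))
                 (CovZ.leaf K2_ok TE_l1453 _))
                (CovZ.n1 (-1400, 27960) (by decide +kernel)
                 (CovZ.badM (by decide +kernel))
                 (CovZ.n1 (-1360, 27960) (by decide +kernel)
                  (CovZ.n2 (-1380, 27940) (by decide +kernel)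
                   (CovZ.badM (by decide +kernel))
                   (CovZ.leaf K2_ok TE_l1454 _))
                  (CovZ.badM (by decide +kernel))))))
              (CovZ.n1 (-1280, 27920) (by decide +kernel)
               (CovZ.subM 1532495541247789119883184027677270873302179906517467136 (by decide +kernel)
                (CovZ.n2 (-1320, 27880) (by decide +kernel)
                 (CovZ.n2 (-1320, 27920) (by decide +kernel)
                  (CovZ.leaf K2_ok TE_l1455 _)
                  (CovZ.n1 (-1340, 27900) (by decide +kernel)
                   (CovZ.leaf K2_ok TE_l1456 _)
                   (CovZ.leaf K2_ok TE_l1457 _)))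
                 (CovZ.n1 (-1280, 27880) (by decide +kernel)
                  (CovZ.leaf K2_ok TE_l1458 _)
                  (CovZ.leaf K2_ok TE_l1459 _))))
               (CovZ.n1 (-1320, 27960) (by decide +kernel)
                (CovZ.leaf K2_ok TE_l1460 _)
                (CovZ.n1 (-1320, 27920) (by decide +kernel)
                 (CovZ.leaf K2_ok TE_l1461 _)
                 (CovZ.leaf K2_ok TE_l1462 _)))))
             (CovZ.subM 1532496271616707545160530890516099264541987449446858752 (by decide +kernel)
              (CovZ.n1 (-1360, 28080) (by decide +kernel)
               (CovZ.n2 (-1280, 28080) (by decide +kernel)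
                (CovZ.n2 (-1320, 28040) (by decide +kernel)
                 (CovZ.leaf K2_ok TE_l1463 _)
                 (CovZ.leaf K2_ok TE_l1464 _))
                (CovZ.n1 (-1320, 28120) (by decide +kernel)
                 (CovZ.leaf K2_ok TE_l1465 _)
                 (CovZ.leaf K2_ok TE_l1466 _)))
               (CovZ.n1 (-1360, 28000) (by decide +kernel)
                (CovZ.n2 (-1400, 28040) (by decide +kernel)
                 (CovZ.n2 (-1360, 28040) (by decide +kernel)
                  (CovZ.n2 (-1380, 28020) (by decide +kernel)
                   (CovZ.leaf K2_ok TE_l1467 _)
                   (CovZ.leaf K2_ok TE_l1468 _))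
                  (CovZ.leaf K2_ok TE_l1469 _))
                 (CovZ.n1 (-1400, 28000) (by decide +kernel)
                  (CovZ.badM (by decide +kernel))
                  (CovZ.n1 (-1380, 28020) (by decide +kernel)
                   (CovZ.badM (by decide +kernel))
                   (CovZ.leaf K2_ok TE_l1471 _))))
                (CovZ.n1 (-1320, 28040) (by decide +kernel)
                 (CovZ.leaf K2_ok TE_l1472 _)
                 (CovZ.n1 (-1360, 28040) (by decide +kernel)
                  (CovZ.leaf K2_ok TE_l1473 _)
                  (CovZ.leaf K2_ok TE_l1474 _)))))))
            (CovZ.n1 (-1440, 27840) (by decide +kernel)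
             (CovZ.n2 (-1520, 27920) (by decide +kernel)
              (CovZ.n2 (-1440, 27920) (by decide +kernel)
               (CovZ.badM (by decide +kernel))
               (CovZ.badM (by decide +kernel)))
              (CovZ.badM (by decide +kernel)))
             (CovZ.n1 (-1360, 27920) (by decide +kernel)
              (CovZ.subM 1532495541247789119883184027677270873302179906517467136 (by decide +kernel)
               (CovZ.n2 (-1360, 27840) (by decide +kernel)
                (CovZ.badM (by decide +kernel))
                (CovZ.n1 (-1320, 27880) (by decide +kernel)
                 (CovZ.n2 (-1320, 27840) (by decide +kernel)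
                  (CovZ.n2 (-1340, 27860) (by decide +kernel)
                   (CovZ.leaf K2_ok TE_l19572 _)
                   (CovZ.badM (by decide +kernel)))
                  (CovZ.leaf K2_ok TE_l1475 _))
                 (CovZ.n1 (-1360, 27880) (by decide +kernel)
                  (CovZ.n2 (-1340, 27900) (by decide +kernel)
                   (CovZ.leaf K2_ok TE_l19573 _)
                   (CovZ.leaf K2_ok TE_l1476 _))
                  (CovZ.n1 (-1340, 27860) (by decide +kernel)
                   (CovZ.leaf K2_ok TE_l19574 _)
                   (CovZ.leaf K2_ok TE_l19575 _))))))
              (CovZ.subM 730750820026664003535332827453696427496306638848 (by decide +kernel)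
               (CovZ.n1 (-1440, 27920) (by decide +kernel)
                (CovZ.n2 (-1400, 27960) (by decide +kernel)
                 (CovZ.n2 (-1400, 27920) (by decide +kernel)
                  (CovZ.badM (by decide +kernel))
                  (CovZ.n1 (-1380, 27940) (by decide +kernel)
                   (CovZ.leaf K2_ok TE_l1477 _)
                   (CovZ.badM (by decide +kernel))))
                 (CovZ.badM (by decide +kernel)))
                (CovZ.badM (by decide +kernel)))))))))
         (CovZ.subM 22300746538143215119401325004276964243013632 (by decide +kernel)
          (CovZ.n1 (-1600, 27520) (by decide +kernel)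
           (CovZ.n2 (-1760, 27680) (by decide +kernel)
            (CovZ.n2 (-1600, 27680) (by decide +kernel)
             (CovZ.n2 (-1680, 27600) (by decide +kernel)
              (CovZ.badM (by decide +kernel))
              (CovZ.n1 (-1600, 27600) (by decide +kernel)
               (CovZ.badM (by decide +kernel))
               (CovZ.badM (by decide +kernel))))
             (CovZ.n1 (-1680, 27760) (by decide +kernel)
              (CovZ.n2 (-1600, 27760) (by decide +kernel)
               (CovZ.badM (by decide +kernel))
               (CovZ.badM (by decide +kernel)))
              (CovZ.badM (by decide +kernel))))
            (CovZ.n1 (-1760, 27520) (by decide +kernel)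
             (CovZ.badM (by decide +kernel))
             (CovZ.n1 (-1680, 27600) (by decide +kernel)
              (CovZ.badM (by decide +kernel))
              (CovZ.badM (by decide +kernel)))))
           (CovZ.n1 (-1440, 27680) (by decide +kernel)
            (CovZ.n2 (-1440, 27520) (by decide +kernel)
             (CovZ.n2 (-1520, 27600) (by decide +kernel)
              (CovZ.n2 (-1440, 27600) (by decide +kernel)
               (CovZ.badM (by decide +kernel))
               (CovZ.badM (by decide +kernel)))
              (CovZ.badM (by decide +kernel)))
             (CovZ.n1 (-1360, 27600) (by decide +kernel)
              (CovZ.badM (by decide +kernel))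
              (CovZ.n1 (-1440, 27600) (by decide +kernel)
               (CovZ.n2 (-1400, 27640) (by decide +kernel)
                (CovZ.badM (by decide +kernel))
                (CovZ.badM (by decide +kernel)))
               (CovZ.badM (by decide +kernel)))))
            (CovZ.n1 (-1600, 27680) (by decide +kernel)
             (CovZ.n2 (-1520, 27760) (by decide +kernel)
              (CovZ.badM (by decide +kernel))
              (CovZ.n1 (-1600, 27760) (by decide +kernel)
               (CovZ.badM (by decide +kernel))
               (CovZ.badM (by decide +kernel))))
             (CovZ.n1 (-1520, 27600) (by decide +kernel)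
              (CovZ.n2 (-1600, 27600) (by decide +kernel)
               (CovZ.badM (by decide +kernel))
               (CovZ.badM (by decide +kernel)))
              (CovZ.badM (by decide +kernel)))))))))

theorem TE_u49 : CovZ TE_M (toL (selN TE_LN 25122199407994643624572706783321226129511796604682297671680)) [0, 7, 6, 1] (-2560, 25600) (-1280, 26880) (-2560, 28160) :=
    (CovZ.subM 1532496272087812160582435033530557594695434542962966528 (by decide +kernel)
     (CovZ.n2 (-2560, 26880) (by decide +kernel)
      (CovZ.n2 (-1920, 27520) (by decide +kernel)
       (CovZ.n2 (-1920, 26880) (by decide +kernel)
        (CovZ.badM (by decide +kernel))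
        (CovZ.n1 (-1600, 27200) (by decide +kernel)
         (CovZ.badM (by decide +kernel))
         (CovZ.badM (by decide +kernel))))
       (CovZ.subM 2788955618937169681558767640367544399822848 (by decide +kernel)
        (CovZ.n1 (-2560, 27520) (by decide +kernel)
         (CovZ.subM 2788955608552572250668994527165727044009984 (by decide +kernel)
          (CovZ.n2 (-2240, 27840) (by decide +kernel)
           (CovZ.n2 (-2240, 27520) (by decide +kernel)
            (CovZ.n2 (-2400, 27680) (by decide +kernel)
             (CovZ.n2 (-2240, 27680) (by decide +kernel)
              (CovZ.badM (by decide +kernel))
              (CovZ.badM (by decide +kernel)))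
             (CovZ.badM (by decide +kernel)))
            (CovZ.n1 (-2080, 27680) (by decide +kernel)
             (CovZ.badM (by decide +kernel))
             (CovZ.n1 (-2240, 27680) (by decide +kernel)
              (CovZ.badM (by decide +kernel))
              (CovZ.badM (by decide +kernel)))))
           (CovZ.n1 (-2560, 27840) (by decide +kernel)
            (CovZ.badM (by decide +kernel))
            (CovZ.badM (by decide +kernel)))))
         (CovZ.badM (by decide +kernel)))))
      (CovZ.subM 89202980794122492566142873090593446023921664 (by decide +kernel)
       (CovZ.n1 (-1920, 26240) (by decide +kernel)
        (CovZ.n2 (-2560, 26240) (by decide +kernel)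
         (CovZ.n2 (-2240, 26560) (by decide +kernel)
          (CovZ.badM (by decide +kernel))
          (CovZ.badM (by decide +kernel)))
         (CovZ.badM (by decide +kernel)))
        (CovZ.n1 (-1920, 26880) (by decide +kernel)
         (CovZ.n2 (-1600, 26560) (by decide +kernel)
          (CovZ.n2 (-1920, 26560) (by decide +kernel)
           (CovZ.badM (by decide +kernel))
           (CovZ.badM (by decide +kernel)))
          (CovZ.badM (by decide +kernel)))
         (CovZ.n1 (-2240, 26560) (by decide +kernel)
          (CovZ.badM (by decide +kernel))
          (CovZ.n1 (-1920, 26560) (by decide +kernel)
           (CovZ.badM (by decide +kernel))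
           (CovZ.badM (by decide +kernel)))))))))

theorem TE_u50 : CovZ TE_M (toL (selN TE_LN 25122199407994643624572706783321226129511796604682297671680)) [0, 7, 6, 1] (-1280, 26880) (0, 28160) (-2560, 28160) :=
    (CovZ.n1 (-1280, 28160) (by decide +kernel)
     (CovZ.n2 (-640, 27520) (by decide +kernel)
      (CovZ.n2 (-1280, 27520) (by decide +kernel)
       (CovZ.n2 (-960, 27840) (by decide +kernel)
        TE_u43
        TE_u44)
       (CovZ.subM 158456326209120295913089138688 (by decide +kernel)
        (CovZ.n1 (-960, 27200) (by decide +kernel)
         (CovZ.n2 (-1280, 27200) (by decide +kernel)
          (CovZ.n2 (-1120, 27360) (by decide +kernel)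
           (CovZ.badM (by decide +kernel))
           (CovZ.n1 (-1280, 27360) (by decide +kernel)
            (CovZ.n2 (-1200, 27440) (by decide +kernel)
             (CovZ.n2 (-1200, 27360) (by decide +kernel)
              (CovZ.badM (by decide +kernel))
              (CovZ.n1 (-1160, 27400) (by decide +kernel)
               (CovZ.badM (by decide +kernel))
               (CovZ.badM (by decide +kernel))))
             (CovZ.badM (by decide +kernel)))
            (CovZ.badM (by decide +kernel))))
          (CovZ.badM (by decide +kernel)))
         (CovZ.n1 (-960, 27520) (by decide +kernel)
          (CovZ.n2 (-800, 27360) (by decide +kernel)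
           (CovZ.n2 (-960, 27360) (by decide +kernel)
            (CovZ.n2 (-880, 27440) (by decide +kernel)
             (CovZ.badM (by decide +kernel))
             (CovZ.n1 (-960, 27440) (by decide +kernel)
              (CovZ.n2 (-920, 27480) (by decide +kernel)
               (CovZ.n2 (-920, 27440) (by decide +kernel)
                (CovZ.leaf K2_ok TE_l1190 _)
                (CovZ.n1 (-900, 27460) (by decide +kernel)
                 (CovZ.badM (by decide +kernel))
                 (CovZ.leaf K2_ok TE_l1192 _)))
               (CovZ.n1 (-960, 27480) (by decide +kernel)
                (CovZ.leaf K2_ok TE_l1193 _)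
                (CovZ.leaf K2_ok TE_l1194 _)))
              (CovZ.badM (by decide +kernel))))
            (CovZ.badM (by decide +kernel)))
           (CovZ.n1 (-800, 27520) (by decide +kernel)
            (CovZ.n2 (-720, 27440) (by decide +kernel)
             (CovZ.n2 (-800, 27440) (by decide +kernel)
              (CovZ.n2 (-760, 27480) (by decide +kernel)
               (CovZ.n2 (-760, 27440) (by decide +kernel)
                (CovZ.leaf K2_ok TE_l1204 _)
                (CovZ.n1 (-740, 27460) (by decide +kernel)
                 (CovZ.leaf K2_ok TE_l1205 _)
                 (CovZ.leaf K2_ok TE_l1206 _)))
               (CovZ.n1 (-800, 27480) (by decide +kernel)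
                (CovZ.leaf K2_ok TE_l1207 _)
                (CovZ.leaf K2_ok TE_l1208 _)))
              (CovZ.n1 (-760, 27400) (by decide +kernel)
               (CovZ.n2 (-800, 27400) (by decide +kernel)
                (CovZ.n2 (-780, 27420) (by decide +kernel)
                 (CovZ.leaf K2_ok TE_l1209 _)
                 (CovZ.leaf K2_ok TE_l1210 _))
                (CovZ.n1 (-780, 27380) (by decide +kernel)
                 (CovZ.leaf K2_ok TE_l17087 _)
                 (CovZ.leaf K2_ok TE_l17088 _)))
               (CovZ.n1 (-760, 27440) (by decide +kernel)
                (CovZ.leaf K2_ok TE_l1211 _)
                (CovZ.n1 (-780, 27420) (by decide +kernel)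
                 (CovZ.leaf K2_ok TE_l1212 _)
                 (CovZ.leaf K2_ok TE_l1213 _)))))
             (CovZ.n1 (-720, 27520) (by decide +kernel)
              (CovZ.n2 (-680, 27480) (by decide +kernel)
               (CovZ.n2 (-720, 27480) (by decide +kernel)
                (CovZ.leaf K2_ok TE_l1214 _)
                (CovZ.leaf K2_ok TE_l1215 _))
               (CovZ.n1 (-680, 27520) (by decide +kernel)
                (CovZ.leaf K2_ok TE_l1216 _)
                (CovZ.n1 (-700, 27500) (by decide +kernel)
                 (CovZ.leaf K2_ok TE_l1217 _)
                 (CovZ.leaf K2_ok TE_l1218 _))))
              (CovZ.n1 (-760, 27480) (by decide +kernel)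
               (CovZ.n2 (-760, 27520) (by decide +kernel)
                (CovZ.leaf K2_ok TE_l1219 _)
                (CovZ.n1 (-780, 27500) (by decide +kernel)
                 (CovZ.leaf K2_ok TE_l1220 _)
                 (CovZ.leaf K2_ok TE_l1221 _)))
               (CovZ.n1 (-720, 27480) (by decide +kernel)
                (CovZ.n2 (-740, 27460) (by decide +kernel)
                 (CovZ.leaf K2_ok TE_l1222 _)
                 (CovZ.leaf K2_ok TE_l1223 _))
                (CovZ.leaf K2_ok TE_l1224 _)))))
            (CovZ.n1 (-880, 27440) (by decide +kernel)
             (CovZ.n2 (-880, 27520) (by decide +kernel)
              (CovZ.n2 (-840, 27480) (by decide +kernel)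
               (CovZ.n2 (-880, 27480) (by decide +kernel)
                (CovZ.leaf K2_ok TE_l1225 _)
                (CovZ.leaf K2_ok TE_l1226 _))
               (CovZ.n1 (-840, 27520) (by decide +kernel)
                (CovZ.leaf K2_ok TE_l1227 _)
                (CovZ.leaf K2_ok TE_l1228 _)))
              (CovZ.n1 (-920, 27480) (by decide +kernel)
               (CovZ.n2 (-920, 27520) (by decide +kernel)
                (CovZ.leaf K2_ok TE_l1229 _)
                (CovZ.n1 (-940, 27500) (by decide +kernel)
                 (CovZ.leaf K2_ok TE_l1230 _)
                 (CovZ.leaf K2_ok TE_l1231 _)))
               (CovZ.n1 (-880, 27480) (by decide +kernel)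
                (CovZ.n2 (-900, 27460) (by decide +kernel)
                 (CovZ.leaf K2_ok TE_l1232 _)
                 (CovZ.leaf K2_ok TE_l1233 _))
                (CovZ.leaf K2_ok TE_l1234 _))))
             (CovZ.n1 (-800, 27440) (by decide +kernel)
              (CovZ.badM (by decide +kernel))
              (CovZ.n1 (-840, 27480) (by decide +kernel)
               (CovZ.n2 (-800, 27480) (by decide +kernel)
                (CovZ.n2 (-820, 27460) (by decide +kernel)
                 (CovZ.leaf K2_ok TE_l1242 _)
                 (CovZ.leaf K2_ok TE_l1243 _))
                (CovZ.leaf K2_ok TE_l1244 _))
               (CovZ.n1 (-840, 27440) (by decide +kernel)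
                (CovZ.leaf K2_ok TE_l1245 _)
                (CovZ.n1 (-820, 27460) (by decide +kernel)
                 (CovZ.badM (by decide +kernel))
                 (CovZ.leaf K2_ok TE_l1247 _))))))))
          (CovZ.n1 (-1120, 27360) (by decide +kernel)
           (CovZ.n2 (-1120, 27520) (by decide +kernel)
            (CovZ.n2 (-1040, 27440) (by decide +kernel)
             (CovZ.n2 (-1120, 27440) (by decide +kernel)
              (CovZ.n2 (-1080, 27480) (by decide +kernel)
               (CovZ.n2 (-1080, 27440) (by decide +kernel)
                (CovZ.leaf K2_ok TE_l1248 _)
                (CovZ.n1 (-1060, 27460) (by decide +kernel)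
                 (CovZ.leaf K2_ok TE_l17089 _)
                 (CovZ.leaf K2_ok TE_l1249 _)))
               (CovZ.n1 (-1120, 27480) (by decide +kernel)
                (CovZ.n2 (-1100, 27500) (by decide +kernel)
                 (CovZ.leaf K2_ok TE_l1250 _)
                 (CovZ.leaf K2_ok TE_l1251 _))
                (CovZ.leaf K2_ok TE_l1252 _)))
              (CovZ.n1 (-1080, 27400) (by decide +kernel)
               (CovZ.n2 (-1120, 27400) (by decide +kernel)
                (CovZ.n2 (-1100, 27420) (by decide +kernel)
                 (CovZ.badM (by decide +kernel))
                 (CovZ.leaf K2_ok TE_l1253 _))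
                (CovZ.badM (by decide +kernel)))
               (CovZ.n1 (-1080, 27440) (by decide +kernel)
                (CovZ.n2 (-1060, 27420) (by decide +kernel)
                 (CovZ.leaf K2_ok TE_l17090 _)
                 (CovZ.leaf K2_ok TE_l17091 _))
                (CovZ.n1 (-1100, 27420) (by decide +kernel)
                 (CovZ.leaf K2_ok TE_l1254 _)
                 (CovZ.leaf K2_ok TE_l17092 _)))))
             (CovZ.n1 (-1040, 27520) (by decide +kernel)
              (CovZ.n2 (-1000, 27480) (by decide +kernel)
               (CovZ.n2 (-1040, 27480) (by decide +kernel)
                (CovZ.leaf K2_ok TE_l1255 _)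
                (CovZ.leaf K2_ok TE_l1256 _))
               (CovZ.n1 (-1000, 27520) (by decide +kernel)
                (CovZ.leaf K2_ok TE_l1257 _)
                (CovZ.n1 (-1020, 27500) (by decide +kernel)
                 (CovZ.leaf K2_ok TE_l1258 _)
                 (CovZ.leaf K2_ok TE_l1259 _))))
              (CovZ.n1 (-1080, 27480) (by decide +kernel)
               (CovZ.n2 (-1080, 27520) (by decide +kernel)
                (CovZ.leaf K2_ok TE_l1260 _)
                (CovZ.n1 (-1100, 27500) (by decide +kernel)
                 (CovZ.leaf K2_ok TE_l1261 _)
                 (CovZ.leaf K2_ok TE_l1262 _)))
               (CovZ.n1 (-1040, 27480) (by decide +kernel)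
                (CovZ.n2 (-1060, 27460) (by decide +kernel)
                 (CovZ.leaf K2_ok TE_l1263 _)
                 (CovZ.leaf K2_ok TE_l1264 _))
                (CovZ.leaf K2_ok TE_l1265 _)))))
            (CovZ.n1 (-1200, 27440) (by decide +kernel)
             (CovZ.badM (by decide +kernel))
             (CovZ.n1 (-1120, 27440) (by decide +kernel)
              (CovZ.n2 (-1160, 27400) (by decide +kernel)
               (CovZ.n2 (-1160, 27440) (by decide +kernel)
                (CovZ.n2 (-1140, 27420) (by decide +kernel)
                 (CovZ.badM (by decide +kernel))
                 (CovZ.leaf K2_ok TE_l1266 _))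
                (CovZ.badM (by decide +kernel)))
               (CovZ.n1 (-1120, 27400) (by decide +kernel)
                (CovZ.badM (by decide +kernel))
                (CovZ.n1 (-1140, 27420) (by decide +kernel)
                 (CovZ.leaf K2_ok TE_l1267 _)
                 (CovZ.leaf K2_ok TE_l17093 _))))
              (CovZ.n1 (-1160, 27480) (by decide +kernel)
               (CovZ.n2 (-1120, 27480) (by decide +kernel)
                (CovZ.n2 (-1140, 27460) (by decide +kernel)
                 (CovZ.leaf K2_ok TE_l17094 _)
                 (CovZ.leaf K2_ok TE_l1268 _))
                (CovZ.leaf K2_ok TE_l17095 _))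
               (CovZ.n1 (-1160, 27440) (by decide +kernel)
                (CovZ.badM (by decide +kernel))
                (CovZ.n1 (-1140, 27460) (by decide +kernel)
                 (CovZ.leaf K2_ok TE_l1269 _)
                 (CovZ.badM (by decide +kernel))))))))
           (CovZ.n1 (-960, 27360) (by decide +kernel)
            (CovZ.badM (by decide +kernel))
            (CovZ.n1 (-1040, 27440) (by decide +kernel)
             (CovZ.n2 (-960, 27440) (by decide +kernel)
              (CovZ.n2 (-1000, 27400) (by decide +kernel)
               (CovZ.n2 (-1000, 27440) (by decide +kernel)
                (CovZ.badM (by decide +kernel))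
                (CovZ.n1 (-1020, 27420) (by decide +kernel)
                 (CovZ.leaf K2_ok TE_l1273 _)
                 (CovZ.badM (by decide +kernel))))
               (CovZ.badM (by decide +kernel)))
              (CovZ.n1 (-1000, 27480) (by decide +kernel)
               (CovZ.n2 (-960, 27480) (by decide +kernel)
                (CovZ.n2 (-980, 27460) (by decide +kernel)
                 (CovZ.leaf K2_ok TE_l1278 _)
                 (CovZ.leaf K2_ok TE_l1279 _))
                (CovZ.leaf K2_ok TE_l1280 _))
               (CovZ.n1 (-1000, 27440) (by decide +kernel)
                (CovZ.leaf K2_ok TE_l1281 _)
                (CovZ.n1 (-980, 27460) (by decide +kernel)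
                 (CovZ.leaf K2_ok TE_l1282 _)
                 (CovZ.leaf K2_ok TE_l1283 _)))))
             (CovZ.n1 (-1040, 27360) (by decide +kernel)
              (CovZ.n2 (-1080, 27400) (by decide +kernel)
               (CovZ.n2 (-1040, 27400) (by decide +kernel)
                (CovZ.badM (by decide +kernel))
                (CovZ.n1 (-1060, 27420) (by decide +kernel)
                 (CovZ.leaf K2_ok TE_l17096 _)
                 (CovZ.badM (by decide +kernel))))
               (CovZ.badM (by decide +kernel)))
              (CovZ.n1 (-1000, 27400) (by decide +kernel)
               (CovZ.badM (by decide +kernel))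
               (CovZ.n1 (-1040, 27400) (by decide +kernel)
                (CovZ.n2 (-1020, 27420) (by decide +kernel)
                 (CovZ.badM (by decide +kernel))
                 (CovZ.leaf K2_ok TE_l1289 _))
                (CovZ.badM (by decide +kernel))))))))))))
      (CovZ.n1 (-640, 28160) (by decide +kernel)
       TE_u45
       TE_u46))
     (CovZ.subM 1532496271998609169154488653913250252638722208240238592 (by decide +kernel)
      (CovZ.n1 (-1920, 27520) (by decide +kernel)
       TE_u47
       TE_u48)))

theorem TE_u51 : CovZ TE_M (toL (selN TE_LN 1810944000319799452907959681637671759591421004847668236241744)) [0, 7, 6, 1] (2560, 25600) (2560, 26240) (1920, 26240) :=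
    (CovZ.subM 5986316415500956506339095888518173227553417771091968 (by decide +kernel)
         (CovZ.n2 (2240, 25920) (by decide +kernel)
          (CovZ.n2 (2240, 26240) (by decide +kernel)
           (CovZ.subM 2807329527097742342504099847334814285824 (by decide +kernel)
            (CovZ.n2 (2400, 26080) (by decide +kernel)
             (CovZ.subM 18889465931478580854784 (by decide +kernel)
              (CovZ.n2 (2240, 26080) (by decide +kernel)
               (CovZ.n2 (2320, 26160) (by decide +kernel)
                (CovZ.n2 (2320, 26080) (by decide +kernel)
                 (CovZ.badM (by decide +kernel))
                 (CovZ.n1 (2360, 26120) (by decide +kernel)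
                  (CovZ.badM (by decide +kernel))
                  (CovZ.badM (by decide +kernel))))
                (CovZ.badM (by decide +kernel)))
               (CovZ.n1 (2320, 26000) (by decide +kernel)
                (CovZ.badM (by decide +kernel))
                (CovZ.n1 (2320, 26080) (by decide +kernel)
                 (CovZ.badM (by decide +kernel))
                 (CovZ.badM (by decide +kernel))))))
             (CovZ.n1 (2400, 26240) (by decide +kernel)
              (CovZ.n2 (2480, 26160) (by decide +kernel)
               (CovZ.subM 85070591730234634755597813714822103040 (by decide +kernel)
                (CovZ.n2 (2400, 26160) (by decide +kernel)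
                 (CovZ.n2 (2440, 26200) (by decide +kernel)
                  (CovZ.leaf K2_ok TE_l3230 _)
                  (CovZ.n1 (2400, 26200) (by decide +kernel)
                   (CovZ.leaf K2_ok TE_l3231 _)
                   (CovZ.leaf K2_ok TE_l3232 _)))
                 (CovZ.n1 (2440, 26120) (by decide +kernel)
                  (CovZ.n2 (2400, 26120) (by decide +kernel)
                   (CovZ.n2 (2420, 26140) (by decide +kernel)
                    (CovZ.leaf K2_ok TE_l3233 _)
                    (CovZ.leaf K2_ok TE_l3234 _))
                   (CovZ.n1 (2420, 26100) (by decide +kernel)
                    (CovZ.leaf K2_ok TE_l17196 _)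
                    (CovZ.leaf K2_ok TE_l3235 _)))
                  (CovZ.n1 (2440, 26160) (by decide +kernel)
                   (CovZ.leaf K2_ok TE_l3236 _)
                   (CovZ.n1 (2420, 26140) (by decide +kernel)
                    (CovZ.leaf K2_ok TE_l3237 _)
                    (CovZ.leaf K2_ok TE_l3238 _))))))
               (CovZ.n1 (2480, 26240) (by decide +kernel)
                (CovZ.leaf K2_ok TE_l3239 _)
                (CovZ.n1 (2440, 26200) (by decide +kernel)
                 (CovZ.n2 (2440, 26240) (by decide +kernel)
                  (CovZ.leaf K2_ok TE_l3240 _)
                  (CovZ.leaf K2_ok TE_l3241 _))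
                 (CovZ.leaf K2_ok TE_l3242 _))))
              (CovZ.subM 18889465931480728338432 (by decide +kernel)
               (CovZ.n1 (2320, 26160) (by decide +kernel)
                (CovZ.n2 (2320, 26240) (by decide +kernel)
                 (CovZ.n2 (2360, 26200) (by decide +kernel)
                  (CovZ.badM (by decide +kernel))
                  (CovZ.n1 (2360, 26240) (by decide +kernel)
                   (CovZ.leaf K2_ok TE_l3243 _)
                   (CovZ.n1 (2340, 26220) (by decide +kernel)
                    (CovZ.badM (by decide +kernel))
                    (CovZ.leaf K2_ok TE_l17197 _))))
                 (CovZ.badM (by decide +kernel)))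
                (CovZ.n1 (2400, 26160) (by decide +kernel)
                 (CovZ.n2 (2360, 26120) (by decide +kernel)
                  (CovZ.n2 (2360, 26160) (by decide +kernel)
                   (CovZ.n2 (2380, 26140) (by decide +kernel)
                    (CovZ.badM (by decide +kernel))
                    (CovZ.leaf K2_ok TE_l3244 _))
                   (CovZ.badM (by decide +kernel)))
                  (CovZ.badM (by decide +kernel)))
                 (CovZ.n1 (2360, 26200) (by decide +kernel)
                  (CovZ.n2 (2400, 26200) (by decide +kernel)
                   (CovZ.n2 (2380, 26180) (by decide +kernel)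
                    (CovZ.leaf K2_ok TE_l3247 _)
                    (CovZ.leaf K2_ok TE_l3248 _))
                   (CovZ.leaf K2_ok TE_l3249 _))
                  (CovZ.n1 (2360, 26160) (by decide +kernel)
                   (CovZ.badM (by decide +kernel))
                   (CovZ.n1 (2380, 26180) (by decide +kernel)
                    (CovZ.leaf K2_ok TE_l3250 _)
                    (CovZ.badM (by decide +kernel)))))))))))
           (CovZ.badM (by decide +kernel)))
          (CovZ.n1 (2560, 25920) (by decide +kernel)
           (CovZ.subM 5708993493082774931354932842215239172600367104 (by decide +kernel)
            (CovZ.n2 (2400, 25760) (by decide +kernel)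
             (CovZ.n2 (2400, 25920) (by decide +kernel)
              (CovZ.n2 (2480, 25840) (by decide +kernel)
               (CovZ.badM (by decide +kernel))
               (CovZ.n1 (2480, 25920) (by decide +kernel)
                (CovZ.n2 (2520, 25880) (by decide +kernel)
                 (CovZ.n2 (2480, 25880) (by decide +kernel)
                  (CovZ.n2 (2500, 25900) (by decide +kernel)
                   (CovZ.badM (by decide +kernel))
                   (CovZ.badM (by decide +kernel)))
                  (CovZ.badM (by decide +kernel)))
                 (CovZ.n1 (2520, 25920) (by decide +kernel)
                  (CovZ.badM (by decide +kernel))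
                  (CovZ.n1 (2500, 25900) (by decide +kernel)
                   (CovZ.leaf K2_ok TE_l3253 _)
                   (CovZ.badM (by decide +kernel)))))
                (CovZ.badM (by decide +kernel))))
              (CovZ.badM (by decide +kernel)))
             (CovZ.n1 (2560, 25760) (by decide +kernel)
              (CovZ.n2 (2480, 25680) (by decide +kernel)
               (CovZ.n2 (2480, 25760) (by decide +kernel)
                (CovZ.badM (by decide +kernel))
                (CovZ.n1 (2440, 25720) (by decide +kernel)
                 (CovZ.n2 (2440, 25760) (by decide +kernel)
                  (CovZ.badM (by decide +kernel))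
                  (CovZ.badM (by decide +kernel)))
                 (CovZ.badM (by decide +kernel))))
               (CovZ.badM (by decide +kernel)))
              (CovZ.n1 (2480, 25840) (by decide +kernel)
               (CovZ.n2 (2560, 25840) (by decide +kernel)
                (CovZ.n2 (2520, 25800) (by decide +kernel)
                 (CovZ.badM (by decide +kernel))
                 (CovZ.n1 (2560, 25800) (by decide +kernel)
                  (CovZ.badM (by decide +kernel))
                  (CovZ.n1 (2540, 25820) (by decide +kernel)
                   (CovZ.leaf K2_ok TE_l17198 _)
                   (CovZ.badM (by decide +kernel)))))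
                (CovZ.badM (by decide +kernel)))
               (CovZ.n1 (2480, 25760) (by decide +kernel)
                (CovZ.n2 (2440, 25800) (by decide +kernel)
                 (CovZ.badM (by decide +kernel))
                 (CovZ.n1 (2440, 25760) (by decide +kernel)
                  (CovZ.badM (by decide +kernel))
                  (CovZ.badM (by decide +kernel))))
                (CovZ.badM (by decide +kernel)))))))
           (CovZ.subM 5708993578153366621975467492431896402301288448 (by decide +kernel)
            (CovZ.n1 (2400, 26080) (by decide +kernel)
             (CovZ.n2 (2560, 26080) (by decide +kernel)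
              (CovZ.n2 (2480, 26000) (by decide +kernel)
               (CovZ.n2 (2480, 26080) (by decide +kernel)
                (CovZ.n2 (2520, 26040) (by decide +kernel)
                 (CovZ.leaf K2_ok TE_l3258 _)
                 (CovZ.leaf K2_ok TE_l3259 _))
                (CovZ.subM 85070591730234615866131882236241248256 (by decide +kernel)
                 (CovZ.n1 (2440, 26040) (by decide +kernel)
                  (CovZ.n2 (2440, 26080) (by decide +kernel)
                   (CovZ.leaf K2_ok TE_l3260 _)
                   (CovZ.n1 (2420, 26060) (by decide +kernel)
                    (CovZ.leaf K2_ok TE_l3261 _)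
                    (CovZ.badM (by decide +kernel))))
                  (CovZ.n1 (2480, 26040) (by decide +kernel)
                   (CovZ.badM (by decide +kernel))
                   (CovZ.leaf K2_ok TE_l3265 _)))))
               (CovZ.n1 (2560, 26000) (by decide +kernel)
                (CovZ.n2 (2520, 25960) (by decide +kernel)
                 (CovZ.n2 (2520, 26000) (by decide +kernel)
                  (CovZ.leaf K2_ok TE_l3266 _)
                  (CovZ.leaf K2_ok TE_l3267 _))
                 (CovZ.leaf K2_ok TE_l3268 _))
                (CovZ.n1 (2520, 26040) (by decide +kernel)
                 (CovZ.leaf K2_ok TE_l3269 _)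
                 (CovZ.leaf K2_ok TE_l3270 _))))
              (CovZ.n1 (2480, 26160) (by decide +kernel)
               (CovZ.n2 (2560, 26160) (by decide +kernel)
                (CovZ.n2 (2520, 26120) (by decide +kernel)
                 (CovZ.leaf K2_ok TE_l3271 _)
                 (CovZ.leaf K2_ok TE_l3272 _))
                (CovZ.leaf K2_ok TE_l3273 _))
               (CovZ.n1 (2480, 26080) (by decide +kernel)
                (CovZ.n2 (2440, 26120) (by decide +kernel)
                 (CovZ.leaf K2_ok TE_l3274 _)
                 (CovZ.n1 (2440, 26080) (by decide +kernel)
                  (CovZ.leaf K2_ok TE_l3275 _)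
                  (CovZ.leaf K2_ok TE_l3276 _)))
                (CovZ.n1 (2520, 26120) (by decide +kernel)
                 (CovZ.leaf K2_ok TE_l3277 _)
                 (CovZ.leaf K2_ok TE_l3278 _)))))
             (CovZ.n1 (2400, 25920) (by decide +kernel)
              (CovZ.badM (by decide +kernel))
              (CovZ.n1 (2480, 26000) (by decide +kernel)
               (CovZ.subM 5708993493082774891740851584794840000213549056 (by decide +kernel)
                (CovZ.n2 (2480, 25920) (by decide +kernel)
                 (CovZ.n2 (2440, 25960) (by decide +kernel)
                  (CovZ.n2 (2480, 25960) (by decide +kernel)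
                   (CovZ.n2 (2460, 25940) (by decide +kernel)
                    (CovZ.badM (by decide +kernel))
                    (CovZ.leaf K2_ok TE_l17199 _))
                   (CovZ.badM (by decide +kernel)))
                  (CovZ.n1 (2440, 25920) (by decide +kernel)
                   (CovZ.badM (by decide +kernel))
                   (CovZ.n1 (2460, 25940) (by decide +kernel)
                    (CovZ.badM (by decide +kernel))
                    (CovZ.badM (by decide +kernel)))))
                 (CovZ.n1 (2520, 25960) (by decide +kernel)
                  (CovZ.n2 (2520, 25920) (by decide +kernel)
                   (CovZ.leaf K2_ok TE_l3281 _)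
                   (CovZ.leaf K2_ok TE_l3282 _))
                  (CovZ.n1 (2480, 25960) (by decide +kernel)
                   (CovZ.leaf K2_ok TE_l3283 _)
                   (CovZ.leaf K2_ok TE_l3284 _)))))
               (CovZ.subM 85070591730234615866131882234093764608 (by decide +kernel)
                (CovZ.n1 (2400, 26000) (by decide +kernel)
                 (CovZ.n2 (2440, 26040) (by decide +kernel)
                  (CovZ.badM (by decide +kernel))
                  (CovZ.n1 (2400, 26040) (by decide +kernel)
                   (CovZ.n2 (2420, 26060) (by decide +kernel)
                    (CovZ.badM (by decide +kernel))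
                    (CovZ.leaf K2_ok TE_l17200 _))
                   (CovZ.badM (by decide +kernel))))
                 (CovZ.badM (by decide +kernel)))))))))))

theorem TE_u52 : CovZ TE_M (toL (selN TE_LN 1810944000319799452907959681637671759591421004847668236241744)) [0, 7, 6, 1] (2560, 26240) (2560, 26880) (1920, 26240) :=
    (CovZ.n1 (2240, 26560) (by decide +kernel)
         (CovZ.n2 (2560, 26560) (by decide +kernel)
          (CovZ.subM 200867261518730162879268008249464472557931321133483965350400 (by decide +kernel)
           (CovZ.n2 (2400, 26400) (by decide +kernel)
            (CovZ.n2 (2400, 26560) (by decide +kernel)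
             (CovZ.n2 (2480, 26480) (by decide +kernel)
              (CovZ.n2 (2400, 26480) (by decide +kernel)
               (CovZ.n2 (2440, 26520) (by decide +kernel)
                (CovZ.leaf K2_ok TE_l3287 _)
                (CovZ.leaf K2_ok TE_l3288 _))
               (CovZ.leaf K2_ok TE_l3289 _))
              (CovZ.n1 (2480, 26560) (by decide +kernel)
               (CovZ.leaf K2_ok TE_l3290 _)
               (CovZ.n1 (2440, 26520) (by decide +kernel)
                (CovZ.leaf K2_ok TE_l3291 _)
                (CovZ.leaf K2_ok TE_l3292 _))))
             (CovZ.n1 (2320, 26480) (by decide +kernel)
              (CovZ.n2 (2320, 26560) (by decide +kernel)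
               (CovZ.subM 200867261518684490950208685107443664895686607497106460574208 (by decide +kernel)
                (CovZ.n2 (2360, 26520) (by decide +kernel)
                 (CovZ.n2 (2320, 26520) (by decide +kernel)
                  (CovZ.leaf K2_ok TE_l3293 _)
                  (CovZ.leaf K2_ok TE_l3294 _))
                 (CovZ.n1 (2360, 26560) (by decide +kernel)
                  (CovZ.leaf K2_ok TE_l3295 _)
                  (CovZ.leaf K2_ok TE_l3296 _))))
               (CovZ.subM 10775049482536607295764361642496 (by decide +kernel)
                (CovZ.n1 (2280, 26520) (by decide +kernel)
                 (CovZ.n2 (2280, 26560) (by decide +kernel)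
                  (CovZ.n2 (2300, 26540) (by decide +kernel)
                   (CovZ.leaf K2_ok TE_l3297 _)
                   (CovZ.leaf K2_ok TE_l3298 _))
                  (CovZ.badM (by decide +kernel)))
                 (CovZ.n1 (2320, 26520) (by decide +kernel)
                  (CovZ.n2 (2300, 26500) (by decide +kernel)
                   (CovZ.leaf K2_ok TE_l3299 _)
                   (CovZ.leaf K2_ok TE_l3300 _))
                  (CovZ.leaf K2_ok TE_l3301 _)))))
              (CovZ.subM 200867261518684490950208685097302460093860772285132834931200 (by decide +kernel)
               (CovZ.n1 (2400, 26480) (by decide +kernel)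
                (CovZ.n2 (2360, 26440) (by decide +kernel)
                 (CovZ.n2 (2360, 26480) (by decide +kernel)
                  (CovZ.leaf K2_ok TE_l3302 _)
                  (CovZ.leaf K2_ok TE_l3303 _))
                 (CovZ.leaf K2_ok TE_l3304 _))
                (CovZ.n1 (2360, 26520) (by decide +kernel)
                 (CovZ.leaf K2_ok TE_l3305 _)
                 (CovZ.leaf K2_ok TE_l3306 _))))))
            (CovZ.n1 (2560, 26400) (by decide +kernel)
             (CovZ.subM 5986356378436352273205584682337200664065355919917568 (by decide +kernel)
              (CovZ.n2 (2480, 26320) (by decide +kernel)
               (CovZ.n2 (2480, 26400) (by decide +kernel)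
                (CovZ.leaf K2_ok TE_l3307 _)
                (CovZ.n1 (2440, 26360) (by decide +kernel)
                 (CovZ.leaf K2_ok TE_l3308 _)
                 (CovZ.leaf K2_ok TE_l3309 _)))
               (CovZ.n1 (2560, 26320) (by decide +kernel)
                (CovZ.leaf K2_ok TE_l3310 _)
                (CovZ.leaf K2_ok TE_l3311 _))))
             (CovZ.n1 (2480, 26480) (by decide +kernel)
              (CovZ.leaf K2_ok TE_l3312 _)
              (CovZ.n1 (2480, 26400) (by decide +kernel)
               (CovZ.leaf K2_ok TE_l3313 _)
               (CovZ.leaf K2_ok TE_l3314 _))))))
          (CovZ.n1 (2400, 26720) (by decide +kernel)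
           (CovZ.subM 200867261521653166153929814085871822880550791353125413962496 (by decide +kernel)
            (CovZ.n2 (2560, 26720) (by decide +kernel)
             (CovZ.n2 (2480, 26640) (by decide +kernel)
              (CovZ.n2 (2480, 26720) (by decide +kernel)
               (CovZ.leaf K2_ok TE_l3315 _)
               (CovZ.n1 (2440, 26680) (by decide +kernel)
                (CovZ.leaf K2_ok TE_l3316 _)
                (CovZ.leaf K2_ok TE_l3317 _)))
              (CovZ.leaf K2_ok TE_l3318 _))
             (CovZ.n1 (2480, 26800) (by decide +kernel)
              (CovZ.leaf K2_ok TE_l3319 _)
              (CovZ.n1 (2480, 26720) (by decide +kernel)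
               (CovZ.leaf K2_ok TE_l3320 _)
               (CovZ.leaf K2_ok TE_l3321 _)))))
           (CovZ.subM 200867261518730162879268008249464472557931321133481817866752 (by decide +kernel)
            (CovZ.n1 (2400, 26560) (by decide +kernel)
             (CovZ.n2 (2320, 26640) (by decide +kernel)
              (CovZ.n2 (2400, 26640) (by decide +kernel)
               (CovZ.n2 (2360, 26600) (by decide +kernel)
                (CovZ.n2 (2360, 26640) (by decide +kernel)
                 (CovZ.leaf K2_ok TE_l3322 _)
                 (CovZ.leaf K2_ok TE_l3323 _))
                (CovZ.leaf K2_ok TE_l3324 _))
               (CovZ.n1 (2360, 26680) (by decide +kernel)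
                (CovZ.leaf K2_ok TE_l3325 _)
                (CovZ.n1 (2360, 26640) (by decide +kernel)
                 (CovZ.leaf K2_ok TE_l3326 _)
                 (CovZ.leaf K2_ok TE_l3327 _))))
              (CovZ.n1 (2320, 26560) (by decide +kernel)
               (CovZ.subM 10775049444794568920954619101696 (by decide +kernel)
                (CovZ.n2 (2280, 26600) (by decide +kernel)
                 (CovZ.n2 (2320, 26600) (by decide +kernel)
                  (CovZ.n2 (2300, 26580) (by decide +kernel)
                   (CovZ.leaf K2_ok TE_l3328 _)
                   (CovZ.leaf K2_ok TE_l3329 _))
                  (CovZ.leaf K2_ok TE_l3330 _))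
                 (CovZ.n1 (2280, 26560) (by decide +kernel)
                  (CovZ.badM (by decide +kernel))
                  (CovZ.n1 (2300, 26580) (by decide +kernel)
                   (CovZ.leaf K2_ok TE_l3332 _)
                   (CovZ.leaf K2_ok TE_l3333 _)))))
               (CovZ.n1 (2360, 26600) (by decide +kernel)
                (CovZ.leaf K2_ok TE_l3334 _)
                (CovZ.n1 (2320, 26600) (by decide +kernel)
                 (CovZ.leaf K2_ok TE_l3335 _)
                 (CovZ.leaf K2_ok TE_l3336 _)))))
             (CovZ.n1 (2480, 26640) (by decide +kernel)
              (CovZ.n2 (2480, 26560) (by decide +kernel)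
               (CovZ.leaf K2_ok TE_l3337 _)
               (CovZ.leaf K2_ok TE_l3338 _))
              (CovZ.n1 (2400, 26640) (by decide +kernel)
               (CovZ.n2 (2440, 26680) (by decide +kernel)
                (CovZ.leaf K2_ok TE_l3339 _)
                (CovZ.leaf K2_ok TE_l3340 _))
               (CovZ.leaf K2_ok TE_l3341 _)))))))
         (CovZ.subM 200867261518684490952930944042811191908427786327672387272704 (by decide +kernel)
          (CovZ.n1 (2240, 26240) (by decide +kernel)
           (CovZ.badM (by decide +kernel))
           (CovZ.n1 (2400, 26400) (by decide +kernel)
            (CovZ.n2 (2400, 26240) (by decide +kernel)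
             (CovZ.subM 5986310706507378352962293074824789614358575003467776 (by decide +kernel)
              (CovZ.n2 (2320, 26320) (by decide +kernel)
               (CovZ.n2 (2400, 26320) (by decide +kernel)
                (CovZ.n2 (2360, 26280) (by decide +kernel)
                 (CovZ.n2 (2360, 26320) (by decide +kernel)
                  (CovZ.leaf K2_ok TE_l3342 _)
                  (CovZ.n1 (2340, 26300) (by decide +kernel)
                   (CovZ.leaf K2_ok TE_l3343 _)
                   (CovZ.badM (by decide +kernel))))
                 (CovZ.n1 (2400, 26280) (by decide +kernel)
                  (CovZ.leaf K2_ok TE_l3345 _)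
                  (CovZ.leaf K2_ok TE_l3346 _)))
                (CovZ.n1 (2360, 26360) (by decide +kernel)
                 (CovZ.leaf K2_ok TE_l3347 _)
                 (CovZ.n1 (2360, 26320) (by decide +kernel)
                  (CovZ.leaf K2_ok TE_l3348 _)
                  (CovZ.leaf K2_ok TE_l3349 _))))
               (CovZ.n1 (2320, 26240) (by decide +kernel)
                (CovZ.badM (by decide +kernel))
                (CovZ.n1 (2360, 26280) (by decide +kernel)
                 (CovZ.n2 (2360, 26240) (by decide +kernel)
                  (CovZ.badM (by decide +kernel))
                  (CovZ.leaf K2_ok TE_l3350 _))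
                 (CovZ.badM (by decide +kernel))))))
             (CovZ.n1 (2480, 26320) (by decide +kernel)
              (CovZ.n2 (2480, 26240) (by decide +kernel)
               (CovZ.n2 (2440, 26280) (by decide +kernel)
                (CovZ.leaf K2_ok TE_l3352 _)
                (CovZ.leaf K2_ok TE_l3353 _))
               (CovZ.leaf K2_ok TE_l3354 _))
              (CovZ.n1 (2400, 26320) (by decide +kernel)
               (CovZ.n2 (2440, 26360) (by decide +kernel)
                (CovZ.leaf K2_ok TE_l3355 _)
                (CovZ.leaf K2_ok TE_l3356 _))
               (CovZ.n1 (2440, 26280) (by decide +kernel)
                (CovZ.leaf K2_ok TE_l3357 _)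
                (CovZ.leaf K2_ok TE_l3358 _)))))
            (CovZ.n1 (2240, 26400) (by decide +kernel)
             (CovZ.n2 (2320, 26480) (by decide +kernel)
              (CovZ.subM 5986310706507378352962293094167602728192639651282944 (by decide +kernel)
               (CovZ.n2 (2320, 26400) (by decide +kernel)
                (CovZ.n2 (2280, 26440) (by decide +kernel)
                 (CovZ.badM (by decide +kernel))
                 (CovZ.n1 (2280, 26400) (by decide +kernel)
                  (CovZ.badM (by decide +kernel))
                  (CovZ.badM (by decide +kernel))))
                (CovZ.n1 (2360, 26440) (by decide +kernel)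
                 (CovZ.n2 (2360, 26400) (by decide +kernel)
                  (CovZ.leaf K2_ok TE_l3359 _)
                  (CovZ.leaf K2_ok TE_l3360 _))
                 (CovZ.n1 (2320, 26440) (by decide +kernel)
                  (CovZ.leaf K2_ok TE_l3361 _)
                  (CovZ.leaf K2_ok TE_l3362 _)))))
              (CovZ.subM 10775049444753063746788772544512 (by decide +kernel)
               (CovZ.n1 (2240, 26480) (by decide +kernel)
                (CovZ.n2 (2280, 26520) (by decide +kernel)
                 (CovZ.n2 (2280, 26480) (by decide +kernel)
                  (CovZ.badM (by decide +kernel))
                  (CovZ.n1 (2300, 26500) (by decide +kernel)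
                   (CovZ.badM (by decide +kernel))
                   (CovZ.badM (by decide +kernel))))
                 (CovZ.badM (by decide +kernel)))
                (CovZ.n1 (2280, 26440) (by decide +kernel)
                 (CovZ.badM (by decide +kernel))
                 (CovZ.n1 (2280, 26480) (by decide +kernel)
                  (CovZ.badM (by decide +kernel))
                  (CovZ.badM (by decide +kernel)))))))
             (CovZ.subM 5986310706507378352962293094167602728192639651282944 (by decide +kernel)
              (CovZ.n1 (2320, 26320) (by decide +kernel)
               (CovZ.n2 (2240, 26320) (by decide +kernel)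
                (CovZ.n2 (2280, 26360) (by decide +kernel)
                 (CovZ.badM (by decide +kernel))
                 (CovZ.badM (by decide +kernel)))
                (CovZ.badM (by decide +kernel)))
               (CovZ.n1 (2320, 26400) (by decide +kernel)
                (CovZ.n2 (2360, 26360) (by decide +kernel)
                 (CovZ.n2 (2320, 26360) (by decide +kernel)
                  (CovZ.n2 (2340, 26380) (by decide +kernel)
                   (CovZ.leaf K2_ok TE_l3364 _)
                   (CovZ.badM (by decide +kernel)))
                  (CovZ.n1 (2340, 26340) (by decide +kernel)
                   (CovZ.badM (by decide +kernel))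
                   (CovZ.leaf K2_ok TE_l3366 _)))
                 (CovZ.n1 (2360, 26400) (by decide +kernel)
                  (CovZ.leaf K2_ok TE_l3367 _)
                  (CovZ.n1 (2340, 26380) (by decide +kernel)
                   (CovZ.leaf K2_ok TE_l3368 _)
                   (CovZ.leaf K2_ok TE_l3369 _))))
                (CovZ.n1 (2280, 26360) (by decide +kernel)
                 (CovZ.n2 (2280, 26400) (by decide +kernel)
                  (CovZ.badM (by decide +kernel))
                  (CovZ.badM (by decide +kernel)))
                 (CovZ.badM (by decide +kernel)))))))))))

theorem TE_u53 : CovZ TE_M (toL (selN TE_LN 1817343713671436484431903743833946231003854934228590949614336)) [0, 7, 6, 1] (2240, 27200) (2400, 27360) (2240, 27520) :=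
    (CovZ.subM 1811042032143877831197295534875943184458065495640923097842432 (by decide +kernel)
            (CovZ.n2 (2240, 27360) (by decide +kernel)
             (CovZ.n2 (2320, 27440) (by decide +kernel)
              (CovZ.n2 (2320, 27360) (by decide +kernel)
               (CovZ.subM 200867261518684490950209017414462438962543884917038771094016 (by decide +kernel)
                (CovZ.n2 (2280, 27400) (by decide +kernel)
                 (CovZ.n2 (2320, 27400) (by decide +kernel)
                  (CovZ.n2 (2300, 27380) (by decide +kernel)
                   (CovZ.n2 (2300, 27400) (by decide +kernel)
                    (CovZ.leaf K2_ok TE_l3371 _)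
                    (CovZ.n1 (2290, 27390) (by decide +kernel)
                     (CovZ.leaf K2_ok TE_l3372 _)
                     (CovZ.leaf K2_ok TE_l3373 _)))
                   (CovZ.leaf K2_ok TE_l3374 _))
                  (CovZ.n1 (2300, 27420) (by decide +kernel)
                   (CovZ.leaf K2_ok TE_l3375 _)
                   (CovZ.n1 (2300, 27400) (by decide +kernel)
                    (CovZ.n2 (2290, 27410) (by decide +kernel)
                     (CovZ.leaf K2_ok TE_l3376 _)
                     (CovZ.leaf K2_ok TE_l3377 _))
                    (CovZ.leaf K2_ok TE_l3378 _))))
                 (CovZ.n1 (2280, 27360) (by decide +kernel)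
                  (CovZ.subM 19807040628566084415565856768 (by decide +kernel)
                   (CovZ.n2 (2260, 27380) (by decide +kernel)
                    (CovZ.n2 (2280, 27380) (by decide +kernel)
                     (CovZ.n2 (2270, 27370) (by decide +kernel)
                      (CovZ.leaf K2_ok TE_l3379 _)
                      (CovZ.leaf K2_ok TE_l3380 _))
                     (CovZ.n1 (2270, 27390) (by decide +kernel)
                      (CovZ.leaf K2_ok TE_l3381 _)
                      (CovZ.leaf K2_ok TE_l3382 _)))
                    (CovZ.n1 (2260, 27360) (by decide +kernel)
                     (CovZ.badM (by decide +kernel))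
                     (CovZ.n1 (2270, 27370) (by decide +kernel)
                      (CovZ.leaf K2_ok TE_l3383 _)
                      (CovZ.badM (by decide +kernel))))))
                  (CovZ.n1 (2300, 27380) (by decide +kernel)
                   (CovZ.leaf K2_ok TE_l3385 _)
                   (CovZ.n1 (2280, 27380) (by decide +kernel)
                    (CovZ.n2 (2290, 27390) (by decide +kernel)
                     (CovZ.leaf K2_ok TE_l3386 _)
                     (CovZ.leaf K2_ok TE_l3387 _))
                    (CovZ.leaf K2_ok TE_l3388 _))))))
               (CovZ.n1 (2360, 27400) (by decide +kernel)
                (CovZ.n2 (2360, 27360) (by decide +kernel)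
                 (CovZ.leaf K2_ok TE_l3389 _)
                 (CovZ.leaf K2_ok TE_l3390 _))
                (CovZ.n1 (2320, 27400) (by decide +kernel)
                 (CovZ.n2 (2340, 27420) (by decide +kernel)
                  (CovZ.leaf K2_ok TE_l3391 _)
                  (CovZ.leaf K2_ok TE_l3392 _))
                 (CovZ.n1 (2340, 27380) (by decide +kernel)
                  (CovZ.leaf K2_ok TE_l3393 _)
                  (CovZ.leaf K2_ok TE_l3394 _)))))
              (CovZ.subM 200965437014271211955197266713870500863865393837586553765888 (by decide +kernel)
               (CovZ.n1 (2240, 27440) (by decide +kernel)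
                (CovZ.n2 (2280, 27480) (by decide +kernel)
                 (CovZ.n2 (2280, 27440) (by decide +kernel)
                  (CovZ.badM (by decide +kernel))
                  (CovZ.n1 (2300, 27460) (by decide +kernel)
                   (CovZ.n2 (2300, 27440) (by decide +kernel)
                    (CovZ.badM (by decide +kernel))
                    (CovZ.n1 (2310, 27450) (by decide +kernel)
                     (CovZ.leaf K2_ok TE_l3396 _)
                     (CovZ.badM (by decide +kernel))))
                   (CovZ.badM (by decide +kernel))))
                 (CovZ.subM 95780971304118053647396689196894323976171195136475136 (by decide +kernel)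
                  (CovZ.n1 (2240, 27480) (by decide +kernel)
                   (CovZ.n2 (2260, 27500) (by decide +kernel)
                    (CovZ.n2 (2260, 27480) (by decide +kernel)
                     (CovZ.badM (by decide +kernel))
                     (CovZ.n1 (2270, 27490) (by decide +kernel)
                      (CovZ.badM (by decide +kernel))
                      (CovZ.badM (by decide +kernel))))
                    (CovZ.badM (by decide +kernel)))
                   (CovZ.badM (by decide +kernel)))))
                (CovZ.n1 (2280, 27400) (by decide +kernel)
                 (CovZ.badM (by decide +kernel))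
                 (CovZ.n1 (2280, 27440) (by decide +kernel)
                  (CovZ.n2 (2300, 27420) (by decide +kernel)
                   (CovZ.badM (by decide +kernel))
                   (CovZ.n1 (2300, 27440) (by decide +kernel)
                    (CovZ.n2 (2310, 27430) (by decide +kernel)
                     (CovZ.badM (by decide +kernel))
                     (CovZ.leaf K2_ok TE_l3399 _))
                    (CovZ.badM (by decide +kernel))))
                  (CovZ.badM (by decide +kernel)))))))
             (CovZ.n1 (2320, 27280) (by decide +kernel)
              (CovZ.subM 200867255532373784442745593860439129540782504805579958534912 (by decide +kernel)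
               (CovZ.n2 (2240, 27280) (by decide +kernel)
                (CovZ.n2 (2280, 27320) (by decide +kernel)
                 (CovZ.n2 (2280, 27280) (by decide +kernel)
                  (CovZ.subM 332307018753571828246939837929635840 (by decide +kernel)
                   (CovZ.n2 (2260, 27300) (by decide +kernel)
                    (CovZ.n2 (2280, 27300) (by decide +kernel)
                     (CovZ.n2 (2270, 27290) (by decide +kernel)
                      (CovZ.leaf K2_ok TE_l3400 _)
                      (CovZ.leaf K2_ok TE_l3401 _))
                     (CovZ.leaf K2_ok TE_l3402 _))
                    (CovZ.n1 (2260, 27280) (by decide +kernel)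
                     (CovZ.n2 (2250, 27290) (by decide +kernel)
                      (CovZ.leaf K2_ok TE_l3403 _)
                      (CovZ.badM (by decide +kernel)))
                     (CovZ.n1 (2270, 27290) (by decide +kernel)
                      (CovZ.leaf K2_ok TE_l3404 _)
                      (CovZ.leaf K2_ok TE_l3405 _)))))
                  (CovZ.n1 (2300, 27300) (by decide +kernel)
                   (CovZ.leaf K2_ok TE_l3406 _)
                   (CovZ.leaf K2_ok TE_l3407 _)))
                 (CovZ.subM 332307018754780754066554467104342016 (by decide +kernel)
                  (CovZ.n1 (2240, 27320) (by decide +kernel)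
                   (CovZ.n2 (2260, 27340) (by decide +kernel)
                    (CovZ.n2 (2260, 27320) (by decide +kernel)
                     (CovZ.n2 (2250, 27330) (by decide +kernel)
                      (CovZ.leaf K2_ok TE_l17201 _)
                      (CovZ.badM (by decide +kernel)))
                     (CovZ.n1 (2270, 27330) (by decide +kernel)
                      (CovZ.leaf K2_ok TE_l3408 _)
                      (CovZ.leaf K2_ok TE_l3409 _)))
                    (CovZ.badM (by decide +kernel)))
                   (CovZ.n1 (2260, 27300) (by decide +kernel)
                    (CovZ.badM (by decide +kernel))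
                    (CovZ.n1 (2260, 27320) (by decide +kernel)
                     (CovZ.leaf K2_ok TE_l3412 _)
                     (CovZ.n1 (2250, 27310) (by decide +kernel)
                      (CovZ.badM (by decide +kernel))
                      (CovZ.leaf K2_ok TE_l3413 _)))))))
                (CovZ.n1 (2280, 27240) (by decide +kernel)
                 (CovZ.subM 19807040628566084415565857024 (by decide +kernel)
                  (CovZ.n2 (2240, 27240) (by decide +kernel)
                   (CovZ.n2 (2260, 27260) (by decide +kernel)
                    (CovZ.n2 (2260, 27240) (by decide +kernel)
                     (CovZ.badM (by decide +kernel))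
                     (CovZ.n1 (2270, 27250) (by decide +kernel)
                      (CovZ.leaf K2_ok TE_l3414 _)
                      (CovZ.leaf K2_ok TE_l3415 _)))
                    (CovZ.badM (by decide +kernel)))
                   (CovZ.n1 (2260, 27220) (by decide +kernel)
                    (CovZ.badM (by decide +kernel))
                    (CovZ.n1 (2260, 27240) (by decide +kernel)
                     (CovZ.n2 (2270, 27230) (by decide +kernel)
                      (CovZ.leaf K2_ok TE_l3417 _)
                      (CovZ.leaf K2_ok TE_l3418 _))
                     (CovZ.badM (by decide +kernel))))))
                 (CovZ.n1 (2280, 27280) (by decide +kernel)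
                  (CovZ.n2 (2300, 27260) (by decide +kernel)
                   (CovZ.leaf K2_ok TE_l3420 _)
                   (CovZ.leaf K2_ok TE_l3421 _))
                  (CovZ.n1 (2260, 27260) (by decide +kernel)
                   (CovZ.n2 (2260, 27280) (by decide +kernel)
                    (CovZ.leaf K2_ok TE_l3422 _)
                    (CovZ.badM (by decide +kernel)))
                   (CovZ.leaf K2_ok TE_l3423 _))))))
              (CovZ.n1 (2320, 27360) (by decide +kernel)
               (CovZ.n2 (2360, 27320) (by decide +kernel)
                (CovZ.n2 (2320, 27320) (by decide +kernel)
                 (CovZ.n2 (2340, 27340) (by decide +kernel)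
                  (CovZ.leaf K2_ok TE_l3424 _)
                  (CovZ.leaf K2_ok TE_l3425 _))
                 (CovZ.leaf K2_ok TE_l3426 _))
                (CovZ.n1 (2360, 27360) (by decide +kernel)
                 (CovZ.leaf K2_ok TE_l3427 _)
                 (CovZ.leaf K2_ok TE_l3428 _)))
               (CovZ.subM 200867261518684490950123946822732204346677753316279654564608 (by decide +kernel)
                (CovZ.n1 (2280, 27320) (by decide +kernel)
                 (CovZ.n2 (2280, 27360) (by decide +kernel)
                  (CovZ.n2 (2300, 27340) (by decide +kernel)
                   (CovZ.leaf K2_ok TE_l3429 _)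
                   (CovZ.leaf K2_ok TE_l3430 _))
                  (CovZ.subM 332307018754780754066554467104342016 (by decide +kernel)
                   (CovZ.n1 (2260, 27340) (by decide +kernel)
                    (CovZ.n2 (2260, 27360) (by decide +kernel)
                     (CovZ.n2 (2270, 27350) (by decide +kernel)
                      (CovZ.leaf K2_ok TE_l3431 _)
                      (CovZ.leaf K2_ok TE_l3432 _))
                     (CovZ.badM (by decide +kernel)))
                    (CovZ.leaf K2_ok TE_l3434 _))))
                 (CovZ.n1 (2320, 27320) (by decide +kernel)
                  (CovZ.n2 (2300, 27300) (by decide +kernel)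
                   (CovZ.leaf K2_ok TE_l3435 _)
                   (CovZ.leaf K2_ok TE_l3436 _))
                  (CovZ.leaf K2_ok TE_l3437 _))))))))

theorem TE_u54 : CovZ TE_M (toL (selN TE_LN 1817343713671436484431903743833946231003854934228590949614336)) [0, 7, 6, 1] (2400, 27360) (2560, 27520) (2240, 27520) :=
    (CovZ.n1 (2400, 27520) (by decide +kernel)
            (CovZ.n2 (2480, 27440) (by decide +kernel)
             (CovZ.n2 (2400, 27440) (by decide +kernel)
              (CovZ.n2 (2440, 27480) (by decide +kernel)
               (CovZ.leaf K2_ok TE_l3438 _)
               (CovZ.n1 (2400, 27480) (by decide +kernel)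
                (CovZ.leaf K2_ok TE_l3439 _)
                (CovZ.leaf K2_ok TE_l3440 _)))
              (CovZ.n1 (2440, 27400) (by decide +kernel)
               (CovZ.leaf K2_ok TE_l3441 _)
               (CovZ.leaf K2_ok TE_l3442 _)))
             (CovZ.n1 (2480, 27520) (by decide +kernel)
              (CovZ.n2 (2520, 27480) (by decide +kernel)
               (CovZ.leaf K2_ok TE_l3443 _)
               (CovZ.leaf K2_ok TE_l3444 _))
              (CovZ.n1 (2440, 27480) (by decide +kernel)
               (CovZ.n2 (2440, 27520) (by decide +kernel)
                (CovZ.leaf K2_ok TE_l3445 _)
                (CovZ.leaf K2_ok TE_l3446 _))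
               (CovZ.leaf K2_ok TE_l3447 _))))
            (CovZ.n1 (2320, 27440) (by decide +kernel)
             (CovZ.n2 (2320, 27520) (by decide +kernel)
              (CovZ.subM 1817343569999933850666187622967843122906643423029257176105216 (by decide +kernel)
               (CovZ.n2 (2360, 27480) (by decide +kernel)
                (CovZ.n2 (2320, 27480) (by decide +kernel)
                 (CovZ.n2 (2340, 27500) (by decide +kernel)
                  (CovZ.n2 (2340, 27480) (by decide +kernel)
                   (CovZ.leaf K2_ok TE_l3448 _)
                   (CovZ.leaf K2_ok TE_l3449 _))
                  (CovZ.n1 (2320, 27500) (by decide +kernel)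
                   (CovZ.n2 (2330, 27510) (by decide +kernel)
                    (CovZ.leaf K2_ok TE_l3450 _)
                    (CovZ.leaf K2_ok TE_l17202 _))
                   (CovZ.n1 (2330, 27490) (by decide +kernel)
                    (CovZ.leaf K2_ok TE_l3451 _)
                    (CovZ.leaf K2_ok TE_l3452 _))))
                 (CovZ.n1 (2340, 27460) (by decide +kernel)
                  (CovZ.n2 (2320, 27460) (by decide +kernel)
                   (CovZ.n2 (2330, 27470) (by decide +kernel)
                    (CovZ.leaf K2_ok TE_l3453 _)
                    (CovZ.leaf K2_ok TE_l3454 _))
                   (CovZ.leaf K2_ok TE_l3455 _))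
                  (CovZ.n1 (2340, 27480) (by decide +kernel)
                   (CovZ.leaf K2_ok TE_l3456 _)
                   (CovZ.n1 (2330, 27470) (by decide +kernel)
                    (CovZ.leaf K2_ok TE_l3457 _)
                    (CovZ.leaf K2_ok TE_l3458 _)))))
                (CovZ.n1 (2360, 27520) (by decide +kernel)
                 (CovZ.n2 (2380, 27500) (by decide +kernel)
                  (CovZ.leaf K2_ok TE_l3459 _)
                  (CovZ.leaf K2_ok TE_l3460 _))
                 (CovZ.n1 (2340, 27500) (by decide +kernel)
                  (CovZ.n2 (2340, 27520) (by decide +kernel)
                   (CovZ.leaf K2_ok TE_l3461 _)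
                   (CovZ.n1 (2330, 27510) (by decide +kernel)
                    (CovZ.n2 (2330, 27520) (by decide +kernel)
                     (CovZ.leaf K2_ok TE_l17203 _)
                     (CovZ.leaf K2_ok TE_l17204 _))
                    (CovZ.leaf K2_ok TE_l3462 _)))
                  (CovZ.leaf K2_ok TE_l3463 _)))))
              (CovZ.subM 200989968915911854819141429116763531710796002818016799621120 (by decide +kernel)
               (CovZ.n1 (2280, 27480) (by decide +kernel)
                (CovZ.n2 (2280, 27520) (by decide +kernel)
                 (CovZ.n2 (2300, 27500) (by decide +kernel)
                  (CovZ.n2 (2280, 27500) (by decide +kernel)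
                   (CovZ.n2 (2290, 27510) (by decide +kernel)
                    (CovZ.badM (by decide +kernel))
                    (CovZ.badM (by decide +kernel)))
                   (CovZ.badM (by decide +kernel)))
                  (CovZ.n1 (2300, 27520) (by decide +kernel)
                   (CovZ.n2 (2310, 27510) (by decide +kernel)
                    (CovZ.subM 24531901640642689379308172451599090219417353534643896320 (by decide +kernel)
                     (CovZ.n2 (2300, 27510) (by decide +kernel)
                      (CovZ.n2 (2305, 27515) (by decide +kernel)
                       (CovZ.n2 (2305, 27510) (by decide +kernel)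
                        (CovZ.badM (by decide +kernel))
                        (CovZ.leaf K2_ok TE_l19595 _))
                       (CovZ.badM (by decide +kernel)))
                      (CovZ.n1 (2305, 27505) (by decide +kernel)
                       (CovZ.badM (by decide +kernel))
                       (CovZ.leaf K2_ok TE_l19596 _))))
                    (CovZ.n1 (2310, 27520) (by decide +kernel)
                     (CovZ.leaf K2_ok TE_l17205 _)
                     (CovZ.n1 (2305, 27515) (by decide +kernel)
                      (CovZ.badM (by decide +kernel))
                      (CovZ.leaf K2_ok TE_l19597 _))))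
                   (CovZ.n1 (2290, 27510) (by decide +kernel)
                    (CovZ.badM (by decide +kernel))
                    (CovZ.badM (by decide +kernel)))))
                 (CovZ.subM 95780971304118053647396689196894323976171195136475136 (by decide +kernel)
                  (CovZ.n1 (2260, 27500) (by decide +kernel)
                   (CovZ.badM (by decide +kernel))
                   (CovZ.n1 (2280, 27500) (by decide +kernel)
                    (CovZ.n2 (2270, 27490) (by decide +kernel)
                     (CovZ.badM (by decide +kernel))
                     (CovZ.badM (by decide +kernel)))
                    (CovZ.badM (by decide +kernel))))))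
                (CovZ.n1 (2320, 27480) (by decide +kernel)
                 (CovZ.subM 200867261518684490950208685107443684181789836376970176233472 (by decide +kernel)
                  (CovZ.n2 (2300, 27460) (by decide +kernel)
                   (CovZ.n2 (2300, 27480) (by decide +kernel)
                    (CovZ.n2 (2310, 27470) (by decide +kernel)
                     (CovZ.badM (by decide +kernel))
                     (CovZ.n1 (2310, 27480) (by decide +kernel)
                      (CovZ.leaf K2_ok TE_l17206 _)
                      (CovZ.badM (by decide +kernel))))
                    (CovZ.badM (by decide +kernel)))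
                   (CovZ.n1 (2320, 27460) (by decide +kernel)
                    (CovZ.n2 (2310, 27450) (by decide +kernel)
                     (CovZ.leaf K2_ok TE_l3464 _)
                     (CovZ.leaf K2_ok TE_l3465 _))
                    (CovZ.n1 (2310, 27470) (by decide +kernel)
                     (CovZ.leaf K2_ok TE_l3466 _)
                     (CovZ.leaf K2_ok TE_l3467 _)))))
                 (CovZ.n1 (2300, 27500) (by decide +kernel)
                  (CovZ.n2 (2320, 27500) (by decide +kernel)
                   (CovZ.n2 (2310, 27490) (by decide +kernel)
                    (CovZ.n2 (2310, 27500) (by decide +kernel)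
                     (CovZ.leaf K2_ok TE_l17207 _)
                     (CovZ.n1 (2305, 27495) (by decide +kernel)
                      (CovZ.leaf K2_ok TE_l19598 _)
                      (CovZ.leaf K2_ok TE_l19599 _)))
                    (CovZ.leaf K2_ok TE_l3468 _))
                   (CovZ.n1 (2310, 27510) (by decide +kernel)
                    (CovZ.leaf K2_ok TE_l17208 _)
                    (CovZ.n1 (2310, 27500) (by decide +kernel)
                     (CovZ.leaf K2_ok TE_l19600 _)
                     (CovZ.leaf K2_ok TE_l17209 _))))
                  (CovZ.n1 (2300, 27480) (by decide +kernel)
                   (CovZ.badM (by decide +kernel))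
                   (CovZ.n1 (2310, 27490) (by decide +kernel)
                    (CovZ.leaf K2_ok TE_l17210 _)
                    (CovZ.badM (by decide +kernel)))))))))
             (CovZ.n1 (2400, 27440) (by decide +kernel)
              (CovZ.n2 (2360, 27400) (by decide +kernel)
               (CovZ.n2 (2360, 27440) (by decide +kernel)
                (CovZ.leaf K2_ok TE_l3469 _)
                (CovZ.n1 (2340, 27420) (by decide +kernel)
                 (CovZ.leaf K2_ok TE_l3470 _)
                 (CovZ.leaf K2_ok TE_l3471 _)))
               (CovZ.n1 (2400, 27400) (by decide +kernel)
                (CovZ.leaf K2_ok TE_l3472 _)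
                (CovZ.leaf K2_ok TE_l3473 _)))
              (CovZ.n1 (2360, 27480) (by decide +kernel)
               (CovZ.n2 (2400, 27480) (by decide +kernel)
                (CovZ.n2 (2380, 27460) (by decide +kernel)
                 (CovZ.leaf K2_ok TE_l3474 _)
                 (CovZ.leaf K2_ok TE_l3475 _))
                (CovZ.leaf K2_ok TE_l3476 _))
               (CovZ.subM 1810968388549931753012694972706529275299608561099198638867200 (by decide +kernel)
                (CovZ.n1 (2360, 27440) (by decide +kernel)
                 (CovZ.n2 (2340, 27460) (by decide +kernel)
                  (CovZ.leaf K2_ok TE_l3477 _)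
                  (CovZ.leaf K2_ok TE_l3478 _))
                 (CovZ.n1 (2380, 27460) (by decide +kernel)
                  (CovZ.leaf K2_ok TE_l3479 _)
                  (CovZ.leaf K2_ok TE_l3480 _))))))))

theorem TE_u55 : CovZ TE_M (toL (selN TE_LN 1817343708621582946697615459730755212598528211325596578400000)) [0, 7, 6, 1] (2560, 27520) (2560, 27840) (2240, 27840) :=
    (CovZ.n2 (2400, 27680) (by decide +kernel)
           (CovZ.subM 47890485652407476637231680341258877809261241467684096 (by decide +kernel)
            (CovZ.n2 (2400, 27840) (by decide +kernel)
             (CovZ.n2 (2480, 27760) (by decide +kernel)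
              (CovZ.subM 348449813533335737598222935856079920186368 (by decide +kernel)
               (CovZ.n2 (2400, 27760) (by decide +kernel)
                (CovZ.n2 (2440, 27800) (by decide +kernel)
                 (CovZ.n2 (2440, 27760) (by decide +kernel)
                  (CovZ.subM 18963252907773419061248 (by decide +kernel)
                   (CovZ.n2 (2420, 27780) (by decide +kernel)
                    (CovZ.n2 (2440, 27780) (by decide +kernel)
                     (CovZ.n2 (2430, 27770) (by decide +kernel)
                      (CovZ.badM (by decide +kernel))
                      (CovZ.leaf K2_ok TE_l3547 _))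
                     (CovZ.badM (by decide +kernel)))
                    (CovZ.n1 (2420, 27760) (by decide +kernel)
                     (CovZ.badM (by decide +kernel))
                     (CovZ.n1 (2430, 27770) (by decide +kernel)
                      (CovZ.leaf K2_ok TE_l3548 _)
                      (CovZ.badM (by decide +kernel))))))
                  (CovZ.n1 (2460, 27780) (by decide +kernel)
                   (CovZ.leaf K2_ok TE_l3549 _)
                   (CovZ.subM 18963252907773419061248 (by decide +kernel)
                    (CovZ.n1 (2440, 27780) (by decide +kernel)
                     (CovZ.n2 (2450, 27790) (by decide +kernel)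
                      (CovZ.leaf K2_ok TE_l3550 _)
                      (CovZ.badM (by decide +kernel)))
                     (CovZ.n1 (2450, 27770) (by decide +kernel)
                      (CovZ.leaf K2_ok TE_l3551 _)
                      (CovZ.leaf K2_ok TE_l3552 _))))))
                 (CovZ.badM (by decide +kernel)))
                (CovZ.n1 (2440, 27720) (by decide +kernel)
                 (CovZ.n2 (2400, 27720) (by decide +kernel)
                  (CovZ.n2 (2420, 27740) (by decide +kernel)
                   (CovZ.n2 (2420, 27720) (by decide +kernel)
                    (CovZ.n2 (2410, 27730) (by decide +kernel)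
                     (CovZ.leaf K2_ok TE_l3553 _)
                     (CovZ.leaf K2_ok TE_l3554 _))
                    (CovZ.n1 (2430, 27730) (by decide +kernel)
                     (CovZ.leaf K2_ok TE_l3555 _)
                     (CovZ.leaf K2_ok TE_l3556 _)))
                   (CovZ.badM (by decide +kernel)))
                  (CovZ.n1 (2420, 27700) (by decide +kernel)
                   (CovZ.n2 (2400, 27700) (by decide +kernel)
                    (CovZ.n2 (2410, 27710) (by decide +kernel)
                     (CovZ.leaf K2_ok TE_l3557 _)
                     (CovZ.leaf K2_ok TE_l3558 _))
                    (CovZ.n1 (2410, 27690) (by decide +kernel)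
                     (CovZ.leaf K2_ok TE_l3559 _)
                     (CovZ.leaf K2_ok TE_l3560 _)))
                   (CovZ.n1 (2420, 27720) (by decide +kernel)
                    (CovZ.leaf K2_ok TE_l3561 _)
                    (CovZ.n1 (2410, 27710) (by decide +kernel)
                     (CovZ.leaf K2_ok TE_l3562 _)
                     (CovZ.leaf K2_ok TE_l3563 _)))))
                 (CovZ.n1 (2440, 27760) (by decide +kernel)
                  (CovZ.n2 (2460, 27740) (by decide +kernel)
                   (CovZ.n2 (2440, 27740) (by decide +kernel)
                    (CovZ.leaf K2_ok TE_l3564 _)
                    (CovZ.leaf K2_ok TE_l3565 _))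
                   (CovZ.n1 (2460, 27760) (by decide +kernel)
                    (CovZ.leaf K2_ok TE_l3566 _)
                    (CovZ.leaf K2_ok TE_l3567 _)))
                  (CovZ.n1 (2420, 27740) (by decide +kernel)
                   (CovZ.n2 (2420, 27760) (by decide +kernel)
                    (CovZ.n2 (2430, 27750) (by decide +kernel)
                     (CovZ.badM (by decide +kernel))
                     (CovZ.leaf K2_ok TE_l3569 _))
                    (CovZ.badM (by decide +kernel)))
                   (CovZ.n1 (2440, 27740) (by decide +kernel)
                    (CovZ.n2 (2430, 27730) (by decide +kernel)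
                     (CovZ.leaf K2_ok TE_l3570 _)
                     (CovZ.leaf K2_ok TE_l3571 _))
                    (CovZ.leaf K2_ok TE_l3572 _)))))))
              (CovZ.n1 (2480, 27840) (by decide +kernel)
               (CovZ.n2 (2520, 27800) (by decide +kernel)
                (CovZ.subM 669806294751011727333343449155912960 (by decide +kernel)
                 (CovZ.n2 (2480, 27800) (by decide +kernel)
                  (CovZ.n2 (2500, 27820) (by decide +kernel)
                   (CovZ.leaf K2_ok TE_l3573 _)
                   (CovZ.n1 (2480, 27820) (by decide +kernel)
                    (CovZ.leaf K2_ok TE_l3574 _)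
                    (CovZ.leaf K2_ok TE_l3575 _)))
                  (CovZ.n1 (2500, 27780) (by decide +kernel)
                   (CovZ.leaf K2_ok TE_l3576 _)
                   (CovZ.leaf K2_ok TE_l3577 _))))
                (CovZ.n1 (2520, 27840) (by decide +kernel)
                 (CovZ.leaf K2_ok TE_l3578 _)
                 (CovZ.n1 (2500, 27820) (by decide +kernel)
                  (CovZ.n2 (2500, 27840) (by decide +kernel)
                   (CovZ.leaf K2_ok TE_l3579 _)
                   (CovZ.leaf K2_ok TE_l3580 _))
                  (CovZ.leaf K2_ok TE_l3581 _))))
               (CovZ.subM 669806294751011727333343449155912704 (by decide +kernel)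
                (CovZ.n1 (2440, 27800) (by decide +kernel)
                 (CovZ.subM 1099511627776 (by decide +kernel)
                  (CovZ.n2 (2440, 27840) (by decide +kernel)
                   (CovZ.n2 (2460, 27820) (by decide +kernel)
                    (CovZ.badM (by decide +kernel))
                    (CovZ.n1 (2460, 27840) (by decide +kernel)
                     (CovZ.n2 (2470, 27830) (by decide +kernel)
                      (CovZ.badM (by decide +kernel))
                      (CovZ.leaf K2_ok TE_l3583 _))
                     (CovZ.badM (by decide +kernel))))
                   (CovZ.badM (by decide +kernel))))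
                 (CovZ.n1 (2480, 27800) (by decide +kernel)
                  (CovZ.n2 (2460, 27780) (by decide +kernel)
                   (CovZ.n2 (2460, 27800) (by decide +kernel)
                    (CovZ.leaf K2_ok TE_l3585 _)
                    (CovZ.n1 (2450, 27790) (by decide +kernel)
                     (CovZ.leaf K2_ok TE_l3586 _)
                     (CovZ.leaf K2_ok TE_l3587 _)))
                   (CovZ.leaf K2_ok TE_l3588 _))
                  (CovZ.subM 18963252908872930689024 (by decide +kernel)
                   (CovZ.n1 (2460, 27820) (by decide +kernel)
                    (CovZ.n2 (2480, 27820) (by decide +kernel)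
                     (CovZ.n2 (2470, 27810) (by decide +kernel)
                      (CovZ.leaf K2_ok TE_l3589 _)
                      (CovZ.leaf K2_ok TE_l3590 _))
                     (CovZ.leaf K2_ok TE_l3591 _))
                    (CovZ.n1 (2460, 27800) (by decide +kernel)
                     (CovZ.n2 (2450, 27810) (by decide +kernel)
                      (CovZ.leaf K2_ok TE_l3592 _)
                      (CovZ.leaf K2_ok TE_l3593 _))
                     (CovZ.n1 (2470, 27810) (by decide +kernel)
                      (CovZ.leaf K2_ok TE_l3594 _)
                      (CovZ.leaf K2_ok TE_l3595 _))))))))))
             (CovZ.subM 348449813533335737598222935856079920169984 (by decide +kernel)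
              (CovZ.n1 (2320, 27760) (by decide +kernel)
               (CovZ.badM (by decide +kernel))
               (CovZ.n1 (2400, 27760) (by decide +kernel)
                (CovZ.n2 (2360, 27720) (by decide +kernel)
                 (CovZ.badM (by decide +kernel))
                 (CovZ.n1 (2400, 27720) (by decide +kernel)
                  (CovZ.n2 (2380, 27700) (by decide +kernel)
                   (CovZ.badM (by decide +kernel))
                   (CovZ.n1 (2400, 27700) (by decide +kernel)
                    (CovZ.n2 (2390, 27690) (by decide +kernel)
                     (CovZ.n2 (2390, 27700) (by decide +kernel)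
                      (CovZ.leaf K2_ok TE_l17214 _)
                      (CovZ.leaf K2_ok TE_l17215 _))
                     (CovZ.leaf K2_ok TE_l17216 _))
                    (CovZ.subM 664613997892457936451904079895986176 (by decide +kernel)
                     (CovZ.n1 (2390, 27710) (by decide +kernel)
                      (CovZ.n2 (2400, 27710) (by decide +kernel)
                       (CovZ.leaf K2_ok TE_l17217 _)
                       (CovZ.leaf K2_ok TE_l17218 _))
                      (CovZ.n1 (2390, 27700) (by decide +kernel)
                       (CovZ.leaf K2_ok TE_l17219 _)
                       (CovZ.leaf K2_ok TE_l17220 _))))))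
                  (CovZ.badM (by decide +kernel))))
                (CovZ.badM (by decide +kernel)))))))
           (CovZ.n1 (2560, 27680) (by decide +kernel)
            (CovZ.n2 (2480, 27600) (by decide +kernel)
             (CovZ.subM 1817319127892953805935933422762489558259629934271586774335744 (by decide +kernel)
              (CovZ.n2 (2480, 27680) (by decide +kernel)
               (CovZ.n2 (2520, 27640) (by decide +kernel)
                (CovZ.n2 (2480, 27640) (by decide +kernel)
                 (CovZ.leaf K2_ok TE_l3596 _)
                 (CovZ.leaf K2_ok TE_l3597 _))
                (CovZ.n1 (2520, 27680) (by decide +kernel)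
                 (CovZ.leaf K2_ok TE_l3598 _)
                 (CovZ.leaf K2_ok TE_l3599 _)))
               (CovZ.n1 (2440, 27640) (by decide +kernel)
                (CovZ.n2 (2440, 27680) (by decide +kernel)
                 (CovZ.leaf K2_ok TE_l3600 _)
                 (CovZ.n1 (2420, 27660) (by decide +kernel)
                  (CovZ.n2 (2420, 27680) (by decide +kernel)
                   (CovZ.leaf K2_ok TE_l3601 _)
                   (CovZ.leaf K2_ok TE_l3602 _))
                  (CovZ.leaf K2_ok TE_l3603 _)))
                (CovZ.n1 (2480, 27640) (by decide +kernel)
                 (CovZ.leaf K2_ok TE_l3604 _)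
                 (CovZ.leaf K2_ok TE_l3605 _)))))
             (CovZ.n1 (2560, 27600) (by decide +kernel)
              (CovZ.n2 (2520, 27560) (by decide +kernel)
               (CovZ.leaf K2_ok TE_l3606 _)
               (CovZ.leaf K2_ok TE_l3607 _))
              (CovZ.n1 (2520, 27640) (by decide +kernel)
               (CovZ.leaf K2_ok TE_l3608 _)
               (CovZ.leaf K2_ok TE_l3609 _))))
            (CovZ.subM 1817221048178338388874773916689231445178630535963801211159808 (by decide +kernel)
             (CovZ.n1 (2480, 27760) (by decide +kernel)
              (CovZ.n2 (2560, 27760) (by decide +kernel)
               (CovZ.n2 (2520, 27720) (by decide +kernel)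
                (CovZ.n2 (2520, 27760) (by decide +kernel)
                 (CovZ.leaf K2_ok TE_l3610 _)
                 (CovZ.n1 (2500, 27740) (by decide +kernel)
                  (CovZ.leaf K2_ok TE_l3611 _)
                  (CovZ.leaf K2_ok TE_l3612 _)))
                (CovZ.leaf K2_ok TE_l3613 _))
               (CovZ.n1 (2520, 27800) (by decide +kernel)
                (CovZ.n2 (2560, 27800) (by decide +kernel)
                 (CovZ.leaf K2_ok TE_l3614 _)
                 (CovZ.leaf K2_ok TE_l3615 _))
                (CovZ.n1 (2520, 27760) (by decide +kernel)
                 (CovZ.leaf K2_ok TE_l3616 _)
                 (CovZ.leaf K2_ok TE_l3617 _))))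
              (CovZ.n1 (2480, 27680) (by decide +kernel)
               (CovZ.n2 (2440, 27720) (by decide +kernel)
                (CovZ.n2 (2480, 27720) (by decide +kernel)
                 (CovZ.n2 (2460, 27700) (by decide +kernel)
                  (CovZ.leaf K2_ok TE_l3618 _)
                  (CovZ.leaf K2_ok TE_l3619 _))
                 (CovZ.n1 (2460, 27740) (by decide +kernel)
                  (CovZ.leaf K2_ok TE_l3620 _)
                  (CovZ.leaf K2_ok TE_l3621 _)))
                (CovZ.n1 (2440, 27680) (by decide +kernel)
                 (CovZ.n2 (2420, 27700) (by decide +kernel)
                  (CovZ.leaf K2_ok TE_l3622 _)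
                  (CovZ.leaf K2_ok TE_l3623 _))
                 (CovZ.n1 (2460, 27700) (by decide +kernel)
                  (CovZ.leaf K2_ok TE_l3624 _)
                  (CovZ.leaf K2_ok TE_l3625 _))))
               (CovZ.n1 (2520, 27720) (by decide +kernel)
                (CovZ.n2 (2520, 27680) (by decide +kernel)
                 (CovZ.leaf K2_ok TE_l3626 _)
                 (CovZ.leaf K2_ok TE_l3627 _))
                (CovZ.n1 (2480, 27720) (by decide +kernel)
                 (CovZ.n2 (2500, 27740) (by decide +kernel)
                  (CovZ.leaf K2_ok TE_l3628 _)
                  (CovZ.leaf K2_ok TE_l3629 _))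
                 (CovZ.leaf K2_ok TE_l3630 _))))))))

theorem TE_u56 : CovZ TE_M (toL (selN TE_LN 1817343708621582946697615459730755212598528211325596578400000)) [0, 7, 6, 1] (2560, 27840) (2560, 28160) (2240, 27840) :=
    (CovZ.subM 48827308201599025344273713214489582077616201731687680 (by decide +kernel)
           (CovZ.n1 (2400, 28000) (by decide +kernel)
            (CovZ.n2 (2560, 28000) (by decide +kernel)
             (CovZ.subM 669806294751389516940203396924720384 (by decide +kernel)
              (CovZ.n2 (2480, 27920) (by decide +kernel)
               (CovZ.badM (by decide +kernel))
               (CovZ.n1 (2560, 27920) (by decide +kernel)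
                (CovZ.n2 (2520, 27880) (by decide +kernel)
                 (CovZ.subM 18963252908872930705408 (by decide +kernel)
                  (CovZ.n2 (2520, 27920) (by decide +kernel)
                   (CovZ.n2 (2540, 27900) (by decide +kernel)
                    (CovZ.n2 (2520, 27900) (by decide +kernel)
                     (CovZ.leaf K2_ok TE_l3632 _)
                     (CovZ.leaf K2_ok TE_l3633 _))
                    (CovZ.leaf K2_ok TE_l3634 _))
                   (CovZ.n1 (2500, 27900) (by decide +kernel)
                    (CovZ.badM (by decide +kernel))
                    (CovZ.n1 (2520, 27900) (by decide +kernel)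
                     (CovZ.leaf K2_ok TE_l3635 _)
                     (CovZ.leaf K2_ok TE_l3636 _)))))
                 (CovZ.n1 (2560, 27880) (by decide +kernel)
                  (CovZ.n2 (2540, 27860) (by decide +kernel)
                   (CovZ.leaf K2_ok TE_l3637 _)
                   (CovZ.leaf K2_ok TE_l3638 _))
                  (CovZ.n1 (2540, 27900) (by decide +kernel)
                   (CovZ.leaf K2_ok TE_l3639 _)
                   (CovZ.leaf K2_ok TE_l3640 _))))
                (CovZ.subM 18963252908872930705408 (by decide +kernel)
                 (CovZ.n1 (2520, 27960) (by decide +kernel)
                  (CovZ.n2 (2560, 27960) (by decide +kernel)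
                   (CovZ.n2 (2540, 27940) (by decide +kernel)
                    (CovZ.n2 (2540, 27960) (by decide +kernel)
                     (CovZ.leaf K2_ok TE_l3641 _)
                     (CovZ.n1 (2530, 27950) (by decide +kernel)
                      (CovZ.badM (by decide +kernel))
                      (CovZ.leaf K2_ok TE_l3643 _)))
                    (CovZ.leaf K2_ok TE_l3644 _))
                   (CovZ.n1 (2540, 27980) (by decide +kernel)
                    (CovZ.n2 (2560, 27980) (by decide +kernel)
                     (CovZ.n2 (2550, 27970) (by decide +kernel)
                      (CovZ.leaf K2_ok TE_l3645 _)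
                      (CovZ.leaf K2_ok TE_l3646 _))
                     (CovZ.leaf K2_ok TE_l3647 _))
                    (CovZ.n1 (2540, 27960) (by decide +kernel)
                     (CovZ.badM (by decide +kernel))
                     (CovZ.n1 (2550, 27970) (by decide +kernel)
                      (CovZ.leaf K2_ok TE_l3650 _)
                      (CovZ.badM (by decide +kernel))))))
                  (CovZ.n1 (2520, 27920) (by decide +kernel)
                   (CovZ.badM (by decide +kernel))
                   (CovZ.n1 (2540, 27940) (by decide +kernel)
                    (CovZ.leaf K2_ok TE_l3652 _)
                    (CovZ.n1 (2520, 27940) (by decide +kernel)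
                     (CovZ.n2 (2530, 27950) (by decide +kernel)
                      (CovZ.leaf K2_ok TE_l3653 _)
                      (CovZ.badM (by decide +kernel)))
                     (CovZ.leaf K2_ok TE_l3654 _)))))))))
             (CovZ.subM 41862893421947820653566173032480768 (by decide +kernel)
              (CovZ.n1 (2480, 28080) (by decide +kernel)
               (CovZ.n2 (2560, 28080) (by decide +kernel)
                (CovZ.badM (by decide +kernel))
                (CovZ.n1 (2520, 28120) (by decide +kernel)
                 (CovZ.n2 (2560, 28120) (by decide +kernel)
                  (CovZ.badM (by decide +kernel))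
                  (CovZ.n1 (2540, 28140) (by decide +kernel)
                   (CovZ.n2 (2560, 28140) (by decide +kernel)
                    (CovZ.n2 (2550, 28130) (by decide +kernel)
                     (CovZ.leaf K2_ok TE_l3656 _)
                     (CovZ.leaf K2_ok TE_l17221 _))
                    (CovZ.n1 (2550, 28150) (by decide +kernel)
                     (CovZ.leaf K2_ok TE_l3657 _)
                     (CovZ.leaf K2_ok TE_l3658 _)))
                   (CovZ.n1 (2540, 28120) (by decide +kernel)
                    (CovZ.n2 (2530, 28130) (by decide +kernel)
                     (CovZ.leaf K2_ok TE_l3659 _)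
                     (CovZ.leaf K2_ok TE_l17222 _))
                    (CovZ.n1 (2550, 28130) (by decide +kernel)
                     (CovZ.badM (by decide +kernel))
                     (CovZ.leaf K2_ok TE_l3660 _)))))
                 (CovZ.n1 (2520, 28080) (by decide +kernel)
                  (CovZ.n2 (2500, 28100) (by decide +kernel)
                   (CovZ.badM (by decide +kernel))
                   (CovZ.badM (by decide +kernel)))
                  (CovZ.badM (by decide +kernel)))))
               (CovZ.n1 (2480, 28000) (by decide +kernel)
                (CovZ.n2 (2440, 28040) (by decide +kernel)
                 (CovZ.badM (by decide +kernel))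
                 (CovZ.badM (by decide +kernel)))
                (CovZ.badM (by decide +kernel))))))
            (CovZ.subM 47890485652059027493504639354672382206747511191782656 (by decide +kernel)
             (CovZ.n1 (2400, 27840) (by decide +kernel)
              (CovZ.badM (by decide +kernel))
              (CovZ.n1 (2480, 27920) (by decide +kernel)
               (CovZ.n2 (2480, 27840) (by decide +kernel)
                (CovZ.subM 1099511627776 (by decide +kernel)
                 (CovZ.n2 (2440, 27880) (by decide +kernel)
                  (CovZ.n2 (2480, 27880) (by decide +kernel)
                   (CovZ.n2 (2460, 27860) (by decide +kernel)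
                    (CovZ.badM (by decide +kernel))
                    (CovZ.n1 (2480, 27860) (by decide +kernel)
                     (CovZ.n2 (2470, 27850) (by decide +kernel)
                      (CovZ.leaf K2_ok TE_l17223 _)
                      (CovZ.leaf K2_ok TE_l3663 _))
                     (CovZ.n1 (2470, 27870) (by decide +kernel)
                      (CovZ.leaf K2_ok TE_l17224 _)
                      (CovZ.leaf K2_ok TE_l17225 _))))
                   (CovZ.badM (by decide +kernel)))
                  (CovZ.n1 (2440, 27840) (by decide +kernel)
                   (CovZ.badM (by decide +kernel))
                   (CovZ.n1 (2460, 27860) (by decide +kernel)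
                    (CovZ.n2 (2460, 27840) (by decide +kernel)
                     (CovZ.n2 (2450, 27850) (by decide +kernel)
                      (CovZ.n2 (2460, 27850) (by decide +kernel)
                       (CovZ.n2 (2455, 27845) (by decide +kernel)
                        (CovZ.leaf K2_ok TE_l17226 _)
                        (CovZ.leaf K2_ok TE_l17227 _))
                       (CovZ.leaf K2_ok TE_l17228 _))
                      (CovZ.badM (by decide +kernel)))
                     (CovZ.n1 (2470, 27850) (by decide +kernel)
                      (CovZ.leaf K2_ok TE_l3664 _)
                      (CovZ.leaf K2_ok TE_l17229 _)))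
                    (CovZ.badM (by decide +kernel))))))
                (CovZ.n1 (2520, 27880) (by decide +kernel)
                 (CovZ.n2 (2520, 27840) (by decide +kernel)
                  (CovZ.n2 (2500, 27860) (by decide +kernel)
                   (CovZ.leaf K2_ok TE_l3665 _)
                   (CovZ.leaf K2_ok TE_l3666 _))
                  (CovZ.n1 (2540, 27860) (by decide +kernel)
                   (CovZ.leaf K2_ok TE_l3667 _)
                   (CovZ.leaf K2_ok TE_l3668 _)))
                 (CovZ.subM 18963252908872930705408 (by decide +kernel)
                  (CovZ.n1 (2480, 27880) (by decide +kernel)
                   (CovZ.n2 (2500, 27900) (by decide +kernel)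
                    (CovZ.n2 (2500, 27880) (by decide +kernel)
                     (CovZ.badM (by decide +kernel))
                     (CovZ.n1 (2510, 27890) (by decide +kernel)
                      (CovZ.leaf K2_ok TE_l3669 _)
                      (CovZ.leaf K2_ok TE_l3670 _)))
                    (CovZ.badM (by decide +kernel)))
                   (CovZ.n1 (2500, 27860) (by decide +kernel)
                    (CovZ.n2 (2480, 27860) (by decide +kernel)
                     (CovZ.n2 (2490, 27870) (by decide +kernel)
                      (CovZ.leaf K2_ok TE_l3671 _)
                      (CovZ.leaf K2_ok TE_l3672 _))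
                     (CovZ.leaf K2_ok TE_l3673 _))
                    (CovZ.n1 (2500, 27880) (by decide +kernel)
                     (CovZ.leaf K2_ok TE_l3674 _)
                     (CovZ.n1 (2490, 27870) (by decide +kernel)
                      (CovZ.leaf K2_ok TE_l17230 _)
                      (CovZ.leaf K2_ok TE_l3675 _))))))))
               (CovZ.badM (by decide +kernel)))))))

theorem TE_u57 : CovZ TE_M (toL (selN TE_LN 1817343713671436484780183416183821499313564798678792876902144)) [0, 7, 6, 1] (2560, 27520) (2400, 27680) (2240, 27520) :=
    (CovZ.n2 (2400, 27520) (by decide +kernel)
            (CovZ.n2 (2320, 27600) (by decide +kernel)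
             (CovZ.n2 (2400, 27600) (by decide +kernel)
              (CovZ.subM 1817343659794594448233306774436359121671760182924087776002304 (by decide +kernel)
               (CovZ.n2 (2360, 27560) (by decide +kernel)
                (CovZ.n2 (2360, 27600) (by decide +kernel)
                 (CovZ.n2 (2380, 27580) (by decide +kernel)
                  (CovZ.n2 (2360, 27580) (by decide +kernel)
                   (CovZ.leaf K2_ok TE_l3676 _)
                   (CovZ.leaf K2_ok TE_l3677 _))
                  (CovZ.n1 (2380, 27600) (by decide +kernel)
                   (CovZ.leaf K2_ok TE_l3678 _)
                   (CovZ.n1 (2370, 27590) (by decide +kernel)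
                    (CovZ.leaf K2_ok TE_l3679 _)
                    (CovZ.leaf K2_ok TE_l3680 _))))
                 (CovZ.subM 210405615535238797279289697429624456362881700291997845159936 (by decide +kernel)
                  (CovZ.n1 (2340, 27580) (by decide +kernel)
                   (CovZ.badM (by decide +kernel))
                   (CovZ.n1 (2360, 27580) (by decide +kernel)
                    (CovZ.n2 (2350, 27570) (by decide +kernel)
                     (CovZ.leaf K2_ok TE_l3681 _)
                     (CovZ.leaf K2_ok TE_l3682 _))
                    (CovZ.n1 (2350, 27590) (by decide +kernel)
                     (CovZ.leaf K2_ok TE_l3683 _)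
                     (CovZ.leaf K2_ok TE_l3684 _))))))
                (CovZ.n1 (2400, 27560) (by decide +kernel)
                 (CovZ.n2 (2380, 27540) (by decide +kernel)
                  (CovZ.leaf K2_ok TE_l3685 _)
                  (CovZ.leaf K2_ok TE_l3686 _))
                 (CovZ.n1 (2380, 27580) (by decide +kernel)
                  (CovZ.leaf K2_ok TE_l3687 _)
                  (CovZ.leaf K2_ok TE_l3688 _)))))
              (CovZ.subM 210283003919348112984362016007010154984651783433482334650368 (by decide +kernel)
               (CovZ.n1 (2360, 27640) (by decide +kernel)
                (CovZ.n2 (2400, 27640) (by decide +kernel)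
                 (CovZ.n2 (2380, 27620) (by decide +kernel)
                  (CovZ.n2 (2380, 27640) (by decide +kernel)
                   (CovZ.leaf K2_ok TE_l3689 _)
                   (CovZ.badM (by decide +kernel)))
                  (CovZ.leaf K2_ok TE_l3691 _))
                 (CovZ.subM 2722264127664366261497878297723893972992 (by decide +kernel)
                  (CovZ.n1 (2380, 27660) (by decide +kernel)
                   (CovZ.n2 (2400, 27660) (by decide +kernel)
                    (CovZ.n2 (2390, 27650) (by decide +kernel)
                     (CovZ.leaf K2_ok TE_l3692 _)
                     (CovZ.leaf K2_ok TE_l3693 _))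
                    (CovZ.n1 (2390, 27670) (by decide +kernel)
                     (CovZ.leaf K2_ok TE_l3694 _)
                     (CovZ.leaf K2_ok TE_l3695 _)))
                   (CovZ.n1 (2380, 27640) (by decide +kernel)
                    (CovZ.badM (by decide +kernel))
                    (CovZ.n1 (2390, 27650) (by decide +kernel)
                     (CovZ.leaf K2_ok TE_l3697 _)
                     (CovZ.badM (by decide +kernel)))))))
                (CovZ.n1 (2360, 27600) (by decide +kernel)
                 (CovZ.badM (by decide +kernel))
                 (CovZ.n1 (2380, 27620) (by decide +kernel)
                  (CovZ.leaf K2_ok TE_l3699 _)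
                  (CovZ.badM (by decide +kernel)))))))
             (CovZ.n1 (2320, 27520) (by decide +kernel)
              (CovZ.subM 207267070654221538857639024376378567792330906287394189737984 (by decide +kernel)
               (CovZ.n2 (2280, 27560) (by decide +kernel)
                (CovZ.n2 (2320, 27560) (by decide +kernel)
                 (CovZ.n2 (2300, 27540) (by decide +kernel)
                  (CovZ.n2 (2300, 27560) (by decide +kernel)
                   (CovZ.n2 (2310, 27550) (by decide +kernel)
                    (CovZ.badM (by decide +kernel))
                    (CovZ.badM (by decide +kernel)))
                   (CovZ.badM (by decide +kernel)))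
                  (CovZ.n1 (2320, 27540) (by decide +kernel)
                   (CovZ.n2 (2310, 27530) (by decide +kernel)
                    (CovZ.subM 200989867148629844193284075799130086931247253632057595658240 (by decide +kernel)
                     (CovZ.n2 (2310, 27540) (by decide +kernel)
                      (CovZ.n2 (2315, 27535) (by decide +kernel)
                       (CovZ.badM (by decide +kernel))
                       (CovZ.n1 (2315, 27540) (by decide +kernel)
                        (CovZ.leaf K2_ok TE_l17231 _)
                        (CovZ.badM (by decide +kernel))))
                      (CovZ.badM (by decide +kernel))))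
                    (CovZ.n1 (2320, 27530) (by decide +kernel)
                     (CovZ.n2 (2315, 27525) (by decide +kernel)
                      (CovZ.leaf K2_ok TE_l17232 _)
                      (CovZ.leaf K2_ok TE_l17233 _))
                     (CovZ.leaf K2_ok TE_l17234 _)))
                   (CovZ.n1 (2310, 27550) (by decide +kernel)
                    (CovZ.n2 (2320, 27550) (by decide +kernel)
                     (CovZ.n2 (2315, 27545) (by decide +kernel)
                      (CovZ.n2 (2315, 27550) (by decide +kernel)
                       (CovZ.leaf K2_ok TE_l17235 _)
                       (CovZ.leaf K2_ok TE_l19601 _))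
                      (CovZ.leaf K2_ok TE_l17236 _))
                     (CovZ.n1 (2315, 27555) (by decide +kernel)
                      (CovZ.leaf K2_ok TE_l17237 _)
                      (CovZ.n1 (2315, 27550) (by decide +kernel)
                       (CovZ.badM (by decide +kernel))
                       (CovZ.leaf K2_ok TE_l17238 _))))
                    (CovZ.subM 200989867148629844193284075799130086931247253632057595658240 (by decide +kernel)
                     (CovZ.n1 (2310, 27540) (by decide +kernel)
                      (CovZ.badM (by decide +kernel))
                      (CovZ.n1 (2315, 27545) (by decide +kernel)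
                       (CovZ.n2 (2315, 27540) (by decide +kernel)
                        (CovZ.badM (by decide +kernel))
                        (CovZ.leaf K2_ok TE_l17239 _))
                       (CovZ.badM (by decide +kernel))))))))
                 (CovZ.badM (by decide +kernel)))
                (CovZ.n1 (2280, 27520) (by decide +kernel)
                 (CovZ.badM (by decide +kernel))
                 (CovZ.n1 (2300, 27540) (by decide +kernel)
                  (CovZ.n2 (2300, 27520) (by decide +kernel)
                   (CovZ.badM (by decide +kernel))
                   (CovZ.n1 (2310, 27530) (by decide +kernel)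
                    (CovZ.n2 (2310, 27520) (by decide +kernel)
                     (CovZ.badM (by decide +kernel))
                     (CovZ.n1 (2315, 27525) (by decide +kernel)
                      (CovZ.leaf K2_ok TE_l17240 _)
                      (CovZ.leaf K2_ok TE_l17241 _)))
                    (CovZ.badM (by decide +kernel))))
                  (CovZ.badM (by decide +kernel))))))
              (CovZ.n1 (2360, 27560) (by decide +kernel)
               (CovZ.subM 1817343569999933850666187622967843122906643405014858666623232 (by decide +kernel)
                (CovZ.n2 (2360, 27520) (by decide +kernel)
                 (CovZ.n2 (2340, 27540) (by decide +kernel)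
                  (CovZ.n2 (2360, 27540) (by decide +kernel)
                   (CovZ.n2 (2350, 27530) (by decide +kernel)
                    (CovZ.leaf K2_ok TE_l3702 _)
                    (CovZ.leaf K2_ok TE_l3703 _))
                   (CovZ.leaf K2_ok TE_l3704 _))
                  (CovZ.n1 (2340, 27520) (by decide +kernel)
                   (CovZ.n2 (2330, 27530) (by decide +kernel)
                    (CovZ.leaf K2_ok TE_l17242 _)
                    (CovZ.leaf K2_ok TE_l17243 _))
                   (CovZ.n1 (2350, 27530) (by decide +kernel)
                    (CovZ.leaf K2_ok TE_l3705 _)
                    (CovZ.leaf K2_ok TE_l3706 _))))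
                 (CovZ.n1 (2380, 27540) (by decide +kernel)
                  (CovZ.leaf K2_ok TE_l3707 _)
                  (CovZ.leaf K2_ok TE_l3708 _))))
               (CovZ.subM 210405621521914879239556919087982401000382084009626206994432 (by decide +kernel)
                (CovZ.n1 (2320, 27560) (by decide +kernel)
                 (CovZ.n2 (2340, 27580) (by decide +kernel)
                  (CovZ.n2 (2340, 27560) (by decide +kernel)
                   (CovZ.n2 (2330, 27570) (by decide +kernel)
                    (CovZ.leaf K2_ok TE_l17244 _)
                    (CovZ.leaf K2_ok TE_l17245 _))
                   (CovZ.n1 (2350, 27570) (by decide +kernel)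
                    (CovZ.leaf K2_ok TE_l3709 _)
                    (CovZ.leaf K2_ok TE_l17246 _)))
                  (CovZ.subM 122611616256059576314242382189218877971016657354394435584 (by decide +kernel)
                   (CovZ.n1 (2320, 27580) (by decide +kernel)
                    (CovZ.badM (by decide +kernel))
                    (CovZ.n1 (2330, 27570) (by decide +kernel)
                     (CovZ.n2 (2320, 27570) (by decide +kernel)
                      (CovZ.badM (by decide +kernel))
                      (CovZ.n1 (2325, 27565) (by decide +kernel)
                       (CovZ.leaf K2_ok TE_l19602 _)
                       (CovZ.badM (by decide +kernel))))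
                     (CovZ.badM (by decide +kernel))))))
                 (CovZ.n1 (2340, 27540) (by decide +kernel)
                  (CovZ.n2 (2320, 27540) (by decide +kernel)
                   (CovZ.n2 (2330, 27550) (by decide +kernel)
                    (CovZ.leaf K2_ok TE_l17247 _)
                    (CovZ.n1 (2320, 27550) (by decide +kernel)
                     (CovZ.n2 (2325, 27555) (by decide +kernel)
                      (CovZ.leaf K2_ok TE_l17248 _)
                      (CovZ.leaf K2_ok TE_l17249 _))
                     (CovZ.leaf K2_ok TE_l17250 _)))
                   (CovZ.n1 (2330, 27530) (by decide +kernel)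
                    (CovZ.n2 (2320, 27530) (by decide +kernel)
                     (CovZ.leaf K2_ok TE_l17251 _)
                     (CovZ.leaf K2_ok TE_l17252 _))
                    (CovZ.n1 (2330, 27540) (by decide +kernel)
                     (CovZ.leaf K2_ok TE_l17253 _)
                     (CovZ.leaf K2_ok TE_l17254 _))))
                  (CovZ.n1 (2340, 27560) (by decide +kernel)
                   (CovZ.n2 (2350, 27550) (by decide +kernel)
                    (CovZ.leaf K2_ok TE_l17255 _)
                    (CovZ.leaf K2_ok TE_l3710 _))
                   (CovZ.n1 (2330, 27550) (by decide +kernel)
                    (CovZ.n2 (2330, 27560) (by decide +kernel)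
                     (CovZ.leaf K2_ok TE_l17256 _)
                     (CovZ.n1 (2325, 27555) (by decide +kernel)
                      (CovZ.leaf K2_ok TE_l17257 _)
                      (CovZ.leaf K2_ok TE_l17258 _)))
                    (CovZ.leaf K2_ok TE_l17259 _)))))))))
            (CovZ.n1 (2480, 27600) (by decide +kernel)
             (CovZ.n2 (2480, 27520) (by decide +kernel)
              (CovZ.n2 (2440, 27560) (by decide +kernel)
               (CovZ.leaf K2_ok TE_l3711 _)
               (CovZ.n1 (2440, 27520) (by decide +kernel)
                (CovZ.leaf K2_ok TE_l3712 _)
                (CovZ.leaf K2_ok TE_l3713 _)))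
              (CovZ.n1 (2520, 27560) (by decide +kernel)
               (CovZ.leaf K2_ok TE_l3714 _)
               (CovZ.leaf K2_ok TE_l3715 _)))
             (CovZ.n1 (2400, 27600) (by decide +kernel)
              (CovZ.subM 1817319127892953805587483614421450679215197879853776602415360 (by decide +kernel)
               (CovZ.n2 (2440, 27640) (by decide +kernel)
                (CovZ.n2 (2440, 27600) (by decide +kernel)
                 (CovZ.leaf K2_ok TE_l3716 _)
                 (CovZ.leaf K2_ok TE_l3717 _))
                (CovZ.n1 (2400, 27640) (by decide +kernel)
                 (CovZ.n2 (2420, 27660) (by decide +kernel)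
                  (CovZ.leaf K2_ok TE_l3718 _)
                  (CovZ.n1 (2400, 27660) (by decide +kernel)
                   (CovZ.leaf K2_ok TE_l3719 _)
                   (CovZ.leaf K2_ok TE_l3720 _)))
                 (CovZ.n1 (2420, 27620) (by decide +kernel)
                  (CovZ.leaf K2_ok TE_l3721 _)
                  (CovZ.leaf K2_ok TE_l3722 _)))))
              (CovZ.subM 1817343564013623144115253127039669924853067857455101801152768 (by decide +kernel)
               (CovZ.n1 (2440, 27560) (by decide +kernel)
                (CovZ.n2 (2400, 27560) (by decide +kernel)
                 (CovZ.n2 (2420, 27580) (by decide +kernel)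
                  (CovZ.leaf K2_ok TE_l3723 _)
                  (CovZ.leaf K2_ok TE_l3724 _))
                 (CovZ.leaf K2_ok TE_l3725 _))
                (CovZ.n1 (2440, 27600) (by decide +kernel)
                 (CovZ.leaf K2_ok TE_l3726 _)
                 (CovZ.n1 (2420, 27580) (by decide +kernel)
                  (CovZ.leaf K2_ok TE_l3727 _)
                  (CovZ.leaf K2_ok TE_l3728 _))))))))

theorem TE_u58 : CovZ TE_M (toL (selN TE_LN 1817343713671436484780183416183821499313564798678792876902144)) [0, 7, 6, 1] (2400, 27680) (2240, 27840) (2240, 27520) :=
    (CovZ.subM 122617602566766606366980741972349875451114729947686503424 (by decide +kernel)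
            (CovZ.n1 (2240, 27680) (by decide +kernel)
             (CovZ.subM 348449813533335737598222935856079920169984 (by decide +kernel)
              (CovZ.n2 (2320, 27760) (by decide +kernel)
               (CovZ.n2 (2320, 27680) (by decide +kernel)
                (CovZ.badM (by decide +kernel))
                (CovZ.n1 (2360, 27720) (by decide +kernel)
                 (CovZ.n2 (2360, 27680) (by decide +kernel)
                  (CovZ.badM (by decide +kernel))
                  (CovZ.n1 (2380, 27700) (by decide +kernel)
                   (CovZ.n2 (2380, 27680) (by decide +kernel)
                    (CovZ.subM 664613997892457936451904079895986176 (by decide +kernel)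
                     (CovZ.n2 (2370, 27690) (by decide +kernel)
                      (CovZ.n2 (2380, 27690) (by decide +kernel)
                       (CovZ.n2 (2375, 27685) (by decide +kernel)
                        (CovZ.leaf K2_ok TE_l17260 _)
                        (CovZ.leaf K2_ok TE_l17261 _))
                       (CovZ.n1 (2375, 27695) (by decide +kernel)
                        (CovZ.leaf K2_ok TE_l17262 _)
                        (CovZ.leaf K2_ok TE_l17263 _)))
                      (CovZ.n1 (2370, 27680) (by decide +kernel)
                       (CovZ.n2 (2365, 27685) (by decide +kernel)
                        (CovZ.leaf K2_ok TE_l17264 _)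
                        (CovZ.badM (by decide +kernel)))
                       (CovZ.n1 (2375, 27685) (by decide +kernel)
                        (CovZ.badM (by decide +kernel))
                        (CovZ.leaf K2_ok TE_l17265 _)))))
                    (CovZ.n1 (2390, 27690) (by decide +kernel)
                     (CovZ.leaf K2_ok TE_l17266 _)
                     (CovZ.n1 (2380, 27690) (by decide +kernel)
                      (CovZ.leaf K2_ok TE_l17267 _)
                      (CovZ.leaf K2_ok TE_l17268 _))))
                   (CovZ.badM (by decide +kernel))))
                 (CovZ.badM (by decide +kernel))))
               (CovZ.badM (by decide +kernel))))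
             (CovZ.n1 (2320, 27600) (by decide +kernel)
              (CovZ.n2 (2240, 27600) (by decide +kernel)
               (CovZ.badM (by decide +kernel))
               (CovZ.n1 (2280, 27560) (by decide +kernel)
                (CovZ.badM (by decide +kernel))
                (CovZ.badM (by decide +kernel))))
              (CovZ.subM 5192296858553790881438269748281344 (by decide +kernel)
               (CovZ.n1 (2320, 27680) (by decide +kernel)
                (CovZ.n2 (2360, 27640) (by decide +kernel)
                 (CovZ.badM (by decide +kernel))
                 (CovZ.n1 (2360, 27680) (by decide +kernel)
                  (CovZ.n2 (2380, 27660) (by decide +kernel)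
                   (CovZ.badM (by decide +kernel))
                   (CovZ.n1 (2380, 27680) (by decide +kernel)
                    (CovZ.n2 (2390, 27670) (by decide +kernel)
                     (CovZ.badM (by decide +kernel))
                     (CovZ.n1 (2390, 27680) (by decide +kernel)
                      (CovZ.leaf K2_ok TE_l17269 _)
                      (CovZ.leaf K2_ok TE_l17270 _)))
                    (CovZ.badM (by decide +kernel))))
                  (CovZ.badM (by decide +kernel))))
                (CovZ.badM (by decide +kernel)))))))

theorem TE_u59 : CovZ TE_M (toL (selN TE_LN 1810944000319793743917188857798107913952996601537980589982528)) [0, 7, 6, 1] (1920, 26880) (2240, 26880) (2240, 27200) :=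
    (CovZ.subM 75557864007681357938944 (by decide +kernel)
           (CovZ.n2 (2080, 27040) (by decide +kernel)
            (CovZ.n2 (2240, 27040) (by decide +kernel)
             (CovZ.subM 274877906944 (by decide +kernel)
              (CovZ.n2 (2160, 26960) (by decide +kernel)
               (CovZ.badM (by decide +kernel))
               (CovZ.n1 (2240, 26960) (by decide +kernel)
                (CovZ.n2 (2200, 26920) (by decide +kernel)
                 (CovZ.badM (by decide +kernel))
                 (CovZ.badM (by decide +kernel)))
                (CovZ.badM (by decide +kernel)))))
             (CovZ.n1 (2160, 27120) (by decide +kernel)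
              (CovZ.n2 (2240, 27120) (by decide +kernel)
               (CovZ.n2 (2200, 27080) (by decide +kernel)
                (CovZ.badM (by decide +kernel))
                (CovZ.n1 (2240, 27080) (by decide +kernel)
                 (CovZ.badM (by decide +kernel))
                 (CovZ.badM (by decide +kernel))))
               (CovZ.subM 281474976743680 (by decide +kernel)
                (CovZ.n1 (2200, 27160) (by decide +kernel)
                 (CovZ.n2 (2240, 27160) (by decide +kernel)
                  (CovZ.n2 (2220, 27140) (by decide +kernel)
                   (CovZ.badM (by decide +kernel))
                   (CovZ.n1 (2240, 27140) (by decide +kernel)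
                    (CovZ.n2 (2230, 27130) (by decide +kernel)
                     (CovZ.n2 (2230, 27140) (by decide +kernel)
                      (CovZ.n2 (2235, 27135) (by decide +kernel)
                       (CovZ.badM (by decide +kernel))
                       (CovZ.n1 (2235, 27140) (by decide +kernel)
                        (CovZ.leaf K2_ok TE_l17271 _)
                        (CovZ.leaf K2_ok TE_l17272 _)))
                      (CovZ.badM (by decide +kernel)))
                     (CovZ.leaf K2_ok TE_l3729 _))
                    (CovZ.n1 (2230, 27150) (by decide +kernel)
                     (CovZ.n2 (2240, 27150) (by decide +kernel)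
                      (CovZ.n2 (2235, 27145) (by decide +kernel)
                       (CovZ.badM (by decide +kernel))
                       (CovZ.leaf K2_ok TE_l17273 _))
                      (CovZ.badM (by decide +kernel)))
                     (CovZ.n1 (2230, 27140) (by decide +kernel)
                      (CovZ.badM (by decide +kernel))
                      (CovZ.n1 (2235, 27145) (by decide +kernel)
                       (CovZ.leaf K2_ok TE_l17274 _)
                       (CovZ.badM (by decide +kernel)))))))
                  (CovZ.n1 (2220, 27180) (by decide +kernel)
                   (CovZ.n2 (2240, 27180) (by decide +kernel)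
                    (CovZ.badM (by decide +kernel))
                    (CovZ.badM (by decide +kernel)))
                   (CovZ.badM (by decide +kernel))))
                 (CovZ.badM (by decide +kernel)))))
              (CovZ.n1 (2160, 27040) (by decide +kernel)
               (CovZ.badM (by decide +kernel))
               (CovZ.n1 (2200, 27080) (by decide +kernel)
                (CovZ.badM (by decide +kernel))
                (CovZ.badM (by decide +kernel))))))
            (CovZ.subM 274877906944 (by decide +kernel)
             (CovZ.n1 (2080, 26880) (by decide +kernel)
              (CovZ.badM (by decide +kernel))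
              (CovZ.n1 (2160, 26960) (by decide +kernel)
               (CovZ.n2 (2160, 26880) (by decide +kernel)
                (CovZ.badM (by decide +kernel))
                (CovZ.n1 (2200, 26920) (by decide +kernel)
                 (CovZ.badM (by decide +kernel))
                 (CovZ.badM (by decide +kernel))))
               (CovZ.badM (by decide +kernel)))))))

theorem TE_u60 : CovZ TE_M (toL (selN TE_LN 1810944000319793743917188857798107913952996601537980589982528)) [0, 7, 6, 1] (2240, 26880) (2560, 26880) (2240, 27200) :=
    (CovZ.n1 (2400, 27040) (by decide +kernel)
           (CovZ.n2 (2400, 26880) (by decide +kernel)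
            (CovZ.subM 200867261518684490950379158597903099661416091037678638252800 (by decide +kernel)
             (CovZ.n2 (2320, 26960) (by decide +kernel)
              (CovZ.n2 (2400, 26960) (by decide +kernel)
               (CovZ.n2 (2360, 26920) (by decide +kernel)
                (CovZ.n2 (2360, 26960) (by decide +kernel)
                 (CovZ.leaf K2_ok TE_l3730 _)
                 (CovZ.leaf K2_ok TE_l3731 _))
                (CovZ.leaf K2_ok TE_l3732 _))
               (CovZ.n1 (2360, 27000) (by decide +kernel)
                (CovZ.leaf K2_ok TE_l3733 _)
                (CovZ.leaf K2_ok TE_l3734 _)))
              (CovZ.n1 (2320, 26880) (by decide +kernel)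
               (CovZ.subM 10775049444753063746788789322240 (by decide +kernel)
                (CovZ.n2 (2280, 26920) (by decide +kernel)
                 (CovZ.n2 (2320, 26920) (by decide +kernel)
                  (CovZ.n2 (2300, 26900) (by decide +kernel)
                   (CovZ.leaf K2_ok TE_l3735 _)
                   (CovZ.leaf K2_ok TE_l3736 _))
                  (CovZ.leaf K2_ok TE_l3737 _))
                 (CovZ.n1 (2280, 26880) (by decide +kernel)
                  (CovZ.n2 (2260, 26900) (by decide +kernel)
                   (CovZ.leaf K2_ok TE_l17275 _)
                   (CovZ.badM (by decide +kernel)))
                  (CovZ.n1 (2300, 26900) (by decide +kernel)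
                   (CovZ.leaf K2_ok TE_l3738 _)
                   (CovZ.leaf K2_ok TE_l3739 _)))))
               (CovZ.n1 (2360, 26920) (by decide +kernel)
                (CovZ.leaf K2_ok TE_l3740 _)
                (CovZ.n1 (2320, 26920) (by decide +kernel)
                 (CovZ.leaf K2_ok TE_l3741 _)
                 (CovZ.leaf K2_ok TE_l3742 _))))))
            (CovZ.n1 (2480, 26960) (by decide +kernel)
             (CovZ.n2 (2480, 26880) (by decide +kernel)
              (CovZ.leaf K2_ok TE_l3743 _)
              (CovZ.leaf K2_ok TE_l3744 _))
             (CovZ.subM 200867261518684490953101417533270607406902019760089945654016 (by decide +kernel)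
              (CovZ.n1 (2400, 26960) (by decide +kernel)
               (CovZ.n2 (2440, 27000) (by decide +kernel)
                (CovZ.leaf K2_ok TE_l3745 _)
                (CovZ.leaf K2_ok TE_l3746 _))
               (CovZ.n1 (2440, 26920) (by decide +kernel)
                (CovZ.leaf K2_ok TE_l3747 _)
                (CovZ.leaf K2_ok TE_l3748 _))))))
           (CovZ.subM 200867261518684490950209017414462437545833940337895062160128 (by decide +kernel)
            (CovZ.n1 (2240, 27040) (by decide +kernel)
             (CovZ.n2 (2320, 27120) (by decide +kernel)
              (CovZ.n2 (2320, 27040) (by decide +kernel)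
               (CovZ.subM 200867255532373784442745261553440181876214867779950586397440 (by decide +kernel)
                (CovZ.n2 (2280, 27080) (by decide +kernel)
                 (CovZ.n2 (2320, 27080) (by decide +kernel)
                  (CovZ.n2 (2300, 27060) (by decide +kernel)
                   (CovZ.leaf K2_ok TE_l3749 _)
                   (CovZ.leaf K2_ok TE_l3750 _))
                  (CovZ.leaf K2_ok TE_l3751 _))
                 (CovZ.subM 10794856485381629831187158532608 (by decide +kernel)
                  (CovZ.n1 (2280, 27040) (by decide +kernel)
                   (CovZ.n2 (2260, 27060) (by decide +kernel)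
                    (CovZ.leaf K2_ok TE_l3752 _)
                    (CovZ.n1 (2260, 27040) (by decide +kernel)
                     (CovZ.badM (by decide +kernel))
                     (CovZ.n1 (2270, 27050) (by decide +kernel)
                      (CovZ.badM (by decide +kernel))
                      (CovZ.leaf K2_ok TE_l3754 _))))
                   (CovZ.n1 (2300, 27060) (by decide +kernel)
                    (CovZ.leaf K2_ok TE_l3755 _)
                    (CovZ.leaf K2_ok TE_l3756 _))))))
               (CovZ.n1 (2360, 27080) (by decide +kernel)
                (CovZ.n2 (2360, 27040) (by decide +kernel)
                 (CovZ.leaf K2_ok TE_l3757 _)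
                 (CovZ.leaf K2_ok TE_l3758 _))
                (CovZ.n1 (2320, 27080) (by decide +kernel)
                 (CovZ.leaf K2_ok TE_l3759 _)
                 (CovZ.leaf K2_ok TE_l3760 _))))
              (CovZ.subM 200867255532373784442745261553440181876214868061442742977280 (by decide +kernel)
               (CovZ.n1 (2240, 27120) (by decide +kernel)
                (CovZ.n2 (2280, 27160) (by decide +kernel)
                 (CovZ.n2 (2280, 27120) (by decide +kernel)
                  (CovZ.subM 19807116186430091804866019584 (by decide +kernel)
                   (CovZ.n2 (2260, 27140) (by decide +kernel)
                    (CovZ.leaf K2_ok TE_l3761 _)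
                    (CovZ.n1 (2260, 27120) (by decide +kernel)
                     (CovZ.n2 (2250, 27130) (by decide +kernel)
                      (CovZ.leaf K2_ok TE_l3762 _)
                      (CovZ.leaf K2_ok TE_l3763 _))
                     (CovZ.n1 (2270, 27130) (by decide +kernel)
                      (CovZ.leaf K2_ok TE_l3764 _)
                      (CovZ.leaf K2_ok TE_l3765 _)))))
                  (CovZ.n1 (2300, 27140) (by decide +kernel)
                   (CovZ.leaf K2_ok TE_l3766 _)
                   (CovZ.leaf K2_ok TE_l3767 _)))
                 (CovZ.subM 19807116186430091804866019584 (by decide +kernel)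
                  (CovZ.n1 (2240, 27160) (by decide +kernel)
                   (CovZ.n2 (2260, 27180) (by decide +kernel)
                    (CovZ.n2 (2260, 27160) (by decide +kernel)
                     (CovZ.n2 (2250, 27170) (by decide +kernel)
                      (CovZ.leaf K2_ok TE_l17276 _)
                      (CovZ.leaf K2_ok TE_l17277 _))
                     (CovZ.n1 (2270, 27170) (by decide +kernel)
                      (CovZ.leaf K2_ok TE_l3768 _)
                      (CovZ.leaf K2_ok TE_l3769 _)))
                    (CovZ.subM 281492156580096 (by decide +kernel)
                     (CovZ.n1 (2240, 27180) (by decide +kernel)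
                      (CovZ.n2 (2250, 27190) (by decide +kernel)
                       (CovZ.leaf K2_ok TE_l17278 _)
                       (CovZ.badM (by decide +kernel)))
                      (CovZ.n1 (2250, 27170) (by decide +kernel)
                       (CovZ.badM (by decide +kernel))
                       (CovZ.n1 (2250, 27180) (by decide +kernel)
                        (CovZ.leaf K2_ok TE_l17279 _)
                        (CovZ.leaf K2_ok TE_l17280 _))))))
                   (CovZ.n1 (2260, 27140) (by decide +kernel)
                    (CovZ.subM 17179901952 (by decide +kernel)
                     (CovZ.n2 (2240, 27140) (by decide +kernel)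
                      (CovZ.n2 (2250, 27150) (by decide +kernel)
                       (CovZ.leaf K2_ok TE_l3770 _)
                       (CovZ.n1 (2240, 27150) (by decide +kernel)
                        (CovZ.leaf K2_ok TE_l17281 _)
                        (CovZ.leaf K2_ok TE_l17282 _)))
                      (CovZ.n1 (2250, 27130) (by decide +kernel)
                       (CovZ.leaf K2_ok TE_l3771 _)
                       (CovZ.leaf K2_ok TE_l3772 _))))
                    (CovZ.n1 (2260, 27160) (by decide +kernel)
                     (CovZ.leaf K2_ok TE_l3773 _)
                     (CovZ.subM 17179901952 (by decide +kernel)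
                      (CovZ.n1 (2250, 27150) (by decide +kernel)
                       (CovZ.n2 (2250, 27160) (by decide +kernel)
                        (CovZ.leaf K2_ok TE_l17283 _)
                        (CovZ.n1 (2245, 27155) (by decide +kernel)
                         (CovZ.leaf K2_ok TE_l17284 _)
                         (CovZ.leaf K2_ok TE_l17285 _)))
                       (CovZ.leaf K2_ok TE_l3774 _))))))))
                (CovZ.n1 (2280, 27080) (by decide +kernel)
                 (CovZ.subM 19807116186429810329889275904 (by decide +kernel)
                  (CovZ.n2 (2240, 27080) (by decide +kernel)
                   (CovZ.n2 (2260, 27100) (by decide +kernel)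
                    (CovZ.n2 (2260, 27080) (by decide +kernel)
                     (CovZ.badM (by decide +kernel))
                     (CovZ.n1 (2270, 27090) (by decide +kernel)
                      (CovZ.leaf K2_ok TE_l3775 _)
                      (CovZ.leaf K2_ok TE_l3776 _)))
                    (CovZ.n1 (2240, 27100) (by decide +kernel)
                     (CovZ.n2 (2250, 27110) (by decide +kernel)
                      (CovZ.leaf K2_ok TE_l17286 _)
                      (CovZ.badM (by decide +kernel)))
                     (CovZ.badM (by decide +kernel))))
                   (CovZ.n1 (2260, 27060) (by decide +kernel)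
                    (CovZ.badM (by decide +kernel))
                    (CovZ.n1 (2260, 27080) (by decide +kernel)
                     (CovZ.leaf K2_ok TE_l3777 _)
                     (CovZ.badM (by decide +kernel))))))
                 (CovZ.n1 (2280, 27120) (by decide +kernel)
                  (CovZ.n2 (2300, 27100) (by decide +kernel)
                   (CovZ.leaf K2_ok TE_l3778 _)
                   (CovZ.leaf K2_ok TE_l3779 _))
                  (CovZ.subM 19807116186429810329889308672 (by decide +kernel)
                   (CovZ.n1 (2260, 27100) (by decide +kernel)
                    (CovZ.n2 (2260, 27120) (by decide +kernel)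
                     (CovZ.leaf K2_ok TE_l3780 _)
                     (CovZ.n1 (2250, 27110) (by decide +kernel)
                      (CovZ.leaf K2_ok TE_l3781 _)
                      (CovZ.leaf K2_ok TE_l3782 _)))
                    (CovZ.leaf K2_ok TE_l3783 _))))))))
             (CovZ.n1 (2320, 26960) (by decide +kernel)
              (CovZ.subM 10794856485381629831462036439552 (by decide +kernel)
               (CovZ.n2 (2240, 26960) (by decide +kernel)
                (CovZ.n2 (2280, 27000) (by decide +kernel)
                 (CovZ.n2 (2280, 26960) (by decide +kernel)
                  (CovZ.n2 (2260, 26980) (by decide +kernel)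
                   (CovZ.leaf K2_ok TE_l17287 _)
                   (CovZ.badM (by decide +kernel)))
                  (CovZ.n1 (2300, 26980) (by decide +kernel)
                   (CovZ.leaf K2_ok TE_l3784 _)
                   (CovZ.leaf K2_ok TE_l3785 _)))
                 (CovZ.n1 (2240, 27000) (by decide +kernel)
                  (CovZ.n2 (2260, 27020) (by decide +kernel)
                   (CovZ.badM (by decide +kernel))
                   (CovZ.badM (by decide +kernel)))
                  (CovZ.badM (by decide +kernel))))
                (CovZ.n1 (2280, 26920) (by decide +kernel)
                 (CovZ.badM (by decide +kernel))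
                 (CovZ.n1 (2280, 26960) (by decide +kernel)
                  (CovZ.n2 (2300, 26940) (by decide +kernel)
                   (CovZ.leaf K2_ok TE_l3786 _)
                   (CovZ.leaf K2_ok TE_l3787 _))
                  (CovZ.badM (by decide +kernel))))))
              (CovZ.n1 (2320, 27040) (by decide +kernel)
               (CovZ.n2 (2360, 27000) (by decide +kernel)
                (CovZ.n2 (2320, 27000) (by decide +kernel)
                 (CovZ.leaf K2_ok TE_l3788 _)
                 (CovZ.leaf K2_ok TE_l3789 _))
                (CovZ.n1 (2360, 27040) (by decide +kernel)
                 (CovZ.leaf K2_ok TE_l3790 _)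
                 (CovZ.leaf K2_ok TE_l3791 _)))
               (CovZ.subM 10794856485381629831462036439552 (by decide +kernel)
                (CovZ.n1 (2280, 27000) (by decide +kernel)
                 (CovZ.n2 (2280, 27040) (by decide +kernel)
                  (CovZ.n2 (2300, 27020) (by decide +kernel)
                   (CovZ.leaf K2_ok TE_l3792 _)
                   (CovZ.leaf K2_ok TE_l3793 _))
                  (CovZ.n1 (2260, 27020) (by decide +kernel)
                   (CovZ.n2 (2260, 27040) (by decide +kernel)
                    (CovZ.badM (by decide +kernel))
                    (CovZ.badM (by decide +kernel)))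
                   (CovZ.badM (by decide +kernel))))
                 (CovZ.n1 (2320, 27000) (by decide +kernel)
                  (CovZ.n2 (2300, 26980) (by decide +kernel)
                   (CovZ.leaf K2_ok TE_l3795 _)
                   (CovZ.leaf K2_ok TE_l3796 _))
                  (CovZ.leaf K2_ok TE_l3797 _)))))))))

theorem TE_u61 : CovZ TE_M (toL (selN TE_LN 1817346016444113885856116912455089456329613227224654286540630)) [0, 7, 6, 1] (2560, 28160) (1920, 27520) (2560, 26880) :=
    (CovZ.n2 (2560, 27520) (by decide +kernel)
       (CovZ.subM 1817343713671436484431903743833946231003854934228590949614336 (by decide +kernel)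
        (CovZ.n2 (2240, 27200) (by decide +kernel)
         (CovZ.n2 (2240, 27520) (by decide +kernel)
          (CovZ.n2 (2400, 27360) (by decide +kernel)
           TE_u53
           TE_u54)
          (CovZ.subM 1606938140039961579660016072044850747156652470424039510786048 (by decide +kernel)
           (CovZ.n1 (2080, 27360) (by decide +kernel)
            (CovZ.badM (by decide +kernel))
            (CovZ.n1 (2240, 27360) (by decide +kernel)
             (CovZ.n2 (2160, 27280) (by decide +kernel)
              (CovZ.subM 95780971304118053647396689196894323976171195136475136 (by decide +kernel)
               (CovZ.n2 (2160, 27360) (by decide +kernel)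
                (CovZ.badM (by decide +kernel))
                (CovZ.n1 (2120, 27320) (by decide +kernel)
                 (CovZ.n2 (2120, 27360) (by decide +kernel)
                  (CovZ.badM (by decide +kernel))
                  (CovZ.n1 (2100, 27340) (by decide +kernel)
                   (CovZ.badM (by decide +kernel))
                   (CovZ.badM (by decide +kernel))))
                 (CovZ.badM (by decide +kernel)))))
              (CovZ.subM 1511157274518286468399104 (by decide +kernel)
               (CovZ.n1 (2240, 27280) (by decide +kernel)
                (CovZ.badM (by decide +kernel))
                (CovZ.n1 (2200, 27320) (by decide +kernel)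
                 (CovZ.n2 (2240, 27320) (by decide +kernel)
                  (CovZ.badM (by decide +kernel))
                  (CovZ.badM (by decide +kernel)))
                 (CovZ.badM (by decide +kernel))))))
             (CovZ.subM 95780971304118053647396689196894323976171195136475136 (by decide +kernel)
              (CovZ.n1 (2160, 27440) (by decide +kernel)
               (CovZ.n2 (2240, 27440) (by decide +kernel)
                (CovZ.n2 (2200, 27400) (by decide +kernel)
                 (CovZ.n2 (2200, 27440) (by decide +kernel)
                  (CovZ.badM (by decide +kernel))
                  (CovZ.n1 (2180, 27420) (by decide +kernel)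
                   (CovZ.badM (by decide +kernel))
                   (CovZ.badM (by decide +kernel))))
                 (CovZ.badM (by decide +kernel)))
                (CovZ.n1 (2200, 27480) (by decide +kernel)
                 (CovZ.n2 (2240, 27480) (by decide +kernel)
                  (CovZ.n2 (2220, 27460) (by decide +kernel)
                   (CovZ.badM (by decide +kernel))
                   (CovZ.badM (by decide +kernel)))
                  (CovZ.badM (by decide +kernel)))
                 (CovZ.n1 (2200, 27440) (by decide +kernel)
                  (CovZ.badM (by decide +kernel))
                  (CovZ.n1 (2220, 27460) (by decide +kernel)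
                   (CovZ.badM (by decide +kernel))
                   (CovZ.badM (by decide +kernel))))))
               (CovZ.n1 (2160, 27360) (by decide +kernel)
                (CovZ.n2 (2120, 27400) (by decide +kernel)
                 (CovZ.n2 (2160, 27400) (by decide +kernel)
                  (CovZ.n2 (2140, 27380) (by decide +kernel)
                   (CovZ.badM (by decide +kernel))
                   (CovZ.badM (by decide +kernel)))
                  (CovZ.badM (by decide +kernel)))
                 (CovZ.n1 (2120, 27360) (by decide +kernel)
                  (CovZ.badM (by decide +kernel))
                  (CovZ.n1 (2140, 27380) (by decide +kernel)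
                   (CovZ.badM (by decide +kernel))
                   (CovZ.badM (by decide +kernel)))))
                (CovZ.n1 (2200, 27400) (by decide +kernel)
                 (CovZ.badM (by decide +kernel))
                 (CovZ.n1 (2160, 27400) (by decide +kernel)
                  (CovZ.n2 (2180, 27420) (by decide +kernel)
                   (CovZ.badM (by decide +kernel))
                   (CovZ.badM (by decide +kernel)))
                  (CovZ.badM (by decide +kernel)))))))))))
         (CovZ.n1 (2560, 27200) (by decide +kernel)
          (CovZ.n2 (2400, 27040) (by decide +kernel)
           (CovZ.subM 200867261521653166197315815868311303733355135101452035867392 (by decide +kernel)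
            (CovZ.n2 (2400, 27200) (by decide +kernel)
             (CovZ.n2 (2480, 27120) (by decide +kernel)
              (CovZ.n2 (2400, 27120) (by decide +kernel)
               (CovZ.n2 (2440, 27160) (by decide +kernel)
                (CovZ.leaf K2_ok TE_l3481 _)
                (CovZ.leaf K2_ok TE_l3482 _))
               (CovZ.n1 (2440, 27080) (by decide +kernel)
                (CovZ.leaf K2_ok TE_l3483 _)
                (CovZ.leaf K2_ok TE_l3484 _)))
              (CovZ.n1 (2480, 27200) (by decide +kernel)
               (CovZ.leaf K2_ok TE_l3485 _)
               (CovZ.n1 (2440, 27160) (by decide +kernel)
                (CovZ.leaf K2_ok TE_l3486 _)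
                (CovZ.leaf K2_ok TE_l3487 _))))
             (CovZ.n1 (2320, 27120) (by decide +kernel)
              (CovZ.n2 (2320, 27200) (by decide +kernel)
               (CovZ.n2 (2360, 27160) (by decide +kernel)
                (CovZ.n2 (2320, 27160) (by decide +kernel)
                 (CovZ.leaf K2_ok TE_l3488 _)
                 (CovZ.leaf K2_ok TE_l3489 _))
                (CovZ.n1 (2360, 27200) (by decide +kernel)
                 (CovZ.leaf K2_ok TE_l3490 _)
                 (CovZ.leaf K2_ok TE_l3491 _)))
               (CovZ.subM 200867255532373784442745593860439128105183094013207813604096 (by decide +kernel)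
                (CovZ.n1 (2280, 27160) (by decide +kernel)
                 (CovZ.n2 (2280, 27200) (by decide +kernel)
                  (CovZ.n2 (2300, 27180) (by decide +kernel)
                   (CovZ.n2 (2280, 27180) (by decide +kernel)
                    (CovZ.leaf K2_ok TE_l3492 _)
                    (CovZ.leaf K2_ok TE_l3493 _))
                   (CovZ.leaf K2_ok TE_l3494 _))
                  (CovZ.subM 19807116186430091804866019584 (by decide +kernel)
                   (CovZ.n1 (2260, 27180) (by decide +kernel)
                    (CovZ.n2 (2260, 27200) (by decide +kernel)
                     (CovZ.leaf K2_ok TE_l3495 _)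
                     (CovZ.n1 (2250, 27190) (by decide +kernel)
                      (CovZ.leaf K2_ok TE_l17211 _)
                      (CovZ.leaf K2_ok TE_l17212 _)))
                    (CovZ.leaf K2_ok TE_l3496 _))))
                 (CovZ.n1 (2320, 27160) (by decide +kernel)
                  (CovZ.n2 (2300, 27140) (by decide +kernel)
                   (CovZ.leaf K2_ok TE_l3497 _)
                   (CovZ.leaf K2_ok TE_l3498 _))
                  (CovZ.leaf K2_ok TE_l3499 _)))))
              (CovZ.n1 (2400, 27120) (by decide +kernel)
               (CovZ.n2 (2360, 27080) (by decide +kernel)
                (CovZ.n2 (2360, 27120) (by decide +kernel)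
                 (CovZ.leaf K2_ok TE_l3500 _)
                 (CovZ.n1 (2340, 27100) (by decide +kernel)
                  (CovZ.leaf K2_ok TE_l3501 _)
                  (CovZ.leaf K2_ok TE_l3502 _)))
                (CovZ.leaf K2_ok TE_l3503 _))
               (CovZ.n1 (2360, 27160) (by decide +kernel)
                (CovZ.leaf K2_ok TE_l3504 _)
                (CovZ.n1 (2360, 27120) (by decide +kernel)
                 (CovZ.leaf K2_ok TE_l3505 _)
                 (CovZ.leaf K2_ok TE_l3506 _)))))))
           (CovZ.n1 (2560, 27040) (by decide +kernel)
            (CovZ.subM 200867261521653166197485957051751965546671243533915089584896 (by decide +kernel)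
             (CovZ.n2 (2480, 26960) (by decide +kernel)
              (CovZ.n2 (2480, 27040) (by decide +kernel)
               (CovZ.leaf K2_ok TE_l3507 _)
               (CovZ.n1 (2440, 27000) (by decide +kernel)
                (CovZ.leaf K2_ok TE_l3508 _)
                (CovZ.leaf K2_ok TE_l3509 _)))
              (CovZ.leaf K2_ok TE_l3510 _)))
            (CovZ.n1 (2480, 27120) (by decide +kernel)
             (CovZ.leaf K2_ok TE_l3511 _)
             (CovZ.n1 (2480, 27040) (by decide +kernel)
              (CovZ.leaf K2_ok TE_l3512 _)
              (CovZ.leaf K2_ok TE_l3513 _)))))
          (CovZ.n1 (2400, 27360) (by decide +kernel)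
           (CovZ.n2 (2560, 27360) (by decide +kernel)
            (CovZ.n2 (2480, 27280) (by decide +kernel)
             (CovZ.n2 (2480, 27360) (by decide +kernel)
              (CovZ.leaf K2_ok TE_l3514 _)
              (CovZ.n1 (2440, 27320) (by decide +kernel)
               (CovZ.leaf K2_ok TE_l3515 _)
               (CovZ.leaf K2_ok TE_l3516 _)))
             (CovZ.leaf K2_ok TE_l3517 _))
            (CovZ.n1 (2480, 27440) (by decide +kernel)
             (CovZ.n2 (2560, 27440) (by decide +kernel)
              (CovZ.n2 (2520, 27400) (by decide +kernel)
               (CovZ.leaf K2_ok TE_l3518 _)
               (CovZ.leaf K2_ok TE_l3519 _))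
              (CovZ.leaf K2_ok TE_l3520 _))
             (CovZ.n1 (2480, 27360) (by decide +kernel)
              (CovZ.leaf K2_ok TE_l3521 _)
              (CovZ.n1 (2520, 27400) (by decide +kernel)
               (CovZ.leaf K2_ok TE_l3522 _)
               (CovZ.leaf K2_ok TE_l3523 _)))))
           (CovZ.n1 (2400, 27200) (by decide +kernel)
            (CovZ.subM 200867261521607494268426966216749932045735748660883358270208 (by decide +kernel)
             (CovZ.n2 (2320, 27280) (by decide +kernel)
              (CovZ.n2 (2400, 27280) (by decide +kernel)
               (CovZ.n2 (2360, 27240) (by decide +kernel)
                (CovZ.n2 (2360, 27280) (by decide +kernel)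
                 (CovZ.leaf K2_ok TE_l3524 _)
                 (CovZ.leaf K2_ok TE_l3525 _))
                (CovZ.leaf K2_ok TE_l3526 _))
               (CovZ.n1 (2360, 27320) (by decide +kernel)
                (CovZ.leaf K2_ok TE_l3527 _)
                (CovZ.n1 (2360, 27280) (by decide +kernel)
                 (CovZ.leaf K2_ok TE_l3528 _)
                 (CovZ.leaf K2_ok TE_l3529 _))))
              (CovZ.n1 (2320, 27200) (by decide +kernel)
               (CovZ.n2 (2280, 27240) (by decide +kernel)
                (CovZ.n2 (2320, 27240) (by decide +kernel)
                 (CovZ.n2 (2300, 27220) (by decide +kernel)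
                  (CovZ.leaf K2_ok TE_l3530 _)
                  (CovZ.leaf K2_ok TE_l3531 _))
                 (CovZ.leaf K2_ok TE_l3532 _))
                (CovZ.n1 (2280, 27200) (by decide +kernel)
                 (CovZ.subM 19807040628566365890542600448 (by decide +kernel)
                  (CovZ.n2 (2260, 27220) (by decide +kernel)
                   (CovZ.leaf K2_ok TE_l3533 _)
                   (CovZ.n1 (2260, 27200) (by decide +kernel)
                    (CovZ.leaf K2_ok TE_l17213 _)
                    (CovZ.n1 (2270, 27210) (by decide +kernel)
                     (CovZ.leaf K2_ok TE_l3534 _)
                     (CovZ.leaf K2_ok TE_l3535 _)))))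
                 (CovZ.n1 (2300, 27220) (by decide +kernel)
                  (CovZ.leaf K2_ok TE_l3536 _)
                  (CovZ.leaf K2_ok TE_l3537 _))))
               (CovZ.n1 (2360, 27240) (by decide +kernel)
                (CovZ.leaf K2_ok TE_l3538 _)
                (CovZ.n1 (2320, 27240) (by decide +kernel)
                 (CovZ.leaf K2_ok TE_l3539 _)
                 (CovZ.leaf K2_ok TE_l3540 _))))))
            (CovZ.n1 (2480, 27280) (by decide +kernel)
             (CovZ.n2 (2480, 27200) (by decide +kernel)
              (CovZ.leaf K2_ok TE_l3541 _)
              (CovZ.leaf K2_ok TE_l3542 _))
             (CovZ.subM 200867261521653166197315815868311304904465129364701751853824 (by decide +kernel)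
              (CovZ.n1 (2400, 27280) (by decide +kernel)
               (CovZ.n2 (2440, 27320) (by decide +kernel)
                (CovZ.leaf K2_ok TE_l3543 _)
                (CovZ.leaf K2_ok TE_l3544 _))
               (CovZ.n1 (2440, 27240) (by decide +kernel)
                (CovZ.leaf K2_ok TE_l3545 _)
                (CovZ.leaf K2_ok TE_l3546 _))))))))))
       (CovZ.n1 (2240, 27840) (by decide +kernel)
        (CovZ.subM 1817343708621582946697615459730755212598528211325596578400000 (by decide +kernel)
         (CovZ.n2 (2560, 27840) (by decide +kernel)
          TE_u55
          TE_u56))
        (CovZ.subM 1817343713671436484780183416183821499313564798678792876902144 (by decide +kernel)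
         (CovZ.n1 (2240, 27520) (by decide +kernel)
          (CovZ.subM 348449813533335737579259682948306501108736 (by decide +kernel)
           (CovZ.n2 (2080, 27680) (by decide +kernel)
            (CovZ.n2 (2240, 27680) (by decide +kernel)
             (CovZ.n2 (2160, 27600) (by decide +kernel)
              (CovZ.badM (by decide +kernel))
              (CovZ.badM (by decide +kernel)))
             (CovZ.badM (by decide +kernel)))
            (CovZ.n1 (2080, 27520) (by decide +kernel)
             (CovZ.badM (by decide +kernel))
             (CovZ.n1 (2160, 27600) (by decide +kernel)
              (CovZ.badM (by decide +kernel))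
              (CovZ.badM (by decide +kernel))))))
          (CovZ.n1 (2400, 27680) (by decide +kernel)
           TE_u57
           TE_u58)))))

theorem TE_u62 : CovZ TE_M (toL (selN TE_LN 1817346016444113885856116912455089456329613227224654286540630)) [0, 7, 6, 1] (1920, 27520) (1280, 26880) (2560, 26880) :=
    (CovZ.subM 1810944000319793743917188857798107913952996601537980589982528 (by decide +kernel)
       (CovZ.n1 (1920, 26880) (by decide +kernel)
        (CovZ.subM 1606938140039961579660015739737851799416526969953987971776512 (by decide +kernel)
         (CovZ.n2 (1600, 27200) (by decide +kernel)
          (CovZ.n2 (1920, 27200) (by decide +kernel)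
           (CovZ.n2 (1760, 27040) (by decide +kernel)
            (CovZ.badM (by decide +kernel))
            (CovZ.badM (by decide +kernel)))
           (CovZ.badM (by decide +kernel)))
          (CovZ.n1 (1600, 26880) (by decide +kernel)
           (CovZ.badM (by decide +kernel))
           (CovZ.n1 (1760, 27040) (by decide +kernel)
            (CovZ.badM (by decide +kernel))
            (CovZ.badM (by decide +kernel))))))
        (CovZ.n1 (2240, 27200) (by decide +kernel)
         (CovZ.n2 (2240, 26880) (by decide +kernel)
          TE_u59
          TE_u60)
         (CovZ.subM 1606938140039961579660015739737851800927684244472274440159232 (by decide +kernel)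
          (CovZ.n1 (1920, 27200) (by decide +kernel)
           (CovZ.n2 (2080, 27360) (by decide +kernel)
            (CovZ.n2 (2080, 27200) (by decide +kernel)
             (CovZ.n2 (2000, 27280) (by decide +kernel)
              (CovZ.n2 (2080, 27280) (by decide +kernel)
               (CovZ.badM (by decide +kernel))
               (CovZ.n1 (2040, 27320) (by decide +kernel)
                (CovZ.n2 (2080, 27320) (by decide +kernel)
                 (CovZ.badM (by decide +kernel))
                 (CovZ.badM (by decide +kernel)))
                (CovZ.badM (by decide +kernel))))
              (CovZ.badM (by decide +kernel)))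
             (CovZ.n1 (2160, 27280) (by decide +kernel)
              (CovZ.badM (by decide +kernel))
              (CovZ.n1 (2080, 27280) (by decide +kernel)
               (CovZ.n2 (2120, 27320) (by decide +kernel)
                (CovZ.badM (by decide +kernel))
                (CovZ.n1 (2080, 27320) (by decide +kernel)
                 (CovZ.n2 (2100, 27340) (by decide +kernel)
                  (CovZ.badM (by decide +kernel))
                  (CovZ.badM (by decide +kernel)))
                 (CovZ.badM (by decide +kernel))))
               (CovZ.badM (by decide +kernel)))))
            (CovZ.badM (by decide +kernel)))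
           (CovZ.badM (by decide +kernel)))))))

end Pool.Agent.TET
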