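import Pool.Agent.Helper38_TET.TE_M
import Pool.Agent.Helper38_TET.TE_L
import Pool.Agent.Helper38_TET.TE_25
import Pool.Agent.Helper38_TET.TE_26
import Pool.Agent.Helper38_TET.TE_27
import Pool.Agent.Helper38_TET.TE_28
import Pool.Agent.Helper38_TET.TE_29
import Pool.Agent.Helper38_TET.TE_30
import Pool.Agent.Helper38_TET.TE_31
import Pool.Agent.Helper38_TET.TE_32
import Pool.Agent.Helper38_TET.TE_116
import Pool.Agent.Helper38_TET.TE_132

/-!
# MP_c7c9bf_co: certificates, family TE
-/

set_option autoImplicit false
set_option maxRecDepth 100000

namespace Pool.Agent.TET

theorem TE_u63 : CovZ TE_M (toL (selN TE_LN 25171239265303065691886526868130565166962616814519069966336)) [0, 7, 6, 1] (640, 27520) (320, 27840) (0, 27520) :=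
    (CovZ.subM 12259970173736487017656705407120505463806316129986543616 (by decide +kernel)
          (CovZ.n2 (320, 27520) (by decide +kernel)
           (CovZ.n2 (160, 27680) (by decide +kernel)
            (CovZ.n2 (320, 27680) (by decide +kernel)
             (CovZ.subM 713623846373749286419607342214288822895640576 (by decide +kernel)
              (CovZ.n2 (240, 27600) (by decide +kernel)
               (CovZ.n2 (240, 27680) (by decide +kernel)
                (CovZ.n2 (280, 27640) (by decide +kernel)
                 (CovZ.n2 (240, 27640) (by decide +kernel)
                  (CovZ.leaf K2_ok TE_l3798 _)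
                  (CovZ.leaf K2_ok TE_l3799 _))
                 (CovZ.n1 (280, 27680) (by decide +kernel)
                  (CovZ.leaf K2_ok TE_l3800 _)
                  (CovZ.leaf K2_ok TE_l3801 _)))
                (CovZ.n1 (200, 27640) (by decide +kernel)
                 (CovZ.leaf K2_ok TE_l3802 _)
                 (CovZ.n1 (240, 27640) (by decide +kernel)
                  (CovZ.leaf K2_ok TE_l3803 _)
                  (CovZ.leaf K2_ok TE_l3804 _))))
               (CovZ.n1 (320, 27600) (by decide +kernel)
                (CovZ.n2 (280, 27560) (by decide +kernel)
                 (CovZ.n2 (280, 27600) (by decide +kernel)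
                  (CovZ.leaf K2_ok TE_l3805 _)
                  (CovZ.n1 (260, 27580) (by decide +kernel)
                   (CovZ.leaf K2_ok TE_l3806 _)
                   (CovZ.leaf K2_ok TE_l3807 _)))
                 (CovZ.n1 (320, 27560) (by decide +kernel)
                  (CovZ.n2 (300, 27540) (by decide +kernel)
                   (CovZ.leaf K2_ok TE_l3808 _)
                   (CovZ.leaf K2_ok TE_l3809 _))
                  (CovZ.leaf K2_ok TE_l3810 _)))
                (CovZ.n1 (280, 27640) (by decide +kernel)
                 (CovZ.n2 (320, 27640) (by decide +kernel)
                  (CovZ.n2 (300, 27620) (by decide +kernel)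
                   (CovZ.leaf K2_ok TE_l3811 _)
                   (CovZ.leaf K2_ok TE_l3812 _))
                  (CovZ.leaf K2_ok TE_l3813 _))
                 (CovZ.n1 (280, 27600) (by decide +kernel)
                  (CovZ.leaf K2_ok TE_l3814 _)
                  (CovZ.leaf K2_ok TE_l3815 _))))))
             (CovZ.n1 (240, 27760) (by decide +kernel)
              (CovZ.n2 (320, 27760) (by decide +kernel)
               (CovZ.n2 (280, 27720) (by decide +kernel)
                (CovZ.leaf K2_ok TE_l3816 _)
                (CovZ.leaf K2_ok TE_l3817 _))
               (CovZ.n1 (280, 27800) (by decide +kernel)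
                (CovZ.leaf K2_ok TE_l3818 _)
                (CovZ.leaf K2_ok TE_l3819 _)))
              (CovZ.n1 (240, 27680) (by decide +kernel)
               (CovZ.n2 (200, 27720) (by decide +kernel)
                (CovZ.leaf K2_ok TE_l3820 _)
                (CovZ.leaf K2_ok TE_l3821 _))
               (CovZ.n1 (280, 27720) (by decide +kernel)
                (CovZ.leaf K2_ok TE_l3822 _)
                (CovZ.leaf K2_ok TE_l3823 _)))))
            (CovZ.subM 5846720173169985422101158938207346367446625812480 (by decide +kernel)
             (CovZ.n1 (160, 27520) (by decide +kernel)
              (CovZ.n2 (80, 27600) (by decide +kernel)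
               (CovZ.n2 (160, 27600) (by decide +kernel)
                (CovZ.n2 (120, 27560) (by decide +kernel)
                 (CovZ.n2 (120, 27600) (by decide +kernel)
                  (CovZ.leaf K2_ok TE_l3824 _)
                  (CovZ.leaf K2_ok TE_l3825 _))
                 (CovZ.n1 (160, 27560) (by decide +kernel)
                  (CovZ.n2 (140, 27540) (by decide +kernel)
                   (CovZ.leaf K2_ok TE_l17288 _)
                   (CovZ.leaf K2_ok TE_l17289 _))
                  (CovZ.leaf K2_ok TE_l3826 _)))
                (CovZ.n1 (120, 27640) (by decide +kernel)
                 (CovZ.leaf K2_ok TE_l3827 _)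
                 (CovZ.n1 (120, 27600) (by decide +kernel)
                  (CovZ.leaf K2_ok TE_l3828 _)
                  (CovZ.leaf K2_ok TE_l3829 _))))
               (CovZ.n1 (80, 27520) (by decide +kernel)
                (CovZ.n2 (40, 27560) (by decide +kernel)
                 (CovZ.n2 (80, 27560) (by decide +kernel)
                  (CovZ.n2 (60, 27540) (by decide +kernel)
                   (CovZ.leaf K2_ok TE_l3830 _)
                   (CovZ.leaf K2_ok TE_l3831 _))
                  (CovZ.leaf K2_ok TE_l3832 _))
                 (CovZ.n1 (40, 27520) (by decide +kernel)
                  (CovZ.leaf K2_ok TE_l3833 _)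
                  (CovZ.leaf K2_ok TE_l3834 _)))
                (CovZ.n1 (120, 27560) (by decide +kernel)
                 (CovZ.n2 (120, 27520) (by decide +kernel)
                  (CovZ.leaf K2_ok TE_l17290 _)
                  (CovZ.n1 (140, 27540) (by decide +kernel)
                   (CovZ.leaf K2_ok TE_l17291 _)
                   (CovZ.leaf K2_ok TE_l17292 _)))
                 (CovZ.n1 (80, 27560) (by decide +kernel)
                  (CovZ.leaf K2_ok TE_l3835 _)
                  (CovZ.leaf K2_ok TE_l3836 _)))))
              (CovZ.n1 (240, 27600) (by decide +kernel)
               (CovZ.subM 20769187434139328960866059026432000 (by decide +kernel)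
                (CovZ.n2 (240, 27520) (by decide +kernel)
                 (CovZ.n2 (200, 27560) (by decide +kernel)
                  (CovZ.n2 (240, 27560) (by decide +kernel)
                   (CovZ.n2 (220, 27540) (by decide +kernel)
                    (CovZ.leaf K2_ok TE_l3837 _)
                    (CovZ.leaf K2_ok TE_l3838 _))
                   (CovZ.leaf K2_ok TE_l3839 _))
                  (CovZ.n1 (200, 27520) (by decide +kernel)
                   (CovZ.leaf K2_ok TE_l3840 _)
                   (CovZ.n1 (220, 27540) (by decide +kernel)
                    (CovZ.leaf K2_ok TE_l3841 _)
                    (CovZ.leaf K2_ok TE_l3842 _))))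
                 (CovZ.n1 (280, 27560) (by decide +kernel)
                  (CovZ.n2 (280, 27520) (by decide +kernel)
                   (CovZ.leaf K2_ok TE_l3843 _)
                   (CovZ.n1 (300, 27540) (by decide +kernel)
                    (CovZ.leaf K2_ok TE_l3844 _)
                    (CovZ.leaf K2_ok TE_l3845 _)))
                  (CovZ.n1 (240, 27560) (by decide +kernel)
                   (CovZ.n2 (260, 27580) (by decide +kernel)
                    (CovZ.leaf K2_ok TE_l3846 _)
                    (CovZ.leaf K2_ok TE_l3847 _))
                   (CovZ.leaf K2_ok TE_l3848 _)))))
               (CovZ.n1 (160, 27600) (by decide +kernel)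
                (CovZ.n2 (200, 27640) (by decide +kernel)
                 (CovZ.n2 (200, 27600) (by decide +kernel)
                  (CovZ.leaf K2_ok TE_l3849 _)
                  (CovZ.leaf K2_ok TE_l3850 _))
                 (CovZ.n1 (160, 27640) (by decide +kernel)
                  (CovZ.leaf K2_ok TE_l3851 _)
                  (CovZ.leaf K2_ok TE_l3852 _)))
                (CovZ.n1 (200, 27560) (by decide +kernel)
                 (CovZ.n2 (160, 27560) (by decide +kernel)
                  (CovZ.leaf K2_ok TE_l3853 _)
                  (CovZ.leaf K2_ok TE_l3854 _))
                 (CovZ.n1 (200, 27600) (by decide +kernel)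
                  (CovZ.leaf K2_ok TE_l3855 _)
                  (CovZ.n1 (180, 27580) (by decide +kernel)
                   (CovZ.leaf K2_ok TE_l3856 _)
                   (CovZ.leaf K2_ok TE_l3857 _)))))))))
           (CovZ.n1 (480, 27680) (by decide +kernel)
            (CovZ.subM 8589934592 (by decide +kernel)
             (CovZ.n2 (480, 27520) (by decide +kernel)
              (CovZ.n2 (400, 27600) (by decide +kernel)
               (CovZ.n2 (480, 27600) (by decide +kernel)
                (CovZ.badM (by decide +kernel))
                (CovZ.n1 (440, 27640) (by decide +kernel)
                 (CovZ.n2 (480, 27640) (by decide +kernel)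
                  (CovZ.badM (by decide +kernel))
                  (CovZ.leaf K2_ok TE_l3864 _))
                 (CovZ.badM (by decide +kernel))))
               (CovZ.badM (by decide +kernel)))
              (CovZ.n1 (560, 27600) (by decide +kernel)
               (CovZ.badM (by decide +kernel))
               (CovZ.n1 (480, 27600) (by decide +kernel)
                (CovZ.n2 (520, 27640) (by decide +kernel)
                 (CovZ.badM (by decide +kernel))
                 (CovZ.n1 (480, 27640) (by decide +kernel)
                  (CovZ.n2 (500, 27660) (by decide +kernel)
                   (CovZ.badM (by decide +kernel))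
                   (CovZ.leaf K2_ok TE_l3876 _))
                  (CovZ.badM (by decide +kernel))))
                (CovZ.badM (by decide +kernel))))))
            (CovZ.n1 (320, 27680) (by decide +kernel)
             (CovZ.n2 (400, 27760) (by decide +kernel)
              (CovZ.subM 713623846373749286419608522805909540306944000 (by decide +kernel)
               (CovZ.n2 (400, 27680) (by decide +kernel)
                (CovZ.n2 (360, 27720) (by decide +kernel)
                 (CovZ.leaf K2_ok TE_l3878 _)
                 (CovZ.leaf K2_ok TE_l3879 _))
                (CovZ.n1 (440, 27720) (by decide +kernel)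
                 (CovZ.n2 (440, 27680) (by decide +kernel)
                  (CovZ.leaf K2_ok TE_l3880 _)
                  (CovZ.leaf K2_ok TE_l3881 _))
                 (CovZ.leaf K2_ok TE_l3882 _))))
              (CovZ.n1 (320, 27760) (by decide +kernel)
               (CovZ.n2 (360, 27800) (by decide +kernel)
                (CovZ.leaf K2_ok TE_l3883 _)
                (CovZ.leaf K2_ok TE_l3884 _))
               (CovZ.n1 (360, 27720) (by decide +kernel)
                (CovZ.leaf K2_ok TE_l3885 _)
                (CovZ.leaf K2_ok TE_l3886 _))))
             (CovZ.subM 713623846373749127963282313685613635807739904 (by decide +kernel)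
              (CovZ.n1 (400, 27600) (by decide +kernel)
               (CovZ.n2 (320, 27600) (by decide +kernel)
                (CovZ.n2 (360, 27640) (by decide +kernel)
                 (CovZ.n2 (360, 27600) (by decide +kernel)
                  (CovZ.leaf K2_ok TE_l3887 _)
                  (CovZ.n1 (380, 27620) (by decide +kernel)
                   (CovZ.leaf K2_ok TE_l3888 _)
                   (CovZ.leaf K2_ok TE_l3889 _)))
                 (CovZ.n1 (320, 27640) (by decide +kernel)
                  (CovZ.leaf K2_ok TE_l3890 _)
                  (CovZ.leaf K2_ok TE_l3891 _)))
                (CovZ.n1 (360, 27560) (by decide +kernel)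
                 (CovZ.n2 (320, 27560) (by decide +kernel)
                  (CovZ.n2 (340, 27580) (by decide +kernel)
                   (CovZ.leaf K2_ok TE_l3892 _)
                   (CovZ.leaf K2_ok TE_l3893 _))
                  (CovZ.leaf K2_ok TE_l3894 _))
                 (CovZ.n1 (360, 27600) (by decide +kernel)
                  (CovZ.leaf K2_ok TE_l3895 _)
                  (CovZ.n1 (340, 27580) (by decide +kernel)
                   (CovZ.leaf K2_ok TE_l3896 _)
                   (CovZ.leaf K2_ok TE_l3897 _)))))
               (CovZ.n1 (400, 27680) (by decide +kernel)
                (CovZ.n2 (440, 27640) (by decide +kernel)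
                 (CovZ.n2 (400, 27640) (by decide +kernel)
                  (CovZ.leaf K2_ok TE_l3898 _)
                  (CovZ.leaf K2_ok TE_l3899 _))
                 (CovZ.n1 (440, 27680) (by decide +kernel)
                  (CovZ.leaf K2_ok TE_l3900 _)
                  (CovZ.n1 (420, 27660) (by decide +kernel)
                   (CovZ.leaf K2_ok TE_l3901 _)
                   (CovZ.leaf K2_ok TE_l3902 _))))
                (CovZ.n1 (360, 27640) (by decide +kernel)
                 (CovZ.n2 (360, 27680) (by decide +kernel)
                  (CovZ.leaf K2_ok TE_l3903 _)
                  (CovZ.leaf K2_ok TE_l3904 _))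
                 (CovZ.n1 (400, 27640) (by decide +kernel)
                  (CovZ.n2 (380, 27620) (by decide +kernel)
                   (CovZ.leaf K2_ok TE_l3905 _)
                   (CovZ.leaf K2_ok TE_l3906 _))
                  (CovZ.leaf K2_ok TE_l3907 _))))))))))

theorem TE_u64 : CovZ TE_M (toL (selN TE_LN 25171239265303065691886526868130565166962616814519069966336)) [0, 7, 6, 1] (320, 27840) (0, 28160) (0, 27520) :=
    (CovZ.n1 (0, 27840) (by decide +kernel)
          (CovZ.n2 (160, 28000) (by decide +kernel)
           (CovZ.n2 (160, 27840) (by decide +kernel)
            (CovZ.n2 (80, 27920) (by decide +kernel)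
             (CovZ.n2 (160, 27920) (by decide +kernel)
              (CovZ.n2 (120, 27880) (by decide +kernel)
               (CovZ.leaf K2_ok TE_l3908 _)
               (CovZ.leaf K2_ok TE_l3909 _))
              (CovZ.leaf K2_ok TE_l3910 _))
             (CovZ.n1 (80, 27840) (by decide +kernel)
              (CovZ.leaf K2_ok TE_l3911 _)
              (CovZ.n1 (120, 27880) (by decide +kernel)
               (CovZ.leaf K2_ok TE_l3912 _)
               (CovZ.leaf K2_ok TE_l3913 _))))
            (CovZ.n1 (240, 27920) (by decide +kernel)
             (CovZ.n2 (240, 27840) (by decide +kernel)
              (CovZ.leaf K2_ok TE_l3914 _)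
              (CovZ.n1 (280, 27880) (by decide +kernel)
               (CovZ.leaf K2_ok TE_l3915 _)
               (CovZ.leaf K2_ok TE_l3916 _)))
             (CovZ.n1 (160, 27920) (by decide +kernel)
              (CovZ.leaf K2_ok TE_l3917 _)
              (CovZ.leaf K2_ok TE_l3918 _))))
           (CovZ.n1 (0, 28000) (by decide +kernel)
            (CovZ.n2 (80, 28080) (by decide +kernel)
             (CovZ.n2 (80, 28000) (by decide +kernel)
              (CovZ.leaf K2_ok TE_l3919 _)
              (CovZ.leaf K2_ok TE_l3920 _))
             (CovZ.n1 (0, 28080) (by decide +kernel)
              (CovZ.leaf K2_ok TE_l3921 _)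
              (CovZ.leaf K2_ok TE_l3922 _)))
            (CovZ.n1 (80, 27920) (by decide +kernel)
             (CovZ.n2 (0, 27920) (by decide +kernel)
              (CovZ.leaf K2_ok TE_l3923 _)
              (CovZ.leaf K2_ok TE_l3924 _))
             (CovZ.n1 (80, 28000) (by decide +kernel)
              (CovZ.leaf K2_ok TE_l3925 _)
              (CovZ.leaf K2_ok TE_l3926 _)))))
          (CovZ.subM 12259970173736487017656705407120505463806316130053652480 (by decide +kernel)
           (CovZ.n1 (160, 27680) (by decide +kernel)
            (CovZ.n2 (0, 27680) (by decide +kernel)
             (CovZ.n2 (80, 27760) (by decide +kernel)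
              (CovZ.subM 802826827167871778985751395896502986330865664 (by decide +kernel)
               (CovZ.n2 (80, 27680) (by decide +kernel)
                (CovZ.n2 (40, 27720) (by decide +kernel)
                 (CovZ.leaf K2_ok TE_l3927 _)
                 (CovZ.leaf K2_ok TE_l3928 _))
                (CovZ.n1 (120, 27720) (by decide +kernel)
                 (CovZ.leaf K2_ok TE_l3929 _)
                 (CovZ.leaf K2_ok TE_l3930 _))))
              (CovZ.n1 (0, 27760) (by decide +kernel)
               (CovZ.n2 (40, 27800) (by decide +kernel)
                (CovZ.leaf K2_ok TE_l3931 _)
                (CovZ.leaf K2_ok TE_l3932 _))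
               (CovZ.n1 (40, 27720) (by decide +kernel)
                (CovZ.leaf K2_ok TE_l3933 _)
                (CovZ.leaf K2_ok TE_l3934 _))))
             (CovZ.n1 (80, 27600) (by decide +kernel)
              (CovZ.n2 (0, 27600) (by decide +kernel)
               (CovZ.n2 (40, 27640) (by decide +kernel)
                (CovZ.leaf K2_ok TE_l3935 _)
                (CovZ.leaf K2_ok TE_l3936 _))
               (CovZ.subM 5846720173169985421942702613178817692259537911808 (by decide +kernel)
                (CovZ.n1 (40, 27560) (by decide +kernel)
                 (CovZ.n2 (0, 27560) (by decide +kernel)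
                  (CovZ.leaf K2_ok TE_l3937 _)
                  (CovZ.leaf K2_ok TE_l3938 _))
                 (CovZ.n1 (40, 27600) (by decide +kernel)
                  (CovZ.leaf K2_ok TE_l3939 _)
                  (CovZ.leaf K2_ok TE_l3940 _)))))
              (CovZ.subM 802826827167871778985751395896502986330865664 (by decide +kernel)
               (CovZ.n1 (80, 27680) (by decide +kernel)
                (CovZ.n2 (120, 27640) (by decide +kernel)
                 (CovZ.leaf K2_ok TE_l3941 _)
                 (CovZ.leaf K2_ok TE_l3942 _))
                (CovZ.n1 (40, 27640) (by decide +kernel)
                 (CovZ.leaf K2_ok TE_l3943 _)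
                 (CovZ.leaf K2_ok TE_l3944 _))))))
            (CovZ.n1 (160, 27840) (by decide +kernel)
             (CovZ.n2 (240, 27760) (by decide +kernel)
              (CovZ.n2 (160, 27760) (by decide +kernel)
               (CovZ.n2 (200, 27800) (by decide +kernel)
                (CovZ.leaf K2_ok TE_l3945 _)
                (CovZ.leaf K2_ok TE_l3946 _))
               (CovZ.n1 (200, 27720) (by decide +kernel)
                (CovZ.leaf K2_ok TE_l3947 _)
                (CovZ.leaf K2_ok TE_l3948 _)))
              (CovZ.n1 (240, 27840) (by decide +kernel)
               (CovZ.n2 (280, 27800) (by decide +kernel)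
                (CovZ.leaf K2_ok TE_l3949 _)
                (CovZ.leaf K2_ok TE_l3950 _))
               (CovZ.n1 (200, 27800) (by decide +kernel)
                (CovZ.leaf K2_ok TE_l3951 _)
                (CovZ.leaf K2_ok TE_l3952 _))))
             (CovZ.n1 (80, 27760) (by decide +kernel)
              (CovZ.n2 (80, 27840) (by decide +kernel)
               (CovZ.leaf K2_ok TE_l3953 _)
               (CovZ.n1 (40, 27800) (by decide +kernel)
                (CovZ.leaf K2_ok TE_l3954 _)
                (CovZ.leaf K2_ok TE_l3955 _)))
              (CovZ.n1 (160, 27760) (by decide +kernel)
               (CovZ.n2 (120, 27720) (by decide +kernel)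
                (CovZ.leaf K2_ok TE_l3956 _)
                (CovZ.leaf K2_ok TE_l3957 _))
               (CovZ.leaf K2_ok TE_l3958 _)))))))

theorem TE_u65 : CovZ TE_M (toL (selN TE_LN 828836420946795353179175421398155666667322262778157748715520)) [0, 7, 6, 1] (1280, 28160) (1280, 27520) (1920, 27520) :=
    (CovZ.n2 (1600, 27840) (by decide +kernel)
         (CovZ.subM 196159464306873069811538456363752936668812898518708518912 (by decide +kernel)
          (CovZ.n2 (1600, 27520) (by decide +kernel)
           (CovZ.badM (by decide +kernel))
           (CovZ.n1 (1760, 27680) (by decide +kernel)
            (CovZ.badM (by decide +kernel))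
            (CovZ.n1 (1600, 27680) (by decide +kernel)
             (CovZ.n2 (1680, 27760) (by decide +kernel)
              (CovZ.badM (by decide +kernel))
              (CovZ.badM (by decide +kernel)))
             (CovZ.badM (by decide +kernel))))))
         (CovZ.n1 (1280, 27840) (by decide +kernel)
          (CovZ.n2 (1440, 28000) (by decide +kernel)
           (CovZ.n2 (1440, 27840) (by decide +kernel)
            (CovZ.subM 25158979295129507611511033526226184472019959221915876327424 (by decide +kernel)
             (CovZ.n2 (1360, 27920) (by decide +kernel)
              (CovZ.n2 (1440, 27920) (by decide +kernel)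
               (CovZ.subM 1532495541245001526743752375205692337210885922585837568 (by decide +kernel)
                (CovZ.n2 (1400, 27880) (by decide +kernel)
                 (CovZ.n2 (1400, 27920) (by decide +kernel)
                  (CovZ.n2 (1420, 27900) (by decide +kernel)
                   (CovZ.leaf K2_ok TE_l3968 _)
                   (CovZ.leaf K2_ok TE_l3969 _))
                  (CovZ.n1 (1380, 27900) (by decide +kernel)
                   (CovZ.leaf K2_ok TE_l3970 _)
                   (CovZ.leaf K2_ok TE_l3971 _)))
                 (CovZ.n1 (1440, 27880) (by decide +kernel)
                  (CovZ.badM (by decide +kernel))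
                  (CovZ.n1 (1420, 27900) (by decide +kernel)
                   (CovZ.leaf K2_ok TE_l3973 _)
                   (CovZ.leaf K2_ok TE_l3974 _)))))
               (CovZ.n1 (1400, 27960) (by decide +kernel)
                (CovZ.n2 (1440, 27960) (by decide +kernel)
                 (CovZ.n2 (1420, 27940) (by decide +kernel)
                  (CovZ.leaf K2_ok TE_l3975 _)
                  (CovZ.leaf K2_ok TE_l3976 _))
                 (CovZ.leaf K2_ok TE_l3977 _))
                (CovZ.n1 (1400, 27920) (by decide +kernel)
                 (CovZ.leaf K2_ok TE_l3978 _)
                 (CovZ.n1 (1420, 27940) (by decide +kernel)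
                  (CovZ.leaf K2_ok TE_l3979 _)
                  (CovZ.leaf K2_ok TE_l3980 _)))))
              (CovZ.subM 1532495541245001526743752375205692337210885922585837568 (by decide +kernel)
               (CovZ.n1 (1360, 27840) (by decide +kernel)
                (CovZ.n2 (1320, 27880) (by decide +kernel)
                 (CovZ.n2 (1360, 27880) (by decide +kernel)
                  (CovZ.n2 (1340, 27860) (by decide +kernel)
                   (CovZ.leaf K2_ok TE_l3981 _)
                   (CovZ.leaf K2_ok TE_l3982 _))
                  (CovZ.leaf K2_ok TE_l3983 _))
                 (CovZ.subM 158456325028537682386342641664 (by decide +kernel)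
                  (CovZ.n1 (1320, 27840) (by decide +kernel)
                   (CovZ.n2 (1300, 27860) (by decide +kernel)
                    (CovZ.leaf K2_ok TE_l3984 _)
                    (CovZ.leaf K2_ok TE_l3985 _))
                   (CovZ.n1 (1340, 27860) (by decide +kernel)
                    (CovZ.badM (by decide +kernel))
                    (CovZ.leaf K2_ok TE_l3986 _)))))
                (CovZ.n1 (1400, 27880) (by decide +kernel)
                 (CovZ.badM (by decide +kernel))
                 (CovZ.n1 (1360, 27880) (by decide +kernel)
                  (CovZ.n2 (1380, 27900) (by decide +kernel)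
                   (CovZ.leaf K2_ok TE_l3989 _)
                   (CovZ.leaf K2_ok TE_l3990 _))
                  (CovZ.n1 (1380, 27860) (by decide +kernel)
                   (CovZ.leaf K2_ok TE_l3991 _)
                   (CovZ.leaf K2_ok TE_l3992 _))))))))
            (CovZ.n1 (1520, 27920) (by decide +kernel)
             (CovZ.subM 803470554625036561178469378167941639247449030309224340520960 (by decide +kernel)
              (CovZ.n2 (1520, 27840) (by decide +kernel)
               (CovZ.n2 (1480, 27880) (by decide +kernel)
                (CovZ.n2 (1520, 27880) (by decide +kernel)
                 (CovZ.badM (by decide +kernel))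
                 (CovZ.n1 (1500, 27900) (by decide +kernel)
                  (CovZ.leaf K2_ok TE_l3993 _)
                  (CovZ.badM (by decide +kernel))))
                (CovZ.badM (by decide +kernel)))
               (CovZ.n1 (1560, 27880) (by decide +kernel)
                (CovZ.subM 803469022129495316176942634415566433556292411044027755921408 (by decide +kernel)
                 (CovZ.n2 (1560, 27840) (by decide +kernel)
                  (CovZ.n2 (1540, 27860) (by decide +kernel)
                   (CovZ.n2 (1560, 27860) (by decide +kernel)
                    (CovZ.n2 (1550, 27850) (by decide +kernel)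
                     (CovZ.leaf K2_ok TE_l3995 _)
                     (CovZ.leaf K2_ok TE_l3996 _))
                    (CovZ.n1 (1550, 27870) (by decide +kernel)
                     (CovZ.leaf K2_ok TE_l3997 _)
                     (CovZ.leaf K2_ok TE_l3998 _)))
                   (CovZ.n1 (1540, 27840) (by decide +kernel)
                    (CovZ.badM (by decide +kernel))
                    (CovZ.n1 (1550, 27850) (by decide +kernel)
                     (CovZ.leaf K2_ok TE_l3999 _)
                     (CovZ.leaf K2_ok TE_l4000 _))))
                  (CovZ.n1 (1580, 27860) (by decide +kernel)
                   (CovZ.n2 (1580, 27840) (by decide +kernel)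
                    (CovZ.n2 (1570, 27850) (by decide +kernel)
                     (CovZ.leaf K2_ok TE_l4001 _)
                     (CovZ.leaf K2_ok TE_l17338 _))
                    (CovZ.n1 (1590, 27850) (by decide +kernel)
                     (CovZ.badM (by decide +kernel))
                     (CovZ.leaf K2_ok TE_l4002 _)))
                   (CovZ.n1 (1560, 27860) (by decide +kernel)
                    (CovZ.n2 (1570, 27870) (by decide +kernel)
                     (CovZ.leaf K2_ok TE_l4003 _)
                     (CovZ.leaf K2_ok TE_l4004 _))
                    (CovZ.n1 (1570, 27850) (by decide +kernel)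
                     (CovZ.leaf K2_ok TE_l4005 _)
                     (CovZ.leaf K2_ok TE_l4006 _))))))
                (CovZ.n1 (1520, 27880) (by decide +kernel)
                 (CovZ.n2 (1540, 27900) (by decide +kernel)
                  (CovZ.leaf K2_ok TE_l4007 _)
                  (CovZ.leaf K2_ok TE_l4008 _))
                 (CovZ.n1 (1540, 27860) (by decide +kernel)
                  (CovZ.badM (by decide +kernel))
                  (CovZ.n1 (1540, 27880) (by decide +kernel)
                   (CovZ.leaf K2_ok TE_l4009 _)
                   (CovZ.badM (by decide +kernel))))))))
             (CovZ.subM 25158979295129507611511033526226184472019959221915876327424 (by decide +kernel)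
              (CovZ.n1 (1440, 27920) (by decide +kernel)
               (CovZ.n2 (1480, 27960) (by decide +kernel)
                (CovZ.n2 (1480, 27920) (by decide +kernel)
                 (CovZ.leaf K2_ok TE_l4010 _)
                 (CovZ.n1 (1500, 27940) (by decide +kernel)
                  (CovZ.leaf K2_ok TE_l4011 _)
                  (CovZ.leaf K2_ok TE_l4012 _)))
                (CovZ.n1 (1440, 27960) (by decide +kernel)
                 (CovZ.n2 (1460, 27980) (by decide +kernel)
                  (CovZ.leaf K2_ok TE_l4013 _)
                  (CovZ.leaf K2_ok TE_l4014 _))
                 (CovZ.leaf K2_ok TE_l4015 _)))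
               (CovZ.subM 1532495541423407488331997360337976902800452097222377472 (by decide +kernel)
                (CovZ.n1 (1480, 27880) (by decide +kernel)
                 (CovZ.n2 (1440, 27880) (by decide +kernel)
                  (CovZ.n2 (1460, 27900) (by decide +kernel)
                   (CovZ.leaf K2_ok TE_l4016 _)
                   (CovZ.leaf K2_ok TE_l4017 _))
                  (CovZ.badM (by decide +kernel)))
                 (CovZ.n1 (1480, 27920) (by decide +kernel)
                  (CovZ.n2 (1500, 27900) (by decide +kernel)
                   (CovZ.leaf K2_ok TE_l4018 _)
                   (CovZ.leaf K2_ok TE_l4019 _))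
                  (CovZ.n1 (1460, 27900) (by decide +kernel)
                   (CovZ.leaf K2_ok TE_l4020 _)
                   (CovZ.leaf K2_ok TE_l4021 _)))))))))
           (CovZ.n1 (1280, 28000) (by decide +kernel)
            (CovZ.n2 (1360, 28080) (by decide +kernel)
             (CovZ.n2 (1360, 28000) (by decide +kernel)
              (CovZ.n2 (1320, 28040) (by decide +kernel)
               (CovZ.n2 (1360, 28040) (by decide +kernel)
                (CovZ.leaf K2_ok TE_l4022 _)
                (CovZ.leaf K2_ok TE_l4023 _))
               (CovZ.n1 (1320, 28000) (by decide +kernel)
                (CovZ.leaf K2_ok TE_l4024 _)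
                (CovZ.leaf K2_ok TE_l4025 _)))
              (CovZ.n1 (1400, 28040) (by decide +kernel)
               (CovZ.n2 (1400, 28000) (by decide +kernel)
                (CovZ.leaf K2_ok TE_l4026 _)
                (CovZ.leaf K2_ok TE_l4027 _))
               (CovZ.n1 (1360, 28040) (by decide +kernel)
                (CovZ.leaf K2_ok TE_l4028 _)
                (CovZ.leaf K2_ok TE_l4029 _))))
             (CovZ.n1 (1280, 28080) (by decide +kernel)
              (CovZ.n2 (1320, 28120) (by decide +kernel)
               (CovZ.leaf K2_ok TE_l4030 _)
               (CovZ.leaf K2_ok TE_l4031 _))
              (CovZ.n1 (1320, 28040) (by decide +kernel)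
               (CovZ.n2 (1280, 28040) (by decide +kernel)
                (CovZ.leaf K2_ok TE_l4032 _)
                (CovZ.leaf K2_ok TE_l4033 _))
               (CovZ.leaf K2_ok TE_l4034 _))))
            (CovZ.subM 25158979295129507611511033526226184472610255032274581979136 (by decide +kernel)
             (CovZ.n1 (1360, 27920) (by decide +kernel)
              (CovZ.n2 (1280, 27920) (by decide +kernel)
               (CovZ.n2 (1320, 27960) (by decide +kernel)
                (CovZ.n2 (1320, 27920) (by decide +kernel)
                 (CovZ.leaf K2_ok TE_l4035 _)
                 (CovZ.leaf K2_ok TE_l4036 _))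
                (CovZ.n1 (1280, 27960) (by decide +kernel)
                 (CovZ.leaf K2_ok TE_l4037 _)
                 (CovZ.leaf K2_ok TE_l4038 _)))
               (CovZ.subM 50572352848953445688067871044360641888440513436250537984 (by decide +kernel)
                (CovZ.n1 (1320, 27880) (by decide +kernel)
                 (CovZ.n2 (1280, 27880) (by decide +kernel)
                  (CovZ.n2 (1300, 27900) (by decide +kernel)
                   (CovZ.leaf K2_ok TE_l4039 _)
                   (CovZ.leaf K2_ok TE_l4040 _))
                  (CovZ.n1 (1300, 27860) (by decide +kernel)
                   (CovZ.leaf K2_ok TE_l4041 _)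
                   (CovZ.leaf K2_ok TE_l4042 _)))
                 (CovZ.n1 (1320, 27920) (by decide +kernel)
                  (CovZ.leaf K2_ok TE_l4043 _)
                  (CovZ.n1 (1300, 27900) (by decide +kernel)
                   (CovZ.leaf K2_ok TE_l4044 _)
                   (CovZ.leaf K2_ok TE_l4045 _))))))
              (CovZ.n1 (1360, 28000) (by decide +kernel)
               (CovZ.n2 (1400, 27960) (by decide +kernel)
                (CovZ.n2 (1360, 27960) (by decide +kernel)
                 (CovZ.leaf K2_ok TE_l4046 _)
                 (CovZ.leaf K2_ok TE_l4047 _))
                (CovZ.n1 (1400, 28000) (by decide +kernel)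
                 (CovZ.leaf K2_ok TE_l4048 _)
                 (CovZ.leaf K2_ok TE_l4049 _)))
               (CovZ.n1 (1320, 27960) (by decide +kernel)
                (CovZ.n2 (1320, 28000) (by decide +kernel)
                 (CovZ.leaf K2_ok TE_l4050 _)
                 (CovZ.leaf K2_ok TE_l4051 _))
                (CovZ.n1 (1360, 27960) (by decide +kernel)
                 (CovZ.n2 (1340, 27940) (by decide +kernel)
                  (CovZ.leaf K2_ok TE_l4052 _)
                  (CovZ.leaf K2_ok TE_l4053 _))
                 (CovZ.leaf K2_ok TE_l4054 _))))))))
          (CovZ.subM 803469022129495137770981046170581301270546229857135708078080 (by decide +kernel)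
           (CovZ.n1 (1440, 27680) (by decide +kernel)
            (CovZ.badM (by decide +kernel))
            (CovZ.n1 (1440, 27840) (by decide +kernel)
             (CovZ.n2 (1520, 27760) (by decide +kernel)
              (CovZ.badM (by decide +kernel))
              (CovZ.n1 (1520, 27840) (by decide +kernel)
               (CovZ.n2 (1560, 27800) (by decide +kernel)
                (CovZ.n2 (1520, 27800) (by decide +kernel)
                 (CovZ.n2 (1540, 27820) (by decide +kernel)
                  (CovZ.badM (by decide +kernel))
                  (CovZ.badM (by decide +kernel)))
                 (CovZ.badM (by decide +kernel)))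
                (CovZ.n1 (1560, 27840) (by decide +kernel)
                 (CovZ.n2 (1580, 27820) (by decide +kernel)
                  (CovZ.badM (by decide +kernel))
                  (CovZ.n1 (1580, 27840) (by decide +kernel)
                   (CovZ.badM (by decide +kernel))
                   (CovZ.badM (by decide +kernel))))
                 (CovZ.n1 (1540, 27820) (by decide +kernel)
                  (CovZ.n2 (1540, 27840) (by decide +kernel)
                   (CovZ.n2 (1550, 27830) (by decide +kernel)
                    (CovZ.leaf K2_ok TE_l17339 _)
                    (CovZ.leaf K2_ok TE_l17340 _))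
                   (CovZ.badM (by decide +kernel)))
                  (CovZ.badM (by decide +kernel)))))
               (CovZ.badM (by decide +kernel))))
             (CovZ.badM (by decide +kernel)))))))

theorem TE_u66 : CovZ TE_M (toL (selN TE_LN 196974527901878345496426744999019074417826900835171303426)) [0, 7, 6, 1] (2560, 28160) (2400, 28160) (2400, 28000) :=
    (CovZ.subM 196208280128585237938645204876619075512498910822070747136 (by decide +kernel)
             (CovZ.n2 (2480, 28080) (by decide +kernel)
              (CovZ.n2 (2400, 28080) (by decide +kernel)
               (CovZ.n2 (2440, 28120) (by decide +kernel)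
                (CovZ.subM 48825846699950804733211596313323959041265828137795584 (by decide +kernel)
                 (CovZ.n2 (2440, 28080) (by decide +kernel)
                  (CovZ.n2 (2420, 28100) (by decide +kernel)
                   (CovZ.n2 (2440, 28100) (by decide +kernel)
                    (CovZ.n2 (2430, 28090) (by decide +kernel)
                     (CovZ.leaf K2_ok TE_l4171 _)
                     (CovZ.badM (by decide +kernel)))
                    (CovZ.n1 (2430, 28110) (by decide +kernel)
                     (CovZ.leaf K2_ok TE_l4172 _)
                     (CovZ.leaf K2_ok TE_l4173 _)))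
                   (CovZ.subM 935361047891777867650358292938421132579796827504640 (by decide +kernel)
                    (CovZ.n1 (2420, 28080) (by decide +kernel)
                     (CovZ.n2 (2410, 28090) (by decide +kernel)
                      (CovZ.leaf K2_ok TE_l4174 _)
                      (CovZ.badM (by decide +kernel)))
                     (CovZ.n1 (2430, 28090) (by decide +kernel)
                      (CovZ.badM (by decide +kernel))
                      (CovZ.leaf K2_ok TE_l4175 _)))))
                  (CovZ.n1 (2460, 28100) (by decide +kernel)
                   (CovZ.n2 (2460, 28080) (by decide +kernel)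
                    (CovZ.n2 (2450, 28090) (by decide +kernel)
                     (CovZ.leaf K2_ok TE_l17356 _)
                     (CovZ.badM (by decide +kernel)))
                    (CovZ.badM (by decide +kernel)))
                   (CovZ.subM 41862893421938375920600433742053376 (by decide +kernel)
                    (CovZ.n1 (2440, 28100) (by decide +kernel)
                     (CovZ.n2 (2450, 28110) (by decide +kernel)
                      (CovZ.leaf K2_ok TE_l17357 _)
                      (CovZ.leaf K2_ok TE_l4176 _))
                     (CovZ.n1 (2450, 28090) (by decide +kernel)
                      (CovZ.badM (by decide +kernel))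
                      (CovZ.leaf K2_ok TE_l17358 _)))))))
                (CovZ.n1 (2400, 28120) (by decide +kernel)
                 (CovZ.n2 (2420, 28140) (by decide +kernel)
                  (CovZ.n2 (2420, 28120) (by decide +kernel)
                   (CovZ.leaf K2_ok TE_l4177 _)
                   (CovZ.leaf K2_ok TE_l4178 _))
                  (CovZ.n1 (2400, 28140) (by decide +kernel)
                   (CovZ.leaf K2_ok TE_l4179 _)
                   (CovZ.leaf K2_ok TE_l4180 _)))
                 (CovZ.subM 936822549539997848172925430549786056603442375294976 (by decide +kernel)
                  (CovZ.n1 (2420, 28100) (by decide +kernel)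
                   (CovZ.n2 (2400, 28100) (by decide +kernel)
                    (CovZ.n2 (2410, 28110) (by decide +kernel)
                     (CovZ.leaf K2_ok TE_l4181 _)
                     (CovZ.leaf K2_ok TE_l4182 _))
                    (CovZ.n1 (2410, 28090) (by decide +kernel)
                     (CovZ.leaf K2_ok TE_l19606 _)
                     (CovZ.leaf K2_ok TE_l4183 _)))
                   (CovZ.n1 (2420, 28120) (by decide +kernel)
                    (CovZ.leaf K2_ok TE_l4184 _)
                    (CovZ.n1 (2410, 28110) (by decide +kernel)
                     (CovZ.leaf K2_ok TE_l4185 _)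
                     (CovZ.leaf K2_ok TE_l4186 _)))))))
               (CovZ.subM 48825846699950804732887077759664204148909365029502976 (by decide +kernel)
                (CovZ.n1 (2440, 28040) (by decide +kernel)
                 (CovZ.badM (by decide +kernel))
                 (CovZ.n1 (2440, 28080) (by decide +kernel)
                  (CovZ.n2 (2460, 28060) (by decide +kernel)
                   (CovZ.badM (by decide +kernel))
                   (CovZ.n1 (2460, 28080) (by decide +kernel)
                    (CovZ.badM (by decide +kernel))
                    (CovZ.badM (by decide +kernel))))
                  (CovZ.n1 (2420, 28060) (by decide +kernel)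
                   (CovZ.n2 (2420, 28080) (by decide +kernel)
                    (CovZ.badM (by decide +kernel))
                    (CovZ.badM (by decide +kernel)))
                   (CovZ.badM (by decide +kernel)))))))
              (CovZ.n1 (2480, 28160) (by decide +kernel)
               (CovZ.subM 324518553669052051369612722307072 (by decide +kernel)
                (CovZ.n2 (2520, 28120) (by decide +kernel)
                 (CovZ.n2 (2480, 28120) (by decide +kernel)
                  (CovZ.n2 (2500, 28140) (by decide +kernel)
                   (CovZ.n2 (2500, 28120) (by decide +kernel)
                    (CovZ.leaf K2_ok TE_l4187 _)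
                    (CovZ.n1 (2510, 28130) (by decide +kernel)
                     (CovZ.leaf K2_ok TE_l4188 _)
                     (CovZ.leaf K2_ok TE_l4189 _)))
                   (CovZ.n1 (2480, 28140) (by decide +kernel)
                    (CovZ.n2 (2490, 28150) (by decide +kernel)
                     (CovZ.leaf K2_ok TE_l4190 _)
                     (CovZ.leaf K2_ok TE_l4191 _))
                    (CovZ.leaf K2_ok TE_l4192 _)))
                  (CovZ.n1 (2500, 28100) (by decide +kernel)
                   (CovZ.n2 (2480, 28100) (by decide +kernel)
                    (CovZ.n2 (2490, 28110) (by decide +kernel)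
                     (CovZ.leaf K2_ok TE_l17359 _)
                     (CovZ.leaf K2_ok TE_l4193 _))
                    (CovZ.badM (by decide +kernel)))
                   (CovZ.n1 (2500, 28120) (by decide +kernel)
                    (CovZ.n2 (2510, 28110) (by decide +kernel)
                     (CovZ.leaf K2_ok TE_l4194 _)
                     (CovZ.leaf K2_ok TE_l4195 _))
                    (CovZ.n1 (2490, 28110) (by decide +kernel)
                     (CovZ.leaf K2_ok TE_l4196 _)
                     (CovZ.leaf K2_ok TE_l4197 _)))))
                 (CovZ.n1 (2520, 28160) (by decide +kernel)
                  (CovZ.n2 (2540, 28140) (by decide +kernel)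
                   (CovZ.n2 (2520, 28140) (by decide +kernel)
                    (CovZ.n2 (2530, 28150) (by decide +kernel)
                     (CovZ.leaf K2_ok TE_l4198 _)
                     (CovZ.leaf K2_ok TE_l4199 _))
                    (CovZ.n1 (2530, 28130) (by decide +kernel)
                     (CovZ.leaf K2_ok TE_l4200 _)
                     (CovZ.leaf K2_ok TE_l4201 _)))
                   (CovZ.n1 (2540, 28160) (by decide +kernel)
                    (CovZ.leaf K2_ok TE_l4202 _)
                    (CovZ.n1 (2530, 28150) (by decide +kernel)
                     (CovZ.leaf K2_ok TE_l4203 _)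
                     (CovZ.leaf K2_ok TE_l4204 _))))
                  (CovZ.n1 (2500, 28140) (by decide +kernel)
                   (CovZ.n2 (2500, 28160) (by decide +kernel)
                    (CovZ.leaf K2_ok TE_l4205 _)
                    (CovZ.n1 (2490, 28150) (by decide +kernel)
                     (CovZ.leaf K2_ok TE_l4206 _)
                     (CovZ.leaf K2_ok TE_l4207 _)))
                   (CovZ.n1 (2520, 28140) (by decide +kernel)
                    (CovZ.n2 (2510, 28130) (by decide +kernel)
                     (CovZ.leaf K2_ok TE_l4208 _)
                     (CovZ.leaf K2_ok TE_l4209 _))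
                    (CovZ.leaf K2_ok TE_l4210 _))))))
               (CovZ.n1 (2440, 28120) (by decide +kernel)
                (CovZ.n2 (2440, 28160) (by decide +kernel)
                 (CovZ.n2 (2460, 28140) (by decide +kernel)
                  (CovZ.leaf K2_ok TE_l4211 _)
                  (CovZ.n1 (2460, 28160) (by decide +kernel)
                   (CovZ.leaf K2_ok TE_l4212 _)
                   (CovZ.leaf K2_ok TE_l4213 _)))
                 (CovZ.n1 (2420, 28140) (by decide +kernel)
                  (CovZ.n2 (2420, 28160) (by decide +kernel)
                   (CovZ.leaf K2_ok TE_l4214 _)
                   (CovZ.n1 (2410, 28150) (by decide +kernel)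
                    (CovZ.leaf K2_ok TE_l4215 _)
                    (CovZ.leaf K2_ok TE_l4216 _)))
                  (CovZ.n1 (2440, 28140) (by decide +kernel)
                   (CovZ.leaf K2_ok TE_l4217 _)
                   (CovZ.leaf K2_ok TE_l4218 _))))
                (CovZ.subM 47890485652059026865561238020394982641651770600718336 (by decide +kernel)
                 (CovZ.n1 (2480, 28120) (by decide +kernel)
                  (CovZ.n2 (2460, 28100) (by decide +kernel)
                   (CovZ.n2 (2460, 28120) (by decide +kernel)
                    (CovZ.n2 (2470, 28110) (by decide +kernel)
                     (CovZ.leaf K2_ok TE_l17360 _)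
                     (CovZ.leaf K2_ok TE_l4219 _))
                    (CovZ.n1 (2450, 28110) (by decide +kernel)
                     (CovZ.leaf K2_ok TE_l4220 _)
                     (CovZ.leaf K2_ok TE_l17361 _)))
                   (CovZ.n1 (2480, 28100) (by decide +kernel)
                    (CovZ.badM (by decide +kernel))
                    (CovZ.n1 (2470, 28110) (by decide +kernel)
                     (CovZ.leaf K2_ok TE_l4221 _)
                     (CovZ.leaf K2_ok TE_l17362 _))))
                  (CovZ.n1 (2460, 28140) (by decide +kernel)
                   (CovZ.n2 (2480, 28140) (by decide +kernel)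
                    (CovZ.n2 (2470, 28130) (by decide +kernel)
                     (CovZ.leaf K2_ok TE_l4222 _)
                     (CovZ.leaf K2_ok TE_l4223 _))
                    (CovZ.leaf K2_ok TE_l4224 _))
                   (CovZ.n1 (2460, 28120) (by decide +kernel)
                    (CovZ.n2 (2450, 28130) (by decide +kernel)
                     (CovZ.leaf K2_ok TE_l4225 _)
                     (CovZ.leaf K2_ok TE_l4226 _))
                    (CovZ.n1 (2470, 28130) (by decide +kernel)
                     (CovZ.leaf K2_ok TE_l4227 _)
                     (CovZ.leaf K2_ok TE_l4228 _))))))))))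

theorem TE_u67 : CovZ TE_M (toL (selN TE_LN 196974527901878345496426744999019074417826900835171303426)) [0, 7, 6, 1] (2400, 28160) (2240, 28160) (2400, 28000) :=
    (CovZ.n1 (2320, 28080) (by decide +kernel)
             (CovZ.n2 (2320, 28160) (by decide +kernel)
              (CovZ.n2 (2360, 28120) (by decide +kernel)
               (CovZ.n2 (2320, 28120) (by decide +kernel)
                (CovZ.n2 (2340, 28140) (by decide +kernel)
                 (CovZ.leaf K2_ok TE_l4229 _)
                 (CovZ.leaf K2_ok TE_l4230 _))
                (CovZ.subM 196159454281890938543464412374741055576622216274073616384 (by decide +kernel)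
                 (CovZ.n1 (2340, 28100) (by decide +kernel)
                  (CovZ.n2 (2320, 28100) (by decide +kernel)
                   (CovZ.leaf K2_ok TE_l4231 _)
                   (CovZ.leaf K2_ok TE_l4232 _))
                  (CovZ.n1 (2340, 28120) (by decide +kernel)
                   (CovZ.leaf K2_ok TE_l4233 _)
                   (CovZ.n1 (2330, 28110) (by decide +kernel)
                    (CovZ.leaf K2_ok TE_l4234 _)
                    (CovZ.leaf K2_ok TE_l4235 _))))))
               (CovZ.n1 (2360, 28160) (by decide +kernel)
                (CovZ.n2 (2380, 28140) (by decide +kernel)
                 (CovZ.n2 (2360, 28140) (by decide +kernel)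
                  (CovZ.leaf K2_ok TE_l4236 _)
                  (CovZ.leaf K2_ok TE_l4237 _))
                 (CovZ.leaf K2_ok TE_l4238 _))
                (CovZ.n1 (2340, 28140) (by decide +kernel)
                 (CovZ.leaf K2_ok TE_l4239 _)
                 (CovZ.leaf K2_ok TE_l4240 _))))
              (CovZ.n1 (2280, 28120) (by decide +kernel)
               (CovZ.n2 (2280, 28160) (by decide +kernel)
                (CovZ.n2 (2300, 28140) (by decide +kernel)
                 (CovZ.leaf K2_ok TE_l4241 _)
                 (CovZ.leaf K2_ok TE_l4242 _))
                (CovZ.n1 (2260, 28140) (by decide +kernel)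
                 (CovZ.leaf K2_ok TE_l4243 _)
                 (CovZ.leaf K2_ok TE_l4244 _)))
               (CovZ.n1 (2320, 28120) (by decide +kernel)
                (CovZ.subM 196925700590822251086259836493856590869770959194907738114 (by decide +kernel)
                 (CovZ.n2 (2300, 28100) (by decide +kernel)
                  (CovZ.n2 (2300, 28120) (by decide +kernel)
                   (CovZ.leaf K2_ok TE_l4245 _)
                   (CovZ.n1 (2290, 28110) (by decide +kernel)
                    (CovZ.leaf K2_ok TE_l4246 _)
                    (CovZ.leaf K2_ok TE_l4247 _)))
                  (CovZ.n1 (2320, 28100) (by decide +kernel)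
                   (CovZ.n2 (2310, 28090) (by decide +kernel)
                    (CovZ.leaf K2_ok TE_l4248 _)
                    (CovZ.leaf K2_ok TE_l4249 _))
                   (CovZ.leaf K2_ok TE_l4250 _))))
                (CovZ.n1 (2300, 28140) (by decide +kernel)
                 (CovZ.leaf K2_ok TE_l4251 _)
                 (CovZ.leaf K2_ok TE_l4252 _)))))
             (CovZ.subM 196160389642938754098123735336240115397171711079742439424 (by decide +kernel)
              (CovZ.n1 (2400, 28080) (by decide +kernel)
               (CovZ.subM 1461507212517205147007904319762943905511172472832 (by decide +kernel)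
                (CovZ.n2 (2360, 28040) (by decide +kernel)
                 (CovZ.n2 (2360, 28080) (by decide +kernel)
                  (CovZ.n2 (2380, 28060) (by decide +kernel)
                   (CovZ.n2 (2360, 28060) (by decide +kernel)
                    (CovZ.n2 (2370, 28070) (by decide +kernel)
                     (CovZ.leaf K2_ok TE_l17363 _)
                     (CovZ.badM (by decide +kernel)))
                    (CovZ.n1 (2370, 28050) (by decide +kernel)
                     (CovZ.badM (by decide +kernel))
                     (CovZ.n1 (2370, 28060) (by decide +kernel)
                      (CovZ.badM (by decide +kernel))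
                      (CovZ.badM (by decide +kernel)))))
                   (CovZ.n1 (2380, 28080) (by decide +kernel)
                    (CovZ.badM (by decide +kernel))
                    (CovZ.n1 (2370, 28070) (by decide +kernel)
                     (CovZ.leaf K2_ok TE_l17364 _)
                     (CovZ.leaf K2_ok TE_l19607 _))))
                  (CovZ.n1 (2340, 28060) (by decide +kernel)
                   (CovZ.n2 (2340, 28080) (by decide +kernel)
                    (CovZ.badM (by decide +kernel))
                    (CovZ.n1 (2330, 28070) (by decide +kernel)
                     (CovZ.leaf K2_ok TE_l4253 _)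
                     (CovZ.badM (by decide +kernel))))
                   (CovZ.badM (by decide +kernel))))
                 (CovZ.badM (by decide +kernel))))
               (CovZ.n1 (2360, 28120) (by decide +kernel)
                (CovZ.n2 (2400, 28120) (by decide +kernel)
                 (CovZ.subM 936822549539997806310032013448294006082242743369728 (by decide +kernel)
                  (CovZ.n2 (2380, 28100) (by decide +kernel)
                   (CovZ.n2 (2380, 28120) (by decide +kernel)
                    (CovZ.leaf K2_ok TE_l4254 _)
                    (CovZ.n1 (2370, 28110) (by decide +kernel)
                     (CovZ.leaf K2_ok TE_l4255 _)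
                     (CovZ.leaf K2_ok TE_l4256 _)))
                   (CovZ.n1 (2400, 28100) (by decide +kernel)
                    (CovZ.n2 (2390, 28090) (by decide +kernel)
                     (CovZ.leaf K2_ok TE_l4257 _)
                     (CovZ.leaf K2_ok TE_l19608 _))
                    (CovZ.leaf K2_ok TE_l4258 _))))
                 (CovZ.n1 (2380, 28140) (by decide +kernel)
                  (CovZ.n2 (2400, 28140) (by decide +kernel)
                   (CovZ.n2 (2390, 28130) (by decide +kernel)
                    (CovZ.leaf K2_ok TE_l4259 _)
                    (CovZ.leaf K2_ok TE_l4260 _))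
                   (CovZ.leaf K2_ok TE_l4261 _))
                  (CovZ.n1 (2380, 28120) (by decide +kernel)
                   (CovZ.leaf K2_ok TE_l4262 _)
                   (CovZ.leaf K2_ok TE_l4263 _))))
                (CovZ.subM 1461507212517205147007904330388268491967874203648 (by decide +kernel)
                 (CovZ.n1 (2360, 28080) (by decide +kernel)
                  (CovZ.n2 (2340, 28100) (by decide +kernel)
                   (CovZ.n2 (2360, 28100) (by decide +kernel)
                    (CovZ.n2 (2350, 28090) (by decide +kernel)
                     (CovZ.leaf K2_ok TE_l4264 _)
                     (CovZ.leaf K2_ok TE_l4265 _))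
                    (CovZ.leaf K2_ok TE_l4266 _))
                   (CovZ.n1 (2340, 28080) (by decide +kernel)
                    (CovZ.leaf K2_ok TE_l4267 _)
                    (CovZ.n1 (2350, 28090) (by decide +kernel)
                     (CovZ.badM (by decide +kernel))
                     (CovZ.leaf K2_ok TE_l4269 _))))
                  (CovZ.n1 (2380, 28100) (by decide +kernel)
                   (CovZ.n2 (2380, 28080) (by decide +kernel)
                    (CovZ.leaf K2_ok TE_l4270 _)
                    (CovZ.n1 (2390, 28090) (by decide +kernel)
                     (CovZ.badM (by decide +kernel))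
                     (CovZ.leaf K2_ok TE_l4271 _)))
                   (CovZ.n1 (2360, 28100) (by decide +kernel)
                    (CovZ.n2 (2370, 28110) (by decide +kernel)
                     (CovZ.leaf K2_ok TE_l4272 _)
                     (CovZ.leaf K2_ok TE_l4273 _))
                    (CovZ.leaf K2_ok TE_l4274 _)))))))))

theorem TE_u68 : CovZ TE_M (toL (selN TE_LN 20262686311144886772270859890821101008424927072855385620611138)) [0, 7, 6, 1] (1920, 28160) (2080, 28000) (2240, 28160) :=
    (CovZ.n2 (2080, 28160) (by decide +kernel)
            (CovZ.n2 (2160, 28080) (by decide +kernel)
             (CovZ.n2 (2080, 28080) (by decide +kernel)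
              (CovZ.n2 (2120, 28120) (by decide +kernel)
               (CovZ.subM 175955394160692310455045857040268756423188074036963609411586 (by decide +kernel)
                (CovZ.n2 (2120, 28080) (by decide +kernel)
                 (CovZ.n2 (2100, 28100) (by decide +kernel)
                  (CovZ.leaf K2_ok TE_l4275 _)
                  (CovZ.leaf K2_ok TE_l4276 _))
                 (CovZ.n1 (2140, 28100) (by decide +kernel)
                  (CovZ.n2 (2140, 28080) (by decide +kernel)
                   (CovZ.leaf K2_ok TE_l4277 _)
                   (CovZ.leaf K2_ok TE_l4278 _))
                  (CovZ.leaf K2_ok TE_l4279 _))))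
               (CovZ.n1 (2080, 28120) (by decide +kernel)
                (CovZ.n2 (2100, 28140) (by decide +kernel)
                 (CovZ.leaf K2_ok TE_l4280 _)
                 (CovZ.leaf K2_ok TE_l4281 _))
                (CovZ.n1 (2100, 28100) (by decide +kernel)
                 (CovZ.leaf K2_ok TE_l4282 _)
                 (CovZ.leaf K2_ok TE_l4283 _))))
              (CovZ.subM 175955394160692310455045857040268756423188065029764354670594 (by decide +kernel)
               (CovZ.n1 (2120, 28040) (by decide +kernel)
                (CovZ.n2 (2080, 28040) (by decide +kernel)
                 (CovZ.n2 (2100, 28060) (by decide +kernel)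
                  (CovZ.leaf K2_ok TE_l4284 _)
                  (CovZ.leaf K2_ok TE_l4285 _))
                 (CovZ.subM 50412976329070610250982255575842830871694173262695708491776 (by decide +kernel)
                  (CovZ.n1 (2100, 28020) (by decide +kernel)
                   (CovZ.n2 (2080, 28020) (by decide +kernel)
                    (CovZ.n2 (2090, 28030) (by decide +kernel)
                     (CovZ.leaf K2_ok TE_l4286 _)
                     (CovZ.leaf K2_ok TE_l4287 _))
                    (CovZ.n1 (2090, 28010) (by decide +kernel)
                     (CovZ.leaf K2_ok TE_l4288 _)
                     (CovZ.leaf K2_ok TE_l4289 _)))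
                   (CovZ.n1 (2100, 28040) (by decide +kernel)
                    (CovZ.leaf K2_ok TE_l4290 _)
                    (CovZ.n1 (2090, 28030) (by decide +kernel)
                     (CovZ.leaf K2_ok TE_l4291 _)
                     (CovZ.leaf K2_ok TE_l4292 _))))))
                (CovZ.n1 (2120, 28080) (by decide +kernel)
                 (CovZ.n2 (2140, 28060) (by decide +kernel)
                  (CovZ.leaf K2_ok TE_l4293 _)
                  (CovZ.leaf K2_ok TE_l4294 _))
                 (CovZ.n1 (2100, 28060) (by decide +kernel)
                  (CovZ.leaf K2_ok TE_l4295 _)
                  (CovZ.n1 (2120, 28060) (by decide +kernel)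
                   (CovZ.n2 (2110, 28050) (by decide +kernel)
                    (CovZ.leaf K2_ok TE_l4296 _)
                    (CovZ.leaf K2_ok TE_l4297 _))
                   (CovZ.leaf K2_ok TE_l4298 _)))))))
             (CovZ.n1 (2160, 28160) (by decide +kernel)
              (CovZ.n2 (2200, 28120) (by decide +kernel)
               (CovZ.n2 (2160, 28120) (by decide +kernel)
                (CovZ.n2 (2180, 28140) (by decide +kernel)
                 (CovZ.leaf K2_ok TE_l4299 _)
                 (CovZ.leaf K2_ok TE_l4300 _))
                (CovZ.n1 (2180, 28100) (by decide +kernel)
                 (CovZ.leaf K2_ok TE_l4301 _)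
                 (CovZ.leaf K2_ok TE_l4302 _)))
               (CovZ.n1 (2200, 28160) (by decide +kernel)
                (CovZ.n2 (2220, 28140) (by decide +kernel)
                 (CovZ.leaf K2_ok TE_l4303 _)
                 (CovZ.leaf K2_ok TE_l4304 _))
                (CovZ.n1 (2180, 28140) (by decide +kernel)
                 (CovZ.leaf K2_ok TE_l4305 _)
                 (CovZ.leaf K2_ok TE_l4306 _))))
              (CovZ.n1 (2120, 28120) (by decide +kernel)
               (CovZ.n2 (2120, 28160) (by decide +kernel)
                (CovZ.leaf K2_ok TE_l4307 _)
                (CovZ.n1 (2100, 28140) (by decide +kernel)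
                 (CovZ.leaf K2_ok TE_l4308 _)
                 (CovZ.leaf K2_ok TE_l4309 _)))
               (CovZ.n1 (2160, 28120) (by decide +kernel)
                (CovZ.n2 (2140, 28100) (by decide +kernel)
                 (CovZ.leaf K2_ok TE_l4310 _)
                 (CovZ.leaf K2_ok TE_l4311 _))
                (CovZ.leaf K2_ok TE_l4312 _)))))
            (CovZ.n1 (2000, 28080) (by decide +kernel)
             (CovZ.n2 (2000, 28160) (by decide +kernel)
              (CovZ.n2 (2040, 28120) (by decide +kernel)
               (CovZ.n2 (2000, 28120) (by decide +kernel)
                (CovZ.leaf K2_ok TE_l4313 _)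
                (CovZ.leaf K2_ok TE_l4314 _))
               (CovZ.n1 (2040, 28160) (by decide +kernel)
                (CovZ.leaf K2_ok TE_l4315 _)
                (CovZ.n1 (2020, 28140) (by decide +kernel)
                 (CovZ.leaf K2_ok TE_l4316 _)
                 (CovZ.leaf K2_ok TE_l4317 _))))
              (CovZ.n1 (1960, 28120) (by decide +kernel)
               (CovZ.n2 (1960, 28160) (by decide +kernel)
                (CovZ.leaf K2_ok TE_l4318 _)
                (CovZ.n1 (1940, 28140) (by decide +kernel)
                 (CovZ.leaf K2_ok TE_l4319 _)
                 (CovZ.leaf K2_ok TE_l4320 _)))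
               (CovZ.n1 (2000, 28120) (by decide +kernel)
                (CovZ.n2 (1980, 28100) (by decide +kernel)
                 (CovZ.leaf K2_ok TE_l4321 _)
                 (CovZ.leaf K2_ok TE_l4322 _))
                (CovZ.leaf K2_ok TE_l4323 _))))
             (CovZ.n1 (2080, 28080) (by decide +kernel)
              (CovZ.n2 (2040, 28040) (by decide +kernel)
               (CovZ.n2 (2040, 28080) (by decide +kernel)
                (CovZ.n2 (2060, 28060) (by decide +kernel)
                 (CovZ.leaf K2_ok TE_l4324 _)
                 (CovZ.leaf K2_ok TE_l4325 _))
                (CovZ.n1 (2020, 28060) (by decide +kernel)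
                 (CovZ.leaf K2_ok TE_l4326 _)
                 (CovZ.leaf K2_ok TE_l4327 _)))
               (CovZ.subM 175955391167536957201356677962973789752826626509166342045696 (by decide +kernel)
                (CovZ.n1 (2080, 28040) (by decide +kernel)
                 (CovZ.n2 (2060, 28020) (by decide +kernel)
                  (CovZ.n2 (2060, 28040) (by decide +kernel)
                   (CovZ.leaf K2_ok TE_l4328 _)
                   (CovZ.n1 (2050, 28030) (by decide +kernel)
                    (CovZ.leaf K2_ok TE_l4329 _)
                    (CovZ.leaf K2_ok TE_l4330 _)))
                  (CovZ.n1 (2080, 28020) (by decide +kernel)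
                   (CovZ.n2 (2070, 28010) (by decide +kernel)
                    (CovZ.leaf K2_ok TE_l4331 _)
                    (CovZ.leaf K2_ok TE_l4332 _))
                   (CovZ.leaf K2_ok TE_l4333 _)))
                 (CovZ.n1 (2060, 28060) (by decide +kernel)
                  (CovZ.leaf K2_ok TE_l4334 _)
                  (CovZ.n1 (2060, 28040) (by decide +kernel)
                   (CovZ.leaf K2_ok TE_l4335 _)
                   (CovZ.leaf K2_ok TE_l4336 _))))))
              (CovZ.n1 (2040, 28120) (by decide +kernel)
               (CovZ.n2 (2080, 28120) (by decide +kernel)
                (CovZ.n2 (2060, 28100) (by decide +kernel)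
                 (CovZ.leaf K2_ok TE_l4337 _)
                 (CovZ.leaf K2_ok TE_l4338 _))
                (CovZ.leaf K2_ok TE_l4339 _))
               (CovZ.n1 (2040, 28080) (by decide +kernel)
                (CovZ.n2 (2020, 28100) (by decide +kernel)
                 (CovZ.leaf K2_ok TE_l4340 _)
                 (CovZ.leaf K2_ok TE_l4341 _))
                (CovZ.n1 (2060, 28100) (by decide +kernel)
                 (CovZ.leaf K2_ok TE_l4342 _)
                 (CovZ.leaf K2_ok TE_l4343 _)))))))

theorem TE_u69 : CovZ TE_M (toL (selN TE_LN 20262686311144886772270859890821101008424927072855385620611138)) [0, 7, 6, 1] (2080, 28000) (2240, 27840) (2240, 28160) :=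
    (CovZ.subM 196928693750451585555051750340548910755434425598422810626 (by decide +kernel)
            (CovZ.n1 (2240, 28000) (by decide +kernel)
             (CovZ.subM 2993156780501381882441027595688917073750486230761472 (by decide +kernel)
              (CovZ.n2 (2160, 27920) (by decide +kernel)
               (CovZ.n2 (2160, 28000) (by decide +kernel)
                (CovZ.badM (by decide +kernel))
                (CovZ.n1 (2120, 27960) (by decide +kernel)
                 (CovZ.n2 (2120, 28000) (by decide +kernel)
                  (CovZ.badM (by decide +kernel))
                  (CovZ.n1 (2100, 27980) (by decide +kernel)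
                   (CovZ.n2 (2100, 28000) (by decide +kernel)
                    (CovZ.n2 (2110, 27990) (by decide +kernel)
                     (CovZ.leaf K2_ok TE_l4344 _)
                     (CovZ.leaf K2_ok TE_l4345 _))
                    (CovZ.n1 (2090, 27990) (by decide +kernel)
                     (CovZ.leaf K2_ok TE_l4346 _)
                     (CovZ.leaf K2_ok TE_l4347 _)))
                   (CovZ.badM (by decide +kernel))))
                 (CovZ.badM (by decide +kernel))))
               (CovZ.badM (by decide +kernel))))
             (CovZ.n1 (2160, 28080) (by decide +kernel)
              (CovZ.n2 (2240, 28080) (by decide +kernel)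
               (CovZ.n2 (2200, 28040) (by decide +kernel)
                (CovZ.n2 (2200, 28080) (by decide +kernel)
                 (CovZ.subM 196925700590816588787674272236280885344831969758957010946 (by decide +kernel)
                  (CovZ.n2 (2220, 28060) (by decide +kernel)
                   (CovZ.n2 (2200, 28060) (by decide +kernel)
                    (CovZ.n2 (2210, 28070) (by decide +kernel)
                     (CovZ.leaf K2_ok TE_l4348 _)
                     (CovZ.leaf K2_ok TE_l4349 _))
                    (CovZ.leaf K2_ok TE_l4350 _))
                   (CovZ.n1 (2220, 28080) (by decide +kernel)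
                    (CovZ.leaf K2_ok TE_l4351 _)
                    (CovZ.n1 (2210, 28070) (by decide +kernel)
                     (CovZ.leaf K2_ok TE_l4352 _)
                     (CovZ.leaf K2_ok TE_l4353 _)))))
                 (CovZ.n1 (2180, 28060) (by decide +kernel)
                  (CovZ.n2 (2180, 28080) (by decide +kernel)
                   (CovZ.leaf K2_ok TE_l4354 _)
                   (CovZ.leaf K2_ok TE_l4355 _))
                  (CovZ.n1 (2200, 28060) (by decide +kernel)
                   (CovZ.n2 (2190, 28050) (by decide +kernel)
                    (CovZ.leaf K2_ok TE_l4356 _)
                    (CovZ.leaf K2_ok TE_l4357 _))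
                   (CovZ.leaf K2_ok TE_l4358 _))))
                (CovZ.subM 196925700408128884121310109386605647548389459677883138050 (by decide +kernel)
                 (CovZ.n1 (2240, 28040) (by decide +kernel)
                  (CovZ.subM 766247770432949873697044407046895034331763656471085058 (by decide +kernel)
                   (CovZ.n2 (2220, 28020) (by decide +kernel)
                    (CovZ.n2 (2220, 28040) (by decide +kernel)
                     (CovZ.leaf K2_ok TE_l4359 _)
                     (CovZ.n1 (2210, 28030) (by decide +kernel)
                      (CovZ.leaf K2_ok TE_l4360 _)
                      (CovZ.badM (by decide +kernel))))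
                    (CovZ.n1 (2240, 28020) (by decide +kernel)
                     (CovZ.badM (by decide +kernel))
                     (CovZ.n1 (2230, 28030) (by decide +kernel)
                      (CovZ.leaf K2_ok TE_l17365 _)
                      (CovZ.badM (by decide +kernel))))))
                  (CovZ.n1 (2220, 28060) (by decide +kernel)
                   (CovZ.n2 (2240, 28060) (by decide +kernel)
                    (CovZ.n2 (2230, 28050) (by decide +kernel)
                     (CovZ.leaf K2_ok TE_l4361 _)
                     (CovZ.leaf K2_ok TE_l4362 _))
                    (CovZ.leaf K2_ok TE_l4363 _))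
                   (CovZ.n1 (2220, 28040) (by decide +kernel)
                    (CovZ.leaf K2_ok TE_l4364 _)
                    (CovZ.n1 (2230, 28050) (by decide +kernel)
                     (CovZ.leaf K2_ok TE_l4365 _)
                     (CovZ.leaf K2_ok TE_l4366 _)))))))
               (CovZ.n1 (2200, 28120) (by decide +kernel)
                (CovZ.n2 (2240, 28120) (by decide +kernel)
                 (CovZ.n2 (2220, 28100) (by decide +kernel)
                  (CovZ.leaf K2_ok TE_l4367 _)
                  (CovZ.leaf K2_ok TE_l4368 _))
                 (CovZ.n1 (2220, 28140) (by decide +kernel)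
                  (CovZ.leaf K2_ok TE_l4369 _)
                  (CovZ.leaf K2_ok TE_l4370 _)))
                (CovZ.n1 (2200, 28080) (by decide +kernel)
                 (CovZ.n2 (2180, 28100) (by decide +kernel)
                  (CovZ.leaf K2_ok TE_l4371 _)
                  (CovZ.leaf K2_ok TE_l4372 _))
                 (CovZ.n1 (2220, 28100) (by decide +kernel)
                  (CovZ.n2 (2220, 28080) (by decide +kernel)
                   (CovZ.leaf K2_ok TE_l4373 _)
                   (CovZ.leaf K2_ok TE_l4374 _))
                  (CovZ.n1 (2200, 28100) (by decide +kernel)
                   (CovZ.leaf K2_ok TE_l4375 _)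
                   (CovZ.leaf K2_ok TE_l4376 _))))))
              (CovZ.n1 (2160, 28000) (by decide +kernel)
               (CovZ.n2 (2120, 28040) (by decide +kernel)
                (CovZ.n2 (2160, 28040) (by decide +kernel)
                 (CovZ.subM 196162445977164140295857072866856735670920117847083450368 (by decide +kernel)
                  (CovZ.n2 (2140, 28020) (by decide +kernel)
                   (CovZ.n2 (2140, 28040) (by decide +kernel)
                    (CovZ.leaf K2_ok TE_l4377 _)
                    (CovZ.n1 (2130, 28030) (by decide +kernel)
                     (CovZ.leaf K2_ok TE_l4378 _)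
                     (CovZ.leaf K2_ok TE_l4379 _)))
                   (CovZ.n1 (2160, 28020) (by decide +kernel)
                    (CovZ.badM (by decide +kernel))
                    (CovZ.leaf K2_ok TE_l4382 _))))
                 (CovZ.n1 (2140, 28060) (by decide +kernel)
                  (CovZ.leaf K2_ok TE_l4383 _)
                  (CovZ.n1 (2140, 28040) (by decide +kernel)
                   (CovZ.leaf K2_ok TE_l4384 _)
                   (CovZ.leaf K2_ok TE_l4385 _))))
                (CovZ.subM 196162445977164140295857072866856735670920117847083450368 (by decide +kernel)
                 (CovZ.n1 (2120, 28000) (by decide +kernel)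
                  (CovZ.n2 (2100, 28020) (by decide +kernel)
                   (CovZ.n2 (2120, 28020) (by decide +kernel)
                    (CovZ.n2 (2110, 28010) (by decide +kernel)
                     (CovZ.leaf K2_ok TE_l4386 _)
                     (CovZ.leaf K2_ok TE_l4387 _))
                    (CovZ.leaf K2_ok TE_l4388 _))
                   (CovZ.n1 (2100, 28000) (by decide +kernel)
                    (CovZ.n2 (2090, 28010) (by decide +kernel)
                     (CovZ.leaf K2_ok TE_l4389 _)
                     (CovZ.leaf K2_ok TE_l4390 _))
                    (CovZ.n1 (2110, 28010) (by decide +kernel)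
                     (CovZ.leaf K2_ok TE_l4391 _)
                     (CovZ.leaf K2_ok TE_l4392 _))))
                  (CovZ.n1 (2140, 28020) (by decide +kernel)
                   (CovZ.badM (by decide +kernel))
                   (CovZ.n1 (2120, 28020) (by decide +kernel)
                    (CovZ.n2 (2130, 28030) (by decide +kernel)
                     (CovZ.leaf K2_ok TE_l4397 _)
                     (CovZ.leaf K2_ok TE_l4398 _))
                    (CovZ.n1 (2130, 28010) (by decide +kernel)
                     (CovZ.leaf K2_ok TE_l4399 _)
                     (CovZ.leaf K2_ok TE_l4400 _)))))))
               (CovZ.n1 (2200, 28040) (by decide +kernel)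
                (CovZ.subM 158456325028528675187087900672 (by decide +kernel)
                 (CovZ.n2 (2200, 28000) (by decide +kernel)
                  (CovZ.n2 (2180, 28020) (by decide +kernel)
                   (CovZ.n2 (2200, 28020) (by decide +kernel)
                    (CovZ.badM (by decide +kernel))
                    (CovZ.n1 (2190, 28030) (by decide +kernel)
                     (CovZ.leaf K2_ok TE_l4402 _)
                     (CovZ.badM (by decide +kernel))))
                   (CovZ.badM (by decide +kernel)))
                  (CovZ.n1 (2220, 28020) (by decide +kernel)
                   (CovZ.badM (by decide +kernel))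
                   (CovZ.n1 (2200, 28020) (by decide +kernel)
                    (CovZ.n2 (2210, 28030) (by decide +kernel)
                     (CovZ.badM (by decide +kernel))
                     (CovZ.leaf K2_ok TE_l4406 _))
                    (CovZ.badM (by decide +kernel))))))
                (CovZ.n1 (2160, 28040) (by decide +kernel)
                 (CovZ.n2 (2180, 28060) (by decide +kernel)
                  (CovZ.n2 (2180, 28040) (by decide +kernel)
                   (CovZ.leaf K2_ok TE_l4407 _)
                   (CovZ.n1 (2190, 28050) (by decide +kernel)
                    (CovZ.leaf K2_ok TE_l4408 _)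
                    (CovZ.leaf K2_ok TE_l4409 _)))
                  (CovZ.n1 (2160, 28060) (by decide +kernel)
                   (CovZ.leaf K2_ok TE_l4410 _)
                   (CovZ.leaf K2_ok TE_l4411 _)))
                 (CovZ.subM 158456334482485012963233103872 (by decide +kernel)
                  (CovZ.n1 (2180, 28020) (by decide +kernel)
                   (CovZ.n2 (2160, 28020) (by decide +kernel)
                    (CovZ.n2 (2170, 28030) (by decide +kernel)
                     (CovZ.leaf K2_ok TE_l4412 _)
                     (CovZ.leaf K2_ok TE_l4413 _))
                    (CovZ.badM (by decide +kernel)))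
                   (CovZ.n1 (2180, 28040) (by decide +kernel)
                    (CovZ.n2 (2190, 28030) (by decide +kernel)
                     (CovZ.leaf K2_ok TE_l4416 _)
                     (CovZ.leaf K2_ok TE_l4417 _))
                    (CovZ.n1 (2170, 28030) (by decide +kernel)
                     (CovZ.leaf K2_ok TE_l4418 _)
                     (CovZ.leaf K2_ok TE_l4419 _)))))))))))

theorem TE_u70 : CovZ TE_M (toL (selN TE_LN 20280132307268184390925804030951429790010920261603667955155526)) [0, 7, 6, 1] (1920, 27520) (2240, 27840) (1920, 28160) :=
    (CovZ.subM 20264254820424499136603229255895997059142360742964100507631680 (by decide +kernel)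
         (CovZ.n2 (1920, 27840) (by decide +kernel)
          (CovZ.n2 (2080, 28000) (by decide +kernel)
           (CovZ.subM 3086692885291920798673747178836612685438192986357760 (by decide +kernel)
            (CovZ.n2 (2080, 27840) (by decide +kernel)
             (CovZ.n2 (2000, 27920) (by decide +kernel)
              (CovZ.badM (by decide +kernel))
              (CovZ.badM (by decide +kernel)))
             (CovZ.n1 (2160, 27920) (by decide +kernel)
              (CovZ.badM (by decide +kernel))
              (CovZ.n1 (2080, 27920) (by decide +kernel)
               (CovZ.n2 (2120, 27960) (by decide +kernel)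
                (CovZ.badM (by decide +kernel))
                (CovZ.n1 (2080, 27960) (by decide +kernel)
                 (CovZ.n2 (2100, 27980) (by decide +kernel)
                  (CovZ.badM (by decide +kernel))
                  (CovZ.n1 (2080, 27980) (by decide +kernel)
                   (CovZ.n2 (2090, 27990) (by decide +kernel)
                    (CovZ.leaf K2_ok TE_l19603 _)
                    (CovZ.leaf K2_ok TE_l19604 _))
                   (CovZ.n1 (2090, 27970) (by decide +kernel)
                    (CovZ.badM (by decide +kernel))
                    (CovZ.n1 (2090, 27980) (by decide +kernel)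
                     (CovZ.badM (by decide +kernel))
                     (CovZ.leaf K2_ok TE_l19605 _)))))
                 (CovZ.badM (by decide +kernel))))
               (CovZ.badM (by decide +kernel))))))
           (CovZ.n1 (1920, 28000) (by decide +kernel)
            (CovZ.n2 (2000, 28080) (by decide +kernel)
             (CovZ.n2 (2000, 28000) (by decide +kernel)
              (CovZ.n2 (1960, 28040) (by decide +kernel)
               (CovZ.n2 (2000, 28040) (by decide +kernel)
                (CovZ.n2 (1980, 28020) (by decide +kernel)
                 (CovZ.leaf K2_ok TE_l4055 _)
                 (CovZ.n1 (2000, 28020) (by decide +kernel)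
                  (CovZ.leaf K2_ok TE_l4056 _)
                  (CovZ.leaf K2_ok TE_l4057 _)))
                (CovZ.n1 (1980, 28060) (by decide +kernel)
                 (CovZ.leaf K2_ok TE_l4058 _)
                 (CovZ.leaf K2_ok TE_l4059 _)))
               (CovZ.n1 (1960, 28000) (by decide +kernel)
                (CovZ.n2 (1940, 28020) (by decide +kernel)
                 (CovZ.leaf K2_ok TE_l4060 _)
                 (CovZ.leaf K2_ok TE_l4061 _))
                (CovZ.n1 (1980, 28020) (by decide +kernel)
                 (CovZ.n2 (1980, 28000) (by decide +kernel)
                  (CovZ.leaf K2_ok TE_l4062 _)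
                  (CovZ.leaf K2_ok TE_l4063 _))
                 (CovZ.leaf K2_ok TE_l4064 _))))
              (CovZ.n1 (2040, 28040) (by decide +kernel)
               (CovZ.subM 175955391167535529953663972003092695199082588575146128179200 (by decide +kernel)
                (CovZ.n2 (2040, 28000) (by decide +kernel)
                 (CovZ.n2 (2020, 28020) (by decide +kernel)
                  (CovZ.leaf K2_ok TE_l4065 _)
                  (CovZ.n1 (2020, 28000) (by decide +kernel)
                   (CovZ.leaf K2_ok TE_l4066 _)
                   (CovZ.n1 (2030, 28010) (by decide +kernel)
                    (CovZ.leaf K2_ok TE_l4067 _)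
                    (CovZ.leaf K2_ok TE_l4068 _))))
                 (CovZ.n1 (2060, 28020) (by decide +kernel)
                  (CovZ.n2 (2060, 28000) (by decide +kernel)
                   (CovZ.leaf K2_ok TE_l4069 _)
                   (CovZ.n1 (2070, 28010) (by decide +kernel)
                    (CovZ.leaf K2_ok TE_l4070 _)
                    (CovZ.leaf K2_ok TE_l4071 _)))
                  (CovZ.n1 (2040, 28020) (by decide +kernel)
                   (CovZ.n2 (2050, 28030) (by decide +kernel)
                    (CovZ.leaf K2_ok TE_l4072 _)
                    (CovZ.leaf K2_ok TE_l4073 _))
                   (CovZ.leaf K2_ok TE_l4074 _)))))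
               (CovZ.n1 (2000, 28040) (by decide +kernel)
                (CovZ.n2 (2020, 28060) (by decide +kernel)
                 (CovZ.leaf K2_ok TE_l4075 _)
                 (CovZ.leaf K2_ok TE_l4076 _))
                (CovZ.n1 (2020, 28020) (by decide +kernel)
                 (CovZ.leaf K2_ok TE_l4077 _)
                 (CovZ.n1 (2020, 28040) (by decide +kernel)
                  (CovZ.leaf K2_ok TE_l4078 _)
                  (CovZ.leaf K2_ok TE_l4079 _))))))
             (CovZ.n1 (1920, 28080) (by decide +kernel)
              (CovZ.n2 (1960, 28120) (by decide +kernel)
               (CovZ.n2 (1960, 28080) (by decide +kernel)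
                (CovZ.leaf K2_ok TE_l4080 _)
                (CovZ.n1 (1980, 28100) (by decide +kernel)
                 (CovZ.leaf K2_ok TE_l4081 _)
                 (CovZ.leaf K2_ok TE_l4082 _)))
               (CovZ.n1 (1920, 28120) (by decide +kernel)
                (CovZ.leaf K2_ok TE_l4083 _)
                (CovZ.leaf K2_ok TE_l4084 _)))
              (CovZ.n1 (1960, 28040) (by decide +kernel)
               (CovZ.n2 (1920, 28040) (by decide +kernel)
                (CovZ.n2 (1940, 28060) (by decide +kernel)
                 (CovZ.leaf K2_ok TE_l4085 _)
                 (CovZ.leaf K2_ok TE_l4086 _))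
                (CovZ.n1 (1940, 28020) (by decide +kernel)
                 (CovZ.leaf K2_ok TE_l4087 _)
                 (CovZ.leaf K2_ok TE_l4088 _)))
               (CovZ.n1 (1960, 28080) (by decide +kernel)
                (CovZ.n2 (1980, 28060) (by decide +kernel)
                 (CovZ.leaf K2_ok TE_l4089 _)
                 (CovZ.leaf K2_ok TE_l4090 _))
                (CovZ.n1 (1940, 28060) (by decide +kernel)
                 (CovZ.leaf K2_ok TE_l4091 _)
                 (CovZ.leaf K2_ok TE_l4092 _))))))
            (CovZ.n1 (2000, 27920) (by decide +kernel)
             (CovZ.n2 (1920, 27920) (by decide +kernel)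
              (CovZ.n2 (1960, 27960) (by decide +kernel)
               (CovZ.subM 26677682468929500844876368444859995555452550557858556543040 (by decide +kernel)
                (CovZ.n2 (1960, 27920) (by decide +kernel)
                 (CovZ.n2 (1940, 27940) (by decide +kernel)
                  (CovZ.n2 (1960, 27940) (by decide +kernel)
                   (CovZ.badM (by decide +kernel))
                   (CovZ.n1 (1950, 27950) (by decide +kernel)
                    (CovZ.leaf K2_ok TE_l4093 _)
                    (CovZ.leaf K2_ok TE_l17341 _)))
                  (CovZ.badM (by decide +kernel)))
                 (CovZ.n1 (1980, 27940) (by decide +kernel)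
                  (CovZ.badM (by decide +kernel))
                  (CovZ.n1 (1960, 27940) (by decide +kernel)
                   (CovZ.n2 (1970, 27950) (by decide +kernel)
                    (CovZ.badM (by decide +kernel))
                    (CovZ.leaf K2_ok TE_l4094 _))
                   (CovZ.badM (by decide +kernel))))))
               (CovZ.n1 (1920, 27960) (by decide +kernel)
                (CovZ.n2 (1940, 27980) (by decide +kernel)
                 (CovZ.n2 (1940, 27960) (by decide +kernel)
                  (CovZ.leaf K2_ok TE_l4095 _)
                  (CovZ.n1 (1950, 27970) (by decide +kernel)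
                   (CovZ.leaf K2_ok TE_l4096 _)
                   (CovZ.leaf K2_ok TE_l4097 _)))
                 (CovZ.n1 (1920, 27980) (by decide +kernel)
                  (CovZ.n2 (1930, 27990) (by decide +kernel)
                   (CovZ.leaf K2_ok TE_l4098 _)
                   (CovZ.leaf K2_ok TE_l4099 _))
                  (CovZ.leaf K2_ok TE_l4100 _)))
                (CovZ.subM 26876906913565266177059047703909813032215085044109517258752 (by decide +kernel)
                 (CovZ.n1 (1940, 27940) (by decide +kernel)
                  (CovZ.n2 (1920, 27940) (by decide +kernel)
                   (CovZ.n2 (1930, 27950) (by decide +kernel)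
                    (CovZ.leaf K2_ok TE_l4101 _)
                    (CovZ.leaf K2_ok TE_l4102 _))
                   (CovZ.badM (by decide +kernel)))
                  (CovZ.n1 (1940, 27960) (by decide +kernel)
                   (CovZ.leaf K2_ok TE_l4103 _)
                   (CovZ.n1 (1930, 27950) (by decide +kernel)
                    (CovZ.leaf K2_ok TE_l4104 _)
                    (CovZ.leaf K2_ok TE_l4105 _)))))))
              (CovZ.n1 (1960, 27880) (by decide +kernel)
               (CovZ.badM (by decide +kernel))
               (CovZ.n1 (1960, 27920) (by decide +kernel)
                (CovZ.badM (by decide +kernel))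
                (CovZ.badM (by decide +kernel)))))
             (CovZ.n1 (2000, 28000) (by decide +kernel)
              (CovZ.subM 177524666601382200144622919358894611801927585815544725504000 (by decide +kernel)
               (CovZ.n2 (2040, 27960) (by decide +kernel)
                (CovZ.n2 (2000, 27960) (by decide +kernel)
                 (CovZ.n2 (2020, 27980) (by decide +kernel)
                  (CovZ.badM (by decide +kernel))
                  (CovZ.n1 (2000, 27980) (by decide +kernel)
                   (CovZ.n2 (2010, 27990) (by decide +kernel)
                    (CovZ.leaf K2_ok TE_l4106 _)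
                    (CovZ.leaf K2_ok TE_l4107 _))
                   (CovZ.n1 (2010, 27970) (by decide +kernel)
                    (CovZ.leaf K2_ok TE_l17342 _)
                    (CovZ.leaf K2_ok TE_l17343 _))))
                 (CovZ.badM (by decide +kernel)))
                (CovZ.n1 (2040, 28000) (by decide +kernel)
                 (CovZ.subM 50412973335913829749600288719268008459496266368562537431040 (by decide +kernel)
                  (CovZ.n2 (2060, 27980) (by decide +kernel)
                   (CovZ.n2 (2040, 27980) (by decide +kernel)
                    (CovZ.n2 (2050, 27990) (by decide +kernel)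
                     (CovZ.leaf K2_ok TE_l17344 _)
                     (CovZ.leaf K2_ok TE_l4108 _))
                    (CovZ.n1 (2050, 27970) (by decide +kernel)
                     (CovZ.badM (by decide +kernel))
                     (CovZ.leaf K2_ok TE_l17345 _)))
                   (CovZ.n1 (2060, 28000) (by decide +kernel)
                    (CovZ.n2 (2070, 27990) (by decide +kernel)
                     (CovZ.leaf K2_ok TE_l17346 _)
                     (CovZ.leaf K2_ok TE_l17347 _))
                    (CovZ.n1 (2050, 27990) (by decide +kernel)
                     (CovZ.leaf K2_ok TE_l4109 _)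
                     (CovZ.leaf K2_ok TE_l17348 _)))))
                 (CovZ.n1 (2020, 27980) (by decide +kernel)
                  (CovZ.n2 (2020, 28000) (by decide +kernel)
                   (CovZ.leaf K2_ok TE_l4110 _)
                   (CovZ.n1 (2010, 27990) (by decide +kernel)
                    (CovZ.leaf K2_ok TE_l4111 _)
                    (CovZ.leaf K2_ok TE_l4112 _)))
                  (CovZ.subM 50412973335913829749600288719267931088243811032295356235776 (by decide +kernel)
                   (CovZ.n1 (2040, 27980) (by decide +kernel)
                    (CovZ.n2 (2030, 27970) (by decide +kernel)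
                     (CovZ.n2 (2030, 27980) (by decide +kernel)
                      (CovZ.badM (by decide +kernel))
                      (CovZ.badM (by decide +kernel)))
                     (CovZ.badM (by decide +kernel)))
                    (CovZ.leaf K2_ok TE_l4113 _)))))))
              (CovZ.n1 (1960, 27960) (by decide +kernel)
               (CovZ.n2 (1960, 28000) (by decide +kernel)
                (CovZ.subM 127310917710101281231841070826866851313392425087022156218432 (by decide +kernel)
                 (CovZ.n2 (1980, 27980) (by decide +kernel)
                  (CovZ.n2 (1960, 27980) (by decide +kernel)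
                   (CovZ.leaf K2_ok TE_l4114 _)
                   (CovZ.n1 (1970, 27970) (by decide +kernel)
                    (CovZ.leaf K2_ok TE_l4115 _)
                    (CovZ.leaf K2_ok TE_l4116 _)))
                  (CovZ.n1 (1980, 28000) (by decide +kernel)
                   (CovZ.leaf K2_ok TE_l4117 _)
                   (CovZ.n1 (1970, 27990) (by decide +kernel)
                    (CovZ.leaf K2_ok TE_l4118 _)
                    (CovZ.leaf K2_ok TE_l4119 _)))))
                (CovZ.n1 (1940, 27980) (by decide +kernel)
                 (CovZ.n2 (1940, 28000) (by decide +kernel)
                  (CovZ.leaf K2_ok TE_l4120 _)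
                  (CovZ.leaf K2_ok TE_l4121 _))
                 (CovZ.n1 (1960, 27980) (by decide +kernel)
                  (CovZ.n2 (1950, 27970) (by decide +kernel)
                   (CovZ.leaf K2_ok TE_l4122 _)
                   (CovZ.leaf K2_ok TE_l4123 _))
                  (CovZ.leaf K2_ok TE_l4124 _))))
               (CovZ.subM 127307852718288754033957871621168227964494761680046154317888 (by decide +kernel)
                (CovZ.n1 (2000, 27960) (by decide +kernel)
                 (CovZ.subM 26677682375393396055698581679824166261610437299878873792576 (by decide +kernel)
                  (CovZ.n2 (1980, 27940) (by decide +kernel)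
                   (CovZ.n2 (1980, 27960) (by decide +kernel)
                    (CovZ.badM (by decide +kernel))
                    (CovZ.n1 (1970, 27950) (by decide +kernel)
                     (CovZ.leaf K2_ok TE_l4125 _)
                     (CovZ.badM (by decide +kernel))))
                   (CovZ.badM (by decide +kernel))))
                 (CovZ.n1 (1980, 27980) (by decide +kernel)
                  (CovZ.n2 (2000, 27980) (by decide +kernel)
                   (CovZ.n2 (1990, 27970) (by decide +kernel)
                    (CovZ.leaf K2_ok TE_l4127 _)
                    (CovZ.leaf K2_ok TE_l17349 _))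
                   (CovZ.n1 (1990, 27990) (by decide +kernel)
                    (CovZ.leaf K2_ok TE_l4128 _)
                    (CovZ.leaf K2_ok TE_l4129 _)))
                  (CovZ.n1 (1980, 27960) (by decide +kernel)
                   (CovZ.n2 (1970, 27970) (by decide +kernel)
                    (CovZ.leaf K2_ok TE_l4130 _)
                    (CovZ.leaf K2_ok TE_l4131 _))
                   (CovZ.n1 (1990, 27970) (by decide +kernel)
                    (CovZ.badM (by decide +kernel))
                    (CovZ.leaf K2_ok TE_l4132 _)))))))))))
          (CovZ.n1 (2080, 27680) (by decide +kernel)
           (CovZ.badM (by decide +kernel))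
           (CovZ.n1 (2080, 27840) (by decide +kernel)
            (CovZ.badM (by decide +kernel))
            (CovZ.badM (by decide +kernel))))))

theorem TE_u71 : CovZ TE_M (toL (selN TE_LN 20280132307268184390925804030951429790010920261603667955155526)) [0, 7, 6, 1] (2240, 27840) (2560, 28160) (1920, 28160) :=
    (CovZ.n1 (2240, 28160) (by decide +kernel)
         (CovZ.subM 196974527901878345496426744999019074417826900835171303426 (by decide +kernel)
          (CovZ.n2 (2400, 28000) (by decide +kernel)
           (CovZ.n2 (2240, 28000) (by decide +kernel)
            (CovZ.n2 (2320, 28080) (by decide +kernel)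
             (CovZ.subM 5662298588160564461297967281929871203237890 (by decide +kernel)
              (CovZ.n2 (2320, 28000) (by decide +kernel)
               (CovZ.n2 (2280, 28040) (by decide +kernel)
                (CovZ.n2 (2320, 28040) (by decide +kernel)
                 (CovZ.n2 (2300, 28020) (by decide +kernel)
                  (CovZ.n2 (2300, 28040) (by decide +kernel)
                   (CovZ.badM (by decide +kernel))
                   (CovZ.badM (by decide +kernel)))
                  (CovZ.badM (by decide +kernel)))
                 (CovZ.n1 (2300, 28060) (by decide +kernel)
                  (CovZ.n2 (2320, 28060) (by decide +kernel)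
                   (CovZ.badM (by decide +kernel))
                   (CovZ.n1 (2310, 28070) (by decide +kernel)
                    (CovZ.leaf K2_ok TE_l4133 _)
                    (CovZ.leaf K2_ok TE_l4134 _)))
                  (CovZ.n1 (2300, 28040) (by decide +kernel)
                   (CovZ.badM (by decide +kernel))
                   (CovZ.badM (by decide +kernel)))))
                (CovZ.n1 (2280, 28000) (by decide +kernel)
                 (CovZ.n2 (2260, 28020) (by decide +kernel)
                  (CovZ.badM (by decide +kernel))
                  (CovZ.badM (by decide +kernel)))
                 (CovZ.n1 (2300, 28020) (by decide +kernel)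
                  (CovZ.badM (by decide +kernel))
                  (CovZ.badM (by decide +kernel)))))
               (CovZ.n1 (2360, 28040) (by decide +kernel)
                (CovZ.badM (by decide +kernel))
                (CovZ.n1 (2320, 28040) (by decide +kernel)
                 (CovZ.n2 (2340, 28060) (by decide +kernel)
                  (CovZ.badM (by decide +kernel))
                  (CovZ.n1 (2320, 28060) (by decide +kernel)
                   (CovZ.n2 (2330, 28070) (by decide +kernel)
                    (CovZ.leaf K2_ok TE_l17350 _)
                    (CovZ.leaf K2_ok TE_l4136 _))
                   (CovZ.badM (by decide +kernel))))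
                 (CovZ.badM (by decide +kernel))))))
             (CovZ.n1 (2240, 28080) (by decide +kernel)
              (CovZ.n2 (2280, 28120) (by decide +kernel)
               (CovZ.subM 196925700590816675899960203838071206940202797104531243010 (by decide +kernel)
                (CovZ.n2 (2280, 28080) (by decide +kernel)
                 (CovZ.n2 (2260, 28100) (by decide +kernel)
                  (CovZ.n2 (2280, 28100) (by decide +kernel)
                   (CovZ.n2 (2270, 28090) (by decide +kernel)
                    (CovZ.leaf K2_ok TE_l4137 _)
                    (CovZ.leaf K2_ok TE_l4138 _))
                   (CovZ.leaf K2_ok TE_l4139 _))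
                  (CovZ.n1 (2260, 28080) (by decide +kernel)
                   (CovZ.leaf K2_ok TE_l4140 _)
                   (CovZ.n1 (2270, 28090) (by decide +kernel)
                    (CovZ.leaf K2_ok TE_l4141 _)
                    (CovZ.leaf K2_ok TE_l4142 _))))
                 (CovZ.n1 (2300, 28100) (by decide +kernel)
                  (CovZ.n2 (2300, 28080) (by decide +kernel)
                   (CovZ.leaf K2_ok TE_l4143 _)
                   (CovZ.n1 (2310, 28090) (by decide +kernel)
                    (CovZ.leaf K2_ok TE_l4144 _)
                    (CovZ.leaf K2_ok TE_l4145 _)))
                  (CovZ.n1 (2280, 28100) (by decide +kernel)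
                   (CovZ.n2 (2290, 28110) (by decide +kernel)
                    (CovZ.leaf K2_ok TE_l4146 _)
                    (CovZ.leaf K2_ok TE_l4147 _))
                   (CovZ.leaf K2_ok TE_l4148 _)))))
               (CovZ.n1 (2240, 28120) (by decide +kernel)
                (CovZ.n2 (2260, 28140) (by decide +kernel)
                 (CovZ.leaf K2_ok TE_l4149 _)
                 (CovZ.leaf K2_ok TE_l4150 _))
                (CovZ.n1 (2260, 28100) (by decide +kernel)
                 (CovZ.n2 (2240, 28100) (by decide +kernel)
                  (CovZ.leaf K2_ok TE_l4151 _)
                  (CovZ.leaf K2_ok TE_l4152 _))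
                 (CovZ.leaf K2_ok TE_l4153 _))))
              (CovZ.subM 196925700408128971233596040988395969143760287023457370114 (by decide +kernel)
               (CovZ.n1 (2280, 28040) (by decide +kernel)
                (CovZ.n2 (2240, 28040) (by decide +kernel)
                 (CovZ.n2 (2260, 28060) (by decide +kernel)
                  (CovZ.subM 5444517870735015415413993718908291383298 (by decide +kernel)
                   (CovZ.n2 (2260, 28040) (by decide +kernel)
                    (CovZ.n2 (2250, 28050) (by decide +kernel)
                     (CovZ.leaf K2_ok TE_l17351 _)
                     (CovZ.leaf K2_ok TE_l4154 _))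
                    (CovZ.n1 (2270, 28050) (by decide +kernel)
                     (CovZ.badM (by decide +kernel))
                     (CovZ.leaf K2_ok TE_l17352 _))))
                  (CovZ.n1 (2240, 28060) (by decide +kernel)
                   (CovZ.n2 (2250, 28070) (by decide +kernel)
                    (CovZ.leaf K2_ok TE_l4155 _)
                    (CovZ.leaf K2_ok TE_l4156 _))
                   (CovZ.n1 (2250, 28050) (by decide +kernel)
                    (CovZ.leaf K2_ok TE_l4157 _)
                    (CovZ.leaf K2_ok TE_l4158 _))))
                 (CovZ.subM 5444517870735015415413993718908291383298 (by decide +kernel)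
                  (CovZ.n1 (2260, 28020) (by decide +kernel)
                   (CovZ.n2 (2240, 28020) (by decide +kernel)
                    (CovZ.n2 (2250, 28030) (by decide +kernel)
                     (CovZ.badM (by decide +kernel))
                     (CovZ.leaf K2_ok TE_l17353 _))
                    (CovZ.badM (by decide +kernel)))
                   (CovZ.n1 (2260, 28040) (by decide +kernel)
                    (CovZ.badM (by decide +kernel))
                    (CovZ.n1 (2250, 28030) (by decide +kernel)
                     (CovZ.leaf K2_ok TE_l4159 _)
                     (CovZ.leaf K2_ok TE_l17354 _))))))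
                (CovZ.n1 (2280, 28080) (by decide +kernel)
                 (CovZ.subM 87112288527908675923482446733520117170176 (by decide +kernel)
                  (CovZ.n2 (2300, 28060) (by decide +kernel)
                   (CovZ.n2 (2280, 28060) (by decide +kernel)
                    (CovZ.n2 (2290, 28070) (by decide +kernel)
                     (CovZ.badM (by decide +kernel))
                     (CovZ.leaf K2_ok TE_l4161 _))
                    (CovZ.badM (by decide +kernel)))
                   (CovZ.n1 (2300, 28080) (by decide +kernel)
                    (CovZ.n2 (2310, 28070) (by decide +kernel)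
                     (CovZ.leaf K2_ok TE_l4163 _)
                     (CovZ.leaf K2_ok TE_l4164 _))
                    (CovZ.n1 (2290, 28070) (by decide +kernel)
                     (CovZ.leaf K2_ok TE_l4165 _)
                     (CovZ.leaf K2_ok TE_l4166 _)))))
                 (CovZ.n1 (2260, 28060) (by decide +kernel)
                  (CovZ.n2 (2260, 28080) (by decide +kernel)
                   (CovZ.leaf K2_ok TE_l4167 _)
                   (CovZ.n1 (2250, 28070) (by decide +kernel)
                    (CovZ.leaf K2_ok TE_l4168 _)
                    (CovZ.leaf K2_ok TE_l4169 _)))
                  (CovZ.n1 (2280, 28060) (by decide +kernel)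
                   (CovZ.n2 (2270, 28050) (by decide +kernel)
                    (CovZ.leaf K2_ok TE_l17355 _)
                    (CovZ.badM (by decide +kernel)))
                   (CovZ.leaf K2_ok TE_l4170 _))))))))
            (CovZ.subM 5662298585564416032030553467664623038627842 (by decide +kernel)
             (CovZ.n1 (2320, 27920) (by decide +kernel)
              (CovZ.badM (by decide +kernel))
              (CovZ.n1 (2320, 28000) (by decide +kernel)
               (CovZ.badM (by decide +kernel))
               (CovZ.n1 (2280, 27960) (by decide +kernel)
                (CovZ.n2 (2280, 28000) (by decide +kernel)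
                 (CovZ.badM (by decide +kernel))
                 (CovZ.badM (by decide +kernel)))
                (CovZ.badM (by decide +kernel)))))))
           (CovZ.n1 (2400, 28160) (by decide +kernel)
            TE_u66
            TE_u67)))
         (CovZ.subM 20262686311144886772270859890821101008424927072855385620611138 (by decide +kernel)
          (CovZ.n1 (2080, 28000) (by decide +kernel)
           TE_u68
           TE_u69)))

theorem TE_u72 : CovZ TE_M (toL (selN TE_LN 20264316117241286138196965372154491726875993465661160582807616)) [0, 7, 6, 1] (1920, 28160) (1600, 28160) (1600, 27840) :=
    (CovZ.n2 (1760, 28000) (by decide +kernel)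
           (CovZ.n2 (1600, 28000) (by decide +kernel)
            (CovZ.n2 (1680, 28080) (by decide +kernel)
             (CovZ.n2 (1680, 28000) (by decide +kernel)
              (CovZ.subM 7257903862245627762336302994223405399580126653769401329778688 (by decide +kernel)
               (CovZ.n2 (1640, 28040) (by decide +kernel)
                (CovZ.n2 (1680, 28040) (by decide +kernel)
                 (CovZ.n2 (1660, 28020) (by decide +kernel)
                  (CovZ.leaf K2_ok TE_l4420 _)
                  (CovZ.leaf K2_ok TE_l4421 _))
                 (CovZ.leaf K2_ok TE_l4422 _))
                (CovZ.n1 (1640, 28000) (by decide +kernel)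
                 (CovZ.leaf K2_ok TE_l4423 _)
                 (CovZ.n1 (1660, 28020) (by decide +kernel)
                  (CovZ.leaf K2_ok TE_l4424 _)
                  (CovZ.leaf K2_ok TE_l4425 _)))))
              (CovZ.n1 (1720, 28040) (by decide +kernel)
               (CovZ.n2 (1720, 28000) (by decide +kernel)
                (CovZ.leaf K2_ok TE_l4426 _)
                (CovZ.n1 (1740, 28020) (by decide +kernel)
                 (CovZ.leaf K2_ok TE_l4427 _)
                 (CovZ.leaf K2_ok TE_l4428 _)))
               (CovZ.n1 (1680, 28040) (by decide +kernel)
                (CovZ.n2 (1700, 28060) (by decide +kernel)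
                 (CovZ.leaf K2_ok TE_l4429 _)
                 (CovZ.leaf K2_ok TE_l4430 _))
                (CovZ.leaf K2_ok TE_l4431 _))))
             (CovZ.n1 (1600, 28080) (by decide +kernel)
              (CovZ.n2 (1640, 28120) (by decide +kernel)
               (CovZ.n2 (1640, 28080) (by decide +kernel)
                (CovZ.leaf K2_ok TE_l4432 _)
                (CovZ.leaf K2_ok TE_l4433 _))
               (CovZ.n1 (1600, 28120) (by decide +kernel)
                (CovZ.leaf K2_ok TE_l4434 _)
                (CovZ.leaf K2_ok TE_l4435 _)))
              (CovZ.n1 (1640, 28040) (by decide +kernel)
               (CovZ.n2 (1600, 28040) (by decide +kernel)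
                (CovZ.leaf K2_ok TE_l4436 _)
                (CovZ.leaf K2_ok TE_l4437 _))
               (CovZ.n1 (1640, 28080) (by decide +kernel)
                (CovZ.leaf K2_ok TE_l4438 _)
                (CovZ.leaf K2_ok TE_l4439 _)))))
            (CovZ.subM 830151302085781443696240035272315114564075831303823618473984 (by decide +kernel)
             (CovZ.n1 (1680, 27920) (by decide +kernel)
              (CovZ.n2 (1600, 27920) (by decide +kernel)
               (CovZ.n2 (1640, 27960) (by decide +kernel)
                (CovZ.n2 (1640, 27920) (by decide +kernel)
                 (CovZ.n2 (1620, 27940) (by decide +kernel)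
                  (CovZ.leaf K2_ok TE_l4440 _)
                  (CovZ.leaf K2_ok TE_l4441 _))
                 (CovZ.n1 (1660, 27940) (by decide +kernel)
                  (CovZ.leaf K2_ok TE_l4442 _)
                  (CovZ.leaf K2_ok TE_l4443 _)))
                (CovZ.n1 (1600, 27960) (by decide +kernel)
                 (CovZ.n2 (1620, 27980) (by decide +kernel)
                  (CovZ.leaf K2_ok TE_l4444 _)
                  (CovZ.leaf K2_ok TE_l4445 _))
                 (CovZ.n1 (1620, 27940) (by decide +kernel)
                  (CovZ.leaf K2_ok TE_l4446 _)
                  (CovZ.leaf K2_ok TE_l4447 _))))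
               (CovZ.subM 803469022223031443266865630095821597335595848143948256116736 (by decide +kernel)
                (CovZ.n1 (1640, 27880) (by decide +kernel)
                 (CovZ.n2 (1600, 27880) (by decide +kernel)
                  (CovZ.n2 (1620, 27900) (by decide +kernel)
                   (CovZ.n2 (1620, 27880) (by decide +kernel)
                    (CovZ.leaf K2_ok TE_l4448 _)
                    (CovZ.n1 (1630, 27890) (by decide +kernel)
                     (CovZ.leaf K2_ok TE_l4449 _)
                     (CovZ.leaf K2_ok TE_l4450 _)))
                   (CovZ.n1 (1600, 27900) (by decide +kernel)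
                    (CovZ.leaf K2_ok TE_l4451 _)
                    (CovZ.leaf K2_ok TE_l4452 _)))
                  (CovZ.subM 803469022129495316176942634415566433556301634416064610697216 (by decide +kernel)
                   (CovZ.n1 (1620, 27860) (by decide +kernel)
                    (CovZ.n2 (1600, 27860) (by decide +kernel)
                     (CovZ.n2 (1610, 27870) (by decide +kernel)
                      (CovZ.leaf K2_ok TE_l4453 _)
                      (CovZ.leaf K2_ok TE_l4454 _))
                     (CovZ.n1 (1610, 27850) (by decide +kernel)
                      (CovZ.leaf K2_ok TE_l17366 _)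
                      (CovZ.leaf K2_ok TE_l17367 _)))
                    (CovZ.n1 (1620, 27880) (by decide +kernel)
                     (CovZ.leaf K2_ok TE_l4455 _)
                     (CovZ.n1 (1610, 27870) (by decide +kernel)
                      (CovZ.leaf K2_ok TE_l4456 _)
                      (CovZ.leaf K2_ok TE_l4457 _))))))
                 (CovZ.n1 (1640, 27920) (by decide +kernel)
                  (CovZ.n2 (1660, 27900) (by decide +kernel)
                   (CovZ.n2 (1640, 27900) (by decide +kernel)
                    (CovZ.n2 (1650, 27910) (by decide +kernel)
                     (CovZ.leaf K2_ok TE_l4458 _)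
                     (CovZ.leaf K2_ok TE_l4459 _))
                    (CovZ.n1 (1650, 27890) (by decide +kernel)
                     (CovZ.leaf K2_ok TE_l4460 _)
                     (CovZ.leaf K2_ok TE_l4461 _)))
                   (CovZ.n1 (1660, 27920) (by decide +kernel)
                    (CovZ.leaf K2_ok TE_l4462 _)
                    (CovZ.leaf K2_ok TE_l4463 _)))
                  (CovZ.n1 (1620, 27900) (by decide +kernel)
                   (CovZ.leaf K2_ok TE_l4464 _)
                   (CovZ.n1 (1640, 27900) (by decide +kernel)
                    (CovZ.n2 (1630, 27890) (by decide +kernel)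
                     (CovZ.leaf K2_ok TE_l4465 _)
                     (CovZ.leaf K2_ok TE_l4466 _))
                    (CovZ.leaf K2_ok TE_l4467 _)))))))
              (CovZ.n1 (1680, 28000) (by decide +kernel)
               (CovZ.n2 (1720, 27960) (by decide +kernel)
                (CovZ.n2 (1680, 27960) (by decide +kernel)
                 (CovZ.n2 (1700, 27980) (by decide +kernel)
                  (CovZ.leaf K2_ok TE_l4468 _)
                  (CovZ.leaf K2_ok TE_l4469 _))
                 (CovZ.n1 (1700, 27940) (by decide +kernel)
                  (CovZ.n2 (1680, 27940) (by decide +kernel)
                   (CovZ.leaf K2_ok TE_l4470 _)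
                   (CovZ.leaf K2_ok TE_l4471 _))
                  (CovZ.leaf K2_ok TE_l4472 _)))
                (CovZ.n1 (1720, 28000) (by decide +kernel)
                 (CovZ.n2 (1740, 27980) (by decide +kernel)
                  (CovZ.leaf K2_ok TE_l4473 _)
                  (CovZ.leaf K2_ok TE_l4474 _))
                 (CovZ.n1 (1700, 27980) (by decide +kernel)
                  (CovZ.leaf K2_ok TE_l4475 _)
                  (CovZ.leaf K2_ok TE_l4476 _))))
               (CovZ.n1 (1640, 27960) (by decide +kernel)
                (CovZ.n2 (1640, 28000) (by decide +kernel)
                 (CovZ.n2 (1660, 27980) (by decide +kernel)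
                  (CovZ.leaf K2_ok TE_l4477 _)
                  (CovZ.leaf K2_ok TE_l4478 _))
                 (CovZ.n1 (1620, 27980) (by decide +kernel)
                  (CovZ.leaf K2_ok TE_l4479 _)
                  (CovZ.leaf K2_ok TE_l4480 _)))
                (CovZ.n1 (1680, 27960) (by decide +kernel)
                 (CovZ.n2 (1660, 27940) (by decide +kernel)
                  (CovZ.leaf K2_ok TE_l4481 _)
                  (CovZ.leaf K2_ok TE_l4482 _))
                 (CovZ.n1 (1660, 27980) (by decide +kernel)
                  (CovZ.leaf K2_ok TE_l4483 _)
                  (CovZ.leaf K2_ok TE_l4484 _))))))))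
           (CovZ.n1 (1760, 28160) (by decide +kernel)
            (CovZ.n2 (1840, 28080) (by decide +kernel)
             (CovZ.n2 (1760, 28080) (by decide +kernel)
              (CovZ.n2 (1800, 28120) (by decide +kernel)
               (CovZ.n2 (1800, 28080) (by decide +kernel)
                (CovZ.leaf K2_ok TE_l4485 _)
                (CovZ.leaf K2_ok TE_l4486 _))
               (CovZ.n1 (1760, 28120) (by decide +kernel)
                (CovZ.leaf K2_ok TE_l4487 _)
                (CovZ.leaf K2_ok TE_l4488 _)))
              (CovZ.n1 (1800, 28040) (by decide +kernel)
               (CovZ.n2 (1760, 28040) (by decide +kernel)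
                (CovZ.n2 (1780, 28060) (by decide +kernel)
                 (CovZ.leaf K2_ok TE_l4489 _)
                 (CovZ.leaf K2_ok TE_l4490 _))
                (CovZ.leaf K2_ok TE_l4491 _))
               (CovZ.n1 (1800, 28080) (by decide +kernel)
                (CovZ.leaf K2_ok TE_l4492 _)
                (CovZ.n1 (1780, 28060) (by decide +kernel)
                 (CovZ.leaf K2_ok TE_l4493 _)
                 (CovZ.leaf K2_ok TE_l4494 _)))))
             (CovZ.n1 (1840, 28160) (by decide +kernel)
              (CovZ.n2 (1880, 28120) (by decide +kernel)
               (CovZ.n2 (1840, 28120) (by decide +kernel)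
                (CovZ.leaf K2_ok TE_l4495 _)
                (CovZ.leaf K2_ok TE_l4496 _))
               (CovZ.n1 (1880, 28160) (by decide +kernel)
                (CovZ.leaf K2_ok TE_l4497 _)
                (CovZ.leaf K2_ok TE_l4498 _)))
              (CovZ.n1 (1800, 28120) (by decide +kernel)
               (CovZ.n2 (1800, 28160) (by decide +kernel)
                (CovZ.leaf K2_ok TE_l4499 _)
                (CovZ.leaf K2_ok TE_l4500 _))
               (CovZ.n1 (1840, 28120) (by decide +kernel)
                (CovZ.n2 (1820, 28100) (by decide +kernel)
                 (CovZ.leaf K2_ok TE_l4501 _)
                 (CovZ.leaf K2_ok TE_l4502 _))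
                (CovZ.leaf K2_ok TE_l4503 _)))))
            (CovZ.n1 (1680, 28080) (by decide +kernel)
             (CovZ.n2 (1680, 28160) (by decide +kernel)
              (CovZ.n2 (1720, 28120) (by decide +kernel)
               (CovZ.n2 (1680, 28120) (by decide +kernel)
                (CovZ.leaf K2_ok TE_l4504 _)
                (CovZ.leaf K2_ok TE_l4505 _))
               (CovZ.n1 (1720, 28160) (by decide +kernel)
                (CovZ.leaf K2_ok TE_l4506 _)
                (CovZ.leaf K2_ok TE_l4507 _)))
              (CovZ.n1 (1640, 28120) (by decide +kernel)
               (CovZ.n2 (1640, 28160) (by decide +kernel)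
                (CovZ.leaf K2_ok TE_l4508 _)
                (CovZ.leaf K2_ok TE_l4509 _))
               (CovZ.n1 (1680, 28120) (by decide +kernel)
                (CovZ.leaf K2_ok TE_l4510 _)
                (CovZ.leaf K2_ok TE_l4511 _))))
             (CovZ.n1 (1760, 28080) (by decide +kernel)
              (CovZ.n2 (1720, 28040) (by decide +kernel)
               (CovZ.n2 (1720, 28080) (by decide +kernel)
                (CovZ.leaf K2_ok TE_l4512 _)
                (CovZ.n1 (1700, 28060) (by decide +kernel)
                 (CovZ.leaf K2_ok TE_l4513 _)
                 (CovZ.leaf K2_ok TE_l4514 _)))
               (CovZ.n1 (1760, 28040) (by decide +kernel)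
                (CovZ.n2 (1740, 28020) (by decide +kernel)
                 (CovZ.leaf K2_ok TE_l4515 _)
                 (CovZ.leaf K2_ok TE_l4516 _))
                (CovZ.leaf K2_ok TE_l4517 _)))
              (CovZ.n1 (1720, 28120) (by decide +kernel)
               (CovZ.n2 (1760, 28120) (by decide +kernel)
                (CovZ.n2 (1740, 28100) (by decide +kernel)
                 (CovZ.leaf K2_ok TE_l4518 _)
                 (CovZ.leaf K2_ok TE_l4519 _))
                (CovZ.leaf K2_ok TE_l4520 _))
               (CovZ.n1 (1720, 28080) (by decide +kernel)
                (CovZ.leaf K2_ok TE_l4521 _)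
                (CovZ.leaf K2_ok TE_l4522 _)))))))

theorem TE_u73 : CovZ TE_M (toL (selN TE_LN 20264316117241286138196965372154491726875993465661160582807616)) [0, 7, 6, 1] (1600, 28160) (1280, 28160) (1600, 27840) :=
    (CovZ.n1 (1440, 28000) (by decide +kernel)
           (CovZ.n2 (1440, 28160) (by decide +kernel)
            (CovZ.n2 (1520, 28080) (by decide +kernel)
             (CovZ.subM 25162427503633274274466483446236316109117751057789772365824 (by decide +kernel)
              (CovZ.n2 (1440, 28080) (by decide +kernel)
               (CovZ.n2 (1480, 28120) (by decide +kernel)
                (CovZ.leaf K2_ok TE_l4523 _)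
                (CovZ.leaf K2_ok TE_l4524 _))
               (CovZ.n1 (1480, 28040) (by decide +kernel)
                (CovZ.n2 (1440, 28040) (by decide +kernel)
                 (CovZ.leaf K2_ok TE_l4525 _)
                 (CovZ.leaf K2_ok TE_l4526 _))
                (CovZ.leaf K2_ok TE_l4527 _))))
             (CovZ.n1 (1520, 28160) (by decide +kernel)
              (CovZ.n2 (1560, 28120) (by decide +kernel)
               (CovZ.leaf K2_ok TE_l4528 _)
               (CovZ.leaf K2_ok TE_l4529 _))
              (CovZ.n1 (1480, 28120) (by decide +kernel)
               (CovZ.leaf K2_ok TE_l4530 _)
               (CovZ.leaf K2_ok TE_l4531 _))))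
            (CovZ.n1 (1360, 28080) (by decide +kernel)
             (CovZ.n2 (1360, 28160) (by decide +kernel)
              (CovZ.n2 (1400, 28120) (by decide +kernel)
               (CovZ.leaf K2_ok TE_l4532 _)
               (CovZ.leaf K2_ok TE_l4533 _))
              (CovZ.n1 (1320, 28120) (by decide +kernel)
               (CovZ.leaf K2_ok TE_l4534 _)
               (CovZ.leaf K2_ok TE_l4535 _)))
             (CovZ.n1 (1440, 28080) (by decide +kernel)
              (CovZ.n2 (1400, 28040) (by decide +kernel)
               (CovZ.leaf K2_ok TE_l4536 _)
               (CovZ.n1 (1440, 28040) (by decide +kernel)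
                (CovZ.leaf K2_ok TE_l4537 _)
                (CovZ.leaf K2_ok TE_l4538 _)))
              (CovZ.n1 (1400, 28120) (by decide +kernel)
               (CovZ.leaf K2_ok TE_l4539 _)
               (CovZ.leaf K2_ok TE_l4540 _)))))
           (CovZ.n1 (1600, 28000) (by decide +kernel)
            (CovZ.subM 828628001518160750171669866461843317454269164938326471344128 (by decide +kernel)
             (CovZ.n2 (1520, 27920) (by decide +kernel)
              (CovZ.n2 (1520, 28000) (by decide +kernel)
               (CovZ.n2 (1560, 27960) (by decide +kernel)
                (CovZ.n2 (1520, 27960) (by decide +kernel)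
                 (CovZ.n2 (1540, 27980) (by decide +kernel)
                  (CovZ.leaf K2_ok TE_l4541 _)
                  (CovZ.leaf K2_ok TE_l4542 _))
                 (CovZ.n1 (1540, 27940) (by decide +kernel)
                  (CovZ.leaf K2_ok TE_l4543 _)
                  (CovZ.leaf K2_ok TE_l4544 _)))
                (CovZ.n1 (1560, 28000) (by decide +kernel)
                 (CovZ.leaf K2_ok TE_l4545 _)
                 (CovZ.n1 (1540, 27980) (by decide +kernel)
                  (CovZ.leaf K2_ok TE_l4546 _)
                  (CovZ.leaf K2_ok TE_l4547 _))))
               (CovZ.n1 (1480, 27960) (by decide +kernel)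
                (CovZ.n2 (1480, 28000) (by decide +kernel)
                 (CovZ.leaf K2_ok TE_l4548 _)
                 (CovZ.leaf K2_ok TE_l4549 _))
                (CovZ.n1 (1520, 27960) (by decide +kernel)
                 (CovZ.n2 (1500, 27940) (by decide +kernel)
                  (CovZ.leaf K2_ok TE_l4550 _)
                  (CovZ.leaf K2_ok TE_l4551 _))
                 (CovZ.leaf K2_ok TE_l4552 _))))
              (CovZ.n1 (1600, 27920) (by decide +kernel)
               (CovZ.subM 803470554718572665967647164932977468541300366939240878047232 (by decide +kernel)
                (CovZ.n2 (1560, 27880) (by decide +kernel)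
                 (CovZ.n2 (1560, 27920) (by decide +kernel)
                  (CovZ.n2 (1580, 27900) (by decide +kernel)
                   (CovZ.leaf K2_ok TE_l4553 _)
                   (CovZ.leaf K2_ok TE_l4554 _))
                  (CovZ.n1 (1540, 27900) (by decide +kernel)
                   (CovZ.leaf K2_ok TE_l4555 _)
                   (CovZ.leaf K2_ok TE_l4556 _)))
                 (CovZ.n1 (1600, 27880) (by decide +kernel)
                  (CovZ.subM 803469022129495316176942634415566433556292411044027755921408 (by decide +kernel)
                   (CovZ.n2 (1580, 27860) (by decide +kernel)
                    (CovZ.n2 (1580, 27880) (by decide +kernel)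
                     (CovZ.leaf K2_ok TE_l4557 _)
                     (CovZ.n1 (1570, 27870) (by decide +kernel)
                      (CovZ.leaf K2_ok TE_l4558 _)
                      (CovZ.leaf K2_ok TE_l4559 _)))
                    (CovZ.n1 (1600, 27860) (by decide +kernel)
                     (CovZ.n2 (1590, 27850) (by decide +kernel)
                      (CovZ.leaf K2_ok TE_l4560 _)
                      (CovZ.leaf K2_ok TE_l17368 _))
                     (CovZ.leaf K2_ok TE_l4561 _))))
                  (CovZ.subM 93536305495884583925240296074494351252551838466048 (by decide +kernel)
                   (CovZ.n1 (1580, 27900) (by decide +kernel)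
                    (CovZ.n2 (1600, 27900) (by decide +kernel)
                     (CovZ.leaf K2_ok TE_l4562 _)
                     (CovZ.leaf K2_ok TE_l4563 _))
                    (CovZ.n1 (1580, 27880) (by decide +kernel)
                     (CovZ.leaf K2_ok TE_l4564 _)
                     (CovZ.leaf K2_ok TE_l4565 _)))))))
               (CovZ.n1 (1560, 27960) (by decide +kernel)
                (CovZ.n2 (1600, 27960) (by decide +kernel)
                 (CovZ.n2 (1580, 27940) (by decide +kernel)
                  (CovZ.leaf K2_ok TE_l4566 _)
                  (CovZ.leaf K2_ok TE_l4567 _))
                 (CovZ.leaf K2_ok TE_l4568 _))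
                (CovZ.n1 (1560, 27920) (by decide +kernel)
                 (CovZ.n2 (1540, 27940) (by decide +kernel)
                  (CovZ.leaf K2_ok TE_l4569 _)
                  (CovZ.leaf K2_ok TE_l4570 _))
                 (CovZ.n1 (1580, 27940) (by decide +kernel)
                  (CovZ.leaf K2_ok TE_l4571 _)
                  (CovZ.leaf K2_ok TE_l4572 _)))))))
            (CovZ.n1 (1520, 28080) (by decide +kernel)
             (CovZ.n2 (1600, 28080) (by decide +kernel)
              (CovZ.subM 26731319813594014369364485644263089135806546793034915250176 (by decide +kernel)
               (CovZ.n2 (1560, 28040) (by decide +kernel)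
                (CovZ.n2 (1560, 28080) (by decide +kernel)
                 (CovZ.leaf K2_ok TE_l4573 _)
                 (CovZ.leaf K2_ok TE_l4574 _))
                (CovZ.n1 (1600, 28040) (by decide +kernel)
                 (CovZ.n2 (1580, 28020) (by decide +kernel)
                  (CovZ.leaf K2_ok TE_l4575 _)
                  (CovZ.leaf K2_ok TE_l4576 _))
                 (CovZ.leaf K2_ok TE_l4577 _))))
              (CovZ.n1 (1560, 28120) (by decide +kernel)
               (CovZ.leaf K2_ok TE_l4578 _)
               (CovZ.n1 (1560, 28080) (by decide +kernel)
                (CovZ.leaf K2_ok TE_l4579 _)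
                (CovZ.leaf K2_ok TE_l4580 _))))
             (CovZ.subM 25158979388665612400688820296332657279706813321050457112576 (by decide +kernel)
              (CovZ.n1 (1520, 28000) (by decide +kernel)
               (CovZ.n2 (1480, 28040) (by decide +kernel)
                (CovZ.n2 (1520, 28040) (by decide +kernel)
                 (CovZ.leaf K2_ok TE_l4581 _)
                 (CovZ.leaf K2_ok TE_l4582 _))
                (CovZ.n1 (1480, 28000) (by decide +kernel)
                 (CovZ.leaf K2_ok TE_l4583 _)
                 (CovZ.leaf K2_ok TE_l4584 _)))
               (CovZ.n1 (1560, 28040) (by decide +kernel)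
                (CovZ.n2 (1560, 28000) (by decide +kernel)
                 (CovZ.leaf K2_ok TE_l4585 _)
                 (CovZ.leaf K2_ok TE_l4586 _))
                (CovZ.n1 (1520, 28040) (by decide +kernel)
                 (CovZ.leaf K2_ok TE_l4587 _)
                 (CovZ.leaf K2_ok TE_l4588 _))))))))

theorem TE_u74 : CovZ TE_M (toL (selN TE_LN 20264254817431342712913770549782680451195722668195820362268736)) [0, 7, 6, 1] (1600, 27840) (1760, 27840) (1760, 28000) :=
    (CovZ.n2 (1680, 27920) (by decide +kernel)
             (CovZ.n2 (1760, 27920) (by decide +kernel)
              (CovZ.subM 803469022223031420966120431565195979919799004735036951887872 (by decide +kernel)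
               (CovZ.n2 (1720, 27880) (by decide +kernel)
                (CovZ.n2 (1720, 27920) (by decide +kernel)
                 (CovZ.n2 (1740, 27900) (by decide +kernel)
                  (CovZ.n2 (1720, 27900) (by decide +kernel)
                   (CovZ.n2 (1730, 27910) (by decide +kernel)
                    (CovZ.leaf K2_ok TE_l4672 _)
                    (CovZ.leaf K2_ok TE_l4673 _))
                   (CovZ.n1 (1730, 27890) (by decide +kernel)
                    (CovZ.leaf K2_ok TE_l4674 _)
                    (CovZ.leaf K2_ok TE_l4675 _)))
                  (CovZ.n1 (1740, 27920) (by decide +kernel)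
                   (CovZ.n2 (1750, 27910) (by decide +kernel)
                    (CovZ.leaf K2_ok TE_l4676 _)
                    (CovZ.leaf K2_ok TE_l4677 _))
                   (CovZ.n1 (1730, 27910) (by decide +kernel)
                    (CovZ.leaf K2_ok TE_l4678 _)
                    (CovZ.leaf K2_ok TE_l4679 _))))
                 (CovZ.n1 (1700, 27900) (by decide +kernel)
                  (CovZ.n2 (1700, 27920) (by decide +kernel)
                   (CovZ.leaf K2_ok TE_l4680 _)
                   (CovZ.leaf K2_ok TE_l4681 _))
                  (CovZ.n1 (1720, 27900) (by decide +kernel)
                   (CovZ.n2 (1710, 27890) (by decide +kernel)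
                    (CovZ.leaf K2_ok TE_l4682 _)
                    (CovZ.leaf K2_ok TE_l4683 _))
                   (CovZ.leaf K2_ok TE_l4684 _))))
                (CovZ.subM 93536104789177786765035829303296069595755827953664 (by decide +kernel)
                 (CovZ.n1 (1760, 27880) (by decide +kernel)
                  (CovZ.badM (by decide +kernel))
                  (CovZ.n1 (1740, 27900) (by decide +kernel)
                   (CovZ.n2 (1760, 27900) (by decide +kernel)
                    (CovZ.n2 (1750, 27890) (by decide +kernel)
                     (CovZ.leaf K2_ok TE_l4686 _)
                     (CovZ.badM (by decide +kernel)))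
                    (CovZ.n1 (1750, 27910) (by decide +kernel)
                     (CovZ.leaf K2_ok TE_l4688 _)
                     (CovZ.leaf K2_ok TE_l4689 _)))
                   (CovZ.n1 (1740, 27880) (by decide +kernel)
                    (CovZ.n2 (1730, 27890) (by decide +kernel)
                     (CovZ.leaf K2_ok TE_l4690 _)
                     (CovZ.badM (by decide +kernel)))
                    (CovZ.n1 (1750, 27890) (by decide +kernel)
                     (CovZ.badM (by decide +kernel))
                     (CovZ.leaf K2_ok TE_l4692 _))))))))
              (CovZ.n1 (1720, 27960) (by decide +kernel)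
               (CovZ.n2 (1760, 27960) (by decide +kernel)
                (CovZ.subM 830148237094699711918523317274799081841999471879410574950400 (by decide +kernel)
                 (CovZ.n2 (1740, 27940) (by decide +kernel)
                  (CovZ.n2 (1740, 27960) (by decide +kernel)
                   (CovZ.leaf K2_ok TE_l4693 _)
                   (CovZ.leaf K2_ok TE_l4694 _))
                  (CovZ.n1 (1760, 27940) (by decide +kernel)
                   (CovZ.n2 (1750, 27930) (by decide +kernel)
                    (CovZ.leaf K2_ok TE_l4695 _)
                    (CovZ.leaf K2_ok TE_l4696 _))
                   (CovZ.leaf K2_ok TE_l4697 _))))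
                (CovZ.n1 (1740, 27980) (by decide +kernel)
                 (CovZ.leaf K2_ok TE_l4698 _)
                 (CovZ.leaf K2_ok TE_l4699 _)))
               (CovZ.subM 830148237094699711918480781978933925848440322385348013326336 (by decide +kernel)
                (CovZ.n1 (1720, 27920) (by decide +kernel)
                 (CovZ.n2 (1700, 27940) (by decide +kernel)
                  (CovZ.n2 (1720, 27940) (by decide +kernel)
                   (CovZ.n2 (1710, 27930) (by decide +kernel)
                    (CovZ.leaf K2_ok TE_l4700 _)
                    (CovZ.leaf K2_ok TE_l4701 _))
                   (CovZ.leaf K2_ok TE_l4702 _))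
                  (CovZ.n1 (1700, 27920) (by decide +kernel)
                   (CovZ.leaf K2_ok TE_l4703 _)
                   (CovZ.leaf K2_ok TE_l4704 _)))
                 (CovZ.n1 (1740, 27940) (by decide +kernel)
                  (CovZ.n2 (1740, 27920) (by decide +kernel)
                   (CovZ.leaf K2_ok TE_l4705 _)
                   (CovZ.n1 (1750, 27930) (by decide +kernel)
                    (CovZ.leaf K2_ok TE_l4706 _)
                    (CovZ.leaf K2_ok TE_l4707 _)))
                  (CovZ.n1 (1720, 27940) (by decide +kernel)
                   (CovZ.leaf K2_ok TE_l4708 _)
                   (CovZ.leaf K2_ok TE_l4709 _)))))))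
             (CovZ.subM 803469022223031420966120431565195979919799004735036951887872 (by decide +kernel)
              (CovZ.n1 (1680, 27840) (by decide +kernel)
               (CovZ.n2 (1640, 27880) (by decide +kernel)
                (CovZ.n2 (1680, 27880) (by decide +kernel)
                 (CovZ.subM 178405961588244985132295200137524668193046528 (by decide +kernel)
                  (CovZ.n2 (1660, 27860) (by decide +kernel)
                   (CovZ.n2 (1660, 27880) (by decide +kernel)
                    (CovZ.n2 (1670, 27870) (by decide +kernel)
                     (CovZ.leaf K2_ok TE_l4710 _)
                     (CovZ.leaf K2_ok TE_l4711 _))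
                    (CovZ.n1 (1650, 27870) (by decide +kernel)
                     (CovZ.leaf K2_ok TE_l4712 _)
                     (CovZ.leaf K2_ok TE_l4713 _)))
                   (CovZ.n1 (1680, 27860) (by decide +kernel)
                    (CovZ.badM (by decide +kernel))
                    (CovZ.n1 (1670, 27870) (by decide +kernel)
                     (CovZ.leaf K2_ok TE_l17374 _)
                     (CovZ.badM (by decide +kernel))))))
                 (CovZ.n1 (1660, 27900) (by decide +kernel)
                  (CovZ.n2 (1680, 27900) (by decide +kernel)
                   (CovZ.n2 (1670, 27890) (by decide +kernel)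
                    (CovZ.leaf K2_ok TE_l4714 _)
                    (CovZ.leaf K2_ok TE_l4715 _))
                   (CovZ.leaf K2_ok TE_l4716 _))
                  (CovZ.n1 (1660, 27880) (by decide +kernel)
                   (CovZ.leaf K2_ok TE_l4717 _)
                   (CovZ.n1 (1670, 27890) (by decide +kernel)
                    (CovZ.leaf K2_ok TE_l4718 _)
                    (CovZ.leaf K2_ok TE_l4719 _)))))
                (CovZ.subM 178405961588244985132295200137524668193046528 (by decide +kernel)
                 (CovZ.n1 (1640, 27840) (by decide +kernel)
                  (CovZ.n2 (1620, 27860) (by decide +kernel)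
                   (CovZ.n2 (1640, 27860) (by decide +kernel)
                    (CovZ.n2 (1630, 27850) (by decide +kernel)
                     (CovZ.leaf K2_ok TE_l19610 _)
                     (CovZ.badM (by decide +kernel)))
                    (CovZ.leaf K2_ok TE_l4720 _))
                   (CovZ.n1 (1620, 27840) (by decide +kernel)
                    (CovZ.leaf K2_ok TE_l19611 _)
                    (CovZ.n1 (1630, 27850) (by decide +kernel)
                     (CovZ.badM (by decide +kernel))
                     (CovZ.leaf K2_ok TE_l19612 _))))
                  (CovZ.n1 (1660, 27860) (by decide +kernel)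
                   (CovZ.badM (by decide +kernel))
                   (CovZ.n1 (1640, 27860) (by decide +kernel)
                    (CovZ.n2 (1650, 27870) (by decide +kernel)
                     (CovZ.leaf K2_ok TE_l17375 _)
                     (CovZ.leaf K2_ok TE_l4721 _))
                    (CovZ.badM (by decide +kernel)))))))
               (CovZ.n1 (1720, 27880) (by decide +kernel)
                (CovZ.badM (by decide +kernel))
                (CovZ.n1 (1680, 27880) (by decide +kernel)
                 (CovZ.n2 (1700, 27900) (by decide +kernel)
                  (CovZ.n2 (1700, 27880) (by decide +kernel)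
                   (CovZ.leaf K2_ok TE_l4724 _)
                   (CovZ.n1 (1710, 27890) (by decide +kernel)
                    (CovZ.leaf K2_ok TE_l4725 _)
                    (CovZ.leaf K2_ok TE_l4726 _)))
                  (CovZ.n1 (1680, 27900) (by decide +kernel)
                   (CovZ.n2 (1690, 27910) (by decide +kernel)
                    (CovZ.leaf K2_ok TE_l4727 _)
                    (CovZ.leaf K2_ok TE_l4728 _))
                   (CovZ.leaf K2_ok TE_l4729 _)))
                 (CovZ.subM 9223372036854775808 (by decide +kernel)
                  (CovZ.n1 (1700, 27860) (by decide +kernel)
                   (CovZ.n2 (1680, 27860) (by decide +kernel)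
                    (CovZ.n2 (1690, 27870) (by decide +kernel)
                     (CovZ.badM (by decide +kernel))
                     (CovZ.leaf K2_ok TE_l17376 _))
                    (CovZ.badM (by decide +kernel)))
                   (CovZ.n1 (1700, 27880) (by decide +kernel)
                    (CovZ.badM (by decide +kernel))
                    (CovZ.n1 (1690, 27870) (by decide +kernel)
                     (CovZ.leaf K2_ok TE_l17377 _)
                     (CovZ.badM (by decide +kernel)))))))))))

theorem TE_u75 : CovZ TE_M (toL (selN TE_LN 20264254817431342712913770549782680451195722668195820362268736)) [0, 7, 6, 1] (1760, 27840) (1920, 27840) (1760, 28000) :=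
    (CovZ.n1 (1840, 27920) (by decide +kernel)
             (CovZ.subM 196159452797547675830677975509657503053262299591413334016 (by decide +kernel)
              (CovZ.n2 (1840, 27840) (by decide +kernel)
               (CovZ.badM (by decide +kernel))
               (CovZ.n1 (1880, 27880) (by decide +kernel)
                (CovZ.badM (by decide +kernel))
                (CovZ.n1 (1840, 27880) (by decide +kernel)
                 (CovZ.n2 (1860, 27900) (by decide +kernel)
                  (CovZ.badM (by decide +kernel))
                  (CovZ.badM (by decide +kernel)))
                 (CovZ.badM (by decide +kernel))))))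
             (CovZ.n1 (1760, 27920) (by decide +kernel)
              (CovZ.n2 (1800, 27960) (by decide +kernel)
               (CovZ.subM 26679214976896408840227907508323856646281306530224285941760 (by decide +kernel)
                (CovZ.n2 (1800, 27920) (by decide +kernel)
                 (CovZ.n2 (1780, 27940) (by decide +kernel)
                  (CovZ.n2 (1800, 27940) (by decide +kernel)
                   (CovZ.n2 (1790, 27930) (by decide +kernel)
                    (CovZ.leaf K2_ok TE_l4731 _)
                    (CovZ.leaf K2_ok TE_l4732 _))
                   (CovZ.leaf K2_ok TE_l4733 _))
                  (CovZ.n1 (1780, 27920) (by decide +kernel)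
                   (CovZ.leaf K2_ok TE_l4734 _)
                   (CovZ.n1 (1790, 27930) (by decide +kernel)
                    (CovZ.leaf K2_ok TE_l4735 _)
                    (CovZ.leaf K2_ok TE_l4736 _))))
                 (CovZ.n1 (1820, 27940) (by decide +kernel)
                  (CovZ.n2 (1820, 27920) (by decide +kernel)
                   (CovZ.n2 (1810, 27930) (by decide +kernel)
                    (CovZ.leaf K2_ok TE_l4737 _)
                    (CovZ.leaf K2_ok TE_l4738 _))
                   (CovZ.n1 (1830, 27930) (by decide +kernel)
                    (CovZ.leaf K2_ok TE_l4739 _)
                    (CovZ.leaf K2_ok TE_l4740 _)))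
                  (CovZ.n1 (1800, 27940) (by decide +kernel)
                   (CovZ.n2 (1810, 27950) (by decide +kernel)
                    (CovZ.leaf K2_ok TE_l4741 _)
                    (CovZ.leaf K2_ok TE_l4742 _))
                   (CovZ.n1 (1810, 27930) (by decide +kernel)
                    (CovZ.leaf K2_ok TE_l4743 _)
                    (CovZ.leaf K2_ok TE_l4744 _))))))
               (CovZ.n1 (1760, 27960) (by decide +kernel)
                (CovZ.n2 (1780, 27980) (by decide +kernel)
                 (CovZ.leaf K2_ok TE_l4745 _)
                 (CovZ.leaf K2_ok TE_l4746 _))
                (CovZ.subM 26679214965204395741580684162694377979828675890107180384256 (by decide +kernel)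
                 (CovZ.n1 (1780, 27940) (by decide +kernel)
                  (CovZ.n2 (1760, 27940) (by decide +kernel)
                   (CovZ.leaf K2_ok TE_l4747 _)
                   (CovZ.leaf K2_ok TE_l4748 _))
                  (CovZ.n1 (1780, 27960) (by decide +kernel)
                   (CovZ.leaf K2_ok TE_l4749 _)
                   (CovZ.leaf K2_ok TE_l4750 _))))))
              (CovZ.subM 105228117887825010110982220619805757586247109312512 (by decide +kernel)
               (CovZ.n1 (1800, 27880) (by decide +kernel)
                (CovZ.n2 (1760, 27880) (by decide +kernel)
                 (CovZ.n2 (1780, 27900) (by decide +kernel)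
                  (CovZ.n2 (1780, 27880) (by decide +kernel)
                   (CovZ.badM (by decide +kernel))
                   (CovZ.n1 (1790, 27890) (by decide +kernel)
                    (CovZ.badM (by decide +kernel))
                    (CovZ.badM (by decide +kernel))))
                  (CovZ.n1 (1760, 27900) (by decide +kernel)
                   (CovZ.n2 (1770, 27910) (by decide +kernel)
                    (CovZ.leaf K2_ok TE_l4751 _)
                    (CovZ.leaf K2_ok TE_l4752 _))
                   (CovZ.badM (by decide +kernel))))
                 (CovZ.n1 (1780, 27860) (by decide +kernel)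
                  (CovZ.badM (by decide +kernel))
                  (CovZ.n1 (1780, 27880) (by decide +kernel)
                   (CovZ.badM (by decide +kernel))
                   (CovZ.badM (by decide +kernel)))))
                (CovZ.n1 (1800, 27920) (by decide +kernel)
                 (CovZ.n2 (1820, 27900) (by decide +kernel)
                  (CovZ.n2 (1800, 27900) (by decide +kernel)
                   (CovZ.n2 (1810, 27910) (by decide +kernel)
                    (CovZ.badM (by decide +kernel))
                    (CovZ.leaf K2_ok TE_l4756 _))
                   (CovZ.badM (by decide +kernel)))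
                  (CovZ.n1 (1820, 27920) (by decide +kernel)
                   (CovZ.n2 (1830, 27910) (by decide +kernel)
                    (CovZ.leaf K2_ok TE_l4757 _)
                    (CovZ.leaf K2_ok TE_l4758 _))
                   (CovZ.n1 (1810, 27910) (by decide +kernel)
                    (CovZ.leaf K2_ok TE_l4759 _)
                    (CovZ.leaf K2_ok TE_l4760 _))))
                 (CovZ.n1 (1780, 27900) (by decide +kernel)
                  (CovZ.n2 (1780, 27920) (by decide +kernel)
                   (CovZ.leaf K2_ok TE_l4761 _)
                   (CovZ.n1 (1770, 27910) (by decide +kernel)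
                    (CovZ.leaf K2_ok TE_l4762 _)
                    (CovZ.leaf K2_ok TE_l4763 _)))
                  (CovZ.subM 11692013098647223345946391311796544879658490920960 (by decide +kernel)
                   (CovZ.n1 (1800, 27900) (by decide +kernel)
                    (CovZ.n2 (1790, 27890) (by decide +kernel)
                     (CovZ.badM (by decide +kernel))
                     (CovZ.badM (by decide +kernel)))
                    (CovZ.n1 (1790, 27910) (by decide +kernel)
                     (CovZ.leaf K2_ok TE_l4764 _)
                     (CovZ.leaf K2_ok TE_l4765 _))))))))))

theorem TE_u76 : CovZ TE_M (toL (selN TE_LN 25171239352993342338382857540398356084446002233631083331588)) [0, 7, 6, 1] (640, 27520) (960, 27840) (640, 28160) :=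
    (CovZ.n2 (640, 27840) (by decide +kernel)
          (CovZ.n2 (800, 28000) (by decide +kernel)
           (CovZ.subM 25122199402146451602889549250047861081366068893627684225024 (by decide +kernel)
            (CovZ.n2 (800, 27840) (by decide +kernel)
             (CovZ.n2 (720, 27920) (by decide +kernel)
              (CovZ.n2 (800, 27920) (by decide +kernel)
               (CovZ.n2 (760, 27880) (by decide +kernel)
                (CovZ.leaf K2_ok TE_l4766 _)
                (CovZ.leaf K2_ok TE_l4767 _))
               (CovZ.n1 (760, 27960) (by decide +kernel)
                (CovZ.leaf K2_ok TE_l4768 _)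
                (CovZ.leaf K2_ok TE_l4769 _)))
              (CovZ.subM 1532495542050615951028355124167387798155412101025234944 (by decide +kernel)
               (CovZ.n1 (720, 27840) (by decide +kernel)
                (CovZ.n2 (680, 27880) (by decide +kernel)
                 (CovZ.leaf K2_ok TE_l4770 _)
                 (CovZ.leaf K2_ok TE_l4771 _))
                (CovZ.n1 (760, 27880) (by decide +kernel)
                 (CovZ.leaf K2_ok TE_l4772 _)
                 (CovZ.leaf K2_ok TE_l4773 _)))))
             (CovZ.n1 (880, 27920) (by decide +kernel)
              (CovZ.subM 1532495541958626057649150145585479887038959672604229632 (by decide +kernel)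
               (CovZ.n2 (880, 27840) (by decide +kernel)
                (CovZ.n2 (840, 27880) (by decide +kernel)
                 (CovZ.leaf K2_ok TE_l4774 _)
                 (CovZ.n1 (840, 27840) (by decide +kernel)
                  (CovZ.leaf K2_ok TE_l4775 _)
                  (CovZ.leaf K2_ok TE_l4776 _)))
                (CovZ.n1 (920, 27880) (by decide +kernel)
                 (CovZ.n2 (920, 27840) (by decide +kernel)
                  (CovZ.leaf K2_ok TE_l4777 _)
                  (CovZ.leaf K2_ok TE_l4778 _))
                 (CovZ.n1 (880, 27880) (by decide +kernel)
                  (CovZ.leaf K2_ok TE_l4779 _)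
                  (CovZ.leaf K2_ok TE_l4780 _)))))
              (CovZ.n1 (800, 27920) (by decide +kernel)
               (CovZ.n2 (840, 27960) (by decide +kernel)
                (CovZ.leaf K2_ok TE_l4781 _)
                (CovZ.leaf K2_ok TE_l4782 _))
               (CovZ.n1 (840, 27880) (by decide +kernel)
                (CovZ.n2 (800, 27880) (by decide +kernel)
                 (CovZ.leaf K2_ok TE_l4783 _)
                 (CovZ.leaf K2_ok TE_l4784 _))
                (CovZ.leaf K2_ok TE_l4785 _))))))
           (CovZ.n1 (640, 28000) (by decide +kernel)
            (CovZ.n2 (720, 28080) (by decide +kernel)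
             (CovZ.n2 (720, 28000) (by decide +kernel)
              (CovZ.leaf K2_ok TE_l4786 _)
              (CovZ.n1 (760, 28040) (by decide +kernel)
               (CovZ.leaf K2_ok TE_l4787 _)
               (CovZ.leaf K2_ok TE_l4788 _)))
             (CovZ.n1 (640, 28080) (by decide +kernel)
              (CovZ.leaf K2_ok TE_l4789 _)
              (CovZ.leaf K2_ok TE_l4790 _)))
            (CovZ.n1 (720, 27920) (by decide +kernel)
             (CovZ.subM 25122199402146451602209005285392180353728986157349020368896 (by decide +kernel)
              (CovZ.n2 (640, 27920) (by decide +kernel)
               (CovZ.n2 (680, 27960) (by decide +kernel)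
                (CovZ.leaf K2_ok TE_l4791 _)
                (CovZ.leaf K2_ok TE_l4792 _))
               (CovZ.n1 (680, 27880) (by decide +kernel)
                (CovZ.leaf K2_ok TE_l4793 _)
                (CovZ.leaf K2_ok TE_l4794 _))))
             (CovZ.n1 (720, 28000) (by decide +kernel)
              (CovZ.n2 (760, 27960) (by decide +kernel)
               (CovZ.leaf K2_ok TE_l4795 _)
               (CovZ.leaf K2_ok TE_l4796 _))
              (CovZ.n1 (680, 27960) (by decide +kernel)
               (CovZ.leaf K2_ok TE_l4797 _)
               (CovZ.leaf K2_ok TE_l4798 _))))))
          (CovZ.subM 713624526928098537674315874073777223977926656 (by decide +kernel)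
           (CovZ.n1 (800, 27680) (by decide +kernel)
            (CovZ.n2 (640, 27680) (by decide +kernel)
             (CovZ.n2 (720, 27760) (by decide +kernel)
              (CovZ.subM 8589934592 (by decide +kernel)
               (CovZ.n2 (720, 27680) (by decide +kernel)
                (CovZ.n2 (680, 27720) (by decide +kernel)
                 (CovZ.n2 (720, 27720) (by decide +kernel)
                  (CovZ.badM (by decide +kernel))
                  (CovZ.leaf K2_ok TE_l4801 _))
                 (CovZ.badM (by decide +kernel)))
                (CovZ.n1 (760, 27720) (by decide +kernel)
                 (CovZ.badM (by decide +kernel))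
                 (CovZ.n1 (720, 27720) (by decide +kernel)
                  (CovZ.n2 (740, 27740) (by decide +kernel)
                   (CovZ.leaf K2_ok TE_l4806 _)
                   (CovZ.leaf K2_ok TE_l4807 _))
                  (CovZ.badM (by decide +kernel))))))
              (CovZ.n1 (640, 27760) (by decide +kernel)
               (CovZ.n2 (680, 27800) (by decide +kernel)
                (CovZ.n2 (680, 27760) (by decide +kernel)
                 (CovZ.leaf K2_ok TE_l4809 _)
                 (CovZ.leaf K2_ok TE_l4810 _))
                (CovZ.n1 (640, 27800) (by decide +kernel)
                 (CovZ.leaf K2_ok TE_l4811 _)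
                 (CovZ.leaf K2_ok TE_l4812 _)))
               (CovZ.subM 158456325028528675195677835264 (by decide +kernel)
                (CovZ.n1 (680, 27720) (by decide +kernel)
                 (CovZ.n2 (640, 27720) (by decide +kernel)
                  (CovZ.leaf K2_ok TE_l4813 _)
                  (CovZ.leaf K2_ok TE_l4814 _))
                 (CovZ.n1 (680, 27760) (by decide +kernel)
                  (CovZ.leaf K2_ok TE_l4815 _)
                  (CovZ.n1 (660, 27740) (by decide +kernel)
                   (CovZ.leaf K2_ok TE_l4816 _)
                   (CovZ.leaf K2_ok TE_l4817 _)))))))
             (CovZ.badM (by decide +kernel)))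
            (CovZ.n1 (800, 27840) (by decide +kernel)
             (CovZ.n2 (880, 27760) (by decide +kernel)
              (CovZ.subM 159075296228762986050538700800 (by decide +kernel)
               (CovZ.n2 (800, 27760) (by decide +kernel)
                (CovZ.n2 (840, 27800) (by decide +kernel)
                 (CovZ.n2 (840, 27760) (by decide +kernel)
                  (CovZ.leaf K2_ok TE_l4818 _)
                  (CovZ.n1 (860, 27780) (by decide +kernel)
                   (CovZ.leaf K2_ok TE_l4819 _)
                   (CovZ.leaf K2_ok TE_l4820 _)))
                 (CovZ.n1 (800, 27800) (by decide +kernel)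
                  (CovZ.leaf K2_ok TE_l4821 _)
                  (CovZ.leaf K2_ok TE_l4822 _)))
                (CovZ.n1 (840, 27720) (by decide +kernel)
                 (CovZ.n2 (800, 27720) (by decide +kernel)
                  (CovZ.n2 (820, 27740) (by decide +kernel)
                   (CovZ.leaf K2_ok TE_l4823 _)
                   (CovZ.leaf K2_ok TE_l4824 _))
                  (CovZ.n1 (820, 27700) (by decide +kernel)
                   (CovZ.badM (by decide +kernel))
                   (CovZ.leaf K2_ok TE_l17378 _)))
                 (CovZ.n1 (840, 27760) (by decide +kernel)
                  (CovZ.leaf K2_ok TE_l4825 _)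
                  (CovZ.n1 (820, 27740) (by decide +kernel)
                   (CovZ.leaf K2_ok TE_l4826 _)
                   (CovZ.leaf K2_ok TE_l4827 _))))))
              (CovZ.n1 (880, 27840) (by decide +kernel)
               (CovZ.n2 (920, 27800) (by decide +kernel)
                (CovZ.n2 (880, 27800) (by decide +kernel)
                 (CovZ.n2 (900, 27820) (by decide +kernel)
                  (CovZ.leaf K2_ok TE_l4828 _)
                  (CovZ.leaf K2_ok TE_l4829 _))
                 (CovZ.leaf K2_ok TE_l4830 _))
                (CovZ.n1 (920, 27840) (by decide +kernel)
                 (CovZ.leaf K2_ok TE_l4831 _)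
                 (CovZ.n1 (900, 27820) (by decide +kernel)
                  (CovZ.leaf K2_ok TE_l4832 _)
                  (CovZ.leaf K2_ok TE_l4833 _))))
               (CovZ.subM 680564734000952223155512200914075123712 (by decide +kernel)
                (CovZ.n1 (840, 27800) (by decide +kernel)
                 (CovZ.n2 (840, 27840) (by decide +kernel)
                  (CovZ.leaf K2_ok TE_l4834 _)
                  (CovZ.leaf K2_ok TE_l4835 _))
                 (CovZ.n1 (880, 27800) (by decide +kernel)
                  (CovZ.n2 (860, 27780) (by decide +kernel)
                   (CovZ.leaf K2_ok TE_l4836 _)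
                   (CovZ.leaf K2_ok TE_l4837 _))
                  (CovZ.leaf K2_ok TE_l4838 _))))))
             (CovZ.n1 (720, 27760) (by decide +kernel)
              (CovZ.n2 (720, 27840) (by decide +kernel)
               (CovZ.n2 (760, 27800) (by decide +kernel)
                (CovZ.n2 (720, 27800) (by decide +kernel)
                 (CovZ.leaf K2_ok TE_l4839 _)
                 (CovZ.leaf K2_ok TE_l4840 _))
                (CovZ.leaf K2_ok TE_l4841 _))
               (CovZ.n1 (680, 27800) (by decide +kernel)
                (CovZ.leaf K2_ok TE_l4842 _)
                (CovZ.n1 (720, 27800) (by decide +kernel)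
                 (CovZ.leaf K2_ok TE_l4843 _)
                 (CovZ.leaf K2_ok TE_l4844 _))))
              (CovZ.subM 159075296228762986050538700800 (by decide +kernel)
               (CovZ.n1 (800, 27760) (by decide +kernel)
                (CovZ.n2 (760, 27720) (by decide +kernel)
                 (CovZ.n2 (760, 27760) (by decide +kernel)
                  (CovZ.leaf K2_ok TE_l4845 _)
                  (CovZ.n1 (740, 27740) (by decide +kernel)
                   (CovZ.leaf K2_ok TE_l4846 _)
                   (CovZ.leaf K2_ok TE_l4847 _)))
                 (CovZ.n1 (800, 27720) (by decide +kernel)
                  (CovZ.badM (by decide +kernel))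
                  (CovZ.leaf K2_ok TE_l4849 _)))
                (CovZ.n1 (760, 27800) (by decide +kernel)
                 (CovZ.n2 (800, 27800) (by decide +kernel)
                  (CovZ.n2 (780, 27780) (by decide +kernel)
                   (CovZ.leaf K2_ok TE_l4850 _)
                   (CovZ.leaf K2_ok TE_l4851 _))
                  (CovZ.leaf K2_ok TE_l4852 _))
                 (CovZ.n1 (760, 27760) (by decide +kernel)
                  (CovZ.leaf K2_ok TE_l4853 _)
                  (CovZ.leaf K2_ok TE_l4854 _))))))))))

theorem TE_u77 : CovZ TE_M (toL (selN TE_LN 25171239352993342338382857540398356084446002233631083331588)) [0, 7, 6, 1] (960, 27840) (1280, 28160) (640, 28160) :=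
    (CovZ.n1 (960, 28160) (by decide +kernel)
          (CovZ.n2 (1120, 28000) (by decide +kernel)
           (CovZ.n2 (960, 28000) (by decide +kernel)
            (CovZ.n2 (1040, 28080) (by decide +kernel)
             (CovZ.n2 (1040, 28000) (by decide +kernel)
              (CovZ.n2 (1000, 28040) (by decide +kernel)
               (CovZ.leaf K2_ok TE_l4855 _)
               (CovZ.leaf K2_ok TE_l4856 _))
              (CovZ.n1 (1080, 28040) (by decide +kernel)
               (CovZ.leaf K2_ok TE_l4857 _)
               (CovZ.leaf K2_ok TE_l4858 _)))
             (CovZ.n1 (960, 28080) (by decide +kernel)
              (CovZ.n2 (1000, 28120) (by decide +kernel)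
               (CovZ.leaf K2_ok TE_l4859 _)
               (CovZ.leaf K2_ok TE_l4860 _))
              (CovZ.n1 (1000, 28040) (by decide +kernel)
               (CovZ.leaf K2_ok TE_l4861 _)
               (CovZ.leaf K2_ok TE_l4862 _))))
            (CovZ.subM 25158979295127188333999752517453185430336373335837011607552 (by decide +kernel)
             (CovZ.n1 (1040, 27920) (by decide +kernel)
              (CovZ.n2 (960, 27920) (by decide +kernel)
               (CovZ.n2 (1000, 27960) (by decide +kernel)
                (CovZ.leaf K2_ok TE_l4863 _)
                (CovZ.leaf K2_ok TE_l4864 _))
               (CovZ.n1 (1000, 27880) (by decide +kernel)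
                (CovZ.n2 (960, 27880) (by decide +kernel)
                 (CovZ.leaf K2_ok TE_l4865 _)
                 (CovZ.leaf K2_ok TE_l4866 _))
                (CovZ.leaf K2_ok TE_l4867 _)))
              (CovZ.n1 (1040, 28000) (by decide +kernel)
               (CovZ.n2 (1080, 27960) (by decide +kernel)
                (CovZ.leaf K2_ok TE_l4868 _)
                (CovZ.leaf K2_ok TE_l4869 _))
               (CovZ.n1 (1000, 27960) (by decide +kernel)
                (CovZ.leaf K2_ok TE_l4870 _)
                (CovZ.leaf K2_ok TE_l4871 _))))))
           (CovZ.n1 (1120, 28160) (by decide +kernel)
            (CovZ.n2 (1200, 28080) (by decide +kernel)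
             (CovZ.n2 (1120, 28080) (by decide +kernel)
              (CovZ.n2 (1160, 28120) (by decide +kernel)
               (CovZ.leaf K2_ok TE_l4872 _)
               (CovZ.leaf K2_ok TE_l4873 _))
              (CovZ.n1 (1160, 28040) (by decide +kernel)
               (CovZ.leaf K2_ok TE_l4874 _)
               (CovZ.leaf K2_ok TE_l4875 _)))
             (CovZ.n1 (1200, 28160) (by decide +kernel)
              (CovZ.n2 (1240, 28120) (by decide +kernel)
               (CovZ.leaf K2_ok TE_l4876 _)
               (CovZ.leaf K2_ok TE_l4877 _))
              (CovZ.n1 (1160, 28120) (by decide +kernel)
               (CovZ.leaf K2_ok TE_l4878 _)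
               (CovZ.leaf K2_ok TE_l4879 _))))
            (CovZ.n1 (1040, 28080) (by decide +kernel)
             (CovZ.n2 (1040, 28160) (by decide +kernel)
              (CovZ.leaf K2_ok TE_l4880 _)
              (CovZ.n1 (1000, 28120) (by decide +kernel)
               (CovZ.leaf K2_ok TE_l4881 _)
               (CovZ.leaf K2_ok TE_l4882 _)))
             (CovZ.n1 (1120, 28080) (by decide +kernel)
              (CovZ.n2 (1080, 28040) (by decide +kernel)
               (CovZ.leaf K2_ok TE_l4883 _)
               (CovZ.leaf K2_ok TE_l4884 _))
              (CovZ.leaf K2_ok TE_l4885 _)))))
          (CovZ.n1 (800, 28000) (by decide +kernel)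
           (CovZ.n2 (800, 28160) (by decide +kernel)
            (CovZ.n2 (880, 28080) (by decide +kernel)
             (CovZ.n2 (800, 28080) (by decide +kernel)
              (CovZ.n2 (840, 28120) (by decide +kernel)
               (CovZ.leaf K2_ok TE_l4886 _)
               (CovZ.leaf K2_ok TE_l4887 _))
              (CovZ.leaf K2_ok TE_l4888 _))
             (CovZ.n1 (880, 28160) (by decide +kernel)
              (CovZ.leaf K2_ok TE_l4889 _)
              (CovZ.n1 (840, 28120) (by decide +kernel)
               (CovZ.leaf K2_ok TE_l4890 _)
               (CovZ.leaf K2_ok TE_l4891 _))))
            (CovZ.n1 (720, 28080) (by decide +kernel)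
             (CovZ.n2 (720, 28160) (by decide +kernel)
              (CovZ.leaf K2_ok TE_l4892 _)
              (CovZ.n1 (680, 28120) (by decide +kernel)
               (CovZ.leaf K2_ok TE_l4893 _)
               (CovZ.leaf K2_ok TE_l4894 _)))
             (CovZ.n1 (800, 28080) (by decide +kernel)
              (CovZ.n2 (760, 28040) (by decide +kernel)
               (CovZ.leaf K2_ok TE_l4895 _)
               (CovZ.leaf K2_ok TE_l4896 _))
              (CovZ.leaf K2_ok TE_l4897 _))))
           (CovZ.n1 (960, 28000) (by decide +kernel)
            (CovZ.subM 25122199402146451602889549250047861081366068893627684225024 (by decide +kernel)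
             (CovZ.n2 (880, 27920) (by decide +kernel)
              (CovZ.n2 (880, 28000) (by decide +kernel)
               (CovZ.n2 (920, 27960) (by decide +kernel)
                (CovZ.leaf K2_ok TE_l4898 _)
                (CovZ.leaf K2_ok TE_l4899 _))
               (CovZ.n1 (840, 27960) (by decide +kernel)
                (CovZ.leaf K2_ok TE_l4900 _)
                (CovZ.leaf K2_ok TE_l4901 _)))
              (CovZ.n1 (960, 27920) (by decide +kernel)
               (CovZ.n2 (920, 27880) (by decide +kernel)
                (CovZ.leaf K2_ok TE_l4902 _)
                (CovZ.n1 (960, 27880) (by decide +kernel)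
                 (CovZ.leaf K2_ok TE_l4903 _)
                 (CovZ.leaf K2_ok TE_l4904 _)))
               (CovZ.n1 (920, 27960) (by decide +kernel)
                (CovZ.leaf K2_ok TE_l4905 _)
                (CovZ.leaf K2_ok TE_l4906 _)))))
            (CovZ.n1 (880, 28080) (by decide +kernel)
             (CovZ.n2 (960, 28080) (by decide +kernel)
              (CovZ.n2 (920, 28040) (by decide +kernel)
               (CovZ.leaf K2_ok TE_l4907 _)
               (CovZ.leaf K2_ok TE_l4908 _))
              (CovZ.leaf K2_ok TE_l4909 _))
             (CovZ.n1 (880, 28000) (by decide +kernel)
              (CovZ.leaf K2_ok TE_l4910 _)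
              (CovZ.n1 (920, 28040) (by decide +kernel)
               (CovZ.leaf K2_ok TE_l4911 _)
               (CovZ.leaf K2_ok TE_l4912 _)))))))

end Pool.Agent.TET
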