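import Pool.Agent.Helper38_TET.TE_M
import Pool.Agent.Helper38_TET.TE_L
import Pool.Agent.Helper38_TET.TE_30
import Pool.Agent.Helper38_TET.TE_31
import Pool.Agent.Helper38_TET.TE_32
import Pool.Agent.Helper38_TET.TE_33
import Pool.Agent.Helper38_TET.TE_34
import Pool.Agent.Helper38_TET.TE_51
import Pool.Agent.Helper38_TET.TE_52
import Pool.Agent.Helper38_TET.TE_53
import Pool.Agent.Helper38_TET.TE_54
import Pool.Agent.Helper38_TET.TE_55
import Pool.Agent.Helper38_TET.TE_116
import Pool.Agent.Helper38_TET.TE_117
import Pool.Agent.Helper38_TET.TE_132
import Pool.Agent.Helper38_TET.TE_U4

/-!
# MP_c7c9bf_co: certificates, family TE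
-/

set_option autoImplicit false
set_option maxRecDepth 100000

namespace Pool.Agent.TET

theorem TE_u78 : CovZ TE_M (toL (selN TE_LN 25171239352993342338382857540398356084446002233631083331588)) [0, 7, 6, 1] (1280, 28160) (960, 27840) (1280, 27520) :=
    (CovZ.n2 (1280, 27840) (by decide +kernel)
          (CovZ.subM 49039857307708444148031838869762117621616670381910786048 (by decide +kernel)
           (CovZ.n2 (1120, 27680) (by decide +kernel)
            (CovZ.n2 (1120, 27840) (by decide +kernel)
             (CovZ.n2 (1200, 27760) (by decide +kernel)
              (CovZ.n2 (1120, 27760) (by decide +kernel)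
               (CovZ.n2 (1160, 27800) (by decide +kernel)
                (CovZ.badM (by decide +kernel))
                (CovZ.n1 (1120, 27800) (by decide +kernel)
                 (CovZ.n2 (1140, 27820) (by decide +kernel)
                  (CovZ.leaf K2_ok TE_l5016 _)
                  (CovZ.leaf K2_ok TE_l5017 _))
                 (CovZ.n1 (1140, 27780) (by decide +kernel)
                  (CovZ.leaf K2_ok TE_l17379 _)
                  (CovZ.leaf K2_ok TE_l17380 _))))
               (CovZ.badM (by decide +kernel)))
              (CovZ.n1 (1200, 27840) (by decide +kernel)
               (CovZ.subM 590304817557960392704 (by decide +kernel)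
                (CovZ.n2 (1240, 27800) (by decide +kernel)
                 (CovZ.n2 (1200, 27800) (by decide +kernel)
                  (CovZ.n2 (1220, 27820) (by decide +kernel)
                   (CovZ.badM (by decide +kernel))
                   (CovZ.leaf K2_ok TE_l5018 _))
                  (CovZ.badM (by decide +kernel)))
                 (CovZ.n1 (1240, 27840) (by decide +kernel)
                  (CovZ.n2 (1260, 27820) (by decide +kernel)
                   (CovZ.leaf K2_ok TE_l5019 _)
                   (CovZ.leaf K2_ok TE_l5020 _))
                  (CovZ.n1 (1220, 27820) (by decide +kernel)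
                   (CovZ.leaf K2_ok TE_l5021 _)
                   (CovZ.leaf K2_ok TE_l5022 _)))))
               (CovZ.n1 (1160, 27800) (by decide +kernel)
                (CovZ.n2 (1160, 27840) (by decide +kernel)
                 (CovZ.n2 (1180, 27820) (by decide +kernel)
                  (CovZ.leaf K2_ok TE_l5023 _)
                  (CovZ.leaf K2_ok TE_l5024 _))
                 (CovZ.n1 (1140, 27820) (by decide +kernel)
                  (CovZ.leaf K2_ok TE_l5025 _)
                  (CovZ.leaf K2_ok TE_l5026 _)))
                (CovZ.n1 (1200, 27800) (by decide +kernel)
                 (CovZ.badM (by decide +kernel))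
                 (CovZ.n1 (1180, 27820) (by decide +kernel)
                  (CovZ.leaf K2_ok TE_l5027 _)
                  (CovZ.leaf K2_ok TE_l17381 _))))))
             (CovZ.n1 (1040, 27760) (by decide +kernel)
              (CovZ.n2 (1040, 27840) (by decide +kernel)
               (CovZ.n2 (1080, 27800) (by decide +kernel)
                (CovZ.n2 (1040, 27800) (by decide +kernel)
                 (CovZ.n2 (1060, 27820) (by decide +kernel)
                  (CovZ.leaf K2_ok TE_l5028 _)
                  (CovZ.leaf K2_ok TE_l5029 _))
                 (CovZ.n1 (1060, 27780) (by decide +kernel)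
                  (CovZ.leaf K2_ok TE_l5030 _)
                  (CovZ.leaf K2_ok TE_l5031 _)))
                (CovZ.n1 (1080, 27840) (by decide +kernel)
                 (CovZ.leaf K2_ok TE_l5032 _)
                 (CovZ.n1 (1060, 27820) (by decide +kernel)
                  (CovZ.leaf K2_ok TE_l5033 _)
                  (CovZ.leaf K2_ok TE_l5034 _))))
               (CovZ.n1 (1000, 27800) (by decide +kernel)
                (CovZ.n2 (1000, 27840) (by decide +kernel)
                 (CovZ.leaf K2_ok TE_l5035 _)
                 (CovZ.n1 (980, 27820) (by decide +kernel)
                  (CovZ.leaf K2_ok TE_l5036 _)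
                  (CovZ.leaf K2_ok TE_l5037 _)))
                (CovZ.n1 (1040, 27800) (by decide +kernel)
                 (CovZ.n2 (1020, 27780) (by decide +kernel)
                  (CovZ.leaf K2_ok TE_l5038 _)
                  (CovZ.leaf K2_ok TE_l5039 _))
                 (CovZ.leaf K2_ok TE_l5040 _))))
              (CovZ.n1 (1120, 27760) (by decide +kernel)
               (CovZ.badM (by decide +kernel))
               (CovZ.n1 (1080, 27800) (by decide +kernel)
                (CovZ.n2 (1120, 27800) (by decide +kernel)
                 (CovZ.n2 (1100, 27780) (by decide +kernel)
                  (CovZ.leaf K2_ok TE_l5041 _)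
                  (CovZ.leaf K2_ok TE_l17382 _))
                 (CovZ.leaf K2_ok TE_l5042 _))
                (CovZ.subM 49039857307708444148031838710686820802557873972666433536 (by decide +kernel)
                 (CovZ.n1 (1080, 27760) (by decide +kernel)
                  (CovZ.n2 (1060, 27780) (by decide +kernel)
                   (CovZ.leaf K2_ok TE_l5043 _)
                   (CovZ.leaf K2_ok TE_l19613 _))
                  (CovZ.n1 (1100, 27780) (by decide +kernel)
                   (CovZ.badM (by decide +kernel))
                   (CovZ.leaf K2_ok TE_l5044 _))))))))
            (CovZ.badM (by decide +kernel))))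
          (CovZ.n1 (1120, 28000) (by decide +kernel)
           (CovZ.n2 (1280, 28000) (by decide +kernel)
            (CovZ.n2 (1200, 27920) (by decide +kernel)
             (CovZ.n2 (1200, 28000) (by decide +kernel)
              (CovZ.n2 (1240, 27960) (by decide +kernel)
               (CovZ.n2 (1200, 27960) (by decide +kernel)
                (CovZ.leaf K2_ok TE_l5045 _)
                (CovZ.leaf K2_ok TE_l5046 _))
               (CovZ.leaf K2_ok TE_l5047 _))
              (CovZ.n1 (1160, 27960) (by decide +kernel)
               (CovZ.leaf K2_ok TE_l5048 _)
               (CovZ.n1 (1200, 27960) (by decide +kernel)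
                (CovZ.leaf K2_ok TE_l5049 _)
                (CovZ.leaf K2_ok TE_l5050 _))))
             (CovZ.n1 (1280, 27920) (by decide +kernel)
              (CovZ.subM 50572352848953445688067871044360642478736323794956189696 (by decide +kernel)
               (CovZ.n2 (1240, 27880) (by decide +kernel)
                (CovZ.n2 (1240, 27920) (by decide +kernel)
                 (CovZ.leaf K2_ok TE_l5051 _)
                 (CovZ.n1 (1220, 27900) (by decide +kernel)
                  (CovZ.leaf K2_ok TE_l5052 _)
                  (CovZ.leaf K2_ok TE_l5053 _)))
                (CovZ.n1 (1280, 27880) (by decide +kernel)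
                 (CovZ.n2 (1260, 27860) (by decide +kernel)
                  (CovZ.leaf K2_ok TE_l5054 _)
                  (CovZ.leaf K2_ok TE_l5055 _))
                 (CovZ.leaf K2_ok TE_l5056 _))))
              (CovZ.n1 (1240, 27960) (by decide +kernel)
               (CovZ.n2 (1280, 27960) (by decide +kernel)
                (CovZ.leaf K2_ok TE_l5057 _)
                (CovZ.leaf K2_ok TE_l5058 _))
               (CovZ.n1 (1240, 27920) (by decide +kernel)
                (CovZ.leaf K2_ok TE_l5059 _)
                (CovZ.leaf K2_ok TE_l5060 _)))))
            (CovZ.n1 (1200, 28080) (by decide +kernel)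
             (CovZ.n2 (1280, 28080) (by decide +kernel)
              (CovZ.n2 (1240, 28040) (by decide +kernel)
               (CovZ.leaf K2_ok TE_l5061 _)
               (CovZ.leaf K2_ok TE_l5062 _))
              (CovZ.n1 (1240, 28120) (by decide +kernel)
               (CovZ.leaf K2_ok TE_l5063 _)
               (CovZ.leaf K2_ok TE_l5064 _)))
             (CovZ.n1 (1200, 28000) (by decide +kernel)
              (CovZ.n2 (1160, 28040) (by decide +kernel)
               (CovZ.leaf K2_ok TE_l5065 _)
               (CovZ.leaf K2_ok TE_l5066 _))
              (CovZ.n1 (1240, 28040) (by decide +kernel)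
               (CovZ.leaf K2_ok TE_l5067 _)
               (CovZ.leaf K2_ok TE_l5068 _)))))
           (CovZ.n1 (1120, 27840) (by decide +kernel)
            (CovZ.subM 25158979295127188334010386341419464757319603792319254364160 (by decide +kernel)
             (CovZ.n2 (1040, 27920) (by decide +kernel)
              (CovZ.n2 (1120, 27920) (by decide +kernel)
               (CovZ.subM 50572352848953445689397099040145557761344320496530882560 (by decide +kernel)
                (CovZ.n2 (1080, 27880) (by decide +kernel)
                 (CovZ.n2 (1080, 27920) (by decide +kernel)
                  (CovZ.leaf K2_ok TE_l5069 _)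
                  (CovZ.leaf K2_ok TE_l5070 _))
                 (CovZ.n1 (1120, 27880) (by decide +kernel)
                  (CovZ.n2 (1100, 27860) (by decide +kernel)
                   (CovZ.leaf K2_ok TE_l5071 _)
                   (CovZ.leaf K2_ok TE_l5072 _))
                  (CovZ.leaf K2_ok TE_l5073 _))))
               (CovZ.n1 (1080, 27960) (by decide +kernel)
                (CovZ.leaf K2_ok TE_l5074 _)
                (CovZ.leaf K2_ok TE_l5075 _)))
              (CovZ.subM 50572352848953445689397099040145557761344320496530882560 (by decide +kernel)
               (CovZ.n1 (1040, 27840) (by decide +kernel)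
                (CovZ.n2 (1000, 27880) (by decide +kernel)
                 (CovZ.n2 (1040, 27880) (by decide +kernel)
                  (CovZ.leaf K2_ok TE_l5076 _)
                  (CovZ.leaf K2_ok TE_l5077 _))
                 (CovZ.n1 (1000, 27840) (by decide +kernel)
                  (CovZ.leaf K2_ok TE_l5078 _)
                  (CovZ.leaf K2_ok TE_l5079 _)))
                (CovZ.n1 (1080, 27880) (by decide +kernel)
                 (CovZ.n2 (1080, 27840) (by decide +kernel)
                  (CovZ.leaf K2_ok TE_l5080 _)
                  (CovZ.leaf K2_ok TE_l5081 _))
                 (CovZ.n1 (1040, 27880) (by decide +kernel)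
                  (CovZ.leaf K2_ok TE_l5082 _)
                  (CovZ.leaf K2_ok TE_l5083 _)))))))
            (CovZ.n1 (1200, 27920) (by decide +kernel)
             (CovZ.subM 50572352848953445688067871044360642478736323794956189696 (by decide +kernel)
              (CovZ.n2 (1200, 27840) (by decide +kernel)
               (CovZ.n2 (1160, 27880) (by decide +kernel)
                (CovZ.n2 (1200, 27880) (by decide +kernel)
                 (CovZ.n2 (1180, 27860) (by decide +kernel)
                  (CovZ.leaf K2_ok TE_l5084 _)
                  (CovZ.leaf K2_ok TE_l5085 _))
                 (CovZ.leaf K2_ok TE_l5086 _))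
                (CovZ.n1 (1160, 27840) (by decide +kernel)
                 (CovZ.leaf K2_ok TE_l5087 _)
                 (CovZ.n1 (1180, 27860) (by decide +kernel)
                  (CovZ.leaf K2_ok TE_l5088 _)
                  (CovZ.leaf K2_ok TE_l5089 _))))
               (CovZ.n1 (1240, 27880) (by decide +kernel)
                (CovZ.n2 (1240, 27840) (by decide +kernel)
                 (CovZ.leaf K2_ok TE_l5090 _)
                 (CovZ.n1 (1260, 27860) (by decide +kernel)
                  (CovZ.leaf K2_ok TE_l5091 _)
                  (CovZ.leaf K2_ok TE_l5092 _)))
                (CovZ.n1 (1200, 27880) (by decide +kernel)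
                 (CovZ.n2 (1220, 27900) (by decide +kernel)
                  (CovZ.leaf K2_ok TE_l5093 _)
                  (CovZ.leaf K2_ok TE_l5094 _))
                 (CovZ.leaf K2_ok TE_l5095 _)))))
             (CovZ.subM 25158979295127188334010386341419464757319603792319254364160 (by decide +kernel)
              (CovZ.n1 (1120, 27920) (by decide +kernel)
               (CovZ.n2 (1160, 27960) (by decide +kernel)
                (CovZ.n2 (1160, 27920) (by decide +kernel)
                 (CovZ.leaf K2_ok TE_l5096 _)
                 (CovZ.leaf K2_ok TE_l5097 _))
                (CovZ.n1 (1120, 27960) (by decide +kernel)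
                 (CovZ.leaf K2_ok TE_l5098 _)
                 (CovZ.leaf K2_ok TE_l5099 _)))
               (CovZ.subM 50572352848953445688067871044360641888440513436250537984 (by decide +kernel)
                (CovZ.n1 (1160, 27880) (by decide +kernel)
                 (CovZ.n2 (1120, 27880) (by decide +kernel)
                  (CovZ.leaf K2_ok TE_l5100 _)
                  (CovZ.leaf K2_ok TE_l5101 _))
                 (CovZ.n1 (1160, 27920) (by decide +kernel)
                  (CovZ.leaf K2_ok TE_l5102 _)
                  (CovZ.n1 (1140, 27900) (by decide +kernel)
                   (CovZ.leaf K2_ok TE_l5103 _)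
                   (CovZ.leaf K2_ok TE_l5104 _)))))))))))

theorem TE_u79 : CovZ TE_M (toL (selN TE_LN 25171239352993342338382857540398356084446002233631083331588)) [0, 7, 6, 1] (960, 27840) (640, 27520) (1280, 27520) :=
    (CovZ.subM 49039857307708444148031838869762117621616670381910786048 (by decide +kernel)
          (CovZ.n1 (960, 27520) (by decide +kernel)
           (CovZ.n2 (800, 27680) (by decide +kernel)
            (CovZ.n2 (960, 27680) (by decide +kernel)
             (CovZ.subM 680564733842495896946391905000985985024 (by decide +kernel)
              (CovZ.n2 (880, 27600) (by decide +kernel)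
               (CovZ.n2 (880, 27680) (by decide +kernel)
                (CovZ.badM (by decide +kernel))
                (CovZ.n1 (840, 27640) (by decide +kernel)
                 (CovZ.n2 (840, 27680) (by decide +kernel)
                  (CovZ.n2 (860, 27660) (by decide +kernel)
                   (CovZ.badM (by decide +kernel))
                   (CovZ.leaf K2_ok TE_l17383 _))
                  (CovZ.badM (by decide +kernel)))
                 (CovZ.badM (by decide +kernel))))
               (CovZ.badM (by decide +kernel))))
             (CovZ.n1 (880, 27760) (by decide +kernel)
              (CovZ.n2 (960, 27760) (by decide +kernel)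
               (CovZ.subM 680564733842495896946391905000985985024 (by decide +kernel)
                (CovZ.n2 (920, 27720) (by decide +kernel)
                 (CovZ.n2 (920, 27760) (by decide +kernel)
                  (CovZ.n2 (940, 27740) (by decide +kernel)
                   (CovZ.leaf K2_ok TE_l5105 _)
                   (CovZ.leaf K2_ok TE_l5106 _))
                  (CovZ.n1 (900, 27740) (by decide +kernel)
                   (CovZ.leaf K2_ok TE_l5107 _)
                   (CovZ.leaf K2_ok TE_l5108 _)))
                 (CovZ.n1 (960, 27720) (by decide +kernel)
                  (CovZ.n2 (940, 27700) (by decide +kernel)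
                   (CovZ.leaf K2_ok TE_l17384 _)
                   (CovZ.badM (by decide +kernel)))
                  (CovZ.n1 (940, 27740) (by decide +kernel)
                   (CovZ.leaf K2_ok TE_l17385 _)
                   (CovZ.leaf K2_ok TE_l17386 _)))))
               (CovZ.n1 (920, 27800) (by decide +kernel)
                (CovZ.n2 (960, 27800) (by decide +kernel)
                 (CovZ.n2 (940, 27780) (by decide +kernel)
                  (CovZ.leaf K2_ok TE_l5109 _)
                  (CovZ.leaf K2_ok TE_l5110 _))
                 (CovZ.leaf K2_ok TE_l5111 _))
                (CovZ.n1 (920, 27760) (by decide +kernel)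
                 (CovZ.leaf K2_ok TE_l5112 _)
                 (CovZ.n1 (940, 27780) (by decide +kernel)
                  (CovZ.leaf K2_ok TE_l5113 _)
                  (CovZ.leaf K2_ok TE_l5114 _)))))
              (CovZ.subM 680564733842495896946391905000985985024 (by decide +kernel)
               (CovZ.n1 (880, 27680) (by decide +kernel)
                (CovZ.n2 (840, 27720) (by decide +kernel)
                 (CovZ.n2 (880, 27720) (by decide +kernel)
                  (CovZ.n2 (860, 27700) (by decide +kernel)
                   (CovZ.leaf K2_ok TE_l17387 _)
                   (CovZ.leaf K2_ok TE_l17388 _))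
                  (CovZ.leaf K2_ok TE_l5115 _))
                 (CovZ.n1 (840, 27680) (by decide +kernel)
                  (CovZ.n2 (820, 27700) (by decide +kernel)
                   (CovZ.leaf K2_ok TE_l17389 _)
                   (CovZ.badM (by decide +kernel)))
                  (CovZ.n1 (860, 27700) (by decide +kernel)
                   (CovZ.leaf K2_ok TE_l17390 _)
                   (CovZ.leaf K2_ok TE_l17391 _))))
                (CovZ.n1 (920, 27720) (by decide +kernel)
                 (CovZ.n2 (920, 27680) (by decide +kernel)
                  (CovZ.n2 (900, 27700) (by decide +kernel)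
                   (CovZ.leaf K2_ok TE_l17392 _)
                   (CovZ.badM (by decide +kernel)))
                  (CovZ.n1 (940, 27700) (by decide +kernel)
                   (CovZ.badM (by decide +kernel))
                   (CovZ.leaf K2_ok TE_l17393 _)))
                 (CovZ.n1 (880, 27720) (by decide +kernel)
                  (CovZ.n2 (900, 27740) (by decide +kernel)
                   (CovZ.leaf K2_ok TE_l17394 _)
                   (CovZ.leaf K2_ok TE_l5116 _))
                  (CovZ.n1 (900, 27700) (by decide +kernel)
                   (CovZ.leaf K2_ok TE_l17395 _)
                   (CovZ.leaf K2_ok TE_l17396 _))))))))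
            (CovZ.badM (by decide +kernel)))
           (CovZ.n1 (1120, 27680) (by decide +kernel)
            (CovZ.n2 (1120, 27520) (by decide +kernel)
             (CovZ.badM (by decide +kernel))
             (CovZ.badM (by decide +kernel)))
            (CovZ.n1 (960, 27680) (by decide +kernel)
             (CovZ.n2 (1040, 27760) (by decide +kernel)
              (CovZ.badM (by decide +kernel))
              (CovZ.n1 (960, 27760) (by decide +kernel)
               (CovZ.n2 (1000, 27800) (by decide +kernel)
                (CovZ.n2 (1000, 27760) (by decide +kernel)
                 (CovZ.leaf K2_ok TE_l5117 _)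
                 (CovZ.n1 (1020, 27780) (by decide +kernel)
                  (CovZ.leaf K2_ok TE_l17397 _)
                  (CovZ.leaf K2_ok TE_l5118 _)))
                (CovZ.n1 (960, 27800) (by decide +kernel)
                 (CovZ.n2 (980, 27820) (by decide +kernel)
                  (CovZ.leaf K2_ok TE_l5119 _)
                  (CovZ.leaf K2_ok TE_l5120 _))
                 (CovZ.leaf K2_ok TE_l5121 _)))
               (CovZ.subM 49039857307708444148031838711305790822200564110115995648 (by decide +kernel)
                (CovZ.n1 (1000, 27720) (by decide +kernel)
                 (CovZ.n2 (960, 27720) (by decide +kernel)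
                  (CovZ.n2 (980, 27740) (by decide +kernel)
                   (CovZ.badM (by decide +kernel))
                   (CovZ.leaf K2_ok TE_l17398 _))
                  (CovZ.badM (by decide +kernel)))
                 (CovZ.n1 (1000, 27760) (by decide +kernel)
                  (CovZ.n2 (1020, 27740) (by decide +kernel)
                   (CovZ.leaf K2_ok TE_l17399 _)
                   (CovZ.leaf K2_ok TE_l17400 _))
                  (CovZ.n1 (980, 27740) (by decide +kernel)
                   (CovZ.leaf K2_ok TE_l17401 _)
                   (CovZ.leaf K2_ok TE_l17402 _)))))))
             (CovZ.badM (by decide +kernel))))))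

theorem TE_u80 : CovZ TE_M (toL (selN TE_LN 20280132307268184390925804030951429790010920261603667955155526)) [0, 7, 6, 1] (2560, 28160) (1280, 28160) (1280, 26880) :=
    (CovZ.n2 (1920, 27520) (by decide +kernel)
      (CovZ.subM 828836420946795353179175421398155666667322262778157748715520 (by decide +kernel)
       (CovZ.n2 (1280, 27520) (by decide +kernel)
        TE_u65
        (CovZ.subM 11692013098647223345629556037705085976384286752768 (by decide +kernel)
         (CovZ.n1 (1600, 27200) (by decide +kernel)
          (CovZ.n2 (1280, 27200) (by decide +kernel)
           (CovZ.n2 (1440, 27360) (by decide +kernel)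
            (CovZ.badM (by decide +kernel))
            (CovZ.badM (by decide +kernel)))
           (CovZ.badM (by decide +kernel)))
          (CovZ.n1 (1600, 27520) (by decide +kernel)
           (CovZ.badM (by decide +kernel))
           (CovZ.n1 (1440, 27360) (by decide +kernel)
            (CovZ.badM (by decide +kernel))
            (CovZ.badM (by decide +kernel))))))))
      (CovZ.n1 (1920, 28160) (by decide +kernel)
       (CovZ.n2 (2240, 27840) (by decide +kernel)
        TE_u70
        TE_u71)
       (CovZ.n1 (1600, 27840) (by decide +kernel)
        (CovZ.subM 20264316117241286138196965372154491726875993465661160582807616 (by decide +kernel)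
         (CovZ.n2 (1600, 28160) (by decide +kernel)
          TE_u72
          TE_u73))
        (CovZ.subM 20264254817431342712913770549782680451195722668195820362268736 (by decide +kernel)
         (CovZ.n1 (1920, 27840) (by decide +kernel)
          (CovZ.subM 196159464489560774477901321139213540758348275975700086784 (by decide +kernel)
           (CovZ.n2 (1760, 27680) (by decide +kernel)
            (CovZ.n2 (1760, 27840) (by decide +kernel)
             (CovZ.badM (by decide +kernel))
             (CovZ.n1 (1680, 27760) (by decide +kernel)
              (CovZ.badM (by decide +kernel))
              (CovZ.badM (by decide +kernel))))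
            (CovZ.badM (by decide +kernel))))
          (CovZ.n1 (1760, 28000) (by decide +kernel)
           (CovZ.n2 (1920, 28000) (by decide +kernel)
            (CovZ.n2 (1840, 27920) (by decide +kernel)
             (CovZ.n2 (1840, 28000) (by decide +kernel)
              (CovZ.n2 (1880, 27960) (by decide +kernel)
               (CovZ.n2 (1840, 27960) (by decide +kernel)
                (CovZ.n2 (1860, 27980) (by decide +kernel)
                 (CovZ.n2 (1860, 27960) (by decide +kernel)
                  (CovZ.leaf K2_ok TE_l4589 _)
                  (CovZ.n1 (1870, 27970) (by decide +kernel)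
                   (CovZ.leaf K2_ok TE_l4590 _)
                   (CovZ.leaf K2_ok TE_l4591 _)))
                 (CovZ.n1 (1840, 27980) (by decide +kernel)
                  (CovZ.leaf K2_ok TE_l4592 _)
                  (CovZ.leaf K2_ok TE_l4593 _)))
                (CovZ.n1 (1860, 27940) (by decide +kernel)
                 (CovZ.n2 (1840, 27940) (by decide +kernel)
                  (CovZ.n2 (1850, 27950) (by decide +kernel)
                   (CovZ.leaf K2_ok TE_l4594 _)
                   (CovZ.leaf K2_ok TE_l4595 _))
                  (CovZ.leaf K2_ok TE_l4596 _))
                 (CovZ.n1 (1860, 27960) (by decide +kernel)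
                  (CovZ.leaf K2_ok TE_l4597 _)
                  (CovZ.n1 (1850, 27950) (by decide +kernel)
                   (CovZ.leaf K2_ok TE_l4598 _)
                   (CovZ.leaf K2_ok TE_l4599 _)))))
               (CovZ.n1 (1880, 28000) (by decide +kernel)
                (CovZ.n2 (1900, 27980) (by decide +kernel)
                 (CovZ.n2 (1880, 27980) (by decide +kernel)
                  (CovZ.leaf K2_ok TE_l4600 _)
                  (CovZ.leaf K2_ok TE_l4601 _))
                 (CovZ.leaf K2_ok TE_l4602 _))
                (CovZ.n1 (1860, 27980) (by decide +kernel)
                 (CovZ.leaf K2_ok TE_l4603 _)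
                 (CovZ.n1 (1880, 27980) (by decide +kernel)
                  (CovZ.n2 (1870, 27970) (by decide +kernel)
                   (CovZ.leaf K2_ok TE_l4604 _)
                   (CovZ.leaf K2_ok TE_l4605 _))
                  (CovZ.leaf K2_ok TE_l4606 _)))))
              (CovZ.n1 (1800, 27960) (by decide +kernel)
               (CovZ.n2 (1800, 28000) (by decide +kernel)
                (CovZ.n2 (1820, 27980) (by decide +kernel)
                 (CovZ.leaf K2_ok TE_l4607 _)
                 (CovZ.leaf K2_ok TE_l4608 _))
                (CovZ.n1 (1780, 27980) (by decide +kernel)
                 (CovZ.leaf K2_ok TE_l4609 _)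
                 (CovZ.leaf K2_ok TE_l4610 _)))
               (CovZ.n1 (1840, 27960) (by decide +kernel)
                (CovZ.n2 (1820, 27940) (by decide +kernel)
                 (CovZ.n2 (1820, 27960) (by decide +kernel)
                  (CovZ.leaf K2_ok TE_l4611 _)
                  (CovZ.n1 (1810, 27950) (by decide +kernel)
                   (CovZ.leaf K2_ok TE_l4612 _)
                   (CovZ.leaf K2_ok TE_l4613 _)))
                 (CovZ.n1 (1840, 27940) (by decide +kernel)
                  (CovZ.n2 (1830, 27930) (by decide +kernel)
                   (CovZ.leaf K2_ok TE_l4614 _)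
                   (CovZ.leaf K2_ok TE_l4615 _))
                  (CovZ.leaf K2_ok TE_l4616 _)))
                (CovZ.n1 (1820, 27980) (by decide +kernel)
                 (CovZ.leaf K2_ok TE_l4617 _)
                 (CovZ.n1 (1820, 27960) (by decide +kernel)
                  (CovZ.leaf K2_ok TE_l4618 _)
                  (CovZ.leaf K2_ok TE_l4619 _))))))
             (CovZ.n1 (1920, 27920) (by decide +kernel)
              (CovZ.subM 6427948336488781485806762343996331253486709564153702551388160 (by decide +kernel)
               (CovZ.n2 (1880, 27880) (by decide +kernel)
                (CovZ.n2 (1880, 27920) (by decide +kernel)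
                 (CovZ.badM (by decide +kernel))
                 (CovZ.n1 (1860, 27900) (by decide +kernel)
                  (CovZ.n2 (1860, 27920) (by decide +kernel)
                   (CovZ.n2 (1870, 27910) (by decide +kernel)
                    (CovZ.leaf K2_ok TE_l19609 _)
                    (CovZ.leaf K2_ok TE_l17369 _))
                   (CovZ.badM (by decide +kernel)))
                  (CovZ.badM (by decide +kernel))))
                (CovZ.badM (by decide +kernel))))
              (CovZ.n1 (1880, 27960) (by decide +kernel)
               (CovZ.n2 (1920, 27960) (by decide +kernel)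
                (CovZ.n2 (1900, 27940) (by decide +kernel)
                 (CovZ.n2 (1900, 27960) (by decide +kernel)
                  (CovZ.n2 (1910, 27950) (by decide +kernel)
                   (CovZ.leaf K2_ok TE_l4620 _)
                   (CovZ.leaf K2_ok TE_l4621 _))
                  (CovZ.n1 (1890, 27950) (by decide +kernel)
                   (CovZ.leaf K2_ok TE_l4622 _)
                   (CovZ.leaf K2_ok TE_l4623 _)))
                 (CovZ.n1 (1920, 27940) (by decide +kernel)
                  (CovZ.n2 (1910, 27930) (by decide +kernel)
                   (CovZ.leaf K2_ok TE_l4624 _)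
                   (CovZ.leaf K2_ok TE_l17370 _))
                  (CovZ.n1 (1910, 27950) (by decide +kernel)
                   (CovZ.leaf K2_ok TE_l4625 _)
                   (CovZ.leaf K2_ok TE_l4626 _))))
                (CovZ.n1 (1900, 27980) (by decide +kernel)
                 (CovZ.n2 (1920, 27980) (by decide +kernel)
                  (CovZ.n2 (1910, 27970) (by decide +kernel)
                   (CovZ.leaf K2_ok TE_l4627 _)
                   (CovZ.leaf K2_ok TE_l4628 _))
                  (CovZ.leaf K2_ok TE_l4629 _))
                 (CovZ.n1 (1900, 27960) (by decide +kernel)
                  (CovZ.leaf K2_ok TE_l4630 _)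
                  (CovZ.n1 (1910, 27970) (by decide +kernel)
                   (CovZ.leaf K2_ok TE_l4631 _)
                   (CovZ.leaf K2_ok TE_l4632 _)))))
               (CovZ.n1 (1880, 27920) (by decide +kernel)
                (CovZ.n2 (1860, 27940) (by decide +kernel)
                 (CovZ.n2 (1880, 27940) (by decide +kernel)
                  (CovZ.n2 (1870, 27930) (by decide +kernel)
                   (CovZ.leaf K2_ok TE_l4633 _)
                   (CovZ.leaf K2_ok TE_l4634 _))
                  (CovZ.leaf K2_ok TE_l4635 _))
                 (CovZ.n1 (1860, 27920) (by decide +kernel)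
                  (CovZ.leaf K2_ok TE_l4636 _)
                  (CovZ.n1 (1870, 27930) (by decide +kernel)
                   (CovZ.leaf K2_ok TE_l17371 _)
                   (CovZ.leaf K2_ok TE_l4637 _))))
                (CovZ.n1 (1900, 27940) (by decide +kernel)
                 (CovZ.subM 200756940177010335113075929885714896942753973062961463296 (by decide +kernel)
                  (CovZ.n2 (1900, 27920) (by decide +kernel)
                   (CovZ.n2 (1890, 27930) (by decide +kernel)
                    (CovZ.leaf K2_ok TE_l4638 _)
                    (CovZ.leaf K2_ok TE_l17372 _))
                   (CovZ.n1 (1910, 27930) (by decide +kernel)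
                    (CovZ.leaf K2_ok TE_l17373 _)
                    (CovZ.leaf K2_ok TE_l4639 _))))
                 (CovZ.n1 (1880, 27940) (by decide +kernel)
                  (CovZ.n2 (1890, 27950) (by decide +kernel)
                   (CovZ.leaf K2_ok TE_l4640 _)
                   (CovZ.leaf K2_ok TE_l4641 _))
                  (CovZ.n1 (1890, 27930) (by decide +kernel)
                   (CovZ.leaf K2_ok TE_l4642 _)
                   (CovZ.leaf K2_ok TE_l4643 _))))))))
            (CovZ.n1 (1840, 28080) (by decide +kernel)
             (CovZ.n2 (1920, 28080) (by decide +kernel)
              (CovZ.n2 (1880, 28040) (by decide +kernel)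
               (CovZ.n2 (1880, 28080) (by decide +kernel)
                (CovZ.leaf K2_ok TE_l4644 _)
                (CovZ.n1 (1860, 28060) (by decide +kernel)
                 (CovZ.leaf K2_ok TE_l4645 _)
                 (CovZ.leaf K2_ok TE_l4646 _)))
               (CovZ.n1 (1920, 28040) (by decide +kernel)
                (CovZ.n2 (1900, 28020) (by decide +kernel)
                 (CovZ.n2 (1900, 28040) (by decide +kernel)
                  (CovZ.leaf K2_ok TE_l4647 _)
                  (CovZ.leaf K2_ok TE_l4648 _))
                 (CovZ.leaf K2_ok TE_l4649 _))
                (CovZ.leaf K2_ok TE_l4650 _)))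
              (CovZ.n1 (1880, 28120) (by decide +kernel)
               (CovZ.n2 (1920, 28120) (by decide +kernel)
                (CovZ.n2 (1900, 28100) (by decide +kernel)
                 (CovZ.leaf K2_ok TE_l4651 _)
                 (CovZ.leaf K2_ok TE_l4652 _))
                (CovZ.leaf K2_ok TE_l4653 _))
               (CovZ.n1 (1880, 28080) (by decide +kernel)
                (CovZ.leaf K2_ok TE_l4654 _)
                (CovZ.n1 (1900, 28100) (by decide +kernel)
                 (CovZ.leaf K2_ok TE_l4655 _)
                 (CovZ.leaf K2_ok TE_l4656 _)))))
             (CovZ.n1 (1840, 28000) (by decide +kernel)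
              (CovZ.n2 (1800, 28040) (by decide +kernel)
               (CovZ.n2 (1840, 28040) (by decide +kernel)
                (CovZ.n2 (1820, 28020) (by decide +kernel)
                 (CovZ.leaf K2_ok TE_l4657 _)
                 (CovZ.leaf K2_ok TE_l4658 _))
                (CovZ.leaf K2_ok TE_l4659 _))
               (CovZ.n1 (1800, 28000) (by decide +kernel)
                (CovZ.leaf K2_ok TE_l4660 _)
                (CovZ.n1 (1820, 28020) (by decide +kernel)
                 (CovZ.leaf K2_ok TE_l4661 _)
                 (CovZ.leaf K2_ok TE_l4662 _))))
              (CovZ.n1 (1880, 28040) (by decide +kernel)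
               (CovZ.n2 (1880, 28000) (by decide +kernel)
                (CovZ.n2 (1860, 28020) (by decide +kernel)
                 (CovZ.leaf K2_ok TE_l4663 _)
                 (CovZ.n1 (1860, 28000) (by decide +kernel)
                  (CovZ.leaf K2_ok TE_l4664 _)
                  (CovZ.leaf K2_ok TE_l4665 _)))
                (CovZ.n1 (1900, 28020) (by decide +kernel)
                 (CovZ.leaf K2_ok TE_l4666 _)
                 (CovZ.leaf K2_ok TE_l4667 _)))
               (CovZ.n1 (1840, 28040) (by decide +kernel)
                (CovZ.n2 (1860, 28060) (by decide +kernel)
                 (CovZ.leaf K2_ok TE_l4668 _)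
                 (CovZ.leaf K2_ok TE_l4669 _))
                (CovZ.n1 (1860, 28020) (by decide +kernel)
                 (CovZ.leaf K2_ok TE_l4670 _)
                 (CovZ.leaf K2_ok TE_l4671 _)))))))
           (CovZ.n1 (1760, 27840) (by decide +kernel)
            TE_u74
            TE_u75)))))))

theorem TE_u81 : CovZ TE_M (toL (selN TE_LN 20280132307268184390925804030951429790010920261603667955155526)) [0, 7, 6, 1] (1280, 28160) (0, 28160) (1280, 26880) :=
    (CovZ.subM 25171239352993342338382857540398356084446002233631083331588 (by decide +kernel)
      (CovZ.n1 (640, 27520) (by decide +kernel)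
       (CovZ.n2 (640, 28160) (by decide +kernel)
        (CovZ.n2 (960, 27840) (by decide +kernel)
         TE_u76
         TE_u77)
        (CovZ.n1 (320, 27840) (by decide +kernel)
         (CovZ.n2 (320, 28160) (by decide +kernel)
          (CovZ.n2 (480, 28000) (by decide +kernel)
           (CovZ.n2 (320, 28000) (by decide +kernel)
            (CovZ.n2 (400, 28080) (by decide +kernel)
             (CovZ.n2 (400, 28000) (by decide +kernel)
              (CovZ.leaf K2_ok TE_l4913 _)
              (CovZ.leaf K2_ok TE_l4914 _))
             (CovZ.n1 (320, 28080) (by decide +kernel)
              (CovZ.leaf K2_ok TE_l4915 _)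
              (CovZ.leaf K2_ok TE_l4916 _)))
            (CovZ.subM 25122199402146451602209005285470789546223607804805114757120 (by decide +kernel)
             (CovZ.n1 (400, 27920) (by decide +kernel)
              (CovZ.n2 (320, 27920) (by decide +kernel)
               (CovZ.n2 (360, 27960) (by decide +kernel)
                (CovZ.leaf K2_ok TE_l4917 _)
                (CovZ.leaf K2_ok TE_l4918 _))
               (CovZ.leaf K2_ok TE_l4919 _))
              (CovZ.n1 (400, 28000) (by decide +kernel)
               (CovZ.leaf K2_ok TE_l4920 _)
               (CovZ.n1 (360, 27960) (by decide +kernel)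
                (CovZ.leaf K2_ok TE_l4921 _)
                (CovZ.leaf K2_ok TE_l4922 _))))))
           (CovZ.n1 (480, 28160) (by decide +kernel)
            (CovZ.n2 (560, 28080) (by decide +kernel)
             (CovZ.n2 (480, 28080) (by decide +kernel)
              (CovZ.leaf K2_ok TE_l4923 _)
              (CovZ.leaf K2_ok TE_l4924 _))
             (CovZ.n1 (560, 28160) (by decide +kernel)
              (CovZ.leaf K2_ok TE_l4925 _)
              (CovZ.leaf K2_ok TE_l4926 _)))
            (CovZ.n1 (400, 28080) (by decide +kernel)
             (CovZ.n2 (400, 28160) (by decide +kernel)
              (CovZ.leaf K2_ok TE_l4927 _)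
              (CovZ.leaf K2_ok TE_l4928 _))
             (CovZ.n1 (480, 28080) (by decide +kernel)
              (CovZ.n2 (440, 28040) (by decide +kernel)
               (CovZ.leaf K2_ok TE_l4929 _)
               (CovZ.leaf K2_ok TE_l4930 _))
              (CovZ.leaf K2_ok TE_l4931 _)))))
          (CovZ.n1 (160, 28000) (by decide +kernel)
           (CovZ.subM 25122199402149261496104020103422113324432441995529090498560 (by decide +kernel)
            (CovZ.n2 (160, 28160) (by decide +kernel)
             (CovZ.n2 (240, 28080) (by decide +kernel)
              (CovZ.n2 (160, 28080) (by decide +kernel)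
               (CovZ.leaf K2_ok TE_l4932 _)
               (CovZ.leaf K2_ok TE_l4933 _))
              (CovZ.leaf K2_ok TE_l4934 _))
             (CovZ.n1 (80, 28080) (by decide +kernel)
              (CovZ.leaf K2_ok TE_l4935 _)
              (CovZ.leaf K2_ok TE_l4936 _))))
           (CovZ.n1 (320, 28000) (by decide +kernel)
            (CovZ.subM 25122199402146451602209005285470789546223607804805114757120 (by decide +kernel)
             (CovZ.n2 (240, 27920) (by decide +kernel)
              (CovZ.n2 (240, 28000) (by decide +kernel)
               (CovZ.leaf K2_ok TE_l4937 _)
               (CovZ.n1 (200, 27960) (by decide +kernel)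
                (CovZ.leaf K2_ok TE_l4938 _)
                (CovZ.leaf K2_ok TE_l4939 _)))
              (CovZ.n1 (320, 27920) (by decide +kernel)
               (CovZ.n2 (280, 27880) (by decide +kernel)
                (CovZ.leaf K2_ok TE_l4940 _)
                (CovZ.leaf K2_ok TE_l4941 _))
               (CovZ.leaf K2_ok TE_l4942 _))))
            (CovZ.n1 (240, 28080) (by decide +kernel)
             (CovZ.n2 (320, 28080) (by decide +kernel)
              (CovZ.leaf K2_ok TE_l4943 _)
              (CovZ.leaf K2_ok TE_l4944 _))
             (CovZ.n1 (240, 28000) (by decide +kernel)
              (CovZ.leaf K2_ok TE_l4945 _)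
              (CovZ.leaf K2_ok TE_l4946 _))))))
         (CovZ.n1 (640, 27840) (by decide +kernel)
          (CovZ.subM 12259964327729937694045032592381174598674237506256371712 (by decide +kernel)
           (CovZ.n2 (480, 27680) (by decide +kernel)
            (CovZ.n2 (480, 27840) (by decide +kernel)
             (CovZ.n2 (560, 27760) (by decide +kernel)
              (CovZ.n2 (480, 27760) (by decide +kernel)
               (CovZ.n2 (520, 27800) (by decide +kernel)
                (CovZ.leaf K2_ok TE_l4947 _)
                (CovZ.leaf K2_ok TE_l4948 _))
               (CovZ.subM 713623846352980098985469212291787554990063616 (by decide +kernel)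
                (CovZ.n1 (520, 27720) (by decide +kernel)
                 (CovZ.n2 (480, 27720) (by decide +kernel)
                  (CovZ.leaf K2_ok TE_l4949 _)
                  (CovZ.leaf K2_ok TE_l4950 _))
                 (CovZ.n1 (520, 27760) (by decide +kernel)
                  (CovZ.leaf K2_ok TE_l4951 _)
                  (CovZ.leaf K2_ok TE_l4952 _)))))
              (CovZ.n1 (560, 27840) (by decide +kernel)
               (CovZ.n2 (600, 27800) (by decide +kernel)
                (CovZ.leaf K2_ok TE_l4953 _)
                (CovZ.leaf K2_ok TE_l4954 _))
               (CovZ.n1 (520, 27800) (by decide +kernel)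
                (CovZ.leaf K2_ok TE_l4955 _)
                (CovZ.leaf K2_ok TE_l4956 _))))
             (CovZ.n1 (400, 27760) (by decide +kernel)
              (CovZ.n2 (400, 27840) (by decide +kernel)
               (CovZ.n2 (440, 27800) (by decide +kernel)
                (CovZ.leaf K2_ok TE_l4957 _)
                (CovZ.leaf K2_ok TE_l4958 _))
               (CovZ.n1 (360, 27800) (by decide +kernel)
                (CovZ.leaf K2_ok TE_l4959 _)
                (CovZ.leaf K2_ok TE_l4960 _)))
              (CovZ.n1 (480, 27760) (by decide +kernel)
               (CovZ.n2 (440, 27720) (by decide +kernel)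
                (CovZ.leaf K2_ok TE_l4961 _)
                (CovZ.n1 (480, 27720) (by decide +kernel)
                 (CovZ.leaf K2_ok TE_l4962 _)
                 (CovZ.leaf K2_ok TE_l4963 _)))
               (CovZ.n1 (440, 27800) (by decide +kernel)
                (CovZ.leaf K2_ok TE_l4964 _)
                (CovZ.leaf K2_ok TE_l4965 _)))))
            (CovZ.subM 713623846363364695178418927672865023737200640 (by decide +kernel)
             (CovZ.n1 (640, 27680) (by decide +kernel)
              (CovZ.subM 8589934592 (by decide +kernel)
               (CovZ.n2 (560, 27600) (by decide +kernel)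
                (CovZ.n2 (560, 27680) (by decide +kernel)
                 (CovZ.badM (by decide +kernel))
                 (CovZ.n1 (520, 27640) (by decide +kernel)
                  (CovZ.n2 (520, 27680) (by decide +kernel)
                   (CovZ.badM (by decide +kernel))
                   (CovZ.n1 (500, 27660) (by decide +kernel)
                    (CovZ.leaf K2_ok TE_l4969 _)
                    (CovZ.badM (by decide +kernel))))
                  (CovZ.badM (by decide +kernel))))
                (CovZ.badM (by decide +kernel))))
              (CovZ.n1 (560, 27760) (by decide +kernel)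
               (CovZ.n2 (640, 27760) (by decide +kernel)
                (CovZ.subM 713623846352980098985468013253422763869208576 (by decide +kernel)
                 (CovZ.n2 (600, 27720) (by decide +kernel)
                  (CovZ.n2 (600, 27760) (by decide +kernel)
                   (CovZ.leaf K2_ok TE_l4972 _)
                   (CovZ.leaf K2_ok TE_l4973 _))
                  (CovZ.n1 (640, 27720) (by decide +kernel)
                   (CovZ.n2 (620, 27700) (by decide +kernel)
                    (CovZ.leaf K2_ok TE_l4974 _)
                    (CovZ.leaf K2_ok TE_l4975 _))
                   (CovZ.leaf K2_ok TE_l4976 _))))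
                (CovZ.n1 (600, 27800) (by decide +kernel)
                 (CovZ.leaf K2_ok TE_l4977 _)
                 (CovZ.n1 (600, 27760) (by decide +kernel)
                  (CovZ.leaf K2_ok TE_l4978 _)
                  (CovZ.leaf K2_ok TE_l4979 _))))
               (CovZ.subM 713623846352980098985468013253422763869208576 (by decide +kernel)
                (CovZ.n1 (560, 27680) (by decide +kernel)
                 (CovZ.n2 (520, 27720) (by decide +kernel)
                  (CovZ.n2 (560, 27720) (by decide +kernel)
                   (CovZ.n2 (540, 27700) (by decide +kernel)
                    (CovZ.leaf K2_ok TE_l4980 _)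
                    (CovZ.leaf K2_ok TE_l4981 _))
                   (CovZ.leaf K2_ok TE_l4982 _))
                  (CovZ.n1 (520, 27680) (by decide +kernel)
                   (CovZ.leaf K2_ok TE_l4983 _)
                   (CovZ.leaf K2_ok TE_l4984 _)))
                 (CovZ.n1 (600, 27720) (by decide +kernel)
                  (CovZ.n2 (600, 27680) (by decide +kernel)
                   (CovZ.leaf K2_ok TE_l4985 _)
                   (CovZ.n1 (620, 27700) (by decide +kernel)
                    (CovZ.badM (by decide +kernel))
                    (CovZ.leaf K2_ok TE_l4987 _)))
                  (CovZ.n1 (560, 27720) (by decide +kernel)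
                   (CovZ.leaf K2_ok TE_l4988 _)
                   (CovZ.leaf K2_ok TE_l4989 _))))))))))
          (CovZ.n1 (480, 28000) (by decide +kernel)
           (CovZ.n2 (640, 28000) (by decide +kernel)
            (CovZ.n2 (560, 27920) (by decide +kernel)
             (CovZ.n2 (560, 28000) (by decide +kernel)
              (CovZ.leaf K2_ok TE_l4990 _)
              (CovZ.n1 (520, 27960) (by decide +kernel)
               (CovZ.leaf K2_ok TE_l4991 _)
               (CovZ.leaf K2_ok TE_l4992 _)))
             (CovZ.n1 (640, 27920) (by decide +kernel)
              (CovZ.n2 (600, 27880) (by decide +kernel)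
               (CovZ.leaf K2_ok TE_l4993 _)
               (CovZ.leaf K2_ok TE_l4994 _))
              (CovZ.leaf K2_ok TE_l4995 _)))
            (CovZ.n1 (560, 28080) (by decide +kernel)
             (CovZ.n2 (640, 28080) (by decide +kernel)
              (CovZ.n2 (600, 28040) (by decide +kernel)
               (CovZ.leaf K2_ok TE_l4996 _)
               (CovZ.leaf K2_ok TE_l4997 _))
              (CovZ.leaf K2_ok TE_l4998 _))
             (CovZ.n1 (560, 28000) (by decide +kernel)
              (CovZ.leaf K2_ok TE_l4999 _)
              (CovZ.n1 (600, 28040) (by decide +kernel)
               (CovZ.leaf K2_ok TE_l5000 _)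
               (CovZ.leaf K2_ok TE_l5001 _)))))
           (CovZ.subM 25122199402146451602209005285470789546223607804805114757120 (by decide +kernel)
            (CovZ.n1 (480, 27840) (by decide +kernel)
             (CovZ.n2 (400, 27920) (by decide +kernel)
              (CovZ.n2 (480, 27920) (by decide +kernel)
               (CovZ.n2 (440, 27880) (by decide +kernel)
                (CovZ.leaf K2_ok TE_l5002 _)
                (CovZ.leaf K2_ok TE_l5003 _))
               (CovZ.leaf K2_ok TE_l5004 _))
              (CovZ.n1 (400, 27840) (by decide +kernel)
               (CovZ.leaf K2_ok TE_l5005 _)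
               (CovZ.n1 (440, 27880) (by decide +kernel)
                (CovZ.leaf K2_ok TE_l5006 _)
                (CovZ.leaf K2_ok TE_l5007 _))))
             (CovZ.n1 (560, 27920) (by decide +kernel)
              (CovZ.n2 (560, 27840) (by decide +kernel)
               (CovZ.n2 (520, 27880) (by decide +kernel)
                (CovZ.leaf K2_ok TE_l5008 _)
                (CovZ.leaf K2_ok TE_l5009 _))
               (CovZ.n1 (600, 27880) (by decide +kernel)
                (CovZ.leaf K2_ok TE_l5010 _)
                (CovZ.leaf K2_ok TE_l5011 _)))
              (CovZ.n1 (480, 27920) (by decide +kernel)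
               (CovZ.n2 (520, 27960) (by decide +kernel)
                (CovZ.leaf K2_ok TE_l5012 _)
                (CovZ.leaf K2_ok TE_l5013 _))
               (CovZ.n1 (520, 27880) (by decide +kernel)
                (CovZ.leaf K2_ok TE_l5014 _)
                (CovZ.leaf K2_ok TE_l5015 _))))))))))
       (CovZ.n1 (1280, 27520) (by decide +kernel)
        (CovZ.subM 590295810358705651712 (by decide +kernel)
         (CovZ.n2 (960, 27200) (by decide +kernel)
          (CovZ.n2 (960, 27520) (by decide +kernel)
           (CovZ.n2 (1120, 27360) (by decide +kernel)
            (CovZ.badM (by decide +kernel))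
            (CovZ.n1 (1120, 27520) (by decide +kernel)
             (CovZ.badM (by decide +kernel))
             (CovZ.badM (by decide +kernel))))
           (CovZ.badM (by decide +kernel)))
          (CovZ.badM (by decide +kernel))))
        (CovZ.n1 (960, 27840) (by decide +kernel)
         TE_u78
         TE_u79))))

theorem TE_u82 : CovZ TE_M (toL (selN TE_LN 408428463559916858450504009497439287585347609274444205896112)) [0, 7, 6, 1] (5120, 27840) (5120, 28160) (4800, 27840) :=
    (CovZ.n1 (4960, 28000) (by decide +kernel)
           (CovZ.subM 6669420593848349008559216614969299736089093761267176939696 (by decide +kernel)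
            (CovZ.n2 (5120, 28000) (by decide +kernel)
             (CovZ.n2 (5040, 27920) (by decide +kernel)
              (CovZ.n2 (5040, 28000) (by decide +kernel)
               (CovZ.n2 (5080, 27960) (by decide +kernel)
                (CovZ.n2 (5040, 27960) (by decide +kernel)
                 (CovZ.n2 (5060, 27980) (by decide +kernel)
                  (CovZ.leaf K2_ok TE_l7726 _)
                  (CovZ.leaf K2_ok TE_l7727 _))
                 (CovZ.leaf K2_ok TE_l7728 _))
                (CovZ.n1 (5080, 28000) (by decide +kernel)
                 (CovZ.n2 (5100, 27980) (by decide +kernel)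
                  (CovZ.leaf K2_ok TE_l7729 _)
                  (CovZ.leaf K2_ok TE_l7730 _))
                 (CovZ.n1 (5060, 27980) (by decide +kernel)
                  (CovZ.leaf K2_ok TE_l7731 _)
                  (CovZ.leaf K2_ok TE_l7732 _))))
               (CovZ.n1 (5000, 27960) (by decide +kernel)
                (CovZ.leaf K2_ok TE_l7733 _)
                (CovZ.n1 (5040, 27960) (by decide +kernel)
                 (CovZ.leaf K2_ok TE_l7734 _)
                 (CovZ.leaf K2_ok TE_l7735 _))))
              (CovZ.n1 (5120, 27920) (by decide +kernel)
               (CovZ.n2 (5080, 27880) (by decide +kernel)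
                (CovZ.leaf K2_ok TE_l7736 _)
                (CovZ.n1 (5120, 27880) (by decide +kernel)
                 (CovZ.leaf K2_ok TE_l7737 _)
                 (CovZ.leaf K2_ok TE_l7738 _)))
               (CovZ.n1 (5080, 27960) (by decide +kernel)
                (CovZ.n2 (5120, 27960) (by decide +kernel)
                 (CovZ.n2 (5100, 27940) (by decide +kernel)
                  (CovZ.leaf K2_ok TE_l7739 _)
                  (CovZ.leaf K2_ok TE_l7740 _))
                 (CovZ.n1 (5100, 27980) (by decide +kernel)
                  (CovZ.leaf K2_ok TE_l7741 _)
                  (CovZ.leaf K2_ok TE_l7742 _)))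
                (CovZ.n1 (5080, 27920) (by decide +kernel)
                 (CovZ.leaf K2_ok TE_l7743 _)
                 (CovZ.n1 (5100, 27940) (by decide +kernel)
                  (CovZ.leaf K2_ok TE_l7744 _)
                  (CovZ.leaf K2_ok TE_l7745 _))))))
             (CovZ.n1 (5040, 28080) (by decide +kernel)
              (CovZ.subM 6277101735386680763835789423207666567218227016978852225040 (by decide +kernel)
               (CovZ.n2 (5120, 28080) (by decide +kernel)
                (CovZ.n2 (5080, 28040) (by decide +kernel)
                 (CovZ.n2 (5080, 28080) (by decide +kernel)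
                  (CovZ.n2 (5100, 28060) (by decide +kernel)
                   (CovZ.n2 (5080, 28060) (by decide +kernel)
                    (CovZ.n2 (5090, 28070) (by decide +kernel)
                     (CovZ.leaf K2_ok TE_l17446 _)
                     (CovZ.n1 (5080, 28070) (by decide +kernel)
                      (CovZ.leaf K2_ok TE_l17447 _)
                      (CovZ.leaf K2_ok TE_l17448 _)))
                    (CovZ.n1 (5090, 28050) (by decide +kernel)
                     (CovZ.leaf K2_ok TE_l7746 _)
                     (CovZ.leaf K2_ok TE_l17449 _)))
                   (CovZ.subM 151115727451828646838272 (by decide +kernel)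
                    (CovZ.n1 (5100, 28080) (by decide +kernel)
                     (CovZ.n2 (5110, 28070) (by decide +kernel)
                      (CovZ.n2 (5100, 28070) (by decide +kernel)
                       (CovZ.badM (by decide +kernel))
                       (CovZ.leaf K2_ok TE_l17450 _))
                      (CovZ.badM (by decide +kernel)))
                     (CovZ.n1 (5090, 28070) (by decide +kernel)
                      (CovZ.n2 (5090, 28080) (by decide +kernel)
                       (CovZ.n2 (5095, 28075) (by decide +kernel)
                        (CovZ.leaf K2_ok TE_l17451 _)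
                        (CovZ.badM (by decide +kernel)))
                       (CovZ.n1 (5085, 28075) (by decide +kernel)
                        (CovZ.leaf K2_ok TE_l17452 _)
                        (CovZ.leaf K2_ok TE_l17453 _)))
                      (CovZ.leaf K2_ok TE_l17454 _)))))
                  (CovZ.n1 (5060, 28060) (by decide +kernel)
                   (CovZ.n2 (5060, 28080) (by decide +kernel)
                    (CovZ.n2 (5070, 28070) (by decide +kernel)
                     (CovZ.leaf K2_ok TE_l7747 _)
                     (CovZ.leaf K2_ok TE_l17455 _))
                    (CovZ.n1 (5050, 28070) (by decide +kernel)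
                     (CovZ.leaf K2_ok TE_l7748 _)
                     (CovZ.leaf K2_ok TE_l7749 _)))
                   (CovZ.n1 (5080, 28060) (by decide +kernel)
                    (CovZ.leaf K2_ok TE_l7750 _)
                    (CovZ.n1 (5070, 28070) (by decide +kernel)
                     (CovZ.leaf K2_ok TE_l17456 _)
                     (CovZ.leaf K2_ok TE_l7751 _)))))
                 (CovZ.n1 (5120, 28040) (by decide +kernel)
                  (CovZ.n2 (5100, 28020) (by decide +kernel)
                   (CovZ.n2 (5100, 28040) (by decide +kernel)
                    (CovZ.n2 (5110, 28030) (by decide +kernel)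
                     (CovZ.leaf K2_ok TE_l7752 _)
                     (CovZ.leaf K2_ok TE_l17457 _))
                    (CovZ.n1 (5090, 28030) (by decide +kernel)
                     (CovZ.leaf K2_ok TE_l7753 _)
                     (CovZ.leaf K2_ok TE_l7754 _)))
                   (CovZ.n1 (5120, 28020) (by decide +kernel)
                    (CovZ.leaf K2_ok TE_l7755 _)
                    (CovZ.n1 (5110, 28030) (by decide +kernel)
                     (CovZ.leaf K2_ok TE_l17458 _)
                     (CovZ.leaf K2_ok TE_l7756 _))))
                  (CovZ.n1 (5100, 28060) (by decide +kernel)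
                   (CovZ.subM 151115727452928158466048 (by decide +kernel)
                    (CovZ.n2 (5120, 28060) (by decide +kernel)
                     (CovZ.n2 (5110, 28050) (by decide +kernel)
                      (CovZ.n2 (5110, 28060) (by decide +kernel)
                       (CovZ.leaf K2_ok TE_l17459 _)
                       (CovZ.leaf K2_ok TE_l17460 _))
                      (CovZ.leaf K2_ok TE_l17461 _))
                     (CovZ.n1 (5110, 28070) (by decide +kernel)
                      (CovZ.badM (by decide +kernel))
                      (CovZ.n1 (5110, 28060) (by decide +kernel)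
                       (CovZ.leaf K2_ok TE_l17462 _)
                       (CovZ.badM (by decide +kernel))))))
                   (CovZ.n1 (5100, 28040) (by decide +kernel)
                    (CovZ.leaf K2_ok TE_l7757 _)
                    (CovZ.subM 151115727457326741848064 (by decide +kernel)
                     (CovZ.n1 (5110, 28050) (by decide +kernel)
                      (CovZ.leaf K2_ok TE_l17463 _)
                      (CovZ.n1 (5100, 28050) (by decide +kernel)
                       (CovZ.n2 (5105, 28055) (by decide +kernel)
                        (CovZ.leaf K2_ok TE_l17464 _)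
                        (CovZ.leaf K2_ok TE_l17465 _))
                       (CovZ.leaf K2_ok TE_l17466 _))))))))
                (CovZ.n1 (5080, 28120) (by decide +kernel)
                 (CovZ.badM (by decide +kernel))
                 (CovZ.n1 (5080, 28080) (by decide +kernel)
                  (CovZ.n2 (5060, 28100) (by decide +kernel)
                   (CovZ.subM 151115727451828646838272 (by decide +kernel)
                    (CovZ.n2 (5080, 28100) (by decide +kernel)
                     (CovZ.n2 (5070, 28090) (by decide +kernel)
                      (CovZ.n2 (5070, 28100) (by decide +kernel)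
                       (CovZ.n2 (5075, 28095) (by decide +kernel)
                        (CovZ.leaf K2_ok TE_l17467 _)
                        (CovZ.badM (by decide +kernel)))
                       (CovZ.n1 (5065, 28095) (by decide +kernel)
                        (CovZ.leaf K2_ok TE_l17468 _)
                        (CovZ.leaf K2_ok TE_l17469 _)))
                      (CovZ.n1 (5080, 28090) (by decide +kernel)
                       (CovZ.n2 (5075, 28085) (by decide +kernel)
                        (CovZ.leaf K2_ok TE_l17470 _)
                        (CovZ.leaf K2_ok TE_l17471 _))
                       (CovZ.n1 (5075, 28095) (by decide +kernel)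
                        (CovZ.badM (by decide +kernel))
                        (CovZ.leaf K2_ok TE_l17472 _))))
                     (CovZ.n1 (5070, 28110) (by decide +kernel)
                      (CovZ.badM (by decide +kernel))
                      (CovZ.n1 (5070, 28100) (by decide +kernel)
                       (CovZ.n2 (5065, 28105) (by decide +kernel)
                        (CovZ.badM (by decide +kernel))
                        (CovZ.leaf K2_ok TE_l17473 _))
                       (CovZ.badM (by decide +kernel))))))
                   (CovZ.n1 (5060, 28080) (by decide +kernel)
                    (CovZ.n2 (5050, 28090) (by decide +kernel)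
                     (CovZ.leaf K2_ok TE_l17474 _)
                     (CovZ.leaf K2_ok TE_l7758 _))
                    (CovZ.subM 151115727456226693349376 (by decide +kernel)
                     (CovZ.n1 (5070, 28090) (by decide +kernel)
                      (CovZ.leaf K2_ok TE_l17475 _)
                      (CovZ.n1 (5060, 28090) (by decide +kernel)
                       (CovZ.n2 (5065, 28095) (by decide +kernel)
                        (CovZ.leaf K2_ok TE_l17476 _)
                        (CovZ.leaf K2_ok TE_l17477 _))
                       (CovZ.leaf K2_ok TE_l17478 _))))))
                  (CovZ.subM 151115727451828646838272 (by decide +kernel)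
                   (CovZ.n1 (5100, 28100) (by decide +kernel)
                    (CovZ.n2 (5100, 28080) (by decide +kernel)
                     (CovZ.n2 (5090, 28090) (by decide +kernel)
                      (CovZ.badM (by decide +kernel))
                      (CovZ.n1 (5090, 28080) (by decide +kernel)
                       (CovZ.n2 (5085, 28085) (by decide +kernel)
                        (CovZ.badM (by decide +kernel))
                        (CovZ.leaf K2_ok TE_l17479 _))
                       (CovZ.badM (by decide +kernel))))
                     (CovZ.badM (by decide +kernel)))
                    (CovZ.n1 (5080, 28100) (by decide +kernel)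
                     (CovZ.badM (by decide +kernel))
                     (CovZ.n1 (5090, 28090) (by decide +kernel)
                      (CovZ.n2 (5080, 28090) (by decide +kernel)
                       (CovZ.badM (by decide +kernel))
                       (CovZ.n1 (5085, 28085) (by decide +kernel)
                        (CovZ.leaf K2_ok TE_l17480 _)
                        (CovZ.badM (by decide +kernel))))
                      (CovZ.badM (by decide +kernel))))))))))
              (CovZ.n1 (5040, 28000) (by decide +kernel)
               (CovZ.n2 (5000, 28040) (by decide +kernel)
                (CovZ.subM 6277101735386680763835789423207666567218231520578488049808 (by decide +kernel)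
                 (CovZ.n2 (5040, 28040) (by decide +kernel)
                  (CovZ.n2 (5020, 28020) (by decide +kernel)
                   (CovZ.leaf K2_ok TE_l7759 _)
                   (CovZ.leaf K2_ok TE_l7760 _))
                  (CovZ.n1 (5020, 28060) (by decide +kernel)
                   (CovZ.n2 (5040, 28060) (by decide +kernel)
                    (CovZ.leaf K2_ok TE_l7761 _)
                    (CovZ.leaf K2_ok TE_l7762 _))
                   (CovZ.leaf K2_ok TE_l7763 _))))
                (CovZ.n1 (5000, 28000) (by decide +kernel)
                 (CovZ.leaf K2_ok TE_l7764 _)
                 (CovZ.n1 (5020, 28020) (by decide +kernel)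
                  (CovZ.leaf K2_ok TE_l7765 _)
                  (CovZ.leaf K2_ok TE_l7766 _))))
               (CovZ.subM 6277101735386680763835789423207666567218231520578488049808 (by decide +kernel)
                (CovZ.n1 (5080, 28040) (by decide +kernel)
                 (CovZ.n2 (5080, 28000) (by decide +kernel)
                  (CovZ.n2 (5060, 28020) (by decide +kernel)
                   (CovZ.leaf K2_ok TE_l7767 _)
                   (CovZ.leaf K2_ok TE_l7768 _))
                  (CovZ.n1 (5100, 28020) (by decide +kernel)
                   (CovZ.n2 (5100, 28000) (by decide +kernel)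
                    (CovZ.leaf K2_ok TE_l7769 _)
                    (CovZ.leaf K2_ok TE_l7770 _))
                   (CovZ.n1 (5080, 28020) (by decide +kernel)
                    (CovZ.leaf K2_ok TE_l7771 _)
                    (CovZ.leaf K2_ok TE_l7772 _))))
                 (CovZ.n1 (5040, 28040) (by decide +kernel)
                  (CovZ.subM 151115871572514817712144 (by decide +kernel)
                   (CovZ.n2 (5060, 28060) (by decide +kernel)
                    (CovZ.n2 (5060, 28040) (by decide +kernel)
                     (CovZ.leaf K2_ok TE_l7773 _)
                     (CovZ.n1 (5070, 28050) (by decide +kernel)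
                      (CovZ.leaf K2_ok TE_l7774 _)
                      (CovZ.leaf K2_ok TE_l7775 _)))
                    (CovZ.n1 (5040, 28060) (by decide +kernel)
                     (CovZ.n2 (5050, 28070) (by decide +kernel)
                      (CovZ.leaf K2_ok TE_l7776 _)
                      (CovZ.leaf K2_ok TE_l7777 _))
                     (CovZ.leaf K2_ok TE_l7778 _))))
                  (CovZ.n1 (5060, 28020) (by decide +kernel)
                   (CovZ.leaf K2_ok TE_l7779 _)
                   (CovZ.leaf K2_ok TE_l7780 _)))))))))
           (CovZ.n1 (4960, 27840) (by decide +kernel)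
            (CovZ.n2 (4880, 27920) (by decide +kernel)
             (CovZ.n2 (4960, 27920) (by decide +kernel)
              (CovZ.leaf K2_ok TE_l7781 _)
              (CovZ.leaf K2_ok TE_l7782 _))
             (CovZ.n1 (4880, 27840) (by decide +kernel)
              (CovZ.leaf K2_ok TE_l7783 _)
              (CovZ.leaf K2_ok TE_l7784 _)))
            (CovZ.n1 (5040, 27920) (by decide +kernel)
             (CovZ.n2 (5040, 27840) (by decide +kernel)
              (CovZ.leaf K2_ok TE_l7785 _)
              (CovZ.n1 (5080, 27880) (by decide +kernel)
               (CovZ.leaf K2_ok TE_l7786 _)
               (CovZ.leaf K2_ok TE_l7787 _)))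
             (CovZ.n1 (4960, 27920) (by decide +kernel)
              (CovZ.n2 (5000, 27960) (by decide +kernel)
               (CovZ.leaf K2_ok TE_l7788 _)
               (CovZ.leaf K2_ok TE_l7789 _))
              (CovZ.leaf K2_ok TE_l7790 _)))))

theorem TE_u83 : CovZ TE_M (toL (selN TE_LN 609393800727696005190605300500020877764731031424501593800632)) [0, 7, 6, 1] (5120, 28160) (3840, 26880) (5120, 25600) :=
    (CovZ.n2 (5120, 26880) (by decide +kernel)
     (CovZ.n2 (4480, 26240) (by decide +kernel)
      (CovZ.n2 (4480, 26880) (by decide +kernel)
       (CovZ.leaf K2_ok TE_l7698 _)
       (CovZ.n1 (4160, 26560) (by decide +kernel)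
        (CovZ.n2 (4160, 26880) (by decide +kernel)
         (CovZ.leaf K2_ok TE_l7699 _)
         (CovZ.leaf K2_ok TE_l7700 _))
        (CovZ.leaf K2_ok TE_l7701 _)))
      (CovZ.n1 (5120, 26240) (by decide +kernel)
       (CovZ.n2 (4800, 25920) (by decide +kernel)
        (CovZ.leaf K2_ok TE_l7702 _)
        (CovZ.leaf K2_ok TE_l7703 _))
       (CovZ.leaf K2_ok TE_l7704 _)))
     (CovZ.n1 (4480, 27520) (by decide +kernel)
      (CovZ.n2 (5120, 27520) (by decide +kernel)
       (CovZ.n2 (4800, 27200) (by decide +kernel)
        (CovZ.n2 (4800, 27520) (by decide +kernel)
         (CovZ.n2 (4960, 27360) (by decide +kernel)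
          (CovZ.leaf K2_ok TE_l7705 _)
          (CovZ.n1 (4960, 27520) (by decide +kernel)
           (CovZ.leaf K2_ok TE_l7706 _)
           (CovZ.leaf K2_ok TE_l7707 _)))
         (CovZ.n1 (4640, 27360) (by decide +kernel)
          (CovZ.leaf K2_ok TE_l7708 _)
          (CovZ.leaf K2_ok TE_l7709 _)))
        (CovZ.n1 (5120, 27200) (by decide +kernel)
         (CovZ.leaf K2_ok TE_l7710 _)
         (CovZ.leaf K2_ok TE_l7711 _)))
       (CovZ.n1 (4800, 27840) (by decide +kernel)
        (CovZ.subM 408428463559916858450504009497439287585347609274444205896112 (by decide +kernel)
         (CovZ.n2 (5120, 27840) (by decide +kernel)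
          (CovZ.n2 (4960, 27680) (by decide +kernel)
           (CovZ.n2 (4960, 27840) (by decide +kernel)
            (CovZ.n2 (5040, 27760) (by decide +kernel)
             (CovZ.n2 (4960, 27760) (by decide +kernel)
              (CovZ.leaf K2_ok TE_l7712 _)
              (CovZ.leaf K2_ok TE_l7713 _))
             (CovZ.n1 (5040, 27840) (by decide +kernel)
              (CovZ.n2 (5080, 27800) (by decide +kernel)
               (CovZ.leaf K2_ok TE_l7714 _)
               (CovZ.leaf K2_ok TE_l7715 _))
              (CovZ.leaf K2_ok TE_l7716 _)))
            (CovZ.n1 (4880, 27760) (by decide +kernel)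
             (CovZ.leaf K2_ok TE_l7717 _)
             (CovZ.leaf K2_ok TE_l7718 _)))
           (CovZ.n1 (5120, 27680) (by decide +kernel)
            (CovZ.n2 (5040, 27600) (by decide +kernel)
             (CovZ.leaf K2_ok TE_l7719 _)
             (CovZ.leaf K2_ok TE_l7720 _))
            (CovZ.n1 (5040, 27760) (by decide +kernel)
             (CovZ.n2 (5120, 27760) (by decide +kernel)
              (CovZ.n2 (5080, 27720) (by decide +kernel)
               (CovZ.leaf K2_ok TE_l7721 _)
               (CovZ.leaf K2_ok TE_l7722 _))
              (CovZ.leaf K2_ok TE_l7723 _))
             (CovZ.n1 (5040, 27680) (by decide +kernel)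
              (CovZ.leaf K2_ok TE_l7724 _)
              (CovZ.leaf K2_ok TE_l7725 _)))))
          TE_u82))
        (CovZ.n1 (4800, 27520) (by decide +kernel)
         (CovZ.n2 (4640, 27680) (by decide +kernel)
          (CovZ.n2 (4800, 27680) (by decide +kernel)
           (CovZ.leaf K2_ok TE_l7791 _)
           (CovZ.leaf K2_ok TE_l7792 _))
          (CovZ.leaf K2_ok TE_l7793 _))
         (CovZ.n1 (4960, 27680) (by decide +kernel)
          (CovZ.n2 (4960, 27520) (by decide +kernel)
           (CovZ.leaf K2_ok TE_l7794 _)
           (CovZ.n1 (5040, 27600) (by decide +kernel)
            (CovZ.leaf K2_ok TE_l7795 _)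
            (CovZ.leaf K2_ok TE_l7796 _)))
          (CovZ.n1 (4800, 27680) (by decide +kernel)
           (CovZ.n2 (4880, 27760) (by decide +kernel)
            (CovZ.leaf K2_ok TE_l7797 _)
            (CovZ.leaf K2_ok TE_l7798 _))
           (CovZ.leaf K2_ok TE_l7799 _))))))
      (CovZ.n1 (4480, 26880) (by decide +kernel)
       (CovZ.n2 (4160, 27200) (by decide +kernel)
        (CovZ.n2 (4480, 27200) (by decide +kernel)
         (CovZ.leaf K2_ok TE_l7800 _)
         (CovZ.leaf K2_ok TE_l7801 _))
        (CovZ.n1 (4160, 26880) (by decide +kernel)
         (CovZ.leaf K2_ok TE_l7802 _)
         (CovZ.leaf K2_ok TE_l7803 _)))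
       (CovZ.n1 (4800, 27200) (by decide +kernel)
        (CovZ.leaf K2_ok TE_l7804 _)
        (CovZ.n1 (4480, 27200) (by decide +kernel)
         (CovZ.n2 (4640, 27360) (by decide +kernel)
          (CovZ.leaf K2_ok TE_l7805 _)
          (CovZ.leaf K2_ok TE_l7806 _))
         (CovZ.leaf K2_ok TE_l7807 _))))))

theorem TE_u84 : CovZ TE_M (toL (selN TE_LN 609393800727696005190605300500020877764731031424501593800632)) [0, 7, 6, 1] (3840, 26880) (2560, 25600) (5120, 25600) :=
    (CovZ.n1 (3840, 25600) (by decide +kernel)
     (CovZ.n2 (3200, 26240) (by decide +kernel)
      (CovZ.n2 (3840, 26240) (by decide +kernel)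
       (CovZ.subM 24531904609318761841319981204907437661825872582345873840 (by decide +kernel)
        (CovZ.n2 (3520, 25920) (by decide +kernel)
         (CovZ.n2 (3520, 26240) (by decide +kernel)
          (CovZ.leaf K2_ok TE_l7808 _)
          (CovZ.n1 (3360, 26080) (by decide +kernel)
           (CovZ.leaf K2_ok TE_l7809 _)
           (CovZ.leaf K2_ok TE_l7810 _)))
         (CovZ.leaf K2_ok TE_l7811 _)))
       (CovZ.n1 (3520, 26560) (by decide +kernel)
        (CovZ.n2 (3840, 26560) (by decide +kernel)
         (CovZ.leaf K2_ok TE_l7812 _)
         (CovZ.leaf K2_ok TE_l7813 _))
        (CovZ.n1 (3520, 26240) (by decide +kernel)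
         (CovZ.leaf K2_ok TE_l7814 _)
         (CovZ.leaf K2_ok TE_l7815 _))))
      (CovZ.subM 423881147492583199823675172108178890181187065142192 (by decide +kernel)
       (CovZ.n1 (3200, 25600) (by decide +kernel)
        (CovZ.n2 (2880, 25920) (by decide +kernel)
         (CovZ.n2 (3200, 25920) (by decide +kernel)
          (CovZ.n2 (3040, 25760) (by decide +kernel)
           (CovZ.n2 (3040, 25920) (by decide +kernel)
            (CovZ.leaf K2_ok TE_l7816 _)
            (CovZ.n1 (2960, 25840) (by decide +kernel)
             (CovZ.leaf K2_ok TE_l7817 _)
             (CovZ.leaf K2_ok TE_l7818 _)))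
           (CovZ.n1 (3200, 25760) (by decide +kernel)
            (CovZ.n2 (3120, 25680) (by decide +kernel)
             (CovZ.leaf K2_ok TE_l7819 _)
             (CovZ.leaf K2_ok TE_l7820 _))
            (CovZ.leaf K2_ok TE_l7821 _)))
          (CovZ.n1 (3040, 26080) (by decide +kernel)
           (CovZ.leaf K2_ok TE_l7822 _)
           (CovZ.n1 (3040, 25920) (by decide +kernel)
            (CovZ.leaf K2_ok TE_l7823 _)
            (CovZ.leaf K2_ok TE_l7824 _))))
         (CovZ.n1 (2880, 25600) (by decide +kernel)
          (CovZ.subM 49736727595417622262440119377295134706494702372864 (by decide +kernel)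
           (CovZ.n2 (2720, 25760) (by decide +kernel)
            (CovZ.n2 (2880, 25760) (by decide +kernel)
             (CovZ.n2 (2800, 25680) (by decide +kernel)
              (CovZ.n2 (2800, 25760) (by decide +kernel)
               (CovZ.leaf K2_ok TE_l7825 _)
               (CovZ.n1 (2760, 25720) (by decide +kernel)
                (CovZ.leaf K2_ok TE_l7826 _)
                (CovZ.leaf K2_ok TE_l7827 _)))
              (CovZ.n1 (2880, 25680) (by decide +kernel)
               (CovZ.n2 (2840, 25640) (by decide +kernel)
                (CovZ.leaf K2_ok TE_l7828 _)
                (CovZ.leaf K2_ok TE_l7829 _))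
               (CovZ.leaf K2_ok TE_l7830 _)))
             (CovZ.n1 (2800, 25840) (by decide +kernel)
              (CovZ.leaf K2_ok TE_l7831 _)
              (CovZ.n1 (2800, 25760) (by decide +kernel)
               (CovZ.leaf K2_ok TE_l7832 _)
               (CovZ.leaf K2_ok TE_l7833 _))))
            (CovZ.n1 (2720, 25600) (by decide +kernel)
             (CovZ.subM 46813724320755484098711779797943440473356236750848 (by decide +kernel)
              (CovZ.n2 (2640, 25680) (by decide +kernel)
               (CovZ.n2 (2720, 25680) (by decide +kernel)
                (CovZ.badM (by decide +kernel))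
                (CovZ.n1 (2680, 25720) (by decide +kernel)
                 (CovZ.n2 (2720, 25720) (by decide +kernel)
                  (CovZ.leaf K2_ok TE_l7838 _)
                  (CovZ.leaf K2_ok TE_l7839 _))
                 (CovZ.n1 (2680, 25680) (by decide +kernel)
                  (CovZ.leaf K2_ok TE_l19617 _)
                  (CovZ.n1 (2700, 25700) (by decide +kernel)
                   (CovZ.badM (by decide +kernel))
                   (CovZ.leaf K2_ok TE_l7841 _)))))
               (CovZ.n1 (2640, 25600) (by decide +kernel)
                (CovZ.badM (by decide +kernel))
                (CovZ.badM (by decide +kernel)))))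
             (CovZ.subM 45671926166923043475220983684361854996909129728 (by decide +kernel)
              (CovZ.n1 (2800, 25680) (by decide +kernel)
               (CovZ.n2 (2800, 25600) (by decide +kernel)
                (CovZ.subM 20282409603656282109967826681856 (by decide +kernel)
                 (CovZ.n2 (2760, 25640) (by decide +kernel)
                  (CovZ.n2 (2800, 25640) (by decide +kernel)
                   (CovZ.n2 (2780, 25620) (by decide +kernel)
                    (CovZ.leaf K2_ok TE_l7842 _)
                    (CovZ.leaf K2_ok TE_l7843 _))
                   (CovZ.leaf K2_ok TE_l7844 _))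
                  (CovZ.n1 (2760, 25600) (by decide +kernel)
                   (CovZ.badM (by decide +kernel))
                   (CovZ.n1 (2780, 25620) (by decide +kernel)
                    (CovZ.leaf K2_ok TE_l17481 _)
                    (CovZ.leaf K2_ok TE_l7847 _)))))
                (CovZ.n1 (2840, 25640) (by decide +kernel)
                 (CovZ.n2 (2840, 25600) (by decide +kernel)
                  (CovZ.leaf K2_ok TE_l7848 _)
                  (CovZ.leaf K2_ok TE_l7849 _))
                 (CovZ.leaf K2_ok TE_l7850 _)))
               (CovZ.subM 45671926166590736476274754678665954332074573824 (by decide +kernel)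
                (CovZ.n1 (2720, 25680) (by decide +kernel)
                 (CovZ.n2 (2760, 25720) (by decide +kernel)
                  (CovZ.leaf K2_ok TE_l7851 _)
                  (CovZ.leaf K2_ok TE_l7852 _))
                 (CovZ.n1 (2760, 25640) (by decide +kernel)
                  (CovZ.badM (by decide +kernel))
                  (CovZ.n1 (2760, 25680) (by decide +kernel)
                   (CovZ.leaf K2_ok TE_l7857 _)
                   (CovZ.leaf K2_ok TE_l7858 _))))))))))
          (CovZ.n1 (3040, 25760) (by decide +kernel)
           (CovZ.subM 377067423128271572657671220326421000323548603498656 (by decide +kernel)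
            (CovZ.n2 (3040, 25600) (by decide +kernel)
             (CovZ.n2 (2960, 25680) (by decide +kernel)
              (CovZ.n2 (3040, 25680) (by decide +kernel)
               (CovZ.leaf K2_ok TE_l7859 _)
               (CovZ.leaf K2_ok TE_l7860 _))
              (CovZ.n1 (2960, 25600) (by decide +kernel)
               (CovZ.leaf K2_ok TE_l7861 _)
               (CovZ.leaf K2_ok TE_l7862 _)))
             (CovZ.n1 (3120, 25680) (by decide +kernel)
              (CovZ.leaf K2_ok TE_l7863 _)
              (CovZ.leaf K2_ok TE_l7864 _))))
           (CovZ.n1 (2880, 25760) (by decide +kernel)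
            (CovZ.n2 (2960, 25840) (by decide +kernel)
             (CovZ.leaf K2_ok TE_l7865 _)
             (CovZ.leaf K2_ok TE_l7866 _))
            (CovZ.subM 377067422431373285223871656754720291485799735115808 (by decide +kernel)
             (CovZ.n1 (2960, 25680) (by decide +kernel)
              (CovZ.n2 (2880, 25680) (by decide +kernel)
               (CovZ.leaf K2_ok TE_l7867 _)
               (CovZ.n1 (2920, 25640) (by decide +kernel)
                (CovZ.leaf K2_ok TE_l7868 _)
                (CovZ.leaf K2_ok TE_l7869 _)))
              (CovZ.n1 (2960, 25760) (by decide +kernel)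
               (CovZ.leaf K2_ok TE_l7870 _)
               (CovZ.leaf K2_ok TE_l7871 _))))))))
        (CovZ.n1 (3520, 25920) (by decide +kernel)
         (CovZ.n2 (3520, 25600) (by decide +kernel)
          (CovZ.leaf K2_ok TE_l7872 _)
          (CovZ.leaf K2_ok TE_l7873 _))
         (CovZ.n1 (3200, 25920) (by decide +kernel)
          (CovZ.n2 (3360, 26080) (by decide +kernel)
           (CovZ.leaf K2_ok TE_l7874 _)
           (CovZ.leaf K2_ok TE_l7875 _))
          (CovZ.n1 (3360, 25760) (by decide +kernel)
           (CovZ.n2 (3200, 25760) (by decide +kernel)
            (CovZ.leaf K2_ok TE_l7876 _)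
            (CovZ.leaf K2_ok TE_l7877 _))
           (CovZ.leaf K2_ok TE_l7878 _)))))))
     (CovZ.n1 (4480, 26240) (by decide +kernel)
      (CovZ.n2 (4480, 25600) (by decide +kernel)
       (CovZ.leaf K2_ok TE_l7879 _)
       (CovZ.n1 (4800, 25920) (by decide +kernel)
        (CovZ.leaf K2_ok TE_l7880 _)
        (CovZ.leaf K2_ok TE_l7881 _)))
      (CovZ.n1 (3840, 26240) (by decide +kernel)
       (CovZ.n2 (4160, 26560) (by decide +kernel)
        (CovZ.leaf K2_ok TE_l7882 _)
        (CovZ.n1 (3840, 26560) (by decide +kernel)
         (CovZ.leaf K2_ok TE_l7883 _)
         (CovZ.leaf K2_ok TE_l7884 _)))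
       (CovZ.leaf K2_ok TE_l7885 _))))

theorem TE_u85 : CovZ TE_M (toL (selN TE_LN 2219470497621667340733410370615672913012901204914377769742256)) [0, 7, 6, 1] (2560, 28160) (2560, 27520) (3200, 27520) :=
    (CovZ.n2 (2880, 27840) (by decide +kernel)
        (CovZ.n2 (2880, 27520) (by decide +kernel)
         (CovZ.subM 1817343564013303440980707279050108021873686610396692246218640 (by decide +kernel)
          (CovZ.n2 (2720, 27680) (by decide +kernel)
           (CovZ.n2 (2880, 27680) (by decide +kernel)
            (CovZ.n2 (2800, 27600) (by decide +kernel)
             (CovZ.leaf K2_ok TE_l7899 _)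
             (CovZ.leaf K2_ok TE_l7900 _))
            (CovZ.n1 (2800, 27760) (by decide +kernel)
             (CovZ.leaf K2_ok TE_l7901 _)
             (CovZ.leaf K2_ok TE_l7902 _)))
           (CovZ.n1 (2720, 27520) (by decide +kernel)
            (CovZ.n2 (2640, 27600) (by decide +kernel)
             (CovZ.leaf K2_ok TE_l7903 _)
             (CovZ.n1 (2640, 27520) (by decide +kernel)
              (CovZ.leaf K2_ok TE_l7904 _)
              (CovZ.leaf K2_ok TE_l7905 _)))
            (CovZ.n1 (2800, 27600) (by decide +kernel)
             (CovZ.leaf K2_ok TE_l7906 _)
             (CovZ.leaf K2_ok TE_l7907 _)))))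
         (CovZ.n1 (3040, 27680) (by decide +kernel)
          (CovZ.n2 (3040, 27520) (by decide +kernel)
           (CovZ.leaf K2_ok TE_l7908 _)
           (CovZ.leaf K2_ok TE_l7909 _))
          (CovZ.n1 (2880, 27680) (by decide +kernel)
           (CovZ.n2 (2960, 27760) (by decide +kernel)
            (CovZ.leaf K2_ok TE_l7910 _)
            (CovZ.leaf K2_ok TE_l7911 _))
           (CovZ.leaf K2_ok TE_l7912 _))))
        (CovZ.subM 1817343659794274745098590785263336749546904223850353322411920 (by decide +kernel)
         (CovZ.n1 (2560, 27840) (by decide +kernel)
          (CovZ.n2 (2720, 28000) (by decide +kernel)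
           (CovZ.n2 (2720, 27840) (by decide +kernel)
            (CovZ.n2 (2640, 27920) (by decide +kernel)
             (CovZ.n2 (2720, 27920) (by decide +kernel)
              (CovZ.n2 (2680, 27880) (by decide +kernel)
               (CovZ.leaf K2_ok TE_l7913 _)
               (CovZ.leaf K2_ok TE_l7914 _))
              (CovZ.n1 (2680, 27960) (by decide +kernel)
               (CovZ.leaf K2_ok TE_l7915 _)
               (CovZ.leaf K2_ok TE_l7916 _)))
             (CovZ.n1 (2640, 27840) (by decide +kernel)
              (CovZ.n2 (2600, 27880) (by decide +kernel)
               (CovZ.leaf K2_ok TE_l7917 _)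
               (CovZ.n1 (2600, 27840) (by decide +kernel)
                (CovZ.leaf K2_ok TE_l7918 _)
                (CovZ.leaf K2_ok TE_l7919 _)))
              (CovZ.n1 (2680, 27880) (by decide +kernel)
               (CovZ.leaf K2_ok TE_l7920 _)
               (CovZ.leaf K2_ok TE_l7921 _))))
            (CovZ.n1 (2800, 27920) (by decide +kernel)
             (CovZ.n2 (2800, 27840) (by decide +kernel)
              (CovZ.leaf K2_ok TE_l7922 _)
              (CovZ.leaf K2_ok TE_l7923 _))
             (CovZ.n1 (2720, 27920) (by decide +kernel)
              (CovZ.n2 (2760, 27960) (by decide +kernel)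
               (CovZ.leaf K2_ok TE_l7924 _)
               (CovZ.leaf K2_ok TE_l7925 _))
              (CovZ.leaf K2_ok TE_l7926 _))))
           (CovZ.subM 669806314559649696650488881455580416 (by decide +kernel)
            (CovZ.n1 (2560, 28000) (by decide +kernel)
             (CovZ.n2 (2640, 28080) (by decide +kernel)
              (CovZ.n2 (2640, 28000) (by decide +kernel)
               (CovZ.subM 396752571537345304609024 (by decide +kernel)
                (CovZ.n2 (2600, 28040) (by decide +kernel)
                 (CovZ.n2 (2640, 28040) (by decide +kernel)
                  (CovZ.n2 (2620, 28020) (by decide +kernel)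
                   (CovZ.leaf K2_ok TE_l7927 _)
                   (CovZ.leaf K2_ok TE_l7928 _))
                  (CovZ.n1 (2620, 28060) (by decide +kernel)
                   (CovZ.leaf K2_ok TE_l7929 _)
                   (CovZ.leaf K2_ok TE_l7930 _)))
                 (CovZ.n1 (2600, 28000) (by decide +kernel)
                  (CovZ.n2 (2580, 28020) (by decide +kernel)
                   (CovZ.leaf K2_ok TE_l7931 _)
                   (CovZ.leaf K2_ok TE_l7932 _))
                  (CovZ.n1 (2620, 28020) (by decide +kernel)
                   (CovZ.leaf K2_ok TE_l7933 _)
                   (CovZ.leaf K2_ok TE_l7934 _)))))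
               (CovZ.n1 (2680, 28040) (by decide +kernel)
                (CovZ.n2 (2680, 28000) (by decide +kernel)
                 (CovZ.leaf K2_ok TE_l7935 _)
                 (CovZ.leaf K2_ok TE_l7936 _))
                (CovZ.n1 (2640, 28040) (by decide +kernel)
                 (CovZ.n2 (2660, 28060) (by decide +kernel)
                  (CovZ.leaf K2_ok TE_l7937 _)
                  (CovZ.leaf K2_ok TE_l7938 _))
                 (CovZ.leaf K2_ok TE_l7939 _))))
              (CovZ.subM 29588577494230389243904 (by decide +kernel)
               (CovZ.n1 (2560, 28080) (by decide +kernel)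
                (CovZ.n2 (2600, 28120) (by decide +kernel)
                 (CovZ.n2 (2600, 28080) (by decide +kernel)
                  (CovZ.badM (by decide +kernel))
                  (CovZ.n1 (2620, 28100) (by decide +kernel)
                   (CovZ.leaf K2_ok TE_l7940 _)
                   (CovZ.badM (by decide +kernel))))
                 (CovZ.subM 10625324586456701730816 (by decide +kernel)
                  (CovZ.n1 (2560, 28120) (by decide +kernel)
                   (CovZ.n2 (2580, 28140) (by decide +kernel)
                    (CovZ.badM (by decide +kernel))
                    (CovZ.n1 (2560, 28140) (by decide +kernel)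
                     (CovZ.n2 (2570, 28150) (by decide +kernel)
                      (CovZ.badM (by decide +kernel))
                      (CovZ.leaf K2_ok TE_l7942 _))
                     (CovZ.badM (by decide +kernel))))
                   (CovZ.badM (by decide +kernel)))))
                (CovZ.n1 (2600, 28040) (by decide +kernel)
                 (CovZ.n2 (2560, 28040) (by decide +kernel)
                  (CovZ.subM 18963252907773419077632 (by decide +kernel)
                   (CovZ.n2 (2580, 28060) (by decide +kernel)
                    (CovZ.n2 (2580, 28040) (by decide +kernel)
                     (CovZ.badM (by decide +kernel))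
                     (CovZ.n1 (2590, 28050) (by decide +kernel)
                      (CovZ.leaf K2_ok TE_l7945 _)
                      (CovZ.badM (by decide +kernel))))
                    (CovZ.badM (by decide +kernel))))
                  (CovZ.n1 (2580, 28020) (by decide +kernel)
                   (CovZ.subM 73786976295106658304 (by decide +kernel)
                    (CovZ.n2 (2560, 28020) (by decide +kernel)
                     (CovZ.n2 (2570, 28030) (by decide +kernel)
                      (CovZ.leaf K2_ok TE_l7947 _)
                      (CovZ.leaf K2_ok TE_l17482 _))
                     (CovZ.n1 (2570, 28010) (by decide +kernel)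
                      (CovZ.badM (by decide +kernel))
                      (CovZ.leaf K2_ok TE_l7949 _))))
                   (CovZ.n1 (2580, 28040) (by decide +kernel)
                    (CovZ.leaf K2_ok TE_l7950 _)
                    (CovZ.n1 (2570, 28030) (by decide +kernel)
                     (CovZ.badM (by decide +kernel))
                     (CovZ.leaf K2_ok TE_l7952 _)))))
                 (CovZ.subM 18963252907773419077632 (by decide +kernel)
                  (CovZ.n1 (2600, 28080) (by decide +kernel)
                   (CovZ.n2 (2620, 28060) (by decide +kernel)
                    (CovZ.n2 (2600, 28060) (by decide +kernel)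
                     (CovZ.leaf K2_ok TE_l7953 _)
                     (CovZ.leaf K2_ok TE_l7954 _))
                    (CovZ.n1 (2620, 28080) (by decide +kernel)
                     (CovZ.leaf K2_ok TE_l7955 _)
                     (CovZ.n1 (2610, 28070) (by decide +kernel)
                      (CovZ.leaf K2_ok TE_l7956 _)
                      (CovZ.leaf K2_ok TE_l7957 _))))
                   (CovZ.n1 (2580, 28060) (by decide +kernel)
                    (CovZ.badM (by decide +kernel))
                    (CovZ.n1 (2600, 28060) (by decide +kernel)
                     (CovZ.n2 (2590, 28050) (by decide +kernel)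
                      (CovZ.badM (by decide +kernel))
                      (CovZ.leaf K2_ok TE_l7959 _))
                     (CovZ.badM (by decide +kernel))))))))))
             (CovZ.n1 (2640, 27920) (by decide +kernel)
              (CovZ.n2 (2560, 27920) (by decide +kernel)
               (CovZ.n2 (2600, 27960) (by decide +kernel)
                (CovZ.n2 (2600, 27920) (by decide +kernel)
                 (CovZ.leaf K2_ok TE_l7962 _)
                 (CovZ.leaf K2_ok TE_l7963 _))
                (CovZ.subM 94521116634787522560256 (by decide +kernel)
                 (CovZ.n1 (2560, 27960) (by decide +kernel)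
                  (CovZ.n2 (2580, 27980) (by decide +kernel)
                   (CovZ.leaf K2_ok TE_l7964 _)
                   (CovZ.n1 (2560, 27980) (by decide +kernel)
                    (CovZ.leaf K2_ok TE_l7965 _)
                    (CovZ.leaf K2_ok TE_l7966 _)))
                  (CovZ.n1 (2580, 27940) (by decide +kernel)
                   (CovZ.leaf K2_ok TE_l7967 _)
                   (CovZ.leaf K2_ok TE_l7968 _)))))
               (CovZ.n1 (2600, 27880) (by decide +kernel)
                (CovZ.n2 (2560, 27880) (by decide +kernel)
                 (CovZ.n2 (2580, 27900) (by decide +kernel)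
                  (CovZ.leaf K2_ok TE_l7969 _)
                  (CovZ.leaf K2_ok TE_l7970 _))
                 (CovZ.leaf K2_ok TE_l7971 _))
                (CovZ.n1 (2600, 27920) (by decide +kernel)
                 (CovZ.leaf K2_ok TE_l7972 _)
                 (CovZ.n1 (2580, 27900) (by decide +kernel)
                  (CovZ.leaf K2_ok TE_l7973 _)
                  (CovZ.leaf K2_ok TE_l7974 _)))))
              (CovZ.n1 (2640, 28000) (by decide +kernel)
               (CovZ.n2 (2680, 27960) (by decide +kernel)
                (CovZ.n2 (2640, 27960) (by decide +kernel)
                 (CovZ.leaf K2_ok TE_l7975 _)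
                 (CovZ.leaf K2_ok TE_l7976 _))
                (CovZ.n1 (2680, 28000) (by decide +kernel)
                 (CovZ.leaf K2_ok TE_l7977 _)
                 (CovZ.leaf K2_ok TE_l7978 _)))
               (CovZ.n1 (2600, 27960) (by decide +kernel)
                (CovZ.subM 396752571537345304609024 (by decide +kernel)
                 (CovZ.n2 (2600, 28000) (by decide +kernel)
                  (CovZ.leaf K2_ok TE_l7979 _)
                  (CovZ.n1 (2580, 27980) (by decide +kernel)
                   (CovZ.n2 (2580, 28000) (by decide +kernel)
                    (CovZ.leaf K2_ok TE_l7980 _)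
                    (CovZ.leaf K2_ok TE_l7981 _))
                   (CovZ.leaf K2_ok TE_l7982 _))))
                (CovZ.n1 (2640, 27960) (by decide +kernel)
                 (CovZ.leaf K2_ok TE_l7983 _)
                 (CovZ.leaf K2_ok TE_l7984 _))))))))
          (CovZ.n1 (2720, 27680) (by decide +kernel)
           (CovZ.n2 (2560, 27680) (by decide +kernel)
            (CovZ.n2 (2640, 27760) (by decide +kernel)
             (CovZ.n2 (2640, 27680) (by decide +kernel)
              (CovZ.leaf K2_ok TE_l7985 _)
              (CovZ.leaf K2_ok TE_l7986 _))
             (CovZ.n1 (2560, 27760) (by decide +kernel)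
              (CovZ.n2 (2600, 27800) (by decide +kernel)
               (CovZ.leaf K2_ok TE_l7987 _)
               (CovZ.n1 (2560, 27800) (by decide +kernel)
                (CovZ.leaf K2_ok TE_l7988 _)
                (CovZ.leaf K2_ok TE_l7989 _)))
              (CovZ.n1 (2600, 27720) (by decide +kernel)
               (CovZ.leaf K2_ok TE_l7990 _)
               (CovZ.leaf K2_ok TE_l7991 _))))
            (CovZ.n1 (2640, 27600) (by decide +kernel)
             (CovZ.n2 (2560, 27600) (by decide +kernel)
              (CovZ.n2 (2600, 27640) (by decide +kernel)
               (CovZ.leaf K2_ok TE_l7992 _)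
               (CovZ.leaf K2_ok TE_l7993 _))
              (CovZ.leaf K2_ok TE_l7994 _))
             (CovZ.n1 (2640, 27680) (by decide +kernel)
              (CovZ.leaf K2_ok TE_l7995 _)
              (CovZ.n1 (2600, 27640) (by decide +kernel)
               (CovZ.leaf K2_ok TE_l7996 _)
               (CovZ.leaf K2_ok TE_l7997 _)))))
           (CovZ.n1 (2720, 27840) (by decide +kernel)
            (CovZ.n2 (2800, 27760) (by decide +kernel)
             (CovZ.n2 (2720, 27760) (by decide +kernel)
              (CovZ.leaf K2_ok TE_l7998 _)
              (CovZ.leaf K2_ok TE_l7999 _))
             (CovZ.n1 (2800, 27840) (by decide +kernel)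
              (CovZ.leaf K2_ok TE_l8000 _)
              (CovZ.leaf K2_ok TE_l8001 _)))
            (CovZ.n1 (2640, 27760) (by decide +kernel)
             (CovZ.n2 (2640, 27840) (by decide +kernel)
              (CovZ.n2 (2680, 27800) (by decide +kernel)
               (CovZ.leaf K2_ok TE_l8002 _)
               (CovZ.leaf K2_ok TE_l8003 _))
              (CovZ.n1 (2600, 27800) (by decide +kernel)
               (CovZ.n2 (2600, 27840) (by decide +kernel)
                (CovZ.leaf K2_ok TE_l8004 _)
                (CovZ.leaf K2_ok TE_l8005 _))
               (CovZ.leaf K2_ok TE_l8006 _)))
             (CovZ.n1 (2720, 27760) (by decide +kernel)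
              (CovZ.leaf K2_ok TE_l8007 _)
              (CovZ.leaf K2_ok TE_l8008 _))))))))

theorem TE_u86 : CovZ TE_M (toL (selN TE_LN 2219470497621667340733410370615672913012901204914377769742256)) [0, 7, 6, 1] (2560, 27520) (2560, 26880) (3200, 27520) :=
    (CovZ.n1 (2880, 27200) (by decide +kernel)
        (CovZ.subM 207266974873295906668644700121729967901561330802150622151440 (by decide +kernel)
         (CovZ.n2 (2560, 27200) (by decide +kernel)
          (CovZ.n2 (2720, 27360) (by decide +kernel)
           (CovZ.n2 (2720, 27200) (by decide +kernel)
            (CovZ.leaf K2_ok TE_l8009 _)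
            (CovZ.leaf K2_ok TE_l8010 _))
           (CovZ.n1 (2560, 27360) (by decide +kernel)
            (CovZ.n2 (2640, 27440) (by decide +kernel)
             (CovZ.leaf K2_ok TE_l8011 _)
             (CovZ.n1 (2560, 27440) (by decide +kernel)
              (CovZ.leaf K2_ok TE_l8012 _)
              (CovZ.leaf K2_ok TE_l8013 _)))
            (CovZ.n1 (2640, 27280) (by decide +kernel)
             (CovZ.leaf K2_ok TE_l8014 _)
             (CovZ.leaf K2_ok TE_l8015 _))))
          (CovZ.n1 (2720, 27040) (by decide +kernel)
           (CovZ.n2 (2560, 27040) (by decide +kernel)
            (CovZ.n2 (2640, 27120) (by decide +kernel)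
             (CovZ.leaf K2_ok TE_l8016 _)
             (CovZ.leaf K2_ok TE_l8017 _))
            (CovZ.n1 (2640, 26960) (by decide +kernel)
             (CovZ.leaf K2_ok TE_l8018 _)
             (CovZ.leaf K2_ok TE_l8019 _)))
           (CovZ.n1 (2720, 27200) (by decide +kernel)
            (CovZ.leaf K2_ok TE_l8020 _)
            (CovZ.n1 (2640, 27120) (by decide +kernel)
             (CovZ.leaf K2_ok TE_l8021 _)
             (CovZ.leaf K2_ok TE_l8022 _))))))
        (CovZ.n1 (2880, 27520) (by decide +kernel)
         (CovZ.subM 207266975294214087864058378718694423971010526241205797833648 (by decide +kernel)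
          (CovZ.n2 (3040, 27360) (by decide +kernel)
           (CovZ.n2 (2880, 27360) (by decide +kernel)
            (CovZ.leaf K2_ok TE_l8023 _)
            (CovZ.leaf K2_ok TE_l8024 _))
           (CovZ.n1 (3040, 27520) (by decide +kernel)
            (CovZ.leaf K2_ok TE_l8025 _)
            (CovZ.leaf K2_ok TE_l8026 _))))
         (CovZ.subM 207266974873295906625088562348146703113077014086079759303568 (by decide +kernel)
          (CovZ.n1 (2720, 27360) (by decide +kernel)
           (CovZ.n2 (2720, 27520) (by decide +kernel)
            (CovZ.leaf K2_ok TE_l8027 _)
            (CovZ.n1 (2640, 27440) (by decide +kernel)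
             (CovZ.n2 (2640, 27520) (by decide +kernel)
              (CovZ.leaf K2_ok TE_l8028 _)
              (CovZ.leaf K2_ok TE_l8029 _))
             (CovZ.leaf K2_ok TE_l8030 _)))
           (CovZ.n1 (2880, 27360) (by decide +kernel)
            (CovZ.leaf K2_ok TE_l8031 _)
            (CovZ.leaf K2_ok TE_l8032 _))))))

theorem TE_u87 : CovZ TE_M (toL (selN TE_LN 408011612800134250346225596883577129359898614658868459937936)) [0, 7, 6, 1] (5120, 28160) (4960, 28160) (4960, 28000) :=
    (CovZ.n2 (5040, 28080) (by decide +kernel)
              (CovZ.n2 (4960, 28080) (by decide +kernel)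
               (CovZ.subM 664613997892609052323474945446256656 (by decide +kernel)
                (CovZ.n2 (5000, 28120) (by decide +kernel)
                 (CovZ.n2 (5000, 28080) (by decide +kernel)
                  (CovZ.n2 (4980, 28100) (by decide +kernel)
                   (CovZ.n2 (5000, 28100) (by decide +kernel)
                    (CovZ.leaf K2_ok TE_l8164 _)
                    (CovZ.leaf K2_ok TE_l8165 _))
                   (CovZ.leaf K2_ok TE_l8166 _))
                  (CovZ.n1 (5020, 28100) (by decide +kernel)
                   (CovZ.n2 (5020, 28080) (by decide +kernel)
                    (CovZ.leaf K2_ok TE_l8167 _)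
                    (CovZ.n1 (5030, 28090) (by decide +kernel)
                     (CovZ.leaf K2_ok TE_l8168 _)
                     (CovZ.leaf K2_ok TE_l8169 _)))
                   (CovZ.n1 (5000, 28100) (by decide +kernel)
                    (CovZ.n2 (5010, 28110) (by decide +kernel)
                     (CovZ.leaf K2_ok TE_l8170 _)
                     (CovZ.leaf K2_ok TE_l8171 _))
                    (CovZ.leaf K2_ok TE_l8172 _))))
                 (CovZ.n1 (4960, 28120) (by decide +kernel)
                  (CovZ.n2 (4980, 28140) (by decide +kernel)
                   (CovZ.n2 (4980, 28120) (by decide +kernel)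
                    (CovZ.leaf K2_ok TE_l8173 _)
                    (CovZ.n1 (4990, 28130) (by decide +kernel)
                     (CovZ.leaf K2_ok TE_l8174 _)
                     (CovZ.leaf K2_ok TE_l8175 _)))
                   (CovZ.n1 (4960, 28140) (by decide +kernel)
                    (CovZ.n2 (4970, 28150) (by decide +kernel)
                     (CovZ.leaf K2_ok TE_l8176 _)
                     (CovZ.leaf K2_ok TE_l8177 _))
                    (CovZ.leaf K2_ok TE_l8178 _)))
                  (CovZ.n1 (4980, 28100) (by decide +kernel)
                   (CovZ.leaf K2_ok TE_l8179 _)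
                   (CovZ.leaf K2_ok TE_l8180 _)))))
               (CovZ.n1 (5000, 28040) (by decide +kernel)
                (CovZ.n2 (4960, 28040) (by decide +kernel)
                 (CovZ.n2 (4980, 28060) (by decide +kernel)
                  (CovZ.leaf K2_ok TE_l8181 _)
                  (CovZ.leaf K2_ok TE_l8182 _))
                 (CovZ.leaf K2_ok TE_l8183 _))
                (CovZ.subM 151115871572514817777680 (by decide +kernel)
                 (CovZ.n1 (5000, 28080) (by decide +kernel)
                  (CovZ.n2 (5020, 28060) (by decide +kernel)
                   (CovZ.leaf K2_ok TE_l8184 _)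
                   (CovZ.leaf K2_ok TE_l8185 _))
                  (CovZ.n1 (4980, 28060) (by decide +kernel)
                   (CovZ.leaf K2_ok TE_l8186 _)
                   (CovZ.leaf K2_ok TE_l8187 _))))))
              (CovZ.subM 664613997892609052323474945446248464 (by decide +kernel)
               (CovZ.n1 (5040, 28160) (by decide +kernel)
                (CovZ.n2 (5080, 28120) (by decide +kernel)
                 (CovZ.n2 (5040, 28120) (by decide +kernel)
                  (CovZ.badM (by decide +kernel))
                  (CovZ.n1 (5060, 28100) (by decide +kernel)
                   (CovZ.n2 (5040, 28100) (by decide +kernel)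
                    (CovZ.subM 151115727456226693349376 (by decide +kernel)
                     (CovZ.n2 (5050, 28110) (by decide +kernel)
                      (CovZ.n2 (5050, 28100) (by decide +kernel)
                       (CovZ.leaf K2_ok TE_l17486 _)
                       (CovZ.n1 (5055, 28105) (by decide +kernel)
                        (CovZ.leaf K2_ok TE_l17487 _)
                        (CovZ.leaf K2_ok TE_l17488 _)))
                      (CovZ.n1 (5040, 28110) (by decide +kernel)
                       (CovZ.n2 (5045, 28115) (by decide +kernel)
                        (CovZ.leaf K2_ok TE_l17489 _)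
                        (CovZ.leaf K2_ok TE_l17490 _))
                       (CovZ.leaf K2_ok TE_l17491 _))))
                    (CovZ.n1 (5050, 28090) (by decide +kernel)
                     (CovZ.leaf K2_ok TE_l8188 _)
                     (CovZ.leaf K2_ok TE_l8189 _)))
                   (CovZ.subM 151115727451828646838272 (by decide +kernel)
                    (CovZ.n1 (5060, 28120) (by decide +kernel)
                     (CovZ.n2 (5070, 28110) (by decide +kernel)
                      (CovZ.n2 (5060, 28110) (by decide +kernel)
                       (CovZ.badM (by decide +kernel))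
                       (CovZ.n1 (5065, 28105) (by decide +kernel)
                        (CovZ.leaf K2_ok TE_l17492 _)
                        (CovZ.badM (by decide +kernel))))
                      (CovZ.badM (by decide +kernel)))
                     (CovZ.n1 (5050, 28110) (by decide +kernel)
                      (CovZ.n2 (5050, 28120) (by decide +kernel)
                       (CovZ.n2 (5055, 28115) (by decide +kernel)
                        (CovZ.n2 (5050, 28115) (by decide +kernel)
                         (CovZ.badM (by decide +kernel))
                         (CovZ.leaf K2_ok TE_l17493 _))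
                        (CovZ.badM (by decide +kernel)))
                       (CovZ.n1 (5045, 28115) (by decide +kernel)
                        (CovZ.n2 (5045, 28120) (by decide +kernel)
                         (CovZ.leaf K2_ok TE_l17494 _)
                         (CovZ.leaf K2_ok TE_l17495 _))
                        (CovZ.leaf K2_ok TE_l17496 _)))
                      (CovZ.n1 (5060, 28110) (by decide +kernel)
                       (CovZ.n2 (5055, 28105) (by decide +kernel)
                        (CovZ.leaf K2_ok TE_l17497 _)
                        (CovZ.n1 (5060, 28105) (by decide +kernel)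
                         (CovZ.leaf K2_ok TE_l17498 _)
                         (CovZ.leaf K2_ok TE_l17499 _)))
                       (CovZ.n1 (5055, 28115) (by decide +kernel)
                        (CovZ.badM (by decide +kernel))
                        (CovZ.leaf K2_ok TE_l17500 _))))))))
                 (CovZ.badM (by decide +kernel)))
                (CovZ.n1 (5000, 28120) (by decide +kernel)
                 (CovZ.n2 (5000, 28160) (by decide +kernel)
                  (CovZ.n2 (5020, 28140) (by decide +kernel)
                   (CovZ.n2 (5000, 28140) (by decide +kernel)
                    (CovZ.subM 4398046511104 (by decide +kernel)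
                     (CovZ.n2 (5010, 28150) (by decide +kernel)
                      (CovZ.n2 (5010, 28140) (by decide +kernel)
                       (CovZ.n2 (5005, 28145) (by decide +kernel)
                        (CovZ.badM (by decide +kernel))
                        (CovZ.leaf K2_ok TE_l17501 _))
                       (CovZ.badM (by decide +kernel)))
                      (CovZ.n1 (5000, 28150) (by decide +kernel)
                       (CovZ.badM (by decide +kernel))
                       (CovZ.n1 (5005, 28145) (by decide +kernel)
                        (CovZ.leaf K2_ok TE_l17502 _)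
                        (CovZ.badM (by decide +kernel))))))
                    (CovZ.n1 (5010, 28130) (by decide +kernel)
                     (CovZ.n2 (5000, 28130) (by decide +kernel)
                      (CovZ.leaf K2_ok TE_l17503 _)
                      (CovZ.leaf K2_ok TE_l17504 _))
                     (CovZ.n1 (5010, 28140) (by decide +kernel)
                      (CovZ.leaf K2_ok TE_l17505 _)
                      (CovZ.n1 (5005, 28135) (by decide +kernel)
                       (CovZ.leaf K2_ok TE_l17506 _)
                       (CovZ.leaf K2_ok TE_l17507 _)))))
                   (CovZ.badM (by decide +kernel)))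
                  (CovZ.n1 (4980, 28140) (by decide +kernel)
                   (CovZ.n2 (4980, 28160) (by decide +kernel)
                    (CovZ.subM 144119586659237888 (by decide +kernel)
                     (CovZ.n2 (4990, 28150) (by decide +kernel)
                      (CovZ.n2 (4980, 28150) (by decide +kernel)
                       (CovZ.n2 (4985, 28155) (by decide +kernel)
                        (CovZ.leaf K2_ok TE_l17508 _)
                        (CovZ.leaf K2_ok TE_l17509 _))
                       (CovZ.leaf K2_ok TE_l17510 _))
                      (CovZ.n1 (4990, 28160) (by decide +kernel)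
                       (CovZ.n2 (4995, 28155) (by decide +kernel)
                        (CovZ.leaf K2_ok TE_l17511 _)
                        (CovZ.badM (by decide +kernel)))
                       (CovZ.n1 (4985, 28155) (by decide +kernel)
                        (CovZ.leaf K2_ok TE_l17512 _)
                        (CovZ.leaf K2_ok TE_l17513 _)))))
                    (CovZ.n1 (4970, 28150) (by decide +kernel)
                     (CovZ.leaf K2_ok TE_l8190 _)
                     (CovZ.n1 (4980, 28150) (by decide +kernel)
                      (CovZ.leaf K2_ok TE_l17514 _)
                      (CovZ.leaf K2_ok TE_l17515 _))))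
                   (CovZ.n1 (5000, 28140) (by decide +kernel)
                    (CovZ.n2 (4990, 28130) (by decide +kernel)
                     (CovZ.leaf K2_ok TE_l8191 _)
                     (CovZ.leaf K2_ok TE_l17516 _))
                    (CovZ.subM 144119586659237888 (by decide +kernel)
                     (CovZ.n1 (4990, 28150) (by decide +kernel)
                      (CovZ.n2 (5000, 28150) (by decide +kernel)
                       (CovZ.n2 (4995, 28145) (by decide +kernel)
                        (CovZ.leaf K2_ok TE_l17517 _)
                        (CovZ.leaf K2_ok TE_l17518 _))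
                       (CovZ.leaf K2_ok TE_l17519 _))
                      (CovZ.leaf K2_ok TE_l17520 _))))))
                 (CovZ.n1 (5040, 28120) (by decide +kernel)
                  (CovZ.n2 (5020, 28100) (by decide +kernel)
                   (CovZ.n2 (5020, 28120) (by decide +kernel)
                    (CovZ.n2 (5030, 28110) (by decide +kernel)
                     (CovZ.n2 (5020, 28110) (by decide +kernel)
                      (CovZ.leaf K2_ok TE_l17521 _)
                      (CovZ.leaf K2_ok TE_l17522 _))
                     (CovZ.n1 (5030, 28120) (by decide +kernel)
                      (CovZ.leaf K2_ok TE_l17523 _)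
                      (CovZ.leaf K2_ok TE_l17524 _)))
                    (CovZ.n1 (5010, 28110) (by decide +kernel)
                     (CovZ.leaf K2_ok TE_l17525 _)
                     (CovZ.leaf K2_ok TE_l17526 _)))
                   (CovZ.n1 (5040, 28100) (by decide +kernel)
                    (CovZ.n2 (5030, 28090) (by decide +kernel)
                     (CovZ.leaf K2_ok TE_l8192 _)
                     (CovZ.leaf K2_ok TE_l8193 _))
                    (CovZ.n1 (5030, 28110) (by decide +kernel)
                     (CovZ.n2 (5040, 28110) (by decide +kernel)
                      (CovZ.leaf K2_ok TE_l17527 _)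
                      (CovZ.leaf K2_ok TE_l17528 _))
                     (CovZ.n1 (5030, 28100) (by decide +kernel)
                      (CovZ.leaf K2_ok TE_l17529 _)
                      (CovZ.leaf K2_ok TE_l17530 _)))))
                  (CovZ.n1 (5020, 28140) (by decide +kernel)
                   (CovZ.badM (by decide +kernel))
                   (CovZ.n1 (5020, 28120) (by decide +kernel)
                    (CovZ.n2 (5010, 28130) (by decide +kernel)
                     (CovZ.n2 (5020, 28130) (by decide +kernel)
                      (CovZ.n2 (5015, 28125) (by decide +kernel)
                       (CovZ.leaf K2_ok TE_l17531 _)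
                       (CovZ.leaf K2_ok TE_l17532 _))
                      (CovZ.leaf K2_ok TE_l17533 _))
                     (CovZ.leaf K2_ok TE_l17534 _))
                    (CovZ.subM 151115727456226693349376 (by decide +kernel)
                     (CovZ.n1 (5030, 28130) (by decide +kernel)
                      (CovZ.n2 (5030, 28120) (by decide +kernel)
                       (CovZ.leaf K2_ok TE_l17535 _)
                       (CovZ.badM (by decide +kernel)))
                      (CovZ.n1 (5020, 28130) (by decide +kernel)
                       (CovZ.badM (by decide +kernel))
                       (CovZ.leaf K2_ok TE_l17536 _)))))))))))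

theorem TE_u88 : CovZ TE_M (toL (selN TE_LN 408011612800134250346225596883577129359898614658868459937936)) [0, 7, 6, 1] (4960, 28160) (4800, 28160) (4960, 28000) :=
    (CovZ.n1 (4880, 28080) (by decide +kernel)
              (CovZ.n2 (4880, 28160) (by decide +kernel)
               (CovZ.n2 (4920, 28120) (by decide +kernel)
                (CovZ.n2 (4880, 28120) (by decide +kernel)
                 (CovZ.n2 (4900, 28140) (by decide +kernel)
                  (CovZ.leaf K2_ok TE_l8194 _)
                  (CovZ.leaf K2_ok TE_l8195 _))
                 (CovZ.leaf K2_ok TE_l8196 _))
                (CovZ.subM 401734511064747568885491187699288543541834526824300948758544 (by decide +kernel)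
                 (CovZ.n1 (4920, 28160) (by decide +kernel)
                  (CovZ.n2 (4940, 28140) (by decide +kernel)
                   (CovZ.n2 (4920, 28140) (by decide +kernel)
                    (CovZ.leaf K2_ok TE_l8197 _)
                    (CovZ.leaf K2_ok TE_l8198 _))
                   (CovZ.n1 (4940, 28160) (by decide +kernel)
                    (CovZ.leaf K2_ok TE_l8199 _)
                    (CovZ.leaf K2_ok TE_l8200 _)))
                  (CovZ.n1 (4900, 28140) (by decide +kernel)
                   (CovZ.leaf K2_ok TE_l8201 _)
                   (CovZ.leaf K2_ok TE_l8202 _)))))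
               (CovZ.n1 (4840, 28120) (by decide +kernel)
                (CovZ.n2 (4840, 28160) (by decide +kernel)
                 (CovZ.leaf K2_ok TE_l8203 _)
                 (CovZ.leaf K2_ok TE_l8204 _))
                (CovZ.n1 (4880, 28120) (by decide +kernel)
                 (CovZ.leaf K2_ok TE_l8205 _)
                 (CovZ.leaf K2_ok TE_l8206 _))))
              (CovZ.n1 (4960, 28080) (by decide +kernel)
               (CovZ.n2 (4920, 28040) (by decide +kernel)
                (CovZ.leaf K2_ok TE_l8207 _)
                (CovZ.n1 (4960, 28040) (by decide +kernel)
                 (CovZ.leaf K2_ok TE_l8208 _)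
                 (CovZ.leaf K2_ok TE_l8209 _)))
               (CovZ.n1 (4920, 28120) (by decide +kernel)
                (CovZ.subM 401734511064747568885491187699288543541834526824300948758544 (by decide +kernel)
                 (CovZ.n2 (4960, 28120) (by decide +kernel)
                  (CovZ.n2 (4940, 28100) (by decide +kernel)
                   (CovZ.leaf K2_ok TE_l8210 _)
                   (CovZ.leaf K2_ok TE_l8211 _))
                  (CovZ.n1 (4940, 28140) (by decide +kernel)
                   (CovZ.n2 (4960, 28140) (by decide +kernel)
                    (CovZ.leaf K2_ok TE_l8212 _)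
                    (CovZ.leaf K2_ok TE_l8213 _))
                   (CovZ.leaf K2_ok TE_l8214 _))))
                (CovZ.n1 (4920, 28080) (by decide +kernel)
                 (CovZ.leaf K2_ok TE_l8215 _)
                 (CovZ.n1 (4940, 28100) (by decide +kernel)
                  (CovZ.leaf K2_ok TE_l8216 _)
                  (CovZ.leaf K2_ok TE_l8217 _))))))

theorem TE_u89 : CovZ TE_M (toL (selN TE_LN 2219470497621667340733410370615672913012901204914377769742256)) [0, 7, 6, 1] (3840, 28160) (3200, 28160) (3200, 27520) :=
    (CovZ.n2 (3520, 27840) (by decide +kernel)
        (CovZ.n2 (3200, 27840) (by decide +kernel)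
         (CovZ.n2 (3360, 28000) (by decide +kernel)
          (CovZ.n2 (3360, 27840) (by decide +kernel)
           (CovZ.leaf K2_ok TE_l8253 _)
           (CovZ.leaf K2_ok TE_l8254 _))
          (CovZ.subM 1817613271673869603588900991166432606124769131944815395647408 (by decide +kernel)
           (CovZ.n1 (3200, 28000) (by decide +kernel)
            (CovZ.n2 (3280, 28080) (by decide +kernel)
             (CovZ.leaf K2_ok TE_l8255 _)
             (CovZ.n1 (3200, 28080) (by decide +kernel)
              (CovZ.leaf K2_ok TE_l8256 _)
              (CovZ.leaf K2_ok TE_l8257 _)))
            (CovZ.leaf K2_ok TE_l8258 _))))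
         (CovZ.n1 (3360, 27680) (by decide +kernel)
          (CovZ.n2 (3200, 27680) (by decide +kernel)
           (CovZ.leaf K2_ok TE_l8259 _)
           (CovZ.leaf K2_ok TE_l8260 _))
          (CovZ.n1 (3360, 27840) (by decide +kernel)
           (CovZ.leaf K2_ok TE_l8261 _)
           (CovZ.leaf K2_ok TE_l8262 _))))
        (CovZ.n1 (3520, 28160) (by decide +kernel)
         (CovZ.n2 (3680, 28000) (by decide +kernel)
          (CovZ.n2 (3520, 28000) (by decide +kernel)
           (CovZ.n2 (3600, 28080) (by decide +kernel)
            (CovZ.leaf K2_ok TE_l8263 _)
            (CovZ.leaf K2_ok TE_l8264 _))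
           (CovZ.leaf K2_ok TE_l8265 _))
          (CovZ.subM 2015341977460977596126368711182827137903283484102831605034672 (by decide +kernel)
           (CovZ.n1 (3680, 28160) (by decide +kernel)
            (CovZ.n2 (3760, 28080) (by decide +kernel)
             (CovZ.leaf K2_ok TE_l8266 _)
             (CovZ.leaf K2_ok TE_l8267 _))
            (CovZ.n1 (3600, 28080) (by decide +kernel)
             (CovZ.leaf K2_ok TE_l8268 _)
             (CovZ.leaf K2_ok TE_l8269 _)))))
         (CovZ.n1 (3360, 28000) (by decide +kernel)
          (CovZ.subM 1817613273170458698197287227088589642295491727984771603640240 (by decide +kernel)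
           (CovZ.n2 (3360, 28160) (by decide +kernel)
            (CovZ.n2 (3440, 28080) (by decide +kernel)
             (CovZ.leaf K2_ok TE_l8270 _)
             (CovZ.leaf K2_ok TE_l8271 _))
            (CovZ.n1 (3280, 28080) (by decide +kernel)
             (CovZ.n2 (3280, 28160) (by decide +kernel)
              (CovZ.leaf K2_ok TE_l8272 _)
              (CovZ.leaf K2_ok TE_l8273 _))
             (CovZ.leaf K2_ok TE_l8274 _))))
          (CovZ.n1 (3520, 28000) (by decide +kernel)
           (CovZ.leaf K2_ok TE_l8275 _)
           (CovZ.leaf K2_ok TE_l8276 _)))))

theorem TE_u90 : CovZ TE_M (toL (selN TE_LN 2219470497621667340733410370615672913012901204914377769742256)) [0, 7, 6, 1] (3200, 28160) (2560, 28160) (3200, 27520) :=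
    (CovZ.n1 (2880, 27840) (by decide +kernel)
        (CovZ.subM 1817613367457763910981616444399548999078592948875947036157360 (by decide +kernel)
         (CovZ.n2 (2880, 28160) (by decide +kernel)
          (CovZ.n2 (3040, 28000) (by decide +kernel)
           (CovZ.n2 (2880, 28000) (by decide +kernel)
            (CovZ.n2 (2960, 28080) (by decide +kernel)
             (CovZ.n2 (2960, 28000) (by decide +kernel)
              (CovZ.leaf K2_ok TE_l8277 _)
              (CovZ.leaf K2_ok TE_l8278 _))
             (CovZ.n1 (2880, 28080) (by decide +kernel)
              (CovZ.n2 (2920, 28120) (by decide +kernel)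
               (CovZ.leaf K2_ok TE_l8279 _)
               (CovZ.n1 (2880, 28120) (by decide +kernel)
                (CovZ.leaf K2_ok TE_l8280 _)
                (CovZ.leaf K2_ok TE_l8281 _)))
              (CovZ.n1 (2920, 28040) (by decide +kernel)
               (CovZ.leaf K2_ok TE_l8282 _)
               (CovZ.leaf K2_ok TE_l8283 _))))
            (CovZ.n1 (2960, 27920) (by decide +kernel)
             (CovZ.n2 (2880, 27920) (by decide +kernel)
              (CovZ.leaf K2_ok TE_l8284 _)
              (CovZ.leaf K2_ok TE_l8285 _))
             (CovZ.n1 (2960, 28000) (by decide +kernel)
              (CovZ.leaf K2_ok TE_l8286 _)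
              (CovZ.leaf K2_ok TE_l8287 _))))
           (CovZ.n1 (3040, 28160) (by decide +kernel)
            (CovZ.n2 (3120, 28080) (by decide +kernel)
             (CovZ.n2 (3040, 28080) (by decide +kernel)
              (CovZ.n2 (3080, 28120) (by decide +kernel)
               (CovZ.leaf K2_ok TE_l8288 _)
               (CovZ.leaf K2_ok TE_l8289 _))
              (CovZ.leaf K2_ok TE_l8290 _))
             (CovZ.n1 (3120, 28160) (by decide +kernel)
              (CovZ.leaf K2_ok TE_l8291 _)
              (CovZ.n1 (3080, 28120) (by decide +kernel)
               (CovZ.leaf K2_ok TE_l8292 _)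
               (CovZ.leaf K2_ok TE_l8293 _))))
            (CovZ.n1 (2960, 28080) (by decide +kernel)
             (CovZ.n2 (2960, 28160) (by decide +kernel)
              (CovZ.n2 (3000, 28120) (by decide +kernel)
               (CovZ.leaf K2_ok TE_l8294 _)
               (CovZ.leaf K2_ok TE_l8295 _))
              (CovZ.n1 (2920, 28120) (by decide +kernel)
               (CovZ.n2 (2920, 28160) (by decide +kernel)
                (CovZ.leaf K2_ok TE_l8296 _)
                (CovZ.leaf K2_ok TE_l8297 _))
               (CovZ.leaf K2_ok TE_l8298 _)))
             (CovZ.n1 (3040, 28080) (by decide +kernel)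
              (CovZ.leaf K2_ok TE_l8299 _)
              (CovZ.leaf K2_ok TE_l8300 _)))))
          (CovZ.n1 (2720, 28000) (by decide +kernel)
           (CovZ.subM 392318858461667550462665580632546546225872166518997910928 (by decide +kernel)
            (CovZ.n2 (2720, 28160) (by decide +kernel)
             (CovZ.n2 (2800, 28080) (by decide +kernel)
              (CovZ.n2 (2720, 28080) (by decide +kernel)
               (CovZ.n2 (2760, 28120) (by decide +kernel)
                (CovZ.n2 (2760, 28080) (by decide +kernel)
                 (CovZ.leaf K2_ok TE_l8301 _)
                 (CovZ.leaf K2_ok TE_l8302 _))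
                (CovZ.subM 19807437381139873543235830016 (by decide +kernel)
                 (CovZ.n1 (2720, 28120) (by decide +kernel)
                  (CovZ.n2 (2740, 28140) (by decide +kernel)
                   (CovZ.leaf K2_ok TE_l8303 _)
                   (CovZ.n1 (2720, 28140) (by decide +kernel)
                    (CovZ.leaf K2_ok TE_l8304 _)
                    (CovZ.leaf K2_ok TE_l8305 _)))
                  (CovZ.leaf K2_ok TE_l8306 _))))
               (CovZ.n1 (2760, 28040) (by decide +kernel)
                (CovZ.n2 (2720, 28040) (by decide +kernel)
                 (CovZ.leaf K2_ok TE_l8307 _)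
                 (CovZ.leaf K2_ok TE_l8308 _))
                (CovZ.n1 (2760, 28080) (by decide +kernel)
                 (CovZ.leaf K2_ok TE_l8309 _)
                 (CovZ.leaf K2_ok TE_l8310 _))))
              (CovZ.n1 (2800, 28160) (by decide +kernel)
               (CovZ.n2 (2840, 28120) (by decide +kernel)
                (CovZ.n2 (2800, 28120) (by decide +kernel)
                 (CovZ.n2 (2820, 28140) (by decide +kernel)
                  (CovZ.leaf K2_ok TE_l8311 _)
                  (CovZ.leaf K2_ok TE_l8312 _))
                 (CovZ.leaf K2_ok TE_l8313 _))
                (CovZ.n1 (2840, 28160) (by decide +kernel)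
                 (CovZ.leaf K2_ok TE_l8314 _)
                 (CovZ.n1 (2820, 28140) (by decide +kernel)
                  (CovZ.leaf K2_ok TE_l8315 _)
                  (CovZ.leaf K2_ok TE_l8316 _))))
               (CovZ.n1 (2760, 28120) (by decide +kernel)
                (CovZ.subM 19807418491673942064654975360 (by decide +kernel)
                 (CovZ.n2 (2760, 28160) (by decide +kernel)
                  (CovZ.n2 (2780, 28140) (by decide +kernel)
                   (CovZ.leaf K2_ok TE_l8317 _)
                   (CovZ.leaf K2_ok TE_l8318 _))
                  (CovZ.n1 (2740, 28140) (by decide +kernel)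
                   (CovZ.n2 (2740, 28160) (by decide +kernel)
                    (CovZ.leaf K2_ok TE_l8319 _)
                    (CovZ.leaf K2_ok TE_l8320 _))
                   (CovZ.leaf K2_ok TE_l8321 _))))
                (CovZ.n1 (2800, 28120) (by decide +kernel)
                 (CovZ.leaf K2_ok TE_l8322 _)
                 (CovZ.leaf K2_ok TE_l8323 _)))))
             (CovZ.n1 (2640, 28080) (by decide +kernel)
              (CovZ.subM 407377898375601551573248 (by decide +kernel)
               (CovZ.n2 (2640, 28160) (by decide +kernel)
                (CovZ.n2 (2680, 28120) (by decide +kernel)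
                 (CovZ.subM 94521116633687742480640 (by decide +kernel)
                  (CovZ.n2 (2640, 28120) (by decide +kernel)
                   (CovZ.n2 (2660, 28140) (by decide +kernel)
                    (CovZ.n2 (2660, 28120) (by decide +kernel)
                     (CovZ.leaf K2_ok TE_l17537 _)
                     (CovZ.n1 (2670, 28130) (by decide +kernel)
                      (CovZ.leaf K2_ok TE_l8324 _)
                      (CovZ.leaf K2_ok TE_l17538 _)))
                    (CovZ.n1 (2640, 28140) (by decide +kernel)
                     (CovZ.badM (by decide +kernel))
                     (CovZ.n1 (2650, 28130) (by decide +kernel)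
                      (CovZ.leaf K2_ok TE_l17539 _)
                      (CovZ.leaf K2_ok TE_l17540 _))))
                   (CovZ.n1 (2660, 28100) (by decide +kernel)
                    (CovZ.n2 (2640, 28100) (by decide +kernel)
                     (CovZ.leaf K2_ok TE_l8325 _)
                     (CovZ.leaf K2_ok TE_l8326 _))
                    (CovZ.leaf K2_ok TE_l8327 _))))
                 (CovZ.n1 (2680, 28160) (by decide +kernel)
                  (CovZ.n2 (2700, 28140) (by decide +kernel)
                   (CovZ.n2 (2680, 28140) (by decide +kernel)
                    (CovZ.n2 (2690, 28150) (by decide +kernel)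
                     (CovZ.leaf K2_ok TE_l8328 _)
                     (CovZ.leaf K2_ok TE_l8329 _))
                    (CovZ.leaf K2_ok TE_l8330 _))
                   (CovZ.n1 (2700, 28160) (by decide +kernel)
                    (CovZ.leaf K2_ok TE_l8331 _)
                    (CovZ.n1 (2690, 28150) (by decide +kernel)
                     (CovZ.leaf K2_ok TE_l8332 _)
                     (CovZ.leaf K2_ok TE_l8333 _))))
                  (CovZ.n1 (2660, 28140) (by decide +kernel)
                   (CovZ.n2 (2660, 28160) (by decide +kernel)
                    (CovZ.n2 (2670, 28150) (by decide +kernel)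
                     (CovZ.badM (by decide +kernel))
                     (CovZ.badM (by decide +kernel)))
                    (CovZ.badM (by decide +kernel)))
                   (CovZ.n1 (2680, 28140) (by decide +kernel)
                    (CovZ.n2 (2670, 28130) (by decide +kernel)
                     (CovZ.leaf K2_ok TE_l8334 _)
                     (CovZ.leaf K2_ok TE_l8335 _))
                    (CovZ.leaf K2_ok TE_l8336 _)))))
                (CovZ.subM 29588577494230120792064 (by decide +kernel)
                 (CovZ.n1 (2600, 28120) (by decide +kernel)
                  (CovZ.n2 (2600, 28160) (by decide +kernel)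
                   (CovZ.badM (by decide +kernel))
                   (CovZ.n1 (2580, 28140) (by decide +kernel)
                    (CovZ.n2 (2580, 28160) (by decide +kernel)
                     (CovZ.badM (by decide +kernel))
                     (CovZ.n1 (2570, 28150) (by decide +kernel)
                      (CovZ.leaf K2_ok TE_l8337 _)
                      (CovZ.badM (by decide +kernel))))
                    (CovZ.badM (by decide +kernel))))
                  (CovZ.n1 (2640, 28120) (by decide +kernel)
                   (CovZ.n2 (2620, 28100) (by decide +kernel)
                    (CovZ.badM (by decide +kernel))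
                    (CovZ.n1 (2640, 28100) (by decide +kernel)
                     (CovZ.leaf K2_ok TE_l8340 _)
                     (CovZ.leaf K2_ok TE_l8341 _)))
                   (CovZ.badM (by decide +kernel)))))))
              (CovZ.n1 (2720, 28080) (by decide +kernel)
               (CovZ.n2 (2680, 28040) (by decide +kernel)
                (CovZ.n2 (2680, 28080) (by decide +kernel)
                 (CovZ.leaf K2_ok TE_l8342 _)
                 (CovZ.n1 (2660, 28060) (by decide +kernel)
                  (CovZ.leaf K2_ok TE_l8343 _)
                  (CovZ.leaf K2_ok TE_l8344 _)))
                (CovZ.n1 (2720, 28040) (by decide +kernel)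
                 (CovZ.leaf K2_ok TE_l8345 _)
                 (CovZ.leaf K2_ok TE_l8346 _)))
               (CovZ.subM 19807437381139873543235830016 (by decide +kernel)
                (CovZ.n1 (2680, 28120) (by decide +kernel)
                 (CovZ.n2 (2720, 28120) (by decide +kernel)
                  (CovZ.n2 (2700, 28100) (by decide +kernel)
                   (CovZ.leaf K2_ok TE_l8347 _)
                   (CovZ.leaf K2_ok TE_l8348 _))
                  (CovZ.n1 (2700, 28140) (by decide +kernel)
                   (CovZ.leaf K2_ok TE_l8349 _)
                   (CovZ.leaf K2_ok TE_l8350 _)))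
                 (CovZ.n1 (2680, 28080) (by decide +kernel)
                  (CovZ.n2 (2660, 28100) (by decide +kernel)
                   (CovZ.leaf K2_ok TE_l8351 _)
                   (CovZ.leaf K2_ok TE_l8352 _))
                  (CovZ.n1 (2700, 28100) (by decide +kernel)
                   (CovZ.leaf K2_ok TE_l8353 _)
                   (CovZ.leaf K2_ok TE_l8354 _)))))))))
           (CovZ.n1 (2880, 28000) (by decide +kernel)
            (CovZ.n2 (2800, 27920) (by decide +kernel)
             (CovZ.n2 (2800, 28000) (by decide +kernel)
              (CovZ.leaf K2_ok TE_l8355 _)
              (CovZ.n1 (2760, 27960) (by decide +kernel)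
               (CovZ.leaf K2_ok TE_l8356 _)
               (CovZ.leaf K2_ok TE_l8357 _)))
             (CovZ.n1 (2880, 27920) (by decide +kernel)
              (CovZ.leaf K2_ok TE_l8358 _)
              (CovZ.leaf K2_ok TE_l8359 _)))
            (CovZ.n1 (2800, 28080) (by decide +kernel)
             (CovZ.n2 (2880, 28080) (by decide +kernel)
              (CovZ.n2 (2840, 28040) (by decide +kernel)
               (CovZ.leaf K2_ok TE_l8360 _)
               (CovZ.leaf K2_ok TE_l8361 _))
              (CovZ.n1 (2840, 28120) (by decide +kernel)
               (CovZ.leaf K2_ok TE_l8362 _)
               (CovZ.leaf K2_ok TE_l8363 _)))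
             (CovZ.n1 (2800, 28000) (by decide +kernel)
              (CovZ.n2 (2760, 28040) (by decide +kernel)
               (CovZ.leaf K2_ok TE_l8364 _)
               (CovZ.leaf K2_ok TE_l8365 _))
              (CovZ.n1 (2840, 28040) (by decide +kernel)
               (CovZ.leaf K2_ok TE_l8366 _)
               (CovZ.leaf K2_ok TE_l8367 _))))))))
        (CovZ.n1 (3200, 27840) (by decide +kernel)
         (CovZ.n2 (3040, 27680) (by decide +kernel)
          (CovZ.n2 (3040, 27840) (by decide +kernel)
           (CovZ.leaf K2_ok TE_l8368 _)
           (CovZ.n1 (2960, 27760) (by decide +kernel)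
            (CovZ.leaf K2_ok TE_l8369 _)
            (CovZ.leaf K2_ok TE_l8370 _)))
          (CovZ.n1 (3200, 27680) (by decide +kernel)
           (CovZ.leaf K2_ok TE_l8371 _)
           (CovZ.leaf K2_ok TE_l8372 _)))
         (CovZ.subM 1817613271676792606863562797002859782830830552298901790044080 (by decide +kernel)
          (CovZ.n1 (3040, 28000) (by decide +kernel)
           (CovZ.n2 (3200, 28000) (by decide +kernel)
            (CovZ.n2 (3120, 27920) (by decide +kernel)
             (CovZ.leaf K2_ok TE_l8373 _)
             (CovZ.leaf K2_ok TE_l8374 _))
            (CovZ.n1 (3120, 28080) (by decide +kernel)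
             (CovZ.n2 (3200, 28080) (by decide +kernel)
              (CovZ.leaf K2_ok TE_l8375 _)
              (CovZ.leaf K2_ok TE_l8376 _))
             (CovZ.leaf K2_ok TE_l8377 _)))
           (CovZ.n1 (3040, 27840) (by decide +kernel)
            (CovZ.n2 (2960, 27920) (by decide +kernel)
             (CovZ.leaf K2_ok TE_l8378 _)
             (CovZ.leaf K2_ok TE_l8379 _))
            (CovZ.n1 (3120, 27920) (by decide +kernel)
             (CovZ.leaf K2_ok TE_l8380 _)
             (CovZ.leaf K2_ok TE_l8381 _)))))))

theorem TE_u91 : CovZ TE_M (toL (selN TE_LN 2219470497621667340733410370615672913012901204914377769742256)) [0, 7, 6, 1] (2560, 25600) (3840, 26880) (2560, 28160) :=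
    (CovZ.n2 (2560, 26880) (by decide +kernel)
     (CovZ.n2 (3200, 27520) (by decide +kernel)
      (CovZ.n2 (3200, 26880) (by decide +kernel)
       (CovZ.n2 (2880, 27200) (by decide +kernel)
        (CovZ.n2 (3200, 27200) (by decide +kernel)
         (CovZ.n2 (3040, 27040) (by decide +kernel)
          (CovZ.leaf K2_ok TE_l7886 _)
          (CovZ.leaf K2_ok TE_l7887 _))
         (CovZ.leaf K2_ok TE_l7888 _))
        (CovZ.subM 207168895579598671020678917668522368264257594267748774038448 (by decide +kernel)
         (CovZ.n1 (2880, 26880) (by decide +kernel)
          (CovZ.n2 (2720, 27040) (by decide +kernel)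
           (CovZ.leaf K2_ok TE_l7889 _)
           (CovZ.n1 (2720, 26880) (by decide +kernel)
            (CovZ.leaf K2_ok TE_l7890 _)
            (CovZ.leaf K2_ok TE_l7891 _)))
          (CovZ.n1 (3040, 27040) (by decide +kernel)
           (CovZ.leaf K2_ok TE_l7892 _)
           (CovZ.leaf K2_ok TE_l7893 _)))))
       (CovZ.n1 (3520, 27200) (by decide +kernel)
        (CovZ.n2 (3520, 26880) (by decide +kernel)
         (CovZ.leaf K2_ok TE_l7894 _)
         (CovZ.leaf K2_ok TE_l7895 _))
        (CovZ.n1 (3200, 27200) (by decide +kernel)
         (CovZ.n2 (3360, 27360) (by decide +kernel)
          (CovZ.leaf K2_ok TE_l7896 _)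
          (CovZ.leaf K2_ok TE_l7897 _))
         (CovZ.leaf K2_ok TE_l7898 _))))
      (CovZ.n1 (2560, 27520) (by decide +kernel)
       TE_u85
       TE_u86))
     (CovZ.n1 (3200, 26240) (by decide +kernel)
      (CovZ.subM 200867261942571347436455108808341408027930623925159583140784 (by decide +kernel)
       (CovZ.n2 (2560, 26240) (by decide +kernel)
        (CovZ.n2 (2880, 26560) (by decide +kernel)
         (CovZ.n2 (2880, 26240) (by decide +kernel)
          (CovZ.n2 (2720, 26400) (by decide +kernel)
           (CovZ.n2 (2880, 26400) (by decide +kernel)
            (CovZ.leaf K2_ok TE_l8033 _)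
            (CovZ.leaf K2_ok TE_l8034 _))
           (CovZ.n1 (2720, 26240) (by decide +kernel)
            (CovZ.leaf K2_ok TE_l8035 _)
            (CovZ.leaf K2_ok TE_l8036 _)))
          (CovZ.n1 (3040, 26400) (by decide +kernel)
           (CovZ.leaf K2_ok TE_l8037 _)
           (CovZ.leaf K2_ok TE_l8038 _)))
         (CovZ.n1 (2560, 26560) (by decide +kernel)
          (CovZ.n2 (2720, 26720) (by decide +kernel)
           (CovZ.n2 (2720, 26560) (by decide +kernel)
            (CovZ.leaf K2_ok TE_l8039 _)
            (CovZ.leaf K2_ok TE_l8040 _))
           (CovZ.n1 (2560, 26720) (by decide +kernel)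
            (CovZ.n2 (2640, 26800) (by decide +kernel)
             (CovZ.leaf K2_ok TE_l8041 _)
             (CovZ.leaf K2_ok TE_l8042 _))
            (CovZ.n1 (2640, 26640) (by decide +kernel)
             (CovZ.leaf K2_ok TE_l8043 _)
             (CovZ.leaf K2_ok TE_l8044 _))))
          (CovZ.n1 (2720, 26400) (by decide +kernel)
           (CovZ.subM 200867261521658875144700637915254851222603330582452021838352 (by decide +kernel)
            (CovZ.n2 (2560, 26400) (by decide +kernel)
             (CovZ.n2 (2640, 26480) (by decide +kernel)
              (CovZ.leaf K2_ok TE_l8045 _)
              (CovZ.leaf K2_ok TE_l8046 _))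
             (CovZ.n1 (2640, 26320) (by decide +kernel)
              (CovZ.leaf K2_ok TE_l8047 _)
              (CovZ.leaf K2_ok TE_l8048 _))))
           (CovZ.n1 (2720, 26560) (by decide +kernel)
            (CovZ.leaf K2_ok TE_l8049 _)
            (CovZ.n1 (2640, 26480) (by decide +kernel)
             (CovZ.leaf K2_ok TE_l8050 _)
             (CovZ.leaf K2_ok TE_l8051 _))))))
        (CovZ.n1 (2880, 25920) (by decide +kernel)
         (CovZ.subM 49742436588995775629062094844746061428728430872576 (by decide +kernel)
          (CovZ.n2 (2560, 25920) (by decide +kernel)
           (CovZ.n2 (2720, 26080) (by decide +kernel)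
            (CovZ.n2 (2720, 25920) (by decide +kernel)
             (CovZ.subM 45671926166923023232425461289247139094889760768 (by decide +kernel)
              (CovZ.n2 (2640, 26000) (by decide +kernel)
               (CovZ.n2 (2720, 26000) (by decide +kernel)
                (CovZ.leaf K2_ok TE_l8052 _)
                (CovZ.leaf K2_ok TE_l8053 _))
               (CovZ.n1 (2640, 25920) (by decide +kernel)
                (CovZ.leaf K2_ok TE_l8054 _)
                (CovZ.leaf K2_ok TE_l8055 _))))
             (CovZ.n1 (2800, 26000) (by decide +kernel)
              (CovZ.leaf K2_ok TE_l8056 _)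
              (CovZ.leaf K2_ok TE_l8057 _)))
            (CovZ.n1 (2560, 26080) (by decide +kernel)
             (CovZ.n2 (2640, 26160) (by decide +kernel)
              (CovZ.leaf K2_ok TE_l8058 _)
              (CovZ.n1 (2560, 26160) (by decide +kernel)
               (CovZ.leaf K2_ok TE_l8059 _)
               (CovZ.leaf K2_ok TE_l8060 _)))
             (CovZ.subM 45671928889181958560319087739111829752263477248 (by decide +kernel)
              (CovZ.n1 (2640, 26000) (by decide +kernel)
               (CovZ.n2 (2560, 26000) (by decide +kernel)
                (CovZ.n2 (2600, 26040) (by decide +kernel)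
                 (CovZ.leaf K2_ok TE_l8061 _)
                 (CovZ.leaf K2_ok TE_l8062 _))
                (CovZ.n1 (2600, 25960) (by decide +kernel)
                 (CovZ.leaf K2_ok TE_l8063 _)
                 (CovZ.leaf K2_ok TE_l8064 _)))
               (CovZ.n1 (2640, 26080) (by decide +kernel)
                (CovZ.leaf K2_ok TE_l8065 _)
                (CovZ.n1 (2600, 26040) (by decide +kernel)
                 (CovZ.leaf K2_ok TE_l8066 _)
                 (CovZ.leaf K2_ok TE_l8067 _)))))))
           (CovZ.n1 (2720, 25760) (by decide +kernel)
            (CovZ.subM 46813724320755484098751393879200572642153277163520 (by decide +kernel)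
             (CovZ.n2 (2560, 25760) (by decide +kernel)
              (CovZ.n2 (2640, 25840) (by decide +kernel)
               (CovZ.n2 (2640, 25760) (by decide +kernel)
                (CovZ.n2 (2600, 25800) (by decide +kernel)
                 (CovZ.n2 (2640, 25800) (by decide +kernel)
                  (CovZ.n2 (2620, 25780) (by decide +kernel)
                   (CovZ.leaf K2_ok TE_l8068 _)
                   (CovZ.leaf K2_ok TE_l8069 _))
                  (CovZ.leaf K2_ok TE_l8070 _))
                 (CovZ.subM 268435456 (by decide +kernel)
                  (CovZ.n1 (2600, 25760) (by decide +kernel)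
                   (CovZ.n2 (2580, 25780) (by decide +kernel)
                    (CovZ.leaf K2_ok TE_l8071 _)
                    (CovZ.badM (by decide +kernel)))
                   (CovZ.n1 (2620, 25780) (by decide +kernel)
                    (CovZ.badM (by decide +kernel))
                    (CovZ.leaf K2_ok TE_l8073 _)))))
                (CovZ.n1 (2680, 25800) (by decide +kernel)
                 (CovZ.n2 (2680, 25760) (by decide +kernel)
                  (CovZ.leaf K2_ok TE_l8074 _)
                  (CovZ.leaf K2_ok TE_l8075 _))
                 (CovZ.leaf K2_ok TE_l8076 _)))
               (CovZ.n1 (2560, 25840) (by decide +kernel)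
                (CovZ.n2 (2600, 25880) (by decide +kernel)
                 (CovZ.n2 (2600, 25840) (by decide +kernel)
                  (CovZ.leaf K2_ok TE_l8077 _)
                  (CovZ.leaf K2_ok TE_l8078 _))
                 (CovZ.n1 (2560, 25880) (by decide +kernel)
                  (CovZ.leaf K2_ok TE_l8079 _)
                  (CovZ.leaf K2_ok TE_l8080 _)))
                (CovZ.n1 (2600, 25800) (by decide +kernel)
                 (CovZ.subM 39614081257132168797040412672 (by decide +kernel)
                  (CovZ.n2 (2560, 25800) (by decide +kernel)
                   (CovZ.n2 (2580, 25820) (by decide +kernel)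
                    (CovZ.leaf K2_ok TE_l17483 _)
                    (CovZ.leaf K2_ok TE_l17484 _))
                   (CovZ.n1 (2580, 25780) (by decide +kernel)
                    (CovZ.badM (by decide +kernel))
                    (CovZ.leaf K2_ok TE_l17485 _))))
                 (CovZ.n1 (2600, 25840) (by decide +kernel)
                  (CovZ.leaf K2_ok TE_l8081 _)
                  (CovZ.n1 (2580, 25820) (by decide +kernel)
                   (CovZ.leaf K2_ok TE_l8082 _)
                   (CovZ.leaf K2_ok TE_l8083 _))))))
              (CovZ.subM 46813724320755484098711779797943440473356236750848 (by decide +kernel)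
               (CovZ.n1 (2640, 25680) (by decide +kernel)
                (CovZ.badM (by decide +kernel))
                (CovZ.n1 (2640, 25760) (by decide +kernel)
                 (CovZ.n2 (2680, 25720) (by decide +kernel)
                  (CovZ.n2 (2640, 25720) (by decide +kernel)
                   (CovZ.n2 (2660, 25740) (by decide +kernel)
                    (CovZ.leaf K2_ok TE_l19618 _)
                    (CovZ.leaf K2_ok TE_l8084 _))
                   (CovZ.n1 (2660, 25700) (by decide +kernel)
                    (CovZ.leaf K2_ok TE_l19619 _)
                    (CovZ.leaf K2_ok TE_l19620 _)))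
                  (CovZ.n1 (2680, 25760) (by decide +kernel)
                   (CovZ.leaf K2_ok TE_l8085 _)
                   (CovZ.n1 (2660, 25740) (by decide +kernel)
                    (CovZ.leaf K2_ok TE_l8086 _)
                    (CovZ.leaf K2_ok TE_l8087 _))))
                 (CovZ.badM (by decide +kernel)))))))
            (CovZ.n1 (2720, 25920) (by decide +kernel)
             (CovZ.n2 (2800, 25840) (by decide +kernel)
              (CovZ.n2 (2720, 25840) (by decide +kernel)
               (CovZ.leaf K2_ok TE_l8090 _)
               (CovZ.leaf K2_ok TE_l8091 _))
              (CovZ.n1 (2800, 25920) (by decide +kernel)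
               (CovZ.leaf K2_ok TE_l8092 _)
               (CovZ.leaf K2_ok TE_l8093 _)))
             (CovZ.subM 46813724320755484098751393879242077816319660525568 (by decide +kernel)
              (CovZ.n1 (2640, 25840) (by decide +kernel)
               (CovZ.n2 (2640, 25920) (by decide +kernel)
                (CovZ.n2 (2680, 25880) (by decide +kernel)
                 (CovZ.leaf K2_ok TE_l8094 _)
                 (CovZ.leaf K2_ok TE_l8095 _))
                (CovZ.n1 (2600, 25880) (by decide +kernel)
                 (CovZ.leaf K2_ok TE_l8096 _)
                 (CovZ.leaf K2_ok TE_l8097 _)))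
               (CovZ.n1 (2720, 25840) (by decide +kernel)
                (CovZ.n2 (2680, 25800) (by decide +kernel)
                 (CovZ.leaf K2_ok TE_l8098 _)
                 (CovZ.leaf K2_ok TE_l8099 _))
                (CovZ.leaf K2_ok TE_l8100 _))))))))
         (CovZ.n1 (2880, 26240) (by decide +kernel)
          (CovZ.n2 (3040, 26080) (by decide +kernel)
           (CovZ.n2 (2880, 26080) (by decide +kernel)
            (CovZ.leaf K2_ok TE_l8101 _)
            (CovZ.leaf K2_ok TE_l8102 _))
           (CovZ.n1 (3040, 26240) (by decide +kernel)
            (CovZ.leaf K2_ok TE_l8103 _)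
            (CovZ.leaf K2_ok TE_l8104 _)))
          (CovZ.subM 49742436588995775629062094882527299134694806276608 (by decide +kernel)
           (CovZ.n1 (2720, 26080) (by decide +kernel)
            (CovZ.n2 (2720, 26240) (by decide +kernel)
             (CovZ.leaf K2_ok TE_l8105 _)
             (CovZ.n1 (2640, 26160) (by decide +kernel)
              (CovZ.n2 (2640, 26240) (by decide +kernel)
               (CovZ.leaf K2_ok TE_l8106 _)
               (CovZ.leaf K2_ok TE_l8107 _))
              (CovZ.leaf K2_ok TE_l8108 _)))
            (CovZ.n1 (2880, 26080) (by decide +kernel)
             (CovZ.n2 (2800, 26000) (by decide +kernel)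
              (CovZ.leaf K2_ok TE_l8109 _)
              (CovZ.leaf K2_ok TE_l8110 _))
             (CovZ.leaf K2_ok TE_l8111 _))))))))
      (CovZ.n1 (3200, 26880) (by decide +kernel)
       (CovZ.subM 6693954041803396097657662505353024548059636681284692593584 (by decide +kernel)
        (CovZ.n2 (3520, 26560) (by decide +kernel)
         (CovZ.n2 (3200, 26560) (by decide +kernel)
          (CovZ.n2 (3360, 26720) (by decide +kernel)
           (CovZ.leaf K2_ok TE_l8112 _)
           (CovZ.leaf K2_ok TE_l8113 _))
          (CovZ.leaf K2_ok TE_l8114 _))
         (CovZ.n1 (3520, 26880) (by decide +kernel)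
          (CovZ.leaf K2_ok TE_l8115 _)
          (CovZ.n1 (3360, 26720) (by decide +kernel)
           (CovZ.leaf K2_ok TE_l8116 _)
           (CovZ.leaf K2_ok TE_l8117 _)))))
       (CovZ.subM 207168895579598671020678917668561982269956862745816131554224 (by decide +kernel)
        (CovZ.n1 (2880, 26560) (by decide +kernel)
         (CovZ.n2 (2880, 26880) (by decide +kernel)
          (CovZ.n2 (3040, 26720) (by decide +kernel)
           (CovZ.leaf K2_ok TE_l8118 _)
           (CovZ.leaf K2_ok TE_l8119 _))
          (CovZ.n1 (2720, 26720) (by decide +kernel)
           (CovZ.n2 (2720, 26880) (by decide +kernel)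
            (CovZ.leaf K2_ok TE_l8120 _)
            (CovZ.n1 (2640, 26800) (by decide +kernel)
             (CovZ.leaf K2_ok TE_l8121 _)
             (CovZ.leaf K2_ok TE_l8122 _)))
           (CovZ.leaf K2_ok TE_l8123 _)))
         (CovZ.n1 (3200, 26560) (by decide +kernel)
          (CovZ.n2 (3040, 26400) (by decide +kernel)
           (CovZ.leaf K2_ok TE_l8124 _)
           (CovZ.leaf K2_ok TE_l8125 _))
          (CovZ.leaf K2_ok TE_l8126 _)))))))

end Pool.Agent.TET
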