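import Pool.Agent.Helper38_TET.TE_M
import Pool.Agent.Helper38_TET.TE_L
import Pool.Agent.Helper38_TET.TE_54
import Pool.Agent.Helper38_TET.TE_55
import Pool.Agent.Helper38_TET.TE_92
import Pool.Agent.Helper38_TET.TE_93
import Pool.Agent.Helper38_TET.TE_94
import Pool.Agent.Helper38_TET.TE_104
import Pool.Agent.Helper38_TET.TE_105
import Pool.Agent.Helper38_TET.TE_106
import Pool.Agent.Helper38_TET.TE_107
import Pool.Agent.Helper38_TET.TE_108
import Pool.Agent.Helper38_TET.TE_123
import Pool.Agent.Helper38_TET.TE_124
import Pool.Agent.Helper38_TET.TE_U5

/-!
# MP_c7c9bf_co: certificates, family TE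
-/

set_option autoImplicit false
set_option maxRecDepth 100000

namespace Pool.Agent.TET

theorem TE_u92 : CovZ TE_M (toL (selN TE_LN 2219470497621667340733410370615672913012901204914377769742256)) [0, 7, 6, 1] (3840, 26880) (5120, 28160) (2560, 28160) :=
    (CovZ.n1 (3840, 28160) (by decide +kernel)
     (CovZ.n2 (4480, 27520) (by decide +kernel)
      (CovZ.n2 (3840, 27520) (by decide +kernel)
       (CovZ.n2 (4160, 27840) (by decide +kernel)
        (CovZ.n2 (4160, 27520) (by decide +kernel)
         (CovZ.leaf K2_ok TE_l8127 _)
         (CovZ.n1 (4320, 27680) (by decide +kernel)
          (CovZ.leaf K2_ok TE_l8128 _)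
          (CovZ.leaf K2_ok TE_l8129 _)))
        (CovZ.n1 (3840, 27840) (by decide +kernel)
         (CovZ.subM 408502012869834684902528087805363746019742206345917342264752 (by decide +kernel)
          (CovZ.n2 (4000, 28000) (by decide +kernel)
           (CovZ.leaf K2_ok TE_l8130 _)
           (CovZ.n1 (3840, 28000) (by decide +kernel)
            (CovZ.n2 (3920, 28080) (by decide +kernel)
             (CovZ.leaf K2_ok TE_l8131 _)
             (CovZ.leaf K2_ok TE_l8132 _))
            (CovZ.leaf K2_ok TE_l8133 _))))
         (CovZ.n1 (4000, 27680) (by decide +kernel)
          (CovZ.leaf K2_ok TE_l8134 _)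
          (CovZ.leaf K2_ok TE_l8135 _))))
       (CovZ.n1 (4160, 27200) (by decide +kernel)
        (CovZ.n2 (3840, 27200) (by decide +kernel)
         (CovZ.n2 (4000, 27360) (by decide +kernel)
          (CovZ.leaf K2_ok TE_l8136 _)
          (CovZ.leaf K2_ok TE_l8137 _))
         (CovZ.leaf K2_ok TE_l8138 _))
        (CovZ.n1 (4160, 27520) (by decide +kernel)
         (CovZ.leaf K2_ok TE_l8139 _)
         (CovZ.n1 (4000, 27360) (by decide +kernel)
          (CovZ.leaf K2_ok TE_l8140 _)
          (CovZ.leaf K2_ok TE_l8141 _)))))
      (CovZ.n1 (4480, 28160) (by decide +kernel)
       (CovZ.subM 408526543274532275512003797856449086669364895932929718988208 (by decide +kernel)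
        (CovZ.n2 (4800, 27840) (by decide +kernel)
         (CovZ.n2 (4480, 27840) (by decide +kernel)
          (CovZ.n2 (4640, 28000) (by decide +kernel)
           (CovZ.n2 (4640, 27840) (by decide +kernel)
            (CovZ.leaf K2_ok TE_l8142 _)
            (CovZ.n1 (4720, 27920) (by decide +kernel)
             (CovZ.leaf K2_ok TE_l8143 _)
             (CovZ.leaf K2_ok TE_l8144 _)))
           (CovZ.n1 (4480, 28000) (by decide +kernel)
            (CovZ.n2 (4560, 28080) (by decide +kernel)
             (CovZ.leaf K2_ok TE_l8145 _)
             (CovZ.leaf K2_ok TE_l8146 _))
            (CovZ.leaf K2_ok TE_l8147 _)))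
          (CovZ.n1 (4640, 27680) (by decide +kernel)
           (CovZ.n2 (4480, 27680) (by decide +kernel)
            (CovZ.leaf K2_ok TE_l8148 _)
            (CovZ.leaf K2_ok TE_l8149 _))
           (CovZ.n1 (4640, 27840) (by decide +kernel)
            (CovZ.leaf K2_ok TE_l8150 _)
            (CovZ.leaf K2_ok TE_l8151 _))))
         (CovZ.n1 (4800, 28160) (by decide +kernel)
          (CovZ.n2 (4960, 28000) (by decide +kernel)
           (CovZ.n2 (4800, 28000) (by decide +kernel)
            (CovZ.subM 408011612800134250346310667475307363975769088151881229869200 (by decide +kernel)
             (CovZ.n2 (4880, 28080) (by decide +kernel)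
              (CovZ.n2 (4880, 28000) (by decide +kernel)
               (CovZ.leaf K2_ok TE_l8152 _)
               (CovZ.n1 (4920, 28040) (by decide +kernel)
                (CovZ.leaf K2_ok TE_l8153 _)
                (CovZ.leaf K2_ok TE_l8154 _)))
              (CovZ.n1 (4800, 28080) (by decide +kernel)
               (CovZ.n2 (4840, 28120) (by decide +kernel)
                (CovZ.leaf K2_ok TE_l8155 _)
                (CovZ.n1 (4800, 28120) (by decide +kernel)
                 (CovZ.leaf K2_ok TE_l8156 _)
                 (CovZ.leaf K2_ok TE_l8157 _)))
               (CovZ.n1 (4840, 28040) (by decide +kernel)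
                (CovZ.leaf K2_ok TE_l8158 _)
                (CovZ.leaf K2_ok TE_l8159 _)))))
            (CovZ.n1 (4880, 27920) (by decide +kernel)
             (CovZ.n2 (4800, 27920) (by decide +kernel)
              (CovZ.leaf K2_ok TE_l8160 _)
              (CovZ.leaf K2_ok TE_l8161 _))
             (CovZ.n1 (4880, 28000) (by decide +kernel)
              (CovZ.leaf K2_ok TE_l8162 _)
              (CovZ.leaf K2_ok TE_l8163 _))))
           (CovZ.subM 408011612800134250346225596883577129359898614658868459937936 (by decide +kernel)
            (CovZ.n1 (4960, 28160) (by decide +kernel)
             TE_u87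
             TE_u88)))
          (CovZ.n1 (4640, 28000) (by decide +kernel)
           (CovZ.n2 (4640, 28160) (by decide +kernel)
            (CovZ.n2 (4720, 28080) (by decide +kernel)
             (CovZ.n2 (4640, 28080) (by decide +kernel)
              (CovZ.n2 (4680, 28120) (by decide +kernel)
               (CovZ.leaf K2_ok TE_l8218 _)
               (CovZ.leaf K2_ok TE_l8219 _))
              (CovZ.leaf K2_ok TE_l8220 _))
             (CovZ.subM 408109692514749666710486483195754323038943257147188350886032 (by decide +kernel)
              (CovZ.n1 (4720, 28160) (by decide +kernel)
               (CovZ.n2 (4760, 28120) (by decide +kernel)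
                (CovZ.leaf K2_ok TE_l8221 _)
                (CovZ.leaf K2_ok TE_l8222 _))
               (CovZ.n1 (4680, 28120) (by decide +kernel)
                (CovZ.leaf K2_ok TE_l8223 _)
                (CovZ.leaf K2_ok TE_l8224 _)))))
            (CovZ.n1 (4560, 28080) (by decide +kernel)
             (CovZ.n2 (4560, 28160) (by decide +kernel)
              (CovZ.leaf K2_ok TE_l8225 _)
              (CovZ.leaf K2_ok TE_l8226 _))
             (CovZ.leaf K2_ok TE_l8227 _)))
           (CovZ.n1 (4800, 28000) (by decide +kernel)
            (CovZ.n2 (4720, 27920) (by decide +kernel)
             (CovZ.leaf K2_ok TE_l8228 _)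
             (CovZ.leaf K2_ok TE_l8229 _))
            (CovZ.subM 408011612800134250520535239338827857873479833028276892278928 (by decide +kernel)
             (CovZ.n1 (4720, 28080) (by decide +kernel)
              (CovZ.n2 (4800, 28080) (by decide +kernel)
               (CovZ.leaf K2_ok TE_l8230 _)
               (CovZ.leaf K2_ok TE_l8231 _))
              (CovZ.n1 (4720, 28000) (by decide +kernel)
               (CovZ.leaf K2_ok TE_l8232 _)
               (CovZ.leaf K2_ok TE_l8233 _)))))))))
       (CovZ.n1 (4160, 27840) (by decide +kernel)
        (CovZ.subM 408502011373257008275513358378794706810522384385103542463920 (by decide +kernel)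
         (CovZ.n2 (4160, 28160) (by decide +kernel)
          (CovZ.n2 (4320, 28000) (by decide +kernel)
           (CovZ.n2 (4160, 28000) (by decide +kernel)
            (CovZ.n2 (4240, 28080) (by decide +kernel)
             (CovZ.leaf K2_ok TE_l8234 _)
             (CovZ.leaf K2_ok TE_l8235 _))
            (CovZ.leaf K2_ok TE_l8236 _))
           (CovZ.n1 (4320, 28160) (by decide +kernel)
            (CovZ.n2 (4400, 28080) (by decide +kernel)
             (CovZ.leaf K2_ok TE_l8237 _)
             (CovZ.leaf K2_ok TE_l8238 _))
            (CovZ.n1 (4240, 28080) (by decide +kernel)
             (CovZ.leaf K2_ok TE_l8239 _)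
             (CovZ.leaf K2_ok TE_l8240 _))))
          (CovZ.n1 (4000, 28000) (by decide +kernel)
           (CovZ.n2 (4000, 28160) (by decide +kernel)
            (CovZ.n2 (4080, 28080) (by decide +kernel)
             (CovZ.leaf K2_ok TE_l8241 _)
             (CovZ.leaf K2_ok TE_l8242 _))
            (CovZ.n1 (3920, 28080) (by decide +kernel)
             (CovZ.leaf K2_ok TE_l8243 _)
             (CovZ.leaf K2_ok TE_l8244 _)))
           (CovZ.n1 (4160, 28000) (by decide +kernel)
            (CovZ.leaf K2_ok TE_l8245 _)
            (CovZ.leaf K2_ok TE_l8246 _)))))
        (CovZ.n1 (4480, 27840) (by decide +kernel)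
         (CovZ.n2 (4320, 27680) (by decide +kernel)
          (CovZ.leaf K2_ok TE_l8247 _)
          (CovZ.leaf K2_ok TE_l8248 _))
         (CovZ.subM 408502011373257008275513358378794706810522384385104079334832 (by decide +kernel)
          (CovZ.n1 (4320, 28000) (by decide +kernel)
           (CovZ.n2 (4480, 28000) (by decide +kernel)
            (CovZ.leaf K2_ok TE_l8249 _)
            (CovZ.leaf K2_ok TE_l8250 _))
           (CovZ.n1 (4320, 27840) (by decide +kernel)
            (CovZ.leaf K2_ok TE_l8251 _)
            (CovZ.leaf K2_ok TE_l8252 _))))))))
     (CovZ.n1 (3200, 27520) (by decide +kernel)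
      (CovZ.n2 (3200, 28160) (by decide +kernel)
       TE_u89
       TE_u90)
      (CovZ.n1 (3840, 27520) (by decide +kernel)
       (CovZ.n2 (3520, 27200) (by decide +kernel)
        (CovZ.n2 (3520, 27520) (by decide +kernel)
         (CovZ.leaf K2_ok TE_l8382 _)
         (CovZ.n1 (3360, 27360) (by decide +kernel)
          (CovZ.leaf K2_ok TE_l8383 _)
          (CovZ.leaf K2_ok TE_l8384 _)))
        (CovZ.n1 (3840, 27200) (by decide +kernel)
         (CovZ.leaf K2_ok TE_l8385 _)
         (CovZ.leaf K2_ok TE_l8386 _)))
       (CovZ.n1 (3520, 27840) (by decide +kernel)
        (CovZ.n2 (3840, 27840) (by decide +kernel)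
         (CovZ.n2 (3680, 27680) (by decide +kernel)
          (CovZ.leaf K2_ok TE_l8387 _)
          (CovZ.leaf K2_ok TE_l8388 _))
         (CovZ.n1 (3680, 28000) (by decide +kernel)
          (CovZ.n2 (3840, 28000) (by decide +kernel)
           (CovZ.leaf K2_ok TE_l8389 _)
           (CovZ.leaf K2_ok TE_l8390 _))
          (CovZ.leaf K2_ok TE_l8391 _)))
        (CovZ.n1 (3520, 27520) (by decide +kernel)
         (CovZ.leaf K2_ok TE_l8392 _)
         (CovZ.n1 (3680, 27680) (by decide +kernel)
          (CovZ.leaf K2_ok TE_l8393 _)
          (CovZ.leaf K2_ok TE_l8394 _)))))))

theorem TE_u93 : CovZ TE_M (toL (selN TE_LN 6669420593848349008559216696138552234314090876088164659384)) [0, 7, 6, 1] (5120, 27840) (5280, 27840) (5280, 28000) :=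
    (CovZ.n2 (5200, 27920) (by decide +kernel)
             (CovZ.subM 85402979898433343059210908394572058680 (by decide +kernel)
              (CovZ.n2 (5280, 27920) (by decide +kernel)
               (CovZ.n2 (5240, 27880) (by decide +kernel)
                (CovZ.n2 (5240, 27920) (by decide +kernel)
                 (CovZ.n2 (5260, 27900) (by decide +kernel)
                  (CovZ.n2 (5240, 27900) (by decide +kernel)
                   (CovZ.n2 (5250, 27910) (by decide +kernel)
                    (CovZ.leaf K2_ok TE_l13861 _)
                    (CovZ.leaf K2_ok TE_l13862 _))
                   (CovZ.leaf K2_ok TE_l13863 _))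
                  (CovZ.n1 (5260, 27920) (by decide +kernel)
                   (CovZ.n2 (5270, 27910) (by decide +kernel)
                    (CovZ.leaf K2_ok TE_l13864 _)
                    (CovZ.n1 (5270, 27920) (by decide +kernel)
                     (CovZ.leaf K2_ok TE_l18370 _)
                     (CovZ.leaf K2_ok TE_l18371 _)))
                   (CovZ.n1 (5250, 27910) (by decide +kernel)
                    (CovZ.n2 (5250, 27920) (by decide +kernel)
                     (CovZ.leaf K2_ok TE_l18372 _)
                     (CovZ.leaf K2_ok TE_l18373 _))
                    (CovZ.leaf K2_ok TE_l13865 _))))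
                 (CovZ.n1 (5220, 27900) (by decide +kernel)
                  (CovZ.subM 85402898729180844834213723209135128592 (by decide +kernel)
                   (CovZ.n2 (5220, 27920) (by decide +kernel)
                    (CovZ.n2 (5230, 27910) (by decide +kernel)
                     (CovZ.leaf K2_ok TE_l13866 _)
                     (CovZ.n1 (5230, 27920) (by decide +kernel)
                      (CovZ.leaf K2_ok TE_l18374 _)
                      (CovZ.leaf K2_ok TE_l18375 _)))
                    (CovZ.n1 (5210, 27910) (by decide +kernel)
                     (CovZ.leaf K2_ok TE_l13867 _)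
                     (CovZ.leaf K2_ok TE_l13868 _))))
                  (CovZ.n1 (5240, 27900) (by decide +kernel)
                   (CovZ.leaf K2_ok TE_l13869 _)
                   (CovZ.n1 (5230, 27910) (by decide +kernel)
                    (CovZ.leaf K2_ok TE_l13870 _)
                    (CovZ.leaf K2_ok TE_l13871 _)))))
                (CovZ.n1 (5280, 27880) (by decide +kernel)
                 (CovZ.n2 (5260, 27860) (by decide +kernel)
                  (CovZ.leaf K2_ok TE_l13872 _)
                  (CovZ.leaf K2_ok TE_l13873 _))
                 (CovZ.n1 (5260, 27900) (by decide +kernel)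
                  (CovZ.leaf K2_ok TE_l13874 _)
                  (CovZ.leaf K2_ok TE_l13875 _))))
               (CovZ.n1 (5240, 27960) (by decide +kernel)
                (CovZ.subM 81169252495863813873381870702592 (by decide +kernel)
                 (CovZ.n2 (5280, 27960) (by decide +kernel)
                  (CovZ.n2 (5260, 27940) (by decide +kernel)
                   (CovZ.badM (by decide +kernel))
                   (CovZ.n1 (5280, 27940) (by decide +kernel)
                    (CovZ.n2 (5270, 27930) (by decide +kernel)
                     (CovZ.n2 (5270, 27940) (by decide +kernel)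
                      (CovZ.leaf K2_ok TE_l18376 _)
                      (CovZ.n1 (5265, 27935) (by decide +kernel)
                       (CovZ.badM (by decide +kernel))
                       (CovZ.leaf K2_ok TE_l18377 _)))
                     (CovZ.n1 (5280, 27930) (by decide +kernel)
                      (CovZ.leaf K2_ok TE_l18378 _)
                      (CovZ.leaf K2_ok TE_l18379 _)))
                    (CovZ.badM (by decide +kernel))))
                  (CovZ.badM (by decide +kernel))))
                (CovZ.n1 (5240, 27920) (by decide +kernel)
                 (CovZ.subM 85402898729180844834213723209135128592 (by decide +kernel)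
                  (CovZ.n2 (5220, 27940) (by decide +kernel)
                   (CovZ.n2 (5240, 27940) (by decide +kernel)
                    (CovZ.n2 (5230, 27930) (by decide +kernel)
                     (CovZ.n2 (5230, 27940) (by decide +kernel)
                      (CovZ.leaf K2_ok TE_l18380 _)
                      (CovZ.n1 (5225, 27935) (by decide +kernel)
                       (CovZ.leaf K2_ok TE_l18381 _)
                       (CovZ.leaf K2_ok TE_l18382 _)))
                     (CovZ.n1 (5240, 27930) (by decide +kernel)
                      (CovZ.n2 (5235, 27925) (by decide +kernel)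
                       (CovZ.leaf K2_ok TE_l18383 _)
                       (CovZ.leaf K2_ok TE_l18384 _))
                      (CovZ.n1 (5235, 27935) (by decide +kernel)
                       (CovZ.badM (by decide +kernel))
                       (CovZ.leaf K2_ok TE_l18385 _))))
                    (CovZ.subM 4398046511104 (by decide +kernel)
                     (CovZ.n1 (5230, 27950) (by decide +kernel)
                      (CovZ.badM (by decide +kernel))
                      (CovZ.n1 (5230, 27940) (by decide +kernel)
                       (CovZ.n2 (5225, 27945) (by decide +kernel)
                        (CovZ.badM (by decide +kernel))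
                        (CovZ.leaf K2_ok TE_l18386 _))
                       (CovZ.badM (by decide +kernel))))))
                   (CovZ.n1 (5220, 27920) (by decide +kernel)
                    (CovZ.n2 (5210, 27930) (by decide +kernel)
                     (CovZ.n2 (5220, 27930) (by decide +kernel)
                      (CovZ.leaf K2_ok TE_l18387 _)
                      (CovZ.leaf K2_ok TE_l18388 _))
                     (CovZ.leaf K2_ok TE_l13876 _))
                    (CovZ.n1 (5230, 27930) (by decide +kernel)
                     (CovZ.n2 (5230, 27920) (by decide +kernel)
                      (CovZ.leaf K2_ok TE_l18389 _)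
                      (CovZ.n1 (5235, 27925) (by decide +kernel)
                       (CovZ.leaf K2_ok TE_l18390 _)
                       (CovZ.leaf K2_ok TE_l18391 _)))
                     (CovZ.n1 (5220, 27930) (by decide +kernel)
                      (CovZ.n2 (5225, 27935) (by decide +kernel)
                       (CovZ.leaf K2_ok TE_l18392 _)
                       (CovZ.n1 (5220, 27935) (by decide +kernel)
                        (CovZ.leaf K2_ok TE_l18393 _)
                        (CovZ.leaf K2_ok TE_l18394 _)))
                      (CovZ.leaf K2_ok TE_l18395 _))))))
                 (CovZ.n1 (5260, 27940) (by decide +kernel)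
                  (CovZ.n2 (5260, 27920) (by decide +kernel)
                   (CovZ.subM 85402898729180844834069608021059272704 (by decide +kernel)
                    (CovZ.n2 (5250, 27930) (by decide +kernel)
                     (CovZ.n2 (5260, 27930) (by decide +kernel)
                      (CovZ.leaf K2_ok TE_l18396 _)
                      (CovZ.badM (by decide +kernel)))
                     (CovZ.n1 (5250, 27920) (by decide +kernel)
                      (CovZ.leaf K2_ok TE_l18397 _)
                      (CovZ.leaf K2_ok TE_l18398 _))))
                   (CovZ.subM 81169252495863813873381870702592 (by decide +kernel)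
                    (CovZ.n1 (5270, 27930) (by decide +kernel)
                     (CovZ.leaf K2_ok TE_l18399 _)
                     (CovZ.subM 557056 (by decide +kernel)
                      (CovZ.n1 (5260, 27930) (by decide +kernel)
                       (CovZ.n2 (5265, 27935) (by decide +kernel)
                        (CovZ.leaf K2_ok TE_l18400 _)
                        (CovZ.badM (by decide +kernel)))
                       (CovZ.n1 (5265, 27925) (by decide +kernel)
                        (CovZ.leaf K2_ok TE_l18401 _)
                        (CovZ.leaf K2_ok TE_l18402 _)))))))
                  (CovZ.subM 85402898729180844834069608021059272704 (by decide +kernel)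
                   (CovZ.n1 (5240, 27940) (by decide +kernel)
                    (CovZ.badM (by decide +kernel))
                    (CovZ.n1 (5250, 27930) (by decide +kernel)
                     (CovZ.n2 (5240, 27930) (by decide +kernel)
                      (CovZ.badM (by decide +kernel))
                      (CovZ.n1 (5245, 27925) (by decide +kernel)
                       (CovZ.leaf K2_ok TE_l18403 _)
                       (CovZ.leaf K2_ok TE_l18404 _)))
                     (CovZ.badM (by decide +kernel))))))))))
             (CovZ.n1 (5200, 27840) (by decide +kernel)
              (CovZ.n2 (5160, 27880) (by decide +kernel)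
               (CovZ.subM 696983690352850768250235167426211650044080 (by decide +kernel)
                (CovZ.n2 (5200, 27880) (by decide +kernel)
                 (CovZ.n2 (5180, 27860) (by decide +kernel)
                  (CovZ.leaf K2_ok TE_l13877 _)
                  (CovZ.leaf K2_ok TE_l13878 _))
                 (CovZ.n1 (5180, 27900) (by decide +kernel)
                  (CovZ.n2 (5200, 27900) (by decide +kernel)
                   (CovZ.leaf K2_ok TE_l13879 _)
                   (CovZ.leaf K2_ok TE_l13880 _))
                  (CovZ.leaf K2_ok TE_l13881 _))))
               (CovZ.n1 (5160, 27840) (by decide +kernel)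
                (CovZ.leaf K2_ok TE_l13882 _)
                (CovZ.n1 (5180, 27860) (by decide +kernel)
                 (CovZ.leaf K2_ok TE_l13883 _)
                 (CovZ.leaf K2_ok TE_l13884 _))))
              (CovZ.n1 (5240, 27880) (by decide +kernel)
               (CovZ.n2 (5240, 27840) (by decide +kernel)
                (CovZ.leaf K2_ok TE_l13885 _)
                (CovZ.n1 (5260, 27860) (by decide +kernel)
                 (CovZ.leaf K2_ok TE_l13886 _)
                 (CovZ.leaf K2_ok TE_l13887 _)))
               (CovZ.subM 85402898768794926128239450522078773424 (by decide +kernel)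
                (CovZ.n1 (5200, 27880) (by decide +kernel)
                 (CovZ.n2 (5220, 27900) (by decide +kernel)
                  (CovZ.n2 (5220, 27880) (by decide +kernel)
                   (CovZ.leaf K2_ok TE_l13888 _)
                   (CovZ.leaf K2_ok TE_l13889 _))
                  (CovZ.n1 (5200, 27900) (by decide +kernel)
                   (CovZ.n2 (5210, 27910) (by decide +kernel)
                    (CovZ.leaf K2_ok TE_l13890 _)
                    (CovZ.leaf K2_ok TE_l13891 _))
                   (CovZ.leaf K2_ok TE_l13892 _)))
                 (CovZ.n1 (5220, 27860) (by decide +kernel)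
                  (CovZ.leaf K2_ok TE_l13893 _)
                  (CovZ.leaf K2_ok TE_l13894 _)))))))

theorem TE_u94 : CovZ TE_M (toL (selN TE_LN 6669420593848349008559216696138552234314090876088164659384)) [0, 7, 6, 1] (5280, 27840) (5440, 27840) (5280, 28000) :=
    (CovZ.subM 85402979898433343059210908398867025976 (by decide +kernel)
             (CovZ.n1 (5360, 27920) (by decide +kernel)
              (CovZ.n2 (5360, 27840) (by decide +kernel)
               (CovZ.n2 (5320, 27880) (by decide +kernel)
                (CovZ.n2 (5360, 27880) (by decide +kernel)
                 (CovZ.leaf K2_ok TE_l13895 _)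
                 (CovZ.leaf K2_ok TE_l13896 _))
                (CovZ.n1 (5320, 27840) (by decide +kernel)
                 (CovZ.leaf K2_ok TE_l13897 _)
                 (CovZ.leaf K2_ok TE_l13898 _)))
               (CovZ.n1 (5400, 27880) (by decide +kernel)
                (CovZ.leaf K2_ok TE_l13899 _)
                (CovZ.n1 (5360, 27880) (by decide +kernel)
                 (CovZ.n2 (5380, 27900) (by decide +kernel)
                  (CovZ.leaf K2_ok TE_l13900 _)
                  (CovZ.leaf K2_ok TE_l13901 _))
                 (CovZ.leaf K2_ok TE_l13902 _))))
              (CovZ.n1 (5280, 27920) (by decide +kernel)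
               (CovZ.subM 81169252498224997114820988276744 (by decide +kernel)
                (CovZ.n2 (5320, 27960) (by decide +kernel)
                 (CovZ.n2 (5320, 27920) (by decide +kernel)
                  (CovZ.n2 (5300, 27940) (by decide +kernel)
                   (CovZ.n2 (5320, 27940) (by decide +kernel)
                    (CovZ.n2 (5310, 27930) (by decide +kernel)
                     (CovZ.leaf K2_ok TE_l18405 _)
                     (CovZ.leaf K2_ok TE_l13903 _))
                    (CovZ.leaf K2_ok TE_l18406 _))
                   (CovZ.n1 (5300, 27920) (by decide +kernel)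
                    (CovZ.n2 (5290, 27930) (by decide +kernel)
                     (CovZ.leaf K2_ok TE_l18407 _)
                     (CovZ.leaf K2_ok TE_l18408 _))
                    (CovZ.n1 (5310, 27930) (by decide +kernel)
                     (CovZ.leaf K2_ok TE_l13904 _)
                     (CovZ.leaf K2_ok TE_l18409 _))))
                  (CovZ.n1 (5340, 27940) (by decide +kernel)
                   (CovZ.leaf K2_ok TE_l13905 _)
                   (CovZ.n1 (5320, 27940) (by decide +kernel)
                    (CovZ.n2 (5330, 27950) (by decide +kernel)
                     (CovZ.leaf K2_ok TE_l13906 _)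
                     (CovZ.leaf K2_ok TE_l13907 _))
                    (CovZ.leaf K2_ok TE_l13908 _))))
                 (CovZ.n1 (5280, 27960) (by decide +kernel)
                  (CovZ.subM 81129638414606681704585098170376 (by decide +kernel)
                   (CovZ.n2 (5300, 27980) (by decide +kernel)
                    (CovZ.n2 (5300, 27960) (by decide +kernel)
                     (CovZ.n2 (5290, 27970) (by decide +kernel)
                      (CovZ.n2 (5300, 27970) (by decide +kernel)
                       (CovZ.n2 (5295, 27965) (by decide +kernel)
                        (CovZ.leaf K2_ok TE_l18410 _)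
                        (CovZ.leaf K2_ok TE_l18411 _))
                       (CovZ.leaf K2_ok TE_l18412 _))
                      (CovZ.n1 (5290, 27960) (by decide +kernel)
                       (CovZ.badM (by decide +kernel))
                       (CovZ.n1 (5295, 27965) (by decide +kernel)
                        (CovZ.leaf K2_ok TE_l18413 _)
                        (CovZ.badM (by decide +kernel)))))
                     (CovZ.n1 (5310, 27970) (by decide +kernel)
                      (CovZ.leaf K2_ok TE_l18414 _)
                      (CovZ.n1 (5300, 27970) (by decide +kernel)
                       (CovZ.leaf K2_ok TE_l18415 _)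
                       (CovZ.leaf K2_ok TE_l18416 _))))
                    (CovZ.badM (by decide +kernel))))
                  (CovZ.n1 (5300, 27940) (by decide +kernel)
                   (CovZ.n2 (5280, 27940) (by decide +kernel)
                    (CovZ.n2 (5290, 27950) (by decide +kernel)
                     (CovZ.n2 (5290, 27940) (by decide +kernel)
                      (CovZ.leaf K2_ok TE_l18417 _)
                      (CovZ.leaf K2_ok TE_l18418 _))
                     (CovZ.badM (by decide +kernel)))
                    (CovZ.n1 (5290, 27930) (by decide +kernel)
                     (CovZ.n2 (5280, 27930) (by decide +kernel)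
                      (CovZ.n2 (5285, 27935) (by decide +kernel)
                       (CovZ.leaf K2_ok TE_l18419 _)
                       (CovZ.leaf K2_ok TE_l18420 _))
                      (CovZ.leaf K2_ok TE_l18421 _))
                     (CovZ.n1 (5290, 27940) (by decide +kernel)
                      (CovZ.leaf K2_ok TE_l18422 _)
                      (CovZ.n1 (5285, 27935) (by decide +kernel)
                       (CovZ.leaf K2_ok TE_l18423 _)
                       (CovZ.leaf K2_ok TE_l18424 _)))))
                   (CovZ.subM 81169252495863813873381870145544 (by decide +kernel)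
                    (CovZ.n1 (5300, 27960) (by decide +kernel)
                     (CovZ.n2 (5310, 27950) (by decide +kernel)
                      (CovZ.n2 (5300, 27950) (by decide +kernel)
                       (CovZ.leaf K2_ok TE_l18425 _)
                       (CovZ.leaf K2_ok TE_l18426 _))
                      (CovZ.n1 (5310, 27960) (by decide +kernel)
                       (CovZ.leaf K2_ok TE_l18427 _)
                       (CovZ.leaf K2_ok TE_l18428 _)))
                     (CovZ.n1 (5290, 27950) (by decide +kernel)
                      (CovZ.n2 (5290, 27960) (by decide +kernel)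
                       (CovZ.n2 (5295, 27955) (by decide +kernel)
                        (CovZ.n2 (5290, 27955) (by decide +kernel)
                         (CovZ.leaf K2_ok TE_l18429 _)
                         (CovZ.leaf K2_ok TE_l18430 _))
                        (CovZ.leaf K2_ok TE_l18431 _))
                       (CovZ.badM (by decide +kernel)))
                      (CovZ.n1 (5300, 27950) (by decide +kernel)
                       (CovZ.leaf K2_ok TE_l18432 _)
                       (CovZ.leaf K2_ok TE_l18433 _)))))))))
               (CovZ.n1 (5320, 27880) (by decide +kernel)
                (CovZ.n2 (5280, 27880) (by decide +kernel)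
                 (CovZ.n2 (5300, 27900) (by decide +kernel)
                  (CovZ.leaf K2_ok TE_l13909 _)
                  (CovZ.n1 (5280, 27900) (by decide +kernel)
                   (CovZ.n2 (5290, 27910) (by decide +kernel)
                    (CovZ.leaf K2_ok TE_l13910 _)
                    (CovZ.leaf K2_ok TE_l13911 _))
                   (CovZ.leaf K2_ok TE_l13912 _)))
                 (CovZ.leaf K2_ok TE_l13913 _))
                (CovZ.n1 (5320, 27920) (by decide +kernel)
                 (CovZ.n2 (5340, 27900) (by decide +kernel)
                  (CovZ.leaf K2_ok TE_l13914 _)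
                  (CovZ.n1 (5340, 27920) (by decide +kernel)
                   (CovZ.leaf K2_ok TE_l13915 _)
                   (CovZ.leaf K2_ok TE_l13916 _)))
                 (CovZ.n1 (5300, 27900) (by decide +kernel)
                  (CovZ.subM 85402979898433340697883477009177808904 (by decide +kernel)
                   (CovZ.n2 (5300, 27920) (by decide +kernel)
                    (CovZ.leaf K2_ok TE_l13917 _)
                    (CovZ.n1 (5290, 27910) (by decide +kernel)
                     (CovZ.n2 (5290, 27920) (by decide +kernel)
                      (CovZ.leaf K2_ok TE_l18434 _)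
                      (CovZ.leaf K2_ok TE_l18435 _))
                     (CovZ.leaf K2_ok TE_l13918 _))))
                  (CovZ.leaf K2_ok TE_l13919 _)))))))

theorem TE_u95 : CovZ TE_M (toL (selN TE_LN 6669420593848349008559216696138552234314090876088164659384)) [0, 7, 6, 1] (5120, 28160) (5120, 28000) (5280, 28000) :=
    (CovZ.subM 6277101735386680763835789423207666567218227016978852225040 (by decide +kernel)
             (CovZ.n2 (5200, 28080) (by decide +kernel)
              (CovZ.n2 (5200, 28000) (by decide +kernel)
               (CovZ.n2 (5160, 28040) (by decide +kernel)
                (CovZ.badM (by decide +kernel))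
                (CovZ.n1 (5160, 28000) (by decide +kernel)
                 (CovZ.n2 (5140, 28020) (by decide +kernel)
                  (CovZ.subM 6277101735386680763835789423207666567218082896293218230272 (by decide +kernel)
                   (CovZ.n2 (5160, 28020) (by decide +kernel)
                    (CovZ.n2 (5150, 28010) (by decide +kernel)
                     (CovZ.leaf K2_ok TE_l18436 _)
                     (CovZ.leaf K2_ok TE_l18437 _))
                    (CovZ.n1 (5150, 28030) (by decide +kernel)
                     (CovZ.badM (by decide +kernel))
                     (CovZ.n1 (5150, 28020) (by decide +kernel)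
                      (CovZ.leaf K2_ok TE_l18438 _)
                      (CovZ.badM (by decide +kernel))))))
                  (CovZ.n1 (5140, 28000) (by decide +kernel)
                   (CovZ.n2 (5130, 28010) (by decide +kernel)
                    (CovZ.leaf K2_ok TE_l18439 _)
                    (CovZ.leaf K2_ok TE_l18440 _))
                   (CovZ.n1 (5150, 28010) (by decide +kernel)
                    (CovZ.leaf K2_ok TE_l18441 _)
                    (CovZ.n1 (5140, 28010) (by decide +kernel)
                     (CovZ.leaf K2_ok TE_l18442 _)
                     (CovZ.leaf K2_ok TE_l18443 _)))))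
                 (CovZ.subM 6277101735386680763835789423207666567218082896293218230272 (by decide +kernel)
                  (CovZ.n1 (5180, 28020) (by decide +kernel)
                   (CovZ.n2 (5180, 28000) (by decide +kernel)
                    (CovZ.n2 (5170, 28010) (by decide +kernel)
                     (CovZ.badM (by decide +kernel))
                     (CovZ.n1 (5170, 28000) (by decide +kernel)
                      (CovZ.leaf K2_ok TE_l18444 _)
                      (CovZ.badM (by decide +kernel))))
                    (CovZ.badM (by decide +kernel)))
                   (CovZ.n1 (5160, 28020) (by decide +kernel)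
                    (CovZ.badM (by decide +kernel))
                    (CovZ.n1 (5170, 28010) (by decide +kernel)
                     (CovZ.n2 (5160, 28010) (by decide +kernel)
                      (CovZ.badM (by decide +kernel))
                      (CovZ.leaf K2_ok TE_l18445 _))
                     (CovZ.badM (by decide +kernel))))))))
               (CovZ.badM (by decide +kernel)))
              (CovZ.n1 (5120, 28080) (by decide +kernel)
               (CovZ.badM (by decide +kernel))
               (CovZ.n1 (5160, 28040) (by decide +kernel)
                (CovZ.n2 (5120, 28040) (by decide +kernel)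
                 (CovZ.subM 151115727452928158466048 (by decide +kernel)
                  (CovZ.n2 (5140, 28060) (by decide +kernel)
                   (CovZ.n2 (5140, 28040) (by decide +kernel)
                    (CovZ.n2 (5130, 28050) (by decide +kernel)
                     (CovZ.badM (by decide +kernel))
                     (CovZ.leaf K2_ok TE_l18446 _))
                    (CovZ.badM (by decide +kernel)))
                   (CovZ.n1 (5120, 28060) (by decide +kernel)
                    (CovZ.badM (by decide +kernel))
                    (CovZ.n1 (5130, 28050) (by decide +kernel)
                     (CovZ.n2 (5120, 28050) (by decide +kernel)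
                      (CovZ.badM (by decide +kernel))
                      (CovZ.leaf K2_ok TE_l18447 _))
                     (CovZ.badM (by decide +kernel))))))
                 (CovZ.n1 (5140, 28020) (by decide +kernel)
                  (CovZ.n2 (5120, 28020) (by decide +kernel)
                   (CovZ.n2 (5130, 28030) (by decide +kernel)
                    (CovZ.leaf K2_ok TE_l18448 _)
                    (CovZ.n1 (5120, 28030) (by decide +kernel)
                     (CovZ.leaf K2_ok TE_l18449 _)
                     (CovZ.leaf K2_ok TE_l18450 _)))
                   (CovZ.n1 (5130, 28010) (by decide +kernel)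
                    (CovZ.leaf K2_ok TE_l13920 _)
                    (CovZ.leaf K2_ok TE_l18451 _)))
                  (CovZ.subM 151115727452928158466048 (by decide +kernel)
                   (CovZ.n1 (5140, 28040) (by decide +kernel)
                    (CovZ.n2 (5150, 28030) (by decide +kernel)
                     (CovZ.n2 (5140, 28030) (by decide +kernel)
                      (CovZ.n2 (5145, 28035) (by decide +kernel)
                       (CovZ.badM (by decide +kernel))
                       (CovZ.leaf K2_ok TE_l18452 _))
                      (CovZ.leaf K2_ok TE_l18453 _))
                     (CovZ.n1 (5150, 28040) (by decide +kernel)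
                      (CovZ.badM (by decide +kernel))
                      (CovZ.n1 (5145, 28035) (by decide +kernel)
                       (CovZ.leaf K2_ok TE_l18454 _)
                       (CovZ.badM (by decide +kernel)))))
                    (CovZ.n1 (5130, 28030) (by decide +kernel)
                     (CovZ.n2 (5130, 28040) (by decide +kernel)
                      (CovZ.leaf K2_ok TE_l18455 _)
                      (CovZ.leaf K2_ok TE_l18456 _))
                     (CovZ.n1 (5140, 28030) (by decide +kernel)
                      (CovZ.leaf K2_ok TE_l18457 _)
                      (CovZ.leaf K2_ok TE_l18458 _)))))))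
                (CovZ.badM (by decide +kernel))))))

theorem TE_u96 : CovZ TE_M (toL (selN TE_LN 6669420593848349008559216696138552234314090876088164659384)) [0, 7, 6, 1] (5120, 28000) (5120, 27840) (5280, 28000) :=
    (CovZ.n1 (5200, 27920) (by decide +kernel)
             (CovZ.n2 (5120, 27920) (by decide +kernel)
              (CovZ.subM 6277101735386681460819479776018820585043497213732029833360 (by decide +kernel)
               (CovZ.n2 (5160, 27960) (by decide +kernel)
                (CovZ.n2 (5160, 27920) (by decide +kernel)
                 (CovZ.n2 (5140, 27940) (by decide +kernel)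
                  (CovZ.leaf K2_ok TE_l13921 _)
                  (CovZ.leaf K2_ok TE_l13922 _))
                 (CovZ.n1 (5180, 27940) (by decide +kernel)
                  (CovZ.n2 (5180, 27920) (by decide +kernel)
                   (CovZ.leaf K2_ok TE_l13923 _)
                   (CovZ.n1 (5190, 27930) (by decide +kernel)
                    (CovZ.leaf K2_ok TE_l13924 _)
                    (CovZ.leaf K2_ok TE_l13925 _)))
                  (CovZ.n1 (5160, 27940) (by decide +kernel)
                   (CovZ.n2 (5170, 27950) (by decide +kernel)
                    (CovZ.leaf K2_ok TE_l13926 _)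
                    (CovZ.leaf K2_ok TE_l13927 _))
                   (CovZ.leaf K2_ok TE_l13928 _))))
                (CovZ.n1 (5120, 27960) (by decide +kernel)
                 (CovZ.n2 (5140, 27980) (by decide +kernel)
                  (CovZ.n2 (5140, 27960) (by decide +kernel)
                   (CovZ.leaf K2_ok TE_l13929 _)
                   (CovZ.n1 (5150, 27970) (by decide +kernel)
                    (CovZ.leaf K2_ok TE_l13930 _)
                    (CovZ.leaf K2_ok TE_l13931 _)))
                  (CovZ.n1 (5120, 27980) (by decide +kernel)
                   (CovZ.leaf K2_ok TE_l13932 _)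
                   (CovZ.leaf K2_ok TE_l13933 _)))
                 (CovZ.n1 (5140, 27940) (by decide +kernel)
                  (CovZ.leaf K2_ok TE_l13934 _)
                  (CovZ.n1 (5140, 27960) (by decide +kernel)
                   (CovZ.leaf K2_ok TE_l13935 _)
                   (CovZ.leaf K2_ok TE_l13936 _))))))
              (CovZ.n1 (5160, 27880) (by decide +kernel)
               (CovZ.n2 (5120, 27880) (by decide +kernel)
                (CovZ.n2 (5140, 27900) (by decide +kernel)
                 (CovZ.leaf K2_ok TE_l13937 _)
                 (CovZ.leaf K2_ok TE_l13938 _))
                (CovZ.leaf K2_ok TE_l13939 _))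
               (CovZ.subM 696983690352811154168941141769267995836560 (by decide +kernel)
                (CovZ.n1 (5160, 27920) (by decide +kernel)
                 (CovZ.n2 (5180, 27900) (by decide +kernel)
                  (CovZ.leaf K2_ok TE_l13940 _)
                  (CovZ.leaf K2_ok TE_l13941 _))
                 (CovZ.n1 (5140, 27900) (by decide +kernel)
                  (CovZ.leaf K2_ok TE_l13942 _)
                  (CovZ.leaf K2_ok TE_l13943 _))))))
             (CovZ.subM 6277101735386681460819479776018820585043497143363277266960 (by decide +kernel)
              (CovZ.n1 (5200, 28000) (by decide +kernel)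
               (CovZ.n2 (5240, 27960) (by decide +kernel)
                (CovZ.n2 (5200, 27960) (by decide +kernel)
                 (CovZ.subM 151115727451829183709184 (by decide +kernel)
                  (CovZ.n2 (5220, 27980) (by decide +kernel)
                   (CovZ.n2 (5220, 27960) (by decide +kernel)
                    (CovZ.n2 (5210, 27970) (by decide +kernel)
                     (CovZ.badM (by decide +kernel))
                     (CovZ.n1 (5210, 27960) (by decide +kernel)
                      (CovZ.leaf K2_ok TE_l18459 _)
                      (CovZ.badM (by decide +kernel))))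
                    (CovZ.badM (by decide +kernel)))
                   (CovZ.n1 (5200, 27980) (by decide +kernel)
                    (CovZ.badM (by decide +kernel))
                    (CovZ.n1 (5210, 27970) (by decide +kernel)
                     (CovZ.n2 (5200, 27970) (by decide +kernel)
                      (CovZ.badM (by decide +kernel))
                      (CovZ.leaf K2_ok TE_l18460 _))
                     (CovZ.badM (by decide +kernel))))))
                 (CovZ.n1 (5220, 27940) (by decide +kernel)
                  (CovZ.n2 (5200, 27940) (by decide +kernel)
                   (CovZ.subM 696898287454081973324106923476487990476816 (by decide +kernel)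
                    (CovZ.n2 (5210, 27950) (by decide +kernel)
                     (CovZ.n2 (5210, 27940) (by decide +kernel)
                      (CovZ.leaf K2_ok TE_l18461 _)
                      (CovZ.n1 (5215, 27945) (by decide +kernel)
                       (CovZ.leaf K2_ok TE_l18462 _)
                       (CovZ.leaf K2_ok TE_l18463 _)))
                     (CovZ.n1 (5200, 27950) (by decide +kernel)
                      (CovZ.n2 (5205, 27955) (by decide +kernel)
                       (CovZ.leaf K2_ok TE_l18464 _)
                       (CovZ.leaf K2_ok TE_l18465 _))
                      (CovZ.leaf K2_ok TE_l18466 _))))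
                   (CovZ.n1 (5210, 27930) (by decide +kernel)
                    (CovZ.leaf K2_ok TE_l13944 _)
                    (CovZ.n1 (5210, 27940) (by decide +kernel)
                     (CovZ.leaf K2_ok TE_l18467 _)
                     (CovZ.leaf K2_ok TE_l18468 _))))
                  (CovZ.subM 696898287454081973324106923476487990411264 (by decide +kernel)
                   (CovZ.n1 (5220, 27960) (by decide +kernel)
                    (CovZ.n2 (5230, 27950) (by decide +kernel)
                     (CovZ.n2 (5220, 27950) (by decide +kernel)
                      (CovZ.badM (by decide +kernel))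
                      (CovZ.n1 (5225, 27945) (by decide +kernel)
                       (CovZ.leaf K2_ok TE_l18469 _)
                       (CovZ.badM (by decide +kernel))))
                     (CovZ.badM (by decide +kernel)))
                    (CovZ.n1 (5210, 27950) (by decide +kernel)
                     (CovZ.n2 (5210, 27960) (by decide +kernel)
                      (CovZ.n2 (5215, 27955) (by decide +kernel)
                       (CovZ.leaf K2_ok TE_l18470 _)
                       (CovZ.badM (by decide +kernel)))
                      (CovZ.n1 (5205, 27955) (by decide +kernel)
                       (CovZ.leaf K2_ok TE_l18471 _)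
                       (CovZ.leaf K2_ok TE_l18472 _)))
                     (CovZ.n1 (5220, 27950) (by decide +kernel)
                      (CovZ.n2 (5215, 27945) (by decide +kernel)
                       (CovZ.leaf K2_ok TE_l18473 _)
                       (CovZ.n1 (5220, 27945) (by decide +kernel)
                        (CovZ.leaf K2_ok TE_l18474 _)
                        (CovZ.leaf K2_ok TE_l18475 _)))
                      (CovZ.n1 (5215, 27955) (by decide +kernel)
                       (CovZ.badM (by decide +kernel))
                       (CovZ.leaf K2_ok TE_l18476 _))))))))
                (CovZ.badM (by decide +kernel)))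
               (CovZ.n1 (5160, 27960) (by decide +kernel)
                (CovZ.n2 (5160, 28000) (by decide +kernel)
                 (CovZ.n2 (5180, 27980) (by decide +kernel)
                  (CovZ.n2 (5160, 27980) (by decide +kernel)
                   (CovZ.subM 151115731959826857590784 (by decide +kernel)
                    (CovZ.n2 (5170, 27990) (by decide +kernel)
                     (CovZ.n2 (5170, 27980) (by decide +kernel)
                      (CovZ.leaf K2_ok TE_l18477 _)
                      (CovZ.n1 (5175, 27985) (by decide +kernel)
                       (CovZ.leaf K2_ok TE_l18478 _)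
                       (CovZ.leaf K2_ok TE_l18479 _)))
                     (CovZ.n1 (5160, 27990) (by decide +kernel)
                      (CovZ.n2 (5165, 27995) (by decide +kernel)
                       (CovZ.leaf K2_ok TE_l18480 _)
                       (CovZ.leaf K2_ok TE_l18481 _))
                      (CovZ.leaf K2_ok TE_l18482 _))))
                   (CovZ.n1 (5170, 27970) (by decide +kernel)
                    (CovZ.n2 (5160, 27970) (by decide +kernel)
                     (CovZ.leaf K2_ok TE_l18483 _)
                     (CovZ.leaf K2_ok TE_l18484 _))
                    (CovZ.leaf K2_ok TE_l18485 _)))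
                  (CovZ.subM 151115727451829183709184 (by decide +kernel)
                   (CovZ.n1 (5180, 28000) (by decide +kernel)
                    (CovZ.n2 (5190, 27990) (by decide +kernel)
                     (CovZ.n2 (5180, 27990) (by decide +kernel)
                      (CovZ.badM (by decide +kernel))
                      (CovZ.leaf K2_ok TE_l18486 _))
                     (CovZ.badM (by decide +kernel)))
                    (CovZ.n1 (5170, 27990) (by decide +kernel)
                     (CovZ.n2 (5170, 28000) (by decide +kernel)
                      (CovZ.leaf K2_ok TE_l18487 _)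
                      (CovZ.n1 (5165, 27995) (by decide +kernel)
                       (CovZ.leaf K2_ok TE_l18488 _)
                       (CovZ.leaf K2_ok TE_l18489 _)))
                     (CovZ.n1 (5180, 27990) (by decide +kernel)
                      (CovZ.leaf K2_ok TE_l18490 _)
                      (CovZ.leaf K2_ok TE_l18491 _))))))
                 (CovZ.n1 (5140, 27980) (by decide +kernel)
                  (CovZ.n2 (5140, 28000) (by decide +kernel)
                   (CovZ.n2 (5150, 27990) (by decide +kernel)
                    (CovZ.leaf K2_ok TE_l18492 _)
                    (CovZ.leaf K2_ok TE_l18493 _))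
                   (CovZ.n1 (5130, 27990) (by decide +kernel)
                    (CovZ.leaf K2_ok TE_l18494 _)
                    (CovZ.leaf K2_ok TE_l18495 _)))
                  (CovZ.n1 (5160, 27980) (by decide +kernel)
                   (CovZ.n2 (5150, 27970) (by decide +kernel)
                    (CovZ.leaf K2_ok TE_l18496 _)
                    (CovZ.leaf K2_ok TE_l18497 _))
                   (CovZ.n1 (5150, 27990) (by decide +kernel)
                    (CovZ.n2 (5160, 27990) (by decide +kernel)
                     (CovZ.leaf K2_ok TE_l18498 _)
                     (CovZ.leaf K2_ok TE_l18499 _))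
                    (CovZ.leaf K2_ok TE_l18500 _)))))
                (CovZ.n1 (5200, 27960) (by decide +kernel)
                 (CovZ.n2 (5180, 27940) (by decide +kernel)
                  (CovZ.n2 (5180, 27960) (by decide +kernel)
                   (CovZ.n2 (5190, 27950) (by decide +kernel)
                    (CovZ.n2 (5180, 27950) (by decide +kernel)
                     (CovZ.leaf K2_ok TE_l18501 _)
                     (CovZ.leaf K2_ok TE_l18502 _))
                    (CovZ.leaf K2_ok TE_l18503 _))
                   (CovZ.n1 (5170, 27950) (by decide +kernel)
                    (CovZ.leaf K2_ok TE_l13945 _)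
                    (CovZ.leaf K2_ok TE_l18504 _)))
                  (CovZ.n1 (5200, 27940) (by decide +kernel)
                   (CovZ.n2 (5190, 27930) (by decide +kernel)
                    (CovZ.leaf K2_ok TE_l18505 _)
                    (CovZ.leaf K2_ok TE_l13946 _))
                   (CovZ.n1 (5190, 27950) (by decide +kernel)
                    (CovZ.leaf K2_ok TE_l18506 _)
                    (CovZ.leaf K2_ok TE_l18507 _))))
                 (CovZ.n1 (5180, 27980) (by decide +kernel)
                  (CovZ.subM 151115731955428811079680 (by decide +kernel)
                   (CovZ.n2 (5200, 27980) (by decide +kernel)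
                    (CovZ.n2 (5190, 27970) (by decide +kernel)
                     (CovZ.n2 (5190, 27980) (by decide +kernel)
                      (CovZ.leaf K2_ok TE_l18508 _)
                      (CovZ.n1 (5185, 27975) (by decide +kernel)
                       (CovZ.leaf K2_ok TE_l18509 _)
                       (CovZ.leaf K2_ok TE_l18510 _)))
                     (CovZ.n1 (5200, 27970) (by decide +kernel)
                      (CovZ.n2 (5195, 27965) (by decide +kernel)
                       (CovZ.leaf K2_ok TE_l18511 _)
                       (CovZ.leaf K2_ok TE_l18512 _))
                      (CovZ.leaf K2_ok TE_l18513 _)))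
                    (CovZ.n1 (5190, 27990) (by decide +kernel)
                     (CovZ.badM (by decide +kernel))
                     (CovZ.n1 (5190, 27980) (by decide +kernel)
                      (CovZ.n2 (5185, 27985) (by decide +kernel)
                       (CovZ.badM (by decide +kernel))
                       (CovZ.leaf K2_ok TE_l18514 _))
                      (CovZ.badM (by decide +kernel))))))
                  (CovZ.n1 (5180, 27960) (by decide +kernel)
                   (CovZ.n2 (5170, 27970) (by decide +kernel)
                    (CovZ.leaf K2_ok TE_l18515 _)
                    (CovZ.leaf K2_ok TE_l18516 _))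
                   (CovZ.subM 151115731959826857590800 (by decide +kernel)
                    (CovZ.n1 (5190, 27970) (by decide +kernel)
                     (CovZ.leaf K2_ok TE_l18517 _)
                     (CovZ.n1 (5180, 27970) (by decide +kernel)
                      (CovZ.n2 (5185, 27975) (by decide +kernel)
                       (CovZ.leaf K2_ok TE_l18518 _)
                       (CovZ.leaf K2_ok TE_l18519 _))
                      (CovZ.leaf K2_ok TE_l18520 _)))))))))))

theorem TE_u97 : CovZ TE_M (toL (selN TE_LN 6277101735386681460819479858455723532382005028461967093768)) [0, 7, 6, 1] (5120, 28160) (5280, 28000) (5440, 28160) :=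
    (CovZ.subM 27492085661704 (by decide +kernel)
             (CovZ.n2 (5280, 28160) (by decide +kernel)
              (CovZ.n2 (5360, 28080) (by decide +kernel)
               (CovZ.n2 (5280, 28080) (by decide +kernel)
                (CovZ.n2 (5320, 28120) (by decide +kernel)
                 (CovZ.n2 (5320, 28080) (by decide +kernel)
                  (CovZ.badM (by decide +kernel))
                  (CovZ.n1 (5340, 28100) (by decide +kernel)
                   (CovZ.n2 (5340, 28080) (by decide +kernel)
                    (CovZ.badM (by decide +kernel))
                    (CovZ.n1 (5350, 28090) (by decide +kernel)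
                     (CovZ.leaf K2_ok TE_l18521 _)
                     (CovZ.leaf K2_ok TE_l18522 _)))
                   (CovZ.badM (by decide +kernel))))
                 (CovZ.badM (by decide +kernel)))
                (CovZ.n1 (5320, 28040) (by decide +kernel)
                 (CovZ.badM (by decide +kernel))
                 (CovZ.n1 (5320, 28080) (by decide +kernel)
                  (CovZ.n2 (5340, 28060) (by decide +kernel)
                   (CovZ.n2 (5320, 28060) (by decide +kernel)
                    (CovZ.n2 (5330, 28070) (by decide +kernel)
                     (CovZ.leaf K2_ok TE_l18523 _)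
                     (CovZ.badM (by decide +kernel)))
                    (CovZ.n1 (5330, 28050) (by decide +kernel)
                     (CovZ.badM (by decide +kernel))
                     (CovZ.n1 (5330, 28060) (by decide +kernel)
                      (CovZ.leaf K2_ok TE_l18524 _)
                      (CovZ.badM (by decide +kernel)))))
                   (CovZ.n1 (5340, 28080) (by decide +kernel)
                    (CovZ.n2 (5350, 28070) (by decide +kernel)
                     (CovZ.leaf K2_ok TE_l18525 _)
                     (CovZ.leaf K2_ok TE_l18526 _))
                    (CovZ.n1 (5330, 28070) (by decide +kernel)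
                     (CovZ.badM (by decide +kernel))
                     (CovZ.leaf K2_ok TE_l18527 _))))
                  (CovZ.badM (by decide +kernel)))))
               (CovZ.n1 (5360, 28160) (by decide +kernel)
                (CovZ.n2 (5400, 28120) (by decide +kernel)
                 (CovZ.n2 (5360, 28120) (by decide +kernel)
                  (CovZ.n2 (5380, 28140) (by decide +kernel)
                   (CovZ.n2 (5380, 28120) (by decide +kernel)
                    (CovZ.leaf K2_ok TE_l14042 _)
                    (CovZ.leaf K2_ok TE_l14043 _))
                   (CovZ.n1 (5360, 28140) (by decide +kernel)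
                    (CovZ.n2 (5370, 28150) (by decide +kernel)
                     (CovZ.leaf K2_ok TE_l14044 _)
                     (CovZ.leaf K2_ok TE_l18528 _))
                    (CovZ.leaf K2_ok TE_l14045 _)))
                  (CovZ.n1 (5380, 28100) (by decide +kernel)
                   (CovZ.n2 (5360, 28100) (by decide +kernel)
                    (CovZ.n2 (5370, 28110) (by decide +kernel)
                     (CovZ.leaf K2_ok TE_l14046 _)
                     (CovZ.leaf K2_ok TE_l18529 _))
                    (CovZ.leaf K2_ok TE_l14047 _))
                   (CovZ.n1 (5380, 28120) (by decide +kernel)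
                    (CovZ.leaf K2_ok TE_l14048 _)
                    (CovZ.n1 (5370, 28110) (by decide +kernel)
                     (CovZ.leaf K2_ok TE_l14049 _)
                     (CovZ.leaf K2_ok TE_l14050 _)))))
                 (CovZ.n1 (5400, 28160) (by decide +kernel)
                  (CovZ.n2 (5420, 28140) (by decide +kernel)
                   (CovZ.leaf K2_ok TE_l14051 _)
                   (CovZ.leaf K2_ok TE_l14052 _))
                  (CovZ.n1 (5380, 28140) (by decide +kernel)
                   (CovZ.n2 (5380, 28160) (by decide +kernel)
                    (CovZ.leaf K2_ok TE_l14053 _)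
                    (CovZ.n1 (5370, 28150) (by decide +kernel)
                     (CovZ.leaf K2_ok TE_l18530 _)
                     (CovZ.leaf K2_ok TE_l14054 _)))
                   (CovZ.leaf K2_ok TE_l14055 _))))
                (CovZ.n1 (5320, 28120) (by decide +kernel)
                 (CovZ.n2 (5320, 28160) (by decide +kernel)
                  (CovZ.n2 (5340, 28140) (by decide +kernel)
                   (CovZ.badM (by decide +kernel))
                   (CovZ.n1 (5340, 28160) (by decide +kernel)
                    (CovZ.n2 (5350, 28150) (by decide +kernel)
                     (CovZ.badM (by decide +kernel))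
                     (CovZ.n1 (5350, 28160) (by decide +kernel)
                      (CovZ.leaf K2_ok TE_l18531 _)
                      (CovZ.badM (by decide +kernel))))
                    (CovZ.badM (by decide +kernel))))
                  (CovZ.badM (by decide +kernel)))
                 (CovZ.n1 (5360, 28120) (by decide +kernel)
                  (CovZ.n2 (5340, 28100) (by decide +kernel)
                   (CovZ.n2 (5340, 28120) (by decide +kernel)
                    (CovZ.n2 (5350, 28110) (by decide +kernel)
                     (CovZ.n2 (5340, 28110) (by decide +kernel)
                      (CovZ.leaf K2_ok TE_l18532 _)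
                      (CovZ.leaf K2_ok TE_l18533 _))
                     (CovZ.n1 (5350, 28120) (by decide +kernel)
                      (CovZ.leaf K2_ok TE_l18534 _)
                      (CovZ.leaf K2_ok TE_l18535 _)))
                    (CovZ.n1 (5330, 28110) (by decide +kernel)
                     (CovZ.n2 (5330, 28120) (by decide +kernel)
                      (CovZ.n2 (5335, 28115) (by decide +kernel)
                       (CovZ.badM (by decide +kernel))
                       (CovZ.n1 (5335, 28120) (by decide +kernel)
                        (CovZ.leaf K2_ok TE_l18536 _)
                        (CovZ.badM (by decide +kernel))))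
                      (CovZ.badM (by decide +kernel)))
                     (CovZ.n1 (5340, 28110) (by decide +kernel)
                      (CovZ.badM (by decide +kernel))
                      (CovZ.leaf K2_ok TE_l18537 _))))
                   (CovZ.n1 (5360, 28100) (by decide +kernel)
                    (CovZ.n2 (5350, 28090) (by decide +kernel)
                     (CovZ.n2 (5350, 28100) (by decide +kernel)
                      (CovZ.leaf K2_ok TE_l18538 _)
                      (CovZ.leaf K2_ok TE_l18539 _))
                     (CovZ.leaf K2_ok TE_l18540 _))
                    (CovZ.n1 (5350, 28110) (by decide +kernel)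
                     (CovZ.leaf K2_ok TE_l18541 _)
                     (CovZ.leaf K2_ok TE_l18542 _))))
                  (CovZ.n1 (5340, 28140) (by decide +kernel)
                   (CovZ.n2 (5360, 28140) (by decide +kernel)
                    (CovZ.n2 (5350, 28130) (by decide +kernel)
                     (CovZ.n2 (5350, 28140) (by decide +kernel)
                      (CovZ.leaf K2_ok TE_l18543 _)
                      (CovZ.leaf K2_ok TE_l18544 _))
                     (CovZ.leaf K2_ok TE_l18545 _))
                    (CovZ.n1 (5350, 28150) (by decide +kernel)
                     (CovZ.leaf K2_ok TE_l18546 _)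
                     (CovZ.n1 (5350, 28140) (by decide +kernel)
                      (CovZ.leaf K2_ok TE_l18547 _)
                      (CovZ.leaf K2_ok TE_l18548 _))))
                   (CovZ.n1 (5340, 28120) (by decide +kernel)
                    (CovZ.n2 (5330, 28130) (by decide +kernel)
                     (CovZ.n2 (5340, 28130) (by decide +kernel)
                      (CovZ.n2 (5335, 28125) (by decide +kernel)
                       (CovZ.badM (by decide +kernel))
                       (CovZ.leaf K2_ok TE_l18549 _))
                      (CovZ.badM (by decide +kernel)))
                     (CovZ.n1 (5330, 28120) (by decide +kernel)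
                      (CovZ.badM (by decide +kernel))
                      (CovZ.n1 (5335, 28125) (by decide +kernel)
                       (CovZ.leaf K2_ok TE_l18550 _)
                       (CovZ.badM (by decide +kernel)))))
                    (CovZ.n1 (5350, 28130) (by decide +kernel)
                     (CovZ.n2 (5350, 28120) (by decide +kernel)
                      (CovZ.leaf K2_ok TE_l18551 _)
                      (CovZ.leaf K2_ok TE_l18552 _))
                     (CovZ.n1 (5340, 28130) (by decide +kernel)
                      (CovZ.leaf K2_ok TE_l18553 _)
                      (CovZ.n1 (5345, 28125) (by decide +kernel)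
                       (CovZ.leaf K2_ok TE_l18554 _)
                       (CovZ.leaf K2_ok TE_l18555 _))))))))))
              (CovZ.n1 (5200, 28080) (by decide +kernel)
               (CovZ.badM (by decide +kernel))
               (CovZ.badM (by decide +kernel)))))

theorem TE_u98 : CovZ TE_M (toL (selN TE_LN 6277101735386681460819479858455723532382005028461967093768)) [0, 7, 6, 1] (5280, 28000) (5440, 27840) (5440, 28160) :=
    (CovZ.n1 (5440, 28000) (by decide +kernel)
             (CovZ.subM 85402979898433343059066718444000415752 (by decide +kernel)
              (CovZ.n2 (5360, 27920) (by decide +kernel)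
               (CovZ.n2 (5360, 28000) (by decide +kernel)
                (CovZ.n2 (5400, 27960) (by decide +kernel)
                 (CovZ.n2 (5360, 27960) (by decide +kernel)
                  (CovZ.n2 (5380, 27980) (by decide +kernel)
                   (CovZ.leaf K2_ok TE_l14056 _)
                   (CovZ.leaf K2_ok TE_l14057 _))
                  (CovZ.n1 (5380, 27940) (by decide +kernel)
                   (CovZ.leaf K2_ok TE_l14058 _)
                   (CovZ.leaf K2_ok TE_l14059 _)))
                 (CovZ.n1 (5400, 28000) (by decide +kernel)
                  (CovZ.leaf K2_ok TE_l14060 _)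
                  (CovZ.n1 (5380, 27980) (by decide +kernel)
                   (CovZ.leaf K2_ok TE_l14061 _)
                   (CovZ.leaf K2_ok TE_l14062 _))))
                (CovZ.n1 (5320, 27960) (by decide +kernel)
                 (CovZ.subM 81129638414606681704589393137672 (by decide +kernel)
                  (CovZ.n2 (5320, 28000) (by decide +kernel)
                   (CovZ.n2 (5340, 27980) (by decide +kernel)
                    (CovZ.n2 (5320, 27980) (by decide +kernel)
                     (CovZ.n2 (5330, 27990) (by decide +kernel)
                      (CovZ.leaf K2_ok TE_l14063 _)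
                      (CovZ.leaf K2_ok TE_l18556 _))
                     (CovZ.n1 (5330, 27970) (by decide +kernel)
                      (CovZ.leaf K2_ok TE_l18557 _)
                      (CovZ.leaf K2_ok TE_l14064 _)))
                    (CovZ.n1 (5340, 28000) (by decide +kernel)
                     (CovZ.leaf K2_ok TE_l14065 _)
                     (CovZ.n1 (5330, 27990) (by decide +kernel)
                      (CovZ.leaf K2_ok TE_l18558 _)
                      (CovZ.leaf K2_ok TE_l14066 _))))
                   (CovZ.n1 (5300, 27980) (by decide +kernel)
                    (CovZ.n2 (5300, 28000) (by decide +kernel)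
                     (CovZ.n2 (5310, 27990) (by decide +kernel)
                      (CovZ.n2 (5300, 27990) (by decide +kernel)
                       (CovZ.n2 (5305, 27995) (by decide +kernel)
                        (CovZ.leaf K2_ok TE_l18559 _)
                        (CovZ.badM (by decide +kernel)))
                       (CovZ.leaf K2_ok TE_l18560 _))
                      (CovZ.n1 (5310, 28000) (by decide +kernel)
                       (CovZ.leaf K2_ok TE_l18561 _)
                       (CovZ.n1 (5305, 27995) (by decide +kernel)
                        (CovZ.badM (by decide +kernel))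
                        (CovZ.leaf K2_ok TE_l18562 _))))
                     (CovZ.badM (by decide +kernel)))
                    (CovZ.n1 (5320, 27980) (by decide +kernel)
                     (CovZ.n2 (5310, 27970) (by decide +kernel)
                      (CovZ.n2 (5310, 27980) (by decide +kernel)
                       (CovZ.leaf K2_ok TE_l18563 _)
                       (CovZ.n1 (5305, 27975) (by decide +kernel)
                        (CovZ.leaf K2_ok TE_l18564 _)
                        (CovZ.leaf K2_ok TE_l18565 _)))
                      (CovZ.leaf K2_ok TE_l18566 _))
                     (CovZ.n1 (5310, 27990) (by decide +kernel)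
                      (CovZ.leaf K2_ok TE_l18567 _)
                      (CovZ.leaf K2_ok TE_l18568 _))))))
                 (CovZ.n1 (5360, 27960) (by decide +kernel)
                  (CovZ.n2 (5340, 27940) (by decide +kernel)
                   (CovZ.n2 (5340, 27960) (by decide +kernel)
                    (CovZ.leaf K2_ok TE_l14067 _)
                    (CovZ.leaf K2_ok TE_l14068 _))
                   (CovZ.leaf K2_ok TE_l14069 _))
                  (CovZ.n1 (5340, 27980) (by decide +kernel)
                   (CovZ.leaf K2_ok TE_l14070 _)
                   (CovZ.n1 (5340, 27960) (by decide +kernel)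
                    (CovZ.leaf K2_ok TE_l14071 _)
                    (CovZ.leaf K2_ok TE_l14072 _))))))
               (CovZ.n1 (5440, 27920) (by decide +kernel)
                (CovZ.n2 (5400, 27880) (by decide +kernel)
                 (CovZ.n2 (5400, 27920) (by decide +kernel)
                  (CovZ.leaf K2_ok TE_l14073 _)
                  (CovZ.n1 (5380, 27900) (by decide +kernel)
                   (CovZ.leaf K2_ok TE_l14074 _)
                   (CovZ.leaf K2_ok TE_l14075 _)))
                 (CovZ.leaf K2_ok TE_l14076 _))
                (CovZ.n1 (5400, 27960) (by decide +kernel)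
                 (CovZ.leaf K2_ok TE_l14077 _)
                 (CovZ.n1 (5400, 27920) (by decide +kernel)
                  (CovZ.leaf K2_ok TE_l14078 _)
                  (CovZ.leaf K2_ok TE_l14079 _))))))
             (CovZ.subM 81169252498224997132413173764104 (by decide +kernel)
              (CovZ.n1 (5360, 28080) (by decide +kernel)
               (CovZ.n2 (5440, 28080) (by decide +kernel)
                (CovZ.n2 (5400, 28040) (by decide +kernel)
                 (CovZ.n2 (5400, 28080) (by decide +kernel)
                  (CovZ.leaf K2_ok TE_l14080 _)
                  (CovZ.n1 (5380, 28060) (by decide +kernel)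
                   (CovZ.n2 (5380, 28080) (by decide +kernel)
                    (CovZ.leaf K2_ok TE_l14081 _)
                    (CovZ.leaf K2_ok TE_l14082 _))
                   (CovZ.leaf K2_ok TE_l14083 _)))
                 (CovZ.n1 (5440, 28040) (by decide +kernel)
                  (CovZ.leaf K2_ok TE_l14084 _)
                  (CovZ.leaf K2_ok TE_l14085 _)))
                (CovZ.n1 (5400, 28120) (by decide +kernel)
                 (CovZ.n2 (5440, 28120) (by decide +kernel)
                  (CovZ.n2 (5420, 28100) (by decide +kernel)
                   (CovZ.leaf K2_ok TE_l14086 _)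
                   (CovZ.leaf K2_ok TE_l14087 _))
                  (CovZ.leaf K2_ok TE_l14088 _))
                 (CovZ.n1 (5400, 28080) (by decide +kernel)
                  (CovZ.n2 (5380, 28100) (by decide +kernel)
                   (CovZ.leaf K2_ok TE_l14089 _)
                   (CovZ.leaf K2_ok TE_l14090 _))
                  (CovZ.n1 (5420, 28100) (by decide +kernel)
                   (CovZ.leaf K2_ok TE_l14091 _)
                   (CovZ.leaf K2_ok TE_l14092 _)))))
               (CovZ.n1 (5360, 28000) (by decide +kernel)
                (CovZ.n2 (5320, 28040) (by decide +kernel)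
                 (CovZ.n2 (5360, 28040) (by decide +kernel)
                  (CovZ.n2 (5340, 28020) (by decide +kernel)
                   (CovZ.subM 8800387989512 (by decide +kernel)
                    (CovZ.n2 (5340, 28040) (by decide +kernel)
                     (CovZ.leaf K2_ok TE_l14093 _)
                     (CovZ.n1 (5330, 28030) (by decide +kernel)
                      (CovZ.n2 (5330, 28040) (by decide +kernel)
                       (CovZ.leaf K2_ok TE_l18569 _)
                       (CovZ.leaf K2_ok TE_l18570 _))
                      (CovZ.leaf K2_ok TE_l18571 _))))
                   (CovZ.n1 (5360, 28020) (by decide +kernel)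
                    (CovZ.leaf K2_ok TE_l14094 _)
                    (CovZ.leaf K2_ok TE_l14095 _)))
                  (CovZ.subM 8800387989512 (by decide +kernel)
                   (CovZ.n1 (5340, 28060) (by decide +kernel)
                    (CovZ.n2 (5360, 28060) (by decide +kernel)
                     (CovZ.n2 (5350, 28050) (by decide +kernel)
                      (CovZ.leaf K2_ok TE_l14096 _)
                      (CovZ.leaf K2_ok TE_l14097 _))
                     (CovZ.leaf K2_ok TE_l14098 _))
                    (CovZ.n1 (5340, 28040) (by decide +kernel)
                     (CovZ.n2 (5330, 28050) (by decide +kernel)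
                      (CovZ.leaf K2_ok TE_l18572 _)
                      (CovZ.leaf K2_ok TE_l18573 _))
                     (CovZ.n1 (5350, 28050) (by decide +kernel)
                      (CovZ.leaf K2_ok TE_l14099 _)
                      (CovZ.leaf K2_ok TE_l18574 _))))))
                 (CovZ.n1 (5320, 28000) (by decide +kernel)
                  (CovZ.subM 8796093022216 (by decide +kernel)
                   (CovZ.n2 (5300, 28020) (by decide +kernel)
                    (CovZ.n2 (5320, 28020) (by decide +kernel)
                     (CovZ.n2 (5310, 28010) (by decide +kernel)
                      (CovZ.n2 (5310, 28020) (by decide +kernel)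
                       (CovZ.n2 (5315, 28015) (by decide +kernel)
                        (CovZ.badM (by decide +kernel))
                        (CovZ.leaf K2_ok TE_l18575 _))
                       (CovZ.badM (by decide +kernel)))
                      (CovZ.leaf K2_ok TE_l18576 _))
                     (CovZ.n1 (5310, 28030) (by decide +kernel)
                      (CovZ.n2 (5320, 28030) (by decide +kernel)
                       (CovZ.n2 (5315, 28025) (by decide +kernel)
                        (CovZ.badM (by decide +kernel))
                        (CovZ.leaf K2_ok TE_l18577 _))
                       (CovZ.badM (by decide +kernel)))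
                      (CovZ.n1 (5310, 28020) (by decide +kernel)
                       (CovZ.badM (by decide +kernel))
                       (CovZ.n1 (5315, 28025) (by decide +kernel)
                        (CovZ.leaf K2_ok TE_l18578 _)
                        (CovZ.badM (by decide +kernel))))))
                    (CovZ.n1 (5300, 28000) (by decide +kernel)
                     (CovZ.badM (by decide +kernel))
                     (CovZ.n1 (5310, 28010) (by decide +kernel)
                      (CovZ.n2 (5310, 28000) (by decide +kernel)
                       (CovZ.badM (by decide +kernel))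
                       (CovZ.leaf K2_ok TE_l18579 _))
                      (CovZ.badM (by decide +kernel))))))
                  (CovZ.n1 (5340, 28020) (by decide +kernel)
                   (CovZ.n2 (5340, 28000) (by decide +kernel)
                    (CovZ.leaf K2_ok TE_l18580 _)
                    (CovZ.leaf K2_ok TE_l14100 _))
                   (CovZ.subM 8796093022216 (by decide +kernel)
                    (CovZ.n1 (5320, 28020) (by decide +kernel)
                     (CovZ.n2 (5330, 28030) (by decide +kernel)
                      (CovZ.leaf K2_ok TE_l18581 _)
                      (CovZ.n1 (5320, 28030) (by decide +kernel)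
                       (CovZ.leaf K2_ok TE_l18582 _)
                       (CovZ.leaf K2_ok TE_l18583 _)))
                     (CovZ.n1 (5330, 28010) (by decide +kernel)
                      (CovZ.leaf K2_ok TE_l18584 _)
                      (CovZ.leaf K2_ok TE_l18585 _)))))))
                (CovZ.n1 (5400, 28040) (by decide +kernel)
                 (CovZ.n2 (5400, 28000) (by decide +kernel)
                  (CovZ.leaf K2_ok TE_l14101 _)
                  (CovZ.n1 (5420, 28020) (by decide +kernel)
                   (CovZ.leaf K2_ok TE_l14102 _)
                   (CovZ.leaf K2_ok TE_l14103 _)))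
                 (CovZ.n1 (5360, 28040) (by decide +kernel)
                  (CovZ.n2 (5380, 28060) (by decide +kernel)
                   (CovZ.leaf K2_ok TE_l14104 _)
                   (CovZ.n1 (5360, 28060) (by decide +kernel)
                    (CovZ.leaf K2_ok TE_l14105 _)
                    (CovZ.leaf K2_ok TE_l14106 _)))
                  (CovZ.n1 (5380, 28020) (by decide +kernel)
                   (CovZ.leaf K2_ok TE_l14107 _)
                   (CovZ.leaf K2_ok TE_l14108 _))))))))

theorem TE_u99 : CovZ TE_M (toL (selN TE_LN 408428465056859911009864797998316375946246254106591449954744)) [0, 7, 6, 1] (5120, 25600) (6400, 26880) (5120, 28160) :=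
    (CovZ.n2 (5120, 26880) (by decide +kernel)
     (CovZ.n2 (5760, 27520) (by decide +kernel)
      (CovZ.n2 (5760, 26880) (by decide +kernel)
       (CovZ.n2 (5440, 27200) (by decide +kernel)
        (CovZ.subM 416850759782608104619027289049693518112391501910899265976 (by decide +kernel)
         (CovZ.n2 (5760, 27200) (by decide +kernel)
          (CovZ.n2 (5600, 27040) (by decide +kernel)
           (CovZ.n2 (5600, 27200) (by decide +kernel)
            (CovZ.leaf K2_ok TE_l13825 _)
            (CovZ.leaf K2_ok TE_l13826 _))
           (CovZ.leaf K2_ok TE_l13827 _))
          (CovZ.n1 (5600, 27360) (by decide +kernel)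
           (CovZ.leaf K2_ok TE_l13828 _)
           (CovZ.n1 (5600, 27200) (by decide +kernel)
            (CovZ.leaf K2_ok TE_l13829 _)
            (CovZ.leaf K2_ok TE_l13830 _)))))
        (CovZ.n1 (5440, 26880) (by decide +kernel)
         (CovZ.leaf K2_ok TE_l13831 _)
         (CovZ.n1 (5600, 27040) (by decide +kernel)
          (CovZ.leaf K2_ok TE_l13832 _)
          (CovZ.leaf K2_ok TE_l13833 _))))
       (CovZ.subM 416850759782608104619027289054645278269532987826123936184 (by decide +kernel)
        (CovZ.n1 (6080, 27200) (by decide +kernel)
         (CovZ.n2 (6080, 26880) (by decide +kernel)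
          (CovZ.leaf K2_ok TE_l13834 _)
          (CovZ.leaf K2_ok TE_l13835 _))
         (CovZ.n1 (5760, 27200) (by decide +kernel)
          (CovZ.n2 (5920, 27360) (by decide +kernel)
           (CovZ.leaf K2_ok TE_l13836 _)
           (CovZ.leaf K2_ok TE_l13837 _))
          (CovZ.leaf K2_ok TE_l13838 _)))))
      (CovZ.n1 (5120, 27520) (by decide +kernel)
       (CovZ.n2 (5440, 27840) (by decide +kernel)
        (CovZ.subM 416850759782608104278744922128755054649021398078758425016 (by decide +kernel)
         (CovZ.n2 (5440, 27520) (by decide +kernel)
          (CovZ.n2 (5280, 27680) (by decide +kernel)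
           (CovZ.n2 (5440, 27680) (by decide +kernel)
            (CovZ.n2 (5360, 27600) (by decide +kernel)
             (CovZ.leaf K2_ok TE_l13839 _)
             (CovZ.leaf K2_ok TE_l13840 _))
            (CovZ.n1 (5360, 27760) (by decide +kernel)
             (CovZ.n2 (5440, 27760) (by decide +kernel)
              (CovZ.n2 (5400, 27720) (by decide +kernel)
               (CovZ.leaf K2_ok TE_l13841 _)
               (CovZ.leaf K2_ok TE_l13842 _))
              (CovZ.leaf K2_ok TE_l13843 _))
             (CovZ.n1 (5360, 27680) (by decide +kernel)
              (CovZ.leaf K2_ok TE_l13844 _)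
              (CovZ.n1 (5400, 27720) (by decide +kernel)
               (CovZ.leaf K2_ok TE_l13845 _)
               (CovZ.leaf K2_ok TE_l13846 _)))))
           (CovZ.n1 (5280, 27520) (by decide +kernel)
            (CovZ.leaf K2_ok TE_l13847 _)
            (CovZ.n1 (5360, 27600) (by decide +kernel)
             (CovZ.leaf K2_ok TE_l13848 _)
             (CovZ.leaf K2_ok TE_l13849 _))))
          (CovZ.n1 (5600, 27680) (by decide +kernel)
           (CovZ.n2 (5600, 27520) (by decide +kernel)
            (CovZ.leaf K2_ok TE_l13850 _)
            (CovZ.n1 (5680, 27600) (by decide +kernel)
             (CovZ.leaf K2_ok TE_l13851 _)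
             (CovZ.leaf K2_ok TE_l13852 _)))
           (CovZ.n1 (5440, 27680) (by decide +kernel)
            (CovZ.n2 (5520, 27760) (by decide +kernel)
             (CovZ.leaf K2_ok TE_l13853 _)
             (CovZ.n1 (5440, 27760) (by decide +kernel)
              (CovZ.n2 (5480, 27800) (by decide +kernel)
               (CovZ.leaf K2_ok TE_l13854 _)
               (CovZ.leaf K2_ok TE_l13855 _))
              (CovZ.leaf K2_ok TE_l13856 _)))
            (CovZ.n1 (5520, 27600) (by decide +kernel)
             (CovZ.n2 (5440, 27600) (by decide +kernel)
              (CovZ.leaf K2_ok TE_l13857 _)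
              (CovZ.leaf K2_ok TE_l13858 _))
             (CovZ.n1 (5520, 27680) (by decide +kernel)
              (CovZ.leaf K2_ok TE_l13859 _)
              (CovZ.leaf K2_ok TE_l13860 _)))))))
        (CovZ.n1 (5120, 27840) (by decide +kernel)
         (CovZ.subM 6669420593848349008559216696138552234314090876088164659384 (by decide +kernel)
          (CovZ.n2 (5280, 28000) (by decide +kernel)
           (CovZ.n2 (5280, 27840) (by decide +kernel)
            TE_u93
            TE_u94)
           (CovZ.n1 (5120, 28000) (by decide +kernel)
            TE_u95
            TE_u96)))
         (CovZ.subM 416850759782608801177032374943077778526562547167392272824 (by decide +kernel)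
          (CovZ.n1 (5280, 27680) (by decide +kernel)
           (CovZ.n2 (5120, 27680) (by decide +kernel)
            (CovZ.n2 (5200, 27760) (by decide +kernel)
             (CovZ.leaf K2_ok TE_l13947 _)
             (CovZ.n1 (5120, 27760) (by decide +kernel)
              (CovZ.n2 (5160, 27800) (by decide +kernel)
               (CovZ.leaf K2_ok TE_l13948 _)
               (CovZ.n1 (5120, 27800) (by decide +kernel)
                (CovZ.leaf K2_ok TE_l13949 _)
                (CovZ.leaf K2_ok TE_l13950 _)))
              (CovZ.leaf K2_ok TE_l13951 _)))
            (CovZ.leaf K2_ok TE_l13952 _))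
           (CovZ.n1 (5280, 27840) (by decide +kernel)
            (CovZ.n2 (5360, 27760) (by decide +kernel)
             (CovZ.n2 (5280, 27760) (by decide +kernel)
              (CovZ.n2 (5320, 27800) (by decide +kernel)
               (CovZ.leaf K2_ok TE_l13953 _)
               (CovZ.leaf K2_ok TE_l13954 _))
              (CovZ.leaf K2_ok TE_l13955 _))
             (CovZ.subM 392318858461667547825139818848912494102501611825296674872 (by decide +kernel)
              (CovZ.n1 (5360, 27840) (by decide +kernel)
               (CovZ.n2 (5400, 27800) (by decide +kernel)
                (CovZ.leaf K2_ok TE_l13956 _)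
                (CovZ.n1 (5400, 27840) (by decide +kernel)
                 (CovZ.leaf K2_ok TE_l13957 _)
                 (CovZ.leaf K2_ok TE_l13958 _)))
               (CovZ.n1 (5320, 27800) (by decide +kernel)
                (CovZ.leaf K2_ok TE_l13959 _)
                (CovZ.leaf K2_ok TE_l13960 _)))))
            (CovZ.n1 (5200, 27760) (by decide +kernel)
             (CovZ.n2 (5200, 27840) (by decide +kernel)
              (CovZ.n2 (5240, 27800) (by decide +kernel)
               (CovZ.leaf K2_ok TE_l13961 _)
               (CovZ.leaf K2_ok TE_l13962 _))
              (CovZ.n1 (5160, 27800) (by decide +kernel)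
               (CovZ.n2 (5160, 27840) (by decide +kernel)
                (CovZ.leaf K2_ok TE_l13963 _)
                (CovZ.leaf K2_ok TE_l13964 _))
               (CovZ.leaf K2_ok TE_l13965 _)))
             (CovZ.n1 (5280, 27760) (by decide +kernel)
              (CovZ.leaf K2_ok TE_l13966 _)
              (CovZ.leaf K2_ok TE_l13967 _))))))))
       (CovZ.n1 (5440, 27200) (by decide +kernel)
        (CovZ.n2 (5120, 27200) (by decide +kernel)
         (CovZ.n2 (5280, 27360) (by decide +kernel)
          (CovZ.leaf K2_ok TE_l13968 _)
          (CovZ.leaf K2_ok TE_l13969 _))
         (CovZ.leaf K2_ok TE_l13970 _))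
        (CovZ.subM 416850759782608104619027289049693518112396005510526636472 (by decide +kernel)
         (CovZ.n1 (5440, 27520) (by decide +kernel)
          (CovZ.n2 (5600, 27360) (by decide +kernel)
           (CovZ.n2 (5440, 27360) (by decide +kernel)
            (CovZ.n2 (5520, 27440) (by decide +kernel)
             (CovZ.leaf K2_ok TE_l13971 _)
             (CovZ.leaf K2_ok TE_l13972 _))
            (CovZ.leaf K2_ok TE_l13973 _))
           (CovZ.n1 (5600, 27520) (by decide +kernel)
            (CovZ.leaf K2_ok TE_l13974 _)
            (CovZ.n1 (5520, 27440) (by decide +kernel)
             (CovZ.leaf K2_ok TE_l13975 _)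
             (CovZ.leaf K2_ok TE_l13976 _))))
          (CovZ.n1 (5280, 27360) (by decide +kernel)
           (CovZ.n2 (5280, 27520) (by decide +kernel)
            (CovZ.leaf K2_ok TE_l13977 _)
            (CovZ.leaf K2_ok TE_l13978 _))
           (CovZ.leaf K2_ok TE_l13979 _)))))))
     (CovZ.n1 (5760, 26240) (by decide +kernel)
      (CovZ.n2 (5120, 26240) (by decide +kernel)
       (CovZ.n2 (5440, 26560) (by decide +kernel)
        (CovZ.leaf K2_ok TE_l13980 _)
        (CovZ.leaf K2_ok TE_l13981 _))
       (CovZ.leaf K2_ok TE_l13982 _))
      (CovZ.n1 (5760, 26880) (by decide +kernel)
       (CovZ.n2 (6080, 26560) (by decide +kernel)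
        (CovZ.n2 (5760, 26560) (by decide +kernel)
         (CovZ.leaf K2_ok TE_l13983 _)
         (CovZ.leaf K2_ok TE_l13984 _))
        (CovZ.n1 (6080, 26880) (by decide +kernel)
         (CovZ.leaf K2_ok TE_l13985 _)
         (CovZ.leaf K2_ok TE_l13986 _)))
       (CovZ.n1 (5440, 26560) (by decide +kernel)
        (CovZ.n2 (5440, 26880) (by decide +kernel)
         (CovZ.leaf K2_ok TE_l13987 _)
         (CovZ.leaf K2_ok TE_l13988 _))
        (CovZ.leaf K2_ok TE_l13989 _)))))

theorem TE_u100 : CovZ TE_M (toL (selN TE_LN 408428465056859911009864797998316375946246254106591449954744)) [0, 7, 6, 1] (6400, 26880) (7680, 28160) (5120, 28160) :=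
    (CovZ.subM 6693952495169289565012821799423345799429724758545821184424 (by decide +kernel)
     (CovZ.n1 (6400, 28160) (by decide +kernel)
      (CovZ.n2 (7040, 27520) (by decide +kernel)
       (CovZ.n2 (6400, 27520) (by decide +kernel)
        (CovZ.n2 (6720, 27840) (by decide +kernel)
         (CovZ.leaf K2_ok TE_l13990 _)
         (CovZ.n1 (6400, 27840) (by decide +kernel)
          (CovZ.leaf K2_ok TE_l13991 _)
          (CovZ.leaf K2_ok TE_l13992 _)))
        (CovZ.n1 (6720, 27200) (by decide +kernel)
         (CovZ.leaf K2_ok TE_l13993 _)
         (CovZ.n1 (6720, 27520) (by decide +kernel)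
          (CovZ.leaf K2_ok TE_l13994 _)
          (CovZ.leaf K2_ok TE_l13995 _))))
       (CovZ.subM 24531901275267236575510151826469333319876178673727737896 (by decide +kernel)
        (CovZ.n1 (7040, 28160) (by decide +kernel)
         (CovZ.leaf K2_ok TE_l13996 _)
         (CovZ.n1 (6720, 27840) (by decide +kernel)
          (CovZ.n2 (6720, 28160) (by decide +kernel)
           (CovZ.leaf K2_ok TE_l13997 _)
           (CovZ.leaf K2_ok TE_l13998 _))
          (CovZ.leaf K2_ok TE_l13999 _)))))
      (CovZ.n1 (5760, 27520) (by decide +kernel)
       (CovZ.n2 (5760, 28160) (by decide +kernel)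
        (CovZ.n2 (6080, 27840) (by decide +kernel)
         (CovZ.n2 (5760, 27840) (by decide +kernel)
          (CovZ.subM 82441854858611520976514081132552 (by decide +kernel)
           (CovZ.n2 (5920, 28000) (by decide +kernel)
            (CovZ.leaf K2_ok TE_l14000 _)
            (CovZ.n1 (5760, 28000) (by decide +kernel)
             (CovZ.n2 (5840, 28080) (by decide +kernel)
              (CovZ.leaf K2_ok TE_l14001 _)
              (CovZ.leaf K2_ok TE_l14002 _))
             (CovZ.leaf K2_ok TE_l14003 _))))
          (CovZ.n1 (5920, 27680) (by decide +kernel)
           (CovZ.n2 (5760, 27680) (by decide +kernel)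
            (CovZ.leaf K2_ok TE_l14004 _)
            (CovZ.leaf K2_ok TE_l14005 _))
           (CovZ.n1 (5920, 27840) (by decide +kernel)
            (CovZ.leaf K2_ok TE_l14006 _)
            (CovZ.leaf K2_ok TE_l14007 _))))
         (CovZ.subM 82441854858611520976514081132552 (by decide +kernel)
          (CovZ.n1 (6080, 28160) (by decide +kernel)
           (CovZ.n2 (6240, 28000) (by decide +kernel)
            (CovZ.leaf K2_ok TE_l14008 _)
            (CovZ.leaf K2_ok TE_l14009 _))
           (CovZ.n1 (5920, 28000) (by decide +kernel)
            (CovZ.n2 (5920, 28160) (by decide +kernel)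
             (CovZ.leaf K2_ok TE_l14010 _)
             (CovZ.n1 (5840, 28080) (by decide +kernel)
              (CovZ.leaf K2_ok TE_l14011 _)
              (CovZ.leaf K2_ok TE_l14012 _)))
            (CovZ.leaf K2_ok TE_l14013 _)))))
        (CovZ.n1 (5440, 27840) (by decide +kernel)
         (CovZ.subM 6277101735386681460819479858455723532382005028461967093768 (by decide +kernel)
          (CovZ.n2 (5440, 28160) (by decide +kernel)
           (CovZ.n2 (5600, 28000) (by decide +kernel)
            (CovZ.n2 (5440, 28000) (by decide +kernel)
             (CovZ.subM 82436903098454379455414484340744 (by decide +kernel)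
              (CovZ.n2 (5520, 28080) (by decide +kernel)
               (CovZ.n2 (5520, 28000) (by decide +kernel)
                (CovZ.leaf K2_ok TE_l14014 _)
                (CovZ.n1 (5560, 28040) (by decide +kernel)
                 (CovZ.leaf K2_ok TE_l14015 _)
                 (CovZ.leaf K2_ok TE_l14016 _)))
               (CovZ.n1 (5440, 28080) (by decide +kernel)
                (CovZ.n2 (5480, 28120) (by decide +kernel)
                 (CovZ.leaf K2_ok TE_l14017 _)
                 (CovZ.n1 (5440, 28120) (by decide +kernel)
                  (CovZ.n2 (5460, 28140) (by decide +kernel)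
                   (CovZ.leaf K2_ok TE_l14018 _)
                   (CovZ.leaf K2_ok TE_l14019 _))
                  (CovZ.leaf K2_ok TE_l14020 _)))
                (CovZ.n1 (5480, 28040) (by decide +kernel)
                 (CovZ.leaf K2_ok TE_l14021 _)
                 (CovZ.n1 (5480, 28080) (by decide +kernel)
                  (CovZ.leaf K2_ok TE_l14022 _)
                  (CovZ.leaf K2_ok TE_l14023 _))))))
             (CovZ.n1 (5520, 27920) (by decide +kernel)
              (CovZ.n2 (5440, 27920) (by decide +kernel)
               (CovZ.n2 (5480, 27960) (by decide +kernel)
                (CovZ.leaf K2_ok TE_l14024 _)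
                (CovZ.leaf K2_ok TE_l14025 _))
               (CovZ.n1 (5480, 27880) (by decide +kernel)
                (CovZ.leaf K2_ok TE_l14026 _)
                (CovZ.leaf K2_ok TE_l14027 _)))
              (CovZ.n1 (5520, 28000) (by decide +kernel)
               (CovZ.leaf K2_ok TE_l14028 _)
               (CovZ.n1 (5480, 27960) (by decide +kernel)
                (CovZ.leaf K2_ok TE_l14029 _)
                (CovZ.leaf K2_ok TE_l14030 _)))))
            (CovZ.subM 82436903098454379455414484340744 (by decide +kernel)
             (CovZ.n1 (5600, 28160) (by decide +kernel)
              (CovZ.n2 (5680, 28080) (by decide +kernel)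
               (CovZ.n2 (5600, 28080) (by decide +kernel)
                (CovZ.leaf K2_ok TE_l14031 _)
                (CovZ.leaf K2_ok TE_l14032 _))
               (CovZ.n1 (5680, 28160) (by decide +kernel)
                (CovZ.leaf K2_ok TE_l14033 _)
                (CovZ.leaf K2_ok TE_l14034 _)))
              (CovZ.n1 (5520, 28080) (by decide +kernel)
               (CovZ.n2 (5520, 28160) (by decide +kernel)
                (CovZ.leaf K2_ok TE_l14035 _)
                (CovZ.n1 (5480, 28120) (by decide +kernel)
                 (CovZ.n2 (5480, 28160) (by decide +kernel)
                  (CovZ.leaf K2_ok TE_l14036 _)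
                  (CovZ.leaf K2_ok TE_l14037 _))
                 (CovZ.leaf K2_ok TE_l14038 _)))
               (CovZ.n1 (5600, 28080) (by decide +kernel)
                (CovZ.n2 (5560, 28040) (by decide +kernel)
                 (CovZ.leaf K2_ok TE_l14039 _)
                 (CovZ.leaf K2_ok TE_l14040 _))
                (CovZ.leaf K2_ok TE_l14041 _))))))
           (CovZ.n1 (5280, 28000) (by decide +kernel)
            TE_u97
            TE_u98)))
         (CovZ.n1 (5760, 27840) (by decide +kernel)
          (CovZ.n2 (5600, 27680) (by decide +kernel)
           (CovZ.subM 392318858461667547825139820116563094331739832832662016296 (by decide +kernel)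
            (CovZ.n2 (5600, 27840) (by decide +kernel)
             (CovZ.n2 (5680, 27760) (by decide +kernel)
              (CovZ.leaf K2_ok TE_l14109 _)
              (CovZ.leaf K2_ok TE_l14110 _))
             (CovZ.n1 (5520, 27760) (by decide +kernel)
              (CovZ.n2 (5520, 27840) (by decide +kernel)
               (CovZ.leaf K2_ok TE_l14111 _)
               (CovZ.n1 (5480, 27800) (by decide +kernel)
                (CovZ.leaf K2_ok TE_l14112 _)
                (CovZ.leaf K2_ok TE_l14113 _)))
              (CovZ.leaf K2_ok TE_l14114 _))))
           (CovZ.n1 (5760, 27680) (by decide +kernel)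
            (CovZ.n2 (5680, 27600) (by decide +kernel)
             (CovZ.leaf K2_ok TE_l14115 _)
             (CovZ.leaf K2_ok TE_l14116 _))
            (CovZ.leaf K2_ok TE_l14117 _)))
          (CovZ.subM 85402981166083943288449059037496512520 (by decide +kernel)
           (CovZ.n1 (5600, 28000) (by decide +kernel)
            (CovZ.n2 (5760, 28000) (by decide +kernel)
             (CovZ.n2 (5680, 27920) (by decide +kernel)
              (CovZ.leaf K2_ok TE_l14118 _)
              (CovZ.leaf K2_ok TE_l14119 _))
             (CovZ.leaf K2_ok TE_l14120 _))
            (CovZ.n1 (5600, 27840) (by decide +kernel)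
             (CovZ.n2 (5520, 27920) (by decide +kernel)
              (CovZ.leaf K2_ok TE_l14121 _)
              (CovZ.n1 (5520, 27840) (by decide +kernel)
               (CovZ.leaf K2_ok TE_l14122 _)
               (CovZ.leaf K2_ok TE_l14123 _)))
             (CovZ.n1 (5680, 27920) (by decide +kernel)
              (CovZ.leaf K2_ok TE_l14124 _)
              (CovZ.leaf K2_ok TE_l14125 _))))))))
       (CovZ.n1 (6400, 27520) (by decide +kernel)
        (CovZ.n2 (6080, 27200) (by decide +kernel)
         (CovZ.n2 (6080, 27520) (by decide +kernel)
          (CovZ.leaf K2_ok TE_l14126 _)
          (CovZ.n1 (5920, 27360) (by decide +kernel)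
           (CovZ.n2 (5920, 27520) (by decide +kernel)
            (CovZ.leaf K2_ok TE_l14127 _)
            (CovZ.leaf K2_ok TE_l14128 _))
           (CovZ.leaf K2_ok TE_l14129 _)))
         (CovZ.leaf K2_ok TE_l14130 _))
        (CovZ.n1 (6080, 27840) (by decide +kernel)
         (CovZ.n2 (6400, 27840) (by decide +kernel)
          (CovZ.n2 (6240, 27680) (by decide +kernel)
           (CovZ.leaf K2_ok TE_l14131 _)
           (CovZ.leaf K2_ok TE_l14132 _))
          (CovZ.leaf K2_ok TE_l14133 _))
         (CovZ.n1 (6080, 27520) (by decide +kernel)
          (CovZ.leaf K2_ok TE_l14134 _)
          (CovZ.n1 (6240, 27680) (by decide +kernel)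
           (CovZ.leaf K2_ok TE_l14135 _)
           (CovZ.leaf K2_ok TE_l14136 _))))))))

theorem TE_u101 : CovZ TE_M (toL (selN TE_LN 11972621413014756705925259588995522927134578361761800)) [0, 7, 6, 1] (12800, 28160) (12160, 27520) (12800, 26880) :=
    (CovZ.subM 11972621413014756705925219974914265794963582566531072 (by decide +kernel)
        (CovZ.n2 (12800, 27520) (by decide +kernel)
         (CovZ.n2 (12480, 27200) (by decide +kernel)
          (CovZ.n2 (12480, 27520) (by decide +kernel)
           (CovZ.n2 (12640, 27360) (by decide +kernel)
            (CovZ.n2 (12480, 27360) (by decide +kernel)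
             (CovZ.n2 (12560, 27440) (by decide +kernel)
              (CovZ.leaf K2_ok TE_l15644 _)
              (CovZ.leaf K2_ok TE_l15645 _))
             (CovZ.n1 (12560, 27280) (by decide +kernel)
              (CovZ.leaf K2_ok TE_l15646 _)
              (CovZ.n1 (12560, 27360) (by decide +kernel)
               (CovZ.leaf K2_ok TE_l15647 _)
               (CovZ.n1 (12520, 27320) (by decide +kernel)
                (CovZ.leaf K2_ok TE_l15648 _)
                (CovZ.leaf K2_ok TE_l15649 _)))))
            (CovZ.n1 (12640, 27520) (by decide +kernel)
             (CovZ.n2 (12720, 27440) (by decide +kernel)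
              (CovZ.leaf K2_ok TE_l15650 _)
              (CovZ.n1 (12720, 27520) (by decide +kernel)
               (CovZ.leaf K2_ok TE_l15651 _)
               (CovZ.leaf K2_ok TE_l15652 _)))
             (CovZ.n1 (12560, 27440) (by decide +kernel)
              (CovZ.leaf K2_ok TE_l15653 _)
              (CovZ.leaf K2_ok TE_l15654 _))))
           (CovZ.n1 (12320, 27360) (by decide +kernel)
            (CovZ.n2 (12320, 27520) (by decide +kernel)
             (CovZ.leaf K2_ok TE_l15655 _)
             (CovZ.leaf K2_ok TE_l15656 _))
            (CovZ.n1 (12480, 27360) (by decide +kernel)
             (CovZ.n2 (12400, 27280) (by decide +kernel)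
              (CovZ.leaf K2_ok TE_l15657 _)
              (CovZ.leaf K2_ok TE_l15658 _))
             (CovZ.leaf K2_ok TE_l15659 _))))
          (CovZ.n1 (12800, 27200) (by decide +kernel)
           (CovZ.n2 (12640, 27040) (by decide +kernel)
            (CovZ.n2 (12640, 27200) (by decide +kernel)
             (CovZ.badM (by decide +kernel))
             (CovZ.n1 (12560, 27120) (by decide +kernel)
              (CovZ.n2 (12560, 27200) (by decide +kernel)
               (CovZ.n2 (12600, 27160) (by decide +kernel)
                (CovZ.leaf K2_ok TE_l15660 _)
                (CovZ.leaf K2_ok TE_l15661 _))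
               (CovZ.n1 (12520, 27160) (by decide +kernel)
                (CovZ.leaf K2_ok TE_l15662 _)
                (CovZ.leaf K2_ok TE_l15663 _)))
              (CovZ.badM (by decide +kernel))))
            (CovZ.badM (by decide +kernel)))
           (CovZ.n1 (12640, 27360) (by decide +kernel)
            (CovZ.n2 (12800, 27360) (by decide +kernel)
             (CovZ.n2 (12720, 27280) (by decide +kernel)
              (CovZ.n2 (12720, 27360) (by decide +kernel)
               (CovZ.n2 (12760, 27320) (by decide +kernel)
                (CovZ.leaf K2_ok TE_l15664 _)
                (CovZ.leaf K2_ok TE_l15665 _))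
               (CovZ.leaf K2_ok TE_l15666 _))
              (CovZ.badM (by decide +kernel)))
             (CovZ.n1 (12720, 27440) (by decide +kernel)
              (CovZ.n2 (12800, 27440) (by decide +kernel)
               (CovZ.leaf K2_ok TE_l15667 _)
               (CovZ.leaf K2_ok TE_l15668 _))
              (CovZ.n1 (12720, 27360) (by decide +kernel)
               (CovZ.leaf K2_ok TE_l15669 _)
               (CovZ.n1 (12760, 27400) (by decide +kernel)
                (CovZ.leaf K2_ok TE_l15670 _)
                (CovZ.leaf K2_ok TE_l15671 _)))))
            (CovZ.n1 (12640, 27200) (by decide +kernel)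
             (CovZ.n2 (12560, 27280) (by decide +kernel)
              (CovZ.n2 (12640, 27280) (by decide +kernel)
               (CovZ.n2 (12600, 27240) (by decide +kernel)
                (CovZ.leaf K2_ok TE_l15672 _)
                (CovZ.leaf K2_ok TE_l15673 _))
               (CovZ.leaf K2_ok TE_l15674 _))
              (CovZ.n1 (12560, 27200) (by decide +kernel)
               (CovZ.leaf K2_ok TE_l15675 _)
               (CovZ.n1 (12600, 27240) (by decide +kernel)
                (CovZ.leaf K2_ok TE_l15676 _)
                (CovZ.leaf K2_ok TE_l15677 _))))
             (CovZ.n1 (12720, 27280) (by decide +kernel)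
              (CovZ.badM (by decide +kernel))
              (CovZ.n1 (12640, 27280) (by decide +kernel)
               (CovZ.n2 (12680, 27320) (by decide +kernel)
                (CovZ.leaf K2_ok TE_l15678 _)
                (CovZ.leaf K2_ok TE_l15679 _))
               (CovZ.n1 (12680, 27240) (by decide +kernel)
                (CovZ.leaf K2_ok TE_l15680 _)
                (CovZ.leaf K2_ok TE_l15681 _))))))))
         (CovZ.n1 (12480, 27840) (by decide +kernel)
          (CovZ.n2 (12800, 27840) (by decide +kernel)
           (CovZ.n2 (12640, 27680) (by decide +kernel)
            (CovZ.n2 (12640, 27840) (by decide +kernel)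
             (CovZ.leaf K2_ok TE_l15682 _)
             (CovZ.leaf K2_ok TE_l15683 _))
            (CovZ.n1 (12800, 27680) (by decide +kernel)
             (CovZ.n2 (12720, 27600) (by decide +kernel)
              (CovZ.leaf K2_ok TE_l15684 _)
              (CovZ.leaf K2_ok TE_l15685 _))
             (CovZ.leaf K2_ok TE_l15686 _)))
           (CovZ.n1 (12640, 28000) (by decide +kernel)
            (CovZ.leaf K2_ok TE_l15687 _)
            (CovZ.n1 (12640, 27840) (by decide +kernel)
             (CovZ.leaf K2_ok TE_l15688 _)
             (CovZ.n1 (12720, 27920) (by decide +kernel)
              (CovZ.leaf K2_ok TE_l15689 _)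
              (CovZ.leaf K2_ok TE_l15690 _)))))
          (CovZ.n1 (12480, 27520) (by decide +kernel)
           (CovZ.n2 (12320, 27680) (by decide +kernel)
            (CovZ.leaf K2_ok TE_l15691 _)
            (CovZ.n1 (12320, 27520) (by decide +kernel)
             (CovZ.leaf K2_ok TE_l15692 _)
             (CovZ.n1 (12400, 27600) (by decide +kernel)
              (CovZ.leaf K2_ok TE_l15693 _)
              (CovZ.leaf K2_ok TE_l15694 _))))
           (CovZ.n1 (12640, 27680) (by decide +kernel)
            (CovZ.n2 (12640, 27520) (by decide +kernel)
             (CovZ.leaf K2_ok TE_l15695 _)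
             (CovZ.n1 (12720, 27600) (by decide +kernel)
              (CovZ.leaf K2_ok TE_l15696 _)
              (CovZ.leaf K2_ok TE_l15697 _)))
            (CovZ.n1 (12480, 27680) (by decide +kernel)
             (CovZ.n2 (12560, 27760) (by decide +kernel)
              (CovZ.leaf K2_ok TE_l15698 _)
              (CovZ.leaf K2_ok TE_l15699 _))
             (CovZ.leaf K2_ok TE_l15700 _)))))))

theorem TE_u102 : CovZ TE_M (toL (selN TE_LN 11972621413014756705925259588995522927134578361761800)) [0, 7, 6, 1] (12160, 27520) (11520, 26880) (12800, 26880) :=
    (CovZ.n1 (12160, 26880) (by decide +kernel)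
        (CovZ.n2 (11840, 27200) (by decide +kernel)
         (CovZ.n2 (12160, 27200) (by decide +kernel)
          (CovZ.n2 (12000, 27040) (by decide +kernel)
           (CovZ.n2 (12000, 27200) (by decide +kernel)
            (CovZ.leaf K2_ok TE_l15701 _)
            (CovZ.leaf K2_ok TE_l15702 _))
           (CovZ.n1 (12160, 27040) (by decide +kernel)
            (CovZ.n2 (12080, 26960) (by decide +kernel)
             (CovZ.leaf K2_ok TE_l15703 _)
             (CovZ.leaf K2_ok TE_l15704 _))
            (CovZ.leaf K2_ok TE_l15705 _)))
          (CovZ.n1 (12000, 27360) (by decide +kernel)
           (CovZ.leaf K2_ok TE_l15706 _)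
           (CovZ.n1 (12000, 27200) (by decide +kernel)
            (CovZ.leaf K2_ok TE_l15707 _)
            (CovZ.n1 (12080, 27280) (by decide +kernel)
             (CovZ.leaf K2_ok TE_l15708 _)
             (CovZ.leaf K2_ok TE_l15709 _)))))
         (CovZ.n1 (11840, 26880) (by decide +kernel)
          (CovZ.n2 (11680, 27040) (by decide +kernel)
           (CovZ.leaf K2_ok TE_l15710 _)
           (CovZ.n1 (11680, 26880) (by decide +kernel)
            (CovZ.leaf K2_ok TE_l15711 _)
            (CovZ.n1 (11760, 26960) (by decide +kernel)
             (CovZ.leaf K2_ok TE_l15712 _)
             (CovZ.leaf K2_ok TE_l15713 _))))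
          (CovZ.n1 (12000, 27040) (by decide +kernel)
           (CovZ.n2 (12000, 26880) (by decide +kernel)
            (CovZ.leaf K2_ok TE_l15714 _)
            (CovZ.n1 (12080, 26960) (by decide +kernel)
             (CovZ.leaf K2_ok TE_l15715 _)
             (CovZ.leaf K2_ok TE_l15716 _)))
           (CovZ.n1 (11840, 27040) (by decide +kernel)
            (CovZ.n2 (11920, 27120) (by decide +kernel)
             (CovZ.leaf K2_ok TE_l15717 _)
             (CovZ.leaf K2_ok TE_l15718 _))
            (CovZ.leaf K2_ok TE_l15719 _)))))
        (CovZ.n1 (12480, 27200) (by decide +kernel)
         (CovZ.n2 (12480, 26880) (by decide +kernel)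
          (CovZ.n2 (12320, 27040) (by decide +kernel)
           (CovZ.subM 11972621413014756705925219974914265794963582566268928 (by decide +kernel)
            (CovZ.n2 (12480, 27040) (by decide +kernel)
             (CovZ.n2 (12400, 26960) (by decide +kernel)
              (CovZ.n2 (12400, 27040) (by decide +kernel)
               (CovZ.n2 (12440, 27000) (by decide +kernel)
                (CovZ.leaf K2_ok TE_l15720 _)
                (CovZ.leaf K2_ok TE_l15721 _))
               (CovZ.leaf K2_ok TE_l15722 _))
              (CovZ.badM (by decide +kernel)))
             (CovZ.n1 (12400, 27120) (by decide +kernel)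
              (CovZ.n2 (12480, 27120) (by decide +kernel)
               (CovZ.n2 (12440, 27080) (by decide +kernel)
                (CovZ.leaf K2_ok TE_l15723 _)
                (CovZ.leaf K2_ok TE_l15724 _))
               (CovZ.leaf K2_ok TE_l15725 _))
              (CovZ.n1 (12400, 27040) (by decide +kernel)
               (CovZ.leaf K2_ok TE_l15726 _)
               (CovZ.n1 (12440, 27080) (by decide +kernel)
                (CovZ.leaf K2_ok TE_l15727 _)
                (CovZ.leaf K2_ok TE_l15728 _))))))
           (CovZ.n1 (12320, 26880) (by decide +kernel)
            (CovZ.n2 (12240, 26960) (by decide +kernel)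
             (CovZ.n2 (12320, 26960) (by decide +kernel)
              (CovZ.leaf K2_ok TE_l15729 _)
              (CovZ.leaf K2_ok TE_l15730 _))
             (CovZ.n1 (12240, 26880) (by decide +kernel)
              (CovZ.leaf K2_ok TE_l15731 _)
              (CovZ.n1 (12280, 26920) (by decide +kernel)
               (CovZ.leaf K2_ok TE_l15732 _)
               (CovZ.leaf K2_ok TE_l15733 _))))
            (CovZ.subM 11972621413014756705925219974914265794963582566268928 (by decide +kernel)
             (CovZ.n1 (12400, 26960) (by decide +kernel)
              (CovZ.badM (by decide +kernel))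
              (CovZ.n1 (12320, 26960) (by decide +kernel)
               (CovZ.n2 (12360, 27000) (by decide +kernel)
                (CovZ.leaf K2_ok TE_l15734 _)
                (CovZ.leaf K2_ok TE_l15735 _))
               (CovZ.n1 (12360, 26920) (by decide +kernel)
                (CovZ.leaf K2_ok TE_l15736 _)
                (CovZ.leaf K2_ok TE_l15737 _)))))))
          (CovZ.subM 11972621413014756705925219974914265794963582566268928 (by decide +kernel)
           (CovZ.n1 (12640, 27040) (by decide +kernel)
            (CovZ.badM (by decide +kernel))
            (CovZ.n1 (12480, 27040) (by decide +kernel)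
             (CovZ.n2 (12560, 27120) (by decide +kernel)
              (CovZ.badM (by decide +kernel))
              (CovZ.n1 (12480, 27120) (by decide +kernel)
               (CovZ.n2 (12520, 27160) (by decide +kernel)
                (CovZ.leaf K2_ok TE_l15738 _)
                (CovZ.leaf K2_ok TE_l15739 _))
               (CovZ.n1 (12520, 27080) (by decide +kernel)
                (CovZ.leaf K2_ok TE_l15740 _)
                (CovZ.leaf K2_ok TE_l15741 _))))
             (CovZ.badM (by decide +kernel))))))
         (CovZ.n1 (12160, 27200) (by decide +kernel)
          (CovZ.n2 (12320, 27360) (by decide +kernel)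
           (CovZ.subM 11972621413014756705925219974914265794965781589524480 (by decide +kernel)
            (CovZ.n2 (12320, 27200) (by decide +kernel)
             (CovZ.leaf K2_ok TE_l15742 _)
             (CovZ.n1 (12400, 27280) (by decide +kernel)
              (CovZ.n2 (12400, 27200) (by decide +kernel)
               (CovZ.leaf K2_ok TE_l15743 _)
               (CovZ.leaf K2_ok TE_l15744 _))
              (CovZ.leaf K2_ok TE_l15745 _))))
           (CovZ.n1 (12160, 27360) (by decide +kernel)
            (CovZ.n2 (12240, 27440) (by decide +kernel)
             (CovZ.leaf K2_ok TE_l15746 _)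
             (CovZ.leaf K2_ok TE_l15747 _))
            (CovZ.leaf K2_ok TE_l15748 _)))
          (CovZ.n1 (12320, 27040) (by decide +kernel)
           (CovZ.n2 (12160, 27040) (by decide +kernel)
            (CovZ.n2 (12240, 27120) (by decide +kernel)
             (CovZ.n2 (12240, 27040) (by decide +kernel)
              (CovZ.leaf K2_ok TE_l15749 _)
              (CovZ.leaf K2_ok TE_l15750 _))
             (CovZ.leaf K2_ok TE_l15751 _))
            (CovZ.n1 (12240, 26960) (by decide +kernel)
             (CovZ.leaf K2_ok TE_l15752 _)
             (CovZ.n1 (12240, 27040) (by decide +kernel)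
              (CovZ.leaf K2_ok TE_l15753 _)
              (CovZ.leaf K2_ok TE_l15754 _))))
           (CovZ.subM 11972621413014756705925219974914265794965781589524480 (by decide +kernel)
            (CovZ.n1 (12320, 27200) (by decide +kernel)
             (CovZ.n2 (12400, 27120) (by decide +kernel)
              (CovZ.leaf K2_ok TE_l15755 _)
              (CovZ.n1 (12400, 27200) (by decide +kernel)
               (CovZ.leaf K2_ok TE_l15756 _)
               (CovZ.leaf K2_ok TE_l15757 _)))
             (CovZ.n1 (12240, 27120) (by decide +kernel)
              (CovZ.leaf K2_ok TE_l15758 _)
              (CovZ.leaf K2_ok TE_l15759 _))))))))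

theorem TE_u103 : CovZ TE_M (toL (selN TE_LN 11972621413014757038232263486984685188095594742415401)) [0, 7, 6, 1] (10240, 25600) (11520, 25600) (11520, 26880) :=
    (CovZ.n2 (10880, 26240) (by decide +kernel)
      (CovZ.n2 (11520, 26240) (by decide +kernel)
       (CovZ.n2 (11200, 25920) (by decide +kernel)
        (CovZ.n2 (11200, 26240) (by decide +kernel)
         (CovZ.n2 (11360, 26080) (by decide +kernel)
          (CovZ.n2 (11200, 26080) (by decide +kernel)
           (CovZ.n2 (11280, 26160) (by decide +kernel)
            (CovZ.leaf K2_ok TE_l15760 _)
            (CovZ.leaf K2_ok TE_l15761 _))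
           (CovZ.n1 (11280, 26000) (by decide +kernel)
            (CovZ.leaf K2_ok TE_l15762 _)
            (CovZ.n1 (11280, 26080) (by decide +kernel)
             (CovZ.leaf K2_ok TE_l15763 _)
             (CovZ.leaf K2_ok TE_l15764 _))))
          (CovZ.n1 (11360, 26240) (by decide +kernel)
           (CovZ.n2 (11440, 26160) (by decide +kernel)
            (CovZ.leaf K2_ok TE_l15765 _)
            (CovZ.n1 (11440, 26240) (by decide +kernel)
             (CovZ.leaf K2_ok TE_l15766 _)
             (CovZ.leaf K2_ok TE_l15767 _)))
           (CovZ.n1 (11280, 26160) (by decide +kernel)
            (CovZ.leaf K2_ok TE_l15768 _)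
            (CovZ.leaf K2_ok TE_l15769 _))))
         (CovZ.n1 (11040, 26080) (by decide +kernel)
          (CovZ.n2 (11040, 26240) (by decide +kernel)
           (CovZ.leaf K2_ok TE_l15770 _)
           (CovZ.leaf K2_ok TE_l15771 _))
          (CovZ.n1 (11200, 26080) (by decide +kernel)
           (CovZ.n2 (11120, 26000) (by decide +kernel)
            (CovZ.leaf K2_ok TE_l15772 _)
            (CovZ.leaf K2_ok TE_l15773 _))
           (CovZ.leaf K2_ok TE_l15774 _))))
        (CovZ.subM 332307043512072780576371247975235616 (by decide +kernel)
         (CovZ.n1 (11520, 25920) (by decide +kernel)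
          (CovZ.n2 (11360, 25760) (by decide +kernel)
           (CovZ.n2 (11360, 25920) (by decide +kernel)
            (CovZ.badM (by decide +kernel))
            (CovZ.n1 (11280, 25840) (by decide +kernel)
             (CovZ.n2 (11280, 25920) (by decide +kernel)
              (CovZ.n2 (11320, 25880) (by decide +kernel)
               (CovZ.leaf K2_ok TE_l15775 _)
               (CovZ.leaf K2_ok TE_l15776 _))
              (CovZ.leaf K2_ok TE_l15777 _))
             (CovZ.badM (by decide +kernel))))
           (CovZ.badM (by decide +kernel)))
          (CovZ.n1 (11360, 26080) (by decide +kernel)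
           (CovZ.n2 (11520, 26080) (by decide +kernel)
            (CovZ.n2 (11440, 26000) (by decide +kernel)
             (CovZ.n2 (11440, 26080) (by decide +kernel)
              (CovZ.n2 (11480, 26040) (by decide +kernel)
               (CovZ.leaf K2_ok TE_l15778 _)
               (CovZ.leaf K2_ok TE_l15779 _))
              (CovZ.leaf K2_ok TE_l15780 _))
             (CovZ.badM (by decide +kernel)))
            (CovZ.n1 (11440, 26160) (by decide +kernel)
             (CovZ.n2 (11520, 26160) (by decide +kernel)
              (CovZ.n2 (11480, 26120) (by decide +kernel)
               (CovZ.leaf K2_ok TE_l15781 _)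
               (CovZ.leaf K2_ok TE_l15782 _))
              (CovZ.leaf K2_ok TE_l15783 _))
             (CovZ.n1 (11440, 26080) (by decide +kernel)
              (CovZ.leaf K2_ok TE_l15784 _)
              (CovZ.n1 (11480, 26120) (by decide +kernel)
               (CovZ.leaf K2_ok TE_l15785 _)
               (CovZ.leaf K2_ok TE_l15786 _)))))
           (CovZ.n1 (11360, 25920) (by decide +kernel)
            (CovZ.n2 (11280, 26000) (by decide +kernel)
             (CovZ.n2 (11360, 26000) (by decide +kernel)
              (CovZ.n2 (11320, 25960) (by decide +kernel)
               (CovZ.leaf K2_ok TE_l15787 _)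
               (CovZ.leaf K2_ok TE_l15788 _))
              (CovZ.leaf K2_ok TE_l15789 _))
             (CovZ.n1 (11280, 25920) (by decide +kernel)
              (CovZ.leaf K2_ok TE_l15790 _)
              (CovZ.n1 (11320, 25960) (by decide +kernel)
               (CovZ.leaf K2_ok TE_l15791 _)
               (CovZ.leaf K2_ok TE_l15792 _))))
            (CovZ.n1 (11440, 26000) (by decide +kernel)
             (CovZ.badM (by decide +kernel))
             (CovZ.n1 (11360, 26000) (by decide +kernel)
              (CovZ.n2 (11400, 26040) (by decide +kernel)
               (CovZ.leaf K2_ok TE_l15793 _)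
               (CovZ.leaf K2_ok TE_l15794 _))
              (CovZ.n1 (11400, 25960) (by decide +kernel)
               (CovZ.leaf K2_ok TE_l15795 _)
               (CovZ.leaf K2_ok TE_l15796 _)))))))))
       (CovZ.n1 (11200, 26560) (by decide +kernel)
        (CovZ.n2 (11520, 26560) (by decide +kernel)
         (CovZ.n2 (11360, 26400) (by decide +kernel)
          (CovZ.n2 (11360, 26560) (by decide +kernel)
           (CovZ.leaf K2_ok TE_l15797 _)
           (CovZ.leaf K2_ok TE_l15798 _))
          (CovZ.n1 (11520, 26400) (by decide +kernel)
           (CovZ.n2 (11440, 26320) (by decide +kernel)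
            (CovZ.leaf K2_ok TE_l15799 _)
            (CovZ.leaf K2_ok TE_l15800 _))
           (CovZ.leaf K2_ok TE_l15801 _)))
         (CovZ.n1 (11360, 26720) (by decide +kernel)
          (CovZ.leaf K2_ok TE_l15802 _)
          (CovZ.n1 (11360, 26560) (by decide +kernel)
           (CovZ.leaf K2_ok TE_l15803 _)
           (CovZ.leaf K2_ok TE_l15804 _))))
        (CovZ.n1 (11200, 26240) (by decide +kernel)
         (CovZ.n2 (11040, 26400) (by decide +kernel)
          (CovZ.leaf K2_ok TE_l15805 _)
          (CovZ.n1 (11040, 26240) (by decide +kernel)
           (CovZ.leaf K2_ok TE_l15806 _)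
           (CovZ.leaf K2_ok TE_l15807 _)))
         (CovZ.n1 (11360, 26400) (by decide +kernel)
          (CovZ.n2 (11360, 26240) (by decide +kernel)
           (CovZ.leaf K2_ok TE_l15808 _)
           (CovZ.n1 (11440, 26320) (by decide +kernel)
            (CovZ.leaf K2_ok TE_l15809 _)
            (CovZ.leaf K2_ok TE_l15810 _)))
          (CovZ.n1 (11200, 26400) (by decide +kernel)
           (CovZ.leaf K2_ok TE_l15811 _)
           (CovZ.leaf K2_ok TE_l15812 _))))))
      (CovZ.n1 (10880, 25600) (by decide +kernel)
       (CovZ.n2 (10560, 25920) (by decide +kernel)
        (CovZ.n2 (10880, 25920) (by decide +kernel)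
         (CovZ.n2 (10720, 25760) (by decide +kernel)
          (CovZ.n2 (10720, 25920) (by decide +kernel)
           (CovZ.leaf K2_ok TE_l15813 _)
           (CovZ.leaf K2_ok TE_l15814 _))
          (CovZ.n1 (10880, 25760) (by decide +kernel)
           (CovZ.n2 (10800, 25680) (by decide +kernel)
            (CovZ.leaf K2_ok TE_l15815 _)
            (CovZ.leaf K2_ok TE_l15816 _))
           (CovZ.leaf K2_ok TE_l15817 _)))
         (CovZ.n1 (10720, 26080) (by decide +kernel)
          (CovZ.leaf K2_ok TE_l15818 _)
          (CovZ.n1 (10720, 25920) (by decide +kernel)
           (CovZ.leaf K2_ok TE_l15819 _)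
           (CovZ.leaf K2_ok TE_l15820 _))))
        (CovZ.n1 (10560, 25600) (by decide +kernel)
         (CovZ.n2 (10400, 25760) (by decide +kernel)
          (CovZ.leaf K2_ok TE_l15821 _)
          (CovZ.n1 (10400, 25600) (by decide +kernel)
           (CovZ.leaf K2_ok TE_l15822 _)
           (CovZ.leaf K2_ok TE_l15823 _)))
         (CovZ.n1 (10720, 25760) (by decide +kernel)
          (CovZ.n2 (10720, 25600) (by decide +kernel)
           (CovZ.leaf K2_ok TE_l15824 _)
           (CovZ.n1 (10800, 25680) (by decide +kernel)
            (CovZ.leaf K2_ok TE_l15825 _)
            (CovZ.leaf K2_ok TE_l15826 _)))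
          (CovZ.n1 (10560, 25760) (by decide +kernel)
           (CovZ.leaf K2_ok TE_l15827 _)
           (CovZ.leaf K2_ok TE_l15828 _)))))
       (CovZ.n1 (11200, 25920) (by decide +kernel)
        (CovZ.subM 332307003897991523444202451203260448 (by decide +kernel)
         (CovZ.n2 (11200, 25600) (by decide +kernel)
          (CovZ.n2 (11040, 25760) (by decide +kernel)
           (CovZ.n2 (11200, 25760) (by decide +kernel)
            (CovZ.n2 (11120, 25680) (by decide +kernel)
             (CovZ.n2 (11120, 25760) (by decide +kernel)
              (CovZ.n2 (11160, 25720) (by decide +kernel)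
               (CovZ.leaf K2_ok TE_l15829 _)
               (CovZ.leaf K2_ok TE_l15830 _))
              (CovZ.n1 (11080, 25720) (by decide +kernel)
               (CovZ.leaf K2_ok TE_l15831 _)
               (CovZ.leaf K2_ok TE_l15832 _)))
             (CovZ.badM (by decide +kernel)))
            (CovZ.n1 (11120, 25840) (by decide +kernel)
             (CovZ.n2 (11200, 25840) (by decide +kernel)
              (CovZ.n2 (11160, 25800) (by decide +kernel)
               (CovZ.leaf K2_ok TE_l15833 _)
               (CovZ.leaf K2_ok TE_l15834 _))
              (CovZ.leaf K2_ok TE_l15835 _))
             (CovZ.n1 (11120, 25760) (by decide +kernel)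
              (CovZ.leaf K2_ok TE_l15836 _)
              (CovZ.n1 (11160, 25800) (by decide +kernel)
               (CovZ.leaf K2_ok TE_l15837 _)
               (CovZ.leaf K2_ok TE_l15838 _)))))
           (CovZ.n1 (11040, 25600) (by decide +kernel)
            (CovZ.n2 (10960, 25680) (by decide +kernel)
             (CovZ.n2 (11040, 25680) (by decide +kernel)
              (CovZ.n2 (11000, 25640) (by decide +kernel)
               (CovZ.leaf K2_ok TE_l15839 _)
               (CovZ.leaf K2_ok TE_l15840 _))
              (CovZ.leaf K2_ok TE_l15841 _))
             (CovZ.n1 (10960, 25600) (by decide +kernel)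
              (CovZ.leaf K2_ok TE_l15842 _)
              (CovZ.n1 (11000, 25640) (by decide +kernel)
               (CovZ.leaf K2_ok TE_l15843 _)
               (CovZ.leaf K2_ok TE_l15844 _))))
            (CovZ.n1 (11120, 25680) (by decide +kernel)
             (CovZ.badM (by decide +kernel))
             (CovZ.n1 (11040, 25680) (by decide +kernel)
              (CovZ.n2 (11080, 25720) (by decide +kernel)
               (CovZ.leaf K2_ok TE_l15845 _)
               (CovZ.leaf K2_ok TE_l15846 _))
              (CovZ.n1 (11080, 25640) (by decide +kernel)
               (CovZ.leaf K2_ok TE_l15847 _)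
               (CovZ.leaf K2_ok TE_l15848 _))))))
          (CovZ.n1 (11360, 25760) (by decide +kernel)
           (CovZ.badM (by decide +kernel))
           (CovZ.n1 (11200, 25760) (by decide +kernel)
            (CovZ.n2 (11280, 25840) (by decide +kernel)
             (CovZ.badM (by decide +kernel))
             (CovZ.n1 (11200, 25840) (by decide +kernel)
              (CovZ.n2 (11240, 25880) (by decide +kernel)
               (CovZ.leaf K2_ok TE_l15849 _)
               (CovZ.leaf K2_ok TE_l15850 _))
              (CovZ.n1 (11240, 25800) (by decide +kernel)
               (CovZ.leaf K2_ok TE_l15851 _)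
               (CovZ.leaf K2_ok TE_l15852 _))))
            (CovZ.badM (by decide +kernel))))))
        (CovZ.n1 (10880, 25920) (by decide +kernel)
         (CovZ.n2 (11040, 26080) (by decide +kernel)
          (CovZ.n2 (11040, 25920) (by decide +kernel)
           (CovZ.leaf K2_ok TE_l15853 _)
           (CovZ.n1 (11120, 26000) (by decide +kernel)
            (CovZ.leaf K2_ok TE_l15854 _)
            (CovZ.leaf K2_ok TE_l15855 _)))
          (CovZ.n1 (10880, 26080) (by decide +kernel)
           (CovZ.leaf K2_ok TE_l15856 _)
           (CovZ.leaf K2_ok TE_l15857 _)))
         (CovZ.n1 (11040, 25760) (by decide +kernel)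
          (CovZ.n2 (10880, 25760) (by decide +kernel)
           (CovZ.n2 (10960, 25840) (by decide +kernel)
            (CovZ.leaf K2_ok TE_l15858 _)
            (CovZ.leaf K2_ok TE_l15859 _))
           (CovZ.n1 (10960, 25680) (by decide +kernel)
            (CovZ.leaf K2_ok TE_l15860 _)
            (CovZ.n1 (10960, 25760) (by decide +kernel)
             (CovZ.leaf K2_ok TE_l15861 _)
             (CovZ.leaf K2_ok TE_l15862 _))))
          (CovZ.n1 (11040, 25920) (by decide +kernel)
           (CovZ.n2 (11120, 25840) (by decide +kernel)
            (CovZ.leaf K2_ok TE_l15863 _)
            (CovZ.n1 (11120, 25920) (by decide +kernel)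
             (CovZ.leaf K2_ok TE_l15864 _)
             (CovZ.leaf K2_ok TE_l15865 _)))
           (CovZ.n1 (10960, 25840) (by decide +kernel)
            (CovZ.leaf K2_ok TE_l15866 _)
            (CovZ.leaf K2_ok TE_l15867 _))))))))

theorem TE_u104 : CovZ TE_M (toL (selN TE_LN 11972621413014757038232263486984685188095594742415401)) [0, 7, 6, 1] (11520, 25600) (12800, 25600) (11520, 26880) :=
    (CovZ.n1 (12160, 26240) (by decide +kernel)
      (CovZ.badM (by decide +kernel))
      (CovZ.n1 (11520, 26240) (by decide +kernel)
       (CovZ.n2 (11840, 26560) (by decide +kernel)
        (CovZ.subM 44565843812350421681928405024 (by decide +kernel)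
         (CovZ.n2 (11840, 26240) (by decide +kernel)
          (CovZ.n2 (11680, 26400) (by decide +kernel)
           (CovZ.n2 (11840, 26400) (by decide +kernel)
            (CovZ.n2 (11760, 26320) (by decide +kernel)
             (CovZ.n2 (11760, 26400) (by decide +kernel)
              (CovZ.n2 (11800, 26360) (by decide +kernel)
               (CovZ.leaf K2_ok TE_l15868 _)
               (CovZ.leaf K2_ok TE_l15869 _))
              (CovZ.leaf K2_ok TE_l15870 _))
             (CovZ.badM (by decide +kernel)))
            (CovZ.n1 (11760, 26480) (by decide +kernel)
             (CovZ.n2 (11840, 26480) (by decide +kernel)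
              (CovZ.n2 (11800, 26440) (by decide +kernel)
               (CovZ.leaf K2_ok TE_l15871 _)
               (CovZ.leaf K2_ok TE_l15872 _))
              (CovZ.leaf K2_ok TE_l15873 _))
             (CovZ.n1 (11760, 26400) (by decide +kernel)
              (CovZ.leaf K2_ok TE_l15874 _)
              (CovZ.n1 (11800, 26440) (by decide +kernel)
               (CovZ.leaf K2_ok TE_l15875 _)
               (CovZ.leaf K2_ok TE_l15876 _)))))
           (CovZ.n1 (11680, 26240) (by decide +kernel)
            (CovZ.n2 (11600, 26320) (by decide +kernel)
             (CovZ.n2 (11680, 26320) (by decide +kernel)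
              (CovZ.n2 (11640, 26280) (by decide +kernel)
               (CovZ.leaf K2_ok TE_l15877 _)
               (CovZ.leaf K2_ok TE_l15878 _))
              (CovZ.leaf K2_ok TE_l15879 _))
             (CovZ.n1 (11600, 26240) (by decide +kernel)
              (CovZ.leaf K2_ok TE_l15880 _)
              (CovZ.n1 (11640, 26280) (by decide +kernel)
               (CovZ.leaf K2_ok TE_l15881 _)
               (CovZ.leaf K2_ok TE_l15882 _))))
            (CovZ.n1 (11760, 26320) (by decide +kernel)
             (CovZ.badM (by decide +kernel))
             (CovZ.n1 (11680, 26320) (by decide +kernel)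
              (CovZ.n2 (11720, 26360) (by decide +kernel)
               (CovZ.leaf K2_ok TE_l15886 _)
               (CovZ.leaf K2_ok TE_l15887 _))
              (CovZ.n1 (11720, 26280) (by decide +kernel)
               (CovZ.leaf K2_ok TE_l15888 _)
               (CovZ.leaf K2_ok TE_l15889 _))))))
          (CovZ.n1 (12000, 26400) (by decide +kernel)
           (CovZ.badM (by decide +kernel))
           (CovZ.n1 (11840, 26400) (by decide +kernel)
            (CovZ.subM 39614083655208900578036940800 (by decide +kernel)
             (CovZ.n2 (11920, 26480) (by decide +kernel)
              (CovZ.badM (by decide +kernel))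
              (CovZ.n1 (11840, 26480) (by decide +kernel)
               (CovZ.n2 (11880, 26520) (by decide +kernel)
                (CovZ.leaf K2_ok TE_l15890 _)
                (CovZ.leaf K2_ok TE_l15891 _))
               (CovZ.n1 (11880, 26440) (by decide +kernel)
                (CovZ.leaf K2_ok TE_l15892 _)
                (CovZ.leaf K2_ok TE_l15893 _)))))
            (CovZ.badM (by decide +kernel))))))
        (CovZ.n1 (11520, 26560) (by decide +kernel)
         (CovZ.n2 (11680, 26720) (by decide +kernel)
          (CovZ.n2 (11680, 26560) (by decide +kernel)
           (CovZ.leaf K2_ok TE_l15894 _)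
           (CovZ.n1 (11760, 26640) (by decide +kernel)
            (CovZ.leaf K2_ok TE_l15895 _)
            (CovZ.leaf K2_ok TE_l15896 _)))
          (CovZ.n1 (11520, 26720) (by decide +kernel)
           (CovZ.leaf K2_ok TE_l15897 _)
           (CovZ.leaf K2_ok TE_l15898 _)))
         (CovZ.n1 (11680, 26400) (by decide +kernel)
          (CovZ.n2 (11520, 26400) (by decide +kernel)
           (CovZ.n2 (11600, 26480) (by decide +kernel)
            (CovZ.n2 (11600, 26400) (by decide +kernel)
             (CovZ.leaf K2_ok TE_l15899 _)
             (CovZ.leaf K2_ok TE_l15900 _))
            (CovZ.leaf K2_ok TE_l15901 _))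
           (CovZ.n1 (11600, 26320) (by decide +kernel)
            (CovZ.leaf K2_ok TE_l15902 _)
            (CovZ.n1 (11600, 26400) (by decide +kernel)
             (CovZ.leaf K2_ok TE_l15903 _)
             (CovZ.leaf K2_ok TE_l15904 _))))
          (CovZ.subM 11972621413014756705924625763695445705921981723967520 (by decide +kernel)
           (CovZ.n1 (11680, 26560) (by decide +kernel)
            (CovZ.n2 (11760, 26480) (by decide +kernel)
             (CovZ.leaf K2_ok TE_l15905 _)
             (CovZ.n1 (11760, 26560) (by decide +kernel)
              (CovZ.leaf K2_ok TE_l15906 _)
              (CovZ.leaf K2_ok TE_l15907 _)))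
            (CovZ.n1 (11600, 26480) (by decide +kernel)
             (CovZ.leaf K2_ok TE_l15908 _)
             (CovZ.leaf K2_ok TE_l15909 _)))))))
       (CovZ.subM 332307043512072780576371247975235616 (by decide +kernel)
        (CovZ.n1 (11840, 25920) (by decide +kernel)
         (CovZ.n2 (11520, 25920) (by decide +kernel)
          (CovZ.n2 (11680, 26080) (by decide +kernel)
           (CovZ.badM (by decide +kernel))
           (CovZ.n1 (11520, 26080) (by decide +kernel)
            (CovZ.n2 (11600, 26160) (by decide +kernel)
             (CovZ.badM (by decide +kernel))
             (CovZ.n1 (11520, 26160) (by decide +kernel)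
              (CovZ.n2 (11560, 26200) (by decide +kernel)
               (CovZ.leaf K2_ok TE_l15910 _)
               (CovZ.leaf K2_ok TE_l15911 _))
              (CovZ.n1 (11560, 26120) (by decide +kernel)
               (CovZ.leaf K2_ok TE_l15912 _)
               (CovZ.leaf K2_ok TE_l15913 _))))
            (CovZ.badM (by decide +kernel))))
          (CovZ.badM (by decide +kernel)))
         (CovZ.n1 (11840, 26240) (by decide +kernel)
          (CovZ.badM (by decide +kernel))
          (CovZ.n1 (11680, 26080) (by decide +kernel)
           (CovZ.n2 (11680, 26240) (by decide +kernel)
            (CovZ.badM (by decide +kernel))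
            (CovZ.n1 (11600, 26160) (by decide +kernel)
             (CovZ.n2 (11600, 26240) (by decide +kernel)
              (CovZ.n2 (11640, 26200) (by decide +kernel)
               (CovZ.leaf K2_ok TE_l15914 _)
               (CovZ.leaf K2_ok TE_l15915 _))
              (CovZ.n1 (11560, 26200) (by decide +kernel)
               (CovZ.leaf K2_ok TE_l15916 _)
               (CovZ.leaf K2_ok TE_l15917 _)))
             (CovZ.badM (by decide +kernel))))
           (CovZ.badM (by decide +kernel))))))))

theorem TE_u105 : CovZ TE_M (toL (selN TE_LN 11972621413014757038232258535224528046574490850951209)) [0, 7, 6, 1] (12800, 25600) (14080, 26880) (12800, 28160) :=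
    (CovZ.n2 (12800, 26880) (by decide +kernel)
     (CovZ.subM 11972621413014756705925219974914265794963582566531072 (by decide +kernel)
      (CovZ.n2 (13440, 27520) (by decide +kernel)
       (CovZ.badM (by decide +kernel))
       (CovZ.n1 (12800, 27520) (by decide +kernel)
        (CovZ.n2 (13120, 27840) (by decide +kernel)
         (CovZ.n2 (13120, 27520) (by decide +kernel)
          (CovZ.n2 (12960, 27680) (by decide +kernel)
           (CovZ.n2 (13120, 27680) (by decide +kernel)
            (CovZ.n2 (13040, 27600) (by decide +kernel)
             (CovZ.n2 (13040, 27680) (by decide +kernel)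
              (CovZ.n2 (13080, 27640) (by decide +kernel)
               (CovZ.leaf K2_ok TE_l16146 _)
               (CovZ.leaf K2_ok TE_l16147 _))
              (CovZ.n1 (13000, 27640) (by decide +kernel)
               (CovZ.leaf K2_ok TE_l16148 _)
               (CovZ.leaf K2_ok TE_l16149 _)))
             (CovZ.n1 (13120, 27600) (by decide +kernel)
              (CovZ.badM (by decide +kernel))
              (CovZ.badM (by decide +kernel))))
            (CovZ.n1 (13040, 27760) (by decide +kernel)
             (CovZ.n2 (13120, 27760) (by decide +kernel)
              (CovZ.n2 (13080, 27720) (by decide +kernel)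
               (CovZ.leaf K2_ok TE_l16150 _)
               (CovZ.leaf K2_ok TE_l16151 _))
              (CovZ.leaf K2_ok TE_l16152 _))
             (CovZ.n1 (13040, 27680) (by decide +kernel)
              (CovZ.leaf K2_ok TE_l16153 _)
              (CovZ.n1 (13080, 27720) (by decide +kernel)
               (CovZ.leaf K2_ok TE_l16154 _)
               (CovZ.leaf K2_ok TE_l16155 _)))))
           (CovZ.n1 (12960, 27520) (by decide +kernel)
            (CovZ.n2 (12880, 27600) (by decide +kernel)
             (CovZ.n2 (12960, 27600) (by decide +kernel)
              (CovZ.n2 (12920, 27560) (by decide +kernel)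
               (CovZ.leaf K2_ok TE_l16156 _)
               (CovZ.leaf K2_ok TE_l16157 _))
              (CovZ.leaf K2_ok TE_l16158 _))
             (CovZ.n1 (12880, 27520) (by decide +kernel)
              (CovZ.leaf K2_ok TE_l16159 _)
              (CovZ.n1 (12920, 27560) (by decide +kernel)
               (CovZ.leaf K2_ok TE_l16160 _)
               (CovZ.leaf K2_ok TE_l16161 _))))
            (CovZ.n1 (13040, 27600) (by decide +kernel)
             (CovZ.badM (by decide +kernel))
             (CovZ.n1 (12960, 27600) (by decide +kernel)
              (CovZ.n2 (13000, 27640) (by decide +kernel)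
               (CovZ.leaf K2_ok TE_l16162 _)
               (CovZ.leaf K2_ok TE_l16163 _))
              (CovZ.n1 (13000, 27560) (by decide +kernel)
               (CovZ.leaf K2_ok TE_l16164 _)
               (CovZ.leaf K2_ok TE_l16165 _))))))
          (CovZ.n1 (13280, 27680) (by decide +kernel)
           (CovZ.badM (by decide +kernel))
           (CovZ.n1 (13120, 27680) (by decide +kernel)
            (CovZ.n2 (13200, 27760) (by decide +kernel)
             (CovZ.badM (by decide +kernel))
             (CovZ.n1 (13120, 27760) (by decide +kernel)
              (CovZ.n2 (13160, 27800) (by decide +kernel)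
               (CovZ.leaf K2_ok TE_l16166 _)
               (CovZ.leaf K2_ok TE_l16167 _))
              (CovZ.n1 (13160, 27720) (by decide +kernel)
               (CovZ.leaf K2_ok TE_l16168 _)
               (CovZ.leaf K2_ok TE_l16169 _))))
            (CovZ.n1 (13200, 27600) (by decide +kernel)
             (CovZ.n2 (13120, 27600) (by decide +kernel)
              (CovZ.badM (by decide +kernel))
              (CovZ.badM (by decide +kernel)))
             (CovZ.badM (by decide +kernel))))))
         (CovZ.n1 (12800, 27840) (by decide +kernel)
          (CovZ.n2 (12960, 28000) (by decide +kernel)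
           (CovZ.n2 (12960, 27840) (by decide +kernel)
            (CovZ.leaf K2_ok TE_l16170 _)
            (CovZ.n1 (13040, 27920) (by decide +kernel)
             (CovZ.n2 (13040, 27840) (by decide +kernel)
              (CovZ.leaf K2_ok TE_l16171 _)
              (CovZ.leaf K2_ok TE_l16172 _))
             (CovZ.leaf K2_ok TE_l16173 _)))
           (CovZ.n1 (12800, 28000) (by decide +kernel)
            (CovZ.n2 (12880, 28080) (by decide +kernel)
             (CovZ.leaf K2_ok TE_l16174 _)
             (CovZ.leaf K2_ok TE_l16175 _))
            (CovZ.leaf K2_ok TE_l16176 _)))
          (CovZ.n1 (12960, 27680) (by decide +kernel)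
           (CovZ.n2 (12800, 27680) (by decide +kernel)
            (CovZ.n2 (12880, 27760) (by decide +kernel)
             (CovZ.n2 (12880, 27680) (by decide +kernel)
              (CovZ.leaf K2_ok TE_l16177 _)
              (CovZ.n1 (12920, 27720) (by decide +kernel)
               (CovZ.leaf K2_ok TE_l16178 _)
               (CovZ.leaf K2_ok TE_l16179 _)))
             (CovZ.leaf K2_ok TE_l16180 _))
            (CovZ.n1 (12880, 27600) (by decide +kernel)
             (CovZ.leaf K2_ok TE_l16181 _)
             (CovZ.n1 (12880, 27680) (by decide +kernel)
              (CovZ.leaf K2_ok TE_l16182 _)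
              (CovZ.leaf K2_ok TE_l16183 _))))
           (CovZ.n1 (12960, 27840) (by decide +kernel)
            (CovZ.n2 (13040, 27760) (by decide +kernel)
             (CovZ.leaf K2_ok TE_l16184 _)
             (CovZ.n1 (13040, 27840) (by decide +kernel)
              (CovZ.leaf K2_ok TE_l16185 _)
              (CovZ.leaf K2_ok TE_l16186 _)))
            (CovZ.n1 (12880, 27760) (by decide +kernel)
             (CovZ.leaf K2_ok TE_l16187 _)
             (CovZ.leaf K2_ok TE_l16188 _))))))
        (CovZ.n1 (13120, 27200) (by decide +kernel)
         (CovZ.n2 (12800, 27200) (by decide +kernel)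
          (CovZ.n2 (12960, 27360) (by decide +kernel)
           (CovZ.badM (by decide +kernel))
           (CovZ.n1 (12800, 27360) (by decide +kernel)
            (CovZ.n2 (12880, 27440) (by decide +kernel)
             (CovZ.badM (by decide +kernel))
             (CovZ.n1 (12800, 27440) (by decide +kernel)
              (CovZ.n2 (12840, 27480) (by decide +kernel)
               (CovZ.leaf K2_ok TE_l16189 _)
               (CovZ.leaf K2_ok TE_l16190 _))
              (CovZ.n1 (12840, 27400) (by decide +kernel)
               (CovZ.leaf K2_ok TE_l16191 _)
               (CovZ.leaf K2_ok TE_l16192 _))))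
            (CovZ.badM (by decide +kernel))))
          (CovZ.badM (by decide +kernel)))
         (CovZ.n1 (13120, 27520) (by decide +kernel)
          (CovZ.badM (by decide +kernel))
          (CovZ.n1 (12960, 27360) (by decide +kernel)
           (CovZ.n2 (12960, 27520) (by decide +kernel)
            (CovZ.badM (by decide +kernel))
            (CovZ.n1 (12880, 27440) (by decide +kernel)
             (CovZ.n2 (12880, 27520) (by decide +kernel)
              (CovZ.n2 (12920, 27480) (by decide +kernel)
               (CovZ.leaf K2_ok TE_l16193 _)
               (CovZ.leaf K2_ok TE_l16194 _))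
              (CovZ.leaf K2_ok TE_l16195 _))
             (CovZ.badM (by decide +kernel))))
           (CovZ.badM (by decide +kernel))))))))
     (CovZ.badM (by decide +kernel)))

theorem TE_u106 : CovZ TE_M (toL (selN TE_LN 11972621413014757038232258535224528046574490850951209)) [0, 7, 6, 1] (14080, 26880) (15360, 28160) (12800, 28160) :=
    (CovZ.subM 11972621413014756705925219974914265794963582566531072 (by decide +kernel)
     (CovZ.n1 (14080, 28160) (by decide +kernel)
      (CovZ.badM (by decide +kernel))
      (CovZ.n1 (13440, 27520) (by decide +kernel)
       (CovZ.n2 (13440, 28160) (by decide +kernel)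
        (CovZ.n2 (13760, 27840) (by decide +kernel)
         (CovZ.n2 (13440, 27840) (by decide +kernel)
          (CovZ.n2 (13600, 28000) (by decide +kernel)
           (CovZ.badM (by decide +kernel))
           (CovZ.n1 (13440, 28000) (by decide +kernel)
            (CovZ.n2 (13520, 28080) (by decide +kernel)
             (CovZ.badM (by decide +kernel))
             (CovZ.n1 (13440, 28080) (by decide +kernel)
              (CovZ.n2 (13480, 28120) (by decide +kernel)
               (CovZ.leaf K2_ok TE_l16196 _)
               (CovZ.leaf K2_ok TE_l16197 _))
              (CovZ.n1 (13480, 28040) (by decide +kernel)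
               (CovZ.leaf K2_ok TE_l16198 _)
               (CovZ.leaf K2_ok TE_l16199 _))))
            (CovZ.badM (by decide +kernel))))
          (CovZ.badM (by decide +kernel)))
         (CovZ.n1 (13760, 28160) (by decide +kernel)
          (CovZ.badM (by decide +kernel))
          (CovZ.n1 (13600, 28000) (by decide +kernel)
           (CovZ.n2 (13600, 28160) (by decide +kernel)
            (CovZ.badM (by decide +kernel))
            (CovZ.n1 (13520, 28080) (by decide +kernel)
             (CovZ.n2 (13520, 28160) (by decide +kernel)
              (CovZ.n2 (13560, 28120) (by decide +kernel)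
               (CovZ.leaf K2_ok TE_l16200 _)
               (CovZ.leaf K2_ok TE_l16201 _))
              (CovZ.n1 (13480, 28120) (by decide +kernel)
               (CovZ.leaf K2_ok TE_l16202 _)
               (CovZ.leaf K2_ok TE_l16203 _)))
             (CovZ.badM (by decide +kernel))))
           (CovZ.badM (by decide +kernel)))))
        (CovZ.n1 (13120, 27840) (by decide +kernel)
         (CovZ.n2 (13120, 28160) (by decide +kernel)
          (CovZ.n2 (13280, 28000) (by decide +kernel)
           (CovZ.n2 (13120, 28000) (by decide +kernel)
            (CovZ.n2 (13200, 28080) (by decide +kernel)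
             (CovZ.n2 (13200, 28000) (by decide +kernel)
              (CovZ.leaf K2_ok TE_l16204 _)
              (CovZ.leaf K2_ok TE_l16205 _))
             (CovZ.leaf K2_ok TE_l16206 _))
            (CovZ.n1 (13200, 27920) (by decide +kernel)
             (CovZ.leaf K2_ok TE_l16207 _)
             (CovZ.n1 (13200, 28000) (by decide +kernel)
              (CovZ.leaf K2_ok TE_l16208 _)
              (CovZ.leaf K2_ok TE_l16209 _))))
           (CovZ.n1 (13280, 28160) (by decide +kernel)
            (CovZ.n2 (13360, 28080) (by decide +kernel)
             (CovZ.leaf K2_ok TE_l16210 _)
             (CovZ.n1 (13360, 28160) (by decide +kernel)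
              (CovZ.leaf K2_ok TE_l16211 _)
              (CovZ.leaf K2_ok TE_l16212 _)))
            (CovZ.n1 (13200, 28080) (by decide +kernel)
             (CovZ.leaf K2_ok TE_l16213 _)
             (CovZ.leaf K2_ok TE_l16214 _))))
          (CovZ.n1 (12960, 28000) (by decide +kernel)
           (CovZ.n2 (12960, 28160) (by decide +kernel)
            (CovZ.leaf K2_ok TE_l16215 _)
            (CovZ.leaf K2_ok TE_l16216 _))
           (CovZ.n1 (13120, 28000) (by decide +kernel)
            (CovZ.n2 (13040, 27920) (by decide +kernel)
             (CovZ.leaf K2_ok TE_l16217 _)
             (CovZ.leaf K2_ok TE_l16218 _))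
            (CovZ.leaf K2_ok TE_l16219 _))))
         (CovZ.n1 (13440, 27840) (by decide +kernel)
          (CovZ.n2 (13280, 27680) (by decide +kernel)
           (CovZ.n2 (13280, 27840) (by decide +kernel)
            (CovZ.badM (by decide +kernel))
            (CovZ.n1 (13200, 27760) (by decide +kernel)
             (CovZ.n2 (13200, 27840) (by decide +kernel)
              (CovZ.n2 (13240, 27800) (by decide +kernel)
               (CovZ.leaf K2_ok TE_l16220 _)
               (CovZ.leaf K2_ok TE_l16221 _))
              (CovZ.leaf K2_ok TE_l16222 _))
             (CovZ.badM (by decide +kernel))))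
           (CovZ.badM (by decide +kernel)))
          (CovZ.n1 (13280, 28000) (by decide +kernel)
           (CovZ.n2 (13440, 28000) (by decide +kernel)
            (CovZ.n2 (13360, 27920) (by decide +kernel)
             (CovZ.n2 (13360, 28000) (by decide +kernel)
              (CovZ.n2 (13400, 27960) (by decide +kernel)
               (CovZ.leaf K2_ok TE_l16223 _)
               (CovZ.leaf K2_ok TE_l16224 _))
              (CovZ.leaf K2_ok TE_l16225 _))
             (CovZ.badM (by decide +kernel)))
            (CovZ.n1 (13360, 28080) (by decide +kernel)
             (CovZ.n2 (13440, 28080) (by decide +kernel)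
              (CovZ.leaf K2_ok TE_l16226 _)
              (CovZ.leaf K2_ok TE_l16227 _))
             (CovZ.n1 (13360, 28000) (by decide +kernel)
              (CovZ.leaf K2_ok TE_l16228 _)
              (CovZ.n1 (13400, 28040) (by decide +kernel)
               (CovZ.leaf K2_ok TE_l16229 _)
               (CovZ.leaf K2_ok TE_l16230 _)))))
           (CovZ.n1 (13280, 27840) (by decide +kernel)
            (CovZ.n2 (13200, 27920) (by decide +kernel)
             (CovZ.n2 (13280, 27920) (by decide +kernel)
              (CovZ.leaf K2_ok TE_l16231 _)
              (CovZ.leaf K2_ok TE_l16232 _))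
             (CovZ.n1 (13200, 27840) (by decide +kernel)
              (CovZ.leaf K2_ok TE_l16233 _)
              (CovZ.n1 (13240, 27880) (by decide +kernel)
               (CovZ.leaf K2_ok TE_l16234 _)
               (CovZ.leaf K2_ok TE_l16235 _))))
            (CovZ.n1 (13360, 27920) (by decide +kernel)
             (CovZ.badM (by decide +kernel))
             (CovZ.n1 (13280, 27920) (by decide +kernel)
              (CovZ.n2 (13320, 27960) (by decide +kernel)
               (CovZ.leaf K2_ok TE_l16236 _)
               (CovZ.leaf K2_ok TE_l16237 _))
              (CovZ.n1 (13320, 27880) (by decide +kernel)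
               (CovZ.leaf K2_ok TE_l16238 _)
               (CovZ.leaf K2_ok TE_l16239 _)))))))))
       (CovZ.badM (by decide +kernel)))))

end Pool.Agent.TET
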