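import Pool.Agent.Helper38_TET.TE_M
import Pool.Agent.Helper38_TET.TE_L
import Pool.Agent.Helper38_TET.TE_3
import Pool.Agent.Helper38_TET.TE_4
import Pool.Agent.Helper38_TET.TE_18
import Pool.Agent.Helper38_TET.TE_19
import Pool.Agent.Helper38_TET.TE_21
import Pool.Agent.Helper38_TET.TE_26
import Pool.Agent.Helper38_TET.TE_49
import Pool.Agent.Helper38_TET.TE_50
import Pool.Agent.Helper38_TET.TE_89
import Pool.Agent.Helper38_TET.TE_91
import Pool.Agent.Helper38_TET.TE_92
import Pool.Agent.Helper38_TET.TE_101
import Pool.Agent.Helper38_TET.TE_102
import Pool.Agent.Helper38_TET.TE_115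
import Pool.Agent.Helper38_TET.TE_116
import Pool.Agent.Helper38_TET.TE_129
import Pool.Agent.Helper38_TET.TE_U1
import Pool.Agent.Helper38_TET.TE_U2
import Pool.Agent.Helper38_TET.TE_U3
import Pool.Agent.Helper38_TET.TE_U4
import Pool.Agent.Helper38_TET.TE_U5
import Pool.Agent.Helper38_TET.TE_U6

/-!
# MP_c7c9bf_co: certificates, family TE
-/

set_option autoImplicit false
set_option maxRecDepth 100000

namespace Pool.Agent.TET

theorem TE_s6_3 : SqZ TE_M TE_L [0, 7, 6, 1] (-10240) 12800 2560 6 3 :=
  SqZ.mk (a := 5120) (b := 7680) (c := 20480) (d := 23040) (by norm_num) (by norm_num) (by norm_num) (by norm_num)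
    (CovZ.topM TE_LL 416840289539206557559574717529942752584657132754254741921 (by decide +kernel) (CovZ.n2 (6400, 21760) (by decide +kernel)
    (CovZ.n2 (7680, 21760) (by decide +kernel)
     (CovZ.subM 1496577676670401063514724941221005533436974655898016 (by decide +kernel)
      (CovZ.n2 (7040, 21120) (by decide +kernel)
       (CovZ.n2 (7040, 21760) (by decide +kernel)
        (CovZ.n2 (7360, 21440) (by decide +kernel)
         (CovZ.subM 332307003898595986354009765958385824 (by decide +kernel)
          (CovZ.n2 (7040, 21440) (by decide +kernel)
           (CovZ.n2 (7200, 21600) (by decide +kernel)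
            (CovZ.badM (by decide +kernel))
            (CovZ.n1 (7040, 21600) (by decide +kernel)
             (CovZ.n2 (7120, 21680) (by decide +kernel)
              (CovZ.badM (by decide +kernel))
              (CovZ.n1 (7040, 21680) (by decide +kernel)
               (CovZ.n2 (7080, 21720) (by decide +kernel)
                (CovZ.leaf K2_ok TE_l13369 _)
                (CovZ.leaf K2_ok TE_l13370 _))
               (CovZ.n1 (7080, 21640) (by decide +kernel)
                (CovZ.leaf K2_ok TE_l13371 _)
                (CovZ.leaf K2_ok TE_l13372 _))))
             (CovZ.badM (by decide +kernel))))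
           (CovZ.badM (by decide +kernel))))
         (CovZ.n1 (7360, 21760) (by decide +kernel)
          (CovZ.n2 (7520, 21600) (by decide +kernel)
           (CovZ.badM (by decide +kernel))
           (CovZ.n1 (7520, 21760) (by decide +kernel)
            (CovZ.badM (by decide +kernel))
            (CovZ.badM (by decide +kernel))))
          (CovZ.subM 332307003898595986354009765958385824 (by decide +kernel)
           (CovZ.n1 (7200, 21600) (by decide +kernel)
            (CovZ.n2 (7200, 21760) (by decide +kernel)
             (CovZ.badM (by decide +kernel))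
             (CovZ.n1 (7120, 21680) (by decide +kernel)
              (CovZ.n2 (7120, 21760) (by decide +kernel)
               (CovZ.n2 (7160, 21720) (by decide +kernel)
                (CovZ.leaf K2_ok TE_l13373 _)
                (CovZ.leaf K2_ok TE_l13374 _))
               (CovZ.n1 (7080, 21720) (by decide +kernel)
                (CovZ.leaf K2_ok TE_l13375 _)
                (CovZ.leaf K2_ok TE_l13376 _)))
              (CovZ.badM (by decide +kernel))))
            (CovZ.badM (by decide +kernel))))))
        (CovZ.n1 (6720, 21440) (by decide +kernel)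
         (CovZ.n2 (6720, 21760) (by decide +kernel)
          (CovZ.n2 (6880, 21600) (by decide +kernel)
           (CovZ.n2 (6720, 21600) (by decide +kernel)
            (CovZ.n2 (6800, 21680) (by decide +kernel)
             (CovZ.leaf K2_ok TE_l13379 _)
             (CovZ.leaf K2_ok TE_l13380 _))
            (CovZ.subM 332307003898595986354009765958385824 (by decide +kernel)
             (CovZ.n1 (6800, 21520) (by decide +kernel)
              (CovZ.n2 (6720, 21520) (by decide +kernel)
               (CovZ.leaf K2_ok TE_l13381 _)
               (CovZ.leaf K2_ok TE_l13382 _))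
              (CovZ.n1 (6800, 21600) (by decide +kernel)
               (CovZ.leaf K2_ok TE_l13383 _)
               (CovZ.leaf K2_ok TE_l13384 _)))))
           (CovZ.n1 (6880, 21760) (by decide +kernel)
            (CovZ.subM 332307003898595986354009765958385824 (by decide +kernel)
             (CovZ.n2 (6960, 21680) (by decide +kernel)
              (CovZ.n2 (6880, 21680) (by decide +kernel)
               (CovZ.leaf K2_ok TE_l13385 _)
               (CovZ.leaf K2_ok TE_l13386 _))
              (CovZ.n1 (6960, 21760) (by decide +kernel)
               (CovZ.leaf K2_ok TE_l13387 _)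
               (CovZ.leaf K2_ok TE_l13388 _))))
            (CovZ.n1 (6800, 21680) (by decide +kernel)
             (CovZ.leaf K2_ok TE_l13389 _)
             (CovZ.leaf K2_ok TE_l13390 _))))
          (CovZ.n1 (6560, 21600) (by decide +kernel)
           (CovZ.n2 (6560, 21760) (by decide +kernel)
            (CovZ.leaf K2_ok TE_l13391 _)
            (CovZ.leaf K2_ok TE_l13392 _))
           (CovZ.n1 (6720, 21600) (by decide +kernel)
            (CovZ.n2 (6640, 21520) (by decide +kernel)
             (CovZ.leaf K2_ok TE_l13393 _)
             (CovZ.leaf K2_ok TE_l13394 _))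
            (CovZ.leaf K2_ok TE_l13395 _))))
         (CovZ.subM 332307003898595986354009765958385824 (by decide +kernel)
          (CovZ.n1 (7040, 21440) (by decide +kernel)
           (CovZ.n2 (6880, 21280) (by decide +kernel)
            (CovZ.n2 (6880, 21440) (by decide +kernel)
             (CovZ.badM (by decide +kernel))
             (CovZ.n1 (6800, 21360) (by decide +kernel)
              (CovZ.n2 (6800, 21440) (by decide +kernel)
               (CovZ.n2 (6840, 21400) (by decide +kernel)
                (CovZ.leaf K2_ok TE_l13396 _)
                (CovZ.leaf K2_ok TE_l13397 _))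
               (CovZ.leaf K2_ok TE_l13398 _))
              (CovZ.badM (by decide +kernel))))
            (CovZ.badM (by decide +kernel)))
           (CovZ.n1 (6880, 21600) (by decide +kernel)
            (CovZ.n2 (7040, 21600) (by decide +kernel)
             (CovZ.n2 (6960, 21520) (by decide +kernel)
              (CovZ.n2 (6960, 21600) (by decide +kernel)
               (CovZ.n2 (7000, 21560) (by decide +kernel)
                (CovZ.leaf K2_ok TE_l13400 _)
                (CovZ.leaf K2_ok TE_l13401 _))
               (CovZ.n1 (6920, 21560) (by decide +kernel)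
                (CovZ.leaf K2_ok TE_l13402 _)
                (CovZ.leaf K2_ok TE_l13403 _)))
              (CovZ.badM (by decide +kernel)))
             (CovZ.n1 (6960, 21680) (by decide +kernel)
              (CovZ.n2 (7040, 21680) (by decide +kernel)
               (CovZ.n2 (7000, 21640) (by decide +kernel)
                (CovZ.leaf K2_ok TE_l13405 _)
                (CovZ.leaf K2_ok TE_l13406 _))
               (CovZ.leaf K2_ok TE_l13407 _))
              (CovZ.n1 (6960, 21600) (by decide +kernel)
               (CovZ.leaf K2_ok TE_l13408 _)
               (CovZ.n1 (7000, 21640) (by decide +kernel)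
                (CovZ.leaf K2_ok TE_l13409 _)
                (CovZ.leaf K2_ok TE_l13410 _)))))
            (CovZ.n1 (6880, 21440) (by decide +kernel)
             (CovZ.n2 (6800, 21520) (by decide +kernel)
              (CovZ.n2 (6880, 21520) (by decide +kernel)
               (CovZ.leaf K2_ok TE_l13411 _)
               (CovZ.leaf K2_ok TE_l13412 _))
              (CovZ.n1 (6800, 21440) (by decide +kernel)
               (CovZ.leaf K2_ok TE_l13413 _)
               (CovZ.leaf K2_ok TE_l13414 _)))
             (CovZ.n1 (6960, 21520) (by decide +kernel)
              (CovZ.badM (by decide +kernel))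
              (CovZ.n1 (6880, 21520) (by decide +kernel)
               (CovZ.leaf K2_ok TE_l13416 _)
               (CovZ.n1 (6920, 21480) (by decide +kernel)
                (CovZ.leaf K2_ok TE_l13417 _)
                (CovZ.leaf K2_ok TE_l13418 _))))))))))
       (CovZ.subM 33024 (by decide +kernel)
        (CovZ.n1 (7680, 21120) (by decide +kernel)
         (CovZ.badM (by decide +kernel))
         (CovZ.n1 (7360, 21440) (by decide +kernel)
          (CovZ.n2 (7680, 21440) (by decide +kernel)
           (CovZ.badM (by decide +kernel))
           (CovZ.n1 (7520, 21600) (by decide +kernel)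
            (CovZ.badM (by decide +kernel))
            (CovZ.badM (by decide +kernel))))
          (CovZ.badM (by decide +kernel)))))))
     (CovZ.n1 (7040, 22400) (by decide +kernel)
      TE_u18
      TE_u19))
    (CovZ.subM 1496577676670401063514724941221005533436974660075680 (by decide +kernel)
     (CovZ.n1 (6400, 20480) (by decide +kernel)
      TE_u20
      TE_u21))))
    (CovZ.topM TE_LL 416852262525994981649006452796651987160924806172121547169 (by decide +kernel) (CovZ.n0 (6400, 21760) (by decide +kernel)
    (CovZ.subM 1496577676670401063595854579635612233261511250034849 (by decide +kernel)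
     (CovZ.n2 (5120, 21760) (by decide +kernel)
      (CovZ.n2 (5760, 22400) (by decide +kernel)
       (CovZ.n2 (5760, 21760) (by decide +kernel)
        (CovZ.n2 (5440, 22080) (by decide +kernel)
         (CovZ.leaf K2_ok TE_l13678 _)
         (CovZ.leaf K2_ok TE_l13679 _))
        (CovZ.n1 (6080, 22080) (by decide +kernel)
         (CovZ.n2 (6080, 21760) (by decide +kernel)
          (CovZ.leaf K2_ok TE_l13680 _)
          (CovZ.n1 (6240, 21920) (by decide +kernel)
           (CovZ.leaf K2_ok TE_l13681 _)
           (CovZ.leaf K2_ok TE_l13682 _)))
         (CovZ.n1 (5760, 22080) (by decide +kernel)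
          (CovZ.leaf K2_ok TE_l13683 _)
          (CovZ.leaf K2_ok TE_l13684 _))))
       (CovZ.n1 (5120, 22400) (by decide +kernel)
        (CovZ.n2 (5440, 22720) (by decide +kernel)
         (CovZ.leaf K2_ok TE_l13685 _)
         (CovZ.leaf K2_ok TE_l13686 _))
        (CovZ.n1 (5440, 22080) (by decide +kernel)
         (CovZ.leaf K2_ok TE_l13687 _)
         (CovZ.leaf K2_ok TE_l13688 _))))
      (CovZ.n1 (5760, 21120) (by decide +kernel)
       (CovZ.n2 (5120, 21120) (by decide +kernel)
        (CovZ.n2 (5440, 21440) (by decide +kernel)
         (CovZ.n2 (5440, 21120) (by decide +kernel)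
          (CovZ.leaf K2_ok TE_l13689 _)
          (CovZ.n1 (5600, 21280) (by decide +kernel)
           (CovZ.leaf K2_ok TE_l13690 _)
           (CovZ.leaf K2_ok TE_l13691 _)))
         (CovZ.n1 (5120, 21440) (by decide +kernel)
          (CovZ.leaf K2_ok TE_l13692 _)
          (CovZ.leaf K2_ok TE_l13693 _)))
        (CovZ.n1 (5440, 20800) (by decide +kernel)
         (CovZ.subM 332308266597436025736548786255184033 (by decide +kernel)
          (CovZ.n2 (5120, 20800) (by decide +kernel)
           (CovZ.n2 (5280, 20960) (by decide +kernel)
            (CovZ.leaf K2_ok TE_l13694 _)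
            (CovZ.leaf K2_ok TE_l13695 _))
           (CovZ.n1 (5280, 20640) (by decide +kernel)
            (CovZ.leaf K2_ok TE_l13696 _)
            (CovZ.leaf K2_ok TE_l13697 _))))
         (CovZ.n1 (5440, 21120) (by decide +kernel)
          (CovZ.n2 (5600, 20960) (by decide +kernel)
           (CovZ.leaf K2_ok TE_l13698 _)
           (CovZ.leaf K2_ok TE_l13699 _))
          (CovZ.n1 (5280, 20960) (by decide +kernel)
           (CovZ.leaf K2_ok TE_l13700 _)
           (CovZ.leaf K2_ok TE_l13701 _)))))
       (CovZ.n1 (5760, 21760) (by decide +kernel)
        (CovZ.n2 (6080, 21440) (by decide +kernel)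
         (CovZ.n2 (5760, 21440) (by decide +kernel)
          (CovZ.n2 (5920, 21600) (by decide +kernel)
           (CovZ.leaf K2_ok TE_l13702 _)
           (CovZ.leaf K2_ok TE_l13703 _))
          (CovZ.n1 (5920, 21280) (by decide +kernel)
           (CovZ.leaf K2_ok TE_l13704 _)
           (CovZ.leaf K2_ok TE_l13705 _)))
         (CovZ.n1 (6080, 21760) (by decide +kernel)
          (CovZ.n2 (6240, 21600) (by decide +kernel)
           (CovZ.leaf K2_ok TE_l13706 _)
           (CovZ.leaf K2_ok TE_l13707 _))
          (CovZ.n1 (5920, 21600) (by decide +kernel)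
           (CovZ.leaf K2_ok TE_l13708 _)
           (CovZ.leaf K2_ok TE_l13709 _))))
        (CovZ.n1 (5440, 21440) (by decide +kernel)
         (CovZ.leaf K2_ok TE_l13710 _)
         (CovZ.n1 (5760, 21440) (by decide +kernel)
          (CovZ.n2 (5600, 21280) (by decide +kernel)
           (CovZ.leaf K2_ok TE_l13711 _)
           (CovZ.leaf K2_ok TE_l13712 _))
          (CovZ.leaf K2_ok TE_l13713 _)))))))
    (CovZ.n1 (6400, 23040) (by decide +kernel)
     (CovZ.n2 (7040, 22400) (by decide +kernel)
      (CovZ.subM 1496577676670401063514724941221007893393548142477729 (by decide +kernel)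
       (CovZ.n2 (6400, 22400) (by decide +kernel)
        (CovZ.n2 (6720, 22720) (by decide +kernel)
         (CovZ.n2 (6720, 22400) (by decide +kernel)
          (CovZ.leaf K2_ok TE_l13714 _)
          (CovZ.n1 (6880, 22560) (by decide +kernel)
           (CovZ.leaf K2_ok TE_l13715 _)
           (CovZ.leaf K2_ok TE_l13716 _)))
         (CovZ.n1 (6400, 22720) (by decide +kernel)
          (CovZ.leaf K2_ok TE_l13717 _)
          (CovZ.leaf K2_ok TE_l13718 _)))
        (CovZ.n1 (6720, 22080) (by decide +kernel)
         (CovZ.n2 (6400, 22080) (by decide +kernel)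
          (CovZ.n2 (6560, 22240) (by decide +kernel)
           (CovZ.leaf K2_ok TE_l13719 _)
           (CovZ.leaf K2_ok TE_l13720 _))
          (CovZ.n1 (6560, 21920) (by decide +kernel)
           (CovZ.leaf K2_ok TE_l13721 _)
           (CovZ.leaf K2_ok TE_l13722 _)))
         (CovZ.n1 (6720, 22400) (by decide +kernel)
          (CovZ.n2 (6880, 22240) (by decide +kernel)
           (CovZ.leaf K2_ok TE_l13723 _)
           (CovZ.leaf K2_ok TE_l13724 _))
          (CovZ.n1 (6560, 22240) (by decide +kernel)
           (CovZ.leaf K2_ok TE_l13725 _)
           (CovZ.leaf K2_ok TE_l13726 _))))))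
      (CovZ.n1 (7040, 23040) (by decide +kernel)
       (CovZ.n2 (7360, 22720) (by decide +kernel)
        (CovZ.n2 (7040, 22720) (by decide +kernel)
         (CovZ.n2 (7200, 22880) (by decide +kernel)
          (CovZ.leaf K2_ok TE_l13727 _)
          (CovZ.leaf K2_ok TE_l13728 _))
         (CovZ.n1 (7200, 22560) (by decide +kernel)
          (CovZ.leaf K2_ok TE_l13729 _)
          (CovZ.leaf K2_ok TE_l13730 _)))
        (CovZ.n1 (7360, 23040) (by decide +kernel)
         (CovZ.n2 (7520, 22880) (by decide +kernel)
          (CovZ.leaf K2_ok TE_l13731 _)
          (CovZ.leaf K2_ok TE_l13732 _))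
         (CovZ.n1 (7200, 22880) (by decide +kernel)
          (CovZ.leaf K2_ok TE_l13733 _)
          (CovZ.leaf K2_ok TE_l13734 _))))
       (CovZ.n1 (6720, 22720) (by decide +kernel)
        (CovZ.n2 (6720, 23040) (by decide +kernel)
         (CovZ.leaf K2_ok TE_l13735 _)
         (CovZ.leaf K2_ok TE_l13736 _))
        (CovZ.n1 (7040, 22720) (by decide +kernel)
         (CovZ.n2 (6880, 22560) (by decide +kernel)
          (CovZ.leaf K2_ok TE_l13737 _)
          (CovZ.leaf K2_ok TE_l13738 _))
         (CovZ.leaf K2_ok TE_l13739 _)))))
     (CovZ.n1 (5760, 22400) (by decide +kernel)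
      (CovZ.n2 (5760, 23040) (by decide +kernel)
       (CovZ.n2 (6080, 22720) (by decide +kernel)
        (CovZ.leaf K2_ok TE_l13740 _)
        (CovZ.leaf K2_ok TE_l13741 _))
       (CovZ.n1 (5440, 22720) (by decide +kernel)
        (CovZ.leaf K2_ok TE_l13742 _)
        (CovZ.leaf K2_ok TE_l13743 _)))
      (CovZ.n1 (6400, 22400) (by decide +kernel)
       (CovZ.subM 1496577676670401063595854579635612233147162040467617 (by decide +kernel)
        (CovZ.n2 (6080, 22080) (by decide +kernel)
         (CovZ.n2 (6080, 22400) (by decide +kernel)
          (CovZ.leaf K2_ok TE_l13744 _)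
          (CovZ.leaf K2_ok TE_l13745 _))
         (CovZ.n1 (6400, 22080) (by decide +kernel)
          (CovZ.n2 (6240, 21920) (by decide +kernel)
           (CovZ.leaf K2_ok TE_l13746 _)
           (CovZ.leaf K2_ok TE_l13747 _))
          (CovZ.leaf K2_ok TE_l13748 _))))
       (CovZ.n1 (6080, 22720) (by decide +kernel)
        (CovZ.leaf K2_ok TE_l13749 _)
        (CovZ.leaf K2_ok TE_l13750 _)))))))

theorem TE_s7_3 : SqZ TE_M TE_L [0, 7, 6, 1] (-10240) 12800 2560 7 3 :=
  SqZ.mk (a := 7680) (b := 10240) (c := 20480) (d := 23040) (by norm_num) (by norm_num) (by norm_num) (by norm_num)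
    (CovZ.topM TE_LL 5192296858534827664629696452100096 (by decide +kernel) (CovZ.n2 (8960, 21760) (by decide +kernel)
    (CovZ.badM (by decide +kernel))
    (CovZ.n1 (8960, 20480) (by decide +kernel)
     (CovZ.n2 (8320, 21120) (by decide +kernel)
      (CovZ.badM (by decide +kernel))
      (CovZ.badM (by decide +kernel)))
     (CovZ.badM (by decide +kernel)))))
    (CovZ.topM TE_LL 416838787115523207166808134185950562049160167365934055585 (by decide +kernel) (CovZ.n0 (8960, 21760) (by decide +kernel)
    TE_u22
    TE_u23))

theorem TE_s8_3 : SqZ TE_M TE_L [0, 7, 6, 1] (-10240) 12800 2560 8 3 :=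
  SqZ.mk (a := 10240) (b := 12800) (c := 20480) (d := 23040) (by norm_num) (by norm_num) (by norm_num) (by norm_num)
    (CovZ.topM TE_LL 170141183460469231731687303715884105744 (by decide +kernel) (CovZ.n2 (11520, 21760) (by decide +kernel)
    (CovZ.n2 (12800, 21760) (by decide +kernel)
     (CovZ.badM (by decide +kernel))
     (CovZ.n1 (12160, 22400) (by decide +kernel)
      (CovZ.badM (by decide +kernel))
      (CovZ.badM (by decide +kernel))))
    (CovZ.badM (by decide +kernel))))
    (CovZ.topM TE_LL 170141183460469231731687303715884105744 (by decide +kernel) (CovZ.n0 (11520, 21760) (by decide +kernel)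
    (CovZ.badM (by decide +kernel))
    (CovZ.n1 (11520, 23040) (by decide +kernel)
     (CovZ.n2 (12160, 22400) (by decide +kernel)
      (CovZ.n2 (11520, 22400) (by decide +kernel)
       (CovZ.badM (by decide +kernel))
       (CovZ.badM (by decide +kernel)))
      (CovZ.badM (by decide +kernel)))
     (CovZ.n1 (10880, 22400) (by decide +kernel)
      (CovZ.badM (by decide +kernel))
      (CovZ.n1 (11520, 22400) (by decide +kernel)
       (CovZ.badM (by decide +kernel))
       (CovZ.badM (by decide +kernel)))))))

theorem TE_s9_3 : SqZ TE_M TE_L [0, 7, 6, 1] (-10240) 12800 2560 9 3 :=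
  SqZ.mk (a := 12800) (b := 15360) (c := 20480) (d := 23040) (by norm_num) (by norm_num) (by norm_num) (by norm_num)
    (CovZ.topM TE_LL 170141183460469231731687303715884105744 (by decide +kernel) (CovZ.n2 (14080, 21760) (by decide +kernel)
    (CovZ.badM (by decide +kernel))
    (CovZ.badM (by decide +kernel))))
    (CovZ.topM TE_LL 170141183460469231731687303715884105744 (by decide +kernel) (CovZ.n0 (14080, 21760) (by decide +kernel)
    (CovZ.n2 (12800, 21760) (by decide +kernel)
     (CovZ.badM (by decide +kernel))
     (CovZ.badM (by decide +kernel)))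
    (CovZ.badM (by decide +kernel))))

theorem TE_s10_3 : SqZ TE_M TE_L [0, 7, 6, 1] (-10240) 12800 2560 10 3 :=
  SqZ.mk (a := 15360) (b := 17920) (c := 20480) (d := 23040) (by norm_num) (by norm_num) (by norm_num) (by norm_num)
    (CovZ.topM TE_LL 0 (by decide +kernel) (CovZ.badM (by decide +kernel)))
    (CovZ.topM TE_LL 0 (by decide +kernel) (CovZ.badM (by decide +kernel)))

theorem TE_s0_4 : SqZ TE_M TE_L [0, 7, 6, 1] (-10240) 12800 2560 0 4 :=
  SqZ.mk (a := (-10240)) (b := (-7680)) (c := 23040) (d := 25600) (by norm_num) (by norm_num) (by norm_num) (by norm_num)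
    (CovZ.topM TE_LL 0 (by decide +kernel) (CovZ.badM (by decide +kernel)))
    (CovZ.topM TE_LL 0 (by decide +kernel) (CovZ.badM (by decide +kernel)))

theorem TE_s1_4 : SqZ TE_M TE_L [0, 7, 6, 1] (-10240) 12800 2560 1 4 :=
  SqZ.mk (a := (-7680)) (b := (-5120)) (c := 23040) (d := 25600) (by norm_num) (by norm_num) (by norm_num) (by norm_num)
    (CovZ.topM TE_LL 89202980794122492566142873090593446023921664 (by decide +kernel) (CovZ.n2 (-6400, 24320) (by decide +kernel)
    (CovZ.n2 (-5120, 24320) (by decide +kernel)
     (CovZ.badM (by decide +kernel))
     (CovZ.badM (by decide +kernel)))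
    (CovZ.badM (by decide +kernel))))
    (CovZ.topM TE_LL 0 (by decide +kernel) (CovZ.badM (by decide +kernel)))

theorem TE_s2_4 : SqZ TE_M TE_L [0, 7, 6, 1] (-10240) 12800 2560 2 4 :=
  SqZ.mk (a := (-5120)) (b := (-2560)) (c := 23040) (d := 25600) (by norm_num) (by norm_num) (by norm_num) (by norm_num)
    (CovZ.topM TE_LL 0 (by decide +kernel) (CovZ.badM (by decide +kernel)))
    (CovZ.topM TE_LL 89202980794122492566142873090593446023921664 (by decide +kernel) (CovZ.n0 (-3840, 24320) (by decide +kernel)
    (CovZ.n2 (-5120, 24320) (by decide +kernel)
     (CovZ.n2 (-4480, 24960) (by decide +kernel)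
      (CovZ.badM (by decide +kernel))
      (CovZ.badM (by decide +kernel)))
     (CovZ.badM (by decide +kernel)))
    (CovZ.n1 (-3840, 25600) (by decide +kernel)
     (CovZ.badM (by decide +kernel))
     (CovZ.n1 (-4480, 24960) (by decide +kernel)
      (CovZ.badM (by decide +kernel))
      (CovZ.badM (by decide +kernel))))))

theorem TE_s3_4 : SqZ TE_M TE_L [0, 7, 6, 1] (-10240) 12800 2560 3 4 :=
  SqZ.mk (a := (-2560)) (b := 0) (c := 23040) (d := 25600) (by norm_num) (by norm_num) (by norm_num) (by norm_num)
    (CovZ.topM TE_LL 1048576 (by decide +kernel) (CovZ.n2 (-1280, 24320) (by decide +kernel)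
    (CovZ.n2 (0, 24320) (by decide +kernel)
     (CovZ.n2 (-640, 23680) (by decide +kernel)
      (CovZ.n2 (-640, 24320) (by decide +kernel)
       (CovZ.n2 (-320, 24000) (by decide +kernel)
        (CovZ.badM (by decide +kernel))
        (CovZ.n1 (-320, 24320) (by decide +kernel)
         (CovZ.n2 (-160, 24160) (by decide +kernel)
          (CovZ.badM (by decide +kernel))
          (CovZ.leaf K2_ok TE_l545 _))
         (CovZ.badM (by decide +kernel))))
       (CovZ.badM (by decide +kernel)))
      (CovZ.n1 (0, 23680) (by decide +kernel)
       (CovZ.n2 (-320, 23360) (by decide +kernel)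
        (CovZ.n2 (-320, 23680) (by decide +kernel)
         (CovZ.leaf K2_ok TE_l573 _)
         (CovZ.badM (by decide +kernel)))
        (CovZ.leaf K2_ok TE_l575 _))
       (CovZ.n1 (-320, 24000) (by decide +kernel)
        (CovZ.n2 (0, 24000) (by decide +kernel)
         (CovZ.leaf K2_ok TE_l576 _)
         (CovZ.leaf K2_ok TE_l577 _))
        (CovZ.n1 (-320, 23680) (by decide +kernel)
         (CovZ.badM (by decide +kernel))
         (CovZ.leaf K2_ok TE_l579 _)))))
     (CovZ.n1 (-640, 24960) (by decide +kernel)
      (CovZ.n2 (0, 24960) (by decide +kernel)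
       (CovZ.n2 (-320, 24640) (by decide +kernel)
        (CovZ.badM (by decide +kernel))
        (CovZ.n1 (0, 24640) (by decide +kernel)
         (CovZ.n2 (-160, 24480) (by decide +kernel)
          (CovZ.n2 (-160, 24640) (by decide +kernel)
           (CovZ.leaf K2_ok TE_l588 _)
           (CovZ.badM (by decide +kernel)))
          (CovZ.leaf K2_ok TE_l591 _))
         (CovZ.n1 (-160, 24800) (by decide +kernel)
          (CovZ.n2 (0, 24800) (by decide +kernel)
           (CovZ.n2 (-80, 24720) (by decide +kernel)
            (CovZ.n2 (-80, 24800) (by decide +kernel)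
             (CovZ.leaf K2_ok TE_l592 _)
             (CovZ.badM (by decide +kernel)))
            (CovZ.leaf K2_ok TE_l594 _))
           (CovZ.n1 (-80, 24880) (by decide +kernel)
            (CovZ.n2 (0, 24880) (by decide +kernel)
             (CovZ.leaf K2_ok TE_l595 _)
             (CovZ.badM (by decide +kernel)))
            (CovZ.n1 (-80, 24800) (by decide +kernel)
             (CovZ.badM (by decide +kernel))
             (CovZ.n1 (-40, 24840) (by decide +kernel)
              (CovZ.leaf K2_ok TE_l599 _)
              (CovZ.badM (by decide +kernel))))))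
          (CovZ.n1 (-160, 24640) (by decide +kernel)
           (CovZ.badM (by decide +kernel))
           (CovZ.n1 (-80, 24720) (by decide +kernel)
            (CovZ.leaf K2_ok TE_l604 _)
            (CovZ.badM (by decide +kernel)))))))
       (CovZ.badM (by decide +kernel)))
      (CovZ.n1 (-640, 24320) (by decide +kernel)
       (CovZ.badM (by decide +kernel))
       (CovZ.n1 (-320, 24640) (by decide +kernel)
        (CovZ.n2 (-320, 24320) (by decide +kernel)
         (CovZ.badM (by decide +kernel))
         (CovZ.n1 (-160, 24480) (by decide +kernel)
          (CovZ.leaf K2_ok TE_l627 _)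
          (CovZ.badM (by decide +kernel))))
        (CovZ.badM (by decide +kernel))))))
    (CovZ.n1 (-1280, 23040) (by decide +kernel)
     (CovZ.badM (by decide +kernel))
     (CovZ.n1 (-640, 23680) (by decide +kernel)
      (CovZ.n2 (-640, 23040) (by decide +kernel)
       (CovZ.badM (by decide +kernel))
       (CovZ.n1 (-320, 23360) (by decide +kernel)
        (CovZ.leaf K2_ok TE_l733 _)
        (CovZ.badM (by decide +kernel))))
      (CovZ.badM (by decide +kernel))))))
    (CovZ.topM TE_LL 0 (by decide +kernel) (CovZ.badM (by decide +kernel)))

theorem TE_s4_4 : SqZ TE_M TE_L [0, 7, 6, 1] (-10240) 12800 2560 4 4 :=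
  SqZ.mk (a := 0) (b := 2560) (c := 23040) (d := 25600) (by norm_num) (by norm_num) (by norm_num) (by norm_num)
    (CovZ.topM TE_LL 46773761385359717323454215154231648025514452455425 (by decide +kernel) (CovZ.n2 (1280, 24320) (by decide +kernel)
    (CovZ.n2 (2560, 24320) (by decide +kernel)
     (CovZ.n2 (1920, 23680) (by decide +kernel)
      (CovZ.n2 (1920, 24320) (by decide +kernel)
       (CovZ.subM 81129638416967864972408205086721 (by decide +kernel)
        (CovZ.n2 (2240, 24000) (by decide +kernel)
         (CovZ.n2 (1920, 24000) (by decide +kernel)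
          (CovZ.leaf K2_ok TE_l2744 _)
          (CovZ.leaf K2_ok TE_l2745 _))
         (CovZ.n1 (2240, 24320) (by decide +kernel)
          (CovZ.leaf K2_ok TE_l2746 _)
          (CovZ.leaf K2_ok TE_l2747 _))))
       (CovZ.subM 5708990770823920653871560845662917769363984385 (by decide +kernel)
        (CovZ.n1 (1600, 24000) (by decide +kernel)
         (CovZ.n2 (1600, 24320) (by decide +kernel)
          (CovZ.leaf K2_ok TE_l2748 _)
          (CovZ.n1 (1440, 24160) (by decide +kernel)
           (CovZ.leaf K2_ok TE_l2749 _)
           (CovZ.leaf K2_ok TE_l2750 _)))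
         (CovZ.n1 (1920, 24000) (by decide +kernel)
          (CovZ.leaf K2_ok TE_l2751 _)
          (CovZ.leaf K2_ok TE_l2752 _)))))
      (CovZ.n1 (2560, 23680) (by decide +kernel)
       (CovZ.n2 (2240, 23360) (by decide +kernel)
        (CovZ.leaf K2_ok TE_l2753 _)
        (CovZ.leaf K2_ok TE_l2754 _))
       (CovZ.n1 (2240, 24000) (by decide +kernel)
        (CovZ.leaf K2_ok TE_l2755 _)
        (CovZ.leaf K2_ok TE_l2756 _))))
     (CovZ.n1 (1920, 24960) (by decide +kernel)
      (CovZ.n2 (2560, 24960) (by decide +kernel)
       (CovZ.subM 46773761385359717303171786207766719581943577448448 (by decide +kernel)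
        (CovZ.n2 (2240, 24640) (by decide +kernel)
         (CovZ.subM 46773761385359717222042147793160037850970196017152 (by decide +kernel)
          (CovZ.n2 (2240, 24960) (by decide +kernel)
           (CovZ.n2 (2400, 24800) (by decide +kernel)
            (CovZ.n2 (2240, 24800) (by decide +kernel)
             (CovZ.n2 (2320, 24880) (by decide +kernel)
              (CovZ.leaf K2_ok TE_l2757 _)
              (CovZ.leaf K2_ok TE_l2758 _))
             (CovZ.leaf K2_ok TE_l2759 _))
            (CovZ.n1 (2400, 24960) (by decide +kernel)
             (CovZ.leaf K2_ok TE_l2760 _)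
             (CovZ.n1 (2320, 24880) (by decide +kernel)
              (CovZ.leaf K2_ok TE_l2761 _)
              (CovZ.leaf K2_ok TE_l2762 _))))
           (CovZ.n1 (2080, 24800) (by decide +kernel)
            (CovZ.n2 (2080, 24960) (by decide +kernel)
             (CovZ.n2 (2160, 24880) (by decide +kernel)
              (CovZ.leaf K2_ok TE_l2763 _)
              (CovZ.leaf K2_ok TE_l2764 _))
             (CovZ.n1 (2000, 24880) (by decide +kernel)
              (CovZ.leaf K2_ok TE_l2765 _)
              (CovZ.leaf K2_ok TE_l2766 _)))
            (CovZ.n1 (2240, 24800) (by decide +kernel)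
             (CovZ.leaf K2_ok TE_l2767 _)
             (CovZ.leaf K2_ok TE_l2768 _)))))
         (CovZ.n1 (2560, 24640) (by decide +kernel)
          (CovZ.n2 (2400, 24480) (by decide +kernel)
           (CovZ.leaf K2_ok TE_l2769 _)
           (CovZ.leaf K2_ok TE_l2770 _))
          (CovZ.n1 (2400, 24800) (by decide +kernel)
           (CovZ.n2 (2560, 24800) (by decide +kernel)
            (CovZ.leaf K2_ok TE_l2771 _)
            (CovZ.leaf K2_ok TE_l2772 _))
           (CovZ.leaf K2_ok TE_l2773 _)))))
       (CovZ.subM 46773761385359717222042147793160181966158271873024 (by decide +kernel)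
        (CovZ.n1 (2240, 25280) (by decide +kernel)
         (CovZ.n2 (2560, 25280) (by decide +kernel)
          (CovZ.n2 (2400, 25120) (by decide +kernel)
           (CovZ.badM (by decide +kernel))
           (CovZ.n1 (2560, 25120) (by decide +kernel)
            (CovZ.n2 (2480, 25040) (by decide +kernel)
             (CovZ.n2 (2480, 25120) (by decide +kernel)
              (CovZ.leaf K2_ok TE_l2774 _)
              (CovZ.leaf K2_ok TE_l2775 _))
             (CovZ.leaf K2_ok TE_l2776 _))
            (CovZ.n1 (2480, 25200) (by decide +kernel)
             (CovZ.n2 (2560, 25200) (by decide +kernel)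
              (CovZ.n2 (2520, 25160) (by decide +kernel)
               (CovZ.badM (by decide +kernel))
               (CovZ.leaf K2_ok TE_l2777 _))
              (CovZ.badM (by decide +kernel)))
             (CovZ.n1 (2480, 25120) (by decide +kernel)
              (CovZ.badM (by decide +kernel))
              (CovZ.n1 (2520, 25160) (by decide +kernel)
               (CovZ.leaf K2_ok TE_l2779 _)
               (CovZ.badM (by decide +kernel)))))))
          (CovZ.badM (by decide +kernel)))
         (CovZ.n1 (2240, 24960) (by decide +kernel)
          (CovZ.n2 (2080, 25120) (by decide +kernel)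
           (CovZ.n2 (2240, 25120) (by decide +kernel)
            (CovZ.n2 (2160, 25040) (by decide +kernel)
             (CovZ.n2 (2160, 25120) (by decide +kernel)
              (CovZ.n2 (2200, 25080) (by decide +kernel)
               (CovZ.leaf K2_ok TE_l2781 _)
               (CovZ.leaf K2_ok TE_l17144 _))
              (CovZ.n1 (2120, 25080) (by decide +kernel)
               (CovZ.leaf K2_ok TE_l17145 _)
               (CovZ.leaf K2_ok TE_l2782 _)))
             (CovZ.n1 (2240, 25040) (by decide +kernel)
              (CovZ.leaf K2_ok TE_l2783 _)
              (CovZ.leaf K2_ok TE_l2784 _)))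
            (CovZ.badM (by decide +kernel)))
           (CovZ.n1 (2080, 24960) (by decide +kernel)
            (CovZ.n2 (2000, 25040) (by decide +kernel)
             (CovZ.n2 (2080, 25040) (by decide +kernel)
              (CovZ.leaf K2_ok TE_l2785 _)
              (CovZ.leaf K2_ok TE_l2786 _))
             (CovZ.leaf K2_ok TE_l2787 _))
            (CovZ.n1 (2160, 25040) (by decide +kernel)
             (CovZ.leaf K2_ok TE_l2788 _)
             (CovZ.n1 (2080, 25040) (by decide +kernel)
              (CovZ.n2 (2120, 25080) (by decide +kernel)
               (CovZ.leaf K2_ok TE_l2789 _)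
               (CovZ.leaf K2_ok TE_l2790 _))
              (CovZ.leaf K2_ok TE_l2791 _)))))
          (CovZ.n1 (2400, 25120) (by decide +kernel)
           (CovZ.n2 (2400, 24960) (by decide +kernel)
            (CovZ.n2 (2320, 25040) (by decide +kernel)
             (CovZ.n2 (2400, 25040) (by decide +kernel)
              (CovZ.leaf K2_ok TE_l2792 _)
              (CovZ.badM (by decide +kernel)))
             (CovZ.leaf K2_ok TE_l2794 _))
            (CovZ.n1 (2480, 25040) (by decide +kernel)
             (CovZ.leaf K2_ok TE_l2795 _)
             (CovZ.n1 (2400, 25040) (by decide +kernel)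
              (CovZ.leaf K2_ok TE_l2796 _)
              (CovZ.leaf K2_ok TE_l2797 _))))
           (CovZ.n1 (2240, 25120) (by decide +kernel)
            (CovZ.badM (by decide +kernel))
            (CovZ.n1 (2320, 25040) (by decide +kernel)
             (CovZ.n2 (2240, 25040) (by decide +kernel)
              (CovZ.n2 (2280, 25080) (by decide +kernel)
               (CovZ.leaf K2_ok TE_l2798 _)
               (CovZ.leaf K2_ok TE_l2799 _))
              (CovZ.leaf K2_ok TE_l2800 _))
             (CovZ.n1 (2320, 25120) (by decide +kernel)
              (CovZ.badM (by decide +kernel))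
              (CovZ.n1 (2280, 25080) (by decide +kernel)
               (CovZ.leaf K2_ok TE_l17146 _)
               (CovZ.badM (by decide +kernel)))))))))))
      (CovZ.n1 (1920, 24320) (by decide +kernel)
       (CovZ.subM 2361183241434823655424 (by decide +kernel)
        (CovZ.n2 (1600, 24640) (by decide +kernel)
         (CovZ.n2 (1920, 24640) (by decide +kernel)
          (CovZ.n2 (1760, 24480) (by decide +kernel)
           (CovZ.leaf K2_ok TE_l2803 _)
           (CovZ.leaf K2_ok TE_l2804 _))
          (CovZ.n1 (1760, 24800) (by decide +kernel)
           (CovZ.n2 (1920, 24800) (by decide +kernel)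
            (CovZ.n2 (1840, 24720) (by decide +kernel)
             (CovZ.leaf K2_ok TE_l2805 _)
             (CovZ.leaf K2_ok TE_l2806 _))
            (CovZ.leaf K2_ok TE_l2807 _))
           (CovZ.n1 (1760, 24640) (by decide +kernel)
            (CovZ.leaf K2_ok TE_l2808 _)
            (CovZ.leaf K2_ok TE_l2809 _))))
         (CovZ.n1 (1600, 24320) (by decide +kernel)
          (CovZ.leaf K2_ok TE_l2810 _)
          (CovZ.n1 (1760, 24480) (by decide +kernel)
           (CovZ.leaf K2_ok TE_l2811 _)
           (CovZ.leaf K2_ok TE_l2812 _)))))
       (CovZ.subM 46773761385359717303171786207766719581943577448448 (by decide +kernel)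
        (CovZ.n1 (2240, 24640) (by decide +kernel)
         (CovZ.n2 (2240, 24320) (by decide +kernel)
          (CovZ.leaf K2_ok TE_l2813 _)
          (CovZ.n1 (2400, 24480) (by decide +kernel)
           (CovZ.leaf K2_ok TE_l2814 _)
           (CovZ.leaf K2_ok TE_l2815 _)))
         (CovZ.subM 5708990770823839524233146238981221980354641920 (by decide +kernel)
          (CovZ.n1 (1920, 24640) (by decide +kernel)
           (CovZ.n2 (2080, 24800) (by decide +kernel)
            (CovZ.n2 (2080, 24640) (by decide +kernel)
             (CovZ.leaf K2_ok TE_l2816 _)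
             (CovZ.leaf K2_ok TE_l2817 _))
            (CovZ.n1 (1920, 24800) (by decide +kernel)
             (CovZ.n2 (2000, 24880) (by decide +kernel)
              (CovZ.leaf K2_ok TE_l2818 _)
              (CovZ.leaf K2_ok TE_l2819 _))
             (CovZ.leaf K2_ok TE_l2820 _)))
           (CovZ.n1 (2080, 24480) (by decide +kernel)
            (CovZ.leaf K2_ok TE_l2821 _)
            (CovZ.leaf K2_ok TE_l2822 _)))))))))
    (CovZ.n1 (1280, 23040) (by decide +kernel)
     (CovZ.subM 2361183241434823659521 (by decide +kernel)
      (CovZ.n2 (640, 23680) (by decide +kernel)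
       (CovZ.n2 (1280, 23680) (by decide +kernel)
        (CovZ.n2 (960, 23360) (by decide +kernel)
         (CovZ.leaf K2_ok TE_l2823 _)
         (CovZ.leaf K2_ok TE_l2824 _))
        (CovZ.n1 (960, 24000) (by decide +kernel)
         (CovZ.n2 (1280, 24000) (by decide +kernel)
          (CovZ.leaf K2_ok TE_l2825 _)
          (CovZ.leaf K2_ok TE_l2826 _))
         (CovZ.leaf K2_ok TE_l2827 _)))
       (CovZ.n1 (640, 23040) (by decide +kernel)
        (CovZ.leaf K2_ok TE_l2828 _)
        (CovZ.n1 (960, 23360) (by decide +kernel)
         (CovZ.leaf K2_ok TE_l2829 _)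
         (CovZ.leaf K2_ok TE_l2830 _)))))
     (CovZ.n1 (1920, 23680) (by decide +kernel)
      (CovZ.n2 (1920, 23040) (by decide +kernel)
       (CovZ.leaf K2_ok TE_l2831 _)
       (CovZ.n1 (2240, 23360) (by decide +kernel)
        (CovZ.leaf K2_ok TE_l2832 _)
        (CovZ.leaf K2_ok TE_l2833 _)))
      (CovZ.subM 5708990770823920653871560845662917769363984385 (by decide +kernel)
       (CovZ.n1 (1280, 23680) (by decide +kernel)
        (CovZ.n2 (1600, 24000) (by decide +kernel)
         (CovZ.leaf K2_ok TE_l2834 _)
         (CovZ.n1 (1280, 24000) (by decide +kernel)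
          (CovZ.leaf K2_ok TE_l2835 _)
          (CovZ.leaf K2_ok TE_l2836 _)))
        (CovZ.leaf K2_ok TE_l2837 _)))))))
    (CovZ.topM TE_LL 3138559847165109136563577531806645047873392188034334588929 (by decide +kernel) (CovZ.n0 (1280, 24320) (by decide +kernel)
    (CovZ.subM 1048577 (by decide +kernel)
     (CovZ.n2 (0, 24320) (by decide +kernel)
      (CovZ.n2 (640, 24960) (by decide +kernel)
       (CovZ.n2 (640, 24320) (by decide +kernel)
        (CovZ.n2 (320, 24640) (by decide +kernel)
         (CovZ.n2 (640, 24640) (by decide +kernel)
          (CovZ.n2 (480, 24480) (by decide +kernel)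
           (CovZ.n2 (480, 24640) (by decide +kernel)
            (CovZ.leaf K2_ok TE_l2838 _)
            (CovZ.leaf K2_ok TE_l2839 _))
           (CovZ.leaf K2_ok TE_l2840 _))
          (CovZ.n1 (480, 24800) (by decide +kernel)
           (CovZ.n2 (640, 24800) (by decide +kernel)
            (CovZ.n2 (560, 24720) (by decide +kernel)
             (CovZ.leaf K2_ok TE_l2841 _)
             (CovZ.leaf K2_ok TE_l2842 _))
            (CovZ.n1 (560, 24880) (by decide +kernel)
             (CovZ.n2 (640, 24880) (by decide +kernel)
              (CovZ.leaf K2_ok TE_l2843 _)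
              (CovZ.leaf K2_ok TE_l2844 _))
             (CovZ.leaf K2_ok TE_l2845 _)))
           (CovZ.n1 (480, 24640) (by decide +kernel)
            (CovZ.leaf K2_ok TE_l2846 _)
            (CovZ.n1 (560, 24720) (by decide +kernel)
             (CovZ.leaf K2_ok TE_l2847 _)
             (CovZ.leaf K2_ok TE_l2848 _)))))
         (CovZ.n1 (320, 24320) (by decide +kernel)
          (CovZ.leaf K2_ok TE_l2849 _)
          (CovZ.n1 (480, 24480) (by decide +kernel)
           (CovZ.leaf K2_ok TE_l2850 _)
           (CovZ.n1 (320, 24480) (by decide +kernel)
            (CovZ.leaf K2_ok TE_l2851 _)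
            (CovZ.leaf K2_ok TE_l2852 _)))))
        (CovZ.n1 (960, 24640) (by decide +kernel)
         (CovZ.n2 (960, 24320) (by decide +kernel)
          (CovZ.leaf K2_ok TE_l2853 _)
          (CovZ.n1 (1120, 24480) (by decide +kernel)
           (CovZ.leaf K2_ok TE_l2854 _)
           (CovZ.n1 (960, 24480) (by decide +kernel)
            (CovZ.leaf K2_ok TE_l2855 _)
            (CovZ.leaf K2_ok TE_l2856 _))))
         (CovZ.n1 (640, 24640) (by decide +kernel)
          (CovZ.n2 (800, 24800) (by decide +kernel)
           (CovZ.n2 (800, 24640) (by decide +kernel)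
            (CovZ.leaf K2_ok TE_l2857 _)
            (CovZ.n1 (880, 24720) (by decide +kernel)
             (CovZ.leaf K2_ok TE_l2858 _)
             (CovZ.leaf K2_ok TE_l2859 _)))
           (CovZ.n1 (640, 24800) (by decide +kernel)
            (CovZ.n2 (720, 24880) (by decide +kernel)
             (CovZ.leaf K2_ok TE_l2860 _)
             (CovZ.n1 (640, 24880) (by decide +kernel)
              (CovZ.n2 (680, 24920) (by decide +kernel)
               (CovZ.leaf K2_ok TE_l2861 _)
               (CovZ.leaf K2_ok TE_l2862 _))
              (CovZ.leaf K2_ok TE_l2863 _)))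
            (CovZ.n1 (720, 24720) (by decide +kernel)
             (CovZ.leaf K2_ok TE_l2864 _)
             (CovZ.leaf K2_ok TE_l2865 _))))
          (CovZ.n1 (800, 24480) (by decide +kernel)
           (CovZ.n2 (640, 24480) (by decide +kernel)
            (CovZ.leaf K2_ok TE_l2866 _)
            (CovZ.leaf K2_ok TE_l2867 _))
           (CovZ.n1 (800, 24640) (by decide +kernel)
            (CovZ.leaf K2_ok TE_l2868 _)
            (CovZ.leaf K2_ok TE_l2869 _))))))
       (CovZ.n1 (0, 24960) (by decide +kernel)
        TE_u24
        TE_u25))
      (CovZ.n1 (640, 23680) (by decide +kernel)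
       (CovZ.n2 (0, 23680) (by decide +kernel)
        (CovZ.n2 (320, 24000) (by decide +kernel)
         (CovZ.leaf K2_ok TE_l2958 _)
         (CovZ.leaf K2_ok TE_l2959 _))
        (CovZ.leaf K2_ok TE_l2960 _))
       (CovZ.n1 (640, 24320) (by decide +kernel)
        (CovZ.n2 (960, 24000) (by decide +kernel)
         (CovZ.n2 (640, 24000) (by decide +kernel)
          (CovZ.n2 (800, 24160) (by decide +kernel)
           (CovZ.leaf K2_ok TE_l2961 _)
           (CovZ.leaf K2_ok TE_l2962 _))
          (CovZ.leaf K2_ok TE_l2963 _))
         (CovZ.n1 (960, 24320) (by decide +kernel)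
          (CovZ.leaf K2_ok TE_l2964 _)
          (CovZ.n1 (800, 24160) (by decide +kernel)
           (CovZ.leaf K2_ok TE_l2965 _)
           (CovZ.leaf K2_ok TE_l2966 _))))
        (CovZ.n1 (320, 24000) (by decide +kernel)
         (CovZ.n2 (320, 24320) (by decide +kernel)
          (CovZ.leaf K2_ok TE_l2967 _)
          (CovZ.n1 (160, 24160) (by decide +kernel)
           (CovZ.leaf K2_ok TE_l2968 _)
           (CovZ.leaf K2_ok TE_l2969 _)))
         (CovZ.n1 (640, 24000) (by decide +kernel)
          (CovZ.leaf K2_ok TE_l2970 _)
          (CovZ.leaf K2_ok TE_l2971 _)))))))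
    (CovZ.n1 (1280, 25600) (by decide +kernel)
     (CovZ.subM 5708993493082774891760213287662835921205592064 (by decide +kernel)
      (CovZ.n2 (1920, 24960) (by decide +kernel)
       TE_u26
       TE_u27))
     (CovZ.subM 1048576 (by decide +kernel)
      (CovZ.n1 (640, 24960) (by decide +kernel)
       (CovZ.n2 (640, 25600) (by decide +kernel)
        (CovZ.n2 (960, 25280) (by decide +kernel)
         (CovZ.n2 (640, 25280) (by decide +kernel)
          (CovZ.badM (by decide +kernel))
          (CovZ.n1 (800, 25120) (by decide +kernel)
           (CovZ.n2 (640, 25120) (by decide +kernel)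
            (CovZ.badM (by decide +kernel))
            (CovZ.n1 (720, 25040) (by decide +kernel)
             (CovZ.n2 (640, 25040) (by decide +kernel)
              (CovZ.badM (by decide +kernel))
              (CovZ.n1 (680, 25000) (by decide +kernel)
               (CovZ.n2 (640, 25000) (by decide +kernel)
                (CovZ.n2 (660, 25020) (by decide +kernel)
                 (CovZ.leaf K2_ok TE_l17167 _)
                 (CovZ.leaf K2_ok TE_l17168 _))
                (CovZ.leaf K2_ok TE_l17169 _))
               (CovZ.n1 (680, 25040) (by decide +kernel)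
                (CovZ.leaf K2_ok TE_l17170 _)
                (CovZ.n1 (660, 25020) (by decide +kernel)
                 (CovZ.leaf K2_ok TE_l17171 _)
                 (CovZ.leaf K2_ok TE_l17172 _)))))
             (CovZ.badM (by decide +kernel))))
           (CovZ.badM (by decide +kernel))))
         (CovZ.badM (by decide +kernel)))
        (CovZ.n1 (320, 25280) (by decide +kernel)
         (CovZ.badM (by decide +kernel))
         (CovZ.n1 (640, 25280) (by decide +kernel)
          (CovZ.n2 (480, 25120) (by decide +kernel)
           (CovZ.badM (by decide +kernel))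
           (CovZ.n1 (640, 25120) (by decide +kernel)
            (CovZ.n2 (560, 25040) (by decide +kernel)
             (CovZ.badM (by decide +kernel))
             (CovZ.n1 (640, 25040) (by decide +kernel)
              (CovZ.n2 (600, 25000) (by decide +kernel)
               (CovZ.n2 (600, 25040) (by decide +kernel)
                (CovZ.leaf K2_ok TE_l17173 _)
                (CovZ.n1 (580, 25020) (by decide +kernel)
                 (CovZ.leaf K2_ok TE_l17174 _)
                 (CovZ.leaf K2_ok TE_l17175 _)))
               (CovZ.n1 (640, 25000) (by decide +kernel)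
                (CovZ.leaf K2_ok TE_l17176 _)
                (CovZ.leaf K2_ok TE_l17177 _)))
              (CovZ.badM (by decide +kernel))))
            (CovZ.badM (by decide +kernel))))
          (CovZ.badM (by decide +kernel)))))
       (CovZ.n1 (1280, 24960) (by decide +kernel)
        TE_u28
        TE_u29))))))

theorem TE_s5_4 : SqZ TE_M TE_L [0, 7, 6, 1] (-10240) 12800 2560 5 4 :=
  SqZ.mk (a := 2560) (b := 5120) (c := 23040) (d := 25600) (by norm_num) (by norm_num) (by norm_num) (by norm_num)
    (CovZ.topM TE_LL 416852639593416716293813077492846645354281466399466049977 (by decide +kernel) (CovZ.n2 (3840, 24320) (by decide +kernel)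
    (CovZ.n2 (5120, 24320) (by decide +kernel)
     (CovZ.subM 1496577677367299351048663950485999296065144770056609 (by decide +kernel)
      (CovZ.n2 (4480, 23680) (by decide +kernel)
       (CovZ.n2 (4480, 24320) (by decide +kernel)
        (CovZ.leaf K2_ok TE_l7482 _)
        (CovZ.n1 (4160, 24000) (by decide +kernel)
         (CovZ.leaf K2_ok TE_l7483 _)
         (CovZ.leaf K2_ok TE_l7484 _)))
       (CovZ.n1 (5120, 23680) (by decide +kernel)
        (CovZ.leaf K2_ok TE_l7485 _)
        (CovZ.leaf K2_ok TE_l7486 _))))
     (CovZ.n1 (4480, 24960) (by decide +kernel)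
      (CovZ.n2 (5120, 24960) (by decide +kernel)
       (CovZ.n2 (4800, 24640) (by decide +kernel)
        (CovZ.leaf K2_ok TE_l7487 _)
        (CovZ.leaf K2_ok TE_l7488 _))
       (CovZ.leaf K2_ok TE_l7489 _))
      (CovZ.n1 (4480, 24320) (by decide +kernel)
       (CovZ.leaf K2_ok TE_l7490 _)
       (CovZ.n1 (4800, 24640) (by decide +kernel)
        (CovZ.leaf K2_ok TE_l7491 _)
        (CovZ.leaf K2_ok TE_l7492 _)))))
    (CovZ.subM 1873645099798672303945214637289019077430408990707873 (by decide +kernel)
     (CovZ.n1 (3840, 23040) (by decide +kernel)
      (CovZ.n2 (3200, 23680) (by decide +kernel)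
       (CovZ.n2 (3840, 23680) (by decide +kernel)
        (CovZ.n2 (3520, 23360) (by decide +kernel)
         (CovZ.leaf K2_ok TE_l7493 _)
         (CovZ.leaf K2_ok TE_l7494 _))
        (CovZ.leaf K2_ok TE_l7495 _))
       (CovZ.n1 (3200, 23040) (by decide +kernel)
        (CovZ.leaf K2_ok TE_l7496 _)
        (CovZ.leaf K2_ok TE_l7497 _)))
      (CovZ.n1 (4480, 23680) (by decide +kernel)
       (CovZ.leaf K2_ok TE_l7498 _)
       (CovZ.n1 (3840, 23680) (by decide +kernel)
        (CovZ.n2 (4160, 24000) (by decide +kernel)
         (CovZ.leaf K2_ok TE_l7499 _)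
         (CovZ.leaf K2_ok TE_l7500 _))
        (CovZ.leaf K2_ok TE_l7501 _)))))))
    (CovZ.topM TE_LL 416852686361469110882706480293171047041727165948723057593 (by decide +kernel) (CovZ.n0 (3840, 24320) (by decide +kernel)
    TE_u31
    TE_u32))

theorem TE_s6_4 : SqZ TE_M TE_L [0, 7, 6, 1] (-10240) 12800 2560 6 4 :=
  SqZ.mk (a := 5120) (b := 7680) (c := 23040) (d := 25600) (by norm_num) (by norm_num) (by norm_num) (by norm_num)
    (CovZ.topM TE_LL 416852256679988432495541158314155704569856958656091636145 (by decide +kernel) (CovZ.n2 (6400, 24320) (by decide +kernel)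
    (CovZ.n2 (7680, 24320) (by decide +kernel)
     (CovZ.n2 (7040, 23680) (by decide +kernel)
      (CovZ.n2 (7040, 24320) (by decide +kernel)
       (CovZ.n2 (7360, 24000) (by decide +kernel)
        (CovZ.leaf K2_ok TE_l13751 _)
        (CovZ.leaf K2_ok TE_l13752 _))
       (CovZ.n1 (6720, 24000) (by decide +kernel)
        (CovZ.leaf K2_ok TE_l13753 _)
        (CovZ.leaf K2_ok TE_l13754 _)))
      (CovZ.n1 (7680, 23680) (by decide +kernel)
       (CovZ.n2 (7360, 23360) (by decide +kernel)
        (CovZ.n2 (7360, 23680) (by decide +kernel)
         (CovZ.leaf K2_ok TE_l13755 _)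
         (CovZ.leaf K2_ok TE_l13756 _))
        (CovZ.n1 (7680, 23360) (by decide +kernel)
         (CovZ.n2 (7520, 23200) (by decide +kernel)
          (CovZ.leaf K2_ok TE_l13757 _)
          (CovZ.leaf K2_ok TE_l13758 _))
         (CovZ.leaf K2_ok TE_l13759 _)))
       (CovZ.n1 (7360, 24000) (by decide +kernel)
        (CovZ.leaf K2_ok TE_l13760 _)
        (CovZ.leaf K2_ok TE_l13761 _))))
     (CovZ.n1 (7040, 24960) (by decide +kernel)
      (CovZ.n2 (7680, 24960) (by decide +kernel)
       (CovZ.n2 (7360, 24640) (by decide +kernel)
        (CovZ.leaf K2_ok TE_l13762 _)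
        (CovZ.leaf K2_ok TE_l13763 _))
       (CovZ.leaf K2_ok TE_l13764 _))
      (CovZ.n1 (7040, 24320) (by decide +kernel)
       (CovZ.leaf K2_ok TE_l13765 _)
       (CovZ.n1 (7360, 24640) (by decide +kernel)
        (CovZ.leaf K2_ok TE_l13766 _)
        (CovZ.leaf K2_ok TE_l13767 _)))))
    (CovZ.n1 (6400, 23040) (by decide +kernel)
     (CovZ.n2 (5760, 23680) (by decide +kernel)
      (CovZ.n2 (6400, 23680) (by decide +kernel)
       (CovZ.n2 (6080, 23360) (by decide +kernel)
        (CovZ.leaf K2_ok TE_l13768 _)
        (CovZ.leaf K2_ok TE_l13769 _))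
       (CovZ.leaf K2_ok TE_l13770 _))
      (CovZ.n1 (5760, 23040) (by decide +kernel)
       (CovZ.leaf K2_ok TE_l13771 _)
       (CovZ.n1 (6080, 23360) (by decide +kernel)
        (CovZ.leaf K2_ok TE_l13772 _)
        (CovZ.leaf K2_ok TE_l13773 _))))
     (CovZ.n1 (7040, 23680) (by decide +kernel)
      (CovZ.n2 (7040, 23040) (by decide +kernel)
       (CovZ.n2 (6720, 23360) (by decide +kernel)
        (CovZ.leaf K2_ok TE_l13774 _)
        (CovZ.leaf K2_ok TE_l13775 _))
       (CovZ.n1 (7360, 23360) (by decide +kernel)
        (CovZ.n2 (7360, 23040) (by decide +kernel)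
         (CovZ.leaf K2_ok TE_l13776 _)
         (CovZ.n1 (7520, 23200) (by decide +kernel)
          (CovZ.leaf K2_ok TE_l13777 _)
          (CovZ.leaf K2_ok TE_l13778 _)))
        (CovZ.n1 (7040, 23360) (by decide +kernel)
         (CovZ.leaf K2_ok TE_l13779 _)
         (CovZ.leaf K2_ok TE_l13780 _))))
      (CovZ.n1 (6400, 23680) (by decide +kernel)
       (CovZ.n2 (6720, 24000) (by decide +kernel)
        (CovZ.leaf K2_ok TE_l13781 _)
        (CovZ.leaf K2_ok TE_l13782 _))
       (CovZ.n1 (6720, 23360) (by decide +kernel)
        (CovZ.leaf K2_ok TE_l13783 _)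
        (CovZ.leaf K2_ok TE_l13784 _)))))))
    (CovZ.topM TE_LL 416852256679988432495541158314155704569856958656091640249 (by decide +kernel) (CovZ.n0 (6400, 24320) (by decide +kernel)
    (CovZ.n2 (5120, 24320) (by decide +kernel)
     (CovZ.n2 (5760, 24960) (by decide +kernel)
      (CovZ.n2 (5760, 24320) (by decide +kernel)
       (CovZ.leaf K2_ok TE_l13785 _)
       (CovZ.leaf K2_ok TE_l13786 _))
      (CovZ.n1 (5120, 24960) (by decide +kernel)
       (CovZ.n2 (5440, 25280) (by decide +kernel)
        (CovZ.leaf K2_ok TE_l13787 _)
        (CovZ.leaf K2_ok TE_l13788 _))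
       (CovZ.n1 (5440, 24640) (by decide +kernel)
        (CovZ.leaf K2_ok TE_l13789 _)
        (CovZ.leaf K2_ok TE_l13790 _))))
     (CovZ.n1 (5760, 23680) (by decide +kernel)
      (CovZ.n2 (5120, 23680) (by decide +kernel)
       (CovZ.leaf K2_ok TE_l13791 _)
       (CovZ.leaf K2_ok TE_l13792 _))
      (CovZ.n1 (5760, 24320) (by decide +kernel)
       (CovZ.leaf K2_ok TE_l13793 _)
       (CovZ.leaf K2_ok TE_l13794 _))))
    (CovZ.n1 (6400, 25600) (by decide +kernel)
     (CovZ.n2 (7040, 24960) (by decide +kernel)
      (CovZ.n2 (6400, 24960) (by decide +kernel)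
       (CovZ.leaf K2_ok TE_l13795 _)
       (CovZ.leaf K2_ok TE_l13796 _))
      (CovZ.n1 (7040, 25600) (by decide +kernel)
       (CovZ.leaf K2_ok TE_l13797 _)
       (CovZ.leaf K2_ok TE_l13798 _)))
     (CovZ.n1 (5760, 24960) (by decide +kernel)
      (CovZ.n2 (5760, 25600) (by decide +kernel)
       (CovZ.n2 (6080, 25280) (by decide +kernel)
        (CovZ.leaf K2_ok TE_l13799 _)
        (CovZ.leaf K2_ok TE_l13800 _))
       (CovZ.n1 (5440, 25280) (by decide +kernel)
        (CovZ.leaf K2_ok TE_l13801 _)
        (CovZ.leaf K2_ok TE_l13802 _)))
      (CovZ.n1 (6400, 24960) (by decide +kernel)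
       (CovZ.leaf K2_ok TE_l13803 _)
       (CovZ.leaf K2_ok TE_l13804 _))))))

theorem TE_s7_4 : SqZ TE_M TE_L [0, 7, 6, 1] (-10240) 12800 2560 7 4 :=
  SqZ.mk (a := 7680) (b := 10240) (c := 23040) (d := 25600) (by norm_num) (by norm_num) (by norm_num) (by norm_num)
    (CovZ.topM TE_LL 416850760102311587870232813646122836795317234530995732657 (by decide +kernel) (CovZ.n2 (8960, 24320) (by decide +kernel)
    (CovZ.subM 11972986789818226621236265467702197063750005669036209 (by decide +kernel)
     (CovZ.n2 (10240, 24320) (by decide +kernel)
      TE_u33
      TE_u34))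
    (CovZ.n1 (8960, 23040) (by decide +kernel)
     (CovZ.n2 (8320, 23680) (by decide +kernel)
      TE_u35
      TE_u36)
     (CovZ.n1 (9600, 23680) (by decide +kernel)
      (CovZ.subM 170141183460469231731687303715884105728 (by decide +kernel)
       (CovZ.n2 (9600, 23040) (by decide +kernel)
        (CovZ.n2 (9280, 23360) (by decide +kernel)
         (CovZ.n2 (9600, 23360) (by decide +kernel)
          (CovZ.badM (by decide +kernel))
          (CovZ.n1 (9440, 23520) (by decide +kernel)
           (CovZ.n2 (9600, 23520) (by decide +kernel)
            (CovZ.badM (by decide +kernel))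
            (CovZ.n1 (9520, 23600) (by decide +kernel)
             (CovZ.badM (by decide +kernel))
             (CovZ.badM (by decide +kernel))))
           (CovZ.badM (by decide +kernel))))
         (CovZ.badM (by decide +kernel)))
        (CovZ.n1 (9920, 23360) (by decide +kernel)
         (CovZ.badM (by decide +kernel))
         (CovZ.n1 (9600, 23360) (by decide +kernel)
          (CovZ.n2 (9760, 23520) (by decide +kernel)
           (CovZ.badM (by decide +kernel))
           (CovZ.n1 (9600, 23520) (by decide +kernel)
            (CovZ.badM (by decide +kernel))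
            (CovZ.badM (by decide +kernel))))
          (CovZ.badM (by decide +kernel))))))
      (CovZ.n1 (8960, 23680) (by decide +kernel)
       (CovZ.n2 (9280, 24000) (by decide +kernel)
        (CovZ.subM 510755857385305686720830120540160131232 (by decide +kernel)
         (CovZ.n2 (9280, 23680) (by decide +kernel)
          (CovZ.n2 (9120, 23840) (by decide +kernel)
           (CovZ.n2 (9280, 23840) (by decide +kernel)
            (CovZ.n2 (9200, 23760) (by decide +kernel)
             (CovZ.n2 (9200, 23840) (by decide +kernel)
              (CovZ.n2 (9240, 23800) (by decide +kernel)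
               (CovZ.leaf K2_ok TE_l15223 _)
               (CovZ.leaf K2_ok TE_l15224 _))
              (CovZ.n1 (9160, 23800) (by decide +kernel)
               (CovZ.leaf K2_ok TE_l15225 _)
               (CovZ.leaf K2_ok TE_l15226 _)))
             (CovZ.n1 (9280, 23760) (by decide +kernel)
              (CovZ.badM (by decide +kernel))
              (CovZ.n1 (9240, 23800) (by decide +kernel)
               (CovZ.badM (by decide +kernel))
               (CovZ.leaf K2_ok TE_l15227 _))))
            (CovZ.n1 (9200, 23920) (by decide +kernel)
             (CovZ.n2 (9280, 23920) (by decide +kernel)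
              (CovZ.leaf K2_ok TE_l15228 _)
              (CovZ.leaf K2_ok TE_l15229 _))
             (CovZ.n1 (9200, 23840) (by decide +kernel)
              (CovZ.leaf K2_ok TE_l15230 _)
              (CovZ.n1 (9240, 23880) (by decide +kernel)
               (CovZ.leaf K2_ok TE_l15231 _)
               (CovZ.leaf K2_ok TE_l15232 _)))))
           (CovZ.n1 (9120, 23680) (by decide +kernel)
            (CovZ.n2 (9040, 23760) (by decide +kernel)
             (CovZ.n2 (9120, 23760) (by decide +kernel)
              (CovZ.leaf K2_ok TE_l15233 _)
              (CovZ.leaf K2_ok TE_l15234 _))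
             (CovZ.n1 (9040, 23680) (by decide +kernel)
              (CovZ.leaf K2_ok TE_l15235 _)
              (CovZ.n1 (9080, 23720) (by decide +kernel)
               (CovZ.leaf K2_ok TE_l15236 _)
               (CovZ.leaf K2_ok TE_l15237 _))))
            (CovZ.n1 (9200, 23760) (by decide +kernel)
             (CovZ.n2 (9200, 23680) (by decide +kernel)
              (CovZ.n2 (9160, 23720) (by decide +kernel)
               (CovZ.badM (by decide +kernel))
               (CovZ.leaf K2_ok TE_l15238 _))
              (CovZ.badM (by decide +kernel)))
             (CovZ.n1 (9120, 23760) (by decide +kernel)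
              (CovZ.n2 (9160, 23800) (by decide +kernel)
               (CovZ.leaf K2_ok TE_l15239 _)
               (CovZ.leaf K2_ok TE_l15240 _))
              (CovZ.n1 (9160, 23720) (by decide +kernel)
               (CovZ.leaf K2_ok TE_l15241 _)
               (CovZ.leaf K2_ok TE_l15242 _))))))
          (CovZ.n1 (9440, 23840) (by decide +kernel)
           (CovZ.badM (by decide +kernel))
           (CovZ.n1 (9280, 23840) (by decide +kernel)
            (CovZ.n2 (9360, 23920) (by decide +kernel)
             (CovZ.subM 8796093022208 (by decide +kernel)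
              (CovZ.n2 (9360, 23840) (by decide +kernel)
               (CovZ.n2 (9320, 23880) (by decide +kernel)
                (CovZ.leaf K2_ok TE_l15243 _)
                (CovZ.leaf K2_ok TE_l19347 _))
               (CovZ.n1 (9400, 23880) (by decide +kernel)
                (CovZ.badM (by decide +kernel))
                (CovZ.leaf K2_ok TE_l15244 _))))
             (CovZ.n1 (9280, 23920) (by decide +kernel)
              (CovZ.leaf K2_ok TE_l15245 _)
              (CovZ.n1 (9320, 23880) (by decide +kernel)
               (CovZ.leaf K2_ok TE_l15246 _)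
               (CovZ.leaf K2_ok TE_l15247 _))))
            (CovZ.n1 (9360, 23760) (by decide +kernel)
             (CovZ.n2 (9280, 23760) (by decide +kernel)
              (CovZ.badM (by decide +kernel))
              (CovZ.badM (by decide +kernel)))
             (CovZ.badM (by decide +kernel)))))))
        (CovZ.n1 (8960, 24000) (by decide +kernel)
         (CovZ.subM 11972986789818226621236265467702198216653918089314481 (by decide +kernel)
          (CovZ.n2 (9120, 24160) (by decide +kernel)
           (CovZ.n2 (9120, 24000) (by decide +kernel)
            (CovZ.leaf K2_ok TE_l15248 _)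
            (CovZ.n1 (9200, 24080) (by decide +kernel)
             (CovZ.leaf K2_ok TE_l15249 _)
             (CovZ.leaf K2_ok TE_l15250 _)))
           (CovZ.n1 (8960, 24160) (by decide +kernel)
            (CovZ.leaf K2_ok TE_l15251 _)
            (CovZ.leaf K2_ok TE_l15252 _))))
         (CovZ.subM 365375409843481586936226894899900879852189778081 (by decide +kernel)
          (CovZ.n1 (9120, 23840) (by decide +kernel)
           (CovZ.n2 (8960, 23840) (by decide +kernel)
            (CovZ.n2 (9040, 23920) (by decide +kernel)
             (CovZ.leaf K2_ok TE_l15253 _)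
             (CovZ.leaf K2_ok TE_l15254 _))
            (CovZ.n1 (9040, 23760) (by decide +kernel)
             (CovZ.n2 (8960, 23760) (by decide +kernel)
              (CovZ.leaf K2_ok TE_l15255 _)
              (CovZ.leaf K2_ok TE_l15256 _))
             (CovZ.n1 (9040, 23840) (by decide +kernel)
              (CovZ.leaf K2_ok TE_l15257 _)
              (CovZ.leaf K2_ok TE_l15258 _))))
           (CovZ.n1 (9120, 24000) (by decide +kernel)
            (CovZ.n2 (9200, 23920) (by decide +kernel)
             (CovZ.n2 (9120, 23920) (by decide +kernel)
              (CovZ.leaf K2_ok TE_l15259 _)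
              (CovZ.leaf K2_ok TE_l15260 _))
             (CovZ.n1 (9200, 24000) (by decide +kernel)
              (CovZ.leaf K2_ok TE_l15261 _)
              (CovZ.leaf K2_ok TE_l15262 _)))
            (CovZ.n1 (9040, 23920) (by decide +kernel)
             (CovZ.leaf K2_ok TE_l15263 _)
             (CovZ.leaf K2_ok TE_l15264 _)))))))
       (CovZ.subM 510755857385306291184316379812031627424 (by decide +kernel)
        (CovZ.n1 (9280, 23360) (by decide +kernel)
         (CovZ.n2 (8960, 23360) (by decide +kernel)
          (CovZ.n2 (9120, 23520) (by decide +kernel)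
           (CovZ.badM (by decide +kernel))
           (CovZ.n1 (8960, 23520) (by decide +kernel)
            (CovZ.n2 (9040, 23600) (by decide +kernel)
             (CovZ.n2 (9040, 23520) (by decide +kernel)
              (CovZ.n2 (9000, 23560) (by decide +kernel)
               (CovZ.badM (by decide +kernel))
               (CovZ.badM (by decide +kernel)))
              (CovZ.badM (by decide +kernel)))
             (CovZ.n1 (8960, 23600) (by decide +kernel)
              (CovZ.n2 (9000, 23640) (by decide +kernel)
               (CovZ.leaf K2_ok TE_l15265 _)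
               (CovZ.leaf K2_ok TE_l15266 _))
              (CovZ.n1 (9000, 23560) (by decide +kernel)
               (CovZ.leaf K2_ok TE_l15267 _)
               (CovZ.leaf K2_ok TE_l15268 _))))
            (CovZ.badM (by decide +kernel))))
          (CovZ.badM (by decide +kernel)))
         (CovZ.n1 (9280, 23680) (by decide +kernel)
          (CovZ.subM 170141183460469231731687444453372461056 (by decide +kernel)
           (CovZ.n2 (9440, 23520) (by decide +kernel)
            (CovZ.n2 (9280, 23520) (by decide +kernel)
             (CovZ.badM (by decide +kernel))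
             (CovZ.badM (by decide +kernel)))
            (CovZ.n1 (9440, 23680) (by decide +kernel)
             (CovZ.n2 (9520, 23600) (by decide +kernel)
              (CovZ.badM (by decide +kernel))
              (CovZ.badM (by decide +kernel)))
             (CovZ.badM (by decide +kernel)))))
          (CovZ.n1 (9120, 23520) (by decide +kernel)
           (CovZ.n2 (9120, 23680) (by decide +kernel)
            (CovZ.n2 (9200, 23600) (by decide +kernel)
             (CovZ.n2 (9120, 23600) (by decide +kernel)
              (CovZ.badM (by decide +kernel))
              (CovZ.badM (by decide +kernel)))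
             (CovZ.badM (by decide +kernel)))
            (CovZ.n1 (9040, 23600) (by decide +kernel)
             (CovZ.n2 (9040, 23680) (by decide +kernel)
              (CovZ.n2 (9080, 23640) (by decide +kernel)
               (CovZ.leaf K2_ok TE_l15269 _)
               (CovZ.leaf K2_ok TE_l15270 _))
              (CovZ.leaf K2_ok TE_l15271 _))
             (CovZ.n1 (9120, 23600) (by decide +kernel)
              (CovZ.badM (by decide +kernel))
              (CovZ.n1 (9080, 23640) (by decide +kernel)
               (CovZ.badM (by decide +kernel))
               (CovZ.leaf K2_ok TE_l19348 _)))))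
           (CovZ.n1 (9280, 23520) (by decide +kernel)
            (CovZ.badM (by decide +kernel))
            (CovZ.n1 (9200, 23600) (by decide +kernel)
             (CovZ.badM (by decide +kernel))
             (CovZ.badM (by decide +kernel)))))))))))))
    (CovZ.topM TE_LL 416852256679988214714821136616680553108652145510055739569 (by decide +kernel) (CovZ.n0 (8960, 24320) (by decide +kernel)
    (CovZ.n2 (7680, 24320) (by decide +kernel)
     (CovZ.n2 (8320, 24960) (by decide +kernel)
      (CovZ.n2 (8320, 24320) (by decide +kernel)
       (CovZ.n2 (8000, 24640) (by decide +kernel)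
        (CovZ.leaf K2_ok TE_l15272 _)
        (CovZ.leaf K2_ok TE_l15273 _))
       (CovZ.n1 (8640, 24640) (by decide +kernel)
        (CovZ.n2 (8640, 24320) (by decide +kernel)
         (CovZ.leaf K2_ok TE_l15274 _)
         (CovZ.n1 (8800, 24480) (by decide +kernel)
          (CovZ.leaf K2_ok TE_l15275 _)
          (CovZ.leaf K2_ok TE_l15276 _)))
        (CovZ.n1 (8320, 24640) (by decide +kernel)
         (CovZ.leaf K2_ok TE_l15277 _)
         (CovZ.leaf K2_ok TE_l15278 _))))
      (CovZ.n1 (7680, 24960) (by decide +kernel)
       (CovZ.n2 (8000, 25280) (by decide +kernel)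
        (CovZ.leaf K2_ok TE_l15279 _)
        (CovZ.leaf K2_ok TE_l15280 _))
       (CovZ.n1 (8000, 24640) (by decide +kernel)
        (CovZ.leaf K2_ok TE_l15281 _)
        (CovZ.leaf K2_ok TE_l15282 _))))
     (CovZ.n1 (8320, 23680) (by decide +kernel)
      (CovZ.n2 (7680, 23680) (by decide +kernel)
       (CovZ.n2 (8000, 24000) (by decide +kernel)
        (CovZ.n2 (8000, 23680) (by decide +kernel)
         (CovZ.leaf K2_ok TE_l15283 _)
         (CovZ.n1 (8160, 23840) (by decide +kernel)
          (CovZ.leaf K2_ok TE_l15284 _)
          (CovZ.leaf K2_ok TE_l15285 _)))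
        (CovZ.n1 (7680, 24000) (by decide +kernel)
         (CovZ.leaf K2_ok TE_l15286 _)
         (CovZ.leaf K2_ok TE_l15287 _)))
       (CovZ.n1 (8000, 23360) (by decide +kernel)
        (CovZ.n2 (7680, 23360) (by decide +kernel)
         (CovZ.n2 (7840, 23520) (by decide +kernel)
          (CovZ.leaf K2_ok TE_l15288 _)
          (CovZ.leaf K2_ok TE_l15289 _))
         (CovZ.n1 (7840, 23200) (by decide +kernel)
          (CovZ.leaf K2_ok TE_l15290 _)
          (CovZ.leaf K2_ok TE_l15291 _)))
        (CovZ.n1 (8000, 23680) (by decide +kernel)
         (CovZ.n2 (8160, 23520) (by decide +kernel)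
          (CovZ.leaf K2_ok TE_l15292 _)
          (CovZ.leaf K2_ok TE_l15293 _))
         (CovZ.n1 (7840, 23520) (by decide +kernel)
          (CovZ.leaf K2_ok TE_l15294 _)
          (CovZ.leaf K2_ok TE_l15295 _)))))
      (CovZ.n1 (8320, 24320) (by decide +kernel)
       (CovZ.n2 (8640, 24000) (by decide +kernel)
        (CovZ.n2 (8320, 24000) (by decide +kernel)
         (CovZ.n2 (8480, 24160) (by decide +kernel)
          (CovZ.leaf K2_ok TE_l15296 _)
          (CovZ.leaf K2_ok TE_l15297 _))
         (CovZ.n1 (8480, 23840) (by decide +kernel)
          (CovZ.leaf K2_ok TE_l15298 _)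
          (CovZ.leaf K2_ok TE_l15299 _)))
        (CovZ.n1 (8640, 24320) (by decide +kernel)
         (CovZ.n2 (8800, 24160) (by decide +kernel)
          (CovZ.leaf K2_ok TE_l15300 _)
          (CovZ.leaf K2_ok TE_l15301 _))
         (CovZ.n1 (8480, 24160) (by decide +kernel)
          (CovZ.leaf K2_ok TE_l15302 _)
          (CovZ.leaf K2_ok TE_l15303 _))))
       (CovZ.n1 (8000, 24000) (by decide +kernel)
        (CovZ.n2 (8000, 24320) (by decide +kernel)
         (CovZ.leaf K2_ok TE_l15304 _)
         (CovZ.leaf K2_ok TE_l15305 _))
        (CovZ.n1 (8320, 24000) (by decide +kernel)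
         (CovZ.n2 (8160, 23840) (by decide +kernel)
          (CovZ.leaf K2_ok TE_l15306 _)
          (CovZ.leaf K2_ok TE_l15307 _))
         (CovZ.leaf K2_ok TE_l15308 _))))))
    (CovZ.n1 (8960, 25600) (by decide +kernel)
     (CovZ.subM 11972986789818226621237533118302425293151502380892337 (by decide +kernel)
      (CovZ.n2 (9600, 24960) (by decide +kernel)
       (CovZ.n2 (8960, 24960) (by decide +kernel)
        (CovZ.n2 (9280, 25280) (by decide +kernel)
         (CovZ.n2 (9280, 24960) (by decide +kernel)
          (CovZ.leaf K2_ok TE_l15309 _)
          (CovZ.n1 (9440, 25120) (by decide +kernel)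
           (CovZ.leaf K2_ok TE_l15310 _)
           (CovZ.leaf K2_ok TE_l15311 _)))
         (CovZ.leaf K2_ok TE_l15312 _))
        (CovZ.n1 (9280, 24640) (by decide +kernel)
         (CovZ.n2 (8960, 24640) (by decide +kernel)
          (CovZ.n2 (9120, 24800) (by decide +kernel)
           (CovZ.leaf K2_ok TE_l15313 _)
           (CovZ.leaf K2_ok TE_l15314 _))
          (CovZ.n1 (9120, 24480) (by decide +kernel)
           (CovZ.leaf K2_ok TE_l15315 _)
           (CovZ.leaf K2_ok TE_l15316 _)))
         (CovZ.n1 (9280, 24960) (by decide +kernel)
          (CovZ.n2 (9440, 24800) (by decide +kernel)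
           (CovZ.leaf K2_ok TE_l15317 _)
           (CovZ.leaf K2_ok TE_l15318 _))
          (CovZ.n1 (9120, 24800) (by decide +kernel)
           (CovZ.leaf K2_ok TE_l15319 _)
           (CovZ.leaf K2_ok TE_l15320 _)))))
       (CovZ.n1 (9600, 25600) (by decide +kernel)
        (CovZ.n2 (9920, 25280) (by decide +kernel)
         (CovZ.n2 (9600, 25280) (by decide +kernel)
          (CovZ.n2 (9760, 25440) (by decide +kernel)
           (CovZ.leaf K2_ok TE_l15321 _)
           (CovZ.leaf K2_ok TE_l15322 _))
          (CovZ.n1 (9760, 25120) (by decide +kernel)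
           (CovZ.leaf K2_ok TE_l15323 _)
           (CovZ.leaf K2_ok TE_l15324 _)))
         (CovZ.n1 (9920, 25600) (by decide +kernel)
          (CovZ.n2 (10080, 25440) (by decide +kernel)
           (CovZ.leaf K2_ok TE_l15325 _)
           (CovZ.leaf K2_ok TE_l15326 _))
          (CovZ.n1 (9760, 25440) (by decide +kernel)
           (CovZ.leaf K2_ok TE_l15327 _)
           (CovZ.leaf K2_ok TE_l15328 _))))
        (CovZ.n1 (9280, 25280) (by decide +kernel)
         (CovZ.n2 (9280, 25600) (by decide +kernel)
          (CovZ.leaf K2_ok TE_l15329 _)
          (CovZ.leaf K2_ok TE_l15330 _))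
         (CovZ.n1 (9600, 25280) (by decide +kernel)
          (CovZ.n2 (9440, 25120) (by decide +kernel)
           (CovZ.leaf K2_ok TE_l15331 _)
           (CovZ.leaf K2_ok TE_l15332 _))
          (CovZ.leaf K2_ok TE_l15333 _))))))
     (CovZ.n1 (8320, 24960) (by decide +kernel)
      (CovZ.n2 (8320, 25600) (by decide +kernel)
       (CovZ.n2 (8640, 25280) (by decide +kernel)
        (CovZ.leaf K2_ok TE_l15334 _)
        (CovZ.leaf K2_ok TE_l15335 _))
       (CovZ.n1 (8000, 25280) (by decide +kernel)
        (CovZ.leaf K2_ok TE_l15336 _)
        (CovZ.leaf K2_ok TE_l15337 _)))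
      (CovZ.n1 (8960, 24960) (by decide +kernel)
       (CovZ.subM 24531901640644039960354789967523249363192959865132482737 (by decide +kernel)
        (CovZ.n2 (8640, 24640) (by decide +kernel)
         (CovZ.n2 (8640, 24960) (by decide +kernel)
          (CovZ.leaf K2_ok TE_l15338 _)
          (CovZ.leaf K2_ok TE_l15339 _))
         (CovZ.n1 (8960, 24640) (by decide +kernel)
          (CovZ.n2 (8800, 24480) (by decide +kernel)
           (CovZ.leaf K2_ok TE_l15340 _)
           (CovZ.leaf K2_ok TE_l15341 _))
          (CovZ.leaf K2_ok TE_l15342 _))))
       (CovZ.n1 (8640, 25280) (by decide +kernel)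
        (CovZ.leaf K2_ok TE_l15343 _)
        (CovZ.leaf K2_ok TE_l15344 _)))))))

theorem TE_s8_4 : SqZ TE_M TE_L [0, 7, 6, 1] (-10240) 12800 2560 8 4 :=
  SqZ.mk (a := 10240) (b := 12800) (c := 23040) (d := 25600) (by norm_num) (by norm_num) (by norm_num) (by norm_num)
    (CovZ.topM TE_LL 16 (by decide +kernel) (CovZ.n2 (11520, 24320) (by decide +kernel)
    (CovZ.badM (by decide +kernel))
    (CovZ.n1 (11520, 23040) (by decide +kernel)
     (CovZ.n2 (10880, 23680) (by decide +kernel)
      (CovZ.badM (by decide +kernel))
      (CovZ.n1 (10880, 23040) (by decide +kernel)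
       (CovZ.n2 (10560, 23360) (by decide +kernel)
        (CovZ.badM (by decide +kernel))
        (CovZ.badM (by decide +kernel)))
       (CovZ.badM (by decide +kernel))))
     (CovZ.badM (by decide +kernel)))))
    (CovZ.topM TE_LL 11972986788424430046328101521356214671683094795321521 (by decide +kernel) (CovZ.n0 (11520, 24320) (by decide +kernel)
    TE_u37
    TE_u38))

theorem TE_s9_4 : SqZ TE_M TE_L [0, 7, 6, 1] (-10240) 12800 2560 9 4 :=
  SqZ.mk (a := 12800) (b := 15360) (c := 23040) (d := 25600) (by norm_num) (by norm_num) (by norm_num) (by norm_num)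
    (CovZ.topM TE_LL 0 (by decide +kernel) (CovZ.badM (by decide +kernel)))
    (CovZ.topM TE_LL 0 (by decide +kernel) (CovZ.badM (by decide +kernel)))

theorem TE_s10_4 : SqZ TE_M TE_L [0, 7, 6, 1] (-10240) 12800 2560 10 4 :=
  SqZ.mk (a := 15360) (b := 17920) (c := 23040) (d := 25600) (by norm_num) (by norm_num) (by norm_num) (by norm_num)
    (CovZ.topM TE_LL 0 (by decide +kernel) (CovZ.badM (by decide +kernel)))
    (CovZ.topM TE_LL 0 (by decide +kernel) (CovZ.badM (by decide +kernel)))

theorem TE_s0_5 : SqZ TE_M TE_L [0, 7, 6, 1] (-10240) 12800 2560 0 5 :=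
  SqZ.mk (a := (-10240)) (b := (-7680)) (c := 25600) (d := 28160) (by norm_num) (by norm_num) (by norm_num) (by norm_num)
    (CovZ.topM TE_LL 2788955608552572250668994527165727044009984 (by decide +kernel) (CovZ.n2 (-8960, 26880) (by decide +kernel)
    (CovZ.n2 (-7680, 26880) (by decide +kernel)
     (CovZ.badM (by decide +kernel))
     (CovZ.n1 (-8320, 27520) (by decide +kernel)
      (CovZ.n2 (-7680, 27520) (by decide +kernel)
       (CovZ.badM (by decide +kernel))
       (CovZ.badM (by decide +kernel)))
      (CovZ.badM (by decide +kernel))))
    (CovZ.badM (by decide +kernel))))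
    (CovZ.topM TE_LL 2788955608552572250668994527165727044009984 (by decide +kernel) (CovZ.n0 (-8960, 26880) (by decide +kernel)
    (CovZ.n2 (-10240, 26880) (by decide +kernel)
     (CovZ.n2 (-9600, 27520) (by decide +kernel)
      (CovZ.badM (by decide +kernel))
      (CovZ.n1 (-10240, 27520) (by decide +kernel)
       (CovZ.badM (by decide +kernel))
       (CovZ.badM (by decide +kernel))))
     (CovZ.badM (by decide +kernel)))
    (CovZ.n1 (-8960, 28160) (by decide +kernel)
     (CovZ.n2 (-8320, 27520) (by decide +kernel)
      (CovZ.n2 (-8960, 27520) (by decide +kernel)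
       (CovZ.badM (by decide +kernel))
       (CovZ.badM (by decide +kernel)))
      (CovZ.badM (by decide +kernel)))
     (CovZ.n1 (-9600, 27520) (by decide +kernel)
      (CovZ.badM (by decide +kernel))
      (CovZ.n1 (-8960, 27520) (by decide +kernel)
       (CovZ.badM (by decide +kernel))
       (CovZ.badM (by decide +kernel)))))))

theorem TE_s1_5 : SqZ TE_M TE_L [0, 7, 6, 1] (-10240) 12800 2560 1 5 :=
  SqZ.mk (a := (-7680)) (b := (-5120)) (c := 25600) (d := 28160) (by norm_num) (by norm_num) (by norm_num) (by norm_num)
    (CovZ.topM TE_LL 2788955618937168443618728354987269500698624 (by decide +kernel) (CovZ.n2 (-6400, 26880) (by decide +kernel)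
    (CovZ.n2 (-5120, 26880) (by decide +kernel)
     (CovZ.badM (by decide +kernel))
     (CovZ.subM 2788954279324576465753121623358666763665408 (by decide +kernel)
      (CovZ.n1 (-5760, 27520) (by decide +kernel)
       (CovZ.n2 (-5120, 27520) (by decide +kernel)
        (CovZ.badM (by decide +kernel))
        (CovZ.n1 (-5440, 27840) (by decide +kernel)
         (CovZ.n2 (-5120, 27840) (by decide +kernel)
          (CovZ.badM (by decide +kernel))
          (CovZ.badM (by decide +kernel)))
         (CovZ.badM (by decide +kernel))))
       (CovZ.badM (by decide +kernel)))))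
    (CovZ.badM (by decide +kernel))))
    (CovZ.topM TE_LL 2788955608552572250668994527165727044009984 (by decide +kernel) (CovZ.n0 (-6400, 26880) (by decide +kernel)
    (CovZ.n2 (-7680, 26880) (by decide +kernel)
     (CovZ.n2 (-7040, 27520) (by decide +kernel)
      (CovZ.badM (by decide +kernel))
      (CovZ.n1 (-7680, 27520) (by decide +kernel)
       (CovZ.badM (by decide +kernel))
       (CovZ.badM (by decide +kernel))))
     (CovZ.badM (by decide +kernel)))
    (CovZ.n1 (-6400, 28160) (by decide +kernel)
     (CovZ.n2 (-5760, 27520) (by decide +kernel)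
      (CovZ.n2 (-6400, 27520) (by decide +kernel)
       (CovZ.badM (by decide +kernel))
       (CovZ.badM (by decide +kernel)))
      (CovZ.badM (by decide +kernel)))
     (CovZ.n1 (-7040, 27520) (by decide +kernel)
      (CovZ.badM (by decide +kernel))
      (CovZ.n1 (-6400, 27520) (by decide +kernel)
       (CovZ.badM (by decide +kernel))
       (CovZ.badM (by decide +kernel)))))))

theorem TE_s2_5 : SqZ TE_M TE_L [0, 7, 6, 1] (-10240) 12800 2560 2 5 :=
  SqZ.mk (a := (-5120)) (b := (-2560)) (c := 25600) (d := 28160) (by norm_num) (by norm_num) (by norm_num) (by norm_num)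
    (CovZ.topM TE_LL 731221923280956440073821594444615782456226742272 (by decide +kernel) (CovZ.n2 (-3840, 26880) (by decide +kernel)
    (CovZ.n2 (-2560, 26880) (by decide +kernel)
     (CovZ.n2 (-3200, 26240) (by decide +kernel)
      (CovZ.badM (by decide +kernel))
      (CovZ.n1 (-2560, 26240) (by decide +kernel)
       (CovZ.badM (by decide +kernel))
       (CovZ.badM (by decide +kernel))))
     (CovZ.subM 2788955618937169681558767640367544399822848 (by decide +kernel)
      (CovZ.n1 (-3200, 27520) (by decide +kernel)
       (CovZ.n2 (-2560, 27520) (by decide +kernel)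
        (CovZ.n2 (-2880, 27200) (by decide +kernel)
         (CovZ.badM (by decide +kernel))
         (CovZ.badM (by decide +kernel)))
        (CovZ.subM 2788954279284011646545818282510772261093376 (by decide +kernel)
         (CovZ.n1 (-2880, 27840) (by decide +kernel)
          (CovZ.n2 (-2560, 27840) (by decide +kernel)
           (CovZ.n2 (-2720, 27680) (by decide +kernel)
            (CovZ.badM (by decide +kernel))
            (CovZ.badM (by decide +kernel)))
           (CovZ.badM (by decide +kernel)))
          (CovZ.n1 (-2880, 27520) (by decide +kernel)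
           (CovZ.n2 (-3040, 27680) (by decide +kernel)
            (CovZ.n2 (-2880, 27680) (by decide +kernel)
             (CovZ.badM (by decide +kernel))
             (CovZ.badM (by decide +kernel)))
            (CovZ.badM (by decide +kernel)))
           (CovZ.n1 (-2720, 27680) (by decide +kernel)
            (CovZ.badM (by decide +kernel))
            (CovZ.n1 (-2880, 27680) (by decide +kernel)
             (CovZ.badM (by decide +kernel))
             (CovZ.badM (by decide +kernel))))))))
       (CovZ.subM 2475880078570760549798248448 (by decide +kernel)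
        (CovZ.n1 (-3200, 26880) (by decide +kernel)
         (CovZ.n2 (-3520, 27200) (by decide +kernel)
          (CovZ.n2 (-3200, 27200) (by decide +kernel)
           (CovZ.badM (by decide +kernel))
           (CovZ.badM (by decide +kernel)))
          (CovZ.badM (by decide +kernel)))
         (CovZ.n1 (-2880, 27200) (by decide +kernel)
          (CovZ.badM (by decide +kernel))
          (CovZ.n1 (-3200, 27200) (by decide +kernel)
           (CovZ.badM (by decide +kernel))
           (CovZ.badM (by decide +kernel)))))))))
    (CovZ.n1 (-3840, 25600) (by decide +kernel)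
     (CovZ.badM (by decide +kernel))
     (CovZ.n1 (-3200, 26240) (by decide +kernel)
      (CovZ.badM (by decide +kernel))
      (CovZ.badM (by decide +kernel))))))
    (CovZ.topM TE_LL 2788955618937169681558767640367544399822848 (by decide +kernel) (CovZ.n0 (-3840, 26880) (by decide +kernel)
    (CovZ.n2 (-5120, 26880) (by decide +kernel)
     (CovZ.subM 2788955608552572250668994527165727044009984 (by decide +kernel)
      (CovZ.n2 (-4480, 27520) (by decide +kernel)
       (CovZ.badM (by decide +kernel))
       (CovZ.n1 (-5120, 27520) (by decide +kernel)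
        (CovZ.n2 (-4800, 27840) (by decide +kernel)
         (CovZ.badM (by decide +kernel))
         (CovZ.n1 (-5120, 27840) (by decide +kernel)
          (CovZ.badM (by decide +kernel))
          (CovZ.badM (by decide +kernel))))
        (CovZ.badM (by decide +kernel)))))
     (CovZ.badM (by decide +kernel)))
    (CovZ.subM 2788955608552572250668994527165727044009984 (by decide +kernel)
     (CovZ.n1 (-3840, 28160) (by decide +kernel)
      (CovZ.n2 (-3200, 27520) (by decide +kernel)
       (CovZ.n2 (-3840, 27520) (by decide +kernel)
        (CovZ.n2 (-3520, 27840) (by decide +kernel)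
         (CovZ.n2 (-3520, 27520) (by decide +kernel)
          (CovZ.badM (by decide +kernel))
          (CovZ.n1 (-3360, 27680) (by decide +kernel)
           (CovZ.badM (by decide +kernel))
           (CovZ.badM (by decide +kernel))))
         (CovZ.n1 (-3840, 27840) (by decide +kernel)
          (CovZ.badM (by decide +kernel))
          (CovZ.badM (by decide +kernel))))
        (CovZ.badM (by decide +kernel)))
       (CovZ.n1 (-3200, 28160) (by decide +kernel)
        (CovZ.n2 (-2880, 27840) (by decide +kernel)
         (CovZ.n2 (-3200, 27840) (by decide +kernel)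
          (CovZ.badM (by decide +kernel))
          (CovZ.n1 (-3040, 27680) (by decide +kernel)
           (CovZ.n2 (-3200, 27680) (by decide +kernel)
            (CovZ.badM (by decide +kernel))
            (CovZ.badM (by decide +kernel)))
           (CovZ.badM (by decide +kernel))))
         (CovZ.badM (by decide +kernel)))
        (CovZ.n1 (-3520, 27840) (by decide +kernel)
         (CovZ.badM (by decide +kernel))
         (CovZ.n1 (-3200, 27840) (by decide +kernel)
          (CovZ.n2 (-3360, 27680) (by decide +kernel)
           (CovZ.badM (by decide +kernel))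
           (CovZ.n1 (-3200, 27680) (by decide +kernel)
            (CovZ.badM (by decide +kernel))
            (CovZ.badM (by decide +kernel))))
          (CovZ.badM (by decide +kernel))))))
      (CovZ.n1 (-4480, 27520) (by decide +kernel)
       (CovZ.n2 (-4480, 28160) (by decide +kernel)
        (CovZ.n2 (-4160, 27840) (by decide +kernel)
         (CovZ.n2 (-4480, 27840) (by decide +kernel)
          (CovZ.badM (by decide +kernel))
          (CovZ.badM (by decide +kernel)))
         (CovZ.badM (by decide +kernel)))
        (CovZ.n1 (-4800, 27840) (by decide +kernel)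
         (CovZ.badM (by decide +kernel))
         (CovZ.n1 (-4480, 27840) (by decide +kernel)
          (CovZ.badM (by decide +kernel))
          (CovZ.badM (by decide +kernel)))))
       (CovZ.n1 (-3840, 27520) (by decide +kernel)
        (CovZ.badM (by decide +kernel))
        (CovZ.n1 (-4160, 27840) (by decide +kernel)
         (CovZ.n2 (-3840, 27840) (by decide +kernel)
          (CovZ.badM (by decide +kernel))
          (CovZ.badM (by decide +kernel)))
         (CovZ.badM (by decide +kernel)))))))))

theorem TE_s3_5 : SqZ TE_M TE_L [0, 7, 6, 1] (-10240) 12800 2560 3 5 :=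
  SqZ.mk (a := (-2560)) (b := 0) (c := 25600) (d := 28160) (by norm_num) (by norm_num) (by norm_num) (by norm_num)
    (CovZ.topM TE_LL 25122199407995357248419059763261755272496521352250489044992 (by decide +kernel) (CovZ.n2 (-1280, 26880) (by decide +kernel)
    (CovZ.n2 (0, 26880) (by decide +kernel)
     (CovZ.badM (by decide +kernel))
     (CovZ.n1 (-640, 27520) (by decide +kernel)
      TE_u41
      TE_u42))
    (CovZ.badM (by decide +kernel))))
    (CovZ.topM TE_LL 25122199407994643624572706783321226129511796604682297671680 (by decide +kernel) (CovZ.n0 (-1280, 26880) (by decide +kernel)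
    TE_u49
    TE_u50))

theorem TE_s4_5 : SqZ TE_M TE_L [0, 7, 6, 1] (-10240) 12800 2560 4 5 :=
  SqZ.mk (a := 0) (b := 2560) (c := 25600) (d := 28160) (by norm_num) (by norm_num) (by norm_num) (by norm_num)
    (CovZ.topM TE_LL 1817346016444113885856116912455089456329613227224654286540630 (by decide +kernel) (CovZ.n2 (1280, 26880) (by decide +kernel)
    (CovZ.n2 (2560, 26880) (by decide +kernel)
     (CovZ.subM 1810944000319799452907959681637671759591421004847668236241744 (by decide +kernel)
      (CovZ.n2 (1920, 26240) (by decide +kernel)
       (CovZ.n2 (1920, 26880) (by decide +kernel)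
        (CovZ.subM 200867261521653166153929814085871842223359293501448659714816 (by decide +kernel)
         (CovZ.n2 (2240, 26560) (by decide +kernel)
          (CovZ.subM 170141183460469231731687303990762012672 (by decide +kernel)
           (CovZ.n2 (1920, 26560) (by decide +kernel)
            (CovZ.n2 (2080, 26720) (by decide +kernel)
             (CovZ.badM (by decide +kernel))
             (CovZ.n1 (1920, 26720) (by decide +kernel)
              (CovZ.n2 (2000, 26800) (by decide +kernel)
               (CovZ.badM (by decide +kernel))
               (CovZ.badM (by decide +kernel)))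
              (CovZ.badM (by decide +kernel))))
            (CovZ.badM (by decide +kernel))))
          (CovZ.n1 (2240, 26880) (by decide +kernel)
           (CovZ.n2 (2400, 26720) (by decide +kernel)
            (CovZ.subM 200867261518684490950378826290904153470229102791879926219264 (by decide +kernel)
             (CovZ.n2 (2240, 26720) (by decide +kernel)
              (CovZ.n2 (2320, 26800) (by decide +kernel)
               (CovZ.n2 (2320, 26720) (by decide +kernel)
                (CovZ.subM 170141194235518676523950381661289447936 (by decide +kernel)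
                 (CovZ.n2 (2280, 26760) (by decide +kernel)
                  (CovZ.n2 (2320, 26760) (by decide +kernel)
                   (CovZ.n2 (2300, 26740) (by decide +kernel)
                    (CovZ.leaf K2_ok TE_l3177 _)
                    (CovZ.leaf K2_ok TE_l3178 _))
                   (CovZ.leaf K2_ok TE_l3179 _))
                  (CovZ.n1 (2280, 26720) (by decide +kernel)
                   (CovZ.badM (by decide +kernel))
                   (CovZ.n1 (2300, 26740) (by decide +kernel)
                    (CovZ.leaf K2_ok TE_l3180 _)
                    (CovZ.leaf K2_ok TE_l3181 _)))))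
                (CovZ.n1 (2360, 26760) (by decide +kernel)
                 (CovZ.n2 (2360, 26720) (by decide +kernel)
                  (CovZ.leaf K2_ok TE_l3182 _)
                  (CovZ.leaf K2_ok TE_l3183 _))
                 (CovZ.n1 (2320, 26760) (by decide +kernel)
                  (CovZ.n2 (2340, 26780) (by decide +kernel)
                   (CovZ.leaf K2_ok TE_l3184 _)
                   (CovZ.leaf K2_ok TE_l3185 _))
                  (CovZ.leaf K2_ok TE_l3186 _))))
               (CovZ.subM 10775049444753063746788772545024 (by decide +kernel)
                (CovZ.n1 (2240, 26800) (by decide +kernel)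
                 (CovZ.n2 (2280, 26840) (by decide +kernel)
                  (CovZ.n2 (2280, 26800) (by decide +kernel)
                   (CovZ.badM (by decide +kernel))
                   (CovZ.n1 (2300, 26820) (by decide +kernel)
                    (CovZ.leaf K2_ok TE_l3187 _)
                    (CovZ.leaf K2_ok TE_l3188 _)))
                  (CovZ.badM (by decide +kernel)))
                 (CovZ.n1 (2280, 26760) (by decide +kernel)
                  (CovZ.badM (by decide +kernel))
                  (CovZ.n1 (2280, 26800) (by decide +kernel)
                   (CovZ.n2 (2300, 26780) (by decide +kernel)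
                    (CovZ.leaf K2_ok TE_l3189 _)
                    (CovZ.leaf K2_ok TE_l3190 _))
                   (CovZ.badM (by decide +kernel)))))))
              (CovZ.n1 (2320, 26640) (by decide +kernel)
               (CovZ.subM 170141194235518676521644538652075753984 (by decide +kernel)
                (CovZ.n2 (2240, 26640) (by decide +kernel)
                 (CovZ.n2 (2280, 26680) (by decide +kernel)
                  (CovZ.n2 (2280, 26640) (by decide +kernel)
                   (CovZ.n2 (2260, 26660) (by decide +kernel)
                    (CovZ.leaf K2_ok TE_l17195 _)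
                    (CovZ.badM (by decide +kernel)))
                   (CovZ.n1 (2300, 26660) (by decide +kernel)
                    (CovZ.leaf K2_ok TE_l3192 _)
                    (CovZ.leaf K2_ok TE_l3193 _)))
                  (CovZ.badM (by decide +kernel)))
                 (CovZ.n1 (2280, 26600) (by decide +kernel)
                  (CovZ.badM (by decide +kernel))
                  (CovZ.n1 (2280, 26640) (by decide +kernel)
                   (CovZ.n2 (2300, 26620) (by decide +kernel)
                    (CovZ.leaf K2_ok TE_l3194 _)
                    (CovZ.leaf K2_ok TE_l3195 _))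
                   (CovZ.badM (by decide +kernel))))))
               (CovZ.n1 (2320, 26720) (by decide +kernel)
                (CovZ.n2 (2360, 26680) (by decide +kernel)
                 (CovZ.n2 (2320, 26680) (by decide +kernel)
                  (CovZ.leaf K2_ok TE_l3196 _)
                  (CovZ.leaf K2_ok TE_l3197 _))
                 (CovZ.n1 (2360, 26720) (by decide +kernel)
                  (CovZ.leaf K2_ok TE_l3198 _)
                  (CovZ.leaf K2_ok TE_l3199 _)))
                (CovZ.subM 170141194235518676521644538652075753984 (by decide +kernel)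
                 (CovZ.n1 (2280, 26680) (by decide +kernel)
                  (CovZ.n2 (2280, 26720) (by decide +kernel)
                   (CovZ.n2 (2300, 26700) (by decide +kernel)
                    (CovZ.leaf K2_ok TE_l3200 _)
                    (CovZ.leaf K2_ok TE_l3201 _))
                   (CovZ.badM (by decide +kernel)))
                  (CovZ.n1 (2320, 26680) (by decide +kernel)
                   (CovZ.n2 (2300, 26660) (by decide +kernel)
                    (CovZ.leaf K2_ok TE_l3203 _)
                    (CovZ.leaf K2_ok TE_l3204 _))
                   (CovZ.n1 (2300, 26700) (by decide +kernel)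
                    (CovZ.leaf K2_ok TE_l3205 _)
                    (CovZ.leaf K2_ok TE_l3206 _)))))))))
            (CovZ.n1 (2400, 26880) (by decide +kernel)
             (CovZ.n2 (2480, 26800) (by decide +kernel)
              (CovZ.n2 (2400, 26800) (by decide +kernel)
               (CovZ.n2 (2440, 26840) (by decide +kernel)
                (CovZ.leaf K2_ok TE_l3207 _)
                (CovZ.leaf K2_ok TE_l3208 _))
               (CovZ.n1 (2440, 26760) (by decide +kernel)
                (CovZ.leaf K2_ok TE_l3209 _)
                (CovZ.leaf K2_ok TE_l3210 _)))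
              (CovZ.n1 (2480, 26880) (by decide +kernel)
               (CovZ.leaf K2_ok TE_l3211 _)
               (CovZ.n1 (2440, 26840) (by decide +kernel)
                (CovZ.leaf K2_ok TE_l3212 _)
                (CovZ.leaf K2_ok TE_l3213 _))))
             (CovZ.subM 200867261518684490950378826290904153470229102791879942996480 (by decide +kernel)
              (CovZ.n1 (2320, 26800) (by decide +kernel)
               (CovZ.n2 (2320, 26880) (by decide +kernel)
                (CovZ.n2 (2360, 26840) (by decide +kernel)
                 (CovZ.n2 (2320, 26840) (by decide +kernel)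
                  (CovZ.leaf K2_ok TE_l3214 _)
                  (CovZ.leaf K2_ok TE_l3215 _))
                 (CovZ.n1 (2360, 26880) (by decide +kernel)
                  (CovZ.leaf K2_ok TE_l3216 _)
                  (CovZ.leaf K2_ok TE_l3217 _)))
                (CovZ.subM 10775049444753063746788789322240 (by decide +kernel)
                 (CovZ.n1 (2280, 26840) (by decide +kernel)
                  (CovZ.n2 (2280, 26880) (by decide +kernel)
                   (CovZ.n2 (2300, 26860) (by decide +kernel)
                    (CovZ.leaf K2_ok TE_l3218 _)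
                    (CovZ.leaf K2_ok TE_l3219 _))
                   (CovZ.badM (by decide +kernel)))
                  (CovZ.n1 (2320, 26840) (by decide +kernel)
                   (CovZ.n2 (2300, 26820) (by decide +kernel)
                    (CovZ.leaf K2_ok TE_l3220 _)
                    (CovZ.leaf K2_ok TE_l3221 _))
                   (CovZ.leaf K2_ok TE_l3222 _)))))
               (CovZ.n1 (2400, 26800) (by decide +kernel)
                (CovZ.n2 (2360, 26760) (by decide +kernel)
                 (CovZ.n2 (2360, 26800) (by decide +kernel)
                  (CovZ.leaf K2_ok TE_l3223 _)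
                  (CovZ.n1 (2340, 26780) (by decide +kernel)
                   (CovZ.leaf K2_ok TE_l3224 _)
                   (CovZ.leaf K2_ok TE_l3225 _)))
                 (CovZ.leaf K2_ok TE_l3226 _))
                (CovZ.n1 (2360, 26840) (by decide +kernel)
                 (CovZ.leaf K2_ok TE_l3227 _)
                 (CovZ.n1 (2360, 26800) (by decide +kernel)
                  (CovZ.leaf K2_ok TE_l3228 _)
                  (CovZ.leaf K2_ok TE_l3229 _))))))))
           (CovZ.subM 170141183460469231733993146999975706624 (by decide +kernel)
            (CovZ.n1 (2080, 26720) (by decide +kernel)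
             (CovZ.n2 (2080, 26880) (by decide +kernel)
              (CovZ.badM (by decide +kernel))
              (CovZ.n1 (2000, 26800) (by decide +kernel)
               (CovZ.badM (by decide +kernel))
               (CovZ.badM (by decide +kernel))))
             (CovZ.n1 (2240, 26720) (by decide +kernel)
              (CovZ.n2 (2160, 26640) (by decide +kernel)
               (CovZ.badM (by decide +kernel))
               (CovZ.n1 (2240, 26640) (by decide +kernel)
                (CovZ.badM (by decide +kernel))
                (CovZ.badM (by decide +kernel))))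
              (CovZ.badM (by decide +kernel))))))))
        (CovZ.subM 1606938140039961579660015739737851799416526969954262849683456 (by decide +kernel)
         (CovZ.n1 (1600, 26560) (by decide +kernel)
          (CovZ.n2 (1600, 26880) (by decide +kernel)
           (CovZ.badM (by decide +kernel))
           (CovZ.n1 (1440, 26720) (by decide +kernel)
            (CovZ.badM (by decide +kernel))
            (CovZ.badM (by decide +kernel))))
          (CovZ.n1 (1920, 26560) (by decide +kernel)
           (CovZ.badM (by decide +kernel))
           (CovZ.n1 (1760, 26720) (by decide +kernel)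
            (CovZ.n2 (1920, 26720) (by decide +kernel)
             (CovZ.badM (by decide +kernel))
             (CovZ.badM (by decide +kernel)))
            (CovZ.badM (by decide +kernel)))))))
       (CovZ.n1 (2560, 26240) (by decide +kernel)
        TE_u51
        TE_u52)))
     (CovZ.n1 (1920, 27520) (by decide +kernel)
      TE_u61
      TE_u62))
    (CovZ.subM 1810943955425346479788648190485811755532540681397731244115984 (by decide +kernel)
     (CovZ.n1 (1280, 25600) (by decide +kernel)
      (CovZ.subM 1606938140045807586209339351410666538747392102032886579855360 (by decide +kernel)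
       (CovZ.n2 (640, 26240) (by decide +kernel)
        (CovZ.n2 (1280, 26240) (by decide +kernel)
         (CovZ.badM (by decide +kernel))
         (CovZ.n1 (960, 26560) (by decide +kernel)
          (CovZ.n2 (1280, 26560) (by decide +kernel)
           (CovZ.n2 (1120, 26400) (by decide +kernel)
            (CovZ.badM (by decide +kernel))
            (CovZ.badM (by decide +kernel)))
           (CovZ.n1 (1120, 26720) (by decide +kernel)
            (CovZ.badM (by decide +kernel))
            (CovZ.badM (by decide +kernel))))
          (CovZ.n1 (960, 26240) (by decide +kernel)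
           (CovZ.badM (by decide +kernel))
           (CovZ.n1 (1120, 26400) (by decide +kernel)
            (CovZ.badM (by decide +kernel))
            (CovZ.badM (by decide +kernel))))))
        (CovZ.badM (by decide +kernel))))
      (CovZ.n1 (1920, 26240) (by decide +kernel)
       (CovZ.subM 5986316415500956506339095888518131722379249777117184 (by decide +kernel)
        (CovZ.n2 (1920, 25600) (by decide +kernel)
         (CovZ.badM (by decide +kernel))
         (CovZ.n1 (2240, 25920) (by decide +kernel)
          (CovZ.subM 5708993493082774931374275655329073239395665920 (by decide +kernel)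
           (CovZ.n2 (2240, 25600) (by decide +kernel)
            (CovZ.badM (by decide +kernel))
            (CovZ.n1 (2400, 25760) (by decide +kernel)
             (CovZ.subM 5708990770823839524233143877797980545530986496 (by decide +kernel)
              (CovZ.n2 (2400, 25600) (by decide +kernel)
               (CovZ.badM (by decide +kernel))
               (CovZ.n1 (2480, 25680) (by decide +kernel)
                (CovZ.badM (by decide +kernel))
                (CovZ.n1 (2400, 25680) (by decide +kernel)
                 (CovZ.n2 (2440, 25720) (by decide +kernel)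
                  (CovZ.badM (by decide +kernel))
                  (CovZ.badM (by decide +kernel)))
                 (CovZ.badM (by decide +kernel))))))
             (CovZ.badM (by decide +kernel)))))
          (CovZ.badM (by decide +kernel)))))
       (CovZ.subM 1606938140045807586209339351410666538747392102032886579855360 (by decide +kernel)
        (CovZ.n1 (1280, 26240) (by decide +kernel)
         (CovZ.n2 (1600, 26560) (by decide +kernel)
          (CovZ.n2 (1600, 26240) (by decide +kernel)
           (CovZ.n2 (1440, 26400) (by decide +kernel)
            (CovZ.badM (by decide +kernel))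
            (CovZ.badM (by decide +kernel)))
           (CovZ.badM (by decide +kernel)))
          (CovZ.n1 (1280, 26560) (by decide +kernel)
           (CovZ.n2 (1440, 26720) (by decide +kernel)
            (CovZ.badM (by decide +kernel))
            (CovZ.badM (by decide +kernel)))
           (CovZ.n1 (1440, 26400) (by decide +kernel)
            (CovZ.badM (by decide +kernel))
            (CovZ.badM (by decide +kernel)))))
         (CovZ.badM (by decide +kernel)))))))))
    (CovZ.topM TE_LL 20280132307268184390925804030951429790010920261603667955155526 (by decide +kernel) (CovZ.n0 (1280, 26880) (by decide +kernel)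
    (CovZ.subM 25171239265303065691886526868130565166962616814519069966336 (by decide +kernel)
     (CovZ.n2 (0, 26880) (by decide +kernel)
      (CovZ.n2 (640, 27520) (by decide +kernel)
       (CovZ.subM 5846006549323611672814739331455427888982435823616 (by decide +kernel)
        (CovZ.n2 (640, 26880) (by decide +kernel)
         (CovZ.n2 (320, 27200) (by decide +kernel)
          (CovZ.n2 (640, 27200) (by decide +kernel)
           (CovZ.n2 (480, 27040) (by decide +kernel)
            (CovZ.n2 (480, 27200) (by decide +kernel)
             (CovZ.n2 (560, 27120) (by decide +kernel)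
              (CovZ.badM (by decide +kernel))
              (CovZ.badM (by decide +kernel)))
             (CovZ.badM (by decide +kernel)))
            (CovZ.n1 (640, 27040) (by decide +kernel)
             (CovZ.badM (by decide +kernel))
             (CovZ.n1 (560, 27120) (by decide +kernel)
              (CovZ.badM (by decide +kernel))
              (CovZ.badM (by decide +kernel)))))
           (CovZ.n1 (480, 27360) (by decide +kernel)
            (CovZ.badM (by decide +kernel))
            (CovZ.n1 (480, 27200) (by decide +kernel)
             (CovZ.n2 (400, 27280) (by decide +kernel)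
              (CovZ.badM (by decide +kernel))
              (CovZ.badM (by decide +kernel)))
             (CovZ.badM (by decide +kernel)))))
          (CovZ.badM (by decide +kernel)))
         (CovZ.n1 (960, 27200) (by decide +kernel)
          (CovZ.n2 (960, 26880) (by decide +kernel)
           (CovZ.n2 (800, 27040) (by decide +kernel)
            (CovZ.badM (by decide +kernel))
            (CovZ.badM (by decide +kernel)))
           (CovZ.badM (by decide +kernel)))
          (CovZ.n1 (640, 27200) (by decide +kernel)
           (CovZ.badM (by decide +kernel))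
           (CovZ.n1 (800, 27040) (by decide +kernel)
            (CovZ.n2 (640, 27040) (by decide +kernel)
             (CovZ.badM (by decide +kernel))
             (CovZ.badM (by decide +kernel)))
            (CovZ.badM (by decide +kernel)))))))
       (CovZ.n1 (0, 27520) (by decide +kernel)
        (CovZ.n2 (320, 27840) (by decide +kernel)
         TE_u63
         TE_u64)
        (CovZ.subM 5846720173169985421942702613178817692250947977216 (by decide +kernel)
         (CovZ.n1 (320, 27200) (by decide +kernel)
          (CovZ.n2 (0, 27200) (by decide +kernel)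
           (CovZ.n2 (160, 27360) (by decide +kernel)
            (CovZ.badM (by decide +kernel))
            (CovZ.n1 (0, 27360) (by decide +kernel)
             (CovZ.n2 (80, 27440) (by decide +kernel)
              (CovZ.n2 (80, 27360) (by decide +kernel)
               (CovZ.n2 (40, 27400) (by decide +kernel)
                (CovZ.n2 (80, 27400) (by decide +kernel)
                 (CovZ.badM (by decide +kernel))
                 (CovZ.n1 (60, 27420) (by decide +kernel)
                  (CovZ.leaf K2_ok TE_l17293 _)
                  (CovZ.badM (by decide +kernel))))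
                (CovZ.badM (by decide +kernel)))
               (CovZ.n1 (120, 27400) (by decide +kernel)
                (CovZ.badM (by decide +kernel))
                (CovZ.n1 (80, 27400) (by decide +kernel)
                 (CovZ.n2 (100, 27420) (by decide +kernel)
                  (CovZ.badM (by decide +kernel))
                  (CovZ.leaf K2_ok TE_l17294 _))
                 (CovZ.badM (by decide +kernel)))))
              (CovZ.n1 (0, 27440) (by decide +kernel)
               (CovZ.n2 (40, 27480) (by decide +kernel)
                (CovZ.n2 (40, 27440) (by decide +kernel)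
                 (CovZ.leaf K2_ok TE_l17295 _)
                 (CovZ.n1 (60, 27460) (by decide +kernel)
                  (CovZ.leaf K2_ok TE_l17296 _)
                  (CovZ.leaf K2_ok TE_l17297 _)))
                (CovZ.n1 (0, 27480) (by decide +kernel)
                 (CovZ.n2 (20, 27500) (by decide +kernel)
                  (CovZ.leaf K2_ok TE_l17298 _)
                  (CovZ.leaf K2_ok TE_l17299 _))
                 (CovZ.leaf K2_ok TE_l17300 _)))
               (CovZ.n1 (40, 27400) (by decide +kernel)
                (CovZ.badM (by decide +kernel))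
                (CovZ.n1 (40, 27440) (by decide +kernel)
                 (CovZ.n2 (60, 27420) (by decide +kernel)
                  (CovZ.badM (by decide +kernel))
                  (CovZ.leaf K2_ok TE_l17301 _))
                 (CovZ.badM (by decide +kernel))))))
             (CovZ.badM (by decide +kernel))))
           (CovZ.badM (by decide +kernel)))
          (CovZ.n1 (320, 27520) (by decide +kernel)
           (CovZ.n2 (480, 27360) (by decide +kernel)
            (CovZ.n2 (320, 27360) (by decide +kernel)
             (CovZ.badM (by decide +kernel))
             (CovZ.n1 (400, 27280) (by decide +kernel)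
              (CovZ.badM (by decide +kernel))
              (CovZ.badM (by decide +kernel))))
            (CovZ.badM (by decide +kernel)))
           (CovZ.n1 (160, 27360) (by decide +kernel)
            (CovZ.n2 (160, 27520) (by decide +kernel)
             (CovZ.n2 (240, 27440) (by decide +kernel)
              (CovZ.n2 (160, 27440) (by decide +kernel)
               (CovZ.n2 (200, 27480) (by decide +kernel)
                (CovZ.n2 (200, 27440) (by decide +kernel)
                 (CovZ.n2 (180, 27460) (by decide +kernel)
                  (CovZ.badM (by decide +kernel))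
                  (CovZ.badM (by decide +kernel)))
                 (CovZ.badM (by decide +kernel)))
                (CovZ.n1 (160, 27480) (by decide +kernel)
                 (CovZ.n2 (180, 27500) (by decide +kernel)
                  (CovZ.leaf K2_ok TE_l17302 _)
                  (CovZ.leaf K2_ok TE_l17303 _))
                 (CovZ.n1 (180, 27460) (by decide +kernel)
                  (CovZ.leaf K2_ok TE_l17304 _)
                  (CovZ.leaf K2_ok TE_l17305 _))))
               (CovZ.n1 (200, 27400) (by decide +kernel)
                (CovZ.badM (by decide +kernel))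
                (CovZ.n1 (200, 27440) (by decide +kernel)
                 (CovZ.n2 (220, 27420) (by decide +kernel)
                  (CovZ.badM (by decide +kernel))
                  (CovZ.badM (by decide +kernel)))
                 (CovZ.badM (by decide +kernel)))))
              (CovZ.n1 (240, 27520) (by decide +kernel)
               (CovZ.n2 (280, 27480) (by decide +kernel)
                (CovZ.n2 (240, 27480) (by decide +kernel)
                 (CovZ.n2 (260, 27500) (by decide +kernel)
                  (CovZ.leaf K2_ok TE_l17306 _)
                  (CovZ.leaf K2_ok TE_l17307 _))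
                 (CovZ.n1 (260, 27460) (by decide +kernel)
                  (CovZ.badM (by decide +kernel))
                  (CovZ.leaf K2_ok TE_l17308 _)))
                (CovZ.n1 (280, 27520) (by decide +kernel)
                 (CovZ.n2 (300, 27500) (by decide +kernel)
                  (CovZ.leaf K2_ok TE_l3961 _)
                  (CovZ.leaf K2_ok TE_l3962 _))
                 (CovZ.n1 (260, 27500) (by decide +kernel)
                  (CovZ.leaf K2_ok TE_l3963 _)
                  (CovZ.leaf K2_ok TE_l3964 _))))
               (CovZ.n1 (200, 27480) (by decide +kernel)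
                (CovZ.n2 (200, 27520) (by decide +kernel)
                 (CovZ.n2 (220, 27500) (by decide +kernel)
                  (CovZ.leaf K2_ok TE_l17309 _)
                  (CovZ.leaf K2_ok TE_l17310 _))
                 (CovZ.n1 (180, 27500) (by decide +kernel)
                  (CovZ.leaf K2_ok TE_l17311 _)
                  (CovZ.leaf K2_ok TE_l17312 _)))
                (CovZ.n1 (240, 27480) (by decide +kernel)
                 (CovZ.badM (by decide +kernel))
                 (CovZ.n1 (220, 27500) (by decide +kernel)
                  (CovZ.leaf K2_ok TE_l17313 _)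
                  (CovZ.badM (by decide +kernel)))))))
             (CovZ.n1 (80, 27440) (by decide +kernel)
              (CovZ.n2 (80, 27520) (by decide +kernel)
               (CovZ.n2 (120, 27480) (by decide +kernel)
                (CovZ.n2 (80, 27480) (by decide +kernel)
                 (CovZ.n2 (100, 27500) (by decide +kernel)
                  (CovZ.leaf K2_ok TE_l17314 _)
                  (CovZ.leaf K2_ok TE_l17315 _))
                 (CovZ.n1 (100, 27460) (by decide +kernel)
                  (CovZ.leaf K2_ok TE_l17316 _)
                  (CovZ.leaf K2_ok TE_l17317 _)))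
                (CovZ.n1 (120, 27520) (by decide +kernel)
                 (CovZ.leaf K2_ok TE_l17318 _)
                 (CovZ.n1 (100, 27500) (by decide +kernel)
                  (CovZ.leaf K2_ok TE_l17319 _)
                  (CovZ.leaf K2_ok TE_l17320 _))))
               (CovZ.n1 (40, 27480) (by decide +kernel)
                (CovZ.n2 (40, 27520) (by decide +kernel)
                 (CovZ.leaf K2_ok TE_l17321 _)
                 (CovZ.n1 (20, 27500) (by decide +kernel)
                  (CovZ.leaf K2_ok TE_l17322 _)
                  (CovZ.leaf K2_ok TE_l17323 _)))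
                (CovZ.n1 (80, 27480) (by decide +kernel)
                 (CovZ.n2 (60, 27460) (by decide +kernel)
                  (CovZ.leaf K2_ok TE_l17324 _)
                  (CovZ.leaf K2_ok TE_l17325 _))
                 (CovZ.leaf K2_ok TE_l17326 _))))
              (CovZ.n1 (160, 27440) (by decide +kernel)
               (CovZ.n2 (120, 27400) (by decide +kernel)
                (CovZ.n2 (120, 27440) (by decide +kernel)
                 (CovZ.n2 (140, 27420) (by decide +kernel)
                  (CovZ.leaf K2_ok TE_l17327 _)
                  (CovZ.leaf K2_ok TE_l17328 _))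
                 (CovZ.n1 (100, 27420) (by decide +kernel)
                  (CovZ.leaf K2_ok TE_l17329 _)
                  (CovZ.leaf K2_ok TE_l17330 _)))
                (CovZ.badM (by decide +kernel)))
               (CovZ.n1 (120, 27480) (by decide +kernel)
                (CovZ.n2 (160, 27480) (by decide +kernel)
                 (CovZ.n2 (140, 27460) (by decide +kernel)
                  (CovZ.leaf K2_ok TE_l17331 _)
                  (CovZ.leaf K2_ok TE_l17332 _))
                 (CovZ.leaf K2_ok TE_l17333 _))
                (CovZ.n1 (120, 27440) (by decide +kernel)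
                 (CovZ.n2 (100, 27460) (by decide +kernel)
                  (CovZ.leaf K2_ok TE_l17334 _)
                  (CovZ.leaf K2_ok TE_l17335 _))
                 (CovZ.n1 (140, 27460) (by decide +kernel)
                  (CovZ.leaf K2_ok TE_l17336 _)
                  (CovZ.leaf K2_ok TE_l17337 _)))))))
            (CovZ.n1 (320, 27360) (by decide +kernel)
             (CovZ.badM (by decide +kernel))
             (CovZ.n1 (240, 27440) (by decide +kernel)
              (CovZ.badM (by decide +kernel))
              (CovZ.n1 (240, 27360) (by decide +kernel)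
               (CovZ.n2 (200, 27400) (by decide +kernel)
                (CovZ.n2 (240, 27400) (by decide +kernel)
                 (CovZ.badM (by decide +kernel))
                 (CovZ.n1 (220, 27420) (by decide +kernel)
                  (CovZ.badM (by decide +kernel))
                  (CovZ.badM (by decide +kernel))))
                (CovZ.badM (by decide +kernel)))
               (CovZ.n1 (280, 27400) (by decide +kernel)
                (CovZ.badM (by decide +kernel))
                (CovZ.n1 (240, 27400) (by decide +kernel)
                 (CovZ.badM (by decide +kernel))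
                 (CovZ.badM (by decide +kernel)))))))))))))
      (CovZ.subM 5846006549323611672814739331455427888982435823616 (by decide +kernel)
       (CovZ.n1 (640, 26240) (by decide +kernel)
        (CovZ.badM (by decide +kernel))
        (CovZ.n1 (640, 26880) (by decide +kernel)
         (CovZ.n2 (960, 26560) (by decide +kernel)
          (CovZ.badM (by decide +kernel))
          (CovZ.n1 (960, 26880) (by decide +kernel)
           (CovZ.n2 (1120, 26720) (by decide +kernel)
            (CovZ.badM (by decide +kernel))
            (CovZ.badM (by decide +kernel)))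
           (CovZ.badM (by decide +kernel))))
         (CovZ.badM (by decide +kernel)))))))
    (CovZ.n1 (1280, 28160) (by decide +kernel)
     TE_u80
     TE_u81)))

theorem TE_s5_5 : SqZ TE_M TE_L [0, 7, 6, 1] (-10240) 12800 2560 5 5 :=
  SqZ.mk (a := 2560) (b := 5120) (c := 25600) (d := 28160) (by norm_num) (by norm_num) (by norm_num) (by norm_num)
    (CovZ.topM TE_LL 609393800727696005190605300500020877764731031424501593800632 (by decide +kernel) (CovZ.n2 (3840, 26880) (by decide +kernel)
    TE_u83
    TE_u84))
    (CovZ.topM TE_LL 2219470497621667340733410370615672913012901204914377769742256 (by decide +kernel) (CovZ.n0 (3840, 26880) (by decide +kernel)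
    TE_u91
    TE_u92))

theorem TE_s6_5 : SqZ TE_M TE_L [0, 7, 6, 1] (-10240) 12800 2560 6 5 :=
  SqZ.mk (a := 5120) (b := 7680) (c := 25600) (d := 28160) (by norm_num) (by norm_num) (by norm_num) (by norm_num)
    (CovZ.topM TE_LL 402151363321473229549130721121026736206036975188937423034808 (by decide +kernel) (CovZ.n2 (6400, 26880) (by decide +kernel)
    (CovZ.subM 416850759782608104619027289054644673799543400950628454840 (by decide +kernel)
     (CovZ.n2 (7680, 26880) (by decide +kernel)
      (CovZ.n2 (7040, 26240) (by decide +kernel)
       (CovZ.n2 (7040, 26880) (by decide +kernel)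
        (CovZ.leaf K2_ok TE_l13805 _)
        (CovZ.n1 (6720, 26560) (by decide +kernel)
         (CovZ.leaf K2_ok TE_l13806 _)
         (CovZ.leaf K2_ok TE_l13807 _)))
       (CovZ.leaf K2_ok TE_l13808 _))
      (CovZ.n1 (7040, 27520) (by decide +kernel)
       (CovZ.n2 (7680, 27520) (by decide +kernel)
        (CovZ.leaf K2_ok TE_l13809 _)
        (CovZ.leaf K2_ok TE_l13810 _))
       (CovZ.n1 (7040, 26880) (by decide +kernel)
        (CovZ.leaf K2_ok TE_l13811 _)
        (CovZ.n1 (7360, 27200) (by decide +kernel)
         (CovZ.leaf K2_ok TE_l13812 _)
         (CovZ.leaf K2_ok TE_l13813 _))))))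
    (CovZ.n1 (6400, 25600) (by decide +kernel)
     (CovZ.n2 (5760, 26240) (by decide +kernel)
      (CovZ.n2 (6400, 26240) (by decide +kernel)
       (CovZ.n2 (6080, 25920) (by decide +kernel)
        (CovZ.leaf K2_ok TE_l13814 _)
        (CovZ.leaf K2_ok TE_l13815 _))
       (CovZ.leaf K2_ok TE_l13816 _))
      (CovZ.n1 (5760, 25600) (by decide +kernel)
       (CovZ.leaf K2_ok TE_l13817 _)
       (CovZ.n1 (6080, 25920) (by decide +kernel)
        (CovZ.leaf K2_ok TE_l13818 _)
        (CovZ.leaf K2_ok TE_l13819 _))))
     (CovZ.n1 (7040, 26240) (by decide +kernel)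
      (CovZ.n2 (7040, 25600) (by decide +kernel)
       (CovZ.leaf K2_ok TE_l13820 _)
       (CovZ.leaf K2_ok TE_l13821 _))
      (CovZ.n1 (6400, 26240) (by decide +kernel)
       (CovZ.n2 (6720, 26560) (by decide +kernel)
        (CovZ.leaf K2_ok TE_l13822 _)
        (CovZ.leaf K2_ok TE_l13823 _))
       (CovZ.leaf K2_ok TE_l13824 _))))))
    (CovZ.topM TE_LL 408428465056859911009864797998316375946246254106591449954744 (by decide +kernel) (CovZ.n0 (6400, 26880) (by decide +kernel)
    TE_u99
    TE_u100))

theorem TE_s7_5 : SqZ TE_M TE_L [0, 7, 6, 1] (-10240) 12800 2560 7 5 :=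
  SqZ.mk (a := 7680) (b := 10240) (c := 25600) (d := 28160) (by norm_num) (by norm_num) (by norm_num) (by norm_num)
    (CovZ.topM TE_LL 416850759736936178367365981130544906911387962322476404920 (by decide +kernel) (CovZ.n2 (8960, 26880) (by decide +kernel)
    (CovZ.n2 (10240, 26880) (by decide +kernel)
     (CovZ.n2 (9600, 26240) (by decide +kernel)
      (CovZ.subM 24531901275267236490771867095180946457999036427574972456 (by decide +kernel)
       (CovZ.n2 (9600, 26880) (by decide +kernel)
        (CovZ.n2 (9920, 26560) (by decide +kernel)
         (CovZ.leaf K2_ok TE_l15345 _)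
         (CovZ.leaf K2_ok TE_l15346 _))
        (CovZ.n1 (9280, 26560) (by decide +kernel)
         (CovZ.leaf K2_ok TE_l15347 _)
         (CovZ.leaf K2_ok TE_l15348 _))))
      (CovZ.subM 11972621414408553613141695083930895809555206226313256 (by decide +kernel)
       (CovZ.n1 (10240, 26240) (by decide +kernel)
        (CovZ.n2 (9920, 25920) (by decide +kernel)
         (CovZ.n2 (9920, 26240) (by decide +kernel)
          (CovZ.leaf K2_ok TE_l15349 _)
          (CovZ.leaf K2_ok TE_l15350 _))
         (CovZ.n1 (10240, 25920) (by decide +kernel)
          (CovZ.n2 (10080, 25760) (by decide +kernel)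
           (CovZ.leaf K2_ok TE_l15351 _)
           (CovZ.leaf K2_ok TE_l15352 _))
          (CovZ.leaf K2_ok TE_l15353 _)))
        (CovZ.n1 (9920, 26560) (by decide +kernel)
         (CovZ.leaf K2_ok TE_l15354 _)
         (CovZ.n1 (9920, 26240) (by decide +kernel)
          (CovZ.leaf K2_ok TE_l15355 _)
          (CovZ.leaf K2_ok TE_l15356 _))))))
     (CovZ.subM 24531901275267236490439560096234717489845142256542814248 (by decide +kernel)
      (CovZ.n1 (9600, 27520) (by decide +kernel)
       (CovZ.n2 (10240, 27520) (by decide +kernel)
        (CovZ.n2 (9920, 27200) (by decide +kernel)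
         (CovZ.leaf K2_ok TE_l15357 _)
         (CovZ.leaf K2_ok TE_l15358 _))
        (CovZ.leaf K2_ok TE_l15359 _))
       (CovZ.n1 (9600, 26880) (by decide +kernel)
        (CovZ.leaf K2_ok TE_l15360 _)
        (CovZ.n1 (9920, 27200) (by decide +kernel)
         (CovZ.leaf K2_ok TE_l15361 _)
         (CovZ.leaf K2_ok TE_l15362 _))))))
    (CovZ.n1 (8960, 25600) (by decide +kernel)
     (CovZ.n2 (8320, 26240) (by decide +kernel)
      (CovZ.n2 (8960, 26240) (by decide +kernel)
       (CovZ.n2 (8640, 25920) (by decide +kernel)
        (CovZ.leaf K2_ok TE_l15363 _)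
        (CovZ.leaf K2_ok TE_l15364 _))
       (CovZ.leaf K2_ok TE_l15365 _))
      (CovZ.n1 (8320, 25600) (by decide +kernel)
       (CovZ.leaf K2_ok TE_l15366 _)
       (CovZ.n1 (8640, 25920) (by decide +kernel)
        (CovZ.leaf K2_ok TE_l15367 _)
        (CovZ.leaf K2_ok TE_l15368 _))))
     (CovZ.n1 (9600, 26240) (by decide +kernel)
      (CovZ.subM 11972621414408553613141061258630782847775962481623072 (by decide +kernel)
       (CovZ.n2 (9600, 25600) (by decide +kernel)
        (CovZ.n2 (9280, 25920) (by decide +kernel)
         (CovZ.leaf K2_ok TE_l15369 _)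
         (CovZ.leaf K2_ok TE_l15370 _))
        (CovZ.n1 (9920, 25920) (by decide +kernel)
         (CovZ.n2 (9920, 25600) (by decide +kernel)
          (CovZ.leaf K2_ok TE_l15371 _)
          (CovZ.n1 (10080, 25760) (by decide +kernel)
           (CovZ.leaf K2_ok TE_l15372 _)
           (CovZ.leaf K2_ok TE_l15373 _)))
         (CovZ.leaf K2_ok TE_l15374 _))))
      (CovZ.n1 (8960, 26240) (by decide +kernel)
       (CovZ.n2 (9280, 26560) (by decide +kernel)
        (CovZ.leaf K2_ok TE_l15375 _)
        (CovZ.leaf K2_ok TE_l15376 _))
       (CovZ.n1 (9280, 25920) (by decide +kernel)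
        (CovZ.leaf K2_ok TE_l15377 _)
        (CovZ.leaf K2_ok TE_l15378 _)))))))
    (CovZ.topM TE_LL 416850759782608104619027289054644673799615458544666349752 (by decide +kernel) (CovZ.n0 (8960, 26880) (by decide +kernel)
    (CovZ.n2 (7680, 26880) (by decide +kernel)
     (CovZ.n2 (8320, 27520) (by decide +kernel)
      (CovZ.leaf K2_ok TE_l15379 _)
      (CovZ.leaf K2_ok TE_l15380 _))
     (CovZ.n1 (8320, 26240) (by decide +kernel)
      (CovZ.leaf K2_ok TE_l15381 _)
      (CovZ.n1 (8320, 26880) (by decide +kernel)
       (CovZ.leaf K2_ok TE_l15382 _)
       (CovZ.leaf K2_ok TE_l15383 _))))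
    (CovZ.subM 24531901275267236575510151826469333355688794114484867112 (by decide +kernel)
     (CovZ.n1 (8960, 28160) (by decide +kernel)
      (CovZ.n2 (9600, 27520) (by decide +kernel)
       (CovZ.leaf K2_ok TE_l15384 _)
       (CovZ.n1 (9600, 28160) (by decide +kernel)
        (CovZ.leaf K2_ok TE_l15385 _)
        (CovZ.leaf K2_ok TE_l15386 _)))
      (CovZ.n1 (8320, 27520) (by decide +kernel)
       (CovZ.n2 (8320, 28160) (by decide +kernel)
        (CovZ.leaf K2_ok TE_l15387 _)
        (CovZ.leaf K2_ok TE_l15388 _))
       (CovZ.leaf K2_ok TE_l15389 _))))))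

end Pool.Agent.TET
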