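import Pool.Agent.Helper38_TET.TE_M
import Pool.Agent.Helper38_TET.TE_L
import Pool.Agent.Helper38_TET.TE_10
import Pool.Agent.Helper38_TET.TE_11
import Pool.Agent.Helper38_TET.TE_12
import Pool.Agent.Helper38_TET.TE_34
import Pool.Agent.Helper38_TET.TE_35
import Pool.Agent.Helper38_TET.TE_36
import Pool.Agent.Helper38_TET.TE_37
import Pool.Agent.Helper38_TET.TE_38
import Pool.Agent.Helper38_TET.TE_39
import Pool.Agent.Helper38_TET.TE_114
import Pool.Agent.Helper38_TET.TE_115
import Pool.Agent.Helper38_TET.TE_132

/-!
# MP_c7c9bf_co: certificates, family TE
-/

set_option autoImplicit false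
set_option maxRecDepth 100000

namespace Pool.Agent.TET

theorem TE_u107 : CovZ TE_M (toL (selN TE_LN 16857456798608829626881038851517554425220266746949140480)) [0, 7, 6, 1] (-1280, 28160) (-1280, 28800) (-1920, 28800) :=
    (CovZ.n2 (-1600, 28480) (by decide +kernel)
          (CovZ.subM 13792465713799549051497848278319375191588073654278160384 (by decide +kernel)
           (CovZ.n2 (-1600, 28800) (by decide +kernel)
            (CovZ.n2 (-1440, 28640) (by decide +kernel)
             (CovZ.subM 5846006549323614268963168598278947469840521101312 (by decide +kernel)
              (CovZ.n2 (-1600, 28640) (by decide +kernel)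
               (CovZ.n2 (-1520, 28720) (by decide +kernel)
                (CovZ.n2 (-1520, 28640) (by decide +kernel)
                 (CovZ.n2 (-1560, 28680) (by decide +kernel)
                  (CovZ.n2 (-1520, 28680) (by decide +kernel)
                   (CovZ.n2 (-1540, 28660) (by decide +kernel)
                    (CovZ.leaf K2_ok TE_l19576 _)
                    (CovZ.leaf K2_ok TE_l17097 _))
                   (CovZ.n1 (-1540, 28700) (by decide +kernel)
                    (CovZ.leaf K2_ok TE_l19577 _)
                    (CovZ.leaf K2_ok TE_l19578 _)))
                  (CovZ.n1 (-1560, 28640) (by decide +kernel)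
                   (CovZ.badM (by decide +kernel))
                   (CovZ.n1 (-1540, 28660) (by decide +kernel)
                    (CovZ.leaf K2_ok TE_l19579 _)
                    (CovZ.badM (by decide +kernel)))))
                 (CovZ.n1 (-1480, 28680) (by decide +kernel)
                  (CovZ.n2 (-1480, 28640) (by decide +kernel)
                   (CovZ.leaf K2_ok TE_l1550 _)
                   (CovZ.leaf K2_ok TE_l1551 _))
                  (CovZ.n1 (-1520, 28680) (by decide +kernel)
                   (CovZ.n2 (-1500, 28700) (by decide +kernel)
                    (CovZ.leaf K2_ok TE_l1552 _)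
                    (CovZ.leaf K2_ok TE_l1553 _))
                   (CovZ.leaf K2_ok TE_l1554 _))))
                (CovZ.badM (by decide +kernel)))
               (CovZ.n1 (-1520, 28560) (by decide +kernel)
                (CovZ.badM (by decide +kernel))
                (CovZ.n1 (-1520, 28640) (by decide +kernel)
                 (CovZ.n2 (-1480, 28600) (by decide +kernel)
                  (CovZ.n2 (-1520, 28600) (by decide +kernel)
                   (CovZ.n2 (-1500, 28620) (by decide +kernel)
                    (CovZ.leaf K2_ok TE_l1555 _)
                    (CovZ.leaf K2_ok TE_l1556 _))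
                   (CovZ.n1 (-1500, 28580) (by decide +kernel)
                    (CovZ.badM (by decide +kernel))
                    (CovZ.leaf K2_ok TE_l1558 _)))
                  (CovZ.n1 (-1480, 28640) (by decide +kernel)
                   (CovZ.leaf K2_ok TE_l1559 _)
                   (CovZ.n1 (-1500, 28620) (by decide +kernel)
                    (CovZ.leaf K2_ok TE_l1560 _)
                    (CovZ.leaf K2_ok TE_l1561 _))))
                 (CovZ.n1 (-1560, 28600) (by decide +kernel)
                  (CovZ.n2 (-1560, 28640) (by decide +kernel)
                   (CovZ.n2 (-1540, 28620) (by decide +kernel)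
                    (CovZ.badM (by decide +kernel))
                    (CovZ.leaf K2_ok TE_l19580 _))
                   (CovZ.badM (by decide +kernel)))
                  (CovZ.n1 (-1520, 28600) (by decide +kernel)
                   (CovZ.badM (by decide +kernel))
                   (CovZ.n1 (-1540, 28620) (by decide +kernel)
                    (CovZ.leaf K2_ok TE_l1562 _)
                    (CovZ.badM (by decide +kernel)))))))))
             (CovZ.n1 (-1440, 28800) (by decide +kernel)
              (CovZ.n2 (-1360, 28720) (by decide +kernel)
               (CovZ.n2 (-1440, 28720) (by decide +kernel)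
                (CovZ.n2 (-1400, 28760) (by decide +kernel)
                 (CovZ.leaf K2_ok TE_l1563 _)
                 (CovZ.leaf K2_ok TE_l1564 _))
                (CovZ.leaf K2_ok TE_l1565 _))
               (CovZ.n1 (-1360, 28800) (by decide +kernel)
                (CovZ.leaf K2_ok TE_l1566 _)
                (CovZ.n1 (-1400, 28760) (by decide +kernel)
                 (CovZ.leaf K2_ok TE_l1567 _)
                 (CovZ.leaf K2_ok TE_l1568 _))))
              (CovZ.subM 5846006549323614268963168598278947469840521101312 (by decide +kernel)
               (CovZ.n1 (-1520, 28720) (by decide +kernel)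
                (CovZ.n2 (-1520, 28800) (by decide +kernel)
                 (CovZ.n2 (-1480, 28760) (by decide +kernel)
                  (CovZ.n2 (-1520, 28760) (by decide +kernel)
                   (CovZ.leaf K2_ok TE_l1569 _)
                   (CovZ.leaf K2_ok TE_l1570 _))
                  (CovZ.leaf K2_ok TE_l1571 _))
                 (CovZ.badM (by decide +kernel)))
                (CovZ.n1 (-1440, 28720) (by decide +kernel)
                 (CovZ.n2 (-1480, 28680) (by decide +kernel)
                  (CovZ.leaf K2_ok TE_l1572 _)
                  (CovZ.leaf K2_ok TE_l1573 _))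
                 (CovZ.n1 (-1480, 28760) (by decide +kernel)
                  (CovZ.leaf K2_ok TE_l1574 _)
                  (CovZ.leaf K2_ok TE_l1575 _)))))))
            (CovZ.n1 (-1760, 28640) (by decide +kernel)
             (CovZ.badM (by decide +kernel))
             (CovZ.n1 (-1600, 28640) (by decide +kernel)
              (CovZ.badM (by decide +kernel))
              (CovZ.badM (by decide +kernel))))))
          (CovZ.n1 (-1280, 28480) (by decide +kernel)
           (CovZ.subM 1532501389771535081707701002075199064542234737165467648 (by decide +kernel)
            (CovZ.n2 (-1440, 28320) (by decide +kernel)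
             (CovZ.n2 (-1440, 28480) (by decide +kernel)
              (CovZ.n2 (-1360, 28400) (by decide +kernel)
               (CovZ.subM 2596227657429928078602910428037120 (by decide +kernel)
                (CovZ.n2 (-1440, 28400) (by decide +kernel)
                 (CovZ.n2 (-1400, 28440) (by decide +kernel)
                  (CovZ.leaf K2_ok TE_l1576 _)
                  (CovZ.leaf K2_ok TE_l17098 _))
                 (CovZ.n1 (-1400, 28360) (by decide +kernel)
                  (CovZ.n2 (-1440, 28360) (by decide +kernel)
                   (CovZ.leaf K2_ok TE_l1577 _)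
                   (CovZ.leaf K2_ok TE_l1578 _))
                  (CovZ.leaf K2_ok TE_l1579 _))))
               (CovZ.n1 (-1360, 28480) (by decide +kernel)
                (CovZ.leaf K2_ok TE_l1580 _)
                (CovZ.n1 (-1400, 28440) (by decide +kernel)
                 (CovZ.leaf K2_ok TE_l1581 _)
                 (CovZ.leaf K2_ok TE_l1582 _))))
              (CovZ.subM 68719476736 (by decide +kernel)
               (CovZ.n1 (-1520, 28400) (by decide +kernel)
                (CovZ.n2 (-1520, 28480) (by decide +kernel)
                 (CovZ.n2 (-1480, 28440) (by decide +kernel)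
                  (CovZ.badM (by decide +kernel))
                  (CovZ.n1 (-1480, 28480) (by decide +kernel)
                   (CovZ.leaf K2_ok TE_l17099 _)
                   (CovZ.badM (by decide +kernel))))
                 (CovZ.badM (by decide +kernel)))
                (CovZ.n1 (-1440, 28400) (by decide +kernel)
                 (CovZ.n2 (-1480, 28360) (by decide +kernel)
                  (CovZ.n2 (-1480, 28400) (by decide +kernel)
                   (CovZ.n2 (-1460, 28380) (by decide +kernel)
                    (CovZ.badM (by decide +kernel))
                    (CovZ.leaf K2_ok TE_l17100 _))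
                   (CovZ.badM (by decide +kernel)))
                  (CovZ.n1 (-1440, 28360) (by decide +kernel)
                   (CovZ.n2 (-1460, 28340) (by decide +kernel)
                    (CovZ.leaf K2_ok TE_l17101 _)
                    (CovZ.leaf K2_ok TE_l1583 _))
                   (CovZ.n1 (-1460, 28380) (by decide +kernel)
                    (CovZ.leaf K2_ok TE_l17102 _)
                    (CovZ.leaf K2_ok TE_l17103 _))))
                 (CovZ.n1 (-1480, 28440) (by decide +kernel)
                  (CovZ.n2 (-1440, 28440) (by decide +kernel)
                   (CovZ.n2 (-1460, 28420) (by decide +kernel)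
                    (CovZ.leaf K2_ok TE_l17104 _)
                    (CovZ.leaf K2_ok TE_l17105 _))
                   (CovZ.leaf K2_ok TE_l17106 _))
                  (CovZ.n1 (-1480, 28400) (by decide +kernel)
                   (CovZ.badM (by decide +kernel))
                   (CovZ.n1 (-1460, 28420) (by decide +kernel)
                    (CovZ.leaf K2_ok TE_l17107 _)
                    (CovZ.badM (by decide +kernel)))))))))
             (CovZ.n1 (-1280, 28320) (by decide +kernel)
              (CovZ.n2 (-1360, 28240) (by decide +kernel)
               (CovZ.n2 (-1360, 28320) (by decide +kernel)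
                (CovZ.n2 (-1320, 28280) (by decide +kernel)
                 (CovZ.leaf K2_ok TE_l1584 _)
                 (CovZ.leaf K2_ok TE_l1585 _))
                (CovZ.subM 44601490399657394712338850359561971176570880 (by decide +kernel)
                 (CovZ.n1 (-1400, 28280) (by decide +kernel)
                  (CovZ.n2 (-1400, 28320) (by decide +kernel)
                   (CovZ.leaf K2_ok TE_l1586 _)
                   (CovZ.n1 (-1420, 28300) (by decide +kernel)
                    (CovZ.leaf K2_ok TE_l1587 _)
                    (CovZ.leaf K2_ok TE_l1588 _)))
                  (CovZ.leaf K2_ok TE_l1589 _))))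
               (CovZ.n1 (-1280, 28240) (by decide +kernel)
                (CovZ.n2 (-1320, 28200) (by decide +kernel)
                 (CovZ.leaf K2_ok TE_l1590 _)
                 (CovZ.leaf K2_ok TE_l1591 _))
                (CovZ.n1 (-1320, 28280) (by decide +kernel)
                 (CovZ.leaf K2_ok TE_l1592 _)
                 (CovZ.leaf K2_ok TE_l1593 _))))
              (CovZ.n1 (-1360, 28400) (by decide +kernel)
               (CovZ.n2 (-1280, 28400) (by decide +kernel)
                (CovZ.n2 (-1320, 28360) (by decide +kernel)
                 (CovZ.leaf K2_ok TE_l1594 _)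
                 (CovZ.leaf K2_ok TE_l1595 _))
                (CovZ.leaf K2_ok TE_l1596 _))
               (CovZ.n1 (-1360, 28320) (by decide +kernel)
                (CovZ.n2 (-1400, 28360) (by decide +kernel)
                 (CovZ.leaf K2_ok TE_l1597 _)
                 (CovZ.leaf K2_ok TE_l1598 _))
                (CovZ.n1 (-1320, 28360) (by decide +kernel)
                 (CovZ.leaf K2_ok TE_l1599 _)
                 (CovZ.leaf K2_ok TE_l1600 _)))))))
           (CovZ.subM 13792465713844150563162557457161100594594283341775634432 (by decide +kernel)
            (CovZ.n1 (-1440, 28640) (by decide +kernel)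
             (CovZ.n2 (-1280, 28640) (by decide +kernel)
              (CovZ.n2 (-1360, 28560) (by decide +kernel)
               (CovZ.n2 (-1360, 28640) (by decide +kernel)
                (CovZ.leaf K2_ok TE_l1601 _)
                (CovZ.n1 (-1400, 28600) (by decide +kernel)
                 (CovZ.leaf K2_ok TE_l1602 _)
                 (CovZ.leaf K2_ok TE_l1603 _)))
               (CovZ.n1 (-1280, 28560) (by decide +kernel)
                (CovZ.leaf K2_ok TE_l1604 _)
                (CovZ.leaf K2_ok TE_l1605 _)))
              (CovZ.n1 (-1360, 28720) (by decide +kernel)
               (CovZ.leaf K2_ok TE_l1606 _)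
               (CovZ.n1 (-1360, 28640) (by decide +kernel)
                (CovZ.leaf K2_ok TE_l1607 _)
                (CovZ.leaf K2_ok TE_l1608 _))))
             (CovZ.n1 (-1440, 28480) (by decide +kernel)
              (CovZ.subM 5846006549323614268963168598278946343940614258688 (by decide +kernel)
               (CovZ.n2 (-1520, 28560) (by decide +kernel)
                (CovZ.n2 (-1440, 28560) (by decide +kernel)
                 (CovZ.n2 (-1480, 28520) (by decide +kernel)
                  (CovZ.n2 (-1480, 28560) (by decide +kernel)
                   (CovZ.leaf K2_ok TE_l17108 _)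
                   (CovZ.badM (by decide +kernel)))
                  (CovZ.n1 (-1440, 28520) (by decide +kernel)
                   (CovZ.leaf K2_ok TE_l17109 _)
                   (CovZ.leaf K2_ok TE_l17110 _)))
                 (CovZ.n1 (-1480, 28600) (by decide +kernel)
                  (CovZ.leaf K2_ok TE_l1609 _)
                  (CovZ.n1 (-1480, 28560) (by decide +kernel)
                   (CovZ.n2 (-1500, 28580) (by decide +kernel)
                    (CovZ.leaf K2_ok TE_l1610 _)
                    (CovZ.badM (by decide +kernel)))
                   (CovZ.leaf K2_ok TE_l1611 _))))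
                (CovZ.n1 (-1520, 28480) (by decide +kernel)
                 (CovZ.badM (by decide +kernel))
                 (CovZ.n1 (-1480, 28520) (by decide +kernel)
                  (CovZ.n2 (-1480, 28480) (by decide +kernel)
                   (CovZ.badM (by decide +kernel))
                   (CovZ.n1 (-1460, 28500) (by decide +kernel)
                    (CovZ.leaf K2_ok TE_l17111 _)
                    (CovZ.badM (by decide +kernel))))
                  (CovZ.badM (by decide +kernel))))))
              (CovZ.n1 (-1360, 28560) (by decide +kernel)
               (CovZ.n2 (-1360, 28480) (by decide +kernel)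
                (CovZ.n2 (-1400, 28520) (by decide +kernel)
                 (CovZ.leaf K2_ok TE_l1612 _)
                 (CovZ.leaf K2_ok TE_l1613 _))
                (CovZ.leaf K2_ok TE_l1614 _))
               (CovZ.subM 5846006549326272725033966592539018295654718898176 (by decide +kernel)
                (CovZ.n1 (-1440, 28560) (by decide +kernel)
                 (CovZ.n2 (-1400, 28600) (by decide +kernel)
                  (CovZ.leaf K2_ok TE_l1615 _)
                  (CovZ.leaf K2_ok TE_l1616 _))
                 (CovZ.n1 (-1400, 28520) (by decide +kernel)
                  (CovZ.leaf K2_ok TE_l17112 _)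
                  (CovZ.leaf K2_ok TE_l1617 _))))))))))

theorem TE_u108 : CovZ TE_M (toL (selN TE_LN 16857456798608829626881038851517554425220266746949140480)) [0, 7, 6, 1] (-1280, 28800) (-1280, 29440) (-1920, 28800) :=
    (CovZ.n1 (-1600, 29120) (by decide +kernel)
          (CovZ.n2 (-1280, 29120) (by decide +kernel)
           (CovZ.subM 13792465713799549051497848278358060836262485861578309632 (by decide +kernel)
            (CovZ.n2 (-1440, 28960) (by decide +kernel)
             (CovZ.n2 (-1440, 29120) (by decide +kernel)
              (CovZ.n2 (-1360, 29040) (by decide +kernel)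
               (CovZ.leaf K2_ok TE_l1618 _)
               (CovZ.leaf K2_ok TE_l1619 _))
              (CovZ.subM 2661052219265947300113885164579323904 (by decide +kernel)
               (CovZ.n1 (-1520, 29040) (by decide +kernel)
                (CovZ.n2 (-1520, 29120) (by decide +kernel)
                 (CovZ.leaf K3_ok TE_l1620 _)
                 (CovZ.badM (by decide +kernel)))
                (CovZ.n1 (-1440, 29040) (by decide +kernel)
                 (CovZ.n2 (-1480, 29000) (by decide +kernel)
                  (CovZ.leaf K2_ok TE_l1621 _)
                  (CovZ.leaf K2_ok TE_l1622 _))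
                 (CovZ.leaf K2_ok TE_l1623 _)))))
             (CovZ.n1 (-1280, 28960) (by decide +kernel)
              (CovZ.n2 (-1360, 28880) (by decide +kernel)
               (CovZ.leaf K2_ok TE_l1624 _)
               (CovZ.leaf K2_ok TE_l1625 _))
              (CovZ.n1 (-1360, 29040) (by decide +kernel)
               (CovZ.leaf K2_ok TE_l1626 _)
               (CovZ.leaf K2_ok TE_l1627 _)))))
           (CovZ.subM 1532495541044294822608942305763175955267687885192560640 (by decide +kernel)
            (CovZ.n1 (-1440, 29280) (by decide +kernel)
             (CovZ.n2 (-1280, 29280) (by decide +kernel)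
              (CovZ.n2 (-1360, 29200) (by decide +kernel)
               (CovZ.leaf K3_ok TE_l1628 _)
               (CovZ.leaf K2_ok TE_l1629 _))
              (CovZ.leaf K3_ok TE_l1630 _))
             (CovZ.n1 (-1440, 29120) (by decide +kernel)
              (CovZ.subM 2661052219227261673886217030988726272 (by decide +kernel)
               (CovZ.n2 (-1520, 29200) (by decide +kernel)
                (CovZ.n2 (-1440, 29200) (by decide +kernel)
                 (CovZ.n2 (-1480, 29160) (by decide +kernel)
                  (CovZ.leaf K3_ok TE_l1631 _)
                  (CovZ.leaf K3_ok TE_l1632 _))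
                 (CovZ.leaf K3_ok TE_l1633 _))
                (CovZ.n1 (-1520, 29120) (by decide +kernel)
                 (CovZ.n2 (-1560, 29160) (by decide +kernel)
                  (CovZ.leaf K3_ok TE_l17113 _)
                  (CovZ.badM (by decide +kernel)))
                 (CovZ.n1 (-1480, 29160) (by decide +kernel)
                  (CovZ.leaf K3_ok TE_l1634 _)
                  (CovZ.leaf K3_ok TE_l1635 _)))))
              (CovZ.n1 (-1360, 29200) (by decide +kernel)
               (CovZ.leaf K2_ok TE_l1636 _)
               (CovZ.leaf K3_ok TE_l1637 _))))))
          (CovZ.subM 13792465713799549051497848278358060817815741787868758016 (by decide +kernel)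
           (CovZ.n1 (-1600, 28800) (by decide +kernel)
            (CovZ.subM 12259964326927110866866776217241159095177581111059415040 (by decide +kernel)
             (CovZ.n2 (-1760, 28960) (by decide +kernel)
              (CovZ.n2 (-1600, 28960) (by decide +kernel)
               (CovZ.n2 (-1680, 28880) (by decide +kernel)
                (CovZ.badM (by decide +kernel))
                (CovZ.n1 (-1600, 28880) (by decide +kernel)
                 (CovZ.badM (by decide +kernel))
                 (CovZ.badM (by decide +kernel))))
               (CovZ.n1 (-1680, 29040) (by decide +kernel)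
                (CovZ.n2 (-1600, 29040) (by decide +kernel)
                 (CovZ.badM (by decide +kernel))
                 (CovZ.badM (by decide +kernel)))
                (CovZ.badM (by decide +kernel))))
              (CovZ.badM (by decide +kernel))))
            (CovZ.n1 (-1440, 28960) (by decide +kernel)
             (CovZ.n2 (-1440, 28800) (by decide +kernel)
              (CovZ.subM 12259964326927110869527828357201572628571792414913593344 (by decide +kernel)
               (CovZ.n2 (-1520, 28880) (by decide +kernel)
                (CovZ.n2 (-1440, 28880) (by decide +kernel)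
                 (CovZ.n2 (-1480, 28840) (by decide +kernel)
                  (CovZ.leaf K2_ok TE_l1638 _)
                  (CovZ.leaf K2_ok TE_l1639 _))
                 (CovZ.n1 (-1480, 28920) (by decide +kernel)
                  (CovZ.leaf K2_ok TE_l1640 _)
                  (CovZ.leaf K2_ok TE_l1641 _)))
                (CovZ.n1 (-1520, 28800) (by decide +kernel)
                 (CovZ.badM (by decide +kernel))
                 (CovZ.n1 (-1480, 28840) (by decide +kernel)
                  (CovZ.leaf K2_ok TE_l1642 _)
                  (CovZ.leaf K2_ok TE_l1643 _)))))
              (CovZ.n1 (-1360, 28880) (by decide +kernel)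
               (CovZ.n2 (-1360, 28800) (by decide +kernel)
                (CovZ.leaf K2_ok TE_l1644 _)
                (CovZ.leaf K2_ok TE_l1645 _))
               (CovZ.n1 (-1440, 28880) (by decide +kernel)
                (CovZ.leaf K2_ok TE_l1646 _)
                (CovZ.leaf K2_ok TE_l1647 _))))
             (CovZ.subM 12259964326927110869527828357240258254799460548504190976 (by decide +kernel)
              (CovZ.n1 (-1600, 28960) (by decide +kernel)
               (CovZ.n2 (-1520, 29040) (by decide +kernel)
                (CovZ.n2 (-1520, 28960) (by decide +kernel)
                 (CovZ.badM (by decide +kernel))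
                 (CovZ.n1 (-1480, 29000) (by decide +kernel)
                  (CovZ.leaf K2_ok TE_l1648 _)
                  (CovZ.leaf K2_ok TE_l1649 _)))
                (CovZ.n1 (-1600, 29040) (by decide +kernel)
                 (CovZ.badM (by decide +kernel))
                 (CovZ.badM (by decide +kernel))))
               (CovZ.n1 (-1520, 28880) (by decide +kernel)
                (CovZ.n2 (-1600, 28880) (by decide +kernel)
                 (CovZ.badM (by decide +kernel))
                 (CovZ.badM (by decide +kernel)))
                (CovZ.n1 (-1520, 28960) (by decide +kernel)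
                 (CovZ.n2 (-1480, 28920) (by decide +kernel)
                  (CovZ.leaf K2_ok TE_l1650 _)
                  (CovZ.leaf K2_ok TE_l1651 _))
                 (CovZ.badM (by decide +kernel))))))))))

theorem TE_u109 : CovZ TE_M (toL (selN TE_LN 25125647522961678288518569028823872897126092573249734967296)) [0, 7, 6, 1] (-2560, 28160) (-1280, 28160) (-1280, 29440) :=
    (CovZ.subM 16857456798608829626881038851517554425220266746949140480 (by decide +kernel)
       (CovZ.n2 (-1920, 28800) (by decide +kernel)
        (CovZ.n2 (-1280, 28800) (by decide +kernel)
         TE_u107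
         TE_u108)
        (CovZ.subM 1532495543764985755437572195766036453603667892781449216 (by decide +kernel)
         (CovZ.n1 (-1920, 28160) (by decide +kernel)
          (CovZ.subM 2854495385411919762116571938900116172672335872 (by decide +kernel)
           (CovZ.n2 (-2240, 28480) (by decide +kernel)
            (CovZ.n2 (-1920, 28480) (by decide +kernel)
             (CovZ.n2 (-2080, 28320) (by decide +kernel)
              (CovZ.badM (by decide +kernel))
              (CovZ.n1 (-1920, 28320) (by decide +kernel)
               (CovZ.n2 (-2000, 28240) (by decide +kernel)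
                (CovZ.badM (by decide +kernel))
                (CovZ.n1 (-1920, 28240) (by decide +kernel)
                 (CovZ.badM (by decide +kernel))
                 (CovZ.badM (by decide +kernel))))
               (CovZ.badM (by decide +kernel))))
             (CovZ.badM (by decide +kernel)))
            (CovZ.n1 (-2240, 28160) (by decide +kernel)
             (CovZ.n2 (-2400, 28320) (by decide +kernel)
              (CovZ.n2 (-2240, 28320) (by decide +kernel)
               (CovZ.badM (by decide +kernel))
               (CovZ.badM (by decide +kernel)))
              (CovZ.badM (by decide +kernel)))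
             (CovZ.n1 (-2080, 28320) (by decide +kernel)
              (CovZ.n2 (-2080, 28160) (by decide +kernel)
               (CovZ.n2 (-2160, 28240) (by decide +kernel)
                (CovZ.n2 (-2080, 28240) (by decide +kernel)
                 (CovZ.badM (by decide +kernel))
                 (CovZ.badM (by decide +kernel)))
                (CovZ.badM (by decide +kernel)))
               (CovZ.n1 (-2000, 28240) (by decide +kernel)
                (CovZ.badM (by decide +kernel))
                (CovZ.n1 (-2080, 28240) (by decide +kernel)
                 (CovZ.badM (by decide +kernel))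
                 (CovZ.badM (by decide +kernel)))))
              (CovZ.n1 (-2240, 28320) (by decide +kernel)
               (CovZ.badM (by decide +kernel))
               (CovZ.n1 (-2160, 28240) (by decide +kernel)
                (CovZ.badM (by decide +kernel))
                (CovZ.badM (by decide +kernel))))))))
          (CovZ.n1 (-1600, 28480) (by decide +kernel)
           (CovZ.n2 (-1600, 28160) (by decide +kernel)
            (CovZ.subM 2854495385411919762116571938898990272765493248 (by decide +kernel)
             (CovZ.n2 (-1760, 28320) (by decide +kernel)
              (CovZ.n2 (-1600, 28320) (by decide +kernel)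
               (CovZ.n2 (-1680, 28240) (by decide +kernel)
                (CovZ.badM (by decide +kernel))
                (CovZ.n1 (-1600, 28240) (by decide +kernel)
                 (CovZ.badM (by decide +kernel))
                 (CovZ.badM (by decide +kernel))))
               (CovZ.badM (by decide +kernel)))
              (CovZ.n1 (-1760, 28160) (by decide +kernel)
               (CovZ.n2 (-1840, 28240) (by decide +kernel)
                (CovZ.n2 (-1760, 28240) (by decide +kernel)
                 (CovZ.badM (by decide +kernel))
                 (CovZ.badM (by decide +kernel)))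
                (CovZ.badM (by decide +kernel)))
               (CovZ.n1 (-1680, 28240) (by decide +kernel)
                (CovZ.badM (by decide +kernel))
                (CovZ.n1 (-1760, 28240) (by decide +kernel)
                 (CovZ.badM (by decide +kernel))
                 (CovZ.badM (by decide +kernel)))))))
            (CovZ.n1 (-1440, 28320) (by decide +kernel)
             (CovZ.n2 (-1440, 28160) (by decide +kernel)
              (CovZ.n2 (-1520, 28240) (by decide +kernel)
               (CovZ.n2 (-1440, 28240) (by decide +kernel)
                (CovZ.badM (by decide +kernel))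
                (CovZ.badM (by decide +kernel)))
               (CovZ.badM (by decide +kernel)))
              (CovZ.n1 (-1360, 28240) (by decide +kernel)
               (CovZ.subM 1532495540910490370023056285220197100889286403225026560 (by decide +kernel)
                (CovZ.n2 (-1360, 28160) (by decide +kernel)
                 (CovZ.n2 (-1400, 28200) (by decide +kernel)
                  (CovZ.n2 (-1360, 28200) (by decide +kernel)
                   (CovZ.badM (by decide +kernel))
                   (CovZ.leaf K2_ok TE_l1653 _))
                  (CovZ.badM (by decide +kernel)))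
                 (CovZ.n1 (-1320, 28200) (by decide +kernel)
                  (CovZ.leaf K2_ok TE_l1658 _)
                  (CovZ.leaf K2_ok TE_l1659 _))))
               (CovZ.subM 2899096875811577156828910789258552243942064128 (by decide +kernel)
                (CovZ.n1 (-1440, 28240) (by decide +kernel)
                 (CovZ.n2 (-1400, 28280) (by decide +kernel)
                  (CovZ.n2 (-1400, 28240) (by decide +kernel)
                   (CovZ.n2 (-1420, 28260) (by decide +kernel)
                    (CovZ.leaf K2_ok TE_l1660 _)
                    (CovZ.leaf K2_ok TE_l1661 _))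
                   (CovZ.leaf K2_ok TE_l1662 _))
                  (CovZ.badM (by decide +kernel)))
                 (CovZ.n1 (-1400, 28200) (by decide +kernel)
                  (CovZ.badM (by decide +kernel))
                  (CovZ.n1 (-1400, 28240) (by decide +kernel)
                   (CovZ.leaf K2_ok TE_l1667 _)
                   (CovZ.n1 (-1420, 28220) (by decide +kernel)
                    (CovZ.leaf K2_ok TE_l1668 _)
                    (CovZ.leaf K2_ok TE_l1669 _))))))))
             (CovZ.subM 2854495385411919762116571938898990341484969984 (by decide +kernel)
              (CovZ.n1 (-1600, 28320) (by decide +kernel)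
               (CovZ.n2 (-1520, 28400) (by decide +kernel)
                (CovZ.n2 (-1520, 28320) (by decide +kernel)
                 (CovZ.badM (by decide +kernel))
                 (CovZ.n1 (-1480, 28360) (by decide +kernel)
                  (CovZ.n2 (-1480, 28320) (by decide +kernel)
                   (CovZ.badM (by decide +kernel))
                   (CovZ.n1 (-1460, 28340) (by decide +kernel)
                    (CovZ.badM (by decide +kernel))
                    (CovZ.badM (by decide +kernel))))
                  (CovZ.badM (by decide +kernel))))
                (CovZ.badM (by decide +kernel)))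
               (CovZ.n1 (-1520, 28240) (by decide +kernel)
                (CovZ.n2 (-1600, 28240) (by decide +kernel)
                 (CovZ.badM (by decide +kernel))
                 (CovZ.badM (by decide +kernel)))
                (CovZ.badM (by decide +kernel)))))))
           (CovZ.subM 2854495385411919762116571938900116172672335872 (by decide +kernel)
            (CovZ.n1 (-1920, 28480) (by decide +kernel)
             (CovZ.n2 (-1760, 28640) (by decide +kernel)
              (CovZ.badM (by decide +kernel))
              (CovZ.badM (by decide +kernel)))
             (CovZ.n1 (-1760, 28320) (by decide +kernel)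
              (CovZ.n2 (-1920, 28320) (by decide +kernel)
               (CovZ.badM (by decide +kernel))
               (CovZ.n1 (-1840, 28240) (by decide +kernel)
                (CovZ.n2 (-1920, 28240) (by decide +kernel)
                 (CovZ.badM (by decide +kernel))
                 (CovZ.badM (by decide +kernel)))
                (CovZ.badM (by decide +kernel))))
              (CovZ.badM (by decide +kernel))))))))))

theorem TE_u110 : CovZ TE_M (toL (selN TE_LN 25125647522961678288518569028823872897126092573249734967296)) [0, 7, 6, 1] (-1280, 28160) (0, 28160) (-1280, 29440) :=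
    (CovZ.n1 (-640, 28800) (by decide +kernel)
       (CovZ.n2 (-640, 28160) (by decide +kernel)
        (CovZ.n2 (-960, 28480) (by decide +kernel)
         (CovZ.n2 (-640, 28480) (by decide +kernel)
          (CovZ.n2 (-800, 28320) (by decide +kernel)
           (CovZ.n2 (-800, 28480) (by decide +kernel)
            (CovZ.leaf K2_ok TE_l1670 _)
            (CovZ.n1 (-880, 28400) (by decide +kernel)
             (CovZ.leaf K2_ok TE_l1671 _)
             (CovZ.leaf K2_ok TE_l1672 _)))
           (CovZ.n1 (-640, 28320) (by decide +kernel)
            (CovZ.n2 (-720, 28240) (by decide +kernel)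
             (CovZ.leaf K2_ok TE_l1673 _)
             (CovZ.leaf K2_ok TE_l1674 _))
            (CovZ.leaf K2_ok TE_l1675 _)))
          (CovZ.n1 (-800, 28640) (by decide +kernel)
           (CovZ.n2 (-640, 28640) (by decide +kernel)
            (CovZ.n2 (-720, 28560) (by decide +kernel)
             (CovZ.leaf K2_ok TE_l1676 _)
             (CovZ.leaf K2_ok TE_l1677 _))
            (CovZ.leaf K2_ok TE_l1678 _))
           (CovZ.n1 (-800, 28480) (by decide +kernel)
            (CovZ.leaf K2_ok TE_l1679 _)
            (CovZ.n1 (-720, 28560) (by decide +kernel)
             (CovZ.leaf K2_ok TE_l1680 _)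
             (CovZ.leaf K2_ok TE_l1681 _)))))
         (CovZ.n1 (-960, 28160) (by decide +kernel)
          (CovZ.subM 1532502120901466415617257447060281074413619451778826240 (by decide +kernel)
           (CovZ.n2 (-1120, 28320) (by decide +kernel)
            (CovZ.n2 (-960, 28320) (by decide +kernel)
             (CovZ.n2 (-1040, 28240) (by decide +kernel)
              (CovZ.leaf K2_ok TE_l1682 _)
              (CovZ.leaf K2_ok TE_l1683 _))
             (CovZ.leaf K2_ok TE_l1684 _))
            (CovZ.n1 (-1120, 28160) (by decide +kernel)
             (CovZ.n2 (-1200, 28240) (by decide +kernel)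
              (CovZ.leaf K2_ok TE_l1685 _)
              (CovZ.leaf K2_ok TE_l1686 _))
             (CovZ.n1 (-1040, 28240) (by decide +kernel)
              (CovZ.leaf K2_ok TE_l1687 _)
              (CovZ.leaf K2_ok TE_l1688 _)))))
          (CovZ.n1 (-800, 28320) (by decide +kernel)
           (CovZ.n2 (-800, 28160) (by decide +kernel)
            (CovZ.n2 (-880, 28240) (by decide +kernel)
             (CovZ.leaf K2_ok TE_l1689 _)
             (CovZ.leaf K2_ok TE_l1690 _))
            (CovZ.n1 (-720, 28240) (by decide +kernel)
             (CovZ.leaf K2_ok TE_l1691 _)
             (CovZ.leaf K2_ok TE_l1692 _)))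
           (CovZ.subM 1532502120901466415617257605516606102942294638866726912 (by decide +kernel)
            (CovZ.n1 (-960, 28320) (by decide +kernel)
             (CovZ.n2 (-880, 28400) (by decide +kernel)
              (CovZ.leaf K2_ok TE_l1693 _)
              (CovZ.leaf K2_ok TE_l1694 _))
             (CovZ.n1 (-880, 28240) (by decide +kernel)
              (CovZ.leaf K2_ok TE_l1695 _)
              (CovZ.leaf K2_ok TE_l1696 _)))))))
        (CovZ.n1 (-320, 28480) (by decide +kernel)
         (CovZ.n2 (-320, 28160) (by decide +kernel)
          (CovZ.n2 (-480, 28320) (by decide +kernel)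
           (CovZ.n2 (-320, 28320) (by decide +kernel)
            (CovZ.n2 (-400, 28240) (by decide +kernel)
             (CovZ.leaf K2_ok TE_l1697 _)
             (CovZ.leaf K2_ok TE_l1698 _))
            (CovZ.leaf K2_ok TE_l1699 _))
           (CovZ.n1 (-480, 28160) (by decide +kernel)
            (CovZ.n2 (-560, 28240) (by decide +kernel)
             (CovZ.leaf K2_ok TE_l1700 _)
             (CovZ.leaf K2_ok TE_l1701 _))
            (CovZ.n1 (-400, 28240) (by decide +kernel)
             (CovZ.leaf K2_ok TE_l1702 _)
             (CovZ.leaf K2_ok TE_l1703 _))))
          (CovZ.n1 (-160, 28320) (by decide +kernel)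
           (CovZ.n2 (-160, 28160) (by decide +kernel)
            (CovZ.n2 (-240, 28240) (by decide +kernel)
             (CovZ.leaf K2_ok TE_l1704 _)
             (CovZ.leaf K2_ok TE_l1705 _))
            (CovZ.n1 (-80, 28240) (by decide +kernel)
             (CovZ.leaf K2_ok TE_l1706 _)
             (CovZ.leaf K2_ok TE_l1707 _)))
           (CovZ.n1 (-320, 28320) (by decide +kernel)
            (CovZ.n2 (-240, 28400) (by decide +kernel)
             (CovZ.leaf K2_ok TE_l1708 _)
             (CovZ.leaf K2_ok TE_l1709 _))
            (CovZ.n1 (-240, 28240) (by decide +kernel)
             (CovZ.leaf K2_ok TE_l1710 _)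
             (CovZ.leaf K2_ok TE_l1711 _)))))
         (CovZ.n1 (-640, 28480) (by decide +kernel)
          (CovZ.n2 (-480, 28640) (by decide +kernel)
           (CovZ.n2 (-480, 28480) (by decide +kernel)
            (CovZ.leaf K2_ok TE_l1712 _)
            (CovZ.n1 (-400, 28560) (by decide +kernel)
             (CovZ.leaf K2_ok TE_l1713 _)
             (CovZ.leaf K2_ok TE_l1714 _)))
           (CovZ.n1 (-640, 28640) (by decide +kernel)
            (CovZ.leaf K2_ok TE_l1715 _)
            (CovZ.leaf K2_ok TE_l1716 _)))
          (CovZ.n1 (-480, 28320) (by decide +kernel)
           (CovZ.n2 (-640, 28320) (by decide +kernel)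
            (CovZ.n2 (-560, 28400) (by decide +kernel)
             (CovZ.leaf K2_ok TE_l1717 _)
             (CovZ.leaf K2_ok TE_l1718 _))
            (CovZ.n1 (-560, 28240) (by decide +kernel)
             (CovZ.leaf K2_ok TE_l1719 _)
             (CovZ.leaf K2_ok TE_l1720 _)))
           (CovZ.n1 (-480, 28480) (by decide +kernel)
            (CovZ.leaf K2_ok TE_l1721 _)
            (CovZ.n1 (-560, 28400) (by decide +kernel)
             (CovZ.leaf K2_ok TE_l1722 _)
             (CovZ.leaf K2_ok TE_l1723 _)))))))
       (CovZ.n1 (-1280, 28800) (by decide +kernel)
        (CovZ.n2 (-960, 29120) (by decide +kernel)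
         (CovZ.subM 14175589599060622777835221122180246986350164184045453312 (by decide +kernel)
          (CovZ.n2 (-960, 28800) (by decide +kernel)
           (CovZ.n2 (-1120, 28960) (by decide +kernel)
            (CovZ.n2 (-960, 28960) (by decide +kernel)
             (CovZ.leaf K2_ok TE_l1724 _)
             (CovZ.leaf K2_ok TE_l1725 _))
            (CovZ.n1 (-1120, 28800) (by decide +kernel)
             (CovZ.leaf K2_ok TE_l1726 _)
             (CovZ.leaf K2_ok TE_l1727 _)))
           (CovZ.n1 (-800, 28960) (by decide +kernel)
            (CovZ.n2 (-800, 28800) (by decide +kernel)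
             (CovZ.leaf K2_ok TE_l1728 _)
             (CovZ.leaf K2_ok TE_l1729 _))
            (CovZ.leaf K2_ok TE_l1730 _))))
         (CovZ.subM 13792465714022556524752100516546705692357015073862975488 (by decide +kernel)
          (CovZ.n1 (-1280, 29120) (by decide +kernel)
           (CovZ.n2 (-1120, 29280) (by decide +kernel)
            (CovZ.leaf K2_ok TE_l1731 _)
            (CovZ.n1 (-1280, 29280) (by decide +kernel)
             (CovZ.leaf K2_ok TE_l1732 _)
             (CovZ.leaf K2_ok TE_l1733 _)))
           (CovZ.n1 (-1120, 28960) (by decide +kernel)
            (CovZ.n2 (-1280, 28960) (by decide +kernel)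
             (CovZ.n2 (-1200, 29040) (by decide +kernel)
              (CovZ.leaf K2_ok TE_l1734 _)
              (CovZ.leaf K2_ok TE_l1735 _))
             (CovZ.leaf K2_ok TE_l1736 _))
            (CovZ.n1 (-1120, 29120) (by decide +kernel)
             (CovZ.leaf K2_ok TE_l1737 _)
             (CovZ.leaf K2_ok TE_l1738 _))))))
        (CovZ.n1 (-960, 28480) (by decide +kernel)
         (CovZ.subM 13792465716698645948657553969014229793996505638175244288 (by decide +kernel)
          (CovZ.n2 (-1280, 28480) (by decide +kernel)
           (CovZ.n2 (-1120, 28640) (by decide +kernel)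
            (CovZ.n2 (-1120, 28480) (by decide +kernel)
             (CovZ.n2 (-1200, 28560) (by decide +kernel)
              (CovZ.leaf K2_ok TE_l1739 _)
              (CovZ.leaf K2_ok TE_l1740 _))
             (CovZ.n1 (-1040, 28560) (by decide +kernel)
              (CovZ.leaf K2_ok TE_l1741 _)
              (CovZ.leaf K2_ok TE_l1742 _)))
            (CovZ.n1 (-1280, 28640) (by decide +kernel)
             (CovZ.n2 (-1200, 28720) (by decide +kernel)
              (CovZ.leaf K2_ok TE_l1743 _)
              (CovZ.leaf K2_ok TE_l1744 _))
             (CovZ.n1 (-1200, 28560) (by decide +kernel)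
              (CovZ.leaf K2_ok TE_l1745 _)
              (CovZ.leaf K2_ok TE_l1746 _))))
           (CovZ.n1 (-1120, 28320) (by decide +kernel)
            (CovZ.n2 (-1280, 28320) (by decide +kernel)
             (CovZ.n2 (-1200, 28400) (by decide +kernel)
              (CovZ.leaf K2_ok TE_l1747 _)
              (CovZ.leaf K2_ok TE_l1748 _))
             (CovZ.n1 (-1200, 28240) (by decide +kernel)
              (CovZ.n2 (-1280, 28240) (by decide +kernel)
               (CovZ.leaf K2_ok TE_l1749 _)
               (CovZ.leaf K2_ok TE_l1750 _))
              (CovZ.leaf K2_ok TE_l1751 _)))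
            (CovZ.n1 (-1120, 28480) (by decide +kernel)
             (CovZ.leaf K2_ok TE_l1752 _)
             (CovZ.n1 (-1200, 28400) (by decide +kernel)
              (CovZ.leaf K2_ok TE_l1753 _)
              (CovZ.leaf K2_ok TE_l1754 _))))))
         (CovZ.subM 14175589599060622777835221122180246986350164184045453312 (by decide +kernel)
          (CovZ.n1 (-960, 28800) (by decide +kernel)
           (CovZ.n2 (-800, 28640) (by decide +kernel)
            (CovZ.n2 (-960, 28640) (by decide +kernel)
             (CovZ.leaf K2_ok TE_l1755 _)
             (CovZ.leaf K2_ok TE_l1756 _))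
            (CovZ.n1 (-800, 28800) (by decide +kernel)
             (CovZ.leaf K2_ok TE_l1757 _)
             (CovZ.leaf K2_ok TE_l1758 _)))
           (CovZ.n1 (-1120, 28640) (by decide +kernel)
            (CovZ.n2 (-1120, 28800) (by decide +kernel)
             (CovZ.leaf K2_ok TE_l1759 _)
             (CovZ.n1 (-1200, 28720) (by decide +kernel)
              (CovZ.leaf K2_ok TE_l1760 _)
              (CovZ.leaf K2_ok TE_l1761 _)))
            (CovZ.n1 (-960, 28640) (by decide +kernel)
             (CovZ.n2 (-1040, 28560) (by decide +kernel)
              (CovZ.leaf K2_ok TE_l1762 _)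
              (CovZ.leaf K2_ok TE_l1763 _))
             (CovZ.leaf K2_ok TE_l1764 _))))))))

theorem TE_u111 : CovZ TE_M (toL (selN TE_LN 19283258087643756127106720342194102654864380783341973658402820)) [0, 7, 6, 1] (-2560, 30720) (-1920, 30080) (-1280, 30720) :=
    (CovZ.n2 (-1920, 30720) (by decide +kernel)
        (CovZ.n2 (-1600, 30400) (by decide +kernel)
         (CovZ.subM 12855504378017256374217543334607009278970986344280485353488388 (by decide +kernel)
          (CovZ.n2 (-1920, 30400) (by decide +kernel)
           (CovZ.n2 (-1760, 30560) (by decide +kernel)
            (CovZ.n2 (-1760, 30400) (by decide +kernel)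
             (CovZ.n2 (-1840, 30480) (by decide +kernel)
              (CovZ.leaf K2_ok TE_l1823 _)
              (CovZ.leaf K2_ok TE_l1824 _))
             (CovZ.n1 (-1680, 30480) (by decide +kernel)
              (CovZ.leaf K2_ok TE_l1825 _)
              (CovZ.leaf K2_ok TE_l1826 _)))
            (CovZ.n1 (-1920, 30560) (by decide +kernel)
             (CovZ.n2 (-1840, 30640) (by decide +kernel)
              (CovZ.leaf K2_ok TE_l1827 _)
              (CovZ.leaf K2_ok TE_l1828 _))
             (CovZ.n1 (-1840, 30480) (by decide +kernel)
              (CovZ.n2 (-1920, 30480) (by decide +kernel)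
               (CovZ.leaf K2_ok TE_l1829 _)
               (CovZ.leaf K2_ok TE_l1830 _))
              (CovZ.leaf K2_ok TE_l1831 _))))
           (CovZ.n1 (-1760, 30240) (by decide +kernel)
            (CovZ.subM 12855504354071922204335696738729300820177642397006416391962624 (by decide +kernel)
             (CovZ.n2 (-1920, 30240) (by decide +kernel)
              (CovZ.n2 (-1840, 30320) (by decide +kernel)
               (CovZ.n2 (-1840, 30240) (by decide +kernel)
                (CovZ.n2 (-1880, 30280) (by decide +kernel)
                 (CovZ.leaf K2_ok TE_l19582 _)
                 (CovZ.leaf K2_ok TE_l19583 _))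
                (CovZ.n1 (-1800, 30280) (by decide +kernel)
                 (CovZ.leaf K2_ok TE_l1832 _)
                 (CovZ.leaf K2_ok TE_l1833 _)))
               (CovZ.n1 (-1920, 30320) (by decide +kernel)
                (CovZ.n2 (-1880, 30360) (by decide +kernel)
                 (CovZ.leaf K2_ok TE_l19584 _)
                 (CovZ.badM (by decide +kernel)))
                (CovZ.n1 (-1880, 30280) (by decide +kernel)
                 (CovZ.badM (by decide +kernel))
                 (CovZ.leaf K2_ok TE_l19585 _))))
              (CovZ.n1 (-1840, 30160) (by decide +kernel)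
               (CovZ.badM (by decide +kernel))
               (CovZ.n1 (-1840, 30240) (by decide +kernel)
                (CovZ.leaf K2_ok TE_l1834 _)
                (CovZ.n1 (-1880, 30200) (by decide +kernel)
                 (CovZ.leaf K2_ok TE_l19586 _)
                 (CovZ.leaf K2_ok TE_l19587 _))))))
            (CovZ.n1 (-1760, 30400) (by decide +kernel)
             (CovZ.n2 (-1680, 30320) (by decide +kernel)
              (CovZ.leaf K2_ok TE_l1835 _)
              (CovZ.leaf K2_ok TE_l1836 _))
             (CovZ.subM 12855504354071922204335696738729300820177946768283632599564292 (by decide +kernel)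
              (CovZ.n1 (-1840, 30320) (by decide +kernel)
               (CovZ.n2 (-1840, 30400) (by decide +kernel)
                (CovZ.leaf K2_ok TE_l1837 _)
                (CovZ.n1 (-1880, 30360) (by decide +kernel)
                 (CovZ.leaf K2_ok TE_l1838 _)
                 (CovZ.leaf K2_ok TE_l1839 _)))
               (CovZ.n1 (-1760, 30320) (by decide +kernel)
                (CovZ.leaf K2_ok TE_l1840 _)
                (CovZ.leaf K2_ok TE_l1841 _))))))))
         (CovZ.n1 (-1600, 30720) (by decide +kernel)
          (CovZ.n2 (-1440, 30560) (by decide +kernel)
           (CovZ.n2 (-1600, 30560) (by decide +kernel)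
            (CovZ.leaf K2_ok TE_l1842 _)
            (CovZ.leaf K2_ok TE_l1843 _))
           (CovZ.leaf K2_ok TE_l1844 _))
          (CovZ.subM 19283256531107974650355878292122566617998722366334414599749636 (by decide +kernel)
           (CovZ.n1 (-1760, 30560) (by decide +kernel)
            (CovZ.n2 (-1760, 30720) (by decide +kernel)
             (CovZ.leaf K2_ok TE_l1845 _)
             (CovZ.n1 (-1840, 30640) (by decide +kernel)
              (CovZ.leaf K2_ok TE_l1846 _)
              (CovZ.leaf K2_ok TE_l1847 _)))
            (CovZ.n1 (-1600, 30560) (by decide +kernel)
             (CovZ.n2 (-1680, 30480) (by decide +kernel)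
              (CovZ.leaf K2_ok TE_l1848 _)
              (CovZ.leaf K2_ok TE_l1849 _))
             (CovZ.leaf K2_ok TE_l1850 _))))))
        (CovZ.subM 23945334169881846593281560029525948579752817197056004 (by decide +kernel)
         (CovZ.n1 (-2240, 30400) (by decide +kernel)
          (CovZ.n2 (-2240, 30720) (by decide +kernel)
           (CovZ.n2 (-2080, 30560) (by decide +kernel)
            (CovZ.subM 23945242826029513411849172299223590217414835638894592 (by decide +kernel)
             (CovZ.n2 (-2240, 30560) (by decide +kernel)
              (CovZ.n2 (-2160, 30640) (by decide +kernel)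
               (CovZ.n2 (-2160, 30560) (by decide +kernel)
                (CovZ.n2 (-2200, 30600) (by decide +kernel)
                 (CovZ.badM (by decide +kernel))
                 (CovZ.n1 (-2200, 30560) (by decide +kernel)
                  (CovZ.n2 (-2220, 30580) (by decide +kernel)
                   (CovZ.badM (by decide +kernel))
                   (CovZ.badM (by decide +kernel)))
                  (CovZ.badM (by decide +kernel))))
                (CovZ.badM (by decide +kernel)))
               (CovZ.n1 (-2240, 30640) (by decide +kernel)
                (CovZ.badM (by decide +kernel))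
                (CovZ.n1 (-2200, 30600) (by decide +kernel)
                 (CovZ.n2 (-2240, 30600) (by decide +kernel)
                  (CovZ.badM (by decide +kernel))
                  (CovZ.n1 (-2220, 30580) (by decide +kernel)
                   (CovZ.badM (by decide +kernel))
                   (CovZ.badM (by decide +kernel))))
                 (CovZ.badM (by decide +kernel)))))
              (CovZ.n1 (-2160, 30480) (by decide +kernel)
               (CovZ.badM (by decide +kernel))
               (CovZ.n1 (-2160, 30560) (by decide +kernel)
                (CovZ.n2 (-2120, 30520) (by decide +kernel)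
                 (CovZ.badM (by decide +kernel))
                 (CovZ.n1 (-2120, 30560) (by decide +kernel)
                  (CovZ.n2 (-2100, 30540) (by decide +kernel)
                   (CovZ.badM (by decide +kernel))
                   (CovZ.badM (by decide +kernel)))
                  (CovZ.badM (by decide +kernel))))
                (CovZ.badM (by decide +kernel))))))
            (CovZ.subM 91343852333181432387730302063214432802205335552 (by decide +kernel)
             (CovZ.n1 (-2080, 30720) (by decide +kernel)
              (CovZ.n2 (-2000, 30640) (by decide +kernel)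
               (CovZ.badM (by decide +kernel))
               (CovZ.n1 (-2000, 30720) (by decide +kernel)
                (CovZ.leaf K2_ok TE_l1851 _)
                (CovZ.n1 (-2040, 30680) (by decide +kernel)
                 (CovZ.leaf K2_ok TE_l19588 _)
                 (CovZ.leaf K2_ok TE_l19589 _))))
              (CovZ.badM (by decide +kernel)))))
           (CovZ.subM 23945242826029513411849172299223590217414835638894592 (by decide +kernel)
            (CovZ.n1 (-2400, 30560) (by decide +kernel)
             (CovZ.n2 (-2400, 30720) (by decide +kernel)
              (CovZ.n2 (-2320, 30640) (by decide +kernel)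
               (CovZ.n2 (-2400, 30640) (by decide +kernel)
                (CovZ.badM (by decide +kernel))
                (CovZ.badM (by decide +kernel)))
               (CovZ.badM (by decide +kernel)))
              (CovZ.n1 (-2480, 30640) (by decide +kernel)
               (CovZ.badM (by decide +kernel))
               (CovZ.n1 (-2400, 30640) (by decide +kernel)
                (CovZ.badM (by decide +kernel))
                (CovZ.badM (by decide +kernel)))))
             (CovZ.n1 (-2240, 30560) (by decide +kernel)
              (CovZ.badM (by decide +kernel))
              (CovZ.n1 (-2320, 30640) (by decide +kernel)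
               (CovZ.n2 (-2240, 30640) (by decide +kernel)
                (CovZ.n2 (-2280, 30600) (by decide +kernel)
                 (CovZ.badM (by decide +kernel))
                 (CovZ.n1 (-2240, 30600) (by decide +kernel)
                  (CovZ.badM (by decide +kernel))
                  (CovZ.badM (by decide +kernel))))
                (CovZ.badM (by decide +kernel)))
               (CovZ.badM (by decide +kernel)))))))
          (CovZ.n1 (-1920, 30400) (by decide +kernel)
           (CovZ.badM (by decide +kernel))
           (CovZ.n1 (-2080, 30560) (by decide +kernel)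
            (CovZ.n2 (-1920, 30560) (by decide +kernel)
             (CovZ.n2 (-2000, 30480) (by decide +kernel)
              (CovZ.n2 (-2000, 30560) (by decide +kernel)
               (CovZ.leaf K2_ok TE_l1852 _)
               (CovZ.n1 (-2040, 30520) (by decide +kernel)
                (CovZ.leaf K2_ok TE_l17120 _)
                (CovZ.leaf K2_ok TE_l1853 _)))
              (CovZ.n1 (-1920, 30480) (by decide +kernel)
               (CovZ.n2 (-1960, 30440) (by decide +kernel)
                (CovZ.leaf K2_ok TE_l17121 _)
                (CovZ.leaf K2_ok TE_l17122 _))
               (CovZ.leaf K2_ok TE_l1854 _)))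
             (CovZ.n1 (-2000, 30640) (by decide +kernel)
              (CovZ.n2 (-1920, 30640) (by decide +kernel)
               (CovZ.leaf K2_ok TE_l1855 _)
               (CovZ.leaf K2_ok TE_l1856 _))
              (CovZ.subM 313594649253062377476 (by decide +kernel)
               (CovZ.n1 (-2000, 30560) (by decide +kernel)
                (CovZ.n2 (-2040, 30600) (by decide +kernel)
                 (CovZ.leaf K2_ok TE_l17123 _)
                 (CovZ.leaf K2_ok TE_l17124 _))
                (CovZ.n1 (-1960, 30600) (by decide +kernel)
                 (CovZ.leaf K2_ok TE_l1857 _)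
                 (CovZ.leaf K2_ok TE_l17125 _))))))
            (CovZ.subM 23945242826029513411849172299223580994042798784118784 (by decide +kernel)
             (CovZ.n1 (-2080, 30400) (by decide +kernel)
              (CovZ.n2 (-2160, 30480) (by decide +kernel)
               (CovZ.n2 (-2080, 30480) (by decide +kernel)
                (CovZ.badM (by decide +kernel))
                (CovZ.n1 (-2120, 30520) (by decide +kernel)
                 (CovZ.n2 (-2080, 30520) (by decide +kernel)
                  (CovZ.badM (by decide +kernel))
                  (CovZ.n1 (-2100, 30540) (by decide +kernel)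
                   (CovZ.n2 (-2080, 30540) (by decide +kernel)
                    (CovZ.badM (by decide +kernel))
                    (CovZ.badM (by decide +kernel)))
                   (CovZ.badM (by decide +kernel))))
                 (CovZ.badM (by decide +kernel))))
               (CovZ.badM (by decide +kernel)))
              (CovZ.n1 (-2000, 30480) (by decide +kernel)
               (CovZ.badM (by decide +kernel))
               (CovZ.n1 (-2080, 30480) (by decide +kernel)
                (CovZ.n2 (-2040, 30520) (by decide +kernel)
                 (CovZ.badM (by decide +kernel))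
                 (CovZ.n1 (-2080, 30520) (by decide +kernel)
                  (CovZ.n2 (-2060, 30540) (by decide +kernel)
                   (CovZ.n2 (-2060, 30520) (by decide +kernel)
                    (CovZ.n2 (-2070, 30530) (by decide +kernel)
                     (CovZ.badM (by decide +kernel))
                     (CovZ.badM (by decide +kernel)))
                    (CovZ.badM (by decide +kernel)))
                   (CovZ.n1 (-2080, 30540) (by decide +kernel)
                    (CovZ.badM (by decide +kernel))
                    (CovZ.n1 (-2070, 30530) (by decide +kernel)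
                     (CovZ.badM (by decide +kernel))
                     (CovZ.badM (by decide +kernel)))))
                  (CovZ.badM (by decide +kernel))))
                (CovZ.badM (by decide +kernel)))))))))))

theorem TE_u112 : CovZ TE_M (toL (selN TE_LN 19283258087643756127106720342194102654864380783341973658402820)) [0, 7, 6, 1] (-1920, 30080) (-1280, 29440) (-1280, 30720) :=
    (CovZ.n1 (-1280, 30080) (by decide +kernel)
        (CovZ.n2 (-1600, 29760) (by decide +kernel)
         (CovZ.subM 12855505886660999175013732886437591457210900578883653483888644 (by decide +kernel)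
          (CovZ.n2 (-1600, 30080) (by decide +kernel)
           (CovZ.n2 (-1440, 29920) (by decide +kernel)
            (CovZ.n2 (-1600, 29920) (by decide +kernel)
             (CovZ.n2 (-1520, 30000) (by decide +kernel)
              (CovZ.leaf K2_ok TE_l1858 _)
              (CovZ.leaf K2_ok TE_l1859 _))
             (CovZ.subM 93536104789177789361263486723788638604972410273792 (by decide +kernel)
              (CovZ.n1 (-1520, 29840) (by decide +kernel)
               (CovZ.leaf K2_ok TE_l1860 _)
               (CovZ.n1 (-1520, 29920) (by decide +kernel)
                (CovZ.leaf K2_ok TE_l1861 _)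
                (CovZ.n1 (-1560, 29880) (by decide +kernel)
                 (CovZ.leaf K2_ok TE_l1862 _)
                 (CovZ.leaf K2_ok TE_l1863 _))))))
            (CovZ.n1 (-1440, 30080) (by decide +kernel)
             (CovZ.leaf K2_ok TE_l1864 _)
             (CovZ.n1 (-1520, 30000) (by decide +kernel)
              (CovZ.leaf K2_ok TE_l1865 _)
              (CovZ.leaf K2_ok TE_l1866 _))))
           (CovZ.subM 12855504354165458309124874528090485078738898324529644239323136 (by decide +kernel)
            (CovZ.n1 (-1760, 29920) (by decide +kernel)
             (CovZ.n2 (-1760, 30080) (by decide +kernel)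
              (CovZ.n2 (-1680, 30000) (by decide +kernel)
               (CovZ.n2 (-1760, 30000) (by decide +kernel)
                (CovZ.n2 (-1720, 30040) (by decide +kernel)
                 (CovZ.leaf K2_ok TE_l1867 _)
                 (CovZ.leaf K2_ok TE_l1868 _))
                (CovZ.n1 (-1720, 29960) (by decide +kernel)
                 (CovZ.badM (by decide +kernel))
                 (CovZ.leaf K2_ok TE_l1869 _)))
               (CovZ.n1 (-1680, 30080) (by decide +kernel)
                (CovZ.leaf K2_ok TE_l1870 _)
                (CovZ.n1 (-1720, 30040) (by decide +kernel)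
                 (CovZ.leaf K2_ok TE_l1871 _)
                 (CovZ.leaf K2_ok TE_l1872 _))))
              (CovZ.badM (by decide +kernel)))
             (CovZ.n1 (-1600, 29920) (by decide +kernel)
              (CovZ.n2 (-1680, 29840) (by decide +kernel)
               (CovZ.n2 (-1680, 29920) (by decide +kernel)
                (CovZ.n2 (-1640, 29880) (by decide +kernel)
                 (CovZ.leaf K2_ok TE_l1873 _)
                 (CovZ.leaf K2_ok TE_l1874 _))
                (CovZ.badM (by decide +kernel)))
               (CovZ.n1 (-1600, 29840) (by decide +kernel)
                (CovZ.n2 (-1640, 29800) (by decide +kernel)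
                 (CovZ.leaf K2_ok TE_l1875 _)
                 (CovZ.leaf K2_ok TE_l1876 _))
                (CovZ.n1 (-1640, 29880) (by decide +kernel)
                 (CovZ.leaf K2_ok TE_l1877 _)
                 (CovZ.leaf K2_ok TE_l1878 _))))
              (CovZ.n1 (-1680, 30000) (by decide +kernel)
               (CovZ.n2 (-1600, 30000) (by decide +kernel)
                (CovZ.n2 (-1640, 29960) (by decide +kernel)
                 (CovZ.leaf K2_ok TE_l1879 _)
                 (CovZ.leaf K2_ok TE_l1880 _))
                (CovZ.leaf K2_ok TE_l1881 _))
               (CovZ.n1 (-1680, 29920) (by decide +kernel)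
                (CovZ.n2 (-1720, 29960) (by decide +kernel)
                 (CovZ.leaf K2_ok TE_l1882 _)
                 (CovZ.badM (by decide +kernel)))
                (CovZ.n1 (-1640, 29960) (by decide +kernel)
                 (CovZ.leaf K2_ok TE_l1883 _)
                 (CovZ.leaf K2_ok TE_l1884 _)))))))))
         (CovZ.n1 (-1280, 29760) (by decide +kernel)
          (CovZ.subM 1532589077149083997737251349983952425345663610724024320 (by decide +kernel)
           (CovZ.n2 (-1440, 29600) (by decide +kernel)
            (CovZ.n2 (-1440, 29760) (by decide +kernel)
             (CovZ.leaf K2_ok TE_l1885 _)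
             (CovZ.n1 (-1520, 29680) (by decide +kernel)
              (CovZ.leaf K2_ok TE_l1886 _)
              (CovZ.leaf K2_ok TE_l1887 _)))
            (CovZ.n1 (-1280, 29600) (by decide +kernel)
             (CovZ.n2 (-1360, 29520) (by decide +kernel)
              (CovZ.leaf K2_ok TE_l1888 _)
              (CovZ.leaf K2_ok TE_l1889 _))
             (CovZ.leaf K2_ok TE_l1890 _))))
          (CovZ.n1 (-1440, 29920) (by decide +kernel)
           (CovZ.n2 (-1280, 29920) (by decide +kernel)
            (CovZ.leaf K2_ok TE_l1891 _)
            (CovZ.leaf K2_ok TE_l1892 _))
           (CovZ.subM 1532589076970678036149006364851666679164476718676180992 (by decide +kernel)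
            (CovZ.n1 (-1440, 29760) (by decide +kernel)
             (CovZ.n2 (-1520, 29840) (by decide +kernel)
              (CovZ.leaf K2_ok TE_l1893 _)
              (CovZ.leaf K2_ok TE_l1894 _))
             (CovZ.n1 (-1360, 29840) (by decide +kernel)
              (CovZ.leaf K2_ok TE_l1895 _)
              (CovZ.leaf K2_ok TE_l1896 _)))))))
        (CovZ.n1 (-1600, 30400) (by decide +kernel)
         (CovZ.n2 (-1280, 30400) (by decide +kernel)
          (CovZ.n2 (-1440, 30240) (by decide +kernel)
           (CovZ.n2 (-1440, 30400) (by decide +kernel)
            (CovZ.leaf K2_ok TE_l1897 _)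
            (CovZ.leaf K2_ok TE_l1898 _))
           (CovZ.n1 (-1280, 30240) (by decide +kernel)
            (CovZ.leaf K2_ok TE_l1899 _)
            (CovZ.leaf K2_ok TE_l1900 _)))
          (CovZ.n1 (-1440, 30560) (by decide +kernel)
           (CovZ.leaf K2_ok TE_l1901 _)
           (CovZ.leaf K2_ok TE_l1902 _)))
         (CovZ.n1 (-1600, 30080) (by decide +kernel)
          (CovZ.subM 12855504378110701135154387939939657377962783689849736540454916 (by decide +kernel)
           (CovZ.n2 (-1760, 30240) (by decide +kernel)
            (CovZ.n2 (-1600, 30240) (by decide +kernel)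
             (CovZ.n2 (-1680, 30160) (by decide +kernel)
              (CovZ.leaf K2_ok TE_l1903 _)
              (CovZ.leaf K2_ok TE_l1904 _))
             (CovZ.n1 (-1680, 30320) (by decide +kernel)
              (CovZ.leaf K2_ok TE_l1905 _)
              (CovZ.leaf K2_ok TE_l1906 _)))
            (CovZ.subM 12855504354165458309124874528090485078738898324529644239323136 (by decide +kernel)
             (CovZ.n1 (-1760, 30080) (by decide +kernel)
              (CovZ.n2 (-1840, 30160) (by decide +kernel)
               (CovZ.n2 (-1760, 30160) (by decide +kernel)
                (CovZ.n2 (-1800, 30120) (by decide +kernel)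
                 (CovZ.leaf K2_ok TE_l1907 _)
                 (CovZ.leaf K2_ok TE_l1908 _))
                (CovZ.leaf K2_ok TE_l1909 _))
               (CovZ.badM (by decide +kernel)))
              (CovZ.n1 (-1680, 30160) (by decide +kernel)
               (CovZ.n2 (-1680, 30080) (by decide +kernel)
                (CovZ.leaf K2_ok TE_l1910 _)
                (CovZ.leaf K2_ok TE_l1911 _))
               (CovZ.n1 (-1760, 30160) (by decide +kernel)
                (CovZ.n2 (-1720, 30200) (by decide +kernel)
                 (CovZ.leaf K2_ok TE_l1912 _)
                 (CovZ.leaf K2_ok TE_l1913 _))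
                (CovZ.leaf K2_ok TE_l1914 _)))))))
          (CovZ.n1 (-1440, 30240) (by decide +kernel)
           (CovZ.subM 12855505886660999175013732886437591457210900578883653483888644 (by decide +kernel)
            (CovZ.n2 (-1440, 30080) (by decide +kernel)
             (CovZ.n2 (-1520, 30160) (by decide +kernel)
              (CovZ.leaf K2_ok TE_l1915 _)
              (CovZ.leaf K2_ok TE_l1916 _))
             (CovZ.n1 (-1360, 30160) (by decide +kernel)
              (CovZ.leaf K2_ok TE_l1917 _)
              (CovZ.leaf K2_ok TE_l1918 _))))
           (CovZ.subM 12855504378110701135154387939939736606125297954187330084405252 (by decide +kernel)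
            (CovZ.n1 (-1600, 30240) (by decide +kernel)
             (CovZ.n2 (-1520, 30320) (by decide +kernel)
              (CovZ.leaf K2_ok TE_l1919 _)
              (CovZ.leaf K2_ok TE_l1920 _))
             (CovZ.n1 (-1520, 30160) (by decide +kernel)
              (CovZ.leaf K2_ok TE_l1921 _)
              (CovZ.leaf K2_ok TE_l1922 _))))))))

theorem TE_u113 : CovZ TE_M (toL (selN TE_LN 23491538020451331505232285491076838193574585194570473231360198)) [0, 7, 6, 1] (2560, 28160) (2560, 28480) (2240, 28480) :=
    (CovZ.n2 (2400, 28320) (by decide +kernel)
          (CovZ.n2 (2400, 28480) (by decide +kernel)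
           (CovZ.subM 20275042871518262294790927161121873867030259597073992172699650 (by decide +kernel)
            (CovZ.n2 (2480, 28400) (by decide +kernel)
             (CovZ.n2 (2400, 28400) (by decide +kernel)
              (CovZ.n2 (2440, 28440) (by decide +kernel)
               (CovZ.n2 (2440, 28400) (by decide +kernel)
                (CovZ.leaf K2_ok TE_l5240 _)
                (CovZ.leaf K2_ok TE_l5241 _))
               (CovZ.n1 (2400, 28440) (by decide +kernel)
                (CovZ.leaf K2_ok TE_l5242 _)
                (CovZ.leaf K2_ok TE_l5243 _)))
              (CovZ.n1 (2440, 28360) (by decide +kernel)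
               (CovZ.n2 (2400, 28360) (by decide +kernel)
                (CovZ.leaf K2_ok TE_l5244 _)
                (CovZ.leaf K2_ok TE_l5245 _))
               (CovZ.n1 (2440, 28400) (by decide +kernel)
                (CovZ.leaf K2_ok TE_l5246 _)
                (CovZ.leaf K2_ok TE_l5247 _))))
             (CovZ.n1 (2480, 28480) (by decide +kernel)
              (CovZ.n2 (2520, 28440) (by decide +kernel)
               (CovZ.n2 (2480, 28440) (by decide +kernel)
                (CovZ.n2 (2500, 28460) (by decide +kernel)
                 (CovZ.leaf K2_ok TE_l5248 _)
                 (CovZ.leaf K2_ok TE_l5249 _))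
                (CovZ.leaf K2_ok TE_l5250 _))
               (CovZ.n1 (2520, 28480) (by decide +kernel)
                (CovZ.leaf K2_ok TE_l5251 _)
                (CovZ.leaf K2_ok TE_l5252 _)))
              (CovZ.n1 (2440, 28440) (by decide +kernel)
               (CovZ.n2 (2440, 28480) (by decide +kernel)
                (CovZ.leaf K2_ok TE_l5253 _)
                (CovZ.leaf K2_ok TE_l5254 _))
               (CovZ.n1 (2480, 28440) (by decide +kernel)
                (CovZ.leaf K2_ok TE_l5255 _)
                (CovZ.leaf K2_ok TE_l5256 _))))))
           (CovZ.n1 (2320, 28400) (by decide +kernel)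
            (CovZ.n2 (2320, 28480) (by decide +kernel)
             (CovZ.n2 (2360, 28440) (by decide +kernel)
              (CovZ.leaf K2_ok TE_l5257 _)
              (CovZ.leaf K2_ok TE_l5258 _))
             (CovZ.n1 (2280, 28440) (by decide +kernel)
              (CovZ.leaf K2_ok TE_l5259 _)
              (CovZ.leaf K2_ok TE_l5260 _)))
            (CovZ.subM 20275042823627776642731900337423687724908126137663581692362754 (by decide +kernel)
             (CovZ.n1 (2400, 28400) (by decide +kernel)
              (CovZ.n2 (2360, 28360) (by decide +kernel)
               (CovZ.n2 (2360, 28400) (by decide +kernel)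
                (CovZ.leaf K2_ok TE_l5261 _)
                (CovZ.leaf K2_ok TE_l5262 _))
               (CovZ.n1 (2400, 28360) (by decide +kernel)
                (CovZ.leaf K2_ok TE_l5263 _)
                (CovZ.leaf K2_ok TE_l5264 _)))
              (CovZ.n1 (2360, 28440) (by decide +kernel)
               (CovZ.leaf K2_ok TE_l5265 _)
               (CovZ.leaf K2_ok TE_l5266 _))))))
          (CovZ.subM 196974527901878345496426744919829597520566859338430283776 (by decide +kernel)
           (CovZ.n1 (2560, 28320) (by decide +kernel)
            (CovZ.n2 (2480, 28240) (by decide +kernel)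
             (CovZ.n2 (2480, 28320) (by decide +kernel)
              (CovZ.n2 (2520, 28280) (by decide +kernel)
               (CovZ.n2 (2480, 28280) (by decide +kernel)
                (CovZ.n2 (2500, 28300) (by decide +kernel)
                 (CovZ.leaf K2_ok TE_l5267 _)
                 (CovZ.leaf K2_ok TE_l5268 _))
                (CovZ.n1 (2500, 28260) (by decide +kernel)
                 (CovZ.leaf K2_ok TE_l5269 _)
                 (CovZ.leaf K2_ok TE_l5270 _)))
               (CovZ.subM 48850874915500985565802128398115447081008765050290176 (by decide +kernel)
                (CovZ.n1 (2520, 28320) (by decide +kernel)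
                 (CovZ.n2 (2540, 28300) (by decide +kernel)
                  (CovZ.leaf K2_ok TE_l5271 _)
                  (CovZ.leaf K2_ok TE_l5272 _))
                 (CovZ.n1 (2500, 28300) (by decide +kernel)
                  (CovZ.leaf K2_ok TE_l5273 _)
                  (CovZ.leaf K2_ok TE_l5274 _)))))
              (CovZ.n1 (2440, 28280) (by decide +kernel)
               (CovZ.n2 (2440, 28320) (by decide +kernel)
                (CovZ.leaf K2_ok TE_l5275 _)
                (CovZ.leaf K2_ok TE_l5276 _))
               (CovZ.n1 (2480, 28280) (by decide +kernel)
                (CovZ.n2 (2460, 28260) (by decide +kernel)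
                 (CovZ.leaf K2_ok TE_l5277 _)
                 (CovZ.leaf K2_ok TE_l5278 _))
                (CovZ.leaf K2_ok TE_l5279 _))))
             (CovZ.n1 (2560, 28240) (by decide +kernel)
              (CovZ.n2 (2520, 28200) (by decide +kernel)
               (CovZ.n2 (2520, 28240) (by decide +kernel)
                (CovZ.n2 (2540, 28220) (by decide +kernel)
                 (CovZ.leaf K2_ok TE_l5280 _)
                 (CovZ.leaf K2_ok TE_l5281 _))
                (CovZ.n1 (2500, 28220) (by decide +kernel)
                 (CovZ.leaf K2_ok TE_l5282 _)
                 (CovZ.leaf K2_ok TE_l5283 _)))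
               (CovZ.subM 196159452820383638913974956199358381323421731218186567680 (by decide +kernel)
                (CovZ.n1 (2560, 28200) (by decide +kernel)
                 (CovZ.n2 (2540, 28180) (by decide +kernel)
                  (CovZ.n2 (2540, 28200) (by decide +kernel)
                   (CovZ.leaf K2_ok TE_l5284 _)
                   (CovZ.leaf K2_ok TE_l5285 _))
                  (CovZ.n1 (2560, 28180) (by decide +kernel)
                   (CovZ.n2 (2550, 28170) (by decide +kernel)
                    (CovZ.leaf K2_ok TE_l5286 _)
                    (CovZ.leaf K2_ok TE_l5287 _))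
                   (CovZ.leaf K2_ok TE_l5288 _)))
                 (CovZ.n1 (2540, 28220) (by decide +kernel)
                  (CovZ.n2 (2560, 28220) (by decide +kernel)
                   (CovZ.leaf K2_ok TE_l5289 _)
                   (CovZ.leaf K2_ok TE_l5290 _))
                  (CovZ.leaf K2_ok TE_l5291 _)))))
              (CovZ.n1 (2520, 28280) (by decide +kernel)
               (CovZ.subM 47914075201924071013352383273017675182497601700233216 (by decide +kernel)
                (CovZ.n2 (2560, 28280) (by decide +kernel)
                 (CovZ.n2 (2540, 28260) (by decide +kernel)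
                  (CovZ.leaf K2_ok TE_l5292 _)
                  (CovZ.n1 (2560, 28260) (by decide +kernel)
                   (CovZ.leaf K2_ok TE_l5293 _)
                   (CovZ.leaf K2_ok TE_l5294 _)))
                 (CovZ.n1 (2540, 28300) (by decide +kernel)
                  (CovZ.leaf K2_ok TE_l5295 _)
                  (CovZ.leaf K2_ok TE_l5296 _))))
               (CovZ.n1 (2520, 28240) (by decide +kernel)
                (CovZ.n2 (2500, 28260) (by decide +kernel)
                 (CovZ.leaf K2_ok TE_l5297 _)
                 (CovZ.leaf K2_ok TE_l5298 _))
                (CovZ.n1 (2540, 28260) (by decide +kernel)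
                 (CovZ.leaf K2_ok TE_l5299 _)
                 (CovZ.leaf K2_ok TE_l5300 _))))))
            (CovZ.n1 (2480, 28400) (by decide +kernel)
             (CovZ.n2 (2560, 28400) (by decide +kernel)
              (CovZ.n2 (2520, 28360) (by decide +kernel)
               (CovZ.n2 (2520, 28400) (by decide +kernel)
                (CovZ.n2 (2540, 28380) (by decide +kernel)
                 (CovZ.leaf K2_ok TE_l5301 _)
                 (CovZ.leaf K2_ok TE_l5302 _))
                (CovZ.n1 (2500, 28380) (by decide +kernel)
                 (CovZ.leaf K2_ok TE_l5303 _)
                 (CovZ.leaf K2_ok TE_l5304 _)))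
               (CovZ.subM 48850692227796319201639278722877650638498684043526144 (by decide +kernel)
                (CovZ.n1 (2560, 28360) (by decide +kernel)
                 (CovZ.n2 (2540, 28340) (by decide +kernel)
                  (CovZ.leaf K2_ok TE_l5305 _)
                  (CovZ.leaf K2_ok TE_l5306 _))
                 (CovZ.n1 (2540, 28380) (by decide +kernel)
                  (CovZ.leaf K2_ok TE_l5307 _)
                  (CovZ.leaf K2_ok TE_l5308 _)))))
              (CovZ.n1 (2520, 28440) (by decide +kernel)
               (CovZ.n2 (2560, 28440) (by decide +kernel)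
                (CovZ.n2 (2540, 28420) (by decide +kernel)
                 (CovZ.leaf K2_ok TE_l5309 _)
                 (CovZ.leaf K2_ok TE_l5310 _))
                (CovZ.leaf K2_ok TE_l5311 _))
               (CovZ.n1 (2520, 28400) (by decide +kernel)
                (CovZ.leaf K2_ok TE_l5312 _)
                (CovZ.n1 (2540, 28420) (by decide +kernel)
                 (CovZ.leaf K2_ok TE_l5313 _)
                 (CovZ.leaf K2_ok TE_l5314 _)))))
             (CovZ.n1 (2480, 28320) (by decide +kernel)
              (CovZ.n2 (2440, 28360) (by decide +kernel)
               (CovZ.n2 (2480, 28360) (by decide +kernel)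
                (CovZ.n2 (2460, 28340) (by decide +kernel)
                 (CovZ.leaf K2_ok TE_l5315 _)
                 (CovZ.leaf K2_ok TE_l5316 _))
                (CovZ.leaf K2_ok TE_l5317 _))
               (CovZ.n1 (2440, 28320) (by decide +kernel)
                (CovZ.leaf K2_ok TE_l5318 _)
                (CovZ.n1 (2460, 28340) (by decide +kernel)
                 (CovZ.leaf K2_ok TE_l5319 _)
                 (CovZ.leaf K2_ok TE_l5320 _))))
              (CovZ.n1 (2520, 28360) (by decide +kernel)
               (CovZ.n2 (2520, 28320) (by decide +kernel)
                (CovZ.leaf K2_ok TE_l5321 _)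
                (CovZ.n1 (2540, 28340) (by decide +kernel)
                 (CovZ.leaf K2_ok TE_l5322 _)
                 (CovZ.leaf K2_ok TE_l5323 _)))
               (CovZ.n1 (2480, 28360) (by decide +kernel)
                (CovZ.n2 (2500, 28380) (by decide +kernel)
                 (CovZ.leaf K2_ok TE_l5324 _)
                 (CovZ.leaf K2_ok TE_l5325 _))
                (CovZ.leaf K2_ok TE_l5326 _))))))))

theorem TE_u114 : CovZ TE_M (toL (selN TE_LN 23491538020451331505232285491076838193574585194570473231360198)) [0, 7, 6, 1] (2560, 28480) (2560, 28800) (2240, 28480) :=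
    (CovZ.n1 (2400, 28640) (by decide +kernel)
          (CovZ.n2 (2560, 28640) (by decide +kernel)
           (CovZ.n2 (2480, 28560) (by decide +kernel)
            (CovZ.n2 (2480, 28640) (by decide +kernel)
             (CovZ.subM 20275104195261573842512728574941220581956347911728183226925058 (by decide +kernel)
              (CovZ.n2 (2520, 28600) (by decide +kernel)
               (CovZ.n2 (2480, 28600) (by decide +kernel)
                (CovZ.leaf K2_ok TE_l5327 _)
                (CovZ.leaf K2_ok TE_l5328 _))
               (CovZ.n1 (2520, 28640) (by decide +kernel)
                (CovZ.leaf K2_ok TE_l5329 _)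
                (CovZ.leaf K2_ok TE_l5330 _))))
             (CovZ.n1 (2440, 28600) (by decide +kernel)
              (CovZ.leaf K2_ok TE_l5331 _)
              (CovZ.n1 (2480, 28600) (by decide +kernel)
               (CovZ.leaf K2_ok TE_l5332 _)
               (CovZ.leaf K2_ok TE_l5333 _))))
            (CovZ.subM 20275104195261573753309747780818729251335662467285753752715264 (by decide +kernel)
             (CovZ.n1 (2560, 28560) (by decide +kernel)
              (CovZ.n2 (2520, 28520) (by decide +kernel)
               (CovZ.n2 (2520, 28560) (by decide +kernel)
                (CovZ.leaf K2_ok TE_l5334 _)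
                (CovZ.leaf K2_ok TE_l5335 _))
               (CovZ.n1 (2560, 28520) (by decide +kernel)
                (CovZ.n2 (2540, 28500) (by decide +kernel)
                 (CovZ.leaf K2_ok TE_l5336 _)
                 (CovZ.leaf K2_ok TE_l5337 _))
                (CovZ.leaf K2_ok TE_l5338 _)))
              (CovZ.n1 (2520, 28600) (by decide +kernel)
               (CovZ.n2 (2560, 28600) (by decide +kernel)
                (CovZ.n2 (2540, 28580) (by decide +kernel)
                 (CovZ.leaf K2_ok TE_l5339 _)
                 (CovZ.leaf K2_ok TE_l5340 _))
                (CovZ.leaf K2_ok TE_l5341 _))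
               (CovZ.n1 (2520, 28560) (by decide +kernel)
                (CovZ.leaf K2_ok TE_l5342 _)
                (CovZ.n1 (2540, 28580) (by decide +kernel)
                 (CovZ.leaf K2_ok TE_l5343 _)
                 (CovZ.leaf K2_ok TE_l5344 _)))))))
           (CovZ.n1 (2480, 28720) (by decide +kernel)
            (CovZ.n2 (2560, 28720) (by decide +kernel)
             (CovZ.n2 (2520, 28680) (by decide +kernel)
              (CovZ.n2 (2520, 28720) (by decide +kernel)
               (CovZ.leaf K2_ok TE_l5345 _)
               (CovZ.leaf K2_ok TE_l5346 _))
              (CovZ.n1 (2560, 28680) (by decide +kernel)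
               (CovZ.leaf K2_ok TE_l5347 _)
               (CovZ.leaf K2_ok TE_l5348 _)))
             (CovZ.subM 20275888832978497177608197414790243076170162007008505025789954 (by decide +kernel)
              (CovZ.n1 (2520, 28760) (by decide +kernel)
               (CovZ.n2 (2560, 28760) (by decide +kernel)
                (CovZ.leaf K2_ok TE_l5349 _)
                (CovZ.leaf K2_ok TE_l5350 _))
               (CovZ.n1 (2520, 28720) (by decide +kernel)
                (CovZ.leaf K2_ok TE_l5351 _)
                (CovZ.leaf K2_ok TE_l5352 _)))))
            (CovZ.n1 (2480, 28640) (by decide +kernel)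
             (CovZ.n2 (2440, 28680) (by decide +kernel)
              (CovZ.leaf K2_ok TE_l5353 _)
              (CovZ.leaf K2_ok TE_l5354 _))
             (CovZ.subM 20275104195261573842512728574941379038281671588308549667651586 (by decide +kernel)
              (CovZ.n1 (2520, 28680) (by decide +kernel)
               (CovZ.n2 (2520, 28640) (by decide +kernel)
                (CovZ.leaf K2_ok TE_l5355 _)
                (CovZ.n1 (2540, 28660) (by decide +kernel)
                 (CovZ.leaf K2_ok TE_l5356 _)
                 (CovZ.leaf K2_ok TE_l5357 _)))
               (CovZ.n1 (2480, 28680) (by decide +kernel)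
                (CovZ.leaf K2_ok TE_l5358 _)
                (CovZ.leaf K2_ok TE_l5359 _)))))))
          (CovZ.n1 (2400, 28480) (by decide +kernel)
           (CovZ.n2 (2320, 28560) (by decide +kernel)
            (CovZ.n2 (2400, 28560) (by decide +kernel)
             (CovZ.n2 (2360, 28520) (by decide +kernel)
              (CovZ.leaf K2_ok TE_l5360 _)
              (CovZ.leaf K2_ok TE_l5361 _))
             (CovZ.n1 (2360, 28600) (by decide +kernel)
              (CovZ.leaf K2_ok TE_l5362 _)
              (CovZ.leaf K2_ok TE_l5363 _)))
            (CovZ.n1 (2320, 28480) (by decide +kernel)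
             (CovZ.n2 (2280, 28520) (by decide +kernel)
              (CovZ.leaf K2_ok TE_l5364 _)
              (CovZ.leaf K2_ok TE_l5365 _))
             (CovZ.n1 (2360, 28520) (by decide +kernel)
              (CovZ.leaf K2_ok TE_l5366 _)
              (CovZ.leaf K2_ok TE_l5367 _))))
           (CovZ.n1 (2480, 28560) (by decide +kernel)
            (CovZ.subM 20275042895463323143952027411971809746437083731963370335633410 (by decide +kernel)
             (CovZ.n2 (2480, 28480) (by decide +kernel)
              (CovZ.n2 (2440, 28520) (by decide +kernel)
               (CovZ.n2 (2480, 28520) (by decide +kernel)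
                (CovZ.leaf K2_ok TE_l5368 _)
                (CovZ.leaf K2_ok TE_l5369 _))
               (CovZ.n1 (2440, 28480) (by decide +kernel)
                (CovZ.leaf K2_ok TE_l5370 _)
                (CovZ.leaf K2_ok TE_l5371 _)))
              (CovZ.n1 (2520, 28520) (by decide +kernel)
               (CovZ.n2 (2520, 28480) (by decide +kernel)
                (CovZ.leaf K2_ok TE_l5372 _)
                (CovZ.n1 (2540, 28500) (by decide +kernel)
                 (CovZ.leaf K2_ok TE_l5373 _)
                 (CovZ.leaf K2_ok TE_l5374 _)))
               (CovZ.n1 (2480, 28520) (by decide +kernel)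
                (CovZ.n2 (2500, 28540) (by decide +kernel)
                 (CovZ.leaf K2_ok TE_l5375 _)
                 (CovZ.leaf K2_ok TE_l5376 _))
                (CovZ.leaf K2_ok TE_l5377 _)))))
            (CovZ.n1 (2400, 28560) (by decide +kernel)
             (CovZ.n2 (2440, 28600) (by decide +kernel)
              (CovZ.leaf K2_ok TE_l5378 _)
              (CovZ.leaf K2_ok TE_l5379 _))
             (CovZ.subM 20275104195284957779507042310586896094474235398647566653456386 (by decide +kernel)
              (CovZ.n1 (2440, 28520) (by decide +kernel)
               (CovZ.n2 (2400, 28520) (by decide +kernel)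
                (CovZ.leaf K2_ok TE_l5380 _)
                (CovZ.leaf K2_ok TE_l5381 _))
               (CovZ.n1 (2440, 28560) (by decide +kernel)
                (CovZ.leaf K2_ok TE_l5382 _)
                (CovZ.leaf K2_ok TE_l5383 _))))))))

theorem TE_u115 : CovZ TE_M (toL (selN TE_LN 23491538020451331505232285491076838193574585194570473231360198)) [0, 7, 6, 1] (2560, 28160) (2560, 28800) (1920, 28800) :=
    (CovZ.n2 (2240, 28480) (by decide +kernel)
        (CovZ.n2 (2240, 28800) (by decide +kernel)
         (CovZ.n2 (2400, 28640) (by decide +kernel)
          (CovZ.n2 (2240, 28640) (by decide +kernel)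
           (CovZ.n2 (2320, 28720) (by decide +kernel)
            (CovZ.n2 (2320, 28640) (by decide +kernel)
             (CovZ.leaf K2_ok TE_l5190 _)
             (CovZ.n1 (2360, 28680) (by decide +kernel)
              (CovZ.leaf K2_ok TE_l5191 _)
              (CovZ.leaf K2_ok TE_l5192 _)))
            (CovZ.n1 (2240, 28720) (by decide +kernel)
             (CovZ.n2 (2280, 28760) (by decide +kernel)
              (CovZ.leaf K2_ok TE_l5193 _)
              (CovZ.leaf K2_ok TE_l5194 _))
             (CovZ.leaf K2_ok TE_l5195 _)))
           (CovZ.n1 (2320, 28560) (by decide +kernel)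
            (CovZ.n2 (2240, 28560) (by decide +kernel)
             (CovZ.n2 (2280, 28600) (by decide +kernel)
              (CovZ.leaf K2_ok TE_l5196 _)
              (CovZ.leaf K2_ok TE_l5197 _))
             (CovZ.leaf K2_ok TE_l5198 _))
            (CovZ.n1 (2320, 28640) (by decide +kernel)
             (CovZ.n2 (2360, 28600) (by decide +kernel)
              (CovZ.leaf K2_ok TE_l5199 _)
              (CovZ.leaf K2_ok TE_l5200 _))
             (CovZ.n1 (2280, 28600) (by decide +kernel)
              (CovZ.leaf K2_ok TE_l5201 _)
              (CovZ.leaf K2_ok TE_l5202 _)))))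
          (CovZ.n1 (2400, 28800) (by decide +kernel)
           (CovZ.n2 (2480, 28720) (by decide +kernel)
            (CovZ.n2 (2400, 28720) (by decide +kernel)
             (CovZ.n2 (2440, 28760) (by decide +kernel)
              (CovZ.leaf K2_ok TE_l5203 _)
              (CovZ.leaf K2_ok TE_l5204 _))
             (CovZ.n1 (2440, 28680) (by decide +kernel)
              (CovZ.leaf K2_ok TE_l5205 _)
              (CovZ.leaf K2_ok TE_l5206 _)))
            (CovZ.subM 20275888832978497177608196085562566834526929641984903081885698 (by decide +kernel)
             (CovZ.n1 (2480, 28800) (by decide +kernel)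
              (CovZ.n2 (2520, 28760) (by decide +kernel)
               (CovZ.n2 (2480, 28760) (by decide +kernel)
                (CovZ.leaf K2_ok TE_l5207 _)
                (CovZ.leaf K2_ok TE_l5208 _))
               (CovZ.n1 (2520, 28800) (by decide +kernel)
                (CovZ.leaf K2_ok TE_l5209 _)
                (CovZ.leaf K2_ok TE_l5210 _)))
              (CovZ.n1 (2440, 28760) (by decide +kernel)
               (CovZ.leaf K2_ok TE_l5211 _)
               (CovZ.leaf K2_ok TE_l5212 _)))))
           (CovZ.n1 (2320, 28720) (by decide +kernel)
            (CovZ.n2 (2320, 28800) (by decide +kernel)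
             (CovZ.leaf K2_ok TE_l5213 _)
             (CovZ.n1 (2280, 28760) (by decide +kernel)
              (CovZ.leaf K2_ok TE_l5214 _)
              (CovZ.leaf K2_ok TE_l5215 _)))
            (CovZ.n1 (2400, 28720) (by decide +kernel)
             (CovZ.n2 (2360, 28680) (by decide +kernel)
              (CovZ.leaf K2_ok TE_l5216 _)
              (CovZ.leaf K2_ok TE_l5217 _))
             (CovZ.n1 (2360, 28760) (by decide +kernel)
              (CovZ.leaf K2_ok TE_l5218 _)
              (CovZ.leaf K2_ok TE_l5219 _))))))
         (CovZ.n1 (2080, 28640) (by decide +kernel)
          (CovZ.n2 (2080, 28800) (by decide +kernel)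
           (CovZ.n2 (2160, 28720) (by decide +kernel)
            (CovZ.n2 (2080, 28720) (by decide +kernel)
             (CovZ.leaf K2_ok TE_l5220 _)
             (CovZ.leaf K2_ok TE_l5221 _))
            (CovZ.n1 (2160, 28800) (by decide +kernel)
             (CovZ.leaf K2_ok TE_l5222 _)
             (CovZ.leaf K2_ok TE_l5223 _)))
           (CovZ.n1 (2000, 28720) (by decide +kernel)
            (CovZ.n2 (2000, 28800) (by decide +kernel)
             (CovZ.leaf K2_ok TE_l5224 _)
             (CovZ.leaf K2_ok TE_l5225 _))
            (CovZ.n1 (2080, 28720) (by decide +kernel)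
             (CovZ.leaf K2_ok TE_l5226 _)
             (CovZ.leaf K2_ok TE_l5227 _))))
          (CovZ.n1 (2240, 28640) (by decide +kernel)
           (CovZ.n2 (2160, 28560) (by decide +kernel)
            (CovZ.n2 (2160, 28640) (by decide +kernel)
             (CovZ.leaf K2_ok TE_l5228 _)
             (CovZ.n1 (2120, 28600) (by decide +kernel)
              (CovZ.leaf K2_ok TE_l5229 _)
              (CovZ.leaf K2_ok TE_l5230 _)))
            (CovZ.n1 (2240, 28560) (by decide +kernel)
             (CovZ.n2 (2200, 28520) (by decide +kernel)
              (CovZ.leaf K2_ok TE_l5231 _)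
              (CovZ.leaf K2_ok TE_l5232 _))
             (CovZ.leaf K2_ok TE_l5233 _)))
           (CovZ.n1 (2160, 28720) (by decide +kernel)
            (CovZ.n2 (2240, 28720) (by decide +kernel)
             (CovZ.n2 (2200, 28680) (by decide +kernel)
              (CovZ.leaf K2_ok TE_l5234 _)
              (CovZ.leaf K2_ok TE_l5235 _))
             (CovZ.leaf K2_ok TE_l5236 _))
            (CovZ.n1 (2160, 28640) (by decide +kernel)
             (CovZ.leaf K2_ok TE_l5237 _)
             (CovZ.n1 (2200, 28680) (by decide +kernel)
              (CovZ.leaf K2_ok TE_l5238 _)
              (CovZ.leaf K2_ok TE_l5239 _)))))))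
        (CovZ.n1 (2560, 28480) (by decide +kernel)
         TE_u113
         TE_u114))

theorem TE_u116 : CovZ TE_M (toL (selN TE_LN 23491538020451331505232285491076838193574585194570473231360198)) [0, 7, 6, 1] (2560, 28800) (2560, 29440) (1920, 28800) :=
    (CovZ.n1 (2240, 29120) (by decide +kernel)
        (CovZ.n2 (2560, 29120) (by decide +kernel)
         (CovZ.n2 (2400, 28960) (by decide +kernel)
          (CovZ.n2 (2400, 29120) (by decide +kernel)
           (CovZ.n2 (2480, 29040) (by decide +kernel)
            (CovZ.n2 (2400, 29040) (by decide +kernel)
             (CovZ.n2 (2440, 29080) (by decide +kernel)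
              (CovZ.leaf K2_ok TE_l5384 _)
              (CovZ.leaf K2_ok TE_l5385 _))
             (CovZ.n1 (2440, 29000) (by decide +kernel)
              (CovZ.leaf K2_ok TE_l5386 _)
              (CovZ.leaf K2_ok TE_l5387 _)))
            (CovZ.subM 10633482011799310000757353336367720159834685169063410127601730 (by decide +kernel)
             (CovZ.n1 (2480, 29120) (by decide +kernel)
              (CovZ.n2 (2520, 29080) (by decide +kernel)
               (CovZ.leaf K2_ok TE_l5388 _)
               (CovZ.leaf K2_ok TE_l5389 _))
              (CovZ.n1 (2440, 29080) (by decide +kernel)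
               (CovZ.leaf K2_ok TE_l5390 _)
               (CovZ.leaf K2_ok TE_l5391 _)))))
           (CovZ.n1 (2320, 29040) (by decide +kernel)
            (CovZ.n2 (2320, 29120) (by decide +kernel)
             (CovZ.leaf K2_ok TE_l5392 _)
             (CovZ.leaf K2_ok TE_l5393 _))
            (CovZ.n1 (2400, 29040) (by decide +kernel)
             (CovZ.n2 (2360, 29000) (by decide +kernel)
              (CovZ.leaf K2_ok TE_l5394 _)
              (CovZ.leaf K2_ok TE_l5395 _))
             (CovZ.leaf K2_ok TE_l5396 _))))
          (CovZ.n1 (2560, 28960) (by decide +kernel)
           (CovZ.n2 (2480, 28880) (by decide +kernel)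
            (CovZ.n2 (2480, 28960) (by decide +kernel)
             (CovZ.n2 (2520, 28920) (by decide +kernel)
              (CovZ.leaf K2_ok TE_l5397 _)
              (CovZ.leaf K2_ok TE_l5398 _))
             (CovZ.n1 (2440, 28920) (by decide +kernel)
              (CovZ.leaf K2_ok TE_l5399 _)
              (CovZ.leaf K2_ok TE_l5400 _)))
            (CovZ.n1 (2560, 28880) (by decide +kernel)
             (CovZ.n2 (2520, 28840) (by decide +kernel)
              (CovZ.leaf K2_ok TE_l5401 _)
              (CovZ.n1 (2560, 28840) (by decide +kernel)
               (CovZ.leaf K2_ok TE_l5402 _)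
               (CovZ.leaf K2_ok TE_l5403 _)))
             (CovZ.n1 (2520, 28920) (by decide +kernel)
              (CovZ.n2 (2560, 28920) (by decide +kernel)
               (CovZ.leaf K2_ok TE_l5404 _)
               (CovZ.leaf K2_ok TE_l5405 _))
              (CovZ.leaf K2_ok TE_l5406 _))))
           (CovZ.n1 (2480, 29040) (by decide +kernel)
            (CovZ.subM 10634266649516233335852832810045940506666833591604892105965570 (by decide +kernel)
             (CovZ.n2 (2560, 29040) (by decide +kernel)
              (CovZ.n2 (2520, 29000) (by decide +kernel)
               (CovZ.leaf K2_ok TE_l5407 _)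
               (CovZ.leaf K2_ok TE_l5408 _))
              (CovZ.n1 (2520, 29080) (by decide +kernel)
               (CovZ.leaf K2_ok TE_l5409 _)
               (CovZ.leaf K2_ok TE_l5410 _))))
            (CovZ.n1 (2480, 28960) (by decide +kernel)
             (CovZ.n2 (2440, 29000) (by decide +kernel)
              (CovZ.leaf K2_ok TE_l5411 _)
              (CovZ.leaf K2_ok TE_l5412 _))
             (CovZ.n1 (2520, 29000) (by decide +kernel)
              (CovZ.leaf K2_ok TE_l5413 _)
              (CovZ.leaf K2_ok TE_l5414 _))))))
         (CovZ.subM 10634266697406718809505898045498980584298104548146605423853634 (by decide +kernel)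
          (CovZ.n1 (2400, 29280) (by decide +kernel)
           (CovZ.n2 (2560, 29280) (by decide +kernel)
            (CovZ.n2 (2480, 29200) (by decide +kernel)
             (CovZ.n2 (2480, 29280) (by decide +kernel)
              (CovZ.n2 (2520, 29240) (by decide +kernel)
               (CovZ.leaf K2_ok TE_l5415 _)
               (CovZ.leaf K2_ok TE_l5416 _))
              (CovZ.n1 (2440, 29240) (by decide +kernel)
               (CovZ.leaf K2_ok TE_l5417 _)
               (CovZ.leaf K2_ok TE_l5418 _)))
             (CovZ.n1 (2560, 29200) (by decide +kernel)
              (CovZ.n2 (2520, 29160) (by decide +kernel)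
               (CovZ.leaf K2_ok TE_l5419 _)
               (CovZ.leaf K2_ok TE_l5420 _))
              (CovZ.n1 (2520, 29240) (by decide +kernel)
               (CovZ.leaf K2_ok TE_l5421 _)
               (CovZ.leaf K2_ok TE_l5422 _))))
            (CovZ.n1 (2480, 29360) (by decide +kernel)
             (CovZ.n2 (2560, 29360) (by decide +kernel)
              (CovZ.n2 (2520, 29320) (by decide +kernel)
               (CovZ.leaf K2_ok TE_l5423 _)
               (CovZ.leaf K2_ok TE_l5424 _))
              (CovZ.leaf K2_ok TE_l5425 _))
             (CovZ.n1 (2480, 29280) (by decide +kernel)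
              (CovZ.leaf K2_ok TE_l5426 _)
              (CovZ.n1 (2520, 29320) (by decide +kernel)
               (CovZ.leaf K2_ok TE_l5427 _)
               (CovZ.leaf K2_ok TE_l5428 _)))))
           (CovZ.n1 (2400, 29120) (by decide +kernel)
            (CovZ.n2 (2320, 29200) (by decide +kernel)
             (CovZ.n2 (2400, 29200) (by decide +kernel)
              (CovZ.n2 (2360, 29160) (by decide +kernel)
               (CovZ.leaf K2_ok TE_l5429 _)
               (CovZ.leaf K2_ok TE_l5430 _))
              (CovZ.leaf K2_ok TE_l5431 _))
             (CovZ.n1 (2320, 29120) (by decide +kernel)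
              (CovZ.leaf K2_ok TE_l5432 _)
              (CovZ.n1 (2360, 29160) (by decide +kernel)
               (CovZ.leaf K2_ok TE_l5433 _)
               (CovZ.leaf K2_ok TE_l5434 _))))
            (CovZ.n1 (2480, 29200) (by decide +kernel)
             (CovZ.n2 (2480, 29120) (by decide +kernel)
              (CovZ.leaf K2_ok TE_l5435 _)
              (CovZ.n1 (2520, 29160) (by decide +kernel)
               (CovZ.leaf K2_ok TE_l5436 _)
               (CovZ.leaf K2_ok TE_l5437 _)))
             (CovZ.n1 (2400, 29200) (by decide +kernel)
              (CovZ.n2 (2440, 29240) (by decide +kernel)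
               (CovZ.leaf K2_ok TE_l5438 _)
               (CovZ.leaf K2_ok TE_l5439 _))
              (CovZ.leaf K2_ok TE_l5440 _)))))))
        (CovZ.n1 (2240, 28800) (by decide +kernel)
         (CovZ.n2 (2080, 28960) (by decide +kernel)
          (CovZ.n2 (2240, 28960) (by decide +kernel)
           (CovZ.subM 20262549943900314828926058179640805992295099652092864380272706 (by decide +kernel)
            (CovZ.n2 (2160, 28880) (by decide +kernel)
             (CovZ.n2 (2160, 28960) (by decide +kernel)
              (CovZ.leaf K2_ok TE_l5441 _)
              (CovZ.leaf K2_ok TE_l5442 _))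
             (CovZ.n1 (2240, 28880) (by decide +kernel)
              (CovZ.leaf K2_ok TE_l5443 _)
              (CovZ.leaf K2_ok TE_l5444 _))))
           (CovZ.subM 20263334581605546150922895746885058135718795226833866247372866 (by decide +kernel)
            (CovZ.n1 (2160, 29040) (by decide +kernel)
             (CovZ.n2 (2240, 29040) (by decide +kernel)
              (CovZ.leaf K2_ok TE_l5445 _)
              (CovZ.leaf K2_ok TE_l5446 _))
             (CovZ.n1 (2160, 28960) (by decide +kernel)
              (CovZ.leaf K2_ok TE_l5447 _)
              (CovZ.leaf K2_ok TE_l5448 _)))))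
          (CovZ.n1 (2080, 28800) (by decide +kernel)
           (CovZ.n2 (2000, 28880) (by decide +kernel)
            (CovZ.leaf K2_ok TE_l5449 _)
            (CovZ.leaf K2_ok TE_l5450 _))
           (CovZ.n1 (2160, 28880) (by decide +kernel)
            (CovZ.n2 (2160, 28800) (by decide +kernel)
             (CovZ.leaf K2_ok TE_l5451 _)
             (CovZ.n1 (2200, 28840) (by decide +kernel)
              (CovZ.leaf K2_ok TE_l5452 _)
              (CovZ.leaf K2_ok TE_l5453 _)))
            (CovZ.n1 (2080, 28880) (by decide +kernel)
             (CovZ.leaf K2_ok TE_l5454 _)
             (CovZ.leaf K2_ok TE_l5455 _)))))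
         (CovZ.n1 (2400, 28960) (by decide +kernel)
          (CovZ.n2 (2400, 28800) (by decide +kernel)
           (CovZ.n2 (2320, 28880) (by decide +kernel)
            (CovZ.n2 (2400, 28880) (by decide +kernel)
             (CovZ.n2 (2360, 28840) (by decide +kernel)
              (CovZ.leaf K2_ok TE_l5456 _)
              (CovZ.leaf K2_ok TE_l5457 _))
             (CovZ.leaf K2_ok TE_l5458 _))
            (CovZ.n1 (2320, 28800) (by decide +kernel)
             (CovZ.leaf K2_ok TE_l5459 _)
             (CovZ.n1 (2360, 28840) (by decide +kernel)
              (CovZ.leaf K2_ok TE_l5460 _)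
              (CovZ.leaf K2_ok TE_l5461 _))))
           (CovZ.n1 (2480, 28880) (by decide +kernel)
            (CovZ.subM 20275888832978497177608198744018558404358675449599023642574850 (by decide +kernel)
             (CovZ.n2 (2480, 28800) (by decide +kernel)
              (CovZ.n2 (2440, 28840) (by decide +kernel)
               (CovZ.leaf K2_ok TE_l5462 _)
               (CovZ.leaf K2_ok TE_l5463 _))
              (CovZ.n1 (2520, 28840) (by decide +kernel)
               (CovZ.n2 (2520, 28800) (by decide +kernel)
                (CovZ.leaf K2_ok TE_l5464 _)
                (CovZ.leaf K2_ok TE_l5465 _))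
               (CovZ.leaf K2_ok TE_l5466 _))))
            (CovZ.n1 (2400, 28880) (by decide +kernel)
             (CovZ.n2 (2440, 28920) (by decide +kernel)
              (CovZ.leaf K2_ok TE_l5467 _)
              (CovZ.leaf K2_ok TE_l5468 _))
             (CovZ.n1 (2440, 28840) (by decide +kernel)
              (CovZ.leaf K2_ok TE_l5469 _)
              (CovZ.leaf K2_ok TE_l5470 _)))))
          (CovZ.n1 (2240, 28960) (by decide +kernel)
           (CovZ.subM 20275888785088011525549171930704490607913260021994854927040578 (by decide +kernel)
            (CovZ.n2 (2320, 29040) (by decide +kernel)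
             (CovZ.n2 (2320, 28960) (by decide +kernel)
              (CovZ.leaf K2_ok TE_l5471 _)
              (CovZ.n1 (2360, 29000) (by decide +kernel)
               (CovZ.leaf K2_ok TE_l5472 _)
               (CovZ.leaf K2_ok TE_l5473 _)))
             (CovZ.n1 (2240, 29040) (by decide +kernel)
              (CovZ.leaf K2_ok TE_l5474 _)
              (CovZ.leaf K2_ok TE_l5475 _))))
           (CovZ.n1 (2320, 28880) (by decide +kernel)
            (CovZ.n2 (2240, 28880) (by decide +kernel)
             (CovZ.n2 (2280, 28920) (by decide +kernel)
              (CovZ.leaf K2_ok TE_l5476 _)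
              (CovZ.leaf K2_ok TE_l5477 _))
             (CovZ.leaf K2_ok TE_l5478 _))
            (CovZ.n1 (2320, 28960) (by decide +kernel)
             (CovZ.leaf K2_ok TE_l5479 _)
             (CovZ.leaf K2_ok TE_l5480 _)))))))

theorem TE_u117 : CovZ TE_M (toL (selN TE_LN 23491538020451331505232285491076838193574585194570473231360198)) [0, 7, 6, 1] (2560, 30720) (1920, 30080) (2560, 29440) :=
    (CovZ.subM 4180622936369907739908317583794696246203523747689981070540866 (by decide +kernel)
       (CovZ.n2 (2560, 30080) (by decide +kernel)
        (CovZ.n2 (2240, 29760) (by decide +kernel)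
         (CovZ.n2 (2240, 30080) (by decide +kernel)
          (CovZ.n2 (2400, 29920) (by decide +kernel)
           (CovZ.n2 (2240, 29920) (by decide +kernel)
            (CovZ.n2 (2320, 30000) (by decide +kernel)
             (CovZ.leaf K2_ok TE_l5481 _)
             (CovZ.leaf K2_ok TE_l5482 _))
            (CovZ.n1 (2320, 29840) (by decide +kernel)
             (CovZ.leaf K2_ok TE_l5483 _)
             (CovZ.leaf K2_ok TE_l5484 _)))
           (CovZ.n1 (2400, 30080) (by decide +kernel)
            (CovZ.n2 (2480, 30000) (by decide +kernel)
             (CovZ.leaf K2_ok TE_l5485 _)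
             (CovZ.n1 (2480, 30080) (by decide +kernel)
              (CovZ.leaf K2_ok TE_l5486 _)
              (CovZ.leaf K2_ok TE_l5487 _)))
            (CovZ.n1 (2320, 30000) (by decide +kernel)
             (CovZ.leaf K2_ok TE_l5488 _)
             (CovZ.leaf K2_ok TE_l5489 _))))
          (CovZ.n1 (2080, 29920) (by decide +kernel)
           (CovZ.n2 (2080, 30080) (by decide +kernel)
            (CovZ.leaf K2_ok TE_l5490 _)
            (CovZ.n1 (2000, 30000) (by decide +kernel)
             (CovZ.leaf K2_ok TE_l5491 _)
             (CovZ.leaf K2_ok TE_l5492 _)))
           (CovZ.n1 (2240, 29920) (by decide +kernel)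
            (CovZ.n2 (2160, 29840) (by decide +kernel)
             (CovZ.leaf K2_ok TE_l5493 _)
             (CovZ.leaf K2_ok TE_l5494 _))
            (CovZ.leaf K2_ok TE_l5495 _))))
         (CovZ.n1 (2560, 29760) (by decide +kernel)
          (CovZ.n2 (2400, 29600) (by decide +kernel)
           (CovZ.n2 (2400, 29760) (by decide +kernel)
            (CovZ.n2 (2480, 29680) (by decide +kernel)
             (CovZ.n2 (2400, 29680) (by decide +kernel)
              (CovZ.leaf K2_ok TE_l5496 _)
              (CovZ.leaf K2_ok TE_l5497 _))
             (CovZ.n1 (2480, 29760) (by decide +kernel)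
              (CovZ.leaf K2_ok TE_l5498 _)
              (CovZ.leaf K2_ok TE_l5499 _)))
            (CovZ.n1 (2320, 29680) (by decide +kernel)
             (CovZ.leaf K2_ok TE_l5500 _)
             (CovZ.n1 (2400, 29680) (by decide +kernel)
              (CovZ.leaf K2_ok TE_l5501 _)
              (CovZ.leaf K2_ok TE_l5502 _))))
           (CovZ.n1 (2560, 29600) (by decide +kernel)
            (CovZ.n2 (2480, 29520) (by decide +kernel)
             (CovZ.n2 (2480, 29600) (by decide +kernel)
              (CovZ.leaf K2_ok TE_l5503 _)
              (CovZ.leaf K2_ok TE_l5504 _))
             (CovZ.n1 (2560, 29520) (by decide +kernel)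
              (CovZ.n2 (2520, 29480) (by decide +kernel)
               (CovZ.leaf K2_ok TE_l5505 _)
               (CovZ.leaf K2_ok TE_l5506 _))
              (CovZ.leaf K2_ok TE_l5507 _)))
            (CovZ.n1 (2480, 29680) (by decide +kernel)
             (CovZ.n2 (2560, 29680) (by decide +kernel)
              (CovZ.n2 (2520, 29640) (by decide +kernel)
               (CovZ.leaf K2_ok TE_l5508 _)
               (CovZ.leaf K2_ok TE_l5509 _))
              (CovZ.leaf K2_ok TE_l5510 _))
             (CovZ.n1 (2480, 29600) (by decide +kernel)
              (CovZ.leaf K2_ok TE_l5511 _)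
              (CovZ.n1 (2520, 29640) (by decide +kernel)
               (CovZ.leaf K2_ok TE_l5512 _)
               (CovZ.leaf K2_ok TE_l5513 _))))))
          (CovZ.n1 (2400, 29920) (by decide +kernel)
           (CovZ.n2 (2560, 29920) (by decide +kernel)
            (CovZ.n2 (2480, 29840) (by decide +kernel)
             (CovZ.n2 (2480, 29920) (by decide +kernel)
              (CovZ.leaf K2_ok TE_l5514 _)
              (CovZ.leaf K2_ok TE_l5515 _))
             (CovZ.n1 (2560, 29840) (by decide +kernel)
              (CovZ.n2 (2520, 29800) (by decide +kernel)
               (CovZ.leaf K2_ok TE_l5516 _)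
               (CovZ.leaf K2_ok TE_l5517 _))
              (CovZ.leaf K2_ok TE_l5518 _)))
            (CovZ.n1 (2480, 30000) (by decide +kernel)
             (CovZ.n2 (2560, 30000) (by decide +kernel)
              (CovZ.leaf K2_ok TE_l5519 _)
              (CovZ.leaf K2_ok TE_l5520 _))
             (CovZ.n1 (2480, 29920) (by decide +kernel)
              (CovZ.leaf K2_ok TE_l5521 _)
              (CovZ.leaf K2_ok TE_l5522 _))))
           (CovZ.n1 (2400, 29760) (by decide +kernel)
            (CovZ.n2 (2320, 29840) (by decide +kernel)
             (CovZ.leaf K2_ok TE_l5523 _)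
             (CovZ.leaf K2_ok TE_l5524 _))
            (CovZ.n1 (2480, 29840) (by decide +kernel)
             (CovZ.n2 (2480, 29760) (by decide +kernel)
              (CovZ.leaf K2_ok TE_l5525 _)
              (CovZ.n1 (2520, 29800) (by decide +kernel)
               (CovZ.leaf K2_ok TE_l5526 _)
               (CovZ.leaf K2_ok TE_l5527 _)))
             (CovZ.leaf K2_ok TE_l5528 _))))))
        (CovZ.n1 (2240, 30400) (by decide +kernel)
         (CovZ.n2 (2560, 30400) (by decide +kernel)
          (CovZ.n2 (2400, 30240) (by decide +kernel)
           (CovZ.n2 (2400, 30400) (by decide +kernel)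
            (CovZ.n2 (2480, 30320) (by decide +kernel)
             (CovZ.leaf K2_ok TE_l5529 _)
             (CovZ.leaf K2_ok TE_l5530 _))
            (CovZ.n1 (2320, 30320) (by decide +kernel)
             (CovZ.leaf K2_ok TE_l5531 _)
             (CovZ.leaf K2_ok TE_l5532 _)))
           (CovZ.n1 (2560, 30240) (by decide +kernel)
            (CovZ.n2 (2480, 30160) (by decide +kernel)
             (CovZ.leaf K2_ok TE_l5533 _)
             (CovZ.n1 (2560, 30160) (by decide +kernel)
              (CovZ.leaf K2_ok TE_l5534 _)
              (CovZ.leaf K2_ok TE_l5535 _)))
            (CovZ.n1 (2480, 30320) (by decide +kernel)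
             (CovZ.leaf K2_ok TE_l5536 _)
             (CovZ.leaf K2_ok TE_l5537 _))))
          (CovZ.n1 (2400, 30560) (by decide +kernel)
           (CovZ.n2 (2560, 30560) (by decide +kernel)
            (CovZ.n2 (2480, 30480) (by decide +kernel)
             (CovZ.leaf K2_ok TE_l5538 _)
             (CovZ.leaf K2_ok TE_l5539 _))
            (CovZ.n1 (2480, 30640) (by decide +kernel)
             (CovZ.leaf K2_ok TE_l5540 _)
             (CovZ.leaf K2_ok TE_l5541 _)))
           (CovZ.n1 (2400, 30400) (by decide +kernel)
            (CovZ.n2 (2320, 30480) (by decide +kernel)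
             (CovZ.leaf K2_ok TE_l5542 _)
             (CovZ.leaf K2_ok TE_l5543 _))
            (CovZ.n1 (2480, 30480) (by decide +kernel)
             (CovZ.leaf K2_ok TE_l5544 _)
             (CovZ.leaf K2_ok TE_l5545 _)))))
         (CovZ.n1 (2240, 30080) (by decide +kernel)
          (CovZ.n2 (2080, 30240) (by decide +kernel)
           (CovZ.n2 (2240, 30240) (by decide +kernel)
            (CovZ.n2 (2160, 30160) (by decide +kernel)
             (CovZ.leaf K2_ok TE_l5546 _)
             (CovZ.leaf K2_ok TE_l5547 _))
            (CovZ.leaf K2_ok TE_l5548 _))
           (CovZ.n1 (2080, 30080) (by decide +kernel)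
            (CovZ.leaf K2_ok TE_l5549 _)
            (CovZ.n1 (2160, 30160) (by decide +kernel)
             (CovZ.leaf K2_ok TE_l5550 _)
             (CovZ.leaf K2_ok TE_l5551 _))))
          (CovZ.n1 (2400, 30240) (by decide +kernel)
           (CovZ.n2 (2400, 30080) (by decide +kernel)
            (CovZ.n2 (2320, 30160) (by decide +kernel)
             (CovZ.leaf K2_ok TE_l5552 _)
             (CovZ.leaf K2_ok TE_l5553 _))
            (CovZ.n1 (2480, 30160) (by decide +kernel)
             (CovZ.leaf K2_ok TE_l5554 _)
             (CovZ.leaf K2_ok TE_l5555 _)))
           (CovZ.n1 (2240, 30240) (by decide +kernel)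
            (CovZ.n2 (2320, 30320) (by decide +kernel)
             (CovZ.leaf K2_ok TE_l5556 _)
             (CovZ.leaf K2_ok TE_l5557 _))
            (CovZ.n1 (2320, 30160) (by decide +kernel)
             (CovZ.leaf K2_ok TE_l5558 _)
             (CovZ.leaf K2_ok TE_l5559 _))))))))

theorem TE_u118 : CovZ TE_M (toL (selN TE_LN 23491538020451331505232285491076838193574585194570473231360198)) [0, 7, 6, 1] (1920, 30080) (1280, 29440) (2560, 29440) :=
    (CovZ.n1 (1920, 29440) (by decide +kernel)
       (CovZ.n2 (1600, 29760) (by decide +kernel)
        (CovZ.subM 10621713975536153579681369753931442777569925452477464913641538 (by decide +kernel)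
         (CovZ.n2 (1920, 29760) (by decide +kernel)
          (CovZ.n2 (1760, 29600) (by decide +kernel)
           (CovZ.n2 (1760, 29760) (by decide +kernel)
            (CovZ.leaf K2_ok TE_l5560 _)
            (CovZ.leaf K2_ok TE_l5561 _))
           (CovZ.n1 (1920, 29600) (by decide +kernel)
            (CovZ.n2 (1840, 29520) (by decide +kernel)
             (CovZ.leaf K2_ok TE_l5562 _)
             (CovZ.leaf K2_ok TE_l5563 _))
            (CovZ.leaf K2_ok TE_l5564 _)))
          (CovZ.n1 (1760, 29920) (by decide +kernel)
           (CovZ.n2 (1920, 29920) (by decide +kernel)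
            (CovZ.n2 (1840, 29840) (by decide +kernel)
             (CovZ.leaf K2_ok TE_l5565 _)
             (CovZ.leaf K2_ok TE_l5566 _))
            (CovZ.leaf K2_ok TE_l5567 _))
           (CovZ.n1 (1760, 29760) (by decide +kernel)
            (CovZ.leaf K2_ok TE_l5568 _)
            (CovZ.n1 (1840, 29840) (by decide +kernel)
             (CovZ.leaf K2_ok TE_l5569 _)
             (CovZ.leaf K2_ok TE_l5570 _))))))
        (CovZ.subM 20263336111107931769399487029149999628370933199249441214693442 (by decide +kernel)
         (CovZ.n1 (1600, 29440) (by decide +kernel)
          (CovZ.n2 (1440, 29600) (by decide +kernel)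
           (CovZ.n2 (1600, 29600) (by decide +kernel)
            (CovZ.leaf K2_ok TE_l5571 _)
            (CovZ.leaf K2_ok TE_l5572 _))
           (CovZ.n1 (1440, 29440) (by decide +kernel)
            (CovZ.leaf K2_ok TE_l5573 _)
            (CovZ.leaf K2_ok TE_l5574 _)))
          (CovZ.n1 (1760, 29600) (by decide +kernel)
           (CovZ.n2 (1760, 29440) (by decide +kernel)
            (CovZ.leaf K2_ok TE_l5575 _)
            (CovZ.n1 (1840, 29520) (by decide +kernel)
             (CovZ.leaf K2_ok TE_l5576 _)
             (CovZ.leaf K2_ok TE_l5577 _)))
           (CovZ.n1 (1600, 29600) (by decide +kernel)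
            (CovZ.leaf K2_ok TE_l5578 _)
            (CovZ.leaf K2_ok TE_l5579 _))))))
       (CovZ.n1 (2240, 29760) (by decide +kernel)
        (CovZ.n2 (2240, 29440) (by decide +kernel)
         (CovZ.subM 10621713978529308648687669935241163783868302362797366279405634 (by decide +kernel)
          (CovZ.n2 (2080, 29600) (by decide +kernel)
           (CovZ.n2 (2240, 29600) (by decide +kernel)
            (CovZ.n2 (2160, 29520) (by decide +kernel)
             (CovZ.leaf K2_ok TE_l5580 _)
             (CovZ.leaf K2_ok TE_l5581 _))
            (CovZ.n1 (2160, 29680) (by decide +kernel)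
             (CovZ.leaf K2_ok TE_l5582 _)
             (CovZ.leaf K2_ok TE_l5583 _)))
           (CovZ.n1 (2080, 29440) (by decide +kernel)
            (CovZ.leaf K2_ok TE_l5584 _)
            (CovZ.n1 (2160, 29520) (by decide +kernel)
             (CovZ.leaf K2_ok TE_l5585 _)
             (CovZ.leaf K2_ok TE_l5586 _)))))
         (CovZ.subM 4205729810817375098712133286058703446391760981090600356937794 (by decide +kernel)
          (CovZ.n1 (2400, 29600) (by decide +kernel)
           (CovZ.n2 (2400, 29440) (by decide +kernel)
            (CovZ.n2 (2320, 29520) (by decide +kernel)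
             (CovZ.n2 (2400, 29520) (by decide +kernel)
              (CovZ.leaf K2_ok TE_l5587 _)
              (CovZ.leaf K2_ok TE_l5588 _))
             (CovZ.n1 (2320, 29440) (by decide +kernel)
              (CovZ.leaf K2_ok TE_l5589 _)
              (CovZ.leaf K2_ok TE_l5590 _)))
            (CovZ.n1 (2480, 29520) (by decide +kernel)
             (CovZ.n2 (2480, 29440) (by decide +kernel)
              (CovZ.leaf K2_ok TE_l5591 _)
              (CovZ.n1 (2520, 29480) (by decide +kernel)
               (CovZ.leaf K2_ok TE_l5592 _)
               (CovZ.leaf K2_ok TE_l5593 _)))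
             (CovZ.n1 (2400, 29520) (by decide +kernel)
              (CovZ.n2 (2440, 29560) (by decide +kernel)
               (CovZ.leaf K2_ok TE_l5594 _)
               (CovZ.leaf K2_ok TE_l5595 _))
              (CovZ.leaf K2_ok TE_l5596 _))))
           (CovZ.n1 (2240, 29600) (by decide +kernel)
            (CovZ.n2 (2320, 29680) (by decide +kernel)
             (CovZ.leaf K2_ok TE_l5597 _)
             (CovZ.leaf K2_ok TE_l5598 _))
            (CovZ.n1 (2320, 29520) (by decide +kernel)
             (CovZ.leaf K2_ok TE_l5599 _)
             (CovZ.n1 (2320, 29600) (by decide +kernel)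
              (CovZ.leaf K2_ok TE_l5600 _)
              (CovZ.leaf K2_ok TE_l5601 _)))))))
        (CovZ.subM 10621713978529308559484689141118671217725429272766870208905282 (by decide +kernel)
         (CovZ.n1 (1920, 29760) (by decide +kernel)
          (CovZ.n2 (2080, 29920) (by decide +kernel)
           (CovZ.n2 (2080, 29760) (by decide +kernel)
            (CovZ.leaf K2_ok TE_l5602 _)
            (CovZ.n1 (2160, 29840) (by decide +kernel)
             (CovZ.leaf K2_ok TE_l5603 _)
             (CovZ.leaf K2_ok TE_l5604 _)))
           (CovZ.n1 (1920, 29920) (by decide +kernel)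
            (CovZ.n2 (2000, 30000) (by decide +kernel)
             (CovZ.leaf K2_ok TE_l5605 _)
             (CovZ.leaf K2_ok TE_l5606 _))
            (CovZ.leaf K2_ok TE_l5607 _)))
          (CovZ.n1 (2080, 29600) (by decide +kernel)
           (CovZ.n2 (1920, 29600) (by decide +kernel)
            (CovZ.n2 (2000, 29680) (by decide +kernel)
             (CovZ.leaf K2_ok TE_l5608 _)
             (CovZ.leaf K2_ok TE_l5609 _))
            (CovZ.leaf K2_ok TE_l5610 _))
           (CovZ.n1 (2080, 29760) (by decide +kernel)
            (CovZ.n2 (2160, 29680) (by decide +kernel)
             (CovZ.leaf K2_ok TE_l5611 _)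
             (CovZ.leaf K2_ok TE_l5612 _))
            (CovZ.n1 (2000, 29680) (by decide +kernel)
             (CovZ.leaf K2_ok TE_l5613 _)
             (CovZ.leaf K2_ok TE_l5614 _))))))))

theorem TE_u119 : CovZ TE_M (toL (selN TE_LN 23491538020451331505232285491076838193574585194570473231360198)) [0, 7, 6, 1] (1280, 29440) (640, 28800) (1280, 28160) :=
    (CovZ.n2 (1280, 28800) (by decide +kernel)
       (CovZ.subM 19410434121775899995489084120581214309341054387123521325105154 (by decide +kernel)
        (CovZ.n2 (960, 28480) (by decide +kernel)
         (CovZ.n2 (960, 28800) (by decide +kernel)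
          (CovZ.n2 (1120, 28640) (by decide +kernel)
           (CovZ.n2 (960, 28640) (by decide +kernel)
            (CovZ.n2 (1040, 28720) (by decide +kernel)
             (CovZ.leaf K2_ok TE_l5615 _)
             (CovZ.leaf K2_ok TE_l5616 _))
            (CovZ.n1 (1040, 28560) (by decide +kernel)
             (CovZ.leaf K2_ok TE_l5617 _)
             (CovZ.leaf K2_ok TE_l5618 _)))
           (CovZ.n1 (1120, 28800) (by decide +kernel)
            (CovZ.leaf K2_ok TE_l5619 _)
            (CovZ.n1 (1040, 28720) (by decide +kernel)
             (CovZ.leaf K2_ok TE_l5620 _)
             (CovZ.leaf K2_ok TE_l5621 _))))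
          (CovZ.n1 (800, 28640) (by decide +kernel)
           (CovZ.n2 (800, 28800) (by decide +kernel)
            (CovZ.leaf K2_ok TE_l5622 _)
            (CovZ.n1 (720, 28720) (by decide +kernel)
             (CovZ.leaf K2_ok TE_l5623 _)
             (CovZ.leaf K2_ok TE_l5624 _)))
           (CovZ.n1 (960, 28640) (by decide +kernel)
            (CovZ.n2 (880, 28560) (by decide +kernel)
             (CovZ.leaf K2_ok TE_l5625 _)
             (CovZ.leaf K2_ok TE_l5626 _))
            (CovZ.leaf K2_ok TE_l5627 _))))
         (CovZ.n1 (1280, 28480) (by decide +kernel)
          (CovZ.n2 (1120, 28320) (by decide +kernel)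
           (CovZ.n2 (1120, 28480) (by decide +kernel)
            (CovZ.n2 (1200, 28400) (by decide +kernel)
             (CovZ.n2 (1120, 28400) (by decide +kernel)
              (CovZ.leaf K2_ok TE_l5628 _)
              (CovZ.leaf K2_ok TE_l5629 _))
             (CovZ.leaf K2_ok TE_l5630 _))
            (CovZ.n1 (1040, 28400) (by decide +kernel)
             (CovZ.leaf K2_ok TE_l5631 _)
             (CovZ.leaf K2_ok TE_l5632 _)))
           (CovZ.n1 (1280, 28320) (by decide +kernel)
            (CovZ.n2 (1200, 28240) (by decide +kernel)
             (CovZ.n2 (1200, 28320) (by decide +kernel)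
              (CovZ.leaf K2_ok TE_l5633 _)
              (CovZ.n1 (1160, 28280) (by decide +kernel)
               (CovZ.leaf K2_ok TE_l5634 _)
               (CovZ.leaf K2_ok TE_l5635 _)))
             (CovZ.n1 (1280, 28240) (by decide +kernel)
              (CovZ.n2 (1240, 28200) (by decide +kernel)
               (CovZ.leaf K2_ok TE_l5636 _)
               (CovZ.leaf K2_ok TE_l5637 _))
              (CovZ.leaf K2_ok TE_l5638 _)))
            (CovZ.n1 (1200, 28400) (by decide +kernel)
             (CovZ.n2 (1280, 28400) (by decide +kernel)
              (CovZ.leaf K2_ok TE_l5639 _)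
              (CovZ.leaf K2_ok TE_l5640 _))
             (CovZ.n1 (1200, 28320) (by decide +kernel)
              (CovZ.leaf K2_ok TE_l5641 _)
              (CovZ.leaf K2_ok TE_l5642 _)))))
          (CovZ.n1 (1120, 28640) (by decide +kernel)
           (CovZ.n2 (1280, 28640) (by decide +kernel)
            (CovZ.n2 (1200, 28560) (by decide +kernel)
             (CovZ.leaf K2_ok TE_l5643 _)
             (CovZ.leaf K2_ok TE_l5644 _))
            (CovZ.leaf K2_ok TE_l5645 _))
           (CovZ.n1 (1120, 28480) (by decide +kernel)
            (CovZ.n2 (1040, 28560) (by decide +kernel)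
             (CovZ.leaf K2_ok TE_l5646 _)
             (CovZ.leaf K2_ok TE_l5647 _))
            (CovZ.n1 (1200, 28560) (by decide +kernel)
             (CovZ.leaf K2_ok TE_l5648 _)
             (CovZ.leaf K2_ok TE_l5649 _)))))))
       (CovZ.n1 (960, 29120) (by decide +kernel)
        (CovZ.subM 19459082451355232345485464379820086841705723969641743839657986 (by decide +kernel)
         (CovZ.n2 (1280, 29120) (by decide +kernel)
          (CovZ.n2 (1120, 28960) (by decide +kernel)
           (CovZ.n2 (1120, 29120) (by decide +kernel)
            (CovZ.leaf K2_ok TE_l5650 _)
            (CovZ.leaf K2_ok TE_l5651 _))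
           (CovZ.n1 (1280, 28960) (by decide +kernel)
            (CovZ.n2 (1200, 28880) (by decide +kernel)
             (CovZ.leaf K2_ok TE_l5652 _)
             (CovZ.leaf K2_ok TE_l5653 _))
            (CovZ.leaf K2_ok TE_l5654 _)))
          (CovZ.n1 (1120, 29280) (by decide +kernel)
           (CovZ.leaf K2_ok TE_l5655 _)
           (CovZ.n1 (1120, 29120) (by decide +kernel)
            (CovZ.leaf K2_ok TE_l5656 _)
            (CovZ.leaf K2_ok TE_l5657 _)))))
        (CovZ.subM 19410434121777449983694407184500033700562106782889150555095042 (by decide +kernel)
         (CovZ.n1 (960, 28800) (by decide +kernel)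
          (CovZ.n2 (800, 28960) (by decide +kernel)
           (CovZ.n2 (960, 28960) (by decide +kernel)
            (CovZ.n2 (880, 28880) (by decide +kernel)
             (CovZ.leaf K2_ok TE_l5658 _)
             (CovZ.leaf K2_ok TE_l5659 _))
            (CovZ.leaf K2_ok TE_l5660 _))
           (CovZ.n1 (800, 28800) (by decide +kernel)
            (CovZ.leaf K2_ok TE_l5661 _)
            (CovZ.n1 (880, 28880) (by decide +kernel)
             (CovZ.leaf K2_ok TE_l5662 _)
             (CovZ.leaf K2_ok TE_l5663 _))))
          (CovZ.n1 (1120, 28960) (by decide +kernel)
           (CovZ.n2 (1120, 28800) (by decide +kernel)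
            (CovZ.leaf K2_ok TE_l5664 _)
            (CovZ.n1 (1200, 28880) (by decide +kernel)
             (CovZ.leaf K2_ok TE_l5665 _)
             (CovZ.leaf K2_ok TE_l5666 _)))
           (CovZ.n1 (960, 28960) (by decide +kernel)
            (CovZ.leaf K2_ok TE_l5667 _)
            (CovZ.leaf K2_ok TE_l5668 _)))))))

theorem TE_u120 : CovZ TE_M (toL (selN TE_LN 23491538020451331505232285491076838193574585194570473231360198)) [0, 7, 6, 1] (640, 28800) (0, 28160) (1280, 28160) :=
    (CovZ.subM 25174687467960290588303531574199271279447512697787364933638 (by decide +kernel)
       (CovZ.n1 (640, 28160) (by decide +kernel)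
        (CovZ.n2 (320, 28480) (by decide +kernel)
         (CovZ.n2 (640, 28480) (by decide +kernel)
          (CovZ.n2 (480, 28320) (by decide +kernel)
           (CovZ.n2 (480, 28480) (by decide +kernel)
            (CovZ.n2 (560, 28400) (by decide +kernel)
             (CovZ.leaf K2_ok TE_l5669 _)
             (CovZ.leaf K2_ok TE_l5670 _))
            (CovZ.n1 (400, 28400) (by decide +kernel)
             (CovZ.leaf K2_ok TE_l5671 _)
             (CovZ.leaf K2_ok TE_l5672 _)))
           (CovZ.n1 (640, 28320) (by decide +kernel)
            (CovZ.n2 (560, 28240) (by decide +kernel)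
             (CovZ.leaf K2_ok TE_l5673 _)
             (CovZ.leaf K2_ok TE_l5674 _))
            (CovZ.n1 (560, 28400) (by decide +kernel)
             (CovZ.leaf K2_ok TE_l5675 _)
             (CovZ.leaf K2_ok TE_l5676 _))))
          (CovZ.n1 (480, 28640) (by decide +kernel)
           (CovZ.n2 (640, 28640) (by decide +kernel)
            (CovZ.n2 (560, 28560) (by decide +kernel)
             (CovZ.leaf K2_ok TE_l5677 _)
             (CovZ.leaf K2_ok TE_l5678 _))
            (CovZ.leaf K2_ok TE_l5679 _))
           (CovZ.n1 (480, 28480) (by decide +kernel)
            (CovZ.leaf K2_ok TE_l5680 _)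
            (CovZ.n1 (560, 28560) (by decide +kernel)
             (CovZ.leaf K2_ok TE_l5681 _)
             (CovZ.leaf K2_ok TE_l5682 _)))))
         (CovZ.n1 (320, 28160) (by decide +kernel)
          (CovZ.n2 (160, 28320) (by decide +kernel)
           (CovZ.n2 (320, 28320) (by decide +kernel)
            (CovZ.n2 (240, 28240) (by decide +kernel)
             (CovZ.leaf K2_ok TE_l5683 _)
             (CovZ.leaf K2_ok TE_l5684 _))
            (CovZ.leaf K2_ok TE_l5685 _))
           (CovZ.subM 25122199402149258707149743415558896046027973750004994015232 (by decide +kernel)
            (CovZ.n1 (160, 28160) (by decide +kernel)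
             (CovZ.n2 (80, 28240) (by decide +kernel)
              (CovZ.leaf K2_ok TE_l5686 _)
              (CovZ.leaf K2_ok TE_l5687 _))
             (CovZ.n1 (240, 28240) (by decide +kernel)
              (CovZ.leaf K2_ok TE_l5688 _)
              (CovZ.leaf K2_ok TE_l5689 _)))))
          (CovZ.n1 (480, 28320) (by decide +kernel)
           (CovZ.n2 (480, 28160) (by decide +kernel)
            (CovZ.n2 (400, 28240) (by decide +kernel)
             (CovZ.leaf K2_ok TE_l5690 _)
             (CovZ.leaf K2_ok TE_l5691 _))
            (CovZ.n1 (560, 28240) (by decide +kernel)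
             (CovZ.n2 (560, 28160) (by decide +kernel)
              (CovZ.leaf K2_ok TE_l5692 _)
              (CovZ.leaf K2_ok TE_l5693 _))
             (CovZ.leaf K2_ok TE_l5694 _)))
           (CovZ.n1 (320, 28320) (by decide +kernel)
            (CovZ.n2 (400, 28400) (by decide +kernel)
             (CovZ.leaf K2_ok TE_l5695 _)
             (CovZ.leaf K2_ok TE_l5696 _))
            (CovZ.n1 (400, 28240) (by decide +kernel)
             (CovZ.leaf K2_ok TE_l5697 _)
             (CovZ.leaf K2_ok TE_l5698 _))))))
        (CovZ.n1 (960, 28480) (by decide +kernel)
         (CovZ.n2 (960, 28160) (by decide +kernel)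
          (CovZ.n2 (800, 28320) (by decide +kernel)
           (CovZ.n2 (960, 28320) (by decide +kernel)
            (CovZ.n2 (880, 28240) (by decide +kernel)
             (CovZ.n2 (880, 28320) (by decide +kernel)
              (CovZ.leaf K2_ok TE_l5699 _)
              (CovZ.leaf K2_ok TE_l5700 _))
             (CovZ.n1 (960, 28240) (by decide +kernel)
              (CovZ.n2 (920, 28200) (by decide +kernel)
               (CovZ.leaf K2_ok TE_l5701 _)
               (CovZ.leaf K2_ok TE_l5702 _))
              (CovZ.leaf K2_ok TE_l5703 _)))
            (CovZ.n1 (880, 28400) (by decide +kernel)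
             (CovZ.leaf K2_ok TE_l5704 _)
             (CovZ.leaf K2_ok TE_l5705 _)))
           (CovZ.n1 (800, 28160) (by decide +kernel)
            (CovZ.n2 (720, 28240) (by decide +kernel)
             (CovZ.n2 (800, 28240) (by decide +kernel)
              (CovZ.leaf K2_ok TE_l5706 _)
              (CovZ.leaf K2_ok TE_l5707 _))
             (CovZ.n1 (720, 28160) (by decide +kernel)
              (CovZ.leaf K2_ok TE_l5708 _)
              (CovZ.leaf K2_ok TE_l5709 _)))
            (CovZ.n1 (880, 28240) (by decide +kernel)
             (CovZ.n2 (880, 28160) (by decide +kernel)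
              (CovZ.leaf K2_ok TE_l5710 _)
              (CovZ.leaf K2_ok TE_l5711 _))
             (CovZ.n1 (800, 28240) (by decide +kernel)
              (CovZ.leaf K2_ok TE_l5712 _)
              (CovZ.leaf K2_ok TE_l5713 _)))))
          (CovZ.n1 (1120, 28320) (by decide +kernel)
           (CovZ.n2 (1120, 28160) (by decide +kernel)
            (CovZ.n2 (1040, 28240) (by decide +kernel)
             (CovZ.n2 (1120, 28240) (by decide +kernel)
              (CovZ.n2 (1080, 28200) (by decide +kernel)
               (CovZ.leaf K2_ok TE_l5714 _)
               (CovZ.leaf K2_ok TE_l5715 _))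
              (CovZ.leaf K2_ok TE_l5716 _))
             (CovZ.n1 (1040, 28160) (by decide +kernel)
              (CovZ.leaf K2_ok TE_l5717 _)
              (CovZ.n1 (1080, 28200) (by decide +kernel)
               (CovZ.leaf K2_ok TE_l5718 _)
               (CovZ.leaf K2_ok TE_l5719 _))))
            (CovZ.n1 (1200, 28240) (by decide +kernel)
             (CovZ.n2 (1200, 28160) (by decide +kernel)
              (CovZ.leaf K2_ok TE_l5720 _)
              (CovZ.n1 (1240, 28200) (by decide +kernel)
               (CovZ.leaf K2_ok TE_l5721 _)
               (CovZ.leaf K2_ok TE_l5722 _)))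
             (CovZ.n1 (1120, 28240) (by decide +kernel)
              (CovZ.leaf K2_ok TE_l5723 _)
              (CovZ.leaf K2_ok TE_l5724 _))))
           (CovZ.n1 (960, 28320) (by decide +kernel)
            (CovZ.n2 (1040, 28400) (by decide +kernel)
             (CovZ.n2 (1040, 28320) (by decide +kernel)
              (CovZ.leaf K2_ok TE_l5725 _)
              (CovZ.leaf K2_ok TE_l5726 _))
             (CovZ.leaf K2_ok TE_l5727 _))
            (CovZ.n1 (1040, 28240) (by decide +kernel)
             (CovZ.n2 (960, 28240) (by decide +kernel)
              (CovZ.leaf K2_ok TE_l5728 _)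
              (CovZ.leaf K2_ok TE_l5729 _))
             (CovZ.n1 (1040, 28320) (by decide +kernel)
              (CovZ.leaf K2_ok TE_l5730 _)
              (CovZ.leaf K2_ok TE_l5731 _))))))
         (CovZ.n1 (640, 28480) (by decide +kernel)
          (CovZ.n2 (800, 28640) (by decide +kernel)
           (CovZ.n2 (800, 28480) (by decide +kernel)
            (CovZ.n2 (720, 28560) (by decide +kernel)
             (CovZ.leaf K2_ok TE_l5732 _)
             (CovZ.leaf K2_ok TE_l5733 _))
            (CovZ.n1 (880, 28560) (by decide +kernel)
             (CovZ.leaf K2_ok TE_l5734 _)
             (CovZ.leaf K2_ok TE_l5735 _)))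
           (CovZ.n1 (640, 28640) (by decide +kernel)
            (CovZ.n2 (720, 28720) (by decide +kernel)
             (CovZ.leaf K2_ok TE_l5736 _)
             (CovZ.leaf K2_ok TE_l5737 _))
            (CovZ.leaf K2_ok TE_l5738 _)))
          (CovZ.n1 (800, 28320) (by decide +kernel)
           (CovZ.n2 (640, 28320) (by decide +kernel)
            (CovZ.n2 (720, 28400) (by decide +kernel)
             (CovZ.leaf K2_ok TE_l5739 _)
             (CovZ.leaf K2_ok TE_l5740 _))
            (CovZ.n1 (720, 28240) (by decide +kernel)
             (CovZ.n2 (640, 28240) (by decide +kernel)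
              (CovZ.leaf K2_ok TE_l5741 _)
              (CovZ.leaf K2_ok TE_l5742 _))
             (CovZ.leaf K2_ok TE_l5743 _)))
           (CovZ.n1 (800, 28480) (by decide +kernel)
            (CovZ.n2 (880, 28400) (by decide +kernel)
             (CovZ.leaf K2_ok TE_l5744 _)
             (CovZ.leaf K2_ok TE_l5745 _))
            (CovZ.n1 (720, 28400) (by decide +kernel)
             (CovZ.leaf K2_ok TE_l5746 _)
             (CovZ.leaf K2_ok TE_l5747 _))))))))

theorem TE_u121 : CovZ TE_M (toL (selN TE_LN 23491538020451331505232285491076838193574585194570473231360198)) [0, 7, 6, 1] (1920, 28160) (2240, 28160) (2240, 28480) :=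
    (CovZ.n2 (2080, 28320) (by decide +kernel)
          (CovZ.n2 (2240, 28320) (by decide +kernel)
           (CovZ.subM 20262684779586259799774268759135589347830752849541600915750978 (by decide +kernel)
            (CovZ.n2 (2160, 28240) (by decide +kernel)
             (CovZ.n2 (2160, 28320) (by decide +kernel)
              (CovZ.n2 (2200, 28280) (by decide +kernel)
               (CovZ.n2 (2160, 28280) (by decide +kernel)
                (CovZ.leaf K2_ok TE_l5842 _)
                (CovZ.leaf K2_ok TE_l5843 _))
               (CovZ.n1 (2200, 28320) (by decide +kernel)
                (CovZ.leaf K2_ok TE_l5844 _)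
                (CovZ.leaf K2_ok TE_l5845 _)))
              (CovZ.n1 (2120, 28280) (by decide +kernel)
               (CovZ.leaf K2_ok TE_l5846 _)
               (CovZ.leaf K2_ok TE_l5847 _)))
             (CovZ.n1 (2240, 28240) (by decide +kernel)
              (CovZ.n2 (2200, 28200) (by decide +kernel)
               (CovZ.n2 (2200, 28240) (by decide +kernel)
                (CovZ.leaf K2_ok TE_l5848 _)
                (CovZ.n1 (2180, 28220) (by decide +kernel)
                 (CovZ.leaf K2_ok TE_l5849 _)
                 (CovZ.leaf K2_ok TE_l5850 _)))
               (CovZ.n1 (2240, 28200) (by decide +kernel)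
                (CovZ.n2 (2220, 28180) (by decide +kernel)
                 (CovZ.leaf K2_ok TE_l5851 _)
                 (CovZ.leaf K2_ok TE_l5852 _))
                (CovZ.leaf K2_ok TE_l5853 _)))
              (CovZ.n1 (2200, 28280) (by decide +kernel)
               (CovZ.n2 (2240, 28280) (by decide +kernel)
                (CovZ.leaf K2_ok TE_l5854 _)
                (CovZ.leaf K2_ok TE_l5855 _))
               (CovZ.n1 (2200, 28240) (by decide +kernel)
                (CovZ.leaf K2_ok TE_l5856 _)
                (CovZ.leaf K2_ok TE_l5857 _))))))
           (CovZ.n1 (2160, 28400) (by decide +kernel)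
            (CovZ.n2 (2240, 28400) (by decide +kernel)
             (CovZ.n2 (2200, 28360) (by decide +kernel)
              (CovZ.leaf K2_ok TE_l5858 _)
              (CovZ.leaf K2_ok TE_l5859 _))
             (CovZ.leaf K2_ok TE_l5860 _))
            (CovZ.n1 (2160, 28320) (by decide +kernel)
             (CovZ.n2 (2120, 28360) (by decide +kernel)
              (CovZ.leaf K2_ok TE_l5861 _)
              (CovZ.leaf K2_ok TE_l5862 _))
             (CovZ.n1 (2200, 28360) (by decide +kernel)
              (CovZ.leaf K2_ok TE_l5863 _)
              (CovZ.leaf K2_ok TE_l5864 _)))))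
          (CovZ.subM 20262686311146348273908190794063823246916217656610787317252162 (by decide +kernel)
           (CovZ.n1 (2080, 28160) (by decide +kernel)
            (CovZ.n2 (2000, 28240) (by decide +kernel)
             (CovZ.n2 (2080, 28240) (by decide +kernel)
              (CovZ.n2 (2040, 28200) (by decide +kernel)
               (CovZ.n2 (2040, 28240) (by decide +kernel)
                (CovZ.leaf K2_ok TE_l5865 _)
                (CovZ.leaf K2_ok TE_l5866 _))
               (CovZ.n1 (2080, 28200) (by decide +kernel)
                (CovZ.leaf K2_ok TE_l5867 _)
                (CovZ.leaf K2_ok TE_l5868 _)))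
              (CovZ.n1 (2040, 28280) (by decide +kernel)
               (CovZ.leaf K2_ok TE_l5869 _)
               (CovZ.leaf K2_ok TE_l5870 _)))
             (CovZ.n1 (2000, 28160) (by decide +kernel)
              (CovZ.n2 (1960, 28200) (by decide +kernel)
               (CovZ.n2 (2000, 28200) (by decide +kernel)
                (CovZ.leaf K2_ok TE_l5871 _)
                (CovZ.leaf K2_ok TE_l5872 _))
               (CovZ.n1 (1960, 28160) (by decide +kernel)
                (CovZ.leaf K2_ok TE_l5873 _)
                (CovZ.leaf K2_ok TE_l5874 _)))
              (CovZ.n1 (2040, 28200) (by decide +kernel)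
               (CovZ.n2 (2040, 28160) (by decide +kernel)
                (CovZ.leaf K2_ok TE_l5875 _)
                (CovZ.leaf K2_ok TE_l5876 _))
               (CovZ.n1 (2000, 28200) (by decide +kernel)
                (CovZ.leaf K2_ok TE_l5877 _)
                (CovZ.leaf K2_ok TE_l5878 _)))))
            (CovZ.n1 (2160, 28240) (by decide +kernel)
             (CovZ.n2 (2160, 28160) (by decide +kernel)
              (CovZ.n2 (2120, 28200) (by decide +kernel)
               (CovZ.n2 (2160, 28200) (by decide +kernel)
                (CovZ.n2 (2140, 28180) (by decide +kernel)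
                 (CovZ.leaf K2_ok TE_l5879 _)
                 (CovZ.leaf K2_ok TE_l5880 _))
                (CovZ.leaf K2_ok TE_l5881 _))
               (CovZ.n1 (2120, 28160) (by decide +kernel)
                (CovZ.leaf K2_ok TE_l5882 _)
                (CovZ.n1 (2140, 28180) (by decide +kernel)
                 (CovZ.leaf K2_ok TE_l5883 _)
                 (CovZ.leaf K2_ok TE_l5884 _))))
              (CovZ.n1 (2200, 28200) (by decide +kernel)
               (CovZ.n2 (2200, 28160) (by decide +kernel)
                (CovZ.leaf K2_ok TE_l5885 _)
                (CovZ.n1 (2220, 28180) (by decide +kernel)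
                 (CovZ.leaf K2_ok TE_l5886 _)
                 (CovZ.leaf K2_ok TE_l5887 _)))
               (CovZ.n1 (2160, 28200) (by decide +kernel)
                (CovZ.leaf K2_ok TE_l5888 _)
                (CovZ.leaf K2_ok TE_l5889 _))))
             (CovZ.n1 (2080, 28240) (by decide +kernel)
              (CovZ.n2 (2120, 28280) (by decide +kernel)
               (CovZ.n2 (2120, 28240) (by decide +kernel)
                (CovZ.leaf K2_ok TE_l5890 _)
                (CovZ.leaf K2_ok TE_l5891 _))
               (CovZ.leaf K2_ok TE_l5892 _))
              (CovZ.n1 (2120, 28200) (by decide +kernel)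
               (CovZ.n2 (2080, 28200) (by decide +kernel)
                (CovZ.leaf K2_ok TE_l5893 _)
                (CovZ.leaf K2_ok TE_l5894 _))
               (CovZ.n1 (2120, 28240) (by decide +kernel)
                (CovZ.leaf K2_ok TE_l5895 _)
                (CovZ.leaf K2_ok TE_l5896 _))))))))

theorem TE_u122 : CovZ TE_M (toL (selN TE_LN 23491538020451331505232285491076838193574585194570473231360198)) [0, 7, 6, 1] (2240, 28160) (2560, 28160) (2240, 28480) :=
    (CovZ.n1 (2400, 28320) (by decide +kernel)
          (CovZ.subM 196974527901878345496426744999057760044054568968829009922 (by decide +kernel)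
           (CovZ.n2 (2400, 28160) (by decide +kernel)
            (CovZ.n2 (2320, 28240) (by decide +kernel)
             (CovZ.n2 (2400, 28240) (by decide +kernel)
              (CovZ.n2 (2360, 28200) (by decide +kernel)
               (CovZ.n2 (2360, 28240) (by decide +kernel)
                (CovZ.leaf K2_ok TE_l5897 _)
                (CovZ.n1 (2340, 28220) (by decide +kernel)
                 (CovZ.leaf K2_ok TE_l5898 _)
                 (CovZ.leaf K2_ok TE_l5899 _)))
               (CovZ.n1 (2400, 28200) (by decide +kernel)
                (CovZ.n2 (2380, 28180) (by decide +kernel)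
                 (CovZ.leaf K2_ok TE_l5900 _)
                 (CovZ.leaf K2_ok TE_l5901 _))
                (CovZ.leaf K2_ok TE_l5902 _)))
              (CovZ.n1 (2360, 28280) (by decide +kernel)
               (CovZ.n2 (2400, 28280) (by decide +kernel)
                (CovZ.n2 (2380, 28260) (by decide +kernel)
                 (CovZ.leaf K2_ok TE_l5903 _)
                 (CovZ.leaf K2_ok TE_l5904 _))
                (CovZ.leaf K2_ok TE_l5905 _))
               (CovZ.n1 (2360, 28240) (by decide +kernel)
                (CovZ.leaf K2_ok TE_l5906 _)
                (CovZ.leaf K2_ok TE_l5907 _))))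
             (CovZ.n1 (2320, 28160) (by decide +kernel)
              (CovZ.n2 (2280, 28200) (by decide +kernel)
               (CovZ.n2 (2320, 28200) (by decide +kernel)
                (CovZ.n2 (2300, 28180) (by decide +kernel)
                 (CovZ.leaf K2_ok TE_l5908 _)
                 (CovZ.leaf K2_ok TE_l5909 _))
                (CovZ.leaf K2_ok TE_l5910 _))
               (CovZ.n1 (2280, 28160) (by decide +kernel)
                (CovZ.leaf K2_ok TE_l5911 _)
                (CovZ.n1 (2300, 28180) (by decide +kernel)
                 (CovZ.leaf K2_ok TE_l5912 _)
                 (CovZ.leaf K2_ok TE_l5913 _))))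
              (CovZ.n1 (2360, 28200) (by decide +kernel)
               (CovZ.n2 (2360, 28160) (by decide +kernel)
                (CovZ.leaf K2_ok TE_l5914 _)
                (CovZ.n1 (2380, 28180) (by decide +kernel)
                 (CovZ.leaf K2_ok TE_l5915 _)
                 (CovZ.leaf K2_ok TE_l5916 _)))
               (CovZ.n1 (2320, 28200) (by decide +kernel)
                (CovZ.n2 (2340, 28220) (by decide +kernel)
                 (CovZ.leaf K2_ok TE_l5917 _)
                 (CovZ.leaf K2_ok TE_l5918 _))
                (CovZ.leaf K2_ok TE_l5919 _)))))
            (CovZ.n1 (2480, 28240) (by decide +kernel)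
             (CovZ.n2 (2480, 28160) (by decide +kernel)
              (CovZ.n2 (2440, 28200) (by decide +kernel)
               (CovZ.n2 (2480, 28200) (by decide +kernel)
                (CovZ.n2 (2460, 28180) (by decide +kernel)
                 (CovZ.n2 (2460, 28200) (by decide +kernel)
                  (CovZ.leaf K2_ok TE_l5920 _)
                  (CovZ.leaf K2_ok TE_l5921 _))
                 (CovZ.leaf K2_ok TE_l5922 _))
                (CovZ.n1 (2460, 28220) (by decide +kernel)
                 (CovZ.leaf K2_ok TE_l5923 _)
                 (CovZ.leaf K2_ok TE_l5924 _)))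
               (CovZ.subM 196208280128585237938646502950833709219415050645407793152 (by decide +kernel)
                (CovZ.n1 (2440, 28160) (by decide +kernel)
                 (CovZ.n2 (2420, 28180) (by decide +kernel)
                  (CovZ.leaf K2_ok TE_l5925 _)
                  (CovZ.leaf K2_ok TE_l5926 _))
                 (CovZ.n1 (2460, 28180) (by decide +kernel)
                  (CovZ.leaf K2_ok TE_l5927 _)
                  (CovZ.leaf K2_ok TE_l5928 _)))))
              (CovZ.subM 196208278667083600607826702061704641048529366825245343744 (by decide +kernel)
               (CovZ.n1 (2520, 28200) (by decide +kernel)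
                (CovZ.subM 196159452820383638913973658125143747616505591394849521664 (by decide +kernel)
                 (CovZ.n2 (2520, 28160) (by decide +kernel)
                  (CovZ.n2 (2500, 28180) (by decide +kernel)
                   (CovZ.n2 (2520, 28180) (by decide +kernel)
                    (CovZ.n2 (2510, 28170) (by decide +kernel)
                     (CovZ.leaf K2_ok TE_l5929 _)
                     (CovZ.leaf K2_ok TE_l5930 _))
                    (CovZ.leaf K2_ok TE_l5931 _))
                   (CovZ.n1 (2500, 28160) (by decide +kernel)
                    (CovZ.leaf K2_ok TE_l5932 _)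
                    (CovZ.n1 (2510, 28170) (by decide +kernel)
                     (CovZ.leaf K2_ok TE_l5933 _)
                     (CovZ.leaf K2_ok TE_l5934 _))))
                  (CovZ.n1 (2540, 28180) (by decide +kernel)
                   (CovZ.n2 (2540, 28160) (by decide +kernel)
                    (CovZ.leaf K2_ok TE_l5935 _)
                    (CovZ.n1 (2550, 28170) (by decide +kernel)
                     (CovZ.leaf K2_ok TE_l5936 _)
                     (CovZ.leaf K2_ok TE_l5937 _)))
                   (CovZ.leaf K2_ok TE_l5938 _))))
                (CovZ.n1 (2480, 28200) (by decide +kernel)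
                 (CovZ.n2 (2500, 28220) (by decide +kernel)
                  (CovZ.leaf K2_ok TE_l5939 _)
                  (CovZ.leaf K2_ok TE_l5940 _))
                 (CovZ.n1 (2500, 28180) (by decide +kernel)
                  (CovZ.leaf K2_ok TE_l5941 _)
                  (CovZ.leaf K2_ok TE_l5942 _))))))
             (CovZ.n1 (2400, 28240) (by decide +kernel)
              (CovZ.n2 (2440, 28280) (by decide +kernel)
               (CovZ.n2 (2440, 28240) (by decide +kernel)
                (CovZ.leaf K2_ok TE_l5943 _)
                (CovZ.n1 (2460, 28260) (by decide +kernel)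
                 (CovZ.leaf K2_ok TE_l5944 _)
                 (CovZ.leaf K2_ok TE_l5945 _)))
               (CovZ.n1 (2400, 28280) (by decide +kernel)
                (CovZ.leaf K2_ok TE_l5946 _)
                (CovZ.leaf K2_ok TE_l5947 _)))
              (CovZ.n1 (2440, 28200) (by decide +kernel)
               (CovZ.n2 (2400, 28200) (by decide +kernel)
                (CovZ.n2 (2420, 28220) (by decide +kernel)
                 (CovZ.leaf K2_ok TE_l5948 _)
                 (CovZ.leaf K2_ok TE_l5949 _))
                (CovZ.n1 (2420, 28180) (by decide +kernel)
                 (CovZ.leaf K2_ok TE_l5950 _)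
                 (CovZ.leaf K2_ok TE_l5951 _)))
               (CovZ.n1 (2440, 28240) (by decide +kernel)
                (CovZ.n2 (2460, 28220) (by decide +kernel)
                 (CovZ.leaf K2_ok TE_l5952 _)
                 (CovZ.leaf K2_ok TE_l5953 _))
                (CovZ.n1 (2420, 28220) (by decide +kernel)
                 (CovZ.leaf K2_ok TE_l5954 _)
                 (CovZ.leaf K2_ok TE_l5955 _))))))))
          (CovZ.n1 (2240, 28320) (by decide +kernel)
           (CovZ.n2 (2320, 28400) (by decide +kernel)
            (CovZ.subM 7419734628985108108133156762471959079299368217160318984388610 (by decide +kernel)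
             (CovZ.n2 (2320, 28320) (by decide +kernel)
              (CovZ.n2 (2280, 28360) (by decide +kernel)
               (CovZ.leaf K2_ok TE_l5956 _)
               (CovZ.leaf K2_ok TE_l5957 _))
              (CovZ.n1 (2360, 28360) (by decide +kernel)
               (CovZ.n2 (2360, 28320) (by decide +kernel)
                (CovZ.leaf K2_ok TE_l5958 _)
                (CovZ.leaf K2_ok TE_l5959 _))
               (CovZ.n1 (2320, 28360) (by decide +kernel)
                (CovZ.leaf K2_ok TE_l5960 _)
                (CovZ.leaf K2_ok TE_l5961 _)))))
            (CovZ.n1 (2240, 28400) (by decide +kernel)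
             (CovZ.n2 (2280, 28440) (by decide +kernel)
              (CovZ.leaf K2_ok TE_l5962 _)
              (CovZ.leaf K2_ok TE_l5963 _))
             (CovZ.n1 (2280, 28360) (by decide +kernel)
              (CovZ.leaf K2_ok TE_l5964 _)
              (CovZ.leaf K2_ok TE_l5965 _))))
           (CovZ.subM 6616265606855615646451599540016640353369248514582604243009538 (by decide +kernel)
            (CovZ.n1 (2320, 28240) (by decide +kernel)
             (CovZ.n2 (2240, 28240) (by decide +kernel)
              (CovZ.n2 (2280, 28280) (by decide +kernel)
               (CovZ.n2 (2280, 28240) (by decide +kernel)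
                (CovZ.leaf K2_ok TE_l5966 _)
                (CovZ.leaf K2_ok TE_l5967 _))
               (CovZ.n1 (2240, 28280) (by decide +kernel)
                (CovZ.leaf K2_ok TE_l5968 _)
                (CovZ.leaf K2_ok TE_l5969 _)))
              (CovZ.n1 (2280, 28200) (by decide +kernel)
               (CovZ.n2 (2240, 28200) (by decide +kernel)
                (CovZ.leaf K2_ok TE_l5970 _)
                (CovZ.leaf K2_ok TE_l5971 _))
               (CovZ.n1 (2280, 28240) (by decide +kernel)
                (CovZ.leaf K2_ok TE_l5972 _)
                (CovZ.n1 (2260, 28220) (by decide +kernel)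
                 (CovZ.leaf K2_ok TE_l5973 _)
                 (CovZ.leaf K2_ok TE_l5974 _)))))
             (CovZ.n1 (2320, 28320) (by decide +kernel)
              (CovZ.n2 (2360, 28280) (by decide +kernel)
               (CovZ.n2 (2320, 28280) (by decide +kernel)
                (CovZ.leaf K2_ok TE_l5975 _)
                (CovZ.leaf K2_ok TE_l5976 _))
               (CovZ.n1 (2360, 28320) (by decide +kernel)
                (CovZ.leaf K2_ok TE_l5977 _)
                (CovZ.leaf K2_ok TE_l5978 _)))
              (CovZ.n1 (2280, 28280) (by decide +kernel)
               (CovZ.n2 (2280, 28320) (by decide +kernel)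
                (CovZ.leaf K2_ok TE_l5979 _)
                (CovZ.leaf K2_ok TE_l5980 _))
               (CovZ.n1 (2320, 28280) (by decide +kernel)
                (CovZ.leaf K2_ok TE_l5981 _)
                (CovZ.leaf K2_ok TE_l5982 _))))))))

end Pool.Agent.TET
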