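import Pool.Agent.Helper38_TET.TE_M
import Pool.Agent.Helper38_TET.TE_L
import Pool.Agent.Helper38_TET.TE_34
import Pool.Agent.Helper38_TET.TE_38
import Pool.Agent.Helper38_TET.TE_39
import Pool.Agent.Helper38_TET.TE_40
import Pool.Agent.Helper38_TET.TE_41
import Pool.Agent.Helper38_TET.TE_55
import Pool.Agent.Helper38_TET.TE_56
import Pool.Agent.Helper38_TET.TE_57
import Pool.Agent.Helper38_TET.TE_58
import Pool.Agent.Helper38_TET.TE_59
import Pool.Agent.Helper38_TET.TE_117
import Pool.Agent.Helper38_TET.TE_118
import Pool.Agent.Helper38_TET.TE_132
import Pool.Agent.Helper38_TET.TE_U7

/-!
# MP_c7c9bf_co: certificates, family TE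
-/

set_option autoImplicit false
set_option maxRecDepth 100000

namespace Pool.Agent.TET

theorem TE_u123 : CovZ TE_M (toL (selN TE_LN 23491538020451331505232285491076838193574585194570473231360198)) [0, 7, 6, 1] (1280, 28160) (1920, 28160) (1920, 28800) :=
    (CovZ.n2 (1600, 28480) (by decide +kernel)
        (CovZ.n2 (1920, 28480) (by decide +kernel)
         (CovZ.n2 (1760, 28320) (by decide +kernel)
          (CovZ.subM 20262747607963133867767375619206812563167348408084152071487554 (by decide +kernel)
           (CovZ.n2 (1760, 28480) (by decide +kernel)
            (CovZ.n2 (1840, 28400) (by decide +kernel)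
             (CovZ.n2 (1760, 28400) (by decide +kernel)
              (CovZ.leaf K2_ok TE_l5748 _)
              (CovZ.leaf K2_ok TE_l5749 _))
             (CovZ.n1 (1840, 28480) (by decide +kernel)
              (CovZ.leaf K2_ok TE_l5750 _)
              (CovZ.n1 (1800, 28440) (by decide +kernel)
               (CovZ.leaf K2_ok TE_l5751 _)
               (CovZ.leaf K2_ok TE_l5752 _))))
            (CovZ.n1 (1680, 28400) (by decide +kernel)
             (CovZ.n2 (1680, 28480) (by decide +kernel)
              (CovZ.leaf K2_ok TE_l5753 _)
              (CovZ.leaf K2_ok TE_l5754 _))
             (CovZ.n1 (1760, 28400) (by decide +kernel)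
              (CovZ.n2 (1720, 28360) (by decide +kernel)
               (CovZ.leaf K2_ok TE_l5755 _)
               (CovZ.leaf K2_ok TE_l5756 _))
              (CovZ.leaf K2_ok TE_l5757 _)))))
          (CovZ.n1 (1920, 28320) (by decide +kernel)
           (CovZ.subM 20262746841713904701261540550195561026779058553416552565178434 (by decide +kernel)
            (CovZ.n2 (1840, 28240) (by decide +kernel)
             (CovZ.n2 (1840, 28320) (by decide +kernel)
              (CovZ.n2 (1880, 28280) (by decide +kernel)
               (CovZ.leaf K2_ok TE_l5758 _)
               (CovZ.leaf K2_ok TE_l5759 _))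
              (CovZ.n1 (1800, 28280) (by decide +kernel)
               (CovZ.leaf K2_ok TE_l5760 _)
               (CovZ.leaf K2_ok TE_l5761 _)))
             (CovZ.n1 (1920, 28240) (by decide +kernel)
              (CovZ.n2 (1880, 28200) (by decide +kernel)
               (CovZ.leaf K2_ok TE_l5762 _)
               (CovZ.leaf K2_ok TE_l5763 _))
              (CovZ.n1 (1880, 28280) (by decide +kernel)
               (CovZ.leaf K2_ok TE_l5764 _)
               (CovZ.leaf K2_ok TE_l5765 _)))))
           (CovZ.subM 20262747607963133870554968769023458606448819239085418909532226 (by decide +kernel)
            (CovZ.n1 (1840, 28400) (by decide +kernel)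
             (CovZ.n2 (1920, 28400) (by decide +kernel)
              (CovZ.n2 (1880, 28360) (by decide +kernel)
               (CovZ.leaf K2_ok TE_l5766 _)
               (CovZ.leaf K2_ok TE_l5767 _))
              (CovZ.leaf K2_ok TE_l5768 _))
             (CovZ.n1 (1840, 28320) (by decide +kernel)
              (CovZ.leaf K2_ok TE_l5769 _)
              (CovZ.n1 (1880, 28360) (by decide +kernel)
               (CovZ.leaf K2_ok TE_l5770 _)
               (CovZ.leaf K2_ok TE_l5771 _)))))))
         (CovZ.n1 (1760, 28640) (by decide +kernel)
          (CovZ.n2 (1920, 28640) (by decide +kernel)
           (CovZ.subM 20262551449469355425748484609501995687287203368703501919060034 (by decide +kernel)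
            (CovZ.n2 (1840, 28560) (by decide +kernel)
             (CovZ.n2 (1840, 28640) (by decide +kernel)
              (CovZ.leaf K2_ok TE_l5772 _)
              (CovZ.leaf K2_ok TE_l5773 _))
             (CovZ.n1 (1920, 28560) (by decide +kernel)
              (CovZ.leaf K2_ok TE_l5774 _)
              (CovZ.leaf K2_ok TE_l5775 _))))
           (CovZ.n1 (1840, 28720) (by decide +kernel)
            (CovZ.leaf K2_ok TE_l5776 _)
            (CovZ.leaf K2_ok TE_l5777 _)))
          (CovZ.n1 (1760, 28480) (by decide +kernel)
           (CovZ.subM 20262551448697682561226900100596912621014160697898548150140994 (by decide +kernel)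
            (CovZ.n2 (1680, 28560) (by decide +kernel)
             (CovZ.n2 (1760, 28560) (by decide +kernel)
              (CovZ.leaf K2_ok TE_l5778 _)
              (CovZ.leaf K2_ok TE_l5779 _))
             (CovZ.n1 (1680, 28480) (by decide +kernel)
              (CovZ.leaf K2_ok TE_l5780 _)
              (CovZ.leaf K2_ok TE_l5781 _))))
           (CovZ.subM 20262747608150297421198064415707646820335108134722451860881474 (by decide +kernel)
            (CovZ.n1 (1840, 28560) (by decide +kernel)
             (CovZ.n2 (1840, 28480) (by decide +kernel)
              (CovZ.leaf K2_ok TE_l5782 _)
              (CovZ.leaf K2_ok TE_l5783 _))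
             (CovZ.n1 (1760, 28560) (by decide +kernel)
              (CovZ.leaf K2_ok TE_l5784 _)
              (CovZ.leaf K2_ok TE_l5785 _)))))))
        (CovZ.n1 (1600, 28160) (by decide +kernel)
         (CovZ.subM 19410434121775899995489084099812028115568765935927555484811266 (by decide +kernel)
          (CovZ.n2 (1440, 28320) (by decide +kernel)
           (CovZ.n2 (1600, 28320) (by decide +kernel)
            (CovZ.n2 (1520, 28240) (by decide +kernel)
             (CovZ.n2 (1520, 28320) (by decide +kernel)
              (CovZ.leaf K2_ok TE_l5786 _)
              (CovZ.n1 (1480, 28280) (by decide +kernel)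
               (CovZ.leaf K2_ok TE_l5787 _)
               (CovZ.leaf K2_ok TE_l5788 _)))
             (CovZ.n1 (1600, 28240) (by decide +kernel)
              (CovZ.n2 (1560, 28200) (by decide +kernel)
               (CovZ.leaf K2_ok TE_l5789 _)
               (CovZ.leaf K2_ok TE_l5790 _))
              (CovZ.leaf K2_ok TE_l5791 _)))
            (CovZ.n1 (1520, 28400) (by decide +kernel)
             (CovZ.n2 (1600, 28400) (by decide +kernel)
              (CovZ.n2 (1560, 28360) (by decide +kernel)
               (CovZ.leaf K2_ok TE_l5792 _)
               (CovZ.leaf K2_ok TE_l5793 _))
              (CovZ.leaf K2_ok TE_l5794 _))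
             (CovZ.n1 (1520, 28320) (by decide +kernel)
              (CovZ.leaf K2_ok TE_l5795 _)
              (CovZ.n1 (1560, 28360) (by decide +kernel)
               (CovZ.leaf K2_ok TE_l5796 _)
               (CovZ.leaf K2_ok TE_l5797 _)))))
           (CovZ.n1 (1440, 28160) (by decide +kernel)
            (CovZ.n2 (1360, 28240) (by decide +kernel)
             (CovZ.n2 (1440, 28240) (by decide +kernel)
              (CovZ.n2 (1400, 28200) (by decide +kernel)
               (CovZ.leaf K2_ok TE_l5798 _)
               (CovZ.leaf K2_ok TE_l5799 _))
              (CovZ.leaf K2_ok TE_l5800 _))
             (CovZ.n1 (1360, 28160) (by decide +kernel)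
              (CovZ.leaf K2_ok TE_l5801 _)
              (CovZ.n1 (1400, 28200) (by decide +kernel)
               (CovZ.leaf K2_ok TE_l5802 _)
               (CovZ.leaf K2_ok TE_l5803 _))))
            (CovZ.n1 (1520, 28240) (by decide +kernel)
             (CovZ.n2 (1520, 28160) (by decide +kernel)
              (CovZ.n2 (1480, 28200) (by decide +kernel)
               (CovZ.leaf K2_ok TE_l5804 _)
               (CovZ.leaf K2_ok TE_l5805 _))
              (CovZ.n1 (1560, 28200) (by decide +kernel)
               (CovZ.leaf K2_ok TE_l5806 _)
               (CovZ.leaf K2_ok TE_l5807 _)))
             (CovZ.n1 (1440, 28240) (by decide +kernel)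
              (CovZ.n2 (1480, 28280) (by decide +kernel)
               (CovZ.leaf K2_ok TE_l5808 _)
               (CovZ.leaf K2_ok TE_l5809 _))
              (CovZ.n1 (1480, 28200) (by decide +kernel)
               (CovZ.leaf K2_ok TE_l5810 _)
               (CovZ.leaf K2_ok TE_l5811 _)))))))
         (CovZ.n1 (1760, 28320) (by decide +kernel)
          (CovZ.subM 20264316117241286048993984578031999160732530079257355853234242 (by decide +kernel)
           (CovZ.n2 (1760, 28160) (by decide +kernel)
            (CovZ.n2 (1680, 28240) (by decide +kernel)
             (CovZ.n2 (1760, 28240) (by decide +kernel)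
              (CovZ.n2 (1720, 28200) (by decide +kernel)
               (CovZ.leaf K2_ok TE_l5812 _)
               (CovZ.leaf K2_ok TE_l5813 _))
              (CovZ.n1 (1720, 28280) (by decide +kernel)
               (CovZ.leaf K2_ok TE_l5814 _)
               (CovZ.leaf K2_ok TE_l5815 _)))
             (CovZ.n1 (1680, 28160) (by decide +kernel)
              (CovZ.n2 (1640, 28200) (by decide +kernel)
               (CovZ.leaf K2_ok TE_l5816 _)
               (CovZ.leaf K2_ok TE_l5817 _))
              (CovZ.n1 (1720, 28200) (by decide +kernel)
               (CovZ.leaf K2_ok TE_l5818 _)
               (CovZ.leaf K2_ok TE_l5819 _))))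
            (CovZ.n1 (1840, 28240) (by decide +kernel)
             (CovZ.n2 (1840, 28160) (by decide +kernel)
              (CovZ.n2 (1800, 28200) (by decide +kernel)
               (CovZ.leaf K2_ok TE_l5820 _)
               (CovZ.leaf K2_ok TE_l5821 _))
              (CovZ.n1 (1880, 28200) (by decide +kernel)
               (CovZ.n2 (1880, 28160) (by decide +kernel)
                (CovZ.leaf K2_ok TE_l5822 _)
                (CovZ.leaf K2_ok TE_l5823 _))
               (CovZ.leaf K2_ok TE_l5824 _)))
             (CovZ.n1 (1760, 28240) (by decide +kernel)
              (CovZ.n2 (1800, 28280) (by decide +kernel)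
               (CovZ.leaf K2_ok TE_l5825 _)
               (CovZ.leaf K2_ok TE_l5826 _))
              (CovZ.n1 (1800, 28200) (by decide +kernel)
               (CovZ.leaf K2_ok TE_l5827 _)
               (CovZ.leaf K2_ok TE_l5828 _))))))
          (CovZ.subM 20264119957788671267075417824233046208762775811752121170132994 (by decide +kernel)
           (CovZ.n1 (1600, 28320) (by decide +kernel)
            (CovZ.n2 (1680, 28400) (by decide +kernel)
             (CovZ.n2 (1680, 28320) (by decide +kernel)
              (CovZ.leaf K2_ok TE_l5829 _)
              (CovZ.n1 (1720, 28360) (by decide +kernel)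
               (CovZ.leaf K2_ok TE_l5830 _)
               (CovZ.leaf K2_ok TE_l5831 _)))
             (CovZ.n1 (1600, 28400) (by decide +kernel)
              (CovZ.leaf K2_ok TE_l5832 _)
              (CovZ.leaf K2_ok TE_l5833 _)))
            (CovZ.n1 (1680, 28240) (by decide +kernel)
             (CovZ.n2 (1600, 28240) (by decide +kernel)
              (CovZ.n2 (1640, 28280) (by decide +kernel)
               (CovZ.leaf K2_ok TE_l5834 _)
               (CovZ.leaf K2_ok TE_l5835 _))
              (CovZ.n1 (1640, 28200) (by decide +kernel)
               (CovZ.leaf K2_ok TE_l5836 _)
               (CovZ.leaf K2_ok TE_l5837 _)))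
             (CovZ.n1 (1680, 28320) (by decide +kernel)
              (CovZ.n2 (1720, 28280) (by decide +kernel)
               (CovZ.leaf K2_ok TE_l5838 _)
               (CovZ.leaf K2_ok TE_l5839 _))
              (CovZ.n1 (1640, 28280) (by decide +kernel)
               (CovZ.leaf K2_ok TE_l5840 _)
               (CovZ.leaf K2_ok TE_l5841 _)))))))))

theorem TE_u124 : CovZ TE_M (toL (selN TE_LN 23491538020451331505232285491076838193574585194570473231360198)) [0, 7, 6, 1] (1920, 28160) (2560, 28160) (1920, 28800) :=
    (CovZ.n1 (2240, 28480) (by decide +kernel)
        (CovZ.n2 (2240, 28160) (by decide +kernel)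
         TE_u121
         TE_u122)
        (CovZ.n1 (1920, 28480) (by decide +kernel)
         (CovZ.n2 (2080, 28640) (by decide +kernel)
          (CovZ.n2 (2080, 28480) (by decide +kernel)
           (CovZ.n2 (2000, 28560) (by decide +kernel)
            (CovZ.n2 (2080, 28560) (by decide +kernel)
             (CovZ.n2 (2040, 28520) (by decide +kernel)
              (CovZ.leaf K2_ok TE_l5983 _)
              (CovZ.leaf K2_ok TE_l5984 _))
             (CovZ.leaf K2_ok TE_l5985 _))
            (CovZ.n1 (2000, 28480) (by decide +kernel)
             (CovZ.leaf K2_ok TE_l5986 _)
             (CovZ.leaf K2_ok TE_l5987 _)))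
           (CovZ.n1 (2160, 28560) (by decide +kernel)
            (CovZ.n2 (2160, 28480) (by decide +kernel)
             (CovZ.leaf K2_ok TE_l5988 _)
             (CovZ.n1 (2200, 28520) (by decide +kernel)
              (CovZ.leaf K2_ok TE_l5989 _)
              (CovZ.leaf K2_ok TE_l5990 _)))
            (CovZ.n1 (2080, 28560) (by decide +kernel)
             (CovZ.n2 (2120, 28600) (by decide +kernel)
              (CovZ.leaf K2_ok TE_l5991 _)
              (CovZ.leaf K2_ok TE_l5992 _))
             (CovZ.leaf K2_ok TE_l5993 _))))
          (CovZ.n1 (1920, 28640) (by decide +kernel)
           (CovZ.n2 (2000, 28720) (by decide +kernel)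
            (CovZ.n2 (2000, 28640) (by decide +kernel)
             (CovZ.leaf K2_ok TE_l5994 _)
             (CovZ.leaf K2_ok TE_l5995 _))
            (CovZ.leaf K2_ok TE_l5996 _))
           (CovZ.subM 20262551452462510399889505411124808100247856999786732155043906 (by decide +kernel)
            (CovZ.n1 (2000, 28560) (by decide +kernel)
             (CovZ.n2 (1920, 28560) (by decide +kernel)
              (CovZ.leaf K2_ok TE_l5997 _)
              (CovZ.leaf K2_ok TE_l5998 _))
             (CovZ.n1 (2000, 28640) (by decide +kernel)
              (CovZ.leaf K2_ok TE_l5999 _)
              (CovZ.leaf K2_ok TE_l6000 _))))))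
         (CovZ.n1 (2080, 28320) (by decide +kernel)
          (CovZ.n2 (1920, 28320) (by decide +kernel)
           (CovZ.n2 (2000, 28400) (by decide +kernel)
            (CovZ.subM 20262747610967980768591645366050511940681546631078438447874114 (by decide +kernel)
             (CovZ.n2 (2000, 28320) (by decide +kernel)
              (CovZ.n2 (1960, 28360) (by decide +kernel)
               (CovZ.leaf K2_ok TE_l6001 _)
               (CovZ.leaf K2_ok TE_l6002 _))
              (CovZ.n1 (2040, 28360) (by decide +kernel)
               (CovZ.leaf K2_ok TE_l6003 _)
               (CovZ.leaf K2_ok TE_l6004 _))))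
            (CovZ.subM 20262747607963133491442279126517191918516855506541886832640066 (by decide +kernel)
             (CovZ.n1 (1920, 28400) (by decide +kernel)
              (CovZ.n2 (1960, 28440) (by decide +kernel)
               (CovZ.leaf K2_ok TE_l6005 _)
               (CovZ.leaf K2_ok TE_l6006 _))
              (CovZ.n1 (1960, 28360) (by decide +kernel)
               (CovZ.leaf K2_ok TE_l6007 _)
               (CovZ.leaf K2_ok TE_l6008 _)))))
           (CovZ.subM 20262735351003655982352338825902613703498301657169024541261890 (by decide +kernel)
            (CovZ.n1 (2000, 28240) (by decide +kernel)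
             (CovZ.n2 (1920, 28240) (by decide +kernel)
              (CovZ.n2 (1960, 28280) (by decide +kernel)
               (CovZ.leaf K2_ok TE_l6009 _)
               (CovZ.leaf K2_ok TE_l6010 _))
              (CovZ.n1 (1960, 28200) (by decide +kernel)
               (CovZ.n2 (1920, 28200) (by decide +kernel)
                (CovZ.leaf K2_ok TE_l6011 _)
                (CovZ.leaf K2_ok TE_l6012 _))
               (CovZ.n1 (1960, 28240) (by decide +kernel)
                (CovZ.leaf K2_ok TE_l6013 _)
                (CovZ.leaf K2_ok TE_l6014 _))))
             (CovZ.n1 (2000, 28320) (by decide +kernel)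
              (CovZ.n2 (2040, 28280) (by decide +kernel)
               (CovZ.leaf K2_ok TE_l6015 _)
               (CovZ.leaf K2_ok TE_l6016 _))
              (CovZ.n1 (1960, 28280) (by decide +kernel)
               (CovZ.leaf K2_ok TE_l6017 _)
               (CovZ.leaf K2_ok TE_l6018 _))))))
          (CovZ.n1 (2080, 28480) (by decide +kernel)
           (CovZ.n2 (2160, 28400) (by decide +kernel)
            (CovZ.n2 (2080, 28400) (by decide +kernel)
             (CovZ.n2 (2120, 28440) (by decide +kernel)
              (CovZ.leaf K2_ok TE_l6019 _)
              (CovZ.leaf K2_ok TE_l6020 _))
             (CovZ.n1 (2120, 28360) (by decide +kernel)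
              (CovZ.leaf K2_ok TE_l6021 _)
              (CovZ.leaf K2_ok TE_l6022 _)))
            (CovZ.n1 (2160, 28480) (by decide +kernel)
             (CovZ.leaf K2_ok TE_l6023 _)
             (CovZ.n1 (2120, 28440) (by decide +kernel)
              (CovZ.leaf K2_ok TE_l6024 _)
              (CovZ.leaf K2_ok TE_l6025 _))))
           (CovZ.n1 (2000, 28400) (by decide +kernel)
            (CovZ.n2 (2000, 28480) (by decide +kernel)
             (CovZ.leaf K2_ok TE_l6026 _)
             (CovZ.n1 (1960, 28440) (by decide +kernel)
              (CovZ.leaf K2_ok TE_l6027 _)
              (CovZ.leaf K2_ok TE_l6028 _)))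
            (CovZ.n1 (2080, 28400) (by decide +kernel)
             (CovZ.n2 (2040, 28360) (by decide +kernel)
              (CovZ.leaf K2_ok TE_l6029 _)
              (CovZ.leaf K2_ok TE_l6030 _))
             (CovZ.leaf K2_ok TE_l6031 _)))))))

theorem TE_u125 : CovZ TE_M (toL (selN TE_LN 23491538020451331505232285491076838193574585194570473231360198)) [0, 7, 6, 1] (2560, 30720) (1280, 29440) (2560, 28160) :=
    (CovZ.n2 (2560, 29440) (by decide +kernel)
     (CovZ.n2 (1920, 28800) (by decide +kernel)
      (CovZ.n2 (1920, 29440) (by decide +kernel)
       (CovZ.n2 (2240, 29120) (by decide +kernel)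
        (CovZ.n2 (1920, 29120) (by decide +kernel)
         (CovZ.n2 (2080, 29280) (by decide +kernel)
          (CovZ.n2 (2080, 29120) (by decide +kernel)
           (CovZ.n2 (2000, 29200) (by decide +kernel)
            (CovZ.leaf K2_ok TE_l5122 _)
            (CovZ.leaf K2_ok TE_l5123 _))
           (CovZ.n1 (2160, 29200) (by decide +kernel)
            (CovZ.leaf K2_ok TE_l5124 _)
            (CovZ.leaf K2_ok TE_l5125 _)))
          (CovZ.n1 (1920, 29280) (by decide +kernel)
           (CovZ.n2 (2000, 29360) (by decide +kernel)
            (CovZ.leaf K2_ok TE_l5126 _)
            (CovZ.leaf K2_ok TE_l5127 _))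
           (CovZ.n1 (2000, 29200) (by decide +kernel)
            (CovZ.leaf K2_ok TE_l5128 _)
            (CovZ.leaf K2_ok TE_l5129 _))))
         (CovZ.n1 (2080, 28960) (by decide +kernel)
          (CovZ.n2 (1920, 28960) (by decide +kernel)
           (CovZ.n2 (2000, 29040) (by decide +kernel)
            (CovZ.leaf K2_ok TE_l5130 _)
            (CovZ.leaf K2_ok TE_l5131 _))
           (CovZ.n1 (2000, 28880) (by decide +kernel)
            (CovZ.leaf K2_ok TE_l5132 _)
            (CovZ.leaf K2_ok TE_l5133 _)))
          (CovZ.n1 (2080, 29120) (by decide +kernel)
           (CovZ.n2 (2160, 29040) (by decide +kernel)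
            (CovZ.n2 (2080, 29040) (by decide +kernel)
             (CovZ.leaf K2_ok TE_l5134 _)
             (CovZ.leaf K2_ok TE_l5135 _))
            (CovZ.n1 (2160, 29120) (by decide +kernel)
             (CovZ.leaf K2_ok TE_l5136 _)
             (CovZ.leaf K2_ok TE_l5137 _)))
           (CovZ.n1 (2000, 29040) (by decide +kernel)
            (CovZ.leaf K2_ok TE_l5138 _)
            (CovZ.leaf K2_ok TE_l5139 _)))))
        (CovZ.n1 (2240, 29440) (by decide +kernel)
         (CovZ.n2 (2400, 29280) (by decide +kernel)
          (CovZ.subM 10634266649504541144348266533750871547126483058203780890755138 (by decide +kernel)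
           (CovZ.n2 (2240, 29280) (by decide +kernel)
            (CovZ.n2 (2320, 29360) (by decide +kernel)
             (CovZ.n2 (2320, 29280) (by decide +kernel)
              (CovZ.leaf K2_ok TE_l5140 _)
              (CovZ.n1 (2360, 29320) (by decide +kernel)
               (CovZ.leaf K2_ok TE_l5141 _)
               (CovZ.leaf K2_ok TE_l5142 _)))
             (CovZ.n1 (2240, 29360) (by decide +kernel)
              (CovZ.leaf K2_ok TE_l5143 _)
              (CovZ.leaf K2_ok TE_l5144 _)))
            (CovZ.n1 (2320, 29200) (by decide +kernel)
             (CovZ.n2 (2240, 29200) (by decide +kernel)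
              (CovZ.leaf K2_ok TE_l5145 _)
              (CovZ.leaf K2_ok TE_l5146 _))
             (CovZ.n1 (2320, 29280) (by decide +kernel)
              (CovZ.leaf K2_ok TE_l5147 _)
              (CovZ.leaf K2_ok TE_l5148 _)))))
          (CovZ.subM 4205729834762617924741646677138678407955698731225140921630786 (by decide +kernel)
           (CovZ.n1 (2400, 29440) (by decide +kernel)
            (CovZ.n2 (2480, 29360) (by decide +kernel)
             (CovZ.n2 (2400, 29360) (by decide +kernel)
              (CovZ.n2 (2440, 29400) (by decide +kernel)
               (CovZ.leaf K2_ok TE_l5149 _)
               (CovZ.leaf K2_ok TE_l5150 _))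
              (CovZ.leaf K2_ok TE_l5151 _))
             (CovZ.n1 (2480, 29440) (by decide +kernel)
              (CovZ.leaf K2_ok TE_l5152 _)
              (CovZ.n1 (2440, 29400) (by decide +kernel)
               (CovZ.leaf K2_ok TE_l5153 _)
               (CovZ.leaf K2_ok TE_l5154 _))))
            (CovZ.n1 (2320, 29360) (by decide +kernel)
             (CovZ.n2 (2320, 29440) (by decide +kernel)
              (CovZ.leaf K2_ok TE_l5155 _)
              (CovZ.leaf K2_ok TE_l5156 _))
             (CovZ.n1 (2400, 29360) (by decide +kernel)
              (CovZ.leaf K2_ok TE_l5157 _)
              (CovZ.leaf K2_ok TE_l5158 _))))))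
         (CovZ.n1 (2080, 29280) (by decide +kernel)
          (CovZ.subM 10621713978529308648687669935241163783868302362797366279405634 (by decide +kernel)
           (CovZ.n2 (2080, 29440) (by decide +kernel)
            (CovZ.n2 (2160, 29360) (by decide +kernel)
             (CovZ.leaf K2_ok TE_l5159 _)
             (CovZ.leaf K2_ok TE_l5160 _))
            (CovZ.n1 (2000, 29360) (by decide +kernel)
             (CovZ.leaf K2_ok TE_l5161 _)
             (CovZ.leaf K2_ok TE_l5162 _))))
          (CovZ.subM 10621713978529308648709453313251483364603461966053975005331522 (by decide +kernel)
           (CovZ.n1 (2240, 29280) (by decide +kernel)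
            (CovZ.n2 (2160, 29200) (by decide +kernel)
             (CovZ.leaf K2_ok TE_l5163 _)
             (CovZ.n1 (2240, 29200) (by decide +kernel)
              (CovZ.leaf K2_ok TE_l5164 _)
              (CovZ.leaf K2_ok TE_l5165 _)))
            (CovZ.n1 (2160, 29360) (by decide +kernel)
             (CovZ.leaf K2_ok TE_l5166 _)
             (CovZ.leaf K2_ok TE_l5167 _)))))))
       (CovZ.n1 (1600, 29120) (by decide +kernel)
        (CovZ.n2 (1600, 29440) (by decide +kernel)
         (CovZ.n2 (1760, 29280) (by decide +kernel)
          (CovZ.n2 (1600, 29280) (by decide +kernel)
           (CovZ.n2 (1680, 29360) (by decide +kernel)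
            (CovZ.leaf K2_ok TE_l5168 _)
            (CovZ.leaf K2_ok TE_l5169 _))
           (CovZ.leaf K2_ok TE_l5170 _))
          (CovZ.n1 (1760, 29440) (by decide +kernel)
           (CovZ.leaf K2_ok TE_l5171 _)
           (CovZ.leaf K2_ok TE_l5172 _)))
         (CovZ.subM 19459082451261513564141968891668995062386577024609786131382338 (by decide +kernel)
          (CovZ.n1 (1440, 29280) (by decide +kernel)
           (CovZ.n2 (1440, 29440) (by decide +kernel)
            (CovZ.leaf K2_ok TE_l5173 _)
            (CovZ.leaf K2_ok TE_l5174 _))
           (CovZ.n1 (1600, 29280) (by decide +kernel)
            (CovZ.n2 (1520, 29200) (by decide +kernel)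
             (CovZ.leaf K2_ok TE_l5175 _)
             (CovZ.leaf K2_ok TE_l5176 _))
            (CovZ.leaf K2_ok TE_l5177 _)))))
        (CovZ.n1 (1920, 29120) (by decide +kernel)
         (CovZ.n2 (1760, 28960) (by decide +kernel)
          (CovZ.n2 (1760, 29120) (by decide +kernel)
           (CovZ.leaf K2_ok TE_l5178 _)
           (CovZ.n1 (1680, 29040) (by decide +kernel)
            (CovZ.leaf K2_ok TE_l5179 _)
            (CovZ.leaf K2_ok TE_l5180 _)))
          (CovZ.n1 (1920, 28960) (by decide +kernel)
           (CovZ.n2 (1840, 28880) (by decide +kernel)
            (CovZ.leaf K2_ok TE_l5181 _)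
            (CovZ.leaf K2_ok TE_l5182 _))
           (CovZ.leaf K2_ok TE_l5183 _)))
         (CovZ.n1 (1760, 29280) (by decide +kernel)
          (CovZ.n2 (1920, 29280) (by decide +kernel)
           (CovZ.n2 (1840, 29200) (by decide +kernel)
            (CovZ.leaf K2_ok TE_l5184 _)
            (CovZ.leaf K2_ok TE_l5185 _))
           (CovZ.leaf K2_ok TE_l5186 _))
          (CovZ.n1 (1760, 29120) (by decide +kernel)
           (CovZ.leaf K2_ok TE_l5187 _)
           (CovZ.n1 (1840, 29200) (by decide +kernel)
            (CovZ.leaf K2_ok TE_l5188 _)
            (CovZ.leaf K2_ok TE_l5189 _)))))))
      (CovZ.n1 (2560, 28800) (by decide +kernel)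
       TE_u115
       TE_u116))
     (CovZ.n1 (1920, 30080) (by decide +kernel)
      TE_u117
      TE_u118))

theorem TE_u126 : CovZ TE_M (toL (selN TE_LN 23491538020451331505232285491076838193574585194570473231360198)) [0, 7, 6, 1] (1280, 29440) (0, 28160) (2560, 28160) :=
    (CovZ.n1 (1280, 28160) (by decide +kernel)
     (CovZ.n2 (640, 28800) (by decide +kernel)
      TE_u119
      TE_u120)
     (CovZ.n1 (1920, 28800) (by decide +kernel)
      (CovZ.n2 (1920, 28160) (by decide +kernel)
       TE_u123
       TE_u124)
      (CovZ.n1 (1280, 28800) (by decide +kernel)
       (CovZ.n2 (1600, 29120) (by decide +kernel)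
        (CovZ.n2 (1600, 28800) (by decide +kernel)
         (CovZ.subM 19459082451355232356635836979085388508953268822923725399654402 (by decide +kernel)
          (CovZ.n2 (1440, 28960) (by decide +kernel)
           (CovZ.n2 (1600, 28960) (by decide +kernel)
            (CovZ.n2 (1520, 28880) (by decide +kernel)
             (CovZ.leaf K2_ok TE_l6032 _)
             (CovZ.leaf K2_ok TE_l6033 _))
            (CovZ.leaf K2_ok TE_l6034 _))
           (CovZ.n1 (1440, 28800) (by decide +kernel)
            (CovZ.leaf K2_ok TE_l6035 _)
            (CovZ.n1 (1520, 28880) (by decide +kernel)
             (CovZ.leaf K2_ok TE_l6036 _)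
             (CovZ.leaf K2_ok TE_l6037 _)))))
         (CovZ.n1 (1760, 28960) (by decide +kernel)
          (CovZ.n2 (1760, 28800) (by decide +kernel)
           (CovZ.leaf K2_ok TE_l6038 _)
           (CovZ.n1 (1840, 28880) (by decide +kernel)
            (CovZ.leaf K2_ok TE_l6039 _)
            (CovZ.leaf K2_ok TE_l6040 _)))
          (CovZ.n1 (1600, 28960) (by decide +kernel)
           (CovZ.n2 (1680, 29040) (by decide +kernel)
            (CovZ.leaf K2_ok TE_l6041 _)
            (CovZ.leaf K2_ok TE_l6042 _))
           (CovZ.leaf K2_ok TE_l6043 _))))
        (CovZ.n1 (1280, 29120) (by decide +kernel)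
         (CovZ.subM 19459082451261696251846656523479777296278339928032831690768386 (by decide +kernel)
          (CovZ.n2 (1440, 29280) (by decide +kernel)
           (CovZ.n2 (1440, 29120) (by decide +kernel)
            (CovZ.leaf K2_ok TE_l6044 _)
            (CovZ.leaf K2_ok TE_l6045 _))
           (CovZ.n1 (1280, 29280) (by decide +kernel)
            (CovZ.leaf K2_ok TE_l6046 _)
            (CovZ.leaf K2_ok TE_l6047 _))))
         (CovZ.subM 19459082451355232356635836979085388508953268822923725399654402 (by decide +kernel)
          (CovZ.n1 (1440, 28960) (by decide +kernel)
           (CovZ.n2 (1280, 28960) (by decide +kernel)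
            (CovZ.leaf K2_ok TE_l6048 _)
            (CovZ.leaf K2_ok TE_l6049 _))
           (CovZ.n1 (1440, 29120) (by decide +kernel)
            (CovZ.leaf K2_ok TE_l6050 _)
            (CovZ.n1 (1360, 29040) (by decide +kernel)
             (CovZ.leaf K2_ok TE_l6051 _)
             (CovZ.leaf K2_ok TE_l6052 _)))))))
       (CovZ.n1 (1600, 28480) (by decide +kernel)
        (CovZ.subM 19410434121775899995489084120581214309341054387123521325105154 (by decide +kernel)
         (CovZ.n2 (1280, 28480) (by decide +kernel)
          (CovZ.n2 (1440, 28640) (by decide +kernel)
           (CovZ.n2 (1440, 28480) (by decide +kernel)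
            (CovZ.n2 (1360, 28560) (by decide +kernel)
             (CovZ.leaf K2_ok TE_l6053 _)
             (CovZ.n1 (1360, 28480) (by decide +kernel)
              (CovZ.leaf K2_ok TE_l6054 _)
              (CovZ.leaf K2_ok TE_l6055 _)))
            (CovZ.n1 (1520, 28560) (by decide +kernel)
             (CovZ.n2 (1520, 28480) (by decide +kernel)
              (CovZ.leaf K2_ok TE_l6056 _)
              (CovZ.leaf K2_ok TE_l6057 _))
             (CovZ.leaf K2_ok TE_l6058 _)))
           (CovZ.n1 (1280, 28640) (by decide +kernel)
            (CovZ.n2 (1360, 28720) (by decide +kernel)
             (CovZ.leaf K2_ok TE_l6059 _)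
             (CovZ.leaf K2_ok TE_l6060 _))
            (CovZ.n1 (1360, 28560) (by decide +kernel)
             (CovZ.leaf K2_ok TE_l6061 _)
             (CovZ.leaf K2_ok TE_l6062 _))))
          (CovZ.n1 (1440, 28320) (by decide +kernel)
           (CovZ.n2 (1280, 28320) (by decide +kernel)
            (CovZ.n2 (1360, 28400) (by decide +kernel)
             (CovZ.n2 (1360, 28320) (by decide +kernel)
              (CovZ.leaf K2_ok TE_l6063 _)
              (CovZ.leaf K2_ok TE_l6064 _))
             (CovZ.n1 (1280, 28400) (by decide +kernel)
              (CovZ.leaf K2_ok TE_l6065 _)
              (CovZ.leaf K2_ok TE_l6066 _)))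
            (CovZ.n1 (1360, 28240) (by decide +kernel)
             (CovZ.n2 (1280, 28240) (by decide +kernel)
              (CovZ.n2 (1320, 28280) (by decide +kernel)
               (CovZ.leaf K2_ok TE_l6067 _)
               (CovZ.leaf K2_ok TE_l6068 _))
              (CovZ.leaf K2_ok TE_l6069 _))
             (CovZ.n1 (1360, 28320) (by decide +kernel)
              (CovZ.leaf K2_ok TE_l6070 _)
              (CovZ.n1 (1320, 28280) (by decide +kernel)
               (CovZ.leaf K2_ok TE_l6071 _)
               (CovZ.leaf K2_ok TE_l6072 _)))))
           (CovZ.n1 (1440, 28480) (by decide +kernel)
            (CovZ.n2 (1520, 28400) (by decide +kernel)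
             (CovZ.n2 (1440, 28400) (by decide +kernel)
              (CovZ.leaf K2_ok TE_l6073 _)
              (CovZ.leaf K2_ok TE_l6074 _))
             (CovZ.n1 (1520, 28480) (by decide +kernel)
              (CovZ.leaf K2_ok TE_l6075 _)
              (CovZ.leaf K2_ok TE_l6076 _)))
            (CovZ.n1 (1360, 28400) (by decide +kernel)
             (CovZ.n2 (1360, 28480) (by decide +kernel)
              (CovZ.leaf K2_ok TE_l6077 _)
              (CovZ.leaf K2_ok TE_l6078 _))
             (CovZ.n1 (1440, 28400) (by decide +kernel)
              (CovZ.n2 (1400, 28360) (by decide +kernel)
               (CovZ.leaf K2_ok TE_l6079 _)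
               (CovZ.leaf K2_ok TE_l6080 _))
              (CovZ.leaf K2_ok TE_l6081 _)))))))
        (CovZ.n1 (1600, 28800) (by decide +kernel)
         (CovZ.n2 (1760, 28640) (by decide +kernel)
          (CovZ.subM 20262551448697682561237789136338382651845283833241544085733442 (by decide +kernel)
           (CovZ.n2 (1600, 28640) (by decide +kernel)
            (CovZ.n2 (1680, 28720) (by decide +kernel)
             (CovZ.leaf K2_ok TE_l6082 _)
             (CovZ.leaf K2_ok TE_l6083 _))
            (CovZ.n1 (1680, 28560) (by decide +kernel)
             (CovZ.n2 (1600, 28560) (by decide +kernel)
              (CovZ.leaf K2_ok TE_l6084 _)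
              (CovZ.leaf K2_ok TE_l6085 _))
             (CovZ.n1 (1680, 28640) (by decide +kernel)
              (CovZ.leaf K2_ok TE_l6086 _)
              (CovZ.leaf K2_ok TE_l6087 _)))))
          (CovZ.subM 20262551449445948563588105538224644010055392549146044303147074 (by decide +kernel)
           (CovZ.n1 (1760, 28800) (by decide +kernel)
            (CovZ.n2 (1840, 28720) (by decide +kernel)
             (CovZ.leaf K2_ok TE_l6088 _)
             (CovZ.leaf K2_ok TE_l6089 _))
            (CovZ.n1 (1680, 28720) (by decide +kernel)
             (CovZ.leaf K2_ok TE_l6090 _)
             (CovZ.leaf K2_ok TE_l6091 _)))))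
         (CovZ.subM 19459082426661723517105613298436713043240049541184266333847554 (by decide +kernel)
          (CovZ.n1 (1440, 28640) (by decide +kernel)
           (CovZ.n2 (1440, 28800) (by decide +kernel)
            (CovZ.n2 (1520, 28720) (by decide +kernel)
             (CovZ.leaf K2_ok TE_l6092 _)
             (CovZ.leaf K2_ok TE_l6093 _))
            (CovZ.n1 (1360, 28720) (by decide +kernel)
             (CovZ.leaf K2_ok TE_l6094 _)
             (CovZ.leaf K2_ok TE_l6095 _)))
           (CovZ.n1 (1600, 28640) (by decide +kernel)
            (CovZ.n2 (1520, 28560) (by decide +kernel)
             (CovZ.leaf K2_ok TE_l6096 _)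
             (CovZ.leaf K2_ok TE_l6097 _))
            (CovZ.n1 (1520, 28720) (by decide +kernel)
             (CovZ.leaf K2_ok TE_l6098 _)
             (CovZ.leaf K2_ok TE_l6099 _))))))))))

theorem TE_u127 : CovZ TE_M (toL (selN TE_LN 23491538018942696348061957774290781996880847323901004005507142)) [0, 7, 6, 1] (0, 28160) (1280, 29440) (0, 30720) :=
    (CovZ.n2 (0, 29440) (by decide +kernel)
     (CovZ.n2 (640, 30080) (by decide +kernel)
      (CovZ.n2 (640, 29440) (by decide +kernel)
       (CovZ.n2 (320, 29760) (by decide +kernel)
        (CovZ.n2 (640, 29760) (by decide +kernel)
         (CovZ.n2 (480, 29600) (by decide +kernel)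
          (CovZ.leaf K2_ok TE_l6100 _)
          (CovZ.leaf K2_ok TE_l6101 _))
         (CovZ.leaf K2_ok TE_l6102 _))
        (CovZ.subM 19410385105865361284084578429698246336878009890041609620291590 (by decide +kernel)
         (CovZ.n1 (320, 29440) (by decide +kernel)
          (CovZ.n2 (160, 29600) (by decide +kernel)
           (CovZ.leaf K2_ok TE_l6103 _)
           (CovZ.leaf K2_ok TE_l6104 _))
          (CovZ.n1 (480, 29600) (by decide +kernel)
           (CovZ.leaf K2_ok TE_l6105 _)
           (CovZ.leaf K2_ok TE_l6106 _)))))
       (CovZ.n1 (960, 29760) (by decide +kernel)
        (CovZ.n2 (960, 29440) (by decide +kernel)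
         (CovZ.n2 (800, 29600) (by decide +kernel)
          (CovZ.leaf K2_ok TE_l6107 _)
          (CovZ.leaf K2_ok TE_l6108 _))
         (CovZ.n1 (1120, 29600) (by decide +kernel)
          (CovZ.leaf K2_ok TE_l6109 _)
          (CovZ.leaf K2_ok TE_l6110 _)))
        (CovZ.n1 (640, 29760) (by decide +kernel)
         (CovZ.n2 (800, 29920) (by decide +kernel)
          (CovZ.leaf K2_ok TE_l6111 _)
          (CovZ.leaf K2_ok TE_l6112 _))
         (CovZ.n1 (800, 29600) (by decide +kernel)
          (CovZ.leaf K2_ok TE_l6113 _)
          (CovZ.leaf K2_ok TE_l6114 _)))))
      (CovZ.subM 19460602686930855081116471498271102054625709276721980167421958 (by decide +kernel)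
       (CovZ.n1 (0, 30080) (by decide +kernel)
        (CovZ.n2 (320, 30400) (by decide +kernel)
         (CovZ.n2 (320, 30080) (by decide +kernel)
          (CovZ.leaf K2_ok TE_l6115 _)
          (CovZ.n1 (480, 30240) (by decide +kernel)
           (CovZ.leaf K2_ok TE_l6116 _)
           (CovZ.leaf K2_ok TE_l6117 _)))
         (CovZ.n1 (0, 30400) (by decide +kernel)
          (CovZ.leaf K2_ok TE_l6118 _)
          (CovZ.leaf K2_ok TE_l6119 _)))
        (CovZ.n1 (320, 29760) (by decide +kernel)
         (CovZ.n2 (0, 29760) (by decide +kernel)
          (CovZ.n2 (160, 29920) (by decide +kernel)
           (CovZ.leaf K2_ok TE_l6120 _)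
           (CovZ.leaf K2_ok TE_l6121 _))
          (CovZ.leaf K2_ok TE_l6122 _))
         (CovZ.n1 (320, 30080) (by decide +kernel)
          (CovZ.leaf K2_ok TE_l6123 _)
          (CovZ.n1 (160, 29920) (by decide +kernel)
           (CovZ.leaf K2_ok TE_l6124 _)
           (CovZ.leaf K2_ok TE_l6125 _)))))))
     (CovZ.n1 (640, 28800) (by decide +kernel)
      (CovZ.subM 19308382178718535796656444770577826238675496363561238659072006 (by decide +kernel)
       (CovZ.n2 (0, 28800) (by decide +kernel)
        (CovZ.n2 (320, 29120) (by decide +kernel)
         (CovZ.n2 (320, 28800) (by decide +kernel)
          (CovZ.n2 (160, 28960) (by decide +kernel)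
           (CovZ.n2 (320, 28960) (by decide +kernel)
            (CovZ.leaf K2_ok TE_l6126 _)
            (CovZ.leaf K2_ok TE_l6127 _))
           (CovZ.n1 (160, 28800) (by decide +kernel)
            (CovZ.leaf K2_ok TE_l6128 _)
            (CovZ.leaf K2_ok TE_l6129 _)))
          (CovZ.n1 (480, 28960) (by decide +kernel)
           (CovZ.n2 (480, 28800) (by decide +kernel)
            (CovZ.leaf K2_ok TE_l6130 _)
            (CovZ.leaf K2_ok TE_l6131 _))
           (CovZ.n1 (320, 28960) (by decide +kernel)
            (CovZ.leaf K2_ok TE_l6132 _)
            (CovZ.leaf K2_ok TE_l6133 _))))
         (CovZ.n1 (0, 29120) (by decide +kernel)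
          (CovZ.n2 (160, 29280) (by decide +kernel)
           (CovZ.leaf K2_ok TE_l6134 _)
           (CovZ.leaf K2_ok TE_l6135 _))
          (CovZ.n1 (160, 28960) (by decide +kernel)
           (CovZ.n2 (0, 28960) (by decide +kernel)
            (CovZ.leaf K2_ok TE_l6136 _)
            (CovZ.leaf K2_ok TE_l6137 _))
           (CovZ.leaf K2_ok TE_l6138 _))))
        (CovZ.n1 (320, 28480) (by decide +kernel)
         (CovZ.n2 (0, 28480) (by decide +kernel)
          (CovZ.subM 25122582526031085466092816735006849984480722518753006321668 (by decide +kernel)
           (CovZ.n2 (160, 28640) (by decide +kernel)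
            (CovZ.n2 (160, 28480) (by decide +kernel)
             (CovZ.leaf K2_ok TE_l6139 _)
             (CovZ.n1 (240, 28560) (by decide +kernel)
              (CovZ.leaf K2_ok TE_l6140 _)
              (CovZ.leaf K2_ok TE_l6141 _)))
            (CovZ.n1 (0, 28640) (by decide +kernel)
             (CovZ.leaf K2_ok TE_l6142 _)
             (CovZ.leaf K2_ok TE_l6143 _))))
          (CovZ.subM 25122199402148545083302061207620763762737644793166483685380 (by decide +kernel)
           (CovZ.n1 (160, 28320) (by decide +kernel)
            (CovZ.n2 (0, 28320) (by decide +kernel)
             (CovZ.n2 (80, 28400) (by decide +kernel)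
              (CovZ.leaf K2_ok TE_l6144 _)
              (CovZ.leaf K2_ok TE_l6145 _))
             (CovZ.n1 (80, 28240) (by decide +kernel)
              (CovZ.leaf K2_ok TE_l6146 _)
              (CovZ.leaf K2_ok TE_l6147 _)))
            (CovZ.n1 (160, 28480) (by decide +kernel)
             (CovZ.leaf K2_ok TE_l6148 _)
             (CovZ.n1 (80, 28400) (by decide +kernel)
              (CovZ.leaf K2_ok TE_l6149 _)
              (CovZ.leaf K2_ok TE_l6150 _))))))
         (CovZ.n1 (320, 28800) (by decide +kernel)
          (CovZ.n2 (480, 28640) (by decide +kernel)
           (CovZ.n2 (320, 28640) (by decide +kernel)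
            (CovZ.n2 (400, 28720) (by decide +kernel)
             (CovZ.leaf K2_ok TE_l6151 _)
             (CovZ.leaf K2_ok TE_l6152 _))
            (CovZ.leaf K2_ok TE_l6153 _))
           (CovZ.n1 (480, 28800) (by decide +kernel)
            (CovZ.leaf K2_ok TE_l6154 _)
            (CovZ.n1 (400, 28720) (by decide +kernel)
             (CovZ.leaf K2_ok TE_l6155 _)
             (CovZ.leaf K2_ok TE_l6156 _))))
          (CovZ.n1 (160, 28640) (by decide +kernel)
           (CovZ.n2 (160, 28800) (by decide +kernel)
            (CovZ.leaf K2_ok TE_l6157 _)
            (CovZ.leaf K2_ok TE_l6158 _))
           (CovZ.n1 (320, 28640) (by decide +kernel)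
            (CovZ.n2 (240, 28560) (by decide +kernel)
             (CovZ.leaf K2_ok TE_l6159 _)
             (CovZ.leaf K2_ok TE_l6160 _))
            (CovZ.leaf K2_ok TE_l6161 _)))))))
      (CovZ.n1 (640, 29440) (by decide +kernel)
       (CovZ.n2 (960, 29120) (by decide +kernel)
        (CovZ.subM 19410385105865385012077472324737260810199007616857441268924418 (by decide +kernel)
         (CovZ.n2 (640, 29120) (by decide +kernel)
          (CovZ.n2 (800, 29280) (by decide +kernel)
           (CovZ.n2 (800, 29120) (by decide +kernel)
            (CovZ.leaf K2_ok TE_l6162 _)
            (CovZ.leaf K2_ok TE_l6163 _))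
           (CovZ.n1 (640, 29280) (by decide +kernel)
            (CovZ.leaf K2_ok TE_l6164 _)
            (CovZ.leaf K2_ok TE_l6165 _)))
          (CovZ.n1 (800, 28960) (by decide +kernel)
           (CovZ.n2 (640, 28960) (by decide +kernel)
            (CovZ.leaf K2_ok TE_l6166 _)
            (CovZ.leaf K2_ok TE_l6167 _))
           (CovZ.n1 (800, 29120) (by decide +kernel)
            (CovZ.leaf K2_ok TE_l6168 _)
            (CovZ.leaf K2_ok TE_l6169 _)))))
        (CovZ.n1 (960, 29440) (by decide +kernel)
         (CovZ.n2 (1120, 29280) (by decide +kernel)
          (CovZ.n2 (960, 29280) (by decide +kernel)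
           (CovZ.leaf K2_ok TE_l6170 _)
           (CovZ.leaf K2_ok TE_l6171 _))
          (CovZ.leaf K2_ok TE_l6172 _))
         (CovZ.n1 (800, 29280) (by decide +kernel)
          (CovZ.leaf K2_ok TE_l6173 _)
          (CovZ.leaf K2_ok TE_l6174 _))))
       (CovZ.subM 19410385105865385012077472324737260810199007616857441268924422 (by decide +kernel)
        (CovZ.n1 (320, 29120) (by decide +kernel)
         (CovZ.n2 (320, 29440) (by decide +kernel)
          (CovZ.n2 (480, 29280) (by decide +kernel)
           (CovZ.leaf K2_ok TE_l6175 _)
           (CovZ.leaf K2_ok TE_l6176 _))
          (CovZ.n1 (160, 29280) (by decide +kernel)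
           (CovZ.leaf K2_ok TE_l6177 _)
           (CovZ.leaf K2_ok TE_l6178 _)))
         (CovZ.n1 (640, 29120) (by decide +kernel)
          (CovZ.n2 (480, 28960) (by decide +kernel)
           (CovZ.n2 (480, 29120) (by decide +kernel)
            (CovZ.leaf K2_ok TE_l6179 _)
            (CovZ.leaf K2_ok TE_l6180 _))
           (CovZ.n1 (640, 28960) (by decide +kernel)
            (CovZ.n2 (560, 28880) (by decide +kernel)
             (CovZ.leaf K2_ok TE_l6181 _)
             (CovZ.leaf K2_ok TE_l6182 _))
            (CovZ.leaf K2_ok TE_l6183 _)))
          (CovZ.n1 (480, 29280) (by decide +kernel)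
           (CovZ.leaf K2_ok TE_l6184 _)
           (CovZ.leaf K2_ok TE_l6185 _))))))))

theorem TE_u128 : CovZ TE_M (toL (selN TE_LN 23491538018942696348061957774290781996880847323901004005507142)) [0, 7, 6, 1] (1280, 29440) (2560, 30720) (0, 30720) :=
    (CovZ.n1 (1280, 30720) (by decide +kernel)
     (CovZ.n2 (1920, 30080) (by decide +kernel)
      (CovZ.n2 (1280, 30080) (by decide +kernel)
       (CovZ.n2 (1600, 30400) (by decide +kernel)
        (CovZ.n2 (1600, 30080) (by decide +kernel)
         (CovZ.n2 (1440, 30240) (by decide +kernel)
          (CovZ.leaf K2_ok TE_l6186 _)
          (CovZ.leaf K2_ok TE_l6187 _))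
         (CovZ.n1 (1760, 30240) (by decide +kernel)
          (CovZ.n2 (1760, 30080) (by decide +kernel)
           (CovZ.leaf K2_ok TE_l6188 _)
           (CovZ.leaf K2_ok TE_l6189 _))
          (CovZ.n1 (1600, 30240) (by decide +kernel)
           (CovZ.leaf K2_ok TE_l6190 _)
           (CovZ.leaf K2_ok TE_l6191 _))))
        (CovZ.n1 (1280, 30400) (by decide +kernel)
         (CovZ.n2 (1440, 30560) (by decide +kernel)
          (CovZ.leaf K2_ok TE_l6192 _)
          (CovZ.leaf K2_ok TE_l6193 _))
         (CovZ.n1 (1440, 30240) (by decide +kernel)
          (CovZ.leaf K2_ok TE_l6194 _)
          (CovZ.leaf K2_ok TE_l6195 _))))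
       (CovZ.n1 (1600, 29760) (by decide +kernel)
        (CovZ.n2 (1280, 29760) (by decide +kernel)
         (CovZ.n2 (1440, 29920) (by decide +kernel)
          (CovZ.leaf K2_ok TE_l6196 _)
          (CovZ.leaf K2_ok TE_l6197 _))
         (CovZ.n1 (1440, 29600) (by decide +kernel)
          (CovZ.leaf K2_ok TE_l6198 _)
          (CovZ.leaf K2_ok TE_l6199 _)))
        (CovZ.n1 (1600, 30080) (by decide +kernel)
         (CovZ.n2 (1760, 29920) (by decide +kernel)
          (CovZ.n2 (1600, 29920) (by decide +kernel)
           (CovZ.leaf K2_ok TE_l6200 _)
           (CovZ.leaf K2_ok TE_l6201 _))
          (CovZ.n1 (1760, 30080) (by decide +kernel)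
           (CovZ.leaf K2_ok TE_l6202 _)
           (CovZ.leaf K2_ok TE_l6203 _)))
         (CovZ.n1 (1440, 29920) (by decide +kernel)
          (CovZ.leaf K2_ok TE_l6204 _)
          (CovZ.n1 (1600, 29920) (by decide +kernel)
           (CovZ.leaf K2_ok TE_l6205 _)
           (CovZ.leaf K2_ok TE_l6206 _))))))
      (CovZ.n1 (1920, 30720) (by decide +kernel)
       (CovZ.n2 (2240, 30400) (by decide +kernel)
        (CovZ.n2 (1920, 30400) (by decide +kernel)
         (CovZ.subM 4180621403862674771717788662299088139340896139976968002076738 (by decide +kernel)
          (CovZ.n2 (2080, 30560) (by decide +kernel)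
           (CovZ.n2 (2080, 30400) (by decide +kernel)
            (CovZ.leaf K2_ok TE_l6207 _)
            (CovZ.n1 (2160, 30480) (by decide +kernel)
             (CovZ.leaf K2_ok TE_l6208 _)
             (CovZ.leaf K2_ok TE_l6209 _)))
           (CovZ.n1 (1920, 30560) (by decide +kernel)
            (CovZ.leaf K2_ok TE_l6210 _)
            (CovZ.leaf K2_ok TE_l6211 _))))
         (CovZ.n1 (2080, 30240) (by decide +kernel)
          (CovZ.n2 (1920, 30240) (by decide +kernel)
           (CovZ.n2 (2000, 30320) (by decide +kernel)
            (CovZ.leaf K2_ok TE_l6212 _)
            (CovZ.leaf K2_ok TE_l6213 _))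
           (CovZ.leaf K2_ok TE_l6214 _))
          (CovZ.n1 (2080, 30400) (by decide +kernel)
           (CovZ.leaf K2_ok TE_l6215 _)
           (CovZ.leaf K2_ok TE_l6216 _))))
        (CovZ.subM 4180621403675602562139433088769016480753211913461008636575810 (by decide +kernel)
         (CovZ.n1 (2240, 30720) (by decide +kernel)
          (CovZ.n2 (2400, 30560) (by decide +kernel)
           (CovZ.n2 (2240, 30560) (by decide +kernel)
            (CovZ.n2 (2320, 30640) (by decide +kernel)
             (CovZ.leaf K2_ok TE_l6217 _)
             (CovZ.leaf K2_ok TE_l6218 _))
            (CovZ.leaf K2_ok TE_l6219 _))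
           (CovZ.n1 (2400, 30720) (by decide +kernel)
            (CovZ.n2 (2480, 30640) (by decide +kernel)
             (CovZ.leaf K2_ok TE_l6220 _)
             (CovZ.leaf K2_ok TE_l6221 _))
            (CovZ.n1 (2320, 30640) (by decide +kernel)
             (CovZ.leaf K2_ok TE_l6222 _)
             (CovZ.leaf K2_ok TE_l6223 _))))
          (CovZ.n1 (2080, 30560) (by decide +kernel)
           (CovZ.n2 (2080, 30720) (by decide +kernel)
            (CovZ.leaf K2_ok TE_l6224 _)
            (CovZ.leaf K2_ok TE_l6225 _))
           (CovZ.n1 (2240, 30560) (by decide +kernel)
            (CovZ.n2 (2160, 30480) (by decide +kernel)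
             (CovZ.leaf K2_ok TE_l6226 _)
             (CovZ.leaf K2_ok TE_l6227 _))
            (CovZ.leaf K2_ok TE_l6228 _))))))
       (CovZ.n1 (1600, 30400) (by decide +kernel)
        (CovZ.subM 4193177139828989378246986974350864442265827186924777830875202 (by decide +kernel)
         (CovZ.n2 (1600, 30720) (by decide +kernel)
          (CovZ.n2 (1760, 30560) (by decide +kernel)
           (CovZ.leaf K2_ok TE_l6229 _)
           (CovZ.n1 (1760, 30720) (by decide +kernel)
            (CovZ.leaf K2_ok TE_l6230 _)
            (CovZ.leaf K2_ok TE_l6231 _)))
          (CovZ.n1 (1440, 30560) (by decide +kernel)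
           (CovZ.leaf K2_ok TE_l6232 _)
           (CovZ.leaf K2_ok TE_l6233 _))))
        (CovZ.n1 (1920, 30400) (by decide +kernel)
         (CovZ.n2 (1760, 30240) (by decide +kernel)
          (CovZ.n2 (1760, 30400) (by decide +kernel)
           (CovZ.leaf K2_ok TE_l6234 _)
           (CovZ.leaf K2_ok TE_l6235 _))
          (CovZ.n1 (1920, 30240) (by decide +kernel)
           (CovZ.leaf K2_ok TE_l6236 _)
           (CovZ.leaf K2_ok TE_l6237 _)))
         (CovZ.n1 (1760, 30560) (by decide +kernel)
          (CovZ.n2 (1920, 30560) (by decide +kernel)
           (CovZ.leaf K2_ok TE_l6238 _)
           (CovZ.leaf K2_ok TE_l6239 _))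
          (CovZ.n1 (1760, 30400) (by decide +kernel)
           (CovZ.leaf K2_ok TE_l6240 _)
           (CovZ.leaf K2_ok TE_l6241 _)))))))
     (CovZ.n1 (640, 30080) (by decide +kernel)
      (CovZ.subM 9818177499656884959613880356102978001626791244301330284544070 (by decide +kernel)
       (CovZ.n2 (640, 30720) (by decide +kernel)
        (CovZ.n2 (960, 30400) (by decide +kernel)
         (CovZ.n2 (640, 30400) (by decide +kernel)
          (CovZ.n2 (800, 30560) (by decide +kernel)
           (CovZ.leaf K2_ok TE_l6242 _)
           (CovZ.leaf K2_ok TE_l6243 _))
          (CovZ.leaf K2_ok TE_l6244 _))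
         (CovZ.n1 (960, 30720) (by decide +kernel)
          (CovZ.leaf K2_ok TE_l6245 _)
          (CovZ.n1 (800, 30560) (by decide +kernel)
           (CovZ.leaf K2_ok TE_l6246 _)
           (CovZ.leaf K2_ok TE_l6247 _))))
        (CovZ.n1 (320, 30400) (by decide +kernel)
         (CovZ.n2 (320, 30720) (by decide +kernel)
          (CovZ.leaf K2_ok TE_l6248 _)
          (CovZ.leaf K2_ok TE_l6249 _))
         (CovZ.n1 (640, 30400) (by decide +kernel)
          (CovZ.n2 (480, 30240) (by decide +kernel)
           (CovZ.leaf K2_ok TE_l6250 _)
           (CovZ.leaf K2_ok TE_l6251 _))
          (CovZ.leaf K2_ok TE_l6252 _)))))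
      (CovZ.n1 (1280, 30080) (by decide +kernel)
       (CovZ.n2 (960, 29760) (by decide +kernel)
        (CovZ.n2 (960, 30080) (by decide +kernel)
         (CovZ.n2 (1120, 29920) (by decide +kernel)
          (CovZ.leaf K2_ok TE_l6253 _)
          (CovZ.leaf K2_ok TE_l6254 _))
         (CovZ.n1 (800, 29920) (by decide +kernel)
          (CovZ.leaf K2_ok TE_l6255 _)
          (CovZ.leaf K2_ok TE_l6256 _)))
        (CovZ.n1 (1280, 29760) (by decide +kernel)
         (CovZ.n2 (1120, 29600) (by decide +kernel)
          (CovZ.leaf K2_ok TE_l6257 _)
          (CovZ.leaf K2_ok TE_l6258 _))
         (CovZ.n1 (1120, 29920) (by decide +kernel)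
          (CovZ.leaf K2_ok TE_l6259 _)
          (CovZ.leaf K2_ok TE_l6260 _))))
       (CovZ.n1 (960, 30400) (by decide +kernel)
        (CovZ.subM 9818189759620482897643153178516011225107954698502397059137602 (by decide +kernel)
         (CovZ.n2 (1280, 30400) (by decide +kernel)
          (CovZ.n2 (1120, 30240) (by decide +kernel)
           (CovZ.leaf K2_ok TE_l6261 _)
           (CovZ.leaf K2_ok TE_l6262 _))
          (CovZ.n1 (1120, 30560) (by decide +kernel)
           (CovZ.leaf K2_ok TE_l6263 _)
           (CovZ.leaf K2_ok TE_l6264 _))))
        (CovZ.n1 (960, 30080) (by decide +kernel)
         (CovZ.leaf K2_ok TE_l6265 _)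
         (CovZ.n1 (1120, 30240) (by decide +kernel)
          (CovZ.leaf K2_ok TE_l6266 _)
          (CovZ.leaf K2_ok TE_l6267 _)))))))

theorem TE_u129 : CovZ TE_M (toL (selN TE_LN 2219347782691817720279221540744079852822810075520636760895120)) [0, 7, 6, 1] (3520, 28480) (3680, 28320) (3840, 28480) :=
    (CovZ.subM 1610076595126683615923880319359765383961505793442875640393216 (by decide +kernel)
            (CovZ.n2 (3680, 28480) (by decide +kernel)
             (CovZ.n2 (3760, 28400) (by decide +kernel)
              (CovZ.n2 (3680, 28400) (by decide +kernel)
               (CovZ.subM 1610076595126683615923879987052766437694758628449441990838272 (by decide +kernel)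
                (CovZ.n2 (3720, 28440) (by decide +kernel)
                 (CovZ.n2 (3720, 28400) (by decide +kernel)
                  (CovZ.n2 (3700, 28420) (by decide +kernel)
                   (CovZ.leaf K2_ok TE_l8395 _)
                   (CovZ.leaf K2_ok TE_l8396 _))
                  (CovZ.n1 (3740, 28420) (by decide +kernel)
                   (CovZ.leaf K2_ok TE_l8397 _)
                   (CovZ.n1 (3720, 28420) (by decide +kernel)
                    (CovZ.leaf K2_ok TE_l8398 _)
                    (CovZ.leaf K2_ok TE_l8399 _))))
                 (CovZ.n1 (3680, 28440) (by decide +kernel)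
                  (CovZ.subM 3138550867693340381917894711603834416976997336861191964672 (by decide +kernel)
                   (CovZ.n2 (3700, 28460) (by decide +kernel)
                    (CovZ.leaf K2_ok TE_l8400 _)
                    (CovZ.n1 (3680, 28460) (by decide +kernel)
                     (CovZ.n2 (3690, 28470) (by decide +kernel)
                      (CovZ.badM (by decide +kernel))
                      (CovZ.badM (by decide +kernel)))
                     (CovZ.leaf K2_ok TE_l8401 _))))
                  (CovZ.n1 (3700, 28420) (by decide +kernel)
                   (CovZ.leaf K2_ok TE_l8402 _)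
                   (CovZ.leaf K2_ok TE_l8403 _)))))
               (CovZ.n1 (3720, 28360) (by decide +kernel)
                (CovZ.n2 (3680, 28360) (by decide +kernel)
                 (CovZ.n2 (3700, 28380) (by decide +kernel)
                  (CovZ.leaf K2_ok TE_l8404 _)
                  (CovZ.leaf K2_ok TE_l8405 _))
                 (CovZ.leaf K2_ok TE_l8406 _))
                (CovZ.n1 (3720, 28400) (by decide +kernel)
                 (CovZ.leaf K2_ok TE_l8407 _)
                 (CovZ.leaf K2_ok TE_l8408 _))))
              (CovZ.subM 1610076595126683615923879987052766437694758628590179479193600 (by decide +kernel)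
               (CovZ.n1 (3760, 28480) (by decide +kernel)
                (CovZ.n2 (3800, 28440) (by decide +kernel)
                 (CovZ.n2 (3760, 28440) (by decide +kernel)
                  (CovZ.subM 604462909948328027357184 (by decide +kernel)
                   (CovZ.n2 (3780, 28460) (by decide +kernel)
                    (CovZ.n2 (3780, 28440) (by decide +kernel)
                     (CovZ.leaf K2_ok TE_l8409 _)
                     (CovZ.n1 (3790, 28450) (by decide +kernel)
                      (CovZ.leaf K2_ok TE_l8410 _)
                      (CovZ.leaf K2_ok TE_l8411 _)))
                    (CovZ.n1 (3760, 28460) (by decide +kernel)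
                     (CovZ.n2 (3770, 28470) (by decide +kernel)
                      (CovZ.leaf K2_ok TE_l17541 _)
                      (CovZ.n1 (3760, 28470) (by decide +kernel)
                       (CovZ.badM (by decide +kernel))
                       (CovZ.leaf K2_ok TE_l17542 _)))
                     (CovZ.leaf K2_ok TE_l8412 _))))
                  (CovZ.n1 (3780, 28420) (by decide +kernel)
                   (CovZ.n2 (3760, 28420) (by decide +kernel)
                    (CovZ.leaf K2_ok TE_l8413 _)
                    (CovZ.leaf K2_ok TE_l8414 _))
                   (CovZ.leaf K2_ok TE_l8415 _)))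
                 (CovZ.subM 604462909948328027357184 (by decide +kernel)
                  (CovZ.n1 (3800, 28480) (by decide +kernel)
                   (CovZ.n2 (3820, 28460) (by decide +kernel)
                    (CovZ.n2 (3800, 28460) (by decide +kernel)
                     (CovZ.n2 (3810, 28470) (by decide +kernel)
                      (CovZ.leaf K2_ok TE_l17543 _)
                      (CovZ.n1 (3800, 28470) (by decide +kernel)
                       (CovZ.badM (by decide +kernel))
                       (CovZ.leaf K2_ok TE_l17544 _)))
                     (CovZ.leaf K2_ok TE_l8416 _))
                    (CovZ.n1 (3820, 28480) (by decide +kernel)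
                     (CovZ.n2 (3830, 28470) (by decide +kernel)
                      (CovZ.n2 (3820, 28470) (by decide +kernel)
                       (CovZ.badM (by decide +kernel))
                       (CovZ.leaf K2_ok TE_l17545 _))
                      (CovZ.badM (by decide +kernel)))
                     (CovZ.n1 (3810, 28470) (by decide +kernel)
                      (CovZ.badM (by decide +kernel))
                      (CovZ.leaf K2_ok TE_l17546 _))))
                   (CovZ.n1 (3780, 28460) (by decide +kernel)
                    (CovZ.n2 (3780, 28480) (by decide +kernel)
                     (CovZ.n2 (3790, 28470) (by decide +kernel)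
                      (CovZ.n2 (3780, 28470) (by decide +kernel)
                       (CovZ.badM (by decide +kernel))
                       (CovZ.leaf K2_ok TE_l17547 _))
                      (CovZ.badM (by decide +kernel)))
                     (CovZ.n1 (3770, 28470) (by decide +kernel)
                      (CovZ.badM (by decide +kernel))
                      (CovZ.leaf K2_ok TE_l17548 _)))
                    (CovZ.n1 (3800, 28460) (by decide +kernel)
                     (CovZ.leaf K2_ok TE_l8417 _)
                     (CovZ.n1 (3790, 28470) (by decide +kernel)
                      (CovZ.leaf K2_ok TE_l17549 _)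
                      (CovZ.leaf K2_ok TE_l17550 _)))))))
                (CovZ.n1 (3720, 28440) (by decide +kernel)
                 (CovZ.subM 3138550867693340381917894711603835021439907284913267673088 (by decide +kernel)
                  (CovZ.n2 (3720, 28480) (by decide +kernel)
                   (CovZ.n2 (3740, 28460) (by decide +kernel)
                    (CovZ.n2 (3720, 28460) (by decide +kernel)
                     (CovZ.badM (by decide +kernel))
                     (CovZ.leaf K2_ok TE_l8418 _))
                    (CovZ.n1 (3740, 28480) (by decide +kernel)
                     (CovZ.n2 (3750, 28470) (by decide +kernel)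
                      (CovZ.n2 (3740, 28470) (by decide +kernel)
                       (CovZ.badM (by decide +kernel))
                       (CovZ.leaf K2_ok TE_l17551 _))
                      (CovZ.badM (by decide +kernel)))
                     (CovZ.badM (by decide +kernel))))
                   (CovZ.n1 (3700, 28460) (by decide +kernel)
                    (CovZ.n2 (3700, 28480) (by decide +kernel)
                     (CovZ.badM (by decide +kernel))
                     (CovZ.n1 (3690, 28470) (by decide +kernel)
                      (CovZ.badM (by decide +kernel))
                      (CovZ.badM (by decide +kernel))))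
                    (CovZ.n1 (3720, 28460) (by decide +kernel)
                     (CovZ.n2 (3710, 28450) (by decide +kernel)
                      (CovZ.leaf K2_ok TE_l8419 _)
                      (CovZ.leaf K2_ok TE_l8420 _))
                     (CovZ.badM (by decide +kernel))))))
                 (CovZ.n1 (3760, 28440) (by decide +kernel)
                  (CovZ.n2 (3740, 28420) (by decide +kernel)
                   (CovZ.leaf K2_ok TE_l8421 _)
                   (CovZ.leaf K2_ok TE_l8422 _))
                  (CovZ.subM 1813388729562956128323584 (by decide +kernel)
                   (CovZ.n1 (3740, 28460) (by decide +kernel)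
                    (CovZ.n2 (3760, 28460) (by decide +kernel)
                     (CovZ.n2 (3750, 28450) (by decide +kernel)
                      (CovZ.leaf K2_ok TE_l8423 _)
                      (CovZ.leaf K2_ok TE_l8424 _))
                     (CovZ.n1 (3750, 28470) (by decide +kernel)
                      (CovZ.n2 (3760, 28470) (by decide +kernel)
                       (CovZ.leaf K2_ok TE_l17552 _)
                       (CovZ.badM (by decide +kernel)))
                      (CovZ.leaf K2_ok TE_l17553 _)))
                    (CovZ.n1 (3740, 28440) (by decide +kernel)
                     (CovZ.leaf K2_ok TE_l8425 _)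
                     (CovZ.n1 (3750, 28450) (by decide +kernel)
                      (CovZ.leaf K2_ok TE_l8426 _)
                      (CovZ.badM (by decide +kernel)))))))))))
             (CovZ.n1 (3600, 28400) (by decide +kernel)
              (CovZ.subM 1606938044258990275541962092341162603882244540919619434579968 (by decide +kernel)
               (CovZ.n2 (3600, 28480) (by decide +kernel)
                (CovZ.n2 (3640, 28440) (by decide +kernel)
                 (CovZ.n2 (3600, 28440) (by decide +kernel)
                  (CovZ.subM 151115727451828646840320 (by decide +kernel)
                   (CovZ.n2 (3620, 28460) (by decide +kernel)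
                    (CovZ.n2 (3620, 28440) (by decide +kernel)
                     (CovZ.leaf K2_ok TE_l8427 _)
                     (CovZ.n1 (3630, 28450) (by decide +kernel)
                      (CovZ.leaf K2_ok TE_l8428 _)
                      (CovZ.leaf K2_ok TE_l8429 _)))
                    (CovZ.n1 (3600, 28460) (by decide +kernel)
                     (CovZ.badM (by decide +kernel))
                     (CovZ.n1 (3610, 28450) (by decide +kernel)
                      (CovZ.leaf K2_ok TE_l8430 _)
                      (CovZ.leaf K2_ok TE_l8431 _)))))
                  (CovZ.n1 (3620, 28420) (by decide +kernel)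
                   (CovZ.n2 (3600, 28420) (by decide +kernel)
                    (CovZ.leaf K2_ok TE_l8432 _)
                    (CovZ.leaf K2_ok TE_l8433 _))
                   (CovZ.leaf K2_ok TE_l8434 _)))
                 (CovZ.subM 151115727451828646840320 (by decide +kernel)
                  (CovZ.n1 (3640, 28480) (by decide +kernel)
                   (CovZ.n2 (3660, 28460) (by decide +kernel)
                    (CovZ.n2 (3640, 28460) (by decide +kernel)
                     (CovZ.badM (by decide +kernel))
                     (CovZ.leaf K2_ok TE_l8435 _))
                    (CovZ.badM (by decide +kernel)))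
                   (CovZ.n1 (3620, 28460) (by decide +kernel)
                    (CovZ.badM (by decide +kernel))
                    (CovZ.n1 (3640, 28460) (by decide +kernel)
                     (CovZ.n2 (3630, 28450) (by decide +kernel)
                      (CovZ.leaf K2_ok TE_l8436 _)
                      (CovZ.leaf K2_ok TE_l8437 _))
                     (CovZ.badM (by decide +kernel)))))))
                (CovZ.n1 (3560, 28440) (by decide +kernel)
                 (CovZ.subM 151115727451828646840320 (by decide +kernel)
                  (CovZ.n2 (3560, 28480) (by decide +kernel)
                   (CovZ.n2 (3580, 28460) (by decide +kernel)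
                    (CovZ.n2 (3560, 28460) (by decide +kernel)
                     (CovZ.badM (by decide +kernel))
                     (CovZ.leaf K2_ok TE_l8439 _))
                    (CovZ.badM (by decide +kernel)))
                   (CovZ.n1 (3540, 28460) (by decide +kernel)
                    (CovZ.badM (by decide +kernel))
                    (CovZ.n1 (3560, 28460) (by decide +kernel)
                     (CovZ.leaf K2_ok TE_l8440 _)
                     (CovZ.badM (by decide +kernel))))))
                 (CovZ.n1 (3600, 28440) (by decide +kernel)
                  (CovZ.n2 (3580, 28420) (by decide +kernel)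
                   (CovZ.n2 (3580, 28440) (by decide +kernel)
                    (CovZ.leaf K2_ok TE_l8441 _)
                    (CovZ.leaf K2_ok TE_l8442 _))
                   (CovZ.leaf K2_ok TE_l8443 _))
                  (CovZ.subM 151115727451828646840320 (by decide +kernel)
                   (CovZ.n1 (3580, 28460) (by decide +kernel)
                    (CovZ.n2 (3600, 28460) (by decide +kernel)
                     (CovZ.n2 (3590, 28450) (by decide +kernel)
                      (CovZ.leaf K2_ok TE_l8444 _)
                      (CovZ.leaf K2_ok TE_l8445 _))
                     (CovZ.badM (by decide +kernel)))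
                    (CovZ.n1 (3580, 28440) (by decide +kernel)
                     (CovZ.leaf K2_ok TE_l8446 _)
                     (CovZ.n1 (3590, 28450) (by decide +kernel)
                      (CovZ.leaf K2_ok TE_l8447 _)
                      (CovZ.leaf K2_ok TE_l8448 _)))))))))
              (CovZ.n1 (3680, 28400) (by decide +kernel)
               (CovZ.n2 (3640, 28360) (by decide +kernel)
                (CovZ.n2 (3640, 28400) (by decide +kernel)
                 (CovZ.leaf K2_ok TE_l8449 _)
                 (CovZ.n1 (3620, 28380) (by decide +kernel)
                  (CovZ.leaf K2_ok TE_l8450 _)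
                  (CovZ.leaf K2_ok TE_l8451 _)))
                (CovZ.n1 (3680, 28360) (by decide +kernel)
                 (CovZ.leaf K2_ok TE_l8452 _)
                 (CovZ.leaf K2_ok TE_l8453 _)))
               (CovZ.subM 1610076595126683615923879987052766437090295718641852525578240 (by decide +kernel)
                (CovZ.n1 (3640, 28440) (by decide +kernel)
                 (CovZ.n2 (3680, 28440) (by decide +kernel)
                  (CovZ.n2 (3660, 28420) (by decide +kernel)
                   (CovZ.leaf K2_ok TE_l8454 _)
                   (CovZ.leaf K2_ok TE_l8455 _))
                  (CovZ.subM 3138550867693340381917894711603833359166905174060664096768 (by decide +kernel)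
                   (CovZ.n1 (3660, 28460) (by decide +kernel)
                    (CovZ.n2 (3680, 28460) (by decide +kernel)
                     (CovZ.n2 (3670, 28450) (by decide +kernel)
                      (CovZ.leaf K2_ok TE_l8456 _)
                      (CovZ.leaf K2_ok TE_l8457 _))
                     (CovZ.badM (by decide +kernel)))
                    (CovZ.n1 (3660, 28440) (by decide +kernel)
                     (CovZ.leaf K2_ok TE_l8458 _)
                     (CovZ.n1 (3670, 28450) (by decide +kernel)
                      (CovZ.leaf K2_ok TE_l8459 _)
                      (CovZ.leaf K2_ok TE_l8460 _))))))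
                 (CovZ.n1 (3640, 28400) (by decide +kernel)
                  (CovZ.n2 (3620, 28420) (by decide +kernel)
                   (CovZ.leaf K2_ok TE_l8461 _)
                   (CovZ.leaf K2_ok TE_l8462 _))
                  (CovZ.n1 (3660, 28420) (by decide +kernel)
                   (CovZ.leaf K2_ok TE_l8463 _)
                   (CovZ.leaf K2_ok TE_l8464 _)))))))))

theorem TE_u130 : CovZ TE_M (toL (selN TE_LN 2219347782691817720279221540744079852822810075520636760895120)) [0, 7, 6, 1] (3680, 28320) (3840, 28160) (3840, 28480) :=
    (CovZ.n1 (3840, 28320) (by decide +kernel)
            (CovZ.n2 (3760, 28240) (by decide +kernel)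
             (CovZ.subM 2014949657059124526585085976678821705395100743940229719666320 (by decide +kernel)
              (CovZ.n2 (3760, 28320) (by decide +kernel)
               (CovZ.n2 (3800, 28280) (by decide +kernel)
                (CovZ.leaf K2_ok TE_l8465 _)
                (CovZ.leaf K2_ok TE_l8466 _))
               (CovZ.n1 (3720, 28280) (by decide +kernel)
                (CovZ.leaf K2_ok TE_l8467 _)
                (CovZ.leaf K2_ok TE_l8468 _))))
             (CovZ.n1 (3840, 28240) (by decide +kernel)
              (CovZ.leaf K2_ok TE_l8469 _)
              (CovZ.leaf K2_ok TE_l8470 _)))
            (CovZ.subM 1606938044258990275541962424648161549544528796106014465207936 (by decide +kernel)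
             (CovZ.n1 (3760, 28400) (by decide +kernel)
              (CovZ.n2 (3840, 28400) (by decide +kernel)
               (CovZ.n2 (3800, 28360) (by decide +kernel)
                (CovZ.n2 (3800, 28400) (by decide +kernel)
                 (CovZ.leaf K2_ok TE_l8471 _)
                 (CovZ.n1 (3780, 28380) (by decide +kernel)
                  (CovZ.leaf K2_ok TE_l8472 _)
                  (CovZ.leaf K2_ok TE_l8473 _)))
                (CovZ.n1 (3840, 28360) (by decide +kernel)
                 (CovZ.leaf K2_ok TE_l8474 _)
                 (CovZ.leaf K2_ok TE_l8475 _)))
               (CovZ.subM 1606938044258990275541962092341162603277781633505118117693952 (by decide +kernel)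
                (CovZ.n1 (3800, 28440) (by decide +kernel)
                 (CovZ.n2 (3840, 28440) (by decide +kernel)
                  (CovZ.n2 (3820, 28420) (by decide +kernel)
                   (CovZ.n2 (3820, 28440) (by decide +kernel)
                    (CovZ.leaf K2_ok TE_l8476 _)
                    (CovZ.leaf K2_ok TE_l8477 _))
                   (CovZ.leaf K2_ok TE_l8478 _))
                  (CovZ.n1 (3820, 28460) (by decide +kernel)
                   (CovZ.n2 (3840, 28460) (by decide +kernel)
                    (CovZ.n2 (3830, 28450) (by decide +kernel)
                     (CovZ.leaf K2_ok TE_l8479 _)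
                     (CovZ.leaf K2_ok TE_l8480 _))
                    (CovZ.n1 (3830, 28470) (by decide +kernel)
                     (CovZ.leaf K2_ok TE_l17554 _)
                     (CovZ.leaf K2_ok TE_l17555 _)))
                   (CovZ.n1 (3820, 28440) (by decide +kernel)
                    (CovZ.leaf K2_ok TE_l8481 _)
                    (CovZ.n1 (3830, 28450) (by decide +kernel)
                     (CovZ.leaf K2_ok TE_l8482 _)
                     (CovZ.leaf K2_ok TE_l8483 _)))))
                 (CovZ.n1 (3800, 28400) (by decide +kernel)
                  (CovZ.n2 (3780, 28420) (by decide +kernel)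
                   (CovZ.leaf K2_ok TE_l8484 _)
                   (CovZ.leaf K2_ok TE_l8485 _))
                  (CovZ.n1 (3820, 28420) (by decide +kernel)
                   (CovZ.leaf K2_ok TE_l8486 _)
                   (CovZ.leaf K2_ok TE_l8487 _))))))
              (CovZ.n1 (3760, 28320) (by decide +kernel)
               (CovZ.n2 (3720, 28360) (by decide +kernel)
                (CovZ.n2 (3760, 28360) (by decide +kernel)
                 (CovZ.leaf K2_ok TE_l8488 _)
                 (CovZ.leaf K2_ok TE_l8489 _))
                (CovZ.leaf K2_ok TE_l8490 _))
               (CovZ.n1 (3800, 28360) (by decide +kernel)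
                (CovZ.leaf K2_ok TE_l8491 _)
                (CovZ.n1 (3760, 28360) (by decide +kernel)
                 (CovZ.n2 (3780, 28380) (by decide +kernel)
                  (CovZ.leaf K2_ok TE_l8492 _)
                  (CovZ.leaf K2_ok TE_l8493 _))
                 (CovZ.leaf K2_ok TE_l8494 _)))))))

theorem TE_u131 : CovZ TE_M (toL (selN TE_LN 2216209329151410088588960720655699962056990080690667554612400)) [0, 7, 6, 1] (2880, 28480) (3040, 28320) (3200, 28480) :=
    (CovZ.subM 402126829923266327040559714555792512301100739910093701645312 (by decide +kernel)
            (CovZ.n2 (3040, 28480) (by decide +kernel)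
             (CovZ.n2 (3120, 28400) (by decide +kernel)
              (CovZ.n2 (3040, 28400) (by decide +kernel)
               (CovZ.n2 (3080, 28440) (by decide +kernel)
                (CovZ.n2 (3080, 28400) (by decide +kernel)
                 (CovZ.badM (by decide +kernel))
                 (CovZ.badM (by decide +kernel)))
                (CovZ.badM (by decide +kernel)))
               (CovZ.n1 (3080, 28360) (by decide +kernel)
                (CovZ.n2 (3040, 28360) (by decide +kernel)
                 (CovZ.subM 392318858507340173527543750888576175491054373934918008832 (by decide +kernel)
                  (CovZ.n2 (3060, 28380) (by decide +kernel)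
                   (CovZ.n2 (3060, 28360) (by decide +kernel)
                    (CovZ.badM (by decide +kernel))
                    (CovZ.n1 (3070, 28370) (by decide +kernel)
                     (CovZ.n2 (3070, 28360) (by decide +kernel)
                      (CovZ.n2 (3065, 28365) (by decide +kernel)
                       (CovZ.n2 (3070, 28365) (by decide +kernel)
                        (CovZ.leaf K2_ok TE_l17556 _)
                        (CovZ.badM (by decide +kernel)))
                       (CovZ.leaf K2_ok TE_l17557 _))
                      (CovZ.n1 (3075, 28365) (by decide +kernel)
                       (CovZ.leaf K2_ok TE_l17558 _)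
                       (CovZ.n1 (3070, 28365) (by decide +kernel)
                        (CovZ.leaf K2_ok TE_l17559 _)
                        (CovZ.leaf K2_ok TE_l17560 _))))
                     (CovZ.badM (by decide +kernel))))
                   (CovZ.badM (by decide +kernel))))
                 (CovZ.n1 (3060, 28340) (by decide +kernel)
                  (CovZ.n2 (3040, 28340) (by decide +kernel)
                   (CovZ.n2 (3050, 28350) (by decide +kernel)
                    (CovZ.leaf K2_ok TE_l17561 _)
                    (CovZ.badM (by decide +kernel)))
                   (CovZ.n1 (3050, 28330) (by decide +kernel)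
                    (CovZ.n2 (3040, 28330) (by decide +kernel)
                     (CovZ.leaf K2_ok TE_l17562 _)
                     (CovZ.leaf K2_ok TE_l17563 _))
                    (CovZ.leaf K2_ok TE_l17564 _)))
                  (CovZ.n1 (3060, 28360) (by decide +kernel)
                   (CovZ.n2 (3070, 28350) (by decide +kernel)
                    (CovZ.n2 (3060, 28350) (by decide +kernel)
                     (CovZ.leaf K2_ok TE_l17565 _)
                     (CovZ.n1 (3065, 28345) (by decide +kernel)
                      (CovZ.leaf K2_ok TE_l17566 _)
                      (CovZ.leaf K2_ok TE_l17567 _)))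
                    (CovZ.n1 (3070, 28360) (by decide +kernel)
                     (CovZ.leaf K2_ok TE_l17568 _)
                     (CovZ.leaf K2_ok TE_l17569 _)))
                   (CovZ.n1 (3050, 28350) (by decide +kernel)
                    (CovZ.badM (by decide +kernel))
                    (CovZ.n1 (3060, 28350) (by decide +kernel)
                     (CovZ.leaf K2_ok TE_l17570 _)
                     (CovZ.leaf K2_ok TE_l17571 _))))))
                (CovZ.subM 392318858507340173526879136890683717554602470404777836544 (by decide +kernel)
                 (CovZ.n1 (3080, 28400) (by decide +kernel)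
                  (CovZ.n2 (3100, 28380) (by decide +kernel)
                   (CovZ.n2 (3080, 28380) (by decide +kernel)
                    (CovZ.subM 2722264127664366242534625389950474911744 (by decide +kernel)
                     (CovZ.n2 (3090, 28390) (by decide +kernel)
                      (CovZ.n2 (3090, 28380) (by decide +kernel)
                       (CovZ.n2 (3085, 28385) (by decide +kernel)
                        (CovZ.badM (by decide +kernel))
                        (CovZ.leaf K2_ok TE_l17572 _))
                       (CovZ.badM (by decide +kernel)))
                      (CovZ.badM (by decide +kernel))))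
                    (CovZ.n1 (3090, 28370) (by decide +kernel)
                     (CovZ.n2 (3080, 28370) (by decide +kernel)
                      (CovZ.n2 (3085, 28375) (by decide +kernel)
                       (CovZ.leaf K2_ok TE_l17573 _)
                       (CovZ.leaf K2_ok TE_l17574 _))
                      (CovZ.leaf K2_ok TE_l17575 _))
                     (CovZ.subM 2722264127664366242534625389950474911744 (by decide +kernel)
                      (CovZ.n1 (3090, 28380) (by decide +kernel)
                       (CovZ.n2 (3095, 28375) (by decide +kernel)
                        (CovZ.n2 (3090, 28375) (by decide +kernel)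
                         (CovZ.leaf K2_ok TE_l19621 _)
                         (CovZ.leaf K2_ok TE_l19622 _))
                        (CovZ.badM (by decide +kernel)))
                       (CovZ.n1 (3085, 28375) (by decide +kernel)
                        (CovZ.n2 (3085, 28380) (by decide +kernel)
                         (CovZ.leaf K2_ok TE_l17576 _)
                         (CovZ.leaf K2_ok TE_l17577 _))
                        (CovZ.leaf K2_ok TE_l17578 _))))))
                   (CovZ.badM (by decide +kernel)))
                  (CovZ.n1 (3060, 28380) (by decide +kernel)
                   (CovZ.badM (by decide +kernel))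
                   (CovZ.n1 (3080, 28380) (by decide +kernel)
                    (CovZ.n2 (3070, 28370) (by decide +kernel)
                     (CovZ.badM (by decide +kernel))
                     (CovZ.n1 (3080, 28370) (by decide +kernel)
                      (CovZ.n2 (3075, 28365) (by decide +kernel)
                       (CovZ.leaf K2_ok TE_l17579 _)
                       (CovZ.leaf K2_ok TE_l17580 _))
                      (CovZ.n1 (3075, 28375) (by decide +kernel)
                       (CovZ.leaf K2_ok TE_l17581 _)
                       (CovZ.leaf K2_ok TE_l17582 _))))
                    (CovZ.badM (by decide +kernel))))))))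
              (CovZ.badM (by decide +kernel)))
             (CovZ.n1 (2960, 28400) (by decide +kernel)
              (CovZ.badM (by decide +kernel))
              (CovZ.subM 402126829923209236435953188665903388482028222955007581881344 (by decide +kernel)
               (CovZ.n1 (3040, 28400) (by decide +kernel)
                (CovZ.n2 (3000, 28360) (by decide +kernel)
                 (CovZ.badM (by decide +kernel))
                 (CovZ.n1 (3040, 28360) (by decide +kernel)
                  (CovZ.n2 (3020, 28340) (by decide +kernel)
                   (CovZ.badM (by decide +kernel))
                   (CovZ.n1 (3040, 28340) (by decide +kernel)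
                    (CovZ.n2 (3030, 28330) (by decide +kernel)
                     (CovZ.badM (by decide +kernel))
                     (CovZ.leaf K2_ok TE_l17583 _))
                    (CovZ.badM (by decide +kernel))))
                  (CovZ.badM (by decide +kernel))))
                (CovZ.badM (by decide +kernel)))))))

theorem TE_u132 : CovZ TE_M (toL (selN TE_LN 2216209329151410088588960720655699962056990080690667554612400)) [0, 7, 6, 1] (3040, 28320) (3200, 28160) (3200, 28480) :=
    (CovZ.n1 (3200, 28320) (by decide +kernel)
            (CovZ.n2 (3120, 28240) (by decide +kernel)
             (CovZ.n2 (3120, 28320) (by decide +kernel)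
              (CovZ.n2 (3160, 28280) (by decide +kernel)
               (CovZ.n2 (3120, 28280) (by decide +kernel)
                (CovZ.n2 (3140, 28300) (by decide +kernel)
                 (CovZ.leaf K2_ok TE_l8495 _)
                 (CovZ.leaf K2_ok TE_l8496 _))
                (CovZ.leaf K2_ok TE_l8497 _))
               (CovZ.n1 (3160, 28320) (by decide +kernel)
                (CovZ.leaf K2_ok TE_l8498 _)
                (CovZ.n1 (3140, 28300) (by decide +kernel)
                 (CovZ.leaf K2_ok TE_l8499 _)
                 (CovZ.leaf K2_ok TE_l8500 _))))
              (CovZ.n1 (3080, 28280) (by decide +kernel)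
               (CovZ.subM 408403931658641589822938926861258333962098452614021090640896 (by decide +kernel)
                (CovZ.n2 (3080, 28320) (by decide +kernel)
                 (CovZ.n2 (3100, 28300) (by decide +kernel)
                  (CovZ.leaf K2_ok TE_l8501 _)
                  (CovZ.leaf K2_ok TE_l8502 _))
                 (CovZ.n1 (3060, 28300) (by decide +kernel)
                  (CovZ.n2 (3060, 28320) (by decide +kernel)
                   (CovZ.leaf K2_ok TE_l8503 _)
                   (CovZ.leaf K2_ok TE_l8504 _))
                  (CovZ.leaf K2_ok TE_l8505 _))))
               (CovZ.n1 (3120, 28280) (by decide +kernel)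
                (CovZ.leaf K2_ok TE_l8506 _)
                (CovZ.leaf K2_ok TE_l8507 _))))
             (CovZ.n1 (3200, 28240) (by decide +kernel)
              (CovZ.n2 (3160, 28200) (by decide +kernel)
               (CovZ.leaf K2_ok TE_l8508 _)
               (CovZ.leaf K2_ok TE_l8509 _))
              (CovZ.n1 (3160, 28280) (by decide +kernel)
               (CovZ.n2 (3200, 28280) (by decide +kernel)
                (CovZ.leaf K2_ok TE_l8510 _)
                (CovZ.leaf K2_ok TE_l8511 _))
               (CovZ.leaf K2_ok TE_l8512 _))))
            (CovZ.n1 (3120, 28400) (by decide +kernel)
             (CovZ.subM 2216209327233911376921937259707527365393079081594206824694784 (by decide +kernel)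
              (CovZ.n2 (3200, 28400) (by decide +kernel)
               (CovZ.n2 (3160, 28360) (by decide +kernel)
                (CovZ.subM 85070591730234615865843651857942052864 (by decide +kernel)
                 (CovZ.n2 (3160, 28400) (by decide +kernel)
                  (CovZ.n2 (3180, 28380) (by decide +kernel)
                   (CovZ.n2 (3160, 28380) (by decide +kernel)
                    (CovZ.badM (by decide +kernel))
                    (CovZ.n1 (3170, 28370) (by decide +kernel)
                     (CovZ.leaf K2_ok TE_l8513 _)
                     (CovZ.badM (by decide +kernel))))
                   (CovZ.badM (by decide +kernel)))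
                  (CovZ.n1 (3140, 28380) (by decide +kernel)
                   (CovZ.badM (by decide +kernel))
                   (CovZ.n1 (3160, 28380) (by decide +kernel)
                    (CovZ.n2 (3150, 28370) (by decide +kernel)
                     (CovZ.badM (by decide +kernel))
                     (CovZ.leaf K2_ok TE_l8514 _))
                    (CovZ.badM (by decide +kernel))))))
                (CovZ.n1 (3200, 28360) (by decide +kernel)
                 (CovZ.n2 (3180, 28340) (by decide +kernel)
                  (CovZ.leaf K2_ok TE_l8515 _)
                  (CovZ.leaf K2_ok TE_l8516 _))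
                 (CovZ.subM 1606938140042884583283552042259951328747784356767419334656000 (by decide +kernel)
                  (CovZ.n1 (3180, 28380) (by decide +kernel)
                   (CovZ.n2 (3200, 28380) (by decide +kernel)
                    (CovZ.n2 (3190, 28370) (by decide +kernel)
                     (CovZ.leaf K2_ok TE_l8517 _)
                     (CovZ.leaf K2_ok TE_l8518 _))
                    (CovZ.n1 (3190, 28390) (by decide +kernel)
                     (CovZ.badM (by decide +kernel))
                     (CovZ.leaf K2_ok TE_l8519 _)))
                   (CovZ.n1 (3180, 28360) (by decide +kernel)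
                    (CovZ.leaf K2_ok TE_l8520 _)
                    (CovZ.n1 (3190, 28370) (by decide +kernel)
                     (CovZ.leaf K2_ok TE_l8521 _)
                     (CovZ.leaf K2_ok TE_l8522 _)))))))
               (CovZ.subM 11417981541647679048466287755595961091061972992 (by decide +kernel)
                (CovZ.n1 (3160, 28440) (by decide +kernel)
                 (CovZ.n2 (3200, 28440) (by decide +kernel)
                  (CovZ.n2 (3180, 28420) (by decide +kernel)
                   (CovZ.badM (by decide +kernel))
                   (CovZ.n1 (3200, 28420) (by decide +kernel)
                    (CovZ.badM (by decide +kernel))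
                    (CovZ.badM (by decide +kernel))))
                  (CovZ.badM (by decide +kernel)))
                 (CovZ.badM (by decide +kernel))))))
             (CovZ.subM 2216209327233899958943117876166284470149683946235606798959616 (by decide +kernel)
              (CovZ.n1 (3120, 28320) (by decide +kernel)
               (CovZ.subM 408403931658641589822938926861258332639835837409420919178240 (by decide +kernel)
                (CovZ.n2 (3080, 28360) (by decide +kernel)
                 (CovZ.n2 (3120, 28360) (by decide +kernel)
                  (CovZ.n2 (3100, 28340) (by decide +kernel)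
                   (CovZ.n2 (3100, 28360) (by decide +kernel)
                    (CovZ.n2 (3110, 28350) (by decide +kernel)
                     (CovZ.leaf K2_ok TE_l8523 _)
                     (CovZ.leaf K2_ok TE_l8524 _))
                    (CovZ.n1 (3090, 28350) (by decide +kernel)
                     (CovZ.leaf K2_ok TE_l8525 _)
                     (CovZ.leaf K2_ok TE_l8526 _)))
                   (CovZ.n1 (3120, 28340) (by decide +kernel)
                    (CovZ.leaf K2_ok TE_l8527 _)
                    (CovZ.leaf K2_ok TE_l8528 _)))
                  (CovZ.subM 392318858507340173526879136890683717554602470421957705728 (by decide +kernel)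
                   (CovZ.n1 (3100, 28380) (by decide +kernel)
                    (CovZ.badM (by decide +kernel))
                    (CovZ.n1 (3100, 28360) (by decide +kernel)
                     (CovZ.n2 (3090, 28370) (by decide +kernel)
                      (CovZ.n2 (3100, 28370) (by decide +kernel)
                       (CovZ.leaf K2_ok TE_l17584 _)
                       (CovZ.leaf K2_ok TE_l19623 _))
                      (CovZ.leaf K2_ok TE_l17585 _))
                     (CovZ.n1 (3110, 28370) (by decide +kernel)
                      (CovZ.leaf K2_ok TE_l17586 _)
                      (CovZ.n1 (3100, 28370) (by decide +kernel)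
                       (CovZ.badM (by decide +kernel))
                       (CovZ.leaf K2_ok TE_l17587 _)))))))
                 (CovZ.n1 (3080, 28320) (by decide +kernel)
                  (CovZ.n2 (3060, 28340) (by decide +kernel)
                   (CovZ.n2 (3080, 28340) (by decide +kernel)
                    (CovZ.n2 (3070, 28330) (by decide +kernel)
                     (CovZ.leaf K2_ok TE_l8529 _)
                     (CovZ.leaf K2_ok TE_l8530 _))
                    (CovZ.n1 (3070, 28350) (by decide +kernel)
                     (CovZ.leaf K2_ok TE_l8531 _)
                     (CovZ.leaf K2_ok TE_l8532 _)))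
                   (CovZ.n1 (3060, 28320) (by decide +kernel)
                    (CovZ.n2 (3050, 28330) (by decide +kernel)
                     (CovZ.leaf K2_ok TE_l8533 _)
                     (CovZ.leaf K2_ok TE_l8534 _))
                    (CovZ.n1 (3070, 28330) (by decide +kernel)
                     (CovZ.leaf K2_ok TE_l8535 _)
                     (CovZ.leaf K2_ok TE_l8536 _))))
                  (CovZ.n1 (3100, 28340) (by decide +kernel)
                   (CovZ.leaf K2_ok TE_l8537 _)
                   (CovZ.n1 (3080, 28340) (by decide +kernel)
                    (CovZ.n2 (3090, 28350) (by decide +kernel)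
                     (CovZ.leaf K2_ok TE_l8538 _)
                     (CovZ.leaf K2_ok TE_l8539 _))
                    (CovZ.n1 (3090, 28330) (by decide +kernel)
                     (CovZ.leaf K2_ok TE_l8540 _)
                     (CovZ.leaf K2_ok TE_l8541 _)))))))
               (CovZ.n1 (3160, 28360) (by decide +kernel)
                (CovZ.n2 (3160, 28320) (by decide +kernel)
                 (CovZ.n2 (3140, 28340) (by decide +kernel)
                  (CovZ.leaf K2_ok TE_l8542 _)
                  (CovZ.leaf K2_ok TE_l8543 _))
                 (CovZ.n1 (3180, 28340) (by decide +kernel)
                  (CovZ.leaf K2_ok TE_l8544 _)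
                  (CovZ.leaf K2_ok TE_l8545 _)))
                (CovZ.subM 408403931658641589822938921668961474105008208878924589958144 (by decide +kernel)
                 (CovZ.n1 (3120, 28360) (by decide +kernel)
                  (CovZ.subM 85070591730234615865843651857942052864 (by decide +kernel)
                   (CovZ.n2 (3140, 28380) (by decide +kernel)
                    (CovZ.n2 (3140, 28360) (by decide +kernel)
                     (CovZ.badM (by decide +kernel))
                     (CovZ.n1 (3150, 28370) (by decide +kernel)
                      (CovZ.leaf K2_ok TE_l8546 _)
                      (CovZ.badM (by decide +kernel))))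
                    (CovZ.badM (by decide +kernel))))
                  (CovZ.n1 (3140, 28340) (by decide +kernel)
                   (CovZ.n2 (3120, 28340) (by decide +kernel)
                    (CovZ.n2 (3130, 28350) (by decide +kernel)
                     (CovZ.leaf K2_ok TE_l8547 _)
                     (CovZ.leaf K2_ok TE_l8548 _))
                    (CovZ.leaf K2_ok TE_l8549 _))
                   (CovZ.n1 (3140, 28360) (by decide +kernel)
                    (CovZ.leaf K2_ok TE_l8550 _)
                    (CovZ.n1 (3130, 28350) (by decide +kernel)
                     (CovZ.leaf K2_ok TE_l8551 _)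
                     (CovZ.leaf K2_ok TE_l8552 _)))))))))))

theorem TE_u133 : CovZ TE_M (toL (selN TE_LN 402322989376029620074867246414918557653593379301359473403280)) [0, 7, 6, 1] (2880, 28480) (2720, 28320) (2880, 28160) :=
    (CovZ.n2 (2880, 28320) (by decide +kernel)
             (CovZ.subM 392318858461667550462665580632546516711081647483935270032 (by decide +kernel)
              (CovZ.n2 (2800, 28240) (by decide +kernel)
               (CovZ.n2 (2800, 28320) (by decide +kernel)
                (CovZ.badM (by decide +kernel))
                (CovZ.badM (by decide +kernel)))
               (CovZ.n1 (2880, 28240) (by decide +kernel)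
                (CovZ.n2 (2840, 28200) (by decide +kernel)
                 (CovZ.subM 1322373583898319068856464 (by decide +kernel)
                  (CovZ.n2 (2840, 28240) (by decide +kernel)
                   (CovZ.n2 (2860, 28220) (by decide +kernel)
                    (CovZ.n2 (2840, 28220) (by decide +kernel)
                     (CovZ.n2 (2850, 28230) (by decide +kernel)
                      (CovZ.leaf K2_ok TE_l8553 _)
                      (CovZ.leaf K2_ok TE_l8554 _))
                     (CovZ.leaf K2_ok TE_l8555 _))
                    (CovZ.n1 (2860, 28240) (by decide +kernel)
                     (CovZ.leaf K2_ok TE_l8556 _)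
                     (CovZ.n1 (2850, 28230) (by decide +kernel)
                      (CovZ.badM (by decide +kernel))
                      (CovZ.leaf K2_ok TE_l8557 _))))
                   (CovZ.subM 75631650702209161625728 (by decide +kernel)
                    (CovZ.n1 (2820, 28220) (by decide +kernel)
                     (CovZ.badM (by decide +kernel))
                     (CovZ.n1 (2840, 28220) (by decide +kernel)
                      (CovZ.n2 (2830, 28210) (by decide +kernel)
                       (CovZ.leaf K2_ok TE_l8558 _)
                       (CovZ.leaf K2_ok TE_l8559 _))
                      (CovZ.leaf K2_ok TE_l8560 _))))))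
                 (CovZ.n1 (2880, 28200) (by decide +kernel)
                  (CovZ.n2 (2860, 28180) (by decide +kernel)
                   (CovZ.leaf K2_ok TE_l8561 _)
                   (CovZ.leaf K2_ok TE_l8562 _))
                  (CovZ.n1 (2860, 28220) (by decide +kernel)
                   (CovZ.leaf K2_ok TE_l8563 _)
                   (CovZ.leaf K2_ok TE_l8564 _))))
                (CovZ.subM 1246815720172404745437200 (by decide +kernel)
                 (CovZ.n1 (2840, 28280) (by decide +kernel)
                  (CovZ.n2 (2880, 28280) (by decide +kernel)
                   (CovZ.n2 (2860, 28260) (by decide +kernel)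
                    (CovZ.subM 16 (by decide +kernel)
                     (CovZ.n2 (2860, 28280) (by decide +kernel)
                      (CovZ.n2 (2870, 28270) (by decide +kernel)
                       (CovZ.badM (by decide +kernel))
                       (CovZ.n1 (2870, 28280) (by decide +kernel)
                        (CovZ.leaf K2_ok TE_l17588 _)
                        (CovZ.badM (by decide +kernel))))
                      (CovZ.badM (by decide +kernel))))
                    (CovZ.n1 (2880, 28260) (by decide +kernel)
                     (CovZ.n2 (2870, 28250) (by decide +kernel)
                      (CovZ.leaf K2_ok TE_l17589 _)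
                      (CovZ.leaf K2_ok TE_l17590 _))
                     (CovZ.subM 37815825351104580812816 (by decide +kernel)
                      (CovZ.n1 (2870, 28270) (by decide +kernel)
                       (CovZ.n2 (2880, 28270) (by decide +kernel)
                        (CovZ.n2 (2875, 28265) (by decide +kernel)
                         (CovZ.leaf K2_ok TE_l17591 _)
                         (CovZ.leaf K2_ok TE_l17592 _))
                        (CovZ.leaf K2_ok TE_l17593 _))
                       (CovZ.n1 (2870, 28260) (by decide +kernel)
                        (CovZ.badM (by decide +kernel))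
                        (CovZ.leaf K2_ok TE_l17594 _))))))
                   (CovZ.badM (by decide +kernel)))
                  (CovZ.n1 (2840, 28240) (by decide +kernel)
                   (CovZ.badM (by decide +kernel))
                   (CovZ.n1 (2860, 28260) (by decide +kernel)
                    (CovZ.n2 (2860, 28240) (by decide +kernel)
                     (CovZ.badM (by decide +kernel))
                     (CovZ.n1 (2870, 28250) (by decide +kernel)
                      (CovZ.leaf K2_ok TE_l17595 _)
                      (CovZ.badM (by decide +kernel))))
                    (CovZ.badM (by decide +kernel)))))))))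
             (CovZ.subM 40584626247931906932292888559616 (by decide +kernel)
              (CovZ.n1 (2800, 28400) (by decide +kernel)
               (CovZ.n2 (2880, 28400) (by decide +kernel)
                (CovZ.n2 (2840, 28360) (by decide +kernel)
                 (CovZ.badM (by decide +kernel))
                 (CovZ.badM (by decide +kernel)))
                (CovZ.badM (by decide +kernel)))
               (CovZ.n1 (2800, 28320) (by decide +kernel)
                (CovZ.n2 (2760, 28360) (by decide +kernel)
                 (CovZ.n2 (2800, 28360) (by decide +kernel)
                  (CovZ.badM (by decide +kernel))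
                  (CovZ.badM (by decide +kernel)))
                 (CovZ.badM (by decide +kernel)))
                (CovZ.n1 (2840, 28360) (by decide +kernel)
                 (CovZ.badM (by decide +kernel))
                 (CovZ.n1 (2800, 28360) (by decide +kernel)
                  (CovZ.badM (by decide +kernel))
                  (CovZ.badM (by decide +kernel))))))))

theorem TE_u134 : CovZ TE_M (toL (selN TE_LN 402322989376029620074867246414918557653593379301359473403280)) [0, 7, 6, 1] (2720, 28320) (2560, 28160) (2880, 28160) :=
    (CovZ.n1 (2720, 28160) (by decide +kernel)
             (CovZ.subM 196159452820383638913974631680805119575470501913109201152 (by decide +kernel)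
              (CovZ.n2 (2640, 28240) (by decide +kernel)
               (CovZ.subM 196159429436357441619527940421847766600151669474315993088 (by decide +kernel)
                (CovZ.n2 (2720, 28240) (by decide +kernel)
                 (CovZ.n2 (2680, 28200) (by decide +kernel)
                  (CovZ.badM (by decide +kernel))
                  (CovZ.subM 377789318629571617095680 (by decide +kernel)
                   (CovZ.n1 (2720, 28200) (by decide +kernel)
                    (CovZ.n2 (2700, 28180) (by decide +kernel)
                     (CovZ.badM (by decide +kernel))
                     (CovZ.n1 (2720, 28180) (by decide +kernel)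
                      (CovZ.n2 (2710, 28170) (by decide +kernel)
                       (CovZ.badM (by decide +kernel))
                       (CovZ.leaf K2_ok TE_l8565 _))
                      (CovZ.badM (by decide +kernel))))
                    (CovZ.badM (by decide +kernel)))))
                 (CovZ.n1 (2680, 28280) (by decide +kernel)
                  (CovZ.badM (by decide +kernel))
                  (CovZ.badM (by decide +kernel)))))
               (CovZ.n1 (2640, 28160) (by decide +kernel)
                (CovZ.subM 196159429253669736953163777572172161639715116286916689920 (by decide +kernel)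
                 (CovZ.n2 (2600, 28200) (by decide +kernel)
                  (CovZ.n2 (2640, 28200) (by decide +kernel)
                   (CovZ.badM (by decide +kernel))
                   (CovZ.n1 (2620, 28220) (by decide +kernel)
                    (CovZ.n2 (2640, 28220) (by decide +kernel)
                     (CovZ.badM (by decide +kernel))
                     (CovZ.badM (by decide +kernel)))
                    (CovZ.n1 (2620, 28200) (by decide +kernel)
                     (CovZ.n2 (2610, 28210) (by decide +kernel)
                      (CovZ.leaf K2_ok TE_l17596 _)
                      (CovZ.leaf K2_ok TE_l8567 _))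
                     (CovZ.badM (by decide +kernel)))))
                  (CovZ.n1 (2600, 28160) (by decide +kernel)
                   (CovZ.n2 (2580, 28180) (by decide +kernel)
                    (CovZ.n2 (2600, 28180) (by decide +kernel)
                     (CovZ.n2 (2590, 28170) (by decide +kernel)
                      (CovZ.leaf K2_ok TE_l8568 _)
                      (CovZ.leaf K2_ok TE_l17597 _))
                     (CovZ.n1 (2590, 28190) (by decide +kernel)
                      (CovZ.leaf K2_ok TE_l8569 _)
                      (CovZ.leaf K2_ok TE_l8570 _)))
                    (CovZ.n1 (2580, 28160) (by decide +kernel)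
                     (CovZ.n2 (2570, 28170) (by decide +kernel)
                      (CovZ.leaf K2_ok TE_l8571 _)
                      (CovZ.leaf K2_ok TE_l8572 _))
                     (CovZ.n1 (2590, 28170) (by decide +kernel)
                      (CovZ.leaf K2_ok TE_l17598 _)
                      (CovZ.leaf K2_ok TE_l8573 _))))
                   (CovZ.badM (by decide +kernel)))))
                (CovZ.subM 196159429253669736953163777572172528803709159393242120192 (by decide +kernel)
                 (CovZ.n1 (2680, 28200) (by decide +kernel)
                  (CovZ.n2 (2680, 28160) (by decide +kernel)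
                   (CovZ.badM (by decide +kernel))
                   (CovZ.n1 (2700, 28180) (by decide +kernel)
                    (CovZ.n2 (2700, 28160) (by decide +kernel)
                     (CovZ.badM (by decide +kernel))
                     (CovZ.n1 (2710, 28170) (by decide +kernel)
                      (CovZ.leaf K2_ok TE_l8576 _)
                      (CovZ.badM (by decide +kernel))))
                    (CovZ.badM (by decide +kernel))))
                  (CovZ.n1 (2640, 28200) (by decide +kernel)
                   (CovZ.n2 (2660, 28220) (by decide +kernel)
                    (CovZ.badM (by decide +kernel))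
                    (CovZ.n1 (2640, 28220) (by decide +kernel)
                     (CovZ.badM (by decide +kernel))
                     (CovZ.badM (by decide +kernel))))
                   (CovZ.badM (by decide +kernel))))))))
             (CovZ.n1 (2800, 28240) (by decide +kernel)
              (CovZ.subM 392318858461667550462665580632546516711081647483935261840 (by decide +kernel)
               (CovZ.n2 (2800, 28160) (by decide +kernel)
                (CovZ.subM 19807418491673942064654975104 (by decide +kernel)
                 (CovZ.n2 (2760, 28200) (by decide +kernel)
                  (CovZ.n2 (2800, 28200) (by decide +kernel)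
                   (CovZ.n2 (2780, 28180) (by decide +kernel)
                    (CovZ.n2 (2780, 28200) (by decide +kernel)
                     (CovZ.leaf K2_ok TE_l8577 _)
                     (CovZ.n1 (2770, 28190) (by decide +kernel)
                      (CovZ.leaf K2_ok TE_l8578 _)
                      (CovZ.leaf K2_ok TE_l8579 _)))
                    (CovZ.leaf K2_ok TE_l8580 _))
                   (CovZ.subM 19807040628566084398385987712 (by decide +kernel)
                    (CovZ.n1 (2780, 28220) (by decide +kernel)
                     (CovZ.n2 (2800, 28220) (by decide +kernel)
                      (CovZ.n2 (2790, 28210) (by decide +kernel)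
                       (CovZ.leaf K2_ok TE_l17599 _)
                       (CovZ.leaf K2_ok TE_l8581 _))
                      (CovZ.n1 (2790, 28230) (by decide +kernel)
                       (CovZ.n2 (2800, 28230) (by decide +kernel)
                        (CovZ.n2 (2795, 28225) (by decide +kernel)
                         (CovZ.leaf K2_ok TE_l17600 _)
                         (CovZ.leaf K2_ok TE_l17601 _))
                        (CovZ.leaf K2_ok TE_l17602 _))
                       (CovZ.n1 (2790, 28220) (by decide +kernel)
                        (CovZ.leaf K2_ok TE_l17603 _)
                        (CovZ.n1 (2795, 28225) (by decide +kernel)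
                         (CovZ.leaf K2_ok TE_l17604 _)
                         (CovZ.leaf K2_ok TE_l17605 _)))))
                     (CovZ.n1 (2780, 28200) (by decide +kernel)
                      (CovZ.n2 (2770, 28210) (by decide +kernel)
                       (CovZ.leaf K2_ok TE_l17606 _)
                       (CovZ.leaf K2_ok TE_l17607 _))
                      (CovZ.n1 (2790, 28210) (by decide +kernel)
                       (CovZ.leaf K2_ok TE_l17608 _)
                       (CovZ.n1 (2780, 28210) (by decide +kernel)
                        (CovZ.leaf K2_ok TE_l17609 _)
                        (CovZ.leaf K2_ok TE_l17610 _)))))))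
                  (CovZ.n1 (2760, 28160) (by decide +kernel)
                   (CovZ.n2 (2740, 28180) (by decide +kernel)
                    (CovZ.n2 (2760, 28180) (by decide +kernel)
                     (CovZ.leaf K2_ok TE_l8582 _)
                     (CovZ.n1 (2750, 28190) (by decide +kernel)
                      (CovZ.leaf K2_ok TE_l17611 _)
                      (CovZ.leaf K2_ok TE_l17612 _)))
                    (CovZ.n1 (2740, 28160) (by decide +kernel)
                     (CovZ.leaf K2_ok TE_l8583 _)
                     (CovZ.leaf K2_ok TE_l8584 _)))
                   (CovZ.n1 (2780, 28180) (by decide +kernel)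
                    (CovZ.leaf K2_ok TE_l8585 _)
                    (CovZ.n1 (2760, 28180) (by decide +kernel)
                     (CovZ.n2 (2770, 28190) (by decide +kernel)
                      (CovZ.leaf K2_ok TE_l8586 _)
                      (CovZ.leaf K2_ok TE_l17613 _))
                     (CovZ.leaf K2_ok TE_l8587 _))))))
                (CovZ.n1 (2840, 28200) (by decide +kernel)
                 (CovZ.n2 (2840, 28160) (by decide +kernel)
                  (CovZ.n2 (2820, 28180) (by decide +kernel)
                   (CovZ.leaf K2_ok TE_l8588 _)
                   (CovZ.leaf K2_ok TE_l8589 _))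
                  (CovZ.n1 (2860, 28180) (by decide +kernel)
                   (CovZ.leaf K2_ok TE_l8590 _)
                   (CovZ.leaf K2_ok TE_l8591 _)))
                 (CovZ.subM 19807418491673942064654975104 (by decide +kernel)
                  (CovZ.n1 (2800, 28200) (by decide +kernel)
                   (CovZ.n2 (2820, 28220) (by decide +kernel)
                    (CovZ.n2 (2820, 28200) (by decide +kernel)
                     (CovZ.leaf K2_ok TE_l8592 _)
                     (CovZ.n1 (2830, 28210) (by decide +kernel)
                      (CovZ.leaf K2_ok TE_l8593 _)
                      (CovZ.leaf K2_ok TE_l8594 _)))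
                    (CovZ.subM 19807040628566084398385987712 (by decide +kernel)
                     (CovZ.n1 (2800, 28220) (by decide +kernel)
                      (CovZ.n2 (2810, 28230) (by decide +kernel)
                       (CovZ.leaf K2_ok TE_l17614 _)
                       (CovZ.n1 (2800, 28230) (by decide +kernel)
                        (CovZ.n2 (2805, 28235) (by decide +kernel)
                         (CovZ.leaf K2_ok TE_l17615 _)
                         (CovZ.leaf K2_ok TE_l17616 _))
                        (CovZ.leaf K2_ok TE_l17617 _)))
                      (CovZ.n1 (2810, 28210) (by decide +kernel)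
                       (CovZ.leaf K2_ok TE_l8595 _)
                       (CovZ.leaf K2_ok TE_l17618 _)))))
                   (CovZ.n1 (2820, 28180) (by decide +kernel)
                    (CovZ.n2 (2800, 28180) (by decide +kernel)
                     (CovZ.leaf K2_ok TE_l8596 _)
                     (CovZ.leaf K2_ok TE_l8597 _))
                    (CovZ.leaf K2_ok TE_l8598 _)))))))
              (CovZ.subM 196159429436357441619527940421847766600151669474315993216 (by decide +kernel)
               (CovZ.n1 (2720, 28240) (by decide +kernel)
                (CovZ.badM (by decide +kernel))
                (CovZ.subM 377789318629571617095808 (by decide +kernel)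
                 (CovZ.n1 (2760, 28200) (by decide +kernel)
                  (CovZ.n2 (2720, 28200) (by decide +kernel)
                   (CovZ.badM (by decide +kernel))
                   (CovZ.n1 (2740, 28180) (by decide +kernel)
                    (CovZ.n2 (2720, 28180) (by decide +kernel)
                     (CovZ.n2 (2730, 28190) (by decide +kernel)
                      (CovZ.leaf K2_ok TE_l17619 _)
                      (CovZ.badM (by decide +kernel)))
                     (CovZ.n1 (2730, 28170) (by decide +kernel)
                      (CovZ.leaf K2_ok TE_l8599 _)
                      (CovZ.leaf K2_ok TE_l8600 _)))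
                    (CovZ.n1 (2740, 28200) (by decide +kernel)
                     (CovZ.n2 (2750, 28190) (by decide +kernel)
                      (CovZ.leaf K2_ok TE_l17620 _)
                      (CovZ.n1 (2750, 28200) (by decide +kernel)
                       (CovZ.leaf K2_ok TE_l17621 _)
                       (CovZ.leaf K2_ok TE_l17622 _)))
                     (CovZ.n1 (2730, 28190) (by decide +kernel)
                      (CovZ.n2 (2730, 28200) (by decide +kernel)
                       (CovZ.leaf K2_ok TE_l17623 _)
                       (CovZ.badM (by decide +kernel)))
                      (CovZ.leaf K2_ok TE_l17624 _)))))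
                  (CovZ.badM (by decide +kernel))))))))

theorem TE_u135 : CovZ TE_M (toL (selN TE_LN 2216405487107638523124103130522231176977909278289655274415536)) [0, 7, 6, 1] (3200, 28160) (3040, 28320) (2880, 28160) :=
    (CovZ.n2 (3040, 28160) (by decide +kernel)
            (CovZ.subM 1814474816169152389360558924440916076254075213376170647102640 (by decide +kernel)
             (CovZ.n2 (2960, 28240) (by decide +kernel)
              (CovZ.n2 (3040, 28240) (by decide +kernel)
               (CovZ.n2 (3000, 28200) (by decide +kernel)
                (CovZ.n2 (3000, 28240) (by decide +kernel)
                 (CovZ.leaf K2_ok TE_l8601 _)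
                 (CovZ.n1 (2980, 28220) (by decide +kernel)
                  (CovZ.leaf K2_ok TE_l8602 _)
                  (CovZ.leaf K2_ok TE_l8603 _)))
                (CovZ.leaf K2_ok TE_l8604 _))
               (CovZ.n1 (3000, 28280) (by decide +kernel)
                (CovZ.n2 (3040, 28280) (by decide +kernel)
                 (CovZ.n2 (3020, 28260) (by decide +kernel)
                  (CovZ.leaf K2_ok TE_l8605 _)
                  (CovZ.leaf K2_ok TE_l8606 _))
                 (CovZ.n1 (3020, 28300) (by decide +kernel)
                  (CovZ.leaf K2_ok TE_l8607 _)
                  (CovZ.leaf K2_ok TE_l8608 _)))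
                (CovZ.n1 (3000, 28240) (by decide +kernel)
                 (CovZ.n2 (2980, 28260) (by decide +kernel)
                  (CovZ.leaf K2_ok TE_l8609 _)
                  (CovZ.leaf K2_ok TE_l8610 _))
                 (CovZ.n1 (3020, 28260) (by decide +kernel)
                  (CovZ.leaf K2_ok TE_l8611 _)
                  (CovZ.leaf K2_ok TE_l8612 _)))))
              (CovZ.n1 (2960, 28160) (by decide +kernel)
               (CovZ.n2 (2920, 28200) (by decide +kernel)
                (CovZ.n2 (2960, 28200) (by decide +kernel)
                 (CovZ.leaf K2_ok TE_l8613 _)
                 (CovZ.leaf K2_ok TE_l8614 _))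
                (CovZ.n1 (2920, 28160) (by decide +kernel)
                 (CovZ.leaf K2_ok TE_l8615 _)
                 (CovZ.leaf K2_ok TE_l8616 _)))
               (CovZ.n1 (3000, 28200) (by decide +kernel)
                (CovZ.leaf K2_ok TE_l8617 _)
                (CovZ.n1 (2960, 28200) (by decide +kernel)
                 (CovZ.n2 (2980, 28220) (by decide +kernel)
                  (CovZ.leaf K2_ok TE_l8618 _)
                  (CovZ.leaf K2_ok TE_l8619 _))
                 (CovZ.leaf K2_ok TE_l8620 _))))))
            (CovZ.n1 (3120, 28240) (by decide +kernel)
             (CovZ.n2 (3120, 28160) (by decide +kernel)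
              (CovZ.n2 (3080, 28200) (by decide +kernel)
               (CovZ.leaf K2_ok TE_l8621 _)
               (CovZ.leaf K2_ok TE_l8622 _))
              (CovZ.n1 (3160, 28200) (by decide +kernel)
               (CovZ.leaf K2_ok TE_l8623 _)
               (CovZ.leaf K2_ok TE_l8624 _)))
             (CovZ.subM 1814474816169152390057457211894998049427066121166055826007216 (by decide +kernel)
              (CovZ.n1 (3040, 28240) (by decide +kernel)
               (CovZ.n2 (3080, 28280) (by decide +kernel)
                (CovZ.n2 (3080, 28240) (by decide +kernel)
                 (CovZ.leaf K2_ok TE_l8625 _)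
                 (CovZ.leaf K2_ok TE_l8626 _))
                (CovZ.n1 (3040, 28280) (by decide +kernel)
                 (CovZ.n2 (3060, 28300) (by decide +kernel)
                  (CovZ.leaf K2_ok TE_l8627 _)
                  (CovZ.n1 (3040, 28300) (by decide +kernel)
                   (CovZ.leaf K2_ok TE_l8628 _)
                   (CovZ.leaf K2_ok TE_l8629 _)))
                 (CovZ.leaf K2_ok TE_l8630 _)))
               (CovZ.n1 (3080, 28200) (by decide +kernel)
                (CovZ.n2 (3040, 28200) (by decide +kernel)
                 (CovZ.leaf K2_ok TE_l8631 _)
                 (CovZ.leaf K2_ok TE_l8632 _))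
                (CovZ.n1 (3080, 28240) (by decide +kernel)
                 (CovZ.leaf K2_ok TE_l8633 _)
                 (CovZ.leaf K2_ok TE_l8634 _)))))))

theorem TE_u136 : CovZ TE_M (toL (selN TE_LN 2216405487107638523124103130522231176977909278289655274415536)) [0, 7, 6, 1] (3040, 28320) (2880, 28480) (2880, 28160) :=
    (CovZ.subM 402126829923209236435953188706468209313936604856678260679856 (by decide +kernel)
            (CovZ.n1 (2880, 28320) (by decide +kernel)
             (CovZ.subM 402126829923209236435953188706468207689405350779196922659840 (by decide +kernel)
              (CovZ.n2 (2960, 28400) (by decide +kernel)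
               (CovZ.n2 (2960, 28320) (by decide +kernel)
                (CovZ.badM (by decide +kernel))
                (CovZ.n1 (3000, 28360) (by decide +kernel)
                 (CovZ.n2 (3000, 28320) (by decide +kernel)
                  (CovZ.badM (by decide +kernel))
                  (CovZ.n1 (3020, 28340) (by decide +kernel)
                   (CovZ.n2 (3020, 28320) (by decide +kernel)
                    (CovZ.badM (by decide +kernel))
                    (CovZ.n1 (3030, 28330) (by decide +kernel)
                     (CovZ.leaf K2_ok TE_l17625 _)
                     (CovZ.badM (by decide +kernel))))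
                   (CovZ.badM (by decide +kernel))))
                 (CovZ.badM (by decide +kernel))))
               (CovZ.n1 (2880, 28400) (by decide +kernel)
                (CovZ.badM (by decide +kernel))
                (CovZ.badM (by decide +kernel)))))
             (CovZ.n1 (2960, 28240) (by decide +kernel)
              (CovZ.n2 (2880, 28240) (by decide +kernel)
               (CovZ.n2 (2920, 28280) (by decide +kernel)
                (CovZ.n2 (2920, 28240) (by decide +kernel)
                 (CovZ.subM 1246815720172404745445392 (by decide +kernel)
                  (CovZ.n2 (2900, 28260) (by decide +kernel)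
                   (CovZ.n2 (2920, 28260) (by decide +kernel)
                    (CovZ.n2 (2910, 28250) (by decide +kernel)
                     (CovZ.leaf K2_ok TE_l8635 _)
                     (CovZ.leaf K2_ok TE_l8636 _))
                    (CovZ.n1 (2910, 28270) (by decide +kernel)
                     (CovZ.leaf K2_ok TE_l8637 _)
                     (CovZ.leaf K2_ok TE_l8638 _)))
                   (CovZ.n1 (2900, 28240) (by decide +kernel)
                    (CovZ.leaf K2_ok TE_l8639 _)
                    (CovZ.leaf K2_ok TE_l8640 _))))
                 (CovZ.n1 (2940, 28260) (by decide +kernel)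
                  (CovZ.leaf K2_ok TE_l8641 _)
                  (CovZ.n1 (2920, 28260) (by decide +kernel)
                   (CovZ.n2 (2930, 28270) (by decide +kernel)
                    (CovZ.leaf K2_ok TE_l8642 _)
                    (CovZ.leaf K2_ok TE_l8643 _))
                   (CovZ.leaf K2_ok TE_l8644 _))))
                (CovZ.subM 1246815720172404745437200 (by decide +kernel)
                 (CovZ.n1 (2880, 28280) (by decide +kernel)
                  (CovZ.n2 (2900, 28300) (by decide +kernel)
                   (CovZ.n2 (2900, 28280) (by decide +kernel)
                    (CovZ.badM (by decide +kernel))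
                    (CovZ.badM (by decide +kernel)))
                   (CovZ.badM (by decide +kernel)))
                  (CovZ.n1 (2900, 28260) (by decide +kernel)
                   (CovZ.n2 (2880, 28260) (by decide +kernel)
                    (CovZ.n2 (2890, 28270) (by decide +kernel)
                     (CovZ.leaf K2_ok TE_l17626 _)
                     (CovZ.n1 (2880, 28270) (by decide +kernel)
                      (CovZ.n2 (2885, 28275) (by decide +kernel)
                       (CovZ.leaf K2_ok TE_l17627 _)
                       (CovZ.leaf K2_ok TE_l17628 _))
                      (CovZ.leaf K2_ok TE_l17629 _)))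
                    (CovZ.n1 (2890, 28250) (by decide +kernel)
                     (CovZ.leaf K2_ok TE_l17630 _)
                     (CovZ.leaf K2_ok TE_l8645 _)))
                   (CovZ.n1 (2900, 28280) (by decide +kernel)
                    (CovZ.n2 (2910, 28270) (by decide +kernel)
                     (CovZ.leaf K2_ok TE_l17631 _)
                     (CovZ.leaf K2_ok TE_l17632 _))
                    (CovZ.n1 (2890, 28270) (by decide +kernel)
                     (CovZ.subM 37778931862957161709584 (by decide +kernel)
                      (CovZ.n2 (2890, 28280) (by decide +kernel)
                       (CovZ.n2 (2895, 28275) (by decide +kernel)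
                        (CovZ.leaf K2_ok TE_l17633 _)
                        (CovZ.badM (by decide +kernel)))
                       (CovZ.n1 (2885, 28275) (by decide +kernel)
                        (CovZ.badM (by decide +kernel))
                        (CovZ.leaf K2_ok TE_l17634 _))))
                     (CovZ.leaf K2_ok TE_l17635 _)))))))
               (CovZ.n1 (2920, 28200) (by decide +kernel)
                (CovZ.n2 (2880, 28200) (by decide +kernel)
                 (CovZ.n2 (2900, 28220) (by decide +kernel)
                  (CovZ.leaf K2_ok TE_l8646 _)
                  (CovZ.n1 (2880, 28220) (by decide +kernel)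
                   (CovZ.leaf K2_ok TE_l8647 _)
                   (CovZ.leaf K2_ok TE_l8648 _)))
                 (CovZ.leaf K2_ok TE_l8649 _))
                (CovZ.n1 (2920, 28240) (by decide +kernel)
                 (CovZ.n2 (2940, 28220) (by decide +kernel)
                  (CovZ.leaf K2_ok TE_l8650 _)
                  (CovZ.leaf K2_ok TE_l8651 _))
                 (CovZ.n1 (2900, 28220) (by decide +kernel)
                  (CovZ.leaf K2_ok TE_l8652 _)
                  (CovZ.leaf K2_ok TE_l8653 _)))))
              (CovZ.n1 (2960, 28320) (by decide +kernel)
               (CovZ.n2 (3000, 28280) (by decide +kernel)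
                (CovZ.n2 (2960, 28280) (by decide +kernel)
                 (CovZ.subM 392318858461667550462665580612739098256012963190547678208 (by decide +kernel)
                  (CovZ.n2 (2980, 28300) (by decide +kernel)
                   (CovZ.n2 (2980, 28280) (by decide +kernel)
                    (CovZ.n2 (2970, 28290) (by decide +kernel)
                     (CovZ.leaf K2_ok TE_l8654 _)
                     (CovZ.leaf K2_ok TE_l8655 _))
                    (CovZ.n1 (2990, 28290) (by decide +kernel)
                     (CovZ.leaf K2_ok TE_l8656 _)
                     (CovZ.leaf K2_ok TE_l8657 _)))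
                   (CovZ.subM 1208999606590924012912640 (by decide +kernel)
                    (CovZ.n1 (2960, 28300) (by decide +kernel)
                     (CovZ.n2 (2970, 28310) (by decide +kernel)
                      (CovZ.leaf K2_ok TE_l8658 _)
                      (CovZ.badM (by decide +kernel)))
                     (CovZ.n1 (2970, 28290) (by decide +kernel)
                      (CovZ.leaf K2_ok TE_l8659 _)
                      (CovZ.leaf K2_ok TE_l8660 _))))))
                 (CovZ.n1 (2980, 28260) (by decide +kernel)
                  (CovZ.n2 (2960, 28260) (by decide +kernel)
                   (CovZ.leaf K2_ok TE_l8661 _)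
                   (CovZ.leaf K2_ok TE_l8662 _))
                  (CovZ.n1 (2980, 28280) (by decide +kernel)
                   (CovZ.leaf K2_ok TE_l8663 _)
                   (CovZ.leaf K2_ok TE_l8664 _))))
                (CovZ.subM 392318858461667550462665580612739098256012963190547678208 (by decide +kernel)
                 (CovZ.n1 (3000, 28320) (by decide +kernel)
                  (CovZ.n2 (3020, 28300) (by decide +kernel)
                   (CovZ.n2 (3000, 28300) (by decide +kernel)
                    (CovZ.n2 (3010, 28310) (by decide +kernel)
                     (CovZ.leaf K2_ok TE_l8665 _)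
                     (CovZ.badM (by decide +kernel)))
                    (CovZ.leaf K2_ok TE_l8666 _))
                   (CovZ.n1 (3020, 28320) (by decide +kernel)
                    (CovZ.leaf K2_ok TE_l8667 _)
                    (CovZ.n1 (3010, 28310) (by decide +kernel)
                     (CovZ.badM (by decide +kernel))
                     (CovZ.leaf K2_ok TE_l8668 _))))
                  (CovZ.n1 (2980, 28300) (by decide +kernel)
                   (CovZ.subM 73786976294838206464 (by decide +kernel)
                    (CovZ.n2 (2980, 28320) (by decide +kernel)
                     (CovZ.n2 (2990, 28310) (by decide +kernel)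
                      (CovZ.n2 (2980, 28310) (by decide +kernel)
                       (CovZ.badM (by decide +kernel))
                       (CovZ.leaf K2_ok TE_l17636 _))
                      (CovZ.badM (by decide +kernel)))
                     (CovZ.n1 (2970, 28310) (by decide +kernel)
                      (CovZ.badM (by decide +kernel))
                      (CovZ.leaf K2_ok TE_l8669 _))))
                   (CovZ.n1 (3000, 28300) (by decide +kernel)
                    (CovZ.n2 (2990, 28290) (by decide +kernel)
                     (CovZ.leaf K2_ok TE_l17637 _)
                     (CovZ.leaf K2_ok TE_l8670 _))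
                    (CovZ.n1 (2990, 28310) (by decide +kernel)
                     (CovZ.badM (by decide +kernel))
                     (CovZ.leaf K2_ok TE_l17638 _)))))))
               (CovZ.n1 (2920, 28280) (by decide +kernel)
                (CovZ.subM 32 (by decide +kernel)
                 (CovZ.n2 (2920, 28320) (by decide +kernel)
                  (CovZ.n2 (2940, 28300) (by decide +kernel)
                   (CovZ.n2 (2920, 28300) (by decide +kernel)
                    (CovZ.badM (by decide +kernel))
                    (CovZ.n1 (2930, 28290) (by decide +kernel)
                     (CovZ.n2 (2920, 28290) (by decide +kernel)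
                      (CovZ.badM (by decide +kernel))
                      (CovZ.leaf K2_ok TE_l17639 _))
                     (CovZ.badM (by decide +kernel))))
                   (CovZ.badM (by decide +kernel)))
                  (CovZ.badM (by decide +kernel))))
                (CovZ.n1 (2960, 28280) (by decide +kernel)
                 (CovZ.n2 (2940, 28260) (by decide +kernel)
                  (CovZ.n2 (2940, 28280) (by decide +kernel)
                   (CovZ.leaf K2_ok TE_l8671 _)
                   (CovZ.n1 (2930, 28270) (by decide +kernel)
                    (CovZ.leaf K2_ok TE_l17640 _)
                    (CovZ.leaf K2_ok TE_l8672 _)))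
                  (CovZ.n1 (2960, 28260) (by decide +kernel)
                   (CovZ.leaf K2_ok TE_l8673 _)
                   (CovZ.leaf K2_ok TE_l8674 _)))
                 (CovZ.subM 1208999606590924012912672 (by decide +kernel)
                  (CovZ.n1 (2940, 28300) (by decide +kernel)
                   (CovZ.n2 (2960, 28300) (by decide +kernel)
                    (CovZ.n2 (2950, 28290) (by decide +kernel)
                     (CovZ.badM (by decide +kernel))
                     (CovZ.leaf K2_ok TE_l8675 _))
                    (CovZ.badM (by decide +kernel)))
                   (CovZ.n1 (2940, 28280) (by decide +kernel)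
                    (CovZ.n2 (2930, 28290) (by decide +kernel)
                     (CovZ.badM (by decide +kernel))
                     (CovZ.leaf K2_ok TE_l17641 _))
                    (CovZ.n1 (2950, 28290) (by decide +kernel)
                     (CovZ.leaf K2_ok TE_l8676 _)
                     (CovZ.badM (by decide +kernel))))))))))))

theorem TE_u137 : CovZ TE_M (toL (selN TE_LN 2209539908554590209881550834288726101336785199175367726730240)) [0, 7, 6, 1] (3520, 28480) (3360, 28480) (3360, 28320) :=
    (CovZ.n2 (3440, 28400) (by decide +kernel)
              (CovZ.n2 (3360, 28400) (by decide +kernel)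
               (CovZ.subM 1606938045755567953911563155076856459356332410857640593197056 (by decide +kernel)
                (CovZ.n2 (3400, 28440) (by decide +kernel)
                 (CovZ.n2 (3400, 28400) (by decide +kernel)
                  (CovZ.n2 (3380, 28420) (by decide +kernel)
                   (CovZ.leaf K2_ok TE_l8794 _)
                   (CovZ.leaf K2_ok TE_l8795 _))
                  (CovZ.n1 (3420, 28420) (by decide +kernel)
                   (CovZ.leaf K2_ok TE_l8796 _)
                   (CovZ.leaf K2_ok TE_l8797 _)))
                 (CovZ.n1 (3360, 28440) (by decide +kernel)
                  (CovZ.subM 332306998946228968225951765070088192 (by decide +kernel)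
                   (CovZ.n2 (3380, 28460) (by decide +kernel)
                    (CovZ.n2 (3380, 28440) (by decide +kernel)
                     (CovZ.leaf K2_ok TE_l8798 _)
                     (CovZ.n1 (3390, 28450) (by decide +kernel)
                      (CovZ.leaf K2_ok TE_l8799 _)
                      (CovZ.leaf K2_ok TE_l8800 _)))
                    (CovZ.n1 (3360, 28460) (by decide +kernel)
                     (CovZ.badM (by decide +kernel))
                     (CovZ.leaf K2_ok TE_l8801 _))))
                  (CovZ.n1 (3380, 28420) (by decide +kernel)
                   (CovZ.leaf K2_ok TE_l8802 _)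
                   (CovZ.leaf K2_ok TE_l8803 _)))))
               (CovZ.n1 (3400, 28360) (by decide +kernel)
                (CovZ.n2 (3360, 28360) (by decide +kernel)
                 (CovZ.leaf K2_ok TE_l8804 _)
                 (CovZ.leaf K2_ok TE_l8805 _))
                (CovZ.n1 (3400, 28400) (by decide +kernel)
                 (CovZ.leaf K2_ok TE_l8806 _)
                 (CovZ.leaf K2_ok TE_l8807 _))))
              (CovZ.subM 1606938044258990275541962424648161548826729087965171367806976 (by decide +kernel)
               (CovZ.n1 (3440, 28480) (by decide +kernel)
                (CovZ.n2 (3480, 28440) (by decide +kernel)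
                 (CovZ.n2 (3440, 28440) (by decide +kernel)
                  (CovZ.subM 75557863725914323421184 (by decide +kernel)
                   (CovZ.n2 (3460, 28460) (by decide +kernel)
                    (CovZ.leaf K2_ok TE_l8808 _)
                    (CovZ.n1 (3440, 28460) (by decide +kernel)
                     (CovZ.badM (by decide +kernel))
                     (CovZ.n1 (3450, 28450) (by decide +kernel)
                      (CovZ.leaf K2_ok TE_l8809 _)
                      (CovZ.badM (by decide +kernel))))))
                  (CovZ.n1 (3460, 28420) (by decide +kernel)
                   (CovZ.leaf K2_ok TE_l8811 _)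
                   (CovZ.leaf K2_ok TE_l8812 _)))
                 (CovZ.subM 75557863725914323421184 (by decide +kernel)
                  (CovZ.n1 (3480, 28480) (by decide +kernel)
                   (CovZ.n2 (3500, 28460) (by decide +kernel)
                    (CovZ.n2 (3480, 28460) (by decide +kernel)
                     (CovZ.badM (by decide +kernel))
                     (CovZ.leaf K2_ok TE_l8813 _))
                    (CovZ.badM (by decide +kernel)))
                   (CovZ.n1 (3460, 28460) (by decide +kernel)
                    (CovZ.badM (by decide +kernel))
                    (CovZ.n1 (3480, 28460) (by decide +kernel)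
                     (CovZ.n2 (3470, 28450) (by decide +kernel)
                      (CovZ.badM (by decide +kernel))
                      (CovZ.leaf K2_ok TE_l8815 _))
                     (CovZ.badM (by decide +kernel)))))))
                (CovZ.n1 (3400, 28440) (by decide +kernel)
                 (CovZ.subM 332306998946228968225951765070088192 (by decide +kernel)
                  (CovZ.n2 (3400, 28480) (by decide +kernel)
                   (CovZ.n2 (3420, 28460) (by decide +kernel)
                    (CovZ.n2 (3400, 28460) (by decide +kernel)
                     (CovZ.badM (by decide +kernel))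
                     (CovZ.leaf K2_ok TE_l8817 _))
                    (CovZ.badM (by decide +kernel)))
                   (CovZ.n1 (3380, 28460) (by decide +kernel)
                    (CovZ.badM (by decide +kernel))
                    (CovZ.n1 (3400, 28460) (by decide +kernel)
                     (CovZ.n2 (3390, 28450) (by decide +kernel)
                      (CovZ.badM (by decide +kernel))
                      (CovZ.leaf K2_ok TE_l8819 _))
                     (CovZ.badM (by decide +kernel))))))
                 (CovZ.n1 (3440, 28440) (by decide +kernel)
                  (CovZ.n2 (3420, 28420) (by decide +kernel)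
                   (CovZ.leaf K2_ok TE_l8820 _)
                   (CovZ.leaf K2_ok TE_l8821 _))
                  (CovZ.subM 332306998946228968225951765070088192 (by decide +kernel)
                   (CovZ.n1 (3420, 28460) (by decide +kernel)
                    (CovZ.n2 (3440, 28460) (by decide +kernel)
                     (CovZ.n2 (3430, 28450) (by decide +kernel)
                      (CovZ.badM (by decide +kernel))
                      (CovZ.leaf K2_ok TE_l8823 _))
                     (CovZ.badM (by decide +kernel)))
                    (CovZ.leaf K2_ok TE_l8824 _))))))))

theorem TE_u138 : CovZ TE_M (toL (selN TE_LN 2209539908554590209881550834288726101336785199175367726730240)) [0, 7, 6, 1] (3360, 28480) (3200, 28480) (3360, 28320) :=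
    (CovZ.n1 (3280, 28400) (by decide +kernel)
              (CovZ.n2 (3280, 28480) (by decide +kernel)
               (CovZ.n2 (3320, 28440) (by decide +kernel)
                (CovZ.n2 (3280, 28440) (by decide +kernel)
                 (CovZ.subM 97698472872020496065947093805533972409190363135213568 (by decide +kernel)
                  (CovZ.n2 (3300, 28460) (by decide +kernel)
                   (CovZ.n2 (3300, 28440) (by decide +kernel)
                    (CovZ.n2 (3290, 28450) (by decide +kernel)
                     (CovZ.n2 (3300, 28450) (by decide +kernel)
                      (CovZ.leaf K2_ok TE_l17660 _)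
                      (CovZ.leaf K2_ok TE_l17661 _))
                     (CovZ.n1 (3290, 28440) (by decide +kernel)
                      (CovZ.leaf K2_ok TE_l17662 _)
                      (CovZ.n1 (3295, 28445) (by decide +kernel)
                       (CovZ.leaf K2_ok TE_l17663 _)
                       (CovZ.leaf K2_ok TE_l17664 _))))
                    (CovZ.n1 (3310, 28450) (by decide +kernel)
                     (CovZ.leaf K2_ok TE_l17665 _)
                     (CovZ.n1 (3300, 28450) (by decide +kernel)
                      (CovZ.n2 (3305, 28455) (by decide +kernel)
                       (CovZ.leaf K2_ok TE_l17666 _)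
                       (CovZ.leaf K2_ok TE_l17667 _))
                      (CovZ.leaf K2_ok TE_l17668 _))))
                   (CovZ.subM 95780971304466843073490651121944282953292357180588032 (by decide +kernel)
                    (CovZ.n1 (3280, 28460) (by decide +kernel)
                     (CovZ.badM (by decide +kernel))
                     (CovZ.n1 (3290, 28450) (by decide +kernel)
                      (CovZ.n2 (3280, 28450) (by decide +kernel)
                       (CovZ.n2 (3285, 28455) (by decide +kernel)
                        (CovZ.leaf K2_ok TE_l19629 _)
                        (CovZ.badM (by decide +kernel)))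
                       (CovZ.n1 (3285, 28445) (by decide +kernel)
                        (CovZ.leaf K2_ok TE_l17669 _)
                        (CovZ.leaf K2_ok TE_l19630 _)))
                      (CovZ.n1 (3290, 28460) (by decide +kernel)
                       (CovZ.n2 (3295, 28455) (by decide +kernel)
                        (CovZ.n2 (3290, 28455) (by decide +kernel)
                         (CovZ.badM (by decide +kernel))
                         (CovZ.leaf K2_ok TE_l19631 _))
                        (CovZ.badM (by decide +kernel)))
                       (CovZ.n1 (3285, 28455) (by decide +kernel)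
                        (CovZ.badM (by decide +kernel))
                        (CovZ.leaf K2_ok TE_l19632 _))))))))
                 (CovZ.n1 (3300, 28420) (by decide +kernel)
                  (CovZ.n2 (3280, 28420) (by decide +kernel)
                   (CovZ.n2 (3290, 28430) (by decide +kernel)
                    (CovZ.leaf K2_ok TE_l8825 _)
                    (CovZ.n1 (3280, 28430) (by decide +kernel)
                     (CovZ.leaf K2_ok TE_l17670 _)
                     (CovZ.leaf K2_ok TE_l17671 _)))
                   (CovZ.leaf K2_ok TE_l8826 _))
                  (CovZ.subM 1606938141957468856553228982148063050803704871377648752787456 (by decide +kernel)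
                   (CovZ.n1 (3300, 28440) (by decide +kernel)
                    (CovZ.n2 (3310, 28430) (by decide +kernel)
                     (CovZ.leaf K2_ok TE_l8827 _)
                     (CovZ.leaf K2_ok TE_l8828 _))
                    (CovZ.n1 (3290, 28430) (by decide +kernel)
                     (CovZ.leaf K2_ok TE_l8829 _)
                     (CovZ.leaf K2_ok TE_l8830 _))))))
                (CovZ.subM 1917501567902102136183483670176185053907037091528704 (by decide +kernel)
                 (CovZ.n1 (3320, 28480) (by decide +kernel)
                  (CovZ.n2 (3340, 28460) (by decide +kernel)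
                   (CovZ.n2 (3320, 28460) (by decide +kernel)
                    (CovZ.n2 (3330, 28470) (by decide +kernel)
                     (CovZ.n2 (3330, 28460) (by decide +kernel)
                      (CovZ.leaf K2_ok TE_l19633 _)
                      (CovZ.badM (by decide +kernel)))
                     (CovZ.badM (by decide +kernel)))
                    (CovZ.n1 (3330, 28450) (by decide +kernel)
                     (CovZ.n2 (3320, 28450) (by decide +kernel)
                      (CovZ.leaf K2_ok TE_l19634 _)
                      (CovZ.leaf K2_ok TE_l17672 _))
                     (CovZ.n1 (3330, 28460) (by decide +kernel)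
                      (CovZ.badM (by decide +kernel))
                      (CovZ.n1 (3325, 28455) (by decide +kernel)
                       (CovZ.leaf K2_ok TE_l19635 _)
                       (CovZ.leaf K2_ok TE_l19636 _)))))
                   (CovZ.badM (by decide +kernel)))
                  (CovZ.n1 (3300, 28460) (by decide +kernel)
                   (CovZ.badM (by decide +kernel))
                   (CovZ.n1 (3320, 28460) (by decide +kernel)
                    (CovZ.n2 (3310, 28450) (by decide +kernel)
                     (CovZ.subM 11418330160932592085223306439340077931001020416 (by decide +kernel)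
                      (CovZ.n2 (3310, 28460) (by decide +kernel)
                       (CovZ.n2 (3315, 28455) (by decide +kernel)
                        (CovZ.leaf K2_ok TE_l17673 _)
                        (CovZ.leaf K2_ok TE_l19637 _))
                       (CovZ.n1 (3305, 28455) (by decide +kernel)
                        (CovZ.badM (by decide +kernel))
                        (CovZ.leaf K2_ok TE_l17674 _))))
                     (CovZ.n1 (3320, 28450) (by decide +kernel)
                      (CovZ.leaf K2_ok TE_l17675 _)
                      (CovZ.leaf K2_ok TE_l17676 _)))
                    (CovZ.n1 (3310, 28470) (by decide +kernel)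
                     (CovZ.badM (by decide +kernel))
                     (CovZ.n1 (3310, 28460) (by decide +kernel)
                      (CovZ.badM (by decide +kernel))
                      (CovZ.badM (by decide +kernel)))))))))
               (CovZ.n1 (3240, 28440) (by decide +kernel)
                (CovZ.badM (by decide +kernel))
                (CovZ.n1 (3280, 28440) (by decide +kernel)
                 (CovZ.n2 (3260, 28420) (by decide +kernel)
                  (CovZ.subM 1606938141957468855159432407239899104457722479336026647035904 (by decide +kernel)
                   (CovZ.n2 (3260, 28440) (by decide +kernel)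
                    (CovZ.n2 (3270, 28430) (by decide +kernel)
                     (CovZ.n2 (3260, 28430) (by decide +kernel)
                      (CovZ.n2 (3265, 28435) (by decide +kernel)
                       (CovZ.leaf K2_ok TE_l17677 _)
                       (CovZ.leaf K2_ok TE_l19638 _))
                      (CovZ.leaf K2_ok TE_l17678 _))
                     (CovZ.n1 (3270, 28440) (by decide +kernel)
                      (CovZ.n2 (3275, 28435) (by decide +kernel)
                       (CovZ.leaf K2_ok TE_l17679 _)
                       (CovZ.leaf K2_ok TE_l17680 _))
                      (CovZ.n1 (3265, 28435) (by decide +kernel)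
                       (CovZ.badM (by decide +kernel))
                       (CovZ.leaf K2_ok TE_l17681 _))))
                    (CovZ.n1 (3250, 28430) (by decide +kernel)
                     (CovZ.subM 5708990770823839524233143877797980545530986496 (by decide +kernel)
                      (CovZ.n2 (3250, 28440) (by decide +kernel)
                       (CovZ.n2 (3255, 28435) (by decide +kernel)
                        (CovZ.leaf K2_ok TE_l19639 _)
                        (CovZ.badM (by decide +kernel)))
                       (CovZ.n1 (3245, 28435) (by decide +kernel)
                        (CovZ.badM (by decide +kernel))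
                        (CovZ.leaf K2_ok TE_l19640 _))))
                     (CovZ.n1 (3260, 28430) (by decide +kernel)
                      (CovZ.leaf K2_ok TE_l17682 _)
                      (CovZ.leaf K2_ok TE_l19641 _)))))
                  (CovZ.n1 (3280, 28420) (by decide +kernel)
                   (CovZ.n2 (3270, 28410) (by decide +kernel)
                    (CovZ.leaf K2_ok TE_l8831 _)
                    (CovZ.leaf K2_ok TE_l8832 _))
                   (CovZ.n1 (3270, 28430) (by decide +kernel)
                    (CovZ.n2 (3280, 28430) (by decide +kernel)
                     (CovZ.leaf K2_ok TE_l17683 _)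
                     (CovZ.leaf K2_ok TE_l17684 _))
                    (CovZ.leaf K2_ok TE_l8833 _))))
                 (CovZ.subM 95780971304466843073490651121944282953292357180588032 (by decide +kernel)
                  (CovZ.n1 (3260, 28460) (by decide +kernel)
                   (CovZ.n2 (3280, 28460) (by decide +kernel)
                    (CovZ.n2 (3270, 28450) (by decide +kernel)
                     (CovZ.badM (by decide +kernel))
                     (CovZ.n1 (3280, 28450) (by decide +kernel)
                      (CovZ.n2 (3275, 28445) (by decide +kernel)
                       (CovZ.badM (by decide +kernel))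
                       (CovZ.leaf K2_ok TE_l17685 _))
                      (CovZ.badM (by decide +kernel))))
                    (CovZ.badM (by decide +kernel)))
                   (CovZ.n1 (3260, 28440) (by decide +kernel)
                    (CovZ.badM (by decide +kernel))
                    (CovZ.n1 (3270, 28450) (by decide +kernel)
                     (CovZ.n2 (3270, 28440) (by decide +kernel)
                      (CovZ.badM (by decide +kernel))
                      (CovZ.n1 (3275, 28445) (by decide +kernel)
                       (CovZ.leaf K2_ok TE_l17686 _)
                       (CovZ.badM (by decide +kernel))))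
                     (CovZ.badM (by decide +kernel)))))))))
              (CovZ.n1 (3360, 28400) (by decide +kernel)
               (CovZ.n2 (3320, 28360) (by decide +kernel)
                (CovZ.n2 (3320, 28400) (by decide +kernel)
                 (CovZ.leaf K2_ok TE_l8834 _)
                 (CovZ.n1 (3300, 28380) (by decide +kernel)
                  (CovZ.leaf K2_ok TE_l8835 _)
                  (CovZ.leaf K2_ok TE_l8836 _)))
                (CovZ.n1 (3360, 28360) (by decide +kernel)
                 (CovZ.leaf K2_ok TE_l8837 _)
                 (CovZ.leaf K2_ok TE_l8838 _)))
               (CovZ.n1 (3320, 28440) (by decide +kernel)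
                (CovZ.n2 (3360, 28440) (by decide +kernel)
                 (CovZ.n2 (3340, 28420) (by decide +kernel)
                  (CovZ.n2 (3340, 28440) (by decide +kernel)
                   (CovZ.leaf K2_ok TE_l8839 _)
                   (CovZ.n1 (3330, 28430) (by decide +kernel)
                    (CovZ.leaf K2_ok TE_l8840 _)
                    (CovZ.leaf K2_ok TE_l8841 _)))
                  (CovZ.leaf K2_ok TE_l8842 _))
                 (CovZ.subM 200867257449881061335618221585935638238989896534378978215936 (by decide +kernel)
                  (CovZ.n1 (3340, 28460) (by decide +kernel)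
                   (CovZ.n2 (3360, 28460) (by decide +kernel)
                    (CovZ.n2 (3350, 28450) (by decide +kernel)
                     (CovZ.badM (by decide +kernel))
                     (CovZ.leaf K2_ok TE_l8843 _))
                    (CovZ.badM (by decide +kernel)))
                   (CovZ.n1 (3340, 28440) (by decide +kernel)
                    (CovZ.n2 (3330, 28450) (by decide +kernel)
                     (CovZ.leaf K2_ok TE_l8844 _)
                     (CovZ.leaf K2_ok TE_l8845 _))
                    (CovZ.n1 (3350, 28450) (by decide +kernel)
                     (CovZ.leaf K2_ok TE_l8846 _)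
                     (CovZ.badM (by decide +kernel)))))))
                (CovZ.n1 (3320, 28400) (by decide +kernel)
                 (CovZ.n2 (3300, 28420) (by decide +kernel)
                  (CovZ.n2 (3320, 28420) (by decide +kernel)
                   (CovZ.n2 (3310, 28410) (by decide +kernel)
                    (CovZ.leaf K2_ok TE_l8847 _)
                    (CovZ.leaf K2_ok TE_l8848 _))
                   (CovZ.leaf K2_ok TE_l8849 _))
                  (CovZ.leaf K2_ok TE_l8850 _))
                 (CovZ.n1 (3340, 28420) (by decide +kernel)
                  (CovZ.leaf K2_ok TE_l8851 _)
                  (CovZ.n1 (3320, 28420) (by decide +kernel)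
                   (CovZ.n2 (3330, 28430) (by decide +kernel)
                    (CovZ.leaf K2_ok TE_l8852 _)
                    (CovZ.leaf K2_ok TE_l8853 _))
                   (CovZ.leaf K2_ok TE_l8854 _)))))))

end Pool.Agent.TET
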