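import Pool.Agent.Helper38_TET.TE_M
import Pool.Agent.Helper38_TET.TE_L
import Pool.Agent.Helper38_TET.TE_57
import Pool.Agent.Helper38_TET.TE_58
import Pool.Agent.Helper38_TET.TE_59
import Pool.Agent.Helper38_TET.TE_60
import Pool.Agent.Helper38_TET.TE_61
import Pool.Agent.Helper38_TET.TE_118
import Pool.Agent.Helper38_TET.TE_119
import Pool.Agent.Helper38_TET.TE_120
import Pool.Agent.Helper38_TET.TE_121
import Pool.Agent.Helper38_TET.TE_132
import Pool.Agent.Helper38_TET.TE_U8

/-!
# MP_c7c9bf_co: certificates, family TE
-/

set_option autoImplicit false
set_option maxRecDepth 100000

namespace Pool.Agent.TET

theorem TE_u139 : CovZ TE_M (toL (selN TE_LN 2219347880016180425696216809530896426355190230056718986915504)) [0, 7, 6, 1] (3840, 28160) (3520, 28480) (3200, 28160) :=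
    (CovZ.n2 (3520, 28160) (by decide +kernel)
          (CovZ.n2 (3360, 28320) (by decide +kernel)
           (CovZ.n2 (3520, 28320) (by decide +kernel)
            (CovZ.n2 (3440, 28240) (by decide +kernel)
             (CovZ.subM 2018480528328636682563661662857285571190217987861906372701328 (by decide +kernel)
              (CovZ.n2 (3440, 28320) (by decide +kernel)
               (CovZ.n2 (3480, 28280) (by decide +kernel)
                (CovZ.leaf K2_ok TE_l8677 _)
                (CovZ.leaf K2_ok TE_l8678 _))
               (CovZ.n1 (3400, 28280) (by decide +kernel)
                (CovZ.leaf K2_ok TE_l8679 _)
                (CovZ.leaf K2_ok TE_l8680 _))))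
             (CovZ.n1 (3520, 28240) (by decide +kernel)
              (CovZ.leaf K2_ok TE_l8681 _)
              (CovZ.leaf K2_ok TE_l8682 _)))
            (CovZ.subM 2011811203515759637673241496537734649344442015353097175444480 (by decide +kernel)
             (CovZ.n1 (3440, 28400) (by decide +kernel)
              (CovZ.n2 (3520, 28400) (by decide +kernel)
               (CovZ.n2 (3480, 28360) (by decide +kernel)
                (CovZ.n2 (3480, 28400) (by decide +kernel)
                 (CovZ.leaf K2_ok TE_l8683 _)
                 (CovZ.leaf K2_ok TE_l8684 _))
                (CovZ.n1 (3520, 28360) (by decide +kernel)
                 (CovZ.leaf K2_ok TE_l8685 _)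
                 (CovZ.leaf K2_ok TE_l8686 _)))
               (CovZ.subM 1606938044258990275541962424648161550035654907579800576067584 (by decide +kernel)
                (CovZ.n1 (3480, 28440) (by decide +kernel)
                 (CovZ.n2 (3520, 28440) (by decide +kernel)
                  (CovZ.n2 (3500, 28420) (by decide +kernel)
                   (CovZ.leaf K2_ok TE_l8687 _)
                   (CovZ.leaf K2_ok TE_l8688 _))
                  (CovZ.subM 75557863725914323421184 (by decide +kernel)
                   (CovZ.n1 (3500, 28460) (by decide +kernel)
                    (CovZ.n2 (3520, 28460) (by decide +kernel)
                     (CovZ.n2 (3510, 28450) (by decide +kernel)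
                      (CovZ.leaf K2_ok TE_l8689 _)
                      (CovZ.leaf K2_ok TE_l8690 _))
                     (CovZ.leaf K2_ok TE_l17642 _))
                    (CovZ.n1 (3500, 28440) (by decide +kernel)
                     (CovZ.leaf K2_ok TE_l8691 _)
                     (CovZ.n1 (3510, 28450) (by decide +kernel)
                      (CovZ.leaf K2_ok TE_l8692 _)
                      (CovZ.leaf K2_ok TE_l8693 _))))))
                 (CovZ.n1 (3480, 28400) (by decide +kernel)
                  (CovZ.leaf K2_ok TE_l8694 _)
                  (CovZ.n1 (3500, 28420) (by decide +kernel)
                   (CovZ.leaf K2_ok TE_l8695 _)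
                   (CovZ.n1 (3480, 28420) (by decide +kernel)
                    (CovZ.leaf K2_ok TE_l8696 _)
                    (CovZ.leaf K2_ok TE_l8697 _)))))))
              (CovZ.n1 (3440, 28320) (by decide +kernel)
               (CovZ.n2 (3400, 28360) (by decide +kernel)
                (CovZ.n2 (3440, 28360) (by decide +kernel)
                 (CovZ.leaf K2_ok TE_l8698 _)
                 (CovZ.leaf K2_ok TE_l8699 _))
                (CovZ.leaf K2_ok TE_l8700 _))
               (CovZ.n1 (3480, 28360) (by decide +kernel)
                (CovZ.leaf K2_ok TE_l8701 _)
                (CovZ.n1 (3440, 28360) (by decide +kernel)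
                 (CovZ.n2 (3460, 28380) (by decide +kernel)
                  (CovZ.leaf K2_ok TE_l8702 _)
                  (CovZ.leaf K2_ok TE_l8703 _))
                 (CovZ.leaf K2_ok TE_l8704 _)))))))
           (CovZ.n1 (3360, 28160) (by decide +kernel)
            (CovZ.n2 (3280, 28240) (by decide +kernel)
             (CovZ.n2 (3360, 28240) (by decide +kernel)
              (CovZ.n2 (3320, 28200) (by decide +kernel)
               (CovZ.leaf K2_ok TE_l8705 _)
               (CovZ.leaf K2_ok TE_l8706 _))
              (CovZ.n1 (3320, 28280) (by decide +kernel)
               (CovZ.leaf K2_ok TE_l8707 _)
               (CovZ.leaf K2_ok TE_l8708 _)))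
             (CovZ.n1 (3280, 28160) (by decide +kernel)
              (CovZ.leaf K2_ok TE_l8709 _)
              (CovZ.n1 (3320, 28200) (by decide +kernel)
               (CovZ.leaf K2_ok TE_l8710 _)
               (CovZ.leaf K2_ok TE_l8711 _))))
            (CovZ.n1 (3440, 28240) (by decide +kernel)
             (CovZ.leaf K2_ok TE_l8712 _)
             (CovZ.n1 (3360, 28240) (by decide +kernel)
              (CovZ.n2 (3400, 28280) (by decide +kernel)
               (CovZ.leaf K2_ok TE_l8713 _)
               (CovZ.leaf K2_ok TE_l8714 _))
              (CovZ.leaf K2_ok TE_l8715 _)))))
          (CovZ.n1 (3680, 28320) (by decide +kernel)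
           (CovZ.n2 (3680, 28160) (by decide +kernel)
            (CovZ.n2 (3600, 28240) (by decide +kernel)
             (CovZ.n2 (3680, 28240) (by decide +kernel)
              (CovZ.leaf K2_ok TE_l8716 _)
              (CovZ.leaf K2_ok TE_l8717 _))
             (CovZ.leaf K2_ok TE_l8718 _))
            (CovZ.n1 (3760, 28240) (by decide +kernel)
             (CovZ.leaf K2_ok TE_l8719 _)
             (CovZ.n1 (3680, 28240) (by decide +kernel)
              (CovZ.n2 (3720, 28280) (by decide +kernel)
               (CovZ.leaf K2_ok TE_l8720 _)
               (CovZ.leaf K2_ok TE_l8721 _))
              (CovZ.leaf K2_ok TE_l8722 _))))
           (CovZ.n1 (3520, 28320) (by decide +kernel)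
            (CovZ.subM 2011811106191431186203507699720140918872597262314390459264512 (by decide +kernel)
             (CovZ.n2 (3600, 28400) (by decide +kernel)
              (CovZ.n2 (3600, 28320) (by decide +kernel)
               (CovZ.n2 (3560, 28360) (by decide +kernel)
                (CovZ.n2 (3600, 28360) (by decide +kernel)
                 (CovZ.leaf K2_ok TE_l8723 _)
                 (CovZ.leaf K2_ok TE_l8724 _))
                (CovZ.leaf K2_ok TE_l8725 _))
               (CovZ.n1 (3640, 28360) (by decide +kernel)
                (CovZ.leaf K2_ok TE_l8726 _)
                (CovZ.n1 (3600, 28360) (by decide +kernel)
                 (CovZ.n2 (3620, 28380) (by decide +kernel)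
                  (CovZ.leaf K2_ok TE_l8727 _)
                  (CovZ.leaf K2_ok TE_l8728 _))
                 (CovZ.leaf K2_ok TE_l8729 _))))
              (CovZ.n1 (3520, 28400) (by decide +kernel)
               (CovZ.subM 1606938044258990275541962424648161550035654903145470181246976 (by decide +kernel)
                (CovZ.n2 (3560, 28440) (by decide +kernel)
                 (CovZ.n2 (3560, 28400) (by decide +kernel)
                  (CovZ.leaf K2_ok TE_l8730 _)
                  (CovZ.n1 (3580, 28420) (by decide +kernel)
                   (CovZ.leaf K2_ok TE_l8731 _)
                   (CovZ.n1 (3560, 28420) (by decide +kernel)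
                    (CovZ.leaf K2_ok TE_l8732 _)
                    (CovZ.leaf K2_ok TE_l8733 _))))
                 (CovZ.n1 (3520, 28440) (by decide +kernel)
                  (CovZ.subM 75557863725914323421184 (by decide +kernel)
                   (CovZ.n2 (3540, 28460) (by decide +kernel)
                    (CovZ.n2 (3540, 28440) (by decide +kernel)
                     (CovZ.leaf K2_ok TE_l8734 _)
                     (CovZ.n1 (3550, 28450) (by decide +kernel)
                      (CovZ.leaf K2_ok TE_l8735 _)
                      (CovZ.leaf K2_ok TE_l8736 _)))
                    (CovZ.n1 (3520, 28460) (by decide +kernel)
                     (CovZ.badM (by decide +kernel))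
                     (CovZ.leaf K2_ok TE_l8737 _))))
                  (CovZ.n1 (3540, 28420) (by decide +kernel)
                   (CovZ.n2 (3520, 28420) (by decide +kernel)
                    (CovZ.leaf K2_ok TE_l8738 _)
                    (CovZ.leaf K2_ok TE_l8739 _))
                   (CovZ.leaf K2_ok TE_l8740 _)))))
               (CovZ.n1 (3560, 28360) (by decide +kernel)
                (CovZ.n2 (3520, 28360) (by decide +kernel)
                 (CovZ.n2 (3540, 28380) (by decide +kernel)
                  (CovZ.leaf K2_ok TE_l8741 _)
                  (CovZ.leaf K2_ok TE_l8742 _))
                 (CovZ.leaf K2_ok TE_l8743 _))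
                (CovZ.n1 (3560, 28400) (by decide +kernel)
                 (CovZ.leaf K2_ok TE_l8744 _)
                 (CovZ.leaf K2_ok TE_l8745 _))))))
            (CovZ.n1 (3600, 28240) (by decide +kernel)
             (CovZ.n2 (3520, 28240) (by decide +kernel)
              (CovZ.n2 (3560, 28280) (by decide +kernel)
               (CovZ.leaf K2_ok TE_l8746 _)
               (CovZ.leaf K2_ok TE_l8747 _))
              (CovZ.leaf K2_ok TE_l8748 _))
             (CovZ.subM 2014949657059124527282409617091554852327441931612272124243600 (by decide +kernel)
              (CovZ.n1 (3600, 28320) (by decide +kernel)
               (CovZ.n2 (3640, 28280) (by decide +kernel)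
                (CovZ.leaf K2_ok TE_l8749 _)
                (CovZ.leaf K2_ok TE_l8750 _))
               (CovZ.n1 (3560, 28280) (by decide +kernel)
                (CovZ.leaf K2_ok TE_l8751 _)
                (CovZ.leaf K2_ok TE_l8752 _))))))))

theorem TE_u140 : CovZ TE_M (toL (selN TE_LN 2219347880016180425696216809530896426355190230056718986915504)) [0, 7, 6, 1] (3520, 28480) (3200, 28800) (3200, 28160) :=
    (CovZ.n1 (3200, 28480) (by decide +kernel)
          (CovZ.subM 200867353230846656114792516069697090491720406850147522183168 (by decide +kernel)
           (CovZ.n2 (3360, 28640) (by decide +kernel)
            (CovZ.n2 (3360, 28480) (by decide +kernel)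
             (CovZ.n2 (3280, 28560) (by decide +kernel)
              (CovZ.badM (by decide +kernel))
              (CovZ.n1 (3280, 28480) (by decide +kernel)
               (CovZ.badM (by decide +kernel))
               (CovZ.badM (by decide +kernel))))
             (CovZ.badM (by decide +kernel)))
            (CovZ.badM (by decide +kernel))))
          (CovZ.n1 (3360, 28320) (by decide +kernel)
           (CovZ.n2 (3200, 28320) (by decide +kernel)
            (CovZ.subM 2216209329148484230816191238721160085227907531699736308354048 (by decide +kernel)
             (CovZ.n2 (3280, 28400) (by decide +kernel)
              (CovZ.n2 (3280, 28320) (by decide +kernel)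
               (CovZ.n2 (3240, 28360) (by decide +kernel)
                (CovZ.n2 (3280, 28360) (by decide +kernel)
                 (CovZ.n2 (3260, 28340) (by decide +kernel)
                  (CovZ.leaf K2_ok TE_l8753 _)
                  (CovZ.leaf K2_ok TE_l8754 _))
                 (CovZ.n1 (3260, 28380) (by decide +kernel)
                  (CovZ.leaf K2_ok TE_l8755 _)
                  (CovZ.leaf K2_ok TE_l8756 _)))
                (CovZ.n1 (3240, 28320) (by decide +kernel)
                 (CovZ.leaf K2_ok TE_l8757 _)
                 (CovZ.n1 (3260, 28340) (by decide +kernel)
                  (CovZ.leaf K2_ok TE_l8758 _)
                  (CovZ.leaf K2_ok TE_l8759 _))))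
               (CovZ.n1 (3320, 28360) (by decide +kernel)
                (CovZ.n2 (3320, 28320) (by decide +kernel)
                 (CovZ.leaf K2_ok TE_l8760 _)
                 (CovZ.leaf K2_ok TE_l8761 _))
                (CovZ.n1 (3280, 28360) (by decide +kernel)
                 (CovZ.n2 (3300, 28380) (by decide +kernel)
                  (CovZ.leaf K2_ok TE_l8762 _)
                  (CovZ.leaf K2_ok TE_l8763 _))
                 (CovZ.leaf K2_ok TE_l8764 _))))
              (CovZ.n1 (3200, 28400) (by decide +kernel)
               (CovZ.subM 1807805397489842640995974243690708376118980245600497857200128 (by decide +kernel)
                (CovZ.n2 (3240, 28440) (by decide +kernel)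
                 (CovZ.n2 (3240, 28400) (by decide +kernel)
                  (CovZ.n2 (3220, 28420) (by decide +kernel)
                   (CovZ.n2 (3240, 28420) (by decide +kernel)
                    (CovZ.n2 (3230, 28410) (by decide +kernel)
                     (CovZ.subM 1917501566159686276385100677615627046976615216054272 (by decide +kernel)
                      (CovZ.n2 (3230, 28420) (by decide +kernel)
                       (CovZ.n2 (3235, 28415) (by decide +kernel)
                        (CovZ.leaf K2_ok TE_l17643 _)
                        (CovZ.leaf K2_ok TE_l17644 _))
                       (CovZ.n1 (3225, 28415) (by decide +kernel)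
                        (CovZ.leaf K2_ok TE_l17645 _)
                        (CovZ.leaf K2_ok TE_l17646 _))))
                     (CovZ.leaf K2_ok TE_l17647 _))
                    (CovZ.subM 1917501566159686276382565376415170588173621809643520 (by decide +kernel)
                     (CovZ.n1 (3230, 28430) (by decide +kernel)
                      (CovZ.n2 (3240, 28430) (by decide +kernel)
                       (CovZ.n2 (3235, 28425) (by decide +kernel)
                        (CovZ.badM (by decide +kernel))
                        (CovZ.leaf K2_ok TE_l17648 _))
                       (CovZ.badM (by decide +kernel)))
                      (CovZ.n1 (3230, 28420) (by decide +kernel)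
                       (CovZ.leaf K2_ok TE_l17649 _)
                       (CovZ.n1 (3235, 28425) (by decide +kernel)
                        (CovZ.leaf K2_ok TE_l17650 _)
                        (CovZ.n1 (3230, 28425) (by decide +kernel)
                         (CovZ.badM (by decide +kernel))
                         (CovZ.leaf K2_ok TE_l17651 _)))))))
                   (CovZ.n1 (3220, 28400) (by decide +kernel)
                    (CovZ.n2 (3210, 28410) (by decide +kernel)
                     (CovZ.n2 (3220, 28410) (by decide +kernel)
                      (CovZ.badM (by decide +kernel))
                      (CovZ.leaf K2_ok TE_l19624 _))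
                     (CovZ.badM (by decide +kernel)))
                    (CovZ.n1 (3230, 28410) (by decide +kernel)
                     (CovZ.leaf K2_ok TE_l8765 _)
                     (CovZ.n1 (3220, 28410) (by decide +kernel)
                      (CovZ.n2 (3225, 28415) (by decide +kernel)
                       (CovZ.leaf K2_ok TE_l17652 _)
                       (CovZ.leaf K2_ok TE_l19625 _))
                      (CovZ.leaf K2_ok TE_l17653 _)))))
                  (CovZ.n1 (3260, 28420) (by decide +kernel)
                   (CovZ.n2 (3260, 28400) (by decide +kernel)
                    (CovZ.n2 (3250, 28410) (by decide +kernel)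
                     (CovZ.leaf K2_ok TE_l8766 _)
                     (CovZ.leaf K2_ok TE_l8767 _))
                    (CovZ.n1 (3270, 28410) (by decide +kernel)
                     (CovZ.leaf K2_ok TE_l8768 _)
                     (CovZ.leaf K2_ok TE_l8769 _)))
                   (CovZ.n1 (3240, 28420) (by decide +kernel)
                    (CovZ.n2 (3250, 28430) (by decide +kernel)
                     (CovZ.n2 (3250, 28420) (by decide +kernel)
                      (CovZ.leaf K2_ok TE_l17654 _)
                      (CovZ.leaf K2_ok TE_l17655 _))
                     (CovZ.subM 1917507275150457100222089609559048386154167340630016 (by decide +kernel)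
                      (CovZ.n1 (3240, 28430) (by decide +kernel)
                       (CovZ.n2 (3245, 28435) (by decide +kernel)
                        (CovZ.leaf K2_ok TE_l19626 _)
                        (CovZ.badM (by decide +kernel)))
                       (CovZ.n1 (3245, 28425) (by decide +kernel)
                        (CovZ.n2 (3240, 28425) (by decide +kernel)
                         (CovZ.leaf K2_ok TE_l19627 _)
                         (CovZ.leaf K2_ok TE_l17656 _))
                        (CovZ.leaf K2_ok TE_l19628 _)))))
                    (CovZ.n1 (3250, 28410) (by decide +kernel)
                     (CovZ.n2 (3240, 28410) (by decide +kernel)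
                      (CovZ.leaf K2_ok TE_l17657 _)
                      (CovZ.leaf K2_ok TE_l17658 _))
                     (CovZ.leaf K2_ok TE_l17659 _)))))
                 (CovZ.subM 1917501566159686276382565376415170588173621809643520 (by decide +kernel)
                  (CovZ.n1 (3200, 28440) (by decide +kernel)
                   (CovZ.badM (by decide +kernel))
                   (CovZ.n1 (3220, 28420) (by decide +kernel)
                    (CovZ.n2 (3200, 28420) (by decide +kernel)
                     (CovZ.badM (by decide +kernel))
                     (CovZ.n1 (3210, 28410) (by decide +kernel)
                      (CovZ.badM (by decide +kernel))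
                      (CovZ.badM (by decide +kernel))))
                    (CovZ.n1 (3220, 28440) (by decide +kernel)
                     (CovZ.n2 (3230, 28430) (by decide +kernel)
                      (CovZ.n2 (3220, 28430) (by decide +kernel)
                       (CovZ.badM (by decide +kernel))
                       (CovZ.n1 (3225, 28425) (by decide +kernel)
                        (CovZ.badM (by decide +kernel))
                        (CovZ.badM (by decide +kernel))))
                      (CovZ.badM (by decide +kernel)))
                     (CovZ.badM (by decide +kernel))))))))
               (CovZ.n1 (3240, 28360) (by decide +kernel)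
                (CovZ.n2 (3200, 28360) (by decide +kernel)
                 (CovZ.subM 1807805395993253546387588007771086641129750837511731904774144 (by decide +kernel)
                  (CovZ.n2 (3220, 28380) (by decide +kernel)
                   (CovZ.leaf K2_ok TE_l8770 _)
                   (CovZ.n1 (3200, 28380) (by decide +kernel)
                    (CovZ.n2 (3210, 28390) (by decide +kernel)
                     (CovZ.leaf K2_ok TE_l8771 _)
                     (CovZ.badM (by decide +kernel)))
                    (CovZ.leaf K2_ok TE_l8772 _))))
                 (CovZ.n1 (3220, 28340) (by decide +kernel)
                  (CovZ.leaf K2_ok TE_l8773 _)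
                  (CovZ.leaf K2_ok TE_l8774 _)))
                (CovZ.subM 1807805397489842640995974243690708376118980245600497890754560 (by decide +kernel)
                 (CovZ.n1 (3240, 28400) (by decide +kernel)
                  (CovZ.n2 (3260, 28380) (by decide +kernel)
                   (CovZ.n2 (3240, 28380) (by decide +kernel)
                    (CovZ.leaf K2_ok TE_l8775 _)
                    (CovZ.leaf K2_ok TE_l8776 _))
                   (CovZ.leaf K2_ok TE_l8777 _))
                  (CovZ.n1 (3220, 28380) (by decide +kernel)
                   (CovZ.n2 (3220, 28400) (by decide +kernel)
                    (CovZ.n2 (3230, 28390) (by decide +kernel)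
                     (CovZ.leaf K2_ok TE_l8778 _)
                     (CovZ.leaf K2_ok TE_l8779 _))
                    (CovZ.n1 (3210, 28390) (by decide +kernel)
                     (CovZ.badM (by decide +kernel))
                     (CovZ.leaf K2_ok TE_l8781 _)))
                   (CovZ.n1 (3240, 28380) (by decide +kernel)
                    (CovZ.leaf K2_ok TE_l8782 _)
                    (CovZ.leaf K2_ok TE_l8783 _)))))))))
            (CovZ.n1 (3280, 28240) (by decide +kernel)
             (CovZ.n2 (3200, 28240) (by decide +kernel)
              (CovZ.n2 (3240, 28280) (by decide +kernel)
               (CovZ.leaf K2_ok TE_l8784 _)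
               (CovZ.n1 (3200, 28280) (by decide +kernel)
                (CovZ.leaf K2_ok TE_l8785 _)
                (CovZ.leaf K2_ok TE_l8786 _)))
              (CovZ.n1 (3240, 28200) (by decide +kernel)
               (CovZ.leaf K2_ok TE_l8787 _)
               (CovZ.leaf K2_ok TE_l8788 _)))
             (CovZ.subM 2216209329148484230816191238721160085265686465815043039571088 (by decide +kernel)
              (CovZ.n1 (3280, 28320) (by decide +kernel)
               (CovZ.n2 (3320, 28280) (by decide +kernel)
                (CovZ.leaf K2_ok TE_l8789 _)
                (CovZ.leaf K2_ok TE_l8790 _))
               (CovZ.n1 (3240, 28280) (by decide +kernel)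
                (CovZ.n2 (3240, 28320) (by decide +kernel)
                 (CovZ.leaf K2_ok TE_l8791 _)
                 (CovZ.leaf K2_ok TE_l8792 _))
                (CovZ.leaf K2_ok TE_l8793 _))))))
           (CovZ.subM 2209539908554590209881550834288726101336785199175367726730240 (by decide +kernel)
            (CovZ.n1 (3360, 28480) (by decide +kernel)
             TE_u137
             TE_u138))))

theorem TE_u141 : CovZ TE_M (toL (selN TE_LN 642244348451541758321792)) [0, 7, 6, 1] (4480, 28480) (4320, 28480) (4320, 28320) :=
    (CovZ.n2 (4400, 28400) (by decide +kernel)
              (CovZ.n2 (4320, 28400) (by decide +kernel)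
               (CovZ.n2 (4360, 28440) (by decide +kernel)
                (CovZ.n2 (4360, 28400) (by decide +kernel)
                 (CovZ.n2 (4340, 28420) (by decide +kernel)
                  (CovZ.n2 (4360, 28420) (by decide +kernel)
                   (CovZ.leaf K2_ok TE_l8855 _)
                   (CovZ.leaf K2_ok TE_l17687 _))
                  (CovZ.leaf K2_ok TE_l8856 _))
                 (CovZ.subM 37781294141736124162048 (by decide +kernel)
                  (CovZ.n1 (4380, 28420) (by decide +kernel)
                   (CovZ.n2 (4380, 28400) (by decide +kernel)
                    (CovZ.leaf K2_ok TE_l8857 _)
                    (CovZ.n1 (4390, 28410) (by decide +kernel)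
                     (CovZ.leaf K2_ok TE_l8858 _)
                     (CovZ.leaf K2_ok TE_l8859 _)))
                   (CovZ.n1 (4360, 28420) (by decide +kernel)
                    (CovZ.n2 (4370, 28430) (by decide +kernel)
                     (CovZ.leaf K2_ok TE_l17688 _)
                     (CovZ.n1 (4360, 28430) (by decide +kernel)
                      (CovZ.leaf K2_ok TE_l17689 _)
                      (CovZ.leaf K2_ok TE_l17690 _)))
                    (CovZ.leaf K2_ok TE_l8860 _)))))
                (CovZ.subM 37781276162521978445824 (by decide +kernel)
                 (CovZ.n1 (4320, 28440) (by decide +kernel)
                  (CovZ.subM 35186519580672 (by decide +kernel)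
                   (CovZ.n2 (4340, 28460) (by decide +kernel)
                    (CovZ.n2 (4340, 28440) (by decide +kernel)
                     (CovZ.n2 (4330, 28450) (by decide +kernel)
                      (CovZ.badM (by decide +kernel))
                      (CovZ.n1 (4330, 28440) (by decide +kernel)
                       (CovZ.leaf K2_ok TE_l17691 _)
                       (CovZ.n1 (4335, 28445) (by decide +kernel)
                        (CovZ.leaf K2_ok TE_l17692 _)
                        (CovZ.leaf K2_ok TE_l17693 _))))
                     (CovZ.badM (by decide +kernel)))
                    (CovZ.n1 (4320, 28460) (by decide +kernel)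
                     (CovZ.badM (by decide +kernel))
                     (CovZ.n1 (4330, 28450) (by decide +kernel)
                      (CovZ.n2 (4320, 28450) (by decide +kernel)
                       (CovZ.badM (by decide +kernel))
                       (CovZ.leaf K2_ok TE_l17694 _))
                      (CovZ.badM (by decide +kernel))))))
                  (CovZ.n1 (4340, 28420) (by decide +kernel)
                   (CovZ.n2 (4320, 28420) (by decide +kernel)
                    (CovZ.n2 (4330, 28430) (by decide +kernel)
                     (CovZ.leaf K2_ok TE_l8861 _)
                     (CovZ.leaf K2_ok TE_l8862 _))
                    (CovZ.leaf K2_ok TE_l8863 _))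
                   (CovZ.n1 (4340, 28440) (by decide +kernel)
                    (CovZ.subM 38421370962452480 (by decide +kernel)
                     (CovZ.n2 (4350, 28430) (by decide +kernel)
                      (CovZ.n2 (4340, 28430) (by decide +kernel)
                       (CovZ.leaf K2_ok TE_l17695 _)
                       (CovZ.leaf K2_ok TE_l17696 _))
                      (CovZ.n1 (4350, 28440) (by decide +kernel)
                       (CovZ.leaf K2_ok TE_l17697 _)
                       (CovZ.leaf K2_ok TE_l17698 _))))
                    (CovZ.n1 (4330, 28430) (by decide +kernel)
                     (CovZ.leaf K2_ok TE_l17699 _)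
                     (CovZ.leaf K2_ok TE_l17700 _)))))))
               (CovZ.n1 (4360, 28360) (by decide +kernel)
                (CovZ.n2 (4320, 28360) (by decide +kernel)
                 (CovZ.n2 (4340, 28380) (by decide +kernel)
                  (CovZ.leaf K2_ok TE_l8864 _)
                  (CovZ.leaf K2_ok TE_l8865 _))
                 (CovZ.leaf K2_ok TE_l8866 _))
                (CovZ.n1 (4360, 28400) (by decide +kernel)
                 (CovZ.n2 (4380, 28380) (by decide +kernel)
                  (CovZ.leaf K2_ok TE_l8867 _)
                  (CovZ.leaf K2_ok TE_l8868 _))
                 (CovZ.n1 (4340, 28380) (by decide +kernel)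
                  (CovZ.leaf K2_ok TE_l8869 _)
                  (CovZ.leaf K2_ok TE_l8870 _)))))
              (CovZ.subM 37781438256924200009728 (by decide +kernel)
               (CovZ.n1 (4400, 28480) (by decide +kernel)
                (CovZ.n2 (4440, 28440) (by decide +kernel)
                 (CovZ.n2 (4400, 28440) (by decide +kernel)
                  (CovZ.n2 (4420, 28460) (by decide +kernel)
                   (CovZ.n2 (4420, 28440) (by decide +kernel)
                    (CovZ.badM (by decide +kernel))
                    (CovZ.badM (by decide +kernel)))
                   (CovZ.badM (by decide +kernel)))
                  (CovZ.n1 (4420, 28420) (by decide +kernel)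
                   (CovZ.n2 (4400, 28420) (by decide +kernel)
                    (CovZ.subM 54043230156619776 (by decide +kernel)
                     (CovZ.n2 (4410, 28430) (by decide +kernel)
                      (CovZ.leaf K2_ok TE_l17701 _)
                      (CovZ.n1 (4400, 28430) (by decide +kernel)
                       (CovZ.n2 (4405, 28435) (by decide +kernel)
                        (CovZ.leaf K2_ok TE_l17702 _)
                        (CovZ.badM (by decide +kernel)))
                       (CovZ.leaf K2_ok TE_l17703 _))))
                    (CovZ.n1 (4410, 28410) (by decide +kernel)
                     (CovZ.leaf K2_ok TE_l8871 _)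
                     (CovZ.leaf K2_ok TE_l8872 _)))
                   (CovZ.subM 162129586853773312 (by decide +kernel)
                    (CovZ.n1 (4420, 28440) (by decide +kernel)
                     (CovZ.n2 (4430, 28430) (by decide +kernel)
                      (CovZ.n2 (4420, 28430) (by decide +kernel)
                       (CovZ.n2 (4425, 28435) (by decide +kernel)
                        (CovZ.leaf K2_ok TE_l17704 _)
                        (CovZ.n1 (4420, 28435) (by decide +kernel)
                         (CovZ.badM (by decide +kernel))
                         (CovZ.leaf K2_ok TE_l17705 _)))
                       (CovZ.leaf K2_ok TE_l17706 _))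
                      (CovZ.badM (by decide +kernel)))
                     (CovZ.n1 (4410, 28430) (by decide +kernel)
                      (CovZ.n2 (4410, 28440) (by decide +kernel)
                       (CovZ.n2 (4415, 28435) (by decide +kernel)
                        (CovZ.n2 (4410, 28435) (by decide +kernel)
                         (CovZ.badM (by decide +kernel))
                         (CovZ.leaf K2_ok TE_l17707 _))
                        (CovZ.badM (by decide +kernel)))
                       (CovZ.n1 (4405, 28435) (by decide +kernel)
                        (CovZ.badM (by decide +kernel))
                        (CovZ.leaf K2_ok TE_l17708 _)))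
                      (CovZ.n1 (4420, 28430) (by decide +kernel)
                       (CovZ.leaf K2_ok TE_l17709 _)
                       (CovZ.leaf K2_ok TE_l17710 _)))))))
                 (CovZ.badM (by decide +kernel)))
                (CovZ.n1 (4360, 28440) (by decide +kernel)
                 (CovZ.badM (by decide +kernel))
                 (CovZ.n1 (4400, 28440) (by decide +kernel)
                  (CovZ.n2 (4380, 28420) (by decide +kernel)
                   (CovZ.subM 38280633742524416 (by decide +kernel)
                    (CovZ.n2 (4380, 28440) (by decide +kernel)
                     (CovZ.n2 (4390, 28430) (by decide +kernel)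
                      (CovZ.n2 (4380, 28430) (by decide +kernel)
                       (CovZ.badM (by decide +kernel))
                       (CovZ.leaf K2_ok TE_l17711 _))
                      (CovZ.badM (by decide +kernel)))
                     (CovZ.n1 (4370, 28430) (by decide +kernel)
                      (CovZ.n2 (4370, 28440) (by decide +kernel)
                       (CovZ.badM (by decide +kernel))
                       (CovZ.leaf K2_ok TE_l17712 _))
                      (CovZ.leaf K2_ok TE_l17713 _))))
                   (CovZ.n1 (4400, 28420) (by decide +kernel)
                    (CovZ.n2 (4390, 28410) (by decide +kernel)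
                     (CovZ.leaf K2_ok TE_l8873 _)
                     (CovZ.leaf K2_ok TE_l8874 _))
                    (CovZ.n1 (4390, 28430) (by decide +kernel)
                     (CovZ.n2 (4400, 28430) (by decide +kernel)
                      (CovZ.leaf K2_ok TE_l17714 _)
                      (CovZ.badM (by decide +kernel)))
                     (CovZ.leaf K2_ok TE_l17715 _))))
                  (CovZ.badM (by decide +kernel)))))))

theorem TE_u142 : CovZ TE_M (toL (selN TE_LN 642244348451541758321792)) [0, 7, 6, 1] (4320, 28480) (4160, 28480) (4320, 28320) :=
    (CovZ.n1 (4240, 28400) (by decide +kernel)
              (CovZ.n2 (4240, 28480) (by decide +kernel)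
               (CovZ.subM 604465254177247879831552 (by decide +kernel)
                (CovZ.n2 (4280, 28440) (by decide +kernel)
                 (CovZ.n2 (4240, 28440) (by decide +kernel)
                  (CovZ.n2 (4260, 28460) (by decide +kernel)
                   (CovZ.n2 (4260, 28440) (by decide +kernel)
                    (CovZ.n2 (4250, 28450) (by decide +kernel)
                     (CovZ.leaf K2_ok TE_l8875 _)
                     (CovZ.leaf K2_ok TE_l8876 _))
                    (CovZ.n1 (4270, 28450) (by decide +kernel)
                     (CovZ.leaf K2_ok TE_l8877 _)
                     (CovZ.leaf K2_ok TE_l8878 _)))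
                   (CovZ.n1 (4240, 28460) (by decide +kernel)
                    (CovZ.badM (by decide +kernel))
                    (CovZ.n1 (4250, 28450) (by decide +kernel)
                     (CovZ.n2 (4240, 28450) (by decide +kernel)
                      (CovZ.leaf K2_ok TE_l17716 _)
                      (CovZ.leaf K2_ok TE_l17717 _))
                     (CovZ.n1 (4250, 28460) (by decide +kernel)
                      (CovZ.n2 (4255, 28455) (by decide +kernel)
                       (CovZ.leaf K2_ok TE_l17718 _)
                       (CovZ.badM (by decide +kernel)))
                      (CovZ.leaf K2_ok TE_l17719 _)))))
                  (CovZ.n1 (4260, 28420) (by decide +kernel)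
                   (CovZ.n2 (4240, 28420) (by decide +kernel)
                    (CovZ.leaf K2_ok TE_l8879 _)
                    (CovZ.leaf K2_ok TE_l8880 _))
                   (CovZ.n1 (4260, 28440) (by decide +kernel)
                    (CovZ.n2 (4270, 28430) (by decide +kernel)
                     (CovZ.leaf K2_ok TE_l8881 _)
                     (CovZ.leaf K2_ok TE_l8882 _))
                    (CovZ.n1 (4250, 28430) (by decide +kernel)
                     (CovZ.leaf K2_ok TE_l8883 _)
                     (CovZ.leaf K2_ok TE_l8884 _)))))
                 (CovZ.subM 2287020693004288 (by decide +kernel)
                  (CovZ.n1 (4280, 28480) (by decide +kernel)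
                   (CovZ.n2 (4300, 28460) (by decide +kernel)
                    (CovZ.n2 (4280, 28460) (by decide +kernel)
                     (CovZ.badM (by decide +kernel))
                     (CovZ.n1 (4290, 28450) (by decide +kernel)
                      (CovZ.n2 (4280, 28450) (by decide +kernel)
                       (CovZ.n2 (4285, 28455) (by decide +kernel)
                        (CovZ.leaf K2_ok TE_l17720 _)
                        (CovZ.leaf K2_ok TE_l17721 _))
                       (CovZ.leaf K2_ok TE_l17722 _))
                      (CovZ.n1 (4290, 28460) (by decide +kernel)
                       (CovZ.n2 (4295, 28455) (by decide +kernel)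
                        (CovZ.leaf K2_ok TE_l17723 _)
                        (CovZ.badM (by decide +kernel)))
                       (CovZ.n1 (4285, 28455) (by decide +kernel)
                        (CovZ.badM (by decide +kernel))
                        (CovZ.leaf K2_ok TE_l17724 _)))))
                    (CovZ.badM (by decide +kernel)))
                   (CovZ.n1 (4260, 28460) (by decide +kernel)
                    (CovZ.badM (by decide +kernel))
                    (CovZ.n1 (4280, 28460) (by decide +kernel)
                     (CovZ.n2 (4270, 28450) (by decide +kernel)
                      (CovZ.n2 (4270, 28460) (by decide +kernel)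
                       (CovZ.leaf K2_ok TE_l17725 _)
                       (CovZ.leaf K2_ok TE_l17726 _))
                      (CovZ.leaf K2_ok TE_l17727 _))
                     (CovZ.badM (by decide +kernel))))))))
               (CovZ.n1 (4200, 28440) (by decide +kernel)
                (CovZ.subM 604465253966416525205504 (by decide +kernel)
                 (CovZ.n2 (4200, 28480) (by decide +kernel)
                  (CovZ.n2 (4220, 28460) (by decide +kernel)
                   (CovZ.n2 (4200, 28460) (by decide +kernel)
                    (CovZ.n2 (4210, 28470) (by decide +kernel)
                     (CovZ.leaf K2_ok TE_l17728 _)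
                     (CovZ.n1 (4200, 28470) (by decide +kernel)
                      (CovZ.badM (by decide +kernel))
                      (CovZ.leaf K2_ok TE_l17729 _)))
                    (CovZ.n1 (4210, 28450) (by decide +kernel)
                     (CovZ.leaf K2_ok TE_l8885 _)
                     (CovZ.n1 (4210, 28460) (by decide +kernel)
                      (CovZ.leaf K2_ok TE_l17730 _)
                      (CovZ.leaf K2_ok TE_l17731 _))))
                   (CovZ.badM (by decide +kernel)))
                  (CovZ.n1 (4180, 28460) (by decide +kernel)
                   (CovZ.subM 604462912059425786167296 (by decide +kernel)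
                    (CovZ.n2 (4180, 28480) (by decide +kernel)
                     (CovZ.n2 (4190, 28470) (by decide +kernel)
                      (CovZ.n2 (4180, 28470) (by decide +kernel)
                       (CovZ.badM (by decide +kernel))
                       (CovZ.leaf K2_ok TE_l17732 _))
                      (CovZ.badM (by decide +kernel)))
                     (CovZ.n1 (4170, 28470) (by decide +kernel)
                      (CovZ.badM (by decide +kernel))
                      (CovZ.n1 (4180, 28470) (by decide +kernel)
                       (CovZ.leaf K2_ok TE_l17733 _)
                       (CovZ.badM (by decide +kernel))))))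
                   (CovZ.n1 (4200, 28460) (by decide +kernel)
                    (CovZ.n2 (4190, 28450) (by decide +kernel)
                     (CovZ.leaf K2_ok TE_l8886 _)
                     (CovZ.leaf K2_ok TE_l8887 _))
                    (CovZ.subM 604462912059425786232832 (by decide +kernel)
                     (CovZ.n1 (4190, 28470) (by decide +kernel)
                      (CovZ.n2 (4200, 28470) (by decide +kernel)
                       (CovZ.n2 (4195, 28465) (by decide +kernel)
                        (CovZ.leaf K2_ok TE_l17734 _)
                        (CovZ.leaf K2_ok TE_l17735 _))
                       (CovZ.badM (by decide +kernel)))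
                      (CovZ.leaf K2_ok TE_l17736 _)))))))
                (CovZ.n1 (4240, 28440) (by decide +kernel)
                 (CovZ.n2 (4220, 28420) (by decide +kernel)
                  (CovZ.n2 (4220, 28440) (by decide +kernel)
                   (CovZ.leaf K2_ok TE_l8888 _)
                   (CovZ.leaf K2_ok TE_l8889 _))
                  (CovZ.leaf K2_ok TE_l8890 _))
                 (CovZ.subM 604465253966416525205504 (by decide +kernel)
                  (CovZ.n1 (4220, 28460) (by decide +kernel)
                   (CovZ.n2 (4240, 28460) (by decide +kernel)
                    (CovZ.n2 (4230, 28450) (by decide +kernel)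
                     (CovZ.n2 (4230, 28460) (by decide +kernel)
                      (CovZ.leaf K2_ok TE_l17737 _)
                      (CovZ.leaf K2_ok TE_l17738 _))
                     (CovZ.leaf K2_ok TE_l17739 _))
                    (CovZ.badM (by decide +kernel)))
                   (CovZ.n1 (4220, 28440) (by decide +kernel)
                    (CovZ.leaf K2_ok TE_l8891 _)
                    (CovZ.n1 (4230, 28450) (by decide +kernel)
                     (CovZ.leaf K2_ok TE_l17740 _)
                     (CovZ.n1 (4220, 28450) (by decide +kernel)
                      (CovZ.leaf K2_ok TE_l17741 _)
                      (CovZ.leaf K2_ok TE_l17742 _)))))))))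
              (CovZ.n1 (4320, 28400) (by decide +kernel)
               (CovZ.n2 (4280, 28360) (by decide +kernel)
                (CovZ.n2 (4280, 28400) (by decide +kernel)
                 (CovZ.n2 (4300, 28380) (by decide +kernel)
                  (CovZ.leaf K2_ok TE_l8892 _)
                  (CovZ.leaf K2_ok TE_l8893 _))
                 (CovZ.n1 (4260, 28380) (by decide +kernel)
                  (CovZ.leaf K2_ok TE_l8894 _)
                  (CovZ.leaf K2_ok TE_l8895 _)))
                (CovZ.n1 (4320, 28360) (by decide +kernel)
                 (CovZ.leaf K2_ok TE_l8896 _)
                 (CovZ.leaf K2_ok TE_l8897 _)))
               (CovZ.n1 (4280, 28440) (by decide +kernel)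
                (CovZ.subM 37781276162521978445824 (by decide +kernel)
                 (CovZ.n2 (4320, 28440) (by decide +kernel)
                  (CovZ.n2 (4300, 28420) (by decide +kernel)
                   (CovZ.n2 (4300, 28440) (by decide +kernel)
                    (CovZ.leaf K2_ok TE_l8898 _)
                    (CovZ.n1 (4290, 28430) (by decide +kernel)
                     (CovZ.leaf K2_ok TE_l8899 _)
                     (CovZ.leaf K2_ok TE_l8900 _)))
                   (CovZ.n1 (4320, 28420) (by decide +kernel)
                    (CovZ.leaf K2_ok TE_l8901 _)
                    (CovZ.leaf K2_ok TE_l8902 _)))
                  (CovZ.subM 2287020693004288 (by decide +kernel)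
                   (CovZ.n1 (4300, 28460) (by decide +kernel)
                    (CovZ.n2 (4320, 28460) (by decide +kernel)
                     (CovZ.n2 (4310, 28450) (by decide +kernel)
                      (CovZ.n2 (4310, 28460) (by decide +kernel)
                       (CovZ.n2 (4315, 28455) (by decide +kernel)
                        (CovZ.leaf K2_ok TE_l17743 _)
                        (CovZ.badM (by decide +kernel)))
                       (CovZ.n1 (4305, 28455) (by decide +kernel)
                        (CovZ.badM (by decide +kernel))
                        (CovZ.leaf K2_ok TE_l17744 _)))
                      (CovZ.n1 (4320, 28450) (by decide +kernel)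
                       (CovZ.leaf K2_ok TE_l17745 _)
                       (CovZ.n1 (4315, 28455) (by decide +kernel)
                        (CovZ.badM (by decide +kernel))
                        (CovZ.leaf K2_ok TE_l17746 _))))
                     (CovZ.badM (by decide +kernel)))
                    (CovZ.n1 (4300, 28440) (by decide +kernel)
                     (CovZ.n2 (4290, 28450) (by decide +kernel)
                      (CovZ.n2 (4300, 28450) (by decide +kernel)
                       (CovZ.leaf K2_ok TE_l17747 _)
                       (CovZ.leaf K2_ok TE_l17748 _))
                      (CovZ.leaf K2_ok TE_l17749 _))
                     (CovZ.n1 (4310, 28450) (by decide +kernel)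
                      (CovZ.leaf K2_ok TE_l17750 _)
                      (CovZ.n1 (4300, 28450) (by decide +kernel)
                       (CovZ.n2 (4305, 28455) (by decide +kernel)
                        (CovZ.leaf K2_ok TE_l17751 _)
                        (CovZ.leaf K2_ok TE_l17752 _))
                       (CovZ.leaf K2_ok TE_l17753 _))))))))
                (CovZ.n1 (4280, 28400) (by decide +kernel)
                 (CovZ.n2 (4260, 28420) (by decide +kernel)
                  (CovZ.n2 (4280, 28420) (by decide +kernel)
                   (CovZ.leaf K2_ok TE_l8903 _)
                   (CovZ.leaf K2_ok TE_l8904 _))
                  (CovZ.leaf K2_ok TE_l8905 _))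
                 (CovZ.subM 37781276162521978445824 (by decide +kernel)
                  (CovZ.n1 (4300, 28420) (by decide +kernel)
                   (CovZ.leaf K2_ok TE_l8906 _)
                   (CovZ.n1 (4280, 28420) (by decide +kernel)
                    (CovZ.n2 (4290, 28430) (by decide +kernel)
                     (CovZ.leaf K2_ok TE_l8907 _)
                     (CovZ.leaf K2_ok TE_l8908 _))
                    (CovZ.leaf K2_ok TE_l8909 _))))))))

theorem TE_u143 : CovZ TE_M (toL (selN TE_LN 2018578606499897806768612166675694214377885338010413707636368)) [0, 7, 6, 1] (4480, 28800) (4160, 28480) (4480, 28160) :=
    (CovZ.n2 (4480, 28480) (by decide +kernel)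
          (CovZ.n2 (4320, 28320) (by decide +kernel)
           (CovZ.subM 642244348451541758321792 (by decide +kernel)
            (CovZ.n2 (4320, 28480) (by decide +kernel)
             TE_u141
             TE_u142))
           (CovZ.subM 401832590779362985946650693772546657265082741156382234453136 (by decide +kernel)
            (CovZ.n1 (4480, 28320) (by decide +kernel)
             (CovZ.n2 (4400, 28240) (by decide +kernel)
              (CovZ.n2 (4400, 28320) (by decide +kernel)
               (CovZ.n2 (4440, 28280) (by decide +kernel)
                (CovZ.leaf K2_ok TE_l8910 _)
                (CovZ.leaf K2_ok TE_l8911 _))
               (CovZ.n1 (4360, 28280) (by decide +kernel)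
                (CovZ.leaf K2_ok TE_l8912 _)
                (CovZ.leaf K2_ok TE_l8913 _)))
              (CovZ.n1 (4480, 28240) (by decide +kernel)
               (CovZ.leaf K2_ok TE_l8914 _)
               (CovZ.leaf K2_ok TE_l8915 _)))
             (CovZ.n1 (4400, 28400) (by decide +kernel)
              (CovZ.subM 37786050224415460828288 (by decide +kernel)
               (CovZ.n2 (4480, 28400) (by decide +kernel)
                (CovZ.n2 (4440, 28360) (by decide +kernel)
                 (CovZ.n2 (4440, 28400) (by decide +kernel)
                  (CovZ.n2 (4460, 28380) (by decide +kernel)
                   (CovZ.n2 (4440, 28380) (by decide +kernel)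
                    (CovZ.leaf K2_ok TE_l8916 _)
                    (CovZ.leaf K2_ok TE_l8917 _))
                   (CovZ.n1 (4460, 28400) (by decide +kernel)
                    (CovZ.n2 (4470, 28390) (by decide +kernel)
                     (CovZ.leaf K2_ok TE_l8918 _)
                     (CovZ.leaf K2_ok TE_l8919 _))
                    (CovZ.leaf K2_ok TE_l8920 _)))
                  (CovZ.n1 (4420, 28380) (by decide +kernel)
                   (CovZ.n2 (4420, 28400) (by decide +kernel)
                    (CovZ.leaf K2_ok TE_l8921 _)
                    (CovZ.leaf K2_ok TE_l8922 _))
                   (CovZ.n1 (4440, 28380) (by decide +kernel)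
                    (CovZ.leaf K2_ok TE_l8923 _)
                    (CovZ.leaf K2_ok TE_l8924 _))))
                 (CovZ.n1 (4480, 28360) (by decide +kernel)
                  (CovZ.n2 (4460, 28340) (by decide +kernel)
                   (CovZ.leaf K2_ok TE_l8925 _)
                   (CovZ.leaf K2_ok TE_l8926 _))
                  (CovZ.n1 (4460, 28380) (by decide +kernel)
                   (CovZ.n2 (4480, 28380) (by decide +kernel)
                    (CovZ.leaf K2_ok TE_l8927 _)
                    (CovZ.leaf K2_ok TE_l8928 _))
                   (CovZ.leaf K2_ok TE_l8929 _))))
                (CovZ.n1 (4440, 28440) (by decide +kernel)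
                 (CovZ.subM 37783579718544602955904 (by decide +kernel)
                  (CovZ.n2 (4480, 28440) (by decide +kernel)
                   (CovZ.n2 (4460, 28420) (by decide +kernel)
                    (CovZ.subM 4611686018427387904 (by decide +kernel)
                     (CovZ.n2 (4460, 28440) (by decide +kernel)
                      (CovZ.n2 (4470, 28430) (by decide +kernel)
                       (CovZ.n2 (4460, 28430) (by decide +kernel)
                        (CovZ.badM (by decide +kernel))
                        (CovZ.n1 (4465, 28425) (by decide +kernel)
                         (CovZ.n2 (4460, 28425) (by decide +kernel)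
                          (CovZ.badM (by decide +kernel))
                          (CovZ.leaf K2_ok TE_l17754 _))
                         (CovZ.badM (by decide +kernel))))
                       (CovZ.badM (by decide +kernel)))
                      (CovZ.n1 (4450, 28430) (by decide +kernel)
                       (CovZ.badM (by decide +kernel))
                       (CovZ.n1 (4460, 28430) (by decide +kernel)
                        (CovZ.n2 (4455, 28425) (by decide +kernel)
                         (CovZ.badM (by decide +kernel))
                         (CovZ.leaf K2_ok TE_l17755 _))
                        (CovZ.badM (by decide +kernel))))))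
                    (CovZ.n1 (4480, 28420) (by decide +kernel)
                     (CovZ.n2 (4470, 28410) (by decide +kernel)
                      (CovZ.n2 (4470, 28420) (by decide +kernel)
                       (CovZ.leaf K2_ok TE_l17756 _)
                       (CovZ.leaf K2_ok TE_l17757 _))
                      (CovZ.leaf K2_ok TE_l8930 _))
                     (CovZ.subM 4611686018435776512 (by decide +kernel)
                      (CovZ.n1 (4470, 28430) (by decide +kernel)
                       (CovZ.badM (by decide +kernel))
                       (CovZ.n1 (4470, 28420) (by decide +kernel)
                        (CovZ.leaf K2_ok TE_l17758 _)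
                        (CovZ.n1 (4475, 28425) (by decide +kernel)
                         (CovZ.leaf K2_ok TE_l17759 _)
                         (CovZ.n1 (4470, 28425) (by decide +kernel)
                          (CovZ.badM (by decide +kernel))
                          (CovZ.leaf K2_ok TE_l17760 _))))))))
                   (CovZ.badM (by decide +kernel))))
                 (CovZ.n1 (4440, 28400) (by decide +kernel)
                  (CovZ.n2 (4420, 28420) (by decide +kernel)
                   (CovZ.n2 (4440, 28420) (by decide +kernel)
                    (CovZ.n2 (4430, 28410) (by decide +kernel)
                     (CovZ.leaf K2_ok TE_l17761 _)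
                     (CovZ.leaf K2_ok TE_l8931 _))
                    (CovZ.subM 162129586853773312 (by decide +kernel)
                     (CovZ.n1 (4430, 28430) (by decide +kernel)
                      (CovZ.badM (by decide +kernel))
                      (CovZ.n1 (4430, 28420) (by decide +kernel)
                       (CovZ.leaf K2_ok TE_l17762 _)
                       (CovZ.n1 (4435, 28425) (by decide +kernel)
                        (CovZ.leaf K2_ok TE_l17763 _)
                        (CovZ.leaf K2_ok TE_l17764 _))))))
                   (CovZ.n1 (4420, 28400) (by decide +kernel)
                    (CovZ.leaf K2_ok TE_l8932 _)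
                    (CovZ.n1 (4430, 28410) (by decide +kernel)
                     (CovZ.leaf K2_ok TE_l8933 _)
                     (CovZ.leaf K2_ok TE_l8934 _))))
                  (CovZ.n1 (4460, 28420) (by decide +kernel)
                   (CovZ.n2 (4460, 28400) (by decide +kernel)
                    (CovZ.n2 (4450, 28410) (by decide +kernel)
                     (CovZ.leaf K2_ok TE_l17765 _)
                     (CovZ.leaf K2_ok TE_l17766 _))
                    (CovZ.n1 (4470, 28410) (by decide +kernel)
                     (CovZ.leaf K2_ok TE_l8935 _)
                     (CovZ.n1 (4460, 28410) (by decide +kernel)
                      (CovZ.n2 (4465, 28415) (by decide +kernel)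
                       (CovZ.leaf K2_ok TE_l17767 _)
                       (CovZ.leaf K2_ok TE_l17768 _))
                      (CovZ.leaf K2_ok TE_l17769 _))))
                   (CovZ.n1 (4440, 28420) (by decide +kernel)
                    (CovZ.subM 4611686018431582208 (by decide +kernel)
                     (CovZ.n2 (4450, 28430) (by decide +kernel)
                      (CovZ.n2 (4450, 28420) (by decide +kernel)
                       (CovZ.badM (by decide +kernel))
                       (CovZ.n1 (4455, 28425) (by decide +kernel)
                        (CovZ.leaf K2_ok TE_l17770 _)
                        (CovZ.badM (by decide +kernel))))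
                      (CovZ.badM (by decide +kernel))))
                    (CovZ.n1 (4450, 28410) (by decide +kernel)
                     (CovZ.n2 (4440, 28410) (by decide +kernel)
                      (CovZ.leaf K2_ok TE_l17771 _)
                      (CovZ.leaf K2_ok TE_l17772 _))
                     (CovZ.leaf K2_ok TE_l17773 _))))))))
              (CovZ.n1 (4400, 28320) (by decide +kernel)
               (CovZ.n2 (4360, 28360) (by decide +kernel)
                (CovZ.n2 (4400, 28360) (by decide +kernel)
                 (CovZ.leaf K2_ok TE_l8936 _)
                 (CovZ.leaf K2_ok TE_l8937 _))
                (CovZ.leaf K2_ok TE_l8938 _))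
               (CovZ.n1 (4440, 28360) (by decide +kernel)
                (CovZ.n2 (4440, 28320) (by decide +kernel)
                 (CovZ.leaf K2_ok TE_l8939 _)
                 (CovZ.n1 (4460, 28340) (by decide +kernel)
                  (CovZ.leaf K2_ok TE_l8940 _)
                  (CovZ.leaf K2_ok TE_l8941 _)))
                (CovZ.n1 (4400, 28360) (by decide +kernel)
                 (CovZ.n2 (4420, 28380) (by decide +kernel)
                  (CovZ.leaf K2_ok TE_l8942 _)
                  (CovZ.leaf K2_ok TE_l8943 _))
                 (CovZ.leaf K2_ok TE_l8944 _))))))))
          (CovZ.subM 144115188075929600 (by decide +kernel)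
           (CovZ.n1 (4320, 28640) (by decide +kernel)
            (CovZ.badM (by decide +kernel))
            (CovZ.n1 (4320, 28480) (by decide +kernel)
             (CovZ.n2 (4240, 28560) (by decide +kernel)
              (CovZ.badM (by decide +kernel))
              (CovZ.n1 (4240, 28480) (by decide +kernel)
               (CovZ.n2 (4200, 28520) (by decide +kernel)
                (CovZ.badM (by decide +kernel))
                (CovZ.n1 (4200, 28480) (by decide +kernel)
                 (CovZ.badM (by decide +kernel))
                 (CovZ.badM (by decide +kernel))))
               (CovZ.badM (by decide +kernel))))
             (CovZ.badM (by decide +kernel))))))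

theorem TE_u144 : CovZ TE_M (toL (selN TE_LN 2018578606499897806768612166675694214377885338010413707636368)) [0, 7, 6, 1] (4160, 28480) (3840, 28160) (4480, 28160) :=
    (CovZ.n1 (4160, 28160) (by decide +kernel)
          (CovZ.n2 (4000, 28320) (by decide +kernel)
           (CovZ.n2 (4160, 28320) (by decide +kernel)
            (CovZ.n2 (4080, 28240) (by decide +kernel)
             (CovZ.n2 (4080, 28320) (by decide +kernel)
              (CovZ.leaf K2_ok TE_l8945 _)
              (CovZ.n1 (4040, 28280) (by decide +kernel)
               (CovZ.leaf K2_ok TE_l8946 _)
               (CovZ.leaf K2_ok TE_l8947 _)))
             (CovZ.n1 (4160, 28240) (by decide +kernel)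
              (CovZ.leaf K2_ok TE_l8948 _)
              (CovZ.leaf K2_ok TE_l8949 _)))
            (CovZ.subM 793360490234537247319168 (by decide +kernel)
             (CovZ.n1 (4080, 28400) (by decide +kernel)
              (CovZ.n2 (4160, 28400) (by decide +kernel)
               (CovZ.n2 (4120, 28360) (by decide +kernel)
                (CovZ.n2 (4120, 28400) (by decide +kernel)
                 (CovZ.leaf K2_ok TE_l8950 _)
                 (CovZ.leaf K2_ok TE_l8951 _))
                (CovZ.n1 (4160, 28360) (by decide +kernel)
                 (CovZ.leaf K2_ok TE_l8952 _)
                 (CovZ.leaf K2_ok TE_l8953 _)))
               (CovZ.n1 (4120, 28440) (by decide +kernel)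
                (CovZ.subM 604465254177522757738496 (by decide +kernel)
                 (CovZ.n2 (4160, 28440) (by decide +kernel)
                  (CovZ.n2 (4140, 28420) (by decide +kernel)
                   (CovZ.leaf K2_ok TE_l8954 _)
                   (CovZ.leaf K2_ok TE_l8955 _))
                  (CovZ.n1 (4140, 28460) (by decide +kernel)
                   (CovZ.n2 (4160, 28460) (by decide +kernel)
                    (CovZ.n2 (4150, 28450) (by decide +kernel)
                     (CovZ.leaf K2_ok TE_l8956 _)
                     (CovZ.leaf K2_ok TE_l8957 _))
                    (CovZ.subM 604462912059425786167296 (by decide +kernel)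
                     (CovZ.n1 (4150, 28470) (by decide +kernel)
                      (CovZ.n2 (4160, 28470) (by decide +kernel)
                       (CovZ.leaf K2_ok TE_l17774 _)
                       (CovZ.n1 (4155, 28475) (by decide +kernel)
                        (CovZ.leaf K2_ok TE_l17775 _)
                        (CovZ.leaf K2_ok TE_l17776 _)))
                      (CovZ.leaf K2_ok TE_l8958 _))))
                   (CovZ.n1 (4140, 28440) (by decide +kernel)
                    (CovZ.leaf K2_ok TE_l8959 _)
                    (CovZ.n1 (4150, 28450) (by decide +kernel)
                     (CovZ.leaf K2_ok TE_l8960 _)
                     (CovZ.leaf K2_ok TE_l8961 _))))))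
                (CovZ.n1 (4120, 28400) (by decide +kernel)
                 (CovZ.n2 (4100, 28420) (by decide +kernel)
                  (CovZ.leaf K2_ok TE_l8962 _)
                  (CovZ.leaf K2_ok TE_l8963 _))
                 (CovZ.n1 (4140, 28420) (by decide +kernel)
                  (CovZ.leaf K2_ok TE_l8964 _)
                  (CovZ.n1 (4120, 28420) (by decide +kernel)
                   (CovZ.leaf K2_ok TE_l8965 _)
                   (CovZ.leaf K2_ok TE_l8966 _))))))
              (CovZ.n1 (4080, 28320) (by decide +kernel)
               (CovZ.n2 (4040, 28360) (by decide +kernel)
                (CovZ.n2 (4080, 28360) (by decide +kernel)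
                 (CovZ.leaf K2_ok TE_l8967 _)
                 (CovZ.leaf K2_ok TE_l8968 _))
                (CovZ.leaf K2_ok TE_l8969 _))
               (CovZ.n1 (4120, 28360) (by decide +kernel)
                (CovZ.leaf K2_ok TE_l8970 _)
                (CovZ.n1 (4080, 28360) (by decide +kernel)
                 (CovZ.leaf K2_ok TE_l8971 _)
                 (CovZ.leaf K2_ok TE_l8972 _)))))))
           (CovZ.n1 (4000, 28160) (by decide +kernel)
            (CovZ.n2 (3920, 28240) (by decide +kernel)
             (CovZ.n2 (4000, 28240) (by decide +kernel)
              (CovZ.leaf K2_ok TE_l8973 _)
              (CovZ.leaf K2_ok TE_l8974 _))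
             (CovZ.leaf K2_ok TE_l8975 _))
            (CovZ.n1 (4080, 28240) (by decide +kernel)
             (CovZ.leaf K2_ok TE_l8976 _)
             (CovZ.n1 (4000, 28240) (by decide +kernel)
              (CovZ.n2 (4040, 28280) (by decide +kernel)
               (CovZ.leaf K2_ok TE_l8977 _)
               (CovZ.leaf K2_ok TE_l8978 _))
              (CovZ.leaf K2_ok TE_l8979 _)))))
          (CovZ.n1 (4320, 28320) (by decide +kernel)
           (CovZ.n2 (4320, 28160) (by decide +kernel)
            (CovZ.n2 (4240, 28240) (by decide +kernel)
             (CovZ.n2 (4320, 28240) (by decide +kernel)
              (CovZ.leaf K2_ok TE_l8980 _)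
              (CovZ.leaf K2_ok TE_l8981 _))
             (CovZ.leaf K2_ok TE_l8982 _))
            (CovZ.n1 (4400, 28240) (by decide +kernel)
             (CovZ.n2 (4400, 28160) (by decide +kernel)
              (CovZ.leaf K2_ok TE_l8983 _)
              (CovZ.leaf K2_ok TE_l8984 _))
             (CovZ.n1 (4320, 28240) (by decide +kernel)
              (CovZ.n2 (4360, 28280) (by decide +kernel)
               (CovZ.leaf K2_ok TE_l8985 _)
               (CovZ.leaf K2_ok TE_l8986 _))
              (CovZ.leaf K2_ok TE_l8987 _))))
           (CovZ.n1 (4160, 28320) (by decide +kernel)
            (CovZ.subM 793360508248934666282112 (by decide +kernel)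
             (CovZ.n2 (4240, 28400) (by decide +kernel)
              (CovZ.n2 (4240, 28320) (by decide +kernel)
               (CovZ.n2 (4200, 28360) (by decide +kernel)
                (CovZ.n2 (4240, 28360) (by decide +kernel)
                 (CovZ.leaf K2_ok TE_l8988 _)
                 (CovZ.leaf K2_ok TE_l8989 _))
                (CovZ.leaf K2_ok TE_l8990 _))
               (CovZ.n1 (4280, 28360) (by decide +kernel)
                (CovZ.leaf K2_ok TE_l8991 _)
                (CovZ.n1 (4240, 28360) (by decide +kernel)
                 (CovZ.n2 (4260, 28380) (by decide +kernel)
                  (CovZ.leaf K2_ok TE_l8992 _)
                  (CovZ.leaf K2_ok TE_l8993 _))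
                 (CovZ.leaf K2_ok TE_l8994 _))))
              (CovZ.n1 (4160, 28400) (by decide +kernel)
               (CovZ.subM 604465254177522757738496 (by decide +kernel)
                (CovZ.n2 (4200, 28440) (by decide +kernel)
                 (CovZ.n2 (4200, 28400) (by decide +kernel)
                  (CovZ.n2 (4180, 28420) (by decide +kernel)
                   (CovZ.leaf K2_ok TE_l8995 _)
                   (CovZ.leaf K2_ok TE_l8996 _))
                  (CovZ.n1 (4220, 28420) (by decide +kernel)
                   (CovZ.leaf K2_ok TE_l8997 _)
                   (CovZ.n1 (4200, 28420) (by decide +kernel)
                    (CovZ.leaf K2_ok TE_l8998 _)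
                    (CovZ.leaf K2_ok TE_l8999 _))))
                 (CovZ.n1 (4160, 28440) (by decide +kernel)
                  (CovZ.n2 (4180, 28460) (by decide +kernel)
                   (CovZ.n2 (4180, 28440) (by decide +kernel)
                    (CovZ.leaf K2_ok TE_l9000 _)
                    (CovZ.n1 (4190, 28450) (by decide +kernel)
                     (CovZ.leaf K2_ok TE_l9001 _)
                     (CovZ.leaf K2_ok TE_l9002 _)))
                   (CovZ.n1 (4160, 28460) (by decide +kernel)
                    (CovZ.subM 604462912059425786167296 (by decide +kernel)
                     (CovZ.n2 (4170, 28470) (by decide +kernel)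
                      (CovZ.n2 (4170, 28460) (by decide +kernel)
                       (CovZ.leaf K2_ok TE_l17777 _)
                       (CovZ.leaf K2_ok TE_l17778 _))
                      (CovZ.n1 (4160, 28470) (by decide +kernel)
                       (CovZ.n2 (4165, 28475) (by decide +kernel)
                        (CovZ.leaf K2_ok TE_l17779 _)
                        (CovZ.leaf K2_ok TE_l17780 _))
                       (CovZ.leaf K2_ok TE_l17781 _))))
                    (CovZ.leaf K2_ok TE_l9003 _)))
                  (CovZ.n1 (4180, 28420) (by decide +kernel)
                   (CovZ.n2 (4160, 28420) (by decide +kernel)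
                    (CovZ.leaf K2_ok TE_l9004 _)
                    (CovZ.leaf K2_ok TE_l9005 _))
                   (CovZ.n1 (4180, 28440) (by decide +kernel)
                    (CovZ.leaf K2_ok TE_l9006 _)
                    (CovZ.leaf K2_ok TE_l9007 _))))))
               (CovZ.n1 (4200, 28360) (by decide +kernel)
                (CovZ.n2 (4160, 28360) (by decide +kernel)
                 (CovZ.leaf K2_ok TE_l9008 _)
                 (CovZ.leaf K2_ok TE_l9009 _))
                (CovZ.n1 (4200, 28400) (by decide +kernel)
                 (CovZ.leaf K2_ok TE_l9010 _)
                 (CovZ.leaf K2_ok TE_l9011 _))))))
            (CovZ.n1 (4240, 28240) (by decide +kernel)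
             (CovZ.n2 (4160, 28240) (by decide +kernel)
              (CovZ.n2 (4200, 28280) (by decide +kernel)
               (CovZ.leaf K2_ok TE_l9012 _)
               (CovZ.leaf K2_ok TE_l9013 _))
              (CovZ.leaf K2_ok TE_l9014 _))
             (CovZ.subM 401734511064747568885491187699288543881847708598163015279760 (by decide +kernel)
              (CovZ.n1 (4240, 28320) (by decide +kernel)
               (CovZ.n2 (4280, 28280) (by decide +kernel)
                (CovZ.leaf K2_ok TE_l9015 _)
                (CovZ.leaf K2_ok TE_l9016 _))
               (CovZ.n1 (4200, 28280) (by decide +kernel)
                (CovZ.leaf K2_ok TE_l9017 _)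
                (CovZ.leaf K2_ok TE_l9018 _))))))))

theorem TE_u145 : CovZ TE_M (toL (selN TE_LN 401832590779362985946650693772546656622836231257670226550928)) [0, 7, 6, 1] (4800, 28160) (4800, 28320) (4640, 28320) :=
    (CovZ.n2 (4720, 28240) (by decide +kernel)
               (CovZ.subM 98079714615417061159506073258113081001848548557353648272 (by decide +kernel)
                (CovZ.n2 (4720, 28320) (by decide +kernel)
                 (CovZ.n2 (4760, 28280) (by decide +kernel)
                  (CovZ.n2 (4720, 28280) (by decide +kernel)
                   (CovZ.subM 98079714615417061159506073258113081001848267082368548864 (by decide +kernel)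
                    (CovZ.n2 (4740, 28300) (by decide +kernel)
                     (CovZ.n2 (4740, 28280) (by decide +kernel)
                      (CovZ.leaf K2_ok TE_l9019 _)
                      (CovZ.n1 (4750, 28290) (by decide +kernel)
                       (CovZ.leaf K2_ok TE_l9020 _)
                       (CovZ.leaf K2_ok TE_l9021 _)))
                     (CovZ.n1 (4720, 28300) (by decide +kernel)
                      (CovZ.n2 (4730, 28310) (by decide +kernel)
                       (CovZ.leaf K2_ok TE_l17782 _)
                       (CovZ.n1 (4720, 28310) (by decide +kernel)
                        (CovZ.leaf K2_ok TE_l17783 _)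
                        (CovZ.leaf K2_ok TE_l17784 _)))
                      (CovZ.n1 (4730, 28290) (by decide +kernel)
                       (CovZ.leaf K2_ok TE_l9022 _)
                       (CovZ.leaf K2_ok TE_l9023 _)))))
                   (CovZ.n1 (4740, 28260) (by decide +kernel)
                    (CovZ.n2 (4720, 28260) (by decide +kernel)
                     (CovZ.leaf K2_ok TE_l9024 _)
                     (CovZ.leaf K2_ok TE_l9025 _))
                    (CovZ.n1 (4740, 28280) (by decide +kernel)
                     (CovZ.leaf K2_ok TE_l9026 _)
                     (CovZ.leaf K2_ok TE_l9027 _))))
                  (CovZ.subM 98079714615417061159506073258113080999542424073154854912 (by decide +kernel)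
                   (CovZ.n1 (4760, 28320) (by decide +kernel)
                    (CovZ.n2 (4780, 28300) (by decide +kernel)
                     (CovZ.n2 (4760, 28300) (by decide +kernel)
                      (CovZ.n2 (4770, 28310) (by decide +kernel)
                       (CovZ.n2 (4770, 28300) (by decide +kernel)
                        (CovZ.leaf K2_ok TE_l17785 _)
                        (CovZ.n1 (4775, 28305) (by decide +kernel)
                         (CovZ.badM (by decide +kernel))
                         (CovZ.badM (by decide +kernel))))
                       (CovZ.n1 (4760, 28310) (by decide +kernel)
                        (CovZ.badM (by decide +kernel))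
                        (CovZ.n1 (4765, 28305) (by decide +kernel)
                         (CovZ.leaf K2_ok TE_l17786 _)
                         (CovZ.badM (by decide +kernel)))))
                      (CovZ.n1 (4770, 28290) (by decide +kernel)
                       (CovZ.leaf K2_ok TE_l9028 _)
                       (CovZ.n1 (4770, 28300) (by decide +kernel)
                        (CovZ.leaf K2_ok TE_l17787 _)
                        (CovZ.leaf K2_ok TE_l17788 _))))
                     (CovZ.n1 (4780, 28320) (by decide +kernel)
                      (CovZ.n2 (4790, 28310) (by decide +kernel)
                       (CovZ.n2 (4780, 28310) (by decide +kernel)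
                        (CovZ.badM (by decide +kernel))
                        (CovZ.badM (by decide +kernel)))
                       (CovZ.badM (by decide +kernel)))
                      (CovZ.n1 (4770, 28310) (by decide +kernel)
                       (CovZ.badM (by decide +kernel))
                       (CovZ.n1 (4780, 28310) (by decide +kernel)
                        (CovZ.n2 (4775, 28305) (by decide +kernel)
                         (CovZ.badM (by decide +kernel))
                         (CovZ.badM (by decide +kernel)))
                        (CovZ.badM (by decide +kernel))))))
                    (CovZ.n1 (4740, 28300) (by decide +kernel)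
                     (CovZ.n2 (4740, 28320) (by decide +kernel)
                      (CovZ.n2 (4750, 28310) (by decide +kernel)
                       (CovZ.n2 (4740, 28310) (by decide +kernel)
                        (CovZ.n2 (4745, 28315) (by decide +kernel)
                         (CovZ.leaf K2_ok TE_l17789 _)
                         (CovZ.leaf K2_ok TE_l17790 _))
                        (CovZ.leaf K2_ok TE_l17791 _))
                       (CovZ.n1 (4750, 28320) (by decide +kernel)
                        (CovZ.n2 (4755, 28315) (by decide +kernel)
                         (CovZ.leaf K2_ok TE_l17792 _)
                         (CovZ.badM (by decide +kernel)))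
                        (CovZ.n1 (4745, 28315) (by decide +kernel)
                         (CovZ.badM (by decide +kernel))
                         (CovZ.leaf K2_ok TE_l17793 _))))
                      (CovZ.n1 (4730, 28310) (by decide +kernel)
                       (CovZ.n2 (4730, 28320) (by decide +kernel)
                        (CovZ.leaf K2_ok TE_l17794 _)
                        (CovZ.n1 (4725, 28315) (by decide +kernel)
                         (CovZ.leaf K2_ok TE_l17795 _)
                         (CovZ.leaf K2_ok TE_l17796 _)))
                       (CovZ.leaf K2_ok TE_l17797 _)))
                     (CovZ.n1 (4760, 28300) (by decide +kernel)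
                      (CovZ.n2 (4750, 28290) (by decide +kernel)
                       (CovZ.leaf K2_ok TE_l17798 _)
                       (CovZ.leaf K2_ok TE_l9029 _))
                      (CovZ.n1 (4750, 28310) (by decide +kernel)
                       (CovZ.n2 (4760, 28310) (by decide +kernel)
                        (CovZ.leaf K2_ok TE_l17799 _)
                        (CovZ.n1 (4755, 28315) (by decide +kernel)
                         (CovZ.badM (by decide +kernel))
                         (CovZ.leaf K2_ok TE_l17800 _)))
                       (CovZ.leaf K2_ok TE_l17801 _)))))))
                 (CovZ.n1 (4680, 28280) (by decide +kernel)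
                  (CovZ.n2 (4680, 28320) (by decide +kernel)
                   (CovZ.n2 (4700, 28300) (by decide +kernel)
                    (CovZ.n2 (4680, 28300) (by decide +kernel)
                     (CovZ.n2 (4690, 28310) (by decide +kernel)
                      (CovZ.leaf K2_ok TE_l9030 _)
                      (CovZ.leaf K2_ok TE_l9031 _))
                     (CovZ.leaf K2_ok TE_l9032 _))
                    (CovZ.subM 174224571863520493293250249244737594720256 (by decide +kernel)
                     (CovZ.n1 (4700, 28320) (by decide +kernel)
                      (CovZ.n2 (4710, 28310) (by decide +kernel)
                       (CovZ.leaf K2_ok TE_l9033 _)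
                       (CovZ.leaf K2_ok TE_l17802 _))
                      (CovZ.n1 (4690, 28310) (by decide +kernel)
                       (CovZ.leaf K2_ok TE_l9034 _)
                       (CovZ.leaf K2_ok TE_l9035 _)))))
                   (CovZ.n1 (4660, 28300) (by decide +kernel)
                    (CovZ.n2 (4660, 28320) (by decide +kernel)
                     (CovZ.leaf K2_ok TE_l9036 _)
                     (CovZ.leaf K2_ok TE_l9037 _))
                    (CovZ.n1 (4680, 28300) (by decide +kernel)
                     (CovZ.leaf K2_ok TE_l9038 _)
                     (CovZ.leaf K2_ok TE_l9039 _))))
                  (CovZ.n1 (4720, 28280) (by decide +kernel)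
                   (CovZ.n2 (4700, 28260) (by decide +kernel)
                    (CovZ.leaf K2_ok TE_l9040 _)
                    (CovZ.leaf K2_ok TE_l9041 _))
                   (CovZ.n1 (4700, 28300) (by decide +kernel)
                    (CovZ.n2 (4720, 28300) (by decide +kernel)
                     (CovZ.leaf K2_ok TE_l9042 _)
                     (CovZ.leaf K2_ok TE_l9043 _))
                    (CovZ.leaf K2_ok TE_l9044 _))))))
               (CovZ.n1 (4800, 28240) (by decide +kernel)
                (CovZ.n2 (4760, 28200) (by decide +kernel)
                 (CovZ.n2 (4760, 28240) (by decide +kernel)
                  (CovZ.n2 (4780, 28220) (by decide +kernel)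
                   (CovZ.leaf K2_ok TE_l9045 _)
                   (CovZ.leaf K2_ok TE_l9046 _))
                  (CovZ.n1 (4740, 28220) (by decide +kernel)
                   (CovZ.leaf K2_ok TE_l9047 _)
                   (CovZ.leaf K2_ok TE_l9048 _)))
                 (CovZ.n1 (4800, 28200) (by decide +kernel)
                  (CovZ.leaf K2_ok TE_l9049 _)
                  (CovZ.n1 (4780, 28220) (by decide +kernel)
                   (CovZ.leaf K2_ok TE_l9050 _)
                   (CovZ.leaf K2_ok TE_l9051 _))))
                (CovZ.subM 98079714615417061159506073258113081001848267082913808528 (by decide +kernel)
                 (CovZ.n1 (4760, 28280) (by decide +kernel)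
                  (CovZ.subM 144115188616921104 (by decide +kernel)
                   (CovZ.n2 (4800, 28280) (by decide +kernel)
                    (CovZ.n2 (4780, 28260) (by decide +kernel)
                     (CovZ.n2 (4780, 28280) (by decide +kernel)
                      (CovZ.n2 (4790, 28270) (by decide +kernel)
                       (CovZ.leaf K2_ok TE_l9052 _)
                       (CovZ.leaf K2_ok TE_l9053 _))
                      (CovZ.leaf K2_ok TE_l9054 _))
                     (CovZ.n1 (4800, 28260) (by decide +kernel)
                      (CovZ.leaf K2_ok TE_l9055 _)
                      (CovZ.leaf K2_ok TE_l9056 _)))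
                    (CovZ.n1 (4780, 28300) (by decide +kernel)
                     (CovZ.badM (by decide +kernel))
                     (CovZ.n1 (4780, 28280) (by decide +kernel)
                      (CovZ.n2 (4770, 28290) (by decide +kernel)
                       (CovZ.n2 (4780, 28290) (by decide +kernel)
                        (CovZ.leaf K2_ok TE_l17803 _)
                        (CovZ.leaf K2_ok TE_l17804 _))
                       (CovZ.leaf K2_ok TE_l9057 _))
                      (CovZ.badM (by decide +kernel))))))
                  (CovZ.n1 (4760, 28240) (by decide +kernel)
                   (CovZ.n2 (4740, 28260) (by decide +kernel)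
                    (CovZ.leaf K2_ok TE_l9058 _)
                    (CovZ.leaf K2_ok TE_l9059 _))
                   (CovZ.subM 2449958197830615056 (by decide +kernel)
                    (CovZ.n1 (4780, 28260) (by decide +kernel)
                     (CovZ.leaf K2_ok TE_l9060 _)
                     (CovZ.n1 (4760, 28260) (by decide +kernel)
                      (CovZ.n2 (4770, 28270) (by decide +kernel)
                       (CovZ.leaf K2_ok TE_l9061 _)
                       (CovZ.leaf K2_ok TE_l9062 _))
                      (CovZ.leaf K2_ok TE_l9063 _)))))))))

theorem TE_u146 : CovZ TE_M (toL (selN TE_LN 401832590779362985946650693772546656622836231257670226550928)) [0, 7, 6, 1] (4800, 28320) (4800, 28480) (4640, 28320) :=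
    (CovZ.subM 174224571863520493293250249244737594720384 (by decide +kernel)
               (CovZ.n1 (4720, 28400) (by decide +kernel)
                (CovZ.n2 (4800, 28400) (by decide +kernel)
                 (CovZ.n2 (4760, 28360) (by decide +kernel)
                  (CovZ.badM (by decide +kernel))
                  (CovZ.badM (by decide +kernel)))
                 (CovZ.badM (by decide +kernel)))
                (CovZ.n1 (4720, 28320) (by decide +kernel)
                 (CovZ.n2 (4680, 28360) (by decide +kernel)
                  (CovZ.subM 281474980904960 (by decide +kernel)
                   (CovZ.n2 (4720, 28360) (by decide +kernel)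
                    (CovZ.n2 (4700, 28340) (by decide +kernel)
                     (CovZ.badM (by decide +kernel))
                     (CovZ.n1 (4720, 28340) (by decide +kernel)
                      (CovZ.n2 (4710, 28330) (by decide +kernel)
                       (CovZ.badM (by decide +kernel))
                       (CovZ.n1 (4720, 28330) (by decide +kernel)
                        (CovZ.n2 (4715, 28325) (by decide +kernel)
                         (CovZ.badM (by decide +kernel))
                         (CovZ.leaf K2_ok TE_l17805 _))
                        (CovZ.badM (by decide +kernel))))
                      (CovZ.badM (by decide +kernel))))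
                    (CovZ.badM (by decide +kernel))))
                  (CovZ.n1 (4680, 28320) (by decide +kernel)
                   (CovZ.n2 (4660, 28340) (by decide +kernel)
                    (CovZ.subM 2306124484194598912 (by decide +kernel)
                     (CovZ.n2 (4680, 28340) (by decide +kernel)
                      (CovZ.n2 (4670, 28330) (by decide +kernel)
                       (CovZ.n2 (4670, 28340) (by decide +kernel)
                        (CovZ.leaf K2_ok TE_l17806 _)
                        (CovZ.leaf K2_ok TE_l17807 _))
                       (CovZ.leaf K2_ok TE_l17808 _))
                      (CovZ.n1 (4670, 28350) (by decide +kernel)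
                       (CovZ.n2 (4680, 28350) (by decide +kernel)
                        (CovZ.n2 (4675, 28345) (by decide +kernel)
                         (CovZ.badM (by decide +kernel))
                         (CovZ.leaf K2_ok TE_l17809 _))
                        (CovZ.badM (by decide +kernel)))
                       (CovZ.n1 (4670, 28340) (by decide +kernel)
                        (CovZ.leaf K2_ok TE_l17810 _)
                        (CovZ.n1 (4675, 28345) (by decide +kernel)
                         (CovZ.leaf K2_ok TE_l17811 _)
                         (CovZ.leaf K2_ok TE_l17812 _))))))
                    (CovZ.n1 (4660, 28320) (by decide +kernel)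
                     (CovZ.n2 (4650, 28330) (by decide +kernel)
                      (CovZ.leaf K2_ok TE_l9064 _)
                      (CovZ.leaf K2_ok TE_l9065 _))
                     (CovZ.n1 (4670, 28330) (by decide +kernel)
                      (CovZ.leaf K2_ok TE_l9066 _)
                      (CovZ.leaf K2_ok TE_l9067 _))))
                   (CovZ.subM 2306124484194598912 (by decide +kernel)
                    (CovZ.n1 (4700, 28340) (by decide +kernel)
                     (CovZ.n2 (4700, 28320) (by decide +kernel)
                      (CovZ.n2 (4690, 28330) (by decide +kernel)
                       (CovZ.leaf K2_ok TE_l17813 _)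
                       (CovZ.leaf K2_ok TE_l17814 _))
                      (CovZ.n1 (4710, 28330) (by decide +kernel)
                       (CovZ.n2 (4710, 28320) (by decide +kernel)
                        (CovZ.leaf K2_ok TE_l17815 _)
                        (CovZ.n1 (4715, 28325) (by decide +kernel)
                         (CovZ.leaf K2_ok TE_l17816 _)
                         (CovZ.leaf K2_ok TE_l17817 _)))
                       (CovZ.n1 (4700, 28330) (by decide +kernel)
                        (CovZ.badM (by decide +kernel))
                        (CovZ.leaf K2_ok TE_l17818 _))))
                     (CovZ.n1 (4680, 28340) (by decide +kernel)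
                      (CovZ.n2 (4690, 28350) (by decide +kernel)
                       (CovZ.n2 (4690, 28340) (by decide +kernel)
                        (CovZ.n2 (4685, 28345) (by decide +kernel)
                         (CovZ.badM (by decide +kernel))
                         (CovZ.leaf K2_ok TE_l17819 _))
                        (CovZ.badM (by decide +kernel)))
                       (CovZ.n1 (4680, 28350) (by decide +kernel)
                        (CovZ.badM (by decide +kernel))
                        (CovZ.n1 (4685, 28345) (by decide +kernel)
                         (CovZ.leaf K2_ok TE_l17820 _)
                         (CovZ.badM (by decide +kernel)))))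
                      (CovZ.n1 (4690, 28330) (by decide +kernel)
                       (CovZ.n2 (4680, 28330) (by decide +kernel)
                        (CovZ.leaf K2_ok TE_l17821 _)
                        (CovZ.leaf K2_ok TE_l17822 _))
                       (CovZ.n1 (4690, 28340) (by decide +kernel)
                        (CovZ.leaf K2_ok TE_l17823 _)
                        (CovZ.n1 (4685, 28335) (by decide +kernel)
                         (CovZ.leaf K2_ok TE_l17824 _)
                         (CovZ.leaf K2_ok TE_l17825 _)))))))))
                 (CovZ.subM 174224571863520493293247799286540305170432 (by decide +kernel)
                  (CovZ.n1 (4760, 28360) (by decide +kernel)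
                   (CovZ.n2 (4760, 28320) (by decide +kernel)
                    (CovZ.n2 (4740, 28340) (by decide +kernel)
                     (CovZ.badM (by decide +kernel))
                     (CovZ.n1 (4740, 28320) (by decide +kernel)
                      (CovZ.n2 (4730, 28330) (by decide +kernel)
                       (CovZ.badM (by decide +kernel))
                       (CovZ.n1 (4730, 28320) (by decide +kernel)
                        (CovZ.leaf K2_ok TE_l17826 _)
                        (CovZ.badM (by decide +kernel))))
                      (CovZ.badM (by decide +kernel))))
                    (CovZ.badM (by decide +kernel)))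
                   (CovZ.n1 (4720, 28360) (by decide +kernel)
                    (CovZ.badM (by decide +kernel))
                    (CovZ.n1 (4740, 28340) (by decide +kernel)
                     (CovZ.n2 (4720, 28340) (by decide +kernel)
                      (CovZ.badM (by decide +kernel))
                      (CovZ.n1 (4730, 28330) (by decide +kernel)
                       (CovZ.n2 (4720, 28330) (by decide +kernel)
                        (CovZ.badM (by decide +kernel))
                        (CovZ.n1 (4725, 28325) (by decide +kernel)
                         (CovZ.leaf K2_ok TE_l17827 _)
                         (CovZ.badM (by decide +kernel))))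
                       (CovZ.badM (by decide +kernel))))
                     (CovZ.badM (by decide +kernel)))))))))

theorem TE_u147 : CovZ TE_M (toL (selN TE_LN 401832590779362985772426121909026163329588431971129925574800)) [0, 7, 6, 1] (4800, 28160) (4960, 28160) (4960, 28320) :=
    (CovZ.n2 (4880, 28240) (by decide +kernel)
               (CovZ.subM 401734511064747568885491187699288543390718799372471765041152 (by decide +kernel)
                (CovZ.n2 (4960, 28240) (by decide +kernel)
                 (CovZ.n2 (4920, 28200) (by decide +kernel)
                  (CovZ.n2 (4920, 28240) (by decide +kernel)
                   (CovZ.n2 (4940, 28220) (by decide +kernel)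
                    (CovZ.n2 (4920, 28220) (by decide +kernel)
                     (CovZ.badM (by decide +kernel))
                     (CovZ.n1 (4930, 28210) (by decide +kernel)
                      (CovZ.n2 (4920, 28210) (by decide +kernel)
                       (CovZ.badM (by decide +kernel))
                       (CovZ.n1 (4925, 28205) (by decide +kernel)
                        (CovZ.n2 (4920, 28205) (by decide +kernel)
                         (CovZ.badM (by decide +kernel))
                         (CovZ.leaf K2_ok TE_l17828 _))
                        (CovZ.badM (by decide +kernel))))
                      (CovZ.badM (by decide +kernel))))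
                    (CovZ.badM (by decide +kernel)))
                   (CovZ.n1 (4900, 28220) (by decide +kernel)
                    (CovZ.n2 (4900, 28240) (by decide +kernel)
                     (CovZ.n2 (4910, 28230) (by decide +kernel)
                      (CovZ.n2 (4900, 28230) (by decide +kernel)
                       (CovZ.badM (by decide +kernel))
                       (CovZ.n1 (4905, 28225) (by decide +kernel)
                        (CovZ.n2 (4900, 28225) (by decide +kernel)
                         (CovZ.badM (by decide +kernel))
                         (CovZ.leaf K2_ok TE_l17829 _))
                        (CovZ.badM (by decide +kernel))))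
                      (CovZ.badM (by decide +kernel)))
                     (CovZ.n1 (4890, 28230) (by decide +kernel)
                      (CovZ.badM (by decide +kernel))
                      (CovZ.n1 (4900, 28230) (by decide +kernel)
                       (CovZ.n2 (4895, 28225) (by decide +kernel)
                        (CovZ.n2 (4895, 28230) (by decide +kernel)
                         (CovZ.leaf K2_ok TE_l17830 _)
                         (CovZ.leaf K2_ok TE_l17831 _))
                        (CovZ.n1 (4900, 28225) (by decide +kernel)
                         (CovZ.leaf K2_ok TE_l17832 _)
                         (CovZ.leaf K2_ok TE_l17833 _)))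
                       (CovZ.badM (by decide +kernel)))))
                    (CovZ.n1 (4920, 28220) (by decide +kernel)
                     (CovZ.n2 (4910, 28210) (by decide +kernel)
                      (CovZ.n2 (4910, 28220) (by decide +kernel)
                       (CovZ.n2 (4915, 28215) (by decide +kernel)
                        (CovZ.leaf K2_ok TE_l17834 _)
                        (CovZ.badM (by decide +kernel)))
                       (CovZ.leaf K2_ok TE_l17835 _))
                      (CovZ.n1 (4920, 28210) (by decide +kernel)
                       (CovZ.leaf K2_ok TE_l17836 _)
                       (CovZ.n1 (4915, 28215) (by decide +kernel)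
                        (CovZ.badM (by decide +kernel))
                        (CovZ.leaf K2_ok TE_l17837 _))))
                     (CovZ.n1 (4910, 28230) (by decide +kernel)
                      (CovZ.badM (by decide +kernel))
                      (CovZ.n1 (4910, 28220) (by decide +kernel)
                       (CovZ.n2 (4905, 28225) (by decide +kernel)
                        (CovZ.badM (by decide +kernel))
                        (CovZ.leaf K2_ok TE_l17838 _))
                       (CovZ.badM (by decide +kernel)))))))
                  (CovZ.n1 (4960, 28200) (by decide +kernel)
                   (CovZ.n2 (4940, 28180) (by decide +kernel)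
                    (CovZ.n2 (4940, 28200) (by decide +kernel)
                     (CovZ.n2 (4950, 28190) (by decide +kernel)
                      (CovZ.n2 (4940, 28190) (by decide +kernel)
                       (CovZ.n2 (4945, 28195) (by decide +kernel)
                        (CovZ.leaf K2_ok TE_l17839 _)
                        (CovZ.leaf K2_ok TE_l17840 _))
                       (CovZ.leaf K2_ok TE_l17841 _))
                      (CovZ.n1 (4950, 28200) (by decide +kernel)
                       (CovZ.badM (by decide +kernel))
                       (CovZ.n1 (4945, 28195) (by decide +kernel)
                        (CovZ.badM (by decide +kernel))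
                        (CovZ.badM (by decide +kernel)))))
                     (CovZ.n1 (4930, 28190) (by decide +kernel)
                      (CovZ.n2 (4930, 28200) (by decide +kernel)
                       (CovZ.n2 (4935, 28195) (by decide +kernel)
                        (CovZ.leaf K2_ok TE_l17842 _)
                        (CovZ.leaf K2_ok TE_l19642 _))
                       (CovZ.n1 (4925, 28195) (by decide +kernel)
                        (CovZ.leaf K2_ok TE_l17843 _)
                        (CovZ.leaf K2_ok TE_l17844 _)))
                      (CovZ.n1 (4940, 28190) (by decide +kernel)
                       (CovZ.leaf K2_ok TE_l17845 _)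
                       (CovZ.leaf K2_ok TE_l17846 _))))
                    (CovZ.n1 (4960, 28180) (by decide +kernel)
                     (CovZ.n2 (4950, 28170) (by decide +kernel)
                      (CovZ.n2 (4950, 28180) (by decide +kernel)
                       (CovZ.n2 (4955, 28175) (by decide +kernel)
                        (CovZ.leaf K2_ok TE_l17847 _)
                        (CovZ.badM (by decide +kernel)))
                       (CovZ.leaf K2_ok TE_l17848 _))
                      (CovZ.n1 (4960, 28170) (by decide +kernel)
                       (CovZ.leaf K2_ok TE_l17849 _)
                       (CovZ.leaf K2_ok TE_l17850 _)))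
                     (CovZ.n1 (4950, 28190) (by decide +kernel)
                      (CovZ.badM (by decide +kernel))
                      (CovZ.n1 (4950, 28180) (by decide +kernel)
                       (CovZ.leaf K2_ok TE_l17851 _)
                       (CovZ.badM (by decide +kernel))))))
                   (CovZ.n1 (4940, 28220) (by decide +kernel)
                    (CovZ.badM (by decide +kernel))
                    (CovZ.n1 (4940, 28200) (by decide +kernel)
                     (CovZ.n2 (4930, 28210) (by decide +kernel)
                      (CovZ.badM (by decide +kernel))
                      (CovZ.n1 (4930, 28200) (by decide +kernel)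
                       (CovZ.n2 (4925, 28205) (by decide +kernel)
                        (CovZ.badM (by decide +kernel))
                        (CovZ.leaf K2_ok TE_l17852 _))
                       (CovZ.badM (by decide +kernel))))
                     (CovZ.badM (by decide +kernel))))))
                 (CovZ.badM (by decide +kernel))))
               (CovZ.n1 (4880, 28160) (by decide +kernel)
                (CovZ.n2 (4840, 28200) (by decide +kernel)
                 (CovZ.subM 401734511064747568885491187699288543390718799372472301912080 (by decide +kernel)
                  (CovZ.n2 (4880, 28200) (by decide +kernel)
                   (CovZ.n2 (4860, 28180) (by decide +kernel)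
                    (CovZ.leaf K2_ok TE_l9094 _)
                    (CovZ.leaf K2_ok TE_l9095 _))
                   (CovZ.subM 401734511064747568885490523085290650630550892560886821552144 (by decide +kernel)
                    (CovZ.n1 (4860, 28220) (by decide +kernel)
                     (CovZ.n2 (4880, 28220) (by decide +kernel)
                      (CovZ.n2 (4870, 28210) (by decide +kernel)
                       (CovZ.leaf K2_ok TE_l17853 _)
                       (CovZ.leaf K2_ok TE_l17854 _))
                      (CovZ.n1 (4870, 28230) (by decide +kernel)
                       (CovZ.n2 (4880, 28230) (by decide +kernel)
                        (CovZ.leaf K2_ok TE_l17855 _)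
                        (CovZ.leaf K2_ok TE_l17856 _))
                       (CovZ.leaf K2_ok TE_l17857 _)))
                     (CovZ.n1 (4860, 28200) (by decide +kernel)
                      (CovZ.leaf K2_ok TE_l9096 _)
                      (CovZ.n1 (4870, 28210) (by decide +kernel)
                       (CovZ.leaf K2_ok TE_l9097 _)
                       (CovZ.leaf K2_ok TE_l9098 _)))))))
                 (CovZ.n1 (4840, 28160) (by decide +kernel)
                  (CovZ.leaf K2_ok TE_l9099 _)
                  (CovZ.n1 (4860, 28180) (by decide +kernel)
                   (CovZ.leaf K2_ok TE_l9100 _)
                   (CovZ.leaf K2_ok TE_l9101 _))))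
                (CovZ.subM 401734511064747568885491187699288543390718799372472301912080 (by decide +kernel)
                 (CovZ.n1 (4920, 28200) (by decide +kernel)
                  (CovZ.n2 (4920, 28160) (by decide +kernel)
                   (CovZ.n2 (4900, 28180) (by decide +kernel)
                    (CovZ.n2 (4920, 28180) (by decide +kernel)
                     (CovZ.leaf K2_ok TE_l9102 _)
                     (CovZ.n1 (4910, 28190) (by decide +kernel)
                      (CovZ.leaf K2_ok TE_l17858 _)
                      (CovZ.leaf K2_ok TE_l9103 _)))
                    (CovZ.leaf K2_ok TE_l9104 _))
                   (CovZ.n1 (4940, 28180) (by decide +kernel)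
                    (CovZ.n2 (4940, 28160) (by decide +kernel)
                     (CovZ.leaf K2_ok TE_l9105 _)
                     (CovZ.n1 (4950, 28170) (by decide +kernel)
                      (CovZ.leaf K2_ok TE_l17859 _)
                      (CovZ.n1 (4940, 28170) (by decide +kernel)
                       (CovZ.leaf K2_ok TE_l17860 _)
                       (CovZ.leaf K2_ok TE_l17861 _))))
                    (CovZ.n1 (4920, 28180) (by decide +kernel)
                     (CovZ.n2 (4930, 28190) (by decide +kernel)
                      (CovZ.leaf K2_ok TE_l17862 _)
                      (CovZ.n1 (4920, 28190) (by decide +kernel)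
                       (CovZ.leaf K2_ok TE_l17863 _)
                       (CovZ.leaf K2_ok TE_l17864 _)))
                     (CovZ.n1 (4930, 28170) (by decide +kernel)
                      (CovZ.leaf K2_ok TE_l9106 _)
                      (CovZ.leaf K2_ok TE_l17865 _)))))
                  (CovZ.n1 (4880, 28200) (by decide +kernel)
                   (CovZ.subM 401734511064747568885490523085290650630550892560886821552144 (by decide +kernel)
                    (CovZ.n2 (4900, 28220) (by decide +kernel)
                     (CovZ.n2 (4900, 28200) (by decide +kernel)
                      (CovZ.n2 (4890, 28210) (by decide +kernel)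
                       (CovZ.leaf K2_ok TE_l17866 _)
                       (CovZ.leaf K2_ok TE_l17867 _))
                      (CovZ.n1 (4910, 28210) (by decide +kernel)
                       (CovZ.leaf K2_ok TE_l17868 _)
                       (CovZ.leaf K2_ok TE_l17869 _)))
                     (CovZ.n1 (4880, 28220) (by decide +kernel)
                      (CovZ.n2 (4890, 28230) (by decide +kernel)
                       (CovZ.n2 (4890, 28220) (by decide +kernel)
                        (CovZ.leaf K2_ok TE_l17870 _)
                        (CovZ.n1 (4895, 28225) (by decide +kernel)
                         (CovZ.leaf K2_ok TE_l17871 _)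
                         (CovZ.leaf K2_ok TE_l17872 _)))
                       (CovZ.n1 (4880, 28230) (by decide +kernel)
                        (CovZ.n2 (4885, 28235) (by decide +kernel)
                         (CovZ.leaf K2_ok TE_l17873 _)
                         (CovZ.leaf K2_ok TE_l17874 _))
                        (CovZ.leaf K2_ok TE_l17875 _)))
                      (CovZ.n1 (4890, 28210) (by decide +kernel)
                       (CovZ.n2 (4880, 28210) (by decide +kernel)
                        (CovZ.leaf K2_ok TE_l17876 _)
                        (CovZ.leaf K2_ok TE_l17877 _))
                       (CovZ.leaf K2_ok TE_l17878 _)))))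
                   (CovZ.n1 (4900, 28180) (by decide +kernel)
                    (CovZ.n2 (4880, 28180) (by decide +kernel)
                     (CovZ.n2 (4890, 28190) (by decide +kernel)
                      (CovZ.leaf K2_ok TE_l9107 _)
                      (CovZ.leaf K2_ok TE_l9108 _))
                     (CovZ.leaf K2_ok TE_l9109 _))
                    (CovZ.n1 (4900, 28200) (by decide +kernel)
                     (CovZ.n2 (4910, 28190) (by decide +kernel)
                      (CovZ.leaf K2_ok TE_l9110 _)
                      (CovZ.leaf K2_ok TE_l9111 _))
                     (CovZ.n1 (4890, 28190) (by decide +kernel)
                      (CovZ.leaf K2_ok TE_l9112 _)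
                      (CovZ.leaf K2_ok TE_l9113 _)))))))))

theorem TE_u148 : CovZ TE_M (toL (selN TE_LN 401832590779362985772426121909026163329588431971129925574800)) [0, 7, 6, 1] (4960, 28160) (5120, 28160) (4960, 28320) :=
    (CovZ.subM 664613997892457936596023116262539264 (by decide +kernel)
               (CovZ.n1 (5040, 28240) (by decide +kernel)
                (CovZ.n2 (5040, 28160) (by decide +kernel)
                 (CovZ.n2 (5000, 28200) (by decide +kernel)
                  (CovZ.badM (by decide +kernel))
                  (CovZ.n1 (5000, 28160) (by decide +kernel)
                   (CovZ.n2 (4980, 28180) (by decide +kernel)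
                    (CovZ.n2 (5000, 28180) (by decide +kernel)
                     (CovZ.n2 (4990, 28170) (by decide +kernel)
                      (CovZ.badM (by decide +kernel))
                      (CovZ.badM (by decide +kernel)))
                     (CovZ.badM (by decide +kernel)))
                    (CovZ.n1 (4980, 28160) (by decide +kernel)
                     (CovZ.n2 (4970, 28170) (by decide +kernel)
                      (CovZ.n2 (4980, 28170) (by decide +kernel)
                       (CovZ.n2 (4975, 28165) (by decide +kernel)
                        (CovZ.leaf K2_ok TE_l17879 _)
                        (CovZ.leaf K2_ok TE_l17880 _))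
                       (CovZ.badM (by decide +kernel)))
                      (CovZ.n1 (4970, 28160) (by decide +kernel)
                       (CovZ.leaf K2_ok TE_l17881 _)
                       (CovZ.n1 (4975, 28165) (by decide +kernel)
                        (CovZ.leaf K2_ok TE_l17882 _)
                        (CovZ.leaf K2_ok TE_l17883 _))))
                     (CovZ.n1 (4990, 28170) (by decide +kernel)
                      (CovZ.n2 (4990, 28160) (by decide +kernel)
                       (CovZ.n2 (4985, 28165) (by decide +kernel)
                        (CovZ.badM (by decide +kernel))
                        (CovZ.leaf K2_ok TE_l17884 _))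
                       (CovZ.badM (by decide +kernel)))
                      (CovZ.n1 (4980, 28170) (by decide +kernel)
                       (CovZ.badM (by decide +kernel))
                       (CovZ.n1 (4985, 28165) (by decide +kernel)
                        (CovZ.leaf K2_ok TE_l17885 _)
                        (CovZ.badM (by decide +kernel)))))))
                   (CovZ.badM (by decide +kernel))))
                 (CovZ.badM (by decide +kernel)))
                (CovZ.n1 (4960, 28240) (by decide +kernel)
                 (CovZ.badM (by decide +kernel))
                 (CovZ.n1 (5000, 28200) (by decide +kernel)
                  (CovZ.n2 (4960, 28200) (by decide +kernel)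
                   (CovZ.badM (by decide +kernel))
                   (CovZ.n1 (4980, 28180) (by decide +kernel)
                    (CovZ.n2 (4960, 28180) (by decide +kernel)
                     (CovZ.badM (by decide +kernel))
                     (CovZ.n1 (4970, 28170) (by decide +kernel)
                      (CovZ.n2 (4960, 28170) (by decide +kernel)
                       (CovZ.badM (by decide +kernel))
                       (CovZ.leaf K2_ok TE_l17886 _))
                      (CovZ.badM (by decide +kernel))))
                    (CovZ.badM (by decide +kernel))))
                  (CovZ.badM (by decide +kernel))))))

theorem TE_u149 : CovZ TE_M (toL (selN TE_LN 2008770635038353261488612786113709259787285734939172922270864)) [0, 7, 6, 1] (4480, 28480) (4480, 28320) (4640, 28320) :=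
    (CovZ.subM 37786050224415460828288 (by decide +kernel)
              (CovZ.n2 (4560, 28400) (by decide +kernel)
               (CovZ.n2 (4560, 28320) (by decide +kernel)
                (CovZ.n2 (4520, 28360) (by decide +kernel)
                 (CovZ.n2 (4560, 28360) (by decide +kernel)
                  (CovZ.n2 (4540, 28340) (by decide +kernel)
                   (CovZ.leaf K2_ok TE_l9129 _)
                   (CovZ.leaf K2_ok TE_l9130 _))
                  (CovZ.n1 (4540, 28380) (by decide +kernel)
                   (CovZ.n2 (4560, 28380) (by decide +kernel)
                    (CovZ.n2 (4550, 28370) (by decide +kernel)
                     (CovZ.leaf K2_ok TE_l17923 _)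
                     (CovZ.leaf K2_ok TE_l9131 _))
                    (CovZ.n1 (4550, 28390) (by decide +kernel)
                     (CovZ.n2 (4560, 28390) (by decide +kernel)
                      (CovZ.leaf K2_ok TE_l17924 _)
                      (CovZ.leaf K2_ok TE_l17925 _))
                     (CovZ.leaf K2_ok TE_l17926 _)))
                   (CovZ.n1 (4540, 28360) (by decide +kernel)
                    (CovZ.leaf K2_ok TE_l9132 _)
                    (CovZ.n1 (4550, 28370) (by decide +kernel)
                     (CovZ.leaf K2_ok TE_l9133 _)
                     (CovZ.leaf K2_ok TE_l9134 _)))))
                 (CovZ.n1 (4520, 28320) (by decide +kernel)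
                  (CovZ.leaf K2_ok TE_l9135 _)
                  (CovZ.n1 (4540, 28340) (by decide +kernel)
                   (CovZ.leaf K2_ok TE_l9136 _)
                   (CovZ.n1 (4520, 28340) (by decide +kernel)
                    (CovZ.leaf K2_ok TE_l9137 _)
                    (CovZ.leaf K2_ok TE_l9138 _)))))
                (CovZ.n1 (4600, 28360) (by decide +kernel)
                 (CovZ.n2 (4600, 28320) (by decide +kernel)
                  (CovZ.n2 (4580, 28340) (by decide +kernel)
                   (CovZ.n2 (4600, 28340) (by decide +kernel)
                    (CovZ.leaf K2_ok TE_l9139 _)
                    (CovZ.leaf K2_ok TE_l9140 _))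
                   (CovZ.leaf K2_ok TE_l9141 _))
                  (CovZ.n1 (4620, 28340) (by decide +kernel)
                   (CovZ.n2 (4620, 28320) (by decide +kernel)
                    (CovZ.leaf K2_ok TE_l9142 _)
                    (CovZ.n1 (4630, 28330) (by decide +kernel)
                     (CovZ.leaf K2_ok TE_l9143 _)
                     (CovZ.leaf K2_ok TE_l9144 _)))
                   (CovZ.n1 (4600, 28340) (by decide +kernel)
                    (CovZ.n2 (4610, 28350) (by decide +kernel)
                     (CovZ.leaf K2_ok TE_l9145 _)
                     (CovZ.leaf K2_ok TE_l9146 _))
                    (CovZ.leaf K2_ok TE_l9147 _))))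
                 (CovZ.n1 (4560, 28360) (by decide +kernel)
                  (CovZ.n2 (4580, 28380) (by decide +kernel)
                   (CovZ.n2 (4580, 28360) (by decide +kernel)
                    (CovZ.leaf K2_ok TE_l17927 _)
                    (CovZ.subM 2308094843391312000 (by decide +kernel)
                     (CovZ.n1 (4590, 28370) (by decide +kernel)
                      (CovZ.leaf K2_ok TE_l17928 _)
                      (CovZ.n1 (4580, 28370) (by decide +kernel)
                       (CovZ.n2 (4585, 28375) (by decide +kernel)
                        (CovZ.leaf K2_ok TE_l17929 _)
                        (CovZ.leaf K2_ok TE_l17930 _))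
                       (CovZ.leaf K2_ok TE_l17931 _)))))
                   (CovZ.n1 (4560, 28380) (by decide +kernel)
                    (CovZ.subM 2392571665974400 (by decide +kernel)
                     (CovZ.n2 (4570, 28390) (by decide +kernel)
                      (CovZ.n2 (4570, 28380) (by decide +kernel)
                       (CovZ.leaf K2_ok TE_l17932 _)
                       (CovZ.leaf K2_ok TE_l17933 _))
                      (CovZ.n1 (4560, 28390) (by decide +kernel)
                       (CovZ.badM (by decide +kernel))
                       (CovZ.leaf K2_ok TE_l17934 _))))
                    (CovZ.n1 (4570, 28370) (by decide +kernel)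
                     (CovZ.leaf K2_ok TE_l9148 _)
                     (CovZ.n1 (4570, 28380) (by decide +kernel)
                      (CovZ.leaf K2_ok TE_l17935 _)
                      (CovZ.leaf K2_ok TE_l17936 _)))))
                  (CovZ.n1 (4580, 28340) (by decide +kernel)
                   (CovZ.n2 (4560, 28340) (by decide +kernel)
                    (CovZ.n2 (4570, 28350) (by decide +kernel)
                     (CovZ.leaf K2_ok TE_l9149 _)
                     (CovZ.leaf K2_ok TE_l9150 _))
                    (CovZ.leaf K2_ok TE_l9151 _))
                   (CovZ.n1 (4580, 28360) (by decide +kernel)
                    (CovZ.leaf K2_ok TE_l9152 _)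
                    (CovZ.leaf K2_ok TE_l9153 _))))))
               (CovZ.n1 (4480, 28400) (by decide +kernel)
                (CovZ.subM 37783579718544602955904 (by decide +kernel)
                 (CovZ.n2 (4520, 28440) (by decide +kernel)
                  (CovZ.n2 (4520, 28400) (by decide +kernel)
                   (CovZ.n2 (4500, 28420) (by decide +kernel)
                    (CovZ.subM 4647855553068925056 (by decide +kernel)
                     (CovZ.n2 (4520, 28420) (by decide +kernel)
                      (CovZ.n2 (4510, 28410) (by decide +kernel)
                       (CovZ.n2 (4510, 28420) (by decide +kernel)
                        (CovZ.n2 (4515, 28415) (by decide +kernel)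
                         (CovZ.n2 (4510, 28415) (by decide +kernel)
                          (CovZ.badM (by decide +kernel))
                          (CovZ.leaf K2_ok TE_l17937 _))
                         (CovZ.badM (by decide +kernel)))
                        (CovZ.n1 (4505, 28415) (by decide +kernel)
                         (CovZ.badM (by decide +kernel))
                         (CovZ.leaf K2_ok TE_l17938 _)))
                       (CovZ.n1 (4520, 28410) (by decide +kernel)
                        (CovZ.leaf K2_ok TE_l17939 _)
                        (CovZ.n1 (4515, 28415) (by decide +kernel)
                         (CovZ.badM (by decide +kernel))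
                         (CovZ.leaf K2_ok TE_l17940 _))))
                      (CovZ.badM (by decide +kernel))))
                    (CovZ.n1 (4500, 28400) (by decide +kernel)
                     (CovZ.n2 (4490, 28410) (by decide +kernel)
                      (CovZ.n2 (4500, 28410) (by decide +kernel)
                       (CovZ.leaf K2_ok TE_l17941 _)
                       (CovZ.n1 (4495, 28415) (by decide +kernel)
                        (CovZ.leaf K2_ok TE_l17942 _)
                        (CovZ.leaf K2_ok TE_l17943 _)))
                      (CovZ.leaf K2_ok TE_l17944 _))
                     (CovZ.n1 (4510, 28410) (by decide +kernel)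
                      (CovZ.n2 (4510, 28400) (by decide +kernel)
                       (CovZ.leaf K2_ok TE_l17945 _)
                       (CovZ.leaf K2_ok TE_l17946 _))
                      (CovZ.n1 (4500, 28410) (by decide +kernel)
                       (CovZ.n2 (4505, 28415) (by decide +kernel)
                        (CovZ.leaf K2_ok TE_l17947 _)
                        (CovZ.leaf K2_ok TE_l17948 _))
                       (CovZ.leaf K2_ok TE_l17949 _)))))
                   (CovZ.subM 4647855553068925056 (by decide +kernel)
                    (CovZ.n1 (4540, 28420) (by decide +kernel)
                     (CovZ.n2 (4540, 28400) (by decide +kernel)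
                      (CovZ.n2 (4530, 28410) (by decide +kernel)
                       (CovZ.n2 (4540, 28410) (by decide +kernel)
                        (CovZ.n2 (4535, 28405) (by decide +kernel)
                         (CovZ.n2 (4535, 28410) (by decide +kernel)
                          (CovZ.leaf K2_ok TE_l17950 _)
                          (CovZ.leaf K2_ok TE_l17951 _))
                         (CovZ.n1 (4540, 28405) (by decide +kernel)
                          (CovZ.leaf K2_ok TE_l17952 _)
                          (CovZ.leaf K2_ok TE_l17953 _)))
                        (CovZ.badM (by decide +kernel)))
                       (CovZ.n1 (4530, 28400) (by decide +kernel)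
                        (CovZ.leaf K2_ok TE_l17954 _)
                        (CovZ.n1 (4535, 28405) (by decide +kernel)
                         (CovZ.leaf K2_ok TE_l17955 _)
                         (CovZ.leaf K2_ok TE_l17956 _))))
                      (CovZ.n1 (4550, 28410) (by decide +kernel)
                       (CovZ.n2 (4550, 28400) (by decide +kernel)
                        (CovZ.n2 (4545, 28405) (by decide +kernel)
                         (CovZ.badM (by decide +kernel))
                         (CovZ.leaf K2_ok TE_l17957 _))
                        (CovZ.badM (by decide +kernel)))
                       (CovZ.n1 (4540, 28410) (by decide +kernel)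
                        (CovZ.badM (by decide +kernel))
                        (CovZ.n1 (4545, 28405) (by decide +kernel)
                         (CovZ.leaf K2_ok TE_l17958 _)
                         (CovZ.badM (by decide +kernel))))))
                     (CovZ.n1 (4520, 28420) (by decide +kernel)
                      (CovZ.badM (by decide +kernel))
                      (CovZ.n1 (4530, 28410) (by decide +kernel)
                       (CovZ.n2 (4520, 28410) (by decide +kernel)
                        (CovZ.n2 (4525, 28415) (by decide +kernel)
                         (CovZ.leaf K2_ok TE_l17959 _)
                         (CovZ.badM (by decide +kernel)))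
                        (CovZ.leaf K2_ok TE_l17960 _))
                       (CovZ.badM (by decide +kernel)))))))
                  (CovZ.n1 (4480, 28440) (by decide +kernel)
                   (CovZ.badM (by decide +kernel))
                   (CovZ.n1 (4500, 28420) (by decide +kernel)
                    (CovZ.n2 (4480, 28420) (by decide +kernel)
                     (CovZ.badM (by decide +kernel))
                     (CovZ.n1 (4490, 28410) (by decide +kernel)
                      (CovZ.n2 (4480, 28410) (by decide +kernel)
                       (CovZ.n2 (4485, 28415) (by decide +kernel)
                        (CovZ.leaf K2_ok TE_l17961 _)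
                        (CovZ.leaf K2_ok TE_l17962 _))
                       (CovZ.leaf K2_ok TE_l17963 _))
                      (CovZ.subM 37783543689713077452800 (by decide +kernel)
                       (CovZ.n1 (4490, 28420) (by decide +kernel)
                        (CovZ.n2 (4495, 28415) (by decide +kernel)
                         (CovZ.n2 (4490, 28415) (by decide +kernel)
                          (CovZ.leaf K2_ok TE_l17964 _)
                          (CovZ.leaf K2_ok TE_l17965 _))
                         (CovZ.leaf K2_ok TE_l17966 _))
                        (CovZ.n1 (4485, 28415) (by decide +kernel)
                         (CovZ.leaf K2_ok TE_l17967 _)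
                         (CovZ.leaf K2_ok TE_l17968 _))))))
                    (CovZ.badM (by decide +kernel))))))
                (CovZ.n1 (4520, 28360) (by decide +kernel)
                 (CovZ.n2 (4480, 28360) (by decide +kernel)
                  (CovZ.n2 (4500, 28380) (by decide +kernel)
                   (CovZ.leaf K2_ok TE_l9154 _)
                   (CovZ.n1 (4480, 28380) (by decide +kernel)
                    (CovZ.n2 (4490, 28390) (by decide +kernel)
                     (CovZ.leaf K2_ok TE_l9155 _)
                     (CovZ.leaf K2_ok TE_l9156 _))
                    (CovZ.leaf K2_ok TE_l9157 _)))
                  (CovZ.n1 (4500, 28340) (by decide +kernel)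
                   (CovZ.leaf K2_ok TE_l9158 _)
                   (CovZ.leaf K2_ok TE_l9159 _)))
                 (CovZ.n1 (4520, 28400) (by decide +kernel)
                  (CovZ.n2 (4540, 28380) (by decide +kernel)
                   (CovZ.n2 (4520, 28380) (by decide +kernel)
                    (CovZ.n2 (4530, 28390) (by decide +kernel)
                     (CovZ.leaf K2_ok TE_l17969 _)
                     (CovZ.n1 (4520, 28390) (by decide +kernel)
                      (CovZ.leaf K2_ok TE_l17970 _)
                      (CovZ.leaf K2_ok TE_l17971 _)))
                    (CovZ.leaf K2_ok TE_l9160 _))
                   (CovZ.subM 4650107387246544000 (by decide +kernel)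
                    (CovZ.n1 (4540, 28400) (by decide +kernel)
                     (CovZ.n2 (4550, 28390) (by decide +kernel)
                      (CovZ.n2 (4540, 28390) (by decide +kernel)
                       (CovZ.n2 (4545, 28395) (by decide +kernel)
                        (CovZ.leaf K2_ok TE_l17972 _)
                        (CovZ.leaf K2_ok TE_l17973 _))
                       (CovZ.leaf K2_ok TE_l17974 _))
                      (CovZ.subM 36169534507319424 (by decide +kernel)
                       (CovZ.n1 (4550, 28400) (by decide +kernel)
                        (CovZ.n2 (4555, 28395) (by decide +kernel)
                         (CovZ.leaf K2_ok TE_l17975 _)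
                         (CovZ.badM (by decide +kernel)))
                        (CovZ.n1 (4545, 28395) (by decide +kernel)
                         (CovZ.leaf K2_ok TE_l17976 _)
                         (CovZ.leaf K2_ok TE_l17977 _)))))
                     (CovZ.n1 (4530, 28390) (by decide +kernel)
                      (CovZ.leaf K2_ok TE_l17978 _)
                      (CovZ.leaf K2_ok TE_l17979 _)))))
                  (CovZ.n1 (4500, 28380) (by decide +kernel)
                   (CovZ.n2 (4500, 28400) (by decide +kernel)
                    (CovZ.leaf K2_ok TE_l9161 _)
                    (CovZ.n1 (4490, 28390) (by decide +kernel)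
                     (CovZ.leaf K2_ok TE_l9162 _)
                     (CovZ.leaf K2_ok TE_l9163 _)))
                   (CovZ.n1 (4520, 28380) (by decide +kernel)
                    (CovZ.leaf K2_ok TE_l9164 _)
                    (CovZ.leaf K2_ok TE_l9165 _))))))))

theorem TE_u150 : CovZ TE_M (toL (selN TE_LN 2018578606499897806768612166675694214377885338010413707636368)) [0, 7, 6, 1] (5120, 28160) (4800, 28480) (4480, 28160) :=
    (CovZ.subM 401832590779362985946650693772546657265082741156380623840400 (by decide +kernel)
          (CovZ.n2 (4800, 28160) (by decide +kernel)
           (CovZ.n2 (4640, 28320) (by decide +kernel)
            (CovZ.subM 401832590779362985946650693772546656622836231257670226550928 (by decide +kernel)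
             (CovZ.n2 (4800, 28320) (by decide +kernel)
              TE_u145
              TE_u146))
            (CovZ.n1 (4640, 28160) (by decide +kernel)
             (CovZ.n2 (4560, 28240) (by decide +kernel)
              (CovZ.n2 (4640, 28240) (by decide +kernel)
               (CovZ.n2 (4600, 28200) (by decide +kernel)
                (CovZ.leaf K2_ok TE_l9068 _)
                (CovZ.leaf K2_ok TE_l9069 _))
               (CovZ.n1 (4600, 28280) (by decide +kernel)
                (CovZ.n2 (4640, 28280) (by decide +kernel)
                 (CovZ.leaf K2_ok TE_l9070 _)
                 (CovZ.leaf K2_ok TE_l9071 _))
                (CovZ.n1 (4600, 28240) (by decide +kernel)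
                 (CovZ.leaf K2_ok TE_l9072 _)
                 (CovZ.leaf K2_ok TE_l9073 _))))
              (CovZ.n1 (4560, 28160) (by decide +kernel)
               (CovZ.leaf K2_ok TE_l9074 _)
               (CovZ.n1 (4600, 28200) (by decide +kernel)
                (CovZ.leaf K2_ok TE_l9075 _)
                (CovZ.leaf K2_ok TE_l9076 _))))
             (CovZ.n1 (4720, 28240) (by decide +kernel)
              (CovZ.n2 (4720, 28160) (by decide +kernel)
               (CovZ.n2 (4680, 28200) (by decide +kernel)
                (CovZ.leaf K2_ok TE_l9077 _)
                (CovZ.leaf K2_ok TE_l9078 _))
               (CovZ.n1 (4760, 28200) (by decide +kernel)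
                (CovZ.leaf K2_ok TE_l9079 _)
                (CovZ.n1 (4720, 28200) (by decide +kernel)
                 (CovZ.n2 (4740, 28220) (by decide +kernel)
                  (CovZ.leaf K2_ok TE_l9080 _)
                  (CovZ.leaf K2_ok TE_l9081 _))
                 (CovZ.leaf K2_ok TE_l9082 _))))
              (CovZ.n1 (4640, 28240) (by decide +kernel)
               (CovZ.subM 98079714615417061159506073258113081006460375347763355792 (by decide +kernel)
                (CovZ.n2 (4680, 28280) (by decide +kernel)
                 (CovZ.n2 (4680, 28240) (by decide +kernel)
                  (CovZ.leaf K2_ok TE_l9083 _)
                  (CovZ.n1 (4700, 28260) (by decide +kernel)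
                   (CovZ.leaf K2_ok TE_l9084 _)
                   (CovZ.leaf K2_ok TE_l9085 _)))
                 (CovZ.n1 (4640, 28280) (by decide +kernel)
                  (CovZ.n2 (4660, 28300) (by decide +kernel)
                   (CovZ.leaf K2_ok TE_l9086 _)
                   (CovZ.n1 (4640, 28300) (by decide +kernel)
                    (CovZ.leaf K2_ok TE_l9087 _)
                    (CovZ.leaf K2_ok TE_l9088 _)))
                  (CovZ.leaf K2_ok TE_l9089 _))))
               (CovZ.n1 (4680, 28200) (by decide +kernel)
                (CovZ.n2 (4640, 28200) (by decide +kernel)
                 (CovZ.leaf K2_ok TE_l9090 _)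
                 (CovZ.leaf K2_ok TE_l9091 _))
                (CovZ.n1 (4680, 28240) (by decide +kernel)
                 (CovZ.leaf K2_ok TE_l9092 _)
                 (CovZ.leaf K2_ok TE_l9093 _)))))))
           (CovZ.subM 401832590779362985772426121909026163329588431971129925574800 (by decide +kernel)
            (CovZ.n1 (4960, 28320) (by decide +kernel)
             (CovZ.n2 (4960, 28160) (by decide +kernel)
              TE_u147
              TE_u148)
             (CovZ.n1 (4800, 28320) (by decide +kernel)
              (CovZ.n2 (4880, 28400) (by decide +kernel)
               (CovZ.badM (by decide +kernel))
               (CovZ.badM (by decide +kernel)))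
              (CovZ.n1 (4880, 28240) (by decide +kernel)
               (CovZ.n2 (4800, 28240) (by decide +kernel)
                (CovZ.subM 144115188612726800 (by decide +kernel)
                 (CovZ.n2 (4840, 28280) (by decide +kernel)
                  (CovZ.n2 (4840, 28240) (by decide +kernel)
                   (CovZ.n2 (4820, 28260) (by decide +kernel)
                    (CovZ.n2 (4840, 28260) (by decide +kernel)
                     (CovZ.n2 (4830, 28250) (by decide +kernel)
                      (CovZ.leaf K2_ok TE_l17887 _)
                      (CovZ.leaf K2_ok TE_l17888 _))
                     (CovZ.n1 (4830, 28270) (by decide +kernel)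
                      (CovZ.n2 (4840, 28270) (by decide +kernel)
                       (CovZ.n2 (4835, 28265) (by decide +kernel)
                        (CovZ.leaf K2_ok TE_l17889 _)
                        (CovZ.leaf K2_ok TE_l17890 _))
                       (CovZ.n1 (4835, 28275) (by decide +kernel)
                        (CovZ.badM (by decide +kernel))
                        (CovZ.leaf K2_ok TE_l17891 _)))
                      (CovZ.leaf K2_ok TE_l17892 _)))
                    (CovZ.n1 (4820, 28240) (by decide +kernel)
                     (CovZ.leaf K2_ok TE_l9114 _)
                     (CovZ.n1 (4830, 28250) (by decide +kernel)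
                      (CovZ.leaf K2_ok TE_l17893 _)
                      (CovZ.n1 (4820, 28250) (by decide +kernel)
                       (CovZ.leaf K2_ok TE_l17894 _)
                       (CovZ.leaf K2_ok TE_l17895 _)))))
                   (CovZ.n1 (4860, 28260) (by decide +kernel)
                    (CovZ.n2 (4860, 28240) (by decide +kernel)
                     (CovZ.n2 (4850, 28250) (by decide +kernel)
                      (CovZ.n2 (4860, 28250) (by decide +kernel)
                       (CovZ.leaf K2_ok TE_l17896 _)
                       (CovZ.n1 (4855, 28255) (by decide +kernel)
                        (CovZ.badM (by decide +kernel))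
                        (CovZ.leaf K2_ok TE_l17897 _)))
                      (CovZ.leaf K2_ok TE_l17898 _))
                     (CovZ.n1 (4870, 28250) (by decide +kernel)
                      (CovZ.n2 (4870, 28240) (by decide +kernel)
                       (CovZ.leaf K2_ok TE_l17899 _)
                       (CovZ.badM (by decide +kernel)))
                      (CovZ.n1 (4860, 28250) (by decide +kernel)
                       (CovZ.badM (by decide +kernel))
                       (CovZ.leaf K2_ok TE_l17900 _))))
                    (CovZ.n1 (4840, 28260) (by decide +kernel)
                     (CovZ.n2 (4850, 28270) (by decide +kernel)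
                      (CovZ.n2 (4850, 28260) (by decide +kernel)
                       (CovZ.n2 (4845, 28265) (by decide +kernel)
                        (CovZ.badM (by decide +kernel))
                        (CovZ.leaf K2_ok TE_l17901 _))
                       (CovZ.badM (by decide +kernel)))
                      (CovZ.n1 (4840, 28270) (by decide +kernel)
                       (CovZ.badM (by decide +kernel))
                       (CovZ.n1 (4845, 28265) (by decide +kernel)
                        (CovZ.n2 (4840, 28265) (by decide +kernel)
                         (CovZ.badM (by decide +kernel))
                         (CovZ.leaf K2_ok TE_l17902 _))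
                        (CovZ.badM (by decide +kernel)))))
                     (CovZ.n1 (4850, 28250) (by decide +kernel)
                      (CovZ.n2 (4840, 28250) (by decide +kernel)
                       (CovZ.leaf K2_ok TE_l17903 _)
                       (CovZ.leaf K2_ok TE_l17904 _))
                      (CovZ.n1 (4850, 28260) (by decide +kernel)
                       (CovZ.n2 (4855, 28255) (by decide +kernel)
                        (CovZ.leaf K2_ok TE_l17905 _)
                        (CovZ.badM (by decide +kernel)))
                       (CovZ.n1 (4845, 28255) (by decide +kernel)
                        (CovZ.leaf K2_ok TE_l17906 _)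
                        (CovZ.leaf K2_ok TE_l17907 _)))))))
                  (CovZ.n1 (4800, 28280) (by decide +kernel)
                   (CovZ.n2 (4820, 28300) (by decide +kernel)
                    (CovZ.n2 (4820, 28280) (by decide +kernel)
                     (CovZ.n2 (4810, 28290) (by decide +kernel)
                      (CovZ.badM (by decide +kernel))
                      (CovZ.n1 (4810, 28280) (by decide +kernel)
                       (CovZ.badM (by decide +kernel))
                       (CovZ.badM (by decide +kernel))))
                     (CovZ.badM (by decide +kernel)))
                    (CovZ.badM (by decide +kernel)))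
                   (CovZ.n1 (4820, 28260) (by decide +kernel)
                    (CovZ.n2 (4800, 28260) (by decide +kernel)
                     (CovZ.n2 (4810, 28270) (by decide +kernel)
                      (CovZ.leaf K2_ok TE_l9115 _)
                      (CovZ.leaf K2_ok TE_l9116 _))
                     (CovZ.leaf K2_ok TE_l9117 _))
                    (CovZ.n1 (4820, 28280) (by decide +kernel)
                     (CovZ.n2 (4830, 28270) (by decide +kernel)
                      (CovZ.n2 (4820, 28270) (by decide +kernel)
                       (CovZ.n2 (4825, 28275) (by decide +kernel)
                        (CovZ.leaf K2_ok TE_l17908 _)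
                        (CovZ.leaf K2_ok TE_l17909 _))
                       (CovZ.leaf K2_ok TE_l17910 _))
                      (CovZ.n1 (4830, 28280) (by decide +kernel)
                       (CovZ.n2 (4835, 28275) (by decide +kernel)
                        (CovZ.leaf K2_ok TE_l17911 _)
                        (CovZ.badM (by decide +kernel)))
                       (CovZ.n1 (4825, 28275) (by decide +kernel)
                        (CovZ.badM (by decide +kernel))
                        (CovZ.leaf K2_ok TE_l17912 _))))
                     (CovZ.n1 (4810, 28270) (by decide +kernel)
                      (CovZ.leaf K2_ok TE_l17913 _)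
                      (CovZ.n1 (4820, 28270) (by decide +kernel)
                       (CovZ.leaf K2_ok TE_l17914 _)
                       (CovZ.leaf K2_ok TE_l17915 _))))))))
                (CovZ.n1 (4840, 28200) (by decide +kernel)
                 (CovZ.n2 (4800, 28200) (by decide +kernel)
                  (CovZ.n2 (4820, 28220) (by decide +kernel)
                   (CovZ.leaf K2_ok TE_l9118 _)
                   (CovZ.leaf K2_ok TE_l9119 _))
                  (CovZ.n1 (4820, 28180) (by decide +kernel)
                   (CovZ.leaf K2_ok TE_l9120 _)
                   (CovZ.leaf K2_ok TE_l9121 _)))
                 (CovZ.subM 401734511064747568885490523085290650630550892560886821552144 (by decide +kernel)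
                  (CovZ.n1 (4840, 28240) (by decide +kernel)
                   (CovZ.n2 (4860, 28220) (by decide +kernel)
                    (CovZ.n2 (4840, 28220) (by decide +kernel)
                     (CovZ.n2 (4850, 28230) (by decide +kernel)
                      (CovZ.leaf K2_ok TE_l9122 _)
                      (CovZ.leaf K2_ok TE_l9123 _))
                     (CovZ.leaf K2_ok TE_l9124 _))
                    (CovZ.n1 (4860, 28240) (by decide +kernel)
                     (CovZ.n2 (4870, 28230) (by decide +kernel)
                      (CovZ.n2 (4860, 28230) (by decide +kernel)
                       (CovZ.n2 (4865, 28235) (by decide +kernel)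
                        (CovZ.leaf K2_ok TE_l17916 _)
                        (CovZ.leaf K2_ok TE_l17917 _))
                       (CovZ.leaf K2_ok TE_l17918 _))
                      (CovZ.n1 (4870, 28240) (by decide +kernel)
                       (CovZ.leaf K2_ok TE_l17919 _)
                       (CovZ.leaf K2_ok TE_l17920 _)))
                     (CovZ.n1 (4850, 28230) (by decide +kernel)
                      (CovZ.leaf K2_ok TE_l17921 _)
                      (CovZ.leaf K2_ok TE_l17922 _))))
                   (CovZ.n1 (4820, 28220) (by decide +kernel)
                    (CovZ.n2 (4820, 28240) (by decide +kernel)
                     (CovZ.leaf K2_ok TE_l9125 _)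
                     (CovZ.leaf K2_ok TE_l9126 _))
                    (CovZ.n1 (4840, 28220) (by decide +kernel)
                     (CovZ.leaf K2_ok TE_l9127 _)
                     (CovZ.leaf K2_ok TE_l9128 _)))))))
               (CovZ.badM (by decide +kernel))))))))

theorem TE_u151 : CovZ TE_M (toL (selN TE_LN 2018578606499897806768612166675694214377885338010413707636368)) [0, 7, 6, 1] (4800, 28480) (4480, 28800) (4480, 28160) :=
    (CovZ.subM 2008770635038353261488612786113709259787285734939172922270864 (by decide +kernel)
          (CovZ.n1 (4480, 28480) (by decide +kernel)
           (CovZ.badM (by decide +kernel))
           (CovZ.n1 (4640, 28320) (by decide +kernel)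
            (CovZ.n2 (4480, 28320) (by decide +kernel)
             TE_u149
             (CovZ.n1 (4560, 28240) (by decide +kernel)
              (CovZ.n2 (4480, 28240) (by decide +kernel)
               (CovZ.n2 (4520, 28280) (by decide +kernel)
                (CovZ.leaf K2_ok TE_l9166 _)
                (CovZ.n1 (4480, 28280) (by decide +kernel)
                 (CovZ.leaf K2_ok TE_l9167 _)
                 (CovZ.leaf K2_ok TE_l9168 _)))
               (CovZ.leaf K2_ok TE_l9169 _))
              (CovZ.n1 (4560, 28320) (by decide +kernel)
               (CovZ.n2 (4600, 28280) (by decide +kernel)
                (CovZ.n2 (4560, 28280) (by decide +kernel)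
                 (CovZ.n2 (4580, 28300) (by decide +kernel)
                  (CovZ.leaf K2_ok TE_l9170 _)
                  (CovZ.leaf K2_ok TE_l9171 _))
                 (CovZ.leaf K2_ok TE_l9172 _))
                (CovZ.subM 7100347059521201280 (by decide +kernel)
                 (CovZ.n1 (4600, 28320) (by decide +kernel)
                  (CovZ.n2 (4620, 28300) (by decide +kernel)
                   (CovZ.leaf K2_ok TE_l9173 _)
                   (CovZ.leaf K2_ok TE_l9174 _))
                  (CovZ.n1 (4580, 28300) (by decide +kernel)
                   (CovZ.leaf K2_ok TE_l9175 _)
                   (CovZ.leaf K2_ok TE_l9176 _)))))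
               (CovZ.n1 (4520, 28280) (by decide +kernel)
                (CovZ.n2 (4520, 28320) (by decide +kernel)
                 (CovZ.leaf K2_ok TE_l9177 _)
                 (CovZ.leaf K2_ok TE_l9178 _))
                (CovZ.n1 (4560, 28280) (by decide +kernel)
                 (CovZ.leaf K2_ok TE_l9179 _)
                 (CovZ.leaf K2_ok TE_l9180 _))))))
            (CovZ.subM 37781420383260624553088 (by decide +kernel)
             (CovZ.n1 (4640, 28480) (by decide +kernel)
              (CovZ.subM 2450239672270454912 (by decide +kernel)
               (CovZ.n2 (4720, 28400) (by decide +kernel)
                (CovZ.n2 (4640, 28400) (by decide +kernel)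
                 (CovZ.badM (by decide +kernel))
                 (CovZ.n1 (4680, 28360) (by decide +kernel)
                  (CovZ.n2 (4640, 28360) (by decide +kernel)
                   (CovZ.badM (by decide +kernel))
                   (CovZ.n1 (4660, 28340) (by decide +kernel)
                    (CovZ.n2 (4640, 28340) (by decide +kernel)
                     (CovZ.n2 (4650, 28350) (by decide +kernel)
                      (CovZ.leaf K2_ok TE_l9181 _)
                      (CovZ.n1 (4640, 28350) (by decide +kernel)
                       (CovZ.leaf K2_ok TE_l17980 _)
                       (CovZ.leaf K2_ok TE_l17981 _)))
                     (CovZ.n1 (4650, 28330) (by decide +kernel)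
                      (CovZ.leaf K2_ok TE_l9182 _)
                      (CovZ.leaf K2_ok TE_l9183 _)))
                    (CovZ.n1 (4660, 28360) (by decide +kernel)
                     (CovZ.n2 (4670, 28350) (by decide +kernel)
                      (CovZ.n2 (4660, 28350) (by decide +kernel)
                       (CovZ.badM (by decide +kernel))
                       (CovZ.leaf K2_ok TE_l17982 _))
                      (CovZ.badM (by decide +kernel)))
                     (CovZ.n1 (4650, 28350) (by decide +kernel)
                      (CovZ.badM (by decide +kernel))
                      (CovZ.n1 (4660, 28350) (by decide +kernel)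
                       (CovZ.n2 (4655, 28345) (by decide +kernel)
                        (CovZ.leaf K2_ok TE_l17983 _)
                        (CovZ.leaf K2_ok TE_l17984 _))
                       (CovZ.badM (by decide +kernel)))))))
                  (CovZ.badM (by decide +kernel))))
                (CovZ.badM (by decide +kernel))))
              (CovZ.n1 (4560, 28400) (by decide +kernel)
               (CovZ.n2 (4560, 28480) (by decide +kernel)
                (CovZ.badM (by decide +kernel))
                (CovZ.n1 (4520, 28440) (by decide +kernel)
                 (CovZ.badM (by decide +kernel))
                 (CovZ.badM (by decide +kernel))))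
               (CovZ.n1 (4640, 28400) (by decide +kernel)
                (CovZ.n2 (4600, 28360) (by decide +kernel)
                 (CovZ.subM 2308094843391312896 (by decide +kernel)
                  (CovZ.n2 (4600, 28400) (by decide +kernel)
                   (CovZ.n2 (4620, 28380) (by decide +kernel)
                    (CovZ.n2 (4600, 28380) (by decide +kernel)
                     (CovZ.badM (by decide +kernel))
                     (CovZ.n1 (4610, 28370) (by decide +kernel)
                      (CovZ.n2 (4600, 28370) (by decide +kernel)
                       (CovZ.n2 (4605, 28375) (by decide +kernel)
                        (CovZ.leaf K2_ok TE_l17985 _)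
                        (CovZ.leaf K2_ok TE_l17986 _))
                       (CovZ.leaf K2_ok TE_l17987 _))
                      (CovZ.badM (by decide +kernel))))
                    (CovZ.badM (by decide +kernel)))
                   (CovZ.n1 (4580, 28380) (by decide +kernel)
                    (CovZ.n2 (4580, 28400) (by decide +kernel)
                     (CovZ.badM (by decide +kernel))
                     (CovZ.n1 (4570, 28390) (by decide +kernel)
                      (CovZ.badM (by decide +kernel))
                      (CovZ.n1 (4580, 28390) (by decide +kernel)
                       (CovZ.n2 (4575, 28385) (by decide +kernel)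
                        (CovZ.badM (by decide +kernel))
                        (CovZ.leaf K2_ok TE_l17988 _))
                       (CovZ.badM (by decide +kernel)))))
                    (CovZ.n1 (4600, 28380) (by decide +kernel)
                     (CovZ.n2 (4590, 28370) (by decide +kernel)
                      (CovZ.n2 (4590, 28380) (by decide +kernel)
                       (CovZ.n2 (4595, 28375) (by decide +kernel)
                        (CovZ.leaf K2_ok TE_l17989 _)
                        (CovZ.badM (by decide +kernel)))
                       (CovZ.leaf K2_ok TE_l17990 _))
                      (CovZ.n1 (4600, 28370) (by decide +kernel)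
                       (CovZ.leaf K2_ok TE_l17991 _)
                       (CovZ.leaf K2_ok TE_l17992 _)))
                     (CovZ.badM (by decide +kernel))))))
                 (CovZ.subM 2452491472084140160 (by decide +kernel)
                  (CovZ.n1 (4640, 28360) (by decide +kernel)
                   (CovZ.n2 (4620, 28340) (by decide +kernel)
                    (CovZ.subM 2308094809031573504 (by decide +kernel)
                     (CovZ.n2 (4620, 28360) (by decide +kernel)
                      (CovZ.n2 (4630, 28350) (by decide +kernel)
                       (CovZ.n2 (4620, 28350) (by decide +kernel)
                        (CovZ.leaf K2_ok TE_l17993 _)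
                        (CovZ.leaf K2_ok TE_l17994 _))
                       (CovZ.n1 (4630, 28360) (by decide +kernel)
                        (CovZ.n2 (4635, 28355) (by decide +kernel)
                         (CovZ.leaf K2_ok TE_l17995 _)
                         (CovZ.leaf K2_ok TE_l17996 _))
                        (CovZ.n1 (4625, 28355) (by decide +kernel)
                         (CovZ.leaf K2_ok TE_l17997 _)
                         (CovZ.leaf K2_ok TE_l17998 _))))
                      (CovZ.n1 (4610, 28350) (by decide +kernel)
                       (CovZ.leaf K2_ok TE_l9184 _)
                       (CovZ.leaf K2_ok TE_l9185 _))))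
                    (CovZ.n1 (4640, 28340) (by decide +kernel)
                     (CovZ.n2 (4630, 28330) (by decide +kernel)
                      (CovZ.leaf K2_ok TE_l9186 _)
                      (CovZ.leaf K2_ok TE_l9187 _))
                     (CovZ.n1 (4630, 28350) (by decide +kernel)
                      (CovZ.n2 (4640, 28350) (by decide +kernel)
                       (CovZ.leaf K2_ok TE_l17999 _)
                       (CovZ.leaf K2_ok TE_l18000 _))
                      (CovZ.leaf K2_ok TE_l18001 _))))
                   (CovZ.subM 2308094809031573504 (by decide +kernel)
                    (CovZ.n1 (4620, 28380) (by decide +kernel)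
                     (CovZ.n2 (4640, 28380) (by decide +kernel)
                      (CovZ.n2 (4630, 28370) (by decide +kernel)
                       (CovZ.badM (by decide +kernel))
                       (CovZ.n1 (4640, 28370) (by decide +kernel)
                        (CovZ.n2 (4635, 28365) (by decide +kernel)
                         (CovZ.badM (by decide +kernel))
                         (CovZ.badM (by decide +kernel)))
                        (CovZ.badM (by decide +kernel))))
                      (CovZ.badM (by decide +kernel)))
                     (CovZ.n1 (4620, 28360) (by decide +kernel)
                      (CovZ.n2 (4610, 28370) (by decide +kernel)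
                       (CovZ.n2 (4620, 28370) (by decide +kernel)
                        (CovZ.leaf K2_ok TE_l18002 _)
                        (CovZ.badM (by decide +kernel)))
                       (CovZ.leaf K2_ok TE_l18003 _))
                      (CovZ.n1 (4630, 28370) (by decide +kernel)
                       (CovZ.n2 (4630, 28360) (by decide +kernel)
                        (CovZ.leaf K2_ok TE_l18004 _)
                        (CovZ.n1 (4635, 28365) (by decide +kernel)
                         (CovZ.leaf K2_ok TE_l18005 _)
                         (CovZ.n1 (4630, 28365) (by decide +kernel)
                          (CovZ.badM (by decide +kernel))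
                          (CovZ.leaf K2_ok TE_l18006 _))))
                       (CovZ.n1 (4620, 28370) (by decide +kernel)
                        (CovZ.badM (by decide +kernel))
                        (CovZ.leaf K2_ok TE_l18007 _)))))))))
                (CovZ.badM (by decide +kernel)))))))))

theorem TE_u152 : CovZ TE_M (toL (selN TE_LN 1606938044258990275541962092341162603315563484017330074166912)) [0, 7, 6, 1] (4160, 28480) (4000, 28480) (4000, 28320) :=
    (CovZ.n2 (4080, 28400) (by decide +kernel)
              (CovZ.n2 (4000, 28400) (by decide +kernel)
               (CovZ.n2 (4040, 28440) (by decide +kernel)
                (CovZ.n2 (4040, 28400) (by decide +kernel)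
                 (CovZ.n2 (4020, 28420) (by decide +kernel)
                  (CovZ.leaf K2_ok TE_l9223 _)
                  (CovZ.leaf K2_ok TE_l9224 _))
                 (CovZ.n1 (4060, 28420) (by decide +kernel)
                  (CovZ.leaf K2_ok TE_l9225 _)
                  (CovZ.n1 (4040, 28420) (by decide +kernel)
                   (CovZ.leaf K2_ok TE_l9226 _)
                   (CovZ.leaf K2_ok TE_l9227 _))))
                (CovZ.subM 1606938044258990275541962092341162603126668824421031439507456 (by decide +kernel)
                 (CovZ.n1 (4000, 28440) (by decide +kernel)
                  (CovZ.n2 (4020, 28460) (by decide +kernel)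
                   (CovZ.n2 (4020, 28440) (by decide +kernel)
                    (CovZ.leaf K2_ok TE_l9228 _)
                    (CovZ.n1 (4030, 28450) (by decide +kernel)
                     (CovZ.leaf K2_ok TE_l9229 _)
                     (CovZ.leaf K2_ok TE_l9230 _)))
                   (CovZ.n1 (4000, 28460) (by decide +kernel)
                    (CovZ.n2 (4010, 28470) (by decide +kernel)
                     (CovZ.leaf K2_ok TE_l18031 _)
                     (CovZ.n1 (4000, 28470) (by decide +kernel)
                      (CovZ.n2 (4005, 28475) (by decide +kernel)
                       (CovZ.leaf K2_ok TE_l18032 _)
                       (CovZ.leaf K2_ok TE_l18033 _))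
                      (CovZ.leaf K2_ok TE_l18034 _)))
                    (CovZ.n1 (4010, 28450) (by decide +kernel)
                     (CovZ.n2 (4000, 28450) (by decide +kernel)
                      (CovZ.leaf K2_ok TE_l18035 _)
                      (CovZ.leaf K2_ok TE_l18036 _))
                     (CovZ.leaf K2_ok TE_l18037 _))))
                  (CovZ.n1 (4020, 28420) (by decide +kernel)
                   (CovZ.n2 (4000, 28420) (by decide +kernel)
                    (CovZ.leaf K2_ok TE_l9231 _)
                    (CovZ.leaf K2_ok TE_l9232 _))
                   (CovZ.n1 (4020, 28440) (by decide +kernel)
                    (CovZ.leaf K2_ok TE_l9233 _)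
                    (CovZ.leaf K2_ok TE_l9234 _))))))
               (CovZ.n1 (4040, 28360) (by decide +kernel)
                (CovZ.n2 (4000, 28360) (by decide +kernel)
                 (CovZ.n2 (4020, 28380) (by decide +kernel)
                  (CovZ.leaf K2_ok TE_l9235 _)
                  (CovZ.leaf K2_ok TE_l9236 _))
                 (CovZ.leaf K2_ok TE_l9237 _))
                (CovZ.n1 (4040, 28400) (by decide +kernel)
                 (CovZ.leaf K2_ok TE_l9238 _)
                 (CovZ.n1 (4020, 28380) (by decide +kernel)
                  (CovZ.leaf K2_ok TE_l9239 _)
                  (CovZ.leaf K2_ok TE_l9240 _)))))
              (CovZ.n1 (4080, 28480) (by decide +kernel)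
               (CovZ.n2 (4120, 28440) (by decide +kernel)
                (CovZ.subM 1606938044258990275541962092341162603126668824421033570213888 (by decide +kernel)
                 (CovZ.n2 (4080, 28440) (by decide +kernel)
                  (CovZ.n2 (4100, 28460) (by decide +kernel)
                   (CovZ.n2 (4100, 28440) (by decide +kernel)
                    (CovZ.leaf K2_ok TE_l9241 _)
                    (CovZ.n1 (4110, 28450) (by decide +kernel)
                     (CovZ.leaf K2_ok TE_l9242 _)
                     (CovZ.leaf K2_ok TE_l9243 _)))
                   (CovZ.n1 (4080, 28460) (by decide +kernel)
                    (CovZ.n2 (4090, 28470) (by decide +kernel)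
                     (CovZ.leaf K2_ok TE_l18038 _)
                     (CovZ.n1 (4080, 28470) (by decide +kernel)
                      (CovZ.n2 (4085, 28475) (by decide +kernel)
                       (CovZ.leaf K2_ok TE_l18039 _)
                       (CovZ.leaf K2_ok TE_l18040 _))
                      (CovZ.leaf K2_ok TE_l18041 _)))
                    (CovZ.n1 (4090, 28450) (by decide +kernel)
                     (CovZ.leaf K2_ok TE_l9244 _)
                     (CovZ.leaf K2_ok TE_l9245 _))))
                  (CovZ.n1 (4100, 28420) (by decide +kernel)
                   (CovZ.n2 (4080, 28420) (by decide +kernel)
                    (CovZ.leaf K2_ok TE_l9246 _)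
                    (CovZ.leaf K2_ok TE_l9247 _))
                   (CovZ.n1 (4100, 28440) (by decide +kernel)
                    (CovZ.leaf K2_ok TE_l9248 _)
                    (CovZ.leaf K2_ok TE_l9249 _)))))
                (CovZ.subM 604465254036785269309440 (by decide +kernel)
                 (CovZ.n1 (4120, 28480) (by decide +kernel)
                  (CovZ.n2 (4140, 28460) (by decide +kernel)
                   (CovZ.n2 (4120, 28460) (by decide +kernel)
                    (CovZ.n2 (4130, 28470) (by decide +kernel)
                     (CovZ.leaf K2_ok TE_l9250 _)
                     (CovZ.n1 (4120, 28470) (by decide +kernel)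
                      (CovZ.n2 (4125, 28475) (by decide +kernel)
                       (CovZ.leaf K2_ok TE_l18042 _)
                       (CovZ.leaf K2_ok TE_l18043 _))
                      (CovZ.leaf K2_ok TE_l18044 _)))
                    (CovZ.leaf K2_ok TE_l9251 _))
                   (CovZ.subM 604462912059425786167296 (by decide +kernel)
                    (CovZ.n1 (4140, 28480) (by decide +kernel)
                     (CovZ.n2 (4150, 28470) (by decide +kernel)
                      (CovZ.n2 (4140, 28470) (by decide +kernel)
                       (CovZ.n2 (4145, 28475) (by decide +kernel)
                        (CovZ.leaf K2_ok TE_l18045 _)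
                        (CovZ.leaf K2_ok TE_l18046 _))
                       (CovZ.leaf K2_ok TE_l18047 _))
                      (CovZ.n1 (4150, 28480) (by decide +kernel)
                       (CovZ.n2 (4155, 28475) (by decide +kernel)
                        (CovZ.leaf K2_ok TE_l18048 _)
                        (CovZ.badM (by decide +kernel)))
                       (CovZ.n1 (4145, 28475) (by decide +kernel)
                        (CovZ.badM (by decide +kernel))
                        (CovZ.leaf K2_ok TE_l18049 _))))
                     (CovZ.n1 (4130, 28470) (by decide +kernel)
                      (CovZ.n2 (4130, 28480) (by decide +kernel)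
                       (CovZ.n2 (4135, 28475) (by decide +kernel)
                        (CovZ.leaf K2_ok TE_l18050 _)
                        (CovZ.leaf K2_ok TE_l18051 _))
                       (CovZ.leaf K2_ok TE_l18052 _))
                      (CovZ.leaf K2_ok TE_l18053 _)))))
                  (CovZ.n1 (4100, 28460) (by decide +kernel)
                   (CovZ.n2 (4100, 28480) (by decide +kernel)
                    (CovZ.n2 (4110, 28470) (by decide +kernel)
                     (CovZ.n2 (4100, 28470) (by decide +kernel)
                      (CovZ.n2 (4105, 28475) (by decide +kernel)
                       (CovZ.leaf K2_ok TE_l18054 _)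
                       (CovZ.leaf K2_ok TE_l18055 _))
                      (CovZ.leaf K2_ok TE_l18056 _))
                     (CovZ.n1 (4110, 28480) (by decide +kernel)
                      (CovZ.n2 (4115, 28475) (by decide +kernel)
                       (CovZ.leaf K2_ok TE_l18057 _)
                       (CovZ.leaf K2_ok TE_l18058 _))
                      (CovZ.leaf K2_ok TE_l18059 _)))
                    (CovZ.n1 (4090, 28470) (by decide +kernel)
                     (CovZ.subM 70368744177664 (by decide +kernel)
                      (CovZ.n2 (4090, 28480) (by decide +kernel)
                       (CovZ.n2 (4095, 28475) (by decide +kernel)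
                        (CovZ.leaf K2_ok TE_l18060 _)
                        (CovZ.leaf K2_ok TE_l18061 _))
                       (CovZ.n1 (4085, 28475) (by decide +kernel)
                        (CovZ.leaf K2_ok TE_l18062 _)
                        (CovZ.leaf K2_ok TE_l18063 _))))
                     (CovZ.n1 (4100, 28470) (by decide +kernel)
                      (CovZ.leaf K2_ok TE_l18064 _)
                      (CovZ.n1 (4095, 28475) (by decide +kernel)
                       (CovZ.leaf K2_ok TE_l18065 _)
                       (CovZ.leaf K2_ok TE_l18066 _)))))
                   (CovZ.n1 (4120, 28460) (by decide +kernel)
                    (CovZ.n2 (4110, 28450) (by decide +kernel)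
                     (CovZ.leaf K2_ok TE_l9252 _)
                     (CovZ.leaf K2_ok TE_l9253 _))
                    (CovZ.n1 (4110, 28470) (by decide +kernel)
                     (CovZ.leaf K2_ok TE_l18067 _)
                     (CovZ.leaf K2_ok TE_l18068 _)))))))
               (CovZ.subM 1606938044258990275541962092341162603126668824421033570213888 (by decide +kernel)
                (CovZ.n1 (4040, 28440) (by decide +kernel)
                 (CovZ.n2 (4040, 28480) (by decide +kernel)
                  (CovZ.n2 (4060, 28460) (by decide +kernel)
                   (CovZ.n2 (4040, 28460) (by decide +kernel)
                    (CovZ.n2 (4050, 28470) (by decide +kernel)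
                     (CovZ.n2 (4050, 28460) (by decide +kernel)
                      (CovZ.leaf K2_ok TE_l18069 _)
                      (CovZ.leaf K2_ok TE_l18070 _))
                     (CovZ.n1 (4040, 28470) (by decide +kernel)
                      (CovZ.leaf K2_ok TE_l18071 _)
                      (CovZ.leaf K2_ok TE_l18072 _)))
                    (CovZ.leaf K2_ok TE_l9254 _))
                   (CovZ.n1 (4060, 28480) (by decide +kernel)
                    (CovZ.n2 (4070, 28470) (by decide +kernel)
                     (CovZ.n2 (4060, 28470) (by decide +kernel)
                      (CovZ.n2 (4065, 28475) (by decide +kernel)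
                       (CovZ.leaf K2_ok TE_l18073 _)
                       (CovZ.leaf K2_ok TE_l18074 _))
                      (CovZ.leaf K2_ok TE_l18075 _))
                     (CovZ.subM 2882374130294849536 (by decide +kernel)
                      (CovZ.n1 (4070, 28480) (by decide +kernel)
                       (CovZ.n2 (4075, 28475) (by decide +kernel)
                        (CovZ.leaf K2_ok TE_l18076 _)
                        (CovZ.badM (by decide +kernel)))
                       (CovZ.n1 (4065, 28475) (by decide +kernel)
                        (CovZ.leaf K2_ok TE_l18077 _)
                        (CovZ.leaf K2_ok TE_l18078 _)))))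
                    (CovZ.n1 (4050, 28470) (by decide +kernel)
                     (CovZ.subM 2882374130294849536 (by decide +kernel)
                      (CovZ.n2 (4050, 28480) (by decide +kernel)
                       (CovZ.n2 (4055, 28475) (by decide +kernel)
                        (CovZ.leaf K2_ok TE_l18079 _)
                        (CovZ.n1 (4055, 28480) (by decide +kernel)
                         (CovZ.leaf K2_ok TE_l18080 _)
                         (CovZ.leaf K2_ok TE_l18081 _)))
                       (CovZ.leaf K2_ok TE_l18082 _)))
                     (CovZ.n1 (4060, 28470) (by decide +kernel)
                      (CovZ.leaf K2_ok TE_l18083 _)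
                      (CovZ.leaf K2_ok TE_l18084 _)))))
                  (CovZ.n1 (4020, 28460) (by decide +kernel)
                   (CovZ.subM 604465828210516913291264 (by decide +kernel)
                    (CovZ.n2 (4020, 28480) (by decide +kernel)
                     (CovZ.n2 (4030, 28470) (by decide +kernel)
                      (CovZ.n2 (4020, 28470) (by decide +kernel)
                       (CovZ.n2 (4025, 28475) (by decide +kernel)
                        (CovZ.leaf K2_ok TE_l18085 _)
                        (CovZ.leaf K2_ok TE_l18086 _))
                       (CovZ.leaf K2_ok TE_l18087 _))
                      (CovZ.n1 (4030, 28480) (by decide +kernel)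
                       (CovZ.n2 (4035, 28475) (by decide +kernel)
                        (CovZ.leaf K2_ok TE_l18088 _)
                        (CovZ.leaf K2_ok TE_l18089 _))
                       (CovZ.n1 (4025, 28475) (by decide +kernel)
                        (CovZ.leaf K2_ok TE_l18090 _)
                        (CovZ.leaf K2_ok TE_l18091 _))))
                     (CovZ.n1 (4010, 28470) (by decide +kernel)
                      (CovZ.leaf K2_ok TE_l18092 _)
                      (CovZ.n1 (4020, 28470) (by decide +kernel)
                       (CovZ.leaf K2_ok TE_l18093 _)
                       (CovZ.leaf K2_ok TE_l18094 _)))))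
                   (CovZ.n1 (4040, 28460) (by decide +kernel)
                    (CovZ.n2 (4030, 28450) (by decide +kernel)
                     (CovZ.leaf K2_ok TE_l9255 _)
                     (CovZ.leaf K2_ok TE_l9256 _))
                    (CovZ.n1 (4030, 28470) (by decide +kernel)
                     (CovZ.n2 (4040, 28470) (by decide +kernel)
                      (CovZ.leaf K2_ok TE_l18095 _)
                      (CovZ.leaf K2_ok TE_l18096 _))
                     (CovZ.leaf K2_ok TE_l9257 _)))))
                 (CovZ.n1 (4080, 28440) (by decide +kernel)
                  (CovZ.n2 (4060, 28420) (by decide +kernel)
                   (CovZ.n2 (4060, 28440) (by decide +kernel)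
                    (CovZ.leaf K2_ok TE_l9258 _)
                    (CovZ.leaf K2_ok TE_l9259 _))
                   (CovZ.leaf K2_ok TE_l9260 _))
                  (CovZ.n1 (4060, 28460) (by decide +kernel)
                   (CovZ.n2 (4080, 28460) (by decide +kernel)
                    (CovZ.n2 (4070, 28450) (by decide +kernel)
                     (CovZ.leaf K2_ok TE_l9261 _)
                     (CovZ.leaf K2_ok TE_l9262 _))
                    (CovZ.n1 (4070, 28470) (by decide +kernel)
                     (CovZ.n2 (4080, 28470) (by decide +kernel)
                      (CovZ.leaf K2_ok TE_l18097 _)
                      (CovZ.leaf K2_ok TE_l18098 _))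
                     (CovZ.leaf K2_ok TE_l18099 _)))
                   (CovZ.n1 (4060, 28440) (by decide +kernel)
                    (CovZ.leaf K2_ok TE_l9263 _)
                    (CovZ.n1 (4070, 28450) (by decide +kernel)
                     (CovZ.leaf K2_ok TE_l9264 _)
                     (CovZ.leaf K2_ok TE_l9265 _)))))))))

end Pool.Agent.TET
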