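import Pool.Agent.Helper38_TET.TE_M
import Pool.Agent.Helper38_TET.TE_L
import Pool.Agent.Helper38_TET.TE_61
import Pool.Agent.Helper38_TET.TE_62
import Pool.Agent.Helper38_TET.TE_63
import Pool.Agent.Helper38_TET.TE_64
import Pool.Agent.Helper38_TET.TE_65
import Pool.Agent.Helper38_TET.TE_66
import Pool.Agent.Helper38_TET.TE_67
import Pool.Agent.Helper38_TET.TE_120
import Pool.Agent.Helper38_TET.TE_121
import Pool.Agent.Helper38_TET.TE_122
import Pool.Agent.Helper38_TET.TE_U9

/-!
# MP_c7c9bf_co: certificates, family TE
-/

set_option autoImplicit false
set_option maxRecDepth 100000

namespace Pool.Agent.TET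

theorem TE_u153 : CovZ TE_M (toL (selN TE_LN 1606938044258990275541962092341162603315563484017330074166912)) [0, 7, 6, 1] (4000, 28480) (3840, 28480) (4000, 28320) :=
    (CovZ.n1 (3920, 28400) (by decide +kernel)
              (CovZ.subM 1606938044258990275541962092341162603126665942117270996124160 (by decide +kernel)
               (CovZ.n2 (3920, 28480) (by decide +kernel)
                (CovZ.n2 (3960, 28440) (by decide +kernel)
                 (CovZ.n2 (3920, 28440) (by decide +kernel)
                  (CovZ.n2 (3940, 28460) (by decide +kernel)
                   (CovZ.n2 (3940, 28440) (by decide +kernel)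
                    (CovZ.leaf K2_ok TE_l9266 _)
                    (CovZ.n1 (3950, 28450) (by decide +kernel)
                     (CovZ.leaf K2_ok TE_l9267 _)
                     (CovZ.leaf K2_ok TE_l9268 _)))
                   (CovZ.n1 (3920, 28460) (by decide +kernel)
                    (CovZ.subM 604462909807590555779072 (by decide +kernel)
                     (CovZ.n2 (3930, 28470) (by decide +kernel)
                      (CovZ.leaf K2_ok TE_l18100 _)
                      (CovZ.n1 (3920, 28470) (by decide +kernel)
                       (CovZ.n2 (3925, 28475) (by decide +kernel)
                        (CovZ.leaf K2_ok TE_l18101 _)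
                        (CovZ.leaf K2_ok TE_l18102 _))
                       (CovZ.leaf K2_ok TE_l18103 _))))
                    (CovZ.leaf K2_ok TE_l9269 _)))
                  (CovZ.n1 (3940, 28420) (by decide +kernel)
                   (CovZ.n2 (3920, 28420) (by decide +kernel)
                    (CovZ.leaf K2_ok TE_l9270 _)
                    (CovZ.leaf K2_ok TE_l9271 _))
                   (CovZ.leaf K2_ok TE_l9272 _)))
                 (CovZ.n1 (3960, 28480) (by decide +kernel)
                  (CovZ.n2 (3980, 28460) (by decide +kernel)
                   (CovZ.n2 (3960, 28460) (by decide +kernel)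
                    (CovZ.n2 (3970, 28470) (by decide +kernel)
                     (CovZ.leaf K2_ok TE_l18104 _)
                     (CovZ.n1 (3960, 28470) (by decide +kernel)
                      (CovZ.leaf K2_ok TE_l18105 _)
                      (CovZ.leaf K2_ok TE_l18106 _)))
                    (CovZ.n1 (3970, 28450) (by decide +kernel)
                     (CovZ.n2 (3960, 28450) (by decide +kernel)
                      (CovZ.leaf K2_ok TE_l18107 _)
                      (CovZ.leaf K2_ok TE_l18108 _))
                     (CovZ.leaf K2_ok TE_l18109 _)))
                   (CovZ.subM 604462945906755412951040 (by decide +kernel)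
                    (CovZ.n1 (3980, 28480) (by decide +kernel)
                     (CovZ.n2 (3990, 28470) (by decide +kernel)
                      (CovZ.n2 (3980, 28470) (by decide +kernel)
                       (CovZ.n2 (3985, 28475) (by decide +kernel)
                        (CovZ.leaf K2_ok TE_l18110 _)
                        (CovZ.leaf K2_ok TE_l18111 _))
                       (CovZ.leaf K2_ok TE_l18112 _))
                      (CovZ.leaf K2_ok TE_l18113 _))
                     (CovZ.n1 (3970, 28470) (by decide +kernel)
                      (CovZ.n2 (3970, 28480) (by decide +kernel)
                       (CovZ.leaf K2_ok TE_l18114 _)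
                       (CovZ.leaf K2_ok TE_l18115 _))
                      (CovZ.leaf K2_ok TE_l18116 _)))))
                  (CovZ.subM 604462910053880120213504 (by decide +kernel)
                   (CovZ.n1 (3940, 28460) (by decide +kernel)
                    (CovZ.subM 604462909807589482037248 (by decide +kernel)
                     (CovZ.n2 (3940, 28480) (by decide +kernel)
                      (CovZ.n2 (3950, 28470) (by decide +kernel)
                       (CovZ.n2 (3940, 28470) (by decide +kernel)
                        (CovZ.leaf K2_ok TE_l18117 _)
                        (CovZ.leaf K2_ok TE_l18118 _))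
                       (CovZ.n1 (3950, 28480) (by decide +kernel)
                        (CovZ.leaf K2_ok TE_l18119 _)
                        (CovZ.leaf K2_ok TE_l18120 _)))
                      (CovZ.n1 (3930, 28470) (by decide +kernel)
                       (CovZ.n2 (3930, 28480) (by decide +kernel)
                        (CovZ.leaf K2_ok TE_l18121 _)
                        (CovZ.leaf K2_ok TE_l18122 _))
                       (CovZ.leaf K2_ok TE_l18123 _))))
                    (CovZ.n1 (3960, 28460) (by decide +kernel)
                     (CovZ.n2 (3950, 28450) (by decide +kernel)
                      (CovZ.leaf K2_ok TE_l9273 _)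
                      (CovZ.leaf K2_ok TE_l9274 _))
                     (CovZ.n1 (3950, 28470) (by decide +kernel)
                      (CovZ.leaf K2_ok TE_l9275 _)
                      (CovZ.leaf K2_ok TE_l9276 _)))))))
                (CovZ.n1 (3880, 28440) (by decide +kernel)
                 (CovZ.n2 (3880, 28480) (by decide +kernel)
                  (CovZ.n2 (3900, 28460) (by decide +kernel)
                   (CovZ.subM 604462910018696821866496 (by decide +kernel)
                    (CovZ.n2 (3880, 28460) (by decide +kernel)
                     (CovZ.n2 (3890, 28470) (by decide +kernel)
                      (CovZ.leaf K2_ok TE_l18124 _)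
                      (CovZ.n1 (3880, 28470) (by decide +kernel)
                       (CovZ.leaf K2_ok TE_l18125 _)
                       (CovZ.leaf K2_ok TE_l18126 _)))
                     (CovZ.leaf K2_ok TE_l9277 _)))
                   (CovZ.subM 604462909807590555779072 (by decide +kernel)
                    (CovZ.n1 (3900, 28480) (by decide +kernel)
                     (CovZ.n2 (3910, 28470) (by decide +kernel)
                      (CovZ.leaf K2_ok TE_l18127 _)
                      (CovZ.n1 (3910, 28480) (by decide +kernel)
                       (CovZ.leaf K2_ok TE_l18128 _)
                       (CovZ.leaf K2_ok TE_l18129 _)))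
                     (CovZ.n1 (3890, 28470) (by decide +kernel)
                      (CovZ.n2 (3890, 28480) (by decide +kernel)
                       (CovZ.leaf K2_ok TE_l18130 _)
                       (CovZ.leaf K2_ok TE_l18131 _))
                      (CovZ.n1 (3900, 28470) (by decide +kernel)
                       (CovZ.leaf K2_ok TE_l18132 _)
                       (CovZ.leaf K2_ok TE_l18133 _))))))
                  (CovZ.n1 (3860, 28460) (by decide +kernel)
                   (CovZ.subM 604462909807590555779584 (by decide +kernel)
                    (CovZ.n2 (3860, 28480) (by decide +kernel)
                     (CovZ.n2 (3870, 28470) (by decide +kernel)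
                      (CovZ.n2 (3860, 28470) (by decide +kernel)
                       (CovZ.leaf K2_ok TE_l18134 _)
                       (CovZ.leaf K2_ok TE_l18135 _))
                      (CovZ.n1 (3870, 28480) (by decide +kernel)
                       (CovZ.n2 (3875, 28475) (by decide +kernel)
                        (CovZ.leaf K2_ok TE_l18136 _)
                        (CovZ.leaf K2_ok TE_l18137 _))
                       (CovZ.leaf K2_ok TE_l18138 _)))
                     (CovZ.n1 (3850, 28470) (by decide +kernel)
                      (CovZ.n2 (3850, 28480) (by decide +kernel)
                       (CovZ.leaf K2_ok TE_l18139 _)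
                       (CovZ.n1 (3845, 28475) (by decide +kernel)
                        (CovZ.badM (by decide +kernel))
                        (CovZ.leaf K2_ok TE_l18140 _)))
                      (CovZ.leaf K2_ok TE_l18141 _))))
                   (CovZ.n1 (3880, 28460) (by decide +kernel)
                    (CovZ.n2 (3870, 28450) (by decide +kernel)
                     (CovZ.leaf K2_ok TE_l9278 _)
                     (CovZ.leaf K2_ok TE_l9279 _))
                    (CovZ.n1 (3870, 28470) (by decide +kernel)
                     (CovZ.leaf K2_ok TE_l18142 _)
                     (CovZ.n1 (3870, 28460) (by decide +kernel)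
                      (CovZ.leaf K2_ok TE_l18143 _)
                      (CovZ.leaf K2_ok TE_l18144 _))))))
                 (CovZ.n1 (3920, 28440) (by decide +kernel)
                  (CovZ.n2 (3900, 28420) (by decide +kernel)
                   (CovZ.n2 (3900, 28440) (by decide +kernel)
                    (CovZ.leaf K2_ok TE_l9280 _)
                    (CovZ.leaf K2_ok TE_l9281 _))
                   (CovZ.leaf K2_ok TE_l9282 _))
                  (CovZ.n1 (3900, 28460) (by decide +kernel)
                   (CovZ.n2 (3920, 28460) (by decide +kernel)
                    (CovZ.n2 (3910, 28450) (by decide +kernel)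
                     (CovZ.leaf K2_ok TE_l9283 _)
                     (CovZ.leaf K2_ok TE_l9284 _))
                    (CovZ.n1 (3910, 28470) (by decide +kernel)
                     (CovZ.n2 (3920, 28470) (by decide +kernel)
                      (CovZ.leaf K2_ok TE_l18145 _)
                      (CovZ.leaf K2_ok TE_l18146 _))
                     (CovZ.leaf K2_ok TE_l18147 _)))
                   (CovZ.n1 (3900, 28440) (by decide +kernel)
                    (CovZ.leaf K2_ok TE_l9285 _)
                    (CovZ.n1 (3910, 28450) (by decide +kernel)
                     (CovZ.leaf K2_ok TE_l9286 _)
                     (CovZ.leaf K2_ok TE_l9287 _))))))))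
              (CovZ.n1 (4000, 28400) (by decide +kernel)
               (CovZ.n2 (3960, 28360) (by decide +kernel)
                (CovZ.n2 (3960, 28400) (by decide +kernel)
                 (CovZ.leaf K2_ok TE_l9288 _)
                 (CovZ.n1 (3940, 28380) (by decide +kernel)
                  (CovZ.leaf K2_ok TE_l9289 _)
                  (CovZ.leaf K2_ok TE_l9290 _)))
                (CovZ.n1 (4000, 28360) (by decide +kernel)
                 (CovZ.leaf K2_ok TE_l9291 _)
                 (CovZ.leaf K2_ok TE_l9292 _)))
               (CovZ.n1 (3960, 28440) (by decide +kernel)
                (CovZ.subM 1606938044258990275541962092341162603126668824421031439507456 (by decide +kernel)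
                 (CovZ.n2 (4000, 28440) (by decide +kernel)
                  (CovZ.n2 (3980, 28420) (by decide +kernel)
                   (CovZ.leaf K2_ok TE_l9293 _)
                   (CovZ.leaf K2_ok TE_l9294 _))
                  (CovZ.n1 (3980, 28460) (by decide +kernel)
                   (CovZ.n2 (4000, 28460) (by decide +kernel)
                    (CovZ.n2 (3990, 28450) (by decide +kernel)
                     (CovZ.leaf K2_ok TE_l18148 _)
                     (CovZ.leaf K2_ok TE_l18149 _))
                    (CovZ.n1 (3990, 28470) (by decide +kernel)
                     (CovZ.leaf K2_ok TE_l18150 _)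
                     (CovZ.leaf K2_ok TE_l18151 _)))
                   (CovZ.n1 (3980, 28440) (by decide +kernel)
                    (CovZ.leaf K2_ok TE_l18152 _)
                    (CovZ.n1 (3990, 28450) (by decide +kernel)
                     (CovZ.leaf K2_ok TE_l18153 _)
                     (CovZ.leaf K2_ok TE_l18154 _))))))
                (CovZ.n1 (3960, 28400) (by decide +kernel)
                 (CovZ.n2 (3940, 28420) (by decide +kernel)
                  (CovZ.leaf K2_ok TE_l9295 _)
                  (CovZ.leaf K2_ok TE_l9296 _))
                 (CovZ.n1 (3980, 28420) (by decide +kernel)
                  (CovZ.leaf K2_ok TE_l9297 _)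
                  (CovZ.leaf K2_ok TE_l9298 _))))))

theorem TE_u154 : CovZ TE_M (toL (selN TE_LN 2018578606499897806768612166675694214377885338010413707636368)) [0, 7, 6, 1] (3840, 28800) (3840, 28480) (4160, 28480) :=
    (CovZ.subM 3138550867693340381917894711603834416979917991626034643456 (by decide +kernel)
           (CovZ.n2 (4000, 28640) (by decide +kernel)
            (CovZ.n2 (4000, 28480) (by decide +kernel)
             (CovZ.subM 36028798226924032 (by decide +kernel)
              (CovZ.n2 (3920, 28560) (by decide +kernel)
               (CovZ.badM (by decide +kernel))
               (CovZ.n1 (3920, 28480) (by decide +kernel)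
                (CovZ.n2 (3880, 28520) (by decide +kernel)
                 (CovZ.n2 (3920, 28520) (by decide +kernel)
                  (CovZ.n2 (3900, 28500) (by decide +kernel)
                   (CovZ.badM (by decide +kernel))
                   (CovZ.badM (by decide +kernel)))
                  (CovZ.badM (by decide +kernel)))
                 (CovZ.n1 (3880, 28480) (by decide +kernel)
                  (CovZ.badM (by decide +kernel))
                  (CovZ.n1 (3900, 28500) (by decide +kernel)
                   (CovZ.n2 (3900, 28480) (by decide +kernel)
                    (CovZ.n2 (3890, 28490) (by decide +kernel)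
                     (CovZ.n2 (3900, 28490) (by decide +kernel)
                      (CovZ.n2 (3895, 28485) (by decide +kernel)
                       (CovZ.badM (by decide +kernel))
                       (CovZ.leaf K2_ok TE_l18008 _))
                      (CovZ.badM (by decide +kernel)))
                     (CovZ.n1 (3890, 28480) (by decide +kernel)
                      (CovZ.badM (by decide +kernel))
                      (CovZ.n1 (3895, 28485) (by decide +kernel)
                       (CovZ.leaf K2_ok TE_l18009 _)
                       (CovZ.badM (by decide +kernel)))))
                    (CovZ.n1 (3910, 28490) (by decide +kernel)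
                     (CovZ.n2 (3910, 28480) (by decide +kernel)
                      (CovZ.leaf K2_ok TE_l18010 _)
                      (CovZ.n1 (3915, 28485) (by decide +kernel)
                       (CovZ.leaf K2_ok TE_l18011 _)
                       (CovZ.leaf K2_ok TE_l18012 _)))
                     (CovZ.n1 (3900, 28490) (by decide +kernel)
                      (CovZ.badM (by decide +kernel))
                      (CovZ.n1 (3905, 28485) (by decide +kernel)
                       (CovZ.n2 (3900, 28485) (by decide +kernel)
                        (CovZ.badM (by decide +kernel))
                        (CovZ.leaf K2_ok TE_l18013 _))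
                       (CovZ.badM (by decide +kernel))))))
                   (CovZ.badM (by decide +kernel)))))
                (CovZ.n1 (3960, 28520) (by decide +kernel)
                 (CovZ.n2 (3960, 28480) (by decide +kernel)
                  (CovZ.n2 (3940, 28500) (by decide +kernel)
                   (CovZ.n2 (3960, 28500) (by decide +kernel)
                    (CovZ.n2 (3950, 28490) (by decide +kernel)
                     (CovZ.badM (by decide +kernel))
                     (CovZ.n1 (3960, 28490) (by decide +kernel)
                      (CovZ.n2 (3955, 28485) (by decide +kernel)
                       (CovZ.badM (by decide +kernel))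
                       (CovZ.leaf K2_ok TE_l18014 _))
                      (CovZ.badM (by decide +kernel))))
                    (CovZ.badM (by decide +kernel)))
                   (CovZ.badM (by decide +kernel)))
                  (CovZ.n1 (3980, 28500) (by decide +kernel)
                   (CovZ.n2 (3980, 28480) (by decide +kernel)
                    (CovZ.n2 (3970, 28490) (by decide +kernel)
                     (CovZ.badM (by decide +kernel))
                     (CovZ.n1 (3970, 28480) (by decide +kernel)
                      (CovZ.n2 (3965, 28485) (by decide +kernel)
                       (CovZ.leaf K2_ok TE_l18015 _)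
                       (CovZ.leaf K2_ok TE_l18016 _))
                      (CovZ.n1 (3975, 28485) (by decide +kernel)
                       (CovZ.leaf K2_ok TE_l18017 _)
                       (CovZ.n1 (3970, 28485) (by decide +kernel)
                        (CovZ.badM (by decide +kernel))
                        (CovZ.leaf K2_ok TE_l18018 _)))))
                    (CovZ.badM (by decide +kernel)))
                   (CovZ.n1 (3960, 28500) (by decide +kernel)
                    (CovZ.badM (by decide +kernel))
                    (CovZ.n1 (3970, 28490) (by decide +kernel)
                     (CovZ.n2 (3960, 28490) (by decide +kernel)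
                      (CovZ.badM (by decide +kernel))
                      (CovZ.n1 (3965, 28485) (by decide +kernel)
                       (CovZ.leaf K2_ok TE_l18019 _)
                       (CovZ.badM (by decide +kernel))))
                     (CovZ.badM (by decide +kernel))))))
                 (CovZ.n1 (3920, 28520) (by decide +kernel)
                  (CovZ.badM (by decide +kernel))
                  (CovZ.n1 (3940, 28500) (by decide +kernel)
                   (CovZ.badM (by decide +kernel))
                   (CovZ.badM (by decide +kernel))))))))
             (CovZ.subM 2884625966615756800 (by decide +kernel)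
              (CovZ.n1 (4080, 28560) (by decide +kernel)
               (CovZ.n2 (4080, 28480) (by decide +kernel)
                (CovZ.subM 2882303761517117440 (by decide +kernel)
                 (CovZ.n2 (4040, 28520) (by decide +kernel)
                  (CovZ.badM (by decide +kernel))
                  (CovZ.n1 (4040, 28480) (by decide +kernel)
                   (CovZ.n2 (4020, 28500) (by decide +kernel)
                    (CovZ.n2 (4040, 28500) (by decide +kernel)
                     (CovZ.n2 (4030, 28490) (by decide +kernel)
                      (CovZ.badM (by decide +kernel))
                      (CovZ.n1 (4040, 28490) (by decide +kernel)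
                       (CovZ.n2 (4035, 28485) (by decide +kernel)
                        (CovZ.badM (by decide +kernel))
                        (CovZ.leaf K2_ok TE_l18020 _))
                       (CovZ.badM (by decide +kernel))))
                     (CovZ.badM (by decide +kernel)))
                    (CovZ.n1 (4020, 28480) (by decide +kernel)
                     (CovZ.badM (by decide +kernel))
                     (CovZ.n1 (4030, 28490) (by decide +kernel)
                      (CovZ.n2 (4030, 28480) (by decide +kernel)
                       (CovZ.n2 (4025, 28485) (by decide +kernel)
                        (CovZ.leaf K2_ok TE_l18021 _)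
                        (CovZ.leaf K2_ok TE_l18022 _))
                       (CovZ.n1 (4035, 28485) (by decide +kernel)
                        (CovZ.leaf K2_ok TE_l18023 _)
                        (CovZ.leaf K2_ok TE_l18024 _)))
                      (CovZ.badM (by decide +kernel)))))
                   (CovZ.n1 (4060, 28500) (by decide +kernel)
                    (CovZ.n2 (4060, 28480) (by decide +kernel)
                     (CovZ.n2 (4050, 28490) (by decide +kernel)
                      (CovZ.badM (by decide +kernel))
                      (CovZ.n1 (4050, 28480) (by decide +kernel)
                       (CovZ.n2 (4045, 28485) (by decide +kernel)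
                        (CovZ.badM (by decide +kernel))
                        (CovZ.leaf K2_ok TE_l18025 _))
                       (CovZ.badM (by decide +kernel))))
                     (CovZ.badM (by decide +kernel)))
                    (CovZ.n1 (4040, 28500) (by decide +kernel)
                     (CovZ.badM (by decide +kernel))
                     (CovZ.n1 (4050, 28490) (by decide +kernel)
                      (CovZ.n2 (4040, 28490) (by decide +kernel)
                       (CovZ.badM (by decide +kernel))
                       (CovZ.n1 (4045, 28485) (by decide +kernel)
                        (CovZ.n2 (4040, 28485) (by decide +kernel)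
                         (CovZ.badM (by decide +kernel))
                         (CovZ.leaf K2_ok TE_l18026 _))
                        (CovZ.badM (by decide +kernel))))
                      (CovZ.badM (by decide +kernel))))))))
                (CovZ.subM 2322202917601280 (by decide +kernel)
                 (CovZ.n1 (4120, 28520) (by decide +kernel)
                  (CovZ.n2 (4120, 28480) (by decide +kernel)
                   (CovZ.n2 (4100, 28500) (by decide +kernel)
                    (CovZ.badM (by decide +kernel))
                    (CovZ.n1 (4100, 28480) (by decide +kernel)
                     (CovZ.badM (by decide +kernel))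
                     (CovZ.badM (by decide +kernel))))
                   (CovZ.n1 (4140, 28500) (by decide +kernel)
                    (CovZ.n2 (4140, 28480) (by decide +kernel)
                     (CovZ.n2 (4130, 28490) (by decide +kernel)
                      (CovZ.badM (by decide +kernel))
                      (CovZ.n1 (4130, 28480) (by decide +kernel)
                       (CovZ.n2 (4125, 28485) (by decide +kernel)
                        (CovZ.badM (by decide +kernel))
                        (CovZ.leaf K2_ok TE_l18027 _))
                       (CovZ.badM (by decide +kernel))))
                     (CovZ.badM (by decide +kernel)))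
                    (CovZ.n1 (4120, 28500) (by decide +kernel)
                     (CovZ.badM (by decide +kernel))
                     (CovZ.n1 (4130, 28490) (by decide +kernel)
                      (CovZ.n2 (4120, 28490) (by decide +kernel)
                       (CovZ.badM (by decide +kernel))
                       (CovZ.n1 (4125, 28485) (by decide +kernel)
                        (CovZ.badM (by decide +kernel))
                        (CovZ.badM (by decide +kernel))))
                      (CovZ.badM (by decide +kernel))))))
                  (CovZ.badM (by decide +kernel)))))
               (CovZ.badM (by decide +kernel)))))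
            (CovZ.subM 3138550867693340381917894711603833208051213751029170438144 (by decide +kernel)
             (CovZ.n1 (3840, 28640) (by decide +kernel)
              (CovZ.n2 (3920, 28720) (by decide +kernel)
               (CovZ.n2 (3920, 28640) (by decide +kernel)
                (CovZ.badM (by decide +kernel))
                (CovZ.n1 (3960, 28680) (by decide +kernel)
                 (CovZ.badM (by decide +kernel))
                 (CovZ.badM (by decide +kernel))))
               (CovZ.badM (by decide +kernel)))
              (CovZ.n1 (3920, 28560) (by decide +kernel)
               (CovZ.n2 (3840, 28560) (by decide +kernel)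
                (CovZ.n2 (3880, 28600) (by decide +kernel)
                 (CovZ.badM (by decide +kernel))
                 (CovZ.badM (by decide +kernel)))
                (CovZ.badM (by decide +kernel)))
               (CovZ.n1 (3920, 28640) (by decide +kernel)
                (CovZ.badM (by decide +kernel))
                (CovZ.n1 (3880, 28600) (by decide +kernel)
                 (CovZ.badM (by decide +kernel))
                 (CovZ.badM (by decide +kernel)))))))))

theorem TE_u155 : CovZ TE_M (toL (selN TE_LN 2018578606499897806768612166675694214377885338010413707636368)) [0, 7, 6, 1] (3840, 28480) (3840, 28160) (4160, 28480) :=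
    (CovZ.n1 (4000, 28320) (by decide +kernel)
           (CovZ.n2 (3840, 28320) (by decide +kernel)
            (CovZ.subM 1606938044258990275541962424648161549544531673941363142962816 (by decide +kernel)
             (CovZ.n2 (3920, 28400) (by decide +kernel)
              (CovZ.n2 (3920, 28320) (by decide +kernel)
               (CovZ.n2 (3880, 28360) (by decide +kernel)
                (CovZ.n2 (3920, 28360) (by decide +kernel)
                 (CovZ.leaf K2_ok TE_l9188 _)
                 (CovZ.leaf K2_ok TE_l9189 _))
                (CovZ.leaf K2_ok TE_l9190 _))
               (CovZ.n1 (3960, 28360) (by decide +kernel)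
                (CovZ.leaf K2_ok TE_l9191 _)
                (CovZ.n1 (3920, 28360) (by decide +kernel)
                 (CovZ.n2 (3940, 28380) (by decide +kernel)
                  (CovZ.leaf K2_ok TE_l9192 _)
                  (CovZ.leaf K2_ok TE_l9193 _))
                 (CovZ.leaf K2_ok TE_l9194 _))))
              (CovZ.n1 (3840, 28400) (by decide +kernel)
               (CovZ.subM 1606938044258990275541962092341162603126665906088473842942464 (by decide +kernel)
                (CovZ.n2 (3880, 28440) (by decide +kernel)
                 (CovZ.n2 (3880, 28400) (by decide +kernel)
                  (CovZ.n2 (3860, 28420) (by decide +kernel)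
                   (CovZ.n2 (3880, 28420) (by decide +kernel)
                    (CovZ.leaf K2_ok TE_l9195 _)
                    (CovZ.leaf K2_ok TE_l9196 _))
                   (CovZ.leaf K2_ok TE_l9197 _))
                  (CovZ.n1 (3900, 28420) (by decide +kernel)
                   (CovZ.leaf K2_ok TE_l9198 _)
                   (CovZ.n1 (3880, 28420) (by decide +kernel)
                    (CovZ.leaf K2_ok TE_l9199 _)
                    (CovZ.leaf K2_ok TE_l9200 _))))
                 (CovZ.n1 (3840, 28440) (by decide +kernel)
                  (CovZ.n2 (3860, 28460) (by decide +kernel)
                   (CovZ.n2 (3860, 28440) (by decide +kernel)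
                    (CovZ.leaf K2_ok TE_l9201 _)
                    (CovZ.n1 (3870, 28450) (by decide +kernel)
                     (CovZ.leaf K2_ok TE_l9202 _)
                     (CovZ.leaf K2_ok TE_l9203 _)))
                   (CovZ.n1 (3840, 28460) (by decide +kernel)
                    (CovZ.subM 604462909948328044134912 (by decide +kernel)
                     (CovZ.n2 (3850, 28470) (by decide +kernel)
                      (CovZ.leaf K2_ok TE_l18028 _)
                      (CovZ.n1 (3840, 28470) (by decide +kernel)
                       (CovZ.n2 (3845, 28475) (by decide +kernel)
                        (CovZ.leaf K2_ok TE_l18029 _)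
                        (CovZ.badM (by decide +kernel)))
                       (CovZ.leaf K2_ok TE_l18030 _))))
                    (CovZ.n1 (3850, 28450) (by decide +kernel)
                     (CovZ.leaf K2_ok TE_l9204 _)
                     (CovZ.leaf K2_ok TE_l9205 _))))
                  (CovZ.n1 (3860, 28420) (by decide +kernel)
                   (CovZ.n2 (3840, 28420) (by decide +kernel)
                    (CovZ.leaf K2_ok TE_l9206 _)
                    (CovZ.leaf K2_ok TE_l9207 _))
                   (CovZ.n1 (3860, 28440) (by decide +kernel)
                    (CovZ.leaf K2_ok TE_l9208 _)
                    (CovZ.leaf K2_ok TE_l9209 _))))))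
               (CovZ.n1 (3880, 28360) (by decide +kernel)
                (CovZ.n2 (3840, 28360) (by decide +kernel)
                 (CovZ.n2 (3860, 28380) (by decide +kernel)
                  (CovZ.leaf K2_ok TE_l9210 _)
                  (CovZ.leaf K2_ok TE_l9211 _))
                 (CovZ.leaf K2_ok TE_l9212 _))
                (CovZ.n1 (3880, 28400) (by decide +kernel)
                 (CovZ.leaf K2_ok TE_l9213 _)
                 (CovZ.n1 (3860, 28380) (by decide +kernel)
                  (CovZ.leaf K2_ok TE_l9214 _)
                  (CovZ.leaf K2_ok TE_l9215 _)))))))
            (CovZ.n1 (3920, 28240) (by decide +kernel)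
             (CovZ.n2 (3840, 28240) (by decide +kernel)
              (CovZ.n2 (3880, 28280) (by decide +kernel)
               (CovZ.leaf K2_ok TE_l9216 _)
               (CovZ.leaf K2_ok TE_l9217 _))
              (CovZ.leaf K2_ok TE_l9218 _))
             (CovZ.subM 2008672555323737844427453612347450092633018878794191127719056 (by decide +kernel)
              (CovZ.n1 (3920, 28320) (by decide +kernel)
               (CovZ.n2 (3960, 28280) (by decide +kernel)
                (CovZ.leaf K2_ok TE_l9219 _)
                (CovZ.leaf K2_ok TE_l9220 _))
               (CovZ.n1 (3880, 28280) (by decide +kernel)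
                (CovZ.leaf K2_ok TE_l9221 _)
                (CovZ.leaf K2_ok TE_l9222 _))))))
           (CovZ.subM 1606938044258990275541962092341162603315563484017330074166912 (by decide +kernel)
            (CovZ.n1 (4000, 28480) (by decide +kernel)
             TE_u152
             TE_u153)))

theorem TE_u156 : CovZ TE_M (toL (selN TE_LN 44621787488563640630624445490266114)) [0, 7, 6, 1] (3200, 30080) (3040, 29920) (3200, 29760) :=
    (CovZ.subM 41863220242944450549584691690733568 (by decide +kernel)
             (CovZ.n2 (3200, 29920) (by decide +kernel)
              (CovZ.n2 (3120, 29840) (by decide +kernel)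
               (CovZ.n2 (3120, 29920) (by decide +kernel)
                (CovZ.subM 68719476736 (by decide +kernel)
                 (CovZ.n2 (3160, 29880) (by decide +kernel)
                  (CovZ.n2 (3120, 29880) (by decide +kernel)
                   (CovZ.n2 (3140, 29900) (by decide +kernel)
                    (CovZ.badM (by decide +kernel))
                    (CovZ.n1 (3120, 29900) (by decide +kernel)
                     (CovZ.n2 (3130, 29910) (by decide +kernel)
                      (CovZ.leaf K2_ok TE_l18170 _)
                      (CovZ.leaf K2_ok TE_l18171 _))
                     (CovZ.leaf K2_ok TE_l18172 _)))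
                   (CovZ.badM (by decide +kernel)))
                  (CovZ.badM (by decide +kernel))))
                (CovZ.n1 (3080, 29880) (by decide +kernel)
                 (CovZ.n2 (3080, 29920) (by decide +kernel)
                  (CovZ.n2 (3100, 29900) (by decide +kernel)
                   (CovZ.n2 (3080, 29900) (by decide +kernel)
                    (CovZ.n2 (3090, 29910) (by decide +kernel)
                     (CovZ.leaf K2_ok TE_l9369 _)
                     (CovZ.leaf K2_ok TE_l9370 _))
                    (CovZ.leaf K2_ok TE_l9371 _))
                   (CovZ.n1 (3100, 29920) (by decide +kernel)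
                    (CovZ.leaf K2_ok TE_l9372 _)
                    (CovZ.n1 (3090, 29910) (by decide +kernel)
                     (CovZ.leaf K2_ok TE_l9373 _)
                     (CovZ.leaf K2_ok TE_l9374 _))))
                  (CovZ.n1 (3060, 29900) (by decide +kernel)
                   (CovZ.n2 (3060, 29920) (by decide +kernel)
                    (CovZ.leaf K2_ok TE_l9375 _)
                    (CovZ.leaf K2_ok TE_l9376 _))
                   (CovZ.n1 (3080, 29900) (by decide +kernel)
                    (CovZ.leaf K2_ok TE_l9377 _)
                    (CovZ.leaf K2_ok TE_l9378 _))))
                 (CovZ.n1 (3120, 29880) (by decide +kernel)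
                  (CovZ.n2 (3100, 29860) (by decide +kernel)
                   (CovZ.n2 (3100, 29880) (by decide +kernel)
                    (CovZ.leaf K2_ok TE_l9379 _)
                    (CovZ.n1 (3090, 29870) (by decide +kernel)
                     (CovZ.leaf K2_ok TE_l9380 _)
                     (CovZ.leaf K2_ok TE_l9381 _)))
                   (CovZ.badM (by decide +kernel)))
                  (CovZ.n1 (3100, 29900) (by decide +kernel)
                   (CovZ.n2 (3120, 29900) (by decide +kernel)
                    (CovZ.n2 (3110, 29890) (by decide +kernel)
                     (CovZ.leaf K2_ok TE_l9382 _)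
                     (CovZ.leaf K2_ok TE_l18173 _))
                    (CovZ.leaf K2_ok TE_l9383 _))
                   (CovZ.n1 (3100, 29880) (by decide +kernel)
                    (CovZ.leaf K2_ok TE_l9384 _)
                    (CovZ.n1 (3110, 29890) (by decide +kernel)
                     (CovZ.leaf K2_ok TE_l9385 _)
                     (CovZ.leaf K2_ok TE_l9386 _)))))))
               (CovZ.subM 316912650057057350374175801344 (by decide +kernel)
                (CovZ.n1 (3200, 29840) (by decide +kernel)
                 (CovZ.n2 (3160, 29800) (by decide +kernel)
                  (CovZ.n2 (3160, 29840) (by decide +kernel)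
                   (CovZ.badM (by decide +kernel))
                   (CovZ.badM (by decide +kernel)))
                  (CovZ.badM (by decide +kernel)))
                 (CovZ.n1 (3160, 29880) (by decide +kernel)
                  (CovZ.n2 (3200, 29880) (by decide +kernel)
                   (CovZ.n2 (3180, 29860) (by decide +kernel)
                    (CovZ.badM (by decide +kernel))
                    (CovZ.badM (by decide +kernel)))
                   (CovZ.badM (by decide +kernel)))
                  (CovZ.n1 (3160, 29840) (by decide +kernel)
                   (CovZ.badM (by decide +kernel))
                   (CovZ.n1 (3180, 29860) (by decide +kernel)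
                    (CovZ.badM (by decide +kernel))
                    (CovZ.badM (by decide +kernel))))))))
              (CovZ.n1 (3120, 30000) (by decide +kernel)
               (CovZ.subM 41862893421938375929607632996794368 (by decide +kernel)
                (CovZ.n2 (3200, 30000) (by decide +kernel)
                 (CovZ.n2 (3160, 29960) (by decide +kernel)
                  (CovZ.n2 (3160, 30000) (by decide +kernel)
                   (CovZ.badM (by decide +kernel))
                   (CovZ.n1 (3140, 29980) (by decide +kernel)
                    (CovZ.n2 (3140, 30000) (by decide +kernel)
                     (CovZ.n2 (3150, 29990) (by decide +kernel)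
                      (CovZ.leaf K2_ok TE_l9387 _)
                      (CovZ.leaf K2_ok TE_l9388 _))
                     (CovZ.n1 (3130, 29990) (by decide +kernel)
                      (CovZ.leaf K2_ok TE_l9389 _)
                      (CovZ.leaf K2_ok TE_l9390 _)))
                    (CovZ.badM (by decide +kernel))))
                  (CovZ.badM (by decide +kernel)))
                 (CovZ.n1 (3160, 30040) (by decide +kernel)
                  (CovZ.badM (by decide +kernel))
                  (CovZ.n1 (3160, 30000) (by decide +kernel)
                   (CovZ.n2 (3140, 30020) (by decide +kernel)
                    (CovZ.n2 (3160, 30020) (by decide +kernel)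
                     (CovZ.n2 (3150, 30010) (by decide +kernel)
                      (CovZ.leaf K2_ok TE_l9391 _)
                      (CovZ.badM (by decide +kernel)))
                     (CovZ.leaf K2_ok TE_l9392 _))
                    (CovZ.n1 (3140, 30000) (by decide +kernel)
                     (CovZ.leaf K2_ok TE_l9393 _)
                     (CovZ.n1 (3150, 30010) (by decide +kernel)
                      (CovZ.leaf K2_ok TE_l9394 _)
                      (CovZ.leaf K2_ok TE_l9395 _))))
                   (CovZ.badM (by decide +kernel))))))
               (CovZ.n1 (3120, 29920) (by decide +kernel)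
                (CovZ.n2 (3080, 29960) (by decide +kernel)
                 (CovZ.n2 (3120, 29960) (by decide +kernel)
                  (CovZ.n2 (3100, 29940) (by decide +kernel)
                   (CovZ.n2 (3100, 29960) (by decide +kernel)
                    (CovZ.leaf K2_ok TE_l9396 _)
                    (CovZ.leaf K2_ok TE_l9397 _))
                   (CovZ.n1 (3120, 29940) (by decide +kernel)
                    (CovZ.n2 (3110, 29930) (by decide +kernel)
                     (CovZ.leaf K2_ok TE_l9398 _)
                     (CovZ.leaf K2_ok TE_l9399 _))
                    (CovZ.leaf K2_ok TE_l9400 _)))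
                  (CovZ.n1 (3100, 29980) (by decide +kernel)
                   (CovZ.n2 (3120, 29980) (by decide +kernel)
                    (CovZ.leaf K2_ok TE_l9401 _)
                    (CovZ.leaf K2_ok TE_l9402 _))
                   (CovZ.n1 (3100, 29960) (by decide +kernel)
                    (CovZ.leaf K2_ok TE_l9403 _)
                    (CovZ.n1 (3110, 29970) (by decide +kernel)
                     (CovZ.leaf K2_ok TE_l9404 _)
                     (CovZ.leaf K2_ok TE_l9405 _)))))
                 (CovZ.n1 (3080, 29920) (by decide +kernel)
                  (CovZ.n2 (3060, 29940) (by decide +kernel)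
                   (CovZ.n2 (3080, 29940) (by decide +kernel)
                    (CovZ.leaf K2_ok TE_l9406 _)
                    (CovZ.leaf K2_ok TE_l9407 _))
                   (CovZ.n1 (3060, 29920) (by decide +kernel)
                    (CovZ.leaf K2_ok TE_l9408 _)
                    (CovZ.leaf K2_ok TE_l9409 _)))
                  (CovZ.n1 (3100, 29940) (by decide +kernel)
                   (CovZ.n2 (3100, 29920) (by decide +kernel)
                    (CovZ.leaf K2_ok TE_l9410 _)
                    (CovZ.n1 (3110, 29930) (by decide +kernel)
                     (CovZ.leaf K2_ok TE_l9411 _)
                     (CovZ.leaf K2_ok TE_l9412 _)))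
                   (CovZ.n1 (3080, 29940) (by decide +kernel)
                    (CovZ.leaf K2_ok TE_l9413 _)
                    (CovZ.leaf K2_ok TE_l9414 _)))))
                (CovZ.subM 41862893421938375929607632996794368 (by decide +kernel)
                 (CovZ.n1 (3160, 29960) (by decide +kernel)
                  (CovZ.badM (by decide +kernel))
                  (CovZ.n1 (3120, 29960) (by decide +kernel)
                   (CovZ.n2 (3140, 29980) (by decide +kernel)
                    (CovZ.n2 (3140, 29960) (by decide +kernel)
                     (CovZ.leaf K2_ok TE_l9415 _)
                     (CovZ.badM (by decide +kernel)))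
                    (CovZ.n1 (3120, 29980) (by decide +kernel)
                     (CovZ.n2 (3130, 29990) (by decide +kernel)
                      (CovZ.leaf K2_ok TE_l9416 _)
                      (CovZ.leaf K2_ok TE_l9417 _))
                     (CovZ.leaf K2_ok TE_l9418 _)))
                   (CovZ.n1 (3140, 29940) (by decide +kernel)
                    (CovZ.n2 (3120, 29940) (by decide +kernel)
                     (CovZ.n2 (3130, 29950) (by decide +kernel)
                      (CovZ.leaf K2_ok TE_l9419 _)
                      (CovZ.leaf K2_ok TE_l9420 _))
                     (CovZ.n1 (3130, 29930) (by decide +kernel)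
                      (CovZ.leaf K2_ok TE_l9421 _)
                      (CovZ.leaf K2_ok TE_l9422 _)))
                    (CovZ.n1 (3140, 29960) (by decide +kernel)
                     (CovZ.badM (by decide +kernel))
                     (CovZ.n1 (3130, 29950) (by decide +kernel)
                      (CovZ.leaf K2_ok TE_l9423 _)
                      (CovZ.badM (by decide +kernel))))))))))))

theorem TE_u157 : CovZ TE_M (toL (selN TE_LN 44621787488563640630624445490266114)) [0, 7, 6, 1] (3040, 29920) (2880, 29760) (3200, 29760) :=
    (CovZ.n1 (3040, 29760) (by decide +kernel)
             (CovZ.n2 (2960, 29840) (by decide +kernel)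
              (CovZ.n2 (3040, 29840) (by decide +kernel)
               (CovZ.n2 (3000, 29800) (by decide +kernel)
                (CovZ.n2 (3000, 29840) (by decide +kernel)
                 (CovZ.n2 (3020, 29820) (by decide +kernel)
                  (CovZ.n2 (3000, 29820) (by decide +kernel)
                   (CovZ.leaf K2_ok TE_l9424 _)
                   (CovZ.leaf K2_ok TE_l9425 _))
                  (CovZ.leaf K2_ok TE_l9426 _))
                 (CovZ.n1 (2980, 29820) (by decide +kernel)
                  (CovZ.leaf K2_ok TE_l9427 _)
                  (CovZ.leaf K2_ok TE_l9428 _)))
                (CovZ.subM 41862903330294393492234317514932224 (by decide +kernel)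
                 (CovZ.n1 (3040, 29800) (by decide +kernel)
                  (CovZ.n2 (3020, 29780) (by decide +kernel)
                   (CovZ.n2 (3020, 29800) (by decide +kernel)
                    (CovZ.leaf K2_ok TE_l9429 _)
                    (CovZ.leaf K2_ok TE_l9430 _))
                   (CovZ.n1 (3040, 29780) (by decide +kernel)
                    (CovZ.leaf K2_ok TE_l9431 _)
                    (CovZ.leaf K2_ok TE_l9432 _)))
                  (CovZ.n1 (3020, 29820) (by decide +kernel)
                   (CovZ.n2 (3040, 29820) (by decide +kernel)
                    (CovZ.leaf K2_ok TE_l9433 _)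
                    (CovZ.leaf K2_ok TE_l9434 _))
                   (CovZ.leaf K2_ok TE_l9435 _)))))
               (CovZ.n1 (3000, 29880) (by decide +kernel)
                (CovZ.n2 (3040, 29880) (by decide +kernel)
                 (CovZ.n2 (3020, 29860) (by decide +kernel)
                  (CovZ.leaf K2_ok TE_l9436 _)
                  (CovZ.n1 (3040, 29860) (by decide +kernel)
                   (CovZ.leaf K2_ok TE_l9437 _)
                   (CovZ.leaf K2_ok TE_l9438 _)))
                 (CovZ.n1 (3020, 29900) (by decide +kernel)
                  (CovZ.n2 (3040, 29900) (by decide +kernel)
                   (CovZ.leaf K2_ok TE_l9439 _)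
                   (CovZ.leaf K2_ok TE_l9440 _))
                  (CovZ.leaf K2_ok TE_l9441 _)))
                (CovZ.n1 (3000, 29840) (by decide +kernel)
                 (CovZ.n2 (2980, 29860) (by decide +kernel)
                  (CovZ.leaf K2_ok TE_l9442 _)
                  (CovZ.leaf K2_ok TE_l9443 _))
                 (CovZ.n1 (3020, 29860) (by decide +kernel)
                  (CovZ.leaf K2_ok TE_l9444 _)
                  (CovZ.leaf K2_ok TE_l9445 _)))))
              (CovZ.n1 (2960, 29760) (by decide +kernel)
               (CovZ.n2 (2920, 29800) (by decide +kernel)
                (CovZ.n2 (2960, 29800) (by decide +kernel)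
                 (CovZ.n2 (2940, 29780) (by decide +kernel)
                  (CovZ.leaf K2_ok TE_l9446 _)
                  (CovZ.leaf K2_ok TE_l9447 _))
                 (CovZ.leaf K2_ok TE_l9448 _))
                (CovZ.n1 (2920, 29760) (by decide +kernel)
                 (CovZ.leaf K2_ok TE_l9449 _)
                 (CovZ.n1 (2940, 29780) (by decide +kernel)
                  (CovZ.leaf K2_ok TE_l9450 _)
                  (CovZ.leaf K2_ok TE_l9451 _))))
               (CovZ.n1 (3000, 29800) (by decide +kernel)
                (CovZ.subM 42025162607123606855625895525220352 (by decide +kernel)
                 (CovZ.n2 (3000, 29760) (by decide +kernel)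
                  (CovZ.n2 (2980, 29780) (by decide +kernel)
                   (CovZ.leaf K2_ok TE_l9452 _)
                   (CovZ.leaf K2_ok TE_l9453 _))
                  (CovZ.n1 (3020, 29780) (by decide +kernel)
                   (CovZ.n2 (3020, 29760) (by decide +kernel)
                    (CovZ.leaf K2_ok TE_l9454 _)
                    (CovZ.leaf K2_ok TE_l9455 _))
                   (CovZ.n1 (3000, 29780) (by decide +kernel)
                    (CovZ.leaf K2_ok TE_l9456 _)
                    (CovZ.leaf K2_ok TE_l9457 _)))))
                (CovZ.n1 (2960, 29800) (by decide +kernel)
                 (CovZ.n2 (2980, 29820) (by decide +kernel)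
                  (CovZ.leaf K2_ok TE_l9458 _)
                  (CovZ.leaf K2_ok TE_l9459 _))
                 (CovZ.n1 (2980, 29780) (by decide +kernel)
                  (CovZ.leaf K2_ok TE_l9460 _)
                  (CovZ.leaf K2_ok TE_l9461 _))))))
             (CovZ.subM 41863220242944450549584691690733568 (by decide +kernel)
              (CovZ.n1 (3120, 29840) (by decide +kernel)
               (CovZ.n2 (3120, 29760) (by decide +kernel)
                (CovZ.n2 (3080, 29800) (by decide +kernel)
                 (CovZ.badM (by decide +kernel))
                 (CovZ.n1 (3080, 29760) (by decide +kernel)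
                  (CovZ.n2 (3060, 29780) (by decide +kernel)
                   (CovZ.subM 324528457179921610453271879614464 (by decide +kernel)
                    (CovZ.n2 (3080, 29780) (by decide +kernel)
                     (CovZ.n2 (3070, 29770) (by decide +kernel)
                      (CovZ.leaf K2_ok TE_l9464 _)
                      (CovZ.leaf K2_ok TE_l18174 _))
                     (CovZ.n1 (3070, 29790) (by decide +kernel)
                      (CovZ.leaf K2_ok TE_l9465 _)
                      (CovZ.leaf K2_ok TE_l9466 _))))
                   (CovZ.n1 (3060, 29760) (by decide +kernel)
                    (CovZ.leaf K2_ok TE_l9467 _)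
                    (CovZ.n1 (3070, 29770) (by decide +kernel)
                     (CovZ.leaf K2_ok TE_l9468 _)
                     (CovZ.leaf K2_ok TE_l9469 _))))
                  (CovZ.badM (by decide +kernel))))
                (CovZ.n1 (3160, 29800) (by decide +kernel)
                 (CovZ.badM (by decide +kernel))
                 (CovZ.badM (by decide +kernel))))
               (CovZ.n1 (3040, 29840) (by decide +kernel)
                (CovZ.n2 (3080, 29880) (by decide +kernel)
                 (CovZ.n2 (3080, 29840) (by decide +kernel)
                  (CovZ.n2 (3060, 29860) (by decide +kernel)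
                   (CovZ.n2 (3080, 29860) (by decide +kernel)
                    (CovZ.leaf K2_ok TE_l9472 _)
                    (CovZ.leaf K2_ok TE_l9473 _))
                   (CovZ.n1 (3060, 29840) (by decide +kernel)
                    (CovZ.leaf K2_ok TE_l9474 _)
                    (CovZ.leaf K2_ok TE_l9475 _)))
                  (CovZ.n1 (3100, 29860) (by decide +kernel)
                   (CovZ.n2 (3100, 29840) (by decide +kernel)
                    (CovZ.leaf K2_ok TE_l9476 _)
                    (CovZ.badM (by decide +kernel)))
                   (CovZ.n1 (3080, 29860) (by decide +kernel)
                    (CovZ.n2 (3090, 29870) (by decide +kernel)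
                     (CovZ.leaf K2_ok TE_l9477 _)
                     (CovZ.leaf K2_ok TE_l9478 _))
                    (CovZ.leaf K2_ok TE_l9479 _))))
                 (CovZ.n1 (3040, 29880) (by decide +kernel)
                  (CovZ.n2 (3060, 29900) (by decide +kernel)
                   (CovZ.n2 (3060, 29880) (by decide +kernel)
                    (CovZ.leaf K2_ok TE_l9480 _)
                    (CovZ.leaf K2_ok TE_l9481 _))
                   (CovZ.leaf K2_ok TE_l9482 _))
                  (CovZ.n1 (3060, 29860) (by decide +kernel)
                   (CovZ.n2 (3040, 29860) (by decide +kernel)
                    (CovZ.leaf K2_ok TE_l9483 _)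
                    (CovZ.leaf K2_ok TE_l9484 _))
                   (CovZ.n1 (3060, 29880) (by decide +kernel)
                    (CovZ.leaf K2_ok TE_l9485 _)
                    (CovZ.leaf K2_ok TE_l9486 _)))))
                (CovZ.n1 (3080, 29800) (by decide +kernel)
                 (CovZ.n2 (3040, 29800) (by decide +kernel)
                  (CovZ.n2 (3060, 29820) (by decide +kernel)
                   (CovZ.n2 (3060, 29800) (by decide +kernel)
                    (CovZ.leaf K2_ok TE_l9487 _)
                    (CovZ.n1 (3070, 29810) (by decide +kernel)
                     (CovZ.leaf K2_ok TE_l9488 _)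
                     (CovZ.leaf K2_ok TE_l9489 _)))
                   (CovZ.n1 (3040, 29820) (by decide +kernel)
                    (CovZ.leaf K2_ok TE_l9490 _)
                    (CovZ.leaf K2_ok TE_l9491 _)))
                  (CovZ.n1 (3060, 29780) (by decide +kernel)
                   (CovZ.n2 (3040, 29780) (by decide +kernel)
                    (CovZ.leaf K2_ok TE_l9492 _)
                    (CovZ.leaf K2_ok TE_l9493 _))
                   (CovZ.n1 (3060, 29800) (by decide +kernel)
                    (CovZ.n2 (3070, 29790) (by decide +kernel)
                     (CovZ.leaf K2_ok TE_l9494 _)
                     (CovZ.leaf K2_ok TE_l9495 _))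
                    (CovZ.n1 (3050, 29790) (by decide +kernel)
                     (CovZ.leaf K2_ok TE_l9496 _)
                     (CovZ.leaf K2_ok TE_l9497 _)))))
                 (CovZ.n1 (3080, 29840) (by decide +kernel)
                  (CovZ.subM 324528457178741018832554468311040 (by decide +kernel)
                   (CovZ.n2 (3100, 29820) (by decide +kernel)
                    (CovZ.n2 (3080, 29820) (by decide +kernel)
                     (CovZ.n2 (3090, 29830) (by decide +kernel)
                      (CovZ.leaf K2_ok TE_l9498 _)
                      (CovZ.leaf K2_ok TE_l9499 _))
                     (CovZ.leaf K2_ok TE_l9500 _))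
                    (CovZ.n1 (3100, 29840) (by decide +kernel)
                     (CovZ.badM (by decide +kernel))
                     (CovZ.n1 (3090, 29830) (by decide +kernel)
                      (CovZ.leaf K2_ok TE_l9501 _)
                      (CovZ.badM (by decide +kernel))))))
                  (CovZ.n1 (3060, 29820) (by decide +kernel)
                   (CovZ.n2 (3060, 29840) (by decide +kernel)
                    (CovZ.leaf K2_ok TE_l9503 _)
                    (CovZ.leaf K2_ok TE_l9504 _))
                   (CovZ.n1 (3080, 29820) (by decide +kernel)
                    (CovZ.n2 (3070, 29810) (by decide +kernel)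
                     (CovZ.leaf K2_ok TE_l9505 _)
                     (CovZ.leaf K2_ok TE_l9506 _))
                    (CovZ.leaf K2_ok TE_l9507 _)))))))))

theorem TE_u158 : CovZ TE_M (toL (selN TE_LN 44621787488563640630624445490266114)) [0, 7, 6, 1] (3200, 29440) (3040, 29600) (2880, 29440) :=
    (CovZ.subM 42025470539872675815510691264069632 (by decide +kernel)
             (CovZ.n2 (3040, 29440) (by decide +kernel)
              (CovZ.n2 (2960, 29520) (by decide +kernel)
               (CovZ.subM 41862893421938375930733532903636992 (by decide +kernel)
                (CovZ.n2 (3040, 29520) (by decide +kernel)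
                 (CovZ.n2 (3000, 29480) (by decide +kernel)
                  (CovZ.n2 (3000, 29520) (by decide +kernel)
                   (CovZ.badM (by decide +kernel))
                   (CovZ.n1 (2980, 29500) (by decide +kernel)
                    (CovZ.n2 (2980, 29520) (by decide +kernel)
                     (CovZ.leaf K2_ok TE_l9583 _)
                     (CovZ.n1 (2970, 29510) (by decide +kernel)
                      (CovZ.leaf K2_ok TE_l9584 _)
                      (CovZ.leaf K2_ok TE_l9585 _)))
                    (CovZ.badM (by decide +kernel))))
                  (CovZ.badM (by decide +kernel)))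
                 (CovZ.n1 (3000, 29560) (by decide +kernel)
                  (CovZ.badM (by decide +kernel))
                  (CovZ.n1 (3000, 29520) (by decide +kernel)
                   (CovZ.n2 (2980, 29540) (by decide +kernel)
                    (CovZ.n2 (3000, 29540) (by decide +kernel)
                     (CovZ.n2 (2990, 29530) (by decide +kernel)
                      (CovZ.leaf K2_ok TE_l9591 _)
                      (CovZ.badM (by decide +kernel)))
                     (CovZ.leaf K2_ok TE_l9593 _))
                    (CovZ.n1 (2980, 29520) (by decide +kernel)
                     (CovZ.leaf K2_ok TE_l9594 _)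
                     (CovZ.n1 (2990, 29530) (by decide +kernel)
                      (CovZ.leaf K2_ok TE_l9595 _)
                      (CovZ.leaf K2_ok TE_l9596 _))))
                   (CovZ.badM (by decide +kernel))))))
               (CovZ.n1 (2960, 29440) (by decide +kernel)
                (CovZ.n2 (2920, 29480) (by decide +kernel)
                 (CovZ.subM 41862893421938375930733532903636992 (by decide +kernel)
                  (CovZ.n2 (2960, 29480) (by decide +kernel)
                   (CovZ.n2 (2940, 29460) (by decide +kernel)
                    (CovZ.n2 (2940, 29480) (by decide +kernel)
                     (CovZ.leaf K2_ok TE_l9602 _)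
                     (CovZ.leaf K2_ok TE_l9603 _))
                    (CovZ.n1 (2960, 29460) (by decide +kernel)
                     (CovZ.n2 (2950, 29450) (by decide +kernel)
                      (CovZ.leaf K2_ok TE_l9604 _)
                      (CovZ.leaf K2_ok TE_l9605 _))
                     (CovZ.leaf K2_ok TE_l9606 _)))
                   (CovZ.n1 (2940, 29500) (by decide +kernel)
                    (CovZ.n2 (2960, 29500) (by decide +kernel)
                     (CovZ.n2 (2950, 29490) (by decide +kernel)
                      (CovZ.leaf K2_ok TE_l9607 _)
                      (CovZ.leaf K2_ok TE_l9608 _))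
                     (CovZ.leaf K2_ok TE_l9609 _))
                    (CovZ.n1 (2940, 29480) (by decide +kernel)
                     (CovZ.leaf K2_ok TE_l9610 _)
                     (CovZ.n1 (2950, 29490) (by decide +kernel)
                      (CovZ.leaf K2_ok TE_l9611 _)
                      (CovZ.leaf K2_ok TE_l9612 _))))))
                 (CovZ.n1 (2920, 29440) (by decide +kernel)
                  (CovZ.n2 (2900, 29460) (by decide +kernel)
                   (CovZ.n2 (2920, 29460) (by decide +kernel)
                    (CovZ.leaf K2_ok TE_l9613 _)
                    (CovZ.leaf K2_ok TE_l9614 _))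
                   (CovZ.n1 (2900, 29440) (by decide +kernel)
                    (CovZ.leaf K2_ok TE_l9615 _)
                    (CovZ.leaf K2_ok TE_l9616 _)))
                  (CovZ.subM 41862893421938375930733532903636992 (by decide +kernel)
                   (CovZ.n1 (2940, 29460) (by decide +kernel)
                    (CovZ.n2 (2940, 29440) (by decide +kernel)
                     (CovZ.leaf K2_ok TE_l9617 _)
                     (CovZ.n1 (2950, 29450) (by decide +kernel)
                      (CovZ.leaf K2_ok TE_l9618 _)
                      (CovZ.leaf K2_ok TE_l9619 _)))
                    (CovZ.n1 (2920, 29460) (by decide +kernel)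
                     (CovZ.leaf K2_ok TE_l9620 _)
                     (CovZ.leaf K2_ok TE_l9621 _))))))
                (CovZ.subM 41862893421938375930733532903636992 (by decide +kernel)
                 (CovZ.n1 (3000, 29480) (by decide +kernel)
                  (CovZ.badM (by decide +kernel))
                  (CovZ.n1 (2960, 29480) (by decide +kernel)
                   (CovZ.n2 (2980, 29500) (by decide +kernel)
                    (CovZ.n2 (2980, 29480) (by decide +kernel)
                     (CovZ.leaf K2_ok TE_l9623 _)
                     (CovZ.badM (by decide +kernel)))
                    (CovZ.n1 (2960, 29500) (by decide +kernel)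
                     (CovZ.n2 (2970, 29510) (by decide +kernel)
                      (CovZ.leaf K2_ok TE_l9626 _)
                      (CovZ.leaf K2_ok TE_l9627 _))
                     (CovZ.leaf K2_ok TE_l9628 _)))
                   (CovZ.n1 (2980, 29460) (by decide +kernel)
                    (CovZ.n2 (2960, 29460) (by decide +kernel)
                     (CovZ.n2 (2970, 29470) (by decide +kernel)
                      (CovZ.leaf K2_ok TE_l9629 _)
                      (CovZ.leaf K2_ok TE_l9630 _))
                     (CovZ.n1 (2970, 29450) (by decide +kernel)
                      (CovZ.leaf K2_ok TE_l9631 _)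
                      (CovZ.leaf K2_ok TE_l9632 _)))
                    (CovZ.n1 (2980, 29480) (by decide +kernel)
                     (CovZ.badM (by decide +kernel))
                     (CovZ.n1 (2970, 29470) (by decide +kernel)
                      (CovZ.leaf K2_ok TE_l9635 _)
                      (CovZ.badM (by decide +kernel))))))))))
              (CovZ.badM (by decide +kernel))))

theorem TE_u159 : CovZ TE_M (toL (selN TE_LN 44621787488563640630624445490266114)) [0, 7, 6, 1] (3040, 29600) (2880, 29760) (2880, 29440) :=
    (CovZ.n1 (2880, 29600) (by decide +kernel)
             (CovZ.n2 (2960, 29680) (by decide +kernel)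
              (CovZ.n2 (2960, 29600) (by decide +kernel)
               (CovZ.n2 (2920, 29640) (by decide +kernel)
                (CovZ.subM 42025162916608616676970895530524672 (by decide +kernel)
                 (CovZ.n2 (2960, 29640) (by decide +kernel)
                  (CovZ.n2 (2940, 29620) (by decide +kernel)
                   (CovZ.leaf K2_ok TE_l9637 _)
                   (CovZ.leaf K2_ok TE_l9638 _))
                  (CovZ.n1 (2940, 29660) (by decide +kernel)
                   (CovZ.leaf K2_ok TE_l9639 _)
                   (CovZ.leaf K2_ok TE_l9640 _))))
                (CovZ.n1 (2920, 29600) (by decide +kernel)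
                 (CovZ.n2 (2900, 29620) (by decide +kernel)
                  (CovZ.leaf K2_ok TE_l9641 _)
                  (CovZ.leaf K2_ok TE_l9642 _))
                 (CovZ.n1 (2940, 29620) (by decide +kernel)
                  (CovZ.leaf K2_ok TE_l9643 _)
                  (CovZ.leaf K2_ok TE_l9644 _))))
               (CovZ.subM 42025479519773663912976200981544960 (by decide +kernel)
                (CovZ.n1 (3000, 29640) (by decide +kernel)
                 (CovZ.n2 (3000, 29600) (by decide +kernel)
                  (CovZ.n2 (2980, 29620) (by decide +kernel)
                   (CovZ.n2 (3000, 29620) (by decide +kernel)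
                    (CovZ.leaf K2_ok TE_l9645 _)
                    (CovZ.leaf K2_ok TE_l9646 _))
                   (CovZ.n1 (2980, 29600) (by decide +kernel)
                    (CovZ.leaf K2_ok TE_l9647 _)
                    (CovZ.leaf K2_ok TE_l9648 _)))
                  (CovZ.n1 (3020, 29620) (by decide +kernel)
                   (CovZ.n2 (3020, 29600) (by decide +kernel)
                    (CovZ.leaf K2_ok TE_l9649 _)
                    (CovZ.badM (by decide +kernel)))
                   (CovZ.n1 (3000, 29620) (by decide +kernel)
                    (CovZ.n2 (3010, 29630) (by decide +kernel)
                     (CovZ.leaf K2_ok TE_l9650 _)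
                     (CovZ.leaf K2_ok TE_l9651 _))
                    (CovZ.leaf K2_ok TE_l9652 _))))
                 (CovZ.n1 (2960, 29640) (by decide +kernel)
                  (CovZ.n2 (2980, 29660) (by decide +kernel)
                   (CovZ.n2 (2980, 29640) (by decide +kernel)
                    (CovZ.leaf K2_ok TE_l9653 _)
                    (CovZ.leaf K2_ok TE_l9654 _))
                   (CovZ.leaf K2_ok TE_l9655 _))
                  (CovZ.subM 41862893421938375930733532903636992 (by decide +kernel)
                   (CovZ.n1 (2980, 29620) (by decide +kernel)
                    (CovZ.n2 (2960, 29620) (by decide +kernel)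
                     (CovZ.leaf K2_ok TE_l9656 _)
                     (CovZ.leaf K2_ok TE_l9657 _))
                    (CovZ.n1 (2980, 29640) (by decide +kernel)
                     (CovZ.leaf K2_ok TE_l9658 _)
                     (CovZ.leaf K2_ok TE_l9659 _))))))))
              (CovZ.n1 (2880, 29680) (by decide +kernel)
               (CovZ.n2 (2920, 29720) (by decide +kernel)
                (CovZ.n2 (2920, 29680) (by decide +kernel)
                 (CovZ.n2 (2900, 29700) (by decide +kernel)
                  (CovZ.leaf K2_ok TE_l9660 _)
                  (CovZ.leaf K2_ok TE_l9661 _))
                 (CovZ.n1 (2940, 29700) (by decide +kernel)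
                  (CovZ.leaf K2_ok TE_l9662 _)
                  (CovZ.leaf K2_ok TE_l9663 _)))
                (CovZ.n1 (2880, 29720) (by decide +kernel)
                 (CovZ.n2 (2900, 29740) (by decide +kernel)
                  (CovZ.leaf K2_ok TE_l9664 _)
                  (CovZ.leaf K2_ok TE_l9665 _))
                 (CovZ.n1 (2900, 29700) (by decide +kernel)
                  (CovZ.leaf K2_ok TE_l9666 _)
                  (CovZ.leaf K2_ok TE_l9667 _))))
               (CovZ.n1 (2920, 29640) (by decide +kernel)
                (CovZ.n2 (2880, 29640) (by decide +kernel)
                 (CovZ.n2 (2900, 29660) (by decide +kernel)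
                  (CovZ.leaf K2_ok TE_l9668 _)
                  (CovZ.leaf K2_ok TE_l9669 _))
                 (CovZ.n1 (2900, 29620) (by decide +kernel)
                  (CovZ.leaf K2_ok TE_l9670 _)
                  (CovZ.leaf K2_ok TE_l9671 _)))
                (CovZ.n1 (2920, 29680) (by decide +kernel)
                 (CovZ.n2 (2940, 29660) (by decide +kernel)
                  (CovZ.leaf K2_ok TE_l9672 _)
                  (CovZ.leaf K2_ok TE_l9673 _))
                 (CovZ.n1 (2900, 29660) (by decide +kernel)
                  (CovZ.leaf K2_ok TE_l9674 _)
                  (CovZ.leaf K2_ok TE_l9675 _))))))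
             (CovZ.n1 (2960, 29520) (by decide +kernel)
              (CovZ.n2 (2880, 29520) (by decide +kernel)
               (CovZ.n2 (2920, 29560) (by decide +kernel)
                (CovZ.n2 (2920, 29520) (by decide +kernel)
                 (CovZ.n2 (2900, 29540) (by decide +kernel)
                  (CovZ.leaf K2_ok TE_l9676 _)
                  (CovZ.leaf K2_ok TE_l9677 _))
                 (CovZ.subM 42025469611417646351475485089726464 (by decide +kernel)
                  (CovZ.n1 (2940, 29540) (by decide +kernel)
                   (CovZ.n2 (2940, 29520) (by decide +kernel)
                    (CovZ.leaf K2_ok TE_l9678 _)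
                    (CovZ.leaf K2_ok TE_l9679 _))
                   (CovZ.n1 (2920, 29540) (by decide +kernel)
                    (CovZ.leaf K2_ok TE_l9680 _)
                    (CovZ.leaf K2_ok TE_l9681 _)))))
                (CovZ.n1 (2880, 29560) (by decide +kernel)
                 (CovZ.n2 (2900, 29580) (by decide +kernel)
                  (CovZ.leaf K2_ok TE_l9682 _)
                  (CovZ.leaf K2_ok TE_l9683 _))
                 (CovZ.n1 (2900, 29540) (by decide +kernel)
                  (CovZ.leaf K2_ok TE_l9684 _)
                  (CovZ.leaf K2_ok TE_l9685 _))))
               (CovZ.n1 (2920, 29480) (by decide +kernel)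
                (CovZ.n2 (2880, 29480) (by decide +kernel)
                 (CovZ.n2 (2900, 29500) (by decide +kernel)
                  (CovZ.leaf K2_ok TE_l9686 _)
                  (CovZ.leaf K2_ok TE_l9687 _))
                 (CovZ.n1 (2900, 29460) (by decide +kernel)
                  (CovZ.leaf K2_ok TE_l9688 _)
                  (CovZ.n1 (2900, 29480) (by decide +kernel)
                   (CovZ.leaf K2_ok TE_l9689 _)
                   (CovZ.leaf K2_ok TE_l9690 _))))
                (CovZ.n1 (2920, 29520) (by decide +kernel)
                 (CovZ.subM 42025469611417646351475485089726464 (by decide +kernel)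
                  (CovZ.n2 (2940, 29500) (by decide +kernel)
                   (CovZ.n2 (2920, 29500) (by decide +kernel)
                    (CovZ.leaf K2_ok TE_l9691 _)
                    (CovZ.leaf K2_ok TE_l9692 _))
                   (CovZ.n1 (2940, 29520) (by decide +kernel)
                    (CovZ.leaf K2_ok TE_l9693 _)
                    (CovZ.leaf K2_ok TE_l9694 _))))
                 (CovZ.n1 (2900, 29500) (by decide +kernel)
                  (CovZ.leaf K2_ok TE_l9695 _)
                  (CovZ.leaf K2_ok TE_l9696 _)))))
              (CovZ.n1 (2960, 29600) (by decide +kernel)
               (CovZ.subM 41863210334588432988083907079438336 (by decide +kernel)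
                (CovZ.n2 (3000, 29560) (by decide +kernel)
                 (CovZ.n2 (2960, 29560) (by decide +kernel)
                  (CovZ.n2 (2980, 29580) (by decide +kernel)
                   (CovZ.n2 (2980, 29560) (by decide +kernel)
                    (CovZ.leaf K2_ok TE_l9697 _)
                    (CovZ.n1 (2990, 29570) (by decide +kernel)
                     (CovZ.leaf K2_ok TE_l9698 _)
                     (CovZ.leaf K2_ok TE_l9699 _)))
                   (CovZ.n1 (2960, 29580) (by decide +kernel)
                    (CovZ.leaf K2_ok TE_l9700 _)
                    (CovZ.leaf K2_ok TE_l9701 _)))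
                  (CovZ.n1 (2980, 29540) (by decide +kernel)
                   (CovZ.n2 (2960, 29540) (by decide +kernel)
                    (CovZ.n2 (2970, 29550) (by decide +kernel)
                     (CovZ.leaf K2_ok TE_l9702 _)
                     (CovZ.leaf K2_ok TE_l9703 _))
                    (CovZ.leaf K2_ok TE_l9704 _))
                   (CovZ.n1 (2980, 29560) (by decide +kernel)
                    (CovZ.leaf K2_ok TE_l9705 _)
                    (CovZ.leaf K2_ok TE_l9706 _))))
                 (CovZ.n1 (3000, 29600) (by decide +kernel)
                  (CovZ.subM 324518553659607328536972593463296 (by decide +kernel)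
                   (CovZ.n2 (3020, 29580) (by decide +kernel)
                    (CovZ.n2 (3000, 29580) (by decide +kernel)
                     (CovZ.n2 (3010, 29590) (by decide +kernel)
                      (CovZ.leaf K2_ok TE_l9707 _)
                      (CovZ.leaf K2_ok TE_l9708 _))
                     (CovZ.leaf K2_ok TE_l9709 _))
                    (CovZ.n1 (3020, 29600) (by decide +kernel)
                     (CovZ.badM (by decide +kernel))
                     (CovZ.n1 (3010, 29590) (by decide +kernel)
                      (CovZ.leaf K2_ok TE_l9710 _)
                      (CovZ.badM (by decide +kernel))))))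
                  (CovZ.n1 (2980, 29580) (by decide +kernel)
                   (CovZ.n2 (2980, 29600) (by decide +kernel)
                    (CovZ.leaf K2_ok TE_l9711 _)
                    (CovZ.leaf K2_ok TE_l9712 _))
                   (CovZ.n1 (3000, 29580) (by decide +kernel)
                    (CovZ.n2 (2990, 29570) (by decide +kernel)
                     (CovZ.leaf K2_ok TE_l9713 _)
                     (CovZ.leaf K2_ok TE_l9714 _))
                    (CovZ.leaf K2_ok TE_l9715 _))))))
               (CovZ.n1 (2920, 29560) (by decide +kernel)
                (CovZ.n2 (2920, 29600) (by decide +kernel)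
                 (CovZ.n2 (2940, 29580) (by decide +kernel)
                  (CovZ.leaf K2_ok TE_l9716 _)
                  (CovZ.n1 (2940, 29600) (by decide +kernel)
                   (CovZ.leaf K2_ok TE_l9717 _)
                   (CovZ.leaf K2_ok TE_l9718 _)))
                 (CovZ.n1 (2900, 29580) (by decide +kernel)
                  (CovZ.leaf K2_ok TE_l9719 _)
                  (CovZ.leaf K2_ok TE_l9720 _)))
                (CovZ.subM 42025469611417646351475485089726464 (by decide +kernel)
                 (CovZ.n1 (2960, 29560) (by decide +kernel)
                  (CovZ.n2 (2940, 29540) (by decide +kernel)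
                   (CovZ.n2 (2940, 29560) (by decide +kernel)
                    (CovZ.leaf K2_ok TE_l9721 _)
                    (CovZ.leaf K2_ok TE_l9722 _))
                   (CovZ.n1 (2960, 29540) (by decide +kernel)
                    (CovZ.leaf K2_ok TE_l9723 _)
                    (CovZ.leaf K2_ok TE_l9724 _)))
                  (CovZ.n1 (2940, 29580) (by decide +kernel)
                   (CovZ.n2 (2960, 29580) (by decide +kernel)
                    (CovZ.leaf K2_ok TE_l9725 _)
                    (CovZ.leaf K2_ok TE_l9726 _))
                   (CovZ.leaf K2_ok TE_l9727 _))))))))

theorem TE_u160 : CovZ TE_M (toL (selN TE_LN 4130354591388890916758255878777367599279556177188155440496706)) [0, 7, 6, 1] (3200, 30080) (2880, 29760) (3200, 29440) :=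
    (CovZ.subM 44621787488563640630624445490266114 (by decide +kernel)
          (CovZ.n2 (3200, 29760) (by decide +kernel)
           (CovZ.n2 (3040, 29600) (by decide +kernel)
            (CovZ.n2 (3040, 29760) (by decide +kernel)
             (CovZ.subM 41863220238108747271126106272432128 (by decide +kernel)
              (CovZ.n2 (3120, 29680) (by decide +kernel)
               (CovZ.n2 (3040, 29680) (by decide +kernel)
                (CovZ.n2 (3080, 29720) (by decide +kernel)
                 (CovZ.subM 326816170371340392573368795136 (by decide +kernel)
                  (CovZ.n2 (3080, 29680) (by decide +kernel)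
                   (CovZ.n2 (3060, 29700) (by decide +kernel)
                    (CovZ.n2 (3080, 29700) (by decide +kernel)
                     (CovZ.n2 (3070, 29690) (by decide +kernel)
                      (CovZ.leaf K2_ok TE_l18155 _)
                      (CovZ.badM (by decide +kernel)))
                     (CovZ.n1 (3070, 29710) (by decide +kernel)
                      (CovZ.badM (by decide +kernel))
                      (CovZ.leaf K2_ok TE_l18156 _)))
                    (CovZ.n1 (3060, 29680) (by decide +kernel)
                     (CovZ.n2 (3050, 29690) (by decide +kernel)
                      (CovZ.leaf K2_ok TE_l18157 _)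
                      (CovZ.leaf K2_ok TE_l18158 _))
                     (CovZ.n1 (3070, 29690) (by decide +kernel)
                      (CovZ.badM (by decide +kernel))
                      (CovZ.leaf K2_ok TE_l18159 _))))
                   (CovZ.badM (by decide +kernel))))
                 (CovZ.n1 (3040, 29720) (by decide +kernel)
                  (CovZ.n2 (3060, 29740) (by decide +kernel)
                   (CovZ.n2 (3060, 29720) (by decide +kernel)
                    (CovZ.leaf K2_ok TE_l9299 _)
                    (CovZ.n1 (3070, 29730) (by decide +kernel)
                     (CovZ.leaf K2_ok TE_l18160 _)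
                     (CovZ.leaf K2_ok TE_l18161 _)))
                   (CovZ.n1 (3040, 29740) (by decide +kernel)
                    (CovZ.n2 (3050, 29750) (by decide +kernel)
                     (CovZ.leaf K2_ok TE_l9300 _)
                     (CovZ.leaf K2_ok TE_l9301 _))
                    (CovZ.leaf K2_ok TE_l9302 _)))
                  (CovZ.subM 324528457179921610453271879614464 (by decide +kernel)
                   (CovZ.n1 (3060, 29700) (by decide +kernel)
                    (CovZ.n2 (3040, 29700) (by decide +kernel)
                     (CovZ.n2 (3050, 29710) (by decide +kernel)
                      (CovZ.leaf K2_ok TE_l9303 _)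
                      (CovZ.leaf K2_ok TE_l9304 _))
                     (CovZ.n1 (3050, 29690) (by decide +kernel)
                      (CovZ.leaf K2_ok TE_l9305 _)
                      (CovZ.leaf K2_ok TE_l9306 _)))
                    (CovZ.n1 (3060, 29720) (by decide +kernel)
                     (CovZ.n2 (3070, 29710) (by decide +kernel)
                      (CovZ.leaf K2_ok TE_l18162 _)
                      (CovZ.leaf K2_ok TE_l18163 _))
                     (CovZ.n1 (3050, 29710) (by decide +kernel)
                      (CovZ.leaf K2_ok TE_l9307 _)
                      (CovZ.leaf K2_ok TE_l18164 _)))))))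
                (CovZ.subM 316912650057057350374175801344 (by decide +kernel)
                 (CovZ.n1 (3080, 29640) (by decide +kernel)
                  (CovZ.n2 (3040, 29640) (by decide +kernel)
                   (CovZ.n2 (3060, 29660) (by decide +kernel)
                    (CovZ.badM (by decide +kernel))
                    (CovZ.n1 (3040, 29660) (by decide +kernel)
                     (CovZ.n2 (3050, 29670) (by decide +kernel)
                      (CovZ.badM (by decide +kernel))
                      (CovZ.leaf K2_ok TE_l18165 _))
                     (CovZ.badM (by decide +kernel))))
                   (CovZ.badM (by decide +kernel)))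
                  (CovZ.n1 (3080, 29680) (by decide +kernel)
                   (CovZ.badM (by decide +kernel))
                   (CovZ.n1 (3060, 29660) (by decide +kernel)
                    (CovZ.n2 (3060, 29680) (by decide +kernel)
                     (CovZ.badM (by decide +kernel))
                     (CovZ.n1 (3050, 29670) (by decide +kernel)
                      (CovZ.leaf K2_ok TE_l18166 _)
                      (CovZ.badM (by decide +kernel))))
                    (CovZ.badM (by decide +kernel)))))))
               (CovZ.n1 (3120, 29760) (by decide +kernel)
                (CovZ.badM (by decide +kernel))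
                (CovZ.n1 (3080, 29720) (by decide +kernel)
                 (CovZ.n2 (3080, 29760) (by decide +kernel)
                  (CovZ.badM (by decide +kernel))
                  (CovZ.n1 (3060, 29740) (by decide +kernel)
                   (CovZ.n2 (3060, 29760) (by decide +kernel)
                    (CovZ.n2 (3070, 29750) (by decide +kernel)
                     (CovZ.leaf K2_ok TE_l9308 _)
                     (CovZ.leaf K2_ok TE_l9309 _))
                    (CovZ.n1 (3050, 29750) (by decide +kernel)
                     (CovZ.leaf K2_ok TE_l9310 _)
                     (CovZ.leaf K2_ok TE_l9311 _)))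
                   (CovZ.subM 9903520314283042199192993792 (by decide +kernel)
                    (CovZ.n1 (3080, 29740) (by decide +kernel)
                     (CovZ.n2 (3070, 29730) (by decide +kernel)
                      (CovZ.leaf K2_ok TE_l18167 _)
                      (CovZ.badM (by decide +kernel)))
                     (CovZ.n1 (3070, 29750) (by decide +kernel)
                      (CovZ.leaf K2_ok TE_l18168 _)
                      (CovZ.leaf K2_ok TE_l18169 _))))))
                 (CovZ.badM (by decide +kernel))))))
             (CovZ.n1 (2960, 29680) (by decide +kernel)
              (CovZ.n2 (2960, 29760) (by decide +kernel)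
               (CovZ.subM 42025162607123606855625895525220352 (by decide +kernel)
                (CovZ.n2 (3000, 29720) (by decide +kernel)
                 (CovZ.n2 (2960, 29720) (by decide +kernel)
                  (CovZ.n2 (2980, 29740) (by decide +kernel)
                   (CovZ.leaf K2_ok TE_l9312 _)
                   (CovZ.leaf K2_ok TE_l9313 _))
                  (CovZ.n1 (2980, 29700) (by decide +kernel)
                   (CovZ.leaf K2_ok TE_l9314 _)
                   (CovZ.leaf K2_ok TE_l9315 _)))
                 (CovZ.n1 (3000, 29760) (by decide +kernel)
                  (CovZ.n2 (3020, 29740) (by decide +kernel)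
                   (CovZ.n2 (3000, 29740) (by decide +kernel)
                    (CovZ.leaf K2_ok TE_l9316 _)
                    (CovZ.leaf K2_ok TE_l9317 _))
                   (CovZ.n1 (3020, 29760) (by decide +kernel)
                    (CovZ.leaf K2_ok TE_l9318 _)
                    (CovZ.leaf K2_ok TE_l9319 _)))
                  (CovZ.n1 (2980, 29740) (by decide +kernel)
                   (CovZ.leaf K2_ok TE_l9320 _)
                   (CovZ.leaf K2_ok TE_l9321 _)))))
               (CovZ.n1 (2920, 29720) (by decide +kernel)
                (CovZ.n2 (2920, 29760) (by decide +kernel)
                 (CovZ.n2 (2940, 29740) (by decide +kernel)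
                  (CovZ.leaf K2_ok TE_l9322 _)
                  (CovZ.leaf K2_ok TE_l9323 _))
                 (CovZ.n1 (2900, 29740) (by decide +kernel)
                  (CovZ.leaf K2_ok TE_l9324 _)
                  (CovZ.leaf K2_ok TE_l9325 _)))
                (CovZ.n1 (2960, 29720) (by decide +kernel)
                 (CovZ.n2 (2940, 29700) (by decide +kernel)
                  (CovZ.leaf K2_ok TE_l9326 _)
                  (CovZ.leaf K2_ok TE_l9327 _))
                 (CovZ.n1 (2940, 29740) (by decide +kernel)
                  (CovZ.leaf K2_ok TE_l9328 _)
                  (CovZ.leaf K2_ok TE_l9329 _)))))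
              (CovZ.subM 42025479519773663912976200981544960 (by decide +kernel)
               (CovZ.n1 (3040, 29680) (by decide +kernel)
                (CovZ.n2 (3000, 29640) (by decide +kernel)
                 (CovZ.n2 (3000, 29680) (by decide +kernel)
                  (CovZ.n2 (3020, 29660) (by decide +kernel)
                   (CovZ.n2 (3000, 29660) (by decide +kernel)
                    (CovZ.leaf K2_ok TE_l9330 _)
                    (CovZ.leaf K2_ok TE_l9331 _))
                   (CovZ.n1 (3020, 29680) (by decide +kernel)
                    (CovZ.leaf K2_ok TE_l9332 _)
                    (CovZ.n1 (3010, 29670) (by decide +kernel)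
                     (CovZ.leaf K2_ok TE_l9333 _)
                     (CovZ.leaf K2_ok TE_l9334 _))))
                  (CovZ.n1 (2980, 29660) (by decide +kernel)
                   (CovZ.n2 (2980, 29680) (by decide +kernel)
                    (CovZ.leaf K2_ok TE_l9335 _)
                    (CovZ.leaf K2_ok TE_l9336 _))
                   (CovZ.n1 (3000, 29660) (by decide +kernel)
                    (CovZ.n2 (2990, 29650) (by decide +kernel)
                     (CovZ.leaf K2_ok TE_l9337 _)
                     (CovZ.leaf K2_ok TE_l9338 _))
                    (CovZ.leaf K2_ok TE_l9339 _))))
                 (CovZ.n1 (3040, 29640) (by decide +kernel)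
                  (CovZ.n2 (3020, 29620) (by decide +kernel)
                   (CovZ.n2 (3020, 29640) (by decide +kernel)
                    (CovZ.n2 (3030, 29630) (by decide +kernel)
                     (CovZ.leaf K2_ok TE_l9340 _)
                     (CovZ.leaf K2_ok TE_l9341 _))
                    (CovZ.n1 (3010, 29630) (by decide +kernel)
                     (CovZ.leaf K2_ok TE_l9342 _)
                     (CovZ.leaf K2_ok TE_l9343 _)))
                   (CovZ.badM (by decide +kernel)))
                  (CovZ.n1 (3020, 29660) (by decide +kernel)
                   (CovZ.n2 (3040, 29660) (by decide +kernel)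
                    (CovZ.n2 (3030, 29650) (by decide +kernel)
                     (CovZ.leaf K2_ok TE_l9344 _)
                     (CovZ.badM (by decide +kernel)))
                    (CovZ.leaf K2_ok TE_l9345 _))
                   (CovZ.n1 (3020, 29640) (by decide +kernel)
                    (CovZ.leaf K2_ok TE_l9346 _)
                    (CovZ.n1 (3030, 29650) (by decide +kernel)
                     (CovZ.leaf K2_ok TE_l9347 _)
                     (CovZ.leaf K2_ok TE_l9348 _))))))
                (CovZ.n1 (3000, 29720) (by decide +kernel)
                 (CovZ.n2 (3040, 29720) (by decide +kernel)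
                  (CovZ.n2 (3020, 29700) (by decide +kernel)
                   (CovZ.n2 (3020, 29720) (by decide +kernel)
                    (CovZ.leaf K2_ok TE_l9349 _)
                    (CovZ.n1 (3010, 29710) (by decide +kernel)
                     (CovZ.leaf K2_ok TE_l9350 _)
                     (CovZ.leaf K2_ok TE_l9351 _)))
                   (CovZ.n1 (3040, 29700) (by decide +kernel)
                    (CovZ.n2 (3030, 29690) (by decide +kernel)
                     (CovZ.leaf K2_ok TE_l9352 _)
                     (CovZ.leaf K2_ok TE_l9353 _))
                    (CovZ.leaf K2_ok TE_l9354 _)))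
                  (CovZ.n1 (3020, 29740) (by decide +kernel)
                   (CovZ.n2 (3040, 29740) (by decide +kernel)
                    (CovZ.leaf K2_ok TE_l9355 _)
                    (CovZ.leaf K2_ok TE_l9356 _))
                   (CovZ.n1 (3020, 29720) (by decide +kernel)
                    (CovZ.leaf K2_ok TE_l9357 _)
                    (CovZ.n1 (3030, 29730) (by decide +kernel)
                     (CovZ.leaf K2_ok TE_l9358 _)
                     (CovZ.leaf K2_ok TE_l9359 _)))))
                 (CovZ.n1 (3000, 29680) (by decide +kernel)
                  (CovZ.n2 (2980, 29700) (by decide +kernel)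
                   (CovZ.n2 (3000, 29700) (by decide +kernel)
                    (CovZ.leaf K2_ok TE_l9360 _)
                    (CovZ.leaf K2_ok TE_l9361 _))
                   (CovZ.leaf K2_ok TE_l9362 _))
                  (CovZ.n1 (3020, 29700) (by decide +kernel)
                   (CovZ.n2 (3020, 29680) (by decide +kernel)
                    (CovZ.leaf K2_ok TE_l9363 _)
                    (CovZ.n1 (3030, 29690) (by decide +kernel)
                     (CovZ.leaf K2_ok TE_l9364 _)
                     (CovZ.leaf K2_ok TE_l9365 _)))
                   (CovZ.n1 (3000, 29700) (by decide +kernel)
                    (CovZ.n2 (3010, 29710) (by decide +kernel)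
                     (CovZ.leaf K2_ok TE_l9366 _)
                     (CovZ.leaf K2_ok TE_l9367 _))
                    (CovZ.leaf K2_ok TE_l9368 _)))))))))
            (CovZ.n1 (3200, 29600) (by decide +kernel)
             (CovZ.badM (by decide +kernel))
             (CovZ.n1 (3120, 29680) (by decide +kernel)
              (CovZ.badM (by decide +kernel))
              (CovZ.badM (by decide +kernel)))))
           (CovZ.n1 (3040, 29920) (by decide +kernel)
            TE_u156
            TE_u157)))

theorem TE_u161 : CovZ TE_M (toL (selN TE_LN 4130354591388890916758255878777367599279556177188155440496706)) [0, 7, 6, 1] (2880, 29760) (2560, 29440) (3200, 29440) :=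
    (CovZ.n1 (2880, 29440) (by decide +kernel)
          (CovZ.n2 (2720, 29600) (by decide +kernel)
           (CovZ.subM 21457930728992236172599742920780069480371445665330364482 (by decide +kernel)
            (CovZ.n2 (2880, 29600) (by decide +kernel)
             (CovZ.n2 (2800, 29520) (by decide +kernel)
              (CovZ.n2 (2800, 29600) (by decide +kernel)
               (CovZ.subM 2993155353253689221102607209810384013935830905126914 (by decide +kernel)
                (CovZ.n2 (2840, 29560) (by decide +kernel)
                 (CovZ.n2 (2800, 29560) (by decide +kernel)
                  (CovZ.n2 (2820, 29580) (by decide +kernel)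
                   (CovZ.leaf K2_ok TE_l9508 _)
                   (CovZ.leaf K2_ok TE_l9509 _))
                  (CovZ.leaf K2_ok TE_l9510 _))
                 (CovZ.n1 (2840, 29600) (by decide +kernel)
                  (CovZ.leaf K2_ok TE_l9511 _)
                  (CovZ.n1 (2820, 29580) (by decide +kernel)
                   (CovZ.leaf K2_ok TE_l9512 _)
                   (CovZ.leaf K2_ok TE_l9513 _)))))
               (CovZ.n1 (2760, 29560) (by decide +kernel)
                (CovZ.n2 (2760, 29600) (by decide +kernel)
                 (CovZ.leaf K2_ok TE_l9514 _)
                 (CovZ.leaf K2_ok TE_l9515 _))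
                (CovZ.n1 (2800, 29560) (by decide +kernel)
                 (CovZ.leaf K2_ok TE_l9516 _)
                 (CovZ.leaf K2_ok TE_l9517 _))))
              (CovZ.subM 2993155353253689221102924122450996338320397071024130 (by decide +kernel)
               (CovZ.n1 (2880, 29520) (by decide +kernel)
                (CovZ.n2 (2840, 29480) (by decide +kernel)
                 (CovZ.n2 (2840, 29520) (by decide +kernel)
                  (CovZ.n2 (2860, 29500) (by decide +kernel)
                   (CovZ.leaf K2_ok TE_l9518 _)
                   (CovZ.leaf K2_ok TE_l9519 _))
                  (CovZ.n1 (2820, 29500) (by decide +kernel)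
                   (CovZ.leaf K2_ok TE_l9520 _)
                   (CovZ.leaf K2_ok TE_l9521 _)))
                 (CovZ.n1 (2880, 29480) (by decide +kernel)
                  (CovZ.n2 (2860, 29460) (by decide +kernel)
                   (CovZ.leaf K2_ok TE_l9522 _)
                   (CovZ.leaf K2_ok TE_l9523 _))
                  (CovZ.n1 (2860, 29500) (by decide +kernel)
                   (CovZ.leaf K2_ok TE_l9524 _)
                   (CovZ.leaf K2_ok TE_l9525 _))))
                (CovZ.n1 (2840, 29560) (by decide +kernel)
                 (CovZ.n2 (2880, 29560) (by decide +kernel)
                  (CovZ.n2 (2860, 29540) (by decide +kernel)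
                   (CovZ.leaf K2_ok TE_l9526 _)
                   (CovZ.leaf K2_ok TE_l9527 _))
                  (CovZ.leaf K2_ok TE_l9528 _))
                 (CovZ.n1 (2840, 29520) (by decide +kernel)
                  (CovZ.leaf K2_ok TE_l9529 _)
                  (CovZ.n1 (2860, 29540) (by decide +kernel)
                   (CovZ.leaf K2_ok TE_l9530 _)
                   (CovZ.leaf K2_ok TE_l9531 _)))))))
             (CovZ.n1 (2800, 29680) (by decide +kernel)
              (CovZ.n2 (2880, 29680) (by decide +kernel)
               (CovZ.n2 (2840, 29640) (by decide +kernel)
                (CovZ.n2 (2840, 29680) (by decide +kernel)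
                 (CovZ.leaf K2_ok TE_l9532 _)
                 (CovZ.leaf K2_ok TE_l9533 _))
                (CovZ.n1 (2880, 29640) (by decide +kernel)
                 (CovZ.n2 (2860, 29620) (by decide +kernel)
                  (CovZ.leaf K2_ok TE_l9534 _)
                  (CovZ.leaf K2_ok TE_l9535 _))
                 (CovZ.leaf K2_ok TE_l9536 _)))
               (CovZ.n1 (2840, 29720) (by decide +kernel)
                (CovZ.n2 (2880, 29720) (by decide +kernel)
                 (CovZ.n2 (2860, 29700) (by decide +kernel)
                  (CovZ.leaf K2_ok TE_l9537 _)
                  (CovZ.leaf K2_ok TE_l9538 _))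
                 (CovZ.leaf K2_ok TE_l9539 _))
                (CovZ.n1 (2840, 29680) (by decide +kernel)
                 (CovZ.leaf K2_ok TE_l9540 _)
                 (CovZ.n1 (2860, 29700) (by decide +kernel)
                  (CovZ.leaf K2_ok TE_l9541 _)
                  (CovZ.leaf K2_ok TE_l9542 _)))))
              (CovZ.n1 (2800, 29600) (by decide +kernel)
               (CovZ.n2 (2760, 29640) (by decide +kernel)
                (CovZ.n2 (2800, 29640) (by decide +kernel)
                 (CovZ.leaf K2_ok TE_l9543 _)
                 (CovZ.leaf K2_ok TE_l9544 _))
                (CovZ.n1 (2760, 29600) (by decide +kernel)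
                 (CovZ.leaf K2_ok TE_l9545 _)
                 (CovZ.leaf K2_ok TE_l9546 _)))
               (CovZ.n1 (2840, 29640) (by decide +kernel)
                (CovZ.n2 (2840, 29600) (by decide +kernel)
                 (CovZ.leaf K2_ok TE_l9547 _)
                 (CovZ.n1 (2860, 29620) (by decide +kernel)
                  (CovZ.leaf K2_ok TE_l9548 _)
                  (CovZ.leaf K2_ok TE_l9549 _)))
                (CovZ.n1 (2800, 29640) (by decide +kernel)
                 (CovZ.leaf K2_ok TE_l9550 _)
                 (CovZ.leaf K2_ok TE_l9551 _)))))))
           (CovZ.n1 (2720, 29440) (by decide +kernel)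
            (CovZ.n2 (2640, 29520) (by decide +kernel)
             (CovZ.n2 (2720, 29520) (by decide +kernel)
              (CovZ.n2 (2680, 29480) (by decide +kernel)
               (CovZ.leaf K2_ok TE_l9552 _)
               (CovZ.leaf K2_ok TE_l9553 _))
              (CovZ.n1 (2680, 29560) (by decide +kernel)
               (CovZ.leaf K2_ok TE_l9554 _)
               (CovZ.leaf K2_ok TE_l9555 _)))
             (CovZ.n1 (2640, 29440) (by decide +kernel)
              (CovZ.n2 (2600, 29480) (by decide +kernel)
               (CovZ.leaf K2_ok TE_l9556 _)
               (CovZ.leaf K2_ok TE_l9557 _))
              (CovZ.n1 (2680, 29480) (by decide +kernel)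
               (CovZ.leaf K2_ok TE_l9558 _)
               (CovZ.leaf K2_ok TE_l9559 _))))
            (CovZ.subM 21649492671600472279894536289270337814040745856410320962 (by decide +kernel)
             (CovZ.n1 (2800, 29520) (by decide +kernel)
              (CovZ.n2 (2800, 29440) (by decide +kernel)
               (CovZ.n2 (2760, 29480) (by decide +kernel)
                (CovZ.n2 (2800, 29480) (by decide +kernel)
                 (CovZ.leaf K2_ok TE_l9560 _)
                 (CovZ.leaf K2_ok TE_l9561 _))
                (CovZ.n1 (2760, 29440) (by decide +kernel)
                 (CovZ.leaf K2_ok TE_l9562 _)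
                 (CovZ.n1 (2780, 29460) (by decide +kernel)
                  (CovZ.leaf K2_ok TE_l9563 _)
                  (CovZ.leaf K2_ok TE_l9564 _))))
               (CovZ.subM 2993155353253689221102924122450996338320397071024130 (by decide +kernel)
                (CovZ.n1 (2840, 29480) (by decide +kernel)
                 (CovZ.n2 (2840, 29440) (by decide +kernel)
                  (CovZ.leaf K2_ok TE_l9565 _)
                  (CovZ.n1 (2860, 29460) (by decide +kernel)
                   (CovZ.leaf K2_ok TE_l9566 _)
                   (CovZ.leaf K2_ok TE_l9567 _)))
                 (CovZ.n1 (2800, 29480) (by decide +kernel)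
                  (CovZ.n2 (2820, 29500) (by decide +kernel)
                   (CovZ.leaf K2_ok TE_l9568 _)
                   (CovZ.leaf K2_ok TE_l9569 _))
                  (CovZ.leaf K2_ok TE_l9570 _)))))
              (CovZ.n1 (2720, 29520) (by decide +kernel)
               (CovZ.n2 (2760, 29560) (by decide +kernel)
                (CovZ.n2 (2760, 29520) (by decide +kernel)
                 (CovZ.leaf K2_ok TE_l9571 _)
                 (CovZ.leaf K2_ok TE_l9572 _))
                (CovZ.leaf K2_ok TE_l9573 _))
               (CovZ.n1 (2760, 29480) (by decide +kernel)
                (CovZ.n2 (2720, 29480) (by decide +kernel)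
                 (CovZ.leaf K2_ok TE_l9574 _)
                 (CovZ.leaf K2_ok TE_l9575 _))
                (CovZ.n1 (2760, 29520) (by decide +kernel)
                 (CovZ.leaf K2_ok TE_l9576 _)
                 (CovZ.leaf K2_ok TE_l9577 _))))))))
          (CovZ.subM 44621787488563640630624445490266114 (by decide +kernel)
           (CovZ.n1 (3040, 29600) (by decide +kernel)
            TE_u158
            TE_u159)))

theorem TE_u162 : CovZ TE_M (toL (selN TE_LN 4130354591388890916758255878777367599279556177188155440496706)) [0, 7, 6, 1] (3200, 30080) (2880, 30400) (2560, 30080) :=
    (CovZ.n2 (2880, 30080) (by decide +kernel)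
          (CovZ.n2 (2720, 30240) (by decide +kernel)
           (CovZ.subM 9197966402065125305743350980382016218363797738759389250 (by decide +kernel)
            (CovZ.n2 (2880, 30240) (by decide +kernel)
             (CovZ.n2 (2800, 30160) (by decide +kernel)
              (CovZ.n2 (2800, 30240) (by decide +kernel)
               (CovZ.n2 (2840, 30200) (by decide +kernel)
                (CovZ.leaf K2_ok TE_l9728 _)
                (CovZ.leaf K2_ok TE_l9729 _))
               (CovZ.n1 (2760, 30200) (by decide +kernel)
                (CovZ.leaf K2_ok TE_l9730 _)
                (CovZ.leaf K2_ok TE_l9731 _)))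
              (CovZ.n1 (2880, 30160) (by decide +kernel)
               (CovZ.n2 (2840, 30120) (by decide +kernel)
                (CovZ.leaf K2_ok TE_l9732 _)
                (CovZ.leaf K2_ok TE_l9733 _))
               (CovZ.n1 (2840, 30200) (by decide +kernel)
                (CovZ.leaf K2_ok TE_l9734 _)
                (CovZ.leaf K2_ok TE_l9735 _))))
             (CovZ.n1 (2800, 30320) (by decide +kernel)
              (CovZ.n2 (2880, 30320) (by decide +kernel)
               (CovZ.n2 (2840, 30280) (by decide +kernel)
                (CovZ.leaf K2_ok TE_l9736 _)
                (CovZ.leaf K2_ok TE_l9737 _))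
               (CovZ.leaf K2_ok TE_l9738 _))
              (CovZ.n1 (2800, 30240) (by decide +kernel)
               (CovZ.leaf K2_ok TE_l9739 _)
               (CovZ.n1 (2840, 30280) (by decide +kernel)
                (CovZ.leaf K2_ok TE_l9740 _)
                (CovZ.leaf K2_ok TE_l9741 _))))))
           (CovZ.n1 (2720, 30080) (by decide +kernel)
            (CovZ.n2 (2640, 30160) (by decide +kernel)
             (CovZ.n2 (2720, 30160) (by decide +kernel)
              (CovZ.n2 (2680, 30120) (by decide +kernel)
               (CovZ.leaf K2_ok TE_l9742 _)
               (CovZ.leaf K2_ok TE_l9743 _))
              (CovZ.leaf K2_ok TE_l9744 _))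
             (CovZ.n1 (2640, 30080) (by decide +kernel)
              (CovZ.leaf K2_ok TE_l9745 _)
              (CovZ.n1 (2680, 30120) (by decide +kernel)
               (CovZ.leaf K2_ok TE_l9746 _)
               (CovZ.leaf K2_ok TE_l9747 _))))
            (CovZ.subM 9197966402065125305743350980382016218363797738759389250 (by decide +kernel)
             (CovZ.n1 (2800, 30160) (by decide +kernel)
              (CovZ.n2 (2800, 30080) (by decide +kernel)
               (CovZ.leaf K2_ok TE_l9748 _)
               (CovZ.n1 (2840, 30120) (by decide +kernel)
                (CovZ.leaf K2_ok TE_l9749 _)
                (CovZ.leaf K2_ok TE_l9750 _)))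
              (CovZ.n1 (2720, 30160) (by decide +kernel)
               (CovZ.n2 (2760, 30200) (by decide +kernel)
                (CovZ.leaf K2_ok TE_l9751 _)
                (CovZ.leaf K2_ok TE_l9752 _))
               (CovZ.leaf K2_ok TE_l9753 _))))))
          (CovZ.subM 231544157483182154042374980517232706 (by decide +kernel)
           (CovZ.n1 (3040, 30240) (by decide +kernel)
            (CovZ.n2 (3040, 30080) (by decide +kernel)
             (CovZ.n2 (2960, 30160) (by decide +kernel)
              (CovZ.n2 (3040, 30160) (by decide +kernel)
               (CovZ.n2 (3000, 30120) (by decide +kernel)
                (CovZ.n2 (3000, 30160) (by decide +kernel)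
                 (CovZ.leaf K2_ok TE_l9754 _)
                 (CovZ.leaf K2_ok TE_l9755 _))
                (CovZ.n1 (3040, 30120) (by decide +kernel)
                 (CovZ.n2 (3020, 30100) (by decide +kernel)
                  (CovZ.leaf K2_ok TE_l9756 _)
                  (CovZ.leaf K2_ok TE_l9757 _))
                 (CovZ.leaf K2_ok TE_l9758 _)))
               (CovZ.n1 (3000, 30200) (by decide +kernel)
                (CovZ.n2 (3040, 30200) (by decide +kernel)
                 (CovZ.leaf K2_ok TE_l9759 _)
                 (CovZ.leaf K2_ok TE_l9760 _))
                (CovZ.n1 (3000, 30160) (by decide +kernel)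
                 (CovZ.leaf K2_ok TE_l9761 _)
                 (CovZ.n1 (3020, 30180) (by decide +kernel)
                  (CovZ.leaf K2_ok TE_l9762 _)
                  (CovZ.leaf K2_ok TE_l9763 _)))))
              (CovZ.n1 (2960, 30080) (by decide +kernel)
               (CovZ.n2 (2920, 30120) (by decide +kernel)
                (CovZ.n2 (2960, 30120) (by decide +kernel)
                 (CovZ.leaf K2_ok TE_l9764 _)
                 (CovZ.leaf K2_ok TE_l9765 _))
                (CovZ.n1 (2920, 30080) (by decide +kernel)
                 (CovZ.leaf K2_ok TE_l9766 _)
                 (CovZ.leaf K2_ok TE_l9767 _)))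
               (CovZ.n1 (3000, 30120) (by decide +kernel)
                (CovZ.n2 (3000, 30080) (by decide +kernel)
                 (CovZ.leaf K2_ok TE_l9768 _)
                 (CovZ.n1 (3020, 30100) (by decide +kernel)
                  (CovZ.leaf K2_ok TE_l9769 _)
                  (CovZ.leaf K2_ok TE_l9770 _)))
                (CovZ.n1 (2960, 30120) (by decide +kernel)
                 (CovZ.leaf K2_ok TE_l9771 _)
                 (CovZ.leaf K2_ok TE_l9772 _)))))
             (CovZ.n1 (3120, 30160) (by decide +kernel)
              (CovZ.subM 42025321218191140294973548256034818 (by decide +kernel)
               (CovZ.n2 (3120, 30080) (by decide +kernel)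
                (CovZ.n2 (3080, 30120) (by decide +kernel)
                 (CovZ.n2 (3120, 30120) (by decide +kernel)
                  (CovZ.n2 (3100, 30100) (by decide +kernel)
                   (CovZ.leaf K2_ok TE_l9773 _)
                   (CovZ.leaf K2_ok TE_l9774 _))
                  (CovZ.n1 (3100, 30140) (by decide +kernel)
                   (CovZ.leaf K2_ok TE_l9775 _)
                   (CovZ.leaf K2_ok TE_l9776 _)))
                 (CovZ.n1 (3080, 30080) (by decide +kernel)
                  (CovZ.n2 (3060, 30100) (by decide +kernel)
                   (CovZ.leaf K2_ok TE_l9777 _)
                   (CovZ.leaf K2_ok TE_l9778 _))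
                  (CovZ.n1 (3100, 30100) (by decide +kernel)
                   (CovZ.leaf K2_ok TE_l9779 _)
                   (CovZ.leaf K2_ok TE_l9780 _))))
                (CovZ.n1 (3160, 30120) (by decide +kernel)
                 (CovZ.subM 41862893421938375930733532903636992 (by decide +kernel)
                  (CovZ.n2 (3160, 30080) (by decide +kernel)
                   (CovZ.n2 (3140, 30100) (by decide +kernel)
                    (CovZ.n2 (3160, 30100) (by decide +kernel)
                     (CovZ.leaf K2_ok TE_l9781 _)
                     (CovZ.leaf K2_ok TE_l9782 _))
                    (CovZ.n1 (3140, 30080) (by decide +kernel)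
                     (CovZ.leaf K2_ok TE_l9783 _)
                     (CovZ.n1 (3150, 30090) (by decide +kernel)
                      (CovZ.leaf K2_ok TE_l9784 _)
                      (CovZ.leaf K2_ok TE_l9785 _))))
                   (CovZ.n1 (3180, 30100) (by decide +kernel)
                    (CovZ.n2 (3180, 30080) (by decide +kernel)
                     (CovZ.leaf K2_ok TE_l9786 _)
                     (CovZ.badM (by decide +kernel)))
                    (CovZ.n1 (3160, 30100) (by decide +kernel)
                     (CovZ.n2 (3170, 30110) (by decide +kernel)
                      (CovZ.leaf K2_ok TE_l9788 _)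
                      (CovZ.leaf K2_ok TE_l9789 _))
                     (CovZ.leaf K2_ok TE_l9790 _)))))
                 (CovZ.n1 (3120, 30120) (by decide +kernel)
                  (CovZ.n2 (3140, 30140) (by decide +kernel)
                   (CovZ.n2 (3140, 30120) (by decide +kernel)
                    (CovZ.leaf K2_ok TE_l9791 _)
                    (CovZ.leaf K2_ok TE_l9792 _))
                   (CovZ.n1 (3120, 30140) (by decide +kernel)
                    (CovZ.leaf K2_ok TE_l9793 _)
                    (CovZ.leaf K2_ok TE_l9794 _)))
                  (CovZ.n1 (3140, 30100) (by decide +kernel)
                   (CovZ.n2 (3120, 30100) (by decide +kernel)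
                    (CovZ.n2 (3130, 30110) (by decide +kernel)
                     (CovZ.leaf K2_ok TE_l9795 _)
                     (CovZ.leaf K2_ok TE_l9796 _))
                    (CovZ.leaf K2_ok TE_l9797 _))
                   (CovZ.n1 (3140, 30120) (by decide +kernel)
                    (CovZ.leaf K2_ok TE_l9798 _)
                    (CovZ.leaf K2_ok TE_l9799 _)))))))
              (CovZ.n1 (3040, 30160) (by decide +kernel)
               (CovZ.n2 (3080, 30200) (by decide +kernel)
                (CovZ.n2 (3080, 30160) (by decide +kernel)
                 (CovZ.leaf K2_ok TE_l9800 _)
                 (CovZ.n1 (3100, 30180) (by decide +kernel)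
                  (CovZ.leaf K2_ok TE_l9801 _)
                  (CovZ.leaf K2_ok TE_l9802 _)))
                (CovZ.n1 (3040, 30200) (by decide +kernel)
                 (CovZ.n2 (3060, 30220) (by decide +kernel)
                  (CovZ.leaf K2_ok TE_l9803 _)
                  (CovZ.leaf K2_ok TE_l9804 _))
                 (CovZ.leaf K2_ok TE_l9805 _)))
               (CovZ.subM 42025321218191140294973548256034818 (by decide +kernel)
                (CovZ.n1 (3080, 30120) (by decide +kernel)
                 (CovZ.n2 (3040, 30120) (by decide +kernel)
                  (CovZ.n2 (3060, 30140) (by decide +kernel)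
                   (CovZ.leaf K2_ok TE_l9806 _)
                   (CovZ.leaf K2_ok TE_l9807 _))
                  (CovZ.n1 (3060, 30100) (by decide +kernel)
                   (CovZ.leaf K2_ok TE_l9808 _)
                   (CovZ.leaf K2_ok TE_l9809 _)))
                 (CovZ.n1 (3080, 30160) (by decide +kernel)
                  (CovZ.n2 (3100, 30140) (by decide +kernel)
                   (CovZ.leaf K2_ok TE_l9810 _)
                   (CovZ.leaf K2_ok TE_l9811 _))
                  (CovZ.n1 (3060, 30140) (by decide +kernel)
                   (CovZ.leaf K2_ok TE_l9812 _)
                   (CovZ.leaf K2_ok TE_l9813 _))))))))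
            (CovZ.n1 (2880, 30240) (by decide +kernel)
             (CovZ.n2 (2960, 30320) (by decide +kernel)
              (CovZ.n2 (2960, 30240) (by decide +kernel)
               (CovZ.n2 (2920, 30280) (by decide +kernel)
                (CovZ.leaf K2_ok TE_l9814 _)
                (CovZ.leaf K2_ok TE_l9815 _))
               (CovZ.n1 (3000, 30280) (by decide +kernel)
                (CovZ.n2 (3000, 30240) (by decide +kernel)
                 (CovZ.leaf K2_ok TE_l9816 _)
                 (CovZ.n1 (3020, 30260) (by decide +kernel)
                  (CovZ.leaf K2_ok TE_l9817 _)
                  (CovZ.leaf K2_ok TE_l9818 _)))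
                (CovZ.leaf K2_ok TE_l9819 _)))
              (CovZ.n1 (2880, 30320) (by decide +kernel)
               (CovZ.n2 (2920, 30360) (by decide +kernel)
                (CovZ.leaf K2_ok TE_l9820 _)
                (CovZ.leaf K2_ok TE_l9821 _))
               (CovZ.n1 (2920, 30280) (by decide +kernel)
                (CovZ.leaf K2_ok TE_l9822 _)
                (CovZ.leaf K2_ok TE_l9823 _))))
             (CovZ.n1 (2960, 30160) (by decide +kernel)
              (CovZ.n2 (2880, 30160) (by decide +kernel)
               (CovZ.n2 (2920, 30200) (by decide +kernel)
                (CovZ.leaf K2_ok TE_l9824 _)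
                (CovZ.leaf K2_ok TE_l9825 _))
               (CovZ.n1 (2920, 30120) (by decide +kernel)
                (CovZ.leaf K2_ok TE_l9826 _)
                (CovZ.n1 (2920, 30160) (by decide +kernel)
                 (CovZ.leaf K2_ok TE_l9827 _)
                 (CovZ.leaf K2_ok TE_l9828 _))))
              (CovZ.n1 (2960, 30240) (by decide +kernel)
               (CovZ.n2 (3000, 30200) (by decide +kernel)
                (CovZ.n2 (2960, 30200) (by decide +kernel)
                 (CovZ.leaf K2_ok TE_l9829 _)
                 (CovZ.leaf K2_ok TE_l9830 _))
                (CovZ.n1 (3000, 30240) (by decide +kernel)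
                 (CovZ.leaf K2_ok TE_l9831 _)
                 (CovZ.leaf K2_ok TE_l9832 _)))
               (CovZ.n1 (2920, 30200) (by decide +kernel)
                (CovZ.leaf K2_ok TE_l9833 _)
                (CovZ.n1 (2960, 30200) (by decide +kernel)
                 (CovZ.leaf K2_ok TE_l9834 _)
                 (CovZ.leaf K2_ok TE_l9835 _)))))))))

theorem TE_u163 : CovZ TE_M (toL (selN TE_LN 4130354591388890916758255878777367599279556177188155440496706)) [0, 7, 6, 1] (2880, 30400) (2560, 30720) (2560, 30080) :=
    (CovZ.n1 (2560, 30400) (by decide +kernel)
          (CovZ.n2 (2720, 30560) (by decide +kernel)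
           (CovZ.n2 (2720, 30400) (by decide +kernel)
            (CovZ.n2 (2640, 30480) (by decide +kernel)
             (CovZ.n2 (2720, 30480) (by decide +kernel)
              (CovZ.leaf K2_ok TE_l9836 _)
              (CovZ.leaf K2_ok TE_l9837 _))
             (CovZ.n1 (2640, 30400) (by decide +kernel)
              (CovZ.leaf K2_ok TE_l9838 _)
              (CovZ.leaf K2_ok TE_l9839 _)))
            (CovZ.subM 9197966401975922324949228487815873345273767173969412162 (by decide +kernel)
             (CovZ.n1 (2800, 30480) (by decide +kernel)
              (CovZ.n2 (2800, 30400) (by decide +kernel)
               (CovZ.leaf K2_ok TE_l9840 _)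
               (CovZ.n1 (2840, 30440) (by decide +kernel)
                (CovZ.leaf K2_ok TE_l9841 _)
                (CovZ.leaf K2_ok TE_l9842 _)))
              (CovZ.n1 (2720, 30480) (by decide +kernel)
               (CovZ.n2 (2760, 30520) (by decide +kernel)
                (CovZ.leaf K2_ok TE_l9843 _)
                (CovZ.leaf K2_ok TE_l9844 _))
               (CovZ.leaf K2_ok TE_l9845 _)))))
           (CovZ.n1 (2560, 30560) (by decide +kernel)
            (CovZ.n2 (2640, 30640) (by decide +kernel)
             (CovZ.n2 (2640, 30560) (by decide +kernel)
              (CovZ.leaf K2_ok TE_l9846 _)
              (CovZ.leaf K2_ok TE_l9847 _))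
             (CovZ.leaf K2_ok TE_l9848 _))
            (CovZ.n1 (2640, 30480) (by decide +kernel)
             (CovZ.leaf K2_ok TE_l9849 _)
             (CovZ.n1 (2640, 30560) (by decide +kernel)
              (CovZ.leaf K2_ok TE_l9850 _)
              (CovZ.leaf K2_ok TE_l9851 _)))))
          (CovZ.n1 (2720, 30240) (by decide +kernel)
           (CovZ.n2 (2560, 30240) (by decide +kernel)
            (CovZ.n2 (2640, 30320) (by decide +kernel)
             (CovZ.n2 (2640, 30240) (by decide +kernel)
              (CovZ.leaf K2_ok TE_l9852 _)
              (CovZ.n1 (2680, 30280) (by decide +kernel)
               (CovZ.leaf K2_ok TE_l9853 _)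
               (CovZ.leaf K2_ok TE_l9854 _)))
             (CovZ.n1 (2560, 30320) (by decide +kernel)
              (CovZ.leaf K2_ok TE_l9855 _)
              (CovZ.leaf K2_ok TE_l9856 _)))
            (CovZ.n1 (2640, 30160) (by decide +kernel)
             (CovZ.n2 (2560, 30160) (by decide +kernel)
              (CovZ.leaf K2_ok TE_l9857 _)
              (CovZ.leaf K2_ok TE_l9858 _))
             (CovZ.n1 (2640, 30240) (by decide +kernel)
              (CovZ.leaf K2_ok TE_l9859 _)
              (CovZ.leaf K2_ok TE_l9860 _))))
           (CovZ.n1 (2720, 30400) (by decide +kernel)
            (CovZ.subM 9197966401975922324949228487815873345273204292735467586 (by decide +kernel)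
             (CovZ.n2 (2800, 30320) (by decide +kernel)
              (CovZ.n2 (2720, 30320) (by decide +kernel)
               (CovZ.n2 (2760, 30360) (by decide +kernel)
                (CovZ.leaf K2_ok TE_l9861 _)
                (CovZ.leaf K2_ok TE_l9862 _))
               (CovZ.leaf K2_ok TE_l9863 _))
              (CovZ.n1 (2800, 30400) (by decide +kernel)
               (CovZ.leaf K2_ok TE_l9864 _)
               (CovZ.n1 (2760, 30360) (by decide +kernel)
                (CovZ.leaf K2_ok TE_l9865 _)
                (CovZ.leaf K2_ok TE_l9866 _)))))
            (CovZ.n1 (2640, 30320) (by decide +kernel)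
             (CovZ.n2 (2640, 30400) (by decide +kernel)
              (CovZ.leaf K2_ok TE_l9867 _)
              (CovZ.leaf K2_ok TE_l9868 _))
             (CovZ.n1 (2720, 30320) (by decide +kernel)
              (CovZ.leaf K2_ok TE_l9869 _)
              (CovZ.leaf K2_ok TE_l9870 _))))))

theorem TE_u164 : CovZ TE_M (toL (selN TE_LN 44621470575918305939756940959678530)) [0, 7, 6, 1] (2880, 29760) (3040, 29920) (2880, 30080) :=
    (CovZ.n2 (2880, 29920) (by decide +kernel)
             (CovZ.n2 (2960, 30000) (by decide +kernel)
              (CovZ.n2 (2960, 29920) (by decide +kernel)
               (CovZ.n2 (2920, 29960) (by decide +kernel)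
                (CovZ.n2 (2960, 29960) (by decide +kernel)
                 (CovZ.n2 (2940, 29940) (by decide +kernel)
                  (CovZ.leaf K2_ok TE_l9933 _)
                  (CovZ.leaf K2_ok TE_l9934 _))
                 (CovZ.leaf K2_ok TE_l9935 _))
                (CovZ.n1 (2920, 29920) (by decide +kernel)
                 (CovZ.leaf K2_ok TE_l9936 _)
                 (CovZ.n1 (2940, 29940) (by decide +kernel)
                  (CovZ.leaf K2_ok TE_l9937 _)
                  (CovZ.leaf K2_ok TE_l9938 _))))
               (CovZ.n1 (3000, 29960) (by decide +kernel)
                (CovZ.n2 (3000, 29920) (by decide +kernel)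
                 (CovZ.leaf K2_ok TE_l9939 _)
                 (CovZ.n1 (3020, 29940) (by decide +kernel)
                  (CovZ.leaf K2_ok TE_l9940 _)
                  (CovZ.leaf K2_ok TE_l9941 _)))
                (CovZ.n1 (2960, 29960) (by decide +kernel)
                 (CovZ.n2 (2980, 29980) (by decide +kernel)
                  (CovZ.leaf K2_ok TE_l9942 _)
                  (CovZ.leaf K2_ok TE_l9943 _))
                 (CovZ.leaf K2_ok TE_l9944 _))))
              (CovZ.n1 (2880, 30000) (by decide +kernel)
               (CovZ.n2 (2920, 30040) (by decide +kernel)
                (CovZ.n2 (2920, 30000) (by decide +kernel)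
                 (CovZ.leaf K2_ok TE_l9945 _)
                 (CovZ.n1 (2940, 30020) (by decide +kernel)
                  (CovZ.leaf K2_ok TE_l9946 _)
                  (CovZ.leaf K2_ok TE_l9947 _)))
                (CovZ.leaf K2_ok TE_l9948 _))
               (CovZ.n1 (2920, 29960) (by decide +kernel)
                (CovZ.n2 (2880, 29960) (by decide +kernel)
                 (CovZ.leaf K2_ok TE_l9949 _)
                 (CovZ.leaf K2_ok TE_l9950 _))
                (CovZ.n1 (2920, 30000) (by decide +kernel)
                 (CovZ.leaf K2_ok TE_l9951 _)
                 (CovZ.leaf K2_ok TE_l9952 _)))))
             (CovZ.n1 (2960, 29840) (by decide +kernel)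
              (CovZ.n2 (2880, 29840) (by decide +kernel)
               (CovZ.n2 (2920, 29880) (by decide +kernel)
                (CovZ.n2 (2920, 29840) (by decide +kernel)
                 (CovZ.leaf K2_ok TE_l9953 _)
                 (CovZ.n1 (2940, 29860) (by decide +kernel)
                  (CovZ.leaf K2_ok TE_l9954 _)
                  (CovZ.leaf K2_ok TE_l9955 _)))
                (CovZ.n1 (2880, 29880) (by decide +kernel)
                 (CovZ.leaf K2_ok TE_l9956 _)
                 (CovZ.leaf K2_ok TE_l9957 _)))
               (CovZ.n1 (2920, 29800) (by decide +kernel)
                (CovZ.n2 (2880, 29800) (by decide +kernel)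
                 (CovZ.n2 (2900, 29820) (by decide +kernel)
                  (CovZ.leaf K2_ok TE_l9958 _)
                  (CovZ.leaf K2_ok TE_l9959 _))
                 (CovZ.leaf K2_ok TE_l9960 _))
                (CovZ.n1 (2920, 29840) (by decide +kernel)
                 (CovZ.leaf K2_ok TE_l9961 _)
                 (CovZ.n1 (2900, 29820) (by decide +kernel)
                  (CovZ.leaf K2_ok TE_l9962 _)
                  (CovZ.leaf K2_ok TE_l9963 _)))))
              (CovZ.n1 (2960, 29920) (by decide +kernel)
               (CovZ.n2 (3000, 29880) (by decide +kernel)
                (CovZ.n2 (2960, 29880) (by decide +kernel)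
                 (CovZ.n2 (2980, 29900) (by decide +kernel)
                  (CovZ.leaf K2_ok TE_l9964 _)
                  (CovZ.leaf K2_ok TE_l9965 _))
                 (CovZ.n1 (2980, 29860) (by decide +kernel)
                  (CovZ.leaf K2_ok TE_l9966 _)
                  (CovZ.leaf K2_ok TE_l9967 _)))
                (CovZ.n1 (3000, 29920) (by decide +kernel)
                 (CovZ.n2 (3020, 29900) (by decide +kernel)
                  (CovZ.leaf K2_ok TE_l9968 _)
                  (CovZ.leaf K2_ok TE_l9969 _))
                 (CovZ.n1 (2980, 29900) (by decide +kernel)
                  (CovZ.leaf K2_ok TE_l9970 _)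
                  (CovZ.leaf K2_ok TE_l9971 _))))
               (CovZ.n1 (2920, 29880) (by decide +kernel)
                (CovZ.n2 (2920, 29920) (by decide +kernel)
                 (CovZ.leaf K2_ok TE_l9972 _)
                 (CovZ.leaf K2_ok TE_l9973 _))
                (CovZ.n1 (2960, 29880) (by decide +kernel)
                 (CovZ.n2 (2940, 29860) (by decide +kernel)
                  (CovZ.leaf K2_ok TE_l9974 _)
                  (CovZ.leaf K2_ok TE_l9975 _))
                 (CovZ.leaf K2_ok TE_l9976 _))))))

theorem TE_u165 : CovZ TE_M (toL (selN TE_LN 44621470575918305939756940959678530)) [0, 7, 6, 1] (3040, 29920) (3200, 30080) (2880, 30080) :=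
    (CovZ.n1 (3040, 30080) (by decide +kernel)
             (CovZ.n2 (3120, 30000) (by decide +kernel)
              (CovZ.n2 (3040, 30000) (by decide +kernel)
               (CovZ.n2 (3080, 30040) (by decide +kernel)
                (CovZ.n2 (3080, 30000) (by decide +kernel)
                 (CovZ.n2 (3060, 30020) (by decide +kernel)
                  (CovZ.leaf K2_ok TE_l9977 _)
                  (CovZ.leaf K2_ok TE_l9978 _))
                 (CovZ.subM 41863061786619422020909435883356160 (by decide +kernel)
                  (CovZ.n1 (3100, 30020) (by decide +kernel)
                   (CovZ.n2 (3100, 30000) (by decide +kernel)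
                    (CovZ.leaf K2_ok TE_l9979 _)
                    (CovZ.leaf K2_ok TE_l9980 _))
                   (CovZ.n1 (3080, 30020) (by decide +kernel)
                    (CovZ.leaf K2_ok TE_l9981 _)
                    (CovZ.leaf K2_ok TE_l9982 _)))))
                (CovZ.n1 (3040, 30040) (by decide +kernel)
                 (CovZ.n2 (3060, 30060) (by decide +kernel)
                  (CovZ.leaf K2_ok TE_l9983 _)
                  (CovZ.leaf K2_ok TE_l9984 _))
                 (CovZ.n1 (3060, 30020) (by decide +kernel)
                  (CovZ.leaf K2_ok TE_l9985 _)
                  (CovZ.leaf K2_ok TE_l9986 _))))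
               (CovZ.n1 (3080, 29960) (by decide +kernel)
                (CovZ.n2 (3040, 29960) (by decide +kernel)
                 (CovZ.n2 (3060, 29980) (by decide +kernel)
                  (CovZ.n2 (3060, 29960) (by decide +kernel)
                   (CovZ.leaf K2_ok TE_l9987 _)
                   (CovZ.leaf K2_ok TE_l9988 _))
                  (CovZ.leaf K2_ok TE_l9989 _))
                 (CovZ.n1 (3060, 29940) (by decide +kernel)
                  (CovZ.leaf K2_ok TE_l9990 _)
                  (CovZ.leaf K2_ok TE_l9991 _)))
                (CovZ.n1 (3080, 30000) (by decide +kernel)
                 (CovZ.subM 41862903330294393492234248795455488 (by decide +kernel)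
                  (CovZ.n2 (3100, 29980) (by decide +kernel)
                   (CovZ.n2 (3080, 29980) (by decide +kernel)
                    (CovZ.n2 (3090, 29990) (by decide +kernel)
                     (CovZ.leaf K2_ok TE_l9992 _)
                     (CovZ.leaf K2_ok TE_l9993 _))
                    (CovZ.leaf K2_ok TE_l9994 _))
                   (CovZ.n1 (3100, 30000) (by decide +kernel)
                    (CovZ.leaf K2_ok TE_l9995 _)
                    (CovZ.leaf K2_ok TE_l9996 _))))
                 (CovZ.n1 (3060, 29980) (by decide +kernel)
                  (CovZ.leaf K2_ok TE_l9997 _)
                  (CovZ.n1 (3080, 29980) (by decide +kernel)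
                   (CovZ.leaf K2_ok TE_l9998 _)
                   (CovZ.leaf K2_ok TE_l9999 _))))))
              (CovZ.n1 (3120, 30080) (by decide +kernel)
               (CovZ.subM 41862893421938375930733532903636992 (by decide +kernel)
                (CovZ.n2 (3160, 30040) (by decide +kernel)
                 (CovZ.n2 (3120, 30040) (by decide +kernel)
                  (CovZ.n2 (3140, 30060) (by decide +kernel)
                   (CovZ.n2 (3140, 30040) (by decide +kernel)
                    (CovZ.leaf K2_ok TE_l10000 _)
                    (CovZ.n1 (3150, 30050) (by decide +kernel)
                     (CovZ.leaf K2_ok TE_l10001 _)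
                     (CovZ.leaf K2_ok TE_l10002 _)))
                   (CovZ.leaf K2_ok TE_l10003 _))
                  (CovZ.n1 (3140, 30020) (by decide +kernel)
                   (CovZ.n2 (3120, 30020) (by decide +kernel)
                    (CovZ.n2 (3130, 30030) (by decide +kernel)
                     (CovZ.leaf K2_ok TE_l10004 _)
                     (CovZ.leaf K2_ok TE_l10005 _))
                    (CovZ.leaf K2_ok TE_l10006 _))
                   (CovZ.n1 (3140, 30040) (by decide +kernel)
                    (CovZ.leaf K2_ok TE_l10007 _)
                    (CovZ.leaf K2_ok TE_l10008 _))))
                 (CovZ.n1 (3160, 30080) (by decide +kernel)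
                  (CovZ.n2 (3180, 30060) (by decide +kernel)
                   (CovZ.n2 (3160, 30060) (by decide +kernel)
                    (CovZ.n2 (3170, 30070) (by decide +kernel)
                     (CovZ.leaf K2_ok TE_l10009 _)
                     (CovZ.leaf K2_ok TE_l10010 _))
                    (CovZ.n1 (3170, 30050) (by decide +kernel)
                     (CovZ.leaf K2_ok TE_l10011 _)
                     (CovZ.leaf K2_ok TE_l10012 _)))
                   (CovZ.n1 (3180, 30080) (by decide +kernel)
                    (CovZ.badM (by decide +kernel))
                    (CovZ.n1 (3170, 30070) (by decide +kernel)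
                     (CovZ.leaf K2_ok TE_l10013 _)
                     (CovZ.badM (by decide +kernel)))))
                  (CovZ.n1 (3140, 30060) (by decide +kernel)
                   (CovZ.n2 (3140, 30080) (by decide +kernel)
                    (CovZ.leaf K2_ok TE_l10014 _)
                    (CovZ.leaf K2_ok TE_l10015 _))
                   (CovZ.n1 (3160, 30060) (by decide +kernel)
                    (CovZ.n2 (3150, 30050) (by decide +kernel)
                     (CovZ.leaf K2_ok TE_l10016 _)
                     (CovZ.leaf K2_ok TE_l10017 _))
                    (CovZ.leaf K2_ok TE_l10018 _))))))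
               (CovZ.n1 (3080, 30040) (by decide +kernel)
                (CovZ.n2 (3080, 30080) (by decide +kernel)
                 (CovZ.n2 (3100, 30060) (by decide +kernel)
                  (CovZ.n2 (3080, 30060) (by decide +kernel)
                   (CovZ.leaf K2_ok TE_l10019 _)
                   (CovZ.leaf K2_ok TE_l10020 _))
                  (CovZ.leaf K2_ok TE_l10021 _))
                 (CovZ.n1 (3060, 30060) (by decide +kernel)
                  (CovZ.leaf K2_ok TE_l10022 _)
                  (CovZ.leaf K2_ok TE_l10023 _)))
                (CovZ.subM 41863061786619422020909435883356160 (by decide +kernel)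
                 (CovZ.n1 (3120, 30040) (by decide +kernel)
                  (CovZ.n2 (3100, 30020) (by decide +kernel)
                   (CovZ.n2 (3100, 30040) (by decide +kernel)
                    (CovZ.leaf K2_ok TE_l10024 _)
                    (CovZ.leaf K2_ok TE_l10025 _))
                   (CovZ.n1 (3120, 30020) (by decide +kernel)
                    (CovZ.leaf K2_ok TE_l10026 _)
                    (CovZ.leaf K2_ok TE_l10027 _)))
                  (CovZ.n1 (3100, 30060) (by decide +kernel)
                   (CovZ.leaf K2_ok TE_l10028 _)
                   (CovZ.n1 (3100, 30040) (by decide +kernel)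
                    (CovZ.leaf K2_ok TE_l10029 _)
                    (CovZ.leaf K2_ok TE_l10030 _))))))))
             (CovZ.n1 (2960, 30000) (by decide +kernel)
              (CovZ.n2 (2960, 30080) (by decide +kernel)
               (CovZ.n2 (3000, 30040) (by decide +kernel)
                (CovZ.n2 (2960, 30040) (by decide +kernel)
                 (CovZ.n2 (2980, 30060) (by decide +kernel)
                  (CovZ.leaf K2_ok TE_l10031 _)
                  (CovZ.leaf K2_ok TE_l10032 _))
                 (CovZ.leaf K2_ok TE_l10033 _))
                (CovZ.n1 (3000, 30080) (by decide +kernel)
                 (CovZ.leaf K2_ok TE_l10034 _)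
                 (CovZ.n1 (2980, 30060) (by decide +kernel)
                  (CovZ.leaf K2_ok TE_l10035 _)
                  (CovZ.leaf K2_ok TE_l10036 _))))
               (CovZ.n1 (2920, 30040) (by decide +kernel)
                (CovZ.n2 (2920, 30080) (by decide +kernel)
                 (CovZ.leaf K2_ok TE_l10037 _)
                 (CovZ.leaf K2_ok TE_l10038 _))
                (CovZ.n1 (2960, 30040) (by decide +kernel)
                 (CovZ.leaf K2_ok TE_l10039 _)
                 (CovZ.leaf K2_ok TE_l10040 _))))
              (CovZ.n1 (3040, 30000) (by decide +kernel)
               (CovZ.n2 (3000, 29960) (by decide +kernel)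
                (CovZ.n2 (3000, 30000) (by decide +kernel)
                 (CovZ.n2 (3020, 29980) (by decide +kernel)
                  (CovZ.leaf K2_ok TE_l10041 _)
                  (CovZ.leaf K2_ok TE_l10042 _))
                 (CovZ.n1 (2980, 29980) (by decide +kernel)
                  (CovZ.leaf K2_ok TE_l10043 _)
                  (CovZ.leaf K2_ok TE_l10044 _)))
                (CovZ.n1 (3040, 29960) (by decide +kernel)
                 (CovZ.n2 (3020, 29940) (by decide +kernel)
                  (CovZ.leaf K2_ok TE_l10045 _)
                  (CovZ.leaf K2_ok TE_l10046 _))
                 (CovZ.n1 (3020, 29980) (by decide +kernel)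
                  (CovZ.leaf K2_ok TE_l10047 _)
                  (CovZ.leaf K2_ok TE_l10048 _))))
               (CovZ.n1 (3000, 30040) (by decide +kernel)
                (CovZ.n2 (3040, 30040) (by decide +kernel)
                 (CovZ.n2 (3020, 30020) (by decide +kernel)
                  (CovZ.leaf K2_ok TE_l10049 _)
                  (CovZ.leaf K2_ok TE_l10050 _))
                 (CovZ.leaf K2_ok TE_l10051 _))
                (CovZ.n1 (3000, 30000) (by decide +kernel)
                 (CovZ.leaf K2_ok TE_l10052 _)
                 (CovZ.n1 (3020, 30020) (by decide +kernel)
                  (CovZ.leaf K2_ok TE_l10053 _)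
                  (CovZ.leaf K2_ok TE_l10054 _)))))))

theorem TE_u166 : CovZ TE_M (toL (selN TE_LN 4130354591388890916758255878777367599279556177188155440496706)) [0, 7, 6, 1] (3840, 29440) (3200, 30080) (2560, 29440) :=
    (CovZ.n2 (3200, 29440) (by decide +kernel)
        (CovZ.n2 (2880, 29760) (by decide +kernel)
         TE_u160
         TE_u161)
        (CovZ.subM 5389993348900184946237855760384 (by decide +kernel)
         (CovZ.n1 (3520, 29760) (by decide +kernel)
          (CovZ.n2 (3520, 29440) (by decide +kernel)
           (CovZ.badM (by decide +kernel))
           (CovZ.n1 (3680, 29600) (by decide +kernel)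
            (CovZ.badM (by decide +kernel))
            (CovZ.badM (by decide +kernel))))
          (CovZ.n1 (3200, 29760) (by decide +kernel)
           (CovZ.n2 (3360, 29920) (by decide +kernel)
            (CovZ.badM (by decide +kernel))
            (CovZ.n1 (3200, 29920) (by decide +kernel)
             (CovZ.n2 (3280, 30000) (by decide +kernel)
              (CovZ.n2 (3280, 29920) (by decide +kernel)
               (CovZ.n2 (3240, 29960) (by decide +kernel)
                (CovZ.badM (by decide +kernel))
                (CovZ.n1 (3240, 29920) (by decide +kernel)
                 (CovZ.badM (by decide +kernel))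
                 (CovZ.badM (by decide +kernel))))
               (CovZ.badM (by decide +kernel)))
              (CovZ.badM (by decide +kernel)))
             (CovZ.n1 (3280, 29840) (by decide +kernel)
              (CovZ.n2 (3200, 29840) (by decide +kernel)
               (CovZ.n2 (3240, 29880) (by decide +kernel)
                (CovZ.badM (by decide +kernel))
                (CovZ.n1 (3200, 29880) (by decide +kernel)
                 (CovZ.n2 (3220, 29900) (by decide +kernel)
                  (CovZ.badM (by decide +kernel))
                  (CovZ.badM (by decide +kernel)))
                 (CovZ.badM (by decide +kernel))))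
               (CovZ.badM (by decide +kernel)))
              (CovZ.n1 (3280, 29920) (by decide +kernel)
               (CovZ.badM (by decide +kernel))
               (CovZ.n1 (3240, 29880) (by decide +kernel)
                (CovZ.n2 (3240, 29920) (by decide +kernel)
                 (CovZ.badM (by decide +kernel))
                 (CovZ.n1 (3220, 29900) (by decide +kernel)
                  (CovZ.badM (by decide +kernel))
                  (CovZ.badM (by decide +kernel))))
                (CovZ.badM (by decide +kernel)))))))
           (CovZ.badM (by decide +kernel))))))

theorem TE_u167 : CovZ TE_M (toL (selN TE_LN 4130354591388890916758255878777367599279556177188155440496706)) [0, 7, 6, 1] (3200, 30080) (2560, 30720) (2560, 29440) :=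
    (CovZ.n1 (2560, 30080) (by decide +kernel)
        (CovZ.n2 (2880, 30400) (by decide +kernel)
         TE_u162
         TE_u163)
        (CovZ.n1 (2880, 29760) (by decide +kernel)
         (CovZ.n2 (2560, 29760) (by decide +kernel)
          (CovZ.n2 (2720, 29920) (by decide +kernel)
           (CovZ.n2 (2720, 29760) (by decide +kernel)
            (CovZ.n2 (2640, 29840) (by decide +kernel)
             (CovZ.n2 (2720, 29840) (by decide +kernel)
              (CovZ.n2 (2680, 29800) (by decide +kernel)
               (CovZ.leaf K2_ok TE_l9871 _)
               (CovZ.leaf K2_ok TE_l9872 _))
              (CovZ.leaf K2_ok TE_l9873 _))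
             (CovZ.n1 (2640, 29760) (by decide +kernel)
              (CovZ.leaf K2_ok TE_l9874 _)
              (CovZ.n1 (2680, 29800) (by decide +kernel)
               (CovZ.leaf K2_ok TE_l9875 _)
               (CovZ.leaf K2_ok TE_l9876 _))))
            (CovZ.subM 21457930728992236172589358010150349768057034298496122946 (by decide +kernel)
             (CovZ.n1 (2800, 29840) (by decide +kernel)
              (CovZ.n2 (2800, 29760) (by decide +kernel)
               (CovZ.n2 (2760, 29800) (by decide +kernel)
                (CovZ.leaf K2_ok TE_l9877 _)
                (CovZ.leaf K2_ok TE_l9878 _))
               (CovZ.n1 (2840, 29800) (by decide +kernel)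
                (CovZ.n2 (2840, 29760) (by decide +kernel)
                 (CovZ.leaf K2_ok TE_l9879 _)
                 (CovZ.leaf K2_ok TE_l9880 _))
                (CovZ.n1 (2800, 29800) (by decide +kernel)
                 (CovZ.leaf K2_ok TE_l9881 _)
                 (CovZ.leaf K2_ok TE_l9882 _))))
              (CovZ.n1 (2720, 29840) (by decide +kernel)
               (CovZ.n2 (2760, 29880) (by decide +kernel)
                (CovZ.leaf K2_ok TE_l9883 _)
                (CovZ.leaf K2_ok TE_l9884 _))
               (CovZ.n1 (2760, 29800) (by decide +kernel)
                (CovZ.leaf K2_ok TE_l9885 _)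
                (CovZ.leaf K2_ok TE_l9886 _))))))
           (CovZ.n1 (2560, 29920) (by decide +kernel)
            (CovZ.n2 (2640, 30000) (by decide +kernel)
             (CovZ.n2 (2640, 29920) (by decide +kernel)
              (CovZ.leaf K2_ok TE_l9887 _)
              (CovZ.n1 (2680, 29960) (by decide +kernel)
               (CovZ.leaf K2_ok TE_l9888 _)
               (CovZ.leaf K2_ok TE_l9889 _)))
             (CovZ.n1 (2560, 30000) (by decide +kernel)
              (CovZ.n2 (2600, 30040) (by decide +kernel)
               (CovZ.leaf K2_ok TE_l9890 _)
               (CovZ.leaf K2_ok TE_l9891 _))
              (CovZ.leaf K2_ok TE_l9892 _)))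
            (CovZ.n1 (2640, 29840) (by decide +kernel)
             (CovZ.n2 (2560, 29840) (by decide +kernel)
              (CovZ.n2 (2600, 29880) (by decide +kernel)
               (CovZ.leaf K2_ok TE_l9893 _)
               (CovZ.leaf K2_ok TE_l9894 _))
              (CovZ.leaf K2_ok TE_l9895 _))
             (CovZ.n1 (2640, 29920) (by decide +kernel)
              (CovZ.leaf K2_ok TE_l9896 _)
              (CovZ.n1 (2600, 29880) (by decide +kernel)
               (CovZ.leaf K2_ok TE_l9897 _)
               (CovZ.leaf K2_ok TE_l9898 _))))))
          (CovZ.n1 (2720, 29600) (by decide +kernel)
           (CovZ.n2 (2560, 29600) (by decide +kernel)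
            (CovZ.n2 (2640, 29680) (by decide +kernel)
             (CovZ.n2 (2640, 29600) (by decide +kernel)
              (CovZ.n2 (2600, 29640) (by decide +kernel)
               (CovZ.leaf K2_ok TE_l9899 _)
               (CovZ.leaf K2_ok TE_l9900 _))
              (CovZ.n1 (2680, 29640) (by decide +kernel)
               (CovZ.leaf K2_ok TE_l9901 _)
               (CovZ.leaf K2_ok TE_l9902 _)))
             (CovZ.n1 (2560, 29680) (by decide +kernel)
              (CovZ.n2 (2600, 29720) (by decide +kernel)
               (CovZ.leaf K2_ok TE_l9903 _)
               (CovZ.leaf K2_ok TE_l9904 _))
              (CovZ.leaf K2_ok TE_l9905 _)))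
            (CovZ.n1 (2640, 29520) (by decide +kernel)
             (CovZ.n2 (2560, 29520) (by decide +kernel)
              (CovZ.n2 (2600, 29560) (by decide +kernel)
               (CovZ.leaf K2_ok TE_l9906 _)
               (CovZ.leaf K2_ok TE_l9907 _))
              (CovZ.n1 (2600, 29480) (by decide +kernel)
               (CovZ.leaf K2_ok TE_l9908 _)
               (CovZ.leaf K2_ok TE_l9909 _)))
             (CovZ.n1 (2640, 29600) (by decide +kernel)
              (CovZ.n2 (2680, 29560) (by decide +kernel)
               (CovZ.leaf K2_ok TE_l9910 _)
               (CovZ.leaf K2_ok TE_l9911 _))
              (CovZ.n1 (2600, 29560) (by decide +kernel)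
               (CovZ.leaf K2_ok TE_l9912 _)
               (CovZ.leaf K2_ok TE_l9913 _)))))
           (CovZ.n1 (2720, 29760) (by decide +kernel)
            (CovZ.subM 21457930728992236172589358010150349768057034298496122946 (by decide +kernel)
             (CovZ.n2 (2800, 29680) (by decide +kernel)
              (CovZ.n2 (2720, 29680) (by decide +kernel)
               (CovZ.n2 (2760, 29720) (by decide +kernel)
                (CovZ.leaf K2_ok TE_l9914 _)
                (CovZ.leaf K2_ok TE_l9915 _))
               (CovZ.n1 (2760, 29640) (by decide +kernel)
                (CovZ.leaf K2_ok TE_l9916 _)
                (CovZ.n1 (2760, 29680) (by decide +kernel)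
                 (CovZ.leaf K2_ok TE_l9917 _)
                 (CovZ.leaf K2_ok TE_l9918 _))))
              (CovZ.n1 (2800, 29760) (by decide +kernel)
               (CovZ.n2 (2840, 29720) (by decide +kernel)
                (CovZ.leaf K2_ok TE_l9919 _)
                (CovZ.n1 (2840, 29760) (by decide +kernel)
                 (CovZ.leaf K2_ok TE_l9920 _)
                 (CovZ.leaf K2_ok TE_l9921 _)))
               (CovZ.n1 (2760, 29720) (by decide +kernel)
                (CovZ.leaf K2_ok TE_l9922 _)
                (CovZ.n1 (2800, 29720) (by decide +kernel)
                 (CovZ.leaf K2_ok TE_l9923 _)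
                 (CovZ.leaf K2_ok TE_l9924 _))))))
            (CovZ.n1 (2640, 29680) (by decide +kernel)
             (CovZ.n2 (2640, 29760) (by decide +kernel)
              (CovZ.n2 (2680, 29720) (by decide +kernel)
               (CovZ.leaf K2_ok TE_l9925 _)
               (CovZ.leaf K2_ok TE_l9926 _))
              (CovZ.n1 (2600, 29720) (by decide +kernel)
               (CovZ.leaf K2_ok TE_l9927 _)
               (CovZ.leaf K2_ok TE_l9928 _)))
             (CovZ.n1 (2720, 29680) (by decide +kernel)
              (CovZ.n2 (2680, 29640) (by decide +kernel)
               (CovZ.leaf K2_ok TE_l9929 _)
               (CovZ.leaf K2_ok TE_l9930 _))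
              (CovZ.n1 (2680, 29720) (by decide +kernel)
               (CovZ.leaf K2_ok TE_l9931 _)
               (CovZ.leaf K2_ok TE_l9932 _)))))))
         (CovZ.n1 (2880, 30080) (by decide +kernel)
          (CovZ.subM 44621470575918305939756940959678530 (by decide +kernel)
           (CovZ.n2 (3040, 29920) (by decide +kernel)
            TE_u164
            TE_u165))
          (CovZ.n1 (2720, 29920) (by decide +kernel)
           (CovZ.n2 (2720, 30080) (by decide +kernel)
            (CovZ.subM 9197966402065125305743350980382015628067987380053737538 (by decide +kernel)
             (CovZ.n2 (2800, 30000) (by decide +kernel)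
              (CovZ.n2 (2720, 30000) (by decide +kernel)
               (CovZ.n2 (2760, 30040) (by decide +kernel)
                (CovZ.leaf K2_ok TE_l10055 _)
                (CovZ.leaf K2_ok TE_l10056 _))
               (CovZ.n1 (2760, 29960) (by decide +kernel)
                (CovZ.leaf K2_ok TE_l10057 _)
                (CovZ.leaf K2_ok TE_l10058 _)))
              (CovZ.n1 (2800, 30080) (by decide +kernel)
               (CovZ.n2 (2840, 30040) (by decide +kernel)
                (CovZ.leaf K2_ok TE_l10059 _)
                (CovZ.leaf K2_ok TE_l10060 _))
               (CovZ.n1 (2760, 30040) (by decide +kernel)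
                (CovZ.leaf K2_ok TE_l10061 _)
                (CovZ.leaf K2_ok TE_l10062 _)))))
            (CovZ.n1 (2640, 30000) (by decide +kernel)
             (CovZ.n2 (2640, 30080) (by decide +kernel)
              (CovZ.leaf K2_ok TE_l10063 _)
              (CovZ.leaf K2_ok TE_l10064 _))
             (CovZ.n1 (2720, 30000) (by decide +kernel)
              (CovZ.n2 (2680, 29960) (by decide +kernel)
               (CovZ.leaf K2_ok TE_l10065 _)
               (CovZ.leaf K2_ok TE_l10066 _))
              (CovZ.leaf K2_ok TE_l10067 _))))
           (CovZ.subM 9197966402065125305722581792947876299107121321027305538 (by decide +kernel)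
            (CovZ.n1 (2880, 29920) (by decide +kernel)
             (CovZ.n2 (2800, 29840) (by decide +kernel)
              (CovZ.n2 (2800, 29920) (by decide +kernel)
               (CovZ.n2 (2840, 29880) (by decide +kernel)
                (CovZ.leaf K2_ok TE_l10068 _)
                (CovZ.leaf K2_ok TE_l10069 _))
               (CovZ.n1 (2760, 29880) (by decide +kernel)
                (CovZ.leaf K2_ok TE_l10070 _)
                (CovZ.leaf K2_ok TE_l10071 _)))
              (CovZ.n1 (2880, 29840) (by decide +kernel)
               (CovZ.n2 (2840, 29800) (by decide +kernel)
                (CovZ.n2 (2840, 29840) (by decide +kernel)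
                 (CovZ.leaf K2_ok TE_l10072 _)
                 (CovZ.leaf K2_ok TE_l10073 _))
                (CovZ.n1 (2880, 29800) (by decide +kernel)
                 (CovZ.leaf K2_ok TE_l10074 _)
                 (CovZ.leaf K2_ok TE_l10075 _)))
               (CovZ.n1 (2840, 29880) (by decide +kernel)
                (CovZ.n2 (2880, 29880) (by decide +kernel)
                 (CovZ.leaf K2_ok TE_l10076 _)
                 (CovZ.leaf K2_ok TE_l10077 _))
                (CovZ.n1 (2840, 29840) (by decide +kernel)
                 (CovZ.leaf K2_ok TE_l10078 _)
                 (CovZ.leaf K2_ok TE_l10079 _)))))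
             (CovZ.n1 (2800, 30000) (by decide +kernel)
              (CovZ.n2 (2880, 30000) (by decide +kernel)
               (CovZ.n2 (2840, 29960) (by decide +kernel)
                (CovZ.leaf K2_ok TE_l10080 _)
                (CovZ.n1 (2880, 29960) (by decide +kernel)
                 (CovZ.leaf K2_ok TE_l10081 _)
                 (CovZ.leaf K2_ok TE_l10082 _)))
               (CovZ.n1 (2840, 30040) (by decide +kernel)
                (CovZ.leaf K2_ok TE_l10083 _)
                (CovZ.leaf K2_ok TE_l10084 _)))
              (CovZ.n1 (2800, 29920) (by decide +kernel)
               (CovZ.n2 (2760, 29960) (by decide +kernel)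
                (CovZ.leaf K2_ok TE_l10085 _)
                (CovZ.leaf K2_ok TE_l10086 _))
               (CovZ.n1 (2840, 29960) (by decide +kernel)
                (CovZ.n2 (2840, 29920) (by decide +kernel)
                 (CovZ.leaf K2_ok TE_l10087 _)
                 (CovZ.leaf K2_ok TE_l10088 _))
                (CovZ.leaf K2_ok TE_l10089 _))))))))))

theorem TE_u168 : CovZ TE_M (toL (selN TE_LN 3226451965439913203298682015713816991777098245093241712017408)) [0, 7, 6, 1] (2880, 28800) (2880, 28960) (2720, 28960) :=
    (CovZ.n2 (2800, 28880) (by decide +kernel)
              (CovZ.n2 (2800, 28960) (by decide +kernel)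
               (CovZ.subM 2993155358828880793188044739281067133935192975081472 (by decide +kernel)
                (CovZ.n2 (2840, 28920) (by decide +kernel)
                 (CovZ.n2 (2800, 28920) (by decide +kernel)
                  (CovZ.n2 (2820, 28940) (by decide +kernel)
                   (CovZ.n2 (2820, 28920) (by decide +kernel)
                    (CovZ.n2 (2810, 28930) (by decide +kernel)
                     (CovZ.leaf K2_ok TE_l10090 _)
                     (CovZ.leaf K2_ok TE_l10091 _))
                    (CovZ.n1 (2830, 28930) (by decide +kernel)
                     (CovZ.badM (by decide +kernel))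
                     (CovZ.leaf K2_ok TE_l10093 _)))
                   (CovZ.n1 (2800, 28940) (by decide +kernel)
                    (CovZ.n2 (2810, 28950) (by decide +kernel)
                     (CovZ.leaf K2_ok TE_l10094 _)
                     (CovZ.leaf K2_ok TE_l10095 _))
                    (CovZ.leaf K2_ok TE_l10096 _)))
                  (CovZ.n1 (2820, 28900) (by decide +kernel)
                   (CovZ.n2 (2800, 28900) (by decide +kernel)
                    (CovZ.n2 (2810, 28910) (by decide +kernel)
                     (CovZ.leaf K2_ok TE_l10097 _)
                     (CovZ.leaf K2_ok TE_l10098 _))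
                    (CovZ.n1 (2810, 28890) (by decide +kernel)
                     (CovZ.leaf K2_ok TE_l10099 _)
                     (CovZ.leaf K2_ok TE_l10100 _)))
                   (CovZ.n1 (2820, 28920) (by decide +kernel)
                    (CovZ.badM (by decide +kernel))
                    (CovZ.n1 (2810, 28910) (by decide +kernel)
                     (CovZ.leaf K2_ok TE_l10103 _)
                     (CovZ.leaf K2_ok TE_l10104 _)))))
                 (CovZ.n1 (2840, 28960) (by decide +kernel)
                  (CovZ.n2 (2860, 28940) (by decide +kernel)
                   (CovZ.n2 (2840, 28940) (by decide +kernel)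
                    (CovZ.badM (by decide +kernel))
                    (CovZ.badM (by decide +kernel)))
                   (CovZ.badM (by decide +kernel)))
                  (CovZ.n1 (2820, 28940) (by decide +kernel)
                   (CovZ.n2 (2820, 28960) (by decide +kernel)
                    (CovZ.n2 (2830, 28950) (by decide +kernel)
                     (CovZ.leaf K2_ok TE_l10105 _)
                     (CovZ.leaf K2_ok TE_l10106 _))
                    (CovZ.n1 (2810, 28950) (by decide +kernel)
                     (CovZ.leaf K2_ok TE_l10107 _)
                     (CovZ.leaf K2_ok TE_l10108 _)))
                   (CovZ.n1 (2840, 28940) (by decide +kernel)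
                    (CovZ.n2 (2830, 28930) (by decide +kernel)
                     (CovZ.leaf K2_ok TE_l18175 _)
                     (CovZ.badM (by decide +kernel)))
                    (CovZ.badM (by decide +kernel)))))))
               (CovZ.n1 (2760, 28920) (by decide +kernel)
                (CovZ.n2 (2760, 28960) (by decide +kernel)
                 (CovZ.subM 9221911644896730010748379287146071221284807137267023872 (by decide +kernel)
                  (CovZ.n2 (2780, 28940) (by decide +kernel)
                   (CovZ.n2 (2760, 28940) (by decide +kernel)
                    (CovZ.leaf K2_ok TE_l10109 _)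
                    (CovZ.leaf K2_ok TE_l10110 _))
                   (CovZ.n1 (2780, 28960) (by decide +kernel)
                    (CovZ.leaf K2_ok TE_l10111 _)
                    (CovZ.leaf K2_ok TE_l10112 _))))
                 (CovZ.n1 (2740, 28940) (by decide +kernel)
                  (CovZ.leaf K2_ok TE_l10113 _)
                  (CovZ.n1 (2760, 28940) (by decide +kernel)
                   (CovZ.leaf K2_ok TE_l10114 _)
                   (CovZ.leaf K2_ok TE_l10115 _))))
                (CovZ.subM 9221911644896730010706840912277792452682610576956850176 (by decide +kernel)
                 (CovZ.n1 (2800, 28920) (by decide +kernel)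
                  (CovZ.n2 (2780, 28900) (by decide +kernel)
                   (CovZ.n2 (2780, 28920) (by decide +kernel)
                    (CovZ.leaf K2_ok TE_l10116 _)
                    (CovZ.leaf K2_ok TE_l10117 _))
                   (CovZ.n1 (2800, 28900) (by decide +kernel)
                    (CovZ.n2 (2790, 28890) (by decide +kernel)
                     (CovZ.leaf K2_ok TE_l10118 _)
                     (CovZ.leaf K2_ok TE_l10119 _))
                    (CovZ.leaf K2_ok TE_l10120 _)))
                  (CovZ.n1 (2780, 28940) (by decide +kernel)
                   (CovZ.n2 (2800, 28940) (by decide +kernel)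
                    (CovZ.leaf K2_ok TE_l10121 _)
                    (CovZ.leaf K2_ok TE_l10122 _))
                   (CovZ.n1 (2780, 28920) (by decide +kernel)
                    (CovZ.leaf K2_ok TE_l10123 _)
                    (CovZ.n1 (2790, 28930) (by decide +kernel)
                     (CovZ.leaf K2_ok TE_l10124 _)
                     (CovZ.leaf K2_ok TE_l10125 _))))))))
              (CovZ.n1 (2880, 28880) (by decide +kernel)
               (CovZ.n2 (2840, 28840) (by decide +kernel)
                (CovZ.badM (by decide +kernel))
                (CovZ.badM (by decide +kernel)))
               (CovZ.badM (by decide +kernel))))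

end Pool.Agent.TET
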