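import Pool.Agent.Helper38_TET.TE_M
import Pool.Agent.Helper38_TET.TE_L
import Pool.Agent.Helper38_TET.TE_67
import Pool.Agent.Helper38_TET.TE_68
import Pool.Agent.Helper38_TET.TE_69
import Pool.Agent.Helper38_TET.TE_70
import Pool.Agent.Helper38_TET.TE_71
import Pool.Agent.Helper38_TET.TE_72
import Pool.Agent.Helper38_TET.TE_73
import Pool.Agent.Helper38_TET.TE_74
import Pool.Agent.Helper38_TET.TE_122
import Pool.Agent.Helper38_TET.TE_132
import Pool.Agent.Helper38_TET.TE_U10

/-!
# MP_c7c9bf_co: certificates, family TE
-/

set_option autoImplicit false
set_option maxRecDepth 100000

namespace Pool.Agent.TET

theorem TE_u169 : CovZ TE_M (toL (selN TE_LN 3226451965439913203298682015713816991777098245093241712017408)) [0, 7, 6, 1] (2880, 28960) (2880, 29120) (2720, 28960) :=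
    (CovZ.n1 (2800, 29040) (by decide +kernel)
              (CovZ.subM 2993155353253694493879908438428436181455885542883328 (by decide +kernel)
               (CovZ.n2 (2880, 29040) (by decide +kernel)
                (CovZ.n2 (2840, 29000) (by decide +kernel)
                 (CovZ.n2 (2840, 29040) (by decide +kernel)
                  (CovZ.subM 5316911983139663786763133420474204160 (by decide +kernel)
                   (CovZ.n2 (2860, 29020) (by decide +kernel)
                    (CovZ.n2 (2840, 29020) (by decide +kernel)
                     (CovZ.n2 (2850, 29030) (by decide +kernel)
                      (CovZ.leaf K2_ok TE_l10126 _)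
                      (CovZ.leaf K2_ok TE_l10127 _))
                     (CovZ.n1 (2850, 29010) (by decide +kernel)
                      (CovZ.leaf K2_ok TE_l10128 _)
                      (CovZ.leaf K2_ok TE_l10129 _)))
                    (CovZ.n1 (2860, 29040) (by decide +kernel)
                     (CovZ.badM (by decide +kernel))
                     (CovZ.n1 (2850, 29030) (by decide +kernel)
                      (CovZ.leaf K2_ok TE_l10130 _)
                      (CovZ.badM (by decide +kernel))))))
                  (CovZ.n1 (2820, 29020) (by decide +kernel)
                   (CovZ.n2 (2820, 29040) (by decide +kernel)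
                    (CovZ.leaf K2_ok TE_l10131 _)
                    (CovZ.leaf K2_ok TE_l10132 _))
                   (CovZ.n1 (2840, 29020) (by decide +kernel)
                    (CovZ.n2 (2830, 29010) (by decide +kernel)
                     (CovZ.leaf K2_ok TE_l10133 _)
                     (CovZ.leaf K2_ok TE_l10134 _))
                    (CovZ.leaf K2_ok TE_l10135 _))))
                 (CovZ.badM (by decide +kernel)))
                (CovZ.n1 (2840, 29080) (by decide +kernel)
                 (CovZ.subM 5316911983139664672206848958532681728 (by decide +kernel)
                  (CovZ.n2 (2880, 29080) (by decide +kernel)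
                   (CovZ.n2 (2860, 29060) (by decide +kernel)
                    (CovZ.n2 (2860, 29080) (by decide +kernel)
                     (CovZ.n2 (2870, 29070) (by decide +kernel)
                      (CovZ.leaf K2_ok TE_l18176 _)
                      (CovZ.leaf K2_ok TE_l18177 _))
                     (CovZ.n1 (2850, 29070) (by decide +kernel)
                      (CovZ.leaf K2_ok TE_l10137 _)
                      (CovZ.leaf K2_ok TE_l18178 _)))
                    (CovZ.badM (by decide +kernel)))
                   (CovZ.n1 (2860, 29100) (by decide +kernel)
                    (CovZ.n2 (2880, 29100) (by decide +kernel)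
                     (CovZ.n2 (2870, 29090) (by decide +kernel)
                      (CovZ.leaf K2_ok TE_l18179 _)
                      (CovZ.badM (by decide +kernel)))
                     (CovZ.n1 (2870, 29110) (by decide +kernel)
                      (CovZ.leaf K2_ok TE_l18180 _)
                      (CovZ.leaf K2_ok TE_l18181 _)))
                    (CovZ.n1 (2860, 29080) (by decide +kernel)
                     (CovZ.leaf K2_ok TE_l10138 _)
                     (CovZ.n1 (2870, 29090) (by decide +kernel)
                      (CovZ.leaf K2_ok TE_l18182 _)
                      (CovZ.leaf K2_ok TE_l18183 _))))))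
                 (CovZ.n1 (2840, 29040) (by decide +kernel)
                  (CovZ.n2 (2820, 29060) (by decide +kernel)
                   (CovZ.n2 (2840, 29060) (by decide +kernel)
                    (CovZ.n2 (2830, 29050) (by decide +kernel)
                     (CovZ.leaf K2_ok TE_l10139 _)
                     (CovZ.leaf K2_ok TE_l10140 _))
                    (CovZ.leaf K2_ok TE_l10141 _))
                   (CovZ.n1 (2820, 29040) (by decide +kernel)
                    (CovZ.leaf K2_ok TE_l10142 _)
                    (CovZ.n1 (2830, 29050) (by decide +kernel)
                     (CovZ.leaf K2_ok TE_l10143 _)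
                     (CovZ.leaf K2_ok TE_l10144 _))))
                  (CovZ.subM 5316911983139664967354754137885507584 (by decide +kernel)
                   (CovZ.n1 (2860, 29060) (by decide +kernel)
                    (CovZ.n2 (2860, 29040) (by decide +kernel)
                     (CovZ.n2 (2850, 29050) (by decide +kernel)
                      (CovZ.leaf K2_ok TE_l18184 _)
                      (CovZ.leaf K2_ok TE_l10145 _))
                     (CovZ.badM (by decide +kernel)))
                    (CovZ.n1 (2840, 29060) (by decide +kernel)
                     (CovZ.n2 (2850, 29070) (by decide +kernel)
                      (CovZ.leaf K2_ok TE_l10146 _)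
                      (CovZ.leaf K2_ok TE_l10147 _))
                     (CovZ.n1 (2850, 29050) (by decide +kernel)
                      (CovZ.leaf K2_ok TE_l10148 _)
                      (CovZ.leaf K2_ok TE_l10149 _)))))))))
              (CovZ.n1 (2800, 28960) (by decide +kernel)
               (CovZ.n2 (2760, 29000) (by decide +kernel)
                (CovZ.subM 9221911644896730010748379287148489063700664358761660416 (by decide +kernel)
                 (CovZ.n2 (2800, 29000) (by decide +kernel)
                  (CovZ.n2 (2780, 28980) (by decide +kernel)
                   (CovZ.n2 (2780, 29000) (by decide +kernel)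
                    (CovZ.leaf K2_ok TE_l10150 _)
                    (CovZ.leaf K2_ok TE_l10151 _))
                   (CovZ.n1 (2800, 28980) (by decide +kernel)
                    (CovZ.n2 (2790, 28970) (by decide +kernel)
                     (CovZ.leaf K2_ok TE_l10152 _)
                     (CovZ.leaf K2_ok TE_l10153 _))
                    (CovZ.leaf K2_ok TE_l10154 _)))
                  (CovZ.n1 (2780, 29020) (by decide +kernel)
                   (CovZ.n2 (2800, 29020) (by decide +kernel)
                    (CovZ.leaf K2_ok TE_l10155 _)
                    (CovZ.leaf K2_ok TE_l10156 _))
                   (CovZ.n1 (2780, 29000) (by decide +kernel)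
                    (CovZ.leaf K2_ok TE_l10157 _)
                    (CovZ.leaf K2_ok TE_l10158 _)))))
                (CovZ.n1 (2760, 28960) (by decide +kernel)
                 (CovZ.n2 (2740, 28980) (by decide +kernel)
                  (CovZ.n2 (2760, 28980) (by decide +kernel)
                   (CovZ.leaf K2_ok TE_l10159 _)
                   (CovZ.leaf K2_ok TE_l10160 _))
                  (CovZ.leaf K2_ok TE_l10161 _))
                 (CovZ.subM 9221911644896730010748379287148489063700664358761660416 (by decide +kernel)
                  (CovZ.n1 (2780, 28980) (by decide +kernel)
                   (CovZ.n2 (2780, 28960) (by decide +kernel)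
                    (CovZ.leaf K2_ok TE_l10162 _)
                    (CovZ.leaf K2_ok TE_l10163 _))
                   (CovZ.n1 (2760, 28980) (by decide +kernel)
                    (CovZ.leaf K2_ok TE_l10164 _)
                    (CovZ.leaf K2_ok TE_l10165 _))))))
               (CovZ.subM 2993155358828880793512564223812365749617975919378432 (by decide +kernel)
                (CovZ.n1 (2840, 29000) (by decide +kernel)
                 (CovZ.subM 2993155358828880793188044739281057910563156120305664 (by decide +kernel)
                  (CovZ.n2 (2840, 28960) (by decide +kernel)
                   (CovZ.n2 (2820, 28980) (by decide +kernel)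
                    (CovZ.subM 5316911983139663786763133420474204160 (by decide +kernel)
                     (CovZ.n2 (2840, 28980) (by decide +kernel)
                      (CovZ.n2 (2830, 28970) (by decide +kernel)
                       (CovZ.leaf K2_ok TE_l10166 _)
                       (CovZ.badM (by decide +kernel)))
                      (CovZ.n1 (2830, 28990) (by decide +kernel)
                       (CovZ.leaf K2_ok TE_l10168 _)
                       (CovZ.leaf K2_ok TE_l10169 _))))
                    (CovZ.n1 (2820, 28960) (by decide +kernel)
                     (CovZ.n2 (2810, 28970) (by decide +kernel)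
                      (CovZ.leaf K2_ok TE_l10170 _)
                      (CovZ.leaf K2_ok TE_l10171 _))
                     (CovZ.n1 (2830, 28970) (by decide +kernel)
                      (CovZ.leaf K2_ok TE_l10172 _)
                      (CovZ.leaf K2_ok TE_l10173 _))))
                   (CovZ.badM (by decide +kernel))))
                 (CovZ.n1 (2800, 29000) (by decide +kernel)
                  (CovZ.n2 (2820, 29020) (by decide +kernel)
                   (CovZ.n2 (2820, 29000) (by decide +kernel)
                    (CovZ.leaf K2_ok TE_l10174 _)
                    (CovZ.n1 (2830, 29010) (by decide +kernel)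
                     (CovZ.leaf K2_ok TE_l10175 _)
                     (CovZ.leaf K2_ok TE_l10176 _)))
                   (CovZ.n1 (2800, 29020) (by decide +kernel)
                    (CovZ.n2 (2810, 29030) (by decide +kernel)
                     (CovZ.leaf K2_ok TE_l10177 _)
                     (CovZ.leaf K2_ok TE_l10178 _))
                    (CovZ.leaf K2_ok TE_l10179 _)))
                  (CovZ.n1 (2820, 28980) (by decide +kernel)
                   (CovZ.n2 (2800, 28980) (by decide +kernel)
                    (CovZ.n2 (2810, 28990) (by decide +kernel)
                     (CovZ.leaf K2_ok TE_l10180 _)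
                     (CovZ.leaf K2_ok TE_l10181 _))
                    (CovZ.leaf K2_ok TE_l10182 _))
                   (CovZ.n1 (2820, 29000) (by decide +kernel)
                    (CovZ.n2 (2830, 28990) (by decide +kernel)
                     (CovZ.leaf K2_ok TE_l10183 _)
                     (CovZ.leaf K2_ok TE_l10184 _))
                    (CovZ.n1 (2810, 28990) (by decide +kernel)
                     (CovZ.leaf K2_ok TE_l10185 _)
                     (CovZ.leaf K2_ok TE_l10186 _)))))))))

theorem TE_u170 : CovZ TE_M (toL (selN TE_LN 23489771243040583800483675630324016795182516740604377327206466)) [0, 7, 6, 1] (2560, 29440) (2560, 29120) (2880, 29120) :=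
    (CovZ.n2 (2720, 29280) (by decide +kernel)
           (CovZ.n2 (2720, 29120) (by decide +kernel)
            (CovZ.n2 (2640, 29200) (by decide +kernel)
             (CovZ.subM 4029920987569408352203690147077175334490853570532362699145218 (by decide +kernel)
              (CovZ.n2 (2720, 29200) (by decide +kernel)
               (CovZ.n2 (2680, 29160) (by decide +kernel)
                (CovZ.n2 (2680, 29200) (by decide +kernel)
                 (CovZ.leaf K2_ok TE_l10271 _)
                 (CovZ.leaf K2_ok TE_l10272 _))
                (CovZ.n1 (2720, 29160) (by decide +kernel)
                 (CovZ.n2 (2700, 29140) (by decide +kernel)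
                  (CovZ.leaf K2_ok TE_l10273 _)
                  (CovZ.leaf K2_ok TE_l10274 _))
                 (CovZ.leaf K2_ok TE_l10275 _)))
               (CovZ.n1 (2680, 29240) (by decide +kernel)
                (CovZ.n2 (2720, 29240) (by decide +kernel)
                 (CovZ.leaf K2_ok TE_l10276 _)
                 (CovZ.leaf K2_ok TE_l10277 _))
                (CovZ.n1 (2680, 29200) (by decide +kernel)
                 (CovZ.leaf K2_ok TE_l10278 _)
                 (CovZ.n1 (2700, 29220) (by decide +kernel)
                  (CovZ.leaf K2_ok TE_l10279 _)
                  (CovZ.leaf K2_ok TE_l10280 _))))))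
             (CovZ.n1 (2640, 29120) (by decide +kernel)
              (CovZ.n2 (2600, 29160) (by decide +kernel)
               (CovZ.n2 (2640, 29160) (by decide +kernel)
                (CovZ.leaf K2_ok TE_l10281 _)
                (CovZ.leaf K2_ok TE_l10282 _))
               (CovZ.n1 (2600, 29120) (by decide +kernel)
                (CovZ.leaf K2_ok TE_l10283 _)
                (CovZ.leaf K2_ok TE_l10284 _)))
              (CovZ.n1 (2680, 29160) (by decide +kernel)
               (CovZ.n2 (2680, 29120) (by decide +kernel)
                (CovZ.leaf K2_ok TE_l10285 _)
                (CovZ.n1 (2700, 29140) (by decide +kernel)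
                 (CovZ.leaf K2_ok TE_l10286 _)
                 (CovZ.leaf K2_ok TE_l10287 _)))
               (CovZ.n1 (2640, 29160) (by decide +kernel)
                (CovZ.n2 (2660, 29180) (by decide +kernel)
                 (CovZ.leaf K2_ok TE_l10288 _)
                 (CovZ.leaf K2_ok TE_l10289 _))
                (CovZ.leaf K2_ok TE_l10290 _)))))
            (CovZ.subM 21673438005775929318093977896831396926176029106948276226 (by decide +kernel)
             (CovZ.n1 (2800, 29200) (by decide +kernel)
              (CovZ.n2 (2800, 29120) (by decide +kernel)
               (CovZ.n2 (2760, 29160) (by decide +kernel)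
                (CovZ.subM 9221911644891154824448746631365527412990309217026965504 (by decide +kernel)
                 (CovZ.n2 (2800, 29160) (by decide +kernel)
                  (CovZ.n2 (2780, 29140) (by decide +kernel)
                   (CovZ.leaf K2_ok TE_l10291 _)
                   (CovZ.leaf K2_ok TE_l10292 _))
                  (CovZ.n1 (2780, 29180) (by decide +kernel)
                   (CovZ.leaf K2_ok TE_l10293 _)
                   (CovZ.leaf K2_ok TE_l10294 _))))
                (CovZ.n1 (2760, 29120) (by decide +kernel)
                 (CovZ.n2 (2740, 29140) (by decide +kernel)
                  (CovZ.leaf K2_ok TE_l10295 _)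
                  (CovZ.leaf K2_ok TE_l10296 _))
                 (CovZ.n1 (2780, 29140) (by decide +kernel)
                  (CovZ.leaf K2_ok TE_l10297 _)
                  (CovZ.leaf K2_ok TE_l10298 _))))
               (CovZ.subM 2993155353253694535418283306706909635747266500231168 (by decide +kernel)
                (CovZ.n1 (2840, 29160) (by decide +kernel)
                 (CovZ.n2 (2840, 29120) (by decide +kernel)
                  (CovZ.n2 (2820, 29140) (by decide +kernel)
                   (CovZ.n2 (2840, 29140) (by decide +kernel)
                    (CovZ.n2 (2830, 29130) (by decide +kernel)
                     (CovZ.leaf K2_ok TE_l10299 _)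
                     (CovZ.leaf K2_ok TE_l10300 _))
                    (CovZ.leaf K2_ok TE_l10301 _))
                   (CovZ.n1 (2820, 29120) (by decide +kernel)
                    (CovZ.leaf K2_ok TE_l10302 _)
                    (CovZ.leaf K2_ok TE_l10303 _)))
                  (CovZ.subM 5317398760972570163945260150167699456 (by decide +kernel)
                   (CovZ.n1 (2860, 29140) (by decide +kernel)
                    (CovZ.n2 (2860, 29120) (by decide +kernel)
                     (CovZ.leaf K2_ok TE_l10304 _)
                     (CovZ.n1 (2870, 29130) (by decide +kernel)
                      (CovZ.leaf K2_ok TE_l10305 _)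
                      (CovZ.leaf K2_ok TE_l10306 _)))
                    (CovZ.n1 (2840, 29140) (by decide +kernel)
                     (CovZ.n2 (2850, 29150) (by decide +kernel)
                      (CovZ.leaf K2_ok TE_l10307 _)
                      (CovZ.leaf K2_ok TE_l10308 _))
                     (CovZ.leaf K2_ok TE_l10309 _)))))
                 (CovZ.n1 (2800, 29160) (by decide +kernel)
                  (CovZ.n2 (2820, 29180) (by decide +kernel)
                   (CovZ.leaf K2_ok TE_l10310 _)
                   (CovZ.leaf K2_ok TE_l10311 _))
                  (CovZ.n1 (2820, 29140) (by decide +kernel)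
                   (CovZ.n2 (2800, 29140) (by decide +kernel)
                    (CovZ.leaf K2_ok TE_l10312 _)
                    (CovZ.leaf K2_ok TE_l10313 _))
                   (CovZ.n1 (2820, 29160) (by decide +kernel)
                    (CovZ.leaf K2_ok TE_l10314 _)
                    (CovZ.leaf K2_ok TE_l10315 _)))))))
              (CovZ.n1 (2720, 29200) (by decide +kernel)
               (CovZ.n2 (2760, 29240) (by decide +kernel)
                (CovZ.n2 (2760, 29200) (by decide +kernel)
                 (CovZ.leaf K2_ok TE_l10316 _)
                 (CovZ.n1 (2780, 29220) (by decide +kernel)
                  (CovZ.leaf K2_ok TE_l10317 _)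
                  (CovZ.leaf K2_ok TE_l10318 _)))
                (CovZ.n1 (2720, 29240) (by decide +kernel)
                 (CovZ.n2 (2740, 29260) (by decide +kernel)
                  (CovZ.leaf K2_ok TE_l10319 _)
                  (CovZ.leaf K2_ok TE_l10320 _))
                 (CovZ.leaf K2_ok TE_l10321 _)))
               (CovZ.n1 (2760, 29160) (by decide +kernel)
                (CovZ.n2 (2720, 29160) (by decide +kernel)
                 (CovZ.n2 (2740, 29180) (by decide +kernel)
                  (CovZ.leaf K2_ok TE_l10322 _)
                  (CovZ.leaf K2_ok TE_l10323 _))
                 (CovZ.n1 (2740, 29140) (by decide +kernel)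
                  (CovZ.leaf K2_ok TE_l10324 _)
                  (CovZ.leaf K2_ok TE_l10325 _)))
                (CovZ.n1 (2760, 29200) (by decide +kernel)
                 (CovZ.n2 (2780, 29180) (by decide +kernel)
                  (CovZ.leaf K2_ok TE_l10326 _)
                  (CovZ.leaf K2_ok TE_l10327 _))
                 (CovZ.n1 (2740, 29180) (by decide +kernel)
                  (CovZ.leaf K2_ok TE_l10328 _)
                  (CovZ.leaf K2_ok TE_l10329 _))))))))
           (CovZ.n1 (2560, 29280) (by decide +kernel)
            (CovZ.n2 (2640, 29360) (by decide +kernel)
             (CovZ.n2 (2640, 29280) (by decide +kernel)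
              (CovZ.n2 (2600, 29320) (by decide +kernel)
               (CovZ.leaf K2_ok TE_l10330 _)
               (CovZ.leaf K2_ok TE_l10331 _))
              (CovZ.n1 (2680, 29320) (by decide +kernel)
               (CovZ.n2 (2680, 29280) (by decide +kernel)
                (CovZ.leaf K2_ok TE_l10332 _)
                (CovZ.leaf K2_ok TE_l10333 _))
               (CovZ.leaf K2_ok TE_l10334 _)))
             (CovZ.n1 (2560, 29360) (by decide +kernel)
              (CovZ.n2 (2600, 29400) (by decide +kernel)
               (CovZ.leaf K2_ok TE_l10335 _)
               (CovZ.leaf K2_ok TE_l10336 _))
              (CovZ.n1 (2600, 29320) (by decide +kernel)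
               (CovZ.leaf K2_ok TE_l10337 _)
               (CovZ.leaf K2_ok TE_l10338 _))))
            (CovZ.n1 (2640, 29200) (by decide +kernel)
             (CovZ.n2 (2560, 29200) (by decide +kernel)
              (CovZ.n2 (2600, 29240) (by decide +kernel)
               (CovZ.leaf K2_ok TE_l10339 _)
               (CovZ.leaf K2_ok TE_l10340 _))
              (CovZ.n1 (2600, 29160) (by decide +kernel)
               (CovZ.leaf K2_ok TE_l10341 _)
               (CovZ.leaf K2_ok TE_l10342 _)))
             (CovZ.n1 (2640, 29280) (by decide +kernel)
              (CovZ.subM 4029920987569408352203684830165192194827361955304121577766914 (by decide +kernel)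
               (CovZ.n2 (2680, 29240) (by decide +kernel)
                (CovZ.n2 (2640, 29240) (by decide +kernel)
                 (CovZ.leaf K2_ok TE_l10343 _)
                 (CovZ.leaf K2_ok TE_l10344 _))
                (CovZ.n1 (2680, 29280) (by decide +kernel)
                 (CovZ.leaf K2_ok TE_l10345 _)
                 (CovZ.leaf K2_ok TE_l10346 _))))
              (CovZ.n1 (2600, 29240) (by decide +kernel)
               (CovZ.leaf K2_ok TE_l10347 _)
               (CovZ.leaf K2_ok TE_l10348 _))))))

theorem TE_u171 : CovZ TE_M (toL (selN TE_LN 23489771243040583800483675630324016795182516740604377327206466)) [0, 7, 6, 1] (2560, 29120) (2560, 28800) (2880, 29120) :=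
    (CovZ.n1 (2720, 28960) (by decide +kernel)
           (CovZ.n2 (2560, 28960) (by decide +kernel)
            (CovZ.n2 (2640, 29040) (by decide +kernel)
             (CovZ.n2 (2640, 28960) (by decide +kernel)
              (CovZ.n2 (2600, 29000) (by decide +kernel)
               (CovZ.n2 (2640, 29000) (by decide +kernel)
                (CovZ.leaf K2_ok TE_l10349 _)
                (CovZ.leaf K2_ok TE_l10350 _))
               (CovZ.n1 (2600, 28960) (by decide +kernel)
                (CovZ.leaf K2_ok TE_l10351 _)
                (CovZ.n1 (2620, 28980) (by decide +kernel)
                 (CovZ.leaf K2_ok TE_l10352 _)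
                 (CovZ.leaf K2_ok TE_l10353 _))))
              (CovZ.n1 (2680, 29000) (by decide +kernel)
               (CovZ.n2 (2680, 28960) (by decide +kernel)
                (CovZ.leaf K2_ok TE_l10354 _)
                (CovZ.n1 (2700, 28980) (by decide +kernel)
                 (CovZ.leaf K2_ok TE_l10355 _)
                 (CovZ.leaf K2_ok TE_l10356 _)))
               (CovZ.n1 (2640, 29000) (by decide +kernel)
                (CovZ.n2 (2660, 29020) (by decide +kernel)
                 (CovZ.leaf K2_ok TE_l10357 _)
                 (CovZ.leaf K2_ok TE_l10358 _))
                (CovZ.leaf K2_ok TE_l10359 _))))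
             (CovZ.n1 (2560, 29040) (by decide +kernel)
              (CovZ.n2 (2600, 29080) (by decide +kernel)
               (CovZ.n2 (2600, 29040) (by decide +kernel)
                (CovZ.leaf K2_ok TE_l10360 _)
                (CovZ.n1 (2620, 29060) (by decide +kernel)
                 (CovZ.leaf K2_ok TE_l10361 _)
                 (CovZ.leaf K2_ok TE_l10362 _)))
               (CovZ.n1 (2560, 29080) (by decide +kernel)
                (CovZ.leaf K2_ok TE_l10363 _)
                (CovZ.leaf K2_ok TE_l10364 _)))
              (CovZ.n1 (2600, 29000) (by decide +kernel)
               (CovZ.n2 (2560, 29000) (by decide +kernel)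
                (CovZ.leaf K2_ok TE_l10365 _)
                (CovZ.leaf K2_ok TE_l10366 _))
               (CovZ.n1 (2600, 29040) (by decide +kernel)
                (CovZ.leaf K2_ok TE_l10367 _)
                (CovZ.leaf K2_ok TE_l10368 _)))))
            (CovZ.n1 (2640, 28880) (by decide +kernel)
             (CovZ.n2 (2560, 28880) (by decide +kernel)
              (CovZ.n2 (2600, 28920) (by decide +kernel)
               (CovZ.n2 (2600, 28880) (by decide +kernel)
                (CovZ.leaf K2_ok TE_l10369 _)
                (CovZ.n1 (2620, 28900) (by decide +kernel)
                 (CovZ.leaf K2_ok TE_l10370 _)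
                 (CovZ.leaf K2_ok TE_l10371 _)))
               (CovZ.n1 (2560, 28920) (by decide +kernel)
                (CovZ.leaf K2_ok TE_l10372 _)
                (CovZ.leaf K2_ok TE_l10373 _)))
              (CovZ.n1 (2600, 28840) (by decide +kernel)
               (CovZ.n2 (2560, 28840) (by decide +kernel)
                (CovZ.leaf K2_ok TE_l10374 _)
                (CovZ.leaf K2_ok TE_l10375 _))
               (CovZ.n1 (2600, 28880) (by decide +kernel)
                (CovZ.leaf K2_ok TE_l10376 _)
                (CovZ.leaf K2_ok TE_l10377 _))))
             (CovZ.n1 (2640, 28960) (by decide +kernel)
              (CovZ.n2 (2680, 28920) (by decide +kernel)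
               (CovZ.n2 (2640, 28920) (by decide +kernel)
                (CovZ.n2 (2660, 28940) (by decide +kernel)
                 (CovZ.leaf K2_ok TE_l10378 _)
                 (CovZ.leaf K2_ok TE_l10379 _))
                (CovZ.n1 (2660, 28900) (by decide +kernel)
                 (CovZ.leaf K2_ok TE_l10380 _)
                 (CovZ.leaf K2_ok TE_l10381 _)))
               (CovZ.n1 (2680, 28960) (by decide +kernel)
                (CovZ.n2 (2700, 28940) (by decide +kernel)
                 (CovZ.leaf K2_ok TE_l10382 _)
                 (CovZ.leaf K2_ok TE_l10383 _))
                (CovZ.n1 (2660, 28940) (by decide +kernel)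
                 (CovZ.leaf K2_ok TE_l10384 _)
                 (CovZ.leaf K2_ok TE_l10385 _))))
              (CovZ.n1 (2600, 28920) (by decide +kernel)
               (CovZ.n2 (2600, 28960) (by decide +kernel)
                (CovZ.leaf K2_ok TE_l10386 _)
                (CovZ.leaf K2_ok TE_l10387 _))
               (CovZ.n1 (2640, 28920) (by decide +kernel)
                (CovZ.n2 (2620, 28900) (by decide +kernel)
                 (CovZ.leaf K2_ok TE_l10388 _)
                 (CovZ.leaf K2_ok TE_l10389 _))
                (CovZ.leaf K2_ok TE_l10390 _))))))
           (CovZ.n1 (2720, 29120) (by decide +kernel)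
            (CovZ.subM 3226451965439913203276891981173844268316821229772335199813632 (by decide +kernel)
             (CovZ.n2 (2800, 29040) (by decide +kernel)
              (CovZ.n2 (2720, 29040) (by decide +kernel)
               (CovZ.n2 (2760, 29080) (by decide +kernel)
                (CovZ.n2 (2760, 29040) (by decide +kernel)
                 (CovZ.n2 (2740, 29060) (by decide +kernel)
                  (CovZ.leaf K2_ok TE_l10391 _)
                  (CovZ.leaf K2_ok TE_l10392 _))
                 (CovZ.n1 (2780, 29060) (by decide +kernel)
                  (CovZ.n2 (2780, 29040) (by decide +kernel)
                   (CovZ.leaf K2_ok TE_l10393 _)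
                   (CovZ.leaf K2_ok TE_l10394 _))
                  (CovZ.leaf K2_ok TE_l10395 _)))
                (CovZ.n1 (2720, 29080) (by decide +kernel)
                 (CovZ.n2 (2740, 29100) (by decide +kernel)
                  (CovZ.leaf K2_ok TE_l10396 _)
                  (CovZ.leaf K2_ok TE_l10397 _))
                 (CovZ.n1 (2740, 29060) (by decide +kernel)
                  (CovZ.leaf K2_ok TE_l10398 _)
                  (CovZ.leaf K2_ok TE_l10399 _))))
               (CovZ.n1 (2760, 29000) (by decide +kernel)
                (CovZ.n2 (2720, 29000) (by decide +kernel)
                 (CovZ.n2 (2740, 29020) (by decide +kernel)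
                  (CovZ.leaf K2_ok TE_l10400 _)
                  (CovZ.leaf K2_ok TE_l10401 _))
                 (CovZ.n1 (2740, 28980) (by decide +kernel)
                  (CovZ.leaf K2_ok TE_l10402 _)
                  (CovZ.leaf K2_ok TE_l10403 _)))
                (CovZ.n1 (2760, 29040) (by decide +kernel)
                 (CovZ.n2 (2780, 29020) (by decide +kernel)
                  (CovZ.n2 (2760, 29020) (by decide +kernel)
                   (CovZ.leaf K2_ok TE_l10404 _)
                   (CovZ.leaf K2_ok TE_l10405 _))
                  (CovZ.n1 (2780, 29040) (by decide +kernel)
                   (CovZ.leaf K2_ok TE_l10406 _)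
                   (CovZ.leaf K2_ok TE_l10407 _)))
                 (CovZ.n1 (2740, 29020) (by decide +kernel)
                  (CovZ.leaf K2_ok TE_l10408 _)
                  (CovZ.leaf K2_ok TE_l10409 _)))))
              (CovZ.n1 (2800, 29120) (by decide +kernel)
               (CovZ.subM 2993155353253694535418283306707204783652445853057024 (by decide +kernel)
                (CovZ.n2 (2840, 29080) (by decide +kernel)
                 (CovZ.n2 (2800, 29080) (by decide +kernel)
                  (CovZ.n2 (2820, 29100) (by decide +kernel)
                   (CovZ.n2 (2820, 29080) (by decide +kernel)
                    (CovZ.leaf K2_ok TE_l10410 _)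
                    (CovZ.n1 (2830, 29090) (by decide +kernel)
                     (CovZ.leaf K2_ok TE_l10411 _)
                     (CovZ.leaf K2_ok TE_l10412 _)))
                   (CovZ.n1 (2800, 29100) (by decide +kernel)
                    (CovZ.leaf K2_ok TE_l10413 _)
                    (CovZ.leaf K2_ok TE_l10414 _)))
                  (CovZ.n1 (2820, 29060) (by decide +kernel)
                   (CovZ.n2 (2800, 29060) (by decide +kernel)
                    (CovZ.leaf K2_ok TE_l10415 _)
                    (CovZ.leaf K2_ok TE_l10416 _))
                   (CovZ.n1 (2820, 29080) (by decide +kernel)
                    (CovZ.leaf K2_ok TE_l10417 _)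
                    (CovZ.leaf K2_ok TE_l10418 _))))
                 (CovZ.n1 (2840, 29120) (by decide +kernel)
                  (CovZ.subM 5317074242418911737218476994147123200 (by decide +kernel)
                   (CovZ.n2 (2860, 29100) (by decide +kernel)
                    (CovZ.n2 (2840, 29100) (by decide +kernel)
                     (CovZ.n2 (2850, 29110) (by decide +kernel)
                      (CovZ.leaf K2_ok TE_l10419 _)
                      (CovZ.leaf K2_ok TE_l10420 _))
                     (CovZ.leaf K2_ok TE_l10421 _))
                    (CovZ.n1 (2860, 29120) (by decide +kernel)
                     (CovZ.n2 (2870, 29110) (by decide +kernel)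
                      (CovZ.leaf K2_ok TE_l10422 _)
                      (CovZ.leaf K2_ok TE_l10423 _))
                     (CovZ.n1 (2850, 29110) (by decide +kernel)
                      (CovZ.leaf K2_ok TE_l10424 _)
                      (CovZ.leaf K2_ok TE_l10425 _)))))
                  (CovZ.n1 (2820, 29100) (by decide +kernel)
                   (CovZ.n2 (2820, 29120) (by decide +kernel)
                    (CovZ.leaf K2_ok TE_l10426 _)
                    (CovZ.leaf K2_ok TE_l10427 _))
                   (CovZ.n1 (2840, 29100) (by decide +kernel)
                    (CovZ.n2 (2830, 29090) (by decide +kernel)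
                     (CovZ.leaf K2_ok TE_l10428 _)
                     (CovZ.leaf K2_ok TE_l10429 _))
                    (CovZ.leaf K2_ok TE_l10430 _))))))
               (CovZ.n1 (2760, 29080) (by decide +kernel)
                (CovZ.n2 (2760, 29120) (by decide +kernel)
                 (CovZ.n2 (2780, 29100) (by decide +kernel)
                  (CovZ.n2 (2760, 29100) (by decide +kernel)
                   (CovZ.leaf K2_ok TE_l10431 _)
                   (CovZ.leaf K2_ok TE_l10432 _))
                  (CovZ.leaf K2_ok TE_l10433 _))
                 (CovZ.n1 (2740, 29100) (by decide +kernel)
                  (CovZ.leaf K2_ok TE_l10434 _)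
                  (CovZ.leaf K2_ok TE_l10435 _)))
                (CovZ.n1 (2800, 29080) (by decide +kernel)
                 (CovZ.n2 (2780, 29060) (by decide +kernel)
                  (CovZ.leaf K2_ok TE_l10436 _)
                  (CovZ.n1 (2800, 29060) (by decide +kernel)
                   (CovZ.leaf K2_ok TE_l10437 _)
                   (CovZ.leaf K2_ok TE_l10438 _)))
                 (CovZ.n1 (2780, 29100) (by decide +kernel)
                  (CovZ.n2 (2800, 29100) (by decide +kernel)
                   (CovZ.leaf K2_ok TE_l10439 _)
                   (CovZ.leaf K2_ok TE_l10440 _))
                  (CovZ.leaf K2_ok TE_l10441 _)))))))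
            (CovZ.n1 (2640, 29040) (by decide +kernel)
             (CovZ.n2 (2640, 29120) (by decide +kernel)
              (CovZ.n2 (2680, 29080) (by decide +kernel)
               (CovZ.n2 (2640, 29080) (by decide +kernel)
                (CovZ.n2 (2660, 29100) (by decide +kernel)
                 (CovZ.leaf K2_ok TE_l10442 _)
                 (CovZ.leaf K2_ok TE_l10443 _))
                (CovZ.leaf K2_ok TE_l10444 _))
               (CovZ.n1 (2680, 29120) (by decide +kernel)
                (CovZ.leaf K2_ok TE_l10445 _)
                (CovZ.n1 (2660, 29100) (by decide +kernel)
                 (CovZ.leaf K2_ok TE_l10446 _)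
                 (CovZ.leaf K2_ok TE_l10447 _))))
              (CovZ.n1 (2600, 29080) (by decide +kernel)
               (CovZ.n2 (2600, 29120) (by decide +kernel)
                (CovZ.leaf K2_ok TE_l10448 _)
                (CovZ.leaf K2_ok TE_l10449 _))
               (CovZ.n1 (2640, 29080) (by decide +kernel)
                (CovZ.leaf K2_ok TE_l10450 _)
                (CovZ.leaf K2_ok TE_l10451 _))))
             (CovZ.n1 (2720, 29040) (by decide +kernel)
              (CovZ.n2 (2680, 29000) (by decide +kernel)
               (CovZ.n2 (2680, 29040) (by decide +kernel)
                (CovZ.leaf K2_ok TE_l10452 _)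
                (CovZ.n1 (2660, 29020) (by decide +kernel)
                 (CovZ.leaf K2_ok TE_l10453 _)
                 (CovZ.leaf K2_ok TE_l10454 _)))
               (CovZ.n1 (2720, 29000) (by decide +kernel)
                (CovZ.n2 (2700, 28980) (by decide +kernel)
                 (CovZ.leaf K2_ok TE_l10455 _)
                 (CovZ.leaf K2_ok TE_l10456 _))
                (CovZ.leaf K2_ok TE_l10457 _)))
              (CovZ.n1 (2680, 29080) (by decide +kernel)
               (CovZ.n2 (2720, 29080) (by decide +kernel)
                (CovZ.n2 (2700, 29060) (by decide +kernel)
                 (CovZ.leaf K2_ok TE_l10458 _)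
                 (CovZ.leaf K2_ok TE_l10459 _))
                (CovZ.leaf K2_ok TE_l10460 _))
               (CovZ.n1 (2680, 29040) (by decide +kernel)
                (CovZ.leaf K2_ok TE_l10461 _)
                (CovZ.n1 (2700, 29060) (by decide +kernel)
                 (CovZ.leaf K2_ok TE_l10462 _)
                 (CovZ.leaf K2_ok TE_l10463 _))))))))

theorem TE_u172 : CovZ TE_M (toL (selN TE_LN 20275895154522603249399748776800609773224077566743074490548226)) [0, 7, 6, 1] (2880, 28480) (2720, 28640) (2560, 28480) :=
    (CovZ.subM 6945057242098191444088235467972243214375112610313928704 (by decide +kernel)
            (CovZ.n2 (2720, 28480) (by decide +kernel)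
             (CovZ.n2 (2640, 28560) (by decide +kernel)
              (CovZ.n2 (2720, 28560) (by decide +kernel)
               (CovZ.n2 (2680, 28520) (by decide +kernel)
                (CovZ.n2 (2680, 28560) (by decide +kernel)
                 (CovZ.subM 38686806819288851001901056 (by decide +kernel)
                  (CovZ.n2 (2700, 28540) (by decide +kernel)
                   (CovZ.n2 (2680, 28540) (by decide +kernel)
                    (CovZ.n2 (2690, 28550) (by decide +kernel)
                     (CovZ.leaf K2_ok TE_l10464 _)
                     (CovZ.leaf K2_ok TE_l10465 _))
                    (CovZ.leaf K2_ok TE_l10466 _))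
                   (CovZ.n1 (2700, 28560) (by decide +kernel)
                    (CovZ.badM (by decide +kernel))
                    (CovZ.n1 (2690, 28550) (by decide +kernel)
                     (CovZ.leaf K2_ok TE_l10467 _)
                     (CovZ.badM (by decide +kernel))))))
                 (CovZ.n1 (2660, 28540) (by decide +kernel)
                  (CovZ.n2 (2660, 28560) (by decide +kernel)
                   (CovZ.leaf K2_ok TE_l10468 _)
                   (CovZ.leaf K2_ok TE_l10469 _))
                  (CovZ.n1 (2680, 28540) (by decide +kernel)
                   (CovZ.n2 (2670, 28530) (by decide +kernel)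
                    (CovZ.leaf K2_ok TE_l10470 _)
                    (CovZ.leaf K2_ok TE_l10471 _))
                   (CovZ.leaf K2_ok TE_l10472 _))))
                (CovZ.subM 38685626227668133590597632 (by decide +kernel)
                 (CovZ.n1 (2720, 28520) (by decide +kernel)
                  (CovZ.badM (by decide +kernel))
                  (CovZ.n1 (2700, 28540) (by decide +kernel)
                   (CovZ.badM (by decide +kernel))
                   (CovZ.n1 (2700, 28520) (by decide +kernel)
                    (CovZ.leaf K2_ok TE_l10474 _)
                    (CovZ.n1 (2710, 28530) (by decide +kernel)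
                     (CovZ.badM (by decide +kernel))
                     (CovZ.leaf K2_ok TE_l18189 _)))))))
               (CovZ.n1 (2680, 28600) (by decide +kernel)
                (CovZ.subM 48825846699961693727090174160162353351587072934150144 (by decide +kernel)
                 (CovZ.n2 (2720, 28600) (by decide +kernel)
                  (CovZ.n2 (2700, 28580) (by decide +kernel)
                   (CovZ.n2 (2700, 28600) (by decide +kernel)
                    (CovZ.badM (by decide +kernel))
                    (CovZ.n1 (2690, 28590) (by decide +kernel)
                     (CovZ.leaf K2_ok TE_l10477 _)
                     (CovZ.leaf K2_ok TE_l10478 _)))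
                   (CovZ.badM (by decide +kernel)))
                  (CovZ.n1 (2700, 28620) (by decide +kernel)
                   (CovZ.n2 (2720, 28620) (by decide +kernel)
                    (CovZ.n2 (2710, 28610) (by decide +kernel)
                     (CovZ.leaf K2_ok TE_l10479 _)
                     (CovZ.badM (by decide +kernel)))
                    (CovZ.leaf K2_ok TE_l10480 _))
                   (CovZ.n1 (2700, 28600) (by decide +kernel)
                    (CovZ.leaf K2_ok TE_l10481 _)
                    (CovZ.n1 (2710, 28610) (by decide +kernel)
                     (CovZ.badM (by decide +kernel))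
                     (CovZ.leaf K2_ok TE_l10483 _))))))
                (CovZ.n1 (2680, 28560) (by decide +kernel)
                 (CovZ.n2 (2660, 28580) (by decide +kernel)
                  (CovZ.n2 (2680, 28580) (by decide +kernel)
                   (CovZ.n2 (2670, 28570) (by decide +kernel)
                    (CovZ.leaf K2_ok TE_l10484 _)
                    (CovZ.leaf K2_ok TE_l10485 _))
                   (CovZ.leaf K2_ok TE_l10486 _))
                  (CovZ.n1 (2660, 28560) (by decide +kernel)
                   (CovZ.leaf K2_ok TE_l10487 _)
                   (CovZ.leaf K2_ok TE_l10488 _)))
                 (CovZ.subM 48825846699961693727090174160157630985104203288936448 (by decide +kernel)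
                  (CovZ.n1 (2700, 28580) (by decide +kernel)
                   (CovZ.n2 (2700, 28560) (by decide +kernel)
                    (CovZ.leaf K2_ok TE_l10489 _)
                    (CovZ.badM (by decide +kernel)))
                   (CovZ.n1 (2680, 28580) (by decide +kernel)
                    (CovZ.n2 (2690, 28590) (by decide +kernel)
                     (CovZ.leaf K2_ok TE_l10490 _)
                     (CovZ.leaf K2_ok TE_l10491 _))
                    (CovZ.leaf K2_ok TE_l10492 _)))))))
              (CovZ.n1 (2640, 28480) (by decide +kernel)
               (CovZ.n2 (2600, 28520) (by decide +kernel)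
                (CovZ.n2 (2640, 28520) (by decide +kernel)
                 (CovZ.n2 (2620, 28500) (by decide +kernel)
                  (CovZ.leaf K2_ok TE_l10493 _)
                  (CovZ.leaf K2_ok TE_l10494 _))
                 (CovZ.n1 (2620, 28540) (by decide +kernel)
                  (CovZ.leaf K2_ok TE_l10495 _)
                  (CovZ.leaf K2_ok TE_l10496 _)))
                (CovZ.n1 (2600, 28480) (by decide +kernel)
                 (CovZ.n2 (2580, 28500) (by decide +kernel)
                  (CovZ.leaf K2_ok TE_l10497 _)
                  (CovZ.leaf K2_ok TE_l10498 _))
                 (CovZ.n1 (2620, 28500) (by decide +kernel)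
                  (CovZ.n2 (2620, 28480) (by decide +kernel)
                   (CovZ.leaf K2_ok TE_l10499 _)
                   (CovZ.leaf K2_ok TE_l10500 _))
                  (CovZ.leaf K2_ok TE_l10501 _))))
               (CovZ.n1 (2680, 28520) (by decide +kernel)
                (CovZ.subM 79228163694855958311022362624 (by decide +kernel)
                 (CovZ.n2 (2680, 28480) (by decide +kernel)
                  (CovZ.n2 (2660, 28500) (by decide +kernel)
                   (CovZ.n2 (2680, 28500) (by decide +kernel)
                    (CovZ.n2 (2670, 28490) (by decide +kernel)
                     (CovZ.leaf K2_ok TE_l10502 _)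
                     (CovZ.leaf K2_ok TE_l18190 _))
                    (CovZ.leaf K2_ok TE_l10503 _))
                   (CovZ.n1 (2660, 28480) (by decide +kernel)
                    (CovZ.leaf K2_ok TE_l10504 _)
                    (CovZ.n1 (2670, 28490) (by decide +kernel)
                     (CovZ.leaf K2_ok TE_l10505 _)
                     (CovZ.leaf K2_ok TE_l10506 _))))
                  (CovZ.badM (by decide +kernel))))
                (CovZ.n1 (2640, 28520) (by decide +kernel)
                 (CovZ.n2 (2660, 28540) (by decide +kernel)
                  (CovZ.n2 (2660, 28520) (by decide +kernel)
                   (CovZ.leaf K2_ok TE_l10510 _)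
                   (CovZ.n1 (2670, 28530) (by decide +kernel)
                    (CovZ.leaf K2_ok TE_l10511 _)
                    (CovZ.leaf K2_ok TE_l10512 _)))
                  (CovZ.leaf K2_ok TE_l10513 _))
                 (CovZ.subM 48825846699961693727090252189075176933702594136637440 (by decide +kernel)
                  (CovZ.n1 (2660, 28500) (by decide +kernel)
                   (CovZ.n2 (2640, 28500) (by decide +kernel)
                    (CovZ.leaf K2_ok TE_l10514 _)
                    (CovZ.leaf K2_ok TE_l10515 _))
                   (CovZ.n1 (2660, 28520) (by decide +kernel)
                    (CovZ.leaf K2_ok TE_l10516 _)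
                    (CovZ.n1 (2650, 28510) (by decide +kernel)
                     (CovZ.leaf K2_ok TE_l10517 _)
                     (CovZ.leaf K2_ok TE_l10518 _)))))))))
             (CovZ.subM 6129982163463555433433388109877862399988004897224130560 (by decide +kernel)
              (CovZ.n1 (2800, 28560) (by decide +kernel)
               (CovZ.badM (by decide +kernel))
               (CovZ.n1 (2720, 28560) (by decide +kernel)
                (CovZ.n2 (2760, 28600) (by decide +kernel)
                 (CovZ.badM (by decide +kernel))
                 (CovZ.n1 (2720, 28600) (by decide +kernel)
                  (CovZ.n2 (2740, 28620) (by decide +kernel)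
                   (CovZ.badM (by decide +kernel))
                   (CovZ.n1 (2720, 28620) (by decide +kernel)
                    (CovZ.badM (by decide +kernel))
                    (CovZ.badM (by decide +kernel))))
                  (CovZ.badM (by decide +kernel))))
                (CovZ.n1 (2760, 28520) (by decide +kernel)
                 (CovZ.n2 (2720, 28520) (by decide +kernel)
                  (CovZ.badM (by decide +kernel))
                  (CovZ.badM (by decide +kernel)))
                 (CovZ.badM (by decide +kernel))))))))

theorem TE_u173 : CovZ TE_M (toL (selN TE_LN 20275895154522603249399748776800609773224077566743074490548226)) [0, 7, 6, 1] (2720, 28640) (2560, 28800) (2560, 28480) :=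
    (CovZ.n1 (2560, 28640) (by decide +kernel)
            (CovZ.n2 (2640, 28720) (by decide +kernel)
             (CovZ.n2 (2640, 28640) (by decide +kernel)
              (CovZ.n2 (2600, 28680) (by decide +kernel)
               (CovZ.n2 (2640, 28680) (by decide +kernel)
                (CovZ.n2 (2620, 28660) (by decide +kernel)
                 (CovZ.leaf K2_ok TE_l10519 _)
                 (CovZ.leaf K2_ok TE_l10520 _))
                (CovZ.leaf K2_ok TE_l10521 _))
               (CovZ.n1 (2600, 28640) (by decide +kernel)
                (CovZ.leaf K2_ok TE_l10522 _)
                (CovZ.n1 (2620, 28660) (by decide +kernel)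
                 (CovZ.leaf K2_ok TE_l10523 _)
                 (CovZ.leaf K2_ok TE_l10524 _))))
              (CovZ.n1 (2680, 28680) (by decide +kernel)
               (CovZ.n2 (2680, 28640) (by decide +kernel)
                (CovZ.n2 (2660, 28660) (by decide +kernel)
                 (CovZ.leaf K2_ok TE_l10525 _)
                 (CovZ.n1 (2660, 28640) (by decide +kernel)
                  (CovZ.leaf K2_ok TE_l10526 _)
                  (CovZ.leaf K2_ok TE_l10527 _)))
                (CovZ.subM 13848084739651241737722596327518019370726090754711062210150400 (by decide +kernel)
                 (CovZ.n1 (2700, 28660) (by decide +kernel)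
                  (CovZ.n2 (2700, 28640) (by decide +kernel)
                   (CovZ.leaf K2_ok TE_l10528 _)
                   (CovZ.n1 (2710, 28650) (by decide +kernel)
                    (CovZ.leaf K2_ok TE_l10529 _)
                    (CovZ.leaf K2_ok TE_l10530 _)))
                  (CovZ.n1 (2680, 28660) (by decide +kernel)
                   (CovZ.n2 (2690, 28670) (by decide +kernel)
                    (CovZ.leaf K2_ok TE_l10531 _)
                    (CovZ.leaf K2_ok TE_l10532 _))
                   (CovZ.leaf K2_ok TE_l10533 _)))))
               (CovZ.n1 (2640, 28680) (by decide +kernel)
                (CovZ.n2 (2660, 28700) (by decide +kernel)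
                 (CovZ.leaf K2_ok TE_l10534 _)
                 (CovZ.leaf K2_ok TE_l10535 _))
                (CovZ.n1 (2660, 28660) (by decide +kernel)
                 (CovZ.leaf K2_ok TE_l10536 _)
                 (CovZ.leaf K2_ok TE_l10537 _)))))
             (CovZ.n1 (2560, 28720) (by decide +kernel)
              (CovZ.n2 (2600, 28760) (by decide +kernel)
               (CovZ.n2 (2600, 28720) (by decide +kernel)
                (CovZ.leaf K2_ok TE_l10538 _)
                (CovZ.n1 (2620, 28740) (by decide +kernel)
                 (CovZ.leaf K2_ok TE_l10539 _)
                 (CovZ.leaf K2_ok TE_l10540 _)))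
               (CovZ.n1 (2560, 28760) (by decide +kernel)
                (CovZ.n2 (2580, 28780) (by decide +kernel)
                 (CovZ.leaf K2_ok TE_l10541 _)
                 (CovZ.leaf K2_ok TE_l10542 _))
                (CovZ.leaf K2_ok TE_l10543 _)))
              (CovZ.n1 (2600, 28680) (by decide +kernel)
               (CovZ.n2 (2560, 28680) (by decide +kernel)
                (CovZ.n2 (2580, 28700) (by decide +kernel)
                 (CovZ.leaf K2_ok TE_l10544 _)
                 (CovZ.leaf K2_ok TE_l10545 _))
                (CovZ.leaf K2_ok TE_l10546 _))
               (CovZ.n1 (2600, 28720) (by decide +kernel)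
                (CovZ.leaf K2_ok TE_l10547 _)
                (CovZ.n1 (2580, 28700) (by decide +kernel)
                 (CovZ.leaf K2_ok TE_l10548 _)
                 (CovZ.leaf K2_ok TE_l10549 _))))))
            (CovZ.n1 (2640, 28560) (by decide +kernel)
             (CovZ.n2 (2560, 28560) (by decide +kernel)
              (CovZ.n2 (2600, 28600) (by decide +kernel)
               (CovZ.n2 (2600, 28560) (by decide +kernel)
                (CovZ.leaf K2_ok TE_l10550 _)
                (CovZ.n1 (2620, 28580) (by decide +kernel)
                 (CovZ.leaf K2_ok TE_l10551 _)
                 (CovZ.leaf K2_ok TE_l10552 _)))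
               (CovZ.n1 (2560, 28600) (by decide +kernel)
                (CovZ.n2 (2580, 28620) (by decide +kernel)
                 (CovZ.leaf K2_ok TE_l10553 _)
                 (CovZ.leaf K2_ok TE_l10554 _))
                (CovZ.leaf K2_ok TE_l10555 _)))
              (CovZ.subM 188314441823330420925437190261031357864569732006543754264576 (by decide +kernel)
               (CovZ.n1 (2600, 28520) (by decide +kernel)
                (CovZ.n2 (2560, 28520) (by decide +kernel)
                 (CovZ.n2 (2580, 28540) (by decide +kernel)
                  (CovZ.leaf K2_ok TE_l10556 _)
                  (CovZ.leaf K2_ok TE_l10557 _))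
                 (CovZ.n1 (2580, 28500) (by decide +kernel)
                  (CovZ.leaf K2_ok TE_l10558 _)
                  (CovZ.leaf K2_ok TE_l10559 _)))
                (CovZ.n1 (2600, 28560) (by decide +kernel)
                 (CovZ.n2 (2620, 28540) (by decide +kernel)
                  (CovZ.leaf K2_ok TE_l10560 _)
                  (CovZ.leaf K2_ok TE_l10561 _))
                 (CovZ.n1 (2580, 28540) (by decide +kernel)
                  (CovZ.leaf K2_ok TE_l10562 _)
                  (CovZ.leaf K2_ok TE_l10563 _))))))
             (CovZ.n1 (2640, 28640) (by decide +kernel)
              (CovZ.n2 (2680, 28600) (by decide +kernel)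
               (CovZ.n2 (2640, 28600) (by decide +kernel)
                (CovZ.n2 (2660, 28620) (by decide +kernel)
                 (CovZ.n2 (2660, 28600) (by decide +kernel)
                  (CovZ.leaf K2_ok TE_l10564 _)
                  (CovZ.leaf K2_ok TE_l10565 _))
                 (CovZ.leaf K2_ok TE_l10566 _))
                (CovZ.subM 815075810812702368770727967490472697901217817540165632 (by decide +kernel)
                 (CovZ.n1 (2660, 28580) (by decide +kernel)
                  (CovZ.n2 (2640, 28580) (by decide +kernel)
                   (CovZ.leaf K2_ok TE_l10567 _)
                   (CovZ.leaf K2_ok TE_l10568 _))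
                  (CovZ.n1 (2660, 28600) (by decide +kernel)
                   (CovZ.leaf K2_ok TE_l10569 _)
                   (CovZ.leaf K2_ok TE_l10570 _)))))
               (CovZ.n1 (2680, 28640) (by decide +kernel)
                (CovZ.subM 815075809385454676064443489230640736142658196161429504 (by decide +kernel)
                 (CovZ.n2 (2700, 28620) (by decide +kernel)
                  (CovZ.n2 (2680, 28620) (by decide +kernel)
                   (CovZ.n2 (2690, 28630) (by decide +kernel)
                    (CovZ.leaf K2_ok TE_l10571 _)
                    (CovZ.leaf K2_ok TE_l10572 _))
                   (CovZ.leaf K2_ok TE_l10573 _))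
                  (CovZ.n1 (2700, 28640) (by decide +kernel)
                   (CovZ.leaf K2_ok TE_l10574 _)
                   (CovZ.n1 (2690, 28630) (by decide +kernel)
                    (CovZ.leaf K2_ok TE_l10575 _)
                    (CovZ.leaf K2_ok TE_l10576 _)))))
                (CovZ.n1 (2660, 28620) (by decide +kernel)
                 (CovZ.leaf K2_ok TE_l10577 _)
                 (CovZ.n1 (2680, 28620) (by decide +kernel)
                  (CovZ.n2 (2670, 28610) (by decide +kernel)
                   (CovZ.leaf K2_ok TE_l10578 _)
                   (CovZ.leaf K2_ok TE_l10579 _))
                  (CovZ.leaf K2_ok TE_l10580 _)))))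
              (CovZ.n1 (2600, 28600) (by decide +kernel)
               (CovZ.n2 (2600, 28640) (by decide +kernel)
                (CovZ.n2 (2620, 28620) (by decide +kernel)
                 (CovZ.leaf K2_ok TE_l10581 _)
                 (CovZ.leaf K2_ok TE_l10582 _))
                (CovZ.n1 (2580, 28620) (by decide +kernel)
                 (CovZ.leaf K2_ok TE_l10583 _)
                 (CovZ.leaf K2_ok TE_l10584 _)))
               (CovZ.n1 (2640, 28600) (by decide +kernel)
                (CovZ.n2 (2620, 28580) (by decide +kernel)
                 (CovZ.leaf K2_ok TE_l10585 _)
                 (CovZ.leaf K2_ok TE_l10586 _))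
                (CovZ.n1 (2620, 28620) (by decide +kernel)
                 (CovZ.leaf K2_ok TE_l10587 _)
                 (CovZ.leaf K2_ok TE_l10588 _)))))))

theorem TE_u174 : CovZ TE_M (toL (selN TE_LN 203104510065336325743557904224211366097846861450505625984)) [0, 7, 6, 1] (2560, 28480) (2560, 28320) (2720, 28320) :=
    (CovZ.n2 (2640, 28400) (by decide +kernel)
             (CovZ.subM 23384026197294530092527247549754645179256822300672 (by decide +kernel)
              (CovZ.n2 (2640, 28320) (by decide +kernel)
               (CovZ.n2 (2600, 28360) (by decide +kernel)
                (CovZ.n2 (2640, 28360) (by decide +kernel)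
                 (CovZ.n2 (2620, 28340) (by decide +kernel)
                  (CovZ.n2 (2620, 28360) (by decide +kernel)
                   (CovZ.leaf K2_ok TE_l10589 _)
                   (CovZ.n1 (2610, 28350) (by decide +kernel)
                    (CovZ.leaf K2_ok TE_l10590 _)
                    (CovZ.leaf K2_ok TE_l10591 _)))
                  (CovZ.n1 (2640, 28340) (by decide +kernel)
                   (CovZ.n2 (2630, 28330) (by decide +kernel)
                    (CovZ.leaf K2_ok TE_l10592 _)
                    (CovZ.leaf K2_ok TE_l10593 _))
                   (CovZ.leaf K2_ok TE_l10594 _)))
                 (CovZ.n1 (2620, 28380) (by decide +kernel)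
                  (CovZ.n2 (2640, 28380) (by decide +kernel)
                   (CovZ.n2 (2630, 28370) (by decide +kernel)
                    (CovZ.leaf K2_ok TE_l10595 _)
                    (CovZ.leaf K2_ok TE_l10596 _))
                   (CovZ.leaf K2_ok TE_l10597 _))
                  (CovZ.n1 (2620, 28360) (by decide +kernel)
                   (CovZ.leaf K2_ok TE_l10598 _)
                   (CovZ.n1 (2630, 28370) (by decide +kernel)
                    (CovZ.leaf K2_ok TE_l10599 _)
                    (CovZ.leaf K2_ok TE_l10600 _)))))
                (CovZ.n1 (2600, 28320) (by decide +kernel)
                 (CovZ.n2 (2580, 28340) (by decide +kernel)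
                  (CovZ.n2 (2600, 28340) (by decide +kernel)
                   (CovZ.leaf K2_ok TE_l10601 _)
                   (CovZ.leaf K2_ok TE_l10602 _))
                  (CovZ.n1 (2580, 28320) (by decide +kernel)
                   (CovZ.leaf K2_ok TE_l10603 _)
                   (CovZ.leaf K2_ok TE_l10604 _)))
                 (CovZ.n1 (2620, 28340) (by decide +kernel)
                  (CovZ.n2 (2620, 28320) (by decide +kernel)
                   (CovZ.leaf K2_ok TE_l10605 _)
                   (CovZ.n1 (2630, 28330) (by decide +kernel)
                    (CovZ.leaf K2_ok TE_l10606 _)
                    (CovZ.leaf K2_ok TE_l10607 _)))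
                  (CovZ.n1 (2600, 28340) (by decide +kernel)
                   (CovZ.n2 (2610, 28350) (by decide +kernel)
                    (CovZ.leaf K2_ok TE_l10608 _)
                    (CovZ.leaf K2_ok TE_l10609 _))
                   (CovZ.leaf K2_ok TE_l10610 _)))))
               (CovZ.subM 67108864 (by decide +kernel)
                (CovZ.n1 (2680, 28360) (by decide +kernel)
                 (CovZ.badM (by decide +kernel))
                 (CovZ.n1 (2640, 28360) (by decide +kernel)
                  (CovZ.n2 (2660, 28380) (by decide +kernel)
                   (CovZ.n2 (2660, 28360) (by decide +kernel)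
                    (CovZ.n2 (2650, 28370) (by decide +kernel)
                     (CovZ.leaf K2_ok TE_l10612 _)
                     (CovZ.leaf K2_ok TE_l10613 _))
                    (CovZ.badM (by decide +kernel)))
                   (CovZ.n1 (2640, 28380) (by decide +kernel)
                    (CovZ.n2 (2650, 28390) (by decide +kernel)
                     (CovZ.leaf K2_ok TE_l10614 _)
                     (CovZ.leaf K2_ok TE_l10615 _))
                    (CovZ.n1 (2650, 28370) (by decide +kernel)
                     (CovZ.leaf K2_ok TE_l10616 _)
                     (CovZ.leaf K2_ok TE_l10617 _))))
                  (CovZ.badM (by decide +kernel)))))))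
             (CovZ.n1 (2560, 28400) (by decide +kernel)
              (CovZ.n2 (2600, 28440) (by decide +kernel)
               (CovZ.subM 48827308201599024754948098993716704374521782666788864 (by decide +kernel)
                (CovZ.n2 (2600, 28400) (by decide +kernel)
                 (CovZ.n2 (2580, 28420) (by decide +kernel)
                  (CovZ.leaf K2_ok TE_l10624 _)
                  (CovZ.leaf K2_ok TE_l10625 _))
                 (CovZ.subM 48638774490372449118143229014629465218863849208283136 (by decide +kernel)
                  (CovZ.n1 (2620, 28420) (by decide +kernel)
                   (CovZ.n2 (2620, 28400) (by decide +kernel)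
                    (CovZ.leaf K2_ok TE_l10626 _)
                    (CovZ.n1 (2630, 28410) (by decide +kernel)
                     (CovZ.leaf K2_ok TE_l10627 _)
                     (CovZ.leaf K2_ok TE_l10628 _)))
                   (CovZ.n1 (2600, 28420) (by decide +kernel)
                    (CovZ.leaf K2_ok TE_l10629 _)
                    (CovZ.leaf K2_ok TE_l10630 _))))))
               (CovZ.n1 (2560, 28440) (by decide +kernel)
                (CovZ.n2 (2580, 28460) (by decide +kernel)
                 (CovZ.leaf K2_ok TE_l10631 _)
                 (CovZ.leaf K2_ok TE_l10632 _))
                (CovZ.n1 (2580, 28420) (by decide +kernel)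
                 (CovZ.leaf K2_ok TE_l10633 _)
                 (CovZ.leaf K2_ok TE_l10634 _))))
              (CovZ.subM 48850692227796319201639278722877650638498684043526144 (by decide +kernel)
               (CovZ.n1 (2600, 28360) (by decide +kernel)
                (CovZ.n2 (2560, 28360) (by decide +kernel)
                 (CovZ.n2 (2580, 28380) (by decide +kernel)
                  (CovZ.leaf K2_ok TE_l10635 _)
                  (CovZ.leaf K2_ok TE_l10636 _))
                 (CovZ.n1 (2580, 28340) (by decide +kernel)
                  (CovZ.leaf K2_ok TE_l10637 _)
                  (CovZ.leaf K2_ok TE_l10638 _)))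
                (CovZ.n1 (2600, 28400) (by decide +kernel)
                 (CovZ.subM 83076749736567867390081605881036800 (by decide +kernel)
                  (CovZ.n2 (2620, 28380) (by decide +kernel)
                   (CovZ.n2 (2600, 28380) (by decide +kernel)
                    (CovZ.leaf K2_ok TE_l10639 _)
                    (CovZ.leaf K2_ok TE_l10640 _))
                   (CovZ.n1 (2620, 28400) (by decide +kernel)
                    (CovZ.leaf K2_ok TE_l10641 _)
                    (CovZ.leaf K2_ok TE_l10642 _))))
                 (CovZ.n1 (2580, 28380) (by decide +kernel)
                  (CovZ.leaf K2_ok TE_l10643 _)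
                  (CovZ.leaf K2_ok TE_l10644 _)))))))

theorem TE_u175 : CovZ TE_M (toL (selN TE_LN 203104510065336325743557904224211366097846861450505625984)) [0, 7, 6, 1] (2560, 28320) (2560, 28160) (2720, 28320) :=
    (CovZ.subM 196159452820383638914058073513914145868819067053956661248 (by decide +kernel)
             (CovZ.n1 (2640, 28240) (by decide +kernel)
              (CovZ.n2 (2560, 28240) (by decide +kernel)
               (CovZ.n2 (2600, 28280) (by decide +kernel)
                (CovZ.subM 23589549865044106212205565147393487333223410171904 (by decide +kernel)
                 (CovZ.n2 (2600, 28240) (by decide +kernel)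
                  (CovZ.n2 (2580, 28260) (by decide +kernel)
                   (CovZ.n2 (2600, 28260) (by decide +kernel)
                    (CovZ.n2 (2590, 28250) (by decide +kernel)
                     (CovZ.leaf K2_ok TE_l10645 _)
                     (CovZ.leaf K2_ok TE_l10646 _))
                    (CovZ.leaf K2_ok TE_l10647 _))
                   (CovZ.n1 (2580, 28240) (by decide +kernel)
                    (CovZ.leaf K2_ok TE_l10648 _)
                    (CovZ.n1 (2590, 28250) (by decide +kernel)
                     (CovZ.leaf K2_ok TE_l10649 _)
                     (CovZ.leaf K2_ok TE_l10650 _))))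
                  (CovZ.n1 (2620, 28260) (by decide +kernel)
                   (CovZ.n2 (2620, 28240) (by decide +kernel)
                    (CovZ.leaf K2_ok TE_l10651 _)
                    (CovZ.n1 (2630, 28250) (by decide +kernel)
                     (CovZ.leaf K2_ok TE_l19646 _)
                     (CovZ.leaf K2_ok TE_l10652 _)))
                   (CovZ.n1 (2600, 28260) (by decide +kernel)
                    (CovZ.n2 (2610, 28270) (by decide +kernel)
                     (CovZ.leaf K2_ok TE_l10653 _)
                     (CovZ.leaf K2_ok TE_l10654 _))
                    (CovZ.leaf K2_ok TE_l10655 _)))))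
                (CovZ.n1 (2560, 28280) (by decide +kernel)
                 (CovZ.n2 (2580, 28300) (by decide +kernel)
                  (CovZ.leaf K2_ok TE_l10656 _)
                  (CovZ.n1 (2560, 28300) (by decide +kernel)
                   (CovZ.leaf K2_ok TE_l10657 _)
                   (CovZ.leaf K2_ok TE_l10658 _)))
                 (CovZ.n1 (2580, 28260) (by decide +kernel)
                  (CovZ.leaf K2_ok TE_l10659 _)
                  (CovZ.n1 (2580, 28280) (by decide +kernel)
                   (CovZ.leaf K2_ok TE_l10660 _)
                   (CovZ.leaf K2_ok TE_l10661 _)))))
               (CovZ.n1 (2600, 28200) (by decide +kernel)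
                (CovZ.n2 (2560, 28200) (by decide +kernel)
                 (CovZ.n2 (2580, 28220) (by decide +kernel)
                  (CovZ.n2 (2580, 28200) (by decide +kernel)
                   (CovZ.leaf K2_ok TE_l10662 _)
                   (CovZ.n1 (2590, 28210) (by decide +kernel)
                    (CovZ.leaf K2_ok TE_l10663 _)
                    (CovZ.leaf K2_ok TE_l10664 _)))
                  (CovZ.n1 (2560, 28220) (by decide +kernel)
                   (CovZ.leaf K2_ok TE_l10665 _)
                   (CovZ.leaf K2_ok TE_l10666 _)))
                 (CovZ.subM 10625324586465291665408 (by decide +kernel)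
                  (CovZ.n1 (2580, 28180) (by decide +kernel)
                   (CovZ.n2 (2560, 28180) (by decide +kernel)
                    (CovZ.n2 (2570, 28190) (by decide +kernel)
                     (CovZ.leaf K2_ok TE_l10667 _)
                     (CovZ.leaf K2_ok TE_l10668 _))
                    (CovZ.leaf K2_ok TE_l10669 _))
                   (CovZ.n1 (2580, 28200) (by decide +kernel)
                    (CovZ.n2 (2590, 28190) (by decide +kernel)
                     (CovZ.leaf K2_ok TE_l10670 _)
                     (CovZ.leaf K2_ok TE_l10671 _))
                    (CovZ.leaf K2_ok TE_l10672 _)))))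
                (CovZ.n1 (2600, 28240) (by decide +kernel)
                 (CovZ.subM 196159452820383638913973333606590088009187187521417641984 (by decide +kernel)
                  (CovZ.n2 (2620, 28220) (by decide +kernel)
                   (CovZ.n2 (2600, 28220) (by decide +kernel)
                    (CovZ.n2 (2610, 28230) (by decide +kernel)
                     (CovZ.leaf K2_ok TE_l10673 _)
                     (CovZ.leaf K2_ok TE_l10674 _))
                    (CovZ.n1 (2610, 28210) (by decide +kernel)
                     (CovZ.leaf K2_ok TE_l10675 _)
                     (CovZ.leaf K2_ok TE_l10676 _)))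
                   (CovZ.n1 (2620, 28240) (by decide +kernel)
                    (CovZ.n2 (2630, 28230) (by decide +kernel)
                     (CovZ.leaf K2_ok TE_l19647 _)
                     (CovZ.leaf K2_ok TE_l19648 _))
                    (CovZ.n1 (2610, 28230) (by decide +kernel)
                     (CovZ.leaf K2_ok TE_l10677 _)
                     (CovZ.leaf K2_ok TE_l10678 _)))))
                 (CovZ.n1 (2580, 28220) (by decide +kernel)
                  (CovZ.n2 (2580, 28240) (by decide +kernel)
                   (CovZ.leaf K2_ok TE_l10679 _)
                   (CovZ.n1 (2570, 28230) (by decide +kernel)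
                    (CovZ.leaf K2_ok TE_l10680 _)
                    (CovZ.leaf K2_ok TE_l10681 _)))
                  (CovZ.subM 196159452820383638913973333606590089189778808238828945408 (by decide +kernel)
                   (CovZ.n1 (2600, 28220) (by decide +kernel)
                    (CovZ.n2 (2590, 28210) (by decide +kernel)
                     (CovZ.leaf K2_ok TE_l10682 _)
                     (CovZ.leaf K2_ok TE_l10683 _))
                    (CovZ.n1 (2590, 28230) (by decide +kernel)
                     (CovZ.leaf K2_ok TE_l10684 _)
                     (CovZ.leaf K2_ok TE_l10685 _))))))))
              (CovZ.n1 (2640, 28320) (by decide +kernel)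
               (CovZ.subM 84415388770398252304468459852398592 (by decide +kernel)
                (CovZ.n2 (2680, 28280) (by decide +kernel)
                 (CovZ.n2 (2640, 28280) (by decide +kernel)
                  (CovZ.n2 (2660, 28300) (by decide +kernel)
                   (CovZ.badM (by decide +kernel))
                   (CovZ.n1 (2640, 28300) (by decide +kernel)
                    (CovZ.n2 (2650, 28310) (by decide +kernel)
                     (CovZ.badM (by decide +kernel))
                     (CovZ.leaf K2_ok TE_l10686 _))
                    (CovZ.badM (by decide +kernel))))
                  (CovZ.n1 (2660, 28260) (by decide +kernel)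
                   (CovZ.n2 (2640, 28260) (by decide +kernel)
                    (CovZ.badM (by decide +kernel))
                    (CovZ.badM (by decide +kernel)))
                   (CovZ.badM (by decide +kernel))))
                 (CovZ.n1 (2680, 28320) (by decide +kernel)
                  (CovZ.badM (by decide +kernel))
                  (CovZ.n1 (2660, 28300) (by decide +kernel)
                   (CovZ.badM (by decide +kernel))
                   (CovZ.badM (by decide +kernel))))))
               (CovZ.n1 (2600, 28280) (by decide +kernel)
                (CovZ.n2 (2600, 28320) (by decide +kernel)
                 (CovZ.subM 83117314555775170721922301061758976 (by decide +kernel)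
                  (CovZ.n2 (2620, 28300) (by decide +kernel)
                   (CovZ.n2 (2600, 28300) (by decide +kernel)
                    (CovZ.n2 (2610, 28310) (by decide +kernel)
                     (CovZ.leaf K2_ok TE_l10688 _)
                     (CovZ.leaf K2_ok TE_l10689 _))
                    (CovZ.n1 (2610, 28290) (by decide +kernel)
                     (CovZ.leaf K2_ok TE_l10690 _)
                     (CovZ.leaf K2_ok TE_l10691 _)))
                   (CovZ.n1 (2620, 28320) (by decide +kernel)
                    (CovZ.n2 (2630, 28310) (by decide +kernel)
                     (CovZ.leaf K2_ok TE_l10692 _)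
                     (CovZ.leaf K2_ok TE_l10693 _))
                    (CovZ.n1 (2610, 28310) (by decide +kernel)
                     (CovZ.leaf K2_ok TE_l10694 _)
                     (CovZ.leaf K2_ok TE_l10695 _)))))
                 (CovZ.n1 (2580, 28300) (by decide +kernel)
                  (CovZ.leaf K2_ok TE_l10696 _)
                  (CovZ.n1 (2600, 28300) (by decide +kernel)
                   (CovZ.n2 (2590, 28290) (by decide +kernel)
                    (CovZ.leaf K2_ok TE_l10697 _)
                    (CovZ.leaf K2_ok TE_l10698 _))
                   (CovZ.leaf K2_ok TE_l10699 _))))
                (CovZ.subM 84415388770408877629054925144064000 (by decide +kernel)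
                 (CovZ.n1 (2640, 28280) (by decide +kernel)
                  (CovZ.n2 (2620, 28260) (by decide +kernel)
                   (CovZ.n2 (2620, 28280) (by decide +kernel)
                    (CovZ.n2 (2630, 28270) (by decide +kernel)
                     (CovZ.leaf K2_ok TE_l10700 _)
                     (CovZ.badM (by decide +kernel)))
                    (CovZ.n1 (2610, 28270) (by decide +kernel)
                     (CovZ.leaf K2_ok TE_l10702 _)
                     (CovZ.leaf K2_ok TE_l10703 _)))
                   (CovZ.subM 1298074214633706907132624082305024 (by decide +kernel)
                    (CovZ.n1 (2640, 28260) (by decide +kernel)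
                     (CovZ.n2 (2630, 28250) (by decide +kernel)
                      (CovZ.leaf K2_ok TE_l10704 _)
                      (CovZ.badM (by decide +kernel)))
                     (CovZ.n1 (2630, 28270) (by decide +kernel)
                      (CovZ.badM (by decide +kernel))
                      (CovZ.leaf K2_ok TE_l10705 _)))))
                  (CovZ.n1 (2620, 28300) (by decide +kernel)
                   (CovZ.subM 83117314555764545397335835770093568 (by decide +kernel)
                    (CovZ.n2 (2640, 28300) (by decide +kernel)
                     (CovZ.n2 (2630, 28290) (by decide +kernel)
                      (CovZ.leaf K2_ok TE_l10706 _)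
                      (CovZ.badM (by decide +kernel)))
                     (CovZ.n1 (2630, 28310) (by decide +kernel)
                      (CovZ.leaf K2_ok TE_l10707 _)
                      (CovZ.leaf K2_ok TE_l10708 _))))
                   (CovZ.n1 (2620, 28280) (by decide +kernel)
                    (CovZ.n2 (2610, 28290) (by decide +kernel)
                     (CovZ.leaf K2_ok TE_l10709 _)
                     (CovZ.leaf K2_ok TE_l10710 _))
                    (CovZ.n1 (2630, 28290) (by decide +kernel)
                     (CovZ.badM (by decide +kernel))
                     (CovZ.leaf K2_ok TE_l10712 _))))))))))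

theorem TE_u176 : CovZ TE_M (toL (selN TE_LN 23489771243040583800483678278394937886286977507953166077919234)) [0, 7, 6, 1] (2880, 28800) (2720, 28800) (2720, 28640) :=
    (CovZ.n2 (2800, 28720) (by decide +kernel)
             (CovZ.n2 (2720, 28720) (by decide +kernel)
              (CovZ.n2 (2760, 28760) (by decide +kernel)
               (CovZ.subM 13848139909490712998925161244998804241099819940951535665545216 (by decide +kernel)
                (CovZ.n2 (2760, 28720) (by decide +kernel)
                 (CovZ.n2 (2740, 28740) (by decide +kernel)
                  (CovZ.n2 (2760, 28740) (by decide +kernel)
                   (CovZ.n2 (2750, 28730) (by decide +kernel)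
                    (CovZ.leaf K2_ok TE_l10746 _)
                    (CovZ.leaf K2_ok TE_l10747 _))
                   (CovZ.n1 (2750, 28750) (by decide +kernel)
                    (CovZ.leaf K2_ok TE_l10748 _)
                    (CovZ.leaf K2_ok TE_l10749 _)))
                  (CovZ.n1 (2740, 28720) (by decide +kernel)
                   (CovZ.leaf K2_ok TE_l10750 _)
                   (CovZ.n1 (2750, 28730) (by decide +kernel)
                    (CovZ.leaf K2_ok TE_l10751 _)
                    (CovZ.leaf K2_ok TE_l10752 _))))
                 (CovZ.n1 (2780, 28740) (by decide +kernel)
                  (CovZ.n2 (2780, 28720) (by decide +kernel)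
                   (CovZ.n2 (2770, 28730) (by decide +kernel)
                    (CovZ.badM (by decide +kernel))
                    (CovZ.leaf K2_ok TE_l19649 _))
                   (CovZ.badM (by decide +kernel)))
                  (CovZ.n1 (2760, 28740) (by decide +kernel)
                   (CovZ.n2 (2770, 28750) (by decide +kernel)
                    (CovZ.leaf K2_ok TE_l10753 _)
                    (CovZ.leaf K2_ok TE_l10754 _))
                   (CovZ.n1 (2770, 28730) (by decide +kernel)
                    (CovZ.leaf K2_ok TE_l10755 _)
                    (CovZ.leaf K2_ok TE_l10756 _))))))
               (CovZ.n1 (2720, 28760) (by decide +kernel)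
                (CovZ.n2 (2740, 28780) (by decide +kernel)
                 (CovZ.n2 (2740, 28760) (by decide +kernel)
                  (CovZ.leaf K2_ok TE_l10757 _)
                  (CovZ.n1 (2750, 28770) (by decide +kernel)
                   (CovZ.leaf K2_ok TE_l10758 _)
                   (CovZ.leaf K2_ok TE_l10759 _)))
                 (CovZ.n1 (2720, 28780) (by decide +kernel)
                  (CovZ.leaf K2_ok TE_l10760 _)
                  (CovZ.leaf K2_ok TE_l10761 _)))
                (CovZ.n1 (2740, 28740) (by decide +kernel)
                 (CovZ.n2 (2720, 28740) (by decide +kernel)
                  (CovZ.n2 (2730, 28750) (by decide +kernel)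
                   (CovZ.leaf K2_ok TE_l10762 _)
                   (CovZ.leaf K2_ok TE_l10763 _))
                  (CovZ.leaf K2_ok TE_l10764 _))
                 (CovZ.n1 (2740, 28760) (by decide +kernel)
                  (CovZ.n2 (2750, 28750) (by decide +kernel)
                   (CovZ.leaf K2_ok TE_l10765 _)
                   (CovZ.leaf K2_ok TE_l10766 _))
                  (CovZ.n1 (2730, 28750) (by decide +kernel)
                   (CovZ.leaf K2_ok TE_l10767 _)
                   (CovZ.leaf K2_ok TE_l10768 _))))))
              (CovZ.n1 (2760, 28680) (by decide +kernel)
               (CovZ.n2 (2720, 28680) (by decide +kernel)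
                (CovZ.n2 (2740, 28700) (by decide +kernel)
                 (CovZ.subM 25127611963847212800173850648560010194114445275352654675968 (by decide +kernel)
                  (CovZ.n2 (2740, 28680) (by decide +kernel)
                   (CovZ.n2 (2730, 28690) (by decide +kernel)
                    (CovZ.leaf K2_ok TE_l18193 _)
                    (CovZ.leaf K2_ok TE_l10769 _))
                   (CovZ.n1 (2750, 28690) (by decide +kernel)
                    (CovZ.leaf K2_ok TE_l18194 _)
                    (CovZ.n1 (2740, 28690) (by decide +kernel)
                     (CovZ.leaf K2_ok TE_l18195 _)
                     (CovZ.leaf K2_ok TE_l18196 _)))))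
                 (CovZ.n1 (2720, 28700) (by decide +kernel)
                  (CovZ.n2 (2730, 28710) (by decide +kernel)
                   (CovZ.leaf K2_ok TE_l10770 _)
                   (CovZ.leaf K2_ok TE_l10771 _))
                  (CovZ.n1 (2730, 28690) (by decide +kernel)
                   (CovZ.leaf K2_ok TE_l10772 _)
                   (CovZ.leaf K2_ok TE_l10773 _))))
                (CovZ.subM 19205022300489744830692955729344529705023497496516624384 (by decide +kernel)
                 (CovZ.n1 (2740, 28660) (by decide +kernel)
                  (CovZ.n2 (2720, 28660) (by decide +kernel)
                   (CovZ.n2 (2730, 28670) (by decide +kernel)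
                    (CovZ.leaf K2_ok TE_l18197 _)
                    (CovZ.leaf K2_ok TE_l10774 _))
                   (CovZ.n1 (2730, 28650) (by decide +kernel)
                    (CovZ.leaf K2_ok TE_l18198 _)
                    (CovZ.leaf K2_ok TE_l18199 _)))
                  (CovZ.n1 (2740, 28680) (by decide +kernel)
                   (CovZ.n2 (2750, 28670) (by decide +kernel)
                    (CovZ.leaf K2_ok TE_l18200 _)
                    (CovZ.leaf K2_ok TE_l18201 _))
                   (CovZ.n1 (2730, 28670) (by decide +kernel)
                    (CovZ.leaf K2_ok TE_l10775 _)
                    (CovZ.leaf K2_ok TE_l18202 _))))))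
               (CovZ.n1 (2760, 28720) (by decide +kernel)
                (CovZ.subM 25108406942277473874011267607924077912513370901804665012224 (by decide +kernel)
                 (CovZ.n2 (2780, 28700) (by decide +kernel)
                  (CovZ.n2 (2760, 28700) (by decide +kernel)
                   (CovZ.badM (by decide +kernel))
                   (CovZ.n1 (2770, 28690) (by decide +kernel)
                    (CovZ.leaf K2_ok TE_l19650 _)
                    (CovZ.badM (by decide +kernel))))
                  (CovZ.badM (by decide +kernel))))
                (CovZ.n1 (2740, 28700) (by decide +kernel)
                 (CovZ.n2 (2740, 28720) (by decide +kernel)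
                  (CovZ.leaf K2_ok TE_l10776 _)
                  (CovZ.n1 (2730, 28710) (by decide +kernel)
                   (CovZ.leaf K2_ok TE_l10777 _)
                   (CovZ.leaf K2_ok TE_l10778 _)))
                 (CovZ.subM 25126845527543068547496074312292689892412026299776778633216 (by decide +kernel)
                  (CovZ.n1 (2760, 28700) (by decide +kernel)
                   (CovZ.n2 (2750, 28690) (by decide +kernel)
                    (CovZ.leaf K2_ok TE_l18203 _)
                    (CovZ.leaf K2_ok TE_l18204 _))
                   (CovZ.n1 (2750, 28710) (by decide +kernel)
                    (CovZ.n2 (2760, 28710) (by decide +kernel)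
                     (CovZ.leaf K2_ok TE_l18205 _)
                     (CovZ.leaf K2_ok TE_l18206 _))
                    (CovZ.leaf K2_ok TE_l18207 _))))))))
             (CovZ.n1 (2800, 28800) (by decide +kernel)
              (CovZ.badM (by decide +kernel))
              (CovZ.n1 (2760, 28760) (by decide +kernel)
               (CovZ.n2 (2760, 28800) (by decide +kernel)
                (CovZ.n2 (2780, 28780) (by decide +kernel)
                 (CovZ.n2 (2760, 28780) (by decide +kernel)
                  (CovZ.n2 (2770, 28790) (by decide +kernel)
                   (CovZ.leaf K2_ok TE_l10779 _)
                   (CovZ.leaf K2_ok TE_l10780 _))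
                  (CovZ.n1 (2770, 28770) (by decide +kernel)
                   (CovZ.leaf K2_ok TE_l10781 _)
                   (CovZ.leaf K2_ok TE_l10782 _)))
                 (CovZ.n1 (2780, 28800) (by decide +kernel)
                  (CovZ.badM (by decide +kernel))
                  (CovZ.n1 (2770, 28790) (by decide +kernel)
                   (CovZ.leaf K2_ok TE_l10783 _)
                   (CovZ.leaf K2_ok TE_l18208 _))))
                (CovZ.n1 (2740, 28780) (by decide +kernel)
                 (CovZ.n2 (2740, 28800) (by decide +kernel)
                  (CovZ.n2 (2750, 28790) (by decide +kernel)
                   (CovZ.leaf K2_ok TE_l10784 _)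
                   (CovZ.leaf K2_ok TE_l10785 _))
                  (CovZ.n1 (2730, 28790) (by decide +kernel)
                   (CovZ.leaf K2_ok TE_l10786 _)
                   (CovZ.leaf K2_ok TE_l10787 _)))
                 (CovZ.n1 (2760, 28780) (by decide +kernel)
                  (CovZ.n2 (2750, 28770) (by decide +kernel)
                   (CovZ.leaf K2_ok TE_l10788 _)
                   (CovZ.leaf K2_ok TE_l10789 _))
                  (CovZ.n1 (2750, 28790) (by decide +kernel)
                   (CovZ.leaf K2_ok TE_l10790 _)
                   (CovZ.leaf K2_ok TE_l10791 _)))))
               (CovZ.subM 13823019242584107884310989581307995759274835975794089500082176 (by decide +kernel)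
                (CovZ.n1 (2800, 28760) (by decide +kernel)
                 (CovZ.n2 (2780, 28740) (by decide +kernel)
                  (CovZ.n2 (2780, 28760) (by decide +kernel)
                   (CovZ.badM (by decide +kernel))
                   (CovZ.n1 (2770, 28750) (by decide +kernel)
                    (CovZ.leaf K2_ok TE_l10792 _)
                    (CovZ.leaf K2_ok TE_l19651 _)))
                  (CovZ.badM (by decide +kernel)))
                 (CovZ.n1 (2780, 28780) (by decide +kernel)
                  (CovZ.badM (by decide +kernel))
                  (CovZ.n1 (2780, 28760) (by decide +kernel)
                   (CovZ.n2 (2770, 28770) (by decide +kernel)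
                    (CovZ.badM (by decide +kernel))
                    (CovZ.leaf K2_ok TE_l10793 _))
                   (CovZ.badM (by decide +kernel)))))))))

theorem TE_u177 : CovZ TE_M (toL (selN TE_LN 23489771243040583800483678278394937886286977507953166077919234)) [0, 7, 6, 1] (2720, 28800) (2560, 28800) (2720, 28640) :=
    (CovZ.n1 (2640, 28720) (by decide +kernel)
             (CovZ.n2 (2640, 28800) (by decide +kernel)
              (CovZ.n2 (2680, 28760) (by decide +kernel)
               (CovZ.n2 (2640, 28760) (by decide +kernel)
                (CovZ.n2 (2660, 28780) (by decide +kernel)
                 (CovZ.leaf K2_ok TE_l10794 _)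
                 (CovZ.leaf K2_ok TE_l10795 _))
                (CovZ.n1 (2660, 28740) (by decide +kernel)
                 (CovZ.leaf K2_ok TE_l10796 _)
                 (CovZ.leaf K2_ok TE_l10797 _)))
               (CovZ.n1 (2680, 28800) (by decide +kernel)
                (CovZ.n2 (2700, 28780) (by decide +kernel)
                 (CovZ.leaf K2_ok TE_l10798 _)
                 (CovZ.leaf K2_ok TE_l10799 _))
                (CovZ.n1 (2660, 28780) (by decide +kernel)
                 (CovZ.leaf K2_ok TE_l10800 _)
                 (CovZ.leaf K2_ok TE_l10801 _))))
              (CovZ.n1 (2600, 28760) (by decide +kernel)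
               (CovZ.n2 (2600, 28800) (by decide +kernel)
                (CovZ.leaf K2_ok TE_l10802 _)
                (CovZ.leaf K2_ok TE_l10803 _))
               (CovZ.n1 (2640, 28760) (by decide +kernel)
                (CovZ.n2 (2620, 28740) (by decide +kernel)
                 (CovZ.leaf K2_ok TE_l10804 _)
                 (CovZ.leaf K2_ok TE_l10805 _))
                (CovZ.leaf K2_ok TE_l10806 _))))
             (CovZ.n1 (2720, 28720) (by decide +kernel)
              (CovZ.n2 (2680, 28680) (by decide +kernel)
               (CovZ.n2 (2680, 28720) (by decide +kernel)
                (CovZ.n2 (2700, 28700) (by decide +kernel)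
                 (CovZ.n2 (2680, 28700) (by decide +kernel)
                  (CovZ.leaf K2_ok TE_l10807 _)
                  (CovZ.leaf K2_ok TE_l10808 _))
                 (CovZ.n1 (2700, 28720) (by decide +kernel)
                  (CovZ.leaf K2_ok TE_l10809 _)
                  (CovZ.leaf K2_ok TE_l10810 _)))
                (CovZ.n1 (2660, 28700) (by decide +kernel)
                 (CovZ.leaf K2_ok TE_l10811 _)
                 (CovZ.leaf K2_ok TE_l10812 _)))
               (CovZ.n1 (2720, 28680) (by decide +kernel)
                (CovZ.subM 13848090869633405201278035077818111111626316844895792065937408 (by decide +kernel)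
                 (CovZ.n2 (2700, 28660) (by decide +kernel)
                  (CovZ.n2 (2700, 28680) (by decide +kernel)
                   (CovZ.leaf K2_ok TE_l10813 _)
                   (CovZ.leaf K2_ok TE_l10814 _))
                  (CovZ.n1 (2720, 28660) (by decide +kernel)
                   (CovZ.leaf K2_ok TE_l10815 _)
                   (CovZ.leaf K2_ok TE_l10816 _))))
                (CovZ.n1 (2700, 28700) (by decide +kernel)
                 (CovZ.n2 (2720, 28700) (by decide +kernel)
                  (CovZ.n2 (2710, 28690) (by decide +kernel)
                   (CovZ.leaf K2_ok TE_l10817 _)
                   (CovZ.leaf K2_ok TE_l10818 _))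
                  (CovZ.leaf K2_ok TE_l10819 _))
                 (CovZ.n1 (2700, 28680) (by decide +kernel)
                  (CovZ.leaf K2_ok TE_l10820 _)
                  (CovZ.n1 (2710, 28690) (by decide +kernel)
                   (CovZ.leaf K2_ok TE_l10821 _)
                   (CovZ.leaf K2_ok TE_l10822 _))))))
              (CovZ.n1 (2680, 28760) (by decide +kernel)
               (CovZ.n2 (2720, 28760) (by decide +kernel)
                (CovZ.n2 (2700, 28740) (by decide +kernel)
                 (CovZ.n2 (2700, 28760) (by decide +kernel)
                  (CovZ.leaf K2_ok TE_l10823 _)
                  (CovZ.leaf K2_ok TE_l10824 _))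
                 (CovZ.n1 (2720, 28740) (by decide +kernel)
                  (CovZ.n2 (2710, 28730) (by decide +kernel)
                   (CovZ.leaf K2_ok TE_l10825 _)
                   (CovZ.leaf K2_ok TE_l10826 _))
                  (CovZ.leaf K2_ok TE_l10827 _)))
                (CovZ.n1 (2700, 28780) (by decide +kernel)
                 (CovZ.leaf K2_ok TE_l10828 _)
                 (CovZ.n1 (2700, 28760) (by decide +kernel)
                  (CovZ.leaf K2_ok TE_l10829 _)
                  (CovZ.n1 (2710, 28770) (by decide +kernel)
                   (CovZ.leaf K2_ok TE_l10830 _)
                   (CovZ.leaf K2_ok TE_l10831 _)))))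
               (CovZ.n1 (2680, 28720) (by decide +kernel)
                (CovZ.n2 (2660, 28740) (by decide +kernel)
                 (CovZ.leaf K2_ok TE_l10832 _)
                 (CovZ.leaf K2_ok TE_l10833 _))
                (CovZ.n1 (2700, 28740) (by decide +kernel)
                 (CovZ.n2 (2700, 28720) (by decide +kernel)
                  (CovZ.leaf K2_ok TE_l10834 _)
                  (CovZ.n1 (2710, 28730) (by decide +kernel)
                   (CovZ.leaf K2_ok TE_l10835 _)
                   (CovZ.leaf K2_ok TE_l10836 _)))
                 (CovZ.leaf K2_ok TE_l10837 _))))))

theorem TE_u178 : CovZ TE_M (toL (selN TE_LN 23489967404410948571197593961196973923382046976020922119629298)) [0, 7, 6, 1] (2560, 29440) (2560, 28800) (3200, 28800) :=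
    (CovZ.subM 23489771243040583800483675630324016795182516740604377327206466 (by decide +kernel)
        (CovZ.n2 (2880, 29120) (by decide +kernel)
         (CovZ.n2 (2880, 28800) (by decide +kernel)
          (CovZ.n2 (2720, 28960) (by decide +kernel)
           (CovZ.subM 3226451965439913203298682015713816991777098245093241712017408 (by decide +kernel)
            (CovZ.n2 (2880, 28960) (by decide +kernel)
             TE_u168
             TE_u169))
           (CovZ.n1 (2720, 28800) (by decide +kernel)
            (CovZ.n2 (2640, 28880) (by decide +kernel)
             (CovZ.n2 (2720, 28880) (by decide +kernel)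
              (CovZ.n2 (2680, 28840) (by decide +kernel)
               (CovZ.n2 (2680, 28880) (by decide +kernel)
                (CovZ.n2 (2700, 28860) (by decide +kernel)
                 (CovZ.leaf K2_ok TE_l10187 _)
                 (CovZ.leaf K2_ok TE_l10188 _))
                (CovZ.n1 (2660, 28860) (by decide +kernel)
                 (CovZ.leaf K2_ok TE_l10189 _)
                 (CovZ.leaf K2_ok TE_l10190 _)))
               (CovZ.n1 (2720, 28840) (by decide +kernel)
                (CovZ.n2 (2700, 28820) (by decide +kernel)
                 (CovZ.n2 (2700, 28840) (by decide +kernel)
                  (CovZ.leaf K2_ok TE_l10191 _)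
                  (CovZ.leaf K2_ok TE_l10192 _))
                 (CovZ.n1 (2720, 28820) (by decide +kernel)
                  (CovZ.leaf K2_ok TE_l10193 _)
                  (CovZ.leaf K2_ok TE_l10194 _)))
                (CovZ.n1 (2700, 28860) (by decide +kernel)
                 (CovZ.leaf K2_ok TE_l10195 _)
                 (CovZ.leaf K2_ok TE_l10196 _))))
              (CovZ.n1 (2680, 28920) (by decide +kernel)
               (CovZ.n2 (2720, 28920) (by decide +kernel)
                (CovZ.n2 (2700, 28900) (by decide +kernel)
                 (CovZ.leaf K2_ok TE_l10197 _)
                 (CovZ.leaf K2_ok TE_l10198 _))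
                (CovZ.n1 (2700, 28940) (by decide +kernel)
                 (CovZ.leaf K2_ok TE_l10199 _)
                 (CovZ.leaf K2_ok TE_l10200 _)))
               (CovZ.n1 (2680, 28880) (by decide +kernel)
                (CovZ.n2 (2660, 28900) (by decide +kernel)
                 (CovZ.leaf K2_ok TE_l10201 _)
                 (CovZ.leaf K2_ok TE_l10202 _))
                (CovZ.n1 (2700, 28900) (by decide +kernel)
                 (CovZ.leaf K2_ok TE_l10203 _)
                 (CovZ.leaf K2_ok TE_l10204 _)))))
             (CovZ.n1 (2640, 28800) (by decide +kernel)
              (CovZ.n2 (2600, 28840) (by decide +kernel)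
               (CovZ.n2 (2640, 28840) (by decide +kernel)
                (CovZ.n2 (2620, 28820) (by decide +kernel)
                 (CovZ.leaf K2_ok TE_l10205 _)
                 (CovZ.leaf K2_ok TE_l10206 _))
                (CovZ.leaf K2_ok TE_l10207 _))
               (CovZ.n1 (2600, 28800) (by decide +kernel)
                (CovZ.leaf K2_ok TE_l10208 _)
                (CovZ.n1 (2620, 28820) (by decide +kernel)
                 (CovZ.leaf K2_ok TE_l10209 _)
                 (CovZ.leaf K2_ok TE_l10210 _))))
              (CovZ.n1 (2680, 28840) (by decide +kernel)
               (CovZ.n2 (2680, 28800) (by decide +kernel)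
                (CovZ.n2 (2660, 28820) (by decide +kernel)
                 (CovZ.leaf K2_ok TE_l10211 _)
                 (CovZ.leaf K2_ok TE_l10212 _))
                (CovZ.n1 (2700, 28820) (by decide +kernel)
                 (CovZ.n2 (2700, 28800) (by decide +kernel)
                  (CovZ.leaf K2_ok TE_l10213 _)
                  (CovZ.leaf K2_ok TE_l10214 _))
                 (CovZ.leaf K2_ok TE_l10215 _)))
               (CovZ.n1 (2640, 28840) (by decide +kernel)
                (CovZ.n2 (2660, 28860) (by decide +kernel)
                 (CovZ.leaf K2_ok TE_l10216 _)
                 (CovZ.leaf K2_ok TE_l10217 _))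
                (CovZ.leaf K2_ok TE_l10218 _)))))
            (CovZ.n1 (2800, 28880) (by decide +kernel)
             (CovZ.n2 (2800, 28800) (by decide +kernel)
              (CovZ.n2 (2760, 28840) (by decide +kernel)
               (CovZ.subM 9641637679039221215918038809592660376516945596003771639398400 (by decide +kernel)
                (CovZ.n2 (2800, 28840) (by decide +kernel)
                 (CovZ.n2 (2780, 28820) (by decide +kernel)
                  (CovZ.n2 (2780, 28840) (by decide +kernel)
                   (CovZ.n2 (2790, 28830) (by decide +kernel)
                    (CovZ.leaf K2_ok TE_l18185 _)
                    (CovZ.leaf K2_ok TE_l18186 _))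
                   (CovZ.n1 (2770, 28830) (by decide +kernel)
                    (CovZ.leaf K2_ok TE_l10219 _)
                    (CovZ.leaf K2_ok TE_l10220 _)))
                  (CovZ.subM 6427755242027042878547066116948987875506511905968607775948800 (by decide +kernel)
                   (CovZ.n1 (2800, 28820) (by decide +kernel)
                    (CovZ.n2 (2790, 28810) (by decide +kernel)
                     (CovZ.leaf K2_ok TE_l19643 _)
                     (CovZ.badM (by decide +kernel)))
                    (CovZ.n1 (2790, 28830) (by decide +kernel)
                     (CovZ.badM (by decide +kernel))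
                     (CovZ.leaf K2_ok TE_l19644 _)))))
                 (CovZ.n1 (2780, 28860) (by decide +kernel)
                  (CovZ.subM 3064991081737352908333400953121465316574855470677753856 (by decide +kernel)
                   (CovZ.n2 (2800, 28860) (by decide +kernel)
                    (CovZ.n2 (2790, 28850) (by decide +kernel)
                     (CovZ.leaf K2_ok TE_l10221 _)
                     (CovZ.badM (by decide +kernel)))
                    (CovZ.n1 (2790, 28870) (by decide +kernel)
                     (CovZ.leaf K2_ok TE_l18187 _)
                     (CovZ.leaf K2_ok TE_l10222 _))))
                  (CovZ.n1 (2780, 28840) (by decide +kernel)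
                   (CovZ.leaf K2_ok TE_l10223 _)
                   (CovZ.n1 (2790, 28850) (by decide +kernel)
                    (CovZ.leaf K2_ok TE_l18188 _)
                    (CovZ.leaf K2_ok TE_l10224 _))))))
               (CovZ.n1 (2760, 28800) (by decide +kernel)
                (CovZ.n2 (2740, 28820) (by decide +kernel)
                 (CovZ.n2 (2760, 28820) (by decide +kernel)
                  (CovZ.n2 (2750, 28810) (by decide +kernel)
                   (CovZ.leaf K2_ok TE_l10225 _)
                   (CovZ.leaf K2_ok TE_l10226 _))
                  (CovZ.leaf K2_ok TE_l10227 _))
                 (CovZ.n1 (2740, 28800) (by decide +kernel)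
                  (CovZ.leaf K2_ok TE_l10228 _)
                  (CovZ.n1 (2750, 28810) (by decide +kernel)
                   (CovZ.leaf K2_ok TE_l10229 _)
                   (CovZ.leaf K2_ok TE_l10230 _))))
                (CovZ.subM 22497142033112696265765177704155492673490986571850131915669504 (by decide +kernel)
                 (CovZ.n1 (2780, 28820) (by decide +kernel)
                  (CovZ.n2 (2780, 28800) (by decide +kernel)
                   (CovZ.leaf K2_ok TE_l10231 _)
                   (CovZ.n1 (2790, 28810) (by decide +kernel)
                    (CovZ.badM (by decide +kernel))
                    (CovZ.leaf K2_ok TE_l19645 _)))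
                  (CovZ.n1 (2760, 28820) (by decide +kernel)
                   (CovZ.n2 (2770, 28830) (by decide +kernel)
                    (CovZ.leaf K2_ok TE_l10232 _)
                    (CovZ.leaf K2_ok TE_l10233 _))
                   (CovZ.leaf K2_ok TE_l10234 _))))))
              (CovZ.subM 6427752177035961146769350729482929359804017572297423689089024 (by decide +kernel)
               (CovZ.n1 (2840, 28840) (by decide +kernel)
                (CovZ.badM (by decide +kernel))
                (CovZ.n1 (2800, 28840) (by decide +kernel)
                 (CovZ.badM (by decide +kernel))
                 (CovZ.n1 (2820, 28820) (by decide +kernel)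
                  (CovZ.n2 (2800, 28820) (by decide +kernel)
                   (CovZ.n2 (2810, 28830) (by decide +kernel)
                    (CovZ.badM (by decide +kernel))
                    (CovZ.badM (by decide +kernel)))
                   (CovZ.badM (by decide +kernel)))
                  (CovZ.n1 (2820, 28840) (by decide +kernel)
                   (CovZ.badM (by decide +kernel))
                   (CovZ.n1 (2810, 28830) (by decide +kernel)
                    (CovZ.badM (by decide +kernel))
                    (CovZ.badM (by decide +kernel)))))))))
             (CovZ.n1 (2720, 28880) (by decide +kernel)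
              (CovZ.subM 10608324756374594458861403182610588746021343127261577155182592 (by decide +kernel)
               (CovZ.n2 (2760, 28920) (by decide +kernel)
                (CovZ.n2 (2760, 28880) (by decide +kernel)
                 (CovZ.n2 (2740, 28900) (by decide +kernel)
                  (CovZ.n2 (2760, 28900) (by decide +kernel)
                   (CovZ.leaf K2_ok TE_l10235 _)
                   (CovZ.leaf K2_ok TE_l10236 _))
                  (CovZ.n1 (2740, 28880) (by decide +kernel)
                   (CovZ.leaf K2_ok TE_l10237 _)
                   (CovZ.leaf K2_ok TE_l10238 _)))
                 (CovZ.subM 9221911644896730010706840912277792452682610576956850176 (by decide +kernel)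
                  (CovZ.n1 (2780, 28900) (by decide +kernel)
                   (CovZ.n2 (2780, 28880) (by decide +kernel)
                    (CovZ.leaf K2_ok TE_l10239 _)
                    (CovZ.n1 (2790, 28890) (by decide +kernel)
                     (CovZ.leaf K2_ok TE_l10240 _)
                     (CovZ.leaf K2_ok TE_l10241 _)))
                   (CovZ.n1 (2760, 28900) (by decide +kernel)
                    (CovZ.leaf K2_ok TE_l10242 _)
                    (CovZ.leaf K2_ok TE_l10243 _)))))
                (CovZ.n1 (2720, 28920) (by decide +kernel)
                 (CovZ.n2 (2740, 28940) (by decide +kernel)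
                  (CovZ.n2 (2740, 28920) (by decide +kernel)
                   (CovZ.leaf K2_ok TE_l10244 _)
                   (CovZ.leaf K2_ok TE_l10245 _))
                  (CovZ.n1 (2720, 28940) (by decide +kernel)
                   (CovZ.leaf K2_ok TE_l10246 _)
                   (CovZ.leaf K2_ok TE_l10247 _)))
                 (CovZ.n1 (2740, 28900) (by decide +kernel)
                  (CovZ.n2 (2720, 28900) (by decide +kernel)
                   (CovZ.leaf K2_ok TE_l10248 _)
                   (CovZ.leaf K2_ok TE_l10249 _))
                  (CovZ.n1 (2740, 28920) (by decide +kernel)
                   (CovZ.leaf K2_ok TE_l10250 _)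
                   (CovZ.leaf K2_ok TE_l10251 _))))))
              (CovZ.n1 (2760, 28840) (by decide +kernel)
               (CovZ.n2 (2720, 28840) (by decide +kernel)
                (CovZ.n2 (2740, 28860) (by decide +kernel)
                 (CovZ.n2 (2740, 28840) (by decide +kernel)
                  (CovZ.leaf K2_ok TE_l10252 _)
                  (CovZ.n1 (2750, 28850) (by decide +kernel)
                   (CovZ.leaf K2_ok TE_l10253 _)
                   (CovZ.leaf K2_ok TE_l10254 _)))
                 (CovZ.n1 (2720, 28860) (by decide +kernel)
                  (CovZ.leaf K2_ok TE_l10255 _)
                  (CovZ.leaf K2_ok TE_l10256 _)))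
                (CovZ.n1 (2740, 28820) (by decide +kernel)
                 (CovZ.n2 (2720, 28820) (by decide +kernel)
                  (CovZ.leaf K2_ok TE_l10257 _)
                  (CovZ.leaf K2_ok TE_l10258 _))
                 (CovZ.n1 (2740, 28840) (by decide +kernel)
                  (CovZ.leaf K2_ok TE_l10259 _)
                  (CovZ.leaf K2_ok TE_l10260 _))))
               (CovZ.subM 10608324756374594458861403182610588743603491488032318805770240 (by decide +kernel)
                (CovZ.n1 (2760, 28880) (by decide +kernel)
                 (CovZ.subM 9641637679039221171316537778702377211717622135023815681376256 (by decide +kernel)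
                  (CovZ.n2 (2780, 28860) (by decide +kernel)
                   (CovZ.n2 (2760, 28860) (by decide +kernel)
                    (CovZ.n2 (2770, 28870) (by decide +kernel)
                     (CovZ.leaf K2_ok TE_l10261 _)
                     (CovZ.leaf K2_ok TE_l10262 _))
                    (CovZ.leaf K2_ok TE_l10263 _))
                   (CovZ.n1 (2780, 28880) (by decide +kernel)
                    (CovZ.n2 (2790, 28870) (by decide +kernel)
                     (CovZ.leaf K2_ok TE_l10264 _)
                     (CovZ.leaf K2_ok TE_l10265 _))
                    (CovZ.leaf K2_ok TE_l10266 _))))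
                 (CovZ.n1 (2740, 28860) (by decide +kernel)
                  (CovZ.n2 (2740, 28880) (by decide +kernel)
                   (CovZ.leaf K2_ok TE_l10267 _)
                   (CovZ.leaf K2_ok TE_l10268 _))
                  (CovZ.n1 (2760, 28860) (by decide +kernel)
                   (CovZ.leaf K2_ok TE_l10269 _)
                   (CovZ.leaf K2_ok TE_l10270 _))))))))))
          (CovZ.subM 11963057032666643778275241566190698496 (by decide +kernel)
           (CovZ.n1 (3040, 28960) (by decide +kernel)
            (CovZ.badM (by decide +kernel))
            (CovZ.n1 (2880, 28960) (by decide +kernel)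
             (CovZ.badM (by decide +kernel))
             (CovZ.n1 (2960, 28880) (by decide +kernel)
              (CovZ.n2 (2880, 28880) (by decide +kernel)
               (CovZ.n2 (2920, 28920) (by decide +kernel)
                (CovZ.badM (by decide +kernel))
                (CovZ.badM (by decide +kernel)))
               (CovZ.badM (by decide +kernel)))
              (CovZ.n1 (2960, 28960) (by decide +kernel)
               (CovZ.badM (by decide +kernel))
               (CovZ.n1 (2920, 28920) (by decide +kernel)
                (CovZ.badM (by decide +kernel))
                (CovZ.badM (by decide +kernel)))))))))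
         (CovZ.n1 (2560, 29120) (by decide +kernel)
          TE_u170
          TE_u171)))

theorem TE_u179 : CovZ TE_M (toL (selN TE_LN 23489967404410948571197593961196973923382046976020922119629298)) [0, 7, 6, 1] (2560, 28800) (2560, 28160) (3200, 28800) :=
    (CovZ.n1 (2880, 28480) (by decide +kernel)
        (CovZ.n2 (2560, 28480) (by decide +kernel)
         (CovZ.subM 20275895154522603249399748776800609773224077566743074490548226 (by decide +kernel)
          (CovZ.n2 (2720, 28640) (by decide +kernel)
           TE_u172
           TE_u173))
         (CovZ.subM 203104510065336325743557904224211366097846861450505625984 (by decide +kernel)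
          (CovZ.n1 (2720, 28320) (by decide +kernel)
           (CovZ.n2 (2560, 28320) (by decide +kernel)
            TE_u174
            TE_u175)
           (CovZ.n1 (2720, 28480) (by decide +kernel)
            (CovZ.badM (by decide +kernel))
            (CovZ.subM 815075078634636010654847358133061718248292977035182080 (by decide +kernel)
             (CovZ.n1 (2640, 28400) (by decide +kernel)
              (CovZ.n2 (2640, 28480) (by decide +kernel)
               (CovZ.subM 79228163694855958311022362624 (by decide +kernel)
                (CovZ.n2 (2680, 28440) (by decide +kernel)
                 (CovZ.n2 (2640, 28440) (by decide +kernel)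
                  (CovZ.n2 (2660, 28460) (by decide +kernel)
                   (CovZ.n2 (2660, 28440) (by decide +kernel)
                    (CovZ.leaf K2_ok TE_l10713 _)
                    (CovZ.n1 (2670, 28450) (by decide +kernel)
                     (CovZ.badM (by decide +kernel))
                     (CovZ.leaf K2_ok TE_l10714 _)))
                   (CovZ.n1 (2640, 28460) (by decide +kernel)
                    (CovZ.n2 (2650, 28470) (by decide +kernel)
                     (CovZ.leaf K2_ok TE_l10715 _)
                     (CovZ.leaf K2_ok TE_l10716 _))
                    (CovZ.leaf K2_ok TE_l10717 _)))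
                  (CovZ.n1 (2660, 28420) (by decide +kernel)
                   (CovZ.n2 (2640, 28420) (by decide +kernel)
                    (CovZ.n2 (2650, 28430) (by decide +kernel)
                     (CovZ.leaf K2_ok TE_l10718 _)
                     (CovZ.leaf K2_ok TE_l10719 _))
                    (CovZ.leaf K2_ok TE_l10720 _))
                   (CovZ.n1 (2660, 28440) (by decide +kernel)
                    (CovZ.badM (by decide +kernel))
                    (CovZ.n1 (2650, 28430) (by decide +kernel)
                     (CovZ.leaf K2_ok TE_l10721 _)
                     (CovZ.badM (by decide +kernel))))))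
                 (CovZ.n1 (2680, 28480) (by decide +kernel)
                  (CovZ.badM (by decide +kernel))
                  (CovZ.n1 (2660, 28460) (by decide +kernel)
                   (CovZ.n2 (2660, 28480) (by decide +kernel)
                    (CovZ.leaf K2_ok TE_l10723 _)
                    (CovZ.n1 (2650, 28470) (by decide +kernel)
                     (CovZ.leaf K2_ok TE_l10724 _)
                     (CovZ.leaf K2_ok TE_l10725 _)))
                   (CovZ.n1 (2680, 28460) (by decide +kernel)
                    (CovZ.n2 (2670, 28450) (by decide +kernel)
                     (CovZ.leaf K2_ok TE_l10726 _)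
                     (CovZ.leaf K2_ok TE_l18191 _))
                    (CovZ.n1 (2670, 28470) (by decide +kernel)
                     (CovZ.leaf K2_ok TE_l18192 _)
                     (CovZ.leaf K2_ok TE_l10727 _)))))))
               (CovZ.n1 (2600, 28440) (by decide +kernel)
                (CovZ.n2 (2600, 28480) (by decide +kernel)
                 (CovZ.n2 (2620, 28460) (by decide +kernel)
                  (CovZ.leaf K2_ok TE_l10728 _)
                  (CovZ.n1 (2620, 28480) (by decide +kernel)
                   (CovZ.leaf K2_ok TE_l10729 _)
                   (CovZ.leaf K2_ok TE_l10730 _)))
                 (CovZ.n1 (2580, 28460) (by decide +kernel)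
                  (CovZ.leaf K2_ok TE_l10731 _)
                  (CovZ.leaf K2_ok TE_l10732 _)))
                (CovZ.subM 48638774490372449118143229014629465218863849208283136 (by decide +kernel)
                 (CovZ.n1 (2640, 28440) (by decide +kernel)
                  (CovZ.n2 (2620, 28420) (by decide +kernel)
                   (CovZ.n2 (2620, 28440) (by decide +kernel)
                    (CovZ.leaf K2_ok TE_l10733 _)
                    (CovZ.leaf K2_ok TE_l10734 _))
                   (CovZ.n1 (2640, 28420) (by decide +kernel)
                    (CovZ.n2 (2630, 28410) (by decide +kernel)
                     (CovZ.leaf K2_ok TE_l10735 _)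
                     (CovZ.leaf K2_ok TE_l10736 _))
                    (CovZ.leaf K2_ok TE_l10737 _)))
                  (CovZ.n1 (2620, 28460) (by decide +kernel)
                   (CovZ.n2 (2640, 28460) (by decide +kernel)
                    (CovZ.leaf K2_ok TE_l10738 _)
                    (CovZ.leaf K2_ok TE_l10739 _))
                   (CovZ.n1 (2620, 28440) (by decide +kernel)
                    (CovZ.leaf K2_ok TE_l10740 _)
                    (CovZ.leaf K2_ok TE_l10741 _)))))))
              (CovZ.subM 79228162514264337593611059200 (by decide +kernel)
               (CovZ.n1 (2720, 28400) (by decide +kernel)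
                (CovZ.n2 (2680, 28360) (by decide +kernel)
                 (CovZ.n2 (2680, 28400) (by decide +kernel)
                  (CovZ.badM (by decide +kernel))
                  (CovZ.n1 (2660, 28380) (by decide +kernel)
                   (CovZ.n2 (2660, 28400) (by decide +kernel)
                    (CovZ.badM (by decide +kernel))
                    (CovZ.n1 (2650, 28390) (by decide +kernel)
                     (CovZ.leaf K2_ok TE_l10743 _)
                     (CovZ.leaf K2_ok TE_l10744 _)))
                   (CovZ.badM (by decide +kernel))))
                 (CovZ.badM (by decide +kernel)))
                (CovZ.n1 (2680, 28440) (by decide +kernel)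
                 (CovZ.badM (by decide +kernel))
                 (CovZ.n1 (2680, 28400) (by decide +kernel)
                  (CovZ.n2 (2660, 28420) (by decide +kernel)
                   (CovZ.badM (by decide +kernel))
                   (CovZ.n1 (2660, 28400) (by decide +kernel)
                    (CovZ.leaf K2_ok TE_l10745 _)
                    (CovZ.badM (by decide +kernel))))
                  (CovZ.badM (by decide +kernel))))))))))))
        (CovZ.subM 23489771243040583800483678278394937886286977507953166077919234 (by decide +kernel)
         (CovZ.n1 (2880, 28800) (by decide +kernel)
          (CovZ.subM 730750818665451459103080356397426890102865395712 (by decide +kernel)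
           (CovZ.n2 (3040, 28640) (by decide +kernel)
            (CovZ.n2 (2880, 28640) (by decide +kernel)
             (CovZ.n2 (2960, 28720) (by decide +kernel)
              (CovZ.badM (by decide +kernel))
              (CovZ.n1 (2880, 28720) (by decide +kernel)
               (CovZ.badM (by decide +kernel))
               (CovZ.badM (by decide +kernel))))
             (CovZ.badM (by decide +kernel)))
            (CovZ.n1 (3040, 28800) (by decide +kernel)
             (CovZ.badM (by decide +kernel))
             (CovZ.n1 (2960, 28720) (by decide +kernel)
              (CovZ.badM (by decide +kernel))
              (CovZ.badM (by decide +kernel))))))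
          (CovZ.n1 (2720, 28640) (by decide +kernel)
           (CovZ.n2 (2720, 28800) (by decide +kernel)
            TE_u176
            TE_u177)
           (CovZ.subM 18389947221944312473463459704784734710028255832347508736 (by decide +kernel)
            (CovZ.n1 (2880, 28640) (by decide +kernel)
             (CovZ.subM 6129982163463555433433388109839176773760336763633532928 (by decide +kernel)
              (CovZ.n2 (2800, 28560) (by decide +kernel)
               (CovZ.n2 (2800, 28640) (by decide +kernel)
                (CovZ.badM (by decide +kernel))
                (CovZ.n1 (2760, 28600) (by decide +kernel)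
                 (CovZ.n2 (2760, 28640) (by decide +kernel)
                  (CovZ.badM (by decide +kernel))
                  (CovZ.n1 (2740, 28620) (by decide +kernel)
                   (CovZ.n2 (2740, 28640) (by decide +kernel)
                    (CovZ.badM (by decide +kernel))
                    (CovZ.n1 (2730, 28630) (by decide +kernel)
                     (CovZ.leaf K2_ok TE_l19652 _)
                     (CovZ.badM (by decide +kernel))))
                   (CovZ.badM (by decide +kernel))))
                 (CovZ.badM (by decide +kernel))))
               (CovZ.badM (by decide +kernel))))
             (CovZ.n1 (2800, 28720) (by decide +kernel)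
              (CovZ.n2 (2880, 28720) (by decide +kernel)
               (CovZ.n2 (2840, 28680) (by decide +kernel)
                (CovZ.badM (by decide +kernel))
                (CovZ.badM (by decide +kernel)))
               (CovZ.badM (by decide +kernel)))
              (CovZ.n1 (2800, 28640) (by decide +kernel)
               (CovZ.subM 18389946491104290146653144267261308512761557419921768448 (by decide +kernel)
                (CovZ.n2 (2760, 28680) (by decide +kernel)
                 (CovZ.badM (by decide +kernel))
                 (CovZ.n1 (2760, 28640) (by decide +kernel)
                  (CovZ.n2 (2740, 28660) (by decide +kernel)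
                   (CovZ.n2 (2760, 28660) (by decide +kernel)
                    (CovZ.badM (by decide +kernel))
                    (CovZ.n1 (2750, 28670) (by decide +kernel)
                     (CovZ.leaf K2_ok TE_l19653 _)
                     (CovZ.leaf K2_ok TE_l18209 _)))
                   (CovZ.n1 (2740, 28640) (by decide +kernel)
                    (CovZ.n2 (2730, 28650) (by decide +kernel)
                     (CovZ.badM (by decide +kernel))
                     (CovZ.leaf K2_ok TE_l18210 _))
                    (CovZ.badM (by decide +kernel))))
                  (CovZ.subM 713623846352979940529142984724747568191373312 (by decide +kernel)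
                   (CovZ.n1 (2780, 28660) (by decide +kernel)
                    (CovZ.badM (by decide +kernel))
                    (CovZ.n1 (2760, 28660) (by decide +kernel)
                     (CovZ.n2 (2770, 28670) (by decide +kernel)
                      (CovZ.badM (by decide +kernel))
                      (CovZ.n1 (2760, 28670) (by decide +kernel)
                       (CovZ.badM (by decide +kernel))
                       (CovZ.badM (by decide +kernel))))
                     (CovZ.badM (by decide +kernel))))))))
               (CovZ.n1 (2840, 28680) (by decide +kernel)
                (CovZ.badM (by decide +kernel))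
                (CovZ.badM (by decide +kernel)))))))))))

theorem TE_u180 : CovZ TE_M (toL (selN TE_LN 5358937456157834097640728740533108736)) [0, 7, 6, 1] (2880, 29120) (3040, 29280) (2880, 29440) :=
    (CovZ.n2 (2880, 29280) (by decide +kernel)
             (CovZ.n2 (2960, 29360) (by decide +kernel)
              (CovZ.subM 324518553659607328536972593463296 (by decide +kernel)
               (CovZ.n2 (2960, 29280) (by decide +kernel)
                (CovZ.n2 (2920, 29320) (by decide +kernel)
                 (CovZ.n2 (2960, 29320) (by decide +kernel)
                  (CovZ.n2 (2940, 29300) (by decide +kernel)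
                   (CovZ.n2 (2940, 29320) (by decide +kernel)
                    (CovZ.badM (by decide +kernel))
                    (CovZ.n1 (2930, 29310) (by decide +kernel)
                     (CovZ.leaf K2_ok TE_l10838 _)
                     (CovZ.badM (by decide +kernel))))
                   (CovZ.badM (by decide +kernel)))
                  (CovZ.n1 (2940, 29340) (by decide +kernel)
                   (CovZ.badM (by decide +kernel))
                   (CovZ.n1 (2940, 29320) (by decide +kernel)
                    (CovZ.n2 (2930, 29330) (by decide +kernel)
                     (CovZ.leaf K2_ok TE_l18211 _)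
                     (CovZ.leaf K2_ok TE_l10839 _))
                    (CovZ.badM (by decide +kernel)))))
                 (CovZ.n1 (2920, 29280) (by decide +kernel)
                  (CovZ.n2 (2900, 29300) (by decide +kernel)
                   (CovZ.n2 (2920, 29300) (by decide +kernel)
                    (CovZ.n2 (2910, 29290) (by decide +kernel)
                     (CovZ.leaf K2_ok TE_l10840 _)
                     (CovZ.leaf K2_ok TE_l10841 _))
                    (CovZ.leaf K2_ok TE_l10842 _))
                   (CovZ.n1 (2900, 29280) (by decide +kernel)
                    (CovZ.leaf K2_ok TE_l10843 _)
                    (CovZ.n1 (2910, 29290) (by decide +kernel)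
                     (CovZ.leaf K2_ok TE_l10844 _)
                     (CovZ.leaf K2_ok TE_l10845 _))))
                  (CovZ.n1 (2940, 29300) (by decide +kernel)
                   (CovZ.badM (by decide +kernel))
                   (CovZ.n1 (2920, 29300) (by decide +kernel)
                    (CovZ.n2 (2930, 29310) (by decide +kernel)
                     (CovZ.leaf K2_ok TE_l18212 _)
                     (CovZ.leaf K2_ok TE_l10846 _))
                    (CovZ.leaf K2_ok TE_l18213 _)))))
                (CovZ.badM (by decide +kernel))))
              (CovZ.n1 (2880, 29360) (by decide +kernel)
               (CovZ.n2 (2920, 29400) (by decide +kernel)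
                (CovZ.subM 42025152698767589294125110913925120 (by decide +kernel)
                 (CovZ.n2 (2920, 29360) (by decide +kernel)
                  (CovZ.n2 (2900, 29380) (by decide +kernel)
                   (CovZ.n2 (2920, 29380) (by decide +kernel)
                    (CovZ.n2 (2910, 29370) (by decide +kernel)
                     (CovZ.leaf K2_ok TE_l10847 _)
                     (CovZ.leaf K2_ok TE_l10848 _))
                    (CovZ.leaf K2_ok TE_l10849 _))
                   (CovZ.n1 (2900, 29360) (by decide +kernel)
                    (CovZ.leaf K2_ok TE_l10850 _)
                    (CovZ.n1 (2910, 29370) (by decide +kernel)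
                     (CovZ.leaf K2_ok TE_l10851 _)
                     (CovZ.leaf K2_ok TE_l10852 _))))
                  (CovZ.n1 (2940, 29380) (by decide +kernel)
                   (CovZ.n2 (2940, 29360) (by decide +kernel)
                    (CovZ.leaf K2_ok TE_l10853 _)
                    (CovZ.n1 (2950, 29370) (by decide +kernel)
                     (CovZ.badM (by decide +kernel))
                     (CovZ.leaf K2_ok TE_l10854 _)))
                   (CovZ.n1 (2920, 29380) (by decide +kernel)
                    (CovZ.n2 (2930, 29390) (by decide +kernel)
                     (CovZ.leaf K2_ok TE_l10855 _)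
                     (CovZ.leaf K2_ok TE_l10856 _))
                    (CovZ.leaf K2_ok TE_l10857 _)))))
                (CovZ.n1 (2880, 29400) (by decide +kernel)
                 (CovZ.n2 (2900, 29420) (by decide +kernel)
                  (CovZ.n2 (2900, 29400) (by decide +kernel)
                   (CovZ.leaf K2_ok TE_l10858 _)
                   (CovZ.leaf K2_ok TE_l10859 _))
                  (CovZ.n1 (2880, 29420) (by decide +kernel)
                   (CovZ.leaf K2_ok TE_l10860 _)
                   (CovZ.leaf K2_ok TE_l10861 _)))
                 (CovZ.n1 (2900, 29380) (by decide +kernel)
                  (CovZ.leaf K2_ok TE_l10862 _)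
                  (CovZ.n1 (2900, 29400) (by decide +kernel)
                   (CovZ.leaf K2_ok TE_l10863 _)
                   (CovZ.leaf K2_ok TE_l10864 _)))))
               (CovZ.subM 42025152698767589294125110913925120 (by decide +kernel)
                (CovZ.n1 (2920, 29320) (by decide +kernel)
                 (CovZ.n2 (2880, 29320) (by decide +kernel)
                  (CovZ.n2 (2900, 29340) (by decide +kernel)
                   (CovZ.n2 (2900, 29320) (by decide +kernel)
                    (CovZ.leaf K2_ok TE_l10865 _)
                    (CovZ.n1 (2910, 29330) (by decide +kernel)
                     (CovZ.leaf K2_ok TE_l10866 _)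
                     (CovZ.leaf K2_ok TE_l10867 _)))
                   (CovZ.n1 (2880, 29340) (by decide +kernel)
                    (CovZ.leaf K2_ok TE_l10868 _)
                    (CovZ.leaf K2_ok TE_l10869 _)))
                  (CovZ.n1 (2900, 29300) (by decide +kernel)
                   (CovZ.n2 (2880, 29300) (by decide +kernel)
                    (CovZ.n2 (2890, 29310) (by decide +kernel)
                     (CovZ.leaf K2_ok TE_l10870 _)
                     (CovZ.leaf K2_ok TE_l10871 _))
                    (CovZ.leaf K2_ok TE_l10872 _))
                   (CovZ.n1 (2900, 29320) (by decide +kernel)
                    (CovZ.leaf K2_ok TE_l10873 _)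
                    (CovZ.n1 (2890, 29310) (by decide +kernel)
                     (CovZ.leaf K2_ok TE_l10874 _)
                     (CovZ.leaf K2_ok TE_l10875 _)))))
                 (CovZ.n1 (2920, 29360) (by decide +kernel)
                  (CovZ.subM 324518553659607328536972593463296 (by decide +kernel)
                   (CovZ.n2 (2940, 29340) (by decide +kernel)
                    (CovZ.n2 (2920, 29340) (by decide +kernel)
                     (CovZ.n2 (2930, 29350) (by decide +kernel)
                      (CovZ.leaf K2_ok TE_l10876 _)
                      (CovZ.leaf K2_ok TE_l10877 _))
                     (CovZ.n1 (2930, 29330) (by decide +kernel)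
                      (CovZ.leaf K2_ok TE_l10878 _)
                      (CovZ.leaf K2_ok TE_l10879 _)))
                    (CovZ.n1 (2940, 29360) (by decide +kernel)
                     (CovZ.badM (by decide +kernel))
                     (CovZ.n1 (2930, 29350) (by decide +kernel)
                      (CovZ.leaf K2_ok TE_l10880 _)
                      (CovZ.leaf K2_ok TE_l10881 _)))))
                  (CovZ.n1 (2900, 29340) (by decide +kernel)
                   (CovZ.n2 (2900, 29360) (by decide +kernel)
                    (CovZ.leaf K2_ok TE_l10882 _)
                    (CovZ.leaf K2_ok TE_l10883 _))
                   (CovZ.n1 (2920, 29340) (by decide +kernel)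
                    (CovZ.leaf K2_ok TE_l10884 _)
                    (CovZ.leaf K2_ok TE_l10885 _))))))))
             (CovZ.subM 5317236501695740950582994472064253952 (by decide +kernel)
              (CovZ.n1 (2960, 29200) (by decide +kernel)
               (CovZ.n2 (2880, 29200) (by decide +kernel)
                (CovZ.n2 (2920, 29240) (by decide +kernel)
                 (CovZ.subM 1180592746617318146048 (by decide +kernel)
                  (CovZ.n2 (2920, 29200) (by decide +kernel)
                   (CovZ.n2 (2900, 29220) (by decide +kernel)
                    (CovZ.n2 (2920, 29220) (by decide +kernel)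
                     (CovZ.n2 (2910, 29210) (by decide +kernel)
                      (CovZ.leaf K2_ok TE_l18214 _)
                      (CovZ.badM (by decide +kernel)))
                     (CovZ.n1 (2910, 29230) (by decide +kernel)
                      (CovZ.badM (by decide +kernel))
                      (CovZ.leaf K2_ok TE_l18215 _)))
                    (CovZ.n1 (2900, 29200) (by decide +kernel)
                     (CovZ.leaf K2_ok TE_l10886 _)
                     (CovZ.n1 (2910, 29210) (by decide +kernel)
                      (CovZ.badM (by decide +kernel))
                      (CovZ.leaf K2_ok TE_l18216 _))))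
                   (CovZ.badM (by decide +kernel))))
                 (CovZ.n1 (2880, 29240) (by decide +kernel)
                  (CovZ.n2 (2900, 29260) (by decide +kernel)
                   (CovZ.n2 (2900, 29240) (by decide +kernel)
                    (CovZ.leaf K2_ok TE_l10887 _)
                    (CovZ.n1 (2910, 29250) (by decide +kernel)
                     (CovZ.leaf K2_ok TE_l18217 _)
                     (CovZ.leaf K2_ok TE_l10888 _)))
                   (CovZ.n1 (2880, 29260) (by decide +kernel)
                    (CovZ.n2 (2890, 29270) (by decide +kernel)
                     (CovZ.leaf K2_ok TE_l10889 _)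
                     (CovZ.leaf K2_ok TE_l10890 _))
                    (CovZ.leaf K2_ok TE_l10891 _)))
                  (CovZ.subM 1180601753816572887040 (by decide +kernel)
                   (CovZ.n1 (2900, 29220) (by decide +kernel)
                    (CovZ.n2 (2880, 29220) (by decide +kernel)
                     (CovZ.n2 (2890, 29230) (by decide +kernel)
                      (CovZ.leaf K2_ok TE_l10892 _)
                      (CovZ.leaf K2_ok TE_l10893 _))
                     (CovZ.leaf K2_ok TE_l10894 _))
                    (CovZ.n1 (2900, 29240) (by decide +kernel)
                     (CovZ.n2 (2910, 29230) (by decide +kernel)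
                      (CovZ.leaf K2_ok TE_l18218 _)
                      (CovZ.leaf K2_ok TE_l18219 _))
                     (CovZ.n1 (2890, 29230) (by decide +kernel)
                      (CovZ.leaf K2_ok TE_l10895 _)
                      (CovZ.leaf K2_ok TE_l10896 _)))))))
                (CovZ.subM 5316911983142082523846078216882094080 (by decide +kernel)
                 (CovZ.n1 (2920, 29160) (by decide +kernel)
                  (CovZ.n2 (2880, 29160) (by decide +kernel)
                   (CovZ.n2 (2900, 29180) (by decide +kernel)
                    (CovZ.n2 (2900, 29160) (by decide +kernel)
                     (CovZ.n2 (2890, 29170) (by decide +kernel)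
                      (CovZ.leaf K2_ok TE_l18220 _)
                      (CovZ.leaf K2_ok TE_l18221 _))
                     (CovZ.badM (by decide +kernel)))
                    (CovZ.n1 (2880, 29180) (by decide +kernel)
                     (CovZ.n2 (2890, 29190) (by decide +kernel)
                      (CovZ.leaf K2_ok TE_l10897 _)
                      (CovZ.leaf K2_ok TE_l10898 _))
                     (CovZ.n1 (2890, 29170) (by decide +kernel)
                      (CovZ.leaf K2_ok TE_l10899 _)
                      (CovZ.leaf K2_ok TE_l10900 _))))
                   (CovZ.n1 (2900, 29140) (by decide +kernel)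
                    (CovZ.n2 (2880, 29140) (by decide +kernel)
                     (CovZ.n2 (2890, 29150) (by decide +kernel)
                      (CovZ.leaf K2_ok TE_l18222 _)
                      (CovZ.leaf K2_ok TE_l18223 _))
                     (CovZ.n1 (2890, 29130) (by decide +kernel)
                      (CovZ.leaf K2_ok TE_l18224 _)
                      (CovZ.leaf K2_ok TE_l18225 _)))
                    (CovZ.n1 (2900, 29160) (by decide +kernel)
                     (CovZ.n2 (2910, 29150) (by decide +kernel)
                      (CovZ.leaf K2_ok TE_l18226 _)
                      (CovZ.badM (by decide +kernel)))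
                     (CovZ.n1 (2890, 29150) (by decide +kernel)
                      (CovZ.leaf K2_ok TE_l18227 _)
                      (CovZ.leaf K2_ok TE_l18228 _)))))
                  (CovZ.n1 (2920, 29200) (by decide +kernel)
                   (CovZ.badM (by decide +kernel))
                   (CovZ.n1 (2900, 29180) (by decide +kernel)
                    (CovZ.n2 (2900, 29200) (by decide +kernel)
                     (CovZ.n2 (2910, 29190) (by decide +kernel)
                      (CovZ.leaf K2_ok TE_l18229 _)
                      (CovZ.leaf K2_ok TE_l18230 _))
                     (CovZ.n1 (2890, 29190) (by decide +kernel)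
                      (CovZ.leaf K2_ok TE_l10901 _)
                      (CovZ.leaf K2_ok TE_l18231 _)))
                    (CovZ.badM (by decide +kernel)))))))
               (CovZ.n1 (2960, 29280) (by decide +kernel)
                (CovZ.badM (by decide +kernel))
                (CovZ.n1 (2920, 29240) (by decide +kernel)
                 (CovZ.n2 (2920, 29280) (by decide +kernel)
                  (CovZ.badM (by decide +kernel))
                  (CovZ.n1 (2900, 29260) (by decide +kernel)
                   (CovZ.n2 (2900, 29280) (by decide +kernel)
                    (CovZ.n2 (2910, 29270) (by decide +kernel)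
                     (CovZ.leaf K2_ok TE_l10902 _)
                     (CovZ.leaf K2_ok TE_l10903 _))
                    (CovZ.n1 (2890, 29270) (by decide +kernel)
                     (CovZ.leaf K2_ok TE_l10904 _)
                     (CovZ.leaf K2_ok TE_l10905 _)))
                   (CovZ.subM 1180592746617318146048 (by decide +kernel)
                    (CovZ.n1 (2920, 29260) (by decide +kernel)
                     (CovZ.n2 (2910, 29250) (by decide +kernel)
                      (CovZ.leaf K2_ok TE_l10906 _)
                      (CovZ.leaf K2_ok TE_l18232 _))
                     (CovZ.n1 (2910, 29270) (by decide +kernel)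
                      (CovZ.leaf K2_ok TE_l18233 _)
                      (CovZ.leaf K2_ok TE_l10907 _))))))
                 (CovZ.badM (by decide +kernel)))))))

theorem TE_u181 : CovZ TE_M (toL (selN TE_LN 5358937456157834097640728740533108736)) [0, 7, 6, 1] (3040, 29280) (3200, 29440) (2880, 29440) :=
    (CovZ.n1 (3040, 29440) (by decide +kernel)
             (CovZ.badM (by decide +kernel))
             (CovZ.n1 (2960, 29360) (by decide +kernel)
              (CovZ.n2 (2960, 29440) (by decide +kernel)
               (CovZ.badM (by decide +kernel))
               (CovZ.n1 (2920, 29400) (by decide +kernel)
                (CovZ.n2 (2920, 29440) (by decide +kernel)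
                 (CovZ.subM 41862893421938375930733532903636992 (by decide +kernel)
                  (CovZ.n2 (2940, 29420) (by decide +kernel)
                   (CovZ.n2 (2920, 29420) (by decide +kernel)
                    (CovZ.n2 (2930, 29430) (by decide +kernel)
                     (CovZ.leaf K2_ok TE_l10910 _)
                     (CovZ.leaf K2_ok TE_l10911 _))
                    (CovZ.leaf K2_ok TE_l10912 _))
                   (CovZ.n1 (2940, 29440) (by decide +kernel)
                    (CovZ.leaf K2_ok TE_l10913 _)
                    (CovZ.n1 (2930, 29430) (by decide +kernel)
                     (CovZ.leaf K2_ok TE_l10914 _)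
                     (CovZ.leaf K2_ok TE_l10915 _)))))
                 (CovZ.n1 (2900, 29420) (by decide +kernel)
                  (CovZ.n2 (2900, 29440) (by decide +kernel)
                   (CovZ.leaf K2_ok TE_l10916 _)
                   (CovZ.leaf K2_ok TE_l10917 _))
                  (CovZ.n1 (2920, 29420) (by decide +kernel)
                   (CovZ.n2 (2910, 29410) (by decide +kernel)
                    (CovZ.leaf K2_ok TE_l10918 _)
                    (CovZ.leaf K2_ok TE_l10919 _))
                   (CovZ.leaf K2_ok TE_l10920 _))))
                (CovZ.subM 41862893421938375930733532903636992 (by decide +kernel)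
                 (CovZ.n1 (2960, 29400) (by decide +kernel)
                  (CovZ.n2 (2940, 29380) (by decide +kernel)
                   (CovZ.n2 (2940, 29400) (by decide +kernel)
                    (CovZ.n2 (2950, 29390) (by decide +kernel)
                     (CovZ.leaf K2_ok TE_l10921 _)
                     (CovZ.leaf K2_ok TE_l10922 _))
                    (CovZ.n1 (2930, 29390) (by decide +kernel)
                     (CovZ.leaf K2_ok TE_l10923 _)
                     (CovZ.leaf K2_ok TE_l10924 _)))
                   (CovZ.subM 1125899906842624 (by decide +kernel)
                    (CovZ.n1 (2960, 29380) (by decide +kernel)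
                     (CovZ.n2 (2950, 29370) (by decide +kernel)
                      (CovZ.leaf K2_ok TE_l10925 _)
                      (CovZ.badM (by decide +kernel)))
                     (CovZ.n1 (2950, 29390) (by decide +kernel)
                      (CovZ.badM (by decide +kernel))
                      (CovZ.leaf K2_ok TE_l10926 _)))))
                  (CovZ.n1 (2940, 29420) (by decide +kernel)
                   (CovZ.n2 (2960, 29420) (by decide +kernel)
                    (CovZ.n2 (2950, 29410) (by decide +kernel)
                     (CovZ.leaf K2_ok TE_l10927 _)
                     (CovZ.leaf K2_ok TE_l10928 _))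
                    (CovZ.leaf K2_ok TE_l10929 _))
                   (CovZ.n1 (2940, 29400) (by decide +kernel)
                    (CovZ.leaf K2_ok TE_l10930 _)
                    (CovZ.n1 (2950, 29410) (by decide +kernel)
                     (CovZ.leaf K2_ok TE_l10931 _)
                     (CovZ.leaf K2_ok TE_l10932 _))))))))
              (CovZ.badM (by decide +kernel))))

theorem TE_u182 : CovZ TE_M (toL (selN TE_LN 4130354615335595422831036339535111991445306033217944319688770)) [0, 7, 6, 1] (2560, 29440) (2720, 29280) (2880, 29440) :=
    (CovZ.n2 (2720, 29440) (by decide +kernel)
            (CovZ.subM 21673437914426501793296000867852491739777727593816522754 (by decide +kernel)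
             (CovZ.n2 (2800, 29360) (by decide +kernel)
              (CovZ.n2 (2720, 29360) (by decide +kernel)
               (CovZ.n2 (2760, 29400) (by decide +kernel)
                (CovZ.n2 (2760, 29360) (by decide +kernel)
                 (CovZ.leaf K2_ok TE_l10933 _)
                 (CovZ.n1 (2780, 29380) (by decide +kernel)
                  (CovZ.leaf K2_ok TE_l10934 _)
                  (CovZ.leaf K2_ok TE_l10935 _)))
                (CovZ.n1 (2720, 29400) (by decide +kernel)
                 (CovZ.leaf K2_ok TE_l10936 _)
                 (CovZ.leaf K2_ok TE_l10937 _)))
               (CovZ.n1 (2760, 29320) (by decide +kernel)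
                (CovZ.n2 (2720, 29320) (by decide +kernel)
                 (CovZ.n2 (2740, 29340) (by decide +kernel)
                  (CovZ.leaf K2_ok TE_l10938 _)
                  (CovZ.leaf K2_ok TE_l10939 _))
                 (CovZ.leaf K2_ok TE_l10940 _))
                (CovZ.n1 (2760, 29360) (by decide +kernel)
                 (CovZ.leaf K2_ok TE_l10941 _)
                 (CovZ.n1 (2740, 29340) (by decide +kernel)
                  (CovZ.leaf K2_ok TE_l10942 _)
                  (CovZ.leaf K2_ok TE_l10943 _)))))
              (CovZ.n1 (2800, 29440) (by decide +kernel)
               (CovZ.subM 2993155353253689218506775538441077613382614544023554 (by decide +kernel)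
                (CovZ.n2 (2840, 29400) (by decide +kernel)
                 (CovZ.n2 (2800, 29400) (by decide +kernel)
                  (CovZ.n2 (2820, 29420) (by decide +kernel)
                   (CovZ.leaf K2_ok TE_l10944 _)
                   (CovZ.leaf K2_ok TE_l10945 _))
                  (CovZ.leaf K2_ok TE_l10946 _))
                 (CovZ.n1 (2840, 29440) (by decide +kernel)
                  (CovZ.n2 (2860, 29420) (by decide +kernel)
                   (CovZ.leaf K2_ok TE_l10947 _)
                   (CovZ.leaf K2_ok TE_l10948 _))
                  (CovZ.n1 (2820, 29420) (by decide +kernel)
                   (CovZ.leaf K2_ok TE_l10949 _)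
                   (CovZ.leaf K2_ok TE_l10950 _)))))
               (CovZ.n1 (2760, 29400) (by decide +kernel)
                (CovZ.n2 (2760, 29440) (by decide +kernel)
                 (CovZ.leaf K2_ok TE_l10951 _)
                 (CovZ.leaf K2_ok TE_l10952 _))
                (CovZ.n1 (2800, 29400) (by decide +kernel)
                 (CovZ.n2 (2780, 29380) (by decide +kernel)
                  (CovZ.leaf K2_ok TE_l10953 _)
                  (CovZ.leaf K2_ok TE_l10954 _))
                 (CovZ.leaf K2_ok TE_l10955 _))))))
            (CovZ.n1 (2640, 29360) (by decide +kernel)
             (CovZ.n2 (2640, 29440) (by decide +kernel)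
              (CovZ.n2 (2680, 29400) (by decide +kernel)
               (CovZ.leaf K2_ok TE_l10956 _)
               (CovZ.n1 (2680, 29440) (by decide +kernel)
                (CovZ.leaf K2_ok TE_l10957 _)
                (CovZ.leaf K2_ok TE_l10958 _)))
              (CovZ.n1 (2600, 29400) (by decide +kernel)
               (CovZ.leaf K2_ok TE_l10959 _)
               (CovZ.leaf K2_ok TE_l10960 _)))
             (CovZ.n1 (2720, 29360) (by decide +kernel)
              (CovZ.n2 (2680, 29320) (by decide +kernel)
               (CovZ.n2 (2680, 29360) (by decide +kernel)
                (CovZ.leaf K2_ok TE_l10961 _)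
                (CovZ.leaf K2_ok TE_l10962 _))
               (CovZ.n1 (2720, 29320) (by decide +kernel)
                (CovZ.leaf K2_ok TE_l10963 _)
                (CovZ.leaf K2_ok TE_l10964 _)))
              (CovZ.n1 (2680, 29400) (by decide +kernel)
               (CovZ.n2 (2720, 29400) (by decide +kernel)
                (CovZ.leaf K2_ok TE_l10965 _)
                (CovZ.leaf K2_ok TE_l10966 _))
               (CovZ.n1 (2680, 29360) (by decide +kernel)
                (CovZ.leaf K2_ok TE_l10967 _)
                (CovZ.leaf K2_ok TE_l10968 _))))))

theorem TE_u183 : CovZ TE_M (toL (selN TE_LN 4130354615335595422831036339535111991445306033217944319688770)) [0, 7, 6, 1] (2720, 29280) (2880, 29120) (2880, 29440) :=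
    (CovZ.subM 21673437914426501798612912853315710656692273108723171330 (by decide +kernel)
            (CovZ.n1 (2880, 29280) (by decide +kernel)
             (CovZ.n2 (2800, 29200) (by decide +kernel)
              (CovZ.n2 (2800, 29280) (by decide +kernel)
               (CovZ.subM 2993155353253689218506300169461269660874183635107840 (by decide +kernel)
                (CovZ.n2 (2840, 29240) (by decide +kernel)
                 (CovZ.n2 (2800, 29240) (by decide +kernel)
                  (CovZ.n2 (2820, 29260) (by decide +kernel)
                   (CovZ.leaf K2_ok TE_l10969 _)
                   (CovZ.leaf K2_ok TE_l10970 _))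
                  (CovZ.n1 (2820, 29220) (by decide +kernel)
                   (CovZ.leaf K2_ok TE_l10971 _)
                   (CovZ.leaf K2_ok TE_l10972 _)))
                 (CovZ.n1 (2840, 29280) (by decide +kernel)
                  (CovZ.n2 (2860, 29260) (by decide +kernel)
                   (CovZ.n2 (2840, 29260) (by decide +kernel)
                    (CovZ.leaf K2_ok TE_l10973 _)
                    (CovZ.leaf K2_ok TE_l10974 _))
                   (CovZ.n1 (2860, 29280) (by decide +kernel)
                    (CovZ.leaf K2_ok TE_l10975 _)
                    (CovZ.leaf K2_ok TE_l10976 _)))
                  (CovZ.n1 (2820, 29260) (by decide +kernel)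
                   (CovZ.leaf K2_ok TE_l10977 _)
                   (CovZ.leaf K2_ok TE_l10978 _)))))
               (CovZ.n1 (2760, 29240) (by decide +kernel)
                (CovZ.n2 (2760, 29280) (by decide +kernel)
                 (CovZ.n2 (2780, 29260) (by decide +kernel)
                  (CovZ.leaf K2_ok TE_l10979 _)
                  (CovZ.leaf K2_ok TE_l10980 _))
                 (CovZ.n1 (2740, 29260) (by decide +kernel)
                  (CovZ.leaf K2_ok TE_l10981 _)
                  (CovZ.leaf K2_ok TE_l10982 _)))
                (CovZ.n1 (2800, 29240) (by decide +kernel)
                 (CovZ.n2 (2780, 29220) (by decide +kernel)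
                  (CovZ.leaf K2_ok TE_l10983 _)
                  (CovZ.leaf K2_ok TE_l10984 _))
                 (CovZ.n1 (2780, 29260) (by decide +kernel)
                  (CovZ.leaf K2_ok TE_l10985 _)
                  (CovZ.leaf K2_ok TE_l10986 _)))))
              (CovZ.subM 2993155353253694535418283306706909636873166407073792 (by decide +kernel)
               (CovZ.n1 (2880, 29200) (by decide +kernel)
                (CovZ.n2 (2840, 29160) (by decide +kernel)
                 (CovZ.n2 (2840, 29200) (by decide +kernel)
                  (CovZ.n2 (2860, 29180) (by decide +kernel)
                   (CovZ.n2 (2840, 29180) (by decide +kernel)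
                    (CovZ.leaf K2_ok TE_l10987 _)
                    (CovZ.leaf K2_ok TE_l10988 _))
                   (CovZ.n1 (2860, 29200) (by decide +kernel)
                    (CovZ.leaf K2_ok TE_l10989 _)
                    (CovZ.n1 (2850, 29190) (by decide +kernel)
                     (CovZ.leaf K2_ok TE_l10990 _)
                     (CovZ.leaf K2_ok TE_l10991 _))))
                  (CovZ.n1 (2820, 29180) (by decide +kernel)
                   (CovZ.n2 (2820, 29200) (by decide +kernel)
                    (CovZ.leaf K2_ok TE_l10992 _)
                    (CovZ.leaf K2_ok TE_l10993 _))
                   (CovZ.n1 (2840, 29180) (by decide +kernel)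
                    (CovZ.leaf K2_ok TE_l10994 _)
                    (CovZ.leaf K2_ok TE_l10995 _))))
                 (CovZ.subM 5317398760972570163945260150167699456 (by decide +kernel)
                  (CovZ.n1 (2880, 29160) (by decide +kernel)
                   (CovZ.n2 (2860, 29140) (by decide +kernel)
                    (CovZ.n2 (2860, 29160) (by decide +kernel)
                     (CovZ.leaf K2_ok TE_l10996 _)
                     (CovZ.leaf K2_ok TE_l10997 _))
                    (CovZ.n1 (2880, 29140) (by decide +kernel)
                     (CovZ.n2 (2870, 29130) (by decide +kernel)
                      (CovZ.leaf K2_ok TE_l10998 _)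
                      (CovZ.leaf K2_ok TE_l18234 _))
                     (CovZ.leaf K2_ok TE_l10999 _)))
                   (CovZ.n1 (2860, 29180) (by decide +kernel)
                    (CovZ.subM 5316911983139664672215856157787422720 (by decide +kernel)
                     (CovZ.n2 (2880, 29180) (by decide +kernel)
                      (CovZ.n2 (2870, 29170) (by decide +kernel)
                       (CovZ.leaf K2_ok TE_l11000 _)
                       (CovZ.leaf K2_ok TE_l11001 _))
                      (CovZ.n1 (2870, 29190) (by decide +kernel)
                       (CovZ.leaf K2_ok TE_l11002 _)
                       (CovZ.leaf K2_ok TE_l11003 _))))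
                    (CovZ.n1 (2860, 29160) (by decide +kernel)
                     (CovZ.leaf K2_ok TE_l11004 _)
                     (CovZ.n1 (2870, 29170) (by decide +kernel)
                      (CovZ.leaf K2_ok TE_l11005 _)
                      (CovZ.leaf K2_ok TE_l11006 _)))))))
                (CovZ.n1 (2840, 29240) (by decide +kernel)
                 (CovZ.n2 (2880, 29240) (by decide +kernel)
                  (CovZ.n2 (2860, 29220) (by decide +kernel)
                   (CovZ.n2 (2860, 29240) (by decide +kernel)
                    (CovZ.leaf K2_ok TE_l11007 _)
                    (CovZ.leaf K2_ok TE_l11008 _))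
                   (CovZ.n1 (2880, 29220) (by decide +kernel)
                    (CovZ.n2 (2870, 29210) (by decide +kernel)
                     (CovZ.leaf K2_ok TE_l11009 _)
                     (CovZ.leaf K2_ok TE_l11010 _))
                    (CovZ.leaf K2_ok TE_l11011 _)))
                  (CovZ.n1 (2860, 29260) (by decide +kernel)
                   (CovZ.n2 (2880, 29260) (by decide +kernel)
                    (CovZ.n2 (2870, 29250) (by decide +kernel)
                     (CovZ.leaf K2_ok TE_l11012 _)
                     (CovZ.leaf K2_ok TE_l11013 _))
                    (CovZ.leaf K2_ok TE_l11014 _))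
                   (CovZ.n1 (2860, 29240) (by decide +kernel)
                    (CovZ.leaf K2_ok TE_l11015 _)
                    (CovZ.leaf K2_ok TE_l11016 _))))
                 (CovZ.n1 (2840, 29200) (by decide +kernel)
                  (CovZ.n2 (2820, 29220) (by decide +kernel)
                   (CovZ.n2 (2840, 29220) (by decide +kernel)
                    (CovZ.leaf K2_ok TE_l11017 _)
                    (CovZ.leaf K2_ok TE_l11018 _))
                   (CovZ.leaf K2_ok TE_l11019 _))
                  (CovZ.n1 (2860, 29220) (by decide +kernel)
                   (CovZ.n2 (2860, 29200) (by decide +kernel)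
                    (CovZ.leaf K2_ok TE_l11020 _)
                    (CovZ.n1 (2870, 29210) (by decide +kernel)
                     (CovZ.leaf K2_ok TE_l11021 _)
                     (CovZ.leaf K2_ok TE_l11022 _)))
                   (CovZ.n1 (2840, 29220) (by decide +kernel)
                    (CovZ.leaf K2_ok TE_l11023 _)
                    (CovZ.leaf K2_ok TE_l11024 _))))))))
             (CovZ.n1 (2800, 29360) (by decide +kernel)
              (CovZ.subM 2993155353253689218506617082116049084707427456122880 (by decide +kernel)
               (CovZ.n2 (2880, 29360) (by decide +kernel)
                (CovZ.n2 (2840, 29320) (by decide +kernel)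
                 (CovZ.n2 (2840, 29360) (by decide +kernel)
                  (CovZ.n2 (2860, 29340) (by decide +kernel)
                   (CovZ.leaf K2_ok TE_l11025 _)
                   (CovZ.leaf K2_ok TE_l11026 _))
                  (CovZ.n1 (2820, 29340) (by decide +kernel)
                   (CovZ.leaf K2_ok TE_l11027 _)
                   (CovZ.leaf K2_ok TE_l11028 _)))
                 (CovZ.n1 (2880, 29320) (by decide +kernel)
                  (CovZ.n2 (2860, 29300) (by decide +kernel)
                   (CovZ.n2 (2860, 29320) (by decide +kernel)
                    (CovZ.leaf K2_ok TE_l11029 _)
                    (CovZ.leaf K2_ok TE_l11030 _))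
                   (CovZ.n1 (2880, 29300) (by decide +kernel)
                    (CovZ.leaf K2_ok TE_l11031 _)
                    (CovZ.leaf K2_ok TE_l11032 _)))
                  (CovZ.n1 (2860, 29340) (by decide +kernel)
                   (CovZ.leaf K2_ok TE_l11033 _)
                   (CovZ.n1 (2860, 29320) (by decide +kernel)
                    (CovZ.leaf K2_ok TE_l11034 _)
                    (CovZ.leaf K2_ok TE_l11035 _)))))
                (CovZ.n1 (2840, 29400) (by decide +kernel)
                 (CovZ.n2 (2880, 29400) (by decide +kernel)
                  (CovZ.n2 (2860, 29380) (by decide +kernel)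
                   (CovZ.n2 (2860, 29400) (by decide +kernel)
                    (CovZ.leaf K2_ok TE_l11036 _)
                    (CovZ.leaf K2_ok TE_l11037 _))
                   (CovZ.n1 (2880, 29380) (by decide +kernel)
                    (CovZ.leaf K2_ok TE_l11038 _)
                    (CovZ.leaf K2_ok TE_l11039 _)))
                  (CovZ.n1 (2860, 29420) (by decide +kernel)
                   (CovZ.leaf K2_ok TE_l11040 _)
                   (CovZ.leaf K2_ok TE_l11041 _)))
                 (CovZ.n1 (2840, 29360) (by decide +kernel)
                  (CovZ.n2 (2820, 29380) (by decide +kernel)
                   (CovZ.leaf K2_ok TE_l11042 _)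
                   (CovZ.leaf K2_ok TE_l11043 _))
                  (CovZ.n1 (2860, 29380) (by decide +kernel)
                   (CovZ.leaf K2_ok TE_l11044 _)
                   (CovZ.leaf K2_ok TE_l11045 _))))))
              (CovZ.n1 (2800, 29280) (by decide +kernel)
               (CovZ.n2 (2760, 29320) (by decide +kernel)
                (CovZ.n2 (2800, 29320) (by decide +kernel)
                 (CovZ.n2 (2780, 29300) (by decide +kernel)
                  (CovZ.leaf K2_ok TE_l11046 _)
                  (CovZ.leaf K2_ok TE_l11047 _))
                 (CovZ.leaf K2_ok TE_l11048 _))
                (CovZ.n1 (2760, 29280) (by decide +kernel)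
                 (CovZ.leaf K2_ok TE_l11049 _)
                 (CovZ.n1 (2780, 29300) (by decide +kernel)
                  (CovZ.leaf K2_ok TE_l11050 _)
                  (CovZ.leaf K2_ok TE_l11051 _))))
               (CovZ.subM 2993155353253689218506617082116049084707427456122880 (by decide +kernel)
                (CovZ.n1 (2840, 29320) (by decide +kernel)
                 (CovZ.n2 (2840, 29280) (by decide +kernel)
                  (CovZ.n2 (2820, 29300) (by decide +kernel)
                   (CovZ.n2 (2840, 29300) (by decide +kernel)
                    (CovZ.leaf K2_ok TE_l11052 _)
                    (CovZ.leaf K2_ok TE_l11053 _))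
                   (CovZ.leaf K2_ok TE_l11054 _))
                  (CovZ.n1 (2860, 29300) (by decide +kernel)
                   (CovZ.n2 (2860, 29280) (by decide +kernel)
                    (CovZ.leaf K2_ok TE_l11055 _)
                    (CovZ.leaf K2_ok TE_l11056 _))
                   (CovZ.leaf K2_ok TE_l11057 _)))
                 (CovZ.n1 (2800, 29320) (by decide +kernel)
                  (CovZ.n2 (2820, 29340) (by decide +kernel)
                   (CovZ.leaf K2_ok TE_l11058 _)
                   (CovZ.leaf K2_ok TE_l11059 _))
                  (CovZ.n1 (2820, 29300) (by decide +kernel)
                   (CovZ.leaf K2_ok TE_l11060 _)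
                   (CovZ.leaf K2_ok TE_l11061 _)))))))))

theorem TE_u184 : CovZ TE_M (toL (selN TE_LN 231381897277883153819689159971962946)) [0, 7, 6, 1] (3520, 30400) (3360, 30560) (3200, 30400) :=
    (CovZ.subM 41863052037841612648539771052752898 (by decide +kernel)
             (CovZ.n2 (3360, 30400) (by decide +kernel)
              (CovZ.n2 (3280, 30480) (by decide +kernel)
               (CovZ.subM 41862893576679700248659449947881472 (by decide +kernel)
                (CovZ.n2 (3360, 30480) (by decide +kernel)
                 (CovZ.n2 (3320, 30440) (by decide +kernel)
                  (CovZ.n2 (3320, 30480) (by decide +kernel)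
                   (CovZ.badM (by decide +kernel))
                   (CovZ.n1 (3300, 30460) (by decide +kernel)
                    (CovZ.n2 (3300, 30480) (by decide +kernel)
                     (CovZ.leaf K2_ok TE_l11062 _)
                     (CovZ.n1 (3290, 30470) (by decide +kernel)
                      (CovZ.leaf K2_ok TE_l11063 _)
                      (CovZ.leaf K2_ok TE_l11064 _)))
                    (CovZ.n1 (3320, 30460) (by decide +kernel)
                     (CovZ.n2 (3310, 30450) (by decide +kernel)
                      (CovZ.leaf K2_ok TE_l18235 _)
                      (CovZ.badM (by decide +kernel)))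
                     (CovZ.leaf K2_ok TE_l18236 _))))
                  (CovZ.badM (by decide +kernel)))
                 (CovZ.n1 (3320, 30520) (by decide +kernel)
                  (CovZ.n2 (3360, 30520) (by decide +kernel)
                   (CovZ.n2 (3340, 30500) (by decide +kernel)
                    (CovZ.n2 (3340, 30520) (by decide +kernel)
                     (CovZ.badM (by decide +kernel))
                     (CovZ.n1 (3330, 30510) (by decide +kernel)
                      (CovZ.leaf K2_ok TE_l18237 _)
                      (CovZ.badM (by decide +kernel))))
                    (CovZ.badM (by decide +kernel)))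
                   (CovZ.n1 (3340, 30540) (by decide +kernel)
                    (CovZ.badM (by decide +kernel))
                    (CovZ.n1 (3340, 30520) (by decide +kernel)
                     (CovZ.n2 (3330, 30530) (by decide +kernel)
                      (CovZ.badM (by decide +kernel))
                      (CovZ.leaf K2_ok TE_l11069 _))
                     (CovZ.badM (by decide +kernel)))))
                  (CovZ.n1 (3320, 30480) (by decide +kernel)
                   (CovZ.n2 (3300, 30500) (by decide +kernel)
                    (CovZ.n2 (3320, 30500) (by decide +kernel)
                     (CovZ.n2 (3310, 30490) (by decide +kernel)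
                      (CovZ.leaf K2_ok TE_l11072 _)
                      (CovZ.leaf K2_ok TE_l18238 _))
                     (CovZ.leaf K2_ok TE_l11073 _))
                    (CovZ.n1 (3300, 30480) (by decide +kernel)
                     (CovZ.leaf K2_ok TE_l11074 _)
                     (CovZ.n1 (3310, 30490) (by decide +kernel)
                      (CovZ.leaf K2_ok TE_l11075 _)
                      (CovZ.leaf K2_ok TE_l11076 _))))
                   (CovZ.n1 (3340, 30500) (by decide +kernel)
                    (CovZ.badM (by decide +kernel))
                    (CovZ.n1 (3320, 30500) (by decide +kernel)
                     (CovZ.n2 (3330, 30510) (by decide +kernel)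
                      (CovZ.badM (by decide +kernel))
                      (CovZ.leaf K2_ok TE_l18239 _))
                     (CovZ.badM (by decide +kernel))))))))
               (CovZ.n1 (3280, 30400) (by decide +kernel)
                (CovZ.n2 (3240, 30440) (by decide +kernel)
                 (CovZ.n2 (3280, 30440) (by decide +kernel)
                  (CovZ.n2 (3260, 30420) (by decide +kernel)
                   (CovZ.n2 (3260, 30440) (by decide +kernel)
                    (CovZ.leaf K2_ok TE_l11077 _)
                    (CovZ.leaf K2_ok TE_l11078 _))
                   (CovZ.n1 (3280, 30420) (by decide +kernel)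
                    (CovZ.n2 (3270, 30410) (by decide +kernel)
                     (CovZ.leaf K2_ok TE_l11079 _)
                     (CovZ.leaf K2_ok TE_l11080 _))
                    (CovZ.leaf K2_ok TE_l11081 _)))
                  (CovZ.n1 (3260, 30460) (by decide +kernel)
                   (CovZ.n2 (3280, 30460) (by decide +kernel)
                    (CovZ.n2 (3270, 30450) (by decide +kernel)
                     (CovZ.leaf K2_ok TE_l11082 _)
                     (CovZ.leaf K2_ok TE_l11083 _))
                    (CovZ.leaf K2_ok TE_l11084 _))
                   (CovZ.n1 (3260, 30440) (by decide +kernel)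
                    (CovZ.leaf K2_ok TE_l11085 _)
                    (CovZ.leaf K2_ok TE_l11086 _))))
                 (CovZ.n1 (3240, 30400) (by decide +kernel)
                  (CovZ.n2 (3220, 30420) (by decide +kernel)
                   (CovZ.n2 (3240, 30420) (by decide +kernel)
                    (CovZ.leaf K2_ok TE_l11087 _)
                    (CovZ.leaf K2_ok TE_l11088 _))
                   (CovZ.n1 (3220, 30400) (by decide +kernel)
                    (CovZ.leaf K2_ok TE_l11089 _)
                    (CovZ.leaf K2_ok TE_l11090 _)))
                  (CovZ.n1 (3260, 30420) (by decide +kernel)
                   (CovZ.n2 (3260, 30400) (by decide +kernel)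
                    (CovZ.leaf K2_ok TE_l11091 _)
                    (CovZ.n1 (3270, 30410) (by decide +kernel)
                     (CovZ.leaf K2_ok TE_l11092 _)
                     (CovZ.leaf K2_ok TE_l11093 _)))
                   (CovZ.n1 (3240, 30420) (by decide +kernel)
                    (CovZ.leaf K2_ok TE_l11094 _)
                    (CovZ.leaf K2_ok TE_l11095 _)))))
                (CovZ.subM 41862893576679700248659449947881472 (by decide +kernel)
                 (CovZ.n1 (3320, 30440) (by decide +kernel)
                  (CovZ.n2 (3320, 30400) (by decide +kernel)
                   (CovZ.n2 (3300, 30420) (by decide +kernel)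
                    (CovZ.badM (by decide +kernel))
                    (CovZ.n1 (3300, 30400) (by decide +kernel)
                     (CovZ.n2 (3290, 30410) (by decide +kernel)
                      (CovZ.badM (by decide +kernel))
                      (CovZ.leaf K2_ok TE_l18240 _))
                     (CovZ.badM (by decide +kernel))))
                   (CovZ.badM (by decide +kernel)))
                  (CovZ.n1 (3280, 30440) (by decide +kernel)
                   (CovZ.n2 (3300, 30460) (by decide +kernel)
                    (CovZ.n2 (3300, 30440) (by decide +kernel)
                     (CovZ.n2 (3290, 30450) (by decide +kernel)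
                      (CovZ.leaf K2_ok TE_l11096 _)
                      (CovZ.leaf K2_ok TE_l11097 _))
                     (CovZ.n1 (3310, 30450) (by decide +kernel)
                      (CovZ.badM (by decide +kernel))
                      (CovZ.leaf K2_ok TE_l18241 _)))
                    (CovZ.n1 (3280, 30460) (by decide +kernel)
                     (CovZ.n2 (3290, 30470) (by decide +kernel)
                      (CovZ.leaf K2_ok TE_l11098 _)
                      (CovZ.leaf K2_ok TE_l11099 _))
                     (CovZ.n1 (3290, 30450) (by decide +kernel)
                      (CovZ.leaf K2_ok TE_l11100 _)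
                      (CovZ.leaf K2_ok TE_l11101 _))))
                   (CovZ.n1 (3300, 30420) (by decide +kernel)
                    (CovZ.n2 (3280, 30420) (by decide +kernel)
                     (CovZ.n2 (3290, 30430) (by decide +kernel)
                      (CovZ.leaf K2_ok TE_l11102 _)
                      (CovZ.leaf K2_ok TE_l11103 _))
                     (CovZ.n1 (3290, 30410) (by decide +kernel)
                      (CovZ.leaf K2_ok TE_l11104 _)
                      (CovZ.leaf K2_ok TE_l11105 _)))
                    (CovZ.n1 (3300, 30440) (by decide +kernel)
                     (CovZ.badM (by decide +kernel))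
                     (CovZ.n1 (3290, 30430) (by decide +kernel)
                      (CovZ.leaf K2_ok TE_l11106 _)
                      (CovZ.leaf K2_ok TE_l18242 _)))))))))
              (CovZ.badM (by decide +kernel))))

end Pool.Agent.TET
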