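import Pool.Agent.Helper38_TET.TE_M
import Pool.Agent.Helper38_TET.TE_L
import Pool.Agent.Helper38_TET.TE_74
import Pool.Agent.Helper38_TET.TE_75
import Pool.Agent.Helper38_TET.TE_76
import Pool.Agent.Helper38_TET.TE_77
import Pool.Agent.Helper38_TET.TE_94
import Pool.Agent.Helper38_TET.TE_95
import Pool.Agent.Helper38_TET.TE_96
import Pool.Agent.Helper38_TET.TE_122
import Pool.Agent.Helper38_TET.TE_124
import Pool.Agent.Helper38_TET.TE_125
import Pool.Agent.Helper38_TET.TE_126
import Pool.Agent.Helper38_TET.TE_U11

/-!
# MP_c7c9bf_co: certificates, family TE
-/

set_option autoImplicit false
set_option maxRecDepth 100000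

namespace Pool.Agent.TET

theorem TE_u185 : CovZ TE_M (toL (selN TE_LN 231381897277883153819689159971962946)) [0, 7, 6, 1] (3360, 30560) (3200, 30720) (3200, 30400) :=
    (CovZ.n1 (3200, 30560) (by decide +kernel)
             (CovZ.n2 (3280, 30640) (by decide +kernel)
              (CovZ.n2 (3280, 30560) (by decide +kernel)
               (CovZ.n2 (3240, 30600) (by decide +kernel)
                (CovZ.n2 (3280, 30600) (by decide +kernel)
                 (CovZ.n2 (3260, 30580) (by decide +kernel)
                  (CovZ.leaf K2_ok TE_l11107 _)
                  (CovZ.n1 (3280, 30580) (by decide +kernel)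
                   (CovZ.leaf K2_ok TE_l11108 _)
                   (CovZ.leaf K2_ok TE_l11109 _)))
                 (CovZ.n1 (3260, 30620) (by decide +kernel)
                  (CovZ.leaf K2_ok TE_l11110 _)
                  (CovZ.leaf K2_ok TE_l11111 _)))
                (CovZ.n1 (3240, 30560) (by decide +kernel)
                 (CovZ.n2 (3220, 30580) (by decide +kernel)
                  (CovZ.leaf K2_ok TE_l11112 _)
                  (CovZ.leaf K2_ok TE_l11113 _))
                 (CovZ.n1 (3260, 30580) (by decide +kernel)
                  (CovZ.leaf K2_ok TE_l11114 _)
                  (CovZ.leaf K2_ok TE_l11115 _))))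
               (CovZ.n1 (3320, 30600) (by decide +kernel)
                (CovZ.subM 208016551510956096760389753680953346 (by decide +kernel)
                 (CovZ.n2 (3320, 30560) (by decide +kernel)
                  (CovZ.n2 (3300, 30580) (by decide +kernel)
                   (CovZ.n2 (3320, 30580) (by decide +kernel)
                    (CovZ.leaf K2_ok TE_l11116 _)
                    (CovZ.leaf K2_ok TE_l11117 _))
                   (CovZ.n1 (3300, 30560) (by decide +kernel)
                    (CovZ.leaf K2_ok TE_l11118 _)
                    (CovZ.n1 (3310, 30570) (by decide +kernel)
                     (CovZ.leaf K2_ok TE_l11119 _)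
                     (CovZ.leaf K2_ok TE_l11120 _))))
                  (CovZ.subM 41863052033004728777334637035782144 (by decide +kernel)
                   (CovZ.n1 (3340, 30580) (by decide +kernel)
                    (CovZ.n2 (3340, 30560) (by decide +kernel)
                     (CovZ.leaf K2_ok TE_l11121 _)
                     (CovZ.n1 (3350, 30570) (by decide +kernel)
                      (CovZ.badM (by decide +kernel))
                      (CovZ.leaf K2_ok TE_l11123 _)))
                    (CovZ.n1 (3320, 30580) (by decide +kernel)
                     (CovZ.n2 (3330, 30590) (by decide +kernel)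
                      (CovZ.leaf K2_ok TE_l11124 _)
                      (CovZ.leaf K2_ok TE_l11125 _))
                     (CovZ.leaf K2_ok TE_l11126 _))))))
                (CovZ.n1 (3280, 30600) (by decide +kernel)
                 (CovZ.n2 (3300, 30620) (by decide +kernel)
                  (CovZ.n2 (3300, 30600) (by decide +kernel)
                   (CovZ.leaf K2_ok TE_l11127 _)
                   (CovZ.leaf K2_ok TE_l11128 _))
                  (CovZ.leaf K2_ok TE_l11129 _))
                 (CovZ.n1 (3300, 30580) (by decide +kernel)
                  (CovZ.n2 (3280, 30580) (by decide +kernel)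
                   (CovZ.leaf K2_ok TE_l11130 _)
                   (CovZ.leaf K2_ok TE_l11131 _))
                  (CovZ.n1 (3300, 30600) (by decide +kernel)
                   (CovZ.leaf K2_ok TE_l11132 _)
                   (CovZ.leaf K2_ok TE_l11133 _))))))
              (CovZ.n1 (3200, 30640) (by decide +kernel)
               (CovZ.n2 (3240, 30680) (by decide +kernel)
                (CovZ.n2 (3240, 30640) (by decide +kernel)
                 (CovZ.leaf K2_ok TE_l11134 _)
                 (CovZ.n1 (3260, 30660) (by decide +kernel)
                  (CovZ.leaf K2_ok TE_l11135 _)
                  (CovZ.leaf K2_ok TE_l11136 _)))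
                (CovZ.n1 (3200, 30680) (by decide +kernel)
                 (CovZ.n2 (3220, 30700) (by decide +kernel)
                  (CovZ.leaf K2_ok TE_l11137 _)
                  (CovZ.leaf K2_ok TE_l11138 _))
                 (CovZ.leaf K2_ok TE_l11139 _)))
               (CovZ.n1 (3240, 30600) (by decide +kernel)
                (CovZ.n2 (3200, 30600) (by decide +kernel)
                 (CovZ.n2 (3220, 30620) (by decide +kernel)
                  (CovZ.leaf K2_ok TE_l11140 _)
                  (CovZ.leaf K2_ok TE_l11141 _))
                 (CovZ.n1 (3220, 30580) (by decide +kernel)
                  (CovZ.leaf K2_ok TE_l11142 _)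
                  (CovZ.leaf K2_ok TE_l11143 _)))
                (CovZ.n1 (3240, 30640) (by decide +kernel)
                 (CovZ.n2 (3260, 30620) (by decide +kernel)
                  (CovZ.leaf K2_ok TE_l11144 _)
                  (CovZ.leaf K2_ok TE_l11145 _))
                 (CovZ.n1 (3220, 30620) (by decide +kernel)
                  (CovZ.leaf K2_ok TE_l11146 _)
                  (CovZ.leaf K2_ok TE_l11147 _))))))
             (CovZ.n1 (3280, 30480) (by decide +kernel)
              (CovZ.n2 (3200, 30480) (by decide +kernel)
               (CovZ.n2 (3240, 30520) (by decide +kernel)
                (CovZ.n2 (3240, 30480) (by decide +kernel)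
                 (CovZ.n2 (3220, 30500) (by decide +kernel)
                  (CovZ.leaf K2_ok TE_l11148 _)
                  (CovZ.leaf K2_ok TE_l11149 _))
                 (CovZ.n1 (3260, 30500) (by decide +kernel)
                  (CovZ.n2 (3260, 30480) (by decide +kernel)
                   (CovZ.leaf K2_ok TE_l11150 _)
                   (CovZ.leaf K2_ok TE_l11151 _))
                  (CovZ.leaf K2_ok TE_l11152 _)))
                (CovZ.n1 (3200, 30520) (by decide +kernel)
                 (CovZ.n2 (3220, 30540) (by decide +kernel)
                  (CovZ.leaf K2_ok TE_l11153 _)
                  (CovZ.leaf K2_ok TE_l11154 _))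
                 (CovZ.n1 (3220, 30500) (by decide +kernel)
                  (CovZ.leaf K2_ok TE_l11155 _)
                  (CovZ.leaf K2_ok TE_l11156 _))))
               (CovZ.n1 (3240, 30440) (by decide +kernel)
                (CovZ.n2 (3200, 30440) (by decide +kernel)
                 (CovZ.n2 (3220, 30460) (by decide +kernel)
                  (CovZ.leaf K2_ok TE_l11157 _)
                  (CovZ.leaf K2_ok TE_l11158 _))
                 (CovZ.n1 (3220, 30420) (by decide +kernel)
                  (CovZ.leaf K2_ok TE_l11159 _)
                  (CovZ.leaf K2_ok TE_l11160 _)))
                (CovZ.n1 (3240, 30480) (by decide +kernel)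
                 (CovZ.subM 41863052037841631094157944855461890 (by decide +kernel)
                  (CovZ.n2 (3260, 30460) (by decide +kernel)
                   (CovZ.n2 (3240, 30460) (by decide +kernel)
                    (CovZ.leaf K2_ok TE_l11161 _)
                    (CovZ.leaf K2_ok TE_l11162 _))
                   (CovZ.n1 (3260, 30480) (by decide +kernel)
                    (CovZ.leaf K2_ok TE_l11163 _)
                    (CovZ.leaf K2_ok TE_l11164 _))))
                 (CovZ.n1 (3220, 30460) (by decide +kernel)
                  (CovZ.leaf K2_ok TE_l11165 _)
                  (CovZ.leaf K2_ok TE_l11166 _)))))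
              (CovZ.n1 (3280, 30560) (by decide +kernel)
               (CovZ.n2 (3320, 30520) (by decide +kernel)
                (CovZ.n2 (3280, 30520) (by decide +kernel)
                 (CovZ.subM 208016551510956096760389753680953346 (by decide +kernel)
                  (CovZ.n2 (3300, 30540) (by decide +kernel)
                   (CovZ.n2 (3300, 30520) (by decide +kernel)
                    (CovZ.leaf K2_ok TE_l11167 _)
                    (CovZ.n1 (3310, 30530) (by decide +kernel)
                     (CovZ.leaf K2_ok TE_l11168 _)
                     (CovZ.leaf K2_ok TE_l11169 _)))
                   (CovZ.n1 (3280, 30540) (by decide +kernel)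
                    (CovZ.leaf K2_ok TE_l11170 _)
                    (CovZ.leaf K2_ok TE_l11171 _))))
                 (CovZ.subM 41863052033005927815699428156637184 (by decide +kernel)
                  (CovZ.n1 (3300, 30500) (by decide +kernel)
                   (CovZ.n2 (3280, 30500) (by decide +kernel)
                    (CovZ.n2 (3290, 30510) (by decide +kernel)
                     (CovZ.leaf K2_ok TE_l11172 _)
                     (CovZ.leaf K2_ok TE_l11173 _))
                    (CovZ.leaf K2_ok TE_l11174 _))
                   (CovZ.n1 (3300, 30520) (by decide +kernel)
                    (CovZ.leaf K2_ok TE_l11175 _)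
                    (CovZ.leaf K2_ok TE_l11176 _)))))
                (CovZ.subM 208016551510956096760389753680953346 (by decide +kernel)
                 (CovZ.n1 (3320, 30560) (by decide +kernel)
                  (CovZ.subM 41862893576679700248659449947881472 (by decide +kernel)
                   (CovZ.n2 (3340, 30540) (by decide +kernel)
                    (CovZ.n2 (3320, 30540) (by decide +kernel)
                     (CovZ.n2 (3330, 30550) (by decide +kernel)
                      (CovZ.leaf K2_ok TE_l11177 _)
                      (CovZ.leaf K2_ok TE_l11178 _))
                     (CovZ.leaf K2_ok TE_l11179 _))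
                    (CovZ.n1 (3340, 30560) (by decide +kernel)
                     (CovZ.badM (by decide +kernel))
                     (CovZ.n1 (3330, 30550) (by decide +kernel)
                      (CovZ.leaf K2_ok TE_l11181 _)
                      (CovZ.leaf K2_ok TE_l11182 _)))))
                  (CovZ.n1 (3300, 30540) (by decide +kernel)
                   (CovZ.n2 (3300, 30560) (by decide +kernel)
                    (CovZ.leaf K2_ok TE_l11183 _)
                    (CovZ.leaf K2_ok TE_l11184 _))
                   (CovZ.n1 (3320, 30540) (by decide +kernel)
                    (CovZ.n2 (3310, 30530) (by decide +kernel)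
                     (CovZ.leaf K2_ok TE_l11185 _)
                     (CovZ.leaf K2_ok TE_l11186 _))
                    (CovZ.leaf K2_ok TE_l11187 _))))))
               (CovZ.n1 (3240, 30520) (by decide +kernel)
                (CovZ.n2 (3240, 30560) (by decide +kernel)
                 (CovZ.n2 (3260, 30540) (by decide +kernel)
                  (CovZ.leaf K2_ok TE_l11188 _)
                  (CovZ.leaf K2_ok TE_l11189 _))
                 (CovZ.n1 (3220, 30540) (by decide +kernel)
                  (CovZ.leaf K2_ok TE_l11190 _)
                  (CovZ.leaf K2_ok TE_l11191 _)))
                (CovZ.n1 (3280, 30520) (by decide +kernel)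
                 (CovZ.n2 (3260, 30500) (by decide +kernel)
                  (CovZ.n2 (3260, 30520) (by decide +kernel)
                   (CovZ.leaf K2_ok TE_l11192 _)
                   (CovZ.leaf K2_ok TE_l11193 _))
                  (CovZ.n1 (3280, 30500) (by decide +kernel)
                   (CovZ.leaf K2_ok TE_l11194 _)
                   (CovZ.leaf K2_ok TE_l11195 _)))
                 (CovZ.n1 (3260, 30540) (by decide +kernel)
                  (CovZ.leaf K2_ok TE_l11196 _)
                  (CovZ.leaf K2_ok TE_l11197 _)))))))

theorem TE_u186 : CovZ TE_M (toL (selN TE_LN 231381897277883153819689159971962946)) [0, 7, 6, 1] (3200, 30080) (3520, 30400) (3200, 30720) :=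
    (CovZ.n2 (3200, 30400) (by decide +kernel)
           (CovZ.n2 (3360, 30560) (by decide +kernel)
            TE_u184
            TE_u185)
           (CovZ.subM 41863052037841612648539771052752898 (by decide +kernel)
            (CovZ.n1 (3360, 30240) (by decide +kernel)
             (CovZ.n2 (3200, 30240) (by decide +kernel)
              (CovZ.n2 (3280, 30320) (by decide +kernel)
               (CovZ.subM 41862893421938375929607632996794368 (by decide +kernel)
                (CovZ.n2 (3280, 30240) (by decide +kernel)
                 (CovZ.n2 (3240, 30280) (by decide +kernel)
                  (CovZ.badM (by decide +kernel))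
                  (CovZ.n1 (3240, 30240) (by decide +kernel)
                   (CovZ.n2 (3220, 30260) (by decide +kernel)
                    (CovZ.n2 (3240, 30260) (by decide +kernel)
                     (CovZ.n2 (3230, 30250) (by decide +kernel)
                      (CovZ.leaf K2_ok TE_l11198 _)
                      (CovZ.badM (by decide +kernel)))
                     (CovZ.leaf K2_ok TE_l11199 _))
                    (CovZ.n1 (3220, 30240) (by decide +kernel)
                     (CovZ.leaf K2_ok TE_l11200 _)
                     (CovZ.n1 (3230, 30250) (by decide +kernel)
                      (CovZ.leaf K2_ok TE_l11201 _)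
                      (CovZ.leaf K2_ok TE_l11202 _))))
                   (CovZ.badM (by decide +kernel))))
                 (CovZ.badM (by decide +kernel))))
               (CovZ.n1 (3200, 30320) (by decide +kernel)
                (CovZ.n2 (3240, 30360) (by decide +kernel)
                 (CovZ.n2 (3240, 30320) (by decide +kernel)
                  (CovZ.n2 (3220, 30340) (by decide +kernel)
                   (CovZ.n2 (3240, 30340) (by decide +kernel)
                    (CovZ.leaf K2_ok TE_l11203 _)
                    (CovZ.leaf K2_ok TE_l11204 _))
                   (CovZ.n1 (3220, 30320) (by decide +kernel)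
                    (CovZ.leaf K2_ok TE_l11205 _)
                    (CovZ.leaf K2_ok TE_l11206 _)))
                  (CovZ.subM 41862893421937195337986915585490944 (by decide +kernel)
                   (CovZ.n1 (3260, 30340) (by decide +kernel)
                    (CovZ.n2 (3260, 30320) (by decide +kernel)
                     (CovZ.leaf K2_ok TE_l11207 _)
                     (CovZ.badM (by decide +kernel)))
                    (CovZ.n1 (3240, 30340) (by decide +kernel)
                     (CovZ.n2 (3250, 30350) (by decide +kernel)
                      (CovZ.leaf K2_ok TE_l11210 _)
                      (CovZ.leaf K2_ok TE_l11211 _))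
                     (CovZ.leaf K2_ok TE_l11212 _)))))
                 (CovZ.n1 (3200, 30360) (by decide +kernel)
                  (CovZ.n2 (3220, 30380) (by decide +kernel)
                   (CovZ.n2 (3220, 30360) (by decide +kernel)
                    (CovZ.leaf K2_ok TE_l11213 _)
                    (CovZ.leaf K2_ok TE_l11214 _))
                   (CovZ.leaf K2_ok TE_l11215 _))
                  (CovZ.n1 (3220, 30340) (by decide +kernel)
                   (CovZ.n2 (3200, 30340) (by decide +kernel)
                    (CovZ.leaf K2_ok TE_l11216 _)
                    (CovZ.leaf K2_ok TE_l11217 _))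
                   (CovZ.n1 (3220, 30360) (by decide +kernel)
                    (CovZ.leaf K2_ok TE_l11218 _)
                    (CovZ.leaf K2_ok TE_l11219 _)))))
                (CovZ.n1 (3240, 30280) (by decide +kernel)
                 (CovZ.n2 (3200, 30280) (by decide +kernel)
                  (CovZ.n2 (3220, 30300) (by decide +kernel)
                   (CovZ.n2 (3220, 30280) (by decide +kernel)
                    (CovZ.leaf K2_ok TE_l11220 _)
                    (CovZ.n1 (3230, 30290) (by decide +kernel)
                     (CovZ.leaf K2_ok TE_l11221 _)
                     (CovZ.leaf K2_ok TE_l11222 _)))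
                   (CovZ.n1 (3200, 30300) (by decide +kernel)
                    (CovZ.leaf K2_ok TE_l11223 _)
                    (CovZ.leaf K2_ok TE_l11224 _)))
                  (CovZ.subM 41862893421938375929607632996794368 (by decide +kernel)
                   (CovZ.n1 (3220, 30260) (by decide +kernel)
                    (CovZ.n2 (3200, 30260) (by decide +kernel)
                     (CovZ.n2 (3210, 30270) (by decide +kernel)
                      (CovZ.leaf K2_ok TE_l11225 _)
                      (CovZ.leaf K2_ok TE_l11226 _))
                     (CovZ.leaf K2_ok TE_l11227 _))
                    (CovZ.n1 (3220, 30280) (by decide +kernel)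
                     (CovZ.leaf K2_ok TE_l11228 _)
                     (CovZ.leaf K2_ok TE_l11229 _)))))
                 (CovZ.n1 (3240, 30320) (by decide +kernel)
                  (CovZ.subM 41862893421937195337986915585490944 (by decide +kernel)
                   (CovZ.n2 (3260, 30300) (by decide +kernel)
                    (CovZ.n2 (3240, 30300) (by decide +kernel)
                     (CovZ.n2 (3250, 30310) (by decide +kernel)
                      (CovZ.leaf K2_ok TE_l11230 _)
                      (CovZ.leaf K2_ok TE_l11231 _))
                     (CovZ.n1 (3250, 30290) (by decide +kernel)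
                      (CovZ.leaf K2_ok TE_l11232 _)
                      (CovZ.leaf K2_ok TE_l11233 _)))
                    (CovZ.n1 (3260, 30320) (by decide +kernel)
                     (CovZ.badM (by decide +kernel))
                     (CovZ.n1 (3250, 30310) (by decide +kernel)
                      (CovZ.leaf K2_ok TE_l11236 _)
                      (CovZ.badM (by decide +kernel))))))
                  (CovZ.n1 (3220, 30300) (by decide +kernel)
                   (CovZ.n2 (3220, 30320) (by decide +kernel)
                    (CovZ.leaf K2_ok TE_l11238 _)
                    (CovZ.leaf K2_ok TE_l11239 _))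
                   (CovZ.n1 (3240, 30300) (by decide +kernel)
                    (CovZ.leaf K2_ok TE_l11240 _)
                    (CovZ.leaf K2_ok TE_l11241 _)))))))
              (CovZ.subM 41862893421938375929607632996794368 (by decide +kernel)
               (CovZ.n1 (3280, 30160) (by decide +kernel)
                (CovZ.n2 (3200, 30160) (by decide +kernel)
                 (CovZ.n2 (3240, 30200) (by decide +kernel)
                  (CovZ.badM (by decide +kernel))
                  (CovZ.n1 (3200, 30200) (by decide +kernel)
                   (CovZ.n2 (3220, 30220) (by decide +kernel)
                    (CovZ.n2 (3220, 30200) (by decide +kernel)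
                     (CovZ.leaf K2_ok TE_l11243 _)
                     (CovZ.badM (by decide +kernel)))
                    (CovZ.n1 (3200, 30220) (by decide +kernel)
                     (CovZ.n2 (3210, 30230) (by decide +kernel)
                      (CovZ.leaf K2_ok TE_l11246 _)
                      (CovZ.leaf K2_ok TE_l11247 _))
                     (CovZ.leaf K2_ok TE_l11248 _)))
                   (CovZ.n1 (3220, 30180) (by decide +kernel)
                    (CovZ.n2 (3200, 30180) (by decide +kernel)
                     (CovZ.n2 (3210, 30190) (by decide +kernel)
                      (CovZ.leaf K2_ok TE_l11249 _)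
                      (CovZ.leaf K2_ok TE_l11250 _))
                     (CovZ.leaf K2_ok TE_l11251 _))
                    (CovZ.n1 (3220, 30200) (by decide +kernel)
                     (CovZ.badM (by decide +kernel))
                     (CovZ.n1 (3210, 30190) (by decide +kernel)
                      (CovZ.leaf K2_ok TE_l11254 _)
                      (CovZ.badM (by decide +kernel)))))))
                 (CovZ.badM (by decide +kernel)))
                (CovZ.n1 (3280, 30240) (by decide +kernel)
                 (CovZ.badM (by decide +kernel))
                 (CovZ.n1 (3240, 30200) (by decide +kernel)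
                  (CovZ.n2 (3240, 30240) (by decide +kernel)
                   (CovZ.badM (by decide +kernel))
                   (CovZ.n1 (3220, 30220) (by decide +kernel)
                    (CovZ.n2 (3220, 30240) (by decide +kernel)
                     (CovZ.leaf K2_ok TE_l11258 _)
                     (CovZ.n1 (3210, 30230) (by decide +kernel)
                      (CovZ.leaf K2_ok TE_l11259 _)
                      (CovZ.leaf K2_ok TE_l11260 _)))
                    (CovZ.badM (by decide +kernel))))
                  (CovZ.badM (by decide +kernel)))))))
             (CovZ.n1 (3360, 30400) (by decide +kernel)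
              (CovZ.badM (by decide +kernel))
              (CovZ.n1 (3280, 30320) (by decide +kernel)
               (CovZ.n2 (3280, 30400) (by decide +kernel)
                (CovZ.subM 41538374868278621028243970633760768 (by decide +kernel)
                 (CovZ.n2 (3320, 30360) (by decide +kernel)
                  (CovZ.n2 (3280, 30360) (by decide +kernel)
                   (CovZ.n2 (3300, 30380) (by decide +kernel)
                    (CovZ.badM (by decide +kernel))
                    (CovZ.n1 (3280, 30380) (by decide +kernel)
                     (CovZ.n2 (3290, 30390) (by decide +kernel)
                      (CovZ.badM (by decide +kernel))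
                      (CovZ.leaf K2_ok TE_l11265 _))
                     (CovZ.badM (by decide +kernel))))
                   (CovZ.badM (by decide +kernel)))
                  (CovZ.n1 (3320, 30400) (by decide +kernel)
                   (CovZ.badM (by decide +kernel))
                   (CovZ.n1 (3300, 30380) (by decide +kernel)
                    (CovZ.n2 (3300, 30400) (by decide +kernel)
                     (CovZ.badM (by decide +kernel))
                     (CovZ.n1 (3290, 30390) (by decide +kernel)
                      (CovZ.leaf K2_ok TE_l18243 _)
                      (CovZ.badM (by decide +kernel))))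
                    (CovZ.badM (by decide +kernel))))))
                (CovZ.n1 (3240, 30360) (by decide +kernel)
                 (CovZ.n2 (3240, 30400) (by decide +kernel)
                  (CovZ.subM 41862893576680880840280167359184896 (by decide +kernel)
                   (CovZ.n2 (3260, 30380) (by decide +kernel)
                    (CovZ.n2 (3240, 30380) (by decide +kernel)
                     (CovZ.leaf K2_ok TE_l11273 _)
                     (CovZ.leaf K2_ok TE_l11274 _))
                    (CovZ.n1 (3260, 30400) (by decide +kernel)
                     (CovZ.leaf K2_ok TE_l11275 _)
                     (CovZ.leaf K2_ok TE_l11276 _))))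
                  (CovZ.n1 (3220, 30380) (by decide +kernel)
                   (CovZ.leaf K2_ok TE_l11277 _)
                   (CovZ.n1 (3240, 30380) (by decide +kernel)
                    (CovZ.leaf K2_ok TE_l11278 _)
                    (CovZ.leaf K2_ok TE_l11279 _))))
                 (CovZ.subM 41862893421937195337986915585490944 (by decide +kernel)
                  (CovZ.n1 (3280, 30360) (by decide +kernel)
                   (CovZ.n2 (3260, 30340) (by decide +kernel)
                    (CovZ.n2 (3260, 30360) (by decide +kernel)
                     (CovZ.leaf K2_ok TE_l11280 _)
                     (CovZ.n1 (3250, 30350) (by decide +kernel)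
                      (CovZ.leaf K2_ok TE_l11281 _)
                      (CovZ.leaf K2_ok TE_l11282 _)))
                    (CovZ.badM (by decide +kernel)))
                   (CovZ.n1 (3260, 30380) (by decide +kernel)
                    (CovZ.n2 (3280, 30380) (by decide +kernel)
                     (CovZ.n2 (3270, 30370) (by decide +kernel)
                      (CovZ.leaf K2_ok TE_l11286 _)
                      (CovZ.badM (by decide +kernel)))
                     (CovZ.leaf K2_ok TE_l11288 _))
                    (CovZ.n1 (3260, 30360) (by decide +kernel)
                     (CovZ.leaf K2_ok TE_l11289 _)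
                     (CovZ.n1 (3270, 30370) (by decide +kernel)
                      (CovZ.leaf K2_ok TE_l11290 _)
                      (CovZ.leaf K2_ok TE_l11291 _))))))))
               (CovZ.badM (by decide +kernel)))))))

theorem TE_u187 : CovZ TE_M (toL (selN TE_LN 231381897277883153819689159971962946)) [0, 7, 6, 1] (3520, 30400) (3840, 30720) (3200, 30720) :=
    (CovZ.n1 (3520, 30720) (by decide +kernel)
           (CovZ.badM (by decide +kernel))
           (CovZ.n1 (3360, 30560) (by decide +kernel)
            (CovZ.n2 (3360, 30720) (by decide +kernel)
             (CovZ.subM 228785738940258523404432504887836672 (by decide +kernel)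
              (CovZ.n2 (3440, 30640) (by decide +kernel)
               (CovZ.n2 (3360, 30640) (by decide +kernel)
                (CovZ.n2 (3400, 30680) (by decide +kernel)
                 (CovZ.subM 41538375023021273512869094672564224 (by decide +kernel)
                  (CovZ.n2 (3400, 30640) (by decide +kernel)
                   (CovZ.n2 (3380, 30660) (by decide +kernel)
                    (CovZ.badM (by decide +kernel))
                    (CovZ.n1 (3380, 30640) (by decide +kernel)
                     (CovZ.n2 (3370, 30650) (by decide +kernel)
                      (CovZ.badM (by decide +kernel))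
                      (CovZ.leaf K2_ok TE_l18244 _))
                     (CovZ.badM (by decide +kernel))))
                   (CovZ.badM (by decide +kernel))))
                 (CovZ.n1 (3360, 30680) (by decide +kernel)
                  (CovZ.n2 (3380, 30700) (by decide +kernel)
                   (CovZ.n2 (3380, 30680) (by decide +kernel)
                    (CovZ.leaf K2_ok TE_l11292 _)
                    (CovZ.n1 (3390, 30690) (by decide +kernel)
                     (CovZ.leaf K2_ok TE_l11293 _)
                     (CovZ.leaf K2_ok TE_l11294 _)))
                   (CovZ.n1 (3360, 30700) (by decide +kernel)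
                    (CovZ.n2 (3370, 30710) (by decide +kernel)
                     (CovZ.leaf K2_ok TE_l11295 _)
                     (CovZ.leaf K2_ok TE_l11296 _))
                    (CovZ.leaf K2_ok TE_l11297 _)))
                  (CovZ.n1 (3380, 30660) (by decide +kernel)
                   (CovZ.n2 (3360, 30660) (by decide +kernel)
                    (CovZ.n2 (3370, 30670) (by decide +kernel)
                     (CovZ.leaf K2_ok TE_l11298 _)
                     (CovZ.leaf K2_ok TE_l11299 _))
                    (CovZ.n1 (3370, 30650) (by decide +kernel)
                     (CovZ.leaf K2_ok TE_l11300 _)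
                     (CovZ.leaf K2_ok TE_l11301 _)))
                   (CovZ.n1 (3380, 30680) (by decide +kernel)
                    (CovZ.leaf K2_ok TE_l11302 _)
                    (CovZ.n1 (3370, 30670) (by decide +kernel)
                     (CovZ.leaf K2_ok TE_l11303 _)
                     (CovZ.leaf K2_ok TE_l11304 _))))))
                (CovZ.subM 41538375023021273512869094672564224 (by decide +kernel)
                 (CovZ.n1 (3400, 30600) (by decide +kernel)
                  (CovZ.n2 (3360, 30600) (by decide +kernel)
                   (CovZ.n2 (3380, 30620) (by decide +kernel)
                    (CovZ.badM (by decide +kernel))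
                    (CovZ.n1 (3360, 30620) (by decide +kernel)
                     (CovZ.n2 (3370, 30630) (by decide +kernel)
                      (CovZ.badM (by decide +kernel))
                      (CovZ.leaf K2_ok TE_l18245 _))
                     (CovZ.badM (by decide +kernel))))
                   (CovZ.badM (by decide +kernel)))
                  (CovZ.n1 (3400, 30640) (by decide +kernel)
                   (CovZ.badM (by decide +kernel))
                   (CovZ.n1 (3380, 30620) (by decide +kernel)
                    (CovZ.n2 (3380, 30640) (by decide +kernel)
                     (CovZ.badM (by decide +kernel))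
                     (CovZ.n1 (3370, 30630) (by decide +kernel)
                      (CovZ.leaf K2_ok TE_l18246 _)
                      (CovZ.badM (by decide +kernel))))
                    (CovZ.badM (by decide +kernel)))))))
               (CovZ.n1 (3440, 30720) (by decide +kernel)
                (CovZ.badM (by decide +kernel))
                (CovZ.n1 (3400, 30680) (by decide +kernel)
                 (CovZ.n2 (3400, 30720) (by decide +kernel)
                  (CovZ.subM 186922687061996299537770402214445056 (by decide +kernel)
                   (CovZ.n2 (3420, 30700) (by decide +kernel)
                    (CovZ.n2 (3400, 30700) (by decide +kernel)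
                     (CovZ.n2 (3410, 30710) (by decide +kernel)
                      (CovZ.leaf K2_ok TE_l18247 _)
                      (CovZ.leaf K2_ok TE_l18248 _))
                     (CovZ.n1 (3410, 30690) (by decide +kernel)
                      (CovZ.leaf K2_ok TE_l18249 _)
                      (CovZ.leaf K2_ok TE_l18250 _)))
                    (CovZ.n1 (3420, 30720) (by decide +kernel)
                     (CovZ.n2 (3430, 30710) (by decide +kernel)
                      (CovZ.leaf K2_ok TE_l18251 _)
                      (CovZ.badM (by decide +kernel)))
                     (CovZ.n1 (3410, 30710) (by decide +kernel)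
                      (CovZ.leaf K2_ok TE_l18252 _)
                      (CovZ.leaf K2_ok TE_l18253 _)))))
                  (CovZ.n1 (3380, 30700) (by decide +kernel)
                   (CovZ.n2 (3380, 30720) (by decide +kernel)
                    (CovZ.leaf K2_ok TE_l11305 _)
                    (CovZ.leaf K2_ok TE_l11306 _))
                   (CovZ.n1 (3400, 30700) (by decide +kernel)
                    (CovZ.n2 (3390, 30690) (by decide +kernel)
                     (CovZ.leaf K2_ok TE_l11307 _)
                     (CovZ.leaf K2_ok TE_l11308 _))
                    (CovZ.leaf K2_ok TE_l11309 _))))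
                 (CovZ.n1 (3440, 30680) (by decide +kernel)
                  (CovZ.badM (by decide +kernel))
                  (CovZ.n1 (3420, 30700) (by decide +kernel)
                   (CovZ.badM (by decide +kernel))
                   (CovZ.badM (by decide +kernel))))))))
             (CovZ.n1 (3280, 30640) (by decide +kernel)
              (CovZ.n2 (3280, 30720) (by decide +kernel)
               (CovZ.n2 (3320, 30680) (by decide +kernel)
                (CovZ.n2 (3280, 30680) (by decide +kernel)
                 (CovZ.n2 (3300, 30700) (by decide +kernel)
                  (CovZ.leaf K2_ok TE_l11310 _)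
                  (CovZ.leaf K2_ok TE_l11311 _))
                 (CovZ.n1 (3300, 30660) (by decide +kernel)
                  (CovZ.leaf K2_ok TE_l11312 _)
                  (CovZ.leaf K2_ok TE_l11313 _)))
                (CovZ.n1 (3320, 30720) (by decide +kernel)
                 (CovZ.n2 (3340, 30700) (by decide +kernel)
                  (CovZ.leaf K2_ok TE_l11314 _)
                  (CovZ.n1 (3340, 30720) (by decide +kernel)
                   (CovZ.leaf K2_ok TE_l11315 _)
                   (CovZ.leaf K2_ok TE_l11316 _)))
                 (CovZ.n1 (3300, 30700) (by decide +kernel)
                  (CovZ.leaf K2_ok TE_l11317 _)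
                  (CovZ.leaf K2_ok TE_l11318 _))))
               (CovZ.n1 (3240, 30680) (by decide +kernel)
                (CovZ.n2 (3240, 30720) (by decide +kernel)
                 (CovZ.leaf K2_ok TE_l11319 _)
                 (CovZ.leaf K2_ok TE_l11320 _))
                (CovZ.n1 (3280, 30680) (by decide +kernel)
                 (CovZ.n2 (3260, 30660) (by decide +kernel)
                  (CovZ.leaf K2_ok TE_l11321 _)
                  (CovZ.leaf K2_ok TE_l11322 _))
                 (CovZ.leaf K2_ok TE_l11323 _))))
              (CovZ.n1 (3360, 30640) (by decide +kernel)
               (CovZ.n2 (3320, 30600) (by decide +kernel)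
                (CovZ.n2 (3320, 30640) (by decide +kernel)
                 (CovZ.subM 228785738945095407274511738997833728 (by decide +kernel)
                  (CovZ.n2 (3340, 30620) (by decide +kernel)
                   (CovZ.n2 (3320, 30620) (by decide +kernel)
                    (CovZ.n2 (3330, 30630) (by decide +kernel)
                     (CovZ.leaf K2_ok TE_l11324 _)
                     (CovZ.leaf K2_ok TE_l11325 _))
                    (CovZ.leaf K2_ok TE_l11326 _))
                   (CovZ.n1 (3340, 30640) (by decide +kernel)
                    (CovZ.leaf K2_ok TE_l11327 _)
                    (CovZ.n1 (3330, 30630) (by decide +kernel)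
                     (CovZ.leaf K2_ok TE_l11328 _)
                     (CovZ.leaf K2_ok TE_l11329 _)))))
                 (CovZ.n1 (3300, 30620) (by decide +kernel)
                  (CovZ.n2 (3300, 30640) (by decide +kernel)
                   (CovZ.leaf K2_ok TE_l11330 _)
                   (CovZ.leaf K2_ok TE_l11331 _))
                  (CovZ.n1 (3320, 30620) (by decide +kernel)
                   (CovZ.leaf K2_ok TE_l11332 _)
                   (CovZ.leaf K2_ok TE_l11333 _))))
                (CovZ.subM 41863052033004728777334637035782144 (by decide +kernel)
                 (CovZ.n1 (3360, 30600) (by decide +kernel)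
                  (CovZ.n2 (3340, 30580) (by decide +kernel)
                   (CovZ.n2 (3340, 30600) (by decide +kernel)
                    (CovZ.leaf K2_ok TE_l11334 _)
                    (CovZ.leaf K2_ok TE_l11335 _))
                   (CovZ.n1 (3360, 30580) (by decide +kernel)
                    (CovZ.n2 (3350, 30570) (by decide +kernel)
                     (CovZ.leaf K2_ok TE_l11336 _)
                     (CovZ.badM (by decide +kernel)))
                    (CovZ.leaf K2_ok TE_l11337 _)))
                  (CovZ.n1 (3340, 30620) (by decide +kernel)
                   (CovZ.n2 (3360, 30620) (by decide +kernel)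
                    (CovZ.n2 (3350, 30610) (by decide +kernel)
                     (CovZ.leaf K2_ok TE_l11338 _)
                     (CovZ.leaf K2_ok TE_l18254 _))
                    (CovZ.leaf K2_ok TE_l11339 _))
                   (CovZ.n1 (3340, 30600) (by decide +kernel)
                    (CovZ.leaf K2_ok TE_l11340 _)
                    (CovZ.n1 (3350, 30610) (by decide +kernel)
                     (CovZ.leaf K2_ok TE_l11341 _)
                     (CovZ.leaf K2_ok TE_l11342 _)))))))
               (CovZ.n1 (3320, 30680) (by decide +kernel)
                (CovZ.subM 228785738945095407265504539743092738 (by decide +kernel)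
                 (CovZ.n2 (3360, 30680) (by decide +kernel)
                  (CovZ.n2 (3340, 30660) (by decide +kernel)
                   (CovZ.n2 (3340, 30680) (by decide +kernel)
                    (CovZ.leaf K2_ok TE_l11343 _)
                    (CovZ.leaf K2_ok TE_l11344 _))
                   (CovZ.n1 (3360, 30660) (by decide +kernel)
                    (CovZ.leaf K2_ok TE_l11345 _)
                    (CovZ.leaf K2_ok TE_l11346 _)))
                  (CovZ.n1 (3340, 30700) (by decide +kernel)
                   (CovZ.n2 (3360, 30700) (by decide +kernel)
                    (CovZ.n2 (3350, 30690) (by decide +kernel)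
                     (CovZ.leaf K2_ok TE_l11347 _)
                     (CovZ.leaf K2_ok TE_l11348 _))
                    (CovZ.leaf K2_ok TE_l11349 _))
                   (CovZ.n1 (3340, 30680) (by decide +kernel)
                    (CovZ.leaf K2_ok TE_l11350 _)
                    (CovZ.n1 (3350, 30690) (by decide +kernel)
                     (CovZ.leaf K2_ok TE_l11351 _)
                     (CovZ.leaf K2_ok TE_l11352 _))))))
                (CovZ.n1 (3320, 30640) (by decide +kernel)
                 (CovZ.n2 (3300, 30660) (by decide +kernel)
                  (CovZ.leaf K2_ok TE_l11353 _)
                  (CovZ.n1 (3300, 30640) (by decide +kernel)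
                   (CovZ.leaf K2_ok TE_l11354 _)
                   (CovZ.leaf K2_ok TE_l11355 _)))
                 (CovZ.subM 228785738945095407265504539743092738 (by decide +kernel)
                  (CovZ.n1 (3340, 30660) (by decide +kernel)
                   (CovZ.n2 (3340, 30640) (by decide +kernel)
                    (CovZ.leaf K2_ok TE_l11356 _)
                    (CovZ.n1 (3350, 30650) (by decide +kernel)
                     (CovZ.leaf K2_ok TE_l11357 _)
                     (CovZ.leaf K2_ok TE_l11358 _)))
                   (CovZ.n1 (3320, 30660) (by decide +kernel)
                    (CovZ.leaf K2_ok TE_l11359 _)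
                    (CovZ.leaf K2_ok TE_l11360 _)))))))))
            (CovZ.n1 (3520, 30560) (by decide +kernel)
             (CovZ.badM (by decide +kernel))
             (CovZ.n1 (3440, 30640) (by decide +kernel)
              (CovZ.badM (by decide +kernel))
              (CovZ.badM (by decide +kernel))))))

theorem TE_u188 : CovZ TE_M (toL (selN TE_LN 231544157483182154042374911797755970)) [0, 7, 6, 1] (2880, 30400) (3040, 30240) (3200, 30400) :=
    (CovZ.n2 (3040, 30400) (by decide +kernel)
             (CovZ.n2 (3120, 30320) (by decide +kernel)
              (CovZ.n2 (3040, 30320) (by decide +kernel)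
               (CovZ.n2 (3080, 30360) (by decide +kernel)
                (CovZ.n2 (3080, 30320) (by decide +kernel)
                 (CovZ.leaf K2_ok TE_l11413 _)
                 (CovZ.n1 (3100, 30340) (by decide +kernel)
                  (CovZ.leaf K2_ok TE_l11414 _)
                  (CovZ.leaf K2_ok TE_l11415 _)))
                (CovZ.n1 (3040, 30360) (by decide +kernel)
                 (CovZ.n2 (3060, 30380) (by decide +kernel)
                  (CovZ.leaf K2_ok TE_l11416 _)
                  (CovZ.leaf K2_ok TE_l11417 _))
                 (CovZ.leaf K2_ok TE_l11418 _)))
               (CovZ.n1 (3080, 30280) (by decide +kernel)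
                (CovZ.n2 (3040, 30280) (by decide +kernel)
                 (CovZ.n2 (3060, 30300) (by decide +kernel)
                  (CovZ.leaf K2_ok TE_l11419 _)
                  (CovZ.leaf K2_ok TE_l11420 _))
                 (CovZ.leaf K2_ok TE_l11421 _))
                (CovZ.n1 (3080, 30320) (by decide +kernel)
                 (CovZ.leaf K2_ok TE_l11422 _)
                 (CovZ.n1 (3060, 30300) (by decide +kernel)
                  (CovZ.leaf K2_ok TE_l11423 _)
                  (CovZ.leaf K2_ok TE_l11424 _)))))
              (CovZ.n1 (3120, 30400) (by decide +kernel)
               (CovZ.n2 (3160, 30360) (by decide +kernel)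
                (CovZ.n2 (3120, 30360) (by decide +kernel)
                 (CovZ.n2 (3140, 30380) (by decide +kernel)
                  (CovZ.leaf K2_ok TE_l11425 _)
                  (CovZ.leaf K2_ok TE_l11426 _))
                 (CovZ.leaf K2_ok TE_l11427 _))
                (CovZ.n1 (3160, 30400) (by decide +kernel)
                 (CovZ.n2 (3180, 30380) (by decide +kernel)
                  (CovZ.leaf K2_ok TE_l11428 _)
                  (CovZ.leaf K2_ok TE_l11429 _))
                 (CovZ.n1 (3140, 30380) (by decide +kernel)
                  (CovZ.leaf K2_ok TE_l11430 _)
                  (CovZ.leaf K2_ok TE_l11431 _))))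
               (CovZ.n1 (3080, 30360) (by decide +kernel)
                (CovZ.n2 (3080, 30400) (by decide +kernel)
                 (CovZ.leaf K2_ok TE_l11432 _)
                 (CovZ.leaf K2_ok TE_l11433 _))
                (CovZ.n1 (3120, 30360) (by decide +kernel)
                 (CovZ.n2 (3100, 30340) (by decide +kernel)
                  (CovZ.leaf K2_ok TE_l11434 _)
                  (CovZ.leaf K2_ok TE_l11435 _))
                 (CovZ.leaf K2_ok TE_l11436 _)))))
             (CovZ.n1 (2960, 30320) (by decide +kernel)
              (CovZ.n2 (2960, 30400) (by decide +kernel)
               (CovZ.n2 (3000, 30360) (by decide +kernel)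
                (CovZ.leaf K2_ok TE_l11437 _)
                (CovZ.n1 (3000, 30400) (by decide +kernel)
                 (CovZ.leaf K2_ok TE_l11438 _)
                 (CovZ.leaf K2_ok TE_l11439 _)))
               (CovZ.n1 (2920, 30360) (by decide +kernel)
                (CovZ.leaf K2_ok TE_l11440 _)
                (CovZ.leaf K2_ok TE_l11441 _)))
              (CovZ.n1 (3040, 30320) (by decide +kernel)
               (CovZ.n2 (3000, 30280) (by decide +kernel)
                (CovZ.n2 (3000, 30320) (by decide +kernel)
                 (CovZ.leaf K2_ok TE_l11442 _)
                 (CovZ.leaf K2_ok TE_l11443 _))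
                (CovZ.n1 (3040, 30280) (by decide +kernel)
                 (CovZ.leaf K2_ok TE_l11444 _)
                 (CovZ.leaf K2_ok TE_l11445 _)))
               (CovZ.n1 (3000, 30360) (by decide +kernel)
                (CovZ.n2 (3040, 30360) (by decide +kernel)
                 (CovZ.leaf K2_ok TE_l11446 _)
                 (CovZ.leaf K2_ok TE_l11447 _))
                (CovZ.n1 (3000, 30320) (by decide +kernel)
                 (CovZ.leaf K2_ok TE_l11448 _)
                 (CovZ.leaf K2_ok TE_l11449 _))))))

theorem TE_u189 : CovZ TE_M (toL (selN TE_LN 231544157483182154042374911797755970)) [0, 7, 6, 1] (3040, 30240) (3200, 30080) (3200, 30400) :=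
    (CovZ.n1 (3200, 30240) (by decide +kernel)
             (CovZ.n2 (3120, 30160) (by decide +kernel)
              (CovZ.n2 (3120, 30240) (by decide +kernel)
               (CovZ.subM 41863061941361926931581970245746690 (by decide +kernel)
                (CovZ.n2 (3160, 30200) (by decide +kernel)
                 (CovZ.n2 (3120, 30200) (by decide +kernel)
                  (CovZ.n2 (3140, 30220) (by decide +kernel)
                   (CovZ.leaf K2_ok TE_l11450 _)
                   (CovZ.leaf K2_ok TE_l11451 _))
                  (CovZ.n1 (3140, 30180) (by decide +kernel)
                   (CovZ.leaf K2_ok TE_l11452 _)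
                   (CovZ.leaf K2_ok TE_l11453 _)))
                 (CovZ.n1 (3160, 30240) (by decide +kernel)
                  (CovZ.n2 (3180, 30220) (by decide +kernel)
                   (CovZ.n2 (3160, 30220) (by decide +kernel)
                    (CovZ.leaf K2_ok TE_l11454 _)
                    (CovZ.leaf K2_ok TE_l11455 _))
                   (CovZ.n1 (3180, 30240) (by decide +kernel)
                    (CovZ.leaf K2_ok TE_l11456 _)
                    (CovZ.leaf K2_ok TE_l11457 _)))
                  (CovZ.n1 (3140, 30220) (by decide +kernel)
                   (CovZ.leaf K2_ok TE_l11458 _)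
                   (CovZ.n1 (3160, 30220) (by decide +kernel)
                    (CovZ.leaf K2_ok TE_l11459 _)
                    (CovZ.leaf K2_ok TE_l11460 _))))))
               (CovZ.n1 (3080, 30200) (by decide +kernel)
                (CovZ.n2 (3080, 30240) (by decide +kernel)
                 (CovZ.n2 (3100, 30220) (by decide +kernel)
                  (CovZ.leaf K2_ok TE_l11461 _)
                  (CovZ.leaf K2_ok TE_l11462 _))
                 (CovZ.n1 (3060, 30220) (by decide +kernel)
                  (CovZ.leaf K2_ok TE_l11463 _)
                  (CovZ.leaf K2_ok TE_l11464 _)))
                (CovZ.subM 41863061941361926931581970245746690 (by decide +kernel)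
                 (CovZ.n1 (3120, 30200) (by decide +kernel)
                  (CovZ.n2 (3100, 30180) (by decide +kernel)
                   (CovZ.leaf K2_ok TE_l11465 _)
                   (CovZ.leaf K2_ok TE_l11466 _))
                  (CovZ.n1 (3100, 30220) (by decide +kernel)
                   (CovZ.leaf K2_ok TE_l11467 _)
                   (CovZ.leaf K2_ok TE_l11468 _))))))
              (CovZ.subM 41863061941361926931581970245746690 (by decide +kernel)
               (CovZ.n1 (3200, 30160) (by decide +kernel)
                (CovZ.n2 (3160, 30120) (by decide +kernel)
                 (CovZ.n2 (3160, 30160) (by decide +kernel)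
                  (CovZ.subM 41862893421938375929607632996794368 (by decide +kernel)
                   (CovZ.n2 (3180, 30140) (by decide +kernel)
                    (CovZ.n2 (3160, 30140) (by decide +kernel)
                     (CovZ.n2 (3170, 30150) (by decide +kernel)
                      (CovZ.leaf K2_ok TE_l11469 _)
                      (CovZ.leaf K2_ok TE_l11470 _))
                     (CovZ.leaf K2_ok TE_l11471 _))
                    (CovZ.n1 (3180, 30160) (by decide +kernel)
                     (CovZ.leaf K2_ok TE_l11472 _)
                     (CovZ.n1 (3170, 30150) (by decide +kernel)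
                      (CovZ.leaf K2_ok TE_l11473 _)
                      (CovZ.leaf K2_ok TE_l11474 _)))))
                  (CovZ.n1 (3140, 30140) (by decide +kernel)
                   (CovZ.leaf K2_ok TE_l11475 _)
                   (CovZ.n1 (3160, 30140) (by decide +kernel)
                    (CovZ.n2 (3150, 30130) (by decide +kernel)
                     (CovZ.leaf K2_ok TE_l11476 _)
                     (CovZ.leaf K2_ok TE_l11477 _))
                    (CovZ.leaf K2_ok TE_l11478 _))))
                 (CovZ.subM 41862893421938375929607632996794368 (by decide +kernel)
                  (CovZ.n1 (3200, 30120) (by decide +kernel)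
                   (CovZ.n2 (3180, 30100) (by decide +kernel)
                    (CovZ.n2 (3180, 30120) (by decide +kernel)
                     (CovZ.leaf K2_ok TE_l11479 _)
                     (CovZ.leaf K2_ok TE_l11480 _))
                    (CovZ.badM (by decide +kernel)))
                   (CovZ.n1 (3180, 30140) (by decide +kernel)
                    (CovZ.n2 (3200, 30140) (by decide +kernel)
                     (CovZ.n2 (3190, 30130) (by decide +kernel)
                      (CovZ.leaf K2_ok TE_l11485 _)
                      (CovZ.badM (by decide +kernel)))
                     (CovZ.n1 (3190, 30150) (by decide +kernel)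
                      (CovZ.leaf K2_ok TE_l11487 _)
                      (CovZ.leaf K2_ok TE_l11488 _)))
                    (CovZ.n1 (3180, 30120) (by decide +kernel)
                     (CovZ.leaf K2_ok TE_l11489 _)
                     (CovZ.n1 (3190, 30130) (by decide +kernel)
                      (CovZ.leaf K2_ok TE_l11490 _)
                      (CovZ.leaf K2_ok TE_l11491 _)))))))
                (CovZ.n1 (3160, 30200) (by decide +kernel)
                 (CovZ.subM 41862893421938375929607632996794368 (by decide +kernel)
                  (CovZ.n2 (3200, 30200) (by decide +kernel)
                   (CovZ.n2 (3180, 30180) (by decide +kernel)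
                    (CovZ.n2 (3180, 30200) (by decide +kernel)
                     (CovZ.leaf K2_ok TE_l11492 _)
                     (CovZ.n1 (3170, 30190) (by decide +kernel)
                      (CovZ.leaf K2_ok TE_l11493 _)
                      (CovZ.leaf K2_ok TE_l11494 _)))
                    (CovZ.n1 (3200, 30180) (by decide +kernel)
                     (CovZ.n2 (3190, 30170) (by decide +kernel)
                      (CovZ.leaf K2_ok TE_l11495 _)
                      (CovZ.leaf K2_ok TE_l11496 _))
                     (CovZ.leaf K2_ok TE_l11497 _)))
                   (CovZ.n1 (3180, 30220) (by decide +kernel)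
                    (CovZ.n2 (3200, 30220) (by decide +kernel)
                     (CovZ.n2 (3190, 30210) (by decide +kernel)
                      (CovZ.leaf K2_ok TE_l11498 _)
                      (CovZ.leaf K2_ok TE_l11499 _))
                     (CovZ.leaf K2_ok TE_l11500 _))
                    (CovZ.n1 (3180, 30200) (by decide +kernel)
                     (CovZ.leaf K2_ok TE_l11501 _)
                     (CovZ.leaf K2_ok TE_l11502 _)))))
                 (CovZ.n1 (3160, 30160) (by decide +kernel)
                  (CovZ.n2 (3140, 30180) (by decide +kernel)
                   (CovZ.n2 (3160, 30180) (by decide +kernel)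
                    (CovZ.leaf K2_ok TE_l11503 _)
                    (CovZ.leaf K2_ok TE_l11504 _))
                   (CovZ.n1 (3140, 30160) (by decide +kernel)
                    (CovZ.leaf K2_ok TE_l11505 _)
                    (CovZ.leaf K2_ok TE_l11506 _)))
                  (CovZ.subM 41862893421938375929607632996794368 (by decide +kernel)
                   (CovZ.n1 (3180, 30180) (by decide +kernel)
                    (CovZ.n2 (3180, 30160) (by decide +kernel)
                     (CovZ.leaf K2_ok TE_l11507 _)
                     (CovZ.n1 (3190, 30170) (by decide +kernel)
                      (CovZ.leaf K2_ok TE_l11508 _)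
                      (CovZ.leaf K2_ok TE_l11509 _)))
                    (CovZ.n1 (3160, 30180) (by decide +kernel)
                     (CovZ.n2 (3170, 30190) (by decide +kernel)
                      (CovZ.leaf K2_ok TE_l11510 _)
                      (CovZ.leaf K2_ok TE_l11511 _))
                     (CovZ.leaf K2_ok TE_l11512 _)))))))))
             (CovZ.n1 (3120, 30320) (by decide +kernel)
              (CovZ.subM 41863061941361926931581970245746690 (by decide +kernel)
               (CovZ.n2 (3200, 30320) (by decide +kernel)
                (CovZ.n2 (3160, 30280) (by decide +kernel)
                 (CovZ.n2 (3160, 30320) (by decide +kernel)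
                  (CovZ.n2 (3180, 30300) (by decide +kernel)
                   (CovZ.leaf K2_ok TE_l11513 _)
                   (CovZ.leaf K2_ok TE_l11514 _))
                  (CovZ.n1 (3140, 30300) (by decide +kernel)
                   (CovZ.leaf K2_ok TE_l11515 _)
                   (CovZ.leaf K2_ok TE_l11516 _)))
                 (CovZ.n1 (3200, 30280) (by decide +kernel)
                  (CovZ.n2 (3180, 30260) (by decide +kernel)
                   (CovZ.leaf K2_ok TE_l11517 _)
                   (CovZ.n1 (3200, 30260) (by decide +kernel)
                    (CovZ.n2 (3190, 30250) (by decide +kernel)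
                     (CovZ.leaf K2_ok TE_l11518 _)
                     (CovZ.leaf K2_ok TE_l11519 _))
                    (CovZ.leaf K2_ok TE_l11520 _)))
                  (CovZ.n1 (3180, 30300) (by decide +kernel)
                   (CovZ.n2 (3200, 30300) (by decide +kernel)
                    (CovZ.leaf K2_ok TE_l11521 _)
                    (CovZ.leaf K2_ok TE_l11522 _))
                   (CovZ.leaf K2_ok TE_l11523 _))))
                (CovZ.n1 (3160, 30360) (by decide +kernel)
                 (CovZ.n2 (3200, 30360) (by decide +kernel)
                  (CovZ.n2 (3180, 30340) (by decide +kernel)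
                   (CovZ.leaf K2_ok TE_l11524 _)
                   (CovZ.leaf K2_ok TE_l11525 _))
                  (CovZ.n1 (3180, 30380) (by decide +kernel)
                   (CovZ.leaf K2_ok TE_l11526 _)
                   (CovZ.leaf K2_ok TE_l11527 _)))
                 (CovZ.n1 (3160, 30320) (by decide +kernel)
                  (CovZ.n2 (3140, 30340) (by decide +kernel)
                   (CovZ.leaf K2_ok TE_l11528 _)
                   (CovZ.leaf K2_ok TE_l11529 _))
                  (CovZ.n1 (3180, 30340) (by decide +kernel)
                   (CovZ.leaf K2_ok TE_l11530 _)
                   (CovZ.leaf K2_ok TE_l11531 _))))))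
              (CovZ.n1 (3120, 30240) (by decide +kernel)
               (CovZ.n2 (3080, 30280) (by decide +kernel)
                (CovZ.n2 (3120, 30280) (by decide +kernel)
                 (CovZ.n2 (3100, 30260) (by decide +kernel)
                  (CovZ.leaf K2_ok TE_l11532 _)
                  (CovZ.leaf K2_ok TE_l11533 _))
                 (CovZ.leaf K2_ok TE_l11534 _))
                (CovZ.n1 (3080, 30240) (by decide +kernel)
                 (CovZ.leaf K2_ok TE_l11535 _)
                 (CovZ.n1 (3100, 30260) (by decide +kernel)
                  (CovZ.leaf K2_ok TE_l11536 _)
                  (CovZ.leaf K2_ok TE_l11537 _))))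
               (CovZ.subM 41863061941361926931581970245746690 (by decide +kernel)
                (CovZ.n1 (3160, 30280) (by decide +kernel)
                 (CovZ.n2 (3160, 30240) (by decide +kernel)
                  (CovZ.n2 (3140, 30260) (by decide +kernel)
                   (CovZ.leaf K2_ok TE_l11538 _)
                   (CovZ.leaf K2_ok TE_l11539 _))
                  (CovZ.n1 (3180, 30260) (by decide +kernel)
                   (CovZ.n2 (3180, 30240) (by decide +kernel)
                    (CovZ.leaf K2_ok TE_l11540 _)
                    (CovZ.leaf K2_ok TE_l11541 _))
                   (CovZ.n1 (3160, 30260) (by decide +kernel)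
                    (CovZ.leaf K2_ok TE_l11542 _)
                    (CovZ.leaf K2_ok TE_l11543 _))))
                 (CovZ.n1 (3120, 30280) (by decide +kernel)
                  (CovZ.n2 (3140, 30300) (by decide +kernel)
                   (CovZ.leaf K2_ok TE_l11544 _)
                   (CovZ.leaf K2_ok TE_l11545 _))
                  (CovZ.n1 (3140, 30260) (by decide +kernel)
                   (CovZ.leaf K2_ok TE_l11546 _)
                   (CovZ.leaf K2_ok TE_l11547 _))))))))

theorem TE_u190 : CovZ TE_M (toL (selN TE_LN 21649492671600472322616760003516953228564679596567560258)) [0, 7, 6, 1] (3200, 30720) (2560, 30720) (3200, 30080) :=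
    (CovZ.n1 (2880, 30400) (by decide +kernel)
         (CovZ.n2 (2880, 30720) (by decide +kernel)
          (CovZ.subM 231544157483182154042937861751177282 (by decide +kernel)
           (CovZ.n2 (3040, 30560) (by decide +kernel)
            (CovZ.n2 (2880, 30560) (by decide +kernel)
             (CovZ.n2 (2960, 30640) (by decide +kernel)
              (CovZ.n2 (2960, 30560) (by decide +kernel)
               (CovZ.leaf K2_ok TE_l11361 _)
               (CovZ.n1 (3000, 30600) (by decide +kernel)
                (CovZ.leaf K2_ok TE_l11362 _)
                (CovZ.leaf K2_ok TE_l11363 _)))
              (CovZ.n1 (2880, 30640) (by decide +kernel)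
               (CovZ.n2 (2920, 30680) (by decide +kernel)
                (CovZ.leaf K2_ok TE_l11364 _)
                (CovZ.leaf K2_ok TE_l11365 _))
               (CovZ.leaf K2_ok TE_l11366 _)))
             (CovZ.n1 (2960, 30480) (by decide +kernel)
              (CovZ.n2 (2880, 30480) (by decide +kernel)
               (CovZ.n2 (2920, 30520) (by decide +kernel)
                (CovZ.leaf K2_ok TE_l11367 _)
                (CovZ.leaf K2_ok TE_l11368 _))
               (CovZ.n1 (2920, 30440) (by decide +kernel)
                (CovZ.leaf K2_ok TE_l11369 _)
                (CovZ.leaf K2_ok TE_l11370 _)))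
              (CovZ.n1 (2960, 30560) (by decide +kernel)
               (CovZ.n2 (3000, 30520) (by decide +kernel)
                (CovZ.leaf K2_ok TE_l11371 _)
                (CovZ.leaf K2_ok TE_l11372 _))
               (CovZ.n1 (2920, 30520) (by decide +kernel)
                (CovZ.leaf K2_ok TE_l11373 _)
                (CovZ.leaf K2_ok TE_l11374 _)))))
            (CovZ.n1 (3040, 30720) (by decide +kernel)
             (CovZ.n2 (3120, 30640) (by decide +kernel)
              (CovZ.n2 (3040, 30640) (by decide +kernel)
               (CovZ.n2 (3080, 30680) (by decide +kernel)
                (CovZ.leaf K2_ok TE_l11375 _)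
                (CovZ.leaf K2_ok TE_l11376 _))
               (CovZ.n1 (3080, 30600) (by decide +kernel)
                (CovZ.leaf K2_ok TE_l11377 _)
                (CovZ.n1 (3080, 30640) (by decide +kernel)
                 (CovZ.leaf K2_ok TE_l11378 _)
                 (CovZ.leaf K2_ok TE_l11379 _))))
              (CovZ.n1 (3120, 30720) (by decide +kernel)
               (CovZ.n2 (3160, 30680) (by decide +kernel)
                (CovZ.leaf K2_ok TE_l11380 _)
                (CovZ.n1 (3160, 30720) (by decide +kernel)
                 (CovZ.leaf K2_ok TE_l11381 _)
                 (CovZ.leaf K2_ok TE_l11382 _)))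
               (CovZ.n1 (3080, 30680) (by decide +kernel)
                (CovZ.leaf K2_ok TE_l11383 _)
                (CovZ.leaf K2_ok TE_l11384 _))))
             (CovZ.n1 (2960, 30640) (by decide +kernel)
              (CovZ.n2 (2960, 30720) (by decide +kernel)
               (CovZ.n2 (3000, 30680) (by decide +kernel)
                (CovZ.leaf K2_ok TE_l11385 _)
                (CovZ.leaf K2_ok TE_l11386 _))
               (CovZ.n1 (2920, 30680) (by decide +kernel)
                (CovZ.leaf K2_ok TE_l11387 _)
                (CovZ.leaf K2_ok TE_l11388 _)))
              (CovZ.n1 (3040, 30640) (by decide +kernel)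
               (CovZ.n2 (3000, 30600) (by decide +kernel)
                (CovZ.leaf K2_ok TE_l11389 _)
                (CovZ.leaf K2_ok TE_l11390 _))
               (CovZ.n1 (3000, 30680) (by decide +kernel)
                (CovZ.leaf K2_ok TE_l11391 _)
                (CovZ.leaf K2_ok TE_l11392 _)))))))
          (CovZ.n1 (2720, 30560) (by decide +kernel)
           (CovZ.n2 (2720, 30720) (by decide +kernel)
            (CovZ.n2 (2800, 30640) (by decide +kernel)
             (CovZ.n2 (2720, 30640) (by decide +kernel)
              (CovZ.leaf K2_ok TE_l11393 _)
              (CovZ.leaf K2_ok TE_l11394 _))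
             (CovZ.n1 (2800, 30720) (by decide +kernel)
              (CovZ.leaf K2_ok TE_l11395 _)
              (CovZ.leaf K2_ok TE_l11396 _)))
            (CovZ.n1 (2640, 30640) (by decide +kernel)
             (CovZ.n2 (2640, 30720) (by decide +kernel)
              (CovZ.leaf K2_ok TE_l11397 _)
              (CovZ.leaf K2_ok TE_l11398 _))
             (CovZ.n1 (2720, 30640) (by decide +kernel)
              (CovZ.leaf K2_ok TE_l11399 _)
              (CovZ.leaf K2_ok TE_l11400 _))))
           (CovZ.n1 (2880, 30560) (by decide +kernel)
            (CovZ.n2 (2800, 30480) (by decide +kernel)
             (CovZ.n2 (2800, 30560) (by decide +kernel)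
              (CovZ.leaf K2_ok TE_l11401 _)
              (CovZ.n1 (2760, 30520) (by decide +kernel)
               (CovZ.leaf K2_ok TE_l11402 _)
               (CovZ.leaf K2_ok TE_l11403 _)))
             (CovZ.n1 (2880, 30480) (by decide +kernel)
              (CovZ.n2 (2840, 30440) (by decide +kernel)
               (CovZ.leaf K2_ok TE_l11404 _)
               (CovZ.leaf K2_ok TE_l11405 _))
              (CovZ.leaf K2_ok TE_l11406 _)))
            (CovZ.n1 (2800, 30640) (by decide +kernel)
             (CovZ.n2 (2880, 30640) (by decide +kernel)
              (CovZ.n2 (2840, 30600) (by decide +kernel)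
               (CovZ.leaf K2_ok TE_l11407 _)
               (CovZ.leaf K2_ok TE_l11408 _))
              (CovZ.leaf K2_ok TE_l11409 _))
             (CovZ.n1 (2800, 30560) (by decide +kernel)
              (CovZ.leaf K2_ok TE_l11410 _)
              (CovZ.n1 (2840, 30600) (by decide +kernel)
               (CovZ.leaf K2_ok TE_l11411 _)
               (CovZ.leaf K2_ok TE_l11412 _)))))))
         (CovZ.subM 231544157483182154042374911797755970 (by decide +kernel)
          (CovZ.n1 (3200, 30400) (by decide +kernel)
           (CovZ.n2 (3040, 30240) (by decide +kernel)
            TE_u188
            TE_u189)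
           (CovZ.n1 (3040, 30560) (by decide +kernel)
            (CovZ.n2 (3200, 30560) (by decide +kernel)
             (CovZ.n2 (3120, 30480) (by decide +kernel)
              (CovZ.n2 (3120, 30560) (by decide +kernel)
               (CovZ.n2 (3160, 30520) (by decide +kernel)
                (CovZ.n2 (3120, 30520) (by decide +kernel)
                 (CovZ.leaf K2_ok TE_l11548 _)
                 (CovZ.leaf K2_ok TE_l11549 _))
                (CovZ.n1 (3160, 30560) (by decide +kernel)
                 (CovZ.leaf K2_ok TE_l11550 _)
                 (CovZ.n1 (3140, 30540) (by decide +kernel)
                  (CovZ.leaf K2_ok TE_l11551 _)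
                  (CovZ.leaf K2_ok TE_l11552 _))))
               (CovZ.n1 (3080, 30520) (by decide +kernel)
                (CovZ.n2 (3080, 30560) (by decide +kernel)
                 (CovZ.leaf K2_ok TE_l11553 _)
                 (CovZ.leaf K2_ok TE_l11554 _))
                (CovZ.n1 (3120, 30520) (by decide +kernel)
                 (CovZ.leaf K2_ok TE_l11555 _)
                 (CovZ.leaf K2_ok TE_l11556 _))))
              (CovZ.n1 (3200, 30480) (by decide +kernel)
               (CovZ.n2 (3160, 30440) (by decide +kernel)
                (CovZ.n2 (3160, 30480) (by decide +kernel)
                 (CovZ.leaf K2_ok TE_l11557 _)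
                 (CovZ.n1 (3140, 30460) (by decide +kernel)
                  (CovZ.leaf K2_ok TE_l11558 _)
                  (CovZ.leaf K2_ok TE_l11559 _)))
                (CovZ.subM 208016561414476429491301926490341378 (by decide +kernel)
                 (CovZ.n1 (3200, 30440) (by decide +kernel)
                  (CovZ.n2 (3180, 30420) (by decide +kernel)
                   (CovZ.leaf K2_ok TE_l11560 _)
                   (CovZ.leaf K2_ok TE_l11561 _))
                  (CovZ.n1 (3180, 30460) (by decide +kernel)
                   (CovZ.leaf K2_ok TE_l11562 _)
                   (CovZ.leaf K2_ok TE_l11563 _)))))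
               (CovZ.n1 (3160, 30520) (by decide +kernel)
                (CovZ.n2 (3200, 30520) (by decide +kernel)
                 (CovZ.n2 (3180, 30500) (by decide +kernel)
                  (CovZ.leaf K2_ok TE_l11564 _)
                  (CovZ.leaf K2_ok TE_l11565 _))
                 (CovZ.leaf K2_ok TE_l11566 _))
                (CovZ.n1 (3160, 30480) (by decide +kernel)
                 (CovZ.leaf K2_ok TE_l11567 _)
                 (CovZ.n1 (3180, 30500) (by decide +kernel)
                  (CovZ.leaf K2_ok TE_l11568 _)
                  (CovZ.leaf K2_ok TE_l11569 _))))))
             (CovZ.n1 (3120, 30640) (by decide +kernel)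
              (CovZ.n2 (3200, 30640) (by decide +kernel)
               (CovZ.n2 (3160, 30600) (by decide +kernel)
                (CovZ.n2 (3160, 30640) (by decide +kernel)
                 (CovZ.leaf K2_ok TE_l11570 _)
                 (CovZ.leaf K2_ok TE_l11571 _))
                (CovZ.n1 (3200, 30600) (by decide +kernel)
                 (CovZ.n2 (3180, 30580) (by decide +kernel)
                  (CovZ.leaf K2_ok TE_l11572 _)
                  (CovZ.leaf K2_ok TE_l11573 _))
                 (CovZ.leaf K2_ok TE_l11574 _)))
               (CovZ.n1 (3160, 30680) (by decide +kernel)
                (CovZ.n2 (3200, 30680) (by decide +kernel)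
                 (CovZ.n2 (3180, 30660) (by decide +kernel)
                  (CovZ.leaf K2_ok TE_l11575 _)
                  (CovZ.leaf K2_ok TE_l11576 _))
                 (CovZ.leaf K2_ok TE_l11577 _))
                (CovZ.n1 (3160, 30640) (by decide +kernel)
                 (CovZ.leaf K2_ok TE_l11578 _)
                 (CovZ.n1 (3180, 30660) (by decide +kernel)
                  (CovZ.leaf K2_ok TE_l11579 _)
                  (CovZ.leaf K2_ok TE_l11580 _)))))
              (CovZ.n1 (3120, 30560) (by decide +kernel)
               (CovZ.n2 (3080, 30600) (by decide +kernel)
                (CovZ.n2 (3120, 30600) (by decide +kernel)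
                 (CovZ.leaf K2_ok TE_l11581 _)
                 (CovZ.leaf K2_ok TE_l11582 _))
                (CovZ.n1 (3080, 30560) (by decide +kernel)
                 (CovZ.leaf K2_ok TE_l11583 _)
                 (CovZ.leaf K2_ok TE_l11584 _)))
               (CovZ.n1 (3160, 30600) (by decide +kernel)
                (CovZ.n2 (3160, 30560) (by decide +kernel)
                 (CovZ.leaf K2_ok TE_l11585 _)
                 (CovZ.n1 (3180, 30580) (by decide +kernel)
                  (CovZ.leaf K2_ok TE_l11586 _)
                  (CovZ.leaf K2_ok TE_l11587 _)))
                (CovZ.n1 (3120, 30600) (by decide +kernel)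
                 (CovZ.n2 (3140, 30620) (by decide +kernel)
                  (CovZ.leaf K2_ok TE_l11588 _)
                  (CovZ.leaf K2_ok TE_l11589 _))
                 (CovZ.leaf K2_ok TE_l11590 _))))))
            (CovZ.n1 (3040, 30400) (by decide +kernel)
             (CovZ.n2 (2960, 30480) (by decide +kernel)
              (CovZ.n2 (3040, 30480) (by decide +kernel)
               (CovZ.n2 (3000, 30440) (by decide +kernel)
                (CovZ.leaf K2_ok TE_l11591 _)
                (CovZ.leaf K2_ok TE_l11592 _))
               (CovZ.n1 (3000, 30520) (by decide +kernel)
                (CovZ.leaf K2_ok TE_l11593 _)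
                (CovZ.leaf K2_ok TE_l11594 _)))
              (CovZ.n1 (2960, 30400) (by decide +kernel)
               (CovZ.n2 (2920, 30440) (by decide +kernel)
                (CovZ.leaf K2_ok TE_l11595 _)
                (CovZ.leaf K2_ok TE_l11596 _))
               (CovZ.n1 (3000, 30440) (by decide +kernel)
                (CovZ.leaf K2_ok TE_l11597 _)
                (CovZ.leaf K2_ok TE_l11598 _))))
             (CovZ.n1 (3120, 30480) (by decide +kernel)
              (CovZ.n2 (3120, 30400) (by decide +kernel)
               (CovZ.n2 (3080, 30440) (by decide +kernel)
                (CovZ.n2 (3120, 30440) (by decide +kernel)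
                 (CovZ.n2 (3100, 30420) (by decide +kernel)
                  (CovZ.leaf K2_ok TE_l11599 _)
                  (CovZ.leaf K2_ok TE_l11600 _))
                 (CovZ.leaf K2_ok TE_l11601 _))
                (CovZ.n1 (3080, 30400) (by decide +kernel)
                 (CovZ.leaf K2_ok TE_l11602 _)
                 (CovZ.n1 (3100, 30420) (by decide +kernel)
                  (CovZ.leaf K2_ok TE_l11603 _)
                  (CovZ.leaf K2_ok TE_l11604 _))))
               (CovZ.n1 (3160, 30440) (by decide +kernel)
                (CovZ.n2 (3160, 30400) (by decide +kernel)
                 (CovZ.leaf K2_ok TE_l11605 _)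
                 (CovZ.n1 (3180, 30420) (by decide +kernel)
                  (CovZ.leaf K2_ok TE_l11606 _)
                  (CovZ.leaf K2_ok TE_l11607 _)))
                (CovZ.n1 (3120, 30440) (by decide +kernel)
                 (CovZ.n2 (3140, 30460) (by decide +kernel)
                  (CovZ.leaf K2_ok TE_l11608 _)
                  (CovZ.leaf K2_ok TE_l11609 _))
                 (CovZ.leaf K2_ok TE_l11610 _))))
              (CovZ.n1 (3040, 30480) (by decide +kernel)
               (CovZ.n2 (3080, 30520) (by decide +kernel)
                (CovZ.n2 (3080, 30480) (by decide +kernel)
                 (CovZ.leaf K2_ok TE_l11611 _)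
                 (CovZ.leaf K2_ok TE_l11612 _))
                (CovZ.n1 (3040, 30520) (by decide +kernel)
                 (CovZ.leaf K2_ok TE_l11613 _)
                 (CovZ.leaf K2_ok TE_l11614 _)))
               (CovZ.n1 (3080, 30440) (by decide +kernel)
                (CovZ.leaf K2_ok TE_l11615 _)
                (CovZ.n1 (3080, 30480) (by decide +kernel)
                 (CovZ.leaf K2_ok TE_l11616 _)
                 (CovZ.leaf K2_ok TE_l11617 _))))))))))

theorem TE_u191 : CovZ TE_M (toL (selN TE_LN 82436903098454379455414483816456)) [0, 7, 6, 1] (5120, 28160) (5440, 28160) (5440, 28480) :=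
    (CovZ.subM 26392574033928 (by decide +kernel)
           (CovZ.n2 (5280, 28320) (by decide +kernel)
            (CovZ.n2 (5440, 28320) (by decide +kernel)
             (CovZ.n2 (5360, 28240) (by decide +kernel)
              (CovZ.n2 (5360, 28320) (by decide +kernel)
               (CovZ.n2 (5400, 28280) (by decide +kernel)
                (CovZ.badM (by decide +kernel))
                (CovZ.n1 (5400, 28320) (by decide +kernel)
                 (CovZ.n2 (5420, 28300) (by decide +kernel)
                  (CovZ.n2 (5400, 28300) (by decide +kernel)
                   (CovZ.n2 (5410, 28310) (by decide +kernel)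
                    (CovZ.leaf K2_ok TE_l18589 _)
                    (CovZ.badM (by decide +kernel)))
                   (CovZ.n1 (5410, 28290) (by decide +kernel)
                    (CovZ.leaf K2_ok TE_l18590 _)
                    (CovZ.leaf K2_ok TE_l18591 _)))
                  (CovZ.n1 (5420, 28320) (by decide +kernel)
                   (CovZ.leaf K2_ok TE_l14226 _)
                   (CovZ.n1 (5410, 28310) (by decide +kernel)
                    (CovZ.leaf K2_ok TE_l18592 _)
                    (CovZ.leaf K2_ok TE_l18593 _))))
                 (CovZ.badM (by decide +kernel))))
               (CovZ.badM (by decide +kernel)))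
              (CovZ.n1 (5440, 28240) (by decide +kernel)
               (CovZ.n2 (5400, 28200) (by decide +kernel)
                (CovZ.n2 (5400, 28240) (by decide +kernel)
                 (CovZ.n2 (5420, 28220) (by decide +kernel)
                  (CovZ.n2 (5400, 28220) (by decide +kernel)
                   (CovZ.n2 (5410, 28230) (by decide +kernel)
                    (CovZ.leaf K2_ok TE_l14227 _)
                    (CovZ.leaf K2_ok TE_l14228 _))
                   (CovZ.leaf K2_ok TE_l14229 _))
                  (CovZ.n1 (5420, 28240) (by decide +kernel)
                   (CovZ.leaf K2_ok TE_l14230 _)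
                   (CovZ.leaf K2_ok TE_l14231 _)))
                 (CovZ.n1 (5380, 28220) (by decide +kernel)
                  (CovZ.n2 (5380, 28240) (by decide +kernel)
                   (CovZ.n2 (5390, 28230) (by decide +kernel)
                    (CovZ.leaf K2_ok TE_l18594 _)
                    (CovZ.leaf K2_ok TE_l18595 _))
                   (CovZ.badM (by decide +kernel)))
                  (CovZ.n1 (5400, 28220) (by decide +kernel)
                   (CovZ.n2 (5390, 28210) (by decide +kernel)
                    (CovZ.leaf K2_ok TE_l18596 _)
                    (CovZ.leaf K2_ok TE_l14232 _))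
                   (CovZ.leaf K2_ok TE_l18597 _))))
                (CovZ.n1 (5440, 28200) (by decide +kernel)
                 (CovZ.n2 (5420, 28180) (by decide +kernel)
                  (CovZ.n2 (5420, 28200) (by decide +kernel)
                   (CovZ.leaf K2_ok TE_l14233 _)
                   (CovZ.leaf K2_ok TE_l14234 _))
                  (CovZ.leaf K2_ok TE_l14235 _))
                 (CovZ.leaf K2_ok TE_l14236 _)))
               (CovZ.n1 (5400, 28280) (by decide +kernel)
                (CovZ.n2 (5440, 28280) (by decide +kernel)
                 (CovZ.n2 (5420, 28260) (by decide +kernel)
                  (CovZ.n2 (5420, 28280) (by decide +kernel)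
                   (CovZ.leaf K2_ok TE_l14237 _)
                   (CovZ.n1 (5410, 28270) (by decide +kernel)
                    (CovZ.leaf K2_ok TE_l14238 _)
                    (CovZ.leaf K2_ok TE_l14239 _)))
                  (CovZ.leaf K2_ok TE_l14240 _))
                 (CovZ.n1 (5420, 28300) (by decide +kernel)
                  (CovZ.leaf K2_ok TE_l14241 _)
                  (CovZ.n1 (5420, 28280) (by decide +kernel)
                   (CovZ.leaf K2_ok TE_l14242 _)
                   (CovZ.leaf K2_ok TE_l14243 _))))
                (CovZ.n1 (5400, 28240) (by decide +kernel)
                 (CovZ.n2 (5380, 28260) (by decide +kernel)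
                  (CovZ.n2 (5400, 28260) (by decide +kernel)
                   (CovZ.n2 (5390, 28250) (by decide +kernel)
                    (CovZ.n2 (5390, 28260) (by decide +kernel)
                     (CovZ.leaf K2_ok TE_l18598 _)
                     (CovZ.badM (by decide +kernel)))
                    (CovZ.leaf K2_ok TE_l18599 _))
                   (CovZ.leaf K2_ok TE_l18600 _))
                  (CovZ.n1 (5380, 28240) (by decide +kernel)
                   (CovZ.badM (by decide +kernel))
                   (CovZ.n1 (5390, 28250) (by decide +kernel)
                    (CovZ.leaf K2_ok TE_l18601 _)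
                    (CovZ.badM (by decide +kernel)))))
                 (CovZ.n1 (5420, 28260) (by decide +kernel)
                  (CovZ.leaf K2_ok TE_l14244 _)
                  (CovZ.n1 (5400, 28260) (by decide +kernel)
                   (CovZ.n2 (5410, 28270) (by decide +kernel)
                    (CovZ.leaf K2_ok TE_l14245 _)
                    (CovZ.leaf K2_ok TE_l18602 _))
                   (CovZ.leaf K2_ok TE_l14246 _)))))))
             (CovZ.n1 (5360, 28400) (by decide +kernel)
              (CovZ.n2 (5440, 28400) (by decide +kernel)
               (CovZ.n2 (5400, 28360) (by decide +kernel)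
                (CovZ.n2 (5400, 28400) (by decide +kernel)
                 (CovZ.n2 (5420, 28380) (by decide +kernel)
                  (CovZ.badM (by decide +kernel))
                  (CovZ.n1 (5420, 28400) (by decide +kernel)
                   (CovZ.n2 (5430, 28390) (by decide +kernel)
                    (CovZ.badM (by decide +kernel))
                    (CovZ.leaf K2_ok TE_l18603 _))
                   (CovZ.badM (by decide +kernel))))
                 (CovZ.badM (by decide +kernel)))
                (CovZ.n1 (5440, 28360) (by decide +kernel)
                 (CovZ.n2 (5420, 28340) (by decide +kernel)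
                  (CovZ.n2 (5420, 28360) (by decide +kernel)
                   (CovZ.leaf K2_ok TE_l14247 _)
                   (CovZ.badM (by decide +kernel)))
                  (CovZ.n1 (5440, 28340) (by decide +kernel)
                   (CovZ.leaf K2_ok TE_l14248 _)
                   (CovZ.leaf K2_ok TE_l14249 _)))
                 (CovZ.n1 (5420, 28380) (by decide +kernel)
                  (CovZ.n2 (5440, 28380) (by decide +kernel)
                   (CovZ.n2 (5430, 28370) (by decide +kernel)
                    (CovZ.leaf K2_ok TE_l18604 _)
                    (CovZ.leaf K2_ok TE_l14250 _))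
                   (CovZ.leaf K2_ok TE_l18605 _))
                  (CovZ.n1 (5420, 28360) (by decide +kernel)
                   (CovZ.badM (by decide +kernel))
                   (CovZ.n1 (5430, 28370) (by decide +kernel)
                    (CovZ.leaf K2_ok TE_l14251 _)
                    (CovZ.leaf K2_ok TE_l18606 _))))))
               (CovZ.n1 (5400, 28440) (by decide +kernel)
                (CovZ.n2 (5440, 28440) (by decide +kernel)
                 (CovZ.n2 (5420, 28420) (by decide +kernel)
                  (CovZ.badM (by decide +kernel))
                  (CovZ.n1 (5440, 28420) (by decide +kernel)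
                   (CovZ.n2 (5430, 28410) (by decide +kernel)
                    (CovZ.badM (by decide +kernel))
                    (CovZ.leaf K2_ok TE_l18607 _))
                   (CovZ.badM (by decide +kernel))))
                 (CovZ.badM (by decide +kernel)))
                (CovZ.n1 (5400, 28400) (by decide +kernel)
                 (CovZ.badM (by decide +kernel))
                 (CovZ.n1 (5420, 28420) (by decide +kernel)
                  (CovZ.n2 (5420, 28400) (by decide +kernel)
                   (CovZ.badM (by decide +kernel))
                   (CovZ.n1 (5430, 28410) (by decide +kernel)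
                    (CovZ.leaf K2_ok TE_l18608 _)
                    (CovZ.badM (by decide +kernel))))
                  (CovZ.badM (by decide +kernel))))))
              (CovZ.n1 (5360, 28320) (by decide +kernel)
               (CovZ.badM (by decide +kernel))
               (CovZ.n1 (5400, 28360) (by decide +kernel)
                (CovZ.n2 (5400, 28320) (by decide +kernel)
                 (CovZ.badM (by decide +kernel))
                 (CovZ.n1 (5420, 28340) (by decide +kernel)
                  (CovZ.n2 (5420, 28320) (by decide +kernel)
                   (CovZ.leaf K2_ok TE_l18609 _)
                   (CovZ.n1 (5430, 28330) (by decide +kernel)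
                    (CovZ.leaf K2_ok TE_l14252 _)
                    (CovZ.leaf K2_ok TE_l14253 _)))
                  (CovZ.badM (by decide +kernel))))
                (CovZ.badM (by decide +kernel))))))
            (CovZ.n1 (5280, 28160) (by decide +kernel)
             (CovZ.badM (by decide +kernel))
             (CovZ.n1 (5360, 28240) (by decide +kernel)
              (CovZ.n2 (5360, 28160) (by decide +kernel)
               (CovZ.n2 (5320, 28200) (by decide +kernel)
                (CovZ.n2 (5360, 28200) (by decide +kernel)
                 (CovZ.n2 (5340, 28180) (by decide +kernel)
                  (CovZ.badM (by decide +kernel))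
                  (CovZ.n1 (5360, 28180) (by decide +kernel)
                   (CovZ.n2 (5350, 28170) (by decide +kernel)
                    (CovZ.badM (by decide +kernel))
                    (CovZ.n1 (5360, 28170) (by decide +kernel)
                     (CovZ.leaf K2_ok TE_l18610 _)
                     (CovZ.leaf K2_ok TE_l18611 _)))
                   (CovZ.badM (by decide +kernel))))
                 (CovZ.badM (by decide +kernel)))
                (CovZ.n1 (5320, 28160) (by decide +kernel)
                 (CovZ.badM (by decide +kernel))
                 (CovZ.n1 (5340, 28180) (by decide +kernel)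
                  (CovZ.n2 (5340, 28160) (by decide +kernel)
                   (CovZ.badM (by decide +kernel))
                   (CovZ.n1 (5350, 28170) (by decide +kernel)
                    (CovZ.n2 (5350, 28160) (by decide +kernel)
                     (CovZ.badM (by decide +kernel))
                     (CovZ.n1 (5355, 28165) (by decide +kernel)
                      (CovZ.leaf K2_ok TE_l18612 _)
                      (CovZ.badM (by decide +kernel))))
                    (CovZ.badM (by decide +kernel))))
                  (CovZ.badM (by decide +kernel)))))
               (CovZ.n1 (5400, 28200) (by decide +kernel)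
                (CovZ.n2 (5400, 28160) (by decide +kernel)
                 (CovZ.n2 (5380, 28180) (by decide +kernel)
                  (CovZ.leaf K2_ok TE_l14254 _)
                  (CovZ.n1 (5380, 28160) (by decide +kernel)
                   (CovZ.leaf K2_ok TE_l18613 _)
                   (CovZ.n1 (5390, 28170) (by decide +kernel)
                    (CovZ.leaf K2_ok TE_l14255 _)
                    (CovZ.leaf K2_ok TE_l14256 _))))
                 (CovZ.n1 (5420, 28180) (by decide +kernel)
                  (CovZ.leaf K2_ok TE_l14257 _)
                  (CovZ.n1 (5400, 28180) (by decide +kernel)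
                   (CovZ.leaf K2_ok TE_l14258 _)
                   (CovZ.leaf K2_ok TE_l14259 _))))
                (CovZ.n1 (5360, 28200) (by decide +kernel)
                 (CovZ.n2 (5380, 28220) (by decide +kernel)
                  (CovZ.n2 (5380, 28200) (by decide +kernel)
                   (CovZ.n2 (5370, 28210) (by decide +kernel)
                    (CovZ.leaf K2_ok TE_l18614 _)
                    (CovZ.leaf K2_ok TE_l18615 _))
                   (CovZ.n1 (5390, 28210) (by decide +kernel)
                    (CovZ.leaf K2_ok TE_l14260 _)
                    (CovZ.leaf K2_ok TE_l18616 _)))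
                  (CovZ.badM (by decide +kernel)))
                 (CovZ.n1 (5380, 28180) (by decide +kernel)
                  (CovZ.n2 (5360, 28180) (by decide +kernel)
                   (CovZ.n2 (5370, 28190) (by decide +kernel)
                    (CovZ.leaf K2_ok TE_l18617 _)
                    (CovZ.leaf K2_ok TE_l18618 _))
                   (CovZ.n1 (5370, 28170) (by decide +kernel)
                    (CovZ.leaf K2_ok TE_l18619 _)
                    (CovZ.n1 (5370, 28180) (by decide +kernel)
                     (CovZ.leaf K2_ok TE_l18620 _)
                     (CovZ.leaf K2_ok TE_l18621 _))))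
                  (CovZ.n1 (5380, 28200) (by decide +kernel)
                   (CovZ.leaf K2_ok TE_l14261 _)
                   (CovZ.n1 (5370, 28190) (by decide +kernel)
                    (CovZ.n2 (5370, 28200) (by decide +kernel)
                     (CovZ.leaf K2_ok TE_l18622 _)
                     (CovZ.leaf K2_ok TE_l18623 _))
                    (CovZ.leaf K2_ok TE_l18624 _)))))))
              (CovZ.badM (by decide +kernel))))))

theorem TE_u192 : CovZ TE_M (toL (selN TE_LN 82436903098454379455414483816456)) [0, 7, 6, 1] (5440, 28160) (5760, 28160) (5440, 28480) :=
    (CovZ.n1 (5600, 28320) (by decide +kernel)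
           (CovZ.n2 (5600, 28160) (by decide +kernel)
            (CovZ.n2 (5520, 28240) (by decide +kernel)
             (CovZ.n2 (5600, 28240) (by decide +kernel)
              (CovZ.n2 (5560, 28200) (by decide +kernel)
               (CovZ.leaf K2_ok TE_l14262 _)
               (CovZ.leaf K2_ok TE_l14263 _))
              (CovZ.leaf K2_ok TE_l14264 _))
             (CovZ.n1 (5520, 28160) (by decide +kernel)
              (CovZ.n2 (5480, 28200) (by decide +kernel)
               (CovZ.leaf K2_ok TE_l14265 _)
               (CovZ.leaf K2_ok TE_l14266 _))
              (CovZ.n1 (5560, 28200) (by decide +kernel)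
               (CovZ.leaf K2_ok TE_l14267 _)
               (CovZ.leaf K2_ok TE_l14268 _))))
            (CovZ.n1 (5680, 28240) (by decide +kernel)
             (CovZ.leaf K2_ok TE_l14269 _)
             (CovZ.n1 (5600, 28240) (by decide +kernel)
              (CovZ.leaf K2_ok TE_l14270 _)
              (CovZ.leaf K2_ok TE_l14271 _))))
           (CovZ.subM 1267650600229382349393884086280 (by decide +kernel)
            (CovZ.n1 (5440, 28320) (by decide +kernel)
             (CovZ.n2 (5520, 28400) (by decide +kernel)
              (CovZ.n2 (5520, 28320) (by decide +kernel)
               (CovZ.n2 (5480, 28360) (by decide +kernel)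
                (CovZ.n2 (5520, 28360) (by decide +kernel)
                 (CovZ.leaf K2_ok TE_l14272 _)
                 (CovZ.leaf K2_ok TE_l14273 _))
                (CovZ.n1 (5480, 28320) (by decide +kernel)
                 (CovZ.leaf K2_ok TE_l14274 _)
                 (CovZ.n1 (5500, 28340) (by decide +kernel)
                  (CovZ.leaf K2_ok TE_l14275 _)
                  (CovZ.leaf K2_ok TE_l14276 _))))
               (CovZ.n1 (5560, 28360) (by decide +kernel)
                (CovZ.leaf K2_ok TE_l14277 _)
                (CovZ.n1 (5520, 28360) (by decide +kernel)
                 (CovZ.leaf K2_ok TE_l14278 _)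
                 (CovZ.leaf K2_ok TE_l14279 _))))
              (CovZ.n1 (5440, 28400) (by decide +kernel)
               (CovZ.n2 (5480, 28440) (by decide +kernel)
                (CovZ.n2 (5480, 28400) (by decide +kernel)
                 (CovZ.n2 (5460, 28420) (by decide +kernel)
                  (CovZ.leaf K2_ok TE_l14280 _)
                  (CovZ.leaf K2_ok TE_l14281 _))
                 (CovZ.n1 (5500, 28420) (by decide +kernel)
                  (CovZ.leaf K2_ok TE_l14282 _)
                  (CovZ.leaf K2_ok TE_l14283 _)))
                (CovZ.subM 17596481011720 (by decide +kernel)
                 (CovZ.n1 (5440, 28440) (by decide +kernel)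
                  (CovZ.n2 (5460, 28460) (by decide +kernel)
                   (CovZ.leaf K2_ok TE_l14284 _)
                   (CovZ.n1 (5440, 28460) (by decide +kernel)
                    (CovZ.n2 (5450, 28470) (by decide +kernel)
                     (CovZ.leaf K2_ok TE_l18625 _)
                     (CovZ.badM (by decide +kernel)))
                    (CovZ.leaf K2_ok TE_l18626 _)))
                  (CovZ.n1 (5460, 28420) (by decide +kernel)
                   (CovZ.n2 (5440, 28420) (by decide +kernel)
                    (CovZ.leaf K2_ok TE_l14285 _)
                    (CovZ.leaf K2_ok TE_l14286 _))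
                   (CovZ.n1 (5460, 28440) (by decide +kernel)
                    (CovZ.leaf K2_ok TE_l14287 _)
                    (CovZ.leaf K2_ok TE_l14288 _))))))
               (CovZ.n1 (5480, 28360) (by decide +kernel)
                (CovZ.n2 (5440, 28360) (by decide +kernel)
                 (CovZ.n2 (5460, 28380) (by decide +kernel)
                  (CovZ.leaf K2_ok TE_l14289 _)
                  (CovZ.n1 (5440, 28380) (by decide +kernel)
                   (CovZ.leaf K2_ok TE_l14290 _)
                   (CovZ.leaf K2_ok TE_l14291 _)))
                 (CovZ.n1 (5460, 28340) (by decide +kernel)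
                  (CovZ.leaf K2_ok TE_l14292 _)
                  (CovZ.leaf K2_ok TE_l14293 _)))
                (CovZ.n1 (5480, 28400) (by decide +kernel)
                 (CovZ.leaf K2_ok TE_l14294 _)
                 (CovZ.n1 (5460, 28380) (by decide +kernel)
                  (CovZ.n2 (5460, 28400) (by decide +kernel)
                   (CovZ.leaf K2_ok TE_l14295 _)
                   (CovZ.leaf K2_ok TE_l14296 _))
                  (CovZ.leaf K2_ok TE_l14297 _))))))
             (CovZ.n1 (5520, 28240) (by decide +kernel)
              (CovZ.n2 (5440, 28240) (by decide +kernel)
               (CovZ.n2 (5480, 28280) (by decide +kernel)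
                (CovZ.n2 (5480, 28240) (by decide +kernel)
                 (CovZ.leaf K2_ok TE_l14298 _)
                 (CovZ.leaf K2_ok TE_l14299 _))
                (CovZ.n1 (5440, 28280) (by decide +kernel)
                 (CovZ.n2 (5460, 28300) (by decide +kernel)
                  (CovZ.leaf K2_ok TE_l14300 _)
                  (CovZ.leaf K2_ok TE_l14301 _))
                 (CovZ.n1 (5460, 28260) (by decide +kernel)
                  (CovZ.leaf K2_ok TE_l14302 _)
                  (CovZ.leaf K2_ok TE_l14303 _))))
               (CovZ.n1 (5480, 28200) (by decide +kernel)
                (CovZ.n2 (5440, 28200) (by decide +kernel)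
                 (CovZ.n2 (5460, 28220) (by decide +kernel)
                  (CovZ.leaf K2_ok TE_l14304 _)
                  (CovZ.leaf K2_ok TE_l14305 _))
                 (CovZ.leaf K2_ok TE_l14306 _))
                (CovZ.n1 (5480, 28240) (by decide +kernel)
                 (CovZ.leaf K2_ok TE_l14307 _)
                 (CovZ.n1 (5460, 28220) (by decide +kernel)
                  (CovZ.leaf K2_ok TE_l14308 _)
                  (CovZ.leaf K2_ok TE_l14309 _)))))
              (CovZ.n1 (5520, 28320) (by decide +kernel)
               (CovZ.n2 (5560, 28280) (by decide +kernel)
                (CovZ.leaf K2_ok TE_l14310 _)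
                (CovZ.leaf K2_ok TE_l14311 _))
               (CovZ.n1 (5480, 28280) (by decide +kernel)
                (CovZ.n2 (5480, 28320) (by decide +kernel)
                 (CovZ.leaf K2_ok TE_l14312 _)
                 (CovZ.n1 (5460, 28300) (by decide +kernel)
                  (CovZ.leaf K2_ok TE_l14313 _)
                  (CovZ.leaf K2_ok TE_l14314 _)))
                (CovZ.leaf K2_ok TE_l14315 _)))))))

theorem TE_u193 : CovZ TE_M (toL (selN TE_LN 1606938044258990275541962092423604457380814586819237416538120)) [0, 7, 6, 1] (6400, 29440) (5120, 28160) (7680, 28160) :=
    (CovZ.n1 (6400, 28160) (by decide +kernel)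
     (CovZ.n2 (5760, 28800) (by decide +kernel)
      (CovZ.n2 (6400, 28800) (by decide +kernel)
       (CovZ.n2 (6080, 28480) (by decide +kernel)
        (CovZ.n2 (6080, 28800) (by decide +kernel)
         (CovZ.n2 (6240, 28640) (by decide +kernel)
          (CovZ.leaf K2_ok TE_l14152 _)
          (CovZ.leaf K2_ok TE_l14153 _))
         (CovZ.n1 (5920, 28640) (by decide +kernel)
          (CovZ.n2 (5920, 28800) (by decide +kernel)
           (CovZ.leaf K2_ok TE_l14154 _)
           (CovZ.n1 (5840, 28720) (by decide +kernel)
            (CovZ.leaf K2_ok TE_l14155 _)
            (CovZ.leaf K2_ok TE_l14156 _)))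
          (CovZ.leaf K2_ok TE_l14157 _)))
        (CovZ.n1 (6400, 28480) (by decide +kernel)
         (CovZ.n2 (6240, 28320) (by decide +kernel)
          (CovZ.leaf K2_ok TE_l14158 _)
          (CovZ.leaf K2_ok TE_l14159 _))
         (CovZ.leaf K2_ok TE_l14160 _)))
       (CovZ.n1 (6080, 29120) (by decide +kernel)
        (CovZ.n2 (6400, 29120) (by decide +kernel)
         (CovZ.n2 (6240, 28960) (by decide +kernel)
          (CovZ.leaf K2_ok TE_l14161 _)
          (CovZ.leaf K2_ok TE_l14162 _))
         (CovZ.leaf K2_ok TE_l14163 _))
        (CovZ.n1 (6080, 28800) (by decide +kernel)
         (CovZ.n2 (5920, 28960) (by decide +kernel)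
          (CovZ.n2 (6080, 28960) (by decide +kernel)
           (CovZ.leaf K2_ok TE_l14164 _)
           (CovZ.leaf K2_ok TE_l14165 _))
          (CovZ.n1 (5920, 28800) (by decide +kernel)
           (CovZ.leaf K2_ok TE_l14166 _)
           (CovZ.n1 (6000, 28880) (by decide +kernel)
            (CovZ.leaf K2_ok TE_l14167 _)
            (CovZ.leaf K2_ok TE_l14168 _))))
         (CovZ.n1 (6240, 28960) (by decide +kernel)
          (CovZ.leaf K2_ok TE_l14169 _)
          (CovZ.leaf K2_ok TE_l14170 _)))))
      (CovZ.n1 (5760, 28160) (by decide +kernel)
       (CovZ.n2 (5440, 28480) (by decide +kernel)
        (CovZ.n2 (5760, 28480) (by decide +kernel)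
         (CovZ.subM 82436903098454379455414483816456 (by decide +kernel)
          (CovZ.n2 (5600, 28320) (by decide +kernel)
           (CovZ.n2 (5600, 28480) (by decide +kernel)
            (CovZ.n2 (5680, 28400) (by decide +kernel)
             (CovZ.n2 (5600, 28400) (by decide +kernel)
              (CovZ.n2 (5640, 28440) (by decide +kernel)
               (CovZ.leaf K2_ok TE_l14171 _)
               (CovZ.leaf K2_ok TE_l14172 _))
              (CovZ.leaf K2_ok TE_l14173 _))
             (CovZ.n1 (5680, 28480) (by decide +kernel)
              (CovZ.leaf K2_ok TE_l14174 _)
              (CovZ.n1 (5640, 28440) (by decide +kernel)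
               (CovZ.leaf K2_ok TE_l14175 _)
               (CovZ.leaf K2_ok TE_l14176 _))))
            (CovZ.subM 1267650600229382349393884086280 (by decide +kernel)
             (CovZ.n1 (5520, 28400) (by decide +kernel)
              (CovZ.n2 (5520, 28480) (by decide +kernel)
               (CovZ.n2 (5560, 28440) (by decide +kernel)
                (CovZ.n2 (5520, 28440) (by decide +kernel)
                 (CovZ.leaf K2_ok TE_l14177 _)
                 (CovZ.leaf K2_ok TE_l14178 _))
                (CovZ.n1 (5560, 28480) (by decide +kernel)
                 (CovZ.leaf K2_ok TE_l14179 _)
                 (CovZ.leaf K2_ok TE_l14180 _)))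
               (CovZ.n1 (5480, 28440) (by decide +kernel)
                (CovZ.n2 (5480, 28480) (by decide +kernel)
                 (CovZ.n2 (5500, 28460) (by decide +kernel)
                  (CovZ.leaf K2_ok TE_l14181 _)
                  (CovZ.leaf K2_ok TE_l14182 _))
                 (CovZ.subM 17596481011720 (by decide +kernel)
                  (CovZ.n1 (5460, 28460) (by decide +kernel)
                   (CovZ.n2 (5460, 28480) (by decide +kernel)
                    (CovZ.leaf K2_ok TE_l14183 _)
                    (CovZ.n1 (5450, 28470) (by decide +kernel)
                     (CovZ.leaf K2_ok TE_l18586 _)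
                     (CovZ.leaf K2_ok TE_l18587 _)))
                   (CovZ.leaf K2_ok TE_l14184 _))))
                (CovZ.n1 (5520, 28440) (by decide +kernel)
                 (CovZ.n2 (5500, 28420) (by decide +kernel)
                  (CovZ.leaf K2_ok TE_l14185 _)
                  (CovZ.leaf K2_ok TE_l14186 _))
                 (CovZ.leaf K2_ok TE_l14187 _))))
              (CovZ.n1 (5600, 28400) (by decide +kernel)
               (CovZ.n2 (5560, 28360) (by decide +kernel)
                (CovZ.leaf K2_ok TE_l14188 _)
                (CovZ.leaf K2_ok TE_l14189 _))
               (CovZ.leaf K2_ok TE_l14190 _)))))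
           (CovZ.n1 (5760, 28320) (by decide +kernel)
            (CovZ.n2 (5680, 28240) (by decide +kernel)
             (CovZ.n2 (5680, 28320) (by decide +kernel)
              (CovZ.leaf K2_ok TE_l14191 _)
              (CovZ.leaf K2_ok TE_l14192 _))
             (CovZ.leaf K2_ok TE_l14193 _))
            (CovZ.n1 (5680, 28400) (by decide +kernel)
             (CovZ.leaf K2_ok TE_l14194 _)
             (CovZ.n1 (5680, 28320) (by decide +kernel)
              (CovZ.leaf K2_ok TE_l14195 _)
              (CovZ.leaf K2_ok TE_l14196 _))))))
         (CovZ.subM 82397289014836064045320328183816 (by decide +kernel)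
          (CovZ.n1 (5600, 28640) (by decide +kernel)
           (CovZ.n2 (5760, 28640) (by decide +kernel)
            (CovZ.n2 (5680, 28560) (by decide +kernel)
             (CovZ.n2 (5680, 28640) (by decide +kernel)
              (CovZ.leaf K2_ok TE_l14197 _)
              (CovZ.n1 (5640, 28600) (by decide +kernel)
               (CovZ.leaf K2_ok TE_l14198 _)
               (CovZ.leaf K2_ok TE_l14199 _)))
             (CovZ.leaf K2_ok TE_l14200 _))
            (CovZ.n1 (5680, 28720) (by decide +kernel)
             (CovZ.leaf K2_ok TE_l14201 _)
             (CovZ.n1 (5680, 28640) (by decide +kernel)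
              (CovZ.leaf K2_ok TE_l14202 _)
              (CovZ.leaf K2_ok TE_l14203 _))))
           (CovZ.n1 (5600, 28480) (by decide +kernel)
            (CovZ.n2 (5520, 28560) (by decide +kernel)
             (CovZ.n2 (5600, 28560) (by decide +kernel)
              (CovZ.n2 (5560, 28520) (by decide +kernel)
               (CovZ.n2 (5560, 28560) (by decide +kernel)
                (CovZ.leaf K2_ok TE_l14204 _)
                (CovZ.leaf K2_ok TE_l14205 _))
               (CovZ.leaf K2_ok TE_l14206 _))
              (CovZ.n1 (5560, 28600) (by decide +kernel)
               (CovZ.leaf K2_ok TE_l14207 _)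
               (CovZ.n1 (5560, 28560) (by decide +kernel)
                (CovZ.leaf K2_ok TE_l14208 _)
                (CovZ.leaf K2_ok TE_l14209 _))))
             (CovZ.n1 (5520, 28480) (by decide +kernel)
              (CovZ.n2 (5480, 28520) (by decide +kernel)
               (CovZ.n2 (5520, 28520) (by decide +kernel)
                (CovZ.n2 (5500, 28500) (by decide +kernel)
                 (CovZ.leaf K2_ok TE_l14210 _)
                 (CovZ.leaf K2_ok TE_l14211 _))
                (CovZ.leaf K2_ok TE_l14212 _))
               (CovZ.n1 (5480, 28480) (by decide +kernel)
                (CovZ.n2 (5460, 28500) (by decide +kernel)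
                 (CovZ.leaf K2_ok TE_l14213 _)
                 (CovZ.n1 (5460, 28480) (by decide +kernel)
                  (CovZ.leaf K2_ok TE_l18588 _)
                  (CovZ.leaf K2_ok TE_l14214 _)))
                (CovZ.n1 (5500, 28500) (by decide +kernel)
                 (CovZ.leaf K2_ok TE_l14215 _)
                 (CovZ.leaf K2_ok TE_l14216 _))))
              (CovZ.n1 (5560, 28520) (by decide +kernel)
               (CovZ.leaf K2_ok TE_l14217 _)
               (CovZ.n1 (5520, 28520) (by decide +kernel)
                (CovZ.n2 (5540, 28540) (by decide +kernel)
                 (CovZ.leaf K2_ok TE_l14218 _)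
                 (CovZ.leaf K2_ok TE_l14219 _))
                (CovZ.leaf K2_ok TE_l14220 _)))))
            (CovZ.n1 (5680, 28560) (by decide +kernel)
             (CovZ.n2 (5680, 28480) (by decide +kernel)
              (CovZ.leaf K2_ok TE_l14221 _)
              (CovZ.leaf K2_ok TE_l14222 _))
             (CovZ.n1 (5600, 28560) (by decide +kernel)
              (CovZ.n2 (5640, 28600) (by decide +kernel)
               (CovZ.leaf K2_ok TE_l14223 _)
               (CovZ.leaf K2_ok TE_l14224 _))
              (CovZ.leaf K2_ok TE_l14225 _)))))))
        (CovZ.subM 82436903098454379455414483816456 (by decide +kernel)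
         (CovZ.n1 (5440, 28160) (by decide +kernel)
          TE_u191
          TE_u192)))
       (CovZ.n1 (6080, 28480) (by decide +kernel)
        (CovZ.n2 (6080, 28160) (by decide +kernel)
         (CovZ.n2 (5920, 28320) (by decide +kernel)
          (CovZ.leaf K2_ok TE_l14316 _)
          (CovZ.n1 (5920, 28160) (by decide +kernel)
           (CovZ.leaf K2_ok TE_l14317 _)
           (CovZ.leaf K2_ok TE_l14318 _)))
         (CovZ.n1 (6240, 28320) (by decide +kernel)
          (CovZ.leaf K2_ok TE_l14319 _)
          (CovZ.leaf K2_ok TE_l14320 _)))
        (CovZ.n1 (5760, 28480) (by decide +kernel)
         (CovZ.n2 (5920, 28640) (by decide +kernel)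
          (CovZ.n2 (5920, 28480) (by decide +kernel)
           (CovZ.leaf K2_ok TE_l14321 _)
           (CovZ.leaf K2_ok TE_l14322 _))
          (CovZ.subM 82402240774993205566419924684808 (by decide +kernel)
           (CovZ.n1 (5760, 28640) (by decide +kernel)
            (CovZ.n2 (5840, 28720) (by decide +kernel)
             (CovZ.leaf K2_ok TE_l14323 _)
             (CovZ.leaf K2_ok TE_l14324 _))
            (CovZ.n1 (5840, 28560) (by decide +kernel)
             (CovZ.leaf K2_ok TE_l14325 _)
             (CovZ.leaf K2_ok TE_l14326 _)))))
         (CovZ.n1 (5920, 28320) (by decide +kernel)
          (CovZ.n2 (5760, 28320) (by decide +kernel)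
           (CovZ.n2 (5840, 28400) (by decide +kernel)
            (CovZ.leaf K2_ok TE_l14327 _)
            (CovZ.leaf K2_ok TE_l14328 _))
           (CovZ.leaf K2_ok TE_l14329 _))
          (CovZ.n1 (5920, 28480) (by decide +kernel)
           (CovZ.leaf K2_ok TE_l14330 _)
           (CovZ.n1 (5840, 28400) (by decide +kernel)
            (CovZ.leaf K2_ok TE_l14331 _)
            (CovZ.leaf K2_ok TE_l14332 _))))))))
     (CovZ.n1 (7040, 28800) (by decide +kernel)
      (CovZ.n2 (7040, 28160) (by decide +kernel)
       (CovZ.leaf K2_ok TE_l14333 _)
       (CovZ.n1 (7360, 28480) (by decide +kernel)
        (CovZ.leaf K2_ok TE_l14334 _)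
        (CovZ.leaf K2_ok TE_l14335 _)))
      (CovZ.n1 (6400, 28800) (by decide +kernel)
       (CovZ.n2 (6720, 29120) (by decide +kernel)
        (CovZ.n2 (6720, 28800) (by decide +kernel)
         (CovZ.leaf K2_ok TE_l14336 _)
         (CovZ.leaf K2_ok TE_l14337 _))
        (CovZ.n1 (6400, 29120) (by decide +kernel)
         (CovZ.n2 (6560, 29280) (by decide +kernel)
          (CovZ.leaf K2_ok TE_l14338 _)
          (CovZ.leaf K2_ok TE_l14339 _))
         (CovZ.leaf K2_ok TE_l14340 _)))
       (CovZ.n1 (6720, 28480) (by decide +kernel)
        (CovZ.n2 (6400, 28480) (by decide +kernel)
         (CovZ.leaf K2_ok TE_l14341 _)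
         (CovZ.leaf K2_ok TE_l14342 _))
        (CovZ.n1 (6720, 28800) (by decide +kernel)
         (CovZ.leaf K2_ok TE_l14343 _)
         (CovZ.leaf K2_ok TE_l14344 _))))))

theorem TE_u194 : CovZ TE_M (toL (selN TE_LN 1267650600229382323143043973120)) [0, 7, 6, 1] (5760, 29440) (5760, 29760) (5440, 29760) :=
    (CovZ.n2 (5600, 29600) (by decide +kernel)
            (CovZ.n2 (5600, 29760) (by decide +kernel)
             (CovZ.n2 (5680, 29680) (by decide +kernel)
              (CovZ.n2 (5600, 29680) (by decide +kernel)
               (CovZ.n2 (5640, 29720) (by decide +kernel)
                (CovZ.n2 (5640, 29680) (by decide +kernel)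
                 (CovZ.n2 (5620, 29700) (by decide +kernel)
                  (CovZ.n2 (5640, 29700) (by decide +kernel)
                   (CovZ.n2 (5630, 29690) (by decide +kernel)
                    (CovZ.leaf K2_ok TE_l18627 _)
                    (CovZ.leaf K2_ok TE_l18628 _))
                   (CovZ.leaf K2_ok TE_l18629 _))
                  (CovZ.n1 (5620, 29680) (by decide +kernel)
                   (CovZ.badM (by decide +kernel))
                   (CovZ.n1 (5630, 29690) (by decide +kernel)
                    (CovZ.leaf K2_ok TE_l18630 _)
                    (CovZ.badM (by decide +kernel)))))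
                 (CovZ.n1 (5660, 29700) (by decide +kernel)
                  (CovZ.leaf K2_ok TE_l18631 _)
                  (CovZ.leaf K2_ok TE_l18632 _)))
                (CovZ.n1 (5600, 29720) (by decide +kernel)
                 (CovZ.n2 (5620, 29740) (by decide +kernel)
                  (CovZ.n2 (5620, 29720) (by decide +kernel)
                   (CovZ.badM (by decide +kernel))
                   (CovZ.n1 (5630, 29730) (by decide +kernel)
                    (CovZ.leaf K2_ok TE_l18633 _)
                    (CovZ.badM (by decide +kernel))))
                  (CovZ.badM (by decide +kernel)))
                 (CovZ.n1 (5620, 29700) (by decide +kernel)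
                  (CovZ.badM (by decide +kernel))
                  (CovZ.n1 (5620, 29720) (by decide +kernel)
                   (CovZ.leaf K2_ok TE_l18634 _)
                   (CovZ.badM (by decide +kernel))))))
               (CovZ.n1 (5640, 29640) (by decide +kernel)
                (CovZ.n2 (5600, 29640) (by decide +kernel)
                 (CovZ.n2 (5620, 29660) (by decide +kernel)
                  (CovZ.n2 (5620, 29640) (by decide +kernel)
                   (CovZ.badM (by decide +kernel))
                   (CovZ.leaf K2_ok TE_l18635 _))
                  (CovZ.badM (by decide +kernel)))
                 (CovZ.n1 (5620, 29620) (by decide +kernel)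
                  (CovZ.badM (by decide +kernel))
                  (CovZ.n1 (5620, 29640) (by decide +kernel)
                   (CovZ.leaf K2_ok TE_l18636 _)
                   (CovZ.badM (by decide +kernel)))))
                (CovZ.n1 (5640, 29680) (by decide +kernel)
                 (CovZ.n2 (5660, 29660) (by decide +kernel)
                  (CovZ.leaf K2_ok TE_l18637 _)
                  (CovZ.leaf K2_ok TE_l18638 _))
                 (CovZ.n1 (5620, 29660) (by decide +kernel)
                  (CovZ.n2 (5620, 29680) (by decide +kernel)
                   (CovZ.leaf K2_ok TE_l18639 _)
                   (CovZ.badM (by decide +kernel)))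
                  (CovZ.n1 (5640, 29660) (by decide +kernel)
                   (CovZ.leaf K2_ok TE_l18640 _)
                   (CovZ.leaf K2_ok TE_l18641 _))))))
              (CovZ.n1 (5680, 29760) (by decide +kernel)
               (CovZ.n2 (5720, 29720) (by decide +kernel)
                (CovZ.n2 (5680, 29720) (by decide +kernel)
                 (CovZ.n2 (5700, 29740) (by decide +kernel)
                  (CovZ.leaf K2_ok TE_l18642 _)
                  (CovZ.leaf K2_ok TE_l18643 _))
                 (CovZ.leaf K2_ok TE_l18644 _))
                (CovZ.n1 (5720, 29760) (by decide +kernel)
                 (CovZ.leaf K2_ok TE_l18645 _)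
                 (CovZ.leaf K2_ok TE_l18646 _)))
               (CovZ.n1 (5640, 29720) (by decide +kernel)
                (CovZ.n2 (5640, 29760) (by decide +kernel)
                 (CovZ.n2 (5660, 29740) (by decide +kernel)
                  (CovZ.n2 (5640, 29740) (by decide +kernel)
                   (CovZ.leaf K2_ok TE_l18647 _)
                   (CovZ.leaf K2_ok TE_l18648 _))
                  (CovZ.leaf K2_ok TE_l18649 _))
                 (CovZ.n1 (5620, 29740) (by decide +kernel)
                  (CovZ.badM (by decide +kernel))
                  (CovZ.n1 (5640, 29740) (by decide +kernel)
                   (CovZ.leaf K2_ok TE_l18650 _)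
                   (CovZ.badM (by decide +kernel)))))
                (CovZ.n1 (5680, 29720) (by decide +kernel)
                 (CovZ.n2 (5660, 29700) (by decide +kernel)
                  (CovZ.leaf K2_ok TE_l18651 _)
                  (CovZ.leaf K2_ok TE_l18652 _))
                 (CovZ.leaf K2_ok TE_l18653 _)))))
             (CovZ.badM (by decide +kernel)))
            (CovZ.n1 (5760, 29600) (by decide +kernel)
             (CovZ.n2 (5680, 29520) (by decide +kernel)
              (CovZ.n2 (5680, 29600) (by decide +kernel)
               (CovZ.n2 (5720, 29560) (by decide +kernel)
                (CovZ.n2 (5680, 29560) (by decide +kernel)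
                 (CovZ.leaf K2_ok TE_l18654 _)
                 (CovZ.leaf K2_ok TE_l18655 _))
                (CovZ.n1 (5720, 29600) (by decide +kernel)
                 (CovZ.leaf K2_ok TE_l14345 _)
                 (CovZ.leaf K2_ok TE_l18656 _)))
               (CovZ.n1 (5640, 29560) (by decide +kernel)
                (CovZ.n2 (5640, 29600) (by decide +kernel)
                 (CovZ.n2 (5660, 29580) (by decide +kernel)
                  (CovZ.leaf K2_ok TE_l18657 _)
                  (CovZ.leaf K2_ok TE_l18658 _))
                 (CovZ.n1 (5620, 29580) (by decide +kernel)
                  (CovZ.n2 (5620, 29600) (by decide +kernel)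
                   (CovZ.leaf K2_ok TE_l18659 _)
                   (CovZ.badM (by decide +kernel)))
                  (CovZ.leaf K2_ok TE_l18660 _)))
                (CovZ.n1 (5680, 29560) (by decide +kernel)
                 (CovZ.n2 (5660, 29540) (by decide +kernel)
                  (CovZ.leaf K2_ok TE_l18661 _)
                  (CovZ.leaf K2_ok TE_l18662 _))
                 (CovZ.leaf K2_ok TE_l18663 _))))
              (CovZ.n1 (5760, 29520) (by decide +kernel)
               (CovZ.n2 (5720, 29480) (by decide +kernel)
                (CovZ.n2 (5720, 29520) (by decide +kernel)
                 (CovZ.leaf K2_ok TE_l14346 _)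
                 (CovZ.leaf K2_ok TE_l18664 _))
                (CovZ.leaf K2_ok TE_l14347 _))
               (CovZ.leaf K2_ok TE_l14348 _)))
             (CovZ.n1 (5680, 29680) (by decide +kernel)
              (CovZ.n2 (5760, 29680) (by decide +kernel)
               (CovZ.n2 (5720, 29640) (by decide +kernel)
                (CovZ.n2 (5720, 29680) (by decide +kernel)
                 (CovZ.leaf K2_ok TE_l18665 _)
                 (CovZ.leaf K2_ok TE_l18666 _))
                (CovZ.leaf K2_ok TE_l14349 _))
               (CovZ.n1 (5720, 29720) (by decide +kernel)
                (CovZ.leaf K2_ok TE_l18667 _)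
                (CovZ.leaf K2_ok TE_l18668 _)))
              (CovZ.n1 (5680, 29600) (by decide +kernel)
               (CovZ.n2 (5640, 29640) (by decide +kernel)
                (CovZ.n2 (5680, 29640) (by decide +kernel)
                 (CovZ.n2 (5660, 29620) (by decide +kernel)
                  (CovZ.leaf K2_ok TE_l18669 _)
                  (CovZ.leaf K2_ok TE_l18670 _))
                 (CovZ.leaf K2_ok TE_l18671 _))
                (CovZ.n1 (5640, 29600) (by decide +kernel)
                 (CovZ.n2 (5620, 29620) (by decide +kernel)
                  (CovZ.leaf K2_ok TE_l18672 _)
                  (CovZ.n1 (5620, 29600) (by decide +kernel)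
                   (CovZ.badM (by decide +kernel))
                   (CovZ.n1 (5630, 29610) (by decide +kernel)
                    (CovZ.leaf K2_ok TE_l18673 _)
                    (CovZ.leaf K2_ok TE_l18674 _))))
                 (CovZ.n1 (5660, 29620) (by decide +kernel)
                  (CovZ.leaf K2_ok TE_l18675 _)
                  (CovZ.leaf K2_ok TE_l18676 _))))
               (CovZ.n1 (5720, 29640) (by decide +kernel)
                (CovZ.leaf K2_ok TE_l14350 _)
                (CovZ.n1 (5680, 29640) (by decide +kernel)
                 (CovZ.leaf K2_ok TE_l18677 _)
                 (CovZ.leaf K2_ok TE_l18678 _)))))))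

theorem TE_u195 : CovZ TE_M (toL (selN TE_LN 1267650600229382323143043973120)) [0, 7, 6, 1] (5760, 29760) (5760, 30080) (5440, 29760) :=
    (CovZ.n1 (5600, 29920) (by decide +kernel)
            (CovZ.n2 (5760, 29920) (by decide +kernel)
             (CovZ.n2 (5680, 29840) (by decide +kernel)
              (CovZ.n2 (5680, 29920) (by decide +kernel)
               (CovZ.n2 (5720, 29880) (by decide +kernel)
                (CovZ.n2 (5680, 29880) (by decide +kernel)
                 (CovZ.n2 (5700, 29900) (by decide +kernel)
                  (CovZ.leaf K2_ok TE_l18679 _)
                  (CovZ.leaf K2_ok TE_l18680 _))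
                 (CovZ.leaf K2_ok TE_l18681 _))
                (CovZ.n1 (5720, 29920) (by decide +kernel)
                 (CovZ.leaf K2_ok TE_l18682 _)
                 (CovZ.n1 (5700, 29900) (by decide +kernel)
                  (CovZ.leaf K2_ok TE_l18683 _)
                  (CovZ.leaf K2_ok TE_l18684 _))))
               (CovZ.n1 (5640, 29880) (by decide +kernel)
                (CovZ.n2 (5640, 29920) (by decide +kernel)
                 (CovZ.n2 (5660, 29900) (by decide +kernel)
                  (CovZ.n2 (5640, 29900) (by decide +kernel)
                   (CovZ.n2 (5650, 29910) (by decide +kernel)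
                    (CovZ.leaf K2_ok TE_l18685 _)
                    (CovZ.badM (by decide +kernel)))
                   (CovZ.leaf K2_ok TE_l18686 _))
                  (CovZ.n1 (5660, 29920) (by decide +kernel)
                   (CovZ.leaf K2_ok TE_l18687 _)
                   (CovZ.n1 (5650, 29910) (by decide +kernel)
                    (CovZ.leaf K2_ok TE_l18688 _)
                    (CovZ.leaf K2_ok TE_l18689 _))))
                 (CovZ.badM (by decide +kernel)))
                (CovZ.n1 (5680, 29880) (by decide +kernel)
                 (CovZ.n2 (5660, 29860) (by decide +kernel)
                  (CovZ.n2 (5660, 29880) (by decide +kernel)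
                   (CovZ.leaf K2_ok TE_l18690 _)
                   (CovZ.leaf K2_ok TE_l18691 _))
                  (CovZ.leaf K2_ok TE_l18692 _))
                 (CovZ.n1 (5660, 29900) (by decide +kernel)
                  (CovZ.leaf K2_ok TE_l18693 _)
                  (CovZ.leaf K2_ok TE_l18694 _)))))
              (CovZ.n1 (5760, 29840) (by decide +kernel)
               (CovZ.n2 (5720, 29800) (by decide +kernel)
                (CovZ.n2 (5720, 29840) (by decide +kernel)
                 (CovZ.leaf K2_ok TE_l18695 _)
                 (CovZ.n1 (5700, 29820) (by decide +kernel)
                  (CovZ.leaf K2_ok TE_l18696 _)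
                  (CovZ.leaf K2_ok TE_l18697 _)))
                (CovZ.leaf K2_ok TE_l18698 _))
               (CovZ.n1 (5720, 29880) (by decide +kernel)
                (CovZ.leaf K2_ok TE_l18699 _)
                (CovZ.n1 (5720, 29840) (by decide +kernel)
                 (CovZ.leaf K2_ok TE_l18700 _)
                 (CovZ.leaf K2_ok TE_l18701 _)))))
             (CovZ.n1 (5680, 30000) (by decide +kernel)
              (CovZ.n2 (5760, 30000) (by decide +kernel)
               (CovZ.n2 (5720, 29960) (by decide +kernel)
                (CovZ.n2 (5720, 30000) (by decide +kernel)
                 (CovZ.leaf K2_ok TE_l18702 _)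
                 (CovZ.n1 (5700, 29980) (by decide +kernel)
                  (CovZ.leaf K2_ok TE_l18703 _)
                  (CovZ.leaf K2_ok TE_l18704 _)))
                (CovZ.leaf K2_ok TE_l18705 _))
               (CovZ.n1 (5720, 30040) (by decide +kernel)
                (CovZ.leaf K2_ok TE_l18706 _)
                (CovZ.n1 (5720, 30000) (by decide +kernel)
                 (CovZ.leaf K2_ok TE_l18707 _)
                 (CovZ.leaf K2_ok TE_l18708 _))))
              (CovZ.n1 (5680, 29920) (by decide +kernel)
               (CovZ.n2 (5640, 29960) (by decide +kernel)
                (CovZ.n2 (5680, 29960) (by decide +kernel)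
                 (CovZ.n2 (5660, 29940) (by decide +kernel)
                  (CovZ.n2 (5660, 29960) (by decide +kernel)
                   (CovZ.leaf K2_ok TE_l18709 _)
                   (CovZ.n1 (5650, 29950) (by decide +kernel)
                    (CovZ.leaf K2_ok TE_l18710 _)
                    (CovZ.leaf K2_ok TE_l18711 _)))
                  (CovZ.leaf K2_ok TE_l18712 _))
                 (CovZ.n1 (5660, 29980) (by decide +kernel)
                  (CovZ.leaf K2_ok TE_l18713 _)
                  (CovZ.leaf K2_ok TE_l18714 _)))
                (CovZ.n1 (5640, 29920) (by decide +kernel)
                 (CovZ.badM (by decide +kernel))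
                 (CovZ.n1 (5660, 29940) (by decide +kernel)
                  (CovZ.n2 (5660, 29920) (by decide +kernel)
                   (CovZ.leaf K2_ok TE_l18715 _)
                   (CovZ.leaf K2_ok TE_l18716 _))
                  (CovZ.n1 (5640, 29940) (by decide +kernel)
                   (CovZ.n2 (5650, 29950) (by decide +kernel)
                    (CovZ.leaf K2_ok TE_l18717 _)
                    (CovZ.badM (by decide +kernel)))
                   (CovZ.leaf K2_ok TE_l18718 _)))))
               (CovZ.n1 (5720, 29960) (by decide +kernel)
                (CovZ.n2 (5720, 29920) (by decide +kernel)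
                 (CovZ.leaf K2_ok TE_l18719 _)
                 (CovZ.leaf K2_ok TE_l18720 _))
                (CovZ.n1 (5680, 29960) (by decide +kernel)
                 (CovZ.n2 (5700, 29980) (by decide +kernel)
                  (CovZ.leaf K2_ok TE_l18721 _)
                  (CovZ.leaf K2_ok TE_l18722 _))
                 (CovZ.n1 (5700, 29940) (by decide +kernel)
                  (CovZ.leaf K2_ok TE_l18723 _)
                  (CovZ.leaf K2_ok TE_l18724 _)))))))
            (CovZ.n1 (5600, 29760) (by decide +kernel)
             (CovZ.badM (by decide +kernel))
             (CovZ.n1 (5680, 29840) (by decide +kernel)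
              (CovZ.n2 (5680, 29760) (by decide +kernel)
               (CovZ.n2 (5640, 29800) (by decide +kernel)
                (CovZ.n2 (5680, 29800) (by decide +kernel)
                 (CovZ.n2 (5660, 29780) (by decide +kernel)
                  (CovZ.leaf K2_ok TE_l18725 _)
                  (CovZ.leaf K2_ok TE_l18726 _))
                 (CovZ.leaf K2_ok TE_l18727 _))
                (CovZ.n1 (5640, 29760) (by decide +kernel)
                 (CovZ.badM (by decide +kernel))
                 (CovZ.n1 (5660, 29780) (by decide +kernel)
                  (CovZ.leaf K2_ok TE_l18728 _)
                  (CovZ.n1 (5640, 29780) (by decide +kernel)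
                   (CovZ.leaf K2_ok TE_l18729 _)
                   (CovZ.leaf K2_ok TE_l18730 _)))))
               (CovZ.n1 (5720, 29800) (by decide +kernel)
                (CovZ.leaf K2_ok TE_l18731 _)
                (CovZ.n1 (5680, 29800) (by decide +kernel)
                 (CovZ.n2 (5700, 29820) (by decide +kernel)
                  (CovZ.leaf K2_ok TE_l18732 _)
                  (CovZ.leaf K2_ok TE_l18733 _))
                 (CovZ.leaf K2_ok TE_l18734 _))))
              (CovZ.n1 (5600, 29840) (by decide +kernel)
               (CovZ.n2 (5640, 29880) (by decide +kernel)
                (CovZ.n2 (5640, 29840) (by decide +kernel)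
                 (CovZ.badM (by decide +kernel))
                 (CovZ.n1 (5660, 29860) (by decide +kernel)
                  (CovZ.leaf K2_ok TE_l18735 _)
                  (CovZ.n1 (5640, 29860) (by decide +kernel)
                   (CovZ.n2 (5650, 29870) (by decide +kernel)
                    (CovZ.leaf K2_ok TE_l18736 _)
                    (CovZ.badM (by decide +kernel)))
                   (CovZ.leaf K2_ok TE_l18737 _))))
                (CovZ.badM (by decide +kernel)))
               (CovZ.n1 (5640, 29800) (by decide +kernel)
                (CovZ.badM (by decide +kernel))
                (CovZ.n1 (5640, 29840) (by decide +kernel)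
                 (CovZ.n2 (5660, 29820) (by decide +kernel)
                  (CovZ.n2 (5640, 29820) (by decide +kernel)
                   (CovZ.leaf K2_ok TE_l18738 _)
                   (CovZ.leaf K2_ok TE_l18739 _))
                  (CovZ.n1 (5660, 29840) (by decide +kernel)
                   (CovZ.leaf K2_ok TE_l18740 _)
                   (CovZ.leaf K2_ok TE_l18741 _)))
                 (CovZ.badM (by decide +kernel))))))))

theorem TE_u196 : CovZ TE_M (toL (selN TE_LN 1607036123973605692428897026552167872910183975717618885591048)) [0, 7, 6, 1] (5120, 29440) (5120, 28800) (5760, 28800) :=
    (CovZ.n2 (5440, 29120) (by decide +kernel)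
         (CovZ.n2 (5440, 28800) (by decide +kernel)
          (CovZ.badM (by decide +kernel))
          (CovZ.n1 (5600, 28960) (by decide +kernel)
           (CovZ.n2 (5600, 28800) (by decide +kernel)
            (CovZ.subM 1267650600229382323005605019656 (by decide +kernel)
             (CovZ.n2 (5520, 28880) (by decide +kernel)
              (CovZ.n2 (5600, 28880) (by decide +kernel)
               (CovZ.n2 (5560, 28840) (by decide +kernel)
                (CovZ.n2 (5560, 28880) (by decide +kernel)
                 (CovZ.n2 (5580, 28860) (by decide +kernel)
                  (CovZ.leaf K2_ok TE_l14392 _)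
                  (CovZ.leaf K2_ok TE_l14393 _))
                 (CovZ.n1 (5540, 28860) (by decide +kernel)
                  (CovZ.n2 (5540, 28880) (by decide +kernel)
                   (CovZ.leaf K2_ok TE_l18776 _)
                   (CovZ.badM (by decide +kernel)))
                  (CovZ.leaf K2_ok TE_l14394 _)))
                (CovZ.n1 (5600, 28840) (by decide +kernel)
                 (CovZ.n2 (5580, 28820) (by decide +kernel)
                  (CovZ.leaf K2_ok TE_l14395 _)
                  (CovZ.leaf K2_ok TE_l14396 _))
                 (CovZ.leaf K2_ok TE_l14397 _)))
               (CovZ.n1 (5560, 28920) (by decide +kernel)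
                (CovZ.n2 (5600, 28920) (by decide +kernel)
                 (CovZ.n2 (5580, 28900) (by decide +kernel)
                  (CovZ.leaf K2_ok TE_l14398 _)
                  (CovZ.leaf K2_ok TE_l14399 _))
                 (CovZ.leaf K2_ok TE_l14400 _))
                (CovZ.n1 (5560, 28880) (by decide +kernel)
                 (CovZ.n2 (5540, 28900) (by decide +kernel)
                  (CovZ.leaf K2_ok TE_l18777 _)
                  (CovZ.n1 (5540, 28880) (by decide +kernel)
                   (CovZ.badM (by decide +kernel))
                   (CovZ.leaf K2_ok TE_l18778 _)))
                 (CovZ.n1 (5580, 28900) (by decide +kernel)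
                  (CovZ.leaf K2_ok TE_l14401 _)
                  (CovZ.leaf K2_ok TE_l14402 _)))))
              (CovZ.n1 (5520, 28800) (by decide +kernel)
               (CovZ.badM (by decide +kernel))
               (CovZ.n1 (5560, 28840) (by decide +kernel)
                (CovZ.n2 (5560, 28800) (by decide +kernel)
                 (CovZ.leaf K2_ok TE_l14403 _)
                 (CovZ.n1 (5580, 28820) (by decide +kernel)
                  (CovZ.leaf K2_ok TE_l14404 _)
                  (CovZ.leaf K2_ok TE_l14405 _)))
                (CovZ.n1 (5520, 28840) (by decide +kernel)
                 (CovZ.n2 (5540, 28860) (by decide +kernel)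
                  (CovZ.leaf K2_ok TE_l14406 _)
                  (CovZ.badM (by decide +kernel)))
                 (CovZ.n1 (5540, 28820) (by decide +kernel)
                  (CovZ.badM (by decide +kernel))
                  (CovZ.n1 (5540, 28840) (by decide +kernel)
                   (CovZ.leaf K2_ok TE_l14407 _)
                   (CovZ.badM (by decide +kernel)))))))))
            (CovZ.n1 (5680, 28880) (by decide +kernel)
             (CovZ.n2 (5680, 28800) (by decide +kernel)
              (CovZ.leaf K2_ok TE_l14408 _)
              (CovZ.n1 (5720, 28840) (by decide +kernel)
               (CovZ.leaf K2_ok TE_l14409 _)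
               (CovZ.leaf K2_ok TE_l14410 _)))
             (CovZ.n1 (5600, 28880) (by decide +kernel)
              (CovZ.n2 (5640, 28920) (by decide +kernel)
               (CovZ.leaf K2_ok TE_l14411 _)
               (CovZ.n1 (5600, 28920) (by decide +kernel)
                (CovZ.n2 (5620, 28940) (by decide +kernel)
                 (CovZ.leaf K2_ok TE_l14412 _)
                 (CovZ.leaf K2_ok TE_l14413 _))
                (CovZ.leaf K2_ok TE_l14414 _)))
              (CovZ.n1 (5640, 28840) (by decide +kernel)
               (CovZ.n2 (5600, 28840) (by decide +kernel)
                (CovZ.leaf K2_ok TE_l14415 _)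
                (CovZ.leaf K2_ok TE_l14416 _))
               (CovZ.n1 (5640, 28880) (by decide +kernel)
                (CovZ.leaf K2_ok TE_l14417 _)
                (CovZ.leaf K2_ok TE_l14418 _))))))
           (CovZ.subM 1267650600229382323005605019648 (by decide +kernel)
            (CovZ.n1 (5440, 28960) (by decide +kernel)
             (CovZ.n2 (5520, 29040) (by decide +kernel)
              (CovZ.n2 (5520, 28960) (by decide +kernel)
               (CovZ.badM (by decide +kernel))
               (CovZ.n1 (5560, 29000) (by decide +kernel)
                (CovZ.n2 (5560, 28960) (by decide +kernel)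
                 (CovZ.badM (by decide +kernel))
                 (CovZ.n1 (5580, 28980) (by decide +kernel)
                  (CovZ.leaf K2_ok TE_l14419 _)
                  (CovZ.leaf K2_ok TE_l18779 _)))
                (CovZ.badM (by decide +kernel))))
              (CovZ.badM (by decide +kernel)))
             (CovZ.n1 (5520, 28880) (by decide +kernel)
              (CovZ.badM (by decide +kernel))
              (CovZ.n1 (5520, 28960) (by decide +kernel)
               (CovZ.n2 (5560, 28920) (by decide +kernel)
                (CovZ.n2 (5520, 28920) (by decide +kernel)
                 (CovZ.n2 (5540, 28940) (by decide +kernel)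
                  (CovZ.n2 (5540, 28920) (by decide +kernel)
                   (CovZ.badM (by decide +kernel))
                   (CovZ.leaf K2_ok TE_l18780 _))
                  (CovZ.badM (by decide +kernel)))
                 (CovZ.n1 (5540, 28900) (by decide +kernel)
                  (CovZ.badM (by decide +kernel))
                  (CovZ.n1 (5540, 28920) (by decide +kernel)
                   (CovZ.leaf K2_ok TE_l18781 _)
                   (CovZ.badM (by decide +kernel)))))
                (CovZ.n1 (5560, 28960) (by decide +kernel)
                 (CovZ.n2 (5580, 28940) (by decide +kernel)
                  (CovZ.leaf K2_ok TE_l18782 _)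
                  (CovZ.leaf K2_ok TE_l14420 _))
                 (CovZ.n1 (5540, 28940) (by decide +kernel)
                  (CovZ.badM (by decide +kernel))
                  (CovZ.leaf K2_ok TE_l18783 _))))
               (CovZ.badM (by decide +kernel))))))))
         (CovZ.badM (by decide +kernel)))

theorem TE_u197 : CovZ TE_M (toL (selN TE_LN 1607036123973605692428897026552167872910183975717618885591048)) [0, 7, 6, 1] (5120, 28800) (5120, 28160) (5760, 28800) :=
    (CovZ.n1 (5440, 28480) (by decide +kernel)
         (CovZ.n2 (5120, 28480) (by decide +kernel)
          (CovZ.n2 (5280, 28640) (by decide +kernel)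
           (CovZ.badM (by decide +kernel))
           (CovZ.badM (by decide +kernel)))
          (CovZ.badM (by decide +kernel)))
         (CovZ.n1 (5440, 28800) (by decide +kernel)
          (CovZ.n2 (5600, 28640) (by decide +kernel)
           (CovZ.n2 (5440, 28640) (by decide +kernel)
            (CovZ.n2 (5520, 28720) (by decide +kernel)
             (CovZ.n2 (5520, 28640) (by decide +kernel)
              (CovZ.subM 4294967296 (by decide +kernel)
               (CovZ.n2 (5480, 28680) (by decide +kernel)
                (CovZ.n2 (5520, 28680) (by decide +kernel)
                 (CovZ.n2 (5500, 28660) (by decide +kernel)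
                  (CovZ.n2 (5500, 28680) (by decide +kernel)
                   (CovZ.leaf K2_ok TE_l14421 _)
                   (CovZ.badM (by decide +kernel)))
                  (CovZ.leaf K2_ok TE_l14422 _))
                 (CovZ.n1 (5500, 28700) (by decide +kernel)
                  (CovZ.leaf K2_ok TE_l14423 _)
                  (CovZ.n1 (5500, 28680) (by decide +kernel)
                   (CovZ.badM (by decide +kernel))
                   (CovZ.leaf K2_ok TE_l14424 _))))
                (CovZ.n1 (5480, 28640) (by decide +kernel)
                 (CovZ.badM (by decide +kernel))
                 (CovZ.n1 (5500, 28660) (by decide +kernel)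
                  (CovZ.n2 (5500, 28640) (by decide +kernel)
                   (CovZ.leaf K2_ok TE_l18784 _)
                   (CovZ.leaf K2_ok TE_l14425 _))
                  (CovZ.badM (by decide +kernel))))))
              (CovZ.n1 (5560, 28680) (by decide +kernel)
               (CovZ.n2 (5560, 28640) (by decide +kernel)
                (CovZ.leaf K2_ok TE_l14426 _)
                (CovZ.leaf K2_ok TE_l14427 _))
               (CovZ.subM 1267650600229382323005605019656 (by decide +kernel)
                (CovZ.n1 (5520, 28680) (by decide +kernel)
                 (CovZ.n2 (5540, 28700) (by decide +kernel)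
                  (CovZ.leaf K2_ok TE_l14428 _)
                  (CovZ.leaf K2_ok TE_l14429 _))
                 (CovZ.n1 (5540, 28660) (by decide +kernel)
                  (CovZ.leaf K2_ok TE_l14430 _)
                  (CovZ.leaf K2_ok TE_l14431 _))))))
             (CovZ.subM 4294967296 (by decide +kernel)
              (CovZ.n1 (5440, 28720) (by decide +kernel)
               (CovZ.n2 (5480, 28760) (by decide +kernel)
                (CovZ.n2 (5480, 28720) (by decide +kernel)
                 (CovZ.badM (by decide +kernel))
                 (CovZ.n1 (5500, 28740) (by decide +kernel)
                  (CovZ.n2 (5500, 28720) (by decide +kernel)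
                   (CovZ.badM (by decide +kernel))
                   (CovZ.n1 (5510, 28730) (by decide +kernel)
                    (CovZ.leaf K2_ok TE_l18785 _)
                    (CovZ.badM (by decide +kernel))))
                  (CovZ.badM (by decide +kernel))))
                (CovZ.badM (by decide +kernel)))
               (CovZ.n1 (5480, 28680) (by decide +kernel)
                (CovZ.badM (by decide +kernel))
                (CovZ.n1 (5480, 28720) (by decide +kernel)
                 (CovZ.n2 (5500, 28700) (by decide +kernel)
                  (CovZ.badM (by decide +kernel))
                  (CovZ.n1 (5500, 28720) (by decide +kernel)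
                   (CovZ.leaf K2_ok TE_l18786 _)
                   (CovZ.badM (by decide +kernel))))
                 (CovZ.badM (by decide +kernel)))))))
            (CovZ.n1 (5520, 28560) (by decide +kernel)
             (CovZ.subM 4294967304 (by decide +kernel)
              (CovZ.n2 (5440, 28560) (by decide +kernel)
               (CovZ.n2 (5480, 28600) (by decide +kernel)
                (CovZ.n2 (5480, 28560) (by decide +kernel)
                 (CovZ.n2 (5460, 28580) (by decide +kernel)
                  (CovZ.n2 (5480, 28580) (by decide +kernel)
                   (CovZ.n2 (5470, 28570) (by decide +kernel)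
                    (CovZ.badM (by decide +kernel))
                    (CovZ.leaf K2_ok TE_l18787 _))
                   (CovZ.badM (by decide +kernel)))
                  (CovZ.n1 (5460, 28560) (by decide +kernel)
                   (CovZ.badM (by decide +kernel))
                   (CovZ.n1 (5470, 28570) (by decide +kernel)
                    (CovZ.leaf K2_ok TE_l18788 _)
                    (CovZ.badM (by decide +kernel)))))
                 (CovZ.n1 (5500, 28580) (by decide +kernel)
                  (CovZ.leaf K2_ok TE_l14432 _)
                  (CovZ.n1 (5480, 28580) (by decide +kernel)
                   (CovZ.n2 (5490, 28590) (by decide +kernel)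
                    (CovZ.leaf K2_ok TE_l14433 _)
                    (CovZ.leaf K2_ok TE_l18789 _))
                   (CovZ.leaf K2_ok TE_l14434 _))))
                (CovZ.badM (by decide +kernel)))
               (CovZ.n1 (5480, 28520) (by decide +kernel)
                (CovZ.n2 (5440, 28520) (by decide +kernel)
                 (CovZ.n2 (5460, 28540) (by decide +kernel)
                  (CovZ.n2 (5460, 28520) (by decide +kernel)
                   (CovZ.badM (by decide +kernel))
                   (CovZ.leaf K2_ok TE_l14435 _))
                  (CovZ.badM (by decide +kernel)))
                 (CovZ.n1 (5460, 28500) (by decide +kernel)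
                  (CovZ.badM (by decide +kernel))
                  (CovZ.n1 (5460, 28520) (by decide +kernel)
                   (CovZ.leaf K2_ok TE_l14436 _)
                   (CovZ.badM (by decide +kernel)))))
                (CovZ.n1 (5480, 28560) (by decide +kernel)
                 (CovZ.n2 (5500, 28540) (by decide +kernel)
                  (CovZ.n2 (5480, 28540) (by decide +kernel)
                   (CovZ.leaf K2_ok TE_l14437 _)
                   (CovZ.leaf K2_ok TE_l14438 _))
                  (CovZ.n1 (5500, 28560) (by decide +kernel)
                   (CovZ.leaf K2_ok TE_l14439 _)
                   (CovZ.leaf K2_ok TE_l14440 _)))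
                 (CovZ.n1 (5460, 28540) (by decide +kernel)
                  (CovZ.n2 (5460, 28560) (by decide +kernel)
                   (CovZ.leaf K2_ok TE_l18790 _)
                   (CovZ.badM (by decide +kernel)))
                  (CovZ.leaf K2_ok TE_l14441 _))))))
             (CovZ.n1 (5520, 28640) (by decide +kernel)
              (CovZ.n2 (5560, 28600) (by decide +kernel)
               (CovZ.n2 (5520, 28600) (by decide +kernel)
                (CovZ.n2 (5540, 28620) (by decide +kernel)
                 (CovZ.leaf K2_ok TE_l14442 _)
                 (CovZ.leaf K2_ok TE_l14443 _))
                (CovZ.leaf K2_ok TE_l14444 _))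
               (CovZ.n1 (5560, 28640) (by decide +kernel)
                (CovZ.leaf K2_ok TE_l14445 _)
                (CovZ.n1 (5540, 28620) (by decide +kernel)
                 (CovZ.leaf K2_ok TE_l14446 _)
                 (CovZ.leaf K2_ok TE_l14447 _))))
              (CovZ.subM 4294967304 (by decide +kernel)
               (CovZ.n1 (5480, 28600) (by decide +kernel)
                (CovZ.n2 (5480, 28640) (by decide +kernel)
                 (CovZ.n2 (5500, 28620) (by decide +kernel)
                  (CovZ.n2 (5480, 28620) (by decide +kernel)
                   (CovZ.n2 (5490, 28630) (by decide +kernel)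
                    (CovZ.leaf K2_ok TE_l18791 _)
                    (CovZ.badM (by decide +kernel)))
                   (CovZ.leaf K2_ok TE_l18792 _))
                  (CovZ.n1 (5500, 28640) (by decide +kernel)
                   (CovZ.leaf K2_ok TE_l14448 _)
                   (CovZ.leaf K2_ok TE_l18793 _)))
                 (CovZ.badM (by decide +kernel)))
                (CovZ.n1 (5520, 28600) (by decide +kernel)
                 (CovZ.n2 (5500, 28580) (by decide +kernel)
                  (CovZ.n2 (5500, 28600) (by decide +kernel)
                   (CovZ.leaf K2_ok TE_l14449 _)
                   (CovZ.leaf K2_ok TE_l14450 _))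
                  (CovZ.leaf K2_ok TE_l14451 _))
                 (CovZ.n1 (5500, 28620) (by decide +kernel)
                  (CovZ.leaf K2_ok TE_l14452 _)
                  (CovZ.leaf K2_ok TE_l14453 _))))))))
           (CovZ.n1 (5600, 28800) (by decide +kernel)
            (CovZ.n2 (5680, 28720) (by decide +kernel)
             (CovZ.n2 (5600, 28720) (by decide +kernel)
              (CovZ.n2 (5640, 28760) (by decide +kernel)
               (CovZ.leaf K2_ok TE_l14454 _)
               (CovZ.leaf K2_ok TE_l14455 _))
              (CovZ.n1 (5640, 28680) (by decide +kernel)
               (CovZ.leaf K2_ok TE_l14456 _)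
               (CovZ.leaf K2_ok TE_l14457 _)))
             (CovZ.n1 (5680, 28800) (by decide +kernel)
              (CovZ.leaf K2_ok TE_l14458 _)
              (CovZ.n1 (5640, 28760) (by decide +kernel)
               (CovZ.leaf K2_ok TE_l14459 _)
               (CovZ.leaf K2_ok TE_l14460 _))))
            (CovZ.n1 (5520, 28720) (by decide +kernel)
             (CovZ.subM 1267650600229382323005605019656 (by decide +kernel)
              (CovZ.n2 (5520, 28800) (by decide +kernel)
               (CovZ.n2 (5560, 28760) (by decide +kernel)
                (CovZ.n2 (5520, 28760) (by decide +kernel)
                 (CovZ.n2 (5540, 28780) (by decide +kernel)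
                  (CovZ.leaf K2_ok TE_l14461 _)
                  (CovZ.n1 (5520, 28780) (by decide +kernel)
                   (CovZ.leaf K2_ok TE_l18794 _)
                   (CovZ.leaf K2_ok TE_l18795 _)))
                 (CovZ.n1 (5540, 28740) (by decide +kernel)
                  (CovZ.leaf K2_ok TE_l14462 _)
                  (CovZ.leaf K2_ok TE_l14463 _)))
                (CovZ.n1 (5560, 28800) (by decide +kernel)
                 (CovZ.leaf K2_ok TE_l14464 _)
                 (CovZ.n1 (5540, 28780) (by decide +kernel)
                  (CovZ.n2 (5540, 28800) (by decide +kernel)
                   (CovZ.leaf K2_ok TE_l14465 _)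
                   (CovZ.leaf K2_ok TE_l18796 _))
                  (CovZ.leaf K2_ok TE_l14466 _))))
               (CovZ.n1 (5480, 28760) (by decide +kernel)
                (CovZ.badM (by decide +kernel))
                (CovZ.n1 (5520, 28760) (by decide +kernel)
                 (CovZ.n2 (5500, 28740) (by decide +kernel)
                  (CovZ.badM (by decide +kernel))
                  (CovZ.leaf K2_ok TE_l18797 _))
                 (CovZ.badM (by decide +kernel))))))
             (CovZ.n1 (5600, 28720) (by decide +kernel)
              (CovZ.n2 (5560, 28680) (by decide +kernel)
               (CovZ.n2 (5560, 28720) (by decide +kernel)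
                (CovZ.leaf K2_ok TE_l14467 _)
                (CovZ.n1 (5540, 28700) (by decide +kernel)
                 (CovZ.leaf K2_ok TE_l14468 _)
                 (CovZ.leaf K2_ok TE_l14469 _)))
               (CovZ.leaf K2_ok TE_l14470 _))
              (CovZ.subM 1267650600229382340735230017544 (by decide +kernel)
               (CovZ.n1 (5560, 28760) (by decide +kernel)
                (CovZ.n2 (5600, 28760) (by decide +kernel)
                 (CovZ.leaf K2_ok TE_l14471 _)
                 (CovZ.leaf K2_ok TE_l14472 _))
                (CovZ.n1 (5560, 28720) (by decide +kernel)
                 (CovZ.leaf K2_ok TE_l14473 _)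
                 (CovZ.n1 (5580, 28740) (by decide +kernel)
                  (CovZ.leaf K2_ok TE_l14474 _)
                  (CovZ.leaf K2_ok TE_l14475 _)))))))))
          (CovZ.n1 (5280, 28640) (by decide +kernel)
           (CovZ.badM (by decide +kernel))
           (CovZ.badM (by decide +kernel)))))

theorem TE_u198 : CovZ TE_M (toL (selN TE_LN 1272602360386523872829943054344)) [0, 7, 6, 1] (5760, 28800) (5760, 29120) (5440, 29120) :=
    (CovZ.n2 (5600, 28960) (by decide +kernel)
           (CovZ.subM 1267650600229382340735230017544 (by decide +kernel)
            (CovZ.n2 (5600, 29120) (by decide +kernel)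
             (CovZ.n2 (5680, 29040) (by decide +kernel)
              (CovZ.n2 (5600, 29040) (by decide +kernel)
               (CovZ.n2 (5640, 29080) (by decide +kernel)
                (CovZ.n2 (5640, 29040) (by decide +kernel)
                 (CovZ.leaf K2_ok TE_l14516 _)
                 (CovZ.leaf K2_ok TE_l14517 _))
                (CovZ.n1 (5600, 29080) (by decide +kernel)
                 (CovZ.n2 (5620, 29100) (by decide +kernel)
                  (CovZ.leaf K2_ok TE_l14518 _)
                  (CovZ.leaf K2_ok TE_l18829 _))
                 (CovZ.leaf K2_ok TE_l14519 _)))
               (CovZ.n1 (5640, 29000) (by decide +kernel)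
                (CovZ.n2 (5600, 29000) (by decide +kernel)
                 (CovZ.n2 (5620, 29020) (by decide +kernel)
                  (CovZ.leaf K2_ok TE_l14520 _)
                  (CovZ.leaf K2_ok TE_l14521 _))
                 (CovZ.leaf K2_ok TE_l14522 _))
                (CovZ.n1 (5640, 29040) (by decide +kernel)
                 (CovZ.leaf K2_ok TE_l14523 _)
                 (CovZ.n1 (5620, 29020) (by decide +kernel)
                  (CovZ.leaf K2_ok TE_l14524 _)
                  (CovZ.leaf K2_ok TE_l14525 _)))))
              (CovZ.n1 (5680, 29120) (by decide +kernel)
               (CovZ.n2 (5720, 29080) (by decide +kernel)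
                (CovZ.leaf K2_ok TE_l14526 _)
                (CovZ.leaf K2_ok TE_l14527 _))
               (CovZ.n1 (5640, 29080) (by decide +kernel)
                (CovZ.n2 (5640, 29120) (by decide +kernel)
                 (CovZ.leaf K2_ok TE_l14528 _)
                 (CovZ.n1 (5620, 29100) (by decide +kernel)
                  (CovZ.leaf K2_ok TE_l14529 _)
                  (CovZ.leaf K2_ok TE_l14530 _)))
                (CovZ.leaf K2_ok TE_l14531 _))))
             (CovZ.subM 1267650600229382323005605019648 (by decide +kernel)
              (CovZ.n1 (5520, 29040) (by decide +kernel)
               (CovZ.n2 (5520, 29120) (by decide +kernel)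
                (CovZ.n2 (5560, 29080) (by decide +kernel)
                 (CovZ.badM (by decide +kernel))
                 (CovZ.n1 (5560, 29120) (by decide +kernel)
                  (CovZ.n2 (5580, 29100) (by decide +kernel)
                   (CovZ.n2 (5560, 29100) (by decide +kernel)
                    (CovZ.n2 (5570, 29110) (by decide +kernel)
                     (CovZ.leaf K2_ok TE_l18830 _)
                     (CovZ.badM (by decide +kernel)))
                    (CovZ.leaf K2_ok TE_l18831 _))
                   (CovZ.n1 (5580, 29120) (by decide +kernel)
                    (CovZ.leaf K2_ok TE_l18832 _)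
                    (CovZ.n1 (5570, 29110) (by decide +kernel)
                     (CovZ.badM (by decide +kernel))
                     (CovZ.leaf K2_ok TE_l18833 _))))
                  (CovZ.badM (by decide +kernel))))
                (CovZ.badM (by decide +kernel)))
               (CovZ.n1 (5600, 29040) (by decide +kernel)
                (CovZ.n2 (5560, 29000) (by decide +kernel)
                 (CovZ.n2 (5560, 29040) (by decide +kernel)
                  (CovZ.n2 (5580, 29020) (by decide +kernel)
                   (CovZ.n2 (5560, 29020) (by decide +kernel)
                    (CovZ.leaf K2_ok TE_l18834 _)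
                    (CovZ.leaf K2_ok TE_l18835 _))
                   (CovZ.n1 (5580, 29040) (by decide +kernel)
                    (CovZ.leaf K2_ok TE_l18836 _)
                    (CovZ.leaf K2_ok TE_l18837 _)))
                  (CovZ.badM (by decide +kernel)))
                 (CovZ.n1 (5600, 29000) (by decide +kernel)
                  (CovZ.n2 (5580, 28980) (by decide +kernel)
                   (CovZ.leaf K2_ok TE_l18838 _)
                   (CovZ.leaf K2_ok TE_l14532 _))
                  (CovZ.leaf K2_ok TE_l18839 _)))
                (CovZ.n1 (5560, 29080) (by decide +kernel)
                 (CovZ.n2 (5600, 29080) (by decide +kernel)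
                  (CovZ.n2 (5580, 29060) (by decide +kernel)
                   (CovZ.n2 (5580, 29080) (by decide +kernel)
                    (CovZ.leaf K2_ok TE_l18840 _)
                    (CovZ.leaf K2_ok TE_l18841 _))
                   (CovZ.leaf K2_ok TE_l18842 _))
                  (CovZ.n1 (5580, 29100) (by decide +kernel)
                   (CovZ.leaf K2_ok TE_l18843 _)
                   (CovZ.leaf K2_ok TE_l18844 _)))
                 (CovZ.n1 (5560, 29040) (by decide +kernel)
                  (CovZ.badM (by decide +kernel))
                  (CovZ.n1 (5580, 29060) (by decide +kernel)
                   (CovZ.leaf K2_ok TE_l18845 _)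
                   (CovZ.n1 (5560, 29060) (by decide +kernel)
                    (CovZ.n2 (5570, 29070) (by decide +kernel)
                     (CovZ.leaf K2_ok TE_l18846 _)
                     (CovZ.badM (by decide +kernel)))
                    (CovZ.leaf K2_ok TE_l18847 _))))))))))
           (CovZ.n1 (5760, 28960) (by decide +kernel)
            (CovZ.n2 (5680, 28880) (by decide +kernel)
             (CovZ.n2 (5680, 28960) (by decide +kernel)
              (CovZ.leaf K2_ok TE_l14533 _)
              (CovZ.n1 (5640, 28920) (by decide +kernel)
               (CovZ.n2 (5640, 28960) (by decide +kernel)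
                (CovZ.leaf K2_ok TE_l14534 _)
                (CovZ.leaf K2_ok TE_l14535 _))
               (CovZ.leaf K2_ok TE_l14536 _)))
             (CovZ.n1 (5760, 28880) (by decide +kernel)
              (CovZ.n2 (5720, 28840) (by decide +kernel)
               (CovZ.leaf K2_ok TE_l14537 _)
               (CovZ.leaf K2_ok TE_l14538 _))
              (CovZ.leaf K2_ok TE_l14539 _)))
            (CovZ.n1 (5680, 29040) (by decide +kernel)
             (CovZ.n2 (5760, 29040) (by decide +kernel)
              (CovZ.n2 (5720, 29000) (by decide +kernel)
               (CovZ.leaf K2_ok TE_l14540 _)
               (CovZ.leaf K2_ok TE_l14541 _))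
              (CovZ.leaf K2_ok TE_l14542 _))
             (CovZ.n1 (5680, 28960) (by decide +kernel)
              (CovZ.n2 (5640, 29000) (by decide +kernel)
               (CovZ.leaf K2_ok TE_l14543 _)
               (CovZ.n1 (5640, 28960) (by decide +kernel)
                (CovZ.leaf K2_ok TE_l14544 _)
                (CovZ.leaf K2_ok TE_l14545 _)))
              (CovZ.n1 (5720, 29000) (by decide +kernel)
               (CovZ.leaf K2_ok TE_l14546 _)
               (CovZ.leaf K2_ok TE_l14547 _))))))

end Pool.Agent.TET
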