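import Pool.Agent.Helper38_TET.TE_M
import Pool.Agent.Helper38_TET.TE_L
import Pool.Agent.Helper38_TET.TE_12
import Pool.Agent.Helper38_TET.TE_13
import Pool.Agent.Helper38_TET.TE_14
import Pool.Agent.Helper38_TET.TE_95
import Pool.Agent.Helper38_TET.TE_96
import Pool.Agent.Helper38_TET.TE_97
import Pool.Agent.Helper38_TET.TE_108
import Pool.Agent.Helper38_TET.TE_109
import Pool.Agent.Helper38_TET.TE_110
import Pool.Agent.Helper38_TET.TE_115
import Pool.Agent.Helper38_TET.TE_125
import Pool.Agent.Helper38_TET.TE_126
import Pool.Agent.Helper38_TET.TE_127
import Pool.Agent.Helper38_TET.TE_131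
import Pool.Agent.Helper38_TET.TE_132
import Pool.Agent.Helper38_TET.TE_U12

/-!
# MP_c7c9bf_co: certificates, family TE
-/

set_option autoImplicit false
set_option maxRecDepth 100000

namespace Pool.Agent.TET

theorem TE_u199 : CovZ TE_M (toL (selN TE_LN 1272602360386523872829943054344)) [0, 7, 6, 1] (5760, 29120) (5760, 29440) (5440, 29120) :=
    (CovZ.subM 1267650600229382340735230017544 (by decide +kernel)
           (CovZ.n1 (5600, 29280) (by decide +kernel)
            (CovZ.n2 (5760, 29280) (by decide +kernel)
             (CovZ.n2 (5680, 29200) (by decide +kernel)
              (CovZ.n2 (5680, 29280) (by decide +kernel)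
               (CovZ.n2 (5720, 29240) (by decide +kernel)
                (CovZ.leaf K2_ok TE_l14548 _)
                (CovZ.leaf K2_ok TE_l14549 _))
               (CovZ.n1 (5640, 29240) (by decide +kernel)
                (CovZ.n2 (5640, 29280) (by decide +kernel)
                 (CovZ.leaf K2_ok TE_l14550 _)
                 (CovZ.n1 (5620, 29260) (by decide +kernel)
                  (CovZ.leaf K2_ok TE_l18848 _)
                  (CovZ.leaf K2_ok TE_l18849 _)))
                (CovZ.n1 (5680, 29240) (by decide +kernel)
                 (CovZ.leaf K2_ok TE_l14551 _)
                 (CovZ.leaf K2_ok TE_l14552 _))))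
              (CovZ.n1 (5760, 29200) (by decide +kernel)
               (CovZ.n2 (5720, 29160) (by decide +kernel)
                (CovZ.leaf K2_ok TE_l14553 _)
                (CovZ.leaf K2_ok TE_l14554 _))
               (CovZ.leaf K2_ok TE_l14555 _)))
             (CovZ.n1 (5680, 29360) (by decide +kernel)
              (CovZ.n2 (5760, 29360) (by decide +kernel)
               (CovZ.n2 (5720, 29320) (by decide +kernel)
                (CovZ.leaf K2_ok TE_l14556 _)
                (CovZ.leaf K2_ok TE_l14557 _))
               (CovZ.leaf K2_ok TE_l14558 _))
              (CovZ.n1 (5680, 29280) (by decide +kernel)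
               (CovZ.subM 1267650600229382323005605019648 (by decide +kernel)
                (CovZ.n2 (5640, 29320) (by decide +kernel)
                 (CovZ.n2 (5680, 29320) (by decide +kernel)
                  (CovZ.leaf K2_ok TE_l14559 _)
                  (CovZ.leaf K2_ok TE_l18850 _))
                 (CovZ.n1 (5640, 29280) (by decide +kernel)
                  (CovZ.leaf K2_ok TE_l18851 _)
                  (CovZ.n1 (5660, 29300) (by decide +kernel)
                   (CovZ.leaf K2_ok TE_l14560 _)
                   (CovZ.leaf K2_ok TE_l18852 _)))))
               (CovZ.n1 (5720, 29320) (by decide +kernel)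
                (CovZ.leaf K2_ok TE_l14561 _)
                (CovZ.leaf K2_ok TE_l14562 _)))))
            (CovZ.n1 (5600, 29120) (by decide +kernel)
             (CovZ.subM 1267650600229382323001310052352 (by decide +kernel)
              (CovZ.n2 (5520, 29200) (by decide +kernel)
               (CovZ.n2 (5600, 29200) (by decide +kernel)
                (CovZ.n2 (5560, 29160) (by decide +kernel)
                 (CovZ.n2 (5560, 29200) (by decide +kernel)
                  (CovZ.n2 (5580, 29180) (by decide +kernel)
                   (CovZ.badM (by decide +kernel))
                   (CovZ.n1 (5580, 29200) (by decide +kernel)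
                    (CovZ.leaf K2_ok TE_l18853 _)
                    (CovZ.badM (by decide +kernel))))
                  (CovZ.badM (by decide +kernel)))
                 (CovZ.n1 (5600, 29160) (by decide +kernel)
                  (CovZ.n2 (5580, 29140) (by decide +kernel)
                   (CovZ.n2 (5580, 29160) (by decide +kernel)
                    (CovZ.leaf K2_ok TE_l18854 _)
                    (CovZ.badM (by decide +kernel)))
                   (CovZ.leaf K2_ok TE_l18855 _))
                  (CovZ.n1 (5580, 29180) (by decide +kernel)
                   (CovZ.leaf K2_ok TE_l18856 _)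
                   (CovZ.n1 (5580, 29160) (by decide +kernel)
                    (CovZ.badM (by decide +kernel))
                    (CovZ.leaf K2_ok TE_l18857 _)))))
                (CovZ.n1 (5560, 29240) (by decide +kernel)
                 (CovZ.n2 (5600, 29240) (by decide +kernel)
                  (CovZ.n2 (5580, 29220) (by decide +kernel)
                   (CovZ.n2 (5580, 29240) (by decide +kernel)
                    (CovZ.leaf K2_ok TE_l18858 _)
                    (CovZ.badM (by decide +kernel)))
                   (CovZ.leaf K2_ok TE_l18859 _))
                  (CovZ.n1 (5580, 29260) (by decide +kernel)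
                   (CovZ.leaf K2_ok TE_l18860 _)
                   (CovZ.n1 (5580, 29240) (by decide +kernel)
                    (CovZ.badM (by decide +kernel))
                    (CovZ.n1 (5590, 29250) (by decide +kernel)
                     (CovZ.leaf K2_ok TE_l18861 _)
                     (CovZ.badM (by decide +kernel))))))
                 (CovZ.n1 (5560, 29200) (by decide +kernel)
                  (CovZ.badM (by decide +kernel))
                  (CovZ.n1 (5580, 29220) (by decide +kernel)
                   (CovZ.n2 (5580, 29200) (by decide +kernel)
                    (CovZ.badM (by decide +kernel))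
                    (CovZ.leaf K2_ok TE_l18862 _))
                   (CovZ.badM (by decide +kernel))))))
               (CovZ.n1 (5520, 29120) (by decide +kernel)
                (CovZ.badM (by decide +kernel))
                (CovZ.n1 (5560, 29160) (by decide +kernel)
                 (CovZ.n2 (5560, 29120) (by decide +kernel)
                  (CovZ.badM (by decide +kernel))
                  (CovZ.n1 (5580, 29140) (by decide +kernel)
                   (CovZ.leaf K2_ok TE_l18863 _)
                   (CovZ.badM (by decide +kernel))))
                 (CovZ.badM (by decide +kernel))))))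
             (CovZ.n1 (5680, 29200) (by decide +kernel)
              (CovZ.n2 (5680, 29120) (by decide +kernel)
               (CovZ.n2 (5640, 29160) (by decide +kernel)
                (CovZ.leaf K2_ok TE_l14563 _)
                (CovZ.n1 (5640, 29120) (by decide +kernel)
                 (CovZ.leaf K2_ok TE_l14564 _)
                 (CovZ.leaf K2_ok TE_l14565 _)))
               (CovZ.n1 (5720, 29160) (by decide +kernel)
                (CovZ.leaf K2_ok TE_l14566 _)
                (CovZ.leaf K2_ok TE_l14567 _)))
              (CovZ.n1 (5600, 29200) (by decide +kernel)
               (CovZ.n2 (5640, 29240) (by decide +kernel)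
                (CovZ.n2 (5640, 29200) (by decide +kernel)
                 (CovZ.leaf K2_ok TE_l18864 _)
                 (CovZ.leaf K2_ok TE_l14568 _))
                (CovZ.subM 1267650600229382323001310052352 (by decide +kernel)
                 (CovZ.n1 (5600, 29240) (by decide +kernel)
                  (CovZ.n2 (5620, 29260) (by decide +kernel)
                   (CovZ.leaf K2_ok TE_l18865 _)
                   (CovZ.leaf K2_ok TE_l18866 _))
                  (CovZ.n1 (5620, 29220) (by decide +kernel)
                   (CovZ.leaf K2_ok TE_l18867 _)
                   (CovZ.leaf K2_ok TE_l18868 _)))))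
               (CovZ.n1 (5640, 29160) (by decide +kernel)
                (CovZ.subM 1267650600229382323005605019648 (by decide +kernel)
                 (CovZ.n2 (5600, 29160) (by decide +kernel)
                  (CovZ.n2 (5620, 29180) (by decide +kernel)
                   (CovZ.leaf K2_ok TE_l18869 _)
                   (CovZ.leaf K2_ok TE_l18870 _))
                  (CovZ.n1 (5620, 29140) (by decide +kernel)
                   (CovZ.leaf K2_ok TE_l18871 _)
                   (CovZ.leaf K2_ok TE_l18872 _))))
                (CovZ.n1 (5640, 29200) (by decide +kernel)
                 (CovZ.leaf K2_ok TE_l14569 _)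
                 (CovZ.n1 (5620, 29180) (by decide +kernel)
                  (CovZ.leaf K2_ok TE_l18873 _)
                  (CovZ.leaf K2_ok TE_l18874 _)))))))))

theorem TE_u200 : CovZ TE_M (toL (selN TE_LN 1610174674841301887306200333305233233281167108169329008705544)) [0, 7, 6, 1] (5120, 30720) (5120, 29440) (6400, 29440) :=
    (CovZ.n2 (5760, 30080) (by decide +kernel)
      (CovZ.subM 1272602360386523872829943054344 (by decide +kernel)
       (CovZ.n2 (5760, 29440) (by decide +kernel)
        (CovZ.subM 1267650600229382323143043973120 (by decide +kernel)
         (CovZ.n2 (5440, 29760) (by decide +kernel)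
          (CovZ.n2 (5760, 29760) (by decide +kernel)
           TE_u194
           TE_u195)
          (CovZ.n1 (5440, 29440) (by decide +kernel)
           (CovZ.badM (by decide +kernel))
           (CovZ.n1 (5600, 29600) (by decide +kernel)
            (CovZ.n2 (5600, 29440) (by decide +kernel)
             (CovZ.badM (by decide +kernel))
             (CovZ.n1 (5680, 29520) (by decide +kernel)
              (CovZ.n2 (5680, 29440) (by decide +kernel)
               (CovZ.n2 (5640, 29480) (by decide +kernel)
                (CovZ.n2 (5680, 29480) (by decide +kernel)
                 (CovZ.n2 (5660, 29460) (by decide +kernel)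
                  (CovZ.leaf K2_ok TE_l18742 _)
                  (CovZ.leaf K2_ok TE_l18743 _))
                 (CovZ.leaf K2_ok TE_l18744 _))
                (CovZ.n1 (5640, 29440) (by decide +kernel)
                 (CovZ.n2 (5620, 29460) (by decide +kernel)
                  (CovZ.leaf K2_ok TE_l18745 _)
                  (CovZ.leaf K2_ok TE_l18746 _))
                 (CovZ.n1 (5660, 29460) (by decide +kernel)
                  (CovZ.leaf K2_ok TE_l18747 _)
                  (CovZ.leaf K2_ok TE_l18748 _))))
               (CovZ.n1 (5720, 29480) (by decide +kernel)
                (CovZ.leaf K2_ok TE_l14351 _)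
                (CovZ.n1 (5680, 29480) (by decide +kernel)
                 (CovZ.leaf K2_ok TE_l18749 _)
                 (CovZ.leaf K2_ok TE_l18750 _))))
              (CovZ.n1 (5600, 29520) (by decide +kernel)
               (CovZ.n2 (5640, 29560) (by decide +kernel)
                (CovZ.n2 (5640, 29520) (by decide +kernel)
                 (CovZ.n2 (5620, 29540) (by decide +kernel)
                  (CovZ.leaf K2_ok TE_l18751 _)
                  (CovZ.n1 (5620, 29520) (by decide +kernel)
                   (CovZ.badM (by decide +kernel))
                   (CovZ.leaf K2_ok TE_l18752 _)))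
                 (CovZ.n1 (5660, 29540) (by decide +kernel)
                  (CovZ.leaf K2_ok TE_l18753 _)
                  (CovZ.leaf K2_ok TE_l18754 _)))
                (CovZ.n1 (5600, 29560) (by decide +kernel)
                 (CovZ.n2 (5620, 29580) (by decide +kernel)
                  (CovZ.n2 (5620, 29560) (by decide +kernel)
                   (CovZ.badM (by decide +kernel))
                   (CovZ.leaf K2_ok TE_l18755 _))
                  (CovZ.badM (by decide +kernel)))
                 (CovZ.n1 (5620, 29540) (by decide +kernel)
                  (CovZ.badM (by decide +kernel))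
                  (CovZ.n1 (5620, 29560) (by decide +kernel)
                   (CovZ.leaf K2_ok TE_l18756 _)
                   (CovZ.badM (by decide +kernel))))))
               (CovZ.n1 (5640, 29480) (by decide +kernel)
                (CovZ.n2 (5600, 29480) (by decide +kernel)
                 (CovZ.n2 (5620, 29500) (by decide +kernel)
                  (CovZ.n2 (5620, 29480) (by decide +kernel)
                   (CovZ.leaf K2_ok TE_l18757 _)
                   (CovZ.leaf K2_ok TE_l18758 _))
                  (CovZ.n1 (5600, 29500) (by decide +kernel)
                   (CovZ.n2 (5610, 29510) (by decide +kernel)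
                    (CovZ.leaf K2_ok TE_l18759 _)
                    (CovZ.badM (by decide +kernel)))
                   (CovZ.leaf K2_ok TE_l18760 _)))
                 (CovZ.n1 (5620, 29460) (by decide +kernel)
                  (CovZ.n2 (5600, 29460) (by decide +kernel)
                   (CovZ.n2 (5610, 29470) (by decide +kernel)
                    (CovZ.leaf K2_ok TE_l18761 _)
                    (CovZ.badM (by decide +kernel)))
                   (CovZ.leaf K2_ok TE_l18762 _))
                  (CovZ.n1 (5620, 29480) (by decide +kernel)
                   (CovZ.leaf K2_ok TE_l18763 _)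
                   (CovZ.leaf K2_ok TE_l18764 _))))
                (CovZ.n1 (5640, 29520) (by decide +kernel)
                 (CovZ.n2 (5660, 29500) (by decide +kernel)
                  (CovZ.leaf K2_ok TE_l18765 _)
                  (CovZ.leaf K2_ok TE_l18766 _))
                 (CovZ.n1 (5620, 29500) (by decide +kernel)
                  (CovZ.n2 (5620, 29520) (by decide +kernel)
                   (CovZ.leaf K2_ok TE_l18767 _)
                   (CovZ.n1 (5610, 29510) (by decide +kernel)
                    (CovZ.badM (by decide +kernel))
                    (CovZ.leaf K2_ok TE_l18768 _)))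
                  (CovZ.leaf K2_ok TE_l18769 _)))))))
            (CovZ.badM (by decide +kernel))))))
        (CovZ.n1 (6080, 29760) (by decide +kernel)
         (CovZ.n2 (6080, 29440) (by decide +kernel)
          (CovZ.n2 (5920, 29600) (by decide +kernel)
           (CovZ.n2 (6080, 29600) (by decide +kernel)
            (CovZ.n2 (6000, 29520) (by decide +kernel)
             (CovZ.leaf K2_ok TE_l14352 _)
             (CovZ.leaf K2_ok TE_l14353 _))
            (CovZ.leaf K2_ok TE_l14354 _))
           (CovZ.n1 (5920, 29440) (by decide +kernel)
            (CovZ.n2 (5840, 29520) (by decide +kernel)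
             (CovZ.leaf K2_ok TE_l14355 _)
             (CovZ.n1 (5840, 29440) (by decide +kernel)
              (CovZ.leaf K2_ok TE_l14356 _)
              (CovZ.leaf K2_ok TE_l14357 _)))
            (CovZ.n1 (6000, 29520) (by decide +kernel)
             (CovZ.leaf K2_ok TE_l14358 _)
             (CovZ.leaf K2_ok TE_l14359 _))))
          (CovZ.n1 (6240, 29600) (by decide +kernel)
           (CovZ.leaf K2_ok TE_l14360 _)
           (CovZ.n1 (6080, 29600) (by decide +kernel)
            (CovZ.leaf K2_ok TE_l14361 _)
            (CovZ.leaf K2_ok TE_l14362 _))))
         (CovZ.n1 (5760, 29760) (by decide +kernel)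
          (CovZ.n2 (5920, 29920) (by decide +kernel)
           (CovZ.n2 (5920, 29760) (by decide +kernel)
            (CovZ.n2 (5840, 29840) (by decide +kernel)
             (CovZ.leaf K2_ok TE_l14363 _)
             (CovZ.n1 (5840, 29760) (by decide +kernel)
              (CovZ.leaf K2_ok TE_l14364 _)
              (CovZ.leaf K2_ok TE_l14365 _)))
            (CovZ.n1 (6000, 29840) (by decide +kernel)
             (CovZ.leaf K2_ok TE_l14366 _)
             (CovZ.leaf K2_ok TE_l14367 _)))
           (CovZ.subM 1272602360386523844242640470016 (by decide +kernel)
            (CovZ.n1 (5760, 29920) (by decide +kernel)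
             (CovZ.n2 (5840, 30000) (by decide +kernel)
              (CovZ.n2 (5840, 29920) (by decide +kernel)
               (CovZ.leaf K2_ok TE_l14368 _)
               (CovZ.leaf K2_ok TE_l14369 _))
              (CovZ.n1 (5760, 30000) (by decide +kernel)
               (CovZ.n2 (5800, 30040) (by decide +kernel)
                (CovZ.leaf K2_ok TE_l18770 _)
                (CovZ.leaf K2_ok TE_l18771 _))
               (CovZ.n1 (5800, 29960) (by decide +kernel)
                (CovZ.leaf K2_ok TE_l18772 _)
                (CovZ.leaf K2_ok TE_l18773 _))))
             (CovZ.n1 (5840, 29840) (by decide +kernel)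
              (CovZ.n2 (5760, 29840) (by decide +kernel)
               (CovZ.n2 (5800, 29880) (by decide +kernel)
                (CovZ.leaf K2_ok TE_l14370 _)
                (CovZ.leaf K2_ok TE_l18774 _))
               (CovZ.n1 (5800, 29800) (by decide +kernel)
                (CovZ.leaf K2_ok TE_l18775 _)
                (CovZ.leaf K2_ok TE_l14371 _)))
              (CovZ.n1 (5840, 29920) (by decide +kernel)
               (CovZ.leaf K2_ok TE_l14372 _)
               (CovZ.n1 (5800, 29880) (by decide +kernel)
                (CovZ.leaf K2_ok TE_l14373 _)
                (CovZ.leaf K2_ok TE_l14374 _)))))))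
          (CovZ.n1 (5920, 29600) (by decide +kernel)
           (CovZ.subM 1272602360386523844242640470024 (by decide +kernel)
            (CovZ.n2 (5760, 29600) (by decide +kernel)
             (CovZ.n2 (5840, 29680) (by decide +kernel)
              (CovZ.n2 (5840, 29600) (by decide +kernel)
               (CovZ.leaf K2_ok TE_l14375 _)
               (CovZ.leaf K2_ok TE_l14376 _))
              (CovZ.n1 (5760, 29680) (by decide +kernel)
               (CovZ.n2 (5800, 29720) (by decide +kernel)
                (CovZ.leaf K2_ok TE_l14377 _)
                (CovZ.leaf K2_ok TE_l14378 _))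
               (CovZ.leaf K2_ok TE_l14379 _)))
             (CovZ.n1 (5840, 29520) (by decide +kernel)
              (CovZ.n2 (5760, 29520) (by decide +kernel)
               (CovZ.n2 (5800, 29560) (by decide +kernel)
                (CovZ.leaf K2_ok TE_l14380 _)
                (CovZ.leaf K2_ok TE_l14381 _))
               (CovZ.leaf K2_ok TE_l14382 _))
              (CovZ.n1 (5840, 29600) (by decide +kernel)
               (CovZ.leaf K2_ok TE_l14383 _)
               (CovZ.n1 (5800, 29560) (by decide +kernel)
                (CovZ.leaf K2_ok TE_l14384 _)
                (CovZ.leaf K2_ok TE_l14385 _))))))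
           (CovZ.n1 (5920, 29760) (by decide +kernel)
            (CovZ.n2 (6000, 29680) (by decide +kernel)
             (CovZ.leaf K2_ok TE_l14386 _)
             (CovZ.leaf K2_ok TE_l14387 _))
            (CovZ.subM 1272602360386523844242640470024 (by decide +kernel)
             (CovZ.n1 (5840, 29680) (by decide +kernel)
              (CovZ.n2 (5840, 29760) (by decide +kernel)
               (CovZ.leaf K2_ok TE_l14388 _)
               (CovZ.n1 (5800, 29720) (by decide +kernel)
                (CovZ.leaf K2_ok TE_l14389 _)
                (CovZ.leaf K2_ok TE_l14390 _)))
              (CovZ.leaf K2_ok TE_l14391 _)))))))))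
      (CovZ.subM 1267650600229454380595347980288 (by decide +kernel)
       (CovZ.n1 (5120, 30080) (by decide +kernel)
        (CovZ.n2 (5440, 30400) (by decide +kernel)
         (CovZ.n2 (5440, 30080) (by decide +kernel)
          (CovZ.badM (by decide +kernel))
          (CovZ.n1 (5600, 30240) (by decide +kernel)
           (CovZ.n2 (5600, 30080) (by decide +kernel)
            (CovZ.badM (by decide +kernel))
            (CovZ.n1 (5680, 30160) (by decide +kernel)
             (CovZ.badM (by decide +kernel))
             (CovZ.badM (by decide +kernel))))
           (CovZ.badM (by decide +kernel))))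
         (CovZ.badM (by decide +kernel)))
        (CovZ.n1 (5440, 29760) (by decide +kernel)
         (CovZ.badM (by decide +kernel))
         (CovZ.n1 (5440, 30080) (by decide +kernel)
          (CovZ.n2 (5600, 29920) (by decide +kernel)
           (CovZ.badM (by decide +kernel))
           (CovZ.n1 (5600, 30080) (by decide +kernel)
            (CovZ.n2 (5680, 30000) (by decide +kernel)
             (CovZ.n2 (5600, 30000) (by decide +kernel)
              (CovZ.n2 (5640, 30040) (by decide +kernel)
               (CovZ.n2 (5640, 30000) (by decide +kernel)
                (CovZ.badM (by decide +kernel))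
                (CovZ.badM (by decide +kernel)))
               (CovZ.badM (by decide +kernel)))
              (CovZ.n1 (5640, 29960) (by decide +kernel)
               (CovZ.badM (by decide +kernel))
               (CovZ.n1 (5640, 30000) (by decide +kernel)
                (CovZ.n2 (5660, 29980) (by decide +kernel)
                 (CovZ.badM (by decide +kernel))
                 (CovZ.badM (by decide +kernel)))
                (CovZ.badM (by decide +kernel)))))
             (CovZ.badM (by decide +kernel)))
            (CovZ.badM (by decide +kernel))))
          (CovZ.badM (by decide +kernel)))))))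

theorem TE_u201 : CovZ TE_M (toL (selN TE_LN 1610174674841301887306200333305233233281167108169329008705544)) [0, 7, 6, 1] (5120, 29440) (5120, 28160) (6400, 29440) :=
    (CovZ.n1 (5760, 28800) (by decide +kernel)
      (CovZ.subM 1607036123973605692428897026552167872910183975717618885591048 (by decide +kernel)
       (CovZ.n2 (5120, 28800) (by decide +kernel)
        TE_u196
        TE_u197))
      (CovZ.subM 1272602360386523872829943054344 (by decide +kernel)
       (CovZ.n1 (5760, 29440) (by decide +kernel)
        (CovZ.n2 (6080, 29120) (by decide +kernel)
         (CovZ.n2 (5760, 29120) (by decide +kernel)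
          (CovZ.n2 (5920, 29280) (by decide +kernel)
           (CovZ.n2 (5920, 29120) (by decide +kernel)
            (CovZ.n2 (5840, 29200) (by decide +kernel)
             (CovZ.leaf K2_ok TE_l14476 _)
             (CovZ.leaf K2_ok TE_l14477 _))
            (CovZ.n1 (6000, 29200) (by decide +kernel)
             (CovZ.leaf K2_ok TE_l14478 _)
             (CovZ.leaf K2_ok TE_l14479 _)))
           (CovZ.n1 (5760, 29280) (by decide +kernel)
            (CovZ.n2 (5840, 29360) (by decide +kernel)
             (CovZ.n2 (5840, 29280) (by decide +kernel)
              (CovZ.leaf K2_ok TE_l14480 _)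
              (CovZ.leaf K2_ok TE_l14481 _))
             (CovZ.n1 (5760, 29360) (by decide +kernel)
              (CovZ.n2 (5800, 29400) (by decide +kernel)
               (CovZ.leaf K2_ok TE_l14482 _)
               (CovZ.leaf K2_ok TE_l14483 _))
              (CovZ.leaf K2_ok TE_l14484 _)))
            (CovZ.n1 (5840, 29200) (by decide +kernel)
             (CovZ.n2 (5760, 29200) (by decide +kernel)
              (CovZ.n2 (5800, 29240) (by decide +kernel)
               (CovZ.leaf K2_ok TE_l14485 _)
               (CovZ.leaf K2_ok TE_l14486 _))
              (CovZ.leaf K2_ok TE_l14487 _))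
             (CovZ.n1 (5840, 29280) (by decide +kernel)
              (CovZ.leaf K2_ok TE_l14488 _)
              (CovZ.leaf K2_ok TE_l14489 _)))))
          (CovZ.n1 (5920, 28960) (by decide +kernel)
           (CovZ.n2 (5760, 28960) (by decide +kernel)
            (CovZ.n2 (5840, 29040) (by decide +kernel)
             (CovZ.leaf K2_ok TE_l14490 _)
             (CovZ.n1 (5760, 29040) (by decide +kernel)
              (CovZ.leaf K2_ok TE_l14491 _)
              (CovZ.leaf K2_ok TE_l14492 _)))
            (CovZ.n1 (5840, 28880) (by decide +kernel)
             (CovZ.n2 (5760, 28880) (by decide +kernel)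
              (CovZ.leaf K2_ok TE_l14493 _)
              (CovZ.leaf K2_ok TE_l14494 _))
             (CovZ.n1 (5840, 28960) (by decide +kernel)
              (CovZ.leaf K2_ok TE_l14495 _)
              (CovZ.leaf K2_ok TE_l14496 _))))
           (CovZ.n1 (5920, 29120) (by decide +kernel)
            (CovZ.leaf K2_ok TE_l14497 _)
            (CovZ.n1 (5840, 29040) (by decide +kernel)
             (CovZ.n2 (5840, 29120) (by decide +kernel)
              (CovZ.leaf K2_ok TE_l14498 _)
              (CovZ.leaf K2_ok TE_l14499 _))
             (CovZ.leaf K2_ok TE_l14500 _)))))
         (CovZ.n1 (6080, 29440) (by decide +kernel)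
          (CovZ.n2 (6240, 29280) (by decide +kernel)
           (CovZ.n2 (6080, 29280) (by decide +kernel)
            (CovZ.leaf K2_ok TE_l14501 _)
            (CovZ.leaf K2_ok TE_l14502 _))
           (CovZ.n1 (6240, 29440) (by decide +kernel)
            (CovZ.leaf K2_ok TE_l14503 _)
            (CovZ.leaf K2_ok TE_l14504 _)))
          (CovZ.n1 (5920, 29280) (by decide +kernel)
           (CovZ.n2 (5920, 29440) (by decide +kernel)
            (CovZ.leaf K2_ok TE_l14505 _)
            (CovZ.n1 (5840, 29360) (by decide +kernel)
             (CovZ.n2 (5840, 29440) (by decide +kernel)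
              (CovZ.leaf K2_ok TE_l14506 _)
              (CovZ.leaf K2_ok TE_l14507 _))
             (CovZ.leaf K2_ok TE_l14508 _)))
           (CovZ.n1 (6080, 29280) (by decide +kernel)
            (CovZ.n2 (6000, 29200) (by decide +kernel)
             (CovZ.leaf K2_ok TE_l14509 _)
             (CovZ.leaf K2_ok TE_l14510 _))
            (CovZ.leaf K2_ok TE_l14511 _)))))
        (CovZ.n1 (5440, 29120) (by decide +kernel)
         (CovZ.subM 1267650600229382323143043973120 (by decide +kernel)
          (CovZ.n2 (5440, 29440) (by decide +kernel)
           (CovZ.n2 (5600, 29280) (by decide +kernel)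
            (CovZ.n2 (5440, 29280) (by decide +kernel)
             (CovZ.n2 (5520, 29360) (by decide +kernel)
              (CovZ.n2 (5520, 29280) (by decide +kernel)
               (CovZ.badM (by decide +kernel))
               (CovZ.n1 (5560, 29320) (by decide +kernel)
                (CovZ.n2 (5560, 29280) (by decide +kernel)
                 (CovZ.badM (by decide +kernel))
                 (CovZ.n1 (5580, 29300) (by decide +kernel)
                  (CovZ.n2 (5580, 29280) (by decide +kernel)
                   (CovZ.badM (by decide +kernel))
                   (CovZ.n1 (5590, 29290) (by decide +kernel)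
                    (CovZ.leaf K2_ok TE_l18798 _)
                    (CovZ.badM (by decide +kernel))))
                  (CovZ.badM (by decide +kernel))))
                (CovZ.badM (by decide +kernel))))
              (CovZ.badM (by decide +kernel)))
             (CovZ.n1 (5520, 29200) (by decide +kernel)
              (CovZ.badM (by decide +kernel))
              (CovZ.n1 (5520, 29280) (by decide +kernel)
               (CovZ.n2 (5560, 29240) (by decide +kernel)
                (CovZ.badM (by decide +kernel))
                (CovZ.n1 (5560, 29280) (by decide +kernel)
                 (CovZ.n2 (5580, 29260) (by decide +kernel)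
                  (CovZ.badM (by decide +kernel))
                  (CovZ.n1 (5580, 29280) (by decide +kernel)
                   (CovZ.leaf K2_ok TE_l18799 _)
                   (CovZ.badM (by decide +kernel))))
                 (CovZ.badM (by decide +kernel))))
               (CovZ.badM (by decide +kernel)))))
            (CovZ.n1 (5600, 29440) (by decide +kernel)
             (CovZ.n2 (5680, 29360) (by decide +kernel)
              (CovZ.n2 (5600, 29360) (by decide +kernel)
               (CovZ.n2 (5640, 29400) (by decide +kernel)
                (CovZ.n2 (5640, 29360) (by decide +kernel)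
                 (CovZ.leaf K2_ok TE_l18800 _)
                 (CovZ.n1 (5660, 29380) (by decide +kernel)
                  (CovZ.leaf K2_ok TE_l18801 _)
                  (CovZ.leaf K2_ok TE_l18802 _)))
                (CovZ.n1 (5600, 29400) (by decide +kernel)
                 (CovZ.n2 (5620, 29420) (by decide +kernel)
                  (CovZ.leaf K2_ok TE_l18803 _)
                  (CovZ.n1 (5600, 29420) (by decide +kernel)
                   (CovZ.n2 (5610, 29430) (by decide +kernel)
                    (CovZ.leaf K2_ok TE_l18804 _)
                    (CovZ.badM (by decide +kernel)))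
                   (CovZ.leaf K2_ok TE_l18805 _)))
                 (CovZ.n1 (5620, 29380) (by decide +kernel)
                  (CovZ.n2 (5600, 29380) (by decide +kernel)
                   (CovZ.leaf K2_ok TE_l18806 _)
                   (CovZ.leaf K2_ok TE_l18807 _))
                  (CovZ.n1 (5620, 29400) (by decide +kernel)
                   (CovZ.leaf K2_ok TE_l18808 _)
                   (CovZ.leaf K2_ok TE_l18809 _)))))
               (CovZ.n1 (5640, 29320) (by decide +kernel)
                (CovZ.n2 (5600, 29320) (by decide +kernel)
                 (CovZ.n2 (5620, 29340) (by decide +kernel)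
                  (CovZ.leaf K2_ok TE_l18810 _)
                  (CovZ.n1 (5600, 29340) (by decide +kernel)
                   (CovZ.leaf K2_ok TE_l18811 _)
                   (CovZ.leaf K2_ok TE_l18812 _)))
                 (CovZ.n1 (5620, 29300) (by decide +kernel)
                  (CovZ.leaf K2_ok TE_l18813 _)
                  (CovZ.leaf K2_ok TE_l18814 _)))
                (CovZ.n1 (5640, 29360) (by decide +kernel)
                 (CovZ.leaf K2_ok TE_l18815 _)
                 (CovZ.n1 (5620, 29340) (by decide +kernel)
                  (CovZ.n2 (5620, 29360) (by decide +kernel)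
                   (CovZ.leaf K2_ok TE_l18816 _)
                   (CovZ.leaf K2_ok TE_l18817 _))
                  (CovZ.leaf K2_ok TE_l18818 _)))))
              (CovZ.n1 (5680, 29440) (by decide +kernel)
               (CovZ.n2 (5720, 29400) (by decide +kernel)
                (CovZ.n2 (5680, 29400) (by decide +kernel)
                 (CovZ.leaf K2_ok TE_l14512 _)
                 (CovZ.leaf K2_ok TE_l14513 _))
                (CovZ.n1 (5720, 29440) (by decide +kernel)
                 (CovZ.leaf K2_ok TE_l14514 _)
                 (CovZ.leaf K2_ok TE_l14515 _)))
               (CovZ.n1 (5640, 29400) (by decide +kernel)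
                (CovZ.n2 (5640, 29440) (by decide +kernel)
                 (CovZ.n2 (5660, 29420) (by decide +kernel)
                  (CovZ.leaf K2_ok TE_l18819 _)
                  (CovZ.leaf K2_ok TE_l18820 _))
                 (CovZ.n1 (5620, 29420) (by decide +kernel)
                  (CovZ.n2 (5620, 29440) (by decide +kernel)
                   (CovZ.leaf K2_ok TE_l18821 _)
                   (CovZ.n1 (5610, 29430) (by decide +kernel)
                    (CovZ.leaf K2_ok TE_l18822 _)
                    (CovZ.leaf K2_ok TE_l18823 _)))
                  (CovZ.leaf K2_ok TE_l18824 _)))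
                (CovZ.n1 (5680, 29400) (by decide +kernel)
                 (CovZ.n2 (5660, 29380) (by decide +kernel)
                  (CovZ.leaf K2_ok TE_l18825 _)
                  (CovZ.leaf K2_ok TE_l18826 _))
                 (CovZ.leaf K2_ok TE_l18827 _)))))
             (CovZ.n1 (5520, 29360) (by decide +kernel)
              (CovZ.badM (by decide +kernel))
              (CovZ.n1 (5600, 29360) (by decide +kernel)
               (CovZ.n2 (5560, 29320) (by decide +kernel)
                (CovZ.badM (by decide +kernel))
                (CovZ.n1 (5600, 29320) (by decide +kernel)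
                 (CovZ.n2 (5580, 29300) (by decide +kernel)
                  (CovZ.badM (by decide +kernel))
                  (CovZ.leaf K2_ok TE_l18828 _))
                 (CovZ.badM (by decide +kernel))))
               (CovZ.badM (by decide +kernel))))))
           (CovZ.badM (by decide +kernel))))
         (CovZ.n1 (5760, 29120) (by decide +kernel)
          TE_u198
          TE_u199)))))

theorem TE_u202 : CovZ TE_M (toL (selN TE_LN 3138550867693340381917894712876435568436620731151391391752)) [0, 7, 6, 1] (5120, 30720) (5760, 30080) (6400, 30720) :=
    (CovZ.n2 (5760, 30720) (by decide +kernel)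
        (CovZ.n2 (6080, 30400) (by decide +kernel)
         (CovZ.subM 4951760157213581034391863296 (by decide +kernel)
          (CovZ.n2 (5760, 30400) (by decide +kernel)
           (CovZ.n2 (5920, 30560) (by decide +kernel)
            (CovZ.n2 (5920, 30400) (by decide +kernel)
             (CovZ.n2 (5840, 30480) (by decide +kernel)
              (CovZ.leaf K2_ok TE_l18875 _)
              (CovZ.n1 (5840, 30400) (by decide +kernel)
               (CovZ.leaf K2_ok TE_l18876 _)
               (CovZ.leaf K2_ok TE_l18877 _)))
             (CovZ.n1 (6000, 30480) (by decide +kernel)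
              (CovZ.leaf K2_ok TE_l14585 _)
              (CovZ.leaf K2_ok TE_l14586 _)))
            (CovZ.n1 (5760, 30560) (by decide +kernel)
             (CovZ.n2 (5840, 30640) (by decide +kernel)
              (CovZ.n2 (5840, 30560) (by decide +kernel)
               (CovZ.leaf K2_ok TE_l18878 _)
               (CovZ.leaf K2_ok TE_l18879 _))
              (CovZ.subM 4951760157213578693634424832 (by decide +kernel)
               (CovZ.n1 (5760, 30640) (by decide +kernel)
                (CovZ.n2 (5800, 30680) (by decide +kernel)
                 (CovZ.leaf K2_ok TE_l18880 _)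
                 (CovZ.leaf K2_ok TE_l18881 _))
                (CovZ.n1 (5800, 30600) (by decide +kernel)
                 (CovZ.leaf K2_ok TE_l18882 _)
                 (CovZ.leaf K2_ok TE_l18883 _)))))
             (CovZ.n1 (5840, 30480) (by decide +kernel)
              (CovZ.subM 4951760157213578693634424832 (by decide +kernel)
               (CovZ.n2 (5760, 30480) (by decide +kernel)
                (CovZ.n2 (5800, 30520) (by decide +kernel)
                 (CovZ.leaf K2_ok TE_l18884 _)
                 (CovZ.leaf K2_ok TE_l18885 _))
                (CovZ.n1 (5800, 30440) (by decide +kernel)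
                 (CovZ.leaf K2_ok TE_l18886 _)
                 (CovZ.leaf K2_ok TE_l18887 _))))
              (CovZ.n1 (5840, 30560) (by decide +kernel)
               (CovZ.leaf K2_ok TE_l18888 _)
               (CovZ.n1 (5800, 30520) (by decide +kernel)
                (CovZ.leaf K2_ok TE_l18889 _)
                (CovZ.leaf K2_ok TE_l18890 _))))))
           (CovZ.n1 (5920, 30240) (by decide +kernel)
            (CovZ.n2 (5760, 30240) (by decide +kernel)
             (CovZ.n2 (5840, 30320) (by decide +kernel)
              (CovZ.n2 (5840, 30240) (by decide +kernel)
               (CovZ.leaf K2_ok TE_l18891 _)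
               (CovZ.leaf K2_ok TE_l14587 _))
              (CovZ.subM 4951760157213578693634424832 (by decide +kernel)
               (CovZ.n1 (5760, 30320) (by decide +kernel)
                (CovZ.n2 (5800, 30360) (by decide +kernel)
                 (CovZ.leaf K2_ok TE_l18892 _)
                 (CovZ.leaf K2_ok TE_l18893 _))
                (CovZ.n1 (5800, 30280) (by decide +kernel)
                 (CovZ.leaf K2_ok TE_l18894 _)
                 (CovZ.leaf K2_ok TE_l18895 _)))))
             (CovZ.n1 (5840, 30160) (by decide +kernel)
              (CovZ.subM 4951760157213578831073378304 (by decide +kernel)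
               (CovZ.n2 (5760, 30160) (by decide +kernel)
                (CovZ.n2 (5800, 30200) (by decide +kernel)
                 (CovZ.leaf K2_ok TE_l18896 _)
                 (CovZ.leaf K2_ok TE_l18897 _))
                (CovZ.n1 (5800, 30120) (by decide +kernel)
                 (CovZ.leaf K2_ok TE_l18898 _)
                 (CovZ.leaf K2_ok TE_l18899 _))))
              (CovZ.n1 (5840, 30240) (by decide +kernel)
               (CovZ.leaf K2_ok TE_l14588 _)
               (CovZ.n1 (5800, 30200) (by decide +kernel)
                (CovZ.leaf K2_ok TE_l18900 _)
                (CovZ.leaf K2_ok TE_l18901 _)))))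
            (CovZ.n1 (5920, 30400) (by decide +kernel)
             (CovZ.n2 (6000, 30320) (by decide +kernel)
              (CovZ.leaf K2_ok TE_l14589 _)
              (CovZ.leaf K2_ok TE_l14590 _))
             (CovZ.n1 (5840, 30320) (by decide +kernel)
              (CovZ.n2 (5840, 30400) (by decide +kernel)
               (CovZ.leaf K2_ok TE_l18902 _)
               (CovZ.n1 (5800, 30360) (by decide +kernel)
                (CovZ.leaf K2_ok TE_l18903 _)
                (CovZ.leaf K2_ok TE_l18904 _)))
              (CovZ.leaf K2_ok TE_l14591 _))))))
         (CovZ.n1 (6080, 30720) (by decide +kernel)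
          (CovZ.n2 (6240, 30560) (by decide +kernel)
           (CovZ.leaf K2_ok TE_l14592 _)
           (CovZ.leaf K2_ok TE_l14593 _))
          (CovZ.subM 4951760157213581034391863296 (by decide +kernel)
           (CovZ.n1 (5920, 30560) (by decide +kernel)
            (CovZ.n2 (5920, 30720) (by decide +kernel)
             (CovZ.leaf K2_ok TE_l14594 _)
             (CovZ.n1 (5840, 30640) (by decide +kernel)
              (CovZ.n2 (5840, 30720) (by decide +kernel)
               (CovZ.leaf K2_ok TE_l18905 _)
               (CovZ.n1 (5800, 30680) (by decide +kernel)
                (CovZ.leaf K2_ok TE_l18906 _)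
                (CovZ.leaf K2_ok TE_l18907 _)))
              (CovZ.leaf K2_ok TE_l18908 _)))
            (CovZ.n1 (6080, 30560) (by decide +kernel)
             (CovZ.n2 (6000, 30480) (by decide +kernel)
              (CovZ.leaf K2_ok TE_l14595 _)
              (CovZ.leaf K2_ok TE_l14596 _))
             (CovZ.leaf K2_ok TE_l14597 _))))))
        (CovZ.subM 72057594037927936 (by decide +kernel)
         (CovZ.n1 (5440, 30400) (by decide +kernel)
          (CovZ.badM (by decide +kernel))
          (CovZ.n1 (5760, 30400) (by decide +kernel)
           (CovZ.n2 (5600, 30240) (by decide +kernel)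
            (CovZ.n2 (5600, 30400) (by decide +kernel)
             (CovZ.n2 (5680, 30320) (by decide +kernel)
              (CovZ.badM (by decide +kernel))
              (CovZ.n1 (5680, 30400) (by decide +kernel)
               (CovZ.n2 (5720, 30360) (by decide +kernel)
                (CovZ.badM (by decide +kernel))
                (CovZ.n1 (5720, 30400) (by decide +kernel)
                 (CovZ.leaf K2_ok TE_l18909 _)
                 (CovZ.badM (by decide +kernel))))
               (CovZ.badM (by decide +kernel))))
             (CovZ.badM (by decide +kernel)))
            (CovZ.n1 (5760, 30240) (by decide +kernel)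
             (CovZ.n2 (5680, 30160) (by decide +kernel)
              (CovZ.n2 (5680, 30240) (by decide +kernel)
               (CovZ.n2 (5720, 30200) (by decide +kernel)
                (CovZ.n2 (5680, 30200) (by decide +kernel)
                 (CovZ.n2 (5700, 30220) (by decide +kernel)
                  (CovZ.leaf K2_ok TE_l18910 _)
                  (CovZ.badM (by decide +kernel)))
                 (CovZ.n1 (5700, 30180) (by decide +kernel)
                  (CovZ.leaf K2_ok TE_l18911 _)
                  (CovZ.leaf K2_ok TE_l18912 _)))
                (CovZ.n1 (5720, 30240) (by decide +kernel)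
                 (CovZ.leaf K2_ok TE_l18913 _)
                 (CovZ.n1 (5700, 30220) (by decide +kernel)
                  (CovZ.leaf K2_ok TE_l18914 _)
                  (CovZ.leaf K2_ok TE_l18915 _))))
               (CovZ.badM (by decide +kernel)))
              (CovZ.n1 (5760, 30160) (by decide +kernel)
               (CovZ.n2 (5720, 30120) (by decide +kernel)
                (CovZ.n2 (5720, 30160) (by decide +kernel)
                 (CovZ.leaf K2_ok TE_l18916 _)
                 (CovZ.n1 (5700, 30140) (by decide +kernel)
                  (CovZ.leaf K2_ok TE_l18917 _)
                  (CovZ.leaf K2_ok TE_l18918 _)))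
                (CovZ.leaf K2_ok TE_l18919 _))
               (CovZ.n1 (5720, 30200) (by decide +kernel)
                (CovZ.leaf K2_ok TE_l18920 _)
                (CovZ.n1 (5720, 30160) (by decide +kernel)
                 (CovZ.leaf K2_ok TE_l18921 _)
                 (CovZ.leaf K2_ok TE_l18922 _)))))
             (CovZ.n1 (5680, 30320) (by decide +kernel)
              (CovZ.n2 (5760, 30320) (by decide +kernel)
               (CovZ.n2 (5720, 30280) (by decide +kernel)
                (CovZ.n2 (5720, 30320) (by decide +kernel)
                 (CovZ.leaf K2_ok TE_l18923 _)
                 (CovZ.badM (by decide +kernel)))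
                (CovZ.leaf K2_ok TE_l18924 _))
               (CovZ.n1 (5720, 30360) (by decide +kernel)
                (CovZ.leaf K2_ok TE_l18925 _)
                (CovZ.n1 (5720, 30320) (by decide +kernel)
                 (CovZ.badM (by decide +kernel))
                 (CovZ.leaf K2_ok TE_l18926 _))))
              (CovZ.n1 (5680, 30240) (by decide +kernel)
               (CovZ.badM (by decide +kernel))
               (CovZ.n1 (5720, 30280) (by decide +kernel)
                (CovZ.n2 (5720, 30240) (by decide +kernel)
                 (CovZ.leaf K2_ok TE_l18927 _)
                 (CovZ.leaf K2_ok TE_l18928 _))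
                (CovZ.badM (by decide +kernel)))))))
           (CovZ.n1 (5600, 30560) (by decide +kernel)
            (CovZ.n2 (5760, 30560) (by decide +kernel)
             (CovZ.n2 (5680, 30480) (by decide +kernel)
              (CovZ.badM (by decide +kernel))
              (CovZ.n1 (5760, 30480) (by decide +kernel)
               (CovZ.n2 (5720, 30440) (by decide +kernel)
                (CovZ.badM (by decide +kernel))
                (CovZ.leaf K2_ok TE_l18929 _))
               (CovZ.badM (by decide +kernel))))
             (CovZ.badM (by decide +kernel)))
            (CovZ.n1 (5600, 30400) (by decide +kernel)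
             (CovZ.badM (by decide +kernel))
             (CovZ.n1 (5680, 30480) (by decide +kernel)
              (CovZ.n2 (5680, 30400) (by decide +kernel)
               (CovZ.badM (by decide +kernel))
               (CovZ.n1 (5720, 30440) (by decide +kernel)
                (CovZ.n2 (5720, 30400) (by decide +kernel)
                 (CovZ.badM (by decide +kernel))
                 (CovZ.n1 (5740, 30420) (by decide +kernel)
                  (CovZ.leaf K2_ok TE_l18930 _)
                  (CovZ.badM (by decide +kernel))))
                (CovZ.badM (by decide +kernel))))
              (CovZ.badM (by decide +kernel)))))))))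

theorem TE_u203 : CovZ TE_M (toL (selN TE_LN 3138550867693340381917894712876435568436620731151391391752)) [0, 7, 6, 1] (5760, 30080) (6400, 29440) (6400, 30720) :=
    (CovZ.n1 (6400, 30080) (by decide +kernel)
        (CovZ.n2 (6080, 29760) (by decide +kernel)
         (CovZ.n2 (6080, 30080) (by decide +kernel)
          (CovZ.n2 (6240, 29920) (by decide +kernel)
           (CovZ.n2 (6080, 29920) (by decide +kernel)
            (CovZ.leaf K2_ok TE_l14598 _)
            (CovZ.leaf K2_ok TE_l14599 _))
           (CovZ.n1 (6240, 30080) (by decide +kernel)
            (CovZ.leaf K2_ok TE_l14600 _)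
            (CovZ.leaf K2_ok TE_l14601 _)))
          (CovZ.n1 (5920, 29920) (by decide +kernel)
           (CovZ.n2 (5920, 30080) (by decide +kernel)
            (CovZ.n2 (6000, 30000) (by decide +kernel)
             (CovZ.leaf K2_ok TE_l14602 _)
             (CovZ.leaf K2_ok TE_l14603 _))
            (CovZ.subM 1272602360385442980332071550976 (by decide +kernel)
             (CovZ.n1 (5840, 30000) (by decide +kernel)
              (CovZ.n2 (5840, 30080) (by decide +kernel)
               (CovZ.leaf K2_ok TE_l14604 _)
               (CovZ.n1 (5800, 30040) (by decide +kernel)
                (CovZ.leaf K2_ok TE_l18931 _)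
                (CovZ.leaf K2_ok TE_l18932 _)))
              (CovZ.leaf K2_ok TE_l14605 _))))
           (CovZ.n1 (6080, 29920) (by decide +kernel)
            (CovZ.n2 (6000, 29840) (by decide +kernel)
             (CovZ.leaf K2_ok TE_l14606 _)
             (CovZ.leaf K2_ok TE_l14607 _))
            (CovZ.leaf K2_ok TE_l14608 _))))
         (CovZ.n1 (6400, 29760) (by decide +kernel)
          (CovZ.n2 (6240, 29600) (by decide +kernel)
           (CovZ.n2 (6240, 29760) (by decide +kernel)
            (CovZ.leaf K2_ok TE_l14609 _)
            (CovZ.leaf K2_ok TE_l14610 _))
           (CovZ.leaf K2_ok TE_l14611 _))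
          (CovZ.leaf K2_ok TE_l14612 _)))
        (CovZ.n1 (6080, 30400) (by decide +kernel)
         (CovZ.n2 (6400, 30400) (by decide +kernel)
          (CovZ.n2 (6240, 30240) (by decide +kernel)
           (CovZ.n2 (6240, 30400) (by decide +kernel)
            (CovZ.leaf K2_ok TE_l14613 _)
            (CovZ.leaf K2_ok TE_l14614 _))
           (CovZ.leaf K2_ok TE_l14615 _))
          (CovZ.n1 (6240, 30560) (by decide +kernel)
           (CovZ.leaf K2_ok TE_l14616 _)
           (CovZ.leaf K2_ok TE_l14617 _)))
         (CovZ.n1 (6080, 30080) (by decide +kernel)
          (CovZ.n2 (5920, 30240) (by decide +kernel)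
           (CovZ.n2 (6080, 30240) (by decide +kernel)
            (CovZ.n2 (6000, 30160) (by decide +kernel)
             (CovZ.leaf K2_ok TE_l14618 _)
             (CovZ.leaf K2_ok TE_l14619 _))
            (CovZ.leaf K2_ok TE_l14620 _))
           (CovZ.n1 (5920, 30080) (by decide +kernel)
            (CovZ.n2 (5840, 30160) (by decide +kernel)
             (CovZ.leaf K2_ok TE_l14621 _)
             (CovZ.n1 (5840, 30080) (by decide +kernel)
              (CovZ.leaf K2_ok TE_l18933 _)
              (CovZ.leaf K2_ok TE_l14622 _)))
            (CovZ.n1 (6000, 30160) (by decide +kernel)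
             (CovZ.leaf K2_ok TE_l14623 _)
             (CovZ.leaf K2_ok TE_l14624 _))))
          (CovZ.n1 (6240, 30240) (by decide +kernel)
           (CovZ.leaf K2_ok TE_l14625 _)
           (CovZ.n1 (6080, 30240) (by decide +kernel)
            (CovZ.leaf K2_ok TE_l14626 _)
            (CovZ.leaf K2_ok TE_l14627 _))))))

theorem TE_u204 : CovZ TE_M (toL (selN TE_LN 2361183241572261826560)) [0, 7, 6, 1] (14080, 29440) (13440, 28800) (14080, 28160) :=
    (CovZ.n2 (14080, 28800) (by decide +kernel)
       (CovZ.n2 (13760, 28480) (by decide +kernel)
        (CovZ.n2 (13760, 28800) (by decide +kernel)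
         (CovZ.n2 (13920, 28640) (by decide +kernel)
          (CovZ.n2 (13760, 28640) (by decide +kernel)
           (CovZ.n2 (13840, 28720) (by decide +kernel)
            (CovZ.n2 (13840, 28640) (by decide +kernel)
             (CovZ.leaf K2_ok TE_l16391 _)
             (CovZ.leaf K2_ok TE_l16392 _))
            (CovZ.leaf K2_ok TE_l16393 _))
           (CovZ.n1 (13840, 28560) (by decide +kernel)
            (CovZ.leaf K2_ok TE_l16394 _)
            (CovZ.n1 (13840, 28640) (by decide +kernel)
             (CovZ.leaf K2_ok TE_l16395 _)
             (CovZ.leaf K2_ok TE_l16396 _))))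
          (CovZ.n1 (13920, 28800) (by decide +kernel)
           (CovZ.n2 (14000, 28720) (by decide +kernel)
            (CovZ.leaf K2_ok TE_l16397 _)
            (CovZ.n1 (14000, 28800) (by decide +kernel)
             (CovZ.leaf K2_ok TE_l16398 _)
             (CovZ.leaf K2_ok TE_l16399 _)))
           (CovZ.n1 (13840, 28720) (by decide +kernel)
            (CovZ.leaf K2_ok TE_l16400 _)
            (CovZ.leaf K2_ok TE_l16401 _))))
         (CovZ.n1 (13600, 28640) (by decide +kernel)
          (CovZ.n2 (13600, 28800) (by decide +kernel)
           (CovZ.leaf K2_ok TE_l16402 _)
           (CovZ.leaf K2_ok TE_l16403 _))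
          (CovZ.n1 (13760, 28640) (by decide +kernel)
           (CovZ.n2 (13680, 28560) (by decide +kernel)
            (CovZ.leaf K2_ok TE_l16404 _)
            (CovZ.leaf K2_ok TE_l16405 _))
           (CovZ.leaf K2_ok TE_l16406 _))))
        (CovZ.n1 (14080, 28480) (by decide +kernel)
         (CovZ.n2 (13920, 28320) (by decide +kernel)
          (CovZ.n2 (13920, 28480) (by decide +kernel)
           (CovZ.badM (by decide +kernel))
           (CovZ.n1 (13840, 28400) (by decide +kernel)
            (CovZ.n2 (13840, 28480) (by decide +kernel)
             (CovZ.n2 (13880, 28440) (by decide +kernel)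
              (CovZ.leaf K2_ok TE_l16407 _)
              (CovZ.leaf K2_ok TE_l16408 _))
             (CovZ.leaf K2_ok TE_l16409 _))
            (CovZ.badM (by decide +kernel))))
          (CovZ.badM (by decide +kernel)))
         (CovZ.n1 (13920, 28640) (by decide +kernel)
          (CovZ.n2 (14080, 28640) (by decide +kernel)
           (CovZ.n2 (14000, 28560) (by decide +kernel)
            (CovZ.n2 (14000, 28640) (by decide +kernel)
             (CovZ.n2 (14040, 28600) (by decide +kernel)
              (CovZ.leaf K2_ok TE_l16410 _)
              (CovZ.leaf K2_ok TE_l16411 _))
             (CovZ.n1 (13960, 28600) (by decide +kernel)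
              (CovZ.leaf K2_ok TE_l16412 _)
              (CovZ.leaf K2_ok TE_l16413 _)))
            (CovZ.badM (by decide +kernel)))
           (CovZ.n1 (14000, 28720) (by decide +kernel)
            (CovZ.n2 (14080, 28720) (by decide +kernel)
             (CovZ.leaf K2_ok TE_l16414 _)
             (CovZ.leaf K2_ok TE_l16415 _))
            (CovZ.n1 (14000, 28640) (by decide +kernel)
             (CovZ.leaf K2_ok TE_l16416 _)
             (CovZ.n1 (14040, 28680) (by decide +kernel)
              (CovZ.leaf K2_ok TE_l16417 _)
              (CovZ.leaf K2_ok TE_l16418 _)))))
          (CovZ.n1 (13920, 28480) (by decide +kernel)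
           (CovZ.n2 (13840, 28560) (by decide +kernel)
            (CovZ.n2 (13920, 28560) (by decide +kernel)
             (CovZ.leaf K2_ok TE_l16419 _)
             (CovZ.leaf K2_ok TE_l16420 _))
            (CovZ.n1 (13840, 28480) (by decide +kernel)
             (CovZ.leaf K2_ok TE_l16421 _)
             (CovZ.n1 (13880, 28520) (by decide +kernel)
              (CovZ.leaf K2_ok TE_l16422 _)
              (CovZ.leaf K2_ok TE_l16423 _))))
           (CovZ.n1 (14000, 28560) (by decide +kernel)
            (CovZ.badM (by decide +kernel))
            (CovZ.n1 (13920, 28560) (by decide +kernel)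
             (CovZ.n2 (13960, 28600) (by decide +kernel)
              (CovZ.leaf K2_ok TE_l16424 _)
              (CovZ.leaf K2_ok TE_l16425 _))
             (CovZ.n1 (13960, 28520) (by decide +kernel)
              (CovZ.leaf K2_ok TE_l16426 _)
              (CovZ.leaf K2_ok TE_l16427 _))))))))
       (CovZ.n1 (13760, 29120) (by decide +kernel)
        (CovZ.n2 (14080, 29120) (by decide +kernel)
         (CovZ.n2 (13920, 28960) (by decide +kernel)
          (CovZ.n2 (13920, 29120) (by decide +kernel)
           (CovZ.leaf K2_ok TE_l16428 _)
           (CovZ.leaf K2_ok TE_l16429 _))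
          (CovZ.n1 (14080, 28960) (by decide +kernel)
           (CovZ.n2 (14000, 28880) (by decide +kernel)
            (CovZ.leaf K2_ok TE_l16430 _)
            (CovZ.leaf K2_ok TE_l16431 _))
           (CovZ.leaf K2_ok TE_l16432 _)))
         (CovZ.n1 (13920, 29280) (by decide +kernel)
          (CovZ.leaf K2_ok TE_l16433 _)
          (CovZ.n1 (13920, 29120) (by decide +kernel)
           (CovZ.leaf K2_ok TE_l16434 _)
           (CovZ.n1 (14000, 29200) (by decide +kernel)
            (CovZ.leaf K2_ok TE_l16435 _)
            (CovZ.leaf K2_ok TE_l16436 _)))))
        (CovZ.n1 (13760, 28800) (by decide +kernel)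
         (CovZ.n2 (13600, 28960) (by decide +kernel)
          (CovZ.leaf K2_ok TE_l16437 _)
          (CovZ.n1 (13600, 28800) (by decide +kernel)
           (CovZ.leaf K2_ok TE_l16438 _)
           (CovZ.n1 (13680, 28880) (by decide +kernel)
            (CovZ.leaf K2_ok TE_l16439 _)
            (CovZ.leaf K2_ok TE_l16440 _))))
         (CovZ.n1 (13920, 28960) (by decide +kernel)
          (CovZ.n2 (13920, 28800) (by decide +kernel)
           (CovZ.leaf K2_ok TE_l16441 _)
           (CovZ.n1 (14000, 28880) (by decide +kernel)
            (CovZ.n2 (14000, 28800) (by decide +kernel)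
             (CovZ.leaf K2_ok TE_l16442 _)
             (CovZ.leaf K2_ok TE_l16443 _))
            (CovZ.leaf K2_ok TE_l16444 _)))
          (CovZ.n1 (13760, 28960) (by decide +kernel)
           (CovZ.n2 (13840, 29040) (by decide +kernel)
            (CovZ.leaf K2_ok TE_l16445 _)
            (CovZ.leaf K2_ok TE_l16446 _))
           (CovZ.leaf K2_ok TE_l16447 _))))))

theorem TE_u205 : CovZ TE_M (toL (selN TE_LN 2361183241572261826560)) [0, 7, 6, 1] (13440, 28800) (12800, 28160) (14080, 28160) :=
    (CovZ.n1 (13440, 28160) (by decide +kernel)
       (CovZ.n2 (13120, 28480) (by decide +kernel)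
        (CovZ.n2 (13440, 28480) (by decide +kernel)
         (CovZ.n2 (13280, 28320) (by decide +kernel)
          (CovZ.n2 (13280, 28480) (by decide +kernel)
           (CovZ.leaf K2_ok TE_l16448 _)
           (CovZ.leaf K2_ok TE_l16449 _))
          (CovZ.n1 (13440, 28320) (by decide +kernel)
           (CovZ.n2 (13360, 28240) (by decide +kernel)
            (CovZ.leaf K2_ok TE_l16450 _)
            (CovZ.leaf K2_ok TE_l16451 _))
           (CovZ.leaf K2_ok TE_l16452 _)))
         (CovZ.n1 (13280, 28640) (by decide +kernel)
          (CovZ.leaf K2_ok TE_l16453 _)
          (CovZ.n1 (13280, 28480) (by decide +kernel)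
           (CovZ.leaf K2_ok TE_l16454 _)
           (CovZ.n1 (13360, 28560) (by decide +kernel)
            (CovZ.leaf K2_ok TE_l16455 _)
            (CovZ.leaf K2_ok TE_l16456 _)))))
        (CovZ.n1 (13120, 28160) (by decide +kernel)
         (CovZ.n2 (12960, 28320) (by decide +kernel)
          (CovZ.leaf K2_ok TE_l16457 _)
          (CovZ.n1 (12960, 28160) (by decide +kernel)
           (CovZ.leaf K2_ok TE_l16458 _)
           (CovZ.n1 (13040, 28240) (by decide +kernel)
            (CovZ.leaf K2_ok TE_l16459 _)
            (CovZ.leaf K2_ok TE_l16460 _))))
         (CovZ.n1 (13280, 28320) (by decide +kernel)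
          (CovZ.n2 (13280, 28160) (by decide +kernel)
           (CovZ.leaf K2_ok TE_l16461 _)
           (CovZ.n1 (13360, 28240) (by decide +kernel)
            (CovZ.n2 (13360, 28160) (by decide +kernel)
             (CovZ.leaf K2_ok TE_l16462 _)
             (CovZ.leaf K2_ok TE_l16463 _))
            (CovZ.leaf K2_ok TE_l16464 _)))
          (CovZ.n1 (13120, 28320) (by decide +kernel)
           (CovZ.n2 (13200, 28400) (by decide +kernel)
            (CovZ.leaf K2_ok TE_l16465 _)
            (CovZ.leaf K2_ok TE_l16466 _))
           (CovZ.leaf K2_ok TE_l16467 _)))))
       (CovZ.n1 (13760, 28480) (by decide +kernel)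
        (CovZ.n2 (13760, 28160) (by decide +kernel)
         (CovZ.n2 (13600, 28320) (by decide +kernel)
          (CovZ.n2 (13760, 28320) (by decide +kernel)
           (CovZ.n2 (13680, 28240) (by decide +kernel)
            (CovZ.n2 (13680, 28320) (by decide +kernel)
             (CovZ.n2 (13720, 28280) (by decide +kernel)
              (CovZ.leaf K2_ok TE_l16468 _)
              (CovZ.leaf K2_ok TE_l16469 _))
             (CovZ.leaf K2_ok TE_l16470 _))
            (CovZ.badM (by decide +kernel)))
           (CovZ.n1 (13680, 28400) (by decide +kernel)
            (CovZ.n2 (13760, 28400) (by decide +kernel)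
             (CovZ.leaf K2_ok TE_l16471 _)
             (CovZ.leaf K2_ok TE_l16472 _))
            (CovZ.n1 (13680, 28320) (by decide +kernel)
             (CovZ.leaf K2_ok TE_l16473 _)
             (CovZ.n1 (13720, 28360) (by decide +kernel)
              (CovZ.leaf K2_ok TE_l16474 _)
              (CovZ.leaf K2_ok TE_l16475 _)))))
          (CovZ.n1 (13600, 28160) (by decide +kernel)
           (CovZ.n2 (13520, 28240) (by decide +kernel)
            (CovZ.n2 (13600, 28240) (by decide +kernel)
             (CovZ.n2 (13560, 28200) (by decide +kernel)
              (CovZ.leaf K2_ok TE_l16476 _)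
              (CovZ.leaf K2_ok TE_l16477 _))
             (CovZ.leaf K2_ok TE_l16478 _))
            (CovZ.n1 (13520, 28160) (by decide +kernel)
             (CovZ.leaf K2_ok TE_l16479 _)
             (CovZ.n1 (13560, 28200) (by decide +kernel)
              (CovZ.leaf K2_ok TE_l16480 _)
              (CovZ.leaf K2_ok TE_l16481 _))))
           (CovZ.n1 (13680, 28240) (by decide +kernel)
            (CovZ.badM (by decide +kernel))
            (CovZ.n1 (13600, 28240) (by decide +kernel)
             (CovZ.n2 (13640, 28280) (by decide +kernel)
              (CovZ.leaf K2_ok TE_l16482 _)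
              (CovZ.leaf K2_ok TE_l16483 _))
             (CovZ.n1 (13640, 28200) (by decide +kernel)
              (CovZ.leaf K2_ok TE_l16484 _)
              (CovZ.leaf K2_ok TE_l16485 _))))))
         (CovZ.n1 (13920, 28320) (by decide +kernel)
          (CovZ.badM (by decide +kernel))
          (CovZ.n1 (13760, 28320) (by decide +kernel)
           (CovZ.n2 (13840, 28400) (by decide +kernel)
            (CovZ.badM (by decide +kernel))
            (CovZ.n1 (13760, 28400) (by decide +kernel)
             (CovZ.n2 (13800, 28440) (by decide +kernel)
              (CovZ.leaf K2_ok TE_l16486 _)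
              (CovZ.leaf K2_ok TE_l16487 _))
             (CovZ.n1 (13800, 28360) (by decide +kernel)
              (CovZ.leaf K2_ok TE_l16488 _)
              (CovZ.leaf K2_ok TE_l16489 _))))
           (CovZ.badM (by decide +kernel)))))
        (CovZ.n1 (13440, 28480) (by decide +kernel)
         (CovZ.n2 (13600, 28640) (by decide +kernel)
          (CovZ.n2 (13600, 28480) (by decide +kernel)
           (CovZ.leaf K2_ok TE_l16490 _)
           (CovZ.n1 (13680, 28560) (by decide +kernel)
            (CovZ.n2 (13680, 28480) (by decide +kernel)
             (CovZ.leaf K2_ok TE_l16491 _)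
             (CovZ.leaf K2_ok TE_l16492 _))
            (CovZ.leaf K2_ok TE_l16493 _)))
          (CovZ.n1 (13440, 28640) (by decide +kernel)
           (CovZ.n2 (13520, 28720) (by decide +kernel)
            (CovZ.leaf K2_ok TE_l16494 _)
            (CovZ.leaf K2_ok TE_l16495 _))
           (CovZ.leaf K2_ok TE_l16496 _)))
         (CovZ.n1 (13600, 28320) (by decide +kernel)
          (CovZ.n2 (13440, 28320) (by decide +kernel)
           (CovZ.n2 (13520, 28400) (by decide +kernel)
            (CovZ.n2 (13520, 28320) (by decide +kernel)
             (CovZ.leaf K2_ok TE_l16497 _)
             (CovZ.leaf K2_ok TE_l16498 _))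
            (CovZ.leaf K2_ok TE_l16499 _))
           (CovZ.n1 (13520, 28240) (by decide +kernel)
            (CovZ.leaf K2_ok TE_l16500 _)
            (CovZ.n1 (13520, 28320) (by decide +kernel)
             (CovZ.leaf K2_ok TE_l16501 _)
             (CovZ.leaf K2_ok TE_l16502 _))))
          (CovZ.n1 (13600, 28480) (by decide +kernel)
           (CovZ.n2 (13680, 28400) (by decide +kernel)
            (CovZ.leaf K2_ok TE_l16503 _)
            (CovZ.n1 (13680, 28480) (by decide +kernel)
             (CovZ.leaf K2_ok TE_l16504 _)
             (CovZ.leaf K2_ok TE_l16505 _)))
           (CovZ.n1 (13520, 28400) (by decide +kernel)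
            (CovZ.leaf K2_ok TE_l16506 _)
            (CovZ.leaf K2_ok TE_l16507 _)))))))

theorem TE_u206 : CovZ TE_M (toL (selN TE_LN 2361183241572261826560)) [0, 7, 6, 1] (15360, 30720) (14080, 29440) (15360, 28160) :=
    (CovZ.n2 (15360, 29440) (by decide +kernel)
     (CovZ.n2 (14720, 28800) (by decide +kernel)
      (CovZ.n2 (14720, 29440) (by decide +kernel)
       (CovZ.n2 (15040, 29120) (by decide +kernel)
        (CovZ.n2 (14720, 29120) (by decide +kernel)
         (CovZ.n2 (14880, 29280) (by decide +kernel)
          (CovZ.badM (by decide +kernel))
          (CovZ.n1 (14720, 29280) (by decide +kernel)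
           (CovZ.n2 (14800, 29360) (by decide +kernel)
            (CovZ.badM (by decide +kernel))
            (CovZ.n1 (14720, 29360) (by decide +kernel)
             (CovZ.n2 (14760, 29400) (by decide +kernel)
              (CovZ.leaf K2_ok TE_l16240 _)
              (CovZ.leaf K2_ok TE_l16241 _))
             (CovZ.n1 (14760, 29320) (by decide +kernel)
              (CovZ.leaf K2_ok TE_l16242 _)
              (CovZ.leaf K2_ok TE_l16243 _))))
           (CovZ.badM (by decide +kernel))))
         (CovZ.badM (by decide +kernel)))
        (CovZ.n1 (15040, 29440) (by decide +kernel)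
         (CovZ.badM (by decide +kernel))
         (CovZ.n1 (14880, 29280) (by decide +kernel)
          (CovZ.n2 (14880, 29440) (by decide +kernel)
           (CovZ.badM (by decide +kernel))
           (CovZ.n1 (14800, 29360) (by decide +kernel)
            (CovZ.n2 (14800, 29440) (by decide +kernel)
             (CovZ.n2 (14840, 29400) (by decide +kernel)
              (CovZ.leaf K2_ok TE_l16244 _)
              (CovZ.leaf K2_ok TE_l16245 _))
             (CovZ.leaf K2_ok TE_l16246 _))
            (CovZ.badM (by decide +kernel))))
          (CovZ.badM (by decide +kernel)))))
       (CovZ.n1 (14400, 29120) (by decide +kernel)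
        (CovZ.n2 (14400, 29440) (by decide +kernel)
         (CovZ.n2 (14560, 29280) (by decide +kernel)
          (CovZ.n2 (14400, 29280) (by decide +kernel)
           (CovZ.n2 (14480, 29360) (by decide +kernel)
            (CovZ.leaf K2_ok TE_l16247 _)
            (CovZ.leaf K2_ok TE_l16248 _))
           (CovZ.n1 (14480, 29200) (by decide +kernel)
            (CovZ.leaf K2_ok TE_l16249 _)
            (CovZ.n1 (14480, 29280) (by decide +kernel)
             (CovZ.leaf K2_ok TE_l16250 _)
             (CovZ.leaf K2_ok TE_l16251 _))))
          (CovZ.n1 (14560, 29440) (by decide +kernel)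
           (CovZ.n2 (14640, 29360) (by decide +kernel)
            (CovZ.leaf K2_ok TE_l16252 _)
            (CovZ.n1 (14640, 29440) (by decide +kernel)
             (CovZ.leaf K2_ok TE_l16253 _)
             (CovZ.leaf K2_ok TE_l16254 _)))
           (CovZ.n1 (14480, 29360) (by decide +kernel)
            (CovZ.leaf K2_ok TE_l16255 _)
            (CovZ.leaf K2_ok TE_l16256 _))))
         (CovZ.n1 (14240, 29280) (by decide +kernel)
          (CovZ.n2 (14240, 29440) (by decide +kernel)
           (CovZ.leaf K2_ok TE_l16257 _)
           (CovZ.leaf K2_ok TE_l16258 _))
          (CovZ.n1 (14400, 29280) (by decide +kernel)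
           (CovZ.n2 (14320, 29200) (by decide +kernel)
            (CovZ.leaf K2_ok TE_l16259 _)
            (CovZ.leaf K2_ok TE_l16260 _))
           (CovZ.leaf K2_ok TE_l16261 _))))
        (CovZ.n1 (14720, 29120) (by decide +kernel)
         (CovZ.n2 (14560, 28960) (by decide +kernel)
          (CovZ.n2 (14560, 29120) (by decide +kernel)
           (CovZ.badM (by decide +kernel))
           (CovZ.n1 (14480, 29040) (by decide +kernel)
            (CovZ.n2 (14480, 29120) (by decide +kernel)
             (CovZ.badM (by decide +kernel))
             (CovZ.leaf K2_ok TE_l16264 _))
            (CovZ.badM (by decide +kernel))))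
          (CovZ.badM (by decide +kernel)))
         (CovZ.n1 (14560, 29280) (by decide +kernel)
          (CovZ.n2 (14720, 29280) (by decide +kernel)
           (CovZ.n2 (14640, 29200) (by decide +kernel)
            (CovZ.n2 (14640, 29280) (by decide +kernel)
             (CovZ.n2 (14680, 29240) (by decide +kernel)
              (CovZ.leaf K2_ok TE_l16265 _)
              (CovZ.leaf K2_ok TE_l16266 _))
             (CovZ.leaf K2_ok TE_l16267 _))
            (CovZ.badM (by decide +kernel)))
           (CovZ.n1 (14640, 29360) (by decide +kernel)
            (CovZ.n2 (14720, 29360) (by decide +kernel)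
             (CovZ.leaf K2_ok TE_l16268 _)
             (CovZ.leaf K2_ok TE_l16269 _))
            (CovZ.n1 (14640, 29280) (by decide +kernel)
             (CovZ.leaf K2_ok TE_l16270 _)
             (CovZ.n1 (14680, 29320) (by decide +kernel)
              (CovZ.leaf K2_ok TE_l16271 _)
              (CovZ.leaf K2_ok TE_l16272 _)))))
          (CovZ.n1 (14560, 29120) (by decide +kernel)
           (CovZ.n2 (14480, 29200) (by decide +kernel)
            (CovZ.n2 (14560, 29200) (by decide +kernel)
             (CovZ.leaf K2_ok TE_l16273 _)
             (CovZ.leaf K2_ok TE_l16274 _))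
            (CovZ.n1 (14480, 29120) (by decide +kernel)
             (CovZ.leaf K2_ok TE_l16275 _)
             (CovZ.n1 (14520, 29160) (by decide +kernel)
              (CovZ.badM (by decide +kernel))
              (CovZ.leaf K2_ok TE_l16277 _))))
           (CovZ.n1 (14640, 29200) (by decide +kernel)
            (CovZ.badM (by decide +kernel))
            (CovZ.n1 (14560, 29200) (by decide +kernel)
             (CovZ.n2 (14600, 29240) (by decide +kernel)
              (CovZ.badM (by decide +kernel))
              (CovZ.leaf K2_ok TE_l16279 _))
             (CovZ.badM (by decide +kernel)))))))))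
      (CovZ.badM (by decide +kernel)))
     (CovZ.n1 (14720, 30080) (by decide +kernel)
      (CovZ.n2 (15360, 30080) (by decide +kernel)
       (CovZ.badM (by decide +kernel))
       (CovZ.n1 (15040, 30400) (by decide +kernel)
        (CovZ.n2 (15360, 30400) (by decide +kernel)
         (CovZ.badM (by decide +kernel))
         (CovZ.n1 (15200, 30560) (by decide +kernel)
          (CovZ.leaf K2_ok TE_l16320 _)
          (CovZ.n1 (15200, 30400) (by decide +kernel)
           (CovZ.leaf K2_ok TE_l16321 _)
           (CovZ.n1 (15280, 30480) (by decide +kernel)
            (CovZ.badM (by decide +kernel))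
            (CovZ.leaf K2_ok TE_l16323 _)))))
        (CovZ.badM (by decide +kernel))))
      (CovZ.n1 (14720, 29440) (by decide +kernel)
       (CovZ.n2 (14400, 29760) (by decide +kernel)
        (CovZ.n2 (14720, 29760) (by decide +kernel)
         (CovZ.n2 (14560, 29600) (by decide +kernel)
          (CovZ.n2 (14560, 29760) (by decide +kernel)
           (CovZ.leaf K2_ok TE_l16334 _)
           (CovZ.leaf K2_ok TE_l16335 _))
          (CovZ.n1 (14720, 29600) (by decide +kernel)
           (CovZ.n2 (14640, 29520) (by decide +kernel)
            (CovZ.leaf K2_ok TE_l16336 _)
            (CovZ.leaf K2_ok TE_l16337 _))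
           (CovZ.leaf K2_ok TE_l16338 _)))
         (CovZ.n1 (14560, 29920) (by decide +kernel)
          (CovZ.badM (by decide +kernel))
          (CovZ.n1 (14560, 29760) (by decide +kernel)
           (CovZ.leaf K2_ok TE_l16340 _)
           (CovZ.n1 (14640, 29840) (by decide +kernel)
            (CovZ.leaf K2_ok TE_l16341 _)
            (CovZ.leaf K2_ok TE_l16342 _)))))
        (CovZ.n1 (14400, 29440) (by decide +kernel)
         (CovZ.n2 (14240, 29600) (by decide +kernel)
          (CovZ.leaf K2_ok TE_l16343 _)
          (CovZ.n1 (14240, 29440) (by decide +kernel)
           (CovZ.leaf K2_ok TE_l16344 _)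
           (CovZ.n1 (14320, 29520) (by decide +kernel)
            (CovZ.leaf K2_ok TE_l16345 _)
            (CovZ.leaf K2_ok TE_l16346 _))))
         (CovZ.n1 (14560, 29600) (by decide +kernel)
          (CovZ.n2 (14560, 29440) (by decide +kernel)
           (CovZ.leaf K2_ok TE_l16347 _)
           (CovZ.n1 (14640, 29520) (by decide +kernel)
            (CovZ.n2 (14640, 29440) (by decide +kernel)
             (CovZ.leaf K2_ok TE_l16348 _)
             (CovZ.leaf K2_ok TE_l16349 _))
            (CovZ.leaf K2_ok TE_l16350 _)))
          (CovZ.n1 (14400, 29600) (by decide +kernel)
           (CovZ.n2 (14480, 29680) (by decide +kernel)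
            (CovZ.leaf K2_ok TE_l16351 _)
            (CovZ.leaf K2_ok TE_l16352 _))
           (CovZ.leaf K2_ok TE_l16353 _)))))
       (CovZ.n1 (15040, 29760) (by decide +kernel)
        (CovZ.n2 (15040, 29440) (by decide +kernel)
         (CovZ.n2 (14880, 29600) (by decide +kernel)
          (CovZ.badM (by decide +kernel))
          (CovZ.n1 (14880, 29440) (by decide +kernel)
           (CovZ.n2 (14800, 29520) (by decide +kernel)
            (CovZ.n2 (14880, 29520) (by decide +kernel)
             (CovZ.leaf K2_ok TE_l16362 _)
             (CovZ.leaf K2_ok TE_l16363 _))
            (CovZ.n1 (14800, 29440) (by decide +kernel)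
             (CovZ.leaf K2_ok TE_l16364 _)
             (CovZ.n1 (14840, 29480) (by decide +kernel)
              (CovZ.leaf K2_ok TE_l16365 _)
              (CovZ.leaf K2_ok TE_l16366 _))))
           (CovZ.n1 (14960, 29520) (by decide +kernel)
            (CovZ.n2 (14960, 29440) (by decide +kernel)
             (CovZ.n2 (14920, 29480) (by decide +kernel)
              (CovZ.leaf K2_ok TE_l19565 _)
              (CovZ.badM (by decide +kernel)))
             (CovZ.n1 (15000, 29480) (by decide +kernel)
              (CovZ.badM (by decide +kernel))
              (CovZ.leaf K2_ok TE_l19566 _)))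
            (CovZ.n1 (14880, 29520) (by decide +kernel)
             (CovZ.n2 (14920, 29560) (by decide +kernel)
              (CovZ.leaf K2_ok TE_l16367 _)
              (CovZ.leaf K2_ok TE_l16368 _))
             (CovZ.n1 (14920, 29480) (by decide +kernel)
              (CovZ.leaf K2_ok TE_l16369 _)
              (CovZ.leaf K2_ok TE_l16370 _))))))
         (CovZ.badM (by decide +kernel)))
        (CovZ.n1 (14720, 29760) (by decide +kernel)
         (CovZ.badM (by decide +kernel))
         (CovZ.n1 (14880, 29600) (by decide +kernel)
          (CovZ.n2 (14720, 29600) (by decide +kernel)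
           (CovZ.n2 (14800, 29680) (by decide +kernel)
            (CovZ.leaf K2_ok TE_l16381 _)
            (CovZ.leaf K2_ok TE_l16382 _))
           (CovZ.n1 (14800, 29520) (by decide +kernel)
            (CovZ.leaf K2_ok TE_l16383 _)
            (CovZ.n1 (14800, 29600) (by decide +kernel)
             (CovZ.leaf K2_ok TE_l16384 _)
             (CovZ.leaf K2_ok TE_l16385 _))))
          (CovZ.badM (by decide +kernel))))))))

theorem TE_u207 : CovZ TE_M (toL (selN TE_LN 2361183241572261826560)) [0, 7, 6, 1] (14080, 29440) (12800, 28160) (15360, 28160) :=
    (CovZ.n1 (14080, 28160) (by decide +kernel)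
     (CovZ.n2 (13440, 28800) (by decide +kernel)
      TE_u204
      TE_u205)
     (CovZ.n1 (14720, 28800) (by decide +kernel)
      (CovZ.n2 (14720, 28160) (by decide +kernel)
       (CovZ.n2 (14400, 28480) (by decide +kernel)
        (CovZ.badM (by decide +kernel))
        (CovZ.badM (by decide +kernel)))
       (CovZ.badM (by decide +kernel)))
      (CovZ.n1 (14080, 28800) (by decide +kernel)
       (CovZ.n2 (14400, 29120) (by decide +kernel)
        (CovZ.n2 (14400, 28800) (by decide +kernel)
         (CovZ.n2 (14240, 28960) (by decide +kernel)
          (CovZ.n2 (14400, 28960) (by decide +kernel)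
           (CovZ.n2 (14320, 28880) (by decide +kernel)
            (CovZ.n2 (14320, 28960) (by decide +kernel)
             (CovZ.badM (by decide +kernel))
             (CovZ.leaf K2_ok TE_l16510 _))
            (CovZ.badM (by decide +kernel)))
           (CovZ.n1 (14320, 29040) (by decide +kernel)
            (CovZ.n2 (14400, 29040) (by decide +kernel)
             (CovZ.leaf K2_ok TE_l16511 _)
             (CovZ.leaf K2_ok TE_l16512 _))
            (CovZ.n1 (14320, 28960) (by decide +kernel)
             (CovZ.leaf K2_ok TE_l16513 _)
             (CovZ.n1 (14360, 29000) (by decide +kernel)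
              (CovZ.badM (by decide +kernel))
              (CovZ.leaf K2_ok TE_l16515 _)))))
          (CovZ.n1 (14240, 28800) (by decide +kernel)
           (CovZ.n2 (14160, 28880) (by decide +kernel)
            (CovZ.n2 (14240, 28880) (by decide +kernel)
             (CovZ.leaf K2_ok TE_l16516 _)
             (CovZ.leaf K2_ok TE_l16517 _))
            (CovZ.n1 (14160, 28800) (by decide +kernel)
             (CovZ.leaf K2_ok TE_l16518 _)
             (CovZ.n1 (14200, 28840) (by decide +kernel)
              (CovZ.leaf K2_ok TE_l16519 _)
              (CovZ.leaf K2_ok TE_l16520 _))))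
           (CovZ.n1 (14320, 28880) (by decide +kernel)
            (CovZ.badM (by decide +kernel))
            (CovZ.n1 (14240, 28880) (by decide +kernel)
             (CovZ.n2 (14280, 28920) (by decide +kernel)
              (CovZ.leaf K2_ok TE_l16521 _)
              (CovZ.leaf K2_ok TE_l16522 _))
             (CovZ.n1 (14280, 28840) (by decide +kernel)
              (CovZ.leaf K2_ok TE_l16523 _)
              (CovZ.leaf K2_ok TE_l16524 _))))))
         (CovZ.n1 (14560, 28960) (by decide +kernel)
          (CovZ.badM (by decide +kernel))
          (CovZ.n1 (14400, 28960) (by decide +kernel)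
           (CovZ.n2 (14480, 29040) (by decide +kernel)
            (CovZ.badM (by decide +kernel))
            (CovZ.n1 (14400, 29040) (by decide +kernel)
             (CovZ.n2 (14440, 29080) (by decide +kernel)
              (CovZ.badM (by decide +kernel))
              (CovZ.leaf K2_ok TE_l16526 _))
             (CovZ.badM (by decide +kernel))))
           (CovZ.badM (by decide +kernel)))))
        (CovZ.n1 (14080, 29120) (by decide +kernel)
         (CovZ.n2 (14240, 29280) (by decide +kernel)
          (CovZ.n2 (14240, 29120) (by decide +kernel)
           (CovZ.leaf K2_ok TE_l16529 _)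
           (CovZ.n1 (14320, 29200) (by decide +kernel)
            (CovZ.leaf K2_ok TE_l16530 _)
            (CovZ.leaf K2_ok TE_l16531 _)))
          (CovZ.n1 (14080, 29280) (by decide +kernel)
           (CovZ.n2 (14160, 29360) (by decide +kernel)
            (CovZ.leaf K2_ok TE_l16532 _)
            (CovZ.leaf K2_ok TE_l16533 _))
           (CovZ.leaf K2_ok TE_l16534 _)))
         (CovZ.n1 (14240, 28960) (by decide +kernel)
          (CovZ.n2 (14080, 28960) (by decide +kernel)
           (CovZ.n2 (14160, 29040) (by decide +kernel)
            (CovZ.n2 (14160, 28960) (by decide +kernel)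
             (CovZ.leaf K2_ok TE_l16535 _)
             (CovZ.leaf K2_ok TE_l16536 _))
            (CovZ.leaf K2_ok TE_l16537 _))
           (CovZ.n1 (14160, 28880) (by decide +kernel)
            (CovZ.leaf K2_ok TE_l16538 _)
            (CovZ.n1 (14160, 28960) (by decide +kernel)
             (CovZ.leaf K2_ok TE_l16539 _)
             (CovZ.leaf K2_ok TE_l16540 _))))
          (CovZ.n1 (14240, 29120) (by decide +kernel)
           (CovZ.n2 (14320, 29040) (by decide +kernel)
            (CovZ.leaf K2_ok TE_l16541 _)
            (CovZ.n1 (14320, 29120) (by decide +kernel)
             (CovZ.leaf K2_ok TE_l16542 _)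
             (CovZ.leaf K2_ok TE_l16543 _)))
           (CovZ.n1 (14160, 29040) (by decide +kernel)
            (CovZ.leaf K2_ok TE_l16544 _)
            (CovZ.leaf K2_ok TE_l16545 _))))))
       (CovZ.n1 (14400, 28480) (by decide +kernel)
        (CovZ.n2 (14080, 28480) (by decide +kernel)
         (CovZ.n2 (14240, 28640) (by decide +kernel)
          (CovZ.badM (by decide +kernel))
          (CovZ.n1 (14080, 28640) (by decide +kernel)
           (CovZ.n2 (14160, 28720) (by decide +kernel)
            (CovZ.badM (by decide +kernel))
            (CovZ.n1 (14080, 28720) (by decide +kernel)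
             (CovZ.n2 (14120, 28760) (by decide +kernel)
              (CovZ.leaf K2_ok TE_l16546 _)
              (CovZ.leaf K2_ok TE_l16547 _))
             (CovZ.n1 (14120, 28680) (by decide +kernel)
              (CovZ.leaf K2_ok TE_l16548 _)
              (CovZ.leaf K2_ok TE_l16549 _))))
           (CovZ.badM (by decide +kernel))))
         (CovZ.badM (by decide +kernel)))
        (CovZ.n1 (14400, 28800) (by decide +kernel)
         (CovZ.badM (by decide +kernel))
         (CovZ.n1 (14240, 28640) (by decide +kernel)
          (CovZ.n2 (14240, 28800) (by decide +kernel)
           (CovZ.badM (by decide +kernel))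
           (CovZ.n1 (14160, 28720) (by decide +kernel)
            (CovZ.n2 (14160, 28800) (by decide +kernel)
             (CovZ.n2 (14200, 28760) (by decide +kernel)
              (CovZ.leaf K2_ok TE_l16550 _)
              (CovZ.leaf K2_ok TE_l16551 _))
             (CovZ.leaf K2_ok TE_l16552 _))
            (CovZ.badM (by decide +kernel))))
          (CovZ.badM (by decide +kernel))))))))

theorem TE_u208 : CovZ TE_M (toL (selN TE_LN 9667521693429833043814381431278981556014713890819211586961412)) [0, 7, 6, 1] (0, 33280) (-640, 32640) (0, 32000) :=
    (CovZ.n2 (0, 32640) (by decide +kernel)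
        (CovZ.n2 (-320, 32320) (by decide +kernel)
         (CovZ.subM 383123885216472214592182994348527556713073895157006340 (by decide +kernel)
          (CovZ.n2 (-320, 32640) (by decide +kernel)
           (CovZ.n2 (-160, 32480) (by decide +kernel)
            (CovZ.n2 (-320, 32480) (by decide +kernel)
             (CovZ.n2 (-240, 32560) (by decide +kernel)
              (CovZ.n2 (-240, 32480) (by decide +kernel)
               (CovZ.leaf K2_ok TE_l1988 _)
               (CovZ.leaf K2_ok TE_l1989 _))
              (CovZ.subM 383123885216472214589586756787577295904684780545900548 (by decide +kernel)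
               (CovZ.n1 (-320, 32560) (by decide +kernel)
                (CovZ.n2 (-280, 32600) (by decide +kernel)
                 (CovZ.leaf K2_ok TE_l1990 _)
                 (CovZ.leaf K2_ok TE_l1991 _))
                (CovZ.n1 (-280, 32520) (by decide +kernel)
                 (CovZ.leaf K2_ok TE_l1992 _)
                 (CovZ.leaf K2_ok TE_l1993 _)))))
             (CovZ.n1 (-240, 32400) (by decide +kernel)
              (CovZ.n2 (-320, 32400) (by decide +kernel)
               (CovZ.leaf K2_ok TE_l1994 _)
               (CovZ.leaf K2_ok TE_l1995 _))
              (CovZ.n1 (-240, 32480) (by decide +kernel)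
               (CovZ.leaf K2_ok TE_l1996 _)
               (CovZ.leaf K2_ok TE_l1997 _))))
            (CovZ.n1 (-160, 32640) (by decide +kernel)
             (CovZ.n2 (-80, 32560) (by decide +kernel)
              (CovZ.leaf K2_ok TE_l1998 _)
              (CovZ.n1 (-80, 32640) (by decide +kernel)
               (CovZ.leaf K2_ok TE_l1999 _)
               (CovZ.leaf K2_ok TE_l2000 _)))
             (CovZ.n1 (-240, 32560) (by decide +kernel)
              (CovZ.n2 (-240, 32640) (by decide +kernel)
               (CovZ.leaf K2_ok TE_l2001 _)
               (CovZ.n1 (-280, 32600) (by decide +kernel)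
                (CovZ.badM (by decide +kernel))
                (CovZ.leaf K2_ok TE_l2002 _)))
              (CovZ.n1 (-160, 32560) (by decide +kernel)
               (CovZ.leaf K2_ok TE_l2003 _)
               (CovZ.leaf K2_ok TE_l2004 _)))))
           (CovZ.n1 (-480, 32480) (by decide +kernel)
            (CovZ.badM (by decide +kernel))
            (CovZ.n1 (-320, 32480) (by decide +kernel)
             (CovZ.n2 (-400, 32400) (by decide +kernel)
              (CovZ.n2 (-400, 32480) (by decide +kernel)
               (CovZ.n2 (-360, 32440) (by decide +kernel)
                (CovZ.badM (by decide +kernel))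
                (CovZ.leaf K2_ok TE_l2005 _))
               (CovZ.badM (by decide +kernel)))
              (CovZ.n1 (-320, 32400) (by decide +kernel)
               (CovZ.n2 (-360, 32360) (by decide +kernel)
                (CovZ.leaf K2_ok TE_l2006 _)
                (CovZ.leaf K2_ok TE_l2007 _))
               (CovZ.leaf K2_ok TE_l2008 _)))
             (CovZ.subM 383123885216472214589586756787577295904684780545900544 (by decide +kernel)
              (CovZ.n1 (-400, 32560) (by decide +kernel)
               (CovZ.n2 (-320, 32560) (by decide +kernel)
                (CovZ.n2 (-360, 32520) (by decide +kernel)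
                 (CovZ.badM (by decide +kernel))
                 (CovZ.leaf K2_ok TE_l2009 _))
                (CovZ.badM (by decide +kernel)))
               (CovZ.n1 (-400, 32480) (by decide +kernel)
                (CovZ.badM (by decide +kernel))
                (CovZ.n1 (-360, 32520) (by decide +kernel)
                 (CovZ.leaf K2_ok TE_l2010 _)
                 (CovZ.badM (by decide +kernel))))))))))
         (CovZ.n1 (0, 32320) (by decide +kernel)
          (CovZ.n2 (-160, 32160) (by decide +kernel)
           (CovZ.n2 (-160, 32320) (by decide +kernel)
            (CovZ.leaf K2_ok TE_l2011 _)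
            (CovZ.n1 (-240, 32240) (by decide +kernel)
             (CovZ.leaf K2_ok TE_l2012 _)
             (CovZ.leaf K2_ok TE_l2013 _)))
           (CovZ.leaf K2_ok TE_l2014 _))
          (CovZ.subM 383123885216472214592182994348527556713073963876483076 (by decide +kernel)
           (CovZ.n1 (-160, 32480) (by decide +kernel)
            (CovZ.n2 (0, 32480) (by decide +kernel)
             (CovZ.n2 (-80, 32400) (by decide +kernel)
              (CovZ.leaf K2_ok TE_l2015 _)
              (CovZ.leaf K2_ok TE_l2016 _))
             (CovZ.n1 (-80, 32560) (by decide +kernel)
              (CovZ.leaf K2_ok TE_l2017 _)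
              (CovZ.leaf K2_ok TE_l2018 _)))
            (CovZ.n1 (-160, 32320) (by decide +kernel)
             (CovZ.n2 (-240, 32400) (by decide +kernel)
              (CovZ.leaf K2_ok TE_l2019 _)
              (CovZ.leaf K2_ok TE_l2020 _))
             (CovZ.n1 (-80, 32400) (by decide +kernel)
              (CovZ.leaf K2_ok TE_l2021 _)
              (CovZ.leaf K2_ok TE_l2022 _)))))))
        (CovZ.subM 383123885216472214592182994348527556713073895157006336 (by decide +kernel)
         (CovZ.n1 (-320, 32960) (by decide +kernel)
          (CovZ.n2 (0, 32960) (by decide +kernel)
           (CovZ.n2 (-160, 32800) (by decide +kernel)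
            (CovZ.badM (by decide +kernel))
            (CovZ.n1 (0, 32800) (by decide +kernel)
             (CovZ.n2 (-80, 32720) (by decide +kernel)
              (CovZ.badM (by decide +kernel))
              (CovZ.n1 (0, 32720) (by decide +kernel)
               (CovZ.n2 (-40, 32680) (by decide +kernel)
                (CovZ.leaf K2_ok TE_l2025 _)
                (CovZ.leaf K2_ok TE_l2026 _))
               (CovZ.leaf K2_ok TE_l2027 _)))
             (CovZ.badM (by decide +kernel))))
           (CovZ.badM (by decide +kernel)))
          (CovZ.n1 (-320, 32640) (by decide +kernel)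
           (CovZ.badM (by decide +kernel))
           (CovZ.n1 (-160, 32800) (by decide +kernel)
            (CovZ.n2 (-160, 32640) (by decide +kernel)
             (CovZ.n2 (-240, 32720) (by decide +kernel)
              (CovZ.badM (by decide +kernel))
              (CovZ.n1 (-240, 32640) (by decide +kernel)
               (CovZ.n2 (-280, 32680) (by decide +kernel)
                (CovZ.badM (by decide +kernel))
                (CovZ.badM (by decide +kernel)))
               (CovZ.badM (by decide +kernel))))
             (CovZ.n1 (-80, 32720) (by decide +kernel)
              (CovZ.n2 (-80, 32640) (by decide +kernel)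
               (CovZ.leaf K2_ok TE_l2030 _)
               (CovZ.leaf K2_ok TE_l2031 _))
              (CovZ.badM (by decide +kernel))))
            (CovZ.n1 (-320, 32800) (by decide +kernel)
             (CovZ.badM (by decide +kernel))
             (CovZ.n1 (-240, 32720) (by decide +kernel)
              (CovZ.n2 (-320, 32720) (by decide +kernel)
               (CovZ.badM (by decide +kernel))
               (CovZ.n1 (-280, 32680) (by decide +kernel)
                (CovZ.badM (by decide +kernel))
                (CovZ.badM (by decide +kernel))))
              (CovZ.badM (by decide +kernel)))))))))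

theorem TE_u209 : CovZ TE_M (toL (selN TE_LN 9667521693429833043814381431278981556014713890819211586961412)) [0, 7, 6, 1] (-640, 32640) (-1280, 32000) (0, 32000) :=
    (CovZ.n1 (-640, 32000) (by decide +kernel)
        (CovZ.subM 9642412903364401093136429817086140060159314544200339423232004 (by decide +kernel)
         (CovZ.n2 (-960, 32320) (by decide +kernel)
          (CovZ.n2 (-640, 32320) (by decide +kernel)
           (CovZ.n2 (-800, 32160) (by decide +kernel)
            (CovZ.n2 (-800, 32320) (by decide +kernel)
             (CovZ.n2 (-720, 32240) (by decide +kernel)
              (CovZ.badM (by decide +kernel))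
              (CovZ.badM (by decide +kernel)))
             (CovZ.badM (by decide +kernel)))
            (CovZ.n1 (-640, 32160) (by decide +kernel)
             (CovZ.subM 3213876088517980551083924187278552862474647660817680441540612 (by decide +kernel)
              (CovZ.n2 (-720, 32080) (by decide +kernel)
               (CovZ.n2 (-720, 32160) (by decide +kernel)
                (CovZ.n2 (-680, 32120) (by decide +kernel)
                 (CovZ.badM (by decide +kernel))
                 (CovZ.leaf K2_ok TE_l2034 _))
                (CovZ.badM (by decide +kernel)))
               (CovZ.n1 (-640, 32080) (by decide +kernel)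
                (CovZ.leaf K2_ok TE_l2036 _)
                (CovZ.leaf K2_ok TE_l2037 _))))
             (CovZ.n1 (-720, 32240) (by decide +kernel)
              (CovZ.n2 (-640, 32240) (by decide +kernel)
               (CovZ.badM (by decide +kernel))
               (CovZ.badM (by decide +kernel)))
              (CovZ.badM (by decide +kernel)))))
           (CovZ.badM (by decide +kernel)))
          (CovZ.n1 (-960, 32000) (by decide +kernel)
           (CovZ.subM 784637810459439884657260442936787595854907688537687064576 (by decide +kernel)
            (CovZ.n2 (-1120, 32160) (by decide +kernel)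
             (CovZ.n2 (-960, 32160) (by decide +kernel)
              (CovZ.badM (by decide +kernel))
              (CovZ.badM (by decide +kernel)))
             (CovZ.n1 (-1120, 32000) (by decide +kernel)
              (CovZ.badM (by decide +kernel))
              (CovZ.badM (by decide +kernel)))))
           (CovZ.n1 (-800, 32160) (by decide +kernel)
            (CovZ.n2 (-800, 32000) (by decide +kernel)
             (CovZ.subM 6428536814752884437263327843042551368390824769561729345519616 (by decide +kernel)
              (CovZ.n2 (-880, 32080) (by decide +kernel)
               (CovZ.n2 (-800, 32080) (by decide +kernel)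
                (CovZ.n2 (-840, 32040) (by decide +kernel)
                 (CovZ.leaf K2_ok TE_l2038 _)
                 (CovZ.leaf K2_ok TE_l2039 _))
                (CovZ.n1 (-840, 32120) (by decide +kernel)
                 (CovZ.badM (by decide +kernel))
                 (CovZ.leaf K2_ok TE_l19590 _)))
               (CovZ.n1 (-880, 32000) (by decide +kernel)
                (CovZ.badM (by decide +kernel))
                (CovZ.n1 (-840, 32040) (by decide +kernel)
                 (CovZ.leaf K2_ok TE_l2040 _)
                 (CovZ.badM (by decide +kernel))))))
             (CovZ.n1 (-720, 32080) (by decide +kernel)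
              (CovZ.n2 (-720, 32000) (by decide +kernel)
               (CovZ.leaf K2_ok TE_l2041 _)
               (CovZ.n1 (-680, 32040) (by decide +kernel)
                (CovZ.leaf K2_ok TE_l2042 _)
                (CovZ.leaf K2_ok TE_l2043 _)))
              (CovZ.subM 6428536814752884437263327843042551368390824769561729345519616 (by decide +kernel)
               (CovZ.n1 (-800, 32080) (by decide +kernel)
                (CovZ.n2 (-760, 32120) (by decide +kernel)
                 (CovZ.leaf K2_ok TE_l2044 _)
                 (CovZ.badM (by decide +kernel)))
                (CovZ.n1 (-760, 32040) (by decide +kernel)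
                 (CovZ.leaf K2_ok TE_l2045 _)
                 (CovZ.leaf K2_ok TE_l2046 _))))))
            (CovZ.n1 (-960, 32160) (by decide +kernel)
             (CovZ.badM (by decide +kernel))
             (CovZ.n1 (-880, 32080) (by decide +kernel)
              (CovZ.badM (by decide +kernel))
              (CovZ.badM (by decide +kernel))))))))
        (CovZ.n1 (-320, 32320) (by decide +kernel)
         (CovZ.n2 (-320, 32000) (by decide +kernel)
          (CovZ.n2 (-480, 32160) (by decide +kernel)
           (CovZ.n2 (-320, 32160) (by decide +kernel)
            (CovZ.n2 (-400, 32080) (by decide +kernel)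
             (CovZ.n2 (-400, 32160) (by decide +kernel)
              (CovZ.leaf K2_ok TE_l2047 _)
              (CovZ.leaf K2_ok TE_l2048 _))
             (CovZ.leaf K2_ok TE_l2049 _))
            (CovZ.n1 (-400, 32240) (by decide +kernel)
             (CovZ.leaf K2_ok TE_l2050 _)
             (CovZ.n1 (-400, 32160) (by decide +kernel)
              (CovZ.leaf K2_ok TE_l2051 _)
              (CovZ.leaf K2_ok TE_l2052 _))))
           (CovZ.n1 (-480, 32000) (by decide +kernel)
            (CovZ.n2 (-560, 32080) (by decide +kernel)
             (CovZ.leaf K2_ok TE_l2053 _)
             (CovZ.leaf K2_ok TE_l2054 _))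
            (CovZ.n1 (-400, 32080) (by decide +kernel)
             (CovZ.leaf K2_ok TE_l2055 _)
             (CovZ.leaf K2_ok TE_l2056 _))))
          (CovZ.n1 (-160, 32160) (by decide +kernel)
           (CovZ.n2 (-160, 32000) (by decide +kernel)
            (CovZ.leaf K2_ok TE_l2057 _)
            (CovZ.leaf K2_ok TE_l2058 _))
           (CovZ.n1 (-320, 32160) (by decide +kernel)
            (CovZ.n2 (-240, 32240) (by decide +kernel)
             (CovZ.leaf K2_ok TE_l2059 _)
             (CovZ.leaf K2_ok TE_l2060 _))
            (CovZ.leaf K2_ok TE_l2061 _))))
         (CovZ.subM 3213876471641865767556160044513242218377464157847998500438020 (by decide +kernel)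
          (CovZ.n1 (-640, 32320) (by decide +kernel)
           (CovZ.n2 (-480, 32480) (by decide +kernel)
            (CovZ.n2 (-480, 32320) (by decide +kernel)
             (CovZ.n2 (-560, 32400) (by decide +kernel)
              (CovZ.badM (by decide +kernel))
              (CovZ.n1 (-560, 32320) (by decide +kernel)
               (CovZ.badM (by decide +kernel))
               (CovZ.badM (by decide +kernel))))
             (CovZ.subM 383123885216472214592182984445007537577936875316838404 (by decide +kernel)
              (CovZ.n1 (-400, 32400) (by decide +kernel)
               (CovZ.n2 (-400, 32320) (by decide +kernel)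
                (CovZ.n2 (-440, 32360) (by decide +kernel)
                 (CovZ.leaf K2_ok TE_l2062 _)
                 (CovZ.leaf K2_ok TE_l2063 _))
                (CovZ.n1 (-360, 32360) (by decide +kernel)
                 (CovZ.leaf K2_ok TE_l2064 _)
                 (CovZ.leaf K2_ok TE_l2065 _)))
               (CovZ.n1 (-480, 32400) (by decide +kernel)
                (CovZ.badM (by decide +kernel))
                (CovZ.n1 (-440, 32360) (by decide +kernel)
                 (CovZ.badM (by decide +kernel))
                 (CovZ.badM (by decide +kernel)))))))
            (CovZ.n1 (-640, 32480) (by decide +kernel)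
             (CovZ.badM (by decide +kernel))
             (CovZ.n1 (-560, 32400) (by decide +kernel)
              (CovZ.badM (by decide +kernel))
              (CovZ.badM (by decide +kernel)))))
           (CovZ.n1 (-480, 32160) (by decide +kernel)
            (CovZ.n2 (-640, 32160) (by decide +kernel)
             (CovZ.n2 (-560, 32240) (by decide +kernel)
              (CovZ.n2 (-560, 32160) (by decide +kernel)
               (CovZ.n2 (-600, 32200) (by decide +kernel)
                (CovZ.leaf K2_ok TE_l2067 _)
                (CovZ.leaf K2_ok TE_l2068 _))
               (CovZ.n1 (-520, 32200) (by decide +kernel)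
                (CovZ.leaf K2_ok TE_l2069 _)
                (CovZ.leaf K2_ok TE_l2070 _)))
              (CovZ.n1 (-640, 32240) (by decide +kernel)
               (CovZ.badM (by decide +kernel))
               (CovZ.n1 (-600, 32200) (by decide +kernel)
                (CovZ.badM (by decide +kernel))
                (CovZ.badM (by decide +kernel)))))
             (CovZ.n1 (-560, 32080) (by decide +kernel)
              (CovZ.n2 (-640, 32080) (by decide +kernel)
               (CovZ.n2 (-600, 32120) (by decide +kernel)
                (CovZ.leaf K2_ok TE_l2071 _)
                (CovZ.leaf K2_ok TE_l2072 _))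
               (CovZ.leaf K2_ok TE_l2073 _))
              (CovZ.n1 (-560, 32160) (by decide +kernel)
               (CovZ.leaf K2_ok TE_l2074 _)
               (CovZ.n1 (-600, 32120) (by decide +kernel)
                (CovZ.leaf K2_ok TE_l2075 _)
                (CovZ.leaf K2_ok TE_l2076 _)))))
            (CovZ.n1 (-480, 32320) (by decide +kernel)
             (CovZ.n2 (-400, 32240) (by decide +kernel)
              (CovZ.n2 (-480, 32240) (by decide +kernel)
               (CovZ.n2 (-440, 32280) (by decide +kernel)
                (CovZ.leaf K2_ok TE_l2077 _)
                (CovZ.leaf K2_ok TE_l2078 _))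
               (CovZ.leaf K2_ok TE_l2079 _))
              (CovZ.n1 (-400, 32320) (by decide +kernel)
               (CovZ.leaf K2_ok TE_l2080 _)
               (CovZ.n1 (-440, 32280) (by decide +kernel)
                (CovZ.leaf K2_ok TE_l2081 _)
                (CovZ.leaf K2_ok TE_l2082 _))))
             (CovZ.n1 (-560, 32240) (by decide +kernel)
              (CovZ.n2 (-560, 32320) (by decide +kernel)
               (CovZ.n2 (-520, 32280) (by decide +kernel)
                (CovZ.leaf K2_ok TE_l17132 _)
                (CovZ.badM (by decide +kernel)))
               (CovZ.badM (by decide +kernel)))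
              (CovZ.n1 (-480, 32240) (by decide +kernel)
               (CovZ.n2 (-520, 32200) (by decide +kernel)
                (CovZ.leaf K2_ok TE_l2083 _)
                (CovZ.leaf K2_ok TE_l2084 _))
               (CovZ.n1 (-520, 32280) (by decide +kernel)
                (CovZ.leaf K2_ok TE_l2085 _)
                (CovZ.leaf K2_ok TE_l2086 _))))))))))

theorem TE_u210 : CovZ TE_M (toL (selN TE_LN 19284828105380130225828454073460954107905175586955945998024708)) [0, 7, 6, 1] (-1280, 32000) (-1920, 31360) (-1280, 30720) :=
    (CovZ.n2 (-1280, 31360) (by decide +kernel)
        (CovZ.n2 (-1600, 31040) (by decide +kernel)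
         (CovZ.n2 (-1600, 31360) (by decide +kernel)
          (CovZ.n2 (-1440, 31200) (by decide +kernel)
           (CovZ.subM 19283256531107883306503587645986044159746820283238961494622212 (by decide +kernel)
            (CovZ.n2 (-1600, 31200) (by decide +kernel)
             (CovZ.n2 (-1520, 31280) (by decide +kernel)
              (CovZ.n2 (-1520, 31200) (by decide +kernel)
               (CovZ.n2 (-1560, 31240) (by decide +kernel)
                (CovZ.leaf K2_ok TE_l2087 _)
                (CovZ.leaf K2_ok TE_l2088 _))
               (CovZ.n1 (-1480, 31240) (by decide +kernel)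
                (CovZ.leaf K2_ok TE_l2089 _)
                (CovZ.leaf K2_ok TE_l2090 _)))
              (CovZ.subM 154742504910672534362390528 (by decide +kernel)
               (CovZ.n1 (-1600, 31280) (by decide +kernel)
                (CovZ.badM (by decide +kernel))
                (CovZ.n1 (-1560, 31240) (by decide +kernel)
                 (CovZ.n2 (-1600, 31240) (by decide +kernel)
                  (CovZ.badM (by decide +kernel))
                  (CovZ.badM (by decide +kernel)))
                 (CovZ.badM (by decide +kernel))))))
             (CovZ.n1 (-1520, 31120) (by decide +kernel)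
              (CovZ.n2 (-1600, 31120) (by decide +kernel)
               (CovZ.n2 (-1560, 31160) (by decide +kernel)
                (CovZ.leaf K2_ok TE_l2092 _)
                (CovZ.leaf K2_ok TE_l2093 _))
               (CovZ.leaf K2_ok TE_l2094 _))
              (CovZ.n1 (-1520, 31200) (by decide +kernel)
               (CovZ.leaf K2_ok TE_l2095 _)
               (CovZ.n1 (-1560, 31160) (by decide +kernel)
                (CovZ.leaf K2_ok TE_l2096 _)
                (CovZ.leaf K2_ok TE_l2097 _))))))
           (CovZ.subM 6429322984965348638269443749146647350836128593626561198948356 (by decide +kernel)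
            (CovZ.n1 (-1440, 31360) (by decide +kernel)
             (CovZ.n2 (-1360, 31280) (by decide +kernel)
              (CovZ.n2 (-1440, 31280) (by decide +kernel)
               (CovZ.n2 (-1400, 31320) (by decide +kernel)
                (CovZ.leaf K2_ok TE_l2098 _)
                (CovZ.leaf K2_ok TE_l2099 _))
               (CovZ.leaf K2_ok TE_l2100 _))
              (CovZ.n1 (-1360, 31360) (by decide +kernel)
               (CovZ.leaf K2_ok TE_l2101 _)
               (CovZ.n1 (-1400, 31320) (by decide +kernel)
                (CovZ.leaf K2_ok TE_l2102 _)
                (CovZ.leaf K2_ok TE_l2103 _))))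
             (CovZ.n1 (-1520, 31280) (by decide +kernel)
              (CovZ.n2 (-1520, 31360) (by decide +kernel)
               (CovZ.n2 (-1480, 31320) (by decide +kernel)
                (CovZ.badM (by decide +kernel))
                (CovZ.badM (by decide +kernel)))
               (CovZ.badM (by decide +kernel)))
              (CovZ.n1 (-1440, 31280) (by decide +kernel)
               (CovZ.n2 (-1480, 31240) (by decide +kernel)
                (CovZ.leaf K2_ok TE_l2104 _)
                (CovZ.leaf K2_ok TE_l2105 _))
               (CovZ.n1 (-1480, 31320) (by decide +kernel)
                (CovZ.leaf K2_ok TE_l2106 _)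
                (CovZ.leaf K2_ok TE_l2107 _)))))))
          (CovZ.subM 19283256531107883306503587645986044159746820283238961494622208 (by decide +kernel)
           (CovZ.n1 (-1760, 31200) (by decide +kernel)
            (CovZ.n2 (-1760, 31360) (by decide +kernel)
             (CovZ.n2 (-1680, 31280) (by decide +kernel)
              (CovZ.badM (by decide +kernel))
              (CovZ.badM (by decide +kernel)))
             (CovZ.badM (by decide +kernel)))
            (CovZ.n1 (-1600, 31200) (by decide +kernel)
             (CovZ.n2 (-1680, 31120) (by decide +kernel)
              (CovZ.n2 (-1680, 31200) (by decide +kernel)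
               (CovZ.n2 (-1640, 31160) (by decide +kernel)
                (CovZ.badM (by decide +kernel))
                (CovZ.leaf K2_ok TE_l19591 _))
               (CovZ.badM (by decide +kernel)))
              (CovZ.n1 (-1600, 31120) (by decide +kernel)
               (CovZ.n2 (-1640, 31080) (by decide +kernel)
                (CovZ.leaf K2_ok TE_l2108 _)
                (CovZ.leaf K2_ok TE_l2109 _))
               (CovZ.leaf K2_ok TE_l2110 _)))
             (CovZ.subM 12855504354071922204335739274025166092228061782760806015827968 (by decide +kernel)
              (CovZ.n1 (-1680, 31280) (by decide +kernel)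
               (CovZ.n2 (-1600, 31280) (by decide +kernel)
                (CovZ.n2 (-1640, 31240) (by decide +kernel)
                 (CovZ.badM (by decide +kernel))
                 (CovZ.n1 (-1600, 31240) (by decide +kernel)
                  (CovZ.badM (by decide +kernel))
                  (CovZ.badM (by decide +kernel))))
                (CovZ.badM (by decide +kernel)))
               (CovZ.n1 (-1680, 31200) (by decide +kernel)
                (CovZ.badM (by decide +kernel))
                (CovZ.n1 (-1640, 31240) (by decide +kernel)
                 (CovZ.leaf K2_ok TE_l19592 _)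
                 (CovZ.badM (by decide +kernel))))))))))
         (CovZ.n1 (-1280, 31040) (by decide +kernel)
          (CovZ.n2 (-1440, 30880) (by decide +kernel)
           (CovZ.n2 (-1440, 31040) (by decide +kernel)
            (CovZ.leaf K2_ok TE_l2111 _)
            (CovZ.n1 (-1520, 30960) (by decide +kernel)
             (CovZ.leaf K2_ok TE_l2112 _)
             (CovZ.leaf K2_ok TE_l2113 _)))
           (CovZ.n1 (-1280, 30880) (by decide +kernel)
            (CovZ.leaf K2_ok TE_l2114 _)
            (CovZ.leaf K2_ok TE_l2115 _)))
          (CovZ.n1 (-1440, 31200) (by decide +kernel)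
           (CovZ.n2 (-1280, 31200) (by decide +kernel)
            (CovZ.n2 (-1360, 31120) (by decide +kernel)
             (CovZ.leaf K2_ok TE_l2116 _)
             (CovZ.leaf K2_ok TE_l2117 _))
            (CovZ.n1 (-1360, 31280) (by decide +kernel)
             (CovZ.leaf K2_ok TE_l2118 _)
             (CovZ.leaf K2_ok TE_l2119 _)))
           (CovZ.n1 (-1440, 31040) (by decide +kernel)
            (CovZ.n2 (-1520, 31120) (by decide +kernel)
             (CovZ.n2 (-1440, 31120) (by decide +kernel)
              (CovZ.leaf K2_ok TE_l2120 _)
              (CovZ.leaf K2_ok TE_l2121 _))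
             (CovZ.leaf K2_ok TE_l2122 _))
            (CovZ.n1 (-1360, 31120) (by decide +kernel)
             (CovZ.leaf K2_ok TE_l2123 _)
             (CovZ.n1 (-1440, 31120) (by decide +kernel)
              (CovZ.leaf K2_ok TE_l2124 _)
              (CovZ.leaf K2_ok TE_l2125 _)))))))
        (CovZ.subM 19284827339037270842605140487875948016271247633216300799492100 (by decide +kernel)
         (CovZ.n1 (-1600, 31680) (by decide +kernel)
          (CovZ.n2 (-1280, 31680) (by decide +kernel)
           (CovZ.n2 (-1440, 31520) (by decide +kernel)
            (CovZ.n2 (-1440, 31680) (by decide +kernel)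
             (CovZ.n2 (-1360, 31600) (by decide +kernel)
              (CovZ.badM (by decide +kernel))
              (CovZ.badM (by decide +kernel)))
             (CovZ.badM (by decide +kernel)))
            (CovZ.n1 (-1280, 31520) (by decide +kernel)
             (CovZ.n2 (-1360, 31440) (by decide +kernel)
              (CovZ.n2 (-1360, 31520) (by decide +kernel)
               (CovZ.n2 (-1320, 31480) (by decide +kernel)
                (CovZ.leaf K2_ok TE_l2126 _)
                (CovZ.leaf K2_ok TE_l2127 _))
               (CovZ.badM (by decide +kernel)))
              (CovZ.n1 (-1280, 31440) (by decide +kernel)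
               (CovZ.n2 (-1320, 31400) (by decide +kernel)
                (CovZ.leaf K2_ok TE_l2128 _)
                (CovZ.leaf K2_ok TE_l2129 _))
               (CovZ.leaf K2_ok TE_l2130 _)))
             (CovZ.subM 1532495540865888858358347027150309183618739122183602176 (by decide +kernel)
              (CovZ.n1 (-1360, 31600) (by decide +kernel)
               (CovZ.n2 (-1280, 31600) (by decide +kernel)
                (CovZ.n2 (-1320, 31560) (by decide +kernel)
                 (CovZ.leaf K2_ok TE_l2131 _)
                 (CovZ.leaf K2_ok TE_l2132 _))
                (CovZ.badM (by decide +kernel)))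
               (CovZ.n1 (-1360, 31520) (by decide +kernel)
                (CovZ.badM (by decide +kernel))
                (CovZ.n1 (-1320, 31560) (by decide +kernel)
                 (CovZ.leaf K2_ok TE_l2135 _)
                 (CovZ.leaf K2_ok TE_l2136 _)))))))
           (CovZ.n1 (-1440, 31840) (by decide +kernel)
            (CovZ.badM (by decide +kernel))
            (CovZ.n1 (-1440, 31680) (by decide +kernel)
             (CovZ.badM (by decide +kernel))
             (CovZ.badM (by decide +kernel)))))
          (CovZ.n1 (-1600, 31360) (by decide +kernel)
           (CovZ.subM 1569275433846670212737018838741978265681563736749174161408 (by decide +kernel)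
            (CovZ.n2 (-1760, 31520) (by decide +kernel)
             (CovZ.n2 (-1600, 31520) (by decide +kernel)
              (CovZ.n2 (-1680, 31440) (by decide +kernel)
               (CovZ.badM (by decide +kernel))
               (CovZ.n1 (-1600, 31440) (by decide +kernel)
                (CovZ.badM (by decide +kernel))
                (CovZ.badM (by decide +kernel))))
              (CovZ.n1 (-1680, 31600) (by decide +kernel)
               (CovZ.n2 (-1600, 31600) (by decide +kernel)
                (CovZ.badM (by decide +kernel))
                (CovZ.n1 (-1640, 31640) (by decide +kernel)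
                 (CovZ.badM (by decide +kernel))
                 (CovZ.badM (by decide +kernel))))
               (CovZ.badM (by decide +kernel))))
             (CovZ.badM (by decide +kernel))))
           (CovZ.n1 (-1440, 31520) (by decide +kernel)
            (CovZ.n2 (-1440, 31360) (by decide +kernel)
             (CovZ.subM 1569275433846670212737018838741978265681563736749174161408 (by decide +kernel)
              (CovZ.n2 (-1520, 31440) (by decide +kernel)
               (CovZ.n2 (-1440, 31440) (by decide +kernel)
                (CovZ.badM (by decide +kernel))
                (CovZ.n1 (-1480, 31480) (by decide +kernel)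
                 (CovZ.badM (by decide +kernel))
                 (CovZ.badM (by decide +kernel))))
               (CovZ.n1 (-1520, 31360) (by decide +kernel)
                (CovZ.n2 (-1560, 31400) (by decide +kernel)
                 (CovZ.badM (by decide +kernel))
                 (CovZ.badM (by decide +kernel)))
                (CovZ.badM (by decide +kernel)))))
             (CovZ.n1 (-1360, 31440) (by decide +kernel)
              (CovZ.n2 (-1360, 31360) (by decide +kernel)
               (CovZ.leaf K2_ok TE_l2138 _)
               (CovZ.n1 (-1320, 31400) (by decide +kernel)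
                (CovZ.leaf K2_ok TE_l2139 _)
                (CovZ.leaf K2_ok TE_l2140 _)))
              (CovZ.n1 (-1440, 31440) (by decide +kernel)
               (CovZ.badM (by decide +kernel))
               (CovZ.n1 (-1400, 31400) (by decide +kernel)
                (CovZ.badM (by decide +kernel))
                (CovZ.badM (by decide +kernel))))))
            (CovZ.subM 1569275433846670212737018838741978265681563736749174161408 (by decide +kernel)
             (CovZ.n1 (-1600, 31520) (by decide +kernel)
              (CovZ.n2 (-1520, 31600) (by decide +kernel)
               (CovZ.n2 (-1520, 31520) (by decide +kernel)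
                (CovZ.n2 (-1560, 31560) (by decide +kernel)
                 (CovZ.badM (by decide +kernel))
                 (CovZ.badM (by decide +kernel)))
                (CovZ.badM (by decide +kernel)))
               (CovZ.n1 (-1600, 31600) (by decide +kernel)
                (CovZ.badM (by decide +kernel))
                (CovZ.n1 (-1560, 31560) (by decide +kernel)
                 (CovZ.badM (by decide +kernel))
                 (CovZ.badM (by decide +kernel)))))
              (CovZ.n1 (-1520, 31440) (by decide +kernel)
               (CovZ.n2 (-1600, 31440) (by decide +kernel)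
                (CovZ.badM (by decide +kernel))
                (CovZ.n1 (-1560, 31400) (by decide +kernel)
                 (CovZ.badM (by decide +kernel))
                 (CovZ.badM (by decide +kernel))))
               (CovZ.n1 (-1520, 31520) (by decide +kernel)
                (CovZ.n2 (-1480, 31480) (by decide +kernel)
                 (CovZ.badM (by decide +kernel))
                 (CovZ.badM (by decide +kernel)))
                (CovZ.badM (by decide +kernel)))))))))))

theorem TE_u211 : CovZ TE_M (toL (selN TE_LN 19284828105380130225828454073460954107905175586955945998024708)) [0, 7, 6, 1] (-1920, 31360) (-2560, 30720) (-1280, 30720) :=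
    (CovZ.n1 (-1920, 30720) (by decide +kernel)
        (CovZ.subM 1552845489664084350591415134779497452458137878528 (by decide +kernel)
         (CovZ.n2 (-2240, 31040) (by decide +kernel)
          (CovZ.n2 (-1920, 31040) (by decide +kernel)
           (CovZ.n2 (-2080, 30880) (by decide +kernel)
            (CovZ.badM (by decide +kernel))
            (CovZ.n1 (-1920, 30880) (by decide +kernel)
             (CovZ.n2 (-2000, 30800) (by decide +kernel)
              (CovZ.badM (by decide +kernel))
              (CovZ.n1 (-1920, 30800) (by decide +kernel)
               (CovZ.leaf K2_ok TE_l2141 _)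
               (CovZ.leaf K2_ok TE_l2142 _)))
             (CovZ.badM (by decide +kernel))))
           (CovZ.n1 (-2080, 31200) (by decide +kernel)
            (CovZ.n2 (-1920, 31200) (by decide +kernel)
             (CovZ.n2 (-2000, 31120) (by decide +kernel)
              (CovZ.badM (by decide +kernel))
              (CovZ.n1 (-1920, 31120) (by decide +kernel)
               (CovZ.badM (by decide +kernel))
               (CovZ.badM (by decide +kernel))))
             (CovZ.badM (by decide +kernel)))
            (CovZ.badM (by decide +kernel))))
          (CovZ.n1 (-2240, 30720) (by decide +kernel)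
           (CovZ.n2 (-2400, 30880) (by decide +kernel)
            (CovZ.n2 (-2240, 30880) (by decide +kernel)
             (CovZ.n2 (-2320, 30800) (by decide +kernel)
              (CovZ.badM (by decide +kernel))
              (CovZ.n1 (-2240, 30800) (by decide +kernel)
               (CovZ.badM (by decide +kernel))
               (CovZ.badM (by decide +kernel))))
             (CovZ.badM (by decide +kernel)))
            (CovZ.badM (by decide +kernel)))
           (CovZ.n1 (-2080, 30880) (by decide +kernel)
            (CovZ.n2 (-2080, 30720) (by decide +kernel)
             (CovZ.n2 (-2160, 30800) (by decide +kernel)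
              (CovZ.n2 (-2080, 30800) (by decide +kernel)
               (CovZ.n2 (-2120, 30760) (by decide +kernel)
                (CovZ.badM (by decide +kernel))
                (CovZ.leaf K2_ok TE_l19593 _))
               (CovZ.badM (by decide +kernel)))
              (CovZ.n1 (-2160, 30720) (by decide +kernel)
               (CovZ.n2 (-2200, 30760) (by decide +kernel)
                (CovZ.n2 (-2160, 30760) (by decide +kernel)
                 (CovZ.badM (by decide +kernel))
                 (CovZ.badM (by decide +kernel)))
                (CovZ.badM (by decide +kernel)))
               (CovZ.n1 (-2120, 30760) (by decide +kernel)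
                (CovZ.badM (by decide +kernel))
                (CovZ.n1 (-2160, 30760) (by decide +kernel)
                 (CovZ.badM (by decide +kernel))
                 (CovZ.badM (by decide +kernel))))))
             (CovZ.n1 (-2000, 30800) (by decide +kernel)
              (CovZ.n2 (-2000, 30720) (by decide +kernel)
               (CovZ.leaf K2_ok TE_l2145 _)
               (CovZ.n1 (-1960, 30760) (by decide +kernel)
                (CovZ.leaf K2_ok TE_l2146 _)
                (CovZ.leaf K2_ok TE_l2147 _)))
              (CovZ.n1 (-2080, 30800) (by decide +kernel)
               (CovZ.badM (by decide +kernel))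
               (CovZ.leaf K2_ok TE_l19594 _))))
            (CovZ.n1 (-2240, 30880) (by decide +kernel)
             (CovZ.badM (by decide +kernel))
             (CovZ.n1 (-2160, 30800) (by decide +kernel)
              (CovZ.n2 (-2240, 30800) (by decide +kernel)
               (CovZ.badM (by decide +kernel))
               (CovZ.n1 (-2200, 30760) (by decide +kernel)
                (CovZ.badM (by decide +kernel))
                (CovZ.badM (by decide +kernel))))
              (CovZ.badM (by decide +kernel))))))))
        (CovZ.n1 (-1600, 31040) (by decide +kernel)
         (CovZ.n2 (-1600, 30720) (by decide +kernel)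
          (CovZ.n2 (-1760, 30880) (by decide +kernel)
           (CovZ.n2 (-1600, 30880) (by decide +kernel)
            (CovZ.n2 (-1680, 30800) (by decide +kernel)
             (CovZ.leaf K2_ok TE_l2148 _)
             (CovZ.leaf K2_ok TE_l2149 _))
            (CovZ.n1 (-1680, 30960) (by decide +kernel)
             (CovZ.leaf K2_ok TE_l2150 _)
             (CovZ.leaf K2_ok TE_l2151 _)))
           (CovZ.subM 19283256531107974650355878292122566617998722366334414599749636 (by decide +kernel)
            (CovZ.n1 (-1760, 30720) (by decide +kernel)
             (CovZ.n2 (-1840, 30800) (by decide +kernel)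
              (CovZ.leaf K2_ok TE_l2152 _)
              (CovZ.leaf K2_ok TE_l2153 _))
             (CovZ.n1 (-1680, 30800) (by decide +kernel)
              (CovZ.leaf K2_ok TE_l2154 _)
              (CovZ.leaf K2_ok TE_l2155 _)))))
          (CovZ.n1 (-1440, 30880) (by decide +kernel)
           (CovZ.leaf K2_ok TE_l2156 _)
           (CovZ.n1 (-1600, 30880) (by decide +kernel)
            (CovZ.n2 (-1520, 30960) (by decide +kernel)
             (CovZ.leaf K2_ok TE_l2157 _)
             (CovZ.leaf K2_ok TE_l2158 _))
            (CovZ.leaf K2_ok TE_l2159 _))))
         (CovZ.subM 19283256531109436151993209195040770302831143501448891179466752 (by decide +kernel)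
          (CovZ.n1 (-1920, 31040) (by decide +kernel)
           (CovZ.n2 (-1760, 31200) (by decide +kernel)
            (CovZ.n2 (-1760, 31040) (by decide +kernel)
             (CovZ.subM 1461501637330902918203684832716283019664522477568 (by decide +kernel)
              (CovZ.n2 (-1840, 31120) (by decide +kernel)
               (CovZ.badM (by decide +kernel))
               (CovZ.n1 (-1840, 31040) (by decide +kernel)
                (CovZ.n2 (-1880, 31080) (by decide +kernel)
                 (CovZ.badM (by decide +kernel))
                 (CovZ.badM (by decide +kernel)))
                (CovZ.badM (by decide +kernel)))))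
             (CovZ.n1 (-1680, 31120) (by decide +kernel)
              (CovZ.n2 (-1680, 31040) (by decide +kernel)
               (CovZ.leaf K2_ok TE_l2160 _)
               (CovZ.n1 (-1640, 31080) (by decide +kernel)
                (CovZ.leaf K2_ok TE_l2161 _)
                (CovZ.leaf K2_ok TE_l2162 _)))
              (CovZ.badM (by decide +kernel))))
            (CovZ.subM 1461501637330902918203684832716283019664522477568 (by decide +kernel)
             (CovZ.n1 (-1920, 31200) (by decide +kernel)
              (CovZ.badM (by decide +kernel))
              (CovZ.n1 (-1840, 31120) (by decide +kernel)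
               (CovZ.n2 (-1920, 31120) (by decide +kernel)
                (CovZ.badM (by decide +kernel))
                (CovZ.n1 (-1880, 31080) (by decide +kernel)
                 (CovZ.badM (by decide +kernel))
                 (CovZ.badM (by decide +kernel))))
               (CovZ.badM (by decide +kernel))))))
           (CovZ.n1 (-1760, 30880) (by decide +kernel)
            (CovZ.subM 6427752177036052446020181550797038140390875189563973546541056 (by decide +kernel)
             (CovZ.n2 (-1920, 30880) (by decide +kernel)
              (CovZ.n2 (-1840, 30960) (by decide +kernel)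
               (CovZ.n2 (-1840, 30880) (by decide +kernel)
                (CovZ.leaf K2_ok TE_l2163 _)
                (CovZ.leaf K2_ok TE_l2164 _))
               (CovZ.badM (by decide +kernel)))
              (CovZ.n1 (-1840, 30800) (by decide +kernel)
               (CovZ.n2 (-1920, 30800) (by decide +kernel)
                (CovZ.leaf K2_ok TE_l2166 _)
                (CovZ.leaf K2_ok TE_l2167 _))
               (CovZ.leaf K2_ok TE_l2168 _))))
            (CovZ.n1 (-1760, 31040) (by decide +kernel)
             (CovZ.n2 (-1680, 30960) (by decide +kernel)
              (CovZ.n2 (-1760, 30960) (by decide +kernel)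
               (CovZ.leaf K2_ok TE_l2169 _)
               (CovZ.leaf K2_ok TE_l2170 _))
              (CovZ.n1 (-1680, 31040) (by decide +kernel)
               (CovZ.leaf K2_ok TE_l2171 _)
               (CovZ.leaf K2_ok TE_l2172 _)))
             (CovZ.subM 6427752177035961102167848371960798839356244236140501805301760 (by decide +kernel)
              (CovZ.n1 (-1840, 30960) (by decide +kernel)
               (CovZ.n2 (-1840, 31040) (by decide +kernel)
                (CovZ.n2 (-1800, 31000) (by decide +kernel)
                 (CovZ.badM (by decide +kernel))
                 (CovZ.leaf K2_ok TE_l2173 _))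
                (CovZ.badM (by decide +kernel)))
               (CovZ.n1 (-1760, 30960) (by decide +kernel)
                (CovZ.leaf K2_ok TE_l2174 _)
                (CovZ.leaf K2_ok TE_l2175 _))))))))))

theorem TE_u212 : CovZ TE_M (toL (selN TE_LN 22524603752598173306456191526622790622896483083293079843635204)) [0, 7, 6, 1] (0, 33280) (-1280, 32000) (0, 30720) :=
    (CovZ.n2 (0, 32000) (by decide +kernel)
     (CovZ.n2 (-640, 31360) (by decide +kernel)
      (CovZ.subM 9667521693429833032664008832013669985248035346115748312383492 (by decide +kernel)
       (CovZ.n2 (-640, 32000) (by decide +kernel)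
        (CovZ.n2 (-320, 31680) (by decide +kernel)
         (CovZ.n2 (-640, 31680) (by decide +kernel)
          (CovZ.n2 (-480, 31840) (by decide +kernel)
           (CovZ.leaf K2_ok TE_l1923 _)
           (CovZ.n1 (-640, 31840) (by decide +kernel)
            (CovZ.n2 (-560, 31920) (by decide +kernel)
             (CovZ.leaf K2_ok TE_l1924 _)
             (CovZ.leaf K2_ok TE_l1925 _))
            (CovZ.leaf K2_ok TE_l1926 _)))
          (CovZ.n1 (-480, 31520) (by decide +kernel)
           (CovZ.n2 (-640, 31520) (by decide +kernel)
            (CovZ.leaf K2_ok TE_l1927 _)
            (CovZ.leaf K2_ok TE_l1928 _))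
           (CovZ.n1 (-480, 31680) (by decide +kernel)
            (CovZ.leaf K2_ok TE_l1929 _)
            (CovZ.leaf K2_ok TE_l1930 _))))
         (CovZ.n1 (-320, 32000) (by decide +kernel)
          (CovZ.n2 (-160, 31840) (by decide +kernel)
           (CovZ.leaf K2_ok TE_l1931 _)
           (CovZ.n1 (-160, 32000) (by decide +kernel)
            (CovZ.leaf K2_ok TE_l1932 _)
            (CovZ.leaf K2_ok TE_l1933 _)))
          (CovZ.n1 (-480, 31840) (by decide +kernel)
           (CovZ.n2 (-480, 32000) (by decide +kernel)
            (CovZ.leaf K2_ok TE_l1934 _)
            (CovZ.n1 (-560, 31920) (by decide +kernel)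
             (CovZ.leaf K2_ok TE_l1935 _)
             (CovZ.leaf K2_ok TE_l1936 _)))
           (CovZ.n1 (-320, 31840) (by decide +kernel)
            (CovZ.leaf K2_ok TE_l1937 _)
            (CovZ.leaf K2_ok TE_l1938 _)))))
        (CovZ.subM 6428536814846420542052526900051747413768875025992036326047748 (by decide +kernel)
         (CovZ.n1 (-960, 31680) (by decide +kernel)
          (CovZ.n2 (-960, 32000) (by decide +kernel)
           (CovZ.n2 (-800, 31840) (by decide +kernel)
            (CovZ.n2 (-960, 31840) (by decide +kernel)
             (CovZ.n2 (-880, 31920) (by decide +kernel)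
              (CovZ.leaf K2_ok TE_l1939 _)
              (CovZ.n1 (-960, 31920) (by decide +kernel)
               (CovZ.n2 (-920, 31960) (by decide +kernel)
                (CovZ.leaf K2_ok TE_l1940 _)
                (CovZ.leaf K2_ok TE_l1941 _))
               (CovZ.leaf K2_ok TE_l1942 _)))
             (CovZ.n1 (-880, 31760) (by decide +kernel)
              (CovZ.n2 (-960, 31760) (by decide +kernel)
               (CovZ.leaf K2_ok TE_l1943 _)
               (CovZ.leaf K2_ok TE_l1944 _))
              (CovZ.n1 (-880, 31840) (by decide +kernel)
               (CovZ.leaf K2_ok TE_l1945 _)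
               (CovZ.leaf K2_ok TE_l1946 _))))
            (CovZ.n1 (-800, 32000) (by decide +kernel)
             (CovZ.n2 (-720, 31920) (by decide +kernel)
              (CovZ.n2 (-800, 31920) (by decide +kernel)
               (CovZ.leaf K2_ok TE_l1947 _)
               (CovZ.leaf K2_ok TE_l1948 _))
              (CovZ.n1 (-720, 32000) (by decide +kernel)
               (CovZ.leaf K2_ok TE_l1949 _)
               (CovZ.leaf K2_ok TE_l1950 _)))
             (CovZ.n1 (-880, 31920) (by decide +kernel)
              (CovZ.n2 (-880, 32000) (by decide +kernel)
               (CovZ.leaf K2_ok TE_l1951 _)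
               (CovZ.n1 (-920, 31960) (by decide +kernel)
                (CovZ.leaf K2_ok TE_l17126 _)
                (CovZ.leaf K2_ok TE_l1952 _)))
              (CovZ.leaf K2_ok TE_l1953 _))))
           (CovZ.n1 (-1120, 31840) (by decide +kernel)
            (CovZ.subM 93536104789177786765035829293842122265179004600320 (by decide +kernel)
             (CovZ.n2 (-1120, 32000) (by decide +kernel)
              (CovZ.n2 (-1040, 31920) (by decide +kernel)
               (CovZ.n2 (-1120, 31920) (by decide +kernel)
                (CovZ.n2 (-1080, 31960) (by decide +kernel)
                 (CovZ.leaf K2_ok TE_l17127 _)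
                 (CovZ.badM (by decide +kernel)))
                (CovZ.n1 (-1080, 31880) (by decide +kernel)
                 (CovZ.leaf K2_ok TE_l1954 _)
                 (CovZ.leaf K2_ok TE_l17128 _)))
               (CovZ.n1 (-1040, 32000) (by decide +kernel)
                (CovZ.n2 (-1000, 31960) (by decide +kernel)
                 (CovZ.leaf K2_ok TE_l17129 _)
                 (CovZ.leaf K2_ok TE_l17130 _))
                (CovZ.n1 (-1080, 31960) (by decide +kernel)
                 (CovZ.badM (by decide +kernel))
                 (CovZ.leaf K2_ok TE_l17131 _))))
              (CovZ.badM (by decide +kernel))))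
            (CovZ.n1 (-960, 31840) (by decide +kernel)
             (CovZ.n2 (-1040, 31760) (by decide +kernel)
              (CovZ.n2 (-1040, 31840) (by decide +kernel)
               (CovZ.leaf K2_ok TE_l1956 _)
               (CovZ.n1 (-1080, 31800) (by decide +kernel)
                (CovZ.leaf K2_ok TE_l1957 _)
                (CovZ.leaf K2_ok TE_l1958 _)))
              (CovZ.leaf K2_ok TE_l1959 _))
             (CovZ.subM 6427752177129497206957026156129686239382654097396350345805824 (by decide +kernel)
              (CovZ.n1 (-1040, 31920) (by decide +kernel)
               (CovZ.n2 (-960, 31920) (by decide +kernel)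
                (CovZ.n2 (-1000, 31880) (by decide +kernel)
                 (CovZ.leaf K2_ok TE_l1960 _)
                 (CovZ.leaf K2_ok TE_l1961 _))
                (CovZ.leaf K2_ok TE_l1962 _))
               (CovZ.n1 (-1040, 31840) (by decide +kernel)
                (CovZ.leaf K2_ok TE_l1963 _)
                (CovZ.n1 (-1000, 31880) (by decide +kernel)
                 (CovZ.leaf K2_ok TE_l1964 _)
                 (CovZ.leaf K2_ok TE_l1965 _))))))))
          (CovZ.n1 (-640, 31680) (by decide +kernel)
           (CovZ.n2 (-800, 31520) (by decide +kernel)
            (CovZ.n2 (-800, 31680) (by decide +kernel)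
             (CovZ.leaf K2_ok TE_l1966 _)
             (CovZ.n1 (-880, 31600) (by decide +kernel)
              (CovZ.leaf K2_ok TE_l1967 _)
              (CovZ.leaf K2_ok TE_l1968 _)))
            (CovZ.leaf K2_ok TE_l1969 _))
           (CovZ.n1 (-800, 31840) (by decide +kernel)
            (CovZ.n2 (-640, 31840) (by decide +kernel)
             (CovZ.n2 (-720, 31760) (by decide +kernel)
              (CovZ.leaf K2_ok TE_l1970 _)
              (CovZ.leaf K2_ok TE_l1971 _))
             (CovZ.leaf K2_ok TE_l1972 _))
            (CovZ.n1 (-800, 31680) (by decide +kernel)
             (CovZ.leaf K2_ok TE_l1973 _)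
             (CovZ.n1 (-720, 31760) (by decide +kernel)
              (CovZ.leaf K2_ok TE_l1974 _)
              (CovZ.leaf K2_ok TE_l1975 _)))))))))
      (CovZ.n1 (0, 31360) (by decide +kernel)
       (CovZ.n2 (-320, 31040) (by decide +kernel)
        (CovZ.n2 (-320, 31360) (by decide +kernel)
         (CovZ.leaf K2_ok TE_l1976 _)
         (CovZ.n1 (-480, 31200) (by decide +kernel)
          (CovZ.leaf K2_ok TE_l1977 _)
          (CovZ.leaf K2_ok TE_l1978 _)))
        (CovZ.n1 (0, 31040) (by decide +kernel)
         (CovZ.leaf K2_ok TE_l1979 _)
         (CovZ.leaf K2_ok TE_l1980 _)))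
       (CovZ.subM 9667522459677603465608438011187342171470160594833030854475780 (by decide +kernel)
        (CovZ.n1 (-320, 31680) (by decide +kernel)
         (CovZ.n2 (0, 31680) (by decide +kernel)
          (CovZ.n2 (-160, 31520) (by decide +kernel)
           (CovZ.leaf K2_ok TE_l1981 _)
           (CovZ.leaf K2_ok TE_l1982 _))
          (CovZ.n1 (-160, 31840) (by decide +kernel)
           (CovZ.leaf K2_ok TE_l1983 _)
           (CovZ.leaf K2_ok TE_l1984 _)))
         (CovZ.n1 (-320, 31360) (by decide +kernel)
          (CovZ.leaf K2_ok TE_l1985 _)
          (CovZ.n1 (-160, 31520) (by decide +kernel)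
           (CovZ.leaf K2_ok TE_l1986 _)
           (CovZ.leaf K2_ok TE_l1987 _)))))))
     (CovZ.subM 9667521693429833043814381431278981556014713890819211586961412 (by decide +kernel)
      (CovZ.n1 (-640, 32640) (by decide +kernel)
       TE_u208
       TE_u209)))

theorem TE_u213 : CovZ TE_M (toL (selN TE_LN 22524603752598173306456191526622790622896483083293079843635204)) [0, 7, 6, 1] (-1280, 32000) (-2560, 30720) (0, 30720) :=
    (CovZ.n1 (-1280, 30720) (by decide +kernel)
     (CovZ.subM 19284828105380130225828454073460954107905175586955945998024708 (by decide +kernel)
      (CovZ.n2 (-1920, 31360) (by decide +kernel)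
       TE_u210
       TE_u211))
     (CovZ.n1 (-640, 31360) (by decide +kernel)
      (CovZ.n2 (-640, 30720) (by decide +kernel)
       (CovZ.subM 19284828106128419064142578199963015177836805712154810803814404 (by decide +kernel)
        (CovZ.n2 (-960, 31040) (by decide +kernel)
         (CovZ.n2 (-640, 31040) (by decide +kernel)
          (CovZ.n2 (-800, 30880) (by decide +kernel)
           (CovZ.leaf K2_ok TE_l2176 _)
           (CovZ.leaf K2_ok TE_l2177 _))
          (CovZ.leaf K2_ok TE_l2178 _))
         (CovZ.n1 (-960, 30720) (by decide +kernel)
          (CovZ.n2 (-1120, 30880) (by decide +kernel)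
           (CovZ.leaf K2_ok TE_l2179 _)
           (CovZ.leaf K2_ok TE_l2180 _))
          (CovZ.n1 (-800, 30880) (by decide +kernel)
           (CovZ.leaf K2_ok TE_l2181 _)
           (CovZ.leaf K2_ok TE_l2182 _)))))
       (CovZ.n1 (-320, 31040) (by decide +kernel)
        (CovZ.n2 (-320, 30720) (by decide +kernel)
         (CovZ.leaf K2_ok TE_l2183 _)
         (CovZ.leaf K2_ok TE_l2184 _))
        (CovZ.n1 (-640, 31040) (by decide +kernel)
         (CovZ.n2 (-480, 31200) (by decide +kernel)
          (CovZ.leaf K2_ok TE_l2185 _)
          (CovZ.leaf K2_ok TE_l2186 _))
         (CovZ.leaf K2_ok TE_l2187 _))))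
      (CovZ.subM 19284828105380130225829155905842728543486068806090973341810692 (by decide +kernel)
       (CovZ.n1 (-1280, 31360) (by decide +kernel)
        (CovZ.subM 6427753709625038072845905784720873605776045850300600505335812 (by decide +kernel)
         (CovZ.n2 (-960, 31680) (by decide +kernel)
          (CovZ.n2 (-960, 31360) (by decide +kernel)
           (CovZ.n2 (-1120, 31520) (by decide +kernel)
            (CovZ.n2 (-960, 31520) (by decide +kernel)
             (CovZ.n2 (-1040, 31440) (by decide +kernel)
              (CovZ.leaf K2_ok TE_l2188 _)
              (CovZ.leaf K2_ok TE_l2189 _))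
             (CovZ.leaf K2_ok TE_l2190 _))
            (CovZ.n1 (-1120, 31360) (by decide +kernel)
             (CovZ.leaf K2_ok TE_l2191 _)
             (CovZ.n1 (-1040, 31440) (by decide +kernel)
              (CovZ.leaf K2_ok TE_l2192 _)
              (CovZ.leaf K2_ok TE_l2193 _))))
           (CovZ.n1 (-800, 31520) (by decide +kernel)
            (CovZ.leaf K2_ok TE_l2194 _)
            (CovZ.n1 (-960, 31520) (by decide +kernel)
             (CovZ.n2 (-880, 31600) (by decide +kernel)
              (CovZ.leaf K2_ok TE_l2195 _)
              (CovZ.leaf K2_ok TE_l2196 _))
             (CovZ.leaf K2_ok TE_l2197 _))))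
          (CovZ.n1 (-1280, 31680) (by decide +kernel)
           (CovZ.n2 (-1120, 31840) (by decide +kernel)
            (CovZ.n2 (-1120, 31680) (by decide +kernel)
             (CovZ.subM 93536104789177786765035829293842113257979682750464 (by decide +kernel)
              (CovZ.n2 (-1200, 31760) (by decide +kernel)
               (CovZ.n2 (-1120, 31760) (by decide +kernel)
                (CovZ.n2 (-1160, 31720) (by decide +kernel)
                 (CovZ.leaf K2_ok TE_l2198 _)
                 (CovZ.leaf K2_ok TE_l2199 _))
                (CovZ.leaf K2_ok TE_l2200 _))
               (CovZ.n1 (-1200, 31680) (by decide +kernel)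
                (CovZ.badM (by decide +kernel))
                (CovZ.n1 (-1160, 31720) (by decide +kernel)
                 (CovZ.leaf K2_ok TE_l2202 _)
                 (CovZ.badM (by decide +kernel))))))
             (CovZ.n1 (-1040, 31760) (by decide +kernel)
              (CovZ.leaf K2_ok TE_l2204 _)
              (CovZ.n1 (-1120, 31760) (by decide +kernel)
               (CovZ.n2 (-1080, 31800) (by decide +kernel)
                (CovZ.leaf K2_ok TE_l2205 _)
                (CovZ.leaf K2_ok TE_l2206 _))
               (CovZ.leaf K2_ok TE_l2207 _))))
            (CovZ.badM (by decide +kernel)))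
           (CovZ.n1 (-1120, 31520) (by decide +kernel)
            (CovZ.n2 (-1280, 31520) (by decide +kernel)
             (CovZ.n2 (-1200, 31600) (by decide +kernel)
              (CovZ.leaf K2_ok TE_l2213 _)
              (CovZ.n1 (-1280, 31600) (by decide +kernel)
               (CovZ.badM (by decide +kernel))
               (CovZ.leaf K2_ok TE_l2216 _)))
             (CovZ.n1 (-1200, 31440) (by decide +kernel)
              (CovZ.n2 (-1280, 31440) (by decide +kernel)
               (CovZ.leaf K2_ok TE_l2217 _)
               (CovZ.leaf K2_ok TE_l2218 _))
              (CovZ.n1 (-1200, 31520) (by decide +kernel)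
               (CovZ.leaf K2_ok TE_l2219 _)
               (CovZ.leaf K2_ok TE_l2220 _))))
            (CovZ.n1 (-1120, 31680) (by decide +kernel)
             (CovZ.n2 (-1040, 31600) (by decide +kernel)
              (CovZ.n2 (-1120, 31600) (by decide +kernel)
               (CovZ.leaf K2_ok TE_l2221 _)
               (CovZ.leaf K2_ok TE_l2222 _))
              (CovZ.leaf K2_ok TE_l2223 _))
             (CovZ.n1 (-1200, 31600) (by decide +kernel)
              (CovZ.n2 (-1200, 31680) (by decide +kernel)
               (CovZ.leaf K2_ok TE_l2224 _)
               (CovZ.badM (by decide +kernel)))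
              (CovZ.leaf K2_ok TE_l2227 _)))))))
        (CovZ.n1 (-960, 31040) (by decide +kernel)
         (CovZ.n2 (-1280, 31040) (by decide +kernel)
          (CovZ.n2 (-1120, 31200) (by decide +kernel)
           (CovZ.n2 (-1120, 31040) (by decide +kernel)
            (CovZ.leaf K2_ok TE_l2228 _)
            (CovZ.leaf K2_ok TE_l2229 _))
           (CovZ.n1 (-1280, 31200) (by decide +kernel)
            (CovZ.n2 (-1200, 31280) (by decide +kernel)
             (CovZ.leaf K2_ok TE_l2230 _)
             (CovZ.leaf K2_ok TE_l2231 _))
            (CovZ.leaf K2_ok TE_l2232 _)))
          (CovZ.n1 (-1120, 30880) (by decide +kernel)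
           (CovZ.leaf K2_ok TE_l2233 _)
           (CovZ.leaf K2_ok TE_l2234 _)))
         (CovZ.n1 (-960, 31360) (by decide +kernel)
          (CovZ.n2 (-800, 31200) (by decide +kernel)
           (CovZ.leaf K2_ok TE_l2235 _)
           (CovZ.leaf K2_ok TE_l2236 _))
          (CovZ.subM 6427753709625038072845884517072941201864584291052971127472132 (by decide +kernel)
           (CovZ.n1 (-1120, 31200) (by decide +kernel)
            (CovZ.n2 (-1120, 31360) (by decide +kernel)
             (CovZ.leaf K2_ok TE_l2237 _)
             (CovZ.n1 (-1200, 31280) (by decide +kernel)
              (CovZ.leaf K2_ok TE_l2238 _)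
              (CovZ.leaf K2_ok TE_l2239 _)))
            (CovZ.leaf K2_ok TE_l2240 _)))))))))

end Pool.Agent.TET
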