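import Pool.Agent.Helper38_TET.TE_M
import Pool.Agent.Helper38_TET.TE_L
import Pool.Agent.Helper38_TET.TE_41
import Pool.Agent.Helper38_TET.TE_42
import Pool.Agent.Helper38_TET.TE_43
import Pool.Agent.Helper38_TET.TE_44
import Pool.Agent.Helper38_TET.TE_45
import Pool.Agent.Helper38_TET.TE_46
import Pool.Agent.Helper38_TET.TE_77
import Pool.Agent.Helper38_TET.TE_78
import Pool.Agent.Helper38_TET.TE_79
import Pool.Agent.Helper38_TET.TE_116
import Pool.Agent.Helper38_TET.TE_117
import Pool.Agent.Helper38_TET.TE_122
import Pool.Agent.Helper38_TET.TE_132

/-!
# MP_c7c9bf_co: certificates, family TE
-/

set_option autoImplicit false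
set_option maxRecDepth 100000

namespace Pool.Agent.TET

theorem TE_u214 : CovZ TE_M (toL (selN TE_LN 4180606075726945778810022092374630407089099215428260133339202)) [0, 7, 6, 1] (1920, 32000) (1920, 32320) (1600, 32320) :=
    (CovZ.n2 (1760, 32160) (by decide +kernel)
           (CovZ.subM 3364527680287206101925712663835863224636926078916758660448320 (by decide +kernel)
            (CovZ.n2 (1760, 32320) (by decide +kernel)
             (CovZ.n2 (1840, 32240) (by decide +kernel)
              (CovZ.n2 (1760, 32240) (by decide +kernel)
               (CovZ.subM 3213876088517980562239741301818371791233139362861691996995584 (by decide +kernel)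
                (CovZ.n2 (1800, 32280) (by decide +kernel)
                 (CovZ.n2 (1800, 32240) (by decide +kernel)
                  (CovZ.leaf K2_ok TE_l6416 _)
                  (CovZ.n1 (1820, 32260) (by decide +kernel)
                   (CovZ.leaf K2_ok TE_l6417 _)
                   (CovZ.leaf K2_ok TE_l6418 _)))
                 (CovZ.n1 (1760, 32280) (by decide +kernel)
                  (CovZ.n2 (1780, 32300) (by decide +kernel)
                   (CovZ.leaf K2_ok TE_l6419 _)
                   (CovZ.leaf K2_ok TE_l6420 _))
                  (CovZ.leaf K2_ok TE_l6421 _))))
               (CovZ.n1 (1800, 32200) (by decide +kernel)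
                (CovZ.leaf K2_ok TE_l6422 _)
                (CovZ.leaf K2_ok TE_l6423 _)))
              (CovZ.subM 3213876088517980562239741301818371791232549067051333291343872 (by decide +kernel)
               (CovZ.n1 (1840, 32320) (by decide +kernel)
                (CovZ.n2 (1880, 32280) (by decide +kernel)
                 (CovZ.n2 (1840, 32280) (by decide +kernel)
                  (CovZ.n2 (1860, 32300) (by decide +kernel)
                   (CovZ.leaf K2_ok TE_l6424 _)
                   (CovZ.n1 (1840, 32300) (by decide +kernel)
                    (CovZ.n2 (1850, 32310) (by decide +kernel)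
                     (CovZ.leaf K2_ok TE_l6425 _)
                     (CovZ.leaf K2_ok TE_l6426 _))
                    (CovZ.leaf K2_ok TE_l6427 _)))
                  (CovZ.leaf K2_ok TE_l6428 _))
                 (CovZ.subM 4869940435459321626624 (by decide +kernel)
                  (CovZ.n1 (1880, 32320) (by decide +kernel)
                   (CovZ.n2 (1900, 32300) (by decide +kernel)
                    (CovZ.n2 (1880, 32300) (by decide +kernel)
                     (CovZ.n2 (1890, 32310) (by decide +kernel)
                      (CovZ.leaf K2_ok TE_l17411 _)
                      (CovZ.leaf K2_ok TE_l17412 _))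
                     (CovZ.leaf K2_ok TE_l6429 _))
                    (CovZ.n1 (1900, 32320) (by decide +kernel)
                     (CovZ.n2 (1910, 32310) (by decide +kernel)
                      (CovZ.leaf K2_ok TE_l17413 _)
                      (CovZ.badM (by decide +kernel)))
                     (CovZ.n1 (1890, 32310) (by decide +kernel)
                      (CovZ.badM (by decide +kernel))
                      (CovZ.leaf K2_ok TE_l17414 _))))
                   (CovZ.n1 (1860, 32300) (by decide +kernel)
                    (CovZ.n2 (1860, 32320) (by decide +kernel)
                     (CovZ.leaf K2_ok TE_l6430 _)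
                     (CovZ.n1 (1850, 32310) (by decide +kernel)
                      (CovZ.badM (by decide +kernel))
                      (CovZ.leaf K2_ok TE_l6431 _)))
                    (CovZ.n1 (1880, 32300) (by decide +kernel)
                     (CovZ.leaf K2_ok TE_l6432 _)
                     (CovZ.n1 (1870, 32310) (by decide +kernel)
                      (CovZ.leaf K2_ok TE_l17415 _)
                      (CovZ.leaf K2_ok TE_l6433 _)))))))
                (CovZ.n1 (1800, 32280) (by decide +kernel)
                 (CovZ.n2 (1800, 32320) (by decide +kernel)
                  (CovZ.n2 (1820, 32300) (by decide +kernel)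
                   (CovZ.leaf K2_ok TE_l6434 _)
                   (CovZ.n1 (1820, 32320) (by decide +kernel)
                    (CovZ.leaf K2_ok TE_l6435 _)
                    (CovZ.leaf K2_ok TE_l6436 _)))
                  (CovZ.n1 (1780, 32300) (by decide +kernel)
                   (CovZ.n2 (1780, 32320) (by decide +kernel)
                    (CovZ.leaf K2_ok TE_l6437 _)
                    (CovZ.leaf K2_ok TE_l6438 _))
                   (CovZ.leaf K2_ok TE_l6439 _)))
                 (CovZ.n1 (1840, 32280) (by decide +kernel)
                  (CovZ.n2 (1820, 32260) (by decide +kernel)
                   (CovZ.leaf K2_ok TE_l6440 _)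
                   (CovZ.leaf K2_ok TE_l6441 _))
                  (CovZ.n1 (1820, 32300) (by decide +kernel)
                   (CovZ.n2 (1840, 32300) (by decide +kernel)
                    (CovZ.leaf K2_ok TE_l6442 _)
                    (CovZ.leaf K2_ok TE_l6443 _))
                   (CovZ.leaf K2_ok TE_l6444 _)))))))
             (CovZ.n1 (1680, 32240) (by decide +kernel)
              (CovZ.subM 150651208645340334364129371696036303403366985942431963283520 (by decide +kernel)
               (CovZ.n2 (1680, 32320) (by decide +kernel)
                (CovZ.n2 (1720, 32280) (by decide +kernel)
                 (CovZ.n2 (1680, 32280) (by decide +kernel)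
                  (CovZ.n2 (1700, 32300) (by decide +kernel)
                   (CovZ.leaf K3_ok TE_l6445 _)
                   (CovZ.leaf K2_ok TE_l6446 _))
                  (CovZ.leaf K2_ok TE_l6447 _))
                 (CovZ.subM 100433627766187616995591583016574762568629131142962427723776 (by decide +kernel)
                  (CovZ.n1 (1720, 32320) (by decide +kernel)
                   (CovZ.n2 (1740, 32300) (by decide +kernel)
                    (CovZ.leaf K3_ok TE_l6448 _)
                    (CovZ.leaf K2_ok TE_l6449 _))
                   (CovZ.n1 (1700, 32300) (by decide +kernel)
                    (CovZ.leaf K2_ok TE_l6450 _)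
                    (CovZ.leaf K3_ok TE_l6451 _)))))
                (CovZ.n1 (1640, 32280) (by decide +kernel)
                 (CovZ.n2 (1640, 32320) (by decide +kernel)
                  (CovZ.leaf K2_ok TE_l6452 _)
                  (CovZ.n1 (1620, 32300) (by decide +kernel)
                   (CovZ.leaf K3_ok TE_l6453 _)
                   (CovZ.leaf K3_ok TE_l6454 _)))
                 (CovZ.n1 (1680, 32280) (by decide +kernel)
                  (CovZ.leaf K3_ok TE_l6455 _)
                  (CovZ.leaf K3_ok TE_l6456 _)))))
              (CovZ.n1 (1760, 32240) (by decide +kernel)
               (CovZ.n2 (1720, 32200) (by decide +kernel)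
                (CovZ.leaf K2_ok TE_l6457 _)
                (CovZ.leaf K2_ok TE_l6458 _))
               (CovZ.subM 100434394762246888258887574181109987489962136105627978563648 (by decide +kernel)
                (CovZ.n1 (1720, 32280) (by decide +kernel)
                 (CovZ.n2 (1760, 32280) (by decide +kernel)
                  (CovZ.leaf K2_ok TE_l6459 _)
                  (CovZ.n1 (1740, 32300) (by decide +kernel)
                   (CovZ.leaf K2_ok TE_l6460 _)
                   (CovZ.leaf K2_ok TE_l6461 _)))
                 (CovZ.n1 (1720, 32240) (by decide +kernel)
                  (CovZ.leaf K2_ok TE_l6462 _)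
                  (CovZ.leaf K2_ok TE_l6463 _))))))))
           (CovZ.subM 3213876088517980562239741301818540160749888733184961535803456 (by decide +kernel)
            (CovZ.n1 (1920, 32160) (by decide +kernel)
             (CovZ.n2 (1840, 32080) (by decide +kernel)
              (CovZ.n2 (1840, 32160) (by decide +kernel)
               (CovZ.leaf K2_ok TE_l6464 _)
               (CovZ.leaf K2_ok TE_l6465 _))
              (CovZ.n1 (1920, 32080) (by decide +kernel)
               (CovZ.leaf K2_ok TE_l6466 _)
               (CovZ.leaf K2_ok TE_l6467 _)))
             (CovZ.n1 (1840, 32240) (by decide +kernel)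
              (CovZ.n2 (1920, 32240) (by decide +kernel)
               (CovZ.n2 (1880, 32200) (by decide +kernel)
                (CovZ.leaf K2_ok TE_l6468 _)
                (CovZ.leaf K2_ok TE_l6469 _))
               (CovZ.subM 3213876088517980562239741301818371791232549067051333291343872 (by decide +kernel)
                (CovZ.n1 (1880, 32280) (by decide +kernel)
                 (CovZ.subM 3213876088517980551083924184682325205049275928001044992229376 (by decide +kernel)
                  (CovZ.n2 (1920, 32280) (by decide +kernel)
                   (CovZ.n2 (1900, 32260) (by decide +kernel)
                    (CovZ.leaf K2_ok TE_l6470 _)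
                    (CovZ.leaf K2_ok TE_l6471 _))
                   (CovZ.n1 (1900, 32300) (by decide +kernel)
                    (CovZ.n2 (1920, 32300) (by decide +kernel)
                     (CovZ.leaf K2_ok TE_l6472 _)
                     (CovZ.n1 (1910, 32310) (by decide +kernel)
                      (CovZ.badM (by decide +kernel))
                      (CovZ.leaf K2_ok TE_l17416 _)))
                    (CovZ.n1 (1900, 32280) (by decide +kernel)
                     (CovZ.leaf K2_ok TE_l6473 _)
                     (CovZ.n1 (1910, 32290) (by decide +kernel)
                      (CovZ.leaf K2_ok TE_l6474 _)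
                      (CovZ.leaf K2_ok TE_l6475 _))))))
                 (CovZ.n1 (1880, 32240) (by decide +kernel)
                  (CovZ.leaf K2_ok TE_l6476 _)
                  (CovZ.n1 (1900, 32260) (by decide +kernel)
                   (CovZ.leaf K2_ok TE_l6477 _)
                   (CovZ.leaf K2_ok TE_l6478 _))))))
              (CovZ.n1 (1840, 32160) (by decide +kernel)
               (CovZ.n2 (1800, 32200) (by decide +kernel)
                (CovZ.leaf K2_ok TE_l6479 _)
                (CovZ.leaf K2_ok TE_l6480 _))
               (CovZ.n1 (1880, 32200) (by decide +kernel)
                (CovZ.leaf K2_ok TE_l6481 _)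
                (CovZ.leaf K2_ok TE_l6482 _)))))))

theorem TE_u215 : CovZ TE_M (toL (selN TE_LN 4180606075726945778810022092374630407089099215428260133339202)) [0, 7, 6, 1] (1920, 32320) (1920, 32640) (1600, 32320) :=
    (CovZ.subM 150651208645340323219201290301459748054906340057080764825600 (by decide +kernel)
           (CovZ.n1 (1760, 32480) (by decide +kernel)
            (CovZ.n2 (1920, 32480) (by decide +kernel)
             (CovZ.n2 (1840, 32400) (by decide +kernel)
              (CovZ.badM (by decide +kernel))
              (CovZ.badM (by decide +kernel)))
             (CovZ.badM (by decide +kernel)))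
            (CovZ.n1 (1760, 32320) (by decide +kernel)
             (CovZ.n2 (1680, 32400) (by decide +kernel)
              (CovZ.subM 100433627766187605845218983751263191800622420866191998320640 (by decide +kernel)
               (CovZ.n2 (1760, 32400) (by decide +kernel)
                (CovZ.n2 (1720, 32360) (by decide +kernel)
                 (CovZ.n2 (1720, 32400) (by decide +kernel)
                  (CovZ.badM (by decide +kernel))
                  (CovZ.n1 (1700, 32380) (by decide +kernel)
                   (CovZ.badM (by decide +kernel))
                   (CovZ.badM (by decide +kernel))))
                 (CovZ.n1 (1760, 32360) (by decide +kernel)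
                  (CovZ.n2 (1740, 32340) (by decide +kernel)
                   (CovZ.badM (by decide +kernel))
                   (CovZ.n1 (1760, 32340) (by decide +kernel)
                    (CovZ.n2 (1750, 32330) (by decide +kernel)
                     (CovZ.badM (by decide +kernel))
                     (CovZ.leaf K2_ok TE_l6483 _))
                    (CovZ.badM (by decide +kernel))))
                  (CovZ.badM (by decide +kernel))))
                (CovZ.n1 (1720, 32440) (by decide +kernel)
                 (CovZ.badM (by decide +kernel))
                 (CovZ.n1 (1720, 32400) (by decide +kernel)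
                  (CovZ.badM (by decide +kernel))
                  (CovZ.badM (by decide +kernel))))))
              (CovZ.n1 (1680, 32320) (by decide +kernel)
               (CovZ.subM 50217580879152717368537788679461540834147558989110829907968 (by decide +kernel)
                (CovZ.n2 (1640, 32360) (by decide +kernel)
                 (CovZ.n2 (1680, 32360) (by decide +kernel)
                  (CovZ.n2 (1660, 32340) (by decide +kernel)
                   (CovZ.n2 (1660, 32360) (by decide +kernel)
                    (CovZ.leaf K2_ok TE_l6484 _)
                    (CovZ.n1 (1650, 32350) (by decide +kernel)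
                     (CovZ.badM (by decide +kernel))
                     (CovZ.leaf K3_ok TE_l6485 _)))
                   (CovZ.n1 (1680, 32340) (by decide +kernel)
                    (CovZ.leaf K2_ok TE_l6486 _)
                    (CovZ.n1 (1670, 32350) (by decide +kernel)
                     (CovZ.badM (by decide +kernel))
                     (CovZ.leaf K2_ok TE_l6488 _))))
                  (CovZ.n1 (1660, 32380) (by decide +kernel)
                   (CovZ.badM (by decide +kernel))
                   (CovZ.n1 (1660, 32360) (by decide +kernel)
                    (CovZ.badM (by decide +kernel))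
                    (CovZ.badM (by decide +kernel)))))
                 (CovZ.n1 (1640, 32320) (by decide +kernel)
                  (CovZ.n2 (1620, 32340) (by decide +kernel)
                   (CovZ.leaf K3_ok TE_l6489 _)
                   (CovZ.leaf K3_ok TE_l6490 _))
                  (CovZ.n1 (1660, 32340) (by decide +kernel)
                   (CovZ.leaf K3_ok TE_l6491 _)
                   (CovZ.n1 (1640, 32340) (by decide +kernel)
                    (CovZ.leaf K2_ok TE_l6492 _)
                    (CovZ.leaf K3_ok TE_l6493 _))))))
               (CovZ.subM 100433627766187605845218983751263191800622420866191998320640 (by decide +kernel)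
                (CovZ.n1 (1720, 32360) (by decide +kernel)
                 (CovZ.n2 (1720, 32320) (by decide +kernel)
                  (CovZ.n2 (1700, 32340) (by decide +kernel)
                   (CovZ.n2 (1720, 32340) (by decide +kernel)
                    (CovZ.n2 (1710, 32330) (by decide +kernel)
                     (CovZ.badM (by decide +kernel))
                     (CovZ.leaf K3_ok TE_l6495 _))
                    (CovZ.badM (by decide +kernel)))
                   (CovZ.n1 (1700, 32320) (by decide +kernel)
                    (CovZ.leaf K2_ok TE_l6496 _)
                    (CovZ.leaf K3_ok TE_l6497 _)))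
                  (CovZ.n1 (1740, 32340) (by decide +kernel)
                   (CovZ.n2 (1740, 32320) (by decide +kernel)
                    (CovZ.leaf K3_ok TE_l6498 _)
                    (CovZ.n1 (1750, 32330) (by decide +kernel)
                     (CovZ.leaf K2_ok TE_l6499 _)
                     (CovZ.leaf K2_ok TE_l6500 _)))
                   (CovZ.n1 (1720, 32340) (by decide +kernel)
                    (CovZ.badM (by decide +kernel))
                    (CovZ.leaf K2_ok TE_l6501 _))))
                 (CovZ.n1 (1680, 32360) (by decide +kernel)
                  (CovZ.n2 (1700, 32380) (by decide +kernel)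
                   (CovZ.n2 (1700, 32360) (by decide +kernel)
                    (CovZ.badM (by decide +kernel))
                    (CovZ.badM (by decide +kernel)))
                   (CovZ.badM (by decide +kernel)))
                  (CovZ.n1 (1700, 32340) (by decide +kernel)
                   (CovZ.badM (by decide +kernel))
                   (CovZ.n1 (1700, 32360) (by decide +kernel)
                    (CovZ.badM (by decide +kernel))
                    (CovZ.badM (by decide +kernel)))))))))
             (CovZ.subM 5444517870735015415414002726107546124288 (by decide +kernel)
              (CovZ.n1 (1840, 32400) (by decide +kernel)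
               (CovZ.n2 (1840, 32320) (by decide +kernel)
                (CovZ.n2 (1800, 32360) (by decide +kernel)
                 (CovZ.n2 (1840, 32360) (by decide +kernel)
                  (CovZ.n2 (1820, 32340) (by decide +kernel)
                   (CovZ.badM (by decide +kernel))
                   (CovZ.n1 (1840, 32340) (by decide +kernel)
                    (CovZ.n2 (1830, 32330) (by decide +kernel)
                     (CovZ.badM (by decide +kernel))
                     (CovZ.leaf K2_ok TE_l19614 _))
                    (CovZ.badM (by decide +kernel))))
                  (CovZ.badM (by decide +kernel)))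
                 (CovZ.n1 (1800, 32320) (by decide +kernel)
                  (CovZ.n2 (1780, 32340) (by decide +kernel)
                   (CovZ.n2 (1800, 32340) (by decide +kernel)
                    (CovZ.n2 (1790, 32330) (by decide +kernel)
                     (CovZ.leaf K2_ok TE_l17417 _)
                     (CovZ.leaf K2_ok TE_l6505 _))
                    (CovZ.badM (by decide +kernel)))
                   (CovZ.n1 (1780, 32320) (by decide +kernel)
                    (CovZ.leaf K2_ok TE_l6506 _)
                    (CovZ.n1 (1790, 32330) (by decide +kernel)
                     (CovZ.leaf K2_ok TE_l6507 _)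
                     (CovZ.leaf K2_ok TE_l6508 _))))
                  (CovZ.n1 (1820, 32340) (by decide +kernel)
                   (CovZ.n2 (1820, 32320) (by decide +kernel)
                    (CovZ.n2 (1810, 32330) (by decide +kernel)
                     (CovZ.badM (by decide +kernel))
                     (CovZ.leaf K2_ok TE_l6509 _))
                    (CovZ.n1 (1830, 32330) (by decide +kernel)
                     (CovZ.leaf K2_ok TE_l19615 _)
                     (CovZ.badM (by decide +kernel))))
                   (CovZ.n1 (1800, 32340) (by decide +kernel)
                    (CovZ.badM (by decide +kernel))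
                    (CovZ.n1 (1810, 32330) (by decide +kernel)
                     (CovZ.leaf K2_ok TE_l6510 _)
                     (CovZ.badM (by decide +kernel)))))))
                (CovZ.badM (by decide +kernel)))
               (CovZ.n1 (1760, 32400) (by decide +kernel)
                (CovZ.badM (by decide +kernel))
                (CovZ.n1 (1800, 32360) (by decide +kernel)
                 (CovZ.n2 (1760, 32360) (by decide +kernel)
                  (CovZ.badM (by decide +kernel))
                  (CovZ.n1 (1780, 32340) (by decide +kernel)
                   (CovZ.n2 (1760, 32340) (by decide +kernel)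
                    (CovZ.badM (by decide +kernel))
                    (CovZ.leaf K2_ok TE_l6511 _))
                   (CovZ.badM (by decide +kernel))))
                 (CovZ.badM (by decide +kernel)))))))))

theorem TE_u216 : CovZ TE_M (toL (selN TE_LN 4180606075726945778810022092374630407089099215428260133339202)) [0, 7, 6, 1] (1920, 32000) (2240, 32000) (2240, 32320) :=
    (CovZ.subM 3226430291988753912617040281724162476472661034532864874512450 (by decide +kernel)
           (CovZ.n2 (2080, 32160) (by decide +kernel)
            (CovZ.n2 (2240, 32160) (by decide +kernel)
             (CovZ.n2 (2160, 32080) (by decide +kernel)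
              (CovZ.subM 12554203470773361527671578846573798833952459337326858862658 (by decide +kernel)
               (CovZ.n2 (2160, 32160) (by decide +kernel)
                (CovZ.n2 (2200, 32120) (by decide +kernel)
                 (CovZ.leaf K2_ok TE_l6536 _)
                 (CovZ.leaf K2_ok TE_l6537 _))
                (CovZ.n1 (2120, 32120) (by decide +kernel)
                 (CovZ.leaf K2_ok TE_l6538 _)
                 (CovZ.leaf K2_ok TE_l6539 _))))
              (CovZ.n1 (2240, 32080) (by decide +kernel)
               (CovZ.leaf K2_ok TE_l6540 _)
               (CovZ.n1 (2200, 32120) (by decide +kernel)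
                (CovZ.leaf K2_ok TE_l6541 _)
                (CovZ.leaf K2_ok TE_l6542 _))))
             (CovZ.subM 12554203470773361527671578846415342508923930662139773059138 (by decide +kernel)
              (CovZ.n1 (2160, 32240) (by decide +kernel)
               (CovZ.n2 (2240, 32240) (by decide +kernel)
                (CovZ.n2 (2200, 32200) (by decide +kernel)
                 (CovZ.subM 4722366482869647310850 (by decide +kernel)
                  (CovZ.n2 (2200, 32240) (by decide +kernel)
                   (CovZ.n2 (2220, 32220) (by decide +kernel)
                    (CovZ.n2 (2200, 32220) (by decide +kernel)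
                     (CovZ.n2 (2210, 32230) (by decide +kernel)
                      (CovZ.leaf K2_ok TE_l6543 _)
                      (CovZ.badM (by decide +kernel)))
                     (CovZ.leaf K2_ok TE_l6545 _))
                    (CovZ.n1 (2220, 32240) (by decide +kernel)
                     (CovZ.n2 (2230, 32230) (by decide +kernel)
                      (CovZ.leaf K2_ok TE_l6546 _)
                      (CovZ.leaf K2_ok TE_l17418 _))
                     (CovZ.n1 (2210, 32230) (by decide +kernel)
                      (CovZ.badM (by decide +kernel))
                      (CovZ.leaf K2_ok TE_l6547 _))))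
                   (CovZ.n1 (2180, 32220) (by decide +kernel)
                    (CovZ.n2 (2180, 32240) (by decide +kernel)
                     (CovZ.leaf K2_ok TE_l6548 _)
                     (CovZ.leaf K2_ok TE_l6549 _))
                    (CovZ.n1 (2200, 32220) (by decide +kernel)
                     (CovZ.leaf K2_ok TE_l6550 _)
                     (CovZ.leaf K2_ok TE_l6551 _)))))
                 (CovZ.n1 (2240, 32200) (by decide +kernel)
                  (CovZ.n2 (2220, 32180) (by decide +kernel)
                   (CovZ.leaf K2_ok TE_l6552 _)
                   (CovZ.leaf K2_ok TE_l6553 _))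
                  (CovZ.subM 4722366482869647310850 (by decide +kernel)
                   (CovZ.n1 (2220, 32220) (by decide +kernel)
                    (CovZ.n2 (2240, 32220) (by decide +kernel)
                     (CovZ.leaf K2_ok TE_l6554 _)
                     (CovZ.leaf K2_ok TE_l6555 _))
                    (CovZ.n1 (2220, 32200) (by decide +kernel)
                     (CovZ.leaf K2_ok TE_l6556 _)
                     (CovZ.leaf K2_ok TE_l6557 _))))))
                (CovZ.subM 2097154 (by decide +kernel)
                 (CovZ.n1 (2200, 32280) (by decide +kernel)
                  (CovZ.badM (by decide +kernel))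
                  (CovZ.n1 (2200, 32240) (by decide +kernel)
                   (CovZ.badM (by decide +kernel))
                   (CovZ.n1 (2220, 32260) (by decide +kernel)
                    (CovZ.n2 (2220, 32240) (by decide +kernel)
                     (CovZ.badM (by decide +kernel))
                     (CovZ.n1 (2230, 32250) (by decide +kernel)
                      (CovZ.n2 (2230, 32240) (by decide +kernel)
                       (CovZ.badM (by decide +kernel))
                       (CovZ.badM (by decide +kernel)))
                      (CovZ.badM (by decide +kernel))))
                    (CovZ.badM (by decide +kernel)))))))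
               (CovZ.n1 (2160, 32160) (by decide +kernel)
                (CovZ.n2 (2120, 32200) (by decide +kernel)
                 (CovZ.n2 (2160, 32200) (by decide +kernel)
                  (CovZ.leaf K2_ok TE_l6559 _)
                  (CovZ.n1 (2140, 32220) (by decide +kernel)
                   (CovZ.leaf K2_ok TE_l6560 _)
                   (CovZ.leaf K2_ok TE_l6561 _)))
                 (CovZ.n1 (2120, 32160) (by decide +kernel)
                  (CovZ.leaf K2_ok TE_l6562 _)
                  (CovZ.leaf K2_ok TE_l6563 _)))
                (CovZ.n1 (2200, 32200) (by decide +kernel)
                 (CovZ.n2 (2200, 32160) (by decide +kernel)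
                  (CovZ.leaf K2_ok TE_l6564 _)
                  (CovZ.n1 (2220, 32180) (by decide +kernel)
                   (CovZ.leaf K2_ok TE_l6565 _)
                   (CovZ.leaf K2_ok TE_l6566 _)))
                 (CovZ.n1 (2160, 32200) (by decide +kernel)
                  (CovZ.n2 (2180, 32220) (by decide +kernel)
                   (CovZ.leaf K2_ok TE_l6567 _)
                   (CovZ.leaf K2_ok TE_l6568 _))
                  (CovZ.leaf K2_ok TE_l6569 _)))))))
            (CovZ.n1 (2080, 32000) (by decide +kernel)
             (CovZ.n2 (2000, 32080) (by decide +kernel)
              (CovZ.n2 (2080, 32080) (by decide +kernel)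
               (CovZ.leaf K2_ok TE_l6570 _)
               (CovZ.leaf K2_ok TE_l6571 _))
              (CovZ.leaf K2_ok TE_l6572 _))
             (CovZ.n1 (2160, 32080) (by decide +kernel)
              (CovZ.n2 (2160, 32000) (by decide +kernel)
               (CovZ.leaf K2_ok TE_l6573 _)
               (CovZ.leaf K2_ok TE_l6574 _))
              (CovZ.n1 (2080, 32080) (by decide +kernel)
               (CovZ.n2 (2120, 32120) (by decide +kernel)
                (CovZ.leaf K2_ok TE_l6575 _)
                (CovZ.leaf K2_ok TE_l6576 _))
               (CovZ.leaf K2_ok TE_l6577 _))))))

theorem TE_u217 : CovZ TE_M (toL (selN TE_LN 4180606075726945778810022092374630407089099215428260133339202)) [0, 7, 6, 1] (2240, 32000) (2560, 32000) (2240, 32320) :=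
    (CovZ.subM 6129982163463556113998446637406179853260903622975160386 (by decide +kernel)
           (CovZ.n1 (2400, 32160) (by decide +kernel)
            (CovZ.n2 (2400, 32000) (by decide +kernel)
             (CovZ.n2 (2320, 32080) (by decide +kernel)
              (CovZ.n2 (2400, 32080) (by decide +kernel)
               (CovZ.n2 (2360, 32040) (by decide +kernel)
                (CovZ.leaf K2_ok TE_l6578 _)
                (CovZ.leaf K2_ok TE_l6579 _))
               (CovZ.n1 (2360, 32120) (by decide +kernel)
                (CovZ.n2 (2400, 32120) (by decide +kernel)
                 (CovZ.leaf K2_ok TE_l6580 _)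
                 (CovZ.leaf K2_ok TE_l6581 _))
                (CovZ.leaf K2_ok TE_l6582 _)))
              (CovZ.n1 (2320, 32000) (by decide +kernel)
               (CovZ.leaf K2_ok TE_l6583 _)
               (CovZ.n1 (2360, 32040) (by decide +kernel)
                (CovZ.leaf K2_ok TE_l6584 _)
                (CovZ.leaf K2_ok TE_l6585 _))))
             (CovZ.n1 (2480, 32080) (by decide +kernel)
              (CovZ.n2 (2480, 32000) (by decide +kernel)
               (CovZ.leaf K2_ok TE_l6586 _)
               (CovZ.n1 (2520, 32040) (by decide +kernel)
                (CovZ.leaf K2_ok TE_l6587 _)
                (CovZ.leaf K2_ok TE_l6588 _)))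
              (CovZ.n1 (2400, 32080) (by decide +kernel)
               (CovZ.n2 (2440, 32120) (by decide +kernel)
                (CovZ.leaf K2_ok TE_l6589 _)
                (CovZ.n1 (2400, 32120) (by decide +kernel)
                 (CovZ.n2 (2420, 32140) (by decide +kernel)
                  (CovZ.leaf K2_ok TE_l6590 _)
                  (CovZ.leaf K2_ok TE_l6591 _))
                 (CovZ.leaf K2_ok TE_l6592 _)))
               (CovZ.leaf K2_ok TE_l6593 _))))
            (CovZ.n1 (2240, 32160) (by decide +kernel)
             (CovZ.subM 324518563334555650746009018957826 (by decide +kernel)
              (CovZ.n2 (2320, 32240) (by decide +kernel)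
               (CovZ.n2 (2320, 32160) (by decide +kernel)
                (CovZ.n2 (2280, 32200) (by decide +kernel)
                 (CovZ.n2 (2320, 32200) (by decide +kernel)
                  (CovZ.n2 (2300, 32180) (by decide +kernel)
                   (CovZ.leaf K2_ok TE_l6594 _)
                   (CovZ.leaf K2_ok TE_l6595 _))
                  (CovZ.subM 4722366482869647310848 (by decide +kernel)
                   (CovZ.n1 (2300, 32220) (by decide +kernel)
                    (CovZ.n2 (2320, 32220) (by decide +kernel)
                     (CovZ.n2 (2310, 32210) (by decide +kernel)
                      (CovZ.leaf K2_ok TE_l6596 _)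
                      (CovZ.leaf K2_ok TE_l6597 _))
                     (CovZ.badM (by decide +kernel)))
                    (CovZ.n1 (2300, 32200) (by decide +kernel)
                     (CovZ.leaf K2_ok TE_l6598 _)
                     (CovZ.n1 (2310, 32210) (by decide +kernel)
                      (CovZ.leaf K2_ok TE_l6599 _)
                      (CovZ.leaf K2_ok TE_l6600 _))))))
                 (CovZ.n1 (2280, 32160) (by decide +kernel)
                  (CovZ.leaf K2_ok TE_l6601 _)
                  (CovZ.n1 (2300, 32180) (by decide +kernel)
                   (CovZ.leaf K2_ok TE_l6602 _)
                   (CovZ.leaf K2_ok TE_l6603 _))))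
                (CovZ.n1 (2360, 32200) (by decide +kernel)
                 (CovZ.n2 (2360, 32160) (by decide +kernel)
                  (CovZ.n2 (2340, 32180) (by decide +kernel)
                   (CovZ.n2 (2360, 32180) (by decide +kernel)
                    (CovZ.leaf K2_ok TE_l6604 _)
                    (CovZ.leaf K2_ok TE_l6605 _))
                   (CovZ.leaf K2_ok TE_l6606 _))
                  (CovZ.n1 (2380, 32180) (by decide +kernel)
                   (CovZ.n2 (2380, 32160) (by decide +kernel)
                    (CovZ.leaf K2_ok TE_l6607 _)
                    (CovZ.leaf K2_ok TE_l6608 _))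
                   (CovZ.leaf K2_ok TE_l6609 _)))
                 (CovZ.n1 (2320, 32200) (by decide +kernel)
                  (CovZ.subM 2097152 (by decide +kernel)
                   (CovZ.n2 (2340, 32220) (by decide +kernel)
                    (CovZ.n2 (2340, 32200) (by decide +kernel)
                     (CovZ.n2 (2330, 32210) (by decide +kernel)
                      (CovZ.leaf K2_ok TE_l6610 _)
                      (CovZ.leaf K2_ok TE_l6611 _))
                     (CovZ.n1 (2350, 32210) (by decide +kernel)
                      (CovZ.leaf K2_ok TE_l6612 _)
                      (CovZ.leaf K2_ok TE_l6613 _)))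
                    (CovZ.n1 (2320, 32220) (by decide +kernel)
                     (CovZ.badM (by decide +kernel))
                     (CovZ.leaf K2_ok TE_l6614 _))))
                  (CovZ.n1 (2340, 32180) (by decide +kernel)
                   (CovZ.leaf K2_ok TE_l6615 _)
                   (CovZ.n1 (2340, 32200) (by decide +kernel)
                    (CovZ.leaf K2_ok TE_l6616 _)
                    (CovZ.n1 (2330, 32190) (by decide +kernel)
                     (CovZ.leaf K2_ok TE_l6617 _)
                     (CovZ.leaf K2_ok TE_l6618 _)))))))
               (CovZ.n1 (2240, 32240) (by decide +kernel)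
                (CovZ.badM (by decide +kernel))
                (CovZ.n1 (2280, 32200) (by decide +kernel)
                 (CovZ.n2 (2240, 32200) (by decide +kernel)
                  (CovZ.subM 4722366482869647310850 (by decide +kernel)
                   (CovZ.n2 (2260, 32220) (by decide +kernel)
                    (CovZ.n2 (2260, 32200) (by decide +kernel)
                     (CovZ.leaf K2_ok TE_l6619 _)
                     (CovZ.leaf K2_ok TE_l6620 _))
                    (CovZ.n1 (2240, 32220) (by decide +kernel)
                     (CovZ.n2 (2250, 32230) (by decide +kernel)
                      (CovZ.leaf K2_ok TE_l17419 _)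
                      (CovZ.leaf K2_ok TE_l17420 _))
                     (CovZ.leaf K2_ok TE_l6621 _))))
                  (CovZ.n1 (2260, 32180) (by decide +kernel)
                   (CovZ.leaf K2_ok TE_l6622 _)
                   (CovZ.leaf K2_ok TE_l6623 _)))
                 (CovZ.subM 4722366482869647310848 (by decide +kernel)
                  (CovZ.n1 (2280, 32240) (by decide +kernel)
                   (CovZ.n2 (2300, 32220) (by decide +kernel)
                    (CovZ.n2 (2280, 32220) (by decide +kernel)
                     (CovZ.badM (by decide +kernel))
                     (CovZ.leaf K2_ok TE_l6624 _))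
                    (CovZ.badM (by decide +kernel)))
                   (CovZ.n1 (2260, 32220) (by decide +kernel)
                    (CovZ.n2 (2260, 32240) (by decide +kernel)
                     (CovZ.n2 (2270, 32230) (by decide +kernel)
                      (CovZ.leaf K2_ok TE_l17421 _)
                      (CovZ.badM (by decide +kernel)))
                     (CovZ.n1 (2250, 32230) (by decide +kernel)
                      (CovZ.badM (by decide +kernel))
                      (CovZ.leaf K2_ok TE_l17422 _)))
                    (CovZ.n1 (2280, 32220) (by decide +kernel)
                     (CovZ.n2 (2270, 32210) (by decide +kernel)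
                      (CovZ.leaf K2_ok TE_l17423 _)
                      (CovZ.leaf K2_ok TE_l6625 _))
                     (CovZ.n1 (2270, 32230) (by decide +kernel)
                      (CovZ.badM (by decide +kernel))
                      (CovZ.leaf K2_ok TE_l17424 _))))))))))
             (CovZ.n1 (2320, 32080) (by decide +kernel)
              (CovZ.n2 (2240, 32080) (by decide +kernel)
               (CovZ.n2 (2280, 32120) (by decide +kernel)
                (CovZ.leaf K2_ok TE_l6626 _)
                (CovZ.leaf K2_ok TE_l6627 _))
               (CovZ.leaf K2_ok TE_l6628 _))
              (CovZ.n1 (2320, 32160) (by decide +kernel)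
               (CovZ.n2 (2360, 32120) (by decide +kernel)
                (CovZ.n2 (2320, 32120) (by decide +kernel)
                 (CovZ.leaf K2_ok TE_l6629 _)
                 (CovZ.leaf K2_ok TE_l6630 _))
                (CovZ.n1 (2360, 32160) (by decide +kernel)
                 (CovZ.leaf K2_ok TE_l6631 _)
                 (CovZ.n1 (2340, 32140) (by decide +kernel)
                  (CovZ.leaf K2_ok TE_l6632 _)
                  (CovZ.leaf K2_ok TE_l6633 _))))
               (CovZ.n1 (2280, 32120) (by decide +kernel)
                (CovZ.n2 (2280, 32160) (by decide +kernel)
                 (CovZ.leaf K2_ok TE_l6634 _)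
                 (CovZ.leaf K2_ok TE_l6635 _))
                (CovZ.leaf K2_ok TE_l6636 _)))))))

theorem TE_u218 : CovZ TE_M (toL (selN TE_LN 4180606075726945778810022092374630407089099215428260133339202)) [0, 7, 6, 1] (1280, 32000) (1920, 32000) (1920, 32640) :=
    (CovZ.n2 (1600, 32320) (by decide +kernel)
         (CovZ.n2 (1920, 32320) (by decide +kernel)
          TE_u214
          TE_u215)
         (CovZ.n1 (1600, 32000) (by decide +kernel)
          (CovZ.n2 (1440, 32160) (by decide +kernel)
           (CovZ.subM 3364527680287206101925712663836021680957232241109076103135296 (by decide +kernel)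
            (CovZ.n2 (1600, 32160) (by decide +kernel)
             (CovZ.n2 (1520, 32080) (by decide +kernel)
              (CovZ.leaf K3_ok TE_l6512 _)
              (CovZ.leaf K2_ok TE_l6513 _))
             (CovZ.n1 (1520, 32240) (by decide +kernel)
              (CovZ.n2 (1600, 32240) (by decide +kernel)
               (CovZ.n2 (1560, 32200) (by decide +kernel)
                (CovZ.leaf K3_ok TE_l6514 _)
                (CovZ.leaf K2_ok TE_l6515 _))
               (CovZ.n1 (1560, 32280) (by decide +kernel)
                (CovZ.leaf K2_ok TE_l6516 _)
                (CovZ.leaf K2_ok TE_l6517 _)))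
              (CovZ.n1 (1520, 32160) (by decide +kernel)
               (CovZ.leaf K3_ok TE_l6518 _)
               (CovZ.n1 (1560, 32200) (by decide +kernel)
                (CovZ.leaf K2_ok TE_l6519 _)
                (CovZ.leaf K3_ok TE_l6520 _))))))
           (CovZ.n1 (1440, 32000) (by decide +kernel)
            (CovZ.leaf K3_ok TE_l6521 _)
            (CovZ.n1 (1520, 32080) (by decide +kernel)
             (CovZ.leaf K2_ok TE_l6522 _)
             (CovZ.leaf K3_ok TE_l6523 _))))
          (CovZ.n1 (1760, 32160) (by decide +kernel)
           (CovZ.n2 (1760, 32000) (by decide +kernel)
            (CovZ.n2 (1680, 32080) (by decide +kernel)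
             (CovZ.leaf K2_ok TE_l6524 _)
             (CovZ.leaf K2_ok TE_l6525 _))
            (CovZ.n1 (1840, 32080) (by decide +kernel)
             (CovZ.leaf K2_ok TE_l6526 _)
             (CovZ.leaf K2_ok TE_l6527 _)))
           (CovZ.subM 3364527680287206101925712663836021680957232241109076103135296 (by decide +kernel)
            (CovZ.n1 (1600, 32160) (by decide +kernel)
             (CovZ.n2 (1680, 32240) (by decide +kernel)
              (CovZ.n2 (1680, 32160) (by decide +kernel)
               (CovZ.leaf K2_ok TE_l6528 _)
               (CovZ.n1 (1720, 32200) (by decide +kernel)
                (CovZ.leaf K2_ok TE_l6529 _)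
                (CovZ.leaf K2_ok TE_l6530 _)))
              (CovZ.n1 (1600, 32240) (by decide +kernel)
               (CovZ.n2 (1640, 32280) (by decide +kernel)
                (CovZ.leaf K2_ok TE_l6531 _)
                (CovZ.leaf K3_ok TE_l6532 _))
               (CovZ.leaf K3_ok TE_l6533 _)))
             (CovZ.n1 (1680, 32080) (by decide +kernel)
              (CovZ.leaf K2_ok TE_l6534 _)
              (CovZ.leaf K2_ok TE_l6535 _)))))))

theorem TE_u219 : CovZ TE_M (toL (selN TE_LN 4180606075726945778810022092374630407089099215428260133339202)) [0, 7, 6, 1] (1920, 32000) (2560, 32000) (1920, 32640) :=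
    (CovZ.n1 (2240, 32320) (by decide +kernel)
         (CovZ.n2 (2240, 32000) (by decide +kernel)
          TE_u216
          TE_u217)
         (CovZ.subM 3226430291988753912617040281399643922814234307749708853936192 (by decide +kernel)
          (CovZ.n1 (1920, 32320) (by decide +kernel)
           (CovZ.subM 12554203470773361527671578846415332832204710888928069025792 (by decide +kernel)
            (CovZ.n2 (2080, 32480) (by decide +kernel)
             (CovZ.n2 (2080, 32320) (by decide +kernel)
              (CovZ.n2 (2000, 32400) (by decide +kernel)
               (CovZ.n2 (2080, 32400) (by decide +kernel)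
                (CovZ.n2 (2040, 32360) (by decide +kernel)
                 (CovZ.n2 (2040, 32400) (by decide +kernel)
                  (CovZ.n2 (2060, 32380) (by decide +kernel)
                   (CovZ.badM (by decide +kernel))
                   (CovZ.badM (by decide +kernel)))
                  (CovZ.badM (by decide +kernel)))
                 (CovZ.n1 (2080, 32360) (by decide +kernel)
                  (CovZ.badM (by decide +kernel))
                  (CovZ.n1 (2060, 32380) (by decide +kernel)
                   (CovZ.badM (by decide +kernel))
                   (CovZ.badM (by decide +kernel)))))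
                (CovZ.n1 (2040, 32440) (by decide +kernel)
                 (CovZ.badM (by decide +kernel))
                 (CovZ.n1 (2040, 32400) (by decide +kernel)
                  (CovZ.badM (by decide +kernel))
                  (CovZ.badM (by decide +kernel)))))
               (CovZ.badM (by decide +kernel)))
              (CovZ.badM (by decide +kernel)))
             (CovZ.n1 (1920, 32480) (by decide +kernel)
              (CovZ.n2 (2000, 32560) (by decide +kernel)
               (CovZ.n2 (2000, 32480) (by decide +kernel)
                (CovZ.badM (by decide +kernel))
                (CovZ.n1 (2040, 32520) (by decide +kernel)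
                 (CovZ.n2 (2040, 32480) (by decide +kernel)
                  (CovZ.badM (by decide +kernel))
                  (CovZ.badM (by decide +kernel)))
                 (CovZ.badM (by decide +kernel))))
               (CovZ.badM (by decide +kernel)))
              (CovZ.n1 (2000, 32400) (by decide +kernel)
               (CovZ.badM (by decide +kernel))
               (CovZ.n1 (2000, 32480) (by decide +kernel)
                (CovZ.n2 (2040, 32440) (by decide +kernel)
                 (CovZ.badM (by decide +kernel))
                 (CovZ.n1 (2040, 32480) (by decide +kernel)
                  (CovZ.badM (by decide +kernel))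
                  (CovZ.badM (by decide +kernel))))
                (CovZ.badM (by decide +kernel)))))))
           (CovZ.n1 (2080, 32160) (by decide +kernel)
            (CovZ.n2 (1920, 32160) (by decide +kernel)
             (CovZ.subM 3213876088517980551083924184682325214721272790298586303692864 (by decide +kernel)
              (CovZ.n2 (2000, 32240) (by decide +kernel)
               (CovZ.n2 (2000, 32160) (by decide +kernel)
                (CovZ.n2 (1960, 32200) (by decide +kernel)
                 (CovZ.n2 (2000, 32200) (by decide +kernel)
                  (CovZ.leaf K2_ok TE_l6637 _)
                  (CovZ.leaf K2_ok TE_l6638 _))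
                 (CovZ.leaf K2_ok TE_l6639 _))
                (CovZ.n1 (2040, 32200) (by decide +kernel)
                 (CovZ.n2 (2040, 32160) (by decide +kernel)
                  (CovZ.leaf K2_ok TE_l6640 _)
                  (CovZ.leaf K2_ok TE_l6641 _))
                 (CovZ.n1 (2000, 32200) (by decide +kernel)
                  (CovZ.n2 (2020, 32220) (by decide +kernel)
                   (CovZ.leaf K2_ok TE_l6642 _)
                   (CovZ.leaf K2_ok TE_l6643 _))
                  (CovZ.leaf K2_ok TE_l6644 _))))
               (CovZ.n1 (1920, 32240) (by decide +kernel)
                (CovZ.subM 3213876088517980551083924184682325205049275928001044992229376 (by decide +kernel)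
                 (CovZ.n2 (1960, 32280) (by decide +kernel)
                  (CovZ.n2 (1960, 32240) (by decide +kernel)
                   (CovZ.n2 (1940, 32260) (by decide +kernel)
                    (CovZ.leaf K2_ok TE_l6645 _)
                    (CovZ.leaf K2_ok TE_l6646 _))
                   (CovZ.n1 (1980, 32260) (by decide +kernel)
                    (CovZ.leaf K2_ok TE_l6647 _)
                    (CovZ.leaf K2_ok TE_l6648 _)))
                  (CovZ.n1 (1920, 32280) (by decide +kernel)
                   (CovZ.n2 (1940, 32300) (by decide +kernel)
                    (CovZ.n2 (1940, 32280) (by decide +kernel)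
                     (CovZ.leaf K2_ok TE_l6649 _)
                     (CovZ.badM (by decide +kernel)))
                    (CovZ.n1 (1920, 32300) (by decide +kernel)
                     (CovZ.badM (by decide +kernel))
                     (CovZ.leaf K2_ok TE_l6652 _)))
                   (CovZ.n1 (1940, 32260) (by decide +kernel)
                    (CovZ.leaf K2_ok TE_l6653 _)
                    (CovZ.leaf K2_ok TE_l6654 _)))))
                (CovZ.n1 (1960, 32200) (by decide +kernel)
                 (CovZ.leaf K2_ok TE_l6655 _)
                 (CovZ.n1 (1960, 32240) (by decide +kernel)
                  (CovZ.leaf K2_ok TE_l6656 _)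
                  (CovZ.n1 (1940, 32220) (by decide +kernel)
                   (CovZ.leaf K2_ok TE_l6657 _)
                   (CovZ.leaf K2_ok TE_l6658 _)))))))
             (CovZ.n1 (2000, 32080) (by decide +kernel)
              (CovZ.n2 (1920, 32080) (by decide +kernel)
               (CovZ.n2 (1960, 32120) (by decide +kernel)
                (CovZ.leaf K2_ok TE_l6659 _)
                (CovZ.leaf K2_ok TE_l6660 _))
               (CovZ.leaf K2_ok TE_l6661 _))
              (CovZ.n1 (2000, 32160) (by decide +kernel)
               (CovZ.leaf K2_ok TE_l6662 _)
               (CovZ.n1 (1960, 32120) (by decide +kernel)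
                (CovZ.leaf K2_ok TE_l6663 _)
                (CovZ.leaf K2_ok TE_l6664 _)))))
            (CovZ.subM 3226430291988753912611595763528740547553329918227725443661888 (by decide +kernel)
             (CovZ.n1 (2080, 32320) (by decide +kernel)
              (CovZ.n2 (2160, 32240) (by decide +kernel)
               (CovZ.n2 (2080, 32240) (by decide +kernel)
                (CovZ.subM 4722366482869645213696 (by decide +kernel)
                 (CovZ.n2 (2120, 32280) (by decide +kernel)
                  (CovZ.n2 (2120, 32240) (by decide +kernel)
                   (CovZ.n2 (2100, 32260) (by decide +kernel)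
                    (CovZ.badM (by decide +kernel))
                    (CovZ.n1 (2100, 32240) (by decide +kernel)
                     (CovZ.leaf K2_ok TE_l6666 _)
                     (CovZ.badM (by decide +kernel))))
                   (CovZ.badM (by decide +kernel)))
                  (CovZ.n1 (2080, 32280) (by decide +kernel)
                   (CovZ.badM (by decide +kernel))
                   (CovZ.n1 (2100, 32260) (by decide +kernel)
                    (CovZ.n2 (2080, 32260) (by decide +kernel)
                     (CovZ.badM (by decide +kernel))
                     (CovZ.leaf K2_ok TE_l6672 _))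
                    (CovZ.badM (by decide +kernel))))))
                (CovZ.n1 (2120, 32200) (by decide +kernel)
                 (CovZ.n2 (2080, 32200) (by decide +kernel)
                  (CovZ.n2 (2100, 32220) (by decide +kernel)
                   (CovZ.leaf K2_ok TE_l6673 _)
                   (CovZ.leaf K2_ok TE_l6674 _))
                  (CovZ.leaf K2_ok TE_l6675 _))
                 (CovZ.subM 4722366482869645213696 (by decide +kernel)
                  (CovZ.n1 (2120, 32240) (by decide +kernel)
                   (CovZ.n2 (2140, 32220) (by decide +kernel)
                    (CovZ.leaf K2_ok TE_l6676 _)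
                    (CovZ.n1 (2140, 32240) (by decide +kernel)
                     (CovZ.leaf K2_ok TE_l6677 _)
                     (CovZ.leaf K2_ok TE_l6678 _)))
                   (CovZ.n1 (2100, 32220) (by decide +kernel)
                    (CovZ.leaf K2_ok TE_l6679 _)
                    (CovZ.leaf K2_ok TE_l6680 _))))))
               (CovZ.n1 (2160, 32320) (by decide +kernel)
                (CovZ.n2 (2200, 32280) (by decide +kernel)
                 (CovZ.badM (by decide +kernel))
                 (CovZ.badM (by decide +kernel)))
                (CovZ.badM (by decide +kernel))))
              (CovZ.n1 (2000, 32240) (by decide +kernel)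
               (CovZ.subM 3213876088517980551083924184682325205049128354048455315816448 (by decide +kernel)
                (CovZ.n2 (2000, 32320) (by decide +kernel)
                 (CovZ.n2 (2040, 32280) (by decide +kernel)
                  (CovZ.n2 (2000, 32280) (by decide +kernel)
                   (CovZ.badM (by decide +kernel))
                   (CovZ.n1 (2020, 32260) (by decide +kernel)
                    (CovZ.n2 (2000, 32260) (by decide +kernel)
                     (CovZ.leaf K2_ok TE_l6683 _)
                     (CovZ.leaf K2_ok TE_l6684 _))
                    (CovZ.badM (by decide +kernel))))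
                  (CovZ.badM (by decide +kernel)))
                 (CovZ.n1 (1960, 32280) (by decide +kernel)
                  (CovZ.badM (by decide +kernel))
                  (CovZ.n1 (2000, 32280) (by decide +kernel)
                   (CovZ.n2 (1980, 32260) (by decide +kernel)
                    (CovZ.leaf K2_ok TE_l6687 _)
                    (CovZ.n1 (2000, 32260) (by decide +kernel)
                     (CovZ.leaf K2_ok TE_l6688 _)
                     (CovZ.leaf K2_ok TE_l6689 _)))
                   (CovZ.badM (by decide +kernel))))))
               (CovZ.n1 (2080, 32240) (by decide +kernel)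
                (CovZ.n2 (2040, 32200) (by decide +kernel)
                 (CovZ.subM 3213876088517980551083924184682325205049128354048455315816448 (by decide +kernel)
                  (CovZ.n2 (2040, 32240) (by decide +kernel)
                   (CovZ.n2 (2060, 32220) (by decide +kernel)
                    (CovZ.leaf K2_ok TE_l6690 _)
                    (CovZ.leaf K2_ok TE_l6691 _))
                   (CovZ.n1 (2020, 32220) (by decide +kernel)
                    (CovZ.leaf K2_ok TE_l6692 _)
                    (CovZ.leaf K2_ok TE_l6693 _))))
                 (CovZ.n1 (2080, 32200) (by decide +kernel)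
                  (CovZ.leaf K2_ok TE_l6694 _)
                  (CovZ.leaf K2_ok TE_l6695 _)))
                (CovZ.subM 3213876088517980551083924184682325205049128354048455315816448 (by decide +kernel)
                 (CovZ.n1 (2040, 32280) (by decide +kernel)
                  (CovZ.n2 (2080, 32280) (by decide +kernel)
                   (CovZ.n2 (2060, 32260) (by decide +kernel)
                    (CovZ.badM (by decide +kernel))
                    (CovZ.n1 (2080, 32260) (by decide +kernel)
                     (CovZ.leaf K2_ok TE_l6696 _)
                     (CovZ.badM (by decide +kernel))))
                   (CovZ.badM (by decide +kernel)))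
                  (CovZ.n1 (2040, 32240) (by decide +kernel)
                   (CovZ.n2 (2020, 32260) (by decide +kernel)
                    (CovZ.n2 (2040, 32260) (by decide +kernel)
                     (CovZ.leaf K2_ok TE_l6697 _)
                     (CovZ.badM (by decide +kernel)))
                    (CovZ.leaf K2_ok TE_l6699 _))
                   (CovZ.n1 (2060, 32260) (by decide +kernel)
                    (CovZ.leaf K2_ok TE_l6700 _)
                    (CovZ.n1 (2040, 32260) (by decide +kernel)
                     (CovZ.badM (by decide +kernel))
                     (CovZ.leaf K2_ok TE_l6701 _))))))))))))))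

theorem TE_u220 : CovZ TE_M (toL (selN TE_LN 10634268205967247650714527401332589823590378375416478817058886)) [0, 7, 6, 1] (2560, 30720) (2560, 32000) (1280, 32000) :=
    (CovZ.n2 (1920, 31360) (by decide +kernel)
      (CovZ.n2 (1920, 32000) (by decide +kernel)
       (CovZ.subM 4180557038862793418121280753119839722898091933964700739436610 (by decide +kernel)
        (CovZ.n2 (2240, 31680) (by decide +kernel)
         (CovZ.n2 (1920, 31680) (by decide +kernel)
          (CovZ.n2 (2080, 31840) (by decide +kernel)
           (CovZ.n2 (2080, 31680) (by decide +kernel)
            (CovZ.leaf K2_ok TE_l6268 _)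
            (CovZ.n1 (2160, 31760) (by decide +kernel)
             (CovZ.leaf K2_ok TE_l6269 _)
             (CovZ.leaf K2_ok TE_l6270 _)))
           (CovZ.n1 (1920, 31840) (by decide +kernel)
            (CovZ.n2 (2000, 31920) (by decide +kernel)
             (CovZ.leaf K2_ok TE_l6271 _)
             (CovZ.leaf K2_ok TE_l6272 _))
            (CovZ.leaf K2_ok TE_l6273 _)))
          (CovZ.n1 (2080, 31520) (by decide +kernel)
           (CovZ.n2 (1920, 31520) (by decide +kernel)
            (CovZ.leaf K2_ok TE_l6274 _)
            (CovZ.leaf K2_ok TE_l6275 _))
           (CovZ.n1 (2080, 31680) (by decide +kernel)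
            (CovZ.leaf K2_ok TE_l6276 _)
            (CovZ.leaf K2_ok TE_l6277 _))))
         (CovZ.n1 (2240, 32000) (by decide +kernel)
          (CovZ.subM 6132975318816896915461670840574375639185705084441854018 (by decide +kernel)
           (CovZ.n2 (2400, 31840) (by decide +kernel)
            (CovZ.n2 (2240, 31840) (by decide +kernel)
             (CovZ.n2 (2320, 31920) (by decide +kernel)
              (CovZ.leaf K2_ok TE_l6278 _)
              (CovZ.leaf K2_ok TE_l6279 _))
             (CovZ.leaf K2_ok TE_l6280 _))
            (CovZ.n1 (2400, 32000) (by decide +kernel)
             (CovZ.n2 (2480, 31920) (by decide +kernel)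
              (CovZ.leaf K2_ok TE_l6281 _)
              (CovZ.n1 (2480, 32000) (by decide +kernel)
               (CovZ.leaf K2_ok TE_l6282 _)
               (CovZ.leaf K2_ok TE_l6283 _)))
             (CovZ.n1 (2320, 31920) (by decide +kernel)
              (CovZ.leaf K2_ok TE_l6284 _)
              (CovZ.leaf K2_ok TE_l6285 _)))))
          (CovZ.n1 (2080, 31840) (by decide +kernel)
           (CovZ.subM 3226436421970917376173154280008372236301238900554311919468610 (by decide +kernel)
            (CovZ.n2 (2080, 32000) (by decide +kernel)
             (CovZ.n2 (2160, 31920) (by decide +kernel)
              (CovZ.leaf K2_ok TE_l6286 _)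
              (CovZ.leaf K2_ok TE_l6287 _))
             (CovZ.n1 (2000, 31920) (by decide +kernel)
              (CovZ.leaf K2_ok TE_l6288 _)
              (CovZ.leaf K2_ok TE_l6289 _))))
           (CovZ.subM 3226436424964072729508511225199581112252249884159598179385410 (by decide +kernel)
            (CovZ.n1 (2240, 31840) (by decide +kernel)
             (CovZ.n2 (2160, 31760) (by decide +kernel)
              (CovZ.leaf K2_ok TE_l6290 _)
              (CovZ.leaf K2_ok TE_l6291 _))
             (CovZ.n1 (2160, 31920) (by decide +kernel)
              (CovZ.leaf K2_ok TE_l6292 _)
              (CovZ.leaf K2_ok TE_l6293 _))))))))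
       (CovZ.subM 4168051875249327770623151976590159739335862481970272202129474 (by decide +kernel)
        (CovZ.n1 (1600, 31680) (by decide +kernel)
         (CovZ.n2 (1600, 32000) (by decide +kernel)
          (CovZ.n2 (1760, 31840) (by decide +kernel)
           (CovZ.n2 (1600, 31840) (by decide +kernel)
            (CovZ.leaf K2_ok TE_l6294 _)
            (CovZ.leaf K2_ok TE_l6295 _))
           (CovZ.n1 (1760, 32000) (by decide +kernel)
            (CovZ.leaf K2_ok TE_l6296 _)
            (CovZ.n1 (1680, 31920) (by decide +kernel)
             (CovZ.leaf K2_ok TE_l6297 _)
             (CovZ.leaf K2_ok TE_l6298 _))))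
          (CovZ.n1 (1440, 31840) (by decide +kernel)
           (CovZ.leaf K2_ok TE_l6299 _)
           (CovZ.leaf K2_ok TE_l6300 _)))
         (CovZ.n1 (1920, 31680) (by decide +kernel)
          (CovZ.n2 (1760, 31520) (by decide +kernel)
           (CovZ.leaf K2_ok TE_l6301 _)
           (CovZ.leaf K2_ok TE_l6302 _))
          (CovZ.n1 (1760, 31840) (by decide +kernel)
           (CovZ.n2 (1920, 31840) (by decide +kernel)
            (CovZ.leaf K2_ok TE_l6303 _)
            (CovZ.leaf K2_ok TE_l6304 _))
           (CovZ.n1 (1760, 31680) (by decide +kernel)
            (CovZ.leaf K2_ok TE_l6305 _)
            (CovZ.leaf K2_ok TE_l6306 _)))))))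
      (CovZ.n1 (2560, 31360) (by decide +kernel)
       (CovZ.n2 (2240, 31040) (by decide +kernel)
        (CovZ.n2 (2240, 31360) (by decide +kernel)
         (CovZ.subM 3226439489955155888533920712757227976565100252457385267822658 (by decide +kernel)
          (CovZ.n2 (2400, 31200) (by decide +kernel)
           (CovZ.n2 (2240, 31200) (by decide +kernel)
            (CovZ.n2 (2320, 31280) (by decide +kernel)
             (CovZ.leaf K2_ok TE_l6307 _)
             (CovZ.leaf K2_ok TE_l6308 _))
            (CovZ.leaf K2_ok TE_l6309 _))
           (CovZ.n1 (2400, 31360) (by decide +kernel)
            (CovZ.n2 (2480, 31280) (by decide +kernel)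
             (CovZ.leaf K2_ok TE_l6310 _)
             (CovZ.leaf K2_ok TE_l6311 _))
            (CovZ.n1 (2320, 31280) (by decide +kernel)
             (CovZ.leaf K2_ok TE_l6312 _)
             (CovZ.leaf K2_ok TE_l6313 _)))))
         (CovZ.n1 (2080, 31200) (by decide +kernel)
          (CovZ.n2 (2080, 31360) (by decide +kernel)
           (CovZ.leaf K2_ok TE_l6314 _)
           (CovZ.leaf K2_ok TE_l6315 _))
          (CovZ.n1 (2240, 31200) (by decide +kernel)
           (CovZ.n2 (2160, 31120) (by decide +kernel)
            (CovZ.leaf K2_ok TE_l6316 _)
            (CovZ.leaf K2_ok TE_l6317 _))
           (CovZ.leaf K2_ok TE_l6318 _))))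
        (CovZ.subM 3226451749919574159497120760965833218825623791404159957205058 (by decide +kernel)
         (CovZ.n1 (2560, 31040) (by decide +kernel)
          (CovZ.n2 (2400, 30880) (by decide +kernel)
           (CovZ.n2 (2400, 31040) (by decide +kernel)
            (CovZ.n2 (2480, 30960) (by decide +kernel)
             (CovZ.leaf K2_ok TE_l6319 _)
             (CovZ.leaf K2_ok TE_l6320 _))
            (CovZ.n1 (2320, 30960) (by decide +kernel)
             (CovZ.leaf K2_ok TE_l6321 _)
             (CovZ.leaf K2_ok TE_l6322 _)))
           (CovZ.n1 (2560, 30880) (by decide +kernel)
            (CovZ.n2 (2480, 30800) (by decide +kernel)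
             (CovZ.leaf K2_ok TE_l6323 _)
             (CovZ.leaf K2_ok TE_l6324 _))
            (CovZ.n1 (2480, 30960) (by decide +kernel)
             (CovZ.leaf K2_ok TE_l6325 _)
             (CovZ.leaf K2_ok TE_l6326 _))))
          (CovZ.n1 (2400, 31200) (by decide +kernel)
           (CovZ.n2 (2560, 31200) (by decide +kernel)
            (CovZ.n2 (2480, 31120) (by decide +kernel)
             (CovZ.leaf K2_ok TE_l6327 _)
             (CovZ.leaf K2_ok TE_l6328 _))
            (CovZ.n1 (2480, 31280) (by decide +kernel)
             (CovZ.leaf K2_ok TE_l6329 _)
             (CovZ.leaf K2_ok TE_l6330 _)))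
           (CovZ.n1 (2400, 31040) (by decide +kernel)
            (CovZ.leaf K2_ok TE_l6331 _)
            (CovZ.n1 (2480, 31120) (by decide +kernel)
             (CovZ.leaf K2_ok TE_l6332 _)
             (CovZ.leaf K2_ok TE_l6333 _)))))))
       (CovZ.n1 (2240, 31680) (by decide +kernel)
        (CovZ.subM 9197966401975922324949228487438687290515638080409436226 (by decide +kernel)
         (CovZ.n2 (2560, 31680) (by decide +kernel)
          (CovZ.n2 (2400, 31520) (by decide +kernel)
           (CovZ.n2 (2400, 31680) (by decide +kernel)
            (CovZ.n2 (2480, 31600) (by decide +kernel)
             (CovZ.leaf K2_ok TE_l6334 _)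
             (CovZ.leaf K2_ok TE_l6335 _))
            (CovZ.n1 (2320, 31600) (by decide +kernel)
             (CovZ.leaf K2_ok TE_l6336 _)
             (CovZ.leaf K2_ok TE_l6337 _)))
           (CovZ.n1 (2560, 31520) (by decide +kernel)
            (CovZ.n2 (2480, 31440) (by decide +kernel)
             (CovZ.leaf K2_ok TE_l6338 _)
             (CovZ.leaf K2_ok TE_l6339 _))
            (CovZ.n1 (2480, 31600) (by decide +kernel)
             (CovZ.leaf K2_ok TE_l6340 _)
             (CovZ.leaf K2_ok TE_l6341 _))))
          (CovZ.n1 (2400, 31840) (by decide +kernel)
           (CovZ.n2 (2560, 31840) (by decide +kernel)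
            (CovZ.n2 (2480, 31760) (by decide +kernel)
             (CovZ.leaf K2_ok TE_l6342 _)
             (CovZ.leaf K2_ok TE_l6343 _))
            (CovZ.n1 (2480, 31920) (by decide +kernel)
             (CovZ.leaf K2_ok TE_l6344 _)
             (CovZ.leaf K2_ok TE_l6345 _)))
           (CovZ.n1 (2400, 31680) (by decide +kernel)
            (CovZ.leaf K2_ok TE_l6346 _)
            (CovZ.n1 (2480, 31760) (by decide +kernel)
             (CovZ.leaf K2_ok TE_l6347 _)
             (CovZ.leaf K2_ok TE_l6348 _))))))
        (CovZ.n1 (2240, 31360) (by decide +kernel)
         (CovZ.subM 4180560103853876577146690217312149950081049649182052121051202 (by decide +kernel)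
          (CovZ.n2 (2080, 31520) (by decide +kernel)
           (CovZ.n2 (2240, 31520) (by decide +kernel)
            (CovZ.n2 (2160, 31440) (by decide +kernel)
             (CovZ.leaf K2_ok TE_l6349 _)
             (CovZ.leaf K2_ok TE_l6350 _))
            (CovZ.leaf K2_ok TE_l6351 _))
           (CovZ.n1 (2080, 31360) (by decide +kernel)
            (CovZ.leaf K2_ok TE_l6352 _)
            (CovZ.n1 (2160, 31440) (by decide +kernel)
             (CovZ.leaf K2_ok TE_l6353 _)
             (CovZ.leaf K2_ok TE_l6354 _)))))
         (CovZ.subM 12563401437175337449996528074902771519495226527008476364866 (by decide +kernel)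
          (CovZ.n1 (2400, 31520) (by decide +kernel)
           (CovZ.n2 (2400, 31360) (by decide +kernel)
            (CovZ.leaf K2_ok TE_l6355 _)
            (CovZ.n1 (2480, 31440) (by decide +kernel)
             (CovZ.leaf K2_ok TE_l6356 _)
             (CovZ.leaf K2_ok TE_l6357 _)))
           (CovZ.n1 (2240, 31520) (by decide +kernel)
            (CovZ.n2 (2320, 31600) (by decide +kernel)
             (CovZ.leaf K2_ok TE_l6358 _)
             (CovZ.leaf K2_ok TE_l6359 _))
            (CovZ.leaf K2_ok TE_l6360 _))))))))

theorem TE_u221 : CovZ TE_M (toL (selN TE_LN 10634268205967247650714527401332589823590378375416478817058886)) [0, 7, 6, 1] (2560, 32000) (2560, 33280) (1280, 32000) :=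
    (CovZ.subM 4180606075726945778810022092374630407089099215428260133339202 (by decide +kernel)
      (CovZ.n1 (1920, 32640) (by decide +kernel)
       (CovZ.subM 3226436421970917376167709761975368040536149676315937521795136 (by decide +kernel)
        (CovZ.n2 (2560, 32640) (by decide +kernel)
         (CovZ.n2 (2240, 32320) (by decide +kernel)
          (CovZ.subM 12554203470773361527671578846415332832204710888928069025792 (by decide +kernel)
           (CovZ.n2 (2240, 32640) (by decide +kernel)
            (CovZ.badM (by decide +kernel))
            (CovZ.n1 (2080, 32480) (by decide +kernel)
             (CovZ.n2 (2080, 32640) (by decide +kernel)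
              (CovZ.badM (by decide +kernel))
              (CovZ.n1 (2000, 32560) (by decide +kernel)
               (CovZ.n2 (2000, 32640) (by decide +kernel)
                (CovZ.n2 (2040, 32600) (by decide +kernel)
                 (CovZ.badM (by decide +kernel))
                 (CovZ.badM (by decide +kernel)))
                (CovZ.badM (by decide +kernel)))
               (CovZ.n1 (2080, 32560) (by decide +kernel)
                (CovZ.n2 (2040, 32520) (by decide +kernel)
                 (CovZ.n2 (2040, 32560) (by decide +kernel)
                  (CovZ.badM (by decide +kernel))
                  (CovZ.badM (by decide +kernel)))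
                 (CovZ.badM (by decide +kernel)))
                (CovZ.n1 (2040, 32600) (by decide +kernel)
                 (CovZ.badM (by decide +kernel))
                 (CovZ.n1 (2040, 32560) (by decide +kernel)
                  (CovZ.badM (by decide +kernel))
                  (CovZ.badM (by decide +kernel)))))))
             (CovZ.badM (by decide +kernel)))))
          (CovZ.n1 (2560, 32320) (by decide +kernel)
           (CovZ.n2 (2400, 32160) (by decide +kernel)
            (CovZ.subM 324518563334555650746009018957824 (by decide +kernel)
             (CovZ.n2 (2400, 32320) (by decide +kernel)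
              (CovZ.n2 (2480, 32240) (by decide +kernel)
               (CovZ.n2 (2400, 32240) (by decide +kernel)
                (CovZ.badM (by decide +kernel))
                (CovZ.n1 (2440, 32200) (by decide +kernel)
                 (CovZ.n2 (2400, 32200) (by decide +kernel)
                  (CovZ.badM (by decide +kernel))
                  (CovZ.n1 (2420, 32180) (by decide +kernel)
                   (CovZ.n2 (2400, 32180) (by decide +kernel)
                    (CovZ.n2 (2410, 32190) (by decide +kernel)
                     (CovZ.leaf K2_ok TE_l6361 _)
                     (CovZ.leaf K2_ok TE_l6362 _))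
                    (CovZ.leaf K2_ok TE_l6363 _))
                   (CovZ.n1 (2420, 32200) (by decide +kernel)
                    (CovZ.n2 (2430, 32190) (by decide +kernel)
                     (CovZ.leaf K2_ok TE_l6364 _)
                     (CovZ.leaf K2_ok TE_l17403 _))
                    (CovZ.n1 (2410, 32190) (by decide +kernel)
                     (CovZ.leaf K2_ok TE_l17404 _)
                     (CovZ.leaf K2_ok TE_l6365 _)))))
                 (CovZ.badM (by decide +kernel))))
               (CovZ.badM (by decide +kernel)))
              (CovZ.n1 (2320, 32240) (by decide +kernel)
               (CovZ.badM (by decide +kernel))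
               (CovZ.n1 (2400, 32240) (by decide +kernel)
                (CovZ.n2 (2360, 32200) (by decide +kernel)
                 (CovZ.badM (by decide +kernel))
                 (CovZ.n1 (2400, 32200) (by decide +kernel)
                  (CovZ.n2 (2380, 32180) (by decide +kernel)
                   (CovZ.n2 (2380, 32200) (by decide +kernel)
                    (CovZ.leaf K2_ok TE_l6368 _)
                    (CovZ.leaf K2_ok TE_l6369 _))
                   (CovZ.n1 (2400, 32180) (by decide +kernel)
                    (CovZ.leaf K2_ok TE_l6370 _)
                    (CovZ.leaf K2_ok TE_l6371 _)))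
                  (CovZ.n1 (2380, 32220) (by decide +kernel)
                   (CovZ.badM (by decide +kernel))
                   (CovZ.n1 (2380, 32200) (by decide +kernel)
                    (CovZ.n2 (2370, 32210) (by decide +kernel)
                     (CovZ.n2 (2380, 32210) (by decide +kernel)
                      (CovZ.leaf K2_ok TE_l17405 _)
                      (CovZ.badM (by decide +kernel)))
                     (CovZ.leaf K2_ok TE_l6372 _))
                    (CovZ.n1 (2390, 32210) (by decide +kernel)
                     (CovZ.leaf K2_ok TE_l17406 _)
                     (CovZ.leaf K2_ok TE_l17407 _))))))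
                (CovZ.badM (by decide +kernel))))))
            (CovZ.n1 (2560, 32160) (by decide +kernel)
             (CovZ.n2 (2480, 32080) (by decide +kernel)
              (CovZ.n2 (2480, 32160) (by decide +kernel)
               (CovZ.subM 158456330341191531365394284608 (by decide +kernel)
                (CovZ.n2 (2520, 32120) (by decide +kernel)
                 (CovZ.n2 (2480, 32120) (by decide +kernel)
                  (CovZ.n2 (2500, 32140) (by decide +kernel)
                   (CovZ.leaf K2_ok TE_l6373 _)
                   (CovZ.n1 (2480, 32140) (by decide +kernel)
                    (CovZ.leaf K2_ok TE_l6374 _)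
                    (CovZ.leaf K2_ok TE_l6375 _)))
                  (CovZ.leaf K2_ok TE_l6376 _))
                 (CovZ.subM 4722366482869647310848 (by decide +kernel)
                  (CovZ.n1 (2520, 32160) (by decide +kernel)
                   (CovZ.n2 (2540, 32140) (by decide +kernel)
                    (CovZ.leaf K2_ok TE_l6377 _)
                    (CovZ.n1 (2540, 32160) (by decide +kernel)
                     (CovZ.leaf K2_ok TE_l6378 _)
                     (CovZ.leaf K2_ok TE_l6379 _)))
                   (CovZ.n1 (2500, 32140) (by decide +kernel)
                    (CovZ.leaf K2_ok TE_l6380 _)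
                    (CovZ.leaf K2_ok TE_l6381 _))))))
               (CovZ.n1 (2440, 32120) (by decide +kernel)
                (CovZ.subM 324518563334555650746009018957888 (by decide +kernel)
                 (CovZ.n2 (2440, 32160) (by decide +kernel)
                  (CovZ.n2 (2460, 32140) (by decide +kernel)
                   (CovZ.leaf K2_ok TE_l6382 _)
                   (CovZ.leaf K2_ok TE_l6383 _))
                  (CovZ.n1 (2420, 32140) (by decide +kernel)
                   (CovZ.leaf K2_ok TE_l6384 _)
                   (CovZ.leaf K2_ok TE_l6385 _))))
                (CovZ.n1 (2480, 32120) (by decide +kernel)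
                 (CovZ.leaf K2_ok TE_l6386 _)
                 (CovZ.n1 (2460, 32140) (by decide +kernel)
                  (CovZ.leaf K2_ok TE_l6387 _)
                  (CovZ.leaf K2_ok TE_l6388 _)))))
              (CovZ.n1 (2560, 32080) (by decide +kernel)
               (CovZ.n2 (2520, 32040) (by decide +kernel)
                (CovZ.leaf K2_ok TE_l6389 _)
                (CovZ.leaf K2_ok TE_l6390 _))
               (CovZ.subM 158456330341191531365394284608 (by decide +kernel)
                (CovZ.n1 (2520, 32120) (by decide +kernel)
                 (CovZ.n2 (2560, 32120) (by decide +kernel)
                  (CovZ.n2 (2540, 32100) (by decide +kernel)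
                   (CovZ.leaf K2_ok TE_l6391 _)
                   (CovZ.leaf K2_ok TE_l6392 _))
                  (CovZ.n1 (2540, 32140) (by decide +kernel)
                   (CovZ.n2 (2560, 32140) (by decide +kernel)
                    (CovZ.leaf K2_ok TE_l6393 _)
                    (CovZ.leaf K2_ok TE_l6394 _))
                   (CovZ.leaf K2_ok TE_l6395 _)))
                 (CovZ.n1 (2520, 32080) (by decide +kernel)
                  (CovZ.leaf K2_ok TE_l6396 _)
                  (CovZ.n1 (2540, 32100) (by decide +kernel)
                   (CovZ.leaf K2_ok TE_l6397 _)
                   (CovZ.leaf K2_ok TE_l6398 _)))))))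
             (CovZ.subM 324518563334555650746009018957824 (by decide +kernel)
              (CovZ.n1 (2480, 32240) (by decide +kernel)
               (CovZ.badM (by decide +kernel))
               (CovZ.n1 (2480, 32160) (by decide +kernel)
                (CovZ.n2 (2440, 32200) (by decide +kernel)
                 (CovZ.n2 (2480, 32200) (by decide +kernel)
                  (CovZ.n2 (2460, 32180) (by decide +kernel)
                   (CovZ.badM (by decide +kernel))
                   (CovZ.n1 (2480, 32180) (by decide +kernel)
                    (CovZ.leaf K2_ok TE_l6399 _)
                    (CovZ.badM (by decide +kernel))))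
                  (CovZ.badM (by decide +kernel)))
                 (CovZ.n1 (2440, 32160) (by decide +kernel)
                  (CovZ.n2 (2420, 32180) (by decide +kernel)
                   (CovZ.n2 (2440, 32180) (by decide +kernel)
                    (CovZ.leaf K2_ok TE_l6400 _)
                    (CovZ.n1 (2430, 32190) (by decide +kernel)
                     (CovZ.leaf K2_ok TE_l17408 _)
                     (CovZ.leaf K2_ok TE_l6401 _)))
                   (CovZ.n1 (2420, 32160) (by decide +kernel)
                    (CovZ.leaf K2_ok TE_l6402 _)
                    (CovZ.leaf K2_ok TE_l6403 _)))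
                  (CovZ.n1 (2460, 32180) (by decide +kernel)
                   (CovZ.n2 (2460, 32160) (by decide +kernel)
                    (CovZ.leaf K2_ok TE_l6404 _)
                    (CovZ.n1 (2470, 32170) (by decide +kernel)
                     (CovZ.leaf K2_ok TE_l6405 _)
                     (CovZ.leaf K2_ok TE_l6406 _)))
                   (CovZ.n1 (2440, 32180) (by decide +kernel)
                    (CovZ.n2 (2450, 32190) (by decide +kernel)
                     (CovZ.leaf K2_ok TE_l17409 _)
                     (CovZ.leaf K2_ok TE_l17410 _))
                    (CovZ.leaf K2_ok TE_l6407 _)))))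
                (CovZ.n1 (2520, 32200) (by decide +kernel)
                 (CovZ.n2 (2520, 32160) (by decide +kernel)
                  (CovZ.n2 (2500, 32180) (by decide +kernel)
                   (CovZ.badM (by decide +kernel))
                   (CovZ.n1 (2500, 32160) (by decide +kernel)
                    (CovZ.leaf K2_ok TE_l6410 _)
                    (CovZ.n1 (2510, 32170) (by decide +kernel)
                     (CovZ.leaf K2_ok TE_l6411 _)
                     (CovZ.leaf K2_ok TE_l6412 _))))
                  (CovZ.badM (by decide +kernel)))
                 (CovZ.n1 (2480, 32200) (by decide +kernel)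
                  (CovZ.badM (by decide +kernel))
                  (CovZ.n1 (2500, 32180) (by decide +kernel)
                   (CovZ.n2 (2480, 32180) (by decide +kernel)
                    (CovZ.badM (by decide +kernel))
                    (CovZ.leaf K2_ok TE_l6415 _))
                   (CovZ.badM (by decide +kernel))))))))))
           (CovZ.n1 (2400, 32480) (by decide +kernel)
            (CovZ.badM (by decide +kernel))
            (CovZ.n1 (2400, 32320) (by decide +kernel)
             (CovZ.badM (by decide +kernel))
             (CovZ.badM (by decide +kernel))))))
         (CovZ.subM 12554203470773361527671578846415332832204710888928069025792 (by decide +kernel)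
          (CovZ.n1 (2240, 32960) (by decide +kernel)
           (CovZ.badM (by decide +kernel))
           (CovZ.n1 (2240, 32640) (by decide +kernel)
            (CovZ.n2 (2080, 32800) (by decide +kernel)
             (CovZ.badM (by decide +kernel))
             (CovZ.n1 (2080, 32640) (by decide +kernel)
              (CovZ.n2 (2000, 32720) (by decide +kernel)
               (CovZ.badM (by decide +kernel))
               (CovZ.n1 (2000, 32640) (by decide +kernel)
                (CovZ.badM (by decide +kernel))
                (CovZ.badM (by decide +kernel))))
              (CovZ.badM (by decide +kernel))))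
            (CovZ.badM (by decide +kernel)))))))
       (CovZ.n1 (1920, 32000) (by decide +kernel)
        TE_u218
        TE_u219)))

theorem TE_u222 : CovZ TE_M (toL (selN TE_LN 3238985645766543982608950616388962154924654857243720310325316)) [0, 7, 6, 1] (1280, 32000) (640, 32640) (0, 32000) :=
    (CovZ.n2 (640, 32000) (by decide +kernel)
        (CovZ.n2 (320, 32320) (by decide +kernel)
         (CovZ.n2 (640, 32320) (by decide +kernel)
          (CovZ.n2 (480, 32160) (by decide +kernel)
           (CovZ.n2 (480, 32320) (by decide +kernel)
            (CovZ.leaf K2_ok TE_l6775 _)
            (CovZ.n1 (400, 32240) (by decide +kernel)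
             (CovZ.leaf K2_ok TE_l6776 _)
             (CovZ.leaf K2_ok TE_l6777 _)))
           (CovZ.n1 (640, 32160) (by decide +kernel)
            (CovZ.leaf K2_ok TE_l6778 _)
            (CovZ.leaf K2_ok TE_l6779 _)))
          (CovZ.subM 25108790065431939527557749875825014191966134851820014534724 (by decide +kernel)
           (CovZ.n1 (480, 32480) (by decide +kernel)
            (CovZ.n2 (640, 32480) (by decide +kernel)
             (CovZ.n2 (560, 32400) (by decide +kernel)
              (CovZ.n2 (560, 32480) (by decide +kernel)
               (CovZ.leaf K2_ok TE_l6780 _)
               (CovZ.leaf K2_ok TE_l6781 _))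
              (CovZ.n1 (640, 32400) (by decide +kernel)
               (CovZ.leaf K2_ok TE_l6782 _)
               (CovZ.leaf K2_ok TE_l6783 _)))
             (CovZ.subM 2596148429267432261009390593638404 (by decide +kernel)
              (CovZ.n1 (560, 32560) (by decide +kernel)
               (CovZ.n2 (640, 32560) (by decide +kernel)
                (CovZ.n2 (600, 32520) (by decide +kernel)
                 (CovZ.leaf K2_ok TE_l17425 _)
                 (CovZ.leaf K2_ok TE_l17426 _))
                (CovZ.badM (by decide +kernel)))
               (CovZ.n1 (560, 32480) (by decide +kernel)
                (CovZ.leaf K2_ok TE_l6784 _)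
                (CovZ.n1 (600, 32520) (by decide +kernel)
                 (CovZ.leaf K2_ok TE_l6785 _)
                 (CovZ.leaf K2_ok TE_l6786 _))))))
            (CovZ.n1 (480, 32320) (by decide +kernel)
             (CovZ.n2 (400, 32400) (by decide +kernel)
              (CovZ.leaf K2_ok TE_l6787 _)
              (CovZ.leaf K2_ok TE_l6788 _))
             (CovZ.n1 (560, 32400) (by decide +kernel)
              (CovZ.leaf K2_ok TE_l6789 _)
              (CovZ.leaf K2_ok TE_l6790 _))))))
         (CovZ.n1 (320, 32000) (by decide +kernel)
          (CovZ.n2 (160, 32160) (by decide +kernel)
           (CovZ.leaf K2_ok TE_l6791 _)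
           (CovZ.leaf K2_ok TE_l6792 _))
          (CovZ.n1 (480, 32160) (by decide +kernel)
           (CovZ.n2 (480, 32000) (by decide +kernel)
            (CovZ.leaf K2_ok TE_l6793 _)
            (CovZ.leaf K2_ok TE_l6794 _))
           (CovZ.n1 (320, 32160) (by decide +kernel)
            (CovZ.leaf K2_ok TE_l6795 _)
            (CovZ.leaf K2_ok TE_l6796 _)))))
        (CovZ.n1 (960, 32320) (by decide +kernel)
         (CovZ.n2 (960, 32000) (by decide +kernel)
          (CovZ.n2 (800, 32160) (by decide +kernel)
           (CovZ.n2 (960, 32160) (by decide +kernel)
            (CovZ.n2 (880, 32080) (by decide +kernel)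
             (CovZ.leaf K2_ok TE_l6797 _)
             (CovZ.leaf K2_ok TE_l6798 _))
            (CovZ.n1 (880, 32240) (by decide +kernel)
             (CovZ.leaf K2_ok TE_l6799 _)
             (CovZ.leaf K2_ok TE_l6800 _)))
           (CovZ.n1 (800, 32000) (by decide +kernel)
            (CovZ.leaf K2_ok TE_l6801 _)
            (CovZ.leaf K2_ok TE_l6802 _)))
          (CovZ.n1 (1120, 32160) (by decide +kernel)
           (CovZ.n2 (1120, 32000) (by decide +kernel)
            (CovZ.leaf K2_ok TE_l6803 _)
            (CovZ.n1 (1200, 32080) (by decide +kernel)
             (CovZ.leaf K2_ok TE_l6804 _)
             (CovZ.leaf K2_ok TE_l6805 _)))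
           (CovZ.n1 (960, 32160) (by decide +kernel)
            (CovZ.n2 (1040, 32240) (by decide +kernel)
             (CovZ.leaf K2_ok TE_l6806 _)
             (CovZ.leaf K2_ok TE_l6807 _))
            (CovZ.leaf K2_ok TE_l6808 _))))
         (CovZ.n1 (640, 32320) (by decide +kernel)
          (CovZ.subM 383123885216472214592182915120365042448736370332532800 (by decide +kernel)
           (CovZ.n2 (800, 32480) (by decide +kernel)
            (CovZ.n2 (800, 32320) (by decide +kernel)
             (CovZ.n2 (720, 32400) (by decide +kernel)
              (CovZ.n2 (800, 32400) (by decide +kernel)
               (CovZ.n2 (760, 32360) (by decide +kernel)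
                (CovZ.leaf K2_ok TE_l6809 _)
                (CovZ.leaf K2_ok TE_l6810 _))
               (CovZ.n1 (760, 32440) (by decide +kernel)
                (CovZ.badM (by decide +kernel))
                (CovZ.leaf K2_ok TE_l6811 _)))
              (CovZ.n1 (720, 32320) (by decide +kernel)
               (CovZ.leaf K2_ok TE_l6812 _)
               (CovZ.leaf K2_ok TE_l6813 _)))
             (CovZ.n1 (880, 32400) (by decide +kernel)
              (CovZ.n2 (880, 32320) (by decide +kernel)
               (CovZ.leaf K2_ok TE_l6814 _)
               (CovZ.n1 (920, 32360) (by decide +kernel)
                (CovZ.leaf K2_ok TE_l6815 _)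
                (CovZ.leaf K2_ok TE_l6816 _)))
              (CovZ.n1 (800, 32400) (by decide +kernel)
               (CovZ.badM (by decide +kernel))
               (CovZ.n1 (840, 32360) (by decide +kernel)
                (CovZ.leaf K2_ok TE_l6817 _)
                (CovZ.leaf K2_ok TE_l6818 _)))))
            (CovZ.n1 (640, 32480) (by decide +kernel)
             (CovZ.badM (by decide +kernel))
             (CovZ.n1 (720, 32400) (by decide +kernel)
              (CovZ.n2 (640, 32400) (by decide +kernel)
               (CovZ.n2 (680, 32440) (by decide +kernel)
                (CovZ.leaf K2_ok TE_l6819 _)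
                (CovZ.leaf K2_ok TE_l6820 _))
               (CovZ.leaf K2_ok TE_l6821 _))
              (CovZ.subM 383123885216472214592182915120365024001992227903504384 (by decide +kernel)
               (CovZ.n1 (720, 32480) (by decide +kernel)
                (CovZ.n2 (760, 32440) (by decide +kernel)
                 (CovZ.leaf K2_ok TE_l6822 _)
                 (CovZ.badM (by decide +kernel)))
                (CovZ.n1 (680, 32440) (by decide +kernel)
                 (CovZ.leaf K2_ok TE_l6823 _)
                 (CovZ.leaf K2_ok TE_l6824 _))))))))
          (CovZ.n1 (800, 32160) (by decide +kernel)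
           (CovZ.n2 (640, 32160) (by decide +kernel)
            (CovZ.n2 (720, 32240) (by decide +kernel)
             (CovZ.leaf K2_ok TE_l6825 _)
             (CovZ.leaf K2_ok TE_l6826 _))
            (CovZ.leaf K2_ok TE_l6827 _))
           (CovZ.n1 (800, 32320) (by decide +kernel)
            (CovZ.n2 (880, 32240) (by decide +kernel)
             (CovZ.leaf K2_ok TE_l6828 _)
             (CovZ.leaf K2_ok TE_l6829 _))
            (CovZ.n1 (720, 32240) (by decide +kernel)
             (CovZ.n2 (720, 32320) (by decide +kernel)
              (CovZ.leaf K2_ok TE_l6830 _)
              (CovZ.leaf K2_ok TE_l6831 _))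
             (CovZ.leaf K2_ok TE_l6832 _)))))))

theorem TE_u223 : CovZ TE_M (toL (selN TE_LN 3238985645766543982608950616388962154924654857243720310325316)) [0, 7, 6, 1] (640, 32640) (0, 33280) (0, 32000) :=
    (CovZ.n1 (0, 32640) (by decide +kernel)
        (CovZ.subM 25108406941546723055343160289058323094355947124840275640320 (by decide +kernel)
         (CovZ.n2 (320, 32960) (by decide +kernel)
          (CovZ.n2 (320, 32640) (by decide +kernel)
           (CovZ.n2 (160, 32800) (by decide +kernel)
            (CovZ.n2 (320, 32800) (by decide +kernel)
             (CovZ.n2 (240, 32720) (by decide +kernel)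
              (CovZ.badM (by decide +kernel))
              (CovZ.n1 (320, 32720) (by decide +kernel)
               (CovZ.n2 (280, 32680) (by decide +kernel)
                (CovZ.badM (by decide +kernel))
                (CovZ.leaf K2_ok TE_l17427 _))
               (CovZ.badM (by decide +kernel))))
             (CovZ.badM (by decide +kernel)))
            (CovZ.n1 (160, 32640) (by decide +kernel)
             (CovZ.n2 (80, 32720) (by decide +kernel)
              (CovZ.n2 (160, 32720) (by decide +kernel)
               (CovZ.n2 (120, 32680) (by decide +kernel)
                (CovZ.leaf K2_ok TE_l6833 _)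
                (CovZ.leaf K2_ok TE_l6834 _))
               (CovZ.n1 (120, 32760) (by decide +kernel)
                (CovZ.leaf K2_ok TE_l6835 _)
                (CovZ.leaf K2_ok TE_l6836 _)))
              (CovZ.n1 (80, 32640) (by decide +kernel)
               (CovZ.leaf K2_ok TE_l6837 _)
               (CovZ.leaf K2_ok TE_l6838 _)))
             (CovZ.n1 (240, 32720) (by decide +kernel)
              (CovZ.n2 (240, 32640) (by decide +kernel)
               (CovZ.leaf K2_ok TE_l6839 _)
               (CovZ.n1 (280, 32680) (by decide +kernel)
                (CovZ.leaf K2_ok TE_l6840 _)
                (CovZ.leaf K2_ok TE_l6841 _)))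
              (CovZ.n1 (160, 32720) (by decide +kernel)
               (CovZ.n2 (200, 32760) (by decide +kernel)
                (CovZ.leaf K2_ok TE_l6842 _)
                (CovZ.leaf K2_ok TE_l6843 _))
               (CovZ.leaf K2_ok TE_l6844 _)))))
           (CovZ.n1 (480, 32800) (by decide +kernel)
            (CovZ.n2 (480, 32640) (by decide +kernel)
             (CovZ.n2 (400, 32720) (by decide +kernel)
              (CovZ.badM (by decide +kernel))
              (CovZ.n1 (400, 32640) (by decide +kernel)
               (CovZ.n2 (360, 32680) (by decide +kernel)
                (CovZ.badM (by decide +kernel))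
                (CovZ.leaf K2_ok TE_l17428 _))
               (CovZ.badM (by decide +kernel))))
             (CovZ.badM (by decide +kernel)))
            (CovZ.n1 (320, 32800) (by decide +kernel)
             (CovZ.badM (by decide +kernel))
             (CovZ.n1 (400, 32720) (by decide +kernel)
              (CovZ.n2 (320, 32720) (by decide +kernel)
               (CovZ.badM (by decide +kernel))
               (CovZ.n1 (360, 32680) (by decide +kernel)
                (CovZ.leaf K2_ok TE_l17429 _)
                (CovZ.badM (by decide +kernel))))
              (CovZ.badM (by decide +kernel))))))
          (CovZ.n1 (0, 32960) (by decide +kernel)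
           (CovZ.badM (by decide +kernel))
           (CovZ.n1 (160, 32800) (by decide +kernel)
            (CovZ.n2 (0, 32800) (by decide +kernel)
             (CovZ.n2 (80, 32880) (by decide +kernel)
              (CovZ.n2 (80, 32800) (by decide +kernel)
               (CovZ.n2 (40, 32840) (by decide +kernel)
                (CovZ.badM (by decide +kernel))
                (CovZ.leaf K2_ok TE_l6845 _))
               (CovZ.n1 (120, 32840) (by decide +kernel)
                (CovZ.leaf K2_ok TE_l19616 _)
                (CovZ.badM (by decide +kernel))))
              (CovZ.badM (by decide +kernel)))
             (CovZ.n1 (80, 32720) (by decide +kernel)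
              (CovZ.n2 (0, 32720) (by decide +kernel)
               (CovZ.n2 (40, 32760) (by decide +kernel)
                (CovZ.leaf K2_ok TE_l6846 _)
                (CovZ.leaf K2_ok TE_l6847 _))
               (CovZ.leaf K2_ok TE_l6848 _))
              (CovZ.n1 (80, 32800) (by decide +kernel)
               (CovZ.n2 (120, 32760) (by decide +kernel)
                (CovZ.leaf K2_ok TE_l6849 _)
                (CovZ.leaf K2_ok TE_l6850 _))
               (CovZ.n1 (40, 32760) (by decide +kernel)
                (CovZ.leaf K2_ok TE_l6851 _)
                (CovZ.leaf K2_ok TE_l6852 _)))))
            (CovZ.badM (by decide +kernel))))))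
        (CovZ.n1 (320, 32320) (by decide +kernel)
         (CovZ.n2 (0, 32320) (by decide +kernel)
          (CovZ.subM 25108790065431939527557749875825014191966134851820014534660 (by decide +kernel)
           (CovZ.n2 (160, 32480) (by decide +kernel)
            (CovZ.n2 (160, 32320) (by decide +kernel)
             (CovZ.leaf K2_ok TE_l6853 _)
             (CovZ.n1 (240, 32400) (by decide +kernel)
              (CovZ.leaf K2_ok TE_l6854 _)
              (CovZ.leaf K2_ok TE_l6855 _)))
            (CovZ.n1 (0, 32480) (by decide +kernel)
             (CovZ.n2 (80, 32560) (by decide +kernel)
              (CovZ.leaf K2_ok TE_l6856 _)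
              (CovZ.leaf K2_ok TE_l6857 _))
             (CovZ.leaf K2_ok TE_l6858 _))))
          (CovZ.n1 (160, 32160) (by decide +kernel)
           (CovZ.leaf K2_ok TE_l6859 _)
           (CovZ.n1 (160, 32320) (by decide +kernel)
            (CovZ.leaf K2_ok TE_l6860 _)
            (CovZ.leaf K2_ok TE_l6861 _))))
         (CovZ.subM 25108790065431939527557749875825014191966134851820014534724 (by decide +kernel)
          (CovZ.n1 (320, 32640) (by decide +kernel)
           (CovZ.n2 (480, 32480) (by decide +kernel)
            (CovZ.n2 (320, 32480) (by decide +kernel)
             (CovZ.n2 (400, 32560) (by decide +kernel)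
              (CovZ.n2 (400, 32480) (by decide +kernel)
               (CovZ.leaf K2_ok TE_l6862 _)
               (CovZ.leaf K2_ok TE_l6863 _))
              (CovZ.n1 (320, 32560) (by decide +kernel)
               (CovZ.n2 (360, 32600) (by decide +kernel)
                (CovZ.leaf K2_ok TE_l6864 _)
                (CovZ.leaf K2_ok TE_l6865 _))
               (CovZ.leaf K2_ok TE_l6866 _)))
             (CovZ.n1 (400, 32400) (by decide +kernel)
              (CovZ.leaf K2_ok TE_l6867 _)
              (CovZ.leaf K2_ok TE_l6868 _)))
            (CovZ.subM 2596148429267432261009390593638404 (by decide +kernel)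
             (CovZ.n1 (480, 32640) (by decide +kernel)
              (CovZ.n2 (560, 32560) (by decide +kernel)
               (CovZ.n2 (480, 32560) (by decide +kernel)
                (CovZ.badM (by decide +kernel))
                (CovZ.leaf K2_ok TE_l6869 _))
               (CovZ.badM (by decide +kernel)))
              (CovZ.n1 (400, 32560) (by decide +kernel)
               (CovZ.n2 (400, 32640) (by decide +kernel)
                (CovZ.n2 (440, 32600) (by decide +kernel)
                 (CovZ.leaf K2_ok TE_l6870 _)
                 (CovZ.badM (by decide +kernel)))
                (CovZ.n1 (360, 32600) (by decide +kernel)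
                 (CovZ.leaf K2_ok TE_l17430 _)
                 (CovZ.leaf K2_ok TE_l6871 _)))
               (CovZ.n1 (480, 32560) (by decide +kernel)
                (CovZ.n2 (440, 32520) (by decide +kernel)
                 (CovZ.leaf K2_ok TE_l6872 _)
                 (CovZ.leaf K2_ok TE_l6873 _))
                (CovZ.n1 (440, 32600) (by decide +kernel)
                 (CovZ.badM (by decide +kernel))
                 (CovZ.leaf K2_ok TE_l6874 _)))))))
           (CovZ.n1 (160, 32480) (by decide +kernel)
            (CovZ.n2 (160, 32640) (by decide +kernel)
             (CovZ.n2 (240, 32560) (by decide +kernel)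
              (CovZ.leaf K2_ok TE_l6875 _)
              (CovZ.n1 (240, 32640) (by decide +kernel)
               (CovZ.leaf K2_ok TE_l6876 _)
               (CovZ.leaf K2_ok TE_l6877 _)))
             (CovZ.n1 (80, 32560) (by decide +kernel)
              (CovZ.leaf K2_ok TE_l6878 _)
              (CovZ.leaf K2_ok TE_l6879 _)))
            (CovZ.n1 (320, 32480) (by decide +kernel)
             (CovZ.n2 (240, 32400) (by decide +kernel)
              (CovZ.leaf K2_ok TE_l6880 _)
              (CovZ.leaf K2_ok TE_l6881 _))
             (CovZ.n1 (240, 32560) (by decide +kernel)
              (CovZ.leaf K2_ok TE_l6882 _)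
              (CovZ.leaf K2_ok TE_l6883 _))))))))

theorem TE_u224 : CovZ TE_M (toL (selN TE_LN 10584036064134857635195429444343055625422947316532420309680196)) [0, 7, 6, 1] (0, 30720) (1280, 32000) (0, 33280) :=
    (CovZ.n2 (0, 32000) (by decide +kernel)
     (CovZ.subM 3238985645766543982608950616388962154924654857243720310325316 (by decide +kernel)
      (CovZ.n2 (640, 32640) (by decide +kernel)
       TE_u222
       TE_u223))
     (CovZ.n1 (640, 31360) (by decide +kernel)
      (CovZ.n2 (0, 31360) (by decide +kernel)
       (CovZ.subM 9666737822802505084782945419082871912146700021366517124825092 (by decide +kernel)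
        (CovZ.n2 (320, 31680) (by decide +kernel)
         (CovZ.n2 (320, 31360) (by decide +kernel)
          (CovZ.leaf K2_ok TE_l6884 _)
          (CovZ.n1 (480, 31520) (by decide +kernel)
           (CovZ.leaf K2_ok TE_l6885 _)
           (CovZ.leaf K2_ok TE_l6886 _)))
         (CovZ.n1 (0, 31680) (by decide +kernel)
          (CovZ.n2 (160, 31840) (by decide +kernel)
           (CovZ.leaf K2_ok TE_l6887 _)
           (CovZ.leaf K2_ok TE_l6888 _))
          (CovZ.leaf K2_ok TE_l6889 _))))
       (CovZ.n1 (320, 31040) (by decide +kernel)
        (CovZ.n2 (0, 31040) (by decide +kernel)
         (CovZ.leaf K2_ok TE_l6890 _)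
         (CovZ.leaf K2_ok TE_l6891 _))
        (CovZ.n1 (320, 31360) (by decide +kernel)
         (CovZ.leaf K2_ok TE_l6892 _)
         (CovZ.n1 (160, 31200) (by decide +kernel)
          (CovZ.leaf K2_ok TE_l6893 _)
          (CovZ.leaf K2_ok TE_l6894 _)))))
      (CovZ.subM 3238991775748707446170509132381647808083118855885749412167748 (by decide +kernel)
       (CovZ.n1 (640, 32000) (by decide +kernel)
        (CovZ.n2 (960, 31680) (by decide +kernel)
         (CovZ.n2 (640, 31680) (by decide +kernel)
          (CovZ.n2 (800, 31840) (by decide +kernel)
           (CovZ.leaf K2_ok TE_l6895 _)
           (CovZ.leaf K2_ok TE_l6896 _))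
          (CovZ.leaf K2_ok TE_l6897 _))
         (CovZ.n1 (960, 32000) (by decide +kernel)
          (CovZ.n2 (1120, 31840) (by decide +kernel)
           (CovZ.leaf K2_ok TE_l6898 _)
           (CovZ.leaf K2_ok TE_l6899 _))
          (CovZ.n1 (800, 31840) (by decide +kernel)
           (CovZ.leaf K2_ok TE_l6900 _)
           (CovZ.leaf K2_ok TE_l6901 _))))
        (CovZ.n1 (320, 31680) (by decide +kernel)
         (CovZ.n2 (320, 32000) (by decide +kernel)
          (CovZ.leaf K2_ok TE_l6902 _)
          (CovZ.n1 (160, 31840) (by decide +kernel)
           (CovZ.leaf K2_ok TE_l6903 _)
           (CovZ.leaf K2_ok TE_l6904 _)))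
         (CovZ.n1 (640, 31680) (by decide +kernel)
          (CovZ.n2 (480, 31520) (by decide +kernel)
           (CovZ.leaf K2_ok TE_l6905 _)
           (CovZ.leaf K2_ok TE_l6906 _))
          (CovZ.n1 (480, 31840) (by decide +kernel)
           (CovZ.leaf K2_ok TE_l6907 _)
           (CovZ.leaf K2_ok TE_l6908 _))))))))

theorem TE_u225 : CovZ TE_M (toL (selN TE_LN 10584036064134857635195429444343055625422947316532420309680196)) [0, 7, 6, 1] (1280, 32000) (2560, 33280) (0, 33280) :=
    (CovZ.subM 4130383132048761078716132834201836682274759374130674034278468 (by decide +kernel)
     (CovZ.n1 (1280, 33280) (by decide +kernel)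
      (CovZ.n2 (1920, 32640) (by decide +kernel)
       (CovZ.n2 (1280, 32640) (by decide +kernel)
        (CovZ.subM 100433627766187605845218983751263191800622411858992743579648 (by decide +kernel)
         (CovZ.n2 (1600, 32960) (by decide +kernel)
          (CovZ.n2 (1600, 32640) (by decide +kernel)
           (CovZ.badM (by decide +kernel))
           (CovZ.n1 (1760, 32800) (by decide +kernel)
            (CovZ.n2 (1760, 32640) (by decide +kernel)
             (CovZ.badM (by decide +kernel))
             (CovZ.badM (by decide +kernel)))
            (CovZ.badM (by decide +kernel))))
          (CovZ.badM (by decide +kernel))))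
        (CovZ.n1 (1600, 32320) (by decide +kernel)
         (CovZ.n2 (1280, 32320) (by decide +kernel)
          (CovZ.n2 (1440, 32480) (by decide +kernel)
           (CovZ.n2 (1440, 32320) (by decide +kernel)
            (CovZ.badM (by decide +kernel))
            (CovZ.badM (by decide +kernel)))
           (CovZ.badM (by decide +kernel)))
          (CovZ.n1 (1440, 32160) (by decide +kernel)
           (CovZ.subM 3213877238637925049975251885165980602510028497868168833794112 (by decide +kernel)
            (CovZ.n2 (1280, 32160) (by decide +kernel)
             (CovZ.n2 (1360, 32240) (by decide +kernel)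
              (CovZ.n2 (1360, 32160) (by decide +kernel)
               (CovZ.leaf K3_ok TE_l6909 _)
               (CovZ.leaf K2_ok TE_l6910 _))
              (CovZ.n1 (1280, 32240) (by decide +kernel)
               (CovZ.n2 (1320, 32280) (by decide +kernel)
                (CovZ.leaf K2_ok TE_l6911 _)
                (CovZ.leaf K2_ok TE_l6912 _))
               (CovZ.leaf K2_ok TE_l6913 _)))
             (CovZ.leaf K2_ok TE_l6914 _)))
           (CovZ.subM 3213877238637925049975251882569673716918176450738092286935104 (by decide +kernel)
            (CovZ.n1 (1440, 32320) (by decide +kernel)
             (CovZ.n2 (1520, 32240) (by decide +kernel)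
              (CovZ.n2 (1440, 32240) (by decide +kernel)
               (CovZ.n2 (1480, 32280) (by decide +kernel)
                (CovZ.leaf K3_ok TE_l6915 _)
                (CovZ.leaf K3_ok TE_l6916 _))
               (CovZ.leaf K3_ok TE_l6917 _))
              (CovZ.n1 (1520, 32320) (by decide +kernel)
               (CovZ.n2 (1560, 32280) (by decide +kernel)
                (CovZ.leaf K3_ok TE_l6918 _)
                (CovZ.n1 (1560, 32320) (by decide +kernel)
                 (CovZ.leaf K3_ok TE_l6919 _)
                 (CovZ.leaf K3_ok TE_l6920 _)))
               (CovZ.n1 (1480, 32280) (by decide +kernel)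
                (CovZ.leaf K3_ok TE_l17431 _)
                (CovZ.leaf K3_ok TE_l6921 _))))
             (CovZ.n1 (1360, 32240) (by decide +kernel)
              (CovZ.subM 383123885227622587188852078261865616907010949423038528 (by decide +kernel)
               (CovZ.n2 (1360, 32320) (by decide +kernel)
                (CovZ.n2 (1400, 32280) (by decide +kernel)
                 (CovZ.leaf K2_ok TE_l6922 _)
                 (CovZ.leaf K3_ok TE_l17432 _))
                (CovZ.n1 (1320, 32280) (by decide +kernel)
                 (CovZ.leaf K2_ok TE_l17433 _)
                 (CovZ.leaf K2_ok TE_l6923 _))))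
              (CovZ.n1 (1440, 32240) (by decide +kernel)
               (CovZ.leaf K2_ok TE_l6924 _)
               (CovZ.n1 (1400, 32280) (by decide +kernel)
                (CovZ.leaf K3_ok TE_l6925 _)
                (CovZ.leaf K3_ok TE_l6926 _))))))))
         (CovZ.subM 100433627766187605845218983751263191805344778341862388793344 (by decide +kernel)
          (CovZ.n1 (1600, 32640) (by decide +kernel)
           (CovZ.n2 (1760, 32480) (by decide +kernel)
            (CovZ.n2 (1600, 32480) (by decide +kernel)
             (CovZ.n2 (1680, 32560) (by decide +kernel)
              (CovZ.n2 (1680, 32480) (by decide +kernel)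
               (CovZ.badM (by decide +kernel))
               (CovZ.badM (by decide +kernel)))
              (CovZ.badM (by decide +kernel)))
             (CovZ.n1 (1680, 32400) (by decide +kernel)
              (CovZ.badM (by decide +kernel))
              (CovZ.n1 (1680, 32480) (by decide +kernel)
               (CovZ.n2 (1720, 32440) (by decide +kernel)
                (CovZ.badM (by decide +kernel))
                (CovZ.badM (by decide +kernel)))
               (CovZ.badM (by decide +kernel)))))
            (CovZ.n1 (1760, 32640) (by decide +kernel)
             (CovZ.badM (by decide +kernel))
             (CovZ.n1 (1680, 32560) (by decide +kernel)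
              (CovZ.badM (by decide +kernel))
              (CovZ.badM (by decide +kernel)))))
           (CovZ.badM (by decide +kernel))))))
       (CovZ.subM 916456853366456105143871608768259825893928619639317230256128 (by decide +kernel)
        (CovZ.n1 (1920, 33280) (by decide +kernel)
         (CovZ.n2 (2240, 32960) (by decide +kernel)
          (CovZ.n2 (1920, 32960) (by decide +kernel)
           (CovZ.n2 (2080, 33120) (by decide +kernel)
            (CovZ.n2 (2080, 32960) (by decide +kernel)
             (CovZ.n2 (2000, 33040) (by decide +kernel)
              (CovZ.badM (by decide +kernel))
              (CovZ.n1 (2000, 32960) (by decide +kernel)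
               (CovZ.badM (by decide +kernel))
               (CovZ.badM (by decide +kernel))))
             (CovZ.badM (by decide +kernel)))
            (CovZ.n1 (1920, 33120) (by decide +kernel)
             (CovZ.badM (by decide +kernel))
             (CovZ.n1 (2000, 33040) (by decide +kernel)
              (CovZ.badM (by decide +kernel))
              (CovZ.badM (by decide +kernel)))))
           (CovZ.n1 (2080, 32800) (by decide +kernel)
            (CovZ.n2 (1920, 32800) (by decide +kernel)
             (CovZ.n2 (2000, 32880) (by decide +kernel)
              (CovZ.n2 (2000, 32800) (by decide +kernel)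
               (CovZ.badM (by decide +kernel))
               (CovZ.badM (by decide +kernel)))
              (CovZ.badM (by decide +kernel)))
             (CovZ.n1 (2000, 32720) (by decide +kernel)
              (CovZ.badM (by decide +kernel))
              (CovZ.n1 (2000, 32800) (by decide +kernel)
               (CovZ.badM (by decide +kernel))
               (CovZ.badM (by decide +kernel)))))
            (CovZ.n1 (2080, 32960) (by decide +kernel)
             (CovZ.badM (by decide +kernel))
             (CovZ.n1 (2000, 32880) (by decide +kernel)
              (CovZ.n2 (2000, 32960) (by decide +kernel)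
               (CovZ.badM (by decide +kernel))
               (CovZ.badM (by decide +kernel)))
              (CovZ.badM (by decide +kernel))))))
          (CovZ.badM (by decide +kernel)))
         (CovZ.n1 (1600, 32960) (by decide +kernel)
          (CovZ.badM (by decide +kernel))
          (CovZ.badM (by decide +kernel))))))
      (CovZ.n1 (640, 32640) (by decide +kernel)
       (CovZ.badM (by decide +kernel))
       (CovZ.subM 3213877238824997259553607458696052261097712724384128199295040 (by decide +kernel)
        (CovZ.n1 (1280, 32640) (by decide +kernel)
         (CovZ.n2 (960, 32320) (by decide +kernel)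
          (CovZ.subM 383123885216472214589586766691097610187726979738894400 (by decide +kernel)
           (CovZ.n2 (960, 32640) (by decide +kernel)
            (CovZ.n2 (1120, 32480) (by decide +kernel)
             (CovZ.n2 (960, 32480) (by decide +kernel)
              (CovZ.badM (by decide +kernel))
              (CovZ.n1 (1040, 32400) (by decide +kernel)
               (CovZ.n2 (960, 32400) (by decide +kernel)
                (CovZ.badM (by decide +kernel))
                (CovZ.n1 (1000, 32360) (by decide +kernel)
                 (CovZ.leaf K2_ok TE_l6927 _)
                 (CovZ.badM (by decide +kernel))))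
               (CovZ.badM (by decide +kernel))))
             (CovZ.badM (by decide +kernel)))
            (CovZ.n1 (800, 32480) (by decide +kernel)
             (CovZ.badM (by decide +kernel))
             (CovZ.n1 (960, 32480) (by decide +kernel)
              (CovZ.n2 (880, 32400) (by decide +kernel)
               (CovZ.badM (by decide +kernel))
               (CovZ.n1 (960, 32400) (by decide +kernel)
                (CovZ.n2 (920, 32360) (by decide +kernel)
                 (CovZ.leaf K2_ok TE_l17434 _)
                 (CovZ.leaf K2_ok TE_l6928 _))
                (CovZ.badM (by decide +kernel))))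
              (CovZ.badM (by decide +kernel))))))
          (CovZ.n1 (1280, 32320) (by decide +kernel)
           (CovZ.n2 (1120, 32160) (by decide +kernel)
            (CovZ.n2 (1120, 32320) (by decide +kernel)
             (CovZ.n2 (1200, 32240) (by decide +kernel)
              (CovZ.n2 (1120, 32240) (by decide +kernel)
               (CovZ.leaf K2_ok TE_l6929 _)
               (CovZ.leaf K2_ok TE_l6930 _))
              (CovZ.n1 (1200, 32320) (by decide +kernel)
               (CovZ.leaf K2_ok TE_l6931 _)
               (CovZ.n1 (1160, 32280) (by decide +kernel)
                (CovZ.leaf K2_ok TE_l17435 _)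
                (CovZ.leaf K2_ok TE_l6932 _))))
             (CovZ.n1 (1040, 32240) (by decide +kernel)
              (CovZ.n2 (1040, 32320) (by decide +kernel)
               (CovZ.leaf K2_ok TE_l6933 _)
               (CovZ.leaf K2_ok TE_l6934 _))
              (CovZ.n1 (1120, 32240) (by decide +kernel)
               (CovZ.leaf K2_ok TE_l6935 _)
               (CovZ.leaf K2_ok TE_l6936 _))))
            (CovZ.n1 (1280, 32160) (by decide +kernel)
             (CovZ.n2 (1200, 32080) (by decide +kernel)
              (CovZ.leaf K2_ok TE_l6937 _)
              (CovZ.leaf K2_ok TE_l6938 _))
             (CovZ.n1 (1200, 32240) (by decide +kernel)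
              (CovZ.n2 (1280, 32240) (by decide +kernel)
               (CovZ.leaf K2_ok TE_l6939 _)
               (CovZ.leaf K2_ok TE_l6940 _))
              (CovZ.leaf K2_ok TE_l6941 _))))
           (CovZ.subM 383310957426050570163116838349685294414242939104395328 (by decide +kernel)
            (CovZ.n1 (1120, 32480) (by decide +kernel)
             (CovZ.badM (by decide +kernel))
             (CovZ.n1 (1120, 32320) (by decide +kernel)
              (CovZ.n2 (1040, 32400) (by decide +kernel)
               (CovZ.n2 (1120, 32400) (by decide +kernel)
                (CovZ.n2 (1080, 32360) (by decide +kernel)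
                 (CovZ.badM (by decide +kernel))
                 (CovZ.leaf K2_ok TE_l17436 _))
                (CovZ.badM (by decide +kernel)))
               (CovZ.n1 (1040, 32320) (by decide +kernel)
                (CovZ.n2 (1000, 32360) (by decide +kernel)
                 (CovZ.leaf K2_ok TE_l17437 _)
                 (CovZ.leaf K2_ok TE_l6942 _))
                (CovZ.n1 (1080, 32360) (by decide +kernel)
                 (CovZ.leaf K2_ok TE_l17438 _)
                 (CovZ.leaf K2_ok TE_l17439 _))))
              (CovZ.n1 (1200, 32400) (by decide +kernel)
               (CovZ.n2 (1200, 32320) (by decide +kernel)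
                (CovZ.n2 (1160, 32360) (by decide +kernel)
                 (CovZ.badM (by decide +kernel))
                 (CovZ.leaf K2_ok TE_l17440 _))
                (CovZ.badM (by decide +kernel)))
               (CovZ.n1 (1120, 32400) (by decide +kernel)
                (CovZ.badM (by decide +kernel))
                (CovZ.n1 (1160, 32360) (by decide +kernel)
                 (CovZ.leaf K2_ok TE_l17441 _)
                 (CovZ.badM (by decide +kernel))))))))))
         (CovZ.badM (by decide +kernel)))))))

theorem TE_u226 : CovZ TE_M (toL (selN TE_LN 23527606131791260517107193899778112)) [0, 7, 6, 1] (3200, 31360) (3360, 31200) (3520, 31360) :=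
    (CovZ.n2 (3360, 31360) (by decide +kernel)
            (CovZ.subM 154742504912361384222785536 (by decide +kernel)
             (CovZ.n2 (3440, 31280) (by decide +kernel)
              (CovZ.n2 (3360, 31280) (by decide +kernel)
               (CovZ.n2 (3400, 31320) (by decide +kernel)
                (CovZ.n2 (3400, 31280) (by decide +kernel)
                 (CovZ.n2 (3380, 31300) (by decide +kernel)
                  (CovZ.n2 (3400, 31300) (by decide +kernel)
                   (CovZ.leaf K2_ok TE_l11618 _)
                   (CovZ.leaf K2_ok TE_l11619 _))
                  (CovZ.n1 (3380, 31280) (by decide +kernel)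
                   (CovZ.leaf K2_ok TE_l11620 _)
                   (CovZ.n1 (3390, 31290) (by decide +kernel)
                    (CovZ.leaf K2_ok TE_l11621 _)
                    (CovZ.leaf K2_ok TE_l11622 _))))
                 (CovZ.n1 (3420, 31300) (by decide +kernel)
                  (CovZ.n2 (3420, 31280) (by decide +kernel)
                   (CovZ.n2 (3410, 31290) (by decide +kernel)
                    (CovZ.badM (by decide +kernel))
                    (CovZ.leaf K2_ok TE_l11624 _))
                   (CovZ.badM (by decide +kernel)))
                  (CovZ.n1 (3400, 31300) (by decide +kernel)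
                   (CovZ.n2 (3410, 31310) (by decide +kernel)
                    (CovZ.leaf K2_ok TE_l11627 _)
                    (CovZ.leaf K2_ok TE_l11628 _))
                   (CovZ.leaf K2_ok TE_l11629 _))))
                (CovZ.n1 (3360, 31320) (by decide +kernel)
                 (CovZ.n2 (3380, 31340) (by decide +kernel)
                  (CovZ.n2 (3380, 31320) (by decide +kernel)
                   (CovZ.leaf K2_ok TE_l11630 _)
                   (CovZ.n1 (3390, 31330) (by decide +kernel)
                    (CovZ.leaf K2_ok TE_l11631 _)
                    (CovZ.leaf K2_ok TE_l11632 _)))
                  (CovZ.n1 (3360, 31340) (by decide +kernel)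
                   (CovZ.n2 (3370, 31350) (by decide +kernel)
                    (CovZ.leaf K2_ok TE_l11633 _)
                    (CovZ.leaf K2_ok TE_l11634 _))
                   (CovZ.leaf K2_ok TE_l11635 _)))
                 (CovZ.n1 (3380, 31300) (by decide +kernel)
                  (CovZ.n2 (3360, 31300) (by decide +kernel)
                   (CovZ.leaf K2_ok TE_l11636 _)
                   (CovZ.leaf K2_ok TE_l11637 _))
                  (CovZ.n1 (3380, 31320) (by decide +kernel)
                   (CovZ.leaf K2_ok TE_l11638 _)
                   (CovZ.n1 (3370, 31310) (by decide +kernel)
                    (CovZ.leaf K2_ok TE_l11639 _)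
                    (CovZ.leaf K2_ok TE_l11640 _))))))
               (CovZ.n1 (3400, 31240) (by decide +kernel)
                (CovZ.n2 (3360, 31240) (by decide +kernel)
                 (CovZ.n2 (3380, 31260) (by decide +kernel)
                  (CovZ.n2 (3380, 31240) (by decide +kernel)
                   (CovZ.leaf K2_ok TE_l11641 _)
                   (CovZ.leaf K2_ok TE_l11642 _))
                  (CovZ.n1 (3360, 31260) (by decide +kernel)
                   (CovZ.leaf K2_ok TE_l11643 _)
                   (CovZ.leaf K2_ok TE_l11644 _)))
                 (CovZ.n1 (3380, 31220) (by decide +kernel)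
                  (CovZ.n2 (3360, 31220) (by decide +kernel)
                   (CovZ.leaf K2_ok TE_l11645 _)
                   (CovZ.leaf K2_ok TE_l11646 _))
                  (CovZ.n1 (3380, 31240) (by decide +kernel)
                   (CovZ.leaf K2_ok TE_l11647 _)
                   (CovZ.leaf K2_ok TE_l11648 _))))
                (CovZ.n1 (3400, 31280) (by decide +kernel)
                 (CovZ.n2 (3420, 31260) (by decide +kernel)
                  (CovZ.n2 (3400, 31260) (by decide +kernel)
                   (CovZ.n2 (3410, 31270) (by decide +kernel)
                    (CovZ.leaf K2_ok TE_l11649 _)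
                    (CovZ.leaf K2_ok TE_l11650 _))
                   (CovZ.leaf K2_ok TE_l11651 _))
                  (CovZ.n1 (3420, 31280) (by decide +kernel)
                   (CovZ.badM (by decide +kernel))
                   (CovZ.n1 (3410, 31270) (by decide +kernel)
                    (CovZ.leaf K2_ok TE_l11654 _)
                    (CovZ.badM (by decide +kernel)))))
                 (CovZ.n1 (3380, 31260) (by decide +kernel)
                  (CovZ.n2 (3380, 31280) (by decide +kernel)
                   (CovZ.leaf K2_ok TE_l11656 _)
                   (CovZ.leaf K2_ok TE_l11657 _))
                  (CovZ.n1 (3400, 31260) (by decide +kernel)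
                   (CovZ.n2 (3390, 31250) (by decide +kernel)
                    (CovZ.leaf K2_ok TE_l11658 _)
                    (CovZ.leaf K2_ok TE_l11659 _))
                   (CovZ.leaf K2_ok TE_l11660 _))))))
              (CovZ.n1 (3440, 31360) (by decide +kernel)
               (CovZ.badM (by decide +kernel))
               (CovZ.n1 (3400, 31320) (by decide +kernel)
                (CovZ.n2 (3400, 31360) (by decide +kernel)
                 (CovZ.n2 (3420, 31340) (by decide +kernel)
                  (CovZ.n2 (3400, 31340) (by decide +kernel)
                   (CovZ.n2 (3410, 31350) (by decide +kernel)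
                    (CovZ.leaf K2_ok TE_l11661 _)
                    (CovZ.leaf K2_ok TE_l11662 _))
                   (CovZ.n1 (3410, 31330) (by decide +kernel)
                    (CovZ.leaf K2_ok TE_l11663 _)
                    (CovZ.leaf K2_ok TE_l11664 _)))
                  (CovZ.n1 (3420, 31360) (by decide +kernel)
                   (CovZ.badM (by decide +kernel))
                   (CovZ.n1 (3410, 31350) (by decide +kernel)
                    (CovZ.leaf K2_ok TE_l11665 _)
                    (CovZ.badM (by decide +kernel)))))
                 (CovZ.n1 (3380, 31340) (by decide +kernel)
                  (CovZ.n2 (3380, 31360) (by decide +kernel)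
                   (CovZ.leaf K2_ok TE_l11667 _)
                   (CovZ.leaf K2_ok TE_l11668 _))
                  (CovZ.n1 (3400, 31340) (by decide +kernel)
                   (CovZ.n2 (3390, 31330) (by decide +kernel)
                    (CovZ.leaf K2_ok TE_l11669 _)
                    (CovZ.leaf K2_ok TE_l11670 _))
                   (CovZ.leaf K2_ok TE_l11671 _))))
                (CovZ.n1 (3440, 31320) (by decide +kernel)
                 (CovZ.n2 (3420, 31300) (by decide +kernel)
                  (CovZ.n2 (3420, 31320) (by decide +kernel)
                   (CovZ.badM (by decide +kernel))
                   (CovZ.n1 (3410, 31310) (by decide +kernel)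
                    (CovZ.leaf K2_ok TE_l11674 _)
                    (CovZ.badM (by decide +kernel))))
                  (CovZ.badM (by decide +kernel)))
                 (CovZ.n1 (3420, 31340) (by decide +kernel)
                  (CovZ.badM (by decide +kernel))
                  (CovZ.n1 (3420, 31320) (by decide +kernel)
                   (CovZ.n2 (3410, 31330) (by decide +kernel)
                    (CovZ.badM (by decide +kernel))
                    (CovZ.leaf K2_ok TE_l11679 _))
                   (CovZ.badM (by decide +kernel)))))))))
            (CovZ.n1 (3280, 31280) (by decide +kernel)
             (CovZ.n2 (3280, 31360) (by decide +kernel)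
              (CovZ.subM 162269339928326133064036830543936 (by decide +kernel)
               (CovZ.n2 (3320, 31320) (by decide +kernel)
                (CovZ.n2 (3280, 31320) (by decide +kernel)
                 (CovZ.n2 (3300, 31340) (by decide +kernel)
                  (CovZ.leaf K2_ok TE_l11682 _)
                  (CovZ.leaf K2_ok TE_l11683 _))
                 (CovZ.n1 (3300, 31300) (by decide +kernel)
                  (CovZ.leaf K2_ok TE_l11684 _)
                  (CovZ.leaf K2_ok TE_l11685 _)))
                (CovZ.subM 162269335092622852916670271455232 (by decide +kernel)
                 (CovZ.n1 (3320, 31360) (by decide +kernel)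
                  (CovZ.n2 (3340, 31340) (by decide +kernel)
                   (CovZ.n2 (3320, 31340) (by decide +kernel)
                    (CovZ.leaf K2_ok TE_l11686 _)
                    (CovZ.leaf K2_ok TE_l11687 _))
                   (CovZ.leaf K2_ok TE_l11688 _))
                  (CovZ.n1 (3300, 31340) (by decide +kernel)
                   (CovZ.leaf K2_ok TE_l11689 _)
                   (CovZ.leaf K2_ok TE_l11690 _))))))
              (CovZ.n1 (3240, 31320) (by decide +kernel)
               (CovZ.n2 (3240, 31360) (by decide +kernel)
                (CovZ.leaf K2_ok TE_l11691 _)
                (CovZ.n1 (3220, 31340) (by decide +kernel)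
                 (CovZ.leaf K2_ok TE_l11692 _)
                 (CovZ.leaf K2_ok TE_l11693 _)))
               (CovZ.n1 (3280, 31320) (by decide +kernel)
                (CovZ.n2 (3260, 31300) (by decide +kernel)
                 (CovZ.leaf K2_ok TE_l11694 _)
                 (CovZ.leaf K2_ok TE_l11695 _))
                (CovZ.leaf K2_ok TE_l11696 _))))
             (CovZ.subM 162269339928326133064036830543936 (by decide +kernel)
              (CovZ.n1 (3360, 31280) (by decide +kernel)
               (CovZ.n2 (3320, 31240) (by decide +kernel)
                (CovZ.n2 (3320, 31280) (by decide +kernel)
                 (CovZ.n2 (3340, 31260) (by decide +kernel)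
                  (CovZ.leaf K2_ok TE_l11697 _)
                  (CovZ.n1 (3340, 31280) (by decide +kernel)
                   (CovZ.leaf K2_ok TE_l11698 _)
                   (CovZ.leaf K2_ok TE_l11699 _)))
                 (CovZ.n1 (3300, 31260) (by decide +kernel)
                  (CovZ.leaf K2_ok TE_l11700 _)
                  (CovZ.leaf K2_ok TE_l11701 _)))
                (CovZ.subM 154743095208171742928437248 (by decide +kernel)
                 (CovZ.n1 (3360, 31240) (by decide +kernel)
                  (CovZ.n2 (3340, 31220) (by decide +kernel)
                   (CovZ.leaf K2_ok TE_l11702 _)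
                   (CovZ.n1 (3360, 31220) (by decide +kernel)
                    (CovZ.leaf K2_ok TE_l11703 _)
                    (CovZ.leaf K2_ok TE_l11704 _)))
                  (CovZ.n1 (3340, 31260) (by decide +kernel)
                   (CovZ.n2 (3360, 31260) (by decide +kernel)
                    (CovZ.leaf K2_ok TE_l11705 _)
                    (CovZ.leaf K2_ok TE_l11706 _))
                   (CovZ.leaf K2_ok TE_l11707 _)))))
               (CovZ.n1 (3320, 31320) (by decide +kernel)
                (CovZ.subM 154743095207608792975015936 (by decide +kernel)
                 (CovZ.n2 (3360, 31320) (by decide +kernel)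
                  (CovZ.n2 (3340, 31300) (by decide +kernel)
                   (CovZ.leaf K2_ok TE_l11708 _)
                   (CovZ.leaf K2_ok TE_l11709 _))
                  (CovZ.n1 (3340, 31340) (by decide +kernel)
                   (CovZ.n2 (3360, 31340) (by decide +kernel)
                    (CovZ.leaf K2_ok TE_l11710 _)
                    (CovZ.leaf K2_ok TE_l11711 _))
                   (CovZ.n1 (3340, 31320) (by decide +kernel)
                    (CovZ.leaf K2_ok TE_l11712 _)
                    (CovZ.leaf K2_ok TE_l11713 _)))))
                (CovZ.n1 (3320, 31280) (by decide +kernel)
                 (CovZ.n2 (3300, 31300) (by decide +kernel)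
                  (CovZ.leaf K2_ok TE_l11714 _)
                  (CovZ.leaf K2_ok TE_l11715 _))
                 (CovZ.n1 (3340, 31300) (by decide +kernel)
                  (CovZ.n2 (3340, 31280) (by decide +kernel)
                   (CovZ.leaf K2_ok TE_l11716 _)
                   (CovZ.leaf K2_ok TE_l11717 _))
                  (CovZ.leaf K2_ok TE_l11718 _))))))))

theorem TE_u227 : CovZ TE_M (toL (selN TE_LN 23527606131791260517107193899778112)) [0, 7, 6, 1] (3360, 31200) (3520, 31040) (3520, 31360) :=
    (CovZ.subM 154742504912361384222785536 (by decide +kernel)
            (CovZ.n1 (3520, 31200) (by decide +kernel)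
             (CovZ.n2 (3440, 31120) (by decide +kernel)
              (CovZ.n2 (3440, 31200) (by decide +kernel)
               (CovZ.badM (by decide +kernel))
               (CovZ.n1 (3400, 31160) (by decide +kernel)
                (CovZ.n2 (3400, 31200) (by decide +kernel)
                 (CovZ.n2 (3420, 31180) (by decide +kernel)
                  (CovZ.n2 (3400, 31180) (by decide +kernel)
                   (CovZ.n2 (3410, 31190) (by decide +kernel)
                    (CovZ.leaf K2_ok TE_l11719 _)
                    (CovZ.leaf K2_ok TE_l11720 _))
                   (CovZ.n1 (3410, 31170) (by decide +kernel)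
                    (CovZ.leaf K2_ok TE_l11721 _)
                    (CovZ.leaf K2_ok TE_l11722 _)))
                  (CovZ.n1 (3420, 31200) (by decide +kernel)
                   (CovZ.n2 (3430, 31190) (by decide +kernel)
                    (CovZ.leaf K2_ok TE_l18255 _)
                    (CovZ.badM (by decide +kernel)))
                   (CovZ.n1 (3410, 31190) (by decide +kernel)
                    (CovZ.leaf K2_ok TE_l11723 _)
                    (CovZ.leaf K2_ok TE_l18256 _))))
                 (CovZ.n1 (3380, 31180) (by decide +kernel)
                  (CovZ.n2 (3380, 31200) (by decide +kernel)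
                   (CovZ.leaf K2_ok TE_l11724 _)
                   (CovZ.leaf K2_ok TE_l11725 _))
                  (CovZ.n1 (3400, 31180) (by decide +kernel)
                   (CovZ.n2 (3390, 31170) (by decide +kernel)
                    (CovZ.leaf K2_ok TE_l11726 _)
                    (CovZ.leaf K2_ok TE_l11727 _))
                   (CovZ.leaf K2_ok TE_l11728 _))))
                (CovZ.n1 (3440, 31160) (by decide +kernel)
                 (CovZ.n2 (3420, 31140) (by decide +kernel)
                  (CovZ.n2 (3420, 31160) (by decide +kernel)
                   (CovZ.badM (by decide +kernel))
                   (CovZ.n1 (3410, 31150) (by decide +kernel)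
                    (CovZ.leaf K2_ok TE_l11729 _)
                    (CovZ.badM (by decide +kernel))))
                  (CovZ.badM (by decide +kernel)))
                 (CovZ.n1 (3420, 31180) (by decide +kernel)
                  (CovZ.badM (by decide +kernel))
                  (CovZ.n1 (3420, 31160) (by decide +kernel)
                   (CovZ.n2 (3410, 31170) (by decide +kernel)
                    (CovZ.leaf K2_ok TE_l18257 _)
                    (CovZ.leaf K2_ok TE_l11731 _))
                   (CovZ.badM (by decide +kernel)))))))
              (CovZ.badM (by decide +kernel)))
             (CovZ.n1 (3440, 31280) (by decide +kernel)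
              (CovZ.badM (by decide +kernel))
              (CovZ.n1 (3440, 31200) (by decide +kernel)
               (CovZ.n2 (3400, 31240) (by decide +kernel)
                (CovZ.n2 (3440, 31240) (by decide +kernel)
                 (CovZ.n2 (3420, 31220) (by decide +kernel)
                  (CovZ.n2 (3420, 31240) (by decide +kernel)
                   (CovZ.n2 (3430, 31230) (by decide +kernel)
                    (CovZ.leaf K2_ok TE_l18258 _)
                    (CovZ.leaf K2_ok TE_l18259 _))
                   (CovZ.n1 (3410, 31230) (by decide +kernel)
                    (CovZ.leaf K2_ok TE_l11732 _)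
                    (CovZ.leaf K2_ok TE_l18260 _)))
                  (CovZ.n1 (3440, 31220) (by decide +kernel)
                   (CovZ.n2 (3430, 31210) (by decide +kernel)
                    (CovZ.n2 (3430, 31220) (by decide +kernel)
                     (CovZ.badM (by decide +kernel))
                     (CovZ.leaf K2_ok TE_l18261 _))
                    (CovZ.badM (by decide +kernel)))
                   (CovZ.n1 (3430, 31230) (by decide +kernel)
                    (CovZ.badM (by decide +kernel))
                    (CovZ.n1 (3430, 31220) (by decide +kernel)
                     (CovZ.leaf K2_ok TE_l18262 _)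
                     (CovZ.badM (by decide +kernel))))))
                 (CovZ.n1 (3420, 31260) (by decide +kernel)
                  (CovZ.badM (by decide +kernel))
                  (CovZ.n1 (3420, 31240) (by decide +kernel)
                   (CovZ.leaf K2_ok TE_l11734 _)
                   (CovZ.n1 (3430, 31250) (by decide +kernel)
                    (CovZ.leaf K2_ok TE_l18263 _)
                    (CovZ.leaf K2_ok TE_l18264 _)))))
                (CovZ.n1 (3400, 31200) (by decide +kernel)
                 (CovZ.n2 (3380, 31220) (by decide +kernel)
                  (CovZ.n2 (3400, 31220) (by decide +kernel)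
                   (CovZ.n2 (3390, 31210) (by decide +kernel)
                    (CovZ.leaf K2_ok TE_l11735 _)
                    (CovZ.leaf K2_ok TE_l11736 _))
                   (CovZ.leaf K2_ok TE_l11737 _))
                  (CovZ.n1 (3380, 31200) (by decide +kernel)
                   (CovZ.leaf K2_ok TE_l11738 _)
                   (CovZ.n1 (3390, 31210) (by decide +kernel)
                    (CovZ.leaf K2_ok TE_l11739 _)
                    (CovZ.leaf K2_ok TE_l11740 _))))
                 (CovZ.n1 (3420, 31220) (by decide +kernel)
                  (CovZ.n2 (3420, 31200) (by decide +kernel)
                   (CovZ.n2 (3410, 31210) (by decide +kernel)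
                    (CovZ.leaf K2_ok TE_l18265 _)
                    (CovZ.leaf K2_ok TE_l11741 _))
                   (CovZ.n1 (3430, 31210) (by decide +kernel)
                    (CovZ.badM (by decide +kernel))
                    (CovZ.leaf K2_ok TE_l18266 _)))
                  (CovZ.n1 (3400, 31220) (by decide +kernel)
                   (CovZ.n2 (3410, 31230) (by decide +kernel)
                    (CovZ.leaf K2_ok TE_l11742 _)
                    (CovZ.leaf K2_ok TE_l11743 _))
                   (CovZ.n1 (3410, 31210) (by decide +kernel)
                    (CovZ.leaf K2_ok TE_l11744 _)
                    (CovZ.leaf K2_ok TE_l11745 _))))))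
               (CovZ.badM (by decide +kernel))))))

theorem TE_u228 : CovZ TE_M (toL (selN TE_LN 23527606131791260517107193899778112)) [0, 7, 6, 1] (3520, 31680) (3360, 31520) (3520, 31360) :=
    (CovZ.subM 154742504910672534364618752 (by decide +kernel)
            (CovZ.n2 (3520, 31520) (by decide +kernel)
             (CovZ.n2 (3440, 31440) (by decide +kernel)
              (CovZ.n2 (3440, 31520) (by decide +kernel)
               (CovZ.badM (by decide +kernel))
               (CovZ.n1 (3400, 31480) (by decide +kernel)
                (CovZ.n2 (3400, 31520) (by decide +kernel)
                 (CovZ.n2 (3420, 31500) (by decide +kernel)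
                  (CovZ.n2 (3400, 31500) (by decide +kernel)
                   (CovZ.n2 (3410, 31510) (by decide +kernel)
                    (CovZ.leaf K2_ok TE_l11747 _)
                    (CovZ.leaf K2_ok TE_l11748 _))
                   (CovZ.leaf K2_ok TE_l11749 _))
                  (CovZ.n1 (3420, 31520) (by decide +kernel)
                   (CovZ.badM (by decide +kernel))
                   (CovZ.n1 (3410, 31510) (by decide +kernel)
                    (CovZ.leaf K2_ok TE_l11752 _)
                    (CovZ.badM (by decide +kernel)))))
                 (CovZ.n1 (3380, 31500) (by decide +kernel)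
                  (CovZ.n2 (3380, 31520) (by decide +kernel)
                   (CovZ.leaf K2_ok TE_l11754 _)
                   (CovZ.leaf K2_ok TE_l11755 _))
                  (CovZ.n1 (3400, 31500) (by decide +kernel)
                   (CovZ.leaf K2_ok TE_l11756 _)
                   (CovZ.leaf K2_ok TE_l11757 _))))
                (CovZ.n1 (3440, 31480) (by decide +kernel)
                 (CovZ.n2 (3420, 31460) (by decide +kernel)
                  (CovZ.n2 (3420, 31480) (by decide +kernel)
                   (CovZ.badM (by decide +kernel))
                   (CovZ.n1 (3410, 31470) (by decide +kernel)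
                    (CovZ.leaf K2_ok TE_l11758 _)
                    (CovZ.badM (by decide +kernel))))
                  (CovZ.badM (by decide +kernel)))
                 (CovZ.n1 (3420, 31500) (by decide +kernel)
                  (CovZ.badM (by decide +kernel))
                  (CovZ.n1 (3420, 31480) (by decide +kernel)
                   (CovZ.leaf K2_ok TE_l11763 _)
                   (CovZ.badM (by decide +kernel)))))))
              (CovZ.badM (by decide +kernel)))
             (CovZ.n1 (3440, 31600) (by decide +kernel)
              (CovZ.badM (by decide +kernel))
              (CovZ.n1 (3440, 31520) (by decide +kernel)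
               (CovZ.n2 (3400, 31560) (by decide +kernel)
                (CovZ.n2 (3440, 31560) (by decide +kernel)
                 (CovZ.n2 (3420, 31540) (by decide +kernel)
                  (CovZ.n2 (3420, 31560) (by decide +kernel)
                   (CovZ.badM (by decide +kernel))
                   (CovZ.n1 (3410, 31550) (by decide +kernel)
                    (CovZ.leaf K2_ok TE_l11765 _)
                    (CovZ.badM (by decide +kernel))))
                  (CovZ.badM (by decide +kernel)))
                 (CovZ.n1 (3420, 31580) (by decide +kernel)
                  (CovZ.n2 (3440, 31580) (by decide +kernel)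
                   (CovZ.badM (by decide +kernel))
                   (CovZ.leaf K2_ok TE_l18267 _))
                  (CovZ.n1 (3420, 31560) (by decide +kernel)
                   (CovZ.n2 (3410, 31570) (by decide +kernel)
                    (CovZ.badM (by decide +kernel))
                    (CovZ.leaf K2_ok TE_l11770 _))
                   (CovZ.badM (by decide +kernel)))))
                (CovZ.n1 (3400, 31520) (by decide +kernel)
                 (CovZ.n2 (3380, 31540) (by decide +kernel)
                  (CovZ.n2 (3400, 31540) (by decide +kernel)
                   (CovZ.leaf K2_ok TE_l11771 _)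
                   (CovZ.leaf K2_ok TE_l11772 _))
                  (CovZ.n1 (3380, 31520) (by decide +kernel)
                   (CovZ.leaf K2_ok TE_l11773 _)
                   (CovZ.n1 (3390, 31530) (by decide +kernel)
                    (CovZ.leaf K2_ok TE_l11774 _)
                    (CovZ.leaf K2_ok TE_l11775 _))))
                 (CovZ.n1 (3420, 31540) (by decide +kernel)
                  (CovZ.n2 (3420, 31520) (by decide +kernel)
                   (CovZ.n2 (3410, 31530) (by decide +kernel)
                    (CovZ.badM (by decide +kernel))
                    (CovZ.leaf K2_ok TE_l11777 _))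
                   (CovZ.badM (by decide +kernel)))
                  (CovZ.n1 (3400, 31540) (by decide +kernel)
                   (CovZ.n2 (3410, 31550) (by decide +kernel)
                    (CovZ.leaf K2_ok TE_l11780 _)
                    (CovZ.leaf K2_ok TE_l11781 _))
                   (CovZ.n1 (3410, 31530) (by decide +kernel)
                    (CovZ.leaf K2_ok TE_l11782 _)
                    (CovZ.leaf K2_ok TE_l11783 _))))))
               (CovZ.n1 (3480, 31560) (by decide +kernel)
                (CovZ.badM (by decide +kernel))
                (CovZ.n1 (3440, 31560) (by decide +kernel)
                 (CovZ.n2 (3460, 31580) (by decide +kernel)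
                  (CovZ.badM (by decide +kernel))
                  (CovZ.n1 (3440, 31580) (by decide +kernel)
                   (CovZ.n2 (3450, 31590) (by decide +kernel)
                    (CovZ.badM (by decide +kernel))
                    (CovZ.leaf K2_ok TE_l18268 _))
                   (CovZ.badM (by decide +kernel))))
                 (CovZ.badM (by decide +kernel))))))))

theorem TE_u229 : CovZ TE_M (toL (selN TE_LN 23527606131791260517107193899778112)) [0, 7, 6, 1] (3360, 31520) (3200, 31360) (3520, 31360) :=
    (CovZ.n1 (3360, 31360) (by decide +kernel)
            (CovZ.n2 (3280, 31440) (by decide +kernel)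
             (CovZ.subM 162269335092622852916670271455232 (by decide +kernel)
              (CovZ.n2 (3360, 31440) (by decide +kernel)
               (CovZ.n2 (3320, 31400) (by decide +kernel)
                (CovZ.n2 (3320, 31440) (by decide +kernel)
                 (CovZ.n2 (3340, 31420) (by decide +kernel)
                  (CovZ.leaf K2_ok TE_l11784 _)
                  (CovZ.leaf K2_ok TE_l11785 _))
                 (CovZ.n1 (3300, 31420) (by decide +kernel)
                  (CovZ.leaf K2_ok TE_l11786 _)
                  (CovZ.leaf K2_ok TE_l11787 _)))
                (CovZ.n1 (3360, 31400) (by decide +kernel)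
                 (CovZ.n2 (3340, 31380) (by decide +kernel)
                  (CovZ.n2 (3340, 31400) (by decide +kernel)
                   (CovZ.leaf K2_ok TE_l11788 _)
                   (CovZ.leaf K2_ok TE_l11789 _))
                  (CovZ.leaf K2_ok TE_l11790 _))
                 (CovZ.n1 (3340, 31420) (by decide +kernel)
                  (CovZ.leaf K2_ok TE_l11791 _)
                  (CovZ.leaf K2_ok TE_l11792 _))))
               (CovZ.n1 (3320, 31480) (by decide +kernel)
                (CovZ.n2 (3360, 31480) (by decide +kernel)
                 (CovZ.n2 (3340, 31460) (by decide +kernel)
                  (CovZ.n2 (3340, 31480) (by decide +kernel)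
                   (CovZ.leaf K2_ok TE_l11793 _)
                   (CovZ.leaf K2_ok TE_l11794 _))
                  (CovZ.leaf K2_ok TE_l11795 _))
                 (CovZ.n1 (3340, 31500) (by decide +kernel)
                  (CovZ.leaf K2_ok TE_l11796 _)
                  (CovZ.leaf K2_ok TE_l11797 _)))
                (CovZ.n1 (3320, 31440) (by decide +kernel)
                 (CovZ.n2 (3300, 31460) (by decide +kernel)
                  (CovZ.leaf K2_ok TE_l11798 _)
                  (CovZ.leaf K2_ok TE_l11799 _))
                 (CovZ.n1 (3340, 31460) (by decide +kernel)
                  (CovZ.n2 (3340, 31440) (by decide +kernel)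
                   (CovZ.leaf K2_ok TE_l11800 _)
                   (CovZ.leaf K2_ok TE_l11801 _))
                  (CovZ.leaf K2_ok TE_l11802 _))))))
             (CovZ.n1 (3280, 31360) (by decide +kernel)
              (CovZ.n2 (3240, 31400) (by decide +kernel)
               (CovZ.n2 (3280, 31400) (by decide +kernel)
                (CovZ.n2 (3260, 31380) (by decide +kernel)
                 (CovZ.leaf K2_ok TE_l11803 _)
                 (CovZ.leaf K2_ok TE_l11804 _))
                (CovZ.leaf K2_ok TE_l11805 _))
               (CovZ.n1 (3240, 31360) (by decide +kernel)
                (CovZ.leaf K2_ok TE_l11806 _)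
                (CovZ.n1 (3260, 31380) (by decide +kernel)
                 (CovZ.leaf K2_ok TE_l11807 _)
                 (CovZ.leaf K2_ok TE_l11808 _))))
              (CovZ.subM 162269335092622852916670271455232 (by decide +kernel)
               (CovZ.n1 (3320, 31400) (by decide +kernel)
                (CovZ.n2 (3320, 31360) (by decide +kernel)
                 (CovZ.n2 (3300, 31380) (by decide +kernel)
                  (CovZ.leaf K2_ok TE_l11809 _)
                  (CovZ.leaf K2_ok TE_l11810 _))
                 (CovZ.n1 (3340, 31380) (by decide +kernel)
                  (CovZ.leaf K2_ok TE_l11811 _)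
                  (CovZ.leaf K2_ok TE_l11812 _)))
                (CovZ.n1 (3280, 31400) (by decide +kernel)
                 (CovZ.n2 (3300, 31420) (by decide +kernel)
                  (CovZ.leaf K2_ok TE_l11813 _)
                  (CovZ.leaf K2_ok TE_l11814 _))
                 (CovZ.n1 (3300, 31380) (by decide +kernel)
                  (CovZ.leaf K2_ok TE_l11815 _)
                  (CovZ.leaf K2_ok TE_l11816 _)))))))
            (CovZ.subM 154742504910672534362521600 (by decide +kernel)
             (CovZ.n1 (3440, 31440) (by decide +kernel)
              (CovZ.n2 (3440, 31360) (by decide +kernel)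
               (CovZ.n2 (3400, 31400) (by decide +kernel)
                (CovZ.n2 (3440, 31400) (by decide +kernel)
                 (CovZ.n2 (3420, 31380) (by decide +kernel)
                  (CovZ.n2 (3420, 31400) (by decide +kernel)
                   (CovZ.badM (by decide +kernel))
                   (CovZ.n1 (3410, 31390) (by decide +kernel)
                    (CovZ.leaf K2_ok TE_l11817 _)
                    (CovZ.badM (by decide +kernel))))
                  (CovZ.badM (by decide +kernel)))
                 (CovZ.n1 (3420, 31420) (by decide +kernel)
                  (CovZ.badM (by decide +kernel))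
                  (CovZ.n1 (3420, 31400) (by decide +kernel)
                   (CovZ.leaf K2_ok TE_l11819 _)
                   (CovZ.badM (by decide +kernel)))))
                (CovZ.n1 (3400, 31360) (by decide +kernel)
                 (CovZ.n2 (3380, 31380) (by decide +kernel)
                  (CovZ.n2 (3400, 31380) (by decide +kernel)
                   (CovZ.n2 (3390, 31370) (by decide +kernel)
                    (CovZ.leaf K2_ok TE_l11820 _)
                    (CovZ.leaf K2_ok TE_l11821 _))
                   (CovZ.n1 (3390, 31390) (by decide +kernel)
                    (CovZ.leaf K2_ok TE_l11822 _)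
                    (CovZ.leaf K2_ok TE_l11823 _)))
                  (CovZ.n1 (3380, 31360) (by decide +kernel)
                   (CovZ.leaf K2_ok TE_l11824 _)
                   (CovZ.leaf K2_ok TE_l11825 _)))
                 (CovZ.n1 (3420, 31380) (by decide +kernel)
                  (CovZ.n2 (3420, 31360) (by decide +kernel)
                   (CovZ.n2 (3410, 31370) (by decide +kernel)
                    (CovZ.badM (by decide +kernel))
                    (CovZ.leaf K2_ok TE_l11827 _))
                   (CovZ.badM (by decide +kernel)))
                  (CovZ.n1 (3400, 31380) (by decide +kernel)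
                   (CovZ.n2 (3410, 31390) (by decide +kernel)
                    (CovZ.leaf K2_ok TE_l11828 _)
                    (CovZ.leaf K2_ok TE_l11829 _))
                   (CovZ.n1 (3410, 31370) (by decide +kernel)
                    (CovZ.leaf K2_ok TE_l11830 _)
                    (CovZ.leaf K2_ok TE_l11831 _))))))
               (CovZ.badM (by decide +kernel)))
              (CovZ.n1 (3360, 31440) (by decide +kernel)
               (CovZ.n2 (3400, 31480) (by decide +kernel)
                (CovZ.n2 (3400, 31440) (by decide +kernel)
                 (CovZ.n2 (3380, 31460) (by decide +kernel)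
                  (CovZ.n2 (3400, 31460) (by decide +kernel)
                   (CovZ.n2 (3390, 31450) (by decide +kernel)
                    (CovZ.leaf K2_ok TE_l11832 _)
                    (CovZ.leaf K2_ok TE_l11833 _))
                   (CovZ.leaf K2_ok TE_l11834 _))
                  (CovZ.n1 (3380, 31440) (by decide +kernel)
                   (CovZ.leaf K2_ok TE_l11835 _)
                   (CovZ.n1 (3390, 31450) (by decide +kernel)
                    (CovZ.leaf K2_ok TE_l11836 _)
                    (CovZ.leaf K2_ok TE_l11837 _))))
                 (CovZ.n1 (3420, 31460) (by decide +kernel)
                  (CovZ.n2 (3420, 31440) (by decide +kernel)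
                   (CovZ.leaf K2_ok TE_l11838 _)
                   (CovZ.badM (by decide +kernel)))
                  (CovZ.n1 (3400, 31460) (by decide +kernel)
                   (CovZ.n2 (3410, 31470) (by decide +kernel)
                    (CovZ.leaf K2_ok TE_l11841 _)
                    (CovZ.leaf K2_ok TE_l11842 _))
                   (CovZ.n1 (3410, 31450) (by decide +kernel)
                    (CovZ.leaf K2_ok TE_l11843 _)
                    (CovZ.leaf K2_ok TE_l11844 _)))))
                (CovZ.n1 (3360, 31480) (by decide +kernel)
                 (CovZ.n2 (3380, 31500) (by decide +kernel)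
                  (CovZ.n2 (3380, 31480) (by decide +kernel)
                   (CovZ.leaf K2_ok TE_l11845 _)
                   (CovZ.n1 (3390, 31490) (by decide +kernel)
                    (CovZ.leaf K2_ok TE_l11846 _)
                    (CovZ.leaf K2_ok TE_l11847 _)))
                  (CovZ.n1 (3360, 31500) (by decide +kernel)
                   (CovZ.leaf K2_ok TE_l11848 _)
                   (CovZ.leaf K2_ok TE_l11849 _)))
                 (CovZ.n1 (3380, 31460) (by decide +kernel)
                  (CovZ.n2 (3360, 31460) (by decide +kernel)
                   (CovZ.leaf K2_ok TE_l11850 _)
                   (CovZ.leaf K2_ok TE_l11851 _))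
                  (CovZ.n1 (3380, 31480) (by decide +kernel)
                   (CovZ.leaf K2_ok TE_l11852 _)
                   (CovZ.leaf K2_ok TE_l11853 _)))))
               (CovZ.n1 (3400, 31400) (by decide +kernel)
                (CovZ.n2 (3360, 31400) (by decide +kernel)
                 (CovZ.n2 (3380, 31420) (by decide +kernel)
                  (CovZ.n2 (3380, 31400) (by decide +kernel)
                   (CovZ.leaf K2_ok TE_l11854 _)
                   (CovZ.n1 (3390, 31410) (by decide +kernel)
                    (CovZ.leaf K2_ok TE_l11855 _)
                    (CovZ.leaf K2_ok TE_l11856 _)))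
                  (CovZ.n1 (3360, 31420) (by decide +kernel)
                   (CovZ.leaf K2_ok TE_l11857 _)
                   (CovZ.leaf K2_ok TE_l11858 _)))
                 (CovZ.n1 (3380, 31380) (by decide +kernel)
                  (CovZ.n2 (3360, 31380) (by decide +kernel)
                   (CovZ.leaf K2_ok TE_l11859 _)
                   (CovZ.leaf K2_ok TE_l11860 _))
                  (CovZ.n1 (3380, 31400) (by decide +kernel)
                   (CovZ.n2 (3390, 31390) (by decide +kernel)
                    (CovZ.leaf K2_ok TE_l11861 _)
                    (CovZ.leaf K2_ok TE_l11862 _))
                   (CovZ.leaf K2_ok TE_l11863 _))))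
                (CovZ.n1 (3400, 31440) (by decide +kernel)
                 (CovZ.n2 (3420, 31420) (by decide +kernel)
                  (CovZ.n2 (3400, 31420) (by decide +kernel)
                   (CovZ.n2 (3410, 31430) (by decide +kernel)
                    (CovZ.leaf K2_ok TE_l11864 _)
                    (CovZ.leaf K2_ok TE_l11865 _))
                   (CovZ.leaf K2_ok TE_l11866 _))
                  (CovZ.n1 (3420, 31440) (by decide +kernel)
                   (CovZ.badM (by decide +kernel))
                   (CovZ.n1 (3410, 31430) (by decide +kernel)
                    (CovZ.leaf K2_ok TE_l11869 _)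
                    (CovZ.badM (by decide +kernel)))))
                 (CovZ.n1 (3380, 31420) (by decide +kernel)
                  (CovZ.n2 (3380, 31440) (by decide +kernel)
                   (CovZ.leaf K2_ok TE_l11871 _)
                   (CovZ.leaf K2_ok TE_l11872 _))
                  (CovZ.n1 (3400, 31420) (by decide +kernel)
                   (CovZ.leaf K2_ok TE_l11873 _)
                   (CovZ.leaf K2_ok TE_l11874 _)))))))))

end Pool.Agent.TET
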