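import Pool.Agent.Helper38_TET.TE_M
import Pool.Agent.Helper38_TET.TE_L
import Pool.Agent.Helper38_TET.TE_79
import Pool.Agent.Helper38_TET.TE_80
import Pool.Agent.Helper38_TET.TE_81
import Pool.Agent.Helper38_TET.TE_82
import Pool.Agent.Helper38_TET.TE_83
import Pool.Agent.Helper38_TET.TE_84
import Pool.Agent.Helper38_TET.TE_85
import Pool.Agent.Helper38_TET.TE_86
import Pool.Agent.Helper38_TET.TE_122
import Pool.Agent.Helper38_TET.TE_123
import Pool.Agent.Helper38_TET.TE_132

/-!
# MP_c7c9bf_co: certificates, family TE
-/

set_option autoImplicit false
set_option maxRecDepth 100000

namespace Pool.Agent.TET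

theorem TE_u230 : CovZ TE_M (toL (selN TE_LN 21649492671600472280071074392373714282993859277845823554)) [0, 7, 6, 1] (3200, 31360) (2880, 31040) (3200, 30720) :=
    (CovZ.n2 (3200, 31040) (by decide +kernel)
         (CovZ.n2 (3040, 30880) (by decide +kernel)
          (CovZ.n2 (3040, 31040) (by decide +kernel)
           (CovZ.subM 231544157483167968496745179106115650 (by decide +kernel)
            (CovZ.n2 (3120, 30960) (by decide +kernel)
             (CovZ.n2 (3040, 30960) (by decide +kernel)
              (CovZ.n2 (3080, 31000) (by decide +kernel)
               (CovZ.leaf K2_ok TE_l11875 _)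
               (CovZ.leaf K2_ok TE_l11876 _))
              (CovZ.n1 (3080, 30920) (by decide +kernel)
               (CovZ.leaf K2_ok TE_l11877 _)
               (CovZ.leaf K2_ok TE_l11878 _)))
             (CovZ.n1 (3120, 31040) (by decide +kernel)
              (CovZ.n2 (3160, 31000) (by decide +kernel)
               (CovZ.n2 (3120, 31000) (by decide +kernel)
                (CovZ.leaf K2_ok TE_l11879 _)
                (CovZ.leaf K2_ok TE_l11880 _))
               (CovZ.n1 (3160, 31040) (by decide +kernel)
                (CovZ.leaf K2_ok TE_l11881 _)
                (CovZ.leaf K2_ok TE_l11882 _)))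
              (CovZ.n1 (3080, 31000) (by decide +kernel)
               (CovZ.n2 (3080, 31040) (by decide +kernel)
                (CovZ.leaf K2_ok TE_l11883 _)
                (CovZ.leaf K2_ok TE_l11884 _))
               (CovZ.leaf K2_ok TE_l11885 _)))))
           (CovZ.n1 (2960, 30960) (by decide +kernel)
            (CovZ.n2 (2960, 31040) (by decide +kernel)
             (CovZ.n2 (3000, 31000) (by decide +kernel)
              (CovZ.leaf K2_ok TE_l11886 _)
              (CovZ.leaf K2_ok TE_l11887 _))
             (CovZ.n1 (2920, 31000) (by decide +kernel)
              (CovZ.leaf K2_ok TE_l11888 _)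
              (CovZ.leaf K2_ok TE_l11889 _)))
            (CovZ.n1 (3040, 30960) (by decide +kernel)
             (CovZ.n2 (3000, 30920) (by decide +kernel)
              (CovZ.leaf K2_ok TE_l11890 _)
              (CovZ.leaf K2_ok TE_l11891 _))
             (CovZ.n1 (3000, 31000) (by decide +kernel)
              (CovZ.leaf K2_ok TE_l11892 _)
              (CovZ.leaf K2_ok TE_l11893 _)))))
          (CovZ.subM 231544157483167968496745179106115650 (by decide +kernel)
           (CovZ.n1 (3200, 30880) (by decide +kernel)
            (CovZ.n2 (3120, 30800) (by decide +kernel)
             (CovZ.n2 (3120, 30880) (by decide +kernel)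
              (CovZ.n2 (3160, 30840) (by decide +kernel)
               (CovZ.n2 (3120, 30840) (by decide +kernel)
                (CovZ.leaf K2_ok TE_l11894 _)
                (CovZ.leaf K2_ok TE_l11895 _))
               (CovZ.n1 (3160, 30880) (by decide +kernel)
                (CovZ.leaf K2_ok TE_l11896 _)
                (CovZ.leaf K2_ok TE_l11897 _)))
              (CovZ.n1 (3080, 30840) (by decide +kernel)
               (CovZ.leaf K2_ok TE_l11898 _)
               (CovZ.leaf K2_ok TE_l11899 _)))
             (CovZ.n1 (3200, 30800) (by decide +kernel)
              (CovZ.n2 (3160, 30760) (by decide +kernel)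
               (CovZ.n2 (3160, 30800) (by decide +kernel)
                (CovZ.leaf K2_ok TE_l11900 _)
                (CovZ.leaf K2_ok TE_l11901 _))
               (CovZ.n1 (3200, 30760) (by decide +kernel)
                (CovZ.leaf K2_ok TE_l11902 _)
                (CovZ.leaf K2_ok TE_l11903 _)))
              (CovZ.n1 (3160, 30840) (by decide +kernel)
               (CovZ.n2 (3200, 30840) (by decide +kernel)
                (CovZ.leaf K2_ok TE_l11904 _)
                (CovZ.leaf K2_ok TE_l11905 _))
               (CovZ.n1 (3160, 30800) (by decide +kernel)
                (CovZ.leaf K2_ok TE_l11906 _)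
                (CovZ.n1 (3180, 30820) (by decide +kernel)
                 (CovZ.leaf K2_ok TE_l11907 _)
                 (CovZ.leaf K2_ok TE_l11908 _))))))
            (CovZ.n1 (3120, 30960) (by decide +kernel)
             (CovZ.n2 (3200, 30960) (by decide +kernel)
              (CovZ.n2 (3160, 30920) (by decide +kernel)
               (CovZ.n2 (3160, 30960) (by decide +kernel)
                (CovZ.leaf K2_ok TE_l11909 _)
                (CovZ.leaf K2_ok TE_l11910 _))
               (CovZ.n1 (3200, 30920) (by decide +kernel)
                (CovZ.leaf K2_ok TE_l11911 _)
                (CovZ.leaf K2_ok TE_l11912 _)))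
              (CovZ.n1 (3160, 31000) (by decide +kernel)
               (CovZ.n2 (3200, 31000) (by decide +kernel)
                (CovZ.leaf K2_ok TE_l11913 _)
                (CovZ.leaf K2_ok TE_l11914 _))
               (CovZ.n1 (3160, 30960) (by decide +kernel)
                (CovZ.leaf K2_ok TE_l11915 _)
                (CovZ.leaf K2_ok TE_l11916 _))))
             (CovZ.n1 (3120, 30880) (by decide +kernel)
              (CovZ.n2 (3080, 30920) (by decide +kernel)
               (CovZ.leaf K2_ok TE_l11917 _)
               (CovZ.leaf K2_ok TE_l11918 _))
              (CovZ.n1 (3160, 30920) (by decide +kernel)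
               (CovZ.n2 (3160, 30880) (by decide +kernel)
                (CovZ.leaf K2_ok TE_l11919 _)
                (CovZ.leaf K2_ok TE_l11920 _))
               (CovZ.leaf K2_ok TE_l11921 _)))))))
         (CovZ.n1 (3040, 31200) (by decide +kernel)
          (CovZ.subM 231544157483171362688647542408872002 (by decide +kernel)
           (CovZ.n2 (3200, 31200) (by decide +kernel)
            (CovZ.n2 (3120, 31120) (by decide +kernel)
             (CovZ.n2 (3120, 31200) (by decide +kernel)
              (CovZ.n2 (3160, 31160) (by decide +kernel)
               (CovZ.n2 (3120, 31160) (by decide +kernel)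
                (CovZ.leaf K2_ok TE_l11922 _)
                (CovZ.leaf K2_ok TE_l11923 _))
               (CovZ.n1 (3160, 31200) (by decide +kernel)
                (CovZ.leaf K2_ok TE_l11924 _)
                (CovZ.leaf K2_ok TE_l11925 _)))
              (CovZ.n1 (3080, 31160) (by decide +kernel)
               (CovZ.n2 (3080, 31200) (by decide +kernel)
                (CovZ.leaf K2_ok TE_l11926 _)
                (CovZ.leaf K2_ok TE_l11927 _))
               (CovZ.leaf K2_ok TE_l11928 _)))
             (CovZ.n1 (3200, 31120) (by decide +kernel)
              (CovZ.n2 (3160, 31080) (by decide +kernel)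
               (CovZ.n2 (3160, 31120) (by decide +kernel)
                (CovZ.leaf K2_ok TE_l11929 _)
                (CovZ.leaf K2_ok TE_l11930 _))
               (CovZ.n1 (3200, 31080) (by decide +kernel)
                (CovZ.leaf K2_ok TE_l11931 _)
                (CovZ.leaf K2_ok TE_l11932 _)))
              (CovZ.n1 (3160, 31160) (by decide +kernel)
               (CovZ.n2 (3200, 31160) (by decide +kernel)
                (CovZ.leaf K2_ok TE_l11933 _)
                (CovZ.leaf K2_ok TE_l11934 _))
               (CovZ.n1 (3160, 31120) (by decide +kernel)
                (CovZ.leaf K2_ok TE_l11935 _)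
                (CovZ.leaf K2_ok TE_l11936 _)))))
            (CovZ.n1 (3120, 31280) (by decide +kernel)
             (CovZ.n2 (3200, 31280) (by decide +kernel)
              (CovZ.n2 (3160, 31240) (by decide +kernel)
               (CovZ.n2 (3160, 31280) (by decide +kernel)
                (CovZ.leaf K2_ok TE_l11937 _)
                (CovZ.leaf K2_ok TE_l11938 _))
               (CovZ.n1 (3200, 31240) (by decide +kernel)
                (CovZ.leaf K2_ok TE_l11939 _)
                (CovZ.leaf K2_ok TE_l11940 _)))
              (CovZ.n1 (3160, 31320) (by decide +kernel)
               (CovZ.n2 (3200, 31320) (by decide +kernel)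
                (CovZ.leaf K2_ok TE_l11941 _)
                (CovZ.leaf K2_ok TE_l11942 _))
               (CovZ.n1 (3160, 31280) (by decide +kernel)
                (CovZ.leaf K2_ok TE_l11943 _)
                (CovZ.leaf K2_ok TE_l11944 _))))
             (CovZ.n1 (3120, 31200) (by decide +kernel)
              (CovZ.n2 (3080, 31240) (by decide +kernel)
               (CovZ.leaf K2_ok TE_l11945 _)
               (CovZ.leaf K2_ok TE_l11946 _))
              (CovZ.n1 (3160, 31240) (by decide +kernel)
               (CovZ.n2 (3160, 31200) (by decide +kernel)
                (CovZ.leaf K2_ok TE_l11947 _)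
                (CovZ.leaf K2_ok TE_l11948 _))
               (CovZ.leaf K2_ok TE_l11949 _))))))
          (CovZ.n1 (3040, 31040) (by decide +kernel)
           (CovZ.n2 (2960, 31120) (by decide +kernel)
            (CovZ.subM 231544157483180954995565871375712322 (by decide +kernel)
             (CovZ.n2 (3040, 31120) (by decide +kernel)
              (CovZ.n2 (3000, 31080) (by decide +kernel)
               (CovZ.leaf K2_ok TE_l11950 _)
               (CovZ.leaf K2_ok TE_l11951 _))
              (CovZ.n1 (3000, 31160) (by decide +kernel)
               (CovZ.leaf K2_ok TE_l11952 _)
               (CovZ.leaf K2_ok TE_l11953 _))))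
            (CovZ.n1 (2960, 31040) (by decide +kernel)
             (CovZ.leaf K2_ok TE_l11954 _)
             (CovZ.n1 (3000, 31080) (by decide +kernel)
              (CovZ.leaf K2_ok TE_l11955 _)
              (CovZ.leaf K2_ok TE_l11956 _))))
           (CovZ.subM 231544157483171510262600132085284930 (by decide +kernel)
            (CovZ.n1 (3120, 31120) (by decide +kernel)
             (CovZ.n2 (3120, 31040) (by decide +kernel)
              (CovZ.n2 (3080, 31080) (by decide +kernel)
               (CovZ.leaf K2_ok TE_l11957 _)
               (CovZ.leaf K2_ok TE_l11958 _))
              (CovZ.n1 (3160, 31080) (by decide +kernel)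
               (CovZ.n2 (3160, 31040) (by decide +kernel)
                (CovZ.leaf K2_ok TE_l11959 _)
                (CovZ.n1 (3180, 31060) (by decide +kernel)
                 (CovZ.leaf K2_ok TE_l11960 _)
                 (CovZ.leaf K2_ok TE_l11961 _)))
               (CovZ.n1 (3120, 31080) (by decide +kernel)
                (CovZ.leaf K2_ok TE_l11962 _)
                (CovZ.leaf K2_ok TE_l11963 _))))
             (CovZ.n1 (3040, 31120) (by decide +kernel)
              (CovZ.n2 (3080, 31160) (by decide +kernel)
               (CovZ.leaf K2_ok TE_l11964 _)
               (CovZ.leaf K2_ok TE_l11965 _))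
              (CovZ.n1 (3080, 31080) (by decide +kernel)
               (CovZ.leaf K2_ok TE_l11966 _)
               (CovZ.n1 (3080, 31120) (by decide +kernel)
                (CovZ.leaf K2_ok TE_l11967 _)
                (CovZ.leaf K2_ok TE_l11968 _)))))))))

theorem TE_u231 : CovZ TE_M (toL (selN TE_LN 21649492671600472280071074392373714282993859277845823554)) [0, 7, 6, 1] (2880, 31040) (2560, 30720) (3200, 30720) :=
    (CovZ.n1 (2880, 30720) (by decide +kernel)
         (CovZ.n2 (2720, 30880) (by decide +kernel)
          (CovZ.n2 (2880, 30880) (by decide +kernel)
           (CovZ.n2 (2800, 30800) (by decide +kernel)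
            (CovZ.n2 (2800, 30880) (by decide +kernel)
             (CovZ.leaf K2_ok TE_l11969 _)
             (CovZ.leaf K2_ok TE_l11970 _))
            (CovZ.n1 (2880, 30800) (by decide +kernel)
             (CovZ.leaf K2_ok TE_l11971 _)
             (CovZ.leaf K2_ok TE_l11972 _)))
           (CovZ.n1 (2800, 30960) (by decide +kernel)
            (CovZ.n2 (2880, 30960) (by decide +kernel)
             (CovZ.n2 (2840, 30920) (by decide +kernel)
              (CovZ.leaf K2_ok TE_l11973 _)
              (CovZ.leaf K2_ok TE_l11974 _))
             (CovZ.leaf K2_ok TE_l11975 _))
            (CovZ.n1 (2800, 30880) (by decide +kernel)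
             (CovZ.leaf K2_ok TE_l11976 _)
             (CovZ.n1 (2840, 30920) (by decide +kernel)
              (CovZ.leaf K2_ok TE_l11977 _)
              (CovZ.leaf K2_ok TE_l11978 _)))))
          (CovZ.n1 (2720, 30720) (by decide +kernel)
           (CovZ.n2 (2640, 30800) (by decide +kernel)
            (CovZ.leaf K2_ok TE_l11979 _)
            (CovZ.leaf K2_ok TE_l11980 _))
           (CovZ.n1 (2800, 30800) (by decide +kernel)
            (CovZ.n2 (2800, 30720) (by decide +kernel)
             (CovZ.leaf K2_ok TE_l11981 _)
             (CovZ.n1 (2840, 30760) (by decide +kernel)
              (CovZ.leaf K2_ok TE_l11982 _)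
              (CovZ.leaf K2_ok TE_l11983 _)))
            (CovZ.n1 (2720, 30800) (by decide +kernel)
             (CovZ.leaf K2_ok TE_l11984 _)
             (CovZ.leaf K2_ok TE_l11985 _)))))
         (CovZ.n1 (3040, 30880) (by decide +kernel)
          (CovZ.n2 (3040, 30720) (by decide +kernel)
           (CovZ.n2 (2960, 30800) (by decide +kernel)
            (CovZ.n2 (3040, 30800) (by decide +kernel)
             (CovZ.n2 (3000, 30760) (by decide +kernel)
              (CovZ.leaf K2_ok TE_l11986 _)
              (CovZ.leaf K2_ok TE_l11987 _))
             (CovZ.n1 (3000, 30840) (by decide +kernel)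
              (CovZ.leaf K2_ok TE_l11988 _)
              (CovZ.leaf K2_ok TE_l11989 _)))
            (CovZ.n1 (2960, 30720) (by decide +kernel)
             (CovZ.leaf K2_ok TE_l11990 _)
             (CovZ.n1 (3000, 30760) (by decide +kernel)
              (CovZ.leaf K2_ok TE_l11991 _)
              (CovZ.leaf K2_ok TE_l11992 _))))
           (CovZ.subM 231544157483167968496745179106115650 (by decide +kernel)
            (CovZ.n1 (3120, 30800) (by decide +kernel)
             (CovZ.n2 (3120, 30720) (by decide +kernel)
              (CovZ.n2 (3080, 30760) (by decide +kernel)
               (CovZ.leaf K2_ok TE_l11993 _)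
               (CovZ.leaf K2_ok TE_l11994 _))
              (CovZ.n1 (3160, 30760) (by decide +kernel)
               (CovZ.n2 (3160, 30720) (by decide +kernel)
                (CovZ.leaf K2_ok TE_l11995 _)
                (CovZ.n1 (3180, 30740) (by decide +kernel)
                 (CovZ.leaf K2_ok TE_l11996 _)
                 (CovZ.leaf K2_ok TE_l11997 _)))
               (CovZ.n1 (3120, 30760) (by decide +kernel)
                (CovZ.leaf K2_ok TE_l11998 _)
                (CovZ.leaf K2_ok TE_l11999 _))))
             (CovZ.n1 (3040, 30800) (by decide +kernel)
              (CovZ.n2 (3080, 30840) (by decide +kernel)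
               (CovZ.leaf K2_ok TE_l12000 _)
               (CovZ.leaf K2_ok TE_l12001 _))
              (CovZ.n1 (3080, 30760) (by decide +kernel)
               (CovZ.leaf K2_ok TE_l12002 _)
               (CovZ.leaf K2_ok TE_l12003 _))))))
          (CovZ.n1 (2880, 30880) (by decide +kernel)
           (CovZ.n2 (2960, 30960) (by decide +kernel)
            (CovZ.n2 (2960, 30880) (by decide +kernel)
             (CovZ.leaf K2_ok TE_l12004 _)
             (CovZ.n1 (3000, 30920) (by decide +kernel)
              (CovZ.leaf K2_ok TE_l12005 _)
              (CovZ.leaf K2_ok TE_l12006 _)))
            (CovZ.n1 (2880, 30960) (by decide +kernel)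
             (CovZ.n2 (2920, 31000) (by decide +kernel)
              (CovZ.leaf K2_ok TE_l12007 _)
              (CovZ.leaf K2_ok TE_l12008 _))
             (CovZ.leaf K2_ok TE_l12009 _)))
           (CovZ.n1 (2960, 30800) (by decide +kernel)
            (CovZ.n2 (2880, 30800) (by decide +kernel)
             (CovZ.n2 (2920, 30840) (by decide +kernel)
              (CovZ.leaf K2_ok TE_l12010 _)
              (CovZ.leaf K2_ok TE_l12011 _))
             (CovZ.leaf K2_ok TE_l12012 _))
            (CovZ.n1 (2960, 30880) (by decide +kernel)
             (CovZ.n2 (3000, 30840) (by decide +kernel)
              (CovZ.leaf K2_ok TE_l12013 _)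
              (CovZ.leaf K2_ok TE_l12014 _))
             (CovZ.n1 (2920, 30840) (by decide +kernel)
              (CovZ.leaf K2_ok TE_l12015 _)
              (CovZ.leaf K2_ok TE_l12016 _)))))))

theorem TE_u232 : CovZ TE_M (toL (selN TE_LN 231544157483167968496745179106115650)) [0, 7, 6, 1] (3520, 31040) (3360, 30880) (3520, 30720) :=
    (CovZ.subM 228785580488770231162876762978910210 (by decide +kernel)
            (CovZ.n2 (3520, 30880) (by decide +kernel)
             (CovZ.n2 (3440, 30800) (by decide +kernel)
              (CovZ.n2 (3440, 30880) (by decide +kernel)
               (CovZ.badM (by decide +kernel))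
               (CovZ.n1 (3400, 30840) (by decide +kernel)
                (CovZ.n2 (3400, 30880) (by decide +kernel)
                 (CovZ.n2 (3420, 30860) (by decide +kernel)
                  (CovZ.n2 (3400, 30860) (by decide +kernel)
                   (CovZ.n2 (3410, 30870) (by decide +kernel)
                    (CovZ.leaf K2_ok TE_l12017 _)
                    (CovZ.leaf K2_ok TE_l12018 _))
                   (CovZ.n1 (3410, 30850) (by decide +kernel)
                    (CovZ.leaf K2_ok TE_l12019 _)
                    (CovZ.leaf K2_ok TE_l12020 _)))
                  (CovZ.n1 (3420, 30880) (by decide +kernel)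
                   (CovZ.badM (by decide +kernel))
                   (CovZ.n1 (3410, 30870) (by decide +kernel)
                    (CovZ.leaf K2_ok TE_l18269 _)
                    (CovZ.leaf K2_ok TE_l18270 _))))
                 (CovZ.n1 (3380, 30860) (by decide +kernel)
                  (CovZ.n2 (3380, 30880) (by decide +kernel)
                   (CovZ.leaf K2_ok TE_l12021 _)
                   (CovZ.n1 (3370, 30870) (by decide +kernel)
                    (CovZ.leaf K2_ok TE_l12022 _)
                    (CovZ.leaf K2_ok TE_l12023 _)))
                  (CovZ.n1 (3400, 30860) (by decide +kernel)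
                   (CovZ.n2 (3390, 30850) (by decide +kernel)
                    (CovZ.leaf K2_ok TE_l12024 _)
                    (CovZ.leaf K2_ok TE_l12025 _))
                   (CovZ.leaf K2_ok TE_l12026 _))))
                (CovZ.subM 41862893576679552665699661016858624 (by decide +kernel)
                 (CovZ.n1 (3440, 30840) (by decide +kernel)
                  (CovZ.n2 (3420, 30820) (by decide +kernel)
                   (CovZ.n2 (3420, 30840) (by decide +kernel)
                    (CovZ.n2 (3430, 30830) (by decide +kernel)
                     (CovZ.leaf K2_ok TE_l12027 _)
                     (CovZ.leaf K2_ok TE_l18271 _))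
                    (CovZ.n1 (3410, 30830) (by decide +kernel)
                     (CovZ.leaf K2_ok TE_l12028 _)
                     (CovZ.leaf K2_ok TE_l12029 _)))
                   (CovZ.n1 (3440, 30820) (by decide +kernel)
                    (CovZ.n2 (3430, 30810) (by decide +kernel)
                     (CovZ.n2 (3430, 30820) (by decide +kernel)
                      (CovZ.badM (by decide +kernel))
                      (CovZ.leaf K2_ok TE_l18272 _))
                     (CovZ.badM (by decide +kernel)))
                    (CovZ.n1 (3430, 30830) (by decide +kernel)
                     (CovZ.badM (by decide +kernel))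
                     (CovZ.leaf K2_ok TE_l18273 _))))
                  (CovZ.n1 (3420, 30860) (by decide +kernel)
                   (CovZ.badM (by decide +kernel))
                   (CovZ.n1 (3420, 30840) (by decide +kernel)
                    (CovZ.n2 (3410, 30850) (by decide +kernel)
                     (CovZ.leaf K2_ok TE_l12030 _)
                     (CovZ.leaf K2_ok TE_l12031 _))
                    (CovZ.n1 (3430, 30850) (by decide +kernel)
                     (CovZ.leaf K2_ok TE_l18274 _)
                     (CovZ.leaf K2_ok TE_l18275 _))))))))
              (CovZ.badM (by decide +kernel)))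
             (CovZ.n1 (3440, 30960) (by decide +kernel)
              (CovZ.badM (by decide +kernel))
              (CovZ.n1 (3440, 30880) (by decide +kernel)
               (CovZ.n2 (3400, 30920) (by decide +kernel)
                (CovZ.subM 159579388780751768472649728 (by decide +kernel)
                 (CovZ.n2 (3440, 30920) (by decide +kernel)
                  (CovZ.n2 (3420, 30900) (by decide +kernel)
                   (CovZ.n2 (3420, 30920) (by decide +kernel)
                    (CovZ.badM (by decide +kernel))
                    (CovZ.n1 (3410, 30910) (by decide +kernel)
                     (CovZ.n2 (3410, 30920) (by decide +kernel)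
                      (CovZ.leaf K2_ok TE_l18276 _)
                      (CovZ.leaf K2_ok TE_l18277 _))
                     (CovZ.badM (by decide +kernel))))
                   (CovZ.badM (by decide +kernel)))
                  (CovZ.n1 (3420, 30940) (by decide +kernel)
                   (CovZ.badM (by decide +kernel))
                   (CovZ.n1 (3420, 30920) (by decide +kernel)
                    (CovZ.n2 (3410, 30930) (by decide +kernel)
                     (CovZ.leaf K2_ok TE_l18278 _)
                     (CovZ.leaf K2_ok TE_l18279 _))
                    (CovZ.badM (by decide +kernel))))))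
                (CovZ.n1 (3400, 30880) (by decide +kernel)
                 (CovZ.n2 (3380, 30900) (by decide +kernel)
                  (CovZ.n2 (3400, 30900) (by decide +kernel)
                   (CovZ.n2 (3390, 30890) (by decide +kernel)
                    (CovZ.leaf K2_ok TE_l12032 _)
                    (CovZ.leaf K2_ok TE_l12033 _))
                   (CovZ.leaf K2_ok TE_l12034 _))
                  (CovZ.n1 (3380, 30880) (by decide +kernel)
                   (CovZ.leaf K2_ok TE_l12035 _)
                   (CovZ.n1 (3390, 30890) (by decide +kernel)
                    (CovZ.leaf K2_ok TE_l12036 _)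
                    (CovZ.leaf K2_ok TE_l12037 _))))
                 (CovZ.subM 159579388780751768472649730 (by decide +kernel)
                  (CovZ.n1 (3420, 30900) (by decide +kernel)
                   (CovZ.n2 (3420, 30880) (by decide +kernel)
                    (CovZ.n2 (3410, 30890) (by decide +kernel)
                     (CovZ.leaf K2_ok TE_l18280 _)
                     (CovZ.leaf K2_ok TE_l18281 _))
                    (CovZ.n1 (3430, 30890) (by decide +kernel)
                     (CovZ.badM (by decide +kernel))
                     (CovZ.leaf K2_ok TE_l18282 _)))
                   (CovZ.n1 (3400, 30900) (by decide +kernel)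
                    (CovZ.n2 (3410, 30910) (by decide +kernel)
                     (CovZ.leaf K2_ok TE_l12038 _)
                     (CovZ.leaf K2_ok TE_l18283 _))
                    (CovZ.n1 (3410, 30890) (by decide +kernel)
                     (CovZ.leaf K2_ok TE_l12039 _)
                     (CovZ.leaf K2_ok TE_l12040 _)))))))
               (CovZ.badM (by decide +kernel))))))

theorem TE_u233 : CovZ TE_M (toL (selN TE_LN 231544157483167968496745179106115650)) [0, 7, 6, 1] (3360, 30880) (3200, 30720) (3520, 30720) :=
    (CovZ.n1 (3360, 30720) (by decide +kernel)
            (CovZ.n2 (3280, 30800) (by decide +kernel)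
             (CovZ.n2 (3360, 30800) (by decide +kernel)
              (CovZ.n2 (3320, 30760) (by decide +kernel)
               (CovZ.n2 (3320, 30800) (by decide +kernel)
                (CovZ.subM 228785738945095407265504539743223810 (by decide +kernel)
                 (CovZ.n2 (3340, 30780) (by decide +kernel)
                  (CovZ.n2 (3320, 30780) (by decide +kernel)
                   (CovZ.leaf K2_ok TE_l12041 _)
                   (CovZ.leaf K2_ok TE_l12042 _))
                  (CovZ.n1 (3340, 30800) (by decide +kernel)
                   (CovZ.leaf K2_ok TE_l12043 _)
                   (CovZ.leaf K2_ok TE_l12044 _))))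
                (CovZ.n1 (3300, 30780) (by decide +kernel)
                 (CovZ.leaf K2_ok TE_l12045 _)
                 (CovZ.leaf K2_ok TE_l12046 _)))
               (CovZ.subM 228785738945095407265504539743223810 (by decide +kernel)
                (CovZ.n1 (3360, 30760) (by decide +kernel)
                 (CovZ.n2 (3340, 30740) (by decide +kernel)
                  (CovZ.n2 (3340, 30760) (by decide +kernel)
                   (CovZ.leaf K2_ok TE_l12047 _)
                   (CovZ.leaf K2_ok TE_l12048 _))
                  (CovZ.n1 (3360, 30740) (by decide +kernel)
                   (CovZ.leaf K2_ok TE_l12049 _)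
                   (CovZ.leaf K2_ok TE_l12050 _)))
                 (CovZ.n1 (3340, 30780) (by decide +kernel)
                  (CovZ.leaf K2_ok TE_l12051 _)
                  (CovZ.n1 (3340, 30760) (by decide +kernel)
                   (CovZ.leaf K2_ok TE_l12052 _)
                   (CovZ.n1 (3350, 30770) (by decide +kernel)
                    (CovZ.leaf K2_ok TE_l12053 _)
                    (CovZ.leaf K2_ok TE_l12054 _)))))))
              (CovZ.n1 (3320, 30840) (by decide +kernel)
               (CovZ.n2 (3360, 30840) (by decide +kernel)
                (CovZ.n2 (3340, 30820) (by decide +kernel)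
                 (CovZ.n2 (3340, 30840) (by decide +kernel)
                  (CovZ.leaf K2_ok TE_l12055 _)
                  (CovZ.leaf K2_ok TE_l12056 _))
                 (CovZ.leaf K2_ok TE_l12057 _))
                (CovZ.n1 (3340, 30860) (by decide +kernel)
                 (CovZ.n2 (3360, 30860) (by decide +kernel)
                  (CovZ.leaf K2_ok TE_l12058 _)
                  (CovZ.leaf K2_ok TE_l12059 _))
                 (CovZ.n1 (3340, 30840) (by decide +kernel)
                  (CovZ.leaf K2_ok TE_l12060 _)
                  (CovZ.leaf K2_ok TE_l12061 _))))
               (CovZ.n1 (3320, 30800) (by decide +kernel)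
                (CovZ.n2 (3300, 30820) (by decide +kernel)
                 (CovZ.leaf K2_ok TE_l12062 _)
                 (CovZ.leaf K2_ok TE_l12063 _))
                (CovZ.n1 (3340, 30820) (by decide +kernel)
                 (CovZ.n2 (3340, 30800) (by decide +kernel)
                  (CovZ.leaf K2_ok TE_l12064 _)
                  (CovZ.leaf K2_ok TE_l12065 _))
                 (CovZ.n1 (3320, 30820) (by decide +kernel)
                  (CovZ.leaf K2_ok TE_l12066 _)
                  (CovZ.leaf K2_ok TE_l12067 _))))))
             (CovZ.n1 (3280, 30720) (by decide +kernel)
              (CovZ.n2 (3240, 30760) (by decide +kernel)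
               (CovZ.n2 (3280, 30760) (by decide +kernel)
                (CovZ.n2 (3260, 30740) (by decide +kernel)
                 (CovZ.leaf K2_ok TE_l12068 _)
                 (CovZ.leaf K2_ok TE_l12069 _))
                (CovZ.n1 (3260, 30780) (by decide +kernel)
                 (CovZ.leaf K2_ok TE_l12070 _)
                 (CovZ.leaf K2_ok TE_l12071 _)))
               (CovZ.n1 (3240, 30720) (by decide +kernel)
                (CovZ.leaf K2_ok TE_l12072 _)
                (CovZ.n1 (3260, 30740) (by decide +kernel)
                 (CovZ.leaf K2_ok TE_l12073 _)
                 (CovZ.leaf K2_ok TE_l12074 _))))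
              (CovZ.n1 (3320, 30760) (by decide +kernel)
               (CovZ.subM 228785738945095407266630439650066434 (by decide +kernel)
                (CovZ.n2 (3320, 30720) (by decide +kernel)
                 (CovZ.n2 (3300, 30740) (by decide +kernel)
                  (CovZ.leaf K2_ok TE_l12075 _)
                  (CovZ.leaf K2_ok TE_l12076 _))
                 (CovZ.n1 (3340, 30740) (by decide +kernel)
                  (CovZ.n2 (3340, 30720) (by decide +kernel)
                   (CovZ.leaf K2_ok TE_l12077 _)
                   (CovZ.leaf K2_ok TE_l12078 _))
                  (CovZ.leaf K2_ok TE_l12079 _))))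
               (CovZ.n1 (3280, 30760) (by decide +kernel)
                (CovZ.n2 (3300, 30780) (by decide +kernel)
                 (CovZ.leaf K2_ok TE_l12080 _)
                 (CovZ.leaf K2_ok TE_l12081 _))
                (CovZ.n1 (3300, 30740) (by decide +kernel)
                 (CovZ.leaf K2_ok TE_l12082 _)
                 (CovZ.leaf K2_ok TE_l12083 _))))))
            (CovZ.subM 228785738945095407265504539743223810 (by decide +kernel)
             (CovZ.n1 (3440, 30800) (by decide +kernel)
              (CovZ.n2 (3440, 30720) (by decide +kernel)
               (CovZ.n2 (3400, 30760) (by decide +kernel)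
                (CovZ.subM 228461061930275068139966962524618752 (by decide +kernel)
                 (CovZ.n2 (3440, 30760) (by decide +kernel)
                  (CovZ.n2 (3420, 30740) (by decide +kernel)
                   (CovZ.n2 (3420, 30760) (by decide +kernel)
                    (CovZ.badM (by decide +kernel))
                    (CovZ.n1 (3410, 30750) (by decide +kernel)
                     (CovZ.leaf K2_ok TE_l18284 _)
                     (CovZ.badM (by decide +kernel))))
                   (CovZ.badM (by decide +kernel)))
                  (CovZ.n1 (3420, 30780) (by decide +kernel)
                   (CovZ.badM (by decide +kernel))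
                   (CovZ.n1 (3420, 30760) (by decide +kernel)
                    (CovZ.n2 (3410, 30770) (by decide +kernel)
                     (CovZ.leaf K2_ok TE_l18285 _)
                     (CovZ.leaf K2_ok TE_l18286 _))
                    (CovZ.badM (by decide +kernel))))))
                (CovZ.n1 (3400, 30720) (by decide +kernel)
                 (CovZ.n2 (3380, 30740) (by decide +kernel)
                  (CovZ.n2 (3400, 30740) (by decide +kernel)
                   (CovZ.n2 (3390, 30730) (by decide +kernel)
                    (CovZ.leaf K2_ok TE_l12084 _)
                    (CovZ.leaf K2_ok TE_l12085 _))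
                   (CovZ.leaf K2_ok TE_l12086 _))
                  (CovZ.n1 (3380, 30720) (by decide +kernel)
                   (CovZ.leaf K2_ok TE_l12087 _)
                   (CovZ.n1 (3390, 30730) (by decide +kernel)
                    (CovZ.leaf K2_ok TE_l12088 _)
                    (CovZ.leaf K2_ok TE_l12089 _))))
                 (CovZ.subM 228461061930275068139966962524618752 (by decide +kernel)
                  (CovZ.n1 (3420, 30740) (by decide +kernel)
                   (CovZ.n2 (3420, 30720) (by decide +kernel)
                    (CovZ.n2 (3410, 30730) (by decide +kernel)
                     (CovZ.leaf K2_ok TE_l18287 _)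
                     (CovZ.leaf K2_ok TE_l18288 _))
                    (CovZ.badM (by decide +kernel)))
                   (CovZ.n1 (3400, 30740) (by decide +kernel)
                    (CovZ.n2 (3410, 30750) (by decide +kernel)
                     (CovZ.leaf K2_ok TE_l18289 _)
                     (CovZ.leaf K2_ok TE_l18290 _))
                    (CovZ.n1 (3410, 30730) (by decide +kernel)
                     (CovZ.leaf K2_ok TE_l18291 _)
                     (CovZ.leaf K2_ok TE_l18292 _)))))))
               (CovZ.badM (by decide +kernel)))
              (CovZ.n1 (3360, 30800) (by decide +kernel)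
               (CovZ.n2 (3400, 30840) (by decide +kernel)
                (CovZ.n2 (3400, 30800) (by decide +kernel)
                 (CovZ.n2 (3380, 30820) (by decide +kernel)
                  (CovZ.n2 (3400, 30820) (by decide +kernel)
                   (CovZ.n2 (3390, 30810) (by decide +kernel)
                    (CovZ.leaf K2_ok TE_l12090 _)
                    (CovZ.leaf K2_ok TE_l12091 _))
                   (CovZ.leaf K2_ok TE_l12092 _))
                  (CovZ.n1 (3380, 30800) (by decide +kernel)
                   (CovZ.leaf K2_ok TE_l12093 _)
                   (CovZ.n1 (3390, 30810) (by decide +kernel)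
                    (CovZ.leaf K2_ok TE_l12094 _)
                    (CovZ.leaf K2_ok TE_l12095 _))))
                 (CovZ.subM 41862893576679700239652250693271552 (by decide +kernel)
                  (CovZ.n1 (3420, 30820) (by decide +kernel)
                   (CovZ.n2 (3420, 30800) (by decide +kernel)
                    (CovZ.n2 (3410, 30810) (by decide +kernel)
                     (CovZ.leaf K2_ok TE_l18293 _)
                     (CovZ.leaf K2_ok TE_l18294 _))
                    (CovZ.n1 (3430, 30810) (by decide +kernel)
                     (CovZ.leaf K2_ok TE_l18295 _)
                     (CovZ.n1 (3420, 30810) (by decide +kernel)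
                      (CovZ.leaf K2_ok TE_l18296 _)
                      (CovZ.leaf K2_ok TE_l18297 _))))
                   (CovZ.n1 (3400, 30820) (by decide +kernel)
                    (CovZ.n2 (3410, 30830) (by decide +kernel)
                     (CovZ.leaf K2_ok TE_l12096 _)
                     (CovZ.leaf K2_ok TE_l12097 _))
                    (CovZ.leaf K2_ok TE_l12098 _)))))
                (CovZ.n1 (3360, 30840) (by decide +kernel)
                 (CovZ.n2 (3380, 30860) (by decide +kernel)
                  (CovZ.n2 (3380, 30840) (by decide +kernel)
                   (CovZ.leaf K2_ok TE_l12099 _)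
                   (CovZ.n1 (3390, 30850) (by decide +kernel)
                    (CovZ.leaf K2_ok TE_l12100 _)
                    (CovZ.leaf K2_ok TE_l12101 _)))
                  (CovZ.n1 (3360, 30860) (by decide +kernel)
                   (CovZ.n2 (3370, 30870) (by decide +kernel)
                    (CovZ.leaf K2_ok TE_l12102 _)
                    (CovZ.leaf K2_ok TE_l12103 _))
                   (CovZ.leaf K2_ok TE_l12104 _)))
                 (CovZ.n1 (3380, 30820) (by decide +kernel)
                  (CovZ.n2 (3360, 30820) (by decide +kernel)
                   (CovZ.n2 (3370, 30830) (by decide +kernel)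
                    (CovZ.leaf K2_ok TE_l12105 _)
                    (CovZ.leaf K2_ok TE_l12106 _))
                   (CovZ.leaf K2_ok TE_l12107 _))
                  (CovZ.n1 (3380, 30840) (by decide +kernel)
                   (CovZ.leaf K2_ok TE_l12108 _)
                   (CovZ.leaf K2_ok TE_l12109 _)))))
               (CovZ.n1 (3400, 30760) (by decide +kernel)
                (CovZ.n2 (3360, 30760) (by decide +kernel)
                 (CovZ.n2 (3380, 30780) (by decide +kernel)
                  (CovZ.n2 (3380, 30760) (by decide +kernel)
                   (CovZ.leaf K2_ok TE_l12110 _)
                   (CovZ.n1 (3390, 30770) (by decide +kernel)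
                    (CovZ.leaf K2_ok TE_l12111 _)
                    (CovZ.leaf K2_ok TE_l12112 _)))
                  (CovZ.n1 (3360, 30780) (by decide +kernel)
                   (CovZ.leaf K2_ok TE_l12113 _)
                   (CovZ.leaf K2_ok TE_l12114 _)))
                 (CovZ.n1 (3380, 30740) (by decide +kernel)
                  (CovZ.n2 (3360, 30740) (by decide +kernel)
                   (CovZ.n2 (3370, 30750) (by decide +kernel)
                    (CovZ.leaf K2_ok TE_l12115 _)
                    (CovZ.leaf K2_ok TE_l12116 _))
                   (CovZ.leaf K2_ok TE_l12117 _))
                  (CovZ.n1 (3380, 30760) (by decide +kernel)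
                   (CovZ.n2 (3390, 30750) (by decide +kernel)
                    (CovZ.leaf K2_ok TE_l12118 _)
                    (CovZ.leaf K2_ok TE_l12119 _))
                   (CovZ.n1 (3370, 30750) (by decide +kernel)
                    (CovZ.leaf K2_ok TE_l12120 _)
                    (CovZ.leaf K2_ok TE_l12121 _)))))
                (CovZ.n1 (3400, 30800) (by decide +kernel)
                 (CovZ.n2 (3420, 30780) (by decide +kernel)
                  (CovZ.n2 (3400, 30780) (by decide +kernel)
                   (CovZ.n2 (3410, 30790) (by decide +kernel)
                    (CovZ.leaf K2_ok TE_l18298 _)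
                    (CovZ.leaf K2_ok TE_l18299 _))
                   (CovZ.n1 (3410, 30770) (by decide +kernel)
                    (CovZ.n2 (3400, 30770) (by decide +kernel)
                     (CovZ.leaf K2_ok TE_l18300 _)
                     (CovZ.leaf K2_ok TE_l18301 _))
                    (CovZ.leaf K2_ok TE_l18302 _)))
                  (CovZ.subM 41862893576679700239652250693271552 (by decide +kernel)
                   (CovZ.n1 (3420, 30800) (by decide +kernel)
                    (CovZ.n2 (3430, 30790) (by decide +kernel)
                     (CovZ.leaf K2_ok TE_l18303 _)
                     (CovZ.leaf K2_ok TE_l18304 _))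
                    (CovZ.n1 (3410, 30790) (by decide +kernel)
                     (CovZ.leaf K2_ok TE_l18305 _)
                     (CovZ.leaf K2_ok TE_l18306 _)))))
                 (CovZ.n1 (3380, 30780) (by decide +kernel)
                  (CovZ.n2 (3380, 30800) (by decide +kernel)
                   (CovZ.leaf K2_ok TE_l12122 _)
                   (CovZ.n1 (3370, 30790) (by decide +kernel)
                    (CovZ.leaf K2_ok TE_l12123 _)
                    (CovZ.leaf K2_ok TE_l12124 _)))
                  (CovZ.n1 (3400, 30780) (by decide +kernel)
                   (CovZ.n2 (3390, 30770) (by decide +kernel)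
                    (CovZ.leaf K2_ok TE_l12125 _)
                    (CovZ.leaf K2_ok TE_l12126 _))
                   (CovZ.leaf K2_ok TE_l12127 _)))))))))

theorem TE_u234 : CovZ TE_M (toL (selN TE_LN 231544157483167968496745179106115650)) [0, 7, 6, 1] (3520, 31040) (3360, 31200) (3200, 31040) :=
    (CovZ.n2 (3360, 31040) (by decide +kernel)
            (CovZ.n2 (3280, 31120) (by decide +kernel)
             (CovZ.subM 231057210364378627956237346277556288 (by decide +kernel)
              (CovZ.n2 (3360, 31120) (by decide +kernel)
               (CovZ.n2 (3320, 31080) (by decide +kernel)
                (CovZ.n2 (3320, 31120) (by decide +kernel)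
                 (CovZ.n2 (3340, 31100) (by decide +kernel)
                  (CovZ.leaf K2_ok TE_l12128 _)
                  (CovZ.n1 (3340, 31120) (by decide +kernel)
                   (CovZ.leaf K2_ok TE_l12129 _)
                   (CovZ.leaf K2_ok TE_l12130 _)))
                 (CovZ.n1 (3300, 31100) (by decide +kernel)
                  (CovZ.n2 (3300, 31120) (by decide +kernel)
                   (CovZ.leaf K2_ok TE_l12131 _)
                   (CovZ.leaf K2_ok TE_l12132 _))
                  (CovZ.leaf K2_ok TE_l12133 _)))
                (CovZ.n1 (3360, 31080) (by decide +kernel)
                 (CovZ.n2 (3340, 31060) (by decide +kernel)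
                  (CovZ.n2 (3340, 31080) (by decide +kernel)
                   (CovZ.leaf K2_ok TE_l12134 _)
                   (CovZ.leaf K2_ok TE_l12135 _))
                  (CovZ.n1 (3360, 31060) (by decide +kernel)
                   (CovZ.n2 (3350, 31050) (by decide +kernel)
                    (CovZ.leaf K2_ok TE_l12136 _)
                    (CovZ.leaf K2_ok TE_l12137 _))
                   (CovZ.leaf K2_ok TE_l12138 _)))
                 (CovZ.n1 (3340, 31100) (by decide +kernel)
                  (CovZ.n2 (3360, 31100) (by decide +kernel)
                   (CovZ.leaf K2_ok TE_l12139 _)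
                   (CovZ.leaf K2_ok TE_l12140 _))
                  (CovZ.n1 (3340, 31080) (by decide +kernel)
                   (CovZ.leaf K2_ok TE_l12141 _)
                   (CovZ.n1 (3350, 31090) (by decide +kernel)
                    (CovZ.leaf K2_ok TE_l12142 _)
                    (CovZ.leaf K2_ok TE_l12143 _))))))
               (CovZ.n1 (3320, 31160) (by decide +kernel)
                (CovZ.n2 (3360, 31160) (by decide +kernel)
                 (CovZ.n2 (3340, 31140) (by decide +kernel)
                  (CovZ.n2 (3340, 31160) (by decide +kernel)
                   (CovZ.leaf K2_ok TE_l12144 _)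
                   (CovZ.leaf K2_ok TE_l12145 _))
                  (CovZ.n1 (3360, 31140) (by decide +kernel)
                   (CovZ.leaf K2_ok TE_l12146 _)
                   (CovZ.leaf K2_ok TE_l12147 _)))
                 (CovZ.n1 (3340, 31180) (by decide +kernel)
                  (CovZ.n2 (3360, 31180) (by decide +kernel)
                   (CovZ.leaf K2_ok TE_l12148 _)
                   (CovZ.leaf K2_ok TE_l12149 _))
                  (CovZ.leaf K2_ok TE_l12150 _)))
                (CovZ.n1 (3320, 31120) (by decide +kernel)
                 (CovZ.n2 (3300, 31140) (by decide +kernel)
                  (CovZ.leaf K2_ok TE_l12151 _)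
                  (CovZ.leaf K2_ok TE_l12152 _))
                 (CovZ.n1 (3340, 31140) (by decide +kernel)
                  (CovZ.n2 (3340, 31120) (by decide +kernel)
                   (CovZ.leaf K2_ok TE_l12153 _)
                   (CovZ.leaf K2_ok TE_l12154 _))
                  (CovZ.leaf K2_ok TE_l12155 _))))))
             (CovZ.n1 (3280, 31040) (by decide +kernel)
              (CovZ.n2 (3240, 31080) (by decide +kernel)
               (CovZ.n2 (3280, 31080) (by decide +kernel)
                (CovZ.n2 (3260, 31060) (by decide +kernel)
                 (CovZ.leaf K2_ok TE_l12156 _)
                 (CovZ.leaf K2_ok TE_l12157 _))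
                (CovZ.leaf K2_ok TE_l12158 _))
               (CovZ.n1 (3240, 31040) (by decide +kernel)
                (CovZ.leaf K2_ok TE_l12159 _)
                (CovZ.n1 (3260, 31060) (by decide +kernel)
                 (CovZ.leaf K2_ok TE_l12160 _)
                 (CovZ.leaf K2_ok TE_l12161 _))))
              (CovZ.n1 (3320, 31080) (by decide +kernel)
               (CovZ.n2 (3320, 31040) (by decide +kernel)
                (CovZ.n2 (3300, 31060) (by decide +kernel)
                 (CovZ.leaf K2_ok TE_l12162 _)
                 (CovZ.leaf K2_ok TE_l12163 _))
                (CovZ.subM 64903710891264143842698513789091904 (by decide +kernel)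
                 (CovZ.n1 (3340, 31060) (by decide +kernel)
                  (CovZ.n2 (3340, 31040) (by decide +kernel)
                   (CovZ.leaf K2_ok TE_l12164 _)
                   (CovZ.n1 (3350, 31050) (by decide +kernel)
                    (CovZ.leaf K2_ok TE_l12165 _)
                    (CovZ.leaf K2_ok TE_l12166 _)))
                  (CovZ.leaf K2_ok TE_l12167 _))))
               (CovZ.n1 (3280, 31080) (by decide +kernel)
                (CovZ.n2 (3300, 31100) (by decide +kernel)
                 (CovZ.leaf K2_ok TE_l12168 _)
                 (CovZ.leaf K2_ok TE_l12169 _))
                (CovZ.n1 (3300, 31060) (by decide +kernel)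
                 (CovZ.leaf K2_ok TE_l12170 _)
                 (CovZ.leaf K2_ok TE_l12171 _))))))
            (CovZ.subM 2596148588846212300895507791872064 (by decide +kernel)
             (CovZ.n1 (3440, 31120) (by decide +kernel)
              (CovZ.n2 (3440, 31040) (by decide +kernel)
               (CovZ.n2 (3400, 31080) (by decide +kernel)
                (CovZ.subM 154742504910672534362521600 (by decide +kernel)
                 (CovZ.n2 (3440, 31080) (by decide +kernel)
                  (CovZ.n2 (3420, 31060) (by decide +kernel)
                   (CovZ.n2 (3420, 31080) (by decide +kernel)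
                    (CovZ.badM (by decide +kernel))
                    (CovZ.n1 (3410, 31070) (by decide +kernel)
                     (CovZ.leaf K2_ok TE_l12172 _)
                     (CovZ.badM (by decide +kernel))))
                   (CovZ.badM (by decide +kernel)))
                  (CovZ.n1 (3420, 31100) (by decide +kernel)
                   (CovZ.badM (by decide +kernel))
                   (CovZ.n1 (3420, 31080) (by decide +kernel)
                    (CovZ.n2 (3410, 31090) (by decide +kernel)
                     (CovZ.badM (by decide +kernel))
                     (CovZ.leaf K2_ok TE_l12173 _))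
                    (CovZ.badM (by decide +kernel))))))
                (CovZ.n1 (3400, 31040) (by decide +kernel)
                 (CovZ.n2 (3380, 31060) (by decide +kernel)
                  (CovZ.n2 (3400, 31060) (by decide +kernel)
                   (CovZ.n2 (3390, 31050) (by decide +kernel)
                    (CovZ.leaf K2_ok TE_l12174 _)
                    (CovZ.leaf K2_ok TE_l12175 _))
                   (CovZ.leaf K2_ok TE_l12176 _))
                  (CovZ.n1 (3380, 31040) (by decide +kernel)
                   (CovZ.leaf K2_ok TE_l12177 _)
                   (CovZ.n1 (3390, 31050) (by decide +kernel)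
                    (CovZ.leaf K2_ok TE_l12178 _)
                    (CovZ.leaf K2_ok TE_l12179 _))))
                 (CovZ.subM 154742504910672534362521664 (by decide +kernel)
                  (CovZ.n1 (3420, 31060) (by decide +kernel)
                   (CovZ.n2 (3420, 31040) (by decide +kernel)
                    (CovZ.n2 (3410, 31050) (by decide +kernel)
                     (CovZ.badM (by decide +kernel))
                     (CovZ.leaf K2_ok TE_l12180 _))
                    (CovZ.badM (by decide +kernel)))
                   (CovZ.n1 (3400, 31060) (by decide +kernel)
                    (CovZ.n2 (3410, 31070) (by decide +kernel)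
                     (CovZ.leaf K2_ok TE_l12181 _)
                     (CovZ.leaf K2_ok TE_l12182 _))
                    (CovZ.leaf K2_ok TE_l12183 _))))))
               (CovZ.badM (by decide +kernel)))
              (CovZ.n1 (3360, 31120) (by decide +kernel)
               (CovZ.n2 (3400, 31160) (by decide +kernel)
                (CovZ.subM 154742504911798434269364288 (by decide +kernel)
                 (CovZ.n2 (3400, 31120) (by decide +kernel)
                  (CovZ.n2 (3380, 31140) (by decide +kernel)
                   (CovZ.n2 (3400, 31140) (by decide +kernel)
                    (CovZ.n2 (3390, 31130) (by decide +kernel)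
                     (CovZ.leaf K2_ok TE_l12184 _)
                     (CovZ.leaf K2_ok TE_l12185 _))
                    (CovZ.leaf K2_ok TE_l12186 _))
                   (CovZ.n1 (3380, 31120) (by decide +kernel)
                    (CovZ.leaf K2_ok TE_l12187 _)
                    (CovZ.n1 (3390, 31130) (by decide +kernel)
                     (CovZ.leaf K2_ok TE_l12188 _)
                     (CovZ.leaf K2_ok TE_l12189 _))))
                  (CovZ.n1 (3420, 31140) (by decide +kernel)
                   (CovZ.n2 (3420, 31120) (by decide +kernel)
                    (CovZ.leaf K2_ok TE_l12190 _)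
                    (CovZ.badM (by decide +kernel)))
                   (CovZ.n1 (3400, 31140) (by decide +kernel)
                    (CovZ.n2 (3410, 31150) (by decide +kernel)
                     (CovZ.leaf K2_ok TE_l12191 _)
                     (CovZ.leaf K2_ok TE_l12192 _))
                    (CovZ.leaf K2_ok TE_l12193 _)))))
                (CovZ.n1 (3360, 31160) (by decide +kernel)
                 (CovZ.subM 154742504912361384222785536 (by decide +kernel)
                  (CovZ.n2 (3380, 31180) (by decide +kernel)
                   (CovZ.n2 (3380, 31160) (by decide +kernel)
                    (CovZ.leaf K2_ok TE_l12194 _)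
                    (CovZ.n1 (3390, 31170) (by decide +kernel)
                     (CovZ.leaf K2_ok TE_l12195 _)
                     (CovZ.leaf K2_ok TE_l12196 _)))
                   (CovZ.n1 (3360, 31180) (by decide +kernel)
                    (CovZ.n2 (3370, 31190) (by decide +kernel)
                     (CovZ.leaf K2_ok TE_l12197 _)
                     (CovZ.leaf K2_ok TE_l12198 _))
                    (CovZ.leaf K2_ok TE_l12199 _))))
                 (CovZ.n1 (3380, 31140) (by decide +kernel)
                  (CovZ.n2 (3360, 31140) (by decide +kernel)
                   (CovZ.n2 (3370, 31150) (by decide +kernel)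
                    (CovZ.leaf K2_ok TE_l12200 _)
                    (CovZ.leaf K2_ok TE_l12201 _))
                   (CovZ.leaf K2_ok TE_l12202 _))
                  (CovZ.n1 (3380, 31160) (by decide +kernel)
                   (CovZ.leaf K2_ok TE_l12203 _)
                   (CovZ.leaf K2_ok TE_l12204 _)))))
               (CovZ.n1 (3400, 31080) (by decide +kernel)
                (CovZ.n2 (3360, 31080) (by decide +kernel)
                 (CovZ.n2 (3380, 31100) (by decide +kernel)
                  (CovZ.n2 (3380, 31080) (by decide +kernel)
                   (CovZ.leaf K2_ok TE_l12205 _)
                   (CovZ.n1 (3390, 31090) (by decide +kernel)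
                    (CovZ.leaf K2_ok TE_l12206 _)
                    (CovZ.leaf K2_ok TE_l12207 _)))
                  (CovZ.n1 (3360, 31100) (by decide +kernel)
                   (CovZ.leaf K2_ok TE_l12208 _)
                   (CovZ.leaf K2_ok TE_l12209 _)))
                 (CovZ.n1 (3380, 31060) (by decide +kernel)
                  (CovZ.n2 (3360, 31060) (by decide +kernel)
                   (CovZ.leaf K2_ok TE_l12210 _)
                   (CovZ.leaf K2_ok TE_l12211 _))
                  (CovZ.n1 (3380, 31080) (by decide +kernel)
                   (CovZ.leaf K2_ok TE_l12212 _)
                   (CovZ.n1 (3370, 31070) (by decide +kernel)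
                    (CovZ.leaf K2_ok TE_l12213 _)
                    (CovZ.leaf K2_ok TE_l12214 _)))))
                (CovZ.subM 154742504911798434269364288 (by decide +kernel)
                 (CovZ.n1 (3400, 31120) (by decide +kernel)
                  (CovZ.n2 (3420, 31100) (by decide +kernel)
                   (CovZ.n2 (3400, 31100) (by decide +kernel)
                    (CovZ.n2 (3410, 31110) (by decide +kernel)
                     (CovZ.leaf K2_ok TE_l12215 _)
                     (CovZ.leaf K2_ok TE_l12216 _))
                    (CovZ.n1 (3410, 31090) (by decide +kernel)
                     (CovZ.leaf K2_ok TE_l12217 _)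
                     (CovZ.leaf K2_ok TE_l12218 _)))
                   (CovZ.n1 (3420, 31120) (by decide +kernel)
                    (CovZ.badM (by decide +kernel))
                    (CovZ.n1 (3410, 31110) (by decide +kernel)
                     (CovZ.leaf K2_ok TE_l12219 _)
                     (CovZ.badM (by decide +kernel)))))
                  (CovZ.n1 (3380, 31100) (by decide +kernel)
                   (CovZ.n2 (3380, 31120) (by decide +kernel)
                    (CovZ.leaf K2_ok TE_l12220 _)
                    (CovZ.n1 (3370, 31110) (by decide +kernel)
                     (CovZ.leaf K2_ok TE_l12221 _)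
                     (CovZ.leaf K2_ok TE_l12222 _)))
                   (CovZ.n1 (3400, 31100) (by decide +kernel)
                    (CovZ.n2 (3390, 31090) (by decide +kernel)
                     (CovZ.leaf K2_ok TE_l12223 _)
                     (CovZ.leaf K2_ok TE_l12224 _))
                    (CovZ.leaf K2_ok TE_l12225 _))))))))))

theorem TE_u235 : CovZ TE_M (toL (selN TE_LN 231544157483167968496745179106115650)) [0, 7, 6, 1] (3360, 31200) (3200, 31360) (3200, 31040) :=
    (CovZ.n1 (3200, 31200) (by decide +kernel)
            (CovZ.n2 (3280, 31280) (by decide +kernel)
             (CovZ.n2 (3280, 31200) (by decide +kernel)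
              (CovZ.n2 (3240, 31240) (by decide +kernel)
               (CovZ.n2 (3280, 31240) (by decide +kernel)
                (CovZ.n2 (3260, 31220) (by decide +kernel)
                 (CovZ.leaf K2_ok TE_l12226 _)
                 (CovZ.leaf K2_ok TE_l12227 _))
                (CovZ.leaf K2_ok TE_l12228 _))
               (CovZ.n1 (3240, 31200) (by decide +kernel)
                (CovZ.leaf K2_ok TE_l12229 _)
                (CovZ.n1 (3260, 31220) (by decide +kernel)
                 (CovZ.leaf K2_ok TE_l12230 _)
                 (CovZ.leaf K2_ok TE_l12231 _))))
              (CovZ.subM 162269339928326133064036830543936 (by decide +kernel)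
               (CovZ.n1 (3320, 31240) (by decide +kernel)
                (CovZ.n2 (3320, 31200) (by decide +kernel)
                 (CovZ.n2 (3300, 31220) (by decide +kernel)
                  (CovZ.leaf K2_ok TE_l12232 _)
                  (CovZ.leaf K2_ok TE_l12233 _))
                 (CovZ.n1 (3340, 31220) (by decide +kernel)
                  (CovZ.leaf K2_ok TE_l12234 _)
                  (CovZ.leaf K2_ok TE_l12235 _)))
                (CovZ.n1 (3280, 31240) (by decide +kernel)
                 (CovZ.n2 (3300, 31260) (by decide +kernel)
                  (CovZ.leaf K2_ok TE_l12236 _)
                  (CovZ.leaf K2_ok TE_l12237 _))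
                 (CovZ.n1 (3300, 31220) (by decide +kernel)
                  (CovZ.leaf K2_ok TE_l12238 _)
                  (CovZ.leaf K2_ok TE_l12239 _))))))
             (CovZ.n1 (3200, 31280) (by decide +kernel)
              (CovZ.n2 (3240, 31320) (by decide +kernel)
               (CovZ.n2 (3240, 31280) (by decide +kernel)
                (CovZ.leaf K2_ok TE_l12240 _)
                (CovZ.n1 (3260, 31300) (by decide +kernel)
                 (CovZ.leaf K2_ok TE_l12241 _)
                 (CovZ.leaf K2_ok TE_l12242 _)))
               (CovZ.n1 (3200, 31320) (by decide +kernel)
                (CovZ.leaf K2_ok TE_l12243 _)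
                (CovZ.leaf K2_ok TE_l12244 _)))
              (CovZ.n1 (3240, 31240) (by decide +kernel)
               (CovZ.n2 (3200, 31240) (by decide +kernel)
                (CovZ.n2 (3220, 31260) (by decide +kernel)
                 (CovZ.leaf K2_ok TE_l12245 _)
                 (CovZ.leaf K2_ok TE_l12246 _))
                (CovZ.leaf K2_ok TE_l12247 _))
               (CovZ.n1 (3240, 31280) (by decide +kernel)
                (CovZ.leaf K2_ok TE_l12248 _)
                (CovZ.leaf K2_ok TE_l12249 _)))))
            (CovZ.n1 (3280, 31120) (by decide +kernel)
             (CovZ.n2 (3200, 31120) (by decide +kernel)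
              (CovZ.n2 (3240, 31160) (by decide +kernel)
               (CovZ.n2 (3240, 31120) (by decide +kernel)
                (CovZ.leaf K2_ok TE_l12250 _)
                (CovZ.n1 (3260, 31140) (by decide +kernel)
                 (CovZ.leaf K2_ok TE_l12251 _)
                 (CovZ.leaf K2_ok TE_l12252 _)))
               (CovZ.n1 (3200, 31160) (by decide +kernel)
                (CovZ.n2 (3220, 31180) (by decide +kernel)
                 (CovZ.leaf K2_ok TE_l12253 _)
                 (CovZ.leaf K2_ok TE_l12254 _))
                (CovZ.leaf K2_ok TE_l12255 _)))
              (CovZ.n1 (3240, 31080) (by decide +kernel)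
               (CovZ.n2 (3200, 31080) (by decide +kernel)
                (CovZ.n2 (3220, 31100) (by decide +kernel)
                 (CovZ.leaf K2_ok TE_l12256 _)
                 (CovZ.leaf K2_ok TE_l12257 _))
                (CovZ.leaf K2_ok TE_l12258 _))
               (CovZ.n1 (3240, 31120) (by decide +kernel)
                (CovZ.leaf K2_ok TE_l12259 _)
                (CovZ.n1 (3220, 31100) (by decide +kernel)
                 (CovZ.leaf K2_ok TE_l12260 _)
                 (CovZ.leaf K2_ok TE_l12261 _)))))
             (CovZ.n1 (3280, 31200) (by decide +kernel)
              (CovZ.subM 228461071838631528425014297305940032 (by decide +kernel)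
               (CovZ.n2 (3320, 31160) (by decide +kernel)
                (CovZ.n2 (3280, 31160) (by decide +kernel)
                 (CovZ.n2 (3300, 31180) (by decide +kernel)
                  (CovZ.leaf K2_ok TE_l12262 _)
                  (CovZ.leaf K2_ok TE_l12263 _))
                 (CovZ.n1 (3300, 31140) (by decide +kernel)
                  (CovZ.leaf K2_ok TE_l12264 _)
                  (CovZ.leaf K2_ok TE_l12265 _)))
                (CovZ.n1 (3320, 31200) (by decide +kernel)
                 (CovZ.n2 (3340, 31180) (by decide +kernel)
                  (CovZ.leaf K2_ok TE_l12266 _)
                  (CovZ.n1 (3340, 31200) (by decide +kernel)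
                   (CovZ.leaf K2_ok TE_l12267 _)
                   (CovZ.leaf K2_ok TE_l12268 _)))
                 (CovZ.n1 (3300, 31180) (by decide +kernel)
                  (CovZ.leaf K2_ok TE_l12269 _)
                  (CovZ.leaf K2_ok TE_l12270 _)))))
              (CovZ.n1 (3240, 31160) (by decide +kernel)
               (CovZ.n2 (3240, 31200) (by decide +kernel)
                (CovZ.n2 (3260, 31180) (by decide +kernel)
                 (CovZ.leaf K2_ok TE_l12271 _)
                 (CovZ.leaf K2_ok TE_l12272 _))
                (CovZ.leaf K2_ok TE_l12273 _))
               (CovZ.n1 (3280, 31160) (by decide +kernel)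
                (CovZ.n2 (3260, 31140) (by decide +kernel)
                 (CovZ.leaf K2_ok TE_l12274 _)
                 (CovZ.leaf K2_ok TE_l12275 _))
                (CovZ.leaf K2_ok TE_l12276 _))))))

theorem TE_u236 : CovZ TE_M (toL (selN TE_LN 231544157483167968496745179106115650)) [0, 7, 6, 1] (3200, 30720) (3360, 30880) (3200, 31040) :=
    (CovZ.n2 (3200, 30880) (by decide +kernel)
            (CovZ.n2 (3280, 30960) (by decide +kernel)
             (CovZ.n2 (3280, 30880) (by decide +kernel)
              (CovZ.n2 (3240, 30920) (by decide +kernel)
               (CovZ.n2 (3280, 30920) (by decide +kernel)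
                (CovZ.n2 (3260, 30900) (by decide +kernel)
                 (CovZ.leaf K2_ok TE_l12277 _)
                 (CovZ.leaf K2_ok TE_l12278 _))
                (CovZ.leaf K2_ok TE_l12279 _))
               (CovZ.n1 (3240, 30880) (by decide +kernel)
                (CovZ.leaf K2_ok TE_l12280 _)
                (CovZ.n1 (3260, 30900) (by decide +kernel)
                 (CovZ.leaf K2_ok TE_l12281 _)
                 (CovZ.leaf K2_ok TE_l12282 _))))
              (CovZ.n1 (3320, 30920) (by decide +kernel)
               (CovZ.n2 (3320, 30880) (by decide +kernel)
                (CovZ.n2 (3300, 30900) (by decide +kernel)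
                 (CovZ.leaf K2_ok TE_l12283 _)
                 (CovZ.leaf K2_ok TE_l12284 _))
                (CovZ.n1 (3340, 30900) (by decide +kernel)
                 (CovZ.n2 (3340, 30880) (by decide +kernel)
                  (CovZ.leaf K2_ok TE_l12285 _)
                  (CovZ.n1 (3350, 30890) (by decide +kernel)
                   (CovZ.leaf K2_ok TE_l12286 _)
                   (CovZ.leaf K2_ok TE_l12287 _)))
                 (CovZ.leaf K2_ok TE_l12288 _)))
               (CovZ.n1 (3280, 30920) (by decide +kernel)
                (CovZ.n2 (3300, 30940) (by decide +kernel)
                 (CovZ.leaf K2_ok TE_l12289 _)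
                 (CovZ.leaf K2_ok TE_l12290 _))
                (CovZ.n1 (3300, 30900) (by decide +kernel)
                 (CovZ.leaf K2_ok TE_l12291 _)
                 (CovZ.leaf K2_ok TE_l12292 _)))))
             (CovZ.n1 (3200, 30960) (by decide +kernel)
              (CovZ.n2 (3240, 31000) (by decide +kernel)
               (CovZ.n2 (3240, 30960) (by decide +kernel)
                (CovZ.leaf K2_ok TE_l12293 _)
                (CovZ.n1 (3260, 30980) (by decide +kernel)
                 (CovZ.leaf K2_ok TE_l12294 _)
                 (CovZ.leaf K2_ok TE_l12295 _)))
               (CovZ.n1 (3200, 31000) (by decide +kernel)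
                (CovZ.n2 (3220, 31020) (by decide +kernel)
                 (CovZ.leaf K2_ok TE_l12296 _)
                 (CovZ.leaf K2_ok TE_l12297 _))
                (CovZ.leaf K2_ok TE_l12298 _)))
              (CovZ.n1 (3240, 30920) (by decide +kernel)
               (CovZ.n2 (3200, 30920) (by decide +kernel)
                (CovZ.n2 (3220, 30940) (by decide +kernel)
                 (CovZ.leaf K2_ok TE_l12299 _)
                 (CovZ.leaf K2_ok TE_l12300 _))
                (CovZ.leaf K2_ok TE_l12301 _))
               (CovZ.n1 (3240, 30960) (by decide +kernel)
                (CovZ.leaf K2_ok TE_l12302 _)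
                (CovZ.n1 (3220, 30940) (by decide +kernel)
                 (CovZ.leaf K2_ok TE_l12303 _)
                 (CovZ.leaf K2_ok TE_l12304 _))))))
            (CovZ.n1 (3280, 30800) (by decide +kernel)
             (CovZ.n2 (3200, 30800) (by decide +kernel)
              (CovZ.n2 (3240, 30840) (by decide +kernel)
               (CovZ.n2 (3240, 30800) (by decide +kernel)
                (CovZ.leaf K2_ok TE_l12305 _)
                (CovZ.n1 (3260, 30820) (by decide +kernel)
                 (CovZ.leaf K2_ok TE_l12306 _)
                 (CovZ.leaf K2_ok TE_l12307 _)))
               (CovZ.n1 (3200, 30840) (by decide +kernel)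
                (CovZ.n2 (3220, 30860) (by decide +kernel)
                 (CovZ.leaf K2_ok TE_l12308 _)
                 (CovZ.leaf K2_ok TE_l12309 _))
                (CovZ.leaf K2_ok TE_l12310 _)))
              (CovZ.n1 (3240, 30760) (by decide +kernel)
               (CovZ.n2 (3200, 30760) (by decide +kernel)
                (CovZ.n2 (3220, 30780) (by decide +kernel)
                 (CovZ.leaf K2_ok TE_l12311 _)
                 (CovZ.leaf K2_ok TE_l12312 _))
                (CovZ.leaf K2_ok TE_l12313 _))
               (CovZ.n1 (3240, 30800) (by decide +kernel)
                (CovZ.n2 (3260, 30780) (by decide +kernel)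
                 (CovZ.leaf K2_ok TE_l12314 _)
                 (CovZ.leaf K2_ok TE_l12315 _))
                (CovZ.n1 (3220, 30780) (by decide +kernel)
                 (CovZ.leaf K2_ok TE_l12316 _)
                 (CovZ.leaf K2_ok TE_l12317 _)))))
             (CovZ.n1 (3280, 30880) (by decide +kernel)
              (CovZ.n2 (3320, 30840) (by decide +kernel)
               (CovZ.n2 (3280, 30840) (by decide +kernel)
                (CovZ.n2 (3300, 30860) (by decide +kernel)
                 (CovZ.leaf K2_ok TE_l12318 _)
                 (CovZ.leaf K2_ok TE_l12319 _))
                (CovZ.n1 (3300, 30820) (by decide +kernel)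
                 (CovZ.leaf K2_ok TE_l12320 _)
                 (CovZ.leaf K2_ok TE_l12321 _)))
               (CovZ.n1 (3320, 30880) (by decide +kernel)
                (CovZ.n2 (3340, 30860) (by decide +kernel)
                 (CovZ.leaf K2_ok TE_l12322 _)
                 (CovZ.n1 (3340, 30880) (by decide +kernel)
                  (CovZ.leaf K2_ok TE_l12323 _)
                  (CovZ.leaf K2_ok TE_l12324 _)))
                (CovZ.n1 (3300, 30860) (by decide +kernel)
                 (CovZ.leaf K2_ok TE_l12325 _)
                 (CovZ.leaf K2_ok TE_l12326 _))))
              (CovZ.n1 (3240, 30840) (by decide +kernel)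
               (CovZ.n2 (3240, 30880) (by decide +kernel)
                (CovZ.n2 (3260, 30860) (by decide +kernel)
                 (CovZ.leaf K2_ok TE_l12327 _)
                 (CovZ.leaf K2_ok TE_l12328 _))
                (CovZ.n1 (3220, 30860) (by decide +kernel)
                 (CovZ.leaf K2_ok TE_l12329 _)
                 (CovZ.leaf K2_ok TE_l12330 _)))
               (CovZ.n1 (3280, 30840) (by decide +kernel)
                (CovZ.n2 (3260, 30820) (by decide +kernel)
                 (CovZ.leaf K2_ok TE_l12331 _)
                 (CovZ.leaf K2_ok TE_l12332 _))
                (CovZ.n1 (3260, 30860) (by decide +kernel)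
                 (CovZ.leaf K2_ok TE_l12333 _)
                 (CovZ.leaf K2_ok TE_l12334 _)))))))

theorem TE_u237 : CovZ TE_M (toL (selN TE_LN 231544157483167968496745179106115650)) [0, 7, 6, 1] (3360, 30880) (3520, 31040) (3200, 31040) :=
    (CovZ.n1 (3360, 31040) (by decide +kernel)
            (CovZ.subM 228785580488770231164002662885752898 (by decide +kernel)
             (CovZ.n2 (3440, 30960) (by decide +kernel)
              (CovZ.n2 (3360, 30960) (by decide +kernel)
               (CovZ.n2 (3400, 31000) (by decide +kernel)
                (CovZ.n2 (3400, 30960) (by decide +kernel)
                 (CovZ.n2 (3380, 30980) (by decide +kernel)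
                  (CovZ.n2 (3400, 30980) (by decide +kernel)
                   (CovZ.n2 (3390, 30970) (by decide +kernel)
                    (CovZ.leaf K2_ok TE_l12335 _)
                    (CovZ.leaf K2_ok TE_l12336 _))
                   (CovZ.leaf K2_ok TE_l12337 _))
                  (CovZ.n1 (3380, 30960) (by decide +kernel)
                   (CovZ.leaf K2_ok TE_l12338 _)
                   (CovZ.n1 (3390, 30970) (by decide +kernel)
                    (CovZ.leaf K2_ok TE_l12339 _)
                    (CovZ.leaf K2_ok TE_l12340 _))))
                 (CovZ.subM 154742504910672534362521664 (by decide +kernel)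
                  (CovZ.n1 (3420, 30980) (by decide +kernel)
                   (CovZ.n2 (3420, 30960) (by decide +kernel)
                    (CovZ.n2 (3410, 30970) (by decide +kernel)
                     (CovZ.badM (by decide +kernel))
                     (CovZ.leaf K2_ok TE_l18307 _))
                    (CovZ.badM (by decide +kernel)))
                   (CovZ.n1 (3400, 30980) (by decide +kernel)
                    (CovZ.n2 (3410, 30990) (by decide +kernel)
                     (CovZ.leaf K2_ok TE_l18308 _)
                     (CovZ.leaf K2_ok TE_l18309 _))
                    (CovZ.n1 (3410, 30970) (by decide +kernel)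
                     (CovZ.leaf K2_ok TE_l18310 _)
                     (CovZ.leaf K2_ok TE_l18311 _))))))
                (CovZ.n1 (3360, 31000) (by decide +kernel)
                 (CovZ.subM 159578208190256950968188992 (by decide +kernel)
                  (CovZ.n2 (3380, 31020) (by decide +kernel)
                   (CovZ.n2 (3380, 31000) (by decide +kernel)
                    (CovZ.leaf K2_ok TE_l12341 _)
                    (CovZ.n1 (3390, 31010) (by decide +kernel)
                     (CovZ.leaf K2_ok TE_l12342 _)
                     (CovZ.leaf K2_ok TE_l12343 _)))
                   (CovZ.n1 (3360, 31020) (by decide +kernel)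
                    (CovZ.n2 (3370, 31030) (by decide +kernel)
                     (CovZ.leaf K2_ok TE_l12344 _)
                     (CovZ.leaf K2_ok TE_l12345 _))
                    (CovZ.leaf K2_ok TE_l12346 _))))
                 (CovZ.n1 (3380, 30980) (by decide +kernel)
                  (CovZ.n2 (3360, 30980) (by decide +kernel)
                   (CovZ.n2 (3370, 30990) (by decide +kernel)
                    (CovZ.leaf K2_ok TE_l12347 _)
                    (CovZ.leaf K2_ok TE_l12348 _))
                   (CovZ.leaf K2_ok TE_l12349 _))
                  (CovZ.n1 (3380, 31000) (by decide +kernel)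
                   (CovZ.leaf K2_ok TE_l12350 _)
                   (CovZ.leaf K2_ok TE_l12351 _)))))
               (CovZ.n1 (3400, 30920) (by decide +kernel)
                (CovZ.n2 (3360, 30920) (by decide +kernel)
                 (CovZ.n2 (3380, 30940) (by decide +kernel)
                  (CovZ.n2 (3380, 30920) (by decide +kernel)
                   (CovZ.leaf K2_ok TE_l12352 _)
                   (CovZ.n1 (3390, 30930) (by decide +kernel)
                    (CovZ.leaf K2_ok TE_l12353 _)
                    (CovZ.leaf K2_ok TE_l12354 _)))
                  (CovZ.n1 (3360, 30940) (by decide +kernel)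
                   (CovZ.n2 (3370, 30950) (by decide +kernel)
                    (CovZ.leaf K2_ok TE_l12355 _)
                    (CovZ.leaf K2_ok TE_l12356 _))
                   (CovZ.leaf K2_ok TE_l12357 _)))
                 (CovZ.n1 (3380, 30900) (by decide +kernel)
                  (CovZ.n2 (3360, 30900) (by decide +kernel)
                   (CovZ.n2 (3370, 30910) (by decide +kernel)
                    (CovZ.leaf K2_ok TE_l12358 _)
                    (CovZ.leaf K2_ok TE_l12359 _))
                   (CovZ.leaf K2_ok TE_l12360 _))
                  (CovZ.n1 (3380, 30920) (by decide +kernel)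
                   (CovZ.leaf K2_ok TE_l12361 _)
                   (CovZ.leaf K2_ok TE_l12362 _))))
                (CovZ.n1 (3400, 30960) (by decide +kernel)
                 (CovZ.subM 159579388780751768472649728 (by decide +kernel)
                  (CovZ.n2 (3420, 30940) (by decide +kernel)
                   (CovZ.n2 (3400, 30940) (by decide +kernel)
                    (CovZ.n2 (3410, 30950) (by decide +kernel)
                     (CovZ.leaf K2_ok TE_l18312 _)
                     (CovZ.leaf K2_ok TE_l18313 _))
                    (CovZ.leaf K2_ok TE_l18314 _))
                   (CovZ.n1 (3420, 30960) (by decide +kernel)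
                    (CovZ.n2 (3430, 30950) (by decide +kernel)
                     (CovZ.leaf K2_ok TE_l18315 _)
                     (CovZ.badM (by decide +kernel)))
                    (CovZ.n1 (3410, 30950) (by decide +kernel)
                     (CovZ.leaf K2_ok TE_l18316 _)
                     (CovZ.leaf K2_ok TE_l18317 _)))))
                 (CovZ.n1 (3380, 30940) (by decide +kernel)
                  (CovZ.n2 (3380, 30960) (by decide +kernel)
                   (CovZ.n2 (3390, 30950) (by decide +kernel)
                    (CovZ.leaf K2_ok TE_l12363 _)
                    (CovZ.leaf K2_ok TE_l12364 _))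
                   (CovZ.n1 (3370, 30950) (by decide +kernel)
                    (CovZ.leaf K2_ok TE_l12365 _)
                    (CovZ.leaf K2_ok TE_l12366 _)))
                  (CovZ.subM 159579388780751768472649728 (by decide +kernel)
                   (CovZ.n1 (3400, 30940) (by decide +kernel)
                    (CovZ.n2 (3390, 30930) (by decide +kernel)
                     (CovZ.leaf K2_ok TE_l12367 _)
                     (CovZ.leaf K2_ok TE_l12368 _))
                    (CovZ.n1 (3390, 30950) (by decide +kernel)
                     (CovZ.leaf K2_ok TE_l12369 _)
                     (CovZ.leaf K2_ok TE_l12370 _))))))))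
              (CovZ.subM 159578208190256950968188992 (by decide +kernel)
               (CovZ.n1 (3440, 31040) (by decide +kernel)
                (CovZ.badM (by decide +kernel))
                (CovZ.n1 (3400, 31000) (by decide +kernel)
                 (CovZ.n2 (3400, 31040) (by decide +kernel)
                  (CovZ.n2 (3420, 31020) (by decide +kernel)
                   (CovZ.n2 (3400, 31020) (by decide +kernel)
                    (CovZ.n2 (3410, 31030) (by decide +kernel)
                     (CovZ.leaf K2_ok TE_l12371 _)
                     (CovZ.leaf K2_ok TE_l12372 _))
                    (CovZ.n1 (3410, 31010) (by decide +kernel)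
                     (CovZ.leaf K2_ok TE_l12373 _)
                     (CovZ.leaf K2_ok TE_l12374 _)))
                   (CovZ.n1 (3420, 31040) (by decide +kernel)
                    (CovZ.badM (by decide +kernel))
                    (CovZ.n1 (3410, 31030) (by decide +kernel)
                     (CovZ.leaf K2_ok TE_l12375 _)
                     (CovZ.badM (by decide +kernel)))))
                  (CovZ.n1 (3380, 31020) (by decide +kernel)
                   (CovZ.n2 (3380, 31040) (by decide +kernel)
                    (CovZ.leaf K2_ok TE_l12376 _)
                    (CovZ.leaf K2_ok TE_l12377 _))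
                   (CovZ.n1 (3400, 31020) (by decide +kernel)
                    (CovZ.n2 (3390, 31010) (by decide +kernel)
                     (CovZ.leaf K2_ok TE_l12378 _)
                     (CovZ.leaf K2_ok TE_l12379 _))
                    (CovZ.leaf K2_ok TE_l12380 _))))
                 (CovZ.n1 (3440, 31000) (by decide +kernel)
                  (CovZ.n2 (3420, 30980) (by decide +kernel)
                   (CovZ.n2 (3420, 31000) (by decide +kernel)
                    (CovZ.badM (by decide +kernel))
                    (CovZ.n1 (3410, 30990) (by decide +kernel)
                     (CovZ.n2 (3410, 31000) (by decide +kernel)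
                      (CovZ.badM (by decide +kernel))
                      (CovZ.leaf K2_ok TE_l18318 _))
                     (CovZ.badM (by decide +kernel))))
                   (CovZ.badM (by decide +kernel)))
                  (CovZ.n1 (3420, 31020) (by decide +kernel)
                   (CovZ.badM (by decide +kernel))
                   (CovZ.n1 (3420, 31000) (by decide +kernel)
                    (CovZ.n2 (3410, 31010) (by decide +kernel)
                     (CovZ.leaf K2_ok TE_l18319 _)
                     (CovZ.leaf K2_ok TE_l18320 _))
                    (CovZ.badM (by decide +kernel))))))))))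
            (CovZ.n1 (3280, 30960) (by decide +kernel)
             (CovZ.n2 (3280, 31040) (by decide +kernel)
              (CovZ.n2 (3320, 31000) (by decide +kernel)
               (CovZ.n2 (3280, 31000) (by decide +kernel)
                (CovZ.n2 (3300, 31020) (by decide +kernel)
                 (CovZ.leaf K2_ok TE_l12381 _)
                 (CovZ.leaf K2_ok TE_l12382 _))
                (CovZ.n1 (3300, 30980) (by decide +kernel)
                 (CovZ.leaf K2_ok TE_l12383 _)
                 (CovZ.leaf K2_ok TE_l12384 _)))
               (CovZ.n1 (3320, 31040) (by decide +kernel)
                (CovZ.n2 (3340, 31020) (by decide +kernel)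
                 (CovZ.leaf K2_ok TE_l12385 _)
                 (CovZ.n1 (3340, 31040) (by decide +kernel)
                  (CovZ.leaf K2_ok TE_l12386 _)
                  (CovZ.leaf K2_ok TE_l12387 _)))
                (CovZ.n1 (3300, 31020) (by decide +kernel)
                 (CovZ.leaf K2_ok TE_l12388 _)
                 (CovZ.leaf K2_ok TE_l12389 _))))
              (CovZ.n1 (3240, 31000) (by decide +kernel)
               (CovZ.n2 (3240, 31040) (by decide +kernel)
                (CovZ.leaf K2_ok TE_l12390 _)
                (CovZ.n1 (3220, 31020) (by decide +kernel)
                 (CovZ.leaf K2_ok TE_l12391 _)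
                 (CovZ.leaf K2_ok TE_l12392 _)))
               (CovZ.n1 (3280, 31000) (by decide +kernel)
                (CovZ.n2 (3260, 30980) (by decide +kernel)
                 (CovZ.leaf K2_ok TE_l12393 _)
                 (CovZ.leaf K2_ok TE_l12394 _))
                (CovZ.leaf K2_ok TE_l12395 _))))
             (CovZ.n1 (3360, 30960) (by decide +kernel)
              (CovZ.n2 (3320, 30920) (by decide +kernel)
               (CovZ.n2 (3320, 30960) (by decide +kernel)
                (CovZ.subM 228785738945095259692677849973653570 (by decide +kernel)
                 (CovZ.n2 (3340, 30940) (by decide +kernel)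
                  (CovZ.n2 (3320, 30940) (by decide +kernel)
                   (CovZ.leaf K2_ok TE_l12396 _)
                   (CovZ.leaf K2_ok TE_l12397 _))
                  (CovZ.n1 (3340, 30960) (by decide +kernel)
                   (CovZ.leaf K2_ok TE_l12398 _)
                   (CovZ.leaf K2_ok TE_l12399 _))))
                (CovZ.n1 (3300, 30940) (by decide +kernel)
                 (CovZ.leaf K2_ok TE_l12400 _)
                 (CovZ.leaf K2_ok TE_l12401 _)))
               (CovZ.subM 228785738945095259692677849973653570 (by decide +kernel)
                (CovZ.n1 (3360, 30920) (by decide +kernel)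
                 (CovZ.n2 (3340, 30900) (by decide +kernel)
                  (CovZ.n2 (3340, 30920) (by decide +kernel)
                   (CovZ.leaf K2_ok TE_l12402 _)
                   (CovZ.leaf K2_ok TE_l12403 _))
                  (CovZ.n1 (3360, 30900) (by decide +kernel)
                   (CovZ.leaf K2_ok TE_l12404 _)
                   (CovZ.leaf K2_ok TE_l12405 _)))
                 (CovZ.n1 (3340, 30940) (by decide +kernel)
                  (CovZ.n2 (3360, 30940) (by decide +kernel)
                   (CovZ.leaf K2_ok TE_l12406 _)
                   (CovZ.leaf K2_ok TE_l12407 _))
                  (CovZ.leaf K2_ok TE_l12408 _)))))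
              (CovZ.n1 (3320, 31000) (by decide +kernel)
               (CovZ.subM 231057210364379218251484755029786690 (by decide +kernel)
                (CovZ.n2 (3360, 31000) (by decide +kernel)
                 (CovZ.n2 (3340, 30980) (by decide +kernel)
                  (CovZ.n2 (3340, 31000) (by decide +kernel)
                   (CovZ.leaf K2_ok TE_l12409 _)
                   (CovZ.leaf K2_ok TE_l12410 _))
                  (CovZ.n1 (3360, 30980) (by decide +kernel)
                   (CovZ.n2 (3350, 30970) (by decide +kernel)
                    (CovZ.leaf K2_ok TE_l12411 _)
                    (CovZ.leaf K2_ok TE_l12412 _))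
                   (CovZ.leaf K2_ok TE_l12413 _)))
                 (CovZ.n1 (3340, 31020) (by decide +kernel)
                  (CovZ.n2 (3360, 31020) (by decide +kernel)
                   (CovZ.leaf K2_ok TE_l12414 _)
                   (CovZ.leaf K2_ok TE_l12415 _))
                  (CovZ.n1 (3340, 31000) (by decide +kernel)
                   (CovZ.leaf K2_ok TE_l12416 _)
                   (CovZ.leaf K2_ok TE_l12417 _)))))
               (CovZ.n1 (3320, 30960) (by decide +kernel)
                (CovZ.n2 (3300, 30980) (by decide +kernel)
                 (CovZ.leaf K2_ok TE_l12418 _)
                 (CovZ.leaf K2_ok TE_l12419 _))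
                (CovZ.subM 231381728918037644978267911050362946 (by decide +kernel)
                 (CovZ.n1 (3340, 30980) (by decide +kernel)
                  (CovZ.n2 (3340, 30960) (by decide +kernel)
                   (CovZ.leaf K2_ok TE_l12420 _)
                   (CovZ.leaf K2_ok TE_l12421 _))
                  (CovZ.n1 (3320, 30980) (by decide +kernel)
                   (CovZ.leaf K2_ok TE_l12422 _)
                   (CovZ.leaf K2_ok TE_l12423 _)))))))))

theorem TE_u238 : CovZ TE_M (toL (selN TE_LN 9389528344584158432407092428358930975699108777714253888)) [0, 7, 6, 1] (2560, 32000) (2880, 32000) (2880, 32320) :=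
    (CovZ.n2 (2720, 32160) (by decide +kernel)
           (CovZ.n2 (2880, 32160) (by decide +kernel)
            (CovZ.n2 (2800, 32080) (by decide +kernel)
             (CovZ.subM 9197966401975922324883837988184764173783626984307294208 (by decide +kernel)
              (CovZ.n2 (2800, 32160) (by decide +kernel)
               (CovZ.subM 2993155353253689176481304993732698519413406583226368 (by decide +kernel)
                (CovZ.n2 (2840, 32120) (by decide +kernel)
                 (CovZ.n2 (2800, 32120) (by decide +kernel)
                  (CovZ.n2 (2820, 32140) (by decide +kernel)
                   (CovZ.n2 (2820, 32120) (by decide +kernel)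
                    (CovZ.badM (by decide +kernel))
                    (CovZ.badM (by decide +kernel)))
                   (CovZ.badM (by decide +kernel)))
                  (CovZ.n1 (2820, 32100) (by decide +kernel)
                   (CovZ.n2 (2800, 32100) (by decide +kernel)
                    (CovZ.n2 (2810, 32110) (by decide +kernel)
                     (CovZ.n2 (2810, 32100) (by decide +kernel)
                      (CovZ.leaf K2_ok TE_l19654 _)
                      (CovZ.leaf K2_ok TE_l19655 _))
                     (CovZ.leaf K2_ok TE_l19656 _))
                    (CovZ.leaf K2_ok TE_l12424 _))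
                   (CovZ.n1 (2820, 32120) (by decide +kernel)
                    (CovZ.badM (by decide +kernel))
                    (CovZ.n1 (2810, 32110) (by decide +kernel)
                     (CovZ.leaf K2_ok TE_l19657 _)
                     (CovZ.leaf K2_ok TE_l19658 _)))))
                 (CovZ.n1 (2840, 32160) (by decide +kernel)
                  (CovZ.badM (by decide +kernel))
                  (CovZ.n1 (2820, 32140) (by decide +kernel)
                   (CovZ.badM (by decide +kernel))
                   (CovZ.badM (by decide +kernel))))))
               (CovZ.n1 (2760, 32120) (by decide +kernel)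
                (CovZ.badM (by decide +kernel))
                (CovZ.n1 (2800, 32120) (by decide +kernel)
                 (CovZ.n2 (2780, 32100) (by decide +kernel)
                  (CovZ.n2 (2780, 32120) (by decide +kernel)
                   (CovZ.badM (by decide +kernel))
                   (CovZ.leaf K2_ok TE_l12425 _))
                  (CovZ.n1 (2800, 32100) (by decide +kernel)
                   (CovZ.leaf K2_ok TE_l12426 _)
                   (CovZ.leaf K2_ok TE_l19659 _)))
                 (CovZ.subM 6129982164890890918990662628890413108026735333356863488 (by decide +kernel)
                  (CovZ.n1 (2780, 32140) (by decide +kernel)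
                   (CovZ.badM (by decide +kernel))
                   (CovZ.n1 (2780, 32120) (by decide +kernel)
                    (CovZ.n2 (2770, 32130) (by decide +kernel)
                     (CovZ.badM (by decide +kernel))
                     (CovZ.leaf K2_ok TE_l12427 _))
                    (CovZ.badM (by decide +kernel)))))))))
             (CovZ.subM 2993155353253689218019679866847613121926252621463616 (by decide +kernel)
              (CovZ.n1 (2880, 32080) (by decide +kernel)
               (CovZ.n2 (2840, 32040) (by decide +kernel)
                (CovZ.n2 (2840, 32080) (by decide +kernel)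
                 (CovZ.n2 (2860, 32060) (by decide +kernel)
                  (CovZ.leaf K2_ok TE_l12428 _)
                  (CovZ.n1 (2860, 32080) (by decide +kernel)
                   (CovZ.leaf K2_ok TE_l12429 _)
                   (CovZ.leaf K2_ok TE_l12430 _)))
                 (CovZ.n1 (2820, 32060) (by decide +kernel)
                  (CovZ.leaf K2_ok TE_l12431 _)
                  (CovZ.leaf K2_ok TE_l12432 _)))
                (CovZ.n1 (2880, 32040) (by decide +kernel)
                 (CovZ.leaf K2_ok TE_l12433 _)
                 (CovZ.n1 (2860, 32060) (by decide +kernel)
                  (CovZ.leaf K2_ok TE_l12434 _)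
                  (CovZ.leaf K2_ok TE_l12435 _))))
               (CovZ.n1 (2840, 32120) (by decide +kernel)
                (CovZ.subM 158456325028528675187087900672 (by decide +kernel)
                 (CovZ.n2 (2880, 32120) (by decide +kernel)
                  (CovZ.n2 (2860, 32100) (by decide +kernel)
                   (CovZ.badM (by decide +kernel))
                   (CovZ.n1 (2880, 32100) (by decide +kernel)
                    (CovZ.n2 (2870, 32090) (by decide +kernel)
                     (CovZ.leaf K2_ok TE_l18321 _)
                     (CovZ.leaf K2_ok TE_l18322 _))
                    (CovZ.badM (by decide +kernel))))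
                  (CovZ.badM (by decide +kernel))))
                (CovZ.n1 (2840, 32080) (by decide +kernel)
                 (CovZ.n2 (2820, 32100) (by decide +kernel)
                  (CovZ.n2 (2840, 32100) (by decide +kernel)
                   (CovZ.n2 (2830, 32090) (by decide +kernel)
                    (CovZ.leaf K2_ok TE_l12436 _)
                    (CovZ.leaf K2_ok TE_l12437 _))
                   (CovZ.badM (by decide +kernel)))
                  (CovZ.n1 (2820, 32080) (by decide +kernel)
                   (CovZ.leaf K2_ok TE_l12439 _)
                   (CovZ.leaf K2_ok TE_l12440 _)))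
                 (CovZ.subM 41538533324608371923402027366875136 (by decide +kernel)
                  (CovZ.n1 (2860, 32100) (by decide +kernel)
                   (CovZ.n2 (2860, 32080) (by decide +kernel)
                    (CovZ.leaf K2_ok TE_l12441 _)
                    (CovZ.n1 (2870, 32090) (by decide +kernel)
                     (CovZ.leaf K2_ok TE_l18323 _)
                     (CovZ.leaf K2_ok TE_l18324 _)))
                   (CovZ.n1 (2840, 32100) (by decide +kernel)
                    (CovZ.n2 (2850, 32110) (by decide +kernel)
                     (CovZ.leaf K2_ok TE_l18325 _)
                     (CovZ.badM (by decide +kernel)))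
                    (CovZ.leaf K2_ok TE_l12442 _)))))))))
            (CovZ.n1 (2800, 32240) (by decide +kernel)
             (CovZ.badM (by decide +kernel))
             (CovZ.n1 (2800, 32160) (by decide +kernel)
              (CovZ.badM (by decide +kernel))
              (CovZ.badM (by decide +kernel)))))
           (CovZ.n1 (2720, 32000) (by decide +kernel)
            (CovZ.n2 (2640, 32080) (by decide +kernel)
             (CovZ.n2 (2720, 32080) (by decide +kernel)
              (CovZ.n2 (2680, 32040) (by decide +kernel)
               (CovZ.n2 (2680, 32080) (by decide +kernel)
                (CovZ.leaf K2_ok TE_l12443 _)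
                (CovZ.leaf K2_ok TE_l12444 _))
               (CovZ.n1 (2720, 32040) (by decide +kernel)
                (CovZ.leaf K2_ok TE_l12445 _)
                (CovZ.leaf K2_ok TE_l12446 _)))
              (CovZ.subM 6129982163463556113998771146041810265572895721047195712 (by decide +kernel)
               (CovZ.n1 (2680, 32120) (by decide +kernel)
                (CovZ.n2 (2720, 32120) (by decide +kernel)
                 (CovZ.n2 (2700, 32100) (by decide +kernel)
                  (CovZ.n2 (2700, 32120) (by decide +kernel)
                   (CovZ.leaf K2_ok TE_l12447 _)
                   (CovZ.n1 (2690, 32110) (by decide +kernel)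
                    (CovZ.leaf K2_ok TE_l12448 _)
                    (CovZ.leaf K2_ok TE_l12449 _)))
                  (CovZ.leaf K2_ok TE_l12450 _))
                 (CovZ.subM 4722366482869645213696 (by decide +kernel)
                  (CovZ.n1 (2700, 32140) (by decide +kernel)
                   (CovZ.badM (by decide +kernel))
                   (CovZ.n1 (2700, 32120) (by decide +kernel)
                    (CovZ.n2 (2690, 32130) (by decide +kernel)
                     (CovZ.badM (by decide +kernel))
                     (CovZ.leaf K2_ok TE_l12454 _))
                    (CovZ.badM (by decide +kernel))))))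
                (CovZ.n1 (2680, 32080) (by decide +kernel)
                 (CovZ.n2 (2660, 32100) (by decide +kernel)
                  (CovZ.leaf K2_ok TE_l12457 _)
                  (CovZ.leaf K2_ok TE_l12458 _))
                 (CovZ.n1 (2700, 32100) (by decide +kernel)
                  (CovZ.leaf K2_ok TE_l12459 _)
                  (CovZ.leaf K2_ok TE_l12460 _))))))
             (CovZ.n1 (2640, 32000) (by decide +kernel)
              (CovZ.n2 (2600, 32040) (by decide +kernel)
               (CovZ.leaf K2_ok TE_l12461 _)
               (CovZ.leaf K2_ok TE_l12462 _))
              (CovZ.n1 (2680, 32040) (by decide +kernel)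
               (CovZ.leaf K2_ok TE_l12463 _)
               (CovZ.leaf K2_ok TE_l12464 _))))
            (CovZ.n1 (2800, 32080) (by decide +kernel)
             (CovZ.n2 (2800, 32000) (by decide +kernel)
              (CovZ.n2 (2760, 32040) (by decide +kernel)
               (CovZ.n2 (2800, 32040) (by decide +kernel)
                (CovZ.leaf K2_ok TE_l12465 _)
                (CovZ.leaf K2_ok TE_l12466 _))
               (CovZ.leaf K2_ok TE_l12467 _))
              (CovZ.subM 2993155353253689218019679866847613121926252621463616 (by decide +kernel)
               (CovZ.n1 (2840, 32040) (by decide +kernel)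
                (CovZ.n2 (2840, 32000) (by decide +kernel)
                 (CovZ.leaf K2_ok TE_l12468 _)
                 (CovZ.leaf K2_ok TE_l12469 _))
                (CovZ.n1 (2800, 32040) (by decide +kernel)
                 (CovZ.n2 (2820, 32060) (by decide +kernel)
                  (CovZ.leaf K2_ok TE_l12470 _)
                  (CovZ.leaf K2_ok TE_l12471 _))
                 (CovZ.leaf K2_ok TE_l12472 _)))))
             (CovZ.n1 (2720, 32080) (by decide +kernel)
              (CovZ.subM 9197966401975922324883837988184764173783626984307294272 (by decide +kernel)
               (CovZ.n2 (2760, 32120) (by decide +kernel)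
                (CovZ.n2 (2760, 32080) (by decide +kernel)
                 (CovZ.n2 (2740, 32100) (by decide +kernel)
                  (CovZ.leaf K2_ok TE_l12473 _)
                  (CovZ.leaf K2_ok TE_l12474 _))
                 (CovZ.n1 (2780, 32100) (by decide +kernel)
                  (CovZ.n2 (2780, 32080) (by decide +kernel)
                   (CovZ.leaf K2_ok TE_l12475 _)
                   (CovZ.leaf K2_ok TE_l12476 _))
                  (CovZ.n1 (2760, 32100) (by decide +kernel)
                   (CovZ.n2 (2770, 32110) (by decide +kernel)
                    (CovZ.leaf K2_ok TE_l12477 _)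
                    (CovZ.leaf K2_ok TE_l12478 _))
                   (CovZ.leaf K2_ok TE_l12479 _))))
                (CovZ.n1 (2720, 32120) (by decide +kernel)
                 (CovZ.badM (by decide +kernel))
                 (CovZ.n1 (2740, 32100) (by decide +kernel)
                  (CovZ.leaf K2_ok TE_l12484 _)
                  (CovZ.n1 (2740, 32120) (by decide +kernel)
                   (CovZ.leaf K2_ok TE_l12485 _)
                   (CovZ.leaf K2_ok TE_l12486 _))))))
              (CovZ.n1 (2760, 32040) (by decide +kernel)
               (CovZ.n2 (2720, 32040) (by decide +kernel)
                (CovZ.n2 (2740, 32060) (by decide +kernel)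
                 (CovZ.leaf K2_ok TE_l12487 _)
                 (CovZ.leaf K2_ok TE_l12488 _))
                (CovZ.leaf K2_ok TE_l12489 _))
               (CovZ.n1 (2760, 32080) (by decide +kernel)
                (CovZ.leaf K2_ok TE_l12490 _)
                (CovZ.n1 (2740, 32060) (by decide +kernel)
                 (CovZ.leaf K2_ok TE_l12491 _)
                 (CovZ.leaf K2_ok TE_l12492 _))))))))

theorem TE_u239 : CovZ TE_M (toL (selN TE_LN 9389528344584158432407092428358930975699108777714253888)) [0, 7, 6, 1] (2880, 32000) (3200, 32000) (2880, 32320) :=
    (CovZ.subM 228461220236707904857734509915799616 (by decide +kernel)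
           (CovZ.n1 (3040, 32160) (by decide +kernel)
            (CovZ.n2 (3040, 32000) (by decide +kernel)
             (CovZ.n2 (2960, 32080) (by decide +kernel)
              (CovZ.subM 20769187438979736159063371660918784 (by decide +kernel)
               (CovZ.n2 (3040, 32080) (by decide +kernel)
                (CovZ.n2 (3000, 32040) (by decide +kernel)
                 (CovZ.n2 (3000, 32080) (by decide +kernel)
                  (CovZ.n2 (3020, 32060) (by decide +kernel)
                   (CovZ.n2 (3000, 32060) (by decide +kernel)
                    (CovZ.n2 (3010, 32070) (by decide +kernel)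
                     (CovZ.leaf K2_ok TE_l18326 _)
                     (CovZ.badM (by decide +kernel)))
                    (CovZ.leaf K2_ok TE_l12493 _))
                   (CovZ.n1 (3020, 32080) (by decide +kernel)
                    (CovZ.badM (by decide +kernel))
                    (CovZ.n1 (3010, 32070) (by decide +kernel)
                     (CovZ.badM (by decide +kernel))
                     (CovZ.leaf K2_ok TE_l18327 _))))
                  (CovZ.n1 (2980, 32060) (by decide +kernel)
                   (CovZ.badM (by decide +kernel))
                   (CovZ.n1 (3000, 32060) (by decide +kernel)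
                    (CovZ.leaf K2_ok TE_l12496 _)
                    (CovZ.badM (by decide +kernel)))))
                 (CovZ.n1 (3040, 32040) (by decide +kernel)
                  (CovZ.n2 (3020, 32020) (by decide +kernel)
                   (CovZ.n2 (3020, 32040) (by decide +kernel)
                    (CovZ.leaf K2_ok TE_l12498 _)
                    (CovZ.leaf K2_ok TE_l12499 _))
                   (CovZ.leaf K2_ok TE_l12500 _))
                  (CovZ.n1 (3020, 32060) (by decide +kernel)
                   (CovZ.n2 (3040, 32060) (by decide +kernel)
                    (CovZ.n2 (3030, 32050) (by decide +kernel)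
                     (CovZ.badM (by decide +kernel))
                     (CovZ.leaf K2_ok TE_l18328 _))
                    (CovZ.badM (by decide +kernel)))
                   (CovZ.n1 (3020, 32040) (by decide +kernel)
                    (CovZ.leaf K2_ok TE_l12501 _)
                    (CovZ.n1 (3030, 32050) (by decide +kernel)
                     (CovZ.leaf K2_ok TE_l12502 _)
                     (CovZ.leaf K2_ok TE_l12503 _))))))
                (CovZ.n1 (3000, 32120) (by decide +kernel)
                 (CovZ.badM (by decide +kernel))
                 (CovZ.n1 (3000, 32080) (by decide +kernel)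
                  (CovZ.badM (by decide +kernel))
                  (CovZ.n1 (3020, 32100) (by decide +kernel)
                   (CovZ.n2 (3020, 32080) (by decide +kernel)
                    (CovZ.badM (by decide +kernel))
                    (CovZ.badM (by decide +kernel)))
                   (CovZ.badM (by decide +kernel)))))))
              (CovZ.n1 (2960, 32000) (by decide +kernel)
               (CovZ.n2 (2920, 32040) (by decide +kernel)
                (CovZ.subM 20769187438979736159063371663015936 (by decide +kernel)
                 (CovZ.n2 (2960, 32040) (by decide +kernel)
                  (CovZ.n2 (2940, 32020) (by decide +kernel)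
                   (CovZ.leaf K2_ok TE_l12504 _)
                   (CovZ.leaf K2_ok TE_l12505 _))
                  (CovZ.n1 (2940, 32060) (by decide +kernel)
                   (CovZ.n2 (2960, 32060) (by decide +kernel)
                    (CovZ.leaf K2_ok TE_l12506 _)
                    (CovZ.leaf K2_ok TE_l12507 _))
                   (CovZ.n1 (2940, 32040) (by decide +kernel)
                    (CovZ.leaf K2_ok TE_l12508 _)
                    (CovZ.leaf K2_ok TE_l12509 _)))))
                (CovZ.n1 (2920, 32000) (by decide +kernel)
                 (CovZ.leaf K2_ok TE_l12510 _)
                 (CovZ.n1 (2940, 32020) (by decide +kernel)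
                  (CovZ.leaf K2_ok TE_l12511 _)
                  (CovZ.leaf K2_ok TE_l12512 _))))
               (CovZ.subM 186922686912094220272039254198059008 (by decide +kernel)
                (CovZ.n1 (3000, 32040) (by decide +kernel)
                 (CovZ.n2 (3000, 32000) (by decide +kernel)
                  (CovZ.leaf K2_ok TE_l12513 _)
                  (CovZ.n1 (3020, 32020) (by decide +kernel)
                   (CovZ.leaf K2_ok TE_l12514 _)
                   (CovZ.leaf K2_ok TE_l12515 _)))
                 (CovZ.n1 (2960, 32040) (by decide +kernel)
                  (CovZ.n2 (2980, 32060) (by decide +kernel)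
                   (CovZ.leaf K2_ok TE_l12516 _)
                   (CovZ.n1 (2960, 32060) (by decide +kernel)
                    (CovZ.n2 (2970, 32070) (by decide +kernel)
                     (CovZ.leaf K2_ok TE_l12517 _)
                     (CovZ.leaf K2_ok TE_l12518 _))
                    (CovZ.leaf K2_ok TE_l12519 _)))
                  (CovZ.leaf K2_ok TE_l12520 _))))))
             (CovZ.subM 4849870377907125634465792 (by decide +kernel)
              (CovZ.n1 (3120, 32080) (by decide +kernel)
               (CovZ.n2 (3120, 32000) (by decide +kernel)
                (CovZ.n2 (3080, 32040) (by decide +kernel)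
                 (CovZ.n2 (3120, 32040) (by decide +kernel)
                  (CovZ.n2 (3100, 32020) (by decide +kernel)
                   (CovZ.n2 (3100, 32040) (by decide +kernel)
                    (CovZ.leaf K2_ok TE_l18329 _)
                    (CovZ.n1 (3090, 32030) (by decide +kernel)
                     (CovZ.leaf K2_ok TE_l12521 _)
                     (CovZ.leaf K2_ok TE_l12522 _)))
                   (CovZ.n1 (3120, 32020) (by decide +kernel)
                    (CovZ.leaf K2_ok TE_l12523 _)
                    (CovZ.leaf K2_ok TE_l18330 _)))
                  (CovZ.badM (by decide +kernel)))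
                 (CovZ.n1 (3080, 32000) (by decide +kernel)
                  (CovZ.n2 (3060, 32020) (by decide +kernel)
                   (CovZ.leaf K2_ok TE_l12524 _)
                   (CovZ.leaf K2_ok TE_l12525 _))
                  (CovZ.n1 (3100, 32020) (by decide +kernel)
                   (CovZ.n2 (3100, 32000) (by decide +kernel)
                    (CovZ.leaf K2_ok TE_l12526 _)
                    (CovZ.leaf K2_ok TE_l12527 _))
                   (CovZ.n1 (3080, 32020) (by decide +kernel)
                    (CovZ.leaf K2_ok TE_l12528 _)
                    (CovZ.leaf K2_ok TE_l12529 _)))))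
                (CovZ.n1 (3160, 32040) (by decide +kernel)
                 (CovZ.n2 (3160, 32000) (by decide +kernel)
                  (CovZ.n2 (3140, 32020) (by decide +kernel)
                   (CovZ.n2 (3160, 32020) (by decide +kernel)
                    (CovZ.n2 (3150, 32010) (by decide +kernel)
                     (CovZ.leaf K2_ok TE_l18331 _)
                     (CovZ.leaf K2_ok TE_l18332 _))
                    (CovZ.n1 (3150, 32030) (by decide +kernel)
                     (CovZ.leaf K2_ok TE_l18333 _)
                     (CovZ.leaf K2_ok TE_l18334 _)))
                   (CovZ.n1 (3140, 32000) (by decide +kernel)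
                    (CovZ.leaf K2_ok TE_l12530 _)
                    (CovZ.n1 (3150, 32010) (by decide +kernel)
                     (CovZ.leaf K2_ok TE_l12531 _)
                     (CovZ.leaf K2_ok TE_l12532 _))))
                  (CovZ.badM (by decide +kernel)))
                 (CovZ.n1 (3120, 32040) (by decide +kernel)
                  (CovZ.badM (by decide +kernel))
                  (CovZ.n1 (3140, 32020) (by decide +kernel)
                   (CovZ.n2 (3120, 32020) (by decide +kernel)
                    (CovZ.n2 (3130, 32030) (by decide +kernel)
                     (CovZ.leaf K2_ok TE_l18335 _)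
                     (CovZ.leaf K2_ok TE_l18336 _))
                    (CovZ.leaf K2_ok TE_l12533 _))
                   (CovZ.n1 (3140, 32040) (by decide +kernel)
                    (CovZ.n2 (3150, 32030) (by decide +kernel)
                     (CovZ.leaf K2_ok TE_l18337 _)
                     (CovZ.badM (by decide +kernel)))
                    (CovZ.n1 (3130, 32030) (by decide +kernel)
                     (CovZ.badM (by decide +kernel))
                     (CovZ.leaf K2_ok TE_l18338 _)))))))
               (CovZ.n1 (3040, 32080) (by decide +kernel)
                (CovZ.badM (by decide +kernel))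
                (CovZ.n1 (3080, 32040) (by decide +kernel)
                 (CovZ.n2 (3040, 32040) (by decide +kernel)
                  (CovZ.n2 (3060, 32060) (by decide +kernel)
                   (CovZ.n2 (3060, 32040) (by decide +kernel)
                    (CovZ.n2 (3050, 32050) (by decide +kernel)
                     (CovZ.leaf K2_ok TE_l18339 _)
                     (CovZ.leaf K2_ok TE_l18340 _))
                    (CovZ.n1 (3070, 32050) (by decide +kernel)
                     (CovZ.leaf K2_ok TE_l18341 _)
                     (CovZ.leaf K2_ok TE_l18342 _)))
                   (CovZ.n1 (3040, 32060) (by decide +kernel)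
                    (CovZ.badM (by decide +kernel))
                    (CovZ.n1 (3050, 32050) (by decide +kernel)
                     (CovZ.leaf K2_ok TE_l18343 _)
                     (CovZ.badM (by decide +kernel)))))
                  (CovZ.n1 (3060, 32020) (by decide +kernel)
                   (CovZ.n2 (3040, 32020) (by decide +kernel)
                    (CovZ.leaf K2_ok TE_l12534 _)
                    (CovZ.leaf K2_ok TE_l12535 _))
                   (CovZ.n1 (3060, 32040) (by decide +kernel)
                    (CovZ.leaf K2_ok TE_l12536 _)
                    (CovZ.leaf K2_ok TE_l12537 _))))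
                 (CovZ.n1 (3080, 32080) (by decide +kernel)
                  (CovZ.badM (by decide +kernel))
                  (CovZ.n1 (3060, 32060) (by decide +kernel)
                   (CovZ.badM (by decide +kernel))
                   (CovZ.badM (by decide +kernel)))))))))
            (CovZ.n1 (2880, 32160) (by decide +kernel)
             (CovZ.n2 (2960, 32240) (by decide +kernel)
              (CovZ.n2 (2960, 32160) (by decide +kernel)
               (CovZ.badM (by decide +kernel))
               (CovZ.badM (by decide +kernel)))
              (CovZ.badM (by decide +kernel)))
             (CovZ.n1 (2960, 32080) (by decide +kernel)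
              (CovZ.n2 (2880, 32080) (by decide +kernel)
               (CovZ.subM 158456325028528675187087900672 (by decide +kernel)
                (CovZ.n2 (2920, 32120) (by decide +kernel)
                 (CovZ.n2 (2920, 32080) (by decide +kernel)
                  (CovZ.n2 (2900, 32100) (by decide +kernel)
                   (CovZ.badM (by decide +kernel))
                   (CovZ.n1 (2900, 32080) (by decide +kernel)
                    (CovZ.n2 (2890, 32090) (by decide +kernel)
                     (CovZ.badM (by decide +kernel))
                     (CovZ.leaf K2_ok TE_l18344 _))
                    (CovZ.badM (by decide +kernel))))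
                  (CovZ.badM (by decide +kernel)))
                 (CovZ.n1 (2880, 32120) (by decide +kernel)
                  (CovZ.badM (by decide +kernel))
                  (CovZ.n1 (2900, 32100) (by decide +kernel)
                   (CovZ.n2 (2880, 32100) (by decide +kernel)
                    (CovZ.badM (by decide +kernel))
                    (CovZ.n1 (2890, 32090) (by decide +kernel)
                     (CovZ.leaf K2_ok TE_l18345 _)
                     (CovZ.badM (by decide +kernel))))
                   (CovZ.badM (by decide +kernel))))))
               (CovZ.n1 (2920, 32040) (by decide +kernel)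
                (CovZ.n2 (2880, 32040) (by decide +kernel)
                 (CovZ.n2 (2900, 32060) (by decide +kernel)
                  (CovZ.leaf K2_ok TE_l12538 _)
                  (CovZ.leaf K2_ok TE_l12539 _))
                 (CovZ.leaf K2_ok TE_l12540 _))
                (CovZ.subM 158456329750895158056735211584 (by decide +kernel)
                 (CovZ.n1 (2920, 32080) (by decide +kernel)
                  (CovZ.n2 (2940, 32060) (by decide +kernel)
                   (CovZ.n2 (2920, 32060) (by decide +kernel)
                    (CovZ.n2 (2930, 32070) (by decide +kernel)
                     (CovZ.leaf K2_ok TE_l12541 _)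
                     (CovZ.leaf K2_ok TE_l12542 _))
                    (CovZ.leaf K2_ok TE_l12543 _))
                   (CovZ.n1 (2940, 32080) (by decide +kernel)
                    (CovZ.leaf K2_ok TE_l12544 _)
                    (CovZ.n1 (2930, 32070) (by decide +kernel)
                     (CovZ.badM (by decide +kernel))
                     (CovZ.leaf K2_ok TE_l12545 _))))
                  (CovZ.n1 (2900, 32060) (by decide +kernel)
                   (CovZ.n2 (2900, 32080) (by decide +kernel)
                    (CovZ.leaf K2_ok TE_l12546 _)
                    (CovZ.leaf K2_ok TE_l12547 _))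
                   (CovZ.leaf K2_ok TE_l12548 _))))))
              (CovZ.n1 (2960, 32160) (by decide +kernel)
               (CovZ.badM (by decide +kernel))
               (CovZ.badM (by decide +kernel)))))))

theorem TE_u240 : CovZ TE_M (toL (selN TE_LN 21649492671511269299276951582894921352845915457646100546)) [0, 7, 6, 1] (2560, 32000) (2560, 31360) (3200, 31360) :=
    (CovZ.n2 (2880, 31680) (by decide +kernel)
        (CovZ.n2 (2880, 31360) (by decide +kernel)
         (CovZ.n2 (2720, 31520) (by decide +kernel)
          (CovZ.n2 (2880, 31520) (by decide +kernel)
           (CovZ.n2 (2800, 31440) (by decide +kernel)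
            (CovZ.n2 (2800, 31520) (by decide +kernel)
             (CovZ.leaf K2_ok TE_l12577 _)
             (CovZ.leaf K2_ok TE_l12578 _))
            (CovZ.n1 (2880, 31440) (by decide +kernel)
             (CovZ.leaf K2_ok TE_l12579 _)
             (CovZ.leaf K2_ok TE_l12580 _)))
           (CovZ.n1 (2800, 31600) (by decide +kernel)
            (CovZ.n2 (2880, 31600) (by decide +kernel)
             (CovZ.leaf K2_ok TE_l12581 _)
             (CovZ.leaf K2_ok TE_l12582 _))
            (CovZ.n1 (2800, 31520) (by decide +kernel)
             (CovZ.leaf K2_ok TE_l12583 _)
             (CovZ.n1 (2840, 31560) (by decide +kernel)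
              (CovZ.leaf K2_ok TE_l12584 _)
              (CovZ.leaf K2_ok TE_l12585 _)))))
          (CovZ.n1 (2720, 31360) (by decide +kernel)
           (CovZ.n2 (2640, 31440) (by decide +kernel)
            (CovZ.leaf K2_ok TE_l12586 _)
            (CovZ.leaf K2_ok TE_l12587 _))
           (CovZ.n1 (2800, 31440) (by decide +kernel)
            (CovZ.n2 (2800, 31360) (by decide +kernel)
             (CovZ.leaf K2_ok TE_l12588 _)
             (CovZ.n1 (2840, 31400) (by decide +kernel)
              (CovZ.leaf K2_ok TE_l12589 _)
              (CovZ.leaf K2_ok TE_l12590 _)))
            (CovZ.n1 (2720, 31440) (by decide +kernel)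
             (CovZ.leaf K2_ok TE_l12591 _)
             (CovZ.leaf K2_ok TE_l12592 _)))))
         (CovZ.subM 228948009053913393607348033536786498 (by decide +kernel)
          (CovZ.n1 (3040, 31520) (by decide +kernel)
           (CovZ.n2 (3040, 31360) (by decide +kernel)
            (CovZ.n2 (2960, 31440) (by decide +kernel)
             (CovZ.n2 (3040, 31440) (by decide +kernel)
              (CovZ.n2 (3000, 31400) (by decide +kernel)
               (CovZ.leaf K2_ok TE_l12593 _)
               (CovZ.leaf K2_ok TE_l12594 _))
              (CovZ.n1 (3000, 31480) (by decide +kernel)
               (CovZ.leaf K2_ok TE_l12595 _)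
               (CovZ.leaf K2_ok TE_l12596 _)))
             (CovZ.n1 (2960, 31360) (by decide +kernel)
              (CovZ.leaf K2_ok TE_l12597 _)
              (CovZ.n1 (3000, 31400) (by decide +kernel)
               (CovZ.leaf K2_ok TE_l12598 _)
               (CovZ.leaf K2_ok TE_l12599 _))))
            (CovZ.n1 (3120, 31440) (by decide +kernel)
             (CovZ.n2 (3120, 31360) (by decide +kernel)
              (CovZ.n2 (3080, 31400) (by decide +kernel)
               (CovZ.leaf K2_ok TE_l12600 _)
               (CovZ.leaf K2_ok TE_l12601 _))
              (CovZ.n1 (3160, 31400) (by decide +kernel)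
               (CovZ.n2 (3160, 31360) (by decide +kernel)
                (CovZ.leaf K2_ok TE_l12602 _)
                (CovZ.leaf K2_ok TE_l12603 _))
               (CovZ.leaf K2_ok TE_l12604 _)))
             (CovZ.n1 (3040, 31440) (by decide +kernel)
              (CovZ.n2 (3080, 31480) (by decide +kernel)
               (CovZ.leaf K2_ok TE_l12605 _)
               (CovZ.leaf K2_ok TE_l12606 _))
              (CovZ.n1 (3080, 31400) (by decide +kernel)
               (CovZ.leaf K2_ok TE_l12607 _)
               (CovZ.leaf K2_ok TE_l12608 _)))))
           (CovZ.n1 (2880, 31520) (by decide +kernel)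
            (CovZ.n2 (2960, 31600) (by decide +kernel)
             (CovZ.n2 (2960, 31520) (by decide +kernel)
              (CovZ.leaf K2_ok TE_l12609 _)
              (CovZ.n1 (3000, 31560) (by decide +kernel)
               (CovZ.leaf K2_ok TE_l12610 _)
               (CovZ.leaf K2_ok TE_l12611 _)))
             (CovZ.n1 (2880, 31600) (by decide +kernel)
              (CovZ.n2 (2920, 31640) (by decide +kernel)
               (CovZ.leaf K2_ok TE_l12612 _)
               (CovZ.leaf K2_ok TE_l12613 _))
              (CovZ.leaf K2_ok TE_l12614 _)))
            (CovZ.n1 (2960, 31440) (by decide +kernel)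
             (CovZ.n2 (2880, 31440) (by decide +kernel)
              (CovZ.n2 (2920, 31480) (by decide +kernel)
               (CovZ.leaf K2_ok TE_l12615 _)
               (CovZ.leaf K2_ok TE_l12616 _))
              (CovZ.leaf K2_ok TE_l12617 _))
             (CovZ.n1 (2960, 31520) (by decide +kernel)
              (CovZ.n2 (3000, 31480) (by decide +kernel)
               (CovZ.leaf K2_ok TE_l12618 _)
               (CovZ.leaf K2_ok TE_l12619 _))
              (CovZ.n1 (2920, 31480) (by decide +kernel)
               (CovZ.leaf K2_ok TE_l12620 _)
               (CovZ.leaf K2_ok TE_l12621 _))))))))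
        (CovZ.n1 (2560, 31680) (by decide +kernel)
         (CovZ.n2 (2720, 31840) (by decide +kernel)
          (CovZ.n2 (2720, 31680) (by decide +kernel)
           (CovZ.n2 (2640, 31760) (by decide +kernel)
            (CovZ.leaf K2_ok TE_l12622 _)
            (CovZ.leaf K2_ok TE_l12623 _))
           (CovZ.n1 (2800, 31760) (by decide +kernel)
            (CovZ.n2 (2800, 31680) (by decide +kernel)
             (CovZ.leaf K2_ok TE_l12624 _)
             (CovZ.n1 (2840, 31720) (by decide +kernel)
              (CovZ.leaf K2_ok TE_l12625 _)
              (CovZ.leaf K2_ok TE_l12626 _)))
            (CovZ.n1 (2720, 31760) (by decide +kernel)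
             (CovZ.leaf K2_ok TE_l12627 _)
             (CovZ.leaf K2_ok TE_l12628 _))))
          (CovZ.n1 (2560, 31840) (by decide +kernel)
           (CovZ.subM 9389528344584158432220656529185675690712262103795761218 (by decide +kernel)
            (CovZ.n2 (2640, 31920) (by decide +kernel)
             (CovZ.n2 (2640, 31840) (by decide +kernel)
              (CovZ.leaf K2_ok TE_l12629 _)
              (CovZ.leaf K2_ok TE_l12630 _))
             (CovZ.n1 (2560, 31920) (by decide +kernel)
              (CovZ.leaf K2_ok TE_l12631 _)
              (CovZ.leaf K2_ok TE_l12632 _))))
           (CovZ.n1 (2640, 31760) (by decide +kernel)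
            (CovZ.leaf K2_ok TE_l12633 _)
            (CovZ.n1 (2640, 31840) (by decide +kernel)
             (CovZ.leaf K2_ok TE_l12634 _)
             (CovZ.leaf K2_ok TE_l12635 _)))))
         (CovZ.n1 (2720, 31520) (by decide +kernel)
          (CovZ.n2 (2560, 31520) (by decide +kernel)
           (CovZ.n2 (2640, 31600) (by decide +kernel)
            (CovZ.leaf K2_ok TE_l12636 _)
            (CovZ.leaf K2_ok TE_l12637 _))
           (CovZ.n1 (2640, 31440) (by decide +kernel)
            (CovZ.leaf K2_ok TE_l12638 _)
            (CovZ.leaf K2_ok TE_l12639 _)))
          (CovZ.n1 (2720, 31680) (by decide +kernel)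
           (CovZ.n2 (2800, 31600) (by decide +kernel)
            (CovZ.n2 (2720, 31600) (by decide +kernel)
             (CovZ.leaf K2_ok TE_l12640 _)
             (CovZ.leaf K2_ok TE_l12641 _))
            (CovZ.n1 (2800, 31680) (by decide +kernel)
             (CovZ.leaf K2_ok TE_l12642 _)
             (CovZ.leaf K2_ok TE_l12643 _)))
           (CovZ.n1 (2640, 31600) (by decide +kernel)
            (CovZ.leaf K2_ok TE_l12644 _)
            (CovZ.leaf K2_ok TE_l12645 _))))))

theorem TE_u241 : CovZ TE_M (toL (selN TE_LN 21649492671511269299276951582894921352845915457646100546)) [0, 7, 6, 1] (2560, 31360) (2560, 30720) (3200, 31360) :=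
    (CovZ.n1 (2880, 31040) (by decide +kernel)
        (CovZ.n2 (2560, 31040) (by decide +kernel)
         (CovZ.n2 (2720, 31200) (by decide +kernel)
          (CovZ.n2 (2720, 31040) (by decide +kernel)
           (CovZ.n2 (2640, 31120) (by decide +kernel)
            (CovZ.leaf K2_ok TE_l12646 _)
            (CovZ.leaf K2_ok TE_l12647 _))
           (CovZ.n1 (2800, 31120) (by decide +kernel)
            (CovZ.n2 (2800, 31040) (by decide +kernel)
             (CovZ.leaf K2_ok TE_l12648 _)
             (CovZ.n1 (2840, 31080) (by decide +kernel)
              (CovZ.leaf K2_ok TE_l12649 _)
              (CovZ.leaf K2_ok TE_l12650 _)))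
            (CovZ.n1 (2720, 31120) (by decide +kernel)
             (CovZ.leaf K2_ok TE_l12651 _)
             (CovZ.leaf K2_ok TE_l12652 _))))
          (CovZ.n1 (2560, 31200) (by decide +kernel)
           (CovZ.n2 (2640, 31280) (by decide +kernel)
            (CovZ.leaf K2_ok TE_l12653 _)
            (CovZ.leaf K2_ok TE_l12654 _))
           (CovZ.n1 (2640, 31120) (by decide +kernel)
            (CovZ.leaf K2_ok TE_l12655 _)
            (CovZ.leaf K2_ok TE_l12656 _))))
         (CovZ.n1 (2720, 30880) (by decide +kernel)
          (CovZ.n2 (2560, 30880) (by decide +kernel)
           (CovZ.n2 (2640, 30960) (by decide +kernel)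
            (CovZ.leaf K2_ok TE_l12657 _)
            (CovZ.leaf K2_ok TE_l12658 _))
           (CovZ.n1 (2640, 30800) (by decide +kernel)
            (CovZ.leaf K2_ok TE_l12659 _)
            (CovZ.n1 (2640, 30880) (by decide +kernel)
             (CovZ.leaf K2_ok TE_l12660 _)
             (CovZ.leaf K2_ok TE_l12661 _))))
          (CovZ.n1 (2720, 31040) (by decide +kernel)
           (CovZ.n2 (2800, 30960) (by decide +kernel)
            (CovZ.n2 (2720, 30960) (by decide +kernel)
             (CovZ.leaf K2_ok TE_l12662 _)
             (CovZ.leaf K2_ok TE_l12663 _))
            (CovZ.n1 (2800, 31040) (by decide +kernel)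
             (CovZ.leaf K2_ok TE_l12664 _)
             (CovZ.leaf K2_ok TE_l12665 _)))
           (CovZ.n1 (2640, 30960) (by decide +kernel)
            (CovZ.n2 (2640, 31040) (by decide +kernel)
             (CovZ.leaf K2_ok TE_l12666 _)
             (CovZ.leaf K2_ok TE_l12667 _))
            (CovZ.leaf K2_ok TE_l12668 _)))))
        (CovZ.n1 (2880, 31360) (by decide +kernel)
         (CovZ.n2 (3040, 31200) (by decide +kernel)
          (CovZ.n2 (2880, 31200) (by decide +kernel)
           (CovZ.n2 (2960, 31280) (by decide +kernel)
            (CovZ.n2 (2960, 31200) (by decide +kernel)
             (CovZ.leaf K2_ok TE_l12669 _)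
             (CovZ.n1 (3000, 31240) (by decide +kernel)
              (CovZ.leaf K2_ok TE_l12670 _)
              (CovZ.leaf K2_ok TE_l12671 _)))
            (CovZ.n1 (2880, 31280) (by decide +kernel)
             (CovZ.n2 (2920, 31320) (by decide +kernel)
              (CovZ.leaf K2_ok TE_l12672 _)
              (CovZ.leaf K2_ok TE_l12673 _))
             (CovZ.leaf K2_ok TE_l12674 _)))
           (CovZ.n1 (2960, 31120) (by decide +kernel)
            (CovZ.n2 (2880, 31120) (by decide +kernel)
             (CovZ.n2 (2920, 31160) (by decide +kernel)
              (CovZ.leaf K2_ok TE_l12675 _)
              (CovZ.leaf K2_ok TE_l12676 _))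
             (CovZ.leaf K2_ok TE_l12677 _))
            (CovZ.subM 231544157483180954995565871375712322 (by decide +kernel)
             (CovZ.n1 (2960, 31200) (by decide +kernel)
              (CovZ.n2 (3000, 31160) (by decide +kernel)
               (CovZ.leaf K2_ok TE_l12678 _)
               (CovZ.leaf K2_ok TE_l12679 _))
              (CovZ.n1 (2920, 31160) (by decide +kernel)
               (CovZ.leaf K2_ok TE_l12680 _)
               (CovZ.leaf K2_ok TE_l12681 _))))))
          (CovZ.subM 231544157483180807421613281701396546 (by decide +kernel)
           (CovZ.n1 (3040, 31360) (by decide +kernel)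
            (CovZ.n2 (3120, 31280) (by decide +kernel)
             (CovZ.n2 (3040, 31280) (by decide +kernel)
              (CovZ.n2 (3080, 31320) (by decide +kernel)
               (CovZ.leaf K2_ok TE_l12682 _)
               (CovZ.leaf K2_ok TE_l12683 _))
              (CovZ.n1 (3080, 31240) (by decide +kernel)
               (CovZ.leaf K2_ok TE_l12684 _)
               (CovZ.leaf K2_ok TE_l12685 _)))
             (CovZ.n1 (3120, 31360) (by decide +kernel)
              (CovZ.n2 (3160, 31320) (by decide +kernel)
               (CovZ.n2 (3120, 31320) (by decide +kernel)
                (CovZ.leaf K2_ok TE_l12686 _)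
                (CovZ.leaf K2_ok TE_l12687 _))
               (CovZ.n1 (3160, 31360) (by decide +kernel)
                (CovZ.leaf K2_ok TE_l12688 _)
                (CovZ.leaf K2_ok TE_l12689 _)))
              (CovZ.n1 (3080, 31320) (by decide +kernel)
               (CovZ.leaf K2_ok TE_l12690 _)
               (CovZ.leaf K2_ok TE_l12691 _))))
            (CovZ.n1 (2960, 31280) (by decide +kernel)
             (CovZ.n2 (2960, 31360) (by decide +kernel)
              (CovZ.n2 (3000, 31320) (by decide +kernel)
               (CovZ.leaf K2_ok TE_l12692 _)
               (CovZ.leaf K2_ok TE_l12693 _))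
              (CovZ.n1 (2920, 31320) (by decide +kernel)
               (CovZ.leaf K2_ok TE_l12694 _)
               (CovZ.leaf K2_ok TE_l12695 _)))
             (CovZ.n1 (3040, 31280) (by decide +kernel)
              (CovZ.n2 (3000, 31240) (by decide +kernel)
               (CovZ.leaf K2_ok TE_l12696 _)
               (CovZ.leaf K2_ok TE_l12697 _))
              (CovZ.n1 (3000, 31320) (by decide +kernel)
               (CovZ.leaf K2_ok TE_l12698 _)
               (CovZ.leaf K2_ok TE_l12699 _)))))))
         (CovZ.n1 (2720, 31200) (by decide +kernel)
          (CovZ.n2 (2720, 31360) (by decide +kernel)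
           (CovZ.n2 (2800, 31280) (by decide +kernel)
            (CovZ.n2 (2720, 31280) (by decide +kernel)
             (CovZ.leaf K2_ok TE_l12700 _)
             (CovZ.leaf K2_ok TE_l12701 _))
            (CovZ.n1 (2800, 31360) (by decide +kernel)
             (CovZ.leaf K2_ok TE_l12702 _)
             (CovZ.leaf K2_ok TE_l12703 _)))
           (CovZ.n1 (2640, 31280) (by decide +kernel)
            (CovZ.leaf K2_ok TE_l12704 _)
            (CovZ.leaf K2_ok TE_l12705 _)))
          (CovZ.n1 (2880, 31200) (by decide +kernel)
           (CovZ.n2 (2800, 31120) (by decide +kernel)
            (CovZ.n2 (2800, 31200) (by decide +kernel)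
             (CovZ.leaf K2_ok TE_l12706 _)
             (CovZ.leaf K2_ok TE_l12707 _))
            (CovZ.n1 (2880, 31120) (by decide +kernel)
             (CovZ.leaf K2_ok TE_l12708 _)
             (CovZ.leaf K2_ok TE_l12709 _)))
           (CovZ.n1 (2800, 31280) (by decide +kernel)
            (CovZ.n2 (2880, 31280) (by decide +kernel)
             (CovZ.leaf K2_ok TE_l12710 _)
             (CovZ.leaf K2_ok TE_l12711 _))
            (CovZ.n1 (2800, 31200) (by decide +kernel)
             (CovZ.leaf K2_ok TE_l12712 _)
             (CovZ.n1 (2840, 31240) (by decide +kernel)
              (CovZ.leaf K2_ok TE_l12713 _)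
              (CovZ.leaf K2_ok TE_l12714 _))))))))

theorem TE_u242 : CovZ TE_M (toL (selN TE_LN 20931457702522666111221228323864640)) [0, 7, 6, 1] (3520, 31680) (3360, 31840) (3200, 31680) :=
    (CovZ.n2 (3360, 31680) (by decide +kernel)
            (CovZ.n2 (3280, 31760) (by decide +kernel)
             (CovZ.subM 162270263547652316951876445798400 (by decide +kernel)
              (CovZ.n2 (3360, 31760) (by decide +kernel)
               (CovZ.n2 (3320, 31720) (by decide +kernel)
                (CovZ.n2 (3320, 31760) (by decide +kernel)
                 (CovZ.n2 (3340, 31740) (by decide +kernel)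
                  (CovZ.leaf K2_ok TE_l12715 _)
                  (CovZ.leaf K2_ok TE_l12716 _))
                 (CovZ.n1 (3300, 31740) (by decide +kernel)
                  (CovZ.leaf K2_ok TE_l12717 _)
                  (CovZ.leaf K2_ok TE_l12718 _)))
                (CovZ.subM 162269335092032557106311565803520 (by decide +kernel)
                 (CovZ.n1 (3360, 31720) (by decide +kernel)
                  (CovZ.n2 (3340, 31700) (by decide +kernel)
                   (CovZ.n2 (3340, 31720) (by decide +kernel)
                    (CovZ.leaf K2_ok TE_l12719 _)
                    (CovZ.leaf K2_ok TE_l12720 _))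
                   (CovZ.leaf K2_ok TE_l12721 _))
                  (CovZ.n1 (3340, 31740) (by decide +kernel)
                   (CovZ.leaf K2_ok TE_l12722 _)
                   (CovZ.leaf K2_ok TE_l12723 _)))))
               (CovZ.n1 (3320, 31800) (by decide +kernel)
                (CovZ.subM 162269489834537467778845928062976 (by decide +kernel)
                 (CovZ.n2 (3360, 31800) (by decide +kernel)
                  (CovZ.n2 (3340, 31780) (by decide +kernel)
                   (CovZ.n2 (3340, 31800) (by decide +kernel)
                    (CovZ.leaf K2_ok TE_l12724 _)
                    (CovZ.leaf K2_ok TE_l12725 _))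
                   (CovZ.leaf K2_ok TE_l12726 _))
                  (CovZ.n1 (3340, 31820) (by decide +kernel)
                   (CovZ.leaf K2_ok TE_l12727 _)
                   (CovZ.n1 (3340, 31800) (by decide +kernel)
                    (CovZ.leaf K2_ok TE_l12728 _)
                    (CovZ.n1 (3350, 31810) (by decide +kernel)
                     (CovZ.leaf K2_ok TE_l12729 _)
                     (CovZ.leaf K2_ok TE_l12730 _))))))
                (CovZ.n1 (3320, 31760) (by decide +kernel)
                 (CovZ.n2 (3300, 31780) (by decide +kernel)
                  (CovZ.leaf K2_ok TE_l12731 _)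
                  (CovZ.leaf K2_ok TE_l12732 _))
                 (CovZ.n1 (3340, 31780) (by decide +kernel)
                  (CovZ.n2 (3340, 31760) (by decide +kernel)
                   (CovZ.leaf K2_ok TE_l12733 _)
                   (CovZ.leaf K2_ok TE_l12734 _))
                  (CovZ.leaf K2_ok TE_l12735 _))))))
             (CovZ.n1 (3280, 31680) (by decide +kernel)
              (CovZ.subM 162270263547652316951876447764480 (by decide +kernel)
               (CovZ.n2 (3240, 31720) (by decide +kernel)
                (CovZ.n2 (3280, 31720) (by decide +kernel)
                 (CovZ.n2 (3260, 31700) (by decide +kernel)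
                  (CovZ.leaf K2_ok TE_l12736 _)
                  (CovZ.leaf K2_ok TE_l12737 _))
                 (CovZ.leaf K2_ok TE_l12738 _))
                (CovZ.n1 (3240, 31680) (by decide +kernel)
                 (CovZ.leaf K2_ok TE_l12739 _)
                 (CovZ.n1 (3260, 31700) (by decide +kernel)
                  (CovZ.leaf K2_ok TE_l12740 _)
                  (CovZ.leaf K2_ok TE_l12741 _)))))
              (CovZ.n1 (3320, 31720) (by decide +kernel)
               (CovZ.n2 (3320, 31680) (by decide +kernel)
                (CovZ.leaf K2_ok TE_l12742 _)
                (CovZ.n1 (3340, 31700) (by decide +kernel)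
                 (CovZ.leaf K2_ok TE_l12743 _)
                 (CovZ.leaf K2_ok TE_l12744 _)))
               (CovZ.n1 (3280, 31720) (by decide +kernel)
                (CovZ.n2 (3300, 31740) (by decide +kernel)
                 (CovZ.leaf K2_ok TE_l12745 _)
                 (CovZ.leaf K2_ok TE_l12746 _))
                (CovZ.leaf K2_ok TE_l12747 _)))))
            (CovZ.subM 162269335092032557106311565803520 (by decide +kernel)
             (CovZ.n1 (3440, 31760) (by decide +kernel)
              (CovZ.n2 (3440, 31680) (by decide +kernel)
               (CovZ.n2 (3400, 31720) (by decide +kernel)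
                (CovZ.n2 (3440, 31720) (by decide +kernel)
                 (CovZ.n2 (3420, 31700) (by decide +kernel)
                  (CovZ.n2 (3420, 31720) (by decide +kernel)
                   (CovZ.badM (by decide +kernel))
                   (CovZ.n1 (3410, 31710) (by decide +kernel)
                    (CovZ.leaf K2_ok TE_l12749 _)
                    (CovZ.badM (by decide +kernel))))
                  (CovZ.badM (by decide +kernel)))
                 (CovZ.n1 (3420, 31740) (by decide +kernel)
                  (CovZ.badM (by decide +kernel))
                  (CovZ.n1 (3420, 31720) (by decide +kernel)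
                   (CovZ.leaf K2_ok TE_l12757 _)
                   (CovZ.badM (by decide +kernel)))))
                (CovZ.n1 (3400, 31680) (by decide +kernel)
                 (CovZ.n2 (3380, 31700) (by decide +kernel)
                  (CovZ.n2 (3400, 31700) (by decide +kernel)
                   (CovZ.leaf K2_ok TE_l12760 _)
                   (CovZ.leaf K2_ok TE_l12761 _))
                  (CovZ.n1 (3380, 31680) (by decide +kernel)
                   (CovZ.leaf K2_ok TE_l12762 _)
                   (CovZ.n1 (3390, 31690) (by decide +kernel)
                    (CovZ.leaf K2_ok TE_l12763 _)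
                    (CovZ.leaf K2_ok TE_l12764 _))))
                 (CovZ.n1 (3420, 31700) (by decide +kernel)
                  (CovZ.n2 (3420, 31680) (by decide +kernel)
                   (CovZ.leaf K2_ok TE_l12765 _)
                   (CovZ.badM (by decide +kernel)))
                  (CovZ.n1 (3400, 31700) (by decide +kernel)
                   (CovZ.n2 (3410, 31710) (by decide +kernel)
                    (CovZ.leaf K2_ok TE_l12768 _)
                    (CovZ.leaf K2_ok TE_l12769 _))
                   (CovZ.leaf K2_ok TE_l12770 _)))))
               (CovZ.badM (by decide +kernel)))
              (CovZ.n1 (3360, 31760) (by decide +kernel)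
               (CovZ.n2 (3400, 31800) (by decide +kernel)
                (CovZ.n2 (3400, 31760) (by decide +kernel)
                 (CovZ.n2 (3380, 31780) (by decide +kernel)
                  (CovZ.n2 (3400, 31780) (by decide +kernel)
                   (CovZ.n2 (3390, 31770) (by decide +kernel)
                    (CovZ.leaf K2_ok TE_l12775 _)
                    (CovZ.leaf K2_ok TE_l12776 _))
                   (CovZ.leaf K2_ok TE_l12777 _))
                  (CovZ.n1 (3380, 31760) (by decide +kernel)
                   (CovZ.leaf K2_ok TE_l12778 _)
                   (CovZ.n1 (3390, 31770) (by decide +kernel)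
                    (CovZ.leaf K2_ok TE_l12779 _)
                    (CovZ.leaf K2_ok TE_l12780 _))))
                 (CovZ.n1 (3420, 31780) (by decide +kernel)
                  (CovZ.n2 (3420, 31760) (by decide +kernel)
                   (CovZ.leaf K2_ok TE_l12781 _)
                   (CovZ.badM (by decide +kernel)))
                  (CovZ.n1 (3400, 31780) (by decide +kernel)
                   (CovZ.n2 (3410, 31790) (by decide +kernel)
                    (CovZ.leaf K2_ok TE_l12784 _)
                    (CovZ.leaf K2_ok TE_l12785 _))
                   (CovZ.leaf K2_ok TE_l12786 _))))
                (CovZ.n1 (3360, 31800) (by decide +kernel)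
                 (CovZ.n2 (3380, 31820) (by decide +kernel)
                  (CovZ.n2 (3380, 31800) (by decide +kernel)
                   (CovZ.leaf K2_ok TE_l12787 _)
                   (CovZ.n1 (3390, 31810) (by decide +kernel)
                    (CovZ.leaf K2_ok TE_l12788 _)
                    (CovZ.leaf K2_ok TE_l12789 _)))
                  (CovZ.n1 (3360, 31820) (by decide +kernel)
                   (CovZ.n2 (3370, 31830) (by decide +kernel)
                    (CovZ.leaf K2_ok TE_l12790 _)
                    (CovZ.leaf K2_ok TE_l12791 _))
                   (CovZ.leaf K2_ok TE_l12792 _)))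
                 (CovZ.n1 (3380, 31780) (by decide +kernel)
                  (CovZ.n2 (3360, 31780) (by decide +kernel)
                   (CovZ.leaf K2_ok TE_l12793 _)
                   (CovZ.leaf K2_ok TE_l12794 _))
                  (CovZ.n1 (3380, 31800) (by decide +kernel)
                   (CovZ.leaf K2_ok TE_l12795 _)
                   (CovZ.leaf K2_ok TE_l12796 _)))))
               (CovZ.n1 (3400, 31720) (by decide +kernel)
                (CovZ.n2 (3360, 31720) (by decide +kernel)
                 (CovZ.n2 (3380, 31740) (by decide +kernel)
                  (CovZ.n2 (3380, 31720) (by decide +kernel)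
                   (CovZ.leaf K2_ok TE_l12797 _)
                   (CovZ.n1 (3390, 31730) (by decide +kernel)
                    (CovZ.leaf K2_ok TE_l12798 _)
                    (CovZ.leaf K2_ok TE_l12799 _)))
                  (CovZ.n1 (3360, 31740) (by decide +kernel)
                   (CovZ.leaf K2_ok TE_l12800 _)
                   (CovZ.leaf K2_ok TE_l12801 _)))
                 (CovZ.n1 (3380, 31700) (by decide +kernel)
                  (CovZ.n2 (3360, 31700) (by decide +kernel)
                   (CovZ.leaf K2_ok TE_l12802 _)
                   (CovZ.leaf K2_ok TE_l12803 _))
                  (CovZ.n1 (3380, 31720) (by decide +kernel)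
                   (CovZ.leaf K2_ok TE_l12804 _)
                   (CovZ.leaf K2_ok TE_l12805 _))))
                (CovZ.n1 (3400, 31760) (by decide +kernel)
                 (CovZ.n2 (3420, 31740) (by decide +kernel)
                  (CovZ.n2 (3400, 31740) (by decide +kernel)
                   (CovZ.n2 (3410, 31750) (by decide +kernel)
                    (CovZ.leaf K2_ok TE_l12806 _)
                    (CovZ.leaf K2_ok TE_l12807 _))
                   (CovZ.leaf K2_ok TE_l12808 _))
                  (CovZ.n1 (3420, 31760) (by decide +kernel)
                   (CovZ.badM (by decide +kernel))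
                   (CovZ.n1 (3410, 31750) (by decide +kernel)
                    (CovZ.leaf K2_ok TE_l12810 _)
                    (CovZ.badM (by decide +kernel)))))
                 (CovZ.n1 (3380, 31740) (by decide +kernel)
                  (CovZ.n2 (3380, 31760) (by decide +kernel)
                   (CovZ.leaf K2_ok TE_l12812 _)
                   (CovZ.leaf K2_ok TE_l12813 _))
                  (CovZ.n1 (3400, 31740) (by decide +kernel)
                   (CovZ.leaf K2_ok TE_l12814 _)
                   (CovZ.leaf K2_ok TE_l12815 _)))))))))

theorem TE_u243 : CovZ TE_M (toL (selN TE_LN 20931457702522666111221228323864640)) [0, 7, 6, 1] (3360, 31840) (3200, 32000) (3200, 31680) :=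
    (CovZ.subM 162270263547652316951876447764480 (by decide +kernel)
            (CovZ.n1 (3200, 31840) (by decide +kernel)
             (CovZ.subM 928455619759845564879994880 (by decide +kernel)
              (CovZ.n2 (3280, 31920) (by decide +kernel)
               (CovZ.n2 (3280, 31840) (by decide +kernel)
                (CovZ.n2 (3240, 31880) (by decide +kernel)
                 (CovZ.n2 (3280, 31880) (by decide +kernel)
                  (CovZ.n2 (3260, 31860) (by decide +kernel)
                   (CovZ.leaf K2_ok TE_l12816 _)
                   (CovZ.leaf K2_ok TE_l12817 _))
                  (CovZ.n1 (3260, 31900) (by decide +kernel)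
                   (CovZ.n2 (3280, 31900) (by decide +kernel)
                    (CovZ.leaf K2_ok TE_l12818 _)
                    (CovZ.leaf K2_ok TE_l12819 _))
                   (CovZ.n1 (3260, 31880) (by decide +kernel)
                    (CovZ.leaf K2_ok TE_l12820 _)
                    (CovZ.leaf K2_ok TE_l12821 _))))
                 (CovZ.n1 (3240, 31840) (by decide +kernel)
                  (CovZ.n2 (3220, 31860) (by decide +kernel)
                   (CovZ.leaf K2_ok TE_l12822 _)
                   (CovZ.leaf K2_ok TE_l12823 _))
                  (CovZ.n1 (3260, 31860) (by decide +kernel)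
                   (CovZ.leaf K2_ok TE_l12824 _)
                   (CovZ.leaf K2_ok TE_l12825 _))))
                (CovZ.n1 (3320, 31880) (by decide +kernel)
                 (CovZ.n2 (3320, 31840) (by decide +kernel)
                  (CovZ.n2 (3300, 31860) (by decide +kernel)
                   (CovZ.n2 (3320, 31860) (by decide +kernel)
                    (CovZ.leaf K2_ok TE_l12826 _)
                    (CovZ.leaf K2_ok TE_l12827 _))
                   (CovZ.n1 (3300, 31840) (by decide +kernel)
                    (CovZ.leaf K2_ok TE_l12828 _)
                    (CovZ.n1 (3310, 31850) (by decide +kernel)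
                     (CovZ.leaf K2_ok TE_l12829 _)
                     (CovZ.leaf K2_ok TE_l12830 _))))
                  (CovZ.n1 (3340, 31860) (by decide +kernel)
                   (CovZ.n2 (3340, 31840) (by decide +kernel)
                    (CovZ.leaf K2_ok TE_l12831 _)
                    (CovZ.badM (by decide +kernel)))
                   (CovZ.n1 (3320, 31860) (by decide +kernel)
                    (CovZ.n2 (3330, 31870) (by decide +kernel)
                     (CovZ.leaf K2_ok TE_l12834 _)
                     (CovZ.leaf K2_ok TE_l12835 _))
                    (CovZ.leaf K2_ok TE_l12836 _))))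
                 (CovZ.n1 (3280, 31880) (by decide +kernel)
                  (CovZ.n2 (3300, 31900) (by decide +kernel)
                   (CovZ.n2 (3300, 31880) (by decide +kernel)
                    (CovZ.leaf K2_ok TE_l12837 _)
                    (CovZ.n1 (3310, 31890) (by decide +kernel)
                     (CovZ.leaf K2_ok TE_l12838 _)
                     (CovZ.leaf K2_ok TE_l12839 _)))
                   (CovZ.n1 (3280, 31900) (by decide +kernel)
                    (CovZ.n2 (3290, 31910) (by decide +kernel)
                     (CovZ.leaf K2_ok TE_l12840 _)
                     (CovZ.leaf K2_ok TE_l12841 _))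
                    (CovZ.leaf K2_ok TE_l12842 _)))
                  (CovZ.n1 (3300, 31860) (by decide +kernel)
                   (CovZ.n2 (3280, 31860) (by decide +kernel)
                    (CovZ.n2 (3290, 31870) (by decide +kernel)
                     (CovZ.leaf K2_ok TE_l12843 _)
                     (CovZ.leaf K2_ok TE_l12844 _))
                    (CovZ.leaf K2_ok TE_l12845 _))
                   (CovZ.n1 (3300, 31880) (by decide +kernel)
                    (CovZ.leaf K2_ok TE_l12846 _)
                    (CovZ.n1 (3290, 31870) (by decide +kernel)
                     (CovZ.leaf K2_ok TE_l12847 _)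
                     (CovZ.leaf K2_ok TE_l12848 _)))))))
               (CovZ.n1 (3200, 31920) (by decide +kernel)
                (CovZ.n2 (3240, 31960) (by decide +kernel)
                 (CovZ.n2 (3240, 31920) (by decide +kernel)
                  (CovZ.n2 (3220, 31940) (by decide +kernel)
                   (CovZ.n2 (3240, 31940) (by decide +kernel)
                    (CovZ.n2 (3230, 31930) (by decide +kernel)
                     (CovZ.leaf K2_ok TE_l12849 _)
                     (CovZ.leaf K2_ok TE_l12850 _))
                    (CovZ.leaf K2_ok TE_l12851 _))
                   (CovZ.n1 (3220, 31920) (by decide +kernel)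
                    (CovZ.leaf K2_ok TE_l12852 _)
                    (CovZ.leaf K2_ok TE_l12853 _)))
                  (CovZ.n1 (3260, 31940) (by decide +kernel)
                   (CovZ.n2 (3260, 31920) (by decide +kernel)
                    (CovZ.leaf K2_ok TE_l12854 _)
                    (CovZ.n1 (3270, 31930) (by decide +kernel)
                     (CovZ.leaf K2_ok TE_l12855 _)
                     (CovZ.leaf K2_ok TE_l12856 _)))
                   (CovZ.n1 (3240, 31940) (by decide +kernel)
                    (CovZ.n2 (3250, 31950) (by decide +kernel)
                     (CovZ.leaf K2_ok TE_l12857 _)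
                     (CovZ.leaf K2_ok TE_l12858 _))
                    (CovZ.leaf K2_ok TE_l12859 _))))
                 (CovZ.n1 (3200, 31960) (by decide +kernel)
                  (CovZ.badM (by decide +kernel))
                  (CovZ.n1 (3220, 31940) (by decide +kernel)
                   (CovZ.n2 (3200, 31940) (by decide +kernel)
                    (CovZ.leaf K2_ok TE_l12864 _)
                    (CovZ.leaf K2_ok TE_l12865 _))
                   (CovZ.n1 (3220, 31960) (by decide +kernel)
                    (CovZ.leaf K2_ok TE_l12866 _)
                    (CovZ.n1 (3210, 31950) (by decide +kernel)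
                     (CovZ.badM (by decide +kernel))
                     (CovZ.leaf K2_ok TE_l12868 _))))))
                (CovZ.n1 (3240, 31880) (by decide +kernel)
                 (CovZ.n2 (3200, 31880) (by decide +kernel)
                  (CovZ.n2 (3220, 31900) (by decide +kernel)
                   (CovZ.leaf K2_ok TE_l12869 _)
                   (CovZ.leaf K2_ok TE_l12870 _))
                  (CovZ.n1 (3220, 31860) (by decide +kernel)
                   (CovZ.leaf K2_ok TE_l12871 _)
                   (CovZ.leaf K2_ok TE_l12872 _)))
                 (CovZ.n1 (3240, 31920) (by decide +kernel)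
                  (CovZ.n2 (3260, 31900) (by decide +kernel)
                   (CovZ.n2 (3240, 31900) (by decide +kernel)
                    (CovZ.n2 (3250, 31910) (by decide +kernel)
                     (CovZ.leaf K2_ok TE_l12873 _)
                     (CovZ.leaf K2_ok TE_l12874 _))
                    (CovZ.leaf K2_ok TE_l12875 _))
                   (CovZ.n1 (3260, 31920) (by decide +kernel)
                    (CovZ.leaf K2_ok TE_l12876 _)
                    (CovZ.leaf K2_ok TE_l12877 _)))
                  (CovZ.n1 (3220, 31900) (by decide +kernel)
                   (CovZ.leaf K2_ok TE_l12878 _)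
                   (CovZ.leaf K2_ok TE_l12879 _)))))))
             (CovZ.n1 (3280, 31760) (by decide +kernel)
              (CovZ.n2 (3200, 31760) (by decide +kernel)
               (CovZ.n2 (3240, 31800) (by decide +kernel)
                (CovZ.n2 (3240, 31760) (by decide +kernel)
                 (CovZ.leaf K2_ok TE_l12880 _)
                 (CovZ.n1 (3260, 31780) (by decide +kernel)
                  (CovZ.leaf K2_ok TE_l12881 _)
                  (CovZ.leaf K2_ok TE_l12882 _)))
                (CovZ.n1 (3200, 31800) (by decide +kernel)
                 (CovZ.n2 (3220, 31820) (by decide +kernel)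
                  (CovZ.leaf K2_ok TE_l12883 _)
                  (CovZ.leaf K2_ok TE_l12884 _))
                 (CovZ.leaf K2_ok TE_l12885 _)))
               (CovZ.n1 (3240, 31720) (by decide +kernel)
                (CovZ.n2 (3200, 31720) (by decide +kernel)
                 (CovZ.n2 (3220, 31740) (by decide +kernel)
                  (CovZ.leaf K2_ok TE_l12886 _)
                  (CovZ.leaf K2_ok TE_l12887 _))
                 (CovZ.leaf K2_ok TE_l12888 _))
                (CovZ.n1 (3240, 31760) (by decide +kernel)
                 (CovZ.leaf K2_ok TE_l12889 _)
                 (CovZ.n1 (3220, 31740) (by decide +kernel)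
                  (CovZ.leaf K2_ok TE_l12890 _)
                  (CovZ.leaf K2_ok TE_l12891 _)))))
              (CovZ.n1 (3280, 31840) (by decide +kernel)
               (CovZ.n2 (3320, 31800) (by decide +kernel)
                (CovZ.n2 (3280, 31800) (by decide +kernel)
                 (CovZ.n2 (3300, 31820) (by decide +kernel)
                  (CovZ.leaf K2_ok TE_l12892 _)
                  (CovZ.leaf K2_ok TE_l12893 _))
                 (CovZ.n1 (3300, 31780) (by decide +kernel)
                  (CovZ.leaf K2_ok TE_l12894 _)
                  (CovZ.leaf K2_ok TE_l12895 _)))
                (CovZ.n1 (3320, 31840) (by decide +kernel)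
                 (CovZ.n2 (3340, 31820) (by decide +kernel)
                  (CovZ.leaf K2_ok TE_l12896 _)
                  (CovZ.n1 (3340, 31840) (by decide +kernel)
                   (CovZ.leaf K2_ok TE_l12897 _)
                   (CovZ.leaf K2_ok TE_l12898 _)))
                 (CovZ.n1 (3300, 31820) (by decide +kernel)
                  (CovZ.n2 (3300, 31840) (by decide +kernel)
                   (CovZ.leaf K2_ok TE_l12899 _)
                   (CovZ.leaf K2_ok TE_l12900 _))
                  (CovZ.leaf K2_ok TE_l12901 _))))
               (CovZ.n1 (3240, 31800) (by decide +kernel)
                (CovZ.subM 162269799320137584934273358495744 (by decide +kernel)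
                 (CovZ.n2 (3240, 31840) (by decide +kernel)
                  (CovZ.n2 (3260, 31820) (by decide +kernel)
                   (CovZ.leaf K2_ok TE_l12902 _)
                   (CovZ.leaf K2_ok TE_l12903 _))
                  (CovZ.n1 (3220, 31820) (by decide +kernel)
                   (CovZ.leaf K2_ok TE_l12904 _)
                   (CovZ.leaf K2_ok TE_l12905 _))))
                (CovZ.n1 (3280, 31800) (by decide +kernel)
                 (CovZ.n2 (3260, 31780) (by decide +kernel)
                  (CovZ.leaf K2_ok TE_l12906 _)
                  (CovZ.leaf K2_ok TE_l12907 _))
                 (CovZ.n1 (3260, 31820) (by decide +kernel)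
                  (CovZ.leaf K2_ok TE_l12908 _)
                  (CovZ.leaf K2_ok TE_l12909 _))))))))

theorem TE_u244 : CovZ TE_M (toL (selN TE_LN 20931457702522666111221228323864640)) [0, 7, 6, 1] (3200, 31360) (3360, 31520) (3200, 31680) :=
    (CovZ.n2 (3200, 31520) (by decide +kernel)
            (CovZ.n2 (3280, 31600) (by decide +kernel)
             (CovZ.n2 (3280, 31520) (by decide +kernel)
              (CovZ.n2 (3240, 31560) (by decide +kernel)
               (CovZ.n2 (3280, 31560) (by decide +kernel)
                (CovZ.n2 (3260, 31540) (by decide +kernel)
                 (CovZ.leaf K2_ok TE_l12910 _)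
                 (CovZ.leaf K2_ok TE_l12911 _))
                (CovZ.leaf K2_ok TE_l12912 _))
               (CovZ.n1 (3240, 31520) (by decide +kernel)
                (CovZ.leaf K2_ok TE_l12913 _)
                (CovZ.n1 (3260, 31540) (by decide +kernel)
                 (CovZ.leaf K2_ok TE_l12914 _)
                 (CovZ.leaf K2_ok TE_l12915 _))))
              (CovZ.subM 162269644577632674261738998333440 (by decide +kernel)
               (CovZ.n1 (3320, 31560) (by decide +kernel)
                (CovZ.n2 (3320, 31520) (by decide +kernel)
                 (CovZ.n2 (3300, 31540) (by decide +kernel)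
                  (CovZ.leaf K2_ok TE_l12916 _)
                  (CovZ.leaf K2_ok TE_l12917 _))
                 (CovZ.n1 (3340, 31540) (by decide +kernel)
                  (CovZ.leaf K2_ok TE_l12918 _)
                  (CovZ.leaf K2_ok TE_l12919 _)))
                (CovZ.n1 (3280, 31560) (by decide +kernel)
                 (CovZ.n2 (3300, 31580) (by decide +kernel)
                  (CovZ.leaf K2_ok TE_l12920 _)
                  (CovZ.leaf K2_ok TE_l12921 _))
                 (CovZ.n1 (3300, 31540) (by decide +kernel)
                  (CovZ.leaf K2_ok TE_l12922 _)
                  (CovZ.leaf K2_ok TE_l12923 _))))))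
             (CovZ.n1 (3200, 31600) (by decide +kernel)
              (CovZ.n2 (3240, 31640) (by decide +kernel)
               (CovZ.n2 (3240, 31600) (by decide +kernel)
                (CovZ.leaf K2_ok TE_l12924 _)
                (CovZ.n1 (3260, 31620) (by decide +kernel)
                 (CovZ.leaf K2_ok TE_l12925 _)
                 (CovZ.leaf K2_ok TE_l12926 _)))
               (CovZ.n1 (3200, 31640) (by decide +kernel)
                (CovZ.n2 (3220, 31660) (by decide +kernel)
                 (CovZ.leaf K2_ok TE_l12927 _)
                 (CovZ.leaf K2_ok TE_l12928 _))
                (CovZ.leaf K2_ok TE_l12929 _)))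
              (CovZ.n1 (3240, 31560) (by decide +kernel)
               (CovZ.n2 (3200, 31560) (by decide +kernel)
                (CovZ.n2 (3220, 31580) (by decide +kernel)
                 (CovZ.leaf K2_ok TE_l12930 _)
                 (CovZ.leaf K2_ok TE_l12931 _))
                (CovZ.leaf K2_ok TE_l12932 _))
               (CovZ.n1 (3240, 31600) (by decide +kernel)
                (CovZ.leaf K2_ok TE_l12933 _)
                (CovZ.leaf K2_ok TE_l12934 _)))))
            (CovZ.n1 (3280, 31440) (by decide +kernel)
             (CovZ.n2 (3200, 31440) (by decide +kernel)
              (CovZ.n2 (3240, 31480) (by decide +kernel)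
               (CovZ.n2 (3240, 31440) (by decide +kernel)
                (CovZ.leaf K2_ok TE_l12935 _)
                (CovZ.n1 (3260, 31460) (by decide +kernel)
                 (CovZ.leaf K2_ok TE_l12936 _)
                 (CovZ.leaf K2_ok TE_l12937 _)))
               (CovZ.n1 (3200, 31480) (by decide +kernel)
                (CovZ.n2 (3220, 31500) (by decide +kernel)
                 (CovZ.leaf K2_ok TE_l12938 _)
                 (CovZ.leaf K2_ok TE_l12939 _))
                (CovZ.leaf K2_ok TE_l12940 _)))
              (CovZ.n1 (3240, 31400) (by decide +kernel)
               (CovZ.n2 (3200, 31400) (by decide +kernel)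
                (CovZ.n2 (3220, 31420) (by decide +kernel)
                 (CovZ.leaf K2_ok TE_l12941 _)
                 (CovZ.leaf K2_ok TE_l12942 _))
                (CovZ.leaf K2_ok TE_l12943 _))
               (CovZ.n1 (3240, 31440) (by decide +kernel)
                (CovZ.leaf K2_ok TE_l12944 _)
                (CovZ.leaf K2_ok TE_l12945 _))))
             (CovZ.n1 (3280, 31520) (by decide +kernel)
              (CovZ.subM 162269335092622852916670273552384 (by decide +kernel)
               (CovZ.n2 (3320, 31480) (by decide +kernel)
                (CovZ.n2 (3280, 31480) (by decide +kernel)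
                 (CovZ.n2 (3300, 31500) (by decide +kernel)
                  (CovZ.leaf K2_ok TE_l12946 _)
                  (CovZ.leaf K2_ok TE_l12947 _))
                 (CovZ.n1 (3300, 31460) (by decide +kernel)
                  (CovZ.leaf K2_ok TE_l12948 _)
                  (CovZ.leaf K2_ok TE_l12949 _)))
                (CovZ.n1 (3320, 31520) (by decide +kernel)
                 (CovZ.n2 (3340, 31500) (by decide +kernel)
                  (CovZ.leaf K2_ok TE_l12950 _)
                  (CovZ.n1 (3340, 31520) (by decide +kernel)
                   (CovZ.leaf K2_ok TE_l12951 _)
                   (CovZ.leaf K2_ok TE_l12952 _)))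
                 (CovZ.n1 (3300, 31500) (by decide +kernel)
                  (CovZ.leaf K2_ok TE_l12953 _)
                  (CovZ.leaf K2_ok TE_l12954 _)))))
              (CovZ.n1 (3240, 31480) (by decide +kernel)
               (CovZ.n2 (3240, 31520) (by decide +kernel)
                (CovZ.leaf K2_ok TE_l12955 _)
                (CovZ.n1 (3220, 31500) (by decide +kernel)
                 (CovZ.leaf K2_ok TE_l12956 _)
                 (CovZ.leaf K2_ok TE_l12957 _)))
               (CovZ.n1 (3280, 31480) (by decide +kernel)
                (CovZ.n2 (3260, 31460) (by decide +kernel)
                 (CovZ.leaf K2_ok TE_l12958 _)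
                 (CovZ.leaf K2_ok TE_l12959 _))
                (CovZ.leaf K2_ok TE_l12960 _))))))

end Pool.Agent.TET
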