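import Pool.Agent.Helper38_TET.TE_M
import Pool.Agent.Helper38_TET.TE_L
import Pool.Agent.Helper38_TET.TE_83
import Pool.Agent.Helper38_TET.TE_86
import Pool.Agent.Helper38_TET.TE_87
import Pool.Agent.Helper38_TET.TE_88
import Pool.Agent.Helper38_TET.TE_97
import Pool.Agent.Helper38_TET.TE_98
import Pool.Agent.Helper38_TET.TE_103
import Pool.Agent.Helper38_TET.TE_123
import Pool.Agent.Helper38_TET.TE_127
import Pool.Agent.Helper38_TET.TE_128
import Pool.Agent.Helper38_TET.TE_129
import Pool.Agent.Helper38_TET.TE_130
import Pool.Agent.Helper38_TET.TE_U15

/-!
# MP_c7c9bf_co: certificates, family TE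
-/

set_option autoImplicit false
set_option maxRecDepth 100000

namespace Pool.Agent.TET

theorem TE_u245 : CovZ TE_M (toL (selN TE_LN 20931457702522666111221228323864640)) [0, 7, 6, 1] (3360, 31520) (3520, 31680) (3200, 31680) :=
    (CovZ.n1 (3360, 31680) (by decide +kernel)
            (CovZ.subM 162259431571718274064112374906880 (by decide +kernel)
             (CovZ.n2 (3440, 31600) (by decide +kernel)
              (CovZ.n2 (3360, 31600) (by decide +kernel)
               (CovZ.n2 (3400, 31640) (by decide +kernel)
                (CovZ.n2 (3400, 31600) (by decide +kernel)
                 (CovZ.n2 (3380, 31620) (by decide +kernel)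
                  (CovZ.n2 (3400, 31620) (by decide +kernel)
                   (CovZ.leaf K2_ok TE_l12961 _)
                   (CovZ.leaf K2_ok TE_l12962 _))
                  (CovZ.n1 (3380, 31600) (by decide +kernel)
                   (CovZ.leaf K2_ok TE_l12963 _)
                   (CovZ.n1 (3390, 31610) (by decide +kernel)
                    (CovZ.leaf K2_ok TE_l12964 _)
                    (CovZ.leaf K2_ok TE_l12965 _))))
                 (CovZ.n1 (3420, 31620) (by decide +kernel)
                  (CovZ.n2 (3420, 31600) (by decide +kernel)
                   (CovZ.leaf K2_ok TE_l12966 _)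
                   (CovZ.n1 (3430, 31610) (by decide +kernel)
                    (CovZ.leaf K2_ok TE_l18346 _)
                    (CovZ.leaf K2_ok TE_l18347 _)))
                  (CovZ.n1 (3400, 31620) (by decide +kernel)
                   (CovZ.n2 (3410, 31630) (by decide +kernel)
                    (CovZ.leaf K2_ok TE_l12967 _)
                    (CovZ.leaf K2_ok TE_l12968 _))
                   (CovZ.leaf K2_ok TE_l12969 _))))
                (CovZ.n1 (3360, 31640) (by decide +kernel)
                 (CovZ.n2 (3380, 31660) (by decide +kernel)
                  (CovZ.n2 (3380, 31640) (by decide +kernel)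
                   (CovZ.leaf K2_ok TE_l12970 _)
                   (CovZ.n1 (3390, 31650) (by decide +kernel)
                    (CovZ.leaf K2_ok TE_l12971 _)
                    (CovZ.leaf K2_ok TE_l12972 _)))
                  (CovZ.n1 (3360, 31660) (by decide +kernel)
                   (CovZ.n2 (3370, 31670) (by decide +kernel)
                    (CovZ.leaf K2_ok TE_l12973 _)
                    (CovZ.leaf K2_ok TE_l12974 _))
                   (CovZ.leaf K2_ok TE_l12975 _)))
                 (CovZ.n1 (3380, 31620) (by decide +kernel)
                  (CovZ.n2 (3360, 31620) (by decide +kernel)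
                   (CovZ.leaf K2_ok TE_l12976 _)
                   (CovZ.leaf K2_ok TE_l12977 _))
                  (CovZ.n1 (3380, 31640) (by decide +kernel)
                   (CovZ.leaf K2_ok TE_l12978 _)
                   (CovZ.leaf K2_ok TE_l12979 _)))))
               (CovZ.n1 (3400, 31560) (by decide +kernel)
                (CovZ.n2 (3360, 31560) (by decide +kernel)
                 (CovZ.n2 (3380, 31580) (by decide +kernel)
                  (CovZ.n2 (3380, 31560) (by decide +kernel)
                   (CovZ.leaf K2_ok TE_l12980 _)
                   (CovZ.leaf K2_ok TE_l12981 _))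
                  (CovZ.n1 (3360, 31580) (by decide +kernel)
                   (CovZ.leaf K2_ok TE_l12982 _)
                   (CovZ.leaf K2_ok TE_l12983 _)))
                 (CovZ.n1 (3380, 31540) (by decide +kernel)
                  (CovZ.n2 (3360, 31540) (by decide +kernel)
                   (CovZ.leaf K2_ok TE_l12984 _)
                   (CovZ.leaf K2_ok TE_l12985 _))
                  (CovZ.n1 (3380, 31560) (by decide +kernel)
                   (CovZ.leaf K2_ok TE_l12986 _)
                   (CovZ.leaf K2_ok TE_l12987 _))))
                (CovZ.n1 (3400, 31600) (by decide +kernel)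
                 (CovZ.n2 (3420, 31580) (by decide +kernel)
                  (CovZ.n2 (3400, 31580) (by decide +kernel)
                   (CovZ.n2 (3410, 31590) (by decide +kernel)
                    (CovZ.leaf K2_ok TE_l12988 _)
                    (CovZ.leaf K2_ok TE_l12989 _))
                   (CovZ.leaf K2_ok TE_l12990 _))
                  (CovZ.n1 (3420, 31600) (by decide +kernel)
                   (CovZ.leaf K2_ok TE_l18348 _)
                   (CovZ.n1 (3410, 31590) (by decide +kernel)
                    (CovZ.leaf K2_ok TE_l12991 _)
                    (CovZ.leaf K2_ok TE_l12992 _))))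
                 (CovZ.n1 (3380, 31580) (by decide +kernel)
                  (CovZ.n2 (3380, 31600) (by decide +kernel)
                   (CovZ.leaf K2_ok TE_l12993 _)
                   (CovZ.leaf K2_ok TE_l12994 _))
                  (CovZ.n1 (3400, 31580) (by decide +kernel)
                   (CovZ.n2 (3390, 31570) (by decide +kernel)
                    (CovZ.leaf K2_ok TE_l12995 _)
                    (CovZ.leaf K2_ok TE_l12996 _))
                   (CovZ.leaf K2_ok TE_l12997 _))))))
              (CovZ.n1 (3440, 31680) (by decide +kernel)
               (CovZ.badM (by decide +kernel))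
               (CovZ.n1 (3400, 31640) (by decide +kernel)
                (CovZ.n2 (3400, 31680) (by decide +kernel)
                 (CovZ.n2 (3420, 31660) (by decide +kernel)
                  (CovZ.n2 (3400, 31660) (by decide +kernel)
                   (CovZ.n2 (3410, 31670) (by decide +kernel)
                    (CovZ.leaf K2_ok TE_l12998 _)
                    (CovZ.leaf K2_ok TE_l12999 _))
                   (CovZ.leaf K2_ok TE_l13000 _))
                  (CovZ.n1 (3420, 31680) (by decide +kernel)
                   (CovZ.badM (by decide +kernel))
                   (CovZ.n1 (3410, 31670) (by decide +kernel)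
                    (CovZ.leaf K2_ok TE_l13003 _)
                    (CovZ.badM (by decide +kernel)))))
                 (CovZ.n1 (3380, 31660) (by decide +kernel)
                  (CovZ.n2 (3380, 31680) (by decide +kernel)
                   (CovZ.leaf K2_ok TE_l13005 _)
                   (CovZ.leaf K2_ok TE_l13006 _))
                  (CovZ.n1 (3400, 31660) (by decide +kernel)
                   (CovZ.leaf K2_ok TE_l13007 _)
                   (CovZ.leaf K2_ok TE_l13008 _))))
                (CovZ.n1 (3440, 31640) (by decide +kernel)
                 (CovZ.n2 (3420, 31620) (by decide +kernel)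
                  (CovZ.n2 (3420, 31640) (by decide +kernel)
                   (CovZ.badM (by decide +kernel))
                   (CovZ.n1 (3410, 31630) (by decide +kernel)
                    (CovZ.leaf K2_ok TE_l13010 _)
                    (CovZ.badM (by decide +kernel))))
                  (CovZ.badM (by decide +kernel)))
                 (CovZ.n1 (3420, 31660) (by decide +kernel)
                  (CovZ.badM (by decide +kernel))
                  (CovZ.n1 (3420, 31640) (by decide +kernel)
                   (CovZ.leaf K2_ok TE_l13014 _)
                   (CovZ.badM (by decide +kernel)))))))))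
            (CovZ.n1 (3280, 31600) (by decide +kernel)
             (CovZ.n2 (3280, 31680) (by decide +kernel)
              (CovZ.n2 (3320, 31640) (by decide +kernel)
               (CovZ.n2 (3280, 31640) (by decide +kernel)
                (CovZ.n2 (3300, 31660) (by decide +kernel)
                 (CovZ.leaf K2_ok TE_l13017 _)
                 (CovZ.leaf K2_ok TE_l13018 _))
                (CovZ.n1 (3300, 31620) (by decide +kernel)
                 (CovZ.leaf K2_ok TE_l13019 _)
                 (CovZ.leaf K2_ok TE_l13020 _)))
               (CovZ.n1 (3320, 31680) (by decide +kernel)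
                (CovZ.n2 (3340, 31660) (by decide +kernel)
                 (CovZ.n2 (3320, 31660) (by decide +kernel)
                  (CovZ.leaf K2_ok TE_l13021 _)
                  (CovZ.leaf K2_ok TE_l13022 _))
                 (CovZ.leaf K2_ok TE_l13023 _))
                (CovZ.n1 (3300, 31660) (by decide +kernel)
                 (CovZ.leaf K2_ok TE_l13024 _)
                 (CovZ.leaf K2_ok TE_l13025 _))))
              (CovZ.n1 (3240, 31640) (by decide +kernel)
               (CovZ.n2 (3240, 31680) (by decide +kernel)
                (CovZ.leaf K2_ok TE_l13026 _)
                (CovZ.n1 (3220, 31660) (by decide +kernel)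
                 (CovZ.leaf K2_ok TE_l13027 _)
                 (CovZ.leaf K2_ok TE_l13028 _)))
               (CovZ.n1 (3280, 31640) (by decide +kernel)
                (CovZ.n2 (3260, 31620) (by decide +kernel)
                 (CovZ.leaf K2_ok TE_l13029 _)
                 (CovZ.leaf K2_ok TE_l13030 _))
                (CovZ.leaf K2_ok TE_l13031 _))))
             (CovZ.subM 162269644577632674261738998333440 (by decide +kernel)
              (CovZ.n1 (3360, 31600) (by decide +kernel)
               (CovZ.n2 (3320, 31560) (by decide +kernel)
                (CovZ.n2 (3320, 31600) (by decide +kernel)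
                 (CovZ.n2 (3340, 31580) (by decide +kernel)
                  (CovZ.leaf K2_ok TE_l13032 _)
                  (CovZ.leaf K2_ok TE_l13033 _))
                 (CovZ.n1 (3300, 31580) (by decide +kernel)
                  (CovZ.leaf K2_ok TE_l13034 _)
                  (CovZ.leaf K2_ok TE_l13035 _)))
                (CovZ.n1 (3360, 31560) (by decide +kernel)
                 (CovZ.n2 (3340, 31540) (by decide +kernel)
                  (CovZ.n2 (3340, 31560) (by decide +kernel)
                   (CovZ.leaf K2_ok TE_l13036 _)
                   (CovZ.leaf K2_ok TE_l13037 _))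
                  (CovZ.n1 (3360, 31540) (by decide +kernel)
                   (CovZ.leaf K2_ok TE_l13038 _)
                   (CovZ.leaf K2_ok TE_l13039 _)))
                 (CovZ.n1 (3340, 31580) (by decide +kernel)
                  (CovZ.leaf K2_ok TE_l13040 _)
                  (CovZ.leaf K2_ok TE_l13041 _))))
               (CovZ.n1 (3320, 31640) (by decide +kernel)
                (CovZ.n2 (3360, 31640) (by decide +kernel)
                 (CovZ.n2 (3340, 31620) (by decide +kernel)
                  (CovZ.leaf K2_ok TE_l13042 _)
                  (CovZ.leaf K2_ok TE_l13043 _))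
                 (CovZ.n1 (3340, 31660) (by decide +kernel)
                  (CovZ.leaf K2_ok TE_l13044 _)
                  (CovZ.n1 (3340, 31640) (by decide +kernel)
                   (CovZ.leaf K2_ok TE_l13045 _)
                   (CovZ.leaf K2_ok TE_l13046 _))))
                (CovZ.n1 (3320, 31600) (by decide +kernel)
                 (CovZ.n2 (3300, 31620) (by decide +kernel)
                  (CovZ.leaf K2_ok TE_l13047 _)
                  (CovZ.leaf K2_ok TE_l13048 _))
                 (CovZ.n1 (3340, 31620) (by decide +kernel)
                  (CovZ.n2 (3340, 31600) (by decide +kernel)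
                   (CovZ.leaf K2_ok TE_l13049 _)
                   (CovZ.leaf K2_ok TE_l13050 _))
                  (CovZ.leaf K2_ok TE_l13051 _))))))))

theorem TE_u246 : CovZ TE_M (toL (selN TE_LN 21649492671511269299276951582894921352845915457646100546)) [0, 7, 6, 1] (2560, 32000) (2880, 31680) (3200, 32000) :=
    (CovZ.n2 (2880, 32000) (by decide +kernel)
         (CovZ.subM 228623490036027452147421374522064960 (by decide +kernel)
          (CovZ.n2 (3040, 31840) (by decide +kernel)
           (CovZ.n2 (2880, 31840) (by decide +kernel)
            (CovZ.n2 (2960, 31920) (by decide +kernel)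
             (CovZ.n2 (2960, 31840) (by decide +kernel)
              (CovZ.n2 (2920, 31880) (by decide +kernel)
               (CovZ.leaf K2_ok TE_l13090 _)
               (CovZ.leaf K2_ok TE_l13091 _))
              (CovZ.n1 (3000, 31880) (by decide +kernel)
               (CovZ.leaf K2_ok TE_l13092 _)
               (CovZ.leaf K2_ok TE_l13093 _)))
             (CovZ.n1 (2880, 31920) (by decide +kernel)
              (CovZ.n2 (2920, 31960) (by decide +kernel)
               (CovZ.leaf K2_ok TE_l13094 _)
               (CovZ.leaf K2_ok TE_l13095 _))
              (CovZ.n1 (2920, 31880) (by decide +kernel)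
               (CovZ.leaf K2_ok TE_l13096 _)
               (CovZ.leaf K2_ok TE_l13097 _))))
            (CovZ.n1 (2960, 31760) (by decide +kernel)
             (CovZ.n2 (2880, 31760) (by decide +kernel)
              (CovZ.n2 (2920, 31800) (by decide +kernel)
               (CovZ.leaf K2_ok TE_l13098 _)
               (CovZ.leaf K2_ok TE_l13099 _))
              (CovZ.leaf K2_ok TE_l13100 _))
             (CovZ.n1 (2960, 31840) (by decide +kernel)
              (CovZ.n2 (3000, 31800) (by decide +kernel)
               (CovZ.leaf K2_ok TE_l13101 _)
               (CovZ.leaf K2_ok TE_l13102 _))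
              (CovZ.n1 (2920, 31800) (by decide +kernel)
               (CovZ.leaf K2_ok TE_l13103 _)
               (CovZ.leaf K2_ok TE_l13104 _)))))
           (CovZ.n1 (3040, 32000) (by decide +kernel)
            (CovZ.subM 20769197342510085470881668852088832 (by decide +kernel)
             (CovZ.n2 (3120, 31920) (by decide +kernel)
              (CovZ.n2 (3040, 31920) (by decide +kernel)
               (CovZ.n2 (3080, 31960) (by decide +kernel)
                (CovZ.n2 (3080, 31920) (by decide +kernel)
                 (CovZ.leaf K2_ok TE_l13105 _)
                 (CovZ.n1 (3100, 31940) (by decide +kernel)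
                  (CovZ.leaf K2_ok TE_l13106 _)
                  (CovZ.leaf K2_ok TE_l13107 _)))
                (CovZ.n1 (3040, 31960) (by decide +kernel)
                 (CovZ.n2 (3060, 31980) (by decide +kernel)
                  (CovZ.leaf K2_ok TE_l13108 _)
                  (CovZ.leaf K2_ok TE_l13109 _))
                 (CovZ.leaf K2_ok TE_l13110 _)))
               (CovZ.n1 (3080, 31880) (by decide +kernel)
                (CovZ.n2 (3040, 31880) (by decide +kernel)
                 (CovZ.leaf K2_ok TE_l13111 _)
                 (CovZ.leaf K2_ok TE_l13112 _))
                (CovZ.n1 (3080, 31920) (by decide +kernel)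
                 (CovZ.leaf K2_ok TE_l13113 _)
                 (CovZ.leaf K2_ok TE_l13114 _))))
              (CovZ.subM 4850460673717484340117504 (by decide +kernel)
               (CovZ.n1 (3120, 32000) (by decide +kernel)
                (CovZ.n2 (3160, 31960) (by decide +kernel)
                 (CovZ.n2 (3120, 31960) (by decide +kernel)
                  (CovZ.n2 (3140, 31980) (by decide +kernel)
                   (CovZ.n2 (3140, 31960) (by decide +kernel)
                    (CovZ.leaf K2_ok TE_l13115 _)
                    (CovZ.leaf K2_ok TE_l13116 _))
                   (CovZ.leaf K2_ok TE_l13117 _))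
                  (CovZ.n1 (3140, 31940) (by decide +kernel)
                   (CovZ.leaf K2_ok TE_l13118 _)
                   (CovZ.leaf K2_ok TE_l13119 _)))
                 (CovZ.n1 (3160, 32000) (by decide +kernel)
                  (CovZ.badM (by decide +kernel))
                  (CovZ.n1 (3140, 31980) (by decide +kernel)
                   (CovZ.n2 (3140, 32000) (by decide +kernel)
                    (CovZ.leaf K2_ok TE_l13126 _)
                    (CovZ.leaf K2_ok TE_l13127 _))
                   (CovZ.n1 (3160, 31980) (by decide +kernel)
                    (CovZ.leaf K2_ok TE_l13128 _)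
                    (CovZ.leaf K2_ok TE_l13129 _)))))
                (CovZ.n1 (3080, 31960) (by decide +kernel)
                 (CovZ.n2 (3080, 32000) (by decide +kernel)
                  (CovZ.n2 (3100, 31980) (by decide +kernel)
                   (CovZ.leaf K2_ok TE_l13130 _)
                   (CovZ.leaf K2_ok TE_l13131 _))
                  (CovZ.n1 (3060, 31980) (by decide +kernel)
                   (CovZ.leaf K2_ok TE_l13132 _)
                   (CovZ.leaf K2_ok TE_l13133 _)))
                 (CovZ.n1 (3120, 31960) (by decide +kernel)
                  (CovZ.n2 (3100, 31940) (by decide +kernel)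
                   (CovZ.leaf K2_ok TE_l13134 _)
                   (CovZ.leaf K2_ok TE_l13135 _))
                  (CovZ.n1 (3100, 31980) (by decide +kernel)
                   (CovZ.leaf K2_ok TE_l13136 _)
                   (CovZ.leaf K2_ok TE_l13137 _))))))))
            (CovZ.n1 (2960, 31920) (by decide +kernel)
             (CovZ.n2 (2960, 32000) (by decide +kernel)
              (CovZ.subM 186922686912094810567849612903710784 (by decide +kernel)
               (CovZ.n2 (3000, 31960) (by decide +kernel)
                (CovZ.n2 (2960, 31960) (by decide +kernel)
                 (CovZ.n2 (2980, 31980) (by decide +kernel)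
                  (CovZ.leaf K2_ok TE_l13138 _)
                  (CovZ.leaf K2_ok TE_l13139 _))
                 (CovZ.leaf K2_ok TE_l13140 _))
                (CovZ.n1 (3000, 32000) (by decide +kernel)
                 (CovZ.leaf K2_ok TE_l13141 _)
                 (CovZ.leaf K2_ok TE_l13142 _))))
              (CovZ.n1 (2920, 31960) (by decide +kernel)
               (CovZ.n2 (2920, 32000) (by decide +kernel)
                (CovZ.leaf K2_ok TE_l13143 _)
                (CovZ.leaf K2_ok TE_l13144 _))
               (CovZ.leaf K2_ok TE_l13145 _)))
             (CovZ.n1 (3040, 31920) (by decide +kernel)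
              (CovZ.n2 (3000, 31880) (by decide +kernel)
               (CovZ.leaf K2_ok TE_l13146 _)
               (CovZ.leaf K2_ok TE_l13147 _))
              (CovZ.subM 186922686912104255300815352194138176 (by decide +kernel)
               (CovZ.n1 (3000, 31960) (by decide +kernel)
                (CovZ.n2 (3040, 31960) (by decide +kernel)
                 (CovZ.leaf K2_ok TE_l13148 _)
                 (CovZ.leaf K2_ok TE_l13149 _))
                (CovZ.n1 (3000, 31920) (by decide +kernel)
                 (CovZ.leaf K2_ok TE_l13150 _)
                 (CovZ.leaf K2_ok TE_l13151 _)))))))))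
         (CovZ.subM 9389528344584158432241101198685136038875256809832054848 (by decide +kernel)
          (CovZ.n1 (2720, 31840) (by decide +kernel)
           (CovZ.n2 (2720, 32000) (by decide +kernel)
            (CovZ.n2 (2800, 31920) (by decide +kernel)
             (CovZ.n2 (2720, 31920) (by decide +kernel)
              (CovZ.n2 (2760, 31960) (by decide +kernel)
               (CovZ.leaf K2_ok TE_l13152 _)
               (CovZ.leaf K2_ok TE_l13153 _))
              (CovZ.leaf K2_ok TE_l13154 _))
             (CovZ.n1 (2800, 32000) (by decide +kernel)
              (CovZ.n2 (2840, 31960) (by decide +kernel)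
               (CovZ.leaf K2_ok TE_l13155 _)
               (CovZ.leaf K2_ok TE_l13156 _))
              (CovZ.n1 (2760, 31960) (by decide +kernel)
               (CovZ.leaf K2_ok TE_l13157 _)
               (CovZ.leaf K2_ok TE_l13158 _))))
            (CovZ.n1 (2640, 31920) (by decide +kernel)
             (CovZ.n2 (2640, 32000) (by decide +kernel)
              (CovZ.leaf K2_ok TE_l13159 _)
              (CovZ.n1 (2600, 31960) (by decide +kernel)
               (CovZ.leaf K2_ok TE_l13160 _)
               (CovZ.leaf K2_ok TE_l13161 _)))
             (CovZ.n1 (2720, 31920) (by decide +kernel)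
              (CovZ.leaf K2_ok TE_l13162 _)
              (CovZ.leaf K2_ok TE_l13163 _))))
           (CovZ.n1 (2880, 31840) (by decide +kernel)
            (CovZ.n2 (2800, 31760) (by decide +kernel)
             (CovZ.n2 (2800, 31840) (by decide +kernel)
              (CovZ.leaf K2_ok TE_l13164 _)
              (CovZ.leaf K2_ok TE_l13165 _))
             (CovZ.n1 (2880, 31760) (by decide +kernel)
              (CovZ.n2 (2840, 31720) (by decide +kernel)
               (CovZ.leaf K2_ok TE_l13166 _)
               (CovZ.leaf K2_ok TE_l13167 _))
              (CovZ.leaf K2_ok TE_l13168 _)))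
            (CovZ.n1 (2800, 31920) (by decide +kernel)
             (CovZ.subM 2993155353253689238951136481345896015447754432053312 (by decide +kernel)
              (CovZ.n2 (2880, 31920) (by decide +kernel)
               (CovZ.n2 (2840, 31880) (by decide +kernel)
                (CovZ.leaf K2_ok TE_l13169 _)
                (CovZ.leaf K2_ok TE_l13170 _))
               (CovZ.n1 (2840, 31960) (by decide +kernel)
                (CovZ.leaf K2_ok TE_l13171 _)
                (CovZ.leaf K2_ok TE_l13172 _))))
             (CovZ.n1 (2800, 31840) (by decide +kernel)
              (CovZ.leaf K2_ok TE_l13173 _)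
              (CovZ.n1 (2840, 31880) (by decide +kernel)
               (CovZ.leaf K2_ok TE_l13174 _)
               (CovZ.leaf K2_ok TE_l13175 _))))))))

theorem TE_u247 : CovZ TE_M (toL (selN TE_LN 21649492671511269299276951582894921352845915457646100546)) [0, 7, 6, 1] (2880, 31680) (3200, 31360) (3200, 32000) :=
    (CovZ.subM 228623490500254966880564877516210240 (by decide +kernel)
         (CovZ.n1 (3200, 31680) (by decide +kernel)
          (CovZ.n2 (3040, 31520) (by decide +kernel)
           (CovZ.n2 (3040, 31680) (by decide +kernel)
            (CovZ.n2 (3120, 31600) (by decide +kernel)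
             (CovZ.n2 (3040, 31600) (by decide +kernel)
              (CovZ.n2 (3080, 31640) (by decide +kernel)
               (CovZ.leaf K2_ok TE_l13176 _)
               (CovZ.leaf K2_ok TE_l13177 _))
              (CovZ.n1 (3080, 31560) (by decide +kernel)
               (CovZ.leaf K2_ok TE_l13178 _)
               (CovZ.leaf K2_ok TE_l13179 _)))
             (CovZ.n1 (3120, 31680) (by decide +kernel)
              (CovZ.n2 (3160, 31640) (by decide +kernel)
               (CovZ.leaf K2_ok TE_l13180 _)
               (CovZ.n1 (3160, 31680) (by decide +kernel)
                (CovZ.leaf K2_ok TE_l13181 _)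
                (CovZ.leaf K2_ok TE_l13182 _)))
              (CovZ.n1 (3080, 31640) (by decide +kernel)
               (CovZ.leaf K2_ok TE_l13183 _)
               (CovZ.leaf K2_ok TE_l13184 _))))
            (CovZ.n1 (2960, 31600) (by decide +kernel)
             (CovZ.n2 (2960, 31680) (by decide +kernel)
              (CovZ.leaf K2_ok TE_l13185 _)
              (CovZ.n1 (2920, 31640) (by decide +kernel)
               (CovZ.leaf K2_ok TE_l13186 _)
               (CovZ.leaf K2_ok TE_l13187 _)))
             (CovZ.n1 (3040, 31600) (by decide +kernel)
              (CovZ.n2 (3000, 31560) (by decide +kernel)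
               (CovZ.leaf K2_ok TE_l13188 _)
               (CovZ.leaf K2_ok TE_l13189 _))
              (CovZ.leaf K2_ok TE_l13190 _))))
           (CovZ.n1 (3200, 31520) (by decide +kernel)
            (CovZ.n2 (3120, 31440) (by decide +kernel)
             (CovZ.n2 (3120, 31520) (by decide +kernel)
              (CovZ.n2 (3160, 31480) (by decide +kernel)
               (CovZ.n2 (3120, 31480) (by decide +kernel)
                (CovZ.leaf K2_ok TE_l13191 _)
                (CovZ.leaf K2_ok TE_l13192 _))
               (CovZ.n1 (3160, 31520) (by decide +kernel)
                (CovZ.leaf K2_ok TE_l13193 _)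
                (CovZ.leaf K2_ok TE_l13194 _)))
              (CovZ.n1 (3080, 31480) (by decide +kernel)
               (CovZ.leaf K2_ok TE_l13195 _)
               (CovZ.leaf K2_ok TE_l13196 _)))
             (CovZ.n1 (3200, 31440) (by decide +kernel)
              (CovZ.n2 (3160, 31400) (by decide +kernel)
               (CovZ.n2 (3160, 31440) (by decide +kernel)
                (CovZ.leaf K2_ok TE_l13197 _)
                (CovZ.leaf K2_ok TE_l13198 _))
               (CovZ.n1 (3200, 31400) (by decide +kernel)
                (CovZ.leaf K2_ok TE_l13199 _)
                (CovZ.leaf K2_ok TE_l13200 _)))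
              (CovZ.n1 (3160, 31480) (by decide +kernel)
               (CovZ.n2 (3200, 31480) (by decide +kernel)
                (CovZ.leaf K2_ok TE_l13201 _)
                (CovZ.leaf K2_ok TE_l13202 _))
               (CovZ.n1 (3160, 31440) (by decide +kernel)
                (CovZ.leaf K2_ok TE_l13203 _)
                (CovZ.leaf K2_ok TE_l13204 _)))))
            (CovZ.n1 (3120, 31600) (by decide +kernel)
             (CovZ.n2 (3200, 31600) (by decide +kernel)
              (CovZ.n2 (3160, 31560) (by decide +kernel)
               (CovZ.n2 (3160, 31600) (by decide +kernel)
                (CovZ.leaf K2_ok TE_l13205 _)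
                (CovZ.leaf K2_ok TE_l13206 _))
               (CovZ.n1 (3200, 31560) (by decide +kernel)
                (CovZ.leaf K2_ok TE_l13207 _)
                (CovZ.leaf K2_ok TE_l13208 _)))
              (CovZ.subM 20931457702522666109532378463469632 (by decide +kernel)
               (CovZ.n1 (3160, 31640) (by decide +kernel)
                (CovZ.n2 (3200, 31640) (by decide +kernel)
                 (CovZ.leaf K2_ok TE_l13209 _)
                 (CovZ.leaf K2_ok TE_l13210 _))
                (CovZ.n1 (3160, 31600) (by decide +kernel)
                 (CovZ.leaf K2_ok TE_l13211 _)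
                 (CovZ.leaf K2_ok TE_l13212 _)))))
             (CovZ.n1 (3120, 31520) (by decide +kernel)
              (CovZ.n2 (3080, 31560) (by decide +kernel)
               (CovZ.leaf K2_ok TE_l13213 _)
               (CovZ.leaf K2_ok TE_l13214 _))
              (CovZ.n1 (3160, 31560) (by decide +kernel)
               (CovZ.n2 (3160, 31520) (by decide +kernel)
                (CovZ.leaf K2_ok TE_l13215 _)
                (CovZ.leaf K2_ok TE_l13216 _))
               (CovZ.leaf K2_ok TE_l13217 _))))))
          (CovZ.n1 (3040, 31840) (by decide +kernel)
           (CovZ.n2 (3200, 31840) (by decide +kernel)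
            (CovZ.n2 (3120, 31760) (by decide +kernel)
             (CovZ.subM 20931457238309318476963384311939072 (by decide +kernel)
              (CovZ.n2 (3120, 31840) (by decide +kernel)
               (CovZ.n2 (3160, 31800) (by decide +kernel)
                (CovZ.n2 (3120, 31800) (by decide +kernel)
                 (CovZ.leaf K2_ok TE_l13218 _)
                 (CovZ.leaf K2_ok TE_l13219 _))
                (CovZ.n1 (3160, 31840) (by decide +kernel)
                 (CovZ.leaf K2_ok TE_l13220 _)
                 (CovZ.leaf K2_ok TE_l13221 _)))
               (CovZ.n1 (3080, 31800) (by decide +kernel)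
                (CovZ.n2 (3080, 31840) (by decide +kernel)
                 (CovZ.leaf K2_ok TE_l13222 _)
                 (CovZ.leaf K2_ok TE_l13223 _))
                (CovZ.leaf K2_ok TE_l13224 _))))
             (CovZ.subM 162270268383355595410393146589184 (by decide +kernel)
              (CovZ.n1 (3200, 31760) (by decide +kernel)
               (CovZ.n2 (3160, 31720) (by decide +kernel)
                (CovZ.n2 (3160, 31760) (by decide +kernel)
                 (CovZ.leaf K2_ok TE_l13225 _)
                 (CovZ.leaf K2_ok TE_l13226 _))
                (CovZ.n1 (3200, 31720) (by decide +kernel)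
                 (CovZ.leaf K2_ok TE_l13227 _)
                 (CovZ.leaf K2_ok TE_l13228 _)))
               (CovZ.n1 (3160, 31800) (by decide +kernel)
                (CovZ.n2 (3200, 31800) (by decide +kernel)
                 (CovZ.n2 (3180, 31780) (by decide +kernel)
                  (CovZ.leaf K2_ok TE_l13229 _)
                  (CovZ.leaf K2_ok TE_l13230 _))
                 (CovZ.leaf K2_ok TE_l13231 _))
                (CovZ.n1 (3160, 31760) (by decide +kernel)
                 (CovZ.leaf K2_ok TE_l13232 _)
                 (CovZ.n1 (3180, 31780) (by decide +kernel)
                  (CovZ.leaf K2_ok TE_l13233 _)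
                  (CovZ.leaf K2_ok TE_l13234 _)))))))
            (CovZ.subM 20769197961480105113571806301650944 (by decide +kernel)
             (CovZ.n1 (3120, 31920) (by decide +kernel)
              (CovZ.subM 618984777037949105090854912 (by decide +kernel)
               (CovZ.n2 (3200, 31920) (by decide +kernel)
                (CovZ.n2 (3160, 31880) (by decide +kernel)
                 (CovZ.n2 (3160, 31920) (by decide +kernel)
                  (CovZ.n2 (3180, 31900) (by decide +kernel)
                   (CovZ.leaf K2_ok TE_l13235 _)
                   (CovZ.leaf K2_ok TE_l13236 _))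
                  (CovZ.n1 (3140, 31900) (by decide +kernel)
                   (CovZ.leaf K2_ok TE_l13237 _)
                   (CovZ.leaf K2_ok TE_l13238 _)))
                 (CovZ.n1 (3200, 31880) (by decide +kernel)
                  (CovZ.n2 (3180, 31860) (by decide +kernel)
                   (CovZ.leaf K2_ok TE_l13239 _)
                   (CovZ.leaf K2_ok TE_l13240 _))
                  (CovZ.n1 (3180, 31900) (by decide +kernel)
                   (CovZ.leaf K2_ok TE_l13241 _)
                   (CovZ.leaf K2_ok TE_l13242 _))))
                (CovZ.n1 (3160, 31960) (by decide +kernel)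
                 (CovZ.n2 (3200, 31960) (by decide +kernel)
                  (CovZ.n2 (3180, 31940) (by decide +kernel)
                   (CovZ.n2 (3180, 31960) (by decide +kernel)
                    (CovZ.leaf K2_ok TE_l13243 _)
                    (CovZ.leaf K2_ok TE_l13244 _))
                   (CovZ.leaf K2_ok TE_l13245 _))
                  (CovZ.badM (by decide +kernel)))
                 (CovZ.n1 (3160, 31920) (by decide +kernel)
                  (CovZ.n2 (3140, 31940) (by decide +kernel)
                   (CovZ.leaf K2_ok TE_l13252 _)
                   (CovZ.leaf K2_ok TE_l13253 _))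
                  (CovZ.n1 (3180, 31940) (by decide +kernel)
                   (CovZ.leaf K2_ok TE_l13254 _)
                   (CovZ.leaf K2_ok TE_l13255 _))))))
              (CovZ.n1 (3120, 31840) (by decide +kernel)
               (CovZ.n2 (3080, 31880) (by decide +kernel)
                (CovZ.n2 (3120, 31880) (by decide +kernel)
                 (CovZ.leaf K2_ok TE_l13256 _)
                 (CovZ.leaf K2_ok TE_l13257 _))
                (CovZ.n1 (3080, 31840) (by decide +kernel)
                 (CovZ.leaf K2_ok TE_l13258 _)
                 (CovZ.leaf K2_ok TE_l13259 _)))
               (CovZ.n1 (3160, 31880) (by decide +kernel)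
                (CovZ.n2 (3160, 31840) (by decide +kernel)
                 (CovZ.leaf K2_ok TE_l13260 _)
                 (CovZ.n1 (3180, 31860) (by decide +kernel)
                  (CovZ.leaf K2_ok TE_l13261 _)
                  (CovZ.leaf K2_ok TE_l13262 _)))
                (CovZ.n1 (3120, 31880) (by decide +kernel)
                 (CovZ.n2 (3140, 31900) (by decide +kernel)
                  (CovZ.leaf K2_ok TE_l13263 _)
                  (CovZ.leaf K2_ok TE_l13264 _))
                 (CovZ.leaf K2_ok TE_l13265 _)))))))
           (CovZ.n1 (3040, 31680) (by decide +kernel)
            (CovZ.n2 (2960, 31760) (by decide +kernel)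
             (CovZ.n2 (3040, 31760) (by decide +kernel)
              (CovZ.n2 (3000, 31720) (by decide +kernel)
               (CovZ.leaf K2_ok TE_l13266 _)
               (CovZ.leaf K2_ok TE_l13267 _))
              (CovZ.n1 (3000, 31800) (by decide +kernel)
               (CovZ.leaf K2_ok TE_l13268 _)
               (CovZ.leaf K2_ok TE_l13269 _)))
             (CovZ.n1 (2960, 31680) (by decide +kernel)
              (CovZ.leaf K2_ok TE_l13270 _)
              (CovZ.n1 (3000, 31720) (by decide +kernel)
               (CovZ.leaf K2_ok TE_l13271 _)
               (CovZ.leaf K2_ok TE_l13272 _))))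
            (CovZ.n1 (3120, 31760) (by decide +kernel)
             (CovZ.n2 (3120, 31680) (by decide +kernel)
              (CovZ.n2 (3080, 31720) (by decide +kernel)
               (CovZ.leaf K2_ok TE_l13273 _)
               (CovZ.leaf K2_ok TE_l13274 _))
              (CovZ.n1 (3160, 31720) (by decide +kernel)
               (CovZ.n2 (3160, 31680) (by decide +kernel)
                (CovZ.leaf K2_ok TE_l13275 _)
                (CovZ.leaf K2_ok TE_l13276 _))
               (CovZ.leaf K2_ok TE_l13277 _)))
             (CovZ.n1 (3040, 31760) (by decide +kernel)
              (CovZ.n2 (3080, 31800) (by decide +kernel)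
               (CovZ.leaf K2_ok TE_l13278 _)
               (CovZ.leaf K2_ok TE_l13279 _))
              (CovZ.n1 (3080, 31720) (by decide +kernel)
               (CovZ.leaf K2_ok TE_l13280 _)
               (CovZ.leaf K2_ok TE_l13281 _))))))))

theorem TE_u248 : CovZ TE_M (toL (selN TE_LN 21649492671511269299276951582894921352845915457646100546)) [0, 7, 6, 1] (2560, 33280) (2560, 32000) (3840, 32000) :=
    (CovZ.n2 (3200, 32640) (by decide +kernel)
      (CovZ.n2 (3200, 32000) (by decide +kernel)
       (CovZ.subM 9389528344584158432407092428358930975699108777714253888 (by decide +kernel)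
        (CovZ.n2 (2880, 32320) (by decide +kernel)
         (CovZ.subM 20769187438989180892029110951346176 (by decide +kernel)
          (CovZ.n2 (3200, 32320) (by decide +kernel)
           (CovZ.n2 (3040, 32160) (by decide +kernel)
            (CovZ.badM (by decide +kernel))
            (CovZ.n1 (3200, 32160) (by decide +kernel)
             (CovZ.n2 (3120, 32080) (by decide +kernel)
              (CovZ.badM (by decide +kernel))
              (CovZ.n1 (3200, 32080) (by decide +kernel)
               (CovZ.n2 (3160, 32040) (by decide +kernel)
                (CovZ.badM (by decide +kernel))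
                (CovZ.badM (by decide +kernel)))
               (CovZ.badM (by decide +kernel))))
             (CovZ.badM (by decide +kernel))))
           (CovZ.badM (by decide +kernel))))
         (CovZ.n1 (2880, 32000) (by decide +kernel)
          TE_u238
          TE_u239)))
       (CovZ.subM 928469196563483815110115328 (by decide +kernel)
        (CovZ.n1 (3520, 32320) (by decide +kernel)
         (CovZ.n2 (3520, 32000) (by decide +kernel)
          (CovZ.n2 (3360, 32160) (by decide +kernel)
           (CovZ.n2 (3520, 32160) (by decide +kernel)
            (CovZ.n2 (3440, 32080) (by decide +kernel)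
             (CovZ.badM (by decide +kernel))
             (CovZ.badM (by decide +kernel)))
            (CovZ.badM (by decide +kernel)))
           (CovZ.n1 (3360, 32000) (by decide +kernel)
            (CovZ.badM (by decide +kernel))
            (CovZ.n1 (3440, 32080) (by decide +kernel)
             (CovZ.n2 (3440, 32000) (by decide +kernel)
              (CovZ.badM (by decide +kernel))
              (CovZ.badM (by decide +kernel)))
             (CovZ.badM (by decide +kernel)))))
          (CovZ.badM (by decide +kernel)))
         (CovZ.n1 (3200, 32320) (by decide +kernel)
          (CovZ.badM (by decide +kernel))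
          (CovZ.badM (by decide +kernel))))))
      (CovZ.subM 6321544106071792221459068986806232837759479507171934272 (by decide +kernel)
       (CovZ.n1 (2560, 32640) (by decide +kernel)
        (CovZ.n2 (2880, 32960) (by decide +kernel)
         (CovZ.n2 (2880, 32640) (by decide +kernel)
          (CovZ.badM (by decide +kernel))
          (CovZ.badM (by decide +kernel)))
         (CovZ.badM (by decide +kernel)))
        (CovZ.n1 (2880, 32320) (by decide +kernel)
         (CovZ.n2 (2560, 32320) (by decide +kernel)
          (CovZ.badM (by decide +kernel))
          (CovZ.n1 (2720, 32160) (by decide +kernel)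
           (CovZ.n2 (2560, 32160) (by decide +kernel)
            (CovZ.badM (by decide +kernel))
            (CovZ.n1 (2640, 32080) (by decide +kernel)
             (CovZ.n2 (2560, 32080) (by decide +kernel)
              (CovZ.subM 191561942608236107294793536850118989143310805713813568 (by decide +kernel)
               (CovZ.n2 (2600, 32120) (by decide +kernel)
                (CovZ.n2 (2600, 32080) (by decide +kernel)
                 (CovZ.leaf K2_ok TE_l12549 _)
                 (CovZ.n1 (2620, 32100) (by decide +kernel)
                  (CovZ.leaf K2_ok TE_l12550 _)
                  (CovZ.leaf K2_ok TE_l12551 _)))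
                (CovZ.n1 (2560, 32120) (by decide +kernel)
                 (CovZ.subM 191561942608236107294793378393793370318825259920261120 (by decide +kernel)
                  (CovZ.n2 (2580, 32140) (by decide +kernel)
                   (CovZ.leaf K2_ok TE_l12552 _)
                   (CovZ.n1 (2560, 32140) (by decide +kernel)
                    (CovZ.n2 (2570, 32150) (by decide +kernel)
                     (CovZ.leaf K2_ok TE_l12553 _)
                     (CovZ.leaf K2_ok TE_l12554 _))
                    (CovZ.leaf K2_ok TE_l12555 _))))
                 (CovZ.leaf K2_ok TE_l12556 _))))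
              (CovZ.n1 (2600, 32040) (by decide +kernel)
               (CovZ.leaf K2_ok TE_l12557 _)
               (CovZ.n1 (2600, 32080) (by decide +kernel)
                (CovZ.leaf K2_ok TE_l12558 _)
                (CovZ.leaf K2_ok TE_l12559 _))))
             (CovZ.subM 158456329750895158056735211584 (by decide +kernel)
              (CovZ.n1 (2640, 32160) (by decide +kernel)
               (CovZ.n2 (2680, 32120) (by decide +kernel)
                (CovZ.n2 (2640, 32120) (by decide +kernel)
                 (CovZ.n2 (2660, 32140) (by decide +kernel)
                  (CovZ.n2 (2660, 32120) (by decide +kernel)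
                   (CovZ.leaf K2_ok TE_l12560 _)
                   (CovZ.leaf K2_ok TE_l12561 _))
                  (CovZ.n1 (2640, 32140) (by decide +kernel)
                   (CovZ.badM (by decide +kernel))
                   (CovZ.leaf K2_ok TE_l12562 _)))
                 (CovZ.n1 (2660, 32100) (by decide +kernel)
                  (CovZ.leaf K2_ok TE_l12563 _)
                  (CovZ.leaf K2_ok TE_l12564 _)))
                (CovZ.n1 (2680, 32160) (by decide +kernel)
                 (CovZ.n2 (2700, 32140) (by decide +kernel)
                  (CovZ.n2 (2680, 32140) (by decide +kernel)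
                   (CovZ.badM (by decide +kernel))
                   (CovZ.leaf K2_ok TE_l12565 _))
                  (CovZ.badM (by decide +kernel)))
                 (CovZ.n1 (2660, 32140) (by decide +kernel)
                  (CovZ.badM (by decide +kernel))
                  (CovZ.n1 (2680, 32140) (by decide +kernel)
                   (CovZ.n2 (2670, 32130) (by decide +kernel)
                    (CovZ.badM (by decide +kernel))
                    (CovZ.leaf K2_ok TE_l12567 _))
                   (CovZ.badM (by decide +kernel))))))
               (CovZ.n1 (2600, 32120) (by decide +kernel)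
                (CovZ.n2 (2600, 32160) (by decide +kernel)
                 (CovZ.n2 (2620, 32140) (by decide +kernel)
                  (CovZ.n2 (2600, 32140) (by decide +kernel)
                   (CovZ.badM (by decide +kernel))
                   (CovZ.leaf K2_ok TE_l12568 _))
                  (CovZ.badM (by decide +kernel)))
                 (CovZ.n1 (2580, 32140) (by decide +kernel)
                  (CovZ.n2 (2580, 32160) (by decide +kernel)
                   (CovZ.leaf K2_ok TE_l12569 _)
                   (CovZ.n1 (2570, 32150) (by decide +kernel)
                    (CovZ.badM (by decide +kernel))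
                    (CovZ.leaf K2_ok TE_l12570 _)))
                  (CovZ.n1 (2600, 32140) (by decide +kernel)
                   (CovZ.leaf K2_ok TE_l12571 _)
                   (CovZ.leaf K2_ok TE_l12572 _))))
                (CovZ.n1 (2640, 32120) (by decide +kernel)
                 (CovZ.n2 (2620, 32100) (by decide +kernel)
                  (CovZ.leaf K2_ok TE_l12573 _)
                  (CovZ.leaf K2_ok TE_l12574 _))
                 (CovZ.n1 (2620, 32140) (by decide +kernel)
                  (CovZ.n2 (2640, 32140) (by decide +kernel)
                   (CovZ.leaf K2_ok TE_l12575 _)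
                   (CovZ.badM (by decide +kernel)))
                  (CovZ.leaf K2_ok TE_l12576 _))))))))
           (CovZ.badM (by decide +kernel))))
         (CovZ.n1 (2880, 32640) (by decide +kernel)
          (CovZ.badM (by decide +kernel))
          (CovZ.badM (by decide +kernel)))))))

theorem TE_u249 : CovZ TE_M (toL (selN TE_LN 21649492671511269299276951582894921352845915457646100546)) [0, 7, 6, 1] (2560, 32000) (2560, 30720) (3840, 32000) :=
    (CovZ.n1 (3200, 31360) (by decide +kernel)
      (CovZ.n2 (2560, 31360) (by decide +kernel)
       TE_u240
       TE_u241)
      (CovZ.n1 (3200, 32000) (by decide +kernel)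
       (CovZ.subM 20931457702522666111221228323864640 (by decide +kernel)
        (CovZ.n2 (3520, 31680) (by decide +kernel)
         (CovZ.n2 (3200, 31680) (by decide +kernel)
          (CovZ.n2 (3360, 31840) (by decide +kernel)
           TE_u242
           TE_u243)
          (CovZ.n1 (3360, 31520) (by decide +kernel)
           TE_u244
           TE_u245))
         (CovZ.subM 162270263547652316951876445798400 (by decide +kernel)
          (CovZ.n1 (3520, 32000) (by decide +kernel)
           (CovZ.badM (by decide +kernel))
           (CovZ.n1 (3360, 31840) (by decide +kernel)
            (CovZ.subM 928455619759845564879994880 (by decide +kernel)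
             (CovZ.n2 (3360, 32000) (by decide +kernel)
              (CovZ.n2 (3440, 31920) (by decide +kernel)
               (CovZ.n2 (3360, 31920) (by decide +kernel)
                (CovZ.n2 (3400, 31960) (by decide +kernel)
                 (CovZ.badM (by decide +kernel))
                 (CovZ.badM (by decide +kernel)))
                (CovZ.badM (by decide +kernel)))
               (CovZ.n1 (3440, 32000) (by decide +kernel)
                (CovZ.badM (by decide +kernel))
                (CovZ.n1 (3400, 31960) (by decide +kernel)
                 (CovZ.badM (by decide +kernel))
                 (CovZ.badM (by decide +kernel)))))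
              (CovZ.n1 (3280, 31920) (by decide +kernel)
               (CovZ.n2 (3280, 32000) (by decide +kernel)
                (CovZ.n2 (3320, 31960) (by decide +kernel)
                 (CovZ.n2 (3280, 31960) (by decide +kernel)
                  (CovZ.badM (by decide +kernel))
                  (CovZ.n1 (3300, 31940) (by decide +kernel)
                   (CovZ.n2 (3280, 31940) (by decide +kernel)
                    (CovZ.badM (by decide +kernel))
                    (CovZ.n1 (3290, 31930) (by decide +kernel)
                     (CovZ.leaf K2_ok TE_l13052 _)
                     (CovZ.leaf K2_ok TE_l13053 _)))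
                   (CovZ.badM (by decide +kernel))))
                 (CovZ.badM (by decide +kernel)))
                (CovZ.n1 (3240, 31960) (by decide +kernel)
                 (CovZ.badM (by decide +kernel))
                 (CovZ.n1 (3280, 31960) (by decide +kernel)
                  (CovZ.n2 (3260, 31940) (by decide +kernel)
                   (CovZ.badM (by decide +kernel))
                   (CovZ.n1 (3280, 31940) (by decide +kernel)
                    (CovZ.n2 (3270, 31930) (by decide +kernel)
                     (CovZ.leaf K2_ok TE_l18349 _)
                     (CovZ.leaf K2_ok TE_l13059 _))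
                    (CovZ.badM (by decide +kernel))))
                  (CovZ.badM (by decide +kernel)))))
               (CovZ.n1 (3360, 31920) (by decide +kernel)
                (CovZ.n2 (3320, 31880) (by decide +kernel)
                 (CovZ.n2 (3320, 31920) (by decide +kernel)
                  (CovZ.n2 (3340, 31900) (by decide +kernel)
                   (CovZ.n2 (3320, 31900) (by decide +kernel)
                    (CovZ.n2 (3330, 31910) (by decide +kernel)
                     (CovZ.leaf K2_ok TE_l18350 _)
                     (CovZ.badM (by decide +kernel)))
                    (CovZ.n1 (3330, 31890) (by decide +kernel)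
                     (CovZ.leaf K2_ok TE_l18351 _)
                     (CovZ.leaf K2_ok TE_l18352 _)))
                   (CovZ.n1 (3340, 31920) (by decide +kernel)
                    (CovZ.badM (by decide +kernel))
                    (CovZ.n1 (3330, 31910) (by decide +kernel)
                     (CovZ.badM (by decide +kernel))
                     (CovZ.badM (by decide +kernel)))))
                  (CovZ.n1 (3300, 31900) (by decide +kernel)
                   (CovZ.n2 (3300, 31920) (by decide +kernel)
                    (CovZ.badM (by decide +kernel))
                    (CovZ.n1 (3290, 31910) (by decide +kernel)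
                     (CovZ.leaf K2_ok TE_l13061 _)
                     (CovZ.badM (by decide +kernel))))
                   (CovZ.n1 (3320, 31900) (by decide +kernel)
                    (CovZ.n2 (3310, 31890) (by decide +kernel)
                     (CovZ.leaf K2_ok TE_l13063 _)
                     (CovZ.leaf K2_ok TE_l13064 _))
                    (CovZ.badM (by decide +kernel)))))
                 (CovZ.n1 (3360, 31880) (by decide +kernel)
                  (CovZ.n2 (3340, 31860) (by decide +kernel)
                   (CovZ.n2 (3340, 31880) (by decide +kernel)
                    (CovZ.n2 (3350, 31870) (by decide +kernel)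
                     (CovZ.leaf K2_ok TE_l13067 _)
                     (CovZ.n1 (3350, 31880) (by decide +kernel)
                      (CovZ.badM (by decide +kernel))
                      (CovZ.leaf K2_ok TE_l18353 _)))
                    (CovZ.n1 (3330, 31870) (by decide +kernel)
                     (CovZ.leaf K2_ok TE_l18354 _)
                     (CovZ.leaf K2_ok TE_l13068 _)))
                   (CovZ.badM (by decide +kernel)))
                  (CovZ.n1 (3340, 31900) (by decide +kernel)
                   (CovZ.n2 (3360, 31900) (by decide +kernel)
                    (CovZ.n2 (3350, 31890) (by decide +kernel)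
                     (CovZ.badM (by decide +kernel))
                     (CovZ.badM (by decide +kernel)))
                    (CovZ.badM (by decide +kernel)))
                   (CovZ.n1 (3340, 31880) (by decide +kernel)
                    (CovZ.n2 (3330, 31890) (by decide +kernel)
                     (CovZ.badM (by decide +kernel))
                     (CovZ.leaf K2_ok TE_l18355 _))
                    (CovZ.n1 (3350, 31890) (by decide +kernel)
                     (CovZ.leaf K2_ok TE_l18356 _)
                     (CovZ.badM (by decide +kernel)))))))
                (CovZ.n1 (3320, 31960) (by decide +kernel)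
                 (CovZ.badM (by decide +kernel))
                 (CovZ.n1 (3320, 31920) (by decide +kernel)
                  (CovZ.n2 (3300, 31940) (by decide +kernel)
                   (CovZ.badM (by decide +kernel))
                   (CovZ.n1 (3300, 31920) (by decide +kernel)
                    (CovZ.n2 (3290, 31930) (by decide +kernel)
                     (CovZ.badM (by decide +kernel))
                     (CovZ.leaf K2_ok TE_l13073 _))
                    (CovZ.badM (by decide +kernel))))
                  (CovZ.badM (by decide +kernel))))))))
            (CovZ.subM 162269335092032557106311565803520 (by decide +kernel)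
             (CovZ.n1 (3520, 31840) (by decide +kernel)
              (CovZ.n2 (3440, 31760) (by decide +kernel)
               (CovZ.n2 (3440, 31840) (by decide +kernel)
                (CovZ.badM (by decide +kernel))
                (CovZ.n1 (3400, 31800) (by decide +kernel)
                 (CovZ.n2 (3400, 31840) (by decide +kernel)
                  (CovZ.n2 (3420, 31820) (by decide +kernel)
                   (CovZ.n2 (3400, 31820) (by decide +kernel)
                    (CovZ.n2 (3410, 31830) (by decide +kernel)
                     (CovZ.leaf K2_ok TE_l18357 _)
                     (CovZ.leaf K2_ok TE_l18358 _))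
                    (CovZ.n1 (3410, 31810) (by decide +kernel)
                     (CovZ.leaf K2_ok TE_l13078 _)
                     (CovZ.leaf K2_ok TE_l18359 _)))
                   (CovZ.n1 (3420, 31840) (by decide +kernel)
                    (CovZ.badM (by decide +kernel))
                    (CovZ.n1 (3410, 31830) (by decide +kernel)
                     (CovZ.badM (by decide +kernel))
                     (CovZ.n1 (3420, 31830) (by decide +kernel)
                      (CovZ.leaf K2_ok TE_l18360 _)
                      (CovZ.badM (by decide +kernel))))))
                  (CovZ.n1 (3380, 31820) (by decide +kernel)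
                   (CovZ.n2 (3380, 31840) (by decide +kernel)
                    (CovZ.n2 (3390, 31830) (by decide +kernel)
                     (CovZ.leaf K2_ok TE_l18361 _)
                     (CovZ.badM (by decide +kernel)))
                    (CovZ.n1 (3370, 31830) (by decide +kernel)
                     (CovZ.badM (by decide +kernel))
                     (CovZ.leaf K2_ok TE_l18362 _)))
                   (CovZ.n1 (3400, 31820) (by decide +kernel)
                    (CovZ.n2 (3390, 31810) (by decide +kernel)
                     (CovZ.leaf K2_ok TE_l18363 _)
                     (CovZ.leaf K2_ok TE_l13079 _))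
                    (CovZ.n1 (3390, 31830) (by decide +kernel)
                     (CovZ.leaf K2_ok TE_l18364 _)
                     (CovZ.leaf K2_ok TE_l18365 _)))))
                 (CovZ.n1 (3440, 31800) (by decide +kernel)
                  (CovZ.n2 (3420, 31780) (by decide +kernel)
                   (CovZ.n2 (3420, 31800) (by decide +kernel)
                    (CovZ.badM (by decide +kernel))
                    (CovZ.n1 (3410, 31790) (by decide +kernel)
                     (CovZ.leaf K2_ok TE_l13081 _)
                     (CovZ.badM (by decide +kernel))))
                   (CovZ.badM (by decide +kernel)))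
                  (CovZ.n1 (3420, 31820) (by decide +kernel)
                   (CovZ.badM (by decide +kernel))
                   (CovZ.n1 (3420, 31800) (by decide +kernel)
                    (CovZ.n2 (3410, 31810) (by decide +kernel)
                     (CovZ.badM (by decide +kernel))
                     (CovZ.leaf K2_ok TE_l13086 _))
                    (CovZ.badM (by decide +kernel)))))))
               (CovZ.badM (by decide +kernel)))
              (CovZ.n1 (3440, 31920) (by decide +kernel)
               (CovZ.badM (by decide +kernel))
               (CovZ.n1 (3440, 31840) (by decide +kernel)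
                (CovZ.n2 (3400, 31880) (by decide +kernel)
                 (CovZ.n2 (3440, 31880) (by decide +kernel)
                  (CovZ.n2 (3420, 31860) (by decide +kernel)
                   (CovZ.badM (by decide +kernel))
                   (CovZ.badM (by decide +kernel)))
                  (CovZ.badM (by decide +kernel)))
                 (CovZ.n1 (3400, 31840) (by decide +kernel)
                  (CovZ.badM (by decide +kernel))
                  (CovZ.n1 (3420, 31860) (by decide +kernel)
                   (CovZ.n2 (3420, 31840) (by decide +kernel)
                    (CovZ.badM (by decide +kernel))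
                    (CovZ.badM (by decide +kernel)))
                   (CovZ.badM (by decide +kernel)))))
                (CovZ.badM (by decide +kernel)))))))))))
       (CovZ.n1 (2880, 31680) (by decide +kernel)
        TE_u246
        TE_u247)))

theorem TE_u250 : CovZ TE_M (toL (selN TE_LN 3138550867693340381917894794006073983043302426940396535816)) [0, 7, 6, 1] (7680, 30720) (7680, 32000) (6400, 32000) :=
    (CovZ.n2 (7040, 31360) (by decide +kernel)
      (CovZ.subM 4951760157213598622282940424 (by decide +kernel)
       (CovZ.n2 (7040, 32000) (by decide +kernel)
        (CovZ.n2 (7360, 31680) (by decide +kernel)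
         (CovZ.n2 (7040, 31680) (by decide +kernel)
          (CovZ.n2 (7200, 31840) (by decide +kernel)
           (CovZ.leaf K2_ok TE_l14628 _)
           (CovZ.leaf K2_ok TE_l14629 _))
          (CovZ.leaf K2_ok TE_l14630 _))
         (CovZ.n1 (7360, 32000) (by decide +kernel)
          (CovZ.leaf K2_ok TE_l18934 _)
          (CovZ.n1 (7200, 31840) (by decide +kernel)
           (CovZ.leaf K2_ok TE_l18935 _)
           (CovZ.leaf K2_ok TE_l18936 _))))
        (CovZ.n1 (6720, 31680) (by decide +kernel)
         (CovZ.n2 (6720, 32000) (by decide +kernel)
          (CovZ.n2 (6880, 31840) (by decide +kernel)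
           (CovZ.n2 (6720, 31840) (by decide +kernel)
            (CovZ.n2 (6800, 31920) (by decide +kernel)
             (CovZ.leaf K2_ok TE_l14631 _)
             (CovZ.leaf K2_ok TE_l14632 _))
            (CovZ.leaf K2_ok TE_l14633 _))
           (CovZ.n1 (6880, 32000) (by decide +kernel)
            (CovZ.leaf K2_ok TE_l14634 _)
            (CovZ.n1 (6800, 31920) (by decide +kernel)
             (CovZ.leaf K2_ok TE_l14635 _)
             (CovZ.leaf K2_ok TE_l14636 _))))
          (CovZ.n1 (6560, 31840) (by decide +kernel)
           (CovZ.subM 72057594037927944 (by decide +kernel)
            (CovZ.n2 (6560, 32000) (by decide +kernel)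
             (CovZ.n2 (6640, 31920) (by decide +kernel)
              (CovZ.n2 (6560, 31920) (by decide +kernel)
               (CovZ.leaf K2_ok TE_l14637 _)
               (CovZ.leaf K2_ok TE_l14638 _))
              (CovZ.n1 (6640, 32000) (by decide +kernel)
               (CovZ.leaf K2_ok TE_l14639 _)
               (CovZ.leaf K2_ok TE_l14640 _)))
             (CovZ.n1 (6480, 31920) (by decide +kernel)
              (CovZ.badM (by decide +kernel))
              (CovZ.n1 (6560, 31920) (by decide +kernel)
               (CovZ.n2 (6520, 31880) (by decide +kernel)
                (CovZ.leaf K2_ok TE_l14645 _)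
                (CovZ.leaf K2_ok TE_l14646 _))
               (CovZ.leaf K2_ok TE_l14647 _)))))
           (CovZ.n1 (6720, 31840) (by decide +kernel)
            (CovZ.n2 (6640, 31760) (by decide +kernel)
             (CovZ.leaf K2_ok TE_l14648 _)
             (CovZ.leaf K2_ok TE_l14649 _))
            (CovZ.n1 (6640, 31920) (by decide +kernel)
             (CovZ.leaf K2_ok TE_l14650 _)
             (CovZ.leaf K2_ok TE_l14651 _)))))
         (CovZ.n1 (7040, 31680) (by decide +kernel)
          (CovZ.n2 (6880, 31520) (by decide +kernel)
           (CovZ.n2 (6880, 31680) (by decide +kernel)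
            (CovZ.leaf K2_ok TE_l14652 _)
            (CovZ.leaf K2_ok TE_l14653 _))
           (CovZ.leaf K2_ok TE_l14654 _))
          (CovZ.n1 (6880, 31840) (by decide +kernel)
           (CovZ.leaf K2_ok TE_l14655 _)
           (CovZ.leaf K2_ok TE_l14656 _))))))
      (CovZ.n1 (7680, 31360) (by decide +kernel)
       (CovZ.n2 (7360, 31040) (by decide +kernel)
        (CovZ.leaf K2_ok TE_l14657 _)
        (CovZ.leaf K2_ok TE_l14658 _))
       (CovZ.n1 (7360, 31680) (by decide +kernel)
        (CovZ.leaf K2_ok TE_l14659 _)
        (CovZ.n1 (7360, 31360) (by decide +kernel)
         (CovZ.leaf K2_ok TE_l14660 _)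
         (CovZ.leaf K2_ok TE_l14661 _)))))

theorem TE_u251 : CovZ TE_M (toL (selN TE_LN 3138550867693340381917894794006073983043302426940396535816)) [0, 7, 6, 1] (7680, 32000) (7680, 33280) (6400, 32000) :=
    (CovZ.subM 4951760157213598484843986952 (by decide +kernel)
      (CovZ.n1 (7040, 32640) (by decide +kernel)
       (CovZ.n2 (7680, 32640) (by decide +kernel)
        (CovZ.n2 (7360, 32320) (by decide +kernel)
         (CovZ.n2 (7360, 32640) (by decide +kernel)
          (CovZ.n2 (7520, 32480) (by decide +kernel)
           (CovZ.n2 (7360, 32480) (by decide +kernel)
            (CovZ.leaf K2_ok TE_l18937 _)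
            (CovZ.leaf K2_ok TE_l18938 _))
           (CovZ.n1 (7520, 32640) (by decide +kernel)
            (CovZ.leaf K2_ok TE_l18939 _)
            (CovZ.leaf K2_ok TE_l18940 _)))
          (CovZ.n1 (7200, 32480) (by decide +kernel)
           (CovZ.n2 (7200, 32640) (by decide +kernel)
            (CovZ.leaf K2_ok TE_l18941 _)
            (CovZ.n1 (7120, 32560) (by decide +kernel)
             (CovZ.badM (by decide +kernel))
             (CovZ.leaf K2_ok TE_l18942 _)))
           (CovZ.n1 (7360, 32480) (by decide +kernel)
            (CovZ.leaf K2_ok TE_l18943 _)
            (CovZ.leaf K2_ok TE_l18944 _))))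
         (CovZ.n1 (7680, 32320) (by decide +kernel)
          (CovZ.n2 (7520, 32160) (by decide +kernel)
           (CovZ.leaf K2_ok TE_l18945 _)
           (CovZ.leaf K2_ok TE_l18946 _))
          (CovZ.leaf K2_ok TE_l18947 _)))
        (CovZ.n1 (7360, 32960) (by decide +kernel)
         (CovZ.n2 (7680, 32960) (by decide +kernel)
          (CovZ.n2 (7520, 32800) (by decide +kernel)
           (CovZ.n2 (7520, 32960) (by decide +kernel)
            (CovZ.leaf K2_ok TE_l18948 _)
            (CovZ.n1 (7440, 32880) (by decide +kernel)
             (CovZ.leaf K2_ok TE_l18949 _)
             (CovZ.leaf K2_ok TE_l18950 _)))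
           (CovZ.leaf K2_ok TE_l18951 _))
          (CovZ.subM 17592186044416 (by decide +kernel)
           (CovZ.n1 (7520, 33120) (by decide +kernel)
            (CovZ.n2 (7680, 33120) (by decide +kernel)
             (CovZ.n2 (7600, 33040) (by decide +kernel)
              (CovZ.leaf K2_ok TE_l18952 _)
              (CovZ.leaf K2_ok TE_l18953 _))
             (CovZ.leaf K2_ok TE_l18954 _))
            (CovZ.n1 (7520, 32960) (by decide +kernel)
             (CovZ.n2 (7440, 33040) (by decide +kernel)
              (CovZ.leaf K2_ok TE_l18955 _)
              (CovZ.leaf K2_ok TE_l18956 _))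
             (CovZ.n1 (7600, 33040) (by decide +kernel)
              (CovZ.leaf K2_ok TE_l18957 _)
              (CovZ.leaf K2_ok TE_l18958 _))))))
         (CovZ.n1 (7360, 32640) (by decide +kernel)
          (CovZ.subM 17592186044416 (by decide +kernel)
           (CovZ.n2 (7200, 32800) (by decide +kernel)
            (CovZ.n2 (7360, 32800) (by decide +kernel)
             (CovZ.n2 (7280, 32720) (by decide +kernel)
              (CovZ.leaf K2_ok TE_l18959 _)
              (CovZ.leaf K2_ok TE_l18960 _))
             (CovZ.n1 (7280, 32880) (by decide +kernel)
              (CovZ.leaf K2_ok TE_l18961 _)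
              (CovZ.leaf K2_ok TE_l18962 _)))
            (CovZ.n1 (7200, 32640) (by decide +kernel)
             (CovZ.badM (by decide +kernel))
             (CovZ.n1 (7280, 32720) (by decide +kernel)
              (CovZ.leaf K2_ok TE_l18963 _)
              (CovZ.leaf K2_ok TE_l18964 _)))))
          (CovZ.n1 (7520, 32800) (by decide +kernel)
           (CovZ.n2 (7520, 32640) (by decide +kernel)
            (CovZ.leaf K2_ok TE_l18965 _)
            (CovZ.leaf K2_ok TE_l18966 _))
           (CovZ.n1 (7360, 32800) (by decide +kernel)
            (CovZ.n2 (7440, 32880) (by decide +kernel)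
             (CovZ.leaf K2_ok TE_l18967 _)
             (CovZ.leaf K2_ok TE_l18968 _))
            (CovZ.leaf K2_ok TE_l18969 _))))))
       (CovZ.n1 (7040, 32000) (by decide +kernel)
        (CovZ.n2 (6720, 32320) (by decide +kernel)
         (CovZ.n2 (7040, 32320) (by decide +kernel)
          (CovZ.n2 (6880, 32160) (by decide +kernel)
           (CovZ.subM 72057594037927944 (by decide +kernel)
            (CovZ.n2 (6880, 32320) (by decide +kernel)
             (CovZ.n2 (6960, 32240) (by decide +kernel)
              (CovZ.leaf K2_ok TE_l18970 _)
              (CovZ.leaf K2_ok TE_l18971 _))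
             (CovZ.n1 (6800, 32240) (by decide +kernel)
              (CovZ.n2 (6800, 32320) (by decide +kernel)
               (CovZ.leaf K2_ok TE_l18972 _)
               (CovZ.n1 (6760, 32280) (by decide +kernel)
                (CovZ.leaf K2_ok TE_l18973 _)
                (CovZ.leaf K2_ok TE_l18974 _)))
              (CovZ.leaf K2_ok TE_l18975 _))))
           (CovZ.n1 (7040, 32160) (by decide +kernel)
            (CovZ.n2 (6960, 32080) (by decide +kernel)
             (CovZ.leaf K2_ok TE_l18976 _)
             (CovZ.leaf K2_ok TE_l18977 _))
            (CovZ.leaf K2_ok TE_l18978 _)))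
          (CovZ.subM 72057594037927944 (by decide +kernel)
           (CovZ.n1 (6880, 32480) (by decide +kernel)
            (CovZ.n2 (7040, 32480) (by decide +kernel)
             (CovZ.n2 (6960, 32400) (by decide +kernel)
              (CovZ.badM (by decide +kernel))
              (CovZ.leaf K2_ok TE_l18979 _))
             (CovZ.badM (by decide +kernel)))
            (CovZ.n1 (6880, 32320) (by decide +kernel)
             (CovZ.n2 (6800, 32400) (by decide +kernel)
              (CovZ.badM (by decide +kernel))
              (CovZ.n1 (6800, 32320) (by decide +kernel)
               (CovZ.leaf K2_ok TE_l18980 _)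
               (CovZ.n1 (6840, 32360) (by decide +kernel)
                (CovZ.leaf K2_ok TE_l18981 _)
                (CovZ.leaf K2_ok TE_l18982 _))))
             (CovZ.n1 (6960, 32400) (by decide +kernel)
              (CovZ.leaf K2_ok TE_l18983 _)
              (CovZ.badM (by decide +kernel)))))))
         (CovZ.n1 (6720, 32000) (by decide +kernel)
          (CovZ.subM 72057594037927944 (by decide +kernel)
           (CovZ.n2 (6560, 32160) (by decide +kernel)
            (CovZ.n2 (6720, 32160) (by decide +kernel)
             (CovZ.n2 (6640, 32080) (by decide +kernel)
              (CovZ.n2 (6640, 32160) (by decide +kernel)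
               (CovZ.leaf K2_ok TE_l14662 _)
               (CovZ.badM (by decide +kernel)))
              (CovZ.n1 (6720, 32080) (by decide +kernel)
               (CovZ.leaf K2_ok TE_l14666 _)
               (CovZ.leaf K2_ok TE_l14667 _)))
             (CovZ.n1 (6640, 32240) (by decide +kernel)
              (CovZ.n2 (6720, 32240) (by decide +kernel)
               (CovZ.n2 (6680, 32200) (by decide +kernel)
                (CovZ.leaf K2_ok TE_l18984 _)
                (CovZ.leaf K2_ok TE_l18985 _))
               (CovZ.n1 (6680, 32280) (by decide +kernel)
                (CovZ.leaf K2_ok TE_l18986 _)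
                (CovZ.leaf K2_ok TE_l18987 _)))
              (CovZ.n1 (6640, 32160) (by decide +kernel)
               (CovZ.badM (by decide +kernel))
               (CovZ.n1 (6680, 32200) (by decide +kernel)
                (CovZ.leaf K2_ok TE_l18988 _)
                (CovZ.badM (by decide +kernel))))))
            (CovZ.n1 (6560, 32000) (by decide +kernel)
             (CovZ.badM (by decide +kernel))
             (CovZ.n1 (6640, 32080) (by decide +kernel)
              (CovZ.n2 (6640, 32000) (by decide +kernel)
               (CovZ.leaf K2_ok TE_l14684 _)
               (CovZ.leaf K2_ok TE_l14685 _))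
              (CovZ.badM (by decide +kernel))))))
          (CovZ.n1 (6880, 32160) (by decide +kernel)
           (CovZ.n2 (6880, 32000) (by decide +kernel)
            (CovZ.leaf K2_ok TE_l14690 _)
            (CovZ.leaf K2_ok TE_l18989 _))
           (CovZ.subM 72057594037927944 (by decide +kernel)
            (CovZ.n1 (6720, 32160) (by decide +kernel)
             (CovZ.n2 (6800, 32240) (by decide +kernel)
              (CovZ.n2 (6800, 32160) (by decide +kernel)
               (CovZ.leaf K2_ok TE_l18990 _)
               (CovZ.leaf K2_ok TE_l18991 _))
              (CovZ.n1 (6720, 32240) (by decide +kernel)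
               (CovZ.n2 (6760, 32280) (by decide +kernel)
                (CovZ.leaf K2_ok TE_l18992 _)
                (CovZ.leaf K2_ok TE_l18993 _))
               (CovZ.leaf K2_ok TE_l18994 _)))
             (CovZ.n1 (6800, 32080) (by decide +kernel)
              (CovZ.leaf K2_ok TE_l14691 _)
              (CovZ.n1 (6800, 32160) (by decide +kernel)
               (CovZ.leaf K2_ok TE_l18995 _)
               (CovZ.leaf K2_ok TE_l18996 _))))))))
        (CovZ.n1 (7360, 32320) (by decide +kernel)
         (CovZ.n2 (7360, 32000) (by decide +kernel)
          (CovZ.n2 (7200, 32160) (by decide +kernel)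
           (CovZ.leaf K2_ok TE_l18997 _)
           (CovZ.leaf K2_ok TE_l18998 _))
          (CovZ.n1 (7520, 32160) (by decide +kernel)
           (CovZ.leaf K2_ok TE_l18999 _)
           (CovZ.leaf K2_ok TE_l19000 _)))
         (CovZ.n1 (7040, 32320) (by decide +kernel)
          (CovZ.n2 (7200, 32480) (by decide +kernel)
           (CovZ.n2 (7200, 32320) (by decide +kernel)
            (CovZ.leaf K2_ok TE_l19001 _)
            (CovZ.leaf K2_ok TE_l19002 _))
           (CovZ.n1 (7040, 32480) (by decide +kernel)
            (CovZ.n2 (7120, 32560) (by decide +kernel)
             (CovZ.leaf K2_ok TE_l19003 _)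
             (CovZ.badM (by decide +kernel)))
            (CovZ.leaf K2_ok TE_l19004 _)))
          (CovZ.n1 (7200, 32160) (by decide +kernel)
           (CovZ.n2 (7040, 32160) (by decide +kernel)
            (CovZ.leaf K2_ok TE_l19005 _)
            (CovZ.leaf K2_ok TE_l19006 _))
           (CovZ.n1 (7200, 32320) (by decide +kernel)
            (CovZ.leaf K2_ok TE_l19007 _)
            (CovZ.leaf K2_ok TE_l19008 _))))))))

theorem TE_u252 : CovZ TE_M (toL (selN TE_LN 4951760157213581034391863304)) [0, 7, 6, 1] (6400, 32000) (6080, 31680) (6400, 31360) :=
    (CovZ.n2 (6400, 31680) (by decide +kernel)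
          (CovZ.n2 (6240, 31520) (by decide +kernel)
           (CovZ.subM 72057598333157376 (by decide +kernel)
            (CovZ.n2 (6240, 31680) (by decide +kernel)
             (CovZ.n2 (6320, 31600) (by decide +kernel)
              (CovZ.n2 (6240, 31600) (by decide +kernel)
               (CovZ.n2 (6280, 31640) (by decide +kernel)
                (CovZ.leaf K2_ok TE_l14712 _)
                (CovZ.n1 (6240, 31640) (by decide +kernel)
                 (CovZ.leaf K2_ok TE_l14713 _)
                 (CovZ.leaf K2_ok TE_l14714 _)))
               (CovZ.n1 (6280, 31560) (by decide +kernel)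
                (CovZ.leaf K2_ok TE_l14715 _)
                (CovZ.leaf K2_ok TE_l14716 _)))
              (CovZ.n1 (6320, 31680) (by decide +kernel)
               (CovZ.leaf K2_ok TE_l14717 _)
               (CovZ.n1 (6280, 31640) (by decide +kernel)
                (CovZ.n2 (6280, 31680) (by decide +kernel)
                 (CovZ.leaf K2_ok TE_l14718 _)
                 (CovZ.leaf K2_ok TE_l14719 _))
                (CovZ.leaf K2_ok TE_l14720 _))))
             (CovZ.n1 (6160, 31600) (by decide +kernel)
              (CovZ.badM (by decide +kernel))
              (CovZ.n1 (6240, 31600) (by decide +kernel)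
               (CovZ.n2 (6200, 31560) (by decide +kernel)
                (CovZ.n2 (6200, 31600) (by decide +kernel)
                 (CovZ.leaf K2_ok TE_l19052 _)
                 (CovZ.n1 (6180, 31580) (by decide +kernel)
                  (CovZ.leaf K2_ok TE_l19053 _)
                  (CovZ.leaf K2_ok TE_l19054 _)))
                (CovZ.leaf K2_ok TE_l19055 _))
               (CovZ.n1 (6200, 31640) (by decide +kernel)
                (CovZ.n2 (6240, 31640) (by decide +kernel)
                 (CovZ.n2 (6220, 31620) (by decide +kernel)
                  (CovZ.leaf K2_ok TE_l19056 _)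
                  (CovZ.leaf K2_ok TE_l19057 _))
                 (CovZ.leaf K2_ok TE_l19058 _))
                (CovZ.n1 (6200, 31600) (by decide +kernel)
                 (CovZ.leaf K2_ok TE_l19059 _)
                 (CovZ.n1 (6220, 31620) (by decide +kernel)
                  (CovZ.leaf K2_ok TE_l19060 _)
                  (CovZ.leaf K2_ok TE_l19061 _))))))))
           (CovZ.n1 (6400, 31520) (by decide +kernel)
            (CovZ.n2 (6320, 31440) (by decide +kernel)
             (CovZ.n2 (6320, 31520) (by decide +kernel)
              (CovZ.leaf K2_ok TE_l14721 _)
              (CovZ.n1 (6280, 31480) (by decide +kernel)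
               (CovZ.leaf K2_ok TE_l14722 _)
               (CovZ.leaf K2_ok TE_l14723 _)))
             (CovZ.leaf K2_ok TE_l14724 _))
            (CovZ.n1 (6320, 31600) (by decide +kernel)
             (CovZ.n2 (6400, 31600) (by decide +kernel)
              (CovZ.leaf K2_ok TE_l14725 _)
              (CovZ.leaf K2_ok TE_l14726 _))
             (CovZ.n1 (6320, 31520) (by decide +kernel)
              (CovZ.leaf K2_ok TE_l14727 _)
              (CovZ.leaf K2_ok TE_l14728 _)))))
          (CovZ.subM 72057598333157376 (by decide +kernel)
           (CovZ.n1 (6240, 31840) (by decide +kernel)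
            (CovZ.n2 (6400, 31840) (by decide +kernel)
             (CovZ.n2 (6320, 31760) (by decide +kernel)
              (CovZ.n2 (6320, 31840) (by decide +kernel)
               (CovZ.n2 (6360, 31800) (by decide +kernel)
                (CovZ.n2 (6320, 31800) (by decide +kernel)
                 (CovZ.n2 (6340, 31820) (by decide +kernel)
                  (CovZ.leaf K2_ok TE_l14729 _)
                  (CovZ.leaf K2_ok TE_l14730 _))
                 (CovZ.leaf K2_ok TE_l14731 _))
                (CovZ.n1 (6360, 31840) (by decide +kernel)
                 (CovZ.leaf K2_ok TE_l14732 _)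
                 (CovZ.n1 (6340, 31820) (by decide +kernel)
                  (CovZ.leaf K2_ok TE_l14733 _)
                  (CovZ.leaf K2_ok TE_l14734 _))))
               (CovZ.n1 (6280, 31800) (by decide +kernel)
                (CovZ.n2 (6280, 31840) (by decide +kernel)
                 (CovZ.n2 (6300, 31820) (by decide +kernel)
                  (CovZ.n2 (6280, 31820) (by decide +kernel)
                   (CovZ.leaf K2_ok TE_l19062 _)
                   (CovZ.leaf K2_ok TE_l19063 _))
                  (CovZ.n1 (6300, 31840) (by decide +kernel)
                   (CovZ.leaf K2_ok TE_l19064 _)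
                   (CovZ.leaf K2_ok TE_l19065 _)))
                 (CovZ.badM (by decide +kernel)))
                (CovZ.n1 (6320, 31800) (by decide +kernel)
                 (CovZ.n2 (6300, 31780) (by decide +kernel)
                  (CovZ.leaf K2_ok TE_l14735 _)
                  (CovZ.leaf K2_ok TE_l14736 _))
                 (CovZ.leaf K2_ok TE_l14737 _))))
              (CovZ.n1 (6400, 31760) (by decide +kernel)
               (CovZ.n2 (6360, 31720) (by decide +kernel)
                (CovZ.n2 (6360, 31760) (by decide +kernel)
                 (CovZ.leaf K2_ok TE_l14738 _)
                 (CovZ.leaf K2_ok TE_l14739 _))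
                (CovZ.leaf K2_ok TE_l14740 _))
               (CovZ.n1 (6360, 31800) (by decide +kernel)
                (CovZ.leaf K2_ok TE_l14741 _)
                (CovZ.leaf K2_ok TE_l14742 _))))
             (CovZ.n1 (6320, 31920) (by decide +kernel)
              (CovZ.badM (by decide +kernel))
              (CovZ.n1 (6320, 31840) (by decide +kernel)
               (CovZ.n2 (6280, 31880) (by decide +kernel)
                (CovZ.n2 (6320, 31880) (by decide +kernel)
                 (CovZ.n2 (6300, 31860) (by decide +kernel)
                  (CovZ.n2 (6300, 31880) (by decide +kernel)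
                   (CovZ.leaf K2_ok TE_l19066 _)
                   (CovZ.badM (by decide +kernel)))
                  (CovZ.leaf K2_ok TE_l19067 _))
                 (CovZ.n1 (6300, 31900) (by decide +kernel)
                  (CovZ.badM (by decide +kernel))
                  (CovZ.n1 (6300, 31880) (by decide +kernel)
                   (CovZ.badM (by decide +kernel))
                   (CovZ.n1 (6310, 31890) (by decide +kernel)
                    (CovZ.leaf K2_ok TE_l19068 _)
                    (CovZ.leaf K2_ok TE_l19069 _)))))
                (CovZ.n1 (6280, 31840) (by decide +kernel)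
                 (CovZ.badM (by decide +kernel))
                 (CovZ.n1 (6300, 31860) (by decide +kernel)
                  (CovZ.leaf K2_ok TE_l19070 _)
                  (CovZ.badM (by decide +kernel)))))
               (CovZ.n1 (6360, 31880) (by decide +kernel)
                (CovZ.n2 (6360, 31840) (by decide +kernel)
                 (CovZ.leaf K2_ok TE_l14753 _)
                 (CovZ.badM (by decide +kernel)))
                (CovZ.n1 (6320, 31880) (by decide +kernel)
                 (CovZ.badM (by decide +kernel))
                 (CovZ.n1 (6340, 31860) (by decide +kernel)
                  (CovZ.leaf K2_ok TE_l14756 _)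
                  (CovZ.badM (by decide +kernel))))))))
            (CovZ.n1 (6240, 31680) (by decide +kernel)
             (CovZ.badM (by decide +kernel))
             (CovZ.n1 (6320, 31760) (by decide +kernel)
              (CovZ.n2 (6320, 31680) (by decide +kernel)
               (CovZ.n2 (6280, 31720) (by decide +kernel)
                (CovZ.leaf K2_ok TE_l14758 _)
                (CovZ.n1 (6280, 31680) (by decide +kernel)
                 (CovZ.leaf K2_ok TE_l19071 _)
                 (CovZ.leaf K2_ok TE_l14759 _)))
               (CovZ.n1 (6360, 31720) (by decide +kernel)
                (CovZ.leaf K2_ok TE_l14760 _)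
                (CovZ.leaf K2_ok TE_l14761 _)))
              (CovZ.n1 (6240, 31760) (by decide +kernel)
               (CovZ.n2 (6280, 31800) (by decide +kernel)
                (CovZ.n2 (6280, 31760) (by decide +kernel)
                 (CovZ.n2 (6260, 31780) (by decide +kernel)
                  (CovZ.leaf K2_ok TE_l19072 _)
                  (CovZ.leaf K2_ok TE_l19073 _))
                 (CovZ.n1 (6300, 31780) (by decide +kernel)
                  (CovZ.leaf K2_ok TE_l14762 _)
                  (CovZ.leaf K2_ok TE_l19074 _)))
                (CovZ.badM (by decide +kernel)))
               (CovZ.n1 (6280, 31720) (by decide +kernel)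
                (CovZ.n2 (6240, 31720) (by decide +kernel)
                 (CovZ.n2 (6260, 31740) (by decide +kernel)
                  (CovZ.leaf K2_ok TE_l19075 _)
                  (CovZ.badM (by decide +kernel)))
                 (CovZ.leaf K2_ok TE_l19076 _))
                (CovZ.n1 (6280, 31760) (by decide +kernel)
                 (CovZ.leaf K2_ok TE_l14763 _)
                 (CovZ.n1 (6260, 31740) (by decide +kernel)
                  (CovZ.leaf K2_ok TE_l19077 _)
                  (CovZ.leaf K2_ok TE_l19078 _))))))))))

theorem TE_u253 : CovZ TE_M (toL (selN TE_LN 4951760157213581034391863304)) [0, 7, 6, 1] (6080, 31680) (5760, 31360) (6400, 31360) :=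
    (CovZ.n1 (6080, 31360) (by decide +kernel)
          (CovZ.subM 72057731477143552 (by decide +kernel)
           (CovZ.n2 (5920, 31520) (by decide +kernel)
            (CovZ.n2 (6080, 31520) (by decide +kernel)
             (CovZ.n2 (6000, 31440) (by decide +kernel)
              (CovZ.n2 (6000, 31520) (by decide +kernel)
               (CovZ.n2 (6040, 31480) (by decide +kernel)
                (CovZ.badM (by decide +kernel))
                (CovZ.n1 (6040, 31520) (by decide +kernel)
                 (CovZ.n2 (6060, 31500) (by decide +kernel)
                  (CovZ.n2 (6040, 31500) (by decide +kernel)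
                   (CovZ.badM (by decide +kernel))
                   (CovZ.n1 (6050, 31490) (by decide +kernel)
                    (CovZ.badM (by decide +kernel))
                    (CovZ.badM (by decide +kernel))))
                  (CovZ.badM (by decide +kernel)))
                 (CovZ.badM (by decide +kernel))))
               (CovZ.badM (by decide +kernel)))
              (CovZ.n1 (6080, 31440) (by decide +kernel)
               (CovZ.n2 (6040, 31400) (by decide +kernel)
                (CovZ.n2 (6040, 31440) (by decide +kernel)
                 (CovZ.n2 (6060, 31420) (by decide +kernel)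
                  (CovZ.n2 (6040, 31420) (by decide +kernel)
                   (CovZ.leaf K2_ok TE_l19079 _)
                   (CovZ.leaf K2_ok TE_l19080 _))
                  (CovZ.n1 (6060, 31440) (by decide +kernel)
                   (CovZ.leaf K2_ok TE_l19081 _)
                   (CovZ.leaf K2_ok TE_l19082 _)))
                 (CovZ.n1 (6020, 31420) (by decide +kernel)
                  (CovZ.n2 (6020, 31440) (by decide +kernel)
                   (CovZ.leaf K2_ok TE_l19083 _)
                   (CovZ.badM (by decide +kernel)))
                  (CovZ.n1 (6040, 31420) (by decide +kernel)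
                   (CovZ.n2 (6030, 31410) (by decide +kernel)
                    (CovZ.leaf K2_ok TE_l19084 _)
                    (CovZ.leaf K2_ok TE_l19085 _))
                   (CovZ.leaf K2_ok TE_l19086 _))))
                (CovZ.n1 (6080, 31400) (by decide +kernel)
                 (CovZ.n2 (6060, 31380) (by decide +kernel)
                  (CovZ.leaf K2_ok TE_l19087 _)
                  (CovZ.leaf K2_ok TE_l19088 _))
                 (CovZ.n1 (6060, 31420) (by decide +kernel)
                  (CovZ.leaf K2_ok TE_l19089 _)
                  (CovZ.leaf K2_ok TE_l19090 _))))
               (CovZ.n1 (6040, 31480) (by decide +kernel)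
                (CovZ.n2 (6080, 31480) (by decide +kernel)
                 (CovZ.n2 (6060, 31460) (by decide +kernel)
                  (CovZ.n2 (6060, 31480) (by decide +kernel)
                   (CovZ.leaf K2_ok TE_l19091 _)
                   (CovZ.n1 (6050, 31470) (by decide +kernel)
                    (CovZ.leaf K2_ok TE_l19092 _)
                    (CovZ.leaf K2_ok TE_l19093 _)))
                  (CovZ.leaf K2_ok TE_l19094 _))
                 (CovZ.n1 (6060, 31500) (by decide +kernel)
                  (CovZ.n2 (6080, 31500) (by decide +kernel)
                   (CovZ.n2 (6070, 31490) (by decide +kernel)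
                    (CovZ.leaf K2_ok TE_l19095 _)
                    (CovZ.leaf K2_ok TE_l19096 _))
                   (CovZ.leaf K2_ok TE_l19097 _))
                  (CovZ.n1 (6060, 31480) (by decide +kernel)
                   (CovZ.n2 (6050, 31490) (by decide +kernel)
                    (CovZ.leaf K2_ok TE_l19098 _)
                    (CovZ.leaf K2_ok TE_l19099 _))
                   (CovZ.n1 (6070, 31490) (by decide +kernel)
                    (CovZ.leaf K2_ok TE_l19100 _)
                    (CovZ.n1 (6060, 31490) (by decide +kernel)
                     (CovZ.leaf K2_ok TE_l19101 _)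
                     (CovZ.leaf K2_ok TE_l19102 _))))))
                (CovZ.n1 (6040, 31440) (by decide +kernel)
                 (CovZ.n2 (6020, 31460) (by decide +kernel)
                  (CovZ.n2 (6040, 31460) (by decide +kernel)
                   (CovZ.n2 (6030, 31450) (by decide +kernel)
                    (CovZ.badM (by decide +kernel))
                    (CovZ.leaf K2_ok TE_l19103 _))
                   (CovZ.badM (by decide +kernel)))
                  (CovZ.n1 (6020, 31440) (by decide +kernel)
                   (CovZ.badM (by decide +kernel))
                   (CovZ.n1 (6030, 31450) (by decide +kernel)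
                    (CovZ.leaf K2_ok TE_l19104 _)
                    (CovZ.badM (by decide +kernel)))))
                 (CovZ.n1 (6060, 31460) (by decide +kernel)
                  (CovZ.n2 (6060, 31440) (by decide +kernel)
                   (CovZ.leaf K2_ok TE_l19105 _)
                   (CovZ.leaf K2_ok TE_l19106 _))
                  (CovZ.n1 (6040, 31460) (by decide +kernel)
                   (CovZ.n2 (6050, 31470) (by decide +kernel)
                    (CovZ.leaf K2_ok TE_l19107 _)
                    (CovZ.leaf K2_ok TE_l19108 _))
                   (CovZ.leaf K2_ok TE_l19109 _)))))))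
             (CovZ.badM (by decide +kernel)))
            (CovZ.n1 (5920, 31360) (by decide +kernel)
             (CovZ.badM (by decide +kernel))
             (CovZ.n1 (6000, 31440) (by decide +kernel)
              (CovZ.n2 (6000, 31360) (by decide +kernel)
               (CovZ.badM (by decide +kernel))
               (CovZ.n1 (6040, 31400) (by decide +kernel)
                (CovZ.n2 (6040, 31360) (by decide +kernel)
                 (CovZ.n2 (6020, 31380) (by decide +kernel)
                  (CovZ.leaf K2_ok TE_l19110 _)
                  (CovZ.n1 (6020, 31360) (by decide +kernel)
                   (CovZ.leaf K2_ok TE_l19111 _)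
                   (CovZ.leaf K2_ok TE_l19112 _)))
                 (CovZ.n1 (6060, 31380) (by decide +kernel)
                  (CovZ.leaf K2_ok TE_l19113 _)
                  (CovZ.leaf K2_ok TE_l19114 _)))
                (CovZ.n1 (6000, 31400) (by decide +kernel)
                 (CovZ.n2 (6020, 31420) (by decide +kernel)
                  (CovZ.n2 (6020, 31400) (by decide +kernel)
                   (CovZ.badM (by decide +kernel))
                   (CovZ.n1 (6030, 31410) (by decide +kernel)
                    (CovZ.leaf K2_ok TE_l19115 _)
                    (CovZ.badM (by decide +kernel))))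
                  (CovZ.badM (by decide +kernel)))
                 (CovZ.n1 (6020, 31380) (by decide +kernel)
                  (CovZ.badM (by decide +kernel))
                  (CovZ.n1 (6020, 31400) (by decide +kernel)
                   (CovZ.leaf K2_ok TE_l19116 _)
                   (CovZ.badM (by decide +kernel)))))))
              (CovZ.badM (by decide +kernel))))))
          (CovZ.n1 (6240, 31520) (by decide +kernel)
           (CovZ.n2 (6240, 31360) (by decide +kernel)
            (CovZ.n2 (6160, 31440) (by decide +kernel)
             (CovZ.n2 (6240, 31440) (by decide +kernel)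
              (CovZ.n2 (6200, 31400) (by decide +kernel)
               (CovZ.leaf K2_ok TE_l14764 _)
               (CovZ.leaf K2_ok TE_l14765 _))
              (CovZ.leaf K2_ok TE_l14766 _))
             (CovZ.n1 (6160, 31360) (by decide +kernel)
              (CovZ.n2 (6120, 31400) (by decide +kernel)
               (CovZ.leaf K2_ok TE_l19117 _)
               (CovZ.n1 (6120, 31360) (by decide +kernel)
                (CovZ.leaf K2_ok TE_l19118 _)
                (CovZ.leaf K2_ok TE_l19119 _)))
              (CovZ.n1 (6200, 31400) (by decide +kernel)
               (CovZ.leaf K2_ok TE_l14767 _)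
               (CovZ.leaf K2_ok TE_l19120 _))))
            (CovZ.n1 (6320, 31440) (by decide +kernel)
             (CovZ.leaf K2_ok TE_l14768 _)
             (CovZ.n1 (6240, 31440) (by decide +kernel)
              (CovZ.leaf K2_ok TE_l14769 _)
              (CovZ.leaf K2_ok TE_l14770 _))))
           (CovZ.subM 72057735772110848 (by decide +kernel)
            (CovZ.n1 (6080, 31520) (by decide +kernel)
             (CovZ.n2 (6160, 31600) (by decide +kernel)
              (CovZ.n2 (6160, 31520) (by decide +kernel)
               (CovZ.n2 (6120, 31560) (by decide +kernel)
                (CovZ.n2 (6160, 31560) (by decide +kernel)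
                 (CovZ.n2 (6140, 31540) (by decide +kernel)
                  (CovZ.n2 (6140, 31560) (by decide +kernel)
                   (CovZ.leaf K2_ok TE_l19121 _)
                   (CovZ.leaf K2_ok TE_l19122 _))
                  (CovZ.leaf K2_ok TE_l19123 _))
                 (CovZ.n1 (6140, 31580) (by decide +kernel)
                  (CovZ.leaf K2_ok TE_l19124 _)
                  (CovZ.leaf K2_ok TE_l19125 _)))
                (CovZ.n1 (6120, 31520) (by decide +kernel)
                 (CovZ.n2 (6100, 31540) (by decide +kernel)
                  (CovZ.n2 (6120, 31540) (by decide +kernel)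
                   (CovZ.leaf K2_ok TE_l19126 _)
                   (CovZ.leaf K2_ok TE_l19127 _))
                  (CovZ.n1 (6100, 31520) (by decide +kernel)
                   (CovZ.leaf K2_ok TE_l19128 _)
                   (CovZ.leaf K2_ok TE_l19129 _)))
                 (CovZ.n1 (6140, 31540) (by decide +kernel)
                  (CovZ.leaf K2_ok TE_l19130 _)
                  (CovZ.leaf K2_ok TE_l19131 _))))
               (CovZ.n1 (6200, 31560) (by decide +kernel)
                (CovZ.n2 (6200, 31520) (by decide +kernel)
                 (CovZ.leaf K2_ok TE_l19132 _)
                 (CovZ.leaf K2_ok TE_l19133 _))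
                (CovZ.n1 (6160, 31560) (by decide +kernel)
                 (CovZ.n2 (6180, 31580) (by decide +kernel)
                  (CovZ.leaf K2_ok TE_l19134 _)
                  (CovZ.leaf K2_ok TE_l19135 _))
                 (CovZ.leaf K2_ok TE_l19136 _))))
              (CovZ.badM (by decide +kernel)))
             (CovZ.n1 (6160, 31440) (by decide +kernel)
              (CovZ.n2 (6080, 31440) (by decide +kernel)
               (CovZ.n2 (6120, 31480) (by decide +kernel)
                (CovZ.n2 (6120, 31440) (by decide +kernel)
                 (CovZ.leaf K2_ok TE_l19137 _)
                 (CovZ.leaf K2_ok TE_l19138 _))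
                (CovZ.n1 (6080, 31480) (by decide +kernel)
                 (CovZ.n2 (6100, 31500) (by decide +kernel)
                  (CovZ.leaf K2_ok TE_l19139 _)
                  (CovZ.n1 (6080, 31500) (by decide +kernel)
                   (CovZ.n2 (6090, 31510) (by decide +kernel)
                    (CovZ.leaf K2_ok TE_l19140 _)
                    (CovZ.leaf K2_ok TE_l19141 _))
                   (CovZ.leaf K2_ok TE_l19142 _)))
                 (CovZ.n1 (6100, 31460) (by decide +kernel)
                  (CovZ.leaf K2_ok TE_l19143 _)
                  (CovZ.leaf K2_ok TE_l19144 _))))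
               (CovZ.n1 (6120, 31400) (by decide +kernel)
                (CovZ.n2 (6080, 31400) (by decide +kernel)
                 (CovZ.n2 (6100, 31420) (by decide +kernel)
                  (CovZ.leaf K2_ok TE_l19145 _)
                  (CovZ.leaf K2_ok TE_l19146 _))
                 (CovZ.leaf K2_ok TE_l19147 _))
                (CovZ.n1 (6120, 31440) (by decide +kernel)
                 (CovZ.leaf K2_ok TE_l19148 _)
                 (CovZ.n1 (6100, 31420) (by decide +kernel)
                  (CovZ.leaf K2_ok TE_l19149 _)
                  (CovZ.leaf K2_ok TE_l19150 _)))))
              (CovZ.n1 (6160, 31520) (by decide +kernel)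
               (CovZ.n2 (6200, 31480) (by decide +kernel)
                (CovZ.n2 (6160, 31480) (by decide +kernel)
                 (CovZ.leaf K2_ok TE_l19151 _)
                 (CovZ.leaf K2_ok TE_l19152 _))
                (CovZ.n1 (6200, 31520) (by decide +kernel)
                 (CovZ.leaf K2_ok TE_l19153 _)
                 (CovZ.leaf K2_ok TE_l19154 _)))
               (CovZ.n1 (6120, 31480) (by decide +kernel)
                (CovZ.n2 (6120, 31520) (by decide +kernel)
                 (CovZ.n2 (6140, 31500) (by decide +kernel)
                  (CovZ.leaf K2_ok TE_l19155 _)
                  (CovZ.leaf K2_ok TE_l19156 _))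
                 (CovZ.n1 (6100, 31500) (by decide +kernel)
                  (CovZ.n2 (6100, 31520) (by decide +kernel)
                   (CovZ.leaf K2_ok TE_l19157 _)
                   (CovZ.leaf K2_ok TE_l19158 _))
                  (CovZ.leaf K2_ok TE_l19159 _)))
                (CovZ.n1 (6160, 31480) (by decide +kernel)
                 (CovZ.n2 (6140, 31460) (by decide +kernel)
                  (CovZ.leaf K2_ok TE_l19160 _)
                  (CovZ.leaf K2_ok TE_l19161 _))
                 (CovZ.leaf K2_ok TE_l19162 _)))))))))

theorem TE_u254 : CovZ TE_M (toL (selN TE_LN 4951760157213581034391863304)) [0, 7, 6, 1] (5760, 31360) (5760, 31040) (6080, 31040) :=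
    (CovZ.n2 (5920, 31200) (by decide +kernel)
           (CovZ.n2 (5920, 31040) (by decide +kernel)
            (CovZ.subM 4951760157141523298619752448 (by decide +kernel)
             (CovZ.n2 (5840, 31120) (by decide +kernel)
              (CovZ.n2 (5920, 31120) (by decide +kernel)
               (CovZ.n2 (5880, 31080) (by decide +kernel)
                (CovZ.n2 (5880, 31120) (by decide +kernel)
                 (CovZ.n2 (5900, 31100) (by decide +kernel)
                  (CovZ.leaf K2_ok TE_l19176 _)
                  (CovZ.leaf K2_ok TE_l19177 _))
                 (CovZ.n1 (5860, 31100) (by decide +kernel)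
                  (CovZ.badM (by decide +kernel))
                  (CovZ.n1 (5880, 31100) (by decide +kernel)
                   (CovZ.leaf K2_ok TE_l19178 _)
                   (CovZ.leaf K2_ok TE_l19179 _))))
                (CovZ.n1 (5920, 31080) (by decide +kernel)
                 (CovZ.n2 (5900, 31060) (by decide +kernel)
                  (CovZ.leaf K2_ok TE_l19180 _)
                  (CovZ.leaf K2_ok TE_l19181 _))
                 (CovZ.leaf K2_ok TE_l19182 _)))
               (CovZ.n1 (5880, 31160) (by decide +kernel)
                (CovZ.n2 (5920, 31160) (by decide +kernel)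
                 (CovZ.n2 (5900, 31140) (by decide +kernel)
                  (CovZ.badM (by decide +kernel))
                  (CovZ.leaf K2_ok TE_l19183 _))
                 (CovZ.badM (by decide +kernel)))
                (CovZ.n1 (5880, 31120) (by decide +kernel)
                 (CovZ.badM (by decide +kernel))
                 (CovZ.n1 (5900, 31140) (by decide +kernel)
                  (CovZ.leaf K2_ok TE_l19184 _)
                  (CovZ.badM (by decide +kernel))))))
              (CovZ.n1 (5840, 31040) (by decide +kernel)
               (CovZ.n2 (5800, 31080) (by decide +kernel)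
                (CovZ.n2 (5840, 31080) (by decide +kernel)
                 (CovZ.n2 (5820, 31060) (by decide +kernel)
                  (CovZ.badM (by decide +kernel))
                  (CovZ.n1 (5840, 31060) (by decide +kernel)
                   (CovZ.n2 (5830, 31050) (by decide +kernel)
                    (CovZ.leaf K2_ok TE_l19185 _)
                    (CovZ.leaf K2_ok TE_l19186 _))
                   (CovZ.n1 (5830, 31070) (by decide +kernel)
                    (CovZ.leaf K2_ok TE_l19187 _)
                    (CovZ.leaf K2_ok TE_l19188 _))))
                 (CovZ.badM (by decide +kernel)))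
                (CovZ.n1 (5800, 31040) (by decide +kernel)
                 (CovZ.badM (by decide +kernel))
                 (CovZ.n1 (5820, 31060) (by decide +kernel)
                  (CovZ.n2 (5820, 31040) (by decide +kernel)
                   (CovZ.n2 (5810, 31050) (by decide +kernel)
                    (CovZ.leaf K2_ok TE_l19189 _)
                    (CovZ.leaf K2_ok TE_l19190 _))
                   (CovZ.n1 (5830, 31050) (by decide +kernel)
                    (CovZ.leaf K2_ok TE_l19191 _)
                    (CovZ.leaf K2_ok TE_l19192 _)))
                  (CovZ.badM (by decide +kernel)))))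
               (CovZ.n1 (5880, 31080) (by decide +kernel)
                (CovZ.n2 (5880, 31040) (by decide +kernel)
                 (CovZ.n2 (5860, 31060) (by decide +kernel)
                  (CovZ.leaf K2_ok TE_l19193 _)
                  (CovZ.leaf K2_ok TE_l19194 _))
                 (CovZ.n1 (5900, 31060) (by decide +kernel)
                  (CovZ.leaf K2_ok TE_l19195 _)
                  (CovZ.leaf K2_ok TE_l19196 _)))
                (CovZ.n1 (5840, 31080) (by decide +kernel)
                 (CovZ.n2 (5860, 31100) (by decide +kernel)
                  (CovZ.n2 (5860, 31080) (by decide +kernel)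
                   (CovZ.leaf K2_ok TE_l19197 _)
                   (CovZ.leaf K2_ok TE_l19198 _))
                  (CovZ.badM (by decide +kernel)))
                 (CovZ.n1 (5860, 31060) (by decide +kernel)
                  (CovZ.n2 (5840, 31060) (by decide +kernel)
                   (CovZ.leaf K2_ok TE_l19199 _)
                   (CovZ.leaf K2_ok TE_l19200 _))
                  (CovZ.n1 (5860, 31080) (by decide +kernel)
                   (CovZ.leaf K2_ok TE_l19201 _)
                   (CovZ.leaf K2_ok TE_l19202 _))))))))
            (CovZ.n1 (6000, 31120) (by decide +kernel)
             (CovZ.n2 (6000, 31040) (by decide +kernel)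
              (CovZ.n2 (5960, 31080) (by decide +kernel)
               (CovZ.leaf K2_ok TE_l19203 _)
               (CovZ.leaf K2_ok TE_l19204 _))
              (CovZ.n1 (6040, 31080) (by decide +kernel)
               (CovZ.leaf K2_ok TE_l19205 _)
               (CovZ.leaf K2_ok TE_l19206 _)))
             (CovZ.subM 4951760157213581030096633856 (by decide +kernel)
              (CovZ.n1 (5920, 31120) (by decide +kernel)
               (CovZ.n2 (5960, 31160) (by decide +kernel)
                (CovZ.n2 (5960, 31120) (by decide +kernel)
                 (CovZ.leaf K2_ok TE_l19207 _)
                 (CovZ.leaf K2_ok TE_l19208 _))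
                (CovZ.n1 (5920, 31160) (by decide +kernel)
                 (CovZ.n2 (5940, 31180) (by decide +kernel)
                  (CovZ.leaf K2_ok TE_l19209 _)
                  (CovZ.badM (by decide +kernel)))
                 (CovZ.n1 (5940, 31140) (by decide +kernel)
                  (CovZ.leaf K2_ok TE_l19210 _)
                  (CovZ.leaf K2_ok TE_l19211 _))))
               (CovZ.n1 (5960, 31080) (by decide +kernel)
                (CovZ.n2 (5920, 31080) (by decide +kernel)
                 (CovZ.leaf K2_ok TE_l19212 _)
                 (CovZ.leaf K2_ok TE_l19213 _))
                (CovZ.n1 (5960, 31120) (by decide +kernel)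
                 (CovZ.leaf K2_ok TE_l19214 _)
                 (CovZ.leaf K2_ok TE_l19215 _)))))))
           (CovZ.badM (by decide +kernel)))

theorem TE_u255 : CovZ TE_M (toL (selN TE_LN 4951760157213581034391863304)) [0, 7, 6, 1] (5760, 31040) (5760, 30720) (6080, 31040) :=
    (CovZ.n1 (5920, 30880) (by decide +kernel)
           (CovZ.subM 4951760157213580892657680384 (by decide +kernel)
            (CovZ.n2 (5760, 30880) (by decide +kernel)
             (CovZ.n2 (5840, 30960) (by decide +kernel)
              (CovZ.n2 (5840, 30880) (by decide +kernel)
               (CovZ.n2 (5800, 30920) (by decide +kernel)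
                (CovZ.n2 (5840, 30920) (by decide +kernel)
                 (CovZ.n2 (5820, 30900) (by decide +kernel)
                  (CovZ.leaf K2_ok TE_l19216 _)
                  (CovZ.leaf K2_ok TE_l19217 _))
                 (CovZ.leaf K2_ok TE_l19218 _))
                (CovZ.n1 (5800, 30880) (by decide +kernel)
                 (CovZ.n2 (5780, 30900) (by decide +kernel)
                  (CovZ.leaf K2_ok TE_l19219 _)
                  (CovZ.leaf K2_ok TE_l19220 _))
                 (CovZ.n1 (5820, 30900) (by decide +kernel)
                  (CovZ.leaf K2_ok TE_l19221 _)
                  (CovZ.leaf K2_ok TE_l19222 _))))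
               (CovZ.n1 (5880, 30920) (by decide +kernel)
                (CovZ.leaf K2_ok TE_l19223 _)
                (CovZ.n1 (5840, 30920) (by decide +kernel)
                 (CovZ.leaf K2_ok TE_l19224 _)
                 (CovZ.leaf K2_ok TE_l19225 _))))
              (CovZ.n1 (5760, 30960) (by decide +kernel)
               (CovZ.n2 (5800, 31000) (by decide +kernel)
                (CovZ.n2 (5800, 30960) (by decide +kernel)
                 (CovZ.n2 (5780, 30980) (by decide +kernel)
                  (CovZ.n2 (5800, 30980) (by decide +kernel)
                   (CovZ.n2 (5790, 30970) (by decide +kernel)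
                    (CovZ.leaf K2_ok TE_l19226 _)
                    (CovZ.leaf K2_ok TE_l19227 _))
                   (CovZ.leaf K2_ok TE_l19228 _))
                  (CovZ.n1 (5780, 30960) (by decide +kernel)
                   (CovZ.n2 (5770, 30970) (by decide +kernel)
                    (CovZ.leaf K2_ok TE_l19229 _)
                    (CovZ.leaf K2_ok TE_l19230 _))
                   (CovZ.n1 (5790, 30970) (by decide +kernel)
                    (CovZ.leaf K2_ok TE_l19231 _)
                    (CovZ.leaf K2_ok TE_l19232 _))))
                 (CovZ.n1 (5820, 30980) (by decide +kernel)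
                  (CovZ.leaf K2_ok TE_l19233 _)
                  (CovZ.n1 (5800, 30980) (by decide +kernel)
                   (CovZ.n2 (5810, 30990) (by decide +kernel)
                    (CovZ.leaf K2_ok TE_l19234 _)
                    (CovZ.leaf K2_ok TE_l19235 _))
                   (CovZ.leaf K2_ok TE_l19236 _))))
                (CovZ.badM (by decide +kernel)))
               (CovZ.n1 (5800, 30920) (by decide +kernel)
                (CovZ.n2 (5760, 30920) (by decide +kernel)
                 (CovZ.n2 (5780, 30940) (by decide +kernel)
                  (CovZ.n2 (5780, 30920) (by decide +kernel)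
                   (CovZ.leaf K2_ok TE_l19237 _)
                   (CovZ.leaf K2_ok TE_l19238 _))
                  (CovZ.n1 (5760, 30940) (by decide +kernel)
                   (CovZ.n2 (5770, 30950) (by decide +kernel)
                    (CovZ.leaf K2_ok TE_l19239 _)
                    (CovZ.leaf K2_ok TE_l19240 _))
                   (CovZ.n1 (5770, 30930) (by decide +kernel)
                    (CovZ.leaf K2_ok TE_l19241 _)
                    (CovZ.leaf K2_ok TE_l19242 _))))
                 (CovZ.n1 (5780, 30900) (by decide +kernel)
                  (CovZ.n2 (5760, 30900) (by decide +kernel)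
                   (CovZ.leaf K2_ok TE_l19243 _)
                   (CovZ.leaf K2_ok TE_l19244 _))
                  (CovZ.n1 (5780, 30920) (by decide +kernel)
                   (CovZ.leaf K2_ok TE_l19245 _)
                   (CovZ.n1 (5770, 30910) (by decide +kernel)
                    (CovZ.leaf K2_ok TE_l19246 _)
                    (CovZ.leaf K2_ok TE_l19247 _)))))
                (CovZ.n1 (5800, 30960) (by decide +kernel)
                 (CovZ.n2 (5820, 30940) (by decide +kernel)
                  (CovZ.leaf K2_ok TE_l19248 _)
                  (CovZ.n1 (5820, 30960) (by decide +kernel)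
                   (CovZ.leaf K2_ok TE_l19249 _)
                   (CovZ.leaf K2_ok TE_l19250 _)))
                 (CovZ.n1 (5780, 30940) (by decide +kernel)
                  (CovZ.n2 (5780, 30960) (by decide +kernel)
                   (CovZ.leaf K2_ok TE_l19251 _)
                   (CovZ.n1 (5770, 30950) (by decide +kernel)
                    (CovZ.n2 (5770, 30960) (by decide +kernel)
                     (CovZ.leaf K2_ok TE_l19252 _)
                     (CovZ.leaf K2_ok TE_l19253 _))
                    (CovZ.leaf K2_ok TE_l19254 _)))
                  (CovZ.leaf K2_ok TE_l19255 _))))))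
             (CovZ.n1 (5840, 30800) (by decide +kernel)
              (CovZ.n2 (5760, 30800) (by decide +kernel)
               (CovZ.n2 (5800, 30840) (by decide +kernel)
                (CovZ.n2 (5800, 30800) (by decide +kernel)
                 (CovZ.leaf K2_ok TE_l19256 _)
                 (CovZ.leaf K2_ok TE_l19257 _))
                (CovZ.n1 (5760, 30840) (by decide +kernel)
                 (CovZ.n2 (5780, 30860) (by decide +kernel)
                  (CovZ.leaf K2_ok TE_l19258 _)
                  (CovZ.leaf K2_ok TE_l19259 _))
                 (CovZ.n1 (5780, 30820) (by decide +kernel)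
                  (CovZ.leaf K2_ok TE_l19260 _)
                  (CovZ.leaf K2_ok TE_l19261 _))))
               (CovZ.n1 (5800, 30760) (by decide +kernel)
                (CovZ.n2 (5760, 30760) (by decide +kernel)
                 (CovZ.leaf K2_ok TE_l19262 _)
                 (CovZ.leaf K2_ok TE_l19263 _))
                (CovZ.n1 (5800, 30800) (by decide +kernel)
                 (CovZ.leaf K2_ok TE_l19264 _)
                 (CovZ.leaf K2_ok TE_l19265 _))))
              (CovZ.n1 (5840, 30880) (by decide +kernel)
               (CovZ.n2 (5880, 30840) (by decide +kernel)
                (CovZ.leaf K2_ok TE_l19266 _)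
                (CovZ.leaf K2_ok TE_l19267 _))
               (CovZ.n1 (5800, 30840) (by decide +kernel)
                (CovZ.n2 (5800, 30880) (by decide +kernel)
                 (CovZ.leaf K2_ok TE_l19268 _)
                 (CovZ.n1 (5780, 30860) (by decide +kernel)
                  (CovZ.leaf K2_ok TE_l19269 _)
                  (CovZ.leaf K2_ok TE_l19270 _)))
                (CovZ.leaf K2_ok TE_l19271 _))))))
           (CovZ.n1 (5920, 31040) (by decide +kernel)
            (CovZ.n2 (6000, 30960) (by decide +kernel)
             (CovZ.n2 (5920, 30960) (by decide +kernel)
              (CovZ.n2 (5960, 31000) (by decide +kernel)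
               (CovZ.leaf K2_ok TE_l19272 _)
               (CovZ.leaf K2_ok TE_l19273 _))
              (CovZ.leaf K2_ok TE_l19274 _))
             (CovZ.n1 (6000, 31040) (by decide +kernel)
              (CovZ.leaf K2_ok TE_l19275 _)
              (CovZ.n1 (5960, 31000) (by decide +kernel)
               (CovZ.leaf K2_ok TE_l19276 _)
               (CovZ.leaf K2_ok TE_l19277 _))))
            (CovZ.subM 4951760157213580892657680384 (by decide +kernel)
             (CovZ.n1 (5840, 30960) (by decide +kernel)
              (CovZ.n2 (5840, 31040) (by decide +kernel)
               (CovZ.n2 (5880, 31000) (by decide +kernel)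
                (CovZ.n2 (5840, 31000) (by decide +kernel)
                 (CovZ.n2 (5860, 31020) (by decide +kernel)
                  (CovZ.leaf K2_ok TE_l19278 _)
                  (CovZ.n1 (5840, 31020) (by decide +kernel)
                   (CovZ.leaf K2_ok TE_l19279 _)
                   (CovZ.leaf K2_ok TE_l19280 _)))
                 (CovZ.leaf K2_ok TE_l19281 _))
                (CovZ.n1 (5880, 31040) (by decide +kernel)
                 (CovZ.leaf K2_ok TE_l19282 _)
                 (CovZ.n1 (5860, 31020) (by decide +kernel)
                  (CovZ.n2 (5860, 31040) (by decide +kernel)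
                   (CovZ.leaf K2_ok TE_l19283 _)
                   (CovZ.leaf K2_ok TE_l19284 _))
                  (CovZ.leaf K2_ok TE_l19285 _))))
               (CovZ.n1 (5800, 31000) (by decide +kernel)
                (CovZ.n2 (5800, 31040) (by decide +kernel)
                 (CovZ.n2 (5820, 31020) (by decide +kernel)
                  (CovZ.n2 (5800, 31020) (by decide +kernel)
                   (CovZ.n2 (5810, 31030) (by decide +kernel)
                    (CovZ.leaf K2_ok TE_l19286 _)
                    (CovZ.badM (by decide +kernel)))
                   (CovZ.n1 (5810, 31010) (by decide +kernel)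
                    (CovZ.badM (by decide +kernel))
                    (CovZ.leaf K2_ok TE_l19287 _)))
                  (CovZ.n1 (5820, 31040) (by decide +kernel)
                   (CovZ.leaf K2_ok TE_l19288 _)
                   (CovZ.n1 (5810, 31030) (by decide +kernel)
                    (CovZ.n2 (5810, 31040) (by decide +kernel)
                     (CovZ.leaf K2_ok TE_l19289 _)
                     (CovZ.badM (by decide +kernel)))
                    (CovZ.leaf K2_ok TE_l19290 _))))
                 (CovZ.badM (by decide +kernel)))
                (CovZ.n1 (5840, 31000) (by decide +kernel)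
                 (CovZ.n2 (5820, 30980) (by decide +kernel)
                  (CovZ.n2 (5820, 31000) (by decide +kernel)
                   (CovZ.leaf K2_ok TE_l19291 _)
                   (CovZ.leaf K2_ok TE_l19292 _))
                  (CovZ.leaf K2_ok TE_l19293 _))
                 (CovZ.n1 (5820, 31020) (by decide +kernel)
                  (CovZ.leaf K2_ok TE_l19294 _)
                  (CovZ.n1 (5820, 31000) (by decide +kernel)
                   (CovZ.leaf K2_ok TE_l19295 _)
                   (CovZ.leaf K2_ok TE_l19296 _))))))
              (CovZ.n1 (5920, 30960) (by decide +kernel)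
               (CovZ.n2 (5880, 30920) (by decide +kernel)
                (CovZ.n2 (5880, 30960) (by decide +kernel)
                 (CovZ.leaf K2_ok TE_l19297 _)
                 (CovZ.leaf K2_ok TE_l19298 _))
                (CovZ.leaf K2_ok TE_l19299 _))
               (CovZ.n1 (5880, 31000) (by decide +kernel)
                (CovZ.leaf K2_ok TE_l19300 _)
                (CovZ.n1 (5880, 30960) (by decide +kernel)
                 (CovZ.leaf K2_ok TE_l19301 _)
                 (CovZ.leaf K2_ok TE_l19302 _))))))))

theorem TE_u256 : CovZ TE_M (toL (selN TE_LN 3138550867693340381917894794006073983043302426940396535816)) [0, 7, 6, 1] (5120, 30720) (6400, 30720) (6400, 32000) :=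
    (CovZ.subM 4951760157213581034391863304 (by decide +kernel)
      (CovZ.n2 (5760, 31360) (by decide +kernel)
       (CovZ.n2 (6400, 31360) (by decide +kernel)
        (CovZ.n2 (6080, 31040) (by decide +kernel)
         (CovZ.n2 (6080, 31360) (by decide +kernel)
          (CovZ.n2 (6240, 31200) (by decide +kernel)
           (CovZ.n2 (6080, 31200) (by decide +kernel)
            (CovZ.n2 (6160, 31280) (by decide +kernel)
             (CovZ.n2 (6160, 31200) (by decide +kernel)
              (CovZ.leaf K2_ok TE_l19009 _)
              (CovZ.leaf K2_ok TE_l14692 _))
             (CovZ.n1 (6080, 31280) (by decide +kernel)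
              (CovZ.n2 (6120, 31320) (by decide +kernel)
               (CovZ.leaf K2_ok TE_l19010 _)
               (CovZ.leaf K2_ok TE_l19011 _))
              (CovZ.n1 (6120, 31240) (by decide +kernel)
               (CovZ.leaf K2_ok TE_l19012 _)
               (CovZ.leaf K2_ok TE_l19013 _))))
            (CovZ.n1 (6160, 31120) (by decide +kernel)
             (CovZ.n2 (6080, 31120) (by decide +kernel)
              (CovZ.leaf K2_ok TE_l14693 _)
              (CovZ.leaf K2_ok TE_l14694 _))
             (CovZ.n1 (6160, 31200) (by decide +kernel)
              (CovZ.leaf K2_ok TE_l14695 _)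
              (CovZ.leaf K2_ok TE_l14696 _))))
           (CovZ.n1 (6240, 31360) (by decide +kernel)
            (CovZ.n2 (6320, 31280) (by decide +kernel)
             (CovZ.leaf K2_ok TE_l14697 _)
             (CovZ.leaf K2_ok TE_l14698 _))
            (CovZ.n1 (6160, 31280) (by decide +kernel)
             (CovZ.n2 (6160, 31360) (by decide +kernel)
              (CovZ.leaf K2_ok TE_l14699 _)
              (CovZ.n1 (6120, 31320) (by decide +kernel)
               (CovZ.n2 (6120, 31360) (by decide +kernel)
                (CovZ.leaf K2_ok TE_l19014 _)
                (CovZ.leaf K2_ok TE_l19015 _))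
               (CovZ.leaf K2_ok TE_l19016 _)))
             (CovZ.leaf K2_ok TE_l14700 _))))
          (CovZ.n1 (5920, 31200) (by decide +kernel)
           (CovZ.subM 72057731477143552 (by decide +kernel)
            (CovZ.n2 (5920, 31360) (by decide +kernel)
             (CovZ.n2 (6000, 31280) (by decide +kernel)
              (CovZ.n2 (5920, 31280) (by decide +kernel)
               (CovZ.n2 (5960, 31320) (by decide +kernel)
                (CovZ.n2 (5960, 31280) (by decide +kernel)
                 (CovZ.badM (by decide +kernel))
                 (CovZ.n1 (5980, 31300) (by decide +kernel)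
                  (CovZ.n2 (5980, 31280) (by decide +kernel)
                   (CovZ.badM (by decide +kernel))
                   (CovZ.leaf K2_ok TE_l19017 _))
                  (CovZ.badM (by decide +kernel))))
                (CovZ.badM (by decide +kernel)))
               (CovZ.n1 (5960, 31240) (by decide +kernel)
                (CovZ.badM (by decide +kernel))
                (CovZ.n1 (5960, 31280) (by decide +kernel)
                 (CovZ.n2 (5980, 31260) (by decide +kernel)
                  (CovZ.badM (by decide +kernel))
                  (CovZ.n1 (5980, 31280) (by decide +kernel)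
                   (CovZ.leaf K2_ok TE_l19018 _)
                   (CovZ.badM (by decide +kernel))))
                 (CovZ.badM (by decide +kernel)))))
              (CovZ.n1 (6000, 31360) (by decide +kernel)
               (CovZ.n2 (6040, 31320) (by decide +kernel)
                (CovZ.n2 (6000, 31320) (by decide +kernel)
                 (CovZ.n2 (6020, 31340) (by decide +kernel)
                  (CovZ.leaf K2_ok TE_l19019 _)
                  (CovZ.n1 (6000, 31340) (by decide +kernel)
                   (CovZ.leaf K2_ok TE_l19020 _)
                   (CovZ.leaf K2_ok TE_l19021 _)))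
                 (CovZ.leaf K2_ok TE_l19022 _))
                (CovZ.n1 (6040, 31360) (by decide +kernel)
                 (CovZ.leaf K2_ok TE_l19023 _)
                 (CovZ.n1 (6020, 31340) (by decide +kernel)
                  (CovZ.n2 (6020, 31360) (by decide +kernel)
                   (CovZ.leaf K2_ok TE_l19024 _)
                   (CovZ.leaf K2_ok TE_l19025 _))
                  (CovZ.leaf K2_ok TE_l19026 _))))
               (CovZ.n1 (5960, 31320) (by decide +kernel)
                (CovZ.badM (by decide +kernel))
                (CovZ.n1 (6000, 31320) (by decide +kernel)
                 (CovZ.n2 (5980, 31300) (by decide +kernel)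
                  (CovZ.badM (by decide +kernel))
                  (CovZ.leaf K2_ok TE_l19027 _))
                 (CovZ.badM (by decide +kernel))))))
             (CovZ.badM (by decide +kernel))))
           (CovZ.n1 (6080, 31200) (by decide +kernel)
            (CovZ.n2 (6000, 31120) (by decide +kernel)
             (CovZ.n2 (6000, 31200) (by decide +kernel)
              (CovZ.n2 (6040, 31160) (by decide +kernel)
               (CovZ.leaf K2_ok TE_l19028 _)
               (CovZ.n1 (6040, 31200) (by decide +kernel)
                (CovZ.leaf K2_ok TE_l19029 _)
                (CovZ.leaf K2_ok TE_l19030 _)))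
              (CovZ.subM 4951760157213581030096633856 (by decide +kernel)
               (CovZ.n1 (5960, 31160) (by decide +kernel)
                (CovZ.n2 (5960, 31200) (by decide +kernel)
                 (CovZ.leaf K2_ok TE_l19031 _)
                 (CovZ.n1 (5940, 31180) (by decide +kernel)
                  (CovZ.badM (by decide +kernel))
                  (CovZ.leaf K2_ok TE_l19032 _)))
                (CovZ.leaf K2_ok TE_l19033 _))))
             (CovZ.n1 (6080, 31120) (by decide +kernel)
              (CovZ.n2 (6040, 31080) (by decide +kernel)
               (CovZ.leaf K2_ok TE_l19034 _)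
               (CovZ.leaf K2_ok TE_l19035 _))
              (CovZ.leaf K2_ok TE_l19036 _)))
            (CovZ.n1 (6000, 31280) (by decide +kernel)
             (CovZ.n2 (6080, 31280) (by decide +kernel)
              (CovZ.n2 (6040, 31240) (by decide +kernel)
               (CovZ.n2 (6040, 31280) (by decide +kernel)
                (CovZ.leaf K2_ok TE_l19037 _)
                (CovZ.n1 (6020, 31260) (by decide +kernel)
                 (CovZ.leaf K2_ok TE_l19038 _)
                 (CovZ.leaf K2_ok TE_l19039 _)))
               (CovZ.leaf K2_ok TE_l19040 _))
              (CovZ.n1 (6040, 31320) (by decide +kernel)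
               (CovZ.leaf K2_ok TE_l19041 _)
               (CovZ.n1 (6040, 31280) (by decide +kernel)
                (CovZ.leaf K2_ok TE_l19042 _)
                (CovZ.leaf K2_ok TE_l19043 _))))
             (CovZ.n1 (6000, 31200) (by decide +kernel)
              (CovZ.subM 72059793061183488 (by decide +kernel)
               (CovZ.n2 (5960, 31240) (by decide +kernel)
                (CovZ.n2 (6000, 31240) (by decide +kernel)
                 (CovZ.n2 (5980, 31220) (by decide +kernel)
                  (CovZ.leaf K2_ok TE_l19044 _)
                  (CovZ.leaf K2_ok TE_l19045 _))
                 (CovZ.leaf K2_ok TE_l19046 _))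
                (CovZ.n1 (5960, 31200) (by decide +kernel)
                 (CovZ.badM (by decide +kernel))
                 (CovZ.n1 (5980, 31220) (by decide +kernel)
                  (CovZ.leaf K2_ok TE_l19047 _)
                  (CovZ.leaf K2_ok TE_l19048 _)))))
              (CovZ.n1 (6040, 31240) (by decide +kernel)
               (CovZ.leaf K2_ok TE_l19049 _)
               (CovZ.n1 (6000, 31240) (by decide +kernel)
                (CovZ.leaf K2_ok TE_l19050 _)
                (CovZ.leaf K2_ok TE_l19051 _))))))))
         (CovZ.n1 (6400, 31040) (by decide +kernel)
          (CovZ.n2 (6240, 30880) (by decide +kernel)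
           (CovZ.n2 (6240, 31040) (by decide +kernel)
            (CovZ.leaf K2_ok TE_l14701 _)
            (CovZ.n1 (6160, 30960) (by decide +kernel)
             (CovZ.leaf K2_ok TE_l14702 _)
             (CovZ.leaf K2_ok TE_l14703 _)))
           (CovZ.leaf K2_ok TE_l14704 _))
          (CovZ.n1 (6240, 31200) (by decide +kernel)
           (CovZ.n2 (6400, 31200) (by decide +kernel)
            (CovZ.n2 (6320, 31120) (by decide +kernel)
             (CovZ.leaf K2_ok TE_l14705 _)
             (CovZ.leaf K2_ok TE_l14706 _))
            (CovZ.leaf K2_ok TE_l14707 _))
           (CovZ.n1 (6240, 31040) (by decide +kernel)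
            (CovZ.n2 (6160, 31120) (by decide +kernel)
             (CovZ.leaf K2_ok TE_l14708 _)
             (CovZ.leaf K2_ok TE_l14709 _))
            (CovZ.n1 (6320, 31120) (by decide +kernel)
             (CovZ.leaf K2_ok TE_l14710 _)
             (CovZ.leaf K2_ok TE_l14711 _))))))
        (CovZ.n1 (6080, 31680) (by decide +kernel)
         TE_u252
         TE_u253))
       (CovZ.n1 (5760, 30720) (by decide +kernel)
        (CovZ.n2 (5440, 31040) (by decide +kernel)
         (CovZ.n2 (5760, 31040) (by decide +kernel)
          (CovZ.badM (by decide +kernel))
          (CovZ.badM (by decide +kernel)))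
         (CovZ.badM (by decide +kernel)))
        (CovZ.n1 (6080, 31040) (by decide +kernel)
         (CovZ.n2 (6080, 30720) (by decide +kernel)
          (CovZ.n2 (5920, 30880) (by decide +kernel)
           (CovZ.n2 (6080, 30880) (by decide +kernel)
            (CovZ.n2 (6000, 30800) (by decide +kernel)
             (CovZ.n2 (6000, 30880) (by decide +kernel)
              (CovZ.leaf K2_ok TE_l19163 _)
              (CovZ.leaf K2_ok TE_l19164 _))
             (CovZ.leaf K2_ok TE_l14771 _))
            (CovZ.n1 (6000, 30960) (by decide +kernel)
             (CovZ.leaf K2_ok TE_l19165 _)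
             (CovZ.n1 (6000, 30880) (by decide +kernel)
              (CovZ.leaf K2_ok TE_l19166 _)
              (CovZ.leaf K2_ok TE_l19167 _))))
           (CovZ.n1 (5920, 30720) (by decide +kernel)
            (CovZ.subM 4951760157213580892657680384 (by decide +kernel)
             (CovZ.n2 (5840, 30800) (by decide +kernel)
              (CovZ.n2 (5920, 30800) (by decide +kernel)
               (CovZ.n2 (5880, 30760) (by decide +kernel)
                (CovZ.leaf K2_ok TE_l19168 _)
                (CovZ.leaf K2_ok TE_l19169 _))
               (CovZ.leaf K2_ok TE_l19170 _))
              (CovZ.n1 (5840, 30720) (by decide +kernel)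
               (CovZ.n2 (5800, 30760) (by decide +kernel)
                (CovZ.leaf K2_ok TE_l19171 _)
                (CovZ.leaf K2_ok TE_l19172 _))
               (CovZ.leaf K2_ok TE_l19173 _))))
            (CovZ.n1 (6000, 30800) (by decide +kernel)
             (CovZ.leaf K2_ok TE_l14772 _)
             (CovZ.n1 (5920, 30800) (by decide +kernel)
              (CovZ.leaf K2_ok TE_l19174 _)
              (CovZ.leaf K2_ok TE_l19175 _)))))
          (CovZ.n1 (6240, 30880) (by decide +kernel)
           (CovZ.leaf K2_ok TE_l14773 _)
           (CovZ.n1 (6080, 30880) (by decide +kernel)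
            (CovZ.n2 (6160, 30960) (by decide +kernel)
             (CovZ.leaf K2_ok TE_l14774 _)
             (CovZ.leaf K2_ok TE_l14775 _))
            (CovZ.leaf K2_ok TE_l14776 _))))
         (CovZ.n1 (5760, 31040) (by decide +kernel)
          TE_u254
          TE_u255)))))

theorem TE_u257 : CovZ TE_M (toL (selN TE_LN 3138550867693340381917894794006073983043302426940396535816)) [0, 7, 6, 1] (6400, 30720) (7680, 30720) (6400, 32000) :=
    (CovZ.n1 (7040, 31360) (by decide +kernel)
      (CovZ.n2 (7040, 30720) (by decide +kernel)
       (CovZ.n2 (6720, 31040) (by decide +kernel)
        (CovZ.n2 (7040, 31040) (by decide +kernel)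
         (CovZ.leaf K2_ok TE_l14777 _)
         (CovZ.leaf K2_ok TE_l14778 _))
        (CovZ.n1 (6720, 30720) (by decide +kernel)
         (CovZ.leaf K2_ok TE_l14779 _)
         (CovZ.leaf K2_ok TE_l14780 _)))
       (CovZ.n1 (7360, 31040) (by decide +kernel)
        (CovZ.leaf K2_ok TE_l14781 _)
        (CovZ.n1 (7040, 31040) (by decide +kernel)
         (CovZ.leaf K2_ok TE_l14782 _)
         (CovZ.leaf K2_ok TE_l14783 _))))
      (CovZ.n1 (6400, 31360) (by decide +kernel)
       (CovZ.n2 (6720, 31680) (by decide +kernel)
        (CovZ.n2 (6720, 31360) (by decide +kernel)
         (CovZ.n2 (6560, 31520) (by decide +kernel)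
          (CovZ.n2 (6720, 31520) (by decide +kernel)
           (CovZ.leaf K2_ok TE_l14784 _)
           (CovZ.leaf K2_ok TE_l14785 _))
          (CovZ.n1 (6560, 31360) (by decide +kernel)
           (CovZ.leaf K2_ok TE_l14786 _)
           (CovZ.leaf K2_ok TE_l14787 _)))
         (CovZ.n1 (6880, 31520) (by decide +kernel)
          (CovZ.leaf K2_ok TE_l14788 _)
          (CovZ.leaf K2_ok TE_l14789 _)))
        (CovZ.subM 4951760157213581034391863304 (by decide +kernel)
         (CovZ.n1 (6400, 31680) (by decide +kernel)
          (CovZ.n2 (6560, 31840) (by decide +kernel)
           (CovZ.n2 (6560, 31680) (by decide +kernel)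
            (CovZ.n2 (6480, 31760) (by decide +kernel)
             (CovZ.leaf K2_ok TE_l14790 _)
             (CovZ.n1 (6480, 31680) (by decide +kernel)
              (CovZ.leaf K2_ok TE_l14791 _)
              (CovZ.leaf K2_ok TE_l14792 _)))
            (CovZ.n1 (6640, 31760) (by decide +kernel)
             (CovZ.leaf K2_ok TE_l14793 _)
             (CovZ.leaf K2_ok TE_l14794 _)))
           (CovZ.subM 72057598333157376 (by decide +kernel)
            (CovZ.n1 (6400, 31840) (by decide +kernel)
             (CovZ.n2 (6480, 31920) (by decide +kernel)
              (CovZ.n2 (6480, 31840) (by decide +kernel)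
               (CovZ.leaf K2_ok TE_l14795 _)
               (CovZ.n1 (6520, 31880) (by decide +kernel)
                (CovZ.leaf K2_ok TE_l14796 _)
                (CovZ.leaf K2_ok TE_l14797 _)))
              (CovZ.badM (by decide +kernel)))
             (CovZ.n1 (6480, 31760) (by decide +kernel)
              (CovZ.n2 (6400, 31760) (by decide +kernel)
               (CovZ.n2 (6440, 31800) (by decide +kernel)
                (CovZ.leaf K2_ok TE_l14804 _)
                (CovZ.leaf K2_ok TE_l14805 _))
               (CovZ.leaf K2_ok TE_l14806 _))
              (CovZ.n1 (6480, 31840) (by decide +kernel)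
               (CovZ.leaf K2_ok TE_l14807 _)
               (CovZ.n1 (6440, 31800) (by decide +kernel)
                (CovZ.leaf K2_ok TE_l14808 _)
                (CovZ.leaf K2_ok TE_l14809 _)))))))
          (CovZ.n1 (6560, 31520) (by decide +kernel)
           (CovZ.n2 (6400, 31520) (by decide +kernel)
            (CovZ.n2 (6480, 31600) (by decide +kernel)
             (CovZ.leaf K2_ok TE_l14810 _)
             (CovZ.leaf K2_ok TE_l14811 _))
            (CovZ.n1 (6480, 31440) (by decide +kernel)
             (CovZ.leaf K2_ok TE_l14812 _)
             (CovZ.leaf K2_ok TE_l14813 _)))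
           (CovZ.n1 (6560, 31680) (by decide +kernel)
            (CovZ.leaf K2_ok TE_l14814 _)
            (CovZ.n1 (6480, 31600) (by decide +kernel)
             (CovZ.n2 (6480, 31680) (by decide +kernel)
              (CovZ.leaf K2_ok TE_l14815 _)
              (CovZ.leaf K2_ok TE_l14816 _))
             (CovZ.leaf K2_ok TE_l14817 _)))))))
       (CovZ.n1 (6720, 31040) (by decide +kernel)
        (CovZ.n2 (6400, 31040) (by decide +kernel)
         (CovZ.n2 (6560, 31200) (by decide +kernel)
          (CovZ.leaf K2_ok TE_l14818 _)
          (CovZ.n1 (6400, 31200) (by decide +kernel)
           (CovZ.leaf K2_ok TE_l14819 _)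
           (CovZ.leaf K2_ok TE_l14820 _)))
         (CovZ.n1 (6560, 30880) (by decide +kernel)
          (CovZ.leaf K2_ok TE_l14821 _)
          (CovZ.leaf K2_ok TE_l14822 _)))
        (CovZ.n1 (6720, 31360) (by decide +kernel)
         (CovZ.leaf K2_ok TE_l14823 _)
         (CovZ.n1 (6560, 31200) (by decide +kernel)
          (CovZ.n2 (6560, 31360) (by decide +kernel)
           (CovZ.leaf K2_ok TE_l14824 _)
           (CovZ.leaf K2_ok TE_l14825 _))
          (CovZ.leaf K2_ok TE_l14826 _))))))

theorem TE_u258 : CovZ TE_M (toL (selN TE_LN 82402240774992124695770552340480)) [0, 7, 6, 1] (10240, 35840) (8960, 34560) (10240, 33280) :=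
    (CovZ.n2 (10240, 34560) (by decide +kernel)
     (CovZ.n2 (9600, 33920) (by decide +kernel)
      (CovZ.subM 4951760157213580892657680384 (by decide +kernel)
       (CovZ.n2 (9600, 34560) (by decide +kernel)
        (CovZ.badM (by decide +kernel))
        (CovZ.n1 (9280, 34240) (by decide +kernel)
         (CovZ.n2 (9280, 34560) (by decide +kernel)
          (CovZ.n2 (9440, 34400) (by decide +kernel)
           (CovZ.n2 (9280, 34400) (by decide +kernel)
            (CovZ.n2 (9360, 34480) (by decide +kernel)
             (CovZ.n2 (9360, 34400) (by decide +kernel)
              (CovZ.leaf K2_ok TE_l19367 _)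
              (CovZ.leaf K2_ok TE_l15450 _))
             (CovZ.n1 (9280, 34480) (by decide +kernel)
              (CovZ.n2 (9320, 34520) (by decide +kernel)
               (CovZ.leaf K2_ok TE_l19368 _)
               (CovZ.leaf K2_ok TE_l19369 _))
              (CovZ.leaf K2_ok TE_l19370 _)))
            (CovZ.n1 (9360, 34320) (by decide +kernel)
             (CovZ.leaf K2_ok TE_l19371 _)
             (CovZ.leaf K2_ok TE_l15451 _)))
           (CovZ.n1 (9440, 34560) (by decide +kernel)
            (CovZ.badM (by decide +kernel))
            (CovZ.n1 (9360, 34480) (by decide +kernel)
             (CovZ.n2 (9360, 34560) (by decide +kernel)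
              (CovZ.n2 (9400, 34520) (by decide +kernel)
               (CovZ.leaf K2_ok TE_l19372 _)
               (CovZ.badM (by decide +kernel)))
              (CovZ.n1 (9320, 34520) (by decide +kernel)
               (CovZ.leaf K2_ok TE_l19373 _)
               (CovZ.leaf K2_ok TE_l19374 _)))
             (CovZ.n1 (9440, 34480) (by decide +kernel)
              (CovZ.n2 (9400, 34440) (by decide +kernel)
               (CovZ.leaf K2_ok TE_l19375 _)
               (CovZ.leaf K2_ok TE_l15453 _))
              (CovZ.n1 (9400, 34520) (by decide +kernel)
               (CovZ.badM (by decide +kernel))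
               (CovZ.leaf K2_ok TE_l19376 _))))))
          (CovZ.n1 (9120, 34400) (by decide +kernel)
           (CovZ.badM (by decide +kernel))
           (CovZ.n1 (9280, 34400) (by decide +kernel)
            (CovZ.n2 (9200, 34320) (by decide +kernel)
             (CovZ.leaf K2_ok TE_l19377 _)
             (CovZ.leaf K2_ok TE_l19378 _))
            (CovZ.n1 (9200, 34480) (by decide +kernel)
             (CovZ.n2 (9280, 34480) (by decide +kernel)
              (CovZ.leaf K2_ok TE_l19379 _)
              (CovZ.leaf K2_ok TE_l19380 _))
             (CovZ.leaf K2_ok TE_l19381 _)))))
         (CovZ.n1 (9600, 34240) (by decide +kernel)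
          (CovZ.n2 (9440, 34080) (by decide +kernel)
           (CovZ.n2 (9440, 34240) (by decide +kernel)
            (CovZ.n2 (9520, 34160) (by decide +kernel)
             (CovZ.leaf K2_ok TE_l15454 _)
             (CovZ.leaf K2_ok TE_l15455 _))
            (CovZ.n1 (9360, 34160) (by decide +kernel)
             (CovZ.leaf K2_ok TE_l15456 _)
             (CovZ.leaf K2_ok TE_l15457 _)))
           (CovZ.n1 (9600, 34080) (by decide +kernel)
            (CovZ.leaf K2_ok TE_l15458 _)
            (CovZ.n1 (9520, 34160) (by decide +kernel)
             (CovZ.badM (by decide +kernel))
             (CovZ.leaf K2_ok TE_l15460 _))))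
          (CovZ.n1 (9440, 34400) (by decide +kernel)
           (CovZ.badM (by decide +kernel))
           (CovZ.n1 (9440, 34240) (by decide +kernel)
            (CovZ.n2 (9360, 34320) (by decide +kernel)
             (CovZ.n2 (9440, 34320) (by decide +kernel)
              (CovZ.leaf K2_ok TE_l15466 _)
              (CovZ.leaf K2_ok TE_l15467 _))
             (CovZ.leaf K2_ok TE_l15468 _))
            (CovZ.n1 (9520, 34320) (by decide +kernel)
             (CovZ.n2 (9520, 34240) (by decide +kernel)
              (CovZ.leaf K2_ok TE_l15469 _)
              (CovZ.badM (by decide +kernel)))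
             (CovZ.n1 (9440, 34320) (by decide +kernel)
              (CovZ.badM (by decide +kernel))
              (CovZ.leaf K2_ok TE_l15472 _)))))))))
      (CovZ.subM 82397289014834911097285708611584 (by decide +kernel)
       (CovZ.n1 (10240, 33920) (by decide +kernel)
        (CovZ.n2 (9920, 33600) (by decide +kernel)
         (CovZ.n2 (9920, 33920) (by decide +kernel)
          (CovZ.n2 (10080, 33760) (by decide +kernel)
           (CovZ.n2 (9920, 33760) (by decide +kernel)
            (CovZ.n2 (10000, 33840) (by decide +kernel)
             (CovZ.leaf K2_ok TE_l19382 _)
             (CovZ.leaf K2_ok TE_l19383 _))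
            (CovZ.leaf K2_ok TE_l15473 _))
           (CovZ.n1 (10080, 33920) (by decide +kernel)
            (CovZ.n2 (10160, 33840) (by decide +kernel)
             (CovZ.leaf K2_ok TE_l19384 _)
             (CovZ.n1 (10160, 33920) (by decide +kernel)
              (CovZ.leaf K2_ok TE_l19385 _)
              (CovZ.leaf K2_ok TE_l19386 _)))
            (CovZ.n1 (10000, 33840) (by decide +kernel)
             (CovZ.leaf K2_ok TE_l19387 _)
             (CovZ.leaf K2_ok TE_l19388 _))))
          (CovZ.n1 (9760, 33760) (by decide +kernel)
           (CovZ.n2 (9760, 33920) (by decide +kernel)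
            (CovZ.leaf K2_ok TE_l15474 _)
            (CovZ.leaf K2_ok TE_l15475 _))
           (CovZ.n1 (9920, 33760) (by decide +kernel)
            (CovZ.leaf K2_ok TE_l15476 _)
            (CovZ.leaf K2_ok TE_l15477 _))))
         (CovZ.n1 (10240, 33600) (by decide +kernel)
          (CovZ.n2 (10080, 33440) (by decide +kernel)
           (CovZ.leaf K2_ok TE_l15478 _)
           (CovZ.leaf K2_ok TE_l15479 _))
          (CovZ.n1 (10080, 33760) (by decide +kernel)
           (CovZ.n2 (10240, 33760) (by decide +kernel)
            (CovZ.n2 (10160, 33680) (by decide +kernel)
             (CovZ.leaf K2_ok TE_l19389 _)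
             (CovZ.leaf K2_ok TE_l19390 _))
            (CovZ.n1 (10160, 33840) (by decide +kernel)
             (CovZ.n2 (10240, 33840) (by decide +kernel)
              (CovZ.leaf K2_ok TE_l19391 _)
              (CovZ.leaf K2_ok TE_l19392 _))
             (CovZ.leaf K2_ok TE_l19393 _)))
           (CovZ.n1 (10080, 33600) (by decide +kernel)
            (CovZ.leaf K2_ok TE_l15480 _)
            (CovZ.leaf K2_ok TE_l19394 _)))))
        (CovZ.n1 (9920, 34240) (by decide +kernel)
         (CovZ.n2 (10240, 34240) (by decide +kernel)
          (CovZ.n2 (10080, 34080) (by decide +kernel)
           (CovZ.badM (by decide +kernel))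
           (CovZ.n1 (10240, 34080) (by decide +kernel)
            (CovZ.n2 (10160, 34000) (by decide +kernel)
             (CovZ.badM (by decide +kernel))
             (CovZ.n1 (10240, 34000) (by decide +kernel)
              (CovZ.n2 (10200, 33960) (by decide +kernel)
               (CovZ.leaf K2_ok TE_l19395 _)
               (CovZ.leaf K2_ok TE_l19396 _))
              (CovZ.n1 (10200, 34040) (by decide +kernel)
               (CovZ.badM (by decide +kernel))
               (CovZ.leaf K2_ok TE_l19397 _))))
            (CovZ.badM (by decide +kernel))))
          (CovZ.badM (by decide +kernel)))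
         (CovZ.n1 (9920, 33920) (by decide +kernel)
          (CovZ.n2 (9760, 34080) (by decide +kernel)
           (CovZ.n2 (9920, 34080) (by decide +kernel)
            (CovZ.n2 (9840, 34000) (by decide +kernel)
             (CovZ.badM (by decide +kernel))
             (CovZ.leaf K2_ok TE_l19398 _))
            (CovZ.badM (by decide +kernel)))
           (CovZ.n1 (9760, 33920) (by decide +kernel)
            (CovZ.badM (by decide +kernel))
            (CovZ.n1 (9840, 34000) (by decide +kernel)
             (CovZ.leaf K2_ok TE_l15482 _)
             (CovZ.badM (by decide +kernel)))))
          (CovZ.n1 (10080, 34080) (by decide +kernel)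
           (CovZ.n2 (10080, 33920) (by decide +kernel)
            (CovZ.n2 (10000, 34000) (by decide +kernel)
             (CovZ.n2 (10080, 34000) (by decide +kernel)
              (CovZ.leaf K2_ok TE_l19399 _)
              (CovZ.leaf K2_ok TE_l19400 _))
             (CovZ.leaf K2_ok TE_l19401 _))
            (CovZ.n1 (10160, 34000) (by decide +kernel)
             (CovZ.n2 (10160, 33920) (by decide +kernel)
              (CovZ.leaf K2_ok TE_l19402 _)
              (CovZ.leaf K2_ok TE_l19403 _))
             (CovZ.n1 (10080, 34000) (by decide +kernel)
              (CovZ.n2 (10120, 34040) (by decide +kernel)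
               (CovZ.leaf K2_ok TE_l19404 _)
               (CovZ.leaf K2_ok TE_l19405 _))
              (CovZ.leaf K2_ok TE_l19406 _))))
           (CovZ.n1 (9920, 34080) (by decide +kernel)
            (CovZ.n2 (10000, 34160) (by decide +kernel)
             (CovZ.n2 (10000, 34080) (by decide +kernel)
              (CovZ.badM (by decide +kernel))
              (CovZ.n1 (10040, 34120) (by decide +kernel)
               (CovZ.leaf K2_ok TE_l19407 _)
               (CovZ.badM (by decide +kernel))))
             (CovZ.badM (by decide +kernel)))
            (CovZ.n1 (10000, 34000) (by decide +kernel)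
             (CovZ.n2 (9920, 34000) (by decide +kernel)
              (CovZ.leaf K2_ok TE_l19408 _)
              (CovZ.leaf K2_ok TE_l19409 _))
             (CovZ.n1 (10000, 34080) (by decide +kernel)
              (CovZ.leaf K2_ok TE_l19410 _)
              (CovZ.leaf K2_ok TE_l19411 _))))))))))
     (CovZ.subM 4951760157213580892657680384 (by decide +kernel)
      (CovZ.n1 (9600, 35200) (by decide +kernel)
       (CovZ.badM (by decide +kernel))
       (CovZ.n1 (9600, 34560) (by decide +kernel)
        (CovZ.n2 (9280, 34880) (by decide +kernel)
         (CovZ.n2 (9600, 34880) (by decide +kernel)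
          (CovZ.n2 (9440, 34720) (by decide +kernel)
           (CovZ.badM (by decide +kernel))
           (CovZ.badM (by decide +kernel)))
          (CovZ.badM (by decide +kernel)))
         (CovZ.n1 (9280, 34560) (by decide +kernel)
          (CovZ.badM (by decide +kernel))
          (CovZ.n1 (9440, 34720) (by decide +kernel)
           (CovZ.n2 (9440, 34560) (by decide +kernel)
            (CovZ.n2 (9360, 34640) (by decide +kernel)
             (CovZ.badM (by decide +kernel))
             (CovZ.n1 (9360, 34560) (by decide +kernel)
              (CovZ.n2 (9320, 34600) (by decide +kernel)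
               (CovZ.badM (by decide +kernel))
               (CovZ.leaf K2_ok TE_l19412 _))
              (CovZ.badM (by decide +kernel))))
            (CovZ.badM (by decide +kernel)))
           (CovZ.badM (by decide +kernel)))))
        (CovZ.badM (by decide +kernel))))))

theorem TE_u259 : CovZ TE_M (toL (selN TE_LN 82402240774992124695770552340480)) [0, 7, 6, 1] (8960, 34560) (7680, 33280) (10240, 33280) :=
    (CovZ.n1 (8960, 33280) (by decide +kernel)
     (CovZ.n2 (8320, 33920) (by decide +kernel)
      (CovZ.subM 4951760157213580892657942528 (by decide +kernel)
       (CovZ.n2 (8960, 33920) (by decide +kernel)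
        (CovZ.n2 (8640, 33600) (by decide +kernel)
         (CovZ.n2 (8640, 33920) (by decide +kernel)
          (CovZ.n2 (8800, 33760) (by decide +kernel)
           (CovZ.leaf K2_ok TE_l19413 _)
           (CovZ.leaf K2_ok TE_l19414 _))
          (CovZ.n1 (8480, 33760) (by decide +kernel)
           (CovZ.badM (by decide +kernel))
           (CovZ.leaf K2_ok TE_l19415 _)))
         (CovZ.n1 (8960, 33600) (by decide +kernel)
          (CovZ.leaf K2_ok TE_l15484 _)
          (CovZ.leaf K2_ok TE_l15485 _)))
        (CovZ.n1 (8640, 34240) (by decide +kernel)
         (CovZ.n2 (8960, 34240) (by decide +kernel)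
          (CovZ.n2 (8800, 34080) (by decide +kernel)
           (CovZ.badM (by decide +kernel))
           (CovZ.leaf K2_ok TE_l19416 _))
          (CovZ.badM (by decide +kernel)))
         (CovZ.n1 (8640, 33920) (by decide +kernel)
          (CovZ.badM (by decide +kernel))
          (CovZ.n1 (8800, 34080) (by decide +kernel)
           (CovZ.leaf K2_ok TE_l19417 _)
           (CovZ.badM (by decide +kernel)))))))
      (CovZ.n1 (8320, 33280) (by decide +kernel)
       (CovZ.subM 4951760157213598484843724800 (by decide +kernel)
        (CovZ.n2 (8000, 33600) (by decide +kernel)
         (CovZ.n2 (8320, 33600) (by decide +kernel)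
          (CovZ.n2 (8160, 33440) (by decide +kernel)
           (CovZ.badM (by decide +kernel))
           (CovZ.leaf K2_ok TE_l19418 _))
          (CovZ.badM (by decide +kernel)))
         (CovZ.n1 (8000, 33280) (by decide +kernel)
          (CovZ.n2 (7840, 33440) (by decide +kernel)
           (CovZ.n2 (8000, 33440) (by decide +kernel)
            (CovZ.n2 (7920, 33360) (by decide +kernel)
             (CovZ.leaf K2_ok TE_l19419 _)
             (CovZ.leaf K2_ok TE_l19420 _))
            (CovZ.badM (by decide +kernel)))
           (CovZ.n1 (7840, 33280) (by decide +kernel)
            (CovZ.leaf K2_ok TE_l19421 _)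
            (CovZ.leaf K2_ok TE_l19422 _)))
          (CovZ.n1 (8160, 33440) (by decide +kernel)
           (CovZ.leaf K2_ok TE_l19423 _)
           (CovZ.n1 (8000, 33440) (by decide +kernel)
            (CovZ.badM (by decide +kernel))
            (CovZ.leaf K2_ok TE_l19424 _))))))
       (CovZ.subM 4951760157213580892657942528 (by decide +kernel)
        (CovZ.n1 (8640, 33600) (by decide +kernel)
         (CovZ.n2 (8640, 33280) (by decide +kernel)
          (CovZ.leaf K2_ok TE_l19425 _)
          (CovZ.leaf K2_ok TE_l15486 _))
         (CovZ.n1 (8320, 33600) (by decide +kernel)
          (CovZ.n2 (8480, 33760) (by decide +kernel)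
           (CovZ.leaf K2_ok TE_l19426 _)
           (CovZ.badM (by decide +kernel)))
          (CovZ.n1 (8480, 33440) (by decide +kernel)
           (CovZ.leaf K2_ok TE_l19427 _)
           (CovZ.leaf K2_ok TE_l19428 _)))))))
     (CovZ.n1 (9600, 33920) (by decide +kernel)
      (CovZ.n2 (9600, 33280) (by decide +kernel)
       (CovZ.n2 (9280, 33600) (by decide +kernel)
        (CovZ.n2 (9600, 33600) (by decide +kernel)
         (CovZ.leaf K2_ok TE_l15487 _)
         (CovZ.n1 (9440, 33760) (by decide +kernel)
          (CovZ.leaf K2_ok TE_l15488 _)
          (CovZ.leaf K2_ok TE_l15489 _)))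
        (CovZ.n1 (9280, 33280) (by decide +kernel)
         (CovZ.leaf K2_ok TE_l15490 _)
         (CovZ.leaf K2_ok TE_l15491 _)))
       (CovZ.n1 (9920, 33600) (by decide +kernel)
        (CovZ.n2 (9920, 33280) (by decide +kernel)
         (CovZ.leaf K2_ok TE_l15492 _)
         (CovZ.n1 (10080, 33440) (by decide +kernel)
          (CovZ.leaf K2_ok TE_l15493 _)
          (CovZ.leaf K2_ok TE_l15494 _)))
        (CovZ.n1 (9600, 33600) (by decide +kernel)
         (CovZ.n2 (9760, 33760) (by decide +kernel)
          (CovZ.leaf K2_ok TE_l15495 _)
          (CovZ.leaf K2_ok TE_l15496 _))
         (CovZ.leaf K2_ok TE_l15497 _))))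
      (CovZ.subM 4951760157213580892657942528 (by decide +kernel)
       (CovZ.n1 (8960, 33920) (by decide +kernel)
        (CovZ.n2 (9280, 34240) (by decide +kernel)
         (CovZ.n2 (9280, 33920) (by decide +kernel)
          (CovZ.n2 (9120, 34080) (by decide +kernel)
           (CovZ.n2 (9280, 34080) (by decide +kernel)
            (CovZ.leaf K2_ok TE_l15498 _)
            (CovZ.leaf K2_ok TE_l15499 _))
           (CovZ.leaf K2_ok TE_l15500 _))
          (CovZ.n1 (9440, 34080) (by decide +kernel)
           (CovZ.n2 (9440, 33920) (by decide +kernel)
            (CovZ.leaf K2_ok TE_l15501 _)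
            (CovZ.leaf K2_ok TE_l15502 _))
           (CovZ.n1 (9280, 34080) (by decide +kernel)
            (CovZ.leaf K2_ok TE_l15503 _)
            (CovZ.leaf K2_ok TE_l15504 _))))
         (CovZ.n1 (8960, 34240) (by decide +kernel)
          (CovZ.n2 (9120, 34400) (by decide +kernel)
           (CovZ.n2 (9120, 34240) (by decide +kernel)
            (CovZ.leaf K2_ok TE_l19429 _)
            (CovZ.leaf K2_ok TE_l19430 _))
           (CovZ.badM (by decide +kernel)))
          (CovZ.n1 (9120, 34080) (by decide +kernel)
           (CovZ.leaf K2_ok TE_l19431 _)
           (CovZ.leaf K2_ok TE_l19432 _))))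
        (CovZ.n1 (9280, 33600) (by decide +kernel)
         (CovZ.n2 (8960, 33600) (by decide +kernel)
          (CovZ.leaf K2_ok TE_l15505 _)
          (CovZ.leaf K2_ok TE_l15506 _))
         (CovZ.n1 (9280, 33920) (by decide +kernel)
          (CovZ.n2 (9440, 33760) (by decide +kernel)
           (CovZ.leaf K2_ok TE_l15507 _)
           (CovZ.leaf K2_ok TE_l15508 _))
          (CovZ.n1 (9120, 33760) (by decide +kernel)
           (CovZ.leaf K2_ok TE_l15509 _)
           (CovZ.leaf K2_ok TE_l15510 _))))))))

end Pool.Agent.TET
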