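import Pool.Agent.Helper38_TET.TE_M
import Pool.Agent.Helper38_TET.TE_L
import Pool.Agent.Helper38_TET.TE_9
import Pool.Agent.Helper38_TET.TE_10
import Pool.Agent.Helper38_TET.TE_11
import Pool.Agent.Helper38_TET.TE_12
import Pool.Agent.Helper38_TET.TE_44
import Pool.Agent.Helper38_TET.TE_45
import Pool.Agent.Helper38_TET.TE_94
import Pool.Agent.Helper38_TET.TE_97
import Pool.Agent.Helper38_TET.TE_102
import Pool.Agent.Helper38_TET.TE_104
import Pool.Agent.Helper38_TET.TE_106
import Pool.Agent.Helper38_TET.TE_110
import Pool.Agent.Helper38_TET.TE_112
import Pool.Agent.Helper38_TET.TE_115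
import Pool.Agent.Helper38_TET.TE_129
import Pool.Agent.Helper38_TET.TE_130
import Pool.Agent.Helper38_TET.TE_132
import Pool.Agent.Helper38_TET.TE_U10
import Pool.Agent.Helper38_TET.TE_U11
import Pool.Agent.Helper38_TET.TE_U12
import Pool.Agent.Helper38_TET.TE_U13
import Pool.Agent.Helper38_TET.TE_U14
import Pool.Agent.Helper38_TET.TE_U15
import Pool.Agent.Helper38_TET.TE_U16
import Pool.Agent.Helper38_TET.TE_U6
import Pool.Agent.Helper38_TET.TE_U7
import Pool.Agent.Helper38_TET.TE_U8
import Pool.Agent.Helper38_TET.TE_U9

/-!
# MP_c7c9bf_co: certificates, family TE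
-/

set_option autoImplicit false
set_option maxRecDepth 100000

namespace Pool.Agent.TET

theorem TE_s8_5 : SqZ TE_M TE_L [0, 7, 6, 1] (-10240) 12800 2560 8 5 :=
  SqZ.mk (a := 10240) (b := 12800) (c := 25600) (d := 28160) (by norm_num) (by norm_num) (by norm_num) (by norm_num)
    (CovZ.topM TE_LL 11972621413014757038232263486984685188095594742415401 (by decide +kernel) (CovZ.n2 (11520, 26880) (by decide +kernel)
    (CovZ.n2 (12800, 26880) (by decide +kernel)
     (CovZ.n2 (12160, 26240) (by decide +kernel)
      (CovZ.n2 (12160, 26880) (by decide +kernel)
       (CovZ.subM 11972621413014756705925259588995559820622725780602888 (by decide +kernel)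
        (CovZ.n2 (12480, 26560) (by decide +kernel)
         (CovZ.n2 (12160, 26560) (by decide +kernel)
          (CovZ.n2 (12320, 26720) (by decide +kernel)
           (CovZ.badM (by decide +kernel))
           (CovZ.n1 (12160, 26720) (by decide +kernel)
            (CovZ.n2 (12240, 26800) (by decide +kernel)
             (CovZ.badM (by decide +kernel))
             (CovZ.n1 (12160, 26800) (by decide +kernel)
              (CovZ.n2 (12200, 26840) (by decide +kernel)
               (CovZ.leaf K2_ok TE_l15601 _)
               (CovZ.leaf K2_ok TE_l15602 _))
              (CovZ.n1 (12200, 26760) (by decide +kernel)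
               (CovZ.leaf K2_ok TE_l15603 _)
               (CovZ.leaf K2_ok TE_l15604 _))))
            (CovZ.badM (by decide +kernel))))
          (CovZ.badM (by decide +kernel)))
         (CovZ.n1 (12480, 26880) (by decide +kernel)
          (CovZ.badM (by decide +kernel))
          (CovZ.n1 (12320, 26720) (by decide +kernel)
           (CovZ.n2 (12320, 26880) (by decide +kernel)
            (CovZ.subM 8 (by decide +kernel)
             (CovZ.n2 (12400, 26800) (by decide +kernel)
              (CovZ.n2 (12320, 26800) (by decide +kernel)
               (CovZ.n2 (12360, 26840) (by decide +kernel)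
                (CovZ.badM (by decide +kernel))
                (CovZ.leaf K2_ok TE_l19438 _))
               (CovZ.badM (by decide +kernel)))
              (CovZ.badM (by decide +kernel))))
            (CovZ.n1 (12240, 26800) (by decide +kernel)
             (CovZ.n2 (12240, 26880) (by decide +kernel)
              (CovZ.n2 (12280, 26840) (by decide +kernel)
               (CovZ.leaf K2_ok TE_l15605 _)
               (CovZ.leaf K2_ok TE_l15606 _))
              (CovZ.leaf K2_ok TE_l15607 _))
             (CovZ.n1 (12320, 26800) (by decide +kernel)
              (CovZ.badM (by decide +kernel))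
              (CovZ.n1 (12280, 26840) (by decide +kernel)
               (CovZ.leaf K2_ok TE_l19439 _)
               (CovZ.badM (by decide +kernel))))))
           (CovZ.badM (by decide +kernel))))))
       (CovZ.n1 (11840, 26560) (by decide +kernel)
        (CovZ.n2 (11840, 26880) (by decide +kernel)
         (CovZ.n2 (12000, 26720) (by decide +kernel)
          (CovZ.n2 (11840, 26720) (by decide +kernel)
           (CovZ.n2 (11920, 26800) (by decide +kernel)
            (CovZ.n2 (11920, 26720) (by decide +kernel)
             (CovZ.leaf K2_ok TE_l15608 _)
             (CovZ.leaf K2_ok TE_l15609 _))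
            (CovZ.leaf K2_ok TE_l15610 _))
           (CovZ.n1 (11920, 26640) (by decide +kernel)
            (CovZ.leaf K2_ok TE_l15611 _)
            (CovZ.n1 (11920, 26720) (by decide +kernel)
             (CovZ.leaf K2_ok TE_l15612 _)
             (CovZ.leaf K2_ok TE_l15613 _))))
          (CovZ.subM 11972621413014756705925259588995522927134578361499656 (by decide +kernel)
           (CovZ.n1 (12000, 26880) (by decide +kernel)
            (CovZ.n2 (12080, 26800) (by decide +kernel)
             (CovZ.leaf K2_ok TE_l15614 _)
             (CovZ.n1 (12080, 26880) (by decide +kernel)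
              (CovZ.leaf K2_ok TE_l15615 _)
              (CovZ.leaf K2_ok TE_l15616 _)))
            (CovZ.n1 (11920, 26800) (by decide +kernel)
             (CovZ.leaf K2_ok TE_l15617 _)
             (CovZ.leaf K2_ok TE_l15618 _)))))
         (CovZ.n1 (11680, 26720) (by decide +kernel)
          (CovZ.n2 (11680, 26880) (by decide +kernel)
           (CovZ.leaf K2_ok TE_l15619 _)
           (CovZ.leaf K2_ok TE_l15620 _))
          (CovZ.n1 (11840, 26720) (by decide +kernel)
           (CovZ.n2 (11760, 26640) (by decide +kernel)
            (CovZ.leaf K2_ok TE_l15621 _)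
            (CovZ.leaf K2_ok TE_l15622 _))
           (CovZ.leaf K2_ok TE_l15623 _))))
        (CovZ.subM 11972621413014756705925259588995559820622725780602888 (by decide +kernel)
         (CovZ.n1 (12160, 26560) (by decide +kernel)
          (CovZ.subM 39614083655208900578036940800 (by decide +kernel)
           (CovZ.n2 (12000, 26400) (by decide +kernel)
            (CovZ.n2 (12000, 26560) (by decide +kernel)
             (CovZ.badM (by decide +kernel))
             (CovZ.n1 (11920, 26480) (by decide +kernel)
              (CovZ.n2 (11920, 26560) (by decide +kernel)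
               (CovZ.n2 (11960, 26520) (by decide +kernel)
                (CovZ.leaf K2_ok TE_l15624 _)
                (CovZ.leaf K2_ok TE_l15625 _))
               (CovZ.n1 (11880, 26520) (by decide +kernel)
                (CovZ.leaf K2_ok TE_l15626 _)
                (CovZ.leaf K2_ok TE_l15627 _)))
              (CovZ.badM (by decide +kernel))))
            (CovZ.badM (by decide +kernel))))
          (CovZ.n1 (12000, 26720) (by decide +kernel)
           (CovZ.n2 (12160, 26720) (by decide +kernel)
            (CovZ.subM 673439383732430113178969440256 (by decide +kernel)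
             (CovZ.n2 (12080, 26640) (by decide +kernel)
              (CovZ.n2 (12080, 26720) (by decide +kernel)
               (CovZ.n2 (12120, 26680) (by decide +kernel)
                (CovZ.leaf K2_ok TE_l15628 _)
                (CovZ.leaf K2_ok TE_l15629 _))
               (CovZ.leaf K2_ok TE_l15630 _))
              (CovZ.badM (by decide +kernel))))
            (CovZ.n1 (12080, 26800) (by decide +kernel)
             (CovZ.n2 (12160, 26800) (by decide +kernel)
              (CovZ.leaf K2_ok TE_l15631 _)
              (CovZ.leaf K2_ok TE_l15632 _))
             (CovZ.n1 (12080, 26720) (by decide +kernel)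
              (CovZ.leaf K2_ok TE_l15633 _)
              (CovZ.n1 (12120, 26760) (by decide +kernel)
               (CovZ.leaf K2_ok TE_l15634 _)
               (CovZ.leaf K2_ok TE_l15635 _)))))
           (CovZ.n1 (12000, 26560) (by decide +kernel)
            (CovZ.n2 (11920, 26640) (by decide +kernel)
             (CovZ.n2 (12000, 26640) (by decide +kernel)
              (CovZ.leaf K2_ok TE_l15636 _)
              (CovZ.leaf K2_ok TE_l15637 _))
             (CovZ.n1 (11920, 26560) (by decide +kernel)
              (CovZ.leaf K2_ok TE_l15638 _)
              (CovZ.n1 (11960, 26600) (by decide +kernel)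
               (CovZ.leaf K2_ok TE_l15639 _)
               (CovZ.leaf K2_ok TE_l15640 _))))
            (CovZ.n1 (12080, 26640) (by decide +kernel)
             (CovZ.badM (by decide +kernel))
             (CovZ.n1 (12000, 26640) (by decide +kernel)
              (CovZ.leaf K2_ok TE_l15641 _)
              (CovZ.n1 (12040, 26600) (by decide +kernel)
               (CovZ.leaf K2_ok TE_l15642 _)
               (CovZ.leaf K2_ok TE_l15643 _))))))))))
      (CovZ.badM (by decide +kernel)))
     (CovZ.subM 11972621413014756705925259588995522927134578361761800 (by decide +kernel)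
      (CovZ.n1 (12160, 27520) (by decide +kernel)
       TE_u101
       TE_u102)))
    (CovZ.n1 (11520, 25600) (by decide +kernel)
     TE_u103
     TE_u104)))
    (CovZ.topM TE_LL 11972621414408553613140427433330667580153709522587688 (by decide +kernel) (CovZ.n0 (11520, 26880) (by decide +kernel)
    (CovZ.n2 (10240, 26880) (by decide +kernel)
     (CovZ.n2 (10880, 27520) (by decide +kernel)
      (CovZ.n2 (10880, 26880) (by decide +kernel)
       (CovZ.n2 (10560, 27200) (by decide +kernel)
        (CovZ.leaf K2_ok TE_l15918 _)
        (CovZ.n1 (10560, 26880) (by decide +kernel)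
         (CovZ.leaf K2_ok TE_l15919 _)
         (CovZ.leaf K2_ok TE_l15920 _)))
       (CovZ.subM 11972621413014756705925264540755680068655682253225992 (by decide +kernel)
        (CovZ.n1 (11200, 27200) (by decide +kernel)
         (CovZ.n2 (11200, 26880) (by decide +kernel)
          (CovZ.leaf K2_ok TE_l15921 _)
          (CovZ.n1 (11360, 27040) (by decide +kernel)
           (CovZ.leaf K2_ok TE_l15922 _)
           (CovZ.leaf K2_ok TE_l15923 _)))
         (CovZ.leaf K2_ok TE_l15924 _))))
      (CovZ.n1 (10240, 27520) (by decide +kernel)
       (CovZ.n2 (10560, 27840) (by decide +kernel)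
        (CovZ.leaf K2_ok TE_l15925 _)
        (CovZ.leaf K2_ok TE_l15926 _))
       (CovZ.n1 (10560, 27200) (by decide +kernel)
        (CovZ.leaf K2_ok TE_l15927 _)
        (CovZ.leaf K2_ok TE_l15928 _))))
     (CovZ.n1 (10880, 26240) (by decide +kernel)
      (CovZ.n2 (10240, 26240) (by decide +kernel)
       (CovZ.n2 (10560, 26560) (by decide +kernel)
        (CovZ.n2 (10560, 26240) (by decide +kernel)
         (CovZ.leaf K2_ok TE_l15929 _)
         (CovZ.n1 (10720, 26400) (by decide +kernel)
          (CovZ.leaf K2_ok TE_l15930 _)
          (CovZ.leaf K2_ok TE_l15931 _)))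
        (CovZ.leaf K2_ok TE_l15932 _))
       (CovZ.n1 (10560, 25920) (by decide +kernel)
        (CovZ.n2 (10240, 25920) (by decide +kernel)
         (CovZ.n2 (10400, 26080) (by decide +kernel)
          (CovZ.leaf K2_ok TE_l15933 _)
          (CovZ.leaf K2_ok TE_l15934 _))
         (CovZ.n1 (10400, 25760) (by decide +kernel)
          (CovZ.leaf K2_ok TE_l15935 _)
          (CovZ.leaf K2_ok TE_l15936 _)))
        (CovZ.n1 (10560, 26240) (by decide +kernel)
         (CovZ.n2 (10720, 26080) (by decide +kernel)
          (CovZ.leaf K2_ok TE_l15937 _)
          (CovZ.leaf K2_ok TE_l15938 _))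
         (CovZ.n1 (10400, 26080) (by decide +kernel)
          (CovZ.leaf K2_ok TE_l15939 _)
          (CovZ.leaf K2_ok TE_l15940 _)))))
      (CovZ.n1 (10880, 26880) (by decide +kernel)
       (CovZ.n2 (11200, 26560) (by decide +kernel)
        (CovZ.n2 (10880, 26560) (by decide +kernel)
         (CovZ.n2 (11040, 26720) (by decide +kernel)
          (CovZ.leaf K2_ok TE_l15941 _)
          (CovZ.leaf K2_ok TE_l15942 _))
         (CovZ.n1 (11040, 26400) (by decide +kernel)
          (CovZ.leaf K2_ok TE_l15943 _)
          (CovZ.leaf K2_ok TE_l15944 _)))
        (CovZ.n1 (11200, 26880) (by decide +kernel)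
         (CovZ.n2 (11360, 26720) (by decide +kernel)
          (CovZ.leaf K2_ok TE_l15945 _)
          (CovZ.leaf K2_ok TE_l15946 _))
         (CovZ.n1 (11040, 26720) (by decide +kernel)
          (CovZ.leaf K2_ok TE_l15947 _)
          (CovZ.leaf K2_ok TE_l15948 _))))
       (CovZ.n1 (10560, 26560) (by decide +kernel)
        (CovZ.n2 (10560, 26880) (by decide +kernel)
         (CovZ.leaf K2_ok TE_l15949 _)
         (CovZ.leaf K2_ok TE_l15950 _))
        (CovZ.n1 (10880, 26560) (by decide +kernel)
         (CovZ.n2 (10720, 26400) (by decide +kernel)
          (CovZ.leaf K2_ok TE_l15951 _)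
          (CovZ.leaf K2_ok TE_l15952 _))
         (CovZ.leaf K2_ok TE_l15953 _))))))
    (CovZ.n1 (11520, 28160) (by decide +kernel)
     (CovZ.subM 11972621413014756705925259588995522927134578361761800 (by decide +kernel)
      (CovZ.n2 (12160, 27520) (by decide +kernel)
       (CovZ.n2 (11520, 27520) (by decide +kernel)
        (CovZ.n2 (11840, 27840) (by decide +kernel)
         (CovZ.n2 (11840, 27520) (by decide +kernel)
          (CovZ.leaf K2_ok TE_l15954 _)
          (CovZ.n1 (12000, 27680) (by decide +kernel)
           (CovZ.leaf K2_ok TE_l15955 _)
           (CovZ.leaf K2_ok TE_l15956 _)))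
         (CovZ.leaf K2_ok TE_l15957 _))
        (CovZ.n1 (11840, 27200) (by decide +kernel)
         (CovZ.n2 (11520, 27200) (by decide +kernel)
          (CovZ.n2 (11680, 27360) (by decide +kernel)
           (CovZ.leaf K2_ok TE_l15958 _)
           (CovZ.leaf K2_ok TE_l15959 _))
          (CovZ.n1 (11680, 27040) (by decide +kernel)
           (CovZ.leaf K2_ok TE_l15960 _)
           (CovZ.leaf K2_ok TE_l15961 _)))
         (CovZ.n1 (11840, 27520) (by decide +kernel)
          (CovZ.n2 (12000, 27360) (by decide +kernel)
           (CovZ.leaf K2_ok TE_l15962 _)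
           (CovZ.leaf K2_ok TE_l15963 _))
          (CovZ.n1 (11680, 27360) (by decide +kernel)
           (CovZ.leaf K2_ok TE_l15964 _)
           (CovZ.leaf K2_ok TE_l15965 _)))))
       (CovZ.n1 (12160, 28160) (by decide +kernel)
        (CovZ.subM 11972621413014756705925219974914265794963582566531072 (by decide +kernel)
         (CovZ.n2 (12480, 27840) (by decide +kernel)
          (CovZ.n2 (12160, 27840) (by decide +kernel)
           (CovZ.n2 (12320, 28000) (by decide +kernel)
            (CovZ.leaf K2_ok TE_l15966 _)
            (CovZ.leaf K2_ok TE_l15967 _))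
           (CovZ.n1 (12320, 27680) (by decide +kernel)
            (CovZ.leaf K2_ok TE_l15968 _)
            (CovZ.leaf K2_ok TE_l15969 _)))
          (CovZ.n1 (12480, 28160) (by decide +kernel)
           (CovZ.n2 (12640, 28000) (by decide +kernel)
            (CovZ.leaf K2_ok TE_l15970 _)
            (CovZ.leaf K2_ok TE_l15971 _))
           (CovZ.n1 (12320, 28000) (by decide +kernel)
            (CovZ.leaf K2_ok TE_l15972 _)
            (CovZ.leaf K2_ok TE_l15973 _)))))
        (CovZ.n1 (11840, 27840) (by decide +kernel)
         (CovZ.n2 (11840, 28160) (by decide +kernel)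
          (CovZ.leaf K2_ok TE_l15974 _)
          (CovZ.leaf K2_ok TE_l15975 _))
         (CovZ.n1 (12160, 27840) (by decide +kernel)
          (CovZ.n2 (12000, 27680) (by decide +kernel)
           (CovZ.leaf K2_ok TE_l15976 _)
           (CovZ.leaf K2_ok TE_l15977 _))
          (CovZ.leaf K2_ok TE_l15978 _))))))
     (CovZ.n1 (10880, 27520) (by decide +kernel)
      (CovZ.subM 11972621413014756705925224926674422936504473372332040 (by decide +kernel)
       (CovZ.n2 (10880, 28160) (by decide +kernel)
        (CovZ.n2 (11200, 27840) (by decide +kernel)
         (CovZ.leaf K2_ok TE_l15979 _)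
         (CovZ.leaf K2_ok TE_l15980 _))
        (CovZ.n1 (10560, 27840) (by decide +kernel)
         (CovZ.leaf K2_ok TE_l15981 _)
         (CovZ.leaf K2_ok TE_l15982 _))))
      (CovZ.subM 11972621413014756705925264540755680068655677958258696 (by decide +kernel)
       (CovZ.n1 (11520, 27520) (by decide +kernel)
        (CovZ.n2 (11200, 27200) (by decide +kernel)
         (CovZ.n2 (11200, 27520) (by decide +kernel)
          (CovZ.leaf K2_ok TE_l15983 _)
          (CovZ.leaf K2_ok TE_l15984 _))
         (CovZ.n1 (11520, 27200) (by decide +kernel)
          (CovZ.n2 (11360, 27040) (by decide +kernel)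
           (CovZ.leaf K2_ok TE_l15985 _)
           (CovZ.leaf K2_ok TE_l15986 _))
          (CovZ.leaf K2_ok TE_l15987 _)))
        (CovZ.n1 (11200, 27840) (by decide +kernel)
         (CovZ.leaf K2_ok TE_l15988 _)
         (CovZ.n1 (11200, 27520) (by decide +kernel)
          (CovZ.leaf K2_ok TE_l15989 _)
          (CovZ.leaf K2_ok TE_l15990 _)))))))))

theorem TE_s9_5 : SqZ TE_M TE_L [0, 7, 6, 1] (-10240) 12800 2560 9 5 :=
  SqZ.mk (a := 12800) (b := 15360) (c := 25600) (d := 28160) (by norm_num) (by norm_num) (by norm_num) (by norm_num)
    (CovZ.topM TE_LL 8 (by decide +kernel) (CovZ.n2 (14080, 26880) (by decide +kernel)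
    (CovZ.badM (by decide +kernel))
    (CovZ.badM (by decide +kernel))))
    (CovZ.topM TE_LL 11972621413014757038232258535224528046574490850951209 (by decide +kernel) (CovZ.n0 (14080, 26880) (by decide +kernel)
    TE_u105
    TE_u106))

theorem TE_s10_5 : SqZ TE_M TE_L [0, 7, 6, 1] (-10240) 12800 2560 10 5 :=
  SqZ.mk (a := 15360) (b := 17920) (c := 25600) (d := 28160) (by norm_num) (by norm_num) (by norm_num) (by norm_num)
    (CovZ.topM TE_LL 0 (by decide +kernel) (CovZ.badM (by decide +kernel)))
    (CovZ.topM TE_LL 0 (by decide +kernel) (CovZ.badM (by decide +kernel)))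

theorem TE_s0_6 : SqZ TE_M TE_L [0, 7, 6, 1] (-10240) 12800 2560 0 6 :=
  SqZ.mk (a := (-10240)) (b := (-7680)) (c := 28160) (d := 30720) (by norm_num) (by norm_num) (by norm_num) (by norm_num)
    (CovZ.topM TE_LL 2854495385411919762116571938898990272765493248 (by decide +kernel) (CovZ.n2 (-8960, 29440) (by decide +kernel)
    (CovZ.n2 (-7680, 29440) (by decide +kernel)
     (CovZ.n2 (-8320, 28800) (by decide +kernel)
      (CovZ.badM (by decide +kernel))
      (CovZ.n1 (-7680, 28800) (by decide +kernel)
       (CovZ.badM (by decide +kernel))
       (CovZ.badM (by decide +kernel))))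
     (CovZ.badM (by decide +kernel)))
    (CovZ.n1 (-8960, 28160) (by decide +kernel)
     (CovZ.n2 (-9600, 28800) (by decide +kernel)
      (CovZ.n2 (-8960, 28800) (by decide +kernel)
       (CovZ.badM (by decide +kernel))
       (CovZ.badM (by decide +kernel)))
      (CovZ.badM (by decide +kernel)))
     (CovZ.n1 (-8320, 28800) (by decide +kernel)
      (CovZ.badM (by decide +kernel))
      (CovZ.n1 (-8960, 28800) (by decide +kernel)
       (CovZ.badM (by decide +kernel))
       (CovZ.badM (by decide +kernel)))))))
    (CovZ.topM TE_LL 2854495385411919762116571938898990272765493248 (by decide +kernel) (CovZ.n0 (-8960, 29440) (by decide +kernel)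
    (CovZ.n2 (-10240, 29440) (by decide +kernel)
     (CovZ.badM (by decide +kernel))
     (CovZ.n1 (-9600, 28800) (by decide +kernel)
      (CovZ.n2 (-10240, 28800) (by decide +kernel)
       (CovZ.badM (by decide +kernel))
       (CovZ.badM (by decide +kernel)))
      (CovZ.badM (by decide +kernel))))
    (CovZ.badM (by decide +kernel))))

theorem TE_s1_6 : SqZ TE_M TE_L [0, 7, 6, 1] (-10240) 12800 2560 1 6 :=
  SqZ.mk (a := (-7680)) (b := (-5120)) (c := 28160) (d := 30720) (by norm_num) (by norm_num) (by norm_num) (by norm_num)
    (CovZ.topM TE_LL 2854495385411919762116571938898990272765493248 (by decide +kernel) (CovZ.n2 (-6400, 29440) (by decide +kernel)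
    (CovZ.n2 (-5120, 29440) (by decide +kernel)
     (CovZ.n2 (-5760, 28800) (by decide +kernel)
      (CovZ.badM (by decide +kernel))
      (CovZ.n1 (-5120, 28800) (by decide +kernel)
       (CovZ.n2 (-5440, 28480) (by decide +kernel)
        (CovZ.badM (by decide +kernel))
        (CovZ.n1 (-5120, 28480) (by decide +kernel)
         (CovZ.badM (by decide +kernel))
         (CovZ.badM (by decide +kernel))))
       (CovZ.badM (by decide +kernel))))
     (CovZ.badM (by decide +kernel)))
    (CovZ.n1 (-6400, 28160) (by decide +kernel)
     (CovZ.n2 (-7040, 28800) (by decide +kernel)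
      (CovZ.n2 (-6400, 28800) (by decide +kernel)
       (CovZ.n2 (-6720, 28480) (by decide +kernel)
        (CovZ.badM (by decide +kernel))
        (CovZ.n1 (-6400, 28480) (by decide +kernel)
         (CovZ.badM (by decide +kernel))
         (CovZ.badM (by decide +kernel))))
       (CovZ.badM (by decide +kernel)))
      (CovZ.n1 (-7040, 28160) (by decide +kernel)
       (CovZ.n2 (-7360, 28480) (by decide +kernel)
        (CovZ.n2 (-7040, 28480) (by decide +kernel)
         (CovZ.badM (by decide +kernel))
         (CovZ.badM (by decide +kernel)))
        (CovZ.badM (by decide +kernel)))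
       (CovZ.n1 (-6720, 28480) (by decide +kernel)
        (CovZ.badM (by decide +kernel))
        (CovZ.n1 (-7040, 28480) (by decide +kernel)
         (CovZ.badM (by decide +kernel))
         (CovZ.badM (by decide +kernel))))))
     (CovZ.n1 (-5760, 28800) (by decide +kernel)
      (CovZ.n2 (-5760, 28160) (by decide +kernel)
       (CovZ.n2 (-6080, 28480) (by decide +kernel)
        (CovZ.n2 (-5760, 28480) (by decide +kernel)
         (CovZ.badM (by decide +kernel))
         (CovZ.badM (by decide +kernel)))
        (CovZ.badM (by decide +kernel)))
       (CovZ.n1 (-5440, 28480) (by decide +kernel)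
        (CovZ.badM (by decide +kernel))
        (CovZ.n1 (-5760, 28480) (by decide +kernel)
         (CovZ.badM (by decide +kernel))
         (CovZ.badM (by decide +kernel)))))
      (CovZ.n1 (-6400, 28800) (by decide +kernel)
       (CovZ.badM (by decide +kernel))
       (CovZ.n1 (-6080, 28480) (by decide +kernel)
        (CovZ.n2 (-6400, 28480) (by decide +kernel)
         (CovZ.badM (by decide +kernel))
         (CovZ.badM (by decide +kernel)))
        (CovZ.badM (by decide +kernel))))))))
    (CovZ.topM TE_LL 2854495385411919762116571938898990272765493248 (by decide +kernel) (CovZ.n0 (-6400, 29440) (by decide +kernel)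
    (CovZ.n2 (-7680, 29440) (by decide +kernel)
     (CovZ.badM (by decide +kernel))
     (CovZ.n1 (-7040, 28800) (by decide +kernel)
      (CovZ.n2 (-7680, 28800) (by decide +kernel)
       (CovZ.badM (by decide +kernel))
       (CovZ.n1 (-7360, 28480) (by decide +kernel)
        (CovZ.badM (by decide +kernel))
        (CovZ.badM (by decide +kernel))))
      (CovZ.badM (by decide +kernel))))
    (CovZ.badM (by decide +kernel))))

theorem TE_s2_6 : SqZ TE_M TE_L [0, 7, 6, 1] (-10240) 12800 2560 2 6 :=
  SqZ.mk (a := (-5120)) (b := (-2560)) (c := 28160) (d := 30720) (by norm_num) (by norm_num) (by norm_num) (by norm_num)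
    (CovZ.topM TE_LL 12259964329960012213868239038704650487164890899955056640 (by decide +kernel) (CovZ.n2 (-3840, 29440) (by decide +kernel)
    (CovZ.n2 (-2560, 29440) (by decide +kernel)
     (CovZ.n2 (-3200, 28800) (by decide +kernel)
      (CovZ.badM (by decide +kernel))
      (CovZ.n1 (-2560, 28800) (by decide +kernel)
       (CovZ.n2 (-2880, 28480) (by decide +kernel)
        (CovZ.badM (by decide +kernel))
        (CovZ.n1 (-2560, 28480) (by decide +kernel)
         (CovZ.n2 (-2720, 28320) (by decide +kernel)
          (CovZ.badM (by decide +kernel))
          (CovZ.n1 (-2560, 28320) (by decide +kernel)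
           (CovZ.badM (by decide +kernel))
           (CovZ.badM (by decide +kernel))))
         (CovZ.badM (by decide +kernel))))
       (CovZ.badM (by decide +kernel))))
     (CovZ.n1 (-3200, 30080) (by decide +kernel)
      (CovZ.n2 (-2560, 30080) (by decide +kernel)
       (CovZ.badM (by decide +kernel))
       (CovZ.badM (by decide +kernel)))
      (CovZ.badM (by decide +kernel))))
    (CovZ.n1 (-3840, 28160) (by decide +kernel)
     (CovZ.n2 (-4480, 28800) (by decide +kernel)
      (CovZ.n2 (-3840, 28800) (by decide +kernel)
       (CovZ.n2 (-4160, 28480) (by decide +kernel)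
        (CovZ.badM (by decide +kernel))
        (CovZ.n1 (-3840, 28480) (by decide +kernel)
         (CovZ.badM (by decide +kernel))
         (CovZ.badM (by decide +kernel))))
       (CovZ.badM (by decide +kernel)))
      (CovZ.n1 (-4480, 28160) (by decide +kernel)
       (CovZ.n2 (-4800, 28480) (by decide +kernel)
        (CovZ.n2 (-4480, 28480) (by decide +kernel)
         (CovZ.badM (by decide +kernel))
         (CovZ.badM (by decide +kernel)))
        (CovZ.badM (by decide +kernel)))
       (CovZ.n1 (-4160, 28480) (by decide +kernel)
        (CovZ.badM (by decide +kernel))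
        (CovZ.n1 (-4480, 28480) (by decide +kernel)
         (CovZ.badM (by decide +kernel))
         (CovZ.badM (by decide +kernel))))))
     (CovZ.n1 (-3200, 28800) (by decide +kernel)
      (CovZ.n2 (-3200, 28160) (by decide +kernel)
       (CovZ.n2 (-3520, 28480) (by decide +kernel)
        (CovZ.n2 (-3200, 28480) (by decide +kernel)
         (CovZ.n2 (-3360, 28320) (by decide +kernel)
          (CovZ.badM (by decide +kernel))
          (CovZ.n1 (-3200, 28320) (by decide +kernel)
           (CovZ.badM (by decide +kernel))
           (CovZ.badM (by decide +kernel))))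
         (CovZ.badM (by decide +kernel)))
        (CovZ.n1 (-3520, 28160) (by decide +kernel)
         (CovZ.n2 (-3680, 28320) (by decide +kernel)
          (CovZ.n2 (-3520, 28320) (by decide +kernel)
           (CovZ.badM (by decide +kernel))
           (CovZ.badM (by decide +kernel)))
          (CovZ.badM (by decide +kernel)))
         (CovZ.n1 (-3360, 28320) (by decide +kernel)
          (CovZ.badM (by decide +kernel))
          (CovZ.n1 (-3520, 28320) (by decide +kernel)
           (CovZ.badM (by decide +kernel))
           (CovZ.badM (by decide +kernel))))))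
       (CovZ.n1 (-2880, 28480) (by decide +kernel)
        (CovZ.n2 (-2880, 28160) (by decide +kernel)
         (CovZ.n2 (-3040, 28320) (by decide +kernel)
          (CovZ.n2 (-2880, 28320) (by decide +kernel)
           (CovZ.badM (by decide +kernel))
           (CovZ.badM (by decide +kernel)))
          (CovZ.badM (by decide +kernel)))
         (CovZ.n1 (-2720, 28320) (by decide +kernel)
          (CovZ.badM (by decide +kernel))
          (CovZ.n1 (-2880, 28320) (by decide +kernel)
           (CovZ.badM (by decide +kernel))
           (CovZ.badM (by decide +kernel)))))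
        (CovZ.n1 (-3200, 28480) (by decide +kernel)
         (CovZ.badM (by decide +kernel))
         (CovZ.n1 (-3040, 28320) (by decide +kernel)
          (CovZ.n2 (-3200, 28320) (by decide +kernel)
           (CovZ.badM (by decide +kernel))
           (CovZ.badM (by decide +kernel)))
          (CovZ.badM (by decide +kernel))))))
      (CovZ.n1 (-3840, 28800) (by decide +kernel)
       (CovZ.badM (by decide +kernel))
       (CovZ.n1 (-3520, 28480) (by decide +kernel)
        (CovZ.n2 (-3840, 28480) (by decide +kernel)
         (CovZ.badM (by decide +kernel))
         (CovZ.n1 (-3680, 28320) (by decide +kernel)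
          (CovZ.badM (by decide +kernel))
          (CovZ.badM (by decide +kernel))))
        (CovZ.badM (by decide +kernel))))))))
    (CovZ.topM TE_LL 3032901347000164747248857685080177164813336576 (by decide +kernel) (CovZ.n0 (-3840, 29440) (by decide +kernel)
    (CovZ.n2 (-5120, 29440) (by decide +kernel)
     (CovZ.badM (by decide +kernel))
     (CovZ.n1 (-4480, 28800) (by decide +kernel)
      (CovZ.n2 (-5120, 28800) (by decide +kernel)
       (CovZ.badM (by decide +kernel))
       (CovZ.n1 (-4800, 28480) (by decide +kernel)
        (CovZ.n2 (-5120, 28480) (by decide +kernel)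
         (CovZ.badM (by decide +kernel))
         (CovZ.badM (by decide +kernel)))
        (CovZ.badM (by decide +kernel))))
      (CovZ.badM (by decide +kernel))))
    (CovZ.n1 (-3840, 30720) (by decide +kernel)
     (CovZ.n2 (-3200, 30080) (by decide +kernel)
      (CovZ.badM (by decide +kernel))
      (CovZ.badM (by decide +kernel)))
     (CovZ.badM (by decide +kernel)))))

theorem TE_s3_6 : SqZ TE_M TE_L [0, 7, 6, 1] (-10240) 12800 2560 3 6 :=
  SqZ.mk (a := (-2560)) (b := 0) (c := 28160) (d := 30720) (by norm_num) (by norm_num) (by norm_num) (by norm_num)
    (CovZ.topM TE_LL 19460602686937458086461561963094604122717681885818062297366534 (by decide +kernel) (CovZ.n2 (-1280, 29440) (by decide +kernel)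
    (CovZ.n2 (0, 29440) (by decide +kernel)
     (CovZ.n2 (-640, 28800) (by decide +kernel)
      (CovZ.subM 19308382178717801098605198583310805006816101612541314643001350 (by decide +kernel)
       (CovZ.n2 (-640, 29440) (by decide +kernel)
        (CovZ.n2 (-320, 29120) (by decide +kernel)
         (CovZ.n2 (-640, 29120) (by decide +kernel)
          (CovZ.n2 (-480, 29280) (by decide +kernel)
           (CovZ.leaf K2_ok TE_l1478 _)
           (CovZ.leaf K2_ok TE_l1479 _))
          (CovZ.n1 (-480, 28960) (by decide +kernel)
           (CovZ.leaf K2_ok TE_l1480 _)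
           (CovZ.leaf K2_ok TE_l1481 _)))
         (CovZ.n1 (-320, 29440) (by decide +kernel)
          (CovZ.n2 (-160, 29280) (by decide +kernel)
           (CovZ.leaf K2_ok TE_l1482 _)
           (CovZ.leaf K2_ok TE_l1483 _))
          (CovZ.n1 (-480, 29280) (by decide +kernel)
           (CovZ.leaf K2_ok TE_l1484 _)
           (CovZ.leaf K2_ok TE_l1485 _))))
        (CovZ.n1 (-960, 29120) (by decide +kernel)
         (CovZ.n2 (-960, 29440) (by decide +kernel)
          (CovZ.n2 (-800, 29280) (by decide +kernel)
           (CovZ.leaf K2_ok TE_l1486 _)
           (CovZ.leaf K2_ok TE_l1487 _))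
          (CovZ.n1 (-1120, 29280) (by decide +kernel)
           (CovZ.leaf K2_ok TE_l1488 _)
           (CovZ.leaf K2_ok TE_l1489 _)))
         (CovZ.n1 (-640, 29120) (by decide +kernel)
          (CovZ.n2 (-800, 28960) (by decide +kernel)
           (CovZ.leaf K2_ok TE_l1490 _)
           (CovZ.leaf K2_ok TE_l1491 _))
          (CovZ.n1 (-800, 29280) (by decide +kernel)
           (CovZ.leaf K2_ok TE_l1492 _)
           (CovZ.leaf K2_ok TE_l1493 _))))))
      (CovZ.n1 (0, 28800) (by decide +kernel)
       (CovZ.subM 25122582526033939961478239039362683626074879695918337097732 (by decide +kernel)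
        (CovZ.n2 (-320, 28480) (by decide +kernel)
         (CovZ.n2 (-320, 28800) (by decide +kernel)
          (CovZ.n2 (-160, 28640) (by decide +kernel)
           (CovZ.n2 (-320, 28640) (by decide +kernel)
            (CovZ.leaf K2_ok TE_l1494 _)
            (CovZ.leaf K2_ok TE_l1495 _))
           (CovZ.n1 (-160, 28800) (by decide +kernel)
            (CovZ.leaf K2_ok TE_l1496 _)
            (CovZ.leaf K2_ok TE_l1497 _)))
          (CovZ.n1 (-480, 28640) (by decide +kernel)
           (CovZ.n2 (-480, 28800) (by decide +kernel)
            (CovZ.leaf K2_ok TE_l1498 _)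
            (CovZ.leaf K2_ok TE_l1499 _))
           (CovZ.n1 (-320, 28640) (by decide +kernel)
            (CovZ.n2 (-400, 28560) (by decide +kernel)
             (CovZ.leaf K2_ok TE_l1500 _)
             (CovZ.leaf K2_ok TE_l1501 _))
            (CovZ.leaf K2_ok TE_l1502 _))))
         (CovZ.n1 (0, 28480) (by decide +kernel)
          (CovZ.n2 (-160, 28320) (by decide +kernel)
           (CovZ.n2 (-160, 28480) (by decide +kernel)
            (CovZ.leaf K2_ok TE_l1503 _)
            (CovZ.n1 (-240, 28400) (by decide +kernel)
             (CovZ.leaf K2_ok TE_l1504 _)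
             (CovZ.leaf K2_ok TE_l1505 _)))
           (CovZ.n1 (0, 28320) (by decide +kernel)
            (CovZ.n2 (-80, 28240) (by decide +kernel)
             (CovZ.leaf K2_ok TE_l1506 _)
             (CovZ.leaf K2_ok TE_l1507 _))
            (CovZ.leaf K2_ok TE_l1508 _)))
          (CovZ.n1 (-160, 28640) (by decide +kernel)
           (CovZ.n2 (0, 28640) (by decide +kernel)
            (CovZ.n2 (-80, 28560) (by decide +kernel)
             (CovZ.leaf K2_ok TE_l1509 _)
             (CovZ.leaf K2_ok TE_l1510 _))
            (CovZ.leaf K2_ok TE_l1511 _))
           (CovZ.n1 (-160, 28480) (by decide +kernel)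
            (CovZ.leaf K2_ok TE_l1512 _)
            (CovZ.n1 (-80, 28560) (by decide +kernel)
             (CovZ.leaf K2_ok TE_l1513 _)
             (CovZ.leaf K2_ok TE_l1514 _)))))))
       (CovZ.n1 (-320, 29120) (by decide +kernel)
        (CovZ.n2 (0, 29120) (by decide +kernel)
         (CovZ.n2 (-160, 28960) (by decide +kernel)
          (CovZ.leaf K2_ok TE_l1515 _)
          (CovZ.leaf K2_ok TE_l1516 _))
         (CovZ.n1 (-160, 29280) (by decide +kernel)
          (CovZ.leaf K2_ok TE_l1517 _)
          (CovZ.leaf K2_ok TE_l1518 _)))
        (CovZ.subM 25125647610648922032987321816689438703813886951588341219332 (by decide +kernel)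
         (CovZ.n1 (-320, 28800) (by decide +kernel)
          (CovZ.n2 (-480, 28960) (by decide +kernel)
           (CovZ.leaf K2_ok TE_l1519 _)
           (CovZ.leaf K2_ok TE_l1520 _))
          (CovZ.n1 (-160, 28960) (by decide +kernel)
           (CovZ.leaf K2_ok TE_l1521 _)
           (CovZ.leaf K2_ok TE_l1522 _)))))))
     (CovZ.n1 (-640, 30080) (by decide +kernel)
      (CovZ.n2 (0, 30080) (by decide +kernel)
       (CovZ.n2 (-320, 29760) (by decide +kernel)
        (CovZ.n2 (-320, 30080) (by decide +kernel)
         (CovZ.leaf K2_ok TE_l1523 _)
         (CovZ.n1 (-480, 29920) (by decide +kernel)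
          (CovZ.leaf K2_ok TE_l1524 _)
          (CovZ.leaf K2_ok TE_l1525 _)))
        (CovZ.n1 (0, 29760) (by decide +kernel)
         (CovZ.n2 (-160, 29600) (by decide +kernel)
          (CovZ.leaf K2_ok TE_l1526 _)
          (CovZ.leaf K2_ok TE_l1527 _))
         (CovZ.leaf K2_ok TE_l1528 _)))
       (CovZ.n1 (-320, 30400) (by decide +kernel)
        (CovZ.n2 (0, 30400) (by decide +kernel)
         (CovZ.n2 (-160, 30240) (by decide +kernel)
          (CovZ.leaf K2_ok TE_l1529 _)
          (CovZ.leaf K2_ok TE_l1530 _))
         (CovZ.leaf K2_ok TE_l1531 _))
        (CovZ.n1 (-320, 30080) (by decide +kernel)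
         (CovZ.leaf K2_ok TE_l1532 _)
         (CovZ.n1 (-160, 30240) (by decide +kernel)
          (CovZ.leaf K2_ok TE_l1533 _)
          (CovZ.leaf K2_ok TE_l1534 _)))))
      (CovZ.subM 19308382202663135268487042518136373466509981566658721362214918 (by decide +kernel)
       (CovZ.n1 (-640, 29440) (by decide +kernel)
        (CovZ.n2 (-960, 29760) (by decide +kernel)
         (CovZ.n2 (-640, 29760) (by decide +kernel)
          (CovZ.n2 (-800, 29600) (by decide +kernel)
           (CovZ.leaf K2_ok TE_l1535 _)
           (CovZ.leaf K2_ok TE_l1536 _))
          (CovZ.leaf K2_ok TE_l1537 _))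
         (CovZ.subM 12855506269784884614493420730276587052404252813534392492228612 (by decide +kernel)
          (CovZ.n1 (-960, 29440) (by decide +kernel)
           (CovZ.n2 (-1120, 29600) (by decide +kernel)
            (CovZ.leaf K2_ok TE_l1538 _)
            (CovZ.leaf K2_ok TE_l1539 _))
           (CovZ.n1 (-800, 29600) (by decide +kernel)
            (CovZ.leaf K2_ok TE_l1540 _)
            (CovZ.leaf K2_ok TE_l1541 _)))))
        (CovZ.n1 (-320, 29760) (by decide +kernel)
         (CovZ.n2 (-320, 29440) (by decide +kernel)
          (CovZ.n2 (-480, 29600) (by decide +kernel)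
           (CovZ.leaf K2_ok TE_l1542 _)
           (CovZ.leaf K2_ok TE_l1543 _))
          (CovZ.n1 (-160, 29600) (by decide +kernel)
           (CovZ.leaf K2_ok TE_l1544 _)
           (CovZ.leaf K2_ok TE_l1545 _)))
         (CovZ.n1 (-640, 29760) (by decide +kernel)
          (CovZ.n2 (-480, 29920) (by decide +kernel)
           (CovZ.leaf K2_ok TE_l1546 _)
           (CovZ.leaf K2_ok TE_l1547 _))
          (CovZ.n1 (-480, 29600) (by decide +kernel)
           (CovZ.leaf K2_ok TE_l1548 _)
           (CovZ.leaf K2_ok TE_l1549 _))))))))
    (CovZ.subM 25125647522961678288518569028823872897126092573249734967296 (by decide +kernel)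
     (CovZ.n1 (-1280, 28160) (by decide +kernel)
      TE_u109
      TE_u110))))
    (CovZ.topM TE_LL 19309949180290518879871128705997631221070158803893069274939396 (by decide +kernel) (CovZ.n0 (-1280, 29440) (by decide +kernel)
    (CovZ.subM 12855518146625329135025949413132621731692829180111457792032768 (by decide +kernel)
     (CovZ.n2 (-2560, 29440) (by decide +kernel)
      (CovZ.n2 (-1920, 30080) (by decide +kernel)
       (CovZ.n2 (-1920, 29440) (by decide +kernel)
        (CovZ.n2 (-2240, 29760) (by decide +kernel)
         (CovZ.n2 (-1920, 29760) (by decide +kernel)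
          (CovZ.badM (by decide +kernel))
          (CovZ.badM (by decide +kernel)))
         (CovZ.badM (by decide +kernel)))
        (CovZ.n1 (-1600, 29760) (by decide +kernel)
         (CovZ.n2 (-1600, 29440) (by decide +kernel)
          (CovZ.subM 178405964247999050916751217342677710400389120 (by decide +kernel)
           (CovZ.n2 (-1760, 29600) (by decide +kernel)
            (CovZ.n2 (-1600, 29600) (by decide +kernel)
             (CovZ.n2 (-1680, 29520) (by decide +kernel)
              (CovZ.n2 (-1680, 29600) (by decide +kernel)
               (CovZ.n2 (-1640, 29560) (by decide +kernel)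
                (CovZ.badM (by decide +kernel))
                (CovZ.leaf K2_ok TE_l19581 _))
               (CovZ.badM (by decide +kernel)))
              (CovZ.n1 (-1600, 29520) (by decide +kernel)
               (CovZ.badM (by decide +kernel))
               (CovZ.n1 (-1640, 29560) (by decide +kernel)
                (CovZ.leaf K2_ok TE_l17114 _)
                (CovZ.badM (by decide +kernel)))))
             (CovZ.n1 (-1680, 29680) (by decide +kernel)
              (CovZ.n2 (-1600, 29680) (by decide +kernel)
               (CovZ.badM (by decide +kernel))
               (CovZ.n1 (-1640, 29720) (by decide +kernel)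
                (CovZ.leaf K2_ok TE_l1767 _)
                (CovZ.badM (by decide +kernel))))
              (CovZ.n1 (-1680, 29600) (by decide +kernel)
               (CovZ.n2 (-1720, 29640) (by decide +kernel)
                (CovZ.badM (by decide +kernel))
                (CovZ.badM (by decide +kernel)))
               (CovZ.badM (by decide +kernel)))))
            (CovZ.badM (by decide +kernel))))
          (CovZ.subM 1532495541044294819950486314154658583232405631041273856 (by decide +kernel)
           (CovZ.n1 (-1440, 29600) (by decide +kernel)
            (CovZ.n2 (-1440, 29440) (by decide +kernel)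
             (CovZ.n2 (-1520, 29520) (by decide +kernel)
              (CovZ.leaf K2_ok TE_l1769 _)
              (CovZ.n1 (-1520, 29440) (by decide +kernel)
               (CovZ.leaf K2_ok TE_l1770 _)
               (CovZ.leaf K2_ok TE_l1771 _)))
             (CovZ.n1 (-1360, 29520) (by decide +kernel)
              (CovZ.leaf K3_ok TE_l1772 _)
              (CovZ.leaf K2_ok TE_l1773 _)))
            (CovZ.n1 (-1600, 29600) (by decide +kernel)
             (CovZ.n2 (-1520, 29680) (by decide +kernel)
              (CovZ.n2 (-1520, 29600) (by decide +kernel)
               (CovZ.leaf K2_ok TE_l1774 _)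
               (CovZ.leaf K2_ok TE_l1775 _))
              (CovZ.n1 (-1600, 29680) (by decide +kernel)
               (CovZ.leaf K2_ok TE_l1776 _)
               (CovZ.leaf K2_ok TE_l1777 _)))
             (CovZ.n1 (-1520, 29520) (by decide +kernel)
              (CovZ.n2 (-1600, 29520) (by decide +kernel)
               (CovZ.n2 (-1560, 29560) (by decide +kernel)
                (CovZ.leaf K2_ok TE_l1778 _)
                (CovZ.leaf K2_ok TE_l1779 _))
               (CovZ.leaf K2_ok TE_l1780 _))
              (CovZ.n1 (-1520, 29600) (by decide +kernel)
               (CovZ.leaf K2_ok TE_l1781 _)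
               (CovZ.leaf K2_ok TE_l1782 _)))))))
         (CovZ.subM 178405964246700976702117510435545086318084096 (by decide +kernel)
          (CovZ.n1 (-1920, 29760) (by decide +kernel)
           (CovZ.n2 (-1760, 29920) (by decide +kernel)
            (CovZ.n2 (-1760, 29760) (by decide +kernel)
             (CovZ.badM (by decide +kernel))
             (CovZ.n1 (-1680, 29840) (by decide +kernel)
              (CovZ.n2 (-1680, 29760) (by decide +kernel)
               (CovZ.badM (by decide +kernel))
               (CovZ.n1 (-1640, 29800) (by decide +kernel)
                (CovZ.leaf K2_ok TE_l1783 _)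
                (CovZ.badM (by decide +kernel))))
              (CovZ.badM (by decide +kernel))))
            (CovZ.badM (by decide +kernel)))
           (CovZ.n1 (-1760, 29600) (by decide +kernel)
            (CovZ.badM (by decide +kernel))
            (CovZ.n1 (-1760, 29760) (by decide +kernel)
             (CovZ.n2 (-1680, 29680) (by decide +kernel)
              (CovZ.n2 (-1760, 29680) (by decide +kernel)
               (CovZ.badM (by decide +kernel))
               (CovZ.n1 (-1720, 29640) (by decide +kernel)
                (CovZ.badM (by decide +kernel))
                (CovZ.badM (by decide +kernel))))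
              (CovZ.n1 (-1680, 29760) (by decide +kernel)
               (CovZ.n2 (-1640, 29720) (by decide +kernel)
                (CovZ.badM (by decide +kernel))
                (CovZ.leaf K2_ok TE_l1785 _))
               (CovZ.badM (by decide +kernel))))
             (CovZ.n1 (-1840, 29680) (by decide +kernel)
              (CovZ.badM (by decide +kernel))
              (CovZ.n1 (-1760, 29680) (by decide +kernel)
               (CovZ.badM (by decide +kernel))
               (CovZ.badM (by decide +kernel))))))))))
       (CovZ.n1 (-2560, 30080) (by decide +kernel)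
        (CovZ.badM (by decide +kernel))
        (CovZ.n1 (-2240, 29760) (by decide +kernel)
         (CovZ.badM (by decide +kernel))
         (CovZ.badM (by decide +kernel)))))
      (CovZ.n1 (-1920, 28800) (by decide +kernel)
       (CovZ.subM 2854495385411919762155257565126658406356090880 (by decide +kernel)
        (CovZ.n2 (-2560, 28800) (by decide +kernel)
         (CovZ.n2 (-2240, 29120) (by decide +kernel)
          (CovZ.badM (by decide +kernel))
          (CovZ.badM (by decide +kernel)))
         (CovZ.n1 (-2240, 28480) (by decide +kernel)
          (CovZ.n2 (-2560, 28480) (by decide +kernel)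
           (CovZ.badM (by decide +kernel))
           (CovZ.n1 (-2400, 28320) (by decide +kernel)
            (CovZ.n2 (-2560, 28320) (by decide +kernel)
             (CovZ.badM (by decide +kernel))
             (CovZ.badM (by decide +kernel)))
            (CovZ.badM (by decide +kernel))))
          (CovZ.badM (by decide +kernel)))))
       (CovZ.n1 (-1920, 29440) (by decide +kernel)
        (CovZ.n2 (-1600, 29120) (by decide +kernel)
         (CovZ.n2 (-1920, 29120) (by decide +kernel)
          (CovZ.badM (by decide +kernel))
          (CovZ.n1 (-1760, 28960) (by decide +kernel)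
           (CovZ.badM (by decide +kernel))
           (CovZ.badM (by decide +kernel))))
         (CovZ.n1 (-1600, 29440) (by decide +kernel)
          (CovZ.n2 (-1440, 29280) (by decide +kernel)
           (CovZ.subM 2661052219227261673886217030988726272 (by decide +kernel)
            (CovZ.n2 (-1600, 29280) (by decide +kernel)
             (CovZ.n2 (-1520, 29360) (by decide +kernel)
              (CovZ.n2 (-1520, 29280) (by decide +kernel)
               (CovZ.n2 (-1560, 29320) (by decide +kernel)
                (CovZ.leaf K3_ok TE_l1786 _)
                (CovZ.leaf K3_ok TE_l17115 _))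
               (CovZ.leaf K2_ok TE_l1787 _))
              (CovZ.n1 (-1600, 29360) (by decide +kernel)
               (CovZ.n2 (-1560, 29400) (by decide +kernel)
                (CovZ.leaf K2_ok TE_l1788 _)
                (CovZ.leaf K2_ok TE_l17116 _))
               (CovZ.n1 (-1560, 29320) (by decide +kernel)
                (CovZ.leaf K3_ok TE_l17117 _)
                (CovZ.leaf K2_ok TE_l1789 _))))
             (CovZ.n1 (-1520, 29200) (by decide +kernel)
              (CovZ.n2 (-1600, 29200) (by decide +kernel)
               (CovZ.n2 (-1560, 29240) (by decide +kernel)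
                (CovZ.leaf K3_ok TE_l17118 _)
                (CovZ.badM (by decide +kernel)))
               (CovZ.n1 (-1560, 29160) (by decide +kernel)
                (CovZ.badM (by decide +kernel))
                (CovZ.leaf K3_ok TE_l17119 _)))
              (CovZ.n1 (-1520, 29280) (by decide +kernel)
               (CovZ.leaf K3_ok TE_l1790 _)
               (CovZ.n1 (-1560, 29240) (by decide +kernel)
                (CovZ.leaf K3_ok TE_l1791 _)
                (CovZ.leaf K3_ok TE_l1792 _))))))
           (CovZ.n1 (-1440, 29440) (by decide +kernel)
            (CovZ.leaf K3_ok TE_l1793 _)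
            (CovZ.subM 2661052219227261692332961104698277888 (by decide +kernel)
             (CovZ.n1 (-1520, 29360) (by decide +kernel)
              (CovZ.n2 (-1520, 29440) (by decide +kernel)
               (CovZ.leaf K2_ok TE_l1794 _)
               (CovZ.n1 (-1560, 29400) (by decide +kernel)
                (CovZ.leaf K2_ok TE_l1795 _)
                (CovZ.leaf K2_ok TE_l1796 _)))
              (CovZ.leaf K2_ok TE_l1797 _)))))
          (CovZ.badM (by decide +kernel))))
        (CovZ.n1 (-2240, 29120) (by decide +kernel)
         (CovZ.badM (by decide +kernel))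
         (CovZ.n1 (-1920, 29120) (by decide +kernel)
          (CovZ.badM (by decide +kernel))
          (CovZ.badM (by decide +kernel))))))))
    (CovZ.n1 (-1280, 30720) (by decide +kernel)
     (CovZ.n2 (-640, 30080) (by decide +kernel)
      (CovZ.subM 19283258470767641343578956199428792001096823740560436168228868 (by decide +kernel)
       (CovZ.n2 (-1280, 30080) (by decide +kernel)
        (CovZ.n2 (-960, 30400) (by decide +kernel)
         (CovZ.n2 (-960, 30080) (by decide +kernel)
          (CovZ.n2 (-1120, 30240) (by decide +kernel)
           (CovZ.leaf K2_ok TE_l1798 _)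
           (CovZ.leaf K2_ok TE_l1799 _))
          (CovZ.n1 (-800, 30240) (by decide +kernel)
           (CovZ.leaf K2_ok TE_l1800 _)
           (CovZ.leaf K2_ok TE_l1801 _)))
         (CovZ.n1 (-1280, 30400) (by decide +kernel)
          (CovZ.n2 (-1120, 30560) (by decide +kernel)
           (CovZ.leaf K2_ok TE_l1802 _)
           (CovZ.leaf K2_ok TE_l1803 _))
          (CovZ.leaf K2_ok TE_l1804 _)))
        (CovZ.n1 (-960, 29760) (by decide +kernel)
         (CovZ.n2 (-1280, 29760) (by decide +kernel)
          (CovZ.n2 (-1120, 29920) (by decide +kernel)
           (CovZ.leaf K2_ok TE_l1805 _)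
           (CovZ.leaf K2_ok TE_l1806 _))
          (CovZ.n1 (-1120, 29600) (by decide +kernel)
           (CovZ.leaf K2_ok TE_l1807 _)
           (CovZ.leaf K2_ok TE_l1808 _)))
         (CovZ.n1 (-960, 30080) (by decide +kernel)
          (CovZ.leaf K2_ok TE_l1809 _)
          (CovZ.n1 (-1120, 29920) (by decide +kernel)
           (CovZ.leaf K2_ok TE_l1810 _)
           (CovZ.leaf K2_ok TE_l1811 _))))))
      (CovZ.n1 (-640, 30720) (by decide +kernel)
       (CovZ.n2 (-320, 30400) (by decide +kernel)
        (CovZ.n2 (-640, 30400) (by decide +kernel)
         (CovZ.n2 (-480, 30560) (by decide +kernel)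
          (CovZ.leaf K2_ok TE_l1812 _)
          (CovZ.leaf K2_ok TE_l1813 _))
         (CovZ.leaf K2_ok TE_l1814 _))
        (CovZ.n1 (-320, 30720) (by decide +kernel)
         (CovZ.leaf K2_ok TE_l1815 _)
         (CovZ.leaf K2_ok TE_l1816 _)))
       (CovZ.subM 19284827746388560044964129738199448670398018505186367097536516 (by decide +kernel)
        (CovZ.n1 (-960, 30400) (by decide +kernel)
         (CovZ.n2 (-960, 30720) (by decide +kernel)
          (CovZ.leaf K2_ok TE_l1817 _)
          (CovZ.n1 (-1120, 30560) (by decide +kernel)
           (CovZ.leaf K2_ok TE_l1818 _)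
           (CovZ.leaf K2_ok TE_l1819 _)))
         (CovZ.n1 (-640, 30400) (by decide +kernel)
          (CovZ.n2 (-800, 30240) (by decide +kernel)
           (CovZ.leaf K2_ok TE_l1820 _)
           (CovZ.leaf K2_ok TE_l1821 _))
          (CovZ.leaf K2_ok TE_l1822 _))))))
     (CovZ.subM 19283258087643756127106720342194102654864380783341973658402820 (by decide +kernel)
      (CovZ.n1 (-1920, 30080) (by decide +kernel)
       TE_u111
       TE_u112)))))

theorem TE_s4_6 : SqZ TE_M TE_L [0, 7, 6, 1] (-10240) 12800 2560 4 6 :=
  SqZ.mk (a := 0) (b := 2560) (c := 28160) (d := 30720) (by norm_num) (by norm_num) (by norm_num) (by norm_num)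
    (CovZ.topM TE_LL 23491538020451331505232285491076838193574585194570473231360198 (by decide +kernel) (CovZ.n2 (1280, 29440) (by decide +kernel)
    TE_u125
    TE_u126))
    (CovZ.topM TE_LL 23491538018942696348061957774290781996880847323901004005507142 (by decide +kernel) (CovZ.n0 (1280, 29440) (by decide +kernel)
    TE_u127
    TE_u128))

theorem TE_s5_6 : SqZ TE_M TE_L [0, 7, 6, 1] (-10240) 12800 2560 5 6 :=
  SqZ.mk (a := 2560) (b := 5120) (c := 28160) (d := 30720) (by norm_num) (by norm_num) (by norm_num) (by norm_num)
    (CovZ.topM TE_LL 15878676819154835014594947009860502913140854640962389552607152 (by decide +kernel) (CovZ.n2 (3840, 29440) (by decide +kernel)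
    (CovZ.subM 2011909185906049456365915428171642136769982803041402233030144 (by decide +kernel)
     (CovZ.n2 (5120, 29440) (by decide +kernel)
      (CovZ.n2 (4480, 28800) (by decide +kernel)
       (CovZ.subM 3138550867693340381917894711603833208051177722232017256960 (by decide +kernel)
        (CovZ.n2 (4480, 29440) (by decide +kernel)
         (CovZ.n2 (4800, 29120) (by decide +kernel)
          (CovZ.n2 (4480, 29120) (by decide +kernel)
           (CovZ.n2 (4640, 29280) (by decide +kernel)
            (CovZ.n2 (4640, 29120) (by decide +kernel)
             (CovZ.badM (by decide +kernel))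
             (CovZ.n1 (4720, 29200) (by decide +kernel)
              (CovZ.badM (by decide +kernel))
              (CovZ.badM (by decide +kernel))))
            (CovZ.badM (by decide +kernel)))
           (CovZ.n1 (4640, 28960) (by decide +kernel)
            (CovZ.n2 (4480, 28960) (by decide +kernel)
             (CovZ.n2 (4560, 29040) (by decide +kernel)
              (CovZ.badM (by decide +kernel))
              (CovZ.n1 (4480, 29040) (by decide +kernel)
               (CovZ.badM (by decide +kernel))
               (CovZ.badM (by decide +kernel))))
             (CovZ.badM (by decide +kernel)))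
            (CovZ.n1 (4640, 29120) (by decide +kernel)
             (CovZ.badM (by decide +kernel))
             (CovZ.n1 (4560, 29040) (by decide +kernel)
              (CovZ.badM (by decide +kernel))
              (CovZ.badM (by decide +kernel))))))
          (CovZ.n1 (4800, 29440) (by decide +kernel)
           (CovZ.n2 (4960, 29280) (by decide +kernel)
            (CovZ.n2 (4800, 29280) (by decide +kernel)
             (CovZ.n2 (4880, 29360) (by decide +kernel)
              (CovZ.badM (by decide +kernel))
              (CovZ.badM (by decide +kernel)))
             (CovZ.badM (by decide +kernel)))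
            (CovZ.n1 (4960, 29440) (by decide +kernel)
             (CovZ.badM (by decide +kernel))
             (CovZ.n1 (4880, 29360) (by decide +kernel)
              (CovZ.badM (by decide +kernel))
              (CovZ.badM (by decide +kernel)))))
           (CovZ.n1 (4640, 29280) (by decide +kernel)
            (CovZ.badM (by decide +kernel))
            (CovZ.n1 (4800, 29280) (by decide +kernel)
             (CovZ.n2 (4720, 29200) (by decide +kernel)
              (CovZ.badM (by decide +kernel))
              (CovZ.badM (by decide +kernel)))
             (CovZ.badM (by decide +kernel))))))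
         (CovZ.n1 (4160, 29120) (by decide +kernel)
          (CovZ.badM (by decide +kernel))
          (CovZ.n1 (4480, 29120) (by decide +kernel)
           (CovZ.n2 (4320, 28960) (by decide +kernel)
            (CovZ.badM (by decide +kernel))
            (CovZ.n1 (4480, 28960) (by decide +kernel)
             (CovZ.badM (by decide +kernel))
             (CovZ.n1 (4400, 29040) (by decide +kernel)
              (CovZ.n2 (4480, 29040) (by decide +kernel)
               (CovZ.badM (by decide +kernel))
               (CovZ.badM (by decide +kernel)))
              (CovZ.badM (by decide +kernel)))))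
           (CovZ.badM (by decide +kernel))))))
       (CovZ.subM 2008770635038353261488612121499711366573763529837265368908800 (by decide +kernel)
        (CovZ.n1 (5120, 28800) (by decide +kernel)
         (CovZ.n2 (4800, 28480) (by decide +kernel)
          (CovZ.badM (by decide +kernel))
          (CovZ.subM 401832590779362985772425457295028270720533802653175253041152 (by decide +kernel)
           (CovZ.n1 (5120, 28480) (by decide +kernel)
            (CovZ.n2 (4960, 28320) (by decide +kernel)
             (CovZ.n2 (4960, 28480) (by decide +kernel)
              (CovZ.badM (by decide +kernel))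
              (CovZ.n1 (4880, 28400) (by decide +kernel)
               (CovZ.badM (by decide +kernel))
               (CovZ.badM (by decide +kernel))))
             (CovZ.badM (by decide +kernel)))
            (CovZ.badM (by decide +kernel)))))
         (CovZ.badM (by decide +kernel)))))
      (CovZ.badM (by decide +kernel))))
    (CovZ.n1 (3840, 28160) (by decide +kernel)
     (CovZ.n2 (3200, 28800) (by decide +kernel)
      (CovZ.subM 2219347782691817720279221540744079852822810075520636760895120 (by decide +kernel)
       (CovZ.n2 (3840, 28800) (by decide +kernel)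
        (CovZ.n2 (3520, 28480) (by decide +kernel)
         (CovZ.subM 200867255906529621580998056281837108778399423356596519960576 (by decide +kernel)
          (CovZ.n2 (3520, 28800) (by decide +kernel)
           (CovZ.n2 (3680, 28640) (by decide +kernel)
            (CovZ.n2 (3520, 28640) (by decide +kernel)
             (CovZ.badM (by decide +kernel))
             (CovZ.n1 (3600, 28560) (by decide +kernel)
              (CovZ.badM (by decide +kernel))
              (CovZ.badM (by decide +kernel))))
            (CovZ.badM (by decide +kernel)))
           (CovZ.n1 (3360, 28640) (by decide +kernel)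
            (CovZ.badM (by decide +kernel))
            (CovZ.badM (by decide +kernel)))))
         (CovZ.n1 (3840, 28480) (by decide +kernel)
          (CovZ.n2 (3680, 28320) (by decide +kernel)
           TE_u129
           TE_u130)
          (CovZ.subM 3138550867693340381917894711603833208051177862969639829504 (by decide +kernel)
           (CovZ.n1 (3680, 28640) (by decide +kernel)
            (CovZ.n2 (3840, 28640) (by decide +kernel)
             (CovZ.n2 (3760, 28560) (by decide +kernel)
              (CovZ.badM (by decide +kernel))
              (CovZ.n1 (3840, 28560) (by decide +kernel)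
               (CovZ.n2 (3800, 28520) (by decide +kernel)
                (CovZ.n2 (3800, 28560) (by decide +kernel)
                 (CovZ.badM (by decide +kernel))
                 (CovZ.n1 (3780, 28540) (by decide +kernel)
                  (CovZ.badM (by decide +kernel))
                  (CovZ.badM (by decide +kernel))))
                (CovZ.badM (by decide +kernel)))
               (CovZ.badM (by decide +kernel))))
             (CovZ.badM (by decide +kernel)))
            (CovZ.n1 (3680, 28480) (by decide +kernel)
             (CovZ.n2 (3600, 28560) (by decide +kernel)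
              (CovZ.badM (by decide +kernel))
              (CovZ.badM (by decide +kernel)))
             (CovZ.n1 (3760, 28560) (by decide +kernel)
              (CovZ.n2 (3760, 28480) (by decide +kernel)
               (CovZ.n2 (3720, 28520) (by decide +kernel)
                (CovZ.n2 (3760, 28520) (by decide +kernel)
                 (CovZ.n2 (3740, 28500) (by decide +kernel)
                  (CovZ.badM (by decide +kernel))
                  (CovZ.badM (by decide +kernel)))
                 (CovZ.badM (by decide +kernel)))
                (CovZ.n1 (3720, 28480) (by decide +kernel)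
                 (CovZ.badM (by decide +kernel))
                 (CovZ.n1 (3740, 28500) (by decide +kernel)
                  (CovZ.badM (by decide +kernel))
                  (CovZ.badM (by decide +kernel)))))
               (CovZ.n1 (3800, 28520) (by decide +kernel)
                (CovZ.badM (by decide +kernel))
                (CovZ.n1 (3760, 28520) (by decide +kernel)
                 (CovZ.n2 (3780, 28540) (by decide +kernel)
                  (CovZ.badM (by decide +kernel))
                  (CovZ.badM (by decide +kernel)))
                 (CovZ.badM (by decide +kernel)))))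
              (CovZ.badM (by decide +kernel))))))))
        (CovZ.n1 (3520, 29120) (by decide +kernel)
         (CovZ.badM (by decide +kernel))
         (CovZ.n1 (3520, 28800) (by decide +kernel)
          (CovZ.badM (by decide +kernel))
          (CovZ.badM (by decide +kernel))))))
      (CovZ.n1 (3200, 28160) (by decide +kernel)
       (CovZ.n2 (2880, 28480) (by decide +kernel)
        (CovZ.subM 2216209329151410088588960720655699962056990080690667554612400 (by decide +kernel)
         (CovZ.n2 (3200, 28480) (by decide +kernel)
          (CovZ.n2 (3040, 28320) (by decide +kernel)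
           TE_u131
           TE_u132)
          (CovZ.n1 (3040, 28640) (by decide +kernel)
           (CovZ.badM (by decide +kernel))
           (CovZ.n1 (3040, 28480) (by decide +kernel)
            (CovZ.badM (by decide +kernel))
            (CovZ.badM (by decide +kernel))))))
        (CovZ.subM 2216405487107638523124103130522231176977909278289655274415536 (by decide +kernel)
         (CovZ.n1 (2880, 28160) (by decide +kernel)
          (CovZ.subM 402322989376029620074867246414918557653593379301359473403280 (by decide +kernel)
           (CovZ.n2 (2720, 28320) (by decide +kernel)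
            TE_u133
            TE_u134))
          (CovZ.n1 (3040, 28320) (by decide +kernel)
           TE_u135
           TE_u136))))
       (CovZ.subM 2219347880016180425696216809530896426355190230056718986915504 (by decide +kernel)
        (CovZ.n1 (3520, 28480) (by decide +kernel)
         TE_u139
         TE_u140))))
     (CovZ.subM 2018578606499897806768612166675694214377885338010413707636368 (by decide +kernel)
      (CovZ.n1 (4480, 28800) (by decide +kernel)
       (CovZ.n2 (4480, 28160) (by decide +kernel)
        (CovZ.n2 (4160, 28480) (by decide +kernel)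
         TE_u143
         TE_u144)
        (CovZ.n1 (4800, 28480) (by decide +kernel)
         TE_u150
         TE_u151))
       (CovZ.n1 (3840, 28800) (by decide +kernel)
        (CovZ.subM 3138550867693340381917894711603833208051177722232017256960 (by decide +kernel)
         (CovZ.n2 (4160, 29120) (by decide +kernel)
          (CovZ.n2 (4160, 28800) (by decide +kernel)
           (CovZ.badM (by decide +kernel))
           (CovZ.n1 (4320, 28960) (by decide +kernel)
            (CovZ.badM (by decide +kernel))
            (CovZ.badM (by decide +kernel))))
          (CovZ.badM (by decide +kernel))))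
        (CovZ.n1 (4160, 28480) (by decide +kernel)
         (CovZ.n2 (3840, 28480) (by decide +kernel)
          TE_u154
          TE_u155)
         (CovZ.subM 3138550867693340381917894711603834416976997336861191963136 (by decide +kernel)
          (CovZ.n1 (4160, 28800) (by decide +kernel)
           (CovZ.badM (by decide +kernel))
           (CovZ.n1 (4000, 28640) (by decide +kernel)
            (CovZ.n2 (4000, 28800) (by decide +kernel)
             (CovZ.n2 (4080, 28720) (by decide +kernel)
              (CovZ.n2 (4000, 28720) (by decide +kernel)
               (CovZ.badM (by decide +kernel))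
               (CovZ.badM (by decide +kernel)))
              (CovZ.badM (by decide +kernel)))
             (CovZ.n1 (3920, 28720) (by decide +kernel)
              (CovZ.badM (by decide +kernel))
              (CovZ.n1 (4000, 28720) (by decide +kernel)
               (CovZ.n2 (3960, 28680) (by decide +kernel)
                (CovZ.badM (by decide +kernel))
                (CovZ.badM (by decide +kernel)))
               (CovZ.badM (by decide +kernel)))))
            (CovZ.badM (by decide +kernel))))))))))))
    (CovZ.topM TE_LL 23489967404410948571197593961196973923382046976020922119629298 (by decide +kernel) (CovZ.n0 (3840, 29440) (by decide +kernel)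
    (CovZ.n2 (2560, 29440) (by decide +kernel)
     (CovZ.subM 4130354591388890916758255878777367599279556177188155440496706 (by decide +kernel)
      (CovZ.n2 (3200, 30080) (by decide +kernel)
       TE_u166
       TE_u167))
     (CovZ.n1 (3200, 28800) (by decide +kernel)
      (CovZ.n2 (2560, 28800) (by decide +kernel)
       TE_u178
       TE_u179)
      (CovZ.subM 4130354615335595422831036339535111991445306033217944319688770 (by decide +kernel)
       (CovZ.n1 (3200, 29440) (by decide +kernel)
        (CovZ.subM 11963057032666643769051869529335922688 (by decide +kernel)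
         (CovZ.n2 (3520, 29120) (by decide +kernel)
          (CovZ.n2 (3200, 29120) (by decide +kernel)
           (CovZ.n2 (3360, 29280) (by decide +kernel)
            (CovZ.badM (by decide +kernel))
            (CovZ.badM (by decide +kernel)))
           (CovZ.badM (by decide +kernel)))
          (CovZ.n1 (3520, 29440) (by decide +kernel)
           (CovZ.badM (by decide +kernel))
           (CovZ.n1 (3360, 29280) (by decide +kernel)
            (CovZ.badM (by decide +kernel))
            (CovZ.badM (by decide +kernel))))))
        (CovZ.n1 (2880, 29120) (by decide +kernel)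
         (CovZ.n2 (2880, 29440) (by decide +kernel)
          (CovZ.subM 5358937456157834097640728740533108736 (by decide +kernel)
           (CovZ.n2 (3040, 29280) (by decide +kernel)
            TE_u180
            TE_u181))
          (CovZ.n1 (2720, 29280) (by decide +kernel)
           TE_u182
           TE_u183))
         (CovZ.n1 (3200, 29120) (by decide +kernel)
          (CovZ.n2 (3040, 28960) (by decide +kernel)
           (CovZ.badM (by decide +kernel))
           (CovZ.badM (by decide +kernel)))
          (CovZ.badM (by decide +kernel))))))))
    (CovZ.subM 21649492671600472322616760003516953228564679596567560258 (by decide +kernel)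
     (CovZ.n1 (3840, 30720) (by decide +kernel)
      (CovZ.subM 5070604818764556835245162233856 (by decide +kernel)
       (CovZ.n2 (4480, 30080) (by decide +kernel)
        (CovZ.n2 (3840, 30080) (by decide +kernel)
         (CovZ.n2 (4160, 30400) (by decide +kernel)
          (CovZ.badM (by decide +kernel))
          (CovZ.badM (by decide +kernel)))
         (CovZ.n1 (4160, 29760) (by decide +kernel)
          (CovZ.n2 (3840, 29760) (by decide +kernel)
           (CovZ.badM (by decide +kernel))
           (CovZ.badM (by decide +kernel)))
          (CovZ.badM (by decide +kernel))))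
        (CovZ.n1 (4480, 30720) (by decide +kernel)
         (CovZ.badM (by decide +kernel))
         (CovZ.n1 (4160, 30400) (by decide +kernel)
          (CovZ.badM (by decide +kernel))
          (CovZ.badM (by decide +kernel))))))
      (CovZ.n1 (3200, 30080) (by decide +kernel)
       (CovZ.n2 (3200, 30720) (by decide +kernel)
        (CovZ.subM 231381897277883153819689159971962946 (by decide +kernel)
         (CovZ.n2 (3520, 30400) (by decide +kernel)
          TE_u186
          TE_u187))
        TE_u190)
       (CovZ.subM 5389993348900184946169136414720 (by decide +kernel)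
        (CovZ.n1 (3840, 30080) (by decide +kernel)
         (CovZ.n2 (3520, 29760) (by decide +kernel)
          (CovZ.n2 (3520, 30080) (by decide +kernel)
           (CovZ.badM (by decide +kernel))
           (CovZ.n1 (3360, 29920) (by decide +kernel)
            (CovZ.n2 (3360, 30080) (by decide +kernel)
             (CovZ.badM (by decide +kernel))
             (CovZ.n1 (3280, 30000) (by decide +kernel)
              (CovZ.badM (by decide +kernel))
              (CovZ.badM (by decide +kernel))))
            (CovZ.badM (by decide +kernel))))
          (CovZ.n1 (3840, 29760) (by decide +kernel)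
           (CovZ.n2 (3680, 29600) (by decide +kernel)
            (CovZ.badM (by decide +kernel))
            (CovZ.badM (by decide +kernel)))
           (CovZ.badM (by decide +kernel))))
         (CovZ.n1 (3520, 30400) (by decide +kernel)
          (CovZ.n2 (3840, 30400) (by decide +kernel)
           (CovZ.n2 (3680, 30240) (by decide +kernel)
            (CovZ.n2 (3680, 30400) (by decide +kernel)
             (CovZ.badM (by decide +kernel))
             (CovZ.n1 (3600, 30320) (by decide +kernel)
              (CovZ.badM (by decide +kernel))
              (CovZ.badM (by decide +kernel))))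
            (CovZ.badM (by decide +kernel)))
           (CovZ.n1 (3680, 30560) (by decide +kernel)
            (CovZ.badM (by decide +kernel))
            (CovZ.n1 (3680, 30400) (by decide +kernel)
             (CovZ.badM (by decide +kernel))
             (CovZ.badM (by decide +kernel)))))
          (CovZ.n1 (3520, 30080) (by decide +kernel)
           (CovZ.n2 (3360, 30240) (by decide +kernel)
            (CovZ.n2 (3520, 30240) (by decide +kernel)
             (CovZ.n2 (3440, 30160) (by decide +kernel)
              (CovZ.badM (by decide +kernel))
              (CovZ.badM (by decide +kernel)))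
             (CovZ.badM (by decide +kernel)))
            (CovZ.n1 (3360, 30080) (by decide +kernel)
             (CovZ.badM (by decide +kernel))
             (CovZ.n1 (3440, 30160) (by decide +kernel)
              (CovZ.badM (by decide +kernel))
              (CovZ.badM (by decide +kernel)))))
           (CovZ.n1 (3680, 30240) (by decide +kernel)
            (CovZ.badM (by decide +kernel))
            (CovZ.n1 (3520, 30240) (by decide +kernel)
             (CovZ.n2 (3600, 30320) (by decide +kernel)
              (CovZ.badM (by decide +kernel))
              (CovZ.badM (by decide +kernel)))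
             (CovZ.badM (by decide +kernel)))))))))))))

theorem TE_s6_6 : SqZ TE_M TE_L [0, 7, 6, 1] (-10240) 12800 2560 6 6 :=
  SqZ.mk (a := 5120) (b := 7680) (c := 28160) (d := 30720) (by norm_num) (by norm_num) (by norm_num) (by norm_num)
    (CovZ.topM TE_LL 1606938044258990275541962092423604457380814586819237416538120 (by decide +kernel) (CovZ.n2 (6400, 29440) (by decide +kernel)
    (CovZ.n2 (7680, 29440) (by decide +kernel)
     (CovZ.n2 (7040, 28800) (by decide +kernel)
      (CovZ.n2 (7040, 29440) (by decide +kernel)
       (CovZ.leaf K2_ok TE_l14137 _)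
       (CovZ.n1 (6720, 29120) (by decide +kernel)
        (CovZ.n2 (6720, 29440) (by decide +kernel)
         (CovZ.leaf K2_ok TE_l14138 _)
         (CovZ.leaf K2_ok TE_l14139 _))
        (CovZ.leaf K2_ok TE_l14140 _)))
      (CovZ.n1 (7680, 28800) (by decide +kernel)
       (CovZ.n2 (7360, 28480) (by decide +kernel)
        (CovZ.leaf K2_ok TE_l14141 _)
        (CovZ.leaf K2_ok TE_l14142 _))
       (CovZ.leaf K2_ok TE_l14143 _)))
     (CovZ.n1 (7040, 30080) (by decide +kernel)
      (CovZ.n2 (7680, 30080) (by decide +kernel)
       (CovZ.n2 (7360, 29760) (by decide +kernel)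
        (CovZ.leaf K2_ok TE_l14144 _)
        (CovZ.leaf K2_ok TE_l14145 _))
       (CovZ.leaf K2_ok TE_l14146 _))
      (CovZ.n1 (7040, 29440) (by decide +kernel)
       (CovZ.n2 (6720, 29760) (by decide +kernel)
        (CovZ.leaf K2_ok TE_l14147 _)
        (CovZ.n1 (6720, 29440) (by decide +kernel)
         (CovZ.leaf K2_ok TE_l14148 _)
         (CovZ.leaf K2_ok TE_l14149 _)))
       (CovZ.n1 (7360, 29760) (by decide +kernel)
        (CovZ.leaf K2_ok TE_l14150 _)
        (CovZ.leaf K2_ok TE_l14151 _)))))
    TE_u193))
    (CovZ.topM TE_LL 1610174674841301887306200333305233233281167108169329008705544 (by decide +kernel) (CovZ.n0 (6400, 29440) (by decide +kernel)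
    (CovZ.n2 (5120, 29440) (by decide +kernel)
     TE_u200
     TE_u201)
    (CovZ.n1 (6400, 30720) (by decide +kernel)
     (CovZ.n2 (7040, 30080) (by decide +kernel)
      (CovZ.n2 (6400, 30080) (by decide +kernel)
       (CovZ.subM 3138550867693340381917894794006073983043302418144303513608 (by decide +kernel)
        (CovZ.n2 (6720, 30400) (by decide +kernel)
         (CovZ.n2 (6720, 30080) (by decide +kernel)
          (CovZ.leaf K2_ok TE_l14570 _)
          (CovZ.leaf K2_ok TE_l14571 _))
         (CovZ.n1 (6400, 30400) (by decide +kernel)
          (CovZ.n2 (6560, 30560) (by decide +kernel)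
           (CovZ.leaf K2_ok TE_l14572 _)
           (CovZ.leaf K2_ok TE_l14573 _))
          (CovZ.leaf K2_ok TE_l14574 _))))
       (CovZ.subM 82402240774992124704708379279368 (by decide +kernel)
        (CovZ.n1 (6720, 29760) (by decide +kernel)
         (CovZ.n2 (6400, 29760) (by decide +kernel)
          (CovZ.n2 (6560, 29920) (by decide +kernel)
           (CovZ.leaf K2_ok TE_l14575 _)
           (CovZ.leaf K2_ok TE_l14576 _))
          (CovZ.leaf K2_ok TE_l14577 _))
         (CovZ.n1 (6720, 30080) (by decide +kernel)
          (CovZ.leaf K2_ok TE_l14578 _)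
          (CovZ.n1 (6560, 29920) (by decide +kernel)
           (CovZ.leaf K2_ok TE_l14579 _)
           (CovZ.leaf K2_ok TE_l14580 _))))))
      (CovZ.subM 3138550867693340381917894794006073983043302418144303513608 (by decide +kernel)
       (CovZ.n1 (7040, 30720) (by decide +kernel)
        (CovZ.leaf K2_ok TE_l14581 _)
        (CovZ.n1 (6720, 30400) (by decide +kernel)
         (CovZ.n2 (6720, 30720) (by decide +kernel)
          (CovZ.leaf K2_ok TE_l14582 _)
          (CovZ.leaf K2_ok TE_l14583 _))
         (CovZ.leaf K2_ok TE_l14584 _)))))
     (CovZ.subM 3138550867693340381917894712876435568436620731151391391752 (by decide +kernel)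
      (CovZ.n1 (5760, 30080) (by decide +kernel)
       TE_u202
       TE_u203)))))

theorem TE_s7_6 : SqZ TE_M TE_L [0, 7, 6, 1] (-10240) 12800 2560 7 6 :=
  SqZ.mk (a := 7680) (b := 10240) (c := 28160) (d := 30720) (by norm_num) (by norm_num) (by norm_num) (by norm_num)
    (CovZ.topM TE_LL 82402240777353307937347109392392 (by decide +kernel) (CovZ.n2 (8960, 29440) (by decide +kernel)
    (CovZ.n2 (10240, 29440) (by decide +kernel)
     (CovZ.n2 (9600, 28800) (by decide +kernel)
      (CovZ.leaf K2_ok TE_l15390 _)
      (CovZ.leaf K2_ok TE_l15391 _))
     (CovZ.leaf K2_ok TE_l15392 _))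
    (CovZ.n1 (8960, 28160) (by decide +kernel)
     (CovZ.leaf K2_ok TE_l15393 _)
     (CovZ.n1 (9600, 28800) (by decide +kernel)
      (CovZ.leaf K2_ok TE_l15394 _)
      (CovZ.leaf K2_ok TE_l15395 _)))))
    (CovZ.topM TE_LL 1606938044258990275541962092423564843299556301720139944693768 (by decide +kernel) (CovZ.n0 (8960, 29440) (by decide +kernel)
    (CovZ.n2 (7680, 29440) (by decide +kernel)
     (CovZ.n2 (8320, 30080) (by decide +kernel)
      (CovZ.leaf K2_ok TE_l15396 _)
      (CovZ.leaf K2_ok TE_l15397 _))
     (CovZ.n1 (8320, 28800) (by decide +kernel)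
      (CovZ.n2 (7680, 28800) (by decide +kernel)
       (CovZ.leaf K2_ok TE_l15398 _)
       (CovZ.leaf K2_ok TE_l15399 _))
      (CovZ.leaf K2_ok TE_l15400 _)))
    (CovZ.n1 (8960, 30720) (by decide +kernel)
     (CovZ.leaf K2_ok TE_l15401 _)
     (CovZ.n1 (8320, 30080) (by decide +kernel)
      (CovZ.leaf K2_ok TE_l15402 _)
      (CovZ.leaf K2_ok TE_l15403 _)))))

theorem TE_s8_6 : SqZ TE_M TE_L [0, 7, 6, 1] (-10240) 12800 2560 8 6 :=
  SqZ.mk (a := 10240) (b := 12800) (c := 28160) (d := 30720) (by norm_num) (by norm_num) (by norm_num) (by norm_num)
    (CovZ.topM TE_LL 4951762518324782463067623432 (by decide +kernel) (CovZ.n2 (11520, 29440) (by decide +kernel)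
    (CovZ.subM 2361183241572261826560 (by decide +kernel)
     (CovZ.n2 (12800, 29440) (by decide +kernel)
      (CovZ.n2 (12160, 28800) (by decide +kernel)
       (CovZ.n2 (12160, 29440) (by decide +kernel)
        (CovZ.n2 (12480, 29120) (by decide +kernel)
         (CovZ.leaf K2_ok TE_l15991 _)
         (CovZ.leaf K2_ok TE_l15992 _))
        (CovZ.n1 (11840, 29120) (by decide +kernel)
         (CovZ.leaf K2_ok TE_l15993 _)
         (CovZ.leaf K2_ok TE_l15994 _)))
       (CovZ.n1 (12800, 28800) (by decide +kernel)
        (CovZ.n2 (12480, 28480) (by decide +kernel)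
         (CovZ.n2 (12480, 28800) (by decide +kernel)
          (CovZ.leaf K2_ok TE_l15995 _)
          (CovZ.leaf K2_ok TE_l15996 _))
         (CovZ.n1 (12800, 28480) (by decide +kernel)
          (CovZ.n2 (12640, 28320) (by decide +kernel)
           (CovZ.leaf K2_ok TE_l15997 _)
           (CovZ.leaf K2_ok TE_l15998 _))
          (CovZ.leaf K2_ok TE_l15999 _)))
        (CovZ.n1 (12480, 29120) (by decide +kernel)
         (CovZ.leaf K2_ok TE_l16000 _)
         (CovZ.n1 (12480, 28800) (by decide +kernel)
          (CovZ.leaf K2_ok TE_l16001 _)
          (CovZ.leaf K2_ok TE_l16002 _)))))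
      (CovZ.n1 (12160, 30080) (by decide +kernel)
       (CovZ.n2 (12800, 30080) (by decide +kernel)
        (CovZ.n2 (12480, 29760) (by decide +kernel)
         (CovZ.leaf K2_ok TE_l16003 _)
         (CovZ.leaf K2_ok TE_l16004 _))
        (CovZ.leaf K2_ok TE_l16005 _))
       (CovZ.n1 (12160, 29440) (by decide +kernel)
        (CovZ.leaf K2_ok TE_l16006 _)
        (CovZ.n1 (12480, 29760) (by decide +kernel)
         (CovZ.leaf K2_ok TE_l16007 _)
         (CovZ.leaf K2_ok TE_l16008 _))))))
    (CovZ.n1 (11520, 28160) (by decide +kernel)
     (CovZ.n2 (10880, 28800) (by decide +kernel)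
      (CovZ.n2 (11520, 28800) (by decide +kernel)
       (CovZ.n2 (11200, 28480) (by decide +kernel)
        (CovZ.leaf K2_ok TE_l16009 _)
        (CovZ.leaf K2_ok TE_l16010 _))
       (CovZ.leaf K2_ok TE_l16011 _))
      (CovZ.n1 (10880, 28160) (by decide +kernel)
       (CovZ.leaf K2_ok TE_l16012 _)
       (CovZ.n1 (11200, 28480) (by decide +kernel)
        (CovZ.leaf K2_ok TE_l16013 _)
        (CovZ.leaf K2_ok TE_l16014 _))))
     (CovZ.n1 (12160, 28800) (by decide +kernel)
      (CovZ.n2 (12160, 28160) (by decide +kernel)
       (CovZ.n2 (11840, 28480) (by decide +kernel)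
        (CovZ.leaf K2_ok TE_l16015 _)
        (CovZ.n1 (11840, 28160) (by decide +kernel)
         (CovZ.leaf K2_ok TE_l16016 _)
         (CovZ.leaf K2_ok TE_l16017 _)))
       (CovZ.subM 2361183241572261826560 (by decide +kernel)
        (CovZ.n1 (12480, 28480) (by decide +kernel)
         (CovZ.n2 (12480, 28160) (by decide +kernel)
          (CovZ.leaf K2_ok TE_l16018 _)
          (CovZ.n1 (12640, 28320) (by decide +kernel)
           (CovZ.leaf K2_ok TE_l16019 _)
           (CovZ.leaf K2_ok TE_l16020 _)))
         (CovZ.n1 (12160, 28480) (by decide +kernel)
          (CovZ.leaf K2_ok TE_l16021 _)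
          (CovZ.leaf K2_ok TE_l16022 _)))))
      (CovZ.n1 (11520, 28800) (by decide +kernel)
       (CovZ.n2 (11840, 29120) (by decide +kernel)
        (CovZ.leaf K2_ok TE_l16023 _)
        (CovZ.leaf K2_ok TE_l16024 _))
       (CovZ.n1 (11840, 28480) (by decide +kernel)
        (CovZ.leaf K2_ok TE_l16025 _)
        (CovZ.leaf K2_ok TE_l16026 _)))))))
    (CovZ.topM TE_LL 81134590177125006478252072767496 (by decide +kernel) (CovZ.n0 (11520, 29440) (by decide +kernel)
    (CovZ.n2 (10240, 29440) (by decide +kernel)
     (CovZ.n2 (10880, 30080) (by decide +kernel)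
      (CovZ.leaf K2_ok TE_l16027 _)
      (CovZ.leaf K2_ok TE_l16028 _))
     (CovZ.n1 (10880, 28800) (by decide +kernel)
      (CovZ.leaf K2_ok TE_l16029 _)
      (CovZ.n1 (10880, 29440) (by decide +kernel)
       (CovZ.leaf K2_ok TE_l16030 _)
       (CovZ.leaf K2_ok TE_l16031 _))))
    (CovZ.n1 (11520, 30720) (by decide +kernel)
     (CovZ.n2 (12160, 30080) (by decide +kernel)
      (CovZ.leaf K2_ok TE_l16032 _)
      (CovZ.n1 (12160, 30720) (by decide +kernel)
       (CovZ.leaf K2_ok TE_l16033 _)
       (CovZ.leaf K2_ok TE_l16034 _)))
     (CovZ.n1 (10880, 30080) (by decide +kernel)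
      (CovZ.leaf K2_ok TE_l16035 _)
      (CovZ.leaf K2_ok TE_l16036 _)))))

theorem TE_s9_6 : SqZ TE_M TE_L [0, 7, 6, 1] (-10240) 12800 2560 9 6 :=
  SqZ.mk (a := 12800) (b := 15360) (c := 28160) (d := 30720) (by norm_num) (by norm_num) (by norm_num) (by norm_num)
    (CovZ.topM TE_LL 2361183241572261826560 (by decide +kernel) (CovZ.n2 (14080, 29440) (by decide +kernel)
    TE_u206
    TE_u207))
    (CovZ.topM TE_LL 2361183241572261826560 (by decide +kernel) (CovZ.n0 (14080, 29440) (by decide +kernel)
    (CovZ.n2 (12800, 29440) (by decide +kernel)
     (CovZ.n2 (13440, 30080) (by decide +kernel)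
      (CovZ.n2 (13440, 29440) (by decide +kernel)
       (CovZ.n2 (13120, 29760) (by decide +kernel)
        (CovZ.leaf K2_ok TE_l16553 _)
        (CovZ.n1 (13120, 29440) (by decide +kernel)
         (CovZ.leaf K2_ok TE_l16554 _)
         (CovZ.leaf K2_ok TE_l16555 _)))
       (CovZ.n1 (13760, 29760) (by decide +kernel)
        (CovZ.n2 (13760, 29440) (by decide +kernel)
         (CovZ.leaf K2_ok TE_l16556 _)
         (CovZ.n1 (13920, 29600) (by decide +kernel)
          (CovZ.leaf K2_ok TE_l16557 _)
          (CovZ.leaf K2_ok TE_l16558 _)))
        (CovZ.n1 (13440, 29760) (by decide +kernel)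
         (CovZ.leaf K2_ok TE_l16559 _)
         (CovZ.leaf K2_ok TE_l16560 _))))
      (CovZ.n1 (12800, 30080) (by decide +kernel)
       (CovZ.n2 (13120, 30400) (by decide +kernel)
        (CovZ.leaf K2_ok TE_l16561 _)
        (CovZ.leaf K2_ok TE_l16562 _))
       (CovZ.n1 (13120, 29760) (by decide +kernel)
        (CovZ.leaf K2_ok TE_l16563 _)
        (CovZ.leaf K2_ok TE_l16564 _))))
     (CovZ.n1 (13440, 28800) (by decide +kernel)
      (CovZ.n2 (12800, 28800) (by decide +kernel)
       (CovZ.n2 (13120, 29120) (by decide +kernel)
        (CovZ.n2 (13120, 28800) (by decide +kernel)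
         (CovZ.leaf K2_ok TE_l16565 _)
         (CovZ.n1 (13280, 28960) (by decide +kernel)
          (CovZ.leaf K2_ok TE_l16566 _)
          (CovZ.leaf K2_ok TE_l16567 _)))
        (CovZ.leaf K2_ok TE_l16568 _))
       (CovZ.n1 (13120, 28480) (by decide +kernel)
        (CovZ.n2 (12800, 28480) (by decide +kernel)
         (CovZ.n2 (12960, 28640) (by decide +kernel)
          (CovZ.leaf K2_ok TE_l16569 _)
          (CovZ.leaf K2_ok TE_l16570 _))
         (CovZ.n1 (12960, 28320) (by decide +kernel)
          (CovZ.leaf K2_ok TE_l16571 _)
          (CovZ.n1 (12960, 28480) (by decide +kernel)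
           (CovZ.leaf K2_ok TE_l16572 _)
           (CovZ.leaf K2_ok TE_l16573 _))))
        (CovZ.n1 (13120, 28800) (by decide +kernel)
         (CovZ.n2 (13280, 28640) (by decide +kernel)
          (CovZ.leaf K2_ok TE_l16574 _)
          (CovZ.leaf K2_ok TE_l16575 _))
         (CovZ.n1 (12960, 28640) (by decide +kernel)
          (CovZ.leaf K2_ok TE_l16576 _)
          (CovZ.leaf K2_ok TE_l16577 _)))))
      (CovZ.n1 (13440, 29440) (by decide +kernel)
       (CovZ.n2 (13760, 29120) (by decide +kernel)
        (CovZ.n2 (13440, 29120) (by decide +kernel)
         (CovZ.n2 (13600, 29280) (by decide +kernel)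
          (CovZ.leaf K2_ok TE_l16578 _)
          (CovZ.leaf K2_ok TE_l16579 _))
         (CovZ.n1 (13600, 28960) (by decide +kernel)
          (CovZ.leaf K2_ok TE_l16580 _)
          (CovZ.n1 (13600, 29120) (by decide +kernel)
           (CovZ.leaf K2_ok TE_l16581 _)
           (CovZ.leaf K2_ok TE_l16582 _))))
        (CovZ.n1 (13760, 29440) (by decide +kernel)
         (CovZ.n2 (13920, 29280) (by decide +kernel)
          (CovZ.leaf K2_ok TE_l16583 _)
          (CovZ.n1 (13920, 29440) (by decide +kernel)
           (CovZ.leaf K2_ok TE_l16584 _)
           (CovZ.leaf K2_ok TE_l16585 _)))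
         (CovZ.n1 (13600, 29280) (by decide +kernel)
          (CovZ.leaf K2_ok TE_l16586 _)
          (CovZ.leaf K2_ok TE_l16587 _))))
       (CovZ.n1 (13120, 29120) (by decide +kernel)
        (CovZ.n2 (13120, 29440) (by decide +kernel)
         (CovZ.leaf K2_ok TE_l16588 _)
         (CovZ.leaf K2_ok TE_l16589 _))
        (CovZ.n1 (13440, 29120) (by decide +kernel)
         (CovZ.n2 (13280, 28960) (by decide +kernel)
          (CovZ.leaf K2_ok TE_l16590 _)
          (CovZ.leaf K2_ok TE_l16591 _))
         (CovZ.leaf K2_ok TE_l16592 _))))))
    (CovZ.n1 (14080, 30720) (by decide +kernel)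
     (CovZ.n2 (14720, 30080) (by decide +kernel)
      (CovZ.n2 (14080, 30080) (by decide +kernel)
       (CovZ.n2 (14400, 30400) (by decide +kernel)
        (CovZ.n2 (14400, 30080) (by decide +kernel)
         (CovZ.leaf K2_ok TE_l16593 _)
         (CovZ.n1 (14560, 30240) (by decide +kernel)
          (CovZ.leaf K2_ok TE_l16594 _)
          (CovZ.leaf K2_ok TE_l16595 _)))
        (CovZ.leaf K2_ok TE_l16596 _))
       (CovZ.n1 (14400, 29760) (by decide +kernel)
        (CovZ.n2 (14080, 29760) (by decide +kernel)
         (CovZ.n2 (14240, 29920) (by decide +kernel)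
          (CovZ.leaf K2_ok TE_l16597 _)
          (CovZ.leaf K2_ok TE_l16598 _))
         (CovZ.n1 (14240, 29600) (by decide +kernel)
          (CovZ.leaf K2_ok TE_l16599 _)
          (CovZ.leaf K2_ok TE_l16600 _)))
        (CovZ.n1 (14400, 30080) (by decide +kernel)
         (CovZ.n2 (14560, 29920) (by decide +kernel)
          (CovZ.leaf K2_ok TE_l16601 _)
          (CovZ.leaf K2_ok TE_l16602 _))
         (CovZ.n1 (14240, 29920) (by decide +kernel)
          (CovZ.leaf K2_ok TE_l16603 _)
          (CovZ.leaf K2_ok TE_l16604 _)))))
      (CovZ.n1 (14720, 30720) (by decide +kernel)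
       (CovZ.n2 (15040, 30400) (by decide +kernel)
        (CovZ.n2 (14720, 30400) (by decide +kernel)
         (CovZ.n2 (14880, 30560) (by decide +kernel)
          (CovZ.leaf K2_ok TE_l16605 _)
          (CovZ.leaf K2_ok TE_l16606 _))
         (CovZ.n1 (14880, 30240) (by decide +kernel)
          (CovZ.leaf K2_ok TE_l16607 _)
          (CovZ.leaf K2_ok TE_l16608 _)))
        (CovZ.n1 (15040, 30720) (by decide +kernel)
         (CovZ.n2 (15200, 30560) (by decide +kernel)
          (CovZ.leaf K2_ok TE_l16609 _)
          (CovZ.leaf K2_ok TE_l16610 _))
         (CovZ.n1 (14880, 30560) (by decide +kernel)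
          (CovZ.leaf K2_ok TE_l16611 _)
          (CovZ.leaf K2_ok TE_l16612 _))))
       (CovZ.n1 (14400, 30400) (by decide +kernel)
        (CovZ.n2 (14400, 30720) (by decide +kernel)
         (CovZ.leaf K2_ok TE_l16613 _)
         (CovZ.leaf K2_ok TE_l16614 _))
        (CovZ.n1 (14720, 30400) (by decide +kernel)
         (CovZ.n2 (14560, 30240) (by decide +kernel)
          (CovZ.leaf K2_ok TE_l16615 _)
          (CovZ.leaf K2_ok TE_l16616 _))
         (CovZ.leaf K2_ok TE_l16617 _)))))
     (CovZ.n1 (13440, 30080) (by decide +kernel)
      (CovZ.n2 (13440, 30720) (by decide +kernel)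
       (CovZ.n2 (13760, 30400) (by decide +kernel)
        (CovZ.leaf K2_ok TE_l16618 _)
        (CovZ.leaf K2_ok TE_l16619 _))
       (CovZ.n1 (13120, 30400) (by decide +kernel)
        (CovZ.leaf K2_ok TE_l16620 _)
        (CovZ.leaf K2_ok TE_l16621 _)))
      (CovZ.n1 (14080, 30080) (by decide +kernel)
       (CovZ.n2 (13760, 29760) (by decide +kernel)
        (CovZ.n2 (13760, 30080) (by decide +kernel)
         (CovZ.leaf K2_ok TE_l16622 _)
         (CovZ.leaf K2_ok TE_l16623 _))
        (CovZ.n1 (14080, 29760) (by decide +kernel)
         (CovZ.n2 (13920, 29600) (by decide +kernel)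
          (CovZ.leaf K2_ok TE_l16624 _)
          (CovZ.leaf K2_ok TE_l16625 _))
         (CovZ.leaf K2_ok TE_l16626 _)))
       (CovZ.n1 (13760, 30400) (by decide +kernel)
        (CovZ.leaf K2_ok TE_l16627 _)
        (CovZ.n1 (13760, 30080) (by decide +kernel)
         (CovZ.leaf K2_ok TE_l16628 _)
         (CovZ.leaf K2_ok TE_l16629 _))))))))

theorem TE_s10_6 : SqZ TE_M TE_L [0, 7, 6, 1] (-10240) 12800 2560 10 6 :=
  SqZ.mk (a := 15360) (b := 17920) (c := 28160) (d := 30720) (by norm_num) (by norm_num) (by norm_num) (by norm_num)
    (CovZ.topM TE_LL 0 (by decide +kernel) (CovZ.badM (by decide +kernel)))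
    (CovZ.topM TE_LL 266240 (by decide +kernel) (CovZ.n0 (16640, 29440) (by decide +kernel)
    (CovZ.n2 (15360, 29440) (by decide +kernel)
     (CovZ.n2 (16000, 30080) (by decide +kernel)
      (CovZ.badM (by decide +kernel))
      (CovZ.n1 (15360, 30080) (by decide +kernel)
       (CovZ.n2 (15680, 30400) (by decide +kernel)
        (CovZ.badM (by decide +kernel))
        (CovZ.n1 (15360, 30400) (by decide +kernel)
         (CovZ.n2 (15520, 30560) (by decide +kernel)
          (CovZ.badM (by decide +kernel))
          (CovZ.n1 (15360, 30560) (by decide +kernel)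
           (CovZ.n2 (15440, 30640) (by decide +kernel)
            (CovZ.badM (by decide +kernel))
            (CovZ.leaf K2_ok TE_l16878 _))
           (CovZ.badM (by decide +kernel))))
         (CovZ.badM (by decide +kernel))))
       (CovZ.badM (by decide +kernel))))
     (CovZ.badM (by decide +kernel)))
    (CovZ.n1 (16640, 30720) (by decide +kernel)
     (CovZ.badM (by decide +kernel))
     (CovZ.n1 (16000, 30080) (by decide +kernel)
      (CovZ.n2 (16000, 30720) (by decide +kernel)
       (CovZ.badM (by decide +kernel))
       (CovZ.n1 (15680, 30400) (by decide +kernel)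
        (CovZ.n2 (15680, 30720) (by decide +kernel)
         (CovZ.badM (by decide +kernel))
         (CovZ.n1 (15520, 30560) (by decide +kernel)
          (CovZ.leaf K2_ok TE_l16902 _)
          (CovZ.badM (by decide +kernel))))
        (CovZ.badM (by decide +kernel))))
      (CovZ.badM (by decide +kernel))))))

theorem TE_s0_7 : SqZ TE_M TE_L [0, 7, 6, 1] (-10240) 12800 2560 0 7 :=
  SqZ.mk (a := (-10240)) (b := (-7680)) (c := 30720) (d := 33280) (by norm_num) (by norm_num) (by norm_num) (by norm_num)
    (CovZ.topM TE_LL 23945242826029513411849172299223580994042798784118784 (by decide +kernel) (CovZ.n2 (-8960, 32000) (by decide +kernel)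
    (CovZ.n2 (-7680, 32000) (by decide +kernel)
     (CovZ.badM (by decide +kernel))
     (CovZ.n1 (-8320, 32640) (by decide +kernel)
      (CovZ.badM (by decide +kernel))
      (CovZ.badM (by decide +kernel))))
    (CovZ.badM (by decide +kernel))))
    (CovZ.topM TE_LL 23945242826029513411849172299223580994042798784118784 (by decide +kernel) (CovZ.n0 (-8960, 32000) (by decide +kernel)
    (CovZ.badM (by decide +kernel))
    (CovZ.n1 (-8960, 33280) (by decide +kernel)
     (CovZ.n2 (-8320, 32640) (by decide +kernel)
      (CovZ.badM (by decide +kernel))
      (CovZ.badM (by decide +kernel)))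
     (CovZ.badM (by decide +kernel)))))

theorem TE_s1_7 : SqZ TE_M TE_L [0, 7, 6, 1] (-10240) 12800 2560 1 7 :=
  SqZ.mk (a := (-7680)) (b := (-5120)) (c := 30720) (d := 33280) (by norm_num) (by norm_num) (by norm_num) (by norm_num)
    (CovZ.topM TE_LL 23945334169881846593281560029525634985103564134678528 (by decide +kernel) (CovZ.n2 (-6400, 32000) (by decide +kernel)
    (CovZ.n2 (-5120, 32000) (by decide +kernel)
     (CovZ.n2 (-5760, 31360) (by decide +kernel)
      (CovZ.n2 (-5760, 32000) (by decide +kernel)
       (CovZ.n2 (-5440, 31680) (by decide +kernel)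
        (CovZ.badM (by decide +kernel))
        (CovZ.badM (by decide +kernel)))
       (CovZ.badM (by decide +kernel)))
      (CovZ.n1 (-5120, 31360) (by decide +kernel)
       (CovZ.badM (by decide +kernel))
       (CovZ.n1 (-5440, 31680) (by decide +kernel)
        (CovZ.badM (by decide +kernel))
        (CovZ.badM (by decide +kernel)))))
     (CovZ.badM (by decide +kernel)))
    (CovZ.badM (by decide +kernel))))
    (CovZ.topM TE_LL 23945334169881846593281560029525634985103564134678528 (by decide +kernel) (CovZ.n0 (-6400, 32000) (by decide +kernel)
    (CovZ.n2 (-7680, 32000) (by decide +kernel)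
     (CovZ.badM (by decide +kernel))
     (CovZ.badM (by decide +kernel)))
    (CovZ.badM (by decide +kernel))))

theorem TE_s2_7 : SqZ TE_M TE_L [0, 7, 6, 1] (-10240) 12800 2560 2 7 :=
  SqZ.mk (a := (-5120)) (b := (-2560)) (c := 30720) (d := 33280) (by norm_num) (by norm_num) (by norm_num) (by norm_num)
    (CovZ.topM TE_LL 1569299380665177695040345692467897249981856280614698745856 (by decide +kernel) (CovZ.n2 (-3840, 32000) (by decide +kernel)
    (CovZ.n2 (-2560, 32000) (by decide +kernel)
     (CovZ.subM 1552845489664084350591569877265961380918790717440 (by decide +kernel)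
      (CovZ.n2 (-3200, 31360) (by decide +kernel)
       (CovZ.n2 (-3200, 32000) (by decide +kernel)
        (CovZ.n2 (-2880, 31680) (by decide +kernel)
         (CovZ.badM (by decide +kernel))
         (CovZ.badM (by decide +kernel)))
        (CovZ.badM (by decide +kernel)))
       (CovZ.n1 (-2560, 31360) (by decide +kernel)
        (CovZ.n2 (-2880, 31040) (by decide +kernel)
         (CovZ.badM (by decide +kernel))
         (CovZ.n1 (-2560, 31040) (by decide +kernel)
          (CovZ.n2 (-2720, 30880) (by decide +kernel)
           (CovZ.badM (by decide +kernel))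
           (CovZ.n1 (-2560, 30880) (by decide +kernel)
            (CovZ.badM (by decide +kernel))
            (CovZ.badM (by decide +kernel))))
          (CovZ.badM (by decide +kernel))))
        (CovZ.n1 (-2880, 31680) (by decide +kernel)
         (CovZ.badM (by decide +kernel))
         (CovZ.badM (by decide +kernel))))))
     (CovZ.subM 1569275433846670212737018838741978265681563736749174161408 (by decide +kernel)
      (CovZ.n1 (-3200, 32640) (by decide +kernel)
       (CovZ.n2 (-2560, 32640) (by decide +kernel)
        (CovZ.badM (by decide +kernel))
        (CovZ.n1 (-2880, 32960) (by decide +kernel)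
         (CovZ.badM (by decide +kernel))
         (CovZ.badM (by decide +kernel))))
       (CovZ.badM (by decide +kernel)))))
    (CovZ.subM 23945334169881846593281560029525634985103564134678528 (by decide +kernel)
     (CovZ.n1 (-3840, 30720) (by decide +kernel)
      (CovZ.n2 (-4480, 31360) (by decide +kernel)
       (CovZ.n2 (-3840, 31360) (by decide +kernel)
        (CovZ.n2 (-4160, 31040) (by decide +kernel)
         (CovZ.n2 (-4160, 31360) (by decide +kernel)
          (CovZ.n2 (-4000, 31200) (by decide +kernel)
           (CovZ.badM (by decide +kernel))
           (CovZ.badM (by decide +kernel)))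
          (CovZ.badM (by decide +kernel)))
         (CovZ.n1 (-3840, 31040) (by decide +kernel)
          (CovZ.badM (by decide +kernel))
          (CovZ.n1 (-4000, 31200) (by decide +kernel)
           (CovZ.badM (by decide +kernel))
           (CovZ.badM (by decide +kernel)))))
        (CovZ.badM (by decide +kernel)))
       (CovZ.badM (by decide +kernel)))
      (CovZ.n1 (-3200, 31360) (by decide +kernel)
       (CovZ.n2 (-3200, 30720) (by decide +kernel)
        (CovZ.n2 (-3520, 31040) (by decide +kernel)
         (CovZ.n2 (-3200, 31040) (by decide +kernel)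
          (CovZ.n2 (-3360, 30880) (by decide +kernel)
           (CovZ.badM (by decide +kernel))
           (CovZ.n1 (-3200, 30880) (by decide +kernel)
            (CovZ.badM (by decide +kernel))
            (CovZ.badM (by decide +kernel))))
          (CovZ.badM (by decide +kernel)))
         (CovZ.badM (by decide +kernel)))
        (CovZ.n1 (-2880, 31040) (by decide +kernel)
         (CovZ.n2 (-2880, 30720) (by decide +kernel)
          (CovZ.n2 (-3040, 30880) (by decide +kernel)
           (CovZ.n2 (-2880, 30880) (by decide +kernel)
            (CovZ.badM (by decide +kernel))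
            (CovZ.badM (by decide +kernel)))
           (CovZ.badM (by decide +kernel)))
          (CovZ.n1 (-2720, 30880) (by decide +kernel)
           (CovZ.n2 (-2720, 30720) (by decide +kernel)
            (CovZ.n2 (-2800, 30800) (by decide +kernel)
             (CovZ.badM (by decide +kernel))
             (CovZ.badM (by decide +kernel)))
            (CovZ.badM (by decide +kernel)))
           (CovZ.n1 (-2880, 30880) (by decide +kernel)
            (CovZ.badM (by decide +kernel))
            (CovZ.n1 (-2800, 30800) (by decide +kernel)
             (CovZ.badM (by decide +kernel))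
             (CovZ.badM (by decide +kernel))))))
         (CovZ.n1 (-3200, 31040) (by decide +kernel)
          (CovZ.badM (by decide +kernel))
          (CovZ.n1 (-3040, 30880) (by decide +kernel)
           (CovZ.n2 (-3200, 30880) (by decide +kernel)
            (CovZ.badM (by decide +kernel))
            (CovZ.badM (by decide +kernel)))
           (CovZ.badM (by decide +kernel))))))
       (CovZ.n1 (-3840, 31360) (by decide +kernel)
        (CovZ.badM (by decide +kernel))
        (CovZ.n1 (-3520, 31040) (by decide +kernel)
         (CovZ.n2 (-3840, 31040) (by decide +kernel)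
          (CovZ.badM (by decide +kernel))
          (CovZ.badM (by decide +kernel)))
         (CovZ.badM (by decide +kernel)))))))))
    (CovZ.topM TE_LL 1569299380665177695040345692467897249981856280614698745856 (by decide +kernel) (CovZ.n0 (-3840, 32000) (by decide +kernel)
    (CovZ.subM 23945334169881846593281560029525634985103564134678528 (by decide +kernel)
     (CovZ.n2 (-5120, 32000) (by decide +kernel)
      (CovZ.badM (by decide +kernel))
      (CovZ.n1 (-4480, 31360) (by decide +kernel)
       (CovZ.n2 (-5120, 31360) (by decide +kernel)
        (CovZ.badM (by decide +kernel))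
        (CovZ.badM (by decide +kernel)))
       (CovZ.badM (by decide +kernel)))))
    (CovZ.subM 1569275433846670212737018838741978265681563736749174161408 (by decide +kernel)
     (CovZ.n1 (-3840, 33280) (by decide +kernel)
      (CovZ.n2 (-3200, 32640) (by decide +kernel)
       (CovZ.badM (by decide +kernel))
       (CovZ.n1 (-3200, 33280) (by decide +kernel)
        (CovZ.n2 (-2880, 32960) (by decide +kernel)
         (CovZ.badM (by decide +kernel))
         (CovZ.badM (by decide +kernel)))
        (CovZ.badM (by decide +kernel))))
      (CovZ.badM (by decide +kernel))))))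

theorem TE_s3_7 : SqZ TE_M TE_L [0, 7, 6, 1] (-10240) 12800 2560 3 7 :=
  SqZ.mk (a := (-2560)) (b := 0) (c := 30720) (d := 33280) (by norm_num) (by norm_num) (by norm_num) (by norm_num)
    (CovZ.topM TE_LL 22524603752598173306456191526622790622896483083293079843635204 (by decide +kernel) (CovZ.n2 (-1280, 32000) (by decide +kernel)
    TE_u212
    TE_u213))
    (CovZ.topM TE_LL 16071736271455370492222855000051574924209912242059782177947648 (by decide +kernel) (CovZ.n0 (-1280, 32000) (by decide +kernel)
    (CovZ.subM 12857075162002862585926998735561526635937688015945070391853056 (by decide +kernel)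
     (CovZ.n2 (-2560, 32000) (by decide +kernel)
      (CovZ.subM 1570807929387536079817305702829066913209207600238192230400 (by decide +kernel)
       (CovZ.n2 (-1920, 32640) (by decide +kernel)
        (CovZ.n2 (-1920, 32000) (by decide +kernel)
         (CovZ.n2 (-2240, 32320) (by decide +kernel)
          (CovZ.badM (by decide +kernel))
          (CovZ.n1 (-2240, 32000) (by decide +kernel)
           (CovZ.badM (by decide +kernel))
           (CovZ.n1 (-2080, 32160) (by decide +kernel)
            (CovZ.n2 (-2080, 32000) (by decide +kernel)
             (CovZ.badM (by decide +kernel))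
             (CovZ.n1 (-2000, 32080) (by decide +kernel)
              (CovZ.n2 (-2000, 32000) (by decide +kernel)
               (CovZ.n2 (-2040, 32040) (by decide +kernel)
                (CovZ.badM (by decide +kernel))
                (CovZ.badM (by decide +kernel)))
               (CovZ.badM (by decide +kernel)))
              (CovZ.n1 (-2080, 32080) (by decide +kernel)
               (CovZ.badM (by decide +kernel))
               (CovZ.n1 (-2040, 32040) (by decide +kernel)
                (CovZ.badM (by decide +kernel))
                (CovZ.badM (by decide +kernel))))))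
            (CovZ.badM (by decide +kernel)))))
         (CovZ.badM (by decide +kernel)))
        (CovZ.n1 (-2560, 32640) (by decide +kernel)
         (CovZ.badM (by decide +kernel))
         (CovZ.n1 (-2240, 32320) (by decide +kernel)
          (CovZ.badM (by decide +kernel))
          (CovZ.badM (by decide +kernel))))))
      (CovZ.n1 (-1920, 31360) (by decide +kernel)
       (CovZ.subM 1552845489664084350591569877265961380918790717440 (by decide +kernel)
        (CovZ.n2 (-2560, 31360) (by decide +kernel)
         (CovZ.badM (by decide +kernel))
         (CovZ.n1 (-2240, 31040) (by decide +kernel)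
          (CovZ.n2 (-2560, 31040) (by decide +kernel)
           (CovZ.badM (by decide +kernel))
           (CovZ.n1 (-2400, 30880) (by decide +kernel)
            (CovZ.n2 (-2560, 30880) (by decide +kernel)
             (CovZ.badM (by decide +kernel))
             (CovZ.badM (by decide +kernel)))
            (CovZ.badM (by decide +kernel))))
          (CovZ.n1 (-2240, 31360) (by decide +kernel)
           (CovZ.n2 (-2080, 31200) (by decide +kernel)
            (CovZ.badM (by decide +kernel))
            (CovZ.badM (by decide +kernel)))
           (CovZ.badM (by decide +kernel))))))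
       (CovZ.subM 12857075162001309740437292115915069948752489132738214040174592 (by decide +kernel)
        (CovZ.n1 (-1920, 32000) (by decide +kernel)
         (CovZ.n2 (-1600, 31680) (by decide +kernel)
          (CovZ.n2 (-1920, 31680) (by decide +kernel)
           (CovZ.n2 (-1760, 31840) (by decide +kernel)
            (CovZ.n2 (-1760, 31680) (by decide +kernel)
             (CovZ.n2 (-1840, 31760) (by decide +kernel)
              (CovZ.n2 (-1760, 31760) (by decide +kernel)
               (CovZ.badM (by decide +kernel))
               (CovZ.n1 (-1800, 31800) (by decide +kernel)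
                (CovZ.badM (by decide +kernel))
                (CovZ.badM (by decide +kernel))))
              (CovZ.badM (by decide +kernel)))
             (CovZ.n1 (-1680, 31760) (by decide +kernel)
              (CovZ.n2 (-1680, 31680) (by decide +kernel)
               (CovZ.n2 (-1720, 31720) (by decide +kernel)
                (CovZ.badM (by decide +kernel))
                (CovZ.badM (by decide +kernel)))
               (CovZ.badM (by decide +kernel)))
              (CovZ.n1 (-1760, 31760) (by decide +kernel)
               (CovZ.badM (by decide +kernel))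
               (CovZ.n1 (-1720, 31720) (by decide +kernel)
                (CovZ.badM (by decide +kernel))
                (CovZ.badM (by decide +kernel))))))
            (CovZ.n1 (-1920, 31840) (by decide +kernel)
             (CovZ.n2 (-1840, 31920) (by decide +kernel)
              (CovZ.n2 (-1840, 31840) (by decide +kernel)
               (CovZ.n2 (-1880, 31880) (by decide +kernel)
                (CovZ.badM (by decide +kernel))
                (CovZ.badM (by decide +kernel)))
               (CovZ.badM (by decide +kernel)))
              (CovZ.n1 (-1920, 31920) (by decide +kernel)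
               (CovZ.badM (by decide +kernel))
               (CovZ.n1 (-1880, 31880) (by decide +kernel)
                (CovZ.badM (by decide +kernel))
                (CovZ.badM (by decide +kernel)))))
             (CovZ.n1 (-1840, 31760) (by decide +kernel)
              (CovZ.badM (by decide +kernel))
              (CovZ.n1 (-1840, 31840) (by decide +kernel)
               (CovZ.n2 (-1800, 31800) (by decide +kernel)
                (CovZ.badM (by decide +kernel))
                (CovZ.badM (by decide +kernel)))
               (CovZ.badM (by decide +kernel))))))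
           (CovZ.n1 (-1760, 31520) (by decide +kernel)
            (CovZ.badM (by decide +kernel))
            (CovZ.n1 (-1760, 31680) (by decide +kernel)
             (CovZ.n2 (-1680, 31600) (by decide +kernel)
              (CovZ.badM (by decide +kernel))
              (CovZ.n1 (-1680, 31680) (by decide +kernel)
               (CovZ.n2 (-1640, 31640) (by decide +kernel)
                (CovZ.badM (by decide +kernel))
                (CovZ.badM (by decide +kernel)))
               (CovZ.badM (by decide +kernel))))
             (CovZ.badM (by decide +kernel)))))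
          (CovZ.n1 (-1600, 32000) (by decide +kernel)
           (CovZ.n2 (-1440, 31840) (by decide +kernel)
            (CovZ.badM (by decide +kernel))
            (CovZ.badM (by decide +kernel)))
           (CovZ.badM (by decide +kernel))))
         (CovZ.n1 (-2240, 31680) (by decide +kernel)
          (CovZ.n2 (-2240, 32000) (by decide +kernel)
           (CovZ.n2 (-2080, 31840) (by decide +kernel)
            (CovZ.badM (by decide +kernel))
            (CovZ.n1 (-2080, 32000) (by decide +kernel)
             (CovZ.n2 (-2000, 31920) (by decide +kernel)
              (CovZ.badM (by decide +kernel))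
              (CovZ.n1 (-2000, 32000) (by decide +kernel)
               (CovZ.n2 (-1960, 31960) (by decide +kernel)
                (CovZ.badM (by decide +kernel))
                (CovZ.badM (by decide +kernel)))
               (CovZ.badM (by decide +kernel))))
             (CovZ.badM (by decide +kernel))))
           (CovZ.badM (by decide +kernel)))
          (CovZ.n1 (-1920, 31680) (by decide +kernel)
           (CovZ.badM (by decide +kernel))
           (CovZ.n1 (-2080, 31840) (by decide +kernel)
            (CovZ.n2 (-1920, 31840) (by decide +kernel)
             (CovZ.badM (by decide +kernel))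
             (CovZ.n1 (-2000, 31920) (by decide +kernel)
              (CovZ.n2 (-1920, 31920) (by decide +kernel)
               (CovZ.badM (by decide +kernel))
               (CovZ.n1 (-1960, 31960) (by decide +kernel)
                (CovZ.badM (by decide +kernel))
                (CovZ.badM (by decide +kernel))))
              (CovZ.badM (by decide +kernel))))
            (CovZ.badM (by decide +kernel))))))))))
    (CovZ.subM 3213876471735401883495710427947371864529238017220263358234624 (by decide +kernel)
     (CovZ.n1 (-1280, 33280) (by decide +kernel)
      (CovZ.n2 (-640, 32640) (by decide +kernel)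
       (CovZ.subM 3213876088611516655873101971447361034338248101386515306774528 (by decide +kernel)
        (CovZ.n2 (-1280, 32640) (by decide +kernel)
         (CovZ.badM (by decide +kernel))
         (CovZ.n1 (-960, 32320) (by decide +kernel)
          (CovZ.n2 (-1280, 32320) (by decide +kernel)
           (CovZ.badM (by decide +kernel))
           (CovZ.n1 (-1120, 32160) (by decide +kernel)
            (CovZ.badM (by decide +kernel))
            (CovZ.badM (by decide +kernel))))
          (CovZ.badM (by decide +kernel)))))
       (CovZ.n1 (-640, 33280) (by decide +kernel)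
        (CovZ.n2 (-320, 32960) (by decide +kernel)
         (CovZ.badM (by decide +kernel))
         (CovZ.badM (by decide +kernel)))
        (CovZ.badM (by decide +kernel))))
      (CovZ.n1 (-1920, 32640) (by decide +kernel)
       (CovZ.badM (by decide +kernel))
       (CovZ.n1 (-1280, 32640) (by decide +kernel)
        (CovZ.badM (by decide +kernel))
        (CovZ.badM (by decide +kernel))))))))

theorem TE_s4_7 : SqZ TE_M TE_L [0, 7, 6, 1] (-10240) 12800 2560 4 7 :=
  SqZ.mk (a := 0) (b := 2560) (c := 30720) (d := 33280) (by norm_num) (by norm_num) (by norm_num) (by norm_num)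
    (CovZ.topM TE_LL 10634268205967247650714527401332589823590378375416478817058886 (by decide +kernel) (CovZ.n2 (1280, 32000) (by decide +kernel)
    (CovZ.n2 (2560, 32000) (by decide +kernel)
     TE_u220
     TE_u221)
    (CovZ.n1 (1280, 30720) (by decide +kernel)
     (CovZ.n2 (640, 31360) (by decide +kernel)
      (CovZ.subM 3389645282389161573756464330618570642078271940632932712972354 (by decide +kernel)
       (CovZ.n2 (1280, 31360) (by decide +kernel)
        (CovZ.n2 (960, 31040) (by decide +kernel)
         (CovZ.n2 (960, 31360) (by decide +kernel)
          (CovZ.n2 (1120, 31200) (by decide +kernel)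
           (CovZ.leaf K2_ok TE_l6702 _)
           (CovZ.leaf K2_ok TE_l6703 _))
          (CovZ.n1 (800, 31200) (by decide +kernel)
           (CovZ.leaf K2_ok TE_l6704 _)
           (CovZ.leaf K2_ok TE_l6705 _)))
         (CovZ.n1 (1280, 31040) (by decide +kernel)
          (CovZ.n2 (1120, 30880) (by decide +kernel)
           (CovZ.leaf K2_ok TE_l6706 _)
           (CovZ.leaf K2_ok TE_l6707 _))
          (CovZ.n1 (1120, 31200) (by decide +kernel)
           (CovZ.leaf K2_ok TE_l6708 _)
           (CovZ.leaf K2_ok TE_l6709 _))))
        (CovZ.n1 (960, 31680) (by decide +kernel)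
         (CovZ.n2 (1280, 31680) (by decide +kernel)
          (CovZ.n2 (1120, 31520) (by decide +kernel)
           (CovZ.leaf K2_ok TE_l6710 _)
           (CovZ.leaf K2_ok TE_l6711 _))
          (CovZ.n1 (1120, 31840) (by decide +kernel)
           (CovZ.leaf K2_ok TE_l6712 _)
           (CovZ.leaf K2_ok TE_l6713 _)))
         (CovZ.n1 (960, 31360) (by decide +kernel)
          (CovZ.leaf K2_ok TE_l6714 _)
          (CovZ.n1 (1120, 31520) (by decide +kernel)
           (CovZ.leaf K2_ok TE_l6715 _)
           (CovZ.leaf K2_ok TE_l6716 _))))))
      (CovZ.n1 (640, 30720) (by decide +kernel)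
       (CovZ.subM 9717740806898154120331835680931998209055002610285639465172996 (by decide +kernel)
        (CovZ.n2 (320, 31040) (by decide +kernel)
         (CovZ.n2 (640, 31040) (by decide +kernel)
          (CovZ.n2 (480, 30880) (by decide +kernel)
           (CovZ.leaf K2_ok TE_l6717 _)
           (CovZ.leaf K2_ok TE_l6718 _))
          (CovZ.leaf K2_ok TE_l6719 _))
         (CovZ.n1 (320, 30720) (by decide +kernel)
          (CovZ.leaf K2_ok TE_l6720 _)
          (CovZ.n1 (480, 30880) (by decide +kernel)
           (CovZ.leaf K2_ok TE_l6721 _)
           (CovZ.leaf K2_ok TE_l6722 _)))))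
       (CovZ.n1 (960, 31040) (by decide +kernel)
        (CovZ.n2 (960, 30720) (by decide +kernel)
         (CovZ.leaf K2_ok TE_l6723 _)
         (CovZ.n1 (1120, 30880) (by decide +kernel)
          (CovZ.leaf K2_ok TE_l6724 _)
          (CovZ.leaf K2_ok TE_l6725 _)))
        (CovZ.n1 (640, 31040) (by decide +kernel)
         (CovZ.n2 (800, 31200) (by decide +kernel)
          (CovZ.leaf K2_ok TE_l6726 _)
          (CovZ.leaf K2_ok TE_l6727 _))
         (CovZ.leaf K2_ok TE_l6728 _)))))
     (CovZ.n1 (1920, 31360) (by decide +kernel)
      (CovZ.n2 (1920, 30720) (by decide +kernel)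
       (CovZ.n2 (1600, 31040) (by decide +kernel)
        (CovZ.n2 (1920, 31040) (by decide +kernel)
         (CovZ.n2 (1760, 30880) (by decide +kernel)
          (CovZ.leaf K2_ok TE_l6729 _)
          (CovZ.leaf K2_ok TE_l6730 _))
         (CovZ.n1 (1760, 31200) (by decide +kernel)
          (CovZ.n2 (1920, 31200) (by decide +kernel)
           (CovZ.leaf K2_ok TE_l6731 _)
           (CovZ.leaf K2_ok TE_l6732 _))
          (CovZ.leaf K2_ok TE_l6733 _)))
        (CovZ.n1 (1600, 30720) (by decide +kernel)
         (CovZ.n2 (1440, 30880) (by decide +kernel)
          (CovZ.leaf K2_ok TE_l6734 _)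
          (CovZ.leaf K2_ok TE_l6735 _))
         (CovZ.n1 (1760, 30880) (by decide +kernel)
          (CovZ.leaf K2_ok TE_l6736 _)
          (CovZ.leaf K2_ok TE_l6737 _))))
       (CovZ.n1 (2240, 31040) (by decide +kernel)
        (CovZ.n2 (2240, 30720) (by decide +kernel)
         (CovZ.n2 (2080, 30880) (by decide +kernel)
          (CovZ.n2 (2240, 30880) (by decide +kernel)
           (CovZ.n2 (2160, 30800) (by decide +kernel)
            (CovZ.leaf K2_ok TE_l6738 _)
            (CovZ.leaf K2_ok TE_l6739 _))
           (CovZ.leaf K2_ok TE_l6740 _))
          (CovZ.n1 (2080, 30720) (by decide +kernel)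
           (CovZ.leaf K2_ok TE_l6741 _)
           (CovZ.n1 (2160, 30800) (by decide +kernel)
            (CovZ.leaf K2_ok TE_l6742 _)
            (CovZ.leaf K2_ok TE_l6743 _))))
         (CovZ.n1 (2400, 30880) (by decide +kernel)
          (CovZ.n2 (2400, 30720) (by decide +kernel)
           (CovZ.leaf K2_ok TE_l6744 _)
           (CovZ.n1 (2480, 30800) (by decide +kernel)
            (CovZ.leaf K2_ok TE_l6745 _)
            (CovZ.leaf K2_ok TE_l6746 _)))
          (CovZ.n1 (2240, 30880) (by decide +kernel)
           (CovZ.n2 (2320, 30960) (by decide +kernel)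
            (CovZ.leaf K2_ok TE_l6747 _)
            (CovZ.leaf K2_ok TE_l6748 _))
           (CovZ.leaf K2_ok TE_l6749 _))))
        (CovZ.n1 (1920, 31040) (by decide +kernel)
         (CovZ.n2 (2080, 31200) (by decide +kernel)
          (CovZ.n2 (2080, 31040) (by decide +kernel)
           (CovZ.leaf K2_ok TE_l6750 _)
           (CovZ.n1 (2160, 31120) (by decide +kernel)
            (CovZ.leaf K2_ok TE_l6751 _)
            (CovZ.leaf K2_ok TE_l6752 _)))
          (CovZ.n1 (1920, 31200) (by decide +kernel)
           (CovZ.leaf K2_ok TE_l6753 _)
           (CovZ.leaf K2_ok TE_l6754 _)))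
         (CovZ.n1 (2080, 30880) (by decide +kernel)
          (CovZ.n2 (1920, 30880) (by decide +kernel)
           (CovZ.leaf K2_ok TE_l6755 _)
           (CovZ.leaf K2_ok TE_l6756 _))
          (CovZ.n1 (2080, 31040) (by decide +kernel)
           (CovZ.leaf K2_ok TE_l6757 _)
           (CovZ.leaf K2_ok TE_l6758 _))))))
      (CovZ.n1 (1280, 31360) (by decide +kernel)
       (CovZ.subM 4168051875436399980201507550120310626086060972823893831057474 (by decide +kernel)
        (CovZ.n2 (1600, 31680) (by decide +kernel)
         (CovZ.n2 (1600, 31360) (by decide +kernel)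
          (CovZ.n2 (1440, 31520) (by decide +kernel)
           (CovZ.leaf K2_ok TE_l6759 _)
           (CovZ.leaf K2_ok TE_l6760 _))
          (CovZ.n1 (1760, 31520) (by decide +kernel)
           (CovZ.leaf K2_ok TE_l6761 _)
           (CovZ.leaf K2_ok TE_l6762 _)))
         (CovZ.n1 (1280, 31680) (by decide +kernel)
          (CovZ.n2 (1440, 31840) (by decide +kernel)
           (CovZ.leaf K2_ok TE_l6763 _)
           (CovZ.leaf K2_ok TE_l6764 _))
          (CovZ.n1 (1440, 31520) (by decide +kernel)
           (CovZ.leaf K2_ok TE_l6765 _)
           (CovZ.leaf K2_ok TE_l6766 _)))))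
       (CovZ.n1 (1600, 31040) (by decide +kernel)
        (CovZ.subM 3389645282389161573756464330618570642078862236443291418624066 (by decide +kernel)
         (CovZ.n2 (1280, 31040) (by decide +kernel)
          (CovZ.n2 (1440, 31200) (by decide +kernel)
           (CovZ.leaf K2_ok TE_l6767 _)
           (CovZ.leaf K2_ok TE_l6768 _))
          (CovZ.n1 (1440, 30880) (by decide +kernel)
           (CovZ.leaf K2_ok TE_l6769 _)
           (CovZ.leaf K2_ok TE_l6770 _))))
        (CovZ.n1 (1600, 31360) (by decide +kernel)
         (CovZ.n2 (1760, 31200) (by decide +kernel)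
          (CovZ.leaf K2_ok TE_l6771 _)
          (CovZ.leaf K2_ok TE_l6772 _))
         (CovZ.n1 (1440, 31200) (by decide +kernel)
          (CovZ.leaf K2_ok TE_l6773 _)
          (CovZ.leaf K2_ok TE_l6774 _)))))))))
    (CovZ.topM TE_LL 10584036064134857635195429444343055625422947316532420309680196 (by decide +kernel) (CovZ.n0 (1280, 32000) (by decide +kernel)
    TE_u224
    TE_u225))

theorem TE_s5_7 : SqZ TE_M TE_L [0, 7, 6, 1] (-10240) 12800 2560 5 7 :=
  SqZ.mk (a := 2560) (b := 5120) (c := 30720) (d := 33280) (by norm_num) (by norm_num) (by norm_num) (by norm_num)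
    (CovZ.topM TE_LL 21649492671600472280071074392373714282993859277845823554 (by decide +kernel) (CovZ.n2 (3840, 32000) (by decide +kernel)
    (CovZ.subM 316912650057057350374175801344 (by decide +kernel)
     (CovZ.n2 (5120, 32000) (by decide +kernel)
      (CovZ.n2 (4480, 31360) (by decide +kernel)
       (CovZ.n2 (4480, 32000) (by decide +kernel)
        (CovZ.n2 (4800, 31680) (by decide +kernel)
         (CovZ.badM (by decide +kernel))
         (CovZ.n1 (4800, 32000) (by decide +kernel)
          (CovZ.badM (by decide +kernel))
          (CovZ.badM (by decide +kernel))))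
        (CovZ.badM (by decide +kernel)))
       (CovZ.badM (by decide +kernel)))
      (CovZ.n1 (4480, 32640) (by decide +kernel)
       (CovZ.n2 (5120, 32640) (by decide +kernel)
        (CovZ.n2 (4800, 32320) (by decide +kernel)
         (CovZ.badM (by decide +kernel))
         (CovZ.badM (by decide +kernel)))
        (CovZ.badM (by decide +kernel)))
       (CovZ.n1 (4480, 32000) (by decide +kernel)
        (CovZ.badM (by decide +kernel))
        (CovZ.n1 (4800, 32320) (by decide +kernel)
         (CovZ.n2 (4800, 32000) (by decide +kernel)
          (CovZ.badM (by decide +kernel))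
          (CovZ.badM (by decide +kernel)))
         (CovZ.badM (by decide +kernel)))))))
    (CovZ.n1 (3840, 30720) (by decide +kernel)
     (CovZ.n2 (3200, 31360) (by decide +kernel)
      (CovZ.subM 23527606131791260517107193899778112 (by decide +kernel)
       (CovZ.n2 (3840, 31360) (by decide +kernel)
        (CovZ.n2 (3520, 31040) (by decide +kernel)
         (CovZ.n2 (3520, 31360) (by decide +kernel)
          (CovZ.n2 (3680, 31200) (by decide +kernel)
           (CovZ.n2 (3520, 31200) (by decide +kernel)
            (CovZ.badM (by decide +kernel))
            (CovZ.badM (by decide +kernel)))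
           (CovZ.badM (by decide +kernel)))
          (CovZ.n1 (3360, 31200) (by decide +kernel)
           TE_u226
           TE_u227))
         (CovZ.badM (by decide +kernel)))
        (CovZ.n1 (3520, 31680) (by decide +kernel)
         (CovZ.badM (by decide +kernel))
         (CovZ.n1 (3520, 31360) (by decide +kernel)
          (CovZ.n2 (3360, 31520) (by decide +kernel)
           TE_u228
           TE_u229)
          (CovZ.n1 (3680, 31520) (by decide +kernel)
           (CovZ.badM (by decide +kernel))
           (CovZ.n1 (3520, 31520) (by decide +kernel)
            (CovZ.badM (by decide +kernel))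
            (CovZ.badM (by decide +kernel))))))))
      (CovZ.n1 (3200, 30720) (by decide +kernel)
       (CovZ.n2 (2880, 31040) (by decide +kernel)
        TE_u230
        TE_u231)
       (CovZ.subM 231544157483167968496745179106115650 (by decide +kernel)
        (CovZ.n1 (3520, 31040) (by decide +kernel)
         (CovZ.n2 (3520, 30720) (by decide +kernel)
          (CovZ.n2 (3360, 30880) (by decide +kernel)
           TE_u232
           TE_u233)
          (CovZ.badM (by decide +kernel)))
         (CovZ.n1 (3200, 31040) (by decide +kernel)
          (CovZ.n2 (3360, 31200) (by decide +kernel)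
           TE_u234
           TE_u235)
          (CovZ.n1 (3360, 30880) (by decide +kernel)
           TE_u236
           TE_u237))))))
     (CovZ.n1 (4480, 31360) (by decide +kernel)
      (CovZ.badM (by decide +kernel))
      (CovZ.n1 (3840, 31360) (by decide +kernel)
       (CovZ.badM (by decide +kernel))
       (CovZ.badM (by decide +kernel)))))))
    (CovZ.topM TE_LL 21649492671511269299276951582894921352845915457646100546 (by decide +kernel) (CovZ.n0 (3840, 32000) (by decide +kernel)
    (CovZ.n2 (2560, 32000) (by decide +kernel)
     TE_u248
     TE_u249)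
    (CovZ.subM 9197966401975922324904607018173245163333386642233884672 (by decide +kernel)
     (CovZ.n1 (3840, 33280) (by decide +kernel)
      (CovZ.badM (by decide +kernel))
      (CovZ.n1 (3200, 32640) (by decide +kernel)
       (CovZ.n2 (3200, 33280) (by decide +kernel)
        (CovZ.badM (by decide +kernel))
        (CovZ.badM (by decide +kernel)))
       (CovZ.n1 (3840, 32640) (by decide +kernel)
        (CovZ.n2 (3520, 32320) (by decide +kernel)
         (CovZ.badM (by decide +kernel))
         (CovZ.badM (by decide +kernel)))
        (CovZ.badM (by decide +kernel))))))))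

theorem TE_s6_7 : SqZ TE_M TE_L [0, 7, 6, 1] (-10240) 12800 2560 6 7 :=
  SqZ.mk (a := 5120) (b := 7680) (c := 30720) (d := 33280) (by norm_num) (by norm_num) (by norm_num) (by norm_num)
    (CovZ.topM TE_LL 3138550867693340381917894794006073983043302426940396535816 (by decide +kernel) (CovZ.n2 (6400, 32000) (by decide +kernel)
    (CovZ.n2 (7680, 32000) (by decide +kernel)
     TE_u250
     TE_u251)
    (CovZ.n1 (6400, 30720) (by decide +kernel)
     TE_u256
     TE_u257)))
    (CovZ.topM TE_LL 316912650057057376904189050888 (by decide +kernel) (CovZ.n0 (6400, 32000) (by decide +kernel)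
    (CovZ.subM 316912650057057350515909984256 (by decide +kernel)
     (CovZ.n2 (5120, 32000) (by decide +kernel)
      (CovZ.n2 (5760, 32640) (by decide +kernel)
       (CovZ.n2 (5760, 32000) (by decide +kernel)
        (CovZ.badM (by decide +kernel))
        (CovZ.n1 (6080, 32320) (by decide +kernel)
         (CovZ.n2 (6080, 32000) (by decide +kernel)
          (CovZ.badM (by decide +kernel))
          (CovZ.n1 (6240, 32160) (by decide +kernel)
           (CovZ.n2 (6240, 32000) (by decide +kernel)
            (CovZ.badM (by decide +kernel))
            (CovZ.badM (by decide +kernel)))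
           (CovZ.badM (by decide +kernel))))
         (CovZ.badM (by decide +kernel))))
       (CovZ.n1 (5120, 32640) (by decide +kernel)
        (CovZ.n2 (5440, 32960) (by decide +kernel)
         (CovZ.badM (by decide +kernel))
         (CovZ.badM (by decide +kernel)))
        (CovZ.badM (by decide +kernel))))
      (CovZ.n1 (5760, 31360) (by decide +kernel)
       (CovZ.badM (by decide +kernel))
       (CovZ.n1 (5760, 32000) (by decide +kernel)
        (CovZ.n2 (6080, 31680) (by decide +kernel)
         (CovZ.badM (by decide +kernel))
         (CovZ.n1 (6080, 32000) (by decide +kernel)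
          (CovZ.n2 (6240, 31840) (by decide +kernel)
           (CovZ.badM (by decide +kernel))
           (CovZ.n1 (6240, 32000) (by decide +kernel)
            (CovZ.n2 (6320, 31920) (by decide +kernel)
             (CovZ.n2 (6240, 31920) (by decide +kernel)
              (CovZ.n2 (6280, 31960) (by decide +kernel)
               (CovZ.n2 (6280, 31920) (by decide +kernel)
                (CovZ.badM (by decide +kernel))
                (CovZ.badM (by decide +kernel)))
               (CovZ.badM (by decide +kernel)))
              (CovZ.n1 (6280, 31880) (by decide +kernel)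
               (CovZ.badM (by decide +kernel))
               (CovZ.n1 (6280, 31920) (by decide +kernel)
                (CovZ.n2 (6300, 31900) (by decide +kernel)
                 (CovZ.badM (by decide +kernel))
                 (CovZ.badM (by decide +kernel)))
                (CovZ.badM (by decide +kernel)))))
             (CovZ.badM (by decide +kernel)))
            (CovZ.badM (by decide +kernel))))
          (CovZ.badM (by decide +kernel))))
        (CovZ.badM (by decide +kernel))))))
    (CovZ.subM 316912650057057367966361845768 (by decide +kernel)
     (CovZ.n1 (6400, 33280) (by decide +kernel)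
      (CovZ.n2 (7040, 32640) (by decide +kernel)
       (CovZ.n2 (6400, 32640) (by decide +kernel)
        (CovZ.n2 (6720, 32960) (by decide +kernel)
         (CovZ.n2 (6720, 32640) (by decide +kernel)
          (CovZ.badM (by decide +kernel))
          (CovZ.badM (by decide +kernel)))
         (CovZ.badM (by decide +kernel)))
        (CovZ.n1 (6720, 32320) (by decide +kernel)
         (CovZ.badM (by decide +kernel))
         (CovZ.n1 (6720, 32640) (by decide +kernel)
          (CovZ.n2 (6880, 32480) (by decide +kernel)
           (CovZ.n2 (6720, 32480) (by decide +kernel)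
            (CovZ.badM (by decide +kernel))
            (CovZ.n1 (6800, 32400) (by decide +kernel)
             (CovZ.n2 (6720, 32400) (by decide +kernel)
              (CovZ.n2 (6760, 32440) (by decide +kernel)
               (CovZ.n2 (6760, 32400) (by decide +kernel)
                (CovZ.leaf K2_ok TE_l19303 _)
                (CovZ.leaf K2_ok TE_l19304 _))
               (CovZ.badM (by decide +kernel)))
              (CovZ.n1 (6760, 32360) (by decide +kernel)
               (CovZ.n2 (6720, 32360) (by decide +kernel)
                (CovZ.leaf K2_ok TE_l19305 _)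
                (CovZ.leaf K2_ok TE_l19306 _))
               (CovZ.n1 (6760, 32400) (by decide +kernel)
                (CovZ.leaf K2_ok TE_l19307 _)
                (CovZ.leaf K2_ok TE_l19308 _))))
             (CovZ.badM (by decide +kernel))))
           (CovZ.badM (by decide +kernel)))
          (CovZ.badM (by decide +kernel)))))
       (CovZ.n1 (7040, 33280) (by decide +kernel)
        (CovZ.n2 (7360, 32960) (by decide +kernel)
         (CovZ.badM (by decide +kernel))
         (CovZ.n1 (7360, 33280) (by decide +kernel)
          (CovZ.n2 (7520, 33120) (by decide +kernel)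
           (CovZ.n2 (7360, 33120) (by decide +kernel)
            (CovZ.n2 (7440, 33200) (by decide +kernel)
             (CovZ.n2 (7440, 33120) (by decide +kernel)
              (CovZ.badM (by decide +kernel))
              (CovZ.leaf K2_ok TE_l19309 _))
             (CovZ.badM (by decide +kernel)))
            (CovZ.n1 (7440, 33040) (by decide +kernel)
             (CovZ.n2 (7360, 33040) (by decide +kernel)
              (CovZ.leaf K2_ok TE_l19310 _)
              (CovZ.leaf K2_ok TE_l19311 _))
             (CovZ.n1 (7440, 33120) (by decide +kernel)
              (CovZ.leaf K2_ok TE_l19312 _)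
              (CovZ.leaf K2_ok TE_l19313 _))))
           (CovZ.n1 (7520, 33280) (by decide +kernel)
            (CovZ.n2 (7600, 33200) (by decide +kernel)
             (CovZ.n2 (7520, 33200) (by decide +kernel)
              (CovZ.leaf K2_ok TE_l19314 _)
              (CovZ.leaf K2_ok TE_l19315 _))
             (CovZ.n1 (7600, 33280) (by decide +kernel)
              (CovZ.leaf K2_ok TE_l19316 _)
              (CovZ.leaf K2_ok TE_l19317 _)))
            (CovZ.n1 (7440, 33200) (by decide +kernel)
             (CovZ.n2 (7440, 33280) (by decide +kernel)
              (CovZ.leaf K2_ok TE_l19318 _)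
              (CovZ.badM (by decide +kernel)))
             (CovZ.n1 (7520, 33200) (by decide +kernel)
              (CovZ.leaf K2_ok TE_l19319 _)
              (CovZ.leaf K2_ok TE_l19320 _)))))
          (CovZ.badM (by decide +kernel))))
        (CovZ.badM (by decide +kernel))))
      (CovZ.n1 (5760, 32640) (by decide +kernel)
       (CovZ.n2 (5760, 33280) (by decide +kernel)
        (CovZ.badM (by decide +kernel))
        (CovZ.n1 (5440, 32960) (by decide +kernel)
         (CovZ.badM (by decide +kernel))
         (CovZ.badM (by decide +kernel))))
       (CovZ.badM (by decide +kernel)))))))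

end Pool.Agent.TET
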