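import Pool.Agent.Helper38_TET.TE_M
import Pool.Agent.Helper38_TET.TE_L
import Pool.Agent.Helper38_TET.TE_102
import Pool.Agent.Helper38_TET.TE_106
import Pool.Agent.Helper38_TET.TE_107
import Pool.Agent.Helper38_TET.TE_110
import Pool.Agent.Helper38_TET.TE_111
import Pool.Agent.Helper38_TET.TE_112
import Pool.Agent.Helper38_TET.TE_113
import Pool.Agent.Helper38_TET.TE_129
import Pool.Agent.Helper38_TET.TE_130
import Pool.Agent.Helper38_TET.TE_131
import Pool.Agent.Helper38_TET.TE_U16

/-!
# MP_c7c9bf_co: certificates, family TE
-/

set_option autoImplicit false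
set_option maxRecDepth 100000

namespace Pool.Agent.TET

theorem TE_s7_7 : SqZ TE_M TE_L [0, 7, 6, 1] (-10240) 12800 2560 7 7 :=
  SqZ.mk (a := 7680) (b := 10240) (c := 30720) (d := 33280) (by norm_num) (by norm_num) (by norm_num) (by norm_num)
    (CovZ.topM TE_LL 82402240777353307937342813900808 (by decide +kernel) (CovZ.n2 (8960, 32000) (by decide +kernel)
    (CovZ.n2 (10240, 32000) (by decide +kernel)
     (CovZ.n2 (9600, 31360) (by decide +kernel)
      (CovZ.leaf K2_ok TE_l15404 _)
      (CovZ.n1 (10240, 31360) (by decide +kernel)
       (CovZ.leaf K2_ok TE_l15405 _)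
       (CovZ.leaf K2_ok TE_l15406 _)))
     (CovZ.n1 (9600, 32640) (by decide +kernel)
      (CovZ.n2 (10240, 32640) (by decide +kernel)
       (CovZ.n2 (9920, 32320) (by decide +kernel)
        (CovZ.leaf K2_ok TE_l15407 _)
        (CovZ.leaf K2_ok TE_l15408 _))
       (CovZ.n1 (9920, 32960) (by decide +kernel)
        (CovZ.n2 (10240, 32960) (by decide +kernel)
         (CovZ.leaf K2_ok TE_l15409 _)
         (CovZ.leaf K2_ok TE_l15410 _))
        (CovZ.leaf K2_ok TE_l15411 _)))
      (CovZ.n1 (9600, 32000) (by decide +kernel)
       (CovZ.leaf K2_ok TE_l15412 _)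
       (CovZ.leaf K2_ok TE_l15413 _))))
    (CovZ.n1 (8960, 30720) (by decide +kernel)
     (CovZ.n2 (8320, 31360) (by decide +kernel)
      (CovZ.leaf K2_ok TE_l15414 _)
      (CovZ.leaf K2_ok TE_l15415 _))
     (CovZ.n1 (9600, 31360) (by decide +kernel)
      (CovZ.leaf K2_ok TE_l15416 _)
      (CovZ.leaf K2_ok TE_l15417 _)))))
    (CovZ.topM TE_LL 3138550867693340381917894794006073983043302418140008550408 (by decide +kernel) (CovZ.n0 (8960, 32000) (by decide +kernel)
    (CovZ.n2 (7680, 32000) (by decide +kernel)
     (CovZ.n2 (8320, 32640) (by decide +kernel)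
      (CovZ.n2 (8320, 32000) (by decide +kernel)
       (CovZ.n2 (8000, 32320) (by decide +kernel)
        (CovZ.leaf K2_ok TE_l15418 _)
        (CovZ.leaf K2_ok TE_l15419 _))
       (CovZ.n1 (8640, 32320) (by decide +kernel)
        (CovZ.leaf K2_ok TE_l15420 _)
        (CovZ.leaf K2_ok TE_l15421 _)))
      (CovZ.subM 4951760157213598484843986944 (by decide +kernel)
       (CovZ.n1 (7680, 32640) (by decide +kernel)
        (CovZ.n2 (8000, 32960) (by decide +kernel)
         (CovZ.n2 (8000, 32640) (by decide +kernel)
          (CovZ.leaf K2_ok TE_l19349 _)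
          (CovZ.leaf K2_ok TE_l15422 _))
         (CovZ.n1 (7680, 32960) (by decide +kernel)
          (CovZ.n2 (7840, 33120) (by decide +kernel)
           (CovZ.leaf K2_ok TE_l19350 _)
           (CovZ.n1 (7680, 33120) (by decide +kernel)
            (CovZ.n2 (7760, 33200) (by decide +kernel)
             (CovZ.leaf K2_ok TE_l19351 _)
             (CovZ.leaf K2_ok TE_l19352 _))
            (CovZ.leaf K2_ok TE_l19353 _)))
          (CovZ.n1 (7840, 32800) (by decide +kernel)
           (CovZ.leaf K2_ok TE_l19354 _)
           (CovZ.leaf K2_ok TE_l19355 _))))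
        (CovZ.n1 (8000, 32320) (by decide +kernel)
         (CovZ.n2 (7680, 32320) (by decide +kernel)
          (CovZ.leaf K2_ok TE_l19356 _)
          (CovZ.leaf K2_ok TE_l19357 _))
         (CovZ.n1 (8000, 32640) (by decide +kernel)
          (CovZ.leaf K2_ok TE_l15423 _)
          (CovZ.n1 (7840, 32480) (by decide +kernel)
           (CovZ.leaf K2_ok TE_l19358 _)
           (CovZ.leaf K2_ok TE_l19359 _)))))))
     (CovZ.n1 (8320, 31360) (by decide +kernel)
      (CovZ.n2 (7680, 31360) (by decide +kernel)
       (CovZ.n2 (8000, 31680) (by decide +kernel)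
        (CovZ.leaf K2_ok TE_l15424 _)
        (CovZ.leaf K2_ok TE_l15425 _))
       (CovZ.leaf K2_ok TE_l15426 _))
      (CovZ.n1 (8320, 32000) (by decide +kernel)
       (CovZ.leaf K2_ok TE_l15427 _)
       (CovZ.n1 (8000, 31680) (by decide +kernel)
        (CovZ.leaf K2_ok TE_l15428 _)
        (CovZ.leaf K2_ok TE_l15429 _)))))
    (CovZ.n1 (8960, 33280) (by decide +kernel)
     (CovZ.n2 (9600, 32640) (by decide +kernel)
      (CovZ.n2 (8960, 32640) (by decide +kernel)
       (CovZ.n2 (9280, 32960) (by decide +kernel)
        (CovZ.leaf K2_ok TE_l15430 _)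
        (CovZ.leaf K2_ok TE_l15431 _))
       (CovZ.leaf K2_ok TE_l15432 _))
      (CovZ.n1 (9600, 33280) (by decide +kernel)
       (CovZ.n2 (9920, 32960) (by decide +kernel)
        (CovZ.leaf K2_ok TE_l15433 _)
        (CovZ.n1 (9920, 33280) (by decide +kernel)
         (CovZ.leaf K2_ok TE_l15434 _)
         (CovZ.leaf K2_ok TE_l15435 _)))
       (CovZ.n1 (9280, 32960) (by decide +kernel)
        (CovZ.leaf K2_ok TE_l15436 _)
        (CovZ.leaf K2_ok TE_l15437 _))))
     (CovZ.n1 (8320, 32640) (by decide +kernel)
      (CovZ.subM 4951760157213598484843986944 (by decide +kernel)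
       (CovZ.n2 (8320, 33280) (by decide +kernel)
        (CovZ.n2 (8640, 32960) (by decide +kernel)
         (CovZ.n2 (8320, 32960) (by decide +kernel)
          (CovZ.leaf K2_ok TE_l15438 _)
          (CovZ.leaf K2_ok TE_l15439 _))
         (CovZ.n1 (8640, 33280) (by decide +kernel)
          (CovZ.leaf K2_ok TE_l15440 _)
          (CovZ.leaf K2_ok TE_l15441 _)))
        (CovZ.n1 (8000, 32960) (by decide +kernel)
         (CovZ.n2 (8000, 33280) (by decide +kernel)
          (CovZ.n2 (8160, 33120) (by decide +kernel)
           (CovZ.leaf K2_ok TE_l19360 _)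
           (CovZ.leaf K2_ok TE_l19361 _))
          (CovZ.n1 (7840, 33120) (by decide +kernel)
           (CovZ.n2 (7840, 33280) (by decide +kernel)
            (CovZ.leaf K2_ok TE_l19362 _)
            (CovZ.n1 (7760, 33200) (by decide +kernel)
             (CovZ.leaf K2_ok TE_l19363 _)
             (CovZ.leaf K2_ok TE_l19364 _)))
           (CovZ.leaf K2_ok TE_l19365 _)))
         (CovZ.n1 (8320, 32960) (by decide +kernel)
          (CovZ.leaf K2_ok TE_l15442 _)
          (CovZ.leaf K2_ok TE_l19366 _)))))
      (CovZ.n1 (8960, 32640) (by decide +kernel)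
       (CovZ.n2 (8640, 32320) (by decide +kernel)
        (CovZ.leaf K2_ok TE_l15443 _)
        (CovZ.leaf K2_ok TE_l15444 _))
       (CovZ.n1 (8640, 32960) (by decide +kernel)
        (CovZ.leaf K2_ok TE_l15445 _)
        (CovZ.leaf K2_ok TE_l15446 _)))))))

theorem TE_s8_7 : SqZ TE_M TE_L [0, 7, 6, 1] (-10240) 12800 2560 8 7 :=
  SqZ.mk (a := 10240) (b := 12800) (c := 30720) (d := 33280) (by norm_num) (by norm_num) (by norm_num) (by norm_num)
    (CovZ.topM TE_LL 81134590177125006478252072767488 (by decide +kernel) (CovZ.n2 (11520, 32000) (by decide +kernel)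
    (CovZ.n2 (12800, 32000) (by decide +kernel)
     (CovZ.n2 (12160, 31360) (by decide +kernel)
      (CovZ.n2 (12160, 32000) (by decide +kernel)
       (CovZ.subM 81129638416967864937223828017152 (by decide +kernel)
        (CovZ.n2 (12480, 31680) (by decide +kernel)
         (CovZ.n2 (12160, 31680) (by decide +kernel)
          (CovZ.leaf K2_ok TE_l16037 _)
          (CovZ.leaf K2_ok TE_l16038 _))
         (CovZ.n1 (12480, 32000) (by decide +kernel)
          (CovZ.n2 (12640, 31840) (by decide +kernel)
           (CovZ.leaf K2_ok TE_l16039 _)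
           (CovZ.leaf K2_ok TE_l16040 _))
          (CovZ.leaf K2_ok TE_l16041 _))))
       (CovZ.n1 (11840, 31680) (by decide +kernel)
        (CovZ.n2 (11840, 32000) (by decide +kernel)
         (CovZ.leaf K2_ok TE_l16042 _)
         (CovZ.leaf K2_ok TE_l16043 _))
        (CovZ.n1 (12160, 31680) (by decide +kernel)
         (CovZ.leaf K2_ok TE_l16044 _)
         (CovZ.leaf K2_ok TE_l16045 _))))
      (CovZ.subM 81129638416967864937223828017152 (by decide +kernel)
       (CovZ.n1 (12800, 31360) (by decide +kernel)
        (CovZ.n2 (12480, 31040) (by decide +kernel)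
         (CovZ.leaf K2_ok TE_l16046 _)
         (CovZ.leaf K2_ok TE_l16047 _))
        (CovZ.n1 (12480, 31680) (by decide +kernel)
         (CovZ.n2 (12800, 31680) (by decide +kernel)
          (CovZ.leaf K2_ok TE_l16048 _)
          (CovZ.n1 (12640, 31840) (by decide +kernel)
           (CovZ.leaf K2_ok TE_l16049 _)
           (CovZ.leaf K2_ok TE_l16050 _)))
         (CovZ.leaf K2_ok TE_l16051 _)))))
     (CovZ.subM 81129638416967864937223828017152 (by decide +kernel)
      (CovZ.n1 (12160, 32640) (by decide +kernel)
       (CovZ.n2 (12800, 32640) (by decide +kernel)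
        (CovZ.n2 (12480, 32320) (by decide +kernel)
         (CovZ.badM (by decide +kernel))
         (CovZ.n1 (12800, 32320) (by decide +kernel)
          (CovZ.n2 (12640, 32160) (by decide +kernel)
           (CovZ.n2 (12640, 32320) (by decide +kernel)
            (CovZ.n2 (12720, 32240) (by decide +kernel)
             (CovZ.leaf K2_ok TE_l16061 _)
             (CovZ.badM (by decide +kernel)))
            (CovZ.leaf K2_ok TE_l16063 _))
           (CovZ.n1 (12800, 32160) (by decide +kernel)
            (CovZ.leaf K2_ok TE_l16064 _)
            (CovZ.leaf K2_ok TE_l16065 _)))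
          (CovZ.badM (by decide +kernel))))
        (CovZ.badM (by decide +kernel)))
       (CovZ.n1 (12160, 32000) (by decide +kernel)
        (CovZ.n2 (11840, 32320) (by decide +kernel)
         (CovZ.n2 (12160, 32320) (by decide +kernel)
          (CovZ.n2 (12000, 32160) (by decide +kernel)
           (CovZ.leaf K2_ok TE_l16070 _)
           (CovZ.leaf K2_ok TE_l16071 _))
          (CovZ.n1 (12000, 32480) (by decide +kernel)
           (CovZ.n2 (12160, 32480) (by decide +kernel)
            (CovZ.leaf K2_ok TE_l16072 _)
            (CovZ.leaf K2_ok TE_l16073 _))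
           (CovZ.leaf K2_ok TE_l16074 _)))
         (CovZ.n1 (11840, 32000) (by decide +kernel)
          (CovZ.leaf K2_ok TE_l16075 _)
          (CovZ.leaf K2_ok TE_l16076 _)))
        (CovZ.n1 (12480, 32320) (by decide +kernel)
         (CovZ.n2 (12480, 32000) (by decide +kernel)
          (CovZ.n2 (12320, 32160) (by decide +kernel)
           (CovZ.leaf K2_ok TE_l16077 _)
           (CovZ.leaf K2_ok TE_l16078 _))
          (CovZ.n1 (12640, 32160) (by decide +kernel)
           (CovZ.leaf K2_ok TE_l16079 _)
           (CovZ.n1 (12480, 32160) (by decide +kernel)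
            (CovZ.leaf K2_ok TE_l16080 _)
            (CovZ.leaf K2_ok TE_l16081 _))))
         (CovZ.n1 (12160, 32320) (by decide +kernel)
          (CovZ.n2 (12320, 32480) (by decide +kernel)
           (CovZ.n2 (12320, 32320) (by decide +kernel)
            (CovZ.leaf K2_ok TE_l16082 _)
            (CovZ.leaf K2_ok TE_l16083 _))
           (CovZ.n1 (12160, 32480) (by decide +kernel)
            (CovZ.n2 (12240, 32560) (by decide +kernel)
             (CovZ.leaf K2_ok TE_l16084 _)
             (CovZ.leaf K2_ok TE_l16085 _))
            (CovZ.leaf K2_ok TE_l16086 _)))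
          (CovZ.n1 (12320, 32160) (by decide +kernel)
           (CovZ.leaf K2_ok TE_l16087 _)
           (CovZ.n1 (12320, 32320) (by decide +kernel)
            (CovZ.leaf K2_ok TE_l16088 _)
            (CovZ.leaf K2_ok TE_l16089 _)))))))))
    (CovZ.n1 (11520, 30720) (by decide +kernel)
     (CovZ.n2 (10880, 31360) (by decide +kernel)
      (CovZ.n2 (11520, 31360) (by decide +kernel)
       (CovZ.leaf K2_ok TE_l16090 _)
       (CovZ.leaf K2_ok TE_l16091 _))
      (CovZ.leaf K2_ok TE_l16092 _))
     (CovZ.n1 (12160, 31360) (by decide +kernel)
      (CovZ.n2 (12160, 30720) (by decide +kernel)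
       (CovZ.leaf K2_ok TE_l16093 _)
       (CovZ.leaf K2_ok TE_l16094 _))
      (CovZ.n1 (11520, 31360) (by decide +kernel)
       (CovZ.n2 (11840, 31680) (by decide +kernel)
        (CovZ.leaf K2_ok TE_l16095 _)
        (CovZ.leaf K2_ok TE_l16096 _))
       (CovZ.leaf K2_ok TE_l16097 _))))))
    (CovZ.topM TE_LL 81134590177125006478252072767488 (by decide +kernel) (CovZ.n0 (11520, 32000) (by decide +kernel)
    (CovZ.n2 (10240, 32000) (by decide +kernel)
     (CovZ.n2 (10880, 32640) (by decide +kernel)
      (CovZ.n2 (10880, 32000) (by decide +kernel)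
       (CovZ.n2 (10560, 32320) (by decide +kernel)
        (CovZ.n2 (10880, 32320) (by decide +kernel)
         (CovZ.leaf K2_ok TE_l16098 _)
         (CovZ.leaf K2_ok TE_l16099 _))
        (CovZ.leaf K2_ok TE_l16100 _))
       (CovZ.n1 (11200, 32320) (by decide +kernel)
        (CovZ.leaf K2_ok TE_l16101 _)
        (CovZ.leaf K2_ok TE_l16102 _)))
      (CovZ.n1 (10240, 32640) (by decide +kernel)
       (CovZ.subM 81129638416967864937223828017152 (by decide +kernel)
        (CovZ.n2 (10560, 32960) (by decide +kernel)
         (CovZ.n2 (10560, 32640) (by decide +kernel)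
          (CovZ.leaf K2_ok TE_l16103 _)
          (CovZ.leaf K2_ok TE_l16104 _))
         (CovZ.n1 (10240, 32960) (by decide +kernel)
          (CovZ.n2 (10400, 33120) (by decide +kernel)
           (CovZ.leaf K2_ok TE_l16105 _)
           (CovZ.leaf K2_ok TE_l16106 _))
          (CovZ.leaf K2_ok TE_l16107 _))))
       (CovZ.n1 (10560, 32320) (by decide +kernel)
        (CovZ.leaf K2_ok TE_l16108 _)
        (CovZ.leaf K2_ok TE_l16109 _))))
     (CovZ.n1 (10880, 31360) (by decide +kernel)
      (CovZ.n2 (10240, 31360) (by decide +kernel)
       (CovZ.leaf K2_ok TE_l16110 _)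
       (CovZ.leaf K2_ok TE_l16111 _))
      (CovZ.n1 (10880, 32000) (by decide +kernel)
       (CovZ.leaf K2_ok TE_l16112 _)
       (CovZ.leaf K2_ok TE_l16113 _))))
    (CovZ.subM 81129638416967864937223828017152 (by decide +kernel)
     (CovZ.n1 (11520, 33280) (by decide +kernel)
      (CovZ.n2 (12160, 32640) (by decide +kernel)
       (CovZ.n2 (11520, 32640) (by decide +kernel)
        (CovZ.n2 (11840, 32960) (by decide +kernel)
         (CovZ.n2 (11840, 32640) (by decide +kernel)
          (CovZ.n2 (11680, 32800) (by decide +kernel)
           (CovZ.n2 (11840, 32800) (by decide +kernel)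
            (CovZ.n2 (11760, 32720) (by decide +kernel)
             (CovZ.leaf K2_ok TE_l19440 _)
             (CovZ.leaf K2_ok TE_l19441 _))
            (CovZ.n1 (11760, 32880) (by decide +kernel)
             (CovZ.badM (by decide +kernel))
             (CovZ.leaf K2_ok TE_l19442 _)))
           (CovZ.n1 (11680, 32640) (by decide +kernel)
            (CovZ.leaf K2_ok TE_l16114 _)
            (CovZ.leaf K2_ok TE_l16115 _)))
          (CovZ.n1 (12000, 32800) (by decide +kernel)
           (CovZ.n2 (12000, 32640) (by decide +kernel)
            (CovZ.n2 (11920, 32720) (by decide +kernel)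
             (CovZ.leaf K2_ok TE_l19443 _)
             (CovZ.leaf K2_ok TE_l19444 _))
            (CovZ.n1 (12080, 32720) (by decide +kernel)
             (CovZ.leaf K2_ok TE_l16116 _)
             (CovZ.leaf K2_ok TE_l19445 _)))
           (CovZ.n1 (11840, 32800) (by decide +kernel)
            (CovZ.badM (by decide +kernel))
            (CovZ.n1 (11920, 32720) (by decide +kernel)
             (CovZ.leaf K2_ok TE_l19446 _)
             (CovZ.badM (by decide +kernel))))))
         (CovZ.n1 (11520, 32960) (by decide +kernel)
          (CovZ.n2 (11680, 33120) (by decide +kernel)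
           (CovZ.n2 (11680, 32960) (by decide +kernel)
            (CovZ.n2 (11600, 33040) (by decide +kernel)
             (CovZ.badM (by decide +kernel))
             (CovZ.leaf K2_ok TE_l19447 _))
            (CovZ.badM (by decide +kernel)))
           (CovZ.n1 (11520, 33120) (by decide +kernel)
            (CovZ.badM (by decide +kernel))
            (CovZ.n1 (11600, 33040) (by decide +kernel)
             (CovZ.leaf K2_ok TE_l19448 _)
             (CovZ.badM (by decide +kernel)))))
          (CovZ.n1 (11680, 32800) (by decide +kernel)
           (CovZ.n2 (11520, 32800) (by decide +kernel)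
            (CovZ.leaf K2_ok TE_l19449 _)
            (CovZ.leaf K2_ok TE_l16117 _))
           (CovZ.n1 (11680, 32960) (by decide +kernel)
            (CovZ.n2 (11760, 32880) (by decide +kernel)
             (CovZ.leaf K2_ok TE_l19450 _)
             (CovZ.badM (by decide +kernel)))
            (CovZ.n1 (11600, 32880) (by decide +kernel)
             (CovZ.leaf K2_ok TE_l19451 _)
             (CovZ.leaf K2_ok TE_l19452 _))))))
        (CovZ.n1 (11840, 32320) (by decide +kernel)
         (CovZ.n2 (11520, 32320) (by decide +kernel)
          (CovZ.n2 (11680, 32480) (by decide +kernel)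
           (CovZ.leaf K2_ok TE_l16118 _)
           (CovZ.leaf K2_ok TE_l16119 _))
          (CovZ.leaf K2_ok TE_l16120 _))
         (CovZ.n1 (11840, 32640) (by decide +kernel)
          (CovZ.n2 (12000, 32480) (by decide +kernel)
           (CovZ.leaf K2_ok TE_l16121 _)
           (CovZ.n1 (12000, 32640) (by decide +kernel)
            (CovZ.leaf K2_ok TE_l16122 _)
            (CovZ.leaf K2_ok TE_l16123 _)))
          (CovZ.n1 (11680, 32480) (by decide +kernel)
           (CovZ.n2 (11680, 32640) (by decide +kernel)
            (CovZ.leaf K2_ok TE_l16124 _)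
            (CovZ.leaf K2_ok TE_l16125 _))
           (CovZ.leaf K2_ok TE_l16126 _)))))
       (CovZ.badM (by decide +kernel)))
      (CovZ.n1 (10880, 32640) (by decide +kernel)
       (CovZ.n2 (10880, 33280) (by decide +kernel)
        (CovZ.n2 (11200, 32960) (by decide +kernel)
         (CovZ.n2 (10880, 32960) (by decide +kernel)
          (CovZ.n2 (11040, 33120) (by decide +kernel)
           (CovZ.n2 (11040, 32960) (by decide +kernel)
            (CovZ.leaf K2_ok TE_l16127 _)
            (CovZ.leaf K2_ok TE_l19453 _))
           (CovZ.n1 (10880, 33120) (by decide +kernel)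
            (CovZ.leaf K2_ok TE_l19454 _)
            (CovZ.leaf K2_ok TE_l16128 _)))
          (CovZ.n1 (11040, 32800) (by decide +kernel)
           (CovZ.leaf K2_ok TE_l16129 _)
           (CovZ.leaf K2_ok TE_l16130 _)))
         (CovZ.n1 (11200, 33280) (by decide +kernel)
          (CovZ.n2 (11360, 33120) (by decide +kernel)
           (CovZ.n2 (11200, 33120) (by decide +kernel)
            (CovZ.n2 (11280, 33200) (by decide +kernel)
             (CovZ.leaf K2_ok TE_l19455 _)
             (CovZ.leaf K2_ok TE_l19456 _))
            (CovZ.leaf K2_ok TE_l19457 _))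
           (CovZ.n1 (11360, 33280) (by decide +kernel)
            (CovZ.n2 (11440, 33200) (by decide +kernel)
             (CovZ.n2 (11360, 33200) (by decide +kernel)
              (CovZ.badM (by decide +kernel))
              (CovZ.leaf K2_ok TE_l19458 _))
             (CovZ.badM (by decide +kernel)))
            (CovZ.n1 (11280, 33200) (by decide +kernel)
             (CovZ.badM (by decide +kernel))
             (CovZ.n1 (11360, 33200) (by decide +kernel)
              (CovZ.leaf K2_ok TE_l19459 _)
              (CovZ.badM (by decide +kernel))))))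
          (CovZ.n1 (11040, 33120) (by decide +kernel)
           (CovZ.n2 (11040, 33280) (by decide +kernel)
            (CovZ.n2 (11120, 33200) (by decide +kernel)
             (CovZ.leaf K2_ok TE_l19460 _)
             (CovZ.leaf K2_ok TE_l19461 _))
            (CovZ.n1 (10960, 33200) (by decide +kernel)
             (CovZ.leaf K2_ok TE_l19462 _)
             (CovZ.leaf K2_ok TE_l19463 _)))
           (CovZ.n1 (11200, 33120) (by decide +kernel)
            (CovZ.leaf K2_ok TE_l19464 _)
            (CovZ.n1 (11120, 33200) (by decide +kernel)
             (CovZ.leaf K2_ok TE_l19465 _)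
             (CovZ.leaf K2_ok TE_l19466 _))))))
        (CovZ.n1 (10560, 32960) (by decide +kernel)
         (CovZ.n2 (10560, 33280) (by decide +kernel)
          (CovZ.n2 (10720, 33120) (by decide +kernel)
           (CovZ.leaf K2_ok TE_l16131 _)
           (CovZ.n1 (10720, 33280) (by decide +kernel)
            (CovZ.leaf K2_ok TE_l19467 _)
            (CovZ.leaf K2_ok TE_l19468 _)))
          (CovZ.n1 (10400, 33120) (by decide +kernel)
           (CovZ.leaf K2_ok TE_l19469 _)
           (CovZ.leaf K2_ok TE_l16132 _)))
         (CovZ.n1 (10880, 32960) (by decide +kernel)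
          (CovZ.n2 (10720, 32800) (by decide +kernel)
           (CovZ.leaf K2_ok TE_l16133 _)
           (CovZ.leaf K2_ok TE_l16134 _))
          (CovZ.n1 (10720, 33120) (by decide +kernel)
           (CovZ.n2 (10880, 33120) (by decide +kernel)
            (CovZ.leaf K2_ok TE_l16135 _)
            (CovZ.leaf K2_ok TE_l19470 _))
           (CovZ.leaf K2_ok TE_l16136 _)))))
       (CovZ.n1 (11520, 32640) (by decide +kernel)
        (CovZ.n2 (11200, 32320) (by decide +kernel)
         (CovZ.n2 (11200, 32640) (by decide +kernel)
          (CovZ.leaf K2_ok TE_l16137 _)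
          (CovZ.leaf K2_ok TE_l16138 _))
         (CovZ.n1 (11520, 32320) (by decide +kernel)
          (CovZ.leaf K2_ok TE_l16139 _)
          (CovZ.leaf K2_ok TE_l16140 _)))
        (CovZ.n1 (11200, 32960) (by decide +kernel)
         (CovZ.n2 (11520, 32960) (by decide +kernel)
          (CovZ.n2 (11360, 32800) (by decide +kernel)
           (CovZ.n2 (11360, 32960) (by decide +kernel)
            (CovZ.leaf K2_ok TE_l19471 _)
            (CovZ.leaf K2_ok TE_l19472 _))
           (CovZ.n1 (11520, 32800) (by decide +kernel)
            (CovZ.leaf K2_ok TE_l16141 _)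
            (CovZ.leaf K2_ok TE_l19473 _)))
          (CovZ.n1 (11360, 33120) (by decide +kernel)
           (CovZ.n2 (11520, 33120) (by decide +kernel)
            (CovZ.n2 (11440, 33040) (by decide +kernel)
             (CovZ.n2 (11440, 33120) (by decide +kernel)
              (CovZ.leaf K2_ok TE_l19474 _)
              (CovZ.leaf K2_ok TE_l19475 _))
             (CovZ.leaf K2_ok TE_l19476 _))
            (CovZ.n1 (11440, 33200) (by decide +kernel)
             (CovZ.badM (by decide +kernel))
             (CovZ.n1 (11440, 33120) (by decide +kernel)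
              (CovZ.leaf K2_ok TE_l19477 _)
              (CovZ.badM (by decide +kernel)))))
           (CovZ.n1 (11360, 32960) (by decide +kernel)
            (CovZ.leaf K2_ok TE_l19478 _)
            (CovZ.n1 (11440, 33040) (by decide +kernel)
             (CovZ.leaf K2_ok TE_l19479 _)
             (CovZ.leaf K2_ok TE_l19480 _)))))
         (CovZ.n1 (11200, 32640) (by decide +kernel)
          (CovZ.n2 (11040, 32800) (by decide +kernel)
           (CovZ.leaf K2_ok TE_l16142 _)
           (CovZ.leaf K2_ok TE_l16143 _))
          (CovZ.n1 (11360, 32800) (by decide +kernel)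
           (CovZ.leaf K2_ok TE_l16144 _)
           (CovZ.leaf K2_ok TE_l16145 _))))))))))

theorem TE_s9_7 : SqZ TE_M TE_L [0, 7, 6, 1] (-10240) 12800 2560 9 7 :=
  SqZ.mk (a := 12800) (b := 15360) (c := 30720) (d := 33280) (by norm_num) (by norm_num) (by norm_num) (by norm_num)
    (CovZ.topM TE_LL 2361183241434822873088 (by decide +kernel) (CovZ.n2 (14080, 32000) (by decide +kernel)
    (CovZ.n2 (15360, 32000) (by decide +kernel)
     (CovZ.n2 (14720, 31360) (by decide +kernel)
      (CovZ.badM (by decide +kernel))
      (CovZ.n1 (15360, 31360) (by decide +kernel)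
       (CovZ.n2 (15040, 31040) (by decide +kernel)
        (CovZ.n2 (15040, 31360) (by decide +kernel)
         (CovZ.n2 (15200, 31200) (by decide +kernel)
          (CovZ.n2 (15040, 31200) (by decide +kernel)
           (CovZ.badM (by decide +kernel))
           (CovZ.n1 (15120, 31120) (by decide +kernel)
            (CovZ.leaf K2_ok TE_l16636 _)
            (CovZ.n1 (15120, 31200) (by decide +kernel)
             (CovZ.leaf K2_ok TE_l16637 _)
             (CovZ.leaf K2_ok TE_l16638 _))))
          (CovZ.badM (by decide +kernel)))
         (CovZ.n1 (14880, 31200) (by decide +kernel)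
          (CovZ.n2 (14880, 31360) (by decide +kernel)
           (CovZ.n2 (14960, 31280) (by decide +kernel)
            (CovZ.n2 (14880, 31280) (by decide +kernel)
             (CovZ.badM (by decide +kernel))
             (CovZ.leaf K2_ok TE_l16641 _))
            (CovZ.badM (by decide +kernel)))
           (CovZ.n1 (14800, 31280) (by decide +kernel)
            (CovZ.badM (by decide +kernel))
            (CovZ.n1 (14880, 31280) (by decide +kernel)
             (CovZ.leaf K2_ok TE_l16646 _)
             (CovZ.badM (by decide +kernel)))))
          (CovZ.n1 (15040, 31200) (by decide +kernel)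
           (CovZ.n2 (14960, 31120) (by decide +kernel)
            (CovZ.n2 (14960, 31200) (by decide +kernel)
             (CovZ.leaf K2_ok TE_l16648 _)
             (CovZ.leaf K2_ok TE_l16649 _))
            (CovZ.leaf K2_ok TE_l16650 _))
           (CovZ.n1 (14960, 31280) (by decide +kernel)
            (CovZ.badM (by decide +kernel))
            (CovZ.n1 (14960, 31200) (by decide +kernel)
             (CovZ.leaf K2_ok TE_l16653 _)
             (CovZ.badM (by decide +kernel)))))))
        (CovZ.n1 (15360, 31040) (by decide +kernel)
         (CovZ.n2 (15200, 30880) (by decide +kernel)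
          (CovZ.n2 (15200, 31040) (by decide +kernel)
           (CovZ.n2 (15280, 30960) (by decide +kernel)
            (CovZ.leaf K2_ok TE_l16655 _)
            (CovZ.n1 (15280, 31040) (by decide +kernel)
             (CovZ.leaf K2_ok TE_l16656 _)
             (CovZ.leaf K2_ok TE_l16657 _)))
           (CovZ.n1 (15120, 30960) (by decide +kernel)
            (CovZ.leaf K2_ok TE_l16658 _)
            (CovZ.leaf K2_ok TE_l16659 _)))
          (CovZ.n1 (15360, 30880) (by decide +kernel)
           (CovZ.leaf K2_ok TE_l16660 _)
           (CovZ.n1 (15280, 30960) (by decide +kernel)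
            (CovZ.leaf K2_ok TE_l16661 _)
            (CovZ.leaf K2_ok TE_l16662 _))))
         (CovZ.n1 (15200, 31200) (by decide +kernel)
          (CovZ.n2 (15360, 31200) (by decide +kernel)
           (CovZ.n2 (15280, 31120) (by decide +kernel)
            (CovZ.badM (by decide +kernel))
            (CovZ.n1 (15360, 31120) (by decide +kernel)
             (CovZ.n2 (15320, 31080) (by decide +kernel)
              (CovZ.badM (by decide +kernel))
              (CovZ.leaf K2_ok TE_l16663 _))
             (CovZ.badM (by decide +kernel))))
           (CovZ.badM (by decide +kernel)))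
          (CovZ.n1 (15200, 31040) (by decide +kernel)
           (CovZ.n2 (15120, 31120) (by decide +kernel)
            (CovZ.n2 (15200, 31120) (by decide +kernel)
             (CovZ.leaf K2_ok TE_l16664 _)
             (CovZ.leaf K2_ok TE_l16665 _))
            (CovZ.leaf K2_ok TE_l16666 _))
           (CovZ.n1 (15280, 31120) (by decide +kernel)
            (CovZ.n2 (15280, 31040) (by decide +kernel)
             (CovZ.leaf K2_ok TE_l16667 _)
             (CovZ.leaf K2_ok TE_l16668 _))
            (CovZ.n1 (15200, 31120) (by decide +kernel)
             (CovZ.badM (by decide +kernel))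
             (CovZ.leaf K2_ok TE_l16671 _)))))))
       (CovZ.badM (by decide +kernel))))
     (CovZ.badM (by decide +kernel)))
    (CovZ.n1 (14080, 30720) (by decide +kernel)
     (CovZ.n2 (13440, 31360) (by decide +kernel)
      (CovZ.n2 (14080, 31360) (by decide +kernel)
       (CovZ.n2 (13760, 31040) (by decide +kernel)
        (CovZ.n2 (13760, 31360) (by decide +kernel)
         (CovZ.n2 (13920, 31200) (by decide +kernel)
          (CovZ.leaf K2_ok TE_l16676 _)
          (CovZ.leaf K2_ok TE_l16677 _))
         (CovZ.n1 (13600, 31200) (by decide +kernel)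
          (CovZ.leaf K2_ok TE_l16678 _)
          (CovZ.leaf K2_ok TE_l16679 _)))
        (CovZ.n1 (14080, 31040) (by decide +kernel)
         (CovZ.leaf K2_ok TE_l16680 _)
         (CovZ.n1 (13920, 31200) (by decide +kernel)
          (CovZ.leaf K2_ok TE_l16681 _)
          (CovZ.leaf K2_ok TE_l16682 _))))
       (CovZ.n1 (13760, 31680) (by decide +kernel)
        (CovZ.n2 (14080, 31680) (by decide +kernel)
         (CovZ.n2 (13920, 31520) (by decide +kernel)
          (CovZ.n2 (13920, 31680) (by decide +kernel)
           (CovZ.n2 (14000, 31600) (by decide +kernel)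
            (CovZ.leaf K2_ok TE_l16683 _)
            (CovZ.badM (by decide +kernel)))
           (CovZ.n1 (13840, 31600) (by decide +kernel)
            (CovZ.badM (by decide +kernel))
            (CovZ.leaf K2_ok TE_l16687 _)))
          (CovZ.n1 (14080, 31520) (by decide +kernel)
           (CovZ.leaf K2_ok TE_l16688 _)
           (CovZ.n1 (14000, 31600) (by decide +kernel)
            (CovZ.badM (by decide +kernel))
            (CovZ.leaf K2_ok TE_l16690 _))))
         (CovZ.badM (by decide +kernel)))
        (CovZ.n1 (13760, 31360) (by decide +kernel)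
         (CovZ.n2 (13600, 31520) (by decide +kernel)
          (CovZ.n2 (13760, 31520) (by decide +kernel)
           (CovZ.leaf K2_ok TE_l16700 _)
           (CovZ.leaf K2_ok TE_l16701 _))
          (CovZ.leaf K2_ok TE_l16702 _))
         (CovZ.n1 (13920, 31520) (by decide +kernel)
          (CovZ.leaf K2_ok TE_l16703 _)
          (CovZ.n1 (13760, 31520) (by decide +kernel)
           (CovZ.leaf K2_ok TE_l16704 _)
           (CovZ.leaf K2_ok TE_l16705 _))))))
      (CovZ.n1 (13440, 30720) (by decide +kernel)
       (CovZ.n2 (13120, 31040) (by decide +kernel)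
        (CovZ.n2 (13440, 31040) (by decide +kernel)
         (CovZ.leaf K2_ok TE_l16706 _)
         (CovZ.leaf K2_ok TE_l16707 _))
        (CovZ.leaf K2_ok TE_l16708 _))
       (CovZ.n1 (13760, 31040) (by decide +kernel)
        (CovZ.leaf K2_ok TE_l16709 _)
        (CovZ.n1 (13440, 31040) (by decide +kernel)
         (CovZ.leaf K2_ok TE_l16710 _)
         (CovZ.leaf K2_ok TE_l16711 _)))))
     (CovZ.n1 (14720, 31360) (by decide +kernel)
      (CovZ.n2 (14720, 30720) (by decide +kernel)
       (CovZ.n2 (14400, 31040) (by decide +kernel)
        (CovZ.n2 (14720, 31040) (by decide +kernel)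
         (CovZ.n2 (14560, 30880) (by decide +kernel)
          (CovZ.leaf K2_ok TE_l16712 _)
          (CovZ.leaf K2_ok TE_l16713 _))
         (CovZ.n1 (14560, 31200) (by decide +kernel)
          (CovZ.n2 (14720, 31200) (by decide +kernel)
           (CovZ.leaf K2_ok TE_l16714 _)
           (CovZ.n1 (14640, 31280) (by decide +kernel)
            (CovZ.n2 (14720, 31280) (by decide +kernel)
             (CovZ.leaf K2_ok TE_l16715 _)
             (CovZ.leaf K2_ok TE_l16716 _))
            (CovZ.leaf K2_ok TE_l16717 _)))
          (CovZ.n1 (14560, 31040) (by decide +kernel)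
           (CovZ.leaf K2_ok TE_l16718 _)
           (CovZ.leaf K2_ok TE_l16719 _))))
        (CovZ.n1 (14400, 30720) (by decide +kernel)
         (CovZ.leaf K2_ok TE_l16720 _)
         (CovZ.n1 (14560, 30880) (by decide +kernel)
          (CovZ.leaf K2_ok TE_l16721 _)
          (CovZ.leaf K2_ok TE_l16722 _))))
       (CovZ.n1 (15040, 31040) (by decide +kernel)
        (CovZ.n2 (15040, 30720) (by decide +kernel)
         (CovZ.n2 (14880, 30880) (by decide +kernel)
          (CovZ.n2 (15040, 30880) (by decide +kernel)
           (CovZ.leaf K2_ok TE_l16723 _)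
           (CovZ.leaf K2_ok TE_l16724 _))
          (CovZ.leaf K2_ok TE_l16725 _))
         (CovZ.n1 (15200, 30880) (by decide +kernel)
          (CovZ.n2 (15200, 30720) (by decide +kernel)
           (CovZ.leaf K2_ok TE_l16726 _)
           (CovZ.leaf K2_ok TE_l16727 _))
          (CovZ.n1 (15040, 30880) (by decide +kernel)
           (CovZ.leaf K2_ok TE_l16728 _)
           (CovZ.leaf K2_ok TE_l16729 _))))
        (CovZ.n1 (14720, 31040) (by decide +kernel)
         (CovZ.n2 (14880, 31200) (by decide +kernel)
          (CovZ.n2 (14880, 31040) (by decide +kernel)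
           (CovZ.leaf K2_ok TE_l16730 _)
           (CovZ.n1 (14960, 31120) (by decide +kernel)
            (CovZ.leaf K2_ok TE_l16731 _)
            (CovZ.leaf K2_ok TE_l16732 _)))
          (CovZ.n1 (14720, 31200) (by decide +kernel)
           (CovZ.n2 (14800, 31280) (by decide +kernel)
            (CovZ.leaf K2_ok TE_l16733 _)
            (CovZ.leaf K2_ok TE_l16734 _))
           (CovZ.leaf K2_ok TE_l16735 _)))
         (CovZ.n1 (14880, 30880) (by decide +kernel)
          (CovZ.leaf K2_ok TE_l16736 _)
          (CovZ.n1 (14880, 31040) (by decide +kernel)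
           (CovZ.leaf K2_ok TE_l16737 _)
           (CovZ.leaf K2_ok TE_l16738 _))))))
      (CovZ.n1 (14080, 31360) (by decide +kernel)
       (CovZ.n2 (14400, 31680) (by decide +kernel)
        (CovZ.n2 (14400, 31360) (by decide +kernel)
         (CovZ.n2 (14240, 31520) (by decide +kernel)
          (CovZ.n2 (14400, 31520) (by decide +kernel)
           (CovZ.n2 (14320, 31440) (by decide +kernel)
            (CovZ.badM (by decide +kernel))
            (CovZ.leaf K2_ok TE_l16741 _))
           (CovZ.badM (by decide +kernel)))
          (CovZ.n1 (14240, 31360) (by decide +kernel)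
           (CovZ.leaf K2_ok TE_l16746 _)
           (CovZ.n1 (14320, 31440) (by decide +kernel)
            (CovZ.leaf K2_ok TE_l16747 _)
            (CovZ.leaf K2_ok TE_l16748 _))))
         (CovZ.n1 (14560, 31520) (by decide +kernel)
          (CovZ.n2 (14560, 31360) (by decide +kernel)
           (CovZ.n2 (14480, 31440) (by decide +kernel)
            (CovZ.badM (by decide +kernel))
            (CovZ.leaf K2_ok TE_l16751 _))
           (CovZ.badM (by decide +kernel)))
          (CovZ.n1 (14400, 31520) (by decide +kernel)
           (CovZ.badM (by decide +kernel))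
           (CovZ.n1 (14480, 31440) (by decide +kernel)
            (CovZ.leaf K2_ok TE_l16762 _)
            (CovZ.badM (by decide +kernel))))))
        (CovZ.n1 (14080, 31680) (by decide +kernel)
         (CovZ.badM (by decide +kernel))
         (CovZ.n1 (14240, 31520) (by decide +kernel)
          (CovZ.n2 (14080, 31520) (by decide +kernel)
           (CovZ.badM (by decide +kernel))
           (CovZ.leaf K2_ok TE_l16769 _))
          (CovZ.badM (by decide +kernel)))))
       (CovZ.n1 (14400, 31040) (by decide +kernel)
        (CovZ.n2 (14080, 31040) (by decide +kernel)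
         (CovZ.n2 (14240, 31200) (by decide +kernel)
          (CovZ.leaf K2_ok TE_l16777 _)
          (CovZ.leaf K2_ok TE_l16778 _))
         (CovZ.leaf K2_ok TE_l16779 _))
        (CovZ.n1 (14400, 31360) (by decide +kernel)
         (CovZ.n2 (14560, 31200) (by decide +kernel)
          (CovZ.n2 (14400, 31200) (by decide +kernel)
           (CovZ.leaf K2_ok TE_l16780 _)
           (CovZ.leaf K2_ok TE_l16781 _))
          (CovZ.n1 (14560, 31360) (by decide +kernel)
           (CovZ.n2 (14640, 31280) (by decide +kernel)
            (CovZ.leaf K2_ok TE_l16782 _)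
            (CovZ.n1 (14640, 31360) (by decide +kernel)
             (CovZ.leaf K2_ok TE_l16783 _)
             (CovZ.leaf K2_ok TE_l16784 _)))
           (CovZ.n1 (14480, 31280) (by decide +kernel)
            (CovZ.leaf K2_ok TE_l16785 _)
            (CovZ.leaf K2_ok TE_l16786 _))))
         (CovZ.n1 (14240, 31200) (by decide +kernel)
          (CovZ.n2 (14240, 31360) (by decide +kernel)
           (CovZ.leaf K2_ok TE_l16787 _)
           (CovZ.leaf K2_ok TE_l16788 _))
          (CovZ.n1 (14400, 31200) (by decide +kernel)
           (CovZ.leaf K2_ok TE_l16789 _)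
           (CovZ.leaf K2_ok TE_l16790 _))))))))))
    (CovZ.topM TE_LL 81129638416967864937223828017152 (by decide +kernel) (CovZ.n0 (14080, 32000) (by decide +kernel)
    (CovZ.n2 (12800, 32000) (by decide +kernel)
     (CovZ.n2 (13440, 32640) (by decide +kernel)
      (CovZ.n2 (13440, 32000) (by decide +kernel)
       (CovZ.n2 (13120, 32320) (by decide +kernel)
        (CovZ.badM (by decide +kernel))
        (CovZ.n1 (13120, 32000) (by decide +kernel)
         (CovZ.n2 (12960, 32160) (by decide +kernel)
          (CovZ.badM (by decide +kernel))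
          (CovZ.n1 (12960, 32000) (by decide +kernel)
           (CovZ.leaf K2_ok TE_l16796 _)
           (CovZ.badM (by decide +kernel))))
         (CovZ.badM (by decide +kernel))))
       (CovZ.badM (by decide +kernel)))
      (CovZ.n1 (12800, 32640) (by decide +kernel)
       (CovZ.badM (by decide +kernel))
       (CovZ.n1 (13120, 32320) (by decide +kernel)
        (CovZ.n2 (12800, 32320) (by decide +kernel)
         (CovZ.badM (by decide +kernel))
         (CovZ.n1 (12960, 32160) (by decide +kernel)
          (CovZ.n2 (12800, 32160) (by decide +kernel)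
           (CovZ.badM (by decide +kernel))
           (CovZ.leaf K2_ok TE_l16813 _))
          (CovZ.badM (by decide +kernel))))
        (CovZ.badM (by decide +kernel)))))
     (CovZ.n1 (13440, 31360) (by decide +kernel)
      (CovZ.n2 (12800, 31360) (by decide +kernel)
       (CovZ.n2 (13120, 31680) (by decide +kernel)
        (CovZ.n2 (13120, 31360) (by decide +kernel)
         (CovZ.leaf K2_ok TE_l16820 _)
         (CovZ.n1 (13280, 31520) (by decide +kernel)
          (CovZ.leaf K2_ok TE_l16821 _)
          (CovZ.leaf K2_ok TE_l16822 _)))
        (CovZ.n1 (12800, 31680) (by decide +kernel)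
         (CovZ.n2 (12960, 31840) (by decide +kernel)
          (CovZ.leaf K2_ok TE_l16823 _)
          (CovZ.leaf K2_ok TE_l16824 _))
         (CovZ.leaf K2_ok TE_l16825 _)))
       (CovZ.n1 (13120, 31040) (by decide +kernel)
        (CovZ.leaf K2_ok TE_l16826 _)
        (CovZ.n1 (13120, 31360) (by decide +kernel)
         (CovZ.leaf K2_ok TE_l16827 _)
         (CovZ.leaf K2_ok TE_l16828 _))))
      (CovZ.n1 (13440, 32000) (by decide +kernel)
       (CovZ.n2 (13760, 31680) (by decide +kernel)
        (CovZ.n2 (13440, 31680) (by decide +kernel)
         (CovZ.n2 (13600, 31840) (by decide +kernel)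
          (CovZ.n2 (13600, 31680) (by decide +kernel)
           (CovZ.leaf K2_ok TE_l16829 _)
           (CovZ.badM (by decide +kernel)))
          (CovZ.n1 (13440, 31840) (by decide +kernel)
           (CovZ.badM (by decide +kernel))
           (CovZ.leaf K2_ok TE_l16834 _)))
         (CovZ.n1 (13600, 31520) (by decide +kernel)
          (CovZ.leaf K2_ok TE_l16835 _)
          (CovZ.n1 (13600, 31680) (by decide +kernel)
           (CovZ.leaf K2_ok TE_l16836 _)
           (CovZ.leaf K2_ok TE_l16837 _))))
        (CovZ.badM (by decide +kernel)))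
       (CovZ.n1 (13120, 31680) (by decide +kernel)
        (CovZ.n2 (13120, 32000) (by decide +kernel)
         (CovZ.n2 (13280, 31840) (by decide +kernel)
          (CovZ.n2 (13120, 31840) (by decide +kernel)
           (CovZ.badM (by decide +kernel))
           (CovZ.leaf K2_ok TE_l16856 _))
          (CovZ.badM (by decide +kernel)))
         (CovZ.n1 (12960, 31840) (by decide +kernel)
          (CovZ.n2 (12960, 32000) (by decide +kernel)
           (CovZ.leaf K2_ok TE_l16861 _)
           (CovZ.leaf K2_ok TE_l16862 _))
          (CovZ.n1 (13120, 31840) (by decide +kernel)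
           (CovZ.leaf K2_ok TE_l16863 _)
           (CovZ.leaf K2_ok TE_l16864 _))))
        (CovZ.n1 (13440, 31680) (by decide +kernel)
         (CovZ.n2 (13280, 31520) (by decide +kernel)
          (CovZ.leaf K2_ok TE_l16865 _)
          (CovZ.leaf K2_ok TE_l16866 _))
         (CovZ.n1 (13280, 31840) (by decide +kernel)
          (CovZ.n2 (13440, 31840) (by decide +kernel)
           (CovZ.leaf K2_ok TE_l16867 _)
           (CovZ.badM (by decide +kernel)))
          (CovZ.leaf K2_ok TE_l16870 _)))))))
    (CovZ.badM (by decide +kernel))))

theorem TE_s10_7 : SqZ TE_M TE_L [0, 7, 6, 1] (-10240) 12800 2560 10 7 :=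
  SqZ.mk (a := 15360) (b := 17920) (c := 30720) (d := 33280) (by norm_num) (by norm_num) (by norm_num) (by norm_num)
    (CovZ.topM TE_LL 4096 (by decide +kernel) (CovZ.n2 (16640, 32000) (by decide +kernel)
    (CovZ.badM (by decide +kernel))
    (CovZ.n1 (16640, 30720) (by decide +kernel)
     (CovZ.n2 (16000, 31360) (by decide +kernel)
      (CovZ.badM (by decide +kernel))
      (CovZ.n1 (16000, 30720) (by decide +kernel)
       (CovZ.n2 (15680, 31040) (by decide +kernel)
        (CovZ.n2 (16000, 31040) (by decide +kernel)
         (CovZ.n2 (15840, 30880) (by decide +kernel)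
          (CovZ.n2 (15840, 31040) (by decide +kernel)
           (CovZ.n2 (15920, 30960) (by decide +kernel)
            (CovZ.n2 (15840, 30960) (by decide +kernel)
             (CovZ.badM (by decide +kernel))
             (CovZ.n1 (15880, 30920) (by decide +kernel)
              (CovZ.n2 (15840, 30920) (by decide +kernel)
               (CovZ.badM (by decide +kernel))
               (CovZ.badM (by decide +kernel)))
              (CovZ.badM (by decide +kernel))))
            (CovZ.badM (by decide +kernel)))
           (CovZ.n1 (15760, 30960) (by decide +kernel)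
            (CovZ.badM (by decide +kernel))
            (CovZ.n1 (15840, 30960) (by decide +kernel)
             (CovZ.n2 (15800, 30920) (by decide +kernel)
              (CovZ.badM (by decide +kernel))
              (CovZ.n1 (15840, 30920) (by decide +kernel)
               (CovZ.badM (by decide +kernel))
               (CovZ.badM (by decide +kernel))))
             (CovZ.badM (by decide +kernel)))))
          (CovZ.badM (by decide +kernel)))
         (CovZ.badM (by decide +kernel)))
        (CovZ.n1 (15680, 30720) (by decide +kernel)
         (CovZ.n2 (15520, 30880) (by decide +kernel)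
          (CovZ.n2 (15680, 30880) (by decide +kernel)
           (CovZ.n2 (15600, 30800) (by decide +kernel)
            (CovZ.leaf K2_ok TE_l16920 _)
            (CovZ.leaf K2_ok TE_l16921 _))
           (CovZ.n1 (15600, 30960) (by decide +kernel)
            (CovZ.n2 (15680, 30960) (by decide +kernel)
             (CovZ.leaf K2_ok TE_l16922 _)
             (CovZ.n1 (15640, 31000) (by decide +kernel)
              (CovZ.badM (by decide +kernel))
              (CovZ.leaf K2_ok TE_l19567 _)))
            (CovZ.leaf K2_ok TE_l16923 _)))
          (CovZ.n1 (15520, 30720) (by decide +kernel)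
           (CovZ.leaf K2_ok TE_l16924 _)
           (CovZ.leaf K2_ok TE_l16925 _)))
         (CovZ.n1 (15840, 30880) (by decide +kernel)
          (CovZ.badM (by decide +kernel))
          (CovZ.n1 (15680, 30880) (by decide +kernel)
           (CovZ.n2 (15760, 30960) (by decide +kernel)
            (CovZ.n2 (15760, 30880) (by decide +kernel)
             (CovZ.n2 (15720, 30920) (by decide +kernel)
              (CovZ.leaf K2_ok TE_l16932 _)
              (CovZ.leaf K2_ok TE_l16933 _))
             (CovZ.n1 (15800, 30920) (by decide +kernel)
              (CovZ.badM (by decide +kernel))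
              (CovZ.leaf K2_ok TE_l16935 _)))
            (CovZ.n1 (15680, 30960) (by decide +kernel)
             (CovZ.badM (by decide +kernel))
             (CovZ.leaf K2_ok TE_l16936 _)))
           (CovZ.leaf K2_ok TE_l16937 _)))))
       (CovZ.n1 (16320, 31040) (by decide +kernel)
        (CovZ.badM (by decide +kernel))
        (CovZ.n1 (16000, 31040) (by decide +kernel)
         (CovZ.badM (by decide +kernel))
         (CovZ.badM (by decide +kernel))))))
     (CovZ.badM (by decide +kernel)))))
    (CovZ.topM TE_LL 4096 (by decide +kernel) (CovZ.n0 (16640, 32000) (by decide +kernel)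
    (CovZ.n2 (15360, 32000) (by decide +kernel)
     (CovZ.badM (by decide +kernel))
     (CovZ.n1 (16000, 31360) (by decide +kernel)
      (CovZ.n2 (15360, 31360) (by decide +kernel)
       (CovZ.badM (by decide +kernel))
       (CovZ.n1 (15680, 31040) (by decide +kernel)
        (CovZ.n2 (15360, 31040) (by decide +kernel)
         (CovZ.n2 (15520, 31200) (by decide +kernel)
          (CovZ.n2 (15520, 31040) (by decide +kernel)
           (CovZ.n2 (15440, 31120) (by decide +kernel)
            (CovZ.badM (by decide +kernel))
            (CovZ.n1 (15440, 31040) (by decide +kernel)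
             (CovZ.n2 (15400, 31080) (by decide +kernel)
              (CovZ.badM (by decide +kernel))
              (CovZ.leaf K2_ok TE_l16944 _))
             (CovZ.badM (by decide +kernel))))
           (CovZ.badM (by decide +kernel)))
          (CovZ.n1 (15360, 31200) (by decide +kernel)
           (CovZ.badM (by decide +kernel))
           (CovZ.n1 (15440, 31120) (by decide +kernel)
            (CovZ.n2 (15360, 31120) (by decide +kernel)
             (CovZ.badM (by decide +kernel))
             (CovZ.n1 (15400, 31080) (by decide +kernel)
              (CovZ.leaf K2_ok TE_l16945 _)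
              (CovZ.badM (by decide +kernel))))
            (CovZ.badM (by decide +kernel)))))
         (CovZ.n1 (15520, 30880) (by decide +kernel)
          (CovZ.n2 (15360, 30880) (by decide +kernel)
           (CovZ.n2 (15440, 30960) (by decide +kernel)
            (CovZ.leaf K2_ok TE_l16946 _)
            (CovZ.leaf K2_ok TE_l16947 _))
           (CovZ.n1 (15440, 30800) (by decide +kernel)
            (CovZ.leaf K2_ok TE_l16948 _)
            (CovZ.n1 (15440, 30880) (by decide +kernel)
             (CovZ.leaf K2_ok TE_l16949 _)
             (CovZ.leaf K2_ok TE_l16950 _))))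
          (CovZ.n1 (15520, 31040) (by decide +kernel)
           (CovZ.n2 (15600, 30960) (by decide +kernel)
            (CovZ.n2 (15520, 30960) (by decide +kernel)
             (CovZ.n2 (15560, 31000) (by decide +kernel)
              (CovZ.leaf K2_ok TE_l16951 _)
              (CovZ.leaf K2_ok TE_l16952 _))
             (CovZ.leaf K2_ok TE_l16953 _))
            (CovZ.n1 (15600, 31040) (by decide +kernel)
             (CovZ.leaf K2_ok TE_l19568 _)
             (CovZ.n1 (15560, 31000) (by decide +kernel)
              (CovZ.badM (by decide +kernel))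
              (CovZ.leaf K2_ok TE_l19569 _))))
           (CovZ.n1 (15440, 30960) (by decide +kernel)
            (CovZ.n2 (15440, 31040) (by decide +kernel)
             (CovZ.leaf K2_ok TE_l16954 _)
             (CovZ.leaf K2_ok TE_l16955 _))
            (CovZ.n1 (15520, 30960) (by decide +kernel)
             (CovZ.n2 (15480, 30920) (by decide +kernel)
              (CovZ.leaf K2_ok TE_l16956 _)
              (CovZ.leaf K2_ok TE_l16957 _))
             (CovZ.n1 (15480, 31000) (by decide +kernel)
              (CovZ.leaf K2_ok TE_l16958 _)
              (CovZ.leaf K2_ok TE_l16959 _)))))))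
        (CovZ.badM (by decide +kernel))))
      (CovZ.badM (by decide +kernel))))
    (CovZ.badM (by decide +kernel))))

theorem TE_s0_8 : SqZ TE_M TE_L [0, 7, 6, 1] (-10240) 12800 2560 0 8 :=
  SqZ.mk (a := (-10240)) (b := (-7680)) (c := 33280) (d := 35840) (by norm_num) (by norm_num) (by norm_num) (by norm_num)
    (CovZ.topM TE_LL 1461501637330902918203684832716283019655932542976 (by decide +kernel) (CovZ.n2 (-8960, 34560) (by decide +kernel)
    (CovZ.badM (by decide +kernel))
    (CovZ.badM (by decide +kernel))))
    (CovZ.topM TE_LL 1461501637330902918203684832716283019655932542976 (by decide +kernel) (CovZ.n0 (-8960, 34560) (by decide +kernel)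
    (CovZ.badM (by decide +kernel))
    (CovZ.badM (by decide +kernel))))

theorem TE_s1_8 : SqZ TE_M TE_L [0, 7, 6, 1] (-10240) 12800 2560 1 8 :=
  SqZ.mk (a := (-7680)) (b := (-5120)) (c := 33280) (d := 35840) (by norm_num) (by norm_num) (by norm_num) (by norm_num)
    (CovZ.topM TE_LL 1569275433846670212737018838741978265681563736749174161408 (by decide +kernel) (CovZ.n2 (-6400, 34560) (by decide +kernel)
    (CovZ.n2 (-5120, 34560) (by decide +kernel)
     (CovZ.badM (by decide +kernel))
     (CovZ.n1 (-5760, 35200) (by decide +kernel)
      (CovZ.n2 (-5120, 35200) (by decide +kernel)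
       (CovZ.badM (by decide +kernel))
       (CovZ.n1 (-5440, 35520) (by decide +kernel)
        (CovZ.badM (by decide +kernel))
        (CovZ.badM (by decide +kernel))))
      (CovZ.badM (by decide +kernel))))
    (CovZ.badM (by decide +kernel))))
    (CovZ.topM TE_LL 1569275433846670212737018838741978265681563736749174161408 (by decide +kernel) (CovZ.n0 (-6400, 34560) (by decide +kernel)
    (CovZ.badM (by decide +kernel))
    (CovZ.n1 (-6400, 35840) (by decide +kernel)
     (CovZ.n2 (-5760, 35200) (by decide +kernel)
      (CovZ.badM (by decide +kernel))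
      (CovZ.n1 (-5760, 35840) (by decide +kernel)
       (CovZ.n2 (-5440, 35520) (by decide +kernel)
        (CovZ.badM (by decide +kernel))
        (CovZ.badM (by decide +kernel)))
       (CovZ.badM (by decide +kernel))))
     (CovZ.badM (by decide +kernel)))))

theorem TE_s2_8 : SqZ TE_M TE_L [0, 7, 6, 1] (-10240) 12800 2560 2 8 :=
  SqZ.mk (a := (-5120)) (b := (-2560)) (c := 33280) (d := 35840) (by norm_num) (by norm_num) (by norm_num) (by norm_num)
    (CovZ.topM TE_LL 1569275433846670212737018838741978265681563736749174161408 (by decide +kernel) (CovZ.n2 (-3840, 34560) (by decide +kernel)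
    (CovZ.badM (by decide +kernel))
    (CovZ.n1 (-3840, 33280) (by decide +kernel)
     (CovZ.n2 (-4480, 33920) (by decide +kernel)
      (CovZ.n2 (-3840, 33920) (by decide +kernel)
       (CovZ.badM (by decide +kernel))
       (CovZ.n1 (-4160, 34240) (by decide +kernel)
        (CovZ.badM (by decide +kernel))
        (CovZ.badM (by decide +kernel))))
      (CovZ.badM (by decide +kernel)))
     (CovZ.n1 (-3200, 33920) (by decide +kernel)
      (CovZ.n2 (-3200, 33280) (by decide +kernel)
       (CovZ.n2 (-3520, 33600) (by decide +kernel)
        (CovZ.badM (by decide +kernel))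
        (CovZ.badM (by decide +kernel)))
       (CovZ.badM (by decide +kernel)))
      (CovZ.n1 (-3840, 33920) (by decide +kernel)
       (CovZ.badM (by decide +kernel))
       (CovZ.n1 (-3520, 33600) (by decide +kernel)
        (CovZ.badM (by decide +kernel))
        (CovZ.badM (by decide +kernel))))))))
    (CovZ.topM TE_LL 1569275433846670212737018838741978265681563736749174161408 (by decide +kernel) (CovZ.n0 (-3840, 34560) (by decide +kernel)
    (CovZ.n2 (-5120, 34560) (by decide +kernel)
     (CovZ.n2 (-4480, 35200) (by decide +kernel)
      (CovZ.n2 (-4480, 34560) (by decide +kernel)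
       (CovZ.n2 (-4800, 34880) (by decide +kernel)
        (CovZ.badM (by decide +kernel))
        (CovZ.badM (by decide +kernel)))
       (CovZ.badM (by decide +kernel)))
      (CovZ.n1 (-5120, 35200) (by decide +kernel)
       (CovZ.badM (by decide +kernel))
       (CovZ.n1 (-4800, 34880) (by decide +kernel)
        (CovZ.badM (by decide +kernel))
        (CovZ.badM (by decide +kernel)))))
     (CovZ.n1 (-4480, 33920) (by decide +kernel)
      (CovZ.badM (by decide +kernel))
      (CovZ.n1 (-4480, 34560) (by decide +kernel)
       (CovZ.n2 (-4160, 34240) (by decide +kernel)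
        (CovZ.badM (by decide +kernel))
        (CovZ.badM (by decide +kernel)))
       (CovZ.badM (by decide +kernel)))))
    (CovZ.badM (by decide +kernel))))

theorem TE_s3_8 : SqZ TE_M TE_L [0, 7, 6, 1] (-10240) 12800 2560 3 8 :=
  SqZ.mk (a := (-2560)) (b := 0) (c := 33280) (d := 35840) (by norm_num) (by norm_num) (by norm_num) (by norm_num)
    (CovZ.topM TE_LL 93536104789199054412968387947808574170944170360832 (by decide +kernel) (CovZ.n2 (-1280, 34560) (by decide +kernel)
    (CovZ.badM (by decide +kernel))
    (CovZ.n1 (-1280, 33280) (by decide +kernel)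
     (CovZ.badM (by decide +kernel))
     (CovZ.n1 (-640, 33920) (by decide +kernel)
      (CovZ.n2 (-640, 33280) (by decide +kernel)
       (CovZ.badM (by decide +kernel))
       (CovZ.badM (by decide +kernel)))
      (CovZ.badM (by decide +kernel))))))
    (CovZ.topM TE_LL 2097152 (by decide +kernel) (CovZ.n0 (-1280, 34560) (by decide +kernel)
    (CovZ.badM (by decide +kernel))
    (CovZ.badM (by decide +kernel))))

theorem TE_s4_8 : SqZ TE_M TE_L [0, 7, 6, 1] (-10240) 12800 2560 4 8 :=
  SqZ.mk (a := 0) (b := 2560) (c := 33280) (d := 35840) (by norm_num) (by norm_num) (by norm_num) (by norm_num)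
    (CovZ.topM TE_LL 916505893410836028751769984777326110590246201407093430288384 (by decide +kernel) (CovZ.n2 (1280, 34560) (by decide +kernel)
    (CovZ.subM 12554203470773361527671578846415332832204710888928069025792 (by decide +kernel)
     (CovZ.n2 (2560, 34560) (by decide +kernel)
      (CovZ.n2 (1920, 33920) (by decide +kernel)
       (CovZ.n2 (1920, 34560) (by decide +kernel)
        (CovZ.badM (by decide +kernel))
        (CovZ.badM (by decide +kernel)))
       (CovZ.badM (by decide +kernel)))
      (CovZ.n1 (1920, 35200) (by decide +kernel)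
       (CovZ.badM (by decide +kernel))
       (CovZ.n1 (1920, 34560) (by decide +kernel)
        (CovZ.n2 (1600, 34880) (by decide +kernel)
         (CovZ.badM (by decide +kernel))
         (CovZ.badM (by decide +kernel)))
        (CovZ.badM (by decide +kernel))))))
    (CovZ.n1 (1280, 33280) (by decide +kernel)
     (CovZ.n2 (640, 33920) (by decide +kernel)
      (CovZ.badM (by decide +kernel))
      (CovZ.badM (by decide +kernel)))
     (CovZ.n1 (1920, 33920) (by decide +kernel)
      (CovZ.n2 (1920, 33280) (by decide +kernel)
       (CovZ.badM (by decide +kernel))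
       (CovZ.badM (by decide +kernel)))
      (CovZ.badM (by decide +kernel))))))
    (CovZ.topM TE_LL 816023225600268504873838924649652419477235775942414863171584 (by decide +kernel) (CovZ.n0 (1280, 34560) (by decide +kernel)
    (CovZ.n2 (0, 34560) (by decide +kernel)
     (CovZ.n2 (640, 35200) (by decide +kernel)
      (CovZ.n2 (640, 34560) (by decide +kernel)
       (CovZ.badM (by decide +kernel))
       (CovZ.badM (by decide +kernel)))
      (CovZ.badM (by decide +kernel)))
     (CovZ.n1 (640, 33920) (by decide +kernel)
      (CovZ.badM (by decide +kernel))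
      (CovZ.n1 (640, 34560) (by decide +kernel)
       (CovZ.badM (by decide +kernel))
       (CovZ.badM (by decide +kernel)))))
    (CovZ.n1 (1280, 35840) (by decide +kernel)
     (CovZ.n2 (1920, 35200) (by decide +kernel)
      (CovZ.n2 (1280, 35200) (by decide +kernel)
       (CovZ.n2 (1600, 35520) (by decide +kernel)
        (CovZ.n2 (1600, 35200) (by decide +kernel)
         (CovZ.badM (by decide +kernel))
         (CovZ.badM (by decide +kernel)))
        (CovZ.badM (by decide +kernel)))
       (CovZ.n1 (1600, 34880) (by decide +kernel)
        (CovZ.badM (by decide +kernel))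
        (CovZ.n1 (1600, 35200) (by decide +kernel)
         (CovZ.badM (by decide +kernel))
         (CovZ.badM (by decide +kernel)))))
      (CovZ.n1 (1920, 35840) (by decide +kernel)
       (CovZ.badM (by decide +kernel))
       (CovZ.n1 (1600, 35520) (by decide +kernel)
        (CovZ.n2 (1600, 35840) (by decide +kernel)
         (CovZ.badM (by decide +kernel))
         (CovZ.badM (by decide +kernel)))
        (CovZ.badM (by decide +kernel)))))
     (CovZ.badM (by decide +kernel)))))

theorem TE_s5_8 : SqZ TE_M TE_L [0, 7, 6, 1] (-10240) 12800 2560 5 8 :=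
  SqZ.mk (a := 2560) (b := 5120) (c := 33280) (d := 35840) (by norm_num) (by norm_num) (by norm_num) (by norm_num)
    (CovZ.topM TE_LL 3067984238512366210906485067071266334455100896524238848 (by decide +kernel) (CovZ.n2 (3840, 34560) (by decide +kernel)
    (CovZ.n2 (5120, 34560) (by decide +kernel)
     (CovZ.n2 (4480, 33920) (by decide +kernel)
      (CovZ.badM (by decide +kernel))
      (CovZ.badM (by decide +kernel)))
     (CovZ.badM (by decide +kernel)))
    (CovZ.n1 (3840, 33280) (by decide +kernel)
     (CovZ.n2 (3200, 33920) (by decide +kernel)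
      (CovZ.badM (by decide +kernel))
      (CovZ.n1 (3200, 33280) (by decide +kernel)
       (CovZ.badM (by decide +kernel))
       (CovZ.badM (by decide +kernel))))
     (CovZ.n1 (4480, 33920) (by decide +kernel)
      (CovZ.badM (by decide +kernel))
      (CovZ.badM (by decide +kernel))))))
    (CovZ.topM TE_LL 77371252455336267181195264 (by decide +kernel) (CovZ.n0 (3840, 34560) (by decide +kernel)
    (CovZ.badM (by decide +kernel))
    (CovZ.n1 (3840, 35840) (by decide +kernel)
     (CovZ.badM (by decide +kernel))
     (CovZ.badM (by decide +kernel)))))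

theorem TE_s6_8 : SqZ TE_M TE_L [0, 7, 6, 1] (-10240) 12800 2560 6 8 :=
  SqZ.mk (a := 5120) (b := 7680) (c := 33280) (d := 35840) (by norm_num) (by norm_num) (by norm_num) (by norm_num)
    (CovZ.topM TE_LL 316912650057057367966361845768 (by decide +kernel) (CovZ.n2 (6400, 34560) (by decide +kernel)
    (CovZ.n2 (7680, 34560) (by decide +kernel)
     (CovZ.n2 (7040, 33920) (by decide +kernel)
      (CovZ.badM (by decide +kernel))
      (CovZ.n1 (7680, 33920) (by decide +kernel)
       (CovZ.n2 (7360, 33600) (by decide +kernel)
        (CovZ.badM (by decide +kernel))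
        (CovZ.n1 (7680, 33600) (by decide +kernel)
         (CovZ.n2 (7520, 33440) (by decide +kernel)
          (CovZ.n2 (7520, 33600) (by decide +kernel)
           (CovZ.n2 (7600, 33520) (by decide +kernel)
            (CovZ.badM (by decide +kernel))
            (CovZ.badM (by decide +kernel)))
           (CovZ.badM (by decide +kernel)))
          (CovZ.n1 (7680, 33440) (by decide +kernel)
           (CovZ.n2 (7600, 33360) (by decide +kernel)
            (CovZ.n2 (7600, 33440) (by decide +kernel)
             (CovZ.leaf K2_ok TE_l19321 _)
             (CovZ.n1 (7560, 33400) (by decide +kernel)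
              (CovZ.leaf K2_ok TE_l19322 _)
              (CovZ.leaf K2_ok TE_l19323 _)))
            (CovZ.leaf K2_ok TE_l19324 _))
           (CovZ.n1 (7600, 33520) (by decide +kernel)
            (CovZ.n2 (7680, 33520) (by decide +kernel)
             (CovZ.n2 (7640, 33480) (by decide +kernel)
              (CovZ.leaf K2_ok TE_l19325 _)
              (CovZ.leaf K2_ok TE_l19326 _))
             (CovZ.badM (by decide +kernel)))
            (CovZ.n1 (7600, 33440) (by decide +kernel)
             (CovZ.n2 (7560, 33480) (by decide +kernel)
              (CovZ.leaf K2_ok TE_l19327 _)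
              (CovZ.leaf K2_ok TE_l19328 _))
             (CovZ.n1 (7640, 33480) (by decide +kernel)
              (CovZ.leaf K2_ok TE_l19329 _)
              (CovZ.leaf K2_ok TE_l19330 _))))))
         (CovZ.n1 (7520, 33760) (by decide +kernel)
          (CovZ.badM (by decide +kernel))
          (CovZ.n1 (7520, 33600) (by decide +kernel)
           (CovZ.badM (by decide +kernel))
           (CovZ.badM (by decide +kernel))))))
       (CovZ.badM (by decide +kernel))))
     (CovZ.badM (by decide +kernel)))
    (CovZ.n1 (6400, 33280) (by decide +kernel)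
     (CovZ.n2 (5760, 33920) (by decide +kernel)
      (CovZ.n2 (6400, 33920) (by decide +kernel)
       (CovZ.n2 (6080, 33600) (by decide +kernel)
        (CovZ.badM (by decide +kernel))
        (CovZ.badM (by decide +kernel)))
       (CovZ.badM (by decide +kernel)))
      (CovZ.n1 (5760, 33280) (by decide +kernel)
       (CovZ.badM (by decide +kernel))
       (CovZ.n1 (6080, 33600) (by decide +kernel)
        (CovZ.badM (by decide +kernel))
        (CovZ.badM (by decide +kernel)))))
     (CovZ.n1 (7040, 33920) (by decide +kernel)
      (CovZ.n2 (7040, 33280) (by decide +kernel)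
       (CovZ.badM (by decide +kernel))
       (CovZ.n1 (7360, 33600) (by decide +kernel)
        (CovZ.n2 (7360, 33280) (by decide +kernel)
         (CovZ.badM (by decide +kernel))
         (CovZ.n1 (7520, 33440) (by decide +kernel)
          (CovZ.n2 (7520, 33280) (by decide +kernel)
           (CovZ.n2 (7440, 33360) (by decide +kernel)
            (CovZ.n2 (7520, 33360) (by decide +kernel)
             (CovZ.n2 (7480, 33320) (by decide +kernel)
              (CovZ.badM (by decide +kernel))
              (CovZ.leaf K2_ok TE_l19331 _))
             (CovZ.badM (by decide +kernel)))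
            (CovZ.n1 (7440, 33280) (by decide +kernel)
             (CovZ.badM (by decide +kernel))
             (CovZ.n1 (7480, 33320) (by decide +kernel)
              (CovZ.leaf K2_ok TE_l19332 _)
              (CovZ.badM (by decide +kernel)))))
           (CovZ.n1 (7600, 33360) (by decide +kernel)
            (CovZ.n2 (7600, 33280) (by decide +kernel)
             (CovZ.leaf K2_ok TE_l19333 _)
             (CovZ.leaf K2_ok TE_l19334 _))
            (CovZ.n1 (7520, 33360) (by decide +kernel)
             (CovZ.n2 (7560, 33400) (by decide +kernel)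
              (CovZ.leaf K2_ok TE_l19335 _)
              (CovZ.leaf K2_ok TE_l19336 _))
             (CovZ.leaf K2_ok TE_l19337 _))))
          (CovZ.badM (by decide +kernel))))
        (CovZ.badM (by decide +kernel))))
      (CovZ.badM (by decide +kernel))))))
    (CovZ.topM TE_LL 0 (by decide +kernel) (CovZ.badM (by decide +kernel)))

theorem TE_s7_8 : SqZ TE_M TE_L [0, 7, 6, 1] (-10240) 12800 2560 7 8 :=
  SqZ.mk (a := 7680) (b := 10240) (c := 33280) (d := 35840) (by norm_num) (by norm_num) (by norm_num) (by norm_num)
    (CovZ.topM TE_LL 82402240774992124695770552340480 (by decide +kernel) (CovZ.n2 (8960, 34560) (by decide +kernel)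
    TE_u258
    TE_u259))
    (CovZ.topM TE_LL 17592186044416 (by decide +kernel) (CovZ.n0 (8960, 34560) (by decide +kernel)
    (CovZ.n2 (7680, 34560) (by decide +kernel)
     (CovZ.badM (by decide +kernel))
     (CovZ.n1 (8320, 33920) (by decide +kernel)
      (CovZ.n2 (7680, 33920) (by decide +kernel)
       (CovZ.badM (by decide +kernel))
       (CovZ.n1 (8000, 33600) (by decide +kernel)
        (CovZ.n2 (7680, 33600) (by decide +kernel)
         (CovZ.badM (by decide +kernel))
         (CovZ.n1 (7840, 33440) (by decide +kernel)
          (CovZ.n2 (7680, 33440) (by decide +kernel)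
           (CovZ.n2 (7760, 33520) (by decide +kernel)
            (CovZ.leaf K2_ok TE_l19433 _)
            (CovZ.n1 (7680, 33520) (by decide +kernel)
             (CovZ.badM (by decide +kernel))
             (CovZ.leaf K2_ok TE_l19434 _)))
           (CovZ.n1 (7760, 33360) (by decide +kernel)
            (CovZ.leaf K2_ok TE_l19435 _)
            (CovZ.leaf K2_ok TE_l19436 _)))
          (CovZ.badM (by decide +kernel))))
        (CovZ.badM (by decide +kernel))))
      (CovZ.badM (by decide +kernel))))
    (CovZ.badM (by decide +kernel))))

theorem TE_s8_8 : SqZ TE_M TE_L [0, 7, 6, 1] (-10240) 12800 2560 8 8 :=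
  SqZ.mk (a := 10240) (b := 12800) (c := 33280) (d := 35840) (by norm_num) (by norm_num) (by norm_num) (by norm_num)
    (CovZ.topM TE_LL 81129638416967864937223828013056 (by decide +kernel) (CovZ.n2 (11520, 34560) (by decide +kernel)
    (CovZ.badM (by decide +kernel))
    (CovZ.n1 (11520, 33280) (by decide +kernel)
     (CovZ.n2 (10880, 33920) (by decide +kernel)
      (CovZ.badM (by decide +kernel))
      (CovZ.n1 (10880, 33280) (by decide +kernel)
       (CovZ.n2 (10560, 33600) (by decide +kernel)
        (CovZ.n2 (10880, 33600) (by decide +kernel)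
         (CovZ.n2 (10720, 33440) (by decide +kernel)
          (CovZ.n2 (10720, 33600) (by decide +kernel)
           (CovZ.n2 (10800, 33520) (by decide +kernel)
            (CovZ.n2 (10720, 33520) (by decide +kernel)
             (CovZ.leaf K2_ok TE_l19481 _)
             (CovZ.leaf K2_ok TE_l19482 _))
            (CovZ.n1 (10800, 33600) (by decide +kernel)
             (CovZ.leaf K2_ok TE_l19483 _)
             (CovZ.leaf K2_ok TE_l19484 _)))
           (CovZ.n1 (10640, 33520) (by decide +kernel)
            (CovZ.leaf K2_ok TE_l19485 _)
            (CovZ.leaf K2_ok TE_l19486 _)))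
          (CovZ.n1 (10880, 33440) (by decide +kernel)
           (CovZ.n2 (10800, 33360) (by decide +kernel)
            (CovZ.leaf K2_ok TE_l19487 _)
            (CovZ.leaf K2_ok TE_l19488 _))
           (CovZ.n1 (10800, 33520) (by decide +kernel)
            (CovZ.n2 (10880, 33520) (by decide +kernel)
             (CovZ.leaf K2_ok TE_l19489 _)
             (CovZ.leaf K2_ok TE_l19490 _))
            (CovZ.leaf K2_ok TE_l19491 _))))
         (CovZ.n1 (10720, 33760) (by decide +kernel)
          (CovZ.badM (by decide +kernel))
          (CovZ.n1 (10720, 33600) (by decide +kernel)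
           (CovZ.n2 (10640, 33680) (by decide +kernel)
            (CovZ.n2 (10720, 33680) (by decide +kernel)
             (CovZ.n2 (10680, 33640) (by decide +kernel)
              (CovZ.badM (by decide +kernel))
              (CovZ.leaf K2_ok TE_l19492 _))
             (CovZ.badM (by decide +kernel)))
            (CovZ.n1 (10640, 33600) (by decide +kernel)
             (CovZ.leaf K2_ok TE_l19493 _)
             (CovZ.leaf K2_ok TE_l19494 _)))
           (CovZ.n1 (10800, 33680) (by decide +kernel)
            (CovZ.n2 (10800, 33600) (by decide +kernel)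
             (CovZ.n2 (10760, 33640) (by decide +kernel)
              (CovZ.badM (by decide +kernel))
              (CovZ.leaf K2_ok TE_l19495 _))
             (CovZ.badM (by decide +kernel)))
            (CovZ.n1 (10720, 33680) (by decide +kernel)
             (CovZ.badM (by decide +kernel))
             (CovZ.n1 (10760, 33640) (by decide +kernel)
              (CovZ.leaf K2_ok TE_l19496 _)
              (CovZ.badM (by decide +kernel))))))))
        (CovZ.n1 (10560, 33280) (by decide +kernel)
         (CovZ.n2 (10400, 33440) (by decide +kernel)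
          (CovZ.n2 (10560, 33440) (by decide +kernel)
           (CovZ.leaf K2_ok TE_l19497 _)
           (CovZ.leaf K2_ok TE_l19498 _))
          (CovZ.leaf K2_ok TE_l19499 _))
         (CovZ.n1 (10720, 33440) (by decide +kernel)
          (CovZ.n2 (10720, 33280) (by decide +kernel)
           (CovZ.leaf K2_ok TE_l19500 _)
           (CovZ.n1 (10800, 33360) (by decide +kernel)
            (CovZ.leaf K2_ok TE_l19501 _)
            (CovZ.leaf K2_ok TE_l19502 _)))
          (CovZ.n1 (10560, 33440) (by decide +kernel)
           (CovZ.n2 (10640, 33520) (by decide +kernel)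
            (CovZ.leaf K2_ok TE_l19503 _)
            (CovZ.leaf K2_ok TE_l19504 _))
           (CovZ.leaf K2_ok TE_l19505 _)))))
       (CovZ.n1 (11200, 33600) (by decide +kernel)
        (CovZ.n2 (11200, 33280) (by decide +kernel)
         (CovZ.n2 (11040, 33440) (by decide +kernel)
          (CovZ.n2 (11200, 33440) (by decide +kernel)
           (CovZ.n2 (11120, 33360) (by decide +kernel)
            (CovZ.n2 (11120, 33440) (by decide +kernel)
             (CovZ.n2 (11160, 33400) (by decide +kernel)
              (CovZ.leaf K2_ok TE_l19506 _)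
              (CovZ.badM (by decide +kernel)))
             (CovZ.n1 (11080, 33400) (by decide +kernel)
              (CovZ.leaf K2_ok TE_l19507 _)
              (CovZ.leaf K2_ok TE_l19508 _)))
            (CovZ.n1 (11200, 33360) (by decide +kernel)
             (CovZ.leaf K2_ok TE_l19509 _)
             (CovZ.n1 (11160, 33400) (by decide +kernel)
              (CovZ.badM (by decide +kernel))
              (CovZ.leaf K2_ok TE_l19510 _))))
           (CovZ.n1 (11120, 33520) (by decide +kernel)
            (CovZ.badM (by decide +kernel))
            (CovZ.n1 (11120, 33440) (by decide +kernel)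
             (CovZ.n2 (11080, 33480) (by decide +kernel)
              (CovZ.badM (by decide +kernel))
              (CovZ.leaf K2_ok TE_l19511 _))
             (CovZ.badM (by decide +kernel)))))
          (CovZ.n1 (11040, 33280) (by decide +kernel)
           (CovZ.n2 (10960, 33360) (by decide +kernel)
            (CovZ.n2 (11040, 33360) (by decide +kernel)
             (CovZ.leaf K2_ok TE_l19512 _)
             (CovZ.leaf K2_ok TE_l19513 _))
            (CovZ.leaf K2_ok TE_l19514 _))
           (CovZ.n1 (11120, 33360) (by decide +kernel)
            (CovZ.n2 (11120, 33280) (by decide +kernel)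
             (CovZ.leaf K2_ok TE_l19515 _)
             (CovZ.leaf K2_ok TE_l19516 _))
            (CovZ.n1 (11040, 33360) (by decide +kernel)
             (CovZ.leaf K2_ok TE_l19517 _)
             (CovZ.leaf K2_ok TE_l19518 _)))))
         (CovZ.badM (by decide +kernel)))
        (CovZ.n1 (10880, 33600) (by decide +kernel)
         (CovZ.n2 (11040, 33760) (by decide +kernel)
          (CovZ.n2 (11040, 33600) (by decide +kernel)
           (CovZ.n2 (10960, 33680) (by decide +kernel)
            (CovZ.badM (by decide +kernel))
            (CovZ.n1 (10960, 33600) (by decide +kernel)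
             (CovZ.badM (by decide +kernel))
             (CovZ.badM (by decide +kernel))))
           (CovZ.badM (by decide +kernel)))
          (CovZ.badM (by decide +kernel)))
         (CovZ.n1 (11040, 33440) (by decide +kernel)
          (CovZ.n2 (10880, 33440) (by decide +kernel)
           (CovZ.n2 (10960, 33520) (by decide +kernel)
            (CovZ.n2 (10960, 33440) (by decide +kernel)
             (CovZ.leaf K2_ok TE_l19519 _)
             (CovZ.leaf K2_ok TE_l19520 _))
            (CovZ.n1 (10880, 33520) (by decide +kernel)
             (CovZ.n2 (10920, 33560) (by decide +kernel)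
              (CovZ.leaf K2_ok TE_l19521 _)
              (CovZ.badM (by decide +kernel)))
             (CovZ.leaf K2_ok TE_l19522 _)))
           (CovZ.n1 (10960, 33360) (by decide +kernel)
            (CovZ.leaf K2_ok TE_l19523 _)
            (CovZ.n1 (10960, 33440) (by decide +kernel)
             (CovZ.leaf K2_ok TE_l19524 _)
             (CovZ.leaf K2_ok TE_l19525 _))))
          (CovZ.n1 (11040, 33600) (by decide +kernel)
           (CovZ.n2 (11120, 33520) (by decide +kernel)
            (CovZ.n2 (11040, 33520) (by decide +kernel)
             (CovZ.badM (by decide +kernel))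
             (CovZ.n1 (11080, 33480) (by decide +kernel)
              (CovZ.leaf K2_ok TE_l19526 _)
              (CovZ.badM (by decide +kernel))))
            (CovZ.badM (by decide +kernel)))
           (CovZ.n1 (10960, 33520) (by decide +kernel)
            (CovZ.n2 (10960, 33600) (by decide +kernel)
             (CovZ.n2 (11000, 33560) (by decide +kernel)
              (CovZ.leaf K2_ok TE_l19527 _)
              (CovZ.badM (by decide +kernel)))
             (CovZ.n1 (10920, 33560) (by decide +kernel)
              (CovZ.badM (by decide +kernel))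
              (CovZ.leaf K2_ok TE_l19528 _)))
            (CovZ.n1 (11040, 33520) (by decide +kernel)
             (CovZ.n2 (11000, 33480) (by decide +kernel)
              (CovZ.leaf K2_ok TE_l19529 _)
              (CovZ.leaf K2_ok TE_l19530 _))
             (CovZ.n1 (11000, 33560) (by decide +kernel)
              (CovZ.badM (by decide +kernel))
              (CovZ.leaf K2_ok TE_l19531 _))))))))))
     (CovZ.badM (by decide +kernel)))))
    (CovZ.topM TE_LL 81129638414606681695789005406208 (by decide +kernel) (CovZ.n0 (11520, 34560) (by decide +kernel)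
    (CovZ.n2 (10240, 34560) (by decide +kernel)
     (CovZ.badM (by decide +kernel))
     (CovZ.n1 (10880, 33920) (by decide +kernel)
      (CovZ.n2 (10240, 33920) (by decide +kernel)
       (CovZ.n2 (10560, 34240) (by decide +kernel)
        (CovZ.n2 (10560, 33920) (by decide +kernel)
         (CovZ.n2 (10400, 34080) (by decide +kernel)
          (CovZ.badM (by decide +kernel))
          (CovZ.n1 (10400, 33920) (by decide +kernel)
           (CovZ.n2 (10320, 34000) (by decide +kernel)
            (CovZ.badM (by decide +kernel))
            (CovZ.n1 (10320, 33920) (by decide +kernel)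
             (CovZ.n2 (10280, 33960) (by decide +kernel)
              (CovZ.badM (by decide +kernel))
              (CovZ.leaf K2_ok TE_l19532 _))
             (CovZ.badM (by decide +kernel))))
           (CovZ.badM (by decide +kernel))))
         (CovZ.badM (by decide +kernel)))
        (CovZ.n1 (10240, 34240) (by decide +kernel)
         (CovZ.badM (by decide +kernel))
         (CovZ.n1 (10400, 34080) (by decide +kernel)
          (CovZ.n2 (10240, 34080) (by decide +kernel)
           (CovZ.badM (by decide +kernel))
           (CovZ.n1 (10320, 34000) (by decide +kernel)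
            (CovZ.n2 (10240, 34000) (by decide +kernel)
             (CovZ.badM (by decide +kernel))
             (CovZ.n1 (10280, 33960) (by decide +kernel)
              (CovZ.leaf K2_ok TE_l19533 _)
              (CovZ.badM (by decide +kernel))))
            (CovZ.badM (by decide +kernel))))
          (CovZ.badM (by decide +kernel)))))
       (CovZ.n1 (10560, 33600) (by decide +kernel)
        (CovZ.n2 (10240, 33600) (by decide +kernel)
         (CovZ.n2 (10400, 33760) (by decide +kernel)
          (CovZ.n2 (10400, 33600) (by decide +kernel)
           (CovZ.n2 (10320, 33680) (by decide +kernel)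
            (CovZ.leaf K2_ok TE_l19534 _)
            (CovZ.leaf K2_ok TE_l19535 _))
           (CovZ.n1 (10480, 33680) (by decide +kernel)
            (CovZ.leaf K2_ok TE_l19536 _)
            (CovZ.leaf K2_ok TE_l19537 _)))
          (CovZ.n1 (10240, 33760) (by decide +kernel)
           (CovZ.n2 (10320, 33840) (by decide +kernel)
            (CovZ.n2 (10320, 33760) (by decide +kernel)
             (CovZ.leaf K2_ok TE_l19538 _)
             (CovZ.leaf K2_ok TE_l19539 _))
            (CovZ.n1 (10240, 33840) (by decide +kernel)
             (CovZ.leaf K2_ok TE_l19540 _)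
             (CovZ.leaf K2_ok TE_l19541 _)))
           (CovZ.n1 (10320, 33680) (by decide +kernel)
            (CovZ.leaf K2_ok TE_l19542 _)
            (CovZ.leaf K2_ok TE_l19543 _))))
         (CovZ.n1 (10400, 33440) (by decide +kernel)
          (CovZ.n2 (10240, 33440) (by decide +kernel)
           (CovZ.leaf K2_ok TE_l19544 _)
           (CovZ.leaf K2_ok TE_l19545 _))
          (CovZ.n1 (10400, 33600) (by decide +kernel)
           (CovZ.leaf K2_ok TE_l19546 _)
           (CovZ.leaf K2_ok TE_l19547 _))))
        (CovZ.n1 (10560, 33920) (by decide +kernel)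
         (CovZ.n2 (10720, 33760) (by decide +kernel)
          (CovZ.n2 (10560, 33760) (by decide +kernel)
           (CovZ.badM (by decide +kernel))
           (CovZ.n1 (10640, 33680) (by decide +kernel)
            (CovZ.n2 (10560, 33680) (by decide +kernel)
             (CovZ.leaf K2_ok TE_l19548 _)
             (CovZ.leaf K2_ok TE_l19549 _))
            (CovZ.badM (by decide +kernel))))
          (CovZ.badM (by decide +kernel)))
         (CovZ.n1 (10400, 33760) (by decide +kernel)
          (CovZ.n2 (10400, 33920) (by decide +kernel)
           (CovZ.n2 (10480, 33840) (by decide +kernel)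
            (CovZ.n2 (10400, 33840) (by decide +kernel)
             (CovZ.n2 (10440, 33880) (by decide +kernel)
              (CovZ.leaf K2_ok TE_l19550 _)
              (CovZ.leaf K2_ok TE_l19551 _))
             (CovZ.leaf K2_ok TE_l19552 _))
            (CovZ.badM (by decide +kernel)))
           (CovZ.n1 (10320, 33840) (by decide +kernel)
            (CovZ.n2 (10320, 33920) (by decide +kernel)
             (CovZ.n2 (10360, 33880) (by decide +kernel)
              (CovZ.leaf K2_ok TE_l19553 _)
              (CovZ.badM (by decide +kernel)))
             (CovZ.leaf K2_ok TE_l19554 _))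
            (CovZ.n1 (10400, 33840) (by decide +kernel)
             (CovZ.leaf K2_ok TE_l19555 _)
             (CovZ.n1 (10360, 33880) (by decide +kernel)
              (CovZ.leaf K2_ok TE_l19556 _)
              (CovZ.leaf K2_ok TE_l19557 _)))))
          (CovZ.n1 (10560, 33760) (by decide +kernel)
           (CovZ.n2 (10480, 33680) (by decide +kernel)
            (CovZ.n2 (10480, 33760) (by decide +kernel)
             (CovZ.leaf K2_ok TE_l19558 _)
             (CovZ.leaf K2_ok TE_l19559 _))
            (CovZ.n1 (10560, 33680) (by decide +kernel)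
             (CovZ.leaf K2_ok TE_l19560 _)
             (CovZ.leaf K2_ok TE_l19561 _)))
           (CovZ.n1 (10480, 33840) (by decide +kernel)
            (CovZ.badM (by decide +kernel))
            (CovZ.n1 (10480, 33760) (by decide +kernel)
             (CovZ.leaf K2_ok TE_l19562 _)
             (CovZ.n1 (10520, 33800) (by decide +kernel)
              (CovZ.leaf K2_ok TE_l19563 _)
              (CovZ.leaf K2_ok TE_l19564 _)))))))))
      (CovZ.badM (by decide +kernel))))
    (CovZ.badM (by decide +kernel))))

theorem TE_s9_8 : SqZ TE_M TE_L [0, 7, 6, 1] (-10240) 12800 2560 9 8 :=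
  SqZ.mk (a := 12800) (b := 15360) (c := 33280) (d := 35840) (by norm_num) (by norm_num) (by norm_num) (by norm_num)
    (CovZ.topM TE_LL 0 (by decide +kernel) (CovZ.badM (by decide +kernel)))
    (CovZ.topM TE_LL 0 (by decide +kernel) (CovZ.badM (by decide +kernel)))

theorem TE_s10_8 : SqZ TE_M TE_L [0, 7, 6, 1] (-10240) 12800 2560 10 8 :=
  SqZ.mk (a := 15360) (b := 17920) (c := 33280) (d := 35840) (by norm_num) (by norm_num) (by norm_num) (by norm_num)
    (CovZ.topM TE_LL 0 (by decide +kernel) (CovZ.badM (by decide +kernel)))
    (CovZ.topM TE_LL 0 (by decide +kernel) (CovZ.badM (by decide +kernel)))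

theorem TE_s0_9 : SqZ TE_M TE_L [0, 7, 6, 1] (-10240) 12800 2560 0 9 :=
  SqZ.mk (a := (-10240)) (b := (-7680)) (c := 35840) (d := 38400) (by norm_num) (by norm_num) (by norm_num) (by norm_num)
    (CovZ.topM TE_LL 21778071482940061661655974875633165533184 (by decide +kernel) (CovZ.n2 (-8960, 37120) (by decide +kernel)
    (CovZ.badM (by decide +kernel))
    (CovZ.badM (by decide +kernel))))
    (CovZ.topM TE_LL 21778071482940061661655974875633165533184 (by decide +kernel) (CovZ.n0 (-8960, 37120) (by decide +kernel)
    (CovZ.badM (by decide +kernel))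
    (CovZ.badM (by decide +kernel))))

theorem TE_s1_9 : SqZ TE_M TE_L [0, 7, 6, 1] (-10240) 12800 2560 1 9 :=
  SqZ.mk (a := (-7680)) (b := (-5120)) (c := 35840) (d := 38400) (by norm_num) (by norm_num) (by norm_num) (by norm_num)
    (CovZ.topM TE_LL 1569275433846670190958947355801916604025588861116008628224 (by decide +kernel) (CovZ.n2 (-6400, 37120) (by decide +kernel)
    (CovZ.badM (by decide +kernel))
    (CovZ.n1 (-6400, 35840) (by decide +kernel)
     (CovZ.n2 (-7040, 36480) (by decide +kernel)
      (CovZ.n2 (-6400, 36480) (by decide +kernel)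
       (CovZ.badM (by decide +kernel))
       (CovZ.n1 (-6720, 36800) (by decide +kernel)
        (CovZ.badM (by decide +kernel))
        (CovZ.badM (by decide +kernel))))
      (CovZ.badM (by decide +kernel)))
     (CovZ.n1 (-5760, 36480) (by decide +kernel)
      (CovZ.n2 (-5760, 35840) (by decide +kernel)
       (CovZ.n2 (-6080, 36160) (by decide +kernel)
        (CovZ.badM (by decide +kernel))
        (CovZ.badM (by decide +kernel)))
       (CovZ.badM (by decide +kernel)))
      (CovZ.n1 (-6400, 36480) (by decide +kernel)
       (CovZ.badM (by decide +kernel))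
       (CovZ.n1 (-6080, 36160) (by decide +kernel)
        (CovZ.badM (by decide +kernel))
        (CovZ.badM (by decide +kernel))))))))
    (CovZ.topM TE_LL 1569275433846670190958947355801916604025588861116008628224 (by decide +kernel) (CovZ.n0 (-6400, 37120) (by decide +kernel)
    (CovZ.n2 (-7680, 37120) (by decide +kernel)
     (CovZ.n2 (-7040, 37760) (by decide +kernel)
      (CovZ.n2 (-7040, 37120) (by decide +kernel)
       (CovZ.n2 (-7360, 37440) (by decide +kernel)
        (CovZ.badM (by decide +kernel))
        (CovZ.badM (by decide +kernel)))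
       (CovZ.badM (by decide +kernel)))
      (CovZ.n1 (-7680, 37760) (by decide +kernel)
       (CovZ.badM (by decide +kernel))
       (CovZ.n1 (-7360, 37440) (by decide +kernel)
        (CovZ.badM (by decide +kernel))
        (CovZ.badM (by decide +kernel)))))
     (CovZ.n1 (-7040, 36480) (by decide +kernel)
      (CovZ.badM (by decide +kernel))
      (CovZ.n1 (-7040, 37120) (by decide +kernel)
       (CovZ.n2 (-6720, 36800) (by decide +kernel)
        (CovZ.badM (by decide +kernel))
        (CovZ.badM (by decide +kernel)))
       (CovZ.badM (by decide +kernel)))))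
    (CovZ.badM (by decide +kernel))))

theorem TE_s2_9 : SqZ TE_M TE_L [0, 7, 6, 1] (-10240) 12800 2560 2 9 :=
  SqZ.mk (a := (-5120)) (b := (-2560)) (c := 35840) (d := 38400) (by norm_num) (by norm_num) (by norm_num) (by norm_num)
    (CovZ.topM TE_LL 0 (by decide +kernel) (CovZ.badM (by decide +kernel)))
    (CovZ.topM TE_LL 0 (by decide +kernel) (CovZ.badM (by decide +kernel)))

theorem TE_s3_9 : SqZ TE_M TE_L [0, 7, 6, 1] (-10240) 12800 2560 3 9 :=
  SqZ.mk (a := (-2560)) (b := 0) (c := 35840) (d := 38400) (by norm_num) (by norm_num) (by norm_num) (by norm_num)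
    (CovZ.topM TE_LL 0 (by decide +kernel) (CovZ.badM (by decide +kernel)))
    (CovZ.topM TE_LL 0 (by decide +kernel) (CovZ.badM (by decide +kernel)))

theorem TE_s4_9 : SqZ TE_M TE_L [0, 7, 6, 1] (-10240) 12800 2560 4 9 :=
  SqZ.mk (a := 0) (b := 2560) (c := 35840) (d := 38400) (by norm_num) (by norm_num) (by norm_num) (by norm_num)
    (CovZ.topM TE_LL 816023225600268499298652625016996634093306207780324486676480 (by decide +kernel) (CovZ.n2 (1280, 37120) (by decide +kernel)
    (CovZ.badM (by decide +kernel))
    (CovZ.n1 (1280, 35840) (by decide +kernel)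
     (CovZ.badM (by decide +kernel))
     (CovZ.n1 (1920, 36480) (by decide +kernel)
      (CovZ.n2 (1920, 35840) (by decide +kernel)
       (CovZ.n2 (1600, 36160) (by decide +kernel)
        (CovZ.badM (by decide +kernel))
        (CovZ.n1 (1600, 35840) (by decide +kernel)
         (CovZ.badM (by decide +kernel))
         (CovZ.badM (by decide +kernel))))
       (CovZ.badM (by decide +kernel)))
      (CovZ.n1 (1280, 36480) (by decide +kernel)
       (CovZ.badM (by decide +kernel))
       (CovZ.n1 (1600, 36160) (by decide +kernel)
        (CovZ.badM (by decide +kernel))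
        (CovZ.badM (by decide +kernel))))))))
    (CovZ.topM TE_LL 816023225600268499298652625016996634093306207780324486676480 (by decide +kernel) (CovZ.n0 (1280, 37120) (by decide +kernel)
    (CovZ.badM (by decide +kernel))
    (CovZ.n1 (1280, 38400) (by decide +kernel)
     (CovZ.badM (by decide +kernel))
     (CovZ.badM (by decide +kernel)))))

theorem TE_s5_9 : SqZ TE_M TE_L [0, 7, 6, 1] (-10240) 12800 2560 5 9 :=
  SqZ.mk (a := 2560) (b := 5120) (c := 35840) (d := 38400) (by norm_num) (by norm_num) (by norm_num) (by norm_num)
    (CovZ.topM TE_LL 77371252455336267181195264 (by decide +kernel) (CovZ.n2 (3840, 37120) (by decide +kernel)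
    (CovZ.badM (by decide +kernel))
    (CovZ.n1 (3840, 35840) (by decide +kernel)
     (CovZ.badM (by decide +kernel))
     (CovZ.badM (by decide +kernel)))))
    (CovZ.topM TE_LL 0 (by decide +kernel) (CovZ.badM (by decide +kernel)))

theorem TE_s6_9 : SqZ TE_M TE_L [0, 7, 6, 1] (-10240) 12800 2560 6 9 :=
  SqZ.mk (a := 5120) (b := 7680) (c := 35840) (d := 38400) (by norm_num) (by norm_num) (by norm_num) (by norm_num)
    (CovZ.topM TE_LL 0 (by decide +kernel) (CovZ.badM (by decide +kernel)))
    (CovZ.topM TE_LL 0 (by decide +kernel) (CovZ.badM (by decide +kernel)))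

theorem TE_s7_9 : SqZ TE_M TE_L [0, 7, 6, 1] (-10240) 12800 2560 7 9 :=
  SqZ.mk (a := 7680) (b := 10240) (c := 35840) (d := 38400) (by norm_num) (by norm_num) (by norm_num) (by norm_num)
    (CovZ.topM TE_LL 0 (by decide +kernel) (CovZ.badM (by decide +kernel)))
    (CovZ.topM TE_LL 0 (by decide +kernel) (CovZ.badM (by decide +kernel)))

theorem TE_s8_9 : SqZ TE_M TE_L [0, 7, 6, 1] (-10240) 12800 2560 8 9 :=
  SqZ.mk (a := 10240) (b := 12800) (c := 35840) (d := 38400) (by norm_num) (by norm_num) (by norm_num) (by norm_num)
    (CovZ.topM TE_LL 0 (by decide +kernel) (CovZ.badM (by decide +kernel)))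
    (CovZ.topM TE_LL 0 (by decide +kernel) (CovZ.badM (by decide +kernel)))

theorem TE_s9_9 : SqZ TE_M TE_L [0, 7, 6, 1] (-10240) 12800 2560 9 9 :=
  SqZ.mk (a := 12800) (b := 15360) (c := 35840) (d := 38400) (by norm_num) (by norm_num) (by norm_num) (by norm_num)
    (CovZ.topM TE_LL 3138550867693340381917894711603833208051177722232017256448 (by decide +kernel) (CovZ.n2 (14080, 37120) (by decide +kernel)
    (CovZ.n2 (15360, 37120) (by decide +kernel)
     (CovZ.n2 (14720, 36480) (by decide +kernel)
      (CovZ.badM (by decide +kernel))
      (CovZ.badM (by decide +kernel)))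
     (CovZ.badM (by decide +kernel)))
    (CovZ.n1 (14080, 35840) (by decide +kernel)
     (CovZ.badM (by decide +kernel))
     (CovZ.n1 (14720, 36480) (by decide +kernel)
      (CovZ.badM (by decide +kernel))
      (CovZ.badM (by decide +kernel))))))
    (CovZ.topM TE_LL 0 (by decide +kernel) (CovZ.badM (by decide +kernel)))

theorem TE_s10_9 : SqZ TE_M TE_L [0, 7, 6, 1] (-10240) 12800 2560 10 9 :=
  SqZ.mk (a := 15360) (b := 17920) (c := 35840) (d := 38400) (by norm_num) (by norm_num) (by norm_num) (by norm_num)
    (CovZ.topM TE_LL 0 (by decide +kernel) (CovZ.badM (by decide +kernel)))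
    (CovZ.topM TE_LL 3138550867693340381917894711603833208051177722232017256448 (by decide +kernel) (CovZ.n0 (16640, 37120) (by decide +kernel)
    (CovZ.n2 (15360, 37120) (by decide +kernel)
     (CovZ.badM (by decide +kernel))
     (CovZ.badM (by decide +kernel)))
    (CovZ.badM (by decide +kernel))))

end Pool.Agent.TET
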