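import Pool.Agent.Helper38_TET.RegZ
import Pool.Agent.Helper38_TET.TE_S0
import Pool.Agent.Helper38_TET.TE_S1
import Pool.Agent.Helper38_TET.TE_S2
import Pool.Agent.Helper38_TET.TE_S3

/-!
# MP_c7c9bf_co: certificates, family TE
-/

set_option autoImplicit false
set_option maxRecDepth 100000

namespace Pool.Agent.TET

theorem TE_r0 : ∀ i < 11, SqZ TE_M TE_L [0, 7, 6, 1] (-10240) 12800 2560 i 0
  | 0, _ => TE_s0_0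
  | 1, _ => TE_s1_0
  | 2, _ => TE_s2_0
  | 3, _ => TE_s3_0
  | 4, _ => TE_s4_0
  | 5, _ => TE_s5_0
  | 6, _ => TE_s6_0
  | 7, _ => TE_s7_0
  | 8, _ => TE_s8_0
  | 9, _ => TE_s9_0
  | 10, _ => TE_s10_0
  | n + 11, h => absurd h (by omega)

theorem TE_r1 : ∀ i < 11, SqZ TE_M TE_L [0, 7, 6, 1] (-10240) 12800 2560 i 1
  | 0, _ => TE_s0_1
  | 1, _ => TE_s1_1
  | 2, _ => TE_s2_1
  | 3, _ => TE_s3_1
  | 4, _ => TE_s4_1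
  | 5, _ => TE_s5_1
  | 6, _ => TE_s6_1
  | 7, _ => TE_s7_1
  | 8, _ => TE_s8_1
  | 9, _ => TE_s9_1
  | 10, _ => TE_s10_1
  | n + 11, h => absurd h (by omega)

theorem TE_r2 : ∀ i < 11, SqZ TE_M TE_L [0, 7, 6, 1] (-10240) 12800 2560 i 2
  | 0, _ => TE_s0_2
  | 1, _ => TE_s1_2
  | 2, _ => TE_s2_2
  | 3, _ => TE_s3_2
  | 4, _ => TE_s4_2
  | 5, _ => TE_s5_2
  | 6, _ => TE_s6_2
  | 7, _ => TE_s7_2
  | 8, _ => TE_s8_2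
  | 9, _ => TE_s9_2
  | 10, _ => TE_s10_2
  | n + 11, h => absurd h (by omega)

theorem TE_r3 : ∀ i < 11, SqZ TE_M TE_L [0, 7, 6, 1] (-10240) 12800 2560 i 3
  | 0, _ => TE_s0_3
  | 1, _ => TE_s1_3
  | 2, _ => TE_s2_3
  | 3, _ => TE_s3_3
  | 4, _ => TE_s4_3
  | 5, _ => TE_s5_3
  | 6, _ => TE_s6_3
  | 7, _ => TE_s7_3
  | 8, _ => TE_s8_3
  | 9, _ => TE_s9_3
  | 10, _ => TE_s10_3
  | n + 11, h => absurd h (by omega)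

theorem TE_r4 : ∀ i < 11, SqZ TE_M TE_L [0, 7, 6, 1] (-10240) 12800 2560 i 4
  | 0, _ => TE_s0_4
  | 1, _ => TE_s1_4
  | 2, _ => TE_s2_4
  | 3, _ => TE_s3_4
  | 4, _ => TE_s4_4
  | 5, _ => TE_s5_4
  | 6, _ => TE_s6_4
  | 7, _ => TE_s7_4
  | 8, _ => TE_s8_4
  | 9, _ => TE_s9_4
  | 10, _ => TE_s10_4
  | n + 11, h => absurd h (by omega)

theorem TE_r5 : ∀ i < 11, SqZ TE_M TE_L [0, 7, 6, 1] (-10240) 12800 2560 i 5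
  | 0, _ => TE_s0_5
  | 1, _ => TE_s1_5
  | 2, _ => TE_s2_5
  | 3, _ => TE_s3_5
  | 4, _ => TE_s4_5
  | 5, _ => TE_s5_5
  | 6, _ => TE_s6_5
  | 7, _ => TE_s7_5
  | 8, _ => TE_s8_5
  | 9, _ => TE_s9_5
  | 10, _ => TE_s10_5
  | n + 11, h => absurd h (by omega)

theorem TE_r6 : ∀ i < 11, SqZ TE_M TE_L [0, 7, 6, 1] (-10240) 12800 2560 i 6
  | 0, _ => TE_s0_6
  | 1, _ => TE_s1_6
  | 2, _ => TE_s2_6
  | 3, _ => TE_s3_6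
  | 4, _ => TE_s4_6
  | 5, _ => TE_s5_6
  | 6, _ => TE_s6_6
  | 7, _ => TE_s7_6
  | 8, _ => TE_s8_6
  | 9, _ => TE_s9_6
  | 10, _ => TE_s10_6
  | n + 11, h => absurd h (by omega)

theorem TE_r7 : ∀ i < 11, SqZ TE_M TE_L [0, 7, 6, 1] (-10240) 12800 2560 i 7
  | 0, _ => TE_s0_7
  | 1, _ => TE_s1_7
  | 2, _ => TE_s2_7
  | 3, _ => TE_s3_7
  | 4, _ => TE_s4_7
  | 5, _ => TE_s5_7
  | 6, _ => TE_s6_7
  | 7, _ => TE_s7_7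
  | 8, _ => TE_s8_7
  | 9, _ => TE_s9_7
  | 10, _ => TE_s10_7
  | n + 11, h => absurd h (by omega)

theorem TE_r8 : ∀ i < 11, SqZ TE_M TE_L [0, 7, 6, 1] (-10240) 12800 2560 i 8
  | 0, _ => TE_s0_8
  | 1, _ => TE_s1_8
  | 2, _ => TE_s2_8
  | 3, _ => TE_s3_8
  | 4, _ => TE_s4_8
  | 5, _ => TE_s5_8
  | 6, _ => TE_s6_8
  | 7, _ => TE_s7_8
  | 8, _ => TE_s8_8
  | 9, _ => TE_s9_8
  | 10, _ => TE_s10_8
  | n + 11, h => absurd h (by omega)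

theorem TE_r9 : ∀ i < 11, SqZ TE_M TE_L [0, 7, 6, 1] (-10240) 12800 2560 i 9
  | 0, _ => TE_s0_9
  | 1, _ => TE_s1_9
  | 2, _ => TE_s2_9
  | 3, _ => TE_s3_9
  | 4, _ => TE_s4_9
  | 5, _ => TE_s5_9
  | 6, _ => TE_s6_9
  | 7, _ => TE_s7_9
  | 8, _ => TE_s8_9
  | 9, _ => TE_s9_9
  | 10, _ => TE_s10_9
  | n + 11, h => absurd h (by omega)

theorem TE_rows : ∀ j < 10, ∀ i < 11, SqZ TE_M TE_L [0, 7, 6, 1] (-10240) 12800 2560 i j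
  | 0, _ => TE_r0
  | 1, _ => TE_r1
  | 2, _ => TE_r2
  | 3, _ => TE_r3
  | 4, _ => TE_r4
  | 5, _ => TE_r5
  | 6, _ => TE_r6
  | 7, _ => TE_r7
  | 8, _ => TE_r8
  | 9, _ => TE_r9
  | n + 10, h => absurd h (by omega)

theorem TE_cov (X Y : ℝ) (h1 : ((-10240 : ℤ) : ℝ) ≤ X) (h2 : X ≤ (17920 : ℤ)) (h3 : ((12800 : ℤ) : ℝ) ≤ Y)
    (h4 : Y ≤ (38400 : ℤ)) : Out TE_L X Y ∨ GoodV [0, 7, 6, 1] (TE_M.v X Y) := by
  push_cast at h1 h2 h3 h4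
  refine gridZ (by norm_num) (by norm_num) (by norm_num) TE_rows ?_ ?_ ?_ ?_ <;> push_cast <;> linarith

theorem TE_fr (x y : ℝ) : VE x y =
    TE_M.v (30720 * x / (1 : ℤ)) (30720 * y / (1 : ℤ)) := by
  funext i j
  fin_cases i <;> fin_cases j <;> simp [VE, FM.v, Z3.ev, TE_M] <;> ring

end Pool.Agent.TET
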