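import Pool.Agent.Helper38_TET.TE_C

/-!
# MP_c7c9bf_co: certificates, family TE
-/

set_option autoImplicit false
set_option maxRecDepth 100000

namespace Pool.Agent.TET

theorem TE_rg0 : ROK [.q ⟨-1, 0, 0, 1⟩ ⟨348, -818, 1053, -583⟩, .q ⟨-1, 0, 0, 1⟩ ⟨311, 569, -3959, 3079⟩, .q ⟨-1, 0, 0, 1⟩ ⟨-2685, 3280, -2289, 1694⟩, .q ⟨-1, 0, 0, 1⟩ ⟨-2643, 1113, 3842, -2312⟩] := by
  refine rok_e (k := 1) (by decide) (Q := [(-818, 1053, -583), (569, -3959, 3079), (3280, -2289, 1694), (1113, 3842, -2312)])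
    (P := [⟨-17909760, -818, 1053⟩, ⟨94586880, 569, -3959⟩, ⟨52039680, 3280, -2289⟩, ⟨-71024640, 1113, 3842⟩]) rfl rfl
    (List.mem_of_getElem? (i := 0) rfl) TE_fr TE_cov ?_
  · intro X Y h
    simp only [List.forall_mem_cons, List.not_mem_nil, false_imp_iff, implies_true, and_true] at h
    push_cast at h ⊢
    obtain ⟨h0, h1, h2, h3⟩ := h
    refine ⟨⟨?_, ?_⟩, ?_, ?_⟩ <;> linarith

theorem TE_rg1 : ROK [.q ⟨-1, 0, 0, 1⟩ ⟨-1381, 1414, -1414, 1381⟩, .q ⟨-1, 0, 0, 1⟩ ⟨-1798, 1594, 3669, -3465⟩, .q ⟨-1, 0, 0, 1⟩ ⟨3301, -3705, 1508, -1104⟩, .q ⟨-1, 0, 0, 1⟩ ⟨2644, -2992, -2655, 3003⟩] := by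
  refine rok_e (k := 1) (by decide) (Q := [(1414, -1414, 1381), (1594, 3669, -3465), (-3705, 1508, -1104), (-2992, -2655, 3003)])
    (P := [⟨42424320, 1414, -1414⟩, ⟨-106444800, 1594, 3669⟩, ⟨-33914880, -3705, 1508⟩, ⟨92252160, -2992, -2655⟩]) rfl rfl
    (List.mem_of_getElem? (i := 1) rfl) TE_fr TE_cov ?_
  · intro X Y h
    simp only [List.forall_mem_cons, List.not_mem_nil, false_imp_iff, implies_true, and_true] at h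
    push_cast at h ⊢
    obtain ⟨h0, h1, h2, h3⟩ := h
    refine ⟨⟨?_, ?_⟩, ?_, ?_⟩ <;> linarith

theorem TE_rg2 : ROK [.q ⟨-1, 0, 0, 1⟩ ⟨-3033, 2828, 2828, -2623⟩, .q ⟨-1, 0, 0, 1⟩ ⟨1959, -2000, 0, 41⟩, .q ⟨-1, 0, 0, 1⟩ ⟨-103, -138, -3998, 4239⟩, .q ⟨-1, 0, 0, 1⟩ ⟨-3166, 2983, -2664, 2847⟩] := by
  refine rok_e (k := 1) (by decide) (Q := [(2828, 2828, -2623), (-2000, 0, 41), (-138, -3998, 4239), (2983, -2664, 2847)])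
    (P := [⟨-80578560, 2828, 2828⟩, ⟨1259520, -2000, 0⟩, ⟨130222080, -138, -3998⟩, ⟨87459840, 2983, -2664⟩]) rfl rfl
    (List.mem_of_getElem? (i := 2) rfl) TE_fr TE_cov ?_
  · intro X Y h
    simp only [List.forall_mem_cons, List.not_mem_nil, false_imp_iff, implies_true, and_true] at h
    push_cast at h ⊢
    obtain ⟨h0, h1, h2, h3⟩ := h
    refine ⟨⟨?_, ?_⟩, ?_, ?_⟩ <;> linarith

theorem TE_rg3 : ROK [.q ⟨-1, 0, 0, 1⟩ ⟨512, -707, -707, 902⟩, .q ⟨-1, 0, 0, 1⟩ ⟨-3036, 3804, -1235, 467⟩, .q ⟨-1, 0, 0, 1⟩ ⟨-20, -379, 1964, -1565⟩] := by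
  refine rok_e (k := 1) (by decide) (Q := [(-707, -707, 902), (3804, -1235, 467), (-379, 1964, -1565)])
    (P := [⟨27709440, -707, -707⟩, ⟨14346240, 3804, -1235⟩, ⟨-48076800, -379, 1964⟩]) rfl rfl
    (List.mem_of_getElem? (i := 3) rfl) TE_fr TE_cov ?_
  · intro X Y h
    simp only [List.forall_mem_cons, List.not_mem_nil, false_imp_iff, implies_true, and_true] at h
    push_cast at h ⊢
    obtain ⟨h0, h1, h2⟩ := h
    refine ⟨⟨?_, ?_⟩, ?_, ?_⟩ <;> linarith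

theorem TE_rg4 : ROK [.q ⟨-1, 0, 0, 1⟩ ⟨2479, -2659, -2988, 3168⟩, .q ⟨-1, 0, 0, 1⟩ ⟨319, 0, -4000, 3681⟩, .q ⟨-1, 0, 0, 1⟩ ⟨-1180, 1319, -196, 57⟩, .q ⟨-1, 0, 0, 1⟩ ⟨-1678, 1247, 3801, -3370⟩] := by
  refine rok_e (k := 1) (by decide) (Q := [(-2659, -2988, 3168), (0, -4000, 3681), (1319, -196, 57), (1247, 3801, -3370)])
    (P := [⟨97320960, -2659, -2988⟩, ⟨113080320, 0, -4000⟩, ⟨1751040, 1319, -196⟩, ⟨-103526400, 1247, 3801⟩]) rfl rfl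
    (List.mem_of_getElem? (i := 4) rfl) TE_fr TE_cov ?_
  · intro X Y h
    simp only [List.forall_mem_cons, List.not_mem_nil, false_imp_iff, implies_true, and_true] at h
    push_cast at h ⊢
    obtain ⟨h0, h1, h2, h3⟩ := h
    refine ⟨⟨?_, ?_⟩, ?_, ?_⟩ <;> linarith

theorem TE_rg5 : ROK [.q ⟨-1, 0, 0, 1⟩ ⟨965, -721, -3935, 3691⟩, .q ⟨-1, 0, 0, 1⟩ ⟨-3619, 4000, 0, -381⟩, .q ⟨-1, 0, 0, 1⟩ ⟨1373, -2852, 2805, -1326⟩] := by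
  refine rok_e (k := 1) (by decide) (Q := [(-721, -3935, 3691), (4000, 0, -381), (-2852, 2805, -1326)])
    (P := [⟨113387520, -721, -3935⟩, ⟨-11704320, 4000, 0⟩, ⟨-40734720, -2852, 2805⟩]) rfl rfl
    (List.mem_of_getElem? (i := 5) rfl) TE_fr TE_cov ?_
  · intro X Y h
    simp only [List.forall_mem_cons, List.not_mem_nil, false_imp_iff, implies_true, and_true] at h
    push_cast at h ⊢
    obtain ⟨h0, h1, h2⟩ := h
    refine ⟨⟨?_, ?_⟩, ?_, ?_⟩ <;> linarith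

theorem TE_rg6 : ROK [.q ⟨-1, 0, 0, 1⟩ ⟨361, -589, -3956, 4184⟩, .q ⟨-1, 0, 0, 1⟩ ⟨-3683, 3821, 1184, -1322⟩, .q ⟨-1, 0, 0, 1⟩ ⟨3228, -3613, 1717, -1332⟩, .q ⟨-1, 0, 0, 1⟩ ⟨3162, -3577, -1790, 2205⟩] := by
  refine rok_e (k := 1) (by decide) (Q := [(-589, -3956, 4184), (3821, 1184, -1322), (-3613, 1717, -1332), (-3577, -1790, 2205)])
    (P := [⟨128532480, -589, -3956⟩, ⟨-40611840, 3821, 1184⟩, ⟨-40919040, -3613, 1717⟩, ⟨67737600, -3577, -1790⟩]) rfl rfl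
    (List.mem_of_getElem? (i := 6) rfl) TE_fr TE_cov ?_
  · intro X Y h
    simp only [List.forall_mem_cons, List.not_mem_nil, false_imp_iff, implies_true, and_true] at h
    push_cast at h ⊢
    obtain ⟨h0, h1, h2, h3⟩ := h
    refine ⟨⟨?_, ?_⟩, ?_, ?_⟩ <;> linarith

theorem TE_rg7 : ROK [.q ⟨-1, 0, 0, 1⟩ ⟨1341, -2828, 2828, -1341⟩, .q ⟨-1, 0, 0, 1⟩ ⟨2345, -2473, -3144, 3272⟩, .q ⟨-1, 0, 0, 1⟩ ⟨-109, 478, -3971, 3602⟩, .q ⟨-1, 0, 0, 1⟩ ⟨-3649, 3958, 581, -890⟩] := by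
  refine rok_e (k := 1) (by decide) (Q := [(-2828, 2828, -1341), (-2473, -3144, 3272), (478, -3971, 3602), (3958, 581, -890)])
    (P := [⟨-41195520, -2828, 2828⟩, ⟨100515840, -2473, -3144⟩, ⟨110653440, 478, -3971⟩, ⟨-27340800, 3958, 581⟩]) rfl rfl
    (List.mem_of_getElem? (i := 7) rfl) TE_fr TE_cov ?_
  · intro X Y h
    simp only [List.forall_mem_cons, List.not_mem_nil, false_imp_iff, implies_true, and_true] at h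
    push_cast at h ⊢
    obtain ⟨h0, h1, h2, h3⟩ := h
    refine ⟨⟨?_, ?_⟩, ?_, ?_⟩ <;> linarith

theorem TE_rg8 : ROK [.q ⟨-1, 0, 0, 1⟩ ⟨890, -612, -3953, 3675⟩, .q ⟨-1, 0, 0, 1⟩ ⟨-3220, 3672, -1587, 1135⟩, .q ⟨-1, 0, 0, 1⟩ ⟨-421, 404, 404, -387⟩, .q ⟨-1, 0, 0, 1⟩ ⟨379, -500, 0, 121⟩] := by
  refine rok_e (k := 1) (by decide) (Q := [(-612, -3953, 3675), (3672, -1587, 1135), (404, 404, -387), (-500, 0, 121)])
    (P := [⟨112896000, -612, -3953⟩, ⟨34867200, 3672, -1587⟩, ⟨-11888640, 404, 404⟩, ⟨3717120, -500, 0⟩]) rfl rfl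
    (List.mem_of_getElem? (i := 8) rfl) TE_fr TE_cov ?_
  · intro X Y h
    simp only [List.forall_mem_cons, List.not_mem_nil, false_imp_iff, implies_true, and_true] at h
    push_cast at h ⊢
    obtain ⟨h0, h1, h2, h3⟩ := h
    refine ⟨⟨?_, ?_⟩, ?_, ?_⟩ <;> linarith

theorem TE_rg9 : ROK [.q ⟨-1, 0, 0, 1⟩ ⟨-1757, 2285, -3283, 2755⟩, .q ⟨-1, 0, 0, 1⟩ ⟨-1851, 2000, 0, -149⟩, .q ⟨-1, 0, 0, 1⟩ ⟨-751, 707, 707, -663⟩, .q ⟨-1, 0, 0, 1⟩ ⟨3207, -3779, 1311, -739⟩] := by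
  refine rok_e (k := 1) (by decide) (Q := [(2285, -3283, 2755), (2000, 0, -149), (707, 707, -663), (-3779, 1311, -739)])
    (P := [⟨84633600, 2285, -3283⟩, ⟨-4577280, 2000, 0⟩, ⟨-20367360, 707, 707⟩, ⟨-22702080, -3779, 1311⟩]) rfl rfl
    (List.mem_of_getElem? (i := 9) rfl) TE_fr TE_cov ?_
  · intro X Y h
    simp only [List.forall_mem_cons, List.not_mem_nil, false_imp_iff, implies_true, and_true] at h
    push_cast at h ⊢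
    obtain ⟨h0, h1, h2, h3⟩ := h
    refine ⟨⟨?_, ?_⟩, ?_, ?_⟩ <;> linarith

theorem TE_rg10 : ROK [.q ⟨-1, 0, 0, 1⟩ ⟨211, 109, -3999, 3679⟩, .q ⟨-1, 0, 0, 1⟩ ⟨-582, 707, -707, 582⟩, .q ⟨-1, 0, 0, 1⟩ ⟨-299, -104, 3999, -3596⟩, .q ⟨-1, 0, 0, 1⟩ ⟨681, -800, 0, 119⟩] := by
  refine rok_e (k := 1) (by decide) (Q := [(109, -3999, 3679), (707, -707, 582), (-104, 3999, -3596), (-800, 0, 119)])
    (P := [⟨113018880, 109, -3999⟩, ⟨17879040, 707, -707⟩, ⟨-110469120, -104, 3999⟩, ⟨3655680, -800, 0⟩]) rfl rfl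
    (List.mem_of_getElem? (i := 10) rfl) TE_fr TE_cov ?_
  · intro X Y h
    simp only [List.forall_mem_cons, List.not_mem_nil, false_imp_iff, implies_true, and_true] at h
    push_cast at h ⊢
    obtain ⟨h0, h1, h2, h3⟩ := h
    refine ⟨⟨?_, ?_⟩, ?_, ?_⟩ <;> linarith

theorem TE_rg11 : ROK [.q ⟨-1, 0, 0, 1⟩ ⟨-4, 0, 25, -21⟩, .q ⟨-1, 0, 0, 1⟩ ⟨833, -862, -1017, 1046⟩, .q ⟨-1, 0, 0, 1⟩ ⟨253, 48, -4000, 3699⟩, .q ⟨-1, 0, 0, 1⟩ ⟨-3329, 3833, -1143, 639⟩] := by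
  refine rok_e (k := 1) (by decide) (Q := [(0, 25, -21), (-862, -1017, 1046), (48, -4000, 3699), (3833, -1143, 639)])
    (P := [⟨-645120, 0, 25⟩, ⟨32133120, -862, -1017⟩, ⟨113633280, 48, -4000⟩, ⟨19630080, 3833, -1143⟩]) rfl rfl
    (List.mem_of_getElem? (i := 11) rfl) TE_fr TE_cov ?_
  · intro X Y h
    simp only [List.forall_mem_cons, List.not_mem_nil, false_imp_iff, implies_true, and_true] at h
    push_cast at h ⊢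
    obtain ⟨h0, h1, h2, h3⟩ := h
    refine ⟨⟨?_, ?_⟩, ?_, ?_⟩ <;> linarith

theorem TE_rg12 : ROK [.q ⟨-1, 0, 0, 1⟩ ⟨1060, -2134, 3383, -2309⟩, .q ⟨-1, 0, 0, 1⟩ ⟨51, -109, -315, 373⟩, .q ⟨-1, 0, 0, 1⟩ ⟨-2250, 3007, -2637, 1880⟩] := by
  refine rok_e (k := 1) (by decide) (Q := [(-2134, 3383, -2309), (-109, -315, 373), (3007, -2637, 1880)])
    (P := [⟨-70932480, -2134, 3383⟩, ⟨11458560, -109, -315⟩, ⟨57753600, 3007, -2637⟩]) rfl rfl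
    (List.mem_of_getElem? (i := 12) rfl) TE_fr TE_cov ?_
  · intro X Y h
    simp only [List.forall_mem_cons, List.not_mem_nil, false_imp_iff, implies_true, and_true] at h
    push_cast at h ⊢
    obtain ⟨h0, h1, h2⟩ := h
    refine ⟨⟨?_, ?_⟩, ?_, ?_⟩ <;> linarith

theorem TE_rg13 : ROK [.q ⟨-1, 0, 0, 1⟩ ⟨-2526, 2512, 3113, -3099⟩, .q ⟨-1, 0, 0, 1⟩ ⟨618, -1150, 3831, -3299⟩, .q ⟨-1, 0, 0, 1⟩ ⟨1848, -1844, -3549, 3545⟩, .q ⟨-1, 0, 0, 1⟩ ⟨-114, 302, -1977, 1789⟩] := by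
  refine rok_e (k := 1) (by decide) (Q := [(2512, 3113, -3099), (-1150, 3831, -3299), (-1844, -3549, 3545), (302, -1977, 1789)])
    (P := [⟨-95201280, 2512, 3113⟩, ⟨-101345280, -1150, 3831⟩, ⟨108902400, -1844, -3549⟩, ⟨54958080, 302, -1977⟩]) rfl rfl
    (List.mem_of_getElem? (i := 13) rfl) TE_fr TE_cov ?_
  · intro X Y h
    simp only [List.forall_mem_cons, List.not_mem_nil, false_imp_iff, implies_true, and_true] at h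
    push_cast at h ⊢
    obtain ⟨h0, h1, h2, h3⟩ := h
    refine ⟨⟨?_, ?_⟩, ?_, ?_⟩ <;> linarith

theorem TE_rg14 : ROK [.q ⟨-1, 0, 0, 1⟩ ⟨-3565, 3652, 1632, -1719⟩, .q ⟨-1, 0, 0, 1⟩ ⟨-423, -1008, 3871, -2440⟩, .q ⟨-1, 0, 0, 1⟩ ⟨3367, -3491, -1952, 2076⟩, .q ⟨-1, 0, 0, 1⟩ ⟨-3210, 3659, -1616, 1167⟩] := by
  refine rok_e (k := 1) (by decide) (Q := [(3652, 1632, -1719), (-1008, 3871, -2440), (-3491, -1952, 2076), (3659, -1616, 1167)])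
    (P := [⟨-52807680, 3652, 1632⟩, ⟨-74956800, -1008, 3871⟩, ⟨63774720, -3491, -1952⟩, ⟨35850240, 3659, -1616⟩]) rfl rfl
    (List.mem_of_getElem? (i := 14) rfl) TE_fr TE_cov ?_
  · intro X Y h
    simp only [List.forall_mem_cons, List.not_mem_nil, false_imp_iff, implies_true, and_true] at h
    push_cast at h ⊢
    obtain ⟨h0, h1, h2, h3⟩ := h
    refine ⟨⟨?_, ?_⟩, ?_, ?_⟩ <;> linarith

theorem TE_rg15 : ROK [.q ⟨-1, 0, 0, 1⟩ ⟨351, 16, -4000, 3633⟩, .q ⟨-1, 0, 0, 1⟩ ⟨-982, 1145, -683, 520⟩, .q ⟨-1, 0, 0, 1⟩ ⟨-738, 707, 707, -676⟩, .q ⟨-1, 0, 0, 1⟩ ⟨379, -500, 0, 121⟩] := by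
  refine rok_e (k := 1) (by decide) (Q := [(16, -4000, 3633), (1145, -683, 520), (707, 707, -676), (-500, 0, 121)])
    (P := [⟨111605760, 16, -4000⟩, ⟨15974400, 1145, -683⟩, ⟨-20766720, 707, 707⟩, ⟨3717120, -500, 0⟩]) rfl rfl
    (List.mem_of_getElem? (i := 15) rfl) TE_fr TE_cov ?_
  · intro X Y h
    simp only [List.forall_mem_cons, List.not_mem_nil, false_imp_iff, implies_true, and_true] at h
    push_cast at h ⊢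
    obtain ⟨h0, h1, h2, h3⟩ := h
    refine ⟨⟨?_, ?_⟩, ?_, ?_⟩ <;> linarith

theorem TE_rg16 : ROK [.q ⟨-1, 0, 0, 1⟩ ⟨1956, -3461, 2005, -500⟩, .q ⟨-1, 0, 0, 1⟩ ⟨1860, -1853, -3545, 3538⟩, .q ⟨-1, 0, 0, 1⟩ ⟨-2235, 2828, -2828, 2235⟩, .q ⟨-1, 0, 0, 1⟩ ⟨-1742, 1333, 3771, -3362⟩] := by
  refine rok_e (k := 1) (by decide) (Q := [(-3461, 2005, -500), (-1853, -3545, 3538), (2828, -2828, 2235), (1333, 3771, -3362)])
    (P := [⟨-15360000, -3461, 2005⟩, ⟨108687360, -1853, -3545⟩, ⟨68659200, 2828, -2828⟩, ⟨-103280640, 1333, 3771⟩]) rfl rfl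
    (List.mem_of_getElem? (i := 16) rfl) TE_fr TE_cov ?_
  · intro X Y h
    simp only [List.forall_mem_cons, List.not_mem_nil, false_imp_iff, implies_true, and_true] at h
    push_cast at h ⊢
    obtain ⟨h0, h1, h2, h3⟩ := h
    refine ⟨⟨?_, ?_⟩, ?_, ?_⟩ <;> linarith

theorem TE_rg17 : ROK [.q ⟨-1, 0, 0, 1⟩ ⟨-1235, 1388, 3751, -3904⟩, .q ⟨-1, 0, 0, 1⟩ ⟨889, -1000, 0, 111⟩, .q ⟨-1, 0, 0, 1⟩ ⟨-2943, 3215, -2379, 2107⟩] := by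
  refine rok_e (k := 1) (by decide) (Q := [(1388, 3751, -3904), (-1000, 0, 111), (3215, -2379, 2107)])
    (P := [⟨-119930880, 1388, 3751⟩, ⟨3409920, -1000, 0⟩, ⟨64727040, 3215, -2379⟩]) rfl rfl
    (List.mem_of_getElem? (i := 17) rfl) TE_fr TE_cov ?_
  · intro X Y h
    simp only [List.forall_mem_cons, List.not_mem_nil, false_imp_iff, implies_true, and_true] at h
    push_cast at h ⊢
    obtain ⟨h0, h1, h2⟩ := h
    refine ⟨⟨?_, ?_⟩, ?_, ?_⟩ <;> linarith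

theorem TE_rg18 : ROK [.q ⟨-1, 0, 0, 1⟩ ⟨-1831, 2176, -3357, 3012⟩, .q ⟨-1, 0, 0, 1⟩ ⟨-803, 1000, 0, -197⟩, .q ⟨-1, 0, 0, 1⟩ ⟨1130, -2444, 3167, -1853⟩, .q ⟨-1, 0, 0, 1⟩ ⟨1523, -2740, -2915, 4132⟩] := by
  refine rok_e (k := 1) (by decide) (Q := [(2176, -3357, 3012), (1000, 0, -197), (-2444, 3167, -1853), (-2740, -2915, 4132)])
    (P := [⟨92528640, 2176, -3357⟩, ⟨-6051840, 1000, 0⟩, ⟨-56924160, -2444, 3167⟩, ⟨126935040, -2740, -2915⟩]) rfl rfl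
    (List.mem_of_getElem? (i := 18) rfl) TE_fr TE_cov ?_
  · intro X Y h
    simp only [List.forall_mem_cons, List.not_mem_nil, false_imp_iff, implies_true, and_true] at h
    push_cast at h ⊢
    obtain ⟨h0, h1, h2, h3⟩ := h
    refine ⟨⟨?_, ?_⟩, ?_, ?_⟩ <;> linarith

theorem TE_rg19 : ROK [.q ⟨-1, 0, 0, 1⟩ ⟨-532, 181, 1992, -1641⟩, .q ⟨-1, 0, 0, 1⟩ ⟨2764, -3988, -305, 1529⟩, .q ⟨-1, 0, 0, 1⟩ ⟨-351, 852, -3908, 3407⟩, .q ⟨-1, 0, 0, 1⟩ ⟨-3660, 3803, 1240, -1383⟩] := by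
  refine rok_e (k := 1) (by decide) (Q := [(181, 1992, -1641), (-3988, -305, 1529), (852, -3908, 3407), (3803, 1240, -1383)])
    (P := [⟨-50411520, 181, 1992⟩, ⟨46970880, -3988, -305⟩, ⟨104663040, 852, -3908⟩, ⟨-42485760, 3803, 1240⟩]) rfl rfl
    (List.mem_of_getElem? (i := 19) rfl) TE_fr TE_cov ?_
  · intro X Y h
    simp only [List.forall_mem_cons, List.not_mem_nil, false_imp_iff, implies_true, and_true] at h
    push_cast at h ⊢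
    obtain ⟨h0, h1, h2, h3⟩ := h
    refine ⟨⟨?_, ?_⟩, ?_, ?_⟩ <;> linarith

theorem TE_rg20 : ROK [.q ⟨-1, 0, 0, 1⟩ ⟨3697, -4000, 61, 242⟩, .q ⟨-1, 0, 0, 1⟩ ⟨108, 41, -799, 650⟩, .q ⟨-1, 0, 0, 1⟩ ⟨-3887, 3974, -457, 370⟩, .q ⟨-1, 0, 0, 1⟩ ⟨-229, 0, 500, -271⟩] := by
  refine rok_e (k := 1) (by decide) (Q := [(-4000, 61, 242), (41, -799, 650), (3974, -457, 370), (0, 500, -271)])
    (P := [⟨7434240, -4000, 61⟩, ⟨19968000, 41, -799⟩, ⟨11366400, 3974, -457⟩, ⟨-8325120, 0, 500⟩]) rfl rfl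
    (List.mem_of_getElem? (i := 20) rfl) TE_fr TE_cov ?_
  · intro X Y h
    simp only [List.forall_mem_cons, List.not_mem_nil, false_imp_iff, implies_true, and_true] at h
    push_cast at h ⊢
    obtain ⟨h0, h1, h2, h3⟩ := h
    refine ⟨⟨?_, ?_⟩, ?_, ?_⟩ <;> linarith

theorem TE_rg21 : ROK [.q ⟨-1, 0, 0, 1⟩ ⟨2431, -2828, -2828, 3225⟩, .q ⟨-1, 0, 0, 1⟩ ⟨732, -995, -3874, 4137⟩, .q ⟨-1, 0, 0, 1⟩ ⟨-3004, 3356, 2177, -2529⟩, .q ⟨-1, 0, 0, 1⟩ ⟨1713, -1815, 3565, -3463⟩] := by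
  refine rok_e (k := 1) (by decide) (Q := [(-2828, -2828, 3225), (-995, -3874, 4137), (3356, 2177, -2529), (-1815, 3565, -3463)])
    (P := [⟨99072000, -2828, -2828⟩, ⟨127088640, -995, -3874⟩, ⟨-77690880, 3356, 2177⟩, ⟨-106383360, -1815, 3565⟩]) rfl rfl
    (List.mem_of_getElem? (i := 21) rfl) TE_fr TE_cov ?_
  · intro X Y h
    simp only [List.forall_mem_cons, List.not_mem_nil, false_imp_iff, implies_true, and_true] at h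
    push_cast at h ⊢
    obtain ⟨h0, h1, h2, h3⟩ := h
    refine ⟨⟨?_, ?_⟩, ?_, ?_⟩ <;> linarith

theorem TE_rg22 : ROK [.q ⟨-1, 0, 0, 1⟩ ⟨-2866, 3519, -1902, 1249⟩, .q ⟨-1, 0, 0, 1⟩ ⟨467, -1895, 3523, -2095⟩, .q ⟨-1, 0, 0, 1⟩ ⟨3362, -3895, -910, 1443⟩, .q ⟨-1, 0, 0, 1⟩ ⟨1475, -1397, -3748, 3670⟩] := by
  refine rok_e (k := 1) (by decide) (Q := [(3519, -1902, 1249), (-1895, 3523, -2095), (-3895, -910, 1443), (-1397, -3748, 3670)])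
    (P := [⟨38369280, 3519, -1902⟩, ⟨-64358400, -1895, 3523⟩, ⟨44328960, -3895, -910⟩, ⟨112742400, -1397, -3748⟩]) rfl rfl
    (List.mem_of_getElem? (i := 22) rfl) TE_fr TE_cov ?_
  · intro X Y h
    simp only [List.forall_mem_cons, List.not_mem_nil, false_imp_iff, implies_true, and_true] at h
    push_cast at h ⊢
    obtain ⟨h0, h1, h2, h3⟩ := h
    refine ⟨⟨?_, ?_⟩, ?_, ?_⟩ <;> linarith

theorem TE_rg23 : ROK [.q ⟨-1, 0, 0, 1⟩ ⟨2243, -2341, -3243, 3341⟩, .q ⟨-1, 0, 0, 1⟩ ⟨-443, 861, -3906, 3488⟩, .q ⟨-1, 0, 0, 1⟩ ⟨-3482, 3953, -608, 137⟩, .q ⟨-1, 0, 0, 1⟩ ⟨-153, 0, 400, -247⟩, .q ⟨-1, 0, 0, 1⟩ ⟨1649, -3070, 2565, -1144⟩] := by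
  refine rok_e (k := 1) (by decide) (Q := [(-2341, -3243, 3341), (861, -3906, 3488), (3953, -608, 137), (0, 400, -247), (-3070, 2565, -1144)])
    (P := [⟨102635520, -2341, -3243⟩, ⟨107151360, 861, -3906⟩, ⟨4208640, 3953, -608⟩, ⟨-7587840, 0, 400⟩, ⟨-35143680, -3070, 2565⟩]) rfl rfl
    (List.mem_of_getElem? (i := 23) rfl) TE_fr TE_cov ?_
  · intro X Y h
    simp only [List.forall_mem_cons, List.not_mem_nil, false_imp_iff, implies_true, and_true] at h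
    push_cast at h ⊢
    obtain ⟨h0, h1, h2, h3, h4⟩ := h
    refine ⟨⟨?_, ?_⟩, ?_, ?_⟩ <;> linarith

end Pool.Agent.TET
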