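import Pool.Agent.Helper38_TET.TE_M
import Pool.Agent.Helper38_TET.TE_L
import Pool.Agent.Helper38_TET.TE_0
import Pool.Agent.Helper38_TET.TE_1
import Pool.Agent.Helper38_TET.TE_2
import Pool.Agent.Helper38_TET.TE_3
import Pool.Agent.Helper38_TET.TE_15
import Pool.Agent.Helper38_TET.TE_16
import Pool.Agent.Helper38_TET.TE_17
import Pool.Agent.Helper38_TET.TE_46
import Pool.Agent.Helper38_TET.TE_47
import Pool.Agent.Helper38_TET.TE_48
import Pool.Agent.Helper38_TET.TE_114
import Pool.Agent.Helper38_TET.TE_115

/-!
# MP_c7c9bf_co: certificates, family TE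
-/

set_option autoImplicit false
set_option maxRecDepth 100000

namespace Pool.Agent.TET

theorem TE_u0 : CovZ TE_M (toL (selN TE_LN 5708990770823920653871560845662952953731874816)) [0, 7, 6, 1] (0, 15360) (0, 16640) (-1280, 16640) :=
    (CovZ.n2 (-640, 16000) (by decide +kernel)
      (CovZ.n2 (-640, 16640) (by decide +kernel)
       (CovZ.n2 (-320, 16320) (by decide +kernel)
        (CovZ.n2 (-640, 16320) (by decide +kernel)
         (CovZ.n2 (-480, 16480) (by decide +kernel)
          (CovZ.n2 (-480, 16320) (by decide +kernel)
           (CovZ.leaf K2_ok TE_l82 _)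
           (CovZ.leaf K2_ok TE_l83 _))
          (CovZ.n1 (-640, 16480) (by decide +kernel)
           (CovZ.leaf K2_ok TE_l84 _)
           (CovZ.leaf K2_ok TE_l85 _)))
         (CovZ.n1 (-480, 16160) (by decide +kernel)
          (CovZ.n2 (-640, 16160) (by decide +kernel)
           (CovZ.n2 (-560, 16240) (by decide +kernel)
            (CovZ.leaf K2_ok TE_l86 _)
            (CovZ.leaf K2_ok TE_l87 _))
           (CovZ.n1 (-560, 16080) (by decide +kernel)
            (CovZ.n2 (-640, 16080) (by decide +kernel)
             (CovZ.leaf K2_ok TE_l88 _)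
             (CovZ.leaf K2_ok TE_l89 _))
            (CovZ.leaf K2_ok TE_l90 _)))
          (CovZ.n1 (-480, 16320) (by decide +kernel)
           (CovZ.leaf K2_ok TE_l91 _)
           (CovZ.leaf K2_ok TE_l92 _))))
        (CovZ.n1 (-320, 16640) (by decide +kernel)
         (CovZ.leaf K2_ok TE_l93 _)
         (CovZ.n1 (-480, 16480) (by decide +kernel)
          (CovZ.leaf K2_ok TE_l94 _)
          (CovZ.leaf K2_ok TE_l95 _))))
       (CovZ.n1 (-960, 16320) (by decide +kernel)
        (CovZ.n2 (-960, 16640) (by decide +kernel)
         (CovZ.n2 (-800, 16480) (by decide +kernel)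
          (CovZ.n2 (-960, 16480) (by decide +kernel)
           (CovZ.n2 (-880, 16560) (by decide +kernel)
            (CovZ.n2 (-880, 16480) (by decide +kernel)
             (CovZ.leaf K2_ok TE_l96 _)
             (CovZ.leaf K2_ok TE_l97 _))
            (CovZ.n1 (-960, 16560) (by decide +kernel)
             (CovZ.leaf K2_ok TE_l98 _)
             (CovZ.leaf K2_ok TE_l99 _)))
           (CovZ.n1 (-880, 16400) (by decide +kernel)
            (CovZ.n2 (-960, 16400) (by decide +kernel)
             (CovZ.n2 (-920, 16440) (by decide +kernel)
              (CovZ.leaf K2_ok TE_l16960 _)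
              (CovZ.badM (by decide +kernel)))
             (CovZ.n1 (-920, 16360) (by decide +kernel)
              (CovZ.badM (by decide +kernel))
              (CovZ.leaf K2_ok TE_l16961 _)))
            (CovZ.n1 (-880, 16480) (by decide +kernel)
             (CovZ.leaf K2_ok TE_l100 _)
             (CovZ.n1 (-920, 16440) (by decide +kernel)
              (CovZ.leaf K2_ok TE_l16962 _)
              (CovZ.leaf K2_ok TE_l16963 _)))))
          (CovZ.n1 (-800, 16640) (by decide +kernel)
           (CovZ.leaf K2_ok TE_l101 _)
           (CovZ.n1 (-880, 16560) (by decide +kernel)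
            (CovZ.leaf K2_ok TE_l102 _)
            (CovZ.leaf K2_ok TE_l103 _))))
         (CovZ.n1 (-1120, 16480) (by decide +kernel)
          (CovZ.n2 (-1120, 16640) (by decide +kernel)
           (CovZ.n2 (-1040, 16560) (by decide +kernel)
            (CovZ.badM (by decide +kernel))
            (CovZ.n1 (-1040, 16640) (by decide +kernel)
             (CovZ.n2 (-1000, 16600) (by decide +kernel)
              (CovZ.leaf K2_ok TE_l16964 _)
              (CovZ.leaf K2_ok TE_l16965 _))
             (CovZ.badM (by decide +kernel))))
           (CovZ.badM (by decide +kernel)))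
          (CovZ.n1 (-960, 16480) (by decide +kernel)
           (CovZ.badM (by decide +kernel))
           (CovZ.n1 (-1040, 16560) (by decide +kernel)
            (CovZ.n2 (-960, 16560) (by decide +kernel)
             (CovZ.n2 (-1000, 16520) (by decide +kernel)
              (CovZ.leaf K2_ok TE_l16966 _)
              (CovZ.leaf K2_ok TE_l16967 _))
             (CovZ.n1 (-1000, 16600) (by decide +kernel)
              (CovZ.leaf K2_ok TE_l16968 _)
              (CovZ.leaf K2_ok TE_l16969 _)))
            (CovZ.badM (by decide +kernel))))))
        (CovZ.n1 (-640, 16320) (by decide +kernel)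
         (CovZ.n2 (-800, 16160) (by decide +kernel)
          (CovZ.n2 (-800, 16320) (by decide +kernel)
           (CovZ.n2 (-720, 16240) (by decide +kernel)
            (CovZ.n2 (-800, 16240) (by decide +kernel)
             (CovZ.leaf K2_ok TE_l104 _)
             (CovZ.leaf K2_ok TE_l105 _))
            (CovZ.leaf K2_ok TE_l106 _))
           (CovZ.n1 (-880, 16240) (by decide +kernel)
            (CovZ.n2 (-880, 16320) (by decide +kernel)
             (CovZ.n2 (-840, 16280) (by decide +kernel)
              (CovZ.badM (by decide +kernel))
              (CovZ.leaf K2_ok TE_l107 _))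
             (CovZ.badM (by decide +kernel)))
            (CovZ.n1 (-800, 16240) (by decide +kernel)
             (CovZ.n2 (-840, 16200) (by decide +kernel)
              (CovZ.leaf K2_ok TE_l16970 _)
              (CovZ.leaf K2_ok TE_l16971 _))
             (CovZ.n1 (-840, 16280) (by decide +kernel)
              (CovZ.leaf K2_ok TE_l108 _)
              (CovZ.leaf K2_ok TE_l16972 _)))))
          (CovZ.n1 (-640, 16160) (by decide +kernel)
           (CovZ.n2 (-720, 16080) (by decide +kernel)
            (CovZ.n2 (-720, 16160) (by decide +kernel)
             (CovZ.leaf K2_ok TE_l109 _)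
             (CovZ.n1 (-760, 16120) (by decide +kernel)
              (CovZ.leaf K2_ok TE_l110 _)
              (CovZ.leaf K2_ok TE_l111 _)))
            (CovZ.n1 (-640, 16080) (by decide +kernel)
             (CovZ.leaf K2_ok TE_l112 _)
             (CovZ.leaf K2_ok TE_l113 _)))
           (CovZ.n1 (-720, 16240) (by decide +kernel)
            (CovZ.leaf K2_ok TE_l114 _)
            (CovZ.n1 (-720, 16160) (by decide +kernel)
             (CovZ.leaf K2_ok TE_l115 _)
             (CovZ.leaf K2_ok TE_l116 _)))))
         (CovZ.n1 (-800, 16480) (by decide +kernel)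
          (CovZ.n2 (-640, 16480) (by decide +kernel)
           (CovZ.n2 (-720, 16400) (by decide +kernel)
            (CovZ.leaf K2_ok TE_l117 _)
            (CovZ.leaf K2_ok TE_l118 _))
           (CovZ.leaf K2_ok TE_l119 _))
          (CovZ.n1 (-800, 16320) (by decide +kernel)
           (CovZ.n2 (-880, 16400) (by decide +kernel)
            (CovZ.n2 (-800, 16400) (by decide +kernel)
             (CovZ.leaf K2_ok TE_l120 _)
             (CovZ.leaf K2_ok TE_l121 _))
            (CovZ.n1 (-880, 16320) (by decide +kernel)
             (CovZ.n2 (-920, 16360) (by decide +kernel)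
              (CovZ.leaf K2_ok TE_l16973 _)
              (CovZ.badM (by decide +kernel)))
             (CovZ.n1 (-840, 16360) (by decide +kernel)
              (CovZ.leaf K2_ok TE_l122 _)
              (CovZ.leaf K2_ok TE_l16974 _))))
           (CovZ.n1 (-720, 16400) (by decide +kernel)
            (CovZ.leaf K2_ok TE_l123 _)
            (CovZ.n1 (-800, 16400) (by decide +kernel)
             (CovZ.leaf K2_ok TE_l124 _)
             (CovZ.leaf K2_ok TE_l125 _))))))))
      (CovZ.n1 (0, 16000) (by decide +kernel)
       (CovZ.n2 (-320, 15680) (by decide +kernel)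
        (CovZ.n2 (-320, 16000) (by decide +kernel)
         (CovZ.n2 (-160, 15840) (by decide +kernel)
          (CovZ.n2 (-320, 15840) (by decide +kernel)
           (CovZ.leaf K2_ok TE_l126 _)
           (CovZ.leaf K2_ok TE_l127 _))
          (CovZ.leaf K2_ok TE_l128 _))
         (CovZ.n1 (-480, 15840) (by decide +kernel)
          (CovZ.n2 (-480, 16000) (by decide +kernel)
           (CovZ.leaf K2_ok TE_l129 _)
           (CovZ.n1 (-560, 15920) (by decide +kernel)
            (CovZ.leaf K2_ok TE_l130 _)
            (CovZ.leaf K2_ok TE_l131 _)))
          (CovZ.n1 (-320, 15840) (by decide +kernel)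
           (CovZ.n2 (-400, 15760) (by decide +kernel)
            (CovZ.leaf K2_ok TE_l132 _)
            (CovZ.leaf K2_ok TE_l133 _))
           (CovZ.leaf K2_ok TE_l134 _))))
        (CovZ.n1 (0, 15680) (by decide +kernel)
         (CovZ.n2 (-160, 15520) (by decide +kernel)
          (CovZ.n2 (-160, 15680) (by decide +kernel)
           (CovZ.leaf K2_ok TE_l135 _)
           (CovZ.leaf K2_ok TE_l136 _))
          (CovZ.n1 (0, 15520) (by decide +kernel)
           (CovZ.leaf K2_ok TE_l137 _)
           (CovZ.leaf K2_ok TE_l138 _)))
         (CovZ.n1 (-160, 15840) (by decide +kernel)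
          (CovZ.leaf K2_ok TE_l139 _)
          (CovZ.n1 (-160, 15680) (by decide +kernel)
           (CovZ.leaf K2_ok TE_l140 _)
           (CovZ.leaf K2_ok TE_l141 _)))))
       (CovZ.n1 (-320, 16320) (by decide +kernel)
        (CovZ.n2 (0, 16320) (by decide +kernel)
         (CovZ.leaf K2_ok TE_l142 _)
         (CovZ.leaf K2_ok TE_l143 _))
        (CovZ.n1 (-320, 16000) (by decide +kernel)
         (CovZ.n2 (-480, 16160) (by decide +kernel)
          (CovZ.leaf K2_ok TE_l144 _)
          (CovZ.n1 (-480, 16000) (by decide +kernel)
           (CovZ.n2 (-560, 16080) (by decide +kernel)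
            (CovZ.leaf K2_ok TE_l145 _)
            (CovZ.n1 (-560, 16000) (by decide +kernel)
             (CovZ.leaf K2_ok TE_l146 _)
             (CovZ.leaf K2_ok TE_l147 _)))
           (CovZ.leaf K2_ok TE_l148 _)))
         (CovZ.n1 (-160, 16160) (by decide +kernel)
          (CovZ.leaf K2_ok TE_l149 _)
          (CovZ.leaf K2_ok TE_l150 _))))))

theorem TE_u1 : CovZ TE_M (toL (selN TE_LN 5708990770823920653871560845662952953731874816)) [0, 7, 6, 1] (0, 16640) (0, 17920) (-1280, 16640) :=
    (CovZ.n1 (-640, 17280) (by decide +kernel)
      (CovZ.n2 (0, 17280) (by decide +kernel)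
       (CovZ.n2 (-320, 16960) (by decide +kernel)
        (CovZ.n2 (-320, 17280) (by decide +kernel)
         (CovZ.leaf K2_ok TE_l151 _)
         (CovZ.leaf K2_ok TE_l152 _))
        (CovZ.leaf K2_ok TE_l153 _))
       (CovZ.n1 (-320, 17600) (by decide +kernel)
        (CovZ.leaf K2_ok TE_l154 _)
        (CovZ.n1 (-320, 17280) (by decide +kernel)
         (CovZ.leaf K2_ok TE_l155 _)
         (CovZ.leaf K2_ok TE_l156 _))))
      (CovZ.n1 (-640, 16640) (by decide +kernel)
       (CovZ.n2 (-960, 16960) (by decide +kernel)
        (CovZ.n2 (-640, 16960) (by decide +kernel)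
         (CovZ.n2 (-800, 16800) (by decide +kernel)
          (CovZ.n2 (-800, 16960) (by decide +kernel)
           (CovZ.leaf K2_ok TE_l157 _)
           (CovZ.leaf K2_ok TE_l158 _))
          (CovZ.leaf K2_ok TE_l159 _))
         (CovZ.n1 (-800, 17120) (by decide +kernel)
          (CovZ.leaf K2_ok TE_l160 _)
          (CovZ.n1 (-800, 16960) (by decide +kernel)
           (CovZ.leaf K2_ok TE_l161 _)
           (CovZ.leaf K2_ok TE_l162 _))))
        (CovZ.n1 (-960, 16640) (by decide +kernel)
         (CovZ.n2 (-1120, 16800) (by decide +kernel)
          (CovZ.n2 (-960, 16800) (by decide +kernel)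
           (CovZ.n2 (-1040, 16720) (by decide +kernel)
            (CovZ.n2 (-1040, 16800) (by decide +kernel)
             (CovZ.leaf K2_ok TE_l16975 _)
             (CovZ.n1 (-1080, 16760) (by decide +kernel)
              (CovZ.leaf K2_ok TE_l16976 _)
              (CovZ.leaf K2_ok TE_l16977 _)))
            (CovZ.n1 (-960, 16720) (by decide +kernel)
             (CovZ.leaf K2_ok TE_l16978 _)
             (CovZ.leaf K2_ok TE_l16979 _)))
           (CovZ.n1 (-1040, 16880) (by decide +kernel)
            (CovZ.leaf K2_ok TE_l163 _)
            (CovZ.n1 (-1040, 16800) (by decide +kernel)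
             (CovZ.leaf K2_ok TE_l16980 _)
             (CovZ.leaf K2_ok TE_l16981 _))))
          (CovZ.n1 (-1120, 16640) (by decide +kernel)
           (CovZ.badM (by decide +kernel))
           (CovZ.n1 (-1040, 16720) (by decide +kernel)
            (CovZ.n2 (-1040, 16640) (by decide +kernel)
             (CovZ.n2 (-1080, 16680) (by decide +kernel)
              (CovZ.leaf K2_ok TE_l16982 _)
              (CovZ.badM (by decide +kernel)))
             (CovZ.n1 (-1000, 16680) (by decide +kernel)
              (CovZ.leaf K2_ok TE_l16983 _)
              (CovZ.leaf K2_ok TE_l16984 _)))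
            (CovZ.n1 (-1120, 16720) (by decide +kernel)
             (CovZ.n2 (-1080, 16760) (by decide +kernel)
              (CovZ.leaf K2_ok TE_l16985 _)
              (CovZ.leaf K2_ok TE_l16986 _))
             (CovZ.n1 (-1080, 16680) (by decide +kernel)
              (CovZ.badM (by decide +kernel))
              (CovZ.leaf K2_ok TE_l16987 _))))))
         (CovZ.n1 (-800, 16800) (by decide +kernel)
          (CovZ.n2 (-800, 16640) (by decide +kernel)
           (CovZ.n2 (-880, 16720) (by decide +kernel)
            (CovZ.leaf K2_ok TE_l164 _)
            (CovZ.leaf K2_ok TE_l165 _))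
           (CovZ.leaf K2_ok TE_l166 _))
          (CovZ.n1 (-960, 16800) (by decide +kernel)
           (CovZ.n2 (-880, 16880) (by decide +kernel)
            (CovZ.leaf K2_ok TE_l167 _)
            (CovZ.leaf K2_ok TE_l168 _))
           (CovZ.n1 (-880, 16720) (by decide +kernel)
            (CovZ.n2 (-960, 16720) (by decide +kernel)
             (CovZ.leaf K2_ok TE_l169 _)
             (CovZ.leaf K2_ok TE_l170 _))
            (CovZ.leaf K2_ok TE_l171 _))))))
       (CovZ.n1 (-320, 16960) (by decide +kernel)
        (CovZ.n2 (-320, 16640) (by decide +kernel)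
         (CovZ.n2 (-480, 16800) (by decide +kernel)
          (CovZ.leaf K2_ok TE_l172 _)
          (CovZ.leaf K2_ok TE_l173 _))
         (CovZ.leaf K2_ok TE_l174 _))
        (CovZ.n1 (-640, 16960) (by decide +kernel)
         (CovZ.n2 (-480, 17120) (by decide +kernel)
          (CovZ.leaf K2_ok TE_l175 _)
          (CovZ.leaf K2_ok TE_l176 _))
         (CovZ.n1 (-480, 16800) (by decide +kernel)
          (CovZ.leaf K2_ok TE_l177 _)
          (CovZ.leaf K2_ok TE_l178 _))))))

theorem TE_u2 : CovZ TE_M (toL (selN TE_LN 81129638416967864937223832993792)) [0, 7, 6, 1] (0, 17920) (-1280, 17920) (-1280, 16640) :=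
    (CovZ.n2 (-640, 17280) (by decide +kernel)
      (CovZ.n2 (-1280, 17280) (by decide +kernel)
       (CovZ.n2 (-960, 17600) (by decide +kernel)
        (CovZ.n2 (-960, 17280) (by decide +kernel)
         (CovZ.n2 (-1120, 17440) (by decide +kernel)
          (CovZ.leaf K2_ok TE_l217 _)
          (CovZ.n1 (-1120, 17280) (by decide +kernel)
           (CovZ.n2 (-1200, 17360) (by decide +kernel)
            (CovZ.leaf K2_ok TE_l218 _)
            (CovZ.leaf K2_ok TE_l219 _))
           (CovZ.leaf K2_ok TE_l220 _)))
         (CovZ.n1 (-800, 17440) (by decide +kernel)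
          (CovZ.leaf K2_ok TE_l221 _)
          (CovZ.leaf K2_ok TE_l222 _)))
        (CovZ.n1 (-1280, 17600) (by decide +kernel)
         (CovZ.n2 (-1120, 17760) (by decide +kernel)
          (CovZ.n2 (-1120, 17600) (by decide +kernel)
           (CovZ.leaf K2_ok TE_l223 _)
           (CovZ.leaf K2_ok TE_l224 _))
          (CovZ.n1 (-1280, 17760) (by decide +kernel)
           (CovZ.leaf K2_ok TE_l225 _)
           (CovZ.leaf K2_ok TE_l226 _)))
         (CovZ.n1 (-1120, 17440) (by decide +kernel)
          (CovZ.n2 (-1280, 17440) (by decide +kernel)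
           (CovZ.n2 (-1200, 17520) (by decide +kernel)
            (CovZ.leaf K2_ok TE_l227 _)
            (CovZ.leaf K2_ok TE_l228 _))
           (CovZ.n1 (-1200, 17360) (by decide +kernel)
            (CovZ.leaf K2_ok TE_l229 _)
            (CovZ.leaf K2_ok TE_l230 _)))
          (CovZ.n1 (-1120, 17600) (by decide +kernel)
           (CovZ.leaf K2_ok TE_l231 _)
           (CovZ.leaf K2_ok TE_l232 _)))))
       (CovZ.n1 (-960, 16960) (by decide +kernel)
        (CovZ.n2 (-1280, 16960) (by decide +kernel)
         (CovZ.n2 (-1120, 17120) (by decide +kernel)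
          (CovZ.n2 (-1120, 16960) (by decide +kernel)
           (CovZ.n2 (-1200, 17040) (by decide +kernel)
            (CovZ.n2 (-1120, 17040) (by decide +kernel)
             (CovZ.leaf K2_ok TE_l16995 _)
             (CovZ.leaf K2_ok TE_l16996 _))
            (CovZ.n1 (-1200, 16960) (by decide +kernel)
             (CovZ.n2 (-1240, 17000) (by decide +kernel)
              (CovZ.leaf K2_ok TE_l16997 _)
              (CovZ.leaf K2_ok TE_l16998 _))
             (CovZ.leaf K2_ok TE_l16999 _)))
           (CovZ.n1 (-1040, 17040) (by decide +kernel)
            (CovZ.leaf K2_ok TE_l233 _)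
            (CovZ.n1 (-1120, 17040) (by decide +kernel)
             (CovZ.leaf K2_ok TE_l17000 _)
             (CovZ.leaf K2_ok TE_l17001 _))))
          (CovZ.n1 (-1280, 17120) (by decide +kernel)
           (CovZ.n2 (-1200, 17200) (by decide +kernel)
            (CovZ.n2 (-1200, 17120) (by decide +kernel)
             (CovZ.leaf K2_ok TE_l17002 _)
             (CovZ.leaf K2_ok TE_l17003 _))
            (CovZ.n1 (-1280, 17200) (by decide +kernel)
             (CovZ.leaf K2_ok TE_l17004 _)
             (CovZ.leaf K2_ok TE_l17005 _)))
           (CovZ.n1 (-1200, 17040) (by decide +kernel)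
            (CovZ.n2 (-1280, 17040) (by decide +kernel)
             (CovZ.n2 (-1240, 17080) (by decide +kernel)
              (CovZ.leaf K2_ok TE_l17006 _)
              (CovZ.leaf K2_ok TE_l17007 _))
             (CovZ.n1 (-1240, 17000) (by decide +kernel)
              (CovZ.badM (by decide +kernel))
              (CovZ.leaf K2_ok TE_l17008 _)))
            (CovZ.n1 (-1200, 17120) (by decide +kernel)
             (CovZ.leaf K2_ok TE_l17009 _)
             (CovZ.leaf K2_ok TE_l17010 _)))))
         (CovZ.n1 (-1120, 16800) (by decide +kernel)
          (CovZ.badM (by decide +kernel))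
          (CovZ.n1 (-1120, 16960) (by decide +kernel)
           (CovZ.n2 (-1040, 16880) (by decide +kernel)
            (CovZ.n2 (-1120, 16880) (by decide +kernel)
             (CovZ.leaf K2_ok TE_l17011 _)
             (CovZ.leaf K2_ok TE_l17012 _))
            (CovZ.leaf K2_ok TE_l234 _))
           (CovZ.n1 (-1200, 16880) (by decide +kernel)
            (CovZ.n2 (-1200, 16960) (by decide +kernel)
             (CovZ.n2 (-1160, 16920) (by decide +kernel)
              (CovZ.leaf K2_ok TE_l17013 _)
              (CovZ.leaf K2_ok TE_l17014 _))
             (CovZ.n1 (-1240, 16920) (by decide +kernel)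
              (CovZ.leaf K2_ok TE_l17015 _)
              (CovZ.leaf K2_ok TE_l17016 _)))
            (CovZ.n1 (-1120, 16880) (by decide +kernel)
             (CovZ.n2 (-1160, 16840) (by decide +kernel)
              (CovZ.leaf K2_ok TE_l17017 _)
              (CovZ.leaf K2_ok TE_l17018 _))
             (CovZ.n1 (-1160, 16920) (by decide +kernel)
              (CovZ.leaf K2_ok TE_l17019 _)
              (CovZ.leaf K2_ok TE_l17020 _)))))))
        (CovZ.n1 (-960, 17280) (by decide +kernel)
         (CovZ.n2 (-800, 17120) (by decide +kernel)
          (CovZ.n2 (-960, 17120) (by decide +kernel)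
           (CovZ.leaf K2_ok TE_l235 _)
           (CovZ.leaf K2_ok TE_l236 _))
          (CovZ.leaf K2_ok TE_l237 _))
         (CovZ.n1 (-1120, 17120) (by decide +kernel)
          (CovZ.n2 (-1120, 17280) (by decide +kernel)
           (CovZ.leaf K2_ok TE_l238 _)
           (CovZ.n1 (-1200, 17200) (by decide +kernel)
            (CovZ.leaf K2_ok TE_l239 _)
            (CovZ.leaf K2_ok TE_l240 _)))
          (CovZ.n1 (-960, 17120) (by decide +kernel)
           (CovZ.n2 (-1040, 17040) (by decide +kernel)
            (CovZ.leaf K2_ok TE_l241 _)
            (CovZ.leaf K2_ok TE_l242 _))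
           (CovZ.leaf K2_ok TE_l243 _))))))
      (CovZ.n1 (-640, 17920) (by decide +kernel)
       (CovZ.n2 (-320, 17600) (by decide +kernel)
        (CovZ.n2 (-640, 17600) (by decide +kernel)
         (CovZ.leaf K2_ok TE_l244 _)
         (CovZ.leaf K2_ok TE_l245 _))
        (CovZ.leaf K2_ok TE_l246 _))
       (CovZ.n1 (-960, 17600) (by decide +kernel)
        (CovZ.n2 (-960, 17920) (by decide +kernel)
         (CovZ.leaf K2_ok TE_l247 _)
         (CovZ.n1 (-1120, 17760) (by decide +kernel)
          (CovZ.leaf K2_ok TE_l248 _)
          (CovZ.leaf K2_ok TE_l249 _)))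
        (CovZ.n1 (-640, 17600) (by decide +kernel)
         (CovZ.n2 (-800, 17440) (by decide +kernel)
          (CovZ.leaf K2_ok TE_l250 _)
          (CovZ.leaf K2_ok TE_l251 _))
         (CovZ.leaf K2_ok TE_l252 _)))))

theorem TE_u3 : CovZ TE_M (toL (selN TE_LN 81129638416967864937223832993792)) [0, 7, 6, 1] (-1280, 17920) (-2560, 17920) (-1280, 16640) :=
    (CovZ.n1 (-1920, 17280) (by decide +kernel)
      (CovZ.n2 (-1920, 17920) (by decide +kernel)
       (CovZ.n2 (-1600, 17600) (by decide +kernel)
        (CovZ.badM (by decide +kernel))
        (CovZ.n1 (-1600, 17920) (by decide +kernel)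
         (CovZ.n2 (-1440, 17760) (by decide +kernel)
          (CovZ.n2 (-1600, 17760) (by decide +kernel)
           (CovZ.n2 (-1520, 17840) (by decide +kernel)
            (CovZ.n2 (-1520, 17760) (by decide +kernel)
             (CovZ.leaf K2_ok TE_l253 _)
             (CovZ.leaf K2_ok TE_l254 _))
            (CovZ.n1 (-1600, 17840) (by decide +kernel)
             (CovZ.leaf K2_ok TE_l255 _)
             (CovZ.leaf K2_ok TE_l256 _)))
           (CovZ.n1 (-1520, 17680) (by decide +kernel)
            (CovZ.n2 (-1600, 17680) (by decide +kernel)
             (CovZ.leaf K2_ok TE_l17021 _)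
             (CovZ.n1 (-1560, 17640) (by decide +kernel)
              (CovZ.leaf K2_ok TE_l17022 _)
              (CovZ.leaf K2_ok TE_l17023 _)))
            (CovZ.n1 (-1520, 17760) (by decide +kernel)
             (CovZ.leaf K2_ok TE_l257 _)
             (CovZ.leaf K2_ok TE_l17024 _))))
          (CovZ.n1 (-1440, 17920) (by decide +kernel)
           (CovZ.leaf K2_ok TE_l258 _)
           (CovZ.n1 (-1520, 17840) (by decide +kernel)
            (CovZ.leaf K2_ok TE_l259 _)
            (CovZ.leaf K2_ok TE_l260 _))))
         (CovZ.n1 (-1760, 17760) (by decide +kernel)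
          (CovZ.n2 (-1760, 17920) (by decide +kernel)
           (CovZ.n2 (-1680, 17840) (by decide +kernel)
            (CovZ.badM (by decide +kernel))
            (CovZ.n1 (-1680, 17920) (by decide +kernel)
             (CovZ.leaf K2_ok TE_l17025 _)
             (CovZ.n1 (-1720, 17880) (by decide +kernel)
              (CovZ.leaf K2_ok TE_l17026 _)
              (CovZ.leaf K2_ok TE_l17027 _))))
           (CovZ.badM (by decide +kernel)))
          (CovZ.n1 (-1600, 17760) (by decide +kernel)
           (CovZ.n2 (-1680, 17680) (by decide +kernel)
            (CovZ.n2 (-1680, 17760) (by decide +kernel)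
             (CovZ.n2 (-1640, 17720) (by decide +kernel)
              (CovZ.badM (by decide +kernel))
              (CovZ.leaf K2_ok TE_l17028 _))
             (CovZ.badM (by decide +kernel)))
            (CovZ.n1 (-1600, 17680) (by decide +kernel)
             (CovZ.badM (by decide +kernel))
             (CovZ.n1 (-1640, 17720) (by decide +kernel)
              (CovZ.leaf K2_ok TE_l17029 _)
              (CovZ.badM (by decide +kernel)))))
           (CovZ.n1 (-1680, 17840) (by decide +kernel)
            (CovZ.n2 (-1600, 17840) (by decide +kernel)
             (CovZ.leaf K2_ok TE_l17030 _)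
             (CovZ.leaf K2_ok TE_l17031 _))
            (CovZ.n1 (-1680, 17760) (by decide +kernel)
             (CovZ.badM (by decide +kernel))
             (CovZ.n1 (-1640, 17800) (by decide +kernel)
              (CovZ.leaf K2_ok TE_l17032 _)
              (CovZ.leaf K2_ok TE_l17033 _))))))))
       (CovZ.badM (by decide +kernel)))
      (CovZ.n1 (-1280, 17280) (by decide +kernel)
       (CovZ.n2 (-1600, 16960) (by decide +kernel)
        (CovZ.n2 (-1600, 17280) (by decide +kernel)
         (CovZ.n2 (-1440, 17120) (by decide +kernel)
          (CovZ.badM (by decide +kernel))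
          (CovZ.n1 (-1440, 17280) (by decide +kernel)
           (CovZ.n2 (-1360, 17200) (by decide +kernel)
            (CovZ.badM (by decide +kernel))
            (CovZ.n1 (-1360, 17280) (by decide +kernel)
             (CovZ.leaf K2_ok TE_l17034 _)
             (CovZ.n1 (-1400, 17240) (by decide +kernel)
              (CovZ.leaf K2_ok TE_l17035 _)
              (CovZ.leaf K2_ok TE_l17036 _))))
           (CovZ.badM (by decide +kernel))))
         (CovZ.n1 (-1760, 17120) (by decide +kernel)
          (CovZ.badM (by decide +kernel))
          (CovZ.badM (by decide +kernel))))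
        (CovZ.n1 (-1280, 16960) (by decide +kernel)
         (CovZ.badM (by decide +kernel))
         (CovZ.n1 (-1440, 17120) (by decide +kernel)
          (CovZ.n2 (-1280, 17120) (by decide +kernel)
           (CovZ.n2 (-1360, 17040) (by decide +kernel)
            (CovZ.n2 (-1360, 17120) (by decide +kernel)
             (CovZ.n2 (-1320, 17080) (by decide +kernel)
              (CovZ.badM (by decide +kernel))
              (CovZ.leaf K2_ok TE_l17037 _))
             (CovZ.badM (by decide +kernel)))
            (CovZ.n1 (-1280, 17040) (by decide +kernel)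
             (CovZ.badM (by decide +kernel))
             (CovZ.n1 (-1320, 17080) (by decide +kernel)
              (CovZ.leaf K2_ok TE_l17038 _)
              (CovZ.badM (by decide +kernel)))))
           (CovZ.n1 (-1360, 17200) (by decide +kernel)
            (CovZ.n2 (-1280, 17200) (by decide +kernel)
             (CovZ.n2 (-1320, 17160) (by decide +kernel)
              (CovZ.leaf K2_ok TE_l17039 _)
              (CovZ.leaf K2_ok TE_l17040 _))
             (CovZ.leaf K2_ok TE_l17041 _))
            (CovZ.n1 (-1360, 17120) (by decide +kernel)
             (CovZ.badM (by decide +kernel))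
             (CovZ.n1 (-1320, 17160) (by decide +kernel)
              (CovZ.leaf K2_ok TE_l17042 _)
              (CovZ.badM (by decide +kernel))))))
          (CovZ.badM (by decide +kernel)))))
       (CovZ.n1 (-1600, 17600) (by decide +kernel)
        (CovZ.n2 (-1280, 17600) (by decide +kernel)
         (CovZ.n2 (-1440, 17440) (by decide +kernel)
          (CovZ.n2 (-1440, 17600) (by decide +kernel)
           (CovZ.n2 (-1360, 17520) (by decide +kernel)
            (CovZ.n2 (-1440, 17520) (by decide +kernel)
             (CovZ.leaf K2_ok TE_l261 _)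
             (CovZ.leaf K2_ok TE_l262 _))
            (CovZ.leaf K2_ok TE_l263 _))
           (CovZ.n1 (-1520, 17520) (by decide +kernel)
            (CovZ.n2 (-1520, 17600) (by decide +kernel)
             (CovZ.leaf K2_ok TE_l264 _)
             (CovZ.n1 (-1560, 17560) (by decide +kernel)
              (CovZ.leaf K2_ok TE_l17043 _)
              (CovZ.leaf K2_ok TE_l17044 _)))
            (CovZ.n1 (-1440, 17520) (by decide +kernel)
             (CovZ.n2 (-1480, 17480) (by decide +kernel)
              (CovZ.leaf K2_ok TE_l265 _)
              (CovZ.leaf K2_ok TE_l266 _))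
             (CovZ.leaf K2_ok TE_l267 _))))
          (CovZ.n1 (-1280, 17440) (by decide +kernel)
           (CovZ.n2 (-1360, 17360) (by decide +kernel)
            (CovZ.n2 (-1360, 17440) (by decide +kernel)
             (CovZ.leaf K2_ok TE_l268 _)
             (CovZ.leaf K2_ok TE_l269 _))
            (CovZ.n1 (-1280, 17360) (by decide +kernel)
             (CovZ.leaf K2_ok TE_l270 _)
             (CovZ.leaf K2_ok TE_l271 _)))
           (CovZ.n1 (-1360, 17520) (by decide +kernel)
            (CovZ.leaf K2_ok TE_l272 _)
            (CovZ.n1 (-1360, 17440) (by decide +kernel)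
             (CovZ.leaf K2_ok TE_l273 _)
             (CovZ.leaf K2_ok TE_l274 _)))))
         (CovZ.n1 (-1440, 17760) (by decide +kernel)
          (CovZ.n2 (-1280, 17760) (by decide +kernel)
           (CovZ.leaf K2_ok TE_l275 _)
           (CovZ.leaf K2_ok TE_l276 _))
          (CovZ.n1 (-1440, 17600) (by decide +kernel)
           (CovZ.n2 (-1520, 17680) (by decide +kernel)
            (CovZ.leaf K2_ok TE_l277 _)
            (CovZ.n1 (-1520, 17600) (by decide +kernel)
             (CovZ.n2 (-1560, 17640) (by decide +kernel)
              (CovZ.leaf K2_ok TE_l17045 _)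
              (CovZ.leaf K2_ok TE_l17046 _))
             (CovZ.leaf K2_ok TE_l278 _)))
           (CovZ.n1 (-1360, 17680) (by decide +kernel)
            (CovZ.leaf K2_ok TE_l279 _)
            (CovZ.leaf K2_ok TE_l280 _)))))
        (CovZ.n1 (-1600, 17280) (by decide +kernel)
         (CovZ.badM (by decide +kernel))
         (CovZ.n1 (-1440, 17440) (by decide +kernel)
          (CovZ.n2 (-1440, 17280) (by decide +kernel)
           (CovZ.n2 (-1520, 17360) (by decide +kernel)
            (CovZ.n2 (-1440, 17360) (by decide +kernel)
             (CovZ.badM (by decide +kernel))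
             (CovZ.n1 (-1480, 17400) (by decide +kernel)
              (CovZ.leaf K2_ok TE_l281 _)
              (CovZ.badM (by decide +kernel))))
            (CovZ.badM (by decide +kernel)))
           (CovZ.n1 (-1360, 17360) (by decide +kernel)
            (CovZ.n2 (-1360, 17280) (by decide +kernel)
             (CovZ.n2 (-1400, 17320) (by decide +kernel)
              (CovZ.leaf K2_ok TE_l282 _)
              (CovZ.leaf K2_ok TE_l283 _))
             (CovZ.leaf K2_ok TE_l284 _))
            (CovZ.n1 (-1440, 17360) (by decide +kernel)
             (CovZ.n2 (-1400, 17400) (by decide +kernel)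
              (CovZ.leaf K2_ok TE_l285 _)
              (CovZ.leaf K2_ok TE_l286 _))
             (CovZ.n1 (-1400, 17320) (by decide +kernel)
              (CovZ.badM (by decide +kernel))
              (CovZ.leaf K2_ok TE_l288 _)))))
          (CovZ.n1 (-1600, 17440) (by decide +kernel)
           (CovZ.n2 (-1520, 17520) (by decide +kernel)
            (CovZ.n2 (-1520, 17440) (by decide +kernel)
             (CovZ.badM (by decide +kernel))
             (CovZ.n1 (-1480, 17480) (by decide +kernel)
              (CovZ.leaf K2_ok TE_l289 _)
              (CovZ.leaf K2_ok TE_l17047 _)))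
            (CovZ.badM (by decide +kernel)))
           (CovZ.n1 (-1520, 17360) (by decide +kernel)
            (CovZ.n2 (-1600, 17360) (by decide +kernel)
             (CovZ.n2 (-1560, 17400) (by decide +kernel)
              (CovZ.badM (by decide +kernel))
              (CovZ.badM (by decide +kernel)))
             (CovZ.badM (by decide +kernel)))
            (CovZ.n1 (-1520, 17440) (by decide +kernel)
             (CovZ.n2 (-1480, 17400) (by decide +kernel)
              (CovZ.badM (by decide +kernel))
              (CovZ.leaf K2_ok TE_l290 _))
             (CovZ.n1 (-1560, 17400) (by decide +kernel)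
              (CovZ.badM (by decide +kernel))
              (CovZ.badM (by decide +kernel)))))))))))

theorem TE_u4 : CovZ TE_M (toL (selN TE_LN 374144419156711147141272955592336317969146888323072)) [0, 7, 6, 1] (2560, 17920) (1920, 17280) (2560, 16640) :=
    (CovZ.n2 (2560, 17280) (by decide +kernel)
       (CovZ.n2 (2240, 16960) (by decide +kernel)
        (CovZ.n2 (2240, 17280) (by decide +kernel)
         (CovZ.subM 2361183241434856161280 (by decide +kernel)
          (CovZ.n2 (2400, 17120) (by decide +kernel)
           (CovZ.n2 (2240, 17120) (by decide +kernel)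
            (CovZ.n2 (2320, 17200) (by decide +kernel)
             (CovZ.leaf K2_ok TE_l2338 _)
             (CovZ.leaf K2_ok TE_l2339 _))
            (CovZ.n1 (2320, 17040) (by decide +kernel)
             (CovZ.n2 (2240, 17040) (by decide +kernel)
              (CovZ.leaf K2_ok TE_l2340 _)
              (CovZ.leaf K2_ok TE_l2341 _))
             (CovZ.n1 (2320, 17120) (by decide +kernel)
              (CovZ.leaf K2_ok TE_l2342 _)
              (CovZ.leaf K2_ok TE_l2343 _))))
           (CovZ.n1 (2400, 17280) (by decide +kernel)
            (CovZ.n2 (2480, 17200) (by decide +kernel)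
             (CovZ.n2 (2400, 17200) (by decide +kernel)
              (CovZ.leaf K2_ok TE_l2344 _)
              (CovZ.leaf K2_ok TE_l2345 _))
             (CovZ.leaf K2_ok TE_l2346 _))
            (CovZ.n1 (2320, 17200) (by decide +kernel)
             (CovZ.leaf K2_ok TE_l2347 _)
             (CovZ.n1 (2400, 17200) (by decide +kernel)
              (CovZ.leaf K2_ok TE_l2348 _)
              (CovZ.leaf K2_ok TE_l2349 _))))))
         (CovZ.subM 81129638416967864937223828799488 (by decide +kernel)
          (CovZ.n1 (2080, 17120) (by decide +kernel)
           (CovZ.n2 (2080, 17280) (by decide +kernel)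
            (CovZ.leaf K2_ok TE_l2350 _)
            (CovZ.n1 (2000, 17200) (by decide +kernel)
             (CovZ.leaf K2_ok TE_l2351 _)
             (CovZ.leaf K2_ok TE_l2352 _)))
           (CovZ.n1 (2240, 17120) (by decide +kernel)
            (CovZ.n2 (2160, 17040) (by decide +kernel)
             (CovZ.leaf K2_ok TE_l2353 _)
             (CovZ.n1 (2240, 17040) (by decide +kernel)
              (CovZ.leaf K2_ok TE_l2354 _)
              (CovZ.leaf K2_ok TE_l2355 _)))
            (CovZ.leaf K2_ok TE_l2356 _)))))
        (CovZ.subM 2361183241439151128576 (by decide +kernel)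
         (CovZ.n1 (2560, 16960) (by decide +kernel)
          (CovZ.n2 (2400, 16800) (by decide +kernel)
           (CovZ.n2 (2400, 16960) (by decide +kernel)
            (CovZ.badM (by decide +kernel))
            (CovZ.n1 (2320, 16880) (by decide +kernel)
             (CovZ.n2 (2320, 16960) (by decide +kernel)
              (CovZ.n2 (2360, 16920) (by decide +kernel)
               (CovZ.leaf K2_ok TE_l2357 _)
               (CovZ.leaf K2_ok TE_l2358 _))
              (CovZ.n1 (2280, 16920) (by decide +kernel)
               (CovZ.leaf K2_ok TE_l2359 _)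
               (CovZ.leaf K2_ok TE_l2360 _)))
             (CovZ.badM (by decide +kernel))))
           (CovZ.badM (by decide +kernel)))
          (CovZ.n1 (2400, 17120) (by decide +kernel)
           (CovZ.n2 (2560, 17120) (by decide +kernel)
            (CovZ.n2 (2480, 17040) (by decide +kernel)
             (CovZ.n2 (2480, 17120) (by decide +kernel)
              (CovZ.n2 (2520, 17080) (by decide +kernel)
               (CovZ.leaf K2_ok TE_l2361 _)
               (CovZ.leaf K2_ok TE_l2362 _))
              (CovZ.n1 (2440, 17080) (by decide +kernel)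
               (CovZ.leaf K2_ok TE_l2363 _)
               (CovZ.leaf K2_ok TE_l2364 _)))
             (CovZ.badM (by decide +kernel)))
            (CovZ.n1 (2480, 17200) (by decide +kernel)
             (CovZ.n2 (2560, 17200) (by decide +kernel)
              (CovZ.n2 (2520, 17160) (by decide +kernel)
               (CovZ.leaf K2_ok TE_l2365 _)
               (CovZ.leaf K2_ok TE_l2366 _))
              (CovZ.leaf K2_ok TE_l2367 _))
             (CovZ.n1 (2480, 17120) (by decide +kernel)
              (CovZ.leaf K2_ok TE_l2368 _)
              (CovZ.n1 (2520, 17160) (by decide +kernel)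
               (CovZ.leaf K2_ok TE_l2369 _)
               (CovZ.leaf K2_ok TE_l2370 _)))))
           (CovZ.n1 (2400, 16960) (by decide +kernel)
            (CovZ.n2 (2320, 17040) (by decide +kernel)
             (CovZ.n2 (2400, 17040) (by decide +kernel)
              (CovZ.n2 (2360, 17000) (by decide +kernel)
               (CovZ.leaf K2_ok TE_l2371 _)
               (CovZ.leaf K2_ok TE_l2372 _))
              (CovZ.leaf K2_ok TE_l2373 _))
             (CovZ.n1 (2320, 16960) (by decide +kernel)
              (CovZ.leaf K2_ok TE_l2374 _)
              (CovZ.n1 (2360, 17000) (by decide +kernel)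
               (CovZ.leaf K2_ok TE_l2375 _)
               (CovZ.leaf K2_ok TE_l2376 _))))
            (CovZ.n1 (2480, 17040) (by decide +kernel)
             (CovZ.badM (by decide +kernel))
             (CovZ.n1 (2400, 17040) (by decide +kernel)
              (CovZ.leaf K2_ok TE_l2377 _)
              (CovZ.n1 (2440, 17000) (by decide +kernel)
               (CovZ.leaf K2_ok TE_l2378 _)
               (CovZ.leaf K2_ok TE_l2379 _)))))))))
       (CovZ.n1 (2240, 17600) (by decide +kernel)
        (CovZ.subM 81129638416967864937223861305344 (by decide +kernel)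
         (CovZ.n2 (2560, 17600) (by decide +kernel)
          (CovZ.n2 (2400, 17440) (by decide +kernel)
           (CovZ.n2 (2400, 17600) (by decide +kernel)
            (CovZ.leaf K2_ok TE_l2380 _)
            (CovZ.n1 (2320, 17520) (by decide +kernel)
             (CovZ.leaf K2_ok TE_l2381 _)
             (CovZ.leaf K2_ok TE_l2382 _)))
           (CovZ.n1 (2560, 17440) (by decide +kernel)
            (CovZ.n2 (2480, 17360) (by decide +kernel)
             (CovZ.leaf K2_ok TE_l2383 _)
             (CovZ.n1 (2560, 17360) (by decide +kernel)
              (CovZ.leaf K2_ok TE_l2384 _)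
              (CovZ.leaf K2_ok TE_l2385 _)))
            (CovZ.leaf K2_ok TE_l2386 _)))
          (CovZ.n1 (2400, 17760) (by decide +kernel)
           (CovZ.n2 (2560, 17760) (by decide +kernel)
            (CovZ.n2 (2480, 17680) (by decide +kernel)
             (CovZ.leaf K2_ok TE_l2387 _)
             (CovZ.leaf K2_ok TE_l2388 _))
            (CovZ.leaf K2_ok TE_l2389 _))
           (CovZ.leaf K2_ok TE_l2390 _))))
        (CovZ.n1 (2240, 17280) (by decide +kernel)
         (CovZ.subM 81129638416967864937223828799488 (by decide +kernel)
          (CovZ.n2 (2080, 17440) (by decide +kernel)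
           (CovZ.n2 (2240, 17440) (by decide +kernel)
            (CovZ.n2 (2160, 17360) (by decide +kernel)
             (CovZ.leaf K2_ok TE_l2391 _)
             (CovZ.leaf K2_ok TE_l2392 _))
            (CovZ.leaf K2_ok TE_l2393 _))
           (CovZ.leaf K2_ok TE_l2394 _)))
         (CovZ.subM 81129638416967864937223861305344 (by decide +kernel)
          (CovZ.n1 (2400, 17440) (by decide +kernel)
           (CovZ.n2 (2400, 17280) (by decide +kernel)
            (CovZ.leaf K2_ok TE_l2395 _)
            (CovZ.n1 (2480, 17360) (by decide +kernel)
             (CovZ.leaf K2_ok TE_l2396 _)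
             (CovZ.leaf K2_ok TE_l2397 _)))
           (CovZ.n1 (2240, 17440) (by decide +kernel)
            (CovZ.leaf K2_ok TE_l2398 _)
            (CovZ.leaf K2_ok TE_l2399 _)))))))

theorem TE_u5 : CovZ TE_M (toL (selN TE_LN 374144419156711147141272955592336317969146888323072)) [0, 7, 6, 1] (1920, 17280) (1280, 16640) (2560, 16640) :=
    (CovZ.n1 (1920, 16640) (by decide +kernel)
       (CovZ.n2 (1600, 16960) (by decide +kernel)
        (CovZ.n2 (1920, 16960) (by decide +kernel)
         (CovZ.n2 (1760, 16800) (by decide +kernel)
          (CovZ.n2 (1760, 16960) (by decide +kernel)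
           (CovZ.leaf K2_ok TE_l2400 _)
           (CovZ.n1 (1680, 16880) (by decide +kernel)
            (CovZ.leaf K2_ok TE_l2401 _)
            (CovZ.leaf K2_ok TE_l2402 _)))
          (CovZ.subM 2361183241434823655424 (by decide +kernel)
           (CovZ.n1 (1920, 16800) (by decide +kernel)
            (CovZ.n2 (1840, 16720) (by decide +kernel)
             (CovZ.leaf K2_ok TE_l2403 _)
             (CovZ.n1 (1920, 16720) (by decide +kernel)
              (CovZ.leaf K2_ok TE_l2404 _)
              (CovZ.leaf K2_ok TE_l2405 _)))
            (CovZ.leaf K2_ok TE_l2406 _))))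
         (CovZ.n1 (1760, 17120) (by decide +kernel)
          (CovZ.n2 (1920, 17120) (by decide +kernel)
           (CovZ.n2 (1840, 17040) (by decide +kernel)
            (CovZ.leaf K2_ok TE_l2407 _)
            (CovZ.leaf K2_ok TE_l2408 _))
           (CovZ.leaf K2_ok TE_l2409 _))
          (CovZ.leaf K2_ok TE_l2410 _)))
        (CovZ.n1 (1600, 16640) (by decide +kernel)
         (CovZ.subM 81129638416967864937223828799488 (by decide +kernel)
          (CovZ.n2 (1440, 16800) (by decide +kernel)
           (CovZ.n2 (1600, 16800) (by decide +kernel)
            (CovZ.n2 (1520, 16720) (by decide +kernel)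
             (CovZ.leaf K2_ok TE_l2411 _)
             (CovZ.leaf K2_ok TE_l2412 _))
            (CovZ.leaf K2_ok TE_l2413 _))
           (CovZ.leaf K2_ok TE_l2414 _)))
         (CovZ.n1 (1760, 16800) (by decide +kernel)
          (CovZ.n2 (1760, 16640) (by decide +kernel)
           (CovZ.leaf K2_ok TE_l2415 _)
           (CovZ.n1 (1840, 16720) (by decide +kernel)
            (CovZ.leaf K2_ok TE_l2416 _)
            (CovZ.leaf K2_ok TE_l2417 _)))
          (CovZ.n1 (1600, 16800) (by decide +kernel)
           (CovZ.leaf K2_ok TE_l2418 _)
           (CovZ.leaf K2_ok TE_l2419 _)))))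
       (CovZ.n1 (2240, 16960) (by decide +kernel)
        (CovZ.n2 (2240, 16640) (by decide +kernel)
         (CovZ.subM 2361183241434823655424 (by decide +kernel)
          (CovZ.n2 (2080, 16800) (by decide +kernel)
           (CovZ.n2 (2240, 16800) (by decide +kernel)
            (CovZ.n2 (2160, 16720) (by decide +kernel)
             (CovZ.n2 (2160, 16800) (by decide +kernel)
              (CovZ.n2 (2200, 16760) (by decide +kernel)
               (CovZ.leaf K2_ok TE_l2420 _)
               (CovZ.leaf K2_ok TE_l2421 _))
              (CovZ.n1 (2120, 16760) (by decide +kernel)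
               (CovZ.leaf K2_ok TE_l2422 _)
               (CovZ.leaf K2_ok TE_l2423 _)))
             (CovZ.badM (by decide +kernel)))
            (CovZ.n1 (2160, 16880) (by decide +kernel)
             (CovZ.n2 (2240, 16880) (by decide +kernel)
              (CovZ.n2 (2200, 16840) (by decide +kernel)
               (CovZ.leaf K2_ok TE_l2424 _)
               (CovZ.leaf K2_ok TE_l2425 _))
              (CovZ.leaf K2_ok TE_l2426 _))
             (CovZ.n1 (2160, 16800) (by decide +kernel)
              (CovZ.leaf K2_ok TE_l2427 _)
              (CovZ.n1 (2200, 16840) (by decide +kernel)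
               (CovZ.leaf K2_ok TE_l2428 _)
               (CovZ.leaf K2_ok TE_l2429 _)))))
           (CovZ.n1 (2080, 16640) (by decide +kernel)
            (CovZ.n2 (2000, 16720) (by decide +kernel)
             (CovZ.n2 (2080, 16720) (by decide +kernel)
              (CovZ.n2 (2040, 16680) (by decide +kernel)
               (CovZ.leaf K2_ok TE_l2430 _)
               (CovZ.leaf K2_ok TE_l2431 _))
              (CovZ.leaf K2_ok TE_l2432 _))
             (CovZ.n1 (2000, 16640) (by decide +kernel)
              (CovZ.leaf K2_ok TE_l2433 _)
              (CovZ.n1 (2040, 16680) (by decide +kernel)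
               (CovZ.leaf K2_ok TE_l2434 _)
               (CovZ.leaf K2_ok TE_l2435 _))))
            (CovZ.n1 (2160, 16720) (by decide +kernel)
             (CovZ.n2 (2160, 16640) (by decide +kernel)
              (CovZ.n2 (2120, 16680) (by decide +kernel)
               (CovZ.badM (by decide +kernel))
               (CovZ.leaf K2_ok TE_l17143 _))
              (CovZ.badM (by decide +kernel)))
             (CovZ.n1 (2080, 16720) (by decide +kernel)
              (CovZ.n2 (2120, 16760) (by decide +kernel)
               (CovZ.leaf K2_ok TE_l2436 _)
               (CovZ.leaf K2_ok TE_l2437 _))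
              (CovZ.n1 (2120, 16680) (by decide +kernel)
               (CovZ.leaf K2_ok TE_l2438 _)
               (CovZ.leaf K2_ok TE_l2439 _)))))))
         (CovZ.subM 2361183241439151128576 (by decide +kernel)
          (CovZ.n1 (2400, 16800) (by decide +kernel)
           (CovZ.badM (by decide +kernel))
           (CovZ.n1 (2240, 16800) (by decide +kernel)
            (CovZ.n2 (2320, 16880) (by decide +kernel)
             (CovZ.badM (by decide +kernel))
             (CovZ.n1 (2240, 16880) (by decide +kernel)
              (CovZ.n2 (2280, 16920) (by decide +kernel)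
               (CovZ.leaf K2_ok TE_l2440 _)
               (CovZ.leaf K2_ok TE_l2441 _))
              (CovZ.n1 (2280, 16840) (by decide +kernel)
               (CovZ.leaf K2_ok TE_l2442 _)
               (CovZ.leaf K2_ok TE_l2443 _))))
            (CovZ.badM (by decide +kernel))))))
        (CovZ.subM 81129638416967864937223828799488 (by decide +kernel)
         (CovZ.n1 (1920, 16960) (by decide +kernel)
          (CovZ.n2 (2080, 17120) (by decide +kernel)
           (CovZ.n2 (2080, 16960) (by decide +kernel)
            (CovZ.leaf K2_ok TE_l2444 _)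
            (CovZ.n1 (2160, 17040) (by decide +kernel)
             (CovZ.leaf K2_ok TE_l2445 _)
             (CovZ.leaf K2_ok TE_l2446 _)))
           (CovZ.n1 (1920, 17120) (by decide +kernel)
            (CovZ.leaf K2_ok TE_l2447 _)
            (CovZ.leaf K2_ok TE_l2448 _)))
          (CovZ.n1 (2080, 16800) (by decide +kernel)
           (CovZ.n2 (1920, 16800) (by decide +kernel)
            (CovZ.n2 (2000, 16880) (by decide +kernel)
             (CovZ.leaf K2_ok TE_l2449 _)
             (CovZ.leaf K2_ok TE_l2450 _))
            (CovZ.n1 (2000, 16720) (by decide +kernel)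
             (CovZ.n2 (1920, 16720) (by decide +kernel)
              (CovZ.leaf K2_ok TE_l2451 _)
              (CovZ.leaf K2_ok TE_l2452 _))
             (CovZ.leaf K2_ok TE_l2453 _)))
           (CovZ.n1 (2080, 16960) (by decide +kernel)
            (CovZ.n2 (2160, 16880) (by decide +kernel)
             (CovZ.n2 (2080, 16880) (by decide +kernel)
              (CovZ.leaf K2_ok TE_l2454 _)
              (CovZ.leaf K2_ok TE_l2455 _))
             (CovZ.leaf K2_ok TE_l2456 _))
            (CovZ.n1 (2000, 16880) (by decide +kernel)
             (CovZ.leaf K2_ok TE_l2457 _)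
             (CovZ.n1 (2080, 16880) (by decide +kernel)
              (CovZ.leaf K2_ok TE_l2458 _)
              (CovZ.leaf K2_ok TE_l2459 _)))))))))

theorem TE_u6 : CovZ TE_M (toL (selN TE_LN 374144419156711147141272955592336317969146888323072)) [0, 7, 6, 1] (0, 15360) (1280, 15360) (1280, 16640) :=
    (CovZ.subM 81129638416967864937223827750912 (by decide +kernel)
      (CovZ.n2 (640, 16000) (by decide +kernel)
       (CovZ.n2 (1280, 16000) (by decide +kernel)
        (CovZ.n2 (960, 15680) (by decide +kernel)
         (CovZ.n2 (960, 16000) (by decide +kernel)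
          (CovZ.n2 (1120, 15840) (by decide +kernel)
           (CovZ.n2 (960, 15840) (by decide +kernel)
            (CovZ.n2 (1040, 15920) (by decide +kernel)
             (CovZ.leaf K2_ok TE_l2460 _)
             (CovZ.leaf K2_ok TE_l2461 _))
            (CovZ.n1 (1040, 15760) (by decide +kernel)
             (CovZ.n2 (960, 15760) (by decide +kernel)
              (CovZ.leaf K2_ok TE_l2462 _)
              (CovZ.leaf K2_ok TE_l2463 _))
             (CovZ.leaf K2_ok TE_l2464 _)))
           (CovZ.n1 (1120, 16000) (by decide +kernel)
            (CovZ.n2 (1200, 15920) (by decide +kernel)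
             (CovZ.n2 (1120, 15920) (by decide +kernel)
              (CovZ.leaf K2_ok TE_l2465 _)
              (CovZ.leaf K2_ok TE_l2466 _))
             (CovZ.leaf K2_ok TE_l2467 _))
            (CovZ.n1 (1040, 15920) (by decide +kernel)
             (CovZ.leaf K2_ok TE_l2468 _)
             (CovZ.leaf K2_ok TE_l2469 _))))
          (CovZ.n1 (800, 15840) (by decide +kernel)
           (CovZ.n2 (800, 16000) (by decide +kernel)
            (CovZ.leaf K2_ok TE_l2470 _)
            (CovZ.n1 (720, 15920) (by decide +kernel)
             (CovZ.leaf K2_ok TE_l2471 _)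
             (CovZ.leaf K2_ok TE_l2472 _)))
           (CovZ.n1 (960, 15840) (by decide +kernel)
            (CovZ.n2 (880, 15760) (by decide +kernel)
             (CovZ.leaf K2_ok TE_l2473 _)
             (CovZ.leaf K2_ok TE_l2474 _))
            (CovZ.leaf K2_ok TE_l2475 _))))
         (CovZ.n1 (1280, 15680) (by decide +kernel)
          (CovZ.n2 (1120, 15520) (by decide +kernel)
           (CovZ.n2 (1120, 15680) (by decide +kernel)
            (CovZ.badM (by decide +kernel))
            (CovZ.n1 (1040, 15600) (by decide +kernel)
             (CovZ.n2 (1040, 15680) (by decide +kernel)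
              (CovZ.n2 (1080, 15640) (by decide +kernel)
               (CovZ.leaf K2_ok TE_l2476 _)
               (CovZ.leaf K2_ok TE_l2477 _))
              (CovZ.n1 (1000, 15640) (by decide +kernel)
               (CovZ.leaf K2_ok TE_l2478 _)
               (CovZ.leaf K2_ok TE_l2479 _)))
             (CovZ.badM (by decide +kernel))))
           (CovZ.badM (by decide +kernel)))
          (CovZ.n1 (1120, 15840) (by decide +kernel)
           (CovZ.n2 (1280, 15840) (by decide +kernel)
            (CovZ.n2 (1200, 15760) (by decide +kernel)
             (CovZ.n2 (1200, 15840) (by decide +kernel)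
              (CovZ.n2 (1240, 15800) (by decide +kernel)
               (CovZ.leaf K2_ok TE_l2480 _)
               (CovZ.leaf K2_ok TE_l2481 _))
              (CovZ.n1 (1160, 15800) (by decide +kernel)
               (CovZ.leaf K2_ok TE_l2482 _)
               (CovZ.leaf K2_ok TE_l2483 _)))
             (CovZ.badM (by decide +kernel)))
            (CovZ.n1 (1200, 15920) (by decide +kernel)
             (CovZ.n2 (1280, 15920) (by decide +kernel)
              (CovZ.n2 (1240, 15880) (by decide +kernel)
               (CovZ.leaf K2_ok TE_l2484 _)
               (CovZ.leaf K2_ok TE_l2485 _))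
              (CovZ.leaf K2_ok TE_l2486 _))
             (CovZ.n1 (1200, 15840) (by decide +kernel)
              (CovZ.leaf K2_ok TE_l2487 _)
              (CovZ.leaf K2_ok TE_l2488 _))))
           (CovZ.n1 (1120, 15680) (by decide +kernel)
            (CovZ.n2 (1040, 15760) (by decide +kernel)
             (CovZ.n2 (1120, 15760) (by decide +kernel)
              (CovZ.n2 (1080, 15720) (by decide +kernel)
               (CovZ.leaf K2_ok TE_l2489 _)
               (CovZ.leaf K2_ok TE_l2490 _))
              (CovZ.leaf K2_ok TE_l2491 _))
             (CovZ.leaf K2_ok TE_l2492 _))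
            (CovZ.n1 (1200, 15760) (by decide +kernel)
             (CovZ.badM (by decide +kernel))
             (CovZ.n1 (1120, 15760) (by decide +kernel)
              (CovZ.leaf K2_ok TE_l2493 _)
              (CovZ.n1 (1160, 15720) (by decide +kernel)
               (CovZ.leaf K2_ok TE_l2494 _)
               (CovZ.leaf K2_ok TE_l2495 _))))))))
        (CovZ.n1 (960, 16320) (by decide +kernel)
         (CovZ.n2 (1280, 16320) (by decide +kernel)
          (CovZ.n2 (1120, 16160) (by decide +kernel)
           (CovZ.n2 (1120, 16320) (by decide +kernel)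
            (CovZ.leaf K2_ok TE_l2496 _)
            (CovZ.n1 (1040, 16240) (by decide +kernel)
             (CovZ.leaf K2_ok TE_l2497 _)
             (CovZ.leaf K2_ok TE_l2498 _)))
           (CovZ.n1 (1280, 16160) (by decide +kernel)
            (CovZ.n2 (1200, 16080) (by decide +kernel)
             (CovZ.leaf K2_ok TE_l2499 _)
             (CovZ.leaf K2_ok TE_l2500 _))
            (CovZ.leaf K2_ok TE_l2501 _)))
          (CovZ.n1 (1120, 16480) (by decide +kernel)
           (CovZ.n2 (1280, 16480) (by decide +kernel)
            (CovZ.n2 (1200, 16400) (by decide +kernel)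
             (CovZ.leaf K2_ok TE_l2502 _)
             (CovZ.leaf K2_ok TE_l2503 _))
            (CovZ.leaf K2_ok TE_l2504 _))
           (CovZ.leaf K2_ok TE_l2505 _)))
         (CovZ.n1 (960, 16000) (by decide +kernel)
          (CovZ.n2 (800, 16160) (by decide +kernel)
           (CovZ.n2 (960, 16160) (by decide +kernel)
            (CovZ.n2 (880, 16080) (by decide +kernel)
             (CovZ.leaf K2_ok TE_l2506 _)
             (CovZ.leaf K2_ok TE_l2507 _))
            (CovZ.leaf K2_ok TE_l2508 _))
           (CovZ.leaf K2_ok TE_l2509 _))
          (CovZ.n1 (1120, 16160) (by decide +kernel)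
           (CovZ.n2 (1120, 16000) (by decide +kernel)
            (CovZ.leaf K2_ok TE_l2510 _)
            (CovZ.n1 (1200, 16080) (by decide +kernel)
             (CovZ.leaf K2_ok TE_l2511 _)
             (CovZ.leaf K2_ok TE_l2512 _)))
           (CovZ.n1 (960, 16160) (by decide +kernel)
            (CovZ.leaf K2_ok TE_l2513 _)
            (CovZ.leaf K2_ok TE_l2514 _))))))
       (CovZ.n1 (640, 15360) (by decide +kernel)
        (CovZ.n2 (320, 15680) (by decide +kernel)
         (CovZ.n2 (640, 15680) (by decide +kernel)
          (CovZ.n2 (480, 15520) (by decide +kernel)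
           (CovZ.n2 (480, 15680) (by decide +kernel)
            (CovZ.leaf K2_ok TE_l2515 _)
            (CovZ.n1 (400, 15600) (by decide +kernel)
             (CovZ.leaf K2_ok TE_l2516 _)
             (CovZ.leaf K2_ok TE_l2517 _)))
           (CovZ.n1 (640, 15520) (by decide +kernel)
            (CovZ.n2 (560, 15440) (by decide +kernel)
             (CovZ.leaf K2_ok TE_l2518 _)
             (CovZ.leaf K2_ok TE_l2519 _))
            (CovZ.leaf K2_ok TE_l2520 _)))
          (CovZ.n1 (480, 15840) (by decide +kernel)
           (CovZ.n2 (640, 15840) (by decide +kernel)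
            (CovZ.n2 (560, 15760) (by decide +kernel)
             (CovZ.leaf K2_ok TE_l2521 _)
             (CovZ.leaf K2_ok TE_l2522 _))
            (CovZ.leaf K2_ok TE_l2523 _))
           (CovZ.leaf K2_ok TE_l2524 _)))
         (CovZ.n1 (320, 15360) (by decide +kernel)
          (CovZ.n2 (160, 15520) (by decide +kernel)
           (CovZ.n2 (320, 15520) (by decide +kernel)
            (CovZ.n2 (240, 15440) (by decide +kernel)
             (CovZ.leaf K2_ok TE_l2525 _)
             (CovZ.leaf K2_ok TE_l2526 _))
            (CovZ.leaf K2_ok TE_l2527 _))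
           (CovZ.leaf K2_ok TE_l2528 _))
          (CovZ.n1 (480, 15520) (by decide +kernel)
           (CovZ.n2 (480, 15360) (by decide +kernel)
            (CovZ.leaf K2_ok TE_l2529 _)
            (CovZ.n1 (560, 15440) (by decide +kernel)
             (CovZ.leaf K2_ok TE_l2530 _)
             (CovZ.leaf K2_ok TE_l2531 _)))
           (CovZ.n1 (320, 15520) (by decide +kernel)
            (CovZ.leaf K2_ok TE_l2532 _)
            (CovZ.leaf K2_ok TE_l2533 _)))))
        (CovZ.n1 (960, 15680) (by decide +kernel)
         (CovZ.n2 (960, 15360) (by decide +kernel)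
          (CovZ.n2 (800, 15520) (by decide +kernel)
           (CovZ.n2 (960, 15520) (by decide +kernel)
            (CovZ.n2 (880, 15440) (by decide +kernel)
             (CovZ.n2 (880, 15520) (by decide +kernel)
              (CovZ.n2 (920, 15480) (by decide +kernel)
               (CovZ.leaf K2_ok TE_l2534 _)
               (CovZ.leaf K2_ok TE_l2535 _))
              (CovZ.n1 (840, 15480) (by decide +kernel)
               (CovZ.leaf K2_ok TE_l2536 _)
               (CovZ.leaf K2_ok TE_l2537 _)))
             (CovZ.badM (by decide +kernel)))
            (CovZ.n1 (880, 15600) (by decide +kernel)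
             (CovZ.n2 (960, 15600) (by decide +kernel)
              (CovZ.n2 (920, 15560) (by decide +kernel)
               (CovZ.leaf K2_ok TE_l2538 _)
               (CovZ.leaf K2_ok TE_l2539 _))
              (CovZ.leaf K2_ok TE_l2540 _))
             (CovZ.leaf K2_ok TE_l2541 _)))
           (CovZ.n1 (800, 15360) (by decide +kernel)
            (CovZ.n2 (720, 15440) (by decide +kernel)
             (CovZ.n2 (800, 15440) (by decide +kernel)
              (CovZ.n2 (760, 15400) (by decide +kernel)
               (CovZ.leaf K2_ok TE_l2542 _)
               (CovZ.leaf K2_ok TE_l2543 _))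
              (CovZ.leaf K2_ok TE_l2544 _))
             (CovZ.n1 (720, 15360) (by decide +kernel)
              (CovZ.leaf K2_ok TE_l2545 _)
              (CovZ.leaf K2_ok TE_l2546 _)))
            (CovZ.n1 (880, 15440) (by decide +kernel)
             (CovZ.badM (by decide +kernel))
             (CovZ.n1 (800, 15440) (by decide +kernel)
              (CovZ.leaf K2_ok TE_l2547 _)
              (CovZ.n1 (840, 15400) (by decide +kernel)
               (CovZ.leaf K2_ok TE_l2548 _)
               (CovZ.leaf K2_ok TE_l2549 _))))))
          (CovZ.n1 (1120, 15520) (by decide +kernel)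
           (CovZ.badM (by decide +kernel))
           (CovZ.n1 (960, 15520) (by decide +kernel)
            (CovZ.n2 (1040, 15600) (by decide +kernel)
             (CovZ.badM (by decide +kernel))
             (CovZ.n1 (960, 15600) (by decide +kernel)
              (CovZ.leaf K2_ok TE_l2550 _)
              (CovZ.leaf K2_ok TE_l2551 _)))
            (CovZ.badM (by decide +kernel)))))
         (CovZ.n1 (640, 15680) (by decide +kernel)
          (CovZ.n2 (800, 15840) (by decide +kernel)
           (CovZ.n2 (800, 15680) (by decide +kernel)
            (CovZ.leaf K2_ok TE_l2552 _)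
            (CovZ.n1 (880, 15760) (by decide +kernel)
             (CovZ.leaf K2_ok TE_l2553 _)
             (CovZ.leaf K2_ok TE_l2554 _)))
           (CovZ.n1 (640, 15840) (by decide +kernel)
            (CovZ.leaf K2_ok TE_l2555 _)
            (CovZ.leaf K2_ok TE_l2556 _)))
          (CovZ.n1 (800, 15520) (by decide +kernel)
           (CovZ.n2 (640, 15520) (by decide +kernel)
            (CovZ.n2 (720, 15600) (by decide +kernel)
             (CovZ.leaf K2_ok TE_l2557 _)
             (CovZ.leaf K2_ok TE_l2558 _))
            (CovZ.n1 (720, 15440) (by decide +kernel)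
             (CovZ.n2 (640, 15440) (by decide +kernel)
              (CovZ.leaf K2_ok TE_l2559 _)
              (CovZ.leaf K2_ok TE_l2560 _))
             (CovZ.leaf K2_ok TE_l2561 _)))
           (CovZ.n1 (800, 15680) (by decide +kernel)
            (CovZ.n2 (880, 15600) (by decide +kernel)
             (CovZ.n2 (800, 15600) (by decide +kernel)
              (CovZ.leaf K2_ok TE_l2562 _)
              (CovZ.leaf K2_ok TE_l2563 _))
             (CovZ.leaf K2_ok TE_l2564 _))
            (CovZ.n1 (720, 15600) (by decide +kernel)
             (CovZ.leaf K2_ok TE_l2565 _)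
             (CovZ.leaf K2_ok TE_l2566 _)))))))))

theorem TE_u7 : CovZ TE_M (toL (selN TE_LN 374144419156711147141272955592336317969146888323072)) [0, 7, 6, 1] (1280, 15360) (2560, 15360) (1280, 16640) :=
    (CovZ.n1 (1920, 16000) (by decide +kernel)
      (CovZ.subM 374144419156711147060143317175368453031918731001856 (by decide +kernel)
       (CovZ.n2 (1920, 15360) (by decide +kernel)
        (CovZ.n2 (1600, 15680) (by decide +kernel)
         (CovZ.badM (by decide +kernel))
         (CovZ.n1 (1600, 15360) (by decide +kernel)
          (CovZ.badM (by decide +kernel))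
          (CovZ.badM (by decide +kernel))))
        (CovZ.badM (by decide +kernel))))
      (CovZ.subM 374144419156711147141272955592336317969142558752768 (by decide +kernel)
       (CovZ.n1 (1280, 16000) (by decide +kernel)
        (CovZ.n2 (1600, 16320) (by decide +kernel)
         (CovZ.n2 (1600, 16000) (by decide +kernel)
          (CovZ.n2 (1440, 16160) (by decide +kernel)
           (CovZ.n2 (1600, 16160) (by decide +kernel)
            (CovZ.n2 (1520, 16080) (by decide +kernel)
             (CovZ.n2 (1520, 16160) (by decide +kernel)
              (CovZ.n2 (1560, 16120) (by decide +kernel)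
               (CovZ.leaf K2_ok TE_l2567 _)
               (CovZ.leaf K2_ok TE_l2568 _))
              (CovZ.n1 (1480, 16120) (by decide +kernel)
               (CovZ.leaf K2_ok TE_l2569 _)
               (CovZ.leaf K2_ok TE_l2570 _)))
             (CovZ.badM (by decide +kernel)))
            (CovZ.n1 (1520, 16240) (by decide +kernel)
             (CovZ.n2 (1600, 16240) (by decide +kernel)
              (CovZ.n2 (1560, 16200) (by decide +kernel)
               (CovZ.leaf K2_ok TE_l2571 _)
               (CovZ.leaf K2_ok TE_l2572 _))
              (CovZ.leaf K2_ok TE_l2573 _))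
             (CovZ.n1 (1520, 16160) (by decide +kernel)
              (CovZ.leaf K2_ok TE_l2574 _)
              (CovZ.leaf K2_ok TE_l2575 _))))
           (CovZ.n1 (1440, 16000) (by decide +kernel)
            (CovZ.n2 (1360, 16080) (by decide +kernel)
             (CovZ.n2 (1440, 16080) (by decide +kernel)
              (CovZ.n2 (1400, 16040) (by decide +kernel)
               (CovZ.leaf K2_ok TE_l2576 _)
               (CovZ.leaf K2_ok TE_l2577 _))
              (CovZ.leaf K2_ok TE_l2578 _))
             (CovZ.n1 (1360, 16000) (by decide +kernel)
              (CovZ.leaf K2_ok TE_l2579 _)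
              (CovZ.leaf K2_ok TE_l2580 _)))
            (CovZ.n1 (1520, 16080) (by decide +kernel)
             (CovZ.badM (by decide +kernel))
             (CovZ.n1 (1440, 16080) (by decide +kernel)
              (CovZ.leaf K2_ok TE_l2581 _)
              (CovZ.n1 (1480, 16040) (by decide +kernel)
               (CovZ.leaf K2_ok TE_l2582 _)
               (CovZ.leaf K2_ok TE_l2583 _))))))
          (CovZ.n1 (1760, 16160) (by decide +kernel)
           (CovZ.n2 (1760, 16000) (by decide +kernel)
            (CovZ.n2 (1680, 16080) (by decide +kernel)
             (CovZ.badM (by decide +kernel))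
             (CovZ.n1 (1680, 16000) (by decide +kernel)
              (CovZ.badM (by decide +kernel))
              (CovZ.badM (by decide +kernel))))
            (CovZ.badM (by decide +kernel)))
           (CovZ.n1 (1600, 16160) (by decide +kernel)
            (CovZ.n2 (1680, 16240) (by decide +kernel)
             (CovZ.n2 (1680, 16160) (by decide +kernel)
              (CovZ.badM (by decide +kernel))
              (CovZ.badM (by decide +kernel)))
             (CovZ.n1 (1600, 16240) (by decide +kernel)
              (CovZ.leaf K2_ok TE_l2584 _)
              (CovZ.n1 (1640, 16200) (by decide +kernel)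
               (CovZ.leaf K2_ok TE_l2585 _)
               (CovZ.leaf K2_ok TE_l2586 _))))
            (CovZ.n1 (1680, 16080) (by decide +kernel)
             (CovZ.badM (by decide +kernel))
             (CovZ.n1 (1680, 16160) (by decide +kernel)
              (CovZ.badM (by decide +kernel))
              (CovZ.badM (by decide +kernel)))))))
         (CovZ.n1 (1280, 16320) (by decide +kernel)
          (CovZ.n2 (1440, 16480) (by decide +kernel)
           (CovZ.n2 (1440, 16320) (by decide +kernel)
            (CovZ.leaf K2_ok TE_l2587 _)
            (CovZ.n1 (1520, 16400) (by decide +kernel)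
             (CovZ.leaf K2_ok TE_l2588 _)
             (CovZ.leaf K2_ok TE_l2589 _)))
           (CovZ.n1 (1280, 16480) (by decide +kernel)
            (CovZ.leaf K2_ok TE_l2590 _)
            (CovZ.leaf K2_ok TE_l2591 _)))
          (CovZ.n1 (1440, 16160) (by decide +kernel)
           (CovZ.n2 (1280, 16160) (by decide +kernel)
            (CovZ.n2 (1360, 16240) (by decide +kernel)
             (CovZ.leaf K2_ok TE_l2592 _)
             (CovZ.leaf K2_ok TE_l2593 _))
            (CovZ.n1 (1360, 16080) (by decide +kernel)
             (CovZ.n2 (1280, 16080) (by decide +kernel)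
              (CovZ.leaf K2_ok TE_l2594 _)
              (CovZ.leaf K2_ok TE_l2595 _))
             (CovZ.leaf K2_ok TE_l2596 _)))
           (CovZ.n1 (1440, 16320) (by decide +kernel)
            (CovZ.n2 (1520, 16240) (by decide +kernel)
             (CovZ.n2 (1440, 16240) (by decide +kernel)
              (CovZ.leaf K2_ok TE_l2597 _)
              (CovZ.leaf K2_ok TE_l2598 _))
             (CovZ.leaf K2_ok TE_l2599 _))
            (CovZ.n1 (1360, 16240) (by decide +kernel)
             (CovZ.leaf K2_ok TE_l2600 _)
             (CovZ.leaf K2_ok TE_l2601 _))))))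
        (CovZ.n1 (1600, 15680) (by decide +kernel)
         (CovZ.n2 (1280, 15680) (by decide +kernel)
          (CovZ.n2 (1440, 15840) (by decide +kernel)
           (CovZ.badM (by decide +kernel))
           (CovZ.n1 (1280, 15840) (by decide +kernel)
            (CovZ.n2 (1360, 15920) (by decide +kernel)
             (CovZ.badM (by decide +kernel))
             (CovZ.n1 (1280, 15920) (by decide +kernel)
              (CovZ.n2 (1320, 15960) (by decide +kernel)
               (CovZ.leaf K2_ok TE_l2602 _)
               (CovZ.leaf K2_ok TE_l2603 _))
              (CovZ.n1 (1320, 15880) (by decide +kernel)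
               (CovZ.leaf K2_ok TE_l2604 _)
               (CovZ.leaf K2_ok TE_l2605 _))))
            (CovZ.badM (by decide +kernel))))
          (CovZ.badM (by decide +kernel)))
         (CovZ.n1 (1600, 16000) (by decide +kernel)
          (CovZ.n2 (1760, 15840) (by decide +kernel)
           (CovZ.n2 (1600, 15840) (by decide +kernel)
            (CovZ.n2 (1680, 15920) (by decide +kernel)
             (CovZ.n2 (1680, 15840) (by decide +kernel)
              (CovZ.badM (by decide +kernel))
              (CovZ.badM (by decide +kernel)))
             (CovZ.badM (by decide +kernel)))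
            (CovZ.n1 (1680, 15760) (by decide +kernel)
             (CovZ.badM (by decide +kernel))
             (CovZ.n1 (1680, 15840) (by decide +kernel)
              (CovZ.badM (by decide +kernel))
              (CovZ.badM (by decide +kernel)))))
           (CovZ.n1 (1760, 16000) (by decide +kernel)
            (CovZ.badM (by decide +kernel))
            (CovZ.n1 (1680, 15920) (by decide +kernel)
             (CovZ.n2 (1680, 16000) (by decide +kernel)
              (CovZ.badM (by decide +kernel))
              (CovZ.badM (by decide +kernel)))
             (CovZ.badM (by decide +kernel)))))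
          (CovZ.n1 (1440, 15840) (by decide +kernel)
           (CovZ.n2 (1440, 16000) (by decide +kernel)
            (CovZ.badM (by decide +kernel))
            (CovZ.n1 (1360, 15920) (by decide +kernel)
             (CovZ.n2 (1360, 16000) (by decide +kernel)
              (CovZ.n2 (1400, 15960) (by decide +kernel)
               (CovZ.leaf K2_ok TE_l2606 _)
               (CovZ.leaf K2_ok TE_l2607 _))
              (CovZ.n1 (1320, 15960) (by decide +kernel)
               (CovZ.leaf K2_ok TE_l2608 _)
               (CovZ.leaf K2_ok TE_l2609 _)))
             (CovZ.badM (by decide +kernel))))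
           (CovZ.badM (by decide +kernel))))))))

theorem TE_u8 : CovZ TE_M (toL (selN TE_LN 1267651207052322450250441687200)) [0, 7, 6, 1] (2560, 15360) (3840, 16640) (2560, 17920) :=
    (CovZ.n2 (2560, 16640) (by decide +kernel)
     (CovZ.n2 (3200, 17280) (by decide +kernel)
      (CovZ.badM (by decide +kernel))
      (CovZ.subM 2361183241439151128608 (by decide +kernel)
       (CovZ.n1 (2560, 17280) (by decide +kernel)
        (CovZ.n2 (2880, 17600) (by decide +kernel)
         (CovZ.n2 (2880, 17280) (by decide +kernel)
          (CovZ.n2 (2720, 17440) (by decide +kernel)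
           (CovZ.n2 (2880, 17440) (by decide +kernel)
            (CovZ.n2 (2800, 17360) (by decide +kernel)
             (CovZ.n2 (2800, 17440) (by decide +kernel)
              (CovZ.n2 (2840, 17400) (by decide +kernel)
               (CovZ.leaf K2_ok TE_l6944 _)
               (CovZ.leaf K2_ok TE_l6945 _))
              (CovZ.n1 (2760, 17400) (by decide +kernel)
               (CovZ.leaf K2_ok TE_l6946 _)
               (CovZ.leaf K2_ok TE_l6947 _)))
             (CovZ.badM (by decide +kernel)))
            (CovZ.n1 (2800, 17520) (by decide +kernel)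
             (CovZ.n2 (2880, 17520) (by decide +kernel)
              (CovZ.n2 (2840, 17480) (by decide +kernel)
               (CovZ.leaf K2_ok TE_l6948 _)
               (CovZ.leaf K2_ok TE_l6949 _))
              (CovZ.leaf K2_ok TE_l6950 _))
             (CovZ.n1 (2800, 17440) (by decide +kernel)
              (CovZ.leaf K2_ok TE_l6951 _)
              (CovZ.leaf K2_ok TE_l6952 _))))
           (CovZ.n1 (2720, 17280) (by decide +kernel)
            (CovZ.n2 (2640, 17360) (by decide +kernel)
             (CovZ.n2 (2720, 17360) (by decide +kernel)
              (CovZ.n2 (2680, 17320) (by decide +kernel)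
               (CovZ.leaf K2_ok TE_l6953 _)
               (CovZ.leaf K2_ok TE_l6954 _))
              (CovZ.leaf K2_ok TE_l6955 _))
             (CovZ.n1 (2640, 17280) (by decide +kernel)
              (CovZ.leaf K2_ok TE_l6956 _)
              (CovZ.n1 (2680, 17320) (by decide +kernel)
               (CovZ.leaf K2_ok TE_l6957 _)
               (CovZ.leaf K2_ok TE_l6958 _))))
            (CovZ.n1 (2800, 17360) (by decide +kernel)
             (CovZ.badM (by decide +kernel))
             (CovZ.n1 (2720, 17360) (by decide +kernel)
              (CovZ.leaf K2_ok TE_l6959 _)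
              (CovZ.n1 (2760, 17320) (by decide +kernel)
               (CovZ.leaf K2_ok TE_l6960 _)
               (CovZ.leaf K2_ok TE_l6961 _))))))
          (CovZ.n1 (3040, 17440) (by decide +kernel)
           (CovZ.badM (by decide +kernel))
           (CovZ.n1 (2880, 17440) (by decide +kernel)
            (CovZ.n2 (2960, 17520) (by decide +kernel)
             (CovZ.badM (by decide +kernel))
             (CovZ.n1 (2880, 17520) (by decide +kernel)
              (CovZ.n2 (2920, 17560) (by decide +kernel)
               (CovZ.leaf K2_ok TE_l6962 _)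
               (CovZ.leaf K2_ok TE_l6963 _))
              (CovZ.n1 (2920, 17480) (by decide +kernel)
               (CovZ.leaf K2_ok TE_l6964 _)
               (CovZ.leaf K2_ok TE_l6965 _))))
            (CovZ.badM (by decide +kernel)))))
         (CovZ.n1 (2560, 17600) (by decide +kernel)
          (CovZ.n2 (2720, 17760) (by decide +kernel)
           (CovZ.n2 (2720, 17600) (by decide +kernel)
            (CovZ.leaf K2_ok TE_l6966 _)
            (CovZ.n1 (2800, 17680) (by decide +kernel)
             (CovZ.leaf K2_ok TE_l6967 _)
             (CovZ.leaf K2_ok TE_l6968 _)))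
           (CovZ.n1 (2560, 17760) (by decide +kernel)
            (CovZ.leaf K2_ok TE_l6969 _)
            (CovZ.leaf K2_ok TE_l6970 _)))
          (CovZ.n1 (2720, 17440) (by decide +kernel)
           (CovZ.n2 (2560, 17440) (by decide +kernel)
            (CovZ.n2 (2640, 17520) (by decide +kernel)
             (CovZ.leaf K2_ok TE_l6971 _)
             (CovZ.leaf K2_ok TE_l6972 _))
            (CovZ.n1 (2640, 17360) (by decide +kernel)
             (CovZ.n2 (2560, 17360) (by decide +kernel)
              (CovZ.leaf K2_ok TE_l6973 _)
              (CovZ.leaf K2_ok TE_l6974 _))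
             (CovZ.leaf K2_ok TE_l6975 _)))
           (CovZ.n1 (2720, 17600) (by decide +kernel)
            (CovZ.n2 (2800, 17520) (by decide +kernel)
             (CovZ.n2 (2720, 17520) (by decide +kernel)
              (CovZ.leaf K2_ok TE_l6976 _)
              (CovZ.leaf K2_ok TE_l6977 _))
             (CovZ.leaf K2_ok TE_l6978 _))
            (CovZ.n1 (2640, 17520) (by decide +kernel)
             (CovZ.leaf K2_ok TE_l6979 _)
             (CovZ.n1 (2720, 17520) (by decide +kernel)
              (CovZ.leaf K2_ok TE_l6980 _)
              (CovZ.leaf K2_ok TE_l6981 _)))))))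
        (CovZ.n1 (2880, 16960) (by decide +kernel)
         (CovZ.n2 (2560, 16960) (by decide +kernel)
          (CovZ.n2 (2720, 17120) (by decide +kernel)
           (CovZ.badM (by decide +kernel))
           (CovZ.n1 (2560, 17120) (by decide +kernel)
            (CovZ.n2 (2640, 17200) (by decide +kernel)
             (CovZ.badM (by decide +kernel))
             (CovZ.n1 (2560, 17200) (by decide +kernel)
              (CovZ.leaf K2_ok TE_l6982 _)
              (CovZ.n1 (2600, 17160) (by decide +kernel)
               (CovZ.leaf K2_ok TE_l6983 _)
               (CovZ.leaf K2_ok TE_l6984 _))))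
            (CovZ.badM (by decide +kernel))))
          (CovZ.badM (by decide +kernel)))
         (CovZ.n1 (2880, 17280) (by decide +kernel)
          (CovZ.badM (by decide +kernel))
          (CovZ.n1 (2720, 17120) (by decide +kernel)
           (CovZ.n2 (2720, 17280) (by decide +kernel)
            (CovZ.badM (by decide +kernel))
            (CovZ.n1 (2640, 17200) (by decide +kernel)
             (CovZ.n2 (2640, 17280) (by decide +kernel)
              (CovZ.n2 (2680, 17240) (by decide +kernel)
               (CovZ.leaf K2_ok TE_l6985 _)
               (CovZ.leaf K2_ok TE_l6986 _))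
              (CovZ.n1 (2600, 17240) (by decide +kernel)
               (CovZ.leaf K2_ok TE_l6987 _)
               (CovZ.leaf K2_ok TE_l6988 _)))
             (CovZ.badM (by decide +kernel))))
           (CovZ.badM (by decide +kernel))))))))
     (CovZ.badM (by decide +kernel)))

theorem TE_u9 : CovZ TE_M (toL (selN TE_LN 1267651207052322450250441687200)) [0, 7, 6, 1] (3840, 16640) (5120, 17920) (2560, 17920) :=
    (CovZ.n1 (3840, 17920) (by decide +kernel)
     (CovZ.badM (by decide +kernel))
     (CovZ.n1 (3200, 17280) (by decide +kernel)
      (CovZ.n2 (3200, 17920) (by decide +kernel)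
       (CovZ.n2 (3520, 17600) (by decide +kernel)
        (CovZ.subM 2361183241439151128608 (by decide +kernel)
         (CovZ.n2 (3200, 17600) (by decide +kernel)
          (CovZ.n2 (3360, 17760) (by decide +kernel)
           (CovZ.badM (by decide +kernel))
           (CovZ.n1 (3200, 17760) (by decide +kernel)
            (CovZ.n2 (3280, 17840) (by decide +kernel)
             (CovZ.badM (by decide +kernel))
             (CovZ.n1 (3200, 17840) (by decide +kernel)
              (CovZ.leaf K2_ok TE_l6989 _)
              (CovZ.n1 (3240, 17800) (by decide +kernel)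
               (CovZ.leaf K2_ok TE_l6990 _)
               (CovZ.leaf K2_ok TE_l6991 _))))
            (CovZ.badM (by decide +kernel))))
          (CovZ.badM (by decide +kernel))))
        (CovZ.n1 (3520, 17920) (by decide +kernel)
         (CovZ.badM (by decide +kernel))
         (CovZ.subM 2361183241439151128608 (by decide +kernel)
          (CovZ.n1 (3360, 17760) (by decide +kernel)
           (CovZ.n2 (3360, 17920) (by decide +kernel)
            (CovZ.badM (by decide +kernel))
            (CovZ.n1 (3280, 17840) (by decide +kernel)
             (CovZ.n2 (3280, 17920) (by decide +kernel)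
              (CovZ.n2 (3320, 17880) (by decide +kernel)
               (CovZ.leaf K2_ok TE_l6992 _)
               (CovZ.leaf K2_ok TE_l6993 _))
              (CovZ.n1 (3240, 17880) (by decide +kernel)
               (CovZ.leaf K2_ok TE_l6994 _)
               (CovZ.leaf K2_ok TE_l6995 _)))
             (CovZ.badM (by decide +kernel))))
           (CovZ.badM (by decide +kernel))))))
       (CovZ.subM 2361183241439151128608 (by decide +kernel)
        (CovZ.n1 (2880, 17600) (by decide +kernel)
         (CovZ.n2 (2880, 17920) (by decide +kernel)
          (CovZ.n2 (3040, 17760) (by decide +kernel)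
           (CovZ.n2 (2880, 17760) (by decide +kernel)
            (CovZ.n2 (2960, 17840) (by decide +kernel)
             (CovZ.leaf K2_ok TE_l6996 _)
             (CovZ.leaf K2_ok TE_l6997 _))
            (CovZ.n1 (2960, 17680) (by decide +kernel)
             (CovZ.n2 (2880, 17680) (by decide +kernel)
              (CovZ.leaf K2_ok TE_l6998 _)
              (CovZ.leaf K2_ok TE_l6999 _))
             (CovZ.leaf K2_ok TE_l7000 _)))
           (CovZ.n1 (3040, 17920) (by decide +kernel)
            (CovZ.n2 (3120, 17840) (by decide +kernel)
             (CovZ.n2 (3040, 17840) (by decide +kernel)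
              (CovZ.leaf K2_ok TE_l7001 _)
              (CovZ.leaf K2_ok TE_l7002 _))
             (CovZ.leaf K2_ok TE_l7003 _))
            (CovZ.n1 (2960, 17840) (by decide +kernel)
             (CovZ.leaf K2_ok TE_l7004 _)
             (CovZ.n1 (3040, 17840) (by decide +kernel)
              (CovZ.leaf K2_ok TE_l7005 _)
              (CovZ.leaf K2_ok TE_l7006 _)))))
          (CovZ.n1 (2720, 17760) (by decide +kernel)
           (CovZ.n2 (2720, 17920) (by decide +kernel)
            (CovZ.leaf K2_ok TE_l7007 _)
            (CovZ.n1 (2640, 17840) (by decide +kernel)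
             (CovZ.leaf K2_ok TE_l7008 _)
             (CovZ.leaf K2_ok TE_l7009 _)))
           (CovZ.n1 (2880, 17760) (by decide +kernel)
            (CovZ.n2 (2800, 17680) (by decide +kernel)
             (CovZ.leaf K2_ok TE_l7010 _)
             (CovZ.n1 (2880, 17680) (by decide +kernel)
              (CovZ.leaf K2_ok TE_l7011 _)
              (CovZ.leaf K2_ok TE_l7012 _)))
            (CovZ.leaf K2_ok TE_l7013 _))))
         (CovZ.n1 (3200, 17600) (by decide +kernel)
          (CovZ.n2 (3040, 17440) (by decide +kernel)
           (CovZ.n2 (3040, 17600) (by decide +kernel)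
            (CovZ.badM (by decide +kernel))
            (CovZ.n1 (2960, 17520) (by decide +kernel)
             (CovZ.n2 (2960, 17600) (by decide +kernel)
              (CovZ.n2 (3000, 17560) (by decide +kernel)
               (CovZ.leaf K2_ok TE_l7014 _)
               (CovZ.leaf K2_ok TE_l7015 _))
              (CovZ.n1 (2920, 17560) (by decide +kernel)
               (CovZ.leaf K2_ok TE_l7016 _)
               (CovZ.leaf K2_ok TE_l7017 _)))
             (CovZ.badM (by decide +kernel))))
           (CovZ.badM (by decide +kernel)))
          (CovZ.n1 (3040, 17760) (by decide +kernel)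
           (CovZ.n2 (3200, 17760) (by decide +kernel)
            (CovZ.n2 (3120, 17680) (by decide +kernel)
             (CovZ.n2 (3120, 17760) (by decide +kernel)
              (CovZ.n2 (3160, 17720) (by decide +kernel)
               (CovZ.leaf K2_ok TE_l7018 _)
               (CovZ.leaf K2_ok TE_l7019 _))
              (CovZ.n1 (3080, 17720) (by decide +kernel)
               (CovZ.leaf K2_ok TE_l7020 _)
               (CovZ.leaf K2_ok TE_l7021 _)))
             (CovZ.badM (by decide +kernel)))
            (CovZ.n1 (3120, 17840) (by decide +kernel)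
             (CovZ.n2 (3200, 17840) (by decide +kernel)
              (CovZ.n2 (3160, 17800) (by decide +kernel)
               (CovZ.leaf K2_ok TE_l7022 _)
               (CovZ.leaf K2_ok TE_l7023 _))
              (CovZ.leaf K2_ok TE_l7024 _))
             (CovZ.n1 (3120, 17760) (by decide +kernel)
              (CovZ.leaf K2_ok TE_l7025 _)
              (CovZ.n1 (3160, 17800) (by decide +kernel)
               (CovZ.leaf K2_ok TE_l7026 _)
               (CovZ.leaf K2_ok TE_l7027 _)))))
           (CovZ.n1 (3040, 17600) (by decide +kernel)
            (CovZ.n2 (2960, 17680) (by decide +kernel)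
             (CovZ.n2 (3040, 17680) (by decide +kernel)
              (CovZ.n2 (3000, 17640) (by decide +kernel)
               (CovZ.leaf K2_ok TE_l7028 _)
               (CovZ.leaf K2_ok TE_l7029 _))
              (CovZ.leaf K2_ok TE_l7030 _))
             (CovZ.n1 (2960, 17600) (by decide +kernel)
              (CovZ.leaf K2_ok TE_l7031 _)
              (CovZ.n1 (3000, 17640) (by decide +kernel)
               (CovZ.leaf K2_ok TE_l7032 _)
               (CovZ.leaf K2_ok TE_l7033 _))))
            (CovZ.n1 (3120, 17680) (by decide +kernel)
             (CovZ.badM (by decide +kernel))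
             (CovZ.n1 (3040, 17680) (by decide +kernel)
              (CovZ.n2 (3080, 17720) (by decide +kernel)
               (CovZ.leaf K2_ok TE_l7034 _)
               (CovZ.leaf K2_ok TE_l7035 _))
              (CovZ.n1 (3080, 17640) (by decide +kernel)
               (CovZ.leaf K2_ok TE_l7036 _)
               (CovZ.leaf K2_ok TE_l7037 _))))))))))
      (CovZ.badM (by decide +kernel))))

theorem TE_u10 : CovZ TE_M (toL (selN TE_LN 81129638416967864937223828803585)) [0, 7, 6, 1] (-2560, 20480) (-2560, 19200) (-1280, 19200) :=
    (CovZ.n2 (-1920, 19840) (by decide +kernel)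
      (CovZ.n2 (-1920, 19200) (by decide +kernel)
       (CovZ.n2 (-2240, 19520) (by decide +kernel)
        (CovZ.n2 (-1920, 19520) (by decide +kernel)
         (CovZ.n2 (-2080, 19360) (by decide +kernel)
          (CovZ.leaf K2_ok TE_l362 _)
          (CovZ.leaf K2_ok TE_l363 _))
         (CovZ.n1 (-2080, 19680) (by decide +kernel)
          (CovZ.leaf K2_ok TE_l364 _)
          (CovZ.leaf K2_ok TE_l365 _)))
        (CovZ.n1 (-2240, 19200) (by decide +kernel)
         (CovZ.n2 (-2400, 19360) (by decide +kernel)
          (CovZ.n2 (-2240, 19360) (by decide +kernel)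
           (CovZ.n2 (-2320, 19280) (by decide +kernel)
            (CovZ.leaf K2_ok TE_l366 _)
            (CovZ.leaf K2_ok TE_l367 _))
           (CovZ.leaf K2_ok TE_l368 _))
          (CovZ.n1 (-2400, 19200) (by decide +kernel)
           (CovZ.n2 (-2480, 19280) (by decide +kernel)
            (CovZ.n2 (-2400, 19280) (by decide +kernel)
             (CovZ.leaf K2_ok TE_l369 _)
             (CovZ.leaf K2_ok TE_l370 _))
            (CovZ.n1 (-2480, 19200) (by decide +kernel)
             (CovZ.n2 (-2520, 19240) (by decide +kernel)
              (CovZ.leaf K2_ok TE_l371 _)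
              (CovZ.badM (by decide +kernel)))
             (CovZ.leaf K2_ok TE_l372 _)))
           (CovZ.n1 (-2320, 19280) (by decide +kernel)
            (CovZ.leaf K2_ok TE_l373 _)
            (CovZ.n1 (-2400, 19280) (by decide +kernel)
             (CovZ.leaf K2_ok TE_l374 _)
             (CovZ.leaf K2_ok TE_l375 _)))))
         (CovZ.n1 (-2080, 19360) (by decide +kernel)
          (CovZ.n2 (-2080, 19200) (by decide +kernel)
           (CovZ.leaf K2_ok TE_l376 _)
           (CovZ.leaf K2_ok TE_l377 _))
          (CovZ.n1 (-2240, 19360) (by decide +kernel)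
           (CovZ.leaf K2_ok TE_l378 _)
           (CovZ.leaf K2_ok TE_l379 _)))))
       (CovZ.n1 (-1600, 19520) (by decide +kernel)
        (CovZ.n2 (-1600, 19200) (by decide +kernel)
         (CovZ.leaf K2_ok TE_l380 _)
         (CovZ.leaf K2_ok TE_l381 _))
        (CovZ.n1 (-1920, 19520) (by decide +kernel)
         (CovZ.leaf K2_ok TE_l382 _)
         (CovZ.leaf K2_ok TE_l383 _))))
      (CovZ.n1 (-2560, 19840) (by decide +kernel)
       (CovZ.n2 (-2240, 20160) (by decide +kernel)
        (CovZ.n2 (-2240, 19840) (by decide +kernel)
         (CovZ.n2 (-2400, 20000) (by decide +kernel)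
          (CovZ.leaf K2_ok TE_l384 _)
          (CovZ.n1 (-2400, 19840) (by decide +kernel)
           (CovZ.leaf K2_ok TE_l385 _)
           (CovZ.leaf K2_ok TE_l386 _)))
         (CovZ.n1 (-2080, 20000) (by decide +kernel)
          (CovZ.leaf K2_ok TE_l387 _)
          (CovZ.leaf K2_ok TE_l388 _)))
        (CovZ.n1 (-2560, 20160) (by decide +kernel)
         (CovZ.n2 (-2400, 20320) (by decide +kernel)
          (CovZ.leaf K2_ok TE_l389 _)
          (CovZ.badM (by decide +kernel)))
         (CovZ.n1 (-2400, 20000) (by decide +kernel)
          (CovZ.n2 (-2560, 20000) (by decide +kernel)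
           (CovZ.leaf K2_ok TE_l390 _)
           (CovZ.leaf K2_ok TE_l391 _))
          (CovZ.leaf K2_ok TE_l392 _))))
       (CovZ.n1 (-2240, 19520) (by decide +kernel)
        (CovZ.n2 (-2560, 19520) (by decide +kernel)
         (CovZ.n2 (-2400, 19680) (by decide +kernel)
          (CovZ.n2 (-2400, 19520) (by decide +kernel)
           (CovZ.n2 (-2480, 19600) (by decide +kernel)
            (CovZ.leaf K2_ok TE_l393 _)
            (CovZ.leaf K2_ok TE_l394 _))
           (CovZ.leaf K2_ok TE_l395 _))
          (CovZ.n1 (-2560, 19680) (by decide +kernel)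
           (CovZ.n2 (-2480, 19760) (by decide +kernel)
            (CovZ.leaf K2_ok TE_l396 _)
            (CovZ.leaf K2_ok TE_l397 _))
           (CovZ.n1 (-2480, 19600) (by decide +kernel)
            (CovZ.leaf K2_ok TE_l398 _)
            (CovZ.leaf K2_ok TE_l399 _))))
         (CovZ.n1 (-2400, 19360) (by decide +kernel)
          (CovZ.n2 (-2560, 19360) (by decide +kernel)
           (CovZ.n2 (-2480, 19440) (by decide +kernel)
            (CovZ.n2 (-2480, 19360) (by decide +kernel)
             (CovZ.leaf K2_ok TE_l400 _)
             (CovZ.leaf K2_ok TE_l401 _))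
            (CovZ.n1 (-2560, 19440) (by decide +kernel)
             (CovZ.leaf K2_ok TE_l402 _)
             (CovZ.leaf K2_ok TE_l403 _)))
           (CovZ.n1 (-2480, 19280) (by decide +kernel)
            (CovZ.n2 (-2560, 19280) (by decide +kernel)
             (CovZ.n2 (-2520, 19320) (by decide +kernel)
              (CovZ.leaf K2_ok TE_l404 _)
              (CovZ.leaf K2_ok TE_l405 _))
             (CovZ.n1 (-2520, 19240) (by decide +kernel)
              (CovZ.badM (by decide +kernel))
              (CovZ.leaf K2_ok TE_l406 _)))
            (CovZ.n1 (-2480, 19360) (by decide +kernel)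
             (CovZ.leaf K2_ok TE_l407 _)
             (CovZ.n1 (-2520, 19320) (by decide +kernel)
              (CovZ.leaf K2_ok TE_l408 _)
              (CovZ.leaf K2_ok TE_l409 _)))))
          (CovZ.n1 (-2400, 19520) (by decide +kernel)
           (CovZ.leaf K2_ok TE_l410 _)
           (CovZ.n1 (-2480, 19440) (by decide +kernel)
            (CovZ.leaf K2_ok TE_l411 _)
            (CovZ.leaf K2_ok TE_l412 _)))))
        (CovZ.n1 (-2240, 19840) (by decide +kernel)
         (CovZ.n2 (-2080, 19680) (by decide +kernel)
          (CovZ.leaf K2_ok TE_l413 _)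
          (CovZ.leaf K2_ok TE_l414 _))
         (CovZ.n1 (-2400, 19680) (by decide +kernel)
          (CovZ.n2 (-2400, 19840) (by decide +kernel)
           (CovZ.leaf K2_ok TE_l415 _)
           (CovZ.leaf K2_ok TE_l416 _))
          (CovZ.n1 (-2240, 19680) (by decide +kernel)
           (CovZ.leaf K2_ok TE_l417 _)
           (CovZ.leaf K2_ok TE_l418 _)))))))

theorem TE_u11 : CovZ TE_M (toL (selN TE_LN 81129638416967864937223828803585)) [0, 7, 6, 1] (-2560, 19200) (-2560, 17920) (-1280, 19200) :=
    (CovZ.n1 (-1920, 18560) (by decide +kernel)
      (CovZ.n2 (-2560, 18560) (by decide +kernel)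
       (CovZ.n2 (-2240, 18880) (by decide +kernel)
        (CovZ.n2 (-2240, 18560) (by decide +kernel)
         (CovZ.badM (by decide +kernel))
         (CovZ.n1 (-2080, 18720) (by decide +kernel)
          (CovZ.n2 (-2080, 18560) (by decide +kernel)
           (CovZ.n2 (-2160, 18640) (by decide +kernel)
            (CovZ.n2 (-2080, 18640) (by decide +kernel)
             (CovZ.n2 (-2120, 18600) (by decide +kernel)
              (CovZ.leaf K2_ok TE_l17071 _)
              (CovZ.leaf K2_ok TE_l17072 _))
             (CovZ.leaf K2_ok TE_l419 _))
            (CovZ.badM (by decide +kernel)))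
           (CovZ.n1 (-2000, 18640) (by decide +kernel)
            (CovZ.n2 (-2000, 18560) (by decide +kernel)
             (CovZ.leaf K2_ok TE_l420 _)
             (CovZ.leaf K2_ok TE_l421 _))
            (CovZ.n1 (-2080, 18640) (by decide +kernel)
             (CovZ.leaf K2_ok TE_l422 _)
             (CovZ.leaf K2_ok TE_l423 _))))
          (CovZ.n1 (-2240, 18720) (by decide +kernel)
           (CovZ.n2 (-2160, 18800) (by decide +kernel)
            (CovZ.n2 (-2160, 18720) (by decide +kernel)
             (CovZ.n2 (-2200, 18760) (by decide +kernel)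
              (CovZ.leaf K2_ok TE_l424 _)
              (CovZ.badM (by decide +kernel)))
             (CovZ.leaf K2_ok TE_l425 _))
            (CovZ.n1 (-2240, 18800) (by decide +kernel)
             (CovZ.leaf K2_ok TE_l426 _)
             (CovZ.n1 (-2200, 18760) (by decide +kernel)
              (CovZ.badM (by decide +kernel))
              (CovZ.leaf K2_ok TE_l427 _))))
           (CovZ.n1 (-2160, 18640) (by decide +kernel)
            (CovZ.badM (by decide +kernel))
            (CovZ.n1 (-2160, 18720) (by decide +kernel)
             (CovZ.leaf K2_ok TE_l428 _)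
             (CovZ.badM (by decide +kernel)))))))
        (CovZ.badM (by decide +kernel)))
       (CovZ.n1 (-2240, 18240) (by decide +kernel)
        (CovZ.badM (by decide +kernel))
        (CovZ.n1 (-2240, 18560) (by decide +kernel)
         (CovZ.n2 (-2080, 18400) (by decide +kernel)
          (CovZ.badM (by decide +kernel))
          (CovZ.n1 (-2080, 18560) (by decide +kernel)
           (CovZ.n2 (-2000, 18480) (by decide +kernel)
            (CovZ.n2 (-2080, 18480) (by decide +kernel)
             (CovZ.n2 (-2040, 18520) (by decide +kernel)
              (CovZ.leaf K2_ok TE_l17073 _)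
              (CovZ.leaf K2_ok TE_l17074 _))
             (CovZ.n1 (-2040, 18440) (by decide +kernel)
              (CovZ.badM (by decide +kernel))
              (CovZ.leaf K2_ok TE_l17075 _)))
            (CovZ.n1 (-2000, 18560) (by decide +kernel)
             (CovZ.leaf K2_ok TE_l429 _)
             (CovZ.leaf K2_ok TE_l430 _)))
           (CovZ.badM (by decide +kernel))))
         (CovZ.badM (by decide +kernel)))))
      (CovZ.n1 (-1920, 19200) (by decide +kernel)
       (CovZ.n2 (-1600, 18880) (by decide +kernel)
        (CovZ.n2 (-1920, 18880) (by decide +kernel)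
         (CovZ.n2 (-1760, 19040) (by decide +kernel)
          (CovZ.leaf K2_ok TE_l431 _)
          (CovZ.n1 (-1920, 19040) (by decide +kernel)
           (CovZ.leaf K2_ok TE_l432 _)
           (CovZ.leaf K2_ok TE_l433 _)))
         (CovZ.n1 (-1760, 18720) (by decide +kernel)
          (CovZ.n2 (-1920, 18720) (by decide +kernel)
           (CovZ.leaf K2_ok TE_l434 _)
           (CovZ.leaf K2_ok TE_l435 _))
          (CovZ.leaf K2_ok TE_l436 _)))
        (CovZ.n1 (-1600, 19200) (by decide +kernel)
         (CovZ.leaf K2_ok TE_l437 _)
         (CovZ.n1 (-1760, 19040) (by decide +kernel)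
          (CovZ.leaf K2_ok TE_l438 _)
          (CovZ.leaf K2_ok TE_l439 _))))
       (CovZ.n1 (-2240, 18880) (by decide +kernel)
        (CovZ.n2 (-2240, 19200) (by decide +kernel)
         (CovZ.n2 (-2080, 19040) (by decide +kernel)
          (CovZ.n2 (-2240, 19040) (by decide +kernel)
           (CovZ.n2 (-2160, 19120) (by decide +kernel)
            (CovZ.leaf K2_ok TE_l440 _)
            (CovZ.leaf K2_ok TE_l441 _))
           (CovZ.n1 (-2160, 18960) (by decide +kernel)
            (CovZ.n2 (-2240, 18960) (by decide +kernel)
             (CovZ.leaf K2_ok TE_l442 _)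
             (CovZ.leaf K2_ok TE_l443 _))
            (CovZ.leaf K2_ok TE_l444 _)))
          (CovZ.n1 (-2080, 19200) (by decide +kernel)
           (CovZ.leaf K2_ok TE_l445 _)
           (CovZ.leaf K2_ok TE_l446 _)))
         (CovZ.n1 (-2400, 19040) (by decide +kernel)
          (CovZ.n2 (-2400, 19200) (by decide +kernel)
           (CovZ.n2 (-2320, 19120) (by decide +kernel)
            (CovZ.n2 (-2400, 19120) (by decide +kernel)
             (CovZ.leaf K2_ok TE_l447 _)
             (CovZ.leaf K2_ok TE_l448 _))
            (CovZ.leaf K2_ok TE_l449 _))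
           (CovZ.n1 (-2480, 19120) (by decide +kernel)
            (CovZ.n2 (-2480, 19200) (by decide +kernel)
             (CovZ.n2 (-2440, 19160) (by decide +kernel)
              (CovZ.badM (by decide +kernel))
              (CovZ.leaf K2_ok TE_l450 _))
             (CovZ.badM (by decide +kernel)))
            (CovZ.n1 (-2400, 19120) (by decide +kernel)
             (CovZ.badM (by decide +kernel))
             (CovZ.n1 (-2440, 19160) (by decide +kernel)
              (CovZ.leaf K2_ok TE_l451 _)
              (CovZ.badM (by decide +kernel))))))
          (CovZ.n1 (-2240, 19040) (by decide +kernel)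
           (CovZ.n2 (-2320, 18960) (by decide +kernel)
            (CovZ.n2 (-2320, 19040) (by decide +kernel)
             (CovZ.leaf K2_ok TE_l452 _)
             (CovZ.n1 (-2360, 19000) (by decide +kernel)
              (CovZ.leaf K2_ok TE_l453 _)
              (CovZ.leaf K2_ok TE_l454 _)))
            (CovZ.n1 (-2240, 18960) (by decide +kernel)
             (CovZ.leaf K2_ok TE_l455 _)
             (CovZ.leaf K2_ok TE_l456 _)))
           (CovZ.n1 (-2320, 19120) (by decide +kernel)
            (CovZ.leaf K2_ok TE_l457 _)
            (CovZ.n1 (-2320, 19040) (by decide +kernel)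
             (CovZ.leaf K2_ok TE_l458 _)
             (CovZ.leaf K2_ok TE_l459 _))))))
        (CovZ.n1 (-1920, 18880) (by decide +kernel)
         (CovZ.n2 (-2080, 18720) (by decide +kernel)
          (CovZ.n2 (-2080, 18880) (by decide +kernel)
           (CovZ.n2 (-2000, 18800) (by decide +kernel)
            (CovZ.leaf K2_ok TE_l460 _)
            (CovZ.leaf K2_ok TE_l461 _))
           (CovZ.n1 (-2160, 18800) (by decide +kernel)
            (CovZ.n2 (-2160, 18880) (by decide +kernel)
             (CovZ.leaf K2_ok TE_l462 _)
             (CovZ.leaf K2_ok TE_l463 _))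
            (CovZ.leaf K2_ok TE_l464 _)))
          (CovZ.n1 (-1920, 18720) (by decide +kernel)
           (CovZ.n2 (-2000, 18640) (by decide +kernel)
            (CovZ.leaf K2_ok TE_l465 _)
            (CovZ.leaf K2_ok TE_l466 _))
           (CovZ.n1 (-2000, 18800) (by decide +kernel)
            (CovZ.leaf K2_ok TE_l467 _)
            (CovZ.leaf K2_ok TE_l468 _))))
         (CovZ.n1 (-2080, 19040) (by decide +kernel)
          (CovZ.n2 (-1920, 19040) (by decide +kernel)
           (CovZ.leaf K2_ok TE_l469 _)
           (CovZ.leaf K2_ok TE_l470 _))
          (CovZ.n1 (-2080, 18880) (by decide +kernel)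
           (CovZ.n2 (-2160, 18960) (by decide +kernel)
            (CovZ.leaf K2_ok TE_l471 _)
            (CovZ.n1 (-2160, 18880) (by decide +kernel)
             (CovZ.leaf K2_ok TE_l472 _)
             (CovZ.leaf K2_ok TE_l473 _)))
           (CovZ.n1 (-2000, 18960) (by decide +kernel)
            (CovZ.leaf K2_ok TE_l474 _)
            (CovZ.leaf K2_ok TE_l475 _))))))))

theorem TE_u12 : CovZ TE_M (toL (selN TE_LN 2923003274662138144673967101453690902079688671392)) [0, 7, 6, 1] (5120, 17920) (5120, 19200) (3840, 19200) :=
    (CovZ.n2 (4480, 18560) (by decide +kernel)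
      (CovZ.n2 (4480, 19200) (by decide +kernel)
       (CovZ.n2 (4800, 18880) (by decide +kernel)
        (CovZ.n2 (4480, 18880) (by decide +kernel)
         (CovZ.n2 (4640, 19040) (by decide +kernel)
          (CovZ.badM (by decide +kernel))
          (CovZ.n1 (4480, 19040) (by decide +kernel)
           (CovZ.n2 (4560, 19120) (by decide +kernel)
            (CovZ.badM (by decide +kernel))
            (CovZ.n1 (4480, 19120) (by decide +kernel)
             (CovZ.n2 (4520, 19160) (by decide +kernel)
              (CovZ.leaf K2_ok TE_l7039 _)
              (CovZ.leaf K2_ok TE_l7040 _))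
             (CovZ.n1 (4520, 19080) (by decide +kernel)
              (CovZ.leaf K2_ok TE_l7041 _)
              (CovZ.leaf K2_ok TE_l7042 _))))
           (CovZ.badM (by decide +kernel))))
         (CovZ.badM (by decide +kernel)))
        (CovZ.n1 (4800, 19200) (by decide +kernel)
         (CovZ.badM (by decide +kernel))
         (CovZ.n1 (4640, 19040) (by decide +kernel)
          (CovZ.n2 (4640, 19200) (by decide +kernel)
           (CovZ.badM (by decide +kernel))
           (CovZ.n1 (4560, 19120) (by decide +kernel)
            (CovZ.n2 (4560, 19200) (by decide +kernel)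
             (CovZ.n2 (4600, 19160) (by decide +kernel)
              (CovZ.leaf K2_ok TE_l7043 _)
              (CovZ.leaf K2_ok TE_l7044 _))
             (CovZ.n1 (4520, 19160) (by decide +kernel)
              (CovZ.leaf K2_ok TE_l7045 _)
              (CovZ.leaf K2_ok TE_l7046 _)))
            (CovZ.badM (by decide +kernel))))
          (CovZ.badM (by decide +kernel)))))
       (CovZ.n1 (4160, 18880) (by decide +kernel)
        (CovZ.n2 (4160, 19200) (by decide +kernel)
         (CovZ.n2 (4320, 19040) (by decide +kernel)
          (CovZ.n2 (4160, 19040) (by decide +kernel)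
           (CovZ.n2 (4240, 19120) (by decide +kernel)
            (CovZ.leaf K2_ok TE_l7049 _)
            (CovZ.leaf K2_ok TE_l7050 _))
           (CovZ.n1 (4240, 18960) (by decide +kernel)
            (CovZ.n2 (4160, 18960) (by decide +kernel)
             (CovZ.leaf K2_ok TE_l7051 _)
             (CovZ.leaf K2_ok TE_l7052 _))
            (CovZ.leaf K2_ok TE_l7053 _)))
          (CovZ.n1 (4320, 19200) (by decide +kernel)
           (CovZ.n2 (4400, 19120) (by decide +kernel)
            (CovZ.n2 (4320, 19120) (by decide +kernel)
             (CovZ.leaf K2_ok TE_l7054 _)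
             (CovZ.leaf K2_ok TE_l7055 _))
            (CovZ.n1 (4400, 19200) (by decide +kernel)
             (CovZ.leaf K2_ok TE_l7056 _)
             (CovZ.leaf K2_ok TE_l7057 _)))
           (CovZ.n1 (4240, 19120) (by decide +kernel)
            (CovZ.leaf K2_ok TE_l7058 _)
            (CovZ.leaf K2_ok TE_l7059 _))))
         (CovZ.n1 (4000, 19040) (by decide +kernel)
          (CovZ.n2 (4000, 19200) (by decide +kernel)
           (CovZ.leaf K2_ok TE_l7060 _)
           (CovZ.leaf K2_ok TE_l7061 _))
          (CovZ.n1 (4160, 19040) (by decide +kernel)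
           (CovZ.n2 (4080, 18960) (by decide +kernel)
            (CovZ.leaf K2_ok TE_l7062 _)
            (CovZ.leaf K2_ok TE_l7063 _))
           (CovZ.leaf K2_ok TE_l7064 _))))
        (CovZ.n1 (4480, 18880) (by decide +kernel)
         (CovZ.subM 606824093048753738481824 (by decide +kernel)
          (CovZ.n2 (4320, 18720) (by decide +kernel)
           (CovZ.n2 (4320, 18880) (by decide +kernel)
            (CovZ.badM (by decide +kernel))
            (CovZ.n1 (4240, 18800) (by decide +kernel)
             (CovZ.n2 (4240, 18880) (by decide +kernel)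
              (CovZ.n2 (4280, 18840) (by decide +kernel)
               (CovZ.leaf K2_ok TE_l7065 _)
               (CovZ.leaf K2_ok TE_l7066 _))
              (CovZ.n1 (4200, 18840) (by decide +kernel)
               (CovZ.leaf K2_ok TE_l7067 _)
               (CovZ.leaf K2_ok TE_l7068 _)))
             (CovZ.badM (by decide +kernel))))
           (CovZ.badM (by decide +kernel))))
         (CovZ.n1 (4320, 19040) (by decide +kernel)
          (CovZ.n2 (4480, 19040) (by decide +kernel)
           (CovZ.n2 (4400, 18960) (by decide +kernel)
            (CovZ.n2 (4400, 19040) (by decide +kernel)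
             (CovZ.n2 (4440, 19000) (by decide +kernel)
              (CovZ.leaf K2_ok TE_l7071 _)
              (CovZ.leaf K2_ok TE_l7072 _))
             (CovZ.n1 (4360, 19000) (by decide +kernel)
              (CovZ.leaf K2_ok TE_l7073 _)
              (CovZ.leaf K2_ok TE_l7074 _)))
            (CovZ.badM (by decide +kernel)))
           (CovZ.n1 (4400, 19120) (by decide +kernel)
            (CovZ.n2 (4480, 19120) (by decide +kernel)
             (CovZ.n2 (4440, 19080) (by decide +kernel)
              (CovZ.leaf K2_ok TE_l7075 _)
              (CovZ.leaf K2_ok TE_l7076 _))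
             (CovZ.leaf K2_ok TE_l7077 _))
            (CovZ.n1 (4400, 19040) (by decide +kernel)
             (CovZ.leaf K2_ok TE_l7078 _)
             (CovZ.n1 (4440, 19080) (by decide +kernel)
              (CovZ.leaf K2_ok TE_l7079 _)
              (CovZ.leaf K2_ok TE_l7080 _)))))
          (CovZ.n1 (4320, 18880) (by decide +kernel)
           (CovZ.n2 (4240, 18960) (by decide +kernel)
            (CovZ.n2 (4320, 18960) (by decide +kernel)
             (CovZ.n2 (4280, 18920) (by decide +kernel)
              (CovZ.leaf K2_ok TE_l7081 _)
              (CovZ.leaf K2_ok TE_l7082 _))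
             (CovZ.leaf K2_ok TE_l7083 _))
            (CovZ.n1 (4240, 18880) (by decide +kernel)
             (CovZ.leaf K2_ok TE_l7084 _)
             (CovZ.leaf K2_ok TE_l7085 _)))
           (CovZ.n1 (4400, 18960) (by decide +kernel)
            (CovZ.badM (by decide +kernel))
            (CovZ.n1 (4320, 18960) (by decide +kernel)
             (CovZ.leaf K2_ok TE_l7086 _)
             (CovZ.n1 (4360, 18920) (by decide +kernel)
              (CovZ.leaf K2_ok TE_l7087 _)
              (CovZ.leaf K2_ok TE_l7088 _)))))))))
      (CovZ.badM (by decide +kernel)))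

theorem TE_u13 : CovZ TE_M (toL (selN TE_LN 2923003274662138144673967101453690902079688671392)) [0, 7, 6, 1] (5120, 19200) (5120, 20480) (3840, 19200) :=
    (CovZ.n1 (4480, 19840) (by decide +kernel)
      (CovZ.n2 (5120, 19840) (by decide +kernel)
       (CovZ.n2 (4800, 19520) (by decide +kernel)
        (CovZ.n2 (4800, 19840) (by decide +kernel)
         (CovZ.n2 (4960, 19680) (by decide +kernel)
          (CovZ.n2 (4800, 19680) (by decide +kernel)
           (CovZ.n2 (4880, 19760) (by decide +kernel)
            (CovZ.leaf K2_ok TE_l7089 _)
            (CovZ.leaf K2_ok TE_l7090 _))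
           (CovZ.n1 (4880, 19600) (by decide +kernel)
            (CovZ.n2 (4800, 19600) (by decide +kernel)
             (CovZ.leaf K2_ok TE_l7091 _)
             (CovZ.leaf K2_ok TE_l7092 _))
            (CovZ.leaf K2_ok TE_l7093 _)))
          (CovZ.n1 (4960, 19840) (by decide +kernel)
           (CovZ.n2 (5040, 19760) (by decide +kernel)
            (CovZ.n2 (4960, 19760) (by decide +kernel)
             (CovZ.leaf K2_ok TE_l7094 _)
             (CovZ.leaf K2_ok TE_l7095 _))
            (CovZ.leaf K2_ok TE_l7096 _))
           (CovZ.n1 (4880, 19760) (by decide +kernel)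
            (CovZ.leaf K2_ok TE_l7097 _)
            (CovZ.leaf K2_ok TE_l7098 _))))
         (CovZ.n1 (4640, 19680) (by decide +kernel)
          (CovZ.n2 (4640, 19840) (by decide +kernel)
           (CovZ.leaf K2_ok TE_l7099 _)
           (CovZ.leaf K2_ok TE_l7100 _))
          (CovZ.n1 (4800, 19680) (by decide +kernel)
           (CovZ.n2 (4720, 19600) (by decide +kernel)
            (CovZ.leaf K2_ok TE_l7101 _)
            (CovZ.leaf K2_ok TE_l7102 _))
           (CovZ.leaf K2_ok TE_l7103 _))))
        (CovZ.n1 (5120, 19520) (by decide +kernel)
         (CovZ.n2 (4960, 19360) (by decide +kernel)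
          (CovZ.n2 (4960, 19520) (by decide +kernel)
           (CovZ.badM (by decide +kernel))
           (CovZ.n1 (4880, 19440) (by decide +kernel)
            (CovZ.n2 (4880, 19520) (by decide +kernel)
             (CovZ.n2 (4920, 19480) (by decide +kernel)
              (CovZ.leaf K2_ok TE_l7104 _)
              (CovZ.leaf K2_ok TE_l7105 _))
             (CovZ.n1 (4840, 19480) (by decide +kernel)
              (CovZ.leaf K2_ok TE_l7106 _)
              (CovZ.leaf K2_ok TE_l7107 _)))
            (CovZ.badM (by decide +kernel))))
          (CovZ.badM (by decide +kernel)))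
         (CovZ.n1 (4960, 19680) (by decide +kernel)
          (CovZ.n2 (5120, 19680) (by decide +kernel)
           (CovZ.n2 (5040, 19600) (by decide +kernel)
            (CovZ.n2 (5040, 19680) (by decide +kernel)
             (CovZ.n2 (5080, 19640) (by decide +kernel)
              (CovZ.leaf K2_ok TE_l7108 _)
              (CovZ.leaf K2_ok TE_l7109 _))
             (CovZ.n1 (5000, 19640) (by decide +kernel)
              (CovZ.leaf K2_ok TE_l7110 _)
              (CovZ.leaf K2_ok TE_l7111 _)))
            (CovZ.badM (by decide +kernel)))
           (CovZ.n1 (5040, 19760) (by decide +kernel)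
            (CovZ.n2 (5120, 19760) (by decide +kernel)
             (CovZ.n2 (5080, 19720) (by decide +kernel)
              (CovZ.leaf K2_ok TE_l7114 _)
              (CovZ.leaf K2_ok TE_l7115 _))
             (CovZ.leaf K2_ok TE_l7116 _))
            (CovZ.n1 (5040, 19680) (by decide +kernel)
             (CovZ.leaf K2_ok TE_l7117 _)
             (CovZ.n1 (5080, 19720) (by decide +kernel)
              (CovZ.leaf K2_ok TE_l7118 _)
              (CovZ.leaf K2_ok TE_l7119 _)))))
          (CovZ.n1 (4960, 19520) (by decide +kernel)
           (CovZ.n2 (4880, 19600) (by decide +kernel)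
            (CovZ.n2 (4960, 19600) (by decide +kernel)
             (CovZ.n2 (4920, 19560) (by decide +kernel)
              (CovZ.leaf K2_ok TE_l7120 _)
              (CovZ.leaf K2_ok TE_l7121 _))
             (CovZ.leaf K2_ok TE_l7122 _))
            (CovZ.n1 (4880, 19520) (by decide +kernel)
             (CovZ.leaf K2_ok TE_l7123 _)
             (CovZ.leaf K2_ok TE_l7124 _)))
           (CovZ.n1 (5040, 19600) (by decide +kernel)
            (CovZ.badM (by decide +kernel))
            (CovZ.n1 (4960, 19600) (by decide +kernel)
             (CovZ.leaf K2_ok TE_l7125 _)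
             (CovZ.n1 (5000, 19560) (by decide +kernel)
              (CovZ.leaf K2_ok TE_l7126 _)
              (CovZ.leaf K2_ok TE_l7127 _))))))))
       (CovZ.n1 (4800, 20160) (by decide +kernel)
        (CovZ.n2 (5120, 20160) (by decide +kernel)
         (CovZ.n2 (4960, 20000) (by decide +kernel)
          (CovZ.n2 (4960, 20160) (by decide +kernel)
           (CovZ.leaf K2_ok TE_l7128 _)
           (CovZ.leaf K2_ok TE_l7129 _))
          (CovZ.n1 (5120, 20000) (by decide +kernel)
           (CovZ.n2 (5040, 19920) (by decide +kernel)
            (CovZ.leaf K2_ok TE_l7130 _)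
            (CovZ.leaf K2_ok TE_l7131 _))
           (CovZ.leaf K2_ok TE_l7132 _)))
         (CovZ.n1 (4960, 20320) (by decide +kernel)
          (CovZ.n2 (5120, 20320) (by decide +kernel)
           (CovZ.leaf K2_ok TE_l7133 _)
           (CovZ.leaf K2_ok TE_l7134 _))
          (CovZ.leaf K2_ok TE_l7135 _)))
        (CovZ.n1 (4800, 19840) (by decide +kernel)
         (CovZ.n2 (4640, 20000) (by decide +kernel)
          (CovZ.n2 (4800, 20000) (by decide +kernel)
           (CovZ.leaf K2_ok TE_l7136 _)
           (CovZ.leaf K2_ok TE_l7137 _))
          (CovZ.leaf K2_ok TE_l7138 _))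
         (CovZ.n1 (4960, 20000) (by decide +kernel)
          (CovZ.n2 (4960, 19840) (by decide +kernel)
           (CovZ.leaf K2_ok TE_l7139 _)
           (CovZ.n1 (5040, 19920) (by decide +kernel)
            (CovZ.leaf K2_ok TE_l7140 _)
            (CovZ.leaf K2_ok TE_l7141 _)))
          (CovZ.n1 (4800, 20000) (by decide +kernel)
           (CovZ.leaf K2_ok TE_l7142 _)
           (CovZ.leaf K2_ok TE_l7143 _))))))
      (CovZ.n1 (4480, 19200) (by decide +kernel)
       (CovZ.n2 (4160, 19520) (by decide +kernel)
        (CovZ.n2 (4480, 19520) (by decide +kernel)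
         (CovZ.n2 (4320, 19360) (by decide +kernel)
          (CovZ.n2 (4320, 19520) (by decide +kernel)
           (CovZ.leaf K2_ok TE_l7144 _)
           (CovZ.leaf K2_ok TE_l7145 _))
          (CovZ.n1 (4480, 19360) (by decide +kernel)
           (CovZ.n2 (4400, 19280) (by decide +kernel)
            (CovZ.leaf K2_ok TE_l7146 _)
            (CovZ.leaf K2_ok TE_l7147 _))
           (CovZ.leaf K2_ok TE_l7148 _)))
         (CovZ.n1 (4320, 19680) (by decide +kernel)
          (CovZ.n2 (4480, 19680) (by decide +kernel)
           (CovZ.leaf K2_ok TE_l7149 _)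
           (CovZ.leaf K2_ok TE_l7150 _))
          (CovZ.leaf K2_ok TE_l7151 _)))
        (CovZ.n1 (4160, 19200) (by decide +kernel)
         (CovZ.n2 (4000, 19360) (by decide +kernel)
          (CovZ.n2 (4160, 19360) (by decide +kernel)
           (CovZ.leaf K2_ok TE_l7152 _)
           (CovZ.leaf K2_ok TE_l7153 _))
          (CovZ.leaf K2_ok TE_l7154 _))
         (CovZ.n1 (4320, 19360) (by decide +kernel)
          (CovZ.n2 (4320, 19200) (by decide +kernel)
           (CovZ.leaf K2_ok TE_l7155 _)
           (CovZ.n1 (4400, 19280) (by decide +kernel)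
            (CovZ.leaf K2_ok TE_l7156 _)
            (CovZ.leaf K2_ok TE_l7157 _)))
          (CovZ.n1 (4160, 19360) (by decide +kernel)
           (CovZ.leaf K2_ok TE_l7158 _)
           (CovZ.leaf K2_ok TE_l7159 _)))))
       (CovZ.n1 (4800, 19520) (by decide +kernel)
        (CovZ.n2 (4800, 19200) (by decide +kernel)
         (CovZ.n2 (4640, 19360) (by decide +kernel)
          (CovZ.n2 (4800, 19360) (by decide +kernel)
           (CovZ.n2 (4720, 19280) (by decide +kernel)
            (CovZ.n2 (4720, 19360) (by decide +kernel)
             (CovZ.n2 (4760, 19320) (by decide +kernel)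
              (CovZ.leaf K2_ok TE_l7160 _)
              (CovZ.leaf K2_ok TE_l7161 _))
             (CovZ.n1 (4680, 19320) (by decide +kernel)
              (CovZ.leaf K2_ok TE_l7162 _)
              (CovZ.leaf K2_ok TE_l7163 _)))
            (CovZ.badM (by decide +kernel)))
           (CovZ.n1 (4720, 19440) (by decide +kernel)
            (CovZ.n2 (4800, 19440) (by decide +kernel)
             (CovZ.n2 (4760, 19400) (by decide +kernel)
              (CovZ.leaf K2_ok TE_l7164 _)
              (CovZ.leaf K2_ok TE_l7165 _))
             (CovZ.leaf K2_ok TE_l7166 _))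
            (CovZ.n1 (4720, 19360) (by decide +kernel)
             (CovZ.leaf K2_ok TE_l7167 _)
             (CovZ.leaf K2_ok TE_l7168 _))))
          (CovZ.n1 (4640, 19200) (by decide +kernel)
           (CovZ.n2 (4560, 19280) (by decide +kernel)
            (CovZ.n2 (4640, 19280) (by decide +kernel)
             (CovZ.n2 (4600, 19240) (by decide +kernel)
              (CovZ.leaf K2_ok TE_l7169 _)
              (CovZ.leaf K2_ok TE_l7170 _))
             (CovZ.leaf K2_ok TE_l7171 _))
            (CovZ.n1 (4560, 19200) (by decide +kernel)
             (CovZ.leaf K2_ok TE_l7172 _)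
             (CovZ.n1 (4600, 19240) (by decide +kernel)
              (CovZ.leaf K2_ok TE_l7173 _)
              (CovZ.leaf K2_ok TE_l7174 _))))
           (CovZ.n1 (4720, 19280) (by decide +kernel)
            (CovZ.badM (by decide +kernel))
            (CovZ.n1 (4640, 19280) (by decide +kernel)
             (CovZ.n2 (4680, 19320) (by decide +kernel)
              (CovZ.leaf K2_ok TE_l7175 _)
              (CovZ.leaf K2_ok TE_l7176 _))
             (CovZ.n1 (4680, 19240) (by decide +kernel)
              (CovZ.leaf K2_ok TE_l7177 _)
              (CovZ.leaf K2_ok TE_l7178 _))))))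
         (CovZ.n1 (4960, 19360) (by decide +kernel)
          (CovZ.badM (by decide +kernel))
          (CovZ.n1 (4800, 19360) (by decide +kernel)
           (CovZ.n2 (4880, 19440) (by decide +kernel)
            (CovZ.badM (by decide +kernel))
            (CovZ.n1 (4800, 19440) (by decide +kernel)
             (CovZ.leaf K2_ok TE_l7179 _)
             (CovZ.n1 (4840, 19400) (by decide +kernel)
              (CovZ.leaf K2_ok TE_l7180 _)
              (CovZ.leaf K2_ok TE_l7181 _))))
           (CovZ.badM (by decide +kernel)))))
        (CovZ.n1 (4480, 19520) (by decide +kernel)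
         (CovZ.n2 (4640, 19680) (by decide +kernel)
          (CovZ.n2 (4640, 19520) (by decide +kernel)
           (CovZ.leaf K2_ok TE_l7182 _)
           (CovZ.n1 (4720, 19600) (by decide +kernel)
            (CovZ.leaf K2_ok TE_l7183 _)
            (CovZ.leaf K2_ok TE_l7184 _)))
          (CovZ.n1 (4480, 19680) (by decide +kernel)
           (CovZ.leaf K2_ok TE_l7185 _)
           (CovZ.leaf K2_ok TE_l7186 _)))
         (CovZ.n1 (4640, 19360) (by decide +kernel)
          (CovZ.n2 (4480, 19360) (by decide +kernel)
           (CovZ.n2 (4560, 19440) (by decide +kernel)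
            (CovZ.leaf K2_ok TE_l7187 _)
            (CovZ.leaf K2_ok TE_l7188 _))
           (CovZ.n1 (4560, 19280) (by decide +kernel)
            (CovZ.n2 (4480, 19280) (by decide +kernel)
             (CovZ.leaf K2_ok TE_l7189 _)
             (CovZ.leaf K2_ok TE_l7190 _))
            (CovZ.leaf K2_ok TE_l7191 _)))
          (CovZ.n1 (4640, 19520) (by decide +kernel)
           (CovZ.n2 (4720, 19440) (by decide +kernel)
            (CovZ.n2 (4640, 19440) (by decide +kernel)
             (CovZ.leaf K2_ok TE_l7192 _)
             (CovZ.leaf K2_ok TE_l7193 _))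
            (CovZ.leaf K2_ok TE_l7194 _))
           (CovZ.n1 (4560, 19440) (by decide +kernel)
            (CovZ.leaf K2_ok TE_l7195 _)
            (CovZ.leaf K2_ok TE_l7196 _))))))))

theorem TE_u14 : CovZ TE_M (toL (selN TE_LN 606824093048753746870304)) [0, 7, 6, 1] (3840, 19200) (3200, 18560) (3840, 17920) :=
    (CovZ.n2 (3840, 18560) (by decide +kernel)
        (CovZ.n2 (3520, 18240) (by decide +kernel)
         (CovZ.n2 (3520, 18560) (by decide +kernel)
          (CovZ.n2 (3680, 18400) (by decide +kernel)
           (CovZ.n2 (3520, 18400) (by decide +kernel)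
            (CovZ.n2 (3600, 18480) (by decide +kernel)
             (CovZ.leaf K2_ok TE_l7197 _)
             (CovZ.leaf K2_ok TE_l7198 _))
            (CovZ.n1 (3600, 18320) (by decide +kernel)
             (CovZ.n2 (3520, 18320) (by decide +kernel)
              (CovZ.leaf K2_ok TE_l7199 _)
              (CovZ.leaf K2_ok TE_l7200 _))
             (CovZ.n1 (3600, 18400) (by decide +kernel)
              (CovZ.leaf K2_ok TE_l7201 _)
              (CovZ.leaf K2_ok TE_l7202 _))))
           (CovZ.n1 (3680, 18560) (by decide +kernel)
            (CovZ.n2 (3760, 18480) (by decide +kernel)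
             (CovZ.n2 (3680, 18480) (by decide +kernel)
              (CovZ.leaf K2_ok TE_l7203 _)
              (CovZ.leaf K2_ok TE_l7204 _))
             (CovZ.leaf K2_ok TE_l7205 _))
            (CovZ.n1 (3600, 18480) (by decide +kernel)
             (CovZ.leaf K2_ok TE_l7206 _)
             (CovZ.n1 (3680, 18480) (by decide +kernel)
              (CovZ.leaf K2_ok TE_l7207 _)
              (CovZ.leaf K2_ok TE_l7208 _)))))
          (CovZ.n1 (3360, 18400) (by decide +kernel)
           (CovZ.n2 (3360, 18560) (by decide +kernel)
            (CovZ.leaf K2_ok TE_l7209 _)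
            (CovZ.n1 (3280, 18480) (by decide +kernel)
             (CovZ.leaf K2_ok TE_l7210 _)
             (CovZ.leaf K2_ok TE_l7211 _)))
           (CovZ.n1 (3520, 18400) (by decide +kernel)
            (CovZ.n2 (3440, 18320) (by decide +kernel)
             (CovZ.leaf K2_ok TE_l7212 _)
             (CovZ.n1 (3520, 18320) (by decide +kernel)
              (CovZ.leaf K2_ok TE_l7213 _)
              (CovZ.leaf K2_ok TE_l7214 _)))
            (CovZ.leaf K2_ok TE_l7215 _))))
         (CovZ.n1 (3840, 18240) (by decide +kernel)
          (CovZ.n2 (3680, 18080) (by decide +kernel)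
           (CovZ.n2 (3680, 18240) (by decide +kernel)
            (CovZ.badM (by decide +kernel))
            (CovZ.n1 (3600, 18160) (by decide +kernel)
             (CovZ.n2 (3600, 18240) (by decide +kernel)
              (CovZ.n2 (3640, 18200) (by decide +kernel)
               (CovZ.leaf K2_ok TE_l7216 _)
               (CovZ.leaf K2_ok TE_l7217 _))
              (CovZ.n1 (3560, 18200) (by decide +kernel)
               (CovZ.leaf K2_ok TE_l7218 _)
               (CovZ.leaf K2_ok TE_l7219 _)))
             (CovZ.badM (by decide +kernel))))
           (CovZ.badM (by decide +kernel)))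
          (CovZ.n1 (3680, 18400) (by decide +kernel)
           (CovZ.n2 (3840, 18400) (by decide +kernel)
            (CovZ.n2 (3760, 18320) (by decide +kernel)
             (CovZ.n2 (3760, 18400) (by decide +kernel)
              (CovZ.n2 (3800, 18360) (by decide +kernel)
               (CovZ.leaf K2_ok TE_l7220 _)
               (CovZ.leaf K2_ok TE_l7221 _))
              (CovZ.n1 (3720, 18360) (by decide +kernel)
               (CovZ.leaf K2_ok TE_l7222 _)
               (CovZ.leaf K2_ok TE_l7223 _)))
             (CovZ.badM (by decide +kernel)))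
            (CovZ.n1 (3760, 18480) (by decide +kernel)
             (CovZ.n2 (3840, 18480) (by decide +kernel)
              (CovZ.n2 (3800, 18440) (by decide +kernel)
               (CovZ.leaf K2_ok TE_l7224 _)
               (CovZ.leaf K2_ok TE_l7225 _))
              (CovZ.leaf K2_ok TE_l7226 _))
             (CovZ.n1 (3760, 18400) (by decide +kernel)
              (CovZ.leaf K2_ok TE_l7227 _)
              (CovZ.n1 (3800, 18440) (by decide +kernel)
               (CovZ.leaf K2_ok TE_l7228 _)
               (CovZ.leaf K2_ok TE_l7229 _)))))
           (CovZ.n1 (3680, 18240) (by decide +kernel)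
            (CovZ.n2 (3600, 18320) (by decide +kernel)
             (CovZ.n2 (3680, 18320) (by decide +kernel)
              (CovZ.n2 (3640, 18280) (by decide +kernel)
               (CovZ.leaf K2_ok TE_l7230 _)
               (CovZ.leaf K2_ok TE_l7231 _))
              (CovZ.leaf K2_ok TE_l7232 _))
             (CovZ.n1 (3600, 18240) (by decide +kernel)
              (CovZ.leaf K2_ok TE_l7233 _)
              (CovZ.n1 (3640, 18280) (by decide +kernel)
               (CovZ.leaf K2_ok TE_l7234 _)
               (CovZ.leaf K2_ok TE_l7235 _))))
            (CovZ.n1 (3760, 18320) (by decide +kernel)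
             (CovZ.badM (by decide +kernel))
             (CovZ.n1 (3680, 18320) (by decide +kernel)
              (CovZ.n2 (3720, 18360) (by decide +kernel)
               (CovZ.leaf K2_ok TE_l7236 _)
               (CovZ.leaf K2_ok TE_l7237 _))
              (CovZ.n1 (3720, 18280) (by decide +kernel)
               (CovZ.leaf K2_ok TE_l7238 _)
               (CovZ.leaf K2_ok TE_l7239 _))))))))
        (CovZ.n1 (3520, 18880) (by decide +kernel)
         (CovZ.n2 (3840, 18880) (by decide +kernel)
          (CovZ.n2 (3680, 18720) (by decide +kernel)
           (CovZ.n2 (3680, 18880) (by decide +kernel)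
            (CovZ.leaf K2_ok TE_l7240 _)
            (CovZ.n1 (3600, 18800) (by decide +kernel)
             (CovZ.leaf K2_ok TE_l7241 _)
             (CovZ.leaf K2_ok TE_l7242 _)))
           (CovZ.n1 (3840, 18720) (by decide +kernel)
            (CovZ.n2 (3760, 18640) (by decide +kernel)
             (CovZ.leaf K2_ok TE_l7243 _)
             (CovZ.leaf K2_ok TE_l7244 _))
            (CovZ.leaf K2_ok TE_l7245 _)))
          (CovZ.n1 (3680, 19040) (by decide +kernel)
           (CovZ.n2 (3840, 19040) (by decide +kernel)
            (CovZ.n2 (3760, 18960) (by decide +kernel)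
             (CovZ.leaf K2_ok TE_l7246 _)
             (CovZ.leaf K2_ok TE_l7247 _))
            (CovZ.leaf K2_ok TE_l7248 _))
           (CovZ.leaf K2_ok TE_l7249 _)))
         (CovZ.n1 (3520, 18560) (by decide +kernel)
          (CovZ.n2 (3360, 18720) (by decide +kernel)
           (CovZ.n2 (3520, 18720) (by decide +kernel)
            (CovZ.n2 (3440, 18640) (by decide +kernel)
             (CovZ.leaf K2_ok TE_l7250 _)
             (CovZ.leaf K2_ok TE_l7251 _))
            (CovZ.leaf K2_ok TE_l7252 _))
           (CovZ.leaf K2_ok TE_l7253 _))
          (CovZ.n1 (3680, 18720) (by decide +kernel)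
           (CovZ.n2 (3680, 18560) (by decide +kernel)
            (CovZ.leaf K2_ok TE_l7254 _)
            (CovZ.n1 (3760, 18640) (by decide +kernel)
             (CovZ.leaf K2_ok TE_l7255 _)
             (CovZ.leaf K2_ok TE_l7256 _)))
           (CovZ.n1 (3520, 18720) (by decide +kernel)
            (CovZ.leaf K2_ok TE_l7257 _)
            (CovZ.leaf K2_ok TE_l7258 _))))))

theorem TE_u15 : CovZ TE_M (toL (selN TE_LN 606824093048753746870304)) [0, 7, 6, 1] (3200, 18560) (2560, 17920) (3840, 17920) :=
    (CovZ.n1 (3200, 17920) (by decide +kernel)
        (CovZ.n2 (2880, 18240) (by decide +kernel)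
         (CovZ.n2 (3200, 18240) (by decide +kernel)
          (CovZ.n2 (3040, 18080) (by decide +kernel)
           (CovZ.n2 (3040, 18240) (by decide +kernel)
            (CovZ.leaf K2_ok TE_l7259 _)
            (CovZ.n1 (2960, 18160) (by decide +kernel)
             (CovZ.leaf K2_ok TE_l7260 _)
             (CovZ.leaf K2_ok TE_l7261 _)))
           (CovZ.n1 (3200, 18080) (by decide +kernel)
            (CovZ.n2 (3120, 18000) (by decide +kernel)
             (CovZ.leaf K2_ok TE_l7262 _)
             (CovZ.leaf K2_ok TE_l7263 _))
            (CovZ.leaf K2_ok TE_l7264 _)))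
          (CovZ.n1 (3040, 18400) (by decide +kernel)
           (CovZ.n2 (3200, 18400) (by decide +kernel)
            (CovZ.n2 (3120, 18320) (by decide +kernel)
             (CovZ.leaf K2_ok TE_l7265 _)
             (CovZ.leaf K2_ok TE_l7266 _))
            (CovZ.leaf K2_ok TE_l7267 _))
           (CovZ.leaf K2_ok TE_l7268 _)))
         (CovZ.n1 (2880, 17920) (by decide +kernel)
          (CovZ.subM 2361183241439151128576 (by decide +kernel)
           (CovZ.n2 (2720, 18080) (by decide +kernel)
            (CovZ.n2 (2880, 18080) (by decide +kernel)
             (CovZ.n2 (2800, 18000) (by decide +kernel)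
              (CovZ.leaf K2_ok TE_l7269 _)
              (CovZ.leaf K2_ok TE_l7270 _))
             (CovZ.leaf K2_ok TE_l7271 _))
            (CovZ.leaf K2_ok TE_l7272 _)))
          (CovZ.n1 (3040, 18080) (by decide +kernel)
           (CovZ.n2 (3040, 17920) (by decide +kernel)
            (CovZ.leaf K2_ok TE_l7273 _)
            (CovZ.n1 (3120, 18000) (by decide +kernel)
             (CovZ.leaf K2_ok TE_l7274 _)
             (CovZ.leaf K2_ok TE_l7275 _)))
           (CovZ.n1 (2880, 18080) (by decide +kernel)
            (CovZ.leaf K2_ok TE_l7276 _)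
            (CovZ.leaf K2_ok TE_l7277 _)))))
        (CovZ.n1 (3520, 18240) (by decide +kernel)
         (CovZ.n2 (3520, 17920) (by decide +kernel)
          (CovZ.n2 (3360, 18080) (by decide +kernel)
           (CovZ.n2 (3520, 18080) (by decide +kernel)
            (CovZ.n2 (3440, 18000) (by decide +kernel)
             (CovZ.n2 (3440, 18080) (by decide +kernel)
              (CovZ.n2 (3480, 18040) (by decide +kernel)
               (CovZ.leaf K2_ok TE_l7278 _)
               (CovZ.leaf K2_ok TE_l7279 _))
              (CovZ.n1 (3400, 18040) (by decide +kernel)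
               (CovZ.leaf K2_ok TE_l7280 _)
               (CovZ.leaf K2_ok TE_l7281 _)))
             (CovZ.badM (by decide +kernel)))
            (CovZ.n1 (3440, 18160) (by decide +kernel)
             (CovZ.n2 (3520, 18160) (by decide +kernel)
              (CovZ.n2 (3480, 18120) (by decide +kernel)
               (CovZ.leaf K2_ok TE_l7282 _)
               (CovZ.leaf K2_ok TE_l7283 _))
              (CovZ.leaf K2_ok TE_l7284 _))
             (CovZ.n1 (3440, 18080) (by decide +kernel)
              (CovZ.leaf K2_ok TE_l7285 _)
              (CovZ.n1 (3480, 18120) (by decide +kernel)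
               (CovZ.leaf K2_ok TE_l7286 _)
               (CovZ.leaf K2_ok TE_l7287 _)))))
           (CovZ.n1 (3360, 17920) (by decide +kernel)
            (CovZ.n2 (3280, 18000) (by decide +kernel)
             (CovZ.n2 (3360, 18000) (by decide +kernel)
              (CovZ.n2 (3320, 17960) (by decide +kernel)
               (CovZ.leaf K2_ok TE_l7288 _)
               (CovZ.leaf K2_ok TE_l7289 _))
              (CovZ.leaf K2_ok TE_l7290 _))
             (CovZ.n1 (3280, 17920) (by decide +kernel)
              (CovZ.leaf K2_ok TE_l7291 _)
              (CovZ.leaf K2_ok TE_l7292 _)))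
            (CovZ.n1 (3440, 18000) (by decide +kernel)
             (CovZ.badM (by decide +kernel))
             (CovZ.n1 (3360, 18000) (by decide +kernel)
              (CovZ.n2 (3400, 18040) (by decide +kernel)
               (CovZ.leaf K2_ok TE_l7293 _)
               (CovZ.leaf K2_ok TE_l7294 _))
              (CovZ.n1 (3400, 17960) (by decide +kernel)
               (CovZ.leaf K2_ok TE_l7295 _)
               (CovZ.leaf K2_ok TE_l7296 _))))))
          (CovZ.n1 (3680, 18080) (by decide +kernel)
           (CovZ.badM (by decide +kernel))
           (CovZ.n1 (3520, 18080) (by decide +kernel)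
            (CovZ.n2 (3600, 18160) (by decide +kernel)
             (CovZ.badM (by decide +kernel))
             (CovZ.n1 (3520, 18160) (by decide +kernel)
              (CovZ.n2 (3560, 18200) (by decide +kernel)
               (CovZ.leaf K2_ok TE_l7297 _)
               (CovZ.leaf K2_ok TE_l7298 _))
              (CovZ.n1 (3560, 18120) (by decide +kernel)
               (CovZ.leaf K2_ok TE_l7299 _)
               (CovZ.leaf K2_ok TE_l7300 _))))
            (CovZ.badM (by decide +kernel)))))
         (CovZ.n1 (3200, 18240) (by decide +kernel)
          (CovZ.n2 (3360, 18400) (by decide +kernel)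
           (CovZ.n2 (3360, 18240) (by decide +kernel)
            (CovZ.leaf K2_ok TE_l7301 _)
            (CovZ.n1 (3440, 18320) (by decide +kernel)
             (CovZ.leaf K2_ok TE_l7302 _)
             (CovZ.leaf K2_ok TE_l7303 _)))
           (CovZ.n1 (3200, 18400) (by decide +kernel)
            (CovZ.leaf K2_ok TE_l7304 _)
            (CovZ.leaf K2_ok TE_l7305 _)))
          (CovZ.n1 (3360, 18080) (by decide +kernel)
           (CovZ.n2 (3200, 18080) (by decide +kernel)
            (CovZ.n2 (3280, 18160) (by decide +kernel)
             (CovZ.leaf K2_ok TE_l7306 _)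
             (CovZ.leaf K2_ok TE_l7307 _))
            (CovZ.n1 (3280, 18000) (by decide +kernel)
             (CovZ.n2 (3200, 18000) (by decide +kernel)
              (CovZ.leaf K2_ok TE_l7308 _)
              (CovZ.leaf K2_ok TE_l7309 _))
             (CovZ.leaf K2_ok TE_l7310 _)))
           (CovZ.n1 (3360, 18240) (by decide +kernel)
            (CovZ.n2 (3440, 18160) (by decide +kernel)
             (CovZ.n2 (3360, 18160) (by decide +kernel)
              (CovZ.leaf K2_ok TE_l7311 _)
              (CovZ.leaf K2_ok TE_l7312 _))
             (CovZ.n1 (3440, 18240) (by decide +kernel)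
              (CovZ.leaf K2_ok TE_l7313 _)
              (CovZ.leaf K2_ok TE_l7314 _)))
            (CovZ.n1 (3280, 18160) (by decide +kernel)
             (CovZ.leaf K2_ok TE_l7315 _)
             (CovZ.n1 (3360, 18160) (by decide +kernel)
              (CovZ.leaf K2_ok TE_l7316 _)
              (CovZ.leaf K2_ok TE_l7317 _))))))))

end Pool.Agent.TET
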