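import Pool.Agent.Helper38_TET.TF_M

/-!
# MP_c7c9bf_co: certificates, family TF
-/

set_option autoImplicit false
set_option maxRecDepth 100000

namespace Pool.Agent.TET

theorem TF_l15803 : chkZ K2 [0, 7, 4, 3] (uc [0,7,4,3] [[3,4,8,5],[0,3,5,8],[0,0,7,5],[0,0,0,7]] 7898826177628769131715378195503881116077129381254251537025184274615256775391476628868451172293267136930502003473006940970687305320089426925599283113223635973771128081854738138681929878156591251272180599365707247858571874763141465956244961760663841866596370568385465737165896974037621986443705467621619643084268195914679172757149070872423516929147993894905851280280088822425903314611321493829105820507905741460599026093721537137265581887834734232887747746897400279337024264405780200871529062456034589258575941424595814522811606078034190064056773461462901274614821894997972601008917727555000542080352555491601499170573840847978961829945099248135730006004114772492294383760041728668210344241000081227810736940287755539143974356870090956318850014785356117940692240681296793691064253079209274615675167212222117986683187737169356890740428589758420977086078083974089123926851637432400104450091158961374288156679048727710728422334390164896072621874434841095755965987209048639153547656264577067007895504397541117282548677966271928109133686900947064273587086800861760739483682563134247175900044949665689379567803940168721347427129838209291364813774899592831355317919353400300145160422636366274383232707041513798530483045901064331771942944673808528717842721048027175377738135225549384548939176351375134391617589129182674358897693)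 TF_M (26080, 6240) (25920, 6080) (26240, 6080) = true := by decide +kernel

end Pool.Agent.TET
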