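import Pool.Agent.Helper38_TET.TF_M
import Pool.Agent.Helper38_TET.TF_L
import Pool.Agent.Helper38_TET.TF_35
import Pool.Agent.Helper38_TET.TF_37
import Pool.Agent.Helper38_TET.TF_39
import Pool.Agent.Helper38_TET.TF_40
import Pool.Agent.Helper38_TET.TF_42
import Pool.Agent.Helper38_TET.TF_91
import Pool.Agent.Helper38_TET.TF_93
import Pool.Agent.Helper38_TET.TF_94
import Pool.Agent.Helper38_TET.TF_95
import Pool.Agent.Helper38_TET.TF_96
import Pool.Agent.Helper38_TET.TF_97
import Pool.Agent.Helper38_TET.TF_98

/-!
# MP_c7c9bf_co: certificates, family TF
-/

set_option autoImplicit false
set_option maxRecDepth 100000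

namespace Pool.Agent.TET

theorem TF_u0 : CovZ TF_M (toL (selN TF_LN 103679783673699393722931439366085542184)) [0, 7, 4, 3] (14080, -6400) (14720, -6400) (14720, -5760) :=
    (CovZ.subM 10633823966279326983230456482242756864 (by decide +kernel)
        (CovZ.n2 (14400, -6080) (by decide +kernel)
         (CovZ.n2 (14720, -6080) (by decide +kernel)
          (CovZ.n2 (14560, -6240) (by decide +kernel)
           (CovZ.n2 (14560, -6080) (by decide +kernel)
            (CovZ.badM (by decide +kernel))
            (CovZ.badM (by decide +kernel)))
           (CovZ.badM (by decide +kernel)))
          (CovZ.n1 (14560, -5920) (by decide +kernel)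
           (CovZ.n2 (14720, -5920) (by decide +kernel)
            (CovZ.n2 (14640, -6000) (by decide +kernel)
             (CovZ.n2 (14640, -5920) (by decide +kernel)
              (CovZ.n2 (14680, -5960) (by decide +kernel)
               (CovZ.leaf K2_ok TF_l13618 _)
               (CovZ.leaf K2_ok TF_l13619 _))
              (CovZ.n1 (14600, -5960) (by decide +kernel)
               (CovZ.leaf K2_ok TF_l13620 _)
               (CovZ.n1 (14640, -5960) (by decide +kernel)
                (CovZ.leaf K2_ok TF_l13621 _)
                (CovZ.leaf K2_ok TF_l13622 _))))
             (CovZ.n1 (14720, -6000) (by decide +kernel)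
              (CovZ.badM (by decide +kernel))
              (CovZ.n1 (14680, -5960) (by decide +kernel)
               (CovZ.leaf K2_ok TF_l13623 _)
               (CovZ.leaf K2_ok TF_l13624 _))))
            (CovZ.n1 (14640, -5840) (by decide +kernel)
             (CovZ.n2 (14720, -5840) (by decide +kernel)
              (CovZ.leaf K2_ok TF_l13625 _)
              (CovZ.leaf K2_ok TF_l13626 _))
             (CovZ.n1 (14640, -5920) (by decide +kernel)
              (CovZ.leaf K2_ok TF_l13627 _)
              (CovZ.leaf K2_ok TF_l13628 _))))
           (CovZ.n1 (14560, -6080) (by decide +kernel)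
            (CovZ.badM (by decide +kernel))
            (CovZ.n1 (14640, -6000) (by decide +kernel)
             (CovZ.badM (by decide +kernel))
             (CovZ.n1 (14560, -6000) (by decide +kernel)
              (CovZ.n2 (14600, -5960) (by decide +kernel)
               (CovZ.n2 (14600, -6000) (by decide +kernel)
                (CovZ.badM (by decide +kernel))
                (CovZ.leaf K2_ok TF_l13629 _))
               (CovZ.badM (by decide +kernel)))
              (CovZ.n1 (14600, -6040) (by decide +kernel)
               (CovZ.badM (by decide +kernel))
               (CovZ.n1 (14600, -6000) (by decide +kernel)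
                (CovZ.n2 (14620, -6020) (by decide +kernel)
                 (CovZ.leaf K2_ok TF_l13630 _)
                 (CovZ.leaf K2_ok TF_l13631 _))
                (CovZ.badM (by decide +kernel)))))))))
         (CovZ.n1 (14400, -6400) (by decide +kernel)
          (CovZ.badM (by decide +kernel))
          (CovZ.n1 (14560, -6240) (by decide +kernel)
           (CovZ.badM (by decide +kernel))
           (CovZ.badM (by decide +kernel))))))

theorem TF_u1 : CovZ TF_M (toL (selN TF_LN 103679783673699393722931439366085542184)) [0, 7, 4, 3] (14720, -6400) (15360, -6400) (14720, -5760) :=
    (CovZ.n1 (15040, -6080) (by decide +kernel)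
        (CovZ.n2 (15040, -6400) (by decide +kernel)
         (CovZ.subM 10633823966279326983230456482242756608 (by decide +kernel)
          (CovZ.n2 (14880, -6240) (by decide +kernel)
           (CovZ.n2 (15040, -6240) (by decide +kernel)
            (CovZ.badM (by decide +kernel))
            (CovZ.n1 (14960, -6160) (by decide +kernel)
             (CovZ.n2 (15040, -6160) (by decide +kernel)
              (CovZ.n2 (15000, -6200) (by decide +kernel)
               (CovZ.badM (by decide +kernel))
               (CovZ.n1 (15040, -6200) (by decide +kernel)
                (CovZ.badM (by decide +kernel))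
                (CovZ.badM (by decide +kernel))))
              (CovZ.badM (by decide +kernel)))
             (CovZ.badM (by decide +kernel))))
           (CovZ.badM (by decide +kernel))))
         (CovZ.n1 (15200, -6240) (by decide +kernel)
          (CovZ.subM 103679783671223513644360676617264037888 (by decide +kernel)
           (CovZ.n2 (15200, -6400) (by decide +kernel)
            (CovZ.n2 (15120, -6320) (by decide +kernel)
             (CovZ.n2 (15200, -6320) (by decide +kernel)
              (CovZ.subM 15950735949418990474845684724437876736 (by decide +kernel)
               (CovZ.n2 (15160, -6360) (by decide +kernel)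
                (CovZ.n2 (15160, -6320) (by decide +kernel)
                 (CovZ.n2 (15180, -6340) (by decide +kernel)
                  (CovZ.badM (by decide +kernel))
                  (CovZ.leaf K2_ok TF_l13632 _))
                 (CovZ.badM (by decide +kernel)))
                (CovZ.n1 (15200, -6360) (by decide +kernel)
                 (CovZ.badM (by decide +kernel))
                 (CovZ.n1 (15180, -6340) (by decide +kernel)
                  (CovZ.leaf K2_ok TF_l13633 _)
                  (CovZ.badM (by decide +kernel))))))
              (CovZ.n1 (15160, -6280) (by decide +kernel)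
               (CovZ.leaf K2_ok TF_l5272 _)
               (CovZ.n1 (15160, -6320) (by decide +kernel)
                (CovZ.n2 (15140, -6300) (by decide +kernel)
                 (CovZ.leaf K2_ok TF_l13634 _)
                 (CovZ.badM (by decide +kernel)))
                (CovZ.leaf K2_ok TF_l13635 _))))
             (CovZ.badM (by decide +kernel)))
            (CovZ.n1 (15280, -6320) (by decide +kernel)
             (CovZ.n2 (15280, -6400) (by decide +kernel)
              (CovZ.n2 (15240, -6360) (by decide +kernel)
               (CovZ.n2 (15280, -6360) (by decide +kernel)
                (CovZ.leaf K2_ok TF_l13636 _)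
                (CovZ.leaf K2_ok TF_l5273 _))
               (CovZ.n1 (15240, -6400) (by decide +kernel)
                (CovZ.n2 (15220, -6380) (by decide +kernel)
                 (CovZ.leaf K2_ok TF_l13637 _)
                 (CovZ.n1 (15220, -6400) (by decide +kernel)
                  (CovZ.badM (by decide +kernel))
                  (CovZ.leaf K2_ok TF_l13638 _)))
                (CovZ.leaf K2_ok TF_l13639 _)))
              (CovZ.leaf K2_ok TF_l5274 _))
             (CovZ.n1 (15200, -6320) (by decide +kernel)
              (CovZ.leaf K2_ok TF_l5275 _)
              (CovZ.n1 (15240, -6360) (by decide +kernel)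
               (CovZ.n2 (15200, -6360) (by decide +kernel)
                (CovZ.leaf K2_ok TF_l13640 _)
                (CovZ.n1 (15220, -6380) (by decide +kernel)
                 (CovZ.n2 (15200, -6380) (by decide +kernel)
                  (CovZ.leaf K2_ok TF_l13641 _)
                  (CovZ.badM (by decide +kernel)))
                 (CovZ.leaf K2_ok TF_l13642 _)))
               (CovZ.leaf K2_ok TF_l5276 _))))))
          (CovZ.subM 101021327679653681898553064695726604288 (by decide +kernel)
           (CovZ.n1 (15040, -6240) (by decide +kernel)
            (CovZ.n2 (15120, -6160) (by decide +kernel)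
             (CovZ.n2 (15120, -6240) (by decide +kernel)
              (CovZ.subM 10633823966279326983230458682339753984 (by decide +kernel)
               (CovZ.n2 (15080, -6200) (by decide +kernel)
                (CovZ.leaf K2_ok TF_l5277 _)
                (CovZ.n1 (15080, -6240) (by decide +kernel)
                 (CovZ.n2 (15060, -6220) (by decide +kernel)
                  (CovZ.leaf K2_ok TF_l13643 _)
                  (CovZ.leaf K2_ok TF_l13644 _))
                 (CovZ.leaf K2_ok TF_l13645 _))))
              (CovZ.leaf K2_ok TF_l5278 _))
             (CovZ.subM 10633823966279326983230458682339753984 (by decide +kernel)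
              (CovZ.n1 (15040, -6160) (by decide +kernel)
               (CovZ.leaf K2_ok TF_l5279 _)
               (CovZ.n1 (15080, -6200) (by decide +kernel)
                (CovZ.n2 (15040, -6200) (by decide +kernel)
                 (CovZ.leaf K2_ok TF_l13646 _)
                 (CovZ.n1 (15060, -6220) (by decide +kernel)
                  (CovZ.leaf K2_ok TF_l13647 _)
                  (CovZ.leaf K2_ok TF_l13648 _)))
                (CovZ.leaf K2_ok TF_l5280 _)))))
            (CovZ.n1 (15120, -6320) (by decide +kernel)
             (CovZ.subM 75557863725914323419136 (by decide +kernel)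
              (CovZ.n2 (15040, -6320) (by decide +kernel)
               (CovZ.n2 (15080, -6280) (by decide +kernel)
                (CovZ.n2 (15080, -6320) (by decide +kernel)
                 (CovZ.badM (by decide +kernel))
                 (CovZ.n1 (15100, -6300) (by decide +kernel)
                  (CovZ.badM (by decide +kernel))
                  (CovZ.badM (by decide +kernel))))
                (CovZ.badM (by decide +kernel)))
               (CovZ.badM (by decide +kernel))))
             (CovZ.n1 (15120, -6240) (by decide +kernel)
              (CovZ.n2 (15160, -6280) (by decide +kernel)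
               (CovZ.subM 10633823966279402541094182397639917568 (by decide +kernel)
                (CovZ.n2 (15120, -6280) (by decide +kernel)
                 (CovZ.leaf K2_ok TF_l13649 _)
                 (CovZ.n1 (15140, -6300) (by decide +kernel)
                  (CovZ.n2 (15120, -6300) (by decide +kernel)
                   (CovZ.leaf K2_ok TF_l13650 _)
                   (CovZ.badM (by decide +kernel)))
                  (CovZ.leaf K2_ok TF_l13651 _))))
               (CovZ.leaf K2_ok TF_l5281 _))
              (CovZ.subM 10633823966279402541094182396566175744 (by decide +kernel)
               (CovZ.n1 (15080, -6280) (by decide +kernel)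
                (CovZ.n2 (15080, -6240) (by decide +kernel)
                 (CovZ.n2 (15100, -6260) (by decide +kernel)
                  (CovZ.badM (by decide +kernel))
                  (CovZ.leaf K2_ok TF_l13652 _))
                 (CovZ.badM (by decide +kernel)))
                (CovZ.n1 (15120, -6280) (by decide +kernel)
                 (CovZ.n2 (15100, -6300) (by decide +kernel)
                  (CovZ.badM (by decide +kernel))
                  (CovZ.n1 (15120, -6300) (by decide +kernel)
                   (CovZ.badM (by decide +kernel))
                   (CovZ.badM (by decide +kernel))))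
                 (CovZ.n1 (15100, -6260) (by decide +kernel)
                  (CovZ.leaf K2_ok TF_l13653 _)
                  (CovZ.badM (by decide +kernel))))))))))))
        (CovZ.subM 10633823966279326983230456482242756896 (by decide +kernel)
         (CovZ.n1 (14720, -6080) (by decide +kernel)
          (CovZ.n2 (14880, -5920) (by decide +kernel)
           (CovZ.n2 (14880, -6080) (by decide +kernel)
            (CovZ.n2 (14800, -6000) (by decide +kernel)
             (CovZ.n2 (14880, -6000) (by decide +kernel)
              (CovZ.n2 (14840, -6040) (by decide +kernel)
               (CovZ.n2 (14840, -6000) (by decide +kernel)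
                (CovZ.leaf K2_ok TF_l5282 _)
                (CovZ.leaf K2_ok TF_l13654 _))
               (CovZ.n1 (14880, -6040) (by decide +kernel)
                (CovZ.leaf K2_ok TF_l13655 _)
                (CovZ.leaf K2_ok TF_l5283 _)))
              (CovZ.leaf K2_ok TF_l5284 _))
             (CovZ.n1 (14800, -6080) (by decide +kernel)
              (CovZ.n2 (14760, -6040) (by decide +kernel)
               (CovZ.n2 (14800, -6040) (by decide +kernel)
                (CovZ.n2 (14780, -6060) (by decide +kernel)
                 (CovZ.leaf K2_ok TF_l13656 _)
                 (CovZ.n1 (14800, -6060) (by decide +kernel)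
                  (CovZ.leaf K2_ok TF_l13657 _)
                  (CovZ.leaf K2_ok TF_l13658 _)))
                (CovZ.leaf K2_ok TF_l13659 _))
               (CovZ.n1 (14760, -6080) (by decide +kernel)
                (CovZ.badM (by decide +kernel))
                (CovZ.n1 (14780, -6060) (by decide +kernel)
                 (CovZ.n2 (14780, -6080) (by decide +kernel)
                  (CovZ.badM (by decide +kernel))
                  (CovZ.leaf K2_ok TF_l13660 _))
                 (CovZ.badM (by decide +kernel)))))
              (CovZ.n1 (14840, -6040) (by decide +kernel)
               (CovZ.n2 (14840, -6080) (by decide +kernel)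
                (CovZ.n2 (14820, -6060) (by decide +kernel)
                 (CovZ.leaf K2_ok TF_l13661 _)
                 (CovZ.leaf K2_ok TF_l13662 _))
                (CovZ.leaf K2_ok TF_l13663 _))
               (CovZ.n1 (14800, -6040) (by decide +kernel)
                (CovZ.leaf K2_ok TF_l13664 _)
                (CovZ.n1 (14820, -6060) (by decide +kernel)
                 (CovZ.leaf K2_ok TF_l13665 _)
                 (CovZ.leaf K2_ok TF_l13666 _))))))
            (CovZ.n1 (14960, -6000) (by decide +kernel)
             (CovZ.n2 (14960, -6080) (by decide +kernel)
              (CovZ.n2 (14920, -6040) (by decide +kernel)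
               (CovZ.leaf K2_ok TF_l5285 _)
               (CovZ.leaf K2_ok TF_l5286 _))
              (CovZ.leaf K2_ok TF_l5287 _))
             (CovZ.n1 (14880, -6000) (by decide +kernel)
              (CovZ.leaf K2_ok TF_l5288 _)
              (CovZ.n1 (14920, -6040) (by decide +kernel)
               (CovZ.leaf K2_ok TF_l5289 _)
               (CovZ.leaf K2_ok TF_l5290 _)))))
           (CovZ.n1 (14720, -5920) (by decide +kernel)
            (CovZ.leaf K2_ok TF_l5291 _)
            (CovZ.n1 (14800, -6000) (by decide +kernel)
             (CovZ.n2 (14720, -6000) (by decide +kernel)
              (CovZ.leaf K2_ok TF_l13667 _)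
              (CovZ.n1 (14760, -6040) (by decide +kernel)
               (CovZ.badM (by decide +kernel))
               (CovZ.n1 (14760, -6000) (by decide +kernel)
                (CovZ.leaf K2_ok TF_l13668 _)
                (CovZ.badM (by decide +kernel)))))
             (CovZ.n1 (14800, -5920) (by decide +kernel)
              (CovZ.leaf K2_ok TF_l5292 _)
              (CovZ.n1 (14760, -5960) (by decide +kernel)
               (CovZ.leaf K2_ok TF_l13669 _)
               (CovZ.leaf K2_ok TF_l13670 _))))))
          (CovZ.n1 (14880, -6240) (by decide +kernel)
           (CovZ.badM (by decide +kernel))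
           (CovZ.badM (by decide +kernel))))))

theorem TF_u2 : CovZ TF_M (toL (selN TF_LN 2475955645675901487861989416)) [0, 7, 4, 3] (16640, -6400) (17280, -6400) (17280, -5760) :=
    (CovZ.n2 (16960, -6080) (by decide +kernel)
         (CovZ.n2 (17280, -6080) (by decide +kernel)
          (CovZ.subM 2475955636434488664218664960 (by decide +kernel)
           (CovZ.n2 (17120, -6240) (by decide +kernel)
            (CovZ.n2 (17120, -6080) (by decide +kernel)
             (CovZ.n2 (17200, -6160) (by decide +kernel)
              (CovZ.n2 (17120, -6160) (by decide +kernel)
               (CovZ.n2 (17160, -6120) (by decide +kernel)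
                (CovZ.n2 (17160, -6160) (by decide +kernel)
                 (CovZ.leaf K2_ok TF_l13883 _)
                 (CovZ.leaf K2_ok TF_l13884 _))
                (CovZ.leaf K2_ok TF_l13885 _))
               (CovZ.n1 (17160, -6200) (by decide +kernel)
                (CovZ.n2 (17120, -6200) (by decide +kernel)
                 (CovZ.n2 (17140, -6180) (by decide +kernel)
                  (CovZ.badM (by decide +kernel))
                  (CovZ.leaf K2_ok TF_l13886 _))
                 (CovZ.badM (by decide +kernel)))
                (CovZ.n1 (17160, -6160) (by decide +kernel)
                 (CovZ.n2 (17180, -6180) (by decide +kernel)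
                  (CovZ.leaf K2_ok TF_l13887 _)
                  (CovZ.leaf K2_ok TF_l13888 _))
                 (CovZ.n1 (17140, -6180) (by decide +kernel)
                  (CovZ.leaf K2_ok TF_l13889 _)
                  (CovZ.n1 (17160, -6180) (by decide +kernel)
                   (CovZ.badM (by decide +kernel))
                   (CovZ.leaf K2_ok TF_l13890 _))))))
              (CovZ.n1 (17200, -6080) (by decide +kernel)
               (CovZ.n2 (17240, -6120) (by decide +kernel)
                (CovZ.n2 (17200, -6120) (by decide +kernel)
                 (CovZ.leaf K2_ok TF_l13891 _)
                 (CovZ.n1 (17220, -6140) (by decide +kernel)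
                  (CovZ.leaf K2_ok TF_l13892 _)
                  (CovZ.leaf K2_ok TF_l13893 _)))
                (CovZ.leaf K2_ok TF_l13894 _))
               (CovZ.n1 (17160, -6120) (by decide +kernel)
                (CovZ.leaf K2_ok TF_l13895 _)
                (CovZ.n1 (17200, -6120) (by decide +kernel)
                 (CovZ.leaf K2_ok TF_l13896 _)
                 (CovZ.leaf K2_ok TF_l13897 _)))))
             (CovZ.n1 (17040, -6160) (by decide +kernel)
              (CovZ.n2 (17040, -6080) (by decide +kernel)
               (CovZ.n2 (17080, -6120) (by decide +kernel)
                (CovZ.leaf K2_ok TF_l13898 _)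
                (CovZ.leaf K2_ok TF_l13899 _))
               (CovZ.n1 (17000, -6120) (by decide +kernel)
                (CovZ.leaf K2_ok TF_l13900 _)
                (CovZ.leaf K2_ok TF_l13901 _)))
              (CovZ.n1 (17120, -6160) (by decide +kernel)
               (CovZ.n2 (17080, -6200) (by decide +kernel)
                (CovZ.n2 (17080, -6160) (by decide +kernel)
                 (CovZ.n2 (17100, -6180) (by decide +kernel)
                  (CovZ.leaf K2_ok TF_l13902 _)
                  (CovZ.leaf K2_ok TF_l13903 _))
                 (CovZ.n1 (17060, -6180) (by decide +kernel)
                  (CovZ.leaf K2_ok TF_l13904 _)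
                  (CovZ.leaf K2_ok TF_l13905 _)))
                (CovZ.n1 (17120, -6200) (by decide +kernel)
                 (CovZ.badM (by decide +kernel))
                 (CovZ.n1 (17100, -6180) (by decide +kernel)
                  (CovZ.leaf K2_ok TF_l13906 _)
                  (CovZ.badM (by decide +kernel)))))
               (CovZ.n1 (17080, -6120) (by decide +kernel)
                (CovZ.n2 (17120, -6120) (by decide +kernel)
                 (CovZ.leaf K2_ok TF_l13907 _)
                 (CovZ.leaf K2_ok TF_l13908 _))
                (CovZ.leaf K2_ok TF_l13909 _)))))
            (CovZ.n1 (17280, -6240) (by decide +kernel)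
             (CovZ.badM (by decide +kernel))
             (CovZ.n1 (17200, -6160) (by decide +kernel)
              (CovZ.n2 (17280, -6160) (by decide +kernel)
               (CovZ.n2 (17240, -6200) (by decide +kernel)
                (CovZ.n2 (17240, -6160) (by decide +kernel)
                 (CovZ.n2 (17260, -6180) (by decide +kernel)
                  (CovZ.n2 (17240, -6180) (by decide +kernel)
                   (CovZ.leaf K2_ok TF_l13910 _)
                   (CovZ.badM (by decide +kernel)))
                  (CovZ.leaf K2_ok TF_l13911 _))
                 (CovZ.n1 (17220, -6180) (by decide +kernel)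
                  (CovZ.leaf K2_ok TF_l13912 _)
                  (CovZ.n1 (17240, -6180) (by decide +kernel)
                   (CovZ.badM (by decide +kernel))
                   (CovZ.leaf K2_ok TF_l13913 _))))
                (CovZ.n1 (17280, -6200) (by decide +kernel)
                 (CovZ.badM (by decide +kernel))
                 (CovZ.n1 (17260, -6180) (by decide +kernel)
                  (CovZ.n2 (17280, -6180) (by decide +kernel)
                   (CovZ.badM (by decide +kernel))
                   (CovZ.leaf K2_ok TF_l13914 _))
                  (CovZ.badM (by decide +kernel)))))
               (CovZ.n1 (17240, -6120) (by decide +kernel)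
                (CovZ.n2 (17280, -6120) (by decide +kernel)
                 (CovZ.leaf K2_ok TF_l13915 _)
                 (CovZ.leaf K2_ok TF_l13916 _))
                (CovZ.n1 (17240, -6160) (by decide +kernel)
                 (CovZ.n2 (17220, -6140) (by decide +kernel)
                  (CovZ.leaf K2_ok TF_l13917 _)
                  (CovZ.leaf K2_ok TF_l13918 _))
                 (CovZ.leaf K2_ok TF_l13919 _))))
              (CovZ.n1 (17200, -6240) (by decide +kernel)
               (CovZ.n2 (17160, -6200) (by decide +kernel)
                (CovZ.n2 (17200, -6200) (by decide +kernel)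
                 (CovZ.badM (by decide +kernel))
                 (CovZ.n1 (17180, -6180) (by decide +kernel)
                  (CovZ.leaf K2_ok TF_l13920 _)
                  (CovZ.badM (by decide +kernel))))
                (CovZ.badM (by decide +kernel)))
               (CovZ.n1 (17240, -6200) (by decide +kernel)
                (CovZ.badM (by decide +kernel))
                (CovZ.n1 (17200, -6200) (by decide +kernel)
                 (CovZ.n2 (17220, -6180) (by decide +kernel)
                  (CovZ.badM (by decide +kernel))
                  (CovZ.n1 (17200, -6180) (by decide +kernel)
                   (CovZ.leaf K2_ok TF_l13921 _)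
                   (CovZ.badM (by decide +kernel))))
                 (CovZ.badM (by decide +kernel)))))))))
          (CovZ.n1 (17120, -5920) (by decide +kernel)
           (CovZ.n2 (17280, -5920) (by decide +kernel)
            (CovZ.n2 (17200, -6000) (by decide +kernel)
             (CovZ.leaf K2_ok TF_l5573 _)
             (CovZ.n1 (17280, -6000) (by decide +kernel)
              (CovZ.leaf K2_ok TF_l5574 _)
              (CovZ.leaf K2_ok TF_l5575 _)))
            (CovZ.leaf K2_ok TF_l5576 _))
           (CovZ.subM 2475955636434488664218664992 (by decide +kernel)
            (CovZ.n1 (17120, -6080) (by decide +kernel)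
             (CovZ.n2 (17040, -6000) (by decide +kernel)
              (CovZ.n2 (17120, -6000) (by decide +kernel)
               (CovZ.leaf K2_ok TF_l5577 _)
               (CovZ.leaf K2_ok TF_l5578 _))
              (CovZ.leaf K2_ok TF_l5579 _))
             (CovZ.n1 (17200, -6000) (by decide +kernel)
              (CovZ.n2 (17200, -6080) (by decide +kernel)
               (CovZ.leaf K2_ok TF_l5580 _)
               (CovZ.leaf K2_ok TF_l5581 _))
              (CovZ.leaf K2_ok TF_l5582 _))))))
         (CovZ.subM 2475955636434488664218664960 (by decide +kernel)
          (CovZ.n1 (16960, -6400) (by decide +kernel)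
           (CovZ.n2 (16800, -6240) (by decide +kernel)
            (CovZ.n2 (16960, -6240) (by decide +kernel)
             (CovZ.badM (by decide +kernel))
             (CovZ.n1 (16880, -6160) (by decide +kernel)
              (CovZ.n2 (16960, -6160) (by decide +kernel)
               (CovZ.n2 (16920, -6200) (by decide +kernel)
                (CovZ.n2 (16920, -6160) (by decide +kernel)
                 (CovZ.n2 (16940, -6180) (by decide +kernel)
                  (CovZ.leaf K2_ok TF_l13922 _)
                  (CovZ.leaf K2_ok TF_l13923 _))
                 (CovZ.leaf K2_ok TF_l13924 _))
                (CovZ.n1 (16960, -6200) (by decide +kernel)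
                 (CovZ.badM (by decide +kernel))
                 (CovZ.n1 (16940, -6180) (by decide +kernel)
                  (CovZ.leaf K2_ok TF_l13925 _)
                  (CovZ.leaf K2_ok TF_l13926 _))))
               (CovZ.n1 (16920, -6120) (by decide +kernel)
                (CovZ.leaf K2_ok TF_l13927 _)
                (CovZ.leaf K2_ok TF_l13928 _)))
              (CovZ.n1 (16880, -6240) (by decide +kernel)
               (CovZ.n2 (16840, -6200) (by decide +kernel)
                (CovZ.n2 (16880, -6200) (by decide +kernel)
                 (CovZ.badM (by decide +kernel))
                 (CovZ.leaf K2_ok TF_l13929 _))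
                (CovZ.badM (by decide +kernel)))
               (CovZ.n1 (16920, -6200) (by decide +kernel)
                (CovZ.badM (by decide +kernel))
                (CovZ.n1 (16880, -6200) (by decide +kernel)
                 (CovZ.leaf K2_ok TF_l13930 _)
                 (CovZ.badM (by decide +kernel)))))))
            (CovZ.badM (by decide +kernel)))
           (CovZ.n1 (17120, -6240) (by decide +kernel)
            (CovZ.badM (by decide +kernel))
            (CovZ.n1 (16960, -6240) (by decide +kernel)
             (CovZ.n2 (17040, -6160) (by decide +kernel)
              (CovZ.n2 (17040, -6240) (by decide +kernel)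
               (CovZ.n2 (17000, -6200) (by decide +kernel)
                (CovZ.n2 (17040, -6200) (by decide +kernel)
                 (CovZ.badM (by decide +kernel))
                 (CovZ.n1 (17020, -6180) (by decide +kernel)
                  (CovZ.leaf K2_ok TF_l13931 _)
                  (CovZ.badM (by decide +kernel))))
                (CovZ.badM (by decide +kernel)))
               (CovZ.n1 (17080, -6200) (by decide +kernel)
                (CovZ.badM (by decide +kernel))
                (CovZ.n1 (17040, -6200) (by decide +kernel)
                 (CovZ.leaf K2_ok TF_l13932 _)
                 (CovZ.badM (by decide +kernel)))))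
              (CovZ.n1 (16960, -6160) (by decide +kernel)
               (CovZ.leaf K2_ok TF_l13933 _)
               (CovZ.n1 (17000, -6200) (by decide +kernel)
                (CovZ.n2 (16960, -6200) (by decide +kernel)
                 (CovZ.leaf K2_ok TF_l13934 _)
                 (CovZ.badM (by decide +kernel)))
                (CovZ.n1 (17000, -6160) (by decide +kernel)
                 (CovZ.n2 (17020, -6180) (by decide +kernel)
                  (CovZ.leaf K2_ok TF_l13935 _)
                  (CovZ.leaf K2_ok TF_l13936 _))
                 (CovZ.leaf K2_ok TF_l13937 _)))))
             (CovZ.badM (by decide +kernel)))))))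

theorem TF_u3 : CovZ TF_M (toL (selN TF_LN 2475955645675901487861989416)) [0, 7, 4, 3] (17280, -6400) (17920, -6400) (17280, -5760) :=
    (CovZ.n1 (17600, -6080) (by decide +kernel)
         (CovZ.subM 8796093022208 (by decide +kernel)
          (CovZ.n2 (17600, -6400) (by decide +kernel)
           (CovZ.badM (by decide +kernel))
           (CovZ.n1 (17760, -6240) (by decide +kernel)
            (CovZ.badM (by decide +kernel))
            (CovZ.n1 (17600, -6240) (by decide +kernel)
             (CovZ.n2 (17680, -6160) (by decide +kernel)
              (CovZ.badM (by decide +kernel))
              (CovZ.badM (by decide +kernel)))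
             (CovZ.badM (by decide +kernel))))))
         (CovZ.n1 (17280, -6080) (by decide +kernel)
          (CovZ.n2 (17440, -5920) (by decide +kernel)
           (CovZ.n2 (17440, -6080) (by decide +kernel)
            (CovZ.n2 (17360, -6000) (by decide +kernel)
             (CovZ.n2 (17440, -6000) (by decide +kernel)
              (CovZ.leaf K2_ok TF_l5583 _)
              (CovZ.leaf K2_ok TF_l5584 _))
             (CovZ.n1 (17360, -6080) (by decide +kernel)
              (CovZ.leaf K2_ok TF_l5585 _)
              (CovZ.leaf K2_ok TF_l5586 _)))
            (CovZ.n1 (17520, -6000) (by decide +kernel)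
             (CovZ.n2 (17520, -6080) (by decide +kernel)
              (CovZ.n2 (17480, -6040) (by decide +kernel)
               (CovZ.leaf K2_ok TF_l5587 _)
               (CovZ.leaf K2_ok TF_l5588 _))
              (CovZ.leaf K2_ok TF_l5589 _))
             (CovZ.n1 (17440, -6000) (by decide +kernel)
              (CovZ.leaf K2_ok TF_l5590 _)
              (CovZ.n1 (17480, -6040) (by decide +kernel)
               (CovZ.leaf K2_ok TF_l5591 _)
               (CovZ.leaf K2_ok TF_l5592 _)))))
           (CovZ.n1 (17280, -5920) (by decide +kernel)
            (CovZ.leaf K2_ok TF_l5593 _)
            (CovZ.n1 (17360, -6000) (by decide +kernel)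
             (CovZ.leaf K2_ok TF_l5594 _)
             (CovZ.leaf K2_ok TF_l5595 _))))
          (CovZ.subM 75557863728114420416512 (by decide +kernel)
           (CovZ.n1 (17440, -6240) (by decide +kernel)
            (CovZ.n2 (17280, -6240) (by decide +kernel)
             (CovZ.n2 (17360, -6160) (by decide +kernel)
              (CovZ.badM (by decide +kernel))
              (CovZ.n1 (17280, -6160) (by decide +kernel)
               (CovZ.n2 (17320, -6120) (by decide +kernel)
                (CovZ.n2 (17320, -6160) (by decide +kernel)
                 (CovZ.n2 (17300, -6140) (by decide +kernel)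
                  (CovZ.leaf K2_ok TF_l13938 _)
                  (CovZ.leaf K2_ok TF_l13939 _))
                 (CovZ.leaf K2_ok TF_l13940 _))
                (CovZ.n1 (17280, -6120) (by decide +kernel)
                 (CovZ.leaf K2_ok TF_l13941 _)
                 (CovZ.n1 (17300, -6140) (by decide +kernel)
                  (CovZ.leaf K2_ok TF_l13942 _)
                  (CovZ.leaf K2_ok TF_l13943 _))))
               (CovZ.n1 (17320, -6200) (by decide +kernel)
                (CovZ.n2 (17280, -6200) (by decide +kernel)
                 (CovZ.n2 (17300, -6180) (by decide +kernel)
                  (CovZ.badM (by decide +kernel))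
                  (CovZ.n1 (17280, -6180) (by decide +kernel)
                   (CovZ.leaf K2_ok TF_l13944 _)
                   (CovZ.badM (by decide +kernel))))
                 (CovZ.badM (by decide +kernel)))
                (CovZ.n1 (17320, -6160) (by decide +kernel)
                 (CovZ.n2 (17340, -6180) (by decide +kernel)
                  (CovZ.n2 (17320, -6180) (by decide +kernel)
                   (CovZ.leaf K2_ok TF_l13945 _)
                   (CovZ.badM (by decide +kernel)))
                  (CovZ.n1 (17340, -6160) (by decide +kernel)
                   (CovZ.leaf K2_ok TF_l13946 _)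
                   (CovZ.leaf K2_ok TF_l13947 _)))
                 (CovZ.n1 (17300, -6180) (by decide +kernel)
                  (CovZ.leaf K2_ok TF_l13948 _)
                  (CovZ.n1 (17320, -6180) (by decide +kernel)
                   (CovZ.badM (by decide +kernel))
                   (CovZ.leaf K2_ok TF_l13949 _)))))))
             (CovZ.badM (by decide +kernel)))
            (CovZ.n1 (17440, -6080) (by decide +kernel)
             (CovZ.n2 (17520, -6160) (by decide +kernel)
              (CovZ.n2 (17440, -6160) (by decide +kernel)
               (CovZ.n2 (17480, -6120) (by decide +kernel)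
                (CovZ.n2 (17480, -6160) (by decide +kernel)
                 (CovZ.n2 (17460, -6140) (by decide +kernel)
                  (CovZ.leaf K2_ok TF_l13950 _)
                  (CovZ.leaf K2_ok TF_l13951 _))
                 (CovZ.leaf K2_ok TF_l13952 _))
                (CovZ.n1 (17440, -6120) (by decide +kernel)
                 (CovZ.leaf K2_ok TF_l5596 _)
                 (CovZ.n1 (17460, -6140) (by decide +kernel)
                  (CovZ.leaf K2_ok TF_l13953 _)
                  (CovZ.leaf K2_ok TF_l13954 _))))
               (CovZ.badM (by decide +kernel)))
              (CovZ.n1 (17520, -6080) (by decide +kernel)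
               (CovZ.n2 (17560, -6120) (by decide +kernel)
                (CovZ.n2 (17520, -6120) (by decide +kernel)
                 (CovZ.leaf K2_ok TF_l13955 _)
                 (CovZ.n1 (17540, -6140) (by decide +kernel)
                  (CovZ.leaf K2_ok TF_l13956 _)
                  (CovZ.leaf K2_ok TF_l13957 _)))
                (CovZ.n1 (17560, -6080) (by decide +kernel)
                 (CovZ.leaf K2_ok TF_l13958 _)
                 (CovZ.leaf K2_ok TF_l13959 _)))
               (CovZ.n1 (17480, -6120) (by decide +kernel)
                (CovZ.n2 (17480, -6080) (by decide +kernel)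
                 (CovZ.leaf K2_ok TF_l13960 _)
                 (CovZ.leaf K2_ok TF_l5597 _))
                (CovZ.n1 (17520, -6120) (by decide +kernel)
                 (CovZ.n2 (17500, -6140) (by decide +kernel)
                  (CovZ.leaf K2_ok TF_l13961 _)
                  (CovZ.leaf K2_ok TF_l13962 _))
                 (CovZ.leaf K2_ok TF_l13963 _)))))
             (CovZ.n1 (17360, -6160) (by decide +kernel)
              (CovZ.n2 (17360, -6080) (by decide +kernel)
               (CovZ.n2 (17400, -6120) (by decide +kernel)
                (CovZ.n2 (17360, -6120) (by decide +kernel)
                 (CovZ.leaf K2_ok TF_l13964 _)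
                 (CovZ.n1 (17380, -6140) (by decide +kernel)
                  (CovZ.leaf K2_ok TF_l13965 _)
                  (CovZ.leaf K2_ok TF_l13966 _)))
                (CovZ.leaf K2_ok TF_l5598 _))
               (CovZ.n1 (17320, -6120) (by decide +kernel)
                (CovZ.leaf K2_ok TF_l13967 _)
                (CovZ.n1 (17360, -6120) (by decide +kernel)
                 (CovZ.leaf K2_ok TF_l13968 _)
                 (CovZ.leaf K2_ok TF_l13969 _))))
              (CovZ.n1 (17440, -6160) (by decide +kernel)
               (CovZ.badM (by decide +kernel))
               (CovZ.n1 (17400, -6120) (by decide +kernel)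
                (CovZ.n2 (17440, -6120) (by decide +kernel)
                 (CovZ.n2 (17420, -6140) (by decide +kernel)
                  (CovZ.leaf K2_ok TF_l13970 _)
                  (CovZ.leaf K2_ok TF_l13971 _))
                 (CovZ.leaf K2_ok TF_l5599 _))
                (CovZ.n1 (17400, -6160) (by decide +kernel)
                 (CovZ.n2 (17380, -6140) (by decide +kernel)
                  (CovZ.leaf K2_ok TF_l13972 _)
                  (CovZ.leaf K2_ok TF_l13973 _))
                 (CovZ.leaf K2_ok TF_l13974 _))))))))))

theorem TF_u4 : CovZ TF_M (toL (selN TF_LN 103679783673699393722931439366085542184)) [0, 7, 4, 3] (15360, -6400) (16000, -6400) (16000, -5760) :=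
    (CovZ.n2 (15680, -6080) (by decide +kernel)
         (CovZ.n2 (16000, -6080) (by decide +kernel)
          (CovZ.subM 87729047724280403248085754642721406976 (by decide +kernel)
           (CovZ.n2 (15840, -6240) (by decide +kernel)
            (CovZ.n2 (15840, -6080) (by decide +kernel)
             (CovZ.n2 (15920, -6160) (by decide +kernel)
              (CovZ.leaf K2_ok TF_l5600 _)
              (CovZ.leaf K2_ok TF_l5601 _))
             (CovZ.n1 (15760, -6160) (by decide +kernel)
              (CovZ.leaf K2_ok TF_l5602 _)
              (CovZ.leaf K2_ok TF_l5603 _)))
            (CovZ.n1 (16000, -6240) (by decide +kernel)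
             (CovZ.n2 (15920, -6320) (by decide +kernel)
              (CovZ.n2 (15920, -6240) (by decide +kernel)
               (CovZ.n2 (15960, -6280) (by decide +kernel)
                (CovZ.leaf K2_ok TF_l13975 _)
                (CovZ.leaf K2_ok TF_l13976 _))
               (CovZ.n1 (15880, -6280) (by decide +kernel)
                (CovZ.leaf K2_ok TF_l13977 _)
                (CovZ.leaf K2_ok TF_l13978 _)))
              (CovZ.subM 2475880078570760550871990272 (by decide +kernel)
               (CovZ.n1 (16000, -6320) (by decide +kernel)
                (CovZ.n2 (15960, -6360) (by decide +kernel)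
                 (CovZ.n2 (15960, -6320) (by decide +kernel)
                  (CovZ.n2 (15980, -6340) (by decide +kernel)
                   (CovZ.leaf K2_ok TF_l13979 _)
                   (CovZ.leaf K2_ok TF_l13980 _))
                  (CovZ.n1 (15940, -6340) (by decide +kernel)
                   (CovZ.leaf K2_ok TF_l13981 _)
                   (CovZ.leaf K2_ok TF_l13982 _)))
                 (CovZ.n1 (16000, -6360) (by decide +kernel)
                  (CovZ.badM (by decide +kernel))
                  (CovZ.n1 (15980, -6340) (by decide +kernel)
                   (CovZ.leaf K2_ok TF_l13983 _)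
                   (CovZ.badM (by decide +kernel)))))
                (CovZ.n1 (15960, -6280) (by decide +kernel)
                 (CovZ.leaf K2_ok TF_l13984 _)
                 (CovZ.leaf K2_ok TF_l13985 _)))))
             (CovZ.n1 (15920, -6160) (by decide +kernel)
              (CovZ.n2 (16000, -6160) (by decide +kernel)
               (CovZ.leaf K2_ok TF_l13986 _)
               (CovZ.leaf K2_ok TF_l13987 _))
              (CovZ.leaf K2_ok TF_l13988 _)))))
          (CovZ.n1 (15840, -5920) (by decide +kernel)
           (CovZ.n2 (16000, -5920) (by decide +kernel)
            (CovZ.leaf K2_ok TF_l5604 _)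
            (CovZ.leaf K2_ok TF_l5605 _))
           (CovZ.leaf K2_ok TF_l5606 _)))
         (CovZ.n1 (15680, -6400) (by decide +kernel)
          (CovZ.n2 (15520, -6240) (by decide +kernel)
           (CovZ.n2 (15680, -6240) (by decide +kernel)
            (CovZ.subM 98362871690559730231316208925940908032 (by decide +kernel)
             (CovZ.n2 (15600, -6320) (by decide +kernel)
              (CovZ.n2 (15600, -6240) (by decide +kernel)
               (CovZ.leaf K2_ok TF_l13989 _)
               (CovZ.leaf K2_ok TF_l13990 _))
              (CovZ.n1 (15680, -6320) (by decide +kernel)
               (CovZ.n2 (15640, -6360) (by decide +kernel)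
                (CovZ.leaf K2_ok TF_l13991 _)
                (CovZ.n1 (15680, -6360) (by decide +kernel)
                 (CovZ.leaf K2_ok TF_l13992 _)
                 (CovZ.leaf K2_ok TF_l13993 _)))
               (CovZ.leaf K2_ok TF_l13994 _))))
            (CovZ.n1 (15600, -6160) (by decide +kernel)
             (CovZ.leaf K2_ok TF_l5607 _)
             (CovZ.leaf K2_ok TF_l5608 _)))
           (CovZ.subM 98362871690559730231316208925940908032 (by decide +kernel)
            (CovZ.n1 (15520, -6400) (by decide +kernel)
             (CovZ.n2 (15440, -6320) (by decide +kernel)
              (CovZ.n2 (15520, -6320) (by decide +kernel)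
               (CovZ.n2 (15480, -6360) (by decide +kernel)
                (CovZ.leaf K2_ok TF_l13995 _)
                (CovZ.leaf K2_ok TF_l13996 _))
               (CovZ.leaf K2_ok TF_l13997 _))
              (CovZ.n1 (15440, -6400) (by decide +kernel)
               (CovZ.n2 (15400, -6360) (by decide +kernel)
                (CovZ.leaf K2_ok TF_l13998 _)
                (CovZ.leaf K2_ok TF_l13999 _))
               (CovZ.leaf K2_ok TF_l14000 _)))
             (CovZ.n1 (15600, -6320) (by decide +kernel)
              (CovZ.n2 (15600, -6400) (by decide +kernel)
               (CovZ.n2 (15560, -6360) (by decide +kernel)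
                (CovZ.n2 (15600, -6360) (by decide +kernel)
                 (CovZ.leaf K2_ok TF_l14001 _)
                 (CovZ.leaf K2_ok TF_l14002 _))
                (CovZ.leaf K2_ok TF_l14003 _))
               (CovZ.n1 (15640, -6360) (by decide +kernel)
                (CovZ.n2 (15640, -6400) (by decide +kernel)
                 (CovZ.leaf K2_ok TF_l14004 _)
                 (CovZ.leaf K2_ok TF_l14005 _))
                (CovZ.leaf K2_ok TF_l14006 _)))
              (CovZ.n1 (15520, -6320) (by decide +kernel)
               (CovZ.leaf K2_ok TF_l14007 _)
               (CovZ.n1 (15560, -6360) (by decide +kernel)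
                (CovZ.leaf K2_ok TF_l14008 _)
                (CovZ.leaf K2_ok TF_l14009 _)))))))
          (CovZ.subM 87729047724280403248085754642721406976 (by decide +kernel)
           (CovZ.n1 (15840, -6240) (by decide +kernel)
            (CovZ.n2 (15840, -6400) (by decide +kernel)
             (CovZ.n2 (15760, -6320) (by decide +kernel)
              (CovZ.n2 (15840, -6320) (by decide +kernel)
               (CovZ.subM 85070591732710495944414412407740301312 (by decide +kernel)
                (CovZ.n2 (15800, -6360) (by decide +kernel)
                 (CovZ.n2 (15800, -6320) (by decide +kernel)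
                  (CovZ.leaf K2_ok TF_l14010 _)
                  (CovZ.leaf K2_ok TF_l14011 _))
                 (CovZ.n1 (15840, -6360) (by decide +kernel)
                  (CovZ.n2 (15820, -6380) (by decide +kernel)
                   (CovZ.leaf K2_ok TF_l14012 _)
                   (CovZ.n1 (15840, -6380) (by decide +kernel)
                    (CovZ.leaf K2_ok TF_l14013 _)
                    (CovZ.leaf K2_ok TF_l14014 _)))
                  (CovZ.leaf K2_ok TF_l14015 _))))
               (CovZ.n1 (15800, -6280) (by decide +kernel)
                (CovZ.leaf K2_ok TF_l14016 _)
                (CovZ.leaf K2_ok TF_l14017 _)))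
              (CovZ.subM 85070591732710495944414412407740301312 (by decide +kernel)
               (CovZ.n1 (15760, -6400) (by decide +kernel)
                (CovZ.n2 (15720, -6360) (by decide +kernel)
                 (CovZ.n2 (15760, -6360) (by decide +kernel)
                  (CovZ.n2 (15740, -6380) (by decide +kernel)
                   (CovZ.leaf K2_ok TF_l14018 _)
                   (CovZ.leaf K2_ok TF_l14019 _))
                  (CovZ.leaf K2_ok TF_l14020 _))
                 (CovZ.n1 (15720, -6400) (by decide +kernel)
                  (CovZ.n2 (15700, -6380) (by decide +kernel)
                   (CovZ.leaf K2_ok TF_l14021 _)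
                   (CovZ.leaf K2_ok TF_l14022 _))
                  (CovZ.leaf K2_ok TF_l14023 _)))
                (CovZ.n1 (15800, -6360) (by decide +kernel)
                 (CovZ.n2 (15800, -6400) (by decide +kernel)
                  (CovZ.n2 (15780, -6380) (by decide +kernel)
                   (CovZ.n2 (15800, -6380) (by decide +kernel)
                    (CovZ.leaf K2_ok TF_l14024 _)
                    (CovZ.leaf K2_ok TF_l14025 _))
                   (CovZ.leaf K2_ok TF_l14026 _))
                  (CovZ.n1 (15820, -6380) (by decide +kernel)
                   (CovZ.n2 (15820, -6400) (by decide +kernel)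
                    (CovZ.leaf K2_ok TF_l14027 _)
                    (CovZ.leaf K2_ok TF_l14028 _))
                   (CovZ.leaf K2_ok TF_l14029 _)))
                 (CovZ.n1 (15760, -6360) (by decide +kernel)
                  (CovZ.leaf K2_ok TF_l14030 _)
                  (CovZ.n1 (15780, -6380) (by decide +kernel)
                   (CovZ.leaf K2_ok TF_l14031 _)
                   (CovZ.leaf K2_ok TF_l14032 _)))))))
             (CovZ.n1 (15920, -6320) (by decide +kernel)
              (CovZ.subM 2475880078570760549798248448 (by decide +kernel)
               (CovZ.n2 (15920, -6400) (by decide +kernel)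
                (CovZ.n2 (15880, -6360) (by decide +kernel)
                 (CovZ.n2 (15920, -6360) (by decide +kernel)
                  (CovZ.badM (by decide +kernel))
                  (CovZ.n1 (15900, -6340) (by decide +kernel)
                   (CovZ.leaf K2_ok TF_l14033 _)
                   (CovZ.leaf K2_ok TF_l14034 _)))
                 (CovZ.badM (by decide +kernel)))
                (CovZ.n1 (15960, -6360) (by decide +kernel)
                 (CovZ.badM (by decide +kernel))
                 (CovZ.n1 (15920, -6360) (by decide +kernel)
                  (CovZ.leaf K2_ok TF_l14035 _)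
                  (CovZ.badM (by decide +kernel))))))
              (CovZ.n1 (15840, -6320) (by decide +kernel)
               (CovZ.leaf K2_ok TF_l14036 _)
               (CovZ.subM 85070591732710495944414412407740301312 (by decide +kernel)
                (CovZ.n1 (15880, -6360) (by decide +kernel)
                 (CovZ.n2 (15840, -6360) (by decide +kernel)
                  (CovZ.leaf K2_ok TF_l14037 _)
                  (CovZ.n1 (15860, -6380) (by decide +kernel)
                   (CovZ.n2 (15840, -6380) (by decide +kernel)
                    (CovZ.leaf K2_ok TF_l14038 _)
                    (CovZ.badM (by decide +kernel)))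
                   (CovZ.n1 (15860, -6360) (by decide +kernel)
                    (CovZ.badM (by decide +kernel))
                    (CovZ.leaf K2_ok TF_l14039 _))))
                 (CovZ.n1 (15880, -6320) (by decide +kernel)
                  (CovZ.n2 (15900, -6340) (by decide +kernel)
                   (CovZ.leaf K2_ok TF_l14040 _)
                   (CovZ.leaf K2_ok TF_l14041 _))
                  (CovZ.n1 (15860, -6340) (by decide +kernel)
                   (CovZ.leaf K2_ok TF_l14042 _)
                   (CovZ.leaf K2_ok TF_l14043 _))))))))
            (CovZ.n1 (15680, -6240) (by decide +kernel)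
             (CovZ.leaf K2_ok TF_l5609 _)
             (CovZ.n1 (15760, -6320) (by decide +kernel)
              (CovZ.n2 (15680, -6320) (by decide +kernel)
               (CovZ.leaf K2_ok TF_l14044 _)
               (CovZ.subM 87729047724280327690222026528300990464 (by decide +kernel)
                (CovZ.n1 (15720, -6360) (by decide +kernel)
                 (CovZ.n2 (15680, -6360) (by decide +kernel)
                  (CovZ.leaf K2_ok TF_l14045 _)
                  (CovZ.n1 (15700, -6380) (by decide +kernel)
                   (CovZ.leaf K2_ok TF_l14046 _)
                   (CovZ.leaf K2_ok TF_l14047 _)))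
                 (CovZ.n1 (15720, -6320) (by decide +kernel)
                  (CovZ.leaf K2_ok TF_l14048 _)
                  (CovZ.leaf K2_ok TF_l14049 _)))))
              (CovZ.n1 (15760, -6240) (by decide +kernel)
               (CovZ.n2 (15800, -6280) (by decide +kernel)
                (CovZ.leaf K2_ok TF_l14050 _)
                (CovZ.leaf K2_ok TF_l14051 _))
               (CovZ.leaf K2_ok TF_l14052 _))))))))

theorem TF_u5 : CovZ TF_M (toL (selN TF_LN 103679783673699393722931439366085542184)) [0, 7, 4, 3] (16000, -6400) (16640, -6400) (16000, -5760) :=
    (CovZ.subM 85070591732710571502278140522160717856 (by decide +kernel)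
         (CovZ.n1 (16320, -6080) (by decide +kernel)
          (CovZ.n2 (16320, -6400) (by decide +kernel)
           (CovZ.n2 (16160, -6240) (by decide +kernel)
            (CovZ.n2 (16320, -6240) (by decide +kernel)
             (CovZ.subM 2475880078570760549798248448 (by decide +kernel)
              (CovZ.n2 (16240, -6320) (by decide +kernel)
               (CovZ.n2 (16240, -6240) (by decide +kernel)
                (CovZ.n2 (16280, -6280) (by decide +kernel)
                 (CovZ.n2 (16240, -6280) (by decide +kernel)
                  (CovZ.leaf K2_ok TF_l14053 _)
                  (CovZ.n1 (16260, -6300) (by decide +kernel)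
                   (CovZ.leaf K2_ok TF_l14054 _)
                   (CovZ.leaf K2_ok TF_l14055 _)))
                 (CovZ.n1 (16280, -6240) (by decide +kernel)
                  (CovZ.n2 (16300, -6260) (by decide +kernel)
                   (CovZ.leaf K2_ok TF_l14056 _)
                   (CovZ.leaf K2_ok TF_l14057 _))
                  (CovZ.leaf K2_ok TF_l14058 _)))
                (CovZ.n1 (16200, -6280) (by decide +kernel)
                 (CovZ.n2 (16200, -6240) (by decide +kernel)
                  (CovZ.leaf K2_ok TF_l14059 _)
                  (CovZ.leaf K2_ok TF_l14060 _))
                 (CovZ.n1 (16240, -6280) (by decide +kernel)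
                  (CovZ.n2 (16220, -6300) (by decide +kernel)
                   (CovZ.leaf K2_ok TF_l14061 _)
                   (CovZ.n1 (16240, -6300) (by decide +kernel)
                    (CovZ.badM (by decide +kernel))
                    (CovZ.leaf K2_ok TF_l14062 _)))
                  (CovZ.leaf K2_ok TF_l14063 _))))
               (CovZ.n1 (16320, -6320) (by decide +kernel)
                (CovZ.badM (by decide +kernel))
                (CovZ.n1 (16280, -6280) (by decide +kernel)
                 (CovZ.n2 (16320, -6280) (by decide +kernel)
                  (CovZ.badM (by decide +kernel))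
                  (CovZ.n1 (16300, -6260) (by decide +kernel)
                   (CovZ.leaf K2_ok TF_l14064 _)
                   (CovZ.leaf K2_ok TF_l14065 _)))
                 (CovZ.badM (by decide +kernel))))))
             (CovZ.n1 (16240, -6160) (by decide +kernel)
              (CovZ.n2 (16320, -6160) (by decide +kernel)
               (CovZ.n2 (16280, -6200) (by decide +kernel)
                (CovZ.leaf K2_ok TF_l14066 _)
                (CovZ.leaf K2_ok TF_l14067 _))
               (CovZ.leaf K2_ok TF_l14068 _))
              (CovZ.n1 (16240, -6240) (by decide +kernel)
               (CovZ.n2 (16200, -6200) (by decide +kernel)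
                (CovZ.leaf K2_ok TF_l14069 _)
                (CovZ.leaf K2_ok TF_l14070 _))
               (CovZ.leaf K2_ok TF_l14071 _))))
            (CovZ.subM 2475880078570760549798248448 (by decide +kernel)
             (CovZ.n1 (16160, -6400) (by decide +kernel)
              (CovZ.n2 (16080, -6320) (by decide +kernel)
               (CovZ.n2 (16160, -6320) (by decide +kernel)
                (CovZ.badM (by decide +kernel))
                (CovZ.n1 (16120, -6280) (by decide +kernel)
                 (CovZ.n2 (16160, -6280) (by decide +kernel)
                  (CovZ.n2 (16140, -6300) (by decide +kernel)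
                   (CovZ.leaf K2_ok TF_l14072 _)
                   (CovZ.leaf K2_ok TF_l14073 _))
                  (CovZ.leaf K2_ok TF_l14074 _))
                 (CovZ.n1 (16120, -6320) (by decide +kernel)
                  (CovZ.n2 (16100, -6300) (by decide +kernel)
                   (CovZ.leaf K2_ok TF_l14075 _)
                   (CovZ.leaf K2_ok TF_l14076 _))
                  (CovZ.leaf K2_ok TF_l14077 _))))
               (CovZ.badM (by decide +kernel)))
              (CovZ.n1 (16240, -6320) (by decide +kernel)
               (CovZ.badM (by decide +kernel))
               (CovZ.n1 (16160, -6320) (by decide +kernel)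
                (CovZ.n2 (16200, -6280) (by decide +kernel)
                 (CovZ.n2 (16200, -6320) (by decide +kernel)
                  (CovZ.n2 (16180, -6300) (by decide +kernel)
                   (CovZ.leaf K2_ok TF_l14078 _)
                   (CovZ.badM (by decide +kernel)))
                  (CovZ.leaf K2_ok TF_l14079 _))
                 (CovZ.n1 (16160, -6280) (by decide +kernel)
                  (CovZ.leaf K2_ok TF_l14080 _)
                  (CovZ.n1 (16180, -6300) (by decide +kernel)
                   (CovZ.leaf K2_ok TF_l14081 _)
                   (CovZ.leaf K2_ok TF_l14082 _))))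
                (CovZ.badM (by decide +kernel)))))))
           (CovZ.n1 (16480, -6240) (by decide +kernel)
            (CovZ.badM (by decide +kernel))
            (CovZ.n1 (16320, -6240) (by decide +kernel)
             (CovZ.n2 (16400, -6160) (by decide +kernel)
              (CovZ.n2 (16400, -6240) (by decide +kernel)
               (CovZ.n2 (16360, -6200) (by decide +kernel)
                (CovZ.leaf K2_ok TF_l14083 _)
                (CovZ.leaf K2_ok TF_l14084 _))
               (CovZ.leaf K2_ok TF_l14085 _))
              (CovZ.n1 (16320, -6160) (by decide +kernel)
               (CovZ.leaf K2_ok TF_l14086 _)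
               (CovZ.n1 (16360, -6200) (by decide +kernel)
                (CovZ.leaf K2_ok TF_l14087 _)
                (CovZ.leaf K2_ok TF_l14088 _))))
             (CovZ.subM 2475880078570760549798248448 (by decide +kernel)
              (CovZ.n1 (16400, -6320) (by decide +kernel)
               (CovZ.n2 (16320, -6320) (by decide +kernel)
                (CovZ.n2 (16360, -6280) (by decide +kernel)
                 (CovZ.badM (by decide +kernel))
                 (CovZ.n1 (16320, -6280) (by decide +kernel)
                  (CovZ.leaf K2_ok TF_l14089 _)
                  (CovZ.badM (by decide +kernel))))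
                (CovZ.badM (by decide +kernel)))
               (CovZ.n1 (16400, -6240) (by decide +kernel)
                (CovZ.n2 (16440, -6280) (by decide +kernel)
                 (CovZ.n2 (16400, -6280) (by decide +kernel)
                  (CovZ.leaf K2_ok TF_l14090 _)
                  (CovZ.badM (by decide +kernel)))
                 (CovZ.n1 (16440, -6240) (by decide +kernel)
                  (CovZ.n2 (16460, -6260) (by decide +kernel)
                   (CovZ.leaf K2_ok TF_l14091 _)
                   (CovZ.leaf K2_ok TF_l14092 _))
                  (CovZ.n1 (16420, -6260) (by decide +kernel)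
                   (CovZ.leaf K2_ok TF_l14093 _)
                   (CovZ.n1 (16440, -6260) (by decide +kernel)
                    (CovZ.badM (by decide +kernel))
                    (CovZ.leaf K2_ok TF_l14094 _)))))
                (CovZ.n1 (16360, -6280) (by decide +kernel)
                 (CovZ.n2 (16360, -6240) (by decide +kernel)
                  (CovZ.n2 (16380, -6260) (by decide +kernel)
                   (CovZ.leaf K2_ok TF_l14095 _)
                   (CovZ.leaf K2_ok TF_l14096 _))
                  (CovZ.leaf K2_ok TF_l14097 _))
                 (CovZ.n1 (16400, -6280) (by decide +kernel)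
                  (CovZ.badM (by decide +kernel))
                  (CovZ.n1 (16380, -6260) (by decide +kernel)
                   (CovZ.leaf K2_ok TF_l14098 _)
                   (CovZ.badM (by decide +kernel)))))))))))
          (CovZ.n1 (16000, -6080) (by decide +kernel)
           (CovZ.n2 (16160, -5920) (by decide +kernel)
            (CovZ.n2 (16160, -6080) (by decide +kernel)
             (CovZ.leaf K2_ok TF_l5610 _)
             (CovZ.leaf K2_ok TF_l5611 _))
            (CovZ.leaf K2_ok TF_l5612 _))
           (CovZ.n1 (16160, -6240) (by decide +kernel)
            (CovZ.n2 (16000, -6240) (by decide +kernel)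
             (CovZ.n2 (16080, -6160) (by decide +kernel)
              (CovZ.n2 (16080, -6240) (by decide +kernel)
               (CovZ.leaf K2_ok TF_l14099 _)
               (CovZ.leaf K2_ok TF_l14100 _))
              (CovZ.leaf K2_ok TF_l14101 _))
             (CovZ.subM 2475880078570760550871990272 (by decide +kernel)
              (CovZ.n1 (16080, -6320) (by decide +kernel)
               (CovZ.n2 (16000, -6320) (by decide +kernel)
                (CovZ.n2 (16040, -6280) (by decide +kernel)
                 (CovZ.n2 (16040, -6320) (by decide +kernel)
                  (CovZ.leaf K2_ok TF_l14102 _)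
                  (CovZ.leaf K2_ok TF_l14103 _))
                 (CovZ.leaf K2_ok TF_l14104 _))
                (CovZ.n1 (16040, -6360) (by decide +kernel)
                 (CovZ.n2 (16000, -6360) (by decide +kernel)
                  (CovZ.n2 (16020, -6340) (by decide +kernel)
                   (CovZ.badM (by decide +kernel))
                   (CovZ.leaf K2_ok TF_l14105 _))
                  (CovZ.badM (by decide +kernel)))
                 (CovZ.n1 (16040, -6320) (by decide +kernel)
                  (CovZ.n2 (16060, -6340) (by decide +kernel)
                   (CovZ.leaf K2_ok TF_l14106 _)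
                   (CovZ.leaf K2_ok TF_l14107 _))
                  (CovZ.n1 (16020, -6340) (by decide +kernel)
                   (CovZ.leaf K2_ok TF_l14108 _)
                   (CovZ.n1 (16040, -6340) (by decide +kernel)
                    (CovZ.badM (by decide +kernel))
                    (CovZ.leaf K2_ok TF_l14109 _))))))
               (CovZ.n1 (16080, -6240) (by decide +kernel)
                (CovZ.n2 (16120, -6280) (by decide +kernel)
                 (CovZ.n2 (16080, -6280) (by decide +kernel)
                  (CovZ.leaf K2_ok TF_l14110 _)
                  (CovZ.n1 (16100, -6300) (by decide +kernel)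
                   (CovZ.leaf K2_ok TF_l14111 _)
                   (CovZ.leaf K2_ok TF_l14112 _)))
                 (CovZ.leaf K2_ok TF_l14113 _))
                (CovZ.n1 (16040, -6280) (by decide +kernel)
                 (CovZ.leaf K2_ok TF_l14114 _)
                 (CovZ.n1 (16080, -6280) (by decide +kernel)
                  (CovZ.leaf K2_ok TF_l14115 _)
                  (CovZ.leaf K2_ok TF_l14116 _)))))))
            (CovZ.n1 (16160, -6080) (by decide +kernel)
             (CovZ.n2 (16240, -6160) (by decide +kernel)
              (CovZ.n2 (16160, -6160) (by decide +kernel)
               (CovZ.leaf K2_ok TF_l14117 _)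
               (CovZ.n1 (16200, -6200) (by decide +kernel)
                (CovZ.leaf K2_ok TF_l14118 _)
                (CovZ.leaf K2_ok TF_l14119 _)))
              (CovZ.n1 (16240, -6080) (by decide +kernel)
               (CovZ.leaf K2_ok TF_l14120 _)
               (CovZ.leaf K2_ok TF_l14121 _)))
             (CovZ.n1 (16080, -6160) (by decide +kernel)
              (CovZ.leaf K2_ok TF_l14122 _)
              (CovZ.n1 (16160, -6160) (by decide +kernel)
               (CovZ.leaf K2_ok TF_l14123 _)
               (CovZ.leaf K2_ok TF_l14124 _))))))))

theorem TF_u6 : CovZ TF_M (toL (selN TF_LN 103679786210257877041030869868427084072)) [0, 7, 4, 3] (15360, -7680) (16640, -6400) (15360, -5120) :=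
    (CovZ.subM 103679783673699393722931439366085542184 (by decide +kernel)
     (CovZ.n2 (15360, -6400) (by decide +kernel)
      (CovZ.n2 (16000, -5760) (by decide +kernel)
       (CovZ.n2 (16000, -6400) (by decide +kernel)
        TF_u4
        TF_u5)
       (CovZ.n1 (15360, -5760) (by decide +kernel)
        (CovZ.leaf K2_ok TF_l5613 _)
        (CovZ.n1 (15680, -6080) (by decide +kernel)
         (CovZ.n2 (15360, -6080) (by decide +kernel)
          (CovZ.leaf K2_ok TF_l5614 _)
          (CovZ.n1 (15520, -6240) (by decide +kernel)
           (CovZ.n2 (15360, -6240) (by decide +kernel)
            (CovZ.leaf K2_ok TF_l5615 _)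
            (CovZ.subM 98362871690559730231316208925940908032 (by decide +kernel)
             (CovZ.n1 (15440, -6320) (by decide +kernel)
              (CovZ.n2 (15360, -6320) (by decide +kernel)
               (CovZ.leaf K2_ok TF_l5616 _)
               (CovZ.n1 (15400, -6360) (by decide +kernel)
                (CovZ.leaf K2_ok TF_l14125 _)
                (CovZ.leaf K2_ok TF_l14126 _)))
              (CovZ.n1 (15440, -6240) (by decide +kernel)
               (CovZ.leaf K2_ok TF_l5617 _)
               (CovZ.leaf K2_ok TF_l5618 _)))))
           (CovZ.n1 (15520, -6080) (by decide +kernel)
            (CovZ.n2 (15600, -6160) (by decide +kernel)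
             (CovZ.leaf K2_ok TF_l5619 _)
             (CovZ.leaf K2_ok TF_l5620 _))
            (CovZ.leaf K2_ok TF_l5621 _))))
         (CovZ.n1 (15680, -5760) (by decide +kernel)
          (CovZ.n2 (15840, -5920) (by decide +kernel)
           (CovZ.leaf K2_ok TF_l5622 _)
           (CovZ.leaf K2_ok TF_l5623 _))
          (CovZ.n1 (15520, -5920) (by decide +kernel)
           (CovZ.leaf K2_ok TF_l5624 _)
           (CovZ.leaf K2_ok TF_l5625 _))))))
      (CovZ.subM 13292279960325038807608831152601694208 (by decide +kernel)
       (CovZ.n1 (16000, -7040) (by decide +kernel)
        (CovZ.n2 (15360, -7040) (by decide +kernel)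
         (CovZ.n2 (15680, -6720) (by decide +kernel)
          (CovZ.badM (by decide +kernel))
          (CovZ.n1 (15360, -6720) (by decide +kernel)
           (CovZ.n2 (15520, -6560) (by decide +kernel)
            (CovZ.badM (by decide +kernel))
            (CovZ.n1 (15360, -6560) (by decide +kernel)
             (CovZ.n2 (15440, -6480) (by decide +kernel)
              (CovZ.badM (by decide +kernel))
              (CovZ.badM (by decide +kernel)))
             (CovZ.badM (by decide +kernel))))
           (CovZ.badM (by decide +kernel))))
         (CovZ.badM (by decide +kernel)))
        (CovZ.n1 (16000, -6400) (by decide +kernel)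
         (CovZ.badM (by decide +kernel))
         (CovZ.n1 (15680, -6720) (by decide +kernel)
          (CovZ.n2 (15680, -6400) (by decide +kernel)
           (CovZ.badM (by decide +kernel))
           (CovZ.n1 (15520, -6560) (by decide +kernel)
            (CovZ.n2 (15520, -6400) (by decide +kernel)
             (CovZ.n2 (15600, -6480) (by decide +kernel)
              (CovZ.n2 (15520, -6480) (by decide +kernel)
               (CovZ.n2 (15560, -6440) (by decide +kernel)
                (CovZ.badM (by decide +kernel))
                (CovZ.n1 (15520, -6440) (by decide +kernel)
                 (CovZ.leaf K2_ok TF_l14127 _)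
                 (CovZ.badM (by decide +kernel))))
               (CovZ.badM (by decide +kernel)))
              (CovZ.n1 (15600, -6400) (by decide +kernel)
               (CovZ.n2 (15640, -6440) (by decide +kernel)
                (CovZ.n2 (15600, -6440) (by decide +kernel)
                 (CovZ.leaf K2_ok TF_l14128 _)
                 (CovZ.badM (by decide +kernel)))
                (CovZ.n1 (15640, -6400) (by decide +kernel)
                 (CovZ.n2 (15660, -6420) (by decide +kernel)
                  (CovZ.leaf K2_ok TF_l14129 _)
                  (CovZ.n1 (15660, -6400) (by decide +kernel)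
                   (CovZ.badM (by decide +kernel))
                   (CovZ.leaf K2_ok TF_l14130 _)))
                 (CovZ.n1 (15620, -6420) (by decide +kernel)
                  (CovZ.leaf K2_ok TF_l14131 _)
                  (CovZ.n1 (15640, -6420) (by decide +kernel)
                   (CovZ.leaf K2_ok TF_l14132 _)
                   (CovZ.leaf K2_ok TF_l14133 _)))))
               (CovZ.n1 (15560, -6440) (by decide +kernel)
                (CovZ.n2 (15560, -6400) (by decide +kernel)
                 (CovZ.n2 (15580, -6420) (by decide +kernel)
                  (CovZ.leaf K2_ok TF_l14134 _)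
                  (CovZ.leaf K2_ok TF_l14135 _))
                 (CovZ.n1 (15540, -6420) (by decide +kernel)
                  (CovZ.leaf K2_ok TF_l14136 _)
                  (CovZ.leaf K2_ok TF_l14137 _)))
                (CovZ.n1 (15600, -6440) (by decide +kernel)
                 (CovZ.badM (by decide +kernel))
                 (CovZ.n1 (15580, -6420) (by decide +kernel)
                  (CovZ.n2 (15600, -6420) (by decide +kernel)
                   (CovZ.badM (by decide +kernel))
                   (CovZ.leaf K2_ok TF_l14138 _))
                  (CovZ.badM (by decide +kernel)))))))
             (CovZ.n1 (15440, -6480) (by decide +kernel)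
              (CovZ.n2 (15440, -6400) (by decide +kernel)
               (CovZ.n2 (15480, -6440) (by decide +kernel)
                (CovZ.n2 (15440, -6440) (by decide +kernel)
                 (CovZ.leaf K2_ok TF_l14139 _)
                 (CovZ.badM (by decide +kernel)))
                (CovZ.n1 (15480, -6400) (by decide +kernel)
                 (CovZ.leaf K2_ok TF_l14140 _)
                 (CovZ.leaf K2_ok TF_l14141 _)))
               (CovZ.n1 (15400, -6440) (by decide +kernel)
                (CovZ.n2 (15400, -6400) (by decide +kernel)
                 (CovZ.leaf K2_ok TF_l14142 _)
                 (CovZ.leaf K2_ok TF_l14143 _))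
                (CovZ.n1 (15440, -6440) (by decide +kernel)
                 (CovZ.n2 (15420, -6460) (by decide +kernel)
                  (CovZ.leaf K2_ok TF_l14144 _)
                  (CovZ.badM (by decide +kernel)))
                 (CovZ.leaf K2_ok TF_l14145 _))))
              (CovZ.n1 (15520, -6480) (by decide +kernel)
               (CovZ.badM (by decide +kernel))
               (CovZ.n1 (15480, -6440) (by decide +kernel)
                (CovZ.n2 (15520, -6440) (by decide +kernel)
                 (CovZ.badM (by decide +kernel))
                 (CovZ.leaf K2_ok TF_l14146 _))
                (CovZ.badM (by decide +kernel))))))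
            (CovZ.n1 (15680, -6560) (by decide +kernel)
             (CovZ.badM (by decide +kernel))
             (CovZ.n1 (15600, -6480) (by decide +kernel)
              (CovZ.n2 (15680, -6480) (by decide +kernel)
               (CovZ.badM (by decide +kernel))
               (CovZ.n1 (15640, -6440) (by decide +kernel)
                (CovZ.n2 (15680, -6440) (by decide +kernel)
                 (CovZ.badM (by decide +kernel))
                 (CovZ.n1 (15660, -6420) (by decide +kernel)
                  (CovZ.badM (by decide +kernel))
                  (CovZ.badM (by decide +kernel))))
                (CovZ.badM (by decide +kernel))))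
              (CovZ.badM (by decide +kernel))))))
          (CovZ.badM (by decide +kernel))))))))

theorem TF_u7 : CovZ TF_M (toL (selN TF_LN 103679786210257877041030869868427084072)) [0, 7, 4, 3] (16640, -6400) (17920, -5120) (15360, -5120) :=
    (CovZ.n1 (16640, -5120) (by decide +kernel)
     (CovZ.n2 (17280, -5760) (by decide +kernel)
      (CovZ.subM 85070591732710571511519544618430496808 (by decide +kernel)
       (CovZ.n2 (16640, -5760) (by decide +kernel)
        (CovZ.n2 (16960, -5440) (by decide +kernel)
         (CovZ.n2 (16960, -5760) (by decide +kernel)
          (CovZ.n2 (16800, -5600) (by decide +kernel)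
           (CovZ.leaf K2_ok TF_l5626 _)
           (CovZ.leaf K2_ok TF_l5627 _))
          (CovZ.leaf K2_ok TF_l5628 _))
         (CovZ.n1 (16640, -5440) (by decide +kernel)
          (CovZ.leaf K2_ok TF_l5629 _)
          (CovZ.n1 (16800, -5600) (by decide +kernel)
           (CovZ.leaf K2_ok TF_l5630 _)
           (CovZ.leaf K2_ok TF_l5631 _))))
        (CovZ.n1 (16960, -6080) (by decide +kernel)
         (CovZ.subM 2475955636434488664218664992 (by decide +kernel)
          (CovZ.n2 (16640, -6080) (by decide +kernel)
           (CovZ.n2 (16800, -5920) (by decide +kernel)
            (CovZ.n2 (16800, -6080) (by decide +kernel)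
             (CovZ.n2 (16720, -6000) (by decide +kernel)
              (CovZ.leaf K2_ok TF_l5632 _)
              (CovZ.leaf K2_ok TF_l5633 _))
             (CovZ.leaf K2_ok TF_l5634 _))
            (CovZ.n1 (16640, -5920) (by decide +kernel)
             (CovZ.leaf K2_ok TF_l5635 _)
             (CovZ.n1 (16720, -6000) (by decide +kernel)
              (CovZ.leaf K2_ok TF_l5636 _)
              (CovZ.leaf K2_ok TF_l5637 _))))
           (CovZ.n1 (16800, -6240) (by decide +kernel)
            (CovZ.n2 (16640, -6240) (by decide +kernel)
             (CovZ.n2 (16720, -6160) (by decide +kernel)
              (CovZ.n2 (16720, -6240) (by decide +kernel)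
               (CovZ.n2 (16680, -6200) (by decide +kernel)
                (CovZ.n2 (16720, -6200) (by decide +kernel)
                 (CovZ.badM (by decide +kernel))
                 (CovZ.leaf K2_ok TF_l14147 _))
                (CovZ.badM (by decide +kernel)))
               (CovZ.n1 (16760, -6200) (by decide +kernel)
                (CovZ.badM (by decide +kernel))
                (CovZ.n1 (16720, -6200) (by decide +kernel)
                 (CovZ.leaf K2_ok TF_l14148 _)
                 (CovZ.badM (by decide +kernel)))))
              (CovZ.n1 (16640, -6160) (by decide +kernel)
               (CovZ.leaf K2_ok TF_l14149 _)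
               (CovZ.n1 (16680, -6200) (by decide +kernel)
                (CovZ.n2 (16640, -6200) (by decide +kernel)
                 (CovZ.leaf K2_ok TF_l14150 _)
                 (CovZ.n1 (16660, -6220) (by decide +kernel)
                  (CovZ.leaf K2_ok TF_l14151 _)
                  (CovZ.leaf K2_ok TF_l14152 _)))
                (CovZ.n1 (16680, -6160) (by decide +kernel)
                 (CovZ.leaf K2_ok TF_l14153 _)
                 (CovZ.leaf K2_ok TF_l14154 _)))))
             (CovZ.badM (by decide +kernel)))
            (CovZ.n1 (16800, -6080) (by decide +kernel)
             (CovZ.n2 (16880, -6160) (by decide +kernel)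
              (CovZ.n2 (16800, -6160) (by decide +kernel)
               (CovZ.leaf K2_ok TF_l14155 _)
               (CovZ.n1 (16840, -6200) (by decide +kernel)
                (CovZ.n2 (16800, -6200) (by decide +kernel)
                 (CovZ.leaf K2_ok TF_l14156 _)
                 (CovZ.badM (by decide +kernel)))
                (CovZ.n1 (16840, -6160) (by decide +kernel)
                 (CovZ.leaf K2_ok TF_l14157 _)
                 (CovZ.leaf K2_ok TF_l14158 _))))
              (CovZ.n1 (16880, -6080) (by decide +kernel)
               (CovZ.n2 (16920, -6120) (by decide +kernel)
                (CovZ.leaf K2_ok TF_l14159 _)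
                (CovZ.leaf K2_ok TF_l14160 _))
               (CovZ.n1 (16840, -6120) (by decide +kernel)
                (CovZ.leaf K2_ok TF_l14161 _)
                (CovZ.leaf K2_ok TF_l14162 _))))
             (CovZ.n1 (16720, -6160) (by decide +kernel)
              (CovZ.n2 (16720, -6080) (by decide +kernel)
               (CovZ.n2 (16760, -6120) (by decide +kernel)
                (CovZ.leaf K2_ok TF_l14163 _)
                (CovZ.leaf K2_ok TF_l14164 _))
               (CovZ.leaf K2_ok TF_l14165 _))
              (CovZ.n1 (16800, -6160) (by decide +kernel)
               (CovZ.n2 (16760, -6200) (by decide +kernel)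
                (CovZ.n2 (16760, -6160) (by decide +kernel)
                 (CovZ.leaf K2_ok TF_l14166 _)
                 (CovZ.leaf K2_ok TF_l14167 _))
                (CovZ.n1 (16800, -6200) (by decide +kernel)
                 (CovZ.badM (by decide +kernel))
                 (CovZ.leaf K2_ok TF_l14168 _)))
               (CovZ.n1 (16760, -6120) (by decide +kernel)
                (CovZ.leaf K2_ok TF_l14169 _)
                (CovZ.leaf K2_ok TF_l14170 _))))))))
         (CovZ.n1 (16960, -5760) (by decide +kernel)
          (CovZ.n2 (17120, -5920) (by decide +kernel)
           (CovZ.n2 (16960, -5920) (by decide +kernel)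
            (CovZ.leaf K2_ok TF_l5638 _)
            (CovZ.n1 (17040, -6000) (by decide +kernel)
             (CovZ.leaf K2_ok TF_l5639 _)
             (CovZ.leaf K2_ok TF_l5640 _)))
           (CovZ.n1 (17120, -5760) (by decide +kernel)
            (CovZ.leaf K2_ok TF_l5641 _)
            (CovZ.leaf K2_ok TF_l5642 _)))
          (CovZ.subM 2475955636434488664218665000 (by decide +kernel)
           (CovZ.n1 (16800, -5920) (by decide +kernel)
            (CovZ.n2 (16800, -5760) (by decide +kernel)
             (CovZ.leaf K2_ok TF_l5643 _)
             (CovZ.leaf K2_ok TF_l5644 _))
            (CovZ.n1 (16960, -5920) (by decide +kernel)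
             (CovZ.n2 (16880, -6000) (by decide +kernel)
              (CovZ.leaf K2_ok TF_l5645 _)
              (CovZ.leaf K2_ok TF_l5646 _))
             (CovZ.leaf K2_ok TF_l5647 _))))))))
      (CovZ.n1 (17280, -5120) (by decide +kernel)
       (CovZ.n2 (17600, -5440) (by decide +kernel)
        (CovZ.n2 (17280, -5440) (by decide +kernel)
         (CovZ.leaf K2_ok TF_l5648 _)
         (CovZ.n1 (17440, -5600) (by decide +kernel)
          (CovZ.leaf K2_ok TF_l5649 _)
          (CovZ.leaf K2_ok TF_l5650 _)))
        (CovZ.n1 (17600, -5120) (by decide +kernel)
         (CovZ.leaf K2_ok TF_l5651 _)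
         (CovZ.leaf K2_ok TF_l5652 _)))
       (CovZ.n1 (16960, -5440) (by decide +kernel)
        (CovZ.n2 (16960, -5120) (by decide +kernel)
         (CovZ.leaf K2_ok TF_l5653 _)
         (CovZ.leaf K2_ok TF_l5654 _))
        (CovZ.n1 (17280, -5440) (by decide +kernel)
         (CovZ.n2 (17120, -5600) (by decide +kernel)
          (CovZ.leaf K2_ok TF_l5655 _)
          (CovZ.leaf K2_ok TF_l5656 _))
         (CovZ.leaf K2_ok TF_l5657 _)))))
     (CovZ.n1 (16000, -5760) (by decide +kernel)
      (CovZ.n2 (16000, -5120) (by decide +kernel)
       (CovZ.n2 (16320, -5440) (by decide +kernel)
        (CovZ.leaf K2_ok TF_l5658 _)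
        (CovZ.leaf K2_ok TF_l5659 _))
       (CovZ.n1 (15680, -5440) (by decide +kernel)
        (CovZ.leaf K2_ok TF_l5660 _)
        (CovZ.n1 (16000, -5440) (by decide +kernel)
         (CovZ.leaf K2_ok TF_l5661 _)
         (CovZ.leaf K2_ok TF_l5662 _))))
      (CovZ.subM 85070591732710571511519544618430496808 (by decide +kernel)
       (CovZ.n1 (16640, -5760) (by decide +kernel)
        (CovZ.subM 85070591732710571502278140522160717856 (by decide +kernel)
         (CovZ.n2 (16320, -6080) (by decide +kernel)
          (CovZ.n2 (16320, -5760) (by decide +kernel)
           (CovZ.n2 (16480, -5920) (by decide +kernel)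
            (CovZ.n2 (16320, -5920) (by decide +kernel)
             (CovZ.leaf K2_ok TF_l5663 _)
             (CovZ.n1 (16400, -6000) (by decide +kernel)
              (CovZ.leaf K2_ok TF_l5664 _)
              (CovZ.leaf K2_ok TF_l5665 _)))
            (CovZ.n1 (16480, -5760) (by decide +kernel)
             (CovZ.leaf K2_ok TF_l5666 _)
             (CovZ.leaf K2_ok TF_l5667 _)))
           (CovZ.n1 (16160, -5920) (by decide +kernel)
            (CovZ.leaf K2_ok TF_l5668 _)
            (CovZ.n1 (16320, -5920) (by decide +kernel)
             (CovZ.leaf K2_ok TF_l5669 _)
             (CovZ.leaf K2_ok TF_l5670 _))))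
          (CovZ.n1 (16640, -6080) (by decide +kernel)
           (CovZ.n2 (16480, -6240) (by decide +kernel)
            (CovZ.n2 (16480, -6080) (by decide +kernel)
             (CovZ.n2 (16560, -6160) (by decide +kernel)
              (CovZ.n2 (16480, -6160) (by decide +kernel)
               (CovZ.leaf K2_ok TF_l14171 _)
               (CovZ.n1 (16520, -6200) (by decide +kernel)
                (CovZ.leaf K2_ok TF_l14172 _)
                (CovZ.leaf K2_ok TF_l14173 _)))
              (CovZ.n1 (16560, -6080) (by decide +kernel)
               (CovZ.n2 (16600, -6120) (by decide +kernel)
                (CovZ.leaf K2_ok TF_l14174 _)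
                (CovZ.leaf K2_ok TF_l14175 _))
               (CovZ.leaf K2_ok TF_l14176 _)))
             (CovZ.n1 (16400, -6160) (by decide +kernel)
              (CovZ.n2 (16400, -6080) (by decide +kernel)
               (CovZ.leaf K2_ok TF_l14177 _)
               (CovZ.leaf K2_ok TF_l14178 _))
              (CovZ.n1 (16480, -6160) (by decide +kernel)
               (CovZ.n2 (16440, -6200) (by decide +kernel)
                (CovZ.leaf K2_ok TF_l14179 _)
                (CovZ.n1 (16480, -6200) (by decide +kernel)
                 (CovZ.leaf K2_ok TF_l14180 _)
                 (CovZ.leaf K2_ok TF_l14181 _)))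
               (CovZ.leaf K2_ok TF_l14182 _))))
            (CovZ.n1 (16640, -6240) (by decide +kernel)
             (CovZ.badM (by decide +kernel))
             (CovZ.n1 (16560, -6160) (by decide +kernel)
              (CovZ.n2 (16640, -6160) (by decide +kernel)
               (CovZ.n2 (16600, -6200) (by decide +kernel)
                (CovZ.leaf K2_ok TF_l14183 _)
                (CovZ.n1 (16640, -6200) (by decide +kernel)
                 (CovZ.leaf K2_ok TF_l14184 _)
                 (CovZ.leaf K2_ok TF_l14185 _)))
               (CovZ.n1 (16600, -6120) (by decide +kernel)
                (CovZ.leaf K2_ok TF_l14186 _)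
                (CovZ.leaf K2_ok TF_l14187 _)))
              (CovZ.n1 (16560, -6240) (by decide +kernel)
               (CovZ.n2 (16520, -6200) (by decide +kernel)
                (CovZ.n2 (16560, -6200) (by decide +kernel)
                 (CovZ.leaf K2_ok TF_l14188 _)
                 (CovZ.leaf K2_ok TF_l14189 _))
                (CovZ.n1 (16520, -6240) (by decide +kernel)
                 (CovZ.leaf K2_ok TF_l14190 _)
                 (CovZ.leaf K2_ok TF_l14191 _)))
               (CovZ.n1 (16600, -6200) (by decide +kernel)
                (CovZ.n2 (16600, -6240) (by decide +kernel)
                 (CovZ.leaf K2_ok TF_l14192 _)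
                 (CovZ.leaf K2_ok TF_l14193 _))
                (CovZ.leaf K2_ok TF_l14194 _))))))
           (CovZ.n1 (16480, -5920) (by decide +kernel)
            (CovZ.n2 (16640, -5920) (by decide +kernel)
             (CovZ.n2 (16560, -6000) (by decide +kernel)
              (CovZ.leaf K2_ok TF_l5671 _)
              (CovZ.leaf K2_ok TF_l5672 _))
             (CovZ.leaf K2_ok TF_l5673 _))
            (CovZ.n1 (16480, -6080) (by decide +kernel)
             (CovZ.n2 (16400, -6000) (by decide +kernel)
              (CovZ.leaf K2_ok TF_l5674 _)
              (CovZ.leaf K2_ok TF_l5675 _))
             (CovZ.leaf K2_ok TF_l5676 _))))))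
        (CovZ.n1 (16320, -5440) (by decide +kernel)
         (CovZ.n2 (16640, -5440) (by decide +kernel)
          (CovZ.leaf K2_ok TF_l5677 _)
          (CovZ.leaf K2_ok TF_l5678 _))
         (CovZ.n1 (16320, -5760) (by decide +kernel)
          (CovZ.leaf K2_ok TF_l5679 _)
          (CovZ.leaf K2_ok TF_l5680 _)))))))

theorem TF_u8 : CovZ TF_M (toL (selN TF_LN 669808833785469497546216150191309352)) [0, 7, 4, 3] (17920, -6400) (18560, -6400) (18560, -5760) :=
    (CovZ.n2 (18240, -6080) (by decide +kernel)
        (CovZ.subM 664616535688881293818673521666031656 (by decide +kernel)
         (CovZ.n2 (18560, -6080) (by decide +kernel)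
          (CovZ.subM 664613997892457936451903805018079232 (by decide +kernel)
           (CovZ.n2 (18400, -6240) (by decide +kernel)
            (CovZ.n2 (18400, -6080) (by decide +kernel)
             (CovZ.n2 (18480, -6160) (by decide +kernel)
              (CovZ.n2 (18400, -6160) (by decide +kernel)
               (CovZ.n2 (18440, -6120) (by decide +kernel)
                (CovZ.n2 (18440, -6160) (by decide +kernel)
                 (CovZ.n2 (18420, -6140) (by decide +kernel)
                  (CovZ.n2 (18440, -6140) (by decide +kernel)
                   (CovZ.badM (by decide +kernel))
                   (CovZ.leaf K2_ok TF_l14338 _))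
                  (CovZ.badM (by decide +kernel)))
                 (CovZ.n1 (18460, -6140) (by decide +kernel)
                  (CovZ.badM (by decide +kernel))
                  (CovZ.n1 (18440, -6140) (by decide +kernel)
                   (CovZ.leaf K2_ok TF_l14339 _)
                   (CovZ.badM (by decide +kernel)))))
                (CovZ.n1 (18400, -6120) (by decide +kernel)
                 (CovZ.leaf K2_ok TF_l14340 _)
                 (CovZ.n1 (18420, -6140) (by decide +kernel)
                  (CovZ.n2 (18400, -6140) (by decide +kernel)
                   (CovZ.leaf K2_ok TF_l14341 _)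
                   (CovZ.badM (by decide +kernel)))
                  (CovZ.leaf K2_ok TF_l14342 _))))
               (CovZ.badM (by decide +kernel)))
              (CovZ.n1 (18480, -6080) (by decide +kernel)
               (CovZ.n2 (18520, -6120) (by decide +kernel)
                (CovZ.n2 (18480, -6120) (by decide +kernel)
                 (CovZ.leaf K2_ok TF_l14343 _)
                 (CovZ.n1 (18500, -6140) (by decide +kernel)
                  (CovZ.leaf K2_ok TF_l14344 _)
                  (CovZ.leaf K2_ok TF_l14345 _)))
                (CovZ.n1 (18520, -6080) (by decide +kernel)
                 (CovZ.n2 (18540, -6100) (by decide +kernel)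
                  (CovZ.leaf K2_ok TF_l14346 _)
                  (CovZ.leaf K2_ok TF_l14347 _))
                 (CovZ.leaf K2_ok TF_l14348 _)))
               (CovZ.n1 (18440, -6120) (by decide +kernel)
                (CovZ.n2 (18440, -6080) (by decide +kernel)
                 (CovZ.n2 (18460, -6100) (by decide +kernel)
                  (CovZ.leaf K2_ok TF_l14349 _)
                  (CovZ.leaf K2_ok TF_l14350 _))
                 (CovZ.leaf K2_ok TF_l14351 _))
                (CovZ.n1 (18480, -6120) (by decide +kernel)
                 (CovZ.n2 (18460, -6140) (by decide +kernel)
                  (CovZ.leaf K2_ok TF_l14352 _)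
                  (CovZ.n1 (18480, -6140) (by decide +kernel)
                   (CovZ.badM (by decide +kernel))
                   (CovZ.leaf K2_ok TF_l14353 _)))
                 (CovZ.n1 (18460, -6100) (by decide +kernel)
                  (CovZ.leaf K2_ok TF_l14354 _)
                  (CovZ.leaf K2_ok TF_l14355 _))))))
             (CovZ.n1 (18320, -6160) (by decide +kernel)
              (CovZ.n2 (18320, -6080) (by decide +kernel)
               (CovZ.n2 (18360, -6120) (by decide +kernel)
                (CovZ.n2 (18320, -6120) (by decide +kernel)
                 (CovZ.leaf K2_ok TF_l14356 _)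
                 (CovZ.n1 (18340, -6140) (by decide +kernel)
                  (CovZ.n2 (18320, -6140) (by decide +kernel)
                   (CovZ.leaf K2_ok TF_l14357 _)
                   (CovZ.badM (by decide +kernel)))
                  (CovZ.n1 (18340, -6120) (by decide +kernel)
                   (CovZ.leaf K2_ok TF_l14358 _)
                   (CovZ.leaf K2_ok TF_l14359 _))))
                (CovZ.n1 (18360, -6080) (by decide +kernel)
                 (CovZ.n2 (18380, -6100) (by decide +kernel)
                  (CovZ.leaf K2_ok TF_l14360 _)
                  (CovZ.leaf K2_ok TF_l14361 _))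
                 (CovZ.leaf K2_ok TF_l14362 _)))
               (CovZ.n1 (18280, -6120) (by decide +kernel)
                (CovZ.n2 (18280, -6080) (by decide +kernel)
                 (CovZ.n2 (18300, -6100) (by decide +kernel)
                  (CovZ.leaf K2_ok TF_l14363 _)
                  (CovZ.leaf K2_ok TF_l14364 _))
                 (CovZ.leaf K2_ok TF_l14365 _))
                (CovZ.n1 (18320, -6120) (by decide +kernel)
                 (CovZ.n2 (18300, -6140) (by decide +kernel)
                  (CovZ.n2 (18300, -6120) (by decide +kernel)
                   (CovZ.leaf K2_ok TF_l14366 _)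
                   (CovZ.leaf K2_ok TF_l14367 _))
                  (CovZ.n1 (18320, -6140) (by decide +kernel)
                   (CovZ.badM (by decide +kernel))
                   (CovZ.leaf K2_ok TF_l14368 _)))
                 (CovZ.n1 (18300, -6100) (by decide +kernel)
                  (CovZ.leaf K2_ok TF_l14369 _)
                  (CovZ.leaf K2_ok TF_l14370 _)))))
              (CovZ.n1 (18400, -6160) (by decide +kernel)
               (CovZ.badM (by decide +kernel))
               (CovZ.n1 (18360, -6120) (by decide +kernel)
                (CovZ.n2 (18400, -6120) (by decide +kernel)
                 (CovZ.n2 (18380, -6140) (by decide +kernel)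
                  (CovZ.leaf K2_ok TF_l14371 _)
                  (CovZ.n1 (18400, -6140) (by decide +kernel)
                   (CovZ.badM (by decide +kernel))
                   (CovZ.leaf K2_ok TF_l14372 _)))
                 (CovZ.n1 (18380, -6100) (by decide +kernel)
                  (CovZ.leaf K2_ok TF_l14373 _)
                  (CovZ.leaf K2_ok TF_l14374 _)))
                (CovZ.n1 (18360, -6160) (by decide +kernel)
                 (CovZ.n2 (18340, -6140) (by decide +kernel)
                  (CovZ.n2 (18360, -6140) (by decide +kernel)
                   (CovZ.badM (by decide +kernel))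
                   (CovZ.leaf K2_ok TF_l14375 _))
                  (CovZ.badM (by decide +kernel)))
                 (CovZ.n1 (18380, -6140) (by decide +kernel)
                  (CovZ.badM (by decide +kernel))
                  (CovZ.n1 (18360, -6140) (by decide +kernel)
                   (CovZ.leaf K2_ok TF_l14376 _)
                   (CovZ.badM (by decide +kernel)))))))))
            (CovZ.n1 (18560, -6240) (by decide +kernel)
             (CovZ.badM (by decide +kernel))
             (CovZ.n1 (18480, -6160) (by decide +kernel)
              (CovZ.n2 (18560, -6160) (by decide +kernel)
               (CovZ.badM (by decide +kernel))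
               (CovZ.n1 (18520, -6120) (by decide +kernel)
                (CovZ.n2 (18560, -6120) (by decide +kernel)
                 (CovZ.n2 (18540, -6140) (by decide +kernel)
                  (CovZ.leaf K2_ok TF_l14377 _)
                  (CovZ.n1 (18560, -6140) (by decide +kernel)
                   (CovZ.badM (by decide +kernel))
                   (CovZ.leaf K2_ok TF_l14378 _)))
                 (CovZ.n1 (18540, -6100) (by decide +kernel)
                  (CovZ.leaf K2_ok TF_l14379 _)
                  (CovZ.leaf K2_ok TF_l14380 _)))
                (CovZ.n1 (18520, -6160) (by decide +kernel)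
                 (CovZ.n2 (18500, -6140) (by decide +kernel)
                  (CovZ.n2 (18520, -6140) (by decide +kernel)
                   (CovZ.badM (by decide +kernel))
                   (CovZ.leaf K2_ok TF_l14381 _))
                  (CovZ.badM (by decide +kernel)))
                 (CovZ.n1 (18540, -6140) (by decide +kernel)
                  (CovZ.badM (by decide +kernel))
                  (CovZ.n1 (18520, -6140) (by decide +kernel)
                   (CovZ.leaf K2_ok TF_l14382 _)
                   (CovZ.badM (by decide +kernel)))))))
              (CovZ.badM (by decide +kernel))))))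
          (CovZ.n1 (18400, -5920) (by decide +kernel)
           (CovZ.n2 (18560, -5920) (by decide +kernel)
            (CovZ.n2 (18480, -6000) (by decide +kernel)
             (CovZ.n2 (18480, -5920) (by decide +kernel)
              (CovZ.leaf K2_ok TF_l5951 _)
              (CovZ.leaf K2_ok TF_l5952 _))
             (CovZ.n1 (18560, -6000) (by decide +kernel)
              (CovZ.leaf K2_ok TF_l5953 _)
              (CovZ.leaf K2_ok TF_l5954 _)))
            (CovZ.n1 (18480, -5840) (by decide +kernel)
             (CovZ.leaf K2_ok TF_l5955 _)
             (CovZ.leaf K2_ok TF_l5956 _)))
           (CovZ.n1 (18400, -6080) (by decide +kernel)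
            (CovZ.n2 (18320, -6000) (by decide +kernel)
             (CovZ.n2 (18400, -6000) (by decide +kernel)
              (CovZ.n2 (18360, -6040) (by decide +kernel)
               (CovZ.leaf K2_ok TF_l5957 _)
               (CovZ.leaf K2_ok TF_l5958 _))
              (CovZ.leaf K2_ok TF_l5959 _))
             (CovZ.n1 (18320, -6080) (by decide +kernel)
              (CovZ.n2 (18280, -6040) (by decide +kernel)
               (CovZ.leaf K2_ok TF_l5960 _)
               (CovZ.leaf K2_ok TF_l5961 _))
              (CovZ.leaf K2_ok TF_l5962 _)))
            (CovZ.n1 (18480, -6000) (by decide +kernel)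
             (CovZ.n2 (18480, -6080) (by decide +kernel)
              (CovZ.n2 (18440, -6040) (by decide +kernel)
               (CovZ.leaf K2_ok TF_l5963 _)
               (CovZ.leaf K2_ok TF_l5964 _))
              (CovZ.leaf K2_ok TF_l5965 _))
             (CovZ.n1 (18400, -6000) (by decide +kernel)
              (CovZ.leaf K2_ok TF_l5966 _)
              (CovZ.n1 (18440, -6040) (by decide +kernel)
               (CovZ.leaf K2_ok TF_l5967 _)
               (CovZ.leaf K2_ok TF_l5968 _))))))))
        (CovZ.subM 664613997892457936469935520835698688 (by decide +kernel)
         (CovZ.n1 (18240, -6400) (by decide +kernel)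
          (CovZ.n2 (18080, -6240) (by decide +kernel)
           (CovZ.n2 (18240, -6240) (by decide +kernel)
            (CovZ.badM (by decide +kernel))
            (CovZ.n1 (18160, -6160) (by decide +kernel)
             (CovZ.n2 (18240, -6160) (by decide +kernel)
              (CovZ.badM (by decide +kernel))
              (CovZ.n1 (18200, -6120) (by decide +kernel)
               (CovZ.badM (by decide +kernel))
               (CovZ.n1 (18200, -6160) (by decide +kernel)
                (CovZ.n2 (18180, -6140) (by decide +kernel)
                 (CovZ.badM (by decide +kernel))
                 (CovZ.badM (by decide +kernel)))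
                (CovZ.badM (by decide +kernel)))))
             (CovZ.badM (by decide +kernel))))
           (CovZ.badM (by decide +kernel)))
          (CovZ.n1 (18400, -6240) (by decide +kernel)
           (CovZ.badM (by decide +kernel))
           (CovZ.n1 (18240, -6240) (by decide +kernel)
            (CovZ.n2 (18320, -6160) (by decide +kernel)
             (CovZ.badM (by decide +kernel))
             (CovZ.n1 (18240, -6160) (by decide +kernel)
              (CovZ.n2 (18280, -6120) (by decide +kernel)
               (CovZ.badM (by decide +kernel))
               (CovZ.badM (by decide +kernel)))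
              (CovZ.badM (by decide +kernel))))
            (CovZ.badM (by decide +kernel)))))))

theorem TF_u9 : CovZ TF_M (toL (selN TF_LN 669808833785469497546216150191309352)) [0, 7, 4, 3] (18560, -6400) (19200, -6400) (18560, -5760) :=
    (CovZ.subM 664616535688881293818673521666031656 (by decide +kernel)
        (CovZ.n1 (18880, -6080) (by decide +kernel)
         (CovZ.subM 274877906944 (by decide +kernel)
          (CovZ.n2 (18880, -6400) (by decide +kernel)
           (CovZ.n2 (18720, -6240) (by decide +kernel)
            (CovZ.n2 (18880, -6240) (by decide +kernel)
             (CovZ.badM (by decide +kernel))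
             (CovZ.n1 (18800, -6160) (by decide +kernel)
              (CovZ.n2 (18880, -6160) (by decide +kernel)
               (CovZ.badM (by decide +kernel))
               (CovZ.n1 (18840, -6120) (by decide +kernel)
                (CovZ.badM (by decide +kernel))
                (CovZ.n1 (18840, -6160) (by decide +kernel)
                 (CovZ.n2 (18820, -6140) (by decide +kernel)
                  (CovZ.badM (by decide +kernel))
                  (CovZ.badM (by decide +kernel)))
                 (CovZ.badM (by decide +kernel)))))
              (CovZ.badM (by decide +kernel))))
            (CovZ.badM (by decide +kernel)))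
           (CovZ.n1 (19040, -6240) (by decide +kernel)
            (CovZ.badM (by decide +kernel))
            (CovZ.n1 (18880, -6240) (by decide +kernel)
             (CovZ.badM (by decide +kernel))
             (CovZ.badM (by decide +kernel))))))
         (CovZ.n1 (18560, -6080) (by decide +kernel)
          (CovZ.n2 (18720, -5920) (by decide +kernel)
           (CovZ.n2 (18720, -6080) (by decide +kernel)
            (CovZ.n2 (18640, -6000) (by decide +kernel)
             (CovZ.n2 (18720, -6000) (by decide +kernel)
              (CovZ.n2 (18680, -6040) (by decide +kernel)
               (CovZ.leaf K2_ok TF_l5969 _)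
               (CovZ.leaf K2_ok TF_l5970 _))
              (CovZ.leaf K2_ok TF_l5971 _))
             (CovZ.n1 (18640, -6080) (by decide +kernel)
              (CovZ.n2 (18600, -6040) (by decide +kernel)
               (CovZ.leaf K2_ok TF_l5972 _)
               (CovZ.leaf K2_ok TF_l5973 _))
              (CovZ.leaf K2_ok TF_l5974 _)))
            (CovZ.n1 (18800, -6000) (by decide +kernel)
             (CovZ.n2 (18800, -6080) (by decide +kernel)
              (CovZ.n2 (18760, -6040) (by decide +kernel)
               (CovZ.leaf K2_ok TF_l5975 _)
               (CovZ.leaf K2_ok TF_l5976 _))
              (CovZ.leaf K2_ok TF_l5977 _))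
             (CovZ.n1 (18720, -6000) (by decide +kernel)
              (CovZ.leaf K2_ok TF_l5978 _)
              (CovZ.n1 (18760, -6040) (by decide +kernel)
               (CovZ.leaf K2_ok TF_l5979 _)
               (CovZ.leaf K2_ok TF_l5980 _)))))
           (CovZ.n1 (18560, -5920) (by decide +kernel)
            (CovZ.leaf K2_ok TF_l5981 _)
            (CovZ.n1 (18640, -6000) (by decide +kernel)
             (CovZ.n2 (18560, -6000) (by decide +kernel)
              (CovZ.leaf K2_ok TF_l5982 _)
              (CovZ.n1 (18600, -6040) (by decide +kernel)
               (CovZ.leaf K2_ok TF_l5983 _)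
               (CovZ.leaf K2_ok TF_l5984 _)))
             (CovZ.n1 (18640, -5920) (by decide +kernel)
              (CovZ.leaf K2_ok TF_l5985 _)
              (CovZ.leaf K2_ok TF_l5986 _)))))
          (CovZ.subM 274877906944 (by decide +kernel)
           (CovZ.n1 (18720, -6240) (by decide +kernel)
            (CovZ.n2 (18560, -6240) (by decide +kernel)
             (CovZ.n2 (18640, -6160) (by decide +kernel)
              (CovZ.badM (by decide +kernel))
              (CovZ.n1 (18560, -6160) (by decide +kernel)
               (CovZ.n2 (18600, -6120) (by decide +kernel)
                (CovZ.n2 (18600, -6160) (by decide +kernel)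
                 (CovZ.n2 (18580, -6140) (by decide +kernel)
                  (CovZ.n2 (18600, -6140) (by decide +kernel)
                   (CovZ.badM (by decide +kernel))
                   (CovZ.leaf K2_ok TF_l14383 _))
                  (CovZ.badM (by decide +kernel)))
                 (CovZ.n1 (18620, -6140) (by decide +kernel)
                  (CovZ.badM (by decide +kernel))
                  (CovZ.n1 (18600, -6140) (by decide +kernel)
                   (CovZ.leaf K2_ok TF_l14384 _)
                   (CovZ.badM (by decide +kernel)))))
                (CovZ.n1 (18560, -6120) (by decide +kernel)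
                 (CovZ.leaf K2_ok TF_l14385 _)
                 (CovZ.n1 (18580, -6140) (by decide +kernel)
                  (CovZ.n2 (18560, -6140) (by decide +kernel)
                   (CovZ.leaf K2_ok TF_l14386 _)
                   (CovZ.badM (by decide +kernel)))
                  (CovZ.n1 (18580, -6120) (by decide +kernel)
                   (CovZ.leaf K2_ok TF_l14387 _)
                   (CovZ.leaf K2_ok TF_l14388 _)))))
               (CovZ.badM (by decide +kernel))))
             (CovZ.badM (by decide +kernel)))
            (CovZ.n1 (18720, -6080) (by decide +kernel)
             (CovZ.n2 (18800, -6160) (by decide +kernel)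
              (CovZ.n2 (18720, -6160) (by decide +kernel)
               (CovZ.n2 (18760, -6120) (by decide +kernel)
                (CovZ.n2 (18760, -6160) (by decide +kernel)
                 (CovZ.n2 (18740, -6140) (by decide +kernel)
                  (CovZ.n2 (18760, -6140) (by decide +kernel)
                   (CovZ.badM (by decide +kernel))
                   (CovZ.leaf K2_ok TF_l14389 _))
                  (CovZ.badM (by decide +kernel)))
                 (CovZ.n1 (18780, -6140) (by decide +kernel)
                  (CovZ.badM (by decide +kernel))
                  (CovZ.n1 (18760, -6140) (by decide +kernel)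
                   (CovZ.leaf K2_ok TF_l14390 _)
                   (CovZ.badM (by decide +kernel)))))
                (CovZ.n1 (18720, -6120) (by decide +kernel)
                 (CovZ.leaf K2_ok TF_l14391 _)
                 (CovZ.n1 (18740, -6140) (by decide +kernel)
                  (CovZ.n2 (18720, -6140) (by decide +kernel)
                   (CovZ.leaf K2_ok TF_l14392 _)
                   (CovZ.badM (by decide +kernel)))
                  (CovZ.leaf K2_ok TF_l14393 _))))
               (CovZ.badM (by decide +kernel)))
              (CovZ.n1 (18800, -6080) (by decide +kernel)
               (CovZ.n2 (18840, -6120) (by decide +kernel)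
                (CovZ.n2 (18800, -6120) (by decide +kernel)
                 (CovZ.leaf K2_ok TF_l14394 _)
                 (CovZ.n1 (18820, -6140) (by decide +kernel)
                  (CovZ.n2 (18800, -6140) (by decide +kernel)
                   (CovZ.leaf K2_ok TF_l14395 _)
                   (CovZ.badM (by decide +kernel)))
                  (CovZ.leaf K2_ok TF_l14396 _)))
                (CovZ.badM (by decide +kernel)))
               (CovZ.n1 (18760, -6120) (by decide +kernel)
                (CovZ.n2 (18760, -6080) (by decide +kernel)
                 (CovZ.leaf K2_ok TF_l14397 _)
                 (CovZ.leaf K2_ok TF_l14398 _))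
                (CovZ.n1 (18800, -6120) (by decide +kernel)
                 (CovZ.n2 (18780, -6140) (by decide +kernel)
                  (CovZ.leaf K2_ok TF_l14399 _)
                  (CovZ.n1 (18800, -6140) (by decide +kernel)
                   (CovZ.badM (by decide +kernel))
                   (CovZ.leaf K2_ok TF_l14400 _)))
                 (CovZ.leaf K2_ok TF_l14401 _)))))
             (CovZ.n1 (18640, -6160) (by decide +kernel)
              (CovZ.n2 (18640, -6080) (by decide +kernel)
               (CovZ.n2 (18680, -6120) (by decide +kernel)
                (CovZ.n2 (18640, -6120) (by decide +kernel)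
                 (CovZ.leaf K2_ok TF_l14402 _)
                 (CovZ.n1 (18660, -6140) (by decide +kernel)
                  (CovZ.n2 (18640, -6140) (by decide +kernel)
                   (CovZ.leaf K2_ok TF_l14403 _)
                   (CovZ.badM (by decide +kernel)))
                  (CovZ.leaf K2_ok TF_l14404 _)))
                (CovZ.n1 (18680, -6080) (by decide +kernel)
                 (CovZ.n2 (18700, -6100) (by decide +kernel)
                  (CovZ.leaf K2_ok TF_l14405 _)
                  (CovZ.leaf K2_ok TF_l14406 _))
                 (CovZ.leaf K2_ok TF_l14407 _)))
               (CovZ.n1 (18600, -6120) (by decide +kernel)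
                (CovZ.n2 (18600, -6080) (by decide +kernel)
                 (CovZ.leaf K2_ok TF_l14408 _)
                 (CovZ.leaf K2_ok TF_l5987 _))
                (CovZ.n1 (18640, -6120) (by decide +kernel)
                 (CovZ.n2 (18620, -6140) (by decide +kernel)
                  (CovZ.leaf K2_ok TF_l14409 _)
                  (CovZ.n1 (18640, -6140) (by decide +kernel)
                   (CovZ.badM (by decide +kernel))
                   (CovZ.leaf K2_ok TF_l14410 _)))
                 (CovZ.n1 (18620, -6100) (by decide +kernel)
                  (CovZ.leaf K2_ok TF_l14411 _)
                  (CovZ.leaf K2_ok TF_l14412 _)))))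
              (CovZ.n1 (18720, -6160) (by decide +kernel)
               (CovZ.badM (by decide +kernel))
               (CovZ.n1 (18680, -6120) (by decide +kernel)
                (CovZ.n2 (18720, -6120) (by decide +kernel)
                 (CovZ.n2 (18700, -6140) (by decide +kernel)
                  (CovZ.leaf K2_ok TF_l14413 _)
                  (CovZ.n1 (18720, -6140) (by decide +kernel)
                   (CovZ.badM (by decide +kernel))
                   (CovZ.leaf K2_ok TF_l14414 _)))
                 (CovZ.n1 (18700, -6100) (by decide +kernel)
                  (CovZ.leaf K2_ok TF_l14415 _)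
                  (CovZ.leaf K2_ok TF_l14416 _)))
                (CovZ.n1 (18680, -6160) (by decide +kernel)
                 (CovZ.n2 (18660, -6140) (by decide +kernel)
                  (CovZ.n2 (18680, -6140) (by decide +kernel)
                   (CovZ.badM (by decide +kernel))
                   (CovZ.leaf K2_ok TF_l14417 _))
                  (CovZ.badM (by decide +kernel)))
                 (CovZ.n1 (18700, -6140) (by decide +kernel)
                  (CovZ.badM (by decide +kernel))
                  (CovZ.n1 (18680, -6140) (by decide +kernel)
                   (CovZ.leaf K2_ok TF_l14418 _)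
                   (CovZ.badM (by decide +kernel))))))))))))))

theorem TF_u10 : CovZ TF_M (toL (selN TF_LN 669808833785469497546216150191309352)) [0, 7, 4, 3] (20480, -5120) (19200, -5120) (19200, -6400) :=
    (CovZ.n2 (19840, -5760) (by decide +kernel)
      (CovZ.subM 664616536926821333104053521687249448 (by decide +kernel)
       (CovZ.n2 (19200, -5760) (by decide +kernel)
        (CovZ.n2 (19520, -5440) (by decide +kernel)
         (CovZ.n2 (19520, -5760) (by decide +kernel)
          (CovZ.n2 (19360, -5600) (by decide +kernel)
           (CovZ.leaf K2_ok TF_l6031 _)
           (CovZ.leaf K2_ok TF_l6032 _))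
          (CovZ.leaf K2_ok TF_l6033 _))
         (CovZ.n1 (19200, -5440) (by decide +kernel)
          (CovZ.leaf K2_ok TF_l6034 _)
          (CovZ.n1 (19360, -5600) (by decide +kernel)
           (CovZ.leaf K2_ok TF_l6035 _)
           (CovZ.leaf K2_ok TF_l6036 _))))
        (CovZ.n1 (19520, -6080) (by decide +kernel)
         (CovZ.n2 (19200, -6080) (by decide +kernel)
          (CovZ.n2 (19360, -5920) (by decide +kernel)
           (CovZ.subM 2535320543269572637128921186344 (by decide +kernel)
            (CovZ.n2 (19360, -6080) (by decide +kernel)
             (CovZ.n2 (19280, -6000) (by decide +kernel)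
              (CovZ.n2 (19360, -6000) (by decide +kernel)
               (CovZ.leaf K2_ok TF_l6037 _)
               (CovZ.leaf K2_ok TF_l6038 _))
              (CovZ.n1 (19280, -6080) (by decide +kernel)
               (CovZ.n2 (19240, -6040) (by decide +kernel)
                (CovZ.leaf K2_ok TF_l6039 _)
                (CovZ.leaf K2_ok TF_l6040 _))
               (CovZ.leaf K2_ok TF_l6041 _)))
             (CovZ.n1 (19440, -6000) (by decide +kernel)
              (CovZ.n2 (19440, -6080) (by decide +kernel)
               (CovZ.n2 (19400, -6040) (by decide +kernel)
                (CovZ.leaf K2_ok TF_l6042 _)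
                (CovZ.leaf K2_ok TF_l6043 _))
               (CovZ.leaf K2_ok TF_l6044 _))
              (CovZ.n1 (19360, -6000) (by decide +kernel)
               (CovZ.leaf K2_ok TF_l6045 _)
               (CovZ.n1 (19400, -6040) (by decide +kernel)
                (CovZ.leaf K2_ok TF_l6046 _)
                (CovZ.leaf K2_ok TF_l6047 _))))))
           (CovZ.n1 (19200, -5920) (by decide +kernel)
            (CovZ.leaf K2_ok TF_l6048 _)
            (CovZ.subM 2535320543269572637128921186344 (by decide +kernel)
             (CovZ.n1 (19280, -6000) (by decide +kernel)
              (CovZ.n2 (19200, -6000) (by decide +kernel)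
               (CovZ.leaf K2_ok TF_l6049 _)
               (CovZ.n1 (19240, -6040) (by decide +kernel)
                (CovZ.leaf K2_ok TF_l6050 _)
                (CovZ.leaf K2_ok TF_l6051 _)))
              (CovZ.leaf K2_ok TF_l6052 _)))))
          (CovZ.subM 2535320543269572637128921186304 (by decide +kernel)
           (CovZ.n1 (19360, -6240) (by decide +kernel)
            (CovZ.n2 (19200, -6240) (by decide +kernel)
             (CovZ.n2 (19280, -6160) (by decide +kernel)
              (CovZ.badM (by decide +kernel))
              (CovZ.n1 (19200, -6160) (by decide +kernel)
               (CovZ.n2 (19240, -6120) (by decide +kernel)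
                (CovZ.badM (by decide +kernel))
                (CovZ.n1 (19200, -6120) (by decide +kernel)
                 (CovZ.leaf K2_ok TF_l14458 _)
                 (CovZ.n1 (19220, -6140) (by decide +kernel)
                  (CovZ.leaf K2_ok TF_l14459 _)
                  (CovZ.leaf K2_ok TF_l14460 _))))
               (CovZ.badM (by decide +kernel))))
             (CovZ.badM (by decide +kernel)))
            (CovZ.n1 (19360, -6080) (by decide +kernel)
             (CovZ.n2 (19440, -6160) (by decide +kernel)
              (CovZ.n2 (19360, -6160) (by decide +kernel)
               (CovZ.n2 (19400, -6120) (by decide +kernel)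
                (CovZ.badM (by decide +kernel))
                (CovZ.n1 (19360, -6120) (by decide +kernel)
                 (CovZ.leaf K2_ok TF_l14461 _)
                 (CovZ.badM (by decide +kernel))))
               (CovZ.badM (by decide +kernel)))
              (CovZ.n1 (19440, -6080) (by decide +kernel)
               (CovZ.badM (by decide +kernel))
               (CovZ.n1 (19400, -6120) (by decide +kernel)
                (CovZ.leaf K2_ok TF_l14462 _)
                (CovZ.badM (by decide +kernel)))))
             (CovZ.n1 (19280, -6160) (by decide +kernel)
              (CovZ.n2 (19280, -6080) (by decide +kernel)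
               (CovZ.n2 (19320, -6120) (by decide +kernel)
                (CovZ.n2 (19280, -6120) (by decide +kernel)
                 (CovZ.leaf K2_ok TF_l14463 _)
                 (CovZ.badM (by decide +kernel)))
                (CovZ.n1 (19320, -6080) (by decide +kernel)
                 (CovZ.leaf K2_ok TF_l14464 _)
                 (CovZ.leaf K2_ok TF_l14465 _)))
               (CovZ.n1 (19240, -6120) (by decide +kernel)
                (CovZ.n2 (19240, -6080) (by decide +kernel)
                 (CovZ.leaf K2_ok TF_l14466 _)
                 (CovZ.leaf K2_ok TF_l14467 _))
                (CovZ.n1 (19280, -6120) (by decide +kernel)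
                 (CovZ.badM (by decide +kernel))
                 (CovZ.leaf K2_ok TF_l14468 _))))
              (CovZ.n1 (19360, -6160) (by decide +kernel)
               (CovZ.badM (by decide +kernel))
               (CovZ.n1 (19320, -6120) (by decide +kernel)
                (CovZ.n2 (19360, -6120) (by decide +kernel)
                 (CovZ.badM (by decide +kernel))
                 (CovZ.leaf K2_ok TF_l14469 _))
                (CovZ.badM (by decide +kernel)))))))))
         (CovZ.n1 (19520, -5760) (by decide +kernel)
          (CovZ.n2 (19680, -5920) (by decide +kernel)
           (CovZ.n2 (19520, -5920) (by decide +kernel)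
            (CovZ.leaf K2_ok TF_l6053 _)
            (CovZ.n1 (19600, -6000) (by decide +kernel)
             (CovZ.leaf K2_ok TF_l6054 _)
             (CovZ.leaf K2_ok TF_l6055 _)))
           (CovZ.n1 (19680, -5760) (by decide +kernel)
            (CovZ.leaf K2_ok TF_l6056 _)
            (CovZ.leaf K2_ok TF_l6057 _)))
          (CovZ.n1 (19360, -5920) (by decide +kernel)
           (CovZ.n2 (19360, -5760) (by decide +kernel)
            (CovZ.leaf K2_ok TF_l6058 _)
            (CovZ.leaf K2_ok TF_l6059 _))
           (CovZ.n1 (19520, -5920) (by decide +kernel)
            (CovZ.n2 (19440, -6000) (by decide +kernel)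
             (CovZ.leaf K2_ok TF_l6060 _)
             (CovZ.n1 (19520, -6000) (by decide +kernel)
              (CovZ.leaf K2_ok TF_l6061 _)
              (CovZ.leaf K2_ok TF_l6062 _)))
            (CovZ.leaf K2_ok TF_l6063 _)))))))
      (CovZ.n1 (19840, -5120) (by decide +kernel)
       (CovZ.subM 664616536926821323880681484832473640 (by decide +kernel)
        (CovZ.n2 (20160, -5440) (by decide +kernel)
         (CovZ.n2 (19840, -5440) (by decide +kernel)
          (CovZ.leaf K2_ok TF_l6064 _)
          (CovZ.n1 (20000, -5600) (by decide +kernel)
           (CovZ.leaf K2_ok TF_l6065 _)
           (CovZ.leaf K2_ok TF_l6066 _)))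
         (CovZ.leaf K2_ok TF_l6067 _)))
       (CovZ.n1 (19520, -5440) (by decide +kernel)
        (CovZ.leaf K2_ok TF_l6068 _)
        (CovZ.n1 (19840, -5440) (by decide +kernel)
         (CovZ.leaf K2_ok TF_l6069 _)
         (CovZ.leaf K2_ok TF_l6070 _)))))

theorem TF_u11 : CovZ TF_M (toL (selN TF_LN 669808833785469497546216150191309352)) [0, 7, 4, 3] (19200, -5120) (17920, -5120) (19200, -6400) :=
    (CovZ.n1 (18560, -5760) (by decide +kernel)
      (CovZ.n2 (18560, -5120) (by decide +kernel)
       (CovZ.n2 (18880, -5440) (by decide +kernel)
        (CovZ.n2 (18560, -5440) (by decide +kernel)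
         (CovZ.leaf K2_ok TF_l6071 _)
         (CovZ.n1 (18720, -5600) (by decide +kernel)
          (CovZ.leaf K2_ok TF_l6072 _)
          (CovZ.leaf K2_ok TF_l6073 _)))
        (CovZ.leaf K2_ok TF_l6074 _))
       (CovZ.n1 (18240, -5440) (by decide +kernel)
        (CovZ.n2 (18240, -5120) (by decide +kernel)
         (CovZ.leaf K2_ok TF_l6075 _)
         (CovZ.leaf K2_ok TF_l6076 _))
        (CovZ.n1 (18560, -5440) (by decide +kernel)
         (CovZ.n2 (18400, -5600) (by decide +kernel)
          (CovZ.leaf K2_ok TF_l6077 _)
          (CovZ.leaf K2_ok TF_l6078 _))
         (CovZ.leaf K2_ok TF_l6079 _))))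
      (CovZ.n1 (19200, -5760) (by decide +kernel)
       (CovZ.subM 669808832547416121447204017995251752 (by decide +kernel)
        (CovZ.n2 (18880, -6080) (by decide +kernel)
         (CovZ.n2 (18880, -5760) (by decide +kernel)
          (CovZ.n2 (19040, -5920) (by decide +kernel)
           (CovZ.n2 (18880, -5920) (by decide +kernel)
            (CovZ.leaf K2_ok TF_l6080 _)
            (CovZ.n1 (18960, -6000) (by decide +kernel)
             (CovZ.n2 (18880, -6000) (by decide +kernel)
              (CovZ.leaf K2_ok TF_l6081 _)
              (CovZ.n1 (18920, -6040) (by decide +kernel)
               (CovZ.leaf K2_ok TF_l6082 _)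
               (CovZ.leaf K2_ok TF_l6083 _)))
             (CovZ.n1 (18960, -5920) (by decide +kernel)
              (CovZ.leaf K2_ok TF_l6084 _)
              (CovZ.leaf K2_ok TF_l6085 _))))
           (CovZ.n1 (19040, -5760) (by decide +kernel)
            (CovZ.n2 (19120, -5840) (by decide +kernel)
             (CovZ.leaf K2_ok TF_l6086 _)
             (CovZ.leaf K2_ok TF_l6087 _))
            (CovZ.leaf K2_ok TF_l6088 _)))
          (CovZ.n1 (18720, -5920) (by decide +kernel)
           (CovZ.n2 (18720, -5760) (by decide +kernel)
            (CovZ.n2 (18800, -5840) (by decide +kernel)
             (CovZ.leaf K2_ok TF_l6089 _)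
             (CovZ.leaf K2_ok TF_l6090 _))
            (CovZ.leaf K2_ok TF_l6091 _))
           (CovZ.n1 (18880, -5920) (by decide +kernel)
            (CovZ.n2 (18800, -6000) (by decide +kernel)
             (CovZ.n2 (18800, -5920) (by decide +kernel)
              (CovZ.leaf K2_ok TF_l6092 _)
              (CovZ.leaf K2_ok TF_l6093 _))
             (CovZ.n1 (18880, -6000) (by decide +kernel)
              (CovZ.n2 (18840, -6040) (by decide +kernel)
               (CovZ.leaf K2_ok TF_l6094 _)
               (CovZ.leaf K2_ok TF_l6095 _))
              (CovZ.leaf K2_ok TF_l6096 _)))
            (CovZ.n1 (18800, -5840) (by decide +kernel)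
             (CovZ.leaf K2_ok TF_l6097 _)
             (CovZ.leaf K2_ok TF_l6098 _)))))
         (CovZ.n1 (19200, -6080) (by decide +kernel)
          (CovZ.subM 5194832179078097201167625250406400 (by decide +kernel)
           (CovZ.n2 (19040, -6240) (by decide +kernel)
            (CovZ.n2 (19040, -6080) (by decide +kernel)
             (CovZ.n2 (19120, -6160) (by decide +kernel)
              (CovZ.n2 (19040, -6160) (by decide +kernel)
               (CovZ.n2 (19080, -6120) (by decide +kernel)
                (CovZ.n2 (19080, -6160) (by decide +kernel)
                 (CovZ.n2 (19060, -6140) (by decide +kernel)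
                  (CovZ.n2 (19080, -6140) (by decide +kernel)
                   (CovZ.leaf K2_ok TF_l14470 _)
                   (CovZ.leaf K2_ok TF_l14471 _))
                  (CovZ.n1 (19060, -6160) (by decide +kernel)
                   (CovZ.leaf K2_ok TF_l14472 _)
                   (CovZ.leaf K2_ok TF_l14473 _)))
                 (CovZ.n1 (19100, -6140) (by decide +kernel)
                  (CovZ.n2 (19100, -6160) (by decide +kernel)
                   (CovZ.leaf K2_ok TF_l14474 _)
                   (CovZ.leaf K2_ok TF_l14475 _))
                  (CovZ.leaf K2_ok TF_l14476 _)))
                (CovZ.n1 (19040, -6120) (by decide +kernel)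
                 (CovZ.leaf K2_ok TF_l14477 _)
                 (CovZ.n1 (19060, -6140) (by decide +kernel)
                  (CovZ.leaf K2_ok TF_l14478 _)
                  (CovZ.leaf K2_ok TF_l14479 _))))
               (CovZ.badM (by decide +kernel)))
              (CovZ.n1 (19120, -6080) (by decide +kernel)
               (CovZ.n2 (19160, -6120) (by decide +kernel)
                (CovZ.n2 (19120, -6120) (by decide +kernel)
                 (CovZ.leaf K2_ok TF_l14480 _)
                 (CovZ.n1 (19140, -6140) (by decide +kernel)
                  (CovZ.leaf K2_ok TF_l14481 _)
                  (CovZ.leaf K2_ok TF_l14482 _)))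
                (CovZ.n1 (19160, -6080) (by decide +kernel)
                 (CovZ.leaf K2_ok TF_l14483 _)
                 (CovZ.leaf K2_ok TF_l14484 _)))
               (CovZ.n1 (19080, -6120) (by decide +kernel)
                (CovZ.n2 (19080, -6080) (by decide +kernel)
                 (CovZ.leaf K2_ok TF_l14485 _)
                 (CovZ.leaf K2_ok TF_l14486 _))
                (CovZ.n1 (19120, -6120) (by decide +kernel)
                 (CovZ.n2 (19100, -6140) (by decide +kernel)
                  (CovZ.leaf K2_ok TF_l14487 _)
                  (CovZ.leaf K2_ok TF_l14488 _))
                 (CovZ.leaf K2_ok TF_l14489 _)))))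
             (CovZ.n1 (18960, -6160) (by decide +kernel)
              (CovZ.n2 (18960, -6080) (by decide +kernel)
               (CovZ.n2 (19000, -6120) (by decide +kernel)
                (CovZ.n2 (18960, -6120) (by decide +kernel)
                 (CovZ.leaf K2_ok TF_l14490 _)
                 (CovZ.n1 (18980, -6140) (by decide +kernel)
                  (CovZ.badM (by decide +kernel))
                  (CovZ.leaf K2_ok TF_l14491 _)))
                (CovZ.n1 (19000, -6080) (by decide +kernel)
                 (CovZ.leaf K2_ok TF_l14492 _)
                 (CovZ.leaf K2_ok TF_l14493 _)))
               (CovZ.n1 (18920, -6120) (by decide +kernel)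
                (CovZ.n2 (18920, -6080) (by decide +kernel)
                 (CovZ.leaf K2_ok TF_l14494 _)
                 (CovZ.leaf K2_ok TF_l14495 _))
                (CovZ.n1 (18960, -6120) (by decide +kernel)
                 (CovZ.badM (by decide +kernel))
                 (CovZ.leaf K2_ok TF_l14496 _))))
              (CovZ.n1 (19040, -6160) (by decide +kernel)
               (CovZ.badM (by decide +kernel))
               (CovZ.n1 (19000, -6120) (by decide +kernel)
                (CovZ.n2 (19040, -6120) (by decide +kernel)
                 (CovZ.n2 (19020, -6140) (by decide +kernel)
                  (CovZ.leaf K2_ok TF_l14497 _)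
                  (CovZ.n1 (19040, -6140) (by decide +kernel)
                   (CovZ.badM (by decide +kernel))
                   (CovZ.leaf K2_ok TF_l14498 _)))
                 (CovZ.leaf K2_ok TF_l14499 _))
                (CovZ.n1 (19000, -6160) (by decide +kernel)
                 (CovZ.n2 (18980, -6140) (by decide +kernel)
                  (CovZ.n2 (19000, -6140) (by decide +kernel)
                   (CovZ.badM (by decide +kernel))
                   (CovZ.leaf K2_ok TF_l14500 _))
                  (CovZ.badM (by decide +kernel)))
                 (CovZ.n1 (19020, -6140) (by decide +kernel)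
                  (CovZ.badM (by decide +kernel))
                  (CovZ.n1 (19000, -6140) (by decide +kernel)
                   (CovZ.leaf K2_ok TF_l14501 _)
                   (CovZ.badM (by decide +kernel)))))))))
            (CovZ.n1 (19200, -6240) (by decide +kernel)
             (CovZ.badM (by decide +kernel))
             (CovZ.n1 (19120, -6160) (by decide +kernel)
              (CovZ.n2 (19200, -6160) (by decide +kernel)
               (CovZ.n2 (19160, -6200) (by decide +kernel)
                (CovZ.n2 (19160, -6160) (by decide +kernel)
                 (CovZ.badM (by decide +kernel))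
                 (CovZ.badM (by decide +kernel)))
                (CovZ.badM (by decide +kernel)))
               (CovZ.n1 (19160, -6120) (by decide +kernel)
                (CovZ.n2 (19200, -6120) (by decide +kernel)
                 (CovZ.n2 (19180, -6140) (by decide +kernel)
                  (CovZ.leaf K2_ok TF_l14502 _)
                  (CovZ.n1 (19200, -6140) (by decide +kernel)
                   (CovZ.badM (by decide +kernel))
                   (CovZ.leaf K2_ok TF_l14503 _)))
                 (CovZ.leaf K2_ok TF_l14504 _))
                (CovZ.n1 (19160, -6160) (by decide +kernel)
                 (CovZ.n2 (19140, -6140) (by decide +kernel)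
                  (CovZ.n2 (19160, -6140) (by decide +kernel)
                   (CovZ.leaf K2_ok TF_l14505 _)
                   (CovZ.leaf K2_ok TF_l14506 _))
                  (CovZ.n1 (19140, -6160) (by decide +kernel)
                   (CovZ.leaf K2_ok TF_l14507 _)
                   (CovZ.leaf K2_ok TF_l14508 _)))
                 (CovZ.n1 (19180, -6140) (by decide +kernel)
                  (CovZ.badM (by decide +kernel))
                  (CovZ.n1 (19160, -6140) (by decide +kernel)
                   (CovZ.leaf K2_ok TF_l14509 _)
                   (CovZ.badM (by decide +kernel)))))))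
              (CovZ.badM (by decide +kernel))))))
          (CovZ.n1 (19040, -5920) (by decide +kernel)
           (CovZ.n2 (19200, -5920) (by decide +kernel)
            (CovZ.n2 (19120, -6000) (by decide +kernel)
             (CovZ.leaf K2_ok TF_l6099 _)
             (CovZ.n1 (19200, -6000) (by decide +kernel)
              (CovZ.leaf K2_ok TF_l6100 _)
              (CovZ.leaf K2_ok TF_l6101 _)))
            (CovZ.n1 (19120, -5840) (by decide +kernel)
             (CovZ.leaf K2_ok TF_l6102 _)
             (CovZ.leaf K2_ok TF_l6103 _)))
           (CovZ.n1 (19040, -6080) (by decide +kernel)
            (CovZ.n2 (18960, -6000) (by decide +kernel)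
             (CovZ.n2 (19040, -6000) (by decide +kernel)
              (CovZ.leaf K2_ok TF_l6104 _)
              (CovZ.leaf K2_ok TF_l6105 _))
             (CovZ.n1 (18960, -6080) (by decide +kernel)
              (CovZ.n2 (18920, -6040) (by decide +kernel)
               (CovZ.leaf K2_ok TF_l6106 _)
               (CovZ.leaf K2_ok TF_l6107 _))
              (CovZ.leaf K2_ok TF_l6108 _)))
            (CovZ.subM 2535320543269572637129994928168 (by decide +kernel)
             (CovZ.n1 (19120, -6000) (by decide +kernel)
              (CovZ.n2 (19120, -6080) (by decide +kernel)
               (CovZ.n2 (19080, -6040) (by decide +kernel)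
                (CovZ.leaf K2_ok TF_l6109 _)
                (CovZ.leaf K2_ok TF_l6110 _))
               (CovZ.leaf K2_ok TF_l6111 _))
              (CovZ.n1 (19040, -6000) (by decide +kernel)
               (CovZ.leaf K2_ok TF_l6112 _)
               (CovZ.n1 (19080, -6040) (by decide +kernel)
                (CovZ.leaf K2_ok TF_l6113 _)
                (CovZ.leaf K2_ok TF_l6114 _))))))))))
       (CovZ.n1 (18880, -5440) (by decide +kernel)
        (CovZ.n2 (19200, -5440) (by decide +kernel)
         (CovZ.n2 (19040, -5600) (by decide +kernel)
          (CovZ.leaf K2_ok TF_l6115 _)
          (CovZ.leaf K2_ok TF_l6116 _))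
         (CovZ.leaf K2_ok TF_l6117 _))
        (CovZ.n1 (18880, -5760) (by decide +kernel)
         (CovZ.n2 (18720, -5600) (by decide +kernel)
          (CovZ.leaf K2_ok TF_l6118 _)
          (CovZ.leaf K2_ok TF_l6119 _))
         (CovZ.leaf K2_ok TF_l6120 _)))))

theorem TF_u12 : CovZ TF_M (toL (selN TF_LN 2537177453328500988948600848936)) [0, 7, 4, 3] (20480, -5120) (20480, -6400) (21760, -6400) :=
    (CovZ.n2 (21120, -5760) (by decide +kernel)
      (CovZ.subM 1856910058928070412348686344 (by decide +kernel)
       (CovZ.n2 (21120, -6400) (by decide +kernel)
        (CovZ.n2 (20800, -6080) (by decide +kernel)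
         (CovZ.n2 (21120, -6080) (by decide +kernel)
          (CovZ.n2 (20960, -6240) (by decide +kernel)
           (CovZ.n2 (20960, -6080) (by decide +kernel)
            (CovZ.n2 (21040, -6160) (by decide +kernel)
             (CovZ.leaf K2_ok TF_l6332 _)
             (CovZ.leaf K2_ok TF_l6333 _))
            (CovZ.n1 (20880, -6160) (by decide +kernel)
             (CovZ.leaf K2_ok TF_l6334 _)
             (CovZ.n1 (20960, -6160) (by decide +kernel)
              (CovZ.leaf K2_ok TF_l6335 _)
              (CovZ.leaf K2_ok TF_l6336 _))))
           (CovZ.n1 (21120, -6240) (by decide +kernel)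
            (CovZ.n2 (21040, -6320) (by decide +kernel)
             (CovZ.n2 (21040, -6240) (by decide +kernel)
              (CovZ.n2 (21080, -6280) (by decide +kernel)
               (CovZ.leaf K2_ok TF_l14571 _)
               (CovZ.leaf K2_ok TF_l14572 _))
              (CovZ.n1 (21000, -6280) (by decide +kernel)
               (CovZ.leaf K2_ok TF_l14573 _)
               (CovZ.n1 (21040, -6280) (by decide +kernel)
                (CovZ.badM (by decide +kernel))
                (CovZ.leaf K2_ok TF_l14574 _))))
             (CovZ.n1 (21120, -6320) (by decide +kernel)
              (CovZ.badM (by decide +kernel))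
              (CovZ.n1 (21080, -6280) (by decide +kernel)
               (CovZ.leaf K2_ok TF_l14575 _)
               (CovZ.badM (by decide +kernel)))))
            (CovZ.n1 (21040, -6160) (by decide +kernel)
             (CovZ.leaf K2_ok TF_l6337 _)
             (CovZ.leaf K2_ok TF_l14576 _))))
          (CovZ.n1 (20960, -5920) (by decide +kernel)
           (CovZ.leaf K2_ok TF_l6338 _)
           (CovZ.leaf K2_ok TF_l6339 _)))
         (CovZ.n1 (20800, -6400) (by decide +kernel)
          (CovZ.n2 (20640, -6240) (by decide +kernel)
           (CovZ.n2 (20800, -6240) (by decide +kernel)
            (CovZ.badM (by decide +kernel))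
            (CovZ.n1 (20720, -6160) (by decide +kernel)
             (CovZ.n2 (20800, -6160) (by decide +kernel)
              (CovZ.leaf K2_ok TF_l6340 _)
              (CovZ.leaf K2_ok TF_l6341 _))
             (CovZ.n1 (20720, -6240) (by decide +kernel)
              (CovZ.n2 (20680, -6200) (by decide +kernel)
               (CovZ.leaf K2_ok TF_l14577 _)
               (CovZ.leaf K2_ok TF_l14578 _))
              (CovZ.leaf K2_ok TF_l14579 _))))
           (CovZ.badM (by decide +kernel)))
          (CovZ.n1 (20960, -6240) (by decide +kernel)
           (CovZ.badM (by decide +kernel))
           (CovZ.n1 (20800, -6240) (by decide +kernel)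
            (CovZ.n2 (20880, -6160) (by decide +kernel)
             (CovZ.n2 (20880, -6240) (by decide +kernel)
              (CovZ.n2 (20840, -6200) (by decide +kernel)
               (CovZ.leaf K2_ok TF_l6344 _)
               (CovZ.leaf K2_ok TF_l14580 _))
              (CovZ.leaf K2_ok TF_l6345 _))
             (CovZ.n1 (20800, -6160) (by decide +kernel)
              (CovZ.leaf K2_ok TF_l6346 _)
              (CovZ.n1 (20840, -6200) (by decide +kernel)
               (CovZ.leaf K2_ok TF_l6347 _)
               (CovZ.leaf K2_ok TF_l6348 _))))
            (CovZ.badM (by decide +kernel))))))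
        (CovZ.n1 (21440, -6080) (by decide +kernel)
         (CovZ.n2 (21440, -6400) (by decide +kernel)
          (CovZ.n2 (21280, -6240) (by decide +kernel)
           (CovZ.n2 (21440, -6240) (by decide +kernel)
            (CovZ.n2 (21360, -6320) (by decide +kernel)
             (CovZ.n2 (21360, -6240) (by decide +kernel)
              (CovZ.leaf K2_ok TF_l14581 _)
              (CovZ.leaf K2_ok TF_l14582 _))
             (CovZ.n1 (21440, -6320) (by decide +kernel)
              (CovZ.n2 (21400, -6360) (by decide +kernel)
               (CovZ.leaf K2_ok TF_l14583 _)
               (CovZ.n1 (21440, -6360) (by decide +kernel)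
                (CovZ.leaf K2_ok TF_l14584 _)
                (CovZ.leaf K2_ok TF_l14585 _)))
              (CovZ.leaf K2_ok TF_l14586 _)))
            (CovZ.n1 (21360, -6160) (by decide +kernel)
             (CovZ.leaf K2_ok TF_l6351 _)
             (CovZ.leaf K2_ok TF_l14587 _)))
           (CovZ.n1 (21280, -6400) (by decide +kernel)
            (CovZ.n2 (21200, -6320) (by decide +kernel)
             (CovZ.n2 (21280, -6320) (by decide +kernel)
              (CovZ.n2 (21240, -6360) (by decide +kernel)
               (CovZ.n2 (21240, -6320) (by decide +kernel)
                (CovZ.leaf K2_ok TF_l14588 _)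
                (CovZ.badM (by decide +kernel)))
               (CovZ.n1 (21280, -6360) (by decide +kernel)
                (CovZ.badM (by decide +kernel))
                (CovZ.leaf K2_ok TF_l14589 _)))
              (CovZ.n1 (21240, -6280) (by decide +kernel)
               (CovZ.leaf K2_ok TF_l14590 _)
               (CovZ.leaf K2_ok TF_l14591 _)))
             (CovZ.badM (by decide +kernel)))
            (CovZ.n1 (21360, -6320) (by decide +kernel)
             (CovZ.n2 (21360, -6400) (by decide +kernel)
              (CovZ.n2 (21320, -6360) (by decide +kernel)
               (CovZ.n2 (21360, -6360) (by decide +kernel)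
                (CovZ.badM (by decide +kernel))
                (CovZ.leaf K2_ok TF_l14592 _))
               (CovZ.badM (by decide +kernel)))
              (CovZ.n1 (21400, -6360) (by decide +kernel)
               (CovZ.badM (by decide +kernel))
               (CovZ.n1 (21360, -6360) (by decide +kernel)
                (CovZ.leaf K2_ok TF_l14593 _)
                (CovZ.badM (by decide +kernel)))))
             (CovZ.n1 (21280, -6320) (by decide +kernel)
              (CovZ.leaf K2_ok TF_l14594 _)
              (CovZ.n1 (21320, -6360) (by decide +kernel)
               (CovZ.n2 (21280, -6360) (by decide +kernel)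
                (CovZ.leaf K2_ok TF_l14595 _)
                (CovZ.badM (by decide +kernel)))
               (CovZ.n1 (21320, -6320) (by decide +kernel)
                (CovZ.leaf K2_ok TF_l14596 _)
                (CovZ.leaf K2_ok TF_l14597 _)))))))
          (CovZ.n1 (21600, -6240) (by decide +kernel)
           (CovZ.n2 (21600, -6400) (by decide +kernel)
            (CovZ.n2 (21520, -6320) (by decide +kernel)
             (CovZ.n2 (21600, -6320) (by decide +kernel)
              (CovZ.n2 (21560, -6360) (by decide +kernel)
               (CovZ.leaf K2_ok TF_l14598 _)
               (CovZ.leaf K2_ok TF_l14599 _))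
              (CovZ.leaf K2_ok TF_l6352 _))
             (CovZ.n1 (21520, -6400) (by decide +kernel)
              (CovZ.n2 (21480, -6360) (by decide +kernel)
               (CovZ.n2 (21520, -6360) (by decide +kernel)
                (CovZ.leaf K2_ok TF_l14600 _)
                (CovZ.leaf K2_ok TF_l14601 _))
               (CovZ.n1 (21480, -6400) (by decide +kernel)
                (CovZ.n2 (21460, -6380) (by decide +kernel)
                 (CovZ.leaf K2_ok TF_l14602 _)
                 (CovZ.leaf K2_ok TF_l14603 _))
                (CovZ.leaf K2_ok TF_l14604 _)))
              (CovZ.leaf K2_ok TF_l14605 _)))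
            (CovZ.n1 (21680, -6320) (by decide +kernel)
             (CovZ.n2 (21680, -6400) (by decide +kernel)
              (CovZ.n2 (21640, -6360) (by decide +kernel)
               (CovZ.leaf K2_ok TF_l6353 _)
               (CovZ.leaf K2_ok TF_l14606 _))
              (CovZ.leaf K2_ok TF_l6354 _))
             (CovZ.n1 (21600, -6320) (by decide +kernel)
              (CovZ.leaf K2_ok TF_l6355 _)
              (CovZ.n1 (21640, -6360) (by decide +kernel)
               (CovZ.leaf K2_ok TF_l14607 _)
               (CovZ.leaf K2_ok TF_l6356 _)))))
           (CovZ.n1 (21440, -6240) (by decide +kernel)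
            (CovZ.leaf K2_ok TF_l6357 _)
            (CovZ.n1 (21520, -6320) (by decide +kernel)
             (CovZ.n2 (21440, -6320) (by decide +kernel)
              (CovZ.leaf K2_ok TF_l14608 _)
              (CovZ.n1 (21480, -6360) (by decide +kernel)
               (CovZ.n2 (21440, -6360) (by decide +kernel)
                (CovZ.leaf K2_ok TF_l14609 _)
                (CovZ.n1 (21460, -6380) (by decide +kernel)
                 (CovZ.leaf K2_ok TF_l14610 _)
                 (CovZ.leaf K2_ok TF_l14611 _)))
               (CovZ.leaf K2_ok TF_l14612 _)))
             (CovZ.n1 (21520, -6240) (by decide +kernel)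
              (CovZ.leaf K2_ok TF_l6358 _)
              (CovZ.leaf K2_ok TF_l14613 _))))))
         (CovZ.n1 (21120, -6080) (by decide +kernel)
          (CovZ.leaf K2_ok TF_l6359 _)
          (CovZ.n1 (21280, -6240) (by decide +kernel)
           (CovZ.n2 (21120, -6240) (by decide +kernel)
            (CovZ.leaf K2_ok TF_l6360 _)
            (CovZ.n1 (21200, -6320) (by decide +kernel)
             (CovZ.n2 (21120, -6320) (by decide +kernel)
              (CovZ.leaf K2_ok TF_l14614 _)
              (CovZ.badM (by decide +kernel)))
             (CovZ.n1 (21200, -6240) (by decide +kernel)
              (CovZ.n2 (21240, -6280) (by decide +kernel)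
               (CovZ.leaf K2_ok TF_l14615 _)
               (CovZ.leaf K2_ok TF_l14616 _))
              (CovZ.n1 (21160, -6280) (by decide +kernel)
               (CovZ.leaf K2_ok TF_l14617 _)
               (CovZ.leaf K2_ok TF_l14618 _)))))
           (CovZ.n1 (21280, -6080) (by decide +kernel)
            (CovZ.n2 (21360, -6160) (by decide +kernel)
             (CovZ.leaf K2_ok TF_l6361 _)
             (CovZ.leaf K2_ok TF_l6362 _))
            (CovZ.n1 (21200, -6160) (by decide +kernel)
             (CovZ.leaf K2_ok TF_l6363 _)
             (CovZ.leaf K2_ok TF_l6364 _))))))))
      (CovZ.n1 (20480, -5760) (by decide +kernel)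
       (CovZ.leaf K2_ok TF_l6365 _)
       (CovZ.n1 (20800, -6080) (by decide +kernel)
        (CovZ.n2 (20480, -6080) (by decide +kernel)
         (CovZ.n2 (20640, -5920) (by decide +kernel)
          (CovZ.n2 (20640, -6080) (by decide +kernel)
           (CovZ.n2 (20560, -6000) (by decide +kernel)
            (CovZ.leaf K2_ok TF_l6366 _)
            (CovZ.leaf K2_ok TF_l6367 _))
           (CovZ.leaf K2_ok TF_l6368 _))
          (CovZ.n1 (20480, -5920) (by decide +kernel)
           (CovZ.leaf K2_ok TF_l6369 _)
           (CovZ.n1 (20560, -6000) (by decide +kernel)
            (CovZ.leaf K2_ok TF_l6370 _)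
            (CovZ.leaf K2_ok TF_l6371 _))))
         (CovZ.subM 1237940039285380274899124232 (by decide +kernel)
          (CovZ.n1 (20640, -6240) (by decide +kernel)
           (CovZ.n2 (20480, -6240) (by decide +kernel)
            (CovZ.n2 (20560, -6160) (by decide +kernel)
             (CovZ.n2 (20560, -6240) (by decide +kernel)
              (CovZ.n2 (20520, -6200) (by decide +kernel)
               (CovZ.leaf K2_ok TF_l14619 _)
               (CovZ.badM (by decide +kernel)))
              (CovZ.leaf K2_ok TF_l14620 _))
             (CovZ.n1 (20480, -6160) (by decide +kernel)
              (CovZ.leaf K2_ok TF_l6372 _)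
              (CovZ.n1 (20520, -6200) (by decide +kernel)
               (CovZ.leaf K2_ok TF_l14621 _)
               (CovZ.leaf K2_ok TF_l14622 _))))
            (CovZ.badM (by decide +kernel)))
           (CovZ.n1 (20640, -6080) (by decide +kernel)
            (CovZ.n2 (20720, -6160) (by decide +kernel)
             (CovZ.n2 (20640, -6160) (by decide +kernel)
              (CovZ.leaf K2_ok TF_l6373 _)
              (CovZ.n1 (20680, -6200) (by decide +kernel)
               (CovZ.leaf K2_ok TF_l14623 _)
               (CovZ.leaf K2_ok TF_l14624 _)))
             (CovZ.leaf K2_ok TF_l6374 _))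
            (CovZ.n1 (20560, -6160) (by decide +kernel)
             (CovZ.n2 (20560, -6080) (by decide +kernel)
              (CovZ.leaf K2_ok TF_l6375 _)
              (CovZ.leaf K2_ok TF_l6376 _))
             (CovZ.n1 (20640, -6160) (by decide +kernel)
              (CovZ.n2 (20600, -6200) (by decide +kernel)
               (CovZ.leaf K2_ok TF_l14625 _)
               (CovZ.leaf K2_ok TF_l14626 _))
              (CovZ.leaf K2_ok TF_l6377 _)))))))
        (CovZ.n1 (20800, -5760) (by decide +kernel)
         (CovZ.n2 (20960, -5920) (by decide +kernel)
          (CovZ.leaf K2_ok TF_l6378 _)
          (CovZ.leaf K2_ok TF_l6379 _))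
         (CovZ.n1 (20640, -5920) (by decide +kernel)
          (CovZ.leaf K2_ok TF_l6380 _)
          (CovZ.n1 (20800, -5920) (by decide +kernel)
           (CovZ.leaf K2_ok TF_l6381 _)
           (CovZ.leaf K2_ok TF_l6382 _)))))))

theorem TF_u13 : CovZ TF_M (toL (selN TF_LN 2537177453328500988948600848936)) [0, 7, 4, 3] (20480, -6400) (20480, -7680) (21760, -6400) :=
    (CovZ.subM 1856910058928070412348686336 (by decide +kernel)
      (CovZ.n1 (21120, -7040) (by decide +kernel)
       (CovZ.badM (by decide +kernel))
       (CovZ.n1 (21120, -6400) (by decide +kernel)
        (CovZ.n2 (21440, -6720) (by decide +kernel)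
         (CovZ.badM (by decide +kernel))
         (CovZ.n1 (21440, -6400) (by decide +kernel)
          (CovZ.n2 (21600, -6560) (by decide +kernel)
           (CovZ.n2 (21440, -6560) (by decide +kernel)
            (CovZ.n2 (21520, -6480) (by decide +kernel)
             (CovZ.badM (by decide +kernel))
             (CovZ.n1 (21440, -6480) (by decide +kernel)
              (CovZ.n2 (21480, -6440) (by decide +kernel)
               (CovZ.badM (by decide +kernel))
               (CovZ.badM (by decide +kernel)))
              (CovZ.badM (by decide +kernel))))
            (CovZ.badM (by decide +kernel)))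
           (CovZ.n1 (21600, -6400) (by decide +kernel)
            (CovZ.n2 (21680, -6480) (by decide +kernel)
             (CovZ.n2 (21600, -6480) (by decide +kernel)
              (CovZ.n2 (21640, -6440) (by decide +kernel)
               (CovZ.badM (by decide +kernel))
               (CovZ.n1 (21600, -6440) (by decide +kernel)
                (CovZ.leaf K2_ok TF_l14627 _)
                (CovZ.badM (by decide +kernel))))
              (CovZ.badM (by decide +kernel)))
             (CovZ.n1 (21680, -6400) (by decide +kernel)
              (CovZ.n2 (21720, -6440) (by decide +kernel)
               (CovZ.n2 (21680, -6440) (by decide +kernel)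
                (CovZ.leaf K2_ok TF_l14628 _)
                (CovZ.n1 (21700, -6460) (by decide +kernel)
                 (CovZ.n2 (21680, -6460) (by decide +kernel)
                  (CovZ.leaf K2_ok TF_l14629 _)
                  (CovZ.badM (by decide +kernel)))
                 (CovZ.leaf K2_ok TF_l14630 _)))
               (CovZ.n1 (21720, -6400) (by decide +kernel)
                (CovZ.leaf K2_ok TF_l14631 _)
                (CovZ.leaf K2_ok TF_l14632 _)))
              (CovZ.n1 (21640, -6440) (by decide +kernel)
               (CovZ.n2 (21640, -6400) (by decide +kernel)
                (CovZ.n2 (21660, -6420) (by decide +kernel)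
                 (CovZ.leaf K2_ok TF_l14633 _)
                 (CovZ.leaf K2_ok TF_l14634 _))
                (CovZ.n1 (21620, -6420) (by decide +kernel)
                 (CovZ.leaf K2_ok TF_l14635 _)
                 (CovZ.leaf K2_ok TF_l14636 _)))
               (CovZ.n1 (21680, -6440) (by decide +kernel)
                (CovZ.n2 (21660, -6460) (by decide +kernel)
                 (CovZ.n2 (21660, -6440) (by decide +kernel)
                  (CovZ.leaf K2_ok TF_l14637 _)
                  (CovZ.leaf K2_ok TF_l14638 _))
                 (CovZ.n1 (21680, -6460) (by decide +kernel)
                  (CovZ.badM (by decide +kernel))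
                  (CovZ.leaf K2_ok TF_l14639 _)))
                (CovZ.n1 (21660, -6420) (by decide +kernel)
                 (CovZ.leaf K2_ok TF_l14640 _)
                 (CovZ.leaf K2_ok TF_l14641 _))))))
            (CovZ.n1 (21520, -6480) (by decide +kernel)
             (CovZ.n2 (21520, -6400) (by decide +kernel)
              (CovZ.n2 (21560, -6440) (by decide +kernel)
               (CovZ.n2 (21520, -6440) (by decide +kernel)
                (CovZ.n2 (21540, -6420) (by decide +kernel)
                 (CovZ.badM (by decide +kernel))
                 (CovZ.n1 (21520, -6420) (by decide +kernel)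
                  (CovZ.leaf K2_ok TF_l14642 _)
                  (CovZ.badM (by decide +kernel))))
                (CovZ.badM (by decide +kernel)))
               (CovZ.n1 (21560, -6400) (by decide +kernel)
                (CovZ.n2 (21580, -6420) (by decide +kernel)
                 (CovZ.leaf K2_ok TF_l14643 _)
                 (CovZ.leaf K2_ok TF_l14644 _))
                (CovZ.n1 (21540, -6420) (by decide +kernel)
                 (CovZ.leaf K2_ok TF_l14645 _)
                 (CovZ.leaf K2_ok TF_l14646 _))))
              (CovZ.n1 (21480, -6440) (by decide +kernel)
               (CovZ.n2 (21480, -6400) (by decide +kernel)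
                (CovZ.n2 (21500, -6420) (by decide +kernel)
                 (CovZ.n2 (21480, -6420) (by decide +kernel)
                  (CovZ.leaf K2_ok TF_l14647 _)
                  (CovZ.badM (by decide +kernel)))
                 (CovZ.leaf K2_ok TF_l14648 _))
                (CovZ.n1 (21460, -6420) (by decide +kernel)
                 (CovZ.n2 (21460, -6400) (by decide +kernel)
                  (CovZ.leaf K2_ok TF_l14649 _)
                  (CovZ.badM (by decide +kernel)))
                 (CovZ.n1 (21480, -6420) (by decide +kernel)
                  (CovZ.badM (by decide +kernel))
                  (CovZ.leaf K2_ok TF_l14650 _))))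
               (CovZ.n1 (21520, -6440) (by decide +kernel)
                (CovZ.badM (by decide +kernel))
                (CovZ.n1 (21500, -6420) (by decide +kernel)
                 (CovZ.n2 (21520, -6420) (by decide +kernel)
                  (CovZ.badM (by decide +kernel))
                  (CovZ.leaf K2_ok TF_l14651 _))
                 (CovZ.badM (by decide +kernel))))))
             (CovZ.n1 (21600, -6480) (by decide +kernel)
              (CovZ.badM (by decide +kernel))
              (CovZ.n1 (21560, -6440) (by decide +kernel)
               (CovZ.n2 (21600, -6440) (by decide +kernel)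
                (CovZ.badM (by decide +kernel))
                (CovZ.n1 (21580, -6420) (by decide +kernel)
                 (CovZ.leaf K2_ok TF_l14652 _)
                 (CovZ.badM (by decide +kernel))))
               (CovZ.badM (by decide +kernel)))))))
          (CovZ.badM (by decide +kernel))))
        (CovZ.badM (by decide +kernel)))))

end Pool.Agent.TET
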