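import Pool.Agent.Helper38_TET.TF_M
import Pool.Agent.Helper38_TET.TF_L
import Pool.Agent.Helper38_TET.TF_6
import Pool.Agent.Helper38_TET.TF_7
import Pool.Agent.Helper38_TET.TF_15
import Pool.Agent.Helper38_TET.TF_16
import Pool.Agent.Helper38_TET.TF_33
import Pool.Agent.Helper38_TET.TF_42
import Pool.Agent.Helper38_TET.TF_44
import Pool.Agent.Helper38_TET.TF_45
import Pool.Agent.Helper38_TET.TF_66
import Pool.Agent.Helper38_TET.TF_67
import Pool.Agent.Helper38_TET.TF_75
import Pool.Agent.Helper38_TET.TF_89
import Pool.Agent.Helper38_TET.TF_90
import Pool.Agent.Helper38_TET.TF_98
import Pool.Agent.Helper38_TET.TF_100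
import Pool.Agent.Helper38_TET.TF_101

/-!
# MP_c7c9bf_co: certificates, family TF
-/

set_option autoImplicit false
set_option maxRecDepth 100000

namespace Pool.Agent.TET

theorem TF_u14 : CovZ TF_M (toL (selN TF_LN 1237940039285380274899124744)) [0, 7, 4, 3] (21760, -6400) (22080, -6080) (21760, -5760) :=
    (CovZ.n2 (21760, -6080) (by decide +kernel)
          (CovZ.n2 (21920, -5920) (by decide +kernel)
           (CovZ.n2 (21920, -6080) (by decide +kernel)
            (CovZ.n2 (21840, -6000) (by decide +kernel)
             (CovZ.n2 (21920, -6000) (by decide +kernel)
              (CovZ.n2 (21880, -6040) (by decide +kernel)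
               (CovZ.n2 (21880, -6000) (by decide +kernel)
                (CovZ.leaf K2_ok TF_l6398 _)
                (CovZ.leaf K2_ok TF_l6399 _))
               (CovZ.n1 (21920, -6040) (by decide +kernel)
                (CovZ.leaf K2_ok TF_l6400 _)
                (CovZ.leaf K2_ok TF_l6401 _)))
              (CovZ.n1 (21880, -5960) (by decide +kernel)
               (CovZ.leaf K2_ok TF_l6402 _)
               (CovZ.leaf K2_ok TF_l6403 _)))
             (CovZ.n1 (21840, -6080) (by decide +kernel)
              (CovZ.leaf K2_ok TF_l6404 _)
              (CovZ.n1 (21880, -6040) (by decide +kernel)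
               (CovZ.leaf K2_ok TF_l6405 _)
               (CovZ.leaf K2_ok TF_l6406 _))))
            (CovZ.n1 (22000, -6000) (by decide +kernel)
             (CovZ.n2 (22000, -6080) (by decide +kernel)
              (CovZ.n2 (21960, -6040) (by decide +kernel)
               (CovZ.badM (by decide +kernel))
               (CovZ.n1 (21960, -6080) (by decide +kernel)
                (CovZ.n2 (21940, -6060) (by decide +kernel)
                 (CovZ.badM (by decide +kernel))
                 (CovZ.leaf K2_ok TF_l14657 _))
                (CovZ.badM (by decide +kernel))))
              (CovZ.badM (by decide +kernel)))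
             (CovZ.n1 (21920, -6000) (by decide +kernel)
              (CovZ.leaf K2_ok TF_l6407 _)
              (CovZ.n1 (21960, -6040) (by decide +kernel)
               (CovZ.n2 (21920, -6040) (by decide +kernel)
                (CovZ.leaf K2_ok TF_l14658 _)
                (CovZ.n1 (21940, -6060) (by decide +kernel)
                 (CovZ.leaf K2_ok TF_l14659 _)
                 (CovZ.leaf K2_ok TF_l14660 _)))
               (CovZ.n1 (21960, -6000) (by decide +kernel)
                (CovZ.n2 (21980, -6020) (by decide +kernel)
                 (CovZ.leaf K2_ok TF_l14661 _)
                 (CovZ.leaf K2_ok TF_l14662 _))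
                (CovZ.leaf K2_ok TF_l14663 _))))))
           (CovZ.n1 (21760, -5920) (by decide +kernel)
            (CovZ.leaf K2_ok TF_l6408 _)
            (CovZ.n1 (21840, -6000) (by decide +kernel)
             (CovZ.leaf K2_ok TF_l6409 _)
             (CovZ.n1 (21840, -5920) (by decide +kernel)
              (CovZ.n2 (21880, -5960) (by decide +kernel)
               (CovZ.leaf K2_ok TF_l6410 _)
               (CovZ.leaf K2_ok TF_l6411 _))
              (CovZ.leaf K2_ok TF_l6412 _)))))
          (CovZ.n1 (21920, -6240) (by decide +kernel)
           (CovZ.n2 (21760, -6240) (by decide +kernel)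
            (CovZ.n2 (21840, -6160) (by decide +kernel)
             (CovZ.n2 (21840, -6240) (by decide +kernel)
              (CovZ.n2 (21800, -6200) (by decide +kernel)
               (CovZ.leaf K2_ok TF_l14664 _)
               (CovZ.leaf K2_ok TF_l6413 _))
              (CovZ.n1 (21880, -6200) (by decide +kernel)
               (CovZ.badM (by decide +kernel))
               (CovZ.leaf K2_ok TF_l14665 _)))
             (CovZ.n1 (21760, -6160) (by decide +kernel)
              (CovZ.leaf K2_ok TF_l6414 _)
              (CovZ.n1 (21800, -6200) (by decide +kernel)
               (CovZ.leaf K2_ok TF_l6415 _)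
               (CovZ.leaf K2_ok TF_l6416 _))))
            (CovZ.n1 (21840, -6320) (by decide +kernel)
             (CovZ.n2 (21760, -6320) (by decide +kernel)
              (CovZ.leaf K2_ok TF_l6417 _)
              (CovZ.n1 (21800, -6360) (by decide +kernel)
               (CovZ.leaf K2_ok TF_l14666 _)
               (CovZ.leaf K2_ok TF_l14667 _)))
             (CovZ.n1 (21840, -6240) (by decide +kernel)
              (CovZ.badM (by decide +kernel))
              (CovZ.n1 (21800, -6280) (by decide +kernel)
               (CovZ.leaf K2_ok TF_l6418 _)
               (CovZ.badM (by decide +kernel))))))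
           (CovZ.n1 (21920, -6080) (by decide +kernel)
            (CovZ.n2 (22000, -6160) (by decide +kernel)
             (CovZ.n2 (21920, -6160) (by decide +kernel)
              (CovZ.n2 (21960, -6120) (by decide +kernel)
               (CovZ.badM (by decide +kernel))
               (CovZ.n1 (21920, -6120) (by decide +kernel)
                (CovZ.leaf K2_ok TF_l14668 _)
                (CovZ.badM (by decide +kernel))))
              (CovZ.badM (by decide +kernel)))
             (CovZ.n1 (22000, -6080) (by decide +kernel)
              (CovZ.badM (by decide +kernel))
              (CovZ.n1 (21960, -6120) (by decide +kernel)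
               (CovZ.n2 (21960, -6080) (by decide +kernel)
                (CovZ.badM (by decide +kernel))
                (CovZ.n1 (21940, -6100) (by decide +kernel)
                 (CovZ.n2 (21940, -6080) (by decide +kernel)
                  (CovZ.badM (by decide +kernel))
                  (CovZ.leaf K2_ok TF_l14669 _))
                 (CovZ.badM (by decide +kernel))))
               (CovZ.badM (by decide +kernel)))))
            (CovZ.n1 (21840, -6160) (by decide +kernel)
             (CovZ.n2 (21840, -6080) (by decide +kernel)
              (CovZ.n2 (21880, -6120) (by decide +kernel)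
               (CovZ.leaf K2_ok TF_l6419 _)
               (CovZ.n1 (21880, -6080) (by decide +kernel)
                (CovZ.n2 (21900, -6100) (by decide +kernel)
                 (CovZ.leaf K2_ok TF_l14670 _)
                 (CovZ.leaf K2_ok TF_l14671 _))
                (CovZ.leaf K2_ok TF_l6420 _)))
              (CovZ.leaf K2_ok TF_l6421 _))
             (CovZ.n1 (21920, -6160) (by decide +kernel)
              (CovZ.n2 (21880, -6200) (by decide +kernel)
               (CovZ.n2 (21880, -6160) (by decide +kernel)
                (CovZ.badM (by decide +kernel))
                (CovZ.leaf K2_ok TF_l14672 _))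
               (CovZ.badM (by decide +kernel)))
              (CovZ.n1 (21880, -6120) (by decide +kernel)
               (CovZ.n2 (21920, -6120) (by decide +kernel)
                (CovZ.n2 (21900, -6140) (by decide +kernel)
                 (CovZ.leaf K2_ok TF_l14673 _)
                 (CovZ.badM (by decide +kernel)))
                (CovZ.n1 (21900, -6100) (by decide +kernel)
                 (CovZ.leaf K2_ok TF_l14674 _)
                 (CovZ.leaf K2_ok TF_l14675 _)))
               (CovZ.leaf K2_ok TF_l14676 _)))))))

theorem TF_u15 : CovZ TF_M (toL (selN TF_LN 1237940039285380274899124744)) [0, 7, 4, 3] (22080, -6080) (22400, -5760) (21760, -5760) :=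
    (CovZ.n1 (22080, -5760) (by decide +kernel)
          (CovZ.n2 (22240, -5920) (by decide +kernel)
           (CovZ.n2 (22080, -5920) (by decide +kernel)
            (CovZ.n2 (22160, -5840) (by decide +kernel)
             (CovZ.n2 (22160, -5920) (by decide +kernel)
              (CovZ.n2 (22120, -5880) (by decide +kernel)
               (CovZ.leaf K2_ok TF_l14677 _)
               (CovZ.leaf K2_ok TF_l14678 _))
              (CovZ.leaf K2_ok TF_l14679 _))
             (CovZ.n1 (22080, -5840) (by decide +kernel)
              (CovZ.leaf K2_ok TF_l14680 _)
              (CovZ.n1 (22120, -5880) (by decide +kernel)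
               (CovZ.leaf K2_ok TF_l14681 _)
               (CovZ.leaf K2_ok TF_l14682 _))))
            (CovZ.n1 (22160, -6000) (by decide +kernel)
             (CovZ.n2 (22080, -6000) (by decide +kernel)
              (CovZ.n2 (22120, -5960) (by decide +kernel)
               (CovZ.n2 (22120, -6000) (by decide +kernel)
                (CovZ.n2 (22100, -5980) (by decide +kernel)
                 (CovZ.leaf K2_ok TF_l14683 _)
                 (CovZ.leaf K2_ok TF_l14684 _))
                (CovZ.leaf K2_ok TF_l14685 _))
               (CovZ.n1 (22080, -5960) (by decide +kernel)
                (CovZ.leaf K2_ok TF_l14686 _)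
                (CovZ.n1 (22100, -5980) (by decide +kernel)
                 (CovZ.leaf K2_ok TF_l14687 _)
                 (CovZ.leaf K2_ok TF_l14688 _))))
              (CovZ.n1 (22120, -6040) (by decide +kernel)
               (CovZ.n2 (22080, -6040) (by decide +kernel)
                (CovZ.n2 (22100, -6020) (by decide +kernel)
                 (CovZ.badM (by decide +kernel))
                 (CovZ.leaf K2_ok TF_l14689 _))
                (CovZ.badM (by decide +kernel)))
               (CovZ.n1 (22120, -6000) (by decide +kernel)
                (CovZ.n2 (22140, -6020) (by decide +kernel)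
                 (CovZ.n2 (22120, -6020) (by decide +kernel)
                  (CovZ.leaf K2_ok TF_l14690 _)
                  (CovZ.badM (by decide +kernel)))
                 (CovZ.n1 (22140, -6000) (by decide +kernel)
                  (CovZ.badM (by decide +kernel))
                  (CovZ.leaf K2_ok TF_l14691 _)))
                (CovZ.n1 (22100, -6020) (by decide +kernel)
                 (CovZ.leaf K2_ok TF_l14692 _)
                 (CovZ.n1 (22120, -6020) (by decide +kernel)
                  (CovZ.leaf K2_ok TF_l14693 _)
                  (CovZ.leaf K2_ok TF_l14694 _))))))
             (CovZ.n1 (22160, -5920) (by decide +kernel)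
              (CovZ.n2 (22200, -5960) (by decide +kernel)
               (CovZ.n2 (22160, -5960) (by decide +kernel)
                (CovZ.leaf K2_ok TF_l14695 _)
                (CovZ.badM (by decide +kernel)))
               (CovZ.n1 (22200, -5920) (by decide +kernel)
                (CovZ.badM (by decide +kernel))
                (CovZ.leaf K2_ok TF_l14696 _)))
              (CovZ.n1 (22120, -5960) (by decide +kernel)
               (CovZ.n2 (22120, -5920) (by decide +kernel)
                (CovZ.leaf K2_ok TF_l14697 _)
                (CovZ.leaf K2_ok TF_l14698 _))
               (CovZ.n1 (22160, -5960) (by decide +kernel)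
                (CovZ.n2 (22140, -5980) (by decide +kernel)
                 (CovZ.leaf K2_ok TF_l14699 _)
                 (CovZ.badM (by decide +kernel)))
                (CovZ.leaf K2_ok TF_l14700 _))))))
           (CovZ.n1 (22240, -5760) (by decide +kernel)
            (CovZ.n2 (22320, -5840) (by decide +kernel)
             (CovZ.n2 (22240, -5840) (by decide +kernel)
              (CovZ.leaf K2_ok TF_l14701 _)
              (CovZ.badM (by decide +kernel)))
             (CovZ.n1 (22320, -5760) (by decide +kernel)
              (CovZ.badM (by decide +kernel))
              (CovZ.n1 (22280, -5800) (by decide +kernel)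
               (CovZ.leaf K2_ok TF_l14702 _)
               (CovZ.badM (by decide +kernel)))))
            (CovZ.n1 (22160, -5840) (by decide +kernel)
             (CovZ.n2 (22160, -5760) (by decide +kernel)
              (CovZ.n2 (22200, -5800) (by decide +kernel)
               (CovZ.leaf K2_ok TF_l14703 _)
               (CovZ.leaf K2_ok TF_l14704 _))
              (CovZ.leaf K2_ok TF_l14705 _))
             (CovZ.n1 (22240, -5840) (by decide +kernel)
              (CovZ.n2 (22200, -5880) (by decide +kernel)
               (CovZ.leaf K2_ok TF_l14706 _)
               (CovZ.badM (by decide +kernel)))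
              (CovZ.n1 (22200, -5800) (by decide +kernel)
               (CovZ.leaf K2_ok TF_l14707 _)
               (CovZ.leaf K2_ok TF_l14708 _))))))
          (CovZ.n1 (21920, -5920) (by decide +kernel)
           (CovZ.n2 (21920, -5760) (by decide +kernel)
            (CovZ.n2 (22000, -5840) (by decide +kernel)
             (CovZ.n2 (21920, -5840) (by decide +kernel)
              (CovZ.leaf K2_ok TF_l6422 _)
              (CovZ.n1 (21960, -5880) (by decide +kernel)
               (CovZ.leaf K2_ok TF_l6423 _)
               (CovZ.leaf K2_ok TF_l6424 _)))
             (CovZ.n1 (22000, -5760) (by decide +kernel)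
              (CovZ.leaf K2_ok TF_l6425 _)
              (CovZ.leaf K2_ok TF_l6426 _)))
            (CovZ.n1 (21840, -5840) (by decide +kernel)
             (CovZ.leaf K2_ok TF_l6427 _)
             (CovZ.n1 (21920, -5840) (by decide +kernel)
              (CovZ.leaf K2_ok TF_l6428 _)
              (CovZ.leaf K2_ok TF_l6429 _))))
           (CovZ.n1 (22080, -5920) (by decide +kernel)
            (CovZ.n2 (22000, -6000) (by decide +kernel)
             (CovZ.n2 (22000, -5920) (by decide +kernel)
              (CovZ.n2 (22040, -5960) (by decide +kernel)
               (CovZ.leaf K2_ok TF_l14709 _)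
               (CovZ.n1 (22040, -5920) (by decide +kernel)
                (CovZ.leaf K2_ok TF_l14710 _)
                (CovZ.leaf K2_ok TF_l14711 _)))
              (CovZ.n1 (21960, -5960) (by decide +kernel)
               (CovZ.leaf K2_ok TF_l6430 _)
               (CovZ.n1 (22000, -5960) (by decide +kernel)
                (CovZ.leaf K2_ok TF_l14712 _)
                (CovZ.leaf K2_ok TF_l14713 _))))
             (CovZ.n1 (22080, -6000) (by decide +kernel)
              (CovZ.n2 (22040, -6040) (by decide +kernel)
               (CovZ.n2 (22040, -6000) (by decide +kernel)
                (CovZ.n2 (22060, -6020) (by decide +kernel)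
                 (CovZ.leaf K2_ok TF_l14714 _)
                 (CovZ.leaf K2_ok TF_l14715 _))
                (CovZ.n1 (22020, -6020) (by decide +kernel)
                 (CovZ.leaf K2_ok TF_l14716 _)
                 (CovZ.leaf K2_ok TF_l14717 _)))
               (CovZ.n1 (22080, -6040) (by decide +kernel)
                (CovZ.badM (by decide +kernel))
                (CovZ.n1 (22060, -6020) (by decide +kernel)
                 (CovZ.n2 (22080, -6020) (by decide +kernel)
                  (CovZ.badM (by decide +kernel))
                  (CovZ.leaf K2_ok TF_l14718 _))
                 (CovZ.badM (by decide +kernel)))))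
              (CovZ.n1 (22040, -5960) (by decide +kernel)
               (CovZ.n2 (22080, -5960) (by decide +kernel)
                (CovZ.leaf K2_ok TF_l14719 _)
                (CovZ.leaf K2_ok TF_l14720 _))
               (CovZ.n1 (22040, -6000) (by decide +kernel)
                (CovZ.leaf K2_ok TF_l14721 _)
                (CovZ.leaf K2_ok TF_l14722 _)))))
            (CovZ.n1 (22000, -5840) (by decide +kernel)
             (CovZ.n2 (22080, -5840) (by decide +kernel)
              (CovZ.n2 (22040, -5880) (by decide +kernel)
               (CovZ.leaf K2_ok TF_l6431 _)
               (CovZ.leaf K2_ok TF_l14723 _))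
              (CovZ.leaf K2_ok TF_l6432 _))
             (CovZ.n1 (22000, -5920) (by decide +kernel)
              (CovZ.n2 (21960, -5880) (by decide +kernel)
               (CovZ.leaf K2_ok TF_l6433 _)
               (CovZ.leaf K2_ok TF_l6434 _))
              (CovZ.leaf K2_ok TF_l6435 _))))))

theorem TF_u16 : CovZ TF_M (toL (selN TF_LN 42535338968970878623691469369280299528)) [0, 7, 4, 3] (11520, -3840) (10240, -5120) (12800, -5120) :=
    (CovZ.subM 40564819207303340847963224145928 (by decide +kernel)
     (CovZ.n1 (11520, -5120) (by decide +kernel)
      (CovZ.n2 (10880, -4480) (by decide +kernel)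
       (CovZ.n2 (11520, -4480) (by decide +kernel)
        (CovZ.n2 (11200, -4800) (by decide +kernel)
         (CovZ.badM (by decide +kernel))
         (CovZ.n1 (11520, -4800) (by decide +kernel)
          (CovZ.badM (by decide +kernel))
          (CovZ.n1 (11360, -4640) (by decide +kernel)
           (CovZ.n2 (11520, -4640) (by decide +kernel)
            (CovZ.n2 (11440, -4720) (by decide +kernel)
             (CovZ.badM (by decide +kernel))
             (CovZ.n1 (11520, -4720) (by decide +kernel)
              (CovZ.n2 (11480, -4760) (by decide +kernel)
               (CovZ.badM (by decide +kernel))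
               (CovZ.badM (by decide +kernel)))
              (CovZ.badM (by decide +kernel))))
            (CovZ.badM (by decide +kernel)))
           (CovZ.n1 (11360, -4800) (by decide +kernel)
            (CovZ.badM (by decide +kernel))
            (CovZ.n1 (11440, -4720) (by decide +kernel)
             (CovZ.n2 (11440, -4800) (by decide +kernel)
              (CovZ.badM (by decide +kernel))
              (CovZ.n1 (11480, -4760) (by decide +kernel)
               (CovZ.badM (by decide +kernel))
               (CovZ.badM (by decide +kernel))))
             (CovZ.badM (by decide +kernel)))))))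
        (CovZ.n1 (11200, -4160) (by decide +kernel)
         (CovZ.n2 (11520, -4160) (by decide +kernel)
          (CovZ.badM (by decide +kernel))
          (CovZ.n1 (11360, -4000) (by decide +kernel)
           (CovZ.leaf K2_ok TF_l13308 _)
           (CovZ.badM (by decide +kernel))))
         (CovZ.badM (by decide +kernel))))
       (CovZ.n1 (10880, -5120) (by decide +kernel)
        (CovZ.badM (by decide +kernel))
        (CovZ.n1 (11200, -4800) (by decide +kernel)
         (CovZ.badM (by decide +kernel))
         (CovZ.badM (by decide +kernel)))))
      (CovZ.n1 (12160, -4480) (by decide +kernel)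
       (CovZ.n2 (12160, -5120) (by decide +kernel)
        (CovZ.n2 (11840, -4800) (by decide +kernel)
         (CovZ.n2 (12160, -4800) (by decide +kernel)
          (CovZ.n2 (12000, -4960) (by decide +kernel)
           (CovZ.n2 (12000, -4800) (by decide +kernel)
            (CovZ.leaf K2_ok TF_l4977 _)
            (CovZ.n1 (11920, -4880) (by decide +kernel)
             (CovZ.leaf K2_ok TF_l4978 _)
             (CovZ.leaf K2_ok TF_l4979 _)))
           (CovZ.n1 (12160, -4960) (by decide +kernel)
            (CovZ.badM (by decide +kernel))
            (CovZ.leaf K2_ok TF_l4980 _)))
          (CovZ.n1 (12000, -4640) (by decide +kernel)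
           (CovZ.leaf K2_ok TF_l4981 _)
           (CovZ.leaf K2_ok TF_l4982 _)))
         (CovZ.n1 (11840, -5120) (by decide +kernel)
          (CovZ.n2 (11680, -4960) (by decide +kernel)
           (CovZ.n2 (11840, -4960) (by decide +kernel)
            (CovZ.n2 (11760, -5040) (by decide +kernel)
             (CovZ.n2 (11760, -4960) (by decide +kernel)
              (CovZ.n2 (11800, -5000) (by decide +kernel)
               (CovZ.n2 (11760, -5000) (by decide +kernel)
                (CovZ.n2 (11780, -4980) (by decide +kernel)
                 (CovZ.n2 (11780, -5000) (by decide +kernel)
                  (CovZ.badM (by decide +kernel))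
                  (CovZ.leaf K2_ok TF_l13309 _))
                 (CovZ.badM (by decide +kernel)))
                (CovZ.n1 (11780, -5020) (by decide +kernel)
                 (CovZ.badM (by decide +kernel))
                 (CovZ.n1 (11780, -5000) (by decide +kernel)
                  (CovZ.leaf K2_ok TF_l13310 _)
                  (CovZ.badM (by decide +kernel)))))
               (CovZ.n1 (11800, -4960) (by decide +kernel)
                (CovZ.leaf K2_ok TF_l13311 _)
                (CovZ.n1 (11780, -4980) (by decide +kernel)
                 (CovZ.leaf K2_ok TF_l13312 _)
                 (CovZ.leaf K2_ok TF_l13313 _))))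
              (CovZ.badM (by decide +kernel)))
             (CovZ.n1 (11840, -5040) (by decide +kernel)
              (CovZ.badM (by decide +kernel))
              (CovZ.n1 (11800, -5000) (by decide +kernel)
               (CovZ.n2 (11840, -5000) (by decide +kernel)
                (CovZ.n2 (11820, -5020) (by decide +kernel)
                 (CovZ.leaf K2_ok TF_l13314 _)
                 (CovZ.badM (by decide +kernel)))
                (CovZ.leaf K2_ok TF_l13315 _))
               (CovZ.n1 (11800, -5040) (by decide +kernel)
                (CovZ.n2 (11780, -5020) (by decide +kernel)
                 (CovZ.n2 (11800, -5020) (by decide +kernel)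
                  (CovZ.badM (by decide +kernel))
                  (CovZ.leaf K2_ok TF_l13316 _))
                 (CovZ.badM (by decide +kernel)))
                (CovZ.n1 (11820, -5020) (by decide +kernel)
                 (CovZ.badM (by decide +kernel))
                 (CovZ.leaf K2_ok TF_l13317 _))))))
            (CovZ.n1 (11760, -4880) (by decide +kernel)
             (CovZ.n2 (11840, -4880) (by decide +kernel)
              (CovZ.n2 (11800, -4920) (by decide +kernel)
               (CovZ.leaf K2_ok TF_l13318 _)
               (CovZ.leaf K2_ok TF_l4983 _))
              (CovZ.leaf K2_ok TF_l13319 _))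
             (CovZ.n1 (11760, -4960) (by decide +kernel)
              (CovZ.badM (by decide +kernel))
              (CovZ.n1 (11800, -4920) (by decide +kernel)
               (CovZ.leaf K2_ok TF_l4984 _)
               (CovZ.leaf K2_ok TF_l13320 _)))))
           (CovZ.n1 (11680, -5120) (by decide +kernel)
            (CovZ.badM (by decide +kernel))
            (CovZ.n1 (11760, -5040) (by decide +kernel)
             (CovZ.badM (by decide +kernel))
             (CovZ.badM (by decide +kernel)))))
          (CovZ.n1 (12000, -4960) (by decide +kernel)
           (CovZ.badM (by decide +kernel))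
           (CovZ.n1 (11840, -4960) (by decide +kernel)
            (CovZ.n2 (11920, -4880) (by decide +kernel)
             (CovZ.leaf K2_ok TF_l4985 _)
             (CovZ.leaf K2_ok TF_l4986 _))
            (CovZ.n1 (11920, -5040) (by decide +kernel)
             (CovZ.n2 (11840, -5040) (by decide +kernel)
              (CovZ.leaf K2_ok TF_l13321 _)
              (CovZ.badM (by decide +kernel)))
             (CovZ.n1 (11920, -4960) (by decide +kernel)
              (CovZ.badM (by decide +kernel))
              (CovZ.n1 (11880, -5000) (by decide +kernel)
               (CovZ.leaf K2_ok TF_l13322 _)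
               (CovZ.badM (by decide +kernel)))))))))
        (CovZ.n1 (12480, -4800) (by decide +kernel)
         (CovZ.n2 (12480, -5120) (by decide +kernel)
          (CovZ.n2 (12320, -4960) (by decide +kernel)
           (CovZ.leaf K2_ok TF_l13323 _)
           (CovZ.badM (by decide +kernel)))
          (CovZ.leaf K2_ok TF_l13324 _))
         (CovZ.n1 (12160, -4800) (by decide +kernel)
          (CovZ.leaf K2_ok TF_l4987 _)
          (CovZ.n1 (12320, -4960) (by decide +kernel)
           (CovZ.leaf K2_ok TF_l4988 _)
           (CovZ.leaf K2_ok TF_l4989 _)))))
       (CovZ.n1 (11520, -4480) (by decide +kernel)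
        (CovZ.n2 (11840, -4160) (by decide +kernel)
         (CovZ.n2 (11840, -4480) (by decide +kernel)
          (CovZ.n2 (11680, -4320) (by decide +kernel)
           (CovZ.leaf K2_ok TF_l13325 _)
           (CovZ.n1 (11680, -4480) (by decide +kernel)
            (CovZ.badM (by decide +kernel))
            (CovZ.leaf K2_ok TF_l13326 _)))
          (CovZ.leaf K2_ok TF_l13327 _))
         (CovZ.n1 (11520, -4160) (by decide +kernel)
          (CovZ.leaf K2_ok TF_l13328 _)
          (CovZ.n1 (11680, -4320) (by decide +kernel)
           (CovZ.badM (by decide +kernel))
           (CovZ.leaf K2_ok TF_l13329 _))))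
        (CovZ.n1 (11840, -4800) (by decide +kernel)
         (CovZ.n2 (11520, -4800) (by decide +kernel)
          (CovZ.n2 (11680, -4640) (by decide +kernel)
           (CovZ.n2 (11680, -4800) (by decide +kernel)
            (CovZ.n2 (11600, -4720) (by decide +kernel)
             (CovZ.n2 (11680, -4720) (by decide +kernel)
              (CovZ.badM (by decide +kernel))
              (CovZ.n1 (11640, -4680) (by decide +kernel)
               (CovZ.leaf K2_ok TF_l13330 _)
               (CovZ.leaf K2_ok TF_l13331 _)))
             (CovZ.badM (by decide +kernel)))
            (CovZ.n1 (11760, -4720) (by decide +kernel)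
             (CovZ.n2 (11760, -4800) (by decide +kernel)
              (CovZ.badM (by decide +kernel))
              (CovZ.leaf K2_ok TF_l13332 _))
             (CovZ.leaf K2_ok TF_l13333 _)))
           (CovZ.n1 (11520, -4640) (by decide +kernel)
            (CovZ.n2 (11600, -4560) (by decide +kernel)
             (CovZ.n2 (11600, -4640) (by decide +kernel)
              (CovZ.n2 (11560, -4600) (by decide +kernel)
               (CovZ.leaf K2_ok TF_l13334 _)
               (CovZ.leaf K2_ok TF_l13335 _))
              (CovZ.leaf K2_ok TF_l13336 _))
             (CovZ.badM (by decide +kernel)))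
            (CovZ.n1 (11600, -4720) (by decide +kernel)
             (CovZ.n2 (11520, -4720) (by decide +kernel)
              (CovZ.n2 (11560, -4680) (by decide +kernel)
               (CovZ.n2 (11560, -4720) (by decide +kernel)
                (CovZ.n2 (11540, -4700) (by decide +kernel)
                 (CovZ.leaf K2_ok TF_l13337 _)
                 (CovZ.leaf K2_ok TF_l13338 _))
                (CovZ.leaf K2_ok TF_l13339 _))
               (CovZ.badM (by decide +kernel)))
              (CovZ.badM (by decide +kernel)))
             (CovZ.n1 (11600, -4640) (by decide +kernel)
              (CovZ.n2 (11640, -4680) (by decide +kernel)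
               (CovZ.leaf K2_ok TF_l13340 _)
               (CovZ.leaf K2_ok TF_l13341 _))
              (CovZ.n1 (11560, -4680) (by decide +kernel)
               (CovZ.n2 (11560, -4640) (by decide +kernel)
                (CovZ.leaf K2_ok TF_l13342 _)
                (CovZ.badM (by decide +kernel)))
               (CovZ.leaf K2_ok TF_l13343 _))))))
          (CovZ.n1 (11680, -4960) (by decide +kernel)
           (CovZ.badM (by decide +kernel))
           (CovZ.n1 (11680, -4800) (by decide +kernel)
            (CovZ.n2 (11760, -4880) (by decide +kernel)
             (CovZ.badM (by decide +kernel))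
             (CovZ.n1 (11760, -4800) (by decide +kernel)
              (CovZ.leaf K2_ok TF_l13344 _)
              (CovZ.badM (by decide +kernel))))
            (CovZ.badM (by decide +kernel)))))
         (CovZ.n1 (11840, -4480) (by decide +kernel)
          (CovZ.n2 (12000, -4640) (by decide +kernel)
           (CovZ.leaf K2_ok TF_l13345 _)
           (CovZ.leaf K2_ok TF_l13346 _))
          (CovZ.n1 (11680, -4640) (by decide +kernel)
           (CovZ.n2 (11680, -4480) (by decide +kernel)
            (CovZ.leaf K2_ok TF_l13347 _)
            (CovZ.n1 (11600, -4560) (by decide +kernel)
             (CovZ.badM (by decide +kernel))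
             (CovZ.leaf K2_ok TF_l13348 _)))
           (CovZ.n1 (11840, -4640) (by decide +kernel)
            (CovZ.n2 (11760, -4720) (by decide +kernel)
             (CovZ.leaf K2_ok TF_l13349 _)
             (CovZ.leaf K2_ok TF_l13350 _))
            (CovZ.leaf K2_ok TF_l13351 _)))))))))

theorem TF_u17 : CovZ TF_M (toL (selN TF_LN 42535298404151671320350621474777727496)) [0, 7, 4, 3] (10240, -5120) (11520, -3840) (10240, -2560) :=
    (CovZ.subM 42535295866355247972207206272589627400 (by decide +kernel)
     (CovZ.n2 (10240, -3840) (by decide +kernel)
      (CovZ.n2 (10880, -3200) (by decide +kernel)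
       (CovZ.n2 (10880, -3840) (by decide +kernel)
        (CovZ.n2 (10560, -3520) (by decide +kernel)
         (CovZ.n2 (10880, -3520) (by decide +kernel)
          (CovZ.n2 (10720, -3680) (by decide +kernel)
           (CovZ.n2 (10720, -3520) (by decide +kernel)
            (CovZ.n2 (10800, -3600) (by decide +kernel)
             (CovZ.leaf K2_ok TF_l4990 _)
             (CovZ.leaf K2_ok TF_l13352 _))
            (CovZ.n1 (10640, -3600) (by decide +kernel)
             (CovZ.n2 (10640, -3520) (by decide +kernel)
              (CovZ.leaf K2_ok TF_l13353 _)
              (CovZ.leaf K2_ok TF_l13354 _))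
             (CovZ.n1 (10720, -3600) (by decide +kernel)
              (CovZ.leaf K2_ok TF_l4991 _)
              (CovZ.leaf K2_ok TF_l13355 _))))
           (CovZ.n1 (10880, -3680) (by decide +kernel)
            (CovZ.badM (by decide +kernel))
            (CovZ.n1 (10800, -3600) (by decide +kernel)
             (CovZ.leaf K2_ok TF_l4995 _)
             (CovZ.leaf K2_ok TF_l4996 _))))
          (CovZ.n1 (10720, -3360) (by decide +kernel)
           (CovZ.n2 (10880, -3360) (by decide +kernel)
            (CovZ.leaf K2_ok TF_l13356 _)
            (CovZ.leaf K2_ok TF_l4997 _))
           (CovZ.n1 (10720, -3520) (by decide +kernel)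
            (CovZ.n2 (10640, -3440) (by decide +kernel)
             (CovZ.leaf K2_ok TF_l13357 _)
             (CovZ.leaf K2_ok TF_l13358 _))
            (CovZ.leaf K2_ok TF_l13359 _))))
         (CovZ.n1 (10560, -3840) (by decide +kernel)
          (CovZ.n2 (10400, -3680) (by decide +kernel)
           (CovZ.n2 (10560, -3680) (by decide +kernel)
            (CovZ.badM (by decide +kernel))
            (CovZ.n1 (10480, -3600) (by decide +kernel)
             (CovZ.n2 (10560, -3600) (by decide +kernel)
              (CovZ.badM (by decide +kernel))
              (CovZ.n1 (10520, -3560) (by decide +kernel)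
               (CovZ.leaf K2_ok TF_l13360 _)
               (CovZ.badM (by decide +kernel))))
             (CovZ.badM (by decide +kernel))))
           (CovZ.badM (by decide +kernel)))
          (CovZ.n1 (10720, -3680) (by decide +kernel)
           (CovZ.badM (by decide +kernel))
           (CovZ.n1 (10560, -3680) (by decide +kernel)
            (CovZ.n2 (10640, -3600) (by decide +kernel)
             (CovZ.badM (by decide +kernel))
             (CovZ.n1 (10560, -3600) (by decide +kernel)
              (CovZ.leaf K2_ok TF_l13361 _)
              (CovZ.badM (by decide +kernel))))
            (CovZ.badM (by decide +kernel))))))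
        (CovZ.n1 (11200, -3520) (by decide +kernel)
         (CovZ.n2 (11200, -3840) (by decide +kernel)
          (CovZ.n2 (11040, -3680) (by decide +kernel)
           (CovZ.n2 (11200, -3680) (by decide +kernel)
            (CovZ.leaf K2_ok TF_l5004 _)
            (CovZ.leaf K2_ok TF_l5005 _))
           (CovZ.n1 (11040, -3840) (by decide +kernel)
            (CovZ.n2 (10960, -3760) (by decide +kernel)
             (CovZ.leaf K2_ok TF_l5006 _)
             (CovZ.badM (by decide +kernel)))
            (CovZ.leaf K2_ok TF_l5007 _)))
          (CovZ.leaf K2_ok TF_l5008 _))
         (CovZ.n1 (10880, -3520) (by decide +kernel)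
          (CovZ.leaf K2_ok TF_l5009 _)
          (CovZ.n1 (11040, -3680) (by decide +kernel)
           (CovZ.n2 (10880, -3680) (by decide +kernel)
            (CovZ.leaf K2_ok TF_l5010 _)
            (CovZ.n1 (10960, -3760) (by decide +kernel)
             (CovZ.badM (by decide +kernel))
             (CovZ.leaf K2_ok TF_l5012 _)))
           (CovZ.n1 (11040, -3520) (by decide +kernel)
            (CovZ.leaf K2_ok TF_l5013 _)
            (CovZ.leaf K2_ok TF_l5014 _))))))
       (CovZ.n1 (10240, -3200) (by decide +kernel)
        (CovZ.n2 (10560, -2880) (by decide +kernel)
         (CovZ.n2 (10560, -3200) (by decide +kernel)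
          (CovZ.n2 (10400, -3040) (by decide +kernel)
           (CovZ.leaf K2_ok TF_l5015 _)
           (CovZ.n1 (10400, -3200) (by decide +kernel)
            (CovZ.leaf K2_ok TF_l13362 _)
            (CovZ.leaf K2_ok TF_l5016 _)))
          (CovZ.leaf K2_ok TF_l5017 _))
         (CovZ.n1 (10240, -2880) (by decide +kernel)
          (CovZ.leaf K2_ok TF_l5018 _)
          (CovZ.n1 (10400, -3040) (by decide +kernel)
           (CovZ.n2 (10240, -3040) (by decide +kernel)
            (CovZ.leaf K2_ok TF_l13363 _)
            (CovZ.n1 (10320, -3120) (by decide +kernel)
             (CovZ.badM (by decide +kernel))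
             (CovZ.leaf K2_ok TF_l13364 _)))
           (CovZ.leaf K2_ok TF_l5019 _))))
        (CovZ.n1 (10560, -3520) (by decide +kernel)
         (CovZ.n2 (10240, -3520) (by decide +kernel)
          (CovZ.n2 (10400, -3360) (by decide +kernel)
           (CovZ.n2 (10400, -3520) (by decide +kernel)
            (CovZ.n2 (10320, -3440) (by decide +kernel)
             (CovZ.n2 (10400, -3440) (by decide +kernel)
              (CovZ.n2 (10360, -3480) (by decide +kernel)
               (CovZ.n2 (10360, -3440) (by decide +kernel)
                (CovZ.leaf K2_ok TF_l13365 _)
                (CovZ.leaf K2_ok TF_l13366 _))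
               (CovZ.n1 (10400, -3480) (by decide +kernel)
                (CovZ.leaf K2_ok TF_l13367 _)
                (CovZ.leaf K2_ok TF_l13368 _)))
              (CovZ.n1 (10360, -3400) (by decide +kernel)
               (CovZ.leaf K2_ok TF_l13369 _)
               (CovZ.leaf K2_ok TF_l13370 _)))
             (CovZ.n1 (10320, -3520) (by decide +kernel)
              (CovZ.n2 (10280, -3480) (by decide +kernel)
               (CovZ.n2 (10320, -3480) (by decide +kernel)
                (CovZ.n2 (10300, -3500) (by decide +kernel)
                 (CovZ.n2 (10300, -3480) (by decide +kernel)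
                  (CovZ.leaf K2_ok TF_l13371 _)
                  (CovZ.leaf K2_ok TF_l13372 _))
                 (CovZ.n1 (10320, -3500) (by decide +kernel)
                  (CovZ.badM (by decide +kernel))
                  (CovZ.leaf K2_ok TF_l13373 _)))
                (CovZ.n1 (10300, -3460) (by decide +kernel)
                 (CovZ.leaf K2_ok TF_l13374 _)
                 (CovZ.leaf K2_ok TF_l13375 _)))
               (CovZ.badM (by decide +kernel)))
              (CovZ.n1 (10360, -3480) (by decide +kernel)
               (CovZ.n2 (10360, -3520) (by decide +kernel)
                (CovZ.n2 (10340, -3500) (by decide +kernel)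
                 (CovZ.leaf K2_ok TF_l13376 _)
                 (CovZ.badM (by decide +kernel)))
                (CovZ.leaf K2_ok TF_l13377 _))
               (CovZ.n1 (10320, -3480) (by decide +kernel)
                (CovZ.leaf K2_ok TF_l13378 _)
                (CovZ.n1 (10340, -3500) (by decide +kernel)
                 (CovZ.leaf K2_ok TF_l13379 _)
                 (CovZ.leaf K2_ok TF_l13380 _))))))
            (CovZ.n1 (10480, -3440) (by decide +kernel)
             (CovZ.n2 (10480, -3520) (by decide +kernel)
              (CovZ.n2 (10440, -3480) (by decide +kernel)
               (CovZ.leaf K2_ok TF_l13381 _)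
               (CovZ.leaf K2_ok TF_l13382 _))
              (CovZ.leaf K2_ok TF_l13383 _))
             (CovZ.n1 (10400, -3440) (by decide +kernel)
              (CovZ.leaf K2_ok TF_l13384 _)
              (CovZ.n1 (10440, -3480) (by decide +kernel)
               (CovZ.leaf K2_ok TF_l13385 _)
               (CovZ.leaf K2_ok TF_l13386 _)))))
           (CovZ.n1 (10240, -3360) (by decide +kernel)
            (CovZ.n2 (10320, -3280) (by decide +kernel)
             (CovZ.n2 (10320, -3360) (by decide +kernel)
              (CovZ.n2 (10280, -3320) (by decide +kernel)
               (CovZ.leaf K2_ok TF_l5020 _)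
               (CovZ.leaf K2_ok TF_l5021 _))
              (CovZ.leaf K2_ok TF_l5022 _))
             (CovZ.n1 (10240, -3280) (by decide +kernel)
              (CovZ.leaf K2_ok TF_l13387 _)
              (CovZ.n1 (10280, -3320) (by decide +kernel)
               (CovZ.badM (by decide +kernel))
               (CovZ.leaf K2_ok TF_l13388 _))))
            (CovZ.n1 (10320, -3440) (by decide +kernel)
             (CovZ.n2 (10240, -3440) (by decide +kernel)
              (CovZ.n2 (10280, -3400) (by decide +kernel)
               (CovZ.n2 (10280, -3440) (by decide +kernel)
                (CovZ.badM (by decide +kernel))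
                (CovZ.leaf K2_ok TF_l13389 _))
               (CovZ.badM (by decide +kernel)))
              (CovZ.n1 (10280, -3480) (by decide +kernel)
               (CovZ.badM (by decide +kernel))
               (CovZ.n1 (10280, -3440) (by decide +kernel)
                (CovZ.n2 (10300, -3460) (by decide +kernel)
                 (CovZ.leaf K2_ok TF_l13390 _)
                 (CovZ.leaf K2_ok TF_l13391 _))
                (CovZ.badM (by decide +kernel)))))
             (CovZ.n1 (10320, -3360) (by decide +kernel)
              (CovZ.n2 (10360, -3400) (by decide +kernel)
               (CovZ.leaf K2_ok TF_l13392 _)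
               (CovZ.leaf K2_ok TF_l13393 _))
              (CovZ.n1 (10280, -3400) (by decide +kernel)
               (CovZ.n2 (10280, -3360) (by decide +kernel)
                (CovZ.leaf K2_ok TF_l13394 _)
                (CovZ.badM (by decide +kernel)))
               (CovZ.n1 (10320, -3400) (by decide +kernel)
                (CovZ.leaf K2_ok TF_l13395 _)
                (CovZ.leaf K2_ok TF_l13396 _)))))))
          (CovZ.n1 (10400, -3680) (by decide +kernel)
           (CovZ.badM (by decide +kernel))
           (CovZ.n1 (10400, -3520) (by decide +kernel)
            (CovZ.n2 (10480, -3600) (by decide +kernel)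
             (CovZ.badM (by decide +kernel))
             (CovZ.n1 (10480, -3520) (by decide +kernel)
              (CovZ.n2 (10520, -3560) (by decide +kernel)
               (CovZ.leaf K2_ok TF_l13397 _)
               (CovZ.leaf K2_ok TF_l13398 _))
              (CovZ.n1 (10440, -3560) (by decide +kernel)
               (CovZ.n2 (10440, -3520) (by decide +kernel)
                (CovZ.leaf K2_ok TF_l13399 _)
                (CovZ.leaf K2_ok TF_l13400 _))
               (CovZ.n1 (10480, -3560) (by decide +kernel)
                (CovZ.badM (by decide +kernel))
                (CovZ.leaf K2_ok TF_l13401 _)))))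
            (CovZ.badM (by decide +kernel)))))
         (CovZ.n1 (10560, -3200) (by decide +kernel)
          (CovZ.n2 (10720, -3360) (by decide +kernel)
           (CovZ.n2 (10560, -3360) (by decide +kernel)
            (CovZ.leaf K2_ok TF_l5023 _)
            (CovZ.n1 (10640, -3440) (by decide +kernel)
             (CovZ.leaf K2_ok TF_l13402 _)
             (CovZ.leaf K2_ok TF_l13403 _)))
           (CovZ.n1 (10720, -3200) (by decide +kernel)
            (CovZ.leaf K2_ok TF_l5024 _)
            (CovZ.leaf K2_ok TF_l5025 _)))
          (CovZ.n1 (10400, -3360) (by decide +kernel)
           (CovZ.n2 (10400, -3200) (by decide +kernel)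
            (CovZ.n2 (10480, -3280) (by decide +kernel)
             (CovZ.leaf K2_ok TF_l5026 _)
             (CovZ.leaf K2_ok TF_l5027 _))
            (CovZ.n1 (10320, -3280) (by decide +kernel)
             (CovZ.leaf K2_ok TF_l13404 _)
             (CovZ.n1 (10400, -3280) (by decide +kernel)
              (CovZ.leaf K2_ok TF_l5028 _)
              (CovZ.leaf K2_ok TF_l5029 _))))
           (CovZ.n1 (10560, -3360) (by decide +kernel)
            (CovZ.n2 (10480, -3440) (by decide +kernel)
             (CovZ.n2 (10480, -3360) (by decide +kernel)
              (CovZ.leaf K2_ok TF_l13405 _)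
              (CovZ.leaf K2_ok TF_l13406 _))
             (CovZ.n1 (10560, -3440) (by decide +kernel)
              (CovZ.leaf K2_ok TF_l13407 _)
              (CovZ.leaf K2_ok TF_l13408 _)))
            (CovZ.n1 (10480, -3280) (by decide +kernel)
             (CovZ.leaf K2_ok TF_l5030 _)
             (CovZ.leaf K2_ok TF_l5031 _))))))))
      (CovZ.n1 (10880, -4480) (by decide +kernel)
       (CovZ.badM (by decide +kernel))
       (CovZ.n1 (10880, -3840) (by decide +kernel)
        (CovZ.n2 (11200, -4160) (by decide +kernel)
         (CovZ.badM (by decide +kernel))
         (CovZ.n1 (11200, -3840) (by decide +kernel)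
          (CovZ.n2 (11360, -4000) (by decide +kernel)
           (CovZ.badM (by decide +kernel))
           (CovZ.n1 (11360, -3840) (by decide +kernel)
            (CovZ.leaf K2_ok TF_l13409 _)
            (CovZ.badM (by decide +kernel))))
          (CovZ.badM (by decide +kernel))))
        (CovZ.badM (by decide +kernel))))))

theorem TF_u18 : CovZ TF_M (toL (selN TF_LN 664616534450941245345949730979480096)) [0, 7, 4, 3] (24320, -3840) (23680, -3200) (23040, -3840) :=
    (CovZ.subM 664616534431598432196086798445707808 (by decide +kernel)
       (CovZ.n2 (23680, -3840) (by decide +kernel)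
        (CovZ.n2 (23360, -3520) (by decide +kernel)
         (CovZ.n2 (23680, -3520) (by decide +kernel)
          (CovZ.n2 (23520, -3680) (by decide +kernel)
           (CovZ.n2 (23520, -3520) (by decide +kernel)
            (CovZ.n2 (23600, -3600) (by decide +kernel)
             (CovZ.leaf K2_ok TF_l15029 _)
             (CovZ.n1 (23600, -3520) (by decide +kernel)
              (CovZ.leaf K2_ok TF_l15030 _)
              (CovZ.leaf K2_ok TF_l15031 _)))
            (CovZ.n1 (23440, -3600) (by decide +kernel)
             (CovZ.leaf K2_ok TF_l15032 _)
             (CovZ.leaf K2_ok TF_l15033 _)))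
           (CovZ.n1 (23680, -3680) (by decide +kernel)
            (CovZ.n2 (23600, -3760) (by decide +kernel)
             (CovZ.n2 (23600, -3680) (by decide +kernel)
              (CovZ.leaf K2_ok TF_l15034 _)
              (CovZ.leaf K2_ok TF_l15035 _))
             (CovZ.n1 (23680, -3760) (by decide +kernel)
              (CovZ.leaf K2_ok TF_l15036 _)
              (CovZ.leaf K2_ok TF_l15037 _)))
            (CovZ.n1 (23600, -3600) (by decide +kernel)
             (CovZ.n2 (23680, -3600) (by decide +kernel)
              (CovZ.leaf K2_ok TF_l15038 _)
              (CovZ.leaf K2_ok TF_l15039 _))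
             (CovZ.leaf K2_ok TF_l15040 _))))
          (CovZ.n1 (23520, -3360) (by decide +kernel)
           (CovZ.n2 (23680, -3360) (by decide +kernel)
            (CovZ.n2 (23600, -3440) (by decide +kernel)
             (CovZ.n2 (23600, -3360) (by decide +kernel)
              (CovZ.leaf K2_ok TF_l15041 _)
              (CovZ.leaf K2_ok TF_l15042 _))
             (CovZ.n1 (23680, -3440) (by decide +kernel)
              (CovZ.leaf K2_ok TF_l15043 _)
              (CovZ.leaf K2_ok TF_l15044 _)))
            (CovZ.n1 (23600, -3280) (by decide +kernel)
             (CovZ.n2 (23680, -3280) (by decide +kernel)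
              (CovZ.leaf K2_ok TF_l15045 _)
              (CovZ.leaf K2_ok TF_l15046 _))
             (CovZ.leaf K2_ok TF_l15047 _)))
           (CovZ.n1 (23520, -3520) (by decide +kernel)
            (CovZ.n2 (23440, -3440) (by decide +kernel)
             (CovZ.leaf K2_ok TF_l15048 _)
             (CovZ.leaf K2_ok TF_l15049 _))
            (CovZ.leaf K2_ok TF_l15050 _))))
         (CovZ.n1 (23360, -3840) (by decide +kernel)
          (CovZ.n2 (23200, -3680) (by decide +kernel)
           (CovZ.n2 (23360, -3680) (by decide +kernel)
            (CovZ.leaf K2_ok TF_l6690 _)
            (CovZ.leaf K2_ok TF_l6691 _))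
           (CovZ.leaf K2_ok TF_l6692 _))
          (CovZ.n1 (23520, -3680) (by decide +kernel)
           (CovZ.n2 (23520, -3840) (by decide +kernel)
            (CovZ.n2 (23440, -3760) (by decide +kernel)
             (CovZ.leaf K2_ok TF_l15051 _)
             (CovZ.leaf K2_ok TF_l15052 _))
            (CovZ.leaf K2_ok TF_l15053 _))
           (CovZ.n1 (23360, -3680) (by decide +kernel)
            (CovZ.leaf K2_ok TF_l15054 _)
            (CovZ.n1 (23440, -3760) (by decide +kernel)
             (CovZ.leaf K2_ok TF_l15055 _)
             (CovZ.leaf K2_ok TF_l15056 _))))))
        (CovZ.n1 (24000, -3520) (by decide +kernel)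
         (CovZ.n2 (24000, -3840) (by decide +kernel)
          (CovZ.n2 (23840, -3680) (by decide +kernel)
           (CovZ.n2 (24000, -3680) (by decide +kernel)
            (CovZ.badM (by decide +kernel))
            (CovZ.n1 (23920, -3600) (by decide +kernel)
             (CovZ.badM (by decide +kernel))
             (CovZ.badM (by decide +kernel))))
           (CovZ.badM (by decide +kernel)))
          (CovZ.badM (by decide +kernel)))
         (CovZ.n1 (23680, -3520) (by decide +kernel)
          (CovZ.n2 (23840, -3360) (by decide +kernel)
           (CovZ.n2 (23840, -3520) (by decide +kernel)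
            (CovZ.n2 (23760, -3440) (by decide +kernel)
             (CovZ.n2 (23840, -3440) (by decide +kernel)
              (CovZ.n2 (23800, -3480) (by decide +kernel)
               (CovZ.n2 (23800, -3440) (by decide +kernel)
                (CovZ.leaf K2_ok TF_l15057 _)
                (CovZ.leaf K2_ok TF_l15058 _))
               (CovZ.n1 (23840, -3480) (by decide +kernel)
                (CovZ.leaf K2_ok TF_l15059 _)
                (CovZ.leaf K2_ok TF_l15060 _)))
              (CovZ.n1 (23800, -3400) (by decide +kernel)
               (CovZ.badM (by decide +kernel))
               (CovZ.leaf K2_ok TF_l15061 _)))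
             (CovZ.n1 (23760, -3520) (by decide +kernel)
              (CovZ.n2 (23720, -3480) (by decide +kernel)
               (CovZ.leaf K2_ok TF_l15062 _)
               (CovZ.leaf K2_ok TF_l15063 _))
              (CovZ.leaf K2_ok TF_l15064 _)))
            (CovZ.badM (by decide +kernel)))
           (CovZ.n1 (23680, -3360) (by decide +kernel)
            (CovZ.n2 (23760, -3280) (by decide +kernel)
             (CovZ.n2 (23760, -3360) (by decide +kernel)
              (CovZ.n2 (23720, -3320) (by decide +kernel)
               (CovZ.leaf K2_ok TF_l15065 _)
               (CovZ.leaf K2_ok TF_l15066 _))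
              (CovZ.leaf K2_ok TF_l15067 _))
             (CovZ.n1 (23680, -3280) (by decide +kernel)
              (CovZ.leaf K2_ok TF_l15068 _)
              (CovZ.n1 (23720, -3320) (by decide +kernel)
               (CovZ.leaf K2_ok TF_l15069 _)
               (CovZ.leaf K2_ok TF_l15070 _))))
            (CovZ.n1 (23760, -3440) (by decide +kernel)
             (CovZ.n2 (23680, -3440) (by decide +kernel)
              (CovZ.leaf K2_ok TF_l15071 _)
              (CovZ.n1 (23720, -3480) (by decide +kernel)
               (CovZ.leaf K2_ok TF_l15072 _)
               (CovZ.leaf K2_ok TF_l15073 _)))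
             (CovZ.n1 (23760, -3360) (by decide +kernel)
              (CovZ.n2 (23800, -3400) (by decide +kernel)
               (CovZ.leaf K2_ok TF_l15074 _)
               (CovZ.n1 (23800, -3360) (by decide +kernel)
                (CovZ.badM (by decide +kernel))
                (CovZ.leaf K2_ok TF_l15075 _)))
              (CovZ.n1 (23720, -3400) (by decide +kernel)
               (CovZ.leaf K2_ok TF_l15076 _)
               (CovZ.leaf K2_ok TF_l15077 _))))))
          (CovZ.n1 (23840, -3680) (by decide +kernel)
           (CovZ.n2 (23680, -3680) (by decide +kernel)
            (CovZ.n2 (23760, -3600) (by decide +kernel)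
             (CovZ.n2 (23760, -3680) (by decide +kernel)
              (CovZ.n2 (23720, -3640) (by decide +kernel)
               (CovZ.n2 (23760, -3640) (by decide +kernel)
                (CovZ.leaf K2_ok TF_l15078 _)
                (CovZ.leaf K2_ok TF_l15079 _))
               (CovZ.leaf K2_ok TF_l15080 _))
              (CovZ.leaf K2_ok TF_l15081 _))
             (CovZ.n1 (23680, -3600) (by decide +kernel)
              (CovZ.leaf K2_ok TF_l15082 _)
              (CovZ.n1 (23720, -3640) (by decide +kernel)
               (CovZ.leaf K2_ok TF_l15083 _)
               (CovZ.leaf K2_ok TF_l15084 _))))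
            (CovZ.n1 (23760, -3760) (by decide +kernel)
             (CovZ.n2 (23680, -3760) (by decide +kernel)
              (CovZ.leaf K2_ok TF_l15085 _)
              (CovZ.badM (by decide +kernel)))
             (CovZ.n1 (23760, -3680) (by decide +kernel)
              (CovZ.n2 (23800, -3720) (by decide +kernel)
               (CovZ.leaf K2_ok TF_l15086 _)
               (CovZ.n1 (23800, -3680) (by decide +kernel)
                (CovZ.badM (by decide +kernel))
                (CovZ.leaf K2_ok TF_l15087 _)))
              (CovZ.n1 (23720, -3720) (by decide +kernel)
               (CovZ.leaf K2_ok TF_l15088 _)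
               (CovZ.n1 (23760, -3720) (by decide +kernel)
                (CovZ.badM (by decide +kernel))
                (CovZ.leaf K2_ok TF_l15089 _))))))
           (CovZ.n1 (23840, -3520) (by decide +kernel)
            (CovZ.n2 (23920, -3600) (by decide +kernel)
             (CovZ.n2 (23840, -3600) (by decide +kernel)
              (CovZ.n2 (23880, -3560) (by decide +kernel)
               (CovZ.n2 (23880, -3600) (by decide +kernel)
                (CovZ.n2 (23860, -3580) (by decide +kernel)
                 (CovZ.n2 (23880, -3580) (by decide +kernel)
                  (CovZ.leaf K2_ok TF_l15090 _)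
                  (CovZ.leaf K2_ok TF_l15091 _))
                 (CovZ.leaf K2_ok TF_l15092 _))
                (CovZ.badM (by decide +kernel)))
               (CovZ.n1 (23840, -3560) (by decide +kernel)
                (CovZ.leaf K2_ok TF_l15093 _)
                (CovZ.n1 (23860, -3580) (by decide +kernel)
                 (CovZ.leaf K2_ok TF_l15094 _)
                 (CovZ.leaf K2_ok TF_l15095 _))))
              (CovZ.n1 (23880, -3640) (by decide +kernel)
               (CovZ.n2 (23840, -3640) (by decide +kernel)
                (CovZ.leaf K2_ok TF_l15096 _)
                (CovZ.badM (by decide +kernel)))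
               (CovZ.n1 (23880, -3600) (by decide +kernel)
                (CovZ.n2 (23900, -3620) (by decide +kernel)
                 (CovZ.n2 (23880, -3620) (by decide +kernel)
                  (CovZ.badM (by decide +kernel))
                  (CovZ.badM (by decide +kernel)))
                 (CovZ.badM (by decide +kernel)))
                (CovZ.n1 (23860, -3620) (by decide +kernel)
                 (CovZ.leaf K2_ok TF_l15097 _)
                 (CovZ.n1 (23880, -3620) (by decide +kernel)
                  (CovZ.leaf K2_ok TF_l15098 _)
                  (CovZ.leaf K2_ok TF_l15099 _))))))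
             (CovZ.badM (by decide +kernel)))
            (CovZ.n1 (23760, -3600) (by decide +kernel)
             (CovZ.n2 (23760, -3520) (by decide +kernel)
              (CovZ.n2 (23800, -3560) (by decide +kernel)
               (CovZ.leaf K2_ok TF_l15100 _)
               (CovZ.n1 (23800, -3520) (by decide +kernel)
                (CovZ.n2 (23820, -3540) (by decide +kernel)
                 (CovZ.leaf K2_ok TF_l15101 _)
                 (CovZ.leaf K2_ok TF_l15102 _))
                (CovZ.leaf K2_ok TF_l15103 _)))
              (CovZ.n1 (23720, -3560) (by decide +kernel)
               (CovZ.leaf K2_ok TF_l15104 _)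
               (CovZ.leaf K2_ok TF_l15105 _)))
             (CovZ.n1 (23840, -3600) (by decide +kernel)
              (CovZ.n2 (23800, -3640) (by decide +kernel)
               (CovZ.n2 (23800, -3600) (by decide +kernel)
                (CovZ.n2 (23820, -3620) (by decide +kernel)
                 (CovZ.leaf K2_ok TF_l15106 _)
                 (CovZ.leaf K2_ok TF_l15107 _))
                (CovZ.leaf K2_ok TF_l15108 _))
               (CovZ.n1 (23840, -3640) (by decide +kernel)
                (CovZ.n2 (23820, -3660) (by decide +kernel)
                 (CovZ.leaf K2_ok TF_l15109 _)
                 (CovZ.badM (by decide +kernel)))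
                (CovZ.n1 (23820, -3620) (by decide +kernel)
                 (CovZ.leaf K2_ok TF_l15110 _)
                 (CovZ.leaf K2_ok TF_l15111 _))))
              (CovZ.n1 (23800, -3560) (by decide +kernel)
               (CovZ.n2 (23840, -3560) (by decide +kernel)
                (CovZ.leaf K2_ok TF_l15112 _)
                (CovZ.n1 (23820, -3540) (by decide +kernel)
                 (CovZ.leaf K2_ok TF_l15113 _)
                 (CovZ.leaf K2_ok TF_l15114 _)))
               (CovZ.leaf K2_ok TF_l15115 _))))))))))

theorem TF_u19 : CovZ TF_M (toL (selN TF_LN 664616534450941245345949730979480096)) [0, 7, 4, 3] (23680, -3200) (23040, -2560) (23040, -3840) :=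
    (CovZ.n1 (23040, -3200) (by decide +kernel)
       (CovZ.n2 (23360, -2880) (by decide +kernel)
        (CovZ.subM 664613999130397975737283805039297056 (by decide +kernel)
         (CovZ.n2 (23360, -3200) (by decide +kernel)
          (CovZ.n2 (23200, -3040) (by decide +kernel)
           (CovZ.n2 (23360, -3040) (by decide +kernel)
            (CovZ.leaf K2_ok TF_l6693 _)
            (CovZ.leaf K2_ok TF_l6694 _))
           (CovZ.leaf K2_ok TF_l6695 _))
          (CovZ.n1 (23520, -3040) (by decide +kernel)
           (CovZ.n2 (23520, -3200) (by decide +kernel)
            (CovZ.n2 (23440, -3120) (by decide +kernel)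
             (CovZ.leaf K2_ok TF_l6696 _)
             (CovZ.leaf K2_ok TF_l6697 _))
            (CovZ.leaf K2_ok TF_l6698 _))
           (CovZ.n1 (23360, -3040) (by decide +kernel)
            (CovZ.leaf K2_ok TF_l6699 _)
            (CovZ.n1 (23440, -3120) (by decide +kernel)
             (CovZ.leaf K2_ok TF_l6700 _)
             (CovZ.leaf K2_ok TF_l6701 _))))))
        (CovZ.n1 (23040, -2880) (by decide +kernel)
         (CovZ.leaf K2_ok TF_l6702 _)
         (CovZ.n1 (23200, -3040) (by decide +kernel)
          (CovZ.leaf K2_ok TF_l6703 _)
          (CovZ.leaf K2_ok TF_l6704 _))))
       (CovZ.subM 664616534431598432196086798445707808 (by decide +kernel)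
        (CovZ.n1 (23360, -3520) (by decide +kernel)
         (CovZ.n2 (23040, -3520) (by decide +kernel)
          (CovZ.leaf K2_ok TF_l6705 _)
          (CovZ.n1 (23200, -3680) (by decide +kernel)
           (CovZ.leaf K2_ok TF_l6706 _)
           (CovZ.n1 (23200, -3520) (by decide +kernel)
            (CovZ.leaf K2_ok TF_l6707 _)
            (CovZ.leaf K2_ok TF_l6708 _))))
         (CovZ.n1 (23360, -3200) (by decide +kernel)
          (CovZ.n2 (23520, -3360) (by decide +kernel)
           (CovZ.n2 (23360, -3360) (by decide +kernel)
            (CovZ.leaf K2_ok TF_l6709 _)
            (CovZ.n1 (23440, -3440) (by decide +kernel)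
             (CovZ.leaf K2_ok TF_l6710 _)
             (CovZ.leaf K2_ok TF_l6711 _)))
           (CovZ.n1 (23520, -3200) (by decide +kernel)
            (CovZ.n2 (23600, -3280) (by decide +kernel)
             (CovZ.leaf K2_ok TF_l6712 _)
             (CovZ.n1 (23600, -3200) (by decide +kernel)
              (CovZ.leaf K2_ok TF_l6713 _)
              (CovZ.leaf K2_ok TF_l6714 _)))
            (CovZ.n1 (23440, -3280) (by decide +kernel)
             (CovZ.leaf K2_ok TF_l6715 _)
             (CovZ.leaf K2_ok TF_l6716 _))))
          (CovZ.n1 (23200, -3360) (by decide +kernel)
           (CovZ.n2 (23200, -3200) (by decide +kernel)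
            (CovZ.leaf K2_ok TF_l6717 _)
            (CovZ.leaf K2_ok TF_l6718 _))
           (CovZ.n1 (23360, -3360) (by decide +kernel)
            (CovZ.leaf K2_ok TF_l6719 _)
            (CovZ.leaf K2_ok TF_l6720 _)))))))

theorem TF_u20 : CovZ TF_M (toL (selN TF_LN 664613997892457936487932327159169024)) [0, 7, 4, 3] (24320, -3840) (24960, -3200) (24320, -2560) :=
    (CovZ.n2 (24320, -3200) (by decide +kernel)
        (CovZ.n2 (24640, -2880) (by decide +kernel)
         (CovZ.n2 (24640, -3200) (by decide +kernel)
          (CovZ.n2 (24480, -3040) (by decide +kernel)
           (CovZ.n2 (24640, -3040) (by decide +kernel)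
            (CovZ.badM (by decide +kernel))
            (CovZ.n1 (24560, -2960) (by decide +kernel)
             (CovZ.n2 (24640, -2960) (by decide +kernel)
              (CovZ.badM (by decide +kernel))
              (CovZ.badM (by decide +kernel)))
             (CovZ.badM (by decide +kernel))))
           (CovZ.badM (by decide +kernel)))
          (CovZ.n1 (24800, -3040) (by decide +kernel)
           (CovZ.badM (by decide +kernel))
           (CovZ.n1 (24640, -3040) (by decide +kernel)
            (CovZ.n2 (24720, -2960) (by decide +kernel)
             (CovZ.badM (by decide +kernel))
             (CovZ.n1 (24640, -2960) (by decide +kernel)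
              (CovZ.badM (by decide +kernel))
              (CovZ.badM (by decide +kernel))))
            (CovZ.badM (by decide +kernel)))))
         (CovZ.n1 (24320, -2880) (by decide +kernel)
          (CovZ.n2 (24480, -2720) (by decide +kernel)
           (CovZ.n2 (24480, -2880) (by decide +kernel)
            (CovZ.n2 (24400, -2800) (by decide +kernel)
             (CovZ.n2 (24480, -2800) (by decide +kernel)
              (CovZ.n2 (24440, -2840) (by decide +kernel)
               (CovZ.n2 (24440, -2800) (by decide +kernel)
                (CovZ.n2 (24460, -2820) (by decide +kernel)
                 (CovZ.leaf K2_ok TF_l15142 _)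
                 (CovZ.leaf K2_ok TF_l15143 _))
                (CovZ.leaf K2_ok TF_l15144 _))
               (CovZ.n1 (24480, -2840) (by decide +kernel)
                (CovZ.badM (by decide +kernel))
                (CovZ.n1 (24460, -2820) (by decide +kernel)
                 (CovZ.leaf K2_ok TF_l15145 _)
                 (CovZ.badM (by decide +kernel)))))
              (CovZ.n1 (24440, -2760) (by decide +kernel)
               (CovZ.n2 (24480, -2760) (by decide +kernel)
                (CovZ.leaf K2_ok TF_l15146 _)
                (CovZ.leaf K2_ok TF_l6723 _))
               (CovZ.leaf K2_ok TF_l15147 _)))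
             (CovZ.n1 (24400, -2880) (by decide +kernel)
              (CovZ.n2 (24360, -2840) (by decide +kernel)
               (CovZ.n2 (24400, -2840) (by decide +kernel)
                (CovZ.n2 (24380, -2860) (by decide +kernel)
                 (CovZ.leaf K2_ok TF_l15148 _)
                 (CovZ.n1 (24400, -2860) (by decide +kernel)
                  (CovZ.badM (by decide +kernel))
                  (CovZ.leaf K2_ok TF_l15149 _)))
                (CovZ.leaf K2_ok TF_l15150 _))
               (CovZ.n1 (24360, -2880) (by decide +kernel)
                (CovZ.n2 (24340, -2860) (by decide +kernel)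
                 (CovZ.n2 (24360, -2860) (by decide +kernel)
                  (CovZ.leaf K2_ok TF_l15151 _)
                  (CovZ.leaf K2_ok TF_l15152 _))
                 (CovZ.leaf K2_ok TF_l15153 _))
                (CovZ.leaf K2_ok TF_l15154 _)))
              (CovZ.n1 (24440, -2840) (by decide +kernel)
               (CovZ.badM (by decide +kernel))
               (CovZ.n1 (24400, -2840) (by decide +kernel)
                (CovZ.leaf K2_ok TF_l15155 _)
                (CovZ.n1 (24420, -2860) (by decide +kernel)
                 (CovZ.leaf K2_ok TF_l15156 _)
                 (CovZ.leaf K2_ok TF_l15157 _))))))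
            (CovZ.n1 (24560, -2800) (by decide +kernel)
             (CovZ.badM (by decide +kernel))
             (CovZ.n1 (24480, -2800) (by decide +kernel)
              (CovZ.leaf K2_ok TF_l6724 _)
              (CovZ.n1 (24520, -2840) (by decide +kernel)
               (CovZ.n2 (24480, -2840) (by decide +kernel)
                (CovZ.leaf K2_ok TF_l15158 _)
                (CovZ.badM (by decide +kernel)))
               (CovZ.n1 (24520, -2800) (by decide +kernel)
                (CovZ.badM (by decide +kernel))
                (CovZ.n1 (24500, -2820) (by decide +kernel)
                 (CovZ.leaf K2_ok TF_l15159 _)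
                 (CovZ.badM (by decide +kernel))))))))
           (CovZ.n1 (24320, -2720) (by decide +kernel)
            (CovZ.leaf K2_ok TF_l6725 _)
            (CovZ.n1 (24400, -2800) (by decide +kernel)
             (CovZ.n2 (24320, -2800) (by decide +kernel)
              (CovZ.leaf K2_ok TF_l6726 _)
              (CovZ.n1 (24360, -2840) (by decide +kernel)
               (CovZ.n2 (24320, -2840) (by decide +kernel)
                (CovZ.leaf K2_ok TF_l6727 _)
                (CovZ.n1 (24340, -2860) (by decide +kernel)
                 (CovZ.leaf K2_ok TF_l15160 _)
                 (CovZ.leaf K2_ok TF_l15161 _)))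
               (CovZ.n1 (24360, -2800) (by decide +kernel)
                (CovZ.leaf K2_ok TF_l15162 _)
                (CovZ.leaf K2_ok TF_l6728 _))))
             (CovZ.n1 (24400, -2720) (by decide +kernel)
              (CovZ.n2 (24440, -2760) (by decide +kernel)
               (CovZ.leaf K2_ok TF_l6729 _)
               (CovZ.leaf K2_ok TF_l6730 _))
              (CovZ.n1 (24360, -2760) (by decide +kernel)
               (CovZ.leaf K2_ok TF_l6731 _)
               (CovZ.leaf K2_ok TF_l6732 _))))))
          (CovZ.n1 (24480, -3040) (by decide +kernel)
           (CovZ.n2 (24320, -3040) (by decide +kernel)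
            (CovZ.n2 (24400, -2960) (by decide +kernel)
             (CovZ.badM (by decide +kernel))
             (CovZ.n1 (24320, -2960) (by decide +kernel)
              (CovZ.n2 (24360, -2920) (by decide +kernel)
               (CovZ.badM (by decide +kernel))
               (CovZ.n1 (24320, -2920) (by decide +kernel)
                (CovZ.leaf K2_ok TF_l15163 _)
                (CovZ.badM (by decide +kernel))))
              (CovZ.badM (by decide +kernel))))
            (CovZ.badM (by decide +kernel)))
           (CovZ.n1 (24480, -2880) (by decide +kernel)
            (CovZ.n2 (24560, -2960) (by decide +kernel)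
             (CovZ.n2 (24480, -2960) (by decide +kernel)
              (CovZ.n2 (24520, -2920) (by decide +kernel)
               (CovZ.n2 (24520, -2960) (by decide +kernel)
                (CovZ.n2 (24500, -2940) (by decide +kernel)
                 (CovZ.badM (by decide +kernel))
                 (CovZ.badM (by decide +kernel)))
                (CovZ.badM (by decide +kernel)))
               (CovZ.n1 (24480, -2920) (by decide +kernel)
                (CovZ.badM (by decide +kernel))
                (CovZ.n1 (24500, -2940) (by decide +kernel)
                 (CovZ.badM (by decide +kernel))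
                 (CovZ.badM (by decide +kernel)))))
              (CovZ.badM (by decide +kernel)))
             (CovZ.badM (by decide +kernel)))
            (CovZ.n1 (24400, -2960) (by decide +kernel)
             (CovZ.n2 (24400, -2880) (by decide +kernel)
              (CovZ.n2 (24440, -2920) (by decide +kernel)
               (CovZ.n2 (24400, -2920) (by decide +kernel)
                (CovZ.badM (by decide +kernel))
                (CovZ.badM (by decide +kernel)))
               (CovZ.badM (by decide +kernel)))
              (CovZ.n1 (24360, -2920) (by decide +kernel)
               (CovZ.n2 (24360, -2880) (by decide +kernel)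
                (CovZ.n2 (24380, -2900) (by decide +kernel)
                 (CovZ.n2 (24360, -2900) (by decide +kernel)
                  (CovZ.badM (by decide +kernel))
                  (CovZ.n1 (24370, -2910) (by decide +kernel)
                   (CovZ.n2 (24360, -2910) (by decide +kernel)
                    (CovZ.badM (by decide +kernel))
                    (CovZ.badM (by decide +kernel)))
                   (CovZ.badM (by decide +kernel))))
                 (CovZ.badM (by decide +kernel)))
                (CovZ.n1 (24340, -2900) (by decide +kernel)
                 (CovZ.n2 (24340, -2880) (by decide +kernel)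
                  (CovZ.badM (by decide +kernel))
                  (CovZ.leaf K2_ok TF_l15164 _))
                 (CovZ.n1 (24360, -2900) (by decide +kernel)
                  (CovZ.n2 (24350, -2910) (by decide +kernel)
                   (CovZ.badM (by decide +kernel))
                   (CovZ.n1 (24360, -2910) (by decide +kernel)
                    (CovZ.badM (by decide +kernel))
                    (CovZ.badM (by decide +kernel))))
                  (CovZ.badM (by decide +kernel)))))
               (CovZ.n1 (24400, -2920) (by decide +kernel)
                (CovZ.badM (by decide +kernel))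
                (CovZ.n1 (24380, -2900) (by decide +kernel)
                 (CovZ.badM (by decide +kernel))
                 (CovZ.n1 (24380, -2920) (by decide +kernel)
                  (CovZ.n2 (24370, -2910) (by decide +kernel)
                   (CovZ.badM (by decide +kernel))
                   (CovZ.badM (by decide +kernel)))
                  (CovZ.badM (by decide +kernel)))))))
             (CovZ.n1 (24480, -2960) (by decide +kernel)
              (CovZ.badM (by decide +kernel))
              (CovZ.n1 (24440, -2920) (by decide +kernel)
               (CovZ.n2 (24480, -2920) (by decide +kernel)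
                (CovZ.badM (by decide +kernel))
                (CovZ.badM (by decide +kernel)))
               (CovZ.badM (by decide +kernel)))))))))
        (CovZ.badM (by decide +kernel)))

theorem TF_u21 : CovZ TF_M (toL (selN TF_LN 664613997892457936487932327159169024)) [0, 7, 4, 3] (24960, -3200) (25600, -2560) (24320, -2560) :=
    (CovZ.n1 (24960, -2560) (by decide +kernel)
        (CovZ.n2 (25280, -2880) (by decide +kernel)
         (CovZ.n2 (24960, -2880) (by decide +kernel)
          (CovZ.n2 (25120, -2720) (by decide +kernel)
           (CovZ.badM (by decide +kernel))
           (CovZ.n1 (24960, -2720) (by decide +kernel)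
            (CovZ.n2 (25040, -2640) (by decide +kernel)
             (CovZ.badM (by decide +kernel))
             (CovZ.n1 (24960, -2640) (by decide +kernel)
              (CovZ.badM (by decide +kernel))
              (CovZ.badM (by decide +kernel))))
            (CovZ.badM (by decide +kernel))))
          (CovZ.n1 (25120, -3040) (by decide +kernel)
           (CovZ.n2 (24960, -3040) (by decide +kernel)
            (CovZ.badM (by decide +kernel))
            (CovZ.badM (by decide +kernel)))
           (CovZ.badM (by decide +kernel))))
         (CovZ.badM (by decide +kernel)))
        (CovZ.n1 (24640, -2880) (by decide +kernel)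
         (CovZ.n2 (24640, -2560) (by decide +kernel)
          (CovZ.n2 (24800, -2720) (by decide +kernel)
           (CovZ.n2 (24640, -2720) (by decide +kernel)
            (CovZ.n2 (24720, -2640) (by decide +kernel)
             (CovZ.n2 (24720, -2720) (by decide +kernel)
              (CovZ.n2 (24680, -2680) (by decide +kernel)
               (CovZ.leaf K2_ok TF_l6735 _)
               (CovZ.leaf K2_ok TF_l6736 _))
              (CovZ.leaf K2_ok TF_l6737 _))
             (CovZ.n1 (24640, -2640) (by decide +kernel)
              (CovZ.leaf K2_ok TF_l6738 _)
              (CovZ.n1 (24680, -2680) (by decide +kernel)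
               (CovZ.leaf K2_ok TF_l6739 _)
               (CovZ.leaf K2_ok TF_l6740 _))))
            (CovZ.badM (by decide +kernel)))
           (CovZ.n1 (24800, -2560) (by decide +kernel)
            (CovZ.n2 (24880, -2640) (by decide +kernel)
             (CovZ.n2 (24800, -2640) (by decide +kernel)
              (CovZ.leaf K2_ok TF_l6744 _)
              (CovZ.badM (by decide +kernel)))
             (CovZ.n1 (24880, -2560) (by decide +kernel)
              (CovZ.n2 (24920, -2600) (by decide +kernel)
               (CovZ.leaf K2_ok TF_l15165 _)
               (CovZ.leaf K2_ok TF_l15166 _))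
              (CovZ.leaf K2_ok TF_l6745 _)))
            (CovZ.n1 (24720, -2640) (by decide +kernel)
             (CovZ.n2 (24720, -2560) (by decide +kernel)
              (CovZ.leaf K2_ok TF_l6746 _)
              (CovZ.leaf K2_ok TF_l6747 _))
             (CovZ.n1 (24800, -2640) (by decide +kernel)
              (CovZ.n2 (24760, -2680) (by decide +kernel)
               (CovZ.leaf K2_ok TF_l6748 _)
               (CovZ.badM (by decide +kernel)))
              (CovZ.leaf K2_ok TF_l6749 _)))))
          (CovZ.n1 (24480, -2720) (by decide +kernel)
           (CovZ.n2 (24480, -2560) (by decide +kernel)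
            (CovZ.n2 (24560, -2640) (by decide +kernel)
             (CovZ.n2 (24480, -2640) (by decide +kernel)
              (CovZ.leaf K2_ok TF_l6750 _)
              (CovZ.leaf K2_ok TF_l6751 _))
             (CovZ.leaf K2_ok TF_l6752 _))
            (CovZ.n1 (24400, -2640) (by decide +kernel)
             (CovZ.leaf K2_ok TF_l6753 _)
             (CovZ.n1 (24480, -2640) (by decide +kernel)
              (CovZ.leaf K2_ok TF_l6754 _)
              (CovZ.leaf K2_ok TF_l6755 _))))
           (CovZ.n1 (24640, -2720) (by decide +kernel)
            (CovZ.n2 (24560, -2800) (by decide +kernel)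
             (CovZ.n2 (24560, -2720) (by decide +kernel)
              (CovZ.n2 (24600, -2760) (by decide +kernel)
               (CovZ.n2 (24560, -2760) (by decide +kernel)
                (CovZ.leaf K2_ok TF_l6756 _)
                (CovZ.badM (by decide +kernel)))
               (CovZ.leaf K2_ok TF_l6757 _))
              (CovZ.n1 (24520, -2760) (by decide +kernel)
               (CovZ.leaf K2_ok TF_l6758 _)
               (CovZ.n1 (24560, -2760) (by decide +kernel)
                (CovZ.leaf K2_ok TF_l15167 _)
                (CovZ.leaf K2_ok TF_l6759 _))))
             (CovZ.badM (by decide +kernel)))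
            (CovZ.n1 (24560, -2640) (by decide +kernel)
             (CovZ.n2 (24640, -2640) (by decide +kernel)
              (CovZ.leaf K2_ok TF_l6761 _)
              (CovZ.leaf K2_ok TF_l6762 _))
             (CovZ.n1 (24560, -2720) (by decide +kernel)
              (CovZ.leaf K2_ok TF_l6763 _)
              (CovZ.leaf K2_ok TF_l6764 _))))))
         (CovZ.n1 (24960, -2880) (by decide +kernel)
          (CovZ.n2 (24800, -3040) (by decide +kernel)
           (CovZ.badM (by decide +kernel))
           (CovZ.n1 (24960, -3040) (by decide +kernel)
            (CovZ.badM (by decide +kernel))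
            (CovZ.badM (by decide +kernel))))
          (CovZ.n1 (24800, -2720) (by decide +kernel)
           (CovZ.n2 (24960, -2720) (by decide +kernel)
            (CovZ.badM (by decide +kernel))
            (CovZ.n1 (24880, -2640) (by decide +kernel)
             (CovZ.n2 (24960, -2640) (by decide +kernel)
              (CovZ.badM (by decide +kernel))
              (CovZ.n1 (24920, -2600) (by decide +kernel)
               (CovZ.badM (by decide +kernel))
               (CovZ.badM (by decide +kernel))))
             (CovZ.badM (by decide +kernel))))
           (CovZ.badM (by decide +kernel))))))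

theorem TF_u22 : CovZ TF_M (toL (selN TF_LN 664616534450941245345949730979480096)) [0, 7, 4, 3] (23040, -2560) (23680, -3200) (24320, -2560) :=
    (CovZ.n2 (23680, -2560) (by decide +kernel)
       (CovZ.subM 664613999130397975737283805039329824 (by decide +kernel)
        (CovZ.n2 (24000, -2880) (by decide +kernel)
         (CovZ.n2 (23680, -2880) (by decide +kernel)
          (CovZ.n2 (23840, -2720) (by decide +kernel)
           (CovZ.n2 (23840, -2880) (by decide +kernel)
            (CovZ.leaf K2_ok TF_l6765 _)
            (CovZ.leaf K2_ok TF_l6766 _))
           (CovZ.leaf K2_ok TF_l6767 _))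
          (CovZ.n1 (23840, -3040) (by decide +kernel)
           (CovZ.n2 (23680, -3040) (by decide +kernel)
            (CovZ.leaf K2_ok TF_l6768 _)
            (CovZ.n1 (23760, -3120) (by decide +kernel)
             (CovZ.leaf K2_ok TF_l6769 _)
             (CovZ.n1 (23760, -3040) (by decide +kernel)
              (CovZ.leaf K2_ok TF_l6770 _)
              (CovZ.leaf K2_ok TF_l6771 _))))
           (CovZ.n1 (23840, -2880) (by decide +kernel)
            (CovZ.n2 (23920, -2960) (by decide +kernel)
             (CovZ.leaf K2_ok TF_l6772 _)
             (CovZ.leaf K2_ok TF_l6773 _))
            (CovZ.n1 (23760, -2960) (by decide +kernel)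
             (CovZ.leaf K2_ok TF_l6774 _)
             (CovZ.leaf K2_ok TF_l6775 _)))))
         (CovZ.n1 (24000, -2560) (by decide +kernel)
          (CovZ.n2 (24160, -2720) (by decide +kernel)
           (CovZ.n2 (24000, -2720) (by decide +kernel)
            (CovZ.leaf K2_ok TF_l6776 _)
            (CovZ.n1 (24080, -2800) (by decide +kernel)
             (CovZ.leaf K2_ok TF_l6777 _)
             (CovZ.leaf K2_ok TF_l6778 _)))
           (CovZ.n1 (24160, -2560) (by decide +kernel)
            (CovZ.n2 (24240, -2640) (by decide +kernel)
             (CovZ.leaf K2_ok TF_l6779 _)
             (CovZ.leaf K2_ok TF_l6780 _))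
            (CovZ.leaf K2_ok TF_l6781 _)))
          (CovZ.n1 (23840, -2720) (by decide +kernel)
           (CovZ.n2 (23840, -2560) (by decide +kernel)
            (CovZ.leaf K2_ok TF_l6782 _)
            (CovZ.leaf K2_ok TF_l6783 _))
           (CovZ.n1 (24000, -2720) (by decide +kernel)
            (CovZ.n2 (23920, -2800) (by decide +kernel)
             (CovZ.leaf K2_ok TF_l6784 _)
             (CovZ.leaf K2_ok TF_l6785 _))
            (CovZ.leaf K2_ok TF_l6786 _))))))
       (CovZ.n1 (23360, -2880) (by decide +kernel)
        (CovZ.n2 (23360, -2560) (by decide +kernel)
         (CovZ.n2 (23520, -2720) (by decide +kernel)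
          (CovZ.leaf K2_ok TF_l6787 _)
          (CovZ.leaf K2_ok TF_l6788 _))
         (CovZ.leaf K2_ok TF_l6789 _))
        (CovZ.subM 664613999130397975737283805039329824 (by decide +kernel)
         (CovZ.n1 (23680, -2880) (by decide +kernel)
          (CovZ.n2 (23520, -3040) (by decide +kernel)
           (CovZ.n2 (23520, -2880) (by decide +kernel)
            (CovZ.n2 (23600, -2960) (by decide +kernel)
             (CovZ.leaf K2_ok TF_l6790 _)
             (CovZ.leaf K2_ok TF_l6791 _))
            (CovZ.leaf K2_ok TF_l6792 _))
           (CovZ.n1 (23680, -3040) (by decide +kernel)
            (CovZ.n2 (23600, -3120) (by decide +kernel)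
             (CovZ.leaf K2_ok TF_l6793 _)
             (CovZ.n1 (23680, -3120) (by decide +kernel)
              (CovZ.leaf K2_ok TF_l6794 _)
              (CovZ.leaf K2_ok TF_l6795 _)))
            (CovZ.n1 (23600, -2960) (by decide +kernel)
             (CovZ.leaf K2_ok TF_l6796 _)
             (CovZ.leaf K2_ok TF_l6797 _))))
          (CovZ.n1 (23520, -2720) (by decide +kernel)
           (CovZ.n2 (23680, -2720) (by decide +kernel)
            (CovZ.leaf K2_ok TF_l6798 _)
            (CovZ.leaf K2_ok TF_l6799 _))
           (CovZ.leaf K2_ok TF_l6800 _))))))

theorem TF_u23 : CovZ TF_M (toL (selN TF_LN 664616534450941245345949730979480096)) [0, 7, 4, 3] (23680, -3200) (24320, -3840) (24320, -2560) :=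
    (CovZ.subM 664613999130397975737283805039329824 (by decide +kernel)
       (CovZ.n1 (24320, -3200) (by decide +kernel)
        (CovZ.n2 (24000, -3520) (by decide +kernel)
         (CovZ.n2 (24000, -3200) (by decide +kernel)
          (CovZ.badM (by decide +kernel))
          (CovZ.n1 (23840, -3360) (by decide +kernel)
           (CovZ.n2 (23840, -3200) (by decide +kernel)
            (CovZ.badM (by decide +kernel))
            (CovZ.n1 (23760, -3280) (by decide +kernel)
             (CovZ.n2 (23760, -3200) (by decide +kernel)
              (CovZ.n2 (23800, -3240) (by decide +kernel)
               (CovZ.leaf K2_ok TF_l15168 _)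
               (CovZ.leaf K2_ok TF_l15169 _))
              (CovZ.leaf K2_ok TF_l15170 _))
             (CovZ.n1 (23840, -3280) (by decide +kernel)
              (CovZ.n2 (23800, -3320) (by decide +kernel)
               (CovZ.leaf K2_ok TF_l15171 _)
               (CovZ.badM (by decide +kernel)))
              (CovZ.n1 (23800, -3240) (by decide +kernel)
               (CovZ.n2 (23840, -3240) (by decide +kernel)
                (CovZ.leaf K2_ok TF_l15172 _)
                (CovZ.leaf K2_ok TF_l15173 _))
               (CovZ.leaf K2_ok TF_l15174 _)))))
           (CovZ.badM (by decide +kernel))))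
         (CovZ.badM (by decide +kernel)))
        (CovZ.n1 (24000, -2880) (by decide +kernel)
         (CovZ.n2 (24320, -2880) (by decide +kernel)
          (CovZ.n2 (24160, -3040) (by decide +kernel)
           (CovZ.n2 (24160, -2880) (by decide +kernel)
            (CovZ.n2 (24240, -2960) (by decide +kernel)
             (CovZ.n2 (24160, -2960) (by decide +kernel)
              (CovZ.leaf K2_ok TF_l6801 _)
              (CovZ.n1 (24200, -3000) (by decide +kernel)
               (CovZ.n2 (24160, -3000) (by decide +kernel)
                (CovZ.leaf K2_ok TF_l15175 _)
                (CovZ.badM (by decide +kernel)))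
               (CovZ.n1 (24200, -2960) (by decide +kernel)
                (CovZ.badM (by decide +kernel))
                (CovZ.leaf K2_ok TF_l15176 _))))
             (CovZ.n1 (24240, -2880) (by decide +kernel)
              (CovZ.n2 (24280, -2920) (by decide +kernel)
               (CovZ.n2 (24240, -2920) (by decide +kernel)
                (CovZ.leaf K2_ok TF_l15177 _)
                (CovZ.n1 (24260, -2940) (by decide +kernel)
                 (CovZ.leaf K2_ok TF_l15178 _)
                 (CovZ.leaf K2_ok TF_l15179 _)))
               (CovZ.n1 (24280, -2880) (by decide +kernel)
                (CovZ.n2 (24300, -2900) (by decide +kernel)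
                 (CovZ.leaf K2_ok TF_l15180 _)
                 (CovZ.leaf K2_ok TF_l15181 _))
                (CovZ.leaf K2_ok TF_l15182 _)))
              (CovZ.n1 (24200, -2920) (by decide +kernel)
               (CovZ.leaf K2_ok TF_l6802 _)
               (CovZ.n1 (24240, -2920) (by decide +kernel)
                (CovZ.leaf K2_ok TF_l15183 _)
                (CovZ.leaf K2_ok TF_l15184 _)))))
            (CovZ.n1 (24080, -2960) (by decide +kernel)
             (CovZ.n2 (24080, -2880) (by decide +kernel)
              (CovZ.n2 (24120, -2920) (by decide +kernel)
               (CovZ.leaf K2_ok TF_l6803 _)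
               (CovZ.leaf K2_ok TF_l6804 _))
              (CovZ.leaf K2_ok TF_l6805 _))
             (CovZ.n1 (24160, -2960) (by decide +kernel)
              (CovZ.n2 (24120, -3000) (by decide +kernel)
               (CovZ.leaf K2_ok TF_l15185 _)
               (CovZ.n1 (24160, -3000) (by decide +kernel)
                (CovZ.badM (by decide +kernel))
                (CovZ.leaf K2_ok TF_l15186 _)))
              (CovZ.n1 (24120, -2920) (by decide +kernel)
               (CovZ.leaf K2_ok TF_l6806 _)
               (CovZ.leaf K2_ok TF_l6807 _)))))
           (CovZ.n1 (24320, -3040) (by decide +kernel)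
            (CovZ.badM (by decide +kernel))
            (CovZ.n1 (24240, -2960) (by decide +kernel)
             (CovZ.n2 (24320, -2960) (by decide +kernel)
              (CovZ.badM (by decide +kernel))
              (CovZ.n1 (24280, -2920) (by decide +kernel)
               (CovZ.n2 (24320, -2920) (by decide +kernel)
                (CovZ.badM (by decide +kernel))
                (CovZ.n1 (24300, -2900) (by decide +kernel)
                 (CovZ.leaf K2_ok TF_l15187 _)
                 (CovZ.badM (by decide +kernel))))
               (CovZ.badM (by decide +kernel))))
             (CovZ.badM (by decide +kernel)))))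
          (CovZ.n1 (24160, -2720) (by decide +kernel)
           (CovZ.n2 (24320, -2720) (by decide +kernel)
            (CovZ.n2 (24240, -2800) (by decide +kernel)
             (CovZ.n2 (24240, -2720) (by decide +kernel)
              (CovZ.n2 (24280, -2760) (by decide +kernel)
               (CovZ.leaf K2_ok TF_l6808 _)
               (CovZ.leaf K2_ok TF_l6809 _))
              (CovZ.leaf K2_ok TF_l6810 _))
             (CovZ.n1 (24320, -2800) (by decide +kernel)
              (CovZ.n2 (24280, -2840) (by decide +kernel)
               (CovZ.leaf K2_ok TF_l6811 _)
               (CovZ.n1 (24320, -2840) (by decide +kernel)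
                (CovZ.leaf K2_ok TF_l15188 _)
                (CovZ.leaf K2_ok TF_l6812 _)))
              (CovZ.n1 (24280, -2760) (by decide +kernel)
               (CovZ.leaf K2_ok TF_l6813 _)
               (CovZ.leaf K2_ok TF_l6814 _))))
            (CovZ.n1 (24240, -2640) (by decide +kernel)
             (CovZ.leaf K2_ok TF_l6815 _)
             (CovZ.leaf K2_ok TF_l6816 _)))
           (CovZ.n1 (24160, -2880) (by decide +kernel)
            (CovZ.n2 (24080, -2800) (by decide +kernel)
             (CovZ.n2 (24160, -2800) (by decide +kernel)
              (CovZ.leaf K2_ok TF_l6817 _)
              (CovZ.leaf K2_ok TF_l6818 _))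
             (CovZ.leaf K2_ok TF_l6819 _))
            (CovZ.n1 (24240, -2800) (by decide +kernel)
             (CovZ.n2 (24240, -2880) (by decide +kernel)
              (CovZ.n2 (24200, -2840) (by decide +kernel)
               (CovZ.leaf K2_ok TF_l6820 _)
               (CovZ.leaf K2_ok TF_l6821 _))
              (CovZ.leaf K2_ok TF_l6822 _))
             (CovZ.n1 (24160, -2800) (by decide +kernel)
              (CovZ.leaf K2_ok TF_l6823 _)
              (CovZ.n1 (24200, -2840) (by decide +kernel)
               (CovZ.leaf K2_ok TF_l6824 _)
               (CovZ.leaf K2_ok TF_l6825 _)))))))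
         (CovZ.n1 (24000, -3200) (by decide +kernel)
          (CovZ.n2 (23840, -3040) (by decide +kernel)
           (CovZ.n2 (24000, -3040) (by decide +kernel)
            (CovZ.n2 (23920, -3120) (by decide +kernel)
             (CovZ.n2 (23920, -3040) (by decide +kernel)
              (CovZ.n2 (23960, -3080) (by decide +kernel)
               (CovZ.leaf K2_ok TF_l6826 _)
               (CovZ.leaf K2_ok TF_l6827 _))
              (CovZ.leaf K2_ok TF_l6828 _))
             (CovZ.n1 (24000, -3120) (by decide +kernel)
              (CovZ.badM (by decide +kernel))
              (CovZ.n1 (23960, -3080) (by decide +kernel)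
               (CovZ.n2 (24000, -3080) (by decide +kernel)
                (CovZ.badM (by decide +kernel))
                (CovZ.leaf K2_ok TF_l15189 _))
               (CovZ.badM (by decide +kernel)))))
            (CovZ.n1 (23920, -2960) (by decide +kernel)
             (CovZ.n2 (24000, -2960) (by decide +kernel)
              (CovZ.leaf K2_ok TF_l6829 _)
              (CovZ.leaf K2_ok TF_l6830 _))
             (CovZ.leaf K2_ok TF_l6831 _)))
           (CovZ.n1 (23840, -3200) (by decide +kernel)
            (CovZ.n2 (23760, -3120) (by decide +kernel)
             (CovZ.n2 (23840, -3120) (by decide +kernel)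
              (CovZ.n2 (23800, -3160) (by decide +kernel)
               (CovZ.leaf K2_ok TF_l6832 _)
               (CovZ.leaf K2_ok TF_l15190 _))
              (CovZ.leaf K2_ok TF_l6833 _))
             (CovZ.n1 (23760, -3200) (by decide +kernel)
              (CovZ.leaf K2_ok TF_l6834 _)
              (CovZ.leaf K2_ok TF_l6835 _)))
            (CovZ.n1 (23920, -3120) (by decide +kernel)
             (CovZ.badM (by decide +kernel))
             (CovZ.n1 (23840, -3120) (by decide +kernel)
              (CovZ.leaf K2_ok TF_l6836 _)
              (CovZ.n1 (23880, -3160) (by decide +kernel)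
               (CovZ.leaf K2_ok TF_l15191 _)
               (CovZ.leaf K2_ok TF_l15192 _))))))
          (CovZ.n1 (24160, -3040) (by decide +kernel)
           (CovZ.badM (by decide +kernel))
           (CovZ.n1 (24000, -3040) (by decide +kernel)
            (CovZ.n2 (24080, -2960) (by decide +kernel)
             (CovZ.n2 (24080, -3040) (by decide +kernel)
              (CovZ.n2 (24040, -3000) (by decide +kernel)
               (CovZ.leaf K2_ok TF_l15193 _)
               (CovZ.leaf K2_ok TF_l15194 _))
              (CovZ.leaf K2_ok TF_l15195 _))
             (CovZ.n1 (24000, -2960) (by decide +kernel)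
              (CovZ.leaf K2_ok TF_l6837 _)
              (CovZ.n1 (24040, -3000) (by decide +kernel)
               (CovZ.leaf K2_ok TF_l6838 _)
               (CovZ.leaf K2_ok TF_l6839 _))))
            (CovZ.n1 (24080, -3120) (by decide +kernel)
             (CovZ.n2 (24000, -3120) (by decide +kernel)
              (CovZ.n2 (24040, -3080) (by decide +kernel)
               (CovZ.badM (by decide +kernel))
               (CovZ.leaf K2_ok TF_l15196 _))
              (CovZ.badM (by decide +kernel)))
             (CovZ.n1 (24080, -3040) (by decide +kernel)
              (CovZ.badM (by decide +kernel))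
              (CovZ.n1 (24040, -3080) (by decide +kernel)
               (CovZ.n2 (24040, -3040) (by decide +kernel)
                (CovZ.badM (by decide +kernel))
                (CovZ.leaf K2_ok TF_l15197 _))
               (CovZ.badM (by decide +kernel)))))))))))

theorem TF_u24 : CovZ TF_M (toL (selN TF_LN 166153499522246155203075773114355844)) [0, 7, 4, 3] (0, -1280) (0, -640) (-640, -640) :=
    (CovZ.subM 147718067777752268928 (by decide +kernel)
        (CovZ.n2 (-320, -960) (by decide +kernel)
         (CovZ.n2 (-320, -640) (by decide +kernel)
          (CovZ.n2 (-160, -800) (by decide +kernel)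
           (CovZ.n2 (-320, -800) (by decide +kernel)
            (CovZ.n2 (-240, -720) (by decide +kernel)
             (CovZ.badM (by decide +kernel))
             (CovZ.n1 (-320, -720) (by decide +kernel)
              (CovZ.n2 (-280, -680) (by decide +kernel)
               (CovZ.n2 (-280, -720) (by decide +kernel)
                (CovZ.n2 (-300, -700) (by decide +kernel)
                 (CovZ.n2 (-280, -700) (by decide +kernel)
                  (CovZ.badM (by decide +kernel))
                  (CovZ.badM (by decide +kernel)))
                 (CovZ.badM (by decide +kernel)))
                (CovZ.n1 (-260, -700) (by decide +kernel)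
                 (CovZ.badM (by decide +kernel))
                 (CovZ.n1 (-280, -700) (by decide +kernel)
                  (CovZ.leaf K2_ok TF_l9914 _)
                  (CovZ.badM (by decide +kernel)))))
               (CovZ.badM (by decide +kernel)))
              (CovZ.badM (by decide +kernel))))
            (CovZ.badM (by decide +kernel)))
           (CovZ.n1 (-160, -640) (by decide +kernel)
            (CovZ.n2 (-80, -720) (by decide +kernel)
             (CovZ.n2 (-160, -720) (by decide +kernel)
              (CovZ.n2 (-120, -680) (by decide +kernel)
               (CovZ.badM (by decide +kernel))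
               (CovZ.n1 (-160, -680) (by decide +kernel)
                (CovZ.leaf K2_ok TF_l9915 _)
                (CovZ.badM (by decide +kernel))))
              (CovZ.badM (by decide +kernel)))
             (CovZ.n1 (-80, -640) (by decide +kernel)
              (CovZ.badM (by decide +kernel))
              (CovZ.n1 (-120, -680) (by decide +kernel)
               (CovZ.n2 (-120, -640) (by decide +kernel)
                (CovZ.leaf K2_ok TF_l9916 _)
                (CovZ.leaf K2_ok TF_l9917 _))
               (CovZ.badM (by decide +kernel)))))
            (CovZ.n1 (-240, -720) (by decide +kernel)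
             (CovZ.n2 (-240, -640) (by decide +kernel)
              (CovZ.n2 (-200, -680) (by decide +kernel)
               (CovZ.n2 (-240, -680) (by decide +kernel)
                (CovZ.n2 (-220, -660) (by decide +kernel)
                 (CovZ.n2 (-220, -680) (by decide +kernel)
                  (CovZ.leaf K2_ok TF_l9918 _)
                  (CovZ.leaf K2_ok TF_l9919 _))
                 (CovZ.leaf K2_ok TF_l9920 _))
                (CovZ.badM (by decide +kernel)))
               (CovZ.n1 (-200, -640) (by decide +kernel)
                (CovZ.n2 (-180, -660) (by decide +kernel)
                 (CovZ.leaf K2_ok TF_l9921 _)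
                 (CovZ.leaf K2_ok TF_l9922 _))
                (CovZ.n1 (-220, -660) (by decide +kernel)
                 (CovZ.leaf K2_ok TF_l9923 _)
                 (CovZ.leaf K2_ok TF_l9924 _))))
              (CovZ.n1 (-280, -680) (by decide +kernel)
               (CovZ.n2 (-280, -640) (by decide +kernel)
                (CovZ.n2 (-260, -660) (by decide +kernel)
                 (CovZ.leaf K2_ok TF_l9925 _)
                 (CovZ.leaf K2_ok TF_l9926 _))
                (CovZ.n1 (-300, -660) (by decide +kernel)
                 (CovZ.leaf K2_ok TF_l9927 _)
                 (CovZ.leaf K2_ok TF_l9928 _)))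
               (CovZ.n1 (-240, -680) (by decide +kernel)
                (CovZ.n2 (-260, -700) (by decide +kernel)
                 (CovZ.n2 (-260, -680) (by decide +kernel)
                  (CovZ.badM (by decide +kernel))
                  (CovZ.leaf K2_ok TF_l9929 _))
                 (CovZ.badM (by decide +kernel)))
                (CovZ.n1 (-260, -660) (by decide +kernel)
                 (CovZ.leaf K2_ok TF_l9930 _)
                 (CovZ.n1 (-260, -680) (by decide +kernel)
                  (CovZ.leaf K2_ok TF_l9931 _)
                  (CovZ.leaf K2_ok TF_l9932 _))))))
             (CovZ.n1 (-160, -720) (by decide +kernel)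
              (CovZ.badM (by decide +kernel))
              (CovZ.n1 (-200, -680) (by decide +kernel)
               (CovZ.n2 (-160, -680) (by decide +kernel)
                (CovZ.badM (by decide +kernel))
                (CovZ.n1 (-180, -660) (by decide +kernel)
                 (CovZ.leaf K2_ok TF_l9933 _)
                 (CovZ.badM (by decide +kernel))))
               (CovZ.badM (by decide +kernel)))))))
          (CovZ.n1 (-480, -800) (by decide +kernel)
           (CovZ.badM (by decide +kernel))
           (CovZ.n1 (-320, -800) (by decide +kernel)
            (CovZ.badM (by decide +kernel))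
            (CovZ.n1 (-400, -720) (by decide +kernel)
             (CovZ.n2 (-320, -720) (by decide +kernel)
              (CovZ.badM (by decide +kernel))
              (CovZ.badM (by decide +kernel)))
             (CovZ.badM (by decide +kernel))))))
         (CovZ.badM (by decide +kernel))))

theorem TF_u25 : CovZ TF_M (toL (selN TF_LN 166153499522246155203075773114355844)) [0, 7, 4, 3] (0, -640) (0, 0) (-640, -640) :=
    (CovZ.n1 (-320, -320) (by decide +kernel)
        (CovZ.n2 (0, -320) (by decide +kernel)
         (CovZ.subM 166153499521471664615664011652108416 (by decide +kernel)
          (CovZ.n2 (-160, -480) (by decide +kernel)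
           (CovZ.n2 (-160, -320) (by decide +kernel)
            (CovZ.n2 (-80, -400) (by decide +kernel)
             (CovZ.leaf K2_ok TF_l1029 _)
             (CovZ.leaf K2_ok TF_l1030 _))
            (CovZ.n1 (-240, -400) (by decide +kernel)
             (CovZ.n2 (-240, -320) (by decide +kernel)
              (CovZ.leaf K2_ok TF_l1031 _)
              (CovZ.leaf K2_ok TF_l1032 _))
             (CovZ.n1 (-160, -400) (by decide +kernel)
              (CovZ.leaf K2_ok TF_l1033 _)
              (CovZ.leaf K2_ok TF_l1034 _))))
           (CovZ.n1 (0, -480) (by decide +kernel)
            (CovZ.n2 (-80, -560) (by decide +kernel)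
             (CovZ.n2 (-80, -480) (by decide +kernel)
              (CovZ.leaf K2_ok TF_l1035 _)
              (CovZ.n1 (-120, -520) (by decide +kernel)
               (CovZ.leaf K2_ok TF_l9934 _)
               (CovZ.leaf K2_ok TF_l9935 _)))
             (CovZ.n1 (0, -560) (by decide +kernel)
              (CovZ.leaf K2_ok TF_l1036 _)
              (CovZ.leaf K2_ok TF_l1037 _)))
            (CovZ.n1 (-80, -400) (by decide +kernel)
             (CovZ.leaf K2_ok TF_l1038 _)
             (CovZ.leaf K2_ok TF_l1039 _)))))
         (CovZ.n1 (-160, -160) (by decide +kernel)
          (CovZ.n2 (0, -160) (by decide +kernel)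
           (CovZ.leaf K2_ok TF_l1040 _)
           (CovZ.leaf K2_ok TF_l1041 _))
          (CovZ.n1 (-160, -320) (by decide +kernel)
           (CovZ.n2 (-240, -240) (by decide +kernel)
            (CovZ.leaf K2_ok TF_l1042 _)
            (CovZ.leaf K2_ok TF_l1043 _))
           (CovZ.leaf K2_ok TF_l1044 _))))
        (CovZ.subM 166153499511800258058711793882370176 (by decide +kernel)
         (CovZ.n1 (-320, -640) (by decide +kernel)
          (CovZ.n2 (-480, -480) (by decide +kernel)
           (CovZ.n2 (-320, -480) (by decide +kernel)
            (CovZ.n2 (-400, -560) (by decide +kernel)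
             (CovZ.subM 166153499473114631686928472215654400 (by decide +kernel)
              (CovZ.n2 (-400, -480) (by decide +kernel)
               (CovZ.n2 (-360, -520) (by decide +kernel)
                (CovZ.n2 (-400, -520) (by decide +kernel)
                 (CovZ.leaf K2_ok TF_l9936 _)
                 (CovZ.n1 (-380, -540) (by decide +kernel)
                  (CovZ.leaf K2_ok TF_l9937 _)
                  (CovZ.leaf K2_ok TF_l9938 _)))
                (CovZ.n1 (-360, -480) (by decide +kernel)
                 (CovZ.leaf K2_ok TF_l9939 _)
                 (CovZ.leaf K2_ok TF_l9940 _)))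
               (CovZ.n1 (-440, -520) (by decide +kernel)
                (CovZ.n2 (-440, -480) (by decide +kernel)
                 (CovZ.n2 (-420, -500) (by decide +kernel)
                  (CovZ.badM (by decide +kernel))
                  (CovZ.leaf K2_ok TF_l9941 _))
                 (CovZ.badM (by decide +kernel)))
                (CovZ.n1 (-400, -520) (by decide +kernel)
                 (CovZ.n2 (-420, -540) (by decide +kernel)
                  (CovZ.leaf K2_ok TF_l9942 _)
                  (CovZ.leaf K2_ok TF_l9943 _))
                 (CovZ.n1 (-420, -500) (by decide +kernel)
                  (CovZ.leaf K2_ok TF_l9944 _)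
                  (CovZ.leaf K2_ok TF_l9945 _))))))
             (CovZ.n1 (-320, -560) (by decide +kernel)
              (CovZ.subM 38685773801620723271208960 (by decide +kernel)
               (CovZ.n2 (-360, -600) (by decide +kernel)
                (CovZ.n2 (-360, -560) (by decide +kernel)
                 (CovZ.leaf K2_ok TF_l9946 _)
                 (CovZ.n1 (-380, -580) (by decide +kernel)
                  (CovZ.leaf K2_ok TF_l9947 _)
                  (CovZ.leaf K2_ok TF_l9948 _)))
                (CovZ.n1 (-320, -600) (by decide +kernel)
                 (CovZ.n2 (-340, -620) (by decide +kernel)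
                  (CovZ.leaf K2_ok TF_l9949 _)
                  (CovZ.leaf K2_ok TF_l9950 _))
                 (CovZ.leaf K2_ok TF_l9951 _))))
              (CovZ.n1 (-360, -520) (by decide +kernel)
               (CovZ.n2 (-320, -520) (by decide +kernel)
                (CovZ.leaf K2_ok TF_l9952 _)
                (CovZ.leaf K2_ok TF_l9953 _))
               (CovZ.n1 (-360, -560) (by decide +kernel)
                (CovZ.leaf K2_ok TF_l9954 _)
                (CovZ.leaf K2_ok TF_l9955 _)))))
            (CovZ.n1 (-400, -400) (by decide +kernel)
             (CovZ.n2 (-320, -400) (by decide +kernel)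
              (CovZ.n2 (-360, -440) (by decide +kernel)
               (CovZ.leaf K2_ok TF_l1045 _)
               (CovZ.leaf K2_ok TF_l1046 _))
              (CovZ.leaf K2_ok TF_l1047 _))
             (CovZ.n1 (-400, -480) (by decide +kernel)
              (CovZ.subM 166153499473114484112975882539499520 (by decide +kernel)
               (CovZ.n2 (-440, -440) (by decide +kernel)
                (CovZ.n2 (-400, -440) (by decide +kernel)
                 (CovZ.leaf K2_ok TF_l9956 _)
                 (CovZ.leaf K2_ok TF_l1048 _))
                (CovZ.n1 (-440, -480) (by decide +kernel)
                 (CovZ.leaf K2_ok TF_l9957 _)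
                 (CovZ.leaf K2_ok TF_l9958 _))))
              (CovZ.n1 (-360, -440) (by decide +kernel)
               (CovZ.leaf K2_ok TF_l9959 _)
               (CovZ.leaf K2_ok TF_l1049 _)))))
           (CovZ.subM 38685626227668133594796032 (by decide +kernel)
            (CovZ.n1 (-480, -640) (by decide +kernel)
             (CovZ.badM (by decide +kernel))
             (CovZ.n1 (-400, -560) (by decide +kernel)
              (CovZ.n2 (-400, -640) (by decide +kernel)
               (CovZ.n2 (-440, -600) (by decide +kernel)
                (CovZ.n2 (-400, -600) (by decide +kernel)
                 (CovZ.badM (by decide +kernel))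
                 (CovZ.n1 (-420, -580) (by decide +kernel)
                  (CovZ.n2 (-400, -580) (by decide +kernel)
                   (CovZ.leaf K2_ok TF_l9960 _)
                   (CovZ.leaf K2_ok TF_l9961 _))
                  (CovZ.n1 (-420, -600) (by decide +kernel)
                   (CovZ.badM (by decide +kernel))
                   (CovZ.leaf K2_ok TF_l9962 _))))
                (CovZ.badM (by decide +kernel)))
               (CovZ.n1 (-360, -600) (by decide +kernel)
                (CovZ.n2 (-360, -640) (by decide +kernel)
                 (CovZ.n2 (-380, -620) (by decide +kernel)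
                  (CovZ.n2 (-360, -620) (by decide +kernel)
                   (CovZ.leaf K2_ok TF_l9963 _)
                   (CovZ.leaf K2_ok TF_l9964 _))
                  (CovZ.n1 (-380, -640) (by decide +kernel)
                   (CovZ.badM (by decide +kernel))
                   (CovZ.leaf K2_ok TF_l9965 _)))
                 (CovZ.n1 (-340, -620) (by decide +kernel)
                  (CovZ.leaf K2_ok TF_l9966 _)
                  (CovZ.leaf K2_ok TF_l9967 _)))
                (CovZ.n1 (-400, -600) (by decide +kernel)
                 (CovZ.n2 (-380, -580) (by decide +kernel)
                  (CovZ.leaf K2_ok TF_l9968 _)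
                  (CovZ.leaf K2_ok TF_l9969 _))
                 (CovZ.n1 (-380, -620) (by decide +kernel)
                  (CovZ.badM (by decide +kernel))
                  (CovZ.n1 (-380, -600) (by decide +kernel)
                   (CovZ.leaf K2_ok TF_l9970 _)
                   (CovZ.badM (by decide +kernel)))))))
              (CovZ.n1 (-480, -560) (by decide +kernel)
               (CovZ.n2 (-440, -520) (by decide +kernel)
                (CovZ.n2 (-440, -560) (by decide +kernel)
                 (CovZ.badM (by decide +kernel))
                 (CovZ.n1 (-420, -540) (by decide +kernel)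
                  (CovZ.leaf K2_ok TF_l9971 _)
                  (CovZ.badM (by decide +kernel))))
                (CovZ.badM (by decide +kernel)))
               (CovZ.n1 (-440, -600) (by decide +kernel)
                (CovZ.badM (by decide +kernel))
                (CovZ.n1 (-440, -560) (by decide +kernel)
                 (CovZ.n2 (-420, -580) (by decide +kernel)
                  (CovZ.badM (by decide +kernel))
                  (CovZ.n1 (-420, -560) (by decide +kernel)
                   (CovZ.leaf K2_ok TF_l9972 _)
                   (CovZ.badM (by decide +kernel))))
                 (CovZ.badM (by decide +kernel)))))))))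
          (CovZ.n1 (-160, -480) (by decide +kernel)
           (CovZ.n2 (-160, -640) (by decide +kernel)
            (CovZ.n2 (-240, -560) (by decide +kernel)
             (CovZ.n2 (-160, -560) (by decide +kernel)
              (CovZ.n2 (-200, -600) (by decide +kernel)
               (CovZ.n2 (-200, -560) (by decide +kernel)
                (CovZ.leaf K2_ok TF_l9973 _)
                (CovZ.leaf K2_ok TF_l9974 _))
               (CovZ.n1 (-160, -600) (by decide +kernel)
                (CovZ.leaf K2_ok TF_l9975 _)
                (CovZ.leaf K2_ok TF_l9976 _)))
              (CovZ.n1 (-200, -520) (by decide +kernel)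
               (CovZ.leaf K2_ok TF_l9977 _)
               (CovZ.leaf K2_ok TF_l9978 _)))
             (CovZ.n1 (-240, -640) (by decide +kernel)
              (CovZ.subM 38685773801620723271208960 (by decide +kernel)
               (CovZ.n2 (-280, -600) (by decide +kernel)
                (CovZ.n2 (-240, -600) (by decide +kernel)
                 (CovZ.leaf K2_ok TF_l9979 _)
                 (CovZ.leaf K2_ok TF_l9980 _))
                (CovZ.n1 (-280, -640) (by decide +kernel)
                 (CovZ.n2 (-300, -620) (by decide +kernel)
                  (CovZ.leaf K2_ok TF_l9981 _)
                  (CovZ.leaf K2_ok TF_l9982 _))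
                 (CovZ.leaf K2_ok TF_l9983 _))))
              (CovZ.n1 (-200, -600) (by decide +kernel)
               (CovZ.n2 (-200, -640) (by decide +kernel)
                (CovZ.n2 (-220, -620) (by decide +kernel)
                 (CovZ.leaf K2_ok TF_l9984 _)
                 (CovZ.leaf K2_ok TF_l9985 _))
                (CovZ.leaf K2_ok TF_l9986 _))
               (CovZ.leaf K2_ok TF_l9987 _))))
            (CovZ.n1 (-80, -560) (by decide +kernel)
             (CovZ.n2 (-80, -640) (by decide +kernel)
              (CovZ.n2 (-120, -600) (by decide +kernel)
               (CovZ.leaf K2_ok TF_l9988 _)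
               (CovZ.n1 (-120, -640) (by decide +kernel)
                (CovZ.leaf K2_ok TF_l9989 _)
                (CovZ.leaf K2_ok TF_l9990 _)))
              (CovZ.leaf K2_ok TF_l1050 _))
             (CovZ.n1 (-160, -560) (by decide +kernel)
              (CovZ.leaf K2_ok TF_l9991 _)
              (CovZ.n1 (-120, -600) (by decide +kernel)
               (CovZ.leaf K2_ok TF_l9992 _)
               (CovZ.leaf K2_ok TF_l9993 _)))))
           (CovZ.n1 (-320, -480) (by decide +kernel)
            (CovZ.n2 (-240, -400) (by decide +kernel)
             (CovZ.n2 (-240, -480) (by decide +kernel)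
              (CovZ.leaf K2_ok TF_l1051 _)
              (CovZ.leaf K2_ok TF_l1052 _))
             (CovZ.n1 (-320, -400) (by decide +kernel)
              (CovZ.leaf K2_ok TF_l1053 _)
              (CovZ.n1 (-280, -440) (by decide +kernel)
               (CovZ.leaf K2_ok TF_l1054 _)
               (CovZ.leaf K2_ok TF_l1055 _))))
            (CovZ.n1 (-240, -560) (by decide +kernel)
             (CovZ.n2 (-320, -560) (by decide +kernel)
              (CovZ.n2 (-280, -520) (by decide +kernel)
               (CovZ.leaf K2_ok TF_l9994 _)
               (CovZ.leaf K2_ok TF_l9995 _))
              (CovZ.subM 38685773801620723271208960 (by decide +kernel)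
               (CovZ.n1 (-280, -600) (by decide +kernel)
                (CovZ.n2 (-320, -600) (by decide +kernel)
                 (CovZ.leaf K2_ok TF_l9996 _)
                 (CovZ.n1 (-300, -620) (by decide +kernel)
                  (CovZ.leaf K2_ok TF_l9997 _)
                  (CovZ.leaf K2_ok TF_l9998 _)))
                (CovZ.n1 (-280, -560) (by decide +kernel)
                 (CovZ.leaf K2_ok TF_l9999 _)
                 (CovZ.leaf K2_ok TF_l10000 _)))))
             (CovZ.n1 (-240, -480) (by decide +kernel)
              (CovZ.n2 (-200, -520) (by decide +kernel)
               (CovZ.leaf K2_ok TF_l10001 _)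
               (CovZ.leaf K2_ok TF_l10002 _))
              (CovZ.n1 (-280, -520) (by decide +kernel)
               (CovZ.leaf K2_ok TF_l10003 _)
               (CovZ.leaf K2_ok TF_l10004 _)))))))))

theorem TF_u26 : CovZ TF_M (toL (selN TF_LN 166153499483560528831292451447902340)) [0, 7, 4, 3] (0, 0) (-640, 0) (-640, -640) :=
    (CovZ.n2 (-320, -320) (by decide +kernel)
        (CovZ.subM 166153499482804928286237736497844224 (by decide +kernel)
         (CovZ.n2 (-640, -320) (by decide +kernel)
          (CovZ.n2 (-480, -160) (by decide +kernel)
           (CovZ.n2 (-480, -320) (by decide +kernel)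
            (CovZ.n2 (-560, -240) (by decide +kernel)
             (CovZ.n2 (-480, -240) (by decide +kernel)
              (CovZ.n2 (-520, -280) (by decide +kernel)
               (CovZ.leaf K2_ok TF_l10005 _)
               (CovZ.leaf K2_ok TF_l10006 _))
              (CovZ.n1 (-520, -200) (by decide +kernel)
               (CovZ.leaf K2_ok TF_l10007 _)
               (CovZ.leaf K2_ok TF_l10008 _)))
             (CovZ.subM 166153499473114484112975882535305216 (by decide +kernel)
              (CovZ.n1 (-560, -320) (by decide +kernel)
               (CovZ.n2 (-600, -280) (by decide +kernel)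
                (CovZ.n2 (-560, -280) (by decide +kernel)
                 (CovZ.leaf K2_ok TF_l10009 _)
                 (CovZ.leaf K2_ok TF_l10010 _))
                (CovZ.n1 (-600, -320) (by decide +kernel)
                 (CovZ.n2 (-620, -300) (by decide +kernel)
                  (CovZ.leaf K2_ok TF_l10011 _)
                  (CovZ.leaf K2_ok TF_l10012 _))
                 (CovZ.leaf K2_ok TF_l10013 _)))
               (CovZ.n1 (-520, -280) (by decide +kernel)
                (CovZ.leaf K2_ok TF_l10014 _)
                (CovZ.leaf K2_ok TF_l10015 _)))))
            (CovZ.n1 (-400, -240) (by decide +kernel)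
             (CovZ.n2 (-400, -320) (by decide +kernel)
              (CovZ.leaf K2_ok TF_l1056 _)
              (CovZ.leaf K2_ok TF_l1057 _))
             (CovZ.n1 (-480, -240) (by decide +kernel)
              (CovZ.leaf K2_ok TF_l1058 _)
              (CovZ.leaf K2_ok TF_l1059 _))))
           (CovZ.n1 (-640, -160) (by decide +kernel)
            (CovZ.n2 (-560, -80) (by decide +kernel)
             (CovZ.n2 (-560, -160) (by decide +kernel)
              (CovZ.n2 (-600, -120) (by decide +kernel)
               (CovZ.leaf K2_ok TF_l1060 _)
               (CovZ.leaf K2_ok TF_l10016 _))
              (CovZ.leaf K2_ok TF_l1061 _))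
             (CovZ.subM 166153499482785891246353668236115968 (by decide +kernel)
              (CovZ.n1 (-640, -80) (by decide +kernel)
               (CovZ.leaf K2_ok TF_l1062 _)
               (CovZ.n1 (-600, -120) (by decide +kernel)
                (CovZ.n2 (-640, -120) (by decide +kernel)
                 (CovZ.leaf K2_ok TF_l1063 _)
                 (CovZ.leaf K2_ok TF_l10017 _))
                (CovZ.leaf K2_ok TF_l1064 _)))))
            (CovZ.n1 (-560, -240) (by decide +kernel)
             (CovZ.subM 166153499473133373578907361115897856 (by decide +kernel)
              (CovZ.n2 (-640, -240) (by decide +kernel)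
               (CovZ.n2 (-600, -200) (by decide +kernel)
                (CovZ.n2 (-600, -240) (by decide +kernel)
                 (CovZ.n2 (-620, -220) (by decide +kernel)
                  (CovZ.leaf K2_ok TF_l10018 _)
                  (CovZ.leaf K2_ok TF_l10019 _))
                 (CovZ.leaf K2_ok TF_l10020 _))
                (CovZ.n1 (-640, -200) (by decide +kernel)
                 (CovZ.leaf K2_ok TF_l10021 _)
                 (CovZ.n1 (-620, -220) (by decide +kernel)
                  (CovZ.leaf K2_ok TF_l10022 _)
                  (CovZ.leaf K2_ok TF_l10023 _))))
               (CovZ.n1 (-600, -280) (by decide +kernel)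
                (CovZ.n2 (-640, -280) (by decide +kernel)
                 (CovZ.leaf K2_ok TF_l10024 _)
                 (CovZ.n1 (-620, -300) (by decide +kernel)
                  (CovZ.leaf K2_ok TF_l10025 _)
                  (CovZ.leaf K2_ok TF_l10026 _)))
                (CovZ.n1 (-600, -240) (by decide +kernel)
                 (CovZ.leaf K2_ok TF_l10027 _)
                 (CovZ.leaf K2_ok TF_l10028 _)))))
             (CovZ.n1 (-560, -160) (by decide +kernel)
              (CovZ.n2 (-520, -200) (by decide +kernel)
               (CovZ.leaf K2_ok TF_l10029 _)
               (CovZ.leaf K2_ok TF_l10030 _))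
              (CovZ.subM 166153499473133374155368113419321344 (by decide +kernel)
               (CovZ.n1 (-600, -200) (by decide +kernel)
                (CovZ.n2 (-600, -160) (by decide +kernel)
                 (CovZ.leaf K2_ok TF_l10031 _)
                 (CovZ.leaf K2_ok TF_l10032 _))
                (CovZ.n1 (-560, -200) (by decide +kernel)
                 (CovZ.leaf K2_ok TF_l10033 _)
                 (CovZ.leaf K2_ok TF_l10034 _))))))))
          (CovZ.n1 (-480, -480) (by decide +kernel)
           (CovZ.subM 166153499473114484112975882535305216 (by decide +kernel)
            (CovZ.n2 (-640, -480) (by decide +kernel)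
             (CovZ.n2 (-560, -400) (by decide +kernel)
              (CovZ.n2 (-560, -480) (by decide +kernel)
               (CovZ.badM (by decide +kernel))
               (CovZ.n1 (-520, -440) (by decide +kernel)
                (CovZ.badM (by decide +kernel))
                (CovZ.n1 (-560, -440) (by decide +kernel)
                 (CovZ.n2 (-540, -420) (by decide +kernel)
                  (CovZ.leaf K2_ok TF_l10035 _)
                  (CovZ.badM (by decide +kernel)))
                 (CovZ.badM (by decide +kernel)))))
              (CovZ.n1 (-640, -400) (by decide +kernel)
               (CovZ.n2 (-600, -360) (by decide +kernel)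
                (CovZ.n2 (-600, -400) (by decide +kernel)
                 (CovZ.n2 (-620, -380) (by decide +kernel)
                  (CovZ.n2 (-600, -380) (by decide +kernel)
                   (CovZ.leaf K2_ok TF_l10036 _)
                   (CovZ.leaf K2_ok TF_l10037 _))
                  (CovZ.badM (by decide +kernel)))
                 (CovZ.n1 (-580, -380) (by decide +kernel)
                  (CovZ.leaf K2_ok TF_l10038 _)
                  (CovZ.leaf K2_ok TF_l10039 _)))
                (CovZ.n1 (-640, -360) (by decide +kernel)
                 (CovZ.n2 (-620, -340) (by decide +kernel)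
                  (CovZ.leaf K2_ok TF_l10040 _)
                  (CovZ.leaf K2_ok TF_l10041 _))
                 (CovZ.n1 (-620, -380) (by decide +kernel)
                  (CovZ.n2 (-640, -380) (by decide +kernel)
                   (CovZ.leaf K2_ok TF_l10042 _)
                   (CovZ.badM (by decide +kernel)))
                  (CovZ.n1 (-620, -360) (by decide +kernel)
                   (CovZ.leaf K2_ok TF_l10043 _)
                   (CovZ.leaf K2_ok TF_l10044 _)))))
               (CovZ.badM (by decide +kernel))))
             (CovZ.badM (by decide +kernel))))
           (CovZ.n1 (-480, -320) (by decide +kernel)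
            (CovZ.n2 (-400, -400) (by decide +kernel)
             (CovZ.subM 166153499473114484112975882539499520 (by decide +kernel)
              (CovZ.n2 (-480, -400) (by decide +kernel)
               (CovZ.n2 (-440, -360) (by decide +kernel)
                (CovZ.leaf K2_ok TF_l1065 _)
                (CovZ.leaf K2_ok TF_l1066 _))
               (CovZ.n1 (-440, -440) (by decide +kernel)
                (CovZ.n2 (-480, -440) (by decide +kernel)
                 (CovZ.leaf K2_ok TF_l1067 _)
                 (CovZ.leaf K2_ok TF_l10045 _))
                (CovZ.n1 (-440, -400) (by decide +kernel)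
                 (CovZ.leaf K2_ok TF_l1068 _)
                 (CovZ.leaf K2_ok TF_l1069 _)))))
             (CovZ.n1 (-400, -320) (by decide +kernel)
              (CovZ.leaf K2_ok TF_l1070 _)
              (CovZ.n1 (-440, -360) (by decide +kernel)
               (CovZ.leaf K2_ok TF_l1071 _)
               (CovZ.leaf K2_ok TF_l1072 _))))
            (CovZ.subM 166153499473114484112975882535305216 (by decide +kernel)
             (CovZ.n1 (-560, -400) (by decide +kernel)
              (CovZ.n2 (-560, -320) (by decide +kernel)
               (CovZ.n2 (-520, -360) (by decide +kernel)
                (CovZ.n2 (-560, -360) (by decide +kernel)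
                 (CovZ.leaf K2_ok TF_l10046 _)
                 (CovZ.leaf K2_ok TF_l10047 _))
                (CovZ.n1 (-520, -320) (by decide +kernel)
                 (CovZ.leaf K2_ok TF_l10048 _)
                 (CovZ.leaf K2_ok TF_l10049 _)))
               (CovZ.n1 (-600, -360) (by decide +kernel)
                (CovZ.n2 (-600, -320) (by decide +kernel)
                 (CovZ.leaf K2_ok TF_l10050 _)
                 (CovZ.n1 (-620, -340) (by decide +kernel)
                  (CovZ.leaf K2_ok TF_l10051 _)
                  (CovZ.leaf K2_ok TF_l10052 _)))
                (CovZ.n1 (-560, -360) (by decide +kernel)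
                 (CovZ.n2 (-580, -380) (by decide +kernel)
                  (CovZ.leaf K2_ok TF_l10053 _)
                  (CovZ.leaf K2_ok TF_l10054 _))
                 (CovZ.leaf K2_ok TF_l10055 _))))
              (CovZ.n1 (-480, -400) (by decide +kernel)
               (CovZ.n2 (-520, -440) (by decide +kernel)
                (CovZ.n2 (-520, -400) (by decide +kernel)
                 (CovZ.leaf K2_ok TF_l10056 _)
                 (CovZ.n1 (-540, -420) (by decide +kernel)
                  (CovZ.leaf K2_ok TF_l10057 _)
                  (CovZ.leaf K2_ok TF_l10058 _)))
                (CovZ.n1 (-480, -440) (by decide +kernel)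
                 (CovZ.badM (by decide +kernel))
                 (CovZ.leaf K2_ok TF_l10059 _)))
               (CovZ.n1 (-520, -360) (by decide +kernel)
                (CovZ.n2 (-480, -360) (by decide +kernel)
                 (CovZ.leaf K2_ok TF_l10060 _)
                 (CovZ.leaf K2_ok TF_l10061 _))
                (CovZ.n1 (-520, -400) (by decide +kernel)
                 (CovZ.leaf K2_ok TF_l10062 _)
                 (CovZ.leaf K2_ok TF_l10063 _))))))))))
        (CovZ.n1 (-320, 0) (by decide +kernel)
         (CovZ.n2 (-160, -160) (by decide +kernel)
          (CovZ.n2 (-320, -160) (by decide +kernel)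
           (CovZ.leaf K2_ok TF_l1073 _)
           (CovZ.n1 (-240, -240) (by decide +kernel)
            (CovZ.leaf K2_ok TF_l1074 _)
            (CovZ.leaf K2_ok TF_l1075 _)))
          (CovZ.n1 (-160, 0) (by decide +kernel)
           (CovZ.leaf K2_ok TF_l1076 _)
           (CovZ.leaf K2_ok TF_l1077 _)))
         (CovZ.n1 (-480, -160) (by decide +kernel)
          (CovZ.n2 (-480, 0) (by decide +kernel)
           (CovZ.n2 (-400, -80) (by decide +kernel)
            (CovZ.leaf K2_ok TF_l1078 _)
            (CovZ.leaf K2_ok TF_l1079 _))
           (CovZ.subM 166153499482804929441411040914178048 (by decide +kernel)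
            (CovZ.n1 (-560, -80) (by decide +kernel)
             (CovZ.n2 (-560, 0) (by decide +kernel)
              (CovZ.leaf K2_ok TF_l1080 _)
              (CovZ.leaf K2_ok TF_l1081 _))
             (CovZ.n1 (-480, -80) (by decide +kernel)
              (CovZ.n2 (-520, -120) (by decide +kernel)
               (CovZ.leaf K2_ok TF_l1082 _)
               (CovZ.leaf K2_ok TF_l1083 _))
              (CovZ.leaf K2_ok TF_l1084 _)))))
          (CovZ.n1 (-320, -160) (by decide +kernel)
           (CovZ.subM 166153499482804928286237736497844224 (by decide +kernel)
            (CovZ.n2 (-400, -240) (by decide +kernel)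
             (CovZ.n2 (-400, -160) (by decide +kernel)
              (CovZ.leaf K2_ok TF_l1085 _)
              (CovZ.leaf K2_ok TF_l1086 _))
             (CovZ.n1 (-320, -240) (by decide +kernel)
              (CovZ.leaf K2_ok TF_l1087 _)
              (CovZ.leaf K2_ok TF_l1088 _))))
           (CovZ.n1 (-400, -80) (by decide +kernel)
            (CovZ.leaf K2_ok TF_l1089 _)
            (CovZ.leaf K2_ok TF_l1090 _))))))

theorem TF_u27 : CovZ TF_M (toL (selN TF_LN 166153499483560528831292451447902340)) [0, 7, 4, 3] (-640, 0) (-1280, 0) (-640, -640) :=
    (CovZ.subM 9690296599309264281927680 (by decide +kernel)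
        (CovZ.n1 (-960, -320) (by decide +kernel)
         (CovZ.badM (by decide +kernel))
         (CovZ.n1 (-640, -320) (by decide +kernel)
          (CovZ.badM (by decide +kernel))
          (CovZ.n1 (-800, -160) (by decide +kernel)
           (CovZ.n2 (-640, -160) (by decide +kernel)
            (CovZ.n2 (-720, -240) (by decide +kernel)
             (CovZ.badM (by decide +kernel))
             (CovZ.n1 (-640, -240) (by decide +kernel)
              (CovZ.badM (by decide +kernel))
              (CovZ.n1 (-680, -200) (by decide +kernel)
               (CovZ.n2 (-640, -200) (by decide +kernel)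
                (CovZ.badM (by decide +kernel))
                (CovZ.n1 (-660, -180) (by decide +kernel)
                 (CovZ.n2 (-640, -180) (by decide +kernel)
                  (CovZ.leaf K2_ok TF_l10064 _)
                  (CovZ.leaf K2_ok TF_l10065 _))
                 (CovZ.leaf K2_ok TF_l10066 _)))
               (CovZ.badM (by decide +kernel)))))
            (CovZ.n1 (-720, -80) (by decide +kernel)
             (CovZ.n2 (-640, -80) (by decide +kernel)
              (CovZ.n2 (-680, -120) (by decide +kernel)
               (CovZ.n2 (-680, -80) (by decide +kernel)
                (CovZ.leaf K2_ok TF_l1091 _)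
                (CovZ.leaf K2_ok TF_l10067 _))
               (CovZ.n1 (-640, -120) (by decide +kernel)
                (CovZ.leaf K2_ok TF_l10068 _)
                (CovZ.leaf K2_ok TF_l1092 _)))
              (CovZ.n1 (-680, -40) (by decide +kernel)
               (CovZ.leaf K2_ok TF_l1093 _)
               (CovZ.leaf K2_ok TF_l1094 _)))
             (CovZ.n1 (-720, -160) (by decide +kernel)
              (CovZ.badM (by decide +kernel))
              (CovZ.n1 (-680, -120) (by decide +kernel)
               (CovZ.n2 (-680, -160) (by decide +kernel)
                (CovZ.n2 (-700, -140) (by decide +kernel)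
                 (CovZ.n2 (-680, -140) (by decide +kernel)
                  (CovZ.leaf K2_ok TF_l10069 _)
                  (CovZ.leaf K2_ok TF_l10070 _))
                 (CovZ.leaf K2_ok TF_l10071 _))
                (CovZ.leaf K2_ok TF_l10072 _))
               (CovZ.n1 (-720, -120) (by decide +kernel)
                (CovZ.leaf K2_ok TF_l10073 _)
                (CovZ.n1 (-700, -140) (by decide +kernel)
                 (CovZ.badM (by decide +kernel))
                 (CovZ.leaf K2_ok TF_l10074 _)))))))
           (CovZ.n1 (-800, -320) (by decide +kernel)
            (CovZ.badM (by decide +kernel))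
            (CovZ.n1 (-720, -240) (by decide +kernel)
             (CovZ.badM (by decide +kernel))
             (CovZ.badM (by decide +kernel))))))))

theorem TF_u28 : CovZ TF_M (toL (selN TF_LN 166153499523455085670405218003849220)) [0, 7, 4, 3] (0, 0) (0, -640) (640, -640) :=
    (CovZ.n2 (320, -320) (by decide +kernel)
         (CovZ.n2 (320, -640) (by decide +kernel)
          (CovZ.n2 (160, -480) (by decide +kernel)
           (CovZ.n2 (320, -480) (by decide +kernel)
            (CovZ.subM 166153499511800276505491051964010496 (by decide +kernel)
             (CovZ.n2 (240, -560) (by decide +kernel)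
              (CovZ.n2 (240, -480) (by decide +kernel)
               (CovZ.leaf K2_ok TF_l2373 _)
               (CovZ.leaf K2_ok TF_l2374 _))
              (CovZ.n1 (320, -560) (by decide +kernel)
               (CovZ.leaf K2_ok TF_l2375 _)
               (CovZ.leaf K2_ok TF_l2376 _))))
            (CovZ.n1 (240, -400) (by decide +kernel)
             (CovZ.leaf K2_ok TF_l2377 _)
             (CovZ.leaf K2_ok TF_l2378 _)))
           (CovZ.subM 166153499511800276505491051964010496 (by decide +kernel)
            (CovZ.n1 (160, -640) (by decide +kernel)
             (CovZ.n2 (80, -560) (by decide +kernel)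
              (CovZ.n2 (160, -560) (by decide +kernel)
               (CovZ.leaf K2_ok TF_l2379 _)
               (CovZ.leaf K2_ok TF_l2380 _))
              (CovZ.n1 (80, -640) (by decide +kernel)
               (CovZ.leaf K2_ok TF_l2381 _)
               (CovZ.leaf K2_ok TF_l2382 _)))
             (CovZ.n1 (240, -560) (by decide +kernel)
              (CovZ.n2 (240, -640) (by decide +kernel)
               (CovZ.n2 (200, -600) (by decide +kernel)
                (CovZ.leaf K2_ok TF_l2383 _)
                (CovZ.leaf K2_ok TF_l2384 _))
               (CovZ.leaf K2_ok TF_l2385 _))
              (CovZ.n1 (160, -560) (by decide +kernel)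
               (CovZ.leaf K2_ok TF_l2386 _)
               (CovZ.n1 (200, -600) (by decide +kernel)
                (CovZ.leaf K2_ok TF_l2387 _)
                (CovZ.leaf K2_ok TF_l2388 _)))))))
          (CovZ.n1 (480, -480) (by decide +kernel)
           (CovZ.subM 166153499513009209098519520703942660 (by decide +kernel)
            (CovZ.n2 (480, -640) (by decide +kernel)
             (CovZ.n2 (400, -560) (by decide +kernel)
              (CovZ.n2 (480, -560) (by decide +kernel)
               (CovZ.n2 (440, -600) (by decide +kernel)
                (CovZ.leaf K2_ok TF_l2389 _)
                (CovZ.n1 (480, -600) (by decide +kernel)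
                 (CovZ.leaf K2_ok TF_l2390 _)
                 (CovZ.leaf K2_ok TF_l2391 _)))
               (CovZ.n1 (440, -520) (by decide +kernel)
                (CovZ.leaf K2_ok TF_l2392 _)
                (CovZ.leaf K2_ok TF_l2393 _)))
              (CovZ.n1 (400, -640) (by decide +kernel)
               (CovZ.n2 (360, -600) (by decide +kernel)
                (CovZ.leaf K2_ok TF_l2394 _)
                (CovZ.leaf K2_ok TF_l2395 _))
               (CovZ.leaf K2_ok TF_l2396 _)))
             (CovZ.n1 (560, -560) (by decide +kernel)
              (CovZ.n2 (560, -640) (by decide +kernel)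
               (CovZ.n2 (520, -600) (by decide +kernel)
                (CovZ.n2 (560, -600) (by decide +kernel)
                 (CovZ.leaf K2_ok TF_l2397 _)
                 (CovZ.leaf K2_ok TF_l2398 _))
                (CovZ.leaf K2_ok TF_l2399 _))
               (CovZ.n1 (600, -600) (by decide +kernel)
                (CovZ.n2 (600, -640) (by decide +kernel)
                 (CovZ.n2 (580, -620) (by decide +kernel)
                  (CovZ.leaf K2_ok TF_l11231 _)
                  (CovZ.leaf K2_ok TF_l11232 _))
                 (CovZ.leaf K2_ok TF_l11233 _))
                (CovZ.n1 (560, -600) (by decide +kernel)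
                 (CovZ.leaf K2_ok TF_l11234 _)
                 (CovZ.leaf K2_ok TF_l11235 _))))
              (CovZ.n1 (480, -560) (by decide +kernel)
               (CovZ.leaf K2_ok TF_l2400 _)
               (CovZ.n1 (520, -600) (by decide +kernel)
                (CovZ.leaf K2_ok TF_l2401 _)
                (CovZ.leaf K2_ok TF_l2402 _))))))
           (CovZ.n1 (320, -480) (by decide +kernel)
            (CovZ.leaf K2_ok TF_l2403 _)
            (CovZ.subM 166153499511800283423020079605092356 (by decide +kernel)
             (CovZ.n1 (400, -560) (by decide +kernel)
              (CovZ.n2 (320, -560) (by decide +kernel)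
               (CovZ.leaf K2_ok TF_l2404 _)
               (CovZ.n1 (360, -600) (by decide +kernel)
                (CovZ.leaf K2_ok TF_l2405 _)
                (CovZ.leaf K2_ok TF_l2406 _)))
              (CovZ.n1 (400, -480) (by decide +kernel)
               (CovZ.n2 (440, -520) (by decide +kernel)
                (CovZ.leaf K2_ok TF_l2407 _)
                (CovZ.leaf K2_ok TF_l2408 _))
               (CovZ.leaf K2_ok TF_l2409 _)))))))
         (CovZ.n1 (0, -320) (by decide +kernel)
          (CovZ.n2 (160, -160) (by decide +kernel)
           (CovZ.leaf K2_ok TF_l2410 _)
           (CovZ.leaf K2_ok TF_l2411 _))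
          (CovZ.n1 (160, -480) (by decide +kernel)
           (CovZ.n2 (0, -480) (by decide +kernel)
            (CovZ.leaf K2_ok TF_l2412 _)
            (CovZ.n1 (80, -560) (by decide +kernel)
             (CovZ.leaf K2_ok TF_l2413 _)
             (CovZ.leaf K2_ok TF_l2414 _)))
           (CovZ.n1 (160, -320) (by decide +kernel)
            (CovZ.n2 (240, -400) (by decide +kernel)
             (CovZ.leaf K2_ok TF_l2415 _)
             (CovZ.leaf K2_ok TF_l2416 _))
            (CovZ.leaf K2_ok TF_l2417 _)))))

theorem TF_u29 : CovZ TF_M (toL (selN TF_LN 166153499523455085670405218003849220)) [0, 7, 4, 3] (0, -640) (0, -1280) (640, -640) :=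
    (CovZ.subM 166153499474323432991055788218777604 (by decide +kernel)
         (CovZ.n1 (320, -960) (by decide +kernel)
          (CovZ.subM 35184372088832 (by decide +kernel)
           (CovZ.n2 (0, -960) (by decide +kernel)
            (CovZ.n2 (160, -800) (by decide +kernel)
             (CovZ.badM (by decide +kernel))
             (CovZ.n1 (0, -800) (by decide +kernel)
              (CovZ.n2 (80, -720) (by decide +kernel)
               (CovZ.badM (by decide +kernel))
               (CovZ.badM (by decide +kernel)))
              (CovZ.badM (by decide +kernel))))
            (CovZ.badM (by decide +kernel))))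
          (CovZ.n1 (320, -640) (by decide +kernel)
           (CovZ.n2 (480, -800) (by decide +kernel)
            (CovZ.n2 (320, -800) (by decide +kernel)
             (CovZ.n2 (400, -720) (by decide +kernel)
              (CovZ.badM (by decide +kernel))
              (CovZ.n1 (320, -720) (by decide +kernel)
               (CovZ.n2 (360, -680) (by decide +kernel)
                (CovZ.subM 4611686018427387904 (by decide +kernel)
                 (CovZ.n2 (360, -720) (by decide +kernel)
                  (CovZ.badM (by decide +kernel))
                  (CovZ.n1 (380, -700) (by decide +kernel)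
                   (CovZ.badM (by decide +kernel))
                   (CovZ.n1 (360, -700) (by decide +kernel)
                    (CovZ.leaf K2_ok TF_l11236 _)
                    (CovZ.badM (by decide +kernel))))))
                (CovZ.n1 (320, -680) (by decide +kernel)
                 (CovZ.leaf K2_ok TF_l11237 _)
                 (CovZ.badM (by decide +kernel))))
               (CovZ.badM (by decide +kernel))))
             (CovZ.badM (by decide +kernel)))
            (CovZ.n1 (480, -640) (by decide +kernel)
             (CovZ.subM 4611721202799476736 (by decide +kernel)
              (CovZ.n2 (560, -720) (by decide +kernel)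
               (CovZ.n2 (480, -720) (by decide +kernel)
                (CovZ.n2 (520, -680) (by decide +kernel)
                 (CovZ.badM (by decide +kernel))
                 (CovZ.n1 (480, -680) (by decide +kernel)
                  (CovZ.leaf K2_ok TF_l11238 _)
                  (CovZ.badM (by decide +kernel))))
                (CovZ.badM (by decide +kernel)))
               (CovZ.n1 (560, -640) (by decide +kernel)
                (CovZ.n2 (600, -680) (by decide +kernel)
                 (CovZ.n2 (560, -680) (by decide +kernel)
                  (CovZ.leaf K2_ok TF_l11239 _)
                  (CovZ.badM (by decide +kernel)))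
                 (CovZ.n1 (600, -640) (by decide +kernel)
                  (CovZ.badM (by decide +kernel))
                  (CovZ.n1 (580, -660) (by decide +kernel)
                   (CovZ.leaf K2_ok TF_l11240 _)
                   (CovZ.badM (by decide +kernel)))))
                (CovZ.n1 (520, -680) (by decide +kernel)
                 (CovZ.n2 (520, -640) (by decide +kernel)
                  (CovZ.n2 (540, -660) (by decide +kernel)
                   (CovZ.leaf K2_ok TF_l11241 _)
                   (CovZ.leaf K2_ok TF_l11242 _))
                  (CovZ.leaf K2_ok TF_l11243 _))
                 (CovZ.n1 (560, -680) (by decide +kernel)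
                  (CovZ.badM (by decide +kernel))
                  (CovZ.n1 (540, -660) (by decide +kernel)
                   (CovZ.leaf K2_ok TF_l11244 _)
                   (CovZ.badM (by decide +kernel))))))))
             (CovZ.n1 (400, -720) (by decide +kernel)
              (CovZ.n2 (400, -640) (by decide +kernel)
               (CovZ.subM 166153499473114488724697085334519808 (by decide +kernel)
                (CovZ.n2 (440, -680) (by decide +kernel)
                 (CovZ.n2 (400, -680) (by decide +kernel)
                  (CovZ.leaf K2_ok TF_l11245 _)
                  (CovZ.n1 (420, -700) (by decide +kernel)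
                   (CovZ.n2 (400, -700) (by decide +kernel)
                    (CovZ.leaf K2_ok TF_l11246 _)
                    (CovZ.badM (by decide +kernel)))
                   (CovZ.leaf K2_ok TF_l11247 _)))
                 (CovZ.n1 (440, -640) (by decide +kernel)
                  (CovZ.n2 (460, -660) (by decide +kernel)
                   (CovZ.leaf K2_ok TF_l11248 _)
                   (CovZ.leaf K2_ok TF_l11249 _))
                  (CovZ.leaf K2_ok TF_l11250 _))))
               (CovZ.n1 (360, -680) (by decide +kernel)
                (CovZ.n2 (360, -640) (by decide +kernel)
                 (CovZ.n2 (380, -660) (by decide +kernel)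
                  (CovZ.leaf K2_ok TF_l11251 _)
                  (CovZ.leaf K2_ok TF_l11252 _))
                 (CovZ.leaf K2_ok TF_l11253 _))
                (CovZ.subM 166153499473114488724697085334519808 (by decide +kernel)
                 (CovZ.n1 (400, -680) (by decide +kernel)
                  (CovZ.n2 (380, -700) (by decide +kernel)
                   (CovZ.leaf K2_ok TF_l11254 _)
                   (CovZ.n1 (400, -700) (by decide +kernel)
                    (CovZ.badM (by decide +kernel))
                    (CovZ.leaf K2_ok TF_l11255 _)))
                  (CovZ.n1 (380, -660) (by decide +kernel)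
                   (CovZ.leaf K2_ok TF_l11256 _)
                   (CovZ.leaf K2_ok TF_l11257 _))))))
              (CovZ.subM 4611721202799476736 (by decide +kernel)
               (CovZ.n1 (480, -720) (by decide +kernel)
                (CovZ.badM (by decide +kernel))
                (CovZ.n1 (440, -680) (by decide +kernel)
                 (CovZ.n2 (480, -680) (by decide +kernel)
                  (CovZ.badM (by decide +kernel))
                  (CovZ.n1 (460, -660) (by decide +kernel)
                   (CovZ.leaf K2_ok TF_l11258 _)
                   (CovZ.leaf K2_ok TF_l11259 _)))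
                 (CovZ.badM (by decide +kernel))))))))
           (CovZ.subM 166153499473114502559755140616683520 (by decide +kernel)
            (CovZ.n1 (160, -800) (by decide +kernel)
             (CovZ.n2 (160, -640) (by decide +kernel)
              (CovZ.n2 (240, -720) (by decide +kernel)
               (CovZ.n2 (160, -720) (by decide +kernel)
                (CovZ.n2 (200, -680) (by decide +kernel)
                 (CovZ.n2 (200, -720) (by decide +kernel)
                  (CovZ.leaf K2_ok TF_l11260 _)
                  (CovZ.leaf K2_ok TF_l11261 _))
                 (CovZ.leaf K2_ok TF_l11262 _))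
                (CovZ.n1 (200, -760) (by decide +kernel)
                 (CovZ.badM (by decide +kernel))
                 (CovZ.n1 (200, -720) (by decide +kernel)
                  (CovZ.badM (by decide +kernel))
                  (CovZ.badM (by decide +kernel)))))
               (CovZ.n1 (240, -640) (by decide +kernel)
                (CovZ.n2 (280, -680) (by decide +kernel)
                 (CovZ.n2 (240, -680) (by decide +kernel)
                  (CovZ.leaf K2_ok TF_l11263 _)
                  (CovZ.n1 (260, -700) (by decide +kernel)
                   (CovZ.leaf K2_ok TF_l11264 _)
                   (CovZ.leaf K2_ok TF_l11265 _)))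
                 (CovZ.n1 (280, -640) (by decide +kernel)
                  (CovZ.n2 (300, -660) (by decide +kernel)
                   (CovZ.leaf K2_ok TF_l11266 _)
                   (CovZ.leaf K2_ok TF_l11267 _))
                  (CovZ.leaf K2_ok TF_l11268 _)))
                (CovZ.n1 (200, -680) (by decide +kernel)
                 (CovZ.leaf K2_ok TF_l11269 _)
                 (CovZ.n1 (240, -680) (by decide +kernel)
                  (CovZ.leaf K2_ok TF_l11270 _)
                  (CovZ.leaf K2_ok TF_l11271 _)))))
              (CovZ.n1 (80, -720) (by decide +kernel)
               (CovZ.n2 (80, -640) (by decide +kernel)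
                (CovZ.n2 (120, -680) (by decide +kernel)
                 (CovZ.leaf K2_ok TF_l11272 _)
                 (CovZ.leaf K2_ok TF_l11273 _))
                (CovZ.leaf K2_ok TF_l11274 _))
               (CovZ.n1 (160, -720) (by decide +kernel)
                (CovZ.badM (by decide +kernel))
                (CovZ.n1 (120, -680) (by decide +kernel)
                 (CovZ.leaf K2_ok TF_l11275 _)
                 (CovZ.leaf K2_ok TF_l11276 _)))))
             (CovZ.n1 (320, -800) (by decide +kernel)
              (CovZ.n2 (240, -880) (by decide +kernel)
               (CovZ.n2 (240, -800) (by decide +kernel)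
                (CovZ.badM (by decide +kernel))
                (CovZ.badM (by decide +kernel)))
               (CovZ.badM (by decide +kernel)))
              (CovZ.n1 (240, -720) (by decide +kernel)
               (CovZ.n2 (320, -720) (by decide +kernel)
                (CovZ.n2 (280, -760) (by decide +kernel)
                 (CovZ.n2 (280, -720) (by decide +kernel)
                  (CovZ.badM (by decide +kernel))
                  (CovZ.n1 (260, -740) (by decide +kernel)
                   (CovZ.n2 (260, -720) (by decide +kernel)
                    (CovZ.badM (by decide +kernel))
                    (CovZ.leaf K2_ok TF_l11277 _))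
                   (CovZ.badM (by decide +kernel))))
                 (CovZ.badM (by decide +kernel)))
                (CovZ.n1 (280, -680) (by decide +kernel)
                 (CovZ.n2 (320, -680) (by decide +kernel)
                  (CovZ.n2 (300, -700) (by decide +kernel)
                   (CovZ.leaf K2_ok TF_l11278 _)
                   (CovZ.badM (by decide +kernel)))
                  (CovZ.n1 (300, -660) (by decide +kernel)
                   (CovZ.leaf K2_ok TF_l11279 _)
                   (CovZ.leaf K2_ok TF_l11280 _)))
                 (CovZ.n1 (280, -720) (by decide +kernel)
                  (CovZ.n2 (260, -700) (by decide +kernel)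
                   (CovZ.n2 (280, -700) (by decide +kernel)
                    (CovZ.leaf K2_ok TF_l11281 _)
                    (CovZ.leaf K2_ok TF_l11282 _))
                   (CovZ.leaf K2_ok TF_l11283 _))
                  (CovZ.n1 (300, -700) (by decide +kernel)
                   (CovZ.badM (by decide +kernel))
                   (CovZ.n1 (280, -700) (by decide +kernel)
                    (CovZ.leaf K2_ok TF_l11284 _)
                    (CovZ.badM (by decide +kernel)))))))
               (CovZ.n1 (240, -800) (by decide +kernel)
                (CovZ.badM (by decide +kernel))
                (CovZ.n1 (280, -760) (by decide +kernel)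
                 (CovZ.badM (by decide +kernel))
                 (CovZ.n1 (240, -760) (by decide +kernel)
                  (CovZ.n2 (260, -740) (by decide +kernel)
                   (CovZ.badM (by decide +kernel))
                   (CovZ.n1 (240, -740) (by decide +kernel)
                    (CovZ.leaf K2_ok TF_l11285 _)
                    (CovZ.badM (by decide +kernel))))
                  (CovZ.badM (by decide +kernel))))))))))))

end Pool.Agent.TET
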