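import Pool.Agent.Helper38_TET.TF_M
import Pool.Agent.Helper38_TET.TF_L
import Pool.Agent.Helper38_TET.TF_31
import Pool.Agent.Helper38_TET.TF_33
import Pool.Agent.Helper38_TET.TF_34
import Pool.Agent.Helper38_TET.TF_35
import Pool.Agent.Helper38_TET.TF_36
import Pool.Agent.Helper38_TET.TF_37
import Pool.Agent.Helper38_TET.TF_38
import Pool.Agent.Helper38_TET.TF_39
import Pool.Agent.Helper38_TET.TF_40
import Pool.Agent.Helper38_TET.TF_42
import Pool.Agent.Helper38_TET.TF_43
import Pool.Agent.Helper38_TET.TF_44
import Pool.Agent.Helper38_TET.TF_87
import Pool.Agent.Helper38_TET.TF_88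
import Pool.Agent.Helper38_TET.TF_89
import Pool.Agent.Helper38_TET.TF_91
import Pool.Agent.Helper38_TET.TF_92
import Pool.Agent.Helper38_TET.TF_93
import Pool.Agent.Helper38_TET.TF_96
import Pool.Agent.Helper38_TET.TF_97
import Pool.Agent.Helper38_TET.TF_98
import Pool.Agent.Helper38_TET.TF_100
import Pool.Agent.Helper38_TET.TF_101
import Pool.Agent.Helper38_TET.TF_U0
import Pool.Agent.Helper38_TET.TF_U1

/-!
# MP_c7c9bf_co: certificates, family TF
-/

set_option autoImplicit false
set_option maxRecDepth 100000

namespace Pool.Agent.TET

theorem TF_s0_0 : SqZ TF_M TF_L [0, 7, 4, 3] (-7680) (-7680) 2560 0 0 :=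
  SqZ.mk (a := (-7680)) (b := (-5120)) (c := (-7680)) (d := (-5120)) (by norm_num) (by norm_num) (by norm_num) (by norm_num)
    (CovZ.topM TF_LL 0 (by decide +kernel) (CovZ.badM (by decide +kernel)))
    (CovZ.topM TF_LL 0 (by decide +kernel) (CovZ.badM (by decide +kernel)))

theorem TF_s1_0 : SqZ TF_M TF_L [0, 7, 4, 3] (-7680) (-7680) 2560 1 0 :=
  SqZ.mk (a := (-5120)) (b := (-2560)) (c := (-7680)) (d := (-5120)) (by norm_num) (by norm_num) (by norm_num) (by norm_num)
    (CovZ.topM TF_LL 0 (by decide +kernel) (CovZ.badM (by decide +kernel)))
    (CovZ.topM TF_LL 0 (by decide +kernel) (CovZ.badM (by decide +kernel)))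

theorem TF_s2_0 : SqZ TF_M TF_L [0, 7, 4, 3] (-7680) (-7680) 2560 2 0 :=
  SqZ.mk (a := (-2560)) (b := 0) (c := (-7680)) (d := (-5120)) (by norm_num) (by norm_num) (by norm_num) (by norm_num)
    (CovZ.topM TF_LL 0 (by decide +kernel) (CovZ.badM (by decide +kernel)))
    (CovZ.topM TF_LL 0 (by decide +kernel) (CovZ.badM (by decide +kernel)))

theorem TF_s3_0 : SqZ TF_M TF_L [0, 7, 4, 3] (-7680) (-7680) 2560 3 0 :=
  SqZ.mk (a := 0) (b := 2560) (c := (-7680)) (d := (-5120)) (by norm_num) (by norm_num) (by norm_num) (by norm_num)
    (CovZ.topM TF_LL 0 (by decide +kernel) (CovZ.badM (by decide +kernel)))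
    (CovZ.topM TF_LL 0 (by decide +kernel) (CovZ.badM (by decide +kernel)))

theorem TF_s4_0 : SqZ TF_M TF_L [0, 7, 4, 3] (-7680) (-7680) 2560 4 0 :=
  SqZ.mk (a := 2560) (b := 5120) (c := (-7680)) (d := (-5120)) (by norm_num) (by norm_num) (by norm_num) (by norm_num)
    (CovZ.topM TF_LL 0 (by decide +kernel) (CovZ.badM (by decide +kernel)))
    (CovZ.topM TF_LL 0 (by decide +kernel) (CovZ.badM (by decide +kernel)))

theorem TF_s5_0 : SqZ TF_M TF_L [0, 7, 4, 3] (-7680) (-7680) 2560 5 0 :=
  SqZ.mk (a := 5120) (b := 7680) (c := (-7680)) (d := (-5120)) (by norm_num) (by norm_num) (by norm_num) (by norm_num)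
    (CovZ.topM TF_LL 0 (by decide +kernel) (CovZ.badM (by decide +kernel)))
    (CovZ.topM TF_LL 0 (by decide +kernel) (CovZ.badM (by decide +kernel)))

theorem TF_s6_0 : SqZ TF_M TF_L [0, 7, 4, 3] (-7680) (-7680) 2560 6 0 :=
  SqZ.mk (a := 7680) (b := 10240) (c := (-7680)) (d := (-5120)) (by norm_num) (by norm_num) (by norm_num) (by norm_num)
    (CovZ.topM TF_LL 0 (by decide +kernel) (CovZ.badM (by decide +kernel)))
    (CovZ.topM TF_LL 0 (by decide +kernel) (CovZ.badM (by decide +kernel)))

theorem TF_s7_0 : SqZ TF_M TF_L [0, 7, 4, 3] (-7680) (-7680) 2560 7 0 :=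
  SqZ.mk (a := 10240) (b := 12800) (c := (-7680)) (d := (-5120)) (by norm_num) (by norm_num) (by norm_num) (by norm_num)
    (CovZ.topM TF_LL 8 (by decide +kernel) (CovZ.n2 (11520, -6400) (by decide +kernel)
    (CovZ.n2 (12800, -6400) (by decide +kernel)
     (CovZ.badM (by decide +kernel))
     (CovZ.n1 (12160, -5760) (by decide +kernel)
      (CovZ.n2 (12800, -5760) (by decide +kernel)
       (CovZ.badM (by decide +kernel))
       (CovZ.n1 (12480, -5440) (by decide +kernel)
        (CovZ.n2 (12800, -5440) (by decide +kernel)
         (CovZ.badM (by decide +kernel))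
         (CovZ.n1 (12640, -5280) (by decide +kernel)
          (CovZ.n2 (12800, -5280) (by decide +kernel)
           (CovZ.badM (by decide +kernel))
           (CovZ.leaf K2_ok TF_l13300 _))
          (CovZ.badM (by decide +kernel))))
        (CovZ.badM (by decide +kernel))))
      (CovZ.badM (by decide +kernel))))
    (CovZ.badM (by decide +kernel))))
    (CovZ.topM TF_LL 2097160 (by decide +kernel) (CovZ.n0 (11520, -6400) (by decide +kernel)
    (CovZ.badM (by decide +kernel))
    (CovZ.n1 (11520, -5120) (by decide +kernel)
     (CovZ.n2 (12160, -5760) (by decide +kernel)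
      (CovZ.n2 (11520, -5760) (by decide +kernel)
       (CovZ.n2 (11840, -5440) (by decide +kernel)
        (CovZ.badM (by decide +kernel))
        (CovZ.n1 (11520, -5440) (by decide +kernel)
         (CovZ.n2 (11680, -5280) (by decide +kernel)
          (CovZ.badM (by decide +kernel))
          (CovZ.badM (by decide +kernel)))
         (CovZ.badM (by decide +kernel))))
       (CovZ.badM (by decide +kernel)))
      (CovZ.n1 (12160, -5120) (by decide +kernel)
       (CovZ.n2 (12480, -5440) (by decide +kernel)
        (CovZ.badM (by decide +kernel))
        (CovZ.n1 (12480, -5120) (by decide +kernel)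
         (CovZ.n2 (12640, -5280) (by decide +kernel)
          (CovZ.badM (by decide +kernel))
          (CovZ.leaf K2_ok TF_l13301 _))
         (CovZ.badM (by decide +kernel))))
       (CovZ.n1 (11840, -5440) (by decide +kernel)
        (CovZ.n2 (11840, -5120) (by decide +kernel)
         (CovZ.badM (by decide +kernel))
         (CovZ.n1 (11680, -5280) (by decide +kernel)
          (CovZ.n2 (11680, -5120) (by decide +kernel)
           (CovZ.badM (by decide +kernel))
           (CovZ.badM (by decide +kernel)))
          (CovZ.badM (by decide +kernel))))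
        (CovZ.badM (by decide +kernel)))))
     (CovZ.badM (by decide +kernel)))))

theorem TF_s8_0 : SqZ TF_M TF_L [0, 7, 4, 3] (-7680) (-7680) 2560 8 0 :=
  SqZ.mk (a := 12800) (b := 15360) (c := (-7680)) (d := (-5120)) (by norm_num) (by norm_num) (by norm_num) (by norm_num)
    (CovZ.topM TF_LL 103679783673699393722931439366085542184 (by decide +kernel) (CovZ.n2 (14080, -6400) (by decide +kernel)
    (CovZ.n2 (15360, -6400) (by decide +kernel)
     (CovZ.subM 90387503713374279357458880100137173248 (by decide +kernel)
      (CovZ.n2 (14720, -7040) (by decide +kernel)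
       (CovZ.n2 (14720, -6400) (by decide +kernel)
        (CovZ.n2 (15040, -6720) (by decide +kernel)
         (CovZ.badM (by decide +kernel))
         (CovZ.n1 (15040, -6400) (by decide +kernel)
          (CovZ.n2 (15200, -6560) (by decide +kernel)
           (CovZ.badM (by decide +kernel))
           (CovZ.n1 (15200, -6400) (by decide +kernel)
            (CovZ.n2 (15280, -6480) (by decide +kernel)
             (CovZ.badM (by decide +kernel))
             (CovZ.n1 (15280, -6400) (by decide +kernel)
              (CovZ.badM (by decide +kernel))
              (CovZ.badM (by decide +kernel))))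
            (CovZ.badM (by decide +kernel))))
          (CovZ.badM (by decide +kernel))))
        (CovZ.n1 (14400, -6720) (by decide +kernel)
         (CovZ.n2 (14400, -6400) (by decide +kernel)
          (CovZ.badM (by decide +kernel))
          (CovZ.badM (by decide +kernel)))
         (CovZ.badM (by decide +kernel))))
       (CovZ.n1 (15360, -7040) (by decide +kernel)
        (CovZ.badM (by decide +kernel))
        (CovZ.n1 (15040, -6720) (by decide +kernel)
         (CovZ.n2 (15360, -6720) (by decide +kernel)
          (CovZ.badM (by decide +kernel))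
          (CovZ.n1 (15200, -6560) (by decide +kernel)
           (CovZ.badM (by decide +kernel))
           (CovZ.badM (by decide +kernel))))
         (CovZ.badM (by decide +kernel))))))
     (CovZ.n1 (14720, -5760) (by decide +kernel)
      (CovZ.n2 (15360, -5760) (by decide +kernel)
       (CovZ.n2 (15040, -6080) (by decide +kernel)
        (CovZ.n2 (15040, -5760) (by decide +kernel)
         (CovZ.n2 (15200, -5920) (by decide +kernel)
          (CovZ.leaf K2_ok TF_l5249 _)
          (CovZ.leaf K2_ok TF_l5250 _))
         (CovZ.subM 90387503715850159436029640649935421728 (by decide +kernel)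
          (CovZ.n1 (14880, -5920) (by decide +kernel)
           (CovZ.n2 (14880, -5760) (by decide +kernel)
            (CovZ.leaf K2_ok TF_l5251 _)
            (CovZ.leaf K2_ok TF_l5252 _))
           (CovZ.n1 (15040, -5920) (by decide +kernel)
            (CovZ.n2 (14960, -6000) (by decide +kernel)
             (CovZ.leaf K2_ok TF_l5253 _)
             (CovZ.leaf K2_ok TF_l5254 _))
            (CovZ.leaf K2_ok TF_l5255 _)))))
        (CovZ.n1 (15360, -6080) (by decide +kernel)
         (CovZ.n2 (15200, -6240) (by decide +kernel)
          (CovZ.n2 (15200, -6080) (by decide +kernel)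
           (CovZ.leaf K2_ok TF_l5256 _)
           (CovZ.n1 (15120, -6160) (by decide +kernel)
            (CovZ.leaf K2_ok TF_l5257 _)
            (CovZ.leaf K2_ok TF_l5258 _)))
          (CovZ.n1 (15360, -6240) (by decide +kernel)
           (CovZ.n2 (15280, -6320) (by decide +kernel)
            (CovZ.n2 (15280, -6240) (by decide +kernel)
             (CovZ.leaf K2_ok TF_l5259 _)
             (CovZ.leaf K2_ok TF_l5260 _))
            (CovZ.n1 (15360, -6320) (by decide +kernel)
             (CovZ.n2 (15320, -6360) (by decide +kernel)
              (CovZ.leaf K2_ok TF_l5261 _)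
              (CovZ.leaf K2_ok TF_l13617 _))
             (CovZ.leaf K2_ok TF_l5262 _)))
           (CovZ.n1 (15280, -6160) (by decide +kernel)
            (CovZ.leaf K2_ok TF_l5263 _)
            (CovZ.leaf K2_ok TF_l5264 _))))
         (CovZ.n1 (15200, -5920) (by decide +kernel)
          (CovZ.leaf K2_ok TF_l5265 _)
          (CovZ.leaf K2_ok TF_l5266 _))))
       (CovZ.n1 (15040, -5440) (by decide +kernel)
        (CovZ.n2 (15360, -5440) (by decide +kernel)
         (CovZ.leaf K2_ok TF_l5267 _)
         (CovZ.leaf K2_ok TF_l5268 _))
        (CovZ.n1 (15040, -5760) (by decide +kernel)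
         (CovZ.n2 (14880, -5600) (by decide +kernel)
          (CovZ.leaf K2_ok TF_l5269 _)
          (CovZ.leaf K2_ok TF_l5270 _))
         (CovZ.leaf K2_ok TF_l5271 _))))
      (CovZ.n1 (14720, -6400) (by decide +kernel)
       TF_u0
       TF_u1)))
    (CovZ.subM 256 (by decide +kernel)
     (CovZ.n1 (14080, -7680) (by decide +kernel)
      (CovZ.badM (by decide +kernel))
      (CovZ.n1 (14720, -7040) (by decide +kernel)
       (CovZ.badM (by decide +kernel))
       (CovZ.n1 (14080, -7040) (by decide +kernel)
        (CovZ.n2 (14400, -6720) (by decide +kernel)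
         (CovZ.badM (by decide +kernel))
         (CovZ.badM (by decide +kernel)))
        (CovZ.badM (by decide +kernel))))))))
    (CovZ.topM TF_LL 103679783673699318165067713451762123048 (by decide +kernel) (CovZ.n0 (14080, -6400) (by decide +kernel)
    (CovZ.subM 8 (by decide +kernel)
     (CovZ.n2 (12800, -6400) (by decide +kernel)
      (CovZ.n2 (13440, -5760) (by decide +kernel)
       (CovZ.badM (by decide +kernel))
       (CovZ.n1 (12800, -5760) (by decide +kernel)
        (CovZ.n2 (13120, -5440) (by decide +kernel)
         (CovZ.badM (by decide +kernel))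
         (CovZ.n1 (12800, -5440) (by decide +kernel)
          (CovZ.n2 (12960, -5280) (by decide +kernel)
           (CovZ.n2 (12960, -5440) (by decide +kernel)
            (CovZ.leaf K2_ok TF_l13671 _)
            (CovZ.leaf K2_ok TF_l13672 _))
           (CovZ.leaf K2_ok TF_l13673 _))
          (CovZ.badM (by decide +kernel))))
        (CovZ.badM (by decide +kernel))))
      (CovZ.badM (by decide +kernel))))
    (CovZ.n1 (14080, -5120) (by decide +kernel)
     (CovZ.n2 (14720, -5760) (by decide +kernel)
      (CovZ.subM 264 (by decide +kernel)
       (CovZ.n2 (14080, -5760) (by decide +kernel)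
        (CovZ.n2 (14400, -5440) (by decide +kernel)
         (CovZ.n2 (14400, -5760) (by decide +kernel)
          (CovZ.n2 (14240, -5600) (by decide +kernel)
           (CovZ.n2 (14400, -5600) (by decide +kernel)
            (CovZ.badM (by decide +kernel))
            (CovZ.leaf K2_ok TF_l13674 _))
           (CovZ.badM (by decide +kernel)))
          (CovZ.n1 (14560, -5600) (by decide +kernel)
           (CovZ.n2 (14560, -5760) (by decide +kernel)
            (CovZ.badM (by decide +kernel))
            (CovZ.leaf K2_ok TF_l13675 _))
           (CovZ.leaf K2_ok TF_l13676 _)))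
         (CovZ.n1 (14080, -5440) (by decide +kernel)
          (CovZ.leaf K2_ok TF_l13677 _)
          (CovZ.n1 (14240, -5600) (by decide +kernel)
           (CovZ.n2 (14080, -5600) (by decide +kernel)
            (CovZ.leaf K2_ok TF_l13678 _)
            (CovZ.badM (by decide +kernel)))
           (CovZ.n1 (14240, -5440) (by decide +kernel)
            (CovZ.leaf K2_ok TF_l13679 _)
            (CovZ.leaf K2_ok TF_l13680 _)))))
        (CovZ.n1 (14400, -6080) (by decide +kernel)
         (CovZ.badM (by decide +kernel))
         (CovZ.n1 (14400, -5760) (by decide +kernel)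
          (CovZ.n2 (14560, -5920) (by decide +kernel)
           (CovZ.badM (by decide +kernel))
           (CovZ.n1 (14560, -5760) (by decide +kernel)
            (CovZ.n2 (14640, -5840) (by decide +kernel)
             (CovZ.leaf K2_ok TF_l13681 _)
             (CovZ.leaf K2_ok TF_l13682 _))
            (CovZ.badM (by decide +kernel))))
          (CovZ.badM (by decide +kernel))))))
      (CovZ.n1 (14720, -5120) (by decide +kernel)
       (CovZ.n2 (15040, -5440) (by decide +kernel)
        (CovZ.n2 (14720, -5440) (by decide +kernel)
         (CovZ.leaf K2_ok TF_l5298 _)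
         (CovZ.n1 (14880, -5600) (by decide +kernel)
          (CovZ.leaf K2_ok TF_l5299 _)
          (CovZ.leaf K2_ok TF_l5300 _)))
        (CovZ.leaf K2_ok TF_l5301 _))
       (CovZ.subM 90387503715850159436029640649935421704 (by decide +kernel)
        (CovZ.n1 (14400, -5440) (by decide +kernel)
         (CovZ.n2 (14400, -5120) (by decide +kernel)
          (CovZ.leaf K2_ok TF_l5302 _)
          (CovZ.n1 (14240, -5280) (by decide +kernel)
           (CovZ.leaf K2_ok TF_l5303 _)
           (CovZ.leaf K2_ok TF_l5304 _)))
         (CovZ.n1 (14720, -5440) (by decide +kernel)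
          (CovZ.n2 (14560, -5600) (by decide +kernel)
           (CovZ.leaf K2_ok TF_l5305 _)
           (CovZ.n1 (14720, -5600) (by decide +kernel)
            (CovZ.leaf K2_ok TF_l5306 _)
            (CovZ.leaf K2_ok TF_l5307 _)))
          (CovZ.leaf K2_ok TF_l5308 _))))))
     (CovZ.subM 8 (by decide +kernel)
      (CovZ.n1 (13440, -5760) (by decide +kernel)
       (CovZ.n2 (13440, -5120) (by decide +kernel)
        (CovZ.n2 (13760, -5440) (by decide +kernel)
         (CovZ.n2 (13440, -5440) (by decide +kernel)
          (CovZ.leaf K2_ok TF_l13683 _)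
          (CovZ.badM (by decide +kernel)))
         (CovZ.n1 (13760, -5120) (by decide +kernel)
          (CovZ.n2 (13920, -5280) (by decide +kernel)
           (CovZ.leaf K2_ok TF_l13684 _)
           (CovZ.leaf K2_ok TF_l13685 _))
          (CovZ.n1 (13600, -5280) (by decide +kernel)
           (CovZ.leaf K2_ok TF_l13686 _)
           (CovZ.leaf K2_ok TF_l13687 _))))
        (CovZ.n1 (13120, -5440) (by decide +kernel)
         (CovZ.n2 (13120, -5120) (by decide +kernel)
          (CovZ.n2 (13280, -5280) (by decide +kernel)
           (CovZ.leaf K2_ok TF_l13688 _)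
           (CovZ.leaf K2_ok TF_l13689 _))
          (CovZ.n1 (12960, -5280) (by decide +kernel)
           (CovZ.leaf K2_ok TF_l13690 _)
           (CovZ.n1 (13120, -5280) (by decide +kernel)
            (CovZ.leaf K2_ok TF_l13691 _)
            (CovZ.leaf K2_ok TF_l13692 _))))
         (CovZ.n1 (13440, -5440) (by decide +kernel)
          (CovZ.badM (by decide +kernel))
          (CovZ.n1 (13280, -5280) (by decide +kernel)
           (CovZ.n2 (13440, -5280) (by decide +kernel)
            (CovZ.leaf K2_ok TF_l13693 _)
            (CovZ.leaf K2_ok TF_l13694 _))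
           (CovZ.n1 (13280, -5440) (by decide +kernel)
            (CovZ.leaf K2_ok TF_l13695 _)
            (CovZ.leaf K2_ok TF_l13696 _))))))
       (CovZ.n1 (14080, -5760) (by decide +kernel)
        (CovZ.badM (by decide +kernel))
        (CovZ.n1 (13760, -5440) (by decide +kernel)
         (CovZ.n2 (14080, -5440) (by decide +kernel)
          (CovZ.n2 (13920, -5600) (by decide +kernel)
           (CovZ.n2 (13920, -5440) (by decide +kernel)
            (CovZ.leaf K2_ok TF_l13697 _)
            (CovZ.badM (by decide +kernel)))
           (CovZ.n1 (14080, -5600) (by decide +kernel)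
            (CovZ.badM (by decide +kernel))
            (CovZ.leaf K2_ok TF_l13698 _)))
          (CovZ.n1 (13920, -5280) (by decide +kernel)
           (CovZ.leaf K2_ok TF_l13699 _)
           (CovZ.leaf K2_ok TF_l13700 _)))
         (CovZ.badM (by decide +kernel)))))))))

theorem TF_s9_0 : SqZ TF_M TF_L [0, 7, 4, 3] (-7680) (-7680) 2560 9 0 :=
  SqZ.mk (a := 15360) (b := 17920) (c := (-7680)) (d := (-5120)) (by norm_num) (by norm_num) (by norm_num) (by norm_num)
    (CovZ.topM TF_LL 11298440503206223874216279178943135784 (by decide +kernel) (CovZ.n2 (16640, -6400) (by decide +kernel)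
    (CovZ.n2 (17920, -6400) (by decide +kernel)
     (CovZ.n2 (17280, -7040) (by decide +kernel)
      (CovZ.badM (by decide +kernel))
      (CovZ.badM (by decide +kernel)))
     (CovZ.n1 (17280, -5760) (by decide +kernel)
      (CovZ.n2 (17920, -5760) (by decide +kernel)
       (CovZ.n2 (17600, -6080) (by decide +kernel)
        (CovZ.n2 (17600, -5760) (by decide +kernel)
         (CovZ.n2 (17760, -5920) (by decide +kernel)
          (CovZ.subM 2475955645675901487861989416 (by decide +kernel)
           (CovZ.n2 (17600, -5920) (by decide +kernel)
            (CovZ.leaf K2_ok TF_l5534 _)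
            (CovZ.n1 (17680, -6000) (by decide +kernel)
             (CovZ.n2 (17600, -6000) (by decide +kernel)
              (CovZ.leaf K2_ok TF_l5535 _)
              (CovZ.n1 (17640, -6040) (by decide +kernel)
               (CovZ.leaf K2_ok TF_l5536 _)
               (CovZ.leaf K2_ok TF_l5537 _)))
             (CovZ.n1 (17680, -5920) (by decide +kernel)
              (CovZ.leaf K2_ok TF_l5538 _)
              (CovZ.leaf K2_ok TF_l5539 _)))))
          (CovZ.n1 (17760, -5760) (by decide +kernel)
           (CovZ.n2 (17840, -5840) (by decide +kernel)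
            (CovZ.leaf K2_ok TF_l5540 _)
            (CovZ.leaf K2_ok TF_l5541 _))
           (CovZ.leaf K2_ok TF_l5542 _)))
         (CovZ.subM 2475955645675892691768967208 (by decide +kernel)
          (CovZ.n1 (17440, -5920) (by decide +kernel)
           (CovZ.n2 (17440, -5760) (by decide +kernel)
            (CovZ.leaf K2_ok TF_l5543 _)
            (CovZ.leaf K2_ok TF_l5544 _))
           (CovZ.n1 (17600, -5920) (by decide +kernel)
            (CovZ.n2 (17520, -6000) (by decide +kernel)
             (CovZ.leaf K2_ok TF_l5545 _)
             (CovZ.n1 (17600, -6000) (by decide +kernel)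
              (CovZ.leaf K2_ok TF_l5546 _)
              (CovZ.leaf K2_ok TF_l5547 _)))
            (CovZ.leaf K2_ok TF_l5548 _)))))
        (CovZ.subM 2475880087812173718112698408 (by decide +kernel)
         (CovZ.n1 (17920, -6080) (by decide +kernel)
          (CovZ.subM 9241412823643324416 (by decide +kernel)
           (CovZ.n2 (17760, -6240) (by decide +kernel)
            (CovZ.n2 (17760, -6080) (by decide +kernel)
             (CovZ.n2 (17840, -6160) (by decide +kernel)
              (CovZ.n2 (17760, -6160) (by decide +kernel)
               (CovZ.n2 (17800, -6120) (by decide +kernel)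
                (CovZ.n2 (17800, -6160) (by decide +kernel)
                 (CovZ.n2 (17780, -6140) (by decide +kernel)
                  (CovZ.n2 (17800, -6140) (by decide +kernel)
                   (CovZ.badM (by decide +kernel))
                   (CovZ.leaf K2_ok TF_l13842 _))
                  (CovZ.badM (by decide +kernel)))
                 (CovZ.n1 (17820, -6140) (by decide +kernel)
                  (CovZ.badM (by decide +kernel))
                  (CovZ.n1 (17800, -6140) (by decide +kernel)
                   (CovZ.leaf K2_ok TF_l13843 _)
                   (CovZ.badM (by decide +kernel)))))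
                (CovZ.n1 (17760, -6120) (by decide +kernel)
                 (CovZ.leaf K2_ok TF_l13844 _)
                 (CovZ.n1 (17780, -6140) (by decide +kernel)
                  (CovZ.leaf K2_ok TF_l13845 _)
                  (CovZ.leaf K2_ok TF_l13846 _))))
               (CovZ.badM (by decide +kernel)))
              (CovZ.n1 (17840, -6080) (by decide +kernel)
               (CovZ.n2 (17880, -6120) (by decide +kernel)
                (CovZ.n2 (17840, -6120) (by decide +kernel)
                 (CovZ.leaf K2_ok TF_l13847 _)
                 (CovZ.n1 (17860, -6140) (by decide +kernel)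
                  (CovZ.n2 (17840, -6140) (by decide +kernel)
                   (CovZ.leaf K2_ok TF_l13848 _)
                   (CovZ.badM (by decide +kernel)))
                  (CovZ.leaf K2_ok TF_l13849 _)))
                (CovZ.n1 (17880, -6080) (by decide +kernel)
                 (CovZ.leaf K2_ok TF_l13850 _)
                 (CovZ.leaf K2_ok TF_l13851 _)))
               (CovZ.n1 (17800, -6120) (by decide +kernel)
                (CovZ.n2 (17800, -6080) (by decide +kernel)
                 (CovZ.leaf K2_ok TF_l13852 _)
                 (CovZ.leaf K2_ok TF_l13853 _))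
                (CovZ.n1 (17840, -6120) (by decide +kernel)
                 (CovZ.n2 (17820, -6140) (by decide +kernel)
                  (CovZ.leaf K2_ok TF_l13854 _)
                  (CovZ.n1 (17840, -6140) (by decide +kernel)
                   (CovZ.badM (by decide +kernel))
                   (CovZ.leaf K2_ok TF_l13855 _)))
                 (CovZ.leaf K2_ok TF_l13856 _)))))
             (CovZ.n1 (17680, -6160) (by decide +kernel)
              (CovZ.n2 (17680, -6080) (by decide +kernel)
               (CovZ.n2 (17720, -6120) (by decide +kernel)
                (CovZ.n2 (17680, -6120) (by decide +kernel)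
                 (CovZ.leaf K2_ok TF_l13857 _)
                 (CovZ.n1 (17700, -6140) (by decide +kernel)
                  (CovZ.leaf K2_ok TF_l13858 _)
                  (CovZ.leaf K2_ok TF_l13859 _)))
                (CovZ.n1 (17720, -6080) (by decide +kernel)
                 (CovZ.leaf K2_ok TF_l13860 _)
                 (CovZ.leaf K2_ok TF_l13861 _)))
               (CovZ.n1 (17640, -6120) (by decide +kernel)
                (CovZ.n2 (17640, -6080) (by decide +kernel)
                 (CovZ.leaf K2_ok TF_l13862 _)
                 (CovZ.leaf K2_ok TF_l13863 _))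
                (CovZ.n1 (17680, -6120) (by decide +kernel)
                 (CovZ.n2 (17660, -6140) (by decide +kernel)
                  (CovZ.leaf K2_ok TF_l13864 _)
                  (CovZ.leaf K2_ok TF_l13865 _))
                 (CovZ.leaf K2_ok TF_l13866 _))))
              (CovZ.n1 (17760, -6160) (by decide +kernel)
               (CovZ.badM (by decide +kernel))
               (CovZ.n1 (17720, -6120) (by decide +kernel)
                (CovZ.n2 (17760, -6120) (by decide +kernel)
                 (CovZ.n2 (17740, -6140) (by decide +kernel)
                  (CovZ.leaf K2_ok TF_l13867 _)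
                  (CovZ.n1 (17760, -6140) (by decide +kernel)
                   (CovZ.leaf K2_ok TF_l13868 _)
                   (CovZ.leaf K2_ok TF_l13869 _)))
                 (CovZ.leaf K2_ok TF_l13870 _))
                (CovZ.n1 (17720, -6160) (by decide +kernel)
                 (CovZ.n2 (17700, -6140) (by decide +kernel)
                  (CovZ.n2 (17720, -6140) (by decide +kernel)
                   (CovZ.leaf K2_ok TF_l13871 _)
                   (CovZ.leaf K2_ok TF_l13872 _))
                  (CovZ.n1 (17700, -6160) (by decide +kernel)
                   (CovZ.leaf K2_ok TF_l13873 _)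
                   (CovZ.leaf K2_ok TF_l13874 _)))
                 (CovZ.n1 (17740, -6140) (by decide +kernel)
                  (CovZ.n2 (17740, -6160) (by decide +kernel)
                   (CovZ.leaf K2_ok TF_l13875 _)
                   (CovZ.leaf K2_ok TF_l13876 _))
                  (CovZ.leaf K2_ok TF_l13877 _)))))))
            (CovZ.n1 (17920, -6240) (by decide +kernel)
             (CovZ.badM (by decide +kernel))
             (CovZ.n1 (17840, -6160) (by decide +kernel)
              (CovZ.n2 (17920, -6160) (by decide +kernel)
               (CovZ.badM (by decide +kernel))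
               (CovZ.n1 (17880, -6120) (by decide +kernel)
                (CovZ.n2 (17920, -6120) (by decide +kernel)
                 (CovZ.n2 (17900, -6140) (by decide +kernel)
                  (CovZ.leaf K2_ok TF_l13878 _)
                  (CovZ.n1 (17920, -6140) (by decide +kernel)
                   (CovZ.badM (by decide +kernel))
                   (CovZ.leaf K2_ok TF_l13879 _)))
                 (CovZ.leaf K2_ok TF_l13880 _))
                (CovZ.n1 (17880, -6160) (by decide +kernel)
                 (CovZ.n2 (17860, -6140) (by decide +kernel)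
                  (CovZ.n2 (17880, -6140) (by decide +kernel)
                   (CovZ.badM (by decide +kernel))
                   (CovZ.leaf K2_ok TF_l13881 _))
                  (CovZ.badM (by decide +kernel)))
                 (CovZ.n1 (17900, -6140) (by decide +kernel)
                  (CovZ.badM (by decide +kernel))
                  (CovZ.leaf K2_ok TF_l13882 _)))))
              (CovZ.badM (by decide +kernel))))))
          (CovZ.n1 (17760, -5920) (by decide +kernel)
           (CovZ.n2 (17920, -5920) (by decide +kernel)
            (CovZ.n2 (17840, -6000) (by decide +kernel)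
             (CovZ.n2 (17840, -5920) (by decide +kernel)
              (CovZ.leaf K2_ok TF_l5549 _)
              (CovZ.leaf K2_ok TF_l5550 _))
             (CovZ.n1 (17920, -6000) (by decide +kernel)
              (CovZ.n2 (17880, -6040) (by decide +kernel)
               (CovZ.leaf K2_ok TF_l5551 _)
               (CovZ.leaf K2_ok TF_l5552 _))
              (CovZ.leaf K2_ok TF_l5553 _)))
            (CovZ.n1 (17840, -5840) (by decide +kernel)
             (CovZ.leaf K2_ok TF_l5554 _)
             (CovZ.leaf K2_ok TF_l5555 _)))
           (CovZ.n1 (17760, -6080) (by decide +kernel)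
            (CovZ.n2 (17680, -6000) (by decide +kernel)
             (CovZ.n2 (17760, -6000) (by decide +kernel)
              (CovZ.leaf K2_ok TF_l5556 _)
              (CovZ.leaf K2_ok TF_l5557 _))
             (CovZ.n1 (17680, -6080) (by decide +kernel)
              (CovZ.n2 (17640, -6040) (by decide +kernel)
               (CovZ.leaf K2_ok TF_l5558 _)
               (CovZ.leaf K2_ok TF_l5559 _))
              (CovZ.leaf K2_ok TF_l5560 _)))
            (CovZ.n1 (17840, -6000) (by decide +kernel)
             (CovZ.n2 (17840, -6080) (by decide +kernel)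
              (CovZ.n2 (17800, -6040) (by decide +kernel)
               (CovZ.leaf K2_ok TF_l5561 _)
               (CovZ.leaf K2_ok TF_l5562 _))
              (CovZ.leaf K2_ok TF_l5563 _))
             (CovZ.n1 (17760, -6000) (by decide +kernel)
              (CovZ.leaf K2_ok TF_l5564 _)
              (CovZ.n1 (17800, -6040) (by decide +kernel)
               (CovZ.leaf K2_ok TF_l5565 _)
               (CovZ.leaf K2_ok TF_l5566 _)))))))))
       (CovZ.n1 (17600, -5440) (by decide +kernel)
        (CovZ.n2 (17920, -5440) (by decide +kernel)
         (CovZ.n2 (17760, -5600) (by decide +kernel)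
          (CovZ.leaf K2_ok TF_l5567 _)
          (CovZ.leaf K2_ok TF_l5568 _))
         (CovZ.leaf K2_ok TF_l5569 _))
        (CovZ.n1 (17600, -5760) (by decide +kernel)
         (CovZ.n2 (17440, -5600) (by decide +kernel)
          (CovZ.leaf K2_ok TF_l5570 _)
          (CovZ.leaf K2_ok TF_l5571 _))
         (CovZ.leaf K2_ok TF_l5572 _))))
      (CovZ.subM 2475955645675901487861989416 (by decide +kernel)
       (CovZ.n1 (17280, -6400) (by decide +kernel)
        TF_u2
        TF_u3))))
    (CovZ.subM 11298437964171784919682360012382928896 (by decide +kernel)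
     (CovZ.n1 (16640, -7680) (by decide +kernel)
      (CovZ.n2 (16000, -7040) (by decide +kernel)
       (CovZ.badM (by decide +kernel))
       (CovZ.badM (by decide +kernel)))
      (CovZ.n1 (17280, -7040) (by decide +kernel)
       (CovZ.badM (by decide +kernel))
       (CovZ.badM (by decide +kernel)))))))
    (CovZ.topM TF_LL 103679786210257877041030869868427084072 (by decide +kernel) (CovZ.n0 (16640, -6400) (by decide +kernel)
    TF_u6
    TF_u7))

theorem TF_s10_0 : SqZ TF_M TF_L [0, 7, 4, 3] (-7680) (-7680) 2560 10 0 :=
  SqZ.mk (a := 17920) (b := 20480) (c := (-7680)) (d := (-5120)) (by norm_num) (by norm_num) (by norm_num) (by norm_num)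
    (CovZ.topM TF_LL 5194835892898224298712684730253864 (by decide +kernel) (CovZ.n2 (19200, -6400) (by decide +kernel)
    (CovZ.n2 (20480, -6400) (by decide +kernel)
     (CovZ.badM (by decide +kernel))
     (CovZ.n1 (19840, -5760) (by decide +kernel)
      (CovZ.n2 (20480, -5760) (by decide +kernel)
       (CovZ.subM 2536558483308858017336174575656 (by decide +kernel)
        (CovZ.n2 (20160, -6080) (by decide +kernel)
         (CovZ.n2 (20160, -5760) (by decide +kernel)
          (CovZ.n2 (20320, -5920) (by decide +kernel)
           (CovZ.n2 (20160, -5920) (by decide +kernel)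
            (CovZ.leaf K2_ok TF_l5906 _)
            (CovZ.n1 (20240, -6000) (by decide +kernel)
             (CovZ.leaf K2_ok TF_l5907 _)
             (CovZ.leaf K2_ok TF_l5908 _)))
           (CovZ.leaf K2_ok TF_l5909 _))
          (CovZ.n1 (20000, -5920) (by decide +kernel)
           (CovZ.n2 (20000, -5760) (by decide +kernel)
            (CovZ.leaf K2_ok TF_l5910 _)
            (CovZ.leaf K2_ok TF_l5911 _))
           (CovZ.n1 (20160, -5920) (by decide +kernel)
            (CovZ.n2 (20080, -6000) (by decide +kernel)
             (CovZ.leaf K2_ok TF_l5912 _)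
             (CovZ.leaf K2_ok TF_l5913 _))
            (CovZ.leaf K2_ok TF_l5914 _))))
         (CovZ.n1 (20480, -6080) (by decide +kernel)
          (CovZ.subM 8 (by decide +kernel)
           (CovZ.n2 (20320, -6240) (by decide +kernel)
            (CovZ.n2 (20320, -6080) (by decide +kernel)
             (CovZ.n2 (20400, -6160) (by decide +kernel)
              (CovZ.n2 (20320, -6160) (by decide +kernel)
               (CovZ.leaf K2_ok TF_l5915 _)
               (CovZ.n1 (20360, -6200) (by decide +kernel)
                (CovZ.badM (by decide +kernel))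
                (CovZ.leaf K2_ok TF_l14313 _)))
              (CovZ.n1 (20400, -6080) (by decide +kernel)
               (CovZ.leaf K2_ok TF_l5916 _)
               (CovZ.leaf K2_ok TF_l5917 _)))
             (CovZ.n1 (20240, -6160) (by decide +kernel)
              (CovZ.n2 (20240, -6080) (by decide +kernel)
               (CovZ.n2 (20280, -6120) (by decide +kernel)
                (CovZ.leaf K2_ok TF_l5918 _)
                (CovZ.leaf K2_ok TF_l5919 _))
               (CovZ.leaf K2_ok TF_l5920 _))
              (CovZ.n1 (20320, -6160) (by decide +kernel)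
               (CovZ.badM (by decide +kernel))
               (CovZ.n1 (20280, -6120) (by decide +kernel)
                (CovZ.leaf K2_ok TF_l5921 _)
                (CovZ.leaf K2_ok TF_l14314 _)))))
            (CovZ.n1 (20480, -6240) (by decide +kernel)
             (CovZ.badM (by decide +kernel))
             (CovZ.n1 (20400, -6160) (by decide +kernel)
              (CovZ.n2 (20480, -6160) (by decide +kernel)
               (CovZ.n2 (20440, -6200) (by decide +kernel)
                (CovZ.leaf K2_ok TF_l14315 _)
                (CovZ.n1 (20480, -6200) (by decide +kernel)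
                 (CovZ.badM (by decide +kernel))
                 (CovZ.leaf K2_ok TF_l14316 _)))
               (CovZ.leaf K2_ok TF_l5922 _))
              (CovZ.n1 (20400, -6240) (by decide +kernel)
               (CovZ.n2 (20360, -6200) (by decide +kernel)
                (CovZ.n2 (20400, -6200) (by decide +kernel)
                 (CovZ.badM (by decide +kernel))
                 (CovZ.leaf K2_ok TF_l14317 _))
                (CovZ.badM (by decide +kernel)))
               (CovZ.n1 (20440, -6200) (by decide +kernel)
                (CovZ.badM (by decide +kernel))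
                (CovZ.leaf K2_ok TF_l14318 _)))))))
          (CovZ.n1 (20320, -5920) (by decide +kernel)
           (CovZ.n2 (20480, -5920) (by decide +kernel)
            (CovZ.leaf K2_ok TF_l5923 _)
            (CovZ.leaf K2_ok TF_l5924 _))
           (CovZ.n1 (20320, -6080) (by decide +kernel)
            (CovZ.n2 (20240, -6000) (by decide +kernel)
             (CovZ.leaf K2_ok TF_l5925 _)
             (CovZ.leaf K2_ok TF_l5926 _))
            (CovZ.leaf K2_ok TF_l5927 _))))))
       (CovZ.n1 (20160, -5440) (by decide +kernel)
        (CovZ.n2 (20480, -5440) (by decide +kernel)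
         (CovZ.leaf K2_ok TF_l5928 _)
         (CovZ.leaf K2_ok TF_l5929 _))
        (CovZ.n1 (20160, -5760) (by decide +kernel)
         (CovZ.n2 (20000, -5600) (by decide +kernel)
          (CovZ.leaf K2_ok TF_l5930 _)
          (CovZ.leaf K2_ok TF_l5931 _))
         (CovZ.leaf K2_ok TF_l5932 _))))
      (CovZ.subM 2536558483318081389373029351464 (by decide +kernel)
       (CovZ.n1 (19840, -6400) (by decide +kernel)
        (CovZ.n2 (19520, -6080) (by decide +kernel)
         (CovZ.n2 (19840, -6080) (by decide +kernel)
          (CovZ.subM 8 (by decide +kernel)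
           (CovZ.n2 (19680, -6240) (by decide +kernel)
            (CovZ.n2 (19680, -6080) (by decide +kernel)
             (CovZ.n2 (19760, -6160) (by decide +kernel)
              (CovZ.n2 (19680, -6160) (by decide +kernel)
               (CovZ.n2 (19720, -6120) (by decide +kernel)
                (CovZ.badM (by decide +kernel))
                (CovZ.leaf K2_ok TF_l14319 _))
               (CovZ.badM (by decide +kernel)))
              (CovZ.n1 (19760, -6080) (by decide +kernel)
               (CovZ.n2 (19800, -6120) (by decide +kernel)
                (CovZ.leaf K2_ok TF_l14320 _)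
                (CovZ.leaf K2_ok TF_l14321 _))
               (CovZ.n1 (19720, -6120) (by decide +kernel)
                (CovZ.leaf K2_ok TF_l14322 _)
                (CovZ.n1 (19760, -6120) (by decide +kernel)
                 (CovZ.badM (by decide +kernel))
                 (CovZ.leaf K2_ok TF_l14323 _)))))
             (CovZ.n1 (19600, -6160) (by decide +kernel)
              (CovZ.n2 (19600, -6080) (by decide +kernel)
               (CovZ.n2 (19640, -6120) (by decide +kernel)
                (CovZ.badM (by decide +kernel))
                (CovZ.leaf K2_ok TF_l14324 _))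
               (CovZ.badM (by decide +kernel)))
              (CovZ.n1 (19680, -6160) (by decide +kernel)
               (CovZ.badM (by decide +kernel))
               (CovZ.n1 (19640, -6120) (by decide +kernel)
                (CovZ.n2 (19680, -6120) (by decide +kernel)
                 (CovZ.badM (by decide +kernel))
                 (CovZ.leaf K2_ok TF_l14325 _))
                (CovZ.badM (by decide +kernel))))))
            (CovZ.n1 (19840, -6240) (by decide +kernel)
             (CovZ.badM (by decide +kernel))
             (CovZ.n1 (19760, -6160) (by decide +kernel)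
              (CovZ.n2 (19840, -6160) (by decide +kernel)
               (CovZ.badM (by decide +kernel))
               (CovZ.n1 (19800, -6120) (by decide +kernel)
                (CovZ.leaf K2_ok TF_l14326 _)
                (CovZ.badM (by decide +kernel))))
              (CovZ.badM (by decide +kernel))))))
          (CovZ.n1 (19680, -5920) (by decide +kernel)
           (CovZ.n2 (19840, -5920) (by decide +kernel)
            (CovZ.n2 (19760, -6000) (by decide +kernel)
             (CovZ.leaf K2_ok TF_l5933 _)
             (CovZ.n1 (19840, -6000) (by decide +kernel)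
              (CovZ.leaf K2_ok TF_l5934 _)
              (CovZ.leaf K2_ok TF_l5935 _)))
            (CovZ.leaf K2_ok TF_l5936 _))
           (CovZ.subM 2535320543269572637060201709608 (by decide +kernel)
            (CovZ.n1 (19680, -6080) (by decide +kernel)
             (CovZ.n2 (19600, -6000) (by decide +kernel)
              (CovZ.n2 (19680, -6000) (by decide +kernel)
               (CovZ.leaf K2_ok TF_l5937 _)
               (CovZ.leaf K2_ok TF_l5938 _))
              (CovZ.n1 (19600, -6080) (by decide +kernel)
               (CovZ.leaf K2_ok TF_l5939 _)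
               (CovZ.leaf K2_ok TF_l5940 _)))
             (CovZ.leaf K2_ok TF_l5941 _)))))
         (CovZ.badM (by decide +kernel)))
        (CovZ.n1 (20160, -6080) (by decide +kernel)
         (CovZ.subM 8 (by decide +kernel)
          (CovZ.n2 (20160, -6400) (by decide +kernel)
           (CovZ.n2 (20000, -6240) (by decide +kernel)
            (CovZ.n2 (20160, -6240) (by decide +kernel)
             (CovZ.badM (by decide +kernel))
             (CovZ.n1 (20080, -6160) (by decide +kernel)
              (CovZ.n2 (20160, -6160) (by decide +kernel)
               (CovZ.badM (by decide +kernel))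
               (CovZ.n1 (20120, -6120) (by decide +kernel)
                (CovZ.leaf K2_ok TF_l5942 _)
                (CovZ.leaf K2_ok TF_l14327 _)))
              (CovZ.badM (by decide +kernel))))
            (CovZ.badM (by decide +kernel)))
           (CovZ.n1 (20320, -6240) (by decide +kernel)
            (CovZ.badM (by decide +kernel))
            (CovZ.n1 (20160, -6240) (by decide +kernel)
             (CovZ.n2 (20240, -6160) (by decide +kernel)
              (CovZ.badM (by decide +kernel))
              (CovZ.n1 (20160, -6160) (by decide +kernel)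
               (CovZ.leaf K2_ok TF_l5943 _)
               (CovZ.badM (by decide +kernel))))
             (CovZ.badM (by decide +kernel))))))
         (CovZ.n1 (19840, -6080) (by decide +kernel)
          (CovZ.n2 (20000, -5920) (by decide +kernel)
           (CovZ.n2 (20000, -6080) (by decide +kernel)
            (CovZ.n2 (19920, -6000) (by decide +kernel)
             (CovZ.leaf K2_ok TF_l5944 _)
             (CovZ.leaf K2_ok TF_l5945 _))
            (CovZ.leaf K2_ok TF_l5946 _))
           (CovZ.n1 (19840, -5920) (by decide +kernel)
            (CovZ.leaf K2_ok TF_l5947 _)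
            (CovZ.n1 (19920, -6000) (by decide +kernel)
             (CovZ.leaf K2_ok TF_l5948 _)
             (CovZ.leaf K2_ok TF_l5949 _))))
          (CovZ.subM 8 (by decide +kernel)
           (CovZ.n1 (20000, -6240) (by decide +kernel)
            (CovZ.n2 (19840, -6240) (by decide +kernel)
             (CovZ.n2 (19920, -6160) (by decide +kernel)
              (CovZ.badM (by decide +kernel))
              (CovZ.n1 (19840, -6160) (by decide +kernel)
               (CovZ.leaf K2_ok TF_l14328 _)
               (CovZ.badM (by decide +kernel))))
             (CovZ.badM (by decide +kernel)))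
            (CovZ.n1 (20000, -6080) (by decide +kernel)
             (CovZ.n2 (20080, -6160) (by decide +kernel)
              (CovZ.n2 (20000, -6160) (by decide +kernel)
               (CovZ.leaf K2_ok TF_l14329 _)
               (CovZ.badM (by decide +kernel)))
              (CovZ.n1 (20080, -6080) (by decide +kernel)
               (CovZ.n2 (20120, -6120) (by decide +kernel)
                (CovZ.leaf K2_ok TF_l14330 _)
                (CovZ.leaf K2_ok TF_l5950 _))
               (CovZ.n1 (20040, -6120) (by decide +kernel)
                (CovZ.leaf K2_ok TF_l14331 _)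
                (CovZ.leaf K2_ok TF_l14332 _))))
             (CovZ.n1 (19920, -6160) (by decide +kernel)
              (CovZ.n2 (19920, -6080) (by decide +kernel)
               (CovZ.n2 (19960, -6120) (by decide +kernel)
                (CovZ.n2 (19920, -6120) (by decide +kernel)
                 (CovZ.leaf K2_ok TF_l14333 _)
                 (CovZ.badM (by decide +kernel)))
                (CovZ.leaf K2_ok TF_l14334 _))
               (CovZ.n1 (19880, -6120) (by decide +kernel)
                (CovZ.leaf K2_ok TF_l14335 _)
                (CovZ.leaf K2_ok TF_l14336 _)))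
              (CovZ.n1 (20000, -6160) (by decide +kernel)
               (CovZ.badM (by decide +kernel))
               (CovZ.n1 (19960, -6120) (by decide +kernel)
                (CovZ.leaf K2_ok TF_l14337 _)
                (CovZ.badM (by decide +kernel))))))))))))))
    (CovZ.badM (by decide +kernel))))
    (CovZ.topM TF_LL 669808833785469497546216150191309352 (by decide +kernel) (CovZ.n0 (19200, -6400) (by decide +kernel)
    (CovZ.n2 (17920, -6400) (by decide +kernel)
     (CovZ.n2 (18560, -5760) (by decide +kernel)
      (CovZ.n2 (18560, -6400) (by decide +kernel)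
       TF_u8
       TF_u9)
      (CovZ.n1 (17920, -5760) (by decide +kernel)
       (CovZ.n2 (18240, -5440) (by decide +kernel)
        (CovZ.n2 (18240, -5760) (by decide +kernel)
         (CovZ.n2 (18080, -5600) (by decide +kernel)
          (CovZ.leaf K2_ok TF_l5988 _)
          (CovZ.leaf K2_ok TF_l5989 _))
         (CovZ.leaf K2_ok TF_l5990 _))
        (CovZ.n1 (17920, -5440) (by decide +kernel)
         (CovZ.leaf K2_ok TF_l5991 _)
         (CovZ.n1 (18080, -5600) (by decide +kernel)
          (CovZ.leaf K2_ok TF_l5992 _)
          (CovZ.leaf K2_ok TF_l5993 _))))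
       (CovZ.n1 (18240, -6080) (by decide +kernel)
        (CovZ.subM 2475880087812173718112698408 (by decide +kernel)
         (CovZ.n2 (17920, -6080) (by decide +kernel)
          (CovZ.n2 (18080, -5920) (by decide +kernel)
           (CovZ.n2 (18080, -6080) (by decide +kernel)
            (CovZ.n2 (18000, -6000) (by decide +kernel)
             (CovZ.n2 (18080, -6000) (by decide +kernel)
              (CovZ.n2 (18040, -6040) (by decide +kernel)
               (CovZ.leaf K2_ok TF_l5994 _)
               (CovZ.leaf K2_ok TF_l5995 _))
              (CovZ.leaf K2_ok TF_l5996 _))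
             (CovZ.n1 (18000, -6080) (by decide +kernel)
              (CovZ.n2 (17960, -6040) (by decide +kernel)
               (CovZ.leaf K2_ok TF_l5997 _)
               (CovZ.leaf K2_ok TF_l5998 _))
              (CovZ.leaf K2_ok TF_l5999 _)))
            (CovZ.n1 (18160, -6000) (by decide +kernel)
             (CovZ.n2 (18160, -6080) (by decide +kernel)
              (CovZ.n2 (18120, -6040) (by decide +kernel)
               (CovZ.leaf K2_ok TF_l6000 _)
               (CovZ.leaf K2_ok TF_l6001 _))
              (CovZ.leaf K2_ok TF_l6002 _))
             (CovZ.n1 (18080, -6000) (by decide +kernel)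
              (CovZ.leaf K2_ok TF_l6003 _)
              (CovZ.n1 (18120, -6040) (by decide +kernel)
               (CovZ.leaf K2_ok TF_l6004 _)
               (CovZ.leaf K2_ok TF_l6005 _)))))
           (CovZ.n1 (17920, -5920) (by decide +kernel)
            (CovZ.leaf K2_ok TF_l6006 _)
            (CovZ.n1 (18000, -6000) (by decide +kernel)
             (CovZ.n2 (17920, -6000) (by decide +kernel)
              (CovZ.leaf K2_ok TF_l6007 _)
              (CovZ.n1 (17960, -6040) (by decide +kernel)
               (CovZ.leaf K2_ok TF_l6008 _)
               (CovZ.leaf K2_ok TF_l6009 _)))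
             (CovZ.n1 (18000, -5920) (by decide +kernel)
              (CovZ.leaf K2_ok TF_l6010 _)
              (CovZ.leaf K2_ok TF_l6011 _)))))
          (CovZ.subM 9241412823643324416 (by decide +kernel)
           (CovZ.n1 (18080, -6240) (by decide +kernel)
            (CovZ.n2 (17920, -6240) (by decide +kernel)
             (CovZ.n2 (18000, -6160) (by decide +kernel)
              (CovZ.badM (by decide +kernel))
              (CovZ.n1 (17920, -6160) (by decide +kernel)
               (CovZ.n2 (17960, -6120) (by decide +kernel)
                (CovZ.n2 (17960, -6160) (by decide +kernel)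
                 (CovZ.n2 (17940, -6140) (by decide +kernel)
                  (CovZ.n2 (17960, -6140) (by decide +kernel)
                   (CovZ.badM (by decide +kernel))
                   (CovZ.leaf K2_ok TF_l14419 _))
                  (CovZ.badM (by decide +kernel)))
                 (CovZ.n1 (17980, -6140) (by decide +kernel)
                  (CovZ.badM (by decide +kernel))
                  (CovZ.n1 (17960, -6140) (by decide +kernel)
                   (CovZ.leaf K2_ok TF_l14420 _)
                   (CovZ.badM (by decide +kernel)))))
                (CovZ.n1 (17920, -6120) (by decide +kernel)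
                 (CovZ.leaf K2_ok TF_l14421 _)
                 (CovZ.n1 (17940, -6140) (by decide +kernel)
                  (CovZ.n2 (17920, -6140) (by decide +kernel)
                   (CovZ.leaf K2_ok TF_l14422 _)
                   (CovZ.badM (by decide +kernel)))
                  (CovZ.leaf K2_ok TF_l14423 _))))
               (CovZ.badM (by decide +kernel))))
             (CovZ.badM (by decide +kernel)))
            (CovZ.n1 (18080, -6080) (by decide +kernel)
             (CovZ.n2 (18160, -6160) (by decide +kernel)
              (CovZ.n2 (18080, -6160) (by decide +kernel)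
               (CovZ.n2 (18120, -6120) (by decide +kernel)
                (CovZ.n2 (18120, -6160) (by decide +kernel)
                 (CovZ.n2 (18100, -6140) (by decide +kernel)
                  (CovZ.n2 (18120, -6140) (by decide +kernel)
                   (CovZ.badM (by decide +kernel))
                   (CovZ.leaf K2_ok TF_l14424 _))
                  (CovZ.badM (by decide +kernel)))
                 (CovZ.n1 (18140, -6140) (by decide +kernel)
                  (CovZ.badM (by decide +kernel))
                  (CovZ.n1 (18120, -6140) (by decide +kernel)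
                   (CovZ.leaf K2_ok TF_l14425 _)
                   (CovZ.badM (by decide +kernel)))))
                (CovZ.n1 (18080, -6120) (by decide +kernel)
                 (CovZ.leaf K2_ok TF_l14426 _)
                 (CovZ.n1 (18100, -6140) (by decide +kernel)
                  (CovZ.n2 (18080, -6140) (by decide +kernel)
                   (CovZ.leaf K2_ok TF_l14427 _)
                   (CovZ.badM (by decide +kernel)))
                  (CovZ.leaf K2_ok TF_l14428 _))))
               (CovZ.badM (by decide +kernel)))
              (CovZ.n1 (18160, -6080) (by decide +kernel)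
               (CovZ.n2 (18200, -6120) (by decide +kernel)
                (CovZ.n2 (18160, -6120) (by decide +kernel)
                 (CovZ.leaf K2_ok TF_l14429 _)
                 (CovZ.n1 (18180, -6140) (by decide +kernel)
                  (CovZ.n2 (18160, -6140) (by decide +kernel)
                   (CovZ.leaf K2_ok TF_l14430 _)
                   (CovZ.badM (by decide +kernel)))
                  (CovZ.leaf K2_ok TF_l14431 _)))
                (CovZ.n1 (18200, -6080) (by decide +kernel)
                 (CovZ.n2 (18220, -6100) (by decide +kernel)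
                  (CovZ.leaf K2_ok TF_l14432 _)
                  (CovZ.leaf K2_ok TF_l14433 _))
                 (CovZ.leaf K2_ok TF_l14434 _)))
               (CovZ.n1 (18120, -6120) (by decide +kernel)
                (CovZ.n2 (18120, -6080) (by decide +kernel)
                 (CovZ.leaf K2_ok TF_l14435 _)
                 (CovZ.leaf K2_ok TF_l14436 _))
                (CovZ.n1 (18160, -6120) (by decide +kernel)
                 (CovZ.n2 (18140, -6140) (by decide +kernel)
                  (CovZ.leaf K2_ok TF_l14437 _)
                  (CovZ.n1 (18160, -6140) (by decide +kernel)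
                   (CovZ.badM (by decide +kernel))
                   (CovZ.leaf K2_ok TF_l14438 _)))
                 (CovZ.leaf K2_ok TF_l14439 _)))))
             (CovZ.n1 (18000, -6160) (by decide +kernel)
              (CovZ.n2 (18000, -6080) (by decide +kernel)
               (CovZ.n2 (18040, -6120) (by decide +kernel)
                (CovZ.n2 (18000, -6120) (by decide +kernel)
                 (CovZ.leaf K2_ok TF_l14440 _)
                 (CovZ.n1 (18020, -6140) (by decide +kernel)
                  (CovZ.n2 (18000, -6140) (by decide +kernel)
                   (CovZ.leaf K2_ok TF_l14441 _)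
                   (CovZ.badM (by decide +kernel)))
                  (CovZ.leaf K2_ok TF_l14442 _)))
                (CovZ.n1 (18040, -6080) (by decide +kernel)
                 (CovZ.n2 (18060, -6100) (by decide +kernel)
                  (CovZ.leaf K2_ok TF_l14443 _)
                  (CovZ.leaf K2_ok TF_l14444 _))
                 (CovZ.leaf K2_ok TF_l14445 _)))
               (CovZ.n1 (17960, -6120) (by decide +kernel)
                (CovZ.n2 (17960, -6080) (by decide +kernel)
                 (CovZ.leaf K2_ok TF_l14446 _)
                 (CovZ.leaf K2_ok TF_l14447 _))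
                (CovZ.n1 (18000, -6120) (by decide +kernel)
                 (CovZ.n2 (17980, -6140) (by decide +kernel)
                  (CovZ.n2 (17980, -6120) (by decide +kernel)
                   (CovZ.leaf K2_ok TF_l14448 _)
                   (CovZ.leaf K2_ok TF_l14449 _))
                  (CovZ.n1 (18000, -6140) (by decide +kernel)
                   (CovZ.badM (by decide +kernel))
                   (CovZ.leaf K2_ok TF_l14450 _)))
                 (CovZ.leaf K2_ok TF_l14451 _))))
              (CovZ.n1 (18080, -6160) (by decide +kernel)
               (CovZ.badM (by decide +kernel))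
               (CovZ.n1 (18040, -6120) (by decide +kernel)
                (CovZ.n2 (18080, -6120) (by decide +kernel)
                 (CovZ.n2 (18060, -6140) (by decide +kernel)
                  (CovZ.leaf K2_ok TF_l14452 _)
                  (CovZ.n1 (18080, -6140) (by decide +kernel)
                   (CovZ.badM (by decide +kernel))
                   (CovZ.leaf K2_ok TF_l14453 _)))
                 (CovZ.n1 (18060, -6100) (by decide +kernel)
                  (CovZ.leaf K2_ok TF_l14454 _)
                  (CovZ.leaf K2_ok TF_l14455 _)))
                (CovZ.n1 (18040, -6160) (by decide +kernel)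
                 (CovZ.n2 (18020, -6140) (by decide +kernel)
                  (CovZ.n2 (18040, -6140) (by decide +kernel)
                   (CovZ.badM (by decide +kernel))
                   (CovZ.leaf K2_ok TF_l14456 _))
                  (CovZ.badM (by decide +kernel)))
                 (CovZ.n1 (18060, -6140) (by decide +kernel)
                  (CovZ.badM (by decide +kernel))
                  (CovZ.n1 (18040, -6140) (by decide +kernel)
                   (CovZ.leaf K2_ok TF_l14457 _)
                   (CovZ.badM (by decide +kernel)))))))))))))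
        (CovZ.n1 (18240, -5760) (by decide +kernel)
         (CovZ.subM 664616535688881293818682317759053864 (by decide +kernel)
          (CovZ.n2 (18400, -5920) (by decide +kernel)
           (CovZ.n2 (18240, -5920) (by decide +kernel)
            (CovZ.leaf K2_ok TF_l6012 _)
            (CovZ.n1 (18320, -6000) (by decide +kernel)
             (CovZ.n2 (18240, -6000) (by decide +kernel)
              (CovZ.leaf K2_ok TF_l6013 _)
              (CovZ.n1 (18280, -6040) (by decide +kernel)
               (CovZ.leaf K2_ok TF_l6014 _)
               (CovZ.leaf K2_ok TF_l6015 _)))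
             (CovZ.n1 (18320, -5920) (by decide +kernel)
              (CovZ.leaf K2_ok TF_l6016 _)
              (CovZ.leaf K2_ok TF_l6017 _))))
           (CovZ.n1 (18400, -5760) (by decide +kernel)
            (CovZ.n2 (18480, -5840) (by decide +kernel)
             (CovZ.leaf K2_ok TF_l6018 _)
             (CovZ.leaf K2_ok TF_l6019 _))
            (CovZ.leaf K2_ok TF_l6020 _))))
         (CovZ.subM 2495222900926007784907997224 (by decide +kernel)
          (CovZ.n1 (18080, -5920) (by decide +kernel)
           (CovZ.n2 (18080, -5760) (by decide +kernel)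
            (CovZ.n2 (18160, -5840) (by decide +kernel)
             (CovZ.leaf K2_ok TF_l6021 _)
             (CovZ.leaf K2_ok TF_l6022 _))
            (CovZ.leaf K2_ok TF_l6023 _))
           (CovZ.n1 (18240, -5920) (by decide +kernel)
            (CovZ.n2 (18160, -6000) (by decide +kernel)
             (CovZ.n2 (18160, -5920) (by decide +kernel)
              (CovZ.leaf K2_ok TF_l6024 _)
              (CovZ.leaf K2_ok TF_l6025 _))
             (CovZ.n1 (18240, -6000) (by decide +kernel)
              (CovZ.n2 (18200, -6040) (by decide +kernel)
               (CovZ.leaf K2_ok TF_l6026 _)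
               (CovZ.leaf K2_ok TF_l6027 _))
              (CovZ.leaf K2_ok TF_l6028 _)))
            (CovZ.n1 (18160, -5840) (by decide +kernel)
             (CovZ.leaf K2_ok TF_l6029 _)
             (CovZ.leaf K2_ok TF_l6030 _)))))))))
     (CovZ.badM (by decide +kernel)))
    (CovZ.n1 (19200, -5120) (by decide +kernel)
     TF_u10
     TF_u11)))

theorem TF_s11_0 : SqZ TF_M TF_L [0, 7, 4, 3] (-7680) (-7680) 2560 11 0 :=
  SqZ.mk (a := 20480) (b := 23040) (c := (-7680)) (d := (-5120)) (by norm_num) (by norm_num) (by norm_num) (by norm_num)
    (CovZ.topM TF_LL 2537177453328500988948600848904 (by decide +kernel) (CovZ.n2 (21760, -6400) (by decide +kernel)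
    (CovZ.n2 (23040, -6400) (by decide +kernel)
     (CovZ.n2 (22400, -7040) (by decide +kernel)
      (CovZ.n2 (22400, -6400) (by decide +kernel)
       (CovZ.badM (by decide +kernel))
       (CovZ.badM (by decide +kernel)))
      (CovZ.badM (by decide +kernel)))
     (CovZ.n1 (22400, -5760) (by decide +kernel)
      (CovZ.subM 2535320543269572637061275451392 (by decide +kernel)
       (CovZ.n2 (23040, -5760) (by decide +kernel)
        (CovZ.badM (by decide +kernel))
        (CovZ.n1 (22720, -5440) (by decide +kernel)
         (CovZ.n2 (23040, -5440) (by decide +kernel)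
          (CovZ.badM (by decide +kernel))
          (CovZ.n1 (22880, -5280) (by decide +kernel)
           (CovZ.n2 (23040, -5280) (by decide +kernel)
            (CovZ.leaf K2_ok TF_l14564 _)
            (CovZ.leaf K2_ok TF_l14565 _))
           (CovZ.n1 (22880, -5440) (by decide +kernel)
            (CovZ.leaf K2_ok TF_l14566 _)
            (CovZ.leaf K2_ok TF_l14567 _))))
         (CovZ.n1 (22720, -5760) (by decide +kernel)
          (CovZ.n2 (22560, -5600) (by decide +kernel)
           (CovZ.n2 (22720, -5600) (by decide +kernel)
            (CovZ.badM (by decide +kernel))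
            (CovZ.n1 (22640, -5520) (by decide +kernel)
             (CovZ.leaf K2_ok TF_l14568 _)
             (CovZ.leaf K2_ok TF_l14569 _)))
           (CovZ.badM (by decide +kernel)))
          (CovZ.n1 (22880, -5600) (by decide +kernel)
           (CovZ.badM (by decide +kernel))
           (CovZ.n1 (22720, -5600) (by decide +kernel)
            (CovZ.leaf K2_ok TF_l14570 _)
            (CovZ.badM (by decide +kernel))))))))
      (CovZ.subM 520 (by decide +kernel)
       (CovZ.n1 (22400, -6400) (by decide +kernel)
        (CovZ.n2 (22080, -6080) (by decide +kernel)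
         (CovZ.badM (by decide +kernel))
         (CovZ.n1 (22080, -6400) (by decide +kernel)
          (CovZ.n2 (21920, -6240) (by decide +kernel)
           (CovZ.badM (by decide +kernel))
           (CovZ.n1 (21920, -6400) (by decide +kernel)
            (CovZ.n2 (21840, -6320) (by decide +kernel)
             (CovZ.badM (by decide +kernel))
             (CovZ.n1 (21840, -6400) (by decide +kernel)
              (CovZ.n2 (21800, -6360) (by decide +kernel)
               (CovZ.badM (by decide +kernel))
               (CovZ.badM (by decide +kernel)))
              (CovZ.badM (by decide +kernel))))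
            (CovZ.badM (by decide +kernel))))
          (CovZ.badM (by decide +kernel))))
        (CovZ.badM (by decide +kernel))))))
    (CovZ.subM 1237940039285380274899124224 (by decide +kernel)
     (CovZ.n1 (21760, -7680) (by decide +kernel)
      (CovZ.n2 (21120, -7040) (by decide +kernel)
       (CovZ.n2 (21760, -7040) (by decide +kernel)
        (CovZ.badM (by decide +kernel))
        (CovZ.n1 (21440, -6720) (by decide +kernel)
         (CovZ.n2 (21760, -6720) (by decide +kernel)
          (CovZ.badM (by decide +kernel))
          (CovZ.n1 (21600, -6560) (by decide +kernel)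
           (CovZ.n2 (21760, -6560) (by decide +kernel)
            (CovZ.badM (by decide +kernel))
            (CovZ.n1 (21680, -6480) (by decide +kernel)
             (CovZ.badM (by decide +kernel))
             (CovZ.badM (by decide +kernel))))
           (CovZ.badM (by decide +kernel))))
         (CovZ.badM (by decide +kernel))))
       (CovZ.badM (by decide +kernel)))
      (CovZ.badM (by decide +kernel))))))
    (CovZ.topM TF_LL 2537177453328500988948600848936 (by decide +kernel) (CovZ.n0 (21760, -6400) (by decide +kernel)
    (CovZ.n2 (20480, -6400) (by decide +kernel)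
     TF_u12
     TF_u13)
    (CovZ.n1 (21760, -5120) (by decide +kernel)
     (CovZ.n2 (22400, -5760) (by decide +kernel)
      (CovZ.n2 (21760, -5760) (by decide +kernel)
       (CovZ.subM 2536558483308858017336174576128 (by decide +kernel)
        (CovZ.n2 (22080, -5440) (by decide +kernel)
         (CovZ.n2 (22080, -5760) (by decide +kernel)
          (CovZ.n2 (21920, -5600) (by decide +kernel)
           (CovZ.n2 (22080, -5600) (by decide +kernel)
            (CovZ.n2 (22000, -5680) (by decide +kernel)
             (CovZ.leaf K2_ok TF_l6383 _)
             (CovZ.leaf K2_ok TF_l6384 _))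
            (CovZ.leaf K2_ok TF_l6385 _))
           (CovZ.n1 (21920, -5760) (by decide +kernel)
            (CovZ.n2 (21840, -5680) (by decide +kernel)
             (CovZ.leaf K2_ok TF_l6386 _)
             (CovZ.leaf K2_ok TF_l6387 _))
            (CovZ.leaf K2_ok TF_l6388 _)))
          (CovZ.n1 (22240, -5600) (by decide +kernel)
           (CovZ.n2 (22240, -5760) (by decide +kernel)
            (CovZ.n2 (22160, -5680) (by decide +kernel)
             (CovZ.n2 (22240, -5680) (by decide +kernel)
              (CovZ.leaf K2_ok TF_l14653 _)
              (CovZ.leaf K2_ok TF_l14654 _))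
             (CovZ.leaf K2_ok TF_l14655 _))
            (CovZ.leaf K2_ok TF_l14656 _))
           (CovZ.n1 (22080, -5600) (by decide +kernel)
            (CovZ.leaf K2_ok TF_l6389 _)
            (CovZ.n1 (22160, -5680) (by decide +kernel)
             (CovZ.leaf K2_ok TF_l6390 _)
             (CovZ.leaf K2_ok TF_l6391 _)))))
         (CovZ.n1 (21760, -5440) (by decide +kernel)
          (CovZ.leaf K2_ok TF_l6392 _)
          (CovZ.n1 (21920, -5600) (by decide +kernel)
           (CovZ.n2 (21760, -5600) (by decide +kernel)
            (CovZ.leaf K2_ok TF_l6393 _)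
            (CovZ.n1 (21840, -5680) (by decide +kernel)
             (CovZ.leaf K2_ok TF_l6394 _)
             (CovZ.leaf K2_ok TF_l6395 _)))
           (CovZ.n1 (21920, -5440) (by decide +kernel)
            (CovZ.leaf K2_ok TF_l6396 _)
            (CovZ.leaf K2_ok TF_l6397 _))))))
       (CovZ.subM 1237940039285380274899124744 (by decide +kernel)
        (CovZ.n1 (22080, -6080) (by decide +kernel)
         TF_u14
         TF_u15)))
      (CovZ.subM 2536558483308858017336174576128 (by decide +kernel)
       (CovZ.n1 (22400, -5120) (by decide +kernel)
        (CovZ.n2 (22720, -5440) (by decide +kernel)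
         (CovZ.n2 (22400, -5440) (by decide +kernel)
          (CovZ.leaf K2_ok TF_l6436 _)
          (CovZ.n1 (22560, -5600) (by decide +kernel)
           (CovZ.n2 (22400, -5600) (by decide +kernel)
            (CovZ.leaf K2_ok TF_l14724 _)
            (CovZ.badM (by decide +kernel)))
           (CovZ.n1 (22560, -5440) (by decide +kernel)
            (CovZ.n2 (22640, -5520) (by decide +kernel)
             (CovZ.leaf K2_ok TF_l14725 _)
             (CovZ.leaf K2_ok TF_l14726 _))
            (CovZ.n1 (22480, -5520) (by decide +kernel)
             (CovZ.leaf K2_ok TF_l14727 _)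
             (CovZ.leaf K2_ok TF_l14728 _)))))
         (CovZ.n1 (22720, -5120) (by decide +kernel)
          (CovZ.n2 (22880, -5280) (by decide +kernel)
           (CovZ.leaf K2_ok TF_l14729 _)
           (CovZ.leaf K2_ok TF_l14730 _))
          (CovZ.n1 (22560, -5280) (by decide +kernel)
           (CovZ.leaf K2_ok TF_l6437 _)
           (CovZ.n1 (22720, -5280) (by decide +kernel)
            (CovZ.leaf K2_ok TF_l14731 _)
            (CovZ.leaf K2_ok TF_l14732 _)))))
        (CovZ.n1 (22080, -5440) (by decide +kernel)
         (CovZ.n2 (22080, -5120) (by decide +kernel)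
          (CovZ.n2 (22240, -5280) (by decide +kernel)
           (CovZ.leaf K2_ok TF_l6438 _)
           (CovZ.leaf K2_ok TF_l6439 _))
          (CovZ.n1 (21920, -5280) (by decide +kernel)
           (CovZ.leaf K2_ok TF_l6440 _)
           (CovZ.leaf K2_ok TF_l6441 _)))
         (CovZ.n1 (22400, -5440) (by decide +kernel)
          (CovZ.n2 (22240, -5600) (by decide +kernel)
           (CovZ.n2 (22240, -5440) (by decide +kernel)
            (CovZ.n2 (22320, -5520) (by decide +kernel)
             (CovZ.leaf K2_ok TF_l14733 _)
             (CovZ.leaf K2_ok TF_l14734 _))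
            (CovZ.leaf K2_ok TF_l6442 _))
           (CovZ.n1 (22400, -5600) (by decide +kernel)
            (CovZ.n2 (22320, -5680) (by decide +kernel)
             (CovZ.leaf K2_ok TF_l14735 _)
             (CovZ.n1 (22400, -5680) (by decide +kernel)
              (CovZ.leaf K2_ok TF_l14736 _)
              (CovZ.leaf K2_ok TF_l14737 _)))
            (CovZ.n1 (22320, -5520) (by decide +kernel)
             (CovZ.leaf K2_ok TF_l14738 _)
             (CovZ.leaf K2_ok TF_l14739 _))))
          (CovZ.n1 (22240, -5280) (by decide +kernel)
           (CovZ.n2 (22400, -5280) (by decide +kernel)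
            (CovZ.leaf K2_ok TF_l6443 _)
            (CovZ.leaf K2_ok TF_l6444 _))
           (CovZ.leaf K2_ok TF_l6445 _)))))))
     (CovZ.n1 (21120, -5760) (by decide +kernel)
      (CovZ.n2 (21120, -5120) (by decide +kernel)
       (CovZ.n2 (21440, -5440) (by decide +kernel)
        (CovZ.leaf K2_ok TF_l6446 _)
        (CovZ.n1 (21440, -5120) (by decide +kernel)
         (CovZ.n2 (21600, -5280) (by decide +kernel)
          (CovZ.leaf K2_ok TF_l6447 _)
          (CovZ.leaf K2_ok TF_l6448 _))
         (CovZ.leaf K2_ok TF_l6449 _)))
       (CovZ.n1 (20800, -5440) (by decide +kernel)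
        (CovZ.leaf K2_ok TF_l6450 _)
        (CovZ.n1 (21120, -5440) (by decide +kernel)
         (CovZ.leaf K2_ok TF_l6451 _)
         (CovZ.leaf K2_ok TF_l6452 _))))
      (CovZ.n1 (21760, -5760) (by decide +kernel)
       (CovZ.subM 1856910058928070412348686856 (by decide +kernel)
        (CovZ.n2 (21440, -6080) (by decide +kernel)
         (CovZ.n2 (21440, -5760) (by decide +kernel)
          (CovZ.n2 (21600, -5920) (by decide +kernel)
           (CovZ.leaf K2_ok TF_l6453 _)
           (CovZ.n1 (21600, -5760) (by decide +kernel)
            (CovZ.n2 (21680, -5840) (by decide +kernel)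
             (CovZ.leaf K2_ok TF_l6454 _)
             (CovZ.leaf K2_ok TF_l6455 _))
            (CovZ.leaf K2_ok TF_l6456 _)))
          (CovZ.n1 (21280, -5920) (by decide +kernel)
           (CovZ.leaf K2_ok TF_l6457 _)
           (CovZ.n1 (21440, -5920) (by decide +kernel)
            (CovZ.leaf K2_ok TF_l6458 _)
            (CovZ.leaf K2_ok TF_l6459 _))))
         (CovZ.n1 (21760, -6080) (by decide +kernel)
          (CovZ.n2 (21600, -6240) (by decide +kernel)
           (CovZ.n2 (21600, -6080) (by decide +kernel)
            (CovZ.n2 (21680, -6160) (by decide +kernel)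
             (CovZ.leaf K2_ok TF_l6460 _)
             (CovZ.leaf K2_ok TF_l6461 _))
            (CovZ.n1 (21520, -6160) (by decide +kernel)
             (CovZ.leaf K2_ok TF_l6462 _)
             (CovZ.leaf K2_ok TF_l6463 _)))
           (CovZ.n1 (21760, -6240) (by decide +kernel)
            (CovZ.n2 (21680, -6320) (by decide +kernel)
             (CovZ.n2 (21680, -6240) (by decide +kernel)
              (CovZ.leaf K2_ok TF_l6464 _)
              (CovZ.leaf K2_ok TF_l6465 _))
             (CovZ.n1 (21760, -6320) (by decide +kernel)
              (CovZ.n2 (21720, -6360) (by decide +kernel)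
               (CovZ.leaf K2_ok TF_l6466 _)
               (CovZ.leaf K2_ok TF_l14740 _))
              (CovZ.leaf K2_ok TF_l6467 _)))
            (CovZ.n1 (21680, -6160) (by decide +kernel)
             (CovZ.n2 (21760, -6160) (by decide +kernel)
              (CovZ.leaf K2_ok TF_l6468 _)
              (CovZ.leaf K2_ok TF_l6469 _))
             (CovZ.leaf K2_ok TF_l6470 _))))
          (CovZ.n1 (21600, -5920) (by decide +kernel)
           (CovZ.n2 (21760, -5920) (by decide +kernel)
            (CovZ.n2 (21680, -6000) (by decide +kernel)
             (CovZ.leaf K2_ok TF_l6471 _)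
             (CovZ.leaf K2_ok TF_l6472 _))
            (CovZ.n1 (21680, -5840) (by decide +kernel)
             (CovZ.leaf K2_ok TF_l6473 _)
             (CovZ.leaf K2_ok TF_l6474 _)))
           (CovZ.leaf K2_ok TF_l6475 _)))))
       (CovZ.n1 (21440, -5440) (by decide +kernel)
        (CovZ.n2 (21760, -5440) (by decide +kernel)
         (CovZ.n2 (21600, -5600) (by decide +kernel)
          (CovZ.n2 (21600, -5440) (by decide +kernel)
           (CovZ.leaf K2_ok TF_l6476 _)
           (CovZ.leaf K2_ok TF_l6477 _))
          (CovZ.n1 (21760, -5600) (by decide +kernel)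
           (CovZ.leaf K2_ok TF_l6478 _)
           (CovZ.leaf K2_ok TF_l6479 _)))
         (CovZ.n1 (21600, -5280) (by decide +kernel)
          (CovZ.leaf K2_ok TF_l6480 _)
          (CovZ.leaf K2_ok TF_l6481 _)))
        (CovZ.n1 (21440, -5760) (by decide +kernel)
         (CovZ.leaf K2_ok TF_l6482 _)
         (CovZ.leaf K2_ok TF_l6483 _))))))))

theorem TF_s12_0 : SqZ TF_M TF_L [0, 7, 4, 3] (-7680) (-7680) 2560 12 0 :=
  SqZ.mk (a := 23040) (b := 25600) (c := (-7680)) (d := (-5120)) (by norm_num) (by norm_num) (by norm_num) (by norm_num)
    (CovZ.topM TF_LL 1073741824 (by decide +kernel) (CovZ.n2 (24320, -6400) (by decide +kernel)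
    (CovZ.badM (by decide +kernel))
    (CovZ.badM (by decide +kernel))))
    (CovZ.topM TF_LL 2535320543269572637061275451392 (by decide +kernel) (CovZ.n0 (24320, -6400) (by decide +kernel)
    (CovZ.n2 (23040, -6400) (by decide +kernel)
     (CovZ.n2 (23680, -5760) (by decide +kernel)
      (CovZ.badM (by decide +kernel))
      (CovZ.n1 (23040, -5760) (by decide +kernel)
       (CovZ.n2 (23360, -5440) (by decide +kernel)
        (CovZ.badM (by decide +kernel))
        (CovZ.n1 (23040, -5440) (by decide +kernel)
         (CovZ.n2 (23200, -5280) (by decide +kernel)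
          (CovZ.n2 (23200, -5440) (by decide +kernel)
           (CovZ.n2 (23120, -5360) (by decide +kernel)
            (CovZ.leaf K2_ok TF_l14954 _)
            (CovZ.badM (by decide +kernel)))
           (CovZ.leaf K2_ok TF_l14955 _))
          (CovZ.n1 (23040, -5280) (by decide +kernel)
           (CovZ.leaf K2_ok TF_l14956 _)
           (CovZ.n1 (23120, -5360) (by decide +kernel)
            (CovZ.leaf K2_ok TF_l14957 _)
            (CovZ.leaf K2_ok TF_l14958 _))))
         (CovZ.badM (by decide +kernel))))
       (CovZ.badM (by decide +kernel))))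
     (CovZ.badM (by decide +kernel)))
    (CovZ.n1 (24320, -5120) (by decide +kernel)
     (CovZ.badM (by decide +kernel))
     (CovZ.n1 (23680, -5760) (by decide +kernel)
      (CovZ.n2 (23680, -5120) (by decide +kernel)
       (CovZ.n2 (24000, -5440) (by decide +kernel)
        (CovZ.n2 (23680, -5440) (by decide +kernel)
         (CovZ.n2 (23840, -5280) (by decide +kernel)
          (CovZ.badM (by decide +kernel))
          (CovZ.n1 (23680, -5280) (by decide +kernel)
           (CovZ.leaf K2_ok TF_l14959 _)
           (CovZ.badM (by decide +kernel))))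
         (CovZ.badM (by decide +kernel)))
        (CovZ.n1 (24000, -5120) (by decide +kernel)
         (CovZ.n2 (24160, -5280) (by decide +kernel)
          (CovZ.n2 (24000, -5280) (by decide +kernel)
           (CovZ.n2 (24080, -5200) (by decide +kernel)
            (CovZ.badM (by decide +kernel))
            (CovZ.n1 (24000, -5200) (by decide +kernel)
             (CovZ.badM (by decide +kernel))
             (CovZ.badM (by decide +kernel))))
           (CovZ.badM (by decide +kernel)))
          (CovZ.badM (by decide +kernel)))
         (CovZ.n1 (23840, -5280) (by decide +kernel)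
          (CovZ.n2 (23840, -5120) (by decide +kernel)
           (CovZ.n2 (23920, -5200) (by decide +kernel)
            (CovZ.n2 (23840, -5200) (by decide +kernel)
             (CovZ.leaf K2_ok TF_l14960 _)
             (CovZ.badM (by decide +kernel)))
            (CovZ.n1 (23920, -5120) (by decide +kernel)
             (CovZ.n2 (23960, -5160) (by decide +kernel)
              (CovZ.n2 (23920, -5160) (by decide +kernel)
               (CovZ.leaf K2_ok TF_l14961 _)
               (CovZ.badM (by decide +kernel)))
              (CovZ.n1 (23960, -5120) (by decide +kernel)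
               (CovZ.badM (by decide +kernel))
               (CovZ.n1 (23940, -5140) (by decide +kernel)
                (CovZ.n2 (23940, -5120) (by decide +kernel)
                 (CovZ.leaf K2_ok TF_l14962 _)
                 (CovZ.leaf K2_ok TF_l14963 _))
                (CovZ.badM (by decide +kernel)))))
             (CovZ.n1 (23880, -5160) (by decide +kernel)
              (CovZ.n2 (23880, -5120) (by decide +kernel)
               (CovZ.n2 (23900, -5140) (by decide +kernel)
                (CovZ.leaf K2_ok TF_l14964 _)
                (CovZ.leaf K2_ok TF_l14965 _))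
               (CovZ.leaf K2_ok TF_l14966 _))
              (CovZ.n1 (23920, -5160) (by decide +kernel)
               (CovZ.badM (by decide +kernel))
               (CovZ.n1 (23900, -5140) (by decide +kernel)
                (CovZ.leaf K2_ok TF_l14967 _)
                (CovZ.leaf K2_ok TF_l14968 _))))))
           (CovZ.n1 (23760, -5200) (by decide +kernel)
            (CovZ.n2 (23760, -5120) (by decide +kernel)
             (CovZ.n2 (23800, -5160) (by decide +kernel)
              (CovZ.leaf K2_ok TF_l14969 _)
              (CovZ.leaf K2_ok TF_l14970 _))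
             (CovZ.leaf K2_ok TF_l14971 _))
            (CovZ.n1 (23840, -5200) (by decide +kernel)
             (CovZ.badM (by decide +kernel))
             (CovZ.n1 (23800, -5160) (by decide +kernel)
              (CovZ.leaf K2_ok TF_l14972 _)
              (CovZ.leaf K2_ok TF_l14973 _)))))
          (CovZ.n1 (24000, -5280) (by decide +kernel)
           (CovZ.badM (by decide +kernel))
           (CovZ.n1 (23920, -5200) (by decide +kernel)
            (CovZ.n2 (24000, -5200) (by decide +kernel)
             (CovZ.badM (by decide +kernel))
             (CovZ.n1 (23960, -5160) (by decide +kernel)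
              (CovZ.badM (by decide +kernel))
              (CovZ.badM (by decide +kernel))))
            (CovZ.badM (by decide +kernel)))))))
       (CovZ.n1 (23360, -5440) (by decide +kernel)
        (CovZ.n2 (23360, -5120) (by decide +kernel)
         (CovZ.n2 (23520, -5280) (by decide +kernel)
          (CovZ.n2 (23360, -5280) (by decide +kernel)
           (CovZ.leaf K2_ok TF_l14974 _)
           (CovZ.badM (by decide +kernel)))
          (CovZ.n1 (23520, -5120) (by decide +kernel)
           (CovZ.n2 (23600, -5200) (by decide +kernel)
            (CovZ.leaf K2_ok TF_l14975 _)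
            (CovZ.leaf K2_ok TF_l14976 _))
           (CovZ.leaf K2_ok TF_l14977 _)))
         (CovZ.n1 (23200, -5280) (by decide +kernel)
          (CovZ.n2 (23200, -5120) (by decide +kernel)
           (CovZ.leaf K2_ok TF_l14978 _)
           (CovZ.leaf K2_ok TF_l14979 _))
          (CovZ.n1 (23360, -5280) (by decide +kernel)
           (CovZ.leaf K2_ok TF_l14980 _)
           (CovZ.leaf K2_ok TF_l14981 _))))
        (CovZ.n1 (23680, -5440) (by decide +kernel)
         (CovZ.badM (by decide +kernel))
         (CovZ.n1 (23520, -5280) (by decide +kernel)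
          (CovZ.n2 (23680, -5280) (by decide +kernel)
           (CovZ.badM (by decide +kernel))
           (CovZ.n1 (23600, -5200) (by decide +kernel)
            (CovZ.leaf K2_ok TF_l14982 _)
            (CovZ.leaf K2_ok TF_l14983 _)))
          (CovZ.badM (by decide +kernel))))))
      (CovZ.badM (by decide +kernel))))))

theorem TF_s13_0 : SqZ TF_M TF_L [0, 7, 4, 3] (-7680) (-7680) 2560 13 0 :=
  SqZ.mk (a := 25600) (b := 28160) (c := (-7680)) (d := (-5120)) (by norm_num) (by norm_num) (by norm_num) (by norm_num)
    (CovZ.topM TF_LL 0 (by decide +kernel) (CovZ.badM (by decide +kernel)))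
    (CovZ.topM TF_LL 0 (by decide +kernel) (CovZ.badM (by decide +kernel)))

theorem TF_s14_0 : SqZ TF_M TF_L [0, 7, 4, 3] (-7680) (-7680) 2560 14 0 :=
  SqZ.mk (a := 28160) (b := 30720) (c := (-7680)) (d := (-5120)) (by norm_num) (by norm_num) (by norm_num) (by norm_num)
    (CovZ.topM TF_LL 0 (by decide +kernel) (CovZ.badM (by decide +kernel)))
    (CovZ.topM TF_LL 0 (by decide +kernel) (CovZ.badM (by decide +kernel)))

theorem TF_s15_0 : SqZ TF_M TF_L [0, 7, 4, 3] (-7680) (-7680) 2560 15 0 :=
  SqZ.mk (a := 30720) (b := 33280) (c := (-7680)) (d := (-5120)) (by norm_num) (by norm_num) (by norm_num) (by norm_num)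
    (CovZ.topM TF_LL 0 (by decide +kernel) (CovZ.badM (by decide +kernel)))
    (CovZ.topM TF_LL 0 (by decide +kernel) (CovZ.badM (by decide +kernel)))

theorem TF_s0_1 : SqZ TF_M TF_L [0, 7, 4, 3] (-7680) (-7680) 2560 0 1 :=
  SqZ.mk (a := (-7680)) (b := (-5120)) (c := (-5120)) (d := (-2560)) (by norm_num) (by norm_num) (by norm_num) (by norm_num)
    (CovZ.topM TF_LL 0 (by decide +kernel) (CovZ.badM (by decide +kernel)))
    (CovZ.topM TF_LL 0 (by decide +kernel) (CovZ.badM (by decide +kernel)))

theorem TF_s1_1 : SqZ TF_M TF_L [0, 7, 4, 3] (-7680) (-7680) 2560 1 1 :=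
  SqZ.mk (a := (-5120)) (b := (-2560)) (c := (-5120)) (d := (-2560)) (by norm_num) (by norm_num) (by norm_num) (by norm_num)
    (CovZ.topM TF_LL 0 (by decide +kernel) (CovZ.badM (by decide +kernel)))
    (CovZ.topM TF_LL 0 (by decide +kernel) (CovZ.badM (by decide +kernel)))

theorem TF_s2_1 : SqZ TF_M TF_L [0, 7, 4, 3] (-7680) (-7680) 2560 2 1 :=
  SqZ.mk (a := (-2560)) (b := 0) (c := (-5120)) (d := (-2560)) (by norm_num) (by norm_num) (by norm_num) (by norm_num)
    (CovZ.topM TF_LL 0 (by decide +kernel) (CovZ.badM (by decide +kernel)))
    (CovZ.topM TF_LL 0 (by decide +kernel) (CovZ.badM (by decide +kernel)))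

theorem TF_s3_1 : SqZ TF_M TF_L [0, 7, 4, 3] (-7680) (-7680) 2560 3 1 :=
  SqZ.mk (a := 0) (b := 2560) (c := (-5120)) (d := (-2560)) (by norm_num) (by norm_num) (by norm_num) (by norm_num)
    (CovZ.topM TF_LL 0 (by decide +kernel) (CovZ.badM (by decide +kernel)))
    (CovZ.topM TF_LL 268435456 (by decide +kernel) (CovZ.n0 (1280, -3840) (by decide +kernel)
    (CovZ.badM (by decide +kernel))
    (CovZ.n1 (1280, -2560) (by decide +kernel)
     (CovZ.badM (by decide +kernel))
     (CovZ.badM (by decide +kernel)))))

theorem TF_s4_1 : SqZ TF_M TF_L [0, 7, 4, 3] (-7680) (-7680) 2560 4 1 :=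
  SqZ.mk (a := 2560) (b := 5120) (c := (-5120)) (d := (-2560)) (by norm_num) (by norm_num) (by norm_num) (by norm_num)
    (CovZ.topM TF_LL 0 (by decide +kernel) (CovZ.badM (by decide +kernel)))
    (CovZ.topM TF_LL 0 (by decide +kernel) (CovZ.badM (by decide +kernel)))

theorem TF_s5_1 : SqZ TF_M TF_L [0, 7, 4, 3] (-7680) (-7680) 2560 5 1 :=
  SqZ.mk (a := 5120) (b := 7680) (c := (-5120)) (d := (-2560)) (by norm_num) (by norm_num) (by norm_num) (by norm_num)
    (CovZ.topM TF_LL 0 (by decide +kernel) (CovZ.badM (by decide +kernel)))
    (CovZ.topM TF_LL 0 (by decide +kernel) (CovZ.badM (by decide +kernel)))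

theorem TF_s6_1 : SqZ TF_M TF_L [0, 7, 4, 3] (-7680) (-7680) 2560 6 1 :=
  SqZ.mk (a := 7680) (b := 10240) (c := (-5120)) (d := (-2560)) (by norm_num) (by norm_num) (by norm_num) (by norm_num)
    (CovZ.topM TF_LL 42535295866355247972207206272589627400 (by decide +kernel) (CovZ.n2 (8960, -3840) (by decide +kernel)
    (CovZ.n2 (10240, -3840) (by decide +kernel)
     (CovZ.badM (by decide +kernel))
     (CovZ.n1 (9600, -3200) (by decide +kernel)
      (CovZ.n2 (10240, -3200) (by decide +kernel)
       (CovZ.n2 (9920, -3520) (by decide +kernel)
        (CovZ.badM (by decide +kernel))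
        (CovZ.n1 (10240, -3520) (by decide +kernel)
         (CovZ.badM (by decide +kernel))
         (CovZ.badM (by decide +kernel))))
       (CovZ.n1 (9920, -2880) (by decide +kernel)
        (CovZ.n2 (10240, -2880) (by decide +kernel)
         (CovZ.n2 (10080, -3040) (by decide +kernel)
          (CovZ.n2 (10080, -2880) (by decide +kernel)
           (CovZ.leaf K2_ok TF_l13057 _)
           (CovZ.leaf K2_ok TF_l13058 _))
          (CovZ.n1 (10240, -3040) (by decide +kernel)
           (CovZ.badM (by decide +kernel))
           (CovZ.leaf K2_ok TF_l13059 _)))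
         (CovZ.leaf K2_ok TF_l4779 _))
        (CovZ.n1 (9920, -3200) (by decide +kernel)
         (CovZ.n2 (9760, -3040) (by decide +kernel)
          (CovZ.n2 (9920, -3040) (by decide +kernel)
           (CovZ.badM (by decide +kernel))
           (CovZ.n1 (9840, -2960) (by decide +kernel)
            (CovZ.leaf K2_ok TF_l13060 _)
            (CovZ.leaf K2_ok TF_l13061 _)))
          (CovZ.badM (by decide +kernel)))
         (CovZ.n1 (10080, -3040) (by decide +kernel)
          (CovZ.badM (by decide +kernel))
          (CovZ.n1 (9920, -3040) (by decide +kernel)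
           (CovZ.leaf K2_ok TF_l13062 _)
           (CovZ.badM (by decide +kernel)))))))
      (CovZ.n1 (9600, -3840) (by decide +kernel)
       (CovZ.badM (by decide +kernel))
       (CovZ.n1 (9920, -3520) (by decide +kernel)
        (CovZ.badM (by decide +kernel))
        (CovZ.badM (by decide +kernel))))))
    (CovZ.badM (by decide +kernel))))
    (CovZ.topM TF_LL 2764794231233862955679204065658015842312 (by decide +kernel) (CovZ.n0 (8960, -3840) (by decide +kernel)
    (CovZ.n2 (7680, -3840) (by decide +kernel)
     (CovZ.n2 (8320, -3200) (by decide +kernel)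
      (CovZ.badM (by decide +kernel))
      (CovZ.badM (by decide +kernel)))
     (CovZ.badM (by decide +kernel)))
    (CovZ.n1 (8960, -2560) (by decide +kernel)
     (CovZ.n2 (9600, -3200) (by decide +kernel)
      (CovZ.n2 (8960, -3200) (by decide +kernel)
       (CovZ.n2 (9280, -2880) (by decide +kernel)
        (CovZ.n2 (9280, -3200) (by decide +kernel)
         (CovZ.badM (by decide +kernel))
         (CovZ.n1 (9440, -3040) (by decide +kernel)
          (CovZ.badM (by decide +kernel))
          (CovZ.n1 (9280, -3040) (by decide +kernel)
           (CovZ.n2 (9360, -2960) (by decide +kernel)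
            (CovZ.n2 (9360, -3040) (by decide +kernel)
             (CovZ.badM (by decide +kernel))
             (CovZ.n1 (9400, -3000) (by decide +kernel)
              (CovZ.badM (by decide +kernel))
              (CovZ.badM (by decide +kernel))))
            (CovZ.badM (by decide +kernel)))
           (CovZ.badM (by decide +kernel)))))
        (CovZ.n1 (8960, -2880) (by decide +kernel)
         (CovZ.n2 (9120, -2720) (by decide +kernel)
          (CovZ.badM (by decide +kernel))
          (CovZ.n1 (8960, -2720) (by decide +kernel)
           (CovZ.leaf K2_ok TF_l13063 _)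
           (CovZ.n1 (9040, -2800) (by decide +kernel)
            (CovZ.n2 (8960, -2800) (by decide +kernel)
             (CovZ.n2 (9000, -2760) (by decide +kernel)
              (CovZ.leaf K2_ok TF_l13064 _)
              (CovZ.leaf K2_ok TF_l13065 _))
             (CovZ.n1 (9000, -2840) (by decide +kernel)
              (CovZ.n2 (8960, -2840) (by decide +kernel)
               (CovZ.n2 (8980, -2820) (by decide +kernel)
                (CovZ.badM (by decide +kernel))
                (CovZ.n1 (8960, -2820) (by decide +kernel)
                 (CovZ.leaf K2_ok TF_l13066 _)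
                 (CovZ.badM (by decide +kernel))))
               (CovZ.badM (by decide +kernel)))
              (CovZ.n1 (9000, -2800) (by decide +kernel)
               (CovZ.badM (by decide +kernel))
               (CovZ.n1 (8980, -2820) (by decide +kernel)
                (CovZ.leaf K2_ok TF_l13067 _)
                (CovZ.badM (by decide +kernel))))))
            (CovZ.n1 (9040, -2720) (by decide +kernel)
             (CovZ.badM (by decide +kernel))
             (CovZ.n1 (9000, -2760) (by decide +kernel)
              (CovZ.leaf K2_ok TF_l13068 _)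
              (CovZ.badM (by decide +kernel)))))))
         (CovZ.badM (by decide +kernel))))
       (CovZ.badM (by decide +kernel)))
      (CovZ.n1 (9600, -2560) (by decide +kernel)
       (CovZ.n2 (9920, -2880) (by decide +kernel)
        (CovZ.n2 (9600, -2880) (by decide +kernel)
         (CovZ.n2 (9760, -2720) (by decide +kernel)
          (CovZ.n2 (9760, -2880) (by decide +kernel)
           (CovZ.leaf K2_ok TF_l13069 _)
           (CovZ.leaf K2_ok TF_l13070 _))
          (CovZ.leaf K2_ok TF_l13071 _))
         (CovZ.n1 (9760, -3040) (by decide +kernel)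
          (CovZ.n2 (9600, -3040) (by decide +kernel)
           (CovZ.n2 (9680, -2960) (by decide +kernel)
            (CovZ.n2 (9680, -3040) (by decide +kernel)
             (CovZ.n2 (9640, -3000) (by decide +kernel)
              (CovZ.leaf K2_ok TF_l13072 _)
              (CovZ.badM (by decide +kernel)))
             (CovZ.leaf K2_ok TF_l13073 _))
            (CovZ.n1 (9600, -2960) (by decide +kernel)
             (CovZ.leaf K2_ok TF_l13074 _)
             (CovZ.n1 (9640, -3000) (by decide +kernel)
              (CovZ.leaf K2_ok TF_l13075 _)
              (CovZ.leaf K2_ok TF_l13076 _))))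
           (CovZ.badM (by decide +kernel)))
          (CovZ.n1 (9760, -2880) (by decide +kernel)
           (CovZ.n2 (9840, -2960) (by decide +kernel)
            (CovZ.leaf K2_ok TF_l13077 _)
            (CovZ.leaf K2_ok TF_l13078 _))
           (CovZ.n1 (9680, -2960) (by decide +kernel)
            (CovZ.leaf K2_ok TF_l13079 _)
            (CovZ.n1 (9760, -2960) (by decide +kernel)
             (CovZ.leaf K2_ok TF_l13080 _)
             (CovZ.leaf K2_ok TF_l13081 _))))))
        (CovZ.n1 (9920, -2560) (by decide +kernel)
         (CovZ.leaf K2_ok TF_l4780 _)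
         (CovZ.n1 (9760, -2720) (by decide +kernel)
          (CovZ.leaf K2_ok TF_l4781 _)
          (CovZ.leaf K2_ok TF_l4782 _))))
       (CovZ.n1 (9280, -2880) (by decide +kernel)
        (CovZ.n2 (9280, -2560) (by decide +kernel)
         (CovZ.badM (by decide +kernel))
         (CovZ.n1 (9120, -2720) (by decide +kernel)
          (CovZ.n2 (9120, -2560) (by decide +kernel)
           (CovZ.leaf K2_ok TF_l13082 _)
           (CovZ.n1 (9040, -2640) (by decide +kernel)
            (CovZ.leaf K2_ok TF_l13083 _)
            (CovZ.leaf K2_ok TF_l13084 _)))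
          (CovZ.badM (by decide +kernel))))
        (CovZ.n1 (9600, -2880) (by decide +kernel)
         (CovZ.n2 (9440, -3040) (by decide +kernel)
          (CovZ.n2 (9440, -2880) (by decide +kernel)
           (CovZ.n2 (9520, -2960) (by decide +kernel)
            (CovZ.n2 (9440, -2960) (by decide +kernel)
             (CovZ.leaf K2_ok TF_l13085 _)
             (CovZ.n1 (9480, -3000) (by decide +kernel)
              (CovZ.n2 (9440, -3000) (by decide +kernel)
               (CovZ.leaf K2_ok TF_l13086 _)
               (CovZ.badM (by decide +kernel)))
              (CovZ.n1 (9480, -2960) (by decide +kernel)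
               (CovZ.leaf K2_ok TF_l13087 _)
               (CovZ.n1 (9460, -2980) (by decide +kernel)
                (CovZ.leaf K2_ok TF_l13088 _)
                (CovZ.leaf K2_ok TF_l13089 _)))))
            (CovZ.n1 (9520, -2880) (by decide +kernel)
             (CovZ.leaf K2_ok TF_l13090 _)
             (CovZ.n1 (9480, -2920) (by decide +kernel)
              (CovZ.badM (by decide +kernel))
              (CovZ.leaf K2_ok TF_l13091 _))))
           (CovZ.n1 (9360, -2960) (by decide +kernel)
            (CovZ.badM (by decide +kernel))
            (CovZ.n1 (9440, -2960) (by decide +kernel)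
             (CovZ.n2 (9400, -3000) (by decide +kernel)
              (CovZ.badM (by decide +kernel))
              (CovZ.n1 (9440, -3000) (by decide +kernel)
               (CovZ.badM (by decide +kernel))
               (CovZ.badM (by decide +kernel))))
             (CovZ.badM (by decide +kernel)))))
          (CovZ.n1 (9600, -3040) (by decide +kernel)
           (CovZ.badM (by decide +kernel))
           (CovZ.n1 (9520, -2960) (by decide +kernel)
            (CovZ.n2 (9600, -2960) (by decide +kernel)
             (CovZ.n2 (9560, -3000) (by decide +kernel)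
              (CovZ.leaf K2_ok TF_l13092 _)
              (CovZ.n1 (9600, -3000) (by decide +kernel)
               (CovZ.badM (by decide +kernel))
               (CovZ.leaf K2_ok TF_l13093 _)))
             (CovZ.leaf K2_ok TF_l13094 _))
            (CovZ.n1 (9520, -3040) (by decide +kernel)
             (CovZ.n2 (9480, -3000) (by decide +kernel)
              (CovZ.n2 (9520, -3000) (by decide +kernel)
               (CovZ.badM (by decide +kernel))
               (CovZ.leaf K2_ok TF_l13095 _))
              (CovZ.badM (by decide +kernel)))
             (CovZ.n1 (9560, -3000) (by decide +kernel)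
              (CovZ.badM (by decide +kernel))
              (CovZ.n1 (9520, -3000) (by decide +kernel)
               (CovZ.leaf K2_ok TF_l13096 _)
               (CovZ.badM (by decide +kernel))))))))
         (CovZ.n1 (9440, -2720) (by decide +kernel)
          (CovZ.n2 (9600, -2720) (by decide +kernel)
           (CovZ.leaf K2_ok TF_l13097 _)
           (CovZ.badM (by decide +kernel)))
          (CovZ.n1 (9440, -2880) (by decide +kernel)
           (CovZ.badM (by decide +kernel))
           (CovZ.leaf K2_ok TF_l13098 _)))))))
     (CovZ.n1 (8320, -3200) (by decide +kernel)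
      (CovZ.n2 (8320, -2560) (by decide +kernel)
       (CovZ.n2 (8640, -2880) (by decide +kernel)
        (CovZ.badM (by decide +kernel))
        (CovZ.n1 (8640, -2560) (by decide +kernel)
         (CovZ.n2 (8800, -2720) (by decide +kernel)
          (CovZ.badM (by decide +kernel))
          (CovZ.n1 (8800, -2560) (by decide +kernel)
           (CovZ.n2 (8880, -2640) (by decide +kernel)
            (CovZ.leaf K2_ok TF_l13099 _)
            (CovZ.leaf K2_ok TF_l13100 _))
           (CovZ.n1 (8720, -2640) (by decide +kernel)
            (CovZ.leaf K2_ok TF_l13101 _)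
            (CovZ.n1 (8800, -2640) (by decide +kernel)
             (CovZ.badM (by decide +kernel))
             (CovZ.leaf K2_ok TF_l13102 _)))))
         (CovZ.badM (by decide +kernel))))
       (CovZ.badM (by decide +kernel)))
      (CovZ.n1 (8960, -3200) (by decide +kernel)
       (CovZ.badM (by decide +kernel))
       (CovZ.n1 (8640, -2880) (by decide +kernel)
        (CovZ.n2 (8960, -2880) (by decide +kernel)
         (CovZ.badM (by decide +kernel))
         (CovZ.n1 (8800, -2720) (by decide +kernel)
          (CovZ.n2 (8960, -2720) (by decide +kernel)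
           (CovZ.n2 (8880, -2800) (by decide +kernel)
            (CovZ.n2 (8880, -2720) (by decide +kernel)
             (CovZ.n2 (8920, -2760) (by decide +kernel)
              (CovZ.badM (by decide +kernel))
              (CovZ.leaf K2_ok TF_l13103 _))
             (CovZ.badM (by decide +kernel)))
            (CovZ.n1 (8960, -2800) (by decide +kernel)
             (CovZ.badM (by decide +kernel))
             (CovZ.n1 (8920, -2760) (by decide +kernel)
              (CovZ.n2 (8960, -2760) (by decide +kernel)
               (CovZ.leaf K2_ok TF_l13104 _)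
               (CovZ.leaf K2_ok TF_l13105 _))
              (CovZ.badM (by decide +kernel)))))
           (CovZ.n1 (8880, -2640) (by decide +kernel)
            (CovZ.n2 (8960, -2640) (by decide +kernel)
             (CovZ.leaf K2_ok TF_l13106 _)
             (CovZ.leaf K2_ok TF_l13107 _))
            (CovZ.n1 (8880, -2720) (by decide +kernel)
             (CovZ.leaf K2_ok TF_l13108 _)
             (CovZ.leaf K2_ok TF_l13109 _))))
          (CovZ.badM (by decide +kernel))))
        (CovZ.badM (by decide +kernel))))))))

theorem TF_s7_1 : SqZ TF_M TF_L [0, 7, 4, 3] (-7680) (-7680) 2560 7 1 :=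
  SqZ.mk (a := 10240) (b := 12800) (c := (-5120)) (d := (-2560)) (by norm_num) (by norm_num) (by norm_num) (by norm_num)
    (CovZ.topM TF_LL 42535338968970878623691469369280299528 (by decide +kernel) (CovZ.n2 (11520, -3840) (by decide +kernel)
    (CovZ.n2 (12800, -3840) (by decide +kernel)
     (CovZ.subM 40564819207303340847963224145928 (by decide +kernel)
      (CovZ.n2 (12160, -4480) (by decide +kernel)
       (CovZ.n2 (12160, -3840) (by decide +kernel)
        (CovZ.n2 (12480, -4160) (by decide +kernel)
         (CovZ.leaf K2_ok TF_l13302 _)
         (CovZ.leaf K2_ok TF_l4966 _))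
        (CovZ.n1 (11840, -4160) (by decide +kernel)
         (CovZ.n2 (11840, -3840) (by decide +kernel)
          (CovZ.leaf K2_ok TF_l13303 _)
          (CovZ.leaf K2_ok TF_l13304 _))
         (CovZ.n1 (12160, -4160) (by decide +kernel)
          (CovZ.leaf K2_ok TF_l13305 _)
          (CovZ.leaf K2_ok TF_l13306 _))))
       (CovZ.n1 (12800, -4480) (by decide +kernel)
        (CovZ.n2 (12480, -4800) (by decide +kernel)
         (CovZ.n2 (12480, -4480) (by decide +kernel)
          (CovZ.leaf K2_ok TF_l4967 _)
          (CovZ.leaf K2_ok TF_l4968 _))
         (CovZ.n1 (12800, -4800) (by decide +kernel)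
          (CovZ.leaf K2_ok TF_l13307 _)
          (CovZ.leaf K2_ok TF_l4969 _)))
        (CovZ.n1 (12480, -4160) (by decide +kernel)
         (CovZ.leaf K2_ok TF_l4970 _)
         (CovZ.leaf K2_ok TF_l4971 _)))))
     (CovZ.n1 (12160, -3200) (by decide +kernel)
      (CovZ.n2 (12800, -3200) (by decide +kernel)
       (CovZ.leaf K2_ok TF_l4972 _)
       (CovZ.leaf K2_ok TF_l4973 _))
      (CovZ.n1 (12160, -3840) (by decide +kernel)
       (CovZ.n2 (11840, -3520) (by decide +kernel)
        (CovZ.leaf K2_ok TF_l4974 _)
        (CovZ.leaf K2_ok TF_l4975 _))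
       (CovZ.leaf K2_ok TF_l4976 _))))
    TF_u16))
    (CovZ.topM TF_LL 42535298404151671320350621474777727496 (by decide +kernel) (CovZ.n0 (11520, -3840) (by decide +kernel)
    TF_u17
    (CovZ.n1 (11520, -2560) (by decide +kernel)
     (CovZ.n2 (12160, -3200) (by decide +kernel)
      (CovZ.n2 (11520, -3200) (by decide +kernel)
       (CovZ.leaf K2_ok TF_l5032 _)
       (CovZ.n1 (11840, -3520) (by decide +kernel)
        (CovZ.leaf K2_ok TF_l5033 _)
        (CovZ.leaf K2_ok TF_l5034 _)))
      (CovZ.n1 (12160, -2560) (by decide +kernel)
       (CovZ.leaf K2_ok TF_l5035 _)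
       (CovZ.leaf K2_ok TF_l5036 _)))
     (CovZ.subM 42535295866374590785321040339384926728 (by decide +kernel)
      (CovZ.n1 (10880, -3200) (by decide +kernel)
       (CovZ.n2 (10880, -2560) (by decide +kernel)
        (CovZ.n2 (11200, -2880) (by decide +kernel)
         (CovZ.leaf K2_ok TF_l5037 _)
         (CovZ.leaf K2_ok TF_l5038 _))
        (CovZ.n1 (10560, -2880) (by decide +kernel)
         (CovZ.n2 (10560, -2560) (by decide +kernel)
          (CovZ.leaf K2_ok TF_l5039 _)
          (CovZ.leaf K2_ok TF_l5040 _))
         (CovZ.n1 (10880, -2880) (by decide +kernel)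
          (CovZ.leaf K2_ok TF_l5041 _)
          (CovZ.leaf K2_ok TF_l5042 _))))
       (CovZ.n1 (11520, -3200) (by decide +kernel)
        (CovZ.subM 1237940039285380343618600968 (by decide +kernel)
         (CovZ.n2 (11200, -3520) (by decide +kernel)
          (CovZ.n2 (11200, -3200) (by decide +kernel)
           (CovZ.leaf K2_ok TF_l5043 _)
           (CovZ.n1 (11040, -3360) (by decide +kernel)
            (CovZ.leaf K2_ok TF_l5044 _)
            (CovZ.leaf K2_ok TF_l5045 _)))
          (CovZ.n1 (11520, -3520) (by decide +kernel)
           (CovZ.leaf K2_ok TF_l5046 _)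
           (CovZ.leaf K2_ok TF_l5047 _))))
        (CovZ.n1 (11200, -2880) (by decide +kernel)
         (CovZ.leaf K2_ok TF_l5048 _)
         (CovZ.leaf K2_ok TF_l5049 _))))))))

theorem TF_s8_1 : SqZ TF_M TF_L [0, 7, 4, 3] (-7680) (-7680) 2560 8 1 :=
  SqZ.mk (a := 12800) (b := 15360) (c := (-5120)) (d := (-2560)) (by norm_num) (by norm_num) (by norm_num) (by norm_num)
    (CovZ.topM TF_LL 135581298673914989736199352499243582248 (by decide +kernel) (CovZ.n2 (14080, -3840) (by decide +kernel)
    (CovZ.n2 (15360, -3840) (by decide +kernel)
     (CovZ.n2 (14720, -4480) (by decide +kernel)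
      (CovZ.leaf K2_ok TF_l5309 _)
      (CovZ.n1 (15360, -4480) (by decide +kernel)
       (CovZ.leaf K2_ok TF_l5310 _)
       (CovZ.leaf K2_ok TF_l5311 _)))
     (CovZ.n1 (14720, -3200) (by decide +kernel)
      (CovZ.leaf K2_ok TF_l5312 _)
      (CovZ.leaf K2_ok TF_l5313 _)))
    (CovZ.n1 (14080, -5120) (by decide +kernel)
     (CovZ.subM 40568552370234310840447974506504 (by decide +kernel)
      (CovZ.n2 (13440, -4480) (by decide +kernel)
       (CovZ.n2 (14080, -4480) (by decide +kernel)
        (CovZ.n2 (13760, -4800) (by decide +kernel)
         (CovZ.leaf K2_ok TF_l5314 _)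
         (CovZ.n1 (14080, -4800) (by decide +kernel)
          (CovZ.leaf K2_ok TF_l5315 _)
          (CovZ.leaf K2_ok TF_l5316 _)))
        (CovZ.leaf K2_ok TF_l5317 _))
       (CovZ.subM 8 (by decide +kernel)
        (CovZ.n1 (13440, -5120) (by decide +kernel)
         (CovZ.n2 (13120, -4800) (by decide +kernel)
          (CovZ.n2 (13440, -4800) (by decide +kernel)
           (CovZ.leaf K2_ok TF_l13701 _)
           (CovZ.leaf K2_ok TF_l5318 _))
          (CovZ.n1 (13120, -5120) (by decide +kernel)
           (CovZ.leaf K2_ok TF_l13702 _)
           (CovZ.leaf K2_ok TF_l13703 _)))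
         (CovZ.n1 (13760, -4800) (by decide +kernel)
          (CovZ.n2 (13760, -5120) (by decide +kernel)
           (CovZ.leaf K2_ok TF_l13704 _)
           (CovZ.leaf K2_ok TF_l13705 _))
          (CovZ.leaf K2_ok TF_l5319 _))))))
     (CovZ.n1 (14720, -4480) (by decide +kernel)
      (CovZ.n2 (14720, -5120) (by decide +kernel)
       (CovZ.n2 (14400, -4800) (by decide +kernel)
        (CovZ.leaf K2_ok TF_l5320 _)
        (CovZ.leaf K2_ok TF_l5321 _))
       (CovZ.leaf K2_ok TF_l5322 _))
      (CovZ.n1 (14080, -4480) (by decide +kernel)
       (CovZ.leaf K2_ok TF_l5323 _)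
       (CovZ.n1 (14400, -4800) (by decide +kernel)
        (CovZ.leaf K2_ok TF_l5324 _)
        (CovZ.leaf K2_ok TF_l5325 _)))))))
    (CovZ.topM TF_LL 135581298673914989736199352499243582248 (by decide +kernel) (CovZ.n0 (14080, -3840) (by decide +kernel)
    (CovZ.subM 42535338968970878623691469370354041352 (by decide +kernel)
     (CovZ.n2 (12800, -3840) (by decide +kernel)
      (CovZ.leaf K2_ok TF_l5326 _)
      (CovZ.n1 (13440, -4480) (by decide +kernel)
       (CovZ.n2 (12800, -4480) (by decide +kernel)
        (CovZ.leaf K2_ok TF_l5327 _)
        (CovZ.n1 (13120, -4800) (by decide +kernel)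
         (CovZ.leaf K2_ok TF_l5328 _)
         (CovZ.leaf K2_ok TF_l5329 _)))
       (CovZ.n1 (13440, -3840) (by decide +kernel)
        (CovZ.leaf K2_ok TF_l5330 _)
        (CovZ.leaf K2_ok TF_l5331 _)))))
    (CovZ.n1 (14080, -2560) (by decide +kernel)
     (CovZ.leaf K2_ok TF_l5332 _)
     (CovZ.n1 (13440, -3200) (by decide +kernel)
      (CovZ.leaf K2_ok TF_l5333 _)
      (CovZ.leaf K2_ok TF_l5334 _)))))

theorem TF_s9_1 : SqZ TF_M TF_L [0, 7, 4, 3] (-7680) (-7680) 2560 9 1 :=
  SqZ.mk (a := 15360) (b := 17920) (c := (-5120)) (d := (-2560)) (by norm_num) (by norm_num) (by norm_num) (by norm_num)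
    (CovZ.topM TF_LL 135586490970773637900623480663148856104 (by decide +kernel) (CovZ.n2 (16640, -3840) (by decide +kernel)
    (CovZ.n2 (17920, -3840) (by decide +kernel)
     (CovZ.n2 (17280, -4480) (by decide +kernel)
      (CovZ.leaf K2_ok TF_l5681 _)
      (CovZ.n1 (17920, -4480) (by decide +kernel)
       (CovZ.leaf K2_ok TF_l5682 _)
       (CovZ.leaf K2_ok TF_l5683 _)))
     (CovZ.n1 (17280, -3200) (by decide +kernel)
      (CovZ.leaf K2_ok TF_l5684 _)
      (CovZ.leaf K2_ok TF_l5685 _)))
    (CovZ.n1 (16640, -5120) (by decide +kernel)
     (CovZ.n2 (16000, -4480) (by decide +kernel)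
      (CovZ.n2 (16640, -4480) (by decide +kernel)
       (CovZ.leaf K2_ok TF_l5686 _)
       (CovZ.leaf K2_ok TF_l5687 _))
      (CovZ.n1 (16000, -5120) (by decide +kernel)
       (CovZ.leaf K2_ok TF_l5688 _)
       (CovZ.leaf K2_ok TF_l5689 _)))
     (CovZ.n1 (17280, -4480) (by decide +kernel)
      (CovZ.n2 (17280, -5120) (by decide +kernel)
       (CovZ.n2 (16960, -4800) (by decide +kernel)
        (CovZ.leaf K2_ok TF_l5690 _)
        (CovZ.leaf K2_ok TF_l5691 _))
       (CovZ.leaf K2_ok TF_l5692 _))
      (CovZ.n1 (16640, -4480) (by decide +kernel)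
       (CovZ.leaf K2_ok TF_l5693 _)
       (CovZ.n1 (16960, -4800) (by decide +kernel)
        (CovZ.leaf K2_ok TF_l5694 _)
        (CovZ.leaf K2_ok TF_l5695 _)))))))
    (CovZ.topM TF_LL 135586490970773637900623471867057931048 (by decide +kernel) (CovZ.n0 (16640, -3840) (by decide +kernel)
    (CovZ.n2 (15360, -3840) (by decide +kernel)
     (CovZ.leaf K2_ok TF_l5696 _)
     (CovZ.n1 (16000, -4480) (by decide +kernel)
      (CovZ.leaf K2_ok TF_l5697 _)
      (CovZ.leaf K2_ok TF_l5698 _)))
    (CovZ.n1 (16640, -2560) (by decide +kernel)
     (CovZ.leaf K2_ok TF_l5699 _)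
     (CovZ.leaf K2_ok TF_l5700 _))))

theorem TF_s10_1 : SqZ TF_M TF_L [0, 7, 4, 3] (-7680) (-7680) 2560 10 1 :=
  SqZ.mk (a := 17920) (b := 20480) (c := (-5120)) (d := (-2560)) (by norm_num) (by norm_num) (by norm_num) (by norm_num)
    (CovZ.topM TF_LL 43205145264340954753451843993905136168 (by decide +kernel) (CovZ.n2 (19200, -3840) (by decide +kernel)
    (CovZ.n2 (20480, -3840) (by decide +kernel)
     (CovZ.n2 (19840, -4480) (by decide +kernel)
      (CovZ.n2 (19840, -3840) (by decide +kernel)
       (CovZ.leaf K2_ok TF_l6121 _)
       (CovZ.leaf K2_ok TF_l6122 _))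
      (CovZ.n1 (20480, -4480) (by decide +kernel)
       (CovZ.leaf K2_ok TF_l6123 _)
       (CovZ.leaf K2_ok TF_l6124 _)))
     (CovZ.n1 (19840, -3200) (by decide +kernel)
      (CovZ.leaf K2_ok TF_l6125 _)
      (CovZ.leaf K2_ok TF_l6126 _)))
    (CovZ.n1 (19200, -5120) (by decide +kernel)
     (CovZ.n2 (18560, -4480) (by decide +kernel)
      (CovZ.n2 (19200, -4480) (by decide +kernel)
       (CovZ.leaf K2_ok TF_l6127 _)
       (CovZ.leaf K2_ok TF_l6128 _))
      (CovZ.n1 (18560, -5120) (by decide +kernel)
       (CovZ.n2 (18240, -4800) (by decide +kernel)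
        (CovZ.leaf K2_ok TF_l6129 _)
        (CovZ.leaf K2_ok TF_l6130 _))
       (CovZ.leaf K2_ok TF_l6131 _)))
     (CovZ.n1 (19840, -4480) (by decide +kernel)
      (CovZ.n2 (19840, -5120) (by decide +kernel)
       (CovZ.leaf K2_ok TF_l6132 _)
       (CovZ.leaf K2_ok TF_l6133 _))
      (CovZ.leaf K2_ok TF_l6134 _)))))
    (CovZ.topM TF_LL 128275736994575570619295495851847189288 (by decide +kernel) (CovZ.n0 (19200, -3840) (by decide +kernel)
    (CovZ.n2 (17920, -3840) (by decide +kernel)
     (CovZ.leaf K2_ok TF_l6135 _)
     (CovZ.n1 (18560, -4480) (by decide +kernel)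
      (CovZ.n2 (17920, -4480) (by decide +kernel)
       (CovZ.leaf K2_ok TF_l6136 _)
       (CovZ.n1 (18240, -4800) (by decide +kernel)
        (CovZ.leaf K2_ok TF_l6137 _)
        (CovZ.leaf K2_ok TF_l6138 _)))
      (CovZ.leaf K2_ok TF_l6139 _)))
    (CovZ.n1 (19200, -2560) (by decide +kernel)
     (CovZ.n2 (19840, -3200) (by decide +kernel)
      (CovZ.leaf K2_ok TF_l6140 _)
      (CovZ.leaf K2_ok TF_l6141 _))
     (CovZ.leaf K2_ok TF_l6142 _))))

theorem TF_s11_1 : SqZ TF_M TF_L [0, 7, 4, 3] (-7680) (-7680) 2560 11 1 :=
  SqZ.mk (a := 20480) (b := 23040) (c := (-5120)) (d := (-2560)) (by norm_num) (by norm_num) (by norm_num) (by norm_num)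
    (CovZ.topM TF_LL 664616535069911264952611072483820072 (by decide +kernel) (CovZ.n2 (21760, -3840) (by decide +kernel)
    (CovZ.n2 (23040, -3840) (by decide +kernel)
     (CovZ.n2 (22400, -4480) (by decide +kernel)
      (CovZ.n2 (22400, -3840) (by decide +kernel)
       (CovZ.n2 (22720, -4160) (by decide +kernel)
        (CovZ.leaf K2_ok TF_l6484 _)
        (CovZ.n1 (22720, -3840) (by decide +kernel)
         (CovZ.n2 (22880, -4000) (by decide +kernel)
          (CovZ.leaf K2_ok TF_l6485 _)
          (CovZ.leaf K2_ok TF_l6486 _))
         (CovZ.leaf K2_ok TF_l6487 _)))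
       (CovZ.n1 (22080, -4160) (by decide +kernel)
        (CovZ.leaf K2_ok TF_l6488 _)
        (CovZ.leaf K2_ok TF_l6489 _)))
      (CovZ.subM 2536558483308858017336174576160 (by decide +kernel)
       (CovZ.n1 (23040, -4480) (by decide +kernel)
        (CovZ.n2 (22720, -4800) (by decide +kernel)
         (CovZ.n2 (22720, -4480) (by decide +kernel)
          (CovZ.leaf K2_ok TF_l6490 _)
          (CovZ.leaf K2_ok TF_l6491 _))
         (CovZ.n1 (23040, -4800) (by decide +kernel)
          (CovZ.leaf K2_ok TF_l14741 _)
          (CovZ.leaf K2_ok TF_l14742 _)))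
        (CovZ.n1 (22720, -4160) (by decide +kernel)
         (CovZ.n2 (23040, -4160) (by decide +kernel)
          (CovZ.leaf K2_ok TF_l6492 _)
          (CovZ.n1 (22880, -4000) (by decide +kernel)
           (CovZ.leaf K2_ok TF_l6493 _)
           (CovZ.leaf K2_ok TF_l6494 _)))
         (CovZ.leaf K2_ok TF_l6495 _)))))
     (CovZ.n1 (22400, -3200) (by decide +kernel)
      (CovZ.n2 (23040, -3200) (by decide +kernel)
       (CovZ.subM 664616534431598432196086867165184544 (by decide +kernel)
        (CovZ.n2 (22720, -3520) (by decide +kernel)
         (CovZ.n2 (22720, -3200) (by decide +kernel)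
          (CovZ.n2 (22880, -3360) (by decide +kernel)
           (CovZ.leaf K2_ok TF_l6496 _)
           (CovZ.leaf K2_ok TF_l6497 _))
          (CovZ.leaf K2_ok TF_l6498 _))
         (CovZ.n1 (23040, -3520) (by decide +kernel)
          (CovZ.leaf K2_ok TF_l6499 _)
          (CovZ.n1 (22880, -3360) (by decide +kernel)
           (CovZ.leaf K2_ok TF_l6500 _)
           (CovZ.leaf K2_ok TF_l6501 _)))))
       (CovZ.n1 (22720, -2880) (by decide +kernel)
        (CovZ.n2 (23040, -2880) (by decide +kernel)
         (CovZ.leaf K2_ok TF_l6502 _)
         (CovZ.leaf K2_ok TF_l6503 _))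
        (CovZ.leaf K2_ok TF_l6504 _)))
      (CovZ.n1 (22400, -3840) (by decide +kernel)
       (CovZ.n2 (22080, -3520) (by decide +kernel)
        (CovZ.leaf K2_ok TF_l6505 _)
        (CovZ.leaf K2_ok TF_l6506 _))
       (CovZ.leaf K2_ok TF_l6507 _))))
    (CovZ.n1 (21760, -5120) (by decide +kernel)
     (CovZ.n2 (21120, -4480) (by decide +kernel)
      (CovZ.n2 (21760, -4480) (by decide +kernel)
       (CovZ.n2 (21440, -4800) (by decide +kernel)
        (CovZ.leaf K2_ok TF_l6508 _)
        (CovZ.n1 (21760, -4800) (by decide +kernel)
         (CovZ.leaf K2_ok TF_l6509 _)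
         (CovZ.leaf K2_ok TF_l6510 _)))
       (CovZ.n1 (21440, -4160) (by decide +kernel)
        (CovZ.leaf K2_ok TF_l6511 _)
        (CovZ.leaf K2_ok TF_l6512 _)))
      (CovZ.n1 (21120, -5120) (by decide +kernel)
       (CovZ.n2 (20800, -4800) (by decide +kernel)
        (CovZ.leaf K2_ok TF_l6513 _)
        (CovZ.leaf K2_ok TF_l6514 _))
       (CovZ.leaf K2_ok TF_l6515 _)))
     (CovZ.n1 (22400, -4480) (by decide +kernel)
      (CovZ.subM 2536558483308858017336174576160 (by decide +kernel)
       (CovZ.n2 (22400, -5120) (by decide +kernel)
        (CovZ.n2 (22080, -4800) (by decide +kernel)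
         (CovZ.n2 (22400, -4800) (by decide +kernel)
          (CovZ.leaf K2_ok TF_l6516 _)
          (CovZ.leaf K2_ok TF_l6517 _))
         (CovZ.n1 (22080, -5120) (by decide +kernel)
          (CovZ.leaf K2_ok TF_l6518 _)
          (CovZ.leaf K2_ok TF_l6519 _)))
        (CovZ.n1 (22720, -4800) (by decide +kernel)
         (CovZ.n2 (22720, -5120) (by decide +kernel)
          (CovZ.n2 (22560, -4960) (by decide +kernel)
           (CovZ.leaf K2_ok TF_l14743 _)
           (CovZ.leaf K2_ok TF_l6520 _))
          (CovZ.leaf K2_ok TF_l14744 _))
         (CovZ.n1 (22400, -4800) (by decide +kernel)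
          (CovZ.leaf K2_ok TF_l6521 _)
          (CovZ.n1 (22560, -4960) (by decide +kernel)
           (CovZ.leaf K2_ok TF_l6522 _)
           (CovZ.leaf K2_ok TF_l6523 _))))))
      (CovZ.n1 (21760, -4480) (by decide +kernel)
       (CovZ.leaf K2_ok TF_l6524 _)
       (CovZ.n1 (22080, -4800) (by decide +kernel)
        (CovZ.leaf K2_ok TF_l6525 _)
        (CovZ.n1 (22080, -4480) (by decide +kernel)
         (CovZ.leaf K2_ok TF_l6526 _)
         (CovZ.leaf K2_ok TF_l6527 _))))))))
    (CovZ.topM TF_LL 664657099889231905089058833587798568 (by decide +kernel) (CovZ.n0 (21760, -3840) (by decide +kernel)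
    (CovZ.n2 (20480, -3840) (by decide +kernel)
     (CovZ.leaf K2_ok TF_l6528 _)
     (CovZ.n1 (21120, -4480) (by decide +kernel)
      (CovZ.n2 (20480, -4480) (by decide +kernel)
       (CovZ.leaf K2_ok TF_l6529 _)
       (CovZ.n1 (20800, -4800) (by decide +kernel)
        (CovZ.leaf K2_ok TF_l6530 _)
        (CovZ.leaf K2_ok TF_l6531 _)))
      (CovZ.n1 (21120, -3840) (by decide +kernel)
       (CovZ.n2 (21440, -4160) (by decide +kernel)
        (CovZ.leaf K2_ok TF_l6532 _)
        (CovZ.leaf K2_ok TF_l6533 _))
       (CovZ.leaf K2_ok TF_l6534 _))))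
    (CovZ.n1 (21760, -2560) (by decide +kernel)
     (CovZ.subM 664616534431598432196086868238959136 (by decide +kernel)
      (CovZ.n2 (22400, -3200) (by decide +kernel)
       (CovZ.n2 (21760, -3200) (by decide +kernel)
        (CovZ.leaf K2_ok TF_l6535 _)
        (CovZ.n1 (22080, -3520) (by decide +kernel)
         (CovZ.leaf K2_ok TF_l6536 _)
         (CovZ.leaf K2_ok TF_l6537 _)))
       (CovZ.n1 (22400, -2560) (by decide +kernel)
        (CovZ.n2 (22720, -2880) (by decide +kernel)
         (CovZ.leaf K2_ok TF_l6538 _)
         (CovZ.n1 (22720, -2560) (by decide +kernel)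
          (CovZ.leaf K2_ok TF_l6539 _)
          (CovZ.leaf K2_ok TF_l6540 _)))
        (CovZ.n1 (22080, -2880) (by decide +kernel)
         (CovZ.leaf K2_ok TF_l6541 _)
         (CovZ.n1 (22400, -2880) (by decide +kernel)
          (CovZ.leaf K2_ok TF_l6542 _)
          (CovZ.leaf K2_ok TF_l6543 _))))))
     (CovZ.n1 (21120, -3200) (by decide +kernel)
      (CovZ.n2 (21120, -2560) (by decide +kernel)
       (CovZ.leaf K2_ok TF_l6544 _)
       (CovZ.leaf K2_ok TF_l6545 _))
      (CovZ.n1 (21760, -3200) (by decide +kernel)
       (CovZ.leaf K2_ok TF_l6546 _)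
       (CovZ.leaf K2_ok TF_l6547 _))))))

theorem TF_s12_1 : SqZ TF_M TF_L [0, 7, 4, 3] (-7680) (-7680) 2560 12 1 :=
  SqZ.mk (a := 23040) (b := 25600) (c := (-5120)) (d := (-2560)) (by norm_num) (by norm_num) (by norm_num) (by norm_num)
    (CovZ.topM TF_LL 2535320543269608665857220706304 (by decide +kernel) (CovZ.n2 (24320, -3840) (by decide +kernel)
    (CovZ.n2 (25600, -3840) (by decide +kernel)
     (CovZ.badM (by decide +kernel))
     (CovZ.n1 (24960, -3200) (by decide +kernel)
      (CovZ.n2 (25600, -3200) (by decide +kernel)
       (CovZ.badM (by decide +kernel))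
       (CovZ.n1 (25280, -2880) (by decide +kernel)
        (CovZ.badM (by decide +kernel))
        (CovZ.n1 (25280, -3200) (by decide +kernel)
         (CovZ.n2 (25120, -3040) (by decide +kernel)
          (CovZ.n2 (25280, -3040) (by decide +kernel)
           (CovZ.badM (by decide +kernel))
           (CovZ.badM (by decide +kernel)))
          (CovZ.badM (by decide +kernel)))
         (CovZ.n1 (25440, -3040) (by decide +kernel)
          (CovZ.badM (by decide +kernel))
          (CovZ.n1 (25280, -3040) (by decide +kernel)
           (CovZ.badM (by decide +kernel))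
           (CovZ.badM (by decide +kernel)))))))
      (CovZ.badM (by decide +kernel))))
    (CovZ.n1 (24320, -5120) (by decide +kernel)
     (CovZ.n2 (23680, -4480) (by decide +kernel)
      (CovZ.badM (by decide +kernel))
      (CovZ.n1 (23680, -5120) (by decide +kernel)
       (CovZ.n2 (23360, -4800) (by decide +kernel)
        (CovZ.n2 (23680, -4800) (by decide +kernel)
         (CovZ.n2 (23520, -4960) (by decide +kernel)
          (CovZ.n2 (23520, -4800) (by decide +kernel)
           (CovZ.n2 (23600, -4880) (by decide +kernel)
            (CovZ.leaf K2_ok TF_l14984 _)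
            (CovZ.leaf K2_ok TF_l14985 _))
           (CovZ.leaf K2_ok TF_l14986 _))
          (CovZ.n1 (23680, -4960) (by decide +kernel)
           (CovZ.n2 (23600, -5040) (by decide +kernel)
            (CovZ.leaf K2_ok TF_l14987 _)
            (CovZ.leaf K2_ok TF_l14988 _))
           (CovZ.n1 (23600, -4880) (by decide +kernel)
            (CovZ.n2 (23680, -4880) (by decide +kernel)
             (CovZ.leaf K2_ok TF_l14989 _)
             (CovZ.leaf K2_ok TF_l14990 _))
            (CovZ.leaf K2_ok TF_l14991 _))))
         (CovZ.n1 (23520, -4640) (by decide +kernel)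
          (CovZ.n2 (23680, -4640) (by decide +kernel)
           (CovZ.n2 (23600, -4720) (by decide +kernel)
            (CovZ.leaf K2_ok TF_l14992 _)
            (CovZ.n1 (23680, -4720) (by decide +kernel)
             (CovZ.leaf K2_ok TF_l14993 _)
             (CovZ.leaf K2_ok TF_l14994 _)))
           (CovZ.n1 (23600, -4560) (by decide +kernel)
            (CovZ.badM (by decide +kernel))
            (CovZ.leaf K2_ok TF_l14995 _)))
          (CovZ.n1 (23520, -4800) (by decide +kernel)
           (CovZ.leaf K2_ok TF_l14996 _)
           (CovZ.leaf K2_ok TF_l14997 _))))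
        (CovZ.n1 (23360, -5120) (by decide +kernel)
         (CovZ.n2 (23200, -4960) (by decide +kernel)
          (CovZ.n2 (23360, -4960) (by decide +kernel)
           (CovZ.leaf K2_ok TF_l14998 _)
           (CovZ.leaf K2_ok TF_l14999 _))
          (CovZ.leaf K2_ok TF_l15000 _))
         (CovZ.leaf K2_ok TF_l15001 _)))
       (CovZ.n1 (24000, -4800) (by decide +kernel)
        (CovZ.n2 (24000, -5120) (by decide +kernel)
         (CovZ.n2 (23840, -4960) (by decide +kernel)
          (CovZ.badM (by decide +kernel))
          (CovZ.n1 (23840, -5120) (by decide +kernel)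
           (CovZ.n2 (23760, -5040) (by decide +kernel)
            (CovZ.n2 (23840, -5040) (by decide +kernel)
             (CovZ.n2 (23800, -5080) (by decide +kernel)
              (CovZ.leaf K2_ok TF_l15002 _)
              (CovZ.leaf K2_ok TF_l15003 _))
             (CovZ.n1 (23800, -5000) (by decide +kernel)
              (CovZ.n2 (23840, -5000) (by decide +kernel)
               (CovZ.leaf K2_ok TF_l15004 _)
               (CovZ.leaf K2_ok TF_l15005 _))
              (CovZ.leaf K2_ok TF_l15006 _)))
            (CovZ.leaf K2_ok TF_l15007 _))
           (CovZ.n1 (23920, -5040) (by decide +kernel)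
            (CovZ.n2 (23920, -5120) (by decide +kernel)
             (CovZ.n2 (23880, -5080) (by decide +kernel)
              (CovZ.n2 (23920, -5080) (by decide +kernel)
               (CovZ.n2 (23900, -5100) (by decide +kernel)
                (CovZ.leaf K2_ok TF_l15008 _)
                (CovZ.leaf K2_ok TF_l15009 _))
               (CovZ.n1 (23900, -5060) (by decide +kernel)
                (CovZ.badM (by decide +kernel))
                (CovZ.leaf K2_ok TF_l15010 _)))
              (CovZ.leaf K2_ok TF_l15011 _))
             (CovZ.n1 (23960, -5080) (by decide +kernel)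
              (CovZ.n2 (23960, -5120) (by decide +kernel)
               (CovZ.n2 (23940, -5100) (by decide +kernel)
                (CovZ.badM (by decide +kernel))
                (CovZ.leaf K2_ok TF_l15012 _))
               (CovZ.badM (by decide +kernel)))
              (CovZ.n1 (23920, -5080) (by decide +kernel)
               (CovZ.badM (by decide +kernel))
               (CovZ.n1 (23940, -5100) (by decide +kernel)
                (CovZ.leaf K2_ok TF_l15013 _)
                (CovZ.badM (by decide +kernel))))))
            (CovZ.n1 (23840, -5040) (by decide +kernel)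
             (CovZ.leaf K2_ok TF_l15014 _)
             (CovZ.n1 (23880, -5080) (by decide +kernel)
              (CovZ.leaf K2_ok TF_l15015 _)
              (CovZ.n1 (23880, -5040) (by decide +kernel)
               (CovZ.n2 (23900, -5060) (by decide +kernel)
                (CovZ.leaf K2_ok TF_l15016 _)
                (CovZ.badM (by decide +kernel)))
               (CovZ.leaf K2_ok TF_l15017 _)))))))
         (CovZ.badM (by decide +kernel)))
        (CovZ.n1 (23680, -4800) (by decide +kernel)
         (CovZ.n2 (23840, -4640) (by decide +kernel)
          (CovZ.n2 (23840, -4800) (by decide +kernel)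
           (CovZ.n2 (23760, -4720) (by decide +kernel)
            (CovZ.badM (by decide +kernel))
            (CovZ.n1 (23760, -4800) (by decide +kernel)
             (CovZ.leaf K2_ok TF_l15018 _)
             (CovZ.badM (by decide +kernel))))
           (CovZ.badM (by decide +kernel)))
          (CovZ.n1 (23680, -4640) (by decide +kernel)
           (CovZ.badM (by decide +kernel))
           (CovZ.n1 (23760, -4720) (by decide +kernel)
            (CovZ.n2 (23680, -4720) (by decide +kernel)
             (CovZ.badM (by decide +kernel))
             (CovZ.leaf K2_ok TF_l15019 _))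
            (CovZ.badM (by decide +kernel)))))
         (CovZ.n1 (23840, -4960) (by decide +kernel)
          (CovZ.n2 (23680, -4960) (by decide +kernel)
           (CovZ.leaf K2_ok TF_l15020 _)
           (CovZ.n1 (23760, -5040) (by decide +kernel)
            (CovZ.leaf K2_ok TF_l15021 _)
            (CovZ.n1 (23760, -4960) (by decide +kernel)
             (CovZ.n2 (23800, -5000) (by decide +kernel)
              (CovZ.leaf K2_ok TF_l15022 _)
              (CovZ.leaf K2_ok TF_l15023 _))
             (CovZ.leaf K2_ok TF_l15024 _))))
          (CovZ.n1 (23840, -4800) (by decide +kernel)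
           (CovZ.badM (by decide +kernel))
           (CovZ.n1 (23760, -4880) (by decide +kernel)
            (CovZ.n2 (23760, -4800) (by decide +kernel)
             (CovZ.n2 (23800, -4840) (by decide +kernel)
              (CovZ.leaf K2_ok TF_l15025 _)
              (CovZ.badM (by decide +kernel)))
             (CovZ.leaf K2_ok TF_l15026 _))
            (CovZ.n1 (23840, -4880) (by decide +kernel)
             (CovZ.n2 (23800, -4920) (by decide +kernel)
              (CovZ.leaf K2_ok TF_l15027 _)
              (CovZ.badM (by decide +kernel)))
             (CovZ.n1 (23800, -4840) (by decide +kernel)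
              (CovZ.badM (by decide +kernel))
              (CovZ.leaf K2_ok TF_l15028 _))))))))))
     (CovZ.badM (by decide +kernel)))))
    (CovZ.topM TF_LL 664616534450941245345949730979480096 (by decide +kernel) (CovZ.n0 (24320, -3840) (by decide +kernel)
    (CovZ.n2 (23040, -3840) (by decide +kernel)
     (CovZ.n2 (23680, -3200) (by decide +kernel)
      TF_u18
      TF_u19)
     (CovZ.subM 2536558483308858017335100834336 (by decide +kernel)
      (CovZ.n1 (23680, -4480) (by decide +kernel)
       (CovZ.n2 (23040, -4480) (by decide +kernel)
        (CovZ.n2 (23360, -4160) (by decide +kernel)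
         (CovZ.n2 (23360, -4480) (by decide +kernel)
          (CovZ.n2 (23200, -4320) (by decide +kernel)
           (CovZ.n2 (23360, -4320) (by decide +kernel)
            (CovZ.leaf K2_ok TF_l15116 _)
            (CovZ.leaf K2_ok TF_l15117 _))
           (CovZ.leaf K2_ok TF_l15118 _))
          (CovZ.n1 (23520, -4320) (by decide +kernel)
           (CovZ.n2 (23520, -4480) (by decide +kernel)
            (CovZ.n2 (23440, -4400) (by decide +kernel)
             (CovZ.leaf K2_ok TF_l15119 _)
             (CovZ.leaf K2_ok TF_l15120 _))
            (CovZ.leaf K2_ok TF_l15121 _))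
           (CovZ.n1 (23360, -4320) (by decide +kernel)
            (CovZ.leaf K2_ok TF_l15122 _)
            (CovZ.n1 (23440, -4400) (by decide +kernel)
             (CovZ.leaf K2_ok TF_l15123 _)
             (CovZ.leaf K2_ok TF_l15124 _)))))
         (CovZ.n1 (23040, -4160) (by decide +kernel)
          (CovZ.leaf K2_ok TF_l6721 _)
          (CovZ.n1 (23200, -4320) (by decide +kernel)
           (CovZ.leaf K2_ok TF_l15125 _)
           (CovZ.leaf K2_ok TF_l15126 _))))
        (CovZ.n1 (23360, -4800) (by decide +kernel)
         (CovZ.n2 (23040, -4800) (by decide +kernel)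
          (CovZ.leaf K2_ok TF_l15127 _)
          (CovZ.n1 (23200, -4960) (by decide +kernel)
           (CovZ.leaf K2_ok TF_l15128 _)
           (CovZ.leaf K2_ok TF_l15129 _)))
         (CovZ.n1 (23360, -4480) (by decide +kernel)
          (CovZ.n2 (23520, -4640) (by decide +kernel)
           (CovZ.leaf K2_ok TF_l15130 _)
           (CovZ.n1 (23520, -4480) (by decide +kernel)
            (CovZ.n2 (23600, -4560) (by decide +kernel)
             (CovZ.leaf K2_ok TF_l15131 _)
             (CovZ.n1 (23600, -4480) (by decide +kernel)
              (CovZ.badM (by decide +kernel))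
              (CovZ.leaf K2_ok TF_l15132 _)))
            (CovZ.leaf K2_ok TF_l15133 _)))
          (CovZ.n1 (23200, -4640) (by decide +kernel)
           (CovZ.leaf K2_ok TF_l15134 _)
           (CovZ.n1 (23360, -4640) (by decide +kernel)
            (CovZ.leaf K2_ok TF_l15135 _)
            (CovZ.leaf K2_ok TF_l15136 _))))))
       (CovZ.n1 (23680, -3840) (by decide +kernel)
        (CovZ.badM (by decide +kernel))
        (CovZ.n1 (23360, -4160) (by decide +kernel)
         (CovZ.n2 (23360, -3840) (by decide +kernel)
          (CovZ.n2 (23520, -4000) (by decide +kernel)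
           (CovZ.n2 (23360, -4000) (by decide +kernel)
            (CovZ.leaf K2_ok TF_l15137 _)
            (CovZ.badM (by decide +kernel)))
           (CovZ.n1 (23520, -3840) (by decide +kernel)
            (CovZ.badM (by decide +kernel))
            (CovZ.n1 (23440, -3920) (by decide +kernel)
             (CovZ.leaf K2_ok TF_l15138 _)
             (CovZ.badM (by decide +kernel)))))
          (CovZ.n1 (23200, -4000) (by decide +kernel)
           (CovZ.n2 (23200, -3840) (by decide +kernel)
            (CovZ.leaf K2_ok TF_l15139 _)
            (CovZ.leaf K2_ok TF_l6722 _))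
           (CovZ.n1 (23360, -4000) (by decide +kernel)
            (CovZ.leaf K2_ok TF_l15140 _)
            (CovZ.leaf K2_ok TF_l15141 _))))
         (CovZ.badM (by decide +kernel)))))))
    (CovZ.n1 (24320, -2560) (by decide +kernel)
     (CovZ.subM 664613997892457936487932327159169024 (by decide +kernel)
      (CovZ.n2 (24960, -3200) (by decide +kernel)
       TF_u20
       TF_u21))
     (CovZ.n1 (23680, -3200) (by decide +kernel)
      TF_u22
      TF_u23))))

theorem TF_s13_1 : SqZ TF_M TF_L [0, 7, 4, 3] (-7680) (-7680) 2560 13 1 :=
  SqZ.mk (a := 25600) (b := 28160) (c := (-5120)) (d := (-2560)) (by norm_num) (by norm_num) (by norm_num) (by norm_num)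
    (CovZ.topM TF_LL 36028797018996736 (by decide +kernel) (CovZ.n2 (26880, -3840) (by decide +kernel)
    (CovZ.n2 (28160, -3840) (by decide +kernel)
     (CovZ.badM (by decide +kernel))
     (CovZ.n1 (27520, -3200) (by decide +kernel)
      (CovZ.badM (by decide +kernel))
      (CovZ.n1 (27520, -3840) (by decide +kernel)
       (CovZ.n2 (27200, -3520) (by decide +kernel)
        (CovZ.badM (by decide +kernel))
        (CovZ.badM (by decide +kernel)))
       (CovZ.badM (by decide +kernel)))))
    (CovZ.badM (by decide +kernel))))
    (CovZ.topM TF_LL 36028797018996736 (by decide +kernel) (CovZ.n0 (26880, -3840) (by decide +kernel)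
    (CovZ.n2 (25600, -3840) (by decide +kernel)
     (CovZ.n2 (26240, -3200) (by decide +kernel)
      (CovZ.badM (by decide +kernel))
      (CovZ.n1 (25600, -3200) (by decide +kernel)
       (CovZ.badM (by decide +kernel))
       (CovZ.badM (by decide +kernel))))
     (CovZ.badM (by decide +kernel)))
    (CovZ.n1 (26880, -2560) (by decide +kernel)
     (CovZ.n2 (27520, -3200) (by decide +kernel)
      (CovZ.n2 (26880, -3200) (by decide +kernel)
       (CovZ.badM (by decide +kernel))
       (CovZ.n1 (27200, -3520) (by decide +kernel)
        (CovZ.badM (by decide +kernel))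
        (CovZ.badM (by decide +kernel))))
      (CovZ.badM (by decide +kernel)))
     (CovZ.n1 (26240, -3200) (by decide +kernel)
      (CovZ.badM (by decide +kernel))
      (CovZ.n1 (26880, -3200) (by decide +kernel)
       (CovZ.badM (by decide +kernel))
       (CovZ.badM (by decide +kernel)))))))

end Pool.Agent.TET
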