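import Pool.Agent.Helper38_TET.TF_M
import Pool.Agent.Helper38_TET.TF_L
import Pool.Agent.Helper38_TET.TF_16
import Pool.Agent.Helper38_TET.TF_17
import Pool.Agent.Helper38_TET.TF_26
import Pool.Agent.Helper38_TET.TF_27
import Pool.Agent.Helper38_TET.TF_45
import Pool.Agent.Helper38_TET.TF_46
import Pool.Agent.Helper38_TET.TF_47
import Pool.Agent.Helper38_TET.TF_48
import Pool.Agent.Helper38_TET.TF_49
import Pool.Agent.Helper38_TET.TF_75
import Pool.Agent.Helper38_TET.TF_76
import Pool.Agent.Helper38_TET.TF_77
import Pool.Agent.Helper38_TET.TF_85
import Pool.Agent.Helper38_TET.TF_86
import Pool.Agent.Helper38_TET.TF_101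
import Pool.Agent.Helper38_TET.TF_102
import Pool.Agent.Helper38_TET.TF_104
import Pool.Agent.Helper38_TET.TF_107

/-!
# MP_c7c9bf_co: certificates, family TF
-/

set_option autoImplicit false
set_option maxRecDepth 100000

namespace Pool.Agent.TET

theorem TF_u30 : CovZ TF_M (toL (selN TF_LN 166153499522850678099107189551927300)) [0, 7, 4, 3] (1920, -640) (1600, -320) (1280, -640) :=
    (CovZ.subM 170228320287295136727044 (by decide +kernel)
          (CovZ.n2 (1600, -640) (by decide +kernel)
           (CovZ.n2 (1440, -480) (by decide +kernel)
            (CovZ.n2 (1600, -480) (by decide +kernel)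
             (CovZ.subM 18963865397322741579776 (by decide +kernel)
              (CovZ.n2 (1520, -560) (by decide +kernel)
               (CovZ.n2 (1520, -480) (by decide +kernel)
                (CovZ.n2 (1560, -520) (by decide +kernel)
                 (CovZ.n2 (1520, -520) (by decide +kernel)
                  (CovZ.leaf K2_ok TF_l2418 _)
                  (CovZ.n1 (1540, -540) (by decide +kernel)
                   (CovZ.leaf K2_ok TF_l11286 _)
                   (CovZ.leaf K2_ok TF_l11287 _)))
                 (CovZ.n1 (1560, -480) (by decide +kernel)
                  (CovZ.leaf K2_ok TF_l2419 _)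
                  (CovZ.leaf K2_ok TF_l2420 _)))
                (CovZ.n1 (1480, -520) (by decide +kernel)
                 (CovZ.n2 (1480, -480) (by decide +kernel)
                  (CovZ.leaf K2_ok TF_l2421 _)
                  (CovZ.leaf K2_ok TF_l2422 _))
                 (CovZ.n1 (1520, -520) (by decide +kernel)
                  (CovZ.n2 (1500, -540) (by decide +kernel)
                   (CovZ.leaf K2_ok TF_l11288 _)
                   (CovZ.n1 (1520, -540) (by decide +kernel)
                    (CovZ.leaf K2_ok TF_l11289 _)
                    (CovZ.leaf K2_ok TF_l11290 _)))
                  (CovZ.leaf K2_ok TF_l2423 _))))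
               (CovZ.n1 (1600, -560) (by decide +kernel)
                (CovZ.n2 (1560, -600) (by decide +kernel)
                 (CovZ.n2 (1560, -560) (by decide +kernel)
                  (CovZ.n2 (1580, -580) (by decide +kernel)
                   (CovZ.badM (by decide +kernel))
                   (CovZ.leaf K2_ok TF_l11291 _))
                  (CovZ.badM (by decide +kernel)))
                 (CovZ.n1 (1600, -600) (by decide +kernel)
                  (CovZ.badM (by decide +kernel))
                  (CovZ.n1 (1580, -580) (by decide +kernel)
                   (CovZ.n2 (1600, -580) (by decide +kernel)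
                    (CovZ.badM (by decide +kernel))
                    (CovZ.leaf K2_ok TF_l11292 _))
                   (CovZ.badM (by decide +kernel)))))
                (CovZ.n1 (1560, -520) (by decide +kernel)
                 (CovZ.n2 (1600, -520) (by decide +kernel)
                  (CovZ.leaf K2_ok TF_l11293 _)
                  (CovZ.leaf K2_ok TF_l2424 _))
                 (CovZ.n1 (1560, -560) (by decide +kernel)
                  (CovZ.n2 (1540, -540) (by decide +kernel)
                   (CovZ.leaf K2_ok TF_l11294 _)
                   (CovZ.leaf K2_ok TF_l11295 _))
                  (CovZ.leaf K2_ok TF_l11296 _))))))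
             (CovZ.n1 (1520, -400) (by decide +kernel)
              (CovZ.n2 (1600, -400) (by decide +kernel)
               (CovZ.n2 (1560, -440) (by decide +kernel)
                (CovZ.leaf K2_ok TF_l2425 _)
                (CovZ.leaf K2_ok TF_l2426 _))
               (CovZ.leaf K2_ok TF_l2427 _))
              (CovZ.n1 (1520, -480) (by decide +kernel)
               (CovZ.n2 (1480, -440) (by decide +kernel)
                (CovZ.leaf K2_ok TF_l2428 _)
                (CovZ.leaf K2_ok TF_l2429 _))
               (CovZ.leaf K2_ok TF_l2430 _))))
            (CovZ.subM 18963829368525722484736 (by decide +kernel)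
             (CovZ.n1 (1440, -640) (by decide +kernel)
              (CovZ.n2 (1360, -560) (by decide +kernel)
               (CovZ.n2 (1440, -560) (by decide +kernel)
                (CovZ.badM (by decide +kernel))
                (CovZ.n1 (1400, -520) (by decide +kernel)
                 (CovZ.n2 (1440, -520) (by decide +kernel)
                  (CovZ.n2 (1420, -540) (by decide +kernel)
                   (CovZ.leaf K2_ok TF_l11297 _)
                   (CovZ.n1 (1440, -540) (by decide +kernel)
                    (CovZ.badM (by decide +kernel))
                    (CovZ.leaf K2_ok TF_l11298 _)))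
                  (CovZ.leaf K2_ok TF_l11299 _))
                 (CovZ.n1 (1400, -560) (by decide +kernel)
                  (CovZ.n2 (1380, -540) (by decide +kernel)
                   (CovZ.n2 (1400, -540) (by decide +kernel)
                    (CovZ.badM (by decide +kernel))
                    (CovZ.leaf K2_ok TF_l11300 _))
                   (CovZ.badM (by decide +kernel)))
                  (CovZ.n1 (1420, -540) (by decide +kernel)
                   (CovZ.badM (by decide +kernel))
                   (CovZ.leaf K2_ok TF_l11301 _)))))
               (CovZ.badM (by decide +kernel)))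
              (CovZ.n1 (1520, -560) (by decide +kernel)
               (CovZ.badM (by decide +kernel))
               (CovZ.n1 (1440, -560) (by decide +kernel)
                (CovZ.n2 (1480, -520) (by decide +kernel)
                 (CovZ.n2 (1480, -560) (by decide +kernel)
                  (CovZ.n2 (1460, -540) (by decide +kernel)
                   (CovZ.n2 (1480, -540) (by decide +kernel)
                    (CovZ.leaf K2_ok TF_l11302 _)
                    (CovZ.leaf K2_ok TF_l11303 _))
                   (CovZ.leaf K2_ok TF_l11304 _))
                  (CovZ.leaf K2_ok TF_l11305 _))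
                 (CovZ.n1 (1440, -520) (by decide +kernel)
                  (CovZ.leaf K2_ok TF_l11306 _)
                  (CovZ.n1 (1460, -540) (by decide +kernel)
                   (CovZ.leaf K2_ok TF_l11307 _)
                   (CovZ.leaf K2_ok TF_l11308 _))))
                (CovZ.badM (by decide +kernel)))))))
           (CovZ.n1 (1760, -480) (by decide +kernel)
            (CovZ.subM 18963865397322741579776 (by decide +kernel)
             (CovZ.n2 (1760, -640) (by decide +kernel)
              (CovZ.n2 (1680, -560) (by decide +kernel)
               (CovZ.n2 (1760, -560) (by decide +kernel)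
                (CovZ.n2 (1720, -600) (by decide +kernel)
                 (CovZ.n2 (1720, -560) (by decide +kernel)
                  (CovZ.n2 (1740, -580) (by decide +kernel)
                   (CovZ.leaf K2_ok TF_l11309 _)
                   (CovZ.leaf K2_ok TF_l11310 _))
                  (CovZ.n1 (1700, -580) (by decide +kernel)
                   (CovZ.leaf K2_ok TF_l11311 _)
                   (CovZ.leaf K2_ok TF_l11312 _)))
                 (CovZ.n1 (1760, -600) (by decide +kernel)
                  (CovZ.badM (by decide +kernel))
                  (CovZ.n1 (1740, -580) (by decide +kernel)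
                   (CovZ.leaf K2_ok TF_l11313 _)
                   (CovZ.leaf K2_ok TF_l11314 _))))
                (CovZ.n1 (1720, -520) (by decide +kernel)
                 (CovZ.n2 (1760, -520) (by decide +kernel)
                  (CovZ.leaf K2_ok TF_l2431 _)
                  (CovZ.leaf K2_ok TF_l2432 _))
                 (CovZ.leaf K2_ok TF_l2433 _)))
               (CovZ.n1 (1680, -640) (by decide +kernel)
                (CovZ.n2 (1640, -600) (by decide +kernel)
                 (CovZ.n2 (1680, -600) (by decide +kernel)
                  (CovZ.badM (by decide +kernel))
                  (CovZ.n1 (1660, -580) (by decide +kernel)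
                   (CovZ.n2 (1680, -580) (by decide +kernel)
                    (CovZ.badM (by decide +kernel))
                    (CovZ.leaf K2_ok TF_l11315 _))
                   (CovZ.badM (by decide +kernel))))
                 (CovZ.badM (by decide +kernel)))
                (CovZ.n1 (1720, -600) (by decide +kernel)
                 (CovZ.badM (by decide +kernel))
                 (CovZ.n1 (1680, -600) (by decide +kernel)
                  (CovZ.leaf K2_ok TF_l11316 _)
                  (CovZ.badM (by decide +kernel))))))
              (CovZ.n1 (1840, -560) (by decide +kernel)
               (CovZ.n2 (1840, -640) (by decide +kernel)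
                (CovZ.n2 (1800, -600) (by decide +kernel)
                 (CovZ.n2 (1840, -600) (by decide +kernel)
                  (CovZ.n2 (1820, -620) (by decide +kernel)
                   (CovZ.n2 (1820, -600) (by decide +kernel)
                    (CovZ.leaf K2_ok TF_l11317 _)
                    (CovZ.leaf K2_ok TF_l11318 _))
                   (CovZ.n1 (1840, -620) (by decide +kernel)
                    (CovZ.badM (by decide +kernel))
                    (CovZ.leaf K2_ok TF_l11319 _)))
                  (CovZ.n1 (1820, -580) (by decide +kernel)
                   (CovZ.leaf K2_ok TF_l11320 _)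
                   (CovZ.leaf K2_ok TF_l11321 _)))
                 (CovZ.badM (by decide +kernel)))
                (CovZ.n1 (1880, -600) (by decide +kernel)
                 (CovZ.n2 (1880, -640) (by decide +kernel)
                  (CovZ.n2 (1860, -620) (by decide +kernel)
                   (CovZ.n2 (1880, -620) (by decide +kernel)
                    (CovZ.badM (by decide +kernel))
                    (CovZ.leaf K2_ok TF_l11322 _))
                   (CovZ.badM (by decide +kernel)))
                  (CovZ.n1 (1900, -620) (by decide +kernel)
                   (CovZ.leaf K2_ok TF_l11323 _)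
                   (CovZ.n1 (1880, -620) (by decide +kernel)
                    (CovZ.leaf K2_ok TF_l11324 _)
                    (CovZ.leaf K2_ok TF_l11325 _))))
                 (CovZ.n1 (1840, -600) (by decide +kernel)
                  (CovZ.leaf K2_ok TF_l11326 _)
                  (CovZ.n1 (1860, -620) (by decide +kernel)
                   (CovZ.n2 (1840, -620) (by decide +kernel)
                    (CovZ.leaf K2_ok TF_l11327 _)
                    (CovZ.badM (by decide +kernel)))
                   (CovZ.n1 (1860, -600) (by decide +kernel)
                    (CovZ.leaf K2_ok TF_l11328 _)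
                    (CovZ.leaf K2_ok TF_l11329 _))))))
               (CovZ.n1 (1760, -560) (by decide +kernel)
                (CovZ.leaf K2_ok TF_l2434 _)
                (CovZ.n1 (1800, -600) (by decide +kernel)
                 (CovZ.n2 (1760, -600) (by decide +kernel)
                  (CovZ.leaf K2_ok TF_l11330 _)
                  (CovZ.badM (by decide +kernel)))
                 (CovZ.n1 (1800, -560) (by decide +kernel)
                  (CovZ.leaf K2_ok TF_l11331 _)
                  (CovZ.n1 (1780, -580) (by decide +kernel)
                   (CovZ.leaf K2_ok TF_l11332 _)
                   (CovZ.leaf K2_ok TF_l11333 _))))))))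
            (CovZ.n1 (1600, -480) (by decide +kernel)
             (CovZ.n2 (1680, -400) (by decide +kernel)
              (CovZ.leaf K2_ok TF_l2435 _)
              (CovZ.leaf K2_ok TF_l2436 _))
             (CovZ.subM 18963865397322741579776 (by decide +kernel)
              (CovZ.n1 (1680, -560) (by decide +kernel)
               (CovZ.n2 (1600, -560) (by decide +kernel)
                (CovZ.n2 (1640, -520) (by decide +kernel)
                 (CovZ.leaf K2_ok TF_l11334 _)
                 (CovZ.leaf K2_ok TF_l2437 _))
                (CovZ.n1 (1640, -600) (by decide +kernel)
                 (CovZ.n2 (1600, -600) (by decide +kernel)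
                  (CovZ.n2 (1620, -580) (by decide +kernel)
                   (CovZ.badM (by decide +kernel))
                   (CovZ.n1 (1600, -580) (by decide +kernel)
                    (CovZ.leaf K2_ok TF_l11335 _)
                    (CovZ.badM (by decide +kernel))))
                  (CovZ.badM (by decide +kernel)))
                 (CovZ.n1 (1640, -560) (by decide +kernel)
                  (CovZ.n2 (1660, -580) (by decide +kernel)
                   (CovZ.leaf K2_ok TF_l11336 _)
                   (CovZ.leaf K2_ok TF_l11337 _))
                  (CovZ.n1 (1620, -580) (by decide +kernel)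
                   (CovZ.n2 (1620, -560) (by decide +kernel)
                    (CovZ.leaf K2_ok TF_l11338 _)
                    (CovZ.leaf K2_ok TF_l11339 _))
                   (CovZ.n1 (1640, -580) (by decide +kernel)
                    (CovZ.badM (by decide +kernel))
                    (CovZ.leaf K2_ok TF_l11340 _))))))
               (CovZ.n1 (1680, -480) (by decide +kernel)
                (CovZ.n2 (1720, -520) (by decide +kernel)
                 (CovZ.leaf K2_ok TF_l2438 _)
                 (CovZ.leaf K2_ok TF_l2439 _))
                (CovZ.n1 (1640, -520) (by decide +kernel)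
                 (CovZ.leaf K2_ok TF_l2440 _)
                 (CovZ.n1 (1680, -520) (by decide +kernel)
                  (CovZ.leaf K2_ok TF_l11341 _)
                  (CovZ.leaf K2_ok TF_l2441 _))))))))))

theorem TF_u31 : CovZ TF_M (toL (selN TF_LN 166153499522850678099107189551927300)) [0, 7, 4, 3] (1600, -320) (1280, 0) (1280, -640) :=
    (CovZ.n1 (1280, -320) (by decide +kernel)
          (CovZ.n2 (1440, -160) (by decide +kernel)
           (CovZ.n2 (1440, -320) (by decide +kernel)
            (CovZ.n2 (1360, -240) (by decide +kernel)
             (CovZ.leaf K2_ok TF_l2442 _)
             (CovZ.leaf K2_ok TF_l2443 _))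
            (CovZ.leaf K2_ok TF_l2444 _))
           (CovZ.n1 (1280, -160) (by decide +kernel)
            (CovZ.leaf K2_ok TF_l2445 _)
            (CovZ.n1 (1360, -240) (by decide +kernel)
             (CovZ.leaf K2_ok TF_l2446 _)
             (CovZ.leaf K2_ok TF_l2447 _))))
          (CovZ.n1 (1440, -480) (by decide +kernel)
           (CovZ.subM 166153499473284714738543236932042756 (by decide +kernel)
            (CovZ.n2 (1280, -480) (by decide +kernel)
             (CovZ.n2 (1360, -400) (by decide +kernel)
              (CovZ.n2 (1360, -480) (by decide +kernel)
               (CovZ.n2 (1320, -440) (by decide +kernel)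
                (CovZ.leaf K2_ok TF_l2448 _)
                (CovZ.leaf K2_ok TF_l2449 _))
               (CovZ.leaf K2_ok TF_l2450 _))
              (CovZ.n1 (1280, -400) (by decide +kernel)
               (CovZ.leaf K2_ok TF_l2451 _)
               (CovZ.n1 (1320, -440) (by decide +kernel)
                (CovZ.leaf K2_ok TF_l2452 _)
                (CovZ.leaf K2_ok TF_l2453 _))))
             (CovZ.subM 18963829369625234112512 (by decide +kernel)
              (CovZ.n1 (1360, -560) (by decide +kernel)
               (CovZ.n2 (1280, -560) (by decide +kernel)
                (CovZ.n2 (1320, -520) (by decide +kernel)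
                 (CovZ.n2 (1320, -560) (by decide +kernel)
                  (CovZ.n2 (1300, -540) (by decide +kernel)
                   (CovZ.n2 (1320, -540) (by decide +kernel)
                    (CovZ.badM (by decide +kernel))
                    (CovZ.leaf K2_ok TF_l11342 _))
                   (CovZ.badM (by decide +kernel)))
                  (CovZ.n1 (1340, -540) (by decide +kernel)
                   (CovZ.badM (by decide +kernel))
                   (CovZ.n1 (1320, -540) (by decide +kernel)
                    (CovZ.leaf K2_ok TF_l11343 _)
                    (CovZ.badM (by decide +kernel)))))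
                 (CovZ.n1 (1280, -520) (by decide +kernel)
                  (CovZ.leaf K2_ok TF_l11344 _)
                  (CovZ.n1 (1300, -540) (by decide +kernel)
                   (CovZ.badM (by decide +kernel))
                   (CovZ.n1 (1300, -520) (by decide +kernel)
                    (CovZ.leaf K2_ok TF_l11345 _)
                    (CovZ.badM (by decide +kernel))))))
                (CovZ.badM (by decide +kernel)))
               (CovZ.n1 (1360, -480) (by decide +kernel)
                (CovZ.n2 (1400, -520) (by decide +kernel)
                 (CovZ.n2 (1360, -520) (by decide +kernel)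
                  (CovZ.leaf K2_ok TF_l11346 _)
                  (CovZ.n1 (1380, -540) (by decide +kernel)
                   (CovZ.n2 (1360, -540) (by decide +kernel)
                    (CovZ.leaf K2_ok TF_l11347 _)
                    (CovZ.badM (by decide +kernel)))
                   (CovZ.leaf K2_ok TF_l11348 _)))
                 (CovZ.n1 (1400, -480) (by decide +kernel)
                  (CovZ.leaf K2_ok TF_l11349 _)
                  (CovZ.n1 (1380, -500) (by decide +kernel)
                   (CovZ.leaf K2_ok TF_l11350 _)
                   (CovZ.leaf K2_ok TF_l11351 _))))
                (CovZ.n1 (1320, -520) (by decide +kernel)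
                 (CovZ.n2 (1320, -480) (by decide +kernel)
                  (CovZ.n2 (1340, -500) (by decide +kernel)
                   (CovZ.leaf K2_ok TF_l11352 _)
                   (CovZ.leaf K2_ok TF_l11353 _))
                  (CovZ.n1 (1300, -500) (by decide +kernel)
                   (CovZ.leaf K2_ok TF_l11354 _)
                   (CovZ.n1 (1320, -500) (by decide +kernel)
                    (CovZ.leaf K2_ok TF_l11355 _)
                    (CovZ.leaf K2_ok TF_l11356 _))))
                 (CovZ.n1 (1360, -520) (by decide +kernel)
                  (CovZ.n2 (1340, -540) (by decide +kernel)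
                   (CovZ.n2 (1340, -520) (by decide +kernel)
                    (CovZ.leaf K2_ok TF_l11357 _)
                    (CovZ.leaf K2_ok TF_l11358 _))
                   (CovZ.n1 (1360, -540) (by decide +kernel)
                    (CovZ.badM (by decide +kernel))
                    (CovZ.leaf K2_ok TF_l11359 _)))
                  (CovZ.n1 (1340, -500) (by decide +kernel)
                   (CovZ.leaf K2_ok TF_l11360 _)
                   (CovZ.leaf K2_ok TF_l11361 _)))))))))
           (CovZ.n1 (1440, -320) (by decide +kernel)
            (CovZ.subM 166153499473284712433263177671770116 (by decide +kernel)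
             (CovZ.n2 (1520, -400) (by decide +kernel)
              (CovZ.n2 (1440, -400) (by decide +kernel)
               (CovZ.leaf K2_ok TF_l2454 _)
               (CovZ.n1 (1480, -440) (by decide +kernel)
                (CovZ.leaf K2_ok TF_l2455 _)
                (CovZ.leaf K2_ok TF_l2456 _)))
              (CovZ.leaf K2_ok TF_l2457 _)))
            (CovZ.n1 (1360, -400) (by decide +kernel)
             (CovZ.n2 (1360, -320) (by decide +kernel)
              (CovZ.leaf K2_ok TF_l2458 _)
              (CovZ.leaf K2_ok TF_l2459 _))
             (CovZ.n1 (1440, -400) (by decide +kernel)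
              (CovZ.n2 (1400, -440) (by decide +kernel)
               (CovZ.leaf K2_ok TF_l2460 _)
               (CovZ.leaf K2_ok TF_l2461 _))
              (CovZ.leaf K2_ok TF_l2462 _))))))

theorem TF_u32 : CovZ TF_M (toL (selN TF_LN 166153499523455141011201488329117700)) [0, 7, 4, 3] (640, -640) (960, -640) (960, -320) :=
    (CovZ.n2 (800, -480) (by decide +kernel)
           (CovZ.n2 (960, -480) (by decide +kernel)
            (CovZ.subM 166153499522680597208692480392040452 (by decide +kernel)
             (CovZ.n2 (880, -560) (by decide +kernel)
              (CovZ.n2 (880, -480) (by decide +kernel)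
               (CovZ.n2 (920, -520) (by decide +kernel)
                (CovZ.n2 (880, -520) (by decide +kernel)
                 (CovZ.leaf K2_ok TF_l11419 _)
                 (CovZ.n1 (900, -540) (by decide +kernel)
                  (CovZ.leaf K2_ok TF_l11420 _)
                  (CovZ.leaf K2_ok TF_l11421 _)))
                (CovZ.n1 (920, -480) (by decide +kernel)
                 (CovZ.n2 (940, -500) (by decide +kernel)
                  (CovZ.leaf K2_ok TF_l11422 _)
                  (CovZ.leaf K2_ok TF_l11423 _))
                 (CovZ.n1 (900, -500) (by decide +kernel)
                  (CovZ.leaf K2_ok TF_l11424 _)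
                  (CovZ.leaf K2_ok TF_l11425 _))))
               (CovZ.n1 (840, -520) (by decide +kernel)
                (CovZ.n2 (840, -480) (by decide +kernel)
                 (CovZ.leaf K2_ok TF_l11426 _)
                 (CovZ.leaf K2_ok TF_l11427 _))
                (CovZ.n1 (880, -520) (by decide +kernel)
                 (CovZ.n2 (860, -540) (by decide +kernel)
                  (CovZ.leaf K2_ok TF_l11428 _)
                  (CovZ.n1 (880, -540) (by decide +kernel)
                   (CovZ.leaf K2_ok TF_l11429 _)
                   (CovZ.leaf K2_ok TF_l11430 _)))
                 (CovZ.leaf K2_ok TF_l11431 _))))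
              (CovZ.n1 (960, -560) (by decide +kernel)
               (CovZ.subM 48357037396306369791918080 (by decide +kernel)
                (CovZ.n2 (920, -600) (by decide +kernel)
                 (CovZ.n2 (920, -560) (by decide +kernel)
                  (CovZ.badM (by decide +kernel))
                  (CovZ.n1 (900, -580) (by decide +kernel)
                   (CovZ.n2 (900, -560) (by decide +kernel)
                    (CovZ.badM (by decide +kernel))
                    (CovZ.leaf K2_ok TF_l11432 _))
                   (CovZ.badM (by decide +kernel))))
                 (CovZ.badM (by decide +kernel))))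
               (CovZ.n1 (920, -520) (by decide +kernel)
                (CovZ.subM 49565965521728823804297220 (by decide +kernel)
                 (CovZ.n2 (960, -520) (by decide +kernel)
                  (CovZ.n2 (940, -540) (by decide +kernel)
                   (CovZ.n2 (940, -520) (by decide +kernel)
                    (CovZ.leaf K2_ok TF_l11433 _)
                    (CovZ.leaf K2_ok TF_l11434 _))
                   (CovZ.n1 (960, -540) (by decide +kernel)
                    (CovZ.badM (by decide +kernel))
                    (CovZ.leaf K2_ok TF_l11435 _)))
                  (CovZ.n1 (940, -500) (by decide +kernel)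
                   (CovZ.n2 (960, -500) (by decide +kernel)
                    (CovZ.leaf K2_ok TF_l11436 _)
                    (CovZ.leaf K2_ok TF_l11437 _))
                   (CovZ.leaf K2_ok TF_l11438 _))))
                (CovZ.n1 (920, -560) (by decide +kernel)
                 (CovZ.n2 (900, -540) (by decide +kernel)
                  (CovZ.n2 (920, -540) (by decide +kernel)
                   (CovZ.leaf K2_ok TF_l11439 _)
                   (CovZ.leaf K2_ok TF_l11440 _))
                  (CovZ.n1 (900, -560) (by decide +kernel)
                   (CovZ.leaf K2_ok TF_l11441 _)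
                   (CovZ.leaf K2_ok TF_l11442 _)))
                 (CovZ.n1 (940, -540) (by decide +kernel)
                  (CovZ.badM (by decide +kernel))
                  (CovZ.n1 (920, -540) (by decide +kernel)
                   (CovZ.leaf K2_ok TF_l11443 _)
                   (CovZ.leaf K2_ok TF_l11444 _))))))))
            (CovZ.n1 (880, -400) (by decide +kernel)
             (CovZ.n2 (960, -400) (by decide +kernel)
              (CovZ.n2 (920, -440) (by decide +kernel)
               (CovZ.n2 (920, -400) (by decide +kernel)
                (CovZ.leaf K2_ok TF_l2592 _)
                (CovZ.leaf K2_ok TF_l2593 _))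
               (CovZ.n1 (960, -440) (by decide +kernel)
                (CovZ.n2 (940, -460) (by decide +kernel)
                 (CovZ.leaf K2_ok TF_l11445 _)
                 (CovZ.leaf K2_ok TF_l11446 _))
                (CovZ.leaf K2_ok TF_l2594 _)))
              (CovZ.n1 (920, -360) (by decide +kernel)
               (CovZ.leaf K2_ok TF_l2595 _)
               (CovZ.leaf K2_ok TF_l2596 _)))
             (CovZ.n1 (880, -480) (by decide +kernel)
              (CovZ.n2 (840, -440) (by decide +kernel)
               (CovZ.n2 (880, -440) (by decide +kernel)
                (CovZ.leaf K2_ok TF_l11447 _)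
                (CovZ.leaf K2_ok TF_l2597 _))
               (CovZ.leaf K2_ok TF_l11448 _))
              (CovZ.leaf K2_ok TF_l2598 _))))
           (CovZ.subM 166153499522680597208692480392040452 (by decide +kernel)
            (CovZ.n1 (800, -640) (by decide +kernel)
             (CovZ.n2 (720, -560) (by decide +kernel)
              (CovZ.n2 (800, -560) (by decide +kernel)
               (CovZ.n2 (760, -600) (by decide +kernel)
                (CovZ.n2 (760, -560) (by decide +kernel)
                 (CovZ.n2 (780, -580) (by decide +kernel)
                  (CovZ.leaf K2_ok TF_l11449 _)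
                  (CovZ.leaf K2_ok TF_l11450 _))
                 (CovZ.n1 (740, -580) (by decide +kernel)
                  (CovZ.leaf K2_ok TF_l11451 _)
                  (CovZ.leaf K2_ok TF_l11452 _)))
                (CovZ.subM 48357039702149379005616128 (by decide +kernel)
                 (CovZ.n1 (800, -600) (by decide +kernel)
                  (CovZ.n2 (780, -620) (by decide +kernel)
                   (CovZ.n2 (780, -600) (by decide +kernel)
                    (CovZ.leaf K2_ok TF_l11453 _)
                    (CovZ.leaf K2_ok TF_l11454 _))
                   (CovZ.badM (by decide +kernel)))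
                  (CovZ.n1 (780, -580) (by decide +kernel)
                   (CovZ.n2 (800, -580) (by decide +kernel)
                    (CovZ.leaf K2_ok TF_l11455 _)
                    (CovZ.leaf K2_ok TF_l11456 _))
                   (CovZ.leaf K2_ok TF_l11457 _)))))
               (CovZ.n1 (760, -520) (by decide +kernel)
                (CovZ.n2 (800, -520) (by decide +kernel)
                 (CovZ.leaf K2_ok TF_l11458 _)
                 (CovZ.leaf K2_ok TF_l11459 _))
                (CovZ.n1 (760, -560) (by decide +kernel)
                 (CovZ.n2 (740, -540) (by decide +kernel)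
                  (CovZ.leaf K2_ok TF_l11460 _)
                  (CovZ.leaf K2_ok TF_l11461 _))
                 (CovZ.leaf K2_ok TF_l11462 _))))
              (CovZ.subM 39894558964846974782672896 (by decide +kernel)
               (CovZ.n1 (720, -640) (by decide +kernel)
                (CovZ.n2 (680, -600) (by decide +kernel)
                 (CovZ.n2 (720, -600) (by decide +kernel)
                  (CovZ.n2 (700, -620) (by decide +kernel)
                   (CovZ.leaf K2_ok TF_l11463 _)
                   (CovZ.n1 (720, -620) (by decide +kernel)
                    (CovZ.leaf K2_ok TF_l11464 _)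
                    (CovZ.leaf K2_ok TF_l11465 _)))
                  (CovZ.n1 (700, -580) (by decide +kernel)
                   (CovZ.leaf K2_ok TF_l11466 _)
                   (CovZ.leaf K2_ok TF_l11467 _)))
                 (CovZ.n1 (680, -640) (by decide +kernel)
                  (CovZ.n2 (660, -620) (by decide +kernel)
                   (CovZ.leaf K2_ok TF_l11468 _)
                   (CovZ.leaf K2_ok TF_l11469 _))
                  (CovZ.leaf K2_ok TF_l11470 _)))
                (CovZ.n1 (760, -600) (by decide +kernel)
                 (CovZ.subM 2305843009213698048 (by decide +kernel)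
                  (CovZ.n2 (760, -640) (by decide +kernel)
                   (CovZ.n2 (740, -620) (by decide +kernel)
                    (CovZ.n2 (760, -620) (by decide +kernel)
                     (CovZ.leaf K2_ok TF_l11471 _)
                     (CovZ.leaf K2_ok TF_l11472 _))
                    (CovZ.n1 (740, -640) (by decide +kernel)
                     (CovZ.leaf K2_ok TF_l11473 _)
                     (CovZ.leaf K2_ok TF_l11474 _)))
                   (CovZ.n1 (780, -620) (by decide +kernel)
                    (CovZ.badM (by decide +kernel))
                    (CovZ.n1 (760, -620) (by decide +kernel)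
                     (CovZ.leaf K2_ok TF_l11475 _)
                     (CovZ.badM (by decide +kernel))))))
                 (CovZ.n1 (720, -600) (by decide +kernel)
                  (CovZ.leaf K2_ok TF_l11476 _)
                  (CovZ.subM 6917564212013174784 (by decide +kernel)
                   (CovZ.n1 (740, -620) (by decide +kernel)
                    (CovZ.n2 (720, -620) (by decide +kernel)
                     (CovZ.leaf K2_ok TF_l11477 _)
                     (CovZ.leaf K2_ok TF_l11478 _))
                    (CovZ.n1 (740, -600) (by decide +kernel)
                     (CovZ.leaf K2_ok TF_l11479 _)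
                     (CovZ.leaf K2_ok TF_l11480 _)))))))))
             (CovZ.n1 (880, -560) (by decide +kernel)
              (CovZ.subM 48357037396306369791918080 (by decide +kernel)
               (CovZ.n2 (880, -640) (by decide +kernel)
                (CovZ.n2 (840, -600) (by decide +kernel)
                 (CovZ.n2 (880, -600) (by decide +kernel)
                  (CovZ.badM (by decide +kernel))
                  (CovZ.n1 (860, -580) (by decide +kernel)
                   (CovZ.n2 (880, -580) (by decide +kernel)
                    (CovZ.leaf K2_ok TF_l11481 _)
                    (CovZ.leaf K2_ok TF_l11482 _))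
                   (CovZ.leaf K2_ok TF_l11483 _)))
                 (CovZ.badM (by decide +kernel)))
                (CovZ.n1 (920, -600) (by decide +kernel)
                 (CovZ.badM (by decide +kernel))
                 (CovZ.n1 (880, -600) (by decide +kernel)
                  (CovZ.n2 (900, -580) (by decide +kernel)
                   (CovZ.badM (by decide +kernel))
                   (CovZ.n1 (880, -580) (by decide +kernel)
                    (CovZ.leaf K2_ok TF_l11484 _)
                    (CovZ.badM (by decide +kernel))))
                  (CovZ.badM (by decide +kernel))))))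
              (CovZ.n1 (800, -560) (by decide +kernel)
               (CovZ.n2 (840, -520) (by decide +kernel)
                (CovZ.n2 (840, -560) (by decide +kernel)
                 (CovZ.n2 (820, -540) (by decide +kernel)
                  (CovZ.n2 (840, -540) (by decide +kernel)
                   (CovZ.leaf K2_ok TF_l11485 _)
                   (CovZ.leaf K2_ok TF_l11486 _))
                  (CovZ.leaf K2_ok TF_l11487 _))
                 (CovZ.leaf K2_ok TF_l11488 _))
                (CovZ.n1 (800, -520) (by decide +kernel)
                 (CovZ.leaf K2_ok TF_l11489 _)
                 (CovZ.n1 (820, -540) (by decide +kernel)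
                  (CovZ.leaf K2_ok TF_l11490 _)
                  (CovZ.leaf K2_ok TF_l11491 _))))
               (CovZ.subM 48357039702149379005616128 (by decide +kernel)
                (CovZ.n1 (840, -600) (by decide +kernel)
                 (CovZ.n2 (800, -600) (by decide +kernel)
                  (CovZ.n2 (820, -580) (by decide +kernel)
                   (CovZ.leaf K2_ok TF_l11492 _)
                   (CovZ.leaf K2_ok TF_l11493 _))
                  (CovZ.badM (by decide +kernel)))
                 (CovZ.n1 (840, -560) (by decide +kernel)
                  (CovZ.n2 (860, -580) (by decide +kernel)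
                   (CovZ.leaf K2_ok TF_l11494 _)
                   (CovZ.n1 (860, -560) (by decide +kernel)
                    (CovZ.leaf K2_ok TF_l11495 _)
                    (CovZ.leaf K2_ok TF_l11496 _)))
                  (CovZ.n1 (820, -580) (by decide +kernel)
                   (CovZ.leaf K2_ok TF_l11497 _)
                   (CovZ.n1 (840, -580) (by decide +kernel)
                    (CovZ.leaf K2_ok TF_l11498 _)
                    (CovZ.leaf K2_ok TF_l11499 _)))))))))))

theorem TF_u33 : CovZ TF_M (toL (selN TF_LN 166153499523455141011201488329117700)) [0, 7, 4, 3] (960, -640) (1280, -640) (960, -320) :=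
    (CovZ.n1 (1120, -480) (by decide +kernel)
           (CovZ.subM 18963252907773419061248 (by decide +kernel)
            (CovZ.n2 (1120, -640) (by decide +kernel)
             (CovZ.n2 (1040, -560) (by decide +kernel)
              (CovZ.n2 (1120, -560) (by decide +kernel)
               (CovZ.badM (by decide +kernel))
               (CovZ.n1 (1080, -520) (by decide +kernel)
                (CovZ.n2 (1120, -520) (by decide +kernel)
                 (CovZ.badM (by decide +kernel))
                 (CovZ.n1 (1100, -500) (by decide +kernel)
                  (CovZ.n2 (1120, -500) (by decide +kernel)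
                   (CovZ.badM (by decide +kernel))
                   (CovZ.leaf K2_ok TF_l11500 _))
                  (CovZ.badM (by decide +kernel))))
                (CovZ.badM (by decide +kernel))))
              (CovZ.badM (by decide +kernel)))
             (CovZ.n1 (1200, -560) (by decide +kernel)
              (CovZ.badM (by decide +kernel))
              (CovZ.n1 (1120, -560) (by decide +kernel)
               (CovZ.n2 (1160, -520) (by decide +kernel)
                (CovZ.badM (by decide +kernel))
                (CovZ.n1 (1120, -520) (by decide +kernel)
                 (CovZ.n2 (1140, -500) (by decide +kernel)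
                  (CovZ.badM (by decide +kernel))
                  (CovZ.n1 (1120, -500) (by decide +kernel)
                   (CovZ.leaf K2_ok TF_l11501 _)
                   (CovZ.badM (by decide +kernel))))
                 (CovZ.badM (by decide +kernel))))
               (CovZ.badM (by decide +kernel))))))
           (CovZ.n1 (960, -480) (by decide +kernel)
            (CovZ.n2 (1040, -400) (by decide +kernel)
             (CovZ.subM 166153499522699561038025821738237956 (by decide +kernel)
              (CovZ.n2 (1040, -480) (by decide +kernel)
               (CovZ.n2 (1000, -440) (by decide +kernel)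
                (CovZ.n2 (1040, -440) (by decide +kernel)
                 (CovZ.n2 (1020, -460) (by decide +kernel)
                  (CovZ.leaf K2_ok TF_l11502 _)
                  (CovZ.leaf K2_ok TF_l11503 _))
                 (CovZ.leaf K2_ok TF_l2599 _))
                (CovZ.n1 (1000, -480) (by decide +kernel)
                 (CovZ.n2 (980, -460) (by decide +kernel)
                  (CovZ.n2 (1000, -460) (by decide +kernel)
                   (CovZ.leaf K2_ok TF_l11504 _)
                   (CovZ.leaf K2_ok TF_l11505 _))
                  (CovZ.leaf K2_ok TF_l11506 _))
                 (CovZ.leaf K2_ok TF_l11507 _)))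
               (CovZ.n1 (1080, -440) (by decide +kernel)
                (CovZ.n2 (1080, -480) (by decide +kernel)
                 (CovZ.n2 (1060, -460) (by decide +kernel)
                  (CovZ.leaf K2_ok TF_l11508 _)
                  (CovZ.leaf K2_ok TF_l11509 _))
                 (CovZ.leaf K2_ok TF_l11510 _))
                (CovZ.n1 (1040, -440) (by decide +kernel)
                 (CovZ.leaf K2_ok TF_l2600 _)
                 (CovZ.n1 (1060, -460) (by decide +kernel)
                  (CovZ.leaf K2_ok TF_l11511 _)
                  (CovZ.leaf K2_ok TF_l11512 _))))))
             (CovZ.n1 (960, -400) (by decide +kernel)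
              (CovZ.leaf K2_ok TF_l2601 _)
              (CovZ.n1 (1000, -440) (by decide +kernel)
               (CovZ.n2 (960, -440) (by decide +kernel)
                (CovZ.leaf K2_ok TF_l2602 _)
                (CovZ.n1 (980, -460) (by decide +kernel)
                 (CovZ.leaf K2_ok TF_l11513 _)
                 (CovZ.leaf K2_ok TF_l11514 _)))
               (CovZ.n1 (1000, -400) (by decide +kernel)
                (CovZ.leaf K2_ok TF_l2603 _)
                (CovZ.leaf K2_ok TF_l2604 _)))))
            (CovZ.subM 49584928774636597223358468 (by decide +kernel)
             (CovZ.n1 (1040, -560) (by decide +kernel)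
              (CovZ.n2 (960, -560) (by decide +kernel)
               (CovZ.n2 (1000, -520) (by decide +kernel)
                (CovZ.badM (by decide +kernel))
                (CovZ.n1 (960, -520) (by decide +kernel)
                 (CovZ.leaf K2_ok TF_l11515 _)
                 (CovZ.subM 1208925819614629174706176 (by decide +kernel)
                  (CovZ.n1 (980, -540) (by decide +kernel)
                   (CovZ.n2 (960, -540) (by decide +kernel)
                    (CovZ.leaf K2_ok TF_l11516 _)
                    (CovZ.badM (by decide +kernel)))
                   (CovZ.n1 (980, -520) (by decide +kernel)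
                    (CovZ.leaf K2_ok TF_l11517 _)
                    (CovZ.leaf K2_ok TF_l11518 _))))))
               (CovZ.badM (by decide +kernel)))
              (CovZ.n1 (1040, -480) (by decide +kernel)
               (CovZ.subM 18963252907773419061248 (by decide +kernel)
                (CovZ.n2 (1080, -520) (by decide +kernel)
                 (CovZ.badM (by decide +kernel))
                 (CovZ.n1 (1080, -480) (by decide +kernel)
                  (CovZ.n2 (1100, -500) (by decide +kernel)
                   (CovZ.n2 (1080, -500) (by decide +kernel)
                    (CovZ.leaf K2_ok TF_l11519 _)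
                    (CovZ.badM (by decide +kernel)))
                   (CovZ.n1 (1100, -480) (by decide +kernel)
                    (CovZ.leaf K2_ok TF_l11520 _)
                    (CovZ.leaf K2_ok TF_l11521 _)))
                  (CovZ.n1 (1060, -500) (by decide +kernel)
                   (CovZ.n2 (1060, -480) (by decide +kernel)
                    (CovZ.leaf K2_ok TF_l11522 _)
                    (CovZ.leaf K2_ok TF_l11523 _))
                   (CovZ.n1 (1080, -500) (by decide +kernel)
                    (CovZ.badM (by decide +kernel))
                    (CovZ.leaf K2_ok TF_l11524 _))))))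
               (CovZ.n1 (1000, -520) (by decide +kernel)
                (CovZ.n2 (1000, -480) (by decide +kernel)
                 (CovZ.n2 (1020, -500) (by decide +kernel)
                  (CovZ.leaf K2_ok TF_l11525 _)
                  (CovZ.n1 (1020, -480) (by decide +kernel)
                   (CovZ.leaf K2_ok TF_l11526 _)
                   (CovZ.leaf K2_ok TF_l11527 _)))
                 (CovZ.n1 (980, -500) (by decide +kernel)
                  (CovZ.leaf K2_ok TF_l11528 _)
                  (CovZ.n1 (1000, -500) (by decide +kernel)
                   (CovZ.leaf K2_ok TF_l11529 _)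
                   (CovZ.leaf K2_ok TF_l11530 _))))
                (CovZ.badM (by decide +kernel))))))))

theorem TF_u34 : CovZ TF_M (toL (selN TF_LN 7507425955755850604376505186537248825903828996)) [0, 7, 4, 3] (0, 0) (640, -640) (1280, 0) :=
    (CovZ.subM 166153499523455159421916765288140804 (by decide +kernel)
       (CovZ.n2 (640, 0) (by decide +kernel)
        (CovZ.n2 (960, -320) (by decide +kernel)
         (CovZ.n2 (640, -320) (by decide +kernel)
          (CovZ.n2 (800, -160) (by decide +kernel)
           (CovZ.n2 (800, -320) (by decide +kernel)
            (CovZ.n2 (720, -240) (by decide +kernel)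
             (CovZ.n2 (800, -240) (by decide +kernel)
              (CovZ.leaf K2_ok TF_l2506 _)
              (CovZ.leaf K2_ok TF_l2507 _))
             (CovZ.leaf K2_ok TF_l2508 _))
            (CovZ.leaf K2_ok TF_l2509 _))
           (CovZ.n1 (640, -160) (by decide +kernel)
            (CovZ.leaf K2_ok TF_l2510 _)
            (CovZ.n1 (720, -240) (by decide +kernel)
             (CovZ.leaf K2_ok TF_l2511 _)
             (CovZ.leaf K2_ok TF_l2512 _))))
          (CovZ.n1 (800, -480) (by decide +kernel)
           (CovZ.n2 (640, -480) (by decide +kernel)
            (CovZ.n2 (720, -400) (by decide +kernel)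
             (CovZ.n2 (720, -480) (by decide +kernel)
              (CovZ.n2 (680, -440) (by decide +kernel)
               (CovZ.leaf K2_ok TF_l2513 _)
               (CovZ.leaf K2_ok TF_l11369 _))
              (CovZ.leaf K2_ok TF_l2514 _))
             (CovZ.n1 (640, -400) (by decide +kernel)
              (CovZ.leaf K2_ok TF_l2515 _)
              (CovZ.n1 (680, -440) (by decide +kernel)
               (CovZ.leaf K2_ok TF_l2516 _)
               (CovZ.leaf K2_ok TF_l2517 _))))
            (CovZ.subM 166153499522680597208692480392040452 (by decide +kernel)
             (CovZ.n1 (720, -560) (by decide +kernel)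
              (CovZ.n2 (640, -560) (by decide +kernel)
               (CovZ.leaf K2_ok TF_l11370 _)
               (CovZ.n1 (680, -600) (by decide +kernel)
                (CovZ.n2 (640, -600) (by decide +kernel)
                 (CovZ.leaf K2_ok TF_l11371 _)
                 (CovZ.n1 (660, -620) (by decide +kernel)
                  (CovZ.leaf K2_ok TF_l11372 _)
                  (CovZ.leaf K2_ok TF_l11373 _)))
                (CovZ.n1 (680, -560) (by decide +kernel)
                 (CovZ.n2 (700, -580) (by decide +kernel)
                  (CovZ.leaf K2_ok TF_l11374 _)
                  (CovZ.leaf K2_ok TF_l11375 _))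
                 (CovZ.leaf K2_ok TF_l11376 _))))
              (CovZ.n1 (720, -480) (by decide +kernel)
               (CovZ.n2 (760, -520) (by decide +kernel)
                (CovZ.n2 (720, -520) (by decide +kernel)
                 (CovZ.leaf K2_ok TF_l11377 _)
                 (CovZ.n1 (740, -540) (by decide +kernel)
                  (CovZ.leaf K2_ok TF_l11378 _)
                  (CovZ.leaf K2_ok TF_l11379 _)))
                (CovZ.n1 (760, -480) (by decide +kernel)
                 (CovZ.leaf K2_ok TF_l11380 _)
                 (CovZ.leaf K2_ok TF_l11381 _)))
               (CovZ.n1 (680, -520) (by decide +kernel)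
                (CovZ.leaf K2_ok TF_l11382 _)
                (CovZ.n1 (720, -520) (by decide +kernel)
                 (CovZ.leaf K2_ok TF_l11383 _)
                 (CovZ.leaf K2_ok TF_l11384 _)))))))
           (CovZ.n1 (800, -320) (by decide +kernel)
            (CovZ.n2 (880, -400) (by decide +kernel)
             (CovZ.n2 (800, -400) (by decide +kernel)
              (CovZ.leaf K2_ok TF_l2518 _)
              (CovZ.n1 (840, -440) (by decide +kernel)
               (CovZ.leaf K2_ok TF_l2519 _)
               (CovZ.leaf K2_ok TF_l2520 _)))
             (CovZ.n1 (880, -320) (by decide +kernel)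
              (CovZ.n2 (920, -360) (by decide +kernel)
               (CovZ.leaf K2_ok TF_l2521 _)
               (CovZ.leaf K2_ok TF_l2522 _))
              (CovZ.n1 (840, -360) (by decide +kernel)
               (CovZ.leaf K2_ok TF_l2523 _)
               (CovZ.n1 (880, -360) (by decide +kernel)
                (CovZ.leaf K2_ok TF_l2524 _)
                (CovZ.leaf K2_ok TF_l2525 _)))))
            (CovZ.n1 (720, -400) (by decide +kernel)
             (CovZ.n2 (720, -320) (by decide +kernel)
              (CovZ.leaf K2_ok TF_l2526 _)
              (CovZ.leaf K2_ok TF_l2527 _))
             (CovZ.n1 (800, -400) (by decide +kernel)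
              (CovZ.n2 (760, -440) (by decide +kernel)
               (CovZ.leaf K2_ok TF_l2528 _)
               (CovZ.leaf K2_ok TF_l2529 _))
              (CovZ.leaf K2_ok TF_l2530 _))))))
         (CovZ.n1 (960, 0) (by decide +kernel)
          (CovZ.n2 (1120, -160) (by decide +kernel)
           (CovZ.n2 (960, -160) (by decide +kernel)
            (CovZ.leaf K2_ok TF_l2531 _)
            (CovZ.n1 (1040, -240) (by decide +kernel)
             (CovZ.leaf K2_ok TF_l2532 _)
             (CovZ.leaf K2_ok TF_l2533 _)))
           (CovZ.n1 (1120, 0) (by decide +kernel)
            (CovZ.leaf K2_ok TF_l2534 _)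
            (CovZ.leaf K2_ok TF_l2535 _)))
          (CovZ.n1 (800, -160) (by decide +kernel)
           (CovZ.n2 (800, 0) (by decide +kernel)
            (CovZ.leaf K2_ok TF_l2536 _)
            (CovZ.leaf K2_ok TF_l2537 _))
           (CovZ.n1 (960, -160) (by decide +kernel)
            (CovZ.n2 (880, -240) (by decide +kernel)
             (CovZ.leaf K2_ok TF_l2538 _)
             (CovZ.n1 (960, -240) (by decide +kernel)
              (CovZ.leaf K2_ok TF_l2539 _)
              (CovZ.leaf K2_ok TF_l2540 _)))
            (CovZ.leaf K2_ok TF_l2541 _)))))
        (CovZ.n1 (320, -320) (by decide +kernel)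
         (CovZ.n2 (320, 0) (by decide +kernel)
          (CovZ.n2 (480, -160) (by decide +kernel)
           (CovZ.n2 (320, -160) (by decide +kernel)
            (CovZ.leaf K2_ok TF_l2542 _)
            (CovZ.n1 (400, -240) (by decide +kernel)
             (CovZ.leaf K2_ok TF_l2543 _)
             (CovZ.leaf K2_ok TF_l2544 _)))
           (CovZ.n1 (480, 0) (by decide +kernel)
            (CovZ.leaf K2_ok TF_l2545 _)
            (CovZ.leaf K2_ok TF_l2546 _)))
          (CovZ.n1 (160, -160) (by decide +kernel)
           (CovZ.n2 (160, 0) (by decide +kernel)
            (CovZ.leaf K2_ok TF_l2547 _)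
            (CovZ.leaf K2_ok TF_l2548 _))
           (CovZ.n1 (320, -160) (by decide +kernel)
            (CovZ.leaf K2_ok TF_l2549 _)
            (CovZ.leaf K2_ok TF_l2550 _))))
         (CovZ.n1 (640, -320) (by decide +kernel)
          (CovZ.n2 (480, -480) (by decide +kernel)
           (CovZ.n2 (480, -320) (by decide +kernel)
            (CovZ.n2 (560, -400) (by decide +kernel)
             (CovZ.leaf K2_ok TF_l2551 _)
             (CovZ.n1 (560, -320) (by decide +kernel)
              (CovZ.leaf K2_ok TF_l2552 _)
              (CovZ.leaf K2_ok TF_l2553 _)))
            (CovZ.n1 (400, -400) (by decide +kernel)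
             (CovZ.leaf K2_ok TF_l2554 _)
             (CovZ.n1 (480, -400) (by decide +kernel)
              (CovZ.leaf K2_ok TF_l2555 _)
              (CovZ.leaf K2_ok TF_l2556 _))))
           (CovZ.n1 (640, -480) (by decide +kernel)
            (CovZ.subM 166153499522680615655436554101592068 (by decide +kernel)
             (CovZ.n2 (560, -560) (by decide +kernel)
              (CovZ.n2 (560, -480) (by decide +kernel)
               (CovZ.n2 (600, -520) (by decide +kernel)
                (CovZ.leaf K2_ok TF_l11385 _)
                (CovZ.leaf K2_ok TF_l11386 _))
               (CovZ.n1 (520, -520) (by decide +kernel)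
                (CovZ.leaf K2_ok TF_l2557 _)
                (CovZ.leaf K2_ok TF_l2558 _)))
              (CovZ.n1 (640, -560) (by decide +kernel)
               (CovZ.n2 (600, -600) (by decide +kernel)
                (CovZ.n2 (600, -560) (by decide +kernel)
                 (CovZ.leaf K2_ok TF_l11387 _)
                 (CovZ.leaf K2_ok TF_l11388 _))
                (CovZ.n1 (640, -600) (by decide +kernel)
                 (CovZ.leaf K2_ok TF_l11389 _)
                 (CovZ.leaf K2_ok TF_l11390 _)))
               (CovZ.n1 (600, -520) (by decide +kernel)
                (CovZ.leaf K2_ok TF_l11391 _)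
                (CovZ.leaf K2_ok TF_l11392 _)))))
            (CovZ.n1 (560, -400) (by decide +kernel)
             (CovZ.n2 (640, -400) (by decide +kernel)
              (CovZ.leaf K2_ok TF_l2559 _)
              (CovZ.leaf K2_ok TF_l2560 _))
             (CovZ.leaf K2_ok TF_l2561 _))))
          (CovZ.n1 (480, -160) (by decide +kernel)
           (CovZ.n2 (640, -160) (by decide +kernel)
            (CovZ.n2 (560, -240) (by decide +kernel)
             (CovZ.leaf K2_ok TF_l2562 _)
             (CovZ.leaf K2_ok TF_l2563 _))
            (CovZ.leaf K2_ok TF_l2564 _))
           (CovZ.n1 (480, -320) (by decide +kernel)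
            (CovZ.n2 (400, -240) (by decide +kernel)
             (CovZ.leaf K2_ok TF_l2565 _)
             (CovZ.leaf K2_ok TF_l2566 _))
            (CovZ.leaf K2_ok TF_l2567 _)))))))

theorem TF_u35 : CovZ TF_M (toL (selN TF_LN 7507425955755850604376505186537248825903828996)) [0, 7, 4, 3] (640, -640) (1280, -1280) (1280, 0) :=
    (CovZ.subM 166153499523455141011201488329117700 (by decide +kernel)
       (CovZ.n1 (1280, -640) (by decide +kernel)
        (CovZ.subM 9671408862760042611343360 (by decide +kernel)
         (CovZ.n2 (960, -960) (by decide +kernel)
          (CovZ.n2 (960, -640) (by decide +kernel)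
           (CovZ.badM (by decide +kernel))
           (CovZ.n1 (800, -800) (by decide +kernel)
            (CovZ.n2 (800, -640) (by decide +kernel)
             (CovZ.badM (by decide +kernel))
             (CovZ.n1 (720, -720) (by decide +kernel)
              (CovZ.n2 (720, -640) (by decide +kernel)
               (CovZ.badM (by decide +kernel))
               (CovZ.n1 (680, -680) (by decide +kernel)
                (CovZ.n2 (680, -640) (by decide +kernel)
                 (CovZ.n2 (700, -660) (by decide +kernel)
                  (CovZ.n2 (680, -660) (by decide +kernel)
                   (CovZ.leaf K2_ok TF_l11393 _)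
                   (CovZ.badM (by decide +kernel)))
                  (CovZ.n1 (700, -640) (by decide +kernel)
                   (CovZ.leaf K2_ok TF_l11394 _)
                   (CovZ.leaf K2_ok TF_l11395 _)))
                 (CovZ.n1 (660, -660) (by decide +kernel)
                  (CovZ.n2 (660, -640) (by decide +kernel)
                   (CovZ.leaf K2_ok TF_l11396 _)
                   (CovZ.leaf K2_ok TF_l11397 _))
                  (CovZ.n1 (680, -660) (by decide +kernel)
                   (CovZ.leaf K2_ok TF_l11398 _)
                   (CovZ.leaf K2_ok TF_l11399 _))))
                (CovZ.badM (by decide +kernel))))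
              (CovZ.badM (by decide +kernel))))
            (CovZ.badM (by decide +kernel))))
          (CovZ.badM (by decide +kernel))))
        (CovZ.n1 (960, -320) (by decide +kernel)
         (CovZ.n2 (1280, -320) (by decide +kernel)
          (CovZ.n2 (1120, -480) (by decide +kernel)
           (CovZ.n2 (1120, -320) (by decide +kernel)
            (CovZ.n2 (1200, -400) (by decide +kernel)
             (CovZ.n2 (1120, -400) (by decide +kernel)
              (CovZ.leaf K2_ok TF_l2568 _)
              (CovZ.n1 (1160, -440) (by decide +kernel)
               (CovZ.n2 (1120, -440) (by decide +kernel)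
                (CovZ.leaf K2_ok TF_l2569 _)
                (CovZ.leaf K2_ok TF_l11400 _))
               (CovZ.leaf K2_ok TF_l2570 _)))
             (CovZ.n1 (1200, -320) (by decide +kernel)
              (CovZ.leaf K2_ok TF_l2571 _)
              (CovZ.leaf K2_ok TF_l2572 _)))
            (CovZ.n1 (1040, -400) (by decide +kernel)
             (CovZ.n2 (1040, -320) (by decide +kernel)
              (CovZ.leaf K2_ok TF_l2573 _)
              (CovZ.n1 (1000, -360) (by decide +kernel)
               (CovZ.leaf K2_ok TF_l2574 _)
               (CovZ.leaf K2_ok TF_l2575 _)))
             (CovZ.n1 (1120, -400) (by decide +kernel)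
              (CovZ.subM 166153499522699561038025821738237956 (by decide +kernel)
               (CovZ.n2 (1080, -440) (by decide +kernel)
                (CovZ.n2 (1080, -400) (by decide +kernel)
                 (CovZ.leaf K2_ok TF_l2576 _)
                 (CovZ.leaf K2_ok TF_l2577 _))
                (CovZ.n1 (1120, -440) (by decide +kernel)
                 (CovZ.n2 (1100, -460) (by decide +kernel)
                  (CovZ.leaf K2_ok TF_l11401 _)
                  (CovZ.leaf K2_ok TF_l11402 _))
                 (CovZ.leaf K2_ok TF_l2578 _))))
              (CovZ.leaf K2_ok TF_l2579 _))))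
           (CovZ.subM 166153499473284714738543236931911684 (by decide +kernel)
            (CovZ.n1 (1280, -480) (by decide +kernel)
             (CovZ.subM 18963829369625234112512 (by decide +kernel)
              (CovZ.n2 (1200, -560) (by decide +kernel)
               (CovZ.n2 (1200, -480) (by decide +kernel)
                (CovZ.n2 (1240, -520) (by decide +kernel)
                 (CovZ.n2 (1200, -520) (by decide +kernel)
                  (CovZ.leaf K2_ok TF_l11403 _)
                  (CovZ.badM (by decide +kernel)))
                 (CovZ.n1 (1240, -480) (by decide +kernel)
                  (CovZ.n2 (1260, -500) (by decide +kernel)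
                   (CovZ.leaf K2_ok TF_l11404 _)
                   (CovZ.leaf K2_ok TF_l11405 _))
                  (CovZ.n1 (1220, -500) (by decide +kernel)
                   (CovZ.leaf K2_ok TF_l11406 _)
                   (CovZ.n1 (1240, -500) (by decide +kernel)
                    (CovZ.leaf K2_ok TF_l11407 _)
                    (CovZ.leaf K2_ok TF_l11408 _)))))
                (CovZ.n1 (1160, -520) (by decide +kernel)
                 (CovZ.n2 (1160, -480) (by decide +kernel)
                  (CovZ.n2 (1180, -500) (by decide +kernel)
                   (CovZ.leaf K2_ok TF_l11409 _)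
                   (CovZ.leaf K2_ok TF_l11410 _))
                  (CovZ.n1 (1140, -500) (by decide +kernel)
                   (CovZ.leaf K2_ok TF_l11411 _)
                   (CovZ.n1 (1160, -500) (by decide +kernel)
                    (CovZ.badM (by decide +kernel))
                    (CovZ.leaf K2_ok TF_l11412 _))))
                 (CovZ.n1 (1200, -520) (by decide +kernel)
                  (CovZ.badM (by decide +kernel))
                  (CovZ.n1 (1180, -500) (by decide +kernel)
                   (CovZ.n2 (1200, -500) (by decide +kernel)
                    (CovZ.badM (by decide +kernel))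
                    (CovZ.leaf K2_ok TF_l11413 _))
                   (CovZ.badM (by decide +kernel))))))
               (CovZ.n1 (1280, -560) (by decide +kernel)
                (CovZ.badM (by decide +kernel))
                (CovZ.n1 (1240, -520) (by decide +kernel)
                 (CovZ.n2 (1280, -520) (by decide +kernel)
                  (CovZ.badM (by decide +kernel))
                  (CovZ.n1 (1260, -500) (by decide +kernel)
                   (CovZ.leaf K2_ok TF_l11414 _)
                   (CovZ.leaf K2_ok TF_l11415 _)))
                 (CovZ.badM (by decide +kernel))))))
             (CovZ.n1 (1200, -400) (by decide +kernel)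
              (CovZ.n2 (1280, -400) (by decide +kernel)
               (CovZ.n2 (1240, -440) (by decide +kernel)
                (CovZ.leaf K2_ok TF_l2580 _)
                (CovZ.n1 (1280, -440) (by decide +kernel)
                 (CovZ.leaf K2_ok TF_l2581 _)
                 (CovZ.leaf K2_ok TF_l2582 _)))
               (CovZ.leaf K2_ok TF_l2583 _))
              (CovZ.subM 19111403322214910525444 (by decide +kernel)
               (CovZ.n1 (1200, -480) (by decide +kernel)
                (CovZ.n2 (1160, -440) (by decide +kernel)
                 (CovZ.n2 (1200, -440) (by decide +kernel)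
                  (CovZ.leaf K2_ok TF_l11416 _)
                  (CovZ.leaf K2_ok TF_l2584 _))
                 (CovZ.n1 (1160, -480) (by decide +kernel)
                  (CovZ.leaf K2_ok TF_l11417 _)
                  (CovZ.leaf K2_ok TF_l11418 _)))
                (CovZ.leaf K2_ok TF_l2585 _)))))))
          (CovZ.n1 (1120, -160) (by decide +kernel)
           (CovZ.n2 (1280, -160) (by decide +kernel)
            (CovZ.n2 (1200, -240) (by decide +kernel)
             (CovZ.leaf K2_ok TF_l2586 _)
             (CovZ.leaf K2_ok TF_l2587 _))
            (CovZ.leaf K2_ok TF_l2588 _))
           (CovZ.n1 (1120, -320) (by decide +kernel)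
            (CovZ.n2 (1040, -240) (by decide +kernel)
             (CovZ.leaf K2_ok TF_l2589 _)
             (CovZ.leaf K2_ok TF_l2590 _))
            (CovZ.leaf K2_ok TF_l2591 _))))
         (CovZ.n1 (960, -640) (by decide +kernel)
          TF_u32
          TF_u33))))

theorem TF_u36 : CovZ TF_M (toL (selN TF_LN 147383187914787466344432810390054092255453694470)) [0, 7, 4, 3] (2560, -640) (2560, -1280) (3200, -640) :=
    (CovZ.subM 147377612728487833688628064535932605448375500800 (by decide +kernel)
        (CovZ.n1 (2880, -960) (by decide +kernel)
         (CovZ.subM 91343853013756550823633783636595309653415428096 (by decide +kernel)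
          (CovZ.n2 (2560, -960) (by decide +kernel)
           (CovZ.n2 (2720, -800) (by decide +kernel)
            (CovZ.badM (by decide +kernel))
            (CovZ.n1 (2560, -800) (by decide +kernel)
             (CovZ.n2 (2640, -720) (by decide +kernel)
              (CovZ.n2 (2640, -800) (by decide +kernel)
               (CovZ.badM (by decide +kernel))
               (CovZ.n1 (2680, -760) (by decide +kernel)
                (CovZ.n2 (2680, -800) (by decide +kernel)
                 (CovZ.badM (by decide +kernel))
                 (CovZ.n1 (2700, -780) (by decide +kernel)
                  (CovZ.badM (by decide +kernel))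
                  (CovZ.badM (by decide +kernel))))
                (CovZ.badM (by decide +kernel))))
              (CovZ.badM (by decide +kernel)))
             (CovZ.badM (by decide +kernel))))
           (CovZ.badM (by decide +kernel))))
         (CovZ.n1 (2880, -640) (by decide +kernel)
          (CovZ.n2 (3040, -800) (by decide +kernel)
           (CovZ.n2 (2880, -800) (by decide +kernel)
            (CovZ.n2 (2960, -720) (by decide +kernel)
             (CovZ.n2 (2960, -800) (by decide +kernel)
              (CovZ.n2 (2920, -760) (by decide +kernel)
               (CovZ.n2 (2960, -760) (by decide +kernel)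
                (CovZ.n2 (2940, -780) (by decide +kernel)
                 (CovZ.leaf K2_ok TF_l12825 _)
                 (CovZ.leaf K2_ok TF_l12826 _))
                (CovZ.leaf K2_ok TF_l4047 _))
               (CovZ.subM 91714952712955398327354751165788393106950848512 (by decide +kernel)
                (CovZ.n1 (2920, -800) (by decide +kernel)
                 (CovZ.n2 (2900, -780) (by decide +kernel)
                  (CovZ.n2 (2920, -780) (by decide +kernel)
                   (CovZ.leaf K2_ok TF_l12827 _)
                   (CovZ.leaf K2_ok TF_l12828 _))
                  (CovZ.leaf K2_ok TF_l12829 _))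
                 (CovZ.leaf K2_ok TF_l12830 _))))
              (CovZ.n1 (3000, -760) (by decide +kernel)
               (CovZ.n2 (3000, -800) (by decide +kernel)
                (CovZ.n2 (2980, -780) (by decide +kernel)
                 (CovZ.leaf K2_ok TF_l12831 _)
                 (CovZ.leaf K2_ok TF_l12832 _))
                (CovZ.leaf K2_ok TF_l12833 _))
               (CovZ.n1 (2960, -760) (by decide +kernel)
                (CovZ.leaf K2_ok TF_l4048 _)
                (CovZ.n1 (2980, -780) (by decide +kernel)
                 (CovZ.leaf K2_ok TF_l12834 _)
                 (CovZ.leaf K2_ok TF_l12835 _)))))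
             (CovZ.n1 (2880, -720) (by decide +kernel)
              (CovZ.leaf K2_ok TF_l4049 _)
              (CovZ.n1 (2920, -760) (by decide +kernel)
               (CovZ.n2 (2880, -760) (by decide +kernel)
                (CovZ.leaf K2_ok TF_l4050 _)
                (CovZ.n1 (2900, -780) (by decide +kernel)
                 (CovZ.leaf K2_ok TF_l12836 _)
                 (CovZ.leaf K2_ok TF_l12837 _)))
               (CovZ.n1 (2920, -720) (by decide +kernel)
                (CovZ.leaf K2_ok TF_l4051 _)
                (CovZ.leaf K2_ok TF_l4052 _)))))
            (CovZ.subM 56022259531869126253456970930755171209594273792 (by decide +kernel)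
             (CovZ.n1 (2960, -880) (by decide +kernel)
              (CovZ.badM (by decide +kernel))
              (CovZ.n1 (2960, -800) (by decide +kernel)
               (CovZ.n2 (3000, -840) (by decide +kernel)
                (CovZ.subM 54235412322826475480214866839080815182544371712 (by decide +kernel)
                 (CovZ.n2 (2960, -840) (by decide +kernel)
                  (CovZ.n2 (2980, -820) (by decide +kernel)
                   (CovZ.badM (by decide +kernel))
                   (CovZ.n1 (2960, -820) (by decide +kernel)
                    (CovZ.leaf K2_ok TF_l15823 _)
                    (CovZ.badM (by decide +kernel))))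
                  (CovZ.badM (by decide +kernel))))
                (CovZ.n1 (3000, -800) (by decide +kernel)
                 (CovZ.n2 (3020, -820) (by decide +kernel)
                  (CovZ.n2 (3000, -820) (by decide +kernel)
                   (CovZ.leaf K2_ok TF_l12838 _)
                   (CovZ.badM (by decide +kernel)))
                  (CovZ.leaf K2_ok TF_l12839 _))
                 (CovZ.n1 (2980, -820) (by decide +kernel)
                  (CovZ.n2 (2980, -800) (by decide +kernel)
                   (CovZ.leaf K2_ok TF_l12840 _)
                   (CovZ.leaf K2_ok TF_l12841 _))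
                  (CovZ.n1 (3000, -820) (by decide +kernel)
                   (CovZ.leaf K2_ok TF_l15824 _)
                   (CovZ.leaf K2_ok TF_l12842 _)))))
               (CovZ.badM (by decide +kernel))))))
           (CovZ.n1 (3040, -640) (by decide +kernel)
            (CovZ.n2 (3120, -720) (by decide +kernel)
             (CovZ.n2 (3040, -720) (by decide +kernel)
              (CovZ.leaf K2_ok TF_l4053 _)
              (CovZ.n1 (3080, -760) (by decide +kernel)
               (CovZ.n2 (3040, -760) (by decide +kernel)
                (CovZ.leaf K2_ok TF_l4054 _)
                (CovZ.leaf K2_ok TF_l12843 _))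
               (CovZ.leaf K2_ok TF_l4055 _)))
             (CovZ.n1 (3120, -640) (by decide +kernel)
              (CovZ.leaf K2_ok TF_l4056 _)
              (CovZ.leaf K2_ok TF_l4057 _)))
            (CovZ.n1 (2960, -720) (by decide +kernel)
             (CovZ.n2 (2960, -640) (by decide +kernel)
              (CovZ.leaf K2_ok TF_l4058 _)
              (CovZ.n1 (2920, -680) (by decide +kernel)
               (CovZ.leaf K2_ok TF_l4059 _)
               (CovZ.leaf K2_ok TF_l4060 _)))
             (CovZ.n1 (3040, -720) (by decide +kernel)
              (CovZ.n2 (3000, -760) (by decide +kernel)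
               (CovZ.n2 (3000, -720) (by decide +kernel)
                (CovZ.leaf K2_ok TF_l4061 _)
                (CovZ.leaf K2_ok TF_l4062 _))
               (CovZ.n1 (3040, -760) (by decide +kernel)
                (CovZ.n2 (3020, -780) (by decide +kernel)
                 (CovZ.leaf K2_ok TF_l12844 _)
                 (CovZ.leaf K2_ok TF_l12845 _))
                (CovZ.leaf K2_ok TF_l4063 _)))
              (CovZ.leaf K2_ok TF_l4064 _)))))
          (CovZ.n1 (2720, -800) (by decide +kernel)
           (CovZ.n2 (2720, -640) (by decide +kernel)
            (CovZ.n2 (2800, -720) (by decide +kernel)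
             (CovZ.subM 3138083998210657789270329982986931497074688 (by decide +kernel)
              (CovZ.n2 (2720, -720) (by decide +kernel)
               (CovZ.leaf K2_ok TF_l4065 _)
               (CovZ.n1 (2760, -760) (by decide +kernel)
                (CovZ.subM 349129718845476890077532158596794858602496 (by decide +kernel)
                 (CovZ.n2 (2720, -760) (by decide +kernel)
                  (CovZ.leaf K2_ok TF_l12846 _)
                  (CovZ.n1 (2740, -780) (by decide +kernel)
                   (CovZ.n2 (2720, -780) (by decide +kernel)
                    (CovZ.leaf K2_ok TF_l12847 _)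
                    (CovZ.badM (by decide +kernel)))
                   (CovZ.n1 (2740, -760) (by decide +kernel)
                    (CovZ.leaf K2_ok TF_l12848 _)
                    (CovZ.leaf K2_ok TF_l12849 _)))))
                (CovZ.n1 (2760, -720) (by decide +kernel)
                 (CovZ.n2 (2780, -740) (by decide +kernel)
                  (CovZ.leaf K2_ok TF_l12850 _)
                  (CovZ.leaf K2_ok TF_l12851 _))
                 (CovZ.n1 (2740, -740) (by decide +kernel)
                  (CovZ.leaf K2_ok TF_l12852 _)
                  (CovZ.leaf K2_ok TF_l12853 _))))))
             (CovZ.n1 (2800, -640) (by decide +kernel)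
              (CovZ.n2 (2840, -680) (by decide +kernel)
               (CovZ.leaf K2_ok TF_l4066 _)
               (CovZ.leaf K2_ok TF_l4067 _))
              (CovZ.n1 (2760, -680) (by decide +kernel)
               (CovZ.leaf K2_ok TF_l4068 _)
               (CovZ.leaf K2_ok TF_l4069 _))))
            (CovZ.subM 3138083998129488536774466169122345719955456 (by decide +kernel)
             (CovZ.n1 (2640, -720) (by decide +kernel)
              (CovZ.n2 (2640, -640) (by decide +kernel)
               (CovZ.n2 (2680, -680) (by decide +kernel)
                (CovZ.leaf K2_ok TF_l4070 _)
                (CovZ.leaf K2_ok TF_l4071 _))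
               (CovZ.n1 (2600, -680) (by decide +kernel)
                (CovZ.leaf K2_ok TF_l4072 _)
                (CovZ.n1 (2640, -680) (by decide +kernel)
                 (CovZ.leaf K2_ok TF_l4073 _)
                 (CovZ.leaf K2_ok TF_l4074 _))))
              (CovZ.n1 (2720, -720) (by decide +kernel)
               (CovZ.subM 349129718845476890077532158596794858602496 (by decide +kernel)
                (CovZ.n2 (2680, -760) (by decide +kernel)
                 (CovZ.n2 (2680, -720) (by decide +kernel)
                  (CovZ.n2 (2700, -740) (by decide +kernel)
                   (CovZ.leaf K2_ok TF_l12854 _)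
                   (CovZ.leaf K2_ok TF_l12855 _))
                  (CovZ.n1 (2660, -740) (by decide +kernel)
                   (CovZ.leaf K2_ok TF_l12856 _)
                   (CovZ.leaf K2_ok TF_l12857 _)))
                 (CovZ.n1 (2720, -760) (by decide +kernel)
                  (CovZ.n2 (2700, -780) (by decide +kernel)
                   (CovZ.n2 (2700, -760) (by decide +kernel)
                    (CovZ.leaf K2_ok TF_l12858 _)
                    (CovZ.badM (by decide +kernel)))
                   (CovZ.n1 (2720, -780) (by decide +kernel)
                    (CovZ.badM (by decide +kernel))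
                    (CovZ.leaf K2_ok TF_l12859 _)))
                  (CovZ.n1 (2700, -740) (by decide +kernel)
                   (CovZ.leaf K2_ok TF_l12860 _)
                   (CovZ.leaf K2_ok TF_l12861 _)))))
               (CovZ.n1 (2680, -680) (by decide +kernel)
                (CovZ.n2 (2720, -680) (by decide +kernel)
                 (CovZ.leaf K2_ok TF_l4075 _)
                 (CovZ.leaf K2_ok TF_l4076 _))
                (CovZ.leaf K2_ok TF_l4077 _))))))
           (CovZ.n1 (2880, -800) (by decide +kernel)
            (CovZ.n2 (2800, -880) (by decide +kernel)
             (CovZ.n2 (2800, -800) (by decide +kernel)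
              (CovZ.badM (by decide +kernel))
              (CovZ.badM (by decide +kernel)))
             (CovZ.badM (by decide +kernel)))
            (CovZ.n1 (2800, -720) (by decide +kernel)
             (CovZ.n2 (2880, -720) (by decide +kernel)
              (CovZ.n2 (2840, -760) (by decide +kernel)
               (CovZ.n2 (2840, -720) (by decide +kernel)
                (CovZ.leaf K2_ok TF_l4078 _)
                (CovZ.leaf K2_ok TF_l12862 _))
               (CovZ.n1 (2880, -760) (by decide +kernel)
                (CovZ.n2 (2860, -780) (by decide +kernel)
                 (CovZ.leaf K2_ok TF_l12863 _)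
                 (CovZ.n1 (2880, -780) (by decide +kernel)
                  (CovZ.leaf K2_ok TF_l12864 _)
                  (CovZ.leaf K2_ok TF_l12865 _)))
                (CovZ.leaf K2_ok TF_l4079 _)))
              (CovZ.n1 (2840, -680) (by decide +kernel)
               (CovZ.leaf K2_ok TF_l4080 _)
               (CovZ.leaf K2_ok TF_l4081 _)))
             (CovZ.subM 91355353196629092029197497153374904016957341696 (by decide +kernel)
              (CovZ.n1 (2800, -800) (by decide +kernel)
               (CovZ.n2 (2760, -760) (by decide +kernel)
                (CovZ.n2 (2800, -760) (by decide +kernel)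
                 (CovZ.n2 (2780, -780) (by decide +kernel)
                  (CovZ.leaf K2_ok TF_l12866 _)
                  (CovZ.n1 (2800, -780) (by decide +kernel)
                   (CovZ.badM (by decide +kernel))
                   (CovZ.leaf K2_ok TF_l12867 _)))
                 (CovZ.n1 (2780, -740) (by decide +kernel)
                  (CovZ.leaf K2_ok TF_l12868 _)
                  (CovZ.leaf K2_ok TF_l12869 _)))
                (CovZ.subM 680564733841876926926749214863536422912 (by decide +kernel)
                 (CovZ.n1 (2760, -800) (by decide +kernel)
                  (CovZ.n2 (2740, -780) (by decide +kernel)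
                   (CovZ.n2 (2760, -780) (by decide +kernel)
                    (CovZ.badM (by decide +kernel))
                    (CovZ.leaf K2_ok TF_l12870 _))
                   (CovZ.badM (by decide +kernel)))
                  (CovZ.n1 (2780, -780) (by decide +kernel)
                   (CovZ.badM (by decide +kernel))
                   (CovZ.n1 (2760, -780) (by decide +kernel)
                    (CovZ.leaf K2_ok TF_l12871 _)
                    (CovZ.badM (by decide +kernel)))))))
               (CovZ.n1 (2840, -760) (by decide +kernel)
                (CovZ.n2 (2840, -800) (by decide +kernel)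
                 (CovZ.n2 (2820, -780) (by decide +kernel)
                  (CovZ.n2 (2840, -780) (by decide +kernel)
                   (CovZ.leaf K2_ok TF_l12872 _)
                   (CovZ.leaf K2_ok TF_l12873 _))
                  (CovZ.n1 (2820, -800) (by decide +kernel)
                   (CovZ.badM (by decide +kernel))
                   (CovZ.leaf K2_ok TF_l12874 _)))
                 (CovZ.n1 (2860, -780) (by decide +kernel)
                  (CovZ.leaf K2_ok TF_l12875 _)
                  (CovZ.leaf K2_ok TF_l12876 _)))
                (CovZ.n1 (2800, -760) (by decide +kernel)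
                 (CovZ.leaf K2_ok TF_l12877 _)
                 (CovZ.n1 (2820, -780) (by decide +kernel)
                  (CovZ.n2 (2800, -780) (by decide +kernel)
                   (CovZ.leaf K2_ok TF_l12878 _)
                   (CovZ.badM (by decide +kernel)))
                  (CovZ.leaf K2_ok TF_l12879 _))))))))))))

theorem TF_u37 : CovZ TF_M (toL (selN TF_LN 147383187914787466344432810390054092255453694470)) [0, 7, 4, 3] (3200, -640) (3840, -1280) (3840, 0) :=
    (CovZ.subM 5575186299632655785535119118619010880670212 (by decide +kernel)
       (CovZ.n1 (3840, -640) (by decide +kernel)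
        (CovZ.subM 5575186299632655785383929604190887395493888 (by decide +kernel)
         (CovZ.n2 (3520, -960) (by decide +kernel)
          (CovZ.n2 (3520, -640) (by decide +kernel)
           (CovZ.n2 (3680, -800) (by decide +kernel)
            (CovZ.n2 (3520, -800) (by decide +kernel)
             (CovZ.leaf K2_ok TF_l4138 _)
             (CovZ.n1 (3600, -880) (by decide +kernel)
              (CovZ.n2 (3520, -880) (by decide +kernel)
               (CovZ.leaf K2_ok TF_l4139 _)
               (CovZ.n1 (3560, -920) (by decide +kernel)
                (CovZ.n2 (3520, -920) (by decide +kernel)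
                 (CovZ.n2 (3540, -900) (by decide +kernel)
                  (CovZ.badM (by decide +kernel))
                  (CovZ.leaf K2_ok TF_l12880 _))
                 (CovZ.badM (by decide +kernel)))
                (CovZ.n1 (3560, -880) (by decide +kernel)
                 (CovZ.n2 (3580, -900) (by decide +kernel)
                  (CovZ.leaf K2_ok TF_l12881 _)
                  (CovZ.leaf K2_ok TF_l12882 _))
                 (CovZ.n1 (3540, -900) (by decide +kernel)
                  (CovZ.leaf K2_ok TF_l12883 _)
                  (CovZ.leaf K2_ok TF_l12884 _)))))
              (CovZ.n1 (3600, -800) (by decide +kernel)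
               (CovZ.n2 (3640, -840) (by decide +kernel)
                (CovZ.leaf K2_ok TF_l4140 _)
                (CovZ.leaf K2_ok TF_l4141 _))
               (CovZ.n1 (3560, -840) (by decide +kernel)
                (CovZ.leaf K2_ok TF_l4142 _)
                (CovZ.n1 (3600, -840) (by decide +kernel)
                 (CovZ.leaf K2_ok TF_l4143 _)
                 (CovZ.leaf K2_ok TF_l4144 _))))))
            (CovZ.n1 (3680, -640) (by decide +kernel)
             (CovZ.n2 (3760, -720) (by decide +kernel)
              (CovZ.leaf K2_ok TF_l4145 _)
              (CovZ.leaf K2_ok TF_l4146 _))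
             (CovZ.n1 (3600, -720) (by decide +kernel)
              (CovZ.leaf K2_ok TF_l4147 _)
              (CovZ.n1 (3680, -720) (by decide +kernel)
               (CovZ.leaf K2_ok TF_l4148 _)
               (CovZ.leaf K2_ok TF_l4149 _)))))
           (CovZ.n1 (3360, -800) (by decide +kernel)
            (CovZ.n2 (3360, -640) (by decide +kernel)
             (CovZ.n2 (3440, -720) (by decide +kernel)
              (CovZ.n2 (3360, -720) (by decide +kernel)
               (CovZ.leaf K2_ok TF_l4150 _)
               (CovZ.leaf K2_ok TF_l4151 _))
              (CovZ.leaf K2_ok TF_l4152 _))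
             (CovZ.n1 (3280, -720) (by decide +kernel)
              (CovZ.n2 (3280, -640) (by decide +kernel)
               (CovZ.leaf K2_ok TF_l4153 _)
               (CovZ.leaf K2_ok TF_l4154 _))
              (CovZ.n1 (3360, -720) (by decide +kernel)
               (CovZ.n2 (3320, -760) (by decide +kernel)
                (CovZ.leaf K2_ok TF_l4155 _)
                (CovZ.leaf K2_ok TF_l4156 _))
               (CovZ.leaf K2_ok TF_l4157 _))))
            (CovZ.n1 (3520, -800) (by decide +kernel)
             (CovZ.n2 (3440, -880) (by decide +kernel)
              (CovZ.n2 (3440, -800) (by decide +kernel)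
               (CovZ.n2 (3480, -840) (by decide +kernel)
                (CovZ.n2 (3440, -840) (by decide +kernel)
                 (CovZ.leaf K2_ok TF_l4158 _)
                 (CovZ.n1 (3460, -860) (by decide +kernel)
                  (CovZ.leaf K2_ok TF_l12885 _)
                  (CovZ.leaf K2_ok TF_l12886 _)))
                (CovZ.leaf K2_ok TF_l4159 _))
               (CovZ.n1 (3400, -840) (by decide +kernel)
                (CovZ.leaf K2_ok TF_l4160 _)
                (CovZ.n1 (3440, -840) (by decide +kernel)
                 (CovZ.n2 (3420, -860) (by decide +kernel)
                  (CovZ.leaf K2_ok TF_l12887 _)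
                  (CovZ.leaf K2_ok TF_l12888 _))
                 (CovZ.leaf K2_ok TF_l4161 _))))
              (CovZ.n1 (3520, -880) (by decide +kernel)
               (CovZ.n2 (3480, -920) (by decide +kernel)
                (CovZ.n2 (3480, -880) (by decide +kernel)
                 (CovZ.n2 (3500, -900) (by decide +kernel)
                  (CovZ.n2 (3480, -900) (by decide +kernel)
                   (CovZ.leaf K2_ok TF_l12889 _)
                   (CovZ.badM (by decide +kernel)))
                  (CovZ.leaf K2_ok TF_l12890 _))
                 (CovZ.n1 (3460, -900) (by decide +kernel)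
                  (CovZ.leaf K2_ok TF_l12891 _)
                  (CovZ.n1 (3480, -900) (by decide +kernel)
                   (CovZ.badM (by decide +kernel))
                   (CovZ.leaf K2_ok TF_l12892 _))))
                (CovZ.n1 (3520, -920) (by decide +kernel)
                 (CovZ.badM (by decide +kernel))
                 (CovZ.n1 (3500, -900) (by decide +kernel)
                  (CovZ.n2 (3520, -900) (by decide +kernel)
                   (CovZ.badM (by decide +kernel))
                   (CovZ.leaf K2_ok TF_l12893 _))
                  (CovZ.badM (by decide +kernel)))))
               (CovZ.n1 (3480, -840) (by decide +kernel)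
                (CovZ.n2 (3520, -840) (by decide +kernel)
                 (CovZ.leaf K2_ok TF_l12894 _)
                 (CovZ.leaf K2_ok TF_l4162 _))
                (CovZ.n1 (3480, -880) (by decide +kernel)
                 (CovZ.leaf K2_ok TF_l12895 _)
                 (CovZ.leaf K2_ok TF_l12896 _)))))
             (CovZ.n1 (3440, -720) (by decide +kernel)
              (CovZ.n2 (3520, -720) (by decide +kernel)
               (CovZ.leaf K2_ok TF_l4163 _)
               (CovZ.leaf K2_ok TF_l4164 _))
              (CovZ.n1 (3440, -800) (by decide +kernel)
               (CovZ.leaf K2_ok TF_l4165 _)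
               (CovZ.leaf K2_ok TF_l4166 _))))))
          (CovZ.n1 (3840, -960) (by decide +kernel)
           (CovZ.badM (by decide +kernel))
           (CovZ.n1 (3680, -800) (by decide +kernel)
            (CovZ.n2 (3840, -800) (by decide +kernel)
             (CovZ.n2 (3760, -880) (by decide +kernel)
              (CovZ.n2 (3760, -800) (by decide +kernel)
               (CovZ.n2 (3800, -840) (by decide +kernel)
                (CovZ.leaf K2_ok TF_l4167 _)
                (CovZ.leaf K2_ok TF_l4168 _))
               (CovZ.n1 (3720, -840) (by decide +kernel)
                (CovZ.leaf K2_ok TF_l4169 _)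
                (CovZ.leaf K2_ok TF_l4170 _)))
              (CovZ.n1 (3840, -880) (by decide +kernel)
               (CovZ.n2 (3800, -920) (by decide +kernel)
                (CovZ.n2 (3800, -880) (by decide +kernel)
                 (CovZ.leaf K2_ok TF_l4171 _)
                 (CovZ.leaf K2_ok TF_l12897 _))
                (CovZ.n1 (3840, -920) (by decide +kernel)
                 (CovZ.badM (by decide +kernel))
                 (CovZ.leaf K2_ok TF_l4172 _)))
               (CovZ.n1 (3800, -840) (by decide +kernel)
                (CovZ.leaf K2_ok TF_l4173 _)
                (CovZ.leaf K2_ok TF_l4174 _))))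
             (CovZ.n1 (3760, -720) (by decide +kernel)
              (CovZ.leaf K2_ok TF_l4175 _)
              (CovZ.leaf K2_ok TF_l4176 _)))
            (CovZ.n1 (3680, -960) (by decide +kernel)
             (CovZ.n2 (3600, -880) (by decide +kernel)
              (CovZ.n2 (3680, -880) (by decide +kernel)
               (CovZ.n2 (3640, -920) (by decide +kernel)
                (CovZ.n2 (3640, -880) (by decide +kernel)
                 (CovZ.n2 (3660, -900) (by decide +kernel)
                  (CovZ.leaf K2_ok TF_l12898 _)
                  (CovZ.leaf K2_ok TF_l12899 _))
                 (CovZ.n1 (3620, -900) (by decide +kernel)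
                  (CovZ.leaf K2_ok TF_l12900 _)
                  (CovZ.leaf K2_ok TF_l12901 _)))
                (CovZ.n1 (3680, -920) (by decide +kernel)
                 (CovZ.n2 (3660, -940) (by decide +kernel)
                  (CovZ.n2 (3660, -920) (by decide +kernel)
                   (CovZ.leaf K2_ok TF_l12902 _)
                   (CovZ.badM (by decide +kernel)))
                  (CovZ.n1 (3680, -940) (by decide +kernel)
                   (CovZ.badM (by decide +kernel))
                   (CovZ.leaf K2_ok TF_l12903 _)))
                 (CovZ.n1 (3660, -900) (by decide +kernel)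
                  (CovZ.leaf K2_ok TF_l12904 _)
                  (CovZ.leaf K2_ok TF_l12905 _))))
               (CovZ.n1 (3640, -840) (by decide +kernel)
                (CovZ.leaf K2_ok TF_l4177 _)
                (CovZ.leaf K2_ok TF_l4178 _)))
              (CovZ.n1 (3600, -960) (by decide +kernel)
               (CovZ.n2 (3560, -920) (by decide +kernel)
                (CovZ.n2 (3600, -920) (by decide +kernel)
                 (CovZ.badM (by decide +kernel))
                 (CovZ.n1 (3580, -900) (by decide +kernel)
                  (CovZ.n2 (3600, -900) (by decide +kernel)
                   (CovZ.leaf K2_ok TF_l12906 _)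
                   (CovZ.leaf K2_ok TF_l12907 _))
                  (CovZ.leaf K2_ok TF_l12908 _)))
                (CovZ.badM (by decide +kernel)))
               (CovZ.n1 (3640, -920) (by decide +kernel)
                (CovZ.badM (by decide +kernel))
                (CovZ.n1 (3600, -920) (by decide +kernel)
                 (CovZ.leaf K2_ok TF_l12909 _)
                 (CovZ.badM (by decide +kernel))))))
             (CovZ.n1 (3760, -880) (by decide +kernel)
              (CovZ.n2 (3760, -960) (by decide +kernel)
               (CovZ.n2 (3720, -920) (by decide +kernel)
                (CovZ.n2 (3760, -920) (by decide +kernel)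
                 (CovZ.n2 (3740, -940) (by decide +kernel)
                  (CovZ.leaf K2_ok TF_l12910 _)
                  (CovZ.badM (by decide +kernel)))
                 (CovZ.leaf K2_ok TF_l12911 _))
                (CovZ.n1 (3720, -960) (by decide +kernel)
                 (CovZ.n2 (3700, -940) (by decide +kernel)
                  (CovZ.n2 (3720, -940) (by decide +kernel)
                   (CovZ.badM (by decide +kernel))
                   (CovZ.leaf K2_ok TF_l12912 _))
                  (CovZ.badM (by decide +kernel)))
                 (CovZ.n1 (3740, -940) (by decide +kernel)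
                  (CovZ.badM (by decide +kernel))
                  (CovZ.leaf K2_ok TF_l12913 _))))
               (CovZ.n1 (3800, -920) (by decide +kernel)
                (CovZ.badM (by decide +kernel))
                (CovZ.n1 (3760, -920) (by decide +kernel)
                 (CovZ.leaf K2_ok TF_l12914 _)
                 (CovZ.badM (by decide +kernel)))))
              (CovZ.n1 (3680, -880) (by decide +kernel)
               (CovZ.leaf K2_ok TF_l4179 _)
               (CovZ.n1 (3720, -920) (by decide +kernel)
                (CovZ.n2 (3680, -920) (by decide +kernel)
                 (CovZ.leaf K2_ok TF_l12915 _)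
                 (CovZ.n1 (3700, -940) (by decide +kernel)
                  (CovZ.n2 (3680, -940) (by decide +kernel)
                   (CovZ.leaf K2_ok TF_l12916 _)
                   (CovZ.badM (by decide +kernel)))
                  (CovZ.leaf K2_ok TF_l12917 _)))
                (CovZ.n1 (3720, -880) (by decide +kernel)
                 (CovZ.leaf K2_ok TF_l12918 _)
                 (CovZ.leaf K2_ok TF_l12919 _))))))))))
        (CovZ.n1 (3520, -320) (by decide +kernel)
         (CovZ.n2 (3840, -320) (by decide +kernel)
          (CovZ.n2 (3680, -480) (by decide +kernel)
           (CovZ.leaf K2_ok TF_l4180 _)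
           (CovZ.n1 (3840, -480) (by decide +kernel)
            (CovZ.leaf K2_ok TF_l4181 _)
            (CovZ.leaf K2_ok TF_l4182 _)))
          (CovZ.leaf K2_ok TF_l4183 _))
         (CovZ.n1 (3520, -640) (by decide +kernel)
          (CovZ.n2 (3360, -480) (by decide +kernel)
           (CovZ.n2 (3520, -480) (by decide +kernel)
            (CovZ.leaf K2_ok TF_l4184 _)
            (CovZ.leaf K2_ok TF_l4185 _))
           (CovZ.n1 (3360, -640) (by decide +kernel)
            (CovZ.leaf K2_ok TF_l4186 _)
            (CovZ.leaf K2_ok TF_l4187 _)))
          (CovZ.leaf K2_ok TF_l4188 _)))))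

theorem TF_u38 : CovZ TF_M (toL (selN TF_LN 147383187914787466344432810390054092255453694470)) [0, 7, 4, 3] (2560, -2560) (3840, -1280) (2560, 0) :=
    (CovZ.n2 (2560, -1280) (by decide +kernel)
     (CovZ.n2 (3200, -640) (by decide +kernel)
      (CovZ.subM 55682522297300076302664569959144823470440876032 (by decide +kernel)
       (CovZ.n2 (3200, -1280) (by decide +kernel)
        (CovZ.n2 (2880, -960) (by decide +kernel)
         (CovZ.n2 (3200, -960) (by decide +kernel)
          (CovZ.badM (by decide +kernel))
          (CovZ.n1 (3040, -800) (by decide +kernel)
           (CovZ.badM (by decide +kernel))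
           (CovZ.subM 55662660015542819955299707473608716380310339584 (by decide +kernel)
            (CovZ.n1 (3040, -960) (by decide +kernel)
             (CovZ.n2 (2960, -880) (by decide +kernel)
              (CovZ.n2 (3040, -880) (by decide +kernel)
               (CovZ.badM (by decide +kernel))
               (CovZ.n1 (3000, -840) (by decide +kernel)
                (CovZ.n2 (3040, -840) (by decide +kernel)
                 (CovZ.badM (by decide +kernel))
                 (CovZ.n1 (3020, -820) (by decide +kernel)
                  (CovZ.badM (by decide +kernel))
                  (CovZ.badM (by decide +kernel))))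
                (CovZ.badM (by decide +kernel))))
              (CovZ.badM (by decide +kernel)))
             (CovZ.badM (by decide +kernel))))))
         (CovZ.badM (by decide +kernel)))
        (CovZ.subM 5575186299632655785383929568162090376529920 (by decide +kernel)
         (CovZ.n1 (3520, -960) (by decide +kernel)
          (CovZ.badM (by decide +kernel))
          (CovZ.n1 (3200, -960) (by decide +kernel)
           (CovZ.n2 (3360, -800) (by decide +kernel)
            (CovZ.n2 (3360, -960) (by decide +kernel)
             (CovZ.n2 (3280, -880) (by decide +kernel)
              (CovZ.n2 (3360, -880) (by decide +kernel)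
               (CovZ.badM (by decide +kernel))
               (CovZ.n1 (3320, -840) (by decide +kernel)
                (CovZ.n2 (3360, -840) (by decide +kernel)
                 (CovZ.n2 (3340, -860) (by decide +kernel)
                  (CovZ.leaf K2_ok TF_l12793 _)
                  (CovZ.leaf K2_ok TF_l12794 _))
                 (CovZ.leaf K2_ok TF_l4019 _))
                (CovZ.n1 (3320, -880) (by decide +kernel)
                 (CovZ.n2 (3300, -860) (by decide +kernel)
                  (CovZ.n2 (3320, -860) (by decide +kernel)
                   (CovZ.leaf K2_ok TF_l12795 _)
                   (CovZ.leaf K2_ok TF_l12796 _))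
                  (CovZ.n1 (3300, -880) (by decide +kernel)
                   (CovZ.leaf K2_ok TF_l12797 _)
                   (CovZ.leaf K2_ok TF_l12798 _)))
                 (CovZ.n1 (3340, -860) (by decide +kernel)
                  (CovZ.leaf K2_ok TF_l12799 _)
                  (CovZ.leaf K2_ok TF_l12800 _)))))
              (CovZ.badM (by decide +kernel)))
             (CovZ.n1 (3440, -880) (by decide +kernel)
              (CovZ.badM (by decide +kernel))
              (CovZ.n1 (3360, -880) (by decide +kernel)
               (CovZ.n2 (3400, -840) (by decide +kernel)
                (CovZ.n2 (3400, -880) (by decide +kernel)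
                 (CovZ.n2 (3380, -860) (by decide +kernel)
                  (CovZ.n2 (3400, -860) (by decide +kernel)
                   (CovZ.leaf K2_ok TF_l12801 _)
                   (CovZ.leaf K2_ok TF_l12802 _))
                  (CovZ.leaf K2_ok TF_l12803 _))
                 (CovZ.leaf K2_ok TF_l12804 _))
                (CovZ.n1 (3360, -840) (by decide +kernel)
                 (CovZ.leaf K2_ok TF_l4020 _)
                 (CovZ.n1 (3380, -860) (by decide +kernel)
                  (CovZ.leaf K2_ok TF_l12805 _)
                  (CovZ.leaf K2_ok TF_l12806 _))))
               (CovZ.badM (by decide +kernel)))))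
            (CovZ.n1 (3200, -800) (by decide +kernel)
             (CovZ.n2 (3280, -720) (by decide +kernel)
              (CovZ.n2 (3280, -800) (by decide +kernel)
               (CovZ.n2 (3240, -760) (by decide +kernel)
                (CovZ.leaf K2_ok TF_l4021 _)
                (CovZ.leaf K2_ok TF_l4022 _))
               (CovZ.leaf K2_ok TF_l4023 _))
              (CovZ.n1 (3200, -720) (by decide +kernel)
               (CovZ.leaf K2_ok TF_l4024 _)
               (CovZ.n1 (3240, -760) (by decide +kernel)
                (CovZ.leaf K2_ok TF_l4025 _)
                (CovZ.leaf K2_ok TF_l4026 _))))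
             (CovZ.n1 (3280, -880) (by decide +kernel)
              (CovZ.n2 (3200, -880) (by decide +kernel)
               (CovZ.n2 (3240, -840) (by decide +kernel)
                (CovZ.n2 (3240, -880) (by decide +kernel)
                 (CovZ.n2 (3220, -860) (by decide +kernel)
                  (CovZ.n2 (3240, -860) (by decide +kernel)
                   (CovZ.badM (by decide +kernel))
                   (CovZ.leaf K2_ok TF_l12807 _))
                  (CovZ.badM (by decide +kernel)))
                 (CovZ.n1 (3260, -860) (by decide +kernel)
                  (CovZ.badM (by decide +kernel))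
                  (CovZ.n1 (3240, -860) (by decide +kernel)
                   (CovZ.leaf K2_ok TF_l12808 _)
                   (CovZ.badM (by decide +kernel)))))
                (CovZ.n1 (3200, -840) (by decide +kernel)
                 (CovZ.leaf K2_ok TF_l12809 _)
                 (CovZ.n1 (3220, -860) (by decide +kernel)
                  (CovZ.badM (by decide +kernel))
                  (CovZ.n1 (3220, -840) (by decide +kernel)
                   (CovZ.leaf K2_ok TF_l12810 _)
                   (CovZ.leaf K2_ok TF_l12811 _)))))
               (CovZ.badM (by decide +kernel)))
              (CovZ.n1 (3280, -800) (by decide +kernel)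
               (CovZ.n2 (3320, -840) (by decide +kernel)
                (CovZ.n2 (3280, -840) (by decide +kernel)
                 (CovZ.leaf K2_ok TF_l12812 _)
                 (CovZ.n1 (3300, -860) (by decide +kernel)
                  (CovZ.leaf K2_ok TF_l12813 _)
                  (CovZ.leaf K2_ok TF_l12814 _)))
                (CovZ.n1 (3320, -800) (by decide +kernel)
                 (CovZ.leaf K2_ok TF_l4027 _)
                 (CovZ.leaf K2_ok TF_l12815 _)))
               (CovZ.n1 (3240, -840) (by decide +kernel)
                (CovZ.n2 (3240, -800) (by decide +kernel)
                 (CovZ.n2 (3260, -820) (by decide +kernel)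
                  (CovZ.leaf K2_ok TF_l12816 _)
                  (CovZ.leaf K2_ok TF_l12817 _))
                 (CovZ.n1 (3220, -820) (by decide +kernel)
                  (CovZ.leaf K2_ok TF_l12818 _)
                  (CovZ.leaf K2_ok TF_l12819 _)))
                (CovZ.n1 (3280, -840) (by decide +kernel)
                 (CovZ.n2 (3260, -860) (by decide +kernel)
                  (CovZ.n2 (3260, -840) (by decide +kernel)
                   (CovZ.leaf K2_ok TF_l12820 _)
                   (CovZ.leaf K2_ok TF_l12821 _))
                  (CovZ.n1 (3280, -860) (by decide +kernel)
                   (CovZ.badM (by decide +kernel))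
                   (CovZ.leaf K2_ok TF_l12822 _)))
                 (CovZ.n1 (3260, -820) (by decide +kernel)
                  (CovZ.leaf K2_ok TF_l12823 _)
                  (CovZ.leaf K2_ok TF_l12824 _))))))))
           (CovZ.badM (by decide +kernel)))))))
      (CovZ.n1 (2560, -640) (by decide +kernel)
       (CovZ.n2 (2880, -320) (by decide +kernel)
        (CovZ.n2 (2880, -640) (by decide +kernel)
         (CovZ.subM 53179265009894481538781190626088931538971525120 (by decide +kernel)
          (CovZ.n2 (2720, -480) (by decide +kernel)
           (CovZ.n2 (2880, -480) (by decide +kernel)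
            (CovZ.n2 (2800, -560) (by decide +kernel)
             (CovZ.leaf K2_ok TF_l4028 _)
             (CovZ.leaf K2_ok TF_l4029 _))
            (CovZ.leaf K2_ok TF_l4030 _))
           (CovZ.n1 (2720, -640) (by decide +kernel)
            (CovZ.n2 (2640, -560) (by decide +kernel)
             (CovZ.n2 (2720, -560) (by decide +kernel)
              (CovZ.leaf K2_ok TF_l4031 _)
              (CovZ.leaf K2_ok TF_l4032 _))
             (CovZ.leaf K2_ok TF_l4033 _))
            (CovZ.leaf K2_ok TF_l4034 _))))
         (CovZ.n1 (3040, -480) (by decide +kernel)
          (CovZ.n2 (3040, -640) (by decide +kernel)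
           (CovZ.n2 (2960, -560) (by decide +kernel)
            (CovZ.leaf K2_ok TF_l4035 _)
            (CovZ.leaf K2_ok TF_l4036 _))
           (CovZ.leaf K2_ok TF_l4037 _))
          (CovZ.n1 (2880, -480) (by decide +kernel)
           (CovZ.leaf K2_ok TF_l4038 _)
           (CovZ.n1 (2960, -560) (by decide +kernel)
            (CovZ.leaf K2_ok TF_l4039 _)
            (CovZ.leaf K2_ok TF_l4040 _)))))
        (CovZ.n1 (2560, -320) (by decide +kernel)
         (CovZ.leaf K2_ok TF_l4041 _)
         (CovZ.subM 53179265009894481538781190626088931538971525120 (by decide +kernel)
          (CovZ.n1 (2720, -480) (by decide +kernel)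
           (CovZ.n2 (2560, -480) (by decide +kernel)
            (CovZ.leaf K2_ok TF_l4042 _)
            (CovZ.n1 (2640, -560) (by decide +kernel)
             (CovZ.leaf K2_ok TF_l4043 _)
             (CovZ.leaf K2_ok TF_l4044 _)))
           (CovZ.n1 (2720, -320) (by decide +kernel)
            (CovZ.leaf K2_ok TF_l4045 _)
            (CovZ.leaf K2_ok TF_l4046 _))))))
       TF_u36))
     (CovZ.badM (by decide +kernel)))

theorem TF_u39 : CovZ TF_M (toL (selN TF_LN 147383187914787466344432810390054092255453694470)) [0, 7, 4, 3] (3840, -1280) (5120, 0) (2560, 0) :=
    (CovZ.n1 (3840, 0) (by decide +kernel)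
     (CovZ.subM 5575186299632655804877932232453077675969030 (by decide +kernel)
      (CovZ.n2 (4480, -640) (by decide +kernel)
       (CovZ.n2 (3840, -640) (by decide +kernel)
        (CovZ.n2 (4160, -320) (by decide +kernel)
         (CovZ.n2 (4160, -640) (by decide +kernel)
          (CovZ.n2 (4000, -480) (by decide +kernel)
           (CovZ.leaf K2_ok TF_l4082 _)
           (CovZ.leaf K2_ok TF_l4083 _))
          (CovZ.leaf K2_ok TF_l4084 _))
         (CovZ.n1 (3840, -320) (by decide +kernel)
          (CovZ.leaf K2_ok TF_l4085 _)
          (CovZ.n1 (4000, -480) (by decide +kernel)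
           (CovZ.leaf K2_ok TF_l4086 _)
           (CovZ.leaf K2_ok TF_l4087 _))))
        (CovZ.subM 5575186299632655785383929604190887395493890 (by decide +kernel)
         (CovZ.n1 (4160, -960) (by decide +kernel)
          (CovZ.n2 (3840, -960) (by decide +kernel)
           (CovZ.n2 (4000, -800) (by decide +kernel)
            (CovZ.n2 (4000, -960) (by decide +kernel)
             (CovZ.n2 (3920, -880) (by decide +kernel)
              (CovZ.n2 (4000, -880) (by decide +kernel)
               (CovZ.n2 (3960, -920) (by decide +kernel)
                (CovZ.leaf K2_ok TF_l4088 _)
                (CovZ.n1 (4000, -920) (by decide +kernel)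
                 (CovZ.badM (by decide +kernel))
                 (CovZ.leaf K2_ok TF_l4089 _)))
               (CovZ.leaf K2_ok TF_l4090 _))
              (CovZ.n1 (3920, -960) (by decide +kernel)
               (CovZ.n2 (3880, -920) (by decide +kernel)
                (CovZ.n2 (3920, -920) (by decide +kernel)
                 (CovZ.badM (by decide +kernel))
                 (CovZ.leaf K2_ok TF_l4091 _))
                (CovZ.badM (by decide +kernel)))
               (CovZ.n1 (3960, -920) (by decide +kernel)
                (CovZ.badM (by decide +kernel))
                (CovZ.leaf K2_ok TF_l4092 _))))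
             (CovZ.n1 (4080, -880) (by decide +kernel)
              (CovZ.n2 (4080, -960) (by decide +kernel)
               (CovZ.n2 (4040, -920) (by decide +kernel)
                (CovZ.leaf K2_ok TF_l4093 _)
                (CovZ.badM (by decide +kernel)))
               (CovZ.leaf K2_ok TF_l4095 _))
              (CovZ.n1 (4000, -880) (by decide +kernel)
               (CovZ.leaf K2_ok TF_l4096 _)
               (CovZ.n1 (4040, -920) (by decide +kernel)
                (CovZ.leaf K2_ok TF_l4097 _)
                (CovZ.leaf K2_ok TF_l4098 _)))))
            (CovZ.n1 (3840, -800) (by decide +kernel)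
             (CovZ.leaf K2_ok TF_l4099 _)
             (CovZ.n1 (3920, -880) (by decide +kernel)
              (CovZ.n2 (3840, -880) (by decide +kernel)
               (CovZ.leaf K2_ok TF_l4100 _)
               (CovZ.n1 (3880, -920) (by decide +kernel)
                (CovZ.n2 (3840, -920) (by decide +kernel)
                 (CovZ.leaf K2_ok TF_l4101 _)
                 (CovZ.badM (by decide +kernel)))
                (CovZ.leaf K2_ok TF_l4102 _)))
              (CovZ.n1 (3920, -800) (by decide +kernel)
               (CovZ.leaf K2_ok TF_l4103 _)
               (CovZ.leaf K2_ok TF_l4104 _)))))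
           (CovZ.n1 (4000, -1120) (by decide +kernel)
            (CovZ.badM (by decide +kernel))
            (CovZ.badM (by decide +kernel))))
          (CovZ.n1 (4160, -640) (by decide +kernel)
           (CovZ.n2 (4320, -800) (by decide +kernel)
            (CovZ.n2 (4160, -800) (by decide +kernel)
             (CovZ.leaf K2_ok TF_l4107 _)
             (CovZ.n1 (4240, -880) (by decide +kernel)
              (CovZ.leaf K2_ok TF_l4108 _)
              (CovZ.leaf K2_ok TF_l4109 _)))
            (CovZ.leaf K2_ok TF_l4110 _))
           (CovZ.n1 (4000, -800) (by decide +kernel)
            (CovZ.n2 (4000, -640) (by decide +kernel)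
             (CovZ.leaf K2_ok TF_l4111 _)
             (CovZ.n1 (3920, -720) (by decide +kernel)
              (CovZ.leaf K2_ok TF_l4112 _)
              (CovZ.leaf K2_ok TF_l4113 _)))
            (CovZ.n1 (4160, -800) (by decide +kernel)
             (CovZ.n2 (4080, -880) (by decide +kernel)
              (CovZ.leaf K2_ok TF_l4114 _)
              (CovZ.n1 (4160, -880) (by decide +kernel)
               (CovZ.leaf K2_ok TF_l4115 _)
               (CovZ.leaf K2_ok TF_l4116 _)))
             (CovZ.leaf K2_ok TF_l4117 _)))))))
       (CovZ.n1 (4480, 0) (by decide +kernel)
        (CovZ.n2 (4800, -320) (by decide +kernel)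
         (CovZ.leaf K2_ok TF_l4118 _)
         (CovZ.leaf K2_ok TF_l4119 _))
        (CovZ.n1 (4160, -320) (by decide +kernel)
         (CovZ.leaf K2_ok TF_l4120 _)
         (CovZ.n1 (4480, -320) (by decide +kernel)
          (CovZ.leaf K2_ok TF_l4121 _)
          (CovZ.leaf K2_ok TF_l4122 _))))))
     (CovZ.n1 (3200, -640) (by decide +kernel)
      (CovZ.n2 (3200, 0) (by decide +kernel)
       (CovZ.n2 (3520, -320) (by decide +kernel)
        (CovZ.n2 (3200, -320) (by decide +kernel)
         (CovZ.leaf K2_ok TF_l4123 _)
         (CovZ.n1 (3360, -480) (by decide +kernel)
          (CovZ.n2 (3200, -480) (by decide +kernel)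
           (CovZ.leaf K2_ok TF_l4124 _)
           (CovZ.leaf K2_ok TF_l4125 _))
          (CovZ.leaf K2_ok TF_l4126 _)))
        (CovZ.n1 (3520, 0) (by decide +kernel)
         (CovZ.leaf K2_ok TF_l4127 _)
         (CovZ.leaf K2_ok TF_l4128 _)))
       (CovZ.n1 (2880, -320) (by decide +kernel)
        (CovZ.n2 (2880, 0) (by decide +kernel)
         (CovZ.leaf K2_ok TF_l4129 _)
         (CovZ.n1 (2720, -160) (by decide +kernel)
          (CovZ.leaf K2_ok TF_l4130 _)
          (CovZ.leaf K2_ok TF_l4131 _)))
        (CovZ.n1 (3200, -320) (by decide +kernel)
         (CovZ.n2 (3040, -480) (by decide +kernel)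
          (CovZ.n2 (3040, -320) (by decide +kernel)
           (CovZ.leaf K2_ok TF_l4132 _)
           (CovZ.leaf K2_ok TF_l4133 _))
          (CovZ.n1 (3200, -480) (by decide +kernel)
           (CovZ.n2 (3120, -560) (by decide +kernel)
            (CovZ.leaf K2_ok TF_l4134 _)
            (CovZ.leaf K2_ok TF_l4135 _))
           (CovZ.leaf K2_ok TF_l4136 _)))
         (CovZ.leaf K2_ok TF_l4137 _))))
      TF_u37))

theorem TF_u40 : CovZ TF_M (toL (selN TF_LN 664816823226434492477552143827632672)) [0, 7, 4, 3] (25600, 0) (24320, -1280) (25600, -2560) :=
    (CovZ.n2 (25600, -1280) (by decide +kernel)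
     (CovZ.n2 (24960, -1920) (by decide +kernel)
      (CovZ.n2 (24960, -1280) (by decide +kernel)
       (CovZ.subM 664816821988494453156143003189903872 (by decide +kernel)
        (CovZ.n2 (25280, -1600) (by decide +kernel)
         (CovZ.n2 (24960, -1600) (by decide +kernel)
          (CovZ.leaf K2_ok TF_l6840 _)
          (CovZ.leaf K2_ok TF_l6841 _))
         (CovZ.n1 (25280, -1280) (by decide +kernel)
          (CovZ.leaf K2_ok TF_l6842 _)
          (CovZ.leaf K2_ok TF_l6843 _))))
       (CovZ.n1 (24640, -1600) (by decide +kernel)
        (CovZ.leaf K2_ok TF_l6844 _)
        (CovZ.n1 (24960, -1600) (by decide +kernel)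
         (CovZ.leaf K2_ok TF_l6845 _)
         (CovZ.leaf K2_ok TF_l6846 _))))
      (CovZ.subM 664816821988494453156143003189903360 (by decide +kernel)
       (CovZ.n1 (25600, -1920) (by decide +kernel)
        (CovZ.n2 (25280, -2240) (by decide +kernel)
         (CovZ.n2 (25280, -1920) (by decide +kernel)
          (CovZ.n2 (25440, -2080) (by decide +kernel)
           (CovZ.n2 (25280, -2080) (by decide +kernel)
            (CovZ.leaf K2_ok TF_l6847 _)
            (CovZ.n1 (25360, -2160) (by decide +kernel)
             (CovZ.leaf K2_ok TF_l6848 _)
             (CovZ.leaf K2_ok TF_l6849 _)))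
           (CovZ.n1 (25440, -1920) (by decide +kernel)
            (CovZ.leaf K2_ok TF_l6850 _)
            (CovZ.leaf K2_ok TF_l6851 _)))
          (CovZ.n1 (25120, -2080) (by decide +kernel)
           (CovZ.leaf K2_ok TF_l6852 _)
           (CovZ.n1 (25280, -2080) (by decide +kernel)
            (CovZ.leaf K2_ok TF_l6853 _)
            (CovZ.leaf K2_ok TF_l6854 _))))
         (CovZ.n1 (25600, -2240) (by decide +kernel)
          (CovZ.n2 (25440, -2400) (by decide +kernel)
           (CovZ.n2 (25440, -2240) (by decide +kernel)
            (CovZ.n2 (25520, -2320) (by decide +kernel)
             (CovZ.n2 (25440, -2320) (by decide +kernel)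
              (CovZ.leaf K2_ok TF_l6855 _)
              (CovZ.n1 (25480, -2360) (by decide +kernel)
               (CovZ.leaf K2_ok TF_l6856 _)
               (CovZ.leaf K2_ok TF_l6857 _)))
             (CovZ.n1 (25520, -2240) (by decide +kernel)
              (CovZ.leaf K2_ok TF_l6858 _)
              (CovZ.leaf K2_ok TF_l6859 _)))
            (CovZ.n1 (25360, -2320) (by decide +kernel)
             (CovZ.leaf K2_ok TF_l6860 _)
             (CovZ.n1 (25440, -2320) (by decide +kernel)
              (CovZ.leaf K2_ok TF_l6861 _)
              (CovZ.leaf K2_ok TF_l6862 _))))
           (CovZ.n1 (25600, -2400) (by decide +kernel)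
            (CovZ.n2 (25520, -2480) (by decide +kernel)
             (CovZ.n2 (25520, -2400) (by decide +kernel)
              (CovZ.n2 (25560, -2440) (by decide +kernel)
               (CovZ.n2 (25520, -2440) (by decide +kernel)
                (CovZ.leaf K2_ok TF_l6863 _)
                (CovZ.n1 (25540, -2460) (by decide +kernel)
                 (CovZ.leaf K2_ok TF_l15198 _)
                 (CovZ.leaf K2_ok TF_l15199 _)))
               (CovZ.n1 (25560, -2400) (by decide +kernel)
                (CovZ.n2 (25580, -2420) (by decide +kernel)
                 (CovZ.leaf K2_ok TF_l15200 _)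
                 (CovZ.leaf K2_ok TF_l15201 _))
                (CovZ.leaf K2_ok TF_l6864 _)))
              (CovZ.n1 (25480, -2440) (by decide +kernel)
               (CovZ.leaf K2_ok TF_l6865 _)
               (CovZ.n1 (25520, -2440) (by decide +kernel)
                (CovZ.leaf K2_ok TF_l15202 _)
                (CovZ.leaf K2_ok TF_l6866 _))))
             (CovZ.n1 (25600, -2480) (by decide +kernel)
              (CovZ.badM (by decide +kernel))
              (CovZ.n1 (25560, -2440) (by decide +kernel)
               (CovZ.n2 (25600, -2440) (by decide +kernel)
                (CovZ.n2 (25580, -2460) (by decide +kernel)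
                 (CovZ.leaf K2_ok TF_l15203 _)
                 (CovZ.n1 (25600, -2460) (by decide +kernel)
                  (CovZ.badM (by decide +kernel))
                  (CovZ.leaf K2_ok TF_l15204 _)))
                (CovZ.n1 (25580, -2420) (by decide +kernel)
                 (CovZ.leaf K2_ok TF_l15205 _)
                 (CovZ.leaf K2_ok TF_l15206 _)))
               (CovZ.n1 (25560, -2480) (by decide +kernel)
                (CovZ.n2 (25540, -2460) (by decide +kernel)
                 (CovZ.leaf K2_ok TF_l15207 _)
                 (CovZ.badM (by decide +kernel)))
                (CovZ.leaf K2_ok TF_l15208 _)))))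
            (CovZ.n1 (25520, -2320) (by decide +kernel)
             (CovZ.n2 (25600, -2320) (by decide +kernel)
              (CovZ.n2 (25560, -2360) (by decide +kernel)
               (CovZ.leaf K2_ok TF_l6867 _)
               (CovZ.n1 (25600, -2360) (by decide +kernel)
                (CovZ.leaf K2_ok TF_l6868 _)
                (CovZ.leaf K2_ok TF_l6869 _)))
              (CovZ.leaf K2_ok TF_l6870 _))
             (CovZ.n1 (25520, -2400) (by decide +kernel)
              (CovZ.n2 (25480, -2360) (by decide +kernel)
               (CovZ.leaf K2_ok TF_l6871 _)
               (CovZ.leaf K2_ok TF_l6872 _))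
              (CovZ.leaf K2_ok TF_l6873 _)))))
          (CovZ.n1 (25440, -2080) (by decide +kernel)
           (CovZ.n2 (25600, -2080) (by decide +kernel)
            (CovZ.n2 (25520, -2160) (by decide +kernel)
             (CovZ.leaf K2_ok TF_l6874 _)
             (CovZ.leaf K2_ok TF_l6875 _))
            (CovZ.leaf K2_ok TF_l6876 _))
           (CovZ.n1 (25440, -2240) (by decide +kernel)
            (CovZ.n2 (25360, -2160) (by decide +kernel)
             (CovZ.leaf K2_ok TF_l6877 _)
             (CovZ.leaf K2_ok TF_l6878 _))
            (CovZ.leaf K2_ok TF_l6879 _)))))
        (CovZ.n1 (25280, -1600) (by decide +kernel)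
         (CovZ.n2 (25600, -1600) (by decide +kernel)
          (CovZ.n2 (25440, -1760) (by decide +kernel)
           (CovZ.leaf K2_ok TF_l6880 _)
           (CovZ.leaf K2_ok TF_l6881 _))
          (CovZ.leaf K2_ok TF_l6882 _))
         (CovZ.n1 (25280, -1920) (by decide +kernel)
          (CovZ.leaf K2_ok TF_l6883 _)
          (CovZ.leaf K2_ok TF_l6884 _))))))
     (CovZ.n1 (24960, -640) (by decide +kernel)
      (CovZ.n2 (25600, -640) (by decide +kernel)
       (CovZ.n2 (25280, -960) (by decide +kernel)
        (CovZ.leaf K2_ok TF_l6885 _)
        (CovZ.leaf K2_ok TF_l6886 _))
       (CovZ.leaf K2_ok TF_l6887 _))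
      (CovZ.n1 (24960, -1280) (by decide +kernel)
       (CovZ.leaf K2_ok TF_l6888 _)
       (CovZ.leaf K2_ok TF_l6889 _))))

theorem TF_u41 : CovZ TF_M (toL (selN TF_LN 664816823226434492477552143827632672)) [0, 7, 4, 3] (24320, -1280) (23040, -2560) (25600, -2560) :=
    (CovZ.n1 (24320, -2560) (by decide +kernel)
     (CovZ.n2 (23680, -1920) (by decide +kernel)
      (CovZ.n2 (24320, -1920) (by decide +kernel)
       (CovZ.subM 664613999130397975773312671314608640 (by decide +kernel)
        (CovZ.n2 (24000, -2240) (by decide +kernel)
         (CovZ.n2 (24000, -1920) (by decide +kernel)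
          (CovZ.leaf K2_ok TF_l6890 _)
          (CovZ.leaf K2_ok TF_l6891 _))
         (CovZ.n1 (24320, -2240) (by decide +kernel)
          (CovZ.n2 (24160, -2400) (by decide +kernel)
           (CovZ.leaf K2_ok TF_l6892 _)
           (CovZ.n1 (24320, -2400) (by decide +kernel)
            (CovZ.leaf K2_ok TF_l6893 _)
            (CovZ.leaf K2_ok TF_l6894 _)))
          (CovZ.leaf K2_ok TF_l6895 _))))
       (CovZ.n1 (24000, -1600) (by decide +kernel)
        (CovZ.leaf K2_ok TF_l6896 _)
        (CovZ.leaf K2_ok TF_l6897 _)))
      (CovZ.n1 (23680, -2560) (by decide +kernel)
       (CovZ.n2 (23360, -2240) (by decide +kernel)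
        (CovZ.n2 (23680, -2240) (by decide +kernel)
         (CovZ.leaf K2_ok TF_l6898 _)
         (CovZ.leaf K2_ok TF_l6899 _))
        (CovZ.leaf K2_ok TF_l6900 _))
       (CovZ.subM 664613999130397975773312671314608640 (by decide +kernel)
        (CovZ.n1 (24000, -2240) (by decide +kernel)
         (CovZ.n2 (24000, -2560) (by decide +kernel)
          (CovZ.n2 (23840, -2400) (by decide +kernel)
           (CovZ.leaf K2_ok TF_l6901 _)
           (CovZ.leaf K2_ok TF_l6902 _))
          (CovZ.leaf K2_ok TF_l6903 _))
         (CovZ.n1 (23680, -2240) (by decide +kernel)
          (CovZ.leaf K2_ok TF_l6904 _)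
          (CovZ.n1 (23840, -2400) (by decide +kernel)
           (CovZ.leaf K2_ok TF_l6905 _)
           (CovZ.leaf K2_ok TF_l6906 _)))))))
     (CovZ.n1 (24960, -1920) (by decide +kernel)
      (CovZ.subM 664613997892457936487932327696007168 (by decide +kernel)
       (CovZ.n2 (24960, -2560) (by decide +kernel)
        (CovZ.n2 (24640, -2240) (by decide +kernel)
         (CovZ.n2 (24960, -2240) (by decide +kernel)
          (CovZ.n2 (24800, -2400) (by decide +kernel)
           (CovZ.n2 (24800, -2240) (by decide +kernel)
            (CovZ.leaf K2_ok TF_l6907 _)
            (CovZ.leaf K2_ok TF_l6908 _))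
           (CovZ.n1 (24960, -2400) (by decide +kernel)
            (CovZ.n2 (24880, -2480) (by decide +kernel)
             (CovZ.leaf K2_ok TF_l6909 _)
             (CovZ.n1 (24960, -2480) (by decide +kernel)
              (CovZ.leaf K2_ok TF_l6910 _)
              (CovZ.leaf K2_ok TF_l6911 _)))
            (CovZ.leaf K2_ok TF_l6912 _)))
          (CovZ.n1 (24800, -2080) (by decide +kernel)
           (CovZ.leaf K2_ok TF_l6913 _)
           (CovZ.leaf K2_ok TF_l6914 _)))
         (CovZ.n1 (24640, -2560) (by decide +kernel)
          (CovZ.n2 (24480, -2400) (by decide +kernel)
           (CovZ.n2 (24640, -2400) (by decide +kernel)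
            (CovZ.leaf K2_ok TF_l6915 _)
            (CovZ.leaf K2_ok TF_l6916 _))
           (CovZ.leaf K2_ok TF_l6917 _))
          (CovZ.n1 (24800, -2400) (by decide +kernel)
           (CovZ.n2 (24800, -2560) (by decide +kernel)
            (CovZ.n2 (24720, -2480) (by decide +kernel)
             (CovZ.leaf K2_ok TF_l6918 _)
             (CovZ.leaf K2_ok TF_l6919 _))
            (CovZ.leaf K2_ok TF_l6920 _))
           (CovZ.n1 (24640, -2400) (by decide +kernel)
            (CovZ.leaf K2_ok TF_l6921 _)
            (CovZ.n1 (24720, -2480) (by decide +kernel)
             (CovZ.leaf K2_ok TF_l6922 _)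
             (CovZ.leaf K2_ok TF_l6923 _))))))
        (CovZ.n1 (25280, -2240) (by decide +kernel)
         (CovZ.n2 (25280, -2560) (by decide +kernel)
          (CovZ.n2 (25120, -2400) (by decide +kernel)
           (CovZ.n2 (25280, -2400) (by decide +kernel)
            (CovZ.n2 (25200, -2480) (by decide +kernel)
             (CovZ.n2 (25200, -2400) (by decide +kernel)
              (CovZ.leaf K2_ok TF_l6924 _)
              (CovZ.leaf K2_ok TF_l6925 _))
             (CovZ.n1 (25280, -2480) (by decide +kernel)
              (CovZ.badM (by decide +kernel))
              (CovZ.leaf K2_ok TF_l6928 _)))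
            (CovZ.n1 (25200, -2320) (by decide +kernel)
             (CovZ.leaf K2_ok TF_l6929 _)
             (CovZ.leaf K2_ok TF_l6930 _)))
           (CovZ.n1 (25120, -2560) (by decide +kernel)
            (CovZ.n2 (25040, -2480) (by decide +kernel)
             (CovZ.n2 (25120, -2480) (by decide +kernel)
              (CovZ.leaf K2_ok TF_l6931 _)
              (CovZ.leaf K2_ok TF_l6932 _))
             (CovZ.leaf K2_ok TF_l6933 _))
            (CovZ.n1 (25200, -2480) (by decide +kernel)
             (CovZ.badM (by decide +kernel))
             (CovZ.n1 (25120, -2480) (by decide +kernel)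
              (CovZ.leaf K2_ok TF_l6937 _)
              (CovZ.badM (by decide +kernel))))))
          (CovZ.n1 (25440, -2400) (by decide +kernel)
           (CovZ.n2 (25440, -2560) (by decide +kernel)
            (CovZ.n2 (25360, -2480) (by decide +kernel)
             (CovZ.n2 (25440, -2480) (by decide +kernel)
              (CovZ.badM (by decide +kernel))
              (CovZ.n1 (25400, -2440) (by decide +kernel)
               (CovZ.n2 (25440, -2440) (by decide +kernel)
                (CovZ.leaf K2_ok TF_l6940 _)
                (CovZ.leaf K2_ok TF_l6941 _))
               (CovZ.leaf K2_ok TF_l6942 _)))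
             (CovZ.badM (by decide +kernel)))
            (CovZ.n1 (25520, -2480) (by decide +kernel)
             (CovZ.badM (by decide +kernel))
             (CovZ.n1 (25440, -2480) (by decide +kernel)
              (CovZ.leaf K2_ok TF_l6945 _)
              (CovZ.badM (by decide +kernel)))))
           (CovZ.n1 (25280, -2400) (by decide +kernel)
            (CovZ.leaf K2_ok TF_l6946 _)
            (CovZ.n1 (25360, -2480) (by decide +kernel)
             (CovZ.n2 (25280, -2480) (by decide +kernel)
              (CovZ.leaf K2_ok TF_l6947 _)
              (CovZ.badM (by decide +kernel)))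
             (CovZ.n1 (25360, -2400) (by decide +kernel)
              (CovZ.n2 (25400, -2440) (by decide +kernel)
               (CovZ.leaf K2_ok TF_l6950 _)
               (CovZ.leaf K2_ok TF_l6951 _))
              (CovZ.leaf K2_ok TF_l6952 _))))))
         (CovZ.n1 (24960, -2240) (by decide +kernel)
          (CovZ.leaf K2_ok TF_l6953 _)
          (CovZ.n1 (25120, -2400) (by decide +kernel)
           (CovZ.n2 (24960, -2400) (by decide +kernel)
            (CovZ.leaf K2_ok TF_l6954 _)
            (CovZ.n1 (25040, -2480) (by decide +kernel)
             (CovZ.leaf K2_ok TF_l6955 _)
             (CovZ.leaf K2_ok TF_l6956 _)))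
           (CovZ.n1 (25120, -2240) (by decide +kernel)
            (CovZ.n2 (25200, -2320) (by decide +kernel)
             (CovZ.leaf K2_ok TF_l6957 _)
             (CovZ.leaf K2_ok TF_l6958 _))
            (CovZ.leaf K2_ok TF_l6959 _)))))))
      (CovZ.n1 (24320, -1920) (by decide +kernel)
       (CovZ.leaf K2_ok TF_l6960 _)
       (CovZ.subM 664613999130397975773312602595131904 (by decide +kernel)
        (CovZ.n1 (24640, -2240) (by decide +kernel)
         (CovZ.n2 (24320, -2240) (by decide +kernel)
          (CovZ.leaf K2_ok TF_l6961 _)
          (CovZ.n1 (24480, -2400) (by decide +kernel)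
           (CovZ.leaf K2_ok TF_l6962 _)
           (CovZ.leaf K2_ok TF_l6963 _)))
         (CovZ.n1 (24640, -1920) (by decide +kernel)
          (CovZ.n2 (24800, -2080) (by decide +kernel)
           (CovZ.leaf K2_ok TF_l6964 _)
           (CovZ.leaf K2_ok TF_l6965 _))
          (CovZ.leaf K2_ok TF_l6966 _)))))))

theorem TF_u42 : CovZ TF_M (toL (selN TF_LN 664816821988494453156143003190034432)) [0, 7, 4, 3] (28160, -1280) (28160, -640) (27520, -640) :=
    (CovZ.n2 (27840, -960) (by decide +kernel)
        (CovZ.n2 (27840, -640) (by decide +kernel)
         (CovZ.n2 (28000, -800) (by decide +kernel)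
          (CovZ.n2 (27840, -800) (by decide +kernel)
           (CovZ.n2 (27920, -720) (by decide +kernel)
            (CovZ.n2 (27920, -800) (by decide +kernel)
             (CovZ.n2 (27880, -760) (by decide +kernel)
              (CovZ.n2 (27920, -760) (by decide +kernel)
               (CovZ.leaf K2_ok TF_l7179 _)
               (CovZ.leaf K2_ok TF_l7180 _))
              (CovZ.n1 (27880, -800) (by decide +kernel)
               (CovZ.leaf K2_ok TF_l7181 _)
               (CovZ.leaf K2_ok TF_l7182 _)))
             (CovZ.n1 (27960, -760) (by decide +kernel)
              (CovZ.n2 (27960, -800) (by decide +kernel)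
               (CovZ.leaf K2_ok TF_l7183 _)
               (CovZ.leaf K2_ok TF_l7184 _))
              (CovZ.n1 (27920, -760) (by decide +kernel)
               (CovZ.leaf K2_ok TF_l7185 _)
               (CovZ.leaf K2_ok TF_l7186 _))))
            (CovZ.n1 (27840, -720) (by decide +kernel)
             (CovZ.leaf K2_ok TF_l7187 _)
             (CovZ.n1 (27880, -760) (by decide +kernel)
              (CovZ.n2 (27840, -760) (by decide +kernel)
               (CovZ.leaf K2_ok TF_l7188 _)
               (CovZ.leaf K2_ok TF_l7189 _))
              (CovZ.n1 (27880, -720) (by decide +kernel)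
               (CovZ.leaf K2_ok TF_l7190 _)
               (CovZ.leaf K2_ok TF_l7191 _)))))
           (CovZ.n1 (27920, -880) (by decide +kernel)
            (CovZ.n2 (27840, -880) (by decide +kernel)
             (CovZ.n2 (27880, -840) (by decide +kernel)
              (CovZ.n2 (27880, -880) (by decide +kernel)
               (CovZ.leaf K2_ok TF_l7192 _)
               (CovZ.leaf K2_ok TF_l7193 _))
              (CovZ.n1 (27840, -840) (by decide +kernel)
               (CovZ.leaf K2_ok TF_l7194 _)
               (CovZ.leaf K2_ok TF_l7195 _)))
             (CovZ.n1 (27880, -920) (by decide +kernel)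
              (CovZ.n2 (27840, -920) (by decide +kernel)
               (CovZ.leaf K2_ok TF_l7196 _)
               (CovZ.n1 (27860, -940) (by decide +kernel)
                (CovZ.leaf K2_ok TF_l15516 _)
                (CovZ.leaf K2_ok TF_l15517 _)))
              (CovZ.n1 (27880, -880) (by decide +kernel)
               (CovZ.leaf K2_ok TF_l7197 _)
               (CovZ.leaf K2_ok TF_l7198 _))))
            (CovZ.n1 (27920, -800) (by decide +kernel)
             (CovZ.n2 (27960, -840) (by decide +kernel)
              (CovZ.n2 (27920, -840) (by decide +kernel)
               (CovZ.leaf K2_ok TF_l7199 _)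
               (CovZ.leaf K2_ok TF_l7200 _))
              (CovZ.n1 (27960, -800) (by decide +kernel)
               (CovZ.leaf K2_ok TF_l7201 _)
               (CovZ.leaf K2_ok TF_l7202 _)))
             (CovZ.n1 (27880, -840) (by decide +kernel)
              (CovZ.n2 (27880, -800) (by decide +kernel)
               (CovZ.leaf K2_ok TF_l7203 _)
               (CovZ.leaf K2_ok TF_l7204 _))
              (CovZ.n1 (27920, -840) (by decide +kernel)
               (CovZ.leaf K2_ok TF_l7205 _)
               (CovZ.leaf K2_ok TF_l7206 _))))))
          (CovZ.n1 (28000, -640) (by decide +kernel)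
           (CovZ.n2 (28080, -720) (by decide +kernel)
            (CovZ.n2 (28000, -720) (by decide +kernel)
             (CovZ.n2 (28040, -680) (by decide +kernel)
              (CovZ.n2 (28040, -720) (by decide +kernel)
               (CovZ.leaf K2_ok TF_l7207 _)
               (CovZ.leaf K2_ok TF_l7208 _))
              (CovZ.n1 (28000, -680) (by decide +kernel)
               (CovZ.leaf K2_ok TF_l7209 _)
               (CovZ.leaf K2_ok TF_l7210 _)))
             (CovZ.n1 (28040, -760) (by decide +kernel)
              (CovZ.n2 (28000, -760) (by decide +kernel)
               (CovZ.leaf K2_ok TF_l7211 _)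
               (CovZ.leaf K2_ok TF_l7212 _))
              (CovZ.n1 (28040, -720) (by decide +kernel)
               (CovZ.badM (by decide +kernel))
               (CovZ.leaf K2_ok TF_l7214 _))))
            (CovZ.n1 (28080, -640) (by decide +kernel)
             (CovZ.n2 (28120, -680) (by decide +kernel)
              (CovZ.n2 (28080, -680) (by decide +kernel)
               (CovZ.leaf K2_ok TF_l7215 _)
               (CovZ.badM (by decide +kernel)))
              (CovZ.n1 (28120, -640) (by decide +kernel)
               (CovZ.badM (by decide +kernel))
               (CovZ.leaf K2_ok TF_l7218 _)))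
             (CovZ.n1 (28040, -680) (by decide +kernel)
              (CovZ.n2 (28040, -640) (by decide +kernel)
               (CovZ.leaf K2_ok TF_l7219 _)
               (CovZ.leaf K2_ok TF_l7220 _))
              (CovZ.n1 (28080, -680) (by decide +kernel)
               (CovZ.leaf K2_ok TF_l7221 _)
               (CovZ.leaf K2_ok TF_l7222 _)))))
           (CovZ.n1 (27920, -720) (by decide +kernel)
            (CovZ.n2 (27920, -640) (by decide +kernel)
             (CovZ.n2 (27960, -680) (by decide +kernel)
              (CovZ.n2 (27920, -680) (by decide +kernel)
               (CovZ.leaf K2_ok TF_l7223 _)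
               (CovZ.leaf K2_ok TF_l7224 _))
              (CovZ.n1 (27960, -640) (by decide +kernel)
               (CovZ.leaf K2_ok TF_l7225 _)
               (CovZ.leaf K2_ok TF_l7226 _)))
             (CovZ.n1 (27880, -680) (by decide +kernel)
              (CovZ.leaf K2_ok TF_l7227 _)
              (CovZ.n1 (27920, -680) (by decide +kernel)
               (CovZ.leaf K2_ok TF_l7228 _)
               (CovZ.leaf K2_ok TF_l7229 _))))
            (CovZ.n1 (28000, -720) (by decide +kernel)
             (CovZ.n2 (27960, -760) (by decide +kernel)
              (CovZ.n2 (27960, -720) (by decide +kernel)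
               (CovZ.leaf K2_ok TF_l7230 _)
               (CovZ.leaf K2_ok TF_l7231 _))
              (CovZ.n1 (28000, -760) (by decide +kernel)
               (CovZ.leaf K2_ok TF_l7232 _)
               (CovZ.leaf K2_ok TF_l7233 _)))
             (CovZ.n1 (27960, -680) (by decide +kernel)
              (CovZ.n2 (28000, -680) (by decide +kernel)
               (CovZ.leaf K2_ok TF_l7234 _)
               (CovZ.leaf K2_ok TF_l7235 _))
              (CovZ.n1 (27960, -720) (by decide +kernel)
               (CovZ.leaf K2_ok TF_l7236 _)
               (CovZ.leaf K2_ok TF_l7237 _)))))))
         (CovZ.n1 (27680, -800) (by decide +kernel)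
          (CovZ.n2 (27680, -640) (by decide +kernel)
           (CovZ.n2 (27760, -720) (by decide +kernel)
            (CovZ.n2 (27680, -720) (by decide +kernel)
             (CovZ.leaf K2_ok TF_l7238 _)
             (CovZ.n1 (27720, -760) (by decide +kernel)
              (CovZ.leaf K2_ok TF_l7239 _)
              (CovZ.leaf K2_ok TF_l7240 _)))
            (CovZ.n1 (27760, -640) (by decide +kernel)
             (CovZ.n2 (27800, -680) (by decide +kernel)
              (CovZ.leaf K2_ok TF_l7241 _)
              (CovZ.leaf K2_ok TF_l7242 _))
             (CovZ.leaf K2_ok TF_l7243 _)))
           (CovZ.n1 (27600, -720) (by decide +kernel)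
            (CovZ.leaf K2_ok TF_l7244 _)
            (CovZ.n1 (27680, -720) (by decide +kernel)
             (CovZ.leaf K2_ok TF_l7245 _)
             (CovZ.leaf K2_ok TF_l7246 _))))
          (CovZ.n1 (27840, -800) (by decide +kernel)
           (CovZ.n2 (27760, -880) (by decide +kernel)
            (CovZ.n2 (27760, -800) (by decide +kernel)
             (CovZ.n2 (27800, -840) (by decide +kernel)
              (CovZ.n2 (27760, -840) (by decide +kernel)
               (CovZ.leaf K2_ok TF_l7247 _)
               (CovZ.leaf K2_ok TF_l7248 _))
              (CovZ.n1 (27800, -800) (by decide +kernel)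
               (CovZ.leaf K2_ok TF_l7249 _)
               (CovZ.leaf K2_ok TF_l7250 _)))
             (CovZ.n1 (27720, -840) (by decide +kernel)
              (CovZ.leaf K2_ok TF_l7251 _)
              (CovZ.n1 (27760, -840) (by decide +kernel)
               (CovZ.leaf K2_ok TF_l7252 _)
               (CovZ.leaf K2_ok TF_l7253 _))))
            (CovZ.n1 (27840, -880) (by decide +kernel)
             (CovZ.n2 (27800, -920) (by decide +kernel)
              (CovZ.n2 (27800, -880) (by decide +kernel)
               (CovZ.leaf K2_ok TF_l7254 _)
               (CovZ.leaf K2_ok TF_l7255 _))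
              (CovZ.n1 (27840, -920) (by decide +kernel)
               (CovZ.n2 (27820, -940) (by decide +kernel)
                (CovZ.leaf K2_ok TF_l15518 _)
                (CovZ.leaf K2_ok TF_l15519 _))
               (CovZ.leaf K2_ok TF_l7256 _)))
             (CovZ.n1 (27800, -840) (by decide +kernel)
              (CovZ.leaf K2_ok TF_l7257 _)
              (CovZ.leaf K2_ok TF_l7258 _))))
           (CovZ.n1 (27760, -720) (by decide +kernel)
            (CovZ.n2 (27840, -720) (by decide +kernel)
             (CovZ.n2 (27800, -760) (by decide +kernel)
              (CovZ.leaf K2_ok TF_l7259 _)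
              (CovZ.leaf K2_ok TF_l7260 _))
             (CovZ.n1 (27800, -680) (by decide +kernel)
              (CovZ.leaf K2_ok TF_l7261 _)
              (CovZ.leaf K2_ok TF_l7262 _)))
            (CovZ.n1 (27760, -800) (by decide +kernel)
             (CovZ.n2 (27720, -760) (by decide +kernel)
              (CovZ.leaf K2_ok TF_l7263 _)
              (CovZ.leaf K2_ok TF_l7264 _))
             (CovZ.leaf K2_ok TF_l7265 _))))))
        (CovZ.badM (by decide +kernel)))

theorem TF_u43 : CovZ TF_M (toL (selN TF_LN 664816821988494453156143003190034432)) [0, 7, 4, 3] (28160, -640) (28160, 0) (27520, -640) :=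
    (CovZ.n1 (27840, -320) (by decide +kernel)
        (CovZ.n2 (28160, -320) (by decide +kernel)
         (CovZ.n2 (28000, -480) (by decide +kernel)
          (CovZ.n2 (28000, -320) (by decide +kernel)
           (CovZ.n2 (28080, -400) (by decide +kernel)
            (CovZ.n2 (28000, -400) (by decide +kernel)
             (CovZ.leaf K2_ok TF_l7266 _)
             (CovZ.n1 (28040, -440) (by decide +kernel)
              (CovZ.leaf K2_ok TF_l7267 _)
              (CovZ.leaf K2_ok TF_l7268 _)))
            (CovZ.n1 (28080, -320) (by decide +kernel)
             (CovZ.n2 (28120, -360) (by decide +kernel)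
              (CovZ.leaf K2_ok TF_l7269 _)
              (CovZ.leaf K2_ok TF_l7270 _))
             (CovZ.leaf K2_ok TF_l7271 _)))
           (CovZ.n1 (27920, -400) (by decide +kernel)
            (CovZ.leaf K2_ok TF_l7272 _)
            (CovZ.n1 (28000, -400) (by decide +kernel)
             (CovZ.leaf K2_ok TF_l7273 _)
             (CovZ.leaf K2_ok TF_l7274 _))))
          (CovZ.n1 (28160, -480) (by decide +kernel)
           (CovZ.n2 (28080, -560) (by decide +kernel)
            (CovZ.n2 (28080, -480) (by decide +kernel)
             (CovZ.n2 (28120, -520) (by decide +kernel)
              (CovZ.n2 (28080, -520) (by decide +kernel)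
               (CovZ.leaf K2_ok TF_l7275 _)
               (CovZ.leaf K2_ok TF_l7276 _))
              (CovZ.n1 (28120, -480) (by decide +kernel)
               (CovZ.leaf K2_ok TF_l7277 _)
               (CovZ.leaf K2_ok TF_l7278 _)))
             (CovZ.n1 (28040, -520) (by decide +kernel)
              (CovZ.leaf K2_ok TF_l7279 _)
              (CovZ.leaf K2_ok TF_l7280 _)))
            (CovZ.n1 (28160, -560) (by decide +kernel)
             (CovZ.n2 (28120, -600) (by decide +kernel)
              (CovZ.n2 (28120, -560) (by decide +kernel)
               (CovZ.leaf K2_ok TF_l7281 _)
               (CovZ.leaf K2_ok TF_l7282 _))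
              (CovZ.leaf K2_ok TF_l7283 _))
             (CovZ.n1 (28120, -520) (by decide +kernel)
              (CovZ.leaf K2_ok TF_l7284 _)
              (CovZ.leaf K2_ok TF_l7285 _))))
           (CovZ.n1 (28080, -400) (by decide +kernel)
            (CovZ.n2 (28160, -400) (by decide +kernel)
             (CovZ.n2 (28120, -440) (by decide +kernel)
              (CovZ.leaf K2_ok TF_l7286 _)
              (CovZ.leaf K2_ok TF_l7287 _))
             (CovZ.n1 (28120, -360) (by decide +kernel)
              (CovZ.leaf K2_ok TF_l7288 _)
              (CovZ.leaf K2_ok TF_l7289 _)))
            (CovZ.n1 (28080, -480) (by decide +kernel)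
             (CovZ.n2 (28040, -440) (by decide +kernel)
              (CovZ.leaf K2_ok TF_l7290 _)
              (CovZ.leaf K2_ok TF_l7291 _))
             (CovZ.leaf K2_ok TF_l7292 _)))))
         (CovZ.n1 (28000, -160) (by decide +kernel)
          (CovZ.n2 (28160, -160) (by decide +kernel)
           (CovZ.n2 (28080, -240) (by decide +kernel)
            (CovZ.leaf K2_ok TF_l7293 _)
            (CovZ.n1 (28160, -240) (by decide +kernel)
             (CovZ.leaf K2_ok TF_l7294 _)
             (CovZ.leaf K2_ok TF_l7295 _)))
           (CovZ.n1 (28080, -80) (by decide +kernel)
            (CovZ.leaf K2_ok TF_l7296 _)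
            (CovZ.leaf K2_ok TF_l7297 _)))
          (CovZ.n1 (28000, -320) (by decide +kernel)
           (CovZ.n2 (27920, -240) (by decide +kernel)
            (CovZ.leaf K2_ok TF_l7298 _)
            (CovZ.leaf K2_ok TF_l7299 _))
           (CovZ.leaf K2_ok TF_l7300 _))))
        (CovZ.n1 (27840, -640) (by decide +kernel)
         (CovZ.n2 (27680, -480) (by decide +kernel)
          (CovZ.n2 (27840, -480) (by decide +kernel)
           (CovZ.n2 (27760, -560) (by decide +kernel)
            (CovZ.leaf K2_ok TF_l7301 _)
            (CovZ.n1 (27840, -560) (by decide +kernel)
             (CovZ.leaf K2_ok TF_l7302 _)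
             (CovZ.leaf K2_ok TF_l7303 _)))
           (CovZ.n1 (27760, -400) (by decide +kernel)
            (CovZ.leaf K2_ok TF_l7304 _)
            (CovZ.leaf K2_ok TF_l7305 _)))
          (CovZ.n1 (27680, -640) (by decide +kernel)
           (CovZ.n2 (27600, -560) (by decide +kernel)
            (CovZ.leaf K2_ok TF_l7306 _)
            (CovZ.leaf K2_ok TF_l7307 _))
           (CovZ.leaf K2_ok TF_l7308 _)))
         (CovZ.n1 (28000, -480) (by decide +kernel)
          (CovZ.n2 (28000, -640) (by decide +kernel)
           (CovZ.n2 (27920, -560) (by decide +kernel)
            (CovZ.n2 (28000, -560) (by decide +kernel)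
             (CovZ.n2 (27960, -600) (by decide +kernel)
              (CovZ.leaf K2_ok TF_l7309 _)
              (CovZ.leaf K2_ok TF_l7310 _))
             (CovZ.n1 (27960, -520) (by decide +kernel)
              (CovZ.leaf K2_ok TF_l7311 _)
              (CovZ.leaf K2_ok TF_l7312 _)))
            (CovZ.n1 (27920, -640) (by decide +kernel)
             (CovZ.n2 (27880, -600) (by decide +kernel)
              (CovZ.leaf K2_ok TF_l7313 _)
              (CovZ.leaf K2_ok TF_l7314 _))
             (CovZ.leaf K2_ok TF_l7315 _)))
           (CovZ.n1 (28080, -560) (by decide +kernel)
            (CovZ.n2 (28080, -640) (by decide +kernel)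
             (CovZ.n2 (28040, -600) (by decide +kernel)
              (CovZ.leaf K2_ok TF_l7316 _)
              (CovZ.leaf K2_ok TF_l7317 _))
             (CovZ.n1 (28120, -600) (by decide +kernel)
              (CovZ.leaf K2_ok TF_l7318 _)
              (CovZ.leaf K2_ok TF_l7319 _)))
            (CovZ.n1 (28000, -560) (by decide +kernel)
             (CovZ.leaf K2_ok TF_l7320 _)
             (CovZ.n1 (28040, -600) (by decide +kernel)
              (CovZ.leaf K2_ok TF_l7321 _)
              (CovZ.leaf K2_ok TF_l7322 _)))))
          (CovZ.n1 (27840, -480) (by decide +kernel)
           (CovZ.leaf K2_ok TF_l7323 _)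
           (CovZ.n1 (27920, -560) (by decide +kernel)
            (CovZ.n2 (27840, -560) (by decide +kernel)
             (CovZ.leaf K2_ok TF_l7324 _)
             (CovZ.n1 (27880, -600) (by decide +kernel)
              (CovZ.leaf K2_ok TF_l7325 _)
              (CovZ.leaf K2_ok TF_l7326 _)))
            (CovZ.n1 (27920, -480) (by decide +kernel)
             (CovZ.n2 (27960, -520) (by decide +kernel)
              (CovZ.leaf K2_ok TF_l7327 _)
              (CovZ.leaf K2_ok TF_l7328 _))
             (CovZ.leaf K2_ok TF_l7329 _)))))))

theorem TF_u44 : CovZ TF_M (toL (selN TF_LN 664816821988494453156143003190034432)) [0, 7, 4, 3] (26880, -1280) (27520, -1280) (27520, -640) :=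
    (CovZ.n2 (27200, -960) (by decide +kernel)
        (CovZ.n2 (27520, -960) (by decide +kernel)
         (CovZ.n2 (27360, -1120) (by decide +kernel)
          (CovZ.n2 (27360, -960) (by decide +kernel)
           (CovZ.n2 (27440, -1040) (by decide +kernel)
            (CovZ.n2 (27360, -1040) (by decide +kernel)
             (CovZ.leaf K2_ok TF_l7330 _)
             (CovZ.n1 (27400, -1080) (by decide +kernel)
              (CovZ.leaf K2_ok TF_l7331 _)
              (CovZ.leaf K2_ok TF_l7332 _)))
            (CovZ.n1 (27440, -960) (by decide +kernel)
             (CovZ.n2 (27480, -1000) (by decide +kernel)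
              (CovZ.leaf K2_ok TF_l7333 _)
              (CovZ.leaf K2_ok TF_l7334 _))
             (CovZ.leaf K2_ok TF_l7335 _)))
           (CovZ.n1 (27280, -1040) (by decide +kernel)
            (CovZ.n2 (27280, -960) (by decide +kernel)
             (CovZ.leaf K2_ok TF_l7336 _)
             (CovZ.leaf K2_ok TF_l7337 _))
            (CovZ.n1 (27360, -1040) (by decide +kernel)
             (CovZ.n2 (27320, -1080) (by decide +kernel)
              (CovZ.leaf K2_ok TF_l7338 _)
              (CovZ.leaf K2_ok TF_l7339 _))
             (CovZ.leaf K2_ok TF_l7340 _))))
          (CovZ.n1 (27520, -1120) (by decide +kernel)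
           (CovZ.badM (by decide +kernel))
           (CovZ.n1 (27440, -1040) (by decide +kernel)
            (CovZ.n2 (27520, -1040) (by decide +kernel)
             (CovZ.n2 (27480, -1080) (by decide +kernel)
              (CovZ.n2 (27480, -1040) (by decide +kernel)
               (CovZ.badM (by decide +kernel))
               (CovZ.leaf K2_ok TF_l7342 _))
              (CovZ.badM (by decide +kernel)))
             (CovZ.n1 (27480, -1000) (by decide +kernel)
              (CovZ.n2 (27520, -1000) (by decide +kernel)
               (CovZ.leaf K2_ok TF_l7343 _)
               (CovZ.leaf K2_ok TF_l7344 _))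
              (CovZ.leaf K2_ok TF_l7345 _)))
            (CovZ.n1 (27440, -1120) (by decide +kernel)
             (CovZ.n2 (27400, -1080) (by decide +kernel)
              (CovZ.n2 (27440, -1080) (by decide +kernel)
               (CovZ.badM (by decide +kernel))
               (CovZ.leaf K2_ok TF_l7347 _))
              (CovZ.badM (by decide +kernel)))
             (CovZ.n1 (27480, -1080) (by decide +kernel)
              (CovZ.badM (by decide +kernel))
              (CovZ.n1 (27440, -1080) (by decide +kernel)
               (CovZ.leaf K2_ok TF_l7349 _)
               (CovZ.badM (by decide +kernel))))))))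
         (CovZ.n1 (27360, -800) (by decide +kernel)
          (CovZ.n2 (27520, -800) (by decide +kernel)
           (CovZ.n2 (27440, -880) (by decide +kernel)
            (CovZ.leaf K2_ok TF_l7350 _)
            (CovZ.n1 (27520, -880) (by decide +kernel)
             (CovZ.leaf K2_ok TF_l7351 _)
             (CovZ.leaf K2_ok TF_l7352 _)))
           (CovZ.n1 (27440, -720) (by decide +kernel)
            (CovZ.leaf K2_ok TF_l7353 _)
            (CovZ.leaf K2_ok TF_l7354 _)))
          (CovZ.n1 (27360, -960) (by decide +kernel)
           (CovZ.n2 (27280, -880) (by decide +kernel)
            (CovZ.leaf K2_ok TF_l7355 _)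
            (CovZ.leaf K2_ok TF_l7356 _))
           (CovZ.leaf K2_ok TF_l7357 _))))
        (CovZ.n1 (27200, -1280) (by decide +kernel)
         (CovZ.n2 (27040, -1120) (by decide +kernel)
          (CovZ.n2 (27200, -1120) (by decide +kernel)
           (CovZ.n2 (27120, -1200) (by decide +kernel)
            (CovZ.n2 (27120, -1120) (by decide +kernel)
             (CovZ.leaf K2_ok TF_l7358 _)
             (CovZ.leaf K2_ok TF_l7359 _))
            (CovZ.n1 (27200, -1200) (by decide +kernel)
             (CovZ.n2 (27160, -1240) (by decide +kernel)
              (CovZ.leaf K2_ok TF_l7360 _)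
              (CovZ.n1 (27200, -1240) (by decide +kernel)
               (CovZ.leaf K2_ok TF_l7361 _)
               (CovZ.leaf K2_ok TF_l7362 _)))
             (CovZ.leaf K2_ok TF_l7363 _)))
           (CovZ.n1 (27120, -1040) (by decide +kernel)
            (CovZ.n2 (27200, -1040) (by decide +kernel)
             (CovZ.leaf K2_ok TF_l7364 _)
             (CovZ.leaf K2_ok TF_l7365 _))
            (CovZ.leaf K2_ok TF_l7366 _)))
          (CovZ.n1 (27040, -1280) (by decide +kernel)
           (CovZ.n2 (26960, -1200) (by decide +kernel)
            (CovZ.n2 (27040, -1200) (by decide +kernel)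
             (CovZ.leaf K2_ok TF_l7367 _)
             (CovZ.leaf K2_ok TF_l7368 _))
            (CovZ.leaf K2_ok TF_l7369 _))
           (CovZ.n1 (27120, -1200) (by decide +kernel)
            (CovZ.n2 (27120, -1280) (by decide +kernel)
             (CovZ.n2 (27080, -1240) (by decide +kernel)
              (CovZ.leaf K2_ok TF_l7370 _)
              (CovZ.leaf K2_ok TF_l7371 _))
             (CovZ.leaf K2_ok TF_l7372 _))
            (CovZ.n1 (27040, -1200) (by decide +kernel)
             (CovZ.leaf K2_ok TF_l7373 _)
             (CovZ.n1 (27080, -1240) (by decide +kernel)
              (CovZ.leaf K2_ok TF_l7374 _)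
              (CovZ.leaf K2_ok TF_l7375 _))))))
         (CovZ.n1 (27360, -1120) (by decide +kernel)
          (CovZ.badM (by decide +kernel))
          (CovZ.n1 (27200, -1120) (by decide +kernel)
           (CovZ.n2 (27280, -1040) (by decide +kernel)
            (CovZ.leaf K2_ok TF_l7383 _)
            (CovZ.leaf K2_ok TF_l7384 _))
           (CovZ.n1 (27280, -1200) (by decide +kernel)
            (CovZ.n2 (27200, -1200) (by decide +kernel)
             (CovZ.leaf K2_ok TF_l7385 _)
             (CovZ.badM (by decide +kernel)))
            (CovZ.n1 (27280, -1120) (by decide +kernel)
             (CovZ.badM (by decide +kernel))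
             (CovZ.n1 (27240, -1160) (by decide +kernel)
              (CovZ.leaf K2_ok TF_l7391 _)
              (CovZ.badM (by decide +kernel)))))))))

end Pool.Agent.TET
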