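import Pool.Agent.Helper38_TET.TF_M
import Pool.Agent.Helper38_TET.TF_L
import Pool.Agent.Helper38_TET.TF_8
import Pool.Agent.Helper38_TET.TF_17
import Pool.Agent.Helper38_TET.TF_18
import Pool.Agent.Helper38_TET.TF_19
import Pool.Agent.Helper38_TET.TF_20
import Pool.Agent.Helper38_TET.TF_69
import Pool.Agent.Helper38_TET.TF_70
import Pool.Agent.Helper38_TET.TF_77
import Pool.Agent.Helper38_TET.TF_78
import Pool.Agent.Helper38_TET.TF_79
import Pool.Agent.Helper38_TET.TF_80
import Pool.Agent.Helper38_TET.TF_107

/-!
# MP_c7c9bf_co: certificates, family TF
-/

set_option autoImplicit false
set_option maxRecDepth 100000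

namespace Pool.Agent.TET

theorem TF_u61 : CovZ TF_M (toL (selN TF_LN 206619350089002822888849550650834312307639850705)) [0, 7, 4, 3] (0, 2560) (-640, 2560) (-640, 1920) :=
    (CovZ.subM 1092829411814169960039297246842493724667417809 (by decide +kernel)
        (CovZ.n2 (-320, 2240) (by decide +kernel)
         (CovZ.n2 (-640, 2240) (by decide +kernel)
          (CovZ.n2 (-480, 2400) (by decide +kernel)
           (CovZ.n2 (-480, 2240) (by decide +kernel)
            (CovZ.subM 356817367694360705279988105394457483658921105 (by decide +kernel)
             (CovZ.n2 (-560, 2320) (by decide +kernel)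
              (CovZ.n2 (-480, 2320) (by decide +kernel)
               (CovZ.leaf K2_ok TF_l1291 _)
               (CovZ.leaf K2_ok TF_l1292 _))
              (CovZ.n1 (-560, 2240) (by decide +kernel)
               (CovZ.n2 (-600, 2280) (by decide +kernel)
                (CovZ.leaf K2_ok TF_l1293 _)
                (CovZ.leaf K2_ok TF_l1294 _))
               (CovZ.leaf K2_ok TF_l1295 _))))
            (CovZ.leaf K2_ok TF_l1296 _))
           (CovZ.subM 5444517870735015416613032083699563234513 (by decide +kernel)
            (CovZ.n1 (-640, 2400) (by decide +kernel)
             (CovZ.n2 (-560, 2480) (by decide +kernel)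
              (CovZ.n2 (-560, 2400) (by decide +kernel)
               (CovZ.n2 (-600, 2440) (by decide +kernel)
                (CovZ.leaf K2_ok TF_l1297 _)
                (CovZ.leaf K2_ok TF_l1298 _))
               (CovZ.leaf K2_ok TF_l1299 _))
              (CovZ.n1 (-640, 2480) (by decide +kernel)
               (CovZ.leaf K2_ok TF_l1300 _)
               (CovZ.n1 (-600, 2440) (by decide +kernel)
                (CovZ.badM (by decide +kernel))
                (CovZ.leaf K2_ok TF_l1302 _))))
             (CovZ.n1 (-560, 2320) (by decide +kernel)
              (CovZ.subM 1180591620717428080768 (by decide +kernel)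
               (CovZ.n2 (-640, 2320) (by decide +kernel)
                (CovZ.leaf K2_ok TF_l1303 _)
                (CovZ.n1 (-600, 2280) (by decide +kernel)
                 (CovZ.leaf K2_ok TF_l1304 _)
                 (CovZ.n1 (-600, 2320) (by decide +kernel)
                  (CovZ.leaf K2_ok TF_l1305 _)
                  (CovZ.leaf K2_ok TF_l1306 _)))))
              (CovZ.n1 (-560, 2400) (by decide +kernel)
               (CovZ.leaf K2_ok TF_l1307 _)
               (CovZ.n1 (-600, 2360) (by decide +kernel)
                (CovZ.leaf K2_ok TF_l1308 _)
                (CovZ.leaf K2_ok TF_l1309 _)))))))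
          (CovZ.n1 (-480, 2080) (by decide +kernel)
           (CovZ.subM 356811923176489970264572691400738575350760592 (by decide +kernel)
            (CovZ.n2 (-640, 2080) (by decide +kernel)
             (CovZ.n2 (-560, 2160) (by decide +kernel)
              (CovZ.n2 (-560, 2080) (by decide +kernel)
               (CovZ.n2 (-600, 2120) (by decide +kernel)
                (CovZ.leaf K2_ok TF_l1310 _)
                (CovZ.leaf K2_ok TF_l1311 _))
               (CovZ.leaf K2_ok TF_l1312 _))
              (CovZ.subM 356811923176489970264572672953994501506990208 (by decide +kernel)
               (CovZ.n1 (-640, 2160) (by decide +kernel)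
                (CovZ.leaf K2_ok TF_l1313 _)
                (CovZ.n1 (-600, 2120) (by decide +kernel)
                 (CovZ.leaf K2_ok TF_l1314 _)
                 (CovZ.n1 (-600, 2160) (by decide +kernel)
                  (CovZ.leaf K2_ok TF_l1315 _)
                  (CovZ.leaf K2_ok TF_l1316 _))))))
             (CovZ.n1 (-560, 2000) (by decide +kernel)
              (CovZ.subM 1180591620717411303552 (by decide +kernel)
               (CovZ.n2 (-640, 2000) (by decide +kernel)
                (CovZ.n2 (-600, 2040) (by decide +kernel)
                 (CovZ.n2 (-600, 2000) (by decide +kernel)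
                  (CovZ.n2 (-620, 2020) (by decide +kernel)
                   (CovZ.leaf K2_ok TF_l10393 _)
                   (CovZ.leaf K2_ok TF_l10394 _))
                  (CovZ.leaf K2_ok TF_l1317 _))
                 (CovZ.n1 (-640, 2040) (by decide +kernel)
                  (CovZ.leaf K2_ok TF_l10395 _)
                  (CovZ.n1 (-620, 2020) (by decide +kernel)
                   (CovZ.leaf K2_ok TF_l10396 _)
                   (CovZ.leaf K2_ok TF_l10397 _))))
                (CovZ.n1 (-600, 1960) (by decide +kernel)
                 (CovZ.n2 (-640, 1960) (by decide +kernel)
                  (CovZ.leaf K2_ok TF_l10398 _)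
                  (CovZ.n1 (-620, 1940) (by decide +kernel)
                   (CovZ.badM (by decide +kernel))
                   (CovZ.n1 (-620, 1960) (by decide +kernel)
                    (CovZ.leaf K2_ok TF_l10399 _)
                    (CovZ.badM (by decide +kernel)))))
                 (CovZ.n1 (-600, 2000) (by decide +kernel)
                  (CovZ.leaf K2_ok TF_l1318 _)
                  (CovZ.n1 (-620, 1980) (by decide +kernel)
                   (CovZ.n2 (-620, 2000) (by decide +kernel)
                    (CovZ.leaf K2_ok TF_l10400 _)
                    (CovZ.leaf K2_ok TF_l10401 _))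
                   (CovZ.leaf K2_ok TF_l10402 _))))))
              (CovZ.n1 (-560, 2080) (by decide +kernel)
               (CovZ.leaf K2_ok TF_l1319 _)
               (CovZ.n1 (-600, 2040) (by decide +kernel)
                (CovZ.n2 (-600, 2080) (by decide +kernel)
                 (CovZ.leaf K2_ok TF_l1320 _)
                 (CovZ.leaf K2_ok TF_l1321 _))
                (CovZ.leaf K2_ok TF_l1322 _))))))
           (CovZ.n1 (-480, 2240) (by decide +kernel)
            (CovZ.n2 (-400, 2160) (by decide +kernel)
             (CovZ.leaf K2_ok TF_l1323 _)
             (CovZ.leaf K2_ok TF_l1324 _))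
            (CovZ.subM 356817367694360705279988105394457483642143889 (by decide +kernel)
             (CovZ.n1 (-560, 2160) (by decide +kernel)
              (CovZ.n2 (-560, 2240) (by decide +kernel)
               (CovZ.leaf K2_ok TF_l1325 _)
               (CovZ.n1 (-600, 2200) (by decide +kernel)
                (CovZ.n2 (-600, 2240) (by decide +kernel)
                 (CovZ.leaf K2_ok TF_l1326 _)
                 (CovZ.leaf K2_ok TF_l1327 _))
                (CovZ.leaf K2_ok TF_l1328 _)))
              (CovZ.n1 (-480, 2160) (by decide +kernel)
               (CovZ.leaf K2_ok TF_l1329 _)
               (CovZ.leaf K2_ok TF_l1330 _)))))))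
         (CovZ.n1 (-320, 2560) (by decide +kernel)
          (CovZ.n2 (-160, 2400) (by decide +kernel)
           (CovZ.leaf K2_ok TF_l1331 _)
           (CovZ.leaf K2_ok TF_l1332 _))
          (CovZ.n1 (-480, 2400) (by decide +kernel)
           (CovZ.n2 (-480, 2560) (by decide +kernel)
            (CovZ.leaf K2_ok TF_l1333 _)
            (CovZ.subM 22393302002333118403598955204234593731347665 (by decide +kernel)
             (CovZ.n1 (-560, 2480) (by decide +kernel)
              (CovZ.n2 (-560, 2560) (by decide +kernel)
               (CovZ.leaf K2_ok TF_l1334 _)
               (CovZ.n1 (-600, 2520) (by decide +kernel)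
                (CovZ.leaf K2_ok TF_l1335 _)
                (CovZ.leaf K2_ok TF_l1336 _)))
              (CovZ.leaf K2_ok TF_l1337 _))))
           (CovZ.n1 (-320, 2400) (by decide +kernel)
            (CovZ.n2 (-400, 2320) (by decide +kernel)
             (CovZ.leaf K2_ok TF_l1338 _)
             (CovZ.leaf K2_ok TF_l1339 _))
            (CovZ.leaf K2_ok TF_l1340 _))))))

theorem TF_u62 : CovZ TF_M (toL (selN TF_LN 206619350089002822888849550650834312307639850705)) [0, 7, 4, 3] (-640, 2560) (-1280, 2560) (-640, 1920) :=
    (CovZ.subM 183044516589539356013375775810127152737807237312 (by decide +kernel)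
        (CovZ.n1 (-960, 2240) (by decide +kernel)
         (CovZ.subM 182687704666362866043111204317764778953711550464 (by decide +kernel)
          (CovZ.n2 (-960, 2560) (by decide +kernel)
           (CovZ.n2 (-800, 2400) (by decide +kernel)
            (CovZ.n2 (-960, 2400) (by decide +kernel)
             (CovZ.badM (by decide +kernel))
             (CovZ.n1 (-880, 2320) (by decide +kernel)
              (CovZ.n2 (-960, 2320) (by decide +kernel)
               (CovZ.badM (by decide +kernel))
               (CovZ.badM (by decide +kernel)))
              (CovZ.badM (by decide +kernel))))
            (CovZ.n1 (-800, 2560) (by decide +kernel)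
             (CovZ.badM (by decide +kernel))
             (CovZ.badM (by decide +kernel))))
           (CovZ.n1 (-1120, 2400) (by decide +kernel)
            (CovZ.badM (by decide +kernel))
            (CovZ.n1 (-960, 2400) (by decide +kernel)
             (CovZ.n2 (-1040, 2320) (by decide +kernel)
              (CovZ.badM (by decide +kernel))
              (CovZ.n1 (-960, 2320) (by decide +kernel)
               (CovZ.badM (by decide +kernel))
               (CovZ.badM (by decide +kernel))))
             (CovZ.badM (by decide +kernel))))))
         (CovZ.n1 (-640, 2240) (by decide +kernel)
          (CovZ.subM 356811923176489970264571492362373784095686784 (by decide +kernel)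
           (CovZ.n2 (-800, 2080) (by decide +kernel)
            (CovZ.badM (by decide +kernel))
            (CovZ.n1 (-640, 2080) (by decide +kernel)
             (CovZ.badM (by decide +kernel))
             (CovZ.n1 (-720, 2160) (by decide +kernel)
              (CovZ.n2 (-640, 2160) (by decide +kernel)
               (CovZ.n2 (-680, 2120) (by decide +kernel)
                (CovZ.n2 (-680, 2160) (by decide +kernel)
                 (CovZ.n2 (-660, 2140) (by decide +kernel)
                  (CovZ.badM (by decide +kernel))
                  (CovZ.n1 (-660, 2160) (by decide +kernel)
                   (CovZ.leaf K2_ok TF_l10403 _)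
                   (CovZ.badM (by decide +kernel))))
                 (CovZ.badM (by decide +kernel)))
                (CovZ.n1 (-640, 2120) (by decide +kernel)
                 (CovZ.n2 (-660, 2100) (by decide +kernel)
                  (CovZ.n2 (-660, 2120) (by decide +kernel)
                   (CovZ.leaf K2_ok TF_l10404 _)
                   (CovZ.leaf K2_ok TF_l15804 _))
                  (CovZ.n1 (-640, 2100) (by decide +kernel)
                   (CovZ.badM (by decide +kernel))
                   (CovZ.leaf K2_ok TF_l10405 _)))
                 (CovZ.n1 (-660, 2140) (by decide +kernel)
                  (CovZ.leaf K2_ok TF_l10406 _)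
                  (CovZ.leaf K2_ok TF_l10407 _))))
               (CovZ.n1 (-680, 2200) (by decide +kernel)
                (CovZ.n2 (-640, 2200) (by decide +kernel)
                 (CovZ.n2 (-660, 2180) (by decide +kernel)
                  (CovZ.n2 (-660, 2200) (by decide +kernel)
                   (CovZ.leaf K2_ok TF_l10408 _)
                   (CovZ.badM (by decide +kernel)))
                  (CovZ.leaf K2_ok TF_l10409 _))
                 (CovZ.n1 (-660, 2220) (by decide +kernel)
                  (CovZ.leaf K2_ok TF_l10410 _)
                  (CovZ.leaf K2_ok TF_l10411 _)))
                (CovZ.n1 (-680, 2160) (by decide +kernel)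
                 (CovZ.badM (by decide +kernel))
                 (CovZ.n1 (-660, 2180) (by decide +kernel)
                  (CovZ.leaf K2_ok TF_l10412 _)
                  (CovZ.badM (by decide +kernel))))))
              (CovZ.badM (by decide +kernel))))))
          (CovZ.subM 16777280 (by decide +kernel)
           (CovZ.n1 (-800, 2400) (by decide +kernel)
            (CovZ.n2 (-640, 2400) (by decide +kernel)
             (CovZ.n2 (-720, 2320) (by decide +kernel)
              (CovZ.n2 (-720, 2400) (by decide +kernel)
               (CovZ.n2 (-680, 2360) (by decide +kernel)
                (CovZ.n2 (-720, 2360) (by decide +kernel)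
                 (CovZ.n2 (-700, 2380) (by decide +kernel)
                  (CovZ.leaf K2_ok TF_l10413 _)
                  (CovZ.badM (by decide +kernel)))
                 (CovZ.badM (by decide +kernel)))
                (CovZ.n1 (-680, 2400) (by decide +kernel)
                 (CovZ.leaf K2_ok TF_l1341 _)
                 (CovZ.n1 (-700, 2380) (by decide +kernel)
                  (CovZ.badM (by decide +kernel))
                  (CovZ.leaf K2_ok TF_l10414 _))))
               (CovZ.n1 (-760, 2360) (by decide +kernel)
                (CovZ.badM (by decide +kernel))
                (CovZ.n1 (-720, 2360) (by decide +kernel)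
                 (CovZ.badM (by decide +kernel))
                 (CovZ.badM (by decide +kernel)))))
              (CovZ.n1 (-640, 2320) (by decide +kernel)
               (CovZ.badM (by decide +kernel))
               (CovZ.n1 (-680, 2360) (by decide +kernel)
                (CovZ.n2 (-640, 2360) (by decide +kernel)
                 (CovZ.badM (by decide +kernel))
                 (CovZ.leaf K2_ok TF_l1343 _))
                (CovZ.badM (by decide +kernel)))))
             (CovZ.n1 (-720, 2480) (by decide +kernel)
              (CovZ.n2 (-640, 2480) (by decide +kernel)
               (CovZ.badM (by decide +kernel))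
               (CovZ.n1 (-680, 2520) (by decide +kernel)
                (CovZ.leaf K2_ok TF_l1348 _)
                (CovZ.n1 (-680, 2480) (by decide +kernel)
                 (CovZ.badM (by decide +kernel))
                 (CovZ.leaf K2_ok TF_l1349 _))))
              (CovZ.badM (by decide +kernel))))
            (CovZ.n1 (-800, 2240) (by decide +kernel)
             (CovZ.n2 (-880, 2320) (by decide +kernel)
              (CovZ.n2 (-800, 2320) (by decide +kernel)
               (CovZ.badM (by decide +kernel))
               (CovZ.n1 (-840, 2360) (by decide +kernel)
                (CovZ.n2 (-800, 2360) (by decide +kernel)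
                 (CovZ.badM (by decide +kernel))
                 (CovZ.badM (by decide +kernel)))
                (CovZ.badM (by decide +kernel))))
              (CovZ.badM (by decide +kernel)))
             (CovZ.n1 (-720, 2320) (by decide +kernel)
              (CovZ.badM (by decide +kernel))
              (CovZ.n1 (-800, 2320) (by decide +kernel)
               (CovZ.n2 (-760, 2360) (by decide +kernel)
                (CovZ.badM (by decide +kernel))
                (CovZ.n1 (-800, 2360) (by decide +kernel)
                 (CovZ.badM (by decide +kernel))
                 (CovZ.badM (by decide +kernel))))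
               (CovZ.badM (by decide +kernel))))))))))

theorem TF_u63 : CovZ TF_M (toL (selN TF_LN 53179352462628934353024762636417864356384431620)) [0, 7, 4, 3] (1920, 640) (2240, 960) (1920, 1280) :=
    (CovZ.subM 52819664813003441398466548349146740642501755396 (by decide +kernel)
         (CovZ.n2 (1920, 960) (by decide +kernel)
          (CovZ.n2 (2080, 1120) (by decide +kernel)
           (CovZ.n2 (2080, 960) (by decide +kernel)
            (CovZ.subM 52808164630130981362145649763573535085883949056 (by decide +kernel)
             (CovZ.n2 (2000, 1040) (by decide +kernel)
              (CovZ.n2 (2080, 1040) (by decide +kernel)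
               (CovZ.n2 (2040, 1000) (by decide +kernel)
                (CovZ.badM (by decide +kernel))
                (CovZ.n1 (2080, 1000) (by decide +kernel)
                 (CovZ.n2 (2060, 980) (by decide +kernel)
                  (CovZ.n2 (2060, 1000) (by decide +kernel)
                   (CovZ.leaf K2_ok TF_l11531 _)
                   (CovZ.leaf K2_ok TF_l11532 _))
                  (CovZ.leaf K2_ok TF_l11533 _))
                 (CovZ.n1 (2060, 1020) (by decide +kernel)
                  (CovZ.n2 (2080, 1020) (by decide +kernel)
                   (CovZ.leaf K2_ok TF_l11534 _)
                   (CovZ.badM (by decide +kernel)))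
                  (CovZ.leaf K2_ok TF_l11535 _))))
               (CovZ.n1 (2040, 1080) (by decide +kernel)
                (CovZ.badM (by decide +kernel))
                (CovZ.badM (by decide +kernel))))
              (CovZ.n1 (2000, 960) (by decide +kernel)
               (CovZ.n2 (1960, 1000) (by decide +kernel)
                (CovZ.subM 39614090703162172362616602624 (by decide +kernel)
                 (CovZ.n2 (2000, 1000) (by decide +kernel)
                  (CovZ.n2 (1980, 980) (by decide +kernel)
                   (CovZ.n2 (1980, 1000) (by decide +kernel)
                    (CovZ.leaf K2_ok TF_l11536 _)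
                    (CovZ.leaf K2_ok TF_l11537 _))
                   (CovZ.leaf K2_ok TF_l11538 _))
                  (CovZ.badM (by decide +kernel))))
                (CovZ.n1 (1960, 960) (by decide +kernel)
                 (CovZ.n2 (1940, 980) (by decide +kernel)
                  (CovZ.leaf K2_ok TF_l11539 _)
                  (CovZ.leaf K2_ok TF_l11540 _))
                 (CovZ.leaf K2_ok TF_l11541 _)))
               (CovZ.n1 (2040, 1000) (by decide +kernel)
                (CovZ.n2 (2040, 960) (by decide +kernel)
                 (CovZ.n2 (2020, 980) (by decide +kernel)
                  (CovZ.leaf K2_ok TF_l11542 _)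
                  (CovZ.leaf K2_ok TF_l11543 _))
                 (CovZ.leaf K2_ok TF_l11544 _))
                (CovZ.subM 39614090703162172362616602624 (by decide +kernel)
                 (CovZ.n1 (2000, 1000) (by decide +kernel)
                  (CovZ.badM (by decide +kernel))
                  (CovZ.n1 (2020, 980) (by decide +kernel)
                   (CovZ.leaf K2_ok TF_l11545 _)
                   (CovZ.n1 (2020, 1000) (by decide +kernel)
                    (CovZ.leaf K2_ok TF_l11546 _)
                    (CovZ.leaf K2_ok TF_l11547 _)))))))))
            (CovZ.subM 51392417120287096923681502347135771792369647616 (by decide +kernel)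
             (CovZ.n1 (2160, 1040) (by decide +kernel)
              (CovZ.n2 (2160, 960) (by decide +kernel)
               (CovZ.n2 (2120, 1000) (by decide +kernel)
                (CovZ.n2 (2160, 1000) (by decide +kernel)
                 (CovZ.n2 (2140, 980) (by decide +kernel)
                  (CovZ.leaf K2_ok TF_l11548 _)
                  (CovZ.leaf K2_ok TF_l11549 _))
                 (CovZ.n1 (2140, 1020) (by decide +kernel)
                  (CovZ.leaf K2_ok TF_l11550 _)
                  (CovZ.leaf K2_ok TF_l11551 _)))
                (CovZ.n1 (2120, 960) (by decide +kernel)
                 (CovZ.n2 (2100, 980) (by decide +kernel)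
                  (CovZ.leaf K2_ok TF_l11552 _)
                  (CovZ.leaf K2_ok TF_l11553 _))
                 (CovZ.leaf K2_ok TF_l11554 _)))
               (CovZ.n1 (2200, 1000) (by decide +kernel)
                (CovZ.leaf K2_ok TF_l2605 _)
                (CovZ.leaf K2_ok TF_l2606 _)))
              (CovZ.n1 (2080, 1040) (by decide +kernel)
               (CovZ.subM 5709340581097115378631341646725979056105324544 (by decide +kernel)
                (CovZ.n2 (2120, 1080) (by decide +kernel)
                 (CovZ.n2 (2120, 1040) (by decide +kernel)
                  (CovZ.badM (by decide +kernel))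
                  (CovZ.n1 (2140, 1060) (by decide +kernel)
                   (CovZ.n2 (2140, 1040) (by decide +kernel)
                    (CovZ.badM (by decide +kernel))
                    (CovZ.leaf K2_ok TF_l11555 _))
                   (CovZ.badM (by decide +kernel))))
                 (CovZ.badM (by decide +kernel))))
               (CovZ.n1 (2120, 1000) (by decide +kernel)
                (CovZ.subM 5708990770823920693485800303369300525799571456 (by decide +kernel)
                 (CovZ.n2 (2080, 1000) (by decide +kernel)
                  (CovZ.n2 (2100, 1020) (by decide +kernel)
                   (CovZ.leaf K2_ok TF_l11556 _)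
                   (CovZ.leaf K2_ok TF_l11557 _))
                  (CovZ.n1 (2100, 980) (by decide +kernel)
                   (CovZ.leaf K2_ok TF_l11558 _)
                   (CovZ.n1 (2100, 1000) (by decide +kernel)
                    (CovZ.leaf K2_ok TF_l11559 _)
                    (CovZ.leaf K2_ok TF_l11560 _)))))
                (CovZ.n1 (2120, 1040) (by decide +kernel)
                 (CovZ.n2 (2140, 1020) (by decide +kernel)
                  (CovZ.leaf K2_ok TF_l11561 _)
                  (CovZ.n1 (2140, 1040) (by decide +kernel)
                   (CovZ.leaf K2_ok TF_l11562 _)
                   (CovZ.leaf K2_ok TF_l11563 _)))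
                 (CovZ.n1 (2100, 1020) (by decide +kernel)
                  (CovZ.badM (by decide +kernel))
                  (CovZ.n1 (2120, 1020) (by decide +kernel)
                   (CovZ.leaf K2_ok TF_l11564 _)
                   (CovZ.badM (by decide +kernel))))))))))
           (CovZ.subM 47099173859307060668640506648387438319847473152 (by decide +kernel)
            (CovZ.n1 (1920, 1120) (by decide +kernel)
             (CovZ.badM (by decide +kernel))
             (CovZ.n1 (2000, 1040) (by decide +kernel)
              (CovZ.n2 (1920, 1040) (by decide +kernel)
               (CovZ.badM (by decide +kernel))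
               (CovZ.n1 (1960, 1000) (by decide +kernel)
                (CovZ.n2 (1920, 1000) (by decide +kernel)
                 (CovZ.n2 (1940, 1020) (by decide +kernel)
                  (CovZ.n2 (1940, 1000) (by decide +kernel)
                   (CovZ.badM (by decide +kernel))
                   (CovZ.leaf K2_ok TF_l11565 _))
                  (CovZ.badM (by decide +kernel)))
                 (CovZ.n1 (1940, 980) (by decide +kernel)
                  (CovZ.leaf K2_ok TF_l11566 _)
                  (CovZ.n1 (1940, 1000) (by decide +kernel)
                   (CovZ.leaf K2_ok TF_l11567 _)
                   (CovZ.leaf K2_ok TF_l11568 _))))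
                (CovZ.badM (by decide +kernel))))
              (CovZ.n1 (2000, 1120) (by decide +kernel)
               (CovZ.n2 (2040, 1080) (by decide +kernel)
                (CovZ.badM (by decide +kernel))
                (CovZ.badM (by decide +kernel)))
               (CovZ.badM (by decide +kernel)))))))
          (CovZ.n1 (2080, 800) (by decide +kernel)
           (CovZ.n2 (1920, 800) (by decide +kernel)
            (CovZ.n2 (2000, 880) (by decide +kernel)
             (CovZ.n2 (2000, 800) (by decide +kernel)
              (CovZ.n2 (1960, 840) (by decide +kernel)
               (CovZ.leaf K2_ok TF_l2607 _)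
               (CovZ.leaf K2_ok TF_l2608 _))
              (CovZ.leaf K2_ok TF_l2609 _))
             (CovZ.n1 (1920, 880) (by decide +kernel)
              (CovZ.leaf K2_ok TF_l2610 _)
              (CovZ.n1 (1960, 840) (by decide +kernel)
               (CovZ.leaf K2_ok TF_l2611 _)
               (CovZ.leaf K2_ok TF_l2612 _))))
            (CovZ.n1 (2000, 720) (by decide +kernel)
             (CovZ.leaf K2_ok TF_l2613 _)
             (CovZ.n1 (2000, 800) (by decide +kernel)
              (CovZ.leaf K2_ok TF_l2614 _)
              (CovZ.leaf K2_ok TF_l2615 _))))
           (CovZ.n1 (2080, 960) (by decide +kernel)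
            (CovZ.n2 (2160, 880) (by decide +kernel)
             (CovZ.n2 (2080, 880) (by decide +kernel)
              (CovZ.leaf K2_ok TF_l2616 _)
              (CovZ.leaf K2_ok TF_l2617 _))
             (CovZ.n1 (2160, 960) (by decide +kernel)
              (CovZ.n2 (2200, 920) (by decide +kernel)
               (CovZ.leaf K2_ok TF_l2618 _)
               (CovZ.n1 (2200, 960) (by decide +kernel)
                (CovZ.leaf K2_ok TF_l2619 _)
                (CovZ.leaf K2_ok TF_l2620 _)))
              (CovZ.n1 (2120, 920) (by decide +kernel)
               (CovZ.n2 (2120, 960) (by decide +kernel)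
                (CovZ.leaf K2_ok TF_l2621 _)
                (CovZ.leaf K2_ok TF_l2622 _))
               (CovZ.n1 (2160, 920) (by decide +kernel)
                (CovZ.leaf K2_ok TF_l2623 _)
                (CovZ.leaf K2_ok TF_l2624 _)))))
            (CovZ.n1 (2000, 880) (by decide +kernel)
             (CovZ.subM 7136238463540265168261174825035777913366118912 (by decide +kernel)
              (CovZ.n2 (2000, 960) (by decide +kernel)
               (CovZ.n2 (2040, 920) (by decide +kernel)
                (CovZ.leaf K2_ok TF_l2625 _)
                (CovZ.n1 (2040, 960) (by decide +kernel)
                 (CovZ.leaf K2_ok TF_l2626 _)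
                 (CovZ.leaf K2_ok TF_l2627 _)))
               (CovZ.n1 (1960, 920) (by decide +kernel)
                (CovZ.n2 (1960, 960) (by decide +kernel)
                 (CovZ.n2 (1980, 940) (by decide +kernel)
                  (CovZ.leaf K2_ok TF_l11569 _)
                  (CovZ.leaf K2_ok TF_l11570 _))
                 (CovZ.n1 (1940, 940) (by decide +kernel)
                  (CovZ.leaf K2_ok TF_l11571 _)
                  (CovZ.leaf K2_ok TF_l11572 _)))
                (CovZ.n1 (2000, 920) (by decide +kernel)
                 (CovZ.leaf K2_ok TF_l2628 _)
                 (CovZ.n1 (1980, 940) (by decide +kernel)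
                  (CovZ.leaf K2_ok TF_l11573 _)
                  (CovZ.leaf K2_ok TF_l11574 _))))))
             (CovZ.n1 (2080, 880) (by decide +kernel)
              (CovZ.n2 (2040, 840) (by decide +kernel)
               (CovZ.leaf K2_ok TF_l2629 _)
               (CovZ.leaf K2_ok TF_l2630 _))
              (CovZ.n1 (2040, 920) (by decide +kernel)
               (CovZ.n2 (2080, 920) (by decide +kernel)
                (CovZ.leaf K2_ok TF_l2631 _)
                (CovZ.leaf K2_ok TF_l2632 _))
               (CovZ.leaf K2_ok TF_l2633 _))))))))

theorem TF_u64 : CovZ TF_M (toL (selN TF_LN 53179352462628934353024762636417864356384431620)) [0, 7, 4, 3] (2240, 960) (2560, 1280) (1920, 1280) :=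
    (CovZ.subM 51392417800851830765558429273884986655910281216 (by decide +kernel)
         (CovZ.n1 (2240, 1280) (by decide +kernel)
          (CovZ.n2 (2400, 1120) (by decide +kernel)
           (CovZ.n2 (2240, 1120) (by decide +kernel)
            (CovZ.subM 5720491634261114532079187548338969929041592320 (by decide +kernel)
             (CovZ.n2 (2320, 1200) (by decide +kernel)
              (CovZ.n2 (2320, 1120) (by decide +kernel)
               (CovZ.n2 (2280, 1160) (by decide +kernel)
                (CovZ.leaf K2_ok TF_l2634 _)
                (CovZ.n1 (2280, 1120) (by decide +kernel)
                 (CovZ.leaf K2_ok TF_l2635 _)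
                 (CovZ.leaf K2_ok TF_l2636 _)))
               (CovZ.leaf K2_ok TF_l2637 _))
              (CovZ.n1 (2240, 1200) (by decide +kernel)
               (CovZ.subM 350490838009696255781882563379307315462144 (by decide +kernel)
                (CovZ.n2 (2280, 1240) (by decide +kernel)
                 (CovZ.n2 (2280, 1200) (by decide +kernel)
                  (CovZ.n2 (2260, 1220) (by decide +kernel)
                   (CovZ.leaf K2_ok TF_l11575 _)
                   (CovZ.leaf K2_ok TF_l11576 _))
                  (CovZ.leaf K2_ok TF_l2638 _))
                 (CovZ.n1 (2240, 1240) (by decide +kernel)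
                  (CovZ.n2 (2260, 1260) (by decide +kernel)
                   (CovZ.leaf K2_ok TF_l11577 _)
                   (CovZ.badM (by decide +kernel)))
                  (CovZ.n1 (2260, 1220) (by decide +kernel)
                   (CovZ.leaf K2_ok TF_l11578 _)
                   (CovZ.n1 (2260, 1240) (by decide +kernel)
                    (CovZ.leaf K2_ok TF_l11579 _)
                    (CovZ.leaf K2_ok TF_l11580 _))))))
               (CovZ.n1 (2280, 1160) (by decide +kernel)
                (CovZ.leaf K2_ok TF_l11581 _)
                (CovZ.n1 (2280, 1200) (by decide +kernel)
                 (CovZ.leaf K2_ok TF_l2639 _)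
                 (CovZ.leaf K2_ok TF_l11582 _))))))
            (CovZ.n1 (2320, 1040) (by decide +kernel)
             (CovZ.n2 (2240, 1040) (by decide +kernel)
              (CovZ.leaf K2_ok TF_l2640 _)
              (CovZ.leaf K2_ok TF_l2641 _))
             (CovZ.n1 (2320, 1120) (by decide +kernel)
              (CovZ.leaf K2_ok TF_l2642 _)
              (CovZ.n1 (2280, 1080) (by decide +kernel)
               (CovZ.leaf K2_ok TF_l2643 _)
               (CovZ.leaf K2_ok TF_l2644 _)))))
           (CovZ.subM 5720491634261114532079187548338969929041592320 (by decide +kernel)
            (CovZ.n1 (2400, 1280) (by decide +kernel)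
             (CovZ.n2 (2480, 1200) (by decide +kernel)
              (CovZ.leaf K2_ok TF_l2645 _)
              (CovZ.n1 (2480, 1280) (by decide +kernel)
               (CovZ.leaf K2_ok TF_l2646 _)
               (CovZ.leaf K2_ok TF_l2647 _)))
             (CovZ.n1 (2320, 1200) (by decide +kernel)
              (CovZ.n2 (2320, 1280) (by decide +kernel)
               (CovZ.n2 (2360, 1240) (by decide +kernel)
                (CovZ.leaf K2_ok TF_l2648 _)
                (CovZ.leaf K2_ok TF_l2649 _))
               (CovZ.subM 350490838009696255781882563379307315462144 (by decide +kernel)
                (CovZ.n1 (2280, 1240) (by decide +kernel)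
                 (CovZ.n2 (2280, 1280) (by decide +kernel)
                  (CovZ.leaf K2_ok TF_l11583 _)
                  (CovZ.n1 (2260, 1260) (by decide +kernel)
                   (CovZ.n2 (2260, 1280) (by decide +kernel)
                    (CovZ.leaf K2_ok TF_l11584 _)
                    (CovZ.badM (by decide +kernel)))
                   (CovZ.leaf K2_ok TF_l11585 _)))
                 (CovZ.n1 (2320, 1240) (by decide +kernel)
                  (CovZ.leaf K2_ok TF_l2650 _)
                  (CovZ.leaf K2_ok TF_l11586 _)))))
              (CovZ.n1 (2400, 1200) (by decide +kernel)
               (CovZ.n2 (2360, 1160) (by decide +kernel)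
                (CovZ.leaf K2_ok TF_l2651 _)
                (CovZ.leaf K2_ok TF_l2652 _))
               (CovZ.n1 (2360, 1240) (by decide +kernel)
                (CovZ.leaf K2_ok TF_l2653 _)
                (CovZ.leaf K2_ok TF_l2654 _)))))))
          (CovZ.n1 (2080, 1120) (by decide +kernel)
           (CovZ.badM (by decide +kernel))
           (CovZ.n1 (2240, 1120) (by decide +kernel)
            (CovZ.n2 (2160, 1040) (by decide +kernel)
             (CovZ.subM 5709340581097115378631341646725979056105324544 (by decide +kernel)
              (CovZ.n2 (2160, 1120) (by decide +kernel)
               (CovZ.n2 (2200, 1080) (by decide +kernel)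
                (CovZ.n2 (2160, 1080) (by decide +kernel)
                 (CovZ.n2 (2180, 1100) (by decide +kernel)
                  (CovZ.leaf K2_ok TF_l11587 _)
                  (CovZ.badM (by decide +kernel)))
                 (CovZ.n1 (2180, 1060) (by decide +kernel)
                  (CovZ.leaf K2_ok TF_l11588 _)
                  (CovZ.leaf K2_ok TF_l11589 _)))
                (CovZ.n1 (2200, 1120) (by decide +kernel)
                 (CovZ.leaf K2_ok TF_l11590 _)
                 (CovZ.n1 (2180, 1100) (by decide +kernel)
                  (CovZ.n2 (2180, 1120) (by decide +kernel)
                   (CovZ.leaf K2_ok TF_l11591 _)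
                   (CovZ.badM (by decide +kernel)))
                  (CovZ.leaf K2_ok TF_l11592 _))))
               (CovZ.n1 (2120, 1080) (by decide +kernel)
                (CovZ.badM (by decide +kernel))
                (CovZ.n1 (2160, 1080) (by decide +kernel)
                 (CovZ.n2 (2140, 1060) (by decide +kernel)
                  (CovZ.badM (by decide +kernel))
                  (CovZ.n1 (2160, 1060) (by decide +kernel)
                   (CovZ.leaf K2_ok TF_l11593 _)
                   (CovZ.leaf K2_ok TF_l11594 _)))
                 (CovZ.badM (by decide +kernel))))))
             (CovZ.n1 (2240, 1040) (by decide +kernel)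
              (CovZ.n2 (2200, 1000) (by decide +kernel)
               (CovZ.n2 (2200, 1040) (by decide +kernel)
                (CovZ.leaf K2_ok TF_l2655 _)
                (CovZ.leaf K2_ok TF_l2656 _))
               (CovZ.leaf K2_ok TF_l2657 _))
              (CovZ.subM 5720490953696380729816351323454889601567555584 (by decide +kernel)
               (CovZ.n1 (2200, 1080) (by decide +kernel)
                (CovZ.n2 (2240, 1080) (by decide +kernel)
                 (CovZ.leaf K2_ok TF_l2658 _)
                 (CovZ.leaf K2_ok TF_l2659 _))
                (CovZ.n1 (2200, 1040) (by decide +kernel)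
                 (CovZ.n2 (2180, 1060) (by decide +kernel)
                  (CovZ.leaf K2_ok TF_l11595 _)
                  (CovZ.leaf K2_ok TF_l11596 _))
                 (CovZ.leaf K2_ok TF_l2660 _))))))
            (CovZ.subM 350490838009696275124695677213374110760960 (by decide +kernel)
             (CovZ.n1 (2160, 1200) (by decide +kernel)
              (CovZ.n2 (2240, 1200) (by decide +kernel)
               (CovZ.n2 (2200, 1160) (by decide +kernel)
                (CovZ.subM 2041694201525630780780283673387661787136 (by decide +kernel)
                 (CovZ.n2 (2200, 1200) (by decide +kernel)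
                  (CovZ.n2 (2220, 1180) (by decide +kernel)
                   (CovZ.badM (by decide +kernel))
                   (CovZ.n1 (2220, 1200) (by decide +kernel)
                    (CovZ.leaf K2_ok TF_l11597 _)
                    (CovZ.badM (by decide +kernel))))
                  (CovZ.badM (by decide +kernel))))
                (CovZ.n1 (2240, 1160) (by decide +kernel)
                 (CovZ.n2 (2220, 1140) (by decide +kernel)
                  (CovZ.leaf K2_ok TF_l11598 _)
                  (CovZ.leaf K2_ok TF_l11599 _))
                 (CovZ.n1 (2220, 1180) (by decide +kernel)
                  (CovZ.leaf K2_ok TF_l11600 _)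
                  (CovZ.leaf K2_ok TF_l11601 _))))
               (CovZ.subM 2041694201525630780780283673387661787136 (by decide +kernel)
                (CovZ.n1 (2200, 1240) (by decide +kernel)
                 (CovZ.n2 (2240, 1240) (by decide +kernel)
                  (CovZ.n2 (2220, 1220) (by decide +kernel)
                   (CovZ.badM (by decide +kernel))
                   (CovZ.n1 (2240, 1220) (by decide +kernel)
                    (CovZ.leaf K2_ok TF_l11602 _)
                    (CovZ.badM (by decide +kernel))))
                  (CovZ.badM (by decide +kernel)))
                 (CovZ.n1 (2200, 1200) (by decide +kernel)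
                  (CovZ.badM (by decide +kernel))
                  (CovZ.n1 (2220, 1220) (by decide +kernel)
                   (CovZ.n2 (2220, 1200) (by decide +kernel)
                    (CovZ.badM (by decide +kernel))
                    (CovZ.leaf K2_ok TF_l11603 _))
                   (CovZ.badM (by decide +kernel)))))))
              (CovZ.n1 (2160, 1120) (by decide +kernel)
               (CovZ.badM (by decide +kernel))
               (CovZ.n1 (2200, 1160) (by decide +kernel)
                (CovZ.n2 (2200, 1120) (by decide +kernel)
                 (CovZ.subM 1361129467683753853853534458524125364224 (by decide +kernel)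
                  (CovZ.n2 (2180, 1140) (by decide +kernel)
                   (CovZ.n2 (2200, 1140) (by decide +kernel)
                    (CovZ.leaf K2_ok TF_l11604 _)
                    (CovZ.badM (by decide +kernel)))
                   (CovZ.n1 (2180, 1120) (by decide +kernel)
                    (CovZ.badM (by decide +kernel))
                    (CovZ.leaf K2_ok TF_l11605 _))))
                 (CovZ.leaf K2_ok TF_l11606 _))
                (CovZ.badM (by decide +kernel))))))))))

theorem TF_u65 : CovZ TF_M (toL (selN TF_LN 7136586912683992209276775614092113573375508996)) [0, 7, 4, 3] (1600, 960) (1920, 640) (1920, 1280) :=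
    (CovZ.n1 (1920, 960) (by decide +kernel)
          (CovZ.n2 (1760, 800) (by decide +kernel)
           (CovZ.n2 (1760, 960) (by decide +kernel)
            (CovZ.n2 (1840, 880) (by decide +kernel)
             (CovZ.n2 (1760, 880) (by decide +kernel)
              (CovZ.n2 (1800, 920) (by decide +kernel)
               (CovZ.leaf K2_ok TF_l2661 _)
               (CovZ.leaf K2_ok TF_l2662 _))
              (CovZ.n1 (1800, 840) (by decide +kernel)
               (CovZ.leaf K2_ok TF_l2663 _)
               (CovZ.n1 (1800, 880) (by decide +kernel)
                (CovZ.leaf K2_ok TF_l2664 _)
                (CovZ.leaf K2_ok TF_l2665 _))))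
             (CovZ.n1 (1840, 960) (by decide +kernel)
              (CovZ.subM 1427247692705959920672395643358565052367110656 (by decide +kernel)
               (CovZ.n2 (1880, 920) (by decide +kernel)
                (CovZ.leaf K2_ok TF_l2666 _)
                (CovZ.n1 (1880, 960) (by decide +kernel)
                 (CovZ.n2 (1900, 940) (by decide +kernel)
                  (CovZ.leaf K2_ok TF_l11609 _)
                  (CovZ.leaf K2_ok TF_l11610 _))
                 (CovZ.n1 (1860, 940) (by decide +kernel)
                  (CovZ.leaf K2_ok TF_l11611 _)
                  (CovZ.leaf K2_ok TF_l11612 _)))))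
              (CovZ.subM 39614109673909105100356452864 (by decide +kernel)
               (CovZ.n1 (1800, 920) (by decide +kernel)
                (CovZ.n2 (1800, 960) (by decide +kernel)
                 (CovZ.n2 (1820, 940) (by decide +kernel)
                  (CovZ.leaf K2_ok TF_l11613 _)
                  (CovZ.leaf K2_ok TF_l11614 _))
                 (CovZ.n1 (1780, 940) (by decide +kernel)
                  (CovZ.leaf K2_ok TF_l11615 _)
                  (CovZ.leaf K2_ok TF_l11616 _)))
                (CovZ.n1 (1840, 920) (by decide +kernel)
                 (CovZ.leaf K2_ok TF_l2667 _)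
                 (CovZ.n1 (1820, 940) (by decide +kernel)
                  (CovZ.leaf K2_ok TF_l11617 _)
                  (CovZ.leaf K2_ok TF_l11618 _)))))))
            (CovZ.n1 (1680, 880) (by decide +kernel)
             (CovZ.subM 39614109600122128805518246404 (by decide +kernel)
              (CovZ.n2 (1680, 960) (by decide +kernel)
               (CovZ.n2 (1720, 920) (by decide +kernel)
                (CovZ.leaf K2_ok TF_l2668 _)
                (CovZ.n1 (1720, 960) (by decide +kernel)
                 (CovZ.n2 (1740, 940) (by decide +kernel)
                  (CovZ.leaf K2_ok TF_l11619 _)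
                  (CovZ.n1 (1740, 960) (by decide +kernel)
                   (CovZ.leaf K2_ok TF_l11620 _)
                   (CovZ.leaf K2_ok TF_l11621 _)))
                 (CovZ.n1 (1700, 940) (by decide +kernel)
                  (CovZ.n2 (1700, 960) (by decide +kernel)
                   (CovZ.leaf K2_ok TF_l11622 _)
                   (CovZ.leaf K2_ok TF_l11623 _))
                  (CovZ.leaf K2_ok TF_l11624 _))))
               (CovZ.n1 (1640, 920) (by decide +kernel)
                (CovZ.subM 18897104037546117169664 (by decide +kernel)
                 (CovZ.n2 (1640, 960) (by decide +kernel)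
                  (CovZ.n2 (1660, 940) (by decide +kernel)
                   (CovZ.leaf K2_ok TF_l11625 _)
                   (CovZ.n1 (1660, 960) (by decide +kernel)
                    (CovZ.leaf K2_ok TF_l11626 _)
                    (CovZ.leaf K2_ok TF_l11627 _)))
                  (CovZ.n1 (1620, 940) (by decide +kernel)
                   (CovZ.leaf K2_ok TF_l11628 _)
                   (CovZ.leaf K2_ok TF_l11629 _))))
                (CovZ.n1 (1680, 920) (by decide +kernel)
                 (CovZ.leaf K2_ok TF_l2669 _)
                 (CovZ.n1 (1660, 940) (by decide +kernel)
                  (CovZ.leaf K2_ok TF_l11630 _)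
                  (CovZ.leaf K2_ok TF_l11631 _))))))
             (CovZ.n1 (1760, 880) (by decide +kernel)
              (CovZ.n2 (1720, 840) (by decide +kernel)
               (CovZ.n2 (1720, 880) (by decide +kernel)
                (CovZ.leaf K2_ok TF_l2670 _)
                (CovZ.leaf K2_ok TF_l2671 _))
               (CovZ.leaf K2_ok TF_l2672 _))
              (CovZ.n1 (1720, 920) (by decide +kernel)
               (CovZ.n2 (1760, 920) (by decide +kernel)
                (CovZ.leaf K2_ok TF_l2673 _)
                (CovZ.n1 (1740, 940) (by decide +kernel)
                 (CovZ.leaf K2_ok TF_l11632 _)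
                 (CovZ.leaf K2_ok TF_l11633 _)))
               (CovZ.leaf K2_ok TF_l2674 _)))))
           (CovZ.n1 (1920, 800) (by decide +kernel)
            (CovZ.n2 (1840, 720) (by decide +kernel)
             (CovZ.n2 (1840, 800) (by decide +kernel)
              (CovZ.leaf K2_ok TF_l2675 _)
              (CovZ.leaf K2_ok TF_l2676 _))
             (CovZ.n1 (1920, 720) (by decide +kernel)
              (CovZ.leaf K2_ok TF_l2677 _)
              (CovZ.leaf K2_ok TF_l2678 _)))
            (CovZ.n1 (1840, 880) (by decide +kernel)
             (CovZ.n2 (1920, 880) (by decide +kernel)
              (CovZ.n2 (1880, 840) (by decide +kernel)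
               (CovZ.n2 (1880, 880) (by decide +kernel)
                (CovZ.leaf K2_ok TF_l2679 _)
                (CovZ.leaf K2_ok TF_l2680 _))
               (CovZ.leaf K2_ok TF_l2681 _))
              (CovZ.n1 (1880, 920) (by decide +kernel)
               (CovZ.n2 (1920, 920) (by decide +kernel)
                (CovZ.leaf K2_ok TF_l2682 _)
                (CovZ.n1 (1900, 940) (by decide +kernel)
                 (CovZ.leaf K2_ok TF_l11634 _)
                 (CovZ.leaf K2_ok TF_l11635 _)))
               (CovZ.leaf K2_ok TF_l2683 _)))
             (CovZ.n1 (1840, 800) (by decide +kernel)
              (CovZ.n2 (1800, 840) (by decide +kernel)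
               (CovZ.leaf K2_ok TF_l2684 _)
               (CovZ.leaf K2_ok TF_l2685 _))
              (CovZ.leaf K2_ok TF_l2686 _)))))
          (CovZ.subM 1427247692716344474775355699790570250437787648 (by decide +kernel)
           (CovZ.n1 (1760, 1120) (by decide +kernel)
            (CovZ.n2 (1920, 1120) (by decide +kernel)
             (CovZ.n2 (1840, 1040) (by decide +kernel)
              (CovZ.n2 (1840, 1120) (by decide +kernel)
               (CovZ.n2 (1880, 1080) (by decide +kernel)
                (CovZ.badM (by decide +kernel))
                (CovZ.badM (by decide +kernel)))
               (CovZ.badM (by decide +kernel)))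
              (CovZ.n1 (1920, 1040) (by decide +kernel)
               (CovZ.n2 (1880, 1000) (by decide +kernel)
                (CovZ.subM 1427247692705959881058285969449495136382746624 (by decide +kernel)
                 (CovZ.n2 (1880, 1040) (by decide +kernel)
                  (CovZ.n2 (1900, 1020) (by decide +kernel)
                   (CovZ.n2 (1880, 1020) (by decide +kernel)
                    (CovZ.badM (by decide +kernel))
                    (CovZ.leaf K2_ok TF_l15810 _))
                   (CovZ.badM (by decide +kernel)))
                  (CovZ.n1 (1860, 1020) (by decide +kernel)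
                   (CovZ.badM (by decide +kernel))
                   (CovZ.n1 (1880, 1020) (by decide +kernel)
                    (CovZ.leaf K2_ok TF_l15811 _)
                    (CovZ.badM (by decide +kernel))))))
                (CovZ.n1 (1920, 1000) (by decide +kernel)
                 (CovZ.n2 (1900, 980) (by decide +kernel)
                  (CovZ.n2 (1900, 1000) (by decide +kernel)
                   (CovZ.leaf K2_ok TF_l11636 _)
                   (CovZ.leaf K2_ok TF_l11637 _))
                  (CovZ.leaf K2_ok TF_l11638 _))
                 (CovZ.n1 (1900, 1020) (by decide +kernel)
                  (CovZ.badM (by decide +kernel))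
                  (CovZ.n1 (1900, 1000) (by decide +kernel)
                   (CovZ.leaf K2_ok TF_l15812 _)
                   (CovZ.badM (by decide +kernel))))))
               (CovZ.n1 (1880, 1080) (by decide +kernel)
                (CovZ.badM (by decide +kernel))
                (CovZ.badM (by decide +kernel)))))
             (CovZ.n1 (1840, 1200) (by decide +kernel)
              (CovZ.badM (by decide +kernel))
              (CovZ.n1 (1840, 1120) (by decide +kernel)
               (CovZ.badM (by decide +kernel))
               (CovZ.badM (by decide +kernel)))))
            (CovZ.n1 (1760, 960) (by decide +kernel)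
             (CovZ.subM 144116287587614720 (by decide +kernel)
              (CovZ.n2 (1680, 1040) (by decide +kernel)
               (CovZ.n2 (1760, 1040) (by decide +kernel)
                (CovZ.n2 (1720, 1000) (by decide +kernel)
                 (CovZ.badM (by decide +kernel))
                 (CovZ.n1 (1760, 1000) (by decide +kernel)
                  (CovZ.n2 (1740, 980) (by decide +kernel)
                   (CovZ.badM (by decide +kernel))
                   (CovZ.n1 (1760, 980) (by decide +kernel)
                    (CovZ.leaf K2_ok TF_l11639 _)
                    (CovZ.badM (by decide +kernel))))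
                  (CovZ.badM (by decide +kernel))))
                (CovZ.badM (by decide +kernel)))
               (CovZ.n1 (1680, 960) (by decide +kernel)
                (CovZ.n2 (1640, 1000) (by decide +kernel)
                 (CovZ.n2 (1680, 1000) (by decide +kernel)
                  (CovZ.n2 (1660, 980) (by decide +kernel)
                   (CovZ.badM (by decide +kernel))
                   (CovZ.n1 (1680, 980) (by decide +kernel)
                    (CovZ.leaf K2_ok TF_l11640 _)
                    (CovZ.badM (by decide +kernel))))
                  (CovZ.badM (by decide +kernel)))
                 (CovZ.n1 (1640, 960) (by decide +kernel)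
                  (CovZ.n2 (1620, 980) (by decide +kernel)
                   (CovZ.n2 (1640, 980) (by decide +kernel)
                    (CovZ.leaf K2_ok TF_l11641 _)
                    (CovZ.badM (by decide +kernel)))
                   (CovZ.leaf K2_ok TF_l11642 _))
                  (CovZ.n1 (1660, 980) (by decide +kernel)
                   (CovZ.leaf K2_ok TF_l11643 _)
                   (CovZ.leaf K2_ok TF_l11644 _))))
                (CovZ.n1 (1720, 1000) (by decide +kernel)
                 (CovZ.n2 (1720, 960) (by decide +kernel)
                  (CovZ.n2 (1700, 980) (by decide +kernel)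
                   (CovZ.n2 (1720, 980) (by decide +kernel)
                    (CovZ.leaf K2_ok TF_l11645 _)
                    (CovZ.badM (by decide +kernel)))
                   (CovZ.leaf K2_ok TF_l11646 _))
                  (CovZ.n1 (1740, 980) (by decide +kernel)
                   (CovZ.leaf K2_ok TF_l11647 _)
                   (CovZ.leaf K2_ok TF_l11648 _)))
                 (CovZ.n1 (1680, 1000) (by decide +kernel)
                  (CovZ.badM (by decide +kernel))
                  (CovZ.n1 (1700, 980) (by decide +kernel)
                   (CovZ.leaf K2_ok TF_l11649 _)
                   (CovZ.badM (by decide +kernel))))))))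
             (CovZ.n1 (1840, 1040) (by decide +kernel)
              (CovZ.n2 (1840, 960) (by decide +kernel)
               (CovZ.n2 (1800, 1000) (by decide +kernel)
                (CovZ.n2 (1840, 1000) (by decide +kernel)
                 (CovZ.n2 (1820, 980) (by decide +kernel)
                  (CovZ.badM (by decide +kernel))
                  (CovZ.n1 (1840, 980) (by decide +kernel)
                   (CovZ.leaf K2_ok TF_l11650 _)
                   (CovZ.leaf K2_ok TF_l11651 _)))
                 (CovZ.badM (by decide +kernel)))
                (CovZ.n1 (1800, 960) (by decide +kernel)
                 (CovZ.n2 (1780, 980) (by decide +kernel)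
                  (CovZ.n2 (1800, 980) (by decide +kernel)
                   (CovZ.leaf K2_ok TF_l11652 _)
                   (CovZ.badM (by decide +kernel)))
                  (CovZ.leaf K2_ok TF_l11653 _))
                 (CovZ.leaf K2_ok TF_l11654 _)))
               (CovZ.n1 (1880, 1000) (by decide +kernel)
                (CovZ.n2 (1880, 960) (by decide +kernel)
                 (CovZ.n2 (1860, 980) (by decide +kernel)
                  (CovZ.n2 (1880, 980) (by decide +kernel)
                   (CovZ.leaf K2_ok TF_l11655 _)
                   (CovZ.badM (by decide +kernel)))
                  (CovZ.leaf K2_ok TF_l11656 _))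
                 (CovZ.leaf K2_ok TF_l11657 _))
                (CovZ.n1 (1840, 1000) (by decide +kernel)
                 (CovZ.badM (by decide +kernel))
                 (CovZ.n1 (1860, 980) (by decide +kernel)
                  (CovZ.leaf K2_ok TF_l11658 _)
                  (CovZ.badM (by decide +kernel))))))
              (CovZ.subM 144116287587614720 (by decide +kernel)
               (CovZ.n1 (1760, 1040) (by decide +kernel)
                (CovZ.badM (by decide +kernel))
                (CovZ.n1 (1800, 1000) (by decide +kernel)
                 (CovZ.n2 (1760, 1000) (by decide +kernel)
                  (CovZ.badM (by decide +kernel))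
                  (CovZ.n1 (1780, 980) (by decide +kernel)
                   (CovZ.leaf K2_ok TF_l11659 _)
                   (CovZ.badM (by decide +kernel))))
                 (CovZ.badM (by decide +kernel))))))))))

theorem TF_u66 : CovZ TF_M (toL (selN TF_LN 633825300151008188895770789888)) [0, 7, 4, 3] (2560, 2560) (2240, 2240) (2560, 1920) :=
    (CovZ.n2 (2560, 2240) (by decide +kernel)
           (CovZ.n2 (2400, 2080) (by decide +kernel)
            (CovZ.n2 (2400, 2240) (by decide +kernel)
             (CovZ.n2 (2480, 2160) (by decide +kernel)
              (CovZ.n2 (2400, 2160) (by decide +kernel)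
               (CovZ.n2 (2440, 2200) (by decide +kernel)
                (CovZ.n2 (2440, 2160) (by decide +kernel)
                 (CovZ.n2 (2420, 2180) (by decide +kernel)
                  (CovZ.leaf K2_ok TF_l11687 _)
                  (CovZ.leaf K2_ok TF_l11688 _))
                 (CovZ.leaf K2_ok TF_l2784 _))
                (CovZ.badM (by decide +kernel)))
               (CovZ.n1 (2440, 2120) (by decide +kernel)
                (CovZ.n2 (2400, 2120) (by decide +kernel)
                 (CovZ.n2 (2420, 2140) (by decide +kernel)
                  (CovZ.leaf K2_ok TF_l11689 _)
                  (CovZ.leaf K2_ok TF_l11690 _))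
                 (CovZ.n1 (2420, 2100) (by decide +kernel)
                  (CovZ.leaf K2_ok TF_l11691 _)
                  (CovZ.leaf K2_ok TF_l11692 _)))
                (CovZ.n1 (2440, 2160) (by decide +kernel)
                 (CovZ.leaf K2_ok TF_l2785 _)
                 (CovZ.n1 (2420, 2140) (by decide +kernel)
                  (CovZ.leaf K2_ok TF_l11693 _)
                  (CovZ.leaf K2_ok TF_l11694 _)))))
              (CovZ.n1 (2480, 2240) (by decide +kernel)
               (CovZ.n2 (2520, 2200) (by decide +kernel)
                (CovZ.leaf K2_ok TF_l2786 _)
                (CovZ.leaf K2_ok TF_l2787 _))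
               (CovZ.n1 (2440, 2200) (by decide +kernel)
                (CovZ.badM (by decide +kernel))
                (CovZ.leaf K2_ok TF_l2789 _))))
             (CovZ.n1 (2320, 2160) (by decide +kernel)
              (CovZ.badM (by decide +kernel))
              (CovZ.n1 (2400, 2160) (by decide +kernel)
               (CovZ.n2 (2360, 2120) (by decide +kernel)
                (CovZ.badM (by decide +kernel))
                (CovZ.n1 (2400, 2120) (by decide +kernel)
                 (CovZ.n2 (2380, 2100) (by decide +kernel)
                  (CovZ.n2 (2380, 2120) (by decide +kernel)
                   (CovZ.leaf K2_ok TF_l11695 _)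
                   (CovZ.badM (by decide +kernel)))
                  (CovZ.n1 (2400, 2100) (by decide +kernel)
                   (CovZ.leaf K2_ok TF_l11696 _)
                   (CovZ.leaf K2_ok TF_l11697 _)))
                 (CovZ.n1 (2380, 2140) (by decide +kernel)
                  (CovZ.n2 (2400, 2140) (by decide +kernel)
                   (CovZ.leaf K2_ok TF_l11698 _)
                   (CovZ.leaf K2_ok TF_l11699 _))
                  (CovZ.n1 (2380, 2120) (by decide +kernel)
                   (CovZ.badM (by decide +kernel))
                   (CovZ.leaf K2_ok TF_l11700 _)))))
               (CovZ.badM (by decide +kernel)))))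
            (CovZ.n1 (2560, 2080) (by decide +kernel)
             (CovZ.n2 (2480, 2000) (by decide +kernel)
              (CovZ.n2 (2480, 2080) (by decide +kernel)
               (CovZ.n2 (2520, 2040) (by decide +kernel)
                (CovZ.leaf K2_ok TF_l2790 _)
                (CovZ.leaf K2_ok TF_l2791 _))
               (CovZ.n1 (2440, 2040) (by decide +kernel)
                (CovZ.n2 (2440, 2080) (by decide +kernel)
                 (CovZ.leaf K2_ok TF_l2792 _)
                 (CovZ.n1 (2420, 2060) (by decide +kernel)
                  (CovZ.leaf K2_ok TF_l11701 _)
                  (CovZ.leaf K2_ok TF_l11702 _)))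
                (CovZ.n1 (2480, 2040) (by decide +kernel)
                 (CovZ.leaf K2_ok TF_l2793 _)
                 (CovZ.leaf K2_ok TF_l2794 _))))
              (CovZ.n1 (2560, 2000) (by decide +kernel)
               (CovZ.leaf K2_ok TF_l2795 _)
               (CovZ.n1 (2520, 2040) (by decide +kernel)
                (CovZ.leaf K2_ok TF_l2796 _)
                (CovZ.leaf K2_ok TF_l2797 _))))
             (CovZ.n1 (2480, 2160) (by decide +kernel)
              (CovZ.n2 (2560, 2160) (by decide +kernel)
               (CovZ.leaf K2_ok TF_l2798 _)
               (CovZ.n1 (2520, 2200) (by decide +kernel)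
                (CovZ.leaf K2_ok TF_l2799 _)
                (CovZ.leaf K2_ok TF_l2800 _)))
              (CovZ.n1 (2480, 2080) (by decide +kernel)
               (CovZ.n2 (2440, 2120) (by decide +kernel)
                (CovZ.leaf K2_ok TF_l2801 _)
                (CovZ.n1 (2440, 2080) (by decide +kernel)
                 (CovZ.n2 (2420, 2100) (by decide +kernel)
                  (CovZ.leaf K2_ok TF_l11703 _)
                  (CovZ.leaf K2_ok TF_l11704 _))
                 (CovZ.leaf K2_ok TF_l2802 _)))
               (CovZ.leaf K2_ok TF_l2803 _)))))
           (CovZ.n1 (2400, 2400) (by decide +kernel)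
            (CovZ.n2 (2560, 2400) (by decide +kernel)
             (CovZ.n2 (2480, 2320) (by decide +kernel)
              (CovZ.n2 (2480, 2400) (by decide +kernel)
               (CovZ.n2 (2520, 2360) (by decide +kernel)
                (CovZ.leaf K2_ok TF_l2804 _)
                (CovZ.leaf K2_ok TF_l2805 _))
               (CovZ.n1 (2440, 2360) (by decide +kernel)
                (CovZ.n2 (2440, 2400) (by decide +kernel)
                 (CovZ.leaf K2_ok TF_l2806 _)
                 (CovZ.n1 (2420, 2380) (by decide +kernel)
                  (CovZ.leaf K2_ok TF_l11705 _)
                  (CovZ.leaf K2_ok TF_l11706 _)))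
                (CovZ.leaf K2_ok TF_l2807 _)))
              (CovZ.n1 (2560, 2320) (by decide +kernel)
               (CovZ.leaf K2_ok TF_l2808 _)
               (CovZ.n1 (2520, 2360) (by decide +kernel)
                (CovZ.leaf K2_ok TF_l2809 _)
                (CovZ.badM (by decide +kernel)))))
             (CovZ.n1 (2480, 2480) (by decide +kernel)
              (CovZ.n2 (2560, 2480) (by decide +kernel)
               (CovZ.leaf K2_ok TF_l2811 _)
               (CovZ.leaf K2_ok TF_l2812 _))
              (CovZ.n1 (2480, 2400) (by decide +kernel)
               (CovZ.n2 (2440, 2440) (by decide +kernel)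
                (CovZ.leaf K2_ok TF_l2813 _)
                (CovZ.n1 (2440, 2400) (by decide +kernel)
                 (CovZ.n2 (2420, 2420) (by decide +kernel)
                  (CovZ.leaf K2_ok TF_l11707 _)
                  (CovZ.leaf K2_ok TF_l11708 _))
                 (CovZ.leaf K2_ok TF_l2814 _)))
               (CovZ.leaf K2_ok TF_l2815 _))))
            (CovZ.n1 (2400, 2240) (by decide +kernel)
             (CovZ.badM (by decide +kernel))
             (CovZ.n1 (2480, 2320) (by decide +kernel)
              (CovZ.n2 (2480, 2240) (by decide +kernel)
               (CovZ.badM (by decide +kernel))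
               (CovZ.leaf K2_ok TF_l2819 _))
              (CovZ.badM (by decide +kernel))))))

theorem TF_u67 : CovZ TF_M (toL (selN TF_LN 633825300151008188895770789888)) [0, 7, 4, 3] (2240, 2240) (1920, 1920) (2560, 1920) :=
    (CovZ.n1 (2240, 1920) (by decide +kernel)
           (CovZ.badM (by decide +kernel))
           (CovZ.n1 (2400, 2080) (by decide +kernel)
            (CovZ.n2 (2400, 1920) (by decide +kernel)
             (CovZ.n2 (2320, 2000) (by decide +kernel)
              (CovZ.n2 (2400, 2000) (by decide +kernel)
               (CovZ.n2 (2360, 1960) (by decide +kernel)
                (CovZ.n2 (2360, 2000) (by decide +kernel)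
                 (CovZ.n2 (2380, 1980) (by decide +kernel)
                  (CovZ.badM (by decide +kernel))
                  (CovZ.n1 (2380, 2000) (by decide +kernel)
                   (CovZ.leaf K2_ok TF_l11709 _)
                   (CovZ.n1 (2370, 1990) (by decide +kernel)
                    (CovZ.leaf K2_ok TF_l11710 _)
                    (CovZ.leaf K2_ok TF_l11711 _))))
                 (CovZ.badM (by decide +kernel)))
                (CovZ.n1 (2400, 1960) (by decide +kernel)
                 (CovZ.n2 (2380, 1940) (by decide +kernel)
                  (CovZ.n2 (2380, 1960) (by decide +kernel)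
                   (CovZ.leaf K2_ok TF_l11712 _)
                   (CovZ.badM (by decide +kernel)))
                  (CovZ.n1 (2400, 1940) (by decide +kernel)
                   (CovZ.leaf K2_ok TF_l11713 _)
                   (CovZ.leaf K2_ok TF_l11714 _)))
                 (CovZ.n1 (2380, 1980) (by decide +kernel)
                  (CovZ.n2 (2400, 1980) (by decide +kernel)
                   (CovZ.leaf K2_ok TF_l11715 _)
                   (CovZ.leaf K2_ok TF_l11716 _))
                  (CovZ.n1 (2380, 1960) (by decide +kernel)
                   (CovZ.badM (by decide +kernel))
                   (CovZ.leaf K2_ok TF_l11717 _)))))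
               (CovZ.n1 (2360, 2040) (by decide +kernel)
                (CovZ.n2 (2400, 2040) (by decide +kernel)
                 (CovZ.n2 (2380, 2020) (by decide +kernel)
                  (CovZ.n2 (2380, 2040) (by decide +kernel)
                   (CovZ.leaf K2_ok TF_l11718 _)
                   (CovZ.n1 (2370, 2030) (by decide +kernel)
                    (CovZ.n2 (2370, 2040) (by decide +kernel)
                     (CovZ.leaf K2_ok TF_l11719 _)
                     (CovZ.leaf K2_ok TF_l11720 _))
                    (CovZ.leaf K2_ok TF_l11721 _)))
                  (CovZ.n1 (2400, 2020) (by decide +kernel)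
                   (CovZ.leaf K2_ok TF_l11722 _)
                   (CovZ.leaf K2_ok TF_l11723 _)))
                 (CovZ.n1 (2380, 2060) (by decide +kernel)
                  (CovZ.n2 (2400, 2060) (by decide +kernel)
                   (CovZ.leaf K2_ok TF_l11724 _)
                   (CovZ.leaf K2_ok TF_l11725 _))
                  (CovZ.n1 (2380, 2040) (by decide +kernel)
                   (CovZ.n2 (2370, 2050) (by decide +kernel)
                    (CovZ.leaf K2_ok TF_l11726 _)
                    (CovZ.leaf K2_ok TF_l11727 _))
                   (CovZ.leaf K2_ok TF_l11728 _))))
                (CovZ.n1 (2360, 2000) (by decide +kernel)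
                 (CovZ.badM (by decide +kernel))
                 (CovZ.n1 (2380, 2020) (by decide +kernel)
                  (CovZ.n2 (2380, 2000) (by decide +kernel)
                   (CovZ.n2 (2370, 2010) (by decide +kernel)
                    (CovZ.leaf K2_ok TF_l11729 _)
                    (CovZ.leaf K2_ok TF_l11730 _))
                   (CovZ.leaf K2_ok TF_l11731 _))
                  (CovZ.n1 (2360, 2020) (by decide +kernel)
                   (CovZ.n2 (2370, 2030) (by decide +kernel)
                    (CovZ.n2 (2370, 2020) (by decide +kernel)
                     (CovZ.leaf K2_ok TF_l11732 _)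
                     (CovZ.leaf K2_ok TF_l11733 _))
                    (CovZ.leaf K2_ok TF_l11734 _))
                   (CovZ.n1 (2370, 2010) (by decide +kernel)
                    (CovZ.badM (by decide +kernel))
                    (CovZ.leaf K2_ok TF_l11735 _)))))))
              (CovZ.n1 (2320, 1920) (by decide +kernel)
               (CovZ.badM (by decide +kernel))
               (CovZ.n1 (2360, 1960) (by decide +kernel)
                (CovZ.n2 (2360, 1920) (by decide +kernel)
                 (CovZ.badM (by decide +kernel))
                 (CovZ.n1 (2380, 1940) (by decide +kernel)
                  (CovZ.n2 (2380, 1920) (by decide +kernel)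
                   (CovZ.badM (by decide +kernel))
                   (CovZ.leaf K2_ok TF_l11736 _))
                  (CovZ.badM (by decide +kernel))))
                (CovZ.badM (by decide +kernel)))))
             (CovZ.n1 (2480, 2000) (by decide +kernel)
              (CovZ.n2 (2480, 1920) (by decide +kernel)
               (CovZ.n2 (2440, 1960) (by decide +kernel)
                (CovZ.leaf K2_ok TF_l2822 _)
                (CovZ.n1 (2440, 1920) (by decide +kernel)
                 (CovZ.n2 (2420, 1940) (by decide +kernel)
                  (CovZ.leaf K2_ok TF_l11737 _)
                  (CovZ.leaf K2_ok TF_l11738 _))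
                 (CovZ.leaf K2_ok TF_l2823 _)))
               (CovZ.leaf K2_ok TF_l2824 _))
              (CovZ.n1 (2400, 2000) (by decide +kernel)
               (CovZ.n2 (2440, 2040) (by decide +kernel)
                (CovZ.n2 (2440, 2000) (by decide +kernel)
                 (CovZ.n2 (2420, 2020) (by decide +kernel)
                  (CovZ.leaf K2_ok TF_l11739 _)
                  (CovZ.leaf K2_ok TF_l11740 _))
                 (CovZ.leaf K2_ok TF_l2825 _))
                (CovZ.n1 (2400, 2040) (by decide +kernel)
                 (CovZ.n2 (2420, 2060) (by decide +kernel)
                  (CovZ.leaf K2_ok TF_l11741 _)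
                  (CovZ.leaf K2_ok TF_l11742 _))
                 (CovZ.n1 (2420, 2020) (by decide +kernel)
                  (CovZ.leaf K2_ok TF_l11743 _)
                  (CovZ.leaf K2_ok TF_l11744 _))))
               (CovZ.n1 (2440, 1960) (by decide +kernel)
                (CovZ.n2 (2400, 1960) (by decide +kernel)
                 (CovZ.leaf K2_ok TF_l11745 _)
                 (CovZ.n1 (2420, 1940) (by decide +kernel)
                  (CovZ.leaf K2_ok TF_l11746 _)
                  (CovZ.leaf K2_ok TF_l11747 _)))
                (CovZ.n1 (2440, 2000) (by decide +kernel)
                 (CovZ.leaf K2_ok TF_l2826 _)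
                 (CovZ.leaf K2_ok TF_l11748 _))))))
            (CovZ.n1 (2240, 2080) (by decide +kernel)
             (CovZ.n2 (2320, 2160) (by decide +kernel)
              (CovZ.n2 (2320, 2080) (by decide +kernel)
               (CovZ.badM (by decide +kernel))
               (CovZ.n1 (2360, 2120) (by decide +kernel)
                (CovZ.n2 (2360, 2080) (by decide +kernel)
                 (CovZ.badM (by decide +kernel))
                 (CovZ.n1 (2380, 2100) (by decide +kernel)
                  (CovZ.n2 (2380, 2080) (by decide +kernel)
                   (CovZ.badM (by decide +kernel))
                   (CovZ.leaf K2_ok TF_l11749 _))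
                  (CovZ.badM (by decide +kernel))))
                (CovZ.badM (by decide +kernel))))
              (CovZ.badM (by decide +kernel)))
             (CovZ.n1 (2320, 2000) (by decide +kernel)
              (CovZ.badM (by decide +kernel))
              (CovZ.n1 (2320, 2080) (by decide +kernel)
               (CovZ.n2 (2360, 2040) (by decide +kernel)
                (CovZ.badM (by decide +kernel))
                (CovZ.n1 (2360, 2080) (by decide +kernel)
                 (CovZ.n2 (2380, 2060) (by decide +kernel)
                  (CovZ.badM (by decide +kernel))
                  (CovZ.n1 (2380, 2080) (by decide +kernel)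
                   (CovZ.leaf K2_ok TF_l11750 _)
                   (CovZ.badM (by decide +kernel))))
                 (CovZ.badM (by decide +kernel))))
               (CovZ.badM (by decide +kernel)))))))

theorem TF_u68 : CovZ TF_M (toL (selN TF_LN 52808515120968910522974075445360900341028177920)) [0, 7, 4, 3] (2560, 1280) (2560, 1920) (1920, 1920) :=
    (CovZ.subM 5709341261661849220508268573475193919641765888 (by decide +kernel)
         (CovZ.n2 (2240, 1600) (by decide +kernel)
          (CovZ.subM 18432 (by decide +kernel)
           (CovZ.n2 (2240, 1920) (by decide +kernel)
            (CovZ.n2 (2400, 1760) (by decide +kernel)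
             (CovZ.n2 (2240, 1760) (by decide +kernel)
              (CovZ.n2 (2320, 1840) (by decide +kernel)
               (CovZ.n2 (2320, 1760) (by decide +kernel)
                (CovZ.badM (by decide +kernel))
                (CovZ.n1 (2360, 1800) (by decide +kernel)
                 (CovZ.n2 (2360, 1760) (by decide +kernel)
                  (CovZ.badM (by decide +kernel))
                  (CovZ.n1 (2380, 1780) (by decide +kernel)
                   (CovZ.leaf K2_ok TF_l11660 _)
                   (CovZ.badM (by decide +kernel))))
                 (CovZ.badM (by decide +kernel))))
               (CovZ.badM (by decide +kernel)))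
              (CovZ.n1 (2320, 1680) (by decide +kernel)
               (CovZ.badM (by decide +kernel))
               (CovZ.n1 (2320, 1760) (by decide +kernel)
                (CovZ.n2 (2360, 1720) (by decide +kernel)
                 (CovZ.badM (by decide +kernel))
                 (CovZ.n1 (2360, 1760) (by decide +kernel)
                  (CovZ.n2 (2380, 1740) (by decide +kernel)
                   (CovZ.badM (by decide +kernel))
                   (CovZ.n1 (2380, 1760) (by decide +kernel)
                    (CovZ.leaf K2_ok TF_l11661 _)
                    (CovZ.badM (by decide +kernel))))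
                  (CovZ.badM (by decide +kernel))))
                (CovZ.badM (by decide +kernel)))))
             (CovZ.n1 (2400, 1920) (by decide +kernel)
              (CovZ.n2 (2480, 1840) (by decide +kernel)
               (CovZ.n2 (2400, 1840) (by decide +kernel)
                (CovZ.n2 (2440, 1880) (by decide +kernel)
                 (CovZ.n2 (2440, 1840) (by decide +kernel)
                  (CovZ.leaf K2_ok TF_l2730 _)
                  (CovZ.leaf K2_ok TF_l2731 _))
                 (CovZ.n1 (2400, 1880) (by decide +kernel)
                  (CovZ.leaf K2_ok TF_l2732 _)
                  (CovZ.leaf K2_ok TF_l2733 _)))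
                (CovZ.n1 (2440, 1800) (by decide +kernel)
                 (CovZ.n2 (2400, 1800) (by decide +kernel)
                  (CovZ.leaf K2_ok TF_l2734 _)
                  (CovZ.leaf K2_ok TF_l2735 _))
                 (CovZ.n1 (2440, 1840) (by decide +kernel)
                  (CovZ.leaf K2_ok TF_l2736 _)
                  (CovZ.leaf K2_ok TF_l2737 _))))
               (CovZ.n1 (2480, 1920) (by decide +kernel)
                (CovZ.n2 (2520, 1880) (by decide +kernel)
                 (CovZ.leaf K2_ok TF_l2738 _)
                 (CovZ.leaf K2_ok TF_l2739 _))
                (CovZ.n1 (2440, 1880) (by decide +kernel)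
                 (CovZ.n2 (2440, 1920) (by decide +kernel)
                  (CovZ.leaf K2_ok TF_l2740 _)
                  (CovZ.leaf K2_ok TF_l2741 _))
                 (CovZ.leaf K2_ok TF_l2742 _))))
              (CovZ.n1 (2320, 1840) (by decide +kernel)
               (CovZ.n2 (2320, 1920) (by decide +kernel)
                (CovZ.n2 (2360, 1880) (by decide +kernel)
                 (CovZ.badM (by decide +kernel))
                 (CovZ.n1 (2360, 1920) (by decide +kernel)
                  (CovZ.n2 (2380, 1900) (by decide +kernel)
                   (CovZ.badM (by decide +kernel))
                   (CovZ.n1 (2380, 1920) (by decide +kernel)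
                    (CovZ.leaf K2_ok TF_l11662 _)
                    (CovZ.badM (by decide +kernel))))
                  (CovZ.badM (by decide +kernel))))
                (CovZ.badM (by decide +kernel)))
               (CovZ.n1 (2400, 1840) (by decide +kernel)
                (CovZ.n2 (2360, 1800) (by decide +kernel)
                 (CovZ.n2 (2360, 1840) (by decide +kernel)
                  (CovZ.n2 (2380, 1820) (by decide +kernel)
                   (CovZ.badM (by decide +kernel))
                   (CovZ.n1 (2380, 1840) (by decide +kernel)
                    (CovZ.leaf K2_ok TF_l11663 _)
                    (CovZ.badM (by decide +kernel))))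
                  (CovZ.badM (by decide +kernel)))
                 (CovZ.n1 (2400, 1800) (by decide +kernel)
                  (CovZ.n2 (2380, 1780) (by decide +kernel)
                   (CovZ.n2 (2380, 1800) (by decide +kernel)
                    (CovZ.leaf K2_ok TF_l11664 _)
                    (CovZ.badM (by decide +kernel)))
                   (CovZ.leaf K2_ok TF_l11665 _))
                  (CovZ.n1 (2380, 1820) (by decide +kernel)
                   (CovZ.leaf K2_ok TF_l11666 _)
                   (CovZ.n1 (2380, 1800) (by decide +kernel)
                    (CovZ.badM (by decide +kernel))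
                    (CovZ.leaf K2_ok TF_l11667 _)))))
                (CovZ.n1 (2360, 1880) (by decide +kernel)
                 (CovZ.n2 (2400, 1880) (by decide +kernel)
                  (CovZ.n2 (2380, 1860) (by decide +kernel)
                   (CovZ.n2 (2380, 1880) (by decide +kernel)
                    (CovZ.leaf K2_ok TF_l11668 _)
                    (CovZ.badM (by decide +kernel)))
                   (CovZ.n1 (2400, 1860) (by decide +kernel)
                    (CovZ.leaf K2_ok TF_l11669 _)
                    (CovZ.leaf K2_ok TF_l11670 _)))
                  (CovZ.n1 (2380, 1900) (by decide +kernel)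
                   (CovZ.leaf K2_ok TF_l11671 _)
                   (CovZ.n1 (2380, 1880) (by decide +kernel)
                    (CovZ.badM (by decide +kernel))
                    (CovZ.leaf K2_ok TF_l11672 _))))
                 (CovZ.n1 (2360, 1840) (by decide +kernel)
                  (CovZ.badM (by decide +kernel))
                  (CovZ.n1 (2380, 1860) (by decide +kernel)
                   (CovZ.n2 (2380, 1840) (by decide +kernel)
                    (CovZ.badM (by decide +kernel))
                    (CovZ.leaf K2_ok TF_l11673 _))
                   (CovZ.badM (by decide +kernel)))))))))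
            (CovZ.badM (by decide +kernel))))
          (CovZ.n1 (2560, 1600) (by decide +kernel)
           (CovZ.n2 (2400, 1440) (by decide +kernel)
            (CovZ.subM 1361129467683753853853534458524125382656 (by decide +kernel)
             (CovZ.n2 (2400, 1600) (by decide +kernel)
              (CovZ.n2 (2480, 1520) (by decide +kernel)
               (CovZ.n2 (2400, 1520) (by decide +kernel)
                (CovZ.leaf K2_ok TF_l2743 _)
                (CovZ.n1 (2440, 1480) (by decide +kernel)
                 (CovZ.leaf K2_ok TF_l2744 _)
                 (CovZ.leaf K2_ok TF_l2745 _)))
               (CovZ.n1 (2480, 1600) (by decide +kernel)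
                (CovZ.leaf K2_ok TF_l2746 _)
                (CovZ.n1 (2440, 1560) (by decide +kernel)
                 (CovZ.n2 (2440, 1600) (by decide +kernel)
                  (CovZ.leaf K2_ok TF_l2747 _)
                  (CovZ.leaf K2_ok TF_l2748 _))
                 (CovZ.leaf K2_ok TF_l2749 _))))
              (CovZ.n1 (2320, 1520) (by decide +kernel)
               (CovZ.n2 (2320, 1600) (by decide +kernel)
                (CovZ.n2 (2360, 1560) (by decide +kernel)
                 (CovZ.badM (by decide +kernel))
                 (CovZ.n1 (2360, 1600) (by decide +kernel)
                  (CovZ.n2 (2380, 1580) (by decide +kernel)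
                   (CovZ.badM (by decide +kernel))
                   (CovZ.leaf K2_ok TF_l11674 _))
                  (CovZ.badM (by decide +kernel))))
                (CovZ.badM (by decide +kernel)))
               (CovZ.n1 (2400, 1520) (by decide +kernel)
                (CovZ.n2 (2360, 1480) (by decide +kernel)
                 (CovZ.n2 (2360, 1520) (by decide +kernel)
                  (CovZ.leaf K2_ok TF_l2750 _)
                  (CovZ.badM (by decide +kernel)))
                 (CovZ.n1 (2400, 1480) (by decide +kernel)
                  (CovZ.leaf K2_ok TF_l2751 _)
                  (CovZ.leaf K2_ok TF_l2752 _)))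
                (CovZ.n1 (2360, 1560) (by decide +kernel)
                 (CovZ.n2 (2400, 1560) (by decide +kernel)
                  (CovZ.leaf K2_ok TF_l2753 _)
                  (CovZ.n1 (2380, 1580) (by decide +kernel)
                   (CovZ.leaf K2_ok TF_l11675 _)
                   (CovZ.leaf K2_ok TF_l11676 _)))
                 (CovZ.n1 (2360, 1520) (by decide +kernel)
                  (CovZ.badM (by decide +kernel))
                  (CovZ.leaf K2_ok TF_l2754 _)))))))
            (CovZ.n1 (2560, 1440) (by decide +kernel)
             (CovZ.n2 (2480, 1360) (by decide +kernel)
              (CovZ.n2 (2480, 1440) (by decide +kernel)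
               (CovZ.leaf K2_ok TF_l2755 _)
               (CovZ.leaf K2_ok TF_l2756 _))
              (CovZ.leaf K2_ok TF_l2757 _))
             (CovZ.n1 (2480, 1520) (by decide +kernel)
              (CovZ.leaf K2_ok TF_l2758 _)
              (CovZ.n1 (2480, 1440) (by decide +kernel)
               (CovZ.n2 (2440, 1480) (by decide +kernel)
                (CovZ.leaf K2_ok TF_l2759 _)
                (CovZ.leaf K2_ok TF_l2760 _))
               (CovZ.leaf K2_ok TF_l2761 _)))))
           (CovZ.subM 1361129467683753853853534458524125382656 (by decide +kernel)
            (CovZ.n1 (2400, 1760) (by decide +kernel)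
             (CovZ.n2 (2560, 1760) (by decide +kernel)
              (CovZ.n2 (2480, 1680) (by decide +kernel)
               (CovZ.n2 (2480, 1760) (by decide +kernel)
                (CovZ.leaf K2_ok TF_l2762 _)
                (CovZ.n1 (2440, 1720) (by decide +kernel)
                 (CovZ.n2 (2440, 1760) (by decide +kernel)
                  (CovZ.leaf K2_ok TF_l2763 _)
                  (CovZ.leaf K2_ok TF_l2764 _))
                 (CovZ.leaf K2_ok TF_l2765 _)))
               (CovZ.n1 (2560, 1680) (by decide +kernel)
                (CovZ.leaf K2_ok TF_l2766 _)
                (CovZ.leaf K2_ok TF_l2767 _)))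
              (CovZ.n1 (2480, 1840) (by decide +kernel)
               (CovZ.n2 (2560, 1840) (by decide +kernel)
                (CovZ.leaf K2_ok TF_l2768 _)
                (CovZ.n1 (2520, 1880) (by decide +kernel)
                 (CovZ.leaf K2_ok TF_l2769 _)
                 (CovZ.leaf K2_ok TF_l2770 _)))
               (CovZ.n1 (2480, 1760) (by decide +kernel)
                (CovZ.n2 (2440, 1800) (by decide +kernel)
                 (CovZ.leaf K2_ok TF_l2771 _)
                 (CovZ.n1 (2440, 1760) (by decide +kernel)
                  (CovZ.leaf K2_ok TF_l2772 _)
                  (CovZ.leaf K2_ok TF_l2773 _)))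
                (CovZ.leaf K2_ok TF_l2774 _))))
             (CovZ.n1 (2400, 1600) (by decide +kernel)
              (CovZ.n2 (2320, 1680) (by decide +kernel)
               (CovZ.n2 (2400, 1680) (by decide +kernel)
                (CovZ.n2 (2360, 1640) (by decide +kernel)
                 (CovZ.n2 (2360, 1680) (by decide +kernel)
                  (CovZ.n2 (2380, 1660) (by decide +kernel)
                   (CovZ.badM (by decide +kernel))
                   (CovZ.leaf K2_ok TF_l11677 _))
                  (CovZ.badM (by decide +kernel)))
                 (CovZ.n1 (2400, 1640) (by decide +kernel)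
                  (CovZ.leaf K2_ok TF_l11678 _)
                  (CovZ.n1 (2380, 1660) (by decide +kernel)
                   (CovZ.leaf K2_ok TF_l11679 _)
                   (CovZ.leaf K2_ok TF_l11680 _))))
                (CovZ.n1 (2360, 1720) (by decide +kernel)
                 (CovZ.n2 (2400, 1720) (by decide +kernel)
                  (CovZ.n2 (2380, 1700) (by decide +kernel)
                   (CovZ.n2 (2380, 1720) (by decide +kernel)
                    (CovZ.leaf K2_ok TF_l11681 _)
                    (CovZ.badM (by decide +kernel)))
                   (CovZ.leaf K2_ok TF_l11682 _))
                  (CovZ.n1 (2380, 1740) (by decide +kernel)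
                   (CovZ.leaf K2_ok TF_l11683 _)
                   (CovZ.leaf K2_ok TF_l11684 _)))
                 (CovZ.n1 (2360, 1680) (by decide +kernel)
                  (CovZ.badM (by decide +kernel))
                  (CovZ.n1 (2380, 1700) (by decide +kernel)
                   (CovZ.leaf K2_ok TF_l11685 _)
                   (CovZ.badM (by decide +kernel))))))
               (CovZ.n1 (2320, 1600) (by decide +kernel)
                (CovZ.badM (by decide +kernel))
                (CovZ.n1 (2360, 1640) (by decide +kernel)
                 (CovZ.n2 (2360, 1600) (by decide +kernel)
                  (CovZ.badM (by decide +kernel))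
                  (CovZ.leaf K2_ok TF_l11686 _))
                 (CovZ.badM (by decide +kernel)))))
              (CovZ.n1 (2480, 1680) (by decide +kernel)
               (CovZ.n2 (2480, 1600) (by decide +kernel)
                (CovZ.n2 (2440, 1640) (by decide +kernel)
                 (CovZ.leaf K2_ok TF_l2775 _)
                 (CovZ.leaf K2_ok TF_l2776 _))
                (CovZ.leaf K2_ok TF_l2777 _))
               (CovZ.n1 (2400, 1680) (by decide +kernel)
                (CovZ.n2 (2440, 1720) (by decide +kernel)
                 (CovZ.n2 (2440, 1680) (by decide +kernel)
                  (CovZ.leaf K2_ok TF_l2778 _)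
                  (CovZ.leaf K2_ok TF_l2779 _))
                 (CovZ.leaf K2_ok TF_l2780 _))
                (CovZ.n1 (2440, 1640) (by decide +kernel)
                 (CovZ.leaf K2_ok TF_l2781 _)
                 (CovZ.n1 (2440, 1680) (by decide +kernel)
                  (CovZ.leaf K2_ok TF_l2782 _)
                  (CovZ.leaf K2_ok TF_l2783 _)))))))))))

theorem TF_u69 : CovZ TF_M (toL (selN TF_LN 53179352462628934353024762636417864356384431620)) [0, 7, 4, 3] (2560, 0) (2560, 1280) (1280, 1280) :=
    (CovZ.n2 (1920, 640) (by decide +kernel)
      (CovZ.n2 (1920, 1280) (by decide +kernel)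
       (CovZ.n2 (2240, 960) (by decide +kernel)
        TF_u63
        TF_u64)
       (CovZ.subM 7136586912683992209276775614092113573375508996 (by decide +kernel)
        (CovZ.n1 (1600, 960) (by decide +kernel)
         (CovZ.subM 1427247692716344474775355624850671317117173760 (by decide +kernel)
          (CovZ.n2 (1600, 1280) (by decide +kernel)
           (CovZ.n2 (1760, 1120) (by decide +kernel)
            (CovZ.n2 (1600, 1120) (by decide +kernel)
             (CovZ.badM (by decide +kernel))
             (CovZ.n1 (1680, 1040) (by decide +kernel)
              (CovZ.n2 (1600, 1040) (by decide +kernel)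
               (CovZ.badM (by decide +kernel))
               (CovZ.n1 (1640, 1000) (by decide +kernel)
                (CovZ.n2 (1600, 1000) (by decide +kernel)
                 (CovZ.badM (by decide +kernel))
                 (CovZ.n1 (1620, 980) (by decide +kernel)
                  (CovZ.leaf K2_ok TF_l11607 _)
                  (CovZ.badM (by decide +kernel))))
                (CovZ.badM (by decide +kernel))))
              (CovZ.badM (by decide +kernel))))
            (CovZ.n1 (1760, 1280) (by decide +kernel)
             (CovZ.n2 (1840, 1200) (by decide +kernel)
              (CovZ.badM (by decide +kernel))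
              (CovZ.badM (by decide +kernel)))
             (CovZ.badM (by decide +kernel))))
           (CovZ.n1 (1440, 1120) (by decide +kernel)
            (CovZ.badM (by decide +kernel))
            (CovZ.n1 (1600, 1120) (by decide +kernel)
             (CovZ.n2 (1520, 1040) (by decide +kernel)
              (CovZ.badM (by decide +kernel))
              (CovZ.n1 (1600, 1040) (by decide +kernel)
               (CovZ.n2 (1560, 1000) (by decide +kernel)
                (CovZ.badM (by decide +kernel))
                (CovZ.n1 (1600, 1000) (by decide +kernel)
                 (CovZ.n2 (1580, 980) (by decide +kernel)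
                  (CovZ.badM (by decide +kernel))
                  (CovZ.n1 (1600, 980) (by decide +kernel)
                   (CovZ.leaf K2_ok TF_l11608 _)
                   (CovZ.badM (by decide +kernel))))
                 (CovZ.badM (by decide +kernel))))
               (CovZ.badM (by decide +kernel))))
             (CovZ.badM (by decide +kernel))))))
         TF_u65)))
      (CovZ.n1 (2560, 640) (by decide +kernel)
       (CovZ.subM 52819665493734328739797246946895062137401659908 (by decide +kernel)
        (CovZ.n2 (2240, 320) (by decide +kernel)
         (CovZ.n2 (2240, 640) (by decide +kernel)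
          (CovZ.n2 (2400, 480) (by decide +kernel)
           (CovZ.leaf K2_ok TF_l2687 _)
           (CovZ.n1 (2400, 640) (by decide +kernel)
            (CovZ.leaf K2_ok TF_l2688 _)
            (CovZ.leaf K2_ok TF_l2689 _)))
          (CovZ.n1 (2080, 480) (by decide +kernel)
           (CovZ.n2 (2080, 640) (by decide +kernel)
            (CovZ.leaf K2_ok TF_l2690 _)
            (CovZ.leaf K2_ok TF_l2691 _))
           (CovZ.leaf K2_ok TF_l2692 _)))
         (CovZ.n1 (2560, 320) (by decide +kernel)
          (CovZ.leaf K2_ok TF_l2693 _)
          (CovZ.n1 (2400, 480) (by decide +kernel)
           (CovZ.leaf K2_ok TF_l2694 _)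
           (CovZ.leaf K2_ok TF_l2695 _)))))
       (CovZ.subM 52819665493568175240343475275895920321661911556 (by decide +kernel)
        (CovZ.n1 (2240, 960) (by decide +kernel)
         (CovZ.n2 (2560, 960) (by decide +kernel)
          (CovZ.n2 (2400, 800) (by decide +kernel)
           (CovZ.n2 (2400, 960) (by decide +kernel)
            (CovZ.leaf K2_ok TF_l2696 _)
            (CovZ.n1 (2320, 880) (by decide +kernel)
             (CovZ.n2 (2320, 960) (by decide +kernel)
              (CovZ.leaf K2_ok TF_l2697 _)
              (CovZ.leaf K2_ok TF_l2698 _))
             (CovZ.leaf K2_ok TF_l2699 _)))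
           (CovZ.n1 (2560, 800) (by decide +kernel)
            (CovZ.leaf K2_ok TF_l2700 _)
            (CovZ.n1 (2480, 880) (by decide +kernel)
             (CovZ.leaf K2_ok TF_l2701 _)
             (CovZ.leaf K2_ok TF_l2702 _))))
          (CovZ.n1 (2400, 1120) (by decide +kernel)
           (CovZ.subM 5720491634261114571693278251501142291658194944 (by decide +kernel)
            (CovZ.n2 (2560, 1120) (by decide +kernel)
             (CovZ.n2 (2480, 1040) (by decide +kernel)
              (CovZ.leaf K2_ok TF_l2703 _)
              (CovZ.leaf K2_ok TF_l2704 _))
             (CovZ.n1 (2480, 1200) (by decide +kernel)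
              (CovZ.leaf K2_ok TF_l2705 _)
              (CovZ.leaf K2_ok TF_l2706 _))))
           (CovZ.n1 (2400, 960) (by decide +kernel)
            (CovZ.n2 (2320, 1040) (by decide +kernel)
             (CovZ.n2 (2400, 1040) (by decide +kernel)
              (CovZ.leaf K2_ok TF_l2707 _)
              (CovZ.leaf K2_ok TF_l2708 _))
             (CovZ.n1 (2320, 960) (by decide +kernel)
              (CovZ.leaf K2_ok TF_l2709 _)
              (CovZ.leaf K2_ok TF_l2710 _)))
            (CovZ.leaf K2_ok TF_l2711 _))))
         (CovZ.n1 (2240, 640) (by decide +kernel)
          (CovZ.n2 (2080, 800) (by decide +kernel)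
           (CovZ.n2 (2240, 800) (by decide +kernel)
            (CovZ.n2 (2160, 720) (by decide +kernel)
             (CovZ.n2 (2160, 800) (by decide +kernel)
              (CovZ.leaf K2_ok TF_l2712 _)
              (CovZ.leaf K2_ok TF_l2713 _))
             (CovZ.leaf K2_ok TF_l2714 _))
            (CovZ.n1 (2160, 880) (by decide +kernel)
             (CovZ.n2 (2240, 880) (by decide +kernel)
              (CovZ.leaf K2_ok TF_l2715 _)
              (CovZ.n1 (2200, 920) (by decide +kernel)
               (CovZ.leaf K2_ok TF_l2716 _)
               (CovZ.leaf K2_ok TF_l2717 _)))
             (CovZ.n1 (2160, 800) (by decide +kernel)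
              (CovZ.leaf K2_ok TF_l2718 _)
              (CovZ.leaf K2_ok TF_l2719 _))))
           (CovZ.n1 (2080, 640) (by decide +kernel)
            (CovZ.n2 (2000, 720) (by decide +kernel)
             (CovZ.leaf K2_ok TF_l2720 _)
             (CovZ.leaf K2_ok TF_l2721 _))
            (CovZ.leaf K2_ok TF_l2722 _)))
          (CovZ.n1 (2400, 800) (by decide +kernel)
           (CovZ.n2 (2400, 640) (by decide +kernel)
            (CovZ.n2 (2320, 720) (by decide +kernel)
             (CovZ.leaf K2_ok TF_l2723 _)
             (CovZ.leaf K2_ok TF_l2724 _))
            (CovZ.leaf K2_ok TF_l2725 _))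
           (CovZ.n1 (2240, 800) (by decide +kernel)
            (CovZ.n2 (2320, 880) (by decide +kernel)
             (CovZ.leaf K2_ok TF_l2726 _)
             (CovZ.leaf K2_ok TF_l2727 _))
            (CovZ.n1 (2320, 720) (by decide +kernel)
             (CovZ.leaf K2_ok TF_l2728 _)
             (CovZ.leaf K2_ok TF_l2729 _)))))))))

theorem TF_u70 : CovZ TF_M (toL (selN TF_LN 53179352462628934353024762636417864356384431620)) [0, 7, 4, 3] (2560, 1280) (2560, 2560) (1280, 1280) :=
    (CovZ.subM 52808515120968910522974075445360900341028177920 (by decide +kernel)
      (CovZ.n1 (1920, 1920) (by decide +kernel)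
       (CovZ.n2 (2560, 1920) (by decide +kernel)
        TF_u68
        (CovZ.subM 633825300151008188895770789888 (by decide +kernel)
         (CovZ.n1 (2240, 2240) (by decide +kernel)
          TF_u66
          TF_u67)))
       (CovZ.n1 (1920, 1280) (by decide +kernel)
        (CovZ.subM 47099173859307060668640506647090541230777434112 (by decide +kernel)
         (CovZ.n2 (1600, 1600) (by decide +kernel)
          (CovZ.badM (by decide +kernel))
          (CovZ.n1 (1600, 1280) (by decide +kernel)
           (CovZ.n2 (1440, 1440) (by decide +kernel)
            (CovZ.badM (by decide +kernel))
            (CovZ.badM (by decide +kernel)))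
           (CovZ.n1 (1760, 1440) (by decide +kernel)
            (CovZ.n2 (1760, 1280) (by decide +kernel)
             (CovZ.badM (by decide +kernel))
             (CovZ.badM (by decide +kernel)))
            (CovZ.badM (by decide +kernel))))))
        (CovZ.subM 5709341261661849220508268573475193919641763840 (by decide +kernel)
         (CovZ.n1 (2240, 1600) (by decide +kernel)
          (CovZ.n2 (2240, 1280) (by decide +kernel)
           (CovZ.badM (by decide +kernel))
           (CovZ.n1 (2400, 1440) (by decide +kernel)
            (CovZ.n2 (2400, 1280) (by decide +kernel)
             (CovZ.n2 (2320, 1360) (by decide +kernel)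
              (CovZ.n2 (2400, 1360) (by decide +kernel)
               (CovZ.n2 (2360, 1320) (by decide +kernel)
                (CovZ.n2 (2360, 1360) (by decide +kernel)
                 (CovZ.leaf K2_ok TF_l2827 _)
                 (CovZ.leaf K2_ok TF_l2828 _))
                (CovZ.leaf K2_ok TF_l2829 _))
               (CovZ.subM 2041694201525630780780283673387661803520 (by decide +kernel)
                (CovZ.n1 (2360, 1400) (by decide +kernel)
                 (CovZ.leaf K2_ok TF_l2830 _)
                 (CovZ.n1 (2360, 1360) (by decide +kernel)
                  (CovZ.n2 (2340, 1380) (by decide +kernel)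
                   (CovZ.leaf K2_ok TF_l11751 _)
                   (CovZ.leaf K2_ok TF_l11752 _))
                  (CovZ.leaf K2_ok TF_l2831 _)))))
              (CovZ.n1 (2320, 1280) (by decide +kernel)
               (CovZ.subM 2041694201525630780780283673387661787136 (by decide +kernel)
                (CovZ.n2 (2280, 1320) (by decide +kernel)
                 (CovZ.n2 (2320, 1320) (by decide +kernel)
                  (CovZ.n2 (2300, 1300) (by decide +kernel)
                   (CovZ.leaf K2_ok TF_l11753 _)
                   (CovZ.leaf K2_ok TF_l11754 _))
                  (CovZ.n1 (2300, 1340) (by decide +kernel)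
                   (CovZ.leaf K2_ok TF_l11755 _)
                   (CovZ.n1 (2300, 1320) (by decide +kernel)
                    (CovZ.leaf K2_ok TF_l11756 _)
                    (CovZ.leaf K2_ok TF_l11757 _))))
                 (CovZ.n1 (2280, 1280) (by decide +kernel)
                  (CovZ.n2 (2260, 1300) (by decide +kernel)
                   (CovZ.n2 (2280, 1300) (by decide +kernel)
                    (CovZ.leaf K2_ok TF_l11758 _)
                    (CovZ.badM (by decide +kernel)))
                   (CovZ.n1 (2260, 1280) (by decide +kernel)
                    (CovZ.badM (by decide +kernel))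
                    (CovZ.leaf K2_ok TF_l11759 _)))
                  (CovZ.leaf K2_ok TF_l11760 _))))
               (CovZ.n1 (2360, 1320) (by decide +kernel)
                (CovZ.leaf K2_ok TF_l2832 _)
                (CovZ.leaf K2_ok TF_l2833 _))))
             (CovZ.n1 (2480, 1360) (by decide +kernel)
              (CovZ.n2 (2480, 1280) (by decide +kernel)
               (CovZ.leaf K2_ok TF_l2834 _)
               (CovZ.leaf K2_ok TF_l2835 _))
              (CovZ.n1 (2400, 1360) (by decide +kernel)
               (CovZ.leaf K2_ok TF_l2836 _)
               (CovZ.leaf K2_ok TF_l2837 _))))
            (CovZ.subM 1361129467683753853853534458524125380608 (by decide +kernel)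
             (CovZ.n1 (2240, 1440) (by decide +kernel)
              (CovZ.n2 (2320, 1520) (by decide +kernel)
               (CovZ.n2 (2320, 1440) (by decide +kernel)
                (CovZ.badM (by decide +kernel))
                (CovZ.n1 (2360, 1480) (by decide +kernel)
                 (CovZ.n2 (2360, 1440) (by decide +kernel)
                  (CovZ.n2 (2340, 1460) (by decide +kernel)
                   (CovZ.leaf K2_ok TF_l11761 _)
                   (CovZ.leaf K2_ok TF_l11762 _))
                  (CovZ.leaf K2_ok TF_l2838 _))
                 (CovZ.badM (by decide +kernel))))
               (CovZ.badM (by decide +kernel)))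
              (CovZ.n1 (2320, 1360) (by decide +kernel)
               (CovZ.n2 (2240, 1360) (by decide +kernel)
                (CovZ.n2 (2280, 1400) (by decide +kernel)
                 (CovZ.n2 (2280, 1360) (by decide +kernel)
                  (CovZ.badM (by decide +kernel))
                  (CovZ.n1 (2300, 1380) (by decide +kernel)
                   (CovZ.n2 (2300, 1360) (by decide +kernel)
                    (CovZ.badM (by decide +kernel))
                    (CovZ.leaf K2_ok TF_l11763 _))
                   (CovZ.badM (by decide +kernel))))
                 (CovZ.badM (by decide +kernel)))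
                (CovZ.n1 (2280, 1320) (by decide +kernel)
                 (CovZ.badM (by decide +kernel))
                 (CovZ.n1 (2280, 1360) (by decide +kernel)
                  (CovZ.n2 (2300, 1340) (by decide +kernel)
                   (CovZ.badM (by decide +kernel))
                   (CovZ.n1 (2300, 1360) (by decide +kernel)
                    (CovZ.leaf K2_ok TF_l11764 _)
                    (CovZ.badM (by decide +kernel))))
                  (CovZ.badM (by decide +kernel)))))
               (CovZ.n1 (2320, 1440) (by decide +kernel)
                (CovZ.n2 (2360, 1400) (by decide +kernel)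
                 (CovZ.n2 (2320, 1400) (by decide +kernel)
                  (CovZ.n2 (2340, 1420) (by decide +kernel)
                   (CovZ.leaf K2_ok TF_l11765 _)
                   (CovZ.badM (by decide +kernel)))
                  (CovZ.leaf K2_ok TF_l11766 _))
                 (CovZ.n1 (2360, 1440) (by decide +kernel)
                  (CovZ.leaf K2_ok TF_l2839 _)
                  (CovZ.n1 (2340, 1420) (by decide +kernel)
                   (CovZ.leaf K2_ok TF_l11767 _)
                   (CovZ.leaf K2_ok TF_l11768 _))))
                (CovZ.n1 (2280, 1400) (by decide +kernel)
                 (CovZ.badM (by decide +kernel))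
                 (CovZ.n1 (2320, 1400) (by decide +kernel)
                  (CovZ.n2 (2300, 1380) (by decide +kernel)
                   (CovZ.badM (by decide +kernel))
                   (CovZ.n1 (2320, 1380) (by decide +kernel)
                    (CovZ.leaf K2_ok TF_l11769 _)
                    (CovZ.badM (by decide +kernel))))
                  (CovZ.badM (by decide +kernel))))))))))
          (CovZ.badM (by decide +kernel)))))))

theorem TF_u71 : CovZ TF_M (toL (selN TF_LN 359686628778391557927374685200839900884375044)) [0, 7, 4, 3] (1280, 1280) (640, 640) (1280, 0) :=
    (CovZ.n2 (1280, 640) (by decide +kernel)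
        (CovZ.n2 (960, 320) (by decide +kernel)
         (CovZ.n2 (960, 640) (by decide +kernel)
          (CovZ.n2 (1120, 480) (by decide +kernel)
           (CovZ.leaf K2_ok TF_l2840 _)
           (CovZ.n1 (1120, 640) (by decide +kernel)
            (CovZ.n2 (1200, 560) (by decide +kernel)
             (CovZ.leaf K2_ok TF_l2841 _)
             (CovZ.leaf K2_ok TF_l2842 _))
            (CovZ.leaf K2_ok TF_l2843 _)))
          (CovZ.n1 (800, 480) (by decide +kernel)
           (CovZ.n2 (800, 640) (by decide +kernel)
            (CovZ.leaf K2_ok TF_l2844 _)
            (CovZ.leaf K2_ok TF_l2845 _))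
           (CovZ.n1 (960, 480) (by decide +kernel)
            (CovZ.leaf K2_ok TF_l2846 _)
            (CovZ.leaf K2_ok TF_l2847 _))))
         (CovZ.n1 (1280, 320) (by decide +kernel)
          (CovZ.n2 (1120, 160) (by decide +kernel)
           (CovZ.n2 (1120, 320) (by decide +kernel)
            (CovZ.leaf K2_ok TF_l2848 _)
            (CovZ.leaf K2_ok TF_l2849 _))
           (CovZ.leaf K2_ok TF_l2850 _))
          (CovZ.n1 (1120, 480) (by decide +kernel)
           (CovZ.n2 (1280, 480) (by decide +kernel)
            (CovZ.leaf K2_ok TF_l2851 _)
            (CovZ.n1 (1200, 560) (by decide +kernel)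
             (CovZ.leaf K2_ok TF_l2852 _)
             (CovZ.leaf K2_ok TF_l2853 _)))
           (CovZ.leaf K2_ok TF_l2854 _))))
        (CovZ.n1 (960, 960) (by decide +kernel)
         (CovZ.n2 (1280, 960) (by decide +kernel)
          (CovZ.n2 (1120, 800) (by decide +kernel)
           (CovZ.n2 (1120, 960) (by decide +kernel)
            (CovZ.n2 (1200, 880) (by decide +kernel)
             (CovZ.n2 (1120, 880) (by decide +kernel)
              (CovZ.leaf K2_ok TF_l2855 _)
              (CovZ.n1 (1160, 840) (by decide +kernel)
               (CovZ.leaf K2_ok TF_l2856 _)
               (CovZ.n1 (1160, 880) (by decide +kernel)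
                (CovZ.leaf K2_ok TF_l2857 _)
                (CovZ.leaf K2_ok TF_l2858 _))))
             (CovZ.subM 356811923176489970314156513947790736011563524 (by decide +kernel)
              (CovZ.n1 (1200, 960) (by decide +kernel)
               (CovZ.n2 (1240, 920) (by decide +kernel)
                (CovZ.n2 (1200, 920) (by decide +kernel)
                 (CovZ.n2 (1220, 940) (by decide +kernel)
                  (CovZ.leaf K2_ok TF_l11770 _)
                  (CovZ.leaf K2_ok TF_l11771 _))
                 (CovZ.leaf K2_ok TF_l2859 _))
                (CovZ.n1 (1240, 960) (by decide +kernel)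
                 (CovZ.n2 (1260, 940) (by decide +kernel)
                  (CovZ.leaf K2_ok TF_l11772 _)
                  (CovZ.n1 (1260, 960) (by decide +kernel)
                   (CovZ.leaf K2_ok TF_l11773 _)
                   (CovZ.leaf K2_ok TF_l11774 _)))
                 (CovZ.n1 (1220, 940) (by decide +kernel)
                  (CovZ.n2 (1220, 960) (by decide +kernel)
                   (CovZ.leaf K2_ok TF_l11775 _)
                   (CovZ.leaf K2_ok TF_l11776 _))
                  (CovZ.n1 (1240, 940) (by decide +kernel)
                   (CovZ.leaf K2_ok TF_l11777 _)
                   (CovZ.leaf K2_ok TF_l11778 _)))))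
               (CovZ.leaf K2_ok TF_l2860 _))))
            (CovZ.n1 (1040, 880) (by decide +kernel)
             (CovZ.subM 356811923176489970275470887720122602420965892 (by decide +kernel)
              (CovZ.n2 (1040, 960) (by decide +kernel)
               (CovZ.n2 (1080, 920) (by decide +kernel)
                (CovZ.leaf K2_ok TF_l2861 _)
                (CovZ.n1 (1080, 960) (by decide +kernel)
                 (CovZ.n2 (1100, 940) (by decide +kernel)
                  (CovZ.leaf K2_ok TF_l11779 _)
                  (CovZ.leaf K2_ok TF_l11780 _))
                 (CovZ.n1 (1060, 940) (by decide +kernel)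
                  (CovZ.leaf K2_ok TF_l11781 _)
                  (CovZ.leaf K2_ok TF_l11782 _))))
               (CovZ.leaf K2_ok TF_l2862 _)))
             (CovZ.n1 (1120, 880) (by decide +kernel)
              (CovZ.leaf K2_ok TF_l2863 _)
              (CovZ.subM 356811923176489970314156513947790736011563524 (by decide +kernel)
               (CovZ.n1 (1080, 920) (by decide +kernel)
                (CovZ.n2 (1120, 920) (by decide +kernel)
                 (CovZ.leaf K2_ok TF_l2864 _)
                 (CovZ.n1 (1100, 940) (by decide +kernel)
                  (CovZ.n2 (1120, 940) (by decide +kernel)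
                   (CovZ.leaf K2_ok TF_l11783 _)
                   (CovZ.leaf K2_ok TF_l11784 _))
                  (CovZ.leaf K2_ok TF_l11785 _)))
                (CovZ.leaf K2_ok TF_l2865 _))))))
           (CovZ.n1 (1280, 800) (by decide +kernel)
            (CovZ.n2 (1200, 720) (by decide +kernel)
             (CovZ.n2 (1200, 800) (by decide +kernel)
              (CovZ.n2 (1240, 760) (by decide +kernel)
               (CovZ.leaf K2_ok TF_l2866 _)
               (CovZ.leaf K2_ok TF_l2867 _))
              (CovZ.leaf K2_ok TF_l2868 _))
             (CovZ.n1 (1280, 720) (by decide +kernel)
              (CovZ.leaf K2_ok TF_l2869 _)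
              (CovZ.n1 (1240, 760) (by decide +kernel)
               (CovZ.leaf K2_ok TF_l2870 _)
               (CovZ.leaf K2_ok TF_l2871 _))))
            (CovZ.n1 (1200, 880) (by decide +kernel)
             (CovZ.n2 (1280, 880) (by decide +kernel)
              (CovZ.leaf K2_ok TF_l2872 _)
              (CovZ.subM 356811923176489970314156513947790736011563524 (by decide +kernel)
               (CovZ.n1 (1240, 920) (by decide +kernel)
                (CovZ.n2 (1280, 920) (by decide +kernel)
                 (CovZ.leaf K2_ok TF_l2873 _)
                 (CovZ.n1 (1260, 940) (by decide +kernel)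
                  (CovZ.leaf K2_ok TF_l11786 _)
                  (CovZ.leaf K2_ok TF_l11787 _)))
                (CovZ.n1 (1240, 880) (by decide +kernel)
                 (CovZ.leaf K2_ok TF_l2874 _)
                 (CovZ.leaf K2_ok TF_l2875 _)))))
             (CovZ.n1 (1200, 800) (by decide +kernel)
              (CovZ.n2 (1160, 840) (by decide +kernel)
               (CovZ.leaf K2_ok TF_l2876 _)
               (CovZ.leaf K2_ok TF_l2877 _))
              (CovZ.leaf K2_ok TF_l2878 _)))))
          (CovZ.subM 356811923176489970314137616987868377970380804 (by decide +kernel)
           (CovZ.n1 (1120, 1120) (by decide +kernel)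
            (CovZ.badM (by decide +kernel))
            (CovZ.n1 (1120, 960) (by decide +kernel)
             (CovZ.n2 (1040, 1040) (by decide +kernel)
              (CovZ.n2 (1120, 1040) (by decide +kernel)
               (CovZ.leaf K2_ok TF_l11788 _)
               (CovZ.n1 (1080, 1080) (by decide +kernel)
                (CovZ.badM (by decide +kernel))
                (CovZ.n1 (1080, 1040) (by decide +kernel)
                 (CovZ.n2 (1060, 1060) (by decide +kernel)
                  (CovZ.badM (by decide +kernel))
                  (CovZ.leaf K2_ok TF_l11789 _))
                 (CovZ.badM (by decide +kernel)))))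
              (CovZ.n1 (1040, 960) (by decide +kernel)
               (CovZ.n2 (1000, 1000) (by decide +kernel)
                (CovZ.n2 (1040, 1000) (by decide +kernel)
                 (CovZ.n2 (1020, 980) (by decide +kernel)
                  (CovZ.leaf K2_ok TF_l11790 _)
                  (CovZ.leaf K2_ok TF_l11791 _))
                 (CovZ.n1 (1020, 1020) (by decide +kernel)
                  (CovZ.n2 (1040, 1020) (by decide +kernel)
                   (CovZ.leaf K2_ok TF_l11792 _)
                   (CovZ.leaf K2_ok TF_l11793 _))
                  (CovZ.leaf K2_ok TF_l11794 _)))
                (CovZ.n1 (1000, 960) (by decide +kernel)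
                 (CovZ.leaf K2_ok TF_l2879 _)
                 (CovZ.leaf K2_ok TF_l11795 _)))
               (CovZ.leaf K2_ok TF_l11796 _)))
             (CovZ.n1 (1200, 1040) (by decide +kernel)
              (CovZ.n2 (1200, 960) (by decide +kernel)
               (CovZ.n2 (1160, 1000) (by decide +kernel)
                (CovZ.subM 48357032785148116941668356 (by decide +kernel)
                 (CovZ.n2 (1200, 1000) (by decide +kernel)
                  (CovZ.n2 (1180, 980) (by decide +kernel)
                   (CovZ.n2 (1180, 1000) (by decide +kernel)
                    (CovZ.leaf K2_ok TF_l11797 _)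
                    (CovZ.leaf K2_ok TF_l11798 _))
                   (CovZ.n1 (1200, 980) (by decide +kernel)
                    (CovZ.leaf K2_ok TF_l11799 _)
                    (CovZ.leaf K2_ok TF_l11800 _)))
                  (CovZ.n1 (1180, 1020) (by decide +kernel)
                   (CovZ.badM (by decide +kernel))
                   (CovZ.n1 (1180, 1000) (by decide +kernel)
                    (CovZ.badM (by decide +kernel))
                    (CovZ.leaf K2_ok TF_l11801 _)))))
                (CovZ.n1 (1160, 960) (by decide +kernel)
                 (CovZ.n2 (1140, 980) (by decide +kernel)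
                  (CovZ.n2 (1160, 980) (by decide +kernel)
                   (CovZ.leaf K2_ok TF_l11802 _)
                   (CovZ.leaf K2_ok TF_l11803 _))
                  (CovZ.leaf K2_ok TF_l11804 _))
                 (CovZ.n1 (1180, 980) (by decide +kernel)
                  (CovZ.leaf K2_ok TF_l11805 _)
                  (CovZ.leaf K2_ok TF_l11806 _))))
               (CovZ.subM 48357032785148116941668356 (by decide +kernel)
                (CovZ.n1 (1240, 1000) (by decide +kernel)
                 (CovZ.n2 (1240, 960) (by decide +kernel)
                  (CovZ.n2 (1220, 980) (by decide +kernel)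
                   (CovZ.n2 (1240, 980) (by decide +kernel)
                    (CovZ.leaf K2_ok TF_l11807 _)
                    (CovZ.badM (by decide +kernel)))
                   (CovZ.leaf K2_ok TF_l11808 _))
                  (CovZ.n1 (1260, 980) (by decide +kernel)
                   (CovZ.leaf K2_ok TF_l11809 _)
                   (CovZ.leaf K2_ok TF_l11810 _)))
                 (CovZ.n1 (1200, 1000) (by decide +kernel)
                  (CovZ.badM (by decide +kernel))
                  (CovZ.n1 (1220, 980) (by decide +kernel)
                   (CovZ.leaf K2_ok TF_l11811 _)
                   (CovZ.badM (by decide +kernel)))))))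
              (CovZ.n1 (1120, 1040) (by decide +kernel)
               (CovZ.badM (by decide +kernel))
               (CovZ.n1 (1160, 1000) (by decide +kernel)
                (CovZ.n2 (1120, 1000) (by decide +kernel)
                 (CovZ.n2 (1140, 1020) (by decide +kernel)
                  (CovZ.leaf K2_ok TF_l11812 _)
                  (CovZ.leaf K2_ok TF_l11813 _))
                 (CovZ.n1 (1140, 980) (by decide +kernel)
                  (CovZ.leaf K2_ok TF_l11814 _)
                  (CovZ.n1 (1140, 1000) (by decide +kernel)
                   (CovZ.leaf K2_ok TF_l11815 _)
                   (CovZ.leaf K2_ok TF_l11816 _))))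
                (CovZ.badM (by decide +kernel)))))))))
         (CovZ.n1 (960, 640) (by decide +kernel)
          (CovZ.n2 (800, 800) (by decide +kernel)
           (CovZ.n2 (960, 800) (by decide +kernel)
            (CovZ.leaf K2_ok TF_l2880 _)
            (CovZ.n1 (880, 880) (by decide +kernel)
             (CovZ.leaf K2_ok TF_l2881 _)
             (CovZ.leaf K2_ok TF_l2882 _)))
           (CovZ.n1 (800, 640) (by decide +kernel)
            (CovZ.n2 (720, 720) (by decide +kernel)
             (CovZ.leaf K2_ok TF_l2883 _)
             (CovZ.leaf K2_ok TF_l2884 _))
            (CovZ.leaf K2_ok TF_l2885 _)))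
          (CovZ.n1 (1120, 800) (by decide +kernel)
           (CovZ.n2 (1120, 640) (by decide +kernel)
            (CovZ.n2 (1040, 720) (by decide +kernel)
             (CovZ.leaf K2_ok TF_l2886 _)
             (CovZ.leaf K2_ok TF_l2887 _))
            (CovZ.leaf K2_ok TF_l2888 _))
           (CovZ.n1 (960, 800) (by decide +kernel)
            (CovZ.leaf K2_ok TF_l2889 _)
            (CovZ.n1 (1040, 720) (by decide +kernel)
             (CovZ.leaf K2_ok TF_l2890 _)
             (CovZ.leaf K2_ok TF_l2891 _)))))))

theorem TF_u72 : CovZ TF_M (toL (selN TF_LN 359947965636186878280791351119457180973404676)) [0, 7, 4, 3] (1920, 640) (1600, 960) (1280, 640) :=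
    (CovZ.n2 (1600, 640) (by decide +kernel)
          (CovZ.n2 (1440, 800) (by decide +kernel)
           (CovZ.n2 (1600, 800) (by decide +kernel)
            (CovZ.n2 (1520, 720) (by decide +kernel)
             (CovZ.n2 (1520, 800) (by decide +kernel)
              (CovZ.n2 (1560, 760) (by decide +kernel)
               (CovZ.leaf K2_ok TF_l2916 _)
               (CovZ.leaf K2_ok TF_l2917 _))
              (CovZ.n1 (1480, 760) (by decide +kernel)
               (CovZ.leaf K2_ok TF_l2918 _)
               (CovZ.leaf K2_ok TF_l2919 _)))
             (CovZ.n1 (1600, 720) (by decide +kernel)
              (CovZ.leaf K2_ok TF_l2920 _)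
              (CovZ.n1 (1560, 760) (by decide +kernel)
               (CovZ.leaf K2_ok TF_l2921 _)
               (CovZ.leaf K2_ok TF_l2922 _))))
            (CovZ.subM 48385375775108125687939588 (by decide +kernel)
             (CovZ.n1 (1520, 880) (by decide +kernel)
              (CovZ.n2 (1600, 880) (by decide +kernel)
               (CovZ.n2 (1560, 840) (by decide +kernel)
                (CovZ.n2 (1560, 880) (by decide +kernel)
                 (CovZ.leaf K2_ok TF_l2923 _)
                 (CovZ.leaf K2_ok TF_l2924 _))
                (CovZ.leaf K2_ok TF_l2925 _))
               (CovZ.n1 (1560, 920) (by decide +kernel)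
                (CovZ.n2 (1600, 920) (by decide +kernel)
                 (CovZ.leaf K2_ok TF_l2926 _)
                 (CovZ.n1 (1580, 940) (by decide +kernel)
                  (CovZ.leaf K2_ok TF_l11817 _)
                  (CovZ.leaf K2_ok TF_l11818 _)))
                (CovZ.n1 (1560, 880) (by decide +kernel)
                 (CovZ.leaf K2_ok TF_l2927 _)
                 (CovZ.leaf K2_ok TF_l2928 _))))
              (CovZ.n1 (1520, 800) (by decide +kernel)
               (CovZ.n2 (1480, 840) (by decide +kernel)
                (CovZ.n2 (1520, 840) (by decide +kernel)
                 (CovZ.leaf K2_ok TF_l2929 _)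
                 (CovZ.leaf K2_ok TF_l2930 _))
                (CovZ.leaf K2_ok TF_l2931 _))
               (CovZ.leaf K2_ok TF_l2932 _)))))
           (CovZ.n1 (1440, 640) (by decide +kernel)
            (CovZ.n2 (1360, 720) (by decide +kernel)
             (CovZ.n2 (1440, 720) (by decide +kernel)
              (CovZ.leaf K2_ok TF_l2933 _)
              (CovZ.n1 (1400, 760) (by decide +kernel)
               (CovZ.leaf K2_ok TF_l2934 _)
               (CovZ.leaf K2_ok TF_l2935 _)))
             (CovZ.leaf K2_ok TF_l2936 _))
            (CovZ.n1 (1520, 720) (by decide +kernel)
             (CovZ.leaf K2_ok TF_l2937 _)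
             (CovZ.leaf K2_ok TF_l2938 _))))
          (CovZ.n1 (1760, 800) (by decide +kernel)
           (CovZ.n2 (1760, 640) (by decide +kernel)
            (CovZ.n2 (1680, 720) (by decide +kernel)
             (CovZ.n2 (1760, 720) (by decide +kernel)
              (CovZ.leaf K2_ok TF_l2939 _)
              (CovZ.leaf K2_ok TF_l2940 _))
             (CovZ.leaf K2_ok TF_l2941 _))
            (CovZ.leaf K2_ok TF_l2942 _))
           (CovZ.n1 (1600, 800) (by decide +kernel)
            (CovZ.n2 (1680, 880) (by decide +kernel)
             (CovZ.n2 (1680, 800) (by decide +kernel)
              (CovZ.n2 (1640, 840) (by decide +kernel)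
               (CovZ.leaf K2_ok TF_l2943 _)
               (CovZ.leaf K2_ok TF_l2944 _))
              (CovZ.leaf K2_ok TF_l2945 _))
             (CovZ.subM 9699749547439992097341956 (by decide +kernel)
              (CovZ.n1 (1600, 880) (by decide +kernel)
               (CovZ.n2 (1640, 920) (by decide +kernel)
                (CovZ.leaf K2_ok TF_l2946 _)
                (CovZ.leaf K2_ok TF_l2947 _))
               (CovZ.n1 (1640, 840) (by decide +kernel)
                (CovZ.leaf K2_ok TF_l2948 _)
                (CovZ.n1 (1640, 880) (by decide +kernel)
                 (CovZ.leaf K2_ok TF_l2949 _)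
                 (CovZ.leaf K2_ok TF_l2950 _))))))
            (CovZ.n1 (1680, 720) (by decide +kernel)
             (CovZ.leaf K2_ok TF_l2951 _)
             (CovZ.n1 (1680, 800) (by decide +kernel)
              (CovZ.leaf K2_ok TF_l2952 _)
              (CovZ.leaf K2_ok TF_l2953 _))))))

theorem TF_u73 : CovZ TF_M (toL (selN TF_LN 359947965636186878280791351119457180973404676)) [0, 7, 4, 3] (1600, 960) (1280, 1280) (1280, 640) :=
    (CovZ.n1 (1280, 960) (by decide +kernel)
          (CovZ.subM 144115188075986944 (by decide +kernel)
           (CovZ.n2 (1440, 1120) (by decide +kernel)
            (CovZ.n2 (1440, 960) (by decide +kernel)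
             (CovZ.n2 (1360, 1040) (by decide +kernel)
              (CovZ.n2 (1440, 1040) (by decide +kernel)
               (CovZ.n2 (1400, 1000) (by decide +kernel)
                (CovZ.badM (by decide +kernel))
                (CovZ.n1 (1440, 1000) (by decide +kernel)
                 (CovZ.n2 (1420, 980) (by decide +kernel)
                  (CovZ.badM (by decide +kernel))
                  (CovZ.n1 (1440, 980) (by decide +kernel)
                   (CovZ.leaf K2_ok TF_l11819 _)
                   (CovZ.badM (by decide +kernel))))
                 (CovZ.badM (by decide +kernel))))
               (CovZ.badM (by decide +kernel)))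
              (CovZ.n1 (1360, 960) (by decide +kernel)
               (CovZ.badM (by decide +kernel))
               (CovZ.n1 (1400, 1000) (by decide +kernel)
                (CovZ.n2 (1400, 960) (by decide +kernel)
                 (CovZ.n2 (1380, 980) (by decide +kernel)
                  (CovZ.n2 (1400, 980) (by decide +kernel)
                   (CovZ.leaf K2_ok TF_l11820 _)
                   (CovZ.badM (by decide +kernel)))
                  (CovZ.n1 (1380, 960) (by decide +kernel)
                   (CovZ.badM (by decide +kernel))
                   (CovZ.leaf K2_ok TF_l11821 _)))
                 (CovZ.n1 (1420, 980) (by decide +kernel)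
                  (CovZ.n2 (1420, 960) (by decide +kernel)
                   (CovZ.leaf K2_ok TF_l11822 _)
                   (CovZ.leaf K2_ok TF_l11823 _))
                  (CovZ.n1 (1400, 980) (by decide +kernel)
                   (CovZ.badM (by decide +kernel))
                   (CovZ.leaf K2_ok TF_l11824 _))))
                (CovZ.n1 (1360, 1000) (by decide +kernel)
                 (CovZ.badM (by decide +kernel))
                 (CovZ.n1 (1380, 980) (by decide +kernel)
                  (CovZ.badM (by decide +kernel))
                  (CovZ.badM (by decide +kernel)))))))
             (CovZ.n1 (1520, 1040) (by decide +kernel)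
              (CovZ.n2 (1520, 960) (by decide +kernel)
               (CovZ.n2 (1480, 1000) (by decide +kernel)
                (CovZ.n2 (1520, 1000) (by decide +kernel)
                 (CovZ.n2 (1500, 980) (by decide +kernel)
                  (CovZ.badM (by decide +kernel))
                  (CovZ.n1 (1520, 980) (by decide +kernel)
                   (CovZ.leaf K2_ok TF_l11825 _)
                   (CovZ.badM (by decide +kernel))))
                 (CovZ.badM (by decide +kernel)))
                (CovZ.n1 (1480, 960) (by decide +kernel)
                 (CovZ.n2 (1460, 980) (by decide +kernel)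
                  (CovZ.n2 (1480, 980) (by decide +kernel)
                   (CovZ.leaf K2_ok TF_l11826 _)
                   (CovZ.badM (by decide +kernel)))
                  (CovZ.leaf K2_ok TF_l11827 _))
                 (CovZ.n1 (1500, 980) (by decide +kernel)
                  (CovZ.leaf K2_ok TF_l11828 _)
                  (CovZ.leaf K2_ok TF_l11829 _))))
               (CovZ.n1 (1560, 1000) (by decide +kernel)
                (CovZ.n2 (1560, 960) (by decide +kernel)
                 (CovZ.n2 (1540, 980) (by decide +kernel)
                  (CovZ.n2 (1560, 980) (by decide +kernel)
                   (CovZ.leaf K2_ok TF_l11830 _)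
                   (CovZ.badM (by decide +kernel)))
                  (CovZ.leaf K2_ok TF_l11831 _))
                 (CovZ.n1 (1580, 980) (by decide +kernel)
                  (CovZ.leaf K2_ok TF_l11832 _)
                  (CovZ.leaf K2_ok TF_l11833 _)))
                (CovZ.n1 (1520, 1000) (by decide +kernel)
                 (CovZ.badM (by decide +kernel))
                 (CovZ.n1 (1540, 980) (by decide +kernel)
                  (CovZ.leaf K2_ok TF_l11834 _)
                  (CovZ.badM (by decide +kernel))))))
              (CovZ.n1 (1440, 1040) (by decide +kernel)
               (CovZ.badM (by decide +kernel))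
               (CovZ.n1 (1480, 1000) (by decide +kernel)
                (CovZ.n2 (1440, 1000) (by decide +kernel)
                 (CovZ.badM (by decide +kernel))
                 (CovZ.n1 (1460, 980) (by decide +kernel)
                  (CovZ.leaf K2_ok TF_l11835 _)
                  (CovZ.badM (by decide +kernel))))
                (CovZ.badM (by decide +kernel))))))
            (CovZ.n1 (1280, 1120) (by decide +kernel)
             (CovZ.badM (by decide +kernel))
             (CovZ.n1 (1360, 1040) (by decide +kernel)
              (CovZ.badM (by decide +kernel))
              (CovZ.badM (by decide +kernel))))))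
          (CovZ.n1 (1440, 800) (by decide +kernel)
           (CovZ.n2 (1280, 800) (by decide +kernel)
            (CovZ.n2 (1360, 880) (by decide +kernel)
             (CovZ.n2 (1360, 800) (by decide +kernel)
              (CovZ.n2 (1320, 840) (by decide +kernel)
               (CovZ.leaf K2_ok TF_l2954 _)
               (CovZ.leaf K2_ok TF_l2955 _))
              (CovZ.leaf K2_ok TF_l2956 _))
             (CovZ.n1 (1280, 880) (by decide +kernel)
              (CovZ.subM 48375929889220847430799876 (by decide +kernel)
               (CovZ.n2 (1320, 920) (by decide +kernel)
                (CovZ.n2 (1320, 880) (by decide +kernel)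
                 (CovZ.leaf K2_ok TF_l2957 _)
                 (CovZ.leaf K2_ok TF_l2958 _))
                (CovZ.n1 (1280, 920) (by decide +kernel)
                 (CovZ.n2 (1300, 940) (by decide +kernel)
                  (CovZ.leaf K2_ok TF_l11836 _)
                  (CovZ.leaf K2_ok TF_l11837 _))
                 (CovZ.leaf K2_ok TF_l2959 _))))
              (CovZ.n1 (1320, 840) (by decide +kernel)
               (CovZ.leaf K2_ok TF_l2960 _)
               (CovZ.n1 (1320, 880) (by decide +kernel)
                (CovZ.leaf K2_ok TF_l2961 _)
                (CovZ.leaf K2_ok TF_l2962 _)))))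
            (CovZ.n1 (1360, 720) (by decide +kernel)
             (CovZ.leaf K2_ok TF_l2963 _)
             (CovZ.n1 (1360, 800) (by decide +kernel)
              (CovZ.n2 (1400, 760) (by decide +kernel)
               (CovZ.leaf K2_ok TF_l2964 _)
               (CovZ.leaf K2_ok TF_l2965 _))
              (CovZ.leaf K2_ok TF_l2966 _))))
           (CovZ.subM 48385375775108125687939588 (by decide +kernel)
            (CovZ.n1 (1440, 960) (by decide +kernel)
             (CovZ.n2 (1520, 880) (by decide +kernel)
              (CovZ.n2 (1440, 880) (by decide +kernel)
               (CovZ.n2 (1480, 920) (by decide +kernel)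
                (CovZ.n2 (1480, 880) (by decide +kernel)
                 (CovZ.leaf K2_ok TF_l2967 _)
                 (CovZ.leaf K2_ok TF_l2968 _))
                (CovZ.n1 (1440, 920) (by decide +kernel)
                 (CovZ.leaf K2_ok TF_l11838 _)
                 (CovZ.leaf K2_ok TF_l2969 _)))
               (CovZ.n1 (1480, 840) (by decide +kernel)
                (CovZ.leaf K2_ok TF_l2970 _)
                (CovZ.n1 (1480, 880) (by decide +kernel)
                 (CovZ.leaf K2_ok TF_l2971 _)
                 (CovZ.leaf K2_ok TF_l2972 _))))
              (CovZ.n1 (1520, 960) (by decide +kernel)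
               (CovZ.n2 (1560, 920) (by decide +kernel)
                (CovZ.n2 (1520, 920) (by decide +kernel)
                 (CovZ.leaf K2_ok TF_l11839 _)
                 (CovZ.leaf K2_ok TF_l2973 _))
                (CovZ.subM 18897104072730489258496 (by decide +kernel)
                 (CovZ.n1 (1560, 960) (by decide +kernel)
                  (CovZ.n2 (1580, 940) (by decide +kernel)
                   (CovZ.leaf K2_ok TF_l11840 _)
                   (CovZ.n1 (1580, 960) (by decide +kernel)
                    (CovZ.leaf K2_ok TF_l11841 _)
                    (CovZ.leaf K2_ok TF_l11842 _)))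
                  (CovZ.n1 (1540, 940) (by decide +kernel)
                   (CovZ.n2 (1540, 960) (by decide +kernel)
                    (CovZ.leaf K2_ok TF_l11843 _)
                    (CovZ.leaf K2_ok TF_l11844 _))
                   (CovZ.leaf K2_ok TF_l11845 _)))))
               (CovZ.n1 (1480, 920) (by decide +kernel)
                (CovZ.n2 (1480, 960) (by decide +kernel)
                 (CovZ.n2 (1500, 940) (by decide +kernel)
                  (CovZ.leaf K2_ok TF_l11846 _)
                  (CovZ.n1 (1500, 960) (by decide +kernel)
                   (CovZ.leaf K2_ok TF_l11847 _)
                   (CovZ.leaf K2_ok TF_l11848 _)))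
                 (CovZ.n1 (1460, 940) (by decide +kernel)
                  (CovZ.n2 (1460, 960) (by decide +kernel)
                   (CovZ.leaf K2_ok TF_l11849 _)
                   (CovZ.leaf K2_ok TF_l11850 _))
                  (CovZ.leaf K2_ok TF_l11851 _)))
                (CovZ.n1 (1520, 920) (by decide +kernel)
                 (CovZ.leaf K2_ok TF_l2974 _)
                 (CovZ.n1 (1500, 940) (by decide +kernel)
                  (CovZ.leaf K2_ok TF_l11852 _)
                  (CovZ.leaf K2_ok TF_l11853 _))))))
             (CovZ.n1 (1360, 880) (by decide +kernel)
              (CovZ.n2 (1360, 960) (by decide +kernel)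
               (CovZ.n2 (1400, 920) (by decide +kernel)
                (CovZ.n2 (1360, 920) (by decide +kernel)
                 (CovZ.leaf K2_ok TF_l11854 _)
                 (CovZ.leaf K2_ok TF_l2975 _))
                (CovZ.n1 (1400, 960) (by decide +kernel)
                 (CovZ.n2 (1420, 940) (by decide +kernel)
                  (CovZ.leaf K2_ok TF_l11855 _)
                  (CovZ.n1 (1420, 960) (by decide +kernel)
                   (CovZ.leaf K2_ok TF_l11856 _)
                   (CovZ.leaf K2_ok TF_l11857 _)))
                 (CovZ.n1 (1380, 940) (by decide +kernel)
                  (CovZ.n2 (1380, 960) (by decide +kernel)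
                   (CovZ.leaf K2_ok TF_l11858 _)
                   (CovZ.leaf K2_ok TF_l11859 _))
                  (CovZ.n1 (1400, 940) (by decide +kernel)
                   (CovZ.leaf K2_ok TF_l11860 _)
                   (CovZ.leaf K2_ok TF_l11861 _)))))
               (CovZ.n1 (1320, 920) (by decide +kernel)
                (CovZ.n2 (1320, 960) (by decide +kernel)
                 (CovZ.n2 (1340, 940) (by decide +kernel)
                  (CovZ.leaf K2_ok TF_l11862 _)
                  (CovZ.n1 (1340, 960) (by decide +kernel)
                   (CovZ.leaf K2_ok TF_l11863 _)
                   (CovZ.leaf K2_ok TF_l11864 _)))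
                 (CovZ.n1 (1300, 940) (by decide +kernel)
                  (CovZ.n2 (1300, 960) (by decide +kernel)
                   (CovZ.leaf K2_ok TF_l11865 _)
                   (CovZ.leaf K2_ok TF_l11866 _))
                  (CovZ.n1 (1320, 940) (by decide +kernel)
                   (CovZ.leaf K2_ok TF_l11867 _)
                   (CovZ.leaf K2_ok TF_l11868 _))))
                (CovZ.n1 (1360, 920) (by decide +kernel)
                 (CovZ.leaf K2_ok TF_l2976 _)
                 (CovZ.n1 (1340, 940) (by decide +kernel)
                  (CovZ.leaf K2_ok TF_l11869 _)
                  (CovZ.leaf K2_ok TF_l11870 _)))))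
              (CovZ.n1 (1440, 880) (by decide +kernel)
               (CovZ.n2 (1400, 840) (by decide +kernel)
                (CovZ.n2 (1400, 880) (by decide +kernel)
                 (CovZ.leaf K2_ok TF_l2977 _)
                 (CovZ.leaf K2_ok TF_l2978 _))
                (CovZ.n1 (1440, 840) (by decide +kernel)
                 (CovZ.leaf K2_ok TF_l2979 _)
                 (CovZ.leaf K2_ok TF_l2980 _)))
               (CovZ.n1 (1400, 920) (by decide +kernel)
                (CovZ.n2 (1440, 920) (by decide +kernel)
                 (CovZ.leaf K2_ok TF_l2981 _)
                 (CovZ.n1 (1420, 940) (by decide +kernel)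
                  (CovZ.n2 (1440, 940) (by decide +kernel)
                   (CovZ.leaf K2_ok TF_l11871 _)
                   (CovZ.leaf K2_ok TF_l11872 _))
                  (CovZ.leaf K2_ok TF_l11873 _)))
                (CovZ.n1 (1400, 880) (by decide +kernel)
                 (CovZ.leaf K2_ok TF_l2982 _)
                 (CovZ.leaf K2_ok TF_l2983 _)))))))))

theorem TF_u74 : CovZ TF_M (toL (selN TF_LN 1092829411814169960041110783148683007872996561)) [0, 7, 4, 3] (640, 1280) (1280, 1280) (640, 1920) :=
    (CovZ.n1 (960, 1600) (by decide +kernel)
         (CovZ.subM 379199780660952353654567389286895085494211584 (by decide +kernel)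
          (CovZ.n2 (960, 1280) (by decide +kernel)
           (CovZ.n2 (800, 1440) (by decide +kernel)
            (CovZ.subM 22387857484462383388786805084210008837587968 (by decide +kernel)
             (CovZ.n2 (960, 1440) (by decide +kernel)
              (CovZ.n2 (880, 1360) (by decide +kernel)
               (CovZ.n2 (880, 1440) (by decide +kernel)
                (CovZ.n2 (920, 1400) (by decide +kernel)
                 (CovZ.n2 (880, 1400) (by decide +kernel)
                  (CovZ.leaf K2_ok TF_l11874 _)
                  (CovZ.leaf K2_ok TF_l11875 _))
                 (CovZ.n1 (920, 1440) (by decide +kernel)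
                  (CovZ.n2 (940, 1420) (by decide +kernel)
                   (CovZ.leaf K2_ok TF_l11876 _)
                   (CovZ.n1 (940, 1440) (by decide +kernel)
                    (CovZ.badM (by decide +kernel))
                    (CovZ.leaf K2_ok TF_l11877 _)))
                  (CovZ.n1 (900, 1420) (by decide +kernel)
                   (CovZ.leaf K2_ok TF_l11878 _)
                   (CovZ.leaf K2_ok TF_l11879 _))))
                (CovZ.n1 (840, 1400) (by decide +kernel)
                 (CovZ.n2 (840, 1440) (by decide +kernel)
                  (CovZ.leaf K2_ok TF_l11880 _)
                  (CovZ.leaf K2_ok TF_l11881 _))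
                 (CovZ.n1 (880, 1400) (by decide +kernel)
                  (CovZ.leaf K2_ok TF_l11882 _)
                  (CovZ.leaf K2_ok TF_l11883 _))))
               (CovZ.n1 (960, 1360) (by decide +kernel)
                (CovZ.n2 (920, 1320) (by decide +kernel)
                 (CovZ.n2 (920, 1360) (by decide +kernel)
                  (CovZ.n2 (940, 1340) (by decide +kernel)
                   (CovZ.leaf K2_ok TF_l11884 _)
                   (CovZ.n1 (940, 1360) (by decide +kernel)
                    (CovZ.leaf K2_ok TF_l15813 _)
                    (CovZ.leaf K2_ok TF_l11885 _)))
                  (CovZ.leaf K2_ok TF_l11886 _))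
                 (CovZ.n1 (960, 1320) (by decide +kernel)
                  (CovZ.n2 (940, 1300) (by decide +kernel)
                   (CovZ.n2 (940, 1320) (by decide +kernel)
                    (CovZ.badM (by decide +kernel))
                    (CovZ.leaf K2_ok TF_l11887 _))
                   (CovZ.badM (by decide +kernel)))
                  (CovZ.n1 (940, 1340) (by decide +kernel)
                   (CovZ.n2 (960, 1340) (by decide +kernel)
                    (CovZ.leaf K2_ok TF_l15814 _)
                    (CovZ.leaf K2_ok TF_l15815 _))
                   (CovZ.leaf K2_ok TF_l11888 _))))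
                (CovZ.n1 (920, 1400) (by decide +kernel)
                 (CovZ.subM 87112285931760247251086811561647063171072 (by decide +kernel)
                  (CovZ.n2 (960, 1400) (by decide +kernel)
                   (CovZ.n2 (940, 1380) (by decide +kernel)
                    (CovZ.n2 (940, 1400) (by decide +kernel)
                     (CovZ.badM (by decide +kernel))
                     (CovZ.leaf K2_ok TF_l11889 _))
                    (CovZ.badM (by decide +kernel)))
                   (CovZ.n1 (940, 1420) (by decide +kernel)
                    (CovZ.badM (by decide +kernel))
                    (CovZ.leaf K2_ok TF_l11890 _))))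
                 (CovZ.n1 (920, 1360) (by decide +kernel)
                  (CovZ.leaf K2_ok TF_l11891 _)
                  (CovZ.leaf K2_ok TF_l11892 _)))))
              (CovZ.n1 (880, 1520) (by decide +kernel)
               (CovZ.n2 (960, 1520) (by decide +kernel)
                (CovZ.n2 (920, 1480) (by decide +kernel)
                 (CovZ.n2 (920, 1520) (by decide +kernel)
                  (CovZ.n2 (940, 1500) (by decide +kernel)
                   (CovZ.leaf K2_ok TF_l11893 _)
                   (CovZ.leaf K2_ok TF_l11894 _))
                  (CovZ.leaf K2_ok TF_l11895 _))
                 (CovZ.subM 87112285931760247251086811561647063171072 (by decide +kernel)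
                  (CovZ.n1 (960, 1480) (by decide +kernel)
                   (CovZ.n2 (940, 1460) (by decide +kernel)
                    (CovZ.leaf K2_ok TF_l11896 _)
                    (CovZ.badM (by decide +kernel)))
                   (CovZ.n1 (940, 1500) (by decide +kernel)
                    (CovZ.badM (by decide +kernel))
                    (CovZ.leaf K2_ok TF_l11897 _)))))
                (CovZ.n1 (920, 1560) (by decide +kernel)
                 (CovZ.n2 (960, 1560) (by decide +kernel)
                  (CovZ.n2 (940, 1540) (by decide +kernel)
                   (CovZ.leaf K2_ok TF_l11898 _)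
                   (CovZ.leaf K2_ok TF_l11899 _))
                  (CovZ.n1 (940, 1580) (by decide +kernel)
                   (CovZ.n2 (960, 1580) (by decide +kernel)
                    (CovZ.leaf K2_ok TF_l11900 _)
                    (CovZ.leaf K2_ok TF_l11901 _))
                   (CovZ.leaf K2_ok TF_l11902 _)))
                 (CovZ.n1 (920, 1520) (by decide +kernel)
                  (CovZ.leaf K2_ok TF_l11903 _)
                  (CovZ.leaf K2_ok TF_l11904 _))))
               (CovZ.n1 (880, 1440) (by decide +kernel)
                (CovZ.n2 (840, 1480) (by decide +kernel)
                 (CovZ.n2 (880, 1480) (by decide +kernel)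
                  (CovZ.leaf K2_ok TF_l11905 _)
                  (CovZ.leaf K2_ok TF_l11906 _))
                 (CovZ.leaf K2_ok TF_l11907 _))
                (CovZ.n1 (920, 1480) (by decide +kernel)
                 (CovZ.n2 (920, 1440) (by decide +kernel)
                  (CovZ.leaf K2_ok TF_l11908 _)
                  (CovZ.leaf K2_ok TF_l11909 _))
                 (CovZ.n1 (880, 1480) (by decide +kernel)
                  (CovZ.leaf K2_ok TF_l11910 _)
                  (CovZ.leaf K2_ok TF_l11911 _)))))))
            (CovZ.n1 (800, 1280) (by decide +kernel)
             (CovZ.n2 (720, 1360) (by decide +kernel)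
              (CovZ.n2 (800, 1360) (by decide +kernel)
               (CovZ.leaf K2_ok TF_l3012 _)
               (CovZ.n1 (760, 1400) (by decide +kernel)
                (CovZ.leaf K2_ok TF_l11912 _)
                (CovZ.leaf K2_ok TF_l3013 _)))
              (CovZ.leaf K2_ok TF_l3014 _))
             (CovZ.n1 (880, 1360) (by decide +kernel)
              (CovZ.n2 (880, 1280) (by decide +kernel)
               (CovZ.n2 (840, 1320) (by decide +kernel)
                (CovZ.n2 (880, 1320) (by decide +kernel)
                 (CovZ.leaf K2_ok TF_l11913 _)
                 (CovZ.leaf K2_ok TF_l11914 _))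
                (CovZ.leaf K2_ok TF_l11915 _))
               (CovZ.subM 22387857484462383388786805084210008569152512 (by decide +kernel)
                (CovZ.n1 (920, 1320) (by decide +kernel)
                 (CovZ.n2 (920, 1280) (by decide +kernel)
                  (CovZ.n2 (900, 1300) (by decide +kernel)
                   (CovZ.leaf K2_ok TF_l11916 _)
                   (CovZ.leaf K2_ok TF_l11917 _))
                  (CovZ.n1 (940, 1300) (by decide +kernel)
                   (CovZ.leaf K2_ok TF_l11918 _)
                   (CovZ.leaf K2_ok TF_l11919 _)))
                 (CovZ.n1 (880, 1320) (by decide +kernel)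
                  (CovZ.leaf K2_ok TF_l11920 _)
                  (CovZ.n1 (900, 1300) (by decide +kernel)
                   (CovZ.leaf K2_ok TF_l11921 _)
                   (CovZ.leaf K2_ok TF_l11922 _))))))
              (CovZ.n1 (800, 1360) (by decide +kernel)
               (CovZ.leaf K2_ok TF_l11923 _)
               (CovZ.n1 (840, 1320) (by decide +kernel)
                (CovZ.leaf K2_ok TF_l11924 _)
                (CovZ.leaf K2_ok TF_l11925 _))))))
           (CovZ.subM 22300745198530623141535718272648361505980416 (by decide +kernel)
            (CovZ.n1 (1120, 1440) (by decide +kernel)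
             (CovZ.badM (by decide +kernel))
             (CovZ.n1 (960, 1440) (by decide +kernel)
              (CovZ.badM (by decide +kernel))
              (CovZ.n1 (1040, 1360) (by decide +kernel)
               (CovZ.n2 (960, 1360) (by decide +kernel)
                (CovZ.badM (by decide +kernel))
                (CovZ.n1 (1000, 1320) (by decide +kernel)
                 (CovZ.n2 (960, 1320) (by decide +kernel)
                  (CovZ.n2 (980, 1340) (by decide +kernel)
                   (CovZ.badM (by decide +kernel))
                   (CovZ.n1 (960, 1340) (by decide +kernel)
                    (CovZ.leaf K2_ok TF_l15816 _)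
                    (CovZ.badM (by decide +kernel))))
                  (CovZ.badM (by decide +kernel)))
                 (CovZ.badM (by decide +kernel))))
               (CovZ.badM (by decide +kernel))))))))
         (CovZ.n1 (640, 1600) (by decide +kernel)
          (CovZ.subM 736011703837442333821450104091999776356172929 (by decide +kernel)
           (CovZ.n2 (800, 1760) (by decide +kernel)
            (CovZ.n2 (800, 1600) (by decide +kernel)
             (CovZ.n2 (720, 1680) (by decide +kernel)
              (CovZ.n2 (800, 1680) (by decide +kernel)
               (CovZ.leaf K2_ok TF_l3015 _)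
               (CovZ.leaf K2_ok TF_l3016 _))
              (CovZ.leaf K2_ok TF_l3017 _))
             (CovZ.subM 87112285931760247251086811561647331607680 (by decide +kernel)
              (CovZ.n1 (880, 1680) (by decide +kernel)
               (CovZ.n2 (880, 1600) (by decide +kernel)
                (CovZ.n2 (840, 1640) (by decide +kernel)
                 (CovZ.n2 (880, 1640) (by decide +kernel)
                  (CovZ.leaf K2_ok TF_l11926 _)
                  (CovZ.leaf K2_ok TF_l11927 _))
                 (CovZ.leaf K2_ok TF_l11928 _))
                (CovZ.n1 (920, 1640) (by decide +kernel)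
                 (CovZ.leaf K2_ok TF_l11929 _)
                 (CovZ.leaf K2_ok TF_l11930 _)))
               (CovZ.n1 (800, 1680) (by decide +kernel)
                (CovZ.leaf K2_ok TF_l11931 _)
                (CovZ.n1 (840, 1640) (by decide +kernel)
                 (CovZ.leaf K2_ok TF_l11932 _)
                 (CovZ.leaf K2_ok TF_l11933 _))))))
            (CovZ.n1 (640, 1760) (by decide +kernel)
             (CovZ.leaf K2_ok TF_l3018 _)
             (CovZ.n1 (720, 1680) (by decide +kernel)
              (CovZ.leaf K2_ok TF_l3019 _)
              (CovZ.n1 (720, 1760) (by decide +kernel)
               (CovZ.leaf K2_ok TF_l3020 _)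
               (CovZ.leaf K2_ok TF_l3021 _))))))
          (CovZ.subM 379199780660952353654567389286895085494211712 (by decide +kernel)
           (CovZ.n1 (800, 1440) (by decide +kernel)
            (CovZ.n2 (640, 1440) (by decide +kernel)
             (CovZ.n2 (720, 1520) (by decide +kernel)
              (CovZ.leaf K2_ok TF_l3022 _)
              (CovZ.leaf K2_ok TF_l3023 _))
             (CovZ.n1 (720, 1360) (by decide +kernel)
              (CovZ.leaf K2_ok TF_l3024 _)
              (CovZ.n1 (720, 1440) (by decide +kernel)
               (CovZ.n2 (760, 1400) (by decide +kernel)
                (CovZ.leaf K2_ok TF_l3025 _)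
                (CovZ.leaf K2_ok TF_l11934 _))
               (CovZ.leaf K2_ok TF_l3026 _))))
            (CovZ.subM 22387857484462383388786805084210008837588096 (by decide +kernel)
             (CovZ.n1 (800, 1600) (by decide +kernel)
              (CovZ.n2 (880, 1520) (by decide +kernel)
               (CovZ.n2 (800, 1520) (by decide +kernel)
                (CovZ.leaf K2_ok TF_l11935 _)
                (CovZ.n1 (840, 1480) (by decide +kernel)
                 (CovZ.leaf K2_ok TF_l11936 _)
                 (CovZ.n1 (840, 1520) (by decide +kernel)
                  (CovZ.leaf K2_ok TF_l11937 _)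
                  (CovZ.leaf K2_ok TF_l11938 _))))
               (CovZ.n1 (880, 1600) (by decide +kernel)
                (CovZ.n2 (920, 1560) (by decide +kernel)
                 (CovZ.n2 (880, 1560) (by decide +kernel)
                  (CovZ.leaf K2_ok TF_l11939 _)
                  (CovZ.leaf K2_ok TF_l11940 _))
                 (CovZ.n1 (920, 1600) (by decide +kernel)
                  (CovZ.n2 (940, 1580) (by decide +kernel)
                   (CovZ.leaf K2_ok TF_l11941 _)
                   (CovZ.leaf K2_ok TF_l11942 _))
                  (CovZ.n1 (900, 1580) (by decide +kernel)
                   (CovZ.leaf K2_ok TF_l11943 _)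
                   (CovZ.leaf K2_ok TF_l11944 _))))
                (CovZ.n1 (840, 1560) (by decide +kernel)
                 (CovZ.n2 (840, 1600) (by decide +kernel)
                  (CovZ.leaf K2_ok TF_l11945 _)
                  (CovZ.leaf K2_ok TF_l11946 _))
                 (CovZ.n1 (880, 1560) (by decide +kernel)
                  (CovZ.leaf K2_ok TF_l11947 _)
                  (CovZ.leaf K2_ok TF_l11948 _)))))
              (CovZ.n1 (720, 1520) (by decide +kernel)
               (CovZ.n2 (720, 1600) (by decide +kernel)
                (CovZ.n2 (760, 1560) (by decide +kernel)
                 (CovZ.leaf K2_ok TF_l3027 _)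
                 (CovZ.leaf K2_ok TF_l3028 _))
                (CovZ.leaf K2_ok TF_l3029 _))
               (CovZ.n1 (800, 1520) (by decide +kernel)
                (CovZ.n2 (760, 1480) (by decide +kernel)
                 (CovZ.leaf K2_ok TF_l11949 _)
                 (CovZ.leaf K2_ok TF_l11950 _))
                (CovZ.n1 (760, 1560) (by decide +kernel)
                 (CovZ.leaf K2_ok TF_l11951 _)
                 (CovZ.leaf K2_ok TF_l11952 _))))))))))

theorem TF_u75 : CovZ TF_M (toL (selN TF_LN 48205941237036466441067272859282524716508059349)) [0, 7, 4, 3] (0, 2560) (0, 1280) (1280, 1280) :=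
    (CovZ.subM 1092829411814169960041110783148683007872996561 (by decide +kernel)
      (CovZ.n2 (640, 1920) (by decide +kernel)
       (CovZ.n2 (640, 1280) (by decide +kernel)
        (CovZ.n2 (320, 1600) (by decide +kernel)
         (CovZ.n2 (640, 1600) (by decide +kernel)
          (CovZ.n2 (480, 1440) (by decide +kernel)
           (CovZ.n2 (480, 1600) (by decide +kernel)
            (CovZ.n2 (560, 1520) (by decide +kernel)
             (CovZ.leaf K2_ok TF_l2999 _)
             (CovZ.leaf K2_ok TF_l3000 _))
            (CovZ.leaf K2_ok TF_l3001 _))
           (CovZ.subM 379199780660952353654567389286895085494211712 (by decide +kernel)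
            (CovZ.n1 (640, 1440) (by decide +kernel)
             (CovZ.n2 (560, 1360) (by decide +kernel)
              (CovZ.leaf K2_ok TF_l3002 _)
              (CovZ.n1 (640, 1360) (by decide +kernel)
               (CovZ.leaf K2_ok TF_l3003 _)
               (CovZ.leaf K2_ok TF_l3004 _)))
             (CovZ.n1 (560, 1520) (by decide +kernel)
              (CovZ.leaf K2_ok TF_l3005 _)
              (CovZ.leaf K2_ok TF_l3006 _)))))
          (CovZ.n1 (480, 1760) (by decide +kernel)
           (CovZ.n2 (640, 1760) (by decide +kernel)
            (CovZ.n2 (560, 1680) (by decide +kernel)
             (CovZ.leaf K2_ok TF_l3007 _)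
             (CovZ.leaf K2_ok TF_l3008 _))
            (CovZ.leaf K2_ok TF_l3009 _))
           (CovZ.leaf K2_ok TF_l3010 _)))
         (CovZ.leaf K2_ok TF_l3011 _))
        TF_u74)
       (CovZ.n1 (0, 1920) (by decide +kernel)
        (CovZ.leaf K2_ok TF_l3030 _)
        (CovZ.n1 (320, 1600) (by decide +kernel)
         (CovZ.n2 (0, 1600) (by decide +kernel)
          (CovZ.leaf K2_ok TF_l3031 _)
          (CovZ.leaf K2_ok TF_l3032 _))
         (CovZ.n1 (320, 1920) (by decide +kernel)
          (CovZ.n2 (480, 1760) (by decide +kernel)
           (CovZ.leaf K2_ok TF_l3033 _)
           (CovZ.leaf K2_ok TF_l3034 _))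
          (CovZ.leaf K2_ok TF_l3035 _))))))

end Pool.Agent.TET
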