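import Pool.Agent.Helper38_TET.TF_M
import Pool.Agent.Helper38_TET.TF_L
import Pool.Agent.Helper38_TET.TF_9
import Pool.Agent.Helper38_TET.TF_20
import Pool.Agent.Helper38_TET.TF_21
import Pool.Agent.Helper38_TET.TF_22
import Pool.Agent.Helper38_TET.TF_52
import Pool.Agent.Helper38_TET.TF_53
import Pool.Agent.Helper38_TET.TF_70
import Pool.Agent.Helper38_TET.TF_80
import Pool.Agent.Helper38_TET.TF_81
import Pool.Agent.Helper38_TET.TF_82
import Pool.Agent.Helper38_TET.TF_104
import Pool.Agent.Helper38_TET.TF_105
import Pool.Agent.Helper38_TET.TF_107

/-!
# MP_c7c9bf_co: certificates, family TF
-/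

set_option autoImplicit false
set_option maxRecDepth 100000

namespace Pool.Agent.TET

theorem TF_u76 : CovZ TF_M (toL (selN TF_LN 48205941237036466441067272859282524716508059349)) [0, 7, 4, 3] (0, 1280) (0, 0) (1280, 1280) :=
    (CovZ.n1 (640, 640) (by decide +kernel)
      (CovZ.subM 2787593315969827377310308319786399818847876 (by decide +kernel)
       (CovZ.n2 (0, 640) (by decide +kernel)
        (CovZ.n2 (320, 960) (by decide +kernel)
         (CovZ.n2 (320, 640) (by decide +kernel)
          (CovZ.n2 (160, 800) (by decide +kernel)
           (CovZ.n2 (320, 800) (by decide +kernel)
            (CovZ.leaf K2_ok TF_l3036 _)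
            (CovZ.leaf K2_ok TF_l3037 _))
           (CovZ.leaf K2_ok TF_l3038 _))
          (CovZ.n1 (480, 800) (by decide +kernel)
           (CovZ.n2 (480, 640) (by decide +kernel)
            (CovZ.leaf K2_ok TF_l3039 _)
            (CovZ.leaf K2_ok TF_l3040 _))
           (CovZ.n1 (320, 800) (by decide +kernel)
            (CovZ.leaf K2_ok TF_l3041 _)
            (CovZ.leaf K2_ok TF_l3042 _))))
         (CovZ.n1 (0, 960) (by decide +kernel)
          (CovZ.leaf K2_ok TF_l3043 _)
          (CovZ.n1 (160, 800) (by decide +kernel)
           (CovZ.leaf K2_ok TF_l3044 _)
           (CovZ.leaf K2_ok TF_l3045 _))))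
        (CovZ.n1 (320, 320) (by decide +kernel)
         (CovZ.n2 (0, 320) (by decide +kernel)
          (CovZ.leaf K2_ok TF_l3046 _)
          (CovZ.n1 (160, 160) (by decide +kernel)
           (CovZ.leaf K2_ok TF_l3047 _)
           (CovZ.leaf K2_ok TF_l3048 _)))
         (CovZ.n1 (320, 640) (by decide +kernel)
          (CovZ.n2 (480, 480) (by decide +kernel)
           (CovZ.leaf K2_ok TF_l3049 _)
           (CovZ.n1 (480, 640) (by decide +kernel)
            (CovZ.leaf K2_ok TF_l3050 _)
            (CovZ.leaf K2_ok TF_l3051 _)))
          (CovZ.n1 (160, 480) (by decide +kernel)
           (CovZ.leaf K2_ok TF_l3052 _)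
           (CovZ.n1 (320, 480) (by decide +kernel)
            (CovZ.leaf K2_ok TF_l3053 _)
            (CovZ.leaf K2_ok TF_l3054 _)))))))
      (CovZ.subM 379199780827105863040892491200350727480546948 (by decide +kernel)
       (CovZ.n1 (640, 1280) (by decide +kernel)
        (CovZ.n2 (960, 960) (by decide +kernel)
         (CovZ.n2 (640, 960) (by decide +kernel)
          (CovZ.subM 379199780660952353664238795844410253217371140 (by decide +kernel)
           (CovZ.n2 (800, 1120) (by decide +kernel)
            (CovZ.n2 (800, 960) (by decide +kernel)
             (CovZ.n2 (720, 1040) (by decide +kernel)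
              (CovZ.leaf K2_ok TF_l3055 _)
              (CovZ.leaf K2_ok TF_l3056 _))
             (CovZ.leaf K2_ok TF_l3057 _))
            (CovZ.n1 (640, 1120) (by decide +kernel)
             (CovZ.leaf K2_ok TF_l3058 _)
             (CovZ.n1 (720, 1040) (by decide +kernel)
              (CovZ.leaf K2_ok TF_l3059 _)
              (CovZ.leaf K2_ok TF_l3060 _)))))
          (CovZ.n1 (800, 800) (by decide +kernel)
           (CovZ.n2 (640, 800) (by decide +kernel)
            (CovZ.leaf K2_ok TF_l3061 _)
            (CovZ.leaf K2_ok TF_l3062 _))
           (CovZ.n1 (800, 960) (by decide +kernel)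
            (CovZ.n2 (880, 880) (by decide +kernel)
             (CovZ.leaf K2_ok TF_l3063 _)
             (CovZ.leaf K2_ok TF_l3064 _))
            (CovZ.leaf K2_ok TF_l3065 _))))
         (CovZ.subM 379199780660952353664238795844410253217371140 (by decide +kernel)
          (CovZ.n1 (960, 1280) (by decide +kernel)
           (CovZ.n2 (1120, 1120) (by decide +kernel)
            (CovZ.n2 (960, 1120) (by decide +kernel)
             (CovZ.subM 356811923176489970265780584202685076656619520 (by decide +kernel)
              (CovZ.n2 (1040, 1200) (by decide +kernel)
               (CovZ.n2 (1040, 1120) (by decide +kernel)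
                (CovZ.n2 (1000, 1160) (by decide +kernel)
                 (CovZ.badM (by decide +kernel))
                 (CovZ.n1 (1000, 1120) (by decide +kernel)
                  (CovZ.n2 (980, 1140) (by decide +kernel)
                   (CovZ.badM (by decide +kernel))
                   (CovZ.leaf K2_ok TF_l11953 _))
                  (CovZ.badM (by decide +kernel))))
                (CovZ.badM (by decide +kernel)))
               (CovZ.n1 (960, 1200) (by decide +kernel)
                (CovZ.badM (by decide +kernel))
                (CovZ.n1 (1000, 1160) (by decide +kernel)
                 (CovZ.n2 (960, 1160) (by decide +kernel)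
                  (CovZ.badM (by decide +kernel))
                  (CovZ.n1 (980, 1140) (by decide +kernel)
                   (CovZ.leaf K2_ok TF_l11954 _)
                   (CovZ.badM (by decide +kernel))))
                 (CovZ.badM (by decide +kernel))))))
             (CovZ.n1 (1040, 1040) (by decide +kernel)
              (CovZ.n2 (960, 1040) (by decide +kernel)
               (CovZ.leaf K2_ok TF_l11955 _)
               (CovZ.n1 (1000, 1000) (by decide +kernel)
                (CovZ.n2 (960, 1000) (by decide +kernel)
                 (CovZ.leaf K2_ok TF_l11956 _)
                 (CovZ.leaf K2_ok TF_l3066 _))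
                (CovZ.subM 356811923176489970275451990760165060007694336 (by decide +kernel)
                 (CovZ.n1 (1000, 1040) (by decide +kernel)
                  (CovZ.n2 (1020, 1020) (by decide +kernel)
                   (CovZ.leaf K2_ok TF_l11957 _)
                   (CovZ.n1 (1020, 1040) (by decide +kernel)
                    (CovZ.leaf K2_ok TF_l11958 _)
                    (CovZ.leaf K2_ok TF_l11959 _)))
                  (CovZ.n1 (980, 1020) (by decide +kernel)
                   (CovZ.leaf K2_ok TF_l11960 _)
                   (CovZ.leaf K2_ok TF_l11961 _))))))
              (CovZ.subM 356811923176489970265780584203248026610044928 (by decide +kernel)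
               (CovZ.n1 (1040, 1120) (by decide +kernel)
                (CovZ.n2 (1080, 1080) (by decide +kernel)
                 (CovZ.n2 (1040, 1080) (by decide +kernel)
                  (CovZ.badM (by decide +kernel))
                  (CovZ.n1 (1060, 1060) (by decide +kernel)
                   (CovZ.leaf K2_ok TF_l11962 _)
                   (CovZ.badM (by decide +kernel))))
                 (CovZ.badM (by decide +kernel)))
                (CovZ.leaf K2_ok TF_l11963 _)))))
            (CovZ.badM (by decide +kernel)))
           (CovZ.n1 (800, 1120) (by decide +kernel)
            (CovZ.n2 (800, 1280) (by decide +kernel)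
             (CovZ.n2 (880, 1200) (by decide +kernel)
              (CovZ.n2 (800, 1200) (by decide +kernel)
               (CovZ.leaf K2_ok TF_l3067 _)
               (CovZ.n1 (840, 1160) (by decide +kernel)
                (CovZ.leaf K2_ok TF_l3068 _)
                (CovZ.n1 (840, 1200) (by decide +kernel)
                 (CovZ.leaf K2_ok TF_l3069 _)
                 (CovZ.leaf K2_ok TF_l3070 _))))
              (CovZ.n1 (880, 1280) (by decide +kernel)
               (CovZ.subM 22387857484462383389995896924521301130085376 (by decide +kernel)
                (CovZ.n2 (920, 1240) (by decide +kernel)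
                 (CovZ.n2 (880, 1240) (by decide +kernel)
                  (CovZ.leaf K2_ok TF_l11964 _)
                  (CovZ.n1 (900, 1220) (by decide +kernel)
                   (CovZ.leaf K2_ok TF_l11965 _)
                   (CovZ.leaf K2_ok TF_l11966 _)))
                 (CovZ.subM 22387857484462383388786805084210008569152512 (by decide +kernel)
                  (CovZ.n1 (920, 1280) (by decide +kernel)
                   (CovZ.n2 (940, 1260) (by decide +kernel)
                    (CovZ.leaf K2_ok TF_l11967 _)
                    (CovZ.n1 (940, 1280) (by decide +kernel)
                     (CovZ.badM (by decide +kernel))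
                     (CovZ.leaf K2_ok TF_l11968 _)))
                   (CovZ.leaf K2_ok TF_l11969 _)))))
               (CovZ.leaf K2_ok TF_l11970 _)))
             (CovZ.n1 (720, 1200) (by decide +kernel)
              (CovZ.n2 (720, 1280) (by decide +kernel)
               (CovZ.n2 (760, 1240) (by decide +kernel)
                (CovZ.leaf K2_ok TF_l3071 _)
                (CovZ.leaf K2_ok TF_l3072 _))
               (CovZ.leaf K2_ok TF_l3073 _))
              (CovZ.n1 (800, 1200) (by decide +kernel)
               (CovZ.leaf K2_ok TF_l3074 _)
               (CovZ.n1 (760, 1240) (by decide +kernel)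
                (CovZ.leaf K2_ok TF_l3075 _)
                (CovZ.leaf K2_ok TF_l3076 _)))))
            (CovZ.n1 (960, 1120) (by decide +kernel)
             (CovZ.n2 (880, 1040) (by decide +kernel)
              (CovZ.n2 (880, 1120) (by decide +kernel)
               (CovZ.n2 (920, 1080) (by decide +kernel)
                (CovZ.n2 (880, 1080) (by decide +kernel)
                 (CovZ.leaf K2_ok TF_l3077 _)
                 (CovZ.leaf K2_ok TF_l3078 _))
                (CovZ.n1 (920, 1120) (by decide +kernel)
                 (CovZ.n2 (940, 1100) (by decide +kernel)
                  (CovZ.leaf K2_ok TF_l11971 _)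
                  (CovZ.leaf K2_ok TF_l11972 _))
                 (CovZ.leaf K2_ok TF_l3079 _)))
               (CovZ.leaf K2_ok TF_l3080 _))
              (CovZ.n1 (960, 1040) (by decide +kernel)
               (CovZ.leaf K2_ok TF_l3081 _)
               (CovZ.n1 (920, 1080) (by decide +kernel)
                (CovZ.subM 356899035462421730512427208102750559272177664 (by decide +kernel)
                 (CovZ.n2 (960, 1080) (by decide +kernel)
                  (CovZ.n2 (940, 1060) (by decide +kernel)
                   (CovZ.leaf K2_ok TF_l11973 _)
                   (CovZ.leaf K2_ok TF_l11974 _))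
                  (CovZ.n1 (940, 1100) (by decide +kernel)
                   (CovZ.leaf K2_ok TF_l11975 _)
                   (CovZ.leaf K2_ok TF_l11976 _))))
                (CovZ.n1 (920, 1040) (by decide +kernel)
                 (CovZ.leaf K2_ok TF_l3082 _)
                 (CovZ.leaf K2_ok TF_l3083 _)))))
             (CovZ.n1 (880, 1200) (by decide +kernel)
              (CovZ.subM 356899035462421730513031671014246723719791616 (by decide +kernel)
               (CovZ.n2 (960, 1200) (by decide +kernel)
                (CovZ.leaf K2_ok TF_l11977 _)
                (CovZ.n1 (920, 1240) (by decide +kernel)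
                 (CovZ.subM 87112285931760246646623901754332475817984 (by decide +kernel)
                  (CovZ.n2 (960, 1240) (by decide +kernel)
                   (CovZ.n2 (940, 1220) (by decide +kernel)
                    (CovZ.n2 (940, 1240) (by decide +kernel)
                     (CovZ.badM (by decide +kernel))
                     (CovZ.leaf K2_ok TF_l11978 _))
                    (CovZ.badM (by decide +kernel)))
                   (CovZ.n1 (940, 1260) (by decide +kernel)
                    (CovZ.badM (by decide +kernel))
                    (CovZ.leaf K2_ok TF_l11979 _))))
                 (CovZ.n1 (920, 1200) (by decide +kernel)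
                  (CovZ.n2 (900, 1220) (by decide +kernel)
                   (CovZ.leaf K2_ok TF_l11980 _)
                   (CovZ.leaf K2_ok TF_l11981 _))
                  (CovZ.leaf K2_ok TF_l11982 _)))))
              (CovZ.n1 (880, 1120) (by decide +kernel)
               (CovZ.n2 (840, 1160) (by decide +kernel)
                (CovZ.n2 (880, 1160) (by decide +kernel)
                 (CovZ.leaf K2_ok TF_l3084 _)
                 (CovZ.leaf K2_ok TF_l3085 _))
                (CovZ.leaf K2_ok TF_l3086 _))
               (CovZ.leaf K2_ok TF_l3087 _))))))))
        (CovZ.n1 (320, 960) (by decide +kernel)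
         (CovZ.n2 (320, 1280) (by decide +kernel)
          (CovZ.n2 (480, 1120) (by decide +kernel)
           (CovZ.leaf K2_ok TF_l3088 _)
           (CovZ.n1 (480, 1280) (by decide +kernel)
            (CovZ.n2 (560, 1200) (by decide +kernel)
             (CovZ.leaf K2_ok TF_l3089 _)
             (CovZ.leaf K2_ok TF_l3090 _))
            (CovZ.leaf K2_ok TF_l3091 _)))
          (CovZ.n1 (160, 1120) (by decide +kernel)
           (CovZ.leaf K2_ok TF_l3092 _)
           (CovZ.n1 (320, 1120) (by decide +kernel)
            (CovZ.leaf K2_ok TF_l3093 _)
            (CovZ.leaf K2_ok TF_l3094 _))))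
         (CovZ.n1 (640, 960) (by decide +kernel)
          (CovZ.n2 (480, 800) (by decide +kernel)
           (CovZ.n2 (480, 960) (by decide +kernel)
            (CovZ.n2 (560, 880) (by decide +kernel)
             (CovZ.leaf K2_ok TF_l3095 _)
             (CovZ.leaf K2_ok TF_l3096 _))
            (CovZ.leaf K2_ok TF_l3097 _))
           (CovZ.n1 (640, 800) (by decide +kernel)
            (CovZ.n2 (560, 720) (by decide +kernel)
             (CovZ.leaf K2_ok TF_l3098 _)
             (CovZ.n1 (640, 720) (by decide +kernel)
              (CovZ.leaf K2_ok TF_l3099 _)
              (CovZ.leaf K2_ok TF_l3100 _)))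
            (CovZ.n1 (560, 880) (by decide +kernel)
             (CovZ.n2 (640, 880) (by decide +kernel)
              (CovZ.leaf K2_ok TF_l3101 _)
              (CovZ.leaf K2_ok TF_l3102 _))
             (CovZ.leaf K2_ok TF_l3103 _))))
          (CovZ.subM 379112668375020593417592171944907720555238532 (by decide +kernel)
           (CovZ.n1 (480, 1120) (by decide +kernel)
            (CovZ.n2 (640, 1120) (by decide +kernel)
             (CovZ.leaf K2_ok TF_l3104 _)
             (CovZ.n1 (560, 1200) (by decide +kernel)
              (CovZ.leaf K2_ok TF_l3105 _)
              (CovZ.leaf K2_ok TF_l3106 _)))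
            (CovZ.leaf K2_ok TF_l3107 _))))))))

theorem TF_u77 : CovZ TF_M (toL (selN TF_LN 5444517871378744237060164801096969158737)) [0, 7, 4, 3] (1280, 2560) (1600, 2240) (1920, 2560) :=
    (CovZ.n2 (1600, 2560) (by decide +kernel)
           (CovZ.subM 5444517871368840715565001907804078866513 (by decide +kernel)
            (CovZ.n2 (1760, 2400) (by decide +kernel)
             (CovZ.n2 (1600, 2400) (by decide +kernel)
              (CovZ.n2 (1680, 2480) (by decide +kernel)
               (CovZ.n2 (1680, 2400) (by decide +kernel)
                (CovZ.n2 (1640, 2440) (by decide +kernel)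
                 (CovZ.n2 (1680, 2440) (by decide +kernel)
                  (CovZ.leaf K2_ok TF_l12054 _)
                  (CovZ.leaf K2_ok TF_l3169 _))
                 (CovZ.leaf K2_ok TF_l12055 _))
                (CovZ.n1 (1720, 2440) (by decide +kernel)
                 (CovZ.n2 (1720, 2400) (by decide +kernel)
                  (CovZ.leaf K2_ok TF_l12056 _)
                  (CovZ.leaf K2_ok TF_l12057 _))
                 (CovZ.n1 (1680, 2440) (by decide +kernel)
                  (CovZ.leaf K2_ok TF_l3170 _)
                  (CovZ.leaf K2_ok TF_l12058 _))))
               (CovZ.n1 (1600, 2480) (by decide +kernel)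
                (CovZ.leaf K2_ok TF_l3171 _)
                (CovZ.n1 (1640, 2440) (by decide +kernel)
                 (CovZ.leaf K2_ok TF_l3172 _)
                 (CovZ.leaf K2_ok TF_l3173 _))))
              (CovZ.n1 (1680, 2320) (by decide +kernel)
               (CovZ.n2 (1600, 2320) (by decide +kernel)
                (CovZ.n2 (1640, 2360) (by decide +kernel)
                 (CovZ.badM (by decide +kernel))
                 (CovZ.n1 (1600, 2360) (by decide +kernel)
                  (CovZ.leaf K2_ok TF_l12059 _)
                  (CovZ.subM 36893488147419103232 (by decide +kernel)
                   (CovZ.n1 (1620, 2340) (by decide +kernel)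
                    (CovZ.n2 (1600, 2340) (by decide +kernel)
                     (CovZ.leaf K2_ok TF_l12060 _)
                     (CovZ.badM (by decide +kernel)))
                    (CovZ.n1 (1620, 2360) (by decide +kernel)
                     (CovZ.badM (by decide +kernel))
                     (CovZ.leaf K2_ok TF_l12061 _))))))
                (CovZ.badM (by decide +kernel)))
               (CovZ.n1 (1680, 2400) (by decide +kernel)
                (CovZ.subM 36893488147435880512 (by decide +kernel)
                 (CovZ.n2 (1720, 2360) (by decide +kernel)
                  (CovZ.n2 (1680, 2360) (by decide +kernel)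
                   (CovZ.n2 (1700, 2380) (by decide +kernel)
                    (CovZ.leaf K2_ok TF_l12062 _)
                    (CovZ.leaf K2_ok TF_l12063 _))
                   (CovZ.badM (by decide +kernel)))
                  (CovZ.n1 (1720, 2400) (by decide +kernel)
                   (CovZ.n2 (1740, 2380) (by decide +kernel)
                    (CovZ.leaf K2_ok TF_l12064 _)
                    (CovZ.leaf K2_ok TF_l12065 _))
                   (CovZ.n1 (1700, 2380) (by decide +kernel)
                    (CovZ.leaf K2_ok TF_l12066 _)
                    (CovZ.n1 (1720, 2380) (by decide +kernel)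
                     (CovZ.leaf K2_ok TF_l12067 _)
                     (CovZ.leaf K2_ok TF_l12068 _))))))
                (CovZ.n1 (1640, 2360) (by decide +kernel)
                 (CovZ.n2 (1640, 2400) (by decide +kernel)
                  (CovZ.n2 (1660, 2380) (by decide +kernel)
                   (CovZ.leaf K2_ok TF_l12069 _)
                   (CovZ.leaf K2_ok TF_l12070 _))
                  (CovZ.leaf K2_ok TF_l12071 _))
                 (CovZ.n1 (1680, 2360) (by decide +kernel)
                  (CovZ.badM (by decide +kernel))
                  (CovZ.n1 (1660, 2380) (by decide +kernel)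
                   (CovZ.leaf K2_ok TF_l12072 _)
                   (CovZ.leaf K2_ok TF_l12073 _)))))))
             (CovZ.n1 (1760, 2560) (by decide +kernel)
              (CovZ.n2 (1840, 2480) (by decide +kernel)
               (CovZ.n2 (1760, 2480) (by decide +kernel)
                (CovZ.leaf K2_ok TF_l3174 _)
                (CovZ.n1 (1800, 2440) (by decide +kernel)
                 (CovZ.n2 (1760, 2440) (by decide +kernel)
                  (CovZ.leaf K2_ok TF_l3175 _)
                  (CovZ.leaf K2_ok TF_l12074 _))
                 (CovZ.leaf K2_ok TF_l3176 _)))
               (CovZ.n1 (1840, 2560) (by decide +kernel)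
                (CovZ.n2 (1880, 2520) (by decide +kernel)
                 (CovZ.leaf K2_ok TF_l3177 _)
                 (CovZ.leaf K2_ok TF_l3178 _))
                (CovZ.leaf K2_ok TF_l3179 _)))
              (CovZ.n1 (1680, 2480) (by decide +kernel)
               (CovZ.n2 (1680, 2560) (by decide +kernel)
                (CovZ.leaf K2_ok TF_l3180 _)
                (CovZ.leaf K2_ok TF_l3181 _))
               (CovZ.n1 (1760, 2480) (by decide +kernel)
                (CovZ.n2 (1720, 2440) (by decide +kernel)
                 (CovZ.leaf K2_ok TF_l3182 _)
                 (CovZ.n1 (1760, 2440) (by decide +kernel)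
                  (CovZ.leaf K2_ok TF_l12075 _)
                  (CovZ.leaf K2_ok TF_l3183 _)))
                (CovZ.leaf K2_ok TF_l3184 _))))))
           (CovZ.n1 (1440, 2400) (by decide +kernel)
            (CovZ.n2 (1440, 2560) (by decide +kernel)
             (CovZ.n2 (1520, 2480) (by decide +kernel)
              (CovZ.n2 (1440, 2480) (by decide +kernel)
               (CovZ.leaf K2_ok TF_l3185 _)
               (CovZ.n1 (1480, 2440) (by decide +kernel)
                (CovZ.leaf K2_ok TF_l3186 _)
                (CovZ.leaf K2_ok TF_l3187 _)))
              (CovZ.leaf K2_ok TF_l3188 _))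
             (CovZ.n1 (1360, 2480) (by decide +kernel)
              (CovZ.leaf K2_ok TF_l3189 _)
              (CovZ.n1 (1440, 2480) (by decide +kernel)
               (CovZ.leaf K2_ok TF_l3190 _)
               (CovZ.leaf K2_ok TF_l3191 _))))
            (CovZ.subM 5444517871368840715565001907804078866513 (by decide +kernel)
             (CovZ.n1 (1600, 2400) (by decide +kernel)
              (CovZ.n2 (1520, 2320) (by decide +kernel)
               (CovZ.n2 (1520, 2400) (by decide +kernel)
                (CovZ.n2 (1560, 2360) (by decide +kernel)
                 (CovZ.n2 (1520, 2360) (by decide +kernel)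
                  (CovZ.leaf K2_ok TF_l12076 _)
                  (CovZ.n1 (1540, 2340) (by decide +kernel)
                   (CovZ.leaf K2_ok TF_l12077 _)
                   (CovZ.leaf K2_ok TF_l12078 _)))
                 (CovZ.n1 (1560, 2400) (by decide +kernel)
                  (CovZ.n2 (1580, 2380) (by decide +kernel)
                   (CovZ.leaf K2_ok TF_l12079 _)
                   (CovZ.leaf K2_ok TF_l12080 _))
                  (CovZ.leaf K2_ok TF_l12081 _)))
                (CovZ.n1 (1480, 2360) (by decide +kernel)
                 (CovZ.n2 (1480, 2400) (by decide +kernel)
                  (CovZ.leaf K2_ok TF_l12082 _)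
                  (CovZ.leaf K2_ok TF_l3192 _))
                 (CovZ.n1 (1520, 2360) (by decide +kernel)
                  (CovZ.n2 (1500, 2340) (by decide +kernel)
                   (CovZ.leaf K2_ok TF_l12083 _)
                   (CovZ.n1 (1520, 2340) (by decide +kernel)
                    (CovZ.leaf K2_ok TF_l12084 _)
                    (CovZ.leaf K2_ok TF_l12085 _)))
                  (CovZ.leaf K2_ok TF_l12086 _))))
               (CovZ.n1 (1600, 2320) (by decide +kernel)
                (CovZ.badM (by decide +kernel))
                (CovZ.n1 (1560, 2360) (by decide +kernel)
                 (CovZ.n2 (1600, 2360) (by decide +kernel)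
                  (CovZ.subM 36893488147419103232 (by decide +kernel)
                   (CovZ.n2 (1580, 2340) (by decide +kernel)
                    (CovZ.n2 (1580, 2360) (by decide +kernel)
                     (CovZ.leaf K2_ok TF_l12087 _)
                     (CovZ.leaf K2_ok TF_l12088 _))
                    (CovZ.n1 (1600, 2340) (by decide +kernel)
                     (CovZ.badM (by decide +kernel))
                     (CovZ.leaf K2_ok TF_l12089 _))))
                  (CovZ.n1 (1580, 2380) (by decide +kernel)
                   (CovZ.leaf K2_ok TF_l12090 _)
                   (CovZ.leaf K2_ok TF_l12091 _)))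
                 (CovZ.subM 36893488147419103232 (by decide +kernel)
                  (CovZ.n1 (1560, 2320) (by decide +kernel)
                   (CovZ.n2 (1540, 2340) (by decide +kernel)
                    (CovZ.n2 (1560, 2340) (by decide +kernel)
                     (CovZ.badM (by decide +kernel))
                     (CovZ.leaf K2_ok TF_l12092 _))
                    (CovZ.badM (by decide +kernel)))
                   (CovZ.n1 (1580, 2340) (by decide +kernel)
                    (CovZ.badM (by decide +kernel))
                    (CovZ.n1 (1560, 2340) (by decide +kernel)
                     (CovZ.leaf K2_ok TF_l12093 _)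
                     (CovZ.badM (by decide +kernel)))))))))
              (CovZ.n1 (1520, 2480) (by decide +kernel)
               (CovZ.n2 (1600, 2480) (by decide +kernel)
                (CovZ.n2 (1560, 2440) (by decide +kernel)
                 (CovZ.leaf K2_ok TF_l3193 _)
                 (CovZ.n1 (1600, 2440) (by decide +kernel)
                  (CovZ.leaf K2_ok TF_l3194 _)
                  (CovZ.leaf K2_ok TF_l3195 _)))
                (CovZ.leaf K2_ok TF_l3196 _))
               (CovZ.n1 (1520, 2400) (by decide +kernel)
                (CovZ.n2 (1480, 2440) (by decide +kernel)
                 (CovZ.leaf K2_ok TF_l3197 _)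
                 (CovZ.leaf K2_ok TF_l3198 _))
                (CovZ.leaf K2_ok TF_l3199 _)))))))

theorem TF_u78 : CovZ TF_M (toL (selN TF_LN 5444517871378744237060164801096969158737)) [0, 7, 4, 3] (1600, 2240) (1920, 1920) (1920, 2560) :=
    (CovZ.subM 5444517871368840715565001907804078866512 (by decide +kernel)
           (CovZ.n1 (1920, 2240) (by decide +kernel)
            (CovZ.badM (by decide +kernel))
            (CovZ.n1 (1760, 2400) (by decide +kernel)
             (CovZ.n2 (1920, 2400) (by decide +kernel)
              (CovZ.subM 36893488147435880512 (by decide +kernel)
               (CovZ.n2 (1840, 2320) (by decide +kernel)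
                (CovZ.n2 (1840, 2400) (by decide +kernel)
                 (CovZ.n2 (1880, 2360) (by decide +kernel)
                  (CovZ.n2 (1840, 2360) (by decide +kernel)
                   (CovZ.n2 (1860, 2380) (by decide +kernel)
                    (CovZ.n2 (1860, 2360) (by decide +kernel)
                     (CovZ.n2 (1850, 2370) (by decide +kernel)
                      (CovZ.leaf K2_ok TF_l12094 _)
                      (CovZ.leaf K2_ok TF_l12095 _))
                     (CovZ.leaf K2_ok TF_l12096 _))
                    (CovZ.n1 (1840, 2380) (by decide +kernel)
                     (CovZ.leaf K2_ok TF_l12097 _)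
                     (CovZ.n1 (1850, 2370) (by decide +kernel)
                      (CovZ.leaf K2_ok TF_l12098 _)
                      (CovZ.leaf K2_ok TF_l12099 _))))
                   (CovZ.badM (by decide +kernel)))
                  (CovZ.n1 (1880, 2400) (by decide +kernel)
                   (CovZ.n2 (1900, 2380) (by decide +kernel)
                    (CovZ.n2 (1880, 2380) (by decide +kernel)
                     (CovZ.leaf K2_ok TF_l12100 _)
                     (CovZ.badM (by decide +kernel)))
                    (CovZ.n1 (1900, 2400) (by decide +kernel)
                     (CovZ.badM (by decide +kernel))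
                     (CovZ.leaf K2_ok TF_l12101 _)))
                   (CovZ.n1 (1860, 2380) (by decide +kernel)
                    (CovZ.n2 (1860, 2400) (by decide +kernel)
                     (CovZ.leaf K2_ok TF_l12102 _)
                     (CovZ.leaf K2_ok TF_l12103 _))
                    (CovZ.n1 (1880, 2380) (by decide +kernel)
                     (CovZ.leaf K2_ok TF_l12104 _)
                     (CovZ.leaf K2_ok TF_l12105 _)))))
                 (CovZ.n1 (1800, 2360) (by decide +kernel)
                  (CovZ.n2 (1800, 2400) (by decide +kernel)
                   (CovZ.n2 (1820, 2380) (by decide +kernel)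
                    (CovZ.n2 (1800, 2380) (by decide +kernel)
                     (CovZ.leaf K2_ok TF_l12106 _)
                     (CovZ.leaf K2_ok TF_l12107 _))
                    (CovZ.leaf K2_ok TF_l12108 _))
                   (CovZ.n1 (1780, 2380) (by decide +kernel)
                    (CovZ.leaf K2_ok TF_l12109 _)
                    (CovZ.n1 (1800, 2380) (by decide +kernel)
                     (CovZ.leaf K2_ok TF_l12110 _)
                     (CovZ.leaf K2_ok TF_l12111 _))))
                  (CovZ.n1 (1840, 2360) (by decide +kernel)
                   (CovZ.badM (by decide +kernel))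
                   (CovZ.n1 (1820, 2380) (by decide +kernel)
                    (CovZ.n2 (1840, 2380) (by decide +kernel)
                     (CovZ.leaf K2_ok TF_l12112 _)
                     (CovZ.leaf K2_ok TF_l12113 _))
                    (CovZ.n1 (1820, 2360) (by decide +kernel)
                     (CovZ.leaf K2_ok TF_l12114 _)
                     (CovZ.leaf K2_ok TF_l12115 _))))))
                (CovZ.badM (by decide +kernel))))
              (CovZ.n1 (1840, 2480) (by decide +kernel)
               (CovZ.n2 (1920, 2480) (by decide +kernel)
                (CovZ.n2 (1880, 2440) (by decide +kernel)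
                 (CovZ.n2 (1880, 2480) (by decide +kernel)
                  (CovZ.leaf K2_ok TF_l3200 _)
                  (CovZ.leaf K2_ok TF_l3201 _))
                 (CovZ.n1 (1920, 2440) (by decide +kernel)
                  (CovZ.n2 (1900, 2420) (by decide +kernel)
                   (CovZ.leaf K2_ok TF_l12116 _)
                   (CovZ.leaf K2_ok TF_l12117 _))
                  (CovZ.leaf K2_ok TF_l3202 _)))
                (CovZ.n1 (1880, 2520) (by decide +kernel)
                 (CovZ.leaf K2_ok TF_l3203 _)
                 (CovZ.leaf K2_ok TF_l3204 _)))
               (CovZ.n1 (1840, 2400) (by decide +kernel)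
                (CovZ.n2 (1800, 2440) (by decide +kernel)
                 (CovZ.n2 (1840, 2440) (by decide +kernel)
                  (CovZ.leaf K2_ok TF_l12118 _)
                  (CovZ.leaf K2_ok TF_l3205 _))
                 (CovZ.n1 (1800, 2400) (by decide +kernel)
                  (CovZ.leaf K2_ok TF_l12119 _)
                  (CovZ.leaf K2_ok TF_l12120 _)))
                (CovZ.n1 (1880, 2440) (by decide +kernel)
                 (CovZ.n2 (1880, 2400) (by decide +kernel)
                  (CovZ.n2 (1860, 2420) (by decide +kernel)
                   (CovZ.leaf K2_ok TF_l12121 _)
                   (CovZ.leaf K2_ok TF_l12122 _))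
                  (CovZ.leaf K2_ok TF_l12123 _))
                 (CovZ.n1 (1840, 2440) (by decide +kernel)
                  (CovZ.leaf K2_ok TF_l3206 _)
                  (CovZ.n1 (1860, 2420) (by decide +kernel)
                   (CovZ.leaf K2_ok TF_l12124 _)
                   (CovZ.leaf K2_ok TF_l12125 _)))))))
             (CovZ.subM 36893488147435880512 (by decide +kernel)
              (CovZ.n1 (1760, 2240) (by decide +kernel)
               (CovZ.n2 (1680, 2320) (by decide +kernel)
                (CovZ.n2 (1760, 2320) (by decide +kernel)
                 (CovZ.badM (by decide +kernel))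
                 (CovZ.n1 (1720, 2360) (by decide +kernel)
                  (CovZ.n2 (1760, 2360) (by decide +kernel)
                   (CovZ.badM (by decide +kernel))
                   (CovZ.n1 (1740, 2380) (by decide +kernel)
                    (CovZ.n2 (1760, 2380) (by decide +kernel)
                     (CovZ.leaf K2_ok TF_l12126 _)
                     (CovZ.leaf K2_ok TF_l12127 _))
                    (CovZ.leaf K2_ok TF_l12128 _)))
                  (CovZ.badM (by decide +kernel))))
                (CovZ.badM (by decide +kernel)))
               (CovZ.n1 (1840, 2320) (by decide +kernel)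
                (CovZ.badM (by decide +kernel))
                (CovZ.n1 (1760, 2320) (by decide +kernel)
                 (CovZ.n2 (1800, 2360) (by decide +kernel)
                  (CovZ.badM (by decide +kernel))
                  (CovZ.n1 (1760, 2360) (by decide +kernel)
                   (CovZ.n2 (1780, 2380) (by decide +kernel)
                    (CovZ.leaf K2_ok TF_l12129 _)
                    (CovZ.leaf K2_ok TF_l12130 _))
                   (CovZ.badM (by decide +kernel))))
                 (CovZ.badM (by decide +kernel)))))))))

theorem TF_u79 : CovZ TF_M (toL (selN TF_LN 47812890602746210669099601242238316569075713233)) [0, 7, 4, 3] (1280, 1280) (1920, 1920) (1280, 2560) :=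
    (CovZ.subM 47812803150177911987913886691691859519786188881 (by decide +kernel)
        (CovZ.n2 (1280, 1920) (by decide +kernel)
         (CovZ.n2 (1600, 2240) (by decide +kernel)
          (CovZ.badM (by decide +kernel))
          (CovZ.n1 (1280, 2240) (by decide +kernel)
           (CovZ.n2 (1440, 2400) (by decide +kernel)
            (CovZ.subM 5444517870735015415450887207055727263824 (by decide +kernel)
             (CovZ.n2 (1440, 2240) (by decide +kernel)
              (CovZ.n2 (1360, 2320) (by decide +kernel)
               (CovZ.n2 (1440, 2320) (by decide +kernel)
                (CovZ.n2 (1400, 2280) (by decide +kernel)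
                 (CovZ.n2 (1400, 2320) (by decide +kernel)
                  (CovZ.badM (by decide +kernel))
                  (CovZ.n1 (1380, 2300) (by decide +kernel)
                   (CovZ.n2 (1380, 2320) (by decide +kernel)
                    (CovZ.leaf K2_ok TF_l11983 _)
                    (CovZ.leaf K2_ok TF_l11984 _))
                   (CovZ.badM (by decide +kernel))))
                 (CovZ.badM (by decide +kernel)))
                (CovZ.n1 (1400, 2360) (by decide +kernel)
                 (CovZ.n2 (1440, 2360) (by decide +kernel)
                  (CovZ.n2 (1420, 2340) (by decide +kernel)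
                   (CovZ.leaf K2_ok TF_l11985 _)
                   (CovZ.leaf K2_ok TF_l11986 _))
                  (CovZ.leaf K2_ok TF_l3108 _))
                 (CovZ.n1 (1400, 2320) (by decide +kernel)
                  (CovZ.leaf K2_ok TF_l11987 _)
                  (CovZ.n1 (1420, 2340) (by decide +kernel)
                   (CovZ.leaf K2_ok TF_l11988 _)
                   (CovZ.leaf K2_ok TF_l11989 _)))))
               (CovZ.n1 (1360, 2240) (by decide +kernel)
                (CovZ.n2 (1320, 2280) (by decide +kernel)
                 (CovZ.n2 (1360, 2280) (by decide +kernel)
                  (CovZ.badM (by decide +kernel))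
                  (CovZ.n1 (1340, 2300) (by decide +kernel)
                   (CovZ.n2 (1360, 2300) (by decide +kernel)
                    (CovZ.badM (by decide +kernel))
                    (CovZ.leaf K2_ok TF_l11990 _))
                   (CovZ.badM (by decide +kernel))))
                 (CovZ.badM (by decide +kernel)))
                (CovZ.n1 (1400, 2280) (by decide +kernel)
                 (CovZ.badM (by decide +kernel))
                 (CovZ.n1 (1360, 2280) (by decide +kernel)
                  (CovZ.n2 (1380, 2300) (by decide +kernel)
                   (CovZ.badM (by decide +kernel))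
                   (CovZ.n1 (1360, 2300) (by decide +kernel)
                    (CovZ.leaf K2_ok TF_l11991 _)
                    (CovZ.badM (by decide +kernel))))
                  (CovZ.badM (by decide +kernel))))))
              (CovZ.n1 (1520, 2320) (by decide +kernel)
               (CovZ.badM (by decide +kernel))
               (CovZ.n1 (1440, 2320) (by decide +kernel)
                (CovZ.n2 (1480, 2360) (by decide +kernel)
                 (CovZ.n2 (1480, 2320) (by decide +kernel)
                  (CovZ.n2 (1460, 2340) (by decide +kernel)
                   (CovZ.leaf K2_ok TF_l11992 _)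
                   (CovZ.leaf K2_ok TF_l11993 _))
                  (CovZ.n1 (1500, 2340) (by decide +kernel)
                   (CovZ.leaf K2_ok TF_l11994 _)
                   (CovZ.leaf K2_ok TF_l11995 _)))
                 (CovZ.n1 (1440, 2360) (by decide +kernel)
                  (CovZ.leaf K2_ok TF_l3109 _)
                  (CovZ.n1 (1460, 2340) (by decide +kernel)
                   (CovZ.leaf K2_ok TF_l11996 _)
                   (CovZ.leaf K2_ok TF_l11997 _))))
                (CovZ.badM (by decide +kernel))))))
            (CovZ.n1 (1280, 2400) (by decide +kernel)
             (CovZ.n2 (1360, 2480) (by decide +kernel)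
              (CovZ.n2 (1360, 2400) (by decide +kernel)
               (CovZ.leaf K2_ok TF_l3110 _)
               (CovZ.leaf K2_ok TF_l3111 _))
              (CovZ.n1 (1280, 2480) (by decide +kernel)
               (CovZ.leaf K2_ok TF_l3112 _)
               (CovZ.leaf K2_ok TF_l3113 _)))
             (CovZ.subM 5444517870735015416631478827773272784977 (by decide +kernel)
              (CovZ.n1 (1360, 2320) (by decide +kernel)
               (CovZ.n2 (1280, 2320) (by decide +kernel)
                (CovZ.n2 (1320, 2360) (by decide +kernel)
                 (CovZ.n2 (1320, 2320) (by decide +kernel)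
                  (CovZ.leaf K2_ok TF_l3114 _)
                  (CovZ.leaf K2_ok TF_l3115 _))
                 (CovZ.n1 (1280, 2360) (by decide +kernel)
                  (CovZ.leaf K2_ok TF_l3116 _)
                  (CovZ.leaf K2_ok TF_l3117 _)))
                (CovZ.subM 5444517870735015416631478827773121789968 (by decide +kernel)
                 (CovZ.n1 (1320, 2280) (by decide +kernel)
                  (CovZ.n2 (1280, 2280) (by decide +kernel)
                   (CovZ.leaf K2_ok TF_l11998 _)
                   (CovZ.n1 (1300, 2260) (by decide +kernel)
                    (CovZ.n2 (1280, 2260) (by decide +kernel)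
                     (CovZ.leaf K2_ok TF_l11999 _)
                     (CovZ.badM (by decide +kernel)))
                    (CovZ.n1 (1300, 2280) (by decide +kernel)
                     (CovZ.badM (by decide +kernel))
                     (CovZ.leaf K2_ok TF_l12000 _))))
                  (CovZ.n1 (1320, 2320) (by decide +kernel)
                   (CovZ.n2 (1340, 2300) (by decide +kernel)
                    (CovZ.leaf K2_ok TF_l12001 _)
                    (CovZ.n1 (1340, 2320) (by decide +kernel)
                     (CovZ.leaf K2_ok TF_l12002 _)
                     (CovZ.leaf K2_ok TF_l12003 _)))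
                   (CovZ.n1 (1300, 2300) (by decide +kernel)
                    (CovZ.leaf K2_ok TF_l12004 _)
                    (CovZ.leaf K2_ok TF_l12005 _))))))
               (CovZ.n1 (1360, 2400) (by decide +kernel)
                (CovZ.n2 (1400, 2360) (by decide +kernel)
                 (CovZ.n2 (1360, 2360) (by decide +kernel)
                  (CovZ.leaf K2_ok TF_l3118 _)
                  (CovZ.n1 (1380, 2340) (by decide +kernel)
                   (CovZ.leaf K2_ok TF_l12006 _)
                   (CovZ.leaf K2_ok TF_l12007 _)))
                 (CovZ.leaf K2_ok TF_l3119 _))
                (CovZ.n1 (1320, 2360) (by decide +kernel)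
                 (CovZ.leaf K2_ok TF_l3120 _)
                 (CovZ.n1 (1360, 2360) (by decide +kernel)
                  (CovZ.leaf K2_ok TF_l3121 _)
                  (CovZ.leaf K2_ok TF_l3122 _))))))))
           (CovZ.badM (by decide +kernel))))
         (CovZ.subM 47099173859307060668640506647090541230777434112 (by decide +kernel)
          (CovZ.n1 (1600, 1600) (by decide +kernel)
           (CovZ.n2 (1280, 1600) (by decide +kernel)
            (CovZ.badM (by decide +kernel))
            (CovZ.n1 (1440, 1440) (by decide +kernel)
             (CovZ.badM (by decide +kernel))
             (CovZ.badM (by decide +kernel))))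
           (CovZ.badM (by decide +kernel))))))

theorem TF_u80 : CovZ TF_M (toL (selN TF_LN 47812890602746210669099601242238316569075713233)) [0, 7, 4, 3] (1920, 1920) (2560, 2560) (1280, 2560) :=
    (CovZ.subM 5444517871378744237060164801096969158737 (by decide +kernel)
        (CovZ.n1 (1920, 2560) (by decide +kernel)
         (CovZ.n2 (2240, 2240) (by decide +kernel)
          (CovZ.subM 5444517871368840715565290138180230578256 (by decide +kernel)
           (CovZ.n2 (1920, 2240) (by decide +kernel)
            (CovZ.n2 (2080, 2400) (by decide +kernel)
             (CovZ.n2 (2080, 2240) (by decide +kernel)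
              (CovZ.badM (by decide +kernel))
              (CovZ.n1 (2160, 2320) (by decide +kernel)
               (CovZ.badM (by decide +kernel))
               (CovZ.badM (by decide +kernel))))
             (CovZ.n1 (1920, 2400) (by decide +kernel)
              (CovZ.n2 (2000, 2480) (by decide +kernel)
               (CovZ.subM 633825300151008188895770705984 (by decide +kernel)
                (CovZ.n2 (2000, 2400) (by decide +kernel)
                 (CovZ.n2 (1960, 2440) (by decide +kernel)
                  (CovZ.n2 (2000, 2440) (by decide +kernel)
                   (CovZ.n2 (1980, 2420) (by decide +kernel)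
                    (CovZ.leaf K2_ok TF_l12008 _)
                    (CovZ.leaf K2_ok TF_l12009 _))
                   (CovZ.leaf K2_ok TF_l3123 _))
                  (CovZ.n1 (1960, 2400) (by decide +kernel)
                   (CovZ.n2 (1940, 2420) (by decide +kernel)
                    (CovZ.leaf K2_ok TF_l12010 _)
                    (CovZ.leaf K2_ok TF_l12011 _))
                   (CovZ.n1 (1980, 2420) (by decide +kernel)
                    (CovZ.badM (by decide +kernel))
                    (CovZ.leaf K2_ok TF_l12012 _))))
                 (CovZ.n1 (2040, 2440) (by decide +kernel)
                  (CovZ.n2 (2040, 2400) (by decide +kernel)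
                   (CovZ.n2 (2020, 2420) (by decide +kernel)
                    (CovZ.leaf K2_ok TF_l12013 _)
                    (CovZ.badM (by decide +kernel)))
                   (CovZ.n1 (2060, 2420) (by decide +kernel)
                    (CovZ.badM (by decide +kernel))
                    (CovZ.leaf K2_ok TF_l12014 _)))
                  (CovZ.n1 (2000, 2440) (by decide +kernel)
                   (CovZ.leaf K2_ok TF_l3124 _)
                   (CovZ.n1 (2020, 2420) (by decide +kernel)
                    (CovZ.leaf K2_ok TF_l12015 _)
                    (CovZ.leaf K2_ok TF_l12016 _))))))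
               (CovZ.n1 (1920, 2480) (by decide +kernel)
                (CovZ.leaf K2_ok TF_l3125 _)
                (CovZ.subM 633825300151008188895787483200 (by decide +kernel)
                 (CovZ.n1 (1960, 2440) (by decide +kernel)
                  (CovZ.n2 (1920, 2440) (by decide +kernel)
                   (CovZ.leaf K2_ok TF_l3126 _)
                   (CovZ.n1 (1940, 2420) (by decide +kernel)
                    (CovZ.leaf K2_ok TF_l12017 _)
                    (CovZ.leaf K2_ok TF_l12018 _)))
                  (CovZ.n1 (1960, 2480) (by decide +kernel)
                   (CovZ.leaf K2_ok TF_l3127 _)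
                   (CovZ.leaf K2_ok TF_l3128 _))))))
              (CovZ.badM (by decide +kernel))))
            (CovZ.n1 (2080, 2080) (by decide +kernel)
             (CovZ.badM (by decide +kernel))
             (CovZ.n1 (2080, 2240) (by decide +kernel)
              (CovZ.badM (by decide +kernel))
              (CovZ.badM (by decide +kernel))))))
          (CovZ.n1 (2240, 2560) (by decide +kernel)
           (CovZ.subM 633825300151296419271922483200 (by decide +kernel)
            (CovZ.n2 (2400, 2400) (by decide +kernel)
             (CovZ.n2 (2240, 2400) (by decide +kernel)
              (CovZ.n2 (2320, 2480) (by decide +kernel)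
               (CovZ.n2 (2320, 2400) (by decide +kernel)
                (CovZ.n2 (2280, 2440) (by decide +kernel)
                 (CovZ.n2 (2320, 2440) (by decide +kernel)
                  (CovZ.n2 (2300, 2420) (by decide +kernel)
                   (CovZ.leaf K2_ok TF_l12019 _)
                   (CovZ.leaf K2_ok TF_l12020 _))
                  (CovZ.leaf K2_ok TF_l3129 _))
                 (CovZ.n1 (2280, 2400) (by decide +kernel)
                  (CovZ.n2 (2260, 2420) (by decide +kernel)
                   (CovZ.n2 (2280, 2420) (by decide +kernel)
                    (CovZ.leaf K2_ok TF_l12021 _)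
                    (CovZ.leaf K2_ok TF_l12022 _))
                   (CovZ.leaf K2_ok TF_l12023 _))
                  (CovZ.n1 (2300, 2420) (by decide +kernel)
                   (CovZ.leaf K2_ok TF_l12024 _)
                   (CovZ.leaf K2_ok TF_l12025 _))))
                (CovZ.n1 (2360, 2440) (by decide +kernel)
                 (CovZ.n2 (2360, 2400) (by decide +kernel)
                  (CovZ.n2 (2340, 2420) (by decide +kernel)
                   (CovZ.leaf K2_ok TF_l12026 _)
                   (CovZ.leaf K2_ok TF_l12027 _))
                  (CovZ.leaf K2_ok TF_l12028 _))
                 (CovZ.n1 (2320, 2440) (by decide +kernel)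
                  (CovZ.leaf K2_ok TF_l3130 _)
                  (CovZ.n1 (2340, 2420) (by decide +kernel)
                   (CovZ.leaf K2_ok TF_l12029 _)
                   (CovZ.leaf K2_ok TF_l12030 _)))))
               (CovZ.n1 (2240, 2480) (by decide +kernel)
                (CovZ.leaf K2_ok TF_l3131 _)
                (CovZ.n1 (2280, 2440) (by decide +kernel)
                 (CovZ.n2 (2240, 2440) (by decide +kernel)
                  (CovZ.leaf K2_ok TF_l3132 _)
                  (CovZ.n1 (2260, 2420) (by decide +kernel)
                   (CovZ.leaf K2_ok TF_l12031 _)
                   (CovZ.leaf K2_ok TF_l12032 _)))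
                 (CovZ.n1 (2280, 2480) (by decide +kernel)
                  (CovZ.leaf K2_ok TF_l3133 _)
                  (CovZ.leaf K2_ok TF_l3134 _)))))
              (CovZ.badM (by decide +kernel)))
             (CovZ.n1 (2400, 2560) (by decide +kernel)
              (CovZ.n2 (2480, 2480) (by decide +kernel)
               (CovZ.n2 (2400, 2480) (by decide +kernel)
                (CovZ.leaf K2_ok TF_l3135 _)
                (CovZ.n1 (2440, 2440) (by decide +kernel)
                 (CovZ.n2 (2400, 2440) (by decide +kernel)
                  (CovZ.leaf K2_ok TF_l3136 _)
                  (CovZ.n1 (2420, 2420) (by decide +kernel)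
                   (CovZ.leaf K2_ok TF_l12033 _)
                   (CovZ.leaf K2_ok TF_l12034 _)))
                 (CovZ.leaf K2_ok TF_l3137 _)))
               (CovZ.n1 (2480, 2560) (by decide +kernel)
                (CovZ.leaf K2_ok TF_l3138 _)
                (CovZ.leaf K2_ok TF_l3139 _)))
              (CovZ.n1 (2320, 2480) (by decide +kernel)
               (CovZ.n2 (2320, 2560) (by decide +kernel)
                (CovZ.n2 (2360, 2520) (by decide +kernel)
                 (CovZ.leaf K2_ok TF_l3140 _)
                 (CovZ.leaf K2_ok TF_l3141 _))
                (CovZ.leaf K2_ok TF_l3142 _))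
               (CovZ.n1 (2400, 2480) (by decide +kernel)
                (CovZ.n2 (2360, 2440) (by decide +kernel)
                 (CovZ.n2 (2360, 2480) (by decide +kernel)
                  (CovZ.leaf K2_ok TF_l3143 _)
                  (CovZ.leaf K2_ok TF_l3144 _))
                 (CovZ.n1 (2400, 2440) (by decide +kernel)
                  (CovZ.n2 (2380, 2420) (by decide +kernel)
                   (CovZ.leaf K2_ok TF_l12035 _)
                   (CovZ.leaf K2_ok TF_l12036 _))
                  (CovZ.leaf K2_ok TF_l3145 _)))
                (CovZ.n1 (2360, 2520) (by decide +kernel)
                 (CovZ.leaf K2_ok TF_l3146 _)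
                 (CovZ.leaf K2_ok TF_l3147 _)))))))
           (CovZ.n1 (2080, 2400) (by decide +kernel)
            (CovZ.n2 (2080, 2560) (by decide +kernel)
             (CovZ.subM 5444517871368840715565290138180213866560 (by decide +kernel)
              (CovZ.n2 (2160, 2480) (by decide +kernel)
               (CovZ.n2 (2080, 2480) (by decide +kernel)
                (CovZ.leaf K2_ok TF_l3148 _)
                (CovZ.subM 633825300151296419271922417664 (by decide +kernel)
                 (CovZ.n1 (2120, 2440) (by decide +kernel)
                  (CovZ.n2 (2080, 2440) (by decide +kernel)
                   (CovZ.leaf K2_ok TF_l3149 _)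
                   (CovZ.n1 (2100, 2420) (by decide +kernel)
                    (CovZ.leaf K2_ok TF_l12037 _)
                    (CovZ.leaf K2_ok TF_l12038 _)))
                  (CovZ.n1 (2120, 2480) (by decide +kernel)
                   (CovZ.leaf K2_ok TF_l3150 _)
                   (CovZ.leaf K2_ok TF_l3151 _)))))
               (CovZ.n1 (2160, 2560) (by decide +kernel)
                (CovZ.n2 (2200, 2520) (by decide +kernel)
                 (CovZ.leaf K2_ok TF_l3152 _)
                 (CovZ.leaf K2_ok TF_l3153 _))
                (CovZ.leaf K2_ok TF_l3154 _))))
             (CovZ.n1 (2000, 2480) (by decide +kernel)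
              (CovZ.n2 (2000, 2560) (by decide +kernel)
               (CovZ.n2 (2040, 2520) (by decide +kernel)
                (CovZ.leaf K2_ok TF_l3155 _)
                (CovZ.leaf K2_ok TF_l3156 _))
               (CovZ.leaf K2_ok TF_l3157 _))
              (CovZ.subM 5444517871368840715565290138180213866560 (by decide +kernel)
               (CovZ.n1 (2080, 2480) (by decide +kernel)
                (CovZ.subM 633825300151008188895770705984 (by decide +kernel)
                 (CovZ.n2 (2040, 2440) (by decide +kernel)
                  (CovZ.n2 (2040, 2480) (by decide +kernel)
                   (CovZ.leaf K2_ok TF_l3158 _)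
                   (CovZ.leaf K2_ok TF_l3159 _))
                  (CovZ.n1 (2080, 2440) (by decide +kernel)
                   (CovZ.n2 (2060, 2420) (by decide +kernel)
                    (CovZ.leaf K2_ok TF_l12039 _)
                    (CovZ.leaf K2_ok TF_l12040 _))
                   (CovZ.leaf K2_ok TF_l3160 _))))
                (CovZ.n1 (2040, 2520) (by decide +kernel)
                 (CovZ.leaf K2_ok TF_l3161 _)
                 (CovZ.leaf K2_ok TF_l3162 _))))))
            (CovZ.subM 633825300151296419271922483200 (by decide +kernel)
             (CovZ.n1 (2240, 2400) (by decide +kernel)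
              (CovZ.n2 (2160, 2320) (by decide +kernel)
               (CovZ.n2 (2160, 2400) (by decide +kernel)
                (CovZ.badM (by decide +kernel))
                (CovZ.n1 (2120, 2360) (by decide +kernel)
                 (CovZ.n2 (2120, 2400) (by decide +kernel)
                  (CovZ.n2 (2140, 2380) (by decide +kernel)
                   (CovZ.badM (by decide +kernel))
                   (CovZ.n1 (2140, 2400) (by decide +kernel)
                    (CovZ.badM (by decide +kernel))
                    (CovZ.leaf K2_ok TF_l12041 _)))
                  (CovZ.badM (by decide +kernel)))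
                 (CovZ.badM (by decide +kernel))))
               (CovZ.badM (by decide +kernel)))
              (CovZ.n1 (2160, 2480) (by decide +kernel)
               (CovZ.n2 (2240, 2480) (by decide +kernel)
                (CovZ.n2 (2200, 2440) (by decide +kernel)
                 (CovZ.leaf K2_ok TF_l3163 _)
                 (CovZ.n1 (2240, 2440) (by decide +kernel)
                  (CovZ.n2 (2220, 2420) (by decide +kernel)
                   (CovZ.leaf K2_ok TF_l12042 _)
                   (CovZ.leaf K2_ok TF_l12043 _))
                  (CovZ.leaf K2_ok TF_l3164 _)))
                (CovZ.n1 (2200, 2520) (by decide +kernel)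
                 (CovZ.leaf K2_ok TF_l3165 _)
                 (CovZ.leaf K2_ok TF_l3166 _)))
               (CovZ.n1 (2160, 2400) (by decide +kernel)
                (CovZ.n2 (2120, 2440) (by decide +kernel)
                 (CovZ.n2 (2160, 2440) (by decide +kernel)
                  (CovZ.n2 (2140, 2420) (by decide +kernel)
                   (CovZ.leaf K2_ok TF_l12044 _)
                   (CovZ.n1 (2160, 2420) (by decide +kernel)
                    (CovZ.leaf K2_ok TF_l12045 _)
                    (CovZ.leaf K2_ok TF_l12046 _)))
                  (CovZ.leaf K2_ok TF_l3167 _))
                 (CovZ.n1 (2120, 2400) (by decide +kernel)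
                  (CovZ.n2 (2100, 2420) (by decide +kernel)
                   (CovZ.leaf K2_ok TF_l12047 _)
                   (CovZ.badM (by decide +kernel)))
                  (CovZ.n1 (2140, 2420) (by decide +kernel)
                   (CovZ.leaf K2_ok TF_l12048 _)
                   (CovZ.leaf K2_ok TF_l12049 _))))
                (CovZ.n1 (2200, 2440) (by decide +kernel)
                 (CovZ.n2 (2200, 2400) (by decide +kernel)
                  (CovZ.n2 (2180, 2420) (by decide +kernel)
                   (CovZ.leaf K2_ok TF_l12050 _)
                   (CovZ.badM (by decide +kernel)))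
                  (CovZ.leaf K2_ok TF_l12051 _))
                 (CovZ.n1 (2160, 2440) (by decide +kernel)
                  (CovZ.leaf K2_ok TF_l3168 _)
                  (CovZ.n1 (2180, 2420) (by decide +kernel)
                   (CovZ.leaf K2_ok TF_l12052 _)
                   (CovZ.leaf K2_ok TF_l12053 _)))))))))))
         (CovZ.n1 (1600, 2240) (by decide +kernel)
          TF_u77
          TF_u78)))

theorem TF_u81 : CovZ TF_M (toL (selN TF_LN 47812890602746210669099601242238316569075713233)) [0, 7, 4, 3] (1280, 2560) (960, 2240) (1280, 1920) :=
    (CovZ.n2 (1280, 2240) (by decide +kernel)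
          (CovZ.subM 5784800237665858004835227105965505512593 (by decide +kernel)
           (CovZ.n2 (1120, 2080) (by decide +kernel)
            (CovZ.n2 (1120, 2240) (by decide +kernel)
             (CovZ.subM 5444517870735015416594585339625836904465 (by decide +kernel)
              (CovZ.n2 (1200, 2160) (by decide +kernel)
               (CovZ.n2 (1120, 2160) (by decide +kernel)
                (CovZ.n2 (1160, 2200) (by decide +kernel)
                 (CovZ.badM (by decide +kernel))
                 (CovZ.n1 (1120, 2200) (by decide +kernel)
                  (CovZ.n2 (1140, 2220) (by decide +kernel)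
                   (CovZ.leaf K2_ok TF_l12183 _)
                   (CovZ.leaf K2_ok TF_l12184 _))
                  (CovZ.badM (by decide +kernel))))
                (CovZ.badM (by decide +kernel)))
               (CovZ.n1 (1200, 2240) (by decide +kernel)
                (CovZ.n2 (1240, 2200) (by decide +kernel)
                 (CovZ.n2 (1200, 2200) (by decide +kernel)
                  (CovZ.n2 (1220, 2220) (by decide +kernel)
                   (CovZ.badM (by decide +kernel))
                   (CovZ.n1 (1200, 2220) (by decide +kernel)
                    (CovZ.leaf K2_ok TF_l12185 _)
                    (CovZ.badM (by decide +kernel))))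
                  (CovZ.badM (by decide +kernel)))
                 (CovZ.n1 (1240, 2240) (by decide +kernel)
                  (CovZ.n2 (1260, 2220) (by decide +kernel)
                   (CovZ.n2 (1240, 2220) (by decide +kernel)
                    (CovZ.leaf K2_ok TF_l12186 _)
                    (CovZ.badM (by decide +kernel)))
                   (CovZ.n1 (1260, 2240) (by decide +kernel)
                    (CovZ.badM (by decide +kernel))
                    (CovZ.leaf K2_ok TF_l12187 _)))
                  (CovZ.n1 (1220, 2220) (by decide +kernel)
                   (CovZ.n2 (1220, 2240) (by decide +kernel)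
                    (CovZ.leaf K2_ok TF_l12188 _)
                    (CovZ.leaf K2_ok TF_l12189 _))
                   (CovZ.n1 (1240, 2220) (by decide +kernel)
                    (CovZ.badM (by decide +kernel))
                    (CovZ.leaf K2_ok TF_l12190 _)))))
                (CovZ.n1 (1160, 2200) (by decide +kernel)
                 (CovZ.n2 (1160, 2240) (by decide +kernel)
                  (CovZ.n2 (1180, 2220) (by decide +kernel)
                   (CovZ.leaf K2_ok TF_l12191 _)
                   (CovZ.leaf K2_ok TF_l12192 _))
                  (CovZ.n1 (1140, 2220) (by decide +kernel)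
                   (CovZ.leaf K2_ok TF_l12193 _)
                   (CovZ.n1 (1160, 2220) (by decide +kernel)
                    (CovZ.leaf K2_ok TF_l12194 _)
                    (CovZ.leaf K2_ok TF_l12195 _))))
                 (CovZ.n1 (1200, 2200) (by decide +kernel)
                  (CovZ.badM (by decide +kernel))
                  (CovZ.n1 (1180, 2220) (by decide +kernel)
                   (CovZ.n2 (1200, 2220) (by decide +kernel)
                    (CovZ.leaf K2_ok TF_l12196 _)
                    (CovZ.leaf K2_ok TF_l12197 _))
                   (CovZ.leaf K2_ok TF_l12198 _)))))))
             (CovZ.n1 (1040, 2160) (by decide +kernel)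
              (CovZ.n2 (1040, 2240) (by decide +kernel)
               (CovZ.n2 (1080, 2200) (by decide +kernel)
                (CovZ.n2 (1040, 2200) (by decide +kernel)
                 (CovZ.leaf K2_ok TF_l3270 _)
                 (CovZ.n1 (1060, 2180) (by decide +kernel)
                  (CovZ.leaf K2_ok TF_l12199 _)
                  (CovZ.leaf K2_ok TF_l12200 _)))
                (CovZ.n1 (1080, 2240) (by decide +kernel)
                 (CovZ.leaf K2_ok TF_l12201 _)
                 (CovZ.leaf K2_ok TF_l3271 _)))
               (CovZ.n1 (1000, 2200) (by decide +kernel)
                (CovZ.leaf K2_ok TF_l3272 _)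
                (CovZ.n1 (1040, 2200) (by decide +kernel)
                 (CovZ.leaf K2_ok TF_l3273 _)
                 (CovZ.leaf K2_ok TF_l3274 _))))
              (CovZ.subM 5444517870744918936908868381825029898257 (by decide +kernel)
               (CovZ.n1 (1120, 2160) (by decide +kernel)
                (CovZ.subM 9903520314283042199327211521 (by decide +kernel)
                 (CovZ.n2 (1080, 2120) (by decide +kernel)
                  (CovZ.n2 (1080, 2160) (by decide +kernel)
                   (CovZ.badM (by decide +kernel))
                   (CovZ.n1 (1060, 2140) (by decide +kernel)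
                    (CovZ.n2 (1060, 2160) (by decide +kernel)
                     (CovZ.badM (by decide +kernel))
                     (CovZ.leaf K2_ok TF_l12202 _))
                    (CovZ.badM (by decide +kernel))))
                  (CovZ.badM (by decide +kernel))))
                (CovZ.n1 (1080, 2200) (by decide +kernel)
                 (CovZ.n2 (1120, 2200) (by decide +kernel)
                  (CovZ.n2 (1100, 2180) (by decide +kernel)
                   (CovZ.leaf K2_ok TF_l12203 _)
                   (CovZ.badM (by decide +kernel)))
                  (CovZ.leaf K2_ok TF_l12204 _))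
                 (CovZ.n1 (1080, 2160) (by decide +kernel)
                  (CovZ.n2 (1060, 2180) (by decide +kernel)
                   (CovZ.leaf K2_ok TF_l12205 _)
                   (CovZ.leaf K2_ok TF_l12206 _))
                  (CovZ.n1 (1100, 2180) (by decide +kernel)
                   (CovZ.badM (by decide +kernel))
                   (CovZ.leaf K2_ok TF_l12207 _))))))))
            (CovZ.badM (by decide +kernel))))
          (CovZ.n1 (1120, 2400) (by decide +kernel)
           (CovZ.subM 5444517871378744237059948628314855309521 (by decide +kernel)
            (CovZ.n2 (1280, 2400) (by decide +kernel)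
             (CovZ.n2 (1200, 2320) (by decide +kernel)
              (CovZ.n2 (1200, 2400) (by decide +kernel)
               (CovZ.n2 (1240, 2360) (by decide +kernel)
                (CovZ.leaf K2_ok TF_l3275 _)
                (CovZ.leaf K2_ok TF_l3276 _))
               (CovZ.n1 (1160, 2360) (by decide +kernel)
                (CovZ.leaf K2_ok TF_l3277 _)
                (CovZ.leaf K2_ok TF_l3278 _)))
              (CovZ.n1 (1280, 2320) (by decide +kernel)
               (CovZ.subM 5444517870735015416631478827773256007697 (by decide +kernel)
                (CovZ.n2 (1240, 2280) (by decide +kernel)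
                 (CovZ.n2 (1240, 2320) (by decide +kernel)
                  (CovZ.n2 (1260, 2300) (by decide +kernel)
                   (CovZ.leaf K2_ok TF_l12208 _)
                   (CovZ.leaf K2_ok TF_l12209 _))
                  (CovZ.leaf K2_ok TF_l3279 _))
                 (CovZ.n1 (1280, 2280) (by decide +kernel)
                  (CovZ.n2 (1260, 2260) (by decide +kernel)
                   (CovZ.leaf K2_ok TF_l12210 _)
                   (CovZ.n1 (1280, 2260) (by decide +kernel)
                    (CovZ.leaf K2_ok TF_l12211 _)
                    (CovZ.leaf K2_ok TF_l12212 _)))
                  (CovZ.n1 (1260, 2300) (by decide +kernel)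
                   (CovZ.leaf K2_ok TF_l12213 _)
                   (CovZ.leaf K2_ok TF_l12214 _)))))
               (CovZ.n1 (1240, 2360) (by decide +kernel)
                (CovZ.n2 (1280, 2360) (by decide +kernel)
                 (CovZ.leaf K2_ok TF_l3280 _)
                 (CovZ.leaf K2_ok TF_l3281 _))
                (CovZ.leaf K2_ok TF_l3282 _))))
             (CovZ.n1 (1200, 2480) (by decide +kernel)
              (CovZ.n2 (1280, 2480) (by decide +kernel)
               (CovZ.leaf K2_ok TF_l3283 _)
               (CovZ.leaf K2_ok TF_l3284 _))
              (CovZ.leaf K2_ok TF_l3285 _))))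
           (CovZ.subM 5784800237665858004872120594112941393041 (by decide +kernel)
            (CovZ.n1 (1120, 2240) (by decide +kernel)
             (CovZ.n2 (1040, 2320) (by decide +kernel)
              (CovZ.n2 (1120, 2320) (by decide +kernel)
               (CovZ.n2 (1080, 2280) (by decide +kernel)
                (CovZ.leaf K2_ok TF_l3286 _)
                (CovZ.n1 (1120, 2280) (by decide +kernel)
                 (CovZ.leaf K2_ok TF_l3287 _)
                 (CovZ.leaf K2_ok TF_l3288 _)))
               (CovZ.n1 (1080, 2360) (by decide +kernel)
                (CovZ.leaf K2_ok TF_l3289 _)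
                (CovZ.leaf K2_ok TF_l3290 _)))
              (CovZ.n1 (1040, 2240) (by decide +kernel)
               (CovZ.n2 (1000, 2280) (by decide +kernel)
                (CovZ.leaf K2_ok TF_l3291 _)
                (CovZ.leaf K2_ok TF_l3292 _))
               (CovZ.n1 (1080, 2280) (by decide +kernel)
                (CovZ.leaf K2_ok TF_l3293 _)
                (CovZ.leaf K2_ok TF_l3294 _))))
             (CovZ.n1 (1200, 2320) (by decide +kernel)
              (CovZ.subM 5444517870735015416631478827773256007697 (by decide +kernel)
               (CovZ.n2 (1200, 2240) (by decide +kernel)
                (CovZ.n2 (1160, 2280) (by decide +kernel)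
                 (CovZ.n2 (1200, 2280) (by decide +kernel)
                  (CovZ.leaf K2_ok TF_l12215 _)
                  (CovZ.leaf K2_ok TF_l3295 _))
                 (CovZ.n1 (1160, 2240) (by decide +kernel)
                  (CovZ.leaf K2_ok TF_l3296 _)
                  (CovZ.leaf K2_ok TF_l3297 _)))
                (CovZ.n1 (1240, 2280) (by decide +kernel)
                 (CovZ.subM 5444517870735015416594585339625702686736 (by decide +kernel)
                  (CovZ.n2 (1240, 2240) (by decide +kernel)
                   (CovZ.n2 (1220, 2260) (by decide +kernel)
                    (CovZ.n2 (1240, 2260) (by decide +kernel)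
                     (CovZ.leaf K2_ok TF_l12216 _)
                     (CovZ.leaf K2_ok TF_l12217 _))
                    (CovZ.leaf K2_ok TF_l12218 _))
                   (CovZ.n1 (1260, 2260) (by decide +kernel)
                    (CovZ.leaf K2_ok TF_l12219 _)
                    (CovZ.n1 (1240, 2260) (by decide +kernel)
                     (CovZ.leaf K2_ok TF_l12220 _)
                     (CovZ.leaf K2_ok TF_l12221 _)))))
                 (CovZ.n1 (1200, 2280) (by decide +kernel)
                  (CovZ.leaf K2_ok TF_l3298 _)
                  (CovZ.n1 (1220, 2260) (by decide +kernel)
                   (CovZ.leaf K2_ok TF_l12222 _)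
                   (CovZ.leaf K2_ok TF_l12223 _))))))
              (CovZ.n1 (1120, 2320) (by decide +kernel)
               (CovZ.leaf K2_ok TF_l3299 _)
               (CovZ.subM 5444517870744918936945833927566486929425 (by decide +kernel)
                (CovZ.n1 (1160, 2280) (by decide +kernel)
                 (CovZ.n2 (1120, 2280) (by decide +kernel)
                  (CovZ.leaf K2_ok TF_l3300 _)
                  (CovZ.leaf K2_ok TF_l3301 _))
                 (CovZ.n1 (1160, 2320) (by decide +kernel)
                  (CovZ.leaf K2_ok TF_l3302 _)
                  (CovZ.leaf K2_ok TF_l3303 _))))))))))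

theorem TF_u82 : CovZ TF_M (toL (selN TF_LN 47812890602746210669099601242238316569075713233)) [0, 7, 4, 3] (960, 2240) (640, 1920) (1280, 1920) :=
    (CovZ.n1 (960, 1920) (by decide +kernel)
          (CovZ.n2 (800, 2080) (by decide +kernel)
           (CovZ.n2 (960, 2080) (by decide +kernel)
            (CovZ.subM 713711298921278631618377849266016440656331905 (by decide +kernel)
             (CovZ.n2 (880, 2000) (by decide +kernel)
              (CovZ.n2 (880, 2080) (by decide +kernel)
               (CovZ.n2 (920, 2040) (by decide +kernel)
                (CovZ.leaf K2_ok TF_l3304 _)
                (CovZ.n1 (920, 2080) (by decide +kernel)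
                 (CovZ.leaf K2_ok TF_l3305 _)
                 (CovZ.leaf K2_ok TF_l3306 _)))
               (CovZ.n1 (840, 2040) (by decide +kernel)
                (CovZ.leaf K2_ok TF_l3307 _)
                (CovZ.leaf K2_ok TF_l3308 _)))
              (CovZ.n1 (960, 2000) (by decide +kernel)
               (CovZ.n2 (920, 1960) (by decide +kernel)
                (CovZ.n2 (920, 2000) (by decide +kernel)
                 (CovZ.n2 (940, 1980) (by decide +kernel)
                  (CovZ.leaf K2_ok TF_l12224 _)
                  (CovZ.leaf K2_ok TF_l12225 _))
                 (CovZ.leaf K2_ok TF_l3309 _))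
                (CovZ.subM 713710958638911700776394071536309215522980992 (by decide +kernel)
                 (CovZ.n1 (960, 1960) (by decide +kernel)
                  (CovZ.n2 (940, 1940) (by decide +kernel)
                   (CovZ.leaf K2_ok TF_l12226 _)
                   (CovZ.leaf K2_ok TF_l12227 _))
                  (CovZ.n1 (940, 1980) (by decide +kernel)
                   (CovZ.leaf K2_ok TF_l12228 _)
                   (CovZ.leaf K2_ok TF_l12229 _)))))
               (CovZ.n1 (920, 2040) (by decide +kernel)
                (CovZ.n2 (960, 2040) (by decide +kernel)
                 (CovZ.leaf K2_ok TF_l12230 _)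
                 (CovZ.leaf K2_ok TF_l12231 _))
                (CovZ.leaf K2_ok TF_l3310 _)))))
            (CovZ.n1 (880, 2160) (by decide +kernel)
             (CovZ.subM 92897086169426104651459126749235656000657 (by decide +kernel)
              (CovZ.n2 (960, 2160) (by decide +kernel)
               (CovZ.n2 (920, 2120) (by decide +kernel)
                (CovZ.n2 (920, 2160) (by decide +kernel)
                 (CovZ.leaf K2_ok TF_l3311 _)
                 (CovZ.leaf K2_ok TF_l3312 _))
                (CovZ.n1 (960, 2120) (by decide +kernel)
                 (CovZ.leaf K2_ok TF_l3313 _)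
                 (CovZ.leaf K2_ok TF_l3314 _)))
               (CovZ.n1 (920, 2200) (by decide +kernel)
                (CovZ.n2 (960, 2200) (by decide +kernel)
                 (CovZ.leaf K2_ok TF_l3315 _)
                 (CovZ.leaf K2_ok TF_l3316 _))
                (CovZ.leaf K2_ok TF_l3317 _))))
             (CovZ.n1 (880, 2080) (by decide +kernel)
              (CovZ.n2 (840, 2120) (by decide +kernel)
               (CovZ.leaf K2_ok TF_l3318 _)
               (CovZ.leaf K2_ok TF_l3319 _))
              (CovZ.leaf K2_ok TF_l3320 _))))
           (CovZ.subM 713710958638911710679914385891409008888120449 (by decide +kernel)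
            (CovZ.n1 (800, 1920) (by decide +kernel)
             (CovZ.n2 (720, 2000) (by decide +kernel)
              (CovZ.n2 (800, 2000) (by decide +kernel)
               (CovZ.leaf K2_ok TF_l3321 _)
               (CovZ.leaf K2_ok TF_l3322 _))
              (CovZ.leaf K2_ok TF_l3323 _))
             (CovZ.n1 (880, 2000) (by decide +kernel)
              (CovZ.n2 (880, 1920) (by decide +kernel)
               (CovZ.n2 (840, 1960) (by decide +kernel)
                (CovZ.n2 (880, 1960) (by decide +kernel)
                 (CovZ.leaf K2_ok TF_l3324 _)
                 (CovZ.leaf K2_ok TF_l3325 _))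
                (CovZ.leaf K2_ok TF_l3326 _))
               (CovZ.n1 (920, 1960) (by decide +kernel)
                (CovZ.leaf K2_ok TF_l3327 _)
                (CovZ.leaf K2_ok TF_l3328 _)))
              (CovZ.n1 (800, 2000) (by decide +kernel)
               (CovZ.leaf K2_ok TF_l3329 _)
               (CovZ.n1 (840, 1960) (by decide +kernel)
                (CovZ.leaf K2_ok TF_l3330 _)
                (CovZ.leaf K2_ok TF_l3331 _)))))))
          (CovZ.subM 713629631153217606387147819951994271185241233 (by decide +kernel)
           (CovZ.n1 (1120, 2080) (by decide +kernel)
            (CovZ.subM 713624186635346861468210911011554852117414912 (by decide +kernel)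
             (CovZ.n2 (1120, 1920) (by decide +kernel)
              (CovZ.n2 (1040, 2000) (by decide +kernel)
               (CovZ.n2 (1120, 2000) (by decide +kernel)
                (CovZ.badM (by decide +kernel))
                (CovZ.n1 (1080, 2040) (by decide +kernel)
                 (CovZ.badM (by decide +kernel))
                 (CovZ.badM (by decide +kernel))))
               (CovZ.n1 (1040, 1920) (by decide +kernel)
                (CovZ.n2 (1000, 1960) (by decide +kernel)
                 (CovZ.badM (by decide +kernel))
                 (CovZ.n1 (1000, 1920) (by decide +kernel)
                  (CovZ.n2 (980, 1940) (by decide +kernel)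
                   (CovZ.n2 (1000, 1940) (by decide +kernel)
                    (CovZ.leaf K2_ok TF_l15817 _)
                    (CovZ.leaf K2_ok TF_l15818 _))
                   (CovZ.leaf K2_ok TF_l12232 _))
                  (CovZ.n1 (1020, 1940) (by decide +kernel)
                   (CovZ.badM (by decide +kernel))
                   (CovZ.n1 (1000, 1940) (by decide +kernel)
                    (CovZ.badM (by decide +kernel))
                    (CovZ.badM (by decide +kernel))))))
                (CovZ.badM (by decide +kernel))))
              (CovZ.badM (by decide +kernel))))
            (CovZ.n1 (960, 2080) (by decide +kernel)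
             (CovZ.n2 (1040, 2160) (by decide +kernel)
              (CovZ.n2 (1040, 2080) (by decide +kernel)
               (CovZ.n2 (1000, 2120) (by decide +kernel)
                (CovZ.subM 9903520314355240531121930369 (by decide +kernel)
                 (CovZ.n2 (1040, 2120) (by decide +kernel)
                  (CovZ.n2 (1020, 2100) (by decide +kernel)
                   (CovZ.n2 (1020, 2120) (by decide +kernel)
                    (CovZ.badM (by decide +kernel))
                    (CovZ.leaf K2_ok TF_l12233 _))
                   (CovZ.badM (by decide +kernel)))
                  (CovZ.n1 (1020, 2140) (by decide +kernel)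
                   (CovZ.n2 (1040, 2140) (by decide +kernel)
                    (CovZ.leaf K2_ok TF_l12234 _)
                    (CovZ.leaf K2_ok TF_l12235 _))
                   (CovZ.leaf K2_ok TF_l12236 _))))
                (CovZ.subM 340282366930842588240641766339802825856 (by decide +kernel)
                 (CovZ.n1 (1000, 2080) (by decide +kernel)
                  (CovZ.n2 (980, 2100) (by decide +kernel)
                   (CovZ.n2 (1000, 2100) (by decide +kernel)
                    (CovZ.leaf K2_ok TF_l12237 _)
                    (CovZ.leaf K2_ok TF_l12238 _))
                   (CovZ.leaf K2_ok TF_l12239 _))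
                  (CovZ.n1 (1020, 2100) (by decide +kernel)
                   (CovZ.badM (by decide +kernel))
                   (CovZ.n1 (1000, 2100) (by decide +kernel)
                    (CovZ.leaf K2_ok TF_l12240 _)
                    (CovZ.badM (by decide +kernel)))))))
               (CovZ.subM 9903520314283042199327211521 (by decide +kernel)
                (CovZ.n1 (1080, 2120) (by decide +kernel)
                 (CovZ.badM (by decide +kernel))
                 (CovZ.n1 (1040, 2120) (by decide +kernel)
                  (CovZ.n2 (1060, 2140) (by decide +kernel)
                   (CovZ.badM (by decide +kernel))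
                   (CovZ.n1 (1040, 2140) (by decide +kernel)
                    (CovZ.leaf K2_ok TF_l12241 _)
                    (CovZ.badM (by decide +kernel))))
                  (CovZ.badM (by decide +kernel))))))
              (CovZ.n1 (960, 2160) (by decide +kernel)
               (CovZ.n2 (1000, 2200) (by decide +kernel)
                (CovZ.leaf K2_ok TF_l3332 _)
                (CovZ.leaf K2_ok TF_l3333 _))
               (CovZ.n1 (1000, 2120) (by decide +kernel)
                (CovZ.n2 (960, 2120) (by decide +kernel)
                 (CovZ.leaf K2_ok TF_l12242 _)
                 (CovZ.n1 (980, 2100) (by decide +kernel)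
                  (CovZ.leaf K2_ok TF_l12243 _)
                  (CovZ.leaf K2_ok TF_l12244 _)))
                (CovZ.n1 (1000, 2160) (by decide +kernel)
                 (CovZ.n2 (1020, 2140) (by decide +kernel)
                  (CovZ.leaf K2_ok TF_l12245 _)
                  (CovZ.leaf K2_ok TF_l12246 _))
                 (CovZ.n1 (980, 2140) (by decide +kernel)
                  (CovZ.leaf K2_ok TF_l12247 _)
                  (CovZ.leaf K2_ok TF_l12248 _))))))
             (CovZ.n1 (1040, 2000) (by decide +kernel)
              (CovZ.n2 (960, 2000) (by decide +kernel)
               (CovZ.subM 340282366930842588240641766339802825856 (by decide +kernel)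
                (CovZ.n2 (1000, 2040) (by decide +kernel)
                 (CovZ.subM 604462912059114669474816 (by decide +kernel)
                  (CovZ.n2 (1000, 2000) (by decide +kernel)
                   (CovZ.n2 (980, 2020) (by decide +kernel)
                    (CovZ.n2 (1000, 2020) (by decide +kernel)
                     (CovZ.leaf K2_ok TF_l12249 _)
                     (CovZ.leaf K2_ok TF_l12250 _))
                    (CovZ.leaf K2_ok TF_l12251 _))
                   (CovZ.badM (by decide +kernel))))
                 (CovZ.n1 (960, 2040) (by decide +kernel)
                  (CovZ.leaf K2_ok TF_l12252 _)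
                  (CovZ.n1 (980, 2020) (by decide +kernel)
                   (CovZ.leaf K2_ok TF_l12253 _)
                   (CovZ.leaf K2_ok TF_l12254 _)))))
               (CovZ.subM 713623846352979940529747447636806682860848128 (by decide +kernel)
                (CovZ.n1 (1000, 1960) (by decide +kernel)
                 (CovZ.n2 (960, 1960) (by decide +kernel)
                  (CovZ.leaf K2_ok TF_l12255 _)
                  (CovZ.n1 (980, 1940) (by decide +kernel)
                   (CovZ.leaf K2_ok TF_l12256 _)
                   (CovZ.leaf K2_ok TF_l12257 _)))
                 (CovZ.n1 (1000, 2000) (by decide +kernel)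
                  (CovZ.badM (by decide +kernel))
                  (CovZ.n1 (980, 1980) (by decide +kernel)
                   (CovZ.leaf K2_ok TF_l12258 _)
                   (CovZ.badM (by decide +kernel)))))))
              (CovZ.n1 (1040, 2080) (by decide +kernel)
               (CovZ.n2 (1080, 2040) (by decide +kernel)
                (CovZ.badM (by decide +kernel))
                (CovZ.badM (by decide +kernel)))
               (CovZ.subM 340282366930842588240641766339802825856 (by decide +kernel)
                (CovZ.n1 (1000, 2040) (by decide +kernel)
                 (CovZ.n2 (1000, 2080) (by decide +kernel)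
                  (CovZ.n2 (1020, 2060) (by decide +kernel)
                   (CovZ.leaf K2_ok TF_l12259 _)
                   (CovZ.badM (by decide +kernel)))
                  (CovZ.n1 (980, 2060) (by decide +kernel)
                   (CovZ.leaf K2_ok TF_l12260 _)
                   (CovZ.leaf K2_ok TF_l12261 _)))
                 (CovZ.subM 340282366920938463463374607431768211456 (by decide +kernel)
                  (CovZ.n1 (1040, 2040) (by decide +kernel)
                   (CovZ.n2 (1020, 2020) (by decide +kernel)
                    (CovZ.n2 (1020, 2040) (by decide +kernel)
                     (CovZ.badM (by decide +kernel))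
                     (CovZ.leaf K2_ok TF_l12262 _))
                    (CovZ.badM (by decide +kernel)))
                   (CovZ.n1 (1020, 2060) (by decide +kernel)
                    (CovZ.badM (by decide +kernel))
                    (CovZ.leaf K2_ok TF_l12263 _))))))))))))

theorem TF_u83 : CovZ TF_M (toL (selN TF_LN 47812890602746210669099601242238316569075713233)) [0, 7, 4, 3] (0, 2560) (640, 1920) (1280, 2560) :=
    (CovZ.n2 (640, 2560) (by decide +kernel)
        (CovZ.n2 (960, 2240) (by decide +kernel)
         (CovZ.n2 (640, 2240) (by decide +kernel)
          (CovZ.n2 (800, 2400) (by decide +kernel)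
           (CovZ.n2 (800, 2240) (by decide +kernel)
            (CovZ.n2 (720, 2320) (by decide +kernel)
             (CovZ.n2 (800, 2320) (by decide +kernel)
              (CovZ.leaf K2_ok TF_l3207 _)
              (CovZ.leaf K2_ok TF_l3208 _))
             (CovZ.leaf K2_ok TF_l3209 _))
            (CovZ.n1 (880, 2320) (by decide +kernel)
             (CovZ.n2 (880, 2240) (by decide +kernel)
              (CovZ.leaf K2_ok TF_l3210 _)
              (CovZ.leaf K2_ok TF_l3211 _))
             (CovZ.leaf K2_ok TF_l3212 _)))
           (CovZ.n1 (640, 2400) (by decide +kernel)
            (CovZ.leaf K2_ok TF_l3213 _)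
            (CovZ.n1 (720, 2320) (by decide +kernel)
             (CovZ.leaf K2_ok TF_l3214 _)
             (CovZ.leaf K2_ok TF_l3215 _))))
          (CovZ.n1 (800, 2080) (by decide +kernel)
           (CovZ.n2 (640, 2080) (by decide +kernel)
            (CovZ.leaf K2_ok TF_l3216 _)
            (CovZ.n1 (720, 2000) (by decide +kernel)
             (CovZ.leaf K2_ok TF_l3217 _)
             (CovZ.leaf K2_ok TF_l3218 _)))
           (CovZ.n1 (800, 2240) (by decide +kernel)
            (CovZ.n2 (880, 2160) (by decide +kernel)
             (CovZ.n2 (800, 2160) (by decide +kernel)
              (CovZ.leaf K2_ok TF_l3219 _)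
              (CovZ.n1 (840, 2120) (by decide +kernel)
               (CovZ.leaf K2_ok TF_l3220 _)
               (CovZ.leaf K2_ok TF_l3221 _)))
             (CovZ.n1 (880, 2240) (by decide +kernel)
              (CovZ.n2 (920, 2200) (by decide +kernel)
               (CovZ.leaf K2_ok TF_l3222 _)
               (CovZ.leaf K2_ok TF_l3223 _))
              (CovZ.n1 (840, 2200) (by decide +kernel)
               (CovZ.leaf K2_ok TF_l3224 _)
               (CovZ.leaf K2_ok TF_l3225 _))))
            (CovZ.n1 (720, 2160) (by decide +kernel)
             (CovZ.leaf K2_ok TF_l3226 _)
             (CovZ.n1 (800, 2160) (by decide +kernel)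
              (CovZ.leaf K2_ok TF_l3227 _)
              (CovZ.leaf K2_ok TF_l3228 _))))))
         (CovZ.n1 (960, 2560) (by decide +kernel)
          (CovZ.n2 (1120, 2400) (by decide +kernel)
           (CovZ.n2 (960, 2400) (by decide +kernel)
            (CovZ.leaf K2_ok TF_l3229 _)
            (CovZ.subM 5784800237665858004872120594112941393041 (by decide +kernel)
             (CovZ.n1 (1040, 2320) (by decide +kernel)
              (CovZ.n2 (960, 2320) (by decide +kernel)
               (CovZ.leaf K2_ok TF_l3230 _)
               (CovZ.n1 (1000, 2280) (by decide +kernel)
                (CovZ.leaf K2_ok TF_l3231 _)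
                (CovZ.leaf K2_ok TF_l3232 _)))
              (CovZ.n1 (1040, 2400) (by decide +kernel)
               (CovZ.n2 (1080, 2360) (by decide +kernel)
                (CovZ.leaf K2_ok TF_l3233 _)
                (CovZ.leaf K2_ok TF_l3234 _))
               (CovZ.leaf K2_ok TF_l3235 _)))))
           (CovZ.n1 (1120, 2560) (by decide +kernel)
            (CovZ.n2 (1200, 2480) (by decide +kernel)
             (CovZ.leaf K2_ok TF_l3236 _)
             (CovZ.leaf K2_ok TF_l3237 _))
            (CovZ.n1 (1040, 2480) (by decide +kernel)
             (CovZ.leaf K2_ok TF_l3238 _)
             (CovZ.n1 (1120, 2480) (by decide +kernel)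
              (CovZ.leaf K2_ok TF_l3239 _)
              (CovZ.leaf K2_ok TF_l3240 _)))))
          (CovZ.n1 (800, 2400) (by decide +kernel)
           (CovZ.n2 (800, 2560) (by decide +kernel)
            (CovZ.n2 (880, 2480) (by decide +kernel)
             (CovZ.leaf K2_ok TF_l3241 _)
             (CovZ.leaf K2_ok TF_l3242 _))
            (CovZ.leaf K2_ok TF_l3243 _))
           (CovZ.n1 (960, 2400) (by decide +kernel)
            (CovZ.n2 (880, 2320) (by decide +kernel)
             (CovZ.n2 (880, 2400) (by decide +kernel)
              (CovZ.leaf K2_ok TF_l3244 _)
              (CovZ.leaf K2_ok TF_l3245 _))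
             (CovZ.n1 (960, 2320) (by decide +kernel)
              (CovZ.n2 (920, 2280) (by decide +kernel)
               (CovZ.leaf K2_ok TF_l3246 _)
               (CovZ.leaf K2_ok TF_l3247 _))
              (CovZ.leaf K2_ok TF_l3248 _)))
            (CovZ.n1 (880, 2480) (by decide +kernel)
             (CovZ.leaf K2_ok TF_l3249 _)
             (CovZ.leaf K2_ok TF_l3250 _))))))
        (CovZ.n1 (320, 2240) (by decide +kernel)
         (CovZ.n2 (320, 2560) (by decide +kernel)
          (CovZ.n2 (480, 2400) (by decide +kernel)
           (CovZ.leaf K2_ok TF_l3251 _)
           (CovZ.leaf K2_ok TF_l3252 _))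
          (CovZ.leaf K2_ok TF_l3253 _))
         (CovZ.n1 (640, 2240) (by decide +kernel)
          (CovZ.n2 (480, 2080) (by decide +kernel)
           (CovZ.leaf K2_ok TF_l3254 _)
           (CovZ.n1 (640, 2080) (by decide +kernel)
            (CovZ.leaf K2_ok TF_l3255 _)
            (CovZ.leaf K2_ok TF_l3256 _)))
          (CovZ.n1 (480, 2400) (by decide +kernel)
           (CovZ.n2 (640, 2400) (by decide +kernel)
            (CovZ.leaf K2_ok TF_l3257 _)
            (CovZ.leaf K2_ok TF_l3258 _))
           (CovZ.leaf K2_ok TF_l3259 _)))))

theorem TF_u84 : CovZ TF_M (toL (selN TF_LN 47812890602746210669099601242238316569075713233)) [0, 7, 4, 3] (640, 1920) (1280, 1280) (1280, 2560) :=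
    (CovZ.n1 (1280, 1920) (by decide +kernel)
        (CovZ.subM 713710958638911710679914385891549746376475777 (by decide +kernel)
         (CovZ.n2 (960, 1600) (by decide +kernel)
          (CovZ.n2 (960, 1920) (by decide +kernel)
           (CovZ.subM 604462912199852157830144 (by decide +kernel)
            (CovZ.n2 (1120, 1760) (by decide +kernel)
             (CovZ.n2 (960, 1760) (by decide +kernel)
              (CovZ.n2 (1040, 1840) (by decide +kernel)
               (CovZ.badM (by decide +kernel))
               (CovZ.n1 (960, 1840) (by decide +kernel)
                (CovZ.n2 (1000, 1880) (by decide +kernel)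
                 (CovZ.n2 (1000, 1840) (by decide +kernel)
                  (CovZ.n2 (980, 1860) (by decide +kernel)
                   (CovZ.badM (by decide +kernel))
                   (CovZ.leaf K2_ok TF_l12131 _))
                  (CovZ.badM (by decide +kernel)))
                 (CovZ.n1 (960, 1880) (by decide +kernel)
                  (CovZ.leaf K2_ok TF_l12132 _)
                  (CovZ.n1 (980, 1860) (by decide +kernel)
                   (CovZ.leaf K2_ok TF_l12133 _)
                   (CovZ.n1 (980, 1880) (by decide +kernel)
                    (CovZ.badM (by decide +kernel))
                    (CovZ.leaf K2_ok TF_l12134 _)))))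
                (CovZ.n1 (1000, 1800) (by decide +kernel)
                 (CovZ.n2 (960, 1800) (by decide +kernel)
                  (CovZ.n2 (980, 1820) (by decide +kernel)
                   (CovZ.badM (by decide +kernel))
                   (CovZ.leaf K2_ok TF_l12135 _))
                  (CovZ.badM (by decide +kernel)))
                 (CovZ.n1 (1000, 1840) (by decide +kernel)
                  (CovZ.badM (by decide +kernel))
                  (CovZ.n1 (980, 1820) (by decide +kernel)
                   (CovZ.n2 (980, 1840) (by decide +kernel)
                    (CovZ.badM (by decide +kernel))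
                    (CovZ.leaf K2_ok TF_l12136 _))
                   (CovZ.badM (by decide +kernel)))))))
              (CovZ.badM (by decide +kernel)))
             (CovZ.n1 (1120, 1920) (by decide +kernel)
              (CovZ.n2 (1200, 1840) (by decide +kernel)
               (CovZ.badM (by decide +kernel))
               (CovZ.badM (by decide +kernel)))
              (CovZ.n1 (1040, 1840) (by decide +kernel)
               (CovZ.n2 (1040, 1920) (by decide +kernel)
                (CovZ.badM (by decide +kernel))
                (CovZ.n1 (1000, 1880) (by decide +kernel)
                 (CovZ.n2 (1000, 1920) (by decide +kernel)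
                  (CovZ.badM (by decide +kernel))
                  (CovZ.n1 (980, 1900) (by decide +kernel)
                   (CovZ.leaf K2_ok TF_l12137 _)
                   (CovZ.badM (by decide +kernel))))
                 (CovZ.badM (by decide +kernel))))
               (CovZ.badM (by decide +kernel))))))
           (CovZ.n1 (800, 1760) (by decide +kernel)
            (CovZ.n2 (800, 1920) (by decide +kernel)
             (CovZ.n2 (880, 1840) (by decide +kernel)
              (CovZ.n2 (800, 1840) (by decide +kernel)
               (CovZ.leaf K2_ok TF_l3260 _)
               (CovZ.n1 (840, 1800) (by decide +kernel)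
                (CovZ.leaf K2_ok TF_l3261 _)
                (CovZ.leaf K2_ok TF_l3262 _)))
              (CovZ.n1 (880, 1920) (by decide +kernel)
               (CovZ.n2 (920, 1880) (by decide +kernel)
                (CovZ.leaf K2_ok TF_l12138 _)
                (CovZ.n1 (920, 1920) (by decide +kernel)
                 (CovZ.n2 (940, 1900) (by decide +kernel)
                  (CovZ.leaf K2_ok TF_l12139 _)
                  (CovZ.leaf K2_ok TF_l12140 _))
                 (CovZ.leaf K2_ok TF_l12141 _)))
               (CovZ.n1 (840, 1880) (by decide +kernel)
                (CovZ.leaf K2_ok TF_l3263 _)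
                (CovZ.n1 (880, 1880) (by decide +kernel)
                 (CovZ.leaf K2_ok TF_l3264 _)
                 (CovZ.leaf K2_ok TF_l3265 _)))))
             (CovZ.n1 (720, 1840) (by decide +kernel)
              (CovZ.n2 (720, 1920) (by decide +kernel)
               (CovZ.leaf K2_ok TF_l3266 _)
               (CovZ.leaf K2_ok TF_l3267 _))
              (CovZ.n1 (800, 1840) (by decide +kernel)
               (CovZ.leaf K2_ok TF_l3268 _)
               (CovZ.leaf K2_ok TF_l3269 _))))
            (CovZ.subM 87112285931760247251086883619241369535616 (by decide +kernel)
             (CovZ.n1 (960, 1760) (by decide +kernel)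
              (CovZ.n2 (880, 1680) (by decide +kernel)
               (CovZ.n2 (880, 1760) (by decide +kernel)
                (CovZ.n2 (920, 1720) (by decide +kernel)
                 (CovZ.n2 (880, 1720) (by decide +kernel)
                  (CovZ.leaf K2_ok TF_l12142 _)
                  (CovZ.leaf K2_ok TF_l12143 _))
                 (CovZ.n1 (920, 1760) (by decide +kernel)
                  (CovZ.n2 (940, 1740) (by decide +kernel)
                   (CovZ.leaf K2_ok TF_l12144 _)
                   (CovZ.leaf K2_ok TF_l12145 _))
                  (CovZ.leaf K2_ok TF_l12146 _)))
                (CovZ.n1 (840, 1720) (by decide +kernel)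
                 (CovZ.leaf K2_ok TF_l12147 _)
                 (CovZ.n1 (880, 1720) (by decide +kernel)
                  (CovZ.leaf K2_ok TF_l12148 _)
                  (CovZ.leaf K2_ok TF_l12149 _))))
               (CovZ.n1 (960, 1680) (by decide +kernel)
                (CovZ.n2 (920, 1640) (by decide +kernel)
                 (CovZ.n2 (920, 1680) (by decide +kernel)
                  (CovZ.n2 (940, 1660) (by decide +kernel)
                   (CovZ.leaf K2_ok TF_l12150 _)
                   (CovZ.leaf K2_ok TF_l12151 _))
                  (CovZ.leaf K2_ok TF_l12152 _))
                 (CovZ.subM 87112285931760247251086811561647063172096 (by decide +kernel)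
                  (CovZ.n1 (960, 1640) (by decide +kernel)
                   (CovZ.n2 (940, 1620) (by decide +kernel)
                    (CovZ.leaf K2_ok TF_l12153 _)
                    (CovZ.leaf K2_ok TF_l12154 _))
                   (CovZ.n1 (940, 1660) (by decide +kernel)
                    (CovZ.n2 (960, 1660) (by decide +kernel)
                     (CovZ.leaf K2_ok TF_l12155 _)
                     (CovZ.leaf K2_ok TF_l12156 _))
                    (CovZ.leaf K2_ok TF_l12157 _)))))
                (CovZ.n1 (920, 1720) (by decide +kernel)
                 (CovZ.n2 (960, 1720) (by decide +kernel)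
                  (CovZ.n2 (940, 1700) (by decide +kernel)
                   (CovZ.leaf K2_ok TF_l12158 _)
                   (CovZ.n1 (960, 1700) (by decide +kernel)
                    (CovZ.leaf K2_ok TF_l12159 _)
                    (CovZ.leaf K2_ok TF_l12160 _)))
                  (CovZ.n1 (940, 1740) (by decide +kernel)
                   (CovZ.n2 (960, 1740) (by decide +kernel)
                    (CovZ.leaf K2_ok TF_l12161 _)
                    (CovZ.leaf K2_ok TF_l12162 _))
                   (CovZ.leaf K2_ok TF_l12163 _)))
                 (CovZ.leaf K2_ok TF_l12164 _))))
              (CovZ.n1 (880, 1840) (by decide +kernel)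
               (CovZ.n2 (960, 1840) (by decide +kernel)
                (CovZ.n2 (920, 1800) (by decide +kernel)
                 (CovZ.n2 (920, 1840) (by decide +kernel)
                  (CovZ.n2 (940, 1820) (by decide +kernel)
                   (CovZ.leaf K2_ok TF_l12165 _)
                   (CovZ.leaf K2_ok TF_l12166 _))
                  (CovZ.leaf K2_ok TF_l12167 _))
                 (CovZ.n1 (960, 1800) (by decide +kernel)
                  (CovZ.n2 (940, 1780) (by decide +kernel)
                   (CovZ.leaf K2_ok TF_l12168 _)
                   (CovZ.leaf K2_ok TF_l12169 _))
                  (CovZ.n1 (940, 1820) (by decide +kernel)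
                   (CovZ.n2 (960, 1820) (by decide +kernel)
                    (CovZ.leaf K2_ok TF_l12170 _)
                    (CovZ.leaf K2_ok TF_l12171 _))
                   (CovZ.leaf K2_ok TF_l12172 _))))
                (CovZ.n1 (920, 1880) (by decide +kernel)
                 (CovZ.n2 (960, 1880) (by decide +kernel)
                  (CovZ.n2 (940, 1860) (by decide +kernel)
                   (CovZ.leaf K2_ok TF_l12173 _)
                   (CovZ.leaf K2_ok TF_l12174 _))
                  (CovZ.n1 (940, 1900) (by decide +kernel)
                   (CovZ.leaf K2_ok TF_l12175 _)
                   (CovZ.leaf K2_ok TF_l12176 _)))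
                 (CovZ.leaf K2_ok TF_l12177 _)))
               (CovZ.n1 (880, 1760) (by decide +kernel)
                (CovZ.n2 (840, 1800) (by decide +kernel)
                 (CovZ.n2 (880, 1800) (by decide +kernel)
                  (CovZ.leaf K2_ok TF_l12178 _)
                  (CovZ.leaf K2_ok TF_l12179 _))
                 (CovZ.leaf K2_ok TF_l12180 _))
                (CovZ.n1 (920, 1800) (by decide +kernel)
                 (CovZ.leaf K2_ok TF_l12181 _)
                 (CovZ.leaf K2_ok TF_l12182 _))))))))
          (CovZ.subM 140737488355328 (by decide +kernel)
           (CovZ.n1 (1280, 1600) (by decide +kernel)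
            (CovZ.badM (by decide +kernel))
            (CovZ.n1 (1120, 1760) (by decide +kernel)
             (CovZ.n2 (1280, 1760) (by decide +kernel)
              (CovZ.badM (by decide +kernel))
              (CovZ.n1 (1200, 1840) (by decide +kernel)
               (CovZ.badM (by decide +kernel))
               (CovZ.badM (by decide +kernel))))
             (CovZ.badM (by decide +kernel)))))))
        (CovZ.n1 (960, 2240) (by decide +kernel)
         TF_u81
         TF_u82))

theorem TF_u85 : CovZ TF_M (toL (selN TF_LN 162259276942550158987080960573698)) [0, 7, 4, 3] (26240, 2560) (25920, 2560) (25920, 2240) :=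
    (CovZ.n2 (26080, 2400) (by decide +kernel)
           (CovZ.n2 (25920, 2400) (by decide +kernel)
            (CovZ.n2 (26000, 2480) (by decide +kernel)
             (CovZ.n2 (26000, 2400) (by decide +kernel)
              (CovZ.n2 (25960, 2440) (by decide +kernel)
               (CovZ.n2 (26000, 2440) (by decide +kernel)
                (CovZ.n2 (25980, 2420) (by decide +kernel)
                 (CovZ.leaf K2_ok TF_l15606 _)
                 (CovZ.leaf K2_ok TF_l15607 _))
                (CovZ.leaf K2_ok TF_l7984 _))
               (CovZ.n1 (25960, 2400) (by decide +kernel)
                (CovZ.n2 (25940, 2420) (by decide +kernel)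
                 (CovZ.leaf K2_ok TF_l15608 _)
                 (CovZ.leaf K2_ok TF_l15609 _))
                (CovZ.leaf K2_ok TF_l15610 _)))
              (CovZ.subM 37778931867355243872514 (by decide +kernel)
               (CovZ.n1 (26040, 2440) (by decide +kernel)
                (CovZ.n2 (26040, 2400) (by decide +kernel)
                 (CovZ.n2 (26020, 2420) (by decide +kernel)
                  (CovZ.leaf K2_ok TF_l15611 _)
                  (CovZ.leaf K2_ok TF_l15612 _))
                 (CovZ.leaf K2_ok TF_l15613 _))
                (CovZ.n1 (26000, 2440) (by decide +kernel)
                 (CovZ.leaf K2_ok TF_l7985 _)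
                 (CovZ.n1 (26020, 2420) (by decide +kernel)
                  (CovZ.leaf K2_ok TF_l15614 _)
                  (CovZ.leaf K2_ok TF_l15615 _))))))
             (CovZ.n1 (25920, 2480) (by decide +kernel)
              (CovZ.leaf K2_ok TF_l7986 _)
              (CovZ.n1 (25960, 2440) (by decide +kernel)
               (CovZ.n2 (25920, 2440) (by decide +kernel)
                (CovZ.leaf K2_ok TF_l7987 _)
                (CovZ.n1 (25940, 2420) (by decide +kernel)
                 (CovZ.leaf K2_ok TF_l15616 _)
                 (CovZ.leaf K2_ok TF_l15617 _)))
               (CovZ.n1 (25960, 2480) (by decide +kernel)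
                (CovZ.leaf K2_ok TF_l7988 _)
                (CovZ.leaf K2_ok TF_l7989 _)))))
            (CovZ.n1 (26000, 2320) (by decide +kernel)
             (CovZ.n2 (25920, 2320) (by decide +kernel)
              (CovZ.n2 (25960, 2360) (by decide +kernel)
               (CovZ.n2 (25960, 2320) (by decide +kernel)
                (CovZ.n2 (25940, 2340) (by decide +kernel)
                 (CovZ.leaf K2_ok TF_l15618 _)
                 (CovZ.leaf K2_ok TF_l15619 _))
                (CovZ.leaf K2_ok TF_l15620 _))
               (CovZ.n1 (25920, 2360) (by decide +kernel)
                (CovZ.leaf K2_ok TF_l15621 _)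
                (CovZ.n1 (25940, 2340) (by decide +kernel)
                 (CovZ.leaf K2_ok TF_l15622 _)
                 (CovZ.leaf K2_ok TF_l15623 _))))
              (CovZ.n1 (25960, 2280) (by decide +kernel)
               (CovZ.leaf K2_ok TF_l15624 _)
               (CovZ.n1 (25960, 2320) (by decide +kernel)
                (CovZ.n2 (25980, 2300) (by decide +kernel)
                 (CovZ.leaf K2_ok TF_l15625 _)
                 (CovZ.leaf K2_ok TF_l15626 _))
                (CovZ.leaf K2_ok TF_l15627 _))))
             (CovZ.n1 (26000, 2400) (by decide +kernel)
              (CovZ.subM 37778931867355243872514 (by decide +kernel)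
               (CovZ.n2 (26040, 2360) (by decide +kernel)
                (CovZ.n2 (26000, 2360) (by decide +kernel)
                 (CovZ.n2 (26020, 2380) (by decide +kernel)
                  (CovZ.subM 35651840 (by decide +kernel)
                   (CovZ.n2 (26020, 2360) (by decide +kernel)
                    (CovZ.n2 (26010, 2370) (by decide +kernel)
                     (CovZ.n2 (26020, 2370) (by decide +kernel)
                      (CovZ.leaf K2_ok TF_l15628 _)
                      (CovZ.n1 (26015, 2375) (by decide +kernel)
                       (CovZ.leaf K2_ok TF_l15629 _)
                       (CovZ.leaf K2_ok TF_l15630 _)))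
                     (CovZ.n1 (26010, 2360) (by decide +kernel)
                      (CovZ.leaf K2_ok TF_l15631 _)
                      (CovZ.leaf K2_ok TF_l15632 _)))
                    (CovZ.leaf K2_ok TF_l15633 _)))
                  (CovZ.n1 (26000, 2380) (by decide +kernel)
                   (CovZ.leaf K2_ok TF_l15634 _)
                   (CovZ.n1 (26010, 2370) (by decide +kernel)
                    (CovZ.n2 (26000, 2370) (by decide +kernel)
                     (CovZ.leaf K2_ok TF_l15635 _)
                     (CovZ.leaf K2_ok TF_l15636 _))
                    (CovZ.n1 (26010, 2380) (by decide +kernel)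
                     (CovZ.n2 (26015, 2375) (by decide +kernel)
                      (CovZ.leaf K2_ok TF_l15637 _)
                      (CovZ.leaf K2_ok TF_l15638 _))
                     (CovZ.leaf K2_ok TF_l15639 _)))))
                 (CovZ.subM 35651584 (by decide +kernel)
                  (CovZ.n1 (26020, 2340) (by decide +kernel)
                   (CovZ.n2 (26000, 2340) (by decide +kernel)
                    (CovZ.n2 (26010, 2350) (by decide +kernel)
                     (CovZ.badM (by decide +kernel))
                     (CovZ.n1 (26000, 2350) (by decide +kernel)
                      (CovZ.leaf K2_ok TF_l15640 _)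
                      (CovZ.badM (by decide +kernel))))
                    (CovZ.badM (by decide +kernel)))
                   (CovZ.n1 (26020, 2360) (by decide +kernel)
                    (CovZ.badM (by decide +kernel))
                    (CovZ.n1 (26010, 2350) (by decide +kernel)
                     (CovZ.n2 (26010, 2360) (by decide +kernel)
                      (CovZ.badM (by decide +kernel))
                      (CovZ.n1 (26005, 2355) (by decide +kernel)
                       (CovZ.leaf K2_ok TF_l15641 _)
                       (CovZ.badM (by decide +kernel))))
                     (CovZ.badM (by decide +kernel)))))))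
                (CovZ.n1 (26040, 2400) (by decide +kernel)
                 (CovZ.n2 (26060, 2380) (by decide +kernel)
                  (CovZ.n2 (26040, 2380) (by decide +kernel)
                   (CovZ.leaf K2_ok TF_l15642 _)
                   (CovZ.badM (by decide +kernel)))
                  (CovZ.n1 (26060, 2400) (by decide +kernel)
                   (CovZ.badM (by decide +kernel))
                   (CovZ.leaf K2_ok TF_l15643 _)))
                 (CovZ.n1 (26020, 2380) (by decide +kernel)
                  (CovZ.n2 (26020, 2400) (by decide +kernel)
                   (CovZ.leaf K2_ok TF_l15644 _)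
                   (CovZ.leaf K2_ok TF_l15645 _))
                  (CovZ.subM 35651840 (by decide +kernel)
                   (CovZ.n1 (26040, 2380) (by decide +kernel)
                    (CovZ.n2 (26030, 2370) (by decide +kernel)
                     (CovZ.n2 (26030, 2380) (by decide +kernel)
                      (CovZ.n2 (26035, 2375) (by decide +kernel)
                       (CovZ.leaf K2_ok TF_l15646 _)
                       (CovZ.leaf K2_ok TF_l15647 _))
                      (CovZ.leaf K2_ok TF_l15648 _))
                     (CovZ.n1 (26040, 2370) (by decide +kernel)
                      (CovZ.badM (by decide +kernel))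
                      (CovZ.n1 (26035, 2375) (by decide +kernel)
                       (CovZ.badM (by decide +kernel))
                       (CovZ.leaf K2_ok TF_l15649 _))))
                    (CovZ.leaf K2_ok TF_l15650 _)))))))
              (CovZ.n1 (25960, 2360) (by decide +kernel)
               (CovZ.n2 (25960, 2400) (by decide +kernel)
                (CovZ.n2 (25980, 2380) (by decide +kernel)
                 (CovZ.n2 (25960, 2380) (by decide +kernel)
                  (CovZ.leaf K2_ok TF_l15651 _)
                  (CovZ.n1 (25970, 2370) (by decide +kernel)
                   (CovZ.leaf K2_ok TF_l15652 _)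
                   (CovZ.n1 (25970, 2380) (by decide +kernel)
                    (CovZ.leaf K2_ok TF_l15653 _)
                    (CovZ.leaf K2_ok TF_l15654 _))))
                 (CovZ.n1 (25980, 2400) (by decide +kernel)
                  (CovZ.leaf K2_ok TF_l15655 _)
                  (CovZ.leaf K2_ok TF_l15656 _)))
                (CovZ.n1 (25940, 2380) (by decide +kernel)
                 (CovZ.n2 (25940, 2400) (by decide +kernel)
                  (CovZ.leaf K2_ok TF_l15657 _)
                  (CovZ.leaf K2_ok TF_l15658 _))
                 (CovZ.n1 (25960, 2380) (by decide +kernel)
                  (CovZ.leaf K2_ok TF_l15659 _)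
                  (CovZ.leaf K2_ok TF_l15660 _))))
               (CovZ.n1 (26000, 2360) (by decide +kernel)
                (CovZ.n2 (25980, 2340) (by decide +kernel)
                 (CovZ.n2 (25980, 2360) (by decide +kernel)
                  (CovZ.n2 (25990, 2350) (by decide +kernel)
                   (CovZ.leaf K2_ok TF_l15661 _)
                   (CovZ.n1 (25990, 2360) (by decide +kernel)
                    (CovZ.leaf K2_ok TF_l15662 _)
                    (CovZ.leaf K2_ok TF_l15663 _)))
                  (CovZ.leaf K2_ok TF_l15664 _))
                 (CovZ.subM 35651584 (by decide +kernel)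
                  (CovZ.n1 (26000, 2340) (by decide +kernel)
                   (CovZ.badM (by decide +kernel))
                   (CovZ.n1 (25990, 2350) (by decide +kernel)
                    (CovZ.n2 (26000, 2350) (by decide +kernel)
                     (CovZ.leaf K2_ok TF_l15665 _)
                     (CovZ.leaf K2_ok TF_l15666 _))
                    (CovZ.leaf K2_ok TF_l15667 _)))))
                (CovZ.n1 (25980, 2380) (by decide +kernel)
                 (CovZ.subM 37778931862957197361410 (by decide +kernel)
                  (CovZ.n2 (26000, 2380) (by decide +kernel)
                   (CovZ.n2 (25990, 2370) (by decide +kernel)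
                    (CovZ.n2 (25990, 2380) (by decide +kernel)
                     (CovZ.leaf K2_ok TF_l15668 _)
                     (CovZ.leaf K2_ok TF_l15669 _))
                    (CovZ.n1 (26000, 2370) (by decide +kernel)
                     (CovZ.leaf K2_ok TF_l15670 _)
                     (CovZ.leaf K2_ok TF_l15671 _)))
                   (CovZ.leaf K2_ok TF_l15672 _)))
                 (CovZ.n1 (25980, 2360) (by decide +kernel)
                  (CovZ.n2 (25970, 2370) (by decide +kernel)
                   (CovZ.leaf K2_ok TF_l15673 _)
                   (CovZ.leaf K2_ok TF_l15674 _))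
                  (CovZ.n1 (25990, 2370) (by decide +kernel)
                   (CovZ.leaf K2_ok TF_l15675 _)
                   (CovZ.leaf K2_ok TF_l15676 _)))))))))
           (CovZ.subM 162259276866992295254535207649538 (by decide +kernel)
            (CovZ.n1 (26080, 2560) (by decide +kernel)
             (CovZ.n2 (26160, 2480) (by decide +kernel)
              (CovZ.n2 (26080, 2480) (by decide +kernel)
               (CovZ.leaf K2_ok TF_l7990 _)
               (CovZ.n1 (26120, 2440) (by decide +kernel)
                (CovZ.n2 (26080, 2440) (by decide +kernel)
                 (CovZ.leaf K2_ok TF_l7991 _)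
                 (CovZ.n1 (26100, 2420) (by decide +kernel)
                  (CovZ.leaf K2_ok TF_l15677 _)
                  (CovZ.leaf K2_ok TF_l15678 _)))
                (CovZ.n1 (26120, 2480) (by decide +kernel)
                 (CovZ.leaf K2_ok TF_l7992 _)
                 (CovZ.leaf K2_ok TF_l7993 _))))
              (CovZ.n1 (26160, 2560) (by decide +kernel)
               (CovZ.n2 (26200, 2520) (by decide +kernel)
                (CovZ.leaf K2_ok TF_l7994 _)
                (CovZ.leaf K2_ok TF_l15679 _))
               (CovZ.leaf K2_ok TF_l7995 _)))
             (CovZ.n1 (26000, 2480) (by decide +kernel)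
              (CovZ.n2 (26000, 2560) (by decide +kernel)
               (CovZ.n2 (26040, 2520) (by decide +kernel)
                (CovZ.leaf K2_ok TF_l7996 _)
                (CovZ.leaf K2_ok TF_l7997 _))
               (CovZ.leaf K2_ok TF_l7998 _))
              (CovZ.n1 (26080, 2480) (by decide +kernel)
               (CovZ.n2 (26040, 2440) (by decide +kernel)
                (CovZ.n2 (26040, 2480) (by decide +kernel)
                 (CovZ.leaf K2_ok TF_l7999 _)
                 (CovZ.leaf K2_ok TF_l8000 _))
                (CovZ.n1 (26080, 2440) (by decide +kernel)
                 (CovZ.n2 (26060, 2420) (by decide +kernel)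
                  (CovZ.leaf K2_ok TF_l15680 _)
                  (CovZ.leaf K2_ok TF_l15681 _))
                 (CovZ.leaf K2_ok TF_l8001 _)))
               (CovZ.n1 (26040, 2520) (by decide +kernel)
                (CovZ.leaf K2_ok TF_l8002 _)
                (CovZ.leaf K2_ok TF_l8003 _)))))))

theorem TF_u86 : CovZ TF_M (toL (selN TF_LN 162259276942550158987080960573698)) [0, 7, 4, 3] (25920, 2560) (25600, 2560) (25920, 2240) :=
    (CovZ.n1 (25760, 2400) (by decide +kernel)
           (CovZ.n2 (25760, 2560) (by decide +kernel)
            (CovZ.n2 (25840, 2480) (by decide +kernel)
             (CovZ.n2 (25760, 2480) (by decide +kernel)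
              (CovZ.leaf K2_ok TF_l8004 _)
              (CovZ.n1 (25800, 2440) (by decide +kernel)
               (CovZ.leaf K2_ok TF_l8005 _)
               (CovZ.n1 (25800, 2480) (by decide +kernel)
                (CovZ.leaf K2_ok TF_l8006 _)
                (CovZ.leaf K2_ok TF_l8007 _))))
             (CovZ.n1 (25840, 2560) (by decide +kernel)
              (CovZ.n2 (25880, 2520) (by decide +kernel)
               (CovZ.leaf K2_ok TF_l8008 _)
               (CovZ.leaf K2_ok TF_l8009 _))
              (CovZ.leaf K2_ok TF_l8010 _)))
            (CovZ.n1 (25680, 2480) (by decide +kernel)
             (CovZ.n2 (25680, 2560) (by decide +kernel)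
              (CovZ.n2 (25720, 2520) (by decide +kernel)
               (CovZ.leaf K2_ok TF_l8011 _)
               (CovZ.leaf K2_ok TF_l8012 _))
              (CovZ.leaf K2_ok TF_l8013 _))
             (CovZ.n1 (25760, 2480) (by decide +kernel)
              (CovZ.leaf K2_ok TF_l8014 _)
              (CovZ.n1 (25720, 2520) (by decide +kernel)
               (CovZ.leaf K2_ok TF_l8015 _)
               (CovZ.leaf K2_ok TF_l8016 _)))))
           (CovZ.n1 (25920, 2400) (by decide +kernel)
            (CovZ.n2 (25840, 2320) (by decide +kernel)
             (CovZ.n2 (25840, 2400) (by decide +kernel)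
              (CovZ.n2 (25880, 2360) (by decide +kernel)
               (CovZ.leaf K2_ok TF_l8017 _)
               (CovZ.n1 (25880, 2400) (by decide +kernel)
                (CovZ.n2 (25900, 2380) (by decide +kernel)
                 (CovZ.leaf K2_ok TF_l15682 _)
                 (CovZ.leaf K2_ok TF_l15683 _))
                (CovZ.leaf K2_ok TF_l15684 _)))
              (CovZ.leaf K2_ok TF_l8018 _))
             (CovZ.n1 (25920, 2320) (by decide +kernel)
              (CovZ.leaf K2_ok TF_l8019 _)
              (CovZ.n1 (25880, 2360) (by decide +kernel)
               (CovZ.n2 (25920, 2360) (by decide +kernel)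
                (CovZ.leaf K2_ok TF_l15685 _)
                (CovZ.n1 (25900, 2380) (by decide +kernel)
                 (CovZ.leaf K2_ok TF_l15686 _)
                 (CovZ.leaf K2_ok TF_l15687 _)))
               (CovZ.leaf K2_ok TF_l8020 _))))
            (CovZ.n1 (25840, 2480) (by decide +kernel)
             (CovZ.n2 (25920, 2480) (by decide +kernel)
              (CovZ.n2 (25880, 2440) (by decide +kernel)
               (CovZ.n2 (25880, 2480) (by decide +kernel)
                (CovZ.leaf K2_ok TF_l8021 _)
                (CovZ.leaf K2_ok TF_l8022 _))
               (CovZ.n1 (25920, 2440) (by decide +kernel)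
                (CovZ.n2 (25900, 2420) (by decide +kernel)
                 (CovZ.leaf K2_ok TF_l15688 _)
                 (CovZ.leaf K2_ok TF_l15689 _))
                (CovZ.leaf K2_ok TF_l8023 _)))
              (CovZ.n1 (25880, 2520) (by decide +kernel)
               (CovZ.leaf K2_ok TF_l8024 _)
               (CovZ.leaf K2_ok TF_l8025 _)))
             (CovZ.n1 (25840, 2400) (by decide +kernel)
              (CovZ.n2 (25800, 2440) (by decide +kernel)
               (CovZ.n2 (25840, 2440) (by decide +kernel)
                (CovZ.leaf K2_ok TF_l8026 _)
                (CovZ.leaf K2_ok TF_l8027 _))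
               (CovZ.leaf K2_ok TF_l8028 _))
              (CovZ.n1 (25880, 2440) (by decide +kernel)
               (CovZ.n2 (25880, 2400) (by decide +kernel)
                (CovZ.n2 (25860, 2420) (by decide +kernel)
                 (CovZ.leaf K2_ok TF_l15690 _)
                 (CovZ.leaf K2_ok TF_l15691 _))
                (CovZ.leaf K2_ok TF_l15692 _))
               (CovZ.n1 (25840, 2440) (by decide +kernel)
                (CovZ.leaf K2_ok TF_l8029 _)
                (CovZ.n1 (25860, 2420) (by decide +kernel)
                 (CovZ.leaf K2_ok TF_l15693 _)
                 (CovZ.leaf K2_ok TF_l15694 _))))))))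

theorem TF_u87 : CovZ TF_M (toL (selN TF_LN 664816823226547829237127645851943682)) [0, 7, 4, 3] (25600, 0) (26880, 1280) (25600, 2560) :=
    (CovZ.n2 (25600, 1280) (by decide +kernel)
     (CovZ.n2 (26240, 1920) (by decide +kernel)
      (CovZ.subM 664776258407227189100675417946193920 (by decide +kernel)
       (CovZ.n2 (26240, 1280) (by decide +kernel)
        (CovZ.n2 (25920, 1600) (by decide +kernel)
         (CovZ.n2 (26240, 1600) (by decide +kernel)
          (CovZ.leaf K2_ok TF_l7902 _)
          (CovZ.n1 (26080, 1760) (by decide +kernel)
           (CovZ.n2 (26240, 1760) (by decide +kernel)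
            (CovZ.leaf K2_ok TF_l7903 _)
            (CovZ.n1 (26160, 1840) (by decide +kernel)
             (CovZ.leaf K2_ok TF_l7904 _)
             (CovZ.leaf K2_ok TF_l7905 _)))
           (CovZ.leaf K2_ok TF_l7906 _)))
         (CovZ.leaf K2_ok TF_l7907 _))
        (CovZ.n1 (26560, 1600) (by decide +kernel)
         (CovZ.n2 (26560, 1280) (by decide +kernel)
          (CovZ.n2 (26400, 1440) (by decide +kernel)
           (CovZ.n2 (26560, 1440) (by decide +kernel)
            (CovZ.leaf K2_ok TF_l7908 _)
            (CovZ.n1 (26480, 1520) (by decide +kernel)
             (CovZ.leaf K2_ok TF_l7909 _)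
             (CovZ.leaf K2_ok TF_l7910 _)))
           (CovZ.leaf K2_ok TF_l7911 _))
          (CovZ.n1 (26720, 1440) (by decide +kernel)
           (CovZ.n2 (26720, 1280) (by decide +kernel)
            (CovZ.n2 (26640, 1360) (by decide +kernel)
             (CovZ.leaf K2_ok TF_l7912 _)
             (CovZ.leaf K2_ok TF_l7913 _))
            (CovZ.leaf K2_ok TF_l7914 _))
           (CovZ.n1 (26560, 1440) (by decide +kernel)
            (CovZ.leaf K2_ok TF_l7915 _)
            (CovZ.n1 (26640, 1360) (by decide +kernel)
             (CovZ.leaf K2_ok TF_l7916 _)
             (CovZ.leaf K2_ok TF_l7917 _)))))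
         (CovZ.n1 (26240, 1600) (by decide +kernel)
          (CovZ.n2 (26400, 1760) (by decide +kernel)
           (CovZ.n2 (26400, 1600) (by decide +kernel)
            (CovZ.n2 (26320, 1680) (by decide +kernel)
             (CovZ.leaf K2_ok TF_l7918 _)
             (CovZ.leaf K2_ok TF_l7919 _))
            (CovZ.leaf K2_ok TF_l7920 _))
           (CovZ.n1 (26240, 1760) (by decide +kernel)
            (CovZ.leaf K2_ok TF_l7921 _)
            (CovZ.n1 (26320, 1680) (by decide +kernel)
             (CovZ.leaf K2_ok TF_l7922 _)
             (CovZ.leaf K2_ok TF_l7923 _))))
          (CovZ.n1 (26400, 1440) (by decide +kernel)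
           (CovZ.leaf K2_ok TF_l7924 _)
           (CovZ.n1 (26400, 1600) (by decide +kernel)
            (CovZ.n2 (26480, 1520) (by decide +kernel)
             (CovZ.leaf K2_ok TF_l7925 _)
             (CovZ.leaf K2_ok TF_l7926 _))
            (CovZ.leaf K2_ok TF_l7927 _)))))))
      (CovZ.n1 (25600, 1920) (by decide +kernel)
       (CovZ.n2 (25920, 2240) (by decide +kernel)
        (CovZ.subM 664776257169287149815303939140091906 (by decide +kernel)
         (CovZ.n2 (25920, 1920) (by decide +kernel)
          (CovZ.n2 (25760, 2080) (by decide +kernel)
           (CovZ.n2 (25920, 2080) (by decide +kernel)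
            (CovZ.leaf K2_ok TF_l7928 _)
            (CovZ.n1 (25840, 2160) (by decide +kernel)
             (CovZ.leaf K2_ok TF_l7929 _)
             (CovZ.leaf K2_ok TF_l7930 _)))
           (CovZ.leaf K2_ok TF_l7931 _))
          (CovZ.n1 (26080, 2080) (by decide +kernel)
           (CovZ.n2 (26080, 1920) (by decide +kernel)
            (CovZ.n2 (26000, 2000) (by decide +kernel)
             (CovZ.leaf K2_ok TF_l7932 _)
             (CovZ.leaf K2_ok TF_l7933 _))
            (CovZ.leaf K2_ok TF_l7934 _))
           (CovZ.n1 (25920, 2080) (by decide +kernel)
            (CovZ.leaf K2_ok TF_l7935 _)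
            (CovZ.n1 (26000, 2000) (by decide +kernel)
             (CovZ.leaf K2_ok TF_l7936 _)
             (CovZ.leaf K2_ok TF_l7937 _))))))
        (CovZ.n1 (25600, 2240) (by decide +kernel)
         (CovZ.n2 (25760, 2400) (by decide +kernel)
          (CovZ.n2 (25760, 2240) (by decide +kernel)
           (CovZ.n2 (25680, 2320) (by decide +kernel)
            (CovZ.leaf K2_ok TF_l7938 _)
            (CovZ.leaf K2_ok TF_l7939 _))
           (CovZ.leaf K2_ok TF_l7940 _))
          (CovZ.n1 (25600, 2400) (by decide +kernel)
           (CovZ.leaf K2_ok TF_l7941 _)
           (CovZ.n1 (25680, 2320) (by decide +kernel)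
            (CovZ.leaf K2_ok TF_l7942 _)
            (CovZ.leaf K2_ok TF_l7943 _))))
         (CovZ.n1 (25760, 2080) (by decide +kernel)
          (CovZ.leaf K2_ok TF_l7944 _)
          (CovZ.n1 (25760, 2240) (by decide +kernel)
           (CovZ.n2 (25840, 2160) (by decide +kernel)
            (CovZ.leaf K2_ok TF_l7945 _)
            (CovZ.leaf K2_ok TF_l7946 _))
           (CovZ.leaf K2_ok TF_l7947 _)))))
       (CovZ.subM 664776257169287149815303939140091906 (by decide +kernel)
        (CovZ.n1 (25920, 1600) (by decide +kernel)
         (CovZ.leaf K2_ok TF_l7948 _)
         (CovZ.n1 (25920, 1920) (by decide +kernel)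
          (CovZ.n2 (26080, 1760) (by decide +kernel)
           (CovZ.leaf K2_ok TF_l7949 _)
           (CovZ.n1 (26080, 1920) (by decide +kernel)
            (CovZ.n2 (26160, 1840) (by decide +kernel)
             (CovZ.leaf K2_ok TF_l7950 _)
             (CovZ.leaf K2_ok TF_l7951 _))
            (CovZ.leaf K2_ok TF_l7952 _)))
          (CovZ.leaf K2_ok TF_l7953 _))))))
     (CovZ.subM 664816823226434492441523381168374272 (by decide +kernel)
      (CovZ.n1 (26240, 640) (by decide +kernel)
       (CovZ.leaf K2_ok TF_l7954 _)
       (CovZ.n1 (26240, 1280) (by decide +kernel)
        (CovZ.n2 (26560, 960) (by decide +kernel)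
         (CovZ.leaf K2_ok TF_l7955 _)
         (CovZ.n1 (26560, 1280) (by decide +kernel)
          (CovZ.n2 (26720, 1120) (by decide +kernel)
           (CovZ.leaf K2_ok TF_l7956 _)
           (CovZ.n1 (26720, 1280) (by decide +kernel)
            (CovZ.leaf K2_ok TF_l7957 _)
            (CovZ.leaf K2_ok TF_l7958 _)))
          (CovZ.leaf K2_ok TF_l7959 _)))
        (CovZ.n1 (25920, 960) (by decide +kernel)
         (CovZ.leaf K2_ok TF_l7960 _)
         (CovZ.leaf K2_ok TF_l7961 _))))))

theorem TF_u88 : CovZ TF_M (toL (selN TF_LN 664816823226547829237127645851943682)) [0, 7, 4, 3] (26880, 1280) (28160, 2560) (25600, 2560) :=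
    (CovZ.n1 (26880, 2560) (by decide +kernel)
     (CovZ.subM 1237940039285384672945635328 (by decide +kernel)
      (CovZ.n2 (27520, 1920) (by decide +kernel)
       (CovZ.n2 (26880, 1920) (by decide +kernel)
        (CovZ.n2 (27200, 2240) (by decide +kernel)
         (CovZ.badM (by decide +kernel))
         (CovZ.badM (by decide +kernel)))
        (CovZ.badM (by decide +kernel)))
       (CovZ.n1 (27520, 2560) (by decide +kernel)
        (CovZ.badM (by decide +kernel))
        (CovZ.n1 (27200, 2240) (by decide +kernel)
         (CovZ.badM (by decide +kernel))
         (CovZ.badM (by decide +kernel))))))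
     (CovZ.n1 (26240, 1920) (by decide +kernel)
      (CovZ.subM 162259276942550158987080960573698 (by decide +kernel)
       (CovZ.n2 (26240, 2560) (by decide +kernel)
        (CovZ.n2 (26560, 2240) (by decide +kernel)
         (CovZ.n2 (26240, 2240) (by decide +kernel)
          (CovZ.badM (by decide +kernel))
          (CovZ.badM (by decide +kernel)))
         (CovZ.badM (by decide +kernel)))
        (CovZ.n1 (25920, 2240) (by decide +kernel)
         (CovZ.n2 (25920, 2560) (by decide +kernel)
          TF_u85
          TF_u86)
         (CovZ.subM 162259276829213363396010418634754 (by decide +kernel)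
          (CovZ.n1 (26240, 2240) (by decide +kernel)
           (CovZ.n2 (26080, 2080) (by decide +kernel)
            (CovZ.n2 (26080, 2240) (by decide +kernel)
             (CovZ.badM (by decide +kernel))
             (CovZ.n1 (26000, 2160) (by decide +kernel)
              (CovZ.n2 (26000, 2240) (by decide +kernel)
               (CovZ.n2 (26040, 2200) (by decide +kernel)
                (CovZ.leaf K2_ok TF_l15695 _)
                (CovZ.n1 (26040, 2240) (by decide +kernel)
                 (CovZ.badM (by decide +kernel))
                 (CovZ.leaf K2_ok TF_l15696 _)))
               (CovZ.leaf K2_ok TF_l15697 _))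
              (CovZ.n1 (26080, 2160) (by decide +kernel)
               (CovZ.leaf K2_ok TF_l15698 _)
               (CovZ.n1 (26040, 2200) (by decide +kernel)
                (CovZ.badM (by decide +kernel))
                (CovZ.leaf K2_ok TF_l15699 _)))))
            (CovZ.badM (by decide +kernel)))
           (CovZ.n1 (26080, 2400) (by decide +kernel)
            (CovZ.badM (by decide +kernel))
            (CovZ.n1 (26080, 2240) (by decide +kernel)
             (CovZ.n2 (26000, 2320) (by decide +kernel)
              (CovZ.n2 (26080, 2320) (by decide +kernel)
               (CovZ.badM (by decide +kernel))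
               (CovZ.n1 (26040, 2360) (by decide +kernel)
                (CovZ.n2 (26080, 2360) (by decide +kernel)
                 (CovZ.badM (by decide +kernel))
                 (CovZ.n1 (26060, 2380) (by decide +kernel)
                  (CovZ.badM (by decide +kernel))
                  (CovZ.badM (by decide +kernel))))
                (CovZ.badM (by decide +kernel))))
              (CovZ.n1 (26000, 2240) (by decide +kernel)
               (CovZ.n2 (25960, 2280) (by decide +kernel)
                (CovZ.n2 (26000, 2280) (by decide +kernel)
                 (CovZ.leaf K2_ok TF_l15700 _)
                 (CovZ.n1 (25980, 2300) (by decide +kernel)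
                  (CovZ.leaf K2_ok TF_l15701 _)
                  (CovZ.leaf K2_ok TF_l15702 _)))
                (CovZ.leaf K2_ok TF_l15703 _))
               (CovZ.n1 (26040, 2280) (by decide +kernel)
                (CovZ.n2 (26040, 2240) (by decide +kernel)
                 (CovZ.n2 (26020, 2260) (by decide +kernel)
                  (CovZ.badM (by decide +kernel))
                  (CovZ.leaf K2_ok TF_l15704 _))
                 (CovZ.badM (by decide +kernel)))
                (CovZ.n1 (26000, 2280) (by decide +kernel)
                 (CovZ.badM (by decide +kernel))
                 (CovZ.n1 (26020, 2260) (by decide +kernel)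
                  (CovZ.leaf K2_ok TF_l15705 _)
                  (CovZ.badM (by decide +kernel)))))))
             (CovZ.n1 (26160, 2320) (by decide +kernel)
              (CovZ.badM (by decide +kernel))
              (CovZ.n1 (26080, 2320) (by decide +kernel)
               (CovZ.n2 (26120, 2360) (by decide +kernel)
                (CovZ.badM (by decide +kernel))
                (CovZ.n1 (26080, 2360) (by decide +kernel)
                 (CovZ.badM (by decide +kernel))
                 (CovZ.badM (by decide +kernel))))
               (CovZ.badM (by decide +kernel)))))))))))
      (CovZ.subM 1237940039285384672945635328 (by decide +kernel)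
       (CovZ.n1 (26880, 1920) (by decide +kernel)
        (CovZ.n2 (26560, 1600) (by decide +kernel)
         (CovZ.n2 (26560, 1920) (by decide +kernel)
          (CovZ.n2 (26720, 1760) (by decide +kernel)
           (CovZ.n2 (26560, 1760) (by decide +kernel)
            (CovZ.badM (by decide +kernel))
            (CovZ.n1 (26640, 1680) (by decide +kernel)
             (CovZ.n2 (26560, 1680) (by decide +kernel)
              (CovZ.badM (by decide +kernel))
              (CovZ.n1 (26600, 1640) (by decide +kernel)
               (CovZ.leaf K2_ok TF_l8036 _)
               (CovZ.badM (by decide +kernel))))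
             (CovZ.badM (by decide +kernel))))
           (CovZ.badM (by decide +kernel)))
          (CovZ.n1 (26400, 1760) (by decide +kernel)
           (CovZ.badM (by decide +kernel))
           (CovZ.n1 (26560, 1760) (by decide +kernel)
            (CovZ.n2 (26480, 1680) (by decide +kernel)
             (CovZ.badM (by decide +kernel))
             (CovZ.n1 (26560, 1680) (by decide +kernel)
              (CovZ.leaf K2_ok TF_l8046 _)
              (CovZ.badM (by decide +kernel))))
            (CovZ.badM (by decide +kernel)))))
         (CovZ.n1 (26880, 1600) (by decide +kernel)
          (CovZ.n2 (26720, 1440) (by decide +kernel)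
           (CovZ.n2 (26720, 1600) (by decide +kernel)
            (CovZ.badM (by decide +kernel))
            (CovZ.n1 (26640, 1520) (by decide +kernel)
             (CovZ.n2 (26640, 1600) (by decide +kernel)
              (CovZ.badM (by decide +kernel))
              (CovZ.leaf K2_ok TF_l8055 _))
             (CovZ.badM (by decide +kernel))))
           (CovZ.badM (by decide +kernel)))
          (CovZ.n1 (26720, 1760) (by decide +kernel)
           (CovZ.n2 (26880, 1760) (by decide +kernel)
            (CovZ.n2 (26800, 1680) (by decide +kernel)
             (CovZ.n2 (26800, 1760) (by decide +kernel)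
              (CovZ.badM (by decide +kernel))
              (CovZ.n1 (26760, 1720) (by decide +kernel)
               (CovZ.badM (by decide +kernel))
               (CovZ.badM (by decide +kernel))))
             (CovZ.badM (by decide +kernel)))
            (CovZ.badM (by decide +kernel)))
           (CovZ.n1 (26720, 1600) (by decide +kernel)
            (CovZ.n2 (26640, 1680) (by decide +kernel)
             (CovZ.n2 (26720, 1680) (by decide +kernel)
              (CovZ.n2 (26680, 1640) (by decide +kernel)
               (CovZ.n2 (26680, 1680) (by decide +kernel)
                (CovZ.badM (by decide +kernel))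
                (CovZ.n1 (26660, 1660) (by decide +kernel)
                 (CovZ.badM (by decide +kernel))
                 (CovZ.leaf K2_ok TF_l15706 _)))
               (CovZ.badM (by decide +kernel)))
              (CovZ.badM (by decide +kernel)))
             (CovZ.n1 (26640, 1600) (by decide +kernel)
              (CovZ.n2 (26600, 1640) (by decide +kernel)
               (CovZ.leaf K2_ok TF_l8067 _)
               (CovZ.leaf K2_ok TF_l8068 _))
              (CovZ.leaf K2_ok TF_l8069 _)))
            (CovZ.n1 (26800, 1680) (by decide +kernel)
             (CovZ.badM (by decide +kernel))
             (CovZ.n1 (26720, 1680) (by decide +kernel)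
              (CovZ.n2 (26760, 1720) (by decide +kernel)
               (CovZ.badM (by decide +kernel))
               (CovZ.badM (by decide +kernel)))
              (CovZ.badM (by decide +kernel))))))))
        (CovZ.n1 (26560, 2240) (by decide +kernel)
         (CovZ.badM (by decide +kernel))
         (CovZ.badM (by decide +kernel)))))))

theorem TF_u89 : CovZ TF_M (toL (selN TF_LN 1459130872632047150094675630826366985897041)) [0, 7, 4, 3] (-1280, 3840) (-960, 3520) (-640, 3840) :=
    (CovZ.n2 (-960, 3840) (by decide +kernel)
          (CovZ.n2 (-800, 3680) (by decide +kernel)
           (CovZ.subM 1459130872459488054974709578783682913697792 (by decide +kernel)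
            (CovZ.n2 (-960, 3680) (by decide +kernel)
             (CovZ.n2 (-880, 3760) (by decide +kernel)
              (CovZ.n2 (-880, 3680) (by decide +kernel)
               (CovZ.subM 83081825295856246921179931251638272 (by decide +kernel)
                (CovZ.n2 (-920, 3720) (by decide +kernel)
                 (CovZ.n2 (-880, 3720) (by decide +kernel)
                  (CovZ.leaf K2_ok TF_l10415 _)
                  (CovZ.leaf K2_ok TF_l10416 _))
                 (CovZ.n1 (-920, 3680) (by decide +kernel)
                  (CovZ.subM 5070602400912989804318339104768 (by decide +kernel)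
                   (CovZ.n2 (-940, 3700) (by decide +kernel)
                    (CovZ.n2 (-920, 3700) (by decide +kernel)
                     (CovZ.leaf K2_ok TF_l10417 _)
                     (CovZ.leaf K2_ok TF_l10418 _))
                    (CovZ.n1 (-940, 3680) (by decide +kernel)
                     (CovZ.badM (by decide +kernel))
                     (CovZ.leaf K2_ok TF_l10419 _))))
                  (CovZ.leaf K2_ok TF_l10420 _))))
               (CovZ.leaf K2_ok TF_l1360 _))
              (CovZ.subM 83081825295856246921175533205127168 (by decide +kernel)
               (CovZ.n1 (-960, 3760) (by decide +kernel)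
                (CovZ.n2 (-920, 3800) (by decide +kernel)
                 (CovZ.n2 (-920, 3760) (by decide +kernel)
                  (CovZ.n2 (-940, 3780) (by decide +kernel)
                   (CovZ.leaf K2_ok TF_l10421 _)
                   (CovZ.leaf K2_ok TF_l10422 _))
                  (CovZ.leaf K2_ok TF_l10423 _))
                 (CovZ.subM 5070602400912989804318347493376 (by decide +kernel)
                  (CovZ.n1 (-960, 3800) (by decide +kernel)
                   (CovZ.leaf K2_ok TF_l10424 _)
                   (CovZ.n1 (-940, 3780) (by decide +kernel)
                    (CovZ.badM (by decide +kernel))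
                    (CovZ.n1 (-940, 3800) (by decide +kernel)
                     (CovZ.leaf K2_ok TF_l10425 _)
                     (CovZ.badM (by decide +kernel)))))))
                (CovZ.n1 (-920, 3720) (by decide +kernel)
                 (CovZ.subM 5070602400912989804318339104768 (by decide +kernel)
                  (CovZ.n2 (-960, 3720) (by decide +kernel)
                   (CovZ.n2 (-940, 3740) (by decide +kernel)
                    (CovZ.n2 (-940, 3720) (by decide +kernel)
                     (CovZ.badM (by decide +kernel))
                     (CovZ.leaf K2_ok TF_l10426 _))
                    (CovZ.badM (by decide +kernel)))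
                   (CovZ.n1 (-940, 3700) (by decide +kernel)
                    (CovZ.badM (by decide +kernel))
                    (CovZ.n1 (-940, 3720) (by decide +kernel)
                     (CovZ.leaf K2_ok TF_l10427 _)
                     (CovZ.badM (by decide +kernel))))))
                 (CovZ.n1 (-920, 3760) (by decide +kernel)
                  (CovZ.leaf K2_ok TF_l10428 _)
                  (CovZ.n1 (-940, 3740) (by decide +kernel)
                   (CovZ.n2 (-940, 3760) (by decide +kernel)
                    (CovZ.leaf K2_ok TF_l10429 _)
                    (CovZ.badM (by decide +kernel)))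
                   (CovZ.leaf K2_ok TF_l10430 _)))))))
             (CovZ.n1 (-880, 3600) (by decide +kernel)
              (CovZ.n2 (-960, 3600) (by decide +kernel)
               (CovZ.n2 (-920, 3640) (by decide +kernel)
                (CovZ.n2 (-920, 3600) (by decide +kernel)
                 (CovZ.subM 72202729572794368 (by decide +kernel)
                  (CovZ.n2 (-940, 3620) (by decide +kernel)
                   (CovZ.n2 (-920, 3620) (by decide +kernel)
                    (CovZ.leaf K2_ok TF_l10431 _)
                    (CovZ.leaf K2_ok TF_l10432 _))
                   (CovZ.n1 (-940, 3600) (by decide +kernel)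
                    (CovZ.badM (by decide +kernel))
                    (CovZ.leaf K2_ok TF_l10433 _))))
                 (CovZ.leaf K2_ok TF_l10434 _))
                (CovZ.subM 72198331526283264 (by decide +kernel)
                 (CovZ.n1 (-960, 3640) (by decide +kernel)
                  (CovZ.n2 (-940, 3660) (by decide +kernel)
                   (CovZ.n2 (-940, 3640) (by decide +kernel)
                    (CovZ.badM (by decide +kernel))
                    (CovZ.leaf K2_ok TF_l10435 _))
                   (CovZ.badM (by decide +kernel)))
                  (CovZ.n1 (-940, 3620) (by decide +kernel)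
                   (CovZ.badM (by decide +kernel))
                   (CovZ.n1 (-940, 3640) (by decide +kernel)
                    (CovZ.leaf K2_ok TF_l10436 _)
                    (CovZ.badM (by decide +kernel)))))))
               (CovZ.n1 (-920, 3560) (by decide +kernel)
                (CovZ.subM 72198331526283264 (by decide +kernel)
                 (CovZ.n2 (-960, 3560) (by decide +kernel)
                  (CovZ.n2 (-940, 3580) (by decide +kernel)
                   (CovZ.n2 (-940, 3560) (by decide +kernel)
                    (CovZ.badM (by decide +kernel))
                    (CovZ.leaf K2_ok TF_l10437 _))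
                   (CovZ.badM (by decide +kernel)))
                  (CovZ.n1 (-940, 3540) (by decide +kernel)
                   (CovZ.badM (by decide +kernel))
                   (CovZ.n1 (-940, 3560) (by decide +kernel)
                    (CovZ.n2 (-930, 3550) (by decide +kernel)
                     (CovZ.leaf K2_ok TF_l10438 _)
                     (CovZ.n1 (-930, 3560) (by decide +kernel)
                      (CovZ.leaf K2_ok TF_l10439 _)
                      (CovZ.leaf K2_ok TF_l10440 _)))
                    (CovZ.badM (by decide +kernel))))))
                (CovZ.n1 (-920, 3600) (by decide +kernel)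
                 (CovZ.n2 (-900, 3580) (by decide +kernel)
                  (CovZ.leaf K2_ok TF_l10441 _)
                  (CovZ.n1 (-900, 3600) (by decide +kernel)
                   (CovZ.leaf K2_ok TF_l10442 _)
                   (CovZ.leaf K2_ok TF_l10443 _)))
                 (CovZ.subM 72202729572794368 (by decide +kernel)
                  (CovZ.n1 (-940, 3580) (by decide +kernel)
                   (CovZ.n2 (-940, 3600) (by decide +kernel)
                    (CovZ.leaf K2_ok TF_l10444 _)
                    (CovZ.badM (by decide +kernel)))
                   (CovZ.n1 (-920, 3580) (by decide +kernel)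
                    (CovZ.n2 (-930, 3570) (by decide +kernel)
                     (CovZ.n2 (-930, 3580) (by decide +kernel)
                      (CovZ.leaf K2_ok TF_l10445 _)
                      (CovZ.leaf K2_ok TF_l10446 _))
                     (CovZ.leaf K2_ok TF_l10447 _))
                    (CovZ.leaf K2_ok TF_l10448 _)))))))
              (CovZ.n1 (-880, 3680) (by decide +kernel)
               (CovZ.n2 (-840, 3640) (by decide +kernel)
                (CovZ.leaf K2_ok TF_l1361 _)
                (CovZ.leaf K2_ok TF_l1362 _))
               (CovZ.n1 (-920, 3640) (by decide +kernel)
                (CovZ.subM 83081825295856246921179931251638272 (by decide +kernel)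
                 (CovZ.n2 (-920, 3680) (by decide +kernel)
                  (CovZ.n2 (-900, 3660) (by decide +kernel)
                   (CovZ.leaf K2_ok TF_l10449 _)
                   (CovZ.leaf K2_ok TF_l10450 _))
                  (CovZ.subM 72198331526283264 (by decide +kernel)
                   (CovZ.n1 (-940, 3660) (by decide +kernel)
                    (CovZ.n2 (-940, 3680) (by decide +kernel)
                     (CovZ.leaf K2_ok TF_l10451 _)
                     (CovZ.badM (by decide +kernel)))
                    (CovZ.n1 (-920, 3660) (by decide +kernel)
                     (CovZ.leaf K2_ok TF_l10452 _)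
                     (CovZ.leaf K2_ok TF_l10453 _))))))
                (CovZ.n1 (-880, 3640) (by decide +kernel)
                 (CovZ.n2 (-900, 3620) (by decide +kernel)
                  (CovZ.leaf K2_ok TF_l10454 _)
                  (CovZ.leaf K2_ok TF_l10455 _))
                 (CovZ.n1 (-900, 3660) (by decide +kernel)
                  (CovZ.leaf K2_ok TF_l10456 _)
                  (CovZ.leaf K2_ok TF_l10457 _))))))))
           (CovZ.n1 (-800, 3840) (by decide +kernel)
            (CovZ.n2 (-720, 3760) (by decide +kernel)
             (CovZ.leaf K2_ok TF_l1363 _)
             (CovZ.leaf K2_ok TF_l1364 _))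
            (CovZ.subM 1459130872459488054974709578783682913697792 (by decide +kernel)
             (CovZ.n1 (-880, 3760) (by decide +kernel)
              (CovZ.n2 (-880, 3840) (by decide +kernel)
               (CovZ.n2 (-840, 3800) (by decide +kernel)
                (CovZ.leaf K2_ok TF_l1365 _)
                (CovZ.leaf K2_ok TF_l1366 _))
               (CovZ.subM 83081825295856246921175533205127168 (by decide +kernel)
                (CovZ.n1 (-920, 3800) (by decide +kernel)
                 (CovZ.n2 (-920, 3840) (by decide +kernel)
                  (CovZ.leaf K2_ok TF_l1367 _)
                  (CovZ.n1 (-940, 3820) (by decide +kernel)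
                   (CovZ.leaf K2_ok TF_l10458 _)
                   (CovZ.leaf K2_ok TF_l10459 _)))
                 (CovZ.n1 (-880, 3800) (by decide +kernel)
                  (CovZ.leaf K2_ok TF_l10460 _)
                  (CovZ.leaf K2_ok TF_l1368 _)))))
              (CovZ.n1 (-800, 3760) (by decide +kernel)
               (CovZ.n2 (-840, 3720) (by decide +kernel)
                (CovZ.leaf K2_ok TF_l1369 _)
                (CovZ.leaf K2_ok TF_l1370 _))
               (CovZ.n1 (-840, 3800) (by decide +kernel)
                (CovZ.leaf K2_ok TF_l1371 _)
                (CovZ.leaf K2_ok TF_l1372 _)))))))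
          (CovZ.n1 (-1120, 3680) (by decide +kernel)
           (CovZ.badM (by decide +kernel))
           (CovZ.n1 (-960, 3680) (by decide +kernel)
            (CovZ.badM (by decide +kernel))
            (CovZ.badM (by decide +kernel)))))

theorem TF_u90 : CovZ TF_M (toL (selN TF_LN 1459130872632047150094675630826366985897041)) [0, 7, 4, 3] (-960, 3520) (-640, 3200) (-640, 3840) :=
    (CovZ.n1 (-640, 3520) (by decide +kernel)
          (CovZ.n2 (-800, 3360) (by decide +kernel)
           (CovZ.n2 (-800, 3520) (by decide +kernel)
            (CovZ.n2 (-720, 3440) (by decide +kernel)
             (CovZ.n2 (-800, 3440) (by decide +kernel)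
              (CovZ.leaf K2_ok TF_l1373 _)
              (CovZ.leaf K2_ok TF_l1374 _))
             (CovZ.n1 (-720, 3520) (by decide +kernel)
              (CovZ.leaf K2_ok TF_l1375 _)
              (CovZ.leaf K2_ok TF_l1376 _)))
            (CovZ.n1 (-880, 3440) (by decide +kernel)
             (CovZ.n2 (-880, 3520) (by decide +kernel)
              (CovZ.n2 (-840, 3480) (by decide +kernel)
               (CovZ.n2 (-880, 3480) (by decide +kernel)
                (CovZ.leaf K2_ok TF_l10461 _)
                (CovZ.n1 (-860, 3460) (by decide +kernel)
                 (CovZ.leaf K2_ok TF_l10462 _)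
                 (CovZ.leaf K2_ok TF_l10463 _)))
               (CovZ.n1 (-840, 3520) (by decide +kernel)
                (CovZ.leaf K2_ok TF_l1377 _)
                (CovZ.leaf K2_ok TF_l10464 _)))
              (CovZ.n1 (-920, 3480) (by decide +kernel)
               (CovZ.subM 65334297551244882884027668146677705932800 (by decide +kernel)
                (CovZ.n2 (-920, 3520) (by decide +kernel)
                 (CovZ.n2 (-900, 3500) (by decide +kernel)
                  (CovZ.badM (by decide +kernel))
                  (CovZ.n1 (-900, 3520) (by decide +kernel)
                   (CovZ.leaf K2_ok TF_l10465 _)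
                   (CovZ.n1 (-910, 3510) (by decide +kernel)
                    (CovZ.leaf K2_ok TF_l10466 _)
                    (CovZ.leaf K2_ok TF_l10467 _))))
                 (CovZ.badM (by decide +kernel))))
               (CovZ.n1 (-880, 3480) (by decide +kernel)
                (CovZ.subM 1459130789545076980571875917481661789437952 (by decide +kernel)
                 (CovZ.n2 (-900, 3460) (by decide +kernel)
                  (CovZ.n2 (-900, 3480) (by decide +kernel)
                   (CovZ.leaf K2_ok TF_l10468 _)
                   (CovZ.n1 (-910, 3470) (by decide +kernel)
                    (CovZ.leaf K2_ok TF_l10469 _)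
                    (CovZ.leaf K2_ok TF_l10470 _)))
                  (CovZ.leaf K2_ok TF_l10471 _)))
                (CovZ.n1 (-900, 3500) (by decide +kernel)
                 (CovZ.leaf K2_ok TF_l10472 _)
                 (CovZ.n1 (-900, 3480) (by decide +kernel)
                  (CovZ.leaf K2_ok TF_l10473 _)
                  (CovZ.leaf K2_ok TF_l10474 _))))))
             (CovZ.n1 (-800, 3440) (by decide +kernel)
              (CovZ.n2 (-840, 3400) (by decide +kernel)
               (CovZ.n2 (-840, 3440) (by decide +kernel)
                (CovZ.leaf K2_ok TF_l1378 _)
                (CovZ.n1 (-860, 3420) (by decide +kernel)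
                 (CovZ.leaf K2_ok TF_l10475 _)
                 (CovZ.leaf K2_ok TF_l10476 _)))
               (CovZ.leaf K2_ok TF_l1379 _))
              (CovZ.n1 (-840, 3480) (by decide +kernel)
               (CovZ.leaf K2_ok TF_l1380 _)
               (CovZ.n1 (-840, 3440) (by decide +kernel)
                (CovZ.n2 (-860, 3460) (by decide +kernel)
                 (CovZ.leaf K2_ok TF_l10477 _)
                 (CovZ.leaf K2_ok TF_l10478 _))
                (CovZ.leaf K2_ok TF_l1381 _))))))
           (CovZ.n1 (-640, 3360) (by decide +kernel)
            (CovZ.n2 (-720, 3280) (by decide +kernel)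
             (CovZ.n2 (-720, 3360) (by decide +kernel)
              (CovZ.leaf K2_ok TF_l1382 _)
              (CovZ.n1 (-760, 3320) (by decide +kernel)
               (CovZ.leaf K2_ok TF_l1383 _)
               (CovZ.leaf K2_ok TF_l1384 _)))
             (CovZ.n1 (-640, 3280) (by decide +kernel)
              (CovZ.leaf K2_ok TF_l1385 _)
              (CovZ.leaf K2_ok TF_l1386 _)))
            (CovZ.n1 (-720, 3440) (by decide +kernel)
             (CovZ.leaf K2_ok TF_l1387 _)
             (CovZ.n1 (-720, 3360) (by decide +kernel)
              (CovZ.leaf K2_ok TF_l1388 _)
              (CovZ.leaf K2_ok TF_l1389 _)))))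
          (CovZ.n1 (-800, 3680) (by decide +kernel)
           (CovZ.n2 (-640, 3680) (by decide +kernel)
            (CovZ.n2 (-720, 3600) (by decide +kernel)
             (CovZ.n2 (-720, 3680) (by decide +kernel)
              (CovZ.leaf K2_ok TF_l1390 _)
              (CovZ.leaf K2_ok TF_l1391 _))
             (CovZ.leaf K2_ok TF_l1392 _))
            (CovZ.n1 (-720, 3760) (by decide +kernel)
             (CovZ.leaf K2_ok TF_l1393 _)
             (CovZ.leaf K2_ok TF_l1394 _)))
           (CovZ.n1 (-800, 3520) (by decide +kernel)
            (CovZ.n2 (-880, 3600) (by decide +kernel)
             (CovZ.n2 (-800, 3600) (by decide +kernel)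
              (CovZ.n2 (-840, 3560) (by decide +kernel)
               (CovZ.n2 (-840, 3600) (by decide +kernel)
                (CovZ.leaf K2_ok TF_l1395 _)
                (CovZ.leaf K2_ok TF_l1396 _))
               (CovZ.leaf K2_ok TF_l1397 _))
              (CovZ.n1 (-840, 3640) (by decide +kernel)
               (CovZ.leaf K2_ok TF_l1398 _)
               (CovZ.leaf K2_ok TF_l1399 _)))
             (CovZ.n1 (-880, 3520) (by decide +kernel)
              (CovZ.subM 65334297551244882884027668146677705932800 (by decide +kernel)
               (CovZ.n2 (-920, 3560) (by decide +kernel)
                (CovZ.n2 (-880, 3560) (by decide +kernel)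
                 (CovZ.n2 (-900, 3540) (by decide +kernel)
                  (CovZ.leaf K2_ok TF_l10479 _)
                  (CovZ.leaf K2_ok TF_l10480 _))
                 (CovZ.n1 (-900, 3580) (by decide +kernel)
                  (CovZ.leaf K2_ok TF_l10481 _)
                  (CovZ.leaf K2_ok TF_l10482 _)))
                (CovZ.n1 (-920, 3520) (by decide +kernel)
                 (CovZ.subM 72198331526283264 (by decide +kernel)
                  (CovZ.n2 (-940, 3540) (by decide +kernel)
                   (CovZ.n2 (-920, 3540) (by decide +kernel)
                    (CovZ.n2 (-930, 3530) (by decide +kernel)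
                     (CovZ.n2 (-930, 3540) (by decide +kernel)
                      (CovZ.leaf K2_ok TF_l10483 _)
                      (CovZ.n1 (-935, 3535) (by decide +kernel)
                       (CovZ.leaf K2_ok TF_l10484 _)
                       (CovZ.leaf K2_ok TF_l10485 _)))
                     (CovZ.leaf K2_ok TF_l10486 _))
                    (CovZ.n1 (-930, 3550) (by decide +kernel)
                     (CovZ.leaf K2_ok TF_l10487 _)
                     (CovZ.n1 (-930, 3540) (by decide +kernel)
                      (CovZ.leaf K2_ok TF_l10488 _)
                      (CovZ.leaf K2_ok TF_l10489 _))))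
                   (CovZ.badM (by decide +kernel))))
                 (CovZ.n1 (-900, 3540) (by decide +kernel)
                  (CovZ.n2 (-900, 3520) (by decide +kernel)
                   (CovZ.leaf K2_ok TF_l10490 _)
                   (CovZ.leaf K2_ok TF_l10491 _))
                  (CovZ.n1 (-920, 3540) (by decide +kernel)
                   (CovZ.leaf K2_ok TF_l10492 _)
                   (CovZ.leaf K2_ok TF_l10493 _))))))
              (CovZ.n1 (-840, 3560) (by decide +kernel)
               (CovZ.leaf K2_ok TF_l1400 _)
               (CovZ.leaf K2_ok TF_l10494 _))))
            (CovZ.leaf K2_ok TF_l1401 _))))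

end Pool.Agent.TET
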