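import Pool.Agent.Helper38_TET.TF_M
import Pool.Agent.Helper38_TET.TF_L
import Pool.Agent.Helper38_TET.TF_15
import Pool.Agent.Helper38_TET.TF_16
import Pool.Agent.Helper38_TET.TF_19
import Pool.Agent.Helper38_TET.TF_26
import Pool.Agent.Helper38_TET.TF_27
import Pool.Agent.Helper38_TET.TF_28
import Pool.Agent.Helper38_TET.TF_30
import Pool.Agent.Helper38_TET.TF_31
import Pool.Agent.Helper38_TET.TF_32
import Pool.Agent.Helper38_TET.TF_33
import Pool.Agent.Helper38_TET.TF_35
import Pool.Agent.Helper38_TET.TF_38
import Pool.Agent.Helper38_TET.TF_40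
import Pool.Agent.Helper38_TET.TF_41
import Pool.Agent.Helper38_TET.TF_43
import Pool.Agent.Helper38_TET.TF_46
import Pool.Agent.Helper38_TET.TF_51
import Pool.Agent.Helper38_TET.TF_52
import Pool.Agent.Helper38_TET.TF_55
import Pool.Agent.Helper38_TET.TF_56
import Pool.Agent.Helper38_TET.TF_75
import Pool.Agent.Helper38_TET.TF_76
import Pool.Agent.Helper38_TET.TF_85
import Pool.Agent.Helper38_TET.TF_87
import Pool.Agent.Helper38_TET.TF_88
import Pool.Agent.Helper38_TET.TF_U1
import Pool.Agent.Helper38_TET.TF_U2
import Pool.Agent.Helper38_TET.TF_U3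
import Pool.Agent.Helper38_TET.TF_U4
import Pool.Agent.Helper38_TET.TF_U5

/-!
# MP_c7c9bf_co: certificates, family TF
-/

set_option autoImplicit false
set_option maxRecDepth 100000

namespace Pool.Agent.TET

theorem TF_s14_1 : SqZ TF_M TF_L [0, 7, 4, 3] (-7680) (-7680) 2560 14 1 :=
  SqZ.mk (a := 28160) (b := 30720) (c := (-5120)) (d := (-2560)) (by norm_num) (by norm_num) (by norm_num) (by norm_num)
    (CovZ.topM TF_LL 32768 (by decide +kernel) (CovZ.n2 (29440, -3840) (by decide +kernel)
    (CovZ.n2 (30720, -3840) (by decide +kernel)
     (CovZ.badM (by decide +kernel))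
     (CovZ.badM (by decide +kernel)))
    (CovZ.badM (by decide +kernel))))
    (CovZ.topM TF_LL 32768 (by decide +kernel) (CovZ.n0 (29440, -3840) (by decide +kernel)
    (CovZ.n2 (28160, -3840) (by decide +kernel)
     (CovZ.badM (by decide +kernel))
     (CovZ.badM (by decide +kernel)))
    (CovZ.badM (by decide +kernel))))

theorem TF_s15_1 : SqZ TF_M TF_L [0, 7, 4, 3] (-7680) (-7680) 2560 15 1 :=
  SqZ.mk (a := 30720) (b := 33280) (c := (-5120)) (d := (-2560)) (by norm_num) (by norm_num) (by norm_num) (by norm_num)
    (CovZ.topM TF_LL 32768 (by decide +kernel) (CovZ.n2 (32000, -3840) (by decide +kernel)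
    (CovZ.badM (by decide +kernel))
    (CovZ.badM (by decide +kernel))))
    (CovZ.topM TF_LL 32768 (by decide +kernel) (CovZ.n0 (32000, -3840) (by decide +kernel)
    (CovZ.n2 (30720, -3840) (by decide +kernel)
     (CovZ.badM (by decide +kernel))
     (CovZ.badM (by decide +kernel)))
    (CovZ.badM (by decide +kernel))))

theorem TF_s0_2 : SqZ TF_M TF_L [0, 7, 4, 3] (-7680) (-7680) 2560 0 2 :=
  SqZ.mk (a := (-7680)) (b := (-5120)) (c := (-2560)) (d := 0) (by norm_num) (by norm_num) (by norm_num) (by norm_num)
    (CovZ.topM TF_LL 0 (by decide +kernel) (CovZ.badM (by decide +kernel)))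
    (CovZ.topM TF_LL 0 (by decide +kernel) (CovZ.badM (by decide +kernel)))

theorem TF_s1_2 : SqZ TF_M TF_L [0, 7, 4, 3] (-7680) (-7680) 2560 1 2 :=
  SqZ.mk (a := (-5120)) (b := (-2560)) (c := (-2560)) (d := 0) (by norm_num) (by norm_num) (by norm_num) (by norm_num)
    (CovZ.topM TF_LL 0 (by decide +kernel) (CovZ.badM (by decide +kernel)))
    (CovZ.topM TF_LL 0 (by decide +kernel) (CovZ.badM (by decide +kernel)))

theorem TF_s2_2 : SqZ TF_M TF_L [0, 7, 4, 3] (-7680) (-7680) 2560 2 2 :=
  SqZ.mk (a := (-2560)) (b := 0) (c := (-2560)) (d := 0) (by norm_num) (by norm_num) (by norm_num) (by norm_num)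
    (CovZ.topM TF_LL 166153499522246155203075773114355844 (by decide +kernel) (CovZ.n2 (-1280, -1280) (by decide +kernel)
    (CovZ.n2 (0, -1280) (by decide +kernel)
     (CovZ.n2 (-640, -1920) (by decide +kernel)
      (CovZ.n2 (-640, -1280) (by decide +kernel)
       (CovZ.badM (by decide +kernel))
       (CovZ.badM (by decide +kernel)))
      (CovZ.badM (by decide +kernel)))
     (CovZ.n1 (-640, -640) (by decide +kernel)
      (CovZ.n2 (0, -640) (by decide +kernel)
       TF_u24
       TF_u25)
      (CovZ.subM 147718067777752268928 (by decide +kernel)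
       (CovZ.n1 (-640, -1280) (by decide +kernel)
        (CovZ.n2 (-960, -960) (by decide +kernel)
         (CovZ.n2 (-640, -960) (by decide +kernel)
          (CovZ.badM (by decide +kernel))
          (CovZ.badM (by decide +kernel)))
         (CovZ.badM (by decide +kernel)))
        (CovZ.n1 (-320, -960) (by decide +kernel)
         (CovZ.badM (by decide +kernel))
         (CovZ.n1 (-640, -960) (by decide +kernel)
          (CovZ.n2 (-480, -800) (by decide +kernel)
           (CovZ.badM (by decide +kernel))
           (CovZ.badM (by decide +kernel)))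
          (CovZ.badM (by decide +kernel))))))))
    (CovZ.badM (by decide +kernel))))
    (CovZ.topM TF_LL 166153499483560528831292451447902340 (by decide +kernel) (CovZ.n0 (-1280, -1280) (by decide +kernel)
    (CovZ.badM (by decide +kernel))
    (CovZ.n1 (-1280, 0) (by decide +kernel)
     (CovZ.n2 (-640, -640) (by decide +kernel)
      (CovZ.n2 (-1280, -640) (by decide +kernel)
       (CovZ.n2 (-960, -320) (by decide +kernel)
        (CovZ.badM (by decide +kernel))
        (CovZ.badM (by decide +kernel)))
       (CovZ.badM (by decide +kernel)))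
      (CovZ.n1 (-640, 0) (by decide +kernel)
       TF_u26
       TF_u27))
     (CovZ.n1 (-1920, -640) (by decide +kernel)
      (CovZ.badM (by decide +kernel))
      (CovZ.n1 (-1280, -640) (by decide +kernel)
       (CovZ.badM (by decide +kernel))
       (CovZ.badM (by decide +kernel)))))))

theorem TF_s3_2 : SqZ TF_M TF_L [0, 7, 4, 3] (-7680) (-7680) 2560 3 2 :=
  SqZ.mk (a := 0) (b := 2560) (c := (-2560)) (d := 0) (by norm_num) (by norm_num) (by norm_num) (by norm_num)
    (CovZ.topM TF_LL 98851278288771129492893611772900682371111731204 (by decide +kernel) (CovZ.n2 (1280, -1280) (by decide +kernel)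
    (CovZ.n2 (2560, -1280) (by decide +kernel)
     (CovZ.badM (by decide +kernel))
     (CovZ.n1 (1920, -640) (by decide +kernel)
      (CovZ.n2 (2560, -640) (by decide +kernel)
       (CovZ.subM 18890042392230884278272 (by decide +kernel)
        (CovZ.n2 (2240, -960) (by decide +kernel)
         (CovZ.n2 (2240, -640) (by decide +kernel)
          (CovZ.badM (by decide +kernel))
          (CovZ.n1 (2080, -800) (by decide +kernel)
           (CovZ.n2 (2080, -640) (by decide +kernel)
            (CovZ.n2 (2160, -720) (by decide +kernel)
             (CovZ.n2 (2080, -720) (by decide +kernel)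
              (CovZ.n2 (2120, -680) (by decide +kernel)
               (CovZ.badM (by decide +kernel))
               (CovZ.n1 (2080, -680) (by decide +kernel)
                (CovZ.n2 (2100, -660) (by decide +kernel)
                 (CovZ.badM (by decide +kernel))
                 (CovZ.leaf K2_ok TF_l11203 _))
                (CovZ.badM (by decide +kernel))))
              (CovZ.badM (by decide +kernel)))
             (CovZ.n1 (2160, -640) (by decide +kernel)
              (CovZ.n2 (2200, -680) (by decide +kernel)
               (CovZ.n2 (2160, -680) (by decide +kernel)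
                (CovZ.leaf K2_ok TF_l11204 _)
                (CovZ.badM (by decide +kernel)))
               (CovZ.n1 (2200, -640) (by decide +kernel)
                (CovZ.n2 (2220, -660) (by decide +kernel)
                 (CovZ.leaf K2_ok TF_l11205 _)
                 (CovZ.leaf K2_ok TF_l11206 _))
                (CovZ.n1 (2180, -660) (by decide +kernel)
                 (CovZ.leaf K2_ok TF_l11207 _)
                 (CovZ.n1 (2200, -660) (by decide +kernel)
                  (CovZ.leaf K2_ok TF_l11208 _)
                  (CovZ.leaf K2_ok TF_l11209 _)))))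
              (CovZ.n1 (2120, -680) (by decide +kernel)
               (CovZ.n2 (2120, -640) (by decide +kernel)
                (CovZ.n2 (2140, -660) (by decide +kernel)
                 (CovZ.leaf K2_ok TF_l11210 _)
                 (CovZ.leaf K2_ok TF_l11211 _))
                (CovZ.n1 (2100, -660) (by decide +kernel)
                 (CovZ.leaf K2_ok TF_l11212 _)
                 (CovZ.n1 (2120, -660) (by decide +kernel)
                  (CovZ.badM (by decide +kernel))
                  (CovZ.leaf K2_ok TF_l11213 _))))
               (CovZ.n1 (2160, -680) (by decide +kernel)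
                (CovZ.badM (by decide +kernel))
                (CovZ.n1 (2140, -660) (by decide +kernel)
                 (CovZ.n2 (2160, -660) (by decide +kernel)
                  (CovZ.badM (by decide +kernel))
                  (CovZ.leaf K2_ok TF_l11214 _))
                 (CovZ.badM (by decide +kernel)))))))
            (CovZ.n1 (2000, -720) (by decide +kernel)
             (CovZ.n2 (2000, -640) (by decide +kernel)
              (CovZ.n2 (2040, -680) (by decide +kernel)
               (CovZ.badM (by decide +kernel))
               (CovZ.n1 (2040, -640) (by decide +kernel)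
                (CovZ.n2 (2060, -660) (by decide +kernel)
                 (CovZ.n2 (2040, -660) (by decide +kernel)
                  (CovZ.leaf K2_ok TF_l11215 _)
                  (CovZ.badM (by decide +kernel)))
                 (CovZ.leaf K2_ok TF_l11216 _))
                (CovZ.n1 (2020, -660) (by decide +kernel)
                 (CovZ.n2 (2020, -640) (by decide +kernel)
                  (CovZ.leaf K2_ok TF_l11217 _)
                  (CovZ.badM (by decide +kernel)))
                 (CovZ.n1 (2040, -660) (by decide +kernel)
                  (CovZ.badM (by decide +kernel))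
                  (CovZ.leaf K2_ok TF_l11218 _)))))
              (CovZ.badM (by decide +kernel)))
             (CovZ.n1 (2080, -720) (by decide +kernel)
              (CovZ.badM (by decide +kernel))
              (CovZ.n1 (2040, -680) (by decide +kernel)
               (CovZ.n2 (2080, -680) (by decide +kernel)
                (CovZ.badM (by decide +kernel))
                (CovZ.n1 (2060, -660) (by decide +kernel)
                 (CovZ.n2 (2080, -660) (by decide +kernel)
                  (CovZ.badM (by decide +kernel))
                  (CovZ.leaf K2_ok TF_l11219 _))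
                 (CovZ.badM (by decide +kernel))))
               (CovZ.badM (by decide +kernel))))))
           (CovZ.badM (by decide +kernel))))
         (CovZ.badM (by decide +kernel))))
       (CovZ.n1 (2240, -320) (by decide +kernel)
        (CovZ.n2 (2560, -320) (by decide +kernel)
         (CovZ.subM 359949326609885656229034244111423821674856448 (by decide +kernel)
          (CovZ.n2 (2400, -480) (by decide +kernel)
           (CovZ.n2 (2400, -320) (by decide +kernel)
            (CovZ.leaf K2_ok TF_l2322 _)
            (CovZ.n1 (2320, -400) (by decide +kernel)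
             (CovZ.leaf K2_ok TF_l2323 _)
             (CovZ.leaf K2_ok TF_l2324 _)))
           (CovZ.n1 (2560, -480) (by decide +kernel)
            (CovZ.n2 (2480, -560) (by decide +kernel)
             (CovZ.leaf K2_ok TF_l2325 _)
             (CovZ.n1 (2560, -560) (by decide +kernel)
              (CovZ.n2 (2520, -600) (by decide +kernel)
               (CovZ.leaf K2_ok TF_l2326 _)
               (CovZ.leaf K2_ok TF_l2327 _))
              (CovZ.leaf K2_ok TF_l2328 _)))
            (CovZ.leaf K2_ok TF_l2329 _))))
         (CovZ.n1 (2400, -160) (by decide +kernel)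
          (CovZ.leaf K2_ok TF_l2330 _)
          (CovZ.leaf K2_ok TF_l2331 _)))
        (CovZ.subM 3136042293543368879448541128424781785481216 (by decide +kernel)
         (CovZ.n1 (2240, -640) (by decide +kernel)
          (CovZ.n2 (2080, -480) (by decide +kernel)
           (CovZ.n2 (2240, -480) (by decide +kernel)
            (CovZ.n2 (2160, -560) (by decide +kernel)
             (CovZ.n2 (2160, -480) (by decide +kernel)
              (CovZ.leaf K2_ok TF_l2332 _)
              (CovZ.leaf K2_ok TF_l2333 _))
             (CovZ.n1 (2240, -560) (by decide +kernel)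
              (CovZ.n2 (2200, -600) (by decide +kernel)
               (CovZ.leaf K2_ok TF_l2334 _)
               (CovZ.n1 (2240, -600) (by decide +kernel)
                (CovZ.leaf K2_ok TF_l2335 _)
                (CovZ.leaf K2_ok TF_l2336 _)))
              (CovZ.leaf K2_ok TF_l2337 _)))
            (CovZ.n1 (2160, -400) (by decide +kernel)
             (CovZ.leaf K2_ok TF_l2338 _)
             (CovZ.leaf K2_ok TF_l2339 _)))
           (CovZ.n1 (2080, -640) (by decide +kernel)
            (CovZ.n2 (2000, -560) (by decide +kernel)
             (CovZ.n2 (2080, -560) (by decide +kernel)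
              (CovZ.n2 (2040, -600) (by decide +kernel)
               (CovZ.leaf K2_ok TF_l2340 _)
               (CovZ.n1 (2080, -600) (by decide +kernel)
                (CovZ.leaf K2_ok TF_l2341 _)
                (CovZ.leaf K2_ok TF_l2342 _)))
              (CovZ.leaf K2_ok TF_l2343 _))
             (CovZ.subM 18890042392230884409344 (by decide +kernel)
              (CovZ.n1 (2000, -640) (by decide +kernel)
               (CovZ.n2 (1960, -600) (by decide +kernel)
                (CovZ.n2 (2000, -600) (by decide +kernel)
                 (CovZ.n2 (1980, -620) (by decide +kernel)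
                  (CovZ.leaf K2_ok TF_l11220 _)
                  (CovZ.n1 (2000, -620) (by decide +kernel)
                   (CovZ.leaf K2_ok TF_l11221 _)
                   (CovZ.leaf K2_ok TF_l11222 _)))
                 (CovZ.leaf K2_ok TF_l2344 _))
                (CovZ.n1 (1960, -640) (by decide +kernel)
                 (CovZ.n2 (1940, -620) (by decide +kernel)
                  (CovZ.n2 (1960, -620) (by decide +kernel)
                   (CovZ.leaf K2_ok TF_l11223 _)
                   (CovZ.leaf K2_ok TF_l11224 _))
                  (CovZ.leaf K2_ok TF_l11225 _))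
                 (CovZ.leaf K2_ok TF_l11226 _)))
               (CovZ.n1 (2040, -600) (by decide +kernel)
                (CovZ.n2 (2040, -640) (by decide +kernel)
                 (CovZ.n2 (2020, -620) (by decide +kernel)
                  (CovZ.leaf K2_ok TF_l11227 _)
                  (CovZ.leaf K2_ok TF_l11228 _))
                 (CovZ.leaf K2_ok TF_l2345 _))
                (CovZ.n1 (2000, -600) (by decide +kernel)
                 (CovZ.leaf K2_ok TF_l2346 _)
                 (CovZ.n1 (2020, -620) (by decide +kernel)
                  (CovZ.leaf K2_ok TF_l11229 _)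
                  (CovZ.leaf K2_ok TF_l11230 _)))))))
            (CovZ.n1 (2160, -560) (by decide +kernel)
             (CovZ.subM 18890042392230884409344 (by decide +kernel)
              (CovZ.n2 (2160, -640) (by decide +kernel)
               (CovZ.n2 (2120, -600) (by decide +kernel)
                (CovZ.n2 (2160, -600) (by decide +kernel)
                 (CovZ.leaf K2_ok TF_l2347 _)
                 (CovZ.leaf K2_ok TF_l2348 _))
                (CovZ.leaf K2_ok TF_l2349 _))
               (CovZ.leaf K2_ok TF_l2350 _)))
             (CovZ.n1 (2080, -560) (by decide +kernel)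
              (CovZ.leaf K2_ok TF_l2351 _)
              (CovZ.n1 (2120, -600) (by decide +kernel)
               (CovZ.leaf K2_ok TF_l2352 _)
               (CovZ.leaf K2_ok TF_l2353 _))))))
          (CovZ.n1 (2400, -480) (by decide +kernel)
           (CovZ.n2 (2400, -640) (by decide +kernel)
            (CovZ.n2 (2320, -560) (by decide +kernel)
             (CovZ.n2 (2400, -560) (by decide +kernel)
              (CovZ.n2 (2360, -600) (by decide +kernel)
               (CovZ.leaf K2_ok TF_l2354 _)
               (CovZ.leaf K2_ok TF_l2355 _))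
              (CovZ.leaf K2_ok TF_l2356 _))
             (CovZ.subM 151116880936283207237632 (by decide +kernel)
              (CovZ.n1 (2320, -640) (by decide +kernel)
               (CovZ.n2 (2280, -600) (by decide +kernel)
                (CovZ.n2 (2320, -600) (by decide +kernel)
                 (CovZ.leaf K2_ok TF_l2357 _)
                 (CovZ.leaf K2_ok TF_l2358 _))
                (CovZ.leaf K2_ok TF_l2359 _))
               (CovZ.leaf K2_ok TF_l2360 _))))
            (CovZ.n1 (2480, -560) (by decide +kernel)
             (CovZ.n2 (2480, -640) (by decide +kernel)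
              (CovZ.n2 (2440, -600) (by decide +kernel)
               (CovZ.leaf K2_ok TF_l2361 _)
               (CovZ.leaf K2_ok TF_l2362 _))
              (CovZ.leaf K2_ok TF_l2363 _))
             (CovZ.n1 (2400, -560) (by decide +kernel)
              (CovZ.leaf K2_ok TF_l2364 _)
              (CovZ.n1 (2440, -600) (by decide +kernel)
               (CovZ.leaf K2_ok TF_l2365 _)
               (CovZ.leaf K2_ok TF_l2366 _)))))
           (CovZ.n1 (2240, -480) (by decide +kernel)
            (CovZ.leaf K2_ok TF_l2367 _)
            (CovZ.n1 (2320, -560) (by decide +kernel)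
             (CovZ.n2 (2240, -560) (by decide +kernel)
              (CovZ.leaf K2_ok TF_l2368 _)
              (CovZ.n1 (2280, -600) (by decide +kernel)
               (CovZ.leaf K2_ok TF_l2369 _)
               (CovZ.leaf K2_ok TF_l2370 _)))
             (CovZ.n1 (2320, -480) (by decide +kernel)
              (CovZ.leaf K2_ok TF_l2371 _)
              (CovZ.leaf K2_ok TF_l2372 _)))))))))
      (CovZ.badM (by decide +kernel))))
    (CovZ.n1 (1280, -2560) (by decide +kernel)
     (CovZ.n2 (640, -1920) (by decide +kernel)
      (CovZ.badM (by decide +kernel))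
      (CovZ.badM (by decide +kernel)))
     (CovZ.badM (by decide +kernel)))))
    (CovZ.topM TF_LL 7507425955755850604376505186537248825903828996 (by decide +kernel) (CovZ.n0 (1280, -1280) (by decide +kernel)
    (CovZ.subM 166153499523455085670405218003849220 (by decide +kernel)
     (CovZ.n2 (0, -1280) (by decide +kernel)
      (CovZ.n2 (640, -640) (by decide +kernel)
       (CovZ.n2 (640, -1280) (by decide +kernel)
        (CovZ.badM (by decide +kernel))
        (CovZ.badM (by decide +kernel)))
       (CovZ.n1 (0, -640) (by decide +kernel)
        TF_u28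
        TF_u29))
      (CovZ.n1 (640, -1920) (by decide +kernel)
       (CovZ.badM (by decide +kernel))
       (CovZ.n1 (640, -1280) (by decide +kernel)
        (CovZ.badM (by decide +kernel))
        (CovZ.badM (by decide +kernel))))))
    (CovZ.n1 (1280, 0) (by decide +kernel)
     (CovZ.n2 (1920, -640) (by decide +kernel)
      (CovZ.subM 166153499522850678099107189551927300 (by decide +kernel)
       (CovZ.n2 (1280, -640) (by decide +kernel)
        (CovZ.n2 (1600, -320) (by decide +kernel)
         TF_u30
         TF_u31)
        (CovZ.badM (by decide +kernel))))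
      (CovZ.n1 (1920, 0) (by decide +kernel)
       (CovZ.n2 (2240, -320) (by decide +kernel)
        (CovZ.subM 3136042459696868352563175265312550798098436 (by decide +kernel)
         (CovZ.n2 (1920, -320) (by decide +kernel)
          (CovZ.leaf K2_ok TF_l2463 _)
          (CovZ.n1 (2080, -480) (by decide +kernel)
           (CovZ.subM 170080746333605948686340 (by decide +kernel)
            (CovZ.n2 (1920, -480) (by decide +kernel)
             (CovZ.leaf K2_ok TF_l2464 _)
             (CovZ.n1 (2000, -560) (by decide +kernel)
              (CovZ.n2 (1920, -560) (by decide +kernel)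
               (CovZ.leaf K2_ok TF_l2465 _)
               (CovZ.subM 18890042392230884409344 (by decide +kernel)
                (CovZ.n1 (1960, -600) (by decide +kernel)
                 (CovZ.n2 (1920, -600) (by decide +kernel)
                  (CovZ.leaf K2_ok TF_l2466 _)
                  (CovZ.n1 (1940, -620) (by decide +kernel)
                   (CovZ.leaf K2_ok TF_l11362 _)
                   (CovZ.leaf K2_ok TF_l11363 _)))
                 (CovZ.n1 (1960, -560) (by decide +kernel)
                  (CovZ.leaf K2_ok TF_l2467 _)
                  (CovZ.leaf K2_ok TF_l2468 _)))))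
              (CovZ.n1 (2000, -480) (by decide +kernel)
               (CovZ.leaf K2_ok TF_l2469 _)
               (CovZ.n1 (1960, -520) (by decide +kernel)
                (CovZ.leaf K2_ok TF_l2470 _)
                (CovZ.leaf K2_ok TF_l2471 _))))))
           (CovZ.n1 (2080, -320) (by decide +kernel)
            (CovZ.n2 (2160, -400) (by decide +kernel)
             (CovZ.leaf K2_ok TF_l2472 _)
             (CovZ.leaf K2_ok TF_l2473 _))
            (CovZ.n1 (2000, -400) (by decide +kernel)
             (CovZ.leaf K2_ok TF_l2474 _)
             (CovZ.leaf K2_ok TF_l2475 _))))))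
        (CovZ.n1 (2240, 0) (by decide +kernel)
         (CovZ.n2 (2400, -160) (by decide +kernel)
          (CovZ.leaf K2_ok TF_l2476 _)
          (CovZ.leaf K2_ok TF_l2477 _))
         (CovZ.n1 (2080, -160) (by decide +kernel)
          (CovZ.leaf K2_ok TF_l2478 _)
          (CovZ.n1 (2240, -160) (by decide +kernel)
           (CovZ.leaf K2_ok TF_l2479 _)
           (CovZ.leaf K2_ok TF_l2480 _)))))
       (CovZ.subM 3136042459696868402129138481198365388705796 (by decide +kernel)
        (CovZ.n1 (1600, -320) (by decide +kernel)
         (CovZ.n2 (1600, 0) (by decide +kernel)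
          (CovZ.n2 (1760, -160) (by decide +kernel)
           (CovZ.leaf K2_ok TF_l2481 _)
           (CovZ.leaf K2_ok TF_l2482 _))
          (CovZ.n1 (1440, -160) (by decide +kernel)
           (CovZ.leaf K2_ok TF_l2483 _)
           (CovZ.n1 (1600, -160) (by decide +kernel)
            (CovZ.leaf K2_ok TF_l2484 _)
            (CovZ.leaf K2_ok TF_l2485 _))))
         (CovZ.n1 (1920, -320) (by decide +kernel)
          (CovZ.subM 170228320287295136727044 (by decide +kernel)
           (CovZ.n2 (1760, -480) (by decide +kernel)
            (CovZ.n2 (1760, -320) (by decide +kernel)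
             (CovZ.n2 (1840, -400) (by decide +kernel)
              (CovZ.leaf K2_ok TF_l2486 _)
              (CovZ.leaf K2_ok TF_l2487 _))
             (CovZ.n1 (1680, -400) (by decide +kernel)
              (CovZ.leaf K2_ok TF_l2488 _)
              (CovZ.n1 (1760, -400) (by decide +kernel)
               (CovZ.leaf K2_ok TF_l2489 _)
               (CovZ.leaf K2_ok TF_l2490 _))))
            (CovZ.n1 (1920, -480) (by decide +kernel)
             (CovZ.n2 (1840, -560) (by decide +kernel)
              (CovZ.n2 (1840, -480) (by decide +kernel)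
               (CovZ.n2 (1880, -520) (by decide +kernel)
                (CovZ.leaf K2_ok TF_l2491 _)
                (CovZ.leaf K2_ok TF_l2492 _))
               (CovZ.n1 (1800, -520) (by decide +kernel)
                (CovZ.leaf K2_ok TF_l2493 _)
                (CovZ.n1 (1840, -520) (by decide +kernel)
                 (CovZ.leaf K2_ok TF_l2494 _)
                 (CovZ.leaf K2_ok TF_l2495 _))))
              (CovZ.n1 (1920, -560) (by decide +kernel)
               (CovZ.subM 18890042392230884409344 (by decide +kernel)
                (CovZ.n2 (1880, -600) (by decide +kernel)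
                 (CovZ.n2 (1880, -560) (by decide +kernel)
                  (CovZ.leaf K2_ok TF_l2496 _)
                  (CovZ.n1 (1860, -580) (by decide +kernel)
                   (CovZ.leaf K2_ok TF_l11364 _)
                   (CovZ.leaf K2_ok TF_l11365 _)))
                 (CovZ.n1 (1920, -600) (by decide +kernel)
                  (CovZ.n2 (1900, -620) (by decide +kernel)
                   (CovZ.leaf K2_ok TF_l11366 _)
                   (CovZ.n1 (1920, -620) (by decide +kernel)
                    (CovZ.leaf K2_ok TF_l11367 _)
                    (CovZ.leaf K2_ok TF_l11368 _)))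
                  (CovZ.leaf K2_ok TF_l2497 _))))
               (CovZ.n1 (1880, -520) (by decide +kernel)
                (CovZ.leaf K2_ok TF_l2498 _)
                (CovZ.leaf K2_ok TF_l2499 _))))
             (CovZ.n1 (1840, -400) (by decide +kernel)
              (CovZ.n2 (1920, -400) (by decide +kernel)
               (CovZ.leaf K2_ok TF_l2500 _)
               (CovZ.leaf K2_ok TF_l2501 _))
              (CovZ.leaf K2_ok TF_l2502 _)))))
          (CovZ.n1 (1760, -160) (by decide +kernel)
           (CovZ.n2 (1920, -160) (by decide +kernel)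
            (CovZ.leaf K2_ok TF_l2503 _)
            (CovZ.leaf K2_ok TF_l2504 _))
           (CovZ.leaf K2_ok TF_l2505 _)))))))
     (CovZ.n1 (640, -640) (by decide +kernel)
      TF_u34
      TF_u35))))

theorem TF_s4_2 : SqZ TF_M TF_L [0, 7, 4, 3] (-7680) (-7680) 2560 4 2 :=
  SqZ.mk (a := 2560) (b := 5120) (c := (-2560)) (d := 0) (by norm_num) (by norm_num) (by norm_num) (by norm_num)
    (CovZ.topM TF_LL 5923635443440826429727918785410856124582402 (by decide +kernel) (CovZ.n2 (3840, -1280) (by decide +kernel)
    (CovZ.n2 (5120, -1280) (by decide +kernel)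
     (CovZ.badM (by decide +kernel))
     (CovZ.n1 (4480, -640) (by decide +kernel)
      (CovZ.subM 19342813149862863814429186 (by decide +kernel)
       (CovZ.n2 (5120, -640) (by decide +kernel)
        (CovZ.n2 (4800, -960) (by decide +kernel)
         (CovZ.n2 (4800, -640) (by decide +kernel)
          (CovZ.leaf K2_ok TF_l3994 _)
          (CovZ.n1 (4640, -800) (by decide +kernel)
           (CovZ.leaf K2_ok TF_l3995 _)
           (CovZ.leaf K2_ok TF_l3996 _)))
         (CovZ.n1 (5120, -960) (by decide +kernel)
          (CovZ.n2 (4960, -1120) (by decide +kernel)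
           (CovZ.leaf K2_ok TF_l3997 _)
           (CovZ.n1 (5120, -1120) (by decide +kernel)
            (CovZ.badM (by decide +kernel))
            (CovZ.leaf K2_ok TF_l3998 _)))
          (CovZ.leaf K2_ok TF_l3999 _)))
        (CovZ.n1 (4800, -320) (by decide +kernel)
         (CovZ.leaf K2_ok TF_l4000 _)
         (CovZ.leaf K2_ok TF_l4001 _))))
      (CovZ.subM 5575186299632655785383929604190887395493890 (by decide +kernel)
       (CovZ.n1 (4480, -1280) (by decide +kernel)
        (CovZ.n2 (4160, -960) (by decide +kernel)
         (CovZ.n2 (4480, -960) (by decide +kernel)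
          (CovZ.n2 (4320, -1120) (by decide +kernel)
           (CovZ.n2 (4320, -960) (by decide +kernel)
            (CovZ.n2 (4400, -1040) (by decide +kernel)
             (CovZ.badM (by decide +kernel))
             (CovZ.leaf K2_ok TF_l4003 _))
            (CovZ.badM (by decide +kernel)))
           (CovZ.n1 (4480, -1120) (by decide +kernel)
            (CovZ.n2 (4400, -1200) (by decide +kernel)
             (CovZ.n2 (4400, -1120) (by decide +kernel)
              (CovZ.n2 (4440, -1160) (by decide +kernel)
               (CovZ.badM (by decide +kernel))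
               (CovZ.n1 (4440, -1120) (by decide +kernel)
                (CovZ.leaf K2_ok TF_l12768 _)
                (CovZ.badM (by decide +kernel))))
              (CovZ.badM (by decide +kernel)))
             (CovZ.n1 (4480, -1200) (by decide +kernel)
              (CovZ.badM (by decide +kernel))
              (CovZ.n1 (4440, -1160) (by decide +kernel)
               (CovZ.n2 (4480, -1160) (by decide +kernel)
                (CovZ.n2 (4460, -1180) (by decide +kernel)
                 (CovZ.leaf K2_ok TF_l12769 _)
                 (CovZ.n1 (4480, -1180) (by decide +kernel)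
                  (CovZ.badM (by decide +kernel))
                  (CovZ.leaf K2_ok TF_l12770 _)))
                (CovZ.leaf K2_ok TF_l12771 _))
               (CovZ.badM (by decide +kernel)))))
            (CovZ.n1 (4400, -1040) (by decide +kernel)
             (CovZ.n2 (4480, -1040) (by decide +kernel)
              (CovZ.n2 (4440, -1080) (by decide +kernel)
               (CovZ.leaf K2_ok TF_l12772 _)
               (CovZ.leaf K2_ok TF_l12773 _))
              (CovZ.leaf K2_ok TF_l4006 _))
             (CovZ.n1 (4400, -1120) (by decide +kernel)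
              (CovZ.badM (by decide +kernel))
              (CovZ.leaf K2_ok TF_l12774 _)))))
          (CovZ.n1 (4320, -800) (by decide +kernel)
           (CovZ.n2 (4480, -800) (by decide +kernel)
            (CovZ.leaf K2_ok TF_l4007 _)
            (CovZ.leaf K2_ok TF_l4008 _))
           (CovZ.n1 (4320, -960) (by decide +kernel)
            (CovZ.n2 (4240, -880) (by decide +kernel)
             (CovZ.leaf K2_ok TF_l4009 _)
             (CovZ.leaf K2_ok TF_l4010 _))
            (CovZ.leaf K2_ok TF_l4011 _))))
         (CovZ.n1 (4160, -1280) (by decide +kernel)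
          (CovZ.n2 (4000, -1120) (by decide +kernel)
           (CovZ.badM (by decide +kernel))
           (CovZ.badM (by decide +kernel)))
          (CovZ.badM (by decide +kernel))))
        (CovZ.n1 (4800, -960) (by decide +kernel)
         (CovZ.n2 (4800, -1280) (by decide +kernel)
          (CovZ.n2 (4640, -1120) (by decide +kernel)
           (CovZ.n2 (4800, -1120) (by decide +kernel)
            (CovZ.n2 (4720, -1200) (by decide +kernel)
             (CovZ.n2 (4720, -1120) (by decide +kernel)
              (CovZ.leaf K2_ok TF_l12775 _)
              (CovZ.leaf K2_ok TF_l12776 _))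
             (CovZ.n1 (4800, -1200) (by decide +kernel)
              (CovZ.badM (by decide +kernel))
              (CovZ.leaf K2_ok TF_l12777 _)))
            (CovZ.leaf K2_ok TF_l4012 _))
           (CovZ.n1 (4640, -1280) (by decide +kernel)
            (CovZ.n2 (4560, -1200) (by decide +kernel)
             (CovZ.n2 (4640, -1200) (by decide +kernel)
              (CovZ.badM (by decide +kernel))
              (CovZ.n1 (4600, -1160) (by decide +kernel)
               (CovZ.leaf K2_ok TF_l12778 _)
               (CovZ.badM (by decide +kernel))))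
             (CovZ.badM (by decide +kernel)))
            (CovZ.n1 (4720, -1200) (by decide +kernel)
             (CovZ.badM (by decide +kernel))
             (CovZ.n1 (4640, -1200) (by decide +kernel)
              (CovZ.leaf K2_ok TF_l12779 _)
              (CovZ.badM (by decide +kernel))))))
          (CovZ.n1 (4960, -1120) (by decide +kernel)
           (CovZ.badM (by decide +kernel))
           (CovZ.n1 (4800, -1120) (by decide +kernel)
            (CovZ.leaf K2_ok TF_l4013 _)
            (CovZ.n1 (4880, -1200) (by decide +kernel)
             (CovZ.leaf K2_ok TF_l12780 _)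
             (CovZ.leaf K2_ok TF_l12781 _)))))
         (CovZ.n1 (4480, -960) (by decide +kernel)
          (CovZ.leaf K2_ok TF_l4014 _)
          (CovZ.n1 (4640, -1120) (by decide +kernel)
           (CovZ.n2 (4480, -1120) (by decide +kernel)
            (CovZ.n2 (4560, -1040) (by decide +kernel)
             (CovZ.leaf K2_ok TF_l12782 _)
             (CovZ.leaf K2_ok TF_l4015 _))
            (CovZ.n1 (4560, -1200) (by decide +kernel)
             (CovZ.n2 (4480, -1200) (by decide +kernel)
              (CovZ.n2 (4520, -1160) (by decide +kernel)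
               (CovZ.n2 (4520, -1200) (by decide +kernel)
                (CovZ.n2 (4500, -1180) (by decide +kernel)
                 (CovZ.leaf K2_ok TF_l12783 _)
                 (CovZ.badM (by decide +kernel)))
                (CovZ.leaf K2_ok TF_l12784 _))
               (CovZ.n1 (4480, -1160) (by decide +kernel)
                (CovZ.leaf K2_ok TF_l12785 _)
                (CovZ.n1 (4500, -1180) (by decide +kernel)
                 (CovZ.n2 (4480, -1180) (by decide +kernel)
                  (CovZ.leaf K2_ok TF_l12786 _)
                  (CovZ.badM (by decide +kernel)))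
                 (CovZ.leaf K2_ok TF_l12787 _))))
              (CovZ.badM (by decide +kernel)))
             (CovZ.n1 (4560, -1120) (by decide +kernel)
              (CovZ.n2 (4600, -1160) (by decide +kernel)
               (CovZ.leaf K2_ok TF_l12788 _)
               (CovZ.leaf K2_ok TF_l12789 _))
              (CovZ.n1 (4520, -1160) (by decide +kernel)
               (CovZ.leaf K2_ok TF_l12790 _)
               (CovZ.n1 (4560, -1160) (by decide +kernel)
                (CovZ.leaf K2_ok TF_l12791 _)
                (CovZ.leaf K2_ok TF_l12792 _))))))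
           (CovZ.n1 (4640, -960) (by decide +kernel)
            (CovZ.leaf K2_ok TF_l4016 _)
            (CovZ.n1 (4560, -1040) (by decide +kernel)
             (CovZ.leaf K2_ok TF_l4017 _)
             (CovZ.leaf K2_ok TF_l4018 _))))))))))
    (CovZ.badM (by decide +kernel))))
    (CovZ.topM TF_LL 147383187914787466344432810390054092255453694470 (by decide +kernel) (CovZ.n0 (3840, -1280) (by decide +kernel)
    TF_u38
    TF_u39))

theorem TF_s5_2 : SqZ TF_M TF_L [0, 7, 4, 3] (-7680) (-7680) 2560 5 2 :=
  SqZ.mk (a := 5120) (b := 7680) (c := (-2560)) (d := 0) (by norm_num) (by norm_num) (by norm_num) (by norm_num)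
    (CovZ.topM TF_LL 2722258937902828251050392519198927653386 (by decide +kernel) (CovZ.n2 (6400, -1280) (by decide +kernel)
    (CovZ.n2 (7680, -1280) (by decide +kernel)
     (CovZ.subM 19342813113834067332170240 (by decide +kernel)
      (CovZ.n2 (7040, -1920) (by decide +kernel)
       (CovZ.n2 (7040, -1280) (by decide +kernel)
        (CovZ.n2 (7360, -1600) (by decide +kernel)
         (CovZ.leaf K2_ok TF_l4506 _)
         (CovZ.leaf K2_ok TF_l4507 _))
        (CovZ.n1 (6720, -1600) (by decide +kernel)
         (CovZ.leaf K2_ok TF_l4508 _)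
         (CovZ.n1 (7040, -1600) (by decide +kernel)
          (CovZ.badM (by decide +kernel))
          (CovZ.leaf K2_ok TF_l4511 _))))
       (CovZ.n1 (7680, -1920) (by decide +kernel)
        (CovZ.n2 (7360, -2240) (by decide +kernel)
         (CovZ.badM (by decide +kernel))
         (CovZ.n1 (7680, -2240) (by decide +kernel)
          (CovZ.n2 (7520, -2400) (by decide +kernel)
           (CovZ.n2 (7520, -2240) (by decide +kernel)
            (CovZ.n2 (7600, -2320) (by decide +kernel)
             (CovZ.badM (by decide +kernel))
             (CovZ.leaf K2_ok TF_l12970 _))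
            (CovZ.badM (by decide +kernel)))
           (CovZ.n1 (7680, -2400) (by decide +kernel)
            (CovZ.n2 (7600, -2480) (by decide +kernel)
             (CovZ.n2 (7600, -2400) (by decide +kernel)
              (CovZ.n2 (7640, -2440) (by decide +kernel)
               (CovZ.n2 (7600, -2440) (by decide +kernel)
                (CovZ.leaf K2_ok TF_l12971 _)
                (CovZ.leaf K2_ok TF_l12972 _))
               (CovZ.leaf K2_ok TF_l12973 _))
              (CovZ.n1 (7560, -2440) (by decide +kernel)
               (CovZ.n2 (7560, -2400) (by decide +kernel)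
                (CovZ.leaf K2_ok TF_l12974 _)
                (CovZ.leaf K2_ok TF_l12975 _))
               (CovZ.n1 (7600, -2440) (by decide +kernel)
                (CovZ.n2 (7580, -2460) (by decide +kernel)
                 (CovZ.leaf K2_ok TF_l12976 _)
                 (CovZ.leaf K2_ok TF_l12977 _))
                (CovZ.leaf K2_ok TF_l12978 _))))
             (CovZ.n1 (7680, -2480) (by decide +kernel)
              (CovZ.badM (by decide +kernel))
              (CovZ.n1 (7640, -2440) (by decide +kernel)
               (CovZ.n2 (7680, -2440) (by decide +kernel)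
                (CovZ.leaf K2_ok TF_l12979 _)
                (CovZ.leaf K2_ok TF_l12980 _))
               (CovZ.n1 (7640, -2480) (by decide +kernel)
                (CovZ.n2 (7620, -2460) (by decide +kernel)
                 (CovZ.leaf K2_ok TF_l12981 _)
                 (CovZ.badM (by decide +kernel)))
                (CovZ.leaf K2_ok TF_l12982 _)))))
            (CovZ.n1 (7600, -2320) (by decide +kernel)
             (CovZ.leaf K2_ok TF_l12983 _)
             (CovZ.n1 (7600, -2400) (by decide +kernel)
              (CovZ.leaf K2_ok TF_l12984 _)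
              (CovZ.leaf K2_ok TF_l12985 _)))))
          (CovZ.n1 (7520, -2080) (by decide +kernel)
           (CovZ.leaf K2_ok TF_l12986 _)
           (CovZ.n1 (7520, -2240) (by decide +kernel)
            (CovZ.badM (by decide +kernel))
            (CovZ.leaf K2_ok TF_l12987 _)))))
        (CovZ.n1 (7360, -1600) (by decide +kernel)
         (CovZ.leaf K2_ok TF_l4512 _)
         (CovZ.badM (by decide +kernel))))))
     (CovZ.n1 (7040, -640) (by decide +kernel)
      (CovZ.leaf K2_ok TF_l4515 _)
      (CovZ.n1 (7040, -1280) (by decide +kernel)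
       (CovZ.leaf K2_ok TF_l4516 _)
       (CovZ.leaf K2_ok TF_l4517 _))))
    (CovZ.subM 536870912 (by decide +kernel)
     (CovZ.n1 (6400, -2560) (by decide +kernel)
      (CovZ.badM (by decide +kernel))
      (CovZ.n1 (7040, -1920) (by decide +kernel)
       (CovZ.n2 (7040, -2560) (by decide +kernel)
        (CovZ.badM (by decide +kernel))
        (CovZ.n1 (7360, -2240) (by decide +kernel)
         (CovZ.n2 (7360, -2560) (by decide +kernel)
          (CovZ.badM (by decide +kernel))
          (CovZ.n1 (7520, -2400) (by decide +kernel)
           (CovZ.n2 (7520, -2560) (by decide +kernel)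
            (CovZ.n2 (7440, -2480) (by decide +kernel)
             (CovZ.n2 (7520, -2480) (by decide +kernel)
              (CovZ.badM (by decide +kernel))
              (CovZ.n1 (7480, -2440) (by decide +kernel)
               (CovZ.n2 (7520, -2440) (by decide +kernel)
                (CovZ.n2 (7500, -2460) (by decide +kernel)
                 (CovZ.badM (by decide +kernel))
                 (CovZ.n1 (7520, -2460) (by decide +kernel)
                  (CovZ.badM (by decide +kernel))
                  (CovZ.badM (by decide +kernel))))
                (CovZ.badM (by decide +kernel)))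
               (CovZ.n1 (7480, -2480) (by decide +kernel)
                (CovZ.badM (by decide +kernel))
                (CovZ.n1 (7500, -2460) (by decide +kernel)
                 (CovZ.badM (by decide +kernel))
                 (CovZ.badM (by decide +kernel))))))
             (CovZ.badM (by decide +kernel)))
            (CovZ.n1 (7600, -2480) (by decide +kernel)
             (CovZ.badM (by decide +kernel))
             (CovZ.n1 (7520, -2480) (by decide +kernel)
              (CovZ.n2 (7560, -2440) (by decide +kernel)
               (CovZ.n2 (7560, -2480) (by decide +kernel)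
                (CovZ.n2 (7540, -2460) (by decide +kernel)
                 (CovZ.n2 (7560, -2460) (by decide +kernel)
                  (CovZ.badM (by decide +kernel))
                  (CovZ.leaf K2_ok TF_l12988 _))
                 (CovZ.badM (by decide +kernel)))
                (CovZ.n1 (7580, -2460) (by decide +kernel)
                 (CovZ.badM (by decide +kernel))
                 (CovZ.n1 (7560, -2460) (by decide +kernel)
                  (CovZ.leaf K2_ok TF_l12989 _)
                  (CovZ.badM (by decide +kernel)))))
               (CovZ.n1 (7520, -2440) (by decide +kernel)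
                (CovZ.leaf K2_ok TF_l12990 _)
                (CovZ.n1 (7540, -2460) (by decide +kernel)
                 (CovZ.n2 (7520, -2460) (by decide +kernel)
                  (CovZ.leaf K2_ok TF_l12991 _)
                  (CovZ.badM (by decide +kernel)))
                 (CovZ.leaf K2_ok TF_l12992 _))))
              (CovZ.badM (by decide +kernel)))))
           (CovZ.badM (by decide +kernel))))
         (CovZ.badM (by decide +kernel))))
       (CovZ.badM (by decide +kernel)))))))
    (CovZ.topM TF_LL 2722258937902828251050392519198390782474 (by decide +kernel) (CovZ.n0 (6400, -1280) (by decide +kernel)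
    (CovZ.n2 (5120, -1280) (by decide +kernel)
     (CovZ.subM 19342813149862863814429186 (by decide +kernel)
      (CovZ.n2 (5760, -640) (by decide +kernel)
       (CovZ.n2 (5760, -1280) (by decide +kernel)
        (CovZ.n2 (5440, -960) (by decide +kernel)
         (CovZ.n2 (5760, -960) (by decide +kernel)
          (CovZ.leaf K2_ok TF_l4562 _)
          (CovZ.leaf K2_ok TF_l4563 _))
         (CovZ.n1 (5440, -1280) (by decide +kernel)
          (CovZ.n2 (5280, -1120) (by decide +kernel)
           (CovZ.leaf K2_ok TF_l4564 _)
           (CovZ.badM (by decide +kernel)))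
          (CovZ.leaf K2_ok TF_l4566 _)))
        (CovZ.leaf K2_ok TF_l4567 _))
       (CovZ.n1 (5120, -640) (by decide +kernel)
        (CovZ.leaf K2_ok TF_l4568 _)
        (CovZ.n1 (5440, -960) (by decide +kernel)
         (CovZ.n2 (5120, -960) (by decide +kernel)
          (CovZ.leaf K2_ok TF_l4569 _)
          (CovZ.n1 (5280, -1120) (by decide +kernel)
           (CovZ.leaf K2_ok TF_l4570 _)
           (CovZ.leaf K2_ok TF_l4571 _)))
         (CovZ.leaf K2_ok TF_l4572 _)))))
     (CovZ.badM (by decide +kernel)))
    (CovZ.n1 (6400, 0) (by decide +kernel)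
     (CovZ.n2 (7040, -640) (by decide +kernel)
      (CovZ.leaf K2_ok TF_l4621 _)
      (CovZ.leaf K2_ok TF_l4622 _))
     (CovZ.subM 19342813149862863814429186 (by decide +kernel)
      (CovZ.n1 (5760, -640) (by decide +kernel)
       (CovZ.n2 (5760, 0) (by decide +kernel)
        (CovZ.leaf K2_ok TF_l4623 _)
        (CovZ.leaf K2_ok TF_l4624 _))
       (CovZ.n1 (6400, -640) (by decide +kernel)
        (CovZ.n2 (6080, -960) (by decide +kernel)
         (CovZ.leaf K2_ok TF_l4625 _)
         (CovZ.leaf K2_ok TF_l4626 _))
        (CovZ.leaf K2_ok TF_l4627 _)))))))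

theorem TF_s6_2 : SqZ TF_M TF_L [0, 7, 4, 3] (-7680) (-7680) 2560 6 2 :=
  SqZ.mk (a := 7680) (b := 10240) (c := (-2560)) (d := 0) (by norm_num) (by norm_num) (by norm_num) (by norm_num)
    (CovZ.topM TF_LL 2764794558286499217336254151989081047562 (by decide +kernel) (CovZ.n2 (8960, -1280) (by decide +kernel)
    (CovZ.n2 (10240, -1280) (by decide +kernel)
     (CovZ.n2 (9600, -1920) (by decide +kernel)
      (CovZ.n2 (9600, -1280) (by decide +kernel)
       (CovZ.leaf K2_ok TF_l4783 _)
       (CovZ.leaf K2_ok TF_l4784 _))
      (CovZ.n1 (10240, -1920) (by decide +kernel)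
       (CovZ.n2 (9920, -2240) (by decide +kernel)
        (CovZ.leaf K2_ok TF_l4785 _)
        (CovZ.leaf K2_ok TF_l4786 _))
       (CovZ.leaf K2_ok TF_l4787 _)))
     (CovZ.leaf K2_ok TF_l4788 _))
    (CovZ.subM 2764794231232644358453032519450448921096 (by decide +kernel)
     (CovZ.n1 (8960, -2560) (by decide +kernel)
      (CovZ.n2 (8320, -1920) (by decide +kernel)
       (CovZ.n2 (8960, -1920) (by decide +kernel)
        (CovZ.subM 2722258935367507707706996859454682563072 (by decide +kernel)
         (CovZ.n2 (8640, -2240) (by decide +kernel)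
          (CovZ.n2 (8640, -1920) (by decide +kernel)
           (CovZ.leaf K2_ok TF_l4789 _)
           (CovZ.leaf K2_ok TF_l4790 _))
          (CovZ.n1 (8960, -2240) (by decide +kernel)
           (CovZ.n2 (8800, -2400) (by decide +kernel)
            (CovZ.leaf K2_ok TF_l13110 _)
            (CovZ.leaf K2_ok TF_l13111 _))
           (CovZ.leaf K2_ok TF_l4791 _))))
        (CovZ.leaf K2_ok TF_l4792 _))
       (CovZ.subM 2722258935367507707706996859454682562560 (by decide +kernel)
        (CovZ.n1 (8320, -2560) (by decide +kernel)
         (CovZ.n2 (8000, -2240) (by decide +kernel)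
          (CovZ.n2 (8320, -2240) (by decide +kernel)
           (CovZ.n2 (8160, -2400) (by decide +kernel)
            (CovZ.n2 (8160, -2240) (by decide +kernel)
             (CovZ.leaf K2_ok TF_l13112 _)
             (CovZ.leaf K2_ok TF_l13113 _))
            (CovZ.n1 (8320, -2400) (by decide +kernel)
             (CovZ.n2 (8240, -2480) (by decide +kernel)
              (CovZ.leaf K2_ok TF_l13114 _)
              (CovZ.leaf K2_ok TF_l13115 _))
             (CovZ.leaf K2_ok TF_l13116 _)))
           (CovZ.leaf K2_ok TF_l4793 _))
          (CovZ.n1 (8000, -2560) (by decide +kernel)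
           (CovZ.n2 (7840, -2400) (by decide +kernel)
            (CovZ.n2 (8000, -2400) (by decide +kernel)
             (CovZ.n2 (7920, -2480) (by decide +kernel)
              (CovZ.n2 (7920, -2400) (by decide +kernel)
               (CovZ.leaf K2_ok TF_l13117 _)
               (CovZ.leaf K2_ok TF_l13118 _))
              (CovZ.n1 (8000, -2480) (by decide +kernel)
               (CovZ.badM (by decide +kernel))
               (CovZ.leaf K2_ok TF_l13119 _)))
             (CovZ.leaf K2_ok TF_l13120 _))
            (CovZ.n1 (7840, -2560) (by decide +kernel)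
             (CovZ.n2 (7760, -2480) (by decide +kernel)
              (CovZ.n2 (7840, -2480) (by decide +kernel)
               (CovZ.badM (by decide +kernel))
               (CovZ.n1 (7800, -2440) (by decide +kernel)
                (CovZ.leaf K2_ok TF_l13121 _)
                (CovZ.leaf K2_ok TF_l13122 _)))
              (CovZ.badM (by decide +kernel)))
             (CovZ.n1 (7920, -2480) (by decide +kernel)
              (CovZ.badM (by decide +kernel))
              (CovZ.n1 (7840, -2480) (by decide +kernel)
               (CovZ.leaf K2_ok TF_l13123 _)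
               (CovZ.badM (by decide +kernel))))))
           (CovZ.n1 (8160, -2400) (by decide +kernel)
            (CovZ.n2 (8160, -2560) (by decide +kernel)
             (CovZ.n2 (8080, -2480) (by decide +kernel)
              (CovZ.n2 (8160, -2480) (by decide +kernel)
               (CovZ.badM (by decide +kernel))
               (CovZ.leaf K2_ok TF_l13124 _))
              (CovZ.badM (by decide +kernel)))
             (CovZ.leaf K2_ok TF_l13125 _))
            (CovZ.n1 (8000, -2400) (by decide +kernel)
             (CovZ.leaf K2_ok TF_l13126 _)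
             (CovZ.n1 (8080, -2480) (by decide +kernel)
              (CovZ.n2 (8000, -2480) (by decide +kernel)
               (CovZ.leaf K2_ok TF_l13127 _)
               (CovZ.badM (by decide +kernel)))
              (CovZ.leaf K2_ok TF_l13128 _))))))
         (CovZ.n1 (8640, -2240) (by decide +kernel)
          (CovZ.n2 (8640, -2560) (by decide +kernel)
           (CovZ.n2 (8480, -2400) (by decide +kernel)
            (CovZ.n2 (8640, -2400) (by decide +kernel)
             (CovZ.leaf K2_ok TF_l13129 _)
             (CovZ.leaf K2_ok TF_l13130 _))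
            (CovZ.n1 (8480, -2560) (by decide +kernel)
             (CovZ.n2 (8400, -2480) (by decide +kernel)
              (CovZ.leaf K2_ok TF_l13131 _)
              (CovZ.badM (by decide +kernel)))
             (CovZ.leaf K2_ok TF_l13132 _)))
           (CovZ.n1 (8800, -2400) (by decide +kernel)
            (CovZ.n2 (8800, -2560) (by decide +kernel)
             (CovZ.leaf K2_ok TF_l13133 _)
             (CovZ.leaf K2_ok TF_l13134 _))
            (CovZ.leaf K2_ok TF_l13135 _)))
          (CovZ.n1 (8320, -2240) (by decide +kernel)
           (CovZ.leaf K2_ok TF_l4794 _)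
           (CovZ.n1 (8480, -2400) (by decide +kernel)
            (CovZ.n2 (8320, -2400) (by decide +kernel)
             (CovZ.leaf K2_ok TF_l13136 _)
             (CovZ.leaf K2_ok TF_l13137 _))
            (CovZ.leaf K2_ok TF_l13138 _)))))))
      (CovZ.n1 (9600, -1920) (by decide +kernel)
       (CovZ.n2 (9600, -2560) (by decide +kernel)
        (CovZ.n2 (9280, -2240) (by decide +kernel)
         (CovZ.n2 (9600, -2240) (by decide +kernel)
          (CovZ.leaf K2_ok TF_l4795 _)
          (CovZ.leaf K2_ok TF_l4796 _))
         (CovZ.n1 (9280, -2560) (by decide +kernel)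
          (CovZ.n2 (9120, -2400) (by decide +kernel)
           (CovZ.leaf K2_ok TF_l4797 _)
           (CovZ.leaf K2_ok TF_l13139 _))
          (CovZ.leaf K2_ok TF_l4798 _)))
        (CovZ.leaf K2_ok TF_l4799 _))
       (CovZ.n1 (8960, -1920) (by decide +kernel)
        (CovZ.leaf K2_ok TF_l4800 _)
        (CovZ.n1 (9280, -2240) (by decide +kernel)
         (CovZ.n2 (8960, -2240) (by decide +kernel)
          (CovZ.leaf K2_ok TF_l4801 _)
          (CovZ.n1 (9120, -2400) (by decide +kernel)
           (CovZ.leaf K2_ok TF_l13140 _)
           (CovZ.leaf K2_ok TF_l4802 _)))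
         (CovZ.leaf K2_ok TF_l4803 _))))))))
    (CovZ.topM TF_LL 2722259262421381909403332326060110031370 (by decide +kernel) (CovZ.n0 (8960, -1280) (by decide +kernel)
    (CovZ.n2 (7680, -1280) (by decide +kernel)
     (CovZ.leaf K2_ok TF_l4804 _)
     (CovZ.subM 2722258935367527050520110693521477894664 (by decide +kernel)
      (CovZ.n1 (8320, -1920) (by decide +kernel)
       (CovZ.subM 19342813113834067332170240 (by decide +kernel)
        (CovZ.n2 (7680, -1920) (by decide +kernel)
         (CovZ.leaf K2_ok TF_l4805 _)
         (CovZ.n1 (8000, -2240) (by decide +kernel)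
          (CovZ.n2 (7680, -2240) (by decide +kernel)
           (CovZ.leaf K2_ok TF_l13141 _)
           (CovZ.n1 (7840, -2400) (by decide +kernel)
            (CovZ.n2 (7680, -2400) (by decide +kernel)
             (CovZ.leaf K2_ok TF_l13142 _)
             (CovZ.n1 (7760, -2480) (by decide +kernel)
              (CovZ.n2 (7680, -2480) (by decide +kernel)
               (CovZ.leaf K2_ok TF_l13143 _)
               (CovZ.badM (by decide +kernel)))
              (CovZ.n1 (7760, -2400) (by decide +kernel)
               (CovZ.leaf K2_ok TF_l13144 _)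
               (CovZ.n1 (7720, -2440) (by decide +kernel)
                (CovZ.leaf K2_ok TF_l13145 _)
                (CovZ.leaf K2_ok TF_l13146 _)))))
            (CovZ.n1 (7840, -2240) (by decide +kernel)
             (CovZ.leaf K2_ok TF_l13147 _)
             (CovZ.n1 (7760, -2320) (by decide +kernel)
              (CovZ.leaf K2_ok TF_l13148 _)
              (CovZ.leaf K2_ok TF_l13149 _)))))
          (CovZ.n1 (8000, -1920) (by decide +kernel)
           (CovZ.leaf K2_ok TF_l4806 _)
           (CovZ.n1 (7840, -2080) (by decide +kernel)
            (CovZ.leaf K2_ok TF_l13150 _)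
            (CovZ.leaf K2_ok TF_l13151 _))))))
       (CovZ.n1 (8320, -1280) (by decide +kernel)
        (CovZ.leaf K2_ok TF_l4807 _)
        (CovZ.n1 (8000, -1600) (by decide +kernel)
         (CovZ.leaf K2_ok TF_l4808 _)
         (CovZ.leaf K2_ok TF_l4809 _))))))
    (CovZ.n1 (8960, 0) (by decide +kernel)
     (CovZ.leaf K2_ok TF_l4810 _)
     (CovZ.n1 (8320, -640) (by decide +kernel)
      (CovZ.leaf K2_ok TF_l4811 _)
      (CovZ.leaf K2_ok TF_l4812 _)))))

theorem TF_s7_2 : SqZ TF_M TF_L [0, 7, 4, 3] (-7680) (-7680) 2560 7 2 :=
  SqZ.mk (a := 10240) (b := 12800) (c := (-2560)) (d := 0) (by norm_num) (by norm_num) (by norm_num) (by norm_num)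
    (CovZ.topM TF_LL 132922802116288010647801536807814005258 (by decide +kernel) (CovZ.n2 (11520, -1280) (by decide +kernel)
    (CovZ.n2 (12800, -1280) (by decide +kernel)
     (CovZ.n2 (12160, -1920) (by decide +kernel)
      (CovZ.leaf K2_ok TF_l5050 _)
      (CovZ.leaf K2_ok TF_l5051 _))
     (CovZ.leaf K2_ok TF_l5052 _))
    (CovZ.subM 42535298402913731281101269997434470920 (by decide +kernel)
     (CovZ.n1 (11520, -2560) (by decide +kernel)
      (CovZ.n2 (10880, -1920) (by decide +kernel)
       (CovZ.n2 (11520, -1920) (by decide +kernel)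
        (CovZ.leaf K2_ok TF_l5053 _)
        (CovZ.leaf K2_ok TF_l5054 _))
       (CovZ.n1 (10880, -2560) (by decide +kernel)
        (CovZ.leaf K2_ok TF_l5055 _)
        (CovZ.leaf K2_ok TF_l5056 _)))
      (CovZ.leaf K2_ok TF_l5057 _)))))
    (CovZ.topM TF_LL 2855181737483795718354798396261959696906 (by decide +kernel) (CovZ.n0 (11520, -1280) (by decide +kernel)
    (CovZ.n2 (10240, -1280) (by decide +kernel)
     (CovZ.leaf K2_ok TF_l5058 _)
     (CovZ.n1 (10880, -1920) (by decide +kernel)
      (CovZ.leaf K2_ok TF_l5059 _)
      (CovZ.leaf K2_ok TF_l5060 _)))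
    (CovZ.leaf K2_ok TF_l5061 _)))

theorem TF_s8_2 : SqZ TF_M TF_L [0, 7, 4, 3] (-7680) (-7680) 2560 8 2 :=
  SqZ.mk (a := 12800) (b := 15360) (c := (-2560)) (d := 0) (by norm_num) (by norm_num) (by norm_num) (by norm_num)
    (CovZ.topM TF_LL 135586490970773562342795774750290510632 (by decide +kernel) (CovZ.n2 (14080, -1280) (by decide +kernel)
    (CovZ.n2 (15360, -1280) (by decide +kernel)
     (CovZ.leaf K2_ok TF_l5335 _)
     (CovZ.leaf K2_ok TF_l5336 _))
    (CovZ.leaf K2_ok TF_l5337 _)))
    (CovZ.topM TF_LL 135586490969535622303510394475391386410 (by decide +kernel) (CovZ.n0 (14080, -1280) (by decide +kernel)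
    (CovZ.leaf K2_ok TF_l5338 _)
    (CovZ.leaf K2_ok TF_l5339 _)))

theorem TF_s9_2 : SqZ TF_M TF_L [0, 7, 4, 3] (-7680) (-7680) 2560 9 2 :=
  SqZ.mk (a := 15360) (b := 17920) (c := (-2560)) (d := 0) (by norm_num) (by norm_num) (by norm_num) (by norm_num)
    (CovZ.topM TF_LL 135586490970773637900659782139590640424 (by decide +kernel) (CovZ.n2 (16640, -1280) (by decide +kernel)
    (CovZ.n2 (17920, -1280) (by decide +kernel)
     (CovZ.leaf K2_ok TF_l5701 _)
     (CovZ.leaf K2_ok TF_l5702 _))
    (CovZ.leaf K2_ok TF_l5703 _)))
    (CovZ.topM TF_LL 135586490970773562342796056225267221288 (by decide +kernel) (CovZ.n0 (16640, -1280) (by decide +kernel)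
    (CovZ.leaf K2_ok TF_l5704 _)
    (CovZ.leaf K2_ok TF_l5705 _)))

theorem TF_s10_2 : SqZ TF_M TF_L [0, 7, 4, 3] (-7680) (-7680) 2560 10 2 :=
  SqZ.mk (a := 17920) (b := 20480) (c := (-2560)) (d := 0) (by norm_num) (by norm_num) (by norm_num) (by norm_num)
    (CovZ.topM TF_LL 128270706956993865005066385456208446248 (by decide +kernel) (CovZ.n2 (19200, -1280) (by decide +kernel)
    (CovZ.n2 (20480, -1280) (by decide +kernel)
     (CovZ.n2 (19840, -1920) (by decide +kernel)
      (CovZ.leaf K2_ok TF_l6143 _)
      (CovZ.leaf K2_ok TF_l6144 _))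
     (CovZ.leaf K2_ok TF_l6145 _))
    (CovZ.leaf K2_ok TF_l6146 _)))
    (CovZ.topM TF_LL 133587618940133528496681613697329824552 (by decide +kernel) (CovZ.n0 (19200, -1280) (by decide +kernel)
    (CovZ.n2 (17920, -1280) (by decide +kernel)
     (CovZ.leaf K2_ok TF_l6147 _)
     (CovZ.leaf K2_ok TF_l6148 _))
    (CovZ.leaf K2_ok TF_l6149 _)))

theorem TF_s11_2 : SqZ TF_M TF_L [0, 7, 4, 3] (-7680) (-7680) 2560 11 2 :=
  SqZ.mk (a := 20480) (b := 23040) (c := (-2560)) (d := 0) (by norm_num) (by norm_num) (by norm_num) (by norm_num)
    (CovZ.topM TF_LL 664819359146718305374645142358753832 (by decide +kernel) (CovZ.n2 (21760, -1280) (by decide +kernel)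
    (CovZ.n2 (23040, -1280) (by decide +kernel)
     (CovZ.n2 (22400, -1920) (by decide +kernel)
      (CovZ.n2 (22400, -1280) (by decide +kernel)
       (CovZ.leaf K2_ok TF_l6548 _)
       (CovZ.leaf K2_ok TF_l6549 _))
      (CovZ.n1 (23040, -1920) (by decide +kernel)
       (CovZ.n2 (22720, -2240) (by decide +kernel)
        (CovZ.leaf K2_ok TF_l6550 _)
        (CovZ.leaf K2_ok TF_l6551 _))
       (CovZ.leaf K2_ok TF_l6552 _)))
     (CovZ.n1 (22400, -640) (by decide +kernel)
      (CovZ.leaf K2_ok TF_l6553 _)
      (CovZ.leaf K2_ok TF_l6554 _)))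
    (CovZ.n1 (21760, -2560) (by decide +kernel)
     (CovZ.n2 (21120, -1920) (by decide +kernel)
      (CovZ.n2 (21760, -1920) (by decide +kernel)
       (CovZ.leaf K2_ok TF_l6555 _)
       (CovZ.leaf K2_ok TF_l6556 _))
      (CovZ.leaf K2_ok TF_l6557 _))
     (CovZ.n1 (22400, -1920) (by decide +kernel)
      (CovZ.n2 (22400, -2560) (by decide +kernel)
       (CovZ.n2 (22080, -2240) (by decide +kernel)
        (CovZ.leaf K2_ok TF_l6558 _)
        (CovZ.leaf K2_ok TF_l6559 _))
       (CovZ.leaf K2_ok TF_l6560 _))
      (CovZ.n1 (21760, -1920) (by decide +kernel)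
       (CovZ.leaf K2_ok TF_l6561 _)
       (CovZ.n1 (22080, -2240) (by decide +kernel)
        (CovZ.leaf K2_ok TF_l6562 _)
        (CovZ.leaf K2_ok TF_l6563 _)))))))
    (CovZ.topM TF_LL 664819359146718305374645142360851240 (by decide +kernel) (CovZ.n0 (21760, -1280) (by decide +kernel)
    (CovZ.n2 (20480, -1280) (by decide +kernel)
     (CovZ.leaf K2_ok TF_l6564 _)
     (CovZ.n1 (21120, -1920) (by decide +kernel)
      (CovZ.leaf K2_ok TF_l6565 _)
      (CovZ.leaf K2_ok TF_l6566 _)))
    (CovZ.n1 (21760, 0) (by decide +kernel)
     (CovZ.n2 (22400, -640) (by decide +kernel)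
      (CovZ.leaf K2_ok TF_l6567 _)
      (CovZ.leaf K2_ok TF_l6568 _))
     (CovZ.leaf K2_ok TF_l6569 _))))

theorem TF_s12_2 : SqZ TF_M TF_L [0, 7, 4, 3] (-7680) (-7680) 2560 12 2 :=
  SqZ.mk (a := 23040) (b := 25600) (c := (-2560)) (d := 0) (by norm_num) (by norm_num) (by norm_num) (by norm_num)
    (CovZ.topM TF_LL 664816823226434492477552143827632672 (by decide +kernel) (CovZ.n2 (24320, -1280) (by decide +kernel)
    TF_u40
    TF_u41))
    (CovZ.topM TF_LL 664816823226547829273152010429039136 (by decide +kernel) (CovZ.n0 (24320, -1280) (by decide +kernel)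
    (CovZ.n2 (23040, -1280) (by decide +kernel)
     (CovZ.leaf K2_ok TF_l6967 _)
     (CovZ.subM 664654563949605279114160565817213472 (by decide +kernel)
      (CovZ.n1 (23680, -1920) (by decide +kernel)
       (CovZ.n2 (23040, -1920) (by decide +kernel)
        (CovZ.leaf K2_ok TF_l6968 _)
        (CovZ.n1 (23360, -2240) (by decide +kernel)
         (CovZ.leaf K2_ok TF_l6969 _)
         (CovZ.leaf K2_ok TF_l6970 _)))
       (CovZ.n1 (23680, -1280) (by decide +kernel)
        (CovZ.n2 (24000, -1600) (by decide +kernel)
         (CovZ.leaf K2_ok TF_l6971 _)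
         (CovZ.leaf K2_ok TF_l6972 _))
        (CovZ.leaf K2_ok TF_l6973 _)))))
    (CovZ.n1 (24320, 0) (by decide +kernel)
     (CovZ.n2 (24960, -640) (by decide +kernel)
      (CovZ.leaf K2_ok TF_l6974 _)
      (CovZ.n1 (24960, 0) (by decide +kernel)
       (CovZ.leaf K2_ok TF_l6975 _)
       (CovZ.leaf K2_ok TF_l6976 _)))
     (CovZ.n1 (23680, -640) (by decide +kernel)
      (CovZ.leaf K2_ok TF_l6977 _)
      (CovZ.n1 (24320, -640) (by decide +kernel)
       (CovZ.leaf K2_ok TF_l6978 _)
       (CovZ.leaf K2_ok TF_l6979 _))))))

theorem TF_s13_2 : SqZ TF_M TF_L [0, 7, 4, 3] (-7680) (-7680) 2560 13 2 :=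
  SqZ.mk (a := 25600) (b := 28160) (c := (-2560)) (d := 0) (by norm_num) (by norm_num) (by norm_num) (by norm_num)
    (CovZ.topM TF_LL 664816821988494453156143003190034432 (by decide +kernel) (CovZ.n2 (26880, -1280) (by decide +kernel)
    TF_u46
    TF_u47))
    (CovZ.topM TF_LL 664816823226434492441523346808635904 (by decide +kernel) (CovZ.n0 (26880, -1280) (by decide +kernel)
    TF_u49
    TF_u50))

theorem TF_s14_2 : SqZ TF_M TF_L [0, 7, 4, 3] (-7680) (-7680) 2560 14 2 :=
  SqZ.mk (a := 28160) (b := 30720) (c := (-2560)) (d := 0) (by norm_num) (by norm_num) (by norm_num) (by norm_num)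
    (CovZ.topM TF_LL 131072 (by decide +kernel) (CovZ.n2 (29440, -1280) (by decide +kernel)
    (CovZ.badM (by decide +kernel))
    (CovZ.badM (by decide +kernel))))
    (CovZ.topM TF_LL 40564819207303340847895039574016 (by decide +kernel) (CovZ.n0 (29440, -1280) (by decide +kernel)
    (CovZ.n2 (28160, -1280) (by decide +kernel)
     (CovZ.n2 (28800, -640) (by decide +kernel)
      (CovZ.badM (by decide +kernel))
      (CovZ.n1 (28160, -640) (by decide +kernel)
       (CovZ.n2 (28480, -320) (by decide +kernel)
        (CovZ.badM (by decide +kernel))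
        (CovZ.n1 (28160, -320) (by decide +kernel)
         (CovZ.n2 (28320, -160) (by decide +kernel)
          (CovZ.n2 (28320, -320) (by decide +kernel)
           (CovZ.n2 (28240, -240) (by decide +kernel)
            (CovZ.n2 (28320, -240) (by decide +kernel)
             (CovZ.n2 (28280, -280) (by decide +kernel)
              (CovZ.leaf K2_ok TF_l8328 _)
              (CovZ.leaf K2_ok TF_l8329 _))
             (CovZ.leaf K2_ok TF_l8330 _))
            (CovZ.n1 (28240, -320) (by decide +kernel)
             (CovZ.leaf K2_ok TF_l8331 _)
             (CovZ.leaf K2_ok TF_l8332 _)))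
           (CovZ.n1 (28400, -240) (by decide +kernel)
            (CovZ.n2 (28400, -320) (by decide +kernel)
             (CovZ.n2 (28360, -280) (by decide +kernel)
              (CovZ.leaf K2_ok TF_l8333 _)
              (CovZ.leaf K2_ok TF_l8334 _))
             (CovZ.n1 (28440, -280) (by decide +kernel)
              (CovZ.badM (by decide +kernel))
              (CovZ.leaf K2_ok TF_l8336 _)))
            (CovZ.n1 (28320, -240) (by decide +kernel)
             (CovZ.leaf K2_ok TF_l8337 _)
             (CovZ.leaf K2_ok TF_l8338 _))))
          (CovZ.n1 (28160, -160) (by decide +kernel)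
           (CovZ.leaf K2_ok TF_l8339 _)
           (CovZ.n1 (28240, -240) (by decide +kernel)
            (CovZ.leaf K2_ok TF_l8340 _)
            (CovZ.n1 (28240, -160) (by decide +kernel)
             (CovZ.leaf K2_ok TF_l8341 _)
             (CovZ.leaf K2_ok TF_l8342 _)))))
         (CovZ.n1 (28320, -480) (by decide +kernel)
          (CovZ.n2 (28160, -480) (by decide +kernel)
           (CovZ.n2 (28240, -400) (by decide +kernel)
            (CovZ.n2 (28240, -480) (by decide +kernel)
             (CovZ.n2 (28200, -440) (by decide +kernel)
              (CovZ.leaf K2_ok TF_l8343 _)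
              (CovZ.leaf K2_ok TF_l8344 _))
             (CovZ.n1 (28280, -440) (by decide +kernel)
              (CovZ.leaf K2_ok TF_l8345 _)
              (CovZ.leaf K2_ok TF_l8346 _)))
            (CovZ.n1 (28160, -400) (by decide +kernel)
             (CovZ.leaf K2_ok TF_l8347 _)
             (CovZ.n1 (28200, -440) (by decide +kernel)
              (CovZ.leaf K2_ok TF_l8348 _)
              (CovZ.leaf K2_ok TF_l8349 _))))
           (CovZ.n1 (28240, -560) (by decide +kernel)
            (CovZ.n2 (28160, -560) (by decide +kernel)
             (CovZ.n2 (28200, -520) (by decide +kernel)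
              (CovZ.leaf K2_ok TF_l8350 _)
              (CovZ.leaf K2_ok TF_l8351 _))
             (CovZ.n1 (28200, -600) (by decide +kernel)
              (CovZ.leaf K2_ok TF_l8352 _)
              (CovZ.leaf K2_ok TF_l8353 _)))
            (CovZ.n1 (28240, -480) (by decide +kernel)
             (CovZ.n2 (28280, -520) (by decide +kernel)
              (CovZ.leaf K2_ok TF_l8354 _)
              (CovZ.leaf K2_ok TF_l8355 _))
             (CovZ.n1 (28200, -520) (by decide +kernel)
              (CovZ.leaf K2_ok TF_l8356 _)
              (CovZ.leaf K2_ok TF_l8357 _)))))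
          (CovZ.n1 (28320, -320) (by decide +kernel)
           (CovZ.n2 (28400, -400) (by decide +kernel)
            (CovZ.n2 (28320, -400) (by decide +kernel)
             (CovZ.leaf K2_ok TF_l8358 _)
             (CovZ.badM (by decide +kernel)))
            (CovZ.n1 (28400, -320) (by decide +kernel)
             (CovZ.badM (by decide +kernel))
             (CovZ.leaf K2_ok TF_l8361 _)))
           (CovZ.n1 (28240, -400) (by decide +kernel)
            (CovZ.n2 (28240, -320) (by decide +kernel)
             (CovZ.leaf K2_ok TF_l8362 _)
             (CovZ.leaf K2_ok TF_l8363 _))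
            (CovZ.n1 (28320, -400) (by decide +kernel)
             (CovZ.leaf K2_ok TF_l8364 _)
             (CovZ.leaf K2_ok TF_l8365 _)))))))
       (CovZ.badM (by decide +kernel))))
     (CovZ.badM (by decide +kernel)))
    (CovZ.n1 (29440, 0) (by decide +kernel)
     (CovZ.badM (by decide +kernel))
     (CovZ.n1 (28800, -640) (by decide +kernel)
      (CovZ.n2 (28800, 0) (by decide +kernel)
       (CovZ.badM (by decide +kernel))
       (CovZ.n1 (28480, -320) (by decide +kernel)
        (CovZ.n2 (28480, 0) (by decide +kernel)
         (CovZ.n2 (28640, -160) (by decide +kernel)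
          (CovZ.n2 (28480, -160) (by decide +kernel)
           (CovZ.n2 (28560, -80) (by decide +kernel)
            (CovZ.n2 (28560, -160) (by decide +kernel)
             (CovZ.leaf K2_ok TF_l8366 _)
             (CovZ.leaf K2_ok TF_l8367 _))
            (CovZ.n1 (28480, -80) (by decide +kernel)
             (CovZ.leaf K2_ok TF_l8368 _)
             (CovZ.leaf K2_ok TF_l8369 _)))
           (CovZ.n1 (28560, -240) (by decide +kernel)
            (CovZ.n2 (28480, -240) (by decide +kernel)
             (CovZ.leaf K2_ok TF_l8370 _)
             (CovZ.badM (by decide +kernel)))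
            (CovZ.n1 (28560, -160) (by decide +kernel)
             (CovZ.badM (by decide +kernel))
             (CovZ.leaf K2_ok TF_l8373 _))))
          (CovZ.n1 (28640, 0) (by decide +kernel)
           (CovZ.n2 (28720, -80) (by decide +kernel)
            (CovZ.n2 (28640, -80) (by decide +kernel)
             (CovZ.n2 (28680, -40) (by decide +kernel)
              (CovZ.badM (by decide +kernel))
              (CovZ.leaf K2_ok TF_l8375 _))
             (CovZ.badM (by decide +kernel)))
            (CovZ.n1 (28720, 0) (by decide +kernel)
             (CovZ.badM (by decide +kernel))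
             (CovZ.n1 (28680, -40) (by decide +kernel)
              (CovZ.leaf K2_ok TF_l8380 _)
              (CovZ.badM (by decide +kernel)))))
           (CovZ.n1 (28560, -80) (by decide +kernel)
            (CovZ.n2 (28560, 0) (by decide +kernel)
             (CovZ.n2 (28600, -40) (by decide +kernel)
              (CovZ.leaf K2_ok TF_l8382 _)
              (CovZ.leaf K2_ok TF_l8383 _))
             (CovZ.n1 (28520, -40) (by decide +kernel)
              (CovZ.leaf K2_ok TF_l8384 _)
              (CovZ.leaf K2_ok TF_l8385 _)))
            (CovZ.n1 (28640, -80) (by decide +kernel)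
             (CovZ.n2 (28600, -120) (by decide +kernel)
              (CovZ.leaf K2_ok TF_l8386 _)
              (CovZ.badM (by decide +kernel)))
             (CovZ.n1 (28600, -40) (by decide +kernel)
              (CovZ.leaf K2_ok TF_l8388 _)
              (CovZ.leaf K2_ok TF_l8389 _))))))
         (CovZ.n1 (28320, -160) (by decide +kernel)
          (CovZ.n2 (28320, 0) (by decide +kernel)
           (CovZ.n2 (28400, -80) (by decide +kernel)
            (CovZ.leaf K2_ok TF_l8390 _)
            (CovZ.n1 (28400, 0) (by decide +kernel)
             (CovZ.leaf K2_ok TF_l8391 _)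
             (CovZ.leaf K2_ok TF_l8392 _)))
           (CovZ.n1 (28240, -80) (by decide +kernel)
            (CovZ.leaf K2_ok TF_l8393 _)
            (CovZ.n1 (28320, -80) (by decide +kernel)
             (CovZ.leaf K2_ok TF_l8394 _)
             (CovZ.leaf K2_ok TF_l8395 _))))
          (CovZ.n1 (28480, -160) (by decide +kernel)
           (CovZ.n2 (28400, -240) (by decide +kernel)
            (CovZ.n2 (28400, -160) (by decide +kernel)
             (CovZ.leaf K2_ok TF_l8396 _)
             (CovZ.leaf K2_ok TF_l8397 _))
            (CovZ.n1 (28480, -240) (by decide +kernel)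
             (CovZ.leaf K2_ok TF_l8398 _)
             (CovZ.leaf K2_ok TF_l8399 _)))
           (CovZ.n1 (28400, -80) (by decide +kernel)
            (CovZ.n2 (28480, -80) (by decide +kernel)
             (CovZ.leaf K2_ok TF_l8400 _)
             (CovZ.leaf K2_ok TF_l8401 _))
            (CovZ.leaf K2_ok TF_l8402 _)))))
        (CovZ.badM (by decide +kernel))))
      (CovZ.badM (by decide +kernel))))))

theorem TF_s15_2 : SqZ TF_M TF_L [0, 7, 4, 3] (-7680) (-7680) 2560 15 2 :=
  SqZ.mk (a := 30720) (b := 33280) (c := (-2560)) (d := 0) (by norm_num) (by norm_num) (by norm_num) (by norm_num)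
    (CovZ.topM TF_LL 0 (by decide +kernel) (CovZ.badM (by decide +kernel)))
    (CovZ.topM TF_LL 0 (by decide +kernel) (CovZ.badM (by decide +kernel)))

theorem TF_s0_3 : SqZ TF_M TF_L [0, 7, 4, 3] (-7680) (-7680) 2560 0 3 :=
  SqZ.mk (a := (-7680)) (b := (-5120)) (c := 0) (d := 2560) (by norm_num) (by norm_num) (by norm_num) (by norm_num)
    (CovZ.topM TF_LL 16777728 (by decide +kernel) (CovZ.n2 (-6400, 1280) (by decide +kernel)
    (CovZ.n2 (-5120, 1280) (by decide +kernel)
     (CovZ.badM (by decide +kernel))
     (CovZ.badM (by decide +kernel)))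
    (CovZ.badM (by decide +kernel))))
    (CovZ.topM TF_LL 16777728 (by decide +kernel) (CovZ.n0 (-6400, 1280) (by decide +kernel)
    (CovZ.n2 (-7680, 1280) (by decide +kernel)
     (CovZ.badM (by decide +kernel))
     (CovZ.badM (by decide +kernel)))
    (CovZ.badM (by decide +kernel))))

theorem TF_s1_3 : SqZ TF_M TF_L [0, 7, 4, 3] (-7680) (-7680) 2560 1 3 :=
  SqZ.mk (a := (-5120)) (b := (-2560)) (c := 0) (d := 2560) (by norm_num) (by norm_num) (by norm_num) (by norm_num)
    (CovZ.topM TF_LL 2787593149816327892691964784081079564763648 (by decide +kernel) (CovZ.n2 (-3840, 1280) (by decide +kernel)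
    (CovZ.n2 (-2560, 1280) (by decide +kernel)
     (CovZ.n2 (-3200, 640) (by decide +kernel)
      (CovZ.badM (by decide +kernel))
      (CovZ.n1 (-2560, 640) (by decide +kernel)
       (CovZ.n2 (-2880, 320) (by decide +kernel)
        (CovZ.badM (by decide +kernel))
        (CovZ.n1 (-2560, 320) (by decide +kernel)
         (CovZ.badM (by decide +kernel))
         (CovZ.badM (by decide +kernel))))
       (CovZ.badM (by decide +kernel))))
     (CovZ.n1 (-3200, 1920) (by decide +kernel)
      (CovZ.n2 (-2560, 1920) (by decide +kernel)
       (CovZ.badM (by decide +kernel))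
       (CovZ.n1 (-2880, 2240) (by decide +kernel)
        (CovZ.badM (by decide +kernel))
        (CovZ.badM (by decide +kernel))))
      (CovZ.badM (by decide +kernel))))
    (CovZ.n1 (-3840, 0) (by decide +kernel)
     (CovZ.badM (by decide +kernel))
     (CovZ.n1 (-3200, 640) (by decide +kernel)
      (CovZ.n2 (-3200, 0) (by decide +kernel)
       (CovZ.badM (by decide +kernel))
       (CovZ.n1 (-2880, 320) (by decide +kernel)
        (CovZ.badM (by decide +kernel))
        (CovZ.badM (by decide +kernel))))
      (CovZ.badM (by decide +kernel))))))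
    (CovZ.topM TF_LL 2787593149816327892691964784081045205025280 (by decide +kernel) (CovZ.n0 (-3840, 1280) (by decide +kernel)
    (CovZ.n2 (-5120, 1280) (by decide +kernel)
     (CovZ.n2 (-4480, 1920) (by decide +kernel)
      (CovZ.badM (by decide +kernel))
      (CovZ.badM (by decide +kernel)))
     (CovZ.badM (by decide +kernel)))
    (CovZ.n1 (-3840, 2560) (by decide +kernel)
     (CovZ.n2 (-3200, 1920) (by decide +kernel)
      (CovZ.n2 (-3840, 1920) (by decide +kernel)
       (CovZ.badM (by decide +kernel))
       (CovZ.badM (by decide +kernel)))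
      (CovZ.n1 (-3200, 2560) (by decide +kernel)
       (CovZ.n2 (-2880, 2240) (by decide +kernel)
        (CovZ.n2 (-3200, 2240) (by decide +kernel)
         (CovZ.badM (by decide +kernel))
         (CovZ.badM (by decide +kernel)))
        (CovZ.badM (by decide +kernel)))
       (CovZ.n1 (-3520, 2240) (by decide +kernel)
        (CovZ.badM (by decide +kernel))
        (CovZ.n1 (-3200, 2240) (by decide +kernel)
         (CovZ.badM (by decide +kernel))
         (CovZ.badM (by decide +kernel))))))
     (CovZ.n1 (-4480, 1920) (by decide +kernel)
      (CovZ.badM (by decide +kernel))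
      (CovZ.n1 (-3840, 1920) (by decide +kernel)
       (CovZ.badM (by decide +kernel))
       (CovZ.badM (by decide +kernel)))))))

theorem TF_s2_3 : SqZ TF_M TF_L [0, 7, 4, 3] (-7680) (-7680) 2560 2 3 :=
  SqZ.mk (a := (-2560)) (b := 0) (c := 0) (d := 2560) (by norm_num) (by norm_num) (by norm_num) (by norm_num)
    (CovZ.topM TF_LL 1095617005130139787416616976836815771236832981 (by decide +kernel) (CovZ.n2 (-1280, 1280) (by decide +kernel)
    TF_u59
    TF_u60))
    (CovZ.topM TF_LL 206619350089002822888849550650834312307639850705 (by decide +kernel) (CovZ.n0 (-1280, 1280) (by decide +kernel)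
    (CovZ.subM 2787593149816327892691964784081079564763648 (by decide +kernel)
     (CovZ.n2 (-2560, 1280) (by decide +kernel)
      (CovZ.n2 (-1920, 1920) (by decide +kernel)
       (CovZ.n2 (-1920, 1280) (by decide +kernel)
        (CovZ.n2 (-2240, 1600) (by decide +kernel)
         (CovZ.n2 (-1920, 1600) (by decide +kernel)
          (CovZ.badM (by decide +kernel))
          (CovZ.n1 (-2080, 1760) (by decide +kernel)
           (CovZ.badM (by decide +kernel))
           (CovZ.badM (by decide +kernel))))
         (CovZ.badM (by decide +kernel)))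
        (CovZ.n1 (-1600, 1600) (by decide +kernel)
         (CovZ.n2 (-1600, 1280) (by decide +kernel)
          (CovZ.n2 (-1760, 1440) (by decide +kernel)
           (CovZ.n2 (-1600, 1440) (by decide +kernel)
            (CovZ.badM (by decide +kernel))
            (CovZ.n1 (-1680, 1520) (by decide +kernel)
             (CovZ.badM (by decide +kernel))
             (CovZ.badM (by decide +kernel))))
           (CovZ.badM (by decide +kernel)))
          (CovZ.n1 (-1440, 1440) (by decide +kernel)
           (CovZ.badM (by decide +kernel))
           (CovZ.n1 (-1600, 1440) (by decide +kernel)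
            (CovZ.badM (by decide +kernel))
            (CovZ.badM (by decide +kernel)))))
         (CovZ.n1 (-1920, 1600) (by decide +kernel)
          (CovZ.badM (by decide +kernel))
          (CovZ.n1 (-1760, 1440) (by decide +kernel)
           (CovZ.badM (by decide +kernel))
           (CovZ.n1 (-1760, 1600) (by decide +kernel)
            (CovZ.n2 (-1680, 1520) (by decide +kernel)
             (CovZ.badM (by decide +kernel))
             (CovZ.badM (by decide +kernel)))
            (CovZ.badM (by decide +kernel)))))))
       (CovZ.n1 (-2560, 1920) (by decide +kernel)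
        (CovZ.n2 (-2240, 2240) (by decide +kernel)
         (CovZ.badM (by decide +kernel))
         (CovZ.badM (by decide +kernel)))
        (CovZ.n1 (-2240, 1600) (by decide +kernel)
         (CovZ.badM (by decide +kernel))
         (CovZ.n1 (-2240, 1920) (by decide +kernel)
          (CovZ.n2 (-2080, 1760) (by decide +kernel)
           (CovZ.n2 (-2240, 1760) (by decide +kernel)
            (CovZ.badM (by decide +kernel))
            (CovZ.badM (by decide +kernel)))
           (CovZ.badM (by decide +kernel)))
          (CovZ.n1 (-2400, 1760) (by decide +kernel)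
           (CovZ.badM (by decide +kernel))
           (CovZ.n1 (-2240, 1760) (by decide +kernel)
            (CovZ.badM (by decide +kernel))
            (CovZ.badM (by decide +kernel))))))))
      (CovZ.n1 (-1920, 640) (by decide +kernel)
       (CovZ.n2 (-2560, 640) (by decide +kernel)
        (CovZ.badM (by decide +kernel))
        (CovZ.n1 (-2240, 320) (by decide +kernel)
         (CovZ.n2 (-2560, 320) (by decide +kernel)
          (CovZ.badM (by decide +kernel))
          (CovZ.badM (by decide +kernel)))
         (CovZ.badM (by decide +kernel))))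
       (CovZ.n1 (-1920, 1280) (by decide +kernel)
        (CovZ.n2 (-1600, 960) (by decide +kernel)
         (CovZ.badM (by decide +kernel))
         (CovZ.badM (by decide +kernel)))
        (CovZ.badM (by decide +kernel))))))
    (CovZ.n1 (-1280, 2560) (by decide +kernel)
     (CovZ.n2 (-640, 1920) (by decide +kernel)
      (CovZ.subM 16777280 (by decide +kernel)
       (CovZ.n2 (-1280, 1920) (by decide +kernel)
        (CovZ.n2 (-960, 2240) (by decide +kernel)
         (CovZ.badM (by decide +kernel))
         (CovZ.n1 (-1280, 2240) (by decide +kernel)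
          (CovZ.n2 (-1120, 2400) (by decide +kernel)
           (CovZ.n2 (-1120, 2240) (by decide +kernel)
            (CovZ.badM (by decide +kernel))
            (CovZ.n1 (-1040, 2320) (by decide +kernel)
             (CovZ.badM (by decide +kernel))
             (CovZ.badM (by decide +kernel))))
           (CovZ.badM (by decide +kernel)))
          (CovZ.badM (by decide +kernel))))
        (CovZ.badM (by decide +kernel))))
      (CovZ.n1 (-640, 2560) (by decide +kernel)
       TF_u61
       TF_u62))
     (CovZ.subM 16777216 (by decide +kernel)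
      (CovZ.n1 (-1920, 1920) (by decide +kernel)
       (CovZ.n2 (-1920, 2560) (by decide +kernel)
        (CovZ.n2 (-1600, 2240) (by decide +kernel)
         (CovZ.n2 (-1920, 2240) (by decide +kernel)
          (CovZ.badM (by decide +kernel))
          (CovZ.badM (by decide +kernel)))
         (CovZ.badM (by decide +kernel)))
        (CovZ.n1 (-2240, 2240) (by decide +kernel)
         (CovZ.badM (by decide +kernel))
         (CovZ.n1 (-1920, 2240) (by decide +kernel)
          (CovZ.badM (by decide +kernel))
          (CovZ.badM (by decide +kernel)))))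
       (CovZ.n1 (-1280, 1920) (by decide +kernel)
        (CovZ.badM (by decide +kernel))
        (CovZ.n1 (-1600, 2240) (by decide +kernel)
         (CovZ.n2 (-1280, 2240) (by decide +kernel)
          (CovZ.badM (by decide +kernel))
          (CovZ.badM (by decide +kernel)))
         (CovZ.badM (by decide +kernel)))))))))

theorem TF_s3_3 : SqZ TF_M TF_L [0, 7, 4, 3] (-7680) (-7680) 2560 3 3 :=
  SqZ.mk (a := 0) (b := 2560) (c := 0) (d := 2560) (by norm_num) (by norm_num) (by norm_num) (by norm_num)
    (CovZ.topM TF_LL 53179352462628934353024762636417864356384431620 (by decide +kernel) (CovZ.n2 (1280, 1280) (by decide +kernel)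
    (CovZ.n2 (2560, 1280) (by decide +kernel)
     TF_u69
     TF_u70)
    (CovZ.n1 (1280, 0) (by decide +kernel)
     (CovZ.subM 359686628778391557927374685200839900884375044 (by decide +kernel)
      (CovZ.n2 (640, 640) (by decide +kernel)
       TF_u71
       (CovZ.n1 (640, 0) (by decide +kernel)
        (CovZ.n2 (320, 320) (by decide +kernel)
         (CovZ.n2 (640, 320) (by decide +kernel)
          (CovZ.n2 (480, 160) (by decide +kernel)
           (CovZ.n2 (480, 320) (by decide +kernel)
            (CovZ.leaf K2_ok TF_l2892 _)
            (CovZ.leaf K2_ok TF_l2893 _))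
           (CovZ.leaf K2_ok TF_l2894 _))
          (CovZ.n1 (480, 480) (by decide +kernel)
           (CovZ.n2 (640, 480) (by decide +kernel)
            (CovZ.leaf K2_ok TF_l2895 _)
            (CovZ.leaf K2_ok TF_l2896 _))
           (CovZ.leaf K2_ok TF_l2897 _)))
         (CovZ.n1 (320, 0) (by decide +kernel)
          (CovZ.n2 (160, 160) (by decide +kernel)
           (CovZ.leaf K2_ok TF_l2898 _)
           (CovZ.leaf K2_ok TF_l2899 _))
          (CovZ.leaf K2_ok TF_l2900 _)))
        (CovZ.n1 (960, 320) (by decide +kernel)
         (CovZ.n2 (960, 0) (by decide +kernel)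
          (CovZ.n2 (800, 160) (by decide +kernel)
           (CovZ.leaf K2_ok TF_l2901 _)
           (CovZ.leaf K2_ok TF_l2902 _))
          (CovZ.leaf K2_ok TF_l2903 _))
         (CovZ.n1 (640, 320) (by decide +kernel)
          (CovZ.n2 (800, 480) (by decide +kernel)
           (CovZ.n2 (800, 320) (by decide +kernel)
            (CovZ.leaf K2_ok TF_l2904 _)
            (CovZ.leaf K2_ok TF_l2905 _))
           (CovZ.leaf K2_ok TF_l2906 _))
          (CovZ.n1 (800, 160) (by decide +kernel)
           (CovZ.leaf K2_ok TF_l2907 _)
           (CovZ.n1 (800, 320) (by decide +kernel)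
            (CovZ.leaf K2_ok TF_l2908 _)
            (CovZ.leaf K2_ok TF_l2909 _))))))))
     (CovZ.n1 (1920, 640) (by decide +kernel)
      (CovZ.n2 (1920, 0) (by decide +kernel)
       (CovZ.subM 359949326765654562034645186207136447012934148 (by decide +kernel)
        (CovZ.n2 (1600, 320) (by decide +kernel)
         (CovZ.n2 (1920, 320) (by decide +kernel)
          (CovZ.leaf K2_ok TF_l2910 _)
          (CovZ.n1 (1760, 480) (by decide +kernel)
           (CovZ.leaf K2_ok TF_l2911 _)
           (CovZ.leaf K2_ok TF_l2912 _)))
         (CovZ.n1 (1600, 0) (by decide +kernel)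
          (CovZ.leaf K2_ok TF_l2913 _)
          (CovZ.leaf K2_ok TF_l2914 _))))
       (CovZ.leaf K2_ok TF_l2915 _))
      (CovZ.subM 359947965636186878280791351119457180973404676 (by decide +kernel)
       (CovZ.n1 (1280, 640) (by decide +kernel)
        (CovZ.n2 (1600, 960) (by decide +kernel)
         TF_u72
         TF_u73)
        (CovZ.n1 (1600, 320) (by decide +kernel)
         (CovZ.n2 (1280, 320) (by decide +kernel)
          (CovZ.n2 (1440, 480) (by decide +kernel)
           (CovZ.leaf K2_ok TF_l2984 _)
           (CovZ.leaf K2_ok TF_l2985 _))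
          (CovZ.leaf K2_ok TF_l2986 _))
         (CovZ.n1 (1600, 640) (by decide +kernel)
          (CovZ.n2 (1760, 480) (by decide +kernel)
           (CovZ.leaf K2_ok TF_l2987 _)
           (CovZ.n1 (1760, 640) (by decide +kernel)
            (CovZ.leaf K2_ok TF_l2988 _)
            (CovZ.n1 (1680, 560) (by decide +kernel)
             (CovZ.leaf K2_ok TF_l2989 _)
             (CovZ.leaf K2_ok TF_l2990 _))))
          (CovZ.n1 (1440, 480) (by decide +kernel)
           (CovZ.n2 (1440, 640) (by decide +kernel)
            (CovZ.n2 (1520, 560) (by decide +kernel)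
             (CovZ.leaf K2_ok TF_l2991 _)
             (CovZ.leaf K2_ok TF_l2992 _))
            (CovZ.n1 (1360, 560) (by decide +kernel)
             (CovZ.n2 (1360, 640) (by decide +kernel)
              (CovZ.leaf K2_ok TF_l2993 _)
              (CovZ.leaf K2_ok TF_l2994 _))
             (CovZ.leaf K2_ok TF_l2995 _)))
           (CovZ.n1 (1600, 480) (by decide +kernel)
            (CovZ.leaf K2_ok TF_l2996 _)
            (CovZ.n1 (1520, 560) (by decide +kernel)
             (CovZ.leaf K2_ok TF_l2997 _)
             (CovZ.leaf K2_ok TF_l2998 _))))))))))))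
    (CovZ.topM TF_LL 48205941237036466441067272859282524716508059349 (by decide +kernel) (CovZ.n0 (1280, 1280) (by decide +kernel)
    (CovZ.n2 (0, 1280) (by decide +kernel)
     TF_u75
     TF_u76)
    (CovZ.subM 47812890602746210669099601242238316569075713233 (by decide +kernel)
     (CovZ.n1 (1280, 2560) (by decide +kernel)
      (CovZ.n2 (1920, 1920) (by decide +kernel)
       TF_u79
       TF_u80)
      (CovZ.n1 (640, 1920) (by decide +kernel)
       TF_u83
       TF_u84)))))

theorem TF_s4_3 : SqZ TF_M TF_L [0, 7, 4, 3] (-7680) (-7680) 2560 4 3 :=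
  SqZ.mk (a := 2560) (b := 5120) (c := 0) (d := 2560) (by norm_num) (by norm_num) (by norm_num) (by norm_num)
    (CovZ.topM TF_LL 147023588398627478979103751217586599342712801806 (by decide +kernel) (CovZ.n2 (3840, 1280) (by decide +kernel)
    (CovZ.n2 (5120, 1280) (by decide +kernel)
     (CovZ.n2 (4480, 640) (by decide +kernel)
      (CovZ.n2 (4480, 1280) (by decide +kernel)
       (CovZ.leaf K2_ok TF_l4189 _)
       (CovZ.leaf K2_ok TF_l4190 _))
      (CovZ.leaf K2_ok TF_l4191 _))
     (CovZ.n1 (4480, 1920) (by decide +kernel)
      (CovZ.leaf K2_ok TF_l4192 _)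
      (CovZ.leaf K2_ok TF_l4193 _)))
    (CovZ.n1 (3840, 0) (by decide +kernel)
     (CovZ.n2 (3200, 640) (by decide +kernel)
      (CovZ.n2 (3840, 640) (by decide +kernel)
       (CovZ.leaf K2_ok TF_l4194 _)
       (CovZ.n1 (3520, 960) (by decide +kernel)
        (CovZ.leaf K2_ok TF_l4195 _)
        (CovZ.leaf K2_ok TF_l4196 _)))
      (CovZ.n1 (3200, 0) (by decide +kernel)
       (CovZ.n2 (2880, 320) (by decide +kernel)
        (CovZ.leaf K2_ok TF_l4197 _)
        (CovZ.leaf K2_ok TF_l4198 _))
       (CovZ.leaf K2_ok TF_l4199 _)))
     (CovZ.leaf K2_ok TF_l4200 _))))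
    (CovZ.topM TF_LL 147023588398627478979113422661037039707905841678 (by decide +kernel) (CovZ.n0 (3840, 1280) (by decide +kernel)
    (CovZ.n2 (2560, 1280) (by decide +kernel)
     (CovZ.subM 8574638570529307926958048854334618606076282880 (by decide +kernel)
      (CovZ.n2 (3200, 1920) (by decide +kernel)
       (CovZ.n2 (3200, 1280) (by decide +kernel)
        (CovZ.n2 (2880, 1600) (by decide +kernel)
         (CovZ.n2 (3200, 1600) (by decide +kernel)
          (CovZ.leaf K2_ok TF_l4201 _)
          (CovZ.n1 (3040, 1760) (by decide +kernel)
           (CovZ.leaf K2_ok TF_l4202 _)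
           (CovZ.leaf K2_ok TF_l4203 _)))
         (CovZ.n1 (2880, 1280) (by decide +kernel)
          (CovZ.n2 (2720, 1440) (by decide +kernel)
           (CovZ.leaf K2_ok TF_l4204 _)
           (CovZ.n1 (2720, 1280) (by decide +kernel)
            (CovZ.leaf K2_ok TF_l4205 _)
            (CovZ.leaf K2_ok TF_l4206 _)))
          (CovZ.leaf K2_ok TF_l4207 _)))
        (CovZ.leaf K2_ok TF_l4208 _))
       (CovZ.n1 (2560, 1920) (by decide +kernel)
        (CovZ.n2 (2880, 2240) (by decide +kernel)
         (CovZ.subM 2854497427106202417714595148799538584952522752 (by decide +kernel)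
          (CovZ.n2 (2880, 1920) (by decide +kernel)
           (CovZ.subM 1361129467683753853853534458524125382656 (by decide +kernel)
            (CovZ.n2 (2720, 2080) (by decide +kernel)
             (CovZ.leaf K2_ok TF_l4209 _)
             (CovZ.n1 (2720, 1920) (by decide +kernel)
              (CovZ.n2 (2640, 2000) (by decide +kernel)
               (CovZ.leaf K2_ok TF_l4210 _)
               (CovZ.leaf K2_ok TF_l4211 _))
              (CovZ.leaf K2_ok TF_l4212 _))))
           (CovZ.leaf K2_ok TF_l4213 _)))
         (CovZ.subM 1361129468317579154004542647419896154112 (by decide +kernel)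
          (CovZ.n1 (2560, 2240) (by decide +kernel)
           (CovZ.n2 (2720, 2400) (by decide +kernel)
            (CovZ.n2 (2720, 2240) (by decide +kernel)
             (CovZ.n2 (2640, 2320) (by decide +kernel)
              (CovZ.leaf K2_ok TF_l4214 _)
              (CovZ.leaf K2_ok TF_l4215 _))
             (CovZ.leaf K2_ok TF_l4216 _))
            (CovZ.n1 (2560, 2400) (by decide +kernel)
             (CovZ.leaf K2_ok TF_l4217 _)
             (CovZ.n1 (2640, 2320) (by decide +kernel)
              (CovZ.leaf K2_ok TF_l4218 _)
              (CovZ.leaf K2_ok TF_l4219 _))))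
           (CovZ.n1 (2720, 2080) (by decide +kernel)
            (CovZ.n2 (2560, 2080) (by decide +kernel)
             (CovZ.leaf K2_ok TF_l4220 _)
             (CovZ.n1 (2640, 2000) (by decide +kernel)
              (CovZ.leaf K2_ok TF_l4221 _)
              (CovZ.leaf K2_ok TF_l4222 _)))
            (CovZ.n1 (2720, 2240) (by decide +kernel)
             (CovZ.leaf K2_ok TF_l4223 _)
             (CovZ.n1 (2640, 2160) (by decide +kernel)
              (CovZ.leaf K2_ok TF_l4224 _)
              (CovZ.leaf K2_ok TF_l4225 _)))))))
        (CovZ.subM 8563488197930041941947739026597519130483509248 (by decide +kernel)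
         (CovZ.n1 (2880, 1600) (by decide +kernel)
          (CovZ.n2 (2560, 1600) (by decide +kernel)
           (CovZ.n2 (2720, 1760) (by decide +kernel)
            (CovZ.n2 (2720, 1600) (by decide +kernel)
             (CovZ.n2 (2640, 1680) (by decide +kernel)
              (CovZ.leaf K2_ok TF_l4226 _)
              (CovZ.leaf K2_ok TF_l4227 _))
             (CovZ.leaf K2_ok TF_l4228 _))
            (CovZ.n1 (2560, 1760) (by decide +kernel)
             (CovZ.leaf K2_ok TF_l4229 _)
             (CovZ.n1 (2640, 1680) (by decide +kernel)
              (CovZ.leaf K2_ok TF_l4230 _)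
              (CovZ.leaf K2_ok TF_l4231 _))))
           (CovZ.n1 (2720, 1440) (by decide +kernel)
            (CovZ.n2 (2560, 1440) (by decide +kernel)
             (CovZ.leaf K2_ok TF_l4232 _)
             (CovZ.leaf K2_ok TF_l4233 _))
            (CovZ.n1 (2720, 1600) (by decide +kernel)
             (CovZ.leaf K2_ok TF_l4234 _)
             (CovZ.leaf K2_ok TF_l4235 _))))
          (CovZ.n1 (2880, 1920) (by decide +kernel)
           (CovZ.n2 (3040, 1760) (by decide +kernel)
            (CovZ.leaf K2_ok TF_l4236 _)
            (CovZ.leaf K2_ok TF_l4237 _))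
           (CovZ.n1 (2720, 1760) (by decide +kernel)
            (CovZ.n2 (2720, 1920) (by decide +kernel)
             (CovZ.leaf K2_ok TF_l4238 _)
             (CovZ.n1 (2640, 1840) (by decide +kernel)
              (CovZ.leaf K2_ok TF_l4239 _)
              (CovZ.leaf K2_ok TF_l4240 _)))
            (CovZ.leaf K2_ok TF_l4241 _))))))))
     (CovZ.n1 (3200, 640) (by decide +kernel)
      (CovZ.n2 (2560, 640) (by decide +kernel)
       (CovZ.subM 54246913186263750527994176526122160289319373316 (by decide +kernel)
        (CovZ.n2 (2880, 960) (by decide +kernel)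
         (CovZ.n2 (2880, 640) (by decide +kernel)
          (CovZ.n2 (2720, 800) (by decide +kernel)
           (CovZ.leaf K2_ok TF_l4242 _)
           (CovZ.leaf K2_ok TF_l4243 _))
          (CovZ.leaf K2_ok TF_l4244 _))
         (CovZ.n1 (2560, 960) (by decide +kernel)
          (CovZ.n2 (2720, 1120) (by decide +kernel)
           (CovZ.leaf K2_ok TF_l4245 _)
           (CovZ.leaf K2_ok TF_l4246 _))
          (CovZ.n1 (2720, 800) (by decide +kernel)
           (CovZ.leaf K2_ok TF_l4247 _)
           (CovZ.n1 (2720, 960) (by decide +kernel)
            (CovZ.leaf K2_ok TF_l4248 _)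
            (CovZ.leaf K2_ok TF_l4249 _))))))
       (CovZ.n1 (2880, 320) (by decide +kernel)
        (CovZ.leaf K2_ok TF_l4250 _)
        (CovZ.n1 (2880, 640) (by decide +kernel)
         (CovZ.leaf K2_ok TF_l4251 _)
         (CovZ.leaf K2_ok TF_l4252 _))))
      (CovZ.subM 54246564737120023486997918623967233125273225732 (by decide +kernel)
       (CovZ.n1 (3200, 1280) (by decide +kernel)
        (CovZ.n2 (3520, 960) (by decide +kernel)
         (CovZ.leaf K2_ok TF_l4253 _)
         (CovZ.leaf K2_ok TF_l4254 _))
        (CovZ.n1 (2880, 960) (by decide +kernel)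
         (CovZ.n2 (2880, 1280) (by decide +kernel)
          (CovZ.leaf K2_ok TF_l4255 _)
          (CovZ.n1 (2720, 1120) (by decide +kernel)
           (CovZ.n2 (2720, 1280) (by decide +kernel)
            (CovZ.leaf K2_ok TF_l4256 _)
            (CovZ.leaf K2_ok TF_l4257 _))
           (CovZ.leaf K2_ok TF_l4258 _)))
         (CovZ.n1 (3200, 960) (by decide +kernel)
          (CovZ.leaf K2_ok TF_l4259 _)
          (CovZ.leaf K2_ok TF_l4260 _)))))))
    (CovZ.subM 99918490903710905114218140726066040597771307018 (by decide +kernel)
     (CovZ.n1 (3840, 2560) (by decide +kernel)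
      (CovZ.n2 (4480, 1920) (by decide +kernel)
       (CovZ.leaf K2_ok TF_l4261 _)
       (CovZ.leaf K2_ok TF_l4262 _))
      (CovZ.n1 (3200, 1920) (by decide +kernel)
       (CovZ.n2 (3200, 2560) (by decide +kernel)
        (CovZ.n2 (3520, 2240) (by decide +kernel)
         (CovZ.leaf K2_ok TF_l4263 _)
         (CovZ.leaf K2_ok TF_l4264 _))
        (CovZ.subM 2854497427106367846117924969629939644326037504 (by decide +kernel)
         (CovZ.n1 (2880, 2240) (by decide +kernel)
          (CovZ.n2 (2880, 2560) (by decide +kernel)
           (CovZ.n2 (3040, 2400) (by decide +kernel)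
            (CovZ.leaf K2_ok TF_l4265 _)
            (CovZ.leaf K2_ok TF_l4266 _))
           (CovZ.n1 (2720, 2400) (by decide +kernel)
            (CovZ.n2 (2720, 2560) (by decide +kernel)
             (CovZ.leaf K2_ok TF_l4267 _)
             (CovZ.n1 (2640, 2480) (by decide +kernel)
              (CovZ.leaf K2_ok TF_l4268 _)
              (CovZ.leaf K2_ok TF_l4269 _)))
            (CovZ.leaf K2_ok TF_l4270 _)))
          (CovZ.n1 (3200, 2240) (by decide +kernel)
           (CovZ.leaf K2_ok TF_l4271 _)
           (CovZ.n1 (3040, 2400) (by decide +kernel)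
            (CovZ.leaf K2_ok TF_l4272 _)
            (CovZ.leaf K2_ok TF_l4273 _))))))
       (CovZ.n1 (3840, 1920) (by decide +kernel)
        (CovZ.n2 (3520, 1600) (by decide +kernel)
         (CovZ.leaf K2_ok TF_l4274 _)
         (CovZ.leaf K2_ok TF_l4275 _))
        (CovZ.n1 (3520, 2240) (by decide +kernel)
         (CovZ.leaf K2_ok TF_l4276 _)
         (CovZ.leaf K2_ok TF_l4277 _))))))))

theorem TF_s5_3 : SqZ TF_M TF_L [0, 7, 4, 3] (-7680) (-7680) 2560 5 3 :=
  SqZ.mk (a := 5120) (b := 7680) (c := 0) (d := 2560) (by norm_num) (by norm_num) (by norm_num) (by norm_num)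
    (CovZ.topM TF_LL 2722425578813957304330794962693975681550 (by decide +kernel) (CovZ.n2 (6400, 1280) (by decide +kernel)
    (CovZ.leaf K2_ok TF_l4628 _)
    (CovZ.leaf K2_ok TF_l4629 _)))
    (CovZ.topM TF_LL 139881428341338380152993979392326048469733337614 (by decide +kernel) (CovZ.n0 (6400, 1280) (by decide +kernel)
    (CovZ.leaf K2_ok TF_l4630 _)
    (CovZ.n1 (6400, 2560) (by decide +kernel)
     (CovZ.leaf K2_ok TF_l4631 _)
     (CovZ.leaf K2_ok TF_l4632 _))))

theorem TF_s6_3 : SqZ TF_M TF_L [0, 7, 4, 3] (-7680) (-7680) 2560 6 3 :=
  SqZ.mk (a := 7680) (b := 10240) (c := 0) (d := 2560) (by norm_num) (by norm_num) (by norm_num) (by norm_num)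
    (CovZ.topM TF_LL 2722425578816433033302879656760106527246 (by decide +kernel) (CovZ.leaf K2_ok TF_l4813 _))
    (CovZ.topM TF_LL 2722425578816433184418607109688264993294 (by decide +kernel) (CovZ.leaf K2_ok TF_l4814 _))

theorem TF_s7_3 : SqZ TF_M TF_L [0, 7, 4, 3] (-7680) (-7680) 2560 7 3 :=
  SqZ.mk (a := 10240) (b := 12800) (c := 0) (d := 2560) (by norm_num) (by norm_num) (by norm_num) (by norm_num)
    (CovZ.topM TF_LL 2855187092673756420288836882076205810186 (by decide +kernel) (CovZ.leaf K2_ok TF_l5062 _))
    (CovZ.topM TF_LL 2812651796808639112356059171335310647818 (by decide +kernel) (CovZ.leaf K2_ok TF_l5063 _))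

theorem TF_s8_3 : SqZ TF_M TF_L [0, 7, 4, 3] (-7680) (-7680) 2560 8 3 :=
  SqZ.mk (a := 12800) (b := 15360) (c := 0) (d := 2560) (by norm_num) (by norm_num) (by norm_num) (by norm_num)
    (CovZ.topM TF_LL 135586653862637751630988768311123280682 (by decide +kernel) (CovZ.leaf K2_ok TF_l5340 _))
    (CovZ.topM TF_LL 135586613297818544327647920416620708650 (by decide +kernel) (CovZ.leaf K2_ok TF_l5341 _))

theorem TF_s9_3 : SqZ TF_M TF_L [0, 7, 4, 3] (-7680) (-7680) 2560 9 3 :=
  SqZ.mk (a := 15360) (b := 17920) (c := 0) (d := 2560) (by norm_num) (by norm_num) (by norm_num) (by norm_num)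
    (CovZ.topM TF_LL 135581461566378844009889093885448291114 (by decide +kernel) (CovZ.leaf K2_ok TF_l5706 _))
    (CovZ.topM TF_LL 135581461566378844009889093885448291114 (by decide +kernel) (CovZ.leaf K2_ok TF_l5707 _))

theorem TF_s10_3 : SqZ TF_M TF_L [0, 7, 4, 3] (-7680) (-7680) 2560 10 3 :=
  SqZ.mk (a := 17920) (b := 20480) (c := 0) (d := 2560) (by norm_num) (by norm_num) (by norm_num) (by norm_num)
    (CovZ.topM TF_LL 133587619572701545758396818663403553578 (by decide +kernel) (CovZ.leaf K2_ok TF_l6150 _))
    (CovZ.topM TF_LL 135581461566378844009888803339500651306 (by decide +kernel) (CovZ.leaf K2_ok TF_l6151 _))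

theorem TF_s11_3 : SqZ TF_M TF_L [0, 7, 4, 3] (-7680) (-7680) 2560 11 3 :=
  SqZ.mk (a := 20480) (b := 23040) (c := 0) (d := 2560) (by norm_num) (by norm_num) (by norm_num) (by norm_num)
    (CovZ.topM TF_LL 664819992972018419489350323152225066 (by decide +kernel) (CovZ.n2 (21760, 1280) (by decide +kernel)
    (CovZ.n2 (23040, 1280) (by decide +kernel)
     (CovZ.leaf K2_ok TF_l6570 _)
     (CovZ.leaf K2_ok TF_l6571 _))
    (CovZ.leaf K2_ok TF_l6572 _)))
    (CovZ.topM TF_LL 85735411721968694246047621906195153706 (by decide +kernel) (CovZ.n0 (21760, 1280) (by decide +kernel)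
    (CovZ.leaf K2_ok TF_l6573 _)
    (CovZ.n1 (21760, 2560) (by decide +kernel)
     (CovZ.leaf K2_ok TF_l6574 _)
     (CovZ.leaf K2_ok TF_l6575 _))))

theorem TF_s12_3 : SqZ TF_M TF_L [0, 7, 4, 3] (-7680) (-7680) 2560 12 3 :=
  SqZ.mk (a := 23040) (b := 25600) (c := 0) (d := 2560) (by norm_num) (by norm_num) (by norm_num) (by norm_num)
    (CovZ.topM TF_LL 664817457051847943387857191222510338 (by decide +kernel) (CovZ.n2 (24320, 1280) (by decide +kernel)
    (CovZ.n2 (25600, 1280) (by decide +kernel)
     (CovZ.n2 (24960, 640) (by decide +kernel)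
      (CovZ.n2 (24960, 1280) (by decide +kernel)
       (CovZ.leaf K2_ok TF_l6980 _)
       (CovZ.leaf K2_ok TF_l6981 _))
      (CovZ.leaf K2_ok TF_l6982 _))
     (CovZ.n1 (24960, 1920) (by decide +kernel)
      (CovZ.n2 (25600, 1920) (by decide +kernel)
       (CovZ.n2 (25280, 1600) (by decide +kernel)
        (CovZ.leaf K2_ok TF_l6983 _)
        (CovZ.leaf K2_ok TF_l6984 _))
       (CovZ.n1 (25280, 2240) (by decide +kernel)
        (CovZ.n2 (25600, 2240) (by decide +kernel)
         (CovZ.leaf K2_ok TF_l6985 _)
         (CovZ.subM 664776257169400486610890611637616898 (by decide +kernel)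
          (CovZ.n1 (25440, 2400) (by decide +kernel)
           (CovZ.n2 (25600, 2400) (by decide +kernel)
            (CovZ.leaf K2_ok TF_l6986 _)
            (CovZ.n1 (25520, 2480) (by decide +kernel)
             (CovZ.leaf K2_ok TF_l6987 _)
             (CovZ.leaf K2_ok TF_l6988 _)))
           (CovZ.leaf K2_ok TF_l6989 _))))
        (CovZ.leaf K2_ok TF_l6990 _)))
      (CovZ.leaf K2_ok TF_l6991 _)))
    (CovZ.n1 (24320, 0) (by decide +kernel)
     (CovZ.leaf K2_ok TF_l6992 _)
     (CovZ.leaf K2_ok TF_l6993 _))))
    (CovZ.topM TF_LL 664817457051847943387857191222510338 (by decide +kernel) (CovZ.n0 (24320, 1280) (by decide +kernel)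
    (CovZ.leaf K2_ok TF_l6994 _)
    (CovZ.n1 (24320, 2560) (by decide +kernel)
     (CovZ.n2 (24960, 1920) (by decide +kernel)
      (CovZ.leaf K2_ok TF_l6995 _)
      (CovZ.n1 (24960, 2560) (by decide +kernel)
       (CovZ.n2 (25280, 2240) (by decide +kernel)
        (CovZ.leaf K2_ok TF_l6996 _)
        (CovZ.subM 664776257169400486610890611637616898 (by decide +kernel)
         (CovZ.n1 (25280, 2560) (by decide +kernel)
          (CovZ.n2 (25440, 2400) (by decide +kernel)
           (CovZ.leaf K2_ok TF_l6997 _)
           (CovZ.n1 (25440, 2560) (by decide +kernel)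
            (CovZ.n2 (25520, 2480) (by decide +kernel)
             (CovZ.leaf K2_ok TF_l6998 _)
             (CovZ.leaf K2_ok TF_l6999 _))
            (CovZ.leaf K2_ok TF_l7000 _)))
          (CovZ.leaf K2_ok TF_l7001 _))))
       (CovZ.n1 (24640, 2240) (by decide +kernel)
        (CovZ.leaf K2_ok TF_l7002 _)
        (CovZ.leaf K2_ok TF_l7003 _))))
     (CovZ.n1 (23680, 1920) (by decide +kernel)
      (CovZ.n2 (23680, 2560) (by decide +kernel)
       (CovZ.leaf K2_ok TF_l7004 _)
       (CovZ.leaf K2_ok TF_l7005 _))
      (CovZ.n1 (24320, 1920) (by decide +kernel)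
       (CovZ.leaf K2_ok TF_l7006 _)
       (CovZ.leaf K2_ok TF_l7007 _))))))

theorem TF_s13_3 : SqZ TF_M TF_L [0, 7, 4, 3] (-7680) (-7680) 2560 13 3 :=
  SqZ.mk (a := 25600) (b := 28160) (c := 0) (d := 2560) (by norm_num) (by norm_num) (by norm_num) (by norm_num)
    (CovZ.topM TF_LL 664816823226434492441527779214885376 (by decide +kernel) (CovZ.n2 (26880, 1280) (by decide +kernel)
    (CovZ.subM 40564819207303340852361268690944 (by decide +kernel)
     (CovZ.n2 (28160, 1280) (by decide +kernel)
      (CovZ.n2 (27520, 640) (by decide +kernel)
       (CovZ.n2 (27520, 1280) (by decide +kernel)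
        (CovZ.n2 (27840, 960) (by decide +kernel)
         (CovZ.n2 (27520, 960) (by decide +kernel)
          (CovZ.n2 (27680, 1120) (by decide +kernel)
           (CovZ.badM (by decide +kernel))
           (CovZ.n1 (27520, 1120) (by decide +kernel)
            (CovZ.badM (by decide +kernel))
            (CovZ.badM (by decide +kernel))))
          (CovZ.n1 (27680, 800) (by decide +kernel)
           (CovZ.n2 (27520, 800) (by decide +kernel)
            (CovZ.badM (by decide +kernel))
            (CovZ.n1 (27600, 720) (by decide +kernel)
             (CovZ.leaf K2_ok TF_l7715 _)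
             (CovZ.badM (by decide +kernel))))
           (CovZ.badM (by decide +kernel))))
         (CovZ.n1 (27840, 1280) (by decide +kernel)
          (CovZ.badM (by decide +kernel))
          (CovZ.n1 (27680, 1120) (by decide +kernel)
           (CovZ.badM (by decide +kernel))
           (CovZ.badM (by decide +kernel)))))
        (CovZ.n1 (27200, 960) (by decide +kernel)
         (CovZ.n2 (27200, 1280) (by decide +kernel)
          (CovZ.n2 (27360, 1120) (by decide +kernel)
           (CovZ.n2 (27200, 1120) (by decide +kernel)
            (CovZ.badM (by decide +kernel))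
            (CovZ.n1 (27280, 1040) (by decide +kernel)
             (CovZ.leaf K2_ok TF_l7737 _)
             (CovZ.n1 (27280, 1120) (by decide +kernel)
              (CovZ.n2 (27320, 1080) (by decide +kernel)
               (CovZ.leaf K2_ok TF_l7738 _)
               (CovZ.n1 (27320, 1120) (by decide +kernel)
                (CovZ.leaf K2_ok TF_l7739 _)
                (CovZ.leaf K2_ok TF_l7740 _)))
              (CovZ.n1 (27240, 1080) (by decide +kernel)
               (CovZ.leaf K2_ok TF_l7741 _)
               (CovZ.leaf K2_ok TF_l7742 _)))))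
           (CovZ.badM (by decide +kernel)))
          (CovZ.n1 (27040, 1120) (by decide +kernel)
           (CovZ.badM (by decide +kernel))
           (CovZ.n1 (27200, 1120) (by decide +kernel)
            (CovZ.n2 (27120, 1040) (by decide +kernel)
             (CovZ.n2 (27120, 1120) (by decide +kernel)
              (CovZ.leaf K2_ok TF_l7748 _)
              (CovZ.leaf K2_ok TF_l7749 _))
             (CovZ.leaf K2_ok TF_l7750 _))
            (CovZ.badM (by decide +kernel)))))
         (CovZ.n1 (27520, 960) (by decide +kernel)
          (CovZ.n2 (27360, 800) (by decide +kernel)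
           (CovZ.n2 (27360, 960) (by decide +kernel)
            (CovZ.n2 (27440, 880) (by decide +kernel)
             (CovZ.leaf K2_ok TF_l7753 _)
             (CovZ.n1 (27440, 960) (by decide +kernel)
              (CovZ.badM (by decide +kernel))
              (CovZ.leaf K2_ok TF_l7756 _)))
            (CovZ.n1 (27280, 880) (by decide +kernel)
             (CovZ.leaf K2_ok TF_l7757 _)
             (CovZ.leaf K2_ok TF_l7758 _)))
           (CovZ.n1 (27520, 800) (by decide +kernel)
            (CovZ.leaf K2_ok TF_l7759 _)
            (CovZ.n1 (27440, 880) (by decide +kernel)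
             (CovZ.badM (by decide +kernel))
             (CovZ.leaf K2_ok TF_l7763 _))))
          (CovZ.n1 (27360, 1120) (by decide +kernel)
           (CovZ.n2 (27520, 1120) (by decide +kernel)
            (CovZ.badM (by decide +kernel))
            (CovZ.badM (by decide +kernel)))
           (CovZ.n1 (27360, 960) (by decide +kernel)
            (CovZ.n2 (27280, 1040) (by decide +kernel)
             (CovZ.n2 (27360, 1040) (by decide +kernel)
              (CovZ.leaf K2_ok TF_l7768 _)
              (CovZ.badM (by decide +kernel)))
             (CovZ.leaf K2_ok TF_l7772 _))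
            (CovZ.n1 (27440, 1040) (by decide +kernel)
             (CovZ.n2 (27440, 960) (by decide +kernel)
              (CovZ.n2 (27400, 1000) (by decide +kernel)
               (CovZ.badM (by decide +kernel))
               (CovZ.leaf K2_ok TF_l7774 _))
              (CovZ.badM (by decide +kernel)))
             (CovZ.n1 (27360, 1040) (by decide +kernel)
              (CovZ.badM (by decide +kernel))
              (CovZ.n1 (27400, 1000) (by decide +kernel)
               (CovZ.leaf K2_ok TF_l7779 _)
               (CovZ.badM (by decide +kernel))))))))))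
       (CovZ.n1 (28160, 640) (by decide +kernel)
        (CovZ.n2 (27840, 320) (by decide +kernel)
         (CovZ.n2 (27840, 640) (by decide +kernel)
          (CovZ.badM (by decide +kernel))
          (CovZ.n1 (27680, 480) (by decide +kernel)
           (CovZ.n2 (27680, 640) (by decide +kernel)
            (CovZ.badM (by decide +kernel))
            (CovZ.leaf K2_ok TF_l7801 _))
           (CovZ.badM (by decide +kernel))))
         (CovZ.n1 (28160, 320) (by decide +kernel)
          (CovZ.n2 (28000, 160) (by decide +kernel)
           (CovZ.n2 (28000, 320) (by decide +kernel)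
            (CovZ.n2 (28080, 240) (by decide +kernel)
             (CovZ.leaf K2_ok TF_l7806 _)
             (CovZ.badM (by decide +kernel)))
            (CovZ.leaf K2_ok TF_l7808 _))
           (CovZ.n1 (28160, 160) (by decide +kernel)
            (CovZ.leaf K2_ok TF_l7809 _)
            (CovZ.n1 (28080, 240) (by decide +kernel)
             (CovZ.leaf K2_ok TF_l7810 _)
             (CovZ.leaf K2_ok TF_l7811 _))))
          (CovZ.badM (by decide +kernel))))
        (CovZ.n1 (27840, 960) (by decide +kernel)
         (CovZ.badM (by decide +kernel))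
         (CovZ.n1 (27840, 640) (by decide +kernel)
          (CovZ.n2 (27680, 800) (by decide +kernel)
           (CovZ.badM (by decide +kernel))
           (CovZ.n1 (27680, 640) (by decide +kernel)
            (CovZ.n2 (27600, 720) (by decide +kernel)
             (CovZ.badM (by decide +kernel))
             (CovZ.leaf K2_ok TF_l7852 _))
            (CovZ.badM (by decide +kernel))))
          (CovZ.badM (by decide +kernel))))))
      (CovZ.n1 (27520, 1920) (by decide +kernel)
       (CovZ.badM (by decide +kernel))
       (CovZ.badM (by decide +kernel)))))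
    (CovZ.n1 (26880, 0) (by decide +kernel)
     (CovZ.n2 (26240, 640) (by decide +kernel)
      (CovZ.subM 664654562711665239792751528258961408 (by decide +kernel)
       (CovZ.n2 (26880, 640) (by decide +kernel)
        (CovZ.leaf K2_ok TF_l7871 _)
        (CovZ.n1 (26560, 960) (by decide +kernel)
         (CovZ.n2 (26880, 960) (by decide +kernel)
          (CovZ.leaf K2_ok TF_l7872 _)
          (CovZ.n1 (26720, 1120) (by decide +kernel)
           (CovZ.n2 (26880, 1120) (by decide +kernel)
            (CovZ.leaf K2_ok TF_l7873 _)
            (CovZ.leaf K2_ok TF_l7874 _))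
           (CovZ.leaf K2_ok TF_l7875 _)))
         (CovZ.leaf K2_ok TF_l7876 _))))
      (CovZ.leaf K2_ok TF_l7877 _))
     (CovZ.subM 664654562711665239792751493899223040 (by decide +kernel)
      (CovZ.n1 (27520, 640) (by decide +kernel)
       (CovZ.n2 (27520, 0) (by decide +kernel)
        (CovZ.n2 (27200, 320) (by decide +kernel)
         (CovZ.n2 (27520, 320) (by decide +kernel)
          (CovZ.leaf K2_ok TF_l7878 _)
          (CovZ.n1 (27360, 480) (by decide +kernel)
           (CovZ.leaf K2_ok TF_l7879 _)
           (CovZ.leaf K2_ok TF_l7880 _)))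
         (CovZ.leaf K2_ok TF_l7881 _))
        (CovZ.n1 (27840, 320) (by decide +kernel)
         (CovZ.n2 (27840, 0) (by decide +kernel)
          (CovZ.n2 (27680, 160) (by decide +kernel)
           (CovZ.leaf K2_ok TF_l7882 _)
           (CovZ.leaf K2_ok TF_l7883 _))
          (CovZ.leaf K2_ok TF_l7884 _))
         (CovZ.n1 (27520, 320) (by decide +kernel)
          (CovZ.leaf K2_ok TF_l7885 _)
          (CovZ.n1 (27680, 160) (by decide +kernel)
           (CovZ.leaf K2_ok TF_l7886 _)
           (CovZ.leaf K2_ok TF_l7887 _)))))
       (CovZ.n1 (26880, 640) (by decide +kernel)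
        (CovZ.n2 (27200, 960) (by decide +kernel)
         (CovZ.n2 (27200, 640) (by decide +kernel)
          (CovZ.n2 (27040, 800) (by decide +kernel)
           (CovZ.n2 (27200, 800) (by decide +kernel)
            (CovZ.leaf K2_ok TF_l7888 _)
            (CovZ.leaf K2_ok TF_l7889 _))
           (CovZ.leaf K2_ok TF_l7890 _))
          (CovZ.leaf K2_ok TF_l7891 _))
         (CovZ.n1 (26880, 960) (by decide +kernel)
          (CovZ.n2 (27040, 1120) (by decide +kernel)
           (CovZ.n2 (27040, 960) (by decide +kernel)
            (CovZ.leaf K2_ok TF_l7892 _)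
            (CovZ.leaf K2_ok TF_l7893 _))
           (CovZ.leaf K2_ok TF_l7894 _))
          (CovZ.n1 (27040, 800) (by decide +kernel)
           (CovZ.leaf K2_ok TF_l7895 _)
           (CovZ.n1 (27040, 960) (by decide +kernel)
            (CovZ.leaf K2_ok TF_l7896 _)
            (CovZ.leaf K2_ok TF_l7897 _)))))
        (CovZ.n1 (27200, 320) (by decide +kernel)
         (CovZ.leaf K2_ok TF_l7898 _)
         (CovZ.n1 (27200, 640) (by decide +kernel)
          (CovZ.n2 (27360, 480) (by decide +kernel)
           (CovZ.leaf K2_ok TF_l7899 _)
           (CovZ.leaf K2_ok TF_l7900 _))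
          (CovZ.leaf K2_ok TF_l7901 _)))))))))
    (CovZ.topM TF_LL 664816823226547829237127645851943682 (by decide +kernel) (CovZ.n0 (26880, 1280) (by decide +kernel)
    TF_u87
    TF_u88))

theorem TF_s14_3 : SqZ TF_M TF_L [0, 7, 4, 3] (-7680) (-7680) 2560 14 3 :=
  SqZ.mk (a := 28160) (b := 30720) (c := 0) (d := 2560) (by norm_num) (by norm_num) (by norm_num) (by norm_num)
    (CovZ.topM TF_LL 40564819207303340852292549083136 (by decide +kernel) (CovZ.n2 (29440, 1280) (by decide +kernel)
    (CovZ.badM (by decide +kernel))
    (CovZ.n1 (29440, 0) (by decide +kernel)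
     (CovZ.n2 (28800, 640) (by decide +kernel)
      (CovZ.badM (by decide +kernel))
      (CovZ.n1 (28800, 0) (by decide +kernel)
       (CovZ.n2 (28480, 320) (by decide +kernel)
        (CovZ.n2 (28800, 320) (by decide +kernel)
         (CovZ.n2 (28640, 160) (by decide +kernel)
          (CovZ.badM (by decide +kernel))
          (CovZ.n1 (28800, 160) (by decide +kernel)
           (CovZ.n2 (28720, 80) (by decide +kernel)
            (CovZ.badM (by decide +kernel))
            (CovZ.n1 (28800, 80) (by decide +kernel)
             (CovZ.n2 (28760, 40) (by decide +kernel)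
              (CovZ.badM (by decide +kernel))
              (CovZ.badM (by decide +kernel)))
             (CovZ.badM (by decide +kernel))))
           (CovZ.badM (by decide +kernel))))
         (CovZ.badM (by decide +kernel)))
        (CovZ.n1 (28480, 0) (by decide +kernel)
         (CovZ.n2 (28320, 160) (by decide +kernel)
          (CovZ.n2 (28480, 160) (by decide +kernel)
           (CovZ.n2 (28400, 80) (by decide +kernel)
            (CovZ.n2 (28400, 160) (by decide +kernel)
             (CovZ.leaf K2_ok TF_l8403 _)
             (CovZ.leaf K2_ok TF_l8404 _))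
            (CovZ.n1 (28480, 80) (by decide +kernel)
             (CovZ.leaf K2_ok TF_l8405 _)
             (CovZ.leaf K2_ok TF_l8406 _)))
           (CovZ.n1 (28400, 240) (by decide +kernel)
            (CovZ.badM (by decide +kernel))
            (CovZ.n1 (28400, 160) (by decide +kernel)
             (CovZ.leaf K2_ok TF_l8409 _)
             (CovZ.badM (by decide +kernel)))))
          (CovZ.n1 (28320, 0) (by decide +kernel)
           (CovZ.leaf K2_ok TF_l8411 _)
           (CovZ.leaf K2_ok TF_l8412 _)))
         (CovZ.n1 (28640, 160) (by decide +kernel)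
          (CovZ.n2 (28640, 0) (by decide +kernel)
           (CovZ.n2 (28560, 80) (by decide +kernel)
            (CovZ.n2 (28640, 80) (by decide +kernel)
             (CovZ.leaf K2_ok TF_l8413 _)
             (CovZ.leaf K2_ok TF_l8414 _))
            (CovZ.leaf K2_ok TF_l8415 _))
           (CovZ.n1 (28720, 80) (by decide +kernel)
            (CovZ.n2 (28720, 0) (by decide +kernel)
             (CovZ.leaf K2_ok TF_l8416 _)
             (CovZ.leaf K2_ok TF_l8417 _))
            (CovZ.n1 (28640, 80) (by decide +kernel)
             (CovZ.badM (by decide +kernel))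
             (CovZ.leaf K2_ok TF_l8419 _))))
          (CovZ.n1 (28480, 160) (by decide +kernel)
           (CovZ.badM (by decide +kernel))
           (CovZ.n1 (28560, 80) (by decide +kernel)
            (CovZ.leaf K2_ok TF_l8422 _)
            (CovZ.n1 (28560, 160) (by decide +kernel)
             (CovZ.leaf K2_ok TF_l8423 _)
             (CovZ.leaf K2_ok TF_l8424 _)))))))
       (CovZ.n1 (29120, 320) (by decide +kernel)
        (CovZ.badM (by decide +kernel))
        (CovZ.n1 (28800, 320) (by decide +kernel)
         (CovZ.badM (by decide +kernel))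
         (CovZ.n1 (28960, 160) (by decide +kernel)
          (CovZ.n2 (28800, 160) (by decide +kernel)
           (CovZ.badM (by decide +kernel))
           (CovZ.badM (by decide +kernel)))
          (CovZ.badM (by decide +kernel)))))))
     (CovZ.badM (by decide +kernel)))))
    (CovZ.topM TF_LL 40564819207303340852361268559872 (by decide +kernel) (CovZ.n0 (29440, 1280) (by decide +kernel)
    (CovZ.n2 (28160, 1280) (by decide +kernel)
     (CovZ.badM (by decide +kernel))
     (CovZ.n1 (28800, 640) (by decide +kernel)
      (CovZ.n2 (28160, 640) (by decide +kernel)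
       (CovZ.badM (by decide +kernel))
       (CovZ.n1 (28480, 320) (by decide +kernel)
        (CovZ.n2 (28160, 320) (by decide +kernel)
         (CovZ.badM (by decide +kernel))
         (CovZ.n1 (28320, 160) (by decide +kernel)
          (CovZ.n2 (28160, 160) (by decide +kernel)
           (CovZ.leaf K2_ok TF_l8441 _)
           (CovZ.leaf K2_ok TF_l8442 _))
          (CovZ.n1 (28320, 320) (by decide +kernel)
           (CovZ.n2 (28400, 240) (by decide +kernel)
            (CovZ.n2 (28320, 240) (by decide +kernel)
             (CovZ.badM (by decide +kernel))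
             (CovZ.leaf K2_ok TF_l8444 _))
            (CovZ.badM (by decide +kernel)))
           (CovZ.n1 (28240, 240) (by decide +kernel)
            (CovZ.badM (by decide +kernel))
            (CovZ.n1 (28320, 240) (by decide +kernel)
             (CovZ.leaf K2_ok TF_l8449 _)
             (CovZ.badM (by decide +kernel)))))))
        (CovZ.badM (by decide +kernel))))
      (CovZ.badM (by decide +kernel))))
    (CovZ.badM (by decide +kernel))))

theorem TF_s15_3 : SqZ TF_M TF_L [0, 7, 4, 3] (-7680) (-7680) 2560 15 3 :=
  SqZ.mk (a := 30720) (b := 33280) (c := 0) (d := 2560) (by norm_num) (by norm_num) (by norm_num) (by norm_num)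
    (CovZ.topM TF_LL 0 (by decide +kernel) (CovZ.badM (by decide +kernel)))
    (CovZ.topM TF_LL 0 (by decide +kernel) (CovZ.badM (by decide +kernel)))

theorem TF_s0_4 : SqZ TF_M TF_L [0, 7, 4, 3] (-7680) (-7680) 2560 0 4 :=
  SqZ.mk (a := (-7680)) (b := (-5120)) (c := 2560) (d := 5120) (by norm_num) (by norm_num) (by norm_num) (by norm_num)
    (CovZ.topM TF_LL 2787593149816327892691964784081045188247552 (by decide +kernel) (CovZ.n2 (-6400, 3840) (by decide +kernel)
    (CovZ.n2 (-5120, 3840) (by decide +kernel)
     (CovZ.n2 (-5760, 3200) (by decide +kernel)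
      (CovZ.badM (by decide +kernel))
      (CovZ.n1 (-5120, 3200) (by decide +kernel)
       (CovZ.badM (by decide +kernel))
       (CovZ.badM (by decide +kernel))))
     (CovZ.badM (by decide +kernel)))
    (CovZ.badM (by decide +kernel))))
    (CovZ.topM TF_LL 2787593149816327892691964784081045188247552 (by decide +kernel) (CovZ.n0 (-6400, 3840) (by decide +kernel)
    (CovZ.n2 (-7680, 3840) (by decide +kernel)
     (CovZ.badM (by decide +kernel))
     (CovZ.badM (by decide +kernel)))
    (CovZ.badM (by decide +kernel))))

theorem TF_s1_4 : SqZ TF_M TF_L [0, 7, 4, 3] (-7680) (-7680) 2560 1 4 :=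
  SqZ.mk (a := (-5120)) (b := (-2560)) (c := 2560) (d := 5120) (by norm_num) (by norm_num) (by norm_num) (by norm_num)
    (CovZ.topM TF_LL 2787593149816327892691964784081045188247552 (by decide +kernel) (CovZ.n2 (-3840, 3840) (by decide +kernel)
    (CovZ.badM (by decide +kernel))
    (CovZ.n1 (-3840, 2560) (by decide +kernel)
     (CovZ.n2 (-4480, 3200) (by decide +kernel)
      (CovZ.badM (by decide +kernel))
      (CovZ.n1 (-4480, 2560) (by decide +kernel)
       (CovZ.n2 (-4800, 2880) (by decide +kernel)
        (CovZ.badM (by decide +kernel))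
        (CovZ.badM (by decide +kernel)))
       (CovZ.badM (by decide +kernel))))
     (CovZ.badM (by decide +kernel)))))
    (CovZ.topM TF_LL 2787593149816327892691964784081045188247552 (by decide +kernel) (CovZ.n0 (-3840, 3840) (by decide +kernel)
    (CovZ.n2 (-5120, 3840) (by decide +kernel)
     (CovZ.badM (by decide +kernel))
     (CovZ.n1 (-4480, 3200) (by decide +kernel)
      (CovZ.n2 (-5120, 3200) (by decide +kernel)
       (CovZ.badM (by decide +kernel))
       (CovZ.n1 (-4800, 2880) (by decide +kernel)
        (CovZ.badM (by decide +kernel))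
        (CovZ.badM (by decide +kernel))))
      (CovZ.badM (by decide +kernel))))
    (CovZ.badM (by decide +kernel))))

end Pool.Agent.TET
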