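import Pool.Agent.Helper38_TET.TF_M
import Pool.Agent.Helper38_TET.TF_L
import Pool.Agent.Helper38_TET.TF_0
import Pool.Agent.Helper38_TET.TF_9
import Pool.Agent.Helper38_TET.TF_10
import Pool.Agent.Helper38_TET.TF_44
import Pool.Agent.Helper38_TET.TF_47
import Pool.Agent.Helper38_TET.TF_53
import Pool.Agent.Helper38_TET.TF_54
import Pool.Agent.Helper38_TET.TF_57
import Pool.Agent.Helper38_TET.TF_70
import Pool.Agent.Helper38_TET.TF_71
import Pool.Agent.Helper38_TET.TF_99
import Pool.Agent.Helper38_TET.TF_102
import Pool.Agent.Helper38_TET.TF_103
import Pool.Agent.Helper38_TET.TF_105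
import Pool.Agent.Helper38_TET.TF_107
import Pool.Agent.Helper38_TET.TF_108
import Pool.Agent.Helper38_TET.TF_U5

/-!
# MP_c7c9bf_co: certificates, family TF
-/

set_option autoImplicit false
set_option maxRecDepth 100000

namespace Pool.Agent.TET

theorem TF_u91 : CovZ TF_M (toL (selN TF_LN 218257486155105379379964722014121639566607914193)) [0, 7, 4, 3] (-1280, 2560) (-640, 2560) (-640, 3200) :=
    (CovZ.subM 217900674231928889409700149285827412843552571393 (by decide +kernel)
         (CovZ.n2 (-960, 2880) (by decide +kernel)
          (CovZ.n2 (-640, 2880) (by decide +kernel)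
           (CovZ.n2 (-800, 2720) (by decide +kernel)
            (CovZ.n2 (-800, 2880) (by decide +kernel)
             (CovZ.n2 (-720, 2800) (by decide +kernel)
              (CovZ.n2 (-800, 2800) (by decide +kernel)
               (CovZ.n2 (-760, 2840) (by decide +kernel)
                (CovZ.subM 182732399053846096705594801255577904549428461569 (by decide +kernel)
                 (CovZ.n2 (-760, 2800) (by decide +kernel)
                  (CovZ.n2 (-780, 2820) (by decide +kernel)
                   (CovZ.leaf K2_ok TF_l10515 _)
                   (CovZ.n1 (-780, 2800) (by decide +kernel)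
                    (CovZ.badM (by decide +kernel))
                    (CovZ.leaf K2_ok TF_l10516 _)))
                  (CovZ.leaf K2_ok TF_l1455 _)))
                (CovZ.subM 22880652026260719292051357263240730366269456384 (by decide +kernel)
                 (CovZ.n1 (-800, 2840) (by decide +kernel)
                  (CovZ.n2 (-780, 2860) (by decide +kernel)
                   (CovZ.leaf K2_ok TF_l10517 _)
                   (CovZ.leaf K2_ok TF_l10518 _))
                  (CovZ.n1 (-780, 2820) (by decide +kernel)
                   (CovZ.n2 (-800, 2820) (by decide +kernel)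
                    (CovZ.leaf K2_ok TF_l15805 _)
                    (CovZ.badM (by decide +kernel)))
                   (CovZ.n1 (-780, 2840) (by decide +kernel)
                    (CovZ.leaf K2_ok TF_l10519 _)
                    (CovZ.leaf K2_ok TF_l10520 _))))))
               (CovZ.subM 182687797563449035459311729819032607826416500737 (by decide +kernel)
                (CovZ.n1 (-760, 2760) (by decide +kernel)
                 (CovZ.subM 340282366920938463463374607431768211456 (by decide +kernel)
                  (CovZ.n2 (-800, 2760) (by decide +kernel)
                   (CovZ.n2 (-780, 2780) (by decide +kernel)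
                    (CovZ.n2 (-780, 2760) (by decide +kernel)
                     (CovZ.badM (by decide +kernel))
                     (CovZ.leaf K2_ok TF_l10521 _))
                    (CovZ.badM (by decide +kernel)))
                   (CovZ.n1 (-780, 2740) (by decide +kernel)
                    (CovZ.badM (by decide +kernel))
                    (CovZ.n1 (-780, 2760) (by decide +kernel)
                     (CovZ.leaf K2_ok TF_l10522 _)
                     (CovZ.badM (by decide +kernel))))))
                 (CovZ.n1 (-760, 2800) (by decide +kernel)
                  (CovZ.n2 (-740, 2780) (by decide +kernel)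
                   (CovZ.leaf K2_ok TF_l10523 _)
                   (CovZ.leaf K2_ok TF_l10524 _))
                  (CovZ.n1 (-780, 2780) (by decide +kernel)
                   (CovZ.n2 (-780, 2800) (by decide +kernel)
                    (CovZ.leaf K2_ok TF_l10525 _)
                    (CovZ.badM (by decide +kernel)))
                   (CovZ.leaf K2_ok TF_l10526 _))))))
              (CovZ.n1 (-720, 2880) (by decide +kernel)
               (CovZ.n2 (-680, 2840) (by decide +kernel)
                (CovZ.leaf K2_ok TF_l1456 _)
                (CovZ.leaf K2_ok TF_l1457 _))
               (CovZ.n1 (-760, 2840) (by decide +kernel)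
                (CovZ.n2 (-760, 2880) (by decide +kernel)
                 (CovZ.leaf K2_ok TF_l1458 _)
                 (CovZ.n1 (-780, 2860) (by decide +kernel)
                  (CovZ.n2 (-780, 2880) (by decide +kernel)
                   (CovZ.leaf K2_ok TF_l10527 _)
                   (CovZ.leaf K2_ok TF_l10528 _))
                  (CovZ.leaf K2_ok TF_l10529 _)))
                (CovZ.n1 (-720, 2840) (by decide +kernel)
                 (CovZ.leaf K2_ok TF_l1459 _)
                 (CovZ.leaf K2_ok TF_l1460 _)))))
             (CovZ.badM (by decide +kernel)))
            (CovZ.n1 (-640, 2720) (by decide +kernel)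
             (CovZ.subM 182710098308647566082453265537305256187922481153 (by decide +kernel)
              (CovZ.n2 (-720, 2640) (by decide +kernel)
               (CovZ.n2 (-720, 2720) (by decide +kernel)
                (CovZ.n2 (-680, 2680) (by decide +kernel)
                 (CovZ.leaf K2_ok TF_l1461 _)
                 (CovZ.n1 (-680, 2720) (by decide +kernel)
                  (CovZ.leaf K2_ok TF_l1462 _)
                  (CovZ.leaf K2_ok TF_l1463 _)))
                (CovZ.subM 340282368188589063691604008928471416832 (by decide +kernel)
                 (CovZ.n1 (-760, 2680) (by decide +kernel)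
                  (CovZ.n2 (-760, 2720) (by decide +kernel)
                   (CovZ.n2 (-740, 2700) (by decide +kernel)
                    (CovZ.leaf K2_ok TF_l10530 _)
                    (CovZ.leaf K2_ok TF_l10531 _))
                   (CovZ.n1 (-780, 2700) (by decide +kernel)
                    (CovZ.n2 (-780, 2720) (by decide +kernel)
                     (CovZ.leaf K2_ok TF_l10532 _)
                     (CovZ.badM (by decide +kernel)))
                    (CovZ.n1 (-760, 2700) (by decide +kernel)
                     (CovZ.badM (by decide +kernel))
                     (CovZ.leaf K2_ok TF_l10533 _))))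
                  (CovZ.n1 (-720, 2680) (by decide +kernel)
                   (CovZ.badM (by decide +kernel))
                   (CovZ.n1 (-740, 2700) (by decide +kernel)
                    (CovZ.leaf K2_ok TF_l10534 _)
                    (CovZ.badM (by decide +kernel)))))))
               (CovZ.n1 (-640, 2640) (by decide +kernel)
                (CovZ.n2 (-680, 2600) (by decide +kernel)
                 (CovZ.n2 (-680, 2640) (by decide +kernel)
                  (CovZ.leaf K2_ok TF_l1464 _)
                  (CovZ.badM (by decide +kernel)))
                 (CovZ.leaf K2_ok TF_l1466 _))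
                (CovZ.n1 (-680, 2680) (by decide +kernel)
                 (CovZ.leaf K2_ok TF_l1467 _)
                 (CovZ.leaf K2_ok TF_l1468 _)))))
             (CovZ.n1 (-720, 2800) (by decide +kernel)
              (CovZ.n2 (-640, 2800) (by decide +kernel)
               (CovZ.n2 (-680, 2760) (by decide +kernel)
                (CovZ.leaf K2_ok TF_l1469 _)
                (CovZ.leaf K2_ok TF_l1470 _))
               (CovZ.n1 (-680, 2840) (by decide +kernel)
                (CovZ.leaf K2_ok TF_l1471 _)
                (CovZ.leaf K2_ok TF_l1472 _)))
              (CovZ.subM 182710098308647566082453265537305256187922481153 (by decide +kernel)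
               (CovZ.n1 (-720, 2720) (by decide +kernel)
                (CovZ.n2 (-760, 2760) (by decide +kernel)
                 (CovZ.n2 (-720, 2760) (by decide +kernel)
                  (CovZ.n2 (-740, 2740) (by decide +kernel)
                   (CovZ.leaf K2_ok TF_l10535 _)
                   (CovZ.leaf K2_ok TF_l10536 _))
                  (CovZ.n1 (-740, 2780) (by decide +kernel)
                   (CovZ.leaf K2_ok TF_l10537 _)
                   (CovZ.leaf K2_ok TF_l10538 _)))
                 (CovZ.subM 340282368188589063691604008928471416832 (by decide +kernel)
                  (CovZ.n1 (-760, 2720) (by decide +kernel)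
                   (CovZ.n2 (-780, 2740) (by decide +kernel)
                    (CovZ.n2 (-760, 2740) (by decide +kernel)
                     (CovZ.leaf K2_ok TF_l10539 _)
                     (CovZ.leaf K2_ok TF_l10540 _))
                    (CovZ.n1 (-780, 2720) (by decide +kernel)
                     (CovZ.badM (by decide +kernel))
                     (CovZ.leaf K2_ok TF_l10541 _)))
                   (CovZ.leaf K2_ok TF_l10542 _))))
                (CovZ.leaf K2_ok TF_l1473 _))))))
           (CovZ.n1 (-800, 3040) (by decide +kernel)
            (CovZ.n2 (-640, 3040) (by decide +kernel)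
             (CovZ.n2 (-720, 2960) (by decide +kernel)
              (CovZ.n2 (-720, 3040) (by decide +kernel)
               (CovZ.leaf K2_ok TF_l1474 _)
               (CovZ.n1 (-760, 3000) (by decide +kernel)
                (CovZ.n2 (-760, 3040) (by decide +kernel)
                 (CovZ.leaf K2_ok TF_l1475 _)
                 (CovZ.n1 (-780, 3020) (by decide +kernel)
                  (CovZ.leaf K2_ok TF_l10543 _)
                  (CovZ.leaf K2_ok TF_l10544 _)))
                (CovZ.n1 (-720, 3000) (by decide +kernel)
                 (CovZ.leaf K2_ok TF_l1476 _)
                 (CovZ.leaf K2_ok TF_l1477 _))))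
              (CovZ.n1 (-640, 2960) (by decide +kernel)
               (CovZ.n2 (-680, 2920) (by decide +kernel)
                (CovZ.leaf K2_ok TF_l1478 _)
                (CovZ.leaf K2_ok TF_l1479 _))
               (CovZ.leaf K2_ok TF_l1480 _)))
             (CovZ.n1 (-720, 3120) (by decide +kernel)
              (CovZ.n2 (-640, 3120) (by decide +kernel)
               (CovZ.leaf K2_ok TF_l1481 _)
               (CovZ.leaf K2_ok TF_l1482 _))
              (CovZ.n1 (-720, 3040) (by decide +kernel)
               (CovZ.n2 (-760, 3080) (by decide +kernel)
                (CovZ.leaf K2_ok TF_l1483 _)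
                (CovZ.n1 (-760, 3040) (by decide +kernel)
                 (CovZ.leaf K2_ok TF_l1484 _)
                 (CovZ.leaf K2_ok TF_l1485 _)))
               (CovZ.leaf K2_ok TF_l1486 _))))
            (CovZ.n1 (-800, 2880) (by decide +kernel)
             (CovZ.n2 (-880, 2960) (by decide +kernel)
              (CovZ.n2 (-800, 2960) (by decide +kernel)
               (CovZ.badM (by decide +kernel))
               (CovZ.n1 (-840, 3000) (by decide +kernel)
                (CovZ.n2 (-800, 3000) (by decide +kernel)
                 (CovZ.n2 (-820, 2980) (by decide +kernel)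
                  (CovZ.n2 (-820, 3000) (by decide +kernel)
                   (CovZ.leaf K2_ok TF_l10545 _)
                   (CovZ.leaf K2_ok TF_l10546 _))
                  (CovZ.n1 (-800, 2980) (by decide +kernel)
                   (CovZ.leaf K2_ok TF_l10547 _)
                   (CovZ.leaf K2_ok TF_l10548 _)))
                 (CovZ.n1 (-820, 3020) (by decide +kernel)
                  (CovZ.n2 (-800, 3020) (by decide +kernel)
                   (CovZ.leaf K2_ok TF_l10549 _)
                   (CovZ.leaf K2_ok TF_l10550 _))
                  (CovZ.n1 (-820, 3000) (by decide +kernel)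
                   (CovZ.badM (by decide +kernel))
                   (CovZ.leaf K2_ok TF_l10551 _))))
                (CovZ.subM 11596387503235924033598573501777147983109816320 (by decide +kernel)
                 (CovZ.n1 (-840, 2960) (by decide +kernel)
                  (CovZ.badM (by decide +kernel))
                  (CovZ.n1 (-820, 2980) (by decide +kernel)
                   (CovZ.n2 (-820, 2960) (by decide +kernel)
                    (CovZ.badM (by decide +kernel))
                    (CovZ.leaf K2_ok TF_l15806 _))
                   (CovZ.badM (by decide +kernel)))))))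
              (CovZ.badM (by decide +kernel)))
             (CovZ.n1 (-720, 2960) (by decide +kernel)
              (CovZ.n2 (-720, 2880) (by decide +kernel)
               (CovZ.n2 (-760, 2920) (by decide +kernel)
                (CovZ.n2 (-720, 2920) (by decide +kernel)
                 (CovZ.leaf K2_ok TF_l1487 _)
                 (CovZ.leaf K2_ok TF_l1488 _))
                (CovZ.n1 (-760, 2880) (by decide +kernel)
                 (CovZ.n2 (-780, 2900) (by decide +kernel)
                  (CovZ.leaf K2_ok TF_l10552 _)
                  (CovZ.leaf K2_ok TF_l10553 _))
                 (CovZ.leaf K2_ok TF_l1489 _)))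
               (CovZ.leaf K2_ok TF_l1490 _))
              (CovZ.n1 (-800, 2960) (by decide +kernel)
               (CovZ.n2 (-760, 3000) (by decide +kernel)
                (CovZ.n2 (-760, 2960) (by decide +kernel)
                 (CovZ.n2 (-780, 2980) (by decide +kernel)
                  (CovZ.leaf K2_ok TF_l10554 _)
                  (CovZ.leaf K2_ok TF_l10555 _))
                 (CovZ.leaf K2_ok TF_l1491 _))
                (CovZ.n1 (-800, 3000) (by decide +kernel)
                 (CovZ.leaf K2_ok TF_l10556 _)
                 (CovZ.n1 (-780, 2980) (by decide +kernel)
                  (CovZ.leaf K2_ok TF_l10557 _)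
                  (CovZ.leaf K2_ok TF_l10558 _))))
               (CovZ.n1 (-760, 2920) (by decide +kernel)
                (CovZ.n2 (-800, 2920) (by decide +kernel)
                 (CovZ.leaf K2_ok TF_l10559 _)
                 (CovZ.n1 (-780, 2900) (by decide +kernel)
                  (CovZ.leaf K2_ok TF_l10560 _)
                  (CovZ.n1 (-780, 2920) (by decide +kernel)
                   (CovZ.leaf K2_ok TF_l10561 _)
                   (CovZ.leaf K2_ok TF_l10562 _))))
                (CovZ.n1 (-760, 2960) (by decide +kernel)
                 (CovZ.leaf K2_ok TF_l1492 _)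
                 (CovZ.n1 (-780, 2940) (by decide +kernel)
                  (CovZ.leaf K2_ok TF_l10563 _)
                  (CovZ.leaf K2_ok TF_l10564 _)))))))))
          (CovZ.subM 205568269580337652307265314728876605290598891520 (by decide +kernel)
           (CovZ.n1 (-960, 2560) (by decide +kernel)
            (CovZ.badM (by decide +kernel))
            (CovZ.n1 (-800, 2720) (by decide +kernel)
             (CovZ.n2 (-800, 2560) (by decide +kernel)
              (CovZ.badM (by decide +kernel))
              (CovZ.n1 (-720, 2640) (by decide +kernel)
               (CovZ.badM (by decide +kernel))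
               (CovZ.badM (by decide +kernel))))
             (CovZ.badM (by decide +kernel)))))))

theorem TF_u92 : CovZ TF_M (toL (selN TF_LN 34478504104887146107815439637085257165385564160)) [0, 7, 4, 3] (-1280, 3840) (-1280, 3200) (-640, 3200) :=
    (CovZ.n2 (-960, 3520) (by decide +kernel)
         (CovZ.n2 (-960, 3200) (by decide +kernel)
          (CovZ.n2 (-1120, 3360) (by decide +kernel)
           (CovZ.n2 (-960, 3360) (by decide +kernel)
            (CovZ.badM (by decide +kernel))
            (CovZ.badM (by decide +kernel)))
           (CovZ.badM (by decide +kernel)))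
          (CovZ.n1 (-800, 3360) (by decide +kernel)
           (CovZ.n2 (-800, 3200) (by decide +kernel)
            (CovZ.n2 (-880, 3280) (by decide +kernel)
             (CovZ.n2 (-800, 3280) (by decide +kernel)
              (CovZ.n2 (-840, 3240) (by decide +kernel)
               (CovZ.n2 (-840, 3280) (by decide +kernel)
                (CovZ.n2 (-820, 3260) (by decide +kernel)
                 (CovZ.leaf K2_ok TF_l10565 _)
                 (CovZ.leaf K2_ok TF_l10566 _))
                (CovZ.n1 (-860, 3260) (by decide +kernel)
                 (CovZ.n2 (-860, 3280) (by decide +kernel)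
                  (CovZ.leaf K2_ok TF_l10567 _)
                  (CovZ.n1 (-870, 3270) (by decide +kernel)
                   (CovZ.leaf K2_ok TF_l10568 _)
                   (CovZ.leaf K2_ok TF_l10569 _)))
                 (CovZ.n1 (-840, 3260) (by decide +kernel)
                  (CovZ.leaf K2_ok TF_l10570 _)
                  (CovZ.leaf K2_ok TF_l10571 _))))
               (CovZ.n1 (-800, 3240) (by decide +kernel)
                (CovZ.n2 (-820, 3220) (by decide +kernel)
                 (CovZ.leaf K2_ok TF_l10572 _)
                 (CovZ.leaf K2_ok TF_l10573 _))
                (CovZ.n1 (-820, 3260) (by decide +kernel)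
                 (CovZ.leaf K2_ok TF_l10574 _)
                 (CovZ.leaf K2_ok TF_l10575 _))))
              (CovZ.n1 (-840, 3320) (by decide +kernel)
               (CovZ.n2 (-800, 3320) (by decide +kernel)
                (CovZ.leaf K2_ok TF_l1513 _)
                (CovZ.leaf K2_ok TF_l1514 _))
               (CovZ.n1 (-840, 3280) (by decide +kernel)
                (CovZ.n2 (-860, 3300) (by decide +kernel)
                 (CovZ.leaf K2_ok TF_l10576 _)
                 (CovZ.leaf K2_ok TF_l10577 _))
                (CovZ.leaf K2_ok TF_l10578 _))))
             (CovZ.subM 1393796658182910047320498358175324514091008 (by decide +kernel)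
              (CovZ.n1 (-880, 3200) (by decide +kernel)
               (CovZ.badM (by decide +kernel))
               (CovZ.n1 (-840, 3240) (by decide +kernel)
                (CovZ.n2 (-840, 3200) (by decide +kernel)
                 (CovZ.n2 (-860, 3220) (by decide +kernel)
                  (CovZ.n2 (-840, 3220) (by decide +kernel)
                   (CovZ.leaf K2_ok TF_l10579 _)
                   (CovZ.leaf K2_ok TF_l10580 _))
                  (CovZ.n1 (-860, 3200) (by decide +kernel)
                   (CovZ.badM (by decide +kernel))
                   (CovZ.leaf K2_ok TF_l10581 _)))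
                 (CovZ.leaf K2_ok TF_l10582 _))
                (CovZ.n1 (-880, 3240) (by decide +kernel)
                 (CovZ.n2 (-860, 3260) (by decide +kernel)
                  (CovZ.n2 (-860, 3240) (by decide +kernel)
                   (CovZ.n2 (-870, 3250) (by decide +kernel)
                    (CovZ.n2 (-860, 3250) (by decide +kernel)
                     (CovZ.leaf K2_ok TF_l10583 _)
                     (CovZ.leaf K2_ok TF_l10584 _))
                    (CovZ.leaf K2_ok TF_l10585 _))
                   (CovZ.leaf K2_ok TF_l10586 _))
                  (CovZ.subM 1393796657989989237066655690896985102024704 (by decide +kernel)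
                   (CovZ.n1 (-880, 3260) (by decide +kernel)
                    (CovZ.n2 (-870, 3270) (by decide +kernel)
                     (CovZ.leaf K2_ok TF_l10587 _)
                     (CovZ.leaf K2_ok TF_l10588 _))
                    (CovZ.n1 (-870, 3250) (by decide +kernel)
                     (CovZ.leaf K2_ok TF_l10589 _)
                     (CovZ.leaf K2_ok TF_l10590 _)))))
                 (CovZ.n1 (-860, 3220) (by decide +kernel)
                  (CovZ.n2 (-880, 3220) (by decide +kernel)
                   (CovZ.leaf K2_ok TF_l10591 _)
                   (CovZ.badM (by decide +kernel)))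
                  (CovZ.n1 (-860, 3240) (by decide +kernel)
                   (CovZ.leaf K2_ok TF_l10592 _)
                   (CovZ.n1 (-870, 3230) (by decide +kernel)
                    (CovZ.leaf K2_ok TF_l10593 _)
                    (CovZ.leaf K2_ok TF_l10594 _)))))))))
            (CovZ.n1 (-720, 3280) (by decide +kernel)
             (CovZ.n2 (-720, 3200) (by decide +kernel)
              (CovZ.n2 (-760, 3240) (by decide +kernel)
               (CovZ.leaf K2_ok TF_l1515 _)
               (CovZ.leaf K2_ok TF_l1516 _))
              (CovZ.leaf K2_ok TF_l1517 _))
             (CovZ.n1 (-800, 3280) (by decide +kernel)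
              (CovZ.leaf K2_ok TF_l1518 _)
              (CovZ.n1 (-760, 3240) (by decide +kernel)
               (CovZ.leaf K2_ok TF_l1519 _)
               (CovZ.leaf K2_ok TF_l1520 _)))))
           (CovZ.n1 (-960, 3360) (by decide +kernel)
            (CovZ.n2 (-880, 3440) (by decide +kernel)
             (CovZ.n2 (-880, 3360) (by decide +kernel)
              (CovZ.n2 (-920, 3400) (by decide +kernel)
               (CovZ.n2 (-880, 3400) (by decide +kernel)
                (CovZ.n2 (-900, 3380) (by decide +kernel)
                 (CovZ.n2 (-900, 3400) (by decide +kernel)
                  (CovZ.leaf K2_ok TF_l10595 _)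
                  (CovZ.badM (by decide +kernel)))
                 (CovZ.n1 (-880, 3380) (by decide +kernel)
                  (CovZ.n2 (-890, 3370) (by decide +kernel)
                   (CovZ.n2 (-890, 3380) (by decide +kernel)
                    (CovZ.leaf K2_ok TF_l10596 _)
                    (CovZ.leaf K2_ok TF_l10597 _))
                   (CovZ.leaf K2_ok TF_l10598 _))
                  (CovZ.leaf K2_ok TF_l10599 _)))
                (CovZ.subM 1459130789545076980571875917477263742926848 (by decide +kernel)
                 (CovZ.n1 (-900, 3420) (by decide +kernel)
                  (CovZ.n2 (-880, 3420) (by decide +kernel)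
                   (CovZ.leaf K2_ok TF_l10600 _)
                   (CovZ.leaf K2_ok TF_l10601 _))
                  (CovZ.n1 (-900, 3400) (by decide +kernel)
                   (CovZ.n2 (-910, 3410) (by decide +kernel)
                    (CovZ.leaf K2_ok TF_l10602 _)
                    (CovZ.badM (by decide +kernel)))
                   (CovZ.leaf K2_ok TF_l10603 _)))))
               (CovZ.subM 65334214641978600241841928497586127241216 (by decide +kernel)
                (CovZ.n1 (-920, 3360) (by decide +kernel)
                 (CovZ.badM (by decide +kernel))
                 (CovZ.n1 (-900, 3380) (by decide +kernel)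
                  (CovZ.n2 (-900, 3360) (by decide +kernel)
                   (CovZ.badM (by decide +kernel))
                   (CovZ.leaf K2_ok TF_l10604 _))
                  (CovZ.badM (by decide +kernel))))))
              (CovZ.n1 (-840, 3400) (by decide +kernel)
               (CovZ.n2 (-840, 3360) (by decide +kernel)
                (CovZ.n2 (-860, 3380) (by decide +kernel)
                 (CovZ.leaf K2_ok TF_l10605 _)
                 (CovZ.leaf K2_ok TF_l10606 _))
                (CovZ.leaf K2_ok TF_l1521 _))
               (CovZ.n1 (-880, 3400) (by decide +kernel)
                (CovZ.leaf K2_ok TF_l10607 _)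
                (CovZ.n1 (-860, 3380) (by decide +kernel)
                 (CovZ.leaf K2_ok TF_l10608 _)
                 (CovZ.n1 (-860, 3400) (by decide +kernel)
                  (CovZ.leaf K2_ok TF_l10609 _)
                  (CovZ.leaf K2_ok TF_l10610 _))))))
             (CovZ.subM 1459130789545076980571875917477263742926848 (by decide +kernel)
              (CovZ.n1 (-960, 3440) (by decide +kernel)
               (CovZ.n2 (-920, 3480) (by decide +kernel)
                (CovZ.n2 (-920, 3440) (by decide +kernel)
                 (CovZ.n2 (-940, 3460) (by decide +kernel)
                  (CovZ.n2 (-920, 3460) (by decide +kernel)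
                   (CovZ.badM (by decide +kernel))
                   (CovZ.badM (by decide +kernel)))
                  (CovZ.badM (by decide +kernel)))
                 (CovZ.n1 (-900, 3460) (by decide +kernel)
                  (CovZ.n2 (-900, 3440) (by decide +kernel)
                   (CovZ.n2 (-910, 3450) (by decide +kernel)
                    (CovZ.leaf K2_ok TF_l10611 _)
                    (CovZ.leaf K2_ok TF_l10612 _))
                   (CovZ.leaf K2_ok TF_l10613 _))
                  (CovZ.n1 (-920, 3460) (by decide +kernel)
                   (CovZ.leaf K2_ok TF_l10614 _)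
                   (CovZ.n1 (-910, 3450) (by decide +kernel)
                    (CovZ.leaf K2_ok TF_l10615 _)
                    (CovZ.leaf K2_ok TF_l10616 _)))))
                (CovZ.badM (by decide +kernel)))
               (CovZ.n1 (-920, 3400) (by decide +kernel)
                (CovZ.badM (by decide +kernel))
                (CovZ.n1 (-920, 3440) (by decide +kernel)
                 (CovZ.n2 (-900, 3420) (by decide +kernel)
                  (CovZ.subM 162259279247065002620836359700480 (by decide +kernel)
                   (CovZ.n2 (-920, 3420) (by decide +kernel)
                    (CovZ.n2 (-910, 3430) (by decide +kernel)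
                     (CovZ.leaf K2_ok TF_l10617 _)
                     (CovZ.badM (by decide +kernel)))
                    (CovZ.n1 (-910, 3410) (by decide +kernel)
                     (CovZ.badM (by decide +kernel))
                     (CovZ.n1 (-910, 3420) (by decide +kernel)
                      (CovZ.leaf K2_ok TF_l10618 _)
                      (CovZ.badM (by decide +kernel))))))
                  (CovZ.n1 (-900, 3440) (by decide +kernel)
                   (CovZ.leaf K2_ok TF_l10619 _)
                   (CovZ.n1 (-910, 3430) (by decide +kernel)
                    (CovZ.n2 (-910, 3440) (by decide +kernel)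
                     (CovZ.leaf K2_ok TF_l10620 _)
                     (CovZ.badM (by decide +kernel)))
                    (CovZ.leaf K2_ok TF_l10621 _))))
                 (CovZ.badM (by decide +kernel)))))))
            (CovZ.n1 (-880, 3280) (by decide +kernel)
             (CovZ.badM (by decide +kernel))
             (CovZ.n1 (-880, 3360) (by decide +kernel)
              (CovZ.n2 (-840, 3320) (by decide +kernel)
               (CovZ.n2 (-880, 3320) (by decide +kernel)
                (CovZ.n2 (-860, 3340) (by decide +kernel)
                 (CovZ.leaf K2_ok TF_l10622 _)
                 (CovZ.leaf K2_ok TF_l10623 _))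
                (CovZ.n1 (-860, 3300) (by decide +kernel)
                 (CovZ.n2 (-880, 3300) (by decide +kernel)
                  (CovZ.leaf K2_ok TF_l10624 _)
                  (CovZ.leaf K2_ok TF_l10625 _))
                 (CovZ.n1 (-860, 3320) (by decide +kernel)
                  (CovZ.leaf K2_ok TF_l10626 _)
                  (CovZ.leaf K2_ok TF_l10627 _))))
               (CovZ.n1 (-840, 3360) (by decide +kernel)
                (CovZ.leaf K2_ok TF_l1522 _)
                (CovZ.n1 (-860, 3340) (by decide +kernel)
                 (CovZ.leaf K2_ok TF_l10628 _)
                 (CovZ.leaf K2_ok TF_l10629 _))))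
              (CovZ.subM 65334214641978600241841928497586127241216 (by decide +kernel)
               (CovZ.n1 (-920, 3320) (by decide +kernel)
                (CovZ.n2 (-920, 3360) (by decide +kernel)
                 (CovZ.n2 (-900, 3340) (by decide +kernel)
                  (CovZ.badM (by decide +kernel))
                  (CovZ.n1 (-900, 3360) (by decide +kernel)
                   (CovZ.n2 (-890, 3350) (by decide +kernel)
                    (CovZ.leaf K2_ok TF_l10630 _)
                    (CovZ.leaf K2_ok TF_l10631 _))
                   (CovZ.badM (by decide +kernel))))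
                 (CovZ.badM (by decide +kernel)))
                (CovZ.n1 (-880, 3320) (by decide +kernel)
                 (CovZ.badM (by decide +kernel))
                 (CovZ.n1 (-900, 3340) (by decide +kernel)
                  (CovZ.n2 (-880, 3340) (by decide +kernel)
                   (CovZ.n2 (-890, 3330) (by decide +kernel)
                    (CovZ.n2 (-890, 3340) (by decide +kernel)
                     (CovZ.leaf K2_ok TF_l10632 _)
                     (CovZ.badM (by decide +kernel)))
                    (CovZ.leaf K2_ok TF_l10633 _))
                   (CovZ.n1 (-890, 3350) (by decide +kernel)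
                    (CovZ.leaf K2_ok TF_l10634 _)
                    (CovZ.leaf K2_ok TF_l10635 _)))
                  (CovZ.badM (by decide +kernel)))))))))))
         (CovZ.badM (by decide +kernel)))

theorem TF_u93 : CovZ TF_M (toL (selN TF_LN 219686192978683973843474301898176798690242794705)) [0, 7, 4, 3] (0, 5120) (-1280, 3840) (0, 2560) :=
    (CovZ.n2 (0, 3840) (by decide +kernel)
     (CovZ.n2 (-640, 3200) (by decide +kernel)
      (CovZ.subM 1459130872632047150094675630826366985897041 (by decide +kernel)
       (CovZ.n2 (-640, 3840) (by decide +kernel)
        (CovZ.n2 (-320, 3520) (by decide +kernel)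
         (CovZ.n2 (-640, 3520) (by decide +kernel)
          (CovZ.leaf K2_ok TF_l1351 _)
          (CovZ.n1 (-480, 3360) (by decide +kernel)
           (CovZ.n2 (-640, 3360) (by decide +kernel)
            (CovZ.leaf K2_ok TF_l1352 _)
            (CovZ.leaf K2_ok TF_l1353 _))
           (CovZ.n1 (-480, 3520) (by decide +kernel)
            (CovZ.leaf K2_ok TF_l1354 _)
            (CovZ.leaf K2_ok TF_l1355 _))))
         (CovZ.n1 (-320, 3840) (by decide +kernel)
          (CovZ.leaf K2_ok TF_l1356 _)
          (CovZ.n1 (-480, 3680) (by decide +kernel)
           (CovZ.n2 (-480, 3840) (by decide +kernel)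
            (CovZ.leaf K2_ok TF_l1357 _)
            (CovZ.leaf K2_ok TF_l1358 _))
           (CovZ.leaf K2_ok TF_l1359 _))))
        (CovZ.n1 (-960, 3520) (by decide +kernel)
         TF_u89
         TF_u90)))
      (CovZ.n1 (0, 3200) (by decide +kernel)
       (CovZ.subM 194997808913038101707571557207879769849340167377 (by decide +kernel)
        (CovZ.n2 (-320, 2880) (by decide +kernel)
         (CovZ.n2 (-320, 3200) (by decide +kernel)
          (CovZ.leaf K2_ok TF_l1402 _)
          (CovZ.n1 (-480, 3040) (by decide +kernel)
           (CovZ.n2 (-480, 3200) (by decide +kernel)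
            (CovZ.leaf K2_ok TF_l1403 _)
            (CovZ.n1 (-560, 3120) (by decide +kernel)
             (CovZ.leaf K2_ok TF_l1404 _)
             (CovZ.leaf K2_ok TF_l1405 _)))
           (CovZ.n1 (-320, 3040) (by decide +kernel)
            (CovZ.leaf K2_ok TF_l1406 _)
            (CovZ.leaf K2_ok TF_l1407 _))))
         (CovZ.n1 (0, 2880) (by decide +kernel)
          (CovZ.n2 (-160, 2720) (by decide +kernel)
           (CovZ.leaf K2_ok TF_l1408 _)
           (CovZ.leaf K2_ok TF_l1409 _))
          (CovZ.leaf K2_ok TF_l1410 _))))
       (CovZ.n1 (-320, 3520) (by decide +kernel)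
        (CovZ.n2 (0, 3520) (by decide +kernel)
         (CovZ.leaf K2_ok TF_l1411 _)
         (CovZ.leaf K2_ok TF_l1412 _))
        (CovZ.n1 (-320, 3200) (by decide +kernel)
         (CovZ.n2 (-480, 3360) (by decide +kernel)
          (CovZ.leaf K2_ok TF_l1413 _)
          (CovZ.n1 (-480, 3200) (by decide +kernel)
           (CovZ.leaf K2_ok TF_l1414 _)
           (CovZ.leaf K2_ok TF_l1415 _)))
         (CovZ.leaf K2_ok TF_l1416 _)))))
     (CovZ.n1 (-640, 4480) (by decide +kernel)
      (CovZ.subM 1459130872629353392569190643365778669241425 (by decide +kernel)
       (CovZ.n2 (0, 4480) (by decide +kernel)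
        (CovZ.n2 (-320, 4160) (by decide +kernel)
         (CovZ.n2 (-320, 4480) (by decide +kernel)
          (CovZ.leaf K2_ok TF_l1417 _)
          (CovZ.leaf K2_ok TF_l1418 _))
         (CovZ.leaf K2_ok TF_l1419 _))
        (CovZ.n1 (-320, 4800) (by decide +kernel)
         (CovZ.leaf K2_ok TF_l1420 _)
         (CovZ.leaf K2_ok TF_l1421 _))))
      (CovZ.subM 1459130872634423994970103560954173304407121 (by decide +kernel)
       (CovZ.n1 (-640, 3840) (by decide +kernel)
        (CovZ.n2 (-960, 4160) (by decide +kernel)
         (CovZ.n2 (-640, 4160) (by decide +kernel)
          (CovZ.n2 (-800, 4000) (by decide +kernel)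
           (CovZ.subM 65334297551324108628727186738762264674320 (by decide +kernel)
            (CovZ.n2 (-800, 4160) (by decide +kernel)
             (CovZ.leaf K2_ok TF_l1422 _)
             (CovZ.n1 (-880, 4080) (by decide +kernel)
              (CovZ.n2 (-880, 4160) (by decide +kernel)
               (CovZ.leaf K2_ok TF_l1423 _)
               (CovZ.leaf K2_ok TF_l1424 _))
              (CovZ.leaf K2_ok TF_l1425 _))))
           (CovZ.n1 (-640, 4000) (by decide +kernel)
            (CovZ.n2 (-720, 3920) (by decide +kernel)
             (CovZ.leaf K2_ok TF_l1426 _)
             (CovZ.leaf K2_ok TF_l1427 _))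
            (CovZ.leaf K2_ok TF_l1428 _)))
          (CovZ.subM 65334297548788807428270727935768858263568 (by decide +kernel)
           (CovZ.n1 (-800, 4320) (by decide +kernel)
            (CovZ.leaf K2_ok TF_l1429 _)
            (CovZ.n1 (-800, 4160) (by decide +kernel)
             (CovZ.n2 (-880, 4240) (by decide +kernel)
              (CovZ.leaf K2_ok TF_l1430 _)
              (CovZ.leaf K2_ok TF_l1431 _))
             (CovZ.leaf K2_ok TF_l1432 _)))))
         (CovZ.n1 (-960, 3840) (by decide +kernel)
          (CovZ.subM 5070602400949811094134240313344 (by decide +kernel)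
           (CovZ.n2 (-1120, 4000) (by decide +kernel)
            (CovZ.n2 (-960, 4000) (by decide +kernel)
             (CovZ.n2 (-1040, 3920) (by decide +kernel)
              (CovZ.n2 (-1040, 4000) (by decide +kernel)
               (CovZ.n2 (-1000, 3960) (by decide +kernel)
                (CovZ.badM (by decide +kernel))
                (CovZ.n1 (-1000, 4000) (by decide +kernel)
                 (CovZ.n2 (-980, 3980) (by decide +kernel)
                  (CovZ.badM (by decide +kernel))
                  (CovZ.n1 (-980, 4000) (by decide +kernel)
                   (CovZ.leaf K2_ok TF_l10495 _)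
                   (CovZ.badM (by decide +kernel))))
                 (CovZ.badM (by decide +kernel))))
               (CovZ.badM (by decide +kernel)))
              (CovZ.n1 (-960, 3920) (by decide +kernel)
               (CovZ.badM (by decide +kernel))
               (CovZ.n1 (-1000, 3960) (by decide +kernel)
                (CovZ.n2 (-960, 3960) (by decide +kernel)
                 (CovZ.badM (by decide +kernel))
                 (CovZ.n1 (-980, 3980) (by decide +kernel)
                  (CovZ.leaf K2_ok TF_l10496 _)
                  (CovZ.badM (by decide +kernel))))
                (CovZ.badM (by decide +kernel)))))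
             (CovZ.n1 (-1040, 4080) (by decide +kernel)
              (CovZ.n2 (-960, 4080) (by decide +kernel)
               (CovZ.n2 (-1000, 4040) (by decide +kernel)
                (CovZ.n2 (-1000, 4080) (by decide +kernel)
                 (CovZ.n2 (-980, 4060) (by decide +kernel)
                  (CovZ.badM (by decide +kernel))
                  (CovZ.leaf K2_ok TF_l10497 _))
                 (CovZ.badM (by decide +kernel)))
                (CovZ.n1 (-960, 4040) (by decide +kernel)
                 (CovZ.n2 (-980, 4020) (by decide +kernel)
                  (CovZ.leaf K2_ok TF_l10498 _)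
                  (CovZ.leaf K2_ok TF_l10499 _))
                 (CovZ.n1 (-980, 4060) (by decide +kernel)
                  (CovZ.leaf K2_ok TF_l10500 _)
                  (CovZ.leaf K2_ok TF_l10501 _))))
               (CovZ.n1 (-1000, 4120) (by decide +kernel)
                (CovZ.n2 (-960, 4120) (by decide +kernel)
                 (CovZ.leaf K2_ok TF_l10502 _)
                 (CovZ.leaf K2_ok TF_l10503 _))
                (CovZ.n1 (-1000, 4080) (by decide +kernel)
                 (CovZ.badM (by decide +kernel))
                 (CovZ.leaf K2_ok TF_l10504 _))))
              (CovZ.n1 (-1040, 4000) (by decide +kernel)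
               (CovZ.badM (by decide +kernel))
               (CovZ.n1 (-1000, 4040) (by decide +kernel)
                (CovZ.n2 (-1000, 4000) (by decide +kernel)
                 (CovZ.badM (by decide +kernel))
                 (CovZ.leaf K2_ok TF_l10505 _))
                (CovZ.badM (by decide +kernel))))))
            (CovZ.badM (by decide +kernel))))
          (CovZ.n1 (-800, 4000) (by decide +kernel)
           (CovZ.n2 (-800, 3840) (by decide +kernel)
            (CovZ.subM 65334297551324108628727186738762273062912 (by decide +kernel)
             (CovZ.n2 (-880, 3920) (by decide +kernel)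
              (CovZ.n2 (-800, 3920) (by decide +kernel)
               (CovZ.leaf K2_ok TF_l1433 _)
               (CovZ.leaf K2_ok TF_l1434 _))
              (CovZ.n1 (-880, 3840) (by decide +kernel)
               (CovZ.n2 (-920, 3880) (by decide +kernel)
                (CovZ.leaf K2_ok TF_l1435 _)
                (CovZ.n1 (-920, 3840) (by decide +kernel)
                 (CovZ.n2 (-940, 3860) (by decide +kernel)
                  (CovZ.leaf K2_ok TF_l10506 _)
                  (CovZ.leaf K2_ok TF_l10507 _))
                 (CovZ.leaf K2_ok TF_l1436 _)))
               (CovZ.leaf K2_ok TF_l1437 _))))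
            (CovZ.leaf K2_ok TF_l1438 _))
           (CovZ.subM 65334297531041699025075516314815021776896 (by decide +kernel)
            (CovZ.n1 (-960, 4000) (by decide +kernel)
             (CovZ.n2 (-880, 4080) (by decide +kernel)
              (CovZ.n2 (-880, 4000) (by decide +kernel)
               (CovZ.n2 (-920, 4040) (by decide +kernel)
                (CovZ.leaf K2_ok TF_l1439 _)
                (CovZ.leaf K2_ok TF_l1440 _))
               (CovZ.leaf K2_ok TF_l1441 _))
              (CovZ.n1 (-960, 4080) (by decide +kernel)
               (CovZ.leaf K2_ok TF_l1442 _)
               (CovZ.n1 (-920, 4040) (by decide +kernel)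
                (CovZ.leaf K2_ok TF_l10508 _)
                (CovZ.leaf K2_ok TF_l1443 _))))
             (CovZ.n1 (-880, 3920) (by decide +kernel)
              (CovZ.n2 (-960, 3920) (by decide +kernel)
               (CovZ.n2 (-920, 3960) (by decide +kernel)
                (CovZ.leaf K2_ok TF_l1444 _)
                (CovZ.leaf K2_ok TF_l10509 _))
               (CovZ.n1 (-920, 3880) (by decide +kernel)
                (CovZ.n2 (-960, 3880) (by decide +kernel)
                 (CovZ.leaf K2_ok TF_l10510 _)
                 (CovZ.n1 (-940, 3860) (by decide +kernel)
                  (CovZ.leaf K2_ok TF_l10511 _)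
                  (CovZ.leaf K2_ok TF_l10512 _)))
                (CovZ.n1 (-920, 3920) (by decide +kernel)
                 (CovZ.leaf K2_ok TF_l1445 _)
                 (CovZ.leaf K2_ok TF_l10513 _))))
              (CovZ.n1 (-880, 4000) (by decide +kernel)
               (CovZ.leaf K2_ok TF_l1446 _)
               (CovZ.n1 (-920, 3960) (by decide +kernel)
                (CovZ.n2 (-920, 4000) (by decide +kernel)
                 (CovZ.leaf K2_ok TF_l1447 _)
                 (CovZ.leaf K2_ok TF_l10514 _))
                (CovZ.leaf K2_ok TF_l1448 _)))))))))
        (CovZ.n1 (-320, 4160) (by decide +kernel)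
         (CovZ.n2 (-320, 3840) (by decide +kernel)
          (CovZ.n2 (-480, 4000) (by decide +kernel)
           (CovZ.leaf K2_ok TF_l1449 _)
           (CovZ.leaf K2_ok TF_l1450 _))
          (CovZ.leaf K2_ok TF_l1451 _))
         (CovZ.n1 (-640, 4160) (by decide +kernel)
          (CovZ.leaf K2_ok TF_l1452 _)
          (CovZ.n1 (-480, 4000) (by decide +kernel)
           (CovZ.leaf K2_ok TF_l1453 _)
           (CovZ.leaf K2_ok TF_l1454 _))))))))

theorem TF_u94 : CovZ TF_M (toL (selN TF_LN 219686192978683973843474301898176798690242794705)) [0, 7, 4, 3] (-1280, 3840) (-2560, 2560) (0, 2560) :=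
    (CovZ.n1 (-1280, 2560) (by decide +kernel)
     (CovZ.badM (by decide +kernel))
     (CovZ.n1 (-640, 3200) (by decide +kernel)
      (CovZ.subM 218257486155105379379964722014121639566607914193 (by decide +kernel)
       (CovZ.n2 (-640, 2560) (by decide +kernel)
        TF_u91
        (CovZ.n1 (-320, 2880) (by decide +kernel)
         (CovZ.n2 (-320, 2560) (by decide +kernel)
          (CovZ.n2 (-480, 2720) (by decide +kernel)
           (CovZ.n2 (-320, 2720) (by decide +kernel)
            (CovZ.leaf K2_ok TF_l1493 _)
            (CovZ.leaf K2_ok TF_l1494 _))
           (CovZ.n1 (-480, 2560) (by decide +kernel)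
            (CovZ.n2 (-560, 2640) (by decide +kernel)
             (CovZ.leaf K2_ok TF_l1495 _)
             (CovZ.leaf K2_ok TF_l1496 _))
            (CovZ.leaf K2_ok TF_l1497 _)))
          (CovZ.leaf K2_ok TF_l1498 _))
         (CovZ.n1 (-640, 2880) (by decide +kernel)
          (CovZ.n2 (-480, 3040) (by decide +kernel)
           (CovZ.n2 (-480, 2880) (by decide +kernel)
            (CovZ.n2 (-560, 2960) (by decide +kernel)
             (CovZ.leaf K2_ok TF_l1499 _)
             (CovZ.leaf K2_ok TF_l1500 _))
            (CovZ.leaf K2_ok TF_l1501 _))
           (CovZ.n1 (-640, 3040) (by decide +kernel)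
            (CovZ.leaf K2_ok TF_l1502 _)
            (CovZ.n1 (-560, 2960) (by decide +kernel)
             (CovZ.leaf K2_ok TF_l1503 _)
             (CovZ.leaf K2_ok TF_l1504 _))))
          (CovZ.n1 (-480, 2720) (by decide +kernel)
           (CovZ.n2 (-640, 2720) (by decide +kernel)
            (CovZ.leaf K2_ok TF_l1505 _)
            (CovZ.n1 (-560, 2640) (by decide +kernel)
             (CovZ.leaf K2_ok TF_l1506 _)
             (CovZ.n1 (-560, 2720) (by decide +kernel)
              (CovZ.leaf K2_ok TF_l1507 _)
              (CovZ.leaf K2_ok TF_l1508 _))))
           (CovZ.n1 (-480, 2880) (by decide +kernel)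
            (CovZ.leaf K2_ok TF_l1509 _)
            (CovZ.n1 (-560, 2800) (by decide +kernel)
             (CovZ.n2 (-560, 2880) (by decide +kernel)
              (CovZ.leaf K2_ok TF_l1510 _)
              (CovZ.leaf K2_ok TF_l1511 _))
             (CovZ.leaf K2_ok TF_l1512 _))))))))
      (CovZ.subM 34478504104887146107815439637085257165385564160 (by decide +kernel)
       (CovZ.n1 (-1280, 3200) (by decide +kernel)
        TF_u92
        (CovZ.subM 34477110308228978409575321877479754665774022656 (by decide +kernel)
         (CovZ.n1 (-960, 2880) (by decide +kernel)
          (CovZ.badM (by decide +kernel))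
          (CovZ.n1 (-960, 3200) (by decide +kernel)
           (CovZ.n2 (-800, 3040) (by decide +kernel)
            (CovZ.n2 (-960, 3040) (by decide +kernel)
             (CovZ.badM (by decide +kernel))
             (CovZ.n1 (-880, 2960) (by decide +kernel)
              (CovZ.badM (by decide +kernel))
              (CovZ.badM (by decide +kernel))))
            (CovZ.subM 22836028417509817375240150296742473603414491136 (by decide +kernel)
             (CovZ.n1 (-800, 3200) (by decide +kernel)
              (CovZ.subM 22835963083295358096937411214470380698822770688 (by decide +kernel)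
               (CovZ.n2 (-720, 3120) (by decide +kernel)
                (CovZ.n2 (-800, 3120) (by decide +kernel)
                 (CovZ.badM (by decide +kernel))
                 (CovZ.n1 (-760, 3080) (by decide +kernel)
                  (CovZ.badM (by decide +kernel))
                  (CovZ.badM (by decide +kernel))))
                (CovZ.n1 (-720, 3200) (by decide +kernel)
                 (CovZ.badM (by decide +kernel))
                 (CovZ.badM (by decide +kernel)))))
              (CovZ.subM 10141204801825835211973625643008 (by decide +kernel)
               (CovZ.n1 (-880, 3120) (by decide +kernel)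
                (CovZ.n2 (-880, 3200) (by decide +kernel)
                 (CovZ.n2 (-840, 3160) (by decide +kernel)
                  (CovZ.badM (by decide +kernel))
                  (CovZ.n1 (-840, 3200) (by decide +kernel)
                   (CovZ.badM (by decide +kernel))
                   (CovZ.badM (by decide +kernel))))
                 (CovZ.badM (by decide +kernel)))
                (CovZ.badM (by decide +kernel)))))))
           (CovZ.badM (by decide +kernel)))))))))

theorem TF_u95 : CovZ TF_M (toL (selN TF_LN 178405961588407402865553324868849160096317698)) [0, 7, 4, 3] (28160, 5120) (26880, 3840) (28160, 2560) :=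
    (CovZ.subM 158456325028528675187123552512 (by decide +kernel)
     (CovZ.n2 (28160, 3840) (by decide +kernel)
      (CovZ.n2 (27520, 3200) (by decide +kernel)
       (CovZ.n2 (27520, 3840) (by decide +kernel)
        (CovZ.n2 (27840, 3520) (by decide +kernel)
         (CovZ.n2 (27520, 3520) (by decide +kernel)
          (CovZ.n2 (27680, 3680) (by decide +kernel)
           (CovZ.n2 (27680, 3520) (by decide +kernel)
            (CovZ.n2 (27600, 3600) (by decide +kernel)
             (CovZ.leaf K2_ok TF_l8071 _)
             (CovZ.leaf K2_ok TF_l8072 _))
            (CovZ.leaf K2_ok TF_l15707 _))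
           (CovZ.n1 (27520, 3680) (by decide +kernel)
            (CovZ.leaf K2_ok TF_l8073 _)
            (CovZ.n1 (27600, 3600) (by decide +kernel)
             (CovZ.leaf K2_ok TF_l8074 _)
             (CovZ.leaf K2_ok TF_l8075 _))))
          (CovZ.n1 (27680, 3360) (by decide +kernel)
           (CovZ.leaf K2_ok TF_l8076 _)
           (CovZ.n1 (27680, 3520) (by decide +kernel)
            (CovZ.n2 (27760, 3440) (by decide +kernel)
             (CovZ.leaf K2_ok TF_l8077 _)
             (CovZ.n1 (27760, 3520) (by decide +kernel)
              (CovZ.leaf K2_ok TF_l15708 _)
              (CovZ.leaf K2_ok TF_l15709 _)))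
            (CovZ.leaf K2_ok TF_l8078 _))))
         (CovZ.badM (by decide +kernel)))
        (CovZ.n1 (27200, 3520) (by decide +kernel)
         (CovZ.n2 (27200, 3840) (by decide +kernel)
          (CovZ.n2 (27360, 3680) (by decide +kernel)
           (CovZ.leaf K2_ok TF_l8079 _)
           (CovZ.n1 (27360, 3840) (by decide +kernel)
            (CovZ.leaf K2_ok TF_l8080 _)
            (CovZ.leaf K2_ok TF_l8081 _)))
          (CovZ.leaf K2_ok TF_l8082 _))
         (CovZ.n1 (27520, 3520) (by decide +kernel)
          (CovZ.leaf K2_ok TF_l8083 _)
          (CovZ.n1 (27360, 3680) (by decide +kernel)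
           (CovZ.n2 (27520, 3680) (by decide +kernel)
            (CovZ.leaf K2_ok TF_l8084 _)
            (CovZ.leaf K2_ok TF_l8085 _))
           (CovZ.leaf K2_ok TF_l8086 _)))))
       (CovZ.n1 (28160, 3200) (by decide +kernel)
        (CovZ.n2 (27840, 2880) (by decide +kernel)
         (CovZ.n2 (27840, 3200) (by decide +kernel)
          (CovZ.n2 (28000, 3040) (by decide +kernel)
           (CovZ.n2 (27840, 3040) (by decide +kernel)
            (CovZ.leaf K2_ok TF_l8087 _)
            (CovZ.badM (by decide +kernel)))
           (CovZ.n1 (28000, 3200) (by decide +kernel)
            (CovZ.n2 (28080, 3120) (by decide +kernel)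
             (CovZ.n2 (28000, 3120) (by decide +kernel)
              (CovZ.leaf K2_ok TF_l8088 _)
              (CovZ.leaf K2_ok TF_l8089 _))
             (CovZ.badM (by decide +kernel)))
            (CovZ.n1 (27920, 3120) (by decide +kernel)
             (CovZ.leaf K2_ok TF_l8094 _)
             (CovZ.n1 (28000, 3120) (by decide +kernel)
              (CovZ.leaf K2_ok TF_l8095 _)
              (CovZ.leaf K2_ok TF_l8096 _)))))
          (CovZ.n1 (27680, 3040) (by decide +kernel)
           (CovZ.leaf K2_ok TF_l8097 _)
           (CovZ.n1 (27840, 3040) (by decide +kernel)
            (CovZ.badM (by decide +kernel))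
            (CovZ.leaf K2_ok TF_l8098 _))))
         (CovZ.n1 (28160, 2880) (by decide +kernel)
          (CovZ.badM (by decide +kernel))
          (CovZ.n1 (28000, 3040) (by decide +kernel)
           (CovZ.n2 (28160, 3040) (by decide +kernel)
            (CovZ.badM (by decide +kernel))
            (CovZ.n1 (28080, 3120) (by decide +kernel)
             (CovZ.badM (by decide +kernel))
             (CovZ.n1 (28080, 3040) (by decide +kernel)
              (CovZ.leaf K2_ok TF_l8103 _)
              (CovZ.leaf K2_ok TF_l8104 _))))
           (CovZ.badM (by decide +kernel)))))
        (CovZ.n1 (27840, 3520) (by decide +kernel)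
         (CovZ.badM (by decide +kernel))
         (CovZ.n1 (27840, 3200) (by decide +kernel)
          (CovZ.n2 (27680, 3360) (by decide +kernel)
           (CovZ.n2 (27840, 3360) (by decide +kernel)
            (CovZ.leaf K2_ok TF_l8105 _)
            (CovZ.n1 (27760, 3440) (by decide +kernel)
             (CovZ.n2 (27840, 3440) (by decide +kernel)
              (CovZ.leaf K2_ok TF_l15710 _)
              (CovZ.leaf K2_ok TF_l15711 _))
             (CovZ.leaf K2_ok TF_l8106 _)))
           (CovZ.leaf K2_ok TF_l8107 _))
          (CovZ.n1 (28000, 3360) (by decide +kernel)
           (CovZ.n2 (28000, 3200) (by decide +kernel)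
            (CovZ.n2 (27920, 3280) (by decide +kernel)
             (CovZ.badM (by decide +kernel))
             (CovZ.leaf K2_ok TF_l8109 _))
            (CovZ.badM (by decide +kernel)))
           (CovZ.n1 (27840, 3360) (by decide +kernel)
            (CovZ.n2 (27920, 3440) (by decide +kernel)
             (CovZ.n2 (27920, 3360) (by decide +kernel)
              (CovZ.n2 (27880, 3400) (by decide +kernel)
               (CovZ.badM (by decide +kernel))
               (CovZ.leaf K2_ok TF_l15712 _))
              (CovZ.badM (by decide +kernel)))
             (CovZ.n1 (27840, 3440) (by decide +kernel)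
              (CovZ.badM (by decide +kernel))
              (CovZ.n1 (27880, 3400) (by decide +kernel)
               (CovZ.leaf K2_ok TF_l15713 _)
               (CovZ.badM (by decide +kernel)))))
            (CovZ.n1 (27920, 3280) (by decide +kernel)
             (CovZ.leaf K2_ok TF_l8112 _)
             (CovZ.n1 (27920, 3360) (by decide +kernel)
              (CovZ.badM (by decide +kernel))
              (CovZ.leaf K2_ok TF_l15714 _)))))))))
      (CovZ.n1 (27520, 4480) (by decide +kernel)
       (CovZ.n2 (28160, 4480) (by decide +kernel)
        (CovZ.n2 (27840, 4160) (by decide +kernel)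
         (CovZ.badM (by decide +kernel))
         (CovZ.badM (by decide +kernel)))
        (CovZ.badM (by decide +kernel)))
       (CovZ.n1 (27520, 3840) (by decide +kernel)
        (CovZ.n2 (27200, 4160) (by decide +kernel)
         (CovZ.n2 (27520, 4160) (by decide +kernel)
          (CovZ.n2 (27360, 4000) (by decide +kernel)
           (CovZ.n2 (27360, 4160) (by decide +kernel)
            (CovZ.n2 (27440, 4080) (by decide +kernel)
             (CovZ.leaf K2_ok TF_l8113 _)
             (CovZ.n1 (27440, 4160) (by decide +kernel)
              (CovZ.leaf K2_ok TF_l15715 _)
              (CovZ.leaf K2_ok TF_l8114 _)))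
            (CovZ.leaf K2_ok TF_l8115 _))
           (CovZ.n1 (27520, 4000) (by decide +kernel)
            (CovZ.n2 (27440, 3920) (by decide +kernel)
             (CovZ.leaf K2_ok TF_l8116 _)
             (CovZ.leaf K2_ok TF_l8117 _))
            (CovZ.n1 (27440, 4080) (by decide +kernel)
             (CovZ.n2 (27520, 4080) (by decide +kernel)
              (CovZ.leaf K2_ok TF_l15716 _)
              (CovZ.leaf K2_ok TF_l15717 _))
             (CovZ.leaf K2_ok TF_l8118 _))))
          (CovZ.n1 (27360, 4320) (by decide +kernel)
           (CovZ.n2 (27520, 4320) (by decide +kernel)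
            (CovZ.n2 (27440, 4240) (by decide +kernel)
             (CovZ.n2 (27440, 4320) (by decide +kernel)
              (CovZ.n2 (27480, 4280) (by decide +kernel)
               (CovZ.leaf K2_ok TF_l15718 _)
               (CovZ.n1 (27480, 4320) (by decide +kernel)
                (CovZ.n2 (27500, 4300) (by decide +kernel)
                 (CovZ.leaf K2_ok TF_l15719 _)
                 (CovZ.n1 (27500, 4320) (by decide +kernel)
                  (CovZ.leaf K2_ok TF_l15720 _)
                  (CovZ.leaf K2_ok TF_l15721 _)))
                (CovZ.leaf K2_ok TF_l15722 _)))
              (CovZ.leaf K2_ok TF_l15723 _))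
             (CovZ.n1 (27520, 4240) (by decide +kernel)
              (CovZ.n2 (27480, 4200) (by decide +kernel)
               (CovZ.leaf K2_ok TF_l15724 _)
               (CovZ.badM (by decide +kernel)))
              (CovZ.n1 (27480, 4280) (by decide +kernel)
               (CovZ.badM (by decide +kernel))
               (CovZ.leaf K2_ok TF_l15725 _))))
            (CovZ.n1 (27440, 4400) (by decide +kernel)
             (CovZ.badM (by decide +kernel))
             (CovZ.n1 (27440, 4320) (by decide +kernel)
              (CovZ.n2 (27400, 4360) (by decide +kernel)
               (CovZ.n2 (27440, 4360) (by decide +kernel)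
                (CovZ.leaf K2_ok TF_l15726 _)
                (CovZ.leaf K2_ok TF_l15727 _))
               (CovZ.leaf K2_ok TF_l15728 _))
              (CovZ.n1 (27480, 4360) (by decide +kernel)
               (CovZ.n2 (27480, 4320) (by decide +kernel)
                (CovZ.n2 (27460, 4340) (by decide +kernel)
                 (CovZ.leaf K2_ok TF_l15729 _)
                 (CovZ.leaf K2_ok TF_l15730 _))
                (CovZ.leaf K2_ok TF_l15731 _))
               (CovZ.n1 (27440, 4360) (by decide +kernel)
                (CovZ.leaf K2_ok TF_l15732 _)
                (CovZ.n1 (27460, 4340) (by decide +kernel)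
                 (CovZ.leaf K2_ok TF_l15733 _)
                 (CovZ.leaf K2_ok TF_l15734 _)))))))
           (CovZ.n1 (27360, 4160) (by decide +kernel)
            (CovZ.n2 (27280, 4240) (by decide +kernel)
             (CovZ.n2 (27360, 4240) (by decide +kernel)
              (CovZ.leaf K2_ok TF_l8119 _)
              (CovZ.leaf K2_ok TF_l8120 _))
             (CovZ.leaf K2_ok TF_l8121 _))
            (CovZ.leaf K2_ok TF_l8122 _))))
         (CovZ.n1 (27200, 3840) (by decide +kernel)
          (CovZ.n2 (27040, 4000) (by decide +kernel)
           (CovZ.leaf K2_ok TF_l8123 _)
           (CovZ.leaf K2_ok TF_l8124 _))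
          (CovZ.leaf K2_ok TF_l8125 _)))
        (CovZ.n1 (27840, 4160) (by decide +kernel)
         (CovZ.badM (by decide +kernel))
         (CovZ.n1 (27520, 4160) (by decide +kernel)
          (CovZ.n2 (27680, 4320) (by decide +kernel)
           (CovZ.badM (by decide +kernel))
           (CovZ.n1 (27520, 4320) (by decide +kernel)
            (CovZ.badM (by decide +kernel))
            (CovZ.badM (by decide +kernel))))
          (CovZ.n1 (27680, 4000) (by decide +kernel)
           (CovZ.n2 (27520, 4000) (by decide +kernel)
            (CovZ.n2 (27600, 4080) (by decide +kernel)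
             (CovZ.n2 (27600, 4000) (by decide +kernel)
              (CovZ.n2 (27560, 4040) (by decide +kernel)
               (CovZ.n2 (27600, 4040) (by decide +kernel)
                (CovZ.leaf K2_ok TF_l15735 _)
                (CovZ.leaf K2_ok TF_l15736 _))
               (CovZ.leaf K2_ok TF_l15737 _))
              (CovZ.n1 (27640, 4040) (by decide +kernel)
               (CovZ.leaf K2_ok TF_l15738 _)
               (CovZ.leaf K2_ok TF_l15739 _)))
             (CovZ.n1 (27520, 4080) (by decide +kernel)
              (CovZ.leaf K2_ok TF_l15740 _)
              (CovZ.n1 (27560, 4040) (by decide +kernel)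
               (CovZ.leaf K2_ok TF_l15741 _)
               (CovZ.leaf K2_ok TF_l15742 _))))
            (CovZ.n1 (27600, 3920) (by decide +kernel)
             (CovZ.leaf K2_ok TF_l15743 _)
             (CovZ.n1 (27600, 4000) (by decide +kernel)
              (CovZ.n2 (27640, 3960) (by decide +kernel)
               (CovZ.leaf K2_ok TF_l15744 _)
               (CovZ.n1 (27640, 4000) (by decide +kernel)
                (CovZ.n2 (27660, 3980) (by decide +kernel)
                 (CovZ.leaf K2_ok TF_l15745 _)
                 (CovZ.leaf K2_ok TF_l15746 _))
                (CovZ.leaf K2_ok TF_l15747 _)))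
              (CovZ.leaf K2_ok TF_l15748 _))))
           (CovZ.badM (by decide +kernel)))))))))

theorem TF_u96 : CovZ TF_M (toL (selN TF_LN 178405961588407402865553324868849160096317698)) [0, 7, 4, 3] (26880, 3840) (25600, 2560) (28160, 2560) :=
    (CovZ.n1 (26880, 2560) (by decide +kernel)
     (CovZ.n2 (26240, 3200) (by decide +kernel)
      (CovZ.subM 158456362807460538144285262082 (by decide +kernel)
       (CovZ.n2 (26880, 3200) (by decide +kernel)
        (CovZ.n2 (26560, 2880) (by decide +kernel)
         (CovZ.n2 (26560, 3200) (by decide +kernel)
          (CovZ.leaf K2_ok TF_l8126 _)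
          (CovZ.leaf K2_ok TF_l8127 _))
         (CovZ.n1 (26880, 2880) (by decide +kernel)
          (CovZ.badM (by decide +kernel))
          (CovZ.leaf K2_ok TF_l8131 _)))
        (CovZ.n1 (26560, 3520) (by decide +kernel)
         (CovZ.leaf K2_ok TF_l8132 _)
         (CovZ.leaf K2_ok TF_l8133 _))))
      (CovZ.n1 (26240, 2560) (by decide +kernel)
       (CovZ.n2 (25920, 2880) (by decide +kernel)
        (CovZ.subM 162417733192020823929722295550210 (by decide +kernel)
         (CovZ.n2 (26240, 2880) (by decide +kernel)
          (CovZ.n2 (26080, 2720) (by decide +kernel)
           (CovZ.n2 (26080, 2880) (by decide +kernel)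
            (CovZ.leaf K2_ok TF_l8134 _)
            (CovZ.leaf K2_ok TF_l8135 _))
           (CovZ.n1 (26240, 2720) (by decide +kernel)
            (CovZ.n2 (26160, 2640) (by decide +kernel)
             (CovZ.leaf K2_ok TF_l8136 _)
             (CovZ.leaf K2_ok TF_l8137 _))
            (CovZ.leaf K2_ok TF_l8138 _)))
          (CovZ.n1 (26080, 3040) (by decide +kernel)
           (CovZ.leaf K2_ok TF_l8139 _)
           (CovZ.leaf K2_ok TF_l8140 _))))
        (CovZ.n1 (25920, 2560) (by decide +kernel)
         (CovZ.n2 (25760, 2720) (by decide +kernel)
          (CovZ.n2 (25920, 2720) (by decide +kernel)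
           (CovZ.n2 (25840, 2640) (by decide +kernel)
            (CovZ.leaf K2_ok TF_l8141 _)
            (CovZ.leaf K2_ok TF_l8142 _))
           (CovZ.leaf K2_ok TF_l8143 _))
          (CovZ.n1 (25760, 2560) (by decide +kernel)
           (CovZ.n2 (25680, 2640) (by decide +kernel)
            (CovZ.leaf K2_ok TF_l8144 _)
            (CovZ.leaf K2_ok TF_l8145 _))
           (CovZ.leaf K2_ok TF_l8146 _)))
         (CovZ.subM 162259276866992295254535207649538 (by decide +kernel)
          (CovZ.n1 (26080, 2720) (by decide +kernel)
           (CovZ.n2 (26080, 2560) (by decide +kernel)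
            (CovZ.n2 (26000, 2640) (by decide +kernel)
             (CovZ.leaf K2_ok TF_l8147 _)
             (CovZ.leaf K2_ok TF_l8148 _))
            (CovZ.leaf K2_ok TF_l8149 _))
           (CovZ.n1 (25920, 2720) (by decide +kernel)
            (CovZ.leaf K2_ok TF_l8150 _)
            (CovZ.n1 (26000, 2640) (by decide +kernel)
             (CovZ.leaf K2_ok TF_l8151 _)
             (CovZ.leaf K2_ok TF_l8152 _)))))))
       (CovZ.subM 158456362807460538144285262082 (by decide +kernel)
        (CovZ.n1 (26560, 2880) (by decide +kernel)
         (CovZ.badM (by decide +kernel))
         (CovZ.n1 (26240, 2880) (by decide +kernel)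
          (CovZ.leaf K2_ok TF_l8164 _)
          (CovZ.n1 (26400, 2720) (by decide +kernel)
           (CovZ.n2 (26240, 2720) (by decide +kernel)
            (CovZ.leaf K2_ok TF_l8165 _)
            (CovZ.n1 (26320, 2640) (by decide +kernel)
             (CovZ.leaf K2_ok TF_l8166 _)
             (CovZ.leaf K2_ok TF_l8167 _)))
           (CovZ.leaf K2_ok TF_l8168 _)))))))
     (CovZ.subM 158456362807460538144285262080 (by decide +kernel)
      (CovZ.n1 (27520, 3200) (by decide +kernel)
       (CovZ.n2 (27520, 2560) (by decide +kernel)
        (CovZ.n2 (27200, 2880) (by decide +kernel)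
         (CovZ.n2 (27520, 2880) (by decide +kernel)
          (CovZ.badM (by decide +kernel))
          (CovZ.leaf K2_ok TF_l8169 _))
         (CovZ.badM (by decide +kernel)))
        (CovZ.n1 (27840, 2880) (by decide +kernel)
         (CovZ.badM (by decide +kernel))
         (CovZ.n1 (27520, 2880) (by decide +kernel)
          (CovZ.leaf K2_ok TF_l8173 _)
          (CovZ.badM (by decide +kernel)))))
       (CovZ.n1 (26880, 3200) (by decide +kernel)
        (CovZ.leaf K2_ok TF_l8174 _)
        (CovZ.n1 (27200, 2880) (by decide +kernel)
         (CovZ.n2 (26880, 2880) (by decide +kernel)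
          (CovZ.leaf K2_ok TF_l8175 _)
          (CovZ.badM (by decide +kernel)))
         (CovZ.leaf K2_ok TF_l8179 _))))))

theorem TF_u97 : CovZ TF_M (toL (selN TF_LN 178411411423027703287666883245037698754281472)) [0, 7, 4, 3] (23040, 10240) (23680, 9600) (24320, 10240) :=
    (CovZ.n2 (23680, 10240) (by decide +kernel)
        (CovZ.n2 (24000, 9920) (by decide +kernel)
         (CovZ.n2 (23680, 9920) (by decide +kernel)
          (CovZ.n2 (23840, 10080) (by decide +kernel)
           (CovZ.n2 (23840, 9920) (by decide +kernel)
            (CovZ.n2 (23760, 10000) (by decide +kernel)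
             (CovZ.n2 (23840, 10000) (by decide +kernel)
              (CovZ.leaf K2_ok TF_l16015 _)
              (CovZ.n1 (23800, 10040) (by decide +kernel)
               (CovZ.leaf K2_ok TF_l16016 _)
               (CovZ.leaf K2_ok TF_l16017 _)))
             (CovZ.leaf K2_ok TF_l16018 _))
            (CovZ.n1 (23920, 10000) (by decide +kernel)
             (CovZ.n2 (23920, 9920) (by decide +kernel)
              (CovZ.n2 (23880, 9960) (by decide +kernel)
               (CovZ.badM (by decide +kernel))
               (CovZ.leaf K2_ok TF_l16019 _))
              (CovZ.badM (by decide +kernel)))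
             (CovZ.n1 (23840, 10000) (by decide +kernel)
              (CovZ.badM (by decide +kernel))
              (CovZ.n1 (23880, 9960) (by decide +kernel)
               (CovZ.leaf K2_ok TF_l16020 _)
               (CovZ.badM (by decide +kernel))))))
           (CovZ.n1 (23680, 10080) (by decide +kernel)
            (CovZ.n2 (23760, 10160) (by decide +kernel)
             (CovZ.leaf K2_ok TF_l16021 _)
             (CovZ.n1 (23680, 10160) (by decide +kernel)
              (CovZ.leaf K2_ok TF_l16022 _)
              (CovZ.leaf K2_ok TF_l16023 _)))
            (CovZ.n1 (23760, 10000) (by decide +kernel)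
             (CovZ.leaf K2_ok TF_l16024 _)
             (CovZ.n1 (23760, 10080) (by decide +kernel)
              (CovZ.n2 (23800, 10040) (by decide +kernel)
               (CovZ.leaf K2_ok TF_l16025 _)
               (CovZ.leaf K2_ok TF_l16026 _))
              (CovZ.leaf K2_ok TF_l16027 _)))))
          (CovZ.n1 (23840, 9760) (by decide +kernel)
           (CovZ.leaf K2_ok TF_l7136 _)
           (CovZ.n1 (23840, 9920) (by decide +kernel)
            (CovZ.n2 (23920, 9840) (by decide +kernel)
             (CovZ.leaf K2_ok TF_l15218 _)
             (CovZ.n1 (23920, 9920) (by decide +kernel)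
              (CovZ.n2 (23960, 9880) (by decide +kernel)
               (CovZ.leaf K2_ok TF_l15219 _)
               (CovZ.badM (by decide +kernel)))
              (CovZ.leaf K2_ok TF_l15220 _)))
            (CovZ.n1 (23760, 9840) (by decide +kernel)
             (CovZ.leaf K2_ok TF_l15221 _)
             (CovZ.leaf K2_ok TF_l15222 _)))))
         (CovZ.n1 (24000, 10240) (by decide +kernel)
          (CovZ.badM (by decide +kernel))
          (CovZ.n1 (23840, 10080) (by decide +kernel)
           (CovZ.n2 (23840, 10240) (by decide +kernel)
            (CovZ.badM (by decide +kernel))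
            (CovZ.n1 (23760, 10160) (by decide +kernel)
             (CovZ.n2 (23760, 10240) (by decide +kernel)
              (CovZ.badM (by decide +kernel))
              (CovZ.leaf K2_ok TF_l16028 _))
             (CovZ.badM (by decide +kernel))))
           (CovZ.badM (by decide +kernel)))))
        (CovZ.n1 (23360, 9920) (by decide +kernel)
         (CovZ.n2 (23360, 10240) (by decide +kernel)
          (CovZ.n2 (23520, 10080) (by decide +kernel)
           (CovZ.leaf K2_ok TF_l7137 _)
           (CovZ.n1 (23520, 10240) (by decide +kernel)
            (CovZ.n2 (23600, 10160) (by decide +kernel)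
             (CovZ.leaf K2_ok TF_l16029 _)
             (CovZ.leaf K2_ok TF_l16030 _))
            (CovZ.leaf K2_ok TF_l7138 _)))
          (CovZ.leaf K2_ok TF_l7139 _))
         (CovZ.n1 (23680, 9920) (by decide +kernel)
          (CovZ.n2 (23520, 9760) (by decide +kernel)
           (CovZ.leaf K2_ok TF_l7140 _)
           (CovZ.n1 (23680, 9760) (by decide +kernel)
            (CovZ.leaf K2_ok TF_l7141 _)
            (CovZ.leaf K2_ok TF_l7142 _)))
          (CovZ.n1 (23520, 10080) (by decide +kernel)
           (CovZ.n2 (23680, 10080) (by decide +kernel)
            (CovZ.leaf K2_ok TF_l16031 _)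
            (CovZ.n1 (23600, 10160) (by decide +kernel)
             (CovZ.n2 (23680, 10160) (by decide +kernel)
              (CovZ.leaf K2_ok TF_l16032 _)
              (CovZ.leaf K2_ok TF_l16033 _))
             (CovZ.leaf K2_ok TF_l16034 _)))
           (CovZ.leaf K2_ok TF_l7143 _)))))

theorem TF_u98 : CovZ TF_M (toL (selN TF_LN 178411411423027703287666883245037698754281472)) [0, 7, 4, 3] (23680, 9600) (24320, 8960) (24320, 10240) :=
    (CovZ.n1 (24320, 9600) (by decide +kernel)
        (CovZ.n2 (24000, 9280) (by decide +kernel)
         (CovZ.n2 (24000, 9600) (by decide +kernel)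
          (CovZ.n2 (24160, 9440) (by decide +kernel)
           (CovZ.n2 (24000, 9440) (by decide +kernel)
            (CovZ.leaf K2_ok TF_l16035 _)
            (CovZ.n1 (24080, 9360) (by decide +kernel)
             (CovZ.leaf K2_ok TF_l16036 _)
             (CovZ.n1 (24080, 9440) (by decide +kernel)
              (CovZ.leaf K2_ok TF_l16037 _)
              (CovZ.leaf K2_ok TF_l16038 _))))
           (CovZ.n1 (24160, 9600) (by decide +kernel)
            (CovZ.badM (by decide +kernel))
            (CovZ.n1 (24080, 9520) (by decide +kernel)
             (CovZ.n2 (24080, 9600) (by decide +kernel)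
              (CovZ.badM (by decide +kernel))
              (CovZ.leaf K2_ok TF_l16039 _))
             (CovZ.badM (by decide +kernel)))))
          (CovZ.n1 (23840, 9440) (by decide +kernel)
           (CovZ.n2 (23840, 9600) (by decide +kernel)
            (CovZ.n2 (23920, 9520) (by decide +kernel)
             (CovZ.leaf K2_ok TF_l7144 _)
             (CovZ.leaf K2_ok TF_l15223 _))
            (CovZ.leaf K2_ok TF_l7145 _))
           (CovZ.n1 (24000, 9440) (by decide +kernel)
            (CovZ.leaf K2_ok TF_l7146 _)
            (CovZ.n1 (23920, 9520) (by decide +kernel)
             (CovZ.leaf K2_ok TF_l16040 _)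
             (CovZ.leaf K2_ok TF_l7147 _)))))
         (CovZ.n1 (24320, 9280) (by decide +kernel)
          (CovZ.n2 (24160, 9120) (by decide +kernel)
           (CovZ.n2 (24160, 9280) (by decide +kernel)
            (CovZ.n2 (24240, 9200) (by decide +kernel)
             (CovZ.leaf K2_ok TF_l16041 _)
             (CovZ.n1 (24240, 9280) (by decide +kernel)
              (CovZ.badM (by decide +kernel))
              (CovZ.leaf K2_ok TF_l16042 _)))
            (CovZ.n1 (24080, 9200) (by decide +kernel)
             (CovZ.leaf K2_ok TF_l16043 _)
             (CovZ.leaf K2_ok TF_l16044 _)))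
           (CovZ.n1 (24320, 9120) (by decide +kernel)
            (CovZ.n2 (24240, 9040) (by decide +kernel)
             (CovZ.leaf K2_ok TF_l16045 _)
             (CovZ.n1 (24320, 9040) (by decide +kernel)
              (CovZ.leaf K2_ok TF_l16046 _)
              (CovZ.leaf K2_ok TF_l16047 _)))
            (CovZ.n1 (24240, 9200) (by decide +kernel)
             (CovZ.badM (by decide +kernel))
             (CovZ.leaf K2_ok TF_l16048 _))))
          (CovZ.n1 (24160, 9440) (by decide +kernel)
           (CovZ.badM (by decide +kernel))
           (CovZ.n1 (24160, 9280) (by decide +kernel)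
            (CovZ.n2 (24080, 9360) (by decide +kernel)
             (CovZ.n2 (24160, 9360) (by decide +kernel)
              (CovZ.leaf K2_ok TF_l16049 _)
              (CovZ.leaf K2_ok TF_l16050 _))
             (CovZ.leaf K2_ok TF_l16051 _))
            (CovZ.n1 (24240, 9360) (by decide +kernel)
             (CovZ.n2 (24240, 9280) (by decide +kernel)
              (CovZ.n2 (24200, 9320) (by decide +kernel)
               (CovZ.badM (by decide +kernel))
               (CovZ.leaf K2_ok TF_l16052 _))
              (CovZ.badM (by decide +kernel)))
             (CovZ.n1 (24160, 9360) (by decide +kernel)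
              (CovZ.badM (by decide +kernel))
              (CovZ.n1 (24200, 9320) (by decide +kernel)
               (CovZ.leaf K2_ok TF_l16053 _)
               (CovZ.badM (by decide +kernel)))))))))
        (CovZ.n1 (24000, 9920) (by decide +kernel)
         (CovZ.n2 (24320, 9920) (by decide +kernel)
          (CovZ.n2 (24160, 9760) (by decide +kernel)
           (CovZ.n2 (24160, 9920) (by decide +kernel)
            (CovZ.badM (by decide +kernel))
            (CovZ.n1 (24080, 9840) (by decide +kernel)
             (CovZ.badM (by decide +kernel))
             (CovZ.badM (by decide +kernel))))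
           (CovZ.n1 (24320, 9760) (by decide +kernel)
            (CovZ.n2 (24240, 9680) (by decide +kernel)
             (CovZ.badM (by decide +kernel))
             (CovZ.badM (by decide +kernel)))
            (CovZ.badM (by decide +kernel))))
          (CovZ.badM (by decide +kernel)))
         (CovZ.n1 (24000, 9600) (by decide +kernel)
          (CovZ.n2 (23840, 9760) (by decide +kernel)
           (CovZ.n2 (24000, 9760) (by decide +kernel)
            (CovZ.n2 (23920, 9680) (by decide +kernel)
             (CovZ.n2 (23920, 9760) (by decide +kernel)
              (CovZ.leaf K2_ok TF_l15224 _)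
              (CovZ.leaf K2_ok TF_l15225 _))
             (CovZ.n1 (24000, 9680) (by decide +kernel)
              (CovZ.leaf K2_ok TF_l15226 _)
              (CovZ.leaf K2_ok TF_l15227 _)))
            (CovZ.n1 (23920, 9840) (by decide +kernel)
             (CovZ.n2 (24000, 9840) (by decide +kernel)
              (CovZ.n2 (23960, 9800) (by decide +kernel)
               (CovZ.leaf K2_ok TF_l15228 _)
               (CovZ.n1 (24000, 9800) (by decide +kernel)
                (CovZ.leaf K2_ok TF_l15229 _)
                (CovZ.leaf K2_ok TF_l15230 _)))
              (CovZ.n1 (23960, 9880) (by decide +kernel)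
               (CovZ.badM (by decide +kernel))
               (CovZ.leaf K2_ok TF_l15231 _)))
             (CovZ.leaf K2_ok TF_l15232 _)))
           (CovZ.leaf K2_ok TF_l7148 _))
          (CovZ.n1 (24160, 9760) (by decide +kernel)
           (CovZ.n2 (24160, 9600) (by decide +kernel)
            (CovZ.n2 (24080, 9680) (by decide +kernel)
             (CovZ.n2 (24160, 9680) (by decide +kernel)
              (CovZ.badM (by decide +kernel))
              (CovZ.n1 (24120, 9720) (by decide +kernel)
               (CovZ.n2 (24160, 9720) (by decide +kernel)
                (CovZ.n2 (24140, 9700) (by decide +kernel)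
                 (CovZ.badM (by decide +kernel))
                 (CovZ.badM (by decide +kernel)))
                (CovZ.badM (by decide +kernel)))
               (CovZ.n1 (24120, 9680) (by decide +kernel)
                (CovZ.n2 (24100, 9700) (by decide +kernel)
                 (CovZ.n2 (24120, 9700) (by decide +kernel)
                  (CovZ.badM (by decide +kernel))
                  (CovZ.badM (by decide +kernel)))
                 (CovZ.badM (by decide +kernel)))
                (CovZ.n1 (24140, 9700) (by decide +kernel)
                 (CovZ.badM (by decide +kernel))
                 (CovZ.n1 (24120, 9700) (by decide +kernel)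
                  (CovZ.badM (by decide +kernel))
                  (CovZ.badM (by decide +kernel)))))))
             (CovZ.n1 (24080, 9600) (by decide +kernel)
              (CovZ.n2 (24040, 9640) (by decide +kernel)
               (CovZ.badM (by decide +kernel))
               (CovZ.leaf K2_ok TF_l16054 _))
              (CovZ.badM (by decide +kernel))))
            (CovZ.n1 (24240, 9680) (by decide +kernel)
             (CovZ.badM (by decide +kernel))
             (CovZ.n1 (24160, 9680) (by decide +kernel)
              (CovZ.n2 (24200, 9720) (by decide +kernel)
               (CovZ.badM (by decide +kernel))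
               (CovZ.n1 (24160, 9720) (by decide +kernel)
                (CovZ.badM (by decide +kernel))
                (CovZ.badM (by decide +kernel))))
              (CovZ.badM (by decide +kernel)))))
           (CovZ.n1 (24000, 9760) (by decide +kernel)
            (CovZ.n2 (24080, 9840) (by decide +kernel)
             (CovZ.n2 (24080, 9760) (by decide +kernel)
              (CovZ.n2 (24040, 9800) (by decide +kernel)
               (CovZ.badM (by decide +kernel))
               (CovZ.leaf K2_ok TF_l15233 _))
              (CovZ.badM (by decide +kernel)))
             (CovZ.n1 (24000, 9840) (by decide +kernel)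
              (CovZ.badM (by decide +kernel))
              (CovZ.n1 (24040, 9800) (by decide +kernel)
               (CovZ.n2 (24000, 9800) (by decide +kernel)
                (CovZ.leaf K2_ok TF_l15234 _)
                (CovZ.leaf K2_ok TF_l15235 _))
               (CovZ.n1 (24040, 9840) (by decide +kernel)
                (CovZ.n2 (24060, 9820) (by decide +kernel)
                 (CovZ.n2 (24040, 9820) (by decide +kernel)
                  (CovZ.badM (by decide +kernel))
                  (CovZ.badM (by decide +kernel)))
                 (CovZ.badM (by decide +kernel)))
                (CovZ.n1 (24020, 9820) (by decide +kernel)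
                 (CovZ.leaf K2_ok TF_l15236 _)
                 (CovZ.n1 (24040, 9820) (by decide +kernel)
                  (CovZ.leaf K2_ok TF_l15237 _)
                  (CovZ.leaf K2_ok TF_l15238 _)))))))
            (CovZ.n1 (24080, 9680) (by decide +kernel)
             (CovZ.n2 (24000, 9680) (by decide +kernel)
              (CovZ.leaf K2_ok TF_l15239 _)
              (CovZ.n1 (24040, 9640) (by decide +kernel)
               (CovZ.leaf K2_ok TF_l15240 _)
               (CovZ.leaf K2_ok TF_l15241 _)))
             (CovZ.n1 (24080, 9760) (by decide +kernel)
              (CovZ.n2 (24120, 9720) (by decide +kernel)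
               (CovZ.n2 (24080, 9720) (by decide +kernel)
                (CovZ.badM (by decide +kernel))
                (CovZ.n1 (24100, 9700) (by decide +kernel)
                 (CovZ.leaf K2_ok TF_l15242 _)
                 (CovZ.badM (by decide +kernel))))
               (CovZ.badM (by decide +kernel)))
              (CovZ.n1 (24040, 9720) (by decide +kernel)
               (CovZ.n2 (24040, 9760) (by decide +kernel)
                (CovZ.badM (by decide +kernel))
                (CovZ.leaf K2_ok TF_l15243 _))
               (CovZ.n1 (24080, 9720) (by decide +kernel)
                (CovZ.leaf K2_ok TF_l15244 _)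
                (CovZ.badM (by decide +kernel)))))))))))

theorem TF_u99 : CovZ TF_M (toL (selN TF_LN 178405961588244985132741454546783812810989568)) [0, 7, 4, 3] (24320, 11520) (23680, 12160) (23040, 11520) :=
    (CovZ.n2 (23680, 11520) (by decide +kernel)
       (CovZ.n2 (23360, 11840) (by decide +kernel)
        (CovZ.subM 304592638145092116299776 (by decide +kernel)
         (CovZ.n2 (23680, 11840) (by decide +kernel)
          (CovZ.n2 (23520, 11680) (by decide +kernel)
           (CovZ.n2 (23520, 11840) (by decide +kernel)
            (CovZ.n2 (23600, 11760) (by decide +kernel)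
             (CovZ.leaf K2_ok TF_l15249 _)
             (CovZ.leaf K2_ok TF_l15250 _))
            (CovZ.leaf K2_ok TF_l15251 _))
           (CovZ.n1 (23680, 11680) (by decide +kernel)
            (CovZ.n2 (23600, 11600) (by decide +kernel)
             (CovZ.leaf K2_ok TF_l15252 _)
             (CovZ.n1 (23680, 11600) (by decide +kernel)
              (CovZ.leaf K2_ok TF_l15253 _)
              (CovZ.leaf K2_ok TF_l15254 _)))
            (CovZ.n1 (23600, 11760) (by decide +kernel)
             (CovZ.n2 (23680, 11760) (by decide +kernel)
              (CovZ.leaf K2_ok TF_l15255 _)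
              (CovZ.leaf K2_ok TF_l15256 _))
             (CovZ.leaf K2_ok TF_l15257 _))))
          (CovZ.n1 (23520, 12000) (by decide +kernel)
           (CovZ.n2 (23680, 12000) (by decide +kernel)
            (CovZ.n2 (23600, 11920) (by decide +kernel)
             (CovZ.leaf K2_ok TF_l15258 _)
             (CovZ.n1 (23680, 11920) (by decide +kernel)
              (CovZ.leaf K2_ok TF_l15259 _)
              (CovZ.leaf K2_ok TF_l15260 _)))
            (CovZ.n1 (23600, 12080) (by decide +kernel)
             (CovZ.badM (by decide +kernel))
             (CovZ.leaf K2_ok TF_l15261 _)))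
           (CovZ.leaf K2_ok TF_l15262 _))))
        (CovZ.n1 (23360, 11520) (by decide +kernel)
         (CovZ.n2 (23200, 11680) (by decide +kernel)
          (CovZ.n2 (23360, 11680) (by decide +kernel)
           (CovZ.leaf K2_ok TF_l15263 _)
           (CovZ.leaf K2_ok TF_l15264 _))
          (CovZ.leaf K2_ok TF_l15265 _))
         (CovZ.subM 304592638145092116299776 (by decide +kernel)
          (CovZ.n1 (23520, 11680) (by decide +kernel)
           (CovZ.n2 (23520, 11520) (by decide +kernel)
            (CovZ.n2 (23440, 11600) (by decide +kernel)
             (CovZ.leaf K2_ok TF_l15266 _)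
             (CovZ.leaf K2_ok TF_l15267 _))
            (CovZ.leaf K2_ok TF_l15268 _))
           (CovZ.n1 (23360, 11680) (by decide +kernel)
            (CovZ.leaf K2_ok TF_l15269 _)
            (CovZ.n1 (23440, 11600) (by decide +kernel)
             (CovZ.leaf K2_ok TF_l15270 _)
             (CovZ.leaf K2_ok TF_l15271 _)))))))
       (CovZ.subM 302231454903657293692928 (by decide +kernel)
        (CovZ.n1 (24000, 11840) (by decide +kernel)
         (CovZ.n2 (24000, 11520) (by decide +kernel)
          (CovZ.n2 (23840, 11680) (by decide +kernel)
           (CovZ.n2 (24000, 11680) (by decide +kernel)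
            (CovZ.n2 (23920, 11600) (by decide +kernel)
             (CovZ.n2 (23920, 11680) (by decide +kernel)
              (CovZ.badM (by decide +kernel))
              (CovZ.n1 (23880, 11640) (by decide +kernel)
               (CovZ.n2 (23880, 11680) (by decide +kernel)
                (CovZ.n2 (23900, 11660) (by decide +kernel)
                 (CovZ.leaf K2_ok TF_l15272 _)
                 (CovZ.n1 (23900, 11680) (by decide +kernel)
                  (CovZ.leaf K2_ok TF_l15273 _)
                  (CovZ.leaf K2_ok TF_l15274 _)))
                (CovZ.leaf K2_ok TF_l15275 _))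
               (CovZ.n1 (23920, 11640) (by decide +kernel)
                (CovZ.n2 (23900, 11620) (by decide +kernel)
                 (CovZ.n2 (23900, 11640) (by decide +kernel)
                  (CovZ.badM (by decide +kernel))
                  (CovZ.leaf K2_ok TF_l15276 _))
                 (CovZ.badM (by decide +kernel)))
                (CovZ.n1 (23900, 11660) (by decide +kernel)
                 (CovZ.badM (by decide +kernel))
                 (CovZ.leaf K2_ok TF_l15277 _)))))
             (CovZ.badM (by decide +kernel)))
            (CovZ.n1 (23920, 11760) (by decide +kernel)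
             (CovZ.n2 (24000, 11760) (by decide +kernel)
              (CovZ.n2 (23960, 11720) (by decide +kernel)
               (CovZ.n2 (23960, 11760) (by decide +kernel)
                (CovZ.badM (by decide +kernel))
                (CovZ.n1 (23940, 11740) (by decide +kernel)
                 (CovZ.badM (by decide +kernel))
                 (CovZ.badM (by decide +kernel))))
               (CovZ.badM (by decide +kernel)))
              (CovZ.badM (by decide +kernel)))
             (CovZ.n1 (23920, 11680) (by decide +kernel)
              (CovZ.n2 (23880, 11720) (by decide +kernel)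
               (CovZ.n2 (23920, 11720) (by decide +kernel)
                (CovZ.n2 (23900, 11700) (by decide +kernel)
                 (CovZ.leaf K2_ok TF_l15278 _)
                 (CovZ.n1 (23920, 11700) (by decide +kernel)
                  (CovZ.leaf K2_ok TF_l15279 _)
                  (CovZ.leaf K2_ok TF_l15280 _)))
                (CovZ.n1 (23900, 11740) (by decide +kernel)
                 (CovZ.n2 (23920, 11740) (by decide +kernel)
                  (CovZ.leaf K2_ok TF_l15281 _)
                  (CovZ.leaf K2_ok TF_l15282 _))
                 (CovZ.leaf K2_ok TF_l15283 _)))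
               (CovZ.n1 (23880, 11680) (by decide +kernel)
                (CovZ.leaf K2_ok TF_l15284 _)
                (CovZ.leaf K2_ok TF_l15285 _)))
              (CovZ.n1 (23960, 11720) (by decide +kernel)
               (CovZ.badM (by decide +kernel))
               (CovZ.n1 (23920, 11720) (by decide +kernel)
                (CovZ.n2 (23940, 11740) (by decide +kernel)
                 (CovZ.leaf K2_ok TF_l15286 _)
                 (CovZ.leaf K2_ok TF_l15287 _))
                (CovZ.n1 (23940, 11700) (by decide +kernel)
                 (CovZ.n2 (23920, 11700) (by decide +kernel)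
                  (CovZ.leaf K2_ok TF_l15288 _)
                  (CovZ.badM (by decide +kernel)))
                 (CovZ.n1 (23940, 11720) (by decide +kernel)
                  (CovZ.badM (by decide +kernel))
                  (CovZ.leaf K2_ok TF_l15289 _))))))))
           (CovZ.n1 (23840, 11520) (by decide +kernel)
            (CovZ.n2 (23760, 11600) (by decide +kernel)
             (CovZ.n2 (23840, 11600) (by decide +kernel)
              (CovZ.n2 (23800, 11560) (by decide +kernel)
               (CovZ.n2 (23800, 11600) (by decide +kernel)
                (CovZ.leaf K2_ok TF_l15290 _)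
                (CovZ.leaf K2_ok TF_l15291 _))
               (CovZ.n1 (23840, 11560) (by decide +kernel)
                (CovZ.leaf K2_ok TF_l15292 _)
                (CovZ.leaf K2_ok TF_l15293 _)))
              (CovZ.n1 (23800, 11640) (by decide +kernel)
               (CovZ.n2 (23840, 11640) (by decide +kernel)
                (CovZ.leaf K2_ok TF_l15294 _)
                (CovZ.leaf K2_ok TF_l15295 _))
               (CovZ.leaf K2_ok TF_l15296 _)))
             (CovZ.n1 (23760, 11520) (by decide +kernel)
              (CovZ.n2 (23720, 11560) (by decide +kernel)
               (CovZ.leaf K2_ok TF_l15297 _)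
               (CovZ.leaf K2_ok TF_l15298 _))
              (CovZ.leaf K2_ok TF_l15299 _)))
            (CovZ.n1 (23920, 11600) (by decide +kernel)
             (CovZ.badM (by decide +kernel))
             (CovZ.n1 (23840, 11600) (by decide +kernel)
              (CovZ.n2 (23880, 11640) (by decide +kernel)
               (CovZ.n2 (23880, 11600) (by decide +kernel)
                (CovZ.n2 (23860, 11620) (by decide +kernel)
                 (CovZ.leaf K2_ok TF_l15300 _)
                 (CovZ.leaf K2_ok TF_l15301 _))
                (CovZ.leaf K2_ok TF_l15302 _))
               (CovZ.n1 (23840, 11640) (by decide +kernel)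
                (CovZ.leaf K2_ok TF_l15303 _)
                (CovZ.n1 (23860, 11620) (by decide +kernel)
                 (CovZ.leaf K2_ok TF_l15304 _)
                 (CovZ.leaf K2_ok TF_l15305 _))))
              (CovZ.n1 (23880, 11560) (by decide +kernel)
               (CovZ.n2 (23840, 11560) (by decide +kernel)
                (CovZ.leaf K2_ok TF_l15306 _)
                (CovZ.n1 (23860, 11540) (by decide +kernel)
                 (CovZ.leaf K2_ok TF_l15307 _)
                 (CovZ.leaf K2_ok TF_l15308 _)))
               (CovZ.n1 (23880, 11600) (by decide +kernel)
                (CovZ.badM (by decide +kernel))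
                (CovZ.n1 (23860, 11580) (by decide +kernel)
                 (CovZ.leaf K2_ok TF_l15309 _)
                 (CovZ.leaf K2_ok TF_l15310 _))))))))
          (CovZ.n1 (24160, 11680) (by decide +kernel)
           (CovZ.badM (by decide +kernel))
           (CovZ.n1 (24000, 11680) (by decide +kernel)
            (CovZ.badM (by decide +kernel))
            (CovZ.badM (by decide +kernel)))))
         (CovZ.n1 (23680, 11840) (by decide +kernel)
          (CovZ.n2 (23840, 12000) (by decide +kernel)
           (CovZ.n2 (23840, 11840) (by decide +kernel)
            (CovZ.n2 (23760, 11920) (by decide +kernel)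
             (CovZ.badM (by decide +kernel))
             (CovZ.leaf K2_ok TF_l15311 _))
            (CovZ.badM (by decide +kernel)))
           (CovZ.n1 (23680, 12000) (by decide +kernel)
            (CovZ.badM (by decide +kernel))
            (CovZ.n1 (23760, 11920) (by decide +kernel)
             (CovZ.leaf K2_ok TF_l15312 _)
             (CovZ.badM (by decide +kernel)))))
          (CovZ.n1 (23840, 11680) (by decide +kernel)
           (CovZ.n2 (23680, 11680) (by decide +kernel)
            (CovZ.n2 (23760, 11760) (by decide +kernel)
             (CovZ.n2 (23760, 11680) (by decide +kernel)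
              (CovZ.leaf K2_ok TF_l15313 _)
              (CovZ.leaf K2_ok TF_l15314 _))
             (CovZ.n1 (23680, 11760) (by decide +kernel)
              (CovZ.leaf K2_ok TF_l15315 _)
              (CovZ.leaf K2_ok TF_l15316 _)))
            (CovZ.n1 (23760, 11600) (by decide +kernel)
             (CovZ.n2 (23680, 11600) (by decide +kernel)
              (CovZ.leaf K2_ok TF_l15317 _)
              (CovZ.n1 (23720, 11560) (by decide +kernel)
               (CovZ.leaf K2_ok TF_l15318 _)
               (CovZ.leaf K2_ok TF_l15319 _)))
             (CovZ.n1 (23760, 11680) (by decide +kernel)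
              (CovZ.n2 (23800, 11640) (by decide +kernel)
               (CovZ.leaf K2_ok TF_l15320 _)
               (CovZ.leaf K2_ok TF_l15321 _))
              (CovZ.leaf K2_ok TF_l15322 _))))
           (CovZ.n1 (23840, 11840) (by decide +kernel)
            (CovZ.n2 (23920, 11760) (by decide +kernel)
             (CovZ.n2 (23840, 11760) (by decide +kernel)
              (CovZ.n2 (23880, 11800) (by decide +kernel)
               (CovZ.leaf K2_ok TF_l15323 _)
               (CovZ.leaf K2_ok TF_l15324 _))
              (CovZ.n1 (23880, 11720) (by decide +kernel)
               (CovZ.leaf K2_ok TF_l15325 _)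
               (CovZ.n1 (23880, 11760) (by decide +kernel)
                (CovZ.n2 (23900, 11740) (by decide +kernel)
                 (CovZ.leaf K2_ok TF_l15326 _)
                 (CovZ.leaf K2_ok TF_l15327 _))
                (CovZ.leaf K2_ok TF_l15328 _))))
             (CovZ.badM (by decide +kernel)))
            (CovZ.n1 (23760, 11760) (by decide +kernel)
             (CovZ.n2 (23760, 11840) (by decide +kernel)
              (CovZ.n2 (23800, 11800) (by decide +kernel)
               (CovZ.leaf K2_ok TF_l15329 _)
               (CovZ.leaf K2_ok TF_l15330 _))
              (CovZ.leaf K2_ok TF_l15331 _))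
             (CovZ.n1 (23840, 11760) (by decide +kernel)
              (CovZ.n2 (23800, 11720) (by decide +kernel)
               (CovZ.leaf K2_ok TF_l15332 _)
               (CovZ.n1 (23840, 11720) (by decide +kernel)
                (CovZ.leaf K2_ok TF_l15333 _)
                (CovZ.leaf K2_ok TF_l15334 _)))
              (CovZ.n1 (23800, 11800) (by decide +kernel)
               (CovZ.n2 (23840, 11800) (by decide +kernel)
                (CovZ.leaf K2_ok TF_l15335 _)
                (CovZ.leaf K2_ok TF_l15336 _))
               (CovZ.leaf K2_ok TF_l15337 _))))))))))

theorem TF_u100 : CovZ TF_M (toL (selN TF_LN 178405961588244985132741454546783812810989568)) [0, 7, 4, 3] (23040, 10240) (23680, 10880) (23040, 11520) :=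
    (CovZ.n2 (23040, 10880) (by decide +kernel)
       (CovZ.n2 (23360, 11200) (by decide +kernel)
        (CovZ.subM 178405961588244985132590338819331984164126720 (by decide +kernel)
         (CovZ.n2 (23360, 10880) (by decide +kernel)
          (CovZ.n2 (23200, 11040) (by decide +kernel)
           (CovZ.n2 (23360, 11040) (by decide +kernel)
            (CovZ.leaf K2_ok TF_l15355 _)
            (CovZ.leaf K2_ok TF_l15356 _))
           (CovZ.leaf K2_ok TF_l7154 _))
          (CovZ.n1 (23520, 11040) (by decide +kernel)
           (CovZ.n2 (23520, 10880) (by decide +kernel)
            (CovZ.n2 (23440, 10960) (by decide +kernel)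
             (CovZ.leaf K2_ok TF_l15357 _)
             (CovZ.leaf K2_ok TF_l15358 _))
            (CovZ.leaf K2_ok TF_l15359 _))
           (CovZ.n1 (23360, 11040) (by decide +kernel)
            (CovZ.leaf K2_ok TF_l15360 _)
            (CovZ.n1 (23440, 10960) (by decide +kernel)
             (CovZ.leaf K2_ok TF_l15361 _)
             (CovZ.leaf K2_ok TF_l15362 _))))))
        (CovZ.n1 (23040, 11200) (by decide +kernel)
         (CovZ.leaf K2_ok TF_l15363 _)
         (CovZ.n1 (23200, 11040) (by decide +kernel)
          (CovZ.leaf K2_ok TF_l7155 _)
          (CovZ.n1 (23200, 11200) (by decide +kernel)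
           (CovZ.leaf K2_ok TF_l15364 _)
           (CovZ.leaf K2_ok TF_l15365 _)))))
       (CovZ.subM 178405961588244985132590338819331984164126720 (by decide +kernel)
        (CovZ.n1 (23360, 10560) (by decide +kernel)
         (CovZ.n2 (23040, 10560) (by decide +kernel)
          (CovZ.leaf K2_ok TF_l7156 _)
          (CovZ.n1 (23200, 10400) (by decide +kernel)
           (CovZ.leaf K2_ok TF_l7157 _)
           (CovZ.n1 (23200, 10560) (by decide +kernel)
            (CovZ.leaf K2_ok TF_l7158 _)
            (CovZ.leaf K2_ok TF_l7159 _))))
         (CovZ.n1 (23360, 10880) (by decide +kernel)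
          (CovZ.n2 (23520, 10720) (by decide +kernel)
           (CovZ.n2 (23360, 10720) (by decide +kernel)
            (CovZ.leaf K2_ok TF_l15366 _)
            (CovZ.n1 (23440, 10640) (by decide +kernel)
             (CovZ.leaf K2_ok TF_l15367 _)
             (CovZ.leaf K2_ok TF_l15368 _)))
           (CovZ.n1 (23520, 10880) (by decide +kernel)
            (CovZ.n2 (23600, 10800) (by decide +kernel)
             (CovZ.leaf K2_ok TF_l15369 _)
             (CovZ.n1 (23600, 10880) (by decide +kernel)
              (CovZ.badM (by decide +kernel))
              (CovZ.leaf K2_ok TF_l15370 _)))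
            (CovZ.n1 (23440, 10800) (by decide +kernel)
             (CovZ.leaf K2_ok TF_l15371 _)
             (CovZ.leaf K2_ok TF_l15372 _))))
          (CovZ.n1 (23200, 10720) (by decide +kernel)
           (CovZ.n2 (23200, 10880) (by decide +kernel)
            (CovZ.leaf K2_ok TF_l15373 _)
            (CovZ.leaf K2_ok TF_l7160 _))
           (CovZ.n1 (23360, 10720) (by decide +kernel)
            (CovZ.leaf K2_ok TF_l15374 _)
            (CovZ.leaf K2_ok TF_l15375 _)))))))

theorem TF_u101 : CovZ TF_M (toL (selN TF_LN 178405961588244985132741454546783812810989568)) [0, 7, 4, 3] (23680, 10880) (24320, 11520) (23040, 11520) :=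
    (CovZ.n1 (23680, 11520) (by decide +kernel)
       (CovZ.subM 304592638145092116283392 (by decide +kernel)
        (CovZ.n2 (24000, 11200) (by decide +kernel)
         (CovZ.n2 (23680, 11200) (by decide +kernel)
          (CovZ.n2 (23840, 11360) (by decide +kernel)
           (CovZ.n2 (23840, 11200) (by decide +kernel)
            (CovZ.n2 (23760, 11280) (by decide +kernel)
             (CovZ.n2 (23840, 11280) (by decide +kernel)
              (CovZ.n2 (23800, 11240) (by decide +kernel)
               (CovZ.n2 (23800, 11280) (by decide +kernel)
                (CovZ.n2 (23820, 11260) (by decide +kernel)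
                 (CovZ.leaf K2_ok TF_l15376 _)
                 (CovZ.leaf K2_ok TF_l15377 _))
                (CovZ.leaf K2_ok TF_l15378 _))
               (CovZ.n1 (23840, 11240) (by decide +kernel)
                (CovZ.n2 (23820, 11220) (by decide +kernel)
                 (CovZ.leaf K2_ok TF_l15379 _)
                 (CovZ.leaf K2_ok TF_l15380 _))
                (CovZ.n1 (23820, 11260) (by decide +kernel)
                 (CovZ.leaf K2_ok TF_l15381 _)
                 (CovZ.leaf K2_ok TF_l15382 _))))
              (CovZ.n1 (23800, 11320) (by decide +kernel)
               (CovZ.badM (by decide +kernel))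
               (CovZ.leaf K2_ok TF_l15383 _)))
             (CovZ.n1 (23760, 11200) (by decide +kernel)
              (CovZ.n2 (23720, 11240) (by decide +kernel)
               (CovZ.n2 (23760, 11240) (by decide +kernel)
                (CovZ.leaf K2_ok TF_l15384 _)
                (CovZ.leaf K2_ok TF_l15385 _))
               (CovZ.leaf K2_ok TF_l15386 _))
              (CovZ.n1 (23800, 11240) (by decide +kernel)
               (CovZ.leaf K2_ok TF_l15387 _)
               (CovZ.leaf K2_ok TF_l15388 _))))
            (CovZ.n1 (23920, 11280) (by decide +kernel)
             (CovZ.n2 (23920, 11200) (by decide +kernel)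
              (CovZ.n2 (23880, 11240) (by decide +kernel)
               (CovZ.badM (by decide +kernel))
               (CovZ.n1 (23880, 11200) (by decide +kernel)
                (CovZ.n2 (23860, 11220) (by decide +kernel)
                 (CovZ.n2 (23880, 11220) (by decide +kernel)
                  (CovZ.leaf K2_ok TF_l15389 _)
                  (CovZ.leaf K2_ok TF_l15390 _))
                 (CovZ.leaf K2_ok TF_l15391 _))
                (CovZ.badM (by decide +kernel))))
              (CovZ.badM (by decide +kernel)))
             (CovZ.n1 (23840, 11280) (by decide +kernel)
              (CovZ.badM (by decide +kernel))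
              (CovZ.n1 (23880, 11240) (by decide +kernel)
               (CovZ.n2 (23840, 11240) (by decide +kernel)
                (CovZ.leaf K2_ok TF_l15392 _)
                (CovZ.n1 (23860, 11220) (by decide +kernel)
                 (CovZ.leaf K2_ok TF_l15393 _)
                 (CovZ.n1 (23860, 11240) (by decide +kernel)
                  (CovZ.leaf K2_ok TF_l15394 _)
                  (CovZ.leaf K2_ok TF_l15395 _))))
               (CovZ.badM (by decide +kernel))))))
           (CovZ.n1 (23680, 11360) (by decide +kernel)
            (CovZ.n2 (23760, 11440) (by decide +kernel)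
             (CovZ.n2 (23760, 11360) (by decide +kernel)
              (CovZ.n2 (23720, 11400) (by decide +kernel)
               (CovZ.leaf K2_ok TF_l15396 _)
               (CovZ.leaf K2_ok TF_l15397 _))
              (CovZ.leaf K2_ok TF_l15398 _))
             (CovZ.n1 (23680, 11440) (by decide +kernel)
              (CovZ.leaf K2_ok TF_l15399 _)
              (CovZ.n1 (23720, 11400) (by decide +kernel)
               (CovZ.leaf K2_ok TF_l15400 _)
               (CovZ.leaf K2_ok TF_l15401 _))))
            (CovZ.n1 (23760, 11280) (by decide +kernel)
             (CovZ.n2 (23680, 11280) (by decide +kernel)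
              (CovZ.leaf K2_ok TF_l15402 _)
              (CovZ.n1 (23720, 11240) (by decide +kernel)
               (CovZ.leaf K2_ok TF_l15403 _)
               (CovZ.leaf K2_ok TF_l15404 _)))
             (CovZ.n1 (23760, 11360) (by decide +kernel)
              (CovZ.n2 (23800, 11320) (by decide +kernel)
               (CovZ.leaf K2_ok TF_l15405 _)
               (CovZ.n1 (23800, 11360) (by decide +kernel)
                (CovZ.badM (by decide +kernel))
                (CovZ.leaf K2_ok TF_l15406 _)))
              (CovZ.n1 (23720, 11320) (by decide +kernel)
               (CovZ.leaf K2_ok TF_l15407 _)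
               (CovZ.n1 (23760, 11320) (by decide +kernel)
                (CovZ.leaf K2_ok TF_l15408 _)
                (CovZ.leaf K2_ok TF_l15409 _)))))))
          (CovZ.n1 (23840, 11040) (by decide +kernel)
           (CovZ.n2 (23680, 11040) (by decide +kernel)
            (CovZ.n2 (23760, 11120) (by decide +kernel)
             (CovZ.badM (by decide +kernel))
             (CovZ.n1 (23680, 11120) (by decide +kernel)
              (CovZ.leaf K2_ok TF_l15410 _)
              (CovZ.n1 (23720, 11080) (by decide +kernel)
               (CovZ.leaf K2_ok TF_l15411 _)
               (CovZ.leaf K2_ok TF_l15412 _))))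
            (CovZ.badM (by decide +kernel)))
           (CovZ.n1 (23840, 11200) (by decide +kernel)
            (CovZ.badM (by decide +kernel))
            (CovZ.n1 (23760, 11120) (by decide +kernel)
             (CovZ.n2 (23760, 11200) (by decide +kernel)
              (CovZ.n2 (23800, 11160) (by decide +kernel)
               (CovZ.leaf K2_ok TF_l15413 _)
               (CovZ.n1 (23800, 11200) (by decide +kernel)
                (CovZ.n2 (23820, 11180) (by decide +kernel)
                 (CovZ.leaf K2_ok TF_l15414 _)
                 (CovZ.leaf K2_ok TF_l15415 _))
                (CovZ.leaf K2_ok TF_l15416 _)))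
              (CovZ.n1 (23720, 11160) (by decide +kernel)
               (CovZ.leaf K2_ok TF_l15417 _)
               (CovZ.n1 (23760, 11160) (by decide +kernel)
                (CovZ.leaf K2_ok TF_l15418 _)
                (CovZ.leaf K2_ok TF_l15419 _))))
             (CovZ.badM (by decide +kernel))))))
         (CovZ.n1 (24000, 11520) (by decide +kernel)
          (CovZ.badM (by decide +kernel))
          (CovZ.n1 (23840, 11360) (by decide +kernel)
           (CovZ.n2 (23840, 11520) (by decide +kernel)
            (CovZ.badM (by decide +kernel))
            (CovZ.n1 (23760, 11440) (by decide +kernel)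
             (CovZ.n2 (23760, 11520) (by decide +kernel)
              (CovZ.n2 (23800, 11480) (by decide +kernel)
               (CovZ.leaf K2_ok TF_l15420 _)
               (CovZ.n1 (23800, 11520) (by decide +kernel)
                (CovZ.leaf K2_ok TF_l15421 _)
                (CovZ.leaf K2_ok TF_l15422 _)))
              (CovZ.leaf K2_ok TF_l15423 _))
             (CovZ.n1 (23840, 11440) (by decide +kernel)
              (CovZ.n2 (23800, 11400) (by decide +kernel)
               (CovZ.n2 (23800, 11440) (by decide +kernel)
                (CovZ.leaf K2_ok TF_l15424 _)
                (CovZ.leaf K2_ok TF_l15425 _))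
               (CovZ.badM (by decide +kernel)))
              (CovZ.n1 (23800, 11480) (by decide +kernel)
               (CovZ.n2 (23840, 11480) (by decide +kernel)
                (CovZ.leaf K2_ok TF_l15426 _)
                (CovZ.leaf K2_ok TF_l15427 _))
               (CovZ.leaf K2_ok TF_l15428 _)))))
           (CovZ.badM (by decide +kernel))))))
       (CovZ.n1 (23360, 11200) (by decide +kernel)
        (CovZ.n2 (23360, 11520) (by decide +kernel)
         (CovZ.subM 304592638145092116299776 (by decide +kernel)
          (CovZ.n2 (23520, 11360) (by decide +kernel)
           (CovZ.n2 (23360, 11360) (by decide +kernel)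
            (CovZ.leaf K2_ok TF_l15429 _)
            (CovZ.n1 (23440, 11280) (by decide +kernel)
             (CovZ.leaf K2_ok TF_l15430 _)
             (CovZ.leaf K2_ok TF_l15431 _)))
           (CovZ.n1 (23520, 11520) (by decide +kernel)
            (CovZ.n2 (23600, 11440) (by decide +kernel)
             (CovZ.leaf K2_ok TF_l15432 _)
             (CovZ.leaf K2_ok TF_l15433 _))
            (CovZ.leaf K2_ok TF_l15434 _))))
         (CovZ.n1 (23200, 11360) (by decide +kernel)
          (CovZ.leaf K2_ok TF_l15435 _)
          (CovZ.n1 (23360, 11360) (by decide +kernel)
           (CovZ.leaf K2_ok TF_l15436 _)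
           (CovZ.leaf K2_ok TF_l15437 _))))
        (CovZ.subM 304592638145092116283392 (by decide +kernel)
         (CovZ.n1 (23680, 11200) (by decide +kernel)
          (CovZ.n2 (23520, 11040) (by decide +kernel)
           (CovZ.n2 (23520, 11200) (by decide +kernel)
            (CovZ.n2 (23600, 11120) (by decide +kernel)
             (CovZ.leaf K2_ok TF_l15438 _)
             (CovZ.n1 (23600, 11200) (by decide +kernel)
              (CovZ.leaf K2_ok TF_l15439 _)
              (CovZ.leaf K2_ok TF_l15440 _)))
            (CovZ.n1 (23440, 11120) (by decide +kernel)
             (CovZ.leaf K2_ok TF_l15441 _)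
             (CovZ.leaf K2_ok TF_l15442 _)))
           (CovZ.n1 (23680, 11040) (by decide +kernel)
            (CovZ.n2 (23600, 10960) (by decide +kernel)
             (CovZ.n2 (23600, 11040) (by decide +kernel)
              (CovZ.leaf K2_ok TF_l15443 _)
              (CovZ.leaf K2_ok TF_l15444 _))
             (CovZ.badM (by decide +kernel)))
            (CovZ.n1 (23600, 11120) (by decide +kernel)
             (CovZ.n2 (23680, 11120) (by decide +kernel)
              (CovZ.leaf K2_ok TF_l15445 _)
              (CovZ.leaf K2_ok TF_l15446 _))
             (CovZ.leaf K2_ok TF_l15447 _))))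
          (CovZ.n1 (23520, 11360) (by decide +kernel)
           (CovZ.n2 (23680, 11360) (by decide +kernel)
            (CovZ.n2 (23600, 11280) (by decide +kernel)
             (CovZ.n2 (23600, 11360) (by decide +kernel)
              (CovZ.leaf K2_ok TF_l15448 _)
              (CovZ.leaf K2_ok TF_l15449 _))
             (CovZ.n1 (23680, 11280) (by decide +kernel)
              (CovZ.leaf K2_ok TF_l15450 _)
              (CovZ.leaf K2_ok TF_l15451 _)))
            (CovZ.n1 (23600, 11440) (by decide +kernel)
             (CovZ.n2 (23680, 11440) (by decide +kernel)
              (CovZ.leaf K2_ok TF_l15452 _)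
              (CovZ.leaf K2_ok TF_l15453 _))
             (CovZ.leaf K2_ok TF_l15454 _)))
           (CovZ.n1 (23520, 11200) (by decide +kernel)
            (CovZ.n2 (23440, 11280) (by decide +kernel)
             (CovZ.leaf K2_ok TF_l15455 _)
             (CovZ.leaf K2_ok TF_l15456 _))
            (CovZ.leaf K2_ok TF_l15457 _)))))))

theorem TF_u102 : CovZ TF_M (toL (selN TF_LN 171473656661597773090738851908583170048)) [0, 7, 4, 3] (-5120, 15360) (-6400, 14080) (-5120, 12800) :=
    (CovZ.n2 (-5120, 14080) (by decide +kernel)
     (CovZ.subM 3245205343625486129726592175316992 (by decide +kernel)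
      (CovZ.n2 (-5760, 13440) (by decide +kernel)
       (CovZ.n2 (-5760, 14080) (by decide +kernel)
        (CovZ.n2 (-5440, 13760) (by decide +kernel)
         (CovZ.subM 590295810358705651712 (by decide +kernel)
          (CovZ.n2 (-5760, 13760) (by decide +kernel)
           (CovZ.n2 (-5600, 13920) (by decide +kernel)
            (CovZ.n2 (-5600, 13760) (by decide +kernel)
             (CovZ.n2 (-5680, 13840) (by decide +kernel)
              (CovZ.n2 (-5600, 13840) (by decide +kernel)
               (CovZ.leaf K2_ok TF_l2 _)
               (CovZ.leaf K2_ok TF_l3 _))
              (CovZ.n1 (-5680, 13760) (by decide +kernel)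
               (CovZ.badM (by decide +kernel))
               (CovZ.leaf K2_ok TF_l5 _)))
             (CovZ.leaf K2_ok TF_l6 _))
            (CovZ.badM (by decide +kernel)))
           (CovZ.n1 (-5600, 13600) (by decide +kernel)
            (CovZ.n2 (-5760, 13600) (by decide +kernel)
             (CovZ.n2 (-5680, 13680) (by decide +kernel)
              (CovZ.n2 (-5680, 13600) (by decide +kernel)
               (CovZ.n2 (-5720, 13640) (by decide +kernel)
                (CovZ.leaf K2_ok TF_l8520 _)
                (CovZ.leaf K2_ok TF_l8521 _))
               (CovZ.leaf K2_ok TF_l8522 _))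
              (CovZ.badM (by decide +kernel)))
             (CovZ.n1 (-5680, 13520) (by decide +kernel)
              (CovZ.n2 (-5760, 13520) (by decide +kernel)
               (CovZ.n2 (-5720, 13560) (by decide +kernel)
                (CovZ.leaf K2_ok TF_l8523 _)
                (CovZ.badM (by decide +kernel)))
               (CovZ.n1 (-5720, 13480) (by decide +kernel)
                (CovZ.n2 (-5760, 13480) (by decide +kernel)
                 (CovZ.leaf K2_ok TF_l8524 _)
                 (CovZ.badM (by decide +kernel)))
                (CovZ.n1 (-5720, 13520) (by decide +kernel)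
                 (CovZ.badM (by decide +kernel))
                 (CovZ.leaf K2_ok TF_l8525 _))))
              (CovZ.n1 (-5680, 13600) (by decide +kernel)
               (CovZ.leaf K2_ok TF_l8526 _)
               (CovZ.n1 (-5720, 13560) (by decide +kernel)
                (CovZ.n2 (-5720, 13600) (by decide +kernel)
                 (CovZ.leaf K2_ok TF_l8527 _)
                 (CovZ.badM (by decide +kernel)))
                (CovZ.leaf K2_ok TF_l8528 _)))))
            (CovZ.n1 (-5600, 13760) (by decide +kernel)
             (CovZ.n2 (-5520, 13680) (by decide +kernel)
              (CovZ.leaf K2_ok TF_l16 _)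
              (CovZ.leaf K2_ok TF_l17 _))
             (CovZ.n1 (-5680, 13680) (by decide +kernel)
              (CovZ.n2 (-5680, 13760) (by decide +kernel)
               (CovZ.leaf K2_ok TF_l18 _)
               (CovZ.badM (by decide +kernel)))
              (CovZ.n1 (-5600, 13680) (by decide +kernel)
               (CovZ.leaf K2_ok TF_l21 _)
               (CovZ.leaf K2_ok TF_l22 _)))))))
         (CovZ.n1 (-5440, 14080) (by decide +kernel)
          (CovZ.n2 (-5280, 13920) (by decide +kernel)
           (CovZ.leaf K2_ok TF_l23 _)
           (CovZ.leaf K2_ok TF_l24 _))
          (CovZ.subM 590295810358705651712 (by decide +kernel)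
           (CovZ.n1 (-5600, 13920) (by decide +kernel)
            (CovZ.n2 (-5600, 14080) (by decide +kernel)
             (CovZ.leaf K2_ok TF_l25 _)
             (CovZ.badM (by decide +kernel)))
            (CovZ.n1 (-5440, 13920) (by decide +kernel)
             (CovZ.leaf K2_ok TF_l29 _)
             (CovZ.leaf K2_ok TF_l30 _))))))
        (CovZ.badM (by decide +kernel)))
       (CovZ.n1 (-5120, 13440) (by decide +kernel)
        (CovZ.n2 (-5440, 13120) (by decide +kernel)
         (CovZ.subM 3245205343624895833915958591750144 (by decide +kernel)
          (CovZ.n2 (-5440, 13440) (by decide +kernel)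
           (CovZ.n2 (-5280, 13280) (by decide +kernel)
            (CovZ.n2 (-5440, 13280) (by decide +kernel)
             (CovZ.leaf K2_ok TF_l45 _)
             (CovZ.leaf K2_ok TF_l46 _))
            (CovZ.n1 (-5280, 13440) (by decide +kernel)
             (CovZ.leaf K2_ok TF_l47 _)
             (CovZ.leaf K2_ok TF_l48 _)))
           (CovZ.n1 (-5600, 13280) (by decide +kernel)
            (CovZ.badM (by decide +kernel))
            (CovZ.n1 (-5440, 13280) (by decide +kernel)
             (CovZ.n2 (-5520, 13200) (by decide +kernel)
              (CovZ.leaf K2_ok TF_l49 _)
              (CovZ.leaf K2_ok TF_l50 _))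
             (CovZ.n1 (-5520, 13360) (by decide +kernel)
              (CovZ.leaf K2_ok TF_l51 _)
              (CovZ.leaf K2_ok TF_l52 _))))))
         (CovZ.n1 (-5120, 13120) (by decide +kernel)
          (CovZ.n2 (-5280, 12960) (by decide +kernel)
           (CovZ.n2 (-5280, 13120) (by decide +kernel)
            (CovZ.leaf K2_ok TF_l53 _)
            (CovZ.leaf K2_ok TF_l54 _))
           (CovZ.leaf K2_ok TF_l55 _))
          (CovZ.n1 (-5280, 13280) (by decide +kernel)
           (CovZ.leaf K2_ok TF_l56 _)
           (CovZ.leaf K2_ok TF_l57 _))))
        (CovZ.n1 (-5440, 13760) (by decide +kernel)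
         (CovZ.n2 (-5120, 13760) (by decide +kernel)
          (CovZ.n2 (-5280, 13600) (by decide +kernel)
           (CovZ.leaf K2_ok TF_l58 _)
           (CovZ.leaf K2_ok TF_l59 _))
          (CovZ.n1 (-5280, 13920) (by decide +kernel)
           (CovZ.leaf K2_ok TF_l60 _)
           (CovZ.leaf K2_ok TF_l61 _)))
         (CovZ.n1 (-5440, 13440) (by decide +kernel)
          (CovZ.badM (by decide +kernel))
          (CovZ.leaf K2_ok TF_l66 _))))))
     (CovZ.n1 (-5760, 14720) (by decide +kernel)
      (CovZ.n2 (-5120, 14720) (by decide +kernel)
       (CovZ.subM 3245205343625486147740715806892032 (by decide +kernel)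
        (CovZ.n2 (-5440, 14400) (by decide +kernel)
         (CovZ.n2 (-5440, 14720) (by decide +kernel)
          (CovZ.n2 (-5280, 14560) (by decide +kernel)
           (CovZ.leaf K2_ok TF_l67 _)
           (CovZ.leaf K2_ok TF_l68 _))
          (CovZ.n1 (-5600, 14560) (by decide +kernel)
           (CovZ.n2 (-5600, 14720) (by decide +kernel)
            (CovZ.leaf K2_ok TF_l69 _)
            (CovZ.leaf K2_ok TF_l70 _))
           (CovZ.leaf K2_ok TF_l71 _)))
         (CovZ.n1 (-5120, 14400) (by decide +kernel)
          (CovZ.n2 (-5280, 14240) (by decide +kernel)
           (CovZ.leaf K2_ok TF_l72 _)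
           (CovZ.leaf K2_ok TF_l73 _))
          (CovZ.leaf K2_ok TF_l74 _))))
       (CovZ.subM 649037107317443767391210990215168 (by decide +kernel)
        (CovZ.n1 (-5440, 15040) (by decide +kernel)
         (CovZ.leaf K2_ok TF_l75 _)
         (CovZ.n1 (-5440, 14720) (by decide +kernel)
          (CovZ.n2 (-5600, 14880) (by decide +kernel)
           (CovZ.leaf K2_ok TF_l76 _)
           (CovZ.leaf K2_ok TF_l77 _))
          (CovZ.leaf K2_ok TF_l78 _)))))
      (CovZ.subM 3245205343625486147740715806892032 (by decide +kernel)
       (CovZ.n1 (-5760, 14080) (by decide +kernel)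
        (CovZ.subM 18014398509490176 (by decide +kernel)
         (CovZ.n2 (-6080, 14400) (by decide +kernel)
          (CovZ.n2 (-5760, 14400) (by decide +kernel)
           (CovZ.badM (by decide +kernel))
           (CovZ.n1 (-5920, 14560) (by decide +kernel)
            (CovZ.n2 (-5760, 14560) (by decide +kernel)
             (CovZ.badM (by decide +kernel))
             (CovZ.n1 (-5840, 14640) (by decide +kernel)
              (CovZ.leaf K2_ok TF_l8529 _)
              (CovZ.badM (by decide +kernel))))
            (CovZ.badM (by decide +kernel))))
          (CovZ.badM (by decide +kernel))))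
        (CovZ.n1 (-5440, 14400) (by decide +kernel)
         (CovZ.n2 (-5440, 14080) (by decide +kernel)
          (CovZ.subM 590295810358705659904 (by decide +kernel)
           (CovZ.n2 (-5600, 14240) (by decide +kernel)
            (CovZ.n2 (-5440, 14240) (by decide +kernel)
             (CovZ.leaf K2_ok TF_l79 _)
             (CovZ.leaf K2_ok TF_l80 _))
            (CovZ.n1 (-5600, 14080) (by decide +kernel)
             (CovZ.badM (by decide +kernel))
             (CovZ.leaf K2_ok TF_l83 _))))
          (CovZ.leaf K2_ok TF_l84 _))
         (CovZ.subM 18014398509490176 (by decide +kernel)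
          (CovZ.n1 (-5760, 14400) (by decide +kernel)
           (CovZ.n2 (-5600, 14560) (by decide +kernel)
            (CovZ.leaf K2_ok TF_l85 _)
            (CovZ.n1 (-5760, 14560) (by decide +kernel)
             (CovZ.leaf K2_ok TF_l86 _)
             (CovZ.n1 (-5680, 14480) (by decide +kernel)
              (CovZ.badM (by decide +kernel))
              (CovZ.leaf K2_ok TF_l88 _))))
           (CovZ.n1 (-5600, 14240) (by decide +kernel)
            (CovZ.badM (by decide +kernel))
            (CovZ.n1 (-5600, 14400) (by decide +kernel)
             (CovZ.leaf K2_ok TF_l92 _)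
             (CovZ.badM (by decide +kernel)))))))))))

theorem TF_u103 : CovZ TF_M (toL (selN TF_LN 171473656661597773090738851908583170048)) [0, 7, 4, 3] (-6400, 14080) (-7680, 12800) (-5120, 12800) :=
    (CovZ.subM 3245205343625486129726592175308800 (by decide +kernel)
     (CovZ.n1 (-6400, 12800) (by decide +kernel)
      (CovZ.n2 (-7040, 13440) (by decide +kernel)
       (CovZ.n2 (-6400, 13440) (by decide +kernel)
        (CovZ.badM (by decide +kernel))
        (CovZ.badM (by decide +kernel)))
       (CovZ.badM (by decide +kernel)))
      (CovZ.n1 (-5760, 13440) (by decide +kernel)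
       (CovZ.n2 (-5760, 12800) (by decide +kernel)
        (CovZ.n2 (-6080, 13120) (by decide +kernel)
         (CovZ.n2 (-5760, 13120) (by decide +kernel)
          (CovZ.n2 (-5920, 12960) (by decide +kernel)
           (CovZ.n2 (-5920, 13120) (by decide +kernel)
            (CovZ.n2 (-5840, 13040) (by decide +kernel)
             (CovZ.badM (by decide +kernel))
             (CovZ.badM (by decide +kernel)))
            (CovZ.badM (by decide +kernel)))
           (CovZ.n1 (-5760, 12960) (by decide +kernel)
            (CovZ.badM (by decide +kernel))
            (CovZ.n1 (-5840, 13040) (by decide +kernel)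
             (CovZ.n2 (-5760, 13040) (by decide +kernel)
              (CovZ.badM (by decide +kernel))
              (CovZ.badM (by decide +kernel)))
             (CovZ.badM (by decide +kernel)))))
          (CovZ.badM (by decide +kernel)))
         (CovZ.badM (by decide +kernel)))
        (CovZ.n1 (-5440, 13120) (by decide +kernel)
         (CovZ.n2 (-5440, 12800) (by decide +kernel)
          (CovZ.n2 (-5600, 12960) (by decide +kernel)
           (CovZ.n2 (-5440, 12960) (by decide +kernel)
            (CovZ.n2 (-5520, 12880) (by decide +kernel)
             (CovZ.n2 (-5520, 12960) (by decide +kernel)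
              (CovZ.leaf K2_ok TF_l8530 _)
              (CovZ.leaf K2_ok TF_l8531 _))
             (CovZ.leaf K2_ok TF_l8532 _))
            (CovZ.n1 (-5520, 13040) (by decide +kernel)
             (CovZ.leaf K2_ok TF_l95 _)
             (CovZ.leaf K2_ok TF_l96 _)))
           (CovZ.n1 (-5600, 12800) (by decide +kernel)
            (CovZ.n2 (-5680, 12880) (by decide +kernel)
             (CovZ.n2 (-5600, 12880) (by decide +kernel)
              (CovZ.badM (by decide +kernel))
              (CovZ.n1 (-5640, 12920) (by decide +kernel)
               (CovZ.leaf K2_ok TF_l8533 _)
               (CovZ.badM (by decide +kernel))))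
             (CovZ.badM (by decide +kernel)))
            (CovZ.n1 (-5520, 12880) (by decide +kernel)
             (CovZ.leaf K2_ok TF_l8534 _)
             (CovZ.leaf K2_ok TF_l8535 _))))
          (CovZ.n1 (-5280, 12960) (by decide +kernel)
           (CovZ.leaf K2_ok TF_l97 _)
           (CovZ.n1 (-5440, 12960) (by decide +kernel)
            (CovZ.leaf K2_ok TF_l98 _)
            (CovZ.leaf K2_ok TF_l99 _))))
         (CovZ.n1 (-5760, 13120) (by decide +kernel)
          (CovZ.n2 (-5600, 13280) (by decide +kernel)
           (CovZ.n2 (-5600, 13120) (by decide +kernel)
            (CovZ.badM (by decide +kernel))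
            (CovZ.leaf K2_ok TF_l107 _))
           (CovZ.badM (by decide +kernel)))
          (CovZ.n1 (-5600, 12960) (by decide +kernel)
           (CovZ.n2 (-5760, 12960) (by decide +kernel)
            (CovZ.n2 (-5680, 13040) (by decide +kernel)
             (CovZ.n2 (-5680, 12960) (by decide +kernel)
              (CovZ.n2 (-5720, 13000) (by decide +kernel)
               (CovZ.n2 (-5680, 13000) (by decide +kernel)
                (CovZ.leaf K2_ok TF_l8536 _)
                (CovZ.leaf K2_ok TF_l8537 _))
               (CovZ.badM (by decide +kernel)))
              (CovZ.leaf K2_ok TF_l8538 _))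
             (CovZ.n1 (-5760, 13040) (by decide +kernel)
              (CovZ.badM (by decide +kernel))
              (CovZ.n1 (-5720, 13000) (by decide +kernel)
               (CovZ.badM (by decide +kernel))
               (CovZ.n1 (-5720, 13040) (by decide +kernel)
                (CovZ.leaf K2_ok TF_l8539 _)
                (CovZ.n1 (-5740, 13020) (by decide +kernel)
                 (CovZ.badM (by decide +kernel))
                 (CovZ.leaf K2_ok TF_l8540 _))))))
            (CovZ.n1 (-5680, 12880) (by decide +kernel)
             (CovZ.badM (by decide +kernel))
             (CovZ.n1 (-5680, 12960) (by decide +kernel)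
              (CovZ.n2 (-5640, 12920) (by decide +kernel)
               (CovZ.badM (by decide +kernel))
               (CovZ.leaf K2_ok TF_l8541 _))
              (CovZ.badM (by decide +kernel)))))
           (CovZ.n1 (-5600, 13120) (by decide +kernel)
            (CovZ.n2 (-5520, 13040) (by decide +kernel)
             (CovZ.leaf K2_ok TF_l108 _)
             (CovZ.n1 (-5520, 13120) (by decide +kernel)
              (CovZ.leaf K2_ok TF_l109 _)
              (CovZ.badM (by decide +kernel))))
            (CovZ.n1 (-5680, 13040) (by decide +kernel)
             (CovZ.badM (by decide +kernel))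
             (CovZ.n1 (-5600, 13040) (by decide +kernel)
              (CovZ.n2 (-5640, 13000) (by decide +kernel)
               (CovZ.leaf K2_ok TF_l8542 _)
               (CovZ.leaf K2_ok TF_l8543 _))
              (CovZ.badM (by decide +kernel)))))))))
       (CovZ.n1 (-6400, 13440) (by decide +kernel)
        (CovZ.badM (by decide +kernel))
        (CovZ.n1 (-6080, 13120) (by decide +kernel)
         (CovZ.badM (by decide +kernel))
         (CovZ.badM (by decide +kernel)))))))

theorem TF_u104 : CovZ TF_M (toL (selN TF_LN 178408729040932209946105512733417967997444160)) [0, 7, 4, 3] (21760, 14080) (23040, 15360) (20480, 15360) :=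
    (CovZ.n1 (21760, 15360) (by decide +kernel)
     (CovZ.subM 178406006781996841819425424910626941579558912 (by decide +kernel)
      (CovZ.n2 (22400, 14720) (by decide +kernel)
       (CovZ.n2 (21760, 14720) (by decide +kernel)
        (CovZ.n2 (22080, 15040) (by decide +kernel)
         (CovZ.n2 (22080, 14720) (by decide +kernel)
          (CovZ.n2 (21920, 14880) (by decide +kernel)
           (CovZ.badM (by decide +kernel))
           (CovZ.n1 (21920, 14720) (by decide +kernel)
            (CovZ.n2 (21840, 14800) (by decide +kernel)
             (CovZ.badM (by decide +kernel))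
             (CovZ.leaf K2_ok TF_l14800 _))
            (CovZ.badM (by decide +kernel))))
          (CovZ.badM (by decide +kernel)))
         (CovZ.n1 (21760, 15040) (by decide +kernel)
          (CovZ.n2 (21920, 15200) (by decide +kernel)
           (CovZ.n2 (21920, 15040) (by decide +kernel)
            (CovZ.n2 (21840, 15120) (by decide +kernel)
             (CovZ.n2 (21920, 15120) (by decide +kernel)
              (CovZ.n2 (21880, 15080) (by decide +kernel)
               (CovZ.n2 (21880, 15120) (by decide +kernel)
                (CovZ.badM (by decide +kernel))
                (CovZ.leaf K2_ok TF_l14801 _))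
               (CovZ.badM (by decide +kernel)))
              (CovZ.n1 (21880, 15160) (by decide +kernel)
               (CovZ.badM (by decide +kernel))
               (CovZ.n1 (21880, 15120) (by decide +kernel)
                (CovZ.leaf K2_ok TF_l14802 _)
                (CovZ.badM (by decide +kernel)))))
             (CovZ.n1 (21840, 15040) (by decide +kernel)
              (CovZ.n2 (21800, 15080) (by decide +kernel)
               (CovZ.leaf K2_ok TF_l14803 _)
               (CovZ.leaf K2_ok TF_l14804 _))
              (CovZ.n1 (21880, 15080) (by decide +kernel)
               (CovZ.n2 (21880, 15040) (by decide +kernel)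
                (CovZ.leaf K2_ok TF_l14805 _)
                (CovZ.badM (by decide +kernel)))
               (CovZ.leaf K2_ok TF_l14806 _))))
            (CovZ.badM (by decide +kernel)))
           (CovZ.n1 (21760, 15200) (by decide +kernel)
            (CovZ.n2 (21840, 15280) (by decide +kernel)
             (CovZ.n2 (21840, 15200) (by decide +kernel)
              (CovZ.n2 (21800, 15240) (by decide +kernel)
               (CovZ.n2 (21840, 15240) (by decide +kernel)
                (CovZ.leaf K2_ok TF_l14807 _)
                (CovZ.leaf K2_ok TF_l14808 _))
               (CovZ.leaf K2_ok TF_l14809 _))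
              (CovZ.n1 (21880, 15240) (by decide +kernel)
               (CovZ.n2 (21880, 15200) (by decide +kernel)
                (CovZ.n2 (21860, 15220) (by decide +kernel)
                 (CovZ.leaf K2_ok TF_l14810 _)
                 (CovZ.leaf K2_ok TF_l14811 _))
                (CovZ.badM (by decide +kernel)))
               (CovZ.n1 (21840, 15240) (by decide +kernel)
                (CovZ.leaf K2_ok TF_l14812 _)
                (CovZ.n1 (21860, 15220) (by decide +kernel)
                 (CovZ.leaf K2_ok TF_l14813 _)
                 (CovZ.leaf K2_ok TF_l14814 _)))))
             (CovZ.n1 (21760, 15280) (by decide +kernel)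
              (CovZ.leaf K2_ok TF_l14815 _)
              (CovZ.n1 (21800, 15240) (by decide +kernel)
               (CovZ.leaf K2_ok TF_l14816 _)
               (CovZ.leaf K2_ok TF_l14817 _))))
            (CovZ.n1 (21840, 15120) (by decide +kernel)
             (CovZ.n2 (21760, 15120) (by decide +kernel)
              (CovZ.leaf K2_ok TF_l14818 _)
              (CovZ.n1 (21800, 15080) (by decide +kernel)
               (CovZ.leaf K2_ok TF_l14819 _)
               (CovZ.leaf K2_ok TF_l14820 _)))
             (CovZ.n1 (21840, 15200) (by decide +kernel)
              (CovZ.n2 (21880, 15160) (by decide +kernel)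
               (CovZ.n2 (21840, 15160) (by decide +kernel)
                (CovZ.leaf K2_ok TF_l14821 _)
                (CovZ.leaf K2_ok TF_l14822 _))
               (CovZ.n1 (21880, 15200) (by decide +kernel)
                (CovZ.badM (by decide +kernel))
                (CovZ.n1 (21860, 15180) (by decide +kernel)
                 (CovZ.leaf K2_ok TF_l14823 _)
                 (CovZ.leaf K2_ok TF_l14824 _))))
              (CovZ.n1 (21800, 15160) (by decide +kernel)
               (CovZ.leaf K2_ok TF_l14825 _)
               (CovZ.n1 (21840, 15160) (by decide +kernel)
                (CovZ.leaf K2_ok TF_l14826 _)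
                (CovZ.leaf K2_ok TF_l14827 _)))))))
          (CovZ.n1 (21920, 14880) (by decide +kernel)
           (CovZ.n2 (21760, 14880) (by decide +kernel)
            (CovZ.n2 (21840, 14960) (by decide +kernel)
             (CovZ.n2 (21840, 14880) (by decide +kernel)
              (CovZ.leaf K2_ok TF_l14828 _)
              (CovZ.badM (by decide +kernel)))
             (CovZ.leaf K2_ok TF_l14829 _))
            (CovZ.n1 (21840, 14800) (by decide +kernel)
             (CovZ.leaf K2_ok TF_l14830 _)
             (CovZ.n1 (21840, 14880) (by decide +kernel)
              (CovZ.badM (by decide +kernel))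
              (CovZ.leaf K2_ok TF_l14831 _))))
           (CovZ.n1 (21920, 15040) (by decide +kernel)
            (CovZ.badM (by decide +kernel))
            (CovZ.n1 (21840, 14960) (by decide +kernel)
             (CovZ.n2 (21840, 15040) (by decide +kernel)
              (CovZ.n2 (21880, 15000) (by decide +kernel)
               (CovZ.leaf K2_ok TF_l14832 _)
               (CovZ.n1 (21880, 15040) (by decide +kernel)
                (CovZ.badM (by decide +kernel))
                (CovZ.leaf K2_ok TF_l14833 _)))
              (CovZ.leaf K2_ok TF_l14834 _))
             (CovZ.badM (by decide +kernel)))))))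
        (CovZ.n1 (22080, 14400) (by decide +kernel)
         (CovZ.n2 (21760, 14400) (by decide +kernel)
          (CovZ.n2 (21920, 14560) (by decide +kernel)
           (CovZ.n2 (21920, 14400) (by decide +kernel)
            (CovZ.leaf K2_ok TF_l14835 _)
            (CovZ.leaf K2_ok TF_l14836 _))
           (CovZ.n1 (21760, 14560) (by decide +kernel)
            (CovZ.leaf K2_ok TF_l14837 _)
            (CovZ.leaf K2_ok TF_l14838 _)))
          (CovZ.n1 (21920, 14240) (by decide +kernel)
           (CovZ.leaf K2_ok TF_l14839 _)
           (CovZ.n1 (21920, 14400) (by decide +kernel)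
            (CovZ.n2 (22000, 14320) (by decide +kernel)
             (CovZ.leaf K2_ok TF_l14840 _)
             (CovZ.leaf K2_ok TF_l14841 _))
            (CovZ.leaf K2_ok TF_l14842 _))))
         (CovZ.n1 (22080, 14720) (by decide +kernel)
          (CovZ.n2 (22240, 14560) (by decide +kernel)
           (CovZ.n2 (22080, 14560) (by decide +kernel)
            (CovZ.badM (by decide +kernel))
            (CovZ.n1 (22160, 14480) (by decide +kernel)
             (CovZ.n2 (22080, 14480) (by decide +kernel)
              (CovZ.badM (by decide +kernel))
              (CovZ.n1 (22120, 14440) (by decide +kernel)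
               (CovZ.leaf K2_ok TF_l14843 _)
               (CovZ.leaf K2_ok TF_l14844 _)))
             (CovZ.badM (by decide +kernel))))
           (CovZ.badM (by decide +kernel)))
          (CovZ.n1 (21920, 14560) (by decide +kernel)
           (CovZ.n2 (21920, 14720) (by decide +kernel)
            (CovZ.badM (by decide +kernel))
            (CovZ.n1 (21840, 14640) (by decide +kernel)
             (CovZ.n2 (21840, 14720) (by decide +kernel)
              (CovZ.badM (by decide +kernel))
              (CovZ.leaf K2_ok TF_l14845 _))
             (CovZ.badM (by decide +kernel))))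
           (CovZ.n1 (22080, 14560) (by decide +kernel)
            (CovZ.n2 (22000, 14480) (by decide +kernel)
             (CovZ.n2 (22000, 14560) (by decide +kernel)
              (CovZ.n2 (22040, 14520) (by decide +kernel)
               (CovZ.leaf K2_ok TF_l14846 _)
               (CovZ.badM (by decide +kernel)))
              (CovZ.leaf K2_ok TF_l14847 _))
             (CovZ.n1 (22080, 14480) (by decide +kernel)
              (CovZ.leaf K2_ok TF_l14848 _)
              (CovZ.n1 (22040, 14520) (by decide +kernel)
               (CovZ.badM (by decide +kernel))
               (CovZ.leaf K2_ok TF_l14849 _))))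
            (CovZ.badM (by decide +kernel)))))))
       (CovZ.n1 (22400, 15360) (by decide +kernel)
        (CovZ.badM (by decide +kernel))
        (CovZ.n1 (22080, 15040) (by decide +kernel)
         (CovZ.n2 (22080, 15360) (by decide +kernel)
          (CovZ.badM (by decide +kernel))
          (CovZ.n1 (21920, 15200) (by decide +kernel)
           (CovZ.badM (by decide +kernel))
           (CovZ.badM (by decide +kernel))))
         (CovZ.badM (by decide +kernel))))))
     (CovZ.n1 (21120, 14720) (by decide +kernel)
      (CovZ.subM 178406006781996842438397805736558513851727872 (by decide +kernel)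
       (CovZ.n2 (21120, 15360) (by decide +kernel)
        (CovZ.n2 (21440, 15040) (by decide +kernel)
         (CovZ.leaf K2_ok TF_l14850 _)
         (CovZ.n1 (21440, 15360) (by decide +kernel)
          (CovZ.n2 (21600, 15200) (by decide +kernel)
           (CovZ.leaf K2_ok TF_l14851 _)
           (CovZ.n1 (21600, 15360) (by decide +kernel)
            (CovZ.n2 (21680, 15280) (by decide +kernel)
             (CovZ.leaf K2_ok TF_l14852 _)
             (CovZ.n1 (21680, 15360) (by decide +kernel)
              (CovZ.n2 (21720, 15320) (by decide +kernel)
               (CovZ.leaf K2_ok TF_l14853 _)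
               (CovZ.leaf K2_ok TF_l14854 _))
              (CovZ.leaf K2_ok TF_l14855 _)))
            (CovZ.n1 (21520, 15280) (by decide +kernel)
             (CovZ.leaf K2_ok TF_l14856 _)
             (CovZ.leaf K2_ok TF_l14857 _))))
          (CovZ.n1 (21280, 15200) (by decide +kernel)
           (CovZ.leaf K2_ok TF_l14858 _)
           (CovZ.n1 (21440, 15200) (by decide +kernel)
            (CovZ.leaf K2_ok TF_l14859 _)
            (CovZ.leaf K2_ok TF_l14860 _)))))
        (CovZ.n1 (20800, 15040) (by decide +kernel)
         (CovZ.n2 (20800, 15360) (by decide +kernel)
          (CovZ.leaf K2_ok TF_l6684 _)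
          (CovZ.leaf K2_ok TF_l6685 _))
         (CovZ.n1 (21120, 15040) (by decide +kernel)
          (CovZ.leaf K2_ok TF_l6686 _)
          (CovZ.leaf K2_ok TF_l6687 _)))))
      (CovZ.subM 178406006781996842438395444553317079029121024 (by decide +kernel)
       (CovZ.n1 (21760, 14720) (by decide +kernel)
        (CovZ.n2 (21440, 14400) (by decide +kernel)
         (CovZ.n2 (21440, 14720) (by decide +kernel)
          (CovZ.n2 (21600, 14560) (by decide +kernel)
           (CovZ.leaf K2_ok TF_l14861 _)
           (CovZ.n1 (21600, 14720) (by decide +kernel)
            (CovZ.leaf K2_ok TF_l14862 _)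
            (CovZ.leaf K2_ok TF_l14863 _)))
          (CovZ.leaf K2_ok TF_l14864 _))
         (CovZ.n1 (21760, 14400) (by decide +kernel)
          (CovZ.n2 (21600, 14240) (by decide +kernel)
           (CovZ.leaf K2_ok TF_l14865 _)
           (CovZ.leaf K2_ok TF_l14866 _))
          (CovZ.n1 (21600, 14560) (by decide +kernel)
           (CovZ.n2 (21760, 14560) (by decide +kernel)
            (CovZ.leaf K2_ok TF_l14867 _)
            (CovZ.leaf K2_ok TF_l14868 _))
           (CovZ.leaf K2_ok TF_l14869 _))))
        (CovZ.n1 (21440, 15040) (by decide +kernel)
         (CovZ.n2 (21760, 15040) (by decide +kernel)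
          (CovZ.n2 (21600, 14880) (by decide +kernel)
           (CovZ.n2 (21600, 15040) (by decide +kernel)
            (CovZ.n2 (21680, 14960) (by decide +kernel)
             (CovZ.leaf K2_ok TF_l14870 _)
             (CovZ.leaf K2_ok TF_l14871 _))
            (CovZ.leaf K2_ok TF_l14872 _))
           (CovZ.n1 (21760, 14880) (by decide +kernel)
            (CovZ.n2 (21680, 14800) (by decide +kernel)
             (CovZ.leaf K2_ok TF_l14873 _)
             (CovZ.leaf K2_ok TF_l14874 _))
            (CovZ.n1 (21680, 14960) (by decide +kernel)
             (CovZ.leaf K2_ok TF_l14875 _)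
             (CovZ.leaf K2_ok TF_l14876 _))))
          (CovZ.n1 (21600, 15200) (by decide +kernel)
           (CovZ.n2 (21760, 15200) (by decide +kernel)
            (CovZ.n2 (21680, 15120) (by decide +kernel)
             (CovZ.leaf K2_ok TF_l14877 _)
             (CovZ.n1 (21760, 15120) (by decide +kernel)
              (CovZ.leaf K2_ok TF_l14878 _)
              (CovZ.leaf K2_ok TF_l14879 _)))
            (CovZ.n1 (21680, 15280) (by decide +kernel)
             (CovZ.n2 (21760, 15280) (by decide +kernel)
              (CovZ.leaf K2_ok TF_l14880 _)
              (CovZ.n1 (21720, 15320) (by decide +kernel)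
               (CovZ.leaf K2_ok TF_l14881 _)
               (CovZ.leaf K2_ok TF_l14882 _)))
             (CovZ.leaf K2_ok TF_l14883 _)))
           (CovZ.leaf K2_ok TF_l14884 _)))
         (CovZ.n1 (21440, 14720) (by decide +kernel)
          (CovZ.leaf K2_ok TF_l14885 _)
          (CovZ.leaf K2_ok TF_l14886 _)))))))

end Pool.Agent.TET
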