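import Pool.Agent.Helper38_TET.TF_M
import Pool.Agent.Helper38_TET.TF_L
import Pool.Agent.Helper38_TET.TF_3
import Pool.Agent.Helper38_TET.TF_4
import Pool.Agent.Helper38_TET.TF_10
import Pool.Agent.Helper38_TET.TF_11
import Pool.Agent.Helper38_TET.TF_22
import Pool.Agent.Helper38_TET.TF_28
import Pool.Agent.Helper38_TET.TF_30
import Pool.Agent.Helper38_TET.TF_32
import Pool.Agent.Helper38_TET.TF_33
import Pool.Agent.Helper38_TET.TF_35
import Pool.Agent.Helper38_TET.TF_38
import Pool.Agent.Helper38_TET.TF_41
import Pool.Agent.Helper38_TET.TF_43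
import Pool.Agent.Helper38_TET.TF_44
import Pool.Agent.Helper38_TET.TF_46
import Pool.Agent.Helper38_TET.TF_47
import Pool.Agent.Helper38_TET.TF_54
import Pool.Agent.Helper38_TET.TF_55
import Pool.Agent.Helper38_TET.TF_63
import Pool.Agent.Helper38_TET.TF_71
import Pool.Agent.Helper38_TET.TF_102
import Pool.Agent.Helper38_TET.TF_105
import Pool.Agent.Helper38_TET.TF_106
import Pool.Agent.Helper38_TET.TF_108
import Pool.Agent.Helper38_TET.TF_U6

/-!
# MP_c7c9bf_co: certificates, family TF
-/

set_option autoImplicit false
set_option maxRecDepth 100000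

namespace Pool.Agent.TET

theorem TF_s2_4 : SqZ TF_M TF_L [0, 7, 4, 3] (-7680) (-7680) 2560 2 4 :=
  SqZ.mk (a := (-2560)) (b := 0) (c := 2560) (d := 5120) (by norm_num) (by norm_num) (by norm_num) (by norm_num)
    (CovZ.topM TF_LL 219686192978683973843474301898176798690242794705 (by decide +kernel) (CovZ.n2 (-1280, 3840) (by decide +kernel)
    TF_u93
    TF_u94))
    (CovZ.topM TF_LL 1473395426261425210605307249335272114660643856 (by decide +kernel) (CovZ.n0 (-1280, 3840) (by decide +kernel)
    (CovZ.badM (by decide +kernel))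
    (CovZ.n1 (-1280, 5120) (by decide +kernel)
     (CovZ.n2 (-640, 4480) (by decide +kernel)
      (CovZ.subM 65334297533577000225531975135400614232080 (by decide +kernel)
       (CovZ.n2 (-1280, 4480) (by decide +kernel)
        (CovZ.n2 (-960, 4800) (by decide +kernel)
         (CovZ.n2 (-960, 4480) (by decide +kernel)
          (CovZ.subM 2540252960613600341685189017600 (by decide +kernel)
           (CovZ.n2 (-1120, 4640) (by decide +kernel)
            (CovZ.n2 (-960, 4640) (by decide +kernel)
             (CovZ.n2 (-1040, 4560) (by decide +kernel)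
              (CovZ.leaf K2_ok TF_l1523 _)
              (CovZ.leaf K2_ok TF_l1524 _))
             (CovZ.leaf K2_ok TF_l1525 _))
            (CovZ.n1 (-1120, 4480) (by decide +kernel)
             (CovZ.badM (by decide +kernel))
             (CovZ.n1 (-1040, 4560) (by decide +kernel)
              (CovZ.leaf K2_ok TF_l1531 _)
              (CovZ.badM (by decide +kernel))))))
          (CovZ.leaf K2_ok TF_l1533 _))
         (CovZ.subM 2540252960613600341685189017600 (by decide +kernel)
          (CovZ.n1 (-1280, 4800) (by decide +kernel)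
           (CovZ.n2 (-1120, 4960) (by decide +kernel)
            (CovZ.n2 (-1120, 4800) (by decide +kernel)
             (CovZ.n2 (-1200, 4880) (by decide +kernel)
              (CovZ.leaf K2_ok TF_l1534 _)
              (CovZ.leaf K2_ok TF_l1535 _))
             (CovZ.leaf K2_ok TF_l1536 _))
            (CovZ.n1 (-1280, 4960) (by decide +kernel)
             (CovZ.badM (by decide +kernel))
             (CovZ.n1 (-1200, 4880) (by decide +kernel)
              (CovZ.n2 (-1280, 4880) (by decide +kernel)
               (CovZ.leaf K2_ok TF_l10636 _)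
               (CovZ.leaf K2_ok TF_l10637 _))
              (CovZ.badM (by decide +kernel)))))
           (CovZ.n1 (-1120, 4640) (by decide +kernel)
            (CovZ.n2 (-1280, 4640) (by decide +kernel)
             (CovZ.n2 (-1200, 4720) (by decide +kernel)
              (CovZ.n2 (-1200, 4640) (by decide +kernel)
               (CovZ.n2 (-1240, 4680) (by decide +kernel)
                (CovZ.n2 (-1200, 4680) (by decide +kernel)
                 (CovZ.badM (by decide +kernel))
                 (CovZ.leaf K2_ok TF_l10638 _))
                (CovZ.badM (by decide +kernel)))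
               (CovZ.leaf K2_ok TF_l1539 _))
              (CovZ.n1 (-1280, 4720) (by decide +kernel)
               (CovZ.n2 (-1240, 4760) (by decide +kernel)
                (CovZ.leaf K2_ok TF_l10639 _)
                (CovZ.badM (by decide +kernel)))
               (CovZ.n1 (-1240, 4680) (by decide +kernel)
                (CovZ.badM (by decide +kernel))
                (CovZ.n1 (-1240, 4720) (by decide +kernel)
                 (CovZ.leaf K2_ok TF_l10640 _)
                 (CovZ.badM (by decide +kernel))))))
             (CovZ.badM (by decide +kernel)))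
            (CovZ.n1 (-1120, 4800) (by decide +kernel)
             (CovZ.leaf K2_ok TF_l1541 _)
             (CovZ.n1 (-1200, 4720) (by decide +kernel)
              (CovZ.n2 (-1200, 4800) (by decide +kernel)
               (CovZ.leaf K2_ok TF_l1542 _)
               (CovZ.n1 (-1240, 4760) (by decide +kernel)
                (CovZ.badM (by decide +kernel))
                (CovZ.leaf K2_ok TF_l10641 _)))
              (CovZ.n1 (-1120, 4720) (by decide +kernel)
               (CovZ.leaf K2_ok TF_l1543 _)
               (CovZ.leaf K2_ok TF_l1544 _))))))))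
        (CovZ.n1 (-960, 4160) (by decide +kernel)
         (CovZ.subM 5070602400912917605986821210112 (by decide +kernel)
          (CovZ.n2 (-1280, 4160) (by decide +kernel)
           (CovZ.n2 (-1120, 4320) (by decide +kernel)
            (CovZ.n2 (-1120, 4160) (by decide +kernel)
             (CovZ.badM (by decide +kernel))
             (CovZ.n1 (-1040, 4240) (by decide +kernel)
              (CovZ.n2 (-1040, 4160) (by decide +kernel)
               (CovZ.badM (by decide +kernel))
               (CovZ.badM (by decide +kernel)))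
              (CovZ.badM (by decide +kernel))))
            (CovZ.badM (by decide +kernel)))
           (CovZ.n1 (-1120, 4000) (by decide +kernel)
            (CovZ.badM (by decide +kernel))
            (CovZ.n1 (-1120, 4160) (by decide +kernel)
             (CovZ.n2 (-1040, 4080) (by decide +kernel)
              (CovZ.badM (by decide +kernel))
              (CovZ.n1 (-1040, 4160) (by decide +kernel)
               (CovZ.n2 (-1000, 4120) (by decide +kernel)
                (CovZ.badM (by decide +kernel))
                (CovZ.badM (by decide +kernel)))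
               (CovZ.badM (by decide +kernel))))
             (CovZ.badM (by decide +kernel))))))
         (CovZ.n1 (-960, 4480) (by decide +kernel)
          (CovZ.n2 (-800, 4320) (by decide +kernel)
           (CovZ.n2 (-960, 4320) (by decide +kernel)
            (CovZ.leaf K2_ok TF_l1545 _)
            (CovZ.n1 (-880, 4240) (by decide +kernel)
             (CovZ.leaf K2_ok TF_l1546 _)
             (CovZ.leaf K2_ok TF_l1547 _)))
           (CovZ.n1 (-800, 4480) (by decide +kernel)
            (CovZ.leaf K2_ok TF_l1548 _)
            (CovZ.leaf K2_ok TF_l1549 _)))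
          (CovZ.subM 4951760157141521099596562432 (by decide +kernel)
           (CovZ.n1 (-1120, 4320) (by decide +kernel)
            (CovZ.n2 (-1120, 4480) (by decide +kernel)
             (CovZ.n2 (-1040, 4400) (by decide +kernel)
              (CovZ.badM (by decide +kernel))
              (CovZ.n1 (-1040, 4480) (by decide +kernel)
               (CovZ.leaf K2_ok TF_l1550 _)
               (CovZ.badM (by decide +kernel))))
             (CovZ.badM (by decide +kernel)))
            (CovZ.n1 (-960, 4320) (by decide +kernel)
             (CovZ.n2 (-1040, 4240) (by decide +kernel)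
              (CovZ.n2 (-1040, 4320) (by decide +kernel)
               (CovZ.leaf K2_ok TF_l1552 _)
               (CovZ.badM (by decide +kernel)))
              (CovZ.n1 (-960, 4240) (by decide +kernel)
               (CovZ.badM (by decide +kernel))
               (CovZ.leaf K2_ok TF_l1553 _)))
             (CovZ.n1 (-1040, 4400) (by decide +kernel)
              (CovZ.leaf K2_ok TF_l1554 _)
              (CovZ.n1 (-1040, 4320) (by decide +kernel)
               (CovZ.badM (by decide +kernel))
               (CovZ.leaf K2_ok TF_l1555 _))))))))))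
      (CovZ.n1 (-640, 5120) (by decide +kernel)
       (CovZ.n2 (-320, 4800) (by decide +kernel)
        (CovZ.leaf K2_ok TF_l1556 _)
        (CovZ.leaf K2_ok TF_l1557 _))
       (CovZ.subM 65334297528506397824619057529413793021968 (by decide +kernel)
        (CovZ.n1 (-960, 4800) (by decide +kernel)
         (CovZ.n2 (-960, 5120) (by decide +kernel)
          (CovZ.leaf K2_ok TF_l1558 _)
          (CovZ.n1 (-1120, 4960) (by decide +kernel)
           (CovZ.n2 (-1120, 5120) (by decide +kernel)
            (CovZ.leaf K2_ok TF_l1559 _)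
            (CovZ.badM (by decide +kernel)))
           (CovZ.leaf K2_ok TF_l1561 _)))
         (CovZ.n1 (-640, 4800) (by decide +kernel)
          (CovZ.n2 (-800, 4640) (by decide +kernel)
           (CovZ.leaf K2_ok TF_l1562 _)
           (CovZ.leaf K2_ok TF_l1563 _))
          (CovZ.leaf K2_ok TF_l1564 _))))))
     (CovZ.subM 2535301200456458820585592455168 (by decide +kernel)
      (CovZ.n1 (-1920, 4480) (by decide +kernel)
       (CovZ.n2 (-1920, 5120) (by decide +kernel)
        (CovZ.n2 (-1600, 4800) (by decide +kernel)
         (CovZ.badM (by decide +kernel))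
         (CovZ.n1 (-1600, 5120) (by decide +kernel)
          (CovZ.n2 (-1440, 4960) (by decide +kernel)
           (CovZ.n2 (-1600, 4960) (by decide +kernel)
            (CovZ.badM (by decide +kernel))
            (CovZ.badM (by decide +kernel)))
           (CovZ.badM (by decide +kernel)))
          (CovZ.n1 (-1760, 4960) (by decide +kernel)
           (CovZ.n2 (-1760, 5120) (by decide +kernel)
            (CovZ.n2 (-1680, 5040) (by decide +kernel)
             (CovZ.badM (by decide +kernel))
             (CovZ.badM (by decide +kernel)))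
            (CovZ.badM (by decide +kernel)))
           (CovZ.n1 (-1600, 4960) (by decide +kernel)
            (CovZ.badM (by decide +kernel))
            (CovZ.n1 (-1680, 5040) (by decide +kernel)
             (CovZ.badM (by decide +kernel))
             (CovZ.badM (by decide +kernel)))))))
        (CovZ.badM (by decide +kernel)))
       (CovZ.n1 (-1280, 4480) (by decide +kernel)
        (CovZ.badM (by decide +kernel))
        (CovZ.n1 (-1600, 4800) (by decide +kernel)
         (CovZ.n2 (-1280, 4800) (by decide +kernel)
          (CovZ.n2 (-1440, 4640) (by decide +kernel)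
           (CovZ.badM (by decide +kernel))
           (CovZ.n1 (-1280, 4640) (by decide +kernel)
            (CovZ.badM (by decide +kernel))
            (CovZ.n1 (-1360, 4720) (by decide +kernel)
             (CovZ.n2 (-1280, 4720) (by decide +kernel)
              (CovZ.badM (by decide +kernel))
              (CovZ.badM (by decide +kernel)))
             (CovZ.badM (by decide +kernel)))))
          (CovZ.n1 (-1440, 4960) (by decide +kernel)
           (CovZ.n2 (-1280, 4960) (by decide +kernel)
            (CovZ.n2 (-1360, 4880) (by decide +kernel)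
             (CovZ.n2 (-1360, 4960) (by decide +kernel)
              (CovZ.n2 (-1320, 4920) (by decide +kernel)
               (CovZ.n2 (-1360, 4920) (by decide +kernel)
                (CovZ.badM (by decide +kernel))
                (CovZ.leaf K2_ok TF_l10642 _))
               (CovZ.badM (by decide +kernel)))
              (CovZ.n1 (-1400, 4920) (by decide +kernel)
               (CovZ.badM (by decide +kernel))
               (CovZ.n1 (-1360, 4920) (by decide +kernel)
                (CovZ.n2 (-1380, 4900) (by decide +kernel)
                 (CovZ.n2 (-1380, 4920) (by decide +kernel)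
                  (CovZ.leaf K2_ok TF_l10643 _)
                  (CovZ.badM (by decide +kernel)))
                 (CovZ.leaf K2_ok TF_l10644 _))
                (CovZ.badM (by decide +kernel)))))
             (CovZ.n1 (-1280, 4880) (by decide +kernel)
              (CovZ.n2 (-1320, 4840) (by decide +kernel)
               (CovZ.n2 (-1320, 4880) (by decide +kernel)
                (CovZ.leaf K2_ok TF_l10645 _)
                (CovZ.badM (by decide +kernel)))
               (CovZ.n1 (-1280, 4840) (by decide +kernel)
                (CovZ.badM (by decide +kernel))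
                (CovZ.leaf K2_ok TF_l10646 _)))
              (CovZ.n1 (-1320, 4920) (by decide +kernel)
               (CovZ.leaf K2_ok TF_l10647 _)
               (CovZ.n1 (-1320, 4880) (by decide +kernel)
                (CovZ.leaf K2_ok TF_l10648 _)
                (CovZ.leaf K2_ok TF_l10649 _)))))
            (CovZ.badM (by decide +kernel)))
           (CovZ.badM (by decide +kernel))))
         (CovZ.badM (by decide +kernel)))))))))

theorem TF_s3_4 : SqZ TF_M TF_L [0, 7, 4, 3] (-7680) (-7680) 2560 3 4 :=
  SqZ.mk (a := 0) (b := 2560) (c := 2560) (d := 5120) (by norm_num) (by norm_num) (by norm_num) (by norm_num)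
    (CovZ.topM TF_LL 194997808913131601001400562301022502307912287449 (by decide +kernel) (CovZ.n2 (1280, 3840) (by decide +kernel)
    (CovZ.n2 (2560, 3840) (by decide +kernel)
     (CovZ.n2 (1920, 3200) (by decide +kernel)
      (CovZ.n2 (1920, 3840) (by decide +kernel)
       (CovZ.n2 (2240, 3520) (by decide +kernel)
        (CovZ.leaf K2_ok TF_l3334 _)
        (CovZ.leaf K2_ok TF_l3335 _))
       (CovZ.n1 (1600, 3520) (by decide +kernel)
        (CovZ.leaf K2_ok TF_l3336 _)
        (CovZ.leaf K2_ok TF_l3337 _)))
      (CovZ.n1 (2560, 3200) (by decide +kernel)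
       (CovZ.subM 194284097614116825215114171706951034779755151441 (by decide +kernel)
        (CovZ.n2 (2240, 2880) (by decide +kernel)
         (CovZ.n2 (2240, 3200) (by decide +kernel)
          (CovZ.n2 (2400, 3040) (by decide +kernel)
           (CovZ.leaf K2_ok TF_l3338 _)
           (CovZ.leaf K2_ok TF_l3339 _))
          (CovZ.leaf K2_ok TF_l3340 _))
         (CovZ.n1 (2560, 2880) (by decide +kernel)
          (CovZ.subM 5444518036168370505392253871443413106768 (by decide +kernel)
           (CovZ.n2 (2400, 2720) (by decide +kernel)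
            (CovZ.leaf K2_ok TF_l3341 _)
            (CovZ.n1 (2560, 2720) (by decide +kernel)
             (CovZ.n2 (2480, 2640) (by decide +kernel)
              (CovZ.leaf K2_ok TF_l3342 _)
              (CovZ.leaf K2_ok TF_l3343 _))
             (CovZ.leaf K2_ok TF_l3344 _))))
          (CovZ.n1 (2400, 3040) (by decide +kernel)
           (CovZ.leaf K2_ok TF_l3345 _)
           (CovZ.leaf K2_ok TF_l3346 _)))))
       (CovZ.n1 (2240, 3520) (by decide +kernel)
        (CovZ.leaf K2_ok TF_l3347 _)
        (CovZ.leaf K2_ok TF_l3348 _))))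
     (CovZ.n1 (1920, 4480) (by decide +kernel)
      (CovZ.leaf K2_ok TF_l3349 _)
      (CovZ.leaf K2_ok TF_l3350 _)))
    (CovZ.n1 (1280, 2560) (by decide +kernel)
     (CovZ.n2 (640, 3200) (by decide +kernel)
      (CovZ.n2 (1280, 3200) (by decide +kernel)
       (CovZ.subM 194284097954399189610655559490845750157679592657 (by decide +kernel)
        (CovZ.n2 (960, 2880) (by decide +kernel)
         (CovZ.n2 (960, 3200) (by decide +kernel)
          (CovZ.leaf K2_ok TF_l3351 _)
          (CovZ.leaf K2_ok TF_l3352 _))
         (CovZ.n1 (1280, 2880) (by decide +kernel)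
          (CovZ.n2 (1120, 2720) (by decide +kernel)
           (CovZ.leaf K2_ok TF_l3353 _)
           (CovZ.n1 (1280, 2720) (by decide +kernel)
            (CovZ.leaf K2_ok TF_l3354 _)
            (CovZ.leaf K2_ok TF_l3355 _)))
          (CovZ.leaf K2_ok TF_l3356 _))))
       (CovZ.n1 (960, 3520) (by decide +kernel)
        (CovZ.leaf K2_ok TF_l3357 _)
        (CovZ.leaf K2_ok TF_l3358 _)))
      (CovZ.n1 (640, 2560) (by decide +kernel)
       (CovZ.n2 (320, 2880) (by decide +kernel)
        (CovZ.n2 (640, 2880) (by decide +kernel)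
         (CovZ.leaf K2_ok TF_l3359 _)
         (CovZ.leaf K2_ok TF_l3360 _))
        (CovZ.leaf K2_ok TF_l3361 _))
       (CovZ.subM 194284097954399189610655559490845890895167947985 (by decide +kernel)
        (CovZ.n1 (960, 2880) (by decide +kernel)
         (CovZ.n2 (960, 2560) (by decide +kernel)
          (CovZ.n2 (800, 2720) (by decide +kernel)
           (CovZ.leaf K2_ok TF_l3362 _)
           (CovZ.leaf K2_ok TF_l3363 _))
          (CovZ.n1 (1120, 2720) (by decide +kernel)
           (CovZ.leaf K2_ok TF_l3364 _)
           (CovZ.leaf K2_ok TF_l3365 _)))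
         (CovZ.n1 (640, 2880) (by decide +kernel)
          (CovZ.leaf K2_ok TF_l3366 _)
          (CovZ.n1 (800, 2720) (by decide +kernel)
           (CovZ.leaf K2_ok TF_l3367 _)
           (CovZ.leaf K2_ok TF_l3368 _)))))))
     (CovZ.n1 (1920, 3200) (by decide +kernel)
      (CovZ.subM 194284097614116825225017692021234076978948145233 (by decide +kernel)
       (CovZ.n2 (1920, 2560) (by decide +kernel)
        (CovZ.n2 (1600, 2880) (by decide +kernel)
         (CovZ.n2 (1920, 2880) (by decide +kernel)
          (CovZ.subM 5444518033638021066273528192674979446865 (by decide +kernel)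
           (CovZ.n2 (1760, 2720) (by decide +kernel)
            (CovZ.leaf K2_ok TF_l3369 _)
            (CovZ.n1 (1920, 2720) (by decide +kernel)
             (CovZ.n2 (1840, 2640) (by decide +kernel)
              (CovZ.leaf K2_ok TF_l3370 _)
              (CovZ.leaf K2_ok TF_l3371 _))
             (CovZ.leaf K2_ok TF_l3372 _))))
          (CovZ.n1 (1760, 3040) (by decide +kernel)
           (CovZ.leaf K2_ok TF_l3373 _)
           (CovZ.leaf K2_ok TF_l3374 _)))
         (CovZ.subM 5444518033638021066273239962298827735121 (by decide +kernel)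
          (CovZ.n1 (1600, 2560) (by decide +kernel)
           (CovZ.n2 (1440, 2720) (by decide +kernel)
            (CovZ.n2 (1600, 2720) (by decide +kernel)
             (CovZ.leaf K2_ok TF_l3375 _)
             (CovZ.leaf K2_ok TF_l3376 _))
            (CovZ.n1 (1440, 2560) (by decide +kernel)
             (CovZ.leaf K2_ok TF_l3377 _)
             (CovZ.leaf K2_ok TF_l3378 _)))
           (CovZ.n1 (1760, 2720) (by decide +kernel)
            (CovZ.n2 (1760, 2560) (by decide +kernel)
             (CovZ.n2 (1680, 2640) (by decide +kernel)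
              (CovZ.leaf K2_ok TF_l3379 _)
              (CovZ.leaf K2_ok TF_l3380 _))
             (CovZ.leaf K2_ok TF_l3381 _))
            (CovZ.n1 (1600, 2720) (by decide +kernel)
             (CovZ.leaf K2_ok TF_l3382 _)
             (CovZ.n1 (1680, 2640) (by decide +kernel)
              (CovZ.leaf K2_ok TF_l3383 _)
              (CovZ.leaf K2_ok TF_l3384 _)))))))
        (CovZ.n1 (2240, 2880) (by decide +kernel)
         (CovZ.subM 5444518036168370505392253871443429883984 (by decide +kernel)
          (CovZ.n2 (2240, 2560) (by decide +kernel)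
           (CovZ.n2 (2080, 2720) (by decide +kernel)
            (CovZ.n2 (2240, 2720) (by decide +kernel)
             (CovZ.n2 (2160, 2640) (by decide +kernel)
              (CovZ.leaf K2_ok TF_l3385 _)
              (CovZ.leaf K2_ok TF_l3386 _))
             (CovZ.leaf K2_ok TF_l3387 _))
            (CovZ.n1 (2080, 2560) (by decide +kernel)
             (CovZ.n2 (2000, 2640) (by decide +kernel)
              (CovZ.leaf K2_ok TF_l3388 _)
              (CovZ.leaf K2_ok TF_l3389 _))
             (CovZ.n1 (2160, 2640) (by decide +kernel)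
              (CovZ.leaf K2_ok TF_l3390 _)
              (CovZ.leaf K2_ok TF_l3391 _))))
           (CovZ.n1 (2400, 2720) (by decide +kernel)
            (CovZ.n2 (2400, 2560) (by decide +kernel)
             (CovZ.n2 (2320, 2640) (by decide +kernel)
              (CovZ.leaf K2_ok TF_l3392 _)
              (CovZ.leaf K2_ok TF_l3393 _))
             (CovZ.leaf K2_ok TF_l3394 _))
            (CovZ.n1 (2240, 2720) (by decide +kernel)
             (CovZ.leaf K2_ok TF_l3395 _)
             (CovZ.n1 (2320, 2640) (by decide +kernel)
              (CovZ.leaf K2_ok TF_l3396 _)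
              (CovZ.leaf K2_ok TF_l3397 _))))))
         (CovZ.n1 (1920, 2880) (by decide +kernel)
          (CovZ.leaf K2_ok TF_l3398 _)
          (CovZ.subM 5444518036168370505392253871443429883985 (by decide +kernel)
           (CovZ.n1 (2080, 2720) (by decide +kernel)
            (CovZ.n2 (1920, 2720) (by decide +kernel)
             (CovZ.leaf K2_ok TF_l3399 _)
             (CovZ.n1 (2000, 2640) (by decide +kernel)
              (CovZ.leaf K2_ok TF_l3400 _)
              (CovZ.leaf K2_ok TF_l3401 _)))
            (CovZ.leaf K2_ok TF_l3402 _)))))))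
      (CovZ.n1 (1280, 3200) (by decide +kernel)
       (CovZ.leaf K2_ok TF_l3403 _)
       (CovZ.subM 194284097614116825225017692021306134572986073297 (by decide +kernel)
        (CovZ.n1 (1600, 2880) (by decide +kernel)
         (CovZ.n2 (1280, 2880) (by decide +kernel)
          (CovZ.leaf K2_ok TF_l3404 _)
          (CovZ.n1 (1440, 2720) (by decide +kernel)
           (CovZ.n2 (1280, 2720) (by decide +kernel)
            (CovZ.leaf K2_ok TF_l3405 _)
            (CovZ.leaf K2_ok TF_l3406 _))
           (CovZ.leaf K2_ok TF_l3407 _)))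
         (CovZ.n1 (1600, 3200) (by decide +kernel)
          (CovZ.n2 (1760, 3040) (by decide +kernel)
           (CovZ.leaf K2_ok TF_l3408 _)
           (CovZ.leaf K2_ok TF_l3409 _))
          (CovZ.leaf K2_ok TF_l3410 _)))))))))
    (CovZ.topM TF_LL 194999268043920959253337235984479243761068606681 (by decide +kernel) (CovZ.n0 (1280, 3840) (by decide +kernel)
    (CovZ.n2 (0, 3840) (by decide +kernel)
     (CovZ.leaf K2_ok TF_l3411 _)
     (CovZ.n1 (640, 3200) (by decide +kernel)
      (CovZ.n2 (0, 3200) (by decide +kernel)
       (CovZ.leaf K2_ok TF_l3412 _)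
       (CovZ.n1 (320, 2880) (by decide +kernel)
        (CovZ.leaf K2_ok TF_l3413 _)
        (CovZ.leaf K2_ok TF_l3414 _)))
      (CovZ.n1 (640, 3840) (by decide +kernel)
       (CovZ.n2 (960, 3520) (by decide +kernel)
        (CovZ.leaf K2_ok TF_l3415 _)
        (CovZ.leaf K2_ok TF_l3416 _))
       (CovZ.leaf K2_ok TF_l3417 _))))
    (CovZ.n1 (1280, 5120) (by decide +kernel)
     (CovZ.n2 (1920, 4480) (by decide +kernel)
      (CovZ.leaf K2_ok TF_l3418 _)
      (CovZ.leaf K2_ok TF_l3419 _))
     (CovZ.n1 (640, 4480) (by decide +kernel)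
      (CovZ.leaf K2_ok TF_l3420 _)
      (CovZ.n1 (1280, 4480) (by decide +kernel)
       (CovZ.leaf K2_ok TF_l3421 _)
       (CovZ.leaf K2_ok TF_l3422 _))))))

theorem TF_s4_4 : SqZ TF_M TF_L [0, 7, 4, 3] (-7680) (-7680) 2560 4 4 :=
  SqZ.mk (a := 2560) (b := 5120) (c := 2560) (d := 5120) (by norm_num) (by norm_num) (by norm_num) (by norm_num)
    (CovZ.topM TF_LL 294191440867570661533682233234843507697705412699 (by decide +kernel) (CovZ.n2 (3840, 3840) (by decide +kernel)
    (CovZ.n2 (5120, 3840) (by decide +kernel)
     (CovZ.n2 (4480, 3200) (by decide +kernel)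
      (CovZ.n2 (4480, 3840) (by decide +kernel)
       (CovZ.leaf K2_ok TF_l4278 _)
       (CovZ.leaf K2_ok TF_l4279 _))
      (CovZ.leaf K2_ok TF_l4280 _))
     (CovZ.n1 (4480, 4480) (by decide +kernel)
      (CovZ.leaf K2_ok TF_l4281 _)
      (CovZ.leaf K2_ok TF_l4282 _)))
    (CovZ.n1 (3840, 2560) (by decide +kernel)
     (CovZ.n2 (3200, 3200) (by decide +kernel)
      (CovZ.n2 (3840, 3200) (by decide +kernel)
       (CovZ.n2 (3520, 2880) (by decide +kernel)
        (CovZ.leaf K2_ok TF_l4283 _)
        (CovZ.leaf K2_ok TF_l4284 _))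
       (CovZ.n1 (3520, 3520) (by decide +kernel)
        (CovZ.leaf K2_ok TF_l4285 _)
        (CovZ.leaf K2_ok TF_l4286 _)))
      (CovZ.subM 14450890374860162857368161585335344814002128914 (by decide +kernel)
       (CovZ.n1 (3200, 2560) (by decide +kernel)
        (CovZ.n2 (2880, 2880) (by decide +kernel)
         (CovZ.n2 (3200, 2880) (by decide +kernel)
          (CovZ.leaf K2_ok TF_l4287 _)
          (CovZ.leaf K2_ok TF_l4288 _))
         (CovZ.n1 (2880, 2560) (by decide +kernel)
          (CovZ.subM 5444518036168370505391965641067261413392 (by decide +kernel)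
           (CovZ.n2 (2720, 2720) (by decide +kernel)
            (CovZ.leaf K2_ok TF_l4289 _)
            (CovZ.n1 (2720, 2560) (by decide +kernel)
             (CovZ.n2 (2640, 2640) (by decide +kernel)
              (CovZ.leaf K2_ok TF_l4290 _)
              (CovZ.leaf K2_ok TF_l4291 _))
             (CovZ.leaf K2_ok TF_l4292 _))))
          (CovZ.leaf K2_ok TF_l4293 _)))
        (CovZ.leaf K2_ok TF_l4294 _))))
     (CovZ.n1 (4480, 3200) (by decide +kernel)
      (CovZ.leaf K2_ok TF_l4295 _)
      (CovZ.leaf K2_ok TF_l4296 _)))))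
    (CovZ.topM TF_LL 197138597083000584801292426286515026188760621147 (by decide +kernel) (CovZ.n0 (3840, 3840) (by decide +kernel)
    (CovZ.n2 (2560, 3840) (by decide +kernel)
     (CovZ.n2 (3200, 4480) (by decide +kernel)
      (CovZ.leaf K2_ok TF_l4297 _)
      (CovZ.leaf K2_ok TF_l4298 _))
     (CovZ.n1 (3200, 3200) (by decide +kernel)
      (CovZ.n2 (2560, 3200) (by decide +kernel)
       (CovZ.leaf K2_ok TF_l4299 _)
       (CovZ.subM 14450888333165880202079623385544371946691559504 (by decide +kernel)
        (CovZ.n1 (2880, 2880) (by decide +kernel)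
         (CovZ.n2 (2560, 2880) (by decide +kernel)
          (CovZ.leaf K2_ok TF_l4300 _)
          (CovZ.n1 (2720, 2720) (by decide +kernel)
           (CovZ.n2 (2560, 2720) (by decide +kernel)
            (CovZ.leaf K2_ok TF_l4301 _)
            (CovZ.n1 (2640, 2640) (by decide +kernel)
             (CovZ.leaf K2_ok TF_l4302 _)
             (CovZ.leaf K2_ok TF_l4303 _)))
           (CovZ.leaf K2_ok TF_l4304 _)))
         (CovZ.n1 (2880, 3200) (by decide +kernel)
          (CovZ.leaf K2_ok TF_l4305 _)
          (CovZ.leaf K2_ok TF_l4306 _)))))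
      (CovZ.n1 (3200, 3840) (by decide +kernel)
       (CovZ.n2 (3520, 3520) (by decide +kernel)
        (CovZ.leaf K2_ok TF_l4307 _)
        (CovZ.leaf K2_ok TF_l4308 _))
       (CovZ.n1 (2880, 3520) (by decide +kernel)
        (CovZ.leaf K2_ok TF_l4309 _)
        (CovZ.leaf K2_ok TF_l4310 _)))))
    (CovZ.n1 (3840, 5120) (by decide +kernel)
     (CovZ.n2 (4480, 4480) (by decide +kernel)
      (CovZ.leaf K2_ok TF_l4311 _)
      (CovZ.leaf K2_ok TF_l4312 _))
     (CovZ.n1 (3200, 4480) (by decide +kernel)
      (CovZ.leaf K2_ok TF_l4313 _)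
      (CovZ.leaf K2_ok TF_l4314 _)))))

theorem TF_s5_4 : SqZ TF_M TF_L [0, 7, 4, 3] (-7680) (-7680) 2560 5 4 :=
  SqZ.mk (a := 5120) (b := 7680) (c := 2560) (d := 5120) (by norm_num) (by norm_num) (by norm_num) (by norm_num)
    (CovZ.topM TF_LL 288493599788781267196888747736572450718736312346 (by decide +kernel) (CovZ.n2 (6400, 3840) (by decide +kernel)
    (CovZ.leaf K2_ok TF_l4633 _)
    (CovZ.n1 (6400, 2560) (by decide +kernel)
     (CovZ.n2 (5760, 3200) (by decide +kernel)
      (CovZ.leaf K2_ok TF_l4634 _)
      (CovZ.leaf K2_ok TF_l4635 _))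
     (CovZ.leaf K2_ok TF_l4636 _))))
    (CovZ.topM TF_LL 294191440187005841414812208362024786060050032731 (by decide +kernel) (CovZ.n0 (6400, 3840) (by decide +kernel)
    (CovZ.n2 (5120, 3840) (by decide +kernel)
     (CovZ.leaf K2_ok TF_l4637 _)
     (CovZ.leaf K2_ok TF_l4638 _))
    (CovZ.n1 (6400, 5120) (by decide +kernel)
     (CovZ.leaf K2_ok TF_l4639 _)
     (CovZ.leaf K2_ok TF_l4640 _))))

theorem TF_s6_4 : SqZ TF_M TF_L [0, 7, 4, 3] (-7680) (-7680) 2560 6 4 :=
  SqZ.mk (a := 7680) (b := 10240) (c := 2560) (d := 5120) (by norm_num) (by norm_num) (by norm_num) (by norm_num)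
    (CovZ.topM TF_LL 194284094977017075061308040749822899770014918666 (by decide +kernel) (CovZ.n2 (8960, 3840) (by decide +kernel)
    (CovZ.leaf K2_ok TF_l4815 _)
    (CovZ.leaf K2_ok TF_l4816 _)))
    (CovZ.topM TF_LL 288493599873857030941494961304851017291787233306 (by decide +kernel) (CovZ.n0 (8960, 3840) (by decide +kernel)
    (CovZ.leaf K2_ok TF_l4817 _)
    (CovZ.leaf K2_ok TF_l4818 _)))

theorem TF_s7_4 : SqZ TF_M TF_L [0, 7, 4, 3] (-7680) (-7680) 2560 7 4 :=
  SqZ.mk (a := 10240) (b := 12800) (c := 2560) (d := 5120) (by norm_num) (by norm_num) (by norm_num) (by norm_num)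
    (CovZ.topM TF_LL 11596390315970797750413645564879760244614438922 (by decide +kernel) (CovZ.leaf K2_ok TF_l5064 _))
    (CovZ.topM TF_LL 194284094982333662525874703001597493187546540042 (by decide +kernel) (CovZ.n0 (11520, 3840) (by decide +kernel)
    (CovZ.leaf K2_ok TF_l5065 _)
    (CovZ.leaf K2_ok TF_l5066 _)))

theorem TF_s8_4 : SqZ TF_M TF_L [0, 7, 4, 3] (-7680) (-7680) 2560 8 4 :=
  SqZ.mk (a := 12800) (b := 15360) (c := 2560) (d := 5120) (by norm_num) (by norm_num) (by norm_num) (by norm_num)
    (CovZ.topM TF_LL 11596387638900421942734540347800571107871818026 (by decide +kernel) (CovZ.leaf K2_ok TF_l5342 _))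
    (CovZ.topM TF_LL 11596390361159357310242250415980671996840124714 (by decide +kernel) (CovZ.leaf K2_ok TF_l5343 _))

theorem TF_s9_4 : SqZ TF_M TF_L [0, 7, 4, 3] (-7680) (-7680) 2560 9 4 :=
  SqZ.mk (a := 15360) (b := 17920) (c := 2560) (d := 5120) (by norm_num) (by norm_num) (by norm_num) (by norm_num)
    (CovZ.topM TF_LL 11596387638900462508172717633890620717525893418 (by decide +kernel) (CovZ.leaf K2_ok TF_l5708 _))
    (CovZ.topM TF_LL 11596387638900421943353510367443260970442424618 (by decide +kernel) (CovZ.leaf K2_ok TF_l5709 _))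

theorem TF_s10_4 : SqZ TF_M TF_L [0, 7, 4, 3] (-7680) (-7680) 2560 10 4 :=
  SqZ.mk (a := 17920) (b := 20480) (c := 2560) (d := 5120) (by norm_num) (by norm_num) (by norm_num) (by norm_num)
    (CovZ.topM TF_LL 178406097252783459706429878294386947580231978 (by decide +kernel) (CovZ.n2 (19200, 3840) (by decide +kernel)
    (CovZ.leaf K2_ok TF_l6152 _)
    (CovZ.leaf K2_ok TF_l6153 _)))
    (CovZ.topM TF_LL 178406097252783459706429878294386947580231978 (by decide +kernel) (CovZ.n0 (19200, 3840) (by decide +kernel)
    (CovZ.leaf K2_ok TF_l6154 _)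
    (CovZ.leaf K2_ok TF_l6155 _)))

theorem TF_s11_4 : SqZ TF_M TF_L [0, 7, 4, 3] (-7680) (-7680) 2560 11 4 :=
  SqZ.mk (a := 20480) (b := 23040) (c := 2560) (d := 5120) (by norm_num) (by norm_num) (by norm_num) (by norm_num)
    (CovZ.topM TF_LL 178406047406690515175872354653550228319240482 (by decide +kernel) (CovZ.n2 (21760, 3840) (by decide +kernel)
    (CovZ.n2 (23040, 3840) (by decide +kernel)
     (CovZ.n2 (22400, 3200) (by decide +kernel)
      (CovZ.leaf K2_ok TF_l6576 _)
      (CovZ.leaf K2_ok TF_l6577 _))
     (CovZ.n1 (22400, 4480) (by decide +kernel)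
      (CovZ.leaf K2_ok TF_l6578 _)
      (CovZ.leaf K2_ok TF_l6579 _)))
    (CovZ.n1 (21760, 2560) (by decide +kernel)
     (CovZ.leaf K2_ok TF_l6580 _)
     (CovZ.leaf K2_ok TF_l6581 _))))
    (CovZ.topM TF_LL 178406095258898363432843779190604398411645218 (by decide +kernel) (CovZ.n0 (21760, 3840) (by decide +kernel)
    (CovZ.leaf K2_ok TF_l6582 _)
    (CovZ.n1 (21760, 5120) (by decide +kernel)
     (CovZ.n2 (22400, 4480) (by decide +kernel)
      (CovZ.leaf K2_ok TF_l6583 _)
      (CovZ.leaf K2_ok TF_l6584 _))
     (CovZ.leaf K2_ok TF_l6585 _))))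

theorem TF_s12_4 : SqZ TF_M TF_L [0, 7, 4, 3] (-7680) (-7680) 2560 12 4 :=
  SqZ.mk (a := 23040) (b := 25600) (c := 2560) (d := 5120) (by norm_num) (by norm_num) (by norm_num) (by norm_num)
    (CovZ.topM TF_LL 178405962253021400760429112959990745215795458 (by decide +kernel) (CovZ.n2 (24320, 3840) (by decide +kernel)
    (CovZ.n2 (25600, 3840) (by decide +kernel)
     (CovZ.n2 (24960, 3200) (by decide +kernel)
      (CovZ.n2 (24960, 3840) (by decide +kernel)
       (CovZ.n2 (25280, 3520) (by decide +kernel)
        (CovZ.leaf K2_ok TF_l7008 _)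
        (CovZ.leaf K2_ok TF_l7009 _))
       (CovZ.n1 (24640, 3520) (by decide +kernel)
        (CovZ.leaf K2_ok TF_l7010 _)
        (CovZ.leaf K2_ok TF_l7011 _)))
      (CovZ.n1 (25600, 3200) (by decide +kernel)
       (CovZ.n2 (25280, 2880) (by decide +kernel)
        (CovZ.n2 (25280, 3200) (by decide +kernel)
         (CovZ.n2 (25440, 3040) (by decide +kernel)
          (CovZ.leaf K2_ok TF_l7012 _)
          (CovZ.leaf K2_ok TF_l7013 _))
         (CovZ.leaf K2_ok TF_l7014 _))
        (CovZ.n1 (25600, 2880) (by decide +kernel)
         (CovZ.n2 (25440, 2720) (by decide +kernel)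
          (CovZ.n2 (25440, 2880) (by decide +kernel)
           (CovZ.leaf K2_ok TF_l7015 _)
           (CovZ.leaf K2_ok TF_l7016 _))
          (CovZ.n1 (25600, 2720) (by decide +kernel)
           (CovZ.n2 (25520, 2640) (by decide +kernel)
            (CovZ.leaf K2_ok TF_l7017 _)
            (CovZ.leaf K2_ok TF_l7018 _))
           (CovZ.leaf K2_ok TF_l7019 _)))
         (CovZ.n1 (25440, 3040) (by decide +kernel)
          (CovZ.leaf K2_ok TF_l7020 _)
          (CovZ.leaf K2_ok TF_l7021 _))))
       (CovZ.n1 (25280, 3520) (by decide +kernel)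
        (CovZ.leaf K2_ok TF_l7022 _)
        (CovZ.leaf K2_ok TF_l7023 _))))
     (CovZ.n1 (24960, 4480) (by decide +kernel)
      (CovZ.leaf K2_ok TF_l7024 _)
      (CovZ.leaf K2_ok TF_l7025 _)))
    (CovZ.n1 (24320, 2560) (by decide +kernel)
     (CovZ.n2 (23680, 3200) (by decide +kernel)
      (CovZ.n2 (24320, 3200) (by decide +kernel)
       (CovZ.n2 (24000, 2880) (by decide +kernel)
        (CovZ.leaf K2_ok TF_l7026 _)
        (CovZ.leaf K2_ok TF_l7027 _))
       (CovZ.n1 (24000, 3520) (by decide +kernel)
        (CovZ.leaf K2_ok TF_l7028 _)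
        (CovZ.leaf K2_ok TF_l7029 _)))
      (CovZ.leaf K2_ok TF_l7030 _))
     (CovZ.n1 (24960, 3200) (by decide +kernel)
      (CovZ.n2 (24960, 2560) (by decide +kernel)
       (CovZ.n2 (24640, 2880) (by decide +kernel)
        (CovZ.n2 (24960, 2880) (by decide +kernel)
         (CovZ.leaf K2_ok TF_l7031 _)
         (CovZ.n1 (24800, 3040) (by decide +kernel)
          (CovZ.leaf K2_ok TF_l7032 _)
          (CovZ.leaf K2_ok TF_l7033 _)))
        (CovZ.leaf K2_ok TF_l7034 _))
       (CovZ.n1 (25280, 2880) (by decide +kernel)
        (CovZ.n2 (25280, 2560) (by decide +kernel)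
         (CovZ.n2 (25120, 2720) (by decide +kernel)
          (CovZ.n2 (25280, 2720) (by decide +kernel)
           (CovZ.leaf K2_ok TF_l7035 _)
           (CovZ.leaf K2_ok TF_l7036 _))
          (CovZ.leaf K2_ok TF_l7037 _))
         (CovZ.n1 (25440, 2720) (by decide +kernel)
          (CovZ.n2 (25440, 2560) (by decide +kernel)
           (CovZ.n2 (25360, 2640) (by decide +kernel)
            (CovZ.leaf K2_ok TF_l7038 _)
            (CovZ.leaf K2_ok TF_l7039 _))
           (CovZ.leaf K2_ok TF_l7040 _))
          (CovZ.n1 (25280, 2720) (by decide +kernel)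
           (CovZ.leaf K2_ok TF_l7041 _)
           (CovZ.n1 (25360, 2640) (by decide +kernel)
            (CovZ.leaf K2_ok TF_l7042 _)
            (CovZ.leaf K2_ok TF_l7043 _)))))
        (CovZ.n1 (24960, 2880) (by decide +kernel)
         (CovZ.leaf K2_ok TF_l7044 _)
         (CovZ.n1 (25120, 2720) (by decide +kernel)
          (CovZ.leaf K2_ok TF_l7045 _)
          (CovZ.n1 (25120, 2880) (by decide +kernel)
           (CovZ.leaf K2_ok TF_l7046 _)
           (CovZ.leaf K2_ok TF_l7047 _))))))
      (CovZ.n1 (24320, 3200) (by decide +kernel)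
       (CovZ.leaf K2_ok TF_l7048 _)
       (CovZ.n1 (24640, 2880) (by decide +kernel)
        (CovZ.leaf K2_ok TF_l7049 _)
        (CovZ.n1 (24640, 3200) (by decide +kernel)
         (CovZ.n2 (24800, 3040) (by decide +kernel)
          (CovZ.leaf K2_ok TF_l7050 _)
          (CovZ.leaf K2_ok TF_l7051 _))
         (CovZ.leaf K2_ok TF_l7052 _))))))))
    (CovZ.topM TF_LL 178406047323613130995044978803642603157848322 (by decide +kernel) (CovZ.n0 (24320, 3840) (by decide +kernel)
    (CovZ.n2 (23040, 3840) (by decide +kernel)
     (CovZ.n2 (23680, 4480) (by decide +kernel)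
      (CovZ.leaf K2_ok TF_l7053 _)
      (CovZ.leaf K2_ok TF_l7054 _))
     (CovZ.n1 (23680, 3200) (by decide +kernel)
      (CovZ.leaf K2_ok TF_l7055 _)
      (CovZ.n1 (23680, 3840) (by decide +kernel)
       (CovZ.n2 (24000, 3520) (by decide +kernel)
        (CovZ.leaf K2_ok TF_l7056 _)
        (CovZ.leaf K2_ok TF_l7057 _))
       (CovZ.leaf K2_ok TF_l7058 _))))
    (CovZ.n1 (24320, 5120) (by decide +kernel)
     (CovZ.n2 (24960, 4480) (by decide +kernel)
      (CovZ.leaf K2_ok TF_l7059 _)
      (CovZ.leaf K2_ok TF_l7060 _))
     (CovZ.n1 (23680, 4480) (by decide +kernel)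
      (CovZ.leaf K2_ok TF_l7061 _)
      (CovZ.n1 (24320, 4480) (by decide +kernel)
       (CovZ.leaf K2_ok TF_l7062 _)
       (CovZ.leaf K2_ok TF_l7063 _))))))

theorem TF_s13_4 : SqZ TF_M TF_L [0, 7, 4, 3] (-7680) (-7680) 2560 13 4 :=
  SqZ.mk (a := 25600) (b := 28160) (c := 2560) (d := 5120) (by norm_num) (by norm_num) (by norm_num) (by norm_num)
    (CovZ.topM TF_LL 178405961588407402865553324868849160096317698 (by decide +kernel) (CovZ.n2 (26880, 3840) (by decide +kernel)
    TF_u95
    TF_u96))
    (CovZ.topM TF_LL 178405961588407402867971176508078418445730050 (by decide +kernel) (CovZ.n0 (26880, 3840) (by decide +kernel)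
    (CovZ.n2 (25600, 3840) (by decide +kernel)
     (CovZ.leaf K2_ok TF_l8180 _)
     (CovZ.n1 (26240, 3200) (by decide +kernel)
      (CovZ.n2 (25600, 3200) (by decide +kernel)
       (CovZ.leaf K2_ok TF_l8181 _)
       (CovZ.n1 (25920, 2880) (by decide +kernel)
        (CovZ.n2 (25600, 2880) (by decide +kernel)
         (CovZ.leaf K2_ok TF_l8182 _)
         (CovZ.n1 (25760, 2720) (by decide +kernel)
          (CovZ.n2 (25600, 2720) (by decide +kernel)
           (CovZ.leaf K2_ok TF_l8183 _)
           (CovZ.n1 (25680, 2640) (by decide +kernel)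
            (CovZ.leaf K2_ok TF_l8184 _)
            (CovZ.leaf K2_ok TF_l8185 _)))
          (CovZ.n1 (25760, 2880) (by decide +kernel)
           (CovZ.leaf K2_ok TF_l8186 _)
           (CovZ.leaf K2_ok TF_l8187 _))))
        (CovZ.n1 (25920, 3200) (by decide +kernel)
         (CovZ.n2 (26080, 3040) (by decide +kernel)
          (CovZ.leaf K2_ok TF_l8188 _)
          (CovZ.leaf K2_ok TF_l8189 _))
         (CovZ.leaf K2_ok TF_l8190 _))))
      (CovZ.n1 (26240, 3840) (by decide +kernel)
       (CovZ.n2 (26560, 3520) (by decide +kernel)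
        (CovZ.leaf K2_ok TF_l8191 _)
        (CovZ.leaf K2_ok TF_l8192 _))
       (CovZ.n1 (25920, 3520) (by decide +kernel)
        (CovZ.leaf K2_ok TF_l8193 _)
        (CovZ.leaf K2_ok TF_l8194 _)))))
    (CovZ.subM 178405961588407402867857839712482915531096320 (by decide +kernel)
     (CovZ.n1 (26880, 5120) (by decide +kernel)
      (CovZ.subM 158456325028528675187123552512 (by decide +kernel)
       (CovZ.n2 (27520, 4480) (by decide +kernel)
        (CovZ.n2 (26880, 4480) (by decide +kernel)
         (CovZ.n2 (27200, 4800) (by decide +kernel)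
          (CovZ.n2 (27200, 4480) (by decide +kernel)
           (CovZ.n2 (27040, 4640) (by decide +kernel)
            (CovZ.n2 (27200, 4640) (by decide +kernel)
             (CovZ.n2 (27120, 4560) (by decide +kernel)
              (CovZ.leaf K2_ok TF_l8195 _)
              (CovZ.n1 (27200, 4560) (by decide +kernel)
               (CovZ.leaf K2_ok TF_l8196 _)
               (CovZ.leaf K2_ok TF_l8197 _)))
             (CovZ.n1 (27120, 4720) (by decide +kernel)
              (CovZ.badM (by decide +kernel))
              (CovZ.leaf K2_ok TF_l8199 _)))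
            (CovZ.leaf K2_ok TF_l8200 _))
           (CovZ.n1 (27360, 4640) (by decide +kernel)
            (CovZ.n2 (27360, 4480) (by decide +kernel)
             (CovZ.n2 (27280, 4560) (by decide +kernel)
              (CovZ.badM (by decide +kernel))
              (CovZ.leaf K2_ok TF_l8201 _))
             (CovZ.badM (by decide +kernel)))
            (CovZ.n1 (27200, 4640) (by decide +kernel)
             (CovZ.badM (by decide +kernel))
             (CovZ.n1 (27280, 4560) (by decide +kernel)
              (CovZ.leaf K2_ok TF_l8203 _)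
              (CovZ.badM (by decide +kernel))))))
          (CovZ.n1 (26880, 4800) (by decide +kernel)
           (CovZ.n2 (27040, 4960) (by decide +kernel)
            (CovZ.n2 (27040, 4800) (by decide +kernel)
             (CovZ.n2 (26960, 4880) (by decide +kernel)
              (CovZ.badM (by decide +kernel))
              (CovZ.leaf K2_ok TF_l8206 _))
             (CovZ.badM (by decide +kernel)))
            (CovZ.n1 (26880, 4960) (by decide +kernel)
             (CovZ.badM (by decide +kernel))
             (CovZ.n1 (26960, 4880) (by decide +kernel)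
              (CovZ.leaf K2_ok TF_l8212 _)
              (CovZ.badM (by decide +kernel)))))
           (CovZ.n1 (27040, 4640) (by decide +kernel)
            (CovZ.leaf K2_ok TF_l8214 _)
            (CovZ.n1 (27040, 4800) (by decide +kernel)
             (CovZ.n2 (27120, 4720) (by decide +kernel)
              (CovZ.leaf K2_ok TF_l8215 _)
              (CovZ.badM (by decide +kernel)))
             (CovZ.leaf K2_ok TF_l8219 _)))))
         (CovZ.n1 (27200, 4160) (by decide +kernel)
          (CovZ.n2 (26880, 4160) (by decide +kernel)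
           (CovZ.leaf K2_ok TF_l8220 _)
           (CovZ.n1 (27040, 4000) (by decide +kernel)
            (CovZ.leaf K2_ok TF_l8221 _)
            (CovZ.leaf K2_ok TF_l8222 _)))
          (CovZ.n1 (27200, 4480) (by decide +kernel)
           (CovZ.n2 (27360, 4320) (by decide +kernel)
            (CovZ.n2 (27200, 4320) (by decide +kernel)
             (CovZ.leaf K2_ok TF_l8223 _)
             (CovZ.n1 (27280, 4240) (by decide +kernel)
              (CovZ.leaf K2_ok TF_l8224 _)
              (CovZ.leaf K2_ok TF_l8225 _)))
            (CovZ.n1 (27360, 4480) (by decide +kernel)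
             (CovZ.n2 (27440, 4400) (by decide +kernel)
              (CovZ.n2 (27360, 4400) (by decide +kernel)
               (CovZ.leaf K2_ok TF_l15749 _)
               (CovZ.n1 (27400, 4360) (by decide +kernel)
                (CovZ.leaf K2_ok TF_l15750 _)
                (CovZ.n1 (27400, 4400) (by decide +kernel)
                 (CovZ.leaf K2_ok TF_l15751 _)
                 (CovZ.leaf K2_ok TF_l15752 _))))
              (CovZ.badM (by decide +kernel)))
             (CovZ.n1 (27280, 4400) (by decide +kernel)
              (CovZ.n2 (27280, 4480) (by decide +kernel)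
               (CovZ.n2 (27320, 4440) (by decide +kernel)
                (CovZ.leaf K2_ok TF_l15753 _)
                (CovZ.leaf K2_ok TF_l15754 _))
               (CovZ.leaf K2_ok TF_l8226 _))
              (CovZ.n1 (27360, 4400) (by decide +kernel)
               (CovZ.leaf K2_ok TF_l15755 _)
               (CovZ.n1 (27320, 4440) (by decide +kernel)
                (CovZ.leaf K2_ok TF_l15756 _)
                (CovZ.leaf K2_ok TF_l15757 _))))))
           (CovZ.n1 (27040, 4320) (by decide +kernel)
            (CovZ.n2 (27040, 4480) (by decide +kernel)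
             (CovZ.leaf K2_ok TF_l8227 _)
             (CovZ.leaf K2_ok TF_l8228 _))
            (CovZ.n1 (27200, 4320) (by decide +kernel)
             (CovZ.leaf K2_ok TF_l8229 _)
             (CovZ.leaf K2_ok TF_l8230 _))))))
        (CovZ.badM (by decide +kernel))))
      (CovZ.n1 (26240, 4480) (by decide +kernel)
       (CovZ.n2 (26240, 5120) (by decide +kernel)
        (CovZ.n2 (26560, 4800) (by decide +kernel)
         (CovZ.leaf K2_ok TF_l8232 _)
         (CovZ.subM 158458742880167904445472964608 (by decide +kernel)
          (CovZ.n1 (26560, 5120) (by decide +kernel)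
           (CovZ.n2 (26720, 4960) (by decide +kernel)
            (CovZ.leaf K2_ok TF_l8233 _)
            (CovZ.n1 (26720, 5120) (by decide +kernel)
             (CovZ.n2 (26800, 5040) (by decide +kernel)
              (CovZ.leaf K2_ok TF_l8234 _)
              (CovZ.badM (by decide +kernel)))
             (CovZ.leaf K2_ok TF_l8236 _)))
           (CovZ.leaf K2_ok TF_l8237 _))))
        (CovZ.n1 (25920, 4800) (by decide +kernel)
         (CovZ.leaf K2_ok TF_l8238 _)
         (CovZ.leaf K2_ok TF_l8239 _)))
       (CovZ.n1 (26880, 4480) (by decide +kernel)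
        (CovZ.n2 (26560, 4160) (by decide +kernel)
         (CovZ.n2 (26560, 4480) (by decide +kernel)
          (CovZ.leaf K2_ok TF_l8240 _)
          (CovZ.leaf K2_ok TF_l8241 _))
         (CovZ.n1 (26880, 4160) (by decide +kernel)
          (CovZ.leaf K2_ok TF_l8242 _)
          (CovZ.leaf K2_ok TF_l8243 _)))
        (CovZ.n1 (26560, 4800) (by decide +kernel)
         (CovZ.subM 158456325028528675187123552256 (by decide +kernel)
          (CovZ.n2 (26880, 4800) (by decide +kernel)
           (CovZ.n2 (26720, 4640) (by decide +kernel)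
            (CovZ.leaf K2_ok TF_l8244 _)
            (CovZ.leaf K2_ok TF_l8245 _))
           (CovZ.n1 (26720, 4960) (by decide +kernel)
            (CovZ.n2 (26880, 4960) (by decide +kernel)
             (CovZ.leaf K2_ok TF_l8246 _)
             (CovZ.n1 (26800, 5040) (by decide +kernel)
              (CovZ.badM (by decide +kernel))
              (CovZ.leaf K2_ok TF_l8248 _)))
            (CovZ.leaf K2_ok TF_l8249 _))))
         (CovZ.leaf K2_ok TF_l8250 _))))))))

theorem TF_s14_4 : SqZ TF_M TF_L [0, 7, 4, 3] (-7680) (-7680) 2560 14 4 :=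
  SqZ.mk (a := 28160) (b := 30720) (c := 2560) (d := 5120) (by norm_num) (by norm_num) (by norm_num) (by norm_num)
    (CovZ.topM TF_LL 158456325028528675187087900672 (by decide +kernel) (CovZ.n2 (29440, 3840) (by decide +kernel)
    (CovZ.badM (by decide +kernel))
    (CovZ.n1 (29440, 2560) (by decide +kernel)
     (CovZ.n2 (28800, 3200) (by decide +kernel)
      (CovZ.badM (by decide +kernel))
      (CovZ.n1 (28800, 2560) (by decide +kernel)
       (CovZ.n2 (28480, 2880) (by decide +kernel)
        (CovZ.badM (by decide +kernel))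
        (CovZ.badM (by decide +kernel)))
       (CovZ.badM (by decide +kernel))))
     (CovZ.badM (by decide +kernel)))))
    (CovZ.topM TF_LL 158456325028528675187121455360 (by decide +kernel) (CovZ.n0 (29440, 3840) (by decide +kernel)
    (CovZ.n2 (28160, 3840) (by decide +kernel)
     (CovZ.n2 (28800, 4480) (by decide +kernel)
      (CovZ.badM (by decide +kernel))
      (CovZ.n1 (28160, 4480) (by decide +kernel)
       (CovZ.badM (by decide +kernel))
       (CovZ.badM (by decide +kernel))))
     (CovZ.n1 (28800, 3200) (by decide +kernel)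
      (CovZ.n2 (28160, 3200) (by decide +kernel)
       (CovZ.badM (by decide +kernel))
       (CovZ.n1 (28480, 2880) (by decide +kernel)
        (CovZ.n2 (28160, 2880) (by decide +kernel)
         (CovZ.n2 (28320, 3040) (by decide +kernel)
          (CovZ.badM (by decide +kernel))
          (CovZ.n1 (28160, 3040) (by decide +kernel)
           (CovZ.badM (by decide +kernel))
           (CovZ.badM (by decide +kernel))))
         (CovZ.badM (by decide +kernel)))
        (CovZ.badM (by decide +kernel))))
      (CovZ.badM (by decide +kernel))))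
    (CovZ.n1 (29440, 5120) (by decide +kernel)
     (CovZ.badM (by decide +kernel))
     (CovZ.n1 (28800, 4480) (by decide +kernel)
      (CovZ.badM (by decide +kernel))
      (CovZ.badM (by decide +kernel))))))

theorem TF_s15_4 : SqZ TF_M TF_L [0, 7, 4, 3] (-7680) (-7680) 2560 15 4 :=
  SqZ.mk (a := 30720) (b := 33280) (c := 2560) (d := 5120) (by norm_num) (by norm_num) (by norm_num) (by norm_num)
    (CovZ.topM TF_LL 0 (by decide +kernel) (CovZ.badM (by decide +kernel)))
    (CovZ.topM TF_LL 0 (by decide +kernel) (CovZ.badM (by decide +kernel)))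

theorem TF_s0_5 : SqZ TF_M TF_L [0, 7, 4, 3] (-7680) (-7680) 2560 0 5 :=
  SqZ.mk (a := (-7680)) (b := (-5120)) (c := 5120) (d := 7680) (by norm_num) (by norm_num) (by norm_num) (by norm_num)
    (CovZ.topM TF_LL 17592186044416 (by decide +kernel) (CovZ.n2 (-6400, 6400) (by decide +kernel)
    (CovZ.n2 (-5120, 6400) (by decide +kernel)
     (CovZ.badM (by decide +kernel))
     (CovZ.badM (by decide +kernel)))
    (CovZ.badM (by decide +kernel))))
    (CovZ.topM TF_LL 17592186044416 (by decide +kernel) (CovZ.n0 (-6400, 6400) (by decide +kernel)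
    (CovZ.badM (by decide +kernel))
    (CovZ.badM (by decide +kernel))))

theorem TF_s1_5 : SqZ TF_M TF_L [0, 7, 4, 3] (-7680) (-7680) 2560 1 5 :=
  SqZ.mk (a := (-5120)) (b := (-2560)) (c := 5120) (d := 7680) (by norm_num) (by norm_num) (by norm_num) (by norm_num)
    (CovZ.topM TF_LL 17592186044416 (by decide +kernel) (CovZ.n2 (-3840, 6400) (by decide +kernel)
    (CovZ.n2 (-2560, 6400) (by decide +kernel)
     (CovZ.n2 (-3200, 5760) (by decide +kernel)
      (CovZ.badM (by decide +kernel))
      (CovZ.n1 (-2560, 5760) (by decide +kernel)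
       (CovZ.n2 (-2880, 5440) (by decide +kernel)
        (CovZ.badM (by decide +kernel))
        (CovZ.n1 (-2560, 5440) (by decide +kernel)
         (CovZ.badM (by decide +kernel))
         (CovZ.badM (by decide +kernel))))
       (CovZ.badM (by decide +kernel))))
     (CovZ.badM (by decide +kernel)))
    (CovZ.n1 (-3840, 5120) (by decide +kernel)
     (CovZ.n2 (-4480, 5760) (by decide +kernel)
      (CovZ.n2 (-3840, 5760) (by decide +kernel)
       (CovZ.badM (by decide +kernel))
       (CovZ.badM (by decide +kernel)))
      (CovZ.badM (by decide +kernel)))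
     (CovZ.n1 (-3200, 5760) (by decide +kernel)
      (CovZ.badM (by decide +kernel))
      (CovZ.n1 (-3840, 5760) (by decide +kernel)
       (CovZ.badM (by decide +kernel))
       (CovZ.badM (by decide +kernel)))))))
    (CovZ.topM TF_LL 4521191813414912 (by decide +kernel) (CovZ.n0 (-3840, 6400) (by decide +kernel)
    (CovZ.n2 (-5120, 6400) (by decide +kernel)
     (CovZ.badM (by decide +kernel))
     (CovZ.n1 (-4480, 5760) (by decide +kernel)
      (CovZ.badM (by decide +kernel))
      (CovZ.badM (by decide +kernel))))
    (CovZ.n1 (-3840, 7680) (by decide +kernel)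
     (CovZ.badM (by decide +kernel))
     (CovZ.badM (by decide +kernel)))))

theorem TF_s2_5 : SqZ TF_M TF_L [0, 7, 4, 3] (-7680) (-7680) 2560 2 5 :=
  SqZ.mk (a := (-2560)) (b := 0) (c := 5120) (d := 7680) (by norm_num) (by norm_num) (by norm_num) (by norm_num)
    (CovZ.topM TF_LL 1459130884149761890280622000376467885720600 (by decide +kernel) (CovZ.n2 (-1280, 6400) (by decide +kernel)
    (CovZ.n2 (0, 6400) (by decide +kernel)
     (CovZ.n2 (-640, 5760) (by decide +kernel)
      (CovZ.n2 (-640, 6400) (by decide +kernel)
       (CovZ.leaf K2_ok TF_l1565 _)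
       (CovZ.n1 (-960, 6080) (by decide +kernel)
        (CovZ.leaf K2_ok TF_l1566 _)
        (CovZ.leaf K2_ok TF_l1567 _)))
      (CovZ.n1 (0, 5760) (by decide +kernel)
       (CovZ.leaf K2_ok TF_l1568 _)
       (CovZ.leaf K2_ok TF_l1569 _)))
     (CovZ.n1 (-640, 7040) (by decide +kernel)
      (CovZ.leaf K2_ok TF_l1570 _)
      (CovZ.leaf K2_ok TF_l1571 _)))
    (CovZ.n1 (-1280, 5120) (by decide +kernel)
     (CovZ.subM 1298074214633706907150216268349440 (by decide +kernel)
      (CovZ.n2 (-1920, 5760) (by decide +kernel)
       (CovZ.n2 (-1280, 5760) (by decide +kernel)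
        (CovZ.badM (by decide +kernel))
        (CovZ.n1 (-1600, 6080) (by decide +kernel)
         (CovZ.n2 (-1280, 6080) (by decide +kernel)
          (CovZ.badM (by decide +kernel))
          (CovZ.leaf K2_ok TF_l1572 _))
         (CovZ.badM (by decide +kernel))))
       (CovZ.n1 (-1920, 5120) (by decide +kernel)
        (CovZ.n2 (-2240, 5440) (by decide +kernel)
         (CovZ.badM (by decide +kernel))
         (CovZ.n1 (-2240, 5120) (by decide +kernel)
          (CovZ.n2 (-2400, 5280) (by decide +kernel)
           (CovZ.badM (by decide +kernel))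
           (CovZ.badM (by decide +kernel)))
          (CovZ.badM (by decide +kernel))))
        (CovZ.badM (by decide +kernel)))))
     (CovZ.n1 (-640, 5760) (by decide +kernel)
      (CovZ.n2 (-640, 5120) (by decide +kernel)
       (CovZ.subM 65334297528506397824582164023674187874320 (by decide +kernel)
        (CovZ.n2 (-960, 5440) (by decide +kernel)
         (CovZ.leaf K2_ok TF_l1573 _)
         (CovZ.n1 (-960, 5120) (by decide +kernel)
          (CovZ.n2 (-1120, 5280) (by decide +kernel)
           (CovZ.leaf K2_ok TF_l1574 _)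
           (CovZ.leaf K2_ok TF_l1575 _))
          (CovZ.leaf K2_ok TF_l1576 _))))
       (CovZ.leaf K2_ok TF_l1577 _))
      (CovZ.subM 65334298824045233886580157017037682573328 (by decide +kernel)
       (CovZ.n1 (-1280, 5760) (by decide +kernel)
        (CovZ.leaf K2_ok TF_l1578 _)
        (CovZ.n1 (-960, 5440) (by decide +kernel)
         (CovZ.n2 (-1280, 5440) (by decide +kernel)
          (CovZ.leaf K2_ok TF_l1579 _)
          (CovZ.n1 (-1120, 5280) (by decide +kernel)
           (CovZ.badM (by decide +kernel))
           (CovZ.leaf K2_ok TF_l1581 _)))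
         (CovZ.n1 (-960, 5760) (by decide +kernel)
          (CovZ.leaf K2_ok TF_l1582 _)
          (CovZ.leaf K2_ok TF_l1583 _)))))))))
    (CovZ.topM TF_LL 65334309208639028328668750408883320718360 (by decide +kernel) (CovZ.n0 (-1280, 6400) (by decide +kernel)
    (CovZ.subM 1298074214633706907150216268349440 (by decide +kernel)
     (CovZ.n2 (-2560, 6400) (by decide +kernel)
      (CovZ.n2 (-1920, 7040) (by decide +kernel)
       (CovZ.n2 (-1920, 6400) (by decide +kernel)
        (CovZ.badM (by decide +kernel))
        (CovZ.n1 (-1600, 6720) (by decide +kernel)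
         (CovZ.n2 (-1600, 6400) (by decide +kernel)
          (CovZ.n2 (-1760, 6560) (by decide +kernel)
           (CovZ.leaf K2_ok TF_l10650 _)
           (CovZ.n1 (-1760, 6400) (by decide +kernel)
            (CovZ.n2 (-1840, 6480) (by decide +kernel)
             (CovZ.leaf K2_ok TF_l10651 _)
             (CovZ.leaf K2_ok TF_l10652 _))
            (CovZ.leaf K2_ok TF_l10653 _)))
          (CovZ.leaf K2_ok TF_l1584 _))
         (CovZ.n1 (-1920, 6720) (by decide +kernel)
          (CovZ.leaf K2_ok TF_l10654 _)
          (CovZ.n1 (-1760, 6560) (by decide +kernel)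
           (CovZ.n2 (-1920, 6560) (by decide +kernel)
            (CovZ.leaf K2_ok TF_l10655 _)
            (CovZ.n1 (-1840, 6480) (by decide +kernel)
             (CovZ.leaf K2_ok TF_l10656 _)
             (CovZ.leaf K2_ok TF_l10657 _)))
           (CovZ.n1 (-1760, 6720) (by decide +kernel)
            (CovZ.leaf K2_ok TF_l10658 _)
            (CovZ.leaf K2_ok TF_l10659 _))))))
       (CovZ.badM (by decide +kernel)))
      (CovZ.n1 (-1920, 5760) (by decide +kernel)
       (CovZ.n2 (-2560, 5760) (by decide +kernel)
        (CovZ.badM (by decide +kernel))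
        (CovZ.n1 (-2240, 5440) (by decide +kernel)
         (CovZ.n2 (-2560, 5440) (by decide +kernel)
          (CovZ.badM (by decide +kernel))
          (CovZ.n1 (-2400, 5280) (by decide +kernel)
           (CovZ.badM (by decide +kernel))
           (CovZ.badM (by decide +kernel))))
         (CovZ.badM (by decide +kernel))))
       (CovZ.n1 (-1920, 6400) (by decide +kernel)
        (CovZ.n2 (-1600, 6080) (by decide +kernel)
         (CovZ.n2 (-1920, 6080) (by decide +kernel)
          (CovZ.n2 (-1760, 6240) (by decide +kernel)
           (CovZ.n2 (-1760, 6080) (by decide +kernel)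
            (CovZ.n2 (-1840, 6160) (by decide +kernel)
             (CovZ.n2 (-1760, 6160) (by decide +kernel)
              (CovZ.n2 (-1800, 6120) (by decide +kernel)
               (CovZ.leaf K2_ok TF_l10660 _)
               (CovZ.leaf K2_ok TF_l10661 _))
              (CovZ.leaf K2_ok TF_l10662 _))
             (CovZ.n1 (-1840, 6080) (by decide +kernel)
              (CovZ.n2 (-1880, 6120) (by decide +kernel)
               (CovZ.n2 (-1840, 6120) (by decide +kernel)
                (CovZ.badM (by decide +kernel))
                (CovZ.leaf K2_ok TF_l10663 _))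
               (CovZ.badM (by decide +kernel)))
              (CovZ.leaf K2_ok TF_l10664 _)))
            (CovZ.leaf K2_ok TF_l10665 _))
           (CovZ.n1 (-1920, 6240) (by decide +kernel)
            (CovZ.n2 (-1840, 6320) (by decide +kernel)
             (CovZ.n2 (-1840, 6240) (by decide +kernel)
              (CovZ.n2 (-1880, 6280) (by decide +kernel)
               (CovZ.leaf K2_ok TF_l10666 _)
               (CovZ.leaf K2_ok TF_l10667 _))
              (CovZ.leaf K2_ok TF_l10668 _))
             (CovZ.n1 (-1920, 6320) (by decide +kernel)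
              (CovZ.leaf K2_ok TF_l10669 _)
              (CovZ.n1 (-1880, 6280) (by decide +kernel)
               (CovZ.leaf K2_ok TF_l10670 _)
               (CovZ.leaf K2_ok TF_l10671 _))))
            (CovZ.n1 (-1840, 6160) (by decide +kernel)
             (CovZ.n2 (-1920, 6160) (by decide +kernel)
              (CovZ.n2 (-1880, 6200) (by decide +kernel)
               (CovZ.n2 (-1880, 6160) (by decide +kernel)
                (CovZ.n2 (-1900, 6180) (by decide +kernel)
                 (CovZ.leaf K2_ok TF_l10672 _)
                 (CovZ.leaf K2_ok TF_l10673 _))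
                (CovZ.leaf K2_ok TF_l10674 _))
               (CovZ.n1 (-1920, 6200) (by decide +kernel)
                (CovZ.leaf K2_ok TF_l10675 _)
                (CovZ.n1 (-1900, 6180) (by decide +kernel)
                 (CovZ.leaf K2_ok TF_l10676 _)
                 (CovZ.leaf K2_ok TF_l10677 _))))
              (CovZ.n1 (-1880, 6120) (by decide +kernel)
               (CovZ.n2 (-1920, 6120) (by decide +kernel)
                (CovZ.n2 (-1900, 6140) (by decide +kernel)
                 (CovZ.n2 (-1900, 6120) (by decide +kernel)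
                  (CovZ.leaf K2_ok TF_l10678 _)
                  (CovZ.leaf K2_ok TF_l10679 _))
                 (CovZ.n1 (-1920, 6140) (by decide +kernel)
                  (CovZ.leaf K2_ok TF_l10680 _)
                  (CovZ.leaf K2_ok TF_l10681 _)))
                (CovZ.badM (by decide +kernel)))
               (CovZ.n1 (-1880, 6160) (by decide +kernel)
                (CovZ.leaf K2_ok TF_l10682 _)
                (CovZ.n1 (-1900, 6140) (by decide +kernel)
                 (CovZ.n2 (-1900, 6160) (by decide +kernel)
                  (CovZ.leaf K2_ok TF_l10683 _)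
                  (CovZ.leaf K2_ok TF_l10684 _))
                 (CovZ.leaf K2_ok TF_l10685 _)))))
             (CovZ.n1 (-1840, 6240) (by decide +kernel)
              (CovZ.leaf K2_ok TF_l10686 _)
              (CovZ.n1 (-1880, 6200) (by decide +kernel)
               (CovZ.n2 (-1880, 6240) (by decide +kernel)
                (CovZ.leaf K2_ok TF_l10687 _)
                (CovZ.leaf K2_ok TF_l10688 _))
               (CovZ.leaf K2_ok TF_l10689 _))))))
          (CovZ.badM (by decide +kernel)))
         (CovZ.n1 (-1600, 6400) (by decide +kernel)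
          (CovZ.n2 (-1440, 6240) (by decide +kernel)
           (CovZ.leaf K2_ok TF_l10690 _)
           (CovZ.leaf K2_ok TF_l1594 _))
          (CovZ.n1 (-1760, 6240) (by decide +kernel)
           (CovZ.n2 (-1760, 6400) (by decide +kernel)
            (CovZ.leaf K2_ok TF_l10691 _)
            (CovZ.n1 (-1840, 6320) (by decide +kernel)
             (CovZ.n2 (-1840, 6400) (by decide +kernel)
              (CovZ.leaf K2_ok TF_l10692 _)
              (CovZ.leaf K2_ok TF_l10693 _))
             (CovZ.leaf K2_ok TF_l10694 _)))
           (CovZ.n1 (-1600, 6240) (by decide +kernel)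
            (CovZ.leaf K2_ok TF_l10695 _)
            (CovZ.leaf K2_ok TF_l10696 _)))))
        (CovZ.badM (by decide +kernel))))))
    (CovZ.n1 (-1280, 7680) (by decide +kernel)
     (CovZ.n2 (-640, 7040) (by decide +kernel)
      (CovZ.leaf K2_ok TF_l1595 _)
      (CovZ.leaf K2_ok TF_l1596 _))
     (CovZ.subM 1298074214633706907132624082305024 (by decide +kernel)
      (CovZ.n1 (-1920, 7040) (by decide +kernel)
       (CovZ.n2 (-1920, 7680) (by decide +kernel)
        (CovZ.n2 (-1600, 7360) (by decide +kernel)
         (CovZ.n2 (-1920, 7360) (by decide +kernel)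
          (CovZ.leaf K2_ok TF_l1597 _)
          (CovZ.leaf K2_ok TF_l10697 _))
         (CovZ.leaf K2_ok TF_l1598 _))
        (CovZ.badM (by decide +kernel)))
       (CovZ.n1 (-1280, 7040) (by decide +kernel)
        (CovZ.n2 (-1600, 6720) (by decide +kernel)
         (CovZ.n2 (-1600, 7040) (by decide +kernel)
          (CovZ.leaf K2_ok TF_l1607 _)
          (CovZ.n1 (-1760, 6880) (by decide +kernel)
           (CovZ.leaf K2_ok TF_l10698 _)
           (CovZ.leaf K2_ok TF_l10699 _)))
         (CovZ.leaf K2_ok TF_l1608 _))
        (CovZ.n1 (-1600, 7360) (by decide +kernel)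
         (CovZ.leaf K2_ok TF_l1609 _)
         (CovZ.leaf K2_ok TF_l1610 _))))))))

theorem TF_s3_5 : SqZ TF_M TF_L [0, 7, 4, 3] (-7680) (-7680) 2560 3 5 :=
  SqZ.mk (a := 0) (b := 2560) (c := 5120) (d := 7680) (by norm_num) (by norm_num) (by norm_num) (by norm_num)
    (CovZ.topM TF_LL 194285559467249524250569528729698892483803555035 (by decide +kernel) (CovZ.n2 (1280, 6400) (by decide +kernel)
    (CovZ.n2 (2560, 6400) (by decide +kernel)
     (CovZ.leaf K2_ok TF_l3423 _)
     (CovZ.leaf K2_ok TF_l3424 _))
    (CovZ.leaf K2_ok TF_l3425 _)))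
    (CovZ.topM TF_LL 1461853132701169508636639510839777918264410 (by decide +kernel) (CovZ.n0 (1280, 6400) (by decide +kernel)
    (CovZ.leaf K2_ok TF_l3426 _)
    (CovZ.leaf K2_ok TF_l3427 _)))

theorem TF_s4_5 : SqZ TF_M TF_L [0, 7, 4, 3] (-7680) (-7680) 2560 4 5 :=
  SqZ.mk (a := 2560) (b := 5120) (c := 5120) (d := 7680) (by norm_num) (by norm_num) (by norm_num) (by norm_num)
    (CovZ.topM TF_LL 197138629750109102138244869137996643685274558555 (by decide +kernel) (CovZ.n2 (3840, 6400) (by decide +kernel)
    (CovZ.leaf K2_ok TF_l4315 _)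
    (CovZ.n1 (3840, 5120) (by decide +kernel)
     (CovZ.n2 (3200, 5760) (by decide +kernel)
      (CovZ.leaf K2_ok TF_l4316 _)
      (CovZ.leaf K2_ok TF_l4317 _))
     (CovZ.leaf K2_ok TF_l4318 _))))
    (CovZ.topM TF_LL 197138671945122601443963356301023335271457956059 (by decide +kernel) (CovZ.n0 (3840, 6400) (by decide +kernel)
    (CovZ.n2 (2560, 6400) (by decide +kernel)
     (CovZ.leaf K2_ok TF_l4319 _)
     (CovZ.n1 (3200, 5760) (by decide +kernel)
      (CovZ.leaf K2_ok TF_l4320 _)
      (CovZ.leaf K2_ok TF_l4321 _)))
    (CovZ.leaf K2_ok TF_l4322 _)))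

theorem TF_s5_5 : SqZ TF_M TF_L [0, 7, 4, 3] (-7680) (-7680) 2560 5 5 :=
  SqZ.mk (a := 5120) (b := 7680) (c := 5120) (d := 7680) (by norm_num) (by norm_num) (by norm_num) (by norm_num)
    (CovZ.topM TF_LL 294191440187012341927070873688213953927244245083 (by decide +kernel) (CovZ.n2 (6400, 6400) (by decide +kernel)
    (CovZ.leaf K2_ok TF_l4641 _)
    (CovZ.leaf K2_ok TF_l4642 _)))
    (CovZ.topM TF_LL 197138618861078552965072610916497823752877320283 (by decide +kernel) (CovZ.n0 (6400, 6400) (by decide +kernel)
    (CovZ.leaf K2_ok TF_l4643 _)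
    (CovZ.leaf K2_ok TF_l4644 _)))

theorem TF_s6_5 : SqZ TF_M TF_L [0, 7, 4, 3] (-7680) (-7680) 2560 6 5 :=
  SqZ.mk (a := 7680) (b := 10240) (c := 5120) (d := 7680) (by norm_num) (by norm_num) (by norm_num) (by norm_num)
    (CovZ.topM TF_LL 288482449506907958167651557812161953358368827418 (by decide +kernel) (CovZ.n2 (8960, 6400) (by decide +kernel)
    (CovZ.leaf K2_ok TF_l4819 _)
    (CovZ.leaf K2_ok TF_l4820 _)))
    (CovZ.topM TF_LL 288482449506907968308856359638285395708146182235 (by decide +kernel) (CovZ.leaf K2_ok TF_l4821 _))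

theorem TF_s7_5 : SqZ TF_M TF_L [0, 7, 4, 3] (-7680) (-7680) 2560 7 5 :=
  SqZ.mk (a := 10240) (b := 12800) (c := 5120) (d := 7680) (by norm_num) (by norm_num) (by norm_num) (by norm_num)
    (CovZ.topM TF_LL 194284100426847639038246217294869814189231204378 (by decide +kernel) (CovZ.leaf K2_ok TF_l5067 _))
    (CovZ.topM TF_LL 285627954121158539109730222077408480815616124954 (by decide +kernel) (CovZ.leaf K2_ok TF_l5068 _))

theorem TF_s8_5 : SqZ TF_M TF_L [0, 7, 4, 3] (-7680) (-7680) 2560 8 5 :=
  SqZ.mk (a := 12800) (b := 15360) (c := 5120) (d := 7680) (by norm_num) (by norm_num) (by norm_num) (by norm_num)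
    (CovZ.topM TF_LL 194284100472040092821337693286334813951153430586 (by decide +kernel) (CovZ.leaf K2_ok TF_l5344 _))
    (CovZ.topM TF_LL 194284100429506095030435019060320120646264709178 (by decide +kernel) (CovZ.leaf K2_ok TF_l5345 _))

theorem TF_s9_5 : SqZ TF_M TF_L [0, 7, 4, 3] (-7680) (-7680) 2560 9 5 :=
  SqZ.mk (a := 15360) (b := 17920) (c := 5120) (d := 7680) (by norm_num) (by norm_num) (by norm_num) (by norm_num)
    (CovZ.topM TF_LL 194284092305263286718814419049616502010213834794 (by decide +kernel) (CovZ.leaf K2_ok TF_l5710 _))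
    (CovZ.topM TF_LL 194284100472040092821337693286334532201297764410 (by decide +kernel) (CovZ.leaf K2_ok TF_l5711 _))

theorem TF_s10_5 : SqZ TF_M TF_L [0, 7, 4, 3] (-7680) (-7680) 2560 10 5 :=
  SqZ.mk (a := 17920) (b := 20480) (c := 5120) (d := 7680) (by norm_num) (by norm_num) (by norm_num) (by norm_num)
    (CovZ.topM TF_LL 182866110763615605135046928467155124454068060202 (by decide +kernel) (CovZ.n2 (19200, 6400) (by decide +kernel)
    (CovZ.leaf K2_ok TF_l6156 _)
    (CovZ.leaf K2_ok TF_l6157 _)))
    (CovZ.topM TF_LL 182866110763615605135046930828338365888890675242 (by decide +kernel) (CovZ.n0 (19200, 6400) (by decide +kernel)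
    (CovZ.leaf K2_ok TF_l6158 _)
    (CovZ.leaf K2_ok TF_l6159 _)))

theorem TF_s11_5 : SqZ TF_M TF_L [0, 7, 4, 3] (-7680) (-7680) 2560 11 5 :=
  SqZ.mk (a := 20480) (b := 23040) (c := 5120) (d := 7680) (by norm_num) (by norm_num) (by norm_num) (by norm_num)
    (CovZ.topM TF_LL 182866110761538685755331892743973659229965778946 (by decide +kernel) (CovZ.n2 (21760, 6400) (by decide +kernel)
    (CovZ.subM 178406051975911116242174976103230404162486274 (by decide +kernel)
     (CovZ.n2 (23040, 6400) (by decide +kernel)
      (CovZ.n2 (22400, 5760) (by decide +kernel)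
       (CovZ.leaf K2_ok TF_l6586 _)
       (CovZ.leaf K2_ok TF_l6587 _))
      (CovZ.n1 (22400, 7040) (by decide +kernel)
       (CovZ.leaf K2_ok TF_l6588 _)
       (CovZ.leaf K2_ok TF_l6589 _))))
    (CovZ.n1 (21760, 5120) (by decide +kernel)
     (CovZ.leaf K2_ok TF_l6590 _)
     (CovZ.leaf K2_ok TF_l6591 _))))
    (CovZ.topM TF_LL 182866110761538685755331817186109933281282621442 (by decide +kernel) (CovZ.n0 (21760, 6400) (by decide +kernel)
    (CovZ.leaf K2_ok TF_l6592 _)
    (CovZ.n1 (21760, 7680) (by decide +kernel)
     (CovZ.n2 (22400, 7040) (by decide +kernel)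
      (CovZ.leaf K2_ok TF_l6593 _)
      (CovZ.leaf K2_ok TF_l6594 _))
     (CovZ.leaf K2_ok TF_l6595 _))))

theorem TF_s12_5 : SqZ TF_M TF_L [0, 7, 4, 3] (-7680) (-7680) 2560 12 5 :=
  SqZ.mk (a := 23040) (b := 25600) (c := 5120) (d := 7680) (by norm_num) (by norm_num) (by norm_num) (by norm_num)
    (CovZ.topM TF_LL 178406046658999133102511484488002163041107970 (by decide +kernel) (CovZ.n2 (24320, 6400) (by decide +kernel)
    (CovZ.n2 (25600, 6400) (by decide +kernel)
     (CovZ.n2 (24960, 5760) (by decide +kernel)
      (CovZ.n2 (24960, 6400) (by decide +kernel)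
       (CovZ.n2 (25280, 6080) (by decide +kernel)
        (CovZ.leaf K2_ok TF_l7064 _)
        (CovZ.leaf K2_ok TF_l7065 _))
       (CovZ.leaf K2_ok TF_l7066 _))
      (CovZ.n1 (25600, 5760) (by decide +kernel)
       (CovZ.leaf K2_ok TF_l7067 _)
       (CovZ.n1 (25280, 6080) (by decide +kernel)
        (CovZ.leaf K2_ok TF_l7068 _)
        (CovZ.leaf K2_ok TF_l7069 _))))
     (CovZ.subM 178405961588407402865439988073253657181683712 (by decide +kernel)
      (CovZ.n1 (24960, 7040) (by decide +kernel)
       (CovZ.n2 (25600, 7040) (by decide +kernel)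
        (CovZ.n2 (25280, 6720) (by decide +kernel)
         (CovZ.n2 (25280, 7040) (by decide +kernel)
          (CovZ.n2 (25440, 6880) (by decide +kernel)
           (CovZ.leaf K2_ok TF_l7070 _)
           (CovZ.leaf K2_ok TF_l15209 _))
          (CovZ.leaf K2_ok TF_l7071 _))
         (CovZ.n1 (25600, 6720) (by decide +kernel)
          (CovZ.leaf K2_ok TF_l7072 _)
          (CovZ.n1 (25440, 6880) (by decide +kernel)
           (CovZ.leaf K2_ok TF_l15210 _)
           (CovZ.leaf K2_ok TF_l7073 _))))
        (CovZ.n1 (25280, 7360) (by decide +kernel)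
         (CovZ.badM (by decide +kernel))
         (CovZ.leaf K2_ok TF_l7074 _)))
       (CovZ.leaf K2_ok TF_l7075 _))))
    (CovZ.n1 (24320, 5120) (by decide +kernel)
     (CovZ.leaf K2_ok TF_l7076 _)
     (CovZ.leaf K2_ok TF_l7077 _))))
    (CovZ.topM TF_LL 178406046658999133102511484488002163041107970 (by decide +kernel) (CovZ.n0 (24320, 6400) (by decide +kernel)
    (CovZ.n2 (23040, 6400) (by decide +kernel)
     (CovZ.leaf K2_ok TF_l7078 _)
     (CovZ.leaf K2_ok TF_l7079 _))
    (CovZ.subM 178406046658999133100055853916905515123736576 (by decide +kernel)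
     (CovZ.n1 (24320, 7680) (by decide +kernel)
      (CovZ.n2 (24960, 7040) (by decide +kernel)
       (CovZ.leaf K2_ok TF_l7080 _)
       (CovZ.subM 178406046658836873823226640553513937077796864 (by decide +kernel)
        (CovZ.n1 (24960, 7680) (by decide +kernel)
         (CovZ.n2 (25280, 7360) (by decide +kernel)
          (CovZ.leaf K2_ok TF_l7081 _)
          (CovZ.n1 (25280, 7680) (by decide +kernel)
           (CovZ.badM (by decide +kernel))
           (CovZ.n1 (25120, 7520) (by decide +kernel)
            (CovZ.leaf K2_ok TF_l15211 _)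
            (CovZ.badM (by decide +kernel)))))
         (CovZ.n1 (24640, 7360) (by decide +kernel)
          (CovZ.leaf K2_ok TF_l7082 _)
          (CovZ.n1 (24960, 7360) (by decide +kernel)
           (CovZ.leaf K2_ok TF_l7083 _)
           (CovZ.leaf K2_ok TF_l7084 _))))))
      (CovZ.n1 (23680, 7040) (by decide +kernel)
       (CovZ.leaf K2_ok TF_l7085 _)
       (CovZ.n1 (24320, 7040) (by decide +kernel)
        (CovZ.leaf K2_ok TF_l7086 _)
        (CovZ.leaf K2_ok TF_l7087 _)))))))

theorem TF_s13_5 : SqZ TF_M TF_L [0, 7, 4, 3] (-7680) (-7680) 2560 13 5 :=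
  SqZ.mk (a := 25600) (b := 28160) (c := 5120) (d := 7680) (by norm_num) (by norm_num) (by norm_num) (by norm_num)
    (CovZ.topM TF_LL 178405961588407402867857839712482915531096064 (by decide +kernel) (CovZ.n2 (26880, 6400) (by decide +kernel)
    (CovZ.n2 (28160, 6400) (by decide +kernel)
     (CovZ.n2 (27520, 5760) (by decide +kernel)
      (CovZ.badM (by decide +kernel))
      (CovZ.badM (by decide +kernel)))
     (CovZ.badM (by decide +kernel)))
    (CovZ.n1 (26880, 5120) (by decide +kernel)
     (CovZ.n2 (26240, 5760) (by decide +kernel)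
      (CovZ.subM 2417851639229258349412352 (by decide +kernel)
       (CovZ.n2 (26880, 5760) (by decide +kernel)
        (CovZ.n2 (26560, 5440) (by decide +kernel)
         (CovZ.n2 (26560, 5760) (by decide +kernel)
          (CovZ.n2 (26720, 5600) (by decide +kernel)
           (CovZ.n2 (26560, 5600) (by decide +kernel)
            (CovZ.badM (by decide +kernel))
            (CovZ.n1 (26640, 5520) (by decide +kernel)
             (CovZ.leaf K2_ok TF_l8253 _)
             (CovZ.badM (by decide +kernel))))
           (CovZ.badM (by decide +kernel)))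
          (CovZ.n1 (26400, 5600) (by decide +kernel)
           (CovZ.badM (by decide +kernel))
           (CovZ.n1 (26560, 5600) (by decide +kernel)
            (CovZ.leaf K2_ok TF_l8261 _)
            (CovZ.badM (by decide +kernel)))))
         (CovZ.n1 (26880, 5440) (by decide +kernel)
          (CovZ.n2 (26720, 5280) (by decide +kernel)
           (CovZ.n2 (26720, 5440) (by decide +kernel)
            (CovZ.n2 (26800, 5360) (by decide +kernel)
             (CovZ.leaf K2_ok TF_l8265 _)
             (CovZ.n1 (26800, 5440) (by decide +kernel)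
              (CovZ.n2 (26840, 5400) (by decide +kernel)
               (CovZ.leaf K2_ok TF_l15758 _)
               (CovZ.n1 (26840, 5440) (by decide +kernel)
                (CovZ.badM (by decide +kernel))
                (CovZ.leaf K2_ok TF_l15759 _)))
              (CovZ.leaf K2_ok TF_l8266 _)))
            (CovZ.n1 (26640, 5360) (by decide +kernel)
             (CovZ.leaf K2_ok TF_l8267 _)
             (CovZ.leaf K2_ok TF_l8268 _)))
           (CovZ.n1 (26880, 5280) (by decide +kernel)
            (CovZ.n2 (26800, 5200) (by decide +kernel)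
             (CovZ.n2 (26800, 5280) (by decide +kernel)
              (CovZ.badM (by decide +kernel))
              (CovZ.leaf K2_ok TF_l8270 _))
             (CovZ.badM (by decide +kernel)))
            (CovZ.n1 (26800, 5360) (by decide +kernel)
             (CovZ.badM (by decide +kernel))
             (CovZ.leaf K2_ok TF_l8273 _))))
          (CovZ.n1 (26720, 5600) (by decide +kernel)
           (CovZ.n2 (26880, 5600) (by decide +kernel)
            (CovZ.n2 (26800, 5520) (by decide +kernel)
             (CovZ.badM (by decide +kernel))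
             (CovZ.n1 (26880, 5520) (by decide +kernel)
              (CovZ.n2 (26840, 5480) (by decide +kernel)
               (CovZ.n2 (26840, 5520) (by decide +kernel)
                (CovZ.n2 (26860, 5500) (by decide +kernel)
                 (CovZ.leaf K2_ok TF_l15760 _)
                 (CovZ.n1 (26860, 5520) (by decide +kernel)
                  (CovZ.badM (by decide +kernel))
                  (CovZ.n1 (26850, 5510) (by decide +kernel)
                   (CovZ.leaf K2_ok TF_l15761 _)
                   (CovZ.badM (by decide +kernel)))))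
                (CovZ.n1 (26820, 5500) (by decide +kernel)
                 (CovZ.leaf K2_ok TF_l15762 _)
                 (CovZ.n1 (26840, 5500) (by decide +kernel)
                  (CovZ.leaf K2_ok TF_l15763 _)
                  (CovZ.leaf K2_ok TF_l15764 _))))
               (CovZ.badM (by decide +kernel)))
              (CovZ.badM (by decide +kernel))))
            (CovZ.badM (by decide +kernel)))
           (CovZ.n1 (26720, 5440) (by decide +kernel)
            (CovZ.n2 (26640, 5520) (by decide +kernel)
             (CovZ.n2 (26720, 5520) (by decide +kernel)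
              (CovZ.leaf K2_ok TF_l8275 _)
              (CovZ.badM (by decide +kernel)))
             (CovZ.leaf K2_ok TF_l8277 _))
            (CovZ.n1 (26800, 5520) (by decide +kernel)
             (CovZ.n2 (26800, 5440) (by decide +kernel)
              (CovZ.n2 (26760, 5480) (by decide +kernel)
               (CovZ.n2 (26800, 5480) (by decide +kernel)
                (CovZ.leaf K2_ok TF_l15765 _)
                (CovZ.leaf K2_ok TF_l15766 _))
               (CovZ.leaf K2_ok TF_l8278 _))
              (CovZ.n1 (26840, 5480) (by decide +kernel)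
               (CovZ.leaf K2_ok TF_l15767 _)
               (CovZ.leaf K2_ok TF_l15768 _)))
             (CovZ.n1 (26720, 5520) (by decide +kernel)
              (CovZ.badM (by decide +kernel))
              (CovZ.n1 (26760, 5480) (by decide +kernel)
               (CovZ.leaf K2_ok TF_l8280 _)
               (CovZ.leaf K2_ok TF_l8281 _))))))))
        (CovZ.badM (by decide +kernel))))
      (CovZ.n1 (26240, 5120) (by decide +kernel)
       (CovZ.n2 (25920, 5440) (by decide +kernel)
        (CovZ.n2 (26240, 5440) (by decide +kernel)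
         (CovZ.leaf K2_ok TF_l8295 _)
         (CovZ.leaf K2_ok TF_l8296 _))
        (CovZ.leaf K2_ok TF_l8297 _))
       (CovZ.n1 (26560, 5440) (by decide +kernel)
        (CovZ.n2 (26560, 5120) (by decide +kernel)
         (CovZ.n2 (26400, 5280) (by decide +kernel)
          (CovZ.n2 (26560, 5280) (by decide +kernel)
           (CovZ.leaf K2_ok TF_l8298 _)
           (CovZ.leaf K2_ok TF_l8299 _))
          (CovZ.leaf K2_ok TF_l8300 _))
         (CovZ.leaf K2_ok TF_l8301 _))
        (CovZ.n1 (26240, 5440) (by decide +kernel)
         (CovZ.leaf K2_ok TF_l8302 _)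
         (CovZ.n1 (26400, 5280) (by decide +kernel)
          (CovZ.leaf K2_ok TF_l8303 _)
          (CovZ.leaf K2_ok TF_l8304 _))))))
     (CovZ.subM 2417851639229258349412352 (by decide +kernel)
      (CovZ.n1 (27520, 5760) (by decide +kernel)
       (CovZ.badM (by decide +kernel))
       (CovZ.n1 (26880, 5760) (by decide +kernel)
        (CovZ.badM (by decide +kernel))
        (CovZ.n1 (27200, 5440) (by decide +kernel)
         (CovZ.n2 (26880, 5440) (by decide +kernel)
          (CovZ.n2 (27040, 5600) (by decide +kernel)
           (CovZ.badM (by decide +kernel))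
           (CovZ.n1 (26880, 5600) (by decide +kernel)
            (CovZ.badM (by decide +kernel))
            (CovZ.badM (by decide +kernel))))
          (CovZ.badM (by decide +kernel)))
         (CovZ.n1 (27200, 5760) (by decide +kernel)
          (CovZ.badM (by decide +kernel))
          (CovZ.n1 (27040, 5600) (by decide +kernel)
           (CovZ.badM (by decide +kernel))
           (CovZ.badM (by decide +kernel)))))))))))
    (CovZ.topM TF_LL 178405961588407402867857839712482915531096064 (by decide +kernel) (CovZ.n0 (26880, 6400) (by decide +kernel)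
    (CovZ.n2 (25600, 6400) (by decide +kernel)
     (CovZ.subM 162417733154241892066765098188800 (by decide +kernel)
      (CovZ.n2 (26240, 7040) (by decide +kernel)
       (CovZ.n2 (26240, 6400) (by decide +kernel)
        (CovZ.n2 (25920, 6720) (by decide +kernel)
         (CovZ.n2 (26240, 6720) (by decide +kernel)
          (CovZ.n2 (26080, 6560) (by decide +kernel)
           (CovZ.n2 (26080, 6720) (by decide +kernel)
            (CovZ.badM (by decide +kernel))
            (CovZ.n1 (26000, 6640) (by decide +kernel)
             (CovZ.n2 (26000, 6720) (by decide +kernel)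
              (CovZ.badM (by decide +kernel))
              (CovZ.leaf K2_ok TF_l15769 _))
             (CovZ.badM (by decide +kernel))))
           (CovZ.badM (by decide +kernel)))
          (CovZ.n1 (26080, 6880) (by decide +kernel)
           (CovZ.badM (by decide +kernel))
           (CovZ.n1 (26080, 6720) (by decide +kernel)
            (CovZ.n2 (26000, 6800) (by decide +kernel)
             (CovZ.badM (by decide +kernel))
             (CovZ.leaf K2_ok TF_l15770 _))
            (CovZ.badM (by decide +kernel)))))
         (CovZ.n1 (25920, 6400) (by decide +kernel)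
          (CovZ.n2 (25760, 6560) (by decide +kernel)
           (CovZ.n2 (25920, 6560) (by decide +kernel)
            (CovZ.leaf K2_ok TF_l15771 _)
            (CovZ.leaf K2_ok TF_l15772 _))
           (CovZ.leaf K2_ok TF_l15773 _))
          (CovZ.n1 (26080, 6560) (by decide +kernel)
           (CovZ.n2 (26080, 6400) (by decide +kernel)
            (CovZ.n2 (26000, 6480) (by decide +kernel)
             (CovZ.badM (by decide +kernel))
             (CovZ.leaf K2_ok TF_l15774 _))
            (CovZ.badM (by decide +kernel)))
           (CovZ.n1 (25920, 6560) (by decide +kernel)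
            (CovZ.leaf K2_ok TF_l15775 _)
            (CovZ.n1 (26000, 6480) (by decide +kernel)
             (CovZ.leaf K2_ok TF_l15776 _)
             (CovZ.leaf K2_ok TF_l15777 _))))))
        (CovZ.badM (by decide +kernel)))
       (CovZ.n1 (25600, 7040) (by decide +kernel)
        (CovZ.badM (by decide +kernel))
        (CovZ.n1 (25920, 6720) (by decide +kernel)
         (CovZ.n2 (25600, 6720) (by decide +kernel)
          (CovZ.leaf K2_ok TF_l15778 _)
          (CovZ.n1 (25760, 6560) (by decide +kernel)
           (CovZ.leaf K2_ok TF_l15779 _)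
           (CovZ.n1 (25760, 6720) (by decide +kernel)
            (CovZ.leaf K2_ok TF_l15780 _)
            (CovZ.leaf K2_ok TF_l15781 _))))
         (CovZ.n1 (25920, 7040) (by decide +kernel)
          (CovZ.n2 (26080, 6880) (by decide +kernel)
           (CovZ.n2 (25920, 6880) (by decide +kernel)
            (CovZ.n2 (26000, 6960) (by decide +kernel)
             (CovZ.n2 (26000, 6880) (by decide +kernel)
              (CovZ.n2 (25960, 6920) (by decide +kernel)
               (CovZ.n2 (26000, 6920) (by decide +kernel)
                (CovZ.leaf K2_ok TF_l15782 _)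
                (CovZ.n1 (25980, 6940) (by decide +kernel)
                 (CovZ.badM (by decide +kernel))
                 (CovZ.leaf K2_ok TF_l15783 _)))
               (CovZ.leaf K2_ok TF_l15784 _))
              (CovZ.badM (by decide +kernel)))
             (CovZ.n1 (25920, 6960) (by decide +kernel)
              (CovZ.badM (by decide +kernel))
              (CovZ.n1 (25960, 6920) (by decide +kernel)
               (CovZ.leaf K2_ok TF_l15785 _)
               (CovZ.n1 (25960, 6960) (by decide +kernel)
                (CovZ.n2 (25980, 6940) (by decide +kernel)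
                 (CovZ.leaf K2_ok TF_l15786 _)
                 (CovZ.leaf K2_ok TF_l15787 _))
                (CovZ.leaf K2_ok TF_l15788 _)))))
            (CovZ.n1 (26000, 6800) (by decide +kernel)
             (CovZ.leaf K2_ok TF_l15789 _)
             (CovZ.n1 (26000, 6880) (by decide +kernel)
              (CovZ.badM (by decide +kernel))
              (CovZ.n1 (25960, 6840) (by decide +kernel)
               (CovZ.leaf K2_ok TF_l15790 _)
               (CovZ.n1 (26000, 6840) (by decide +kernel)
                (CovZ.leaf K2_ok TF_l15791 _)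
                (CovZ.leaf K2_ok TF_l15792 _))))))
           (CovZ.n1 (26080, 7040) (by decide +kernel)
            (CovZ.badM (by decide +kernel))
            (CovZ.n1 (26000, 6960) (by decide +kernel)
             (CovZ.badM (by decide +kernel))
             (CovZ.badM (by decide +kernel)))))
          (CovZ.n1 (25760, 6880) (by decide +kernel)
           (CovZ.n2 (25760, 7040) (by decide +kernel)
            (CovZ.n2 (25840, 6960) (by decide +kernel)
             (CovZ.leaf K2_ok TF_l15793 _)
             (CovZ.badM (by decide +kernel)))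
            (CovZ.leaf K2_ok TF_l15794 _))
           (CovZ.n1 (25920, 6880) (by decide +kernel)
            (CovZ.n2 (25840, 6800) (by decide +kernel)
             (CovZ.leaf K2_ok TF_l15795 _)
             (CovZ.n1 (25920, 6800) (by decide +kernel)
              (CovZ.leaf K2_ok TF_l15796 _)
              (CovZ.leaf K2_ok TF_l15797 _)))
            (CovZ.n1 (25840, 6960) (by decide +kernel)
             (CovZ.n2 (25920, 6960) (by decide +kernel)
              (CovZ.leaf K2_ok TF_l15798 _)
              (CovZ.badM (by decide +kernel)))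
             (CovZ.leaf K2_ok TF_l15799 _)))))))))
     (CovZ.n1 (26240, 5760) (by decide +kernel)
      (CovZ.n2 (25600, 5760) (by decide +kernel)
       (CovZ.leaf K2_ok TF_l8305 _)
       (CovZ.n1 (25920, 5440) (by decide +kernel)
        (CovZ.leaf K2_ok TF_l8306 _)
        (CovZ.n1 (25920, 5760) (by decide +kernel)
         (CovZ.leaf K2_ok TF_l8307 _)
         (CovZ.leaf K2_ok TF_l8308 _))))
      (CovZ.subM 162417733154241892066765098188800 (by decide +kernel)
       (CovZ.n1 (26240, 6400) (by decide +kernel)
        (CovZ.badM (by decide +kernel))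
        (CovZ.n1 (25920, 6080) (by decide +kernel)
         (CovZ.n2 (25920, 6400) (by decide +kernel)
          (CovZ.n2 (26080, 6240) (by decide +kernel)
           (CovZ.leaf K2_ok TF_l15800 _)
           (CovZ.n1 (26080, 6400) (by decide +kernel)
            (CovZ.badM (by decide +kernel))
            (CovZ.leaf K2_ok TF_l15801 _)))
          (CovZ.leaf K2_ok TF_l15802 _))
         (CovZ.n1 (26240, 6080) (by decide +kernel)
          (CovZ.n2 (26080, 5920) (by decide +kernel)
           (CovZ.leaf K2_ok TF_l8325 _)
           (CovZ.badM (by decide +kernel)))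
          (CovZ.n1 (26080, 6240) (by decide +kernel)
           (CovZ.badM (by decide +kernel))
           (CovZ.leaf K2_ok TF_l15803 _))))))))
    (CovZ.n1 (26880, 7680) (by decide +kernel)
     (CovZ.badM (by decide +kernel))
     (CovZ.n1 (26240, 7040) (by decide +kernel)
      (CovZ.badM (by decide +kernel))
      (CovZ.badM (by decide +kernel))))))

theorem TF_s14_5 : SqZ TF_M TF_L [0, 7, 4, 3] (-7680) (-7680) 2560 14 5 :=
  SqZ.mk (a := 28160) (b := 30720) (c := 5120) (d := 7680) (by norm_num) (by norm_num) (by norm_num) (by norm_num)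
    (CovZ.topM TF_LL 0 (by decide +kernel) (CovZ.badM (by decide +kernel)))
    (CovZ.topM TF_LL 0 (by decide +kernel) (CovZ.badM (by decide +kernel)))

theorem TF_s15_5 : SqZ TF_M TF_L [0, 7, 4, 3] (-7680) (-7680) 2560 15 5 :=
  SqZ.mk (a := 30720) (b := 33280) (c := 5120) (d := 7680) (by norm_num) (by norm_num) (by norm_num) (by norm_num)
    (CovZ.topM TF_LL 0 (by decide +kernel) (CovZ.badM (by decide +kernel)))
    (CovZ.topM TF_LL 0 (by decide +kernel) (CovZ.badM (by decide +kernel)))

theorem TF_s0_6 : SqZ TF_M TF_L [0, 7, 4, 3] (-7680) (-7680) 2560 0 6 :=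
  SqZ.mk (a := (-7680)) (b := (-5120)) (c := 7680) (d := 10240) (by norm_num) (by norm_num) (by norm_num) (by norm_num)
    (CovZ.topM TF_LL 0 (by decide +kernel) (CovZ.badM (by decide +kernel)))
    (CovZ.topM TF_LL 0 (by decide +kernel) (CovZ.badM (by decide +kernel)))

theorem TF_s1_6 : SqZ TF_M TF_L [0, 7, 4, 3] (-7680) (-7680) 2560 1 6 :=
  SqZ.mk (a := (-5120)) (b := (-2560)) (c := 7680) (d := 10240) (by norm_num) (by norm_num) (by norm_num) (by norm_num)
    (CovZ.topM TF_LL 4503599627370504 (by decide +kernel) (CovZ.n2 (-3840, 8960) (by decide +kernel)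
    (CovZ.n2 (-2560, 8960) (by decide +kernel)
     (CovZ.n2 (-3200, 8320) (by decide +kernel)
      (CovZ.n2 (-3200, 8960) (by decide +kernel)
       (CovZ.badM (by decide +kernel))
       (CovZ.badM (by decide +kernel)))
      (CovZ.badM (by decide +kernel)))
     (CovZ.n1 (-3200, 9600) (by decide +kernel)
      (CovZ.n2 (-2560, 9600) (by decide +kernel)
       (CovZ.n2 (-2880, 9280) (by decide +kernel)
        (CovZ.n2 (-2880, 9600) (by decide +kernel)
         (CovZ.n2 (-2720, 9440) (by decide +kernel)
          (CovZ.n2 (-2880, 9440) (by decide +kernel)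
           (CovZ.n2 (-2800, 9520) (by decide +kernel)
            (CovZ.leaf K2_ok TF_l563 _)
            (CovZ.n1 (-2880, 9520) (by decide +kernel)
             (CovZ.leaf K2_ok TF_l9406 _)
             (CovZ.leaf K2_ok TF_l9407 _)))
           (CovZ.n1 (-2800, 9360) (by decide +kernel)
            (CovZ.n2 (-2880, 9360) (by decide +kernel)
             (CovZ.leaf K2_ok TF_l9408 _)
             (CovZ.n1 (-2840, 9320) (by decide +kernel)
              (CovZ.n2 (-2880, 9320) (by decide +kernel)
               (CovZ.leaf K2_ok TF_l9409 _)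
               (CovZ.leaf K2_ok TF_l9410 _))
              (CovZ.leaf K2_ok TF_l9411 _)))
            (CovZ.n1 (-2800, 9440) (by decide +kernel)
             (CovZ.leaf K2_ok TF_l564 _)
             (CovZ.n1 (-2840, 9400) (by decide +kernel)
              (CovZ.leaf K2_ok TF_l9412 _)
              (CovZ.leaf K2_ok TF_l9413 _)))))
          (CovZ.n1 (-2720, 9600) (by decide +kernel)
           (CovZ.leaf K2_ok TF_l565 _)
           (CovZ.n1 (-2800, 9520) (by decide +kernel)
            (CovZ.n2 (-2800, 9600) (by decide +kernel)
             (CovZ.leaf K2_ok TF_l566 _)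
             (CovZ.leaf K2_ok TF_l567 _))
            (CovZ.leaf K2_ok TF_l568 _))))
         (CovZ.badM (by decide +kernel)))
        (CovZ.n1 (-2560, 9280) (by decide +kernel)
         (CovZ.badM (by decide +kernel))
         (CovZ.n1 (-2720, 9440) (by decide +kernel)
          (CovZ.n2 (-2560, 9440) (by decide +kernel)
           (CovZ.leaf K2_ok TF_l573 _)
           (CovZ.leaf K2_ok TF_l574 _))
          (CovZ.n1 (-2720, 9280) (by decide +kernel)
           (CovZ.n2 (-2800, 9360) (by decide +kernel)
            (CovZ.leaf K2_ok TF_l575 _)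
            (CovZ.badM (by decide +kernel)))
           (CovZ.leaf K2_ok TF_l576 _)))))
       (CovZ.n1 (-2880, 9920) (by decide +kernel)
        (CovZ.n2 (-2560, 9920) (by decide +kernel)
         (CovZ.n2 (-2720, 9760) (by decide +kernel)
          (CovZ.n2 (-2720, 9920) (by decide +kernel)
           (CovZ.leaf K2_ok TF_l577 _)
           (CovZ.n1 (-2800, 9840) (by decide +kernel)
            (CovZ.leaf K2_ok TF_l578 _)
            (CovZ.leaf K2_ok TF_l579 _)))
          (CovZ.leaf K2_ok TF_l580 _))
         (CovZ.n1 (-2720, 10080) (by decide +kernel)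
          (CovZ.leaf K2_ok TF_l581 _)
          (CovZ.leaf K2_ok TF_l582 _)))
        (CovZ.n1 (-2880, 9600) (by decide +kernel)
         (CovZ.badM (by decide +kernel))
         (CovZ.n1 (-2720, 9760) (by decide +kernel)
          (CovZ.n2 (-2720, 9600) (by decide +kernel)
           (CovZ.n2 (-2800, 9680) (by decide +kernel)
            (CovZ.leaf K2_ok TF_l587 _)
            (CovZ.leaf K2_ok TF_l588 _))
           (CovZ.leaf K2_ok TF_l589 _))
          (CovZ.n1 (-2880, 9760) (by decide +kernel)
           (CovZ.leaf K2_ok TF_l590 _)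
           (CovZ.leaf K2_ok TF_l591 _))))))
      (CovZ.n1 (-3200, 8960) (by decide +kernel)
       (CovZ.badM (by decide +kernel))
       (CovZ.n1 (-2880, 9280) (by decide +kernel)
        (CovZ.badM (by decide +kernel))
        (CovZ.badM (by decide +kernel))))))
    (CovZ.n1 (-3840, 7680) (by decide +kernel)
     (CovZ.badM (by decide +kernel))
     (CovZ.n1 (-3200, 8320) (by decide +kernel)
      (CovZ.badM (by decide +kernel))
      (CovZ.badM (by decide +kernel))))))
    (CovZ.topM TF_LL 4503599627370504 (by decide +kernel) (CovZ.n0 (-3840, 8960) (by decide +kernel)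
    (CovZ.badM (by decide +kernel))
    (CovZ.n1 (-3840, 10240) (by decide +kernel)
     (CovZ.n2 (-3200, 9600) (by decide +kernel)
      (CovZ.badM (by decide +kernel))
      (CovZ.n1 (-3200, 10240) (by decide +kernel)
       (CovZ.n2 (-2880, 9920) (by decide +kernel)
        (CovZ.badM (by decide +kernel))
        (CovZ.n1 (-2880, 10240) (by decide +kernel)
         (CovZ.n2 (-2720, 10080) (by decide +kernel)
          (CovZ.leaf K2_ok TF_l600 _)
          (CovZ.leaf K2_ok TF_l601 _))
         (CovZ.n1 (-3040, 10080) (by decide +kernel)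
          (CovZ.n2 (-3040, 10240) (by decide +kernel)
           (CovZ.leaf K2_ok TF_l602 _)
           (CovZ.n1 (-3120, 10160) (by decide +kernel)
            (CovZ.leaf K2_ok TF_l603 _)
            (CovZ.leaf K2_ok TF_l604 _)))
          (CovZ.n1 (-2880, 10080) (by decide +kernel)
           (CovZ.leaf K2_ok TF_l605 _)
           (CovZ.leaf K2_ok TF_l606 _)))))
       (CovZ.badM (by decide +kernel))))
     (CovZ.badM (by decide +kernel)))))

theorem TF_s2_6 : SqZ TF_M TF_L [0, 7, 4, 3] (-7680) (-7680) 2560 2 6 :=
  SqZ.mk (a := (-2560)) (b := 0) (c := 7680) (d := 10240) (by norm_num) (by norm_num) (by norm_num) (by norm_num)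
    (CovZ.topM TF_LL 68056557759412818966729731576462855709720 (by decide +kernel) (CovZ.n2 (-1280, 8960) (by decide +kernel)
    (CovZ.n2 (0, 8960) (by decide +kernel)
     (CovZ.n2 (-640, 8320) (by decide +kernel)
      (CovZ.leaf K2_ok TF_l1611 _)
      (CovZ.leaf K2_ok TF_l1612 _))
     (CovZ.leaf K2_ok TF_l1613 _))
    (CovZ.n1 (-1280, 7680) (by decide +kernel)
     (CovZ.subM 1298079166393864048653723678867464 (by decide +kernel)
      (CovZ.n2 (-1920, 8320) (by decide +kernel)
       (CovZ.n2 (-1280, 8320) (by decide +kernel)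
        (CovZ.n2 (-1600, 8000) (by decide +kernel)
         (CovZ.leaf K2_ok TF_l1614 _)
         (CovZ.leaf K2_ok TF_l1615 _))
        (CovZ.leaf K2_ok TF_l1616 _))
       (CovZ.n1 (-1920, 7680) (by decide +kernel)
        (CovZ.badM (by decide +kernel))
        (CovZ.leaf K2_ok TF_l1621 _))))
     (CovZ.leaf K2_ok TF_l1622 _))))
    (CovZ.topM TF_LL 68056557759412741594296689123077890581528 (by decide +kernel) (CovZ.n0 (-1280, 8960) (by decide +kernel)
    (CovZ.subM 1298079166393864053157323306237960 (by decide +kernel)
     (CovZ.n2 (-2560, 8960) (by decide +kernel)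
      (CovZ.n2 (-1920, 9600) (by decide +kernel)
       (CovZ.n2 (-1920, 8960) (by decide +kernel)
        (CovZ.n2 (-2240, 9280) (by decide +kernel)
         (CovZ.leaf K2_ok TF_l1623 _)
         (CovZ.badM (by decide +kernel)))
        (CovZ.leaf K2_ok TF_l1627 _))
       (CovZ.n1 (-2560, 9600) (by decide +kernel)
        (CovZ.n2 (-2240, 9920) (by decide +kernel)
         (CovZ.leaf K2_ok TF_l1628 _)
         (CovZ.n1 (-2560, 9920) (by decide +kernel)
          (CovZ.leaf K2_ok TF_l1629 _)
          (CovZ.leaf K2_ok TF_l1630 _)))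
        (CovZ.n1 (-2240, 9280) (by decide +kernel)
         (CovZ.n2 (-2560, 9280) (by decide +kernel)
          (CovZ.leaf K2_ok TF_l1631 _)
          (CovZ.badM (by decide +kernel)))
         (CovZ.n1 (-2240, 9600) (by decide +kernel)
          (CovZ.leaf K2_ok TF_l1634 _)
          (CovZ.leaf K2_ok TF_l1635 _)))))
      (CovZ.n1 (-1920, 8320) (by decide +kernel)
       (CovZ.badM (by decide +kernel))
       (CovZ.n1 (-1920, 8960) (by decide +kernel)
        (CovZ.leaf K2_ok TF_l1641 _)
        (CovZ.badM (by decide +kernel))))))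
    (CovZ.n1 (-1280, 10240) (by decide +kernel)
     (CovZ.leaf K2_ok TF_l1647 _)
     (CovZ.subM 1298079166393864341387974335864840 (by decide +kernel)
      (CovZ.n1 (-1920, 9600) (by decide +kernel)
       (CovZ.n2 (-1920, 10240) (by decide +kernel)
        (CovZ.leaf K2_ok TF_l1648 _)
        (CovZ.n1 (-2240, 9920) (by decide +kernel)
         (CovZ.leaf K2_ok TF_l1649 _)
         (CovZ.leaf K2_ok TF_l1650 _)))
       (CovZ.n1 (-1280, 9600) (by decide +kernel)
        (CovZ.leaf K2_ok TF_l1651 _)
        (CovZ.leaf K2_ok TF_l1652 _)))))))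

theorem TF_s3_6 : SqZ TF_M TF_L [0, 7, 4, 3] (-7680) (-7680) 2560 3 6 :=
  SqZ.mk (a := 0) (b := 2560) (c := 7680) (d := 10240) (by norm_num) (by norm_num) (by norm_num) (by norm_num)
    (CovZ.topM TF_LL 1472742501071621735736563576352309280580698 (by decide +kernel) (CovZ.n2 (1280, 8960) (by decide +kernel)
    (CovZ.leaf K2_ok TF_l3428 _)
    (CovZ.leaf K2_ok TF_l3429 _)))
    (CovZ.topM TF_LL 1472742501071621735736526682859763814966362 (by decide +kernel) (CovZ.n0 (1280, 8960) (by decide +kernel)
    (CovZ.leaf K2_ok TF_l3430 _)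
    (CovZ.leaf K2_ok TF_l3431 _)))

theorem TF_s4_6 : SqZ TF_M TF_L [0, 7, 4, 3] (-7680) (-7680) 2560 4 6 :=
  SqZ.mk (a := 2560) (b := 5120) (c := 7680) (d := 10240) (by norm_num) (by norm_num) (by norm_num) (by norm_num)
    (CovZ.topM TF_LL 197138671945460100739765740024170733256402084059 (by decide +kernel) (CovZ.n2 (3840, 8960) (by decide +kernel)
    (CovZ.leaf K2_ok TF_l4323 _)
    (CovZ.leaf K2_ok TF_l4324 _)))
    (CovZ.topM TF_LL 2855968127918183604263247979885327568281346138 (by decide +kernel) (CovZ.n0 (3840, 8960) (by decide +kernel)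
    (CovZ.leaf K2_ok TF_l4325 _)
    (CovZ.leaf K2_ok TF_l4326 _)))

theorem TF_s5_6 : SqZ TF_M TF_L [0, 7, 4, 3] (-7680) (-7680) 2560 5 6 :=
  SqZ.mk (a := 5120) (b := 7680) (c := 7680) (d := 10240) (by norm_num) (by norm_num) (by norm_num) (by norm_num)
    (CovZ.topM TF_LL 197138618861410697546283267791192479495573547099 (by decide +kernel) (CovZ.n2 (6400, 8960) (by decide +kernel)
    (CovZ.leaf K2_ok TF_l4645 _)
    (CovZ.leaf K2_ok TF_l4646 _)))
    (CovZ.topM TF_LL 197138662417553664694211933836354362387008135259 (by decide +kernel) (CovZ.leaf K2_ok TF_l4647 _))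

theorem TF_s6_6 : SqZ TF_M TF_L [0, 7, 4, 3] (-7680) (-7680) 2560 6 6 :=
  SqZ.mk (a := 7680) (b := 10240) (c := 7680) (d := 10240) (by norm_num) (by norm_num) (by norm_num) (by norm_num)
    (CovZ.topM TF_LL 288482449421832021864027636851281917330427308123 (by decide +kernel) (CovZ.n2 (8960, 8960) (by decide +kernel)
    (CovZ.leaf K2_ok TF_l4822 _)
    (CovZ.leaf K2_ok TF_l4823 _)))
    (CovZ.topM TF_LL 288482471199903504804398784697669759299618941019 (by decide +kernel) (CovZ.n0 (8960, 8960) (by decide +kernel)
    (CovZ.leaf K2_ok TF_l4824 _)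
    (CovZ.leaf K2_ok TF_l4825 _)))

theorem TF_s7_6 : SqZ TF_M TF_L [0, 7, 4, 3] (-7680) (-7680) 2560 7 6 :=
  SqZ.mk (a := 10240) (b := 12800) (c := 7680) (d := 10240) (by norm_num) (by norm_num) (by norm_num) (by norm_num)
    (CovZ.topM TF_LL 285627954036087795261421160972397420094940014682 (by decide +kernel) (CovZ.n2 (11520, 8960) (by decide +kernel)
    (CovZ.leaf K2_ok TF_l5069 _)
    (CovZ.leaf K2_ok TF_l5070 _)))
    (CovZ.topM TF_LL 288482449421499714865081407883055965556769319003 (by decide +kernel) (CovZ.n0 (11520, 8960) (by decide +kernel)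
    (CovZ.leaf K2_ok TF_l5071 _)
    (CovZ.leaf K2_ok TF_l5072 _)))

theorem TF_s8_6 : SqZ TF_M TF_L [0, 7, 4, 3] (-7680) (-7680) 2560 8 6 :=
  SqZ.mk (a := 12800) (b := 15360) (c := 7680) (d := 10240) (by norm_num) (by norm_num) (by norm_num) (by norm_num)
    (CovZ.topM TF_LL 194284100344435341040921005013746114648339406906 (by decide +kernel) (CovZ.leaf K2_ok TF_l5346 _))
    (CovZ.topM TF_LL 285627954038746251253609962737847445077533681786 (by decide +kernel) (CovZ.leaf K2_ok TF_l5347 _))

theorem TF_s9_6 : SqZ TF_M TF_L [0, 7, 4, 3] (-7680) (-7680) 2560 9 6 :=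
  SqZ.mk (a := 15360) (b := 17920) (c := 7680) (d := 10240) (by norm_num) (by norm_num) (by norm_num) (by norm_num)
    (CovZ.topM TF_LL 194284100386970636906038464062395392131078316090 (by decide +kernel) (CovZ.leaf K2_ok TF_l5712 _))
    (CovZ.topM TF_LL 194284100344435341040921005013746114373460451386 (by decide +kernel) (CovZ.leaf K2_ok TF_l5713 _))

theorem TF_s10_6 : SqZ TF_M TF_L [0, 7, 4, 3] (-7680) (-7680) 2560 10 6 :=
  SqZ.mk (a := 17920) (b := 20480) (c := 7680) (d := 10240) (by norm_num) (by norm_num) (by norm_num) (by norm_num)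
    (CovZ.topM TF_LL 182866116122980942571201259625292239092905435194 (by decide +kernel) (CovZ.n2 (19200, 8960) (by decide +kernel)
    (CovZ.leaf K2_ok TF_l6160 _)
    (CovZ.leaf K2_ok TF_l6161 _)))
    (CovZ.topM TF_LL 182866116122980942571201410741019690921552273466 (by decide +kernel) (CovZ.n0 (19200, 8960) (by decide +kernel)
    (CovZ.leaf K2_ok TF_l6162 _)
    (CovZ.leaf K2_ok TF_l6163 _)))

theorem TF_s11_6 : SqZ TF_M TF_L [0, 7, 4, 3] (-7680) (-7680) 2560 11 6 :=
  SqZ.mk (a := 20480) (b := 23040) (c := 7680) (d := 10240) (by norm_num) (by norm_num) (by norm_num) (by norm_num)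
    (CovZ.topM TF_LL 182866116205391780233175527598649125622440263682 (by decide +kernel) (CovZ.n2 (21760, 8960) (by decide +kernel)
    (CovZ.subM 178411496493619591978607777617364743819886592 (by decide +kernel)
     (CovZ.n2 (23040, 8960) (by decide +kernel)
      (CovZ.n2 (22400, 8320) (by decide +kernel)
       (CovZ.leaf K2_ok TF_l6596 _)
       (CovZ.leaf K2_ok TF_l6597 _))
      (CovZ.n1 (22400, 9600) (by decide +kernel)
       (CovZ.n2 (23040, 9600) (by decide +kernel)
        (CovZ.leaf K2_ok TF_l6598 _)
        (CovZ.n1 (22720, 9920) (by decide +kernel)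
         (CovZ.leaf K2_ok TF_l6599 _)
         (CovZ.leaf K2_ok TF_l6600 _)))
       (CovZ.leaf K2_ok TF_l6601 _))))
    (CovZ.leaf K2_ok TF_l6602 _)))
    (CovZ.topM TF_LL 182866116122979644494510745839796329319881531394 (by decide +kernel) (CovZ.n0 (21760, 8960) (by decide +kernel)
    (CovZ.leaf K2_ok TF_l6603 _)
    (CovZ.n1 (21760, 10240) (by decide +kernel)
     (CovZ.subM 178411411423027861743994272956954320700440576 (by decide +kernel)
      (CovZ.n2 (22400, 9600) (by decide +kernel)
       (CovZ.leaf K2_ok TF_l6604 _)
       (CovZ.n1 (22400, 10240) (by decide +kernel)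
        (CovZ.n2 (22720, 9920) (by decide +kernel)
         (CovZ.leaf K2_ok TF_l6605 _)
         (CovZ.leaf K2_ok TF_l6606 _))
        (CovZ.leaf K2_ok TF_l6607 _))))
     (CovZ.leaf K2_ok TF_l6608 _))))

theorem TF_s12_6 : SqZ TF_M TF_L [0, 7, 4, 3] (-7680) (-7680) 2560 12 6 :=
  SqZ.mk (a := 23040) (b := 25600) (c := 7680) (d := 10240) (by norm_num) (by norm_num) (by norm_num) (by norm_num)
    (CovZ.topM TF_LL 178411491176707608838642054547232845404831744 (by decide +kernel) (CovZ.n2 (24320, 8960) (by decide +kernel)
    (CovZ.subM 5529588462465250031279837370766233436160 (by decide +kernel)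
     (CovZ.n2 (25600, 8960) (by decide +kernel)
      (CovZ.n2 (24960, 8320) (by decide +kernel)
       (CovZ.badM (by decide +kernel))
       (CovZ.n1 (25600, 8320) (by decide +kernel)
        (CovZ.n2 (25280, 8000) (by decide +kernel)
         (CovZ.badM (by decide +kernel))
         (CovZ.n1 (25600, 8000) (by decide +kernel)
          (CovZ.n2 (25440, 7840) (by decide +kernel)
           (CovZ.n2 (25440, 8000) (by decide +kernel)
            (CovZ.badM (by decide +kernel))
            (CovZ.n1 (25360, 7920) (by decide +kernel)
             (CovZ.badM (by decide +kernel))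
             (CovZ.badM (by decide +kernel))))
           (CovZ.badM (by decide +kernel)))
          (CovZ.badM (by decide +kernel))))
        (CovZ.badM (by decide +kernel))))
      (CovZ.n1 (24960, 9600) (by decide +kernel)
       (CovZ.n2 (25600, 9600) (by decide +kernel)
        (CovZ.badM (by decide +kernel))
        (CovZ.badM (by decide +kernel)))
       (CovZ.badM (by decide +kernel)))))
    (CovZ.n1 (24320, 7680) (by decide +kernel)
     (CovZ.n2 (23680, 8320) (by decide +kernel)
      (CovZ.subM 178406046658836873823226640553513937077796864 (by decide +kernel)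
       (CovZ.n2 (24320, 8320) (by decide +kernel)
        (CovZ.n2 (24000, 8000) (by decide +kernel)
         (CovZ.leaf K2_ok TF_l7088 _)
         (CovZ.leaf K2_ok TF_l7089 _))
        (CovZ.n1 (24000, 8640) (by decide +kernel)
         (CovZ.n2 (24320, 8640) (by decide +kernel)
          (CovZ.leaf K2_ok TF_l7090 _)
          (CovZ.n1 (24160, 8800) (by decide +kernel)
           (CovZ.n2 (24320, 8800) (by decide +kernel)
            (CovZ.leaf K2_ok TF_l7091 _)
            (CovZ.leaf K2_ok TF_l7092 _))
           (CovZ.leaf K2_ok TF_l7093 _)))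
         (CovZ.leaf K2_ok TF_l7094 _))))
      (CovZ.leaf K2_ok TF_l7095 _))
     (CovZ.subM 178406046658836873823226640553513937077796864 (by decide +kernel)
      (CovZ.n1 (24960, 8320) (by decide +kernel)
       (CovZ.n2 (24960, 7680) (by decide +kernel)
        (CovZ.n2 (24640, 8000) (by decide +kernel)
         (CovZ.n2 (24960, 8000) (by decide +kernel)
          (CovZ.n2 (24800, 7840) (by decide +kernel)
           (CovZ.leaf K2_ok TF_l7096 _)
           (CovZ.leaf K2_ok TF_l7097 _))
          (CovZ.n1 (24800, 8160) (by decide +kernel)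
           (CovZ.badM (by decide +kernel))
           (CovZ.leaf K2_ok TF_l7099 _)))
         (CovZ.leaf K2_ok TF_l7100 _))
        (CovZ.n1 (25280, 8000) (by decide +kernel)
         (CovZ.n2 (25280, 7680) (by decide +kernel)
          (CovZ.n2 (25120, 7840) (by decide +kernel)
           (CovZ.n2 (25280, 7840) (by decide +kernel)
            (CovZ.n2 (25200, 7760) (by decide +kernel)
             (CovZ.leaf K2_ok TF_l15212 _)
             (CovZ.badM (by decide +kernel)))
            (CovZ.n1 (25200, 7920) (by decide +kernel)
             (CovZ.n2 (25280, 7920) (by decide +kernel)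
              (CovZ.leaf K2_ok TF_l15213 _)
              (CovZ.badM (by decide +kernel)))
             (CovZ.leaf K2_ok TF_l15214 _)))
           (CovZ.leaf K2_ok TF_l15215 _))
          (CovZ.n1 (25440, 7840) (by decide +kernel)
           (CovZ.badM (by decide +kernel))
           (CovZ.n1 (25280, 7840) (by decide +kernel)
            (CovZ.n2 (25360, 7920) (by decide +kernel)
             (CovZ.badM (by decide +kernel))
             (CovZ.n1 (25280, 7920) (by decide +kernel)
              (CovZ.badM (by decide +kernel))
              (CovZ.n1 (25320, 7880) (by decide +kernel)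
               (CovZ.leaf K2_ok TF_l15216 _)
               (CovZ.n1 (25320, 7920) (by decide +kernel)
                (CovZ.badM (by decide +kernel))
                (CovZ.leaf K2_ok TF_l15217 _)))))
            (CovZ.badM (by decide +kernel)))))
         (CovZ.n1 (24960, 8000) (by decide +kernel)
          (CovZ.badM (by decide +kernel))
          (CovZ.n1 (25120, 7840) (by decide +kernel)
           (CovZ.leaf K2_ok TF_l7108 _)
           (CovZ.n1 (25120, 8000) (by decide +kernel)
            (CovZ.n2 (25200, 7920) (by decide +kernel)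
             (CovZ.leaf K2_ok TF_l7109 _)
             (CovZ.badM (by decide +kernel)))
            (CovZ.leaf K2_ok TF_l7111 _))))))
       (CovZ.n1 (24320, 8320) (by decide +kernel)
        (CovZ.n2 (24640, 8640) (by decide +kernel)
         (CovZ.n2 (24640, 8320) (by decide +kernel)
          (CovZ.n2 (24480, 8480) (by decide +kernel)
           (CovZ.n2 (24640, 8480) (by decide +kernel)
            (CovZ.leaf K2_ok TF_l16010 _)
            (CovZ.leaf K2_ok TF_l16011 _))
           (CovZ.leaf K2_ok TF_l7112 _))
          (CovZ.badM (by decide +kernel)))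
         (CovZ.n1 (24320, 8640) (by decide +kernel)
          (CovZ.leaf K2_ok TF_l16012 _)
          (CovZ.n1 (24480, 8480) (by decide +kernel)
           (CovZ.leaf K2_ok TF_l7113 _)
           (CovZ.n1 (24480, 8640) (by decide +kernel)
            (CovZ.leaf K2_ok TF_l16013 _)
            (CovZ.leaf K2_ok TF_l16014 _)))))
        (CovZ.n1 (24640, 8000) (by decide +kernel)
         (CovZ.leaf K2_ok TF_l7114 _)
         (CovZ.n1 (24640, 8320) (by decide +kernel)
          (CovZ.n2 (24800, 8160) (by decide +kernel)
           (CovZ.leaf K2_ok TF_l7115 _)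
           (CovZ.badM (by decide +kernel)))
          (CovZ.leaf K2_ok TF_l7116 _)))))))))
    (CovZ.topM TF_LL 178411496493619591978607777617364743819886592 (by decide +kernel) (CovZ.n0 (24320, 8960) (by decide +kernel)
    (CovZ.n2 (23040, 8960) (by decide +kernel)
     (CovZ.n2 (23680, 9600) (by decide +kernel)
      (CovZ.subM 178411411423027861743689680318809228548505600 (by decide +kernel)
       (CovZ.n2 (23680, 8960) (by decide +kernel)
        (CovZ.n2 (23360, 9280) (by decide +kernel)
         (CovZ.n2 (23680, 9280) (by decide +kernel)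
          (CovZ.leaf K2_ok TF_l7117 _)
          (CovZ.leaf K2_ok TF_l7118 _))
         (CovZ.leaf K2_ok TF_l7119 _))
        (CovZ.n1 (24000, 9280) (by decide +kernel)
         (CovZ.n2 (24000, 8960) (by decide +kernel)
          (CovZ.n2 (23840, 9120) (by decide +kernel)
           (CovZ.leaf K2_ok TF_l7120 _)
           (CovZ.leaf K2_ok TF_l7121 _))
          (CovZ.leaf K2_ok TF_l7122 _))
         (CovZ.n1 (23680, 9280) (by decide +kernel)
          (CovZ.leaf K2_ok TF_l7123 _)
          (CovZ.n1 (23840, 9120) (by decide +kernel)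
           (CovZ.leaf K2_ok TF_l7124 _)
           (CovZ.leaf K2_ok TF_l7125 _))))))
      (CovZ.n1 (23040, 9600) (by decide +kernel)
       (CovZ.leaf K2_ok TF_l7126 _)
       (CovZ.n1 (23360, 9280) (by decide +kernel)
        (CovZ.leaf K2_ok TF_l7127 _)
        (CovZ.n1 (23360, 9600) (by decide +kernel)
         (CovZ.leaf K2_ok TF_l7128 _)
         (CovZ.leaf K2_ok TF_l7129 _)))))
     (CovZ.n1 (23680, 8320) (by decide +kernel)
      (CovZ.leaf K2_ok TF_l7130 _)
      (CovZ.subM 178405966905157126728274266325090320257122304 (by decide +kernel)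
       (CovZ.n1 (23680, 8960) (by decide +kernel)
        (CovZ.n2 (24000, 8640) (by decide +kernel)
         (CovZ.leaf K2_ok TF_l7131 _)
         (CovZ.n1 (24000, 8960) (by decide +kernel)
          (CovZ.n2 (24160, 8800) (by decide +kernel)
           (CovZ.leaf K2_ok TF_l7132 _)
           (CovZ.leaf K2_ok TF_l7133 _))
          (CovZ.leaf K2_ok TF_l7134 _)))
        (CovZ.leaf K2_ok TF_l7135 _)))))
    (CovZ.subM 178411411423027703287666883245037698754281472 (by decide +kernel)
     (CovZ.n1 (24320, 10240) (by decide +kernel)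
      (CovZ.n2 (24960, 9600) (by decide +kernel)
       (CovZ.n2 (24320, 9600) (by decide +kernel)
        (CovZ.n2 (24640, 9920) (by decide +kernel)
         (CovZ.n2 (24640, 9600) (by decide +kernel)
          (CovZ.n2 (24480, 9760) (by decide +kernel)
           (CovZ.badM (by decide +kernel))
           (CovZ.badM (by decide +kernel)))
          (CovZ.badM (by decide +kernel)))
         (CovZ.n1 (24320, 9920) (by decide +kernel)
          (CovZ.badM (by decide +kernel))
          (CovZ.n1 (24480, 9760) (by decide +kernel)
           (CovZ.n2 (24320, 9760) (by decide +kernel)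
            (CovZ.badM (by decide +kernel))
            (CovZ.badM (by decide +kernel)))
           (CovZ.badM (by decide +kernel)))))
        (CovZ.badM (by decide +kernel)))
       (CovZ.badM (by decide +kernel)))
      (CovZ.n1 (23680, 9600) (by decide +kernel)
       TF_u97
       TF_u98)))))

theorem TF_s13_6 : SqZ TF_M TF_L [0, 7, 4, 3] (-7680) (-7680) 2560 13 6 :=
  SqZ.mk (a := 25600) (b := 28160) (c := 7680) (d := 10240) (by norm_num) (by norm_num) (by norm_num) (by norm_num)
    (CovZ.topM TF_LL 0 (by decide +kernel) (CovZ.badM (by decide +kernel)))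
    (CovZ.topM TF_LL 5529588462465250031279837370766233436160 (by decide +kernel) (CovZ.n0 (26880, 8960) (by decide +kernel)
    (CovZ.n2 (25600, 8960) (by decide +kernel)
     (CovZ.n2 (26240, 9600) (by decide +kernel)
      (CovZ.badM (by decide +kernel))
      (CovZ.n1 (25600, 9600) (by decide +kernel)
       (CovZ.badM (by decide +kernel))
       (CovZ.badM (by decide +kernel))))
     (CovZ.n1 (26240, 8320) (by decide +kernel)
      (CovZ.n2 (25600, 8320) (by decide +kernel)
       (CovZ.badM (by decide +kernel))
       (CovZ.badM (by decide +kernel)))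
      (CovZ.badM (by decide +kernel))))
    (CovZ.n1 (26880, 10240) (by decide +kernel)
     (CovZ.badM (by decide +kernel))
     (CovZ.n1 (26240, 9600) (by decide +kernel)
      (CovZ.badM (by decide +kernel))
      (CovZ.badM (by decide +kernel))))))

theorem TF_s14_6 : SqZ TF_M TF_L [0, 7, 4, 3] (-7680) (-7680) 2560 14 6 :=
  SqZ.mk (a := 28160) (b := 30720) (c := 7680) (d := 10240) (by norm_num) (by norm_num) (by norm_num) (by norm_num)
    (CovZ.topM TF_LL 0 (by decide +kernel) (CovZ.badM (by decide +kernel)))
    (CovZ.topM TF_LL 0 (by decide +kernel) (CovZ.badM (by decide +kernel)))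

theorem TF_s15_6 : SqZ TF_M TF_L [0, 7, 4, 3] (-7680) (-7680) 2560 15 6 :=
  SqZ.mk (a := 30720) (b := 33280) (c := 7680) (d := 10240) (by norm_num) (by norm_num) (by norm_num) (by norm_num)
    (CovZ.topM TF_LL 0 (by decide +kernel) (CovZ.badM (by decide +kernel)))
    (CovZ.topM TF_LL 0 (by decide +kernel) (CovZ.badM (by decide +kernel)))

end Pool.Agent.TET
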