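import Pool.Agent.Helper38_TET.TF_M
import Pool.Agent.Helper38_TET.TF_L
import Pool.Agent.Helper38_TET.TF_0
import Pool.Agent.Helper38_TET.TF_1
import Pool.Agent.Helper38_TET.TF_2
import Pool.Agent.Helper38_TET.TF_3
import Pool.Agent.Helper38_TET.TF_38
import Pool.Agent.Helper38_TET.TF_57
import Pool.Agent.Helper38_TET.TF_58
import Pool.Agent.Helper38_TET.TF_59
import Pool.Agent.Helper38_TET.TF_60
import Pool.Agent.Helper38_TET.TF_61
import Pool.Agent.Helper38_TET.TF_95
import Pool.Agent.Helper38_TET.TF_108

/-!
# MP_c7c9bf_co: certificates, family TF
-/

set_option autoImplicit false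
set_option maxRecDepth 100000

namespace Pool.Agent.TET

theorem TF_u105 : CovZ TF_M (toL (selN TF_LN 192738708425920118424505590211604914176)) [0, 7, 4, 3] (-6400, 16640) (-6400, 16000) (-5760, 16000) :=
    (CovZ.subM 158913798144 (by decide +kernel)
         (CovZ.n2 (-6080, 16320) (by decide +kernel)
          (CovZ.n2 (-6080, 16000) (by decide +kernel)
           (CovZ.n2 (-6240, 16160) (by decide +kernel)
            (CovZ.n2 (-6080, 16160) (by decide +kernel)
             (CovZ.n2 (-6160, 16080) (by decide +kernel)
              (CovZ.n2 (-6160, 16160) (by decide +kernel)
               (CovZ.leaf K2_ok TF_l248 _)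
               (CovZ.leaf K2_ok TF_l249 _))
              (CovZ.leaf K2_ok TF_l250 _))
             (CovZ.n1 (-6160, 16240) (by decide +kernel)
              (CovZ.n2 (-6080, 16240) (by decide +kernel)
               (CovZ.leaf K2_ok TF_l251 _)
               (CovZ.leaf K2_ok TF_l252 _))
              (CovZ.n1 (-6160, 16160) (by decide +kernel)
               (CovZ.n2 (-6200, 16200) (by decide +kernel)
                (CovZ.leaf K2_ok TF_l253 _)
                (CovZ.leaf K2_ok TF_l254 _))
               (CovZ.leaf K2_ok TF_l255 _))))
            (CovZ.n1 (-6240, 16000) (by decide +kernel)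
             (CovZ.n2 (-6320, 16080) (by decide +kernel)
              (CovZ.n2 (-6240, 16080) (by decide +kernel)
               (CovZ.n2 (-6280, 16040) (by decide +kernel)
                (CovZ.n2 (-6280, 16080) (by decide +kernel)
                 (CovZ.leaf K2_ok TF_l256 _)
                 (CovZ.leaf K2_ok TF_l8620 _))
                (CovZ.leaf K2_ok TF_l257 _))
               (CovZ.n1 (-6280, 16120) (by decide +kernel)
                (CovZ.leaf K2_ok TF_l258 _)
                (CovZ.n1 (-6280, 16080) (by decide +kernel)
                 (CovZ.badM (by decide +kernel))
                 (CovZ.leaf K2_ok TF_l259 _))))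
              (CovZ.n1 (-6320, 16000) (by decide +kernel)
               (CovZ.badM (by decide +kernel))
               (CovZ.n1 (-6280, 16040) (by decide +kernel)
                (CovZ.leaf K2_ok TF_l260 _)
                (CovZ.n1 (-6320, 16040) (by decide +kernel)
                 (CovZ.leaf K2_ok TF_l8621 _)
                 (CovZ.leaf K2_ok TF_l8622 _)))))
             (CovZ.n1 (-6160, 16080) (by decide +kernel)
              (CovZ.leaf K2_ok TF_l261 _)
              (CovZ.n1 (-6240, 16080) (by decide +kernel)
               (CovZ.leaf K2_ok TF_l262 _)
               (CovZ.leaf K2_ok TF_l263 _)))))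
           (CovZ.n1 (-5920, 16160) (by decide +kernel)
            (CovZ.leaf K2_ok TF_l264 _)
            (CovZ.n1 (-6080, 16160) (by decide +kernel)
             (CovZ.leaf K2_ok TF_l265 _)
             (CovZ.leaf K2_ok TF_l266 _))))
          (CovZ.n1 (-6400, 16320) (by decide +kernel)
           (CovZ.n2 (-6240, 16480) (by decide +kernel)
            (CovZ.n2 (-6240, 16320) (by decide +kernel)
             (CovZ.n2 (-6320, 16400) (by decide +kernel)
              (CovZ.n2 (-6240, 16400) (by decide +kernel)
               (CovZ.n2 (-6280, 16360) (by decide +kernel)
                (CovZ.n2 (-6280, 16400) (by decide +kernel)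
                 (CovZ.n2 (-6260, 16380) (by decide +kernel)
                  (CovZ.badM (by decide +kernel))
                  (CovZ.leaf K2_ok TF_l8623 _))
                 (CovZ.badM (by decide +kernel)))
                (CovZ.n1 (-6240, 16360) (by decide +kernel)
                 (CovZ.leaf K2_ok TF_l8624 _)
                 (CovZ.n1 (-6260, 16380) (by decide +kernel)
                  (CovZ.leaf K2_ok TF_l8625 _)
                  (CovZ.leaf K2_ok TF_l8626 _))))
               (CovZ.n1 (-6280, 16440) (by decide +kernel)
                (CovZ.n2 (-6240, 16440) (by decide +kernel)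
                 (CovZ.n2 (-6260, 16420) (by decide +kernel)
                  (CovZ.n2 (-6260, 16440) (by decide +kernel)
                   (CovZ.leaf K2_ok TF_l8627 _)
                   (CovZ.badM (by decide +kernel)))
                  (CovZ.leaf K2_ok TF_l8628 _))
                 (CovZ.n1 (-6260, 16460) (by decide +kernel)
                  (CovZ.leaf K2_ok TF_l8629 _)
                  (CovZ.leaf K2_ok TF_l8630 _)))
                (CovZ.n1 (-6280, 16400) (by decide +kernel)
                 (CovZ.badM (by decide +kernel))
                 (CovZ.leaf K2_ok TF_l8631 _))))
              (CovZ.n1 (-6320, 16320) (by decide +kernel)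
               (CovZ.badM (by decide +kernel))
               (CovZ.n1 (-6280, 16360) (by decide +kernel)
                (CovZ.n2 (-6280, 16320) (by decide +kernel)
                 (CovZ.badM (by decide +kernel))
                 (CovZ.leaf K2_ok TF_l8632 _))
                (CovZ.badM (by decide +kernel)))))
             (CovZ.n1 (-6160, 16400) (by decide +kernel)
              (CovZ.n2 (-6160, 16320) (by decide +kernel)
               (CovZ.n2 (-6200, 16360) (by decide +kernel)
                (CovZ.leaf K2_ok TF_l267 _)
                (CovZ.leaf K2_ok TF_l268 _))
               (CovZ.leaf K2_ok TF_l269 _))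
              (CovZ.n1 (-6240, 16400) (by decide +kernel)
               (CovZ.leaf K2_ok TF_l270 _)
               (CovZ.n1 (-6200, 16360) (by decide +kernel)
                (CovZ.leaf K2_ok TF_l271 _)
                (CovZ.leaf K2_ok TF_l272 _)))))
            (CovZ.badM (by decide +kernel)))
           (CovZ.n1 (-6240, 16160) (by decide +kernel)
            (CovZ.n2 (-6400, 16160) (by decide +kernel)
             (CovZ.n2 (-6320, 16240) (by decide +kernel)
              (CovZ.n2 (-6320, 16160) (by decide +kernel)
               (CovZ.badM (by decide +kernel))
               (CovZ.n1 (-6280, 16200) (by decide +kernel)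
                (CovZ.n2 (-6280, 16160) (by decide +kernel)
                 (CovZ.badM (by decide +kernel))
                 (CovZ.leaf K2_ok TF_l273 _))
                (CovZ.badM (by decide +kernel))))
              (CovZ.badM (by decide +kernel)))
             (CovZ.n1 (-6320, 16080) (by decide +kernel)
              (CovZ.badM (by decide +kernel))
              (CovZ.n1 (-6320, 16160) (by decide +kernel)
               (CovZ.n2 (-6280, 16120) (by decide +kernel)
                (CovZ.badM (by decide +kernel))
                (CovZ.n1 (-6280, 16160) (by decide +kernel)
                 (CovZ.leaf K2_ok TF_l274 _)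
                 (CovZ.badM (by decide +kernel))))
               (CovZ.badM (by decide +kernel)))))
            (CovZ.n1 (-6240, 16320) (by decide +kernel)
             (CovZ.n2 (-6160, 16240) (by decide +kernel)
              (CovZ.n2 (-6240, 16240) (by decide +kernel)
               (CovZ.leaf K2_ok TF_l275 _)
               (CovZ.n1 (-6200, 16200) (by decide +kernel)
                (CovZ.leaf K2_ok TF_l276 _)
                (CovZ.leaf K2_ok TF_l277 _)))
              (CovZ.n1 (-6160, 16320) (by decide +kernel)
               (CovZ.leaf K2_ok TF_l278 _)
               (CovZ.n1 (-6200, 16280) (by decide +kernel)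
                (CovZ.leaf K2_ok TF_l279 _)
                (CovZ.leaf K2_ok TF_l280 _))))
             (CovZ.n1 (-6320, 16240) (by decide +kernel)
              (CovZ.n2 (-6320, 16320) (by decide +kernel)
               (CovZ.n2 (-6280, 16280) (by decide +kernel)
                (CovZ.badM (by decide +kernel))
                (CovZ.n1 (-6280, 16320) (by decide +kernel)
                 (CovZ.n2 (-6260, 16300) (by decide +kernel)
                  (CovZ.badM (by decide +kernel))
                  (CovZ.leaf K2_ok TF_l8633 _))
                 (CovZ.badM (by decide +kernel))))
               (CovZ.badM (by decide +kernel)))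
              (CovZ.n1 (-6240, 16240) (by decide +kernel)
               (CovZ.n2 (-6280, 16200) (by decide +kernel)
                (CovZ.n2 (-6280, 16240) (by decide +kernel)
                 (CovZ.leaf K2_ok TF_l281 _)
                 (CovZ.badM (by decide +kernel)))
                (CovZ.n1 (-6240, 16200) (by decide +kernel)
                 (CovZ.leaf K2_ok TF_l282 _)
                 (CovZ.leaf K2_ok TF_l283 _)))
               (CovZ.n1 (-6280, 16280) (by decide +kernel)
                (CovZ.n2 (-6240, 16280) (by decide +kernel)
                 (CovZ.leaf K2_ok TF_l284 _)
                 (CovZ.n1 (-6260, 16300) (by decide +kernel)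
                  (CovZ.leaf K2_ok TF_l8634 _)
                  (CovZ.leaf K2_ok TF_l8635 _)))
                (CovZ.n1 (-6280, 16240) (by decide +kernel)
                 (CovZ.badM (by decide +kernel))
                 (CovZ.leaf K2_ok TF_l285 _))))))))))

theorem TF_u106 : CovZ TF_M (toL (selN TF_LN 192738708425920118424505590211604914176)) [0, 7, 4, 3] (-6400, 16000) (-6400, 15360) (-5760, 16000) :=
    (CovZ.n1 (-6080, 15680) (by decide +kernel)
         (CovZ.n2 (-6400, 15680) (by decide +kernel)
          (CovZ.n2 (-6240, 15840) (by decide +kernel)
           (CovZ.n2 (-6240, 15680) (by decide +kernel)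
            (CovZ.subM 171470411456254147604591110913603411968 (by decide +kernel)
             (CovZ.n2 (-6320, 15760) (by decide +kernel)
              (CovZ.n2 (-6240, 15760) (by decide +kernel)
               (CovZ.leaf K2_ok TF_l286 _)
               (CovZ.n1 (-6280, 15800) (by decide +kernel)
                (CovZ.leaf K2_ok TF_l287 _)
                (CovZ.leaf K2_ok TF_l288 _)))
              (CovZ.n1 (-6320, 15680) (by decide +kernel)
               (CovZ.n2 (-6360, 15720) (by decide +kernel)
                (CovZ.n2 (-6320, 15720) (by decide +kernel)
                 (CovZ.leaf K2_ok TF_l8636 _)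
                 (CovZ.leaf K2_ok TF_l8637 _))
                (CovZ.n1 (-6360, 15680) (by decide +kernel)
                 (CovZ.n2 (-6380, 15700) (by decide +kernel)
                  (CovZ.leaf K2_ok TF_l8638 _)
                  (CovZ.leaf K2_ok TF_l8639 _))
                 (CovZ.leaf K2_ok TF_l8640 _)))
               (CovZ.leaf K2_ok TF_l289 _))))
            (CovZ.leaf K2_ok TF_l290 _))
           (CovZ.subM 171470411456254147604591110913603411968 (by decide +kernel)
            (CovZ.n1 (-6400, 15840) (by decide +kernel)
             (CovZ.n2 (-6320, 15920) (by decide +kernel)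
              (CovZ.n2 (-6320, 15840) (by decide +kernel)
               (CovZ.n2 (-6360, 15880) (by decide +kernel)
                (CovZ.n2 (-6320, 15880) (by decide +kernel)
                 (CovZ.n2 (-6340, 15860) (by decide +kernel)
                  (CovZ.badM (by decide +kernel))
                  (CovZ.leaf K2_ok TF_l8641 _))
                 (CovZ.badM (by decide +kernel)))
                (CovZ.n1 (-6360, 15840) (by decide +kernel)
                 (CovZ.badM (by decide +kernel))
                 (CovZ.leaf K2_ok TF_l8642 _)))
               (CovZ.leaf K2_ok TF_l291 _))
              (CovZ.badM (by decide +kernel)))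
             (CovZ.n1 (-6320, 15760) (by decide +kernel)
              (CovZ.n2 (-6400, 15760) (by decide +kernel)
               (CovZ.n2 (-6360, 15800) (by decide +kernel)
                (CovZ.n2 (-6360, 15760) (by decide +kernel)
                 (CovZ.n2 (-6380, 15780) (by decide +kernel)
                  (CovZ.leaf K2_ok TF_l8643 _)
                  (CovZ.leaf K2_ok TF_l8644 _))
                 (CovZ.leaf K2_ok TF_l8645 _))
                (CovZ.n1 (-6400, 15800) (by decide +kernel)
                 (CovZ.n2 (-6380, 15820) (by decide +kernel)
                  (CovZ.leaf K2_ok TF_l8646 _)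
                  (CovZ.n1 (-6400, 15820) (by decide +kernel)
                   (CovZ.leaf K2_ok TF_l8647 _)
                   (CovZ.leaf K2_ok TF_l8648 _)))
                 (CovZ.n1 (-6380, 15780) (by decide +kernel)
                  (CovZ.leaf K2_ok TF_l8649 _)
                  (CovZ.n1 (-6380, 15800) (by decide +kernel)
                   (CovZ.leaf K2_ok TF_l8650 _)
                   (CovZ.leaf K2_ok TF_l8651 _)))))
               (CovZ.n1 (-6360, 15720) (by decide +kernel)
                (CovZ.n2 (-6400, 15720) (by decide +kernel)
                 (CovZ.leaf K2_ok TF_l8652 _)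
                 (CovZ.n1 (-6380, 15700) (by decide +kernel)
                  (CovZ.leaf K2_ok TF_l8653 _)
                  (CovZ.leaf K2_ok TF_l8654 _)))
                (CovZ.n1 (-6360, 15760) (by decide +kernel)
                 (CovZ.leaf K2_ok TF_l8655 _)
                 (CovZ.n1 (-6380, 15740) (by decide +kernel)
                  (CovZ.leaf K2_ok TF_l8656 _)
                  (CovZ.leaf K2_ok TF_l8657 _)))))
              (CovZ.n1 (-6320, 15840) (by decide +kernel)
               (CovZ.n2 (-6280, 15800) (by decide +kernel)
                (CovZ.leaf K2_ok TF_l292 _)
                (CovZ.leaf K2_ok TF_l293 _))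
               (CovZ.n1 (-6360, 15800) (by decide +kernel)
                (CovZ.n2 (-6360, 15840) (by decide +kernel)
                 (CovZ.leaf K2_ok TF_l8658 _)
                 (CovZ.n1 (-6380, 15820) (by decide +kernel)
                  (CovZ.n2 (-6380, 15840) (by decide +kernel)
                   (CovZ.leaf K2_ok TF_l8659 _)
                   (CovZ.leaf K2_ok TF_l8660 _))
                  (CovZ.leaf K2_ok TF_l8661 _)))
                (CovZ.n1 (-6320, 15800) (by decide +kernel)
                 (CovZ.leaf K2_ok TF_l8662 _)
                 (CovZ.leaf K2_ok TF_l8663 _))))))))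
          (CovZ.n1 (-6240, 15520) (by decide +kernel)
           (CovZ.n2 (-6400, 15520) (by decide +kernel)
            (CovZ.n2 (-6320, 15600) (by decide +kernel)
             (CovZ.n2 (-6320, 15520) (by decide +kernel)
              (CovZ.n2 (-6360, 15560) (by decide +kernel)
               (CovZ.leaf K2_ok TF_l294 _)
               (CovZ.leaf K2_ok TF_l295 _))
              (CovZ.leaf K2_ok TF_l296 _))
             (CovZ.n1 (-6400, 15600) (by decide +kernel)
              (CovZ.n2 (-6360, 15640) (by decide +kernel)
               (CovZ.leaf K2_ok TF_l297 _)
               (CovZ.n1 (-6400, 15640) (by decide +kernel)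
                (CovZ.leaf K2_ok TF_l8664 _)
                (CovZ.leaf K2_ok TF_l8665 _)))
              (CovZ.n1 (-6360, 15560) (by decide +kernel)
               (CovZ.leaf K2_ok TF_l8666 _)
               (CovZ.n1 (-6360, 15600) (by decide +kernel)
                (CovZ.leaf K2_ok TF_l298 _)
                (CovZ.leaf K2_ok TF_l8667 _)))))
            (CovZ.n1 (-6320, 15440) (by decide +kernel)
             (CovZ.n2 (-6400, 15440) (by decide +kernel)
              (CovZ.leaf K2_ok TF_l299 _)
              (CovZ.n1 (-6360, 15400) (by decide +kernel)
               (CovZ.leaf K2_ok TF_l8668 _)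
               (CovZ.leaf K2_ok TF_l300 _)))
             (CovZ.n1 (-6320, 15520) (by decide +kernel)
              (CovZ.leaf K2_ok TF_l301 _)
              (CovZ.n1 (-6360, 15480) (by decide +kernel)
               (CovZ.leaf K2_ok TF_l302 _)
               (CovZ.leaf K2_ok TF_l303 _)))))
           (CovZ.n1 (-6240, 15680) (by decide +kernel)
            (CovZ.n2 (-6160, 15600) (by decide +kernel)
             (CovZ.leaf K2_ok TF_l304 _)
             (CovZ.leaf K2_ok TF_l305 _))
            (CovZ.subM 171470411456254147604591110913603411968 (by decide +kernel)
             (CovZ.n1 (-6320, 15600) (by decide +kernel)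
              (CovZ.n2 (-6320, 15680) (by decide +kernel)
               (CovZ.leaf K2_ok TF_l306 _)
               (CovZ.n1 (-6360, 15640) (by decide +kernel)
                (CovZ.n2 (-6360, 15680) (by decide +kernel)
                 (CovZ.leaf K2_ok TF_l8669 _)
                 (CovZ.leaf K2_ok TF_l8670 _))
                (CovZ.leaf K2_ok TF_l307 _)))
              (CovZ.n1 (-6240, 15600) (by decide +kernel)
               (CovZ.leaf K2_ok TF_l308 _)
               (CovZ.leaf K2_ok TF_l309 _)))))))
         (CovZ.subM 1329227995784915872903807202014273536 (by decide +kernel)
          (CovZ.n1 (-6080, 16000) (by decide +kernel)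
           (CovZ.n2 (-5920, 15840) (by decide +kernel)
            (CovZ.leaf K2_ok TF_l310 _)
            (CovZ.n1 (-5920, 16000) (by decide +kernel)
             (CovZ.leaf K2_ok TF_l311 _)
             (CovZ.leaf K2_ok TF_l312 _)))
           (CovZ.n1 (-6240, 15840) (by decide +kernel)
            (CovZ.n2 (-6240, 16000) (by decide +kernel)
             (CovZ.n2 (-6160, 15920) (by decide +kernel)
              (CovZ.leaf K2_ok TF_l313 _)
              (CovZ.n1 (-6160, 16000) (by decide +kernel)
               (CovZ.leaf K2_ok TF_l314 _)
               (CovZ.leaf K2_ok TF_l315 _)))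
             (CovZ.n1 (-6320, 15920) (by decide +kernel)
              (CovZ.n2 (-6320, 16000) (by decide +kernel)
               (CovZ.n2 (-6280, 15960) (by decide +kernel)
                (CovZ.leaf K2_ok TF_l8671 _)
                (CovZ.leaf K2_ok TF_l316 _))
               (CovZ.badM (by decide +kernel)))
              (CovZ.n1 (-6240, 15920) (by decide +kernel)
               (CovZ.n2 (-6280, 15880) (by decide +kernel)
                (CovZ.leaf K2_ok TF_l317 _)
                (CovZ.leaf K2_ok TF_l318 _))
               (CovZ.n1 (-6280, 15960) (by decide +kernel)
                (CovZ.leaf K2_ok TF_l319 _)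
                (CovZ.leaf K2_ok TF_l320 _)))))
            (CovZ.n1 (-6080, 15840) (by decide +kernel)
             (CovZ.n2 (-6160, 15760) (by decide +kernel)
              (CovZ.leaf K2_ok TF_l321 _)
              (CovZ.leaf K2_ok TF_l322 _))
             (CovZ.n1 (-6160, 15920) (by decide +kernel)
              (CovZ.leaf K2_ok TF_l323 _)
              (CovZ.leaf K2_ok TF_l324 _)))))))

theorem TF_u107 : CovZ TF_M (toL (selN TF_LN 710702321163863985488377700921286607249408)) [0, 7, 4, 3] (-5120, 17920) (-6400, 16640) (-5120, 15360) :=
    (CovZ.n2 (-5120, 16640) (by decide +kernel)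
     (CovZ.subM 696899617331114865405717841624168684068864 (by decide +kernel)
      (CovZ.n2 (-5760, 16000) (by decide +kernel)
       (CovZ.n2 (-5760, 16640) (by decide +kernel)
        (CovZ.n2 (-5440, 16320) (by decide +kernel)
         (CovZ.n2 (-5760, 16320) (by decide +kernel)
          (CovZ.leaf K2_ok TF_l134 _)
          (CovZ.leaf K2_ok TF_l135 _))
         (CovZ.n1 (-5440, 16640) (by decide +kernel)
          (CovZ.leaf K2_ok TF_l136 _)
          (CovZ.leaf K2_ok TF_l137 _)))
        (CovZ.subM 158913798144 (by decide +kernel)
         (CovZ.n1 (-6080, 16320) (by decide +kernel)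
          (CovZ.n2 (-6080, 16640) (by decide +kernel)
           (CovZ.n2 (-5920, 16480) (by decide +kernel)
            (CovZ.n2 (-6080, 16480) (by decide +kernel)
             (CovZ.leaf K2_ok TF_l138 _)
             (CovZ.n1 (-6000, 16400) (by decide +kernel)
              (CovZ.leaf K2_ok TF_l139 _)
              (CovZ.leaf K2_ok TF_l140 _)))
            (CovZ.n1 (-5920, 16640) (by decide +kernel)
             (CovZ.leaf K2_ok TF_l141 _)
             (CovZ.n1 (-6000, 16560) (by decide +kernel)
              (CovZ.leaf K2_ok TF_l142 _)
              (CovZ.leaf K2_ok TF_l143 _))))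
           (CovZ.n1 (-6240, 16480) (by decide +kernel)
            (CovZ.n2 (-6240, 16640) (by decide +kernel)
             (CovZ.n2 (-6160, 16560) (by decide +kernel)
              (CovZ.n2 (-6240, 16560) (by decide +kernel)
               (CovZ.n2 (-6200, 16600) (by decide +kernel)
                (CovZ.leaf K2_ok TF_l144 _)
                (CovZ.n1 (-6240, 16600) (by decide +kernel)
                 (CovZ.leaf K2_ok TF_l8582 _)
                 (CovZ.leaf K2_ok TF_l8583 _)))
               (CovZ.n1 (-6200, 16520) (by decide +kernel)
                (CovZ.n2 (-6240, 16520) (by decide +kernel)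
                 (CovZ.leaf K2_ok TF_l145 _)
                 (CovZ.leaf K2_ok TF_l146 _))
                (CovZ.n1 (-6200, 16560) (by decide +kernel)
                 (CovZ.leaf K2_ok TF_l147 _)
                 (CovZ.leaf K2_ok TF_l148 _))))
              (CovZ.n1 (-6160, 16640) (by decide +kernel)
               (CovZ.n2 (-6120, 16600) (by decide +kernel)
                (CovZ.leaf K2_ok TF_l149 _)
                (CovZ.leaf K2_ok TF_l150 _))
               (CovZ.n1 (-6200, 16600) (by decide +kernel)
                (CovZ.n2 (-6200, 16640) (by decide +kernel)
                 (CovZ.leaf K2_ok TF_l151 _)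
                 (CovZ.leaf K2_ok TF_l8584 _))
                (CovZ.leaf K2_ok TF_l152 _))))
             (CovZ.badM (by decide +kernel)))
            (CovZ.n1 (-6080, 16480) (by decide +kernel)
             (CovZ.n2 (-6160, 16400) (by decide +kernel)
              (CovZ.n2 (-6160, 16480) (by decide +kernel)
               (CovZ.leaf K2_ok TF_l153 _)
               (CovZ.n1 (-6200, 16440) (by decide +kernel)
                (CovZ.n2 (-6200, 16480) (by decide +kernel)
                 (CovZ.leaf K2_ok TF_l154 _)
                 (CovZ.leaf K2_ok TF_l155 _))
                (CovZ.leaf K2_ok TF_l156 _)))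
              (CovZ.n1 (-6080, 16400) (by decide +kernel)
               (CovZ.leaf K2_ok TF_l157 _)
               (CovZ.leaf K2_ok TF_l158 _)))
             (CovZ.n1 (-6160, 16560) (by decide +kernel)
              (CovZ.n2 (-6080, 16560) (by decide +kernel)
               (CovZ.leaf K2_ok TF_l159 _)
               (CovZ.n1 (-6120, 16600) (by decide +kernel)
                (CovZ.leaf K2_ok TF_l160 _)
                (CovZ.leaf K2_ok TF_l161 _)))
              (CovZ.n1 (-6160, 16480) (by decide +kernel)
               (CovZ.n2 (-6200, 16520) (by decide +kernel)
                (CovZ.leaf K2_ok TF_l162 _)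
                (CovZ.leaf K2_ok TF_l163 _))
               (CovZ.leaf K2_ok TF_l164 _))))))
          (CovZ.n1 (-5760, 16320) (by decide +kernel)
           (CovZ.n2 (-5920, 16160) (by decide +kernel)
            (CovZ.n2 (-5920, 16320) (by decide +kernel)
             (CovZ.leaf K2_ok TF_l165 _)
             (CovZ.leaf K2_ok TF_l166 _))
            (CovZ.leaf K2_ok TF_l167 _))
           (CovZ.n1 (-5920, 16480) (by decide +kernel)
            (CovZ.n2 (-5760, 16480) (by decide +kernel)
             (CovZ.leaf K2_ok TF_l168 _)
             (CovZ.leaf K2_ok TF_l169 _))
            (CovZ.n1 (-5920, 16320) (by decide +kernel)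
             (CovZ.n2 (-6000, 16400) (by decide +kernel)
              (CovZ.leaf K2_ok TF_l170 _)
              (CovZ.leaf K2_ok TF_l171 _))
             (CovZ.leaf K2_ok TF_l172 _)))))))
       (CovZ.n1 (-5120, 16000) (by decide +kernel)
        (CovZ.n2 (-5440, 15680) (by decide +kernel)
         (CovZ.n2 (-5440, 16000) (by decide +kernel)
          (CovZ.leaf K2_ok TF_l173 _)
          (CovZ.leaf K2_ok TF_l174 _))
         (CovZ.leaf K2_ok TF_l175 _))
        (CovZ.n1 (-5440, 16320) (by decide +kernel)
         (CovZ.leaf K2_ok TF_l176 _)
         (CovZ.leaf K2_ok TF_l177 _)))))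
     (CovZ.n1 (-5760, 17280) (by decide +kernel)
      (CovZ.n2 (-5120, 17280) (by decide +kernel)
       (CovZ.subM 707787324169107664979099652038072417132544 (by decide +kernel)
        (CovZ.n2 (-5440, 16960) (by decide +kernel)
         (CovZ.n2 (-5440, 17280) (by decide +kernel)
          (CovZ.leaf K2_ok TF_l178 _)
          (CovZ.n1 (-5600, 17120) (by decide +kernel)
           (CovZ.leaf K2_ok TF_l179 _)
           (CovZ.leaf K2_ok TF_l180 _)))
         (CovZ.n1 (-5120, 16960) (by decide +kernel)
          (CovZ.leaf K2_ok TF_l181 _)
          (CovZ.leaf K2_ok TF_l182 _))))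
       (CovZ.n1 (-5440, 17600) (by decide +kernel)
        (CovZ.n2 (-5120, 17600) (by decide +kernel)
         (CovZ.leaf K2_ok TF_l183 _)
         (CovZ.leaf K2_ok TF_l184 _))
        (CovZ.n1 (-5440, 17280) (by decide +kernel)
         (CovZ.n2 (-5600, 17440) (by decide +kernel)
          (CovZ.leaf K2_ok TF_l185 _)
          (CovZ.leaf K2_ok TF_l186 _))
         (CovZ.leaf K2_ok TF_l187 _))))
      (CovZ.subM 696898288103119080489844937817108403724288 (by decide +kernel)
       (CovZ.n1 (-5760, 16640) (by decide +kernel)
        (CovZ.n2 (-6080, 16960) (by decide +kernel)
         (CovZ.subM 649037107316853453566453775081472 (by decide +kernel)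
          (CovZ.n2 (-5760, 16960) (by decide +kernel)
           (CovZ.n2 (-5920, 16800) (by decide +kernel)
            (CovZ.n2 (-5920, 16960) (by decide +kernel)
             (CovZ.leaf K2_ok TF_l188 _)
             (CovZ.n1 (-6000, 16880) (by decide +kernel)
              (CovZ.n2 (-6000, 16960) (by decide +kernel)
               (CovZ.leaf K2_ok TF_l189 _)
               (CovZ.leaf K2_ok TF_l190 _))
              (CovZ.leaf K2_ok TF_l191 _)))
            (CovZ.n1 (-5760, 16800) (by decide +kernel)
             (CovZ.leaf K2_ok TF_l192 _)
             (CovZ.leaf K2_ok TF_l193 _)))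
           (CovZ.n1 (-5920, 17120) (by decide +kernel)
            (CovZ.n2 (-5760, 17120) (by decide +kernel)
             (CovZ.leaf K2_ok TF_l194 _)
             (CovZ.leaf K2_ok TF_l195 _))
            (CovZ.n1 (-5920, 16960) (by decide +kernel)
             (CovZ.n2 (-6000, 17040) (by decide +kernel)
              (CovZ.leaf K2_ok TF_l196 _)
              (CovZ.leaf K2_ok TF_l197 _))
             (CovZ.leaf K2_ok TF_l198 _)))))
         (CovZ.subM 158913798144 (by decide +kernel)
          (CovZ.n1 (-6080, 16640) (by decide +kernel)
           (CovZ.n2 (-6240, 16800) (by decide +kernel)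
            (CovZ.n2 (-6080, 16800) (by decide +kernel)
             (CovZ.n2 (-6160, 16720) (by decide +kernel)
              (CovZ.n2 (-6160, 16800) (by decide +kernel)
               (CovZ.n2 (-6120, 16760) (by decide +kernel)
                (CovZ.leaf K2_ok TF_l199 _)
                (CovZ.leaf K2_ok TF_l200 _))
               (CovZ.n1 (-6200, 16760) (by decide +kernel)
                (CovZ.n2 (-6200, 16800) (by decide +kernel)
                 (CovZ.leaf K2_ok TF_l201 _)
                 (CovZ.n1 (-6220, 16780) (by decide +kernel)
                  (CovZ.leaf K2_ok TF_l8585 _)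
                  (CovZ.leaf K2_ok TF_l8586 _)))
                (CovZ.n1 (-6160, 16760) (by decide +kernel)
                 (CovZ.leaf K2_ok TF_l202 _)
                 (CovZ.leaf K2_ok TF_l203 _))))
              (CovZ.n1 (-6080, 16720) (by decide +kernel)
               (CovZ.leaf K2_ok TF_l204 _)
               (CovZ.n1 (-6120, 16760) (by decide +kernel)
                (CovZ.leaf K2_ok TF_l205 _)
                (CovZ.leaf K2_ok TF_l206 _))))
             (CovZ.n1 (-6160, 16880) (by decide +kernel)
              (CovZ.n2 (-6080, 16880) (by decide +kernel)
               (CovZ.n2 (-6120, 16840) (by decide +kernel)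
                (CovZ.leaf K2_ok TF_l207 _)
                (CovZ.leaf K2_ok TF_l208 _))
               (CovZ.n1 (-6120, 16920) (by decide +kernel)
                (CovZ.leaf K2_ok TF_l209 _)
                (CovZ.leaf K2_ok TF_l210 _)))
              (CovZ.n1 (-6160, 16800) (by decide +kernel)
               (CovZ.n2 (-6200, 16840) (by decide +kernel)
                (CovZ.n2 (-6160, 16840) (by decide +kernel)
                 (CovZ.leaf K2_ok TF_l211 _)
                 (CovZ.leaf K2_ok TF_l212 _))
                (CovZ.n1 (-6200, 16800) (by decide +kernel)
                 (CovZ.n2 (-6220, 16820) (by decide +kernel)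
                  (CovZ.leaf K2_ok TF_l8587 _)
                  (CovZ.leaf K2_ok TF_l8588 _))
                 (CovZ.leaf K2_ok TF_l213 _)))
               (CovZ.leaf K2_ok TF_l214 _))))
            (CovZ.n1 (-6240, 16640) (by decide +kernel)
             (CovZ.badM (by decide +kernel))
             (CovZ.n1 (-6160, 16720) (by decide +kernel)
              (CovZ.n2 (-6160, 16640) (by decide +kernel)
               (CovZ.n2 (-6200, 16680) (by decide +kernel)
                (CovZ.n2 (-6160, 16680) (by decide +kernel)
                 (CovZ.leaf K2_ok TF_l215 _)
                 (CovZ.leaf K2_ok TF_l216 _))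
                (CovZ.n1 (-6200, 16640) (by decide +kernel)
                 (CovZ.n2 (-6220, 16660) (by decide +kernel)
                  (CovZ.leaf K2_ok TF_l8589 _)
                  (CovZ.leaf K2_ok TF_l8590 _))
                 (CovZ.leaf K2_ok TF_l217 _)))
               (CovZ.leaf K2_ok TF_l218 _))
              (CovZ.n1 (-6240, 16720) (by decide +kernel)
               (CovZ.n2 (-6200, 16760) (by decide +kernel)
                (CovZ.n2 (-6200, 16720) (by decide +kernel)
                 (CovZ.n2 (-6220, 16740) (by decide +kernel)
                  (CovZ.leaf K2_ok TF_l8591 _)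
                  (CovZ.leaf K2_ok TF_l8592 _))
                 (CovZ.leaf K2_ok TF_l219 _))
                (CovZ.n1 (-6240, 16760) (by decide +kernel)
                 (CovZ.leaf K2_ok TF_l8593 _)
                 (CovZ.n1 (-6220, 16740) (by decide +kernel)
                  (CovZ.badM (by decide +kernel))
                  (CovZ.leaf K2_ok TF_l8594 _))))
               (CovZ.n1 (-6200, 16680) (by decide +kernel)
                (CovZ.n2 (-6240, 16680) (by decide +kernel)
                 (CovZ.leaf K2_ok TF_l8595 _)
                 (CovZ.n1 (-6220, 16660) (by decide +kernel)
                  (CovZ.leaf K2_ok TF_l8596 _)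
                  (CovZ.leaf K2_ok TF_l8597 _)))
                (CovZ.n1 (-6200, 16720) (by decide +kernel)
                 (CovZ.leaf K2_ok TF_l220 _)
                 (CovZ.n1 (-6220, 16700) (by decide +kernel)
                  (CovZ.leaf K2_ok TF_l8598 _)
                  (CovZ.leaf K2_ok TF_l8599 _))))))))
           (CovZ.n1 (-5920, 16800) (by decide +kernel)
            (CovZ.n2 (-5920, 16640) (by decide +kernel)
             (CovZ.n2 (-6000, 16720) (by decide +kernel)
              (CovZ.leaf K2_ok TF_l221 _)
              (CovZ.leaf K2_ok TF_l222 _))
             (CovZ.leaf K2_ok TF_l223 _))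
            (CovZ.n1 (-6080, 16800) (by decide +kernel)
             (CovZ.leaf K2_ok TF_l224 _)
             (CovZ.n1 (-6000, 16720) (by decide +kernel)
              (CovZ.leaf K2_ok TF_l225 _)
              (CovZ.leaf K2_ok TF_l226 _)))))))
        (CovZ.n1 (-5440, 16960) (by decide +kernel)
         (CovZ.n2 (-5440, 16640) (by decide +kernel)
          (CovZ.n2 (-5600, 16800) (by decide +kernel)
           (CovZ.leaf K2_ok TF_l227 _)
           (CovZ.leaf K2_ok TF_l228 _))
          (CovZ.leaf K2_ok TF_l229 _))
         (CovZ.n1 (-5760, 16960) (by decide +kernel)
          (CovZ.leaf K2_ok TF_l230 _)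
          (CovZ.n1 (-5600, 16800) (by decide +kernel)
           (CovZ.leaf K2_ok TF_l231 _)
           (CovZ.leaf K2_ok TF_l232 _))))))))

theorem TF_u108 : CovZ TF_M (toL (selN TF_LN 710702321163863985488377700921286607249408)) [0, 7, 4, 3] (-6400, 16640) (-7680, 15360) (-5120, 15360) :=
    (CovZ.subM 192738708425920118424505590211604914176 (by decide +kernel)
     (CovZ.n1 (-6400, 15360) (by decide +kernel)
      (CovZ.subM 21267647932558653966460912981665390592 (by decide +kernel)
       (CovZ.n2 (-7040, 16000) (by decide +kernel)
        (CovZ.n2 (-6400, 16000) (by decide +kernel)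
         (CovZ.n2 (-6720, 15680) (by decide +kernel)
          (CovZ.n2 (-6720, 16000) (by decide +kernel)
           (CovZ.n2 (-6560, 15840) (by decide +kernel)
            (CovZ.badM (by decide +kernel))
            (CovZ.n1 (-6560, 16000) (by decide +kernel)
             (CovZ.n2 (-6480, 15920) (by decide +kernel)
              (CovZ.badM (by decide +kernel))
              (CovZ.badM (by decide +kernel)))
             (CovZ.badM (by decide +kernel))))
           (CovZ.badM (by decide +kernel)))
          (CovZ.n1 (-6400, 15680) (by decide +kernel)
           (CovZ.n2 (-6560, 15520) (by decide +kernel)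
            (CovZ.n2 (-6560, 15680) (by decide +kernel)
             (CovZ.n2 (-6480, 15600) (by decide +kernel)
              (CovZ.badM (by decide +kernel))
              (CovZ.n1 (-6480, 15680) (by decide +kernel)
               (CovZ.n2 (-6440, 15640) (by decide +kernel)
                (CovZ.badM (by decide +kernel))
                (CovZ.n1 (-6440, 15680) (by decide +kernel)
                 (CovZ.n2 (-6420, 15660) (by decide +kernel)
                  (CovZ.badM (by decide +kernel))
                  (CovZ.n1 (-6420, 15680) (by decide +kernel)
                   (CovZ.badM (by decide +kernel))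
                   (CovZ.badM (by decide +kernel))))
                 (CovZ.badM (by decide +kernel))))
               (CovZ.badM (by decide +kernel))))
             (CovZ.badM (by decide +kernel)))
            (CovZ.n1 (-6400, 15520) (by decide +kernel)
             (CovZ.n2 (-6480, 15440) (by decide +kernel)
              (CovZ.n2 (-6480, 15520) (by decide +kernel)
               (CovZ.n2 (-6440, 15480) (by decide +kernel)
                (CovZ.n2 (-6480, 15480) (by decide +kernel)
                 (CovZ.n2 (-6460, 15500) (by decide +kernel)
                  (CovZ.n2 (-6460, 15480) (by decide +kernel)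
                   (CovZ.badM (by decide +kernel))
                   (CovZ.leaf K2_ok TF_l8600 _))
                  (CovZ.badM (by decide +kernel)))
                 (CovZ.n1 (-6460, 15460) (by decide +kernel)
                  (CovZ.badM (by decide +kernel))
                  (CovZ.n1 (-6460, 15480) (by decide +kernel)
                   (CovZ.leaf K2_ok TF_l8601 _)
                   (CovZ.badM (by decide +kernel)))))
                (CovZ.n1 (-6440, 15520) (by decide +kernel)
                 (CovZ.leaf K2_ok TF_l8602 _)
                 (CovZ.n1 (-6460, 15500) (by decide +kernel)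
                  (CovZ.badM (by decide +kernel))
                  (CovZ.leaf K2_ok TF_l8603 _))))
               (CovZ.badM (by decide +kernel)))
              (CovZ.n1 (-6400, 15440) (by decide +kernel)
               (CovZ.n2 (-6440, 15400) (by decide +kernel)
                (CovZ.n2 (-6440, 15440) (by decide +kernel)
                 (CovZ.leaf K2_ok TF_l8604 _)
                 (CovZ.badM (by decide +kernel)))
                (CovZ.n1 (-6400, 15400) (by decide +kernel)
                 (CovZ.badM (by decide +kernel))
                 (CovZ.leaf K2_ok TF_l8605 _)))
               (CovZ.n1 (-6440, 15480) (by decide +kernel)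
                (CovZ.n2 (-6400, 15480) (by decide +kernel)
                 (CovZ.leaf K2_ok TF_l8606 _)
                 (CovZ.leaf K2_ok TF_l8607 _))
                (CovZ.n1 (-6440, 15440) (by decide +kernel)
                 (CovZ.n2 (-6460, 15460) (by decide +kernel)
                  (CovZ.leaf K2_ok TF_l8608 _)
                  (CovZ.badM (by decide +kernel)))
                 (CovZ.leaf K2_ok TF_l8609 _)))))
             (CovZ.n1 (-6480, 15600) (by decide +kernel)
              (CovZ.n2 (-6400, 15600) (by decide +kernel)
               (CovZ.n2 (-6440, 15560) (by decide +kernel)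
                (CovZ.n2 (-6440, 15600) (by decide +kernel)
                 (CovZ.n2 (-6420, 15580) (by decide +kernel)
                  (CovZ.badM (by decide +kernel))
                  (CovZ.n1 (-6420, 15600) (by decide +kernel)
                   (CovZ.leaf K2_ok TF_l8610 _)
                   (CovZ.badM (by decide +kernel))))
                 (CovZ.badM (by decide +kernel)))
                (CovZ.n1 (-6400, 15560) (by decide +kernel)
                 (CovZ.n2 (-6420, 15540) (by decide +kernel)
                  (CovZ.leaf K2_ok TF_l8611 _)
                  (CovZ.leaf K2_ok TF_l8612 _))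
                 (CovZ.n1 (-6420, 15580) (by decide +kernel)
                  (CovZ.leaf K2_ok TF_l8613 _)
                  (CovZ.leaf K2_ok TF_l8614 _))))
               (CovZ.n1 (-6440, 15640) (by decide +kernel)
                (CovZ.n2 (-6400, 15640) (by decide +kernel)
                 (CovZ.n2 (-6420, 15620) (by decide +kernel)
                  (CovZ.n2 (-6420, 15640) (by decide +kernel)
                   (CovZ.leaf K2_ok TF_l8615 _)
                   (CovZ.badM (by decide +kernel)))
                  (CovZ.leaf K2_ok TF_l8616 _))
                 (CovZ.n1 (-6420, 15660) (by decide +kernel)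
                  (CovZ.badM (by decide +kernel))
                  (CovZ.leaf K2_ok TF_l8617 _)))
                (CovZ.n1 (-6440, 15600) (by decide +kernel)
                 (CovZ.badM (by decide +kernel))
                 (CovZ.leaf K2_ok TF_l8618 _))))
              (CovZ.n1 (-6480, 15520) (by decide +kernel)
               (CovZ.badM (by decide +kernel))
               (CovZ.n1 (-6440, 15560) (by decide +kernel)
                (CovZ.n2 (-6440, 15520) (by decide +kernel)
                 (CovZ.badM (by decide +kernel))
                 (CovZ.leaf K2_ok TF_l8619 _))
                (CovZ.badM (by decide +kernel)))))))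
           (CovZ.n1 (-6560, 15840) (by decide +kernel)
            (CovZ.n2 (-6400, 15840) (by decide +kernel)
             (CovZ.n2 (-6480, 15760) (by decide +kernel)
              (CovZ.n2 (-6480, 15840) (by decide +kernel)
               (CovZ.badM (by decide +kernel))
               (CovZ.badM (by decide +kernel)))
              (CovZ.badM (by decide +kernel)))
             (CovZ.n1 (-6480, 15920) (by decide +kernel)
              (CovZ.badM (by decide +kernel))
              (CovZ.n1 (-6480, 15840) (by decide +kernel)
               (CovZ.badM (by decide +kernel))
               (CovZ.badM (by decide +kernel)))))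
            (CovZ.n1 (-6560, 15680) (by decide +kernel)
             (CovZ.badM (by decide +kernel))
             (CovZ.n1 (-6480, 15760) (by decide +kernel)
              (CovZ.n2 (-6480, 15680) (by decide +kernel)
               (CovZ.badM (by decide +kernel))
               (CovZ.n1 (-6440, 15720) (by decide +kernel)
                (CovZ.n2 (-6440, 15680) (by decide +kernel)
                 (CovZ.badM (by decide +kernel))
                 (CovZ.n1 (-6420, 15700) (by decide +kernel)
                  (CovZ.n2 (-6420, 15680) (by decide +kernel)
                   (CovZ.badM (by decide +kernel))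
                   (CovZ.badM (by decide +kernel)))
                  (CovZ.badM (by decide +kernel))))
                (CovZ.badM (by decide +kernel))))
              (CovZ.badM (by decide +kernel)))))))
         (CovZ.n1 (-6720, 16320) (by decide +kernel)
          (CovZ.n2 (-6400, 16320) (by decide +kernel)
           (CovZ.n2 (-6560, 16160) (by decide +kernel)
            (CovZ.badM (by decide +kernel))
            (CovZ.badM (by decide +kernel)))
           (CovZ.badM (by decide +kernel)))
          (CovZ.n1 (-6720, 16000) (by decide +kernel)
           (CovZ.badM (by decide +kernel))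
           (CovZ.n1 (-6560, 16160) (by decide +kernel)
            (CovZ.n2 (-6560, 16000) (by decide +kernel)
             (CovZ.badM (by decide +kernel))
             (CovZ.badM (by decide +kernel)))
            (CovZ.badM (by decide +kernel))))))
        (CovZ.n1 (-7040, 15360) (by decide +kernel)
         (CovZ.badM (by decide +kernel))
         (CovZ.n1 (-6720, 15680) (by decide +kernel)
          (CovZ.badM (by decide +kernel))
          (CovZ.badM (by decide +kernel))))))
      (CovZ.n1 (-5760, 16000) (by decide +kernel)
       (CovZ.n2 (-5760, 15360) (by decide +kernel)
        (CovZ.n2 (-6080, 15680) (by decide +kernel)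
         (CovZ.subM 1329227995784915872903807202014273536 (by decide +kernel)
          (CovZ.n2 (-5760, 15680) (by decide +kernel)
           (CovZ.n2 (-5920, 15520) (by decide +kernel)
            (CovZ.leaf K2_ok TF_l233 _)
            (CovZ.leaf K2_ok TF_l234 _))
           (CovZ.n1 (-5920, 15840) (by decide +kernel)
            (CovZ.leaf K2_ok TF_l235 _)
            (CovZ.leaf K2_ok TF_l236 _))))
         (CovZ.n1 (-6080, 15360) (by decide +kernel)
          (CovZ.n2 (-6240, 15520) (by decide +kernel)
           (CovZ.n2 (-6080, 15520) (by decide +kernel)
            (CovZ.leaf K2_ok TF_l237 _)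
            (CovZ.n1 (-6160, 15600) (by decide +kernel)
             (CovZ.leaf K2_ok TF_l238 _)
             (CovZ.leaf K2_ok TF_l239 _)))
           (CovZ.n1 (-6240, 15360) (by decide +kernel)
            (CovZ.n2 (-6320, 15440) (by decide +kernel)
             (CovZ.n2 (-6240, 15440) (by decide +kernel)
              (CovZ.leaf K2_ok TF_l240 _)
              (CovZ.leaf K2_ok TF_l241 _))
             (CovZ.n1 (-6320, 15360) (by decide +kernel)
              (CovZ.n2 (-6360, 15400) (by decide +kernel)
               (CovZ.leaf K2_ok TF_l242 _)
               (CovZ.leaf K2_ok TF_l243 _))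
              (CovZ.leaf K2_ok TF_l244 _)))
            (CovZ.leaf K2_ok TF_l245 _)))
          (CovZ.leaf K2_ok TF_l246 _)))
        (CovZ.leaf K2_ok TF_l247 _))
       (CovZ.n1 (-6400, 16000) (by decide +kernel)
        TF_u105
        TF_u106))))

theorem TF_u109 : CovZ TF_M (toL (selN TF_LN 649037107316853453566473102434304)) [0, 7, 4, 3] (-6400, 17920) (-6400, 17280) (-5760, 17280) :=
    (CovZ.n2 (-6080, 17600) (by decide +kernel)
         (CovZ.n2 (-6080, 17280) (by decide +kernel)
          (CovZ.subM 141733920768 (by decide +kernel)
           (CovZ.n2 (-6240, 17440) (by decide +kernel)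
            (CovZ.n2 (-6080, 17440) (by decide +kernel)
             (CovZ.n2 (-6160, 17360) (by decide +kernel)
              (CovZ.n2 (-6160, 17440) (by decide +kernel)
               (CovZ.n2 (-6120, 17400) (by decide +kernel)
                (CovZ.n2 (-6160, 17400) (by decide +kernel)
                 (CovZ.leaf K2_ok TF_l8672 _)
                 (CovZ.n1 (-6140, 17380) (by decide +kernel)
                  (CovZ.leaf K2_ok TF_l8673 _)
                  (CovZ.leaf K2_ok TF_l8674 _)))
                (CovZ.n1 (-6120, 17440) (by decide +kernel)
                 (CovZ.leaf K2_ok TF_l325 _)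
                 (CovZ.n1 (-6140, 17420) (by decide +kernel)
                  (CovZ.leaf K2_ok TF_l8675 _)
                  (CovZ.leaf K2_ok TF_l8676 _))))
               (CovZ.n1 (-6200, 17400) (by decide +kernel)
                (CovZ.n2 (-6200, 17440) (by decide +kernel)
                 (CovZ.n2 (-6180, 17420) (by decide +kernel)
                  (CovZ.badM (by decide +kernel))
                  (CovZ.n1 (-6180, 17440) (by decide +kernel)
                   (CovZ.leaf K2_ok TF_l8677 _)
                   (CovZ.badM (by decide +kernel))))
                 (CovZ.badM (by decide +kernel)))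
                (CovZ.n1 (-6160, 17400) (by decide +kernel)
                 (CovZ.n2 (-6180, 17380) (by decide +kernel)
                  (CovZ.n2 (-6180, 17400) (by decide +kernel)
                   (CovZ.leaf K2_ok TF_l8678 _)
                   (CovZ.badM (by decide +kernel)))
                  (CovZ.n1 (-6160, 17380) (by decide +kernel)
                   (CovZ.leaf K2_ok TF_l8679 _)
                   (CovZ.leaf K2_ok TF_l8680 _)))
                 (CovZ.n1 (-6180, 17420) (by decide +kernel)
                  (CovZ.n2 (-6160, 17420) (by decide +kernel)
                   (CovZ.leaf K2_ok TF_l8681 _)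
                   (CovZ.leaf K2_ok TF_l8682 _))
                  (CovZ.n1 (-6180, 17400) (by decide +kernel)
                   (CovZ.badM (by decide +kernel))
                   (CovZ.leaf K2_ok TF_l8683 _))))))
              (CovZ.n1 (-6080, 17360) (by decide +kernel)
               (CovZ.n2 (-6120, 17320) (by decide +kernel)
                (CovZ.n2 (-6120, 17360) (by decide +kernel)
                 (CovZ.leaf K2_ok TF_l326 _)
                 (CovZ.leaf K2_ok TF_l8684 _))
                (CovZ.leaf K2_ok TF_l327 _))
               (CovZ.n1 (-6120, 17400) (by decide +kernel)
                (CovZ.leaf K2_ok TF_l328 _)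
                (CovZ.n1 (-6120, 17360) (by decide +kernel)
                 (CovZ.n2 (-6140, 17380) (by decide +kernel)
                  (CovZ.leaf K2_ok TF_l8685 _)
                  (CovZ.leaf K2_ok TF_l8686 _))
                 (CovZ.leaf K2_ok TF_l329 _)))))
             (CovZ.n1 (-6160, 17520) (by decide +kernel)
              (CovZ.n2 (-6080, 17520) (by decide +kernel)
               (CovZ.n2 (-6120, 17480) (by decide +kernel)
                (CovZ.n2 (-6120, 17520) (by decide +kernel)
                 (CovZ.leaf K2_ok TF_l8687 _)
                 (CovZ.n1 (-6140, 17500) (by decide +kernel)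
                  (CovZ.leaf K2_ok TF_l8688 _)
                  (CovZ.leaf K2_ok TF_l8689 _)))
                (CovZ.n1 (-6080, 17480) (by decide +kernel)
                 (CovZ.leaf K2_ok TF_l330 _)
                 (CovZ.leaf K2_ok TF_l8690 _)))
               (CovZ.n1 (-6120, 17560) (by decide +kernel)
                (CovZ.n2 (-6080, 17560) (by decide +kernel)
                 (CovZ.leaf K2_ok TF_l8691 _)
                 (CovZ.leaf K2_ok TF_l8692 _))
                (CovZ.n1 (-6120, 17520) (by decide +kernel)
                 (CovZ.n2 (-6140, 17540) (by decide +kernel)
                  (CovZ.leaf K2_ok TF_l8693 _)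
                  (CovZ.leaf K2_ok TF_l8694 _))
                 (CovZ.leaf K2_ok TF_l8695 _))))
              (CovZ.n1 (-6160, 17440) (by decide +kernel)
               (CovZ.n2 (-6200, 17480) (by decide +kernel)
                (CovZ.n2 (-6160, 17480) (by decide +kernel)
                 (CovZ.n2 (-6180, 17460) (by decide +kernel)
                  (CovZ.badM (by decide +kernel))
                  (CovZ.n1 (-6160, 17460) (by decide +kernel)
                   (CovZ.leaf K2_ok TF_l8696 _)
                   (CovZ.badM (by decide +kernel))))
                 (CovZ.badM (by decide +kernel)))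
                (CovZ.n1 (-6200, 17440) (by decide +kernel)
                 (CovZ.badM (by decide +kernel))
                 (CovZ.n1 (-6180, 17460) (by decide +kernel)
                  (CovZ.n2 (-6180, 17440) (by decide +kernel)
                   (CovZ.badM (by decide +kernel))
                   (CovZ.leaf K2_ok TF_l8697 _))
                  (CovZ.badM (by decide +kernel)))))
               (CovZ.n1 (-6120, 17480) (by decide +kernel)
                (CovZ.n2 (-6120, 17440) (by decide +kernel)
                 (CovZ.n2 (-6140, 17460) (by decide +kernel)
                  (CovZ.leaf K2_ok TF_l8698 _)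
                  (CovZ.leaf K2_ok TF_l8699 _))
                 (CovZ.leaf K2_ok TF_l331 _))
                (CovZ.n1 (-6160, 17480) (by decide +kernel)
                 (CovZ.leaf K2_ok TF_l8700 _)
                 (CovZ.n1 (-6140, 17460) (by decide +kernel)
                  (CovZ.leaf K2_ok TF_l8701 _)
                  (CovZ.leaf K2_ok TF_l8702 _)))))))
            (CovZ.n1 (-6240, 17280) (by decide +kernel)
             (CovZ.badM (by decide +kernel))
             (CovZ.n1 (-6160, 17360) (by decide +kernel)
              (CovZ.n2 (-6160, 17280) (by decide +kernel)
               (CovZ.n2 (-6200, 17320) (by decide +kernel)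
                (CovZ.n2 (-6160, 17320) (by decide +kernel)
                 (CovZ.n2 (-6180, 17300) (by decide +kernel)
                  (CovZ.n2 (-6180, 17320) (by decide +kernel)
                   (CovZ.leaf K2_ok TF_l8703 _)
                   (CovZ.badM (by decide +kernel)))
                  (CovZ.leaf K2_ok TF_l8704 _))
                 (CovZ.n1 (-6180, 17340) (by decide +kernel)
                  (CovZ.n2 (-6160, 17340) (by decide +kernel)
                   (CovZ.leaf K2_ok TF_l8705 _)
                   (CovZ.leaf K2_ok TF_l8706 _))
                  (CovZ.n1 (-6180, 17320) (by decide +kernel)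
                   (CovZ.badM (by decide +kernel))
                   (CovZ.leaf K2_ok TF_l8707 _))))
                (CovZ.n1 (-6200, 17280) (by decide +kernel)
                 (CovZ.badM (by decide +kernel))
                 (CovZ.n1 (-6180, 17300) (by decide +kernel)
                  (CovZ.n2 (-6180, 17280) (by decide +kernel)
                   (CovZ.badM (by decide +kernel))
                   (CovZ.leaf K2_ok TF_l8708 _))
                  (CovZ.badM (by decide +kernel)))))
               (CovZ.n1 (-6120, 17320) (by decide +kernel)
                (CovZ.n2 (-6120, 17280) (by decide +kernel)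
                 (CovZ.n2 (-6140, 17300) (by decide +kernel)
                  (CovZ.leaf K2_ok TF_l8709 _)
                  (CovZ.leaf K2_ok TF_l8710 _))
                 (CovZ.leaf K2_ok TF_l332 _))
                (CovZ.n1 (-6160, 17320) (by decide +kernel)
                 (CovZ.leaf K2_ok TF_l8711 _)
                 (CovZ.n1 (-6140, 17300) (by decide +kernel)
                  (CovZ.leaf K2_ok TF_l8712 _)
                  (CovZ.leaf K2_ok TF_l8713 _)))))
              (CovZ.n1 (-6240, 17360) (by decide +kernel)
               (CovZ.n2 (-6200, 17400) (by decide +kernel)
                (CovZ.n2 (-6200, 17360) (by decide +kernel)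
                 (CovZ.badM (by decide +kernel))
                 (CovZ.n1 (-6180, 17380) (by decide +kernel)
                  (CovZ.n2 (-6180, 17360) (by decide +kernel)
                   (CovZ.badM (by decide +kernel))
                   (CovZ.leaf K2_ok TF_l8714 _))
                  (CovZ.badM (by decide +kernel))))
                (CovZ.badM (by decide +kernel)))
               (CovZ.n1 (-6200, 17320) (by decide +kernel)
                (CovZ.badM (by decide +kernel))
                (CovZ.n1 (-6200, 17360) (by decide +kernel)
                 (CovZ.n2 (-6180, 17340) (by decide +kernel)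
                  (CovZ.badM (by decide +kernel))
                  (CovZ.n1 (-6180, 17360) (by decide +kernel)
                   (CovZ.leaf K2_ok TF_l8715 _)
                   (CovZ.badM (by decide +kernel))))
                 (CovZ.badM (by decide +kernel)))))))))
          (CovZ.n1 (-5920, 17440) (by decide +kernel)
           (CovZ.n2 (-5920, 17280) (by decide +kernel)
            (CovZ.n2 (-6000, 17360) (by decide +kernel)
             (CovZ.leaf K2_ok TF_l333 _)
             (CovZ.leaf K2_ok TF_l334 _))
            (CovZ.leaf K2_ok TF_l335 _))
           (CovZ.subM 141733920768 (by decide +kernel)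
            (CovZ.n1 (-6080, 17440) (by decide +kernel)
             (CovZ.n2 (-6000, 17520) (by decide +kernel)
              (CovZ.n2 (-6000, 17440) (by decide +kernel)
               (CovZ.n2 (-6040, 17480) (by decide +kernel)
                (CovZ.leaf K2_ok TF_l336 _)
                (CovZ.leaf K2_ok TF_l337 _))
               (CovZ.leaf K2_ok TF_l338 _))
              (CovZ.n1 (-6080, 17520) (by decide +kernel)
               (CovZ.leaf K2_ok TF_l339 _)
               (CovZ.n1 (-6040, 17480) (by decide +kernel)
                (CovZ.leaf K2_ok TF_l340 _)
                (CovZ.leaf K2_ok TF_l341 _))))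
             (CovZ.n1 (-6000, 17360) (by decide +kernel)
              (CovZ.n2 (-6080, 17360) (by decide +kernel)
               (CovZ.leaf K2_ok TF_l342 _)
               (CovZ.leaf K2_ok TF_l343 _))
              (CovZ.n1 (-6000, 17440) (by decide +kernel)
               (CovZ.leaf K2_ok TF_l344 _)
               (CovZ.leaf K2_ok TF_l345 _)))))))
         (CovZ.subM 139586437120 (by decide +kernel)
          (CovZ.n1 (-6400, 17600) (by decide +kernel)
           (CovZ.n2 (-6240, 17760) (by decide +kernel)
            (CovZ.n2 (-6240, 17600) (by decide +kernel)
             (CovZ.badM (by decide +kernel))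
             (CovZ.n1 (-6160, 17680) (by decide +kernel)
              (CovZ.n2 (-6160, 17600) (by decide +kernel)
               (CovZ.badM (by decide +kernel))
               (CovZ.n1 (-6120, 17640) (by decide +kernel)
                (CovZ.badM (by decide +kernel))
                (CovZ.badM (by decide +kernel))))
              (CovZ.badM (by decide +kernel))))
            (CovZ.badM (by decide +kernel)))
           (CovZ.n1 (-6240, 17440) (by decide +kernel)
            (CovZ.badM (by decide +kernel))
            (CovZ.n1 (-6240, 17600) (by decide +kernel)
             (CovZ.n2 (-6160, 17520) (by decide +kernel)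
              (CovZ.badM (by decide +kernel))
              (CovZ.n1 (-6160, 17600) (by decide +kernel)
               (CovZ.n2 (-6120, 17560) (by decide +kernel)
                (CovZ.n2 (-6160, 17560) (by decide +kernel)
                 (CovZ.badM (by decide +kernel))
                 (CovZ.n1 (-6140, 17540) (by decide +kernel)
                  (CovZ.badM (by decide +kernel))
                  (CovZ.badM (by decide +kernel))))
                (CovZ.badM (by decide +kernel)))
               (CovZ.badM (by decide +kernel))))
             (CovZ.badM (by decide +kernel)))))))

theorem TF_u110 : CovZ TF_M (toL (selN TF_LN 649037107316853453566473102434304)) [0, 7, 4, 3] (-6400, 17280) (-6400, 16640) (-5760, 17280) :=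
    (CovZ.n1 (-6080, 16960) (by decide +kernel)
         (CovZ.subM 141733920768 (by decide +kernel)
          (CovZ.n2 (-6400, 16960) (by decide +kernel)
           (CovZ.n2 (-6240, 17120) (by decide +kernel)
            (CovZ.n2 (-6240, 16960) (by decide +kernel)
             (CovZ.badM (by decide +kernel))
             (CovZ.n1 (-6160, 17040) (by decide +kernel)
              (CovZ.n2 (-6160, 16960) (by decide +kernel)
               (CovZ.n2 (-6200, 17000) (by decide +kernel)
                (CovZ.n2 (-6160, 17000) (by decide +kernel)
                 (CovZ.n2 (-6180, 16980) (by decide +kernel)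
                  (CovZ.leaf K2_ok TF_l8716 _)
                  (CovZ.leaf K2_ok TF_l8717 _))
                 (CovZ.n1 (-6180, 17020) (by decide +kernel)
                  (CovZ.leaf K2_ok TF_l8718 _)
                  (CovZ.leaf K2_ok TF_l8719 _)))
                (CovZ.n1 (-6200, 16960) (by decide +kernel)
                 (CovZ.badM (by decide +kernel))
                 (CovZ.leaf K2_ok TF_l8720 _)))
               (CovZ.leaf K2_ok TF_l346 _))
              (CovZ.n1 (-6240, 17040) (by decide +kernel)
               (CovZ.n2 (-6200, 17080) (by decide +kernel)
                (CovZ.n2 (-6200, 17040) (by decide +kernel)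
                 (CovZ.badM (by decide +kernel))
                 (CovZ.leaf K2_ok TF_l8721 _))
                (CovZ.badM (by decide +kernel)))
               (CovZ.n1 (-6200, 17000) (by decide +kernel)
                (CovZ.badM (by decide +kernel))
                (CovZ.n1 (-6200, 17040) (by decide +kernel)
                 (CovZ.n2 (-6180, 17020) (by decide +kernel)
                  (CovZ.leaf K2_ok TF_l8722 _)
                  (CovZ.leaf K2_ok TF_l8723 _))
                 (CovZ.badM (by decide +kernel)))))))
            (CovZ.badM (by decide +kernel)))
           (CovZ.n1 (-6240, 16800) (by decide +kernel)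
            (CovZ.badM (by decide +kernel))
            (CovZ.n1 (-6240, 16960) (by decide +kernel)
             (CovZ.n2 (-6160, 16880) (by decide +kernel)
              (CovZ.n2 (-6240, 16880) (by decide +kernel)
               (CovZ.n2 (-6200, 16920) (by decide +kernel)
                (CovZ.n2 (-6200, 16880) (by decide +kernel)
                 (CovZ.badM (by decide +kernel))
                 (CovZ.leaf K2_ok TF_l8724 _))
                (CovZ.badM (by decide +kernel)))
               (CovZ.n1 (-6200, 16840) (by decide +kernel)
                (CovZ.n2 (-6240, 16840) (by decide +kernel)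
                 (CovZ.n2 (-6220, 16860) (by decide +kernel)
                  (CovZ.leaf K2_ok TF_l8725 _)
                  (CovZ.badM (by decide +kernel)))
                 (CovZ.n1 (-6220, 16820) (by decide +kernel)
                  (CovZ.badM (by decide +kernel))
                  (CovZ.n1 (-6220, 16840) (by decide +kernel)
                   (CovZ.leaf K2_ok TF_l8726 _)
                   (CovZ.badM (by decide +kernel)))))
                (CovZ.n1 (-6200, 16880) (by decide +kernel)
                 (CovZ.leaf K2_ok TF_l8727 _)
                 (CovZ.n1 (-6220, 16860) (by decide +kernel)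
                  (CovZ.badM (by decide +kernel))
                  (CovZ.leaf K2_ok TF_l8728 _)))))
              (CovZ.n1 (-6160, 16960) (by decide +kernel)
               (CovZ.n2 (-6120, 16920) (by decide +kernel)
                (CovZ.leaf K2_ok TF_l347 _)
                (CovZ.leaf K2_ok TF_l348 _))
               (CovZ.n1 (-6200, 16920) (by decide +kernel)
                (CovZ.n2 (-6200, 16960) (by decide +kernel)
                 (CovZ.n2 (-6180, 16940) (by decide +kernel)
                  (CovZ.leaf K2_ok TF_l8729 _)
                  (CovZ.leaf K2_ok TF_l8730 _))
                 (CovZ.badM (by decide +kernel)))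
                (CovZ.n1 (-6160, 16920) (by decide +kernel)
                 (CovZ.leaf K2_ok TF_l8731 _)
                 (CovZ.n1 (-6180, 16940) (by decide +kernel)
                  (CovZ.leaf K2_ok TF_l8732 _)
                  (CovZ.leaf K2_ok TF_l8733 _))))))
             (CovZ.badM (by decide +kernel))))))
         (CovZ.n1 (-6080, 17280) (by decide +kernel)
          (CovZ.n2 (-5920, 17120) (by decide +kernel)
           (CovZ.subM 141733920768 (by decide +kernel)
            (CovZ.n2 (-6080, 17120) (by decide +kernel)
             (CovZ.n2 (-6000, 17200) (by decide +kernel)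
              (CovZ.leaf K2_ok TF_l349 _)
              (CovZ.n1 (-6080, 17200) (by decide +kernel)
               (CovZ.leaf K2_ok TF_l350 _)
               (CovZ.leaf K2_ok TF_l351 _)))
             (CovZ.n1 (-6000, 17040) (by decide +kernel)
              (CovZ.leaf K2_ok TF_l352 _)
              (CovZ.n1 (-6000, 17120) (by decide +kernel)
               (CovZ.leaf K2_ok TF_l353 _)
               (CovZ.leaf K2_ok TF_l354 _)))))
           (CovZ.n1 (-5920, 17280) (by decide +kernel)
            (CovZ.leaf K2_ok TF_l355 _)
            (CovZ.n1 (-6000, 17200) (by decide +kernel)
             (CovZ.n2 (-6000, 17280) (by decide +kernel)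
              (CovZ.leaf K2_ok TF_l356 _)
              (CovZ.leaf K2_ok TF_l357 _))
             (CovZ.leaf K2_ok TF_l358 _))))
          (CovZ.subM 141733920768 (by decide +kernel)
           (CovZ.n1 (-6240, 17120) (by decide +kernel)
            (CovZ.n2 (-6240, 17280) (by decide +kernel)
             (CovZ.n2 (-6160, 17200) (by decide +kernel)
              (CovZ.n2 (-6240, 17200) (by decide +kernel)
               (CovZ.n2 (-6200, 17240) (by decide +kernel)
                (CovZ.n2 (-6200, 17200) (by decide +kernel)
                 (CovZ.badM (by decide +kernel))
                 (CovZ.n1 (-6180, 17220) (by decide +kernel)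
                  (CovZ.n2 (-6180, 17200) (by decide +kernel)
                   (CovZ.badM (by decide +kernel))
                   (CovZ.leaf K2_ok TF_l8734 _))
                  (CovZ.badM (by decide +kernel))))
                (CovZ.badM (by decide +kernel)))
               (CovZ.n1 (-6200, 17160) (by decide +kernel)
                (CovZ.badM (by decide +kernel))
                (CovZ.n1 (-6200, 17200) (by decide +kernel)
                 (CovZ.n2 (-6180, 17180) (by decide +kernel)
                  (CovZ.badM (by decide +kernel))
                  (CovZ.n1 (-6180, 17200) (by decide +kernel)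
                   (CovZ.leaf K2_ok TF_l8735 _)
                   (CovZ.badM (by decide +kernel))))
                 (CovZ.badM (by decide +kernel)))))
              (CovZ.n1 (-6160, 17280) (by decide +kernel)
               (CovZ.n2 (-6120, 17240) (by decide +kernel)
                (CovZ.n2 (-6160, 17240) (by decide +kernel)
                 (CovZ.leaf K2_ok TF_l8736 _)
                 (CovZ.n1 (-6140, 17220) (by decide +kernel)
                  (CovZ.leaf K2_ok TF_l8737 _)
                  (CovZ.leaf K2_ok TF_l8738 _)))
                (CovZ.n1 (-6120, 17280) (by decide +kernel)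
                 (CovZ.leaf K2_ok TF_l359 _)
                 (CovZ.leaf K2_ok TF_l8739 _)))
               (CovZ.n1 (-6200, 17240) (by decide +kernel)
                (CovZ.n2 (-6200, 17280) (by decide +kernel)
                 (CovZ.n2 (-6180, 17260) (by decide +kernel)
                  (CovZ.badM (by decide +kernel))
                  (CovZ.n1 (-6180, 17280) (by decide +kernel)
                   (CovZ.leaf K2_ok TF_l8740 _)
                   (CovZ.badM (by decide +kernel))))
                 (CovZ.badM (by decide +kernel)))
                (CovZ.n1 (-6160, 17240) (by decide +kernel)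
                 (CovZ.n2 (-6180, 17220) (by decide +kernel)
                  (CovZ.n2 (-6180, 17240) (by decide +kernel)
                   (CovZ.leaf K2_ok TF_l8741 _)
                   (CovZ.badM (by decide +kernel)))
                  (CovZ.leaf K2_ok TF_l8742 _))
                 (CovZ.n1 (-6180, 17260) (by decide +kernel)
                  (CovZ.leaf K2_ok TF_l8743 _)
                  (CovZ.n1 (-6180, 17240) (by decide +kernel)
                   (CovZ.badM (by decide +kernel))
                   (CovZ.leaf K2_ok TF_l8744 _)))))))
             (CovZ.badM (by decide +kernel)))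
            (CovZ.n1 (-6080, 17120) (by decide +kernel)
             (CovZ.n2 (-6160, 17040) (by decide +kernel)
              (CovZ.n2 (-6160, 17120) (by decide +kernel)
               (CovZ.n2 (-6120, 17080) (by decide +kernel)
                (CovZ.leaf K2_ok TF_l360 _)
                (CovZ.n1 (-6120, 17120) (by decide +kernel)
                 (CovZ.leaf K2_ok TF_l361 _)
                 (CovZ.leaf K2_ok TF_l362 _)))
               (CovZ.n1 (-6200, 17080) (by decide +kernel)
                (CovZ.n2 (-6200, 17120) (by decide +kernel)
                 (CovZ.n2 (-6180, 17100) (by decide +kernel)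
                  (CovZ.badM (by decide +kernel))
                  (CovZ.n1 (-6180, 17120) (by decide +kernel)
                   (CovZ.leaf K2_ok TF_l8745 _)
                   (CovZ.badM (by decide +kernel))))
                 (CovZ.badM (by decide +kernel)))
                (CovZ.n1 (-6160, 17080) (by decide +kernel)
                 (CovZ.n2 (-6180, 17060) (by decide +kernel)
                  (CovZ.leaf K2_ok TF_l8746 _)
                  (CovZ.leaf K2_ok TF_l8747 _))
                 (CovZ.n1 (-6180, 17100) (by decide +kernel)
                  (CovZ.leaf K2_ok TF_l8748 _)
                  (CovZ.leaf K2_ok TF_l8749 _)))))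
              (CovZ.n1 (-6080, 17040) (by decide +kernel)
               (CovZ.n2 (-6120, 17000) (by decide +kernel)
                (CovZ.leaf K2_ok TF_l363 _)
                (CovZ.leaf K2_ok TF_l364 _))
               (CovZ.n1 (-6120, 17080) (by decide +kernel)
                (CovZ.leaf K2_ok TF_l365 _)
                (CovZ.leaf K2_ok TF_l366 _))))
             (CovZ.n1 (-6160, 17200) (by decide +kernel)
              (CovZ.n2 (-6080, 17200) (by decide +kernel)
               (CovZ.n2 (-6120, 17160) (by decide +kernel)
                (CovZ.n2 (-6120, 17200) (by decide +kernel)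
                 (CovZ.leaf K2_ok TF_l367 _)
                 (CovZ.leaf K2_ok TF_l8750 _))
                (CovZ.leaf K2_ok TF_l368 _))
               (CovZ.n1 (-6120, 17240) (by decide +kernel)
                (CovZ.leaf K2_ok TF_l369 _)
                (CovZ.n1 (-6120, 17200) (by decide +kernel)
                 (CovZ.n2 (-6140, 17220) (by decide +kernel)
                  (CovZ.leaf K2_ok TF_l8751 _)
                  (CovZ.leaf K2_ok TF_l8752 _))
                 (CovZ.leaf K2_ok TF_l370 _))))
              (CovZ.n1 (-6160, 17120) (by decide +kernel)
               (CovZ.n2 (-6200, 17160) (by decide +kernel)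
                (CovZ.n2 (-6160, 17160) (by decide +kernel)
                 (CovZ.n2 (-6180, 17140) (by decide +kernel)
                  (CovZ.n2 (-6180, 17160) (by decide +kernel)
                   (CovZ.leaf K2_ok TF_l8753 _)
                   (CovZ.badM (by decide +kernel)))
                  (CovZ.leaf K2_ok TF_l8754 _))
                 (CovZ.n1 (-6180, 17180) (by decide +kernel)
                  (CovZ.leaf K2_ok TF_l8755 _)
                  (CovZ.leaf K2_ok TF_l8756 _)))
                (CovZ.n1 (-6200, 17120) (by decide +kernel)
                 (CovZ.badM (by decide +kernel))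
                 (CovZ.leaf K2_ok TF_l8757 _)))
               (CovZ.n1 (-6120, 17160) (by decide +kernel)
                (CovZ.leaf K2_ok TF_l371 _)
                (CovZ.n1 (-6160, 17160) (by decide +kernel)
                 (CovZ.leaf K2_ok TF_l8758 _)
                 (CovZ.leaf K2_ok TF_l8759 _))))))))))

theorem TF_u111 : CovZ TF_M (toL (selN TF_LN 884734160160292524557383384068158404952064)) [0, 7, 4, 3] (-5120, 17920) (-5120, 19200) (-6400, 19200) :=
    (CovZ.n2 (-5760, 18560) (by decide +kernel)
      (CovZ.n2 (-5760, 19200) (by decide +kernel)
       (CovZ.n2 (-5440, 18880) (by decide +kernel)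
        (CovZ.n2 (-5760, 18880) (by decide +kernel)
         (CovZ.leaf K2_ok TF_l410 _)
         (CovZ.n1 (-5600, 18720) (by decide +kernel)
          (CovZ.leaf K2_ok TF_l411 _)
          (CovZ.leaf K2_ok TF_l412 _)))
        (CovZ.n1 (-5440, 19200) (by decide +kernel)
         (CovZ.leaf K2_ok TF_l413 _)
         (CovZ.n1 (-5600, 19040) (by decide +kernel)
          (CovZ.leaf K2_ok TF_l414 _)
          (CovZ.leaf K2_ok TF_l415 _))))
       (CovZ.n1 (-6080, 18880) (by decide +kernel)
        (CovZ.subM 873845124094303940063406303364155028013056 (by decide +kernel)
         (CovZ.n2 (-6080, 19200) (by decide +kernel)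
          (CovZ.n2 (-5920, 19040) (by decide +kernel)
           (CovZ.n2 (-6080, 19040) (by decide +kernel)
            (CovZ.n2 (-6000, 19120) (by decide +kernel)
             (CovZ.n2 (-6000, 19040) (by decide +kernel)
              (CovZ.n2 (-6040, 19080) (by decide +kernel)
               (CovZ.leaf K2_ok TF_l8784 _)
               (CovZ.leaf K2_ok TF_l8785 _))
              (CovZ.leaf K2_ok TF_l8786 _))
             (CovZ.n1 (-6080, 19120) (by decide +kernel)
              (CovZ.leaf K2_ok TF_l8787 _)
              (CovZ.n1 (-6040, 19080) (by decide +kernel)
               (CovZ.leaf K2_ok TF_l8788 _)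
               (CovZ.leaf K2_ok TF_l8789 _))))
            (CovZ.n1 (-6000, 18960) (by decide +kernel)
             (CovZ.n2 (-6080, 18960) (by decide +kernel)
              (CovZ.leaf K2_ok TF_l8790 _)
              (CovZ.n1 (-6040, 18920) (by decide +kernel)
               (CovZ.leaf K2_ok TF_l8791 _)
               (CovZ.leaf K2_ok TF_l8792 _)))
             (CovZ.n1 (-6000, 19040) (by decide +kernel)
              (CovZ.leaf K2_ok TF_l8793 _)
              (CovZ.leaf K2_ok TF_l8794 _))))
           (CovZ.n1 (-5920, 19200) (by decide +kernel)
            (CovZ.n2 (-5840, 19120) (by decide +kernel)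
             (CovZ.leaf K2_ok TF_l416 _)
             (CovZ.leaf K2_ok TF_l417 _))
            (CovZ.n1 (-6000, 19120) (by decide +kernel)
             (CovZ.n2 (-6000, 19200) (by decide +kernel)
              (CovZ.leaf K2_ok TF_l8795 _)
              (CovZ.leaf K2_ok TF_l8796 _))
             (CovZ.leaf K2_ok TF_l8797 _))))
          (CovZ.n1 (-6240, 19040) (by decide +kernel)
           (CovZ.subM 873845123445266832746552552278784013762560 (by decide +kernel)
            (CovZ.n2 (-6240, 19200) (by decide +kernel)
             (CovZ.n2 (-6160, 19120) (by decide +kernel)
              (CovZ.badM (by decide +kernel))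
              (CovZ.n1 (-6160, 19200) (by decide +kernel)
               (CovZ.n2 (-6120, 19160) (by decide +kernel)
                (CovZ.n2 (-6160, 19160) (by decide +kernel)
                 (CovZ.n2 (-6140, 19180) (by decide +kernel)
                  (CovZ.n2 (-6140, 19160) (by decide +kernel)
                   (CovZ.leaf K2_ok TF_l8798 _)
                   (CovZ.leaf K2_ok TF_l8799 _))
                  (CovZ.n1 (-6160, 19180) (by decide +kernel)
                   (CovZ.leaf K2_ok TF_l8800 _)
                   (CovZ.leaf K2_ok TF_l8801 _)))
                 (CovZ.n1 (-6140, 19140) (by decide +kernel)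
                  (CovZ.n2 (-6160, 19140) (by decide +kernel)
                   (CovZ.leaf K2_ok TF_l8802 _)
                   (CovZ.leaf K2_ok TF_l8803 _))
                  (CovZ.n1 (-6140, 19160) (by decide +kernel)
                   (CovZ.leaf K2_ok TF_l8804 _)
                   (CovZ.leaf K2_ok TF_l8805 _))))
                (CovZ.n1 (-6120, 19200) (by decide +kernel)
                 (CovZ.leaf K2_ok TF_l8806 _)
                 (CovZ.n1 (-6140, 19180) (by decide +kernel)
                  (CovZ.n2 (-6140, 19200) (by decide +kernel)
                   (CovZ.leaf K2_ok TF_l8807 _)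
                   (CovZ.leaf K2_ok TF_l8808 _))
                  (CovZ.leaf K2_ok TF_l8809 _))))
               (CovZ.n1 (-6200, 19160) (by decide +kernel)
                (CovZ.badM (by decide +kernel))
                (CovZ.n1 (-6160, 19160) (by decide +kernel)
                 (CovZ.badM (by decide +kernel))
                 (CovZ.badM (by decide +kernel))))))
             (CovZ.badM (by decide +kernel))))
           (CovZ.n1 (-6080, 19040) (by decide +kernel)
            (CovZ.subM 699620551581746339415525821691686748684288 (by decide +kernel)
             (CovZ.n2 (-6160, 18960) (by decide +kernel)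
              (CovZ.n2 (-6160, 19040) (by decide +kernel)
               (CovZ.n2 (-6120, 19000) (by decide +kernel)
                (CovZ.n2 (-6160, 19000) (by decide +kernel)
                 (CovZ.n2 (-6140, 19020) (by decide +kernel)
                  (CovZ.n2 (-6140, 19000) (by decide +kernel)
                   (CovZ.badM (by decide +kernel))
                   (CovZ.leaf K2_ok TF_l8810 _))
                  (CovZ.badM (by decide +kernel)))
                 (CovZ.n1 (-6140, 18980) (by decide +kernel)
                  (CovZ.badM (by decide +kernel))
                  (CovZ.n1 (-6140, 19000) (by decide +kernel)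
                   (CovZ.leaf K2_ok TF_l8811 _)
                   (CovZ.badM (by decide +kernel)))))
                (CovZ.n1 (-6120, 19040) (by decide +kernel)
                 (CovZ.leaf K2_ok TF_l8812 _)
                 (CovZ.n1 (-6140, 19020) (by decide +kernel)
                  (CovZ.n2 (-6140, 19040) (by decide +kernel)
                   (CovZ.leaf K2_ok TF_l8813 _)
                   (CovZ.badM (by decide +kernel)))
                  (CovZ.leaf K2_ok TF_l8814 _))))
               (CovZ.badM (by decide +kernel)))
              (CovZ.n1 (-6080, 18960) (by decide +kernel)
               (CovZ.n2 (-6120, 18920) (by decide +kernel)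
                (CovZ.n2 (-6120, 18960) (by decide +kernel)
                 (CovZ.leaf K2_ok TF_l8815 _)
                 (CovZ.n1 (-6140, 18940) (by decide +kernel)
                  (CovZ.n2 (-6140, 18960) (by decide +kernel)
                   (CovZ.leaf K2_ok TF_l8816 _)
                   (CovZ.badM (by decide +kernel)))
                  (CovZ.leaf K2_ok TF_l8817 _)))
                (CovZ.n1 (-6080, 18920) (by decide +kernel)
                 (CovZ.leaf K2_ok TF_l8818 _)
                 (CovZ.leaf K2_ok TF_l8819 _)))
               (CovZ.n1 (-6120, 19000) (by decide +kernel)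
                (CovZ.n2 (-6080, 19000) (by decide +kernel)
                 (CovZ.leaf K2_ok TF_l8820 _)
                 (CovZ.leaf K2_ok TF_l8821 _))
                (CovZ.n1 (-6120, 18960) (by decide +kernel)
                 (CovZ.n2 (-6140, 18980) (by decide +kernel)
                  (CovZ.leaf K2_ok TF_l8822 _)
                  (CovZ.n1 (-6140, 18960) (by decide +kernel)
                   (CovZ.badM (by decide +kernel))
                   (CovZ.leaf K2_ok TF_l8823 _)))
                 (CovZ.leaf K2_ok TF_l8824 _))))))
            (CovZ.n1 (-6160, 19120) (by decide +kernel)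
             (CovZ.n2 (-6080, 19120) (by decide +kernel)
              (CovZ.n2 (-6120, 19080) (by decide +kernel)
               (CovZ.n2 (-6120, 19120) (by decide +kernel)
                (CovZ.leaf K2_ok TF_l8825 _)
                (CovZ.n1 (-6140, 19100) (by decide +kernel)
                 (CovZ.leaf K2_ok TF_l8826 _)
                 (CovZ.leaf K2_ok TF_l8827 _)))
               (CovZ.n1 (-6080, 19080) (by decide +kernel)
                (CovZ.leaf K2_ok TF_l8828 _)
                (CovZ.leaf K2_ok TF_l8829 _)))
              (CovZ.subM 873845123445266832746552552278784013762560 (by decide +kernel)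
               (CovZ.n1 (-6120, 19160) (by decide +kernel)
                (CovZ.n2 (-6080, 19160) (by decide +kernel)
                 (CovZ.leaf K2_ok TF_l8830 _)
                 (CovZ.leaf K2_ok TF_l8831 _))
                (CovZ.n1 (-6120, 19120) (by decide +kernel)
                 (CovZ.n2 (-6140, 19140) (by decide +kernel)
                  (CovZ.leaf K2_ok TF_l8832 _)
                  (CovZ.leaf K2_ok TF_l8833 _))
                 (CovZ.leaf K2_ok TF_l8834 _)))))
             (CovZ.subM 873845123445266832708773620696752072949760 (by decide +kernel)
              (CovZ.n1 (-6160, 19040) (by decide +kernel)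
               (CovZ.badM (by decide +kernel))
               (CovZ.n1 (-6120, 19080) (by decide +kernel)
                (CovZ.n2 (-6120, 19040) (by decide +kernel)
                 (CovZ.n2 (-6140, 19060) (by decide +kernel)
                  (CovZ.leaf K2_ok TF_l8835 _)
                  (CovZ.n1 (-6140, 19040) (by decide +kernel)
                   (CovZ.badM (by decide +kernel))
                   (CovZ.leaf K2_ok TF_l8836 _)))
                 (CovZ.leaf K2_ok TF_l8837 _))
                (CovZ.n1 (-6160, 19080) (by decide +kernel)
                 (CovZ.n2 (-6140, 19100) (by decide +kernel)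
                  (CovZ.n2 (-6140, 19080) (by decide +kernel)
                   (CovZ.badM (by decide +kernel))
                   (CovZ.leaf K2_ok TF_l8838 _))
                  (CovZ.n1 (-6160, 19100) (by decide +kernel)
                   (CovZ.leaf K2_ok TF_l8839 _)
                   (CovZ.badM (by decide +kernel))))
                 (CovZ.n1 (-6140, 19060) (by decide +kernel)
                  (CovZ.badM (by decide +kernel))
                  (CovZ.n1 (-6140, 19080) (by decide +kernel)
                   (CovZ.leaf K2_ok TF_l8840 _)
                   (CovZ.badM (by decide +kernel)))))))))))))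
        (CovZ.n1 (-5760, 18880) (by decide +kernel)
         (CovZ.n2 (-5920, 18720) (by decide +kernel)
          (CovZ.n2 (-5920, 18880) (by decide +kernel)
           (CovZ.n2 (-5840, 18800) (by decide +kernel)
            (CovZ.leaf K2_ok TF_l418 _)
            (CovZ.leaf K2_ok TF_l419 _))
           (CovZ.subM 699620552555302000395528665761608519122944 (by decide +kernel)
            (CovZ.n1 (-6000, 18800) (by decide +kernel)
             (CovZ.n2 (-6000, 18880) (by decide +kernel)
              (CovZ.leaf K2_ok TF_l8841 _)
              (CovZ.n1 (-6040, 18840) (by decide +kernel)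
               (CovZ.leaf K2_ok TF_l8842 _)
               (CovZ.leaf K2_ok TF_l8843 _)))
             (CovZ.n1 (-5920, 18800) (by decide +kernel)
              (CovZ.leaf K2_ok TF_l8844 _)
              (CovZ.leaf K2_ok TF_l8845 _)))))
          (CovZ.n1 (-5760, 18720) (by decide +kernel)
           (CovZ.leaf K2_ok TF_l420 _)
           (CovZ.n1 (-5840, 18800) (by decide +kernel)
            (CovZ.leaf K2_ok TF_l421 _)
            (CovZ.leaf K2_ok TF_l422 _))))
         (CovZ.n1 (-5920, 19040) (by decide +kernel)
          (CovZ.n2 (-5760, 19040) (by decide +kernel)
           (CovZ.leaf K2_ok TF_l423 _)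
           (CovZ.n1 (-5840, 19120) (by decide +kernel)
            (CovZ.leaf K2_ok TF_l424 _)
            (CovZ.leaf K2_ok TF_l425 _)))
          (CovZ.n1 (-5920, 18880) (by decide +kernel)
           (CovZ.n2 (-6000, 18960) (by decide +kernel)
            (CovZ.n2 (-5920, 18960) (by decide +kernel)
             (CovZ.leaf K2_ok TF_l8846 _)
             (CovZ.leaf K2_ok TF_l8847 _))
            (CovZ.n1 (-6000, 18880) (by decide +kernel)
             (CovZ.n2 (-6040, 18920) (by decide +kernel)
              (CovZ.leaf K2_ok TF_l8848 _)
              (CovZ.leaf K2_ok TF_l8849 _))
             (CovZ.leaf K2_ok TF_l8850 _)))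
           (CovZ.leaf K2_ok TF_l426 _))))))
      (CovZ.n1 (-5120, 18560) (by decide +kernel)
       (CovZ.n2 (-5440, 18240) (by decide +kernel)
        (CovZ.n2 (-5440, 18560) (by decide +kernel)
         (CovZ.leaf K2_ok TF_l427 _)
         (CovZ.n1 (-5600, 18400) (by decide +kernel)
          (CovZ.leaf K2_ok TF_l428 _)
          (CovZ.leaf K2_ok TF_l429 _)))
        (CovZ.n1 (-5120, 18240) (by decide +kernel)
         (CovZ.leaf K2_ok TF_l430 _)
         (CovZ.leaf K2_ok TF_l431 _)))
       (CovZ.n1 (-5440, 18880) (by decide +kernel)
        (CovZ.n2 (-5120, 18880) (by decide +kernel)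
         (CovZ.leaf K2_ok TF_l432 _)
         (CovZ.leaf K2_ok TF_l433 _))
        (CovZ.n1 (-5440, 18560) (by decide +kernel)
         (CovZ.n2 (-5600, 18720) (by decide +kernel)
          (CovZ.leaf K2_ok TF_l434 _)
          (CovZ.leaf K2_ok TF_l435 _))
         (CovZ.leaf K2_ok TF_l436 _)))))

theorem TF_u112 : CovZ TF_M (toL (selN TF_LN 884734160160292524557383384068158404952064)) [0, 7, 4, 3] (-5120, 19200) (-5120, 20480) (-6400, 19200) :=
    (CovZ.n1 (-5760, 19840) (by decide +kernel)
      (CovZ.n2 (-5120, 19840) (by decide +kernel)
       (CovZ.n2 (-5440, 19520) (by decide +kernel)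
        (CovZ.n2 (-5440, 19840) (by decide +kernel)
         (CovZ.leaf K2_ok TF_l437 _)
         (CovZ.leaf K2_ok TF_l438 _))
        (CovZ.leaf K2_ok TF_l439 _))
       (CovZ.subM 696898293295415939062451507499085802242048 (by decide +kernel)
        (CovZ.n1 (-5440, 20160) (by decide +kernel)
         (CovZ.leaf K2_ok TF_l440 _)
         (CovZ.n1 (-5440, 19840) (by decide +kernel)
          (CovZ.n2 (-5600, 20000) (by decide +kernel)
           (CovZ.leaf K2_ok TF_l441 _)
           (CovZ.leaf K2_ok TF_l442 _))
          (CovZ.leaf K2_ok TF_l443 _)))))
      (CovZ.n1 (-5760, 19200) (by decide +kernel)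
       (CovZ.subM 873845124094303940063406303364155028013056 (by decide +kernel)
        (CovZ.n2 (-6080, 19520) (by decide +kernel)
         (CovZ.n2 (-5760, 19520) (by decide +kernel)
          (CovZ.n2 (-5920, 19360) (by decide +kernel)
           (CovZ.n2 (-5920, 19520) (by decide +kernel)
            (CovZ.leaf K2_ok TF_l444 _)
            (CovZ.n1 (-6000, 19440) (by decide +kernel)
             (CovZ.n2 (-6000, 19520) (by decide +kernel)
              (CovZ.leaf K2_ok TF_l8851 _)
              (CovZ.leaf K2_ok TF_l8852 _))
             (CovZ.leaf K2_ok TF_l8853 _)))
           (CovZ.n1 (-5760, 19360) (by decide +kernel)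
            (CovZ.leaf K2_ok TF_l445 _)
            (CovZ.leaf K2_ok TF_l446 _)))
          (CovZ.n1 (-5920, 19680) (by decide +kernel)
           (CovZ.n2 (-5760, 19680) (by decide +kernel)
            (CovZ.leaf K2_ok TF_l447 _)
            (CovZ.leaf K2_ok TF_l448 _))
           (CovZ.n1 (-5920, 19520) (by decide +kernel)
            (CovZ.n2 (-6000, 19600) (by decide +kernel)
             (CovZ.leaf K2_ok TF_l8854 _)
             (CovZ.leaf K2_ok TF_l8855 _))
            (CovZ.leaf K2_ok TF_l449 _))))
         (CovZ.n1 (-6080, 19200) (by decide +kernel)
          (CovZ.subM 873845123445266832746552552278784013762560 (by decide +kernel)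
           (CovZ.n2 (-6240, 19360) (by decide +kernel)
            (CovZ.n2 (-6080, 19360) (by decide +kernel)
             (CovZ.n2 (-6160, 19280) (by decide +kernel)
              (CovZ.n2 (-6160, 19360) (by decide +kernel)
               (CovZ.n2 (-6120, 19320) (by decide +kernel)
                (CovZ.n2 (-6160, 19320) (by decide +kernel)
                 (CovZ.leaf K2_ok TF_l8856 _)
                 (CovZ.n1 (-6140, 19300) (by decide +kernel)
                  (CovZ.leaf K2_ok TF_l8857 _)
                  (CovZ.leaf K2_ok TF_l8858 _)))
                (CovZ.n1 (-6120, 19360) (by decide +kernel)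
                 (CovZ.leaf K2_ok TF_l8859 _)
                 (CovZ.n1 (-6140, 19340) (by decide +kernel)
                  (CovZ.leaf K2_ok TF_l8860 _)
                  (CovZ.leaf K2_ok TF_l8861 _))))
               (CovZ.badM (by decide +kernel)))
              (CovZ.n1 (-6080, 19280) (by decide +kernel)
               (CovZ.n2 (-6120, 19240) (by decide +kernel)
                (CovZ.n2 (-6120, 19280) (by decide +kernel)
                 (CovZ.leaf K2_ok TF_l8862 _)
                 (CovZ.n1 (-6140, 19260) (by decide +kernel)
                  (CovZ.leaf K2_ok TF_l8863 _)
                  (CovZ.leaf K2_ok TF_l8864 _)))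
                (CovZ.n1 (-6080, 19240) (by decide +kernel)
                 (CovZ.leaf K2_ok TF_l8865 _)
                 (CovZ.leaf K2_ok TF_l8866 _)))
               (CovZ.n1 (-6120, 19320) (by decide +kernel)
                (CovZ.n2 (-6080, 19320) (by decide +kernel)
                 (CovZ.leaf K2_ok TF_l8867 _)
                 (CovZ.leaf K2_ok TF_l8868 _))
                (CovZ.n1 (-6120, 19280) (by decide +kernel)
                 (CovZ.n2 (-6140, 19300) (by decide +kernel)
                  (CovZ.leaf K2_ok TF_l8869 _)
                  (CovZ.leaf K2_ok TF_l8870 _))
                 (CovZ.leaf K2_ok TF_l8871 _)))))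
             (CovZ.n1 (-6160, 19440) (by decide +kernel)
              (CovZ.n2 (-6080, 19440) (by decide +kernel)
               (CovZ.n2 (-6120, 19400) (by decide +kernel)
                (CovZ.n2 (-6120, 19440) (by decide +kernel)
                 (CovZ.leaf K2_ok TF_l8872 _)
                 (CovZ.n1 (-6140, 19420) (by decide +kernel)
                  (CovZ.leaf K2_ok TF_l8873 _)
                  (CovZ.leaf K2_ok TF_l8874 _)))
                (CovZ.leaf K2_ok TF_l8875 _))
               (CovZ.n1 (-6120, 19480) (by decide +kernel)
                (CovZ.leaf K2_ok TF_l8876 _)
                (CovZ.n1 (-6120, 19440) (by decide +kernel)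
                 (CovZ.n2 (-6140, 19460) (by decide +kernel)
                  (CovZ.leaf K2_ok TF_l8877 _)
                  (CovZ.leaf K2_ok TF_l8878 _))
                 (CovZ.leaf K2_ok TF_l8879 _))))
              (CovZ.n1 (-6160, 19360) (by decide +kernel)
               (CovZ.badM (by decide +kernel))
               (CovZ.n1 (-6120, 19400) (by decide +kernel)
                (CovZ.n2 (-6120, 19360) (by decide +kernel)
                 (CovZ.n2 (-6140, 19380) (by decide +kernel)
                  (CovZ.leaf K2_ok TF_l8880 _)
                  (CovZ.leaf K2_ok TF_l8881 _))
                 (CovZ.leaf K2_ok TF_l8882 _))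
                (CovZ.n1 (-6160, 19400) (by decide +kernel)
                 (CovZ.leaf K2_ok TF_l8883 _)
                 (CovZ.n1 (-6140, 19380) (by decide +kernel)
                  (CovZ.leaf K2_ok TF_l8884 _)
                  (CovZ.leaf K2_ok TF_l8885 _)))))))
            (CovZ.n1 (-6240, 19200) (by decide +kernel)
             (CovZ.badM (by decide +kernel))
             (CovZ.n1 (-6160, 19280) (by decide +kernel)
              (CovZ.n2 (-6160, 19200) (by decide +kernel)
               (CovZ.badM (by decide +kernel))
               (CovZ.n1 (-6120, 19240) (by decide +kernel)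
                (CovZ.n2 (-6120, 19200) (by decide +kernel)
                 (CovZ.n2 (-6140, 19220) (by decide +kernel)
                  (CovZ.leaf K2_ok TF_l8886 _)
                  (CovZ.leaf K2_ok TF_l8887 _))
                 (CovZ.leaf K2_ok TF_l8888 _))
                (CovZ.n1 (-6160, 19240) (by decide +kernel)
                 (CovZ.leaf K2_ok TF_l8889 _)
                 (CovZ.n1 (-6140, 19220) (by decide +kernel)
                  (CovZ.n2 (-6160, 19220) (by decide +kernel)
                   (CovZ.leaf K2_ok TF_l8890 _)
                   (CovZ.leaf K2_ok TF_l8891 _))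
                  (CovZ.leaf K2_ok TF_l8892 _)))))
              (CovZ.badM (by decide +kernel))))))
          (CovZ.n1 (-5920, 19360) (by decide +kernel)
           (CovZ.n2 (-5920, 19200) (by decide +kernel)
            (CovZ.n2 (-6000, 19280) (by decide +kernel)
             (CovZ.leaf K2_ok TF_l8893 _)
             (CovZ.n1 (-6000, 19200) (by decide +kernel)
              (CovZ.n2 (-6040, 19240) (by decide +kernel)
               (CovZ.leaf K2_ok TF_l8894 _)
               (CovZ.leaf K2_ok TF_l8895 _))
              (CovZ.leaf K2_ok TF_l8896 _)))
            (CovZ.leaf K2_ok TF_l450 _))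
           (CovZ.n1 (-6080, 19360) (by decide +kernel)
            (CovZ.n2 (-6000, 19440) (by decide +kernel)
             (CovZ.n2 (-6000, 19360) (by decide +kernel)
              (CovZ.n2 (-6040, 19400) (by decide +kernel)
               (CovZ.leaf K2_ok TF_l8897 _)
               (CovZ.leaf K2_ok TF_l8898 _))
              (CovZ.leaf K2_ok TF_l8899 _))
             (CovZ.n1 (-6080, 19440) (by decide +kernel)
              (CovZ.leaf K2_ok TF_l8900 _)
              (CovZ.n1 (-6040, 19400) (by decide +kernel)
               (CovZ.leaf K2_ok TF_l8901 _)
               (CovZ.leaf K2_ok TF_l8902 _))))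
            (CovZ.n1 (-6000, 19280) (by decide +kernel)
             (CovZ.n2 (-6080, 19280) (by decide +kernel)
              (CovZ.leaf K2_ok TF_l8903 _)
              (CovZ.n1 (-6040, 19240) (by decide +kernel)
               (CovZ.leaf K2_ok TF_l8904 _)
               (CovZ.leaf K2_ok TF_l8905 _)))
             (CovZ.n1 (-6000, 19360) (by decide +kernel)
              (CovZ.leaf K2_ok TF_l8906 _)
              (CovZ.leaf K2_ok TF_l8907 _))))))))
       (CovZ.n1 (-5440, 19520) (by decide +kernel)
        (CovZ.n2 (-5440, 19200) (by decide +kernel)
         (CovZ.n2 (-5600, 19360) (by decide +kernel)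
          (CovZ.leaf K2_ok TF_l451 _)
          (CovZ.leaf K2_ok TF_l452 _))
         (CovZ.leaf K2_ok TF_l453 _))
        (CovZ.n1 (-5760, 19520) (by decide +kernel)
         (CovZ.leaf K2_ok TF_l454 _)
         (CovZ.n1 (-5600, 19360) (by decide +kernel)
          (CovZ.leaf K2_ok TF_l455 _)
          (CovZ.leaf K2_ok TF_l456 _))))))

theorem TF_u113 : CovZ TF_M (toL (selN TF_LN 873845119226525635153948835954702537457664)) [0, 7, 4, 3] (-6400, 19200) (-6400, 18560) (-5760, 18560) :=
    (CovZ.n2 (-6080, 18880) (by decide +kernel)
         (CovZ.n2 (-6080, 18560) (by decide +kernel)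
          (CovZ.subM 324518553663149390503601139351552 (by decide +kernel)
           (CovZ.n2 (-6240, 18720) (by decide +kernel)
            (CovZ.n2 (-6080, 18720) (by decide +kernel)
             (CovZ.n2 (-6160, 18640) (by decide +kernel)
              (CovZ.n2 (-6160, 18720) (by decide +kernel)
               (CovZ.n2 (-6120, 18680) (by decide +kernel)
                (CovZ.n2 (-6160, 18680) (by decide +kernel)
                 (CovZ.n2 (-6140, 18700) (by decide +kernel)
                  (CovZ.n2 (-6140, 18680) (by decide +kernel)
                   (CovZ.badM (by decide +kernel))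
                   (CovZ.leaf K2_ok TF_l8941 _))
                  (CovZ.badM (by decide +kernel)))
                 (CovZ.n1 (-6140, 18660) (by decide +kernel)
                  (CovZ.badM (by decide +kernel))
                  (CovZ.n1 (-6140, 18680) (by decide +kernel)
                   (CovZ.leaf K2_ok TF_l8942 _)
                   (CovZ.badM (by decide +kernel)))))
                (CovZ.n1 (-6120, 18720) (by decide +kernel)
                 (CovZ.n2 (-6100, 18700) (by decide +kernel)
                  (CovZ.leaf K2_ok TF_l8943 _)
                  (CovZ.leaf K2_ok TF_l8944 _))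
                 (CovZ.n1 (-6140, 18700) (by decide +kernel)
                  (CovZ.n2 (-6140, 18720) (by decide +kernel)
                   (CovZ.leaf K2_ok TF_l8945 _)
                   (CovZ.badM (by decide +kernel)))
                  (CovZ.leaf K2_ok TF_l8946 _))))
               (CovZ.badM (by decide +kernel)))
              (CovZ.n1 (-6080, 18640) (by decide +kernel)
               (CovZ.n2 (-6120, 18600) (by decide +kernel)
                (CovZ.n2 (-6120, 18640) (by decide +kernel)
                 (CovZ.n2 (-6100, 18620) (by decide +kernel)
                  (CovZ.leaf K2_ok TF_l8947 _)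
                  (CovZ.leaf K2_ok TF_l8948 _))
                 (CovZ.n1 (-6140, 18620) (by decide +kernel)
                  (CovZ.n2 (-6140, 18640) (by decide +kernel)
                   (CovZ.leaf K2_ok TF_l8949 _)
                   (CovZ.badM (by decide +kernel)))
                  (CovZ.leaf K2_ok TF_l8950 _)))
                (CovZ.n1 (-6080, 18600) (by decide +kernel)
                 (CovZ.leaf K2_ok TF_l8951 _)
                 (CovZ.n1 (-6100, 18620) (by decide +kernel)
                  (CovZ.leaf K2_ok TF_l8952 _)
                  (CovZ.leaf K2_ok TF_l8953 _))))
               (CovZ.n1 (-6120, 18680) (by decide +kernel)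
                (CovZ.n2 (-6080, 18680) (by decide +kernel)
                 (CovZ.leaf K2_ok TF_l8954 _)
                 (CovZ.n1 (-6100, 18700) (by decide +kernel)
                  (CovZ.leaf K2_ok TF_l8955 _)
                  (CovZ.leaf K2_ok TF_l8956 _)))
                (CovZ.n1 (-6120, 18640) (by decide +kernel)
                 (CovZ.n2 (-6140, 18660) (by decide +kernel)
                  (CovZ.leaf K2_ok TF_l8957 _)
                  (CovZ.n1 (-6140, 18640) (by decide +kernel)
                   (CovZ.badM (by decide +kernel))
                   (CovZ.leaf K2_ok TF_l8958 _)))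
                 (CovZ.leaf K2_ok TF_l8959 _)))))
             (CovZ.n1 (-6160, 18800) (by decide +kernel)
              (CovZ.n2 (-6080, 18800) (by decide +kernel)
               (CovZ.n2 (-6120, 18760) (by decide +kernel)
                (CovZ.n2 (-6120, 18800) (by decide +kernel)
                 (CovZ.n2 (-6100, 18780) (by decide +kernel)
                  (CovZ.leaf K2_ok TF_l8960 _)
                  (CovZ.leaf K2_ok TF_l8961 _))
                 (CovZ.n1 (-6140, 18780) (by decide +kernel)
                  (CovZ.n2 (-6140, 18800) (by decide +kernel)
                   (CovZ.leaf K2_ok TF_l8962 _)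
                   (CovZ.badM (by decide +kernel)))
                  (CovZ.leaf K2_ok TF_l8963 _)))
                (CovZ.n1 (-6080, 18760) (by decide +kernel)
                 (CovZ.leaf K2_ok TF_l8964 _)
                 (CovZ.n1 (-6100, 18780) (by decide +kernel)
                  (CovZ.leaf K2_ok TF_l8965 _)
                  (CovZ.leaf K2_ok TF_l8966 _))))
               (CovZ.n1 (-6120, 18840) (by decide +kernel)
                (CovZ.n2 (-6080, 18840) (by decide +kernel)
                 (CovZ.leaf K2_ok TF_l8967 _)
                 (CovZ.leaf K2_ok TF_l8968 _))
                (CovZ.n1 (-6120, 18800) (by decide +kernel)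
                 (CovZ.n2 (-6140, 18820) (by decide +kernel)
                  (CovZ.leaf K2_ok TF_l8969 _)
                  (CovZ.n1 (-6140, 18800) (by decide +kernel)
                   (CovZ.badM (by decide +kernel))
                   (CovZ.leaf K2_ok TF_l8970 _)))
                 (CovZ.leaf K2_ok TF_l8971 _))))
              (CovZ.n1 (-6160, 18720) (by decide +kernel)
               (CovZ.badM (by decide +kernel))
               (CovZ.n1 (-6120, 18760) (by decide +kernel)
                (CovZ.n2 (-6120, 18720) (by decide +kernel)
                 (CovZ.n2 (-6140, 18740) (by decide +kernel)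
                  (CovZ.leaf K2_ok TF_l8972 _)
                  (CovZ.n1 (-6140, 18720) (by decide +kernel)
                   (CovZ.badM (by decide +kernel))
                   (CovZ.leaf K2_ok TF_l8973 _)))
                 (CovZ.leaf K2_ok TF_l8974 _))
                (CovZ.n1 (-6160, 18760) (by decide +kernel)
                 (CovZ.n2 (-6140, 18780) (by decide +kernel)
                  (CovZ.n2 (-6140, 18760) (by decide +kernel)
                   (CovZ.badM (by decide +kernel))
                   (CovZ.leaf K2_ok TF_l8975 _))
                  (CovZ.badM (by decide +kernel)))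
                 (CovZ.n1 (-6140, 18740) (by decide +kernel)
                  (CovZ.badM (by decide +kernel))
                  (CovZ.n1 (-6140, 18760) (by decide +kernel)
                   (CovZ.leaf K2_ok TF_l8976 _)
                   (CovZ.badM (by decide +kernel)))))))))
            (CovZ.n1 (-6240, 18560) (by decide +kernel)
             (CovZ.badM (by decide +kernel))
             (CovZ.n1 (-6160, 18640) (by decide +kernel)
              (CovZ.n2 (-6160, 18560) (by decide +kernel)
               (CovZ.badM (by decide +kernel))
               (CovZ.n1 (-6120, 18600) (by decide +kernel)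
                (CovZ.n2 (-6120, 18560) (by decide +kernel)
                 (CovZ.n2 (-6140, 18580) (by decide +kernel)
                  (CovZ.n2 (-6120, 18580) (by decide +kernel)
                   (CovZ.leaf K2_ok TF_l8977 _)
                   (CovZ.leaf K2_ok TF_l8978 _))
                  (CovZ.n1 (-6140, 18560) (by decide +kernel)
                   (CovZ.badM (by decide +kernel))
                   (CovZ.leaf K2_ok TF_l8979 _)))
                 (CovZ.leaf K2_ok TF_l8980 _))
                (CovZ.n1 (-6160, 18600) (by decide +kernel)
                 (CovZ.n2 (-6140, 18620) (by decide +kernel)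
                  (CovZ.n2 (-6140, 18600) (by decide +kernel)
                   (CovZ.badM (by decide +kernel))
                   (CovZ.leaf K2_ok TF_l8981 _))
                  (CovZ.badM (by decide +kernel)))
                 (CovZ.n1 (-6140, 18580) (by decide +kernel)
                  (CovZ.badM (by decide +kernel))
                  (CovZ.n1 (-6140, 18600) (by decide +kernel)
                   (CovZ.leaf K2_ok TF_l8982 _)
                   (CovZ.badM (by decide +kernel)))))))
              (CovZ.badM (by decide +kernel))))))
          (CovZ.n1 (-5920, 18720) (by decide +kernel)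
           (CovZ.n2 (-5920, 18560) (by decide +kernel)
            (CovZ.n2 (-6000, 18640) (by decide +kernel)
             (CovZ.n2 (-5920, 18640) (by decide +kernel)
              (CovZ.leaf K2_ok TF_l489 _)
              (CovZ.leaf K2_ok TF_l490 _))
             (CovZ.n1 (-6000, 18560) (by decide +kernel)
              (CovZ.n2 (-6040, 18600) (by decide +kernel)
               (CovZ.leaf K2_ok TF_l8983 _)
               (CovZ.leaf K2_ok TF_l8984 _))
              (CovZ.leaf K2_ok TF_l491 _)))
            (CovZ.leaf K2_ok TF_l492 _))
           (CovZ.n1 (-6080, 18720) (by decide +kernel)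
            (CovZ.n2 (-6000, 18800) (by decide +kernel)
             (CovZ.n2 (-6000, 18720) (by decide +kernel)
              (CovZ.n2 (-6040, 18760) (by decide +kernel)
               (CovZ.leaf K2_ok TF_l8985 _)
               (CovZ.leaf K2_ok TF_l8986 _))
              (CovZ.leaf K2_ok TF_l8987 _))
             (CovZ.n1 (-6080, 18800) (by decide +kernel)
              (CovZ.leaf K2_ok TF_l8988 _)
              (CovZ.n1 (-6040, 18760) (by decide +kernel)
               (CovZ.leaf K2_ok TF_l8989 _)
               (CovZ.leaf K2_ok TF_l8990 _))))
            (CovZ.n1 (-6000, 18640) (by decide +kernel)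
             (CovZ.n2 (-6080, 18640) (by decide +kernel)
              (CovZ.leaf K2_ok TF_l8991 _)
              (CovZ.n1 (-6040, 18600) (by decide +kernel)
               (CovZ.leaf K2_ok TF_l8992 _)
               (CovZ.leaf K2_ok TF_l8993 _)))
             (CovZ.n1 (-6000, 18720) (by decide +kernel)
              (CovZ.leaf K2_ok TF_l8994 _)
              (CovZ.n1 (-6040, 18680) (by decide +kernel)
               (CovZ.leaf K2_ok TF_l8995 _)
               (CovZ.leaf K2_ok TF_l8996 _)))))))
         (CovZ.n1 (-6400, 18880) (by decide +kernel)
          (CovZ.n2 (-6240, 19040) (by decide +kernel)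
           (CovZ.badM (by decide +kernel))
           (CovZ.badM (by decide +kernel)))
          (CovZ.badM (by decide +kernel))))

theorem TF_u114 : CovZ TF_M (toL (selN TF_LN 873845119226525635153948835954702537457664)) [0, 7, 4, 3] (-6400, 18560) (-6400, 17920) (-5760, 18560) :=
    (CovZ.n1 (-6080, 18240) (by decide +kernel)
         (CovZ.subM 4722375490068967063552 (by decide +kernel)
          (CovZ.n2 (-6400, 18240) (by decide +kernel)
           (CovZ.n2 (-6240, 18400) (by decide +kernel)
            (CovZ.n2 (-6240, 18240) (by decide +kernel)
             (CovZ.badM (by decide +kernel))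
             (CovZ.n1 (-6160, 18320) (by decide +kernel)
              (CovZ.n2 (-6160, 18240) (by decide +kernel)
               (CovZ.badM (by decide +kernel))
               (CovZ.n1 (-6120, 18280) (by decide +kernel)
                (CovZ.badM (by decide +kernel))
                (CovZ.n1 (-6160, 18280) (by decide +kernel)
                 (CovZ.n2 (-6140, 18300) (by decide +kernel)
                  (CovZ.badM (by decide +kernel))
                  (CovZ.badM (by decide +kernel)))
                 (CovZ.badM (by decide +kernel)))))
              (CovZ.badM (by decide +kernel))))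
            (CovZ.badM (by decide +kernel)))
           (CovZ.badM (by decide +kernel))))
         (CovZ.n1 (-6080, 18560) (by decide +kernel)
          (CovZ.n2 (-5920, 18400) (by decide +kernel)
           (CovZ.n2 (-6080, 18400) (by decide +kernel)
            (CovZ.n2 (-6000, 18480) (by decide +kernel)
             (CovZ.n2 (-6000, 18400) (by decide +kernel)
              (CovZ.n2 (-6040, 18440) (by decide +kernel)
               (CovZ.leaf K2_ok TF_l8997 _)
               (CovZ.leaf K2_ok TF_l8998 _))
              (CovZ.leaf K2_ok TF_l493 _))
             (CovZ.n1 (-6080, 18480) (by decide +kernel)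
              (CovZ.leaf K2_ok TF_l8999 _)
              (CovZ.n1 (-6040, 18440) (by decide +kernel)
               (CovZ.leaf K2_ok TF_l9000 _)
               (CovZ.leaf K2_ok TF_l9001 _))))
            (CovZ.n1 (-6000, 18320) (by decide +kernel)
             (CovZ.n2 (-6080, 18320) (by decide +kernel)
              (CovZ.leaf K2_ok TF_l9002 _)
              (CovZ.n1 (-6040, 18280) (by decide +kernel)
               (CovZ.leaf K2_ok TF_l9003 _)
               (CovZ.leaf K2_ok TF_l9004 _)))
             (CovZ.n1 (-6000, 18400) (by decide +kernel)
              (CovZ.leaf K2_ok TF_l494 _)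
              (CovZ.n1 (-6040, 18360) (by decide +kernel)
               (CovZ.leaf K2_ok TF_l9005 _)
               (CovZ.leaf K2_ok TF_l9006 _)))))
           (CovZ.n1 (-5920, 18560) (by decide +kernel)
            (CovZ.n2 (-5840, 18480) (by decide +kernel)
             (CovZ.leaf K2_ok TF_l495 _)
             (CovZ.leaf K2_ok TF_l496 _))
            (CovZ.n1 (-6000, 18480) (by decide +kernel)
             (CovZ.n2 (-6000, 18560) (by decide +kernel)
              (CovZ.leaf K2_ok TF_l497 _)
              (CovZ.n1 (-6040, 18520) (by decide +kernel)
               (CovZ.leaf K2_ok TF_l9007 _)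
               (CovZ.leaf K2_ok TF_l9008 _)))
             (CovZ.n1 (-5920, 18480) (by decide +kernel)
              (CovZ.leaf K2_ok TF_l498 _)
              (CovZ.leaf K2_ok TF_l499 _)))))
          (CovZ.subM 324518553663149390503601139351552 (by decide +kernel)
           (CovZ.n1 (-6240, 18400) (by decide +kernel)
            (CovZ.n2 (-6240, 18560) (by decide +kernel)
             (CovZ.n2 (-6160, 18480) (by decide +kernel)
              (CovZ.badM (by decide +kernel))
              (CovZ.n1 (-6160, 18560) (by decide +kernel)
               (CovZ.n2 (-6120, 18520) (by decide +kernel)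
                (CovZ.n2 (-6160, 18520) (by decide +kernel)
                 (CovZ.n2 (-6140, 18540) (by decide +kernel)
                  (CovZ.n2 (-6140, 18520) (by decide +kernel)
                   (CovZ.badM (by decide +kernel))
                   (CovZ.leaf K2_ok TF_l9009 _))
                  (CovZ.badM (by decide +kernel)))
                 (CovZ.n1 (-6140, 18500) (by decide +kernel)
                  (CovZ.badM (by decide +kernel))
                  (CovZ.n1 (-6140, 18520) (by decide +kernel)
                   (CovZ.leaf K2_ok TF_l9010 _)
                   (CovZ.badM (by decide +kernel)))))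
                (CovZ.n1 (-6120, 18560) (by decide +kernel)
                 (CovZ.n2 (-6100, 18540) (by decide +kernel)
                  (CovZ.leaf K2_ok TF_l9011 _)
                  (CovZ.leaf K2_ok TF_l9012 _))
                 (CovZ.n1 (-6140, 18540) (by decide +kernel)
                  (CovZ.n2 (-6140, 18560) (by decide +kernel)
                   (CovZ.leaf K2_ok TF_l9013 _)
                   (CovZ.badM (by decide +kernel)))
                  (CovZ.n1 (-6120, 18540) (by decide +kernel)
                   (CovZ.leaf K2_ok TF_l9014 _)
                   (CovZ.leaf K2_ok TF_l9015 _)))))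
               (CovZ.badM (by decide +kernel))))
             (CovZ.badM (by decide +kernel)))
            (CovZ.n1 (-6080, 18400) (by decide +kernel)
             (CovZ.n2 (-6160, 18320) (by decide +kernel)
              (CovZ.n2 (-6160, 18400) (by decide +kernel)
               (CovZ.n2 (-6120, 18360) (by decide +kernel)
                (CovZ.n2 (-6160, 18360) (by decide +kernel)
                 (CovZ.n2 (-6140, 18380) (by decide +kernel)
                  (CovZ.n2 (-6140, 18360) (by decide +kernel)
                   (CovZ.badM (by decide +kernel))
                   (CovZ.leaf K2_ok TF_l9016 _))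
                  (CovZ.badM (by decide +kernel)))
                 (CovZ.n1 (-6140, 18340) (by decide +kernel)
                  (CovZ.badM (by decide +kernel))
                  (CovZ.n1 (-6140, 18360) (by decide +kernel)
                   (CovZ.leaf K2_ok TF_l9017 _)
                   (CovZ.badM (by decide +kernel)))))
                (CovZ.n1 (-6120, 18400) (by decide +kernel)
                 (CovZ.leaf K2_ok TF_l9018 _)
                 (CovZ.n1 (-6140, 18380) (by decide +kernel)
                  (CovZ.n2 (-6140, 18400) (by decide +kernel)
                   (CovZ.leaf K2_ok TF_l9019 _)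
                   (CovZ.badM (by decide +kernel)))
                  (CovZ.leaf K2_ok TF_l9020 _))))
               (CovZ.badM (by decide +kernel)))
              (CovZ.n1 (-6080, 18320) (by decide +kernel)
               (CovZ.n2 (-6120, 18280) (by decide +kernel)
                (CovZ.n2 (-6120, 18320) (by decide +kernel)
                 (CovZ.n2 (-6100, 18300) (by decide +kernel)
                  (CovZ.leaf K2_ok TF_l9021 _)
                  (CovZ.leaf K2_ok TF_l9022 _))
                 (CovZ.n1 (-6140, 18300) (by decide +kernel)
                  (CovZ.n2 (-6140, 18320) (by decide +kernel)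
                   (CovZ.leaf K2_ok TF_l9023 _)
                   (CovZ.badM (by decide +kernel)))
                  (CovZ.n1 (-6120, 18300) (by decide +kernel)
                   (CovZ.leaf K2_ok TF_l9024 _)
                   (CovZ.leaf K2_ok TF_l9025 _))))
                (CovZ.n1 (-6080, 18280) (by decide +kernel)
                 (CovZ.leaf K2_ok TF_l9026 _)
                 (CovZ.n1 (-6100, 18300) (by decide +kernel)
                  (CovZ.leaf K2_ok TF_l9027 _)
                  (CovZ.leaf K2_ok TF_l9028 _))))
               (CovZ.n1 (-6120, 18360) (by decide +kernel)
                (CovZ.n2 (-6080, 18360) (by decide +kernel)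
                 (CovZ.leaf K2_ok TF_l9029 _)
                 (CovZ.leaf K2_ok TF_l9030 _))
                (CovZ.n1 (-6120, 18320) (by decide +kernel)
                 (CovZ.n2 (-6140, 18340) (by decide +kernel)
                  (CovZ.leaf K2_ok TF_l9031 _)
                  (CovZ.n1 (-6140, 18320) (by decide +kernel)
                   (CovZ.badM (by decide +kernel))
                   (CovZ.leaf K2_ok TF_l9032 _)))
                 (CovZ.leaf K2_ok TF_l9033 _)))))
             (CovZ.n1 (-6160, 18480) (by decide +kernel)
              (CovZ.n2 (-6080, 18480) (by decide +kernel)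
               (CovZ.n2 (-6120, 18440) (by decide +kernel)
                (CovZ.n2 (-6120, 18480) (by decide +kernel)
                 (CovZ.n2 (-6100, 18460) (by decide +kernel)
                  (CovZ.leaf K2_ok TF_l9034 _)
                  (CovZ.leaf K2_ok TF_l9035 _))
                 (CovZ.n1 (-6140, 18460) (by decide +kernel)
                  (CovZ.n2 (-6140, 18480) (by decide +kernel)
                   (CovZ.leaf K2_ok TF_l9036 _)
                   (CovZ.badM (by decide +kernel)))
                  (CovZ.leaf K2_ok TF_l9037 _)))
                (CovZ.n1 (-6080, 18440) (by decide +kernel)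
                 (CovZ.leaf K2_ok TF_l9038 _)
                 (CovZ.n1 (-6100, 18460) (by decide +kernel)
                  (CovZ.leaf K2_ok TF_l9039 _)
                  (CovZ.leaf K2_ok TF_l9040 _))))
               (CovZ.n1 (-6120, 18520) (by decide +kernel)
                (CovZ.n2 (-6080, 18520) (by decide +kernel)
                 (CovZ.leaf K2_ok TF_l9041 _)
                 (CovZ.n1 (-6100, 18540) (by decide +kernel)
                  (CovZ.leaf K2_ok TF_l9042 _)
                  (CovZ.leaf K2_ok TF_l9043 _)))
                (CovZ.n1 (-6120, 18480) (by decide +kernel)
                 (CovZ.n2 (-6140, 18500) (by decide +kernel)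
                  (CovZ.leaf K2_ok TF_l9044 _)
                  (CovZ.n1 (-6140, 18480) (by decide +kernel)
                   (CovZ.badM (by decide +kernel))
                   (CovZ.leaf K2_ok TF_l9045 _)))
                 (CovZ.leaf K2_ok TF_l9046 _))))
              (CovZ.n1 (-6160, 18400) (by decide +kernel)
               (CovZ.badM (by decide +kernel))
               (CovZ.n1 (-6120, 18440) (by decide +kernel)
                (CovZ.n2 (-6120, 18400) (by decide +kernel)
                 (CovZ.n2 (-6140, 18420) (by decide +kernel)
                  (CovZ.n2 (-6120, 18420) (by decide +kernel)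
                   (CovZ.leaf K2_ok TF_l9047 _)
                   (CovZ.leaf K2_ok TF_l9048 _))
                  (CovZ.n1 (-6140, 18400) (by decide +kernel)
                   (CovZ.badM (by decide +kernel))
                   (CovZ.leaf K2_ok TF_l9049 _)))
                 (CovZ.leaf K2_ok TF_l9050 _))
                (CovZ.n1 (-6160, 18440) (by decide +kernel)
                 (CovZ.n2 (-6140, 18460) (by decide +kernel)
                  (CovZ.n2 (-6140, 18440) (by decide +kernel)
                   (CovZ.badM (by decide +kernel))
                   (CovZ.leaf K2_ok TF_l9051 _))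
                  (CovZ.badM (by decide +kernel)))
                 (CovZ.n1 (-6140, 18420) (by decide +kernel)
                  (CovZ.badM (by decide +kernel))
                  (CovZ.n1 (-6140, 18440) (by decide +kernel)
                   (CovZ.leaf K2_ok TF_l9052 _)
                   (CovZ.badM (by decide +kernel)))))))))))))

theorem TF_u115 : CovZ TF_M (toL (selN TF_LN 873845124094303940063406303364155028013056)) [0, 7, 4, 3] (-6400, 19200) (-5760, 19840) (-6400, 20480) :=
    (CovZ.n2 (-6400, 19840) (by decide +kernel)
       (CovZ.subM 696898288103119080489844937816958079860736 (by decide +kernel)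
        (CovZ.n2 (-6080, 20160) (by decide +kernel)
         (CovZ.n2 (-6080, 19840) (by decide +kernel)
          (CovZ.n2 (-6240, 20000) (by decide +kernel)
           (CovZ.n2 (-6080, 20000) (by decide +kernel)
            (CovZ.n2 (-6160, 19920) (by decide +kernel)
             (CovZ.n2 (-6160, 20000) (by decide +kernel)
              (CovZ.n2 (-6120, 19960) (by decide +kernel)
               (CovZ.leaf K2_ok TF_l9053 _)
               (CovZ.leaf K2_ok TF_l9054 _))
              (CovZ.badM (by decide +kernel)))
             (CovZ.n1 (-6080, 19920) (by decide +kernel)
              (CovZ.n2 (-6120, 19880) (by decide +kernel)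
               (CovZ.leaf K2_ok TF_l9055 _)
               (CovZ.leaf K2_ok TF_l9056 _))
              (CovZ.n1 (-6120, 19960) (by decide +kernel)
               (CovZ.leaf K2_ok TF_l9057 _)
               (CovZ.leaf K2_ok TF_l9058 _))))
            (CovZ.n1 (-6160, 20080) (by decide +kernel)
             (CovZ.n2 (-6080, 20080) (by decide +kernel)
              (CovZ.n2 (-6120, 20040) (by decide +kernel)
               (CovZ.leaf K2_ok TF_l9059 _)
               (CovZ.leaf K2_ok TF_l9060 _))
              (CovZ.n1 (-6120, 20120) (by decide +kernel)
               (CovZ.leaf K2_ok TF_l9061 _)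
               (CovZ.leaf K2_ok TF_l9062 _)))
             (CovZ.n1 (-6160, 20000) (by decide +kernel)
              (CovZ.badM (by decide +kernel))
              (CovZ.leaf K2_ok TF_l9063 _))))
           (CovZ.n1 (-6240, 19840) (by decide +kernel)
            (CovZ.badM (by decide +kernel))
            (CovZ.n1 (-6160, 19920) (by decide +kernel)
             (CovZ.n2 (-6160, 19840) (by decide +kernel)
              (CovZ.badM (by decide +kernel))
              (CovZ.leaf K2_ok TF_l9064 _))
             (CovZ.badM (by decide +kernel)))))
          (CovZ.n1 (-5920, 20000) (by decide +kernel)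
           (CovZ.n2 (-5920, 19840) (by decide +kernel)
            (CovZ.n2 (-6000, 19920) (by decide +kernel)
             (CovZ.leaf K2_ok TF_l9065 _)
             (CovZ.leaf K2_ok TF_l9066 _))
            (CovZ.leaf K2_ok TF_l500 _))
           (CovZ.n1 (-6080, 20000) (by decide +kernel)
            (CovZ.leaf K2_ok TF_l9067 _)
            (CovZ.n1 (-6000, 19920) (by decide +kernel)
             (CovZ.leaf K2_ok TF_l9068 _)
             (CovZ.leaf K2_ok TF_l9069 _)))))
         (CovZ.n1 (-6400, 20160) (by decide +kernel)
          (CovZ.n2 (-6240, 20320) (by decide +kernel)
           (CovZ.n2 (-6240, 20160) (by decide +kernel)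
            (CovZ.badM (by decide +kernel))
            (CovZ.n1 (-6160, 20240) (by decide +kernel)
             (CovZ.n2 (-6160, 20160) (by decide +kernel)
              (CovZ.n2 (-6200, 20200) (by decide +kernel)
               (CovZ.leaf K2_ok TF_l9070 _)
               (CovZ.badM (by decide +kernel)))
              (CovZ.leaf K2_ok TF_l9071 _))
             (CovZ.n1 (-6240, 20240) (by decide +kernel)
              (CovZ.n2 (-6200, 20280) (by decide +kernel)
               (CovZ.n2 (-6200, 20240) (by decide +kernel)
                (CovZ.badM (by decide +kernel))
                (CovZ.leaf K2_ok TF_l9072 _))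
               (CovZ.badM (by decide +kernel)))
              (CovZ.n1 (-6200, 20200) (by decide +kernel)
               (CovZ.badM (by decide +kernel))
               (CovZ.n1 (-6200, 20240) (by decide +kernel)
                (CovZ.leaf K2_ok TF_l9073 _)
                (CovZ.badM (by decide +kernel)))))))
           (CovZ.badM (by decide +kernel)))
          (CovZ.n1 (-6240, 20000) (by decide +kernel)
           (CovZ.badM (by decide +kernel))
           (CovZ.n1 (-6240, 20160) (by decide +kernel)
            (CovZ.n2 (-6160, 20080) (by decide +kernel)
             (CovZ.badM (by decide +kernel))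
             (CovZ.n1 (-6160, 20160) (by decide +kernel)
              (CovZ.n2 (-6120, 20120) (by decide +kernel)
               (CovZ.leaf K2_ok TF_l9074 _)
               (CovZ.leaf K2_ok TF_l9075 _))
              (CovZ.badM (by decide +kernel))))
            (CovZ.badM (by decide +kernel)))))))
       (CovZ.n1 (-6080, 19520) (by decide +kernel)
        (CovZ.subM 176946835991184859573561356258522716700672 (by decide +kernel)
         (CovZ.n2 (-6400, 19520) (by decide +kernel)
          (CovZ.badM (by decide +kernel))
          (CovZ.n1 (-6240, 19360) (by decide +kernel)
           (CovZ.badM (by decide +kernel))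
           (CovZ.n1 (-6240, 19520) (by decide +kernel)
            (CovZ.n2 (-6160, 19440) (by decide +kernel)
             (CovZ.badM (by decide +kernel))
             (CovZ.n1 (-6160, 19520) (by decide +kernel)
              (CovZ.n2 (-6120, 19480) (by decide +kernel)
               (CovZ.n2 (-6160, 19480) (by decide +kernel)
                (CovZ.badM (by decide +kernel))
                (CovZ.n1 (-6140, 19460) (by decide +kernel)
                 (CovZ.badM (by decide +kernel))
                 (CovZ.badM (by decide +kernel))))
               (CovZ.badM (by decide +kernel)))
              (CovZ.badM (by decide +kernel))))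
            (CovZ.badM (by decide +kernel))))))
        (CovZ.subM 696898288103119080489844937816958079860736 (by decide +kernel)
         (CovZ.n1 (-6080, 19840) (by decide +kernel)
          (CovZ.n2 (-5920, 19680) (by decide +kernel)
           (CovZ.n2 (-6080, 19680) (by decide +kernel)
            (CovZ.leaf K2_ok TF_l9076 _)
            (CovZ.n1 (-6000, 19600) (by decide +kernel)
             (CovZ.n2 (-6080, 19600) (by decide +kernel)
              (CovZ.leaf K2_ok TF_l9077 _)
              (CovZ.leaf K2_ok TF_l9078 _))
             (CovZ.n1 (-6000, 19680) (by decide +kernel)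
              (CovZ.leaf K2_ok TF_l9079 _)
              (CovZ.leaf K2_ok TF_l9080 _))))
           (CovZ.n1 (-5920, 19840) (by decide +kernel)
            (CovZ.leaf K2_ok TF_l501 _)
            (CovZ.n1 (-6000, 19760) (by decide +kernel)
             (CovZ.n2 (-6000, 19840) (by decide +kernel)
              (CovZ.leaf K2_ok TF_l9081 _)
              (CovZ.leaf K2_ok TF_l9082 _))
             (CovZ.leaf K2_ok TF_l9083 _))))
          (CovZ.n1 (-6240, 19680) (by decide +kernel)
           (CovZ.n2 (-6240, 19840) (by decide +kernel)
            (CovZ.n2 (-6160, 19760) (by decide +kernel)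
             (CovZ.badM (by decide +kernel))
             (CovZ.n1 (-6160, 19840) (by decide +kernel)
              (CovZ.n2 (-6120, 19800) (by decide +kernel)
               (CovZ.badM (by decide +kernel))
               (CovZ.n1 (-6120, 19840) (by decide +kernel)
                (CovZ.leaf K2_ok TF_l9084 _)
                (CovZ.badM (by decide +kernel))))
              (CovZ.badM (by decide +kernel))))
            (CovZ.badM (by decide +kernel)))
           (CovZ.n1 (-6080, 19680) (by decide +kernel)
            (CovZ.n2 (-6160, 19600) (by decide +kernel)
             (CovZ.n2 (-6160, 19680) (by decide +kernel)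
              (CovZ.n2 (-6120, 19640) (by decide +kernel)
               (CovZ.badM (by decide +kernel))
               (CovZ.n1 (-6120, 19680) (by decide +kernel)
                (CovZ.leaf K2_ok TF_l9085 _)
                (CovZ.badM (by decide +kernel))))
              (CovZ.badM (by decide +kernel)))
             (CovZ.n1 (-6080, 19600) (by decide +kernel)
              (CovZ.n2 (-6120, 19560) (by decide +kernel)
               (CovZ.n2 (-6120, 19600) (by decide +kernel)
                (CovZ.leaf K2_ok TF_l9086 _)
                (CovZ.badM (by decide +kernel)))
               (CovZ.leaf K2_ok TF_l9087 _))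
              (CovZ.n1 (-6120, 19640) (by decide +kernel)
               (CovZ.leaf K2_ok TF_l9088 _)
               (CovZ.n1 (-6120, 19600) (by decide +kernel)
                (CovZ.badM (by decide +kernel))
                (CovZ.leaf K2_ok TF_l9089 _)))))
            (CovZ.n1 (-6160, 19760) (by decide +kernel)
             (CovZ.n2 (-6080, 19760) (by decide +kernel)
              (CovZ.n2 (-6120, 19720) (by decide +kernel)
               (CovZ.n2 (-6120, 19760) (by decide +kernel)
                (CovZ.leaf K2_ok TF_l9090 _)
                (CovZ.badM (by decide +kernel)))
               (CovZ.leaf K2_ok TF_l9091 _))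
              (CovZ.n1 (-6120, 19800) (by decide +kernel)
               (CovZ.leaf K2_ok TF_l9092 _)
               (CovZ.leaf K2_ok TF_l9093 _)))
             (CovZ.n1 (-6160, 19680) (by decide +kernel)
              (CovZ.badM (by decide +kernel))
              (CovZ.n1 (-6120, 19720) (by decide +kernel)
               (CovZ.n2 (-6120, 19680) (by decide +kernel)
                (CovZ.badM (by decide +kernel))
                (CovZ.leaf K2_ok TF_l9094 _))
               (CovZ.badM (by decide +kernel)))))))))))

theorem TF_u116 : CovZ TF_M (toL (selN TF_LN 873845124094303940063406303364155028013056)) [0, 7, 4, 3] (-5760, 19840) (-5120, 20480) (-6400, 20480) :=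
    (CovZ.subM 696898288103119080489844947105632311312384 (by decide +kernel)
       (CovZ.n1 (-5760, 20480) (by decide +kernel)
        (CovZ.n2 (-5440, 20160) (by decide +kernel)
         (CovZ.n2 (-5760, 20160) (by decide +kernel)
          (CovZ.leaf K2_ok TF_l9095 _)
          (CovZ.n1 (-5600, 20000) (by decide +kernel)
           (CovZ.leaf K2_ok TF_l502 _)
           (CovZ.leaf K2_ok TF_l503 _)))
         (CovZ.n1 (-5440, 20480) (by decide +kernel)
          (CovZ.leaf K2_ok TF_l504 _)
          (CovZ.leaf K2_ok TF_l505 _)))
        (CovZ.n1 (-6080, 20160) (by decide +kernel)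
         (CovZ.subM 696898288103119080489844937816949489926144 (by decide +kernel)
          (CovZ.n2 (-6080, 20480) (by decide +kernel)
           (CovZ.n2 (-5920, 20320) (by decide +kernel)
            (CovZ.n2 (-6080, 20320) (by decide +kernel)
             (CovZ.leaf K2_ok TF_l9096 _)
             (CovZ.n1 (-6000, 20240) (by decide +kernel)
              (CovZ.leaf K2_ok TF_l9097 _)
              (CovZ.leaf K2_ok TF_l9098 _)))
            (CovZ.n1 (-5920, 20480) (by decide +kernel)
             (CovZ.leaf K2_ok TF_l9099 _)
             (CovZ.leaf K2_ok TF_l9100 _)))
           (CovZ.n1 (-6240, 20320) (by decide +kernel)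
            (CovZ.n2 (-6240, 20480) (by decide +kernel)
             (CovZ.n2 (-6160, 20400) (by decide +kernel)
              (CovZ.n2 (-6240, 20400) (by decide +kernel)
               (CovZ.n2 (-6200, 20440) (by decide +kernel)
                (CovZ.n2 (-6200, 20400) (by decide +kernel)
                 (CovZ.badM (by decide +kernel))
                 (CovZ.leaf K2_ok TF_l9101 _))
                (CovZ.badM (by decide +kernel)))
               (CovZ.n1 (-6200, 20360) (by decide +kernel)
                (CovZ.badM (by decide +kernel))
                (CovZ.n1 (-6200, 20400) (by decide +kernel)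
                 (CovZ.leaf K2_ok TF_l9102 _)
                 (CovZ.badM (by decide +kernel)))))
              (CovZ.n1 (-6160, 20480) (by decide +kernel)
               (CovZ.leaf K2_ok TF_l9103 _)
               (CovZ.n1 (-6200, 20440) (by decide +kernel)
                (CovZ.n2 (-6200, 20480) (by decide +kernel)
                 (CovZ.leaf K2_ok TF_l9104 _)
                 (CovZ.badM (by decide +kernel)))
                (CovZ.leaf K2_ok TF_l9105 _))))
             (CovZ.badM (by decide +kernel)))
            (CovZ.n1 (-6080, 20320) (by decide +kernel)
             (CovZ.n2 (-6160, 20240) (by decide +kernel)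
              (CovZ.n2 (-6160, 20320) (by decide +kernel)
               (CovZ.n2 (-6120, 20280) (by decide +kernel)
                (CovZ.leaf K2_ok TF_l9106 _)
                (CovZ.leaf K2_ok TF_l9107 _))
               (CovZ.n1 (-6200, 20280) (by decide +kernel)
                (CovZ.n2 (-6200, 20320) (by decide +kernel)
                 (CovZ.leaf K2_ok TF_l9108 _)
                 (CovZ.badM (by decide +kernel)))
                (CovZ.leaf K2_ok TF_l9109 _)))
              (CovZ.n1 (-6080, 20240) (by decide +kernel)
               (CovZ.leaf K2_ok TF_l9110 _)
               (CovZ.n1 (-6120, 20280) (by decide +kernel)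
                (CovZ.leaf K2_ok TF_l9111 _)
                (CovZ.leaf K2_ok TF_l9112 _))))
             (CovZ.n1 (-6160, 20400) (by decide +kernel)
              (CovZ.n2 (-6080, 20400) (by decide +kernel)
               (CovZ.leaf K2_ok TF_l9113 _)
               (CovZ.leaf K2_ok TF_l9114 _))
              (CovZ.n1 (-6160, 20320) (by decide +kernel)
               (CovZ.n2 (-6200, 20360) (by decide +kernel)
                (CovZ.leaf K2_ok TF_l9115 _)
                (CovZ.n1 (-6200, 20320) (by decide +kernel)
                 (CovZ.badM (by decide +kernel))
                 (CovZ.leaf K2_ok TF_l9116 _)))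
               (CovZ.leaf K2_ok TF_l9117 _)))))))
         (CovZ.n1 (-5760, 20160) (by decide +kernel)
          (CovZ.n2 (-5920, 20000) (by decide +kernel)
           (CovZ.n2 (-5920, 20160) (by decide +kernel)
            (CovZ.leaf K2_ok TF_l9118 _)
            (CovZ.n1 (-6000, 20080) (by decide +kernel)
             (CovZ.leaf K2_ok TF_l9119 _)
             (CovZ.leaf K2_ok TF_l9120 _)))
           (CovZ.n1 (-5760, 20000) (by decide +kernel)
            (CovZ.leaf K2_ok TF_l506 _)
            (CovZ.leaf K2_ok TF_l9121 _)))
          (CovZ.n1 (-5920, 20320) (by decide +kernel)
           (CovZ.leaf K2_ok TF_l9122 _)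
           (CovZ.n1 (-5920, 20160) (by decide +kernel)
            (CovZ.n2 (-6000, 20240) (by decide +kernel)
             (CovZ.leaf K2_ok TF_l9123 _)
             (CovZ.leaf K2_ok TF_l9124 _))
            (CovZ.leaf K2_ok TF_l9125 _)))))))

theorem TF_u117 : CovZ TF_M (toL (selN TF_LN 288304033929262351967819481194951254922737223753)) [0, 7, 4, 3] (17920, 17920) (17920, 19200) (16640, 19200) :=
    (CovZ.n2 (17280, 18560) (by decide +kernel)
      (CovZ.n2 (17280, 19200) (by decide +kernel)
       (CovZ.n2 (17600, 18880) (by decide +kernel)
        (CovZ.n2 (17280, 18880) (by decide +kernel)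
         (CovZ.leaf K2_ok TF_l5731 _)
         (CovZ.n1 (17440, 18720) (by decide +kernel)
          (CovZ.leaf K2_ok TF_l5732 _)
          (CovZ.leaf K2_ok TF_l5733 _)))
        (CovZ.subM 11417981541647679050942170195349963626512386056 (by decide +kernel)
         (CovZ.n1 (17600, 19200) (by decide +kernel)
          (CovZ.n2 (17760, 19040) (by decide +kernel)
           (CovZ.n2 (17600, 19040) (by decide +kernel)
            (CovZ.subM 11417981541647679050942170195349963075682830336 (by decide +kernel)
             (CovZ.n2 (17680, 19120) (by decide +kernel)
              (CovZ.n2 (17680, 19040) (by decide +kernel)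
               (CovZ.leaf K2_ok TF_l5734 _)
               (CovZ.leaf K2_ok TF_l14195 _))
              (CovZ.n1 (17600, 19120) (by decide +kernel)
               (CovZ.badM (by decide +kernel))
               (CovZ.leaf K2_ok TF_l5735 _))))
            (CovZ.n1 (17680, 18960) (by decide +kernel)
             (CovZ.leaf K2_ok TF_l5736 _)
             (CovZ.n1 (17680, 19040) (by decide +kernel)
              (CovZ.leaf K2_ok TF_l5737 _)
              (CovZ.leaf K2_ok TF_l5738 _))))
           (CovZ.subM 11417981541647679048466287755595961091061975040 (by decide +kernel)
            (CovZ.n1 (17760, 19200) (by decide +kernel)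
             (CovZ.badM (by decide +kernel))
             (CovZ.n1 (17680, 19120) (by decide +kernel)
              (CovZ.badM (by decide +kernel))
              (CovZ.n1 (17760, 19120) (by decide +kernel)
               (CovZ.n2 (17720, 19080) (by decide +kernel)
                (CovZ.n2 (17720, 19120) (by decide +kernel)
                 (CovZ.badM (by decide +kernel))
                 (CovZ.leaf K2_ok TF_l14196 _))
                (CovZ.n1 (17760, 19080) (by decide +kernel)
                 (CovZ.leaf K2_ok TF_l15969 _)
                 (CovZ.n1 (17740, 19100) (by decide +kernel)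
                  (CovZ.n2 (17760, 19100) (by decide +kernel)
                   (CovZ.leaf K2_ok TF_l15970 _)
                   (CovZ.badM (by decide +kernel)))
                  (CovZ.leaf K2_ok TF_l15971 _))))
               (CovZ.n1 (17720, 19160) (by decide +kernel)
                (CovZ.badM (by decide +kernel))
                (CovZ.n1 (17720, 19120) (by decide +kernel)
                 (CovZ.n2 (17700, 19140) (by decide +kernel)
                  (CovZ.n2 (17720, 19140) (by decide +kernel)
                   (CovZ.leaf K2_ok TF_l14197 _)
                   (CovZ.badM (by decide +kernel)))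
                  (CovZ.leaf K2_ok TF_l14198 _))
                 (CovZ.badM (by decide +kernel)))))))))
          (CovZ.n1 (17440, 19040) (by decide +kernel)
           (CovZ.subM 2475882439754002534376669192 (by decide +kernel)
            (CovZ.n2 (17440, 19200) (by decide +kernel)
             (CovZ.n2 (17520, 19120) (by decide +kernel)
              (CovZ.leaf K2_ok TF_l5739 _)
              (CovZ.n1 (17520, 19200) (by decide +kernel)
               (CovZ.leaf K2_ok TF_l5740 _)
               (CovZ.leaf K2_ok TF_l5741 _)))
             (CovZ.leaf K2_ok TF_l5742 _)))
           (CovZ.n1 (17600, 19040) (by decide +kernel)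
            (CovZ.leaf K2_ok TF_l5743 _)
            (CovZ.n1 (17520, 19120) (by decide +kernel)
             (CovZ.n2 (17600, 19120) (by decide +kernel)
              (CovZ.leaf K2_ok TF_l5744 _)
              (CovZ.leaf K2_ok TF_l5745 _))
             (CovZ.leaf K2_ok TF_l5746 _)))))))
       (CovZ.n1 (16960, 18880) (by decide +kernel)
        (CovZ.n2 (16960, 19200) (by decide +kernel)
         (CovZ.n2 (17120, 19040) (by decide +kernel)
          (CovZ.leaf K2_ok TF_l5747 _)
          (CovZ.leaf K2_ok TF_l5748 _))
         (CovZ.leaf K2_ok TF_l5749 _))
        (CovZ.n1 (17280, 18880) (by decide +kernel)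
         (CovZ.leaf K2_ok TF_l5750 _)
         (CovZ.n1 (17120, 19040) (by decide +kernel)
          (CovZ.leaf K2_ok TF_l5751 _)
          (CovZ.leaf K2_ok TF_l5752 _)))))
      (CovZ.subM 14272476927059598813058743314840574066933368840 (by decide +kernel)
       (CovZ.n1 (17920, 18560) (by decide +kernel)
        (CovZ.n2 (17600, 18240) (by decide +kernel)
         (CovZ.n2 (17600, 18560) (by decide +kernel)
          (CovZ.n2 (17760, 18400) (by decide +kernel)
           (CovZ.leaf K2_ok TF_l5753 _)
           (CovZ.leaf K2_ok TF_l5754 _))
          (CovZ.leaf K2_ok TF_l5755 _))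
         (CovZ.n1 (17920, 18240) (by decide +kernel)
          (CovZ.leaf K2_ok TF_l5756 _)
          (CovZ.n1 (17760, 18400) (by decide +kernel)
           (CovZ.leaf K2_ok TF_l5757 _)
           (CovZ.leaf K2_ok TF_l5758 _))))
        (CovZ.n1 (17600, 18880) (by decide +kernel)
         (CovZ.n2 (17920, 18880) (by decide +kernel)
          (CovZ.n2 (17760, 18720) (by decide +kernel)
           (CovZ.n2 (17760, 18880) (by decide +kernel)
            (CovZ.n2 (17840, 18800) (by decide +kernel)
             (CovZ.leaf K2_ok TF_l5759 _)
             (CovZ.n1 (17840, 18880) (by decide +kernel)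
              (CovZ.leaf K2_ok TF_l5760 _)
              (CovZ.leaf K2_ok TF_l5761 _)))
            (CovZ.leaf K2_ok TF_l5762 _))
           (CovZ.subM 2475882439754001985694597120 (by decide +kernel)
            (CovZ.n1 (17920, 18720) (by decide +kernel)
             (CovZ.leaf K2_ok TF_l5763 _)
             (CovZ.n1 (17840, 18800) (by decide +kernel)
              (CovZ.n2 (17920, 18800) (by decide +kernel)
               (CovZ.leaf K2_ok TF_l5764 _)
               (CovZ.leaf K2_ok TF_l5765 _))
              (CovZ.leaf K2_ok TF_l5766 _)))))
          (CovZ.subM 11417981541647679050942170195349963076756570112 (by decide +kernel)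
           (CovZ.n1 (17760, 19040) (by decide +kernel)
            (CovZ.badM (by decide +kernel))
            (CovZ.n1 (17760, 18880) (by decide +kernel)
             (CovZ.n2 (17680, 18960) (by decide +kernel)
              (CovZ.n2 (17760, 18960) (by decide +kernel)
               (CovZ.leaf K2_ok TF_l5767 _)
               (CovZ.leaf K2_ok TF_l5768 _))
              (CovZ.leaf K2_ok TF_l5769 _))
             (CovZ.n1 (17840, 18960) (by decide +kernel)
              (CovZ.n2 (17840, 18880) (by decide +kernel)
               (CovZ.leaf K2_ok TF_l5770 _)
               (CovZ.leaf K2_ok TF_l5771 _))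
              (CovZ.n1 (17760, 18960) (by decide +kernel)
               (CovZ.badM (by decide +kernel))
               (CovZ.leaf K2_ok TF_l5772 _)))))))
         (CovZ.n1 (17600, 18560) (by decide +kernel)
          (CovZ.n2 (17440, 18720) (by decide +kernel)
           (CovZ.leaf K2_ok TF_l5773 _)
           (CovZ.leaf K2_ok TF_l5774 _))
          (CovZ.leaf K2_ok TF_l5775 _))))))

theorem TF_u118 : CovZ TF_M (toL (selN TF_LN 288304033929262351967819481194951254922737223753)) [0, 7, 4, 3] (17920, 19200) (17920, 20480) (16640, 19200) :=
    (CovZ.n1 (17280, 19840) (by decide +kernel)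
      (CovZ.subM 11417981541647679048466287755595961640817788936 (by decide +kernel)
       (CovZ.n2 (17920, 19840) (by decide +kernel)
        (CovZ.n2 (17600, 19520) (by decide +kernel)
         (CovZ.n2 (17600, 19840) (by decide +kernel)
          (CovZ.badM (by decide +kernel))
          (CovZ.n1 (17440, 19680) (by decide +kernel)
           (CovZ.badM (by decide +kernel))
           (CovZ.badM (by decide +kernel))))
         (CovZ.n1 (17920, 19520) (by decide +kernel)
          (CovZ.n2 (17760, 19360) (by decide +kernel)
           (CovZ.badM (by decide +kernel))
           (CovZ.n1 (17920, 19360) (by decide +kernel)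
            (CovZ.n2 (17840, 19280) (by decide +kernel)
             (CovZ.badM (by decide +kernel))
             (CovZ.badM (by decide +kernel)))
            (CovZ.badM (by decide +kernel))))
          (CovZ.badM (by decide +kernel))))
        (CovZ.badM (by decide +kernel))))
      (CovZ.n1 (17280, 19200) (by decide +kernel)
       (CovZ.subM 276886052384956216927783360512956058992629514248 (by decide +kernel)
        (CovZ.n2 (16960, 19520) (by decide +kernel)
         (CovZ.subM 2475882439754002534376669192 (by decide +kernel)
          (CovZ.n2 (17280, 19520) (by decide +kernel)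
           (CovZ.n2 (17120, 19360) (by decide +kernel)
            (CovZ.n2 (17120, 19520) (by decide +kernel)
             (CovZ.n2 (17200, 19440) (by decide +kernel)
              (CovZ.leaf K2_ok TF_l5776 _)
              (CovZ.n1 (17200, 19520) (by decide +kernel)
               (CovZ.leaf K2_ok TF_l14199 _)
               (CovZ.leaf K2_ok TF_l14200 _)))
             (CovZ.leaf K2_ok TF_l5777 _))
            (CovZ.n1 (17280, 19360) (by decide +kernel)
             (CovZ.leaf K2_ok TF_l5778 _)
             (CovZ.n1 (17200, 19440) (by decide +kernel)
              (CovZ.n2 (17280, 19440) (by decide +kernel)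
               (CovZ.leaf K2_ok TF_l5779 _)
               (CovZ.leaf K2_ok TF_l14201 _))
              (CovZ.leaf K2_ok TF_l5780 _))))
           (CovZ.n1 (17120, 19680) (by decide +kernel)
            (CovZ.badM (by decide +kernel))
            (CovZ.n1 (17120, 19520) (by decide +kernel)
             (CovZ.n2 (17040, 19600) (by decide +kernel)
              (CovZ.n2 (17120, 19600) (by decide +kernel)
               (CovZ.leaf K2_ok TF_l14202 _)
               (CovZ.leaf K2_ok TF_l14203 _))
              (CovZ.leaf K2_ok TF_l5781 _))
             (CovZ.n1 (17200, 19600) (by decide +kernel)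
              (CovZ.leaf K2_ok TF_l14204 _)
              (CovZ.leaf K2_ok TF_l14205 _))))))
         (CovZ.n1 (16960, 19200) (by decide +kernel)
          (CovZ.leaf K2_ok TF_l5782 _)
          (CovZ.leaf K2_ok TF_l5783 _))))
       (CovZ.subM 11417981541647679050942170195349963625438644232 (by decide +kernel)
        (CovZ.n1 (17600, 19520) (by decide +kernel)
         (CovZ.n2 (17600, 19200) (by decide +kernel)
          (CovZ.n2 (17440, 19360) (by decide +kernel)
           (CovZ.subM 549755813888 (by decide +kernel)
            (CovZ.n2 (17600, 19360) (by decide +kernel)
             (CovZ.n2 (17520, 19280) (by decide +kernel)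
              (CovZ.badM (by decide +kernel))
              (CovZ.n1 (17600, 19280) (by decide +kernel)
               (CovZ.n2 (17560, 19240) (by decide +kernel)
                (CovZ.n2 (17560, 19280) (by decide +kernel)
                 (CovZ.n2 (17580, 19260) (by decide +kernel)
                  (CovZ.leaf K2_ok TF_l14206 _)
                  (CovZ.leaf K2_ok TF_l14207 _))
                 (CovZ.leaf K2_ok TF_l14208 _))
                (CovZ.badM (by decide +kernel)))
               (CovZ.badM (by decide +kernel))))
             (CovZ.badM (by decide +kernel))))
           (CovZ.n1 (17440, 19200) (by decide +kernel)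
            (CovZ.n2 (17360, 19280) (by decide +kernel)
             (CovZ.n2 (17440, 19280) (by decide +kernel)
              (CovZ.leaf K2_ok TF_l5786 _)
              (CovZ.leaf K2_ok TF_l5787 _))
             (CovZ.leaf K2_ok TF_l5788 _))
            (CovZ.subM 2361183241984578420736 (by decide +kernel)
             (CovZ.n1 (17520, 19280) (by decide +kernel)
              (CovZ.n2 (17520, 19200) (by decide +kernel)
               (CovZ.leaf K2_ok TF_l5789 _)
               (CovZ.leaf K2_ok TF_l5790 _))
              (CovZ.n1 (17440, 19280) (by decide +kernel)
               (CovZ.badM (by decide +kernel))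
               (CovZ.leaf K2_ok TF_l5792 _))))))
          (CovZ.subM 11417981541647679048466287755595961640817788928 (by decide +kernel)
           (CovZ.n1 (17760, 19360) (by decide +kernel)
            (CovZ.n2 (17760, 19200) (by decide +kernel)
             (CovZ.badM (by decide +kernel))
             (CovZ.n1 (17840, 19280) (by decide +kernel)
              (CovZ.badM (by decide +kernel))
              (CovZ.badM (by decide +kernel))))
            (CovZ.n1 (17600, 19360) (by decide +kernel)
             (CovZ.badM (by decide +kernel))
             (CovZ.n1 (17680, 19280) (by decide +kernel)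
              (CovZ.n2 (17600, 19280) (by decide +kernel)
               (CovZ.badM (by decide +kernel))
               (CovZ.badM (by decide +kernel)))
              (CovZ.badM (by decide +kernel)))))))
         (CovZ.n1 (17280, 19520) (by decide +kernel)
          (CovZ.n2 (17440, 19680) (by decide +kernel)
           (CovZ.n2 (17440, 19520) (by decide +kernel)
            (CovZ.badM (by decide +kernel))
            (CovZ.badM (by decide +kernel)))
           (CovZ.badM (by decide +kernel)))
          (CovZ.n1 (17440, 19360) (by decide +kernel)
           (CovZ.n2 (17280, 19360) (by decide +kernel)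
            (CovZ.n2 (17360, 19440) (by decide +kernel)
             (CovZ.n2 (17360, 19360) (by decide +kernel)
              (CovZ.leaf K2_ok TF_l5793 _)
              (CovZ.leaf K2_ok TF_l5794 _))
             (CovZ.leaf K2_ok TF_l5795 _))
            (CovZ.n1 (17360, 19280) (by decide +kernel)
             (CovZ.leaf K2_ok TF_l5796 _)
             (CovZ.n1 (17360, 19360) (by decide +kernel)
              (CovZ.leaf K2_ok TF_l5797 _)
              (CovZ.leaf K2_ok TF_l5798 _))))
           (CovZ.subM 8 (by decide +kernel)
            (CovZ.n1 (17440, 19520) (by decide +kernel)
             (CovZ.badM (by decide +kernel))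
             (CovZ.n1 (17360, 19440) (by decide +kernel)
              (CovZ.n2 (17360, 19520) (by decide +kernel)
               (CovZ.n2 (17400, 19480) (by decide +kernel)
                (CovZ.n2 (17360, 19480) (by decide +kernel)
                 (CovZ.badM (by decide +kernel))
                 (CovZ.leaf K2_ok TF_l14209 _))
                (CovZ.badM (by decide +kernel)))
               (CovZ.n1 (17320, 19480) (by decide +kernel)
                (CovZ.badM (by decide +kernel))
                (CovZ.n1 (17360, 19480) (by decide +kernel)
                 (CovZ.leaf K2_ok TF_l14210 _)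
                 (CovZ.badM (by decide +kernel)))))
              (CovZ.n1 (17440, 19440) (by decide +kernel)
               (CovZ.n2 (17400, 19400) (by decide +kernel)
                (CovZ.n2 (17400, 19440) (by decide +kernel)
                 (CovZ.badM (by decide +kernel))
                 (CovZ.leaf K2_ok TF_l14211 _))
                (CovZ.badM (by decide +kernel)))
               (CovZ.n1 (17400, 19480) (by decide +kernel)
                (CovZ.badM (by decide +kernel))
                (CovZ.n1 (17400, 19440) (by decide +kernel)
                 (CovZ.leaf K2_ok TF_l14212 _)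
                 (CovZ.badM (by decide +kernel))))))))))))))

end Pool.Agent.TET
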