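import Pool.Agent.Helper38_TET.TF_M
import Pool.Agent.Helper38_TET.TF_L
import Pool.Agent.Helper38_TET.TF_0
import Pool.Agent.Helper38_TET.TF_2
import Pool.Agent.Helper38_TET.TF_4
import Pool.Agent.Helper38_TET.TF_5
import Pool.Agent.Helper38_TET.TF_11
import Pool.Agent.Helper38_TET.TF_22
import Pool.Agent.Helper38_TET.TF_28
import Pool.Agent.Helper38_TET.TF_30
import Pool.Agent.Helper38_TET.TF_31
import Pool.Agent.Helper38_TET.TF_32
import Pool.Agent.Helper38_TET.TF_33
import Pool.Agent.Helper38_TET.TF_35
import Pool.Agent.Helper38_TET.TF_38
import Pool.Agent.Helper38_TET.TF_41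
import Pool.Agent.Helper38_TET.TF_44
import Pool.Agent.Helper38_TET.TF_47
import Pool.Agent.Helper38_TET.TF_57
import Pool.Agent.Helper38_TET.TF_59
import Pool.Agent.Helper38_TET.TF_63
import Pool.Agent.Helper38_TET.TF_98
import Pool.Agent.Helper38_TET.TF_99
import Pool.Agent.Helper38_TET.TF_102
import Pool.Agent.Helper38_TET.TF_103
import Pool.Agent.Helper38_TET.TF_108
import Pool.Agent.Helper38_TET.TF_U6
import Pool.Agent.Helper38_TET.TF_U7

/-!
# MP_c7c9bf_co: certificates, family TF
-/

set_option autoImplicit false
set_option maxRecDepth 100000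

namespace Pool.Agent.TET

theorem TF_s0_7 : SqZ TF_M TF_L [0, 7, 4, 3] (-7680) (-7680) 2560 0 7 :=
  SqZ.mk (a := (-7680)) (b := (-5120)) (c := 10240) (d := 12800) (by norm_num) (by norm_num) (by norm_num) (by norm_num)
    (CovZ.topM TF_LL 3245205343624895833916233469657096 (by decide +kernel) (CovZ.n2 (-6400, 11520) (by decide +kernel)
    (CovZ.n2 (-5120, 11520) (by decide +kernel)
     (CovZ.badM (by decide +kernel))
     (CovZ.n1 (-5760, 12160) (by decide +kernel)
      (CovZ.n2 (-5120, 12160) (by decide +kernel)
       (CovZ.n2 (-5440, 11840) (by decide +kernel)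
        (CovZ.badM (by decide +kernel))
        (CovZ.n1 (-5120, 11840) (by decide +kernel)
         (CovZ.badM (by decide +kernel))
         (CovZ.badM (by decide +kernel))))
       (CovZ.n1 (-5440, 12480) (by decide +kernel)
        (CovZ.n2 (-5120, 12480) (by decide +kernel)
         (CovZ.n2 (-5280, 12320) (by decide +kernel)
          (CovZ.n2 (-5280, 12480) (by decide +kernel)
           (CovZ.leaf K2_ok TF_l8453 _)
           (CovZ.n1 (-5360, 12400) (by decide +kernel)
            (CovZ.leaf K2_ok TF_l8454 _)
            (CovZ.leaf K2_ok TF_l8455 _)))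
          (CovZ.n1 (-5120, 12320) (by decide +kernel)
           (CovZ.n2 (-5200, 12240) (by decide +kernel)
            (CovZ.leaf K2_ok TF_l8456 _)
            (CovZ.leaf K2_ok TF_l8457 _))
           (CovZ.leaf K2_ok TF_l8458 _)))
         (CovZ.n1 (-5280, 12640) (by decide +kernel)
          (CovZ.n2 (-5120, 12640) (by decide +kernel)
           (CovZ.leaf K2_ok TF_l8459 _)
           (CovZ.leaf K2_ok TF_l0 _))
          (CovZ.n1 (-5280, 12480) (by decide +kernel)
           (CovZ.leaf K2_ok TF_l8460 _)
           (CovZ.leaf K2_ok TF_l8461 _))))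
        (CovZ.n1 (-5440, 12160) (by decide +kernel)
         (CovZ.n2 (-5600, 12320) (by decide +kernel)
          (CovZ.n2 (-5440, 12320) (by decide +kernel)
           (CovZ.badM (by decide +kernel))
           (CovZ.n1 (-5520, 12400) (by decide +kernel)
            (CovZ.n2 (-5440, 12400) (by decide +kernel)
             (CovZ.n2 (-5480, 12360) (by decide +kernel)
              (CovZ.leaf K2_ok TF_l8462 _)
              (CovZ.leaf K2_ok TF_l8463 _))
             (CovZ.leaf K2_ok TF_l8464 _))
            (CovZ.n1 (-5520, 12320) (by decide +kernel)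
             (CovZ.n2 (-5560, 12360) (by decide +kernel)
              (CovZ.n2 (-5520, 12360) (by decide +kernel)
               (CovZ.badM (by decide +kernel))
               (CovZ.leaf K2_ok TF_l8465 _))
              (CovZ.badM (by decide +kernel)))
             (CovZ.leaf K2_ok TF_l8466 _))))
          (CovZ.badM (by decide +kernel)))
         (CovZ.n1 (-5280, 12320) (by decide +kernel)
          (CovZ.badM (by decide +kernel))
          (CovZ.n1 (-5440, 12320) (by decide +kernel)
           (CovZ.leaf K2_ok TF_l8467 _)
           (CovZ.badM (by decide +kernel)))))))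
      (CovZ.badM (by decide +kernel))))
    (CovZ.badM (by decide +kernel))))
    (CovZ.topM TF_LL 3245205343625486129726592175308808 (by decide +kernel) (CovZ.n0 (-6400, 11520) (by decide +kernel)
    (CovZ.n2 (-7680, 11520) (by decide +kernel)
     (CovZ.n2 (-7040, 12160) (by decide +kernel)
      (CovZ.badM (by decide +kernel))
      (CovZ.badM (by decide +kernel)))
     (CovZ.badM (by decide +kernel)))
    (CovZ.n1 (-6400, 12800) (by decide +kernel)
     (CovZ.n2 (-5760, 12160) (by decide +kernel)
      (CovZ.badM (by decide +kernel))
      (CovZ.n1 (-5760, 12800) (by decide +kernel)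
       (CovZ.n2 (-5440, 12480) (by decide +kernel)
        (CovZ.subM 2596168236308042380349646550597632 (by decide +kernel)
         (CovZ.n2 (-5760, 12480) (by decide +kernel)
          (CovZ.n2 (-5600, 12640) (by decide +kernel)
           (CovZ.n2 (-5600, 12480) (by decide +kernel)
            (CovZ.n2 (-5680, 12560) (by decide +kernel)
             (CovZ.n2 (-5600, 12560) (by decide +kernel)
              (CovZ.n2 (-5640, 12520) (by decide +kernel)
               (CovZ.n2 (-5640, 12560) (by decide +kernel)
                (CovZ.leaf K2_ok TF_l8468 _)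
                (CovZ.badM (by decide +kernel)))
               (CovZ.n1 (-5600, 12520) (by decide +kernel)
                (CovZ.leaf K2_ok TF_l8469 _)
                (CovZ.leaf K2_ok TF_l8470 _)))
              (CovZ.n1 (-5640, 12600) (by decide +kernel)
               (CovZ.leaf K2_ok TF_l8471 _)
               (CovZ.leaf K2_ok TF_l8472 _)))
             (CovZ.n1 (-5680, 12480) (by decide +kernel)
              (CovZ.badM (by decide +kernel))
              (CovZ.n1 (-5640, 12520) (by decide +kernel)
               (CovZ.n2 (-5640, 12480) (by decide +kernel)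
                (CovZ.n2 (-5660, 12500) (by decide +kernel)
                 (CovZ.leaf K2_ok TF_l8473 _)
                 (CovZ.leaf K2_ok TF_l8474 _))
                (CovZ.leaf K2_ok TF_l8475 _))
               (CovZ.badM (by decide +kernel)))))
            (CovZ.n1 (-5520, 12560) (by decide +kernel)
             (CovZ.n2 (-5520, 12480) (by decide +kernel)
              (CovZ.n2 (-5560, 12520) (by decide +kernel)
               (CovZ.leaf K2_ok TF_l8476 _)
               (CovZ.leaf K2_ok TF_l8477 _))
              (CovZ.leaf K2_ok TF_l8478 _))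
             (CovZ.n1 (-5600, 12560) (by decide +kernel)
              (CovZ.leaf K2_ok TF_l8479 _)
              (CovZ.n1 (-5560, 12520) (by decide +kernel)
               (CovZ.leaf K2_ok TF_l8480 _)
               (CovZ.leaf K2_ok TF_l8481 _)))))
           (CovZ.n1 (-5760, 12640) (by decide +kernel)
            (CovZ.n2 (-5680, 12720) (by decide +kernel)
             (CovZ.n2 (-5680, 12640) (by decide +kernel)
              (CovZ.badM (by decide +kernel))
              (CovZ.leaf K2_ok TF_l8482 _))
             (CovZ.badM (by decide +kernel)))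
            (CovZ.n1 (-5680, 12560) (by decide +kernel)
             (CovZ.badM (by decide +kernel))
             (CovZ.n1 (-5680, 12640) (by decide +kernel)
              (CovZ.n2 (-5640, 12600) (by decide +kernel)
               (CovZ.badM (by decide +kernel))
               (CovZ.n1 (-5640, 12640) (by decide +kernel)
                (CovZ.leaf K2_ok TF_l8483 _)
                (CovZ.badM (by decide +kernel))))
              (CovZ.badM (by decide +kernel))))))
          (CovZ.n1 (-5600, 12320) (by decide +kernel)
           (CovZ.n2 (-5760, 12320) (by decide +kernel)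
            (CovZ.n2 (-5680, 12400) (by decide +kernel)
             (CovZ.n2 (-5680, 12320) (by decide +kernel)
              (CovZ.badM (by decide +kernel))
              (CovZ.n1 (-5640, 12360) (by decide +kernel)
               (CovZ.badM (by decide +kernel))
               (CovZ.badM (by decide +kernel))))
             (CovZ.badM (by decide +kernel)))
            (CovZ.badM (by decide +kernel)))
           (CovZ.n1 (-5600, 12480) (by decide +kernel)
            (CovZ.n2 (-5520, 12400) (by decide +kernel)
             (CovZ.n2 (-5600, 12400) (by decide +kernel)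
              (CovZ.n2 (-5560, 12440) (by decide +kernel)
               (CovZ.leaf K2_ok TF_l8484 _)
               (CovZ.leaf K2_ok TF_l8485 _))
              (CovZ.n1 (-5560, 12360) (by decide +kernel)
               (CovZ.n2 (-5600, 12360) (by decide +kernel)
                (CovZ.leaf K2_ok TF_l8486 _)
                (CovZ.badM (by decide +kernel)))
               (CovZ.n1 (-5560, 12400) (by decide +kernel)
                (CovZ.leaf K2_ok TF_l8487 _)
                (CovZ.leaf K2_ok TF_l8488 _))))
             (CovZ.n1 (-5520, 12480) (by decide +kernel)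
              (CovZ.leaf K2_ok TF_l8489 _)
              (CovZ.n1 (-5560, 12440) (by decide +kernel)
               (CovZ.leaf K2_ok TF_l8490 _)
               (CovZ.leaf K2_ok TF_l8491 _))))
            (CovZ.n1 (-5680, 12400) (by decide +kernel)
             (CovZ.n2 (-5680, 12480) (by decide +kernel)
              (CovZ.n2 (-5640, 12440) (by decide +kernel)
               (CovZ.n2 (-5680, 12440) (by decide +kernel)
                (CovZ.n2 (-5660, 12460) (by decide +kernel)
                 (CovZ.n2 (-5660, 12440) (by decide +kernel)
                  (CovZ.badM (by decide +kernel))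
                  (CovZ.leaf K2_ok TF_l8492 _))
                 (CovZ.badM (by decide +kernel)))
                (CovZ.n1 (-5660, 12420) (by decide +kernel)
                 (CovZ.badM (by decide +kernel))
                 (CovZ.n1 (-5660, 12440) (by decide +kernel)
                  (CovZ.badM (by decide +kernel))
                  (CovZ.badM (by decide +kernel)))))
               (CovZ.n1 (-5640, 12480) (by decide +kernel)
                (CovZ.leaf K2_ok TF_l8493 _)
                (CovZ.n1 (-5660, 12460) (by decide +kernel)
                 (CovZ.n2 (-5660, 12480) (by decide +kernel)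
                  (CovZ.leaf K2_ok TF_l8494 _)
                  (CovZ.badM (by decide +kernel)))
                 (CovZ.leaf K2_ok TF_l8495 _))))
              (CovZ.badM (by decide +kernel)))
             (CovZ.n1 (-5600, 12400) (by decide +kernel)
              (CovZ.n2 (-5640, 12360) (by decide +kernel)
               (CovZ.n2 (-5640, 12400) (by decide +kernel)
                (CovZ.n2 (-5620, 12380) (by decide +kernel)
                 (CovZ.n2 (-5640, 12380) (by decide +kernel)
                  (CovZ.leaf K2_ok TF_l8496 _)
                  (CovZ.badM (by decide +kernel)))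
                 (CovZ.n1 (-5620, 12400) (by decide +kernel)
                  (CovZ.leaf K2_ok TF_l8497 _)
                  (CovZ.leaf K2_ok TF_l8498 _)))
                (CovZ.badM (by decide +kernel)))
               (CovZ.n1 (-5600, 12360) (by decide +kernel)
                (CovZ.badM (by decide +kernel))
                (CovZ.n1 (-5620, 12380) (by decide +kernel)
                 (CovZ.n2 (-5600, 12380) (by decide +kernel)
                  (CovZ.badM (by decide +kernel))
                  (CovZ.leaf K2_ok TF_l8499 _))
                 (CovZ.badM (by decide +kernel)))))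
              (CovZ.n1 (-5640, 12440) (by decide +kernel)
               (CovZ.n2 (-5600, 12440) (by decide +kernel)
                (CovZ.n2 (-5620, 12420) (by decide +kernel)
                 (CovZ.leaf K2_ok TF_l8500 _)
                 (CovZ.leaf K2_ok TF_l8501 _))
                (CovZ.leaf K2_ok TF_l8502 _))
               (CovZ.n1 (-5640, 12400) (by decide +kernel)
                (CovZ.badM (by decide +kernel))
                (CovZ.n1 (-5620, 12420) (by decide +kernel)
                 (CovZ.leaf K2_ok TF_l8503 _)
                 (CovZ.leaf K2_ok TF_l8504 _))))))))))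
        (CovZ.n1 (-5440, 12800) (by decide +kernel)
         (CovZ.n2 (-5280, 12640) (by decide +kernel)
          (CovZ.n2 (-5440, 12640) (by decide +kernel)
           (CovZ.leaf K2_ok TF_l8505 _)
           (CovZ.n1 (-5360, 12560) (by decide +kernel)
            (CovZ.leaf K2_ok TF_l8506 _)
            (CovZ.leaf K2_ok TF_l8507 _)))
          (CovZ.n1 (-5280, 12800) (by decide +kernel)
           (CovZ.leaf K2_ok TF_l1 _)
           (CovZ.leaf K2_ok TF_l8508 _)))
         (CovZ.subM 2596168236308042380349921428504576 (by decide +kernel)
          (CovZ.n1 (-5600, 12640) (by decide +kernel)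
           (CovZ.n2 (-5600, 12800) (by decide +kernel)
            (CovZ.n2 (-5520, 12720) (by decide +kernel)
             (CovZ.n2 (-5600, 12720) (by decide +kernel)
              (CovZ.leaf K2_ok TF_l8509 _)
              (CovZ.leaf K2_ok TF_l8510 _))
             (CovZ.n1 (-5520, 12800) (by decide +kernel)
              (CovZ.leaf K2_ok TF_l8511 _)
              (CovZ.leaf K2_ok TF_l8512 _)))
            (CovZ.n1 (-5680, 12720) (by decide +kernel)
             (CovZ.badM (by decide +kernel))
             (CovZ.n1 (-5600, 12720) (by decide +kernel)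
              (CovZ.n2 (-5640, 12680) (by decide +kernel)
               (CovZ.badM (by decide +kernel))
               (CovZ.leaf K2_ok TF_l8513 _))
              (CovZ.badM (by decide +kernel)))))
           (CovZ.n1 (-5440, 12640) (by decide +kernel)
            (CovZ.n2 (-5520, 12560) (by decide +kernel)
             (CovZ.n2 (-5520, 12640) (by decide +kernel)
              (CovZ.leaf K2_ok TF_l8514 _)
              (CovZ.leaf K2_ok TF_l8515 _))
             (CovZ.n1 (-5440, 12560) (by decide +kernel)
              (CovZ.leaf K2_ok TF_l8516 _)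
              (CovZ.leaf K2_ok TF_l8517 _)))
            (CovZ.n1 (-5520, 12720) (by decide +kernel)
             (CovZ.leaf K2_ok TF_l8518 _)
             (CovZ.leaf K2_ok TF_l8519 _)))))))
       (CovZ.badM (by decide +kernel))))
     (CovZ.n1 (-7040, 12160) (by decide +kernel)
      (CovZ.badM (by decide +kernel))
      (CovZ.badM (by decide +kernel))))))

theorem TF_s1_7 : SqZ TF_M TF_L [0, 7, 4, 3] (-7680) (-7680) 2560 1 7 :=
  SqZ.mk (a := (-5120)) (b := (-2560)) (c := 10240) (d := 12800) (by norm_num) (by norm_num) (by norm_num) (by norm_num)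
    (CovZ.topM TF_LL 332956055860586459779723161518481416 (by decide +kernel) (CovZ.n2 (-3840, 11520) (by decide +kernel)
    (CovZ.n2 (-2560, 11520) (by decide +kernel)
     (CovZ.subM 332306998946228968518686015727083528 (by decide +kernel)
      (CovZ.n2 (-3200, 10880) (by decide +kernel)
       (CovZ.n2 (-3200, 11520) (by decide +kernel)
        (CovZ.n2 (-2880, 11200) (by decide +kernel)
         (CovZ.leaf K2_ok TF_l607 _)
         (CovZ.leaf K2_ok TF_l608 _))
        (CovZ.subM 332306998946228968225952039947993096 (by decide +kernel)
         (CovZ.n1 (-3520, 11200) (by decide +kernel)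
          (CovZ.n2 (-3520, 11520) (by decide +kernel)
           (CovZ.leaf K2_ok TF_l609 _)
           (CovZ.leaf K2_ok TF_l610 _))
          (CovZ.n1 (-3200, 11200) (by decide +kernel)
           (CovZ.n2 (-3360, 11040) (by decide +kernel)
            (CovZ.leaf K2_ok TF_l611 _)
            (CovZ.leaf K2_ok TF_l612 _))
           (CovZ.leaf K2_ok TF_l613 _)))))
       (CovZ.n1 (-2560, 10880) (by decide +kernel)
        (CovZ.subM 4503874505277448 (by decide +kernel)
         (CovZ.n2 (-2880, 10560) (by decide +kernel)
          (CovZ.n2 (-2880, 10880) (by decide +kernel)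
           (CovZ.leaf K2_ok TF_l614 _)
           (CovZ.leaf K2_ok TF_l615 _))
          (CovZ.n1 (-2560, 10560) (by decide +kernel)
           (CovZ.leaf K2_ok TF_l616 _)
           (CovZ.leaf K2_ok TF_l617 _))))
        (CovZ.n1 (-2880, 11200) (by decide +kernel)
         (CovZ.leaf K2_ok TF_l618 _)
         (CovZ.leaf K2_ok TF_l619 _)))))
     (CovZ.n1 (-3200, 12160) (by decide +kernel)
      (CovZ.n2 (-2560, 12160) (by decide +kernel)
       (CovZ.leaf K2_ok TF_l620 _)
       (CovZ.leaf K2_ok TF_l621 _))
      (CovZ.n1 (-3200, 11520) (by decide +kernel)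
       (CovZ.n2 (-3520, 11840) (by decide +kernel)
        (CovZ.leaf K2_ok TF_l622 _)
        (CovZ.leaf K2_ok TF_l623 _))
       (CovZ.leaf K2_ok TF_l624 _))))
    (CovZ.subM 332306998946228968230455639575363592 (by decide +kernel)
     (CovZ.n1 (-3840, 10240) (by decide +kernel)
      (CovZ.n2 (-4480, 10880) (by decide +kernel)
       (CovZ.n2 (-3840, 10880) (by decide +kernel)
        (CovZ.badM (by decide +kernel))
        (CovZ.n1 (-4160, 11200) (by decide +kernel)
         (CovZ.n2 (-3840, 11200) (by decide +kernel)
          (CovZ.n2 (-4000, 11040) (by decide +kernel)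
           (CovZ.n2 (-4000, 11200) (by decide +kernel)
            (CovZ.n2 (-3920, 11120) (by decide +kernel)
             (CovZ.leaf K2_ok TF_l9414 _)
             (CovZ.leaf K2_ok TF_l9415 _))
            (CovZ.n1 (-4080, 11120) (by decide +kernel)
             (CovZ.n2 (-4080, 11200) (by decide +kernel)
              (CovZ.leaf K2_ok TF_l9416 _)
              (CovZ.leaf K2_ok TF_l9417 _))
             (CovZ.n1 (-4000, 11120) (by decide +kernel)
              (CovZ.leaf K2_ok TF_l9418 _)
              (CovZ.leaf K2_ok TF_l9419 _))))
           (CovZ.n1 (-3840, 11040) (by decide +kernel)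
            (CovZ.n2 (-3920, 10960) (by decide +kernel)
             (CovZ.n2 (-3920, 11040) (by decide +kernel)
              (CovZ.leaf K2_ok TF_l9420 _)
              (CovZ.leaf K2_ok TF_l9421 _))
             (CovZ.n1 (-3840, 10960) (by decide +kernel)
              (CovZ.leaf K2_ok TF_l9422 _)
              (CovZ.leaf K2_ok TF_l9423 _)))
            (CovZ.n1 (-3920, 11120) (by decide +kernel)
             (CovZ.leaf K2_ok TF_l9424 _)
             (CovZ.leaf K2_ok TF_l9425 _))))
          (CovZ.n1 (-4000, 11360) (by decide +kernel)
           (CovZ.n2 (-3840, 11360) (by decide +kernel)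
            (CovZ.leaf K2_ok TF_l625 _)
            (CovZ.leaf K2_ok TF_l626 _))
           (CovZ.n1 (-4000, 11200) (by decide +kernel)
            (CovZ.n2 (-4080, 11280) (by decide +kernel)
             (CovZ.leaf K2_ok TF_l627 _)
             (CovZ.leaf K2_ok TF_l628 _))
            (CovZ.leaf K2_ok TF_l629 _))))
         (CovZ.badM (by decide +kernel))))
       (CovZ.badM (by decide +kernel)))
      (CovZ.n1 (-3200, 10880) (by decide +kernel)
       (CovZ.n2 (-3200, 10240) (by decide +kernel)
        (CovZ.n2 (-3520, 10560) (by decide +kernel)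
         (CovZ.n2 (-3200, 10560) (by decide +kernel)
          (CovZ.n2 (-3360, 10400) (by decide +kernel)
           (CovZ.n2 (-3360, 10560) (by decide +kernel)
            (CovZ.n2 (-3280, 10480) (by decide +kernel)
             (CovZ.leaf K2_ok TF_l630 _)
             (CovZ.leaf K2_ok TF_l631 _))
            (CovZ.n1 (-3440, 10480) (by decide +kernel)
             (CovZ.n2 (-3440, 10560) (by decide +kernel)
              (CovZ.leaf K2_ok TF_l632 _)
              (CovZ.leaf K2_ok TF_l9426 _))
             (CovZ.n1 (-3360, 10480) (by decide +kernel)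
              (CovZ.leaf K2_ok TF_l9427 _)
              (CovZ.leaf K2_ok TF_l633 _))))
           (CovZ.n1 (-3200, 10400) (by decide +kernel)
            (CovZ.n2 (-3280, 10320) (by decide +kernel)
             (CovZ.n2 (-3280, 10400) (by decide +kernel)
              (CovZ.leaf K2_ok TF_l634 _)
              (CovZ.leaf K2_ok TF_l635 _))
             (CovZ.leaf K2_ok TF_l636 _))
            (CovZ.n1 (-3280, 10480) (by decide +kernel)
             (CovZ.leaf K2_ok TF_l637 _)
             (CovZ.leaf K2_ok TF_l638 _))))
          (CovZ.n1 (-3360, 10720) (by decide +kernel)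
           (CovZ.n2 (-3200, 10720) (by decide +kernel)
            (CovZ.leaf K2_ok TF_l639 _)
            (CovZ.leaf K2_ok TF_l640 _))
           (CovZ.n1 (-3360, 10560) (by decide +kernel)
            (CovZ.n2 (-3440, 10640) (by decide +kernel)
             (CovZ.leaf K2_ok TF_l641 _)
             (CovZ.leaf K2_ok TF_l642 _))
            (CovZ.leaf K2_ok TF_l643 _))))
         (CovZ.badM (by decide +kernel)))
        (CovZ.n1 (-2880, 10560) (by decide +kernel)
         (CovZ.n2 (-2880, 10240) (by decide +kernel)
          (CovZ.n2 (-3040, 10400) (by decide +kernel)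
           (CovZ.leaf K2_ok TF_l644 _)
           (CovZ.n1 (-3040, 10240) (by decide +kernel)
            (CovZ.n2 (-3120, 10320) (by decide +kernel)
             (CovZ.leaf K2_ok TF_l645 _)
             (CovZ.leaf K2_ok TF_l646 _))
            (CovZ.leaf K2_ok TF_l647 _)))
          (CovZ.leaf K2_ok TF_l648 _))
         (CovZ.n1 (-3200, 10560) (by decide +kernel)
          (CovZ.leaf K2_ok TF_l649 _)
          (CovZ.n1 (-3040, 10400) (by decide +kernel)
           (CovZ.n2 (-3200, 10400) (by decide +kernel)
            (CovZ.leaf K2_ok TF_l650 _)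
            (CovZ.leaf K2_ok TF_l651 _))
           (CovZ.leaf K2_ok TF_l652 _)))))
       (CovZ.n1 (-3840, 10880) (by decide +kernel)
        (CovZ.n2 (-3520, 11200) (by decide +kernel)
         (CovZ.n2 (-3520, 10880) (by decide +kernel)
          (CovZ.n2 (-3680, 11040) (by decide +kernel)
           (CovZ.n2 (-3520, 11040) (by decide +kernel)
            (CovZ.leaf K2_ok TF_l653 _)
            (CovZ.leaf K2_ok TF_l654 _))
           (CovZ.n1 (-3680, 10880) (by decide +kernel)
            (CovZ.n2 (-3760, 10960) (by decide +kernel)
             (CovZ.leaf K2_ok TF_l9428 _)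
             (CovZ.leaf K2_ok TF_l9429 _))
            (CovZ.leaf K2_ok TF_l655 _)))
          (CovZ.leaf K2_ok TF_l656 _))
         (CovZ.n1 (-3840, 11200) (by decide +kernel)
          (CovZ.leaf K2_ok TF_l657 _)
          (CovZ.n1 (-3680, 11040) (by decide +kernel)
           (CovZ.n2 (-3840, 11040) (by decide +kernel)
            (CovZ.leaf K2_ok TF_l9430 _)
            (CovZ.n1 (-3760, 10960) (by decide +kernel)
             (CovZ.leaf K2_ok TF_l9431 _)
             (CovZ.leaf K2_ok TF_l9432 _)))
           (CovZ.n1 (-3680, 11200) (by decide +kernel)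
            (CovZ.leaf K2_ok TF_l658 _)
            (CovZ.leaf K2_ok TF_l659 _)))))
        (CovZ.n1 (-3520, 10560) (by decide +kernel)
         (CovZ.badM (by decide +kernel))
         (CovZ.n1 (-3520, 10880) (by decide +kernel)
          (CovZ.n2 (-3360, 10720) (by decide +kernel)
           (CovZ.n2 (-3520, 10720) (by decide +kernel)
            (CovZ.leaf K2_ok TF_l660 _)
            (CovZ.n1 (-3440, 10640) (by decide +kernel)
             (CovZ.leaf K2_ok TF_l9433 _)
             (CovZ.leaf K2_ok TF_l661 _)))
           (CovZ.n1 (-3360, 10880) (by decide +kernel)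
            (CovZ.leaf K2_ok TF_l662 _)
            (CovZ.leaf K2_ok TF_l663 _)))
          (CovZ.n1 (-3680, 10720) (by decide +kernel)
           (CovZ.n2 (-3680, 10880) (by decide +kernel)
            (CovZ.n2 (-3600, 10800) (by decide +kernel)
             (CovZ.leaf K2_ok TF_l9434 _)
             (CovZ.leaf K2_ok TF_l664 _))
            (CovZ.n1 (-3760, 10800) (by decide +kernel)
             (CovZ.n2 (-3760, 10880) (by decide +kernel)
              (CovZ.leaf K2_ok TF_l9435 _)
              (CovZ.leaf K2_ok TF_l9436 _))
             (CovZ.n1 (-3680, 10800) (by decide +kernel)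
              (CovZ.leaf K2_ok TF_l9437 _)
              (CovZ.leaf K2_ok TF_l9438 _))))
           (CovZ.n1 (-3520, 10720) (by decide +kernel)
            (CovZ.n2 (-3600, 10640) (by decide +kernel)
             (CovZ.n2 (-3600, 10720) (by decide +kernel)
              (CovZ.leaf K2_ok TF_l9439 _)
              (CovZ.leaf K2_ok TF_l9440 _))
             (CovZ.n1 (-3520, 10640) (by decide +kernel)
              (CovZ.leaf K2_ok TF_l9441 _)
              (CovZ.leaf K2_ok TF_l9442 _)))
            (CovZ.n1 (-3600, 10800) (by decide +kernel)
             (CovZ.leaf K2_ok TF_l665 _)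
             (CovZ.leaf K2_ok TF_l9443 _))))))))))))
    (CovZ.topM TF_LL 335552204289853873593988409683091464 (by decide +kernel) (CovZ.n0 (-3840, 11520) (by decide +kernel)
    (CovZ.subM 335552204289853864059867998539743240 (by decide +kernel)
     (CovZ.n2 (-5120, 11520) (by decide +kernel)
      (CovZ.n2 (-4480, 12160) (by decide +kernel)
       (CovZ.n2 (-4480, 11520) (by decide +kernel)
        (CovZ.n2 (-4800, 11840) (by decide +kernel)
         (CovZ.n2 (-4480, 11840) (by decide +kernel)
          (CovZ.subM 332306998946228968225951765070086152 (by decide +kernel)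
           (CovZ.n2 (-4640, 11680) (by decide +kernel)
            (CovZ.n2 (-4640, 11840) (by decide +kernel)
             (CovZ.leaf K2_ok TF_l666 _)
             (CovZ.n1 (-4720, 11760) (by decide +kernel)
              (CovZ.badM (by decide +kernel))
              (CovZ.leaf K2_ok TF_l668 _)))
            (CovZ.n1 (-4480, 11680) (by decide +kernel)
             (CovZ.n2 (-4560, 11600) (by decide +kernel)
              (CovZ.leaf K2_ok TF_l9444 _)
              (CovZ.leaf K2_ok TF_l9445 _))
             (CovZ.leaf K2_ok TF_l9446 _))))
          (CovZ.n1 (-4640, 12000) (by decide +kernel)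
           (CovZ.leaf K2_ok TF_l669 _)
           (CovZ.leaf K2_ok TF_l670 _)))
         (CovZ.subM 332306998946228968225951765070086152 (by decide +kernel)
          (CovZ.n1 (-4800, 11520) (by decide +kernel)
           (CovZ.n2 (-4960, 11680) (by decide +kernel)
            (CovZ.n2 (-4800, 11680) (by decide +kernel)
             (CovZ.badM (by decide +kernel))
             (CovZ.badM (by decide +kernel)))
            (CovZ.badM (by decide +kernel)))
           (CovZ.n1 (-4640, 11680) (by decide +kernel)
            (CovZ.n2 (-4640, 11520) (by decide +kernel)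
             (CovZ.badM (by decide +kernel))
             (CovZ.n1 (-4560, 11600) (by decide +kernel)
              (CovZ.n2 (-4560, 11520) (by decide +kernel)
               (CovZ.badM (by decide +kernel))
               (CovZ.leaf K2_ok TF_l9447 _))
              (CovZ.badM (by decide +kernel))))
            (CovZ.n1 (-4800, 11680) (by decide +kernel)
             (CovZ.n2 (-4720, 11760) (by decide +kernel)
              (CovZ.badM (by decide +kernel))
              (CovZ.badM (by decide +kernel)))
             (CovZ.badM (by decide +kernel)))))))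
        (CovZ.n1 (-4160, 11840) (by decide +kernel)
         (CovZ.subM 332306998946228968225952039947993096 (by decide +kernel)
          (CovZ.n2 (-4160, 11520) (by decide +kernel)
           (CovZ.n2 (-4320, 11680) (by decide +kernel)
            (CovZ.leaf K2_ok TF_l676 _)
            (CovZ.n1 (-4320, 11520) (by decide +kernel)
             (CovZ.n2 (-4400, 11600) (by decide +kernel)
              (CovZ.leaf K2_ok TF_l9448 _)
              (CovZ.leaf K2_ok TF_l9449 _))
             (CovZ.leaf K2_ok TF_l677 _)))
           (CovZ.leaf K2_ok TF_l678 _)))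
         (CovZ.n1 (-4480, 11840) (by decide +kernel)
          (CovZ.leaf K2_ok TF_l679 _)
          (CovZ.n1 (-4320, 11680) (by decide +kernel)
           (CovZ.n2 (-4480, 11680) (by decide +kernel)
            (CovZ.leaf K2_ok TF_l9450 _)
            (CovZ.leaf K2_ok TF_l9451 _))
           (CovZ.leaf K2_ok TF_l680 _)))))
       (CovZ.n1 (-5120, 12160) (by decide +kernel)
        (CovZ.n2 (-4800, 12480) (by decide +kernel)
         (CovZ.n2 (-4800, 12160) (by decide +kernel)
          (CovZ.n2 (-4960, 12320) (by decide +kernel)
           (CovZ.leaf K2_ok TF_l9452 _)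
           (CovZ.leaf K2_ok TF_l9453 _))
          (CovZ.leaf K2_ok TF_l681 _))
         (CovZ.n1 (-5120, 12480) (by decide +kernel)
          (CovZ.leaf K2_ok TF_l682 _)
          (CovZ.n1 (-4960, 12320) (by decide +kernel)
           (CovZ.leaf K2_ok TF_l9454 _)
           (CovZ.leaf K2_ok TF_l9455 _))))
        (CovZ.subM 649037107316853453566586919059464 (by decide +kernel)
         (CovZ.n1 (-4800, 11840) (by decide +kernel)
          (CovZ.n2 (-5120, 11840) (by decide +kernel)
           (CovZ.n2 (-4960, 12000) (by decide +kernel)
            (CovZ.n2 (-4960, 11840) (by decide +kernel)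
             (CovZ.n2 (-5040, 11920) (by decide +kernel)
              (CovZ.n2 (-4960, 11920) (by decide +kernel)
               (CovZ.n2 (-5000, 11880) (by decide +kernel)
                (CovZ.leaf K2_ok TF_l9456 _)
                (CovZ.leaf K2_ok TF_l9457 _))
               (CovZ.leaf K2_ok TF_l9458 _))
              (CovZ.n1 (-5040, 11840) (by decide +kernel)
               (CovZ.n2 (-5080, 11880) (by decide +kernel)
                (CovZ.n2 (-5040, 11880) (by decide +kernel)
                 (CovZ.n2 (-5060, 11860) (by decide +kernel)
                  (CovZ.leaf K2_ok TF_l9459 _)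
                  (CovZ.leaf K2_ok TF_l9460 _))
                 (CovZ.leaf K2_ok TF_l9461 _))
                (CovZ.n1 (-5080, 11840) (by decide +kernel)
                 (CovZ.badM (by decide +kernel))
                 (CovZ.n1 (-5060, 11860) (by decide +kernel)
                  (CovZ.leaf K2_ok TF_l9462 _)
                  (CovZ.leaf K2_ok TF_l9463 _))))
               (CovZ.leaf K2_ok TF_l9464 _)))
             (CovZ.n1 (-4880, 11920) (by decide +kernel)
              (CovZ.leaf K2_ok TF_l9465 _)
              (CovZ.leaf K2_ok TF_l9466 _)))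
            (CovZ.n1 (-5120, 12000) (by decide +kernel)
             (CovZ.leaf K2_ok TF_l9467 _)
             (CovZ.n1 (-5040, 11920) (by decide +kernel)
              (CovZ.n2 (-5120, 11920) (by decide +kernel)
               (CovZ.leaf K2_ok TF_l9468 _)
               (CovZ.n1 (-5080, 11880) (by decide +kernel)
                (CovZ.badM (by decide +kernel))
                (CovZ.n1 (-5080, 11920) (by decide +kernel)
                 (CovZ.leaf K2_ok TF_l9469 _)
                 (CovZ.badM (by decide +kernel)))))
              (CovZ.n1 (-5040, 12000) (by decide +kernel)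
               (CovZ.leaf K2_ok TF_l9470 _)
               (CovZ.n1 (-5080, 11960) (by decide +kernel)
                (CovZ.leaf K2_ok TF_l9471 _)
                (CovZ.leaf K2_ok TF_l9472 _))))))
           (CovZ.n1 (-4960, 11680) (by decide +kernel)
            (CovZ.n2 (-5120, 11680) (by decide +kernel)
             (CovZ.n2 (-5040, 11760) (by decide +kernel)
              (CovZ.badM (by decide +kernel))
              (CovZ.n1 (-5120, 11760) (by decide +kernel)
               (CovZ.n2 (-5080, 11800) (by decide +kernel)
                (CovZ.badM (by decide +kernel))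
                (CovZ.badM (by decide +kernel)))
               (CovZ.badM (by decide +kernel))))
             (CovZ.badM (by decide +kernel)))
            (CovZ.n1 (-4960, 11840) (by decide +kernel)
             (CovZ.badM (by decide +kernel))
             (CovZ.n1 (-5040, 11760) (by decide +kernel)
              (CovZ.n2 (-5040, 11840) (by decide +kernel)
               (CovZ.n2 (-5000, 11800) (by decide +kernel)
                (CovZ.n2 (-5040, 11800) (by decide +kernel)
                 (CovZ.n2 (-5020, 11820) (by decide +kernel)
                  (CovZ.badM (by decide +kernel))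
                  (CovZ.leaf K2_ok TF_l9473 _))
                 (CovZ.badM (by decide +kernel)))
                (CovZ.n1 (-5000, 11840) (by decide +kernel)
                 (CovZ.badM (by decide +kernel))
                 (CovZ.n1 (-5020, 11820) (by decide +kernel)
                  (CovZ.leaf K2_ok TF_l9474 _)
                  (CovZ.badM (by decide +kernel)))))
               (CovZ.n1 (-5080, 11800) (by decide +kernel)
                (CovZ.n2 (-5080, 11840) (by decide +kernel)
                 (CovZ.n2 (-5060, 11820) (by decide +kernel)
                  (CovZ.badM (by decide +kernel))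
                  (CovZ.n1 (-5060, 11840) (by decide +kernel)
                   (CovZ.leaf K2_ok TF_l9475 _)
                   (CovZ.badM (by decide +kernel))))
                 (CovZ.badM (by decide +kernel)))
                (CovZ.n1 (-5040, 11800) (by decide +kernel)
                 (CovZ.badM (by decide +kernel))
                 (CovZ.n1 (-5060, 11820) (by decide +kernel)
                  (CovZ.n2 (-5040, 11820) (by decide +kernel)
                   (CovZ.badM (by decide +kernel))
                   (CovZ.leaf K2_ok TF_l9476 _))
                  (CovZ.badM (by decide +kernel))))))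
              (CovZ.badM (by decide +kernel))))))
          (CovZ.n1 (-4800, 12160) (by decide +kernel)
           (CovZ.n2 (-4640, 12000) (by decide +kernel)
            (CovZ.leaf K2_ok TF_l683 _)
            (CovZ.leaf K2_ok TF_l684 _))
           (CovZ.n1 (-4960, 12000) (by decide +kernel)
            (CovZ.n2 (-4960, 12160) (by decide +kernel)
             (CovZ.leaf K2_ok TF_l9477 _)
             (CovZ.n1 (-5040, 12080) (by decide +kernel)
              (CovZ.leaf K2_ok TF_l9478 _)
              (CovZ.leaf K2_ok TF_l9479 _)))
            (CovZ.n1 (-4800, 12000) (by decide +kernel)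
             (CovZ.n2 (-4880, 11920) (by decide +kernel)
              (CovZ.leaf K2_ok TF_l9480 _)
              (CovZ.leaf K2_ok TF_l9481 _))
             (CovZ.leaf K2_ok TF_l9482 _))))))))
      (CovZ.subM 332306998946228968225952039947993096 (by decide +kernel)
       (CovZ.n1 (-4480, 10880) (by decide +kernel)
        (CovZ.badM (by decide +kernel))
        (CovZ.n1 (-4480, 11520) (by decide +kernel)
         (CovZ.n2 (-4160, 11200) (by decide +kernel)
          (CovZ.badM (by decide +kernel))
          (CovZ.n1 (-4160, 11520) (by decide +kernel)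
           (CovZ.n2 (-4000, 11360) (by decide +kernel)
            (CovZ.n2 (-4160, 11360) (by decide +kernel)
             (CovZ.leaf K2_ok TF_l691 _)
             (CovZ.n1 (-4080, 11280) (by decide +kernel)
              (CovZ.leaf K2_ok TF_l692 _)
              (CovZ.leaf K2_ok TF_l693 _)))
            (CovZ.leaf K2_ok TF_l694 _))
           (CovZ.n1 (-4320, 11360) (by decide +kernel)
            (CovZ.n2 (-4320, 11520) (by decide +kernel)
             (CovZ.n2 (-4240, 11440) (by decide +kernel)
              (CovZ.leaf K2_ok TF_l695 _)
              (CovZ.leaf K2_ok TF_l696 _))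
             (CovZ.n1 (-4400, 11440) (by decide +kernel)
              (CovZ.leaf K2_ok TF_l9483 _)
              (CovZ.n1 (-4320, 11440) (by decide +kernel)
               (CovZ.leaf K2_ok TF_l9484 _)
               (CovZ.leaf K2_ok TF_l9485 _))))
            (CovZ.n1 (-4160, 11360) (by decide +kernel)
             (CovZ.n2 (-4240, 11280) (by decide +kernel)
              (CovZ.n2 (-4240, 11360) (by decide +kernel)
               (CovZ.leaf K2_ok TF_l697 _)
               (CovZ.leaf K2_ok TF_l698 _))
              (CovZ.n1 (-4160, 11280) (by decide +kernel)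
               (CovZ.leaf K2_ok TF_l699 _)
               (CovZ.leaf K2_ok TF_l700 _)))
             (CovZ.n1 (-4240, 11440) (by decide +kernel)
              (CovZ.leaf K2_ok TF_l701 _)
              (CovZ.leaf K2_ok TF_l702 _))))))
         (CovZ.badM (by decide +kernel)))))))
    (CovZ.n1 (-3840, 12800) (by decide +kernel)
     (CovZ.n2 (-3200, 12160) (by decide +kernel)
      (CovZ.n2 (-3840, 12160) (by decide +kernel)
       (CovZ.leaf K2_ok TF_l703 _)
       (CovZ.n1 (-3520, 11840) (by decide +kernel)
        (CovZ.leaf K2_ok TF_l704 _)
        (CovZ.leaf K2_ok TF_l705 _)))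
      (CovZ.n1 (-3200, 12800) (by decide +kernel)
       (CovZ.leaf K2_ok TF_l706 _)
       (CovZ.leaf K2_ok TF_l707 _)))
     (CovZ.n1 (-4480, 12160) (by decide +kernel)
      (CovZ.subM 335552204289853864059867998539751424 (by decide +kernel)
       (CovZ.n2 (-4480, 12800) (by decide +kernel)
        (CovZ.n2 (-4160, 12480) (by decide +kernel)
         (CovZ.leaf K2_ok TF_l708 _)
         (CovZ.leaf K2_ok TF_l709 _))
        (CovZ.n1 (-4800, 12480) (by decide +kernel)
         (CovZ.n2 (-4800, 12800) (by decide +kernel)
          (CovZ.leaf K2_ok TF_l710 _)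
          (CovZ.leaf K2_ok TF_l711 _))
         (CovZ.n1 (-4480, 12480) (by decide +kernel)
          (CovZ.leaf K2_ok TF_l712 _)
          (CovZ.leaf K2_ok TF_l713 _)))))
      (CovZ.subM 332956055860586450245602750375141384 (by decide +kernel)
       (CovZ.n1 (-3840, 12160) (by decide +kernel)
        (CovZ.n2 (-4160, 11840) (by decide +kernel)
         (CovZ.n2 (-4160, 12160) (by decide +kernel)
          (CovZ.leaf K2_ok TF_l714 _)
          (CovZ.leaf K2_ok TF_l715 _))
         (CovZ.n1 (-3840, 11840) (by decide +kernel)
          (CovZ.leaf K2_ok TF_l716 _)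
          (CovZ.leaf K2_ok TF_l717 _)))
        (CovZ.n1 (-4160, 12480) (by decide +kernel)
         (CovZ.leaf K2_ok TF_l718 _)
         (CovZ.leaf K2_ok TF_l719 _))))))))

theorem TF_s2_7 : SqZ TF_M TF_L [0, 7, 4, 3] (-7680) (-7680) 2560 2 7 :=
  SqZ.mk (a := (-2560)) (b := 0) (c := 10240) (d := 12800) (by norm_num) (by norm_num) (by norm_num) (by norm_num)
    (CovZ.topM TF_LL 78945926132420079353148195239485051577368 (by decide +kernel) (CovZ.n2 (-1280, 11520) (by decide +kernel)
    (CovZ.leaf K2_ok TF_l1653 _)
    (CovZ.n1 (-1280, 10240) (by decide +kernel)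
     (CovZ.subM 333605078112622841808726174770208792 (by decide +kernel)
      (CovZ.n2 (-1920, 10880) (by decide +kernel)
       (CovZ.leaf K2_ok TF_l1654 _)
       (CovZ.n1 (-1920, 10240) (by decide +kernel)
        (CovZ.n2 (-2240, 10560) (by decide +kernel)
         (CovZ.leaf K2_ok TF_l1655 _)
         (CovZ.leaf K2_ok TF_l1656 _))
        (CovZ.leaf K2_ok TF_l1657 _))))
     (CovZ.leaf K2_ok TF_l1658 _))))
    (CovZ.topM TF_LL 78945926781457186670001648805797092729880 (by decide +kernel) (CovZ.n0 (-1280, 11520) (by decide +kernel)
    (CovZ.subM 334254135026980323828376885197348888 (by decide +kernel)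
     (CovZ.n2 (-2560, 11520) (by decide +kernel)
      (CovZ.leaf K2_ok TF_l1659 _)
      (CovZ.n1 (-1920, 10880) (by decide +kernel)
       (CovZ.n2 (-2560, 10880) (by decide +kernel)
        (CovZ.leaf K2_ok TF_l1660 _)
        (CovZ.n1 (-2240, 10560) (by decide +kernel)
         (CovZ.leaf K2_ok TF_l1661 _)
         (CovZ.leaf K2_ok TF_l1662 _)))
       (CovZ.n1 (-1920, 11520) (by decide +kernel)
        (CovZ.leaf K2_ok TF_l1663 _)
        (CovZ.leaf K2_ok TF_l1664 _)))))
    (CovZ.n1 (-1280, 12800) (by decide +kernel)
     (CovZ.leaf K2_ok TF_l1665 _)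
     (CovZ.n1 (-1920, 12160) (by decide +kernel)
      (CovZ.leaf K2_ok TF_l1666 _)
      (CovZ.leaf K2_ok TF_l1667 _)))))

theorem TF_s3_7 : SqZ TF_M TF_L [0, 7, 4, 3] (-7680) (-7680) 2560 3 7 :=
  SqZ.mk (a := 0) (b := 2560) (c := 10240) (d := 12800) (by norm_num) (by norm_num) (by norm_num) (by norm_num)
    (CovZ.topM TF_LL 1472742506263940877229840380380190222656602 (by decide +kernel) (CovZ.leaf K2_ok TF_l3432 _))
    (CovZ.topM TF_LL 78945931345635726082032157631293630260250 (by decide +kernel) (CovZ.leaf K2_ok TF_l3433 _))

theorem TF_s4_7 : SqZ TF_M TF_L [0, 7, 4, 3] (-7680) (-7680) 2560 4 7 :=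
  SqZ.mk (a := 2560) (b := 5120) (c := 10240) (d := 12800) (by norm_num) (by norm_num) (by norm_num) (by norm_num)
    (CovZ.topM TF_LL 2855968127918183604263247979885327568281346138 (by decide +kernel) (CovZ.n2 (3840, 11520) (by decide +kernel)
    (CovZ.leaf K2_ok TF_l4327 _)
    (CovZ.leaf K2_ok TF_l4328 _)))
    (CovZ.topM TF_LL 2855968127918183604263247979885323170503270490 (by decide +kernel) (CovZ.leaf K2_ok TF_l4329 _))

theorem TF_s5_7 : SqZ TF_M TF_L [0, 7, 4, 3] (-7680) (-7680) 2560 5 7 :=
  SqZ.mk (a := 5120) (b := 7680) (c := 10240) (d := 12800) (by norm_num) (by norm_num) (by norm_num) (by norm_num)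
    (CovZ.topM TF_LL 197138656978352705942258810661520535452656935003 (by decide +kernel) (CovZ.leaf K2_ok TF_l4648 _))
    (CovZ.topM TF_LL 2854563447624445636435713351608390829942579290 (by decide +kernel) (CovZ.leaf K2_ok TF_l4649 _))

theorem TF_s6_7 : SqZ TF_M TF_L [0, 7, 4, 3] (-7680) (-7680) 2560 6 7 :=
  SqZ.mk (a := 7680) (b := 10240) (c := 10240) (d := 12800) (by norm_num) (by norm_num) (by norm_num) (by norm_num)
    (CovZ.topM TF_LL 288482471199571197805452555729443807534548789339 (by decide +kernel) (CovZ.n2 (8960, 11520) (by decide +kernel)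
    (CovZ.leaf K2_ok TF_l4826 _)
    (CovZ.leaf K2_ok TF_l4827 _)))
    (CovZ.topM TF_LL 197138656978014861845490784787196788493947773019 (by decide +kernel) (CovZ.n0 (8960, 11520) (by decide +kernel)
    (CovZ.leaf K2_ok TF_l4828 _)
    (CovZ.leaf K2_ok TF_l4829 _)))

theorem TF_s7_7 : SqZ TF_M TF_L [0, 7, 4, 3] (-7680) (-7680) 2560 7 7 :=
  SqZ.mk (a := 10240) (b := 12800) (c := 10240) (d := 12800) (by norm_num) (by norm_num) (by norm_num) (by norm_num)
    (CovZ.topM TF_LL 288482449424158170857270209648506269814779570267 (by decide +kernel) (CovZ.leaf K2_ok TF_l5073 _))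
    (CovZ.topM TF_LL 288482471202229653797331872485072766715112204379 (by decide +kernel) (CovZ.leaf K2_ok TF_l5074 _))

theorem TF_s8_7 : SqZ TF_M TF_L [0, 7, 4, 3] (-7680) (-7680) 2560 8 7 :=
  SqZ.mk (a := 12800) (b := 15360) (c := 10240) (d := 12800) (by norm_num) (by norm_num) (by norm_num) (by norm_num)
    (CovZ.topM TF_LL 285627954038746251095153637709318769615567874171 (by decide +kernel) (CovZ.leaf K2_ok TF_l5348 _))
    (CovZ.topM TF_LL 288482449424158170857270209648505990263948208251 (by decide +kernel) (CovZ.leaf K2_ok TF_l5349 _))

theorem TF_s9_7 : SqZ TF_M TF_L [0, 7, 4, 3] (-7680) (-7680) 2560 9 7 :=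
  SqZ.mk (a := 15360) (b := 17920) (c := 10240) (d := 12800) (by norm_num) (by norm_num) (by norm_num) (by norm_num)
    (CovZ.topM TF_LL 194284100344352271738631724112537358026301005882 (by decide +kernel) (CovZ.leaf K2_ok TF_l5714 _))
    (CovZ.topM TF_LL 285627954038663171810115880010803476481869635707 (by decide +kernel) (CovZ.leaf K2_ok TF_l5715 _))

theorem TF_s10_7 : SqZ TF_M TF_L [0, 7, 4, 3] (-7680) (-7680) 2560 10 7 :=
  SqZ.mk (a := 17920) (b := 20480) (c := 10240) (d := 12800) (by norm_num) (by norm_num) (by norm_num) (by norm_num)
    (CovZ.topM TF_LL 182866116122979644496986625918385104269263003690 (by decide +kernel) (CovZ.n2 (19200, 11520) (by decide +kernel)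
    (CovZ.n2 (20480, 11520) (by decide +kernel)
     (CovZ.leaf K2_ok TF_l6164 _)
     (CovZ.n1 (19840, 12160) (by decide +kernel)
      (CovZ.n2 (20480, 12160) (by decide +kernel)
       (CovZ.leaf K2_ok TF_l6165 _)
       (CovZ.leaf K2_ok TF_l6166 _))
      (CovZ.leaf K2_ok TF_l6167 _)))
    (CovZ.leaf K2_ok TF_l6168 _)))
    (CovZ.topM TF_LL 182866118845238579706038008596853288536320794666 (by decide +kernel) (CovZ.n0 (19200, 11520) (by decide +kernel)
    (CovZ.leaf K2_ok TF_l6169 _)
    (CovZ.n1 (19200, 12800) (by decide +kernel)
     (CovZ.n2 (19840, 12160) (by decide +kernel)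
      (CovZ.leaf K2_ok TF_l6170 _)
      (CovZ.leaf K2_ok TF_l6171 _))
     (CovZ.leaf K2_ok TF_l6172 _))))

theorem TF_s11_7 : SqZ TF_M TF_L [0, 7, 4, 3] (-7680) (-7680) 2560 11 7 :=
  SqZ.mk (a := 20480) (b := 23040) (c := 10240) (d := 12800) (by norm_num) (by norm_num) (by norm_num) (by norm_num)
    (CovZ.topM TF_LL 178411456616779719050292865988399293490290688 (by decide +kernel) (CovZ.n2 (21760, 11520) (by decide +kernel)
    (CovZ.subM 178405961588245143589066483075458999898890240 (by decide +kernel)
     (CovZ.n2 (23040, 11520) (by decide +kernel)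
      (CovZ.n2 (22400, 10880) (by decide +kernel)
       (CovZ.n2 (22400, 11520) (by decide +kernel)
        (CovZ.n2 (22720, 11200) (by decide +kernel)
         (CovZ.leaf K2_ok TF_l6609 _)
         (CovZ.n1 (22720, 11520) (by decide +kernel)
          (CovZ.n2 (22880, 11360) (by decide +kernel)
           (CovZ.leaf K2_ok TF_l6610 _)
           (CovZ.leaf K2_ok TF_l6611 _))
          (CovZ.leaf K2_ok TF_l6612 _)))
        (CovZ.n1 (22080, 11200) (by decide +kernel)
         (CovZ.leaf K2_ok TF_l6613 _)
         (CovZ.n1 (22400, 11200) (by decide +kernel)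
          (CovZ.leaf K2_ok TF_l6614 _)
          (CovZ.leaf K2_ok TF_l6615 _))))
       (CovZ.subM 178405961588244985132590338819331984164143104 (by decide +kernel)
        (CovZ.n1 (23040, 10880) (by decide +kernel)
         (CovZ.n2 (22720, 10560) (by decide +kernel)
          (CovZ.n2 (22720, 10880) (by decide +kernel)
           (CovZ.n2 (22880, 10720) (by decide +kernel)
            (CovZ.leaf K2_ok TF_l6616 _)
            (CovZ.leaf K2_ok TF_l6617 _))
           (CovZ.leaf K2_ok TF_l6618 _))
          (CovZ.n1 (23040, 10560) (by decide +kernel)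
           (CovZ.leaf K2_ok TF_l6619 _)
           (CovZ.n1 (22880, 10720) (by decide +kernel)
            (CovZ.leaf K2_ok TF_l6620 _)
            (CovZ.leaf K2_ok TF_l6621 _))))
         (CovZ.n1 (22720, 11200) (by decide +kernel)
          (CovZ.n2 (23040, 11200) (by decide +kernel)
           (CovZ.n2 (22880, 11040) (by decide +kernel)
            (CovZ.leaf K2_ok TF_l6622 _)
            (CovZ.leaf K2_ok TF_l6623 _))
           (CovZ.n1 (22880, 11360) (by decide +kernel)
            (CovZ.leaf K2_ok TF_l14745 _)
            (CovZ.leaf K2_ok TF_l6624 _)))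
          (CovZ.leaf K2_ok TF_l6625 _)))))
      (CovZ.n1 (22400, 12160) (by decide +kernel)
       (CovZ.n2 (23040, 12160) (by decide +kernel)
        (CovZ.n2 (22720, 11840) (by decide +kernel)
         (CovZ.n2 (22720, 12160) (by decide +kernel)
          (CovZ.leaf K2_ok TF_l14746 _)
          (CovZ.leaf K2_ok TF_l14747 _))
         (CovZ.n1 (23040, 11840) (by decide +kernel)
          (CovZ.leaf K2_ok TF_l14748 _)
          (CovZ.leaf K2_ok TF_l14749 _)))
        (CovZ.n1 (22720, 12480) (by decide +kernel)
         (CovZ.n2 (23040, 12480) (by decide +kernel)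
          (CovZ.leaf K2_ok TF_l14750 _)
          (CovZ.leaf K2_ok TF_l14751 _))
         (CovZ.leaf K2_ok TF_l14752 _)))
       (CovZ.n1 (22400, 11520) (by decide +kernel)
        (CovZ.n2 (22080, 11840) (by decide +kernel)
         (CovZ.leaf K2_ok TF_l6626 _)
         (CovZ.leaf K2_ok TF_l6627 _))
        (CovZ.leaf K2_ok TF_l6628 _)))))
    (CovZ.n1 (21760, 10240) (by decide +kernel)
     (CovZ.n2 (21120, 10880) (by decide +kernel)
      (CovZ.n2 (21760, 10880) (by decide +kernel)
       (CovZ.leaf K2_ok TF_l6629 _)
       (CovZ.leaf K2_ok TF_l6630 _))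
      (CovZ.leaf K2_ok TF_l6631 _))
     (CovZ.n1 (22400, 10880) (by decide +kernel)
      (CovZ.leaf K2_ok TF_l6632 _)
      (CovZ.n1 (21760, 10880) (by decide +kernel)
       (CovZ.leaf K2_ok TF_l6633 _)
       (CovZ.leaf K2_ok TF_l6634 _))))))
    (CovZ.topM TF_LL 178411456616779719050141750260947464843452416 (by decide +kernel) (CovZ.n0 (21760, 11520) (by decide +kernel)
    (CovZ.n2 (20480, 11520) (by decide +kernel)
     (CovZ.leaf K2_ok TF_l6635 _)
     (CovZ.n1 (21120, 10880) (by decide +kernel)
      (CovZ.leaf K2_ok TF_l6636 _)
      (CovZ.n1 (21120, 11520) (by decide +kernel)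
       (CovZ.leaf K2_ok TF_l6637 _)
       (CovZ.leaf K2_ok TF_l6638 _))))
    (CovZ.subM 178406006781996842438700037191462171145428992 (by decide +kernel)
     (CovZ.n1 (21760, 12800) (by decide +kernel)
      (CovZ.n2 (22400, 12160) (by decide +kernel)
       (CovZ.n2 (21760, 12160) (by decide +kernel)
        (CovZ.leaf K2_ok TF_l6639 _)
        (CovZ.n1 (22080, 11840) (by decide +kernel)
         (CovZ.leaf K2_ok TF_l6640 _)
         (CovZ.leaf K2_ok TF_l6641 _)))
       (CovZ.n1 (22400, 12800) (by decide +kernel)
        (CovZ.n2 (22720, 12480) (by decide +kernel)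
         (CovZ.leaf K2_ok TF_l14753 _)
         (CovZ.n1 (22720, 12800) (by decide +kernel)
          (CovZ.leaf K2_ok TF_l14754 _)
          (CovZ.leaf K2_ok TF_l14755 _)))
        (CovZ.n1 (22080, 12480) (by decide +kernel)
         (CovZ.leaf K2_ok TF_l6642 _)
         (CovZ.leaf K2_ok TF_l6643 _))))
      (CovZ.n1 (21120, 12160) (by decide +kernel)
       (CovZ.n2 (21120, 12800) (by decide +kernel)
        (CovZ.leaf K2_ok TF_l6644 _)
        (CovZ.leaf K2_ok TF_l6645 _))
       (CovZ.n1 (21760, 12160) (by decide +kernel)
        (CovZ.leaf K2_ok TF_l6646 _)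
        (CovZ.leaf K2_ok TF_l6647 _)))))))

theorem TF_s12_7 : SqZ TF_M TF_L [0, 7, 4, 3] (-7680) (-7680) 2560 12 7 :=
  SqZ.mk (a := 23040) (b := 25600) (c := 10240) (d := 12800) (by norm_num) (by norm_num) (by norm_num) (by norm_num)
    (CovZ.topM TF_LL 178405961588244985132590338819331984164143104 (by decide +kernel) (CovZ.n2 (24320, 11520) (by decide +kernel)
    (CovZ.badM (by decide +kernel))
    (CovZ.n1 (24320, 10240) (by decide +kernel)
     (CovZ.n2 (23680, 10880) (by decide +kernel)
      (CovZ.n2 (24320, 10880) (by decide +kernel)
       (CovZ.badM (by decide +kernel))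
       (CovZ.n1 (24000, 11200) (by decide +kernel)
        (CovZ.badM (by decide +kernel))
        (CovZ.badM (by decide +kernel))))
      (CovZ.n1 (23680, 10240) (by decide +kernel)
       (CovZ.n2 (23360, 10560) (by decide +kernel)
        (CovZ.n2 (23680, 10560) (by decide +kernel)
         (CovZ.n2 (23520, 10400) (by decide +kernel)
          (CovZ.n2 (23520, 10560) (by decide +kernel)
           (CovZ.n2 (23600, 10480) (by decide +kernel)
            (CovZ.leaf K2_ok TF_l16055 _)
            (CovZ.n1 (23600, 10560) (by decide +kernel)
             (CovZ.leaf K2_ok TF_l16056 _)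
             (CovZ.leaf K2_ok TF_l16057 _)))
           (CovZ.n1 (23440, 10480) (by decide +kernel)
            (CovZ.leaf K2_ok TF_l15245 _)
            (CovZ.leaf K2_ok TF_l16058 _)))
          (CovZ.n1 (23680, 10400) (by decide +kernel)
           (CovZ.n2 (23600, 10320) (by decide +kernel)
            (CovZ.n2 (23600, 10400) (by decide +kernel)
             (CovZ.leaf K2_ok TF_l16059 _)
             (CovZ.leaf K2_ok TF_l16060 _))
            (CovZ.n1 (23680, 10320) (by decide +kernel)
             (CovZ.leaf K2_ok TF_l16061 _)
             (CovZ.leaf K2_ok TF_l16062 _)))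
           (CovZ.n1 (23600, 10480) (by decide +kernel)
            (CovZ.n2 (23680, 10480) (by decide +kernel)
             (CovZ.leaf K2_ok TF_l16063 _)
             (CovZ.leaf K2_ok TF_l16064 _))
            (CovZ.leaf K2_ok TF_l16065 _))))
         (CovZ.n1 (23520, 10720) (by decide +kernel)
          (CovZ.badM (by decide +kernel))
          (CovZ.n1 (23520, 10560) (by decide +kernel)
           (CovZ.n2 (23440, 10640) (by decide +kernel)
            (CovZ.leaf K2_ok TF_l15246 _)
            (CovZ.leaf K2_ok TF_l15247 _))
           (CovZ.leaf K2_ok TF_l16066 _))))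
        (CovZ.n1 (23360, 10240) (by decide +kernel)
         (CovZ.n2 (23200, 10400) (by decide +kernel)
          (CovZ.n2 (23360, 10400) (by decide +kernel)
           (CovZ.leaf K2_ok TF_l7149 _)
           (CovZ.leaf K2_ok TF_l7150 _))
          (CovZ.leaf K2_ok TF_l7151 _))
         (CovZ.n1 (23520, 10400) (by decide +kernel)
          (CovZ.n2 (23520, 10240) (by decide +kernel)
           (CovZ.n2 (23440, 10320) (by decide +kernel)
            (CovZ.leaf K2_ok TF_l16067 _)
            (CovZ.leaf K2_ok TF_l7152 _))
           (CovZ.leaf K2_ok TF_l16068 _))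
          (CovZ.n1 (23360, 10400) (by decide +kernel)
           (CovZ.leaf K2_ok TF_l15248 _)
           (CovZ.n1 (23440, 10320) (by decide +kernel)
            (CovZ.leaf K2_ok TF_l7153 _)
            (CovZ.leaf K2_ok TF_l16069 _))))))
       (CovZ.n1 (24000, 10560) (by decide +kernel)
        (CovZ.n2 (24000, 10240) (by decide +kernel)
         (CovZ.n2 (23840, 10400) (by decide +kernel)
          (CovZ.badM (by decide +kernel))
          (CovZ.n1 (23840, 10240) (by decide +kernel)
           (CovZ.n2 (23760, 10320) (by decide +kernel)
            (CovZ.badM (by decide +kernel))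
            (CovZ.n1 (23760, 10240) (by decide +kernel)
             (CovZ.n2 (23720, 10280) (by decide +kernel)
              (CovZ.badM (by decide +kernel))
              (CovZ.leaf K2_ok TF_l16070 _))
             (CovZ.badM (by decide +kernel))))
           (CovZ.badM (by decide +kernel))))
         (CovZ.badM (by decide +kernel)))
        (CovZ.n1 (23680, 10560) (by decide +kernel)
         (CovZ.badM (by decide +kernel))
         (CovZ.n1 (23840, 10400) (by decide +kernel)
          (CovZ.n2 (23680, 10400) (by decide +kernel)
           (CovZ.badM (by decide +kernel))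
           (CovZ.n1 (23760, 10320) (by decide +kernel)
            (CovZ.n2 (23680, 10320) (by decide +kernel)
             (CovZ.leaf K2_ok TF_l16071 _)
             (CovZ.n1 (23720, 10280) (by decide +kernel)
              (CovZ.leaf K2_ok TF_l16072 _)
              (CovZ.leaf K2_ok TF_l16073 _)))
            (CovZ.badM (by decide +kernel))))
          (CovZ.badM (by decide +kernel)))))))
     (CovZ.n1 (24960, 10880) (by decide +kernel)
      (CovZ.badM (by decide +kernel))
      (CovZ.n1 (24320, 10880) (by decide +kernel)
       (CovZ.badM (by decide +kernel))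
       (CovZ.badM (by decide +kernel)))))))
    (CovZ.topM TF_LL 178405961588244985132741454546783812810989568 (by decide +kernel) (CovZ.n0 (24320, 11520) (by decide +kernel)
    (CovZ.n2 (23040, 11520) (by decide +kernel)
     (CovZ.n2 (23680, 12160) (by decide +kernel)
      TF_u99
      (CovZ.n1 (23040, 12160) (by decide +kernel)
       (CovZ.subM 2361183241434822631424 (by decide +kernel)
        (CovZ.n2 (23360, 12480) (by decide +kernel)
         (CovZ.n2 (23360, 12160) (by decide +kernel)
          (CovZ.n2 (23200, 12320) (by decide +kernel)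
           (CovZ.n2 (23360, 12320) (by decide +kernel)
            (CovZ.leaf K2_ok TF_l15338 _)
            (CovZ.leaf K2_ok TF_l15339 _))
           (CovZ.leaf K2_ok TF_l15340 _))
          (CovZ.leaf K2_ok TF_l15341 _))
         (CovZ.n1 (23040, 12480) (by decide +kernel)
          (CovZ.leaf K2_ok TF_l15342 _)
          (CovZ.n1 (23200, 12320) (by decide +kernel)
           (CovZ.leaf K2_ok TF_l15343 _)
           (CovZ.leaf K2_ok TF_l15344 _)))))
       (CovZ.n1 (23360, 11840) (by decide +kernel)
        (CovZ.n2 (23040, 11840) (by decide +kernel)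
         (CovZ.leaf K2_ok TF_l15345 _)
         (CovZ.n1 (23200, 11680) (by decide +kernel)
          (CovZ.leaf K2_ok TF_l15346 _)
          (CovZ.leaf K2_ok TF_l15347 _)))
        (CovZ.subM 2361183241434822631424 (by decide +kernel)
         (CovZ.n1 (23360, 12160) (by decide +kernel)
          (CovZ.n2 (23520, 12000) (by decide +kernel)
           (CovZ.leaf K2_ok TF_l15348 _)
           (CovZ.n1 (23520, 12160) (by decide +kernel)
            (CovZ.n2 (23600, 12080) (by decide +kernel)
             (CovZ.leaf K2_ok TF_l15349 _)
             (CovZ.leaf K2_ok TF_l15350 _))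
            (CovZ.leaf K2_ok TF_l15351 _)))
          (CovZ.n1 (23200, 12000) (by decide +kernel)
           (CovZ.leaf K2_ok TF_l15352 _)
           (CovZ.n1 (23360, 12000) (by decide +kernel)
            (CovZ.leaf K2_ok TF_l15353 _)
            (CovZ.leaf K2_ok TF_l15354 _))))))))
     (CovZ.n1 (23680, 10880) (by decide +kernel)
      TF_u100
      TF_u101))
    (CovZ.subM 453347182355485940523008 (by decide +kernel)
     (CovZ.n1 (24320, 12800) (by decide +kernel)
      (CovZ.n2 (24960, 12160) (by decide +kernel)
       (CovZ.n2 (24320, 12160) (by decide +kernel)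
        (CovZ.n2 (24640, 12480) (by decide +kernel)
         (CovZ.badM (by decide +kernel))
         (CovZ.badM (by decide +kernel)))
        (CovZ.badM (by decide +kernel)))
       (CovZ.n1 (24960, 12800) (by decide +kernel)
        (CovZ.badM (by decide +kernel))
        (CovZ.n1 (24640, 12480) (by decide +kernel)
         (CovZ.badM (by decide +kernel))
         (CovZ.badM (by decide +kernel)))))
      (CovZ.n1 (23680, 12160) (by decide +kernel)
       (CovZ.n2 (23680, 12800) (by decide +kernel)
        (CovZ.n2 (24000, 12480) (by decide +kernel)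
         (CovZ.n2 (23680, 12480) (by decide +kernel)
          (CovZ.n2 (23840, 12640) (by decide +kernel)
           (CovZ.n2 (23840, 12480) (by decide +kernel)
            (CovZ.n2 (23760, 12560) (by decide +kernel)
             (CovZ.n2 (23840, 12560) (by decide +kernel)
              (CovZ.n2 (23800, 12520) (by decide +kernel)
               (CovZ.badM (by decide +kernel))
               (CovZ.n1 (23840, 12520) (by decide +kernel)
                (CovZ.leaf K2_ok TF_l15458 _)
                (CovZ.badM (by decide +kernel))))
              (CovZ.badM (by decide +kernel)))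
             (CovZ.n1 (23760, 12480) (by decide +kernel)
              (CovZ.n2 (23720, 12520) (by decide +kernel)
               (CovZ.leaf K2_ok TF_l15459 _)
               (CovZ.leaf K2_ok TF_l15460 _))
              (CovZ.leaf K2_ok TF_l15461 _)))
            (CovZ.n1 (23920, 12560) (by decide +kernel)
             (CovZ.n2 (23920, 12480) (by decide +kernel)
              (CovZ.n2 (23880, 12520) (by decide +kernel)
               (CovZ.badM (by decide +kernel))
               (CovZ.n1 (23880, 12480) (by decide +kernel)
                (CovZ.n2 (23860, 12500) (by decide +kernel)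
                 (CovZ.badM (by decide +kernel))
                 (CovZ.leaf K2_ok TF_l15462 _))
                (CovZ.badM (by decide +kernel))))
              (CovZ.badM (by decide +kernel)))
             (CovZ.n1 (23840, 12560) (by decide +kernel)
              (CovZ.badM (by decide +kernel))
              (CovZ.n1 (23880, 12520) (by decide +kernel)
               (CovZ.n2 (23840, 12520) (by decide +kernel)
                (CovZ.badM (by decide +kernel))
                (CovZ.n1 (23860, 12500) (by decide +kernel)
                 (CovZ.leaf K2_ok TF_l15463 _)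
                 (CovZ.badM (by decide +kernel))))
               (CovZ.badM (by decide +kernel))))))
           (CovZ.n1 (23680, 12640) (by decide +kernel)
            (CovZ.badM (by decide +kernel))
            (CovZ.n1 (23760, 12560) (by decide +kernel)
             (CovZ.n2 (23680, 12560) (by decide +kernel)
              (CovZ.badM (by decide +kernel))
              (CovZ.n1 (23720, 12520) (by decide +kernel)
               (CovZ.leaf K2_ok TF_l15464 _)
               (CovZ.badM (by decide +kernel))))
             (CovZ.badM (by decide +kernel)))))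
          (CovZ.n1 (23840, 12320) (by decide +kernel)
           (CovZ.n2 (23680, 12320) (by decide +kernel)
            (CovZ.leaf K2_ok TF_l15465 _)
            (CovZ.n1 (23760, 12240) (by decide +kernel)
             (CovZ.leaf K2_ok TF_l15466 _)
             (CovZ.n1 (23760, 12320) (by decide +kernel)
              (CovZ.badM (by decide +kernel))
              (CovZ.leaf K2_ok TF_l15467 _))))
           (CovZ.n1 (23840, 12480) (by decide +kernel)
            (CovZ.n2 (23920, 12400) (by decide +kernel)
             (CovZ.n2 (23840, 12400) (by decide +kernel)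
              (CovZ.n2 (23880, 12440) (by decide +kernel)
               (CovZ.badM (by decide +kernel))
               (CovZ.leaf K2_ok TF_l15468 _))
              (CovZ.badM (by decide +kernel)))
             (CovZ.n1 (23920, 12480) (by decide +kernel)
              (CovZ.badM (by decide +kernel))
              (CovZ.n1 (23880, 12440) (by decide +kernel)
               (CovZ.n2 (23880, 12480) (by decide +kernel)
                (CovZ.n2 (23900, 12460) (by decide +kernel)
                 (CovZ.leaf K2_ok TF_l15469 _)
                 (CovZ.n1 (23900, 12480) (by decide +kernel)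
                  (CovZ.leaf K2_ok TF_l15470 _)
                  (CovZ.leaf K2_ok TF_l15471 _)))
                (CovZ.leaf K2_ok TF_l15472 _))
               (CovZ.badM (by decide +kernel)))))
            (CovZ.n1 (23760, 12400) (by decide +kernel)
             (CovZ.n2 (23760, 12480) (by decide +kernel)
              (CovZ.n2 (23800, 12440) (by decide +kernel)
               (CovZ.leaf K2_ok TF_l15473 _)
               (CovZ.leaf K2_ok TF_l15474 _))
              (CovZ.leaf K2_ok TF_l15475 _))
             (CovZ.n1 (23840, 12400) (by decide +kernel)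
              (CovZ.n2 (23800, 12360) (by decide +kernel)
               (CovZ.leaf K2_ok TF_l15476 _)
               (CovZ.badM (by decide +kernel)))
              (CovZ.n1 (23800, 12440) (by decide +kernel)
               (CovZ.n2 (23840, 12440) (by decide +kernel)
                (CovZ.leaf K2_ok TF_l15477 _)
                (CovZ.leaf K2_ok TF_l15478 _))
               (CovZ.leaf K2_ok TF_l15479 _)))))))
         (CovZ.badM (by decide +kernel)))
        (CovZ.n1 (23360, 12480) (by decide +kernel)
         (CovZ.n2 (23360, 12800) (by decide +kernel)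
          (CovZ.n2 (23520, 12640) (by decide +kernel)
           (CovZ.n2 (23360, 12640) (by decide +kernel)
            (CovZ.badM (by decide +kernel))
            (CovZ.leaf K2_ok TF_l15480 _))
           (CovZ.badM (by decide +kernel)))
          (CovZ.n1 (23200, 12640) (by decide +kernel)
           (CovZ.badM (by decide +kernel))
           (CovZ.n1 (23360, 12640) (by decide +kernel)
            (CovZ.leaf K2_ok TF_l15481 _)
            (CovZ.badM (by decide +kernel)))))
         (CovZ.n1 (23680, 12480) (by decide +kernel)
          (CovZ.n2 (23520, 12320) (by decide +kernel)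
           (CovZ.n2 (23520, 12480) (by decide +kernel)
            (CovZ.n2 (23600, 12400) (by decide +kernel)
             (CovZ.leaf K2_ok TF_l15482 _)
             (CovZ.leaf K2_ok TF_l15483 _))
            (CovZ.leaf K2_ok TF_l15484 _))
           (CovZ.n1 (23680, 12320) (by decide +kernel)
            (CovZ.n2 (23600, 12240) (by decide +kernel)
             (CovZ.leaf K2_ok TF_l15485 _)
             (CovZ.leaf K2_ok TF_l15486 _))
            (CovZ.n1 (23600, 12400) (by decide +kernel)
             (CovZ.n2 (23680, 12400) (by decide +kernel)
              (CovZ.leaf K2_ok TF_l15487 _)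
              (CovZ.leaf K2_ok TF_l15488 _))
             (CovZ.leaf K2_ok TF_l15489 _))))
          (CovZ.n1 (23520, 12640) (by decide +kernel)
           (CovZ.n2 (23680, 12640) (by decide +kernel)
            (CovZ.n2 (23600, 12560) (by decide +kernel)
             (CovZ.badM (by decide +kernel))
             (CovZ.n1 (23680, 12560) (by decide +kernel)
              (CovZ.leaf K2_ok TF_l15490 _)
              (CovZ.badM (by decide +kernel))))
            (CovZ.badM (by decide +kernel)))
           (CovZ.n1 (23520, 12480) (by decide +kernel)
            (CovZ.leaf K2_ok TF_l15491 _)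
            (CovZ.leaf K2_ok TF_l15492 _))))))
       (CovZ.n1 (24320, 12160) (by decide +kernel)
        (CovZ.n2 (24000, 11840) (by decide +kernel)
         (CovZ.badM (by decide +kernel))
         (CovZ.badM (by decide +kernel)))
        (CovZ.badM (by decide +kernel))))))))

theorem TF_s13_7 : SqZ TF_M TF_L [0, 7, 4, 3] (-7680) (-7680) 2560 13 7 :=
  SqZ.mk (a := 25600) (b := 28160) (c := 10240) (d := 12800) (by norm_num) (by norm_num) (by norm_num) (by norm_num)
    (CovZ.topM TF_LL 0 (by decide +kernel) (CovZ.badM (by decide +kernel)))
    (CovZ.topM TF_LL 0 (by decide +kernel) (CovZ.badM (by decide +kernel)))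

theorem TF_s14_7 : SqZ TF_M TF_L [0, 7, 4, 3] (-7680) (-7680) 2560 14 7 :=
  SqZ.mk (a := 28160) (b := 30720) (c := 10240) (d := 12800) (by norm_num) (by norm_num) (by norm_num) (by norm_num)
    (CovZ.topM TF_LL 0 (by decide +kernel) (CovZ.badM (by decide +kernel)))
    (CovZ.topM TF_LL 0 (by decide +kernel) (CovZ.badM (by decide +kernel)))

theorem TF_s15_7 : SqZ TF_M TF_L [0, 7, 4, 3] (-7680) (-7680) 2560 15 7 :=
  SqZ.mk (a := 30720) (b := 33280) (c := 10240) (d := 12800) (by norm_num) (by norm_num) (by norm_num) (by norm_num)
    (CovZ.topM TF_LL 0 (by decide +kernel) (CovZ.badM (by decide +kernel)))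
    (CovZ.topM TF_LL 0 (by decide +kernel) (CovZ.badM (by decide +kernel)))

theorem TF_s0_8 : SqZ TF_M TF_L [0, 7, 4, 3] (-7680) (-7680) 2560 0 8 :=
  SqZ.mk (a := (-7680)) (b := (-5120)) (c := 12800) (d := 15360) (by norm_num) (by norm_num) (by norm_num) (by norm_num)
    (CovZ.topM TF_LL 171473656661597773090738851908583170048 (by decide +kernel) (CovZ.n2 (-6400, 14080) (by decide +kernel)
    TF_u102
    TF_u103))
    (CovZ.topM TF_LL 192738708425920118424523604884992303104 (by decide +kernel) (CovZ.n0 (-6400, 14080) (by decide +kernel)
    (CovZ.subM 429496729600 (by decide +kernel)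
     (CovZ.n2 (-7680, 14080) (by decide +kernel)
      (CovZ.n2 (-7040, 14720) (by decide +kernel)
       (CovZ.badM (by decide +kernel))
       (CovZ.n1 (-7680, 14720) (by decide +kernel)
        (CovZ.n2 (-7360, 15040) (by decide +kernel)
         (CovZ.n2 (-7360, 14720) (by decide +kernel)
          (CovZ.badM (by decide +kernel))
          (CovZ.n1 (-7200, 14880) (by decide +kernel)
           (CovZ.badM (by decide +kernel))
           (CovZ.badM (by decide +kernel))))
         (CovZ.badM (by decide +kernel)))
        (CovZ.n1 (-7360, 14400) (by decide +kernel)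
         (CovZ.badM (by decide +kernel))
         (CovZ.n1 (-7360, 14720) (by decide +kernel)
          (CovZ.badM (by decide +kernel))
          (CovZ.badM (by decide +kernel))))))
      (CovZ.n1 (-7040, 13440) (by decide +kernel)
       (CovZ.badM (by decide +kernel))
       (CovZ.badM (by decide +kernel)))))
    (CovZ.n1 (-6400, 15360) (by decide +kernel)
     (CovZ.n2 (-5760, 14720) (by decide +kernel)
      (CovZ.n2 (-6400, 14720) (by decide +kernel)
       (CovZ.n2 (-6080, 15040) (by decide +kernel)
        (CovZ.subM 171470411456254147604609125174673940480 (by decide +kernel)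
         (CovZ.n2 (-6080, 14720) (by decide +kernel)
          (CovZ.n2 (-6240, 14880) (by decide +kernel)
           (CovZ.n2 (-6080, 14880) (by decide +kernel)
            (CovZ.badM (by decide +kernel))
            (CovZ.n1 (-6160, 14960) (by decide +kernel)
             (CovZ.n2 (-6080, 14960) (by decide +kernel)
              (CovZ.badM (by decide +kernel))
              (CovZ.n1 (-6120, 15000) (by decide +kernel)
               (CovZ.leaf K2_ok TF_l8544 _)
               (CovZ.badM (by decide +kernel))))
             (CovZ.badM (by decide +kernel))))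
           (CovZ.badM (by decide +kernel)))
          (CovZ.n1 (-5920, 14880) (by decide +kernel)
           (CovZ.n2 (-5920, 14720) (by decide +kernel)
            (CovZ.n2 (-6000, 14800) (by decide +kernel)
             (CovZ.n2 (-5920, 14800) (by decide +kernel)
              (CovZ.badM (by decide +kernel))
              (CovZ.leaf K2_ok TF_l8545 _))
             (CovZ.badM (by decide +kernel)))
            (CovZ.leaf K2_ok TF_l8546 _))
           (CovZ.n1 (-6080, 14880) (by decide +kernel)
            (CovZ.n2 (-6000, 14960) (by decide +kernel)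
             (CovZ.n2 (-6000, 14880) (by decide +kernel)
              (CovZ.n2 (-6040, 14920) (by decide +kernel)
               (CovZ.leaf K2_ok TF_l8547 _)
               (CovZ.badM (by decide +kernel)))
              (CovZ.leaf K2_ok TF_l8548 _))
             (CovZ.n1 (-6080, 14960) (by decide +kernel)
              (CovZ.leaf K2_ok TF_l8549 _)
              (CovZ.n1 (-6040, 14920) (by decide +kernel)
               (CovZ.badM (by decide +kernel))
               (CovZ.leaf K2_ok TF_l8550 _))))
            (CovZ.n1 (-6000, 14800) (by decide +kernel)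
             (CovZ.badM (by decide +kernel))
             (CovZ.n1 (-6000, 14880) (by decide +kernel)
              (CovZ.leaf K2_ok TF_l8551 _)
              (CovZ.badM (by decide +kernel))))))))
        (CovZ.subM 192738059388812801571070038280893366272 (by decide +kernel)
         (CovZ.n1 (-6400, 15040) (by decide +kernel)
          (CovZ.n2 (-6240, 15200) (by decide +kernel)
           (CovZ.subM 171470411456254147604591110780459417600 (by decide +kernel)
            (CovZ.n2 (-6240, 15040) (by decide +kernel)
             (CovZ.n2 (-6320, 15120) (by decide +kernel)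
              (CovZ.n2 (-6240, 15120) (by decide +kernel)
               (CovZ.n2 (-6280, 15080) (by decide +kernel)
                (CovZ.n2 (-6280, 15120) (by decide +kernel)
                 (CovZ.n2 (-6260, 15100) (by decide +kernel)
                  (CovZ.badM (by decide +kernel))
                  (CovZ.leaf K2_ok TF_l8552 _))
                 (CovZ.badM (by decide +kernel)))
                (CovZ.n1 (-6240, 15080) (by decide +kernel)
                 (CovZ.badM (by decide +kernel))
                 (CovZ.n1 (-6260, 15100) (by decide +kernel)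
                  (CovZ.leaf K2_ok TF_l8553 _)
                  (CovZ.badM (by decide +kernel)))))
               (CovZ.n1 (-6280, 15160) (by decide +kernel)
                (CovZ.leaf K2_ok TF_l8554 _)
                (CovZ.n1 (-6280, 15120) (by decide +kernel)
                 (CovZ.n2 (-6300, 15140) (by decide +kernel)
                  (CovZ.leaf K2_ok TF_l8555 _)
                  (CovZ.badM (by decide +kernel)))
                 (CovZ.leaf K2_ok TF_l8556 _))))
              (CovZ.badM (by decide +kernel)))
             (CovZ.n1 (-6160, 15120) (by decide +kernel)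
              (CovZ.n2 (-6160, 15040) (by decide +kernel)
               (CovZ.n2 (-6200, 15080) (by decide +kernel)
                (CovZ.leaf K2_ok TF_l8557 _)
                (CovZ.n1 (-6200, 15040) (by decide +kernel)
                 (CovZ.badM (by decide +kernel))
                 (CovZ.leaf K2_ok TF_l8558 _)))
               (CovZ.leaf K2_ok TF_l8559 _))
              (CovZ.n1 (-6240, 15120) (by decide +kernel)
               (CovZ.leaf K2_ok TF_l8560 _)
               (CovZ.n1 (-6200, 15080) (by decide +kernel)
                (CovZ.n2 (-6240, 15080) (by decide +kernel)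
                 (CovZ.leaf K2_ok TF_l8561 _)
                 (CovZ.badM (by decide +kernel)))
                (CovZ.leaf K2_ok TF_l8562 _))))))
           (CovZ.n1 (-6400, 15200) (by decide +kernel)
            (CovZ.n2 (-6320, 15280) (by decide +kernel)
             (CovZ.n2 (-6320, 15200) (by decide +kernel)
              (CovZ.n2 (-6360, 15240) (by decide +kernel)
               (CovZ.leaf K2_ok TF_l113 _)
               (CovZ.subM 171470411456254147604591110913603403776 (by decide +kernel)
                (CovZ.n1 (-6360, 15200) (by decide +kernel)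
                 (CovZ.n2 (-6380, 15220) (by decide +kernel)
                  (CovZ.leaf K2_ok TF_l8563 _)
                  (CovZ.n1 (-6380, 15200) (by decide +kernel)
                   (CovZ.badM (by decide +kernel))
                   (CovZ.leaf K2_ok TF_l8564 _)))
                 (CovZ.leaf K2_ok TF_l8565 _))))
              (CovZ.leaf K2_ok TF_l114 _))
             (CovZ.n1 (-6400, 15280) (by decide +kernel)
              (CovZ.leaf K2_ok TF_l115 _)
              (CovZ.n1 (-6360, 15240) (by decide +kernel)
               (CovZ.subM 192738059388812801571052023740649963520 (by decide +kernel)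
                (CovZ.n2 (-6400, 15240) (by decide +kernel)
                 (CovZ.leaf K2_ok TF_l116 _)
                 (CovZ.n1 (-6380, 15220) (by decide +kernel)
                  (CovZ.n2 (-6400, 15220) (by decide +kernel)
                   (CovZ.leaf K2_ok TF_l8566 _)
                   (CovZ.badM (by decide +kernel)))
                  (CovZ.leaf K2_ok TF_l8567 _))))
               (CovZ.leaf K2_ok TF_l117 _))))
            (CovZ.subM 171470411456254147604591110776164450304 (by decide +kernel)
             (CovZ.n1 (-6320, 15120) (by decide +kernel)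
              (CovZ.badM (by decide +kernel))
              (CovZ.n1 (-6320, 15200) (by decide +kernel)
               (CovZ.n2 (-6280, 15160) (by decide +kernel)
                (CovZ.n2 (-6320, 15160) (by decide +kernel)
                 (CovZ.leaf K2_ok TF_l8568 _)
                 (CovZ.n1 (-6300, 15140) (by decide +kernel)
                  (CovZ.badM (by decide +kernel))
                  (CovZ.leaf K2_ok TF_l8569 _)))
                (CovZ.leaf K2_ok TF_l8570 _))
               (CovZ.n1 (-6360, 15160) (by decide +kernel)
                (CovZ.n2 (-6360, 15200) (by decide +kernel)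
                 (CovZ.n2 (-6340, 15180) (by decide +kernel)
                  (CovZ.badM (by decide +kernel))
                  (CovZ.leaf K2_ok TF_l8571 _))
                 (CovZ.badM (by decide +kernel)))
                (CovZ.n1 (-6320, 15160) (by decide +kernel)
                 (CovZ.badM (by decide +kernel))
                 (CovZ.n1 (-6340, 15180) (by decide +kernel)
                  (CovZ.leaf K2_ok TF_l8572 _)
                  (CovZ.badM (by decide +kernel))))))))))
          (CovZ.subM 171470411456254147604609125174673932288 (by decide +kernel)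
           (CovZ.n1 (-6240, 14880) (by decide +kernel)
            (CovZ.badM (by decide +kernel))
            (CovZ.n1 (-6240, 15040) (by decide +kernel)
             (CovZ.n2 (-6160, 14960) (by decide +kernel)
              (CovZ.badM (by decide +kernel))
              (CovZ.n1 (-6160, 15040) (by decide +kernel)
               (CovZ.n2 (-6120, 15000) (by decide +kernel)
                (CovZ.badM (by decide +kernel))
                (CovZ.badM (by decide +kernel)))
               (CovZ.badM (by decide +kernel))))
             (CovZ.badM (by decide +kernel))))))))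
       (CovZ.subM 18014398509490176 (by decide +kernel)
        (CovZ.n1 (-6080, 14400) (by decide +kernel)
         (CovZ.badM (by decide +kernel))
         (CovZ.n1 (-6080, 14720) (by decide +kernel)
          (CovZ.n2 (-5920, 14560) (by decide +kernel)
           (CovZ.badM (by decide +kernel))
           (CovZ.n1 (-5920, 14720) (by decide +kernel)
            (CovZ.n2 (-5840, 14640) (by decide +kernel)
             (CovZ.badM (by decide +kernel))
             (CovZ.n1 (-5840, 14720) (by decide +kernel)
              (CovZ.leaf K2_ok TF_l8573 _)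
              (CovZ.badM (by decide +kernel))))
            (CovZ.badM (by decide +kernel))))
          (CovZ.badM (by decide +kernel))))))
      (CovZ.n1 (-5760, 15360) (by decide +kernel)
       (CovZ.subM 649037107316853471580852284563456 (by decide +kernel)
        (CovZ.n2 (-5440, 15040) (by decide +kernel)
         (CovZ.n2 (-5760, 15040) (by decide +kernel)
          (CovZ.leaf K2_ok TF_l118 _)
          (CovZ.n1 (-5600, 14880) (by decide +kernel)
           (CovZ.leaf K2_ok TF_l119 _)
           (CovZ.leaf K2_ok TF_l120 _)))
         (CovZ.n1 (-5440, 15360) (by decide +kernel)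
          (CovZ.leaf K2_ok TF_l121 _)
          (CovZ.leaf K2_ok TF_l122 _))))
       (CovZ.n1 (-6080, 15040) (by decide +kernel)
        (CovZ.subM 192738059388812801571052023882383892480 (by decide +kernel)
         (CovZ.n2 (-6080, 15360) (by decide +kernel)
          (CovZ.n2 (-5920, 15200) (by decide +kernel)
           (CovZ.leaf K2_ok TF_l123 _)
           (CovZ.leaf K2_ok TF_l124 _))
          (CovZ.n1 (-6240, 15200) (by decide +kernel)
           (CovZ.n2 (-6240, 15360) (by decide +kernel)
            (CovZ.n2 (-6160, 15280) (by decide +kernel)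
             (CovZ.leaf K2_ok TF_l125 _)
             (CovZ.leaf K2_ok TF_l126 _))
            (CovZ.n1 (-6320, 15280) (by decide +kernel)
             (CovZ.n2 (-6320, 15360) (by decide +kernel)
              (CovZ.leaf K2_ok TF_l127 _)
              (CovZ.n1 (-6360, 15320) (by decide +kernel)
               (CovZ.leaf K2_ok TF_l128 _)
               (CovZ.leaf K2_ok TF_l129 _)))
             (CovZ.n1 (-6240, 15280) (by decide +kernel)
              (CovZ.leaf K2_ok TF_l130 _)
              (CovZ.leaf K2_ok TF_l131 _))))
           (CovZ.n1 (-6080, 15200) (by decide +kernel)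
            (CovZ.n2 (-6160, 15120) (by decide +kernel)
             (CovZ.leaf K2_ok TF_l8574 _)
             (CovZ.leaf K2_ok TF_l8575 _))
            (CovZ.leaf K2_ok TF_l132 _)))))
        (CovZ.subM 18014540243410944 (by decide +kernel)
         (CovZ.n1 (-5760, 15040) (by decide +kernel)
          (CovZ.n2 (-5920, 14880) (by decide +kernel)
           (CovZ.n2 (-5920, 15040) (by decide +kernel)
            (CovZ.leaf K2_ok TF_l8576 _)
            (CovZ.n1 (-6000, 14960) (by decide +kernel)
             (CovZ.leaf K2_ok TF_l8577 _)
             (CovZ.leaf K2_ok TF_l8578 _)))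
           (CovZ.n1 (-5760, 14880) (by decide +kernel)
            (CovZ.leaf K2_ok TF_l8579 _)
            (CovZ.leaf K2_ok TF_l8580 _)))
          (CovZ.n1 (-5920, 15200) (by decide +kernel)
           (CovZ.leaf K2_ok TF_l133 _)
           (CovZ.leaf K2_ok TF_l8581 _)))))))
     (CovZ.subM 170141183460469231731705318269012410368 (by decide +kernel)
      (CovZ.n1 (-7040, 14720) (by decide +kernel)
       (CovZ.n2 (-7040, 15360) (by decide +kernel)
        (CovZ.n2 (-6720, 15040) (by decide +kernel)
         (CovZ.badM (by decide +kernel))
         (CovZ.badM (by decide +kernel)))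
        (CovZ.n1 (-7360, 15040) (by decide +kernel)
         (CovZ.badM (by decide +kernel))
         (CovZ.n1 (-7040, 15040) (by decide +kernel)
          (CovZ.n2 (-7200, 14880) (by decide +kernel)
           (CovZ.badM (by decide +kernel))
           (CovZ.badM (by decide +kernel)))
          (CovZ.badM (by decide +kernel)))))
       (CovZ.n1 (-6400, 14720) (by decide +kernel)
        (CovZ.badM (by decide +kernel))
        (CovZ.n1 (-6720, 15040) (by decide +kernel)
         (CovZ.n2 (-6400, 15040) (by decide +kernel)
          (CovZ.badM (by decide +kernel))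
          (CovZ.badM (by decide +kernel)))
         (CovZ.badM (by decide +kernel)))))))))

theorem TF_s1_8 : SqZ TF_M TF_L [0, 7, 4, 3] (-7680) (-7680) 2560 1 8 :=
  SqZ.mk (a := (-5120)) (b := (-2560)) (c := 12800) (d := 15360) (by norm_num) (by norm_num) (by norm_num) (by norm_num)
    (CovZ.topM TF_LL 710509918007642355223826501089248053043200 (by decide +kernel) (CovZ.n2 (-3840, 14080) (by decide +kernel)
    (CovZ.n2 (-2560, 14080) (by decide +kernel)
     (CovZ.n2 (-3200, 13440) (by decide +kernel)
      (CovZ.leaf K2_ok TF_l720 _)
      (CovZ.leaf K2_ok TF_l721 _))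
     (CovZ.leaf K2_ok TF_l722 _))
    (CovZ.subM 335552204289853873593988409683091456 (by decide +kernel)
     (CovZ.n1 (-3840, 12800) (by decide +kernel)
      (CovZ.n2 (-4480, 13440) (by decide +kernel)
       (CovZ.n2 (-3840, 13440) (by decide +kernel)
        (CovZ.leaf K2_ok TF_l723 _)
        (CovZ.leaf K2_ok TF_l724 _))
       (CovZ.n1 (-4480, 12800) (by decide +kernel)
        (CovZ.n2 (-4800, 13120) (by decide +kernel)
         (CovZ.leaf K2_ok TF_l725 _)
         (CovZ.leaf K2_ok TF_l726 _))
        (CovZ.leaf K2_ok TF_l727 _)))
      (CovZ.leaf K2_ok TF_l728 _)))))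
    (CovZ.topM TF_LL 710509918007642355224416792396007131324416 (by decide +kernel) (CovZ.n0 (-3840, 14080) (by decide +kernel)
    (CovZ.n2 (-5120, 14080) (by decide +kernel)
     (CovZ.n2 (-4480, 14720) (by decide +kernel)
      (CovZ.n2 (-4480, 14080) (by decide +kernel)
       (CovZ.n2 (-4800, 14400) (by decide +kernel)
        (CovZ.leaf K2_ok TF_l729 _)
        (CovZ.leaf K2_ok TF_l730 _))
       (CovZ.leaf K2_ok TF_l731 _))
      (CovZ.n1 (-5120, 14720) (by decide +kernel)
       (CovZ.leaf K2_ok TF_l732 _)
       (CovZ.n1 (-4800, 14400) (by decide +kernel)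
        (CovZ.leaf K2_ok TF_l733 _)
        (CovZ.leaf K2_ok TF_l734 _))))
     (CovZ.subM 696898623006286263026855562133034498007040 (by decide +kernel)
      (CovZ.n1 (-4480, 13440) (by decide +kernel)
       (CovZ.subM 3245205343624895833916233469665280 (by decide +kernel)
        (CovZ.n2 (-5120, 13440) (by decide +kernel)
         (CovZ.n2 (-4800, 13760) (by decide +kernel)
          (CovZ.leaf K2_ok TF_l735 _)
          (CovZ.n1 (-5120, 13760) (by decide +kernel)
           (CovZ.leaf K2_ok TF_l736 _)
           (CovZ.leaf K2_ok TF_l737 _)))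
         (CovZ.n1 (-4800, 13120) (by decide +kernel)
          (CovZ.n2 (-5120, 13120) (by decide +kernel)
           (CovZ.leaf K2_ok TF_l738 _)
           (CovZ.n1 (-4960, 12960) (by decide +kernel)
            (CovZ.leaf K2_ok TF_l739 _)
            (CovZ.leaf K2_ok TF_l740 _)))
          (CovZ.n1 (-4800, 13440) (by decide +kernel)
           (CovZ.leaf K2_ok TF_l741 _)
           (CovZ.leaf K2_ok TF_l742 _)))))
       (CovZ.n1 (-4480, 14080) (by decide +kernel)
        (CovZ.leaf K2_ok TF_l743 _)
        (CovZ.n1 (-4800, 13760) (by decide +kernel)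
         (CovZ.n2 (-4800, 14080) (by decide +kernel)
          (CovZ.leaf K2_ok TF_l744 _)
          (CovZ.leaf K2_ok TF_l745 _))
         (CovZ.leaf K2_ok TF_l746 _))))))
    (CovZ.n1 (-3840, 15360) (by decide +kernel)
     (CovZ.n2 (-3200, 14720) (by decide +kernel)
      (CovZ.leaf K2_ok TF_l747 _)
      (CovZ.leaf K2_ok TF_l748 _))
     (CovZ.n1 (-4480, 14720) (by decide +kernel)
      (CovZ.n2 (-4480, 15360) (by decide +kernel)
       (CovZ.leaf K2_ok TF_l749 _)
       (CovZ.leaf K2_ok TF_l750 _))
      (CovZ.leaf K2_ok TF_l751 _)))))

theorem TF_s2_8 : SqZ TF_M TF_L [0, 7, 4, 3] (-7680) (-7680) 2560 2 8 :=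
  SqZ.mk (a := (-2560)) (b := 0) (c := 12800) (d := 15360) (by norm_num) (by norm_num) (by norm_num) (by norm_num)
    (CovZ.topM TF_LL 78945931973756521122686780241966848353304 (by decide +kernel) (CovZ.n2 (-1280, 14080) (by decide +kernel)
    (CovZ.leaf K2_ok TF_l1668 _)
    (CovZ.leaf K2_ok TF_l1669 _)))
    (CovZ.topM TF_LL 732288079058106800239779840776209978958864 (by decide +kernel) (CovZ.n0 (-1280, 14080) (by decide +kernel)
    (CovZ.leaf K2_ok TF_l1670 _)
    (CovZ.leaf K2_ok TF_l1671 _)))

theorem TF_s3_8 : SqZ TF_M TF_L [0, 7, 4, 3] (-7680) (-7680) 2560 3 8 :=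
  SqZ.mk (a := 0) (b := 2560) (c := 12800) (d := 15360) (by norm_num) (by norm_num) (by norm_num) (by norm_num)
    (CovZ.topM TF_LL 78945931994672833096654156294090178765850 (by decide +kernel) (CovZ.leaf K2_ok TF_l3434 _))
    (CovZ.topM TF_LL 78945931994672833096654156294090178765850 (by decide +kernel) (CovZ.leaf K2_ok TF_l3435 _))

theorem TF_s4_8 : SqZ TF_M TF_L [0, 7, 4, 3] (-7680) (-7680) 2560 4 8 :=
  SqZ.mk (a := 2560) (b := 5120) (c := 12800) (d := 15360) (by norm_num) (by norm_num) (by norm_num) (by norm_num)
    (CovZ.topM TF_LL 2855957238883091171339431773896548153623126106 (by decide +kernel) (CovZ.leaf K2_ok TF_l4330 _))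
    (CovZ.topM TF_LL 2855957238883091171339431737007563605831394394 (by decide +kernel) (CovZ.leaf K2_ok TF_l4331 _))

theorem TF_s5_8 : SqZ TF_M TF_L [0, 7, 4, 3] (-7680) (-7680) 2560 5 8 :=
  SqZ.mk (a := 5120) (b := 7680) (c := 12800) (d := 15360) (by norm_num) (by norm_num) (by norm_num) (by norm_num)
    (CovZ.topM TF_LL 2854563447619902376684193145978522857364332634 (by decide +kernel) (CovZ.leaf K2_ok TF_l4650 _))
    (CovZ.topM TF_LL 2854563447619902376684193145978522857364332634 (by decide +kernel) (CovZ.leaf K2_ok TF_l4651 _))

theorem TF_s6_8 : SqZ TF_M TF_L [0, 7, 4, 3] (-7680) (-7680) 2560 6 8 :=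
  SqZ.mk (a := 7680) (b := 10240) (c := 12800) (d := 15360) (by norm_num) (by norm_num) (by norm_num) (by norm_num)
    (CovZ.topM TF_LL 185542269474778935276590708597505933722564698203 (by decide +kernel) (CovZ.leaf K2_ok TF_l4830 _))
    (CovZ.topM TF_LL 2854564808416718260528555952889822506571014234 (by decide +kernel) (CovZ.leaf K2_ok TF_l4831 _))

theorem TF_s7_8 : SqZ TF_M TF_L [0, 7, 4, 3] (-7680) (-7680) 2560 7 8 :=
  SqZ.mk (a := 10240) (b := 12800) (c := 12800) (d := 15360) (by norm_num) (by norm_num) (by norm_num) (by norm_num)
    (CovZ.topM TF_LL 288482465757711783062316154839623862537111480411 (by decide +kernel) (CovZ.leaf K2_ok TF_l5075 _))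
    (CovZ.topM TF_LL 185542269477437391263827750205814435397413904475 (by decide +kernel) (CovZ.leaf K2_ok TF_l5076 _))

theorem TF_s8_8 : SqZ TF_M TF_L [0, 7, 4, 3] (-7680) (-7680) 2560 8 8 :=
  SqZ.mk (a := 12800) (b := 15360) (c := 12800) (d := 15360) (by norm_num) (by norm_num) (by norm_num) (by norm_num)
    (CovZ.topM TF_LL 288482465752311791794138732468901722094149068923 (by decide +kernel) (CovZ.leaf K2_ok TF_l5350 _))
    (CovZ.topM TF_LL 288482465752311791794138733649493343361316169851 (by decide +kernel) (CovZ.leaf K2_ok TF_l5351 _))

theorem TF_s9_8 : SqZ TF_M TF_L [0, 7, 4, 3] (-7680) (-7680) 2560 9 8 :=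
  SqZ.mk (a := 15360) (b := 17920) (c := 12800) (d := 15360) (by norm_num) (by norm_num) (by norm_num) (by norm_num)
    (CovZ.topM TF_LL 285627948588827080242715763226846551531547811947 (by decide +kernel) (CovZ.n2 (16640, 14080) (by decide +kernel)
    (CovZ.n2 (17920, 14080) (by decide +kernel)
     (CovZ.leaf K2_ok TF_l5716 _)
     (CovZ.leaf K2_ok TF_l5717 _))
    (CovZ.leaf K2_ok TF_l5718 _)))
    (CovZ.topM TF_LL 288482443974239000004832335165745541804313307243 (by decide +kernel) (CovZ.n0 (16640, 14080) (by decide +kernel)
    (CovZ.leaf K2_ok TF_l5719 _)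
    (CovZ.leaf K2_ok TF_l5720 _)))

theorem TF_s10_8 : SqZ TF_M TF_L [0, 7, 4, 3] (-7680) (-7680) 2560 10 8 :=
  SqZ.mk (a := 17920) (b := 20480) (c := 12800) (d := 15360) (by norm_num) (by norm_num) (by norm_num) (by norm_num)
    (CovZ.topM TF_LL 182866113395403796987882627459789433331567845448 (by decide +kernel) (CovZ.n2 (19200, 14080) (by decide +kernel)
    (CovZ.subM 178408729040932209946105512733417967997444160 (by decide +kernel)
     (CovZ.n2 (20480, 14080) (by decide +kernel)
      (CovZ.n2 (19840, 13440) (by decide +kernel)
       (CovZ.leaf K2_ok TF_l6173 _)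
       (CovZ.leaf K2_ok TF_l6174 _))
      (CovZ.n1 (19840, 14720) (by decide +kernel)
       (CovZ.n2 (20480, 14720) (by decide +kernel)
        (CovZ.leaf K2_ok TF_l6175 _)
        (CovZ.leaf K2_ok TF_l6176 _))
       (CovZ.leaf K2_ok TF_l6177 _))))
    (CovZ.leaf K2_ok TF_l6178 _)))
    (CovZ.topM TF_LL 274209967047179401194249475425133725858165448777 (by decide +kernel) (CovZ.n0 (19200, 14080) (by decide +kernel)
    (CovZ.leaf K2_ok TF_l6179 _)
    (CovZ.n1 (19200, 15360) (by decide +kernel)
     (CovZ.n2 (19840, 14720) (by decide +kernel)
      (CovZ.leaf K2_ok TF_l6180 _)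
      (CovZ.n1 (19840, 15360) (by decide +kernel)
       (CovZ.leaf K2_ok TF_l6181 _)
       (CovZ.leaf K2_ok TF_l6182 _)))
     (CovZ.leaf K2_ok TF_l6183 _))))

theorem TF_s11_8 : SqZ TF_M TF_L [0, 7, 4, 3] (-7680) (-7680) 2560 11 8 :=
  SqZ.mk (a := 20480) (b := 23040) (c := 12800) (d := 15360) (by norm_num) (by norm_num) (by norm_num) (by norm_num)
    (CovZ.topM TF_LL 178406006781996842438397805736558513851752448 (by decide +kernel) (CovZ.n2 (21760, 14080) (by decide +kernel)
    (CovZ.subM 178405964246700976702117491988801012608532480 (by decide +kernel)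
     (CovZ.n2 (23040, 14080) (by decide +kernel)
      (CovZ.n2 (22400, 13440) (by decide +kernel)
       (CovZ.n2 (22400, 14080) (by decide +kernel)
        (CovZ.badM (by decide +kernel))
        (CovZ.n1 (22080, 13760) (by decide +kernel)
         (CovZ.n2 (22080, 14080) (by decide +kernel)
          (CovZ.n2 (22240, 13920) (by decide +kernel)
           (CovZ.leaf K2_ok TF_l6654 _)
           (CovZ.n1 (22240, 14080) (by decide +kernel)
            (CovZ.badM (by decide +kernel))
            (CovZ.leaf K2_ok TF_l6656 _)))
          (CovZ.n1 (21920, 13920) (by decide +kernel)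
           (CovZ.leaf K2_ok TF_l6657 _)
           (CovZ.leaf K2_ok TF_l6658 _)))
         (CovZ.n1 (22400, 13760) (by decide +kernel)
          (CovZ.n2 (22240, 13600) (by decide +kernel)
           (CovZ.leaf K2_ok TF_l6659 _)
           (CovZ.badM (by decide +kernel)))
          (CovZ.n1 (22240, 13920) (by decide +kernel)
           (CovZ.badM (by decide +kernel))
           (CovZ.leaf K2_ok TF_l6663 _)))))
       (CovZ.badM (by decide +kernel)))
      (CovZ.n1 (22400, 14720) (by decide +kernel)
       (CovZ.badM (by decide +kernel))
       (CovZ.n1 (22400, 14080) (by decide +kernel)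
        (CovZ.n2 (22080, 14400) (by decide +kernel)
         (CovZ.n2 (22400, 14400) (by decide +kernel)
          (CovZ.n2 (22240, 14240) (by decide +kernel)
           (CovZ.n2 (22240, 14400) (by decide +kernel)
            (CovZ.n2 (22320, 14320) (by decide +kernel)
             (CovZ.n2 (22240, 14320) (by decide +kernel)
              (CovZ.n2 (22280, 14360) (by decide +kernel)
               (CovZ.leaf K2_ok TF_l14756 _)
               (CovZ.leaf K2_ok TF_l14757 _))
              (CovZ.n1 (22280, 14280) (by decide +kernel)
               (CovZ.leaf K2_ok TF_l14758 _)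
               (CovZ.n1 (22280, 14320) (by decide +kernel)
                (CovZ.leaf K2_ok TF_l14759 _)
                (CovZ.leaf K2_ok TF_l14760 _))))
             (CovZ.n1 (22320, 14400) (by decide +kernel)
              (CovZ.n2 (22360, 14360) (by decide +kernel)
               (CovZ.n2 (22320, 14360) (by decide +kernel)
                (CovZ.badM (by decide +kernel))
                (CovZ.badM (by decide +kernel)))
               (CovZ.badM (by decide +kernel)))
              (CovZ.n1 (22280, 14360) (by decide +kernel)
               (CovZ.n2 (22280, 14400) (by decide +kernel)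
                (CovZ.n2 (22300, 14380) (by decide +kernel)
                 (CovZ.leaf K2_ok TF_l14761 _)
                 (CovZ.badM (by decide +kernel)))
                (CovZ.n1 (22260, 14380) (by decide +kernel)
                 (CovZ.badM (by decide +kernel))
                 (CovZ.leaf K2_ok TF_l14762 _)))
               (CovZ.n1 (22320, 14360) (by decide +kernel)
                (CovZ.n2 (22300, 14340) (by decide +kernel)
                 (CovZ.leaf K2_ok TF_l14763 _)
                 (CovZ.leaf K2_ok TF_l14764 _))
                (CovZ.n1 (22300, 14380) (by decide +kernel)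
                 (CovZ.badM (by decide +kernel))
                 (CovZ.leaf K2_ok TF_l14765 _))))))
            (CovZ.n1 (22160, 14320) (by decide +kernel)
             (CovZ.n2 (22160, 14400) (by decide +kernel)
              (CovZ.n2 (22200, 14360) (by decide +kernel)
               (CovZ.leaf K2_ok TF_l14766 _)
               (CovZ.n1 (22200, 14400) (by decide +kernel)
                (CovZ.leaf K2_ok TF_l14767 _)
                (CovZ.leaf K2_ok TF_l14768 _)))
              (CovZ.leaf K2_ok TF_l14769 _))
             (CovZ.n1 (22240, 14320) (by decide +kernel)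
              (CovZ.leaf K2_ok TF_l14770 _)
              (CovZ.n1 (22200, 14360) (by decide +kernel)
               (CovZ.n2 (22240, 14360) (by decide +kernel)
                (CovZ.leaf K2_ok TF_l14771 _)
                (CovZ.leaf K2_ok TF_l14772 _))
               (CovZ.leaf K2_ok TF_l14773 _)))))
           (CovZ.n1 (22400, 14240) (by decide +kernel)
            (CovZ.n2 (22320, 14160) (by decide +kernel)
             (CovZ.n2 (22320, 14240) (by decide +kernel)
              (CovZ.badM (by decide +kernel))
              (CovZ.n1 (22280, 14200) (by decide +kernel)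
               (CovZ.leaf K2_ok TF_l14774 _)
               (CovZ.badM (by decide +kernel))))
             (CovZ.badM (by decide +kernel)))
            (CovZ.n1 (22320, 14320) (by decide +kernel)
             (CovZ.badM (by decide +kernel))
             (CovZ.n1 (22320, 14240) (by decide +kernel)
              (CovZ.n2 (22280, 14280) (by decide +kernel)
               (CovZ.n2 (22320, 14280) (by decide +kernel)
                (CovZ.leaf K2_ok TF_l14775 _)
                (CovZ.leaf K2_ok TF_l14776 _))
               (CovZ.leaf K2_ok TF_l14777 _))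
              (CovZ.badM (by decide +kernel))))))
          (CovZ.n1 (22240, 14560) (by decide +kernel)
           (CovZ.badM (by decide +kernel))
           (CovZ.n1 (22240, 14400) (by decide +kernel)
            (CovZ.n2 (22160, 14480) (by decide +kernel)
             (CovZ.badM (by decide +kernel))
             (CovZ.n1 (22160, 14400) (by decide +kernel)
              (CovZ.n2 (22120, 14440) (by decide +kernel)
               (CovZ.leaf K2_ok TF_l14778 _)
               (CovZ.leaf K2_ok TF_l14779 _))
              (CovZ.leaf K2_ok TF_l14780 _)))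
            (CovZ.badM (by decide +kernel)))))
         (CovZ.n1 (22080, 14080) (by decide +kernel)
          (CovZ.n2 (21920, 14240) (by decide +kernel)
           (CovZ.n2 (22080, 14240) (by decide +kernel)
            (CovZ.leaf K2_ok TF_l14781 _)
            (CovZ.n1 (22000, 14320) (by decide +kernel)
             (CovZ.leaf K2_ok TF_l14782 _)
             (CovZ.leaf K2_ok TF_l14783 _)))
           (CovZ.leaf K2_ok TF_l14784 _))
          (CovZ.n1 (22240, 14240) (by decide +kernel)
           (CovZ.n2 (22240, 14080) (by decide +kernel)
            (CovZ.n2 (22160, 14160) (by decide +kernel)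
             (CovZ.n2 (22240, 14160) (by decide +kernel)
              (CovZ.leaf K2_ok TF_l14785 _)
              (CovZ.leaf K2_ok TF_l14786 _))
             (CovZ.leaf K2_ok TF_l14787 _))
            (CovZ.leaf K2_ok TF_l14788 _))
           (CovZ.n1 (22080, 14240) (by decide +kernel)
            (CovZ.leaf K2_ok TF_l14789 _)
            (CovZ.n1 (22160, 14160) (by decide +kernel)
             (CovZ.leaf K2_ok TF_l14790 _)
             (CovZ.leaf K2_ok TF_l14791 _))))))
        (CovZ.n1 (22720, 14400) (by decide +kernel)
         (CovZ.badM (by decide +kernel))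
         (CovZ.n1 (22400, 14400) (by decide +kernel)
          (CovZ.badM (by decide +kernel))
          (CovZ.badM (by decide +kernel))))))))
    (CovZ.n1 (21760, 12800) (by decide +kernel)
     (CovZ.n2 (21120, 13440) (by decide +kernel)
      (CovZ.n2 (21760, 13440) (by decide +kernel)
       (CovZ.leaf K2_ok TF_l6664 _)
       (CovZ.n1 (21440, 13760) (by decide +kernel)
        (CovZ.n2 (21760, 13760) (by decide +kernel)
         (CovZ.leaf K2_ok TF_l6665 _)
         (CovZ.leaf K2_ok TF_l6666 _))
        (CovZ.leaf K2_ok TF_l6667 _)))
      (CovZ.leaf K2_ok TF_l6668 _))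
     (CovZ.n1 (22400, 13440) (by decide +kernel)
      (CovZ.n2 (22400, 12800) (by decide +kernel)
       (CovZ.n2 (22080, 13120) (by decide +kernel)
        (CovZ.n2 (22400, 13120) (by decide +kernel)
         (CovZ.leaf K2_ok TF_l14792 _)
         (CovZ.leaf K2_ok TF_l14793 _))
        (CovZ.leaf K2_ok TF_l6669 _))
       (CovZ.subM 178405961588244985132288107364428326870466560 (by decide +kernel)
        (CovZ.n1 (22720, 13120) (by decide +kernel)
         (CovZ.n2 (22720, 12800) (by decide +kernel)
          (CovZ.leaf K2_ok TF_l14794 _)
          (CovZ.leaf K2_ok TF_l14795 _))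
         (CovZ.n1 (22400, 13120) (by decide +kernel)
          (CovZ.leaf K2_ok TF_l14796 _)
          (CovZ.leaf K2_ok TF_l14797 _)))))
      (CovZ.n1 (21760, 13440) (by decide +kernel)
       (CovZ.n2 (22080, 13760) (by decide +kernel)
        (CovZ.leaf K2_ok TF_l6670 _)
        (CovZ.leaf K2_ok TF_l6671 _))
       (CovZ.n1 (22080, 13120) (by decide +kernel)
        (CovZ.leaf K2_ok TF_l6672 _)
        (CovZ.n1 (22080, 13440) (by decide +kernel)
         (CovZ.leaf K2_ok TF_l14798 _)
         (CovZ.leaf K2_ok TF_l14799 _))))))))
    (CovZ.topM TF_LL 178408729040932209946105512733417967997444160 (by decide +kernel) (CovZ.n0 (21760, 14080) (by decide +kernel)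
    (CovZ.n2 (20480, 14080) (by decide +kernel)
     (CovZ.n2 (21120, 14720) (by decide +kernel)
      (CovZ.n2 (21120, 14080) (by decide +kernel)
       (CovZ.n2 (20800, 14400) (by decide +kernel)
        (CovZ.leaf K2_ok TF_l6673 _)
        (CovZ.leaf K2_ok TF_l6674 _))
       (CovZ.leaf K2_ok TF_l6675 _))
      (CovZ.n1 (20480, 14720) (by decide +kernel)
       (CovZ.leaf K2_ok TF_l6676 _)
       (CovZ.n1 (20800, 14400) (by decide +kernel)
        (CovZ.leaf K2_ok TF_l6677 _)
        (CovZ.leaf K2_ok TF_l6678 _))))
     (CovZ.n1 (21120, 13440) (by decide +kernel)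
      (CovZ.leaf K2_ok TF_l6679 _)
      (CovZ.n1 (21120, 14080) (by decide +kernel)
       (CovZ.n2 (21440, 13760) (by decide +kernel)
        (CovZ.leaf K2_ok TF_l6680 _)
        (CovZ.n1 (21440, 14080) (by decide +kernel)
         (CovZ.leaf K2_ok TF_l6681 _)
         (CovZ.leaf K2_ok TF_l6682 _)))
       (CovZ.leaf K2_ok TF_l6683 _))))
    TF_u104))

theorem TF_s12_8 : SqZ TF_M TF_L [0, 7, 4, 3] (-7680) (-7680) 2560 12 8 :=
  SqZ.mk (a := 23040) (b := 25600) (c := 12800) (d := 15360) (by norm_num) (by norm_num) (by norm_num) (by norm_num)
    (CovZ.topM TF_LL 0 (by decide +kernel) (CovZ.badM (by decide +kernel)))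
    (CovZ.topM TF_LL 0 (by decide +kernel) (CovZ.badM (by decide +kernel)))

theorem TF_s13_8 : SqZ TF_M TF_L [0, 7, 4, 3] (-7680) (-7680) 2560 13 8 :=
  SqZ.mk (a := 25600) (b := 28160) (c := 12800) (d := 15360) (by norm_num) (by norm_num) (by norm_num) (by norm_num)
    (CovZ.topM TF_LL 151115727451828646838272 (by decide +kernel) (CovZ.n2 (26880, 14080) (by decide +kernel)
    (CovZ.n2 (28160, 14080) (by decide +kernel)
     (CovZ.badM (by decide +kernel))
     (CovZ.badM (by decide +kernel)))
    (CovZ.badM (by decide +kernel))))
    (CovZ.topM TF_LL 0 (by decide +kernel) (CovZ.badM (by decide +kernel)))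

theorem TF_s14_8 : SqZ TF_M TF_L [0, 7, 4, 3] (-7680) (-7680) 2560 14 8 :=
  SqZ.mk (a := 28160) (b := 30720) (c := 12800) (d := 15360) (by norm_num) (by norm_num) (by norm_num) (by norm_num)
    (CovZ.topM TF_LL 0 (by decide +kernel) (CovZ.badM (by decide +kernel)))
    (CovZ.topM TF_LL 151115727451828646838272 (by decide +kernel) (CovZ.n0 (29440, 14080) (by decide +kernel)
    (CovZ.n2 (28160, 14080) (by decide +kernel)
     (CovZ.n2 (28800, 14720) (by decide +kernel)
      (CovZ.badM (by decide +kernel))
      (CovZ.badM (by decide +kernel)))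
     (CovZ.badM (by decide +kernel)))
    (CovZ.n1 (29440, 15360) (by decide +kernel)
     (CovZ.badM (by decide +kernel))
     (CovZ.n1 (28800, 14720) (by decide +kernel)
      (CovZ.badM (by decide +kernel))
      (CovZ.badM (by decide +kernel))))))

theorem TF_s15_8 : SqZ TF_M TF_L [0, 7, 4, 3] (-7680) (-7680) 2560 15 8 :=
  SqZ.mk (a := 30720) (b := 33280) (c := 12800) (d := 15360) (by norm_num) (by norm_num) (by norm_num) (by norm_num)
    (CovZ.topM TF_LL 0 (by decide +kernel) (CovZ.badM (by decide +kernel)))
    (CovZ.topM TF_LL 0 (by decide +kernel) (CovZ.badM (by decide +kernel)))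

theorem TF_s0_9 : SqZ TF_M TF_L [0, 7, 4, 3] (-7680) (-7680) 2560 0 9 :=
  SqZ.mk (a := (-7680)) (b := (-5120)) (c := 15360) (d := 17920) (by norm_num) (by norm_num) (by norm_num) (by norm_num)
    (CovZ.topM TF_LL 710702321163863985488377700921286607249408 (by decide +kernel) (CovZ.n2 (-6400, 16640) (by decide +kernel)
    TF_u107
    TF_u108))
    (CovZ.topM TF_LL 710702321163863985488377700921286607249408 (by decide +kernel) (CovZ.n0 (-6400, 16640) (by decide +kernel)
    (CovZ.subM 21267647932558653966460912964485513216 (by decide +kernel)
     (CovZ.n2 (-7680, 16640) (by decide +kernel)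
      (CovZ.n2 (-7040, 17280) (by decide +kernel)
       (CovZ.n2 (-7040, 16640) (by decide +kernel)
        (CovZ.badM (by decide +kernel))
        (CovZ.n1 (-6720, 16960) (by decide +kernel)
         (CovZ.n2 (-6720, 16640) (by decide +kernel)
          (CovZ.badM (by decide +kernel))
          (CovZ.badM (by decide +kernel)))
         (CovZ.badM (by decide +kernel))))
       (CovZ.badM (by decide +kernel)))
      (CovZ.n1 (-7040, 16000) (by decide +kernel)
       (CovZ.badM (by decide +kernel))
       (CovZ.n1 (-7040, 16640) (by decide +kernel)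
        (CovZ.n2 (-6720, 16320) (by decide +kernel)
         (CovZ.badM (by decide +kernel))
         (CovZ.n1 (-6720, 16640) (by decide +kernel)
          (CovZ.badM (by decide +kernel))
          (CovZ.badM (by decide +kernel))))
        (CovZ.badM (by decide +kernel))))))
    (CovZ.n1 (-6400, 17920) (by decide +kernel)
     (CovZ.n2 (-5760, 17280) (by decide +kernel)
      (CovZ.subM 649037107316853453566473102434304 (by decide +kernel)
       (CovZ.n2 (-6400, 17280) (by decide +kernel)
        TF_u109
        TF_u110))
      (CovZ.n1 (-5760, 17920) (by decide +kernel)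
       (CovZ.n2 (-5440, 17600) (by decide +kernel)
        (CovZ.n2 (-5760, 17600) (by decide +kernel)
         (CovZ.leaf K2_ok TF_l372 _)
         (CovZ.n1 (-5600, 17440) (by decide +kernel)
          (CovZ.leaf K2_ok TF_l373 _)
          (CovZ.leaf K2_ok TF_l374 _)))
        (CovZ.n1 (-5440, 17920) (by decide +kernel)
         (CovZ.leaf K2_ok TF_l375 _)
         (CovZ.n1 (-5600, 17760) (by decide +kernel)
          (CovZ.leaf K2_ok TF_l376 _)
          (CovZ.leaf K2_ok TF_l377 _))))
       (CovZ.n1 (-6080, 17600) (by decide +kernel)
        (CovZ.subM 707787324169107664979099652037937125654528 (by decide +kernel)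
         (CovZ.n2 (-6080, 17920) (by decide +kernel)
          (CovZ.n2 (-5920, 17760) (by decide +kernel)
           (CovZ.subM 10889035741470030830827987437831615152128 (by decide +kernel)
            (CovZ.n2 (-6080, 17760) (by decide +kernel)
             (CovZ.n2 (-6000, 17840) (by decide +kernel)
              (CovZ.n2 (-6000, 17760) (by decide +kernel)
               (CovZ.n2 (-6040, 17800) (by decide +kernel)
                (CovZ.leaf K2_ok TF_l378 _)
                (CovZ.leaf K2_ok TF_l379 _))
               (CovZ.leaf K2_ok TF_l380 _))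
              (CovZ.n1 (-6080, 17840) (by decide +kernel)
               (CovZ.leaf K2_ok TF_l381 _)
               (CovZ.n1 (-6040, 17800) (by decide +kernel)
                (CovZ.leaf K2_ok TF_l8760 _)
                (CovZ.leaf K2_ok TF_l382 _))))
             (CovZ.n1 (-6000, 17680) (by decide +kernel)
              (CovZ.n2 (-6080, 17680) (by decide +kernel)
               (CovZ.leaf K2_ok TF_l383 _)
               (CovZ.n1 (-6040, 17640) (by decide +kernel)
                (CovZ.leaf K2_ok TF_l384 _)
                (CovZ.leaf K2_ok TF_l385 _)))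
              (CovZ.n1 (-6000, 17760) (by decide +kernel)
               (CovZ.leaf K2_ok TF_l386 _)
               (CovZ.leaf K2_ok TF_l387 _)))))
           (CovZ.n1 (-5920, 17920) (by decide +kernel)
            (CovZ.n2 (-5840, 17840) (by decide +kernel)
             (CovZ.leaf K2_ok TF_l388 _)
             (CovZ.leaf K2_ok TF_l389 _))
            (CovZ.subM 10889035741470030830827987437831615152128 (by decide +kernel)
             (CovZ.n1 (-6000, 17840) (by decide +kernel)
              (CovZ.n2 (-6000, 17920) (by decide +kernel)
               (CovZ.leaf K2_ok TF_l390 _)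
               (CovZ.n1 (-6040, 17880) (by decide +kernel)
                (CovZ.leaf K2_ok TF_l391 _)
                (CovZ.leaf K2_ok TF_l392 _)))
              (CovZ.n1 (-5920, 17840) (by decide +kernel)
               (CovZ.leaf K2_ok TF_l393 _)
               (CovZ.leaf K2_ok TF_l394 _))))))
          (CovZ.subM 10889035741470030830827987437827320184832 (by decide +kernel)
           (CovZ.n1 (-6240, 17760) (by decide +kernel)
            (CovZ.n2 (-6240, 17920) (by decide +kernel)
             (CovZ.n2 (-6160, 17840) (by decide +kernel)
              (CovZ.badM (by decide +kernel))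
              (CovZ.n1 (-6160, 17920) (by decide +kernel)
               (CovZ.n2 (-6120, 17880) (by decide +kernel)
                (CovZ.n2 (-6160, 17880) (by decide +kernel)
                 (CovZ.n2 (-6140, 17900) (by decide +kernel)
                  (CovZ.leaf K2_ok TF_l8761 _)
                  (CovZ.badM (by decide +kernel)))
                 (CovZ.n1 (-6140, 17860) (by decide +kernel)
                  (CovZ.badM (by decide +kernel))
                  (CovZ.n1 (-6140, 17880) (by decide +kernel)
                   (CovZ.leaf K2_ok TF_l8762 _)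
                   (CovZ.badM (by decide +kernel)))))
                (CovZ.n1 (-6120, 17920) (by decide +kernel)
                 (CovZ.leaf K2_ok TF_l8763 _)
                 (CovZ.n1 (-6140, 17900) (by decide +kernel)
                  (CovZ.n2 (-6140, 17920) (by decide +kernel)
                   (CovZ.leaf K2_ok TF_l8764 _)
                   (CovZ.badM (by decide +kernel)))
                  (CovZ.leaf K2_ok TF_l8765 _))))
               (CovZ.badM (by decide +kernel))))
             (CovZ.badM (by decide +kernel)))
            (CovZ.n1 (-6080, 17760) (by decide +kernel)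
             (CovZ.n2 (-6160, 17680) (by decide +kernel)
              (CovZ.n2 (-6160, 17760) (by decide +kernel)
               (CovZ.n2 (-6120, 17720) (by decide +kernel)
                (CovZ.badM (by decide +kernel))
                (CovZ.n1 (-6120, 17760) (by decide +kernel)
                 (CovZ.leaf K2_ok TF_l8766 _)
                 (CovZ.badM (by decide +kernel))))
               (CovZ.badM (by decide +kernel)))
              (CovZ.n1 (-6080, 17680) (by decide +kernel)
               (CovZ.n2 (-6120, 17640) (by decide +kernel)
                (CovZ.n2 (-6120, 17680) (by decide +kernel)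
                 (CovZ.leaf K2_ok TF_l8767 _)
                 (CovZ.badM (by decide +kernel)))
                (CovZ.n1 (-6080, 17640) (by decide +kernel)
                 (CovZ.leaf K2_ok TF_l8768 _)
                 (CovZ.leaf K2_ok TF_l8769 _)))
               (CovZ.n1 (-6120, 17720) (by decide +kernel)
                (CovZ.n2 (-6080, 17720) (by decide +kernel)
                 (CovZ.leaf K2_ok TF_l8770 _)
                 (CovZ.leaf K2_ok TF_l8771 _))
                (CovZ.n1 (-6120, 17680) (by decide +kernel)
                 (CovZ.badM (by decide +kernel))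
                 (CovZ.leaf K2_ok TF_l8772 _)))))
             (CovZ.n1 (-6160, 17840) (by decide +kernel)
              (CovZ.n2 (-6080, 17840) (by decide +kernel)
               (CovZ.n2 (-6120, 17800) (by decide +kernel)
                (CovZ.n2 (-6120, 17840) (by decide +kernel)
                 (CovZ.leaf K2_ok TF_l8773 _)
                 (CovZ.n1 (-6140, 17820) (by decide +kernel)
                  (CovZ.n2 (-6140, 17840) (by decide +kernel)
                   (CovZ.leaf K2_ok TF_l8774 _)
                   (CovZ.badM (by decide +kernel)))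
                  (CovZ.leaf K2_ok TF_l8775 _)))
                (CovZ.n1 (-6080, 17800) (by decide +kernel)
                 (CovZ.leaf K2_ok TF_l8776 _)
                 (CovZ.leaf K2_ok TF_l8777 _)))
               (CovZ.n1 (-6120, 17880) (by decide +kernel)
                (CovZ.n2 (-6080, 17880) (by decide +kernel)
                 (CovZ.leaf K2_ok TF_l8778 _)
                 (CovZ.leaf K2_ok TF_l8779 _))
                (CovZ.n1 (-6120, 17840) (by decide +kernel)
                 (CovZ.n2 (-6140, 17860) (by decide +kernel)
                  (CovZ.leaf K2_ok TF_l8780 _)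
                  (CovZ.leaf K2_ok TF_l8781 _))
                 (CovZ.leaf K2_ok TF_l8782 _))))
              (CovZ.n1 (-6160, 17760) (by decide +kernel)
               (CovZ.badM (by decide +kernel))
               (CovZ.n1 (-6120, 17800) (by decide +kernel)
                (CovZ.n2 (-6120, 17760) (by decide +kernel)
                 (CovZ.badM (by decide +kernel))
                 (CovZ.leaf K2_ok TF_l8783 _))
                (CovZ.badM (by decide +kernel))))))))))
        (CovZ.n1 (-5760, 17600) (by decide +kernel)
         (CovZ.subM 10889036390507138147681441004298275127296 (by decide +kernel)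
          (CovZ.n2 (-5920, 17440) (by decide +kernel)
           (CovZ.n2 (-5920, 17600) (by decide +kernel)
            (CovZ.leaf K2_ok TF_l395 _)
            (CovZ.n1 (-6000, 17520) (by decide +kernel)
             (CovZ.n2 (-6000, 17600) (by decide +kernel)
              (CovZ.leaf K2_ok TF_l396 _)
              (CovZ.leaf K2_ok TF_l397 _))
             (CovZ.leaf K2_ok TF_l398 _)))
           (CovZ.n1 (-5760, 17440) (by decide +kernel)
            (CovZ.leaf K2_ok TF_l399 _)
            (CovZ.leaf K2_ok TF_l400 _))))
         (CovZ.subM 707787324169107664979099652038074564608000 (by decide +kernel)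
          (CovZ.n1 (-5920, 17760) (by decide +kernel)
           (CovZ.n2 (-5760, 17760) (by decide +kernel)
            (CovZ.leaf K2_ok TF_l401 _)
            (CovZ.n1 (-5840, 17840) (by decide +kernel)
             (CovZ.leaf K2_ok TF_l402 _)
             (CovZ.leaf K2_ok TF_l403 _)))
           (CovZ.n1 (-5920, 17600) (by decide +kernel)
            (CovZ.subM 10889035741470030830827987437969054105600 (by decide +kernel)
             (CovZ.n2 (-6000, 17680) (by decide +kernel)
              (CovZ.n2 (-5920, 17680) (by decide +kernel)
               (CovZ.leaf K2_ok TF_l404 _)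
               (CovZ.leaf K2_ok TF_l405 _))
              (CovZ.n1 (-6000, 17600) (by decide +kernel)
               (CovZ.n2 (-6040, 17640) (by decide +kernel)
                (CovZ.leaf K2_ok TF_l406 _)
                (CovZ.leaf K2_ok TF_l407 _))
               (CovZ.leaf K2_ok TF_l408 _))))
            (CovZ.leaf K2_ok TF_l409 _))))))))
     (CovZ.badM (by decide +kernel)))))

theorem TF_s1_9 : SqZ TF_M TF_L [0, 7, 4, 3] (-7680) (-7680) 2560 1 9 :=
  SqZ.mk (a := (-5120)) (b := (-2560)) (c := 15360) (d := 17920) (by norm_num) (by norm_num) (by norm_num) (by norm_num)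
    (CovZ.topM TF_LL 710509923199941689677101905817363980230656 (by decide +kernel) (CovZ.n2 (-3840, 16640) (by decide +kernel)
    (CovZ.n2 (-2560, 16640) (by decide +kernel)
     (CovZ.leaf K2_ok TF_l752 _)
     (CovZ.leaf K2_ok TF_l753 _))
    (CovZ.n1 (-3840, 15360) (by decide +kernel)
     (CovZ.n2 (-4480, 16000) (by decide +kernel)
      (CovZ.leaf K2_ok TF_l754 _)
      (CovZ.leaf K2_ok TF_l755 _))
     (CovZ.leaf K2_ok TF_l756 _))))
    (CovZ.topM TF_LL 710511252427937474592974809624424260575232 (by decide +kernel) (CovZ.n0 (-3840, 16640) (by decide +kernel)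
    (CovZ.n2 (-5120, 16640) (by decide +kernel)
     (CovZ.n2 (-4480, 17280) (by decide +kernel)
      (CovZ.n2 (-4480, 16640) (by decide +kernel)
       (CovZ.n2 (-4800, 16960) (by decide +kernel)
        (CovZ.leaf K2_ok TF_l757 _)
        (CovZ.leaf K2_ok TF_l758 _))
       (CovZ.leaf K2_ok TF_l759 _))
      (CovZ.n1 (-5120, 17280) (by decide +kernel)
       (CovZ.leaf K2_ok TF_l760 _)
       (CovZ.n1 (-4800, 16960) (by decide +kernel)
        (CovZ.leaf K2_ok TF_l761 _)
        (CovZ.leaf K2_ok TF_l762 _))))
     (CovZ.n1 (-4480, 16000) (by decide +kernel)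
      (CovZ.n2 (-5120, 16000) (by decide +kernel)
       (CovZ.leaf K2_ok TF_l763 _)
       (CovZ.leaf K2_ok TF_l764 _))
      (CovZ.n1 (-4480, 16640) (by decide +kernel)
       (CovZ.leaf K2_ok TF_l765 _)
       (CovZ.leaf K2_ok TF_l766 _))))
    (CovZ.n1 (-3840, 17920) (by decide +kernel)
     (CovZ.n2 (-3200, 17280) (by decide +kernel)
      (CovZ.leaf K2_ok TF_l767 _)
      (CovZ.leaf K2_ok TF_l768 _))
     (CovZ.n1 (-4480, 17280) (by decide +kernel)
      (CovZ.n2 (-4480, 17920) (by decide +kernel)
       (CovZ.leaf K2_ok TF_l769 _)
       (CovZ.leaf K2_ok TF_l770 _))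
      (CovZ.leaf K2_ok TF_l771 _)))))

theorem TF_s2_9 : SqZ TF_M TF_L [0, 7, 4, 3] (-7680) (-7680) 2560 2 9 :=
  SqZ.mk (a := (-2560)) (b := 0) (c := 15360) (d := 17920) (by norm_num) (by norm_num) (by norm_num) (by norm_num)
    (CovZ.topM TF_LL 732288079058740625237662482558629864088592 (by decide +kernel) (CovZ.n2 (-1280, 16640) (by decide +kernel)
    (CovZ.leaf K2_ok TF_l1672 _)
    (CovZ.leaf K2_ok TF_l1673 _)))
    (CovZ.topM TF_LL 732288079058735673478095636847888973243408 (by decide +kernel) (CovZ.n0 (-1280, 16640) (by decide +kernel)
    (CovZ.leaf K2_ok TF_l1674 _)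
    (CovZ.n1 (-1280, 17920) (by decide +kernel)
     (CovZ.leaf K2_ok TF_l1675 _)
     (CovZ.leaf K2_ok TF_l1676 _))))

theorem TF_s3_9 : SqZ TF_M TF_L [0, 7, 4, 3] (-7680) (-7680) 2560 3 9 :=
  SqZ.mk (a := 0) (b := 2560) (c := 15360) (d := 17920) (by norm_num) (by norm_num) (by norm_num) (by norm_num)
    (CovZ.topM TF_LL 775844222044903235537059166579326910014482 (by decide +kernel) (CovZ.leaf K2_ok TF_l3436 _))
    (CovZ.topM TF_LL 775844222024620825933407478140981149246482 (by decide +kernel) (CovZ.leaf K2_ok TF_l3437 _))

theorem TF_s4_9 : SqZ TF_M TF_L [0, 7, 4, 3] (-7680) (-7680) 2560 4 9 :=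
  SqZ.mk (a := 2560) (b := 5120) (c := 15360) (d := 17920) (by norm_num) (by norm_num) (by norm_num) (by norm_num)
    (CovZ.topM TF_LL 2856654137165352956454069900575053095921329234 (by decide +kernel) (CovZ.n2 (3840, 16640) (by decide +kernel)
    (CovZ.leaf K2_ok TF_l4332 _)
    (CovZ.leaf K2_ok TF_l4333 _)))
    (CovZ.topM TF_LL 2855260340590444792507723918183012573327205394 (by decide +kernel) (CovZ.n0 (3840, 16640) (by decide +kernel)
    (CovZ.leaf K2_ok TF_l4334 _)
    (CovZ.leaf K2_ok TF_l4335 _)))

theorem TF_s5_9 : SqZ TF_M TF_L [0, 7, 4, 3] (-7680) (-7680) 2560 5 9 :=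
  SqZ.mk (a := 5120) (b := 7680) (c := 15360) (d := 17920) (by norm_num) (by norm_num) (by norm_num) (by norm_num)
    (CovZ.topM TF_LL 2854737666916067770352443096463760496180396122 (by decide +kernel) (CovZ.leaf K2_ok TF_l4652 _))
    (CovZ.topM TF_LL 2856828361778430016271962033162832334233337938 (by decide +kernel) (CovZ.leaf K2_ok TF_l4653 _))

theorem TF_s6_9 : SqZ TF_M TF_L [0, 7, 4, 3] (-7680) (-7680) 2560 6 9 :=
  SqZ.mk (a := 7680) (b := 10240) (c := 15360) (d := 17920) (by norm_num) (by norm_num) (by norm_num) (by norm_num)
    (CovZ.topM TF_LL 2854739027671669797882185709073599330773893210 (by decide +kernel) (CovZ.leaf K2_ok TF_l4832 _))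
    (CovZ.topM TF_LL 2854737666542202114128331855539140806648528986 (by decide +kernel) (CovZ.leaf K2_ok TF_l4833 _))

theorem TF_s7_9 : SqZ TF_M TF_L [0, 7, 4, 3] (-7680) (-7680) 2560 7 9 :=
  SqZ.mk (a := 10240) (b := 12800) (c := 15360) (d := 17920) (by norm_num) (by norm_num) (by norm_num) (by norm_num)
    (CovZ.topM TF_LL 185542443696609915087933169553464370078789140571 (by decide +kernel) (CovZ.leaf K2_ok TF_l5077 _))
    (CovZ.topM TF_LL 2854739030247049034763700055322634956716376154 (by decide +kernel) (CovZ.leaf K2_ok TF_l5078 _))

theorem TF_s8_9 : SqZ TF_M TF_L [0, 7, 4, 3] (-7680) (-7680) 2560 8 9 :=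
  SqZ.mk (a := 12800) (b := 15360) (c := 15360) (d := 17920) (by norm_num) (by norm_num) (by norm_num) (by norm_num)
    (CovZ.topM TF_LL 288482618198811522703018778253782256422461900907 (by decide +kernel) (CovZ.n2 (14080, 16640) (by decide +kernel)
    (CovZ.leaf K2_ok TF_l5352 _)
    (CovZ.leaf K2_ok TF_l5353 _)))
    (CovZ.topM TF_LL 276886230695575599947129067799428224669610672235 (by decide +kernel) (CovZ.n0 (14080, 16640) (by decide +kernel)
    (CovZ.leaf K2_ok TF_l5354 _)
    (CovZ.n1 (14080, 17920) (by decide +kernel)
     (CovZ.leaf K2_ok TF_l5355 _)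
     (CovZ.leaf K2_ok TF_l5356 _))))

theorem TF_s9_9 : SqZ TF_M TF_L [0, 7, 4, 3] (-7680) (-7680) 2560 9 9 :=
  SqZ.mk (a := 15360) (b := 17920) (c := 15360) (d := 17920) (by norm_num) (by norm_num) (by norm_num) (by norm_num)
    (CovZ.topM TF_LL 288482443974239649041320681962662925433405720681 (by decide +kernel) (CovZ.n2 (16640, 16640) (by decide +kernel)
    (CovZ.n2 (17920, 16640) (by decide +kernel)
     (CovZ.leaf K2_ok TF_l5721 _)
     (CovZ.n1 (17280, 17280) (by decide +kernel)
      (CovZ.n2 (17920, 17280) (by decide +kernel)
       (CovZ.leaf K2_ok TF_l5722 _)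
       (CovZ.leaf K2_ok TF_l5723 _))
      (CovZ.leaf K2_ok TF_l5724 _)))
    (CovZ.leaf K2_ok TF_l5725 _)))
    (CovZ.topM TF_LL 288482443974239649041320683143254546700572821609 (by decide +kernel) (CovZ.n0 (16640, 16640) (by decide +kernel)
    (CovZ.leaf K2_ok TF_l5726 _)
    (CovZ.n1 (16640, 17920) (by decide +kernel)
     (CovZ.n2 (17280, 17280) (by decide +kernel)
      (CovZ.leaf K2_ok TF_l5727 _)
      (CovZ.n1 (17280, 17920) (by decide +kernel)
       (CovZ.leaf K2_ok TF_l5728 _)
       (CovZ.leaf K2_ok TF_l5729 _)))
     (CovZ.leaf K2_ok TF_l5730 _))))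

end Pool.Agent.TET
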