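import Pool.Agent.Helper38_TET.TF_M
import Pool.Agent.Helper38_TET.TF_L
import Pool.Agent.Helper38_TET.TF_3
import Pool.Agent.Helper38_TET.TF_5
import Pool.Agent.Helper38_TET.TF_6
import Pool.Agent.Helper38_TET.TF_36
import Pool.Agent.Helper38_TET.TF_38
import Pool.Agent.Helper38_TET.TF_39
import Pool.Agent.Helper38_TET.TF_61
import Pool.Agent.Helper38_TET.TF_62
import Pool.Agent.Helper38_TET.TF_63
import Pool.Agent.Helper38_TET.TF_64
import Pool.Agent.Helper38_TET.TF_65
import Pool.Agent.Helper38_TET.TF_66
import Pool.Agent.Helper38_TET.TF_92
import Pool.Agent.Helper38_TET.TF_95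
import Pool.Agent.Helper38_TET.TF_96
import Pool.Agent.Helper38_TET.TF_108

/-!
# MP_c7c9bf_co: certificates, family TF
-/

set_option autoImplicit false
set_option maxRecDepth 100000

namespace Pool.Agent.TET

theorem TF_u119 : CovZ TF_M (toL (selN TF_LN 276886052387614674197062056486778410061933838409)) [0, 7, 4, 3] (17920, 20480) (16640, 20480) (16640, 19200) :=
    (CovZ.subM 276886052384956218195433960741185460489332719624 (by decide +kernel)
      (CovZ.n2 (17280, 19840) (by decide +kernel)
       (CovZ.n2 (16640, 19840) (by decide +kernel)
        (CovZ.subM 182687704666362866043111206678948020388517380096 (by decide +kernel)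
         (CovZ.n2 (16960, 20160) (by decide +kernel)
          (CovZ.n2 (16960, 19840) (by decide +kernel)
           (CovZ.n2 (16800, 20000) (by decide +kernel)
            (CovZ.n2 (16960, 20000) (by decide +kernel)
             (CovZ.n2 (16880, 19920) (by decide +kernel)
              (CovZ.n2 (16880, 20000) (by decide +kernel)
               (CovZ.n2 (16920, 19960) (by decide +kernel)
                (CovZ.leaf K2_ok TF_l14213 _)
                (CovZ.badM (by decide +kernel)))
               (CovZ.n1 (16840, 19960) (by decide +kernel)
                (CovZ.leaf K2_ok TF_l14214 _)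
                (CovZ.leaf K2_ok TF_l14215 _)))
              (CovZ.n1 (16960, 19920) (by decide +kernel)
               (CovZ.n2 (16920, 19880) (by decide +kernel)
                (CovZ.leaf K2_ok TF_l14216 _)
                (CovZ.leaf K2_ok TF_l14217 _))
               (CovZ.n1 (16920, 19960) (by decide +kernel)
                (CovZ.badM (by decide +kernel))
                (CovZ.leaf K2_ok TF_l14218 _))))
             (CovZ.n1 (16880, 20080) (by decide +kernel)
              (CovZ.badM (by decide +kernel))
              (CovZ.n1 (16880, 20000) (by decide +kernel)
               (CovZ.n2 (16840, 20040) (by decide +kernel)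
                (CovZ.badM (by decide +kernel))
                (CovZ.leaf K2_ok TF_l14219 _))
               (CovZ.badM (by decide +kernel)))))
            (CovZ.n1 (16800, 19840) (by decide +kernel)
             (CovZ.n2 (16720, 19920) (by decide +kernel)
              (CovZ.leaf K2_ok TF_l14220 _)
              (CovZ.leaf K2_ok TF_l5812 _))
             (CovZ.leaf K2_ok TF_l14221 _)))
           (CovZ.n1 (17120, 20000) (by decide +kernel)
            (CovZ.n2 (17120, 19840) (by decide +kernel)
             (CovZ.n2 (17040, 19920) (by decide +kernel)
              (CovZ.badM (by decide +kernel))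
              (CovZ.n1 (17040, 19840) (by decide +kernel)
               (CovZ.n2 (17000, 19880) (by decide +kernel)
                (CovZ.badM (by decide +kernel))
                (CovZ.leaf K2_ok TF_l14222 _))
               (CovZ.badM (by decide +kernel))))
             (CovZ.badM (by decide +kernel)))
            (CovZ.n1 (16960, 20000) (by decide +kernel)
             (CovZ.badM (by decide +kernel))
             (CovZ.n1 (17040, 19920) (by decide +kernel)
              (CovZ.n2 (16960, 19920) (by decide +kernel)
               (CovZ.badM (by decide +kernel))
               (CovZ.n1 (17000, 19880) (by decide +kernel)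
                (CovZ.leaf K2_ok TF_l14223 _)
                (CovZ.badM (by decide +kernel))))
              (CovZ.badM (by decide +kernel))))))
          (CovZ.n1 (16640, 20160) (by decide +kernel)
           (CovZ.n2 (16800, 20320) (by decide +kernel)
            (CovZ.n2 (16800, 20160) (by decide +kernel)
             (CovZ.n2 (16720, 20240) (by decide +kernel)
              (CovZ.badM (by decide +kernel))
              (CovZ.n1 (16720, 20160) (by decide +kernel)
               (CovZ.n2 (16680, 20200) (by decide +kernel)
                (CovZ.n2 (16720, 20200) (by decide +kernel)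
                 (CovZ.leaf K2_ok TF_l14224 _)
                 (CovZ.n1 (16700, 20220) (by decide +kernel)
                  (CovZ.badM (by decide +kernel))
                  (CovZ.leaf K2_ok TF_l14225 _)))
                (CovZ.leaf K2_ok TF_l14226 _))
               (CovZ.n1 (16760, 20200) (by decide +kernel)
                (CovZ.n2 (16760, 20160) (by decide +kernel)
                 (CovZ.n2 (16740, 20180) (by decide +kernel)
                  (CovZ.badM (by decide +kernel))
                  (CovZ.leaf K2_ok TF_l14227 _))
                 (CovZ.badM (by decide +kernel)))
                (CovZ.n1 (16720, 20200) (by decide +kernel)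
                 (CovZ.badM (by decide +kernel))
                 (CovZ.n1 (16740, 20180) (by decide +kernel)
                  (CovZ.leaf K2_ok TF_l14228 _)
                  (CovZ.badM (by decide +kernel)))))))
             (CovZ.badM (by decide +kernel)))
            (CovZ.n1 (16640, 20320) (by decide +kernel)
             (CovZ.badM (by decide +kernel))
             (CovZ.n1 (16720, 20240) (by decide +kernel)
              (CovZ.n2 (16640, 20240) (by decide +kernel)
               (CovZ.n2 (16680, 20280) (by decide +kernel)
                (CovZ.n2 (16680, 20240) (by decide +kernel)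
                 (CovZ.leaf K2_ok TF_l14229 _)
                 (CovZ.badM (by decide +kernel)))
                (CovZ.n1 (16640, 20280) (by decide +kernel)
                 (CovZ.badM (by decide +kernel))
                 (CovZ.leaf K2_ok TF_l14230 _)))
               (CovZ.n1 (16680, 20200) (by decide +kernel)
                (CovZ.leaf K2_ok TF_l14231 _)
                (CovZ.n1 (16680, 20240) (by decide +kernel)
                 (CovZ.n2 (16700, 20220) (by decide +kernel)
                  (CovZ.leaf K2_ok TF_l14232 _)
                  (CovZ.badM (by decide +kernel)))
                 (CovZ.leaf K2_ok TF_l14233 _))))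
              (CovZ.badM (by decide +kernel)))))
           (CovZ.n1 (16800, 20000) (by decide +kernel)
            (CovZ.n2 (16640, 20000) (by decide +kernel)
             (CovZ.leaf K2_ok TF_l14234 _)
             (CovZ.n1 (16720, 19920) (by decide +kernel)
              (CovZ.leaf K2_ok TF_l5813 _)
              (CovZ.leaf K2_ok TF_l14235 _)))
            (CovZ.n1 (16800, 20160) (by decide +kernel)
             (CovZ.n2 (16880, 20080) (by decide +kernel)
              (CovZ.n2 (16800, 20080) (by decide +kernel)
               (CovZ.badM (by decide +kernel))
               (CovZ.n1 (16840, 20040) (by decide +kernel)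
                (CovZ.leaf K2_ok TF_l14236 _)
                (CovZ.badM (by decide +kernel))))
              (CovZ.badM (by decide +kernel)))
             (CovZ.n1 (16720, 20080) (by decide +kernel)
              (CovZ.n2 (16720, 20160) (by decide +kernel)
               (CovZ.n2 (16760, 20120) (by decide +kernel)
                (CovZ.leaf K2_ok TF_l14237 _)
                (CovZ.n1 (16760, 20160) (by decide +kernel)
                 (CovZ.badM (by decide +kernel))
                 (CovZ.leaf K2_ok TF_l14238 _)))
               (CovZ.leaf K2_ok TF_l14239 _))
              (CovZ.n1 (16800, 20080) (by decide +kernel)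
               (CovZ.n2 (16760, 20040) (by decide +kernel)
                (CovZ.leaf K2_ok TF_l14240 _)
                (CovZ.leaf K2_ok TF_l14241 _))
               (CovZ.n1 (16760, 20120) (by decide +kernel)
                (CovZ.badM (by decide +kernel))
                (CovZ.leaf K2_ok TF_l14242 _)))))))))
        (CovZ.n1 (16960, 19520) (by decide +kernel)
         (CovZ.n2 (16640, 19520) (by decide +kernel)
          (CovZ.leaf K2_ok TF_l5814 _)
          (CovZ.leaf K2_ok TF_l5815 _))
         (CovZ.subM 182687704666362864775460606450718618891814174720 (by decide +kernel)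
          (CovZ.n1 (16960, 19840) (by decide +kernel)
           (CovZ.n2 (17120, 19680) (by decide +kernel)
            (CovZ.n2 (16960, 19680) (by decide +kernel)
             (CovZ.leaf K2_ok TF_l14243 _)
             (CovZ.n1 (17040, 19600) (by decide +kernel)
              (CovZ.leaf K2_ok TF_l5816 _)
              (CovZ.n1 (17040, 19680) (by decide +kernel)
               (CovZ.leaf K2_ok TF_l14244 _)
               (CovZ.leaf K2_ok TF_l14245 _))))
            (CovZ.n1 (17120, 19840) (by decide +kernel)
             (CovZ.badM (by decide +kernel))
             (CovZ.n1 (17040, 19760) (by decide +kernel)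
              (CovZ.n2 (17040, 19840) (by decide +kernel)
               (CovZ.n2 (17080, 19800) (by decide +kernel)
                (CovZ.leaf K2_ok TF_l14246 _)
                (CovZ.badM (by decide +kernel)))
               (CovZ.n1 (17000, 19800) (by decide +kernel)
                (CovZ.n2 (17000, 19840) (by decide +kernel)
                 (CovZ.leaf K2_ok TF_l14247 _)
                 (CovZ.leaf K2_ok TF_l14248 _))
                (CovZ.leaf K2_ok TF_l14249 _)))
              (CovZ.n1 (17120, 19760) (by decide +kernel)
               (CovZ.n2 (17080, 19720) (by decide +kernel)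
                (CovZ.n2 (17080, 19760) (by decide +kernel)
                 (CovZ.badM (by decide +kernel))
                 (CovZ.leaf K2_ok TF_l14250 _))
                (CovZ.badM (by decide +kernel)))
               (CovZ.n1 (17080, 19800) (by decide +kernel)
                (CovZ.badM (by decide +kernel))
                (CovZ.leaf K2_ok TF_l14251 _))))))
           (CovZ.n1 (16800, 19680) (by decide +kernel)
            (CovZ.n2 (16800, 19840) (by decide +kernel)
             (CovZ.n2 (16880, 19760) (by decide +kernel)
              (CovZ.leaf K2_ok TF_l5817 _)
              (CovZ.leaf K2_ok TF_l14252 _))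
             (CovZ.leaf K2_ok TF_l5818 _))
            (CovZ.n1 (16960, 19680) (by decide +kernel)
             (CovZ.leaf K2_ok TF_l5819 _)
             (CovZ.n1 (16880, 19760) (by decide +kernel)
              (CovZ.leaf K2_ok TF_l14253 _)
              (CovZ.leaf K2_ok TF_l5820 _))))))))
       (CovZ.n1 (17280, 20480) (by decide +kernel)
        (CovZ.badM (by decide +kernel))
        (CovZ.n1 (16960, 20160) (by decide +kernel)
         (CovZ.badM (by decide +kernel))
         (CovZ.badM (by decide +kernel))))))

theorem TF_u120 : CovZ TF_M (toL (selN TF_LN 276886052387614674197062056486778410061933838409)) [0, 7, 4, 3] (16640, 20480) (15360, 20480) (16640, 19200) :=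
    (CovZ.n1 (16000, 19840) (by decide +kernel)
      (CovZ.subM 94198347718593352152477498928331353520244523072 (by decide +kernel)
       (CovZ.n2 (16000, 20480) (by decide +kernel)
        (CovZ.n2 (16320, 20160) (by decide +kernel)
         (CovZ.leaf K2_ok TF_l5821 _)
         (CovZ.subM 91343852333181432387730304405950930163318390784 (by decide +kernel)
          (CovZ.n1 (16320, 20480) (by decide +kernel)
           (CovZ.n2 (16480, 20320) (by decide +kernel)
            (CovZ.n2 (16320, 20320) (by decide +kernel)
             (CovZ.leaf K2_ok TF_l14254 _)
             (CovZ.n1 (16400, 20240) (by decide +kernel)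
              (CovZ.leaf K2_ok TF_l5822 _)
              (CovZ.leaf K2_ok TF_l14255 _)))
            (CovZ.n1 (16480, 20480) (by decide +kernel)
             (CovZ.n2 (16560, 20400) (by decide +kernel)
              (CovZ.n2 (16480, 20400) (by decide +kernel)
               (CovZ.n2 (16520, 20440) (by decide +kernel)
                (CovZ.leaf K2_ok TF_l14256 _)
                (CovZ.leaf K2_ok TF_l14257 _))
               (CovZ.n1 (16520, 20360) (by decide +kernel)
                (CovZ.leaf K2_ok TF_l14258 _)
                (CovZ.n1 (16520, 20400) (by decide +kernel)
                 (CovZ.leaf K2_ok TF_l14259 _)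
                 (CovZ.leaf K2_ok TF_l14260 _))))
              (CovZ.badM (by decide +kernel)))
             (CovZ.n1 (16400, 20400) (by decide +kernel)
              (CovZ.n2 (16400, 20480) (by decide +kernel)
               (CovZ.n2 (16440, 20440) (by decide +kernel)
                (CovZ.leaf K2_ok TF_l14261 _)
                (CovZ.n1 (16440, 20480) (by decide +kernel)
                 (CovZ.n2 (16460, 20460) (by decide +kernel)
                  (CovZ.leaf K2_ok TF_l14262 _)
                  (CovZ.leaf K2_ok TF_l14263 _))
                 (CovZ.leaf K2_ok TF_l14264 _)))
               (CovZ.leaf K2_ok TF_l14265 _))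
              (CovZ.n1 (16480, 20400) (by decide +kernel)
               (CovZ.leaf K2_ok TF_l14266 _)
               (CovZ.n1 (16440, 20440) (by decide +kernel)
                (CovZ.n2 (16480, 20440) (by decide +kernel)
                 (CovZ.leaf K2_ok TF_l14267 _)
                 (CovZ.leaf K2_ok TF_l14268 _))
                (CovZ.leaf K2_ok TF_l14269 _))))))
           (CovZ.n1 (16160, 20320) (by decide +kernel)
            (CovZ.n2 (16160, 20480) (by decide +kernel)
             (CovZ.leaf K2_ok TF_l5823 _)
             (CovZ.leaf K2_ok TF_l5824 _))
            (CovZ.n1 (16320, 20320) (by decide +kernel)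
             (CovZ.leaf K2_ok TF_l5825 _)
             (CovZ.leaf K2_ok TF_l5826 _))))))
        (CovZ.n1 (15680, 20160) (by decide +kernel)
         (CovZ.n2 (15680, 20480) (by decide +kernel)
          (CovZ.leaf K2_ok TF_l5827 _)
          (CovZ.leaf K2_ok TF_l5828 _))
         (CovZ.n1 (16000, 20160) (by decide +kernel)
          (CovZ.leaf K2_ok TF_l5829 _)
          (CovZ.leaf K2_ok TF_l5830 _)))))
      (CovZ.subM 276886052384956218195433960741185460489332719624 (by decide +kernel)
       (CovZ.n1 (16640, 19840) (by decide +kernel)
        (CovZ.n2 (16320, 19520) (by decide +kernel)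
         (CovZ.n2 (16320, 19840) (by decide +kernel)
          (CovZ.leaf K2_ok TF_l5831 _)
          (CovZ.leaf K2_ok TF_l5832 _))
         (CovZ.n1 (16640, 19520) (by decide +kernel)
          (CovZ.leaf K2_ok TF_l5833 _)
          (CovZ.leaf K2_ok TF_l5834 _)))
        (CovZ.n1 (16320, 20160) (by decide +kernel)
         (CovZ.subM 274031556999544297163190908495486307620309958656 (by decide +kernel)
          (CovZ.n2 (16640, 20160) (by decide +kernel)
           (CovZ.n2 (16480, 20000) (by decide +kernel)
            (CovZ.n2 (16480, 20160) (by decide +kernel)
             (CovZ.n2 (16560, 20080) (by decide +kernel)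
              (CovZ.leaf K2_ok TF_l5835 _)
              (CovZ.leaf K2_ok TF_l5836 _))
             (CovZ.leaf K2_ok TF_l5837 _))
            (CovZ.n1 (16640, 20000) (by decide +kernel)
             (CovZ.leaf K2_ok TF_l5838 _)
             (CovZ.n1 (16560, 20080) (by decide +kernel)
              (CovZ.leaf K2_ok TF_l14270 _)
              (CovZ.leaf K2_ok TF_l5839 _))))
           (CovZ.n1 (16480, 20320) (by decide +kernel)
            (CovZ.n2 (16640, 20320) (by decide +kernel)
             (CovZ.n2 (16560, 20240) (by decide +kernel)
              (CovZ.n2 (16560, 20320) (by decide +kernel)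
               (CovZ.n2 (16600, 20280) (by decide +kernel)
                (CovZ.leaf K2_ok TF_l14271 _)
                (CovZ.n1 (16600, 20320) (by decide +kernel)
                 (CovZ.leaf K2_ok TF_l14272 _)
                 (CovZ.leaf K2_ok TF_l14273 _)))
               (CovZ.leaf K2_ok TF_l5840 _))
              (CovZ.n1 (16640, 20240) (by decide +kernel)
               (CovZ.leaf K2_ok TF_l14274 _)
               (CovZ.n1 (16600, 20280) (by decide +kernel)
                (CovZ.n2 (16640, 20280) (by decide +kernel)
                 (CovZ.leaf K2_ok TF_l14275 _)
                 (CovZ.leaf K2_ok TF_l14276 _))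
                (CovZ.leaf K2_ok TF_l14277 _))))
             (CovZ.n1 (16560, 20400) (by decide +kernel)
              (CovZ.badM (by decide +kernel))
              (CovZ.n1 (16560, 20320) (by decide +kernel)
               (CovZ.n2 (16520, 20360) (by decide +kernel)
                (CovZ.n2 (16560, 20360) (by decide +kernel)
                 (CovZ.leaf K2_ok TF_l5841 _)
                 (CovZ.leaf K2_ok TF_l5842 _))
                (CovZ.leaf K2_ok TF_l5843 _))
               (CovZ.n1 (16600, 20360) (by decide +kernel)
                (CovZ.n2 (16600, 20320) (by decide +kernel)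
                 (CovZ.leaf K2_ok TF_l14278 _)
                 (CovZ.badM (by decide +kernel)))
                (CovZ.n1 (16560, 20360) (by decide +kernel)
                 (CovZ.leaf K2_ok TF_l14279 _)
                 (CovZ.leaf K2_ok TF_l14280 _))))))
            (CovZ.n1 (16480, 20160) (by decide +kernel)
             (CovZ.n2 (16400, 20240) (by decide +kernel)
              (CovZ.leaf K2_ok TF_l5844 _)
              (CovZ.leaf K2_ok TF_l5845 _))
             (CovZ.leaf K2_ok TF_l5846 _)))))
         (CovZ.n1 (16320, 19840) (by decide +kernel)
          (CovZ.leaf K2_ok TF_l5847 _)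
          (CovZ.leaf K2_ok TF_l5848 _))))))

theorem TF_u121 : CovZ TF_M (toL (selN TF_LN 649037107316853741796696782798848)) [0, 7, 4, 3] (-6400, 21760) (-5760, 21760) (-5760, 22400) :=
    (CovZ.n2 (-6080, 22080) (by decide +kernel)
         (CovZ.n2 (-5760, 22080) (by decide +kernel)
          (CovZ.n2 (-5920, 21920) (by decide +kernel)
           (CovZ.n2 (-5920, 22080) (by decide +kernel)
            (CovZ.n2 (-5840, 22000) (by decide +kernel)
             (CovZ.n2 (-5920, 22000) (by decide +kernel)
              (CovZ.leaf K2_ok TF_l9167 _)
              (CovZ.n1 (-5880, 21960) (by decide +kernel)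
               (CovZ.leaf K2_ok TF_l9168 _)
               (CovZ.leaf K2_ok TF_l9169 _)))
             (CovZ.n1 (-5840, 22080) (by decide +kernel)
              (CovZ.leaf K2_ok TF_l9170 _)
              (CovZ.n1 (-5880, 22040) (by decide +kernel)
               (CovZ.leaf K2_ok TF_l9171 _)
               (CovZ.leaf K2_ok TF_l9172 _))))
            (CovZ.n1 (-6000, 22000) (by decide +kernel)
             (CovZ.n2 (-6000, 22080) (by decide +kernel)
              (CovZ.n2 (-5960, 22040) (by decide +kernel)
               (CovZ.n2 (-6000, 22040) (by decide +kernel)
                (CovZ.leaf K2_ok TF_l9173 _)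
                (CovZ.leaf K2_ok TF_l9174 _))
               (CovZ.n1 (-5960, 22080) (by decide +kernel)
                (CovZ.leaf K2_ok TF_l9175 _)
                (CovZ.leaf K2_ok TF_l9176 _)))
              (CovZ.n1 (-6040, 22040) (by decide +kernel)
               (CovZ.badM (by decide +kernel))
               (CovZ.n1 (-6000, 22040) (by decide +kernel)
                (CovZ.n2 (-6020, 22020) (by decide +kernel)
                 (CovZ.leaf K2_ok TF_l9177 _)
                 (CovZ.leaf K2_ok TF_l9178 _))
                (CovZ.n1 (-6020, 22060) (by decide +kernel)
                 (CovZ.leaf K2_ok TF_l9179 _)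
                 (CovZ.leaf K2_ok TF_l9180 _)))))
             (CovZ.n1 (-5920, 22000) (by decide +kernel)
              (CovZ.n2 (-5960, 21960) (by decide +kernel)
               (CovZ.n2 (-5960, 22000) (by decide +kernel)
                (CovZ.leaf K2_ok TF_l9181 _)
                (CovZ.leaf K2_ok TF_l9182 _))
               (CovZ.leaf K2_ok TF_l9183 _))
              (CovZ.n1 (-5960, 22040) (by decide +kernel)
               (CovZ.n2 (-5920, 22040) (by decide +kernel)
                (CovZ.leaf K2_ok TF_l9184 _)
                (CovZ.leaf K2_ok TF_l9185 _))
               (CovZ.leaf K2_ok TF_l9186 _)))))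
           (CovZ.n1 (-5760, 21920) (by decide +kernel)
            (CovZ.n2 (-5840, 21840) (by decide +kernel)
             (CovZ.n2 (-5840, 21920) (by decide +kernel)
              (CovZ.leaf K2_ok TF_l9187 _)
              (CovZ.leaf K2_ok TF_l9188 _))
             (CovZ.leaf K2_ok TF_l9189 _))
            (CovZ.n1 (-5840, 22000) (by decide +kernel)
             (CovZ.n2 (-5760, 22000) (by decide +kernel)
              (CovZ.leaf K2_ok TF_l9190 _)
              (CovZ.leaf K2_ok TF_l9191 _))
             (CovZ.n1 (-5840, 21920) (by decide +kernel)
              (CovZ.n2 (-5880, 21960) (by decide +kernel)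
               (CovZ.leaf K2_ok TF_l9192 _)
               (CovZ.leaf K2_ok TF_l9193 _))
              (CovZ.leaf K2_ok TF_l9194 _)))))
          (CovZ.n1 (-5920, 22240) (by decide +kernel)
           (CovZ.n2 (-5760, 22240) (by decide +kernel)
            (CovZ.n2 (-5840, 22160) (by decide +kernel)
             (CovZ.n2 (-5840, 22240) (by decide +kernel)
              (CovZ.n2 (-5800, 22200) (by decide +kernel)
               (CovZ.leaf K2_ok TF_l9195 _)
               (CovZ.leaf K2_ok TF_l9196 _))
              (CovZ.n1 (-5880, 22200) (by decide +kernel)
               (CovZ.n2 (-5880, 22240) (by decide +kernel)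
                (CovZ.leaf K2_ok TF_l9197 _)
                (CovZ.leaf K2_ok TF_l9198 _))
               (CovZ.leaf K2_ok TF_l9199 _)))
             (CovZ.n1 (-5760, 22160) (by decide +kernel)
              (CovZ.leaf K2_ok TF_l9200 _)
              (CovZ.n1 (-5800, 22200) (by decide +kernel)
               (CovZ.leaf K2_ok TF_l9201 _)
               (CovZ.leaf K2_ok TF_l9202 _))))
            (CovZ.n1 (-5840, 22320) (by decide +kernel)
             (CovZ.n2 (-5760, 22320) (by decide +kernel)
              (CovZ.n2 (-5800, 22280) (by decide +kernel)
               (CovZ.leaf K2_ok TF_l9203 _)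
               (CovZ.leaf K2_ok TF_l9204 _))
              (CovZ.n1 (-5800, 22360) (by decide +kernel)
               (CovZ.leaf K2_ok TF_l9205 _)
               (CovZ.leaf K2_ok TF_l9206 _)))
             (CovZ.n1 (-5840, 22240) (by decide +kernel)
              (CovZ.n2 (-5880, 22280) (by decide +kernel)
               (CovZ.n2 (-5840, 22280) (by decide +kernel)
                (CovZ.leaf K2_ok TF_l9207 _)
                (CovZ.badM (by decide +kernel)))
               (CovZ.n1 (-5880, 22240) (by decide +kernel)
                (CovZ.badM (by decide +kernel))
                (CovZ.leaf K2_ok TF_l9208 _)))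
              (CovZ.leaf K2_ok TF_l9209 _))))
           (CovZ.n1 (-5920, 22080) (by decide +kernel)
            (CovZ.n2 (-6000, 22160) (by decide +kernel)
             (CovZ.n2 (-5920, 22160) (by decide +kernel)
              (CovZ.n2 (-5960, 22120) (by decide +kernel)
               (CovZ.badM (by decide +kernel))
               (CovZ.n1 (-5920, 22120) (by decide +kernel)
                (CovZ.leaf K2_ok TF_l9210 _)
                (CovZ.leaf K2_ok TF_l9211 _)))
              (CovZ.badM (by decide +kernel)))
             (CovZ.n1 (-6000, 22080) (by decide +kernel)
              (CovZ.badM (by decide +kernel))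
              (CovZ.n1 (-5960, 22120) (by decide +kernel)
               (CovZ.n2 (-5960, 22080) (by decide +kernel)
                (CovZ.n2 (-5980, 22100) (by decide +kernel)
                 (CovZ.leaf K2_ok TF_l9212 _)
                 (CovZ.leaf K2_ok TF_l9213 _))
                (CovZ.leaf K2_ok TF_l9214 _))
               (CovZ.badM (by decide +kernel)))))
            (CovZ.n1 (-5840, 22160) (by decide +kernel)
             (CovZ.n2 (-5840, 22080) (by decide +kernel)
              (CovZ.n2 (-5880, 22120) (by decide +kernel)
               (CovZ.leaf K2_ok TF_l9215 _)
               (CovZ.leaf K2_ok TF_l9216 _))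
              (CovZ.leaf K2_ok TF_l9217 _))
             (CovZ.n1 (-5920, 22160) (by decide +kernel)
              (CovZ.leaf K2_ok TF_l9218 _)
              (CovZ.n1 (-5880, 22120) (by decide +kernel)
               (CovZ.leaf K2_ok TF_l9219 _)
               (CovZ.leaf K2_ok TF_l9220 _)))))))
         (CovZ.n1 (-6080, 21760) (by decide +kernel)
          (CovZ.n2 (-6240, 21920) (by decide +kernel)
           (CovZ.n2 (-6080, 21920) (by decide +kernel)
            (CovZ.n2 (-6160, 21840) (by decide +kernel)
             (CovZ.n2 (-6160, 21920) (by decide +kernel)
              (CovZ.n2 (-6120, 21880) (by decide +kernel)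
               (CovZ.badM (by decide +kernel))
               (CovZ.n1 (-6120, 21920) (by decide +kernel)
                (CovZ.n2 (-6100, 21900) (by decide +kernel)
                 (CovZ.leaf K2_ok TF_l9221 _)
                 (CovZ.leaf K2_ok TF_l9222 _))
                (CovZ.badM (by decide +kernel))))
              (CovZ.badM (by decide +kernel)))
             (CovZ.n1 (-6080, 21840) (by decide +kernel)
              (CovZ.leaf K2_ok TF_l9223 _)
              (CovZ.n1 (-6120, 21880) (by decide +kernel)
               (CovZ.n2 (-6080, 21880) (by decide +kernel)
                (CovZ.leaf K2_ok TF_l9224 _)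
                (CovZ.n1 (-6100, 21900) (by decide +kernel)
                 (CovZ.leaf K2_ok TF_l9225 _)
                 (CovZ.leaf K2_ok TF_l9226 _)))
               (CovZ.leaf K2_ok TF_l9227 _))))
            (CovZ.n1 (-6160, 22000) (by decide +kernel)
             (CovZ.n2 (-6080, 22000) (by decide +kernel)
              (CovZ.n2 (-6120, 21960) (by decide +kernel)
               (CovZ.badM (by decide +kernel))
               (CovZ.n1 (-6080, 21960) (by decide +kernel)
                (CovZ.n2 (-6100, 21940) (by decide +kernel)
                 (CovZ.badM (by decide +kernel))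
                 (CovZ.n1 (-6080, 21940) (by decide +kernel)
                  (CovZ.leaf K2_ok TF_l9228 _)
                  (CovZ.badM (by decide +kernel))))
                (CovZ.badM (by decide +kernel))))
              (CovZ.badM (by decide +kernel)))
             (CovZ.n1 (-6160, 21920) (by decide +kernel)
              (CovZ.badM (by decide +kernel))
              (CovZ.n1 (-6120, 21960) (by decide +kernel)
               (CovZ.n2 (-6120, 21920) (by decide +kernel)
                (CovZ.badM (by decide +kernel))
                (CovZ.leaf K2_ok TF_l9229 _))
               (CovZ.badM (by decide +kernel))))))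
           (CovZ.n1 (-6240, 21760) (by decide +kernel)
            (CovZ.badM (by decide +kernel))
            (CovZ.n1 (-6160, 21840) (by decide +kernel)
             (CovZ.n2 (-6160, 21760) (by decide +kernel)
              (CovZ.n2 (-6200, 21800) (by decide +kernel)
               (CovZ.leaf K2_ok TF_l9230 _)
               (CovZ.leaf K2_ok TF_l9231 _))
              (CovZ.leaf K2_ok TF_l9232 _))
             (CovZ.badM (by decide +kernel)))))
          (CovZ.n1 (-5920, 21920) (by decide +kernel)
           (CovZ.n2 (-5920, 21760) (by decide +kernel)
            (CovZ.n2 (-6000, 21840) (by decide +kernel)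
             (CovZ.n2 (-5920, 21840) (by decide +kernel)
              (CovZ.leaf K2_ok TF_l9233 _)
              (CovZ.n1 (-5960, 21880) (by decide +kernel)
               (CovZ.leaf K2_ok TF_l9234 _)
               (CovZ.leaf K2_ok TF_l9235 _)))
             (CovZ.leaf K2_ok TF_l9236 _))
            (CovZ.leaf K2_ok TF_l9237 _))
           (CovZ.n1 (-6080, 21920) (by decide +kernel)
            (CovZ.n2 (-6000, 22000) (by decide +kernel)
             (CovZ.n2 (-6000, 21920) (by decide +kernel)
              (CovZ.n2 (-6040, 21960) (by decide +kernel)
               (CovZ.n2 (-6000, 21960) (by decide +kernel)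
                (CovZ.leaf K2_ok TF_l9238 _)
                (CovZ.n1 (-6020, 21980) (by decide +kernel)
                 (CovZ.leaf K2_ok TF_l9239 _)
                 (CovZ.leaf K2_ok TF_l9240 _)))
               (CovZ.n1 (-6040, 21920) (by decide +kernel)
                (CovZ.n2 (-6060, 21940) (by decide +kernel)
                 (CovZ.leaf K2_ok TF_l9241 _)
                 (CovZ.leaf K2_ok TF_l9242 _))
                (CovZ.leaf K2_ok TF_l9243 _)))
              (CovZ.leaf K2_ok TF_l9244 _))
             (CovZ.n1 (-6080, 22000) (by decide +kernel)
              (CovZ.n2 (-6040, 22040) (by decide +kernel)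
               (CovZ.n2 (-6040, 22000) (by decide +kernel)
                (CovZ.badM (by decide +kernel))
                (CovZ.leaf K2_ok TF_l9245 _))
               (CovZ.badM (by decide +kernel)))
              (CovZ.n1 (-6040, 21960) (by decide +kernel)
               (CovZ.n2 (-6080, 21960) (by decide +kernel)
                (CovZ.n2 (-6060, 21980) (by decide +kernel)
                 (CovZ.leaf K2_ok TF_l9246 _)
                 (CovZ.badM (by decide +kernel)))
                (CovZ.n1 (-6060, 21940) (by decide +kernel)
                 (CovZ.leaf K2_ok TF_l9247 _)
                 (CovZ.n1 (-6060, 21960) (by decide +kernel)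
                  (CovZ.leaf K2_ok TF_l9248 _)
                  (CovZ.leaf K2_ok TF_l9249 _))))
               (CovZ.n1 (-6040, 22000) (by decide +kernel)
                (CovZ.n2 (-6020, 21980) (by decide +kernel)
                 (CovZ.leaf K2_ok TF_l9250 _)
                 (CovZ.leaf K2_ok TF_l9251 _))
                (CovZ.n1 (-6060, 21980) (by decide +kernel)
                 (CovZ.badM (by decide +kernel))
                 (CovZ.leaf K2_ok TF_l9252 _))))))
            (CovZ.n1 (-6000, 21840) (by decide +kernel)
             (CovZ.n2 (-6080, 21840) (by decide +kernel)
              (CovZ.n2 (-6040, 21880) (by decide +kernel)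
               (CovZ.leaf K2_ok TF_l9253 _)
               (CovZ.leaf K2_ok TF_l9254 _))
              (CovZ.leaf K2_ok TF_l9255 _))
             (CovZ.n1 (-6000, 21920) (by decide +kernel)
              (CovZ.n2 (-5960, 21880) (by decide +kernel)
               (CovZ.leaf K2_ok TF_l9256 _)
               (CovZ.leaf K2_ok TF_l9257 _))
              (CovZ.n1 (-6040, 21880) (by decide +kernel)
               (CovZ.n2 (-6040, 21920) (by decide +kernel)
                (CovZ.leaf K2_ok TF_l9258 _)
                (CovZ.leaf K2_ok TF_l9259 _))
               (CovZ.n1 (-6000, 21880) (by decide +kernel)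
                (CovZ.leaf K2_ok TF_l9260 _)
                (CovZ.leaf K2_ok TF_l9261 _)))))))))

theorem TF_u122 : CovZ TF_M (toL (selN TF_LN 696898288103119080489844947105632311312384)) [0, 7, 4, 3] (-5120, 23040) (-6400, 21760) (-5120, 20480) :=
    (CovZ.n2 (-5120, 21760) (by decide +kernel)
     (CovZ.n2 (-5760, 21120) (by decide +kernel)
      (CovZ.n2 (-5760, 21760) (by decide +kernel)
       (CovZ.n2 (-5440, 21440) (by decide +kernel)
        (CovZ.n2 (-5760, 21440) (by decide +kernel)
         (CovZ.leaf K2_ok TF_l507 _)
         (CovZ.leaf K2_ok TF_l508 _))
        (CovZ.n1 (-5440, 21760) (by decide +kernel)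
         (CovZ.n2 (-5280, 21600) (by decide +kernel)
          (CovZ.leaf K2_ok TF_l509 _)
          (CovZ.leaf K2_ok TF_l510 _))
         (CovZ.n1 (-5600, 21600) (by decide +kernel)
          (CovZ.n2 (-5600, 21760) (by decide +kernel)
           (CovZ.leaf K2_ok TF_l511 _)
           (CovZ.leaf K2_ok TF_l512 _))
          (CovZ.n1 (-5440, 21600) (by decide +kernel)
           (CovZ.leaf K2_ok TF_l513 _)
           (CovZ.leaf K2_ok TF_l514 _)))))
       (CovZ.subM 649037107316853453566312041152512 (by decide +kernel)
        (CovZ.n1 (-6080, 21440) (by decide +kernel)
         (CovZ.n2 (-6080, 21760) (by decide +kernel)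
          (CovZ.n2 (-5920, 21600) (by decide +kernel)
           (CovZ.leaf K2_ok TF_l9126 _)
           (CovZ.n1 (-5920, 21760) (by decide +kernel)
            (CovZ.n2 (-5840, 21680) (by decide +kernel)
             (CovZ.leaf K2_ok TF_l9127 _)
             (CovZ.leaf K2_ok TF_l9128 _))
            (CovZ.n1 (-6000, 21680) (by decide +kernel)
             (CovZ.leaf K2_ok TF_l9129 _)
             (CovZ.leaf K2_ok TF_l9130 _))))
          (CovZ.n1 (-6240, 21600) (by decide +kernel)
           (CovZ.n2 (-6240, 21760) (by decide +kernel)
            (CovZ.n2 (-6160, 21680) (by decide +kernel)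
             (CovZ.leaf K2_ok TF_l9131 _)
             (CovZ.n1 (-6160, 21760) (by decide +kernel)
              (CovZ.leaf K2_ok TF_l9132 _)
              (CovZ.leaf K2_ok TF_l9133 _)))
            (CovZ.n1 (-6320, 21680) (by decide +kernel)
             (CovZ.badM (by decide +kernel))
             (CovZ.n1 (-6240, 21680) (by decide +kernel)
              (CovZ.leaf K2_ok TF_l9134 _)
              (CovZ.leaf K2_ok TF_l9135 _))))
           (CovZ.n1 (-6080, 21600) (by decide +kernel)
            (CovZ.n2 (-6160, 21520) (by decide +kernel)
             (CovZ.leaf K2_ok TF_l9136 _)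
             (CovZ.leaf K2_ok TF_l9137 _))
            (CovZ.n1 (-6160, 21680) (by decide +kernel)
             (CovZ.leaf K2_ok TF_l9138 _)
             (CovZ.leaf K2_ok TF_l9139 _)))))
         (CovZ.n1 (-5760, 21440) (by decide +kernel)
          (CovZ.n2 (-5920, 21280) (by decide +kernel)
           (CovZ.n2 (-5920, 21440) (by decide +kernel)
            (CovZ.leaf K2_ok TF_l515 _)
            (CovZ.leaf K2_ok TF_l516 _))
           (CovZ.leaf K2_ok TF_l517 _))
          (CovZ.n1 (-5920, 21600) (by decide +kernel)
           (CovZ.n2 (-5760, 21600) (by decide +kernel)
            (CovZ.leaf K2_ok TF_l518 _)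
            (CovZ.n1 (-5840, 21680) (by decide +kernel)
             (CovZ.leaf K2_ok TF_l519 _)
             (CovZ.leaf K2_ok TF_l520 _)))
           (CovZ.leaf K2_ok TF_l521 _))))))
      (CovZ.n1 (-5120, 21120) (by decide +kernel)
       (CovZ.n2 (-5440, 20800) (by decide +kernel)
        (CovZ.n2 (-5440, 21120) (by decide +kernel)
         (CovZ.leaf K2_ok TF_l522 _)
         (CovZ.leaf K2_ok TF_l523 _))
        (CovZ.leaf K2_ok TF_l524 _))
       (CovZ.n1 (-5440, 21440) (by decide +kernel)
        (CovZ.n2 (-5120, 21440) (by decide +kernel)
         (CovZ.leaf K2_ok TF_l525 _)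
         (CovZ.n1 (-5280, 21600) (by decide +kernel)
          (CovZ.leaf K2_ok TF_l526 _)
          (CovZ.leaf K2_ok TF_l527 _)))
        (CovZ.leaf K2_ok TF_l528 _))))
     (CovZ.subM 649037107316853741796696782798848 (by decide +kernel)
      (CovZ.n1 (-5760, 22400) (by decide +kernel)
       (CovZ.n2 (-5120, 22400) (by decide +kernel)
        (CovZ.n2 (-5440, 22080) (by decide +kernel)
         (CovZ.n2 (-5440, 22400) (by decide +kernel)
          (CovZ.n2 (-5280, 22240) (by decide +kernel)
           (CovZ.leaf K2_ok TF_l9140 _)
           (CovZ.n1 (-5280, 22400) (by decide +kernel)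
            (CovZ.leaf K2_ok TF_l9141 _)
            (CovZ.leaf K2_ok TF_l9142 _)))
          (CovZ.n1 (-5600, 22240) (by decide +kernel)
           (CovZ.n2 (-5600, 22400) (by decide +kernel)
            (CovZ.n2 (-5520, 22320) (by decide +kernel)
             (CovZ.leaf K2_ok TF_l9143 _)
             (CovZ.leaf K2_ok TF_l9144 _))
            (CovZ.n1 (-5680, 22320) (by decide +kernel)
             (CovZ.n2 (-5680, 22400) (by decide +kernel)
              (CovZ.leaf K2_ok TF_l9145 _)
              (CovZ.leaf K2_ok TF_l9146 _))
             (CovZ.leaf K2_ok TF_l9147 _)))
           (CovZ.n1 (-5440, 22240) (by decide +kernel)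
            (CovZ.leaf K2_ok TF_l9148 _)
            (CovZ.n1 (-5520, 22320) (by decide +kernel)
             (CovZ.leaf K2_ok TF_l9149 _)
             (CovZ.leaf K2_ok TF_l9150 _)))))
         (CovZ.n1 (-5120, 22080) (by decide +kernel)
          (CovZ.n2 (-5280, 21920) (by decide +kernel)
           (CovZ.leaf K2_ok TF_l529 _)
           (CovZ.leaf K2_ok TF_l530 _))
          (CovZ.n1 (-5280, 22240) (by decide +kernel)
           (CovZ.leaf K2_ok TF_l531 _)
           (CovZ.leaf K2_ok TF_l532 _))))
        (CovZ.n1 (-5440, 22720) (by decide +kernel)
         (CovZ.n2 (-5120, 22720) (by decide +kernel)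
          (CovZ.n2 (-5280, 22560) (by decide +kernel)
           (CovZ.n2 (-5280, 22720) (by decide +kernel)
            (CovZ.leaf K2_ok TF_l9151 _)
            (CovZ.leaf K2_ok TF_l9152 _))
           (CovZ.leaf K2_ok TF_l9153 _))
          (CovZ.n1 (-5280, 22880) (by decide +kernel)
           (CovZ.leaf K2_ok TF_l9154 _)
           (CovZ.leaf K2_ok TF_l9155 _)))
         (CovZ.n1 (-5440, 22400) (by decide +kernel)
          (CovZ.n2 (-5600, 22560) (by decide +kernel)
           (CovZ.n2 (-5440, 22560) (by decide +kernel)
            (CovZ.n2 (-5520, 22480) (by decide +kernel)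
             (CovZ.leaf K2_ok TF_l9156 _)
             (CovZ.leaf K2_ok TF_l9157 _))
            (CovZ.n1 (-5520, 22640) (by decide +kernel)
             (CovZ.leaf K2_ok TF_l9158 _)
             (CovZ.leaf K2_ok TF_l9159 _)))
           (CovZ.n1 (-5600, 22400) (by decide +kernel)
            (CovZ.n2 (-5680, 22480) (by decide +kernel)
             (CovZ.n2 (-5600, 22480) (by decide +kernel)
              (CovZ.leaf K2_ok TF_l9160 _)
              (CovZ.leaf K2_ok TF_l9161 _))
             (CovZ.n1 (-5680, 22400) (by decide +kernel)
              (CovZ.n2 (-5720, 22440) (by decide +kernel)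
               (CovZ.leaf K2_ok TF_l9162 _)
               (CovZ.leaf K2_ok TF_l9163 _))
              (CovZ.leaf K2_ok TF_l9164 _)))
            (CovZ.leaf K2_ok TF_l9165 _)))
          (CovZ.leaf K2_ok TF_l9166 _))))
       (CovZ.n1 (-5760, 21760) (by decide +kernel)
        TF_u121
        (CovZ.n1 (-5440, 22080) (by decide +kernel)
         (CovZ.n2 (-5440, 21760) (by decide +kernel)
          (CovZ.n2 (-5600, 21920) (by decide +kernel)
           (CovZ.n2 (-5440, 21920) (by decide +kernel)
            (CovZ.leaf K2_ok TF_l533 _)
            (CovZ.leaf K2_ok TF_l534 _))
           (CovZ.n1 (-5600, 21760) (by decide +kernel)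
            (CovZ.n2 (-5680, 21840) (by decide +kernel)
             (CovZ.leaf K2_ok TF_l535 _)
             (CovZ.leaf K2_ok TF_l536 _))
            (CovZ.leaf K2_ok TF_l537 _)))
          (CovZ.leaf K2_ok TF_l538 _))
         (CovZ.n1 (-5760, 22080) (by decide +kernel)
          (CovZ.n2 (-5600, 22240) (by decide +kernel)
           (CovZ.n2 (-5600, 22080) (by decide +kernel)
            (CovZ.n2 (-5680, 22160) (by decide +kernel)
             (CovZ.leaf K2_ok TF_l9262 _)
             (CovZ.leaf K2_ok TF_l9263 _))
            (CovZ.leaf K2_ok TF_l9264 _))
           (CovZ.n1 (-5760, 22240) (by decide +kernel)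
            (CovZ.leaf K2_ok TF_l9265 _)
            (CovZ.n1 (-5680, 22160) (by decide +kernel)
             (CovZ.leaf K2_ok TF_l9266 _)
             (CovZ.n1 (-5680, 22240) (by decide +kernel)
              (CovZ.leaf K2_ok TF_l9267 _)
              (CovZ.leaf K2_ok TF_l9268 _)))))
          (CovZ.n1 (-5600, 21920) (by decide +kernel)
           (CovZ.n2 (-5760, 21920) (by decide +kernel)
            (CovZ.leaf K2_ok TF_l9269 _)
            (CovZ.n1 (-5680, 21840) (by decide +kernel)
             (CovZ.leaf K2_ok TF_l9270 _)
             (CovZ.leaf K2_ok TF_l9271 _)))
           (CovZ.n1 (-5600, 22080) (by decide +kernel)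
            (CovZ.leaf K2_ok TF_l9272 _)
            (CovZ.n1 (-5680, 22000) (by decide +kernel)
             (CovZ.leaf K2_ok TF_l9273 _)
             (CovZ.leaf K2_ok TF_l9274 _))))))))))

theorem TF_u123 : CovZ TF_M (toL (selN TF_LN 696898288103119080489844947105632311312384)) [0, 7, 4, 3] (-6400, 21760) (-7680, 20480) (-5120, 20480) :=
    (CovZ.n1 (-6400, 20480) (by decide +kernel)
     (CovZ.badM (by decide +kernel))
     (CovZ.n1 (-5760, 21120) (by decide +kernel)
      (CovZ.n2 (-5760, 20480) (by decide +kernel)
       (CovZ.subM 696898288103119080489844937816949489926144 (by decide +kernel)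
        (CovZ.n2 (-6080, 20800) (by decide +kernel)
         (CovZ.n2 (-5760, 20800) (by decide +kernel)
          (CovZ.n2 (-5920, 20640) (by decide +kernel)
           (CovZ.n2 (-5920, 20800) (by decide +kernel)
            (CovZ.leaf K2_ok TF_l539 _)
            (CovZ.leaf K2_ok TF_l9275 _))
           (CovZ.leaf K2_ok TF_l540 _))
          (CovZ.n1 (-5920, 20960) (by decide +kernel)
           (CovZ.leaf K2_ok TF_l541 _)
           (CovZ.leaf K2_ok TF_l542 _)))
         (CovZ.n1 (-6080, 20480) (by decide +kernel)
          (CovZ.n2 (-6240, 20640) (by decide +kernel)
           (CovZ.n2 (-6080, 20640) (by decide +kernel)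
            (CovZ.n2 (-6160, 20560) (by decide +kernel)
             (CovZ.n2 (-6160, 20640) (by decide +kernel)
              (CovZ.leaf K2_ok TF_l9276 _)
              (CovZ.n1 (-6200, 20600) (by decide +kernel)
               (CovZ.leaf K2_ok TF_l9277 _)
               (CovZ.leaf K2_ok TF_l9278 _)))
             (CovZ.n1 (-6080, 20560) (by decide +kernel)
              (CovZ.leaf K2_ok TF_l9279 _)
              (CovZ.leaf K2_ok TF_l9280 _)))
            (CovZ.n1 (-6160, 20720) (by decide +kernel)
             (CovZ.leaf K2_ok TF_l9281 _)
             (CovZ.n1 (-6160, 20640) (by decide +kernel)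
              (CovZ.n2 (-6200, 20680) (by decide +kernel)
               (CovZ.leaf K2_ok TF_l9282 _)
               (CovZ.leaf K2_ok TF_l9283 _))
              (CovZ.leaf K2_ok TF_l9284 _))))
           (CovZ.n1 (-6240, 20480) (by decide +kernel)
            (CovZ.badM (by decide +kernel))
            (CovZ.n1 (-6160, 20560) (by decide +kernel)
             (CovZ.n2 (-6160, 20480) (by decide +kernel)
              (CovZ.n2 (-6200, 20520) (by decide +kernel)
               (CovZ.leaf K2_ok TF_l9285 _)
               (CovZ.leaf K2_ok TF_l9286 _))
              (CovZ.leaf K2_ok TF_l9287 _))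
             (CovZ.n1 (-6240, 20560) (by decide +kernel)
              (CovZ.leaf K2_ok TF_l9288 _)
              (CovZ.n1 (-6200, 20520) (by decide +kernel)
               (CovZ.leaf K2_ok TF_l9289 _)
               (CovZ.leaf K2_ok TF_l9290 _))))))
          (CovZ.n1 (-5920, 20640) (by decide +kernel)
           (CovZ.n2 (-5920, 20480) (by decide +kernel)
            (CovZ.n2 (-6000, 20560) (by decide +kernel)
             (CovZ.leaf K2_ok TF_l9291 _)
             (CovZ.leaf K2_ok TF_l9292 _))
            (CovZ.leaf K2_ok TF_l9293 _))
           (CovZ.n1 (-6080, 20640) (by decide +kernel)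
            (CovZ.leaf K2_ok TF_l9294 _)
            (CovZ.n1 (-6000, 20560) (by decide +kernel)
             (CovZ.leaf K2_ok TF_l9295 _)
             (CovZ.leaf K2_ok TF_l9296 _)))))))
       (CovZ.leaf K2_ok TF_l543 _))
      (CovZ.subM 649037107316853453566312041152512 (by decide +kernel)
       (CovZ.n1 (-6400, 21120) (by decide +kernel)
        (CovZ.n2 (-6080, 21440) (by decide +kernel)
         (CovZ.n2 (-6080, 21120) (by decide +kernel)
          (CovZ.n2 (-6240, 21280) (by decide +kernel)
           (CovZ.n2 (-6080, 21280) (by decide +kernel)
            (CovZ.n2 (-6160, 21200) (by decide +kernel)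
             (CovZ.leaf K2_ok TF_l544 _)
             (CovZ.leaf K2_ok TF_l545 _))
            (CovZ.n1 (-6160, 21360) (by decide +kernel)
             (CovZ.leaf K2_ok TF_l546 _)
             (CovZ.leaf K2_ok TF_l547 _)))
           (CovZ.n1 (-6240, 21120) (by decide +kernel)
            (CovZ.n2 (-6320, 21200) (by decide +kernel)
             (CovZ.n2 (-6240, 21200) (by decide +kernel)
              (CovZ.n2 (-6280, 21160) (by decide +kernel)
               (CovZ.leaf K2_ok TF_l9297 _)
               (CovZ.leaf K2_ok TF_l548 _))
              (CovZ.n1 (-6280, 21240) (by decide +kernel)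
               (CovZ.leaf K2_ok TF_l9298 _)
               (CovZ.leaf K2_ok TF_l9299 _)))
             (CovZ.n1 (-6320, 21120) (by decide +kernel)
              (CovZ.badM (by decide +kernel))
              (CovZ.leaf K2_ok TF_l549 _)))
            (CovZ.leaf K2_ok TF_l550 _)))
          (CovZ.leaf K2_ok TF_l551 _))
         (CovZ.n1 (-6400, 21440) (by decide +kernel)
          (CovZ.n2 (-6240, 21600) (by decide +kernel)
           (CovZ.n2 (-6240, 21440) (by decide +kernel)
            (CovZ.n2 (-6320, 21520) (by decide +kernel)
             (CovZ.n2 (-6240, 21520) (by decide +kernel)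
              (CovZ.leaf K2_ok TF_l9300 _)
              (CovZ.leaf K2_ok TF_l9301 _))
             (CovZ.n1 (-6320, 21440) (by decide +kernel)
              (CovZ.n2 (-6360, 21480) (by decide +kernel)
               (CovZ.leaf K2_ok TF_l9302 _)
               (CovZ.n1 (-6360, 21440) (by decide +kernel)
                (CovZ.badM (by decide +kernel))
                (CovZ.leaf K2_ok TF_l9303 _)))
              (CovZ.leaf K2_ok TF_l9304 _)))
            (CovZ.leaf K2_ok TF_l9305 _))
           (CovZ.n1 (-6400, 21600) (by decide +kernel)
            (CovZ.n2 (-6320, 21680) (by decide +kernel)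
             (CovZ.n2 (-6320, 21600) (by decide +kernel)
              (CovZ.n2 (-6360, 21640) (by decide +kernel)
               (CovZ.leaf K2_ok TF_l9306 _)
               (CovZ.leaf K2_ok TF_l9307 _))
              (CovZ.leaf K2_ok TF_l9308 _))
             (CovZ.badM (by decide +kernel)))
            (CovZ.n1 (-6320, 21520) (by decide +kernel)
             (CovZ.n2 (-6400, 21520) (by decide +kernel)
              (CovZ.leaf K2_ok TF_l9309 _)
              (CovZ.n1 (-6360, 21480) (by decide +kernel)
               (CovZ.badM (by decide +kernel))
               (CovZ.n1 (-6360, 21520) (by decide +kernel)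
                (CovZ.leaf K2_ok TF_l9310 _)
                (CovZ.badM (by decide +kernel)))))
             (CovZ.n1 (-6320, 21600) (by decide +kernel)
              (CovZ.leaf K2_ok TF_l9311 _)
              (CovZ.n1 (-6360, 21560) (by decide +kernel)
               (CovZ.leaf K2_ok TF_l9312 _)
               (CovZ.leaf K2_ok TF_l9313 _))))))
          (CovZ.n1 (-6240, 21280) (by decide +kernel)
           (CovZ.n2 (-6400, 21280) (by decide +kernel)
            (CovZ.n2 (-6320, 21360) (by decide +kernel)
             (CovZ.n2 (-6320, 21280) (by decide +kernel)
              (CovZ.badM (by decide +kernel))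
              (CovZ.leaf K2_ok TF_l9314 _))
             (CovZ.badM (by decide +kernel)))
            (CovZ.n1 (-6320, 21200) (by decide +kernel)
             (CovZ.badM (by decide +kernel))
             (CovZ.n1 (-6320, 21280) (by decide +kernel)
              (CovZ.n2 (-6280, 21240) (by decide +kernel)
               (CovZ.leaf K2_ok TF_l9315 _)
               (CovZ.leaf K2_ok TF_l9316 _))
              (CovZ.badM (by decide +kernel)))))
           (CovZ.n1 (-6240, 21440) (by decide +kernel)
            (CovZ.n2 (-6160, 21360) (by decide +kernel)
             (CovZ.leaf K2_ok TF_l9317 _)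
             (CovZ.leaf K2_ok TF_l9318 _))
            (CovZ.n1 (-6320, 21360) (by decide +kernel)
             (CovZ.n2 (-6320, 21440) (by decide +kernel)
              (CovZ.leaf K2_ok TF_l9319 _)
              (CovZ.n1 (-6360, 21400) (by decide +kernel)
               (CovZ.n2 (-6360, 21440) (by decide +kernel)
                (CovZ.leaf K2_ok TF_l9320 _)
                (CovZ.badM (by decide +kernel)))
               (CovZ.leaf K2_ok TF_l9321 _)))
             (CovZ.n1 (-6240, 21360) (by decide +kernel)
              (CovZ.leaf K2_ok TF_l9322 _)
              (CovZ.leaf K2_ok TF_l9323 _)))))))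
        (CovZ.n1 (-6080, 20800) (by decide +kernel)
         (CovZ.n2 (-6400, 20800) (by decide +kernel)
          (CovZ.n2 (-6240, 20960) (by decide +kernel)
           (CovZ.n2 (-6240, 20800) (by decide +kernel)
            (CovZ.n2 (-6320, 20880) (by decide +kernel)
             (CovZ.n2 (-6240, 20880) (by decide +kernel)
              (CovZ.n2 (-6280, 20840) (by decide +kernel)
               (CovZ.n2 (-6280, 20880) (by decide +kernel)
                (CovZ.leaf K2_ok TF_l9324 _)
                (CovZ.badM (by decide +kernel)))
               (CovZ.leaf K2_ok TF_l9325 _))
              (CovZ.n1 (-6280, 20920) (by decide +kernel)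
               (CovZ.leaf K2_ok TF_l9326 _)
               (CovZ.n1 (-6280, 20880) (by decide +kernel)
                (CovZ.badM (by decide +kernel))
                (CovZ.leaf K2_ok TF_l9327 _))))
             (CovZ.badM (by decide +kernel)))
            (CovZ.n1 (-6160, 20880) (by decide +kernel)
             (CovZ.n2 (-6160, 20800) (by decide +kernel)
              (CovZ.n2 (-6200, 20840) (by decide +kernel)
               (CovZ.leaf K2_ok TF_l9328 _)
               (CovZ.leaf K2_ok TF_l9329 _))
              (CovZ.leaf K2_ok TF_l9330 _))
             (CovZ.n1 (-6240, 20880) (by decide +kernel)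
              (CovZ.leaf K2_ok TF_l9331 _)
              (CovZ.n1 (-6200, 20840) (by decide +kernel)
               (CovZ.leaf K2_ok TF_l9332 _)
               (CovZ.leaf K2_ok TF_l9333 _)))))
           (CovZ.n1 (-6400, 20960) (by decide +kernel)
            (CovZ.n2 (-6320, 21040) (by decide +kernel)
             (CovZ.n2 (-6320, 20960) (by decide +kernel)
              (CovZ.badM (by decide +kernel))
              (CovZ.n1 (-6280, 21000) (by decide +kernel)
               (CovZ.n2 (-6280, 20960) (by decide +kernel)
                (CovZ.badM (by decide +kernel))
                (CovZ.leaf K2_ok TF_l9334 _))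
               (CovZ.badM (by decide +kernel))))
             (CovZ.badM (by decide +kernel)))
            (CovZ.n1 (-6320, 20880) (by decide +kernel)
             (CovZ.badM (by decide +kernel))
             (CovZ.n1 (-6320, 20960) (by decide +kernel)
              (CovZ.n2 (-6280, 20920) (by decide +kernel)
               (CovZ.badM (by decide +kernel))
               (CovZ.n1 (-6280, 20960) (by decide +kernel)
                (CovZ.leaf K2_ok TF_l9335 _)
                (CovZ.badM (by decide +kernel))))
              (CovZ.badM (by decide +kernel))))))
          (CovZ.n1 (-6240, 20640) (by decide +kernel)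
           (CovZ.badM (by decide +kernel))
           (CovZ.n1 (-6240, 20800) (by decide +kernel)
            (CovZ.n2 (-6160, 20720) (by decide +kernel)
             (CovZ.n2 (-6240, 20720) (by decide +kernel)
              (CovZ.leaf K2_ok TF_l9336 _)
              (CovZ.n1 (-6200, 20680) (by decide +kernel)
               (CovZ.leaf K2_ok TF_l9337 _)
               (CovZ.leaf K2_ok TF_l9338 _)))
             (CovZ.n1 (-6160, 20800) (by decide +kernel)
              (CovZ.leaf K2_ok TF_l9339 _)
              (CovZ.leaf K2_ok TF_l9340 _)))
            (CovZ.badM (by decide +kernel)))))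
         (CovZ.n1 (-6080, 21120) (by decide +kernel)
          (CovZ.n2 (-5920, 20960) (by decide +kernel)
           (CovZ.leaf K2_ok TF_l552 _)
           (CovZ.n1 (-5920, 21120) (by decide +kernel)
            (CovZ.leaf K2_ok TF_l553 _)
            (CovZ.leaf K2_ok TF_l554 _)))
          (CovZ.n1 (-6240, 20960) (by decide +kernel)
           (CovZ.n2 (-6240, 21120) (by decide +kernel)
            (CovZ.n2 (-6160, 21040) (by decide +kernel)
             (CovZ.leaf K2_ok TF_l555 _)
             (CovZ.leaf K2_ok TF_l556 _))
            (CovZ.n1 (-6320, 21040) (by decide +kernel)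
             (CovZ.n2 (-6320, 21120) (by decide +kernel)
              (CovZ.n2 (-6280, 21080) (by decide +kernel)
               (CovZ.badM (by decide +kernel))
               (CovZ.leaf K2_ok TF_l557 _))
              (CovZ.badM (by decide +kernel)))
             (CovZ.n1 (-6240, 21040) (by decide +kernel)
              (CovZ.n2 (-6280, 21000) (by decide +kernel)
               (CovZ.n2 (-6280, 21040) (by decide +kernel)
                (CovZ.leaf K2_ok TF_l9341 _)
                (CovZ.badM (by decide +kernel)))
               (CovZ.leaf K2_ok TF_l9342 _))
              (CovZ.n1 (-6280, 21080) (by decide +kernel)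
               (CovZ.leaf K2_ok TF_l558 _)
               (CovZ.leaf K2_ok TF_l9343 _)))))
           (CovZ.n1 (-6080, 20960) (by decide +kernel)
            (CovZ.n2 (-6160, 20880) (by decide +kernel)
             (CovZ.n2 (-6160, 20960) (by decide +kernel)
              (CovZ.leaf K2_ok TF_l559 _)
              (CovZ.leaf K2_ok TF_l9344 _))
             (CovZ.leaf K2_ok TF_l560 _))
            (CovZ.n1 (-6160, 21040) (by decide +kernel)
             (CovZ.leaf K2_ok TF_l561 _)
             (CovZ.leaf K2_ok TF_l562 _))))))))))

theorem TF_u124 : CovZ TF_M (toL (selN TF_LN 2854669609983783282919350205742712443670364224)) [0, 7, 4, 3] (12800, 23040) (13440, 22400) (14080, 23040) :=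
    (CovZ.n2 (13440, 23040) (by decide +kernel)
        (CovZ.n2 (13760, 22720) (by decide +kernel)
         (CovZ.n2 (13440, 22720) (by decide +kernel)
          (CovZ.n2 (13600, 22880) (by decide +kernel)
           (CovZ.n2 (13600, 22720) (by decide +kernel)
            (CovZ.n2 (13520, 22800) (by decide +kernel)
             (CovZ.n2 (13600, 22800) (by decide +kernel)
              (CovZ.leaf K2_ok TF_l5421 _)
              (CovZ.n1 (13560, 22840) (by decide +kernel)
               (CovZ.leaf K2_ok TF_l13787 _)
               (CovZ.leaf K2_ok TF_l5422 _)))
             (CovZ.leaf K2_ok TF_l5423 _))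
            (CovZ.subM 64 (by decide +kernel)
             (CovZ.n1 (13680, 22800) (by decide +kernel)
              (CovZ.n2 (13680, 22720) (by decide +kernel)
               (CovZ.n2 (13640, 22760) (by decide +kernel)
                (CovZ.badM (by decide +kernel))
                (CovZ.leaf K2_ok TF_l5424 _))
               (CovZ.badM (by decide +kernel)))
              (CovZ.n1 (13600, 22800) (by decide +kernel)
               (CovZ.leaf K2_ok TF_l13788 _)
               (CovZ.n1 (13640, 22760) (by decide +kernel)
                (CovZ.leaf K2_ok TF_l5425 _)
                (CovZ.leaf K2_ok TF_l13789 _))))))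
           (CovZ.n1 (13440, 22880) (by decide +kernel)
            (CovZ.subM 64 (by decide +kernel)
             (CovZ.n2 (13520, 22960) (by decide +kernel)
              (CovZ.n2 (13520, 22880) (by decide +kernel)
               (CovZ.n2 (13480, 22920) (by decide +kernel)
                (CovZ.n2 (13520, 22920) (by decide +kernel)
                 (CovZ.leaf K2_ok TF_l13790 _)
                 (CovZ.leaf K2_ok TF_l13791 _))
                (CovZ.leaf K2_ok TF_l5426 _))
               (CovZ.n1 (13560, 22920) (by decide +kernel)
                (CovZ.leaf K2_ok TF_l13792 _)
                (CovZ.leaf K2_ok TF_l13793 _)))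
              (CovZ.n1 (13440, 22960) (by decide +kernel)
               (CovZ.n2 (13480, 23000) (by decide +kernel)
                (CovZ.leaf K2_ok TF_l13794 _)
                (CovZ.leaf K2_ok TF_l13795 _))
               (CovZ.n1 (13480, 22920) (by decide +kernel)
                (CovZ.leaf K2_ok TF_l5427 _)
                (CovZ.n1 (13480, 22960) (by decide +kernel)
                 (CovZ.leaf K2_ok TF_l13796 _)
                 (CovZ.leaf K2_ok TF_l13797 _))))))
            (CovZ.n1 (13520, 22800) (by decide +kernel)
             (CovZ.leaf K2_ok TF_l5428 _)
             (CovZ.subM 64 (by decide +kernel)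
              (CovZ.n1 (13520, 22880) (by decide +kernel)
               (CovZ.n2 (13560, 22840) (by decide +kernel)
                (CovZ.leaf K2_ok TF_l5429 _)
                (CovZ.n1 (13560, 22880) (by decide +kernel)
                 (CovZ.leaf K2_ok TF_l13798 _)
                 (CovZ.leaf K2_ok TF_l13799 _)))
               (CovZ.leaf K2_ok TF_l5430 _))))))
          (CovZ.n1 (13600, 22560) (by decide +kernel)
           (CovZ.leaf K2_ok TF_l5431 _)
           (CovZ.n1 (13600, 22720) (by decide +kernel)
            (CovZ.n2 (13680, 22640) (by decide +kernel)
             (CovZ.leaf K2_ok TF_l5432 _)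
             (CovZ.n1 (13680, 22720) (by decide +kernel)
              (CovZ.n2 (13720, 22680) (by decide +kernel)
               (CovZ.leaf K2_ok TF_l5433 _)
               (CovZ.leaf K2_ok TF_l13800 _))
              (CovZ.leaf K2_ok TF_l5434 _)))
            (CovZ.n1 (13520, 22640) (by decide +kernel)
             (CovZ.leaf K2_ok TF_l5435 _)
             (CovZ.leaf K2_ok TF_l5436 _)))))
         (CovZ.badM (by decide +kernel)))
        (CovZ.n1 (13120, 22720) (by decide +kernel)
         (CovZ.n2 (13120, 23040) (by decide +kernel)
          (CovZ.n2 (13280, 22880) (by decide +kernel)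
           (CovZ.leaf K2_ok TF_l5437 _)
           (CovZ.subM 2854495385411919762116571938898990272765493312 (by decide +kernel)
            (CovZ.n1 (13280, 23040) (by decide +kernel)
             (CovZ.n2 (13360, 22960) (by decide +kernel)
              (CovZ.leaf K2_ok TF_l5438 _)
              (CovZ.n1 (13360, 23040) (by decide +kernel)
               (CovZ.n2 (13400, 23000) (by decide +kernel)
                (CovZ.leaf K2_ok TF_l5439 _)
                (CovZ.n1 (13400, 23040) (by decide +kernel)
                 (CovZ.leaf K2_ok TF_l13801 _)
                 (CovZ.leaf K2_ok TF_l13802 _)))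
               (CovZ.leaf K2_ok TF_l5440 _)))
             (CovZ.n1 (13200, 22960) (by decide +kernel)
              (CovZ.n2 (13200, 23040) (by decide +kernel)
               (CovZ.leaf K2_ok TF_l5441 _)
               (CovZ.leaf K2_ok TF_l5442 _))
              (CovZ.leaf K2_ok TF_l5443 _)))))
          (CovZ.n1 (12960, 22880) (by decide +kernel)
           (CovZ.n2 (12960, 23040) (by decide +kernel)
            (CovZ.leaf K2_ok TF_l5444 _)
            (CovZ.leaf K2_ok TF_l5445 _))
           (CovZ.n1 (13120, 22880) (by decide +kernel)
            (CovZ.leaf K2_ok TF_l5446 _)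
            (CovZ.leaf K2_ok TF_l5447 _))))
         (CovZ.n1 (13440, 22720) (by decide +kernel)
          (CovZ.n2 (13280, 22560) (by decide +kernel)
           (CovZ.n2 (13280, 22720) (by decide +kernel)
            (CovZ.leaf K2_ok TF_l5448 _)
            (CovZ.leaf K2_ok TF_l5449 _))
           (CovZ.n1 (13440, 22560) (by decide +kernel)
            (CovZ.leaf K2_ok TF_l5450 _)
            (CovZ.leaf K2_ok TF_l5451 _)))
          (CovZ.n1 (13280, 22880) (by decide +kernel)
           (CovZ.n2 (13440, 22880) (by decide +kernel)
            (CovZ.n2 (13360, 22800) (by decide +kernel)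
             (CovZ.n2 (13360, 22880) (by decide +kernel)
              (CovZ.leaf K2_ok TF_l5452 _)
              (CovZ.leaf K2_ok TF_l5453 _))
             (CovZ.leaf K2_ok TF_l5454 _))
            (CovZ.subM 2854495385411919762116571938898990272765493312 (by decide +kernel)
             (CovZ.n1 (13360, 22960) (by decide +kernel)
              (CovZ.n2 (13440, 22960) (by decide +kernel)
               (CovZ.leaf K2_ok TF_l5455 _)
               (CovZ.n1 (13400, 23000) (by decide +kernel)
                (CovZ.n2 (13440, 23000) (by decide +kernel)
                 (CovZ.leaf K2_ok TF_l13803 _)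
                 (CovZ.leaf K2_ok TF_l13804 _))
                (CovZ.leaf K2_ok TF_l5456 _)))
              (CovZ.leaf K2_ok TF_l5457 _))))
           (CovZ.leaf K2_ok TF_l5458 _)))))

theorem TF_u125 : CovZ TF_M (toL (selN TF_LN 2854669609983783282919350205742712443670364224)) [0, 7, 4, 3] (13440, 22400) (14080, 21760) (14080, 23040) :=
    (CovZ.n1 (14080, 22400) (by decide +kernel)
        (CovZ.n2 (13760, 22080) (by decide +kernel)
         (CovZ.n2 (13760, 22400) (by decide +kernel)
          (CovZ.n2 (13920, 22240) (by decide +kernel)
           (CovZ.leaf K2_ok TF_l5459 _)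
           (CovZ.n1 (13920, 22400) (by decide +kernel)
            (CovZ.n2 (14000, 22320) (by decide +kernel)
             (CovZ.leaf K2_ok TF_l5460 _)
             (CovZ.n1 (14000, 22400) (by decide +kernel)
              (CovZ.leaf K2_ok TF_l5461 _)
              (CovZ.leaf K2_ok TF_l5462 _)))
            (CovZ.leaf K2_ok TF_l5463 _)))
          (CovZ.n1 (13600, 22240) (by decide +kernel)
           (CovZ.n2 (13600, 22400) (by decide +kernel)
            (CovZ.leaf K2_ok TF_l5464 _)
            (CovZ.leaf K2_ok TF_l5465 _))
           (CovZ.leaf K2_ok TF_l5466 _)))
         (CovZ.n1 (14080, 22080) (by decide +kernel)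
          (CovZ.n2 (13920, 21920) (by decide +kernel)
           (CovZ.leaf K2_ok TF_l5467 _)
           (CovZ.leaf K2_ok TF_l5468 _))
          (CovZ.n1 (13920, 22240) (by decide +kernel)
           (CovZ.n2 (14080, 22240) (by decide +kernel)
            (CovZ.leaf K2_ok TF_l5469 _)
            (CovZ.n1 (14000, 22320) (by decide +kernel)
             (CovZ.n2 (14080, 22320) (by decide +kernel)
              (CovZ.leaf K2_ok TF_l5470 _)
              (CovZ.leaf K2_ok TF_l5471 _))
             (CovZ.leaf K2_ok TF_l5472 _)))
           (CovZ.leaf K2_ok TF_l5473 _))))
        (CovZ.n1 (13760, 22720) (by decide +kernel)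
         (CovZ.subM 1048576 (by decide +kernel)
          (CovZ.n2 (14080, 22720) (by decide +kernel)
           (CovZ.n2 (13920, 22560) (by decide +kernel)
            (CovZ.n2 (13920, 22720) (by decide +kernel)
             (CovZ.n2 (14000, 22640) (by decide +kernel)
              (CovZ.n2 (13920, 22640) (by decide +kernel)
               (CovZ.badM (by decide +kernel))
               (CovZ.n1 (13960, 22600) (by decide +kernel)
                (CovZ.n2 (13920, 22600) (by decide +kernel)
                 (CovZ.leaf K2_ok TF_l13805 _)
                 (CovZ.leaf K2_ok TF_l13806 _))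
                (CovZ.n1 (13960, 22640) (by decide +kernel)
                 (CovZ.n2 (13980, 22620) (by decide +kernel)
                  (CovZ.leaf K2_ok TF_l13807 _)
                  (CovZ.badM (by decide +kernel)))
                 (CovZ.n1 (13940, 22620) (by decide +kernel)
                  (CovZ.badM (by decide +kernel))
                  (CovZ.n1 (13960, 22620) (by decide +kernel)
                   (CovZ.leaf K2_ok TF_l13808 _)
                   (CovZ.badM (by decide +kernel)))))))
              (CovZ.badM (by decide +kernel)))
             (CovZ.n1 (13840, 22640) (by decide +kernel)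
              (CovZ.n2 (13840, 22720) (by decide +kernel)
               (CovZ.n2 (13880, 22680) (by decide +kernel)
                (CovZ.n2 (13840, 22680) (by decide +kernel)
                 (CovZ.badM (by decide +kernel))
                 (CovZ.leaf K2_ok TF_l13809 _))
                (CovZ.badM (by decide +kernel)))
               (CovZ.n1 (13800, 22680) (by decide +kernel)
                (CovZ.badM (by decide +kernel))
                (CovZ.n1 (13840, 22680) (by decide +kernel)
                 (CovZ.leaf K2_ok TF_l13810 _)
                 (CovZ.badM (by decide +kernel)))))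
              (CovZ.n1 (13920, 22640) (by decide +kernel)
               (CovZ.n2 (13880, 22600) (by decide +kernel)
                (CovZ.n2 (13880, 22640) (by decide +kernel)
                 (CovZ.leaf K2_ok TF_l13811 _)
                 (CovZ.leaf K2_ok TF_l13812 _))
                (CovZ.n1 (13920, 22600) (by decide +kernel)
                 (CovZ.leaf K2_ok TF_l13813 _)
                 (CovZ.leaf K2_ok TF_l13814 _)))
               (CovZ.n1 (13880, 22680) (by decide +kernel)
                (CovZ.badM (by decide +kernel))
                (CovZ.n1 (13880, 22640) (by decide +kernel)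
                 (CovZ.leaf K2_ok TF_l13815 _)
                 (CovZ.badM (by decide +kernel)))))))
            (CovZ.n1 (14080, 22560) (by decide +kernel)
             (CovZ.n2 (14000, 22480) (by decide +kernel)
              (CovZ.n2 (14000, 22560) (by decide +kernel)
               (CovZ.badM (by decide +kernel))
               (CovZ.n1 (13960, 22520) (by decide +kernel)
                (CovZ.n2 (13960, 22560) (by decide +kernel)
                 (CovZ.leaf K2_ok TF_l13816 _)
                 (CovZ.leaf K2_ok TF_l13817 _))
                (CovZ.n1 (14000, 22520) (by decide +kernel)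
                 (CovZ.leaf K2_ok TF_l13818 _)
                 (CovZ.leaf K2_ok TF_l13819 _))))
              (CovZ.badM (by decide +kernel)))
             (CovZ.n1 (14000, 22640) (by decide +kernel)
              (CovZ.badM (by decide +kernel))
              (CovZ.n1 (14000, 22560) (by decide +kernel)
               (CovZ.n2 (13960, 22600) (by decide +kernel)
                (CovZ.n2 (14000, 22600) (by decide +kernel)
                 (CovZ.n2 (13980, 22580) (by decide +kernel)
                  (CovZ.n2 (13980, 22600) (by decide +kernel)
                   (CovZ.leaf K2_ok TF_l13820 _)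
                   (CovZ.leaf K2_ok TF_l13821 _))
                  (CovZ.leaf K2_ok TF_l13822 _))
                 (CovZ.n1 (13980, 22620) (by decide +kernel)
                  (CovZ.n2 (14000, 22620) (by decide +kernel)
                   (CovZ.leaf K2_ok TF_l13823 _)
                   (CovZ.badM (by decide +kernel)))
                  (CovZ.leaf K2_ok TF_l13824 _)))
                (CovZ.n1 (13960, 22560) (by decide +kernel)
                 (CovZ.leaf K2_ok TF_l13825 _)
                 (CovZ.leaf K2_ok TF_l13826 _)))
               (CovZ.badM (by decide +kernel))))))
           (CovZ.badM (by decide +kernel))))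
         (CovZ.n1 (13760, 22400) (by decide +kernel)
          (CovZ.n2 (13600, 22560) (by decide +kernel)
           (CovZ.n2 (13760, 22560) (by decide +kernel)
            (CovZ.n2 (13680, 22480) (by decide +kernel)
             (CovZ.leaf K2_ok TF_l5474 _)
             (CovZ.leaf K2_ok TF_l5475 _))
            (CovZ.n1 (13680, 22640) (by decide +kernel)
             (CovZ.n2 (13760, 22640) (by decide +kernel)
              (CovZ.leaf K2_ok TF_l5476 _)
              (CovZ.n1 (13720, 22680) (by decide +kernel)
               (CovZ.leaf K2_ok TF_l13827 _)
               (CovZ.leaf K2_ok TF_l5477 _)))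
             (CovZ.leaf K2_ok TF_l5478 _)))
           (CovZ.leaf K2_ok TF_l5479 _))
          (CovZ.n1 (13920, 22560) (by decide +kernel)
           (CovZ.n2 (13920, 22400) (by decide +kernel)
            (CovZ.n2 (13840, 22480) (by decide +kernel)
             (CovZ.n2 (13920, 22480) (by decide +kernel)
              (CovZ.leaf K2_ok TF_l5480 _)
              (CovZ.leaf K2_ok TF_l5481 _))
             (CovZ.leaf K2_ok TF_l5482 _))
            (CovZ.n1 (14000, 22480) (by decide +kernel)
             (CovZ.n2 (14000, 22400) (by decide +kernel)
              (CovZ.leaf K2_ok TF_l5483 _)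
              (CovZ.badM (by decide +kernel)))
             (CovZ.leaf K2_ok TF_l5484 _)))
           (CovZ.n1 (13760, 22560) (by decide +kernel)
            (CovZ.subM 1048640 (by decide +kernel)
             (CovZ.n2 (13840, 22640) (by decide +kernel)
              (CovZ.n2 (13840, 22560) (by decide +kernel)
               (CovZ.n2 (13800, 22600) (by decide +kernel)
                (CovZ.leaf K2_ok TF_l13828 _)
                (CovZ.leaf K2_ok TF_l5485 _))
               (CovZ.leaf K2_ok TF_l13829 _))
              (CovZ.n1 (13760, 22640) (by decide +kernel)
               (CovZ.leaf K2_ok TF_l13830 _)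
               (CovZ.n1 (13800, 22600) (by decide +kernel)
                (CovZ.leaf K2_ok TF_l5486 _)
                (CovZ.leaf K2_ok TF_l13831 _)))))
            (CovZ.n1 (13840, 22480) (by decide +kernel)
             (CovZ.leaf K2_ok TF_l5487 _)
             (CovZ.n1 (13840, 22560) (by decide +kernel)
              (CovZ.n2 (13880, 22520) (by decide +kernel)
               (CovZ.leaf K2_ok TF_l5488 _)
               (CovZ.leaf K2_ok TF_l13832 _))
              (CovZ.leaf K2_ok TF_l5489 _))))))))

theorem TF_u126 : CovZ TF_M (toL (selN TF_LN 94198347718593352150001618849760592970446274624)) [0, 7, 4, 3] (16640, 21760) (16000, 21120) (16640, 20480) :=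
    (CovZ.n2 (16640, 21120) (by decide +kernel)
        (CovZ.n2 (16320, 20800) (by decide +kernel)
         (CovZ.n2 (16320, 21120) (by decide +kernel)
          (CovZ.badM (by decide +kernel))
          (CovZ.n1 (16160, 20960) (by decide +kernel)
           (CovZ.n2 (16160, 21120) (by decide +kernel)
            (CovZ.n2 (16240, 21040) (by decide +kernel)
             (CovZ.n2 (16160, 21040) (by decide +kernel)
              (CovZ.n2 (16200, 21080) (by decide +kernel)
               (CovZ.n2 (16200, 21040) (by decide +kernel)
                (CovZ.badM (by decide +kernel))
                (CovZ.n1 (16220, 21060) (by decide +kernel)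
                 (CovZ.badM (by decide +kernel))
                 (CovZ.badM (by decide +kernel))))
               (CovZ.badM (by decide +kernel)))
              (CovZ.n1 (16200, 21000) (by decide +kernel)
               (CovZ.n2 (16160, 21000) (by decide +kernel)
                (CovZ.n2 (16180, 21020) (by decide +kernel)
                 (CovZ.badM (by decide +kernel))
                 (CovZ.badM (by decide +kernel)))
                (CovZ.badM (by decide +kernel)))
               (CovZ.n1 (16200, 21040) (by decide +kernel)
                (CovZ.badM (by decide +kernel))
                (CovZ.n1 (16180, 21020) (by decide +kernel)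
                 (CovZ.badM (by decide +kernel))
                 (CovZ.badM (by decide +kernel))))))
             (CovZ.n1 (16240, 21120) (by decide +kernel)
              (CovZ.n2 (16280, 21080) (by decide +kernel)
               (CovZ.n2 (16240, 21080) (by decide +kernel)
                (CovZ.n2 (16260, 21100) (by decide +kernel)
                 (CovZ.badM (by decide +kernel))
                 (CovZ.badM (by decide +kernel)))
                (CovZ.badM (by decide +kernel)))
               (CovZ.n1 (16280, 21120) (by decide +kernel)
                (CovZ.badM (by decide +kernel))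
                (CovZ.n1 (16260, 21100) (by decide +kernel)
                 (CovZ.badM (by decide +kernel))
                 (CovZ.badM (by decide +kernel)))))
              (CovZ.n1 (16200, 21080) (by decide +kernel)
               (CovZ.badM (by decide +kernel))
               (CovZ.n1 (16240, 21080) (by decide +kernel)
                (CovZ.n2 (16220, 21060) (by decide +kernel)
                 (CovZ.badM (by decide +kernel))
                 (CovZ.badM (by decide +kernel)))
                (CovZ.badM (by decide +kernel))))))
            (CovZ.n1 (16080, 21040) (by decide +kernel)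
             (CovZ.badM (by decide +kernel))
             (CovZ.n1 (16160, 21040) (by decide +kernel)
              (CovZ.n2 (16120, 21000) (by decide +kernel)
               (CovZ.badM (by decide +kernel))
               (CovZ.n1 (16160, 21000) (by decide +kernel)
                (CovZ.n2 (16140, 20980) (by decide +kernel)
                 (CovZ.badM (by decide +kernel))
                 (CovZ.badM (by decide +kernel)))
                (CovZ.badM (by decide +kernel))))
              (CovZ.badM (by decide +kernel)))))
           (CovZ.badM (by decide +kernel))))
         (CovZ.n1 (16640, 20800) (by decide +kernel)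
          (CovZ.n2 (16480, 20640) (by decide +kernel)
           (CovZ.n2 (16480, 20800) (by decide +kernel)
            (CovZ.badM (by decide +kernel))
            (CovZ.n1 (16400, 20720) (by decide +kernel)
             (CovZ.badM (by decide +kernel))
             (CovZ.badM (by decide +kernel))))
           (CovZ.badM (by decide +kernel)))
          (CovZ.n1 (16480, 20960) (by decide +kernel)
           (CovZ.badM (by decide +kernel))
           (CovZ.n1 (16480, 20800) (by decide +kernel)
            (CovZ.badM (by decide +kernel))
            (CovZ.badM (by decide +kernel))))))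
        (CovZ.n1 (16320, 21440) (by decide +kernel)
         (CovZ.n2 (16640, 21440) (by decide +kernel)
          (CovZ.n2 (16480, 21280) (by decide +kernel)
           (CovZ.n2 (16480, 21440) (by decide +kernel)
            (CovZ.n2 (16560, 21360) (by decide +kernel)
             (CovZ.n2 (16480, 21360) (by decide +kernel)
              (CovZ.n2 (16520, 21400) (by decide +kernel)
               (CovZ.badM (by decide +kernel))
               (CovZ.badM (by decide +kernel)))
              (CovZ.badM (by decide +kernel)))
             (CovZ.n1 (16560, 21440) (by decide +kernel)
              (CovZ.badM (by decide +kernel))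
              (CovZ.n1 (16520, 21400) (by decide +kernel)
               (CovZ.badM (by decide +kernel))
               (CovZ.badM (by decide +kernel)))))
            (CovZ.n1 (16400, 21360) (by decide +kernel)
             (CovZ.badM (by decide +kernel))
             (CovZ.n1 (16480, 21360) (by decide +kernel)
              (CovZ.n2 (16440, 21320) (by decide +kernel)
               (CovZ.badM (by decide +kernel))
               (CovZ.badM (by decide +kernel)))
              (CovZ.badM (by decide +kernel)))))
           (CovZ.badM (by decide +kernel)))
          (CovZ.n1 (16480, 21600) (by decide +kernel)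
           (CovZ.n2 (16640, 21600) (by decide +kernel)
            (CovZ.n2 (16560, 21520) (by decide +kernel)
             (CovZ.badM (by decide +kernel))
             (CovZ.n1 (16640, 21520) (by decide +kernel)
              (CovZ.n2 (16600, 21480) (by decide +kernel)
               (CovZ.badM (by decide +kernel))
               (CovZ.badM (by decide +kernel)))
              (CovZ.badM (by decide +kernel))))
            (CovZ.badM (by decide +kernel)))
           (CovZ.n1 (16480, 21440) (by decide +kernel)
            (CovZ.badM (by decide +kernel))
            (CovZ.n1 (16560, 21520) (by decide +kernel)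
             (CovZ.n2 (16560, 21440) (by decide +kernel)
              (CovZ.badM (by decide +kernel))
              (CovZ.n1 (16600, 21480) (by decide +kernel)
               (CovZ.badM (by decide +kernel))
               (CovZ.badM (by decide +kernel))))
             (CovZ.badM (by decide +kernel))))))
         (CovZ.n1 (16320, 21120) (by decide +kernel)
          (CovZ.n2 (16160, 21280) (by decide +kernel)
           (CovZ.n2 (16320, 21280) (by decide +kernel)
            (CovZ.n2 (16240, 21200) (by decide +kernel)
             (CovZ.badM (by decide +kernel))
             (CovZ.n1 (16320, 21200) (by decide +kernel)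
              (CovZ.n2 (16280, 21160) (by decide +kernel)
               (CovZ.badM (by decide +kernel))
               (CovZ.n1 (16320, 21160) (by decide +kernel)
                (CovZ.n2 (16300, 21140) (by decide +kernel)
                 (CovZ.badM (by decide +kernel))
                 (CovZ.badM (by decide +kernel)))
                (CovZ.badM (by decide +kernel))))
              (CovZ.badM (by decide +kernel))))
            (CovZ.badM (by decide +kernel)))
           (CovZ.n1 (16160, 21120) (by decide +kernel)
            (CovZ.badM (by decide +kernel))
            (CovZ.n1 (16240, 21200) (by decide +kernel)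
             (CovZ.n2 (16240, 21120) (by decide +kernel)
              (CovZ.badM (by decide +kernel))
              (CovZ.n1 (16280, 21160) (by decide +kernel)
               (CovZ.n2 (16280, 21120) (by decide +kernel)
                (CovZ.badM (by decide +kernel))
                (CovZ.n1 (16300, 21140) (by decide +kernel)
                 (CovZ.badM (by decide +kernel))
                 (CovZ.badM (by decide +kernel))))
               (CovZ.badM (by decide +kernel))))
             (CovZ.badM (by decide +kernel)))))
          (CovZ.n1 (16480, 21280) (by decide +kernel)
           (CovZ.badM (by decide +kernel))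
           (CovZ.n1 (16320, 21280) (by decide +kernel)
            (CovZ.n2 (16400, 21360) (by decide +kernel)
             (CovZ.n2 (16400, 21280) (by decide +kernel)
              (CovZ.badM (by decide +kernel))
              (CovZ.n1 (16440, 21320) (by decide +kernel)
               (CovZ.badM (by decide +kernel))
               (CovZ.badM (by decide +kernel))))
             (CovZ.badM (by decide +kernel)))
            (CovZ.n1 (16400, 21200) (by decide +kernel)
             (CovZ.n2 (16320, 21200) (by decide +kernel)
              (CovZ.n2 (16360, 21240) (by decide +kernel)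
               (CovZ.n2 (16360, 21200) (by decide +kernel)
                (CovZ.badM (by decide +kernel))
                (CovZ.n1 (16380, 21220) (by decide +kernel)
                 (CovZ.badM (by decide +kernel))
                 (CovZ.badM (by decide +kernel))))
               (CovZ.badM (by decide +kernel)))
              (CovZ.n1 (16360, 21160) (by decide +kernel)
               (CovZ.n2 (16320, 21160) (by decide +kernel)
                (CovZ.n2 (16340, 21180) (by decide +kernel)
                 (CovZ.badM (by decide +kernel))
                 (CovZ.badM (by decide +kernel)))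
                (CovZ.badM (by decide +kernel)))
               (CovZ.n1 (16360, 21200) (by decide +kernel)
                (CovZ.badM (by decide +kernel))
                (CovZ.n1 (16340, 21180) (by decide +kernel)
                 (CovZ.badM (by decide +kernel))
                 (CovZ.badM (by decide +kernel))))))
             (CovZ.n1 (16400, 21280) (by decide +kernel)
              (CovZ.badM (by decide +kernel))
              (CovZ.n1 (16360, 21240) (by decide +kernel)
               (CovZ.badM (by decide +kernel))
               (CovZ.n1 (16400, 21240) (by decide +kernel)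
                (CovZ.n2 (16380, 21220) (by decide +kernel)
                 (CovZ.badM (by decide +kernel))
                 (CovZ.badM (by decide +kernel)))
                (CovZ.badM (by decide +kernel)))))))))))

theorem TF_u127 : CovZ TF_M (toL (selN TF_LN 94198347718593352150001618849760592970446274624)) [0, 7, 4, 3] (16000, 21120) (15360, 20480) (16640, 20480) :=
    (CovZ.n1 (16000, 20480) (by decide +kernel)
        (CovZ.n2 (15680, 20800) (by decide +kernel)
         (CovZ.n2 (16000, 20800) (by decide +kernel)
          (CovZ.n2 (15840, 20640) (by decide +kernel)
           (CovZ.n2 (15840, 20800) (by decide +kernel)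
            (CovZ.leaf K2_ok TF_l5849 _)
            (CovZ.leaf K2_ok TF_l5850 _))
           (CovZ.badM (by decide +kernel)))
          (CovZ.n1 (15840, 20960) (by decide +kernel)
           (CovZ.n2 (16000, 20960) (by decide +kernel)
            (CovZ.n2 (15920, 20880) (by decide +kernel)
             (CovZ.badM (by decide +kernel))
             (CovZ.n1 (16000, 20880) (by decide +kernel)
              (CovZ.leaf K2_ok TF_l5855 _)
              (CovZ.badM (by decide +kernel))))
            (CovZ.badM (by decide +kernel)))
           (CovZ.leaf K2_ok TF_l5858 _)))
         (CovZ.leaf K2_ok TF_l5859 _))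
        (CovZ.n1 (16320, 20800) (by decide +kernel)
         (CovZ.n2 (16320, 20480) (by decide +kernel)
          (CovZ.n2 (16160, 20640) (by decide +kernel)
           (CovZ.n2 (16320, 20640) (by decide +kernel)
            (CovZ.n2 (16240, 20560) (by decide +kernel)
             (CovZ.n2 (16240, 20640) (by decide +kernel)
              (CovZ.n2 (16280, 20600) (by decide +kernel)
               (CovZ.leaf K2_ok TF_l14281 _)
               (CovZ.leaf K2_ok TF_l14282 _))
              (CovZ.leaf K2_ok TF_l14283 _))
             (CovZ.n1 (16320, 20560) (by decide +kernel)
              (CovZ.leaf K2_ok TF_l14284 _)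
              (CovZ.n1 (16280, 20600) (by decide +kernel)
               (CovZ.leaf K2_ok TF_l14285 _)
               (CovZ.leaf K2_ok TF_l14286 _))))
            (CovZ.n1 (16240, 20720) (by decide +kernel)
             (CovZ.n2 (16320, 20720) (by decide +kernel)
              (CovZ.n2 (16280, 20680) (by decide +kernel)
               (CovZ.badM (by decide +kernel))
               (CovZ.n1 (16320, 20680) (by decide +kernel)
                (CovZ.leaf K2_ok TF_l14287 _)
                (CovZ.n1 (16300, 20700) (by decide +kernel)
                 (CovZ.badM (by decide +kernel))
                 (CovZ.leaf K2_ok TF_l14288 _))))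
              (CovZ.badM (by decide +kernel)))
             (CovZ.n1 (16240, 20640) (by decide +kernel)
              (CovZ.badM (by decide +kernel))
              (CovZ.leaf K2_ok TF_l14289 _))))
           (CovZ.n1 (16160, 20480) (by decide +kernel)
            (CovZ.leaf K2_ok TF_l5860 _)
            (CovZ.leaf K2_ok TF_l14290 _)))
          (CovZ.n1 (16480, 20640) (by decide +kernel)
           (CovZ.n2 (16480, 20480) (by decide +kernel)
            (CovZ.n2 (16400, 20560) (by decide +kernel)
             (CovZ.n2 (16480, 20560) (by decide +kernel)
              (CovZ.n2 (16440, 20520) (by decide +kernel)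
               (CovZ.n2 (16440, 20560) (by decide +kernel)
                (CovZ.badM (by decide +kernel))
                (CovZ.n1 (16420, 20540) (by decide +kernel)
                 (CovZ.leaf K2_ok TF_l14291 _)
                 (CovZ.leaf K2_ok TF_l14292 _)))
               (CovZ.badM (by decide +kernel)))
              (CovZ.n1 (16440, 20600) (by decide +kernel)
               (CovZ.badM (by decide +kernel))
               (CovZ.n1 (16440, 20560) (by decide +kernel)
                (CovZ.n2 (16420, 20580) (by decide +kernel)
                 (CovZ.badM (by decide +kernel))
                 (CovZ.leaf K2_ok TF_l14293 _))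
                (CovZ.badM (by decide +kernel)))))
             (CovZ.n1 (16400, 20480) (by decide +kernel)
              (CovZ.n2 (16360, 20520) (by decide +kernel)
               (CovZ.leaf K2_ok TF_l14294 _)
               (CovZ.leaf K2_ok TF_l14295 _))
              (CovZ.leaf K2_ok TF_l14296 _)))
            (CovZ.badM (by decide +kernel)))
           (CovZ.n1 (16320, 20640) (by decide +kernel)
            (CovZ.n2 (16400, 20720) (by decide +kernel)
             (CovZ.n2 (16400, 20640) (by decide +kernel)
              (CovZ.n2 (16360, 20680) (by decide +kernel)
               (CovZ.badM (by decide +kernel))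
               (CovZ.n1 (16360, 20640) (by decide +kernel)
                (CovZ.n2 (16340, 20660) (by decide +kernel)
                 (CovZ.badM (by decide +kernel))
                 (CovZ.leaf K2_ok TF_l14297 _))
                (CovZ.badM (by decide +kernel))))
              (CovZ.badM (by decide +kernel)))
             (CovZ.n1 (16320, 20720) (by decide +kernel)
              (CovZ.badM (by decide +kernel))
              (CovZ.n1 (16360, 20680) (by decide +kernel)
               (CovZ.n2 (16320, 20680) (by decide +kernel)
                (CovZ.badM (by decide +kernel))
                (CovZ.n1 (16340, 20660) (by decide +kernel)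
                 (CovZ.leaf K2_ok TF_l14298 _)
                 (CovZ.badM (by decide +kernel))))
               (CovZ.badM (by decide +kernel)))))
            (CovZ.n1 (16400, 20560) (by decide +kernel)
             (CovZ.n2 (16320, 20560) (by decide +kernel)
              (CovZ.leaf K2_ok TF_l14299 _)
              (CovZ.n1 (16360, 20520) (by decide +kernel)
               (CovZ.leaf K2_ok TF_l14300 _)
               (CovZ.leaf K2_ok TF_l14301 _)))
             (CovZ.n1 (16400, 20640) (by decide +kernel)
              (CovZ.n2 (16440, 20600) (by decide +kernel)
               (CovZ.n2 (16400, 20600) (by decide +kernel)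
                (CovZ.badM (by decide +kernel))
                (CovZ.n1 (16420, 20580) (by decide +kernel)
                 (CovZ.leaf K2_ok TF_l14302 _)
                 (CovZ.badM (by decide +kernel))))
               (CovZ.badM (by decide +kernel)))
              (CovZ.n1 (16360, 20600) (by decide +kernel)
               (CovZ.n2 (16360, 20640) (by decide +kernel)
                (CovZ.n2 (16380, 20620) (by decide +kernel)
                 (CovZ.leaf K2_ok TF_l14303 _)
                 (CovZ.badM (by decide +kernel)))
                (CovZ.n1 (16340, 20620) (by decide +kernel)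
                 (CovZ.leaf K2_ok TF_l14304 _)
                 (CovZ.leaf K2_ok TF_l14305 _)))
               (CovZ.n1 (16400, 20600) (by decide +kernel)
                (CovZ.leaf K2_ok TF_l14306 _)
                (CovZ.n1 (16380, 20620) (by decide +kernel)
                 (CovZ.n2 (16400, 20620) (by decide +kernel)
                  (CovZ.leaf K2_ok TF_l15972 _)
                  (CovZ.badM (by decide +kernel)))
                 (CovZ.leaf K2_ok TF_l14307 _)))))))))
         (CovZ.n1 (16000, 20800) (by decide +kernel)
          (CovZ.n2 (16160, 20960) (by decide +kernel)
           (CovZ.badM (by decide +kernel))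
           (CovZ.n1 (16000, 20960) (by decide +kernel)
            (CovZ.n2 (16080, 21040) (by decide +kernel)
             (CovZ.n2 (16080, 20960) (by decide +kernel)
              (CovZ.badM (by decide +kernel))
              (CovZ.n1 (16120, 21000) (by decide +kernel)
               (CovZ.n2 (16120, 20960) (by decide +kernel)
                (CovZ.badM (by decide +kernel))
                (CovZ.n1 (16140, 20980) (by decide +kernel)
                 (CovZ.badM (by decide +kernel))
                 (CovZ.badM (by decide +kernel))))
               (CovZ.badM (by decide +kernel))))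
             (CovZ.badM (by decide +kernel)))
            (CovZ.n1 (16080, 20880) (by decide +kernel)
             (CovZ.leaf K2_ok TF_l14308 _)
             (CovZ.n1 (16080, 20960) (by decide +kernel)
              (CovZ.n2 (16120, 20920) (by decide +kernel)
               (CovZ.n2 (16080, 20920) (by decide +kernel)
                (CovZ.leaf K2_ok TF_l14309 _)
                (CovZ.badM (by decide +kernel)))
               (CovZ.n1 (16120, 20960) (by decide +kernel)
                (CovZ.badM (by decide +kernel))
                (CovZ.n1 (16100, 20940) (by decide +kernel)
                 (CovZ.badM (by decide +kernel))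
                 (CovZ.badM (by decide +kernel)))))
              (CovZ.n1 (16040, 20920) (by decide +kernel)
               (CovZ.badM (by decide +kernel))
               (CovZ.n1 (16080, 20920) (by decide +kernel)
                (CovZ.leaf K2_ok TF_l14310 _)
                (CovZ.badM (by decide +kernel))))))))
          (CovZ.badM (by decide +kernel)))))

theorem TF_u128 : CovZ TF_M (toL (selN TF_LN 89213869853878355374737907723588286963318800)) [0, 7, 4, 3] (-3840, 24320) (-3200, 23680) (-2560, 24320) :=
    (CovZ.subM 10889038337618460098241801984548314021888 (by decide +kernel)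
       (CovZ.n2 (-3200, 24320) (by decide +kernel)
        (CovZ.n2 (-2880, 24000) (by decide +kernel)
         (CovZ.n2 (-3200, 24000) (by decide +kernel)
          (CovZ.n2 (-3040, 24160) (by decide +kernel)
           (CovZ.n2 (-3040, 24000) (by decide +kernel)
            (CovZ.n2 (-3120, 24080) (by decide +kernel)
             (CovZ.n2 (-3040, 24080) (by decide +kernel)
              (CovZ.n2 (-3080, 24040) (by decide +kernel)
               (CovZ.badM (by decide +kernel))
               (CovZ.n1 (-3040, 24040) (by decide +kernel)
                (CovZ.leaf K2_ok TF_l9487 _)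
                (CovZ.badM (by decide +kernel))))
              (CovZ.badM (by decide +kernel)))
             (CovZ.n1 (-3120, 24000) (by decide +kernel)
              (CovZ.badM (by decide +kernel))
              (CovZ.n1 (-3080, 24040) (by decide +kernel)
               (CovZ.leaf K2_ok TF_l9488 _)
               (CovZ.badM (by decide +kernel)))))
            (CovZ.n1 (-2960, 24080) (by decide +kernel)
             (CovZ.n2 (-2960, 24000) (by decide +kernel)
              (CovZ.n2 (-3000, 24040) (by decide +kernel)
               (CovZ.leaf K2_ok TF_l9489 _)
               (CovZ.leaf K2_ok TF_l9490 _))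
              (CovZ.leaf K2_ok TF_l9491 _))
             (CovZ.n1 (-3040, 24080) (by decide +kernel)
              (CovZ.leaf K2_ok TF_l9492 _)
              (CovZ.n1 (-3000, 24040) (by decide +kernel)
               (CovZ.leaf K2_ok TF_l9493 _)
               (CovZ.leaf K2_ok TF_l9494 _)))))
           (CovZ.badM (by decide +kernel)))
          (CovZ.n1 (-3040, 23840) (by decide +kernel)
           (CovZ.n2 (-3200, 23840) (by decide +kernel)
            (CovZ.n2 (-3120, 23920) (by decide +kernel)
             (CovZ.n2 (-3120, 23840) (by decide +kernel)
              (CovZ.n2 (-3160, 23880) (by decide +kernel)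
               (CovZ.leaf K2_ok TF_l9495 _)
               (CovZ.leaf K2_ok TF_l9496 _))
              (CovZ.leaf K2_ok TF_l9497 _))
             (CovZ.n1 (-3200, 23920) (by decide +kernel)
              (CovZ.badM (by decide +kernel))
              (CovZ.n1 (-3160, 23880) (by decide +kernel)
               (CovZ.leaf K2_ok TF_l9498 _)
               (CovZ.n1 (-3160, 23920) (by decide +kernel)
                (CovZ.leaf K2_ok TF_l9499 _)
                (CovZ.leaf K2_ok TF_l9500 _)))))
            (CovZ.n1 (-3120, 23760) (by decide +kernel)
             (CovZ.n2 (-3200, 23760) (by decide +kernel)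
              (CovZ.leaf K2_ok TF_l9501 _)
              (CovZ.leaf K2_ok TF_l9502 _))
             (CovZ.n1 (-3120, 23840) (by decide +kernel)
              (CovZ.leaf K2_ok TF_l9503 _)
              (CovZ.n1 (-3160, 23800) (by decide +kernel)
               (CovZ.leaf K2_ok TF_l9504 _)
               (CovZ.leaf K2_ok TF_l9505 _)))))
           (CovZ.n1 (-3040, 24000) (by decide +kernel)
            (CovZ.n2 (-2960, 23920) (by decide +kernel)
             (CovZ.leaf K2_ok TF_l9506 _)
             (CovZ.n1 (-2960, 24000) (by decide +kernel)
              (CovZ.leaf K2_ok TF_l9507 _)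
              (CovZ.leaf K2_ok TF_l9508 _)))
            (CovZ.n1 (-3120, 23920) (by decide +kernel)
             (CovZ.n2 (-3120, 24000) (by decide +kernel)
              (CovZ.n2 (-3080, 23960) (by decide +kernel)
               (CovZ.badM (by decide +kernel))
               (CovZ.n1 (-3080, 24000) (by decide +kernel)
                (CovZ.leaf K2_ok TF_l9509 _)
                (CovZ.badM (by decide +kernel))))
              (CovZ.badM (by decide +kernel)))
             (CovZ.n1 (-3040, 23920) (by decide +kernel)
              (CovZ.leaf K2_ok TF_l9510 _)
              (CovZ.n1 (-3080, 23960) (by decide +kernel)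
               (CovZ.leaf K2_ok TF_l9511 _)
               (CovZ.leaf K2_ok TF_l9512 _)))))))
         (CovZ.n1 (-2880, 24320) (by decide +kernel)
          (CovZ.n2 (-2720, 24160) (by decide +kernel)
           (CovZ.n2 (-2880, 24160) (by decide +kernel)
            (CovZ.n2 (-2800, 24240) (by decide +kernel)
             (CovZ.n2 (-2800, 24160) (by decide +kernel)
              (CovZ.n2 (-2840, 24200) (by decide +kernel)
               (CovZ.leaf K2_ok TF_l9513 _)
               (CovZ.leaf K2_ok TF_l9514 _))
              (CovZ.leaf K2_ok TF_l860 _))
             (CovZ.n1 (-2880, 24240) (by decide +kernel)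
              (CovZ.leaf K2_ok TF_l9515 _)
              (CovZ.n1 (-2840, 24200) (by decide +kernel)
               (CovZ.leaf K2_ok TF_l9516 _)
               (CovZ.leaf K2_ok TF_l9517 _))))
            (CovZ.n1 (-2800, 24080) (by decide +kernel)
             (CovZ.leaf K2_ok TF_l9518 _)
             (CovZ.n1 (-2800, 24160) (by decide +kernel)
              (CovZ.leaf K2_ok TF_l861 _)
              (CovZ.leaf K2_ok TF_l9519 _))))
           (CovZ.n1 (-2720, 24320) (by decide +kernel)
            (CovZ.n2 (-2640, 24240) (by decide +kernel)
             (CovZ.leaf K2_ok TF_l862 _)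
             (CovZ.leaf K2_ok TF_l863 _))
            (CovZ.n1 (-2800, 24240) (by decide +kernel)
             (CovZ.n2 (-2800, 24320) (by decide +kernel)
              (CovZ.n2 (-2760, 24280) (by decide +kernel)
               (CovZ.leaf K2_ok TF_l9520 _)
               (CovZ.leaf K2_ok TF_l864 _))
              (CovZ.n1 (-2840, 24280) (by decide +kernel)
               (CovZ.n2 (-2840, 24320) (by decide +kernel)
                (CovZ.leaf K2_ok TF_l9521 _)
                (CovZ.leaf K2_ok TF_l9522 _))
               (CovZ.leaf K2_ok TF_l9523 _)))
             (CovZ.n1 (-2720, 24240) (by decide +kernel)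
              (CovZ.leaf K2_ok TF_l865 _)
              (CovZ.n1 (-2760, 24280) (by decide +kernel)
               (CovZ.leaf K2_ok TF_l866 _)
               (CovZ.leaf K2_ok TF_l867 _))))))
          (CovZ.n1 (-3040, 24160) (by decide +kernel)
           (CovZ.badM (by decide +kernel))
           (CovZ.n1 (-2880, 24160) (by decide +kernel)
            (CovZ.n2 (-2960, 24080) (by decide +kernel)
             (CovZ.n2 (-2960, 24160) (by decide +kernel)
              (CovZ.n2 (-2920, 24120) (by decide +kernel)
               (CovZ.leaf K2_ok TF_l9524 _)
               (CovZ.leaf K2_ok TF_l9525 _))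
              (CovZ.n1 (-3000, 24120) (by decide +kernel)
               (CovZ.badM (by decide +kernel))
               (CovZ.n1 (-2960, 24120) (by decide +kernel)
                (CovZ.leaf K2_ok TF_l9526 _)
                (CovZ.leaf K2_ok TF_l9527 _))))
             (CovZ.n1 (-2880, 24080) (by decide +kernel)
              (CovZ.leaf K2_ok TF_l9528 _)
              (CovZ.n1 (-2920, 24120) (by decide +kernel)
               (CovZ.leaf K2_ok TF_l9529 _)
               (CovZ.leaf K2_ok TF_l9530 _))))
            (CovZ.n1 (-2960, 24240) (by decide +kernel)
             (CovZ.n2 (-2880, 24240) (by decide +kernel)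
              (CovZ.n2 (-2920, 24200) (by decide +kernel)
               (CovZ.n2 (-2920, 24240) (by decide +kernel)
                (CovZ.leaf K2_ok TF_l9531 _)
                (CovZ.leaf K2_ok TF_l9532 _))
               (CovZ.leaf K2_ok TF_l9533 _))
              (CovZ.n1 (-2920, 24280) (by decide +kernel)
               (CovZ.n2 (-2880, 24280) (by decide +kernel)
                (CovZ.leaf K2_ok TF_l9534 _)
                (CovZ.badM (by decide +kernel)))
               (CovZ.n1 (-2920, 24240) (by decide +kernel)
                (CovZ.badM (by decide +kernel))
                (CovZ.leaf K2_ok TF_l9535 _))))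
             (CovZ.n1 (-2960, 24160) (by decide +kernel)
              (CovZ.badM (by decide +kernel))
              (CovZ.leaf K2_ok TF_l9536 _)))))))
        (CovZ.n1 (-3520, 24000) (by decide +kernel)
         (CovZ.badM (by decide +kernel))
         (CovZ.n1 (-3200, 24000) (by decide +kernel)
          (CovZ.n2 (-3360, 23840) (by decide +kernel)
           (CovZ.n2 (-3360, 24000) (by decide +kernel)
            (CovZ.n2 (-3280, 23920) (by decide +kernel)
             (CovZ.n2 (-3360, 23920) (by decide +kernel)
              (CovZ.badM (by decide +kernel))
              (CovZ.n1 (-3320, 23880) (by decide +kernel)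
               (CovZ.n2 (-3360, 23880) (by decide +kernel)
                (CovZ.leaf K2_ok TF_l9537 _)
                (CovZ.n1 (-3340, 23860) (by decide +kernel)
                 (CovZ.leaf K2_ok TF_l9538 _)
                 (CovZ.leaf K2_ok TF_l9539 _)))
               (CovZ.n1 (-3320, 23920) (by decide +kernel)
                (CovZ.n2 (-3300, 23900) (by decide +kernel)
                 (CovZ.leaf K2_ok TF_l9540 _)
                 (CovZ.badM (by decide +kernel)))
                (CovZ.n1 (-3340, 23900) (by decide +kernel)
                 (CovZ.badM (by decide +kernel))
                 (CovZ.n1 (-3320, 23900) (by decide +kernel)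
                  (CovZ.leaf K2_ok TF_l9541 _)
                  (CovZ.badM (by decide +kernel)))))))
             (CovZ.badM (by decide +kernel)))
            (CovZ.n1 (-3440, 23920) (by decide +kernel)
             (CovZ.badM (by decide +kernel))
             (CovZ.n1 (-3360, 23920) (by decide +kernel)
              (CovZ.n2 (-3400, 23880) (by decide +kernel)
               (CovZ.badM (by decide +kernel))
               (CovZ.n1 (-3360, 23880) (by decide +kernel)
                (CovZ.n2 (-3380, 23860) (by decide +kernel)
                 (CovZ.leaf K2_ok TF_l9542 _)
                 (CovZ.leaf K2_ok TF_l9543 _))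
                (CovZ.badM (by decide +kernel))))
              (CovZ.badM (by decide +kernel)))))
           (CovZ.n1 (-3200, 23840) (by decide +kernel)
            (CovZ.n2 (-3280, 23760) (by decide +kernel)
             (CovZ.n2 (-3280, 23840) (by decide +kernel)
              (CovZ.n2 (-3240, 23800) (by decide +kernel)
               (CovZ.leaf K2_ok TF_l9544 _)
               (CovZ.n1 (-3240, 23840) (by decide +kernel)
                (CovZ.leaf K2_ok TF_l9545 _)
                (CovZ.leaf K2_ok TF_l9546 _)))
              (CovZ.n1 (-3320, 23800) (by decide +kernel)
               (CovZ.n2 (-3320, 23840) (by decide +kernel)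
                (CovZ.leaf K2_ok TF_l9547 _)
                (CovZ.leaf K2_ok TF_l9548 _))
               (CovZ.n1 (-3280, 23800) (by decide +kernel)
                (CovZ.leaf K2_ok TF_l9549 _)
                (CovZ.leaf K2_ok TF_l9550 _))))
             (CovZ.n1 (-3200, 23760) (by decide +kernel)
              (CovZ.leaf K2_ok TF_l9551 _)
              (CovZ.n1 (-3240, 23800) (by decide +kernel)
               (CovZ.leaf K2_ok TF_l9552 _)
               (CovZ.leaf K2_ok TF_l9553 _))))
            (CovZ.n1 (-3280, 23920) (by decide +kernel)
             (CovZ.n2 (-3200, 23920) (by decide +kernel)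
              (CovZ.n2 (-3240, 23880) (by decide +kernel)
               (CovZ.n2 (-3240, 23920) (by decide +kernel)
                (CovZ.n2 (-3220, 23900) (by decide +kernel)
                 (CovZ.leaf K2_ok TF_l9554 _)
                 (CovZ.badM (by decide +kernel)))
                (CovZ.n1 (-3260, 23900) (by decide +kernel)
                 (CovZ.badM (by decide +kernel))
                 (CovZ.leaf K2_ok TF_l9555 _)))
               (CovZ.n1 (-3200, 23880) (by decide +kernel)
                (CovZ.leaf K2_ok TF_l9556 _)
                (CovZ.n1 (-3220, 23900) (by decide +kernel)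
                 (CovZ.leaf K2_ok TF_l9557 _)
                 (CovZ.leaf K2_ok TF_l9558 _))))
              (CovZ.badM (by decide +kernel)))
             (CovZ.n1 (-3280, 23840) (by decide +kernel)
              (CovZ.n2 (-3320, 23880) (by decide +kernel)
               (CovZ.n2 (-3280, 23880) (by decide +kernel)
                (CovZ.leaf K2_ok TF_l9559 _)
                (CovZ.n1 (-3300, 23900) (by decide +kernel)
                 (CovZ.leaf K2_ok TF_l9560 _)
                 (CovZ.leaf K2_ok TF_l9561 _)))
               (CovZ.n1 (-3320, 23840) (by decide +kernel)
                (CovZ.n2 (-3340, 23860) (by decide +kernel)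
                 (CovZ.leaf K2_ok TF_l9562 _)
                 (CovZ.leaf K2_ok TF_l9563 _))
                (CovZ.leaf K2_ok TF_l9564 _)))
              (CovZ.n1 (-3240, 23880) (by decide +kernel)
               (CovZ.n2 (-3240, 23840) (by decide +kernel)
                (CovZ.leaf K2_ok TF_l9565 _)
                (CovZ.leaf K2_ok TF_l9566 _))
               (CovZ.n1 (-3280, 23880) (by decide +kernel)
                (CovZ.leaf K2_ok TF_l9567 _)
                (CovZ.leaf K2_ok TF_l9568 _)))))))
          (CovZ.badM (by decide +kernel))))))

theorem TF_u129 : CovZ TF_M (toL (selN TF_LN 89213869853878355374737907723588286963318800)) [0, 7, 4, 3] (-3200, 23680) (-2560, 23040) (-2560, 24320) :=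
    (CovZ.n1 (-2560, 23680) (by decide +kernel)
       (CovZ.n2 (-2880, 23360) (by decide +kernel)
        (CovZ.subM 10889038337638267138870368068950994976768 (by decide +kernel)
         (CovZ.n2 (-2880, 23680) (by decide +kernel)
          (CovZ.n2 (-2720, 23520) (by decide +kernel)
           (CovZ.leaf K2_ok TF_l868 _)
           (CovZ.n1 (-2720, 23680) (by decide +kernel)
            (CovZ.leaf K2_ok TF_l869 _)
            (CovZ.leaf K2_ok TF_l870 _)))
          (CovZ.n1 (-3040, 23520) (by decide +kernel)
           (CovZ.subM 10889035741470030830827987719300149411840 (by decide +kernel)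
            (CovZ.n2 (-3040, 23680) (by decide +kernel)
             (CovZ.n2 (-2960, 23600) (by decide +kernel)
              (CovZ.leaf K2_ok TF_l9569 _)
              (CovZ.leaf K2_ok TF_l871 _))
             (CovZ.n1 (-3120, 23600) (by decide +kernel)
              (CovZ.n2 (-3120, 23680) (by decide +kernel)
               (CovZ.leaf K2_ok TF_l9570 _)
               (CovZ.leaf K2_ok TF_l9571 _))
              (CovZ.leaf K2_ok TF_l9572 _))))
           (CovZ.n1 (-2880, 23520) (by decide +kernel)
            (CovZ.leaf K2_ok TF_l872 _)
            (CovZ.n1 (-2960, 23600) (by decide +kernel)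
             (CovZ.leaf K2_ok TF_l873 _)
             (CovZ.leaf K2_ok TF_l874 _))))))
        (CovZ.n1 (-2560, 23360) (by decide +kernel)
         (CovZ.leaf K2_ok TF_l875 _)
         (CovZ.n1 (-2720, 23520) (by decide +kernel)
          (CovZ.leaf K2_ok TF_l876 _)
          (CovZ.leaf K2_ok TF_l877 _))))
       (CovZ.subM 10889038337638267138870368068950994976768 (by decide +kernel)
        (CovZ.n1 (-2880, 24000) (by decide +kernel)
         (CovZ.n2 (-2560, 24000) (by decide +kernel)
          (CovZ.n2 (-2720, 23840) (by decide +kernel)
           (CovZ.n2 (-2720, 24000) (by decide +kernel)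
            (CovZ.leaf K2_ok TF_l878 _)
            (CovZ.n1 (-2800, 23920) (by decide +kernel)
             (CovZ.leaf K2_ok TF_l879 _)
             (CovZ.leaf K2_ok TF_l880 _)))
           (CovZ.n1 (-2560, 23840) (by decide +kernel)
            (CovZ.leaf K2_ok TF_l881 _)
            (CovZ.leaf K2_ok TF_l882 _)))
          (CovZ.subM 10889038337618460098241801984539724087296 (by decide +kernel)
           (CovZ.n1 (-2720, 24160) (by decide +kernel)
            (CovZ.n2 (-2560, 24160) (by decide +kernel)
             (CovZ.leaf K2_ok TF_l883 _)
             (CovZ.n1 (-2640, 24240) (by decide +kernel)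
              (CovZ.leaf K2_ok TF_l884 _)
              (CovZ.leaf K2_ok TF_l885 _)))
            (CovZ.n1 (-2720, 24000) (by decide +kernel)
             (CovZ.n2 (-2800, 24080) (by decide +kernel)
              (CovZ.leaf K2_ok TF_l886 _)
              (CovZ.leaf K2_ok TF_l887 _))
             (CovZ.leaf K2_ok TF_l888 _)))))
         (CovZ.n1 (-2880, 23680) (by decide +kernel)
          (CovZ.subM 10889035741470030830827987719300149411840 (by decide +kernel)
           (CovZ.n2 (-3040, 23840) (by decide +kernel)
            (CovZ.n2 (-2880, 23840) (by decide +kernel)
             (CovZ.n2 (-2960, 23760) (by decide +kernel)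
              (CovZ.leaf K2_ok TF_l9573 _)
              (CovZ.leaf K2_ok TF_l889 _))
             (CovZ.n1 (-2960, 23920) (by decide +kernel)
              (CovZ.leaf K2_ok TF_l9574 _)
              (CovZ.leaf K2_ok TF_l9575 _)))
            (CovZ.n1 (-3040, 23680) (by decide +kernel)
             (CovZ.n2 (-3120, 23760) (by decide +kernel)
              (CovZ.n2 (-3040, 23760) (by decide +kernel)
               (CovZ.leaf K2_ok TF_l9576 _)
               (CovZ.leaf K2_ok TF_l9577 _))
              (CovZ.n1 (-3120, 23680) (by decide +kernel)
               (CovZ.leaf K2_ok TF_l9578 _)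
               (CovZ.leaf K2_ok TF_l9579 _)))
             (CovZ.leaf K2_ok TF_l890 _))))
          (CovZ.n1 (-2720, 23840) (by decide +kernel)
           (CovZ.leaf K2_ok TF_l891 _)
           (CovZ.n1 (-2880, 23840) (by decide +kernel)
            (CovZ.leaf K2_ok TF_l892 _)
            (CovZ.leaf K2_ok TF_l893 _)))))))

theorem TF_u130 : CovZ TF_M (toL (selN TF_LN 649037107316853750803896037539840)) [0, 7, 4, 3] (-3840, 23040) (-3840, 23680) (-4480, 23680) :=
    (CovZ.n2 (-4160, 23360) (by decide +kernel)
         (CovZ.n2 (-4160, 23680) (by decide +kernel)
          (CovZ.n2 (-4000, 23520) (by decide +kernel)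
           (CovZ.n2 (-4160, 23520) (by decide +kernel)
            (CovZ.leaf K2_ok TF_l9596 _)
            (CovZ.n1 (-4080, 23440) (by decide +kernel)
             (CovZ.leaf K2_ok TF_l9597 _)
             (CovZ.leaf K2_ok TF_l9598 _)))
           (CovZ.n1 (-4000, 23680) (by decide +kernel)
            (CovZ.n2 (-3920, 23600) (by decide +kernel)
             (CovZ.leaf K2_ok TF_l9599 _)
             (CovZ.n1 (-3920, 23680) (by decide +kernel)
              (CovZ.leaf K2_ok TF_l9600 _)
              (CovZ.leaf K2_ok TF_l9601 _)))
            (CovZ.n1 (-4080, 23600) (by decide +kernel)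
             (CovZ.n2 (-4080, 23680) (by decide +kernel)
              (CovZ.leaf K2_ok TF_l9602 _)
              (CovZ.leaf K2_ok TF_l9603 _))
             (CovZ.n1 (-4000, 23600) (by decide +kernel)
              (CovZ.leaf K2_ok TF_l9604 _)
              (CovZ.leaf K2_ok TF_l9605 _)))))
          (CovZ.n1 (-4320, 23520) (by decide +kernel)
           (CovZ.n2 (-4320, 23680) (by decide +kernel)
            (CovZ.n2 (-4240, 23600) (by decide +kernel)
             (CovZ.leaf K2_ok TF_l9606 _)
             (CovZ.n1 (-4240, 23680) (by decide +kernel)
              (CovZ.leaf K2_ok TF_l9607 _)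
              (CovZ.leaf K2_ok TF_l9608 _)))
            (CovZ.n1 (-4400, 23600) (by decide +kernel)
             (CovZ.n2 (-4400, 23680) (by decide +kernel)
              (CovZ.leaf K2_ok TF_l9609 _)
              (CovZ.leaf K2_ok TF_l9610 _))
             (CovZ.n1 (-4320, 23600) (by decide +kernel)
              (CovZ.leaf K2_ok TF_l9611 _)
              (CovZ.leaf K2_ok TF_l9612 _))))
           (CovZ.n1 (-4160, 23520) (by decide +kernel)
            (CovZ.leaf K2_ok TF_l9613 _)
            (CovZ.n1 (-4240, 23600) (by decide +kernel)
             (CovZ.n2 (-4160, 23600) (by decide +kernel)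
              (CovZ.leaf K2_ok TF_l9614 _)
              (CovZ.leaf K2_ok TF_l9615 _))
             (CovZ.leaf K2_ok TF_l9616 _)))))
         (CovZ.n1 (-3840, 23360) (by decide +kernel)
          (CovZ.n2 (-4000, 23200) (by decide +kernel)
           (CovZ.n2 (-4000, 23360) (by decide +kernel)
            (CovZ.leaf K2_ok TF_l945 _)
            (CovZ.leaf K2_ok TF_l946 _))
           (CovZ.n1 (-3840, 23200) (by decide +kernel)
            (CovZ.leaf K2_ok TF_l947 _)
            (CovZ.leaf K2_ok TF_l948 _)))
          (CovZ.n1 (-4000, 23520) (by decide +kernel)
           (CovZ.n2 (-3840, 23520) (by decide +kernel)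
            (CovZ.n2 (-3920, 23440) (by decide +kernel)
             (CovZ.leaf K2_ok TF_l949 _)
             (CovZ.leaf K2_ok TF_l950 _))
            (CovZ.n1 (-3920, 23600) (by decide +kernel)
             (CovZ.n2 (-3840, 23600) (by decide +kernel)
              (CovZ.leaf K2_ok TF_l951 _)
              (CovZ.leaf K2_ok TF_l9617 _))
             (CovZ.leaf K2_ok TF_l952 _)))
           (CovZ.n1 (-4000, 23360) (by decide +kernel)
            (CovZ.n2 (-4080, 23440) (by decide +kernel)
             (CovZ.leaf K2_ok TF_l953 _)
             (CovZ.leaf K2_ok TF_l954 _))
            (CovZ.leaf K2_ok TF_l955 _)))))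

theorem TF_u131 : CovZ TF_M (toL (selN TF_LN 649037107316853750803896037539840)) [0, 7, 4, 3] (-3840, 23680) (-3840, 24320) (-4480, 23680) :=
    (CovZ.n1 (-4160, 24000) (by decide +kernel)
         (CovZ.n2 (-3840, 24000) (by decide +kernel)
          (CovZ.n2 (-4000, 23840) (by decide +kernel)
           (CovZ.n2 (-4000, 24000) (by decide +kernel)
            (CovZ.badM (by decide +kernel))
            (CovZ.n1 (-4080, 23920) (by decide +kernel)
             (CovZ.n2 (-4080, 24000) (by decide +kernel)
              (CovZ.badM (by decide +kernel))
              (CovZ.badM (by decide +kernel)))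
             (CovZ.badM (by decide +kernel))))
           (CovZ.n1 (-3840, 23840) (by decide +kernel)
            (CovZ.n2 (-3920, 23760) (by decide +kernel)
             (CovZ.n2 (-3920, 23840) (by decide +kernel)
              (CovZ.n2 (-3880, 23800) (by decide +kernel)
               (CovZ.leaf K2_ok TF_l9618 _)
               (CovZ.n1 (-3880, 23840) (by decide +kernel)
                (CovZ.n2 (-3860, 23820) (by decide +kernel)
                 (CovZ.leaf K2_ok TF_l9619 _)
                 (CovZ.leaf K2_ok TF_l9620 _))
                (CovZ.n1 (-3900, 23820) (by decide +kernel)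
                 (CovZ.leaf K2_ok TF_l9621 _)
                 (CovZ.leaf K2_ok TF_l9622 _))))
              (CovZ.n1 (-3960, 23800) (by decide +kernel)
               (CovZ.n2 (-3960, 23840) (by decide +kernel)
                (CovZ.n2 (-3940, 23820) (by decide +kernel)
                 (CovZ.leaf K2_ok TF_l9623 _)
                 (CovZ.leaf K2_ok TF_l9624 _))
                (CovZ.n1 (-3980, 23820) (by decide +kernel)
                 (CovZ.n2 (-3980, 23840) (by decide +kernel)
                  (CovZ.leaf K2_ok TF_l9625 _)
                  (CovZ.leaf K2_ok TF_l9626 _))
                 (CovZ.leaf K2_ok TF_l9627 _)))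
               (CovZ.n1 (-3920, 23800) (by decide +kernel)
                (CovZ.leaf K2_ok TF_l9628 _)
                (CovZ.n1 (-3940, 23820) (by decide +kernel)
                 (CovZ.leaf K2_ok TF_l9629 _)
                 (CovZ.leaf K2_ok TF_l9630 _)))))
             (CovZ.n1 (-3840, 23760) (by decide +kernel)
              (CovZ.n2 (-3880, 23720) (by decide +kernel)
               (CovZ.n2 (-3880, 23760) (by decide +kernel)
                (CovZ.leaf K2_ok TF_l9631 _)
                (CovZ.leaf K2_ok TF_l9632 _))
               (CovZ.leaf K2_ok TF_l9633 _))
              (CovZ.n1 (-3880, 23800) (by decide +kernel)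
               (CovZ.n2 (-3840, 23800) (by decide +kernel)
                (CovZ.leaf K2_ok TF_l9634 _)
                (CovZ.n1 (-3860, 23820) (by decide +kernel)
                 (CovZ.leaf K2_ok TF_l9635 _)
                 (CovZ.leaf K2_ok TF_l9636 _)))
               (CovZ.leaf K2_ok TF_l9637 _))))
            (CovZ.badM (by decide +kernel))))
          (CovZ.n1 (-4000, 24160) (by decide +kernel)
           (CovZ.badM (by decide +kernel))
           (CovZ.n1 (-4000, 24000) (by decide +kernel)
            (CovZ.n2 (-4080, 24080) (by decide +kernel)
             (CovZ.badM (by decide +kernel))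
             (CovZ.n1 (-4080, 24000) (by decide +kernel)
              (CovZ.badM (by decide +kernel))
              (CovZ.badM (by decide +kernel))))
            (CovZ.badM (by decide +kernel)))))
         (CovZ.n1 (-4160, 23680) (by decide +kernel)
          (CovZ.n2 (-4320, 23840) (by decide +kernel)
           (CovZ.n2 (-4160, 23840) (by decide +kernel)
            (CovZ.n2 (-4240, 23760) (by decide +kernel)
             (CovZ.n2 (-4240, 23840) (by decide +kernel)
              (CovZ.n2 (-4200, 23800) (by decide +kernel)
               (CovZ.leaf K2_ok TF_l9638 _)
               (CovZ.n1 (-4200, 23840) (by decide +kernel)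
                (CovZ.n2 (-4180, 23820) (by decide +kernel)
                 (CovZ.leaf K2_ok TF_l9639 _)
                 (CovZ.badM (by decide +kernel)))
                (CovZ.n1 (-4220, 23820) (by decide +kernel)
                 (CovZ.badM (by decide +kernel))
                 (CovZ.leaf K2_ok TF_l9640 _))))
              (CovZ.n1 (-4280, 23800) (by decide +kernel)
               (CovZ.badM (by decide +kernel))
               (CovZ.n1 (-4240, 23800) (by decide +kernel)
                (CovZ.leaf K2_ok TF_l9641 _)
                (CovZ.badM (by decide +kernel)))))
             (CovZ.n1 (-4160, 23760) (by decide +kernel)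
              (CovZ.n2 (-4200, 23720) (by decide +kernel)
               (CovZ.n2 (-4200, 23760) (by decide +kernel)
                (CovZ.leaf K2_ok TF_l9642 _)
                (CovZ.leaf K2_ok TF_l9643 _))
               (CovZ.leaf K2_ok TF_l9644 _))
              (CovZ.n1 (-4200, 23800) (by decide +kernel)
               (CovZ.n2 (-4160, 23800) (by decide +kernel)
                (CovZ.leaf K2_ok TF_l9645 _)
                (CovZ.n1 (-4180, 23820) (by decide +kernel)
                 (CovZ.leaf K2_ok TF_l9646 _)
                 (CovZ.leaf K2_ok TF_l9647 _)))
               (CovZ.leaf K2_ok TF_l9648 _))))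
            (CovZ.badM (by decide +kernel)))
           (CovZ.n1 (-4320, 23680) (by decide +kernel)
            (CovZ.n2 (-4400, 23760) (by decide +kernel)
             (CovZ.n2 (-4320, 23760) (by decide +kernel)
              (CovZ.n2 (-4360, 23720) (by decide +kernel)
               (CovZ.leaf K2_ok TF_l9649 _)
               (CovZ.leaf K2_ok TF_l9650 _))
              (CovZ.n1 (-4360, 23800) (by decide +kernel)
               (CovZ.n2 (-4320, 23800) (by decide +kernel)
                (CovZ.leaf K2_ok TF_l9651 _)
                (CovZ.badM (by decide +kernel)))
               (CovZ.leaf K2_ok TF_l9652 _)))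
             (CovZ.n1 (-4400, 23680) (by decide +kernel)
              (CovZ.n2 (-4440, 23720) (by decide +kernel)
               (CovZ.leaf K2_ok TF_l9653 _)
               (CovZ.leaf K2_ok TF_l9654 _))
              (CovZ.leaf K2_ok TF_l9655 _)))
            (CovZ.n1 (-4240, 23760) (by decide +kernel)
             (CovZ.n2 (-4240, 23680) (by decide +kernel)
              (CovZ.n2 (-4280, 23720) (by decide +kernel)
               (CovZ.leaf K2_ok TF_l9656 _)
               (CovZ.leaf K2_ok TF_l9657 _))
              (CovZ.leaf K2_ok TF_l9658 _))
             (CovZ.n1 (-4320, 23760) (by decide +kernel)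
              (CovZ.leaf K2_ok TF_l9659 _)
              (CovZ.n1 (-4280, 23720) (by decide +kernel)
               (CovZ.leaf K2_ok TF_l9660 _)
               (CovZ.n1 (-4280, 23760) (by decide +kernel)
                (CovZ.leaf K2_ok TF_l9661 _)
                (CovZ.leaf K2_ok TF_l9662 _)))))))
          (CovZ.n1 (-4000, 23840) (by decide +kernel)
           (CovZ.n2 (-4000, 23680) (by decide +kernel)
            (CovZ.n2 (-4080, 23760) (by decide +kernel)
             (CovZ.n2 (-4000, 23760) (by decide +kernel)
              (CovZ.n2 (-4040, 23720) (by decide +kernel)
               (CovZ.n2 (-4040, 23760) (by decide +kernel)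
                (CovZ.leaf K2_ok TF_l9663 _)
                (CovZ.leaf K2_ok TF_l9664 _))
               (CovZ.leaf K2_ok TF_l9665 _))
              (CovZ.n1 (-4040, 23800) (by decide +kernel)
               (CovZ.n2 (-4000, 23800) (by decide +kernel)
                (CovZ.leaf K2_ok TF_l9666 _)
                (CovZ.n1 (-4020, 23820) (by decide +kernel)
                 (CovZ.leaf K2_ok TF_l9667 _)
                 (CovZ.leaf K2_ok TF_l9668 _)))
               (CovZ.leaf K2_ok TF_l9669 _)))
             (CovZ.n1 (-4080, 23680) (by decide +kernel)
              (CovZ.n2 (-4120, 23720) (by decide +kernel)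
               (CovZ.leaf K2_ok TF_l9670 _)
               (CovZ.leaf K2_ok TF_l9671 _))
              (CovZ.leaf K2_ok TF_l9672 _)))
            (CovZ.n1 (-3920, 23760) (by decide +kernel)
             (CovZ.n2 (-3920, 23680) (by decide +kernel)
              (CovZ.n2 (-3960, 23720) (by decide +kernel)
               (CovZ.leaf K2_ok TF_l9673 _)
               (CovZ.leaf K2_ok TF_l9674 _))
              (CovZ.leaf K2_ok TF_l9675 _))
             (CovZ.n1 (-4000, 23760) (by decide +kernel)
              (CovZ.n2 (-3960, 23800) (by decide +kernel)
               (CovZ.leaf K2_ok TF_l9676 _)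
               (CovZ.leaf K2_ok TF_l9677 _))
              (CovZ.n1 (-3960, 23720) (by decide +kernel)
               (CovZ.leaf K2_ok TF_l9678 _)
               (CovZ.n1 (-3960, 23760) (by decide +kernel)
                (CovZ.leaf K2_ok TF_l9679 _)
                (CovZ.leaf K2_ok TF_l9680 _))))))
           (CovZ.n1 (-4160, 23840) (by decide +kernel)
            (CovZ.n2 (-4080, 23920) (by decide +kernel)
             (CovZ.n2 (-4080, 23840) (by decide +kernel)
              (CovZ.badM (by decide +kernel))
              (CovZ.badM (by decide +kernel)))
             (CovZ.badM (by decide +kernel)))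
            (CovZ.n1 (-4080, 23760) (by decide +kernel)
             (CovZ.n2 (-4160, 23760) (by decide +kernel)
              (CovZ.leaf K2_ok TF_l9681 _)
              (CovZ.n1 (-4120, 23720) (by decide +kernel)
               (CovZ.leaf K2_ok TF_l9682 _)
               (CovZ.n1 (-4120, 23760) (by decide +kernel)
                (CovZ.leaf K2_ok TF_l9683 _)
                (CovZ.leaf K2_ok TF_l9684 _))))
             (CovZ.n1 (-4080, 23840) (by decide +kernel)
              (CovZ.n2 (-4040, 23800) (by decide +kernel)
               (CovZ.leaf K2_ok TF_l9685 _)
               (CovZ.n1 (-4040, 23840) (by decide +kernel)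
                (CovZ.n2 (-4020, 23820) (by decide +kernel)
                 (CovZ.leaf K2_ok TF_l9686 _)
                 (CovZ.badM (by decide +kernel)))
                (CovZ.n1 (-4060, 23820) (by decide +kernel)
                 (CovZ.badM (by decide +kernel))
                 (CovZ.leaf K2_ok TF_l9687 _))))
              (CovZ.n1 (-4120, 23800) (by decide +kernel)
               (CovZ.n2 (-4120, 23840) (by decide +kernel)
                (CovZ.n2 (-4100, 23820) (by decide +kernel)
                 (CovZ.leaf K2_ok TF_l9688 _)
                 (CovZ.badM (by decide +kernel)))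
                (CovZ.n1 (-4140, 23820) (by decide +kernel)
                 (CovZ.badM (by decide +kernel))
                 (CovZ.leaf K2_ok TF_l9689 _)))
               (CovZ.n1 (-4080, 23800) (by decide +kernel)
                (CovZ.leaf K2_ok TF_l9690 _)
                (CovZ.n1 (-4100, 23820) (by decide +kernel)
                 (CovZ.leaf K2_ok TF_l9691 _)
                 (CovZ.leaf K2_ok TF_l9692 _))))))))))

theorem TF_u132 : CovZ TF_M (toL (selN TF_LN 649037107316853742078171759509504)) [0, 7, 4, 3] (-3200, 23680) (-3520, 24000) (-3840, 23680) :=
    (CovZ.n2 (-3520, 23680) (by decide +kernel)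
          (CovZ.n2 (-3680, 23840) (by decide +kernel)
           (CovZ.n2 (-3520, 23840) (by decide +kernel)
            (CovZ.n2 (-3600, 23760) (by decide +kernel)
             (CovZ.n2 (-3600, 23840) (by decide +kernel)
              (CovZ.n2 (-3560, 23800) (by decide +kernel)
               (CovZ.leaf K2_ok TF_l983 _)
               (CovZ.n1 (-3560, 23840) (by decide +kernel)
                (CovZ.n2 (-3540, 23820) (by decide +kernel)
                 (CovZ.leaf K2_ok TF_l9715 _)
                 (CovZ.leaf K2_ok TF_l9716 _))
                (CovZ.leaf K2_ok TF_l9717 _)))
              (CovZ.n1 (-3640, 23800) (by decide +kernel)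
               (CovZ.n2 (-3640, 23840) (by decide +kernel)
                (CovZ.n2 (-3620, 23820) (by decide +kernel)
                 (CovZ.leaf K2_ok TF_l9718 _)
                 (CovZ.leaf K2_ok TF_l9719 _))
                (CovZ.n1 (-3660, 23820) (by decide +kernel)
                 (CovZ.leaf K2_ok TF_l9720 _)
                 (CovZ.leaf K2_ok TF_l9721 _)))
               (CovZ.n1 (-3600, 23800) (by decide +kernel)
                (CovZ.leaf K2_ok TF_l984 _)
                (CovZ.n1 (-3620, 23820) (by decide +kernel)
                 (CovZ.leaf K2_ok TF_l9722 _)
                 (CovZ.leaf K2_ok TF_l9723 _)))))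
             (CovZ.n1 (-3520, 23760) (by decide +kernel)
              (CovZ.n2 (-3560, 23720) (by decide +kernel)
               (CovZ.n2 (-3560, 23760) (by decide +kernel)
                (CovZ.leaf K2_ok TF_l985 _)
                (CovZ.leaf K2_ok TF_l986 _))
               (CovZ.leaf K2_ok TF_l987 _))
              (CovZ.n1 (-3560, 23800) (by decide +kernel)
               (CovZ.n2 (-3520, 23800) (by decide +kernel)
                (CovZ.leaf K2_ok TF_l9724 _)
                (CovZ.n1 (-3540, 23820) (by decide +kernel)
                 (CovZ.leaf K2_ok TF_l9725 _)
                 (CovZ.leaf K2_ok TF_l9726 _)))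
               (CovZ.leaf K2_ok TF_l988 _))))
            (CovZ.n1 (-3600, 23920) (by decide +kernel)
             (CovZ.n2 (-3520, 23920) (by decide +kernel)
              (CovZ.n2 (-3560, 23880) (by decide +kernel)
               (CovZ.badM (by decide +kernel))
               (CovZ.n1 (-3520, 23880) (by decide +kernel)
                (CovZ.n2 (-3540, 23860) (by decide +kernel)
                 (CovZ.n2 (-3540, 23880) (by decide +kernel)
                  (CovZ.leaf K2_ok TF_l9727 _)
                  (CovZ.leaf K2_ok TF_l9728 _))
                 (CovZ.leaf K2_ok TF_l9729 _))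
                (CovZ.badM (by decide +kernel))))
              (CovZ.badM (by decide +kernel)))
             (CovZ.n1 (-3600, 23840) (by decide +kernel)
              (CovZ.n2 (-3640, 23880) (by decide +kernel)
               (CovZ.n2 (-3600, 23880) (by decide +kernel)
                (CovZ.n2 (-3620, 23860) (by decide +kernel)
                 (CovZ.badM (by decide +kernel))
                 (CovZ.leaf K2_ok TF_l9730 _))
                (CovZ.badM (by decide +kernel)))
               (CovZ.n1 (-3640, 23840) (by decide +kernel)
                (CovZ.n2 (-3660, 23860) (by decide +kernel)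
                 (CovZ.leaf K2_ok TF_l9731 _)
                 (CovZ.leaf K2_ok TF_l9732 _))
                (CovZ.leaf K2_ok TF_l9733 _)))
              (CovZ.n1 (-3560, 23880) (by decide +kernel)
               (CovZ.n2 (-3560, 23840) (by decide +kernel)
                (CovZ.n2 (-3580, 23860) (by decide +kernel)
                 (CovZ.leaf K2_ok TF_l9734 _)
                 (CovZ.leaf K2_ok TF_l9735 _))
                (CovZ.leaf K2_ok TF_l9736 _))
               (CovZ.n1 (-3600, 23880) (by decide +kernel)
                (CovZ.badM (by decide +kernel))
                (CovZ.n1 (-3580, 23860) (by decide +kernel)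
                 (CovZ.leaf K2_ok TF_l9737 _)
                 (CovZ.badM (by decide +kernel))))))))
           (CovZ.n1 (-3680, 23680) (by decide +kernel)
            (CovZ.n2 (-3760, 23760) (by decide +kernel)
             (CovZ.n2 (-3680, 23760) (by decide +kernel)
              (CovZ.n2 (-3720, 23720) (by decide +kernel)
               (CovZ.n2 (-3720, 23760) (by decide +kernel)
                (CovZ.leaf K2_ok TF_l9738 _)
                (CovZ.leaf K2_ok TF_l9739 _))
               (CovZ.leaf K2_ok TF_l989 _))
              (CovZ.n1 (-3720, 23800) (by decide +kernel)
               (CovZ.n2 (-3680, 23800) (by decide +kernel)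
                (CovZ.leaf K2_ok TF_l9740 _)
                (CovZ.n1 (-3700, 23820) (by decide +kernel)
                 (CovZ.leaf K2_ok TF_l9741 _)
                 (CovZ.leaf K2_ok TF_l9742 _)))
               (CovZ.leaf K2_ok TF_l9743 _)))
             (CovZ.n1 (-3760, 23680) (by decide +kernel)
              (CovZ.n2 (-3800, 23720) (by decide +kernel)
               (CovZ.leaf K2_ok TF_l9744 _)
               (CovZ.leaf K2_ok TF_l9745 _))
              (CovZ.leaf K2_ok TF_l990 _)))
            (CovZ.n1 (-3600, 23760) (by decide +kernel)
             (CovZ.n2 (-3600, 23680) (by decide +kernel)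
              (CovZ.n2 (-3640, 23720) (by decide +kernel)
               (CovZ.leaf K2_ok TF_l991 _)
               (CovZ.leaf K2_ok TF_l992 _))
              (CovZ.leaf K2_ok TF_l993 _))
             (CovZ.n1 (-3680, 23760) (by decide +kernel)
              (CovZ.leaf K2_ok TF_l994 _)
              (CovZ.n1 (-3640, 23720) (by decide +kernel)
               (CovZ.leaf K2_ok TF_l995 _)
               (CovZ.n1 (-3640, 23760) (by decide +kernel)
                (CovZ.leaf K2_ok TF_l996 _)
                (CovZ.leaf K2_ok TF_l997 _)))))))
          (CovZ.n1 (-3360, 23840) (by decide +kernel)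
           (CovZ.n2 (-3360, 23680) (by decide +kernel)
            (CovZ.n2 (-3440, 23760) (by decide +kernel)
             (CovZ.n2 (-3360, 23760) (by decide +kernel)
              (CovZ.n2 (-3400, 23720) (by decide +kernel)
               (CovZ.leaf K2_ok TF_l9746 _)
               (CovZ.leaf K2_ok TF_l9747 _))
              (CovZ.n1 (-3400, 23800) (by decide +kernel)
               (CovZ.n2 (-3360, 23800) (by decide +kernel)
                (CovZ.leaf K2_ok TF_l9748 _)
                (CovZ.leaf K2_ok TF_l9749 _))
               (CovZ.leaf K2_ok TF_l9750 _)))
             (CovZ.n1 (-3440, 23680) (by decide +kernel)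
              (CovZ.n2 (-3480, 23720) (by decide +kernel)
               (CovZ.leaf K2_ok TF_l9751 _)
               (CovZ.leaf K2_ok TF_l998 _))
              (CovZ.leaf K2_ok TF_l9752 _)))
            (CovZ.n1 (-3280, 23760) (by decide +kernel)
             (CovZ.n2 (-3280, 23680) (by decide +kernel)
              (CovZ.n2 (-3320, 23720) (by decide +kernel)
               (CovZ.leaf K2_ok TF_l9753 _)
               (CovZ.leaf K2_ok TF_l9754 _))
              (CovZ.leaf K2_ok TF_l9755 _))
             (CovZ.n1 (-3360, 23760) (by decide +kernel)
              (CovZ.leaf K2_ok TF_l9756 _)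
              (CovZ.n1 (-3320, 23720) (by decide +kernel)
               (CovZ.leaf K2_ok TF_l9757 _)
               (CovZ.leaf K2_ok TF_l9758 _)))))
           (CovZ.n1 (-3520, 23840) (by decide +kernel)
            (CovZ.n2 (-3440, 23920) (by decide +kernel)
             (CovZ.n2 (-3440, 23840) (by decide +kernel)
              (CovZ.n2 (-3480, 23880) (by decide +kernel)
               (CovZ.n2 (-3440, 23880) (by decide +kernel)
                (CovZ.n2 (-3460, 23860) (by decide +kernel)
                 (CovZ.leaf K2_ok TF_l9759 _)
                 (CovZ.leaf K2_ok TF_l9760 _))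
                (CovZ.badM (by decide +kernel)))
               (CovZ.n1 (-3480, 23840) (by decide +kernel)
                (CovZ.n2 (-3500, 23860) (by decide +kernel)
                 (CovZ.leaf K2_ok TF_l9761 _)
                 (CovZ.leaf K2_ok TF_l9762 _))
                (CovZ.leaf K2_ok TF_l9763 _)))
              (CovZ.n1 (-3400, 23880) (by decide +kernel)
               (CovZ.n2 (-3400, 23840) (by decide +kernel)
                (CovZ.n2 (-3420, 23860) (by decide +kernel)
                 (CovZ.leaf K2_ok TF_l9764 _)
                 (CovZ.leaf K2_ok TF_l9765 _))
                (CovZ.leaf K2_ok TF_l9766 _))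
               (CovZ.n1 (-3440, 23880) (by decide +kernel)
                (CovZ.badM (by decide +kernel))
                (CovZ.n1 (-3420, 23860) (by decide +kernel)
                 (CovZ.leaf K2_ok TF_l9767 _)
                 (CovZ.leaf K2_ok TF_l9768 _)))))
             (CovZ.n1 (-3520, 23920) (by decide +kernel)
              (CovZ.badM (by decide +kernel))
              (CovZ.n1 (-3480, 23880) (by decide +kernel)
               (CovZ.n2 (-3520, 23880) (by decide +kernel)
                (CovZ.badM (by decide +kernel))
                (CovZ.n1 (-3500, 23860) (by decide +kernel)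
                 (CovZ.leaf K2_ok TF_l9769 _)
                 (CovZ.n1 (-3500, 23880) (by decide +kernel)
                  (CovZ.leaf K2_ok TF_l9770 _)
                  (CovZ.leaf K2_ok TF_l9771 _))))
               (CovZ.badM (by decide +kernel)))))
            (CovZ.n1 (-3440, 23760) (by decide +kernel)
             (CovZ.n2 (-3520, 23760) (by decide +kernel)
              (CovZ.leaf K2_ok TF_l9772 _)
              (CovZ.n1 (-3480, 23720) (by decide +kernel)
               (CovZ.leaf K2_ok TF_l999 _)
               (CovZ.leaf K2_ok TF_l9773 _)))
             (CovZ.n1 (-3440, 23840) (by decide +kernel)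
              (CovZ.n2 (-3400, 23800) (by decide +kernel)
               (CovZ.leaf K2_ok TF_l9774 _)
               (CovZ.n1 (-3400, 23840) (by decide +kernel)
                (CovZ.leaf K2_ok TF_l9775 _)
                (CovZ.leaf K2_ok TF_l9776 _)))
              (CovZ.n1 (-3480, 23800) (by decide +kernel)
               (CovZ.n2 (-3480, 23840) (by decide +kernel)
                (CovZ.leaf K2_ok TF_l9777 _)
                (CovZ.leaf K2_ok TF_l9778 _))
               (CovZ.n1 (-3440, 23800) (by decide +kernel)
                (CovZ.leaf K2_ok TF_l9779 _)
                (CovZ.leaf K2_ok TF_l9780 _))))))))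

theorem TF_u133 : CovZ TF_M (toL (selN TF_LN 649037107316853742078171759509504)) [0, 7, 4, 3] (-3520, 24000) (-3840, 24320) (-3840, 23680) :=
    (CovZ.n1 (-3840, 24000) (by decide +kernel)
          (CovZ.badM (by decide +kernel))
          (CovZ.n1 (-3680, 23840) (by decide +kernel)
           (CovZ.n2 (-3840, 23840) (by decide +kernel)
            (CovZ.n2 (-3760, 23920) (by decide +kernel)
             (CovZ.n2 (-3760, 23840) (by decide +kernel)
              (CovZ.n2 (-3800, 23880) (by decide +kernel)
               (CovZ.n2 (-3760, 23880) (by decide +kernel)
                (CovZ.n2 (-3780, 23860) (by decide +kernel)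
                 (CovZ.badM (by decide +kernel))
                 (CovZ.n1 (-3760, 23860) (by decide +kernel)
                  (CovZ.leaf K2_ok TF_l9781 _)
                  (CovZ.badM (by decide +kernel))))
                (CovZ.badM (by decide +kernel)))
               (CovZ.n1 (-3800, 23840) (by decide +kernel)
                (CovZ.badM (by decide +kernel))
                (CovZ.leaf K2_ok TF_l9782 _)))
              (CovZ.n1 (-3720, 23880) (by decide +kernel)
               (CovZ.n2 (-3720, 23840) (by decide +kernel)
                (CovZ.n2 (-3740, 23860) (by decide +kernel)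
                 (CovZ.n2 (-3720, 23860) (by decide +kernel)
                  (CovZ.leaf K2_ok TF_l9783 _)
                  (CovZ.badM (by decide +kernel)))
                 (CovZ.leaf K2_ok TF_l9784 _))
                (CovZ.leaf K2_ok TF_l9785 _))
               (CovZ.n1 (-3760, 23880) (by decide +kernel)
                (CovZ.badM (by decide +kernel))
                (CovZ.n1 (-3740, 23860) (by decide +kernel)
                 (CovZ.leaf K2_ok TF_l9786 _)
                 (CovZ.badM (by decide +kernel))))))
             (CovZ.badM (by decide +kernel)))
            (CovZ.n1 (-3760, 23760) (by decide +kernel)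
             (CovZ.n2 (-3840, 23760) (by decide +kernel)
              (CovZ.leaf K2_ok TF_l9787 _)
              (CovZ.n1 (-3800, 23720) (by decide +kernel)
               (CovZ.leaf K2_ok TF_l9788 _)
               (CovZ.n1 (-3800, 23760) (by decide +kernel)
                (CovZ.leaf K2_ok TF_l9789 _)
                (CovZ.leaf K2_ok TF_l9790 _))))
             (CovZ.n1 (-3760, 23840) (by decide +kernel)
              (CovZ.n2 (-3720, 23800) (by decide +kernel)
               (CovZ.leaf K2_ok TF_l9791 _)
               (CovZ.n1 (-3720, 23840) (by decide +kernel)
                (CovZ.n2 (-3700, 23820) (by decide +kernel)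
                 (CovZ.leaf K2_ok TF_l9792 _)
                 (CovZ.leaf K2_ok TF_l9793 _))
                (CovZ.n1 (-3740, 23820) (by decide +kernel)
                 (CovZ.leaf K2_ok TF_l9794 _)
                 (CovZ.leaf K2_ok TF_l9795 _))))
              (CovZ.n1 (-3800, 23800) (by decide +kernel)
               (CovZ.n2 (-3800, 23840) (by decide +kernel)
                (CovZ.n2 (-3780, 23820) (by decide +kernel)
                 (CovZ.leaf K2_ok TF_l9796 _)
                 (CovZ.leaf K2_ok TF_l9797 _))
                (CovZ.n1 (-3820, 23820) (by decide +kernel)
                 (CovZ.leaf K2_ok TF_l9798 _)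
                 (CovZ.leaf K2_ok TF_l9799 _)))
               (CovZ.n1 (-3760, 23800) (by decide +kernel)
                (CovZ.leaf K2_ok TF_l9800 _)
                (CovZ.n1 (-3780, 23820) (by decide +kernel)
                 (CovZ.leaf K2_ok TF_l9801 _)
                 (CovZ.leaf K2_ok TF_l9802 _)))))))
           (CovZ.n1 (-3680, 24000) (by decide +kernel)
            (CovZ.n2 (-3600, 23920) (by decide +kernel)
             (CovZ.n2 (-3680, 23920) (by decide +kernel)
              (CovZ.badM (by decide +kernel))
              (CovZ.n1 (-3640, 23880) (by decide +kernel)
               (CovZ.n2 (-3680, 23880) (by decide +kernel)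
                (CovZ.badM (by decide +kernel))
                (CovZ.n1 (-3660, 23860) (by decide +kernel)
                 (CovZ.leaf K2_ok TF_l9803 _)
                 (CovZ.badM (by decide +kernel))))
               (CovZ.badM (by decide +kernel))))
             (CovZ.badM (by decide +kernel)))
            (CovZ.n1 (-3760, 23920) (by decide +kernel)
             (CovZ.badM (by decide +kernel))
             (CovZ.n1 (-3680, 23920) (by decide +kernel)
              (CovZ.n2 (-3720, 23880) (by decide +kernel)
               (CovZ.badM (by decide +kernel))
               (CovZ.n1 (-3680, 23880) (by decide +kernel)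
                (CovZ.n2 (-3700, 23860) (by decide +kernel)
                 (CovZ.badM (by decide +kernel))
                 (CovZ.n1 (-3680, 23860) (by decide +kernel)
                  (CovZ.leaf K2_ok TF_l9804 _)
                  (CovZ.badM (by decide +kernel))))
                (CovZ.badM (by decide +kernel))))
              (CovZ.badM (by decide +kernel)))))))

end Pool.Agent.TET
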