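import Pool.Agent.Helper38_TET.TF_M
import Pool.Agent.Helper38_TET.TF_L
import Pool.Agent.Helper38_TET.TF_3
import Pool.Agent.Helper38_TET.TF_5
import Pool.Agent.Helper38_TET.TF_11
import Pool.Agent.Helper38_TET.TF_22
import Pool.Agent.Helper38_TET.TF_28
import Pool.Agent.Helper38_TET.TF_29
import Pool.Agent.Helper38_TET.TF_31
import Pool.Agent.Helper38_TET.TF_32
import Pool.Agent.Helper38_TET.TF_33
import Pool.Agent.Helper38_TET.TF_34
import Pool.Agent.Helper38_TET.TF_35
import Pool.Agent.Helper38_TET.TF_36
import Pool.Agent.Helper38_TET.TF_38
import Pool.Agent.Helper38_TET.TF_41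
import Pool.Agent.Helper38_TET.TF_42
import Pool.Agent.Helper38_TET.TF_44
import Pool.Agent.Helper38_TET.TF_60
import Pool.Agent.Helper38_TET.TF_62
import Pool.Agent.Helper38_TET.TF_63
import Pool.Agent.Helper38_TET.TF_92
import Pool.Agent.Helper38_TET.TF_97
import Pool.Agent.Helper38_TET.TF_99
import Pool.Agent.Helper38_TET.TF_100
import Pool.Agent.Helper38_TET.TF_108
import Pool.Agent.Helper38_TET.TF_U7
import Pool.Agent.Helper38_TET.TF_U8

/-!
# MP_c7c9bf_co: certificates, family TF
-/

set_option autoImplicit false
set_option maxRecDepth 100000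

namespace Pool.Agent.TET

theorem TF_s10_9 : SqZ TF_M TF_L [0, 7, 4, 3] (-7680) (-7680) 2560 10 9 :=
  SqZ.mk (a := 17920) (b := 20480) (c := 15360) (d := 17920) (by norm_num) (by norm_num) (by norm_num) (by norm_num)
    (CovZ.topM TF_LL 274209964324920465826122759919562313309372825673 (by decide +kernel) (CovZ.n2 (19200, 16640) (by decide +kernel)
    (CovZ.subM 178407322717712668886141960862858053943296001 (by decide +kernel)
     (CovZ.n2 (20480, 16640) (by decide +kernel)
      (CovZ.n2 (19840, 16000) (by decide +kernel)
       (CovZ.n2 (19840, 16640) (by decide +kernel)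
        (CovZ.n2 (20160, 16320) (by decide +kernel)
         (CovZ.n2 (19840, 16320) (by decide +kernel)
          (CovZ.leaf K2_ok TF_l6184 _)
          (CovZ.leaf K2_ok TF_l6185 _))
         (CovZ.n1 (20160, 16640) (by decide +kernel)
          (CovZ.n2 (20320, 16480) (by decide +kernel)
           (CovZ.n2 (20160, 16480) (by decide +kernel)
            (CovZ.leaf K2_ok TF_l14510 _)
            (CovZ.n1 (20240, 16400) (by decide +kernel)
             (CovZ.leaf K2_ok TF_l6186 _)
             (CovZ.leaf K2_ok TF_l14511 _)))
           (CovZ.n1 (20320, 16640) (by decide +kernel)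
            (CovZ.n2 (20400, 16560) (by decide +kernel)
             (CovZ.n2 (20320, 16560) (by decide +kernel)
              (CovZ.n2 (20360, 16600) (by decide +kernel)
               (CovZ.n2 (20360, 16560) (by decide +kernel)
                (CovZ.leaf K2_ok TF_l14512 _)
                (CovZ.leaf K2_ok TF_l14513 _))
               (CovZ.n1 (20320, 16600) (by decide +kernel)
                (CovZ.badM (by decide +kernel))
                (CovZ.leaf K2_ok TF_l14514 _)))
              (CovZ.n1 (20360, 16520) (by decide +kernel)
               (CovZ.leaf K2_ok TF_l14515 _)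
               (CovZ.n1 (20360, 16560) (by decide +kernel)
                (CovZ.leaf K2_ok TF_l14516 _)
                (CovZ.leaf K2_ok TF_l14517 _))))
             (CovZ.badM (by decide +kernel)))
            (CovZ.n1 (20240, 16560) (by decide +kernel)
             (CovZ.n2 (20240, 16640) (by decide +kernel)
              (CovZ.n2 (20280, 16600) (by decide +kernel)
               (CovZ.leaf K2_ok TF_l14518 _)
               (CovZ.badM (by decide +kernel)))
              (CovZ.leaf K2_ok TF_l14519 _))
             (CovZ.n1 (20320, 16560) (by decide +kernel)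
              (CovZ.leaf K2_ok TF_l14520 _)
              (CovZ.n1 (20280, 16600) (by decide +kernel)
               (CovZ.n2 (20320, 16600) (by decide +kernel)
                (CovZ.leaf K2_ok TF_l14521 _)
                (CovZ.badM (by decide +kernel)))
               (CovZ.leaf K2_ok TF_l14522 _))))))
          (CovZ.n1 (20000, 16480) (by decide +kernel)
           (CovZ.n2 (20000, 16640) (by decide +kernel)
            (CovZ.n2 (20080, 16560) (by decide +kernel)
             (CovZ.leaf K2_ok TF_l6187 _)
             (CovZ.leaf K2_ok TF_l6188 _))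
            (CovZ.leaf K2_ok TF_l6189 _))
           (CovZ.n1 (20160, 16480) (by decide +kernel)
            (CovZ.leaf K2_ok TF_l6190 _)
            (CovZ.n1 (20080, 16560) (by decide +kernel)
             (CovZ.leaf K2_ok TF_l14523 _)
             (CovZ.leaf K2_ok TF_l6191 _))))))
        (CovZ.n1 (19520, 16320) (by decide +kernel)
         (CovZ.n2 (19520, 16640) (by decide +kernel)
          (CovZ.leaf K2_ok TF_l6192 _)
          (CovZ.leaf K2_ok TF_l6193 _))
         (CovZ.n1 (19840, 16320) (by decide +kernel)
          (CovZ.leaf K2_ok TF_l6194 _)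
          (CovZ.leaf K2_ok TF_l6195 _))))
       (CovZ.n1 (20480, 16000) (by decide +kernel)
        (CovZ.n2 (20160, 15680) (by decide +kernel)
         (CovZ.n2 (20160, 16000) (by decide +kernel)
          (CovZ.leaf K2_ok TF_l6196 _)
          (CovZ.leaf K2_ok TF_l6197 _))
         (CovZ.n1 (20480, 15680) (by decide +kernel)
          (CovZ.leaf K2_ok TF_l6198 _)
          (CovZ.leaf K2_ok TF_l6199 _)))
        (CovZ.n1 (20160, 16320) (by decide +kernel)
         (CovZ.n2 (20480, 16320) (by decide +kernel)
          (CovZ.n2 (20320, 16160) (by decide +kernel)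
           (CovZ.n2 (20320, 16320) (by decide +kernel)
            (CovZ.leaf K2_ok TF_l14524 _)
            (CovZ.leaf K2_ok TF_l6200 _))
           (CovZ.n1 (20480, 16160) (by decide +kernel)
            (CovZ.leaf K2_ok TF_l14525 _)
            (CovZ.leaf K2_ok TF_l14526 _)))
          (CovZ.n1 (20320, 16480) (by decide +kernel)
           (CovZ.badM (by decide +kernel))
           (CovZ.n1 (20320, 16320) (by decide +kernel)
            (CovZ.n2 (20240, 16400) (by decide +kernel)
             (CovZ.leaf K2_ok TF_l14527 _)
             (CovZ.leaf K2_ok TF_l6201 _))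
            (CovZ.leaf K2_ok TF_l14528 _))))
         (CovZ.leaf K2_ok TF_l6202 _))))
      (CovZ.n1 (19840, 17280) (by decide +kernel)
       (CovZ.badM (by decide +kernel))
       (CovZ.n1 (19840, 16640) (by decide +kernel)
        (CovZ.n2 (19520, 16960) (by decide +kernel)
         (CovZ.n2 (19840, 16960) (by decide +kernel)
          (CovZ.n2 (19680, 16800) (by decide +kernel)
           (CovZ.badM (by decide +kernel))
           (CovZ.n1 (19840, 16800) (by decide +kernel)
            (CovZ.leaf K2_ok TF_l6206 _)
            (CovZ.badM (by decide +kernel))))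
          (CovZ.badM (by decide +kernel)))
         (CovZ.n1 (19520, 16640) (by decide +kernel)
          (CovZ.leaf K2_ok TF_l6219 _)
          (CovZ.leaf K2_ok TF_l6220 _)))
        (CovZ.n1 (20160, 16960) (by decide +kernel)
         (CovZ.n2 (20160, 16640) (by decide +kernel)
          (CovZ.n2 (20000, 16800) (by decide +kernel)
           (CovZ.badM (by decide +kernel))
           (CovZ.n1 (20000, 16640) (by decide +kernel)
            (CovZ.n2 (19920, 16720) (by decide +kernel)
             (CovZ.leaf K2_ok TF_l6221 _)
             (CovZ.leaf K2_ok TF_l6222 _))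
            (CovZ.leaf K2_ok TF_l6223 _)))
          (CovZ.badM (by decide +kernel)))
         (CovZ.n1 (19840, 16960) (by decide +kernel)
          (CovZ.badM (by decide +kernel))
          (CovZ.n1 (20000, 16800) (by decide +kernel)
           (CovZ.n2 (19840, 16800) (by decide +kernel)
            (CovZ.badM (by decide +kernel))
            (CovZ.n1 (19920, 16720) (by decide +kernel)
             (CovZ.leaf K2_ok TF_l6227 _)
             (CovZ.badM (by decide +kernel))))
           (CovZ.badM (by decide +kernel)))))))))
    (CovZ.n1 (19200, 15360) (by decide +kernel)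
     (CovZ.n2 (18560, 16000) (by decide +kernel)
      (CovZ.n2 (19200, 16000) (by decide +kernel)
       (CovZ.leaf K2_ok TF_l6235 _)
       (CovZ.leaf K2_ok TF_l6236 _))
      (CovZ.leaf K2_ok TF_l6237 _))
     (CovZ.n1 (19840, 16000) (by decide +kernel)
      (CovZ.leaf K2_ok TF_l6238 _)
      (CovZ.leaf K2_ok TF_l6239 _)))))
    (CovZ.topM TF_LL 277064459710333034625346648711914869894179471433 (by decide +kernel) (CovZ.n0 (19200, 16640) (by decide +kernel)
    (CovZ.n2 (17920, 16640) (by decide +kernel)
     (CovZ.n2 (18560, 17280) (by decide +kernel)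
      (CovZ.leaf K2_ok TF_l6240 _)
      (CovZ.n1 (17920, 17280) (by decide +kernel)
       (CovZ.leaf K2_ok TF_l6241 _)
       (CovZ.leaf K2_ok TF_l6242 _)))
     (CovZ.n1 (18560, 16000) (by decide +kernel)
      (CovZ.leaf K2_ok TF_l6243 _)
      (CovZ.n1 (18560, 16640) (by decide +kernel)
       (CovZ.leaf K2_ok TF_l6244 _)
       (CovZ.leaf K2_ok TF_l6245 _))))
    (CovZ.subM 2854496746541387448346308232151421985532936193 (by decide +kernel)
     (CovZ.n1 (19200, 17920) (by decide +kernel)
      (CovZ.subM 1361129467683753856214681671161895452673 (by decide +kernel)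
       (CovZ.n2 (19840, 17280) (by decide +kernel)
        (CovZ.n2 (19200, 17280) (by decide +kernel)
         (CovZ.badM (by decide +kernel))
         (CovZ.n1 (19520, 16960) (by decide +kernel)
          (CovZ.n2 (19200, 16960) (by decide +kernel)
           (CovZ.leaf K2_ok TF_l6248 _)
           (CovZ.leaf K2_ok TF_l6249 _))
          (CovZ.badM (by decide +kernel))))
        (CovZ.badM (by decide +kernel))))
      (CovZ.n1 (18560, 17280) (by decide +kernel)
       (CovZ.n2 (18560, 17920) (by decide +kernel)
        (CovZ.n2 (18880, 17600) (by decide +kernel)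
         (CovZ.n2 (18560, 17600) (by decide +kernel)
          (CovZ.leaf K2_ok TF_l6260 _)
          (CovZ.leaf K2_ok TF_l6261 _))
         (CovZ.badM (by decide +kernel)))
        (CovZ.n1 (18240, 17600) (by decide +kernel)
         (CovZ.n2 (18240, 17920) (by decide +kernel)
          (CovZ.n2 (18400, 17760) (by decide +kernel)
           (CovZ.leaf K2_ok TF_l6270 _)
           (CovZ.leaf K2_ok TF_l6271 _))
          (CovZ.leaf K2_ok TF_l6272 _))
         (CovZ.n1 (18560, 17600) (by decide +kernel)
          (CovZ.leaf K2_ok TF_l6273 _)
          (CovZ.n1 (18400, 17760) (by decide +kernel)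
           (CovZ.leaf K2_ok TF_l6274 _)
           (CovZ.leaf K2_ok TF_l6275 _)))))
       (CovZ.subM 1361129467683753856214681671161895452673 (by decide +kernel)
        (CovZ.n1 (19200, 17280) (by decide +kernel)
         (CovZ.n2 (18880, 16960) (by decide +kernel)
          (CovZ.n2 (18880, 17280) (by decide +kernel)
           (CovZ.n2 (19040, 17120) (by decide +kernel)
            (CovZ.leaf K2_ok TF_l6276 _)
            (CovZ.leaf K2_ok TF_l6277 _))
           (CovZ.leaf K2_ok TF_l6278 _))
          (CovZ.n1 (19200, 16960) (by decide +kernel)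
           (CovZ.leaf K2_ok TF_l6279 _)
           (CovZ.n1 (19040, 17120) (by decide +kernel)
            (CovZ.leaf K2_ok TF_l6280 _)
            (CovZ.leaf K2_ok TF_l6281 _))))
         (CovZ.n1 (18880, 17600) (by decide +kernel)
          (CovZ.badM (by decide +kernel))
          (CovZ.n1 (18880, 17280) (by decide +kernel)
           (CovZ.n2 (18720, 17440) (by decide +kernel)
            (CovZ.leaf K2_ok TF_l6283 _)
            (CovZ.leaf K2_ok TF_l6284 _))
           (CovZ.leaf K2_ok TF_l6285 _))))))))))

theorem TF_s11_9 : SqZ TF_M TF_L [0, 7, 4, 3] (-7680) (-7680) 2560 11 9 :=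
  SqZ.mk (a := 20480) (b := 23040) (c := 15360) (d := 17920) (by norm_num) (by norm_num) (by norm_num) (by norm_num)
    (CovZ.topM TF_LL 178406004123540850868566059928944393291038721 (by decide +kernel) (CovZ.n2 (21760, 16640) (by decide +kernel)
    (CovZ.n2 (23040, 16640) (by decide +kernel)
     (CovZ.badM (by decide +kernel))
     (CovZ.badM (by decide +kernel)))
    (CovZ.n1 (21760, 15360) (by decide +kernel)
     (CovZ.n2 (21120, 16000) (by decide +kernel)
      (CovZ.badM (by decide +kernel))
      (CovZ.n1 (21120, 15360) (by decide +kernel)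
       (CovZ.n2 (20800, 15680) (by decide +kernel)
        (CovZ.n2 (21120, 15680) (by decide +kernel)
         (CovZ.n2 (20960, 15520) (by decide +kernel)
          (CovZ.leaf K2_ok TF_l15973 _)
          (CovZ.n1 (21120, 15520) (by decide +kernel)
           (CovZ.leaf K2_ok TF_l15974 _)
           (CovZ.leaf K2_ok TF_l15975 _)))
         (CovZ.n1 (20960, 15840) (by decide +kernel)
          (CovZ.n2 (21120, 15840) (by decide +kernel)
           (CovZ.n2 (21040, 15760) (by decide +kernel)
            (CovZ.leaf K2_ok TF_l15976 _)
            (CovZ.leaf K2_ok TF_l15977 _))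
           (CovZ.n1 (21040, 15920) (by decide +kernel)
            (CovZ.n2 (21120, 15920) (by decide +kernel)
             (CovZ.n2 (21080, 15880) (by decide +kernel)
              (CovZ.leaf K2_ok TF_l15978 _)
              (CovZ.leaf K2_ok TF_l15979 _))
             (CovZ.n1 (21080, 15960) (by decide +kernel)
              (CovZ.badM (by decide +kernel))
              (CovZ.leaf K2_ok TF_l15980 _)))
            (CovZ.leaf K2_ok TF_l15981 _)))
          (CovZ.leaf K2_ok TF_l15982 _)))
        (CovZ.leaf K2_ok TF_l6688 _))
       (CovZ.n1 (21440, 15680) (by decide +kernel)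
        (CovZ.n2 (21440, 15360) (by decide +kernel)
         (CovZ.n2 (21280, 15520) (by decide +kernel)
          (CovZ.n2 (21440, 15520) (by decide +kernel)
           (CovZ.leaf K2_ok TF_l14887 _)
           (CovZ.n1 (21360, 15600) (by decide +kernel)
            (CovZ.n2 (21440, 15600) (by decide +kernel)
             (CovZ.leaf K2_ok TF_l14888 _)
             (CovZ.n1 (21400, 15640) (by decide +kernel)
              (CovZ.n2 (21440, 15640) (by decide +kernel)
               (CovZ.leaf K2_ok TF_l14889 _)
               (CovZ.leaf K2_ok TF_l14890 _))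
              (CovZ.leaf K2_ok TF_l14891 _)))
            (CovZ.leaf K2_ok TF_l14892 _)))
          (CovZ.leaf K2_ok TF_l14893 _))
         (CovZ.n1 (21600, 15520) (by decide +kernel)
          (CovZ.n2 (21600, 15360) (by decide +kernel)
           (CovZ.n2 (21520, 15440) (by decide +kernel)
            (CovZ.n2 (21600, 15440) (by decide +kernel)
             (CovZ.leaf K2_ok TF_l14894 _)
             (CovZ.n1 (21560, 15480) (by decide +kernel)
              (CovZ.leaf K2_ok TF_l14895 _)
              (CovZ.leaf K2_ok TF_l14896 _)))
            (CovZ.leaf K2_ok TF_l14897 _))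
           (CovZ.n1 (21680, 15440) (by decide +kernel)
            (CovZ.n2 (21680, 15360) (by decide +kernel)
             (CovZ.n2 (21640, 15400) (by decide +kernel)
              (CovZ.leaf K2_ok TF_l14898 _)
              (CovZ.leaf K2_ok TF_l14899 _))
             (CovZ.leaf K2_ok TF_l14900 _))
            (CovZ.n1 (21600, 15440) (by decide +kernel)
             (CovZ.leaf K2_ok TF_l14901 _)
             (CovZ.n1 (21640, 15400) (by decide +kernel)
              (CovZ.leaf K2_ok TF_l14902 _)
              (CovZ.leaf K2_ok TF_l14903 _)))))
          (CovZ.n1 (21440, 15520) (by decide +kernel)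
           (CovZ.n2 (21520, 15600) (by decide +kernel)
            (CovZ.n2 (21520, 15520) (by decide +kernel)
             (CovZ.n2 (21480, 15560) (by decide +kernel)
              (CovZ.n2 (21520, 15560) (by decide +kernel)
               (CovZ.leaf K2_ok TF_l14904 _)
               (CovZ.leaf K2_ok TF_l14905 _))
              (CovZ.leaf K2_ok TF_l14906 _))
             (CovZ.leaf K2_ok TF_l14907 _))
            (CovZ.n1 (21440, 15600) (by decide +kernel)
             (CovZ.n2 (21480, 15640) (by decide +kernel)
              (CovZ.leaf K2_ok TF_l14908 _)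
              (CovZ.leaf K2_ok TF_l14909 _))
             (CovZ.n1 (21480, 15560) (by decide +kernel)
              (CovZ.leaf K2_ok TF_l14910 _)
              (CovZ.n1 (21480, 15600) (by decide +kernel)
               (CovZ.leaf K2_ok TF_l14911 _)
               (CovZ.leaf K2_ok TF_l14912 _)))))
           (CovZ.n1 (21520, 15440) (by decide +kernel)
            (CovZ.leaf K2_ok TF_l14913 _)
            (CovZ.n1 (21520, 15520) (by decide +kernel)
             (CovZ.n2 (21560, 15480) (by decide +kernel)
              (CovZ.leaf K2_ok TF_l14914 _)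
              (CovZ.leaf K2_ok TF_l14915 _))
             (CovZ.leaf K2_ok TF_l14916 _))))))
        (CovZ.n1 (21120, 15680) (by decide +kernel)
         (CovZ.n2 (21280, 15840) (by decide +kernel)
          (CovZ.n2 (21280, 15680) (by decide +kernel)
           (CovZ.n2 (21200, 15760) (by decide +kernel)
            (CovZ.badM (by decide +kernel))
            (CovZ.leaf K2_ok TF_l15983 _))
           (CovZ.badM (by decide +kernel)))
          (CovZ.n1 (21120, 15840) (by decide +kernel)
           (CovZ.n2 (21200, 15920) (by decide +kernel)
            (CovZ.n2 (21200, 15840) (by decide +kernel)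
             (CovZ.n2 (21160, 15880) (by decide +kernel)
              (CovZ.badM (by decide +kernel))
              (CovZ.leaf K2_ok TF_l15984 _))
             (CovZ.badM (by decide +kernel)))
            (CovZ.n1 (21120, 15920) (by decide +kernel)
             (CovZ.badM (by decide +kernel))
             (CovZ.n1 (21160, 15880) (by decide +kernel)
              (CovZ.leaf K2_ok TF_l15985 _)
              (CovZ.badM (by decide +kernel)))))
           (CovZ.n1 (21200, 15760) (by decide +kernel)
            (CovZ.leaf K2_ok TF_l15986 _)
            (CovZ.n1 (21200, 15840) (by decide +kernel)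
             (CovZ.badM (by decide +kernel))
             (CovZ.n1 (21160, 15800) (by decide +kernel)
              (CovZ.leaf K2_ok TF_l15987 _)
              (CovZ.badM (by decide +kernel)))))))
         (CovZ.n1 (21280, 15520) (by decide +kernel)
          (CovZ.leaf K2_ok TF_l15988 _)
          (CovZ.n1 (21280, 15680) (by decide +kernel)
           (CovZ.n2 (21360, 15600) (by decide +kernel)
            (CovZ.leaf K2_ok TF_l15989 _)
            (CovZ.badM (by decide +kernel)))
           (CovZ.n1 (21200, 15600) (by decide +kernel)
            (CovZ.leaf K2_ok TF_l15990 _)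
            (CovZ.leaf K2_ok TF_l15991 _))))))))
     (CovZ.badM (by decide +kernel)))))
    (CovZ.topM TF_LL 178407365253008534003449893784683982914322433 (by decide +kernel) (CovZ.n0 (21760, 16640) (by decide +kernel)
    (CovZ.n2 (20480, 16640) (by decide +kernel)
     (CovZ.badM (by decide +kernel))
     (CovZ.n1 (21120, 16000) (by decide +kernel)
      (CovZ.n2 (20480, 16000) (by decide +kernel)
       (CovZ.n2 (20800, 16320) (by decide +kernel)
        (CovZ.n2 (20800, 16000) (by decide +kernel)
         (CovZ.n2 (20640, 16160) (by decide +kernel)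
          (CovZ.n2 (20800, 16160) (by decide +kernel)
           (CovZ.n2 (20720, 16080) (by decide +kernel)
            (CovZ.n2 (20720, 16160) (by decide +kernel)
             (CovZ.leaf K2_ok TF_l14917 _)
             (CovZ.leaf K2_ok TF_l14918 _))
            (CovZ.n1 (20800, 16080) (by decide +kernel)
             (CovZ.leaf K2_ok TF_l14919 _)
             (CovZ.leaf K2_ok TF_l14920 _)))
           (CovZ.n1 (20720, 16240) (by decide +kernel)
            (CovZ.badM (by decide +kernel))
            (CovZ.n1 (20720, 16160) (by decide +kernel)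
             (CovZ.n2 (20680, 16200) (by decide +kernel)
              (CovZ.leaf K2_ok TF_l14921 _)
              (CovZ.leaf K2_ok TF_l14922 _))
             (CovZ.leaf K2_ok TF_l14923 _))))
          (CovZ.leaf K2_ok TF_l14924 _))
         (CovZ.n1 (20960, 16160) (by decide +kernel)
          (CovZ.n2 (20960, 16000) (by decide +kernel)
           (CovZ.n2 (20880, 16080) (by decide +kernel)
            (CovZ.n2 (20960, 16080) (by decide +kernel)
             (CovZ.n2 (20920, 16040) (by decide +kernel)
              (CovZ.n2 (20920, 16080) (by decide +kernel)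
               (CovZ.badM (by decide +kernel))
               (CovZ.leaf K2_ok TF_l14925 _))
              (CovZ.n1 (20960, 16040) (by decide +kernel)
               (CovZ.leaf K2_ok TF_l15992 _)
               (CovZ.badM (by decide +kernel))))
             (CovZ.n1 (20920, 16120) (by decide +kernel)
              (CovZ.n2 (20960, 16120) (by decide +kernel)
               (CovZ.n2 (20940, 16100) (by decide +kernel)
                (CovZ.n2 (20940, 16120) (by decide +kernel)
                 (CovZ.leaf K2_ok TF_l14926 _)
                 (CovZ.leaf K2_ok TF_l14927 _))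
                (CovZ.n1 (20960, 16100) (by decide +kernel)
                 (CovZ.leaf K2_ok TF_l14928 _)
                 (CovZ.leaf K2_ok TF_l14929 _)))
               (CovZ.badM (by decide +kernel)))
              (CovZ.n1 (20920, 16080) (by decide +kernel)
               (CovZ.leaf K2_ok TF_l14930 _)
               (CovZ.leaf K2_ok TF_l14931 _))))
            (CovZ.leaf K2_ok TF_l14932 _))
           (CovZ.n1 (21040, 16080) (by decide +kernel)
            (CovZ.n2 (21040, 16000) (by decide +kernel)
             (CovZ.n2 (21000, 16040) (by decide +kernel)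
              (CovZ.n2 (21040, 16040) (by decide +kernel)
               (CovZ.n2 (21020, 16020) (by decide +kernel)
                (CovZ.badM (by decide +kernel))
                (CovZ.n1 (21040, 16020) (by decide +kernel)
                 (CovZ.leaf K2_ok TF_l15993 _)
                 (CovZ.badM (by decide +kernel))))
               (CovZ.badM (by decide +kernel)))
              (CovZ.leaf K2_ok TF_l15994 _))
             (CovZ.n1 (21080, 16040) (by decide +kernel)
              (CovZ.n2 (21080, 16000) (by decide +kernel)
               (CovZ.n2 (21060, 16020) (by decide +kernel)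
                (CovZ.badM (by decide +kernel))
                (CovZ.leaf K2_ok TF_l15995 _))
               (CovZ.badM (by decide +kernel)))
              (CovZ.n1 (21040, 16040) (by decide +kernel)
               (CovZ.badM (by decide +kernel))
               (CovZ.n1 (21060, 16020) (by decide +kernel)
                (CovZ.leaf K2_ok TF_l15996 _)
                (CovZ.badM (by decide +kernel))))))
            (CovZ.n1 (20960, 16080) (by decide +kernel)
             (CovZ.n2 (21000, 16120) (by decide +kernel)
              (CovZ.badM (by decide +kernel))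
              (CovZ.n1 (20960, 16120) (by decide +kernel)
               (CovZ.badM (by decide +kernel))
               (CovZ.n1 (20980, 16100) (by decide +kernel)
                (CovZ.n2 (20960, 16100) (by decide +kernel)
                 (CovZ.badM (by decide +kernel))
                 (CovZ.badM (by decide +kernel)))
                (CovZ.badM (by decide +kernel)))))
             (CovZ.n1 (21000, 16040) (by decide +kernel)
              (CovZ.n2 (20960, 16040) (by decide +kernel)
               (CovZ.badM (by decide +kernel))
               (CovZ.leaf K2_ok TF_l15997 _))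
              (CovZ.badM (by decide +kernel))))))
          (CovZ.n1 (20800, 16160) (by decide +kernel)
           (CovZ.badM (by decide +kernel))
           (CovZ.n1 (20880, 16080) (by decide +kernel)
            (CovZ.n2 (20800, 16080) (by decide +kernel)
             (CovZ.leaf K2_ok TF_l14933 _)
             (CovZ.leaf K2_ok TF_l14934 _))
            (CovZ.n1 (20880, 16160) (by decide +kernel)
             (CovZ.n2 (20920, 16120) (by decide +kernel)
              (CovZ.n2 (20880, 16120) (by decide +kernel)
               (CovZ.leaf K2_ok TF_l14935 _)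
               (CovZ.n1 (20900, 16100) (by decide +kernel)
                (CovZ.leaf K2_ok TF_l14936 _)
                (CovZ.leaf K2_ok TF_l14937 _)))
              (CovZ.badM (by decide +kernel)))
             (CovZ.n1 (20840, 16120) (by decide +kernel)
              (CovZ.n2 (20840, 16160) (by decide +kernel)
               (CovZ.leaf K2_ok TF_l14938 _)
               (CovZ.leaf K2_ok TF_l14939 _))
              (CovZ.n1 (20880, 16120) (by decide +kernel)
               (CovZ.leaf K2_ok TF_l14940 _)
               (CovZ.leaf K2_ok TF_l14941 _))))))))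
        (CovZ.n1 (20480, 16320) (by decide +kernel)
         (CovZ.badM (by decide +kernel))
         (CovZ.n1 (20640, 16160) (by decide +kernel)
          (CovZ.n2 (20480, 16160) (by decide +kernel)
           (CovZ.leaf K2_ok TF_l14942 _)
           (CovZ.leaf K2_ok TF_l14943 _))
          (CovZ.n1 (20640, 16320) (by decide +kernel)
           (CovZ.n2 (20720, 16240) (by decide +kernel)
            (CovZ.n2 (20640, 16240) (by decide +kernel)
             (CovZ.badM (by decide +kernel))
             (CovZ.n1 (20680, 16200) (by decide +kernel)
              (CovZ.leaf K2_ok TF_l14944 _)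
              (CovZ.badM (by decide +kernel))))
            (CovZ.badM (by decide +kernel)))
           (CovZ.n1 (20560, 16240) (by decide +kernel)
            (CovZ.n2 (20560, 16320) (by decide +kernel)
             (CovZ.n2 (20600, 16280) (by decide +kernel)
              (CovZ.leaf K2_ok TF_l14945 _)
              (CovZ.badM (by decide +kernel)))
             (CovZ.leaf K2_ok TF_l14946 _))
            (CovZ.n1 (20640, 16240) (by decide +kernel)
             (CovZ.leaf K2_ok TF_l14947 _)
             (CovZ.n1 (20600, 16280) (by decide +kernel)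
              (CovZ.badM (by decide +kernel))
              (CovZ.leaf K2_ok TF_l14948 _))))))))
       (CovZ.n1 (20800, 15680) (by decide +kernel)
        (CovZ.leaf K2_ok TF_l6689 _)
        (CovZ.n1 (20800, 16000) (by decide +kernel)
         (CovZ.n2 (20960, 15840) (by decide +kernel)
          (CovZ.leaf K2_ok TF_l14949 _)
          (CovZ.n1 (20960, 16000) (by decide +kernel)
           (CovZ.n2 (21040, 15920) (by decide +kernel)
            (CovZ.leaf K2_ok TF_l15998 _)
            (CovZ.n1 (21040, 16000) (by decide +kernel)
             (CovZ.n2 (21080, 15960) (by decide +kernel)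
              (CovZ.leaf K2_ok TF_l15999 _)
              (CovZ.n1 (21080, 16000) (by decide +kernel)
               (CovZ.badM (by decide +kernel))
               (CovZ.n1 (21060, 15980) (by decide +kernel)
                (CovZ.leaf K2_ok TF_l16000 _)
                (CovZ.leaf K2_ok TF_l16001 _))))
             (CovZ.n1 (21000, 15960) (by decide +kernel)
              (CovZ.n2 (21000, 16000) (by decide +kernel)
               (CovZ.leaf K2_ok TF_l16002 _)
               (CovZ.leaf K2_ok TF_l16003 _))
              (CovZ.n1 (21040, 15960) (by decide +kernel)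
               (CovZ.leaf K2_ok TF_l16004 _)
               (CovZ.leaf K2_ok TF_l16005 _)))))
           (CovZ.n1 (20880, 15920) (by decide +kernel)
            (CovZ.n2 (20880, 16000) (by decide +kernel)
             (CovZ.leaf K2_ok TF_l16006 _)
             (CovZ.leaf K2_ok TF_l14950 _))
            (CovZ.n1 (20960, 15920) (by decide +kernel)
             (CovZ.leaf K2_ok TF_l16007 _)
             (CovZ.leaf K2_ok TF_l16008 _)))))
         (CovZ.n1 (20640, 15840) (by decide +kernel)
          (CovZ.n2 (20640, 16000) (by decide +kernel)
           (CovZ.leaf K2_ok TF_l14951 _)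
           (CovZ.leaf K2_ok TF_l14952 _))
          (CovZ.n1 (20800, 15840) (by decide +kernel)
           (CovZ.leaf K2_ok TF_l16009 _)
           (CovZ.leaf K2_ok TF_l14953 _))))))
      (CovZ.n1 (21120, 16640) (by decide +kernel)
       (CovZ.n2 (21440, 16320) (by decide +kernel)
        (CovZ.n2 (21120, 16320) (by decide +kernel)
         (CovZ.badM (by decide +kernel))
         (CovZ.n1 (21280, 16160) (by decide +kernel)
          (CovZ.n2 (21120, 16160) (by decide +kernel)
           (CovZ.badM (by decide +kernel))
           (CovZ.badM (by decide +kernel)))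
          (CovZ.badM (by decide +kernel))))
        (CovZ.badM (by decide +kernel)))
       (CovZ.n1 (20800, 16320) (by decide +kernel)
        (CovZ.badM (by decide +kernel))
        (CovZ.n1 (21120, 16320) (by decide +kernel)
         (CovZ.n2 (20960, 16160) (by decide +kernel)
          (CovZ.badM (by decide +kernel))
          (CovZ.n1 (21120, 16160) (by decide +kernel)
           (CovZ.n2 (21040, 16080) (by decide +kernel)
            (CovZ.badM (by decide +kernel))
            (CovZ.badM (by decide +kernel)))
           (CovZ.badM (by decide +kernel))))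
         (CovZ.badM (by decide +kernel)))))))
    (CovZ.badM (by decide +kernel))))

theorem TF_s12_9 : SqZ TF_M TF_L [0, 7, 4, 3] (-7680) (-7680) 2560 12 9 :=
  SqZ.mk (a := 23040) (b := 25600) (c := 15360) (d := 17920) (by norm_num) (by norm_num) (by norm_num) (by norm_num)
    (CovZ.topM TF_LL 0 (by decide +kernel) (CovZ.badM (by decide +kernel)))
    (CovZ.topM TF_LL 1 (by decide +kernel) (CovZ.n0 (24320, 16640) (by decide +kernel)
    (CovZ.n2 (23040, 16640) (by decide +kernel)
     (CovZ.badM (by decide +kernel))
     (CovZ.badM (by decide +kernel)))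
    (CovZ.badM (by decide +kernel))))

theorem TF_s13_9 : SqZ TF_M TF_L [0, 7, 4, 3] (-7680) (-7680) 2560 13 9 :=
  SqZ.mk (a := 25600) (b := 28160) (c := 15360) (d := 17920) (by norm_num) (by norm_num) (by norm_num) (by norm_num)
    (CovZ.topM TF_LL 0 (by decide +kernel) (CovZ.badM (by decide +kernel)))
    (CovZ.topM TF_LL 0 (by decide +kernel) (CovZ.badM (by decide +kernel)))

theorem TF_s14_9 : SqZ TF_M TF_L [0, 7, 4, 3] (-7680) (-7680) 2560 14 9 :=
  SqZ.mk (a := 28160) (b := 30720) (c := 15360) (d := 17920) (by norm_num) (by norm_num) (by norm_num) (by norm_num)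
    (CovZ.topM TF_LL 0 (by decide +kernel) (CovZ.badM (by decide +kernel)))
    (CovZ.topM TF_LL 0 (by decide +kernel) (CovZ.badM (by decide +kernel)))

theorem TF_s15_9 : SqZ TF_M TF_L [0, 7, 4, 3] (-7680) (-7680) 2560 15 9 :=
  SqZ.mk (a := 30720) (b := 33280) (c := 15360) (d := 17920) (by norm_num) (by norm_num) (by norm_num) (by norm_num)
    (CovZ.topM TF_LL 0 (by decide +kernel) (CovZ.badM (by decide +kernel)))
    (CovZ.topM TF_LL 0 (by decide +kernel) (CovZ.badM (by decide +kernel)))

theorem TF_s0_10 : SqZ TF_M TF_L [0, 7, 4, 3] (-7680) (-7680) 2560 0 10 :=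
  SqZ.mk (a := (-7680)) (b := (-5120)) (c := 17920) (d := 20480) (by norm_num) (by norm_num) (by norm_num) (by norm_num)
    (CovZ.topM TF_LL 884734160160292524557383384068158404952064 (by decide +kernel) (CovZ.n2 (-6400, 19200) (by decide +kernel)
    (CovZ.n2 (-5120, 19200) (by decide +kernel)
     TF_u111
     TF_u112)
    (CovZ.n1 (-6400, 17920) (by decide +kernel)
     (CovZ.badM (by decide +kernel))
     (CovZ.n1 (-5760, 18560) (by decide +kernel)
      (CovZ.n2 (-5760, 17920) (by decide +kernel)
       (CovZ.n2 (-6080, 18240) (by decide +kernel)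
        (CovZ.n2 (-5760, 18240) (by decide +kernel)
         (CovZ.subM 707787324169107664979099652037937192763392 (by decide +kernel)
          (CovZ.n2 (-5920, 18080) (by decide +kernel)
           (CovZ.n2 (-5920, 18240) (by decide +kernel)
            (CovZ.n2 (-5840, 18160) (by decide +kernel)
             (CovZ.leaf K2_ok TF_l457 _)
             (CovZ.leaf K2_ok TF_l458 _))
            (CovZ.n1 (-6000, 18160) (by decide +kernel)
             (CovZ.n2 (-6000, 18240) (by decide +kernel)
              (CovZ.leaf K2_ok TF_l459 _)
              (CovZ.n1 (-6040, 18200) (by decide +kernel)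
               (CovZ.leaf K2_ok TF_l8908 _)
               (CovZ.leaf K2_ok TF_l8909 _)))
             (CovZ.n1 (-5920, 18160) (by decide +kernel)
              (CovZ.leaf K2_ok TF_l460 _)
              (CovZ.leaf K2_ok TF_l461 _))))
           (CovZ.n1 (-5760, 18080) (by decide +kernel)
            (CovZ.leaf K2_ok TF_l462 _)
            (CovZ.n1 (-5840, 18160) (by decide +kernel)
             (CovZ.leaf K2_ok TF_l463 _)
             (CovZ.leaf K2_ok TF_l464 _)))))
         (CovZ.subM 710509583104475172691529024387455943442432 (by decide +kernel)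
          (CovZ.n1 (-5920, 18400) (by decide +kernel)
           (CovZ.n2 (-5760, 18400) (by decide +kernel)
            (CovZ.leaf K2_ok TF_l465 _)
            (CovZ.n1 (-5840, 18480) (by decide +kernel)
             (CovZ.leaf K2_ok TF_l466 _)
             (CovZ.leaf K2_ok TF_l467 _)))
           (CovZ.n1 (-5920, 18240) (by decide +kernel)
            (CovZ.n2 (-6000, 18320) (by decide +kernel)
             (CovZ.n2 (-5920, 18320) (by decide +kernel)
              (CovZ.leaf K2_ok TF_l468 _)
              (CovZ.leaf K2_ok TF_l469 _))
             (CovZ.n1 (-6000, 18240) (by decide +kernel)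
              (CovZ.n2 (-6040, 18280) (by decide +kernel)
               (CovZ.leaf K2_ok TF_l8910 _)
               (CovZ.leaf K2_ok TF_l8911 _))
              (CovZ.leaf K2_ok TF_l470 _)))
            (CovZ.leaf K2_ok TF_l471 _)))))
        (CovZ.subM 707787324169107664979099652037937125654528 (by decide +kernel)
         (CovZ.n1 (-6080, 17920) (by decide +kernel)
          (CovZ.subM 10889035741470030830827987437827320184832 (by decide +kernel)
           (CovZ.n2 (-6240, 18080) (by decide +kernel)
            (CovZ.n2 (-6080, 18080) (by decide +kernel)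
             (CovZ.n2 (-6160, 18000) (by decide +kernel)
              (CovZ.n2 (-6160, 18080) (by decide +kernel)
               (CovZ.n2 (-6120, 18040) (by decide +kernel)
                (CovZ.badM (by decide +kernel))
                (CovZ.n1 (-6120, 18080) (by decide +kernel)
                 (CovZ.n2 (-6100, 18060) (by decide +kernel)
                  (CovZ.leaf K2_ok TF_l8912 _)
                  (CovZ.leaf K2_ok TF_l8913 _))
                 (CovZ.badM (by decide +kernel))))
               (CovZ.badM (by decide +kernel)))
              (CovZ.n1 (-6080, 18000) (by decide +kernel)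
               (CovZ.n2 (-6120, 17960) (by decide +kernel)
                (CovZ.n2 (-6120, 18000) (by decide +kernel)
                 (CovZ.leaf K2_ok TF_l8914 _)
                 (CovZ.n1 (-6140, 17980) (by decide +kernel)
                  (CovZ.badM (by decide +kernel))
                  (CovZ.n1 (-6120, 17980) (by decide +kernel)
                   (CovZ.leaf K2_ok TF_l8915 _)
                   (CovZ.badM (by decide +kernel)))))
                (CovZ.n1 (-6080, 17960) (by decide +kernel)
                 (CovZ.leaf K2_ok TF_l8916 _)
                 (CovZ.n1 (-6100, 17980) (by decide +kernel)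
                  (CovZ.leaf K2_ok TF_l8917 _)
                  (CovZ.leaf K2_ok TF_l8918 _))))
               (CovZ.n1 (-6120, 18040) (by decide +kernel)
                (CovZ.n2 (-6080, 18040) (by decide +kernel)
                 (CovZ.leaf K2_ok TF_l8919 _)
                 (CovZ.n1 (-6100, 18060) (by decide +kernel)
                  (CovZ.leaf K2_ok TF_l8920 _)
                  (CovZ.leaf K2_ok TF_l8921 _)))
                (CovZ.n1 (-6120, 18000) (by decide +kernel)
                 (CovZ.badM (by decide +kernel))
                 (CovZ.leaf K2_ok TF_l8922 _)))))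
             (CovZ.n1 (-6160, 18160) (by decide +kernel)
              (CovZ.n2 (-6080, 18160) (by decide +kernel)
               (CovZ.n2 (-6120, 18120) (by decide +kernel)
                (CovZ.n2 (-6120, 18160) (by decide +kernel)
                 (CovZ.leaf K2_ok TF_l8923 _)
                 (CovZ.badM (by decide +kernel)))
                (CovZ.n1 (-6080, 18120) (by decide +kernel)
                 (CovZ.leaf K2_ok TF_l8924 _)
                 (CovZ.leaf K2_ok TF_l8925 _)))
               (CovZ.n1 (-6120, 18200) (by decide +kernel)
                (CovZ.n2 (-6080, 18200) (by decide +kernel)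
                 (CovZ.leaf K2_ok TF_l8926 _)
                 (CovZ.leaf K2_ok TF_l8927 _))
                (CovZ.n1 (-6120, 18160) (by decide +kernel)
                 (CovZ.badM (by decide +kernel))
                 (CovZ.leaf K2_ok TF_l8928 _))))
              (CovZ.n1 (-6160, 18080) (by decide +kernel)
               (CovZ.badM (by decide +kernel))
               (CovZ.n1 (-6120, 18120) (by decide +kernel)
                (CovZ.n2 (-6120, 18080) (by decide +kernel)
                 (CovZ.badM (by decide +kernel))
                 (CovZ.leaf K2_ok TF_l8929 _))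
                (CovZ.badM (by decide +kernel))))))
            (CovZ.n1 (-6240, 17920) (by decide +kernel)
             (CovZ.badM (by decide +kernel))
             (CovZ.n1 (-6160, 18000) (by decide +kernel)
              (CovZ.n2 (-6160, 17920) (by decide +kernel)
               (CovZ.badM (by decide +kernel))
               (CovZ.n1 (-6120, 17960) (by decide +kernel)
                (CovZ.n2 (-6120, 17920) (by decide +kernel)
                 (CovZ.n2 (-6140, 17940) (by decide +kernel)
                  (CovZ.leaf K2_ok TF_l8930 _)
                  (CovZ.n1 (-6140, 17920) (by decide +kernel)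
                   (CovZ.badM (by decide +kernel))
                   (CovZ.leaf K2_ok TF_l8931 _)))
                 (CovZ.leaf K2_ok TF_l8932 _))
                (CovZ.n1 (-6160, 17960) (by decide +kernel)
                 (CovZ.n2 (-6140, 17980) (by decide +kernel)
                  (CovZ.n2 (-6140, 17960) (by decide +kernel)
                   (CovZ.badM (by decide +kernel))
                   (CovZ.leaf K2_ok TF_l8933 _))
                  (CovZ.badM (by decide +kernel)))
                 (CovZ.n1 (-6140, 17940) (by decide +kernel)
                  (CovZ.badM (by decide +kernel))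
                  (CovZ.n1 (-6140, 17960) (by decide +kernel)
                   (CovZ.leaf K2_ok TF_l8934 _)
                   (CovZ.badM (by decide +kernel)))))))
              (CovZ.badM (by decide +kernel))))))
          (CovZ.n1 (-5920, 18080) (by decide +kernel)
           (CovZ.n2 (-5920, 17920) (by decide +kernel)
            (CovZ.n2 (-6000, 18000) (by decide +kernel)
             (CovZ.n2 (-5920, 18000) (by decide +kernel)
              (CovZ.leaf K2_ok TF_l472 _)
              (CovZ.leaf K2_ok TF_l473 _))
             (CovZ.n1 (-6000, 17920) (by decide +kernel)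
              (CovZ.n2 (-6040, 17960) (by decide +kernel)
               (CovZ.leaf K2_ok TF_l474 _)
               (CovZ.leaf K2_ok TF_l475 _))
              (CovZ.leaf K2_ok TF_l476 _)))
            (CovZ.leaf K2_ok TF_l477 _))
           (CovZ.n1 (-6080, 18080) (by decide +kernel)
            (CovZ.n2 (-6000, 18160) (by decide +kernel)
             (CovZ.n2 (-6000, 18080) (by decide +kernel)
              (CovZ.n2 (-6040, 18120) (by decide +kernel)
               (CovZ.leaf K2_ok TF_l8935 _)
               (CovZ.leaf K2_ok TF_l8936 _))
              (CovZ.leaf K2_ok TF_l478 _))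
             (CovZ.n1 (-6080, 18160) (by decide +kernel)
              (CovZ.leaf K2_ok TF_l8937 _)
              (CovZ.n1 (-6040, 18120) (by decide +kernel)
               (CovZ.leaf K2_ok TF_l8938 _)
               (CovZ.leaf K2_ok TF_l8939 _))))
            (CovZ.n1 (-6000, 18000) (by decide +kernel)
             (CovZ.n2 (-6080, 18000) (by decide +kernel)
              (CovZ.leaf K2_ok TF_l479 _)
              (CovZ.n1 (-6040, 17960) (by decide +kernel)
               (CovZ.leaf K2_ok TF_l8940 _)
               (CovZ.leaf K2_ok TF_l480 _)))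
             (CovZ.n1 (-6000, 18080) (by decide +kernel)
              (CovZ.leaf K2_ok TF_l481 _)
              (CovZ.leaf K2_ok TF_l482 _))))))))
       (CovZ.n1 (-5440, 18240) (by decide +kernel)
        (CovZ.n2 (-5440, 17920) (by decide +kernel)
         (CovZ.n2 (-5600, 18080) (by decide +kernel)
          (CovZ.leaf K2_ok TF_l483 _)
          (CovZ.leaf K2_ok TF_l484 _))
         (CovZ.leaf K2_ok TF_l485 _))
        (CovZ.n1 (-5760, 18240) (by decide +kernel)
         (CovZ.leaf K2_ok TF_l486 _)
         (CovZ.n1 (-5600, 18080) (by decide +kernel)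
          (CovZ.leaf K2_ok TF_l487 _)
          (CovZ.leaf K2_ok TF_l488 _)))))
      (CovZ.subM 873845119226525635153948835954702537457664 (by decide +kernel)
       (CovZ.n1 (-6400, 18560) (by decide +kernel)
        TF_u113
        TF_u114))))))
    (CovZ.topM TF_LL 873845124094303940063406303364155028013056 (by decide +kernel) (CovZ.n0 (-6400, 19200) (by decide +kernel)
    (CovZ.badM (by decide +kernel))
    (CovZ.n1 (-6400, 20480) (by decide +kernel)
     (CovZ.n2 (-5760, 19840) (by decide +kernel)
      TF_u115
      TF_u116)
     (CovZ.badM (by decide +kernel)))))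

theorem TF_s1_10 : SqZ TF_M TF_L [0, 7, 4, 3] (-7680) (-7680) 2560 1 10 :=
  SqZ.mk (a := (-5120)) (b := (-2560)) (c := 17920) (d := 20480) (by norm_num) (by norm_num) (by norm_num) (by norm_num)
    (CovZ.topM TF_LL 884734495063462182975072080312498204442624 (by decide +kernel) (CovZ.n2 (-3840, 19200) (by decide +kernel)
    (CovZ.n2 (-2560, 19200) (by decide +kernel)
     (CovZ.leaf K2_ok TF_l772 _)
     (CovZ.n1 (-3200, 19840) (by decide +kernel)
      (CovZ.leaf K2_ok TF_l773 _)
      (CovZ.leaf K2_ok TF_l774 _)))
    (CovZ.n1 (-3840, 17920) (by decide +kernel)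
     (CovZ.n2 (-4480, 18560) (by decide +kernel)
      (CovZ.leaf K2_ok TF_l775 _)
      (CovZ.n1 (-4480, 17920) (by decide +kernel)
       (CovZ.n2 (-4800, 18240) (by decide +kernel)
        (CovZ.leaf K2_ok TF_l776 _)
        (CovZ.leaf K2_ok TF_l777 _))
       (CovZ.leaf K2_ok TF_l778 _)))
     (CovZ.leaf K2_ok TF_l779 _))))
    (CovZ.topM TF_LL 884734495063462182975062856940478529536000 (by decide +kernel) (CovZ.n0 (-3840, 19200) (by decide +kernel)
    (CovZ.n2 (-5120, 19200) (by decide +kernel)
     (CovZ.n2 (-4480, 19840) (by decide +kernel)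
      (CovZ.leaf K2_ok TF_l780 _)
      (CovZ.n1 (-5120, 19840) (by decide +kernel)
       (CovZ.leaf K2_ok TF_l781 _)
       (CovZ.leaf K2_ok TF_l782 _)))
     (CovZ.n1 (-4480, 18560) (by decide +kernel)
      (CovZ.n2 (-5120, 18560) (by decide +kernel)
       (CovZ.leaf K2_ok TF_l783 _)
       (CovZ.n1 (-4800, 18240) (by decide +kernel)
        (CovZ.leaf K2_ok TF_l784 _)
        (CovZ.leaf K2_ok TF_l785 _)))
      (CovZ.n1 (-4480, 19200) (by decide +kernel)
       (CovZ.leaf K2_ok TF_l786 _)
       (CovZ.leaf K2_ok TF_l787 _))))
    (CovZ.n1 (-3840, 20480) (by decide +kernel)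
     (CovZ.n2 (-3200, 19840) (by decide +kernel)
      (CovZ.leaf K2_ok TF_l788 _)
      (CovZ.leaf K2_ok TF_l789 _))
     (CovZ.n1 (-4480, 19840) (by decide +kernel)
      (CovZ.n2 (-4480, 20480) (by decide +kernel)
       (CovZ.leaf K2_ok TF_l790 _)
       (CovZ.leaf K2_ok TF_l791 _))
      (CovZ.n1 (-3840, 19840) (by decide +kernel)
       (CovZ.leaf K2_ok TF_l792 _)
       (CovZ.leaf K2_ok TF_l793 _))))))

theorem TF_s2_10 : SqZ TF_M TF_L [0, 7, 4, 3] (-7680) (-7680) 2560 2 10 :=
  SqZ.mk (a := (-2560)) (b := 0) (c := 17920) (d := 20480) (by norm_num) (by norm_num) (by norm_num) (by norm_num)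
    (CovZ.topM TF_LL 906512650922256166776065802335823942714386 (by decide +kernel) (CovZ.n2 (-1280, 19200) (by decide +kernel)
    (CovZ.n2 (0, 19200) (by decide +kernel)
     (CovZ.leaf K2_ok TF_l1677 _)
     (CovZ.leaf K2_ok TF_l1678 _))
    (CovZ.leaf K2_ok TF_l1679 _)))
    (CovZ.topM TF_LL 906512650921939254126008744985449766913042 (by decide +kernel) (CovZ.n0 (-1280, 19200) (by decide +kernel)
    (CovZ.leaf K2_ok TF_l1680 _)
    (CovZ.n1 (-1280, 20480) (by decide +kernel)
     (CovZ.leaf K2_ok TF_l1681 _)
     (CovZ.n1 (-1920, 19840) (by decide +kernel)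
      (CovZ.leaf K2_ok TF_l1682 _)
      (CovZ.leaf K2_ok TF_l1683 _)))))

theorem TF_s3_10 : SqZ TF_M TF_L [0, 7, 4, 3] (-7680) (-7680) 2560 3 10 :=
  SqZ.mk (a := 0) (b := 2560) (c := 17920) (d := 20480) (by norm_num) (by norm_num) (by norm_num) (by norm_num)
    (CovZ.topM TF_LL 950068788695839508936392873577321266742290 (by decide +kernel) (CovZ.n2 (1280, 19200) (by decide +kernel)
    (CovZ.n2 (2560, 19200) (by decide +kernel)
     (CovZ.leaf K2_ok TF_l3438 _)
     (CovZ.leaf K2_ok TF_l3439 _))
    (CovZ.leaf K2_ok TF_l3440 _)))
    (CovZ.topM TF_LL 950068788695839508936983169387679972394002 (by decide +kernel) (CovZ.n0 (1280, 19200) (by decide +kernel)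
    (CovZ.leaf K2_ok TF_l3441 _)
    (CovZ.n1 (1280, 20480) (by decide +kernel)
     (CovZ.leaf K2_ok TF_l3442 _)
     (CovZ.leaf K2_ok TF_l3443 _))))

theorem TF_s4_10 : SqZ TF_M TF_L [0, 7, 4, 3] (-7680) (-7680) 2560 4 10 :=
  SqZ.mk (a := 2560) (b := 5120) (c := 17920) (d := 20480) (by norm_num) (by norm_num) (by norm_num) (by norm_num)
    (CovZ.topM TF_LL 2855431842944911320361592802361870626275263506 (by decide +kernel) (CovZ.n2 (3840, 19200) (by decide +kernel)
    (CovZ.leaf K2_ok TF_l4336 _)
    (CovZ.leaf K2_ok TF_l4337 _)))
    (CovZ.topM TF_LL 2855431842944901174205030819385137553053123602 (by decide +kernel) (CovZ.n0 (3840, 19200) (by decide +kernel)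
    (CovZ.leaf K2_ok TF_l4338 _)
    (CovZ.leaf K2_ok TF_l4339 _)))

theorem TF_s5_10 : SqZ TF_M TF_L [0, 7, 4, 3] (-7680) (-7680) 2560 5 10 :=
  SqZ.mk (a := 5120) (b := 7680) (c := 17920) (d := 20480) (by norm_num) (by norm_num) (by norm_num) (by norm_num)
    (CovZ.topM TF_LL 2856825639145649274949751459260245608942796882 (by decide +kernel) (CovZ.n2 (6400, 19200) (by decide +kernel)
    (CovZ.leaf K2_ok TF_l4654 _)
    (CovZ.leaf K2_ok TF_l4655 _)))
    (CovZ.topM TF_LL 2856825639145649274949751459260245608942796882 (by decide +kernel) (CovZ.n0 (6400, 19200) (by decide +kernel)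
    (CovZ.leaf K2_ok TF_l4656 _)
    (CovZ.leaf K2_ok TF_l4657 _)))

theorem TF_s6_10 : SqZ TF_M TF_L [0, 7, 4, 3] (-7680) (-7680) 2560 6 10 :=
  SqZ.mk (a := 7680) (b := 10240) (c := 17920) (d := 20480) (by norm_num) (by norm_num) (by norm_num) (by norm_num)
    (CovZ.topM TF_LL 2855431842487644078857244619669712698501759058 (by decide +kernel) (CovZ.leaf K2_ok TF_l4834 _))
    (CovZ.topM TF_LL 2855431842487644078857244619669708300455247954 (by decide +kernel) (CovZ.leaf K2_ok TF_l4835 _))

theorem TF_s7_10 : SqZ TF_M TF_L [0, 7, 4, 3] (-7680) (-7680) 2560 7 10 :=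
  SqZ.mk (a := 10240) (b := 12800) (c := 17920) (d := 20480) (by norm_num) (by norm_num) (by norm_num) (by norm_num)
    (CovZ.topM TF_LL 2854670973772366139031078281691754904756944962 (by decide +kernel) (CovZ.n2 (11520, 19200) (by decide +kernel)
    (CovZ.n2 (12800, 19200) (by decide +kernel)
     (CovZ.leaf K2_ok TF_l5079 _)
     (CovZ.n1 (12160, 19840) (by decide +kernel)
      (CovZ.leaf K2_ok TF_l5080 _)
      (CovZ.leaf K2_ok TF_l5081 _)))
    (CovZ.leaf K2_ok TF_l5082 _)))
    (CovZ.topM TF_LL 2855367872059820225956011430029296265650503746 (by decide +kernel) (CovZ.n0 (11520, 19200) (by decide +kernel)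
    (CovZ.leaf K2_ok TF_l5083 _)
    (CovZ.n1 (11520, 20480) (by decide +kernel)
     (CovZ.n2 (12160, 19840) (by decide +kernel)
      (CovZ.leaf K2_ok TF_l5084 _)
      (CovZ.n1 (12160, 20480) (by decide +kernel)
       (CovZ.leaf K2_ok TF_l5085 _)
       (CovZ.leaf K2_ok TF_l5086 _)))
     (CovZ.leaf K2_ok TF_l5087 _))))

theorem TF_s8_10 : SqZ TF_M TF_L [0, 7, 4, 3] (-7680) (-7680) 2560 8 10 :=
  SqZ.mk (a := 12800) (b := 15360) (c := 17920) (d := 20480) (by norm_num) (by norm_num) (by norm_num) (by norm_num)
    (CovZ.topM TF_LL 276886227973316654438416558266578134307810836585 (by decide +kernel) (CovZ.n2 (14080, 19200) (by decide +kernel)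
    (CovZ.n2 (15360, 19200) (by decide +kernel)
     (CovZ.leaf K2_ok TF_l5357 _)
     (CovZ.n1 (14720, 19840) (by decide +kernel)
      (CovZ.n2 (15360, 19840) (by decide +kernel)
       (CovZ.leaf K2_ok TF_l5358 _)
       (CovZ.leaf K2_ok TF_l5359 _))
      (CovZ.leaf K2_ok TF_l5360 _)))
    (CovZ.leaf K2_ok TF_l5361 _)))
    (CovZ.topM TF_LL 2854670973772355997516786723668710457242288224 (by decide +kernel) (CovZ.n0 (14080, 19200) (by decide +kernel)
    (CovZ.leaf K2_ok TF_l5362 _)
    (CovZ.n1 (14080, 20480) (by decide +kernel)
     (CovZ.n2 (14720, 19840) (by decide +kernel)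
      (CovZ.leaf K2_ok TF_l5363 _)
      (CovZ.n1 (14720, 20480) (by decide +kernel)
       (CovZ.leaf K2_ok TF_l5364 _)
       (CovZ.leaf K2_ok TF_l5365 _)))
     (CovZ.n1 (13440, 19840) (by decide +kernel)
      (CovZ.leaf K2_ok TF_l5366 _)
      (CovZ.leaf K2_ok TF_l5367 _)))))

theorem TF_s9_10 : SqZ TF_M TF_L [0, 7, 4, 3] (-7680) (-7680) 2560 9 10 :=
  SqZ.mk (a := 15360) (b := 17920) (c := 17920) (d := 20480) (by norm_num) (by norm_num) (by norm_num) (by norm_num)
    (CovZ.topM TF_LL 288304033929262351967819481194951254922737223753 (by decide +kernel) (CovZ.n2 (16640, 19200) (by decide +kernel)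
    (CovZ.n2 (17920, 19200) (by decide +kernel)
     TF_u117
     TF_u118)
    (CovZ.n1 (16640, 17920) (by decide +kernel)
     (CovZ.n2 (16000, 18560) (by decide +kernel)
      (CovZ.n2 (16640, 18560) (by decide +kernel)
       (CovZ.leaf K2_ok TF_l5801 _)
       (CovZ.leaf K2_ok TF_l5802 _))
      (CovZ.leaf K2_ok TF_l5803 _))
     (CovZ.n1 (17280, 18560) (by decide +kernel)
      (CovZ.n2 (17280, 17920) (by decide +kernel)
       (CovZ.leaf K2_ok TF_l5804 _)
       (CovZ.leaf K2_ok TF_l5805 _))
      (CovZ.leaf K2_ok TF_l5806 _)))))
    (CovZ.topM TF_LL 276886052387614674197062056486778410061933838409 (by decide +kernel) (CovZ.n0 (16640, 19200) (by decide +kernel)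
    (CovZ.n2 (15360, 19200) (by decide +kernel)
     (CovZ.n2 (16000, 19840) (by decide +kernel)
      (CovZ.leaf K2_ok TF_l5807 _)
      (CovZ.leaf K2_ok TF_l5808 _))
     (CovZ.n1 (16000, 18560) (by decide +kernel)
      (CovZ.leaf K2_ok TF_l5809 _)
      (CovZ.n1 (16000, 19200) (by decide +kernel)
       (CovZ.leaf K2_ok TF_l5810 _)
       (CovZ.leaf K2_ok TF_l5811 _))))
    (CovZ.n1 (16640, 20480) (by decide +kernel)
     TF_u119
     TF_u120)))

theorem TF_s10_10 : SqZ TF_M TF_L [0, 7, 4, 3] (-7680) (-7680) 2560 10 10 :=
  SqZ.mk (a := 17920) (b := 20480) (c := 17920) (d := 20480) (by norm_num) (by norm_num) (by norm_num) (by norm_num)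
    (CovZ.topM TF_LL 2854495385411919764592454378652992258460090368 (by decide +kernel) (CovZ.n2 (19200, 19200) (by decide +kernel)
    (CovZ.badM (by decide +kernel))
    (CovZ.n1 (19200, 17920) (by decide +kernel)
     (CovZ.n2 (18560, 18560) (by decide +kernel)
      (CovZ.badM (by decide +kernel))
      (CovZ.n1 (18560, 17920) (by decide +kernel)
       (CovZ.n2 (18240, 18240) (by decide +kernel)
        (CovZ.n2 (18560, 18240) (by decide +kernel)
         (CovZ.n2 (18400, 18080) (by decide +kernel)
          (CovZ.n2 (18400, 18240) (by decide +kernel)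
           (CovZ.badM (by decide +kernel))
           (CovZ.leaf K2_ok TF_l6286 _))
          (CovZ.badM (by decide +kernel)))
         (CovZ.n1 (18400, 18400) (by decide +kernel)
          (CovZ.badM (by decide +kernel))
          (CovZ.n1 (18400, 18240) (by decide +kernel)
           (CovZ.n2 (18320, 18320) (by decide +kernel)
            (CovZ.badM (by decide +kernel))
            (CovZ.leaf K2_ok TF_l6287 _))
           (CovZ.badM (by decide +kernel)))))
        (CovZ.n1 (18240, 17920) (by decide +kernel)
         (CovZ.n2 (18080, 18080) (by decide +kernel)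
          (CovZ.leaf K2_ok TF_l6288 _)
          (CovZ.leaf K2_ok TF_l6289 _))
         (CovZ.leaf K2_ok TF_l6290 _)))
       (CovZ.badM (by decide +kernel))))
     (CovZ.badM (by decide +kernel)))))
    (CovZ.topM TF_LL 2854495385411919764592455559244613525627209728 (by decide +kernel) (CovZ.n0 (19200, 19200) (by decide +kernel)
    (CovZ.n2 (17920, 19200) (by decide +kernel)
     (CovZ.subM 549755815936 (by decide +kernel)
      (CovZ.n2 (18560, 19840) (by decide +kernel)
       (CovZ.badM (by decide +kernel))
       (CovZ.n1 (17920, 19840) (by decide +kernel)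
        (CovZ.n2 (18240, 20160) (by decide +kernel)
         (CovZ.n2 (18240, 19840) (by decide +kernel)
          (CovZ.badM (by decide +kernel))
          (CovZ.badM (by decide +kernel)))
         (CovZ.badM (by decide +kernel)))
        (CovZ.n1 (18240, 19520) (by decide +kernel)
         (CovZ.n2 (17920, 19520) (by decide +kernel)
          (CovZ.n2 (18080, 19680) (by decide +kernel)
           (CovZ.badM (by decide +kernel))
           (CovZ.badM (by decide +kernel)))
          (CovZ.badM (by decide +kernel)))
         (CovZ.n1 (18240, 19840) (by decide +kernel)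
          (CovZ.badM (by decide +kernel))
          (CovZ.n1 (18080, 19680) (by decide +kernel)
           (CovZ.badM (by decide +kernel))
           (CovZ.badM (by decide +kernel))))))))
     (CovZ.n1 (18560, 18560) (by decide +kernel)
      (CovZ.n2 (17920, 18560) (by decide +kernel)
       (CovZ.subM 2475883620345622703105900544 (by decide +kernel)
        (CovZ.n2 (18240, 18880) (by decide +kernel)
         (CovZ.n2 (18240, 18560) (by decide +kernel)
          (CovZ.n2 (18080, 18720) (by decide +kernel)
           (CovZ.n2 (18240, 18720) (by decide +kernel)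
            (CovZ.n2 (18160, 18640) (by decide +kernel)
             (CovZ.n2 (18160, 18720) (by decide +kernel)
              (CovZ.n2 (18200, 18680) (by decide +kernel)
               (CovZ.n2 (18160, 18680) (by decide +kernel)
                (CovZ.n2 (18180, 18700) (by decide +kernel)
                 (CovZ.leaf K2_ok TF_l14529 _)
                 (CovZ.n1 (18160, 18700) (by decide +kernel)
                  (CovZ.badM (by decide +kernel))
                  (CovZ.leaf K2_ok TF_l14530 _)))
                (CovZ.n1 (18180, 18660) (by decide +kernel)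
                 (CovZ.leaf K2_ok TF_l14531 _)
                 (CovZ.n1 (18180, 18680) (by decide +kernel)
                  (CovZ.badM (by decide +kernel))
                  (CovZ.leaf K2_ok TF_l14532 _))))
               (CovZ.badM (by decide +kernel)))
              (CovZ.n1 (18120, 18680) (by decide +kernel)
               (CovZ.n2 (18120, 18720) (by decide +kernel)
                (CovZ.n2 (18140, 18700) (by decide +kernel)
                 (CovZ.leaf K2_ok TF_l14533 _)
                 (CovZ.n1 (18140, 18720) (by decide +kernel)
                  (CovZ.leaf K2_ok TF_l14534 _)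
                  (CovZ.leaf K2_ok TF_l14535 _)))
                (CovZ.leaf K2_ok TF_l14536 _))
               (CovZ.n1 (18160, 18680) (by decide +kernel)
                (CovZ.leaf K2_ok TF_l14537 _)
                (CovZ.n1 (18140, 18700) (by decide +kernel)
                 (CovZ.n2 (18160, 18700) (by decide +kernel)
                  (CovZ.leaf K2_ok TF_l14538 _)
                  (CovZ.leaf K2_ok TF_l14539 _))
                 (CovZ.leaf K2_ok TF_l14540 _)))))
             (CovZ.n1 (18240, 18640) (by decide +kernel)
              (CovZ.n2 (18200, 18600) (by decide +kernel)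
               (CovZ.n2 (18200, 18640) (by decide +kernel)
                (CovZ.badM (by decide +kernel))
                (CovZ.leaf K2_ok TF_l14541 _))
               (CovZ.badM (by decide +kernel)))
              (CovZ.n1 (18200, 18680) (by decide +kernel)
               (CovZ.badM (by decide +kernel))
               (CovZ.n1 (18200, 18640) (by decide +kernel)
                (CovZ.n2 (18180, 18660) (by decide +kernel)
                 (CovZ.badM (by decide +kernel))
                 (CovZ.leaf K2_ok TF_l14542 _))
                (CovZ.badM (by decide +kernel))))))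
            (CovZ.n1 (18160, 18800) (by decide +kernel)
             (CovZ.badM (by decide +kernel))
             (CovZ.n1 (18160, 18720) (by decide +kernel)
              (CovZ.n2 (18120, 18760) (by decide +kernel)
               (CovZ.badM (by decide +kernel))
               (CovZ.n1 (18120, 18720) (by decide +kernel)
                (CovZ.n2 (18100, 18740) (by decide +kernel)
                 (CovZ.n2 (18120, 18740) (by decide +kernel)
                  (CovZ.leaf K2_ok TF_l14543 _)
                  (CovZ.badM (by decide +kernel)))
                 (CovZ.leaf K2_ok TF_l14544 _))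
                (CovZ.n1 (18140, 18740) (by decide +kernel)
                 (CovZ.n2 (18140, 18720) (by decide +kernel)
                  (CovZ.leaf K2_ok TF_l14545 _)
                  (CovZ.badM (by decide +kernel)))
                 (CovZ.leaf K2_ok TF_l14546 _))))
              (CovZ.badM (by decide +kernel)))))
           (CovZ.n1 (18080, 18560) (by decide +kernel)
            (CovZ.n2 (18000, 18640) (by decide +kernel)
             (CovZ.n2 (18080, 18640) (by decide +kernel)
              (CovZ.leaf K2_ok TF_l6294 _)
              (CovZ.n1 (18040, 18680) (by decide +kernel)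
               (CovZ.leaf K2_ok TF_l6295 _)
               (CovZ.leaf K2_ok TF_l6296 _)))
             (CovZ.leaf K2_ok TF_l6297 _))
            (CovZ.n1 (18160, 18640) (by decide +kernel)
             (CovZ.n2 (18160, 18560) (by decide +kernel)
              (CovZ.n2 (18120, 18600) (by decide +kernel)
               (CovZ.leaf K2_ok TF_l6298 _)
               (CovZ.leaf K2_ok TF_l6299 _))
              (CovZ.leaf K2_ok TF_l6300 _))
             (CovZ.n1 (18080, 18640) (by decide +kernel)
              (CovZ.leaf K2_ok TF_l6301 _)
              (CovZ.n1 (18120, 18600) (by decide +kernel)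
               (CovZ.leaf K2_ok TF_l6302 _)
               (CovZ.leaf K2_ok TF_l6303 _))))))
          (CovZ.badM (by decide +kernel)))
         (CovZ.n1 (17920, 18880) (by decide +kernel)
          (CovZ.badM (by decide +kernel))
          (CovZ.n1 (18080, 18720) (by decide +kernel)
           (CovZ.n2 (17920, 18720) (by decide +kernel)
            (CovZ.n2 (18000, 18800) (by decide +kernel)
             (CovZ.n2 (18000, 18720) (by decide +kernel)
              (CovZ.leaf K2_ok TF_l6304 _)
              (CovZ.leaf K2_ok TF_l6305 _))
             (CovZ.n1 (17920, 18800) (by decide +kernel)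
              (CovZ.leaf K2_ok TF_l6306 _)
              (CovZ.leaf K2_ok TF_l6307 _)))
            (CovZ.n1 (18000, 18640) (by decide +kernel)
             (CovZ.leaf K2_ok TF_l6308 _)
             (CovZ.n1 (18000, 18720) (by decide +kernel)
              (CovZ.leaf K2_ok TF_l6309 _)
              (CovZ.leaf K2_ok TF_l6310 _))))
           (CovZ.n1 (18080, 18880) (by decide +kernel)
            (CovZ.n2 (18160, 18800) (by decide +kernel)
             (CovZ.n2 (18080, 18800) (by decide +kernel)
              (CovZ.badM (by decide +kernel))
              (CovZ.n1 (18120, 18760) (by decide +kernel)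
               (CovZ.n2 (18080, 18760) (by decide +kernel)
                (CovZ.badM (by decide +kernel))
                (CovZ.n1 (18100, 18740) (by decide +kernel)
                 (CovZ.leaf K2_ok TF_l14547 _)
                 (CovZ.badM (by decide +kernel))))
               (CovZ.badM (by decide +kernel))))
             (CovZ.badM (by decide +kernel)))
            (CovZ.n1 (18000, 18800) (by decide +kernel)
             (CovZ.n2 (18000, 18880) (by decide +kernel)
              (CovZ.n2 (18040, 18840) (by decide +kernel)
               (CovZ.n2 (18000, 18840) (by decide +kernel)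
                (CovZ.n2 (18020, 18860) (by decide +kernel)
                 (CovZ.n2 (18020, 18840) (by decide +kernel)
                  (CovZ.leaf K2_ok TF_l14548 _)
                  (CovZ.badM (by decide +kernel)))
                 (CovZ.n1 (18000, 18860) (by decide +kernel)
                  (CovZ.badM (by decide +kernel))
                  (CovZ.leaf K2_ok TF_l14549 _)))
                (CovZ.n1 (18020, 18820) (by decide +kernel)
                 (CovZ.leaf K2_ok TF_l14550 _)
                 (CovZ.n1 (18020, 18840) (by decide +kernel)
                  (CovZ.leaf K2_ok TF_l14551 _)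
                  (CovZ.leaf K2_ok TF_l14552 _))))
               (CovZ.n1 (18040, 18880) (by decide +kernel)
                (CovZ.badM (by decide +kernel))
                (CovZ.n1 (18020, 18860) (by decide +kernel)
                 (CovZ.badM (by decide +kernel))
                 (CovZ.badM (by decide +kernel)))))
              (CovZ.n1 (17960, 18840) (by decide +kernel)
               (CovZ.n2 (17960, 18880) (by decide +kernel)
                (CovZ.n2 (17980, 18860) (by decide +kernel)
                 (CovZ.leaf K2_ok TF_l14553 _)
                 (CovZ.badM (by decide +kernel)))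
                (CovZ.leaf K2_ok TF_l14554 _))
               (CovZ.n1 (18000, 18840) (by decide +kernel)
                (CovZ.leaf K2_ok TF_l14555 _)
                (CovZ.n1 (17980, 18860) (by decide +kernel)
                 (CovZ.n2 (18000, 18860) (by decide +kernel)
                  (CovZ.leaf K2_ok TF_l14556 _)
                  (CovZ.badM (by decide +kernel)))
                 (CovZ.leaf K2_ok TF_l14557 _)))))
             (CovZ.n1 (18080, 18800) (by decide +kernel)
              (CovZ.n2 (18040, 18760) (by decide +kernel)
               (CovZ.n2 (18040, 18800) (by decide +kernel)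
                (CovZ.n2 (18060, 18780) (by decide +kernel)
                 (CovZ.leaf K2_ok TF_l14558 _)
                 (CovZ.badM (by decide +kernel)))
                (CovZ.leaf K2_ok TF_l14559 _))
               (CovZ.n1 (18080, 18760) (by decide +kernel)
                (CovZ.leaf K2_ok TF_l6311 _)
                (CovZ.n1 (18060, 18780) (by decide +kernel)
                 (CovZ.badM (by decide +kernel))
                 (CovZ.leaf K2_ok TF_l14560 _))))
              (CovZ.n1 (18040, 18840) (by decide +kernel)
               (CovZ.badM (by decide +kernel))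
               (CovZ.n1 (18040, 18800) (by decide +kernel)
                (CovZ.n2 (18020, 18820) (by decide +kernel)
                 (CovZ.n2 (18040, 18820) (by decide +kernel)
                  (CovZ.leaf K2_ok TF_l14561 _)
                  (CovZ.leaf K2_ok TF_l14562 _))
                 (CovZ.leaf K2_ok TF_l14563 _))
                (CovZ.badM (by decide +kernel)))))))))))
       (CovZ.subM 2854495385411919764592454378652992258460090368 (by decide +kernel)
        (CovZ.n1 (18240, 18240) (by decide +kernel)
         (CovZ.n2 (17920, 18240) (by decide +kernel)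
          (CovZ.leaf K2_ok TF_l6312 _)
          (CovZ.n1 (18080, 18080) (by decide +kernel)
           (CovZ.leaf K2_ok TF_l6313 _)
           (CovZ.leaf K2_ok TF_l6314 _)))
         (CovZ.n1 (18240, 18560) (by decide +kernel)
          (CovZ.n2 (18400, 18400) (by decide +kernel)
           (CovZ.n2 (18240, 18400) (by decide +kernel)
            (CovZ.badM (by decide +kernel))
            (CovZ.n1 (18320, 18320) (by decide +kernel)
             (CovZ.leaf K2_ok TF_l6319 _)
             (CovZ.badM (by decide +kernel))))
           (CovZ.badM (by decide +kernel)))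
          (CovZ.n1 (18080, 18400) (by decide +kernel)
           (CovZ.n2 (18080, 18560) (by decide +kernel)
            (CovZ.n2 (18160, 18480) (by decide +kernel)
             (CovZ.leaf K2_ok TF_l6324 _)
             (CovZ.n1 (18160, 18560) (by decide +kernel)
              (CovZ.leaf K2_ok TF_l6325 _)
              (CovZ.leaf K2_ok TF_l6326 _)))
            (CovZ.leaf K2_ok TF_l6327 _))
           (CovZ.n1 (18240, 18400) (by decide +kernel)
            (CovZ.leaf K2_ok TF_l6328 _)
            (CovZ.n1 (18160, 18480) (by decide +kernel)
             (CovZ.n2 (18240, 18480) (by decide +kernel)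
              (CovZ.leaf K2_ok TF_l6329 _)
              (CovZ.leaf K2_ok TF_l6330 _))
             (CovZ.leaf K2_ok TF_l6331 _))))))))
      (CovZ.n1 (18560, 19200) (by decide +kernel)
       (CovZ.badM (by decide +kernel))
       (CovZ.n1 (18240, 18880) (by decide +kernel)
        (CovZ.badM (by decide +kernel))
        (CovZ.badM (by decide +kernel))))))
    (CovZ.subM 549755815936 (by decide +kernel)
     (CovZ.n1 (19200, 20480) (by decide +kernel)
      (CovZ.badM (by decide +kernel))
      (CovZ.n1 (18560, 19840) (by decide +kernel)
       (CovZ.n2 (18560, 20480) (by decide +kernel)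
        (CovZ.badM (by decide +kernel))
        (CovZ.n1 (18240, 20160) (by decide +kernel)
         (CovZ.badM (by decide +kernel))
         (CovZ.badM (by decide +kernel))))
       (CovZ.badM (by decide +kernel)))))))

theorem TF_s11_10 : SqZ TF_M TF_L [0, 7, 4, 3] (-7680) (-7680) 2560 11 10 :=
  SqZ.mk (a := 20480) (b := 23040) (c := 17920) (d := 20480) (by norm_num) (by norm_num) (by norm_num) (by norm_num)
    (CovZ.topM TF_LL 0 (by decide +kernel) (CovZ.badM (by decide +kernel)))
    (CovZ.topM TF_LL 0 (by decide +kernel) (CovZ.badM (by decide +kernel)))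

theorem TF_s12_10 : SqZ TF_M TF_L [0, 7, 4, 3] (-7680) (-7680) 2560 12 10 :=
  SqZ.mk (a := 23040) (b := 25600) (c := 17920) (d := 20480) (by norm_num) (by norm_num) (by norm_num) (by norm_num)
    (CovZ.topM TF_LL 0 (by decide +kernel) (CovZ.badM (by decide +kernel)))
    (CovZ.topM TF_LL 0 (by decide +kernel) (CovZ.badM (by decide +kernel)))

theorem TF_s13_10 : SqZ TF_M TF_L [0, 7, 4, 3] (-7680) (-7680) 2560 13 10 :=
  SqZ.mk (a := 25600) (b := 28160) (c := 17920) (d := 20480) (by norm_num) (by norm_num) (by norm_num) (by norm_num)
    (CovZ.topM TF_LL 0 (by decide +kernel) (CovZ.badM (by decide +kernel)))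
    (CovZ.topM TF_LL 0 (by decide +kernel) (CovZ.badM (by decide +kernel)))

theorem TF_s14_10 : SqZ TF_M TF_L [0, 7, 4, 3] (-7680) (-7680) 2560 14 10 :=
  SqZ.mk (a := 28160) (b := 30720) (c := 17920) (d := 20480) (by norm_num) (by norm_num) (by norm_num) (by norm_num)
    (CovZ.topM TF_LL 0 (by decide +kernel) (CovZ.badM (by decide +kernel)))
    (CovZ.topM TF_LL 0 (by decide +kernel) (CovZ.badM (by decide +kernel)))

theorem TF_s15_10 : SqZ TF_M TF_L [0, 7, 4, 3] (-7680) (-7680) 2560 15 10 :=
  SqZ.mk (a := 30720) (b := 33280) (c := 17920) (d := 20480) (by norm_num) (by norm_num) (by norm_num) (by norm_num)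
    (CovZ.topM TF_LL 0 (by decide +kernel) (CovZ.badM (by decide +kernel)))
    (CovZ.topM TF_LL 0 (by decide +kernel) (CovZ.badM (by decide +kernel)))

theorem TF_s0_11 : SqZ TF_M TF_L [0, 7, 4, 3] (-7680) (-7680) 2560 0 11 :=
  SqZ.mk (a := (-7680)) (b := (-5120)) (c := 20480) (d := 23040) (by norm_num) (by norm_num) (by norm_num) (by norm_num)
    (CovZ.topM TF_LL 696898288103119080489844947105632311312384 (by decide +kernel) (CovZ.n2 (-6400, 21760) (by decide +kernel)
    TF_u122
    TF_u123))
    (CovZ.topM TF_LL 696898288103119080489844937816958079860736 (by decide +kernel) (CovZ.n0 (-6400, 21760) (by decide +kernel)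
    (CovZ.badM (by decide +kernel))
    (CovZ.n1 (-6400, 23040) (by decide +kernel)
     (CovZ.n2 (-5760, 22400) (by decide +kernel)
      (CovZ.badM (by decide +kernel))
      (CovZ.n1 (-5760, 23040) (by decide +kernel)
       (CovZ.n2 (-5440, 22720) (by decide +kernel)
        (CovZ.n2 (-5760, 22720) (by decide +kernel)
         (CovZ.n2 (-5600, 22880) (by decide +kernel)
          (CovZ.n2 (-5600, 22720) (by decide +kernel)
           (CovZ.badM (by decide +kernel))
           (CovZ.leaf K2_ok TF_l9345 _))
          (CovZ.badM (by decide +kernel)))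
         (CovZ.n1 (-5600, 22560) (by decide +kernel)
          (CovZ.n2 (-5760, 22560) (by decide +kernel)
           (CovZ.n2 (-5680, 22640) (by decide +kernel)
            (CovZ.n2 (-5680, 22560) (by decide +kernel)
             (CovZ.badM (by decide +kernel))
             (CovZ.leaf K2_ok TF_l9346 _))
            (CovZ.badM (by decide +kernel)))
           (CovZ.n1 (-5680, 22480) (by decide +kernel)
            (CovZ.n2 (-5760, 22480) (by decide +kernel)
             (CovZ.leaf K2_ok TF_l9347 _)
             (CovZ.n1 (-5720, 22440) (by decide +kernel)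
              (CovZ.badM (by decide +kernel))
              (CovZ.leaf K2_ok TF_l9348 _)))
            (CovZ.n1 (-5680, 22560) (by decide +kernel)
             (CovZ.leaf K2_ok TF_l9349 _)
             (CovZ.n1 (-5720, 22520) (by decide +kernel)
              (CovZ.badM (by decide +kernel))
              (CovZ.leaf K2_ok TF_l9350 _)))))
          (CovZ.n1 (-5600, 22720) (by decide +kernel)
           (CovZ.n2 (-5520, 22640) (by decide +kernel)
            (CovZ.leaf K2_ok TF_l9351 _)
            (CovZ.leaf K2_ok TF_l9352 _))
           (CovZ.n1 (-5680, 22640) (by decide +kernel)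
            (CovZ.badM (by decide +kernel))
            (CovZ.n1 (-5600, 22640) (by decide +kernel)
             (CovZ.leaf K2_ok TF_l9353 _)
             (CovZ.badM (by decide +kernel)))))))
        (CovZ.n1 (-5440, 23040) (by decide +kernel)
         (CovZ.n2 (-5280, 22880) (by decide +kernel)
          (CovZ.n2 (-5440, 22880) (by decide +kernel)
           (CovZ.leaf K2_ok TF_l9354 _)
           (CovZ.leaf K2_ok TF_l9355 _))
          (CovZ.n1 (-5280, 23040) (by decide +kernel)
           (CovZ.leaf K2_ok TF_l9356 _)
           (CovZ.leaf K2_ok TF_l9357 _)))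
         (CovZ.n1 (-5600, 22880) (by decide +kernel)
          (CovZ.badM (by decide +kernel))
          (CovZ.n1 (-5440, 22880) (by decide +kernel)
           (CovZ.n2 (-5520, 22800) (by decide +kernel)
            (CovZ.badM (by decide +kernel))
            (CovZ.leaf K2_ok TF_l9358 _))
           (CovZ.badM (by decide +kernel))))))
       (CovZ.badM (by decide +kernel))))
     (CovZ.badM (by decide +kernel)))))

theorem TF_s1_11 : SqZ TF_M TF_L [0, 7, 4, 3] (-7680) (-7680) 2560 1 11 :=
  SqZ.mk (a := (-5120)) (b := (-2560)) (c := 20480) (d := 23040) (by norm_num) (by norm_num) (by norm_num) (by norm_num)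
    (CovZ.topM TF_LL 707787664264574181974108061075271864877056 (by decide +kernel) (CovZ.n2 (-3840, 21760) (by decide +kernel)
    (CovZ.n2 (-2560, 21760) (by decide +kernel)
     (CovZ.n2 (-3200, 21120) (by decide +kernel)
      (CovZ.n2 (-3200, 21760) (by decide +kernel)
       (CovZ.leaf K2_ok TF_l794 _)
       (CovZ.leaf K2_ok TF_l795 _))
      (CovZ.n1 (-2560, 21120) (by decide +kernel)
       (CovZ.leaf K2_ok TF_l796 _)
       (CovZ.leaf K2_ok TF_l797 _)))
     (CovZ.n1 (-3200, 22400) (by decide +kernel)
      (CovZ.n2 (-2560, 22400) (by decide +kernel)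
       (CovZ.n2 (-2880, 22080) (by decide +kernel)
        (CovZ.leaf K2_ok TF_l798 _)
        (CovZ.leaf K2_ok TF_l799 _))
       (CovZ.n1 (-2880, 22720) (by decide +kernel)
        (CovZ.n2 (-2560, 22720) (by decide +kernel)
         (CovZ.leaf K2_ok TF_l800 _)
         (CovZ.leaf K2_ok TF_l801 _))
        (CovZ.leaf K2_ok TF_l802 _)))
      (CovZ.n1 (-3200, 21760) (by decide +kernel)
       (CovZ.n2 (-3520, 22080) (by decide +kernel)
        (CovZ.leaf K2_ok TF_l803 _)
        (CovZ.leaf K2_ok TF_l804 _))
       (CovZ.leaf K2_ok TF_l805 _))))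
    (CovZ.n1 (-3840, 20480) (by decide +kernel)
     (CovZ.n2 (-4480, 21120) (by decide +kernel)
      (CovZ.n2 (-3840, 21120) (by decide +kernel)
       (CovZ.leaf K2_ok TF_l806 _)
       (CovZ.n1 (-4160, 21440) (by decide +kernel)
        (CovZ.leaf K2_ok TF_l807 _)
        (CovZ.leaf K2_ok TF_l808 _)))
      (CovZ.n1 (-4480, 20480) (by decide +kernel)
       (CovZ.n2 (-4800, 20800) (by decide +kernel)
        (CovZ.leaf K2_ok TF_l809 _)
        (CovZ.leaf K2_ok TF_l810 _))
       (CovZ.leaf K2_ok TF_l811 _)))
     (CovZ.leaf K2_ok TF_l812 _))))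
    (CovZ.topM TF_LL 707787326440757347628715314893116919578624 (by decide +kernel) (CovZ.n0 (-3840, 21760) (by decide +kernel)
    (CovZ.subM 707787323844589111320672934543448894078976 (by decide +kernel)
     (CovZ.n2 (-5120, 21760) (by decide +kernel)
      (CovZ.n2 (-4480, 22400) (by decide +kernel)
       (CovZ.n2 (-4480, 21760) (by decide +kernel)
        (CovZ.n2 (-4800, 22080) (by decide +kernel)
         (CovZ.n2 (-4480, 22080) (by decide +kernel)
          (CovZ.leaf K2_ok TF_l813 _)
          (CovZ.leaf K2_ok TF_l814 _))
         (CovZ.leaf K2_ok TF_l815 _))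
        (CovZ.leaf K2_ok TF_l816 _))
       (CovZ.subM 649037107316853750803896037539840 (by decide +kernel)
        (CovZ.n1 (-5120, 22400) (by decide +kernel)
         (CovZ.n2 (-4800, 22720) (by decide +kernel)
          (CovZ.n2 (-4800, 22400) (by decide +kernel)
           (CovZ.n2 (-4960, 22560) (by decide +kernel)
            (CovZ.leaf K2_ok TF_l817 _)
            (CovZ.leaf K2_ok TF_l818 _))
           (CovZ.leaf K2_ok TF_l819 _))
          (CovZ.n1 (-5120, 22720) (by decide +kernel)
           (CovZ.leaf K2_ok TF_l820 _)
           (CovZ.n1 (-4960, 22560) (by decide +kernel)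
            (CovZ.leaf K2_ok TF_l9486 _)
            (CovZ.leaf K2_ok TF_l821 _))))
         (CovZ.n1 (-4800, 22080) (by decide +kernel)
          (CovZ.n2 (-5120, 22080) (by decide +kernel)
           (CovZ.leaf K2_ok TF_l822 _)
           (CovZ.leaf K2_ok TF_l823 _))
          (CovZ.n1 (-4800, 22400) (by decide +kernel)
           (CovZ.leaf K2_ok TF_l824 _)
           (CovZ.leaf K2_ok TF_l825 _))))))
      (CovZ.n1 (-4480, 21120) (by decide +kernel)
       (CovZ.n2 (-5120, 21120) (by decide +kernel)
        (CovZ.leaf K2_ok TF_l826 _)
        (CovZ.n1 (-4800, 20800) (by decide +kernel)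
         (CovZ.leaf K2_ok TF_l827 _)
         (CovZ.leaf K2_ok TF_l828 _)))
       (CovZ.n1 (-4480, 21760) (by decide +kernel)
        (CovZ.n2 (-4160, 21440) (by decide +kernel)
         (CovZ.leaf K2_ok TF_l829 _)
         (CovZ.leaf K2_ok TF_l830 _))
        (CovZ.n1 (-4800, 21440) (by decide +kernel)
         (CovZ.n2 (-4800, 21760) (by decide +kernel)
          (CovZ.leaf K2_ok TF_l831 _)
          (CovZ.leaf K2_ok TF_l832 _))
         (CovZ.leaf K2_ok TF_l833 _))))))
    (CovZ.n1 (-3840, 23040) (by decide +kernel)
     (CovZ.n2 (-3200, 22400) (by decide +kernel)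
      (CovZ.n2 (-3840, 22400) (by decide +kernel)
       (CovZ.leaf K2_ok TF_l834 _)
       (CovZ.n1 (-3520, 22080) (by decide +kernel)
        (CovZ.leaf K2_ok TF_l835 _)
        (CovZ.leaf K2_ok TF_l836 _)))
      (CovZ.n1 (-3200, 23040) (by decide +kernel)
       (CovZ.n2 (-2880, 22720) (by decide +kernel)
        (CovZ.leaf K2_ok TF_l837 _)
        (CovZ.n1 (-2880, 23040) (by decide +kernel)
         (CovZ.leaf K2_ok TF_l838 _)
         (CovZ.leaf K2_ok TF_l839 _)))
       (CovZ.subM 10889036390507138147681729515992637243392 (by decide +kernel)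
        (CovZ.n1 (-3520, 22720) (by decide +kernel)
         (CovZ.n2 (-3520, 23040) (by decide +kernel)
          (CovZ.n2 (-3360, 22880) (by decide +kernel)
           (CovZ.leaf K2_ok TF_l840 _)
           (CovZ.leaf K2_ok TF_l841 _))
          (CovZ.leaf K2_ok TF_l842 _))
         (CovZ.n1 (-3200, 22720) (by decide +kernel)
          (CovZ.leaf K2_ok TF_l843 _)
          (CovZ.n1 (-3360, 22880) (by decide +kernel)
           (CovZ.leaf K2_ok TF_l844 _)
           (CovZ.leaf K2_ok TF_l845 _)))))))
     (CovZ.subM 10889036390507138147681738523187597017088 (by decide +kernel)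
      (CovZ.n1 (-4480, 22400) (by decide +kernel)
       (CovZ.n2 (-4480, 23040) (by decide +kernel)
        (CovZ.n2 (-4160, 22720) (by decide +kernel)
         (CovZ.leaf K2_ok TF_l846 _)
         (CovZ.n1 (-4160, 23040) (by decide +kernel)
          (CovZ.n2 (-4000, 22880) (by decide +kernel)
           (CovZ.leaf K2_ok TF_l847 _)
           (CovZ.leaf K2_ok TF_l848 _))
          (CovZ.leaf K2_ok TF_l849 _)))
        (CovZ.n1 (-4800, 22720) (by decide +kernel)
         (CovZ.n2 (-4800, 23040) (by decide +kernel)
          (CovZ.leaf K2_ok TF_l850 _)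
          (CovZ.leaf K2_ok TF_l851 _))
         (CovZ.n1 (-4480, 22720) (by decide +kernel)
          (CovZ.leaf K2_ok TF_l852 _)
          (CovZ.leaf K2_ok TF_l853 _))))
       (CovZ.n1 (-3840, 22400) (by decide +kernel)
        (CovZ.n2 (-4160, 22080) (by decide +kernel)
         (CovZ.leaf K2_ok TF_l854 _)
         (CovZ.leaf K2_ok TF_l855 _))
        (CovZ.n1 (-4160, 22720) (by decide +kernel)
         (CovZ.n2 (-3840, 22720) (by decide +kernel)
          (CovZ.leaf K2_ok TF_l856 _)
          (CovZ.n1 (-4000, 22880) (by decide +kernel)
           (CovZ.leaf K2_ok TF_l857 _)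
           (CovZ.leaf K2_ok TF_l858 _)))
         (CovZ.leaf K2_ok TF_l859 _))))))))

theorem TF_s2_11 : SqZ TF_M TF_L [0, 7, 4, 3] (-7680) (-7680) 2560 2 11 :=
  SqZ.mk (a := (-2560)) (b := 0) (c := 20480) (d := 23040) (by norm_num) (by norm_num) (by norm_num) (by norm_num)
    (CovZ.topM TF_LL 729565814930754394590226320589746772968466 (by decide +kernel) (CovZ.n2 (-1280, 21760) (by decide +kernel)
    (CovZ.n2 (0, 21760) (by decide +kernel)
     (CovZ.leaf K2_ok TF_l1684 _)
     (CovZ.n1 (-640, 22400) (by decide +kernel)
      (CovZ.leaf K2_ok TF_l1685 _)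
      (CovZ.leaf K2_ok TF_l1686 _)))
    (CovZ.n1 (-1280, 20480) (by decide +kernel)
     (CovZ.n2 (-1920, 21120) (by decide +kernel)
      (CovZ.leaf K2_ok TF_l1687 _)
      (CovZ.leaf K2_ok TF_l1688 _))
     (CovZ.leaf K2_ok TF_l1689 _))))
    (CovZ.topM TF_LL 707787743447814332928570345784499531482130 (by decide +kernel) (CovZ.n0 (-1280, 21760) (by decide +kernel)
    (CovZ.n2 (-2560, 21760) (by decide +kernel)
     (CovZ.n2 (-1920, 22400) (by decide +kernel)
      (CovZ.n2 (-1920, 21760) (by decide +kernel)
       (CovZ.n2 (-2240, 22080) (by decide +kernel)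
        (CovZ.leaf K2_ok TF_l1690 _)
        (CovZ.leaf K2_ok TF_l1691 _))
       (CovZ.leaf K2_ok TF_l1692 _))
      (CovZ.n1 (-2560, 22400) (by decide +kernel)
       (CovZ.leaf K2_ok TF_l1693 _)
       (CovZ.n1 (-2240, 22080) (by decide +kernel)
        (CovZ.leaf K2_ok TF_l1694 _)
        (CovZ.leaf K2_ok TF_l1695 _))))
     (CovZ.n1 (-1920, 21120) (by decide +kernel)
      (CovZ.leaf K2_ok TF_l1696 _)
      (CovZ.n1 (-1920, 21760) (by decide +kernel)
       (CovZ.leaf K2_ok TF_l1697 _)
       (CovZ.leaf K2_ok TF_l1698 _))))
    (CovZ.n1 (-1280, 23040) (by decide +kernel)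
     (CovZ.n2 (-640, 22400) (by decide +kernel)
      (CovZ.leaf K2_ok TF_l1699 _)
      (CovZ.leaf K2_ok TF_l1700 _))
     (CovZ.n1 (-1920, 22400) (by decide +kernel)
      (CovZ.n2 (-1920, 23040) (by decide +kernel)
       (CovZ.leaf K2_ok TF_l1701 _)
       (CovZ.n1 (-2240, 22720) (by decide +kernel)
        (CovZ.leaf K2_ok TF_l1702 _)
        (CovZ.leaf K2_ok TF_l1703 _)))
      (CovZ.n1 (-1280, 22400) (by decide +kernel)
       (CovZ.leaf K2_ok TF_l1704 _)
       (CovZ.leaf K2_ok TF_l1705 _))))))

theorem TF_s3_11 : SqZ TF_M TF_L [0, 7, 4, 3] (-7680) (-7680) 2560 3 11 :=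
  SqZ.mk (a := 0) (b := 2560) (c := 20480) (d := 23040) (by norm_num) (by norm_num) (by norm_num) (by norm_num)
    (CovZ.topM TF_LL 947346571298767641344202344813335749395474 (by decide +kernel) (CovZ.n2 (1280, 21760) (by decide +kernel)
    (CovZ.n2 (2560, 21760) (by decide +kernel)
     (CovZ.leaf K2_ok TF_l3444 _)
     (CovZ.leaf K2_ok TF_l3445 _))
    (CovZ.leaf K2_ok TF_l3446 _)))
    (CovZ.topM TF_LL 773121999435247148050954546934032893019154 (by decide +kernel) (CovZ.n0 (1280, 21760) (by decide +kernel)
    (CovZ.leaf K2_ok TF_l3447 _)
    (CovZ.n1 (1280, 23040) (by decide +kernel)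
     (CovZ.leaf K2_ok TF_l3448 _)
     (CovZ.leaf K2_ok TF_l3449 _))))

theorem TF_s4_11 : SqZ TF_M TF_L [0, 7, 4, 3] (-7680) (-7680) 2560 4 11 :=
  SqZ.mk (a := 2560) (b := 5120) (c := 20480) (d := 23040) (by norm_num) (by norm_num) (by norm_num) (by norm_num)
    (CovZ.topM TF_LL 2855431842944901174205029638505285908660552722 (by decide +kernel) (CovZ.n2 (3840, 21760) (by decide +kernel)
    (CovZ.n2 (5120, 21760) (by decide +kernel)
     (CovZ.leaf K2_ok TF_l4340 _)
     (CovZ.n1 (4480, 22400) (by decide +kernel)
      (CovZ.leaf K2_ok TF_l4341 _)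
      (CovZ.leaf K2_ok TF_l4342 _)))
    (CovZ.leaf K2_ok TF_l4343 _)))
    (CovZ.topM TF_LL 2855431842944901174205029638505285908660552722 (by decide +kernel) (CovZ.n0 (3840, 21760) (by decide +kernel)
    (CovZ.n2 (2560, 21760) (by decide +kernel)
     (CovZ.leaf K2_ok TF_l4344 _)
     (CovZ.leaf K2_ok TF_l4345 _))
    (CovZ.n1 (3840, 23040) (by decide +kernel)
     (CovZ.n2 (4480, 22400) (by decide +kernel)
      (CovZ.leaf K2_ok TF_l4346 _)
      (CovZ.n1 (4480, 23040) (by decide +kernel)
       (CovZ.leaf K2_ok TF_l4347 _)
       (CovZ.leaf K2_ok TF_l4348 _)))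
     (CovZ.n1 (3200, 22400) (by decide +kernel)
      (CovZ.leaf K2_ok TF_l4349 _)
      (CovZ.leaf K2_ok TF_l4350 _)))))

theorem TF_s5_11 : SqZ TF_M TF_L [0, 7, 4, 3] (-7680) (-7680) 2560 5 11 :=
  SqZ.mk (a := 5120) (b := 7680) (c := 20480) (d := 23040) (by norm_num) (by norm_num) (by norm_num) (by norm_num)
    (CovZ.topM TF_LL 2856825639062572525213193036319120948678623314 (by decide +kernel) (CovZ.n2 (6400, 21760) (by decide +kernel)
    (CovZ.leaf K2_ok TF_l4658 _)
    (CovZ.leaf K2_ok TF_l4659 _)))
    (CovZ.topM TF_LL 2856825639062572837174082936234950223257927762 (by decide +kernel) (CovZ.n0 (6400, 21760) (by decide +kernel)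
    (CovZ.n2 (5120, 21760) (by decide +kernel)
     (CovZ.leaf K2_ok TF_l4660 _)
     (CovZ.leaf K2_ok TF_l4661 _))
    (CovZ.n1 (6400, 23040) (by decide +kernel)
     (CovZ.leaf K2_ok TF_l4662 _)
     (CovZ.leaf K2_ok TF_l4663 _))))

theorem TF_s6_11 : SqZ TF_M TF_L [0, 7, 4, 3] (-7680) (-7680) 2560 6 11 :=
  SqZ.mk (a := 7680) (b := 10240) (c := 20480) (d := 23040) (by norm_num) (by norm_num) (by norm_num) (by norm_num)
    (CovZ.topM TF_LL 2855366508271247513525007796678060448242729026 (by decide +kernel) (CovZ.n2 (8960, 21760) (by decide +kernel)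
    (CovZ.n2 (10240, 21760) (by decide +kernel)
     (CovZ.leaf K2_ok TF_l4836 _)
     (CovZ.n1 (9600, 22400) (by decide +kernel)
      (CovZ.n2 (10240, 22400) (by decide +kernel)
       (CovZ.leaf K2_ok TF_l4837 _)
       (CovZ.n1 (9920, 22720) (by decide +kernel)
        (CovZ.leaf K2_ok TF_l4838 _)
        (CovZ.leaf K2_ok TF_l4839 _)))
      (CovZ.leaf K2_ok TF_l4840 _)))
    (CovZ.leaf K2_ok TF_l4841 _)))
    (CovZ.topM TF_LL 2855366508271247513525007759784572300823625794 (by decide +kernel) (CovZ.n0 (8960, 21760) (by decide +kernel)
    (CovZ.leaf K2_ok TF_l4842 _)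
    (CovZ.n1 (8960, 23040) (by decide +kernel)
     (CovZ.n2 (9600, 22400) (by decide +kernel)
      (CovZ.leaf K2_ok TF_l4843 _)
      (CovZ.n1 (9600, 23040) (by decide +kernel)
       (CovZ.n2 (9920, 22720) (by decide +kernel)
        (CovZ.leaf K2_ok TF_l4844 _)
        (CovZ.n1 (9920, 23040) (by decide +kernel)
         (CovZ.leaf K2_ok TF_l4845 _)
         (CovZ.leaf K2_ok TF_l4846 _)))
       (CovZ.leaf K2_ok TF_l4847 _)))
     (CovZ.leaf K2_ok TF_l4848 _))))

theorem TF_s7_11 : SqZ TF_M TF_L [0, 7, 4, 3] (-7680) (-7680) 2560 7 11 :=
  SqZ.mk (a := 10240) (b := 12800) (c := 20480) (d := 23040) (by norm_num) (by norm_num) (by norm_num) (by norm_num)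
    (CovZ.topM TF_LL 2855366510929703505094834820119191690570367040 (by decide +kernel) (CovZ.n2 (11520, 21760) (by decide +kernel)
    (CovZ.subM 2855366508271237367368403312402981402184777792 (by decide +kernel)
     (CovZ.n2 (12800, 21760) (by decide +kernel)
      (CovZ.n2 (12160, 21120) (by decide +kernel)
       (CovZ.n2 (12160, 21760) (by decide +kernel)
        (CovZ.leaf K2_ok TF_l5088 _)
        (CovZ.leaf K2_ok TF_l5089 _))
       (CovZ.n1 (12800, 21120) (by decide +kernel)
        (CovZ.leaf K2_ok TF_l5090 _)
        (CovZ.leaf K2_ok TF_l5091 _)))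
      (CovZ.n1 (12160, 22400) (by decide +kernel)
       (CovZ.n2 (12800, 22400) (by decide +kernel)
        (CovZ.n2 (12480, 22080) (by decide +kernel)
         (CovZ.leaf K2_ok TF_l5092 _)
         (CovZ.leaf K2_ok TF_l5093 _))
        (CovZ.n1 (12480, 22720) (by decide +kernel)
         (CovZ.n2 (12800, 22720) (by decide +kernel)
          (CovZ.leaf K2_ok TF_l5094 _)
          (CovZ.leaf K2_ok TF_l5095 _))
         (CovZ.leaf K2_ok TF_l5096 _)))
       (CovZ.n1 (12160, 21760) (by decide +kernel)
        (CovZ.n2 (11840, 22080) (by decide +kernel)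
         (CovZ.leaf K2_ok TF_l5097 _)
         (CovZ.leaf K2_ok TF_l5098 _))
        (CovZ.leaf K2_ok TF_l5099 _)))))
    (CovZ.n1 (11520, 20480) (by decide +kernel)
     (CovZ.n2 (10880, 21120) (by decide +kernel)
      (CovZ.n2 (11520, 21120) (by decide +kernel)
       (CovZ.leaf K2_ok TF_l5100 _)
       (CovZ.leaf K2_ok TF_l5101 _))
      (CovZ.leaf K2_ok TF_l5102 _))
     (CovZ.leaf K2_ok TF_l5103 _))))
    (CovZ.topM TF_LL 2855366510929703505094834820119191690570367040 (by decide +kernel) (CovZ.n0 (11520, 21760) (by decide +kernel)
    (CovZ.n2 (10240, 21760) (by decide +kernel)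
     (CovZ.n2 (10880, 22400) (by decide +kernel)
      (CovZ.n2 (10880, 21760) (by decide +kernel)
       (CovZ.n2 (10560, 22080) (by decide +kernel)
        (CovZ.leaf K2_ok TF_l5104 _)
        (CovZ.leaf K2_ok TF_l5105 _))
       (CovZ.leaf K2_ok TF_l5106 _))
      (CovZ.n1 (10240, 22400) (by decide +kernel)
       (CovZ.leaf K2_ok TF_l5107 _)
       (CovZ.n1 (10560, 22080) (by decide +kernel)
        (CovZ.leaf K2_ok TF_l5108 _)
        (CovZ.leaf K2_ok TF_l5109 _))))
     (CovZ.n1 (10880, 21120) (by decide +kernel)
      (CovZ.leaf K2_ok TF_l5110 _)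
      (CovZ.n1 (10880, 21760) (by decide +kernel)
       (CovZ.leaf K2_ok TF_l5111 _)
       (CovZ.leaf K2_ok TF_l5112 _))))
    (CovZ.subM 2854495385411919769853697230549477175159947328 (by decide +kernel)
     (CovZ.n1 (11520, 23040) (by decide +kernel)
      (CovZ.n2 (12160, 22400) (by decide +kernel)
       (CovZ.n2 (11520, 22400) (by decide +kernel)
        (CovZ.leaf K2_ok TF_l5113 _)
        (CovZ.n1 (11840, 22080) (by decide +kernel)
         (CovZ.leaf K2_ok TF_l5114 _)
         (CovZ.leaf K2_ok TF_l5115 _)))
       (CovZ.n1 (12160, 23040) (by decide +kernel)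
        (CovZ.n2 (12480, 22720) (by decide +kernel)
         (CovZ.leaf K2_ok TF_l5116 _)
         (CovZ.n1 (12480, 23040) (by decide +kernel)
          (CovZ.leaf K2_ok TF_l5117 _)
          (CovZ.leaf K2_ok TF_l5118 _)))
        (CovZ.n1 (11840, 22720) (by decide +kernel)
         (CovZ.n2 (11840, 23040) (by decide +kernel)
          (CovZ.leaf K2_ok TF_l5119 _)
          (CovZ.leaf K2_ok TF_l5120 _))
         (CovZ.n1 (12160, 22720) (by decide +kernel)
          (CovZ.leaf K2_ok TF_l5121 _)
          (CovZ.leaf K2_ok TF_l5122 _)))))
      (CovZ.n1 (10880, 22400) (by decide +kernel)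
       (CovZ.n2 (10880, 23040) (by decide +kernel)
        (CovZ.n2 (11200, 22720) (by decide +kernel)
         (CovZ.leaf K2_ok TF_l5123 _)
         (CovZ.n1 (11200, 23040) (by decide +kernel)
          (CovZ.n2 (11360, 22880) (by decide +kernel)
           (CovZ.leaf K2_ok TF_l5124 _)
           (CovZ.leaf K2_ok TF_l5125 _))
          (CovZ.n1 (11040, 22880) (by decide +kernel)
           (CovZ.leaf K2_ok TF_l5126 _)
           (CovZ.leaf K2_ok TF_l5127 _))))
        (CovZ.n1 (10560, 22720) (by decide +kernel)
         (CovZ.n2 (10560, 23040) (by decide +kernel)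
          (CovZ.n2 (10720, 22880) (by decide +kernel)
           (CovZ.leaf K2_ok TF_l5128 _)
           (CovZ.leaf K2_ok TF_l5129 _))
          (CovZ.leaf K2_ok TF_l5130 _))
         (CovZ.n1 (10880, 22720) (by decide +kernel)
          (CovZ.leaf K2_ok TF_l5131 _)
          (CovZ.n1 (10720, 22880) (by decide +kernel)
           (CovZ.leaf K2_ok TF_l5132 _)
           (CovZ.leaf K2_ok TF_l5133 _)))))
       (CovZ.n1 (11520, 22400) (by decide +kernel)
        (CovZ.n2 (11200, 22080) (by decide +kernel)
         (CovZ.n2 (11200, 22400) (by decide +kernel)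
          (CovZ.leaf K2_ok TF_l5134 _)
          (CovZ.leaf K2_ok TF_l5135 _))
         (CovZ.leaf K2_ok TF_l5136 _))
        (CovZ.n1 (11200, 22720) (by decide +kernel)
         (CovZ.n2 (11520, 22720) (by decide +kernel)
          (CovZ.leaf K2_ok TF_l5137 _)
          (CovZ.n1 (11360, 22880) (by decide +kernel)
           (CovZ.leaf K2_ok TF_l5138 _)
           (CovZ.leaf K2_ok TF_l5139 _)))
         (CovZ.leaf K2_ok TF_l5140 _))))))))

theorem TF_s8_11 : SqZ TF_M TF_L [0, 7, 4, 3] (-7680) (-7680) 2560 8 11 :=
  SqZ.mk (a := 12800) (b := 15360) (c := 20480) (d := 23040) (by norm_num) (by norm_num) (by norm_num) (by norm_num)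
    (CovZ.topM TF_LL 2855366508271237367058918302581636333459996768 (by decide +kernel) (CovZ.n2 (14080, 21760) (by decide +kernel)
    (CovZ.subM 2855366508271237364583038187117387636241596480 (by decide +kernel)
     (CovZ.n2 (15360, 21760) (by decide +kernel)
      (CovZ.n2 (14720, 21120) (by decide +kernel)
       (CovZ.n2 (14720, 21760) (by decide +kernel)
        (CovZ.n2 (15040, 21440) (by decide +kernel)
         (CovZ.n2 (14720, 21440) (by decide +kernel)
          (CovZ.leaf K2_ok TF_l13706 _)
          (CovZ.leaf K2_ok TF_l5368 _))
         (CovZ.n1 (15040, 21760) (by decide +kernel)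
          (CovZ.n2 (15200, 21600) (by decide +kernel)
           (CovZ.leaf K2_ok TF_l13707 _)
           (CovZ.badM (by decide +kernel)))
          (CovZ.n1 (14880, 21600) (by decide +kernel)
           (CovZ.n2 (14880, 21760) (by decide +kernel)
            (CovZ.badM (by decide +kernel))
            (CovZ.n1 (14800, 21680) (by decide +kernel)
             (CovZ.leaf K2_ok TF_l13708 _)
             (CovZ.badM (by decide +kernel))))
           (CovZ.n1 (15040, 21600) (by decide +kernel)
            (CovZ.leaf K2_ok TF_l13709 _)
            (CovZ.badM (by decide +kernel))))))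
        (CovZ.n1 (14400, 21440) (by decide +kernel)
         (CovZ.n2 (14400, 21760) (by decide +kernel)
          (CovZ.n2 (14560, 21600) (by decide +kernel)
           (CovZ.leaf K2_ok TF_l13710 _)
           (CovZ.n1 (14560, 21760) (by decide +kernel)
            (CovZ.leaf K2_ok TF_l13711 _)
            (CovZ.leaf K2_ok TF_l13712 _)))
          (CovZ.n1 (14240, 21600) (by decide +kernel)
           (CovZ.leaf K2_ok TF_l5369 _)
           (CovZ.leaf K2_ok TF_l13713 _)))
         (CovZ.n1 (14720, 21440) (by decide +kernel)
          (CovZ.leaf K2_ok TF_l5370 _)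
          (CovZ.n1 (14560, 21600) (by decide +kernel)
           (CovZ.n2 (14720, 21600) (by decide +kernel)
            (CovZ.leaf K2_ok TF_l13714 _)
            (CovZ.leaf K2_ok TF_l13715 _))
           (CovZ.leaf K2_ok TF_l13716 _)))))
       (CovZ.n1 (15360, 21120) (by decide +kernel)
        (CovZ.n2 (15040, 20800) (by decide +kernel)
         (CovZ.n2 (15040, 21120) (by decide +kernel)
          (CovZ.leaf K2_ok TF_l5371 _)
          (CovZ.leaf K2_ok TF_l5372 _))
         (CovZ.n1 (15360, 20800) (by decide +kernel)
          (CovZ.leaf K2_ok TF_l5373 _)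
          (CovZ.leaf K2_ok TF_l5374 _)))
        (CovZ.n1 (15040, 21440) (by decide +kernel)
         (CovZ.n2 (15360, 21440) (by decide +kernel)
          (CovZ.n2 (15200, 21280) (by decide +kernel)
           (CovZ.n2 (15200, 21440) (by decide +kernel)
            (CovZ.badM (by decide +kernel))
            (CovZ.leaf K2_ok TF_l5376 _))
           (CovZ.badM (by decide +kernel)))
          (CovZ.n1 (15200, 21600) (by decide +kernel)
           (CovZ.n2 (15360, 21600) (by decide +kernel)
            (CovZ.n2 (15280, 21520) (by decide +kernel)
             (CovZ.leaf K2_ok TF_l13717 _)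
             (CovZ.leaf K2_ok TF_l5378 _))
            (CovZ.badM (by decide +kernel)))
           (CovZ.leaf K2_ok TF_l5379 _)))
         (CovZ.leaf K2_ok TF_l5380 _))))
      (CovZ.n1 (14720, 22400) (by decide +kernel)
       (CovZ.n2 (15360, 22400) (by decide +kernel)
        (CovZ.n2 (15040, 22080) (by decide +kernel)
         (CovZ.badM (by decide +kernel))
         (CovZ.badM (by decide +kernel)))
        (CovZ.badM (by decide +kernel)))
       (CovZ.n1 (14720, 21760) (by decide +kernel)
        (CovZ.n2 (14400, 22080) (by decide +kernel)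
         (CovZ.n2 (14720, 22080) (by decide +kernel)
          (CovZ.n2 (14560, 21920) (by decide +kernel)
           (CovZ.n2 (14560, 22080) (by decide +kernel)
            (CovZ.n2 (14640, 22000) (by decide +kernel)
             (CovZ.leaf K2_ok TF_l13718 _)
             (CovZ.badM (by decide +kernel)))
            (CovZ.n1 (14480, 22000) (by decide +kernel)
             (CovZ.n2 (14480, 22080) (by decide +kernel)
              (CovZ.n2 (14520, 22040) (by decide +kernel)
               (CovZ.leaf K2_ok TF_l13719 _)
               (CovZ.badM (by decide +kernel)))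
              (CovZ.leaf K2_ok TF_l13720 _))
             (CovZ.n1 (14560, 22000) (by decide +kernel)
              (CovZ.leaf K2_ok TF_l13721 _)
              (CovZ.n1 (14520, 22040) (by decide +kernel)
               (CovZ.badM (by decide +kernel))
               (CovZ.leaf K2_ok TF_l13722 _)))))
           (CovZ.n1 (14720, 21920) (by decide +kernel)
            (CovZ.n2 (14640, 21840) (by decide +kernel)
             (CovZ.n2 (14640, 21920) (by decide +kernel)
              (CovZ.leaf K2_ok TF_l13723 _)
              (CovZ.leaf K2_ok TF_l13724 _))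
             (CovZ.n1 (14720, 21840) (by decide +kernel)
              (CovZ.leaf K2_ok TF_l13725 _)
              (CovZ.leaf K2_ok TF_l13726 _)))
            (CovZ.n1 (14640, 22000) (by decide +kernel)
             (CovZ.n2 (14720, 22000) (by decide +kernel)
              (CovZ.n2 (14680, 21960) (by decide +kernel)
               (CovZ.badM (by decide +kernel))
               (CovZ.leaf K2_ok TF_l13727 _))
              (CovZ.badM (by decide +kernel)))
             (CovZ.n1 (14640, 21920) (by decide +kernel)
              (CovZ.leaf K2_ok TF_l13728 _)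
              (CovZ.leaf K2_ok TF_l13729 _)))))
          (CovZ.n1 (14560, 22240) (by decide +kernel)
           (CovZ.badM (by decide +kernel))
           (CovZ.n1 (14560, 22080) (by decide +kernel)
            (CovZ.n2 (14480, 22160) (by decide +kernel)
             (CovZ.badM (by decide +kernel))
             (CovZ.n1 (14480, 22080) (by decide +kernel)
              (CovZ.n2 (14440, 22120) (by decide +kernel)
               (CovZ.leaf K2_ok TF_l13730 _)
               (CovZ.leaf K2_ok TF_l13731 _))
              (CovZ.badM (by decide +kernel))))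
            (CovZ.badM (by decide +kernel)))))
         (CovZ.n1 (14400, 21760) (by decide +kernel)
          (CovZ.n2 (14240, 21920) (by decide +kernel)
           (CovZ.n2 (14400, 21920) (by decide +kernel)
            (CovZ.leaf K2_ok TF_l13732 _)
            (CovZ.n1 (14320, 22000) (by decide +kernel)
             (CovZ.leaf K2_ok TF_l13733 _)
             (CovZ.leaf K2_ok TF_l13734 _)))
           (CovZ.leaf K2_ok TF_l5381 _))
          (CovZ.n1 (14560, 21920) (by decide +kernel)
           (CovZ.n2 (14560, 21760) (by decide +kernel)
            (CovZ.leaf K2_ok TF_l13735 _)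
            (CovZ.leaf K2_ok TF_l13736 _))
           (CovZ.n1 (14400, 21920) (by decide +kernel)
            (CovZ.leaf K2_ok TF_l13737 _)
            (CovZ.leaf K2_ok TF_l13738 _)))))
        (CovZ.n1 (15040, 22080) (by decide +kernel)
         (CovZ.n2 (15040, 21760) (by decide +kernel)
          (CovZ.n2 (14880, 21920) (by decide +kernel)
           (CovZ.badM (by decide +kernel))
           (CovZ.n1 (14880, 21760) (by decide +kernel)
            (CovZ.n2 (14800, 21840) (by decide +kernel)
             (CovZ.n2 (14880, 21840) (by decide +kernel)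
              (CovZ.leaf K2_ok TF_l13739 _)
              (CovZ.n1 (14840, 21880) (by decide +kernel)
               (CovZ.badM (by decide +kernel))
               (CovZ.leaf K2_ok TF_l13740 _)))
             (CovZ.leaf K2_ok TF_l13741 _))
            (CovZ.badM (by decide +kernel))))
          (CovZ.badM (by decide +kernel)))
         (CovZ.n1 (14720, 22080) (by decide +kernel)
          (CovZ.badM (by decide +kernel))
          (CovZ.n1 (14880, 21920) (by decide +kernel)
           (CovZ.n2 (14720, 21920) (by decide +kernel)
            (CovZ.n2 (14800, 22000) (by decide +kernel)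
             (CovZ.n2 (14800, 21920) (by decide +kernel)
              (CovZ.n2 (14760, 21960) (by decide +kernel)
               (CovZ.n2 (14800, 21960) (by decide +kernel)
                (CovZ.leaf K2_ok TF_l13742 _)
                (CovZ.n1 (14780, 21980) (by decide +kernel)
                 (CovZ.n2 (14800, 21980) (by decide +kernel)
                  (CovZ.leaf K2_ok TF_l13743 _)
                  (CovZ.badM (by decide +kernel)))
                 (CovZ.leaf K2_ok TF_l13744 _)))
               (CovZ.leaf K2_ok TF_l13745 _))
              (CovZ.n1 (14840, 21960) (by decide +kernel)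
               (CovZ.n2 (14840, 21920) (by decide +kernel)
                (CovZ.n2 (14820, 21940) (by decide +kernel)
                 (CovZ.leaf K2_ok TF_l13746 _)
                 (CovZ.leaf K2_ok TF_l13747 _))
                (CovZ.badM (by decide +kernel)))
               (CovZ.n1 (14800, 21960) (by decide +kernel)
                (CovZ.n2 (14820, 21980) (by decide +kernel)
                 (CovZ.leaf K2_ok TF_l13748 _)
                 (CovZ.leaf K2_ok TF_l13749 _))
                (CovZ.n1 (14820, 21940) (by decide +kernel)
                 (CovZ.leaf K2_ok TF_l13750 _)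
                 (CovZ.leaf K2_ok TF_l13751 _)))))
             (CovZ.n1 (14720, 22000) (by decide +kernel)
              (CovZ.badM (by decide +kernel))
              (CovZ.n1 (14760, 21960) (by decide +kernel)
               (CovZ.leaf K2_ok TF_l13752 _)
               (CovZ.n1 (14760, 22000) (by decide +kernel)
                (CovZ.n2 (14780, 21980) (by decide +kernel)
                 (CovZ.leaf K2_ok TF_l13753 _)
                 (CovZ.badM (by decide +kernel)))
                (CovZ.leaf K2_ok TF_l13754 _)))))
            (CovZ.n1 (14800, 21840) (by decide +kernel)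
             (CovZ.leaf K2_ok TF_l13755 _)
             (CovZ.n1 (14800, 21920) (by decide +kernel)
              (CovZ.n2 (14840, 21880) (by decide +kernel)
               (CovZ.leaf K2_ok TF_l13756 _)
               (CovZ.n1 (14840, 21920) (by decide +kernel)
                (CovZ.badM (by decide +kernel))
                (CovZ.leaf K2_ok TF_l13757 _)))
              (CovZ.n1 (14760, 21880) (by decide +kernel)
               (CovZ.leaf K2_ok TF_l13758 _)
               (CovZ.leaf K2_ok TF_l13759 _)))))
           (CovZ.n1 (14880, 22080) (by decide +kernel)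
            (CovZ.badM (by decide +kernel))
            (CovZ.n1 (14800, 22000) (by decide +kernel)
             (CovZ.badM (by decide +kernel))
             (CovZ.n1 (14880, 22000) (by decide +kernel)
              (CovZ.n2 (14840, 21960) (by decide +kernel)
               (CovZ.n2 (14840, 22000) (by decide +kernel)
                (CovZ.badM (by decide +kernel))
                (CovZ.n1 (14820, 21980) (by decide +kernel)
                 (CovZ.badM (by decide +kernel))
                 (CovZ.n1 (14840, 21980) (by decide +kernel)
                  (CovZ.leaf K2_ok TF_l13760 _)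
                  (CovZ.badM (by decide +kernel)))))
               (CovZ.badM (by decide +kernel)))
              (CovZ.badM (by decide +kernel))))))))))))
    (CovZ.n1 (14080, 20480) (by decide +kernel)
     (CovZ.n2 (13440, 21120) (by decide +kernel)
      (CovZ.n2 (14080, 21120) (by decide +kernel)
       (CovZ.leaf K2_ok TF_l5382 _)
       (CovZ.n1 (13760, 21440) (by decide +kernel)
        (CovZ.n2 (14080, 21440) (by decide +kernel)
         (CovZ.leaf K2_ok TF_l5383 _)
         (CovZ.leaf K2_ok TF_l5384 _))
        (CovZ.leaf K2_ok TF_l5385 _)))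
      (CovZ.leaf K2_ok TF_l5386 _))
     (CovZ.n1 (14720, 21120) (by decide +kernel)
      (CovZ.n2 (14720, 20480) (by decide +kernel)
       (CovZ.n2 (14400, 20800) (by decide +kernel)
        (CovZ.leaf K2_ok TF_l5387 _)
        (CovZ.leaf K2_ok TF_l5388 _))
       (CovZ.leaf K2_ok TF_l5389 _))
      (CovZ.n1 (14080, 21120) (by decide +kernel)
       (CovZ.leaf K2_ok TF_l5390 _)
       (CovZ.n1 (14400, 20800) (by decide +kernel)
        (CovZ.leaf K2_ok TF_l5391 _)
        (CovZ.leaf K2_ok TF_l5392 _)))))))
    (CovZ.topM TF_LL 2855366508271237367368403312402981402184777824 (by decide +kernel) (CovZ.n0 (14080, 21760) (by decide +kernel)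
    (CovZ.n2 (12800, 21760) (by decide +kernel)
     (CovZ.n2 (13440, 22400) (by decide +kernel)
      (CovZ.n2 (13440, 21760) (by decide +kernel)
       (CovZ.n2 (13120, 22080) (by decide +kernel)
        (CovZ.n2 (13440, 22080) (by decide +kernel)
         (CovZ.leaf K2_ok TF_l5393 _)
         (CovZ.leaf K2_ok TF_l5394 _))
        (CovZ.leaf K2_ok TF_l5395 _))
       (CovZ.n1 (13760, 22080) (by decide +kernel)
        (CovZ.leaf K2_ok TF_l5396 _)
        (CovZ.leaf K2_ok TF_l5397 _)))
      (CovZ.subM 2854495385411919764901937036514467928144347200 (by decide +kernel)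
       (CovZ.n1 (12800, 22400) (by decide +kernel)
        (CovZ.n2 (13120, 22720) (by decide +kernel)
         (CovZ.n2 (13120, 22400) (by decide +kernel)
          (CovZ.leaf K2_ok TF_l5398 _)
          (CovZ.leaf K2_ok TF_l5399 _))
         (CovZ.n1 (12800, 22720) (by decide +kernel)
          (CovZ.leaf K2_ok TF_l5400 _)
          (CovZ.leaf K2_ok TF_l5401 _)))
        (CovZ.n1 (13120, 22080) (by decide +kernel)
         (CovZ.leaf K2_ok TF_l5402 _)
         (CovZ.n1 (13120, 22400) (by decide +kernel)
          (CovZ.leaf K2_ok TF_l5403 _)
          (CovZ.leaf K2_ok TF_l5404 _))))))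
     (CovZ.n1 (13440, 21120) (by decide +kernel)
      (CovZ.leaf K2_ok TF_l5405 _)
      (CovZ.n1 (13440, 21760) (by decide +kernel)
       (CovZ.n2 (13760, 21440) (by decide +kernel)
        (CovZ.leaf K2_ok TF_l5406 _)
        (CovZ.n1 (13760, 21760) (by decide +kernel)
         (CovZ.leaf K2_ok TF_l5407 _)
         (CovZ.leaf K2_ok TF_l5408 _)))
       (CovZ.leaf K2_ok TF_l5409 _))))
    (CovZ.n1 (14080, 23040) (by decide +kernel)
     (CovZ.subM 2854669609983783282609865195921367374944534592 (by decide +kernel)
      (CovZ.n2 (14720, 22400) (by decide +kernel)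
       (CovZ.n2 (14080, 22400) (by decide +kernel)
        (CovZ.badM (by decide +kernel))
        (CovZ.n1 (14400, 22080) (by decide +kernel)
         (CovZ.n2 (14080, 22080) (by decide +kernel)
          (CovZ.n2 (14240, 22240) (by decide +kernel)
           (CovZ.n2 (14240, 22080) (by decide +kernel)
            (CovZ.n2 (14160, 22160) (by decide +kernel)
             (CovZ.leaf K2_ok TF_l5410 _)
             (CovZ.leaf K2_ok TF_l5411 _))
            (CovZ.leaf K2_ok TF_l5412 _))
           (CovZ.n1 (14080, 22240) (by decide +kernel)
            (CovZ.leaf K2_ok TF_l5413 _)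
            (CovZ.n1 (14160, 22160) (by decide +kernel)
             (CovZ.leaf K2_ok TF_l5414 _)
             (CovZ.n1 (14160, 22240) (by decide +kernel)
              (CovZ.leaf K2_ok TF_l5415 _)
              (CovZ.leaf K2_ok TF_l5416 _)))))
          (CovZ.n1 (14240, 21920) (by decide +kernel)
           (CovZ.leaf K2_ok TF_l5417 _)
           (CovZ.n1 (14240, 22080) (by decide +kernel)
            (CovZ.n2 (14320, 22000) (by decide +kernel)
             (CovZ.leaf K2_ok TF_l5418 _)
             (CovZ.leaf K2_ok TF_l5419 _))
            (CovZ.leaf K2_ok TF_l5420 _))))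
         (CovZ.n1 (14400, 22400) (by decide +kernel)
          (CovZ.n2 (14560, 22240) (by decide +kernel)
           (CovZ.n2 (14400, 22240) (by decide +kernel)
            (CovZ.n2 (14480, 22320) (by decide +kernel)
             (CovZ.n2 (14480, 22240) (by decide +kernel)
              (CovZ.n2 (14440, 22280) (by decide +kernel)
               (CovZ.badM (by decide +kernel))
               (CovZ.n1 (14440, 22240) (by decide +kernel)
                (CovZ.n2 (14420, 22260) (by decide +kernel)
                 (CovZ.badM (by decide +kernel))
                 (CovZ.leaf K2_ok TF_l13761 _))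
                (CovZ.badM (by decide +kernel))))
              (CovZ.badM (by decide +kernel)))
             (CovZ.n1 (14400, 22320) (by decide +kernel)
              (CovZ.badM (by decide +kernel))
              (CovZ.n1 (14440, 22280) (by decide +kernel)
               (CovZ.n2 (14400, 22280) (by decide +kernel)
                (CovZ.badM (by decide +kernel))
                (CovZ.n1 (14420, 22260) (by decide +kernel)
                 (CovZ.leaf K2_ok TF_l13762 _)
                 (CovZ.badM (by decide +kernel))))
               (CovZ.badM (by decide +kernel)))))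
            (CovZ.n1 (14480, 22160) (by decide +kernel)
             (CovZ.n2 (14400, 22160) (by decide +kernel)
              (CovZ.leaf K2_ok TF_l13763 _)
              (CovZ.n1 (14440, 22120) (by decide +kernel)
               (CovZ.leaf K2_ok TF_l13764 _)
               (CovZ.leaf K2_ok TF_l13765 _)))
             (CovZ.n1 (14480, 22240) (by decide +kernel)
              (CovZ.badM (by decide +kernel))
              (CovZ.n1 (14440, 22200) (by decide +kernel)
               (CovZ.n2 (14440, 22240) (by decide +kernel)
                (CovZ.n2 (14460, 22220) (by decide +kernel)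
                 (CovZ.leaf K2_ok TF_l13766 _)
                 (CovZ.n1 (14460, 22240) (by decide +kernel)
                  (CovZ.badM (by decide +kernel))
                  (CovZ.leaf K2_ok TF_l13767 _)))
                (CovZ.leaf K2_ok TF_l13768 _))
               (CovZ.n1 (14480, 22200) (by decide +kernel)
                (CovZ.leaf K2_ok TF_l13769 _)
                (CovZ.n1 (14460, 22220) (by decide +kernel)
                 (CovZ.badM (by decide +kernel))
                 (CovZ.leaf K2_ok TF_l13770 _)))))))
           (CovZ.badM (by decide +kernel)))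
          (CovZ.n1 (14240, 22240) (by decide +kernel)
           (CovZ.n2 (14240, 22400) (by decide +kernel)
            (CovZ.n2 (14320, 22320) (by decide +kernel)
             (CovZ.n2 (14240, 22320) (by decide +kernel)
              (CovZ.badM (by decide +kernel))
              (CovZ.n1 (14280, 22280) (by decide +kernel)
               (CovZ.leaf K2_ok TF_l13771 _)
               (CovZ.badM (by decide +kernel))))
             (CovZ.badM (by decide +kernel)))
            (CovZ.n1 (14160, 22320) (by decide +kernel)
             (CovZ.badM (by decide +kernel))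
             (CovZ.n1 (14240, 22320) (by decide +kernel)
              (CovZ.n2 (14200, 22280) (by decide +kernel)
               (CovZ.leaf K2_ok TF_l13772 _)
               (CovZ.leaf K2_ok TF_l13773 _))
              (CovZ.badM (by decide +kernel)))))
           (CovZ.n1 (14400, 22240) (by decide +kernel)
            (CovZ.n2 (14320, 22160) (by decide +kernel)
             (CovZ.n2 (14320, 22240) (by decide +kernel)
              (CovZ.n2 (14360, 22200) (by decide +kernel)
               (CovZ.leaf K2_ok TF_l13774 _)
               (CovZ.n1 (14360, 22240) (by decide +kernel)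
                (CovZ.leaf K2_ok TF_l13775 _)
                (CovZ.leaf K2_ok TF_l13776 _)))
              (CovZ.leaf K2_ok TF_l13777 _))
             (CovZ.n1 (14400, 22160) (by decide +kernel)
              (CovZ.leaf K2_ok TF_l13778 _)
              (CovZ.n1 (14360, 22200) (by decide +kernel)
               (CovZ.n2 (14400, 22200) (by decide +kernel)
                (CovZ.leaf K2_ok TF_l13779 _)
                (CovZ.leaf K2_ok TF_l13780 _))
               (CovZ.leaf K2_ok TF_l13781 _))))
            (CovZ.n1 (14320, 22320) (by decide +kernel)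
             (CovZ.n2 (14400, 22320) (by decide +kernel)
              (CovZ.n2 (14360, 22280) (by decide +kernel)
               (CovZ.badM (by decide +kernel))
               (CovZ.n1 (14400, 22280) (by decide +kernel)
                (CovZ.n2 (14380, 22260) (by decide +kernel)
                 (CovZ.badM (by decide +kernel))
                 (CovZ.leaf K2_ok TF_l13782 _))
                (CovZ.badM (by decide +kernel))))
              (CovZ.badM (by decide +kernel)))
             (CovZ.n1 (14320, 22240) (by decide +kernel)
              (CovZ.n2 (14280, 22280) (by decide +kernel)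
               (CovZ.n2 (14320, 22280) (by decide +kernel)
                (CovZ.leaf K2_ok TF_l13783 _)
                (CovZ.badM (by decide +kernel)))
               (CovZ.leaf K2_ok TF_l13784 _))
              (CovZ.n1 (14360, 22280) (by decide +kernel)
               (CovZ.leaf K2_ok TF_l13785 _)
               (CovZ.leaf K2_ok TF_l13786 _)))))))))
       (CovZ.badM (by decide +kernel))))
     (CovZ.subM 2854669609983783282919350205742712443670364224 (by decide +kernel)
      (CovZ.n1 (13440, 22400) (by decide +kernel)
       TF_u124
       TF_u125)))))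

end Pool.Agent.TET
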