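import Pool.Agent.Helper38_TET.TF_M
import Pool.Agent.Helper38_TET.TF_L
import Pool.Agent.Helper38_TET.TF_12
import Pool.Agent.Helper38_TET.TF_13
import Pool.Agent.Helper38_TET.TF_14
import Pool.Agent.Helper38_TET.TF_15
import Pool.Agent.Helper38_TET.TF_23
import Pool.Agent.Helper38_TET.TF_24
import Pool.Agent.Helper38_TET.TF_25
import Pool.Agent.Helper38_TET.TF_72
import Pool.Agent.Helper38_TET.TF_73
import Pool.Agent.Helper38_TET.TF_74
import Pool.Agent.Helper38_TET.TF_82
import Pool.Agent.Helper38_TET.TF_83
import Pool.Agent.Helper38_TET.TF_107

/-!
# MP_c7c9bf_co: certificates, family TF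
-/

set_option autoImplicit false
set_option maxRecDepth 100000

namespace Pool.Agent.TET

theorem TF_u148 : CovZ TF_M (toL (selN TF_LN 89213870311450229091418523445037408585777170)) [0, 7, 4, 3] (-1280, 26880) (-1920, 26240) (-1280, 25600) :=
    (CovZ.n2 (-1280, 26240) (by decide +kernel)
       (CovZ.n2 (-1600, 25920) (by decide +kernel)
        (CovZ.n2 (-1600, 26240) (by decide +kernel)
         (CovZ.n2 (-1440, 26080) (by decide +kernel)
          (CovZ.leaf K2_ok TF_l1904 _)
          (CovZ.n1 (-1440, 26240) (by decide +kernel)
           (CovZ.leaf K2_ok TF_l1905 _)
           (CovZ.leaf K2_ok TF_l1906 _)))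
         (CovZ.subM 89213869896065767350333391131533001021718546 (by decide +kernel)
          (CovZ.n1 (-1760, 26080) (by decide +kernel)
           (CovZ.n2 (-1760, 26240) (by decide +kernel)
            (CovZ.n2 (-1680, 26160) (by decide +kernel)
             (CovZ.leaf K2_ok TF_l1907 _)
             (CovZ.leaf K2_ok TF_l1908 _))
            (CovZ.n1 (-1840, 26160) (by decide +kernel)
             (CovZ.n2 (-1840, 26240) (by decide +kernel)
              (CovZ.leaf K2_ok TF_l1909 _)
              (CovZ.leaf K2_ok TF_l1910 _))
             (CovZ.leaf K2_ok TF_l1911 _)))
           (CovZ.n1 (-1600, 26080) (by decide +kernel)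
            (CovZ.leaf K2_ok TF_l1912 _)
            (CovZ.n1 (-1680, 26160) (by decide +kernel)
             (CovZ.leaf K2_ok TF_l1913 _)
             (CovZ.leaf K2_ok TF_l1914 _))))))
        (CovZ.n1 (-1280, 25920) (by decide +kernel)
         (CovZ.leaf K2_ok TF_l1915 _)
         (CovZ.n1 (-1440, 26080) (by decide +kernel)
          (CovZ.leaf K2_ok TF_l1916 _)
          (CovZ.leaf K2_ok TF_l1917 _))))
       (CovZ.n1 (-1600, 26560) (by decide +kernel)
        (CovZ.n2 (-1280, 26560) (by decide +kernel)
         (CovZ.n2 (-1440, 26400) (by decide +kernel)
          (CovZ.n2 (-1440, 26560) (by decide +kernel)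
           (CovZ.leaf K2_ok TF_l1918 _)
           (CovZ.n1 (-1520, 26480) (by decide +kernel)
            (CovZ.n2 (-1520, 26560) (by decide +kernel)
             (CovZ.leaf K2_ok TF_l1919 _)
             (CovZ.leaf K2_ok TF_l1920 _))
            (CovZ.leaf K2_ok TF_l1921 _)))
          (CovZ.n1 (-1280, 26400) (by decide +kernel)
           (CovZ.leaf K2_ok TF_l1922 _)
           (CovZ.leaf K2_ok TF_l1923 _)))
         (CovZ.n1 (-1440, 26720) (by decide +kernel)
          (CovZ.subM 89213870311449516033120191714286665692348434 (by decide +kernel)
           (CovZ.n2 (-1280, 26720) (by decide +kernel)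
            (CovZ.n2 (-1360, 26640) (by decide +kernel)
             (CovZ.leaf K2_ok TF_l1924 _)
             (CovZ.leaf K2_ok TF_l1925 _))
            (CovZ.n1 (-1360, 26800) (by decide +kernel)
             (CovZ.leaf K2_ok TF_l1926 _)
             (CovZ.leaf K2_ok TF_l1927 _))))
          (CovZ.n1 (-1440, 26560) (by decide +kernel)
           (CovZ.n2 (-1520, 26640) (by decide +kernel)
            (CovZ.leaf K2_ok TF_l1928 _)
            (CovZ.leaf K2_ok TF_l1929 _))
           (CovZ.leaf K2_ok TF_l1930 _))))
        (CovZ.n1 (-1600, 26240) (by decide +kernel)
         (CovZ.subM 89213869896065767350333391131533001021718546 (by decide +kernel)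
          (CovZ.n2 (-1760, 26400) (by decide +kernel)
           (CovZ.n2 (-1600, 26400) (by decide +kernel)
            (CovZ.n2 (-1680, 26320) (by decide +kernel)
             (CovZ.n2 (-1680, 26400) (by decide +kernel)
              (CovZ.leaf K2_ok TF_l1931 _)
              (CovZ.leaf K2_ok TF_l1932 _))
             (CovZ.leaf K2_ok TF_l1933 _))
            (CovZ.n1 (-1680, 26480) (by decide +kernel)
             (CovZ.n2 (-1600, 26480) (by decide +kernel)
              (CovZ.leaf K2_ok TF_l1934 _)
              (CovZ.leaf K2_ok TF_l1935 _))
             (CovZ.n1 (-1680, 26400) (by decide +kernel)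
              (CovZ.n2 (-1720, 26440) (by decide +kernel)
               (CovZ.leaf K2_ok TF_l1936 _)
               (CovZ.leaf K2_ok TF_l1937 _))
              (CovZ.leaf K2_ok TF_l1938 _))))
           (CovZ.n1 (-1760, 26240) (by decide +kernel)
            (CovZ.n2 (-1840, 26320) (by decide +kernel)
             (CovZ.n2 (-1760, 26320) (by decide +kernel)
              (CovZ.leaf K2_ok TF_l1939 _)
              (CovZ.n1 (-1800, 26360) (by decide +kernel)
               (CovZ.leaf K2_ok TF_l1940 _)
               (CovZ.leaf K2_ok TF_l1941 _)))
             (CovZ.n1 (-1840, 26240) (by decide +kernel)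
              (CovZ.n2 (-1880, 26280) (by decide +kernel)
               (CovZ.leaf K2_ok TF_l1942 _)
               (CovZ.leaf K2_ok TF_l1943 _))
              (CovZ.leaf K2_ok TF_l1944 _)))
            (CovZ.leaf K2_ok TF_l1945 _))))
         (CovZ.n1 (-1440, 26400) (by decide +kernel)
          (CovZ.n2 (-1440, 26240) (by decide +kernel)
           (CovZ.leaf K2_ok TF_l1946 _)
           (CovZ.leaf K2_ok TF_l1947 _))
          (CovZ.n1 (-1600, 26400) (by decide +kernel)
           (CovZ.leaf K2_ok TF_l1948 _)
           (CovZ.leaf K2_ok TF_l1949 _))))))

theorem TF_u149 : CovZ TF_M (toL (selN TF_LN 89213870311450229091418523445037408585777170)) [0, 7, 4, 3] (-1920, 26240) (-2560, 25600) (-1280, 25600) :=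
    (CovZ.n1 (-1920, 25600) (by decide +kernel)
       (CovZ.subM 89213869853229318267421053972784369450876944 (by decide +kernel)
        (CovZ.n2 (-2240, 25920) (by decide +kernel)
         (CovZ.n2 (-1920, 25920) (by decide +kernel)
          (CovZ.n2 (-2080, 25760) (by decide +kernel)
           (CovZ.n2 (-2080, 25920) (by decide +kernel)
            (CovZ.n2 (-2000, 25840) (by decide +kernel)
             (CovZ.leaf K2_ok TF_l1950 _)
             (CovZ.n1 (-2000, 25920) (by decide +kernel)
              (CovZ.leaf K2_ok TF_l1951 _)
              (CovZ.leaf K2_ok TF_l1952 _)))
            (CovZ.subM 89202980817487828429549597418980679505412112 (by decide +kernel)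
             (CovZ.n1 (-2160, 25840) (by decide +kernel)
              (CovZ.n2 (-2160, 25920) (by decide +kernel)
               (CovZ.n2 (-2120, 25880) (by decide +kernel)
                (CovZ.leaf K2_ok TF_l1953 _)
                (CovZ.leaf K2_ok TF_l1954 _))
               (CovZ.n1 (-2200, 25880) (by decide +kernel)
                (CovZ.n2 (-2200, 25920) (by decide +kernel)
                 (CovZ.leaf K2_ok TF_l1955 _)
                 (CovZ.leaf K2_ok TF_l1956 _))
                (CovZ.leaf K2_ok TF_l1957 _)))
              (CovZ.n1 (-2080, 25840) (by decide +kernel)
               (CovZ.leaf K2_ok TF_l1958 _)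
               (CovZ.n1 (-2120, 25880) (by decide +kernel)
                (CovZ.leaf K2_ok TF_l1959 _)
                (CovZ.leaf K2_ok TF_l1960 _))))))
           (CovZ.n1 (-1920, 25760) (by decide +kernel)
            (CovZ.leaf K2_ok TF_l1961 _)
            (CovZ.n1 (-2000, 25840) (by decide +kernel)
             (CovZ.leaf K2_ok TF_l1962 _)
             (CovZ.leaf K2_ok TF_l1963 _))))
          (CovZ.n1 (-2080, 26080) (by decide +kernel)
           (CovZ.n2 (-1920, 26080) (by decide +kernel)
            (CovZ.n2 (-2000, 26000) (by decide +kernel)
             (CovZ.n2 (-2000, 26080) (by decide +kernel)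
              (CovZ.leaf K2_ok TF_l1964 _)
              (CovZ.n1 (-2040, 26040) (by decide +kernel)
               (CovZ.leaf K2_ok TF_l1965 _)
               (CovZ.leaf K2_ok TF_l1966 _)))
             (CovZ.n1 (-1920, 26000) (by decide +kernel)
              (CovZ.leaf K2_ok TF_l1967 _)
              (CovZ.leaf K2_ok TF_l1968 _)))
            (CovZ.n1 (-2000, 26160) (by decide +kernel)
             (CovZ.n2 (-1920, 26160) (by decide +kernel)
              (CovZ.leaf K2_ok TF_l1969 _)
              (CovZ.n1 (-1960, 26200) (by decide +kernel)
               (CovZ.leaf K2_ok TF_l1970 _)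
               (CovZ.leaf K2_ok TF_l1971 _)))
             (CovZ.n1 (-2000, 26080) (by decide +kernel)
              (CovZ.n2 (-2040, 26120) (by decide +kernel)
               (CovZ.leaf K2_ok TF_l1972 _)
               (CovZ.leaf K2_ok TF_l1973 _))
              (CovZ.leaf K2_ok TF_l1974 _))))
           (CovZ.n1 (-2080, 25920) (by decide +kernel)
            (CovZ.subM 23365335863406724328387233481490448 (by decide +kernel)
             (CovZ.n2 (-2160, 26000) (by decide +kernel)
              (CovZ.n2 (-2080, 26000) (by decide +kernel)
               (CovZ.n2 (-2120, 25960) (by decide +kernel)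
                (CovZ.n2 (-2120, 26000) (by decide +kernel)
                 (CovZ.leaf K2_ok TF_l1975 _)
                 (CovZ.leaf K2_ok TF_l1976 _))
                (CovZ.leaf K2_ok TF_l1977 _))
               (CovZ.n1 (-2120, 26040) (by decide +kernel)
                (CovZ.n2 (-2080, 26040) (by decide +kernel)
                 (CovZ.leaf K2_ok TF_l1978 _)
                 (CovZ.leaf K2_ok TF_l1979 _))
                (CovZ.leaf K2_ok TF_l1980 _)))
              (CovZ.n1 (-2160, 25920) (by decide +kernel)
               (CovZ.n2 (-2200, 25960) (by decide +kernel)
                (CovZ.n2 (-2160, 25960) (by decide +kernel)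
                 (CovZ.leaf K2_ok TF_l1981 _)
                 (CovZ.leaf K2_ok TF_l10726 _))
                (CovZ.n1 (-2200, 25920) (by decide +kernel)
                 (CovZ.n2 (-2220, 25940) (by decide +kernel)
                  (CovZ.leaf K2_ok TF_l10727 _)
                  (CovZ.leaf K2_ok TF_l10728 _))
                 (CovZ.leaf K2_ok TF_l1982 _)))
               (CovZ.leaf K2_ok TF_l1983 _))))
            (CovZ.n1 (-2000, 26000) (by decide +kernel)
             (CovZ.n2 (-2000, 25920) (by decide +kernel)
              (CovZ.leaf K2_ok TF_l1984 _)
              (CovZ.leaf K2_ok TF_l1985 _))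
             (CovZ.n1 (-2080, 26000) (by decide +kernel)
              (CovZ.leaf K2_ok TF_l1986 _)
              (CovZ.leaf K2_ok TF_l1987 _))))))
         (CovZ.n1 (-2240, 25600) (by decide +kernel)
          (CovZ.subM 23365335863406724328387233481490448 (by decide +kernel)
           (CovZ.n2 (-2400, 25760) (by decide +kernel)
            (CovZ.n2 (-2240, 25760) (by decide +kernel)
             (CovZ.n2 (-2320, 25680) (by decide +kernel)
              (CovZ.n2 (-2320, 25760) (by decide +kernel)
               (CovZ.n2 (-2280, 25720) (by decide +kernel)
                (CovZ.leaf K2_ok TF_l1988 _)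
                (CovZ.n1 (-2280, 25760) (by decide +kernel)
                 (CovZ.leaf K2_ok TF_l1989 _)
                 (CovZ.leaf K2_ok TF_l1990 _)))
               (CovZ.n1 (-2360, 25720) (by decide +kernel)
                (CovZ.n2 (-2360, 25760) (by decide +kernel)
                 (CovZ.n2 (-2340, 25740) (by decide +kernel)
                  (CovZ.leaf K2_ok TF_l10729 _)
                  (CovZ.leaf K2_ok TF_l10730 _))
                 (CovZ.n1 (-2380, 25740) (by decide +kernel)
                  (CovZ.badM (by decide +kernel))
                  (CovZ.leaf K2_ok TF_l10731 _)))
                (CovZ.n1 (-2320, 25720) (by decide +kernel)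
                 (CovZ.leaf K2_ok TF_l1991 _)
                 (CovZ.n1 (-2340, 25740) (by decide +kernel)
                  (CovZ.leaf K2_ok TF_l10732 _)
                  (CovZ.leaf K2_ok TF_l10733 _)))))
              (CovZ.n1 (-2240, 25680) (by decide +kernel)
               (CovZ.leaf K2_ok TF_l1992 _)
               (CovZ.n1 (-2280, 25720) (by decide +kernel)
                (CovZ.leaf K2_ok TF_l1993 _)
                (CovZ.leaf K2_ok TF_l1994 _))))
             (CovZ.n1 (-2320, 25840) (by decide +kernel)
              (CovZ.n2 (-2240, 25840) (by decide +kernel)
               (CovZ.n2 (-2280, 25800) (by decide +kernel)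
                (CovZ.n2 (-2280, 25840) (by decide +kernel)
                 (CovZ.leaf K2_ok TF_l1995 _)
                 (CovZ.n1 (-2300, 25820) (by decide +kernel)
                  (CovZ.leaf K2_ok TF_l10734 _)
                  (CovZ.leaf K2_ok TF_l10735 _)))
                (CovZ.n1 (-2240, 25800) (by decide +kernel)
                 (CovZ.leaf K2_ok TF_l1996 _)
                 (CovZ.leaf K2_ok TF_l1997 _)))
               (CovZ.n1 (-2280, 25880) (by decide +kernel)
                (CovZ.n2 (-2240, 25880) (by decide +kernel)
                 (CovZ.leaf K2_ok TF_l1998 _)
                 (CovZ.n1 (-2260, 25900) (by decide +kernel)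
                  (CovZ.leaf K2_ok TF_l10736 _)
                  (CovZ.leaf K2_ok TF_l10737 _)))
                (CovZ.n1 (-2280, 25840) (by decide +kernel)
                 (CovZ.n2 (-2300, 25860) (by decide +kernel)
                  (CovZ.leaf K2_ok TF_l10738 _)
                  (CovZ.leaf K2_ok TF_l10739 _))
                 (CovZ.leaf K2_ok TF_l1999 _))))
              (CovZ.n1 (-2320, 25760) (by decide +kernel)
               (CovZ.n2 (-2360, 25800) (by decide +kernel)
                (CovZ.n2 (-2320, 25800) (by decide +kernel)
                 (CovZ.n2 (-2340, 25780) (by decide +kernel)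
                  (CovZ.n2 (-2340, 25800) (by decide +kernel)
                   (CovZ.leaf K2_ok TF_l10740 _)
                   (CovZ.leaf K2_ok TF_l10741 _))
                  (CovZ.leaf K2_ok TF_l10742 _))
                 (CovZ.n1 (-2340, 25820) (by decide +kernel)
                  (CovZ.n2 (-2320, 25820) (by decide +kernel)
                   (CovZ.leaf K2_ok TF_l10743 _)
                   (CovZ.leaf K2_ok TF_l10744 _))
                  (CovZ.leaf K2_ok TF_l10745 _)))
                (CovZ.n1 (-2360, 25760) (by decide +kernel)
                 (CovZ.badM (by decide +kernel))
                 (CovZ.leaf K2_ok TF_l10746 _)))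
               (CovZ.n1 (-2280, 25800) (by decide +kernel)
                (CovZ.n2 (-2280, 25760) (by decide +kernel)
                 (CovZ.n2 (-2300, 25780) (by decide +kernel)
                  (CovZ.leaf K2_ok TF_l10747 _)
                  (CovZ.leaf K2_ok TF_l10748 _))
                 (CovZ.leaf K2_ok TF_l2000 _))
                (CovZ.n1 (-2320, 25800) (by decide +kernel)
                 (CovZ.leaf K2_ok TF_l10749 _)
                 (CovZ.n1 (-2300, 25780) (by decide +kernel)
                  (CovZ.leaf K2_ok TF_l10750 _)
                  (CovZ.leaf K2_ok TF_l10751 _)))))))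
            (CovZ.n1 (-2400, 25600) (by decide +kernel)
             (CovZ.badM (by decide +kernel))
             (CovZ.n1 (-2320, 25680) (by decide +kernel)
              (CovZ.n2 (-2320, 25600) (by decide +kernel)
               (CovZ.n2 (-2360, 25640) (by decide +kernel)
                (CovZ.leaf K2_ok TF_l2001 _)
                (CovZ.leaf K2_ok TF_l2002 _))
               (CovZ.leaf K2_ok TF_l2003 _))
              (CovZ.n1 (-2400, 25680) (by decide +kernel)
               (CovZ.n2 (-2360, 25720) (by decide +kernel)
                (CovZ.n2 (-2360, 25680) (by decide +kernel)
                 (CovZ.n2 (-2380, 25700) (by decide +kernel)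
                  (CovZ.leaf K2_ok TF_l10752 _)
                  (CovZ.leaf K2_ok TF_l10753 _))
                 (CovZ.leaf K2_ok TF_l2004 _))
                (CovZ.n1 (-2400, 25720) (by decide +kernel)
                 (CovZ.leaf K2_ok TF_l10754 _)
                 (CovZ.n1 (-2380, 25700) (by decide +kernel)
                  (CovZ.badM (by decide +kernel))
                  (CovZ.leaf K2_ok TF_l10755 _))))
               (CovZ.n1 (-2360, 25640) (by decide +kernel)
                (CovZ.leaf K2_ok TF_l2005 _)
                (CovZ.n1 (-2360, 25680) (by decide +kernel)
                 (CovZ.leaf K2_ok TF_l2006 _)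
                 (CovZ.leaf K2_ok TF_l2007 _))))))))
          (CovZ.n1 (-2080, 25760) (by decide +kernel)
           (CovZ.n2 (-2080, 25600) (by decide +kernel)
            (CovZ.n2 (-2160, 25680) (by decide +kernel)
             (CovZ.leaf K2_ok TF_l2008 _)
             (CovZ.leaf K2_ok TF_l2009 _))
            (CovZ.leaf K2_ok TF_l2010 _))
           (CovZ.subM 89202980817487828429549597418980679505412112 (by decide +kernel)
            (CovZ.n1 (-2240, 25760) (by decide +kernel)
             (CovZ.n2 (-2160, 25840) (by decide +kernel)
              (CovZ.n2 (-2160, 25760) (by decide +kernel)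
               (CovZ.n2 (-2200, 25800) (by decide +kernel)
                (CovZ.leaf K2_ok TF_l2011 _)
                (CovZ.leaf K2_ok TF_l2012 _))
               (CovZ.leaf K2_ok TF_l2013 _))
              (CovZ.n1 (-2240, 25840) (by decide +kernel)
               (CovZ.leaf K2_ok TF_l2014 _)
               (CovZ.n1 (-2200, 25800) (by decide +kernel)
                (CovZ.leaf K2_ok TF_l2015 _)
                (CovZ.leaf K2_ok TF_l2016 _))))
             (CovZ.n1 (-2160, 25680) (by decide +kernel)
              (CovZ.leaf K2_ok TF_l2017 _)
              (CovZ.n1 (-2160, 25760) (by decide +kernel)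
               (CovZ.leaf K2_ok TF_l2018 _)
               (CovZ.leaf K2_ok TF_l2019 _)))))))))
       (CovZ.n1 (-1600, 25920) (by decide +kernel)
        (CovZ.n2 (-1600, 25600) (by decide +kernel)
         (CovZ.n2 (-1760, 25760) (by decide +kernel)
          (CovZ.leaf K2_ok TF_l2020 _)
          (CovZ.leaf K2_ok TF_l2021 _))
         (CovZ.leaf K2_ok TF_l2022 _))
        (CovZ.subM 89213869854527392482054770103289030387957778 (by decide +kernel)
         (CovZ.n1 (-1920, 25920) (by decide +kernel)
          (CovZ.n2 (-1760, 26080) (by decide +kernel)
           (CovZ.n2 (-1760, 25920) (by decide +kernel)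
            (CovZ.n2 (-1840, 26000) (by decide +kernel)
             (CovZ.leaf K2_ok TF_l2023 _)
             (CovZ.leaf K2_ok TF_l2024 _))
            (CovZ.leaf K2_ok TF_l2025 _))
           (CovZ.n1 (-1920, 26080) (by decide +kernel)
            (CovZ.leaf K2_ok TF_l2026 _)
            (CovZ.n1 (-1840, 26000) (by decide +kernel)
             (CovZ.leaf K2_ok TF_l2027 _)
             (CovZ.leaf K2_ok TF_l2028 _))))
          (CovZ.n1 (-1760, 25760) (by decide +kernel)
           (CovZ.leaf K2_ok TF_l2029 _)
           (CovZ.n1 (-1760, 25920) (by decide +kernel)
            (CovZ.leaf K2_ok TF_l2030 _)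
            (CovZ.leaf K2_ok TF_l2031 _)))))))

theorem TF_u150 : CovZ TF_M (toL (selN TF_LN 89213870308853446832014701868267177389326338)) [0, 7, 4, 3] (-1920, 26240) (-1600, 26560) (-1920, 26880) :=
    (CovZ.subM 89202980857728148890235149329548461297631234 (by decide +kernel)
          (CovZ.n2 (-1920, 26560) (by decide +kernel)
           (CovZ.n2 (-1760, 26720) (by decide +kernel)
            (CovZ.n2 (-1760, 26560) (by decide +kernel)
             (CovZ.subM 1298094021674335473217022468292610 (by decide +kernel)
              (CovZ.n2 (-1840, 26640) (by decide +kernel)
               (CovZ.n2 (-1760, 26640) (by decide +kernel)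
                (CovZ.n2 (-1800, 26600) (by decide +kernel)
                 (CovZ.n2 (-1800, 26640) (by decide +kernel)
                  (CovZ.n2 (-1780, 26620) (by decide +kernel)
                   (CovZ.leaf K2_ok TF_l10776 _)
                   (CovZ.n1 (-1780, 26640) (by decide +kernel)
                    (CovZ.leaf K2_ok TF_l10777 _)
                    (CovZ.leaf K2_ok TF_l10778 _)))
                  (CovZ.n1 (-1820, 26620) (by decide +kernel)
                   (CovZ.badM (by decide +kernel))
                   (CovZ.n1 (-1800, 26620) (by decide +kernel)
                    (CovZ.leaf K2_ok TF_l10779 _)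
                    (CovZ.badM (by decide +kernel)))))
                 (CovZ.n1 (-1760, 26600) (by decide +kernel)
                  (CovZ.n2 (-1780, 26580) (by decide +kernel)
                   (CovZ.leaf K2_ok TF_l10780 _)
                   (CovZ.leaf K2_ok TF_l10781 _))
                  (CovZ.n1 (-1780, 26620) (by decide +kernel)
                   (CovZ.leaf K2_ok TF_l10782 _)
                   (CovZ.leaf K2_ok TF_l10783 _))))
                (CovZ.n1 (-1800, 26680) (by decide +kernel)
                 (CovZ.n2 (-1760, 26680) (by decide +kernel)
                  (CovZ.n2 (-1780, 26660) (by decide +kernel)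
                   (CovZ.badM (by decide +kernel))
                   (CovZ.n1 (-1760, 26660) (by decide +kernel)
                    (CovZ.leaf K2_ok TF_l10784 _)
                    (CovZ.badM (by decide +kernel))))
                  (CovZ.badM (by decide +kernel)))
                 (CovZ.n1 (-1800, 26640) (by decide +kernel)
                  (CovZ.badM (by decide +kernel))
                  (CovZ.n1 (-1780, 26660) (by decide +kernel)
                   (CovZ.leaf K2_ok TF_l10785 _)
                   (CovZ.badM (by decide +kernel))))))
               (CovZ.n1 (-1840, 26560) (by decide +kernel)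
                (CovZ.badM (by decide +kernel))
                (CovZ.n1 (-1800, 26600) (by decide +kernel)
                 (CovZ.n2 (-1800, 26560) (by decide +kernel)
                  (CovZ.n2 (-1820, 26580) (by decide +kernel)
                   (CovZ.leaf K2_ok TF_l10786 _)
                   (CovZ.leaf K2_ok TF_l10787 _))
                  (CovZ.leaf K2_ok TF_l10788 _))
                 (CovZ.n1 (-1840, 26600) (by decide +kernel)
                  (CovZ.n2 (-1820, 26620) (by decide +kernel)
                   (CovZ.n2 (-1820, 26600) (by decide +kernel)
                    (CovZ.badM (by decide +kernel))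
                    (CovZ.leaf K2_ok TF_l10789 _))
                   (CovZ.badM (by decide +kernel)))
                  (CovZ.n1 (-1820, 26580) (by decide +kernel)
                   (CovZ.badM (by decide +kernel))
                   (CovZ.n1 (-1820, 26600) (by decide +kernel)
                    (CovZ.leaf K2_ok TF_l10790 _)
                    (CovZ.badM (by decide +kernel)))))))))
             (CovZ.n1 (-1680, 26640) (by decide +kernel)
              (CovZ.n2 (-1680, 26560) (by decide +kernel)
               (CovZ.n2 (-1720, 26600) (by decide +kernel)
                (CovZ.leaf K2_ok TF_l2062 _)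
                (CovZ.leaf K2_ok TF_l2063 _))
               (CovZ.leaf K2_ok TF_l2064 _))
              (CovZ.subM 1298094021674335473217022468292610 (by decide +kernel)
               (CovZ.n1 (-1760, 26640) (by decide +kernel)
                (CovZ.n2 (-1720, 26680) (by decide +kernel)
                 (CovZ.n2 (-1720, 26640) (by decide +kernel)
                  (CovZ.n2 (-1740, 26660) (by decide +kernel)
                   (CovZ.leaf K2_ok TF_l10791 _)
                   (CovZ.leaf K2_ok TF_l10792 _))
                  (CovZ.leaf K2_ok TF_l10793 _))
                 (CovZ.n1 (-1760, 26680) (by decide +kernel)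
                  (CovZ.n2 (-1740, 26700) (by decide +kernel)
                   (CovZ.n2 (-1740, 26680) (by decide +kernel)
                    (CovZ.badM (by decide +kernel))
                    (CovZ.leaf K2_ok TF_l10794 _))
                   (CovZ.badM (by decide +kernel)))
                  (CovZ.n1 (-1740, 26660) (by decide +kernel)
                   (CovZ.leaf K2_ok TF_l10795 _)
                   (CovZ.n1 (-1740, 26680) (by decide +kernel)
                    (CovZ.leaf K2_ok TF_l10796 _)
                    (CovZ.leaf K2_ok TF_l10797 _)))))
                (CovZ.n1 (-1720, 26600) (by decide +kernel)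
                 (CovZ.leaf K2_ok TF_l10798 _)
                 (CovZ.n1 (-1720, 26640) (by decide +kernel)
                  (CovZ.leaf K2_ok TF_l10799 _)
                  (CovZ.leaf K2_ok TF_l10800 _)))))))
            (CovZ.badM (by decide +kernel)))
           (CovZ.n1 (-1760, 26400) (by decide +kernel)
            (CovZ.n2 (-1920, 26400) (by decide +kernel)
             (CovZ.n2 (-1840, 26480) (by decide +kernel)
              (CovZ.n2 (-1840, 26400) (by decide +kernel)
               (CovZ.subM 1298094021674335473217022468292610 (by decide +kernel)
                (CovZ.n2 (-1880, 26440) (by decide +kernel)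
                 (CovZ.n2 (-1840, 26440) (by decide +kernel)
                  (CovZ.leaf K2_ok TF_l10801 _)
                  (CovZ.n1 (-1860, 26460) (by decide +kernel)
                   (CovZ.leaf K2_ok TF_l10802 _)
                   (CovZ.leaf K2_ok TF_l10803 _)))
                 (CovZ.n1 (-1880, 26400) (by decide +kernel)
                  (CovZ.n2 (-1900, 26420) (by decide +kernel)
                   (CovZ.leaf K2_ok TF_l10804 _)
                   (CovZ.leaf K2_ok TF_l10805 _))
                  (CovZ.leaf K2_ok TF_l2065 _))))
               (CovZ.leaf K2_ok TF_l2066 _))
              (CovZ.subM 1298094021674335473217022468292610 (by decide +kernel)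
               (CovZ.n1 (-1920, 26480) (by decide +kernel)
                (CovZ.n2 (-1880, 26520) (by decide +kernel)
                 (CovZ.n2 (-1880, 26480) (by decide +kernel)
                  (CovZ.n2 (-1900, 26500) (by decide +kernel)
                   (CovZ.n2 (-1880, 26500) (by decide +kernel)
                    (CovZ.leaf K2_ok TF_l10806 _)
                    (CovZ.badM (by decide +kernel)))
                   (CovZ.n1 (-1900, 26480) (by decide +kernel)
                    (CovZ.badM (by decide +kernel))
                    (CovZ.leaf K2_ok TF_l10807 _)))
                  (CovZ.leaf K2_ok TF_l10808 _))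
                 (CovZ.badM (by decide +kernel)))
                (CovZ.n1 (-1880, 26440) (by decide +kernel)
                 (CovZ.n2 (-1920, 26440) (by decide +kernel)
                  (CovZ.leaf K2_ok TF_l10809 _)
                  (CovZ.n1 (-1900, 26420) (by decide +kernel)
                   (CovZ.leaf K2_ok TF_l10810 _)
                   (CovZ.leaf K2_ok TF_l10811 _)))
                 (CovZ.n1 (-1880, 26480) (by decide +kernel)
                  (CovZ.n2 (-1860, 26460) (by decide +kernel)
                   (CovZ.leaf K2_ok TF_l10812 _)
                   (CovZ.leaf K2_ok TF_l10813 _))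
                  (CovZ.n1 (-1900, 26460) (by decide +kernel)
                   (CovZ.n2 (-1900, 26480) (by decide +kernel)
                    (CovZ.leaf K2_ok TF_l10814 _)
                    (CovZ.leaf K2_ok TF_l10815 _))
                   (CovZ.leaf K2_ok TF_l10816 _)))))))
             (CovZ.n1 (-1840, 26320) (by decide +kernel)
              (CovZ.n2 (-1920, 26320) (by decide +kernel)
               (CovZ.leaf K2_ok TF_l2067 _)
               (CovZ.n1 (-1880, 26280) (by decide +kernel)
                (CovZ.leaf K2_ok TF_l2068 _)
                (CovZ.leaf K2_ok TF_l2069 _)))
              (CovZ.n1 (-1840, 26400) (by decide +kernel)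
               (CovZ.n2 (-1800, 26360) (by decide +kernel)
                (CovZ.leaf K2_ok TF_l2070 _)
                (CovZ.leaf K2_ok TF_l2071 _))
               (CovZ.n1 (-1880, 26360) (by decide +kernel)
                (CovZ.n2 (-1880, 26400) (by decide +kernel)
                 (CovZ.leaf K2_ok TF_l2072 _)
                 (CovZ.leaf K2_ok TF_l10817 _))
                (CovZ.leaf K2_ok TF_l2073 _)))))
            (CovZ.n1 (-1760, 26560) (by decide +kernel)
             (CovZ.n2 (-1680, 26480) (by decide +kernel)
              (CovZ.n2 (-1760, 26480) (by decide +kernel)
               (CovZ.leaf K2_ok TF_l2074 _)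
               (CovZ.n1 (-1720, 26440) (by decide +kernel)
                (CovZ.leaf K2_ok TF_l2075 _)
                (CovZ.leaf K2_ok TF_l2076 _)))
              (CovZ.n1 (-1680, 26560) (by decide +kernel)
               (CovZ.leaf K2_ok TF_l2077 _)
               (CovZ.n1 (-1720, 26520) (by decide +kernel)
                (CovZ.leaf K2_ok TF_l2078 _)
                (CovZ.leaf K2_ok TF_l2079 _))))
             (CovZ.n1 (-1840, 26480) (by decide +kernel)
              (CovZ.subM 1298094021674335473217022468292610 (by decide +kernel)
               (CovZ.n2 (-1840, 26560) (by decide +kernel)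
                (CovZ.n2 (-1800, 26520) (by decide +kernel)
                 (CovZ.n2 (-1840, 26520) (by decide +kernel)
                  (CovZ.leaf K2_ok TF_l10818 _)
                  (CovZ.leaf K2_ok TF_l10819 _))
                 (CovZ.n1 (-1800, 26560) (by decide +kernel)
                  (CovZ.leaf K2_ok TF_l10820 _)
                  (CovZ.n1 (-1820, 26540) (by decide +kernel)
                   (CovZ.n2 (-1820, 26560) (by decide +kernel)
                    (CovZ.leaf K2_ok TF_l10821 _)
                    (CovZ.leaf K2_ok TF_l10822 _))
                   (CovZ.leaf K2_ok TF_l10823 _))))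
                (CovZ.n1 (-1880, 26520) (by decide +kernel)
                 (CovZ.badM (by decide +kernel))
                 (CovZ.n1 (-1840, 26520) (by decide +kernel)
                  (CovZ.n2 (-1860, 26500) (by decide +kernel)
                   (CovZ.n2 (-1860, 26520) (by decide +kernel)
                    (CovZ.leaf K2_ok TF_l10824 _)
                    (CovZ.leaf K2_ok TF_l10825 _))
                   (CovZ.leaf K2_ok TF_l10826 _))
                  (CovZ.n1 (-1860, 26540) (by decide +kernel)
                   (CovZ.leaf K2_ok TF_l10827 _)
                   (CovZ.leaf K2_ok TF_l10828 _))))))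
              (CovZ.n1 (-1760, 26480) (by decide +kernel)
               (CovZ.n2 (-1800, 26440) (by decide +kernel)
                (CovZ.n2 (-1800, 26480) (by decide +kernel)
                 (CovZ.leaf K2_ok TF_l2080 _)
                 (CovZ.leaf K2_ok TF_l2081 _))
                (CovZ.leaf K2_ok TF_l2082 _))
               (CovZ.subM 42836468889952956501460993102053378 (by decide +kernel)
                (CovZ.n1 (-1800, 26520) (by decide +kernel)
                 (CovZ.n2 (-1760, 26520) (by decide +kernel)
                  (CovZ.leaf K2_ok TF_l2083 _)
                  (CovZ.leaf K2_ok TF_l2084 _))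
                 (CovZ.n1 (-1800, 26480) (by decide +kernel)
                  (CovZ.leaf K2_ok TF_l2085 _)
                  (CovZ.leaf K2_ok TF_l2086 _))))))))))

theorem TF_u151 : CovZ TF_M (toL (selN TF_LN 89213870308853446832014701868267177389326338)) [0, 7, 4, 3] (-1600, 26560) (-1280, 26880) (-1920, 26880) :=
    (CovZ.n1 (-1600, 26880) (by decide +kernel)
          (CovZ.n2 (-1440, 26720) (by decide +kernel)
           (CovZ.n2 (-1600, 26720) (by decide +kernel)
            (CovZ.n2 (-1520, 26800) (by decide +kernel)
             (CovZ.n2 (-1520, 26720) (by decide +kernel)
              (CovZ.n2 (-1560, 26760) (by decide +kernel)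
               (CovZ.leaf K2_ok TF_l2087 _)
               (CovZ.leaf K2_ok TF_l2088 _))
              (CovZ.leaf K2_ok TF_l2089 _))
             (CovZ.n1 (-1600, 26800) (by decide +kernel)
              (CovZ.n2 (-1560, 26840) (by decide +kernel)
               (CovZ.leaf K2_ok TF_l10829 _)
               (CovZ.leaf K2_ok TF_l10830 _))
              (CovZ.n1 (-1560, 26760) (by decide +kernel)
               (CovZ.leaf K2_ok TF_l10831 _)
               (CovZ.n1 (-1560, 26800) (by decide +kernel)
                (CovZ.leaf K2_ok TF_l10832 _)
                (CovZ.leaf K2_ok TF_l10833 _)))))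
            (CovZ.n1 (-1520, 26640) (by decide +kernel)
             (CovZ.leaf K2_ok TF_l2090 _)
             (CovZ.n1 (-1520, 26720) (by decide +kernel)
              (CovZ.leaf K2_ok TF_l2091 _)
              (CovZ.leaf K2_ok TF_l2092 _))))
           (CovZ.n1 (-1440, 26880) (by decide +kernel)
            (CovZ.n2 (-1360, 26800) (by decide +kernel)
             (CovZ.leaf K2_ok TF_l2093 _)
             (CovZ.n1 (-1360, 26880) (by decide +kernel)
              (CovZ.leaf K2_ok TF_l2094 _)
              (CovZ.leaf K2_ok TF_l2095 _)))
            (CovZ.n1 (-1520, 26800) (by decide +kernel)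
             (CovZ.n2 (-1520, 26880) (by decide +kernel)
              (CovZ.n2 (-1480, 26840) (by decide +kernel)
               (CovZ.leaf K2_ok TF_l10834 _)
               (CovZ.leaf K2_ok TF_l10835 _))
              (CovZ.n1 (-1560, 26840) (by decide +kernel)
               (CovZ.n2 (-1560, 26880) (by decide +kernel)
                (CovZ.leaf K2_ok TF_l10836 _)
                (CovZ.n1 (-1580, 26860) (by decide +kernel)
                 (CovZ.leaf K2_ok TF_l10837 _)
                 (CovZ.leaf K2_ok TF_l10838 _)))
               (CovZ.n1 (-1520, 26840) (by decide +kernel)
                (CovZ.leaf K2_ok TF_l10839 _)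
                (CovZ.leaf K2_ok TF_l10840 _))))
             (CovZ.n1 (-1440, 26800) (by decide +kernel)
              (CovZ.leaf K2_ok TF_l2096 _)
              (CovZ.n1 (-1480, 26840) (by decide +kernel)
               (CovZ.leaf K2_ok TF_l2097 _)
               (CovZ.leaf K2_ok TF_l2098 _))))))
          (CovZ.subM 89202980857728148890235149329548461297631234 (by decide +kernel)
           (CovZ.n1 (-1760, 26720) (by decide +kernel)
            (CovZ.badM (by decide +kernel))
            (CovZ.n1 (-1600, 26720) (by decide +kernel)
             (CovZ.n2 (-1680, 26640) (by decide +kernel)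
              (CovZ.n2 (-1680, 26720) (by decide +kernel)
               (CovZ.n2 (-1640, 26680) (by decide +kernel)
                (CovZ.leaf K2_ok TF_l10841 _)
                (CovZ.n1 (-1640, 26720) (by decide +kernel)
                 (CovZ.leaf K2_ok TF_l10842 _)
                 (CovZ.leaf K2_ok TF_l10843 _)))
               (CovZ.subM 1298094021674335473217022468292610 (by decide +kernel)
                (CovZ.n1 (-1720, 26680) (by decide +kernel)
                 (CovZ.n2 (-1720, 26720) (by decide +kernel)
                  (CovZ.n2 (-1700, 26700) (by decide +kernel)
                   (CovZ.leaf K2_ok TF_l10844 _)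
                   (CovZ.leaf K2_ok TF_l10845 _))
                  (CovZ.n1 (-1740, 26700) (by decide +kernel)
                   (CovZ.badM (by decide +kernel))
                   (CovZ.n1 (-1720, 26700) (by decide +kernel)
                    (CovZ.leaf K2_ok TF_l10846 _)
                    (CovZ.badM (by decide +kernel)))))
                 (CovZ.n1 (-1680, 26680) (by decide +kernel)
                  (CovZ.leaf K2_ok TF_l10847 _)
                  (CovZ.n1 (-1700, 26700) (by decide +kernel)
                   (CovZ.leaf K2_ok TF_l10848 _)
                   (CovZ.leaf K2_ok TF_l10849 _))))))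
              (CovZ.n1 (-1600, 26640) (by decide +kernel)
               (CovZ.n2 (-1640, 26600) (by decide +kernel)
                (CovZ.leaf K2_ok TF_l2099 _)
                (CovZ.leaf K2_ok TF_l2100 _))
               (CovZ.n1 (-1640, 26680) (by decide +kernel)
                (CovZ.leaf K2_ok TF_l2101 _)
                (CovZ.leaf K2_ok TF_l2102 _))))
             (CovZ.n1 (-1680, 26800) (by decide +kernel)
              (CovZ.n2 (-1600, 26800) (by decide +kernel)
               (CovZ.n2 (-1640, 26760) (by decide +kernel)
                (CovZ.n2 (-1640, 26800) (by decide +kernel)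
                 (CovZ.leaf K2_ok TF_l10850 _)
                 (CovZ.n1 (-1660, 26780) (by decide +kernel)
                  (CovZ.badM (by decide +kernel))
                  (CovZ.leaf K2_ok TF_l10851 _)))
                (CovZ.n1 (-1600, 26760) (by decide +kernel)
                 (CovZ.leaf K2_ok TF_l10852 _)
                 (CovZ.leaf K2_ok TF_l10853 _)))
               (CovZ.subM 1298094021674344696589059323068418 (by decide +kernel)
                (CovZ.n1 (-1640, 26840) (by decide +kernel)
                 (CovZ.n2 (-1600, 26840) (by decide +kernel)
                  (CovZ.n2 (-1620, 26820) (by decide +kernel)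
                   (CovZ.badM (by decide +kernel))
                   (CovZ.leaf K2_ok TF_l10854 _))
                  (CovZ.badM (by decide +kernel)))
                 (CovZ.n1 (-1640, 26800) (by decide +kernel)
                  (CovZ.badM (by decide +kernel))
                  (CovZ.leaf K2_ok TF_l10855 _)))))
              (CovZ.n1 (-1680, 26720) (by decide +kernel)
               (CovZ.subM 1298094021674335473217022468292610 (by decide +kernel)
                (CovZ.n2 (-1720, 26760) (by decide +kernel)
                 (CovZ.n2 (-1680, 26760) (by decide +kernel)
                  (CovZ.n2 (-1700, 26740) (by decide +kernel)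
                   (CovZ.badM (by decide +kernel))
                   (CovZ.leaf K2_ok TF_l10856 _))
                  (CovZ.badM (by decide +kernel)))
                 (CovZ.n1 (-1720, 26720) (by decide +kernel)
                  (CovZ.badM (by decide +kernel))
                  (CovZ.leaf K2_ok TF_l10857 _))))
               (CovZ.n1 (-1640, 26760) (by decide +kernel)
                (CovZ.n2 (-1640, 26720) (by decide +kernel)
                 (CovZ.n2 (-1660, 26740) (by decide +kernel)
                  (CovZ.leaf K2_ok TF_l10858 _)
                  (CovZ.leaf K2_ok TF_l10859 _))
                 (CovZ.leaf K2_ok TF_l10860 _))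
                (CovZ.n1 (-1680, 26760) (by decide +kernel)
                 (CovZ.leaf K2_ok TF_l10861 _)
                 (CovZ.n1 (-1660, 26740) (by decide +kernel)
                  (CovZ.leaf K2_ok TF_l10862 _)
                  (CovZ.leaf K2_ok TF_l10863 _))))))))))

theorem TF_u152 : CovZ TF_M (toL (selN TF_LN 89213870308854080662151109630772160421167122)) [0, 7, 4, 3] (-1280, 26880) (-960, 27200) (-1280, 27520) :=
    (CovZ.subM 89213870225776617867295526621287339312283666 (by decide +kernel)
         (CovZ.n2 (-1280, 27200) (by decide +kernel)
          (CovZ.n2 (-1120, 27360) (by decide +kernel)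
           (CovZ.n2 (-1120, 27200) (by decide +kernel)
            (CovZ.n2 (-1200, 27280) (by decide +kernel)
             (CovZ.n2 (-1120, 27280) (by decide +kernel)
              (CovZ.n2 (-1160, 27240) (by decide +kernel)
               (CovZ.n2 (-1160, 27280) (by decide +kernel)
                (CovZ.leaf K2_ok TF_l2124 _)
                (CovZ.leaf K2_ok TF_l2125 _))
               (CovZ.leaf K2_ok TF_l2126 _))
              (CovZ.n1 (-1160, 27320) (by decide +kernel)
               (CovZ.leaf K2_ok TF_l2127 _)
               (CovZ.leaf K2_ok TF_l2128 _)))
             (CovZ.n1 (-1200, 27200) (by decide +kernel)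
              (CovZ.n2 (-1240, 27240) (by decide +kernel)
               (CovZ.n2 (-1200, 27240) (by decide +kernel)
                (CovZ.leaf K2_ok TF_l2129 _)
                (CovZ.leaf K2_ok TF_l2130 _))
               (CovZ.n1 (-1240, 27200) (by decide +kernel)
                (CovZ.leaf K2_ok TF_l2131 _)
                (CovZ.leaf K2_ok TF_l2132 _)))
              (CovZ.leaf K2_ok TF_l2133 _)))
            (CovZ.n1 (-1040, 27280) (by decide +kernel)
             (CovZ.leaf K2_ok TF_l2134 _)
             (CovZ.n1 (-1120, 27280) (by decide +kernel)
              (CovZ.leaf K2_ok TF_l2135 _)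
              (CovZ.leaf K2_ok TF_l2136 _))))
           (CovZ.n1 (-1280, 27360) (by decide +kernel)
            (CovZ.n2 (-1200, 27440) (by decide +kernel)
             (CovZ.n2 (-1200, 27360) (by decide +kernel)
              (CovZ.subM 89202980794122492566142873090593446023921664 (by decide +kernel)
               (CovZ.n2 (-1240, 27400) (by decide +kernel)
                (CovZ.n2 (-1200, 27400) (by decide +kernel)
                 (CovZ.n2 (-1220, 27380) (by decide +kernel)
                  (CovZ.badM (by decide +kernel))
                  (CovZ.n1 (-1200, 27380) (by decide +kernel)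
                   (CovZ.leaf K2_ok TF_l15807 _)
                   (CovZ.badM (by decide +kernel))))
                 (CovZ.badM (by decide +kernel)))
                (CovZ.n1 (-1240, 27360) (by decide +kernel)
                 (CovZ.badM (by decide +kernel))
                 (CovZ.n1 (-1220, 27380) (by decide +kernel)
                  (CovZ.leaf K2_ok TF_l15808 _)
                  (CovZ.badM (by decide +kernel))))))
              (CovZ.n1 (-1160, 27400) (by decide +kernel)
               (CovZ.n2 (-1160, 27360) (by decide +kernel)
                (CovZ.n2 (-1180, 27380) (by decide +kernel)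
                 (CovZ.leaf K2_ok TF_l10920 _)
                 (CovZ.leaf K2_ok TF_l10921 _))
                (CovZ.leaf K2_ok TF_l2137 _))
               (CovZ.subM 89202981147198678946511151830667196410888194 (by decide +kernel)
                (CovZ.n1 (-1200, 27400) (by decide +kernel)
                 (CovZ.leaf K2_ok TF_l10922 _)
                 (CovZ.n1 (-1180, 27380) (by decide +kernel)
                  (CovZ.leaf K2_ok TF_l10923 _)
                  (CovZ.n1 (-1180, 27400) (by decide +kernel)
                   (CovZ.leaf K2_ok TF_l10924 _)
                   (CovZ.leaf K2_ok TF_l10925 _)))))))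
             (CovZ.badM (by decide +kernel)))
            (CovZ.n1 (-1200, 27280) (by decide +kernel)
             (CovZ.subM 89202981190035128029423479770547390754324482 (by decide +kernel)
              (CovZ.n2 (-1280, 27280) (by decide +kernel)
               (CovZ.n2 (-1240, 27320) (by decide +kernel)
                (CovZ.n2 (-1240, 27280) (by decide +kernel)
                 (CovZ.n2 (-1260, 27300) (by decide +kernel)
                  (CovZ.leaf K2_ok TF_l10926 _)
                  (CovZ.leaf K2_ok TF_l10927 _))
                 (CovZ.leaf K2_ok TF_l10928 _))
                (CovZ.badM (by decide +kernel)))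
               (CovZ.n1 (-1240, 27240) (by decide +kernel)
                (CovZ.n2 (-1280, 27240) (by decide +kernel)
                 (CovZ.leaf K2_ok TF_l10929 _)
                 (CovZ.leaf K2_ok TF_l10930 _))
                (CovZ.n1 (-1240, 27280) (by decide +kernel)
                 (CovZ.leaf K2_ok TF_l10931 _)
                 (CovZ.n1 (-1260, 27260) (by decide +kernel)
                  (CovZ.leaf K2_ok TF_l10932 _)
                  (CovZ.leaf K2_ok TF_l10933 _))))))
             (CovZ.n1 (-1200, 27360) (by decide +kernel)
              (CovZ.n2 (-1160, 27320) (by decide +kernel)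
               (CovZ.leaf K2_ok TF_l2138 _)
               (CovZ.n1 (-1160, 27360) (by decide +kernel)
                (CovZ.leaf K2_ok TF_l2139 _)
                (CovZ.leaf K2_ok TF_l2140 _)))
              (CovZ.subM 89202981190035128029423479770547390754324482 (by decide +kernel)
               (CovZ.n1 (-1240, 27320) (by decide +kernel)
                (CovZ.subM 89202980794122492566142873090593446023921664 (by decide +kernel)
                 (CovZ.n2 (-1240, 27360) (by decide +kernel)
                  (CovZ.n2 (-1220, 27340) (by decide +kernel)
                   (CovZ.badM (by decide +kernel))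
                   (CovZ.n1 (-1220, 27360) (by decide +kernel)
                    (CovZ.leaf K2_ok TF_l15809 _)
                    (CovZ.badM (by decide +kernel))))
                  (CovZ.badM (by decide +kernel))))
                (CovZ.n1 (-1200, 27320) (by decide +kernel)
                 (CovZ.leaf K2_ok TF_l10934 _)
                 (CovZ.n1 (-1220, 27340) (by decide +kernel)
                  (CovZ.leaf K2_ok TF_l10935 _)
                  (CovZ.leaf K2_ok TF_l10936 _)))))))))
          (CovZ.n1 (-1120, 27040) (by decide +kernel)
           (CovZ.n2 (-1280, 27040) (by decide +kernel)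
            (CovZ.n2 (-1200, 27120) (by decide +kernel)
             (CovZ.n2 (-1200, 27040) (by decide +kernel)
              (CovZ.n2 (-1240, 27080) (by decide +kernel)
               (CovZ.leaf K2_ok TF_l2141 _)
               (CovZ.leaf K2_ok TF_l2142 _))
              (CovZ.leaf K2_ok TF_l2143 _))
             (CovZ.n1 (-1280, 27120) (by decide +kernel)
              (CovZ.leaf K2_ok TF_l2144 _)
              (CovZ.n1 (-1240, 27080) (by decide +kernel)
               (CovZ.leaf K2_ok TF_l2145 _)
               (CovZ.leaf K2_ok TF_l2146 _))))
            (CovZ.n1 (-1200, 26960) (by decide +kernel)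
             (CovZ.leaf K2_ok TF_l2147 _)
             (CovZ.n1 (-1200, 27040) (by decide +kernel)
              (CovZ.leaf K2_ok TF_l2148 _)
              (CovZ.leaf K2_ok TF_l2149 _))))
           (CovZ.n1 (-1120, 27200) (by decide +kernel)
            (CovZ.n2 (-1040, 27120) (by decide +kernel)
             (CovZ.leaf K2_ok TF_l2150 _)
             (CovZ.n1 (-1040, 27200) (by decide +kernel)
              (CovZ.leaf K2_ok TF_l2151 _)
              (CovZ.leaf K2_ok TF_l2152 _)))
            (CovZ.n1 (-1200, 27120) (by decide +kernel)
             (CovZ.n2 (-1200, 27200) (by decide +kernel)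
              (CovZ.leaf K2_ok TF_l2153 _)
              (CovZ.n1 (-1240, 27160) (by decide +kernel)
               (CovZ.n2 (-1240, 27200) (by decide +kernel)
                (CovZ.leaf K2_ok TF_l2154 _)
                (CovZ.leaf K2_ok TF_l2155 _))
               (CovZ.leaf K2_ok TF_l2156 _)))
             (CovZ.n1 (-1120, 27120) (by decide +kernel)
              (CovZ.leaf K2_ok TF_l2157 _)
              (CovZ.leaf K2_ok TF_l2158 _)))))))

theorem TF_u153 : CovZ TF_M (toL (selN TF_LN 89213870308854080662151109630772160421167122)) [0, 7, 4, 3] (-960, 27200) (-640, 27520) (-1280, 27520) :=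
    (CovZ.n1 (-960, 27520) (by decide +kernel)
         (CovZ.n2 (-800, 27360) (by decide +kernel)
          (CovZ.n2 (-960, 27360) (by decide +kernel)
           (CovZ.leaf K2_ok TF_l2159 _)
           (CovZ.n1 (-880, 27280) (by decide +kernel)
            (CovZ.leaf K2_ok TF_l2160 _)
            (CovZ.leaf K2_ok TF_l2161 _)))
          (CovZ.n1 (-800, 27520) (by decide +kernel)
           (CovZ.n2 (-720, 27440) (by decide +kernel)
            (CovZ.leaf K2_ok TF_l2162 _)
            (CovZ.leaf K2_ok TF_l2163 _))
           (CovZ.n1 (-880, 27440) (by decide +kernel)
            (CovZ.n2 (-880, 27520) (by decide +kernel)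
             (CovZ.leaf K2_ok TF_l2164 _)
             (CovZ.leaf K2_ok TF_l2165 _))
            (CovZ.leaf K2_ok TF_l2166 _))))
         (CovZ.subM 89213870225776617867295526621287339312283666 (by decide +kernel)
          (CovZ.n1 (-1120, 27360) (by decide +kernel)
           (CovZ.n2 (-1120, 27520) (by decide +kernel)
            (CovZ.n2 (-1040, 27440) (by decide +kernel)
             (CovZ.n2 (-1120, 27440) (by decide +kernel)
              (CovZ.n2 (-1080, 27480) (by decide +kernel)
               (CovZ.n2 (-1080, 27440) (by decide +kernel)
                (CovZ.n2 (-1100, 27460) (by decide +kernel)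
                 (CovZ.leaf K2_ok TF_l10937 _)
                 (CovZ.leaf K2_ok TF_l10938 _))
                (CovZ.leaf K2_ok TF_l2167 _))
               (CovZ.n1 (-1120, 27480) (by decide +kernel)
                (CovZ.leaf K2_ok TF_l10939 _)
                (CovZ.n1 (-1100, 27460) (by decide +kernel)
                 (CovZ.leaf K2_ok TF_l10940 _)
                 (CovZ.leaf K2_ok TF_l10941 _))))
              (CovZ.n1 (-1080, 27400) (by decide +kernel)
               (CovZ.leaf K2_ok TF_l2168 _)
               (CovZ.n1 (-1080, 27440) (by decide +kernel)
                (CovZ.leaf K2_ok TF_l2169 _)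
                (CovZ.leaf K2_ok TF_l2170 _))))
             (CovZ.n1 (-1040, 27520) (by decide +kernel)
              (CovZ.n2 (-1000, 27480) (by decide +kernel)
               (CovZ.leaf K2_ok TF_l2171 _)
               (CovZ.n1 (-1000, 27520) (by decide +kernel)
                (CovZ.leaf K2_ok TF_l2172 _)
                (CovZ.leaf K2_ok TF_l2173 _)))
              (CovZ.n1 (-1080, 27480) (by decide +kernel)
               (CovZ.subM 10889431654105494111434667391761313169410 (by decide +kernel)
                (CovZ.n2 (-1080, 27520) (by decide +kernel)
                 (CovZ.n2 (-1060, 27500) (by decide +kernel)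
                  (CovZ.leaf K2_ok TF_l10942 _)
                  (CovZ.leaf K2_ok TF_l10943 _))
                 (CovZ.n1 (-1100, 27500) (by decide +kernel)
                  (CovZ.n2 (-1100, 27520) (by decide +kernel)
                   (CovZ.leaf K2_ok TF_l10944 _)
                   (CovZ.leaf K2_ok TF_l10945 _))
                  (CovZ.leaf K2_ok TF_l10946 _))))
               (CovZ.n1 (-1040, 27480) (by decide +kernel)
                (CovZ.leaf K2_ok TF_l2174 _)
                (CovZ.n1 (-1060, 27500) (by decide +kernel)
                 (CovZ.leaf K2_ok TF_l10947 _)
                 (CovZ.leaf K2_ok TF_l10948 _))))))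
            (CovZ.n1 (-1200, 27440) (by decide +kernel)
             (CovZ.badM (by decide +kernel))
             (CovZ.n1 (-1120, 27440) (by decide +kernel)
              (CovZ.n2 (-1160, 27400) (by decide +kernel)
               (CovZ.subM 89202981188737053814789772858911167044648962 (by decide +kernel)
                (CovZ.n2 (-1160, 27440) (by decide +kernel)
                 (CovZ.n2 (-1140, 27420) (by decide +kernel)
                  (CovZ.leaf K2_ok TF_l10949 _)
                  (CovZ.leaf K2_ok TF_l10950 _))
                 (CovZ.n1 (-1180, 27420) (by decide +kernel)
                  (CovZ.n2 (-1180, 27440) (by decide +kernel)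
                   (CovZ.leaf K2_ok TF_l10951 _)
                   (CovZ.badM (by decide +kernel)))
                  (CovZ.n1 (-1160, 27420) (by decide +kernel)
                   (CovZ.leaf K2_ok TF_l10952 _)
                   (CovZ.leaf K2_ok TF_l10953 _)))))
               (CovZ.n1 (-1120, 27400) (by decide +kernel)
                (CovZ.leaf K2_ok TF_l2175 _)
                (CovZ.n1 (-1140, 27420) (by decide +kernel)
                 (CovZ.leaf K2_ok TF_l10954 _)
                 (CovZ.leaf K2_ok TF_l10955 _))))
              (CovZ.subM 89202981188737053814789772858911167044648962 (by decide +kernel)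
               (CovZ.n1 (-1160, 27480) (by decide +kernel)
                (CovZ.n2 (-1120, 27480) (by decide +kernel)
                 (CovZ.n2 (-1140, 27460) (by decide +kernel)
                  (CovZ.n2 (-1140, 27480) (by decide +kernel)
                   (CovZ.leaf K2_ok TF_l10956 _)
                   (CovZ.leaf K2_ok TF_l10957 _))
                  (CovZ.n1 (-1120, 27460) (by decide +kernel)
                   (CovZ.leaf K2_ok TF_l10958 _)
                   (CovZ.leaf K2_ok TF_l10959 _)))
                 (CovZ.n1 (-1140, 27500) (by decide +kernel)
                  (CovZ.n2 (-1120, 27500) (by decide +kernel)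
                   (CovZ.leaf K2_ok TF_l10960 _)
                   (CovZ.badM (by decide +kernel)))
                  (CovZ.n1 (-1140, 27480) (by decide +kernel)
                   (CovZ.badM (by decide +kernel))
                   (CovZ.leaf K2_ok TF_l10961 _))))
                (CovZ.n1 (-1160, 27440) (by decide +kernel)
                 (CovZ.n2 (-1180, 27460) (by decide +kernel)
                  (CovZ.n2 (-1160, 27460) (by decide +kernel)
                   (CovZ.leaf K2_ok TF_l10962 _)
                   (CovZ.badM (by decide +kernel)))
                  (CovZ.n1 (-1180, 27440) (by decide +kernel)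
                   (CovZ.badM (by decide +kernel))
                   (CovZ.leaf K2_ok TF_l10963 _)))
                 (CovZ.n1 (-1140, 27460) (by decide +kernel)
                  (CovZ.leaf K2_ok TF_l10964 _)
                  (CovZ.leaf K2_ok TF_l10965 _))))))))
           (CovZ.n1 (-960, 27360) (by decide +kernel)
            (CovZ.n2 (-1040, 27280) (by decide +kernel)
             (CovZ.n2 (-1040, 27360) (by decide +kernel)
              (CovZ.leaf K2_ok TF_l2176 _)
              (CovZ.n1 (-1080, 27320) (by decide +kernel)
               (CovZ.leaf K2_ok TF_l2177 _)
               (CovZ.leaf K2_ok TF_l2178 _)))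
             (CovZ.n1 (-960, 27280) (by decide +kernel)
              (CovZ.leaf K2_ok TF_l2179 _)
              (CovZ.leaf K2_ok TF_l2180 _)))
            (CovZ.n1 (-1040, 27440) (by decide +kernel)
             (CovZ.n2 (-960, 27440) (by decide +kernel)
              (CovZ.leaf K2_ok TF_l2181 _)
              (CovZ.n1 (-1000, 27480) (by decide +kernel)
               (CovZ.leaf K2_ok TF_l2182 _)
               (CovZ.leaf K2_ok TF_l2183 _)))
             (CovZ.n1 (-1040, 27360) (by decide +kernel)
              (CovZ.n2 (-1080, 27400) (by decide +kernel)
               (CovZ.leaf K2_ok TF_l2184 _)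
               (CovZ.leaf K2_ok TF_l2185 _))
              (CovZ.leaf K2_ok TF_l2186 _)))))))

theorem TF_u154 : CovZ TF_M (toL (selN TF_LN 89213870308854080662151109630772160421167122)) [0, 7, 4, 3] (-1280, 26880) (-640, 27520) (-1280, 28160) :=
    (CovZ.n2 (-1280, 27520) (by decide +kernel)
       (CovZ.subM 10889431654759126452767717452235677892626 (by decide +kernel)
        (CovZ.n2 (-960, 27840) (by decide +kernel)
         (CovZ.n2 (-960, 27520) (by decide +kernel)
          (CovZ.n2 (-1120, 27680) (by decide +kernel)
           (CovZ.n2 (-960, 27680) (by decide +kernel)
            (CovZ.n2 (-1040, 27600) (by decide +kernel)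
             (CovZ.subM 10889077280478724410153427318794180624384 (by decide +kernel)
              (CovZ.n2 (-1040, 27680) (by decide +kernel)
               (CovZ.n2 (-1000, 27640) (by decide +kernel)
                (CovZ.n2 (-1040, 27640) (by decide +kernel)
                 (CovZ.n2 (-1020, 27660) (by decide +kernel)
                  (CovZ.n2 (-1020, 27640) (by decide +kernel)
                   (CovZ.badM (by decide +kernel))
                   (CovZ.leaf K2_ok TF_l10864 _))
                  (CovZ.badM (by decide +kernel)))
                 (CovZ.n1 (-1020, 27620) (by decide +kernel)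
                  (CovZ.badM (by decide +kernel))
                  (CovZ.n1 (-1020, 27640) (by decide +kernel)
                   (CovZ.leaf K2_ok TF_l10865 _)
                   (CovZ.badM (by decide +kernel)))))
                (CovZ.n1 (-1000, 27680) (by decide +kernel)
                 (CovZ.n2 (-980, 27660) (by decide +kernel)
                  (CovZ.leaf K2_ok TF_l10866 _)
                  (CovZ.n1 (-980, 27680) (by decide +kernel)
                   (CovZ.leaf K2_ok TF_l10867 _)
                   (CovZ.leaf K2_ok TF_l10868 _)))
                 (CovZ.n1 (-1020, 27660) (by decide +kernel)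
                  (CovZ.badM (by decide +kernel))
                  (CovZ.n1 (-1000, 27660) (by decide +kernel)
                   (CovZ.leaf K2_ok TF_l10869 _)
                   (CovZ.badM (by decide +kernel))))))
               (CovZ.badM (by decide +kernel))))
             (CovZ.n1 (-960, 27600) (by decide +kernel)
              (CovZ.n2 (-1000, 27560) (by decide +kernel)
               (CovZ.n2 (-1000, 27600) (by decide +kernel)
                (CovZ.n2 (-980, 27580) (by decide +kernel)
                 (CovZ.leaf K2_ok TF_l10870 _)
                 (CovZ.leaf K2_ok TF_l10871 _))
                (CovZ.n1 (-1020, 27580) (by decide +kernel)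
                 (CovZ.n2 (-1020, 27600) (by decide +kernel)
                  (CovZ.leaf K2_ok TF_l10872 _)
                  (CovZ.leaf K2_ok TF_l10873 _))
                 (CovZ.leaf K2_ok TF_l10874 _)))
               (CovZ.n1 (-960, 27560) (by decide +kernel)
                (CovZ.leaf K2_ok TF_l2103 _)
                (CovZ.n1 (-980, 27580) (by decide +kernel)
                 (CovZ.leaf K2_ok TF_l10875 _)
                 (CovZ.leaf K2_ok TF_l10876 _))))
              (CovZ.n1 (-1000, 27640) (by decide +kernel)
               (CovZ.n2 (-960, 27640) (by decide +kernel)
                (CovZ.n2 (-980, 27620) (by decide +kernel)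
                 (CovZ.leaf K2_ok TF_l10877 _)
                 (CovZ.leaf K2_ok TF_l10878 _))
                (CovZ.n1 (-980, 27660) (by decide +kernel)
                 (CovZ.leaf K2_ok TF_l10879 _)
                 (CovZ.leaf K2_ok TF_l10880 _)))
               (CovZ.subM 10889410884918059972714450206034608783362 (by decide +kernel)
                (CovZ.n1 (-1000, 27600) (by decide +kernel)
                 (CovZ.n2 (-1020, 27620) (by decide +kernel)
                  (CovZ.n2 (-1000, 27620) (by decide +kernel)
                   (CovZ.leaf K2_ok TF_l10881 _)
                   (CovZ.leaf K2_ok TF_l10882 _))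
                  (CovZ.n1 (-1020, 27600) (by decide +kernel)
                   (CovZ.leaf K2_ok TF_l10883 _)
                   (CovZ.leaf K2_ok TF_l10884 _)))
                 (CovZ.leaf K2_ok TF_l10885 _))))))
            (CovZ.subM 10889077280478724410153427318794180624384 (by decide +kernel)
             (CovZ.n1 (-1040, 27760) (by decide +kernel)
              (CovZ.n2 (-960, 27760) (by decide +kernel)
               (CovZ.n2 (-1000, 27720) (by decide +kernel)
                (CovZ.n2 (-1000, 27760) (by decide +kernel)
                 (CovZ.n2 (-980, 27740) (by decide +kernel)
                  (CovZ.badM (by decide +kernel))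
                  (CovZ.n1 (-980, 27760) (by decide +kernel)
                   (CovZ.leaf K2_ok TF_l10886 _)
                   (CovZ.badM (by decide +kernel))))
                 (CovZ.badM (by decide +kernel)))
                (CovZ.n1 (-960, 27720) (by decide +kernel)
                 (CovZ.n2 (-980, 27700) (by decide +kernel)
                  (CovZ.n2 (-980, 27720) (by decide +kernel)
                   (CovZ.leaf K2_ok TF_l10887 _)
                   (CovZ.badM (by decide +kernel)))
                  (CovZ.leaf K2_ok TF_l10888 _))
                 (CovZ.n1 (-980, 27740) (by decide +kernel)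
                  (CovZ.n2 (-960, 27740) (by decide +kernel)
                   (CovZ.leaf K2_ok TF_l10889 _)
                   (CovZ.leaf K2_ok TF_l10890 _))
                  (CovZ.n1 (-980, 27720) (by decide +kernel)
                   (CovZ.badM (by decide +kernel))
                   (CovZ.leaf K2_ok TF_l10891 _)))))
               (CovZ.n1 (-1000, 27800) (by decide +kernel)
                (CovZ.n2 (-960, 27800) (by decide +kernel)
                 (CovZ.n2 (-980, 27780) (by decide +kernel)
                  (CovZ.n2 (-980, 27800) (by decide +kernel)
                   (CovZ.leaf K2_ok TF_l10892 _)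
                   (CovZ.badM (by decide +kernel)))
                  (CovZ.leaf K2_ok TF_l10893 _))
                 (CovZ.n1 (-980, 27820) (by decide +kernel)
                  (CovZ.n2 (-960, 27820) (by decide +kernel)
                   (CovZ.leaf K2_ok TF_l10894 _)
                   (CovZ.leaf K2_ok TF_l10895 _))
                  (CovZ.n1 (-980, 27800) (by decide +kernel)
                   (CovZ.badM (by decide +kernel))
                   (CovZ.leaf K2_ok TF_l10896 _))))
                (CovZ.n1 (-1000, 27760) (by decide +kernel)
                 (CovZ.badM (by decide +kernel))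
                 (CovZ.n1 (-980, 27780) (by decide +kernel)
                  (CovZ.n2 (-980, 27760) (by decide +kernel)
                   (CovZ.badM (by decide +kernel))
                   (CovZ.leaf K2_ok TF_l10897 _))
                  (CovZ.badM (by decide +kernel))))))
              (CovZ.n1 (-1040, 27680) (by decide +kernel)
               (CovZ.badM (by decide +kernel))
               (CovZ.n1 (-1000, 27720) (by decide +kernel)
                (CovZ.n2 (-1000, 27680) (by decide +kernel)
                 (CovZ.badM (by decide +kernel))
                 (CovZ.leaf K2_ok TF_l10898 _))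
                (CovZ.badM (by decide +kernel)))))))
           (CovZ.n1 (-1120, 27520) (by decide +kernel)
            (CovZ.badM (by decide +kernel))
            (CovZ.n1 (-1040, 27600) (by decide +kernel)
             (CovZ.n2 (-1040, 27520) (by decide +kernel)
              (CovZ.subM 10889431654105494111434667391761313169410 (by decide +kernel)
               (CovZ.n2 (-1080, 27560) (by decide +kernel)
                (CovZ.n2 (-1040, 27560) (by decide +kernel)
                 (CovZ.n2 (-1060, 27540) (by decide +kernel)
                  (CovZ.n2 (-1060, 27560) (by decide +kernel)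
                   (CovZ.leaf K2_ok TF_l10899 _)
                   (CovZ.leaf K2_ok TF_l10900 _))
                  (CovZ.leaf K2_ok TF_l10901 _))
                 (CovZ.subM 10889409586843845338417241633552286613506 (by decide +kernel)
                  (CovZ.n1 (-1060, 27580) (by decide +kernel)
                   (CovZ.n2 (-1040, 27580) (by decide +kernel)
                    (CovZ.leaf K2_ok TF_l10902 _)
                    (CovZ.badM (by decide +kernel)))
                   (CovZ.n1 (-1060, 27560) (by decide +kernel)
                    (CovZ.badM (by decide +kernel))
                    (CovZ.leaf K2_ok TF_l10903 _)))))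
                (CovZ.n1 (-1080, 27520) (by decide +kernel)
                 (CovZ.subM 353076186380368278740073750386966528 (by decide +kernel)
                  (CovZ.n2 (-1100, 27540) (by decide +kernel)
                   (CovZ.n2 (-1080, 27540) (by decide +kernel)
                    (CovZ.leaf K2_ok TF_l10904 _)
                    (CovZ.badM (by decide +kernel)))
                   (CovZ.n1 (-1100, 27520) (by decide +kernel)
                    (CovZ.badM (by decide +kernel))
                    (CovZ.leaf K2_ok TF_l10905 _))))
                 (CovZ.leaf K2_ok TF_l10906 _))))
              (CovZ.n1 (-1000, 27560) (by decide +kernel)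
               (CovZ.n2 (-1000, 27520) (by decide +kernel)
                (CovZ.n2 (-1020, 27540) (by decide +kernel)
                 (CovZ.leaf K2_ok TF_l10907 _)
                 (CovZ.leaf K2_ok TF_l10908 _))
                (CovZ.leaf K2_ok TF_l2104 _))
               (CovZ.n1 (-1040, 27560) (by decide +kernel)
                (CovZ.leaf K2_ok TF_l10909 _)
                (CovZ.n1 (-1020, 27540) (by decide +kernel)
                 (CovZ.leaf K2_ok TF_l10910 _)
                 (CovZ.leaf K2_ok TF_l10911 _)))))
             (CovZ.badM (by decide +kernel)))))
          (CovZ.n1 (-800, 27680) (by decide +kernel)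
           (CovZ.n2 (-800, 27520) (by decide +kernel)
            (CovZ.n2 (-880, 27600) (by decide +kernel)
             (CovZ.n2 (-800, 27600) (by decide +kernel)
              (CovZ.leaf K2_ok TF_l2105 _)
              (CovZ.leaf K2_ok TF_l2106 _))
             (CovZ.n1 (-880, 27520) (by decide +kernel)
              (CovZ.n2 (-920, 27560) (by decide +kernel)
               (CovZ.leaf K2_ok TF_l2107 _)
               (CovZ.leaf K2_ok TF_l2108 _))
              (CovZ.leaf K2_ok TF_l2109 _)))
            (CovZ.leaf K2_ok TF_l2110 _))
           (CovZ.n1 (-960, 27680) (by decide +kernel)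
            (CovZ.n2 (-880, 27760) (by decide +kernel)
             (CovZ.n2 (-880, 27680) (by decide +kernel)
              (CovZ.n2 (-920, 27720) (by decide +kernel)
               (CovZ.leaf K2_ok TF_l2111 _)
               (CovZ.leaf K2_ok TF_l2112 _))
              (CovZ.leaf K2_ok TF_l2113 _))
             (CovZ.subM 10889077280478724410153499376388218552322 (by decide +kernel)
              (CovZ.n1 (-960, 27760) (by decide +kernel)
               (CovZ.n2 (-920, 27800) (by decide +kernel)
                (CovZ.n2 (-920, 27760) (by decide +kernel)
                 (CovZ.n2 (-940, 27780) (by decide +kernel)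
                  (CovZ.leaf K2_ok TF_l10912 _)
                  (CovZ.leaf K2_ok TF_l10913 _))
                 (CovZ.leaf K2_ok TF_l2114 _))
                (CovZ.n1 (-960, 27800) (by decide +kernel)
                 (CovZ.leaf K2_ok TF_l10914 _)
                 (CovZ.n1 (-940, 27780) (by decide +kernel)
                  (CovZ.leaf K2_ok TF_l10915 _)
                  (CovZ.leaf K2_ok TF_l10916 _))))
               (CovZ.n1 (-920, 27720) (by decide +kernel)
                (CovZ.leaf K2_ok TF_l10917 _)
                (CovZ.n1 (-920, 27760) (by decide +kernel)
                 (CovZ.leaf K2_ok TF_l2115 _)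
                 (CovZ.n1 (-940, 27740) (by decide +kernel)
                  (CovZ.leaf K2_ok TF_l10918 _)
                  (CovZ.leaf K2_ok TF_l10919 _)))))))
            (CovZ.n1 (-880, 27600) (by decide +kernel)
             (CovZ.n2 (-960, 27600) (by decide +kernel)
              (CovZ.leaf K2_ok TF_l2116 _)
              (CovZ.n1 (-920, 27560) (by decide +kernel)
               (CovZ.leaf K2_ok TF_l2117 _)
               (CovZ.n1 (-920, 27600) (by decide +kernel)
                (CovZ.leaf K2_ok TF_l2118 _)
                (CovZ.leaf K2_ok TF_l2119 _))))
             (CovZ.n1 (-880, 27680) (by decide +kernel)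
              (CovZ.leaf K2_ok TF_l2120 _)
              (CovZ.n1 (-920, 27640) (by decide +kernel)
               (CovZ.n2 (-920, 27680) (by decide +kernel)
                (CovZ.leaf K2_ok TF_l2121 _)
                (CovZ.leaf K2_ok TF_l2122 _))
               (CovZ.leaf K2_ok TF_l2123 _)))))))
         (CovZ.badM (by decide +kernel))))
       (CovZ.n1 (-960, 27200) (by decide +kernel)
        TF_u152
        TF_u153))

theorem TF_u155 : CovZ TF_M (toL (selN TF_LN 89213870308854080662151109630772160421167122)) [0, 7, 4, 3] (-640, 27520) (0, 28160) (-1280, 28160) :=
    (CovZ.n1 (-640, 28160) (by decide +kernel)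
       (CovZ.n2 (-320, 27840) (by decide +kernel)
        (CovZ.n2 (-640, 27840) (by decide +kernel)
         (CovZ.n2 (-480, 28000) (by decide +kernel)
          (CovZ.n2 (-480, 27840) (by decide +kernel)
           (CovZ.n2 (-560, 27920) (by decide +kernel)
            (CovZ.leaf K2_ok TF_l2187 _)
            (CovZ.leaf K2_ok TF_l2188 _))
           (CovZ.leaf K2_ok TF_l2189 _))
          (CovZ.n1 (-640, 28000) (by decide +kernel)
           (CovZ.leaf K2_ok TF_l2190 _)
           (CovZ.n1 (-560, 27920) (by decide +kernel)
            (CovZ.leaf K2_ok TF_l2191 _)
            (CovZ.leaf K2_ok TF_l2192 _))))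
         (CovZ.n1 (-480, 27680) (by decide +kernel)
          (CovZ.n2 (-640, 27680) (by decide +kernel)
           (CovZ.leaf K2_ok TF_l2193 _)
           (CovZ.leaf K2_ok TF_l2194 _))
          (CovZ.n1 (-480, 27840) (by decide +kernel)
           (CovZ.leaf K2_ok TF_l2195 _)
           (CovZ.leaf K2_ok TF_l2196 _))))
        (CovZ.n1 (-320, 28160) (by decide +kernel)
         (CovZ.n2 (-160, 28000) (by decide +kernel)
          (CovZ.leaf K2_ok TF_l2197 _)
          (CovZ.leaf K2_ok TF_l2198 _))
         (CovZ.n1 (-480, 28000) (by decide +kernel)
          (CovZ.n2 (-480, 28160) (by decide +kernel)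
           (CovZ.leaf K2_ok TF_l2199 _)
           (CovZ.n1 (-560, 28080) (by decide +kernel)
            (CovZ.leaf K2_ok TF_l2200 _)
            (CovZ.leaf K2_ok TF_l2201 _)))
          (CovZ.n1 (-320, 28000) (by decide +kernel)
           (CovZ.leaf K2_ok TF_l2202 _)
           (CovZ.leaf K2_ok TF_l2203 _)))))
       (CovZ.subM 10889431654759126452767717452235677892626 (by decide +kernel)
        (CovZ.n1 (-960, 27840) (by decide +kernel)
         (CovZ.subM 10889077279844899109449087739381254455296 (by decide +kernel)
          (CovZ.n2 (-960, 28160) (by decide +kernel)
           (CovZ.n2 (-800, 28000) (by decide +kernel)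
            (CovZ.n2 (-960, 28000) (by decide +kernel)
             (CovZ.badM (by decide +kernel))
             (CovZ.n1 (-880, 27920) (by decide +kernel)
              (CovZ.n2 (-960, 27920) (by decide +kernel)
               (CovZ.badM (by decide +kernel))
               (CovZ.n1 (-920, 27880) (by decide +kernel)
                (CovZ.n2 (-960, 27880) (by decide +kernel)
                 (CovZ.badM (by decide +kernel))
                 (CovZ.n1 (-940, 27860) (by decide +kernel)
                  (CovZ.badM (by decide +kernel))
                  (CovZ.badM (by decide +kernel))))
                (CovZ.badM (by decide +kernel))))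
              (CovZ.badM (by decide +kernel))))
            (CovZ.n1 (-800, 28160) (by decide +kernel)
             (CovZ.n2 (-720, 28080) (by decide +kernel)
              (CovZ.badM (by decide +kernel))
              (CovZ.n1 (-720, 28160) (by decide +kernel)
               (CovZ.n2 (-680, 28120) (by decide +kernel)
                (CovZ.badM (by decide +kernel))
                (CovZ.badM (by decide +kernel)))
               (CovZ.badM (by decide +kernel))))
             (CovZ.badM (by decide +kernel))))
           (CovZ.badM (by decide +kernel))))
         (CovZ.n1 (-640, 27840) (by decide +kernel)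
          (CovZ.n2 (-800, 27680) (by decide +kernel)
           (CovZ.n2 (-800, 27840) (by decide +kernel)
            (CovZ.n2 (-720, 27760) (by decide +kernel)
             (CovZ.leaf K2_ok TF_l2204 _)
             (CovZ.n1 (-720, 27840) (by decide +kernel)
              (CovZ.leaf K2_ok TF_l2205 _)
              (CovZ.leaf K2_ok TF_l2206 _)))
            (CovZ.n1 (-880, 27760) (by decide +kernel)
             (CovZ.subM 10889077280478724410153499376388218552322 (by decide +kernel)
              (CovZ.n2 (-880, 27840) (by decide +kernel)
               (CovZ.n2 (-840, 27800) (by decide +kernel)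
                (CovZ.leaf K2_ok TF_l2207 _)
                (CovZ.leaf K2_ok TF_l2208 _))
               (CovZ.n1 (-920, 27800) (by decide +kernel)
                (CovZ.n2 (-920, 27840) (by decide +kernel)
                 (CovZ.leaf K2_ok TF_l2209 _)
                 (CovZ.n1 (-940, 27820) (by decide +kernel)
                  (CovZ.leaf K2_ok TF_l10966 _)
                  (CovZ.leaf K2_ok TF_l10967 _)))
                (CovZ.n1 (-880, 27800) (by decide +kernel)
                 (CovZ.leaf K2_ok TF_l2210 _)
                 (CovZ.leaf K2_ok TF_l2211 _)))))
             (CovZ.n1 (-800, 27760) (by decide +kernel)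
              (CovZ.n2 (-840, 27720) (by decide +kernel)
               (CovZ.leaf K2_ok TF_l2212 _)
               (CovZ.leaf K2_ok TF_l2213 _))
              (CovZ.n1 (-840, 27800) (by decide +kernel)
               (CovZ.leaf K2_ok TF_l2214 _)
               (CovZ.leaf K2_ok TF_l2215 _)))))
           (CovZ.n1 (-640, 27680) (by decide +kernel)
            (CovZ.n2 (-720, 27600) (by decide +kernel)
             (CovZ.n2 (-720, 27680) (by decide +kernel)
              (CovZ.leaf K2_ok TF_l2216 _)
              (CovZ.leaf K2_ok TF_l2217 _))
             (CovZ.leaf K2_ok TF_l2218 _))
            (CovZ.n1 (-720, 27760) (by decide +kernel)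
             (CovZ.leaf K2_ok TF_l2219 _)
             (CovZ.leaf K2_ok TF_l2220 _))))
          (CovZ.n1 (-800, 28000) (by decide +kernel)
           (CovZ.n2 (-640, 28000) (by decide +kernel)
            (CovZ.n2 (-720, 27920) (by decide +kernel)
             (CovZ.n2 (-720, 28000) (by decide +kernel)
              (CovZ.leaf K2_ok TF_l2221 _)
              (CovZ.leaf K2_ok TF_l2222 _))
             (CovZ.leaf K2_ok TF_l2223 _))
            (CovZ.subM 42837082908213032347013601680162818 (by decide +kernel)
             (CovZ.n1 (-720, 28080) (by decide +kernel)
              (CovZ.n2 (-640, 28080) (by decide +kernel)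
               (CovZ.leaf K2_ok TF_l2224 _)
               (CovZ.leaf K2_ok TF_l2225 _))
              (CovZ.n1 (-720, 28000) (by decide +kernel)
               (CovZ.n2 (-760, 28040) (by decide +kernel)
                (CovZ.leaf K2_ok TF_l2226 _)
                (CovZ.leaf K2_ok TF_l2227 _))
               (CovZ.leaf K2_ok TF_l2228 _)))))
           (CovZ.n1 (-800, 27840) (by decide +kernel)
            (CovZ.subM 10889077280478724410153499376388218552322 (by decide +kernel)
             (CovZ.n2 (-880, 27920) (by decide +kernel)
              (CovZ.n2 (-800, 27920) (by decide +kernel)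
               (CovZ.n2 (-840, 27880) (by decide +kernel)
                (CovZ.n2 (-840, 27920) (by decide +kernel)
                 (CovZ.leaf K2_ok TF_l2229 _)
                 (CovZ.leaf K2_ok TF_l2230 _))
                (CovZ.leaf K2_ok TF_l2231 _))
               (CovZ.n1 (-840, 27960) (by decide +kernel)
                (CovZ.leaf K2_ok TF_l2232 _)
                (CovZ.leaf K2_ok TF_l2233 _)))
              (CovZ.n1 (-880, 27840) (by decide +kernel)
               (CovZ.n2 (-920, 27880) (by decide +kernel)
                (CovZ.n2 (-880, 27880) (by decide +kernel)
                 (CovZ.leaf K2_ok TF_l2234 _)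
                 (CovZ.leaf K2_ok TF_l2235 _))
                (CovZ.n1 (-920, 27840) (by decide +kernel)
                 (CovZ.n2 (-940, 27860) (by decide +kernel)
                  (CovZ.leaf K2_ok TF_l10968 _)
                  (CovZ.leaf K2_ok TF_l10969 _))
                 (CovZ.leaf K2_ok TF_l2236 _)))
               (CovZ.leaf K2_ok TF_l2237 _))))
            (CovZ.n1 (-720, 27920) (by decide +kernel)
             (CovZ.leaf K2_ok TF_l2238 _)
             (CovZ.leaf K2_ok TF_l2239 _))))))))

theorem TF_u156 : CovZ TF_M (toL (selN TF_LN 89213870308854080662151109630772160421167122)) [0, 7, 4, 3] (-2560, 25600) (-1280, 26880) (-2560, 28160) :=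
    (CovZ.subM 89213870308853446832014701868267177389326338 (by decide +kernel)
     (CovZ.n2 (-2560, 26880) (by decide +kernel)
      (CovZ.n2 (-1920, 27520) (by decide +kernel)
       (CovZ.n2 (-1920, 26880) (by decide +kernel)
        (CovZ.badM (by decide +kernel))
        (CovZ.n1 (-1600, 27200) (by decide +kernel)
         (CovZ.n2 (-1600, 26880) (by decide +kernel)
          (CovZ.badM (by decide +kernel))
          (CovZ.n1 (-1440, 27040) (by decide +kernel)
           (CovZ.n2 (-1440, 26880) (by decide +kernel)
            (CovZ.n2 (-1520, 26960) (by decide +kernel)
             (CovZ.n2 (-1440, 26960) (by decide +kernel)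
              (CovZ.n2 (-1480, 26920) (by decide +kernel)
               (CovZ.n2 (-1480, 26960) (by decide +kernel)
                (CovZ.leaf K2_ok TF_l10756 _)
                (CovZ.leaf K2_ok TF_l10757 _))
               (CovZ.leaf K2_ok TF_l10758 _))
              (CovZ.subM 89202980940804898626792382162664365710376962 (by decide +kernel)
               (CovZ.n1 (-1480, 27000) (by decide +kernel)
                (CovZ.n2 (-1440, 27000) (by decide +kernel)
                 (CovZ.leaf K2_ok TF_l10759 _)
                 (CovZ.n1 (-1460, 27020) (by decide +kernel)
                  (CovZ.leaf K2_ok TF_l10760 _)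
                  (CovZ.leaf K2_ok TF_l10761 _)))
                (CovZ.n1 (-1480, 26960) (by decide +kernel)
                 (CovZ.n2 (-1500, 26980) (by decide +kernel)
                  (CovZ.leaf K2_ok TF_l10762 _)
                  (CovZ.leaf K2_ok TF_l10763 _))
                 (CovZ.leaf K2_ok TF_l10764 _)))))
             (CovZ.n1 (-1520, 26880) (by decide +kernel)
              (CovZ.subM 1298173249836858960926652867018754 (by decide +kernel)
               (CovZ.n2 (-1560, 26920) (by decide +kernel)
                (CovZ.n2 (-1520, 26920) (by decide +kernel)
                 (CovZ.leaf K2_ok TF_l10765 _)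
                 (CovZ.n1 (-1540, 26940) (by decide +kernel)
                  (CovZ.leaf K2_ok TF_l10766 _)
                  (CovZ.leaf K2_ok TF_l10767 _)))
                (CovZ.n1 (-1560, 26880) (by decide +kernel)
                 (CovZ.n2 (-1580, 26900) (by decide +kernel)
                  (CovZ.leaf K2_ok TF_l10768 _)
                  (CovZ.leaf K2_ok TF_l10769 _))
                 (CovZ.leaf K2_ok TF_l10770 _))))
              (CovZ.leaf K2_ok TF_l10771 _)))
            (CovZ.n1 (-1360, 26960) (by decide +kernel)
             (CovZ.n2 (-1360, 26880) (by decide +kernel)
              (CovZ.n2 (-1400, 26920) (by decide +kernel)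
               (CovZ.leaf K2_ok TF_l2045 _)
               (CovZ.leaf K2_ok TF_l2046 _))
              (CovZ.leaf K2_ok TF_l2047 _))
             (CovZ.n1 (-1440, 26960) (by decide +kernel)
              (CovZ.leaf K2_ok TF_l2048 _)
              (CovZ.n1 (-1400, 26920) (by decide +kernel)
               (CovZ.leaf K2_ok TF_l2049 _)
               (CovZ.leaf K2_ok TF_l2050 _)))))
           (CovZ.subM 83076828964719765544197571666247682 (by decide +kernel)
            (CovZ.n1 (-1600, 27040) (by decide +kernel)
             (CovZ.n2 (-1520, 27120) (by decide +kernel)
              (CovZ.n2 (-1520, 27040) (by decide +kernel)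
               (CovZ.n2 (-1560, 27080) (by decide +kernel)
                (CovZ.badM (by decide +kernel))
                (CovZ.n1 (-1560, 27040) (by decide +kernel)
                 (CovZ.badM (by decide +kernel))
                 (CovZ.badM (by decide +kernel))))
               (CovZ.n1 (-1480, 27080) (by decide +kernel)
                (CovZ.n2 (-1480, 27040) (by decide +kernel)
                 (CovZ.badM (by decide +kernel))
                 (CovZ.leaf K2_ok TF_l10772 _))
                (CovZ.badM (by decide +kernel))))
              (CovZ.n1 (-1600, 27120) (by decide +kernel)
               (CovZ.n2 (-1560, 27160) (by decide +kernel)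
                (CovZ.n2 (-1560, 27120) (by decide +kernel)
                 (CovZ.badM (by decide +kernel))
                 (CovZ.badM (by decide +kernel)))
                (CovZ.badM (by decide +kernel)))
               (CovZ.n1 (-1560, 27080) (by decide +kernel)
                (CovZ.badM (by decide +kernel))
                (CovZ.n1 (-1560, 27120) (by decide +kernel)
                 (CovZ.badM (by decide +kernel))
                 (CovZ.badM (by decide +kernel))))))
             (CovZ.n1 (-1520, 26960) (by decide +kernel)
              (CovZ.n2 (-1600, 26960) (by decide +kernel)
               (CovZ.n2 (-1560, 27000) (by decide +kernel)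
                (CovZ.n2 (-1560, 26960) (by decide +kernel)
                 (CovZ.badM (by decide +kernel))
                 (CovZ.badM (by decide +kernel)))
                (CovZ.badM (by decide +kernel)))
               (CovZ.n1 (-1560, 26920) (by decide +kernel)
                (CovZ.n2 (-1600, 26920) (by decide +kernel)
                 (CovZ.badM (by decide +kernel))
                 (CovZ.n1 (-1580, 26900) (by decide +kernel)
                  (CovZ.leaf K2_ok TF_l10773 _)
                  (CovZ.badM (by decide +kernel))))
                (CovZ.n1 (-1560, 26960) (by decide +kernel)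
                 (CovZ.badM (by decide +kernel))
                 (CovZ.badM (by decide +kernel)))))
              (CovZ.n1 (-1520, 27040) (by decide +kernel)
               (CovZ.n2 (-1480, 27000) (by decide +kernel)
                (CovZ.badM (by decide +kernel))
                (CovZ.n1 (-1480, 27040) (by decide +kernel)
                 (CovZ.n2 (-1460, 27020) (by decide +kernel)
                  (CovZ.leaf K2_ok TF_l10774 _)
                  (CovZ.leaf K2_ok TF_l10775 _))
                 (CovZ.badM (by decide +kernel))))
               (CovZ.n1 (-1560, 27000) (by decide +kernel)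
                (CovZ.n2 (-1560, 27040) (by decide +kernel)
                 (CovZ.badM (by decide +kernel))
                 (CovZ.badM (by decide +kernel)))
                (CovZ.badM (by decide +kernel)))))))))
         (CovZ.badM (by decide +kernel))))
       (CovZ.badM (by decide +kernel)))
      (CovZ.n1 (-1920, 26240) (by decide +kernel)
       (CovZ.badM (by decide +kernel))
       (CovZ.n1 (-1920, 26880) (by decide +kernel)
        (CovZ.n2 (-1600, 26560) (by decide +kernel)
         TF_u150
         TF_u151)
        (CovZ.subM 41538374868278621028243970633760770 (by decide +kernel)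
         (CovZ.n1 (-2240, 26560) (by decide +kernel)
          (CovZ.badM (by decide +kernel))
          (CovZ.n1 (-1920, 26560) (by decide +kernel)
           (CovZ.n2 (-2080, 26400) (by decide +kernel)
            (CovZ.badM (by decide +kernel))
            (CovZ.n1 (-1920, 26400) (by decide +kernel)
             (CovZ.n2 (-2000, 26320) (by decide +kernel)
              (CovZ.badM (by decide +kernel))
              (CovZ.n1 (-1920, 26320) (by decide +kernel)
               (CovZ.badM (by decide +kernel))
               (CovZ.badM (by decide +kernel))))
             (CovZ.n1 (-2000, 26480) (by decide +kernel)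
              (CovZ.n2 (-1920, 26480) (by decide +kernel)
               (CovZ.badM (by decide +kernel))
               (CovZ.badM (by decide +kernel)))
              (CovZ.badM (by decide +kernel)))))
           (CovZ.badM (by decide +kernel)))))))))

theorem TF_u157 : CovZ TF_M (toL (selN TF_LN 89213870308854080662151109630772160421167122)) [0, 7, 4, 3] (-1280, 26880) (0, 28160) (-2560, 28160) :=
    (CovZ.n1 (-1280, 28160) (by decide +kernel)
     (CovZ.n2 (-640, 27520) (by decide +kernel)
      TF_u154
      TF_u155)
     (CovZ.subM 89213870225776697095457450588407199267028994 (by decide +kernel)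
      (CovZ.n1 (-1920, 27520) (by decide +kernel)
       (CovZ.subM 79228162514264337593543950336 (by decide +kernel)
        (CovZ.n2 (-1920, 28160) (by decide +kernel)
         (CovZ.n2 (-1600, 27840) (by decide +kernel)
          (CovZ.badM (by decide +kernel))
          (CovZ.n1 (-1600, 28160) (by decide +kernel)
           (CovZ.badM (by decide +kernel))
           (CovZ.badM (by decide +kernel))))
         (CovZ.badM (by decide +kernel))))
       (CovZ.n1 (-1280, 27520) (by decide +kernel)
        (CovZ.n2 (-1600, 27200) (by decide +kernel)
         (CovZ.n2 (-1600, 27520) (by decide +kernel)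
          (CovZ.badM (by decide +kernel))
          (CovZ.badM (by decide +kernel)))
         (CovZ.n1 (-1280, 27200) (by decide +kernel)
          (CovZ.n2 (-1440, 27040) (by decide +kernel)
           (CovZ.subM 89202980857728129083194511544595625684238338 (by decide +kernel)
            (CovZ.n2 (-1440, 27200) (by decide +kernel)
             (CovZ.n2 (-1360, 27120) (by decide +kernel)
              (CovZ.subM 1298074214633706911636223709675522 (by decide +kernel)
               (CovZ.n2 (-1440, 27120) (by decide +kernel)
                (CovZ.n2 (-1400, 27160) (by decide +kernel)
                 (CovZ.n2 (-1400, 27120) (by decide +kernel)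
                  (CovZ.badM (by decide +kernel))
                  (CovZ.leaf K2_ok TF_l10970 _))
                 (CovZ.badM (by decide +kernel)))
                (CovZ.n1 (-1400, 27080) (by decide +kernel)
                 (CovZ.n2 (-1440, 27080) (by decide +kernel)
                  (CovZ.leaf K2_ok TF_l10971 _)
                  (CovZ.n1 (-1420, 27060) (by decide +kernel)
                   (CovZ.leaf K2_ok TF_l10972 _)
                   (CovZ.leaf K2_ok TF_l10973 _)))
                 (CovZ.n1 (-1400, 27120) (by decide +kernel)
                  (CovZ.n2 (-1380, 27100) (by decide +kernel)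
                   (CovZ.leaf K2_ok TF_l10974 _)
                   (CovZ.leaf K2_ok TF_l10975 _))
                  (CovZ.n1 (-1420, 27100) (by decide +kernel)
                   (CovZ.badM (by decide +kernel))
                   (CovZ.leaf K2_ok TF_l10976 _))))))
              (CovZ.n1 (-1360, 27200) (by decide +kernel)
               (CovZ.n2 (-1320, 27160) (by decide +kernel)
                (CovZ.n2 (-1360, 27160) (by decide +kernel)
                 (CovZ.leaf K2_ok TF_l10977 _)
                 (CovZ.n1 (-1340, 27140) (by decide +kernel)
                  (CovZ.leaf K2_ok TF_l10978 _)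
                  (CovZ.leaf K2_ok TF_l10979 _)))
                (CovZ.n1 (-1320, 27200) (by decide +kernel)
                 (CovZ.n2 (-1300, 27180) (by decide +kernel)
                  (CovZ.leaf K2_ok TF_l10980 _)
                  (CovZ.leaf K2_ok TF_l10981 _))
                 (CovZ.n1 (-1340, 27180) (by decide +kernel)
                  (CovZ.leaf K2_ok TF_l10982 _)
                  (CovZ.leaf K2_ok TF_l10983 _))))
               (CovZ.subM 1298074214633706911636223709675522 (by decide +kernel)
                (CovZ.n1 (-1400, 27160) (by decide +kernel)
                 (CovZ.badM (by decide +kernel))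
                 (CovZ.n1 (-1360, 27160) (by decide +kernel)
                  (CovZ.n2 (-1380, 27140) (by decide +kernel)
                   (CovZ.n2 (-1380, 27160) (by decide +kernel)
                    (CovZ.leaf K2_ok TF_l10984 _)
                    (CovZ.badM (by decide +kernel)))
                   (CovZ.leaf K2_ok TF_l10985 _))
                  (CovZ.n1 (-1380, 27180) (by decide +kernel)
                   (CovZ.n2 (-1360, 27180) (by decide +kernel)
                    (CovZ.leaf K2_ok TF_l10986 _)
                    (CovZ.badM (by decide +kernel)))
                   (CovZ.n1 (-1380, 27160) (by decide +kernel)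
                    (CovZ.badM (by decide +kernel))
                    (CovZ.leaf K2_ok TF_l10987 _))))))))
             (CovZ.subM 2 (by decide +kernel)
              (CovZ.n1 (-1520, 27120) (by decide +kernel)
               (CovZ.badM (by decide +kernel))
               (CovZ.n1 (-1440, 27120) (by decide +kernel)
                (CovZ.n2 (-1480, 27080) (by decide +kernel)
                 (CovZ.badM (by decide +kernel))
                 (CovZ.n1 (-1440, 27080) (by decide +kernel)
                  (CovZ.n2 (-1460, 27060) (by decide +kernel)
                   (CovZ.badM (by decide +kernel))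
                   (CovZ.n1 (-1440, 27060) (by decide +kernel)
                    (CovZ.leaf K2_ok TF_l10988 _)
                    (CovZ.badM (by decide +kernel))))
                  (CovZ.badM (by decide +kernel))))
                (CovZ.badM (by decide +kernel)))))))
           (CovZ.n1 (-1280, 27040) (by decide +kernel)
            (CovZ.n2 (-1360, 26960) (by decide +kernel)
             (CovZ.n2 (-1360, 27040) (by decide +kernel)
              (CovZ.n2 (-1320, 27000) (by decide +kernel)
               (CovZ.leaf K2_ok TF_l2240 _)
               (CovZ.leaf K2_ok TF_l2241 _))
              (CovZ.n1 (-1400, 27000) (by decide +kernel)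
               (CovZ.n2 (-1400, 27040) (by decide +kernel)
                (CovZ.leaf K2_ok TF_l10989 _)
                (CovZ.leaf K2_ok TF_l10990 _))
               (CovZ.leaf K2_ok TF_l2242 _)))
             (CovZ.n1 (-1280, 26960) (by decide +kernel)
              (CovZ.leaf K2_ok TF_l2243 _)
              (CovZ.n1 (-1320, 27000) (by decide +kernel)
               (CovZ.leaf K2_ok TF_l2244 _)
               (CovZ.leaf K2_ok TF_l2245 _))))
            (CovZ.n1 (-1360, 27120) (by decide +kernel)
             (CovZ.n2 (-1280, 27120) (by decide +kernel)
              (CovZ.n2 (-1320, 27080) (by decide +kernel)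
               (CovZ.n2 (-1320, 27120) (by decide +kernel)
                (CovZ.leaf K2_ok TF_l2246 _)
                (CovZ.leaf K2_ok TF_l10991 _))
               (CovZ.leaf K2_ok TF_l2247 _))
              (CovZ.n1 (-1320, 27160) (by decide +kernel)
               (CovZ.n2 (-1280, 27160) (by decide +kernel)
                (CovZ.leaf K2_ok TF_l2248 _)
                (CovZ.leaf K2_ok TF_l2249 _))
               (CovZ.n1 (-1320, 27120) (by decide +kernel)
                (CovZ.n2 (-1340, 27140) (by decide +kernel)
                 (CovZ.leaf K2_ok TF_l10992 _)
                 (CovZ.leaf K2_ok TF_l10993 _))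
                (CovZ.leaf K2_ok TF_l2250 _))))
             (CovZ.n1 (-1360, 27040) (by decide +kernel)
              (CovZ.n2 (-1400, 27080) (by decide +kernel)
               (CovZ.n2 (-1360, 27080) (by decide +kernel)
                (CovZ.leaf K2_ok TF_l10994 _)
                (CovZ.n1 (-1380, 27100) (by decide +kernel)
                 (CovZ.leaf K2_ok TF_l10995 _)
                 (CovZ.leaf K2_ok TF_l10996 _)))
               (CovZ.n1 (-1400, 27040) (by decide +kernel)
                (CovZ.n2 (-1420, 27060) (by decide +kernel)
                 (CovZ.leaf K2_ok TF_l10997 _)
                 (CovZ.leaf K2_ok TF_l10998 _))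
                (CovZ.leaf K2_ok TF_l10999 _)))
              (CovZ.leaf K2_ok TF_l2251 _)))))
          (CovZ.subM 89202980857728129083194511544595625684238338 (by decide +kernel)
           (CovZ.n1 (-1440, 27360) (by decide +kernel)
            (CovZ.n2 (-1280, 27360) (by decide +kernel)
             (CovZ.n2 (-1360, 27280) (by decide +kernel)
              (CovZ.badM (by decide +kernel))
              (CovZ.n1 (-1280, 27280) (by decide +kernel)
               (CovZ.n2 (-1320, 27240) (by decide +kernel)
                (CovZ.badM (by decide +kernel))
                (CovZ.n1 (-1280, 27240) (by decide +kernel)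
                 (CovZ.n2 (-1300, 27220) (by decide +kernel)
                  (CovZ.leaf K2_ok TF_l11000 _)
                  (CovZ.leaf K2_ok TF_l11001 _))
                 (CovZ.n1 (-1300, 27260) (by decide +kernel)
                  (CovZ.n2 (-1280, 27260) (by decide +kernel)
                   (CovZ.leaf K2_ok TF_l11002 _)
                   (CovZ.badM (by decide +kernel)))
                  (CovZ.leaf K2_ok TF_l11003 _))))
               (CovZ.badM (by decide +kernel))))
             (CovZ.badM (by decide +kernel)))
            (CovZ.n1 (-1440, 27200) (by decide +kernel)
             (CovZ.badM (by decide +kernel))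
             (CovZ.n1 (-1360, 27280) (by decide +kernel)
              (CovZ.n2 (-1360, 27200) (by decide +kernel)
               (CovZ.badM (by decide +kernel))
               (CovZ.n1 (-1320, 27240) (by decide +kernel)
                (CovZ.n2 (-1320, 27200) (by decide +kernel)
                 (CovZ.n2 (-1340, 27220) (by decide +kernel)
                  (CovZ.n2 (-1320, 27220) (by decide +kernel)
                   (CovZ.leaf K2_ok TF_l11004 _)
                   (CovZ.badM (by decide +kernel)))
                  (CovZ.leaf K2_ok TF_l11005 _))
                 (CovZ.leaf K2_ok TF_l11006 _))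
                (CovZ.badM (by decide +kernel))))
              (CovZ.badM (by decide +kernel))))))))
        (CovZ.n1 (-1600, 27840) (by decide +kernel)
         (CovZ.badM (by decide +kernel))
         (CovZ.n1 (-1600, 27520) (by decide +kernel)
          (CovZ.badM (by decide +kernel))
          (CovZ.badM (by decide +kernel))))))))

theorem TF_u158 : CovZ TF_M (toL (selN TF_LN 324838019564546400085256159953922)) [0, 7, 4, 3] (1920, 26240) (2240, 25920) (2560, 26240) :=
    (CovZ.subM 324835543679736239469797378686976 (by decide +kernel)
          (CovZ.n2 (2240, 26240) (by decide +kernel)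
           (CovZ.n2 (2400, 26080) (by decide +kernel)
            (CovZ.n2 (2240, 26080) (by decide +kernel)
             (CovZ.badM (by decide +kernel))
             (CovZ.n1 (2320, 26000) (by decide +kernel)
              (CovZ.n2 (2240, 26000) (by decide +kernel)
               (CovZ.badM (by decide +kernel))
               (CovZ.n1 (2280, 25960) (by decide +kernel)
                (CovZ.leaf K2_ok TF_l3502 _)
                (CovZ.n1 (2280, 26000) (by decide +kernel)
                 (CovZ.n2 (2300, 25980) (by decide +kernel)
                  (CovZ.leaf K2_ok TF_l12271 _)
                  (CovZ.badM (by decide +kernel)))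
                 (CovZ.leaf K2_ok TF_l12272 _))))
              (CovZ.badM (by decide +kernel))))
            (CovZ.badM (by decide +kernel)))
           (CovZ.n1 (2080, 26080) (by decide +kernel)
            (CovZ.n2 (2080, 26240) (by decide +kernel)
             (CovZ.n2 (2160, 26160) (by decide +kernel)
              (CovZ.n2 (2080, 26160) (by decide +kernel)
               (CovZ.n2 (2120, 26200) (by decide +kernel)
                (CovZ.n2 (2120, 26160) (by decide +kernel)
                 (CovZ.badM (by decide +kernel))
                 (CovZ.leaf K2_ok TF_l12273 _))
                (CovZ.badM (by decide +kernel)))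
               (CovZ.n1 (2120, 26120) (by decide +kernel)
                (CovZ.leaf K2_ok TF_l3503 _)
                (CovZ.n1 (2120, 26160) (by decide +kernel)
                 (CovZ.n2 (2140, 26140) (by decide +kernel)
                  (CovZ.badM (by decide +kernel))
                  (CovZ.leaf K2_ok TF_l12274 _))
                 (CovZ.badM (by decide +kernel)))))
              (CovZ.n1 (2160, 26240) (by decide +kernel)
               (CovZ.badM (by decide +kernel))
               (CovZ.n1 (2120, 26200) (by decide +kernel)
                (CovZ.n2 (2120, 26240) (by decide +kernel)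
                 (CovZ.badM (by decide +kernel))
                 (CovZ.badM (by decide +kernel)))
                (CovZ.badM (by decide +kernel)))))
             (CovZ.n1 (2000, 26160) (by decide +kernel)
              (CovZ.n2 (2000, 26240) (by decide +kernel)
               (CovZ.n2 (2040, 26200) (by decide +kernel)
                (CovZ.leaf K2_ok TF_l12275 _)
                (CovZ.n1 (2040, 26240) (by decide +kernel)
                 (CovZ.n2 (2060, 26220) (by decide +kernel)
                  (CovZ.leaf K2_ok TF_l12276 _)
                  (CovZ.badM (by decide +kernel)))
                 (CovZ.leaf K2_ok TF_l12277 _)))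
               (CovZ.leaf K2_ok TF_l12278 _))
              (CovZ.n1 (2080, 26160) (by decide +kernel)
               (CovZ.leaf K2_ok TF_l3504 _)
               (CovZ.n1 (2040, 26200) (by decide +kernel)
                (CovZ.n2 (2080, 26200) (by decide +kernel)
                 (CovZ.leaf K2_ok TF_l12279 _)
                 (CovZ.n1 (2060, 26220) (by decide +kernel)
                  (CovZ.badM (by decide +kernel))
                  (CovZ.leaf K2_ok TF_l12280 _)))
                (CovZ.leaf K2_ok TF_l12281 _)))))
            (CovZ.n1 (2240, 26080) (by decide +kernel)
             (CovZ.n2 (2160, 26000) (by decide +kernel)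
              (CovZ.n2 (2160, 26080) (by decide +kernel)
               (CovZ.n2 (2200, 26040) (by decide +kernel)
                (CovZ.leaf K2_ok TF_l3505 _)
                (CovZ.n1 (2200, 26080) (by decide +kernel)
                 (CovZ.badM (by decide +kernel))
                 (CovZ.leaf K2_ok TF_l12282 _)))
               (CovZ.leaf K2_ok TF_l3506 _))
              (CovZ.n1 (2240, 26000) (by decide +kernel)
               (CovZ.leaf K2_ok TF_l3507 _)
               (CovZ.n1 (2200, 26040) (by decide +kernel)
                (CovZ.badM (by decide +kernel))
                (CovZ.leaf K2_ok TF_l3508 _))))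
             (CovZ.n1 (2160, 26160) (by decide +kernel)
              (CovZ.n2 (2240, 26160) (by decide +kernel)
               (CovZ.n2 (2200, 26120) (by decide +kernel)
                (CovZ.n2 (2200, 26160) (by decide +kernel)
                 (CovZ.badM (by decide +kernel))
                 (CovZ.n1 (2180, 26140) (by decide +kernel)
                  (CovZ.n2 (2180, 26160) (by decide +kernel)
                   (CovZ.badM (by decide +kernel))
                   (CovZ.leaf K2_ok TF_l12283 _))
                  (CovZ.badM (by decide +kernel))))
                (CovZ.badM (by decide +kernel)))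
               (CovZ.n1 (2200, 26200) (by decide +kernel)
                (CovZ.badM (by decide +kernel))
                (CovZ.n1 (2200, 26160) (by decide +kernel)
                 (CovZ.n2 (2180, 26180) (by decide +kernel)
                  (CovZ.badM (by decide +kernel))
                  (CovZ.n1 (2180, 26160) (by decide +kernel)
                   (CovZ.badM (by decide +kernel))
                   (CovZ.badM (by decide +kernel))))
                 (CovZ.badM (by decide +kernel)))))
              (CovZ.n1 (2160, 26080) (by decide +kernel)
               (CovZ.n2 (2120, 26120) (by decide +kernel)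
                (CovZ.n2 (2160, 26120) (by decide +kernel)
                 (CovZ.leaf K2_ok TF_l12284 _)
                 (CovZ.n1 (2140, 26140) (by decide +kernel)
                  (CovZ.leaf K2_ok TF_l12285 _)
                  (CovZ.leaf K2_ok TF_l12286 _)))
                (CovZ.leaf K2_ok TF_l3509 _))
               (CovZ.n1 (2200, 26120) (by decide +kernel)
                (CovZ.n2 (2200, 26080) (by decide +kernel)
                 (CovZ.n2 (2180, 26100) (by decide +kernel)
                  (CovZ.badM (by decide +kernel))
                  (CovZ.leaf K2_ok TF_l12287 _))
                 (CovZ.badM (by decide +kernel)))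
                (CovZ.n1 (2160, 26120) (by decide +kernel)
                 (CovZ.n2 (2180, 26140) (by decide +kernel)
                  (CovZ.leaf K2_ok TF_l12288 _)
                  (CovZ.leaf K2_ok TF_l12289 _))
                 (CovZ.n1 (2180, 26100) (by decide +kernel)
                  (CovZ.leaf K2_ok TF_l12290 _)
                  (CovZ.leaf K2_ok TF_l12291 _))))))))))

theorem TF_u159 : CovZ TF_M (toL (selN TF_LN 324838019564546400085256159953922)) [0, 7, 4, 3] (2240, 25920) (2560, 25600) (2560, 26240) :=
    (CovZ.n1 (2560, 25920) (by decide +kernel)
          (CovZ.n2 (2400, 25760) (by decide +kernel)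
           (CovZ.subM 319388534857994593793888748546 (by decide +kernel)
            (CovZ.n2 (2400, 25920) (by decide +kernel)
             (CovZ.n2 (2480, 25840) (by decide +kernel)
              (CovZ.n2 (2400, 25840) (by decide +kernel)
               (CovZ.subM 319388530135628110923975099392 (by decide +kernel)
                (CovZ.n2 (2440, 25880) (by decide +kernel)
                 (CovZ.n2 (2440, 25840) (by decide +kernel)
                  (CovZ.n2 (2420, 25860) (by decide +kernel)
                   (CovZ.leaf K2_ok TF_l12292 _)
                   (CovZ.leaf K2_ok TF_l12293 _))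
                  (CovZ.leaf K2_ok TF_l3510 _))
                 (CovZ.n1 (2400, 25880) (by decide +kernel)
                  (CovZ.leaf K2_ok TF_l12294 _)
                  (CovZ.n1 (2420, 25860) (by decide +kernel)
                   (CovZ.leaf K2_ok TF_l12295 _)
                   (CovZ.leaf K2_ok TF_l12296 _)))))
               (CovZ.n1 (2440, 25800) (by decide +kernel)
                (CovZ.leaf K2_ok TF_l3511 _)
                (CovZ.n1 (2440, 25840) (by decide +kernel)
                 (CovZ.leaf K2_ok TF_l3512 _)
                 (CovZ.leaf K2_ok TF_l3513 _))))
              (CovZ.n1 (2480, 25920) (by decide +kernel)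
               (CovZ.n2 (2520, 25880) (by decide +kernel)
                (CovZ.leaf K2_ok TF_l3514 _)
                (CovZ.leaf K2_ok TF_l3515 _))
               (CovZ.subM 319388530135628110923975099392 (by decide +kernel)
                (CovZ.n1 (2440, 25880) (by decide +kernel)
                 (CovZ.n2 (2440, 25920) (by decide +kernel)
                  (CovZ.leaf K2_ok TF_l12297 _)
                  (CovZ.n1 (2420, 25900) (by decide +kernel)
                   (CovZ.leaf K2_ok TF_l12298 _)
                   (CovZ.leaf K2_ok TF_l12299 _)))
                 (CovZ.n1 (2480, 25880) (by decide +kernel)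
                  (CovZ.leaf K2_ok TF_l3516 _)
                  (CovZ.leaf K2_ok TF_l12300 _))))))
             (CovZ.n1 (2320, 25840) (by decide +kernel)
              (CovZ.n2 (2320, 25920) (by decide +kernel)
               (CovZ.n2 (2360, 25880) (by decide +kernel)
                (CovZ.leaf K2_ok TF_l3517 _)
                (CovZ.n1 (2360, 25920) (by decide +kernel)
                 (CovZ.n2 (2380, 25900) (by decide +kernel)
                  (CovZ.leaf K2_ok TF_l12301 _)
                  (CovZ.leaf K2_ok TF_l12302 _))
                 (CovZ.leaf K2_ok TF_l12303 _)))
               (CovZ.leaf K2_ok TF_l3518 _))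
              (CovZ.n1 (2400, 25840) (by decide +kernel)
               (CovZ.leaf K2_ok TF_l3519 _)
               (CovZ.n1 (2360, 25880) (by decide +kernel)
                (CovZ.n2 (2400, 25880) (by decide +kernel)
                 (CovZ.leaf K2_ok TF_l12304 _)
                 (CovZ.n1 (2380, 25900) (by decide +kernel)
                  (CovZ.leaf K2_ok TF_l12305 _)
                  (CovZ.leaf K2_ok TF_l12306 _)))
                (CovZ.leaf K2_ok TF_l3520 _))))))
           (CovZ.n1 (2560, 25760) (by decide +kernel)
            (CovZ.n2 (2480, 25680) (by decide +kernel)
             (CovZ.n2 (2480, 25760) (by decide +kernel)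
              (CovZ.n2 (2520, 25720) (by decide +kernel)
               (CovZ.leaf K2_ok TF_l3521 _)
               (CovZ.leaf K2_ok TF_l3522 _))
              (CovZ.leaf K2_ok TF_l3523 _))
             (CovZ.n1 (2560, 25680) (by decide +kernel)
              (CovZ.leaf K2_ok TF_l3524 _)
              (CovZ.n1 (2520, 25720) (by decide +kernel)
               (CovZ.leaf K2_ok TF_l3525 _)
               (CovZ.leaf K2_ok TF_l3526 _))))
            (CovZ.subM 319388534857994593793888748546 (by decide +kernel)
             (CovZ.n1 (2480, 25840) (by decide +kernel)
              (CovZ.n2 (2560, 25840) (by decide +kernel)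
               (CovZ.leaf K2_ok TF_l3527 _)
               (CovZ.n1 (2520, 25880) (by decide +kernel)
                (CovZ.leaf K2_ok TF_l3528 _)
                (CovZ.leaf K2_ok TF_l3529 _)))
              (CovZ.n1 (2480, 25760) (by decide +kernel)
               (CovZ.n2 (2440, 25800) (by decide +kernel)
                (CovZ.n2 (2480, 25800) (by decide +kernel)
                 (CovZ.leaf K2_ok TF_l3530 _)
                 (CovZ.leaf K2_ok TF_l3531 _))
                (CovZ.leaf K2_ok TF_l3532 _))
               (CovZ.leaf K2_ok TF_l3533 _))))))
          (CovZ.subM 319388530135628110924243534848 (by decide +kernel)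
           (CovZ.n1 (2400, 26080) (by decide +kernel)
            (CovZ.n2 (2560, 26080) (by decide +kernel)
             (CovZ.n2 (2480, 26000) (by decide +kernel)
              (CovZ.n2 (2480, 26080) (by decide +kernel)
               (CovZ.n2 (2520, 26040) (by decide +kernel)
                (CovZ.leaf K2_ok TF_l12307 _)
                (CovZ.leaf K2_ok TF_l12308 _))
               (CovZ.n1 (2440, 26040) (by decide +kernel)
                (CovZ.badM (by decide +kernel))
                (CovZ.n1 (2480, 26040) (by decide +kernel)
                 (CovZ.leaf K2_ok TF_l12309 _)
                 (CovZ.leaf K2_ok TF_l12310 _))))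
              (CovZ.n1 (2560, 26000) (by decide +kernel)
               (CovZ.leaf K2_ok TF_l3534 _)
               (CovZ.n1 (2520, 26040) (by decide +kernel)
                (CovZ.leaf K2_ok TF_l12311 _)
                (CovZ.leaf K2_ok TF_l12312 _))))
             (CovZ.n1 (2480, 26160) (by decide +kernel)
              (CovZ.n2 (2560, 26160) (by decide +kernel)
               (CovZ.leaf K2_ok TF_l12313 _)
               (CovZ.badM (by decide +kernel)))
              (CovZ.n1 (2480, 26080) (by decide +kernel)
               (CovZ.badM (by decide +kernel))
               (CovZ.leaf K2_ok TF_l12314 _))))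
            (CovZ.n1 (2400, 25920) (by decide +kernel)
             (CovZ.n2 (2320, 26000) (by decide +kernel)
              (CovZ.n2 (2400, 26000) (by decide +kernel)
               (CovZ.n2 (2360, 25960) (by decide +kernel)
                (CovZ.badM (by decide +kernel))
                (CovZ.n1 (2400, 25960) (by decide +kernel)
                 (CovZ.n2 (2380, 25940) (by decide +kernel)
                  (CovZ.n2 (2380, 25960) (by decide +kernel)
                   (CovZ.leaf K2_ok TF_l12315 _)
                   (CovZ.leaf K2_ok TF_l12316 _))
                  (CovZ.n1 (2400, 25940) (by decide +kernel)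
                   (CovZ.leaf K2_ok TF_l12317 _)
                   (CovZ.leaf K2_ok TF_l12318 _)))
                 (CovZ.n1 (2380, 25980) (by decide +kernel)
                  (CovZ.n2 (2400, 25980) (by decide +kernel)
                   (CovZ.leaf K2_ok TF_l12319 _)
                   (CovZ.badM (by decide +kernel)))
                  (CovZ.n1 (2380, 25960) (by decide +kernel)
                   (CovZ.badM (by decide +kernel))
                   (CovZ.leaf K2_ok TF_l12320 _)))))
               (CovZ.badM (by decide +kernel)))
              (CovZ.n1 (2320, 25920) (by decide +kernel)
               (CovZ.n2 (2280, 25960) (by decide +kernel)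
                (CovZ.n2 (2320, 25960) (by decide +kernel)
                 (CovZ.leaf K2_ok TF_l12321 _)
                 (CovZ.n1 (2300, 25980) (by decide +kernel)
                  (CovZ.leaf K2_ok TF_l12322 _)
                  (CovZ.leaf K2_ok TF_l12323 _)))
                (CovZ.leaf K2_ok TF_l3535 _))
               (CovZ.n1 (2360, 25960) (by decide +kernel)
                (CovZ.n2 (2360, 25920) (by decide +kernel)
                 (CovZ.n2 (2340, 25940) (by decide +kernel)
                  (CovZ.leaf K2_ok TF_l12324 _)
                  (CovZ.leaf K2_ok TF_l12325 _))
                 (CovZ.leaf K2_ok TF_l12326 _))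
                (CovZ.n1 (2320, 25960) (by decide +kernel)
                 (CovZ.leaf K2_ok TF_l12327 _)
                 (CovZ.n1 (2340, 25940) (by decide +kernel)
                  (CovZ.leaf K2_ok TF_l12328 _)
                  (CovZ.leaf K2_ok TF_l12329 _))))))
             (CovZ.n1 (2480, 26000) (by decide +kernel)
              (CovZ.n2 (2480, 25920) (by decide +kernel)
               (CovZ.n2 (2440, 25960) (by decide +kernel)
                (CovZ.n2 (2480, 25960) (by decide +kernel)
                 (CovZ.leaf K2_ok TF_l12330 _)
                 (CovZ.leaf K2_ok TF_l12331 _))
                (CovZ.n1 (2440, 25920) (by decide +kernel)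
                 (CovZ.n2 (2420, 25940) (by decide +kernel)
                  (CovZ.leaf K2_ok TF_l12332 _)
                  (CovZ.leaf K2_ok TF_l12333 _))
                 (CovZ.leaf K2_ok TF_l12334 _)))
               (CovZ.leaf K2_ok TF_l3536 _))
              (CovZ.n1 (2400, 26000) (by decide +kernel)
               (CovZ.n2 (2440, 26040) (by decide +kernel)
                (CovZ.n2 (2440, 26000) (by decide +kernel)
                 (CovZ.n2 (2420, 26020) (by decide +kernel)
                  (CovZ.leaf K2_ok TF_l12335 _)
                  (CovZ.leaf K2_ok TF_l12336 _))
                 (CovZ.leaf K2_ok TF_l12337 _))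
                (CovZ.badM (by decide +kernel)))
               (CovZ.n1 (2440, 25960) (by decide +kernel)
                (CovZ.n2 (2400, 25960) (by decide +kernel)
                 (CovZ.leaf K2_ok TF_l12338 _)
                 (CovZ.n1 (2420, 25940) (by decide +kernel)
                  (CovZ.leaf K2_ok TF_l12339 _)
                  (CovZ.leaf K2_ok TF_l12340 _)))
                (CovZ.n1 (2440, 26000) (by decide +kernel)
                 (CovZ.leaf K2_ok TF_l12341 _)
                 (CovZ.n1 (2420, 25980) (by decide +kernel)
                  (CovZ.leaf K2_ok TF_l12342 _)
                  (CovZ.leaf K2_ok TF_l12343 _))))))))))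

theorem TF_u160 : CovZ TF_M (toL (selN TF_LN 89279204442822537296869341283066897929601042)) [0, 7, 4, 3] (0, 28160) (640, 27520) (1280, 28160) :=
    (CovZ.subM 54445575918713464409786502348922272874496 (by decide +kernel)
       (CovZ.n2 (640, 28160) (by decide +kernel)
        (CovZ.n2 (960, 27840) (by decide +kernel)
         (CovZ.n2 (640, 27840) (by decide +kernel)
          (CovZ.n2 (800, 28000) (by decide +kernel)
           (CovZ.n2 (800, 27840) (by decide +kernel)
            (CovZ.n2 (720, 27920) (by decide +kernel)
             (CovZ.n2 (800, 27920) (by decide +kernel)
              (CovZ.leaf K2_ok TF_l3627 _)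
              (CovZ.leaf K2_ok TF_l3628 _))
             (CovZ.leaf K2_ok TF_l3629 _))
            (CovZ.subM 10889412183012081647049918919461744672768 (by decide +kernel)
             (CovZ.n1 (880, 27920) (by decide +kernel)
              (CovZ.n2 (880, 27840) (by decide +kernel)
               (CovZ.n2 (840, 27880) (by decide +kernel)
                (CovZ.leaf K2_ok TF_l3630 _)
                (CovZ.leaf K2_ok TF_l3631 _))
               (CovZ.n1 (920, 27880) (by decide +kernel)
                (CovZ.leaf K2_ok TF_l3632 _)
                (CovZ.leaf K2_ok TF_l3633 _)))
              (CovZ.n1 (800, 27920) (by decide +kernel)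
               (CovZ.leaf K2_ok TF_l3634 _)
               (CovZ.n1 (840, 27880) (by decide +kernel)
                (CovZ.leaf K2_ok TF_l3635 _)
                (CovZ.leaf K2_ok TF_l3636 _))))))
           (CovZ.n1 (640, 28000) (by decide +kernel)
            (CovZ.leaf K2_ok TF_l3637 _)
            (CovZ.n1 (720, 27920) (by decide +kernel)
             (CovZ.leaf K2_ok TF_l3638 _)
             (CovZ.n1 (720, 28000) (by decide +kernel)
              (CovZ.leaf K2_ok TF_l3639 _)
              (CovZ.leaf K2_ok TF_l3640 _)))))
          (CovZ.n1 (800, 27680) (by decide +kernel)
           (CovZ.n2 (640, 27680) (by decide +kernel)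
            (CovZ.leaf K2_ok TF_l3641 _)
            (CovZ.n1 (720, 27600) (by decide +kernel)
             (CovZ.leaf K2_ok TF_l3642 _)
             (CovZ.leaf K2_ok TF_l3643 _)))
           (CovZ.n1 (800, 27840) (by decide +kernel)
            (CovZ.n2 (880, 27760) (by decide +kernel)
             (CovZ.n2 (800, 27760) (by decide +kernel)
              (CovZ.leaf K2_ok TF_l3644 _)
              (CovZ.n1 (840, 27720) (by decide +kernel)
               (CovZ.leaf K2_ok TF_l3645 _)
               (CovZ.leaf K2_ok TF_l3646 _)))
             (CovZ.subM 10889412183012081647049918919461744672768 (by decide +kernel)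
              (CovZ.n1 (880, 27840) (by decide +kernel)
               (CovZ.subM 10889038337638267139460663597821839015936 (by decide +kernel)
                (CovZ.n2 (920, 27800) (by decide +kernel)
                 (CovZ.leaf K2_ok TF_l3647 _)
                 (CovZ.n1 (920, 27840) (by decide +kernel)
                  (CovZ.n2 (940, 27820) (by decide +kernel)
                   (CovZ.leaf K2_ok TF_l12344 _)
                   (CovZ.leaf K2_ok TF_l12345 _))
                  (CovZ.leaf K2_ok TF_l3648 _))))
               (CovZ.n1 (840, 27800) (by decide +kernel)
                (CovZ.leaf K2_ok TF_l3649 _)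
                (CovZ.leaf K2_ok TF_l3650 _)))))
            (CovZ.n1 (720, 27760) (by decide +kernel)
             (CovZ.leaf K2_ok TF_l3651 _)
             (CovZ.n1 (800, 27760) (by decide +kernel)
              (CovZ.leaf K2_ok TF_l3652 _)
              (CovZ.leaf K2_ok TF_l3653 _))))))
         (CovZ.n1 (960, 28160) (by decide +kernel)
          (CovZ.badM (by decide +kernel))
          (CovZ.n1 (800, 28000) (by decide +kernel)
           (CovZ.n2 (800, 28160) (by decide +kernel)
            (CovZ.subM 10889038337638267139460664794107669905408 (by decide +kernel)
             (CovZ.n2 (880, 28080) (by decide +kernel)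
              (CovZ.n2 (800, 28080) (by decide +kernel)
               (CovZ.leaf K2_ok TF_l3654 _)
               (CovZ.n1 (840, 28040) (by decide +kernel)
                (CovZ.leaf K2_ok TF_l3655 _)
                (CovZ.n1 (840, 28080) (by decide +kernel)
                 (CovZ.leaf K2_ok TF_l3656 _)
                 (CovZ.leaf K2_ok TF_l3657 _))))
              (CovZ.n1 (880, 28160) (by decide +kernel)
               (CovZ.n2 (920, 28120) (by decide +kernel)
                (CovZ.leaf K2_ok TF_l12346 _)
                (CovZ.n1 (920, 28160) (by decide +kernel)
                 (CovZ.badM (by decide +kernel))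
                 (CovZ.n1 (900, 28140) (by decide +kernel)
                  (CovZ.leaf K2_ok TF_l12347 _)
                  (CovZ.n1 (920, 28140) (by decide +kernel)
                   (CovZ.leaf K2_ok TF_l12348 _)
                   (CovZ.leaf K2_ok TF_l12349 _)))))
               (CovZ.n1 (840, 28120) (by decide +kernel)
                (CovZ.n2 (840, 28160) (by decide +kernel)
                 (CovZ.leaf K2_ok TF_l3658 _)
                 (CovZ.leaf K2_ok TF_l3659 _))
                (CovZ.n1 (880, 28120) (by decide +kernel)
                 (CovZ.leaf K2_ok TF_l3660 _)
                 (CovZ.leaf K2_ok TF_l3661 _))))))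
            (CovZ.n1 (720, 28080) (by decide +kernel)
             (CovZ.n2 (720, 28160) (by decide +kernel)
              (CovZ.leaf K2_ok TF_l3662 _)
              (CovZ.leaf K2_ok TF_l3663 _))
             (CovZ.n1 (800, 28080) (by decide +kernel)
              (CovZ.leaf K2_ok TF_l3664 _)
              (CovZ.leaf K2_ok TF_l3665 _))))
           (CovZ.subM 10889038337638267139460664723721745858560 (by decide +kernel)
            (CovZ.n1 (960, 28000) (by decide +kernel)
             (CovZ.n2 (880, 27920) (by decide +kernel)
              (CovZ.n2 (880, 28000) (by decide +kernel)
               (CovZ.n2 (920, 27960) (by decide +kernel)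
                (CovZ.n2 (880, 27960) (by decide +kernel)
                 (CovZ.leaf K2_ok TF_l12350 _)
                 (CovZ.leaf K2_ok TF_l12351 _))
                (CovZ.n1 (920, 28000) (by decide +kernel)
                 (CovZ.badM (by decide +kernel))
                 (CovZ.leaf K2_ok TF_l12352 _)))
               (CovZ.n1 (840, 27960) (by decide +kernel)
                (CovZ.leaf K2_ok TF_l3666 _)
                (CovZ.n1 (880, 27960) (by decide +kernel)
                 (CovZ.leaf K2_ok TF_l3667 _)
                 (CovZ.leaf K2_ok TF_l3668 _))))
              (CovZ.n1 (960, 27920) (by decide +kernel)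
               (CovZ.n2 (920, 27880) (by decide +kernel)
                (CovZ.n2 (920, 27920) (by decide +kernel)
                 (CovZ.n2 (940, 27900) (by decide +kernel)
                  (CovZ.leaf K2_ok TF_l12353 _)
                  (CovZ.leaf K2_ok TF_l12354 _))
                 (CovZ.leaf K2_ok TF_l12355 _))
                (CovZ.n1 (960, 27880) (by decide +kernel)
                 (CovZ.n2 (940, 27860) (by decide +kernel)
                  (CovZ.n2 (940, 27880) (by decide +kernel)
                   (CovZ.badM (by decide +kernel))
                   (CovZ.leaf K2_ok TF_l12356 _))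
                  (CovZ.badM (by decide +kernel)))
                 (CovZ.n1 (940, 27900) (by decide +kernel)
                  (CovZ.badM (by decide +kernel))
                  (CovZ.leaf K2_ok TF_l12357 _))))
               (CovZ.n1 (920, 27960) (by decide +kernel)
                (CovZ.badM (by decide +kernel))
                (CovZ.n1 (920, 27920) (by decide +kernel)
                 (CovZ.leaf K2_ok TF_l12358 _)
                 (CovZ.leaf K2_ok TF_l12359 _)))))
             (CovZ.n1 (880, 28080) (by decide +kernel)
              (CovZ.n2 (960, 28080) (by decide +kernel)
               (CovZ.n2 (920, 28040) (by decide +kernel)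
                (CovZ.n2 (920, 28080) (by decide +kernel)
                 (CovZ.badM (by decide +kernel))
                 (CovZ.leaf K2_ok TF_l12360 _))
                (CovZ.badM (by decide +kernel)))
               (CovZ.n1 (920, 28120) (by decide +kernel)
                (CovZ.badM (by decide +kernel))
                (CovZ.n1 (920, 28080) (by decide +kernel)
                 (CovZ.leaf K2_ok TF_l12361 _)
                 (CovZ.badM (by decide +kernel)))))
              (CovZ.n1 (880, 28000) (by decide +kernel)
               (CovZ.n2 (840, 28040) (by decide +kernel)
                (CovZ.n2 (880, 28040) (by decide +kernel)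
                 (CovZ.leaf K2_ok TF_l3669 _)
                 (CovZ.leaf K2_ok TF_l3670 _))
                (CovZ.leaf K2_ok TF_l3671 _))
               (CovZ.n1 (920, 28040) (by decide +kernel)
                (CovZ.n2 (920, 28000) (by decide +kernel)
                 (CovZ.leaf K2_ok TF_l12362 _)
                 (CovZ.badM (by decide +kernel)))
                (CovZ.n1 (880, 28040) (by decide +kernel)
                 (CovZ.leaf K2_ok TF_l12363 _)
                 (CovZ.leaf K2_ok TF_l12364 _))))))))))
        (CovZ.n1 (320, 27840) (by decide +kernel)
         (CovZ.n2 (320, 28160) (by decide +kernel)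
          (CovZ.n2 (480, 28000) (by decide +kernel)
           (CovZ.leaf K2_ok TF_l3672 _)
           (CovZ.leaf K2_ok TF_l3673 _))
          (CovZ.n1 (160, 28000) (by decide +kernel)
           (CovZ.leaf K2_ok TF_l3674 _)
           (CovZ.leaf K2_ok TF_l3675 _)))
         (CovZ.n1 (640, 27840) (by decide +kernel)
          (CovZ.n2 (480, 27680) (by decide +kernel)
           (CovZ.n2 (480, 27840) (by decide +kernel)
            (CovZ.leaf K2_ok TF_l3676 _)
            (CovZ.leaf K2_ok TF_l3677 _))
           (CovZ.n1 (640, 27680) (by decide +kernel)
            (CovZ.leaf K2_ok TF_l3678 _)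
            (CovZ.leaf K2_ok TF_l3679 _)))
          (CovZ.n1 (480, 28000) (by decide +kernel)
           (CovZ.n2 (640, 28000) (by decide +kernel)
            (CovZ.leaf K2_ok TF_l3680 _)
            (CovZ.leaf K2_ok TF_l3681 _))
           (CovZ.n1 (480, 27840) (by decide +kernel)
            (CovZ.leaf K2_ok TF_l3682 _)
            (CovZ.leaf K2_ok TF_l3683 _)))))))

theorem TF_u161 : CovZ TF_M (toL (selN TF_LN 89279204442822537296869341283066897929601042)) [0, 7, 4, 3] (640, 27520) (1280, 26880) (1280, 28160) :=
    (CovZ.subM 89257426370041206030552659592871982372225024 (by decide +kernel)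
       (CovZ.n1 (1280, 27520) (by decide +kernel)
        (CovZ.n2 (960, 27200) (by decide +kernel)
         (CovZ.n2 (960, 27520) (by decide +kernel)
          (CovZ.n2 (1120, 27360) (by decide +kernel)
           (CovZ.n2 (960, 27360) (by decide +kernel)
            (CovZ.subM 89213870224478523845620600851134062526464000 (by decide +kernel)
             (CovZ.n2 (1040, 27440) (by decide +kernel)
              (CovZ.n2 (1040, 27360) (by decide +kernel)
               (CovZ.n2 (1000, 27400) (by decide +kernel)
                (CovZ.leaf K2_ok TF_l3684 _)
                (CovZ.leaf K2_ok TF_l3685 _))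
               (CovZ.badM (by decide +kernel)))
              (CovZ.n1 (960, 27440) (by decide +kernel)
               (CovZ.n2 (1000, 27480) (by decide +kernel)
                (CovZ.leaf K2_ok TF_l3690 _)
                (CovZ.leaf K2_ok TF_l3691 _))
               (CovZ.n1 (1000, 27400) (by decide +kernel)
                (CovZ.leaf K2_ok TF_l3692 _)
                (CovZ.leaf K2_ok TF_l3693 _)))))
            (CovZ.n1 (1040, 27280) (by decide +kernel)
             (CovZ.leaf K2_ok TF_l3694 _)
             (CovZ.n1 (1040, 27360) (by decide +kernel)
              (CovZ.n2 (1080, 27320) (by decide +kernel)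
               (CovZ.leaf K2_ok TF_l3695 _)
               (CovZ.badM (by decide +kernel)))
              (CovZ.leaf K2_ok TF_l3698 _))))
           (CovZ.subM 89202980794122492566142873090593446023921664 (by decide +kernel)
            (CovZ.n1 (1120, 27520) (by decide +kernel)
             (CovZ.n2 (1200, 27440) (by decide +kernel)
              (CovZ.n2 (1120, 27440) (by decide +kernel)
               (CovZ.n2 (1160, 27480) (by decide +kernel)
                (CovZ.badM (by decide +kernel))
                (CovZ.n1 (1120, 27480) (by decide +kernel)
                 (CovZ.badM (by decide +kernel))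
                 (CovZ.badM (by decide +kernel))))
               (CovZ.badM (by decide +kernel)))
              (CovZ.n1 (1200, 27520) (by decide +kernel)
               (CovZ.badM (by decide +kernel))
               (CovZ.n1 (1160, 27480) (by decide +kernel)
                (CovZ.badM (by decide +kernel))
                (CovZ.badM (by decide +kernel)))))
             (CovZ.n1 (1040, 27440) (by decide +kernel)
              (CovZ.n2 (1040, 27520) (by decide +kernel)
               (CovZ.n2 (1080, 27480) (by decide +kernel)
                (CovZ.n2 (1040, 27480) (by decide +kernel)
                 (CovZ.badM (by decide +kernel))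
                 (CovZ.n1 (1060, 27460) (by decide +kernel)
                  (CovZ.leaf K2_ok TF_l15819 _)
                  (CovZ.n1 (1060, 27480) (by decide +kernel)
                   (CovZ.leaf K2_ok TF_l15820 _)
                   (CovZ.leaf K2_ok TF_l15821 _))))
                (CovZ.badM (by decide +kernel)))
               (CovZ.n1 (1000, 27480) (by decide +kernel)
                (CovZ.badM (by decide +kernel))
                (CovZ.n1 (1040, 27480) (by decide +kernel)
                 (CovZ.leaf K2_ok TF_l15822 _)
                 (CovZ.badM (by decide +kernel)))))
              (CovZ.n1 (1120, 27440) (by decide +kernel)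
               (CovZ.badM (by decide +kernel))
               (CovZ.n1 (1080, 27480) (by decide +kernel)
                (CovZ.n2 (1120, 27480) (by decide +kernel)
                 (CovZ.badM (by decide +kernel))
                 (CovZ.badM (by decide +kernel)))
                (CovZ.badM (by decide +kernel))))))))
          (CovZ.n1 (800, 27360) (by decide +kernel)
           (CovZ.n2 (800, 27520) (by decide +kernel)
            (CovZ.n2 (880, 27440) (by decide +kernel)
             (CovZ.leaf K2_ok TF_l3699 _)
             (CovZ.n1 (880, 27520) (by decide +kernel)
              (CovZ.n2 (920, 27480) (by decide +kernel)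
               (CovZ.leaf K2_ok TF_l3700 _)
               (CovZ.leaf K2_ok TF_l3701 _))
              (CovZ.leaf K2_ok TF_l3702 _)))
            (CovZ.leaf K2_ok TF_l3703 _))
           (CovZ.n1 (960, 27360) (by decide +kernel)
            (CovZ.n2 (880, 27280) (by decide +kernel)
             (CovZ.leaf K2_ok TF_l3704 _)
             (CovZ.leaf K2_ok TF_l3705 _))
            (CovZ.n1 (880, 27440) (by decide +kernel)
             (CovZ.n2 (960, 27440) (by decide +kernel)
              (CovZ.leaf K2_ok TF_l3706 _)
              (CovZ.n1 (920, 27480) (by decide +kernel)
               (CovZ.leaf K2_ok TF_l3707 _)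
               (CovZ.leaf K2_ok TF_l3708 _)))
             (CovZ.leaf K2_ok TF_l3709 _)))))
         (CovZ.n1 (1280, 27200) (by decide +kernel)
          (CovZ.n2 (1120, 27040) (by decide +kernel)
           (CovZ.n2 (1120, 27200) (by decide +kernel)
            (CovZ.n2 (1200, 27120) (by decide +kernel)
             (CovZ.n2 (1120, 27120) (by decide +kernel)
              (CovZ.leaf K2_ok TF_l12365 _)
              (CovZ.leaf K2_ok TF_l3710 _))
             (CovZ.badM (by decide +kernel)))
            (CovZ.n1 (1040, 27120) (by decide +kernel)
             (CovZ.leaf K2_ok TF_l3711 _)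
             (CovZ.n1 (1120, 27120) (by decide +kernel)
              (CovZ.leaf K2_ok TF_l3712 _)
              (CovZ.leaf K2_ok TF_l3713 _))))
           (CovZ.subM 394615195073947013887803548271378432 (by decide +kernel)
            (CovZ.n1 (1280, 27040) (by decide +kernel)
             (CovZ.n2 (1200, 26960) (by decide +kernel)
              (CovZ.n2 (1200, 27040) (by decide +kernel)
               (CovZ.n2 (1240, 27000) (by decide +kernel)
                (CovZ.leaf K2_ok TF_l3714 _)
                (CovZ.badM (by decide +kernel)))
               (CovZ.leaf K2_ok TF_l3715 _))
              (CovZ.n1 (1280, 26960) (by decide +kernel)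
               (CovZ.leaf K2_ok TF_l3716 _)
               (CovZ.n1 (1240, 27000) (by decide +kernel)
                (CovZ.badM (by decide +kernel))
                (CovZ.leaf K2_ok TF_l3717 _))))
             (CovZ.n1 (1200, 27120) (by decide +kernel)
              (CovZ.badM (by decide +kernel))
              (CovZ.n1 (1200, 27040) (by decide +kernel)
               (CovZ.leaf K2_ok TF_l3718 _)
               (CovZ.badM (by decide +kernel)))))))
          (CovZ.n1 (1120, 27360) (by decide +kernel)
           (CovZ.badM (by decide +kernel))
           (CovZ.n1 (1120, 27200) (by decide +kernel)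
            (CovZ.n2 (1040, 27280) (by decide +kernel)
             (CovZ.subM 353076186380368278740073754681933824 (by decide +kernel)
              (CovZ.n2 (1120, 27280) (by decide +kernel)
               (CovZ.n2 (1080, 27240) (by decide +kernel)
                (CovZ.leaf K2_ok TF_l3719 _)
                (CovZ.badM (by decide +kernel)))
               (CovZ.n1 (1080, 27320) (by decide +kernel)
                (CovZ.badM (by decide +kernel))
                (CovZ.leaf K2_ok TF_l3723 _))))
             (CovZ.leaf K2_ok TF_l3724 _))
            (CovZ.badM (by decide +kernel))))))
        (CovZ.n1 (960, 27840) (by decide +kernel)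
         (CovZ.badM (by decide +kernel))
         (CovZ.n1 (960, 27520) (by decide +kernel)
          (CovZ.n2 (800, 27680) (by decide +kernel)
           (CovZ.n2 (960, 27680) (by decide +kernel)
            (CovZ.n2 (880, 27600) (by decide +kernel)
             (CovZ.n2 (880, 27680) (by decide +kernel)
              (CovZ.subM 10889412183012081647049917793561837830144 (by decide +kernel)
               (CovZ.n2 (920, 27640) (by decide +kernel)
                (CovZ.leaf K2_ok TF_l3729 _)
                (CovZ.n1 (920, 27680) (by decide +kernel)
                 (CovZ.n2 (940, 27660) (by decide +kernel)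
                  (CovZ.leaf K2_ok TF_l12366 _)
                  (CovZ.leaf K2_ok TF_l12367 _))
                 (CovZ.leaf K2_ok TF_l3730 _))))
              (CovZ.n1 (840, 27640) (by decide +kernel)
               (CovZ.leaf K2_ok TF_l3731 _)
               (CovZ.leaf K2_ok TF_l3732 _)))
             (CovZ.subM 10889412183012081647049917793561837830144 (by decide +kernel)
              (CovZ.n1 (960, 27600) (by decide +kernel)
               (CovZ.n2 (920, 27560) (by decide +kernel)
                (CovZ.leaf K2_ok TF_l3733 _)
                (CovZ.n1 (960, 27560) (by decide +kernel)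
                 (CovZ.leaf K2_ok TF_l3734 _)
                 (CovZ.leaf K2_ok TF_l3735 _)))
               (CovZ.n1 (920, 27640) (by decide +kernel)
                (CovZ.n2 (960, 27640) (by decide +kernel)
                 (CovZ.leaf K2_ok TF_l12368 _)
                 (CovZ.n1 (940, 27660) (by decide +kernel)
                  (CovZ.badM (by decide +kernel))
                  (CovZ.leaf K2_ok TF_l12369 _)))
                (CovZ.leaf K2_ok TF_l3736 _)))))
            (CovZ.n1 (880, 27760) (by decide +kernel)
             (CovZ.subM 10889038337638267139460663597821839015936 (by decide +kernel)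
              (CovZ.n2 (960, 27760) (by decide +kernel)
               (CovZ.n2 (920, 27720) (by decide +kernel)
                (CovZ.n2 (920, 27760) (by decide +kernel)
                 (CovZ.n2 (940, 27740) (by decide +kernel)
                  (CovZ.leaf K2_ok TF_l12370 _)
                  (CovZ.leaf K2_ok TF_l12371 _))
                 (CovZ.leaf K2_ok TF_l3737 _))
                (CovZ.n1 (960, 27720) (by decide +kernel)
                 (CovZ.n2 (940, 27700) (by decide +kernel)
                  (CovZ.leaf K2_ok TF_l12372 _)
                  (CovZ.badM (by decide +kernel)))
                 (CovZ.n1 (940, 27740) (by decide +kernel)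
                  (CovZ.badM (by decide +kernel))
                  (CovZ.leaf K2_ok TF_l12373 _))))
               (CovZ.n1 (920, 27800) (by decide +kernel)
                (CovZ.n2 (960, 27800) (by decide +kernel)
                 (CovZ.n2 (940, 27780) (by decide +kernel)
                  (CovZ.leaf K2_ok TF_l12374 _)
                  (CovZ.badM (by decide +kernel)))
                 (CovZ.n1 (940, 27820) (by decide +kernel)
                  (CovZ.badM (by decide +kernel))
                  (CovZ.leaf K2_ok TF_l12375 _)))
                (CovZ.leaf K2_ok TF_l3738 _))))
             (CovZ.n1 (880, 27680) (by decide +kernel)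
              (CovZ.n2 (840, 27720) (by decide +kernel)
               (CovZ.leaf K2_ok TF_l3739 _)
               (CovZ.leaf K2_ok TF_l3740 _))
              (CovZ.leaf K2_ok TF_l3741 _))))
           (CovZ.n1 (800, 27520) (by decide +kernel)
            (CovZ.n2 (720, 27600) (by decide +kernel)
             (CovZ.n2 (800, 27600) (by decide +kernel)
              (CovZ.leaf K2_ok TF_l3742 _)
              (CovZ.leaf K2_ok TF_l3743 _))
             (CovZ.leaf K2_ok TF_l3744 _))
            (CovZ.n1 (880, 27600) (by decide +kernel)
             (CovZ.n2 (880, 27520) (by decide +kernel)
              (CovZ.n2 (840, 27560) (by decide +kernel)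
               (CovZ.leaf K2_ok TF_l3745 _)
               (CovZ.leaf K2_ok TF_l3746 _))
              (CovZ.leaf K2_ok TF_l3747 _))
             (CovZ.n1 (800, 27600) (by decide +kernel)
              (CovZ.leaf K2_ok TF_l3748 _)
              (CovZ.n1 (840, 27560) (by decide +kernel)
               (CovZ.leaf K2_ok TF_l3749 _)
               (CovZ.leaf K2_ok TF_l3750 _))))))
          (CovZ.badM (by decide +kernel))))))

theorem TF_u162 : CovZ TF_M (toL (selN TF_LN 4835998426363696186392576)) [0, 7, 4, 3] (0, 29440) (0, 30080) (-640, 30080) :=
    (CovZ.n2 (-320, 29760) (by decide +kernel)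
         (CovZ.n2 (-320, 30080) (by decide +kernel)
          (CovZ.n2 (-160, 29920) (by decide +kernel)
           (CovZ.n2 (-320, 29920) (by decide +kernel)
            (CovZ.n2 (-240, 30000) (by decide +kernel)
             (CovZ.leaf K2_ok TF_l2261 _)
             (CovZ.n1 (-320, 30000) (by decide +kernel)
              (CovZ.leaf K2_ok TF_l2262 _)
              (CovZ.leaf K2_ok TF_l2263 _)))
            (CovZ.n1 (-240, 29840) (by decide +kernel)
             (CovZ.leaf K2_ok TF_l2264 _)
             (CovZ.n1 (-240, 29920) (by decide +kernel)
              (CovZ.leaf K2_ok TF_l2265 _)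
              (CovZ.leaf K2_ok TF_l2266 _))))
           (CovZ.n1 (-160, 30080) (by decide +kernel)
            (CovZ.n2 (-80, 30000) (by decide +kernel)
             (CovZ.leaf K2_ok TF_l2267 _)
             (CovZ.leaf K2_ok TF_l11013 _))
            (CovZ.n1 (-240, 30000) (by decide +kernel)
             (CovZ.n2 (-240, 30080) (by decide +kernel)
              (CovZ.leaf K2_ok TF_l2268 _)
              (CovZ.leaf K2_ok TF_l2269 _))
             (CovZ.leaf K2_ok TF_l2270 _))))
          (CovZ.n1 (-480, 29920) (by decide +kernel)
           (CovZ.n2 (-480, 30080) (by decide +kernel)
            (CovZ.n2 (-400, 30000) (by decide +kernel)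
             (CovZ.n2 (-480, 30000) (by decide +kernel)
              (CovZ.n2 (-440, 30040) (by decide +kernel)
               (CovZ.n2 (-440, 30000) (by decide +kernel)
                (CovZ.n2 (-460, 30020) (by decide +kernel)
                 (CovZ.leaf K2_ok TF_l11014 _)
                 (CovZ.leaf K2_ok TF_l11015 _))
                (CovZ.leaf K2_ok TF_l11016 _))
               (CovZ.n1 (-480, 30040) (by decide +kernel)
                (CovZ.leaf K2_ok TF_l11017 _)
                (CovZ.n1 (-460, 30020) (by decide +kernel)
                 (CovZ.leaf K2_ok TF_l11018 _)
                 (CovZ.leaf K2_ok TF_l11019 _))))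
              (CovZ.n1 (-440, 29960) (by decide +kernel)
               (CovZ.leaf K2_ok TF_l11020 _)
               (CovZ.n1 (-440, 30000) (by decide +kernel)
                (CovZ.leaf K2_ok TF_l11021 _)
                (CovZ.leaf K2_ok TF_l11022 _))))
             (CovZ.n1 (-400, 30080) (by decide +kernel)
              (CovZ.n2 (-360, 30040) (by decide +kernel)
               (CovZ.leaf K2_ok TF_l2271 _)
               (CovZ.leaf K2_ok TF_l2272 _))
              (CovZ.n1 (-440, 30040) (by decide +kernel)
               (CovZ.n2 (-440, 30080) (by decide +kernel)
                (CovZ.leaf K2_ok TF_l2273 _)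
                (CovZ.n1 (-460, 30060) (by decide +kernel)
                 (CovZ.leaf K2_ok TF_l11023 _)
                 (CovZ.leaf K2_ok TF_l11024 _)))
               (CovZ.n1 (-400, 30040) (by decide +kernel)
                (CovZ.leaf K2_ok TF_l11025 _)
                (CovZ.leaf K2_ok TF_l2274 _)))))
            (CovZ.n1 (-560, 30000) (by decide +kernel)
             (CovZ.n2 (-560, 30080) (by decide +kernel)
              (CovZ.n2 (-520, 30040) (by decide +kernel)
               (CovZ.badM (by decide +kernel))
               (CovZ.n1 (-520, 30080) (by decide +kernel)
                (CovZ.n2 (-500, 30060) (by decide +kernel)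
                 (CovZ.badM (by decide +kernel))
                 (CovZ.n1 (-500, 30080) (by decide +kernel)
                  (CovZ.leaf K2_ok TF_l11026 _)
                  (CovZ.badM (by decide +kernel))))
                (CovZ.badM (by decide +kernel))))
              (CovZ.badM (by decide +kernel)))
             (CovZ.n1 (-480, 30000) (by decide +kernel)
              (CovZ.n2 (-520, 29960) (by decide +kernel)
               (CovZ.n2 (-520, 30000) (by decide +kernel)
                (CovZ.n2 (-500, 29980) (by decide +kernel)
                 (CovZ.leaf K2_ok TF_l11027 _)
                 (CovZ.n1 (-500, 30000) (by decide +kernel)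
                  (CovZ.leaf K2_ok TF_l11028 _)
                  (CovZ.leaf K2_ok TF_l11029 _)))
                (CovZ.badM (by decide +kernel)))
               (CovZ.n1 (-480, 29960) (by decide +kernel)
                (CovZ.n2 (-500, 29940) (by decide +kernel)
                 (CovZ.n2 (-500, 29960) (by decide +kernel)
                  (CovZ.leaf K2_ok TF_l11030 _)
                  (CovZ.leaf K2_ok TF_l11031 _))
                 (CovZ.leaf K2_ok TF_l11032 _))
                (CovZ.n1 (-500, 29980) (by decide +kernel)
                 (CovZ.leaf K2_ok TF_l11033 _)
                 (CovZ.leaf K2_ok TF_l11034 _))))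
              (CovZ.n1 (-520, 30040) (by decide +kernel)
               (CovZ.n2 (-480, 30040) (by decide +kernel)
                (CovZ.n2 (-500, 30020) (by decide +kernel)
                 (CovZ.n2 (-500, 30040) (by decide +kernel)
                  (CovZ.leaf K2_ok TF_l11035 _)
                  (CovZ.badM (by decide +kernel)))
                 (CovZ.leaf K2_ok TF_l11036 _))
                (CovZ.n1 (-500, 30060) (by decide +kernel)
                 (CovZ.n2 (-480, 30060) (by decide +kernel)
                  (CovZ.leaf K2_ok TF_l11037 _)
                  (CovZ.leaf K2_ok TF_l11038 _))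
                 (CovZ.leaf K2_ok TF_l11039 _)))
               (CovZ.n1 (-520, 30000) (by decide +kernel)
                (CovZ.badM (by decide +kernel))
                (CovZ.leaf K2_ok TF_l11040 _))))))
           (CovZ.n1 (-320, 29920) (by decide +kernel)
            (CovZ.n2 (-400, 29840) (by decide +kernel)
             (CovZ.n2 (-400, 29920) (by decide +kernel)
              (CovZ.n2 (-360, 29880) (by decide +kernel)
               (CovZ.leaf K2_ok TF_l11041 _)
               (CovZ.leaf K2_ok TF_l2275 _))
              (CovZ.n1 (-440, 29880) (by decide +kernel)
               (CovZ.n2 (-440, 29920) (by decide +kernel)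
                (CovZ.leaf K2_ok TF_l11042 _)
                (CovZ.leaf K2_ok TF_l11043 _))
               (CovZ.leaf K2_ok TF_l11044 _)))
             (CovZ.n1 (-320, 29840) (by decide +kernel)
              (CovZ.leaf K2_ok TF_l11045 _)
              (CovZ.n1 (-360, 29880) (by decide +kernel)
               (CovZ.leaf K2_ok TF_l2276 _)
               (CovZ.leaf K2_ok TF_l11046 _))))
            (CovZ.n1 (-400, 30000) (by decide +kernel)
             (CovZ.n2 (-320, 30000) (by decide +kernel)
              (CovZ.n2 (-360, 29960) (by decide +kernel)
               (CovZ.leaf K2_ok TF_l2277 _)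
               (CovZ.leaf K2_ok TF_l2278 _))
              (CovZ.n1 (-360, 30040) (by decide +kernel)
               (CovZ.leaf K2_ok TF_l2279 _)
               (CovZ.leaf K2_ok TF_l2280 _)))
             (CovZ.n1 (-400, 29920) (by decide +kernel)
              (CovZ.n2 (-440, 29960) (by decide +kernel)
               (CovZ.leaf K2_ok TF_l11047 _)
               (CovZ.leaf K2_ok TF_l11048 _))
              (CovZ.leaf K2_ok TF_l2281 _))))))
         (CovZ.n1 (0, 29760) (by decide +kernel)
          (CovZ.n2 (-160, 29600) (by decide +kernel)
           (CovZ.n2 (-160, 29760) (by decide +kernel)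
            (CovZ.n2 (-80, 29680) (by decide +kernel)
             (CovZ.leaf K2_ok TF_l2282 _)
             (CovZ.leaf K2_ok TF_l2283 _))
            (CovZ.n1 (-240, 29680) (by decide +kernel)
             (CovZ.leaf K2_ok TF_l2284 _)
             (CovZ.leaf K2_ok TF_l2285 _)))
           (CovZ.n1 (0, 29600) (by decide +kernel)
            (CovZ.n2 (-80, 29520) (by decide +kernel)
             (CovZ.leaf K2_ok TF_l2286 _)
             (CovZ.leaf K2_ok TF_l2287 _))
            (CovZ.n1 (-80, 29680) (by decide +kernel)
             (CovZ.leaf K2_ok TF_l2288 _)
             (CovZ.leaf K2_ok TF_l2289 _))))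
          (CovZ.n1 (-160, 29920) (by decide +kernel)
           (CovZ.n2 (0, 29920) (by decide +kernel)
            (CovZ.n2 (-80, 29840) (by decide +kernel)
             (CovZ.leaf K2_ok TF_l2290 _)
             (CovZ.leaf K2_ok TF_l2291 _))
            (CovZ.n1 (-80, 30000) (by decide +kernel)
             (CovZ.leaf K2_ok TF_l2292 _)
             (CovZ.leaf K2_ok TF_l2293 _)))
           (CovZ.n1 (-160, 29760) (by decide +kernel)
            (CovZ.n2 (-240, 29840) (by decide +kernel)
             (CovZ.leaf K2_ok TF_l2294 _)
             (CovZ.leaf K2_ok TF_l2295 _))
            (CovZ.leaf K2_ok TF_l2296 _)))))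

end Pool.Agent.TET
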