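import Pool.Agent.Helper38_TET.TF_M
import Pool.Agent.Helper38_TET.TF_L
import Pool.Agent.Helper38_TET.TF_5
import Pool.Agent.Helper38_TET.TF_6
import Pool.Agent.Helper38_TET.TF_11
import Pool.Agent.Helper38_TET.TF_12
import Pool.Agent.Helper38_TET.TF_32
import Pool.Agent.Helper38_TET.TF_34
import Pool.Agent.Helper38_TET.TF_64
import Pool.Agent.Helper38_TET.TF_65
import Pool.Agent.Helper38_TET.TF_66
import Pool.Agent.Helper38_TET.TF_71
import Pool.Agent.Helper38_TET.TF_72
import Pool.Agent.Helper38_TET.TF_88
import Pool.Agent.Helper38_TET.TF_89
import Pool.Agent.Helper38_TET.TF_90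
import Pool.Agent.Helper38_TET.TF_91
import Pool.Agent.Helper38_TET.TF_107
import Pool.Agent.Helper38_TET.TF_108
import Pool.Agent.Helper38_TET.TF_U8

/-!
# MP_c7c9bf_co: certificates, family TF
-/

set_option autoImplicit false
set_option maxRecDepth 100000

namespace Pool.Agent.TET

theorem TF_u134 : CovZ TF_M (toL (selN TF_LN 89213869853878355374737907723588286963318800)) [0, 7, 4, 3] (-2560, 25600) (-3840, 24320) (-2560, 23040) :=
    (CovZ.n2 (-2560, 24320) (by decide +kernel)
     (CovZ.n2 (-3200, 23680) (by decide +kernel)
      TF_u128
      TF_u129)
     (CovZ.subM 89213869853229298460380425406699971064889360 (by decide +kernel)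
      (CovZ.n1 (-3200, 24960) (by decide +kernel)
       (CovZ.n2 (-2560, 24960) (by decide +kernel)
        (CovZ.n2 (-2880, 24640) (by decide +kernel)
         (CovZ.n2 (-2880, 24960) (by decide +kernel)
          (CovZ.badM (by decide +kernel))
          (CovZ.n1 (-3040, 24800) (by decide +kernel)
           (CovZ.badM (by decide +kernel))
           (CovZ.badM (by decide +kernel))))
         (CovZ.subM 10889038337618460098241801984539724087296 (by decide +kernel)
          (CovZ.n1 (-2560, 24640) (by decide +kernel)
           (CovZ.n2 (-2720, 24480) (by decide +kernel)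
            (CovZ.n2 (-2720, 24640) (by decide +kernel)
             (CovZ.n2 (-2640, 24560) (by decide +kernel)
              (CovZ.n2 (-2720, 24560) (by decide +kernel)
               (CovZ.leaf K2_ok TF_l894 _)
               (CovZ.leaf K2_ok TF_l895 _))
              (CovZ.n1 (-2640, 24640) (by decide +kernel)
               (CovZ.leaf K2_ok TF_l896 _)
               (CovZ.leaf K2_ok TF_l897 _)))
             (CovZ.n1 (-2800, 24560) (by decide +kernel)
              (CovZ.badM (by decide +kernel))
              (CovZ.n1 (-2720, 24560) (by decide +kernel)
               (CovZ.n2 (-2760, 24520) (by decide +kernel)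
                (CovZ.badM (by decide +kernel))
                (CovZ.leaf K2_ok TF_l900 _))
               (CovZ.badM (by decide +kernel)))))
            (CovZ.n1 (-2560, 24480) (by decide +kernel)
             (CovZ.n2 (-2640, 24400) (by decide +kernel)
              (CovZ.n2 (-2640, 24480) (by decide +kernel)
               (CovZ.leaf K2_ok TF_l903 _)
               (CovZ.leaf K2_ok TF_l904 _))
              (CovZ.leaf K2_ok TF_l905 _))
             (CovZ.n1 (-2640, 24560) (by decide +kernel)
              (CovZ.leaf K2_ok TF_l906 _)
              (CovZ.n1 (-2640, 24480) (by decide +kernel)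
               (CovZ.leaf K2_ok TF_l907 _)
               (CovZ.leaf K2_ok TF_l908 _)))))
           (CovZ.n1 (-2720, 24800) (by decide +kernel)
            (CovZ.n2 (-2560, 24800) (by decide +kernel)
             (CovZ.n2 (-2640, 24720) (by decide +kernel)
              (CovZ.n2 (-2640, 24800) (by decide +kernel)
               (CovZ.leaf K2_ok TF_l909 _)
               (CovZ.badM (by decide +kernel)))
              (CovZ.n1 (-2560, 24720) (by decide +kernel)
               (CovZ.leaf K2_ok TF_l911 _)
               (CovZ.leaf K2_ok TF_l912 _)))
             (CovZ.n1 (-2640, 24880) (by decide +kernel)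
              (CovZ.n2 (-2560, 24880) (by decide +kernel)
               (CovZ.leaf K2_ok TF_l913 _)
               (CovZ.n1 (-2600, 24920) (by decide +kernel)
                (CovZ.leaf K2_ok TF_l914 _)
                (CovZ.leaf K2_ok TF_l915 _)))
              (CovZ.n1 (-2640, 24800) (by decide +kernel)
               (CovZ.badM (by decide +kernel))
               (CovZ.leaf K2_ok TF_l916 _))))
            (CovZ.n1 (-2720, 24640) (by decide +kernel)
             (CovZ.badM (by decide +kernel))
             (CovZ.n1 (-2640, 24720) (by decide +kernel)
              (CovZ.n2 (-2640, 24640) (by decide +kernel)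
               (CovZ.n2 (-2680, 24680) (by decide +kernel)
                (CovZ.leaf K2_ok TF_l920 _)
                (CovZ.leaf K2_ok TF_l921 _))
               (CovZ.leaf K2_ok TF_l922 _))
              (CovZ.badM (by decide +kernel))))))))
        (CovZ.subM 89202980814891680000282183604715431340802064 (by decide +kernel)
         (CovZ.n1 (-2880, 25280) (by decide +kernel)
          (CovZ.n2 (-2560, 25280) (by decide +kernel)
           (CovZ.n2 (-2720, 25120) (by decide +kernel)
            (CovZ.badM (by decide +kernel))
            (CovZ.n1 (-2560, 25120) (by decide +kernel)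
             (CovZ.n2 (-2640, 25040) (by decide +kernel)
              (CovZ.n2 (-2640, 25120) (by decide +kernel)
               (CovZ.n2 (-2600, 25080) (by decide +kernel)
                (CovZ.leaf K2_ok TF_l9580 _)
                (CovZ.n1 (-2600, 25120) (by decide +kernel)
                 (CovZ.leaf K2_ok TF_l926 _)
                 (CovZ.leaf K2_ok TF_l9581 _)))
               (CovZ.n1 (-2680, 25080) (by decide +kernel)
                (CovZ.badM (by decide +kernel))
                (CovZ.n1 (-2640, 25080) (by decide +kernel)
                 (CovZ.n2 (-2660, 25060) (by decide +kernel)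
                  (CovZ.badM (by decide +kernel))
                  (CovZ.leaf K2_ok TF_l9582 _))
                 (CovZ.badM (by decide +kernel)))))
              (CovZ.n1 (-2560, 25040) (by decide +kernel)
               (CovZ.badM (by decide +kernel))
               (CovZ.n1 (-2600, 25080) (by decide +kernel)
                (CovZ.leaf K2_ok TF_l929 _)
                (CovZ.badM (by decide +kernel)))))
             (CovZ.n1 (-2640, 25200) (by decide +kernel)
              (CovZ.n2 (-2560, 25200) (by decide +kernel)
               (CovZ.n2 (-2600, 25160) (by decide +kernel)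
                (CovZ.n2 (-2600, 25200) (by decide +kernel)
                 (CovZ.leaf K2_ok TF_l931 _)
                 (CovZ.badM (by decide +kernel)))
                (CovZ.n1 (-2560, 25160) (by decide +kernel)
                 (CovZ.leaf K2_ok TF_l932 _)
                 (CovZ.leaf K2_ok TF_l933 _)))
               (CovZ.n1 (-2600, 25240) (by decide +kernel)
                (CovZ.n2 (-2560, 25240) (by decide +kernel)
                 (CovZ.leaf K2_ok TF_l934 _)
                 (CovZ.badM (by decide +kernel)))
                (CovZ.n1 (-2600, 25200) (by decide +kernel)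
                 (CovZ.badM (by decide +kernel))
                 (CovZ.leaf K2_ok TF_l935 _))))
              (CovZ.n1 (-2640, 25120) (by decide +kernel)
               (CovZ.badM (by decide +kernel))
               (CovZ.n1 (-2600, 25160) (by decide +kernel)
                (CovZ.n2 (-2600, 25120) (by decide +kernel)
                 (CovZ.n2 (-2620, 25140) (by decide +kernel)
                  (CovZ.leaf K2_ok TF_l9583 _)
                  (CovZ.leaf K2_ok TF_l9584 _))
                 (CovZ.leaf K2_ok TF_l936 _))
                (CovZ.badM (by decide +kernel)))))))
           (CovZ.n1 (-2720, 25440) (by decide +kernel)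
            (CovZ.n2 (-2560, 25440) (by decide +kernel)
             (CovZ.n2 (-2640, 25360) (by decide +kernel)
              (CovZ.badM (by decide +kernel))
              (CovZ.n1 (-2560, 25360) (by decide +kernel)
               (CovZ.badM (by decide +kernel))
               (CovZ.n1 (-2600, 25400) (by decide +kernel)
                (CovZ.n2 (-2560, 25400) (by decide +kernel)
                 (CovZ.badM (by decide +kernel))
                 (CovZ.n1 (-2580, 25420) (by decide +kernel)
                  (CovZ.n2 (-2560, 25420) (by decide +kernel)
                   (CovZ.n2 (-2570, 25410) (by decide +kernel)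
                    (CovZ.badM (by decide +kernel))
                    (CovZ.leaf K2_ok TF_l9585 _))
                   (CovZ.badM (by decide +kernel)))
                  (CovZ.badM (by decide +kernel))))
                (CovZ.badM (by decide +kernel)))))
             (CovZ.badM (by decide +kernel)))
            (CovZ.badM (by decide +kernel))))
          (CovZ.n1 (-2880, 24960) (by decide +kernel)
           (CovZ.badM (by decide +kernel))
           (CovZ.n1 (-2720, 25120) (by decide +kernel)
            (CovZ.n2 (-2720, 24960) (by decide +kernel)
             (CovZ.badM (by decide +kernel))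
             (CovZ.n1 (-2640, 25040) (by decide +kernel)
              (CovZ.badM (by decide +kernel))
              (CovZ.n1 (-2720, 25040) (by decide +kernel)
               (CovZ.n2 (-2680, 25080) (by decide +kernel)
                (CovZ.n2 (-2680, 25040) (by decide +kernel)
                 (CovZ.badM (by decide +kernel))
                 (CovZ.n1 (-2660, 25060) (by decide +kernel)
                  (CovZ.badM (by decide +kernel))
                  (CovZ.badM (by decide +kernel))))
                (CovZ.badM (by decide +kernel)))
               (CovZ.badM (by decide +kernel)))))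
            (CovZ.badM (by decide +kernel)))))))
       (CovZ.n1 (-3200, 24320) (by decide +kernel)
        (CovZ.badM (by decide +kernel))
        (CovZ.n1 (-2880, 24640) (by decide +kernel)
         (CovZ.subM 10889038337618460098241801984539724087296 (by decide +kernel)
          (CovZ.n2 (-2880, 24320) (by decide +kernel)
           (CovZ.badM (by decide +kernel))
           (CovZ.n1 (-2720, 24480) (by decide +kernel)
            (CovZ.n2 (-2720, 24320) (by decide +kernel)
             (CovZ.n2 (-2800, 24400) (by decide +kernel)
              (CovZ.n2 (-2720, 24400) (by decide +kernel)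
               (CovZ.n2 (-2760, 24360) (by decide +kernel)
                (CovZ.leaf K2_ok TF_l937 _)
                (CovZ.leaf K2_ok TF_l938 _))
               (CovZ.n1 (-2760, 24440) (by decide +kernel)
                (CovZ.leaf K2_ok TF_l939 _)
                (CovZ.leaf K2_ok TF_l940 _)))
              (CovZ.n1 (-2800, 24320) (by decide +kernel)
               (CovZ.n2 (-2840, 24360) (by decide +kernel)
                (CovZ.n2 (-2800, 24360) (by decide +kernel)
                 (CovZ.leaf K2_ok TF_l9586 _)
                 (CovZ.leaf K2_ok TF_l9587 _))
                (CovZ.n1 (-2840, 24320) (by decide +kernel)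
                 (CovZ.n2 (-2860, 24340) (by decide +kernel)
                  (CovZ.leaf K2_ok TF_l9588 _)
                  (CovZ.leaf K2_ok TF_l9589 _))
                 (CovZ.leaf K2_ok TF_l9590 _)))
               (CovZ.leaf K2_ok TF_l941 _)))
             (CovZ.leaf K2_ok TF_l942 _))
            (CovZ.n1 (-2880, 24480) (by decide +kernel)
             (CovZ.n2 (-2800, 24560) (by decide +kernel)
              (CovZ.n2 (-2800, 24480) (by decide +kernel)
               (CovZ.badM (by decide +kernel))
               (CovZ.leaf K2_ok TF_l943 _))
              (CovZ.badM (by decide +kernel)))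
             (CovZ.n1 (-2800, 24400) (by decide +kernel)
              (CovZ.n2 (-2880, 24400) (by decide +kernel)
               (CovZ.n2 (-2840, 24440) (by decide +kernel)
                (CovZ.n2 (-2840, 24400) (by decide +kernel)
                 (CovZ.badM (by decide +kernel))
                 (CovZ.leaf K2_ok TF_l9591 _))
                (CovZ.badM (by decide +kernel)))
               (CovZ.n1 (-2840, 24360) (by decide +kernel)
                (CovZ.badM (by decide +kernel))
                (CovZ.n1 (-2840, 24400) (by decide +kernel)
                 (CovZ.leaf K2_ok TF_l9592 _)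
                 (CovZ.badM (by decide +kernel)))))
              (CovZ.n1 (-2800, 24480) (by decide +kernel)
               (CovZ.n2 (-2760, 24440) (by decide +kernel)
                (CovZ.leaf K2_ok TF_l9593 _)
                (CovZ.n1 (-2760, 24480) (by decide +kernel)
                 (CovZ.leaf K2_ok TF_l944 _)
                 (CovZ.leaf K2_ok TF_l9594 _)))
               (CovZ.n1 (-2840, 24440) (by decide +kernel)
                (CovZ.badM (by decide +kernel))
                (CovZ.n1 (-2800, 24440) (by decide +kernel)
                 (CovZ.leaf K2_ok TF_l9595 _)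
                 (CovZ.badM (by decide +kernel))))))))))
         (CovZ.n1 (-3200, 24640) (by decide +kernel)
          (CovZ.n2 (-3040, 24800) (by decide +kernel)
           (CovZ.badM (by decide +kernel))
           (CovZ.badM (by decide +kernel)))
          (CovZ.badM (by decide +kernel))))))))

theorem TF_u135 : CovZ TF_M (toL (selN TF_LN 89213869853878355374737907723588286963318800)) [0, 7, 4, 3] (-3840, 24320) (-5120, 23040) (-2560, 23040) :=
    (CovZ.n1 (-3840, 23040) (by decide +kernel)
     (CovZ.subM 649037107316853750803896037539840 (by decide +kernel)
      (CovZ.n2 (-4480, 23680) (by decide +kernel)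
       (CovZ.n2 (-3840, 23680) (by decide +kernel)
        TF_u130
        TF_u131)
       (CovZ.n1 (-4480, 23040) (by decide +kernel)
        (CovZ.n2 (-4800, 23360) (by decide +kernel)
         (CovZ.n2 (-4480, 23360) (by decide +kernel)
          (CovZ.n2 (-4640, 23200) (by decide +kernel)
           (CovZ.n2 (-4640, 23360) (by decide +kernel)
            (CovZ.leaf K2_ok TF_l9693 _)
            (CovZ.leaf K2_ok TF_l9694 _))
           (CovZ.leaf K2_ok TF_l9695 _))
          (CovZ.n1 (-4640, 23520) (by decide +kernel)
           (CovZ.n2 (-4480, 23520) (by decide +kernel)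
            (CovZ.leaf K2_ok TF_l9696 _)
            (CovZ.n1 (-4560, 23600) (by decide +kernel)
             (CovZ.leaf K2_ok TF_l9697 _)
             (CovZ.leaf K2_ok TF_l9698 _)))
           (CovZ.leaf K2_ok TF_l9699 _)))
         (CovZ.n1 (-4800, 23040) (by decide +kernel)
          (CovZ.n2 (-4960, 23200) (by decide +kernel)
           (CovZ.leaf K2_ok TF_l9700 _)
           (CovZ.leaf K2_ok TF_l9701 _))
          (CovZ.leaf K2_ok TF_l9702 _)))
        (CovZ.n1 (-4160, 23360) (by decide +kernel)
         (CovZ.n2 (-4160, 23040) (by decide +kernel)
          (CovZ.n2 (-4320, 23200) (by decide +kernel)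
           (CovZ.leaf K2_ok TF_l956 _)
           (CovZ.leaf K2_ok TF_l957 _))
          (CovZ.leaf K2_ok TF_l958 _))
         (CovZ.n1 (-4480, 23360) (by decide +kernel)
          (CovZ.n2 (-4320, 23520) (by decide +kernel)
           (CovZ.n2 (-4320, 23360) (by decide +kernel)
            (CovZ.n2 (-4400, 23440) (by decide +kernel)
             (CovZ.leaf K2_ok TF_l9703 _)
             (CovZ.leaf K2_ok TF_l9704 _))
            (CovZ.leaf K2_ok TF_l9705 _))
           (CovZ.n1 (-4480, 23520) (by decide +kernel)
            (CovZ.leaf K2_ok TF_l9706 _)
            (CovZ.n1 (-4400, 23440) (by decide +kernel)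
             (CovZ.leaf K2_ok TF_l9707 _)
             (CovZ.leaf K2_ok TF_l9708 _))))
          (CovZ.n1 (-4320, 23200) (by decide +kernel)
           (CovZ.leaf K2_ok TF_l9709 _)
           (CovZ.n1 (-4320, 23360) (by decide +kernel)
            (CovZ.leaf K2_ok TF_l9710 _)
            (CovZ.leaf K2_ok TF_l9711 _))))))))
     (CovZ.n1 (-3200, 23680) (by decide +kernel)
      (CovZ.n2 (-3200, 23040) (by decide +kernel)
       (CovZ.subM 10889036390507138147681729515988342276096 (by decide +kernel)
        (CovZ.n2 (-3520, 23360) (by decide +kernel)
         (CovZ.n2 (-3200, 23360) (by decide +kernel)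
          (CovZ.n2 (-3360, 23200) (by decide +kernel)
           (CovZ.n2 (-3360, 23360) (by decide +kernel)
            (CovZ.leaf K2_ok TF_l959 _)
            (CovZ.leaf K2_ok TF_l960 _))
           (CovZ.n1 (-3200, 23200) (by decide +kernel)
            (CovZ.leaf K2_ok TF_l961 _)
            (CovZ.leaf K2_ok TF_l962 _)))
          (CovZ.n1 (-3360, 23520) (by decide +kernel)
           (CovZ.n2 (-3200, 23520) (by decide +kernel)
            (CovZ.n2 (-3280, 23440) (by decide +kernel)
             (CovZ.leaf K2_ok TF_l963 _)
             (CovZ.leaf K2_ok TF_l964 _))
            (CovZ.n1 (-3280, 23600) (by decide +kernel)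
             (CovZ.leaf K2_ok TF_l9712 _)
             (CovZ.leaf K2_ok TF_l965 _)))
           (CovZ.n1 (-3360, 23360) (by decide +kernel)
            (CovZ.n2 (-3440, 23440) (by decide +kernel)
             (CovZ.leaf K2_ok TF_l966 _)
             (CovZ.leaf K2_ok TF_l967 _))
            (CovZ.leaf K2_ok TF_l968 _))))
         (CovZ.n1 (-3520, 23040) (by decide +kernel)
          (CovZ.n2 (-3680, 23200) (by decide +kernel)
           (CovZ.n2 (-3520, 23200) (by decide +kernel)
            (CovZ.leaf K2_ok TF_l969 _)
            (CovZ.leaf K2_ok TF_l970 _))
           (CovZ.leaf K2_ok TF_l971 _))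
          (CovZ.leaf K2_ok TF_l972 _))))
       (CovZ.n1 (-2880, 23360) (by decide +kernel)
        (CovZ.n2 (-2880, 23040) (by decide +kernel)
         (CovZ.n2 (-3040, 23200) (by decide +kernel)
          (CovZ.leaf K2_ok TF_l973 _)
          (CovZ.leaf K2_ok TF_l974 _))
         (CovZ.leaf K2_ok TF_l975 _))
        (CovZ.subM 10889038986655567415095255550860355174400 (by decide +kernel)
         (CovZ.n1 (-3200, 23360) (by decide +kernel)
          (CovZ.n2 (-3040, 23520) (by decide +kernel)
           (CovZ.n2 (-3040, 23360) (by decide +kernel)
            (CovZ.n2 (-3120, 23440) (by decide +kernel)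
             (CovZ.leaf K2_ok TF_l976 _)
             (CovZ.leaf K2_ok TF_l977 _))
            (CovZ.leaf K2_ok TF_l978 _))
           (CovZ.n1 (-3200, 23520) (by decide +kernel)
            (CovZ.leaf K2_ok TF_l9713 _)
            (CovZ.n1 (-3120, 23440) (by decide +kernel)
             (CovZ.leaf K2_ok TF_l979 _)
             (CovZ.leaf K2_ok TF_l9714 _))))
          (CovZ.n1 (-3040, 23200) (by decide +kernel)
           (CovZ.leaf K2_ok TF_l980 _)
           (CovZ.n1 (-3040, 23360) (by decide +kernel)
            (CovZ.leaf K2_ok TF_l981 _)
            (CovZ.leaf K2_ok TF_l982 _)))))))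
      (CovZ.subM 649037107316853742078171759509504 (by decide +kernel)
       (CovZ.n1 (-3840, 23680) (by decide +kernel)
        (CovZ.n2 (-3520, 24000) (by decide +kernel)
         TF_u132
         TF_u133)
        (CovZ.n1 (-3520, 23360) (by decide +kernel)
         (CovZ.n2 (-3840, 23360) (by decide +kernel)
          (CovZ.n2 (-3680, 23520) (by decide +kernel)
           (CovZ.n2 (-3680, 23360) (by decide +kernel)
            (CovZ.n2 (-3760, 23440) (by decide +kernel)
             (CovZ.leaf K2_ok TF_l1000 _)
             (CovZ.leaf K2_ok TF_l1001 _))
            (CovZ.leaf K2_ok TF_l1002 _))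
           (CovZ.n1 (-3840, 23520) (by decide +kernel)
            (CovZ.leaf K2_ok TF_l1003 _)
            (CovZ.n1 (-3760, 23440) (by decide +kernel)
             (CovZ.leaf K2_ok TF_l1004 _)
             (CovZ.leaf K2_ok TF_l1005 _))))
          (CovZ.n1 (-3680, 23200) (by decide +kernel)
           (CovZ.leaf K2_ok TF_l1006 _)
           (CovZ.n1 (-3680, 23360) (by decide +kernel)
            (CovZ.leaf K2_ok TF_l1007 _)
            (CovZ.leaf K2_ok TF_l1008 _))))
         (CovZ.n1 (-3520, 23680) (by decide +kernel)
          (CovZ.n2 (-3360, 23520) (by decide +kernel)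
           (CovZ.n2 (-3520, 23520) (by decide +kernel)
            (CovZ.leaf K2_ok TF_l1009 _)
            (CovZ.n1 (-3440, 23440) (by decide +kernel)
             (CovZ.leaf K2_ok TF_l1010 _)
             (CovZ.leaf K2_ok TF_l1011 _)))
           (CovZ.n1 (-3360, 23680) (by decide +kernel)
            (CovZ.n2 (-3280, 23600) (by decide +kernel)
             (CovZ.leaf K2_ok TF_l1012 _)
             (CovZ.n1 (-3280, 23680) (by decide +kernel)
              (CovZ.leaf K2_ok TF_l9805 _)
              (CovZ.leaf K2_ok TF_l9806 _)))
            (CovZ.n1 (-3440, 23600) (by decide +kernel)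
             (CovZ.n2 (-3440, 23680) (by decide +kernel)
              (CovZ.leaf K2_ok TF_l1013 _)
              (CovZ.leaf K2_ok TF_l1014 _))
             (CovZ.n1 (-3360, 23600) (by decide +kernel)
              (CovZ.leaf K2_ok TF_l1015 _)
              (CovZ.leaf K2_ok TF_l1016 _)))))
          (CovZ.n1 (-3680, 23520) (by decide +kernel)
           (CovZ.n2 (-3680, 23680) (by decide +kernel)
            (CovZ.n2 (-3600, 23600) (by decide +kernel)
             (CovZ.leaf K2_ok TF_l1017 _)
             (CovZ.n1 (-3600, 23680) (by decide +kernel)
              (CovZ.leaf K2_ok TF_l1018 _)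
              (CovZ.leaf K2_ok TF_l1019 _)))
            (CovZ.n1 (-3760, 23600) (by decide +kernel)
             (CovZ.n2 (-3760, 23680) (by decide +kernel)
              (CovZ.leaf K2_ok TF_l1020 _)
              (CovZ.leaf K2_ok TF_l1021 _))
             (CovZ.n1 (-3680, 23600) (by decide +kernel)
              (CovZ.leaf K2_ok TF_l1022 _)
              (CovZ.leaf K2_ok TF_l1023 _))))
           (CovZ.n1 (-3520, 23520) (by decide +kernel)
            (CovZ.n2 (-3600, 23440) (by decide +kernel)
             (CovZ.leaf K2_ok TF_l1024 _)
             (CovZ.leaf K2_ok TF_l1025 _))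
            (CovZ.n1 (-3600, 23600) (by decide +kernel)
             (CovZ.n2 (-3520, 23600) (by decide +kernel)
              (CovZ.leaf K2_ok TF_l1026 _)
              (CovZ.leaf K2_ok TF_l1027 _))
             (CovZ.leaf K2_ok TF_l1028 _))))))))))

theorem TF_u136 : CovZ TF_M (toL (selN TF_LN 649037107316853750803896037539840)) [0, 7, 4, 3] (-5120, 23040) (-4480, 23680) (-5120, 24320) :=
    (CovZ.n2 (-5120, 23680) (by decide +kernel)
       (CovZ.n2 (-4800, 24000) (by decide +kernel)
        (CovZ.n2 (-4800, 23680) (by decide +kernel)
         (CovZ.n2 (-4960, 23840) (by decide +kernel)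
          (CovZ.n2 (-4800, 23840) (by decide +kernel)
           (CovZ.n2 (-4880, 23760) (by decide +kernel)
            (CovZ.n2 (-4880, 23840) (by decide +kernel)
             (CovZ.n2 (-4840, 23800) (by decide +kernel)
              (CovZ.leaf K2_ok TF_l9807 _)
              (CovZ.badM (by decide +kernel)))
             (CovZ.n1 (-4920, 23800) (by decide +kernel)
              (CovZ.badM (by decide +kernel))
              (CovZ.leaf K2_ok TF_l9808 _)))
            (CovZ.n1 (-4800, 23760) (by decide +kernel)
             (CovZ.leaf K2_ok TF_l9809 _)
             (CovZ.n1 (-4840, 23800) (by decide +kernel)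
              (CovZ.badM (by decide +kernel))
              (CovZ.leaf K2_ok TF_l9810 _))))
           (CovZ.badM (by decide +kernel)))
          (CovZ.n1 (-4960, 23680) (by decide +kernel)
           (CovZ.n2 (-5040, 23760) (by decide +kernel)
            (CovZ.n2 (-4960, 23760) (by decide +kernel)
             (CovZ.leaf K2_ok TF_l9811 _)
             (CovZ.n1 (-5000, 23800) (by decide +kernel)
              (CovZ.leaf K2_ok TF_l9812 _)
              (CovZ.leaf K2_ok TF_l9813 _)))
            (CovZ.leaf K2_ok TF_l9814 _))
           (CovZ.n1 (-4880, 23760) (by decide +kernel)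
            (CovZ.leaf K2_ok TF_l9815 _)
            (CovZ.leaf K2_ok TF_l9816 _))))
         (CovZ.n1 (-4640, 23840) (by decide +kernel)
          (CovZ.n2 (-4640, 23680) (by decide +kernel)
           (CovZ.n2 (-4720, 23760) (by decide +kernel)
            (CovZ.n2 (-4640, 23760) (by decide +kernel)
             (CovZ.leaf K2_ok TF_l9817 _)
             (CovZ.n1 (-4680, 23800) (by decide +kernel)
              (CovZ.n2 (-4640, 23800) (by decide +kernel)
               (CovZ.leaf K2_ok TF_l9818 _)
               (CovZ.leaf K2_ok TF_l9819 _))
              (CovZ.leaf K2_ok TF_l9820 _)))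
            (CovZ.n1 (-4720, 23680) (by decide +kernel)
             (CovZ.n2 (-4760, 23720) (by decide +kernel)
              (CovZ.leaf K2_ok TF_l9821 _)
              (CovZ.leaf K2_ok TF_l9822 _))
             (CovZ.leaf K2_ok TF_l9823 _)))
           (CovZ.n1 (-4560, 23760) (by decide +kernel)
            (CovZ.n2 (-4560, 23680) (by decide +kernel)
             (CovZ.n2 (-4600, 23720) (by decide +kernel)
              (CovZ.leaf K2_ok TF_l9824 _)
              (CovZ.leaf K2_ok TF_l9825 _))
             (CovZ.leaf K2_ok TF_l9826 _))
            (CovZ.n1 (-4640, 23760) (by decide +kernel)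
             (CovZ.leaf K2_ok TF_l9827 _)
             (CovZ.n1 (-4600, 23720) (by decide +kernel)
              (CovZ.leaf K2_ok TF_l9828 _)
              (CovZ.leaf K2_ok TF_l9829 _)))))
          (CovZ.n1 (-4800, 23840) (by decide +kernel)
           (CovZ.n2 (-4720, 23920) (by decide +kernel)
            (CovZ.n2 (-4720, 23840) (by decide +kernel)
             (CovZ.badM (by decide +kernel))
             (CovZ.n1 (-4680, 23880) (by decide +kernel)
              (CovZ.n2 (-4680, 23840) (by decide +kernel)
               (CovZ.n2 (-4700, 23860) (by decide +kernel)
                (CovZ.leaf K2_ok TF_l9830 _)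
                (CovZ.leaf K2_ok TF_l9831 _))
               (CovZ.leaf K2_ok TF_l9832 _))
              (CovZ.badM (by decide +kernel))))
            (CovZ.badM (by decide +kernel)))
           (CovZ.n1 (-4720, 23760) (by decide +kernel)
            (CovZ.n2 (-4800, 23760) (by decide +kernel)
             (CovZ.leaf K2_ok TF_l9833 _)
             (CovZ.n1 (-4760, 23720) (by decide +kernel)
              (CovZ.leaf K2_ok TF_l9834 _)
              (CovZ.leaf K2_ok TF_l9835 _)))
            (CovZ.n1 (-4720, 23840) (by decide +kernel)
             (CovZ.n2 (-4680, 23800) (by decide +kernel)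
              (CovZ.leaf K2_ok TF_l9836 _)
              (CovZ.n1 (-4680, 23840) (by decide +kernel)
               (CovZ.leaf K2_ok TF_l9837 _)
               (CovZ.leaf K2_ok TF_l9838 _)))
             (CovZ.n1 (-4760, 23800) (by decide +kernel)
              (CovZ.badM (by decide +kernel))
              (CovZ.leaf K2_ok TF_l9839 _)))))))
        (CovZ.n1 (-5120, 24000) (by decide +kernel)
         (CovZ.badM (by decide +kernel))
         (CovZ.n1 (-4960, 23840) (by decide +kernel)
          (CovZ.n2 (-5120, 23840) (by decide +kernel)
           (CovZ.n2 (-5040, 23920) (by decide +kernel)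
            (CovZ.n2 (-5040, 23840) (by decide +kernel)
             (CovZ.n2 (-5080, 23880) (by decide +kernel)
              (CovZ.n2 (-5040, 23880) (by decide +kernel)
               (CovZ.leaf K2_ok TF_l9840 _)
               (CovZ.badM (by decide +kernel)))
              (CovZ.leaf K2_ok TF_l9841 _))
             (CovZ.n1 (-5000, 23880) (by decide +kernel)
              (CovZ.leaf K2_ok TF_l9842 _)
              (CovZ.leaf K2_ok TF_l9843 _)))
            (CovZ.n1 (-5120, 23920) (by decide +kernel)
             (CovZ.badM (by decide +kernel))
             (CovZ.n1 (-5080, 23880) (by decide +kernel)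
              (CovZ.leaf K2_ok TF_l9844 _)
              (CovZ.badM (by decide +kernel)))))
           (CovZ.n1 (-5040, 23760) (by decide +kernel)
            (CovZ.leaf K2_ok TF_l9845 _)
            (CovZ.n1 (-5040, 23840) (by decide +kernel)
             (CovZ.n2 (-5000, 23800) (by decide +kernel)
              (CovZ.leaf K2_ok TF_l9846 _)
              (CovZ.n1 (-5000, 23840) (by decide +kernel)
               (CovZ.leaf K2_ok TF_l9847 _)
               (CovZ.leaf K2_ok TF_l9848 _)))
             (CovZ.n1 (-5080, 23800) (by decide +kernel)
              (CovZ.leaf K2_ok TF_l9849 _)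
              (CovZ.leaf K2_ok TF_l9850 _)))))
          (CovZ.badM (by decide +kernel)))))
       (CovZ.n1 (-4800, 23360) (by decide +kernel)
        (CovZ.n2 (-5120, 23360) (by decide +kernel)
         (CovZ.leaf K2_ok TF_l9851 _)
         (CovZ.n1 (-4960, 23200) (by decide +kernel)
          (CovZ.leaf K2_ok TF_l9852 _)
          (CovZ.n1 (-4960, 23360) (by decide +kernel)
           (CovZ.leaf K2_ok TF_l9853 _)
           (CovZ.leaf K2_ok TF_l9854 _))))
        (CovZ.n1 (-4800, 23680) (by decide +kernel)
         (CovZ.n2 (-4640, 23520) (by decide +kernel)
          (CovZ.n2 (-4800, 23520) (by decide +kernel)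
           (CovZ.leaf K2_ok TF_l9855 _)
           (CovZ.leaf K2_ok TF_l9856 _))
          (CovZ.n1 (-4640, 23680) (by decide +kernel)
           (CovZ.n2 (-4560, 23600) (by decide +kernel)
            (CovZ.leaf K2_ok TF_l9857 _)
            (CovZ.n1 (-4560, 23680) (by decide +kernel)
             (CovZ.leaf K2_ok TF_l9858 _)
             (CovZ.leaf K2_ok TF_l9859 _)))
           (CovZ.n1 (-4720, 23600) (by decide +kernel)
            (CovZ.n2 (-4720, 23680) (by decide +kernel)
             (CovZ.leaf K2_ok TF_l9860 _)
             (CovZ.leaf K2_ok TF_l9861 _))
            (CovZ.leaf K2_ok TF_l9862 _))))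
         (CovZ.n1 (-4960, 23520) (by decide +kernel)
          (CovZ.n2 (-4960, 23680) (by decide +kernel)
           (CovZ.n2 (-4880, 23600) (by decide +kernel)
            (CovZ.leaf K2_ok TF_l9863 _)
            (CovZ.n1 (-4880, 23680) (by decide +kernel)
             (CovZ.leaf K2_ok TF_l9864 _)
             (CovZ.leaf K2_ok TF_l9865 _)))
           (CovZ.n1 (-5040, 23600) (by decide +kernel)
            (CovZ.n2 (-5040, 23680) (by decide +kernel)
             (CovZ.leaf K2_ok TF_l9866 _)
             (CovZ.leaf K2_ok TF_l9867 _))
            (CovZ.leaf K2_ok TF_l9868 _)))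
          (CovZ.n1 (-4800, 23520) (by decide +kernel)
           (CovZ.leaf K2_ok TF_l9869 _)
           (CovZ.n1 (-4880, 23600) (by decide +kernel)
            (CovZ.leaf K2_ok TF_l9870 _)
            (CovZ.leaf K2_ok TF_l9871 _)))))))

theorem TF_u137 : CovZ TF_M (toL (selN TF_LN 649037107316853750803896037539840)) [0, 7, 4, 3] (-4480, 23680) (-3840, 24320) (-5120, 24320) :=
    (CovZ.n1 (-4480, 24320) (by decide +kernel)
       (CovZ.n2 (-4160, 24000) (by decide +kernel)
        (CovZ.n2 (-4480, 24000) (by decide +kernel)
         (CovZ.badM (by decide +kernel))
         (CovZ.n1 (-4320, 23840) (by decide +kernel)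
          (CovZ.n2 (-4480, 23840) (by decide +kernel)
           (CovZ.badM (by decide +kernel))
           (CovZ.n1 (-4400, 23760) (by decide +kernel)
            (CovZ.n2 (-4480, 23760) (by decide +kernel)
             (CovZ.leaf K2_ok TF_l9872 _)
             (CovZ.n1 (-4440, 23720) (by decide +kernel)
              (CovZ.leaf K2_ok TF_l9873 _)
              (CovZ.leaf K2_ok TF_l9874 _)))
            (CovZ.n1 (-4400, 23840) (by decide +kernel)
             (CovZ.n2 (-4360, 23800) (by decide +kernel)
              (CovZ.leaf K2_ok TF_l9875 _)
              (CovZ.badM (by decide +kernel)))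
             (CovZ.n1 (-4440, 23800) (by decide +kernel)
              (CovZ.n2 (-4440, 23840) (by decide +kernel)
               (CovZ.n2 (-4420, 23820) (by decide +kernel)
                (CovZ.leaf K2_ok TF_l9876 _)
                (CovZ.badM (by decide +kernel)))
               (CovZ.n1 (-4460, 23820) (by decide +kernel)
                (CovZ.leaf K2_ok TF_l9877 _)
                (CovZ.leaf K2_ok TF_l9878 _)))
              (CovZ.n1 (-4400, 23800) (by decide +kernel)
               (CovZ.leaf K2_ok TF_l9879 _)
               (CovZ.n1 (-4420, 23820) (by decide +kernel)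
                (CovZ.leaf K2_ok TF_l9880 _)
                (CovZ.leaf K2_ok TF_l9881 _)))))))
          (CovZ.badM (by decide +kernel))))
        (CovZ.n1 (-4160, 24320) (by decide +kernel)
         (CovZ.n2 (-4000, 24160) (by decide +kernel)
          (CovZ.badM (by decide +kernel))
          (CovZ.n1 (-4000, 24320) (by decide +kernel)
           (CovZ.badM (by decide +kernel))
           (CovZ.badM (by decide +kernel))))
         (CovZ.badM (by decide +kernel))))
       (CovZ.n1 (-4800, 24000) (by decide +kernel)
        (CovZ.badM (by decide +kernel))
        (CovZ.n1 (-4480, 24000) (by decide +kernel)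
         (CovZ.n2 (-4640, 23840) (by decide +kernel)
          (CovZ.n2 (-4640, 24000) (by decide +kernel)
           (CovZ.n2 (-4560, 23920) (by decide +kernel)
            (CovZ.n2 (-4640, 23920) (by decide +kernel)
             (CovZ.badM (by decide +kernel))
             (CovZ.n1 (-4600, 23880) (by decide +kernel)
              (CovZ.n2 (-4640, 23880) (by decide +kernel)
               (CovZ.n2 (-4620, 23900) (by decide +kernel)
                (CovZ.leaf K2_ok TF_l9882 _)
                (CovZ.leaf K2_ok TF_l9883 _))
               (CovZ.n1 (-4620, 23860) (by decide +kernel)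
                (CovZ.leaf K2_ok TF_l9884 _)
                (CovZ.leaf K2_ok TF_l9885 _)))
              (CovZ.badM (by decide +kernel))))
            (CovZ.badM (by decide +kernel)))
           (CovZ.n1 (-4720, 23920) (by decide +kernel)
            (CovZ.badM (by decide +kernel))
            (CovZ.n1 (-4640, 23920) (by decide +kernel)
             (CovZ.n2 (-4680, 23880) (by decide +kernel)
              (CovZ.n2 (-4680, 23920) (by decide +kernel)
               (CovZ.n2 (-4660, 23900) (by decide +kernel)
                (CovZ.badM (by decide +kernel))
                (CovZ.badM (by decide +kernel)))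
               (CovZ.badM (by decide +kernel)))
              (CovZ.n1 (-4640, 23880) (by decide +kernel)
               (CovZ.n2 (-4660, 23860) (by decide +kernel)
                (CovZ.leaf K2_ok TF_l9886 _)
                (CovZ.leaf K2_ok TF_l9887 _))
               (CovZ.n1 (-4660, 23900) (by decide +kernel)
                (CovZ.n2 (-4640, 23900) (by decide +kernel)
                 (CovZ.leaf K2_ok TF_l9888 _)
                 (CovZ.badM (by decide +kernel)))
                (CovZ.leaf K2_ok TF_l9889 _))))
             (CovZ.badM (by decide +kernel)))))
          (CovZ.n1 (-4480, 23840) (by decide +kernel)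
           (CovZ.n2 (-4560, 23760) (by decide +kernel)
            (CovZ.n2 (-4560, 23840) (by decide +kernel)
             (CovZ.n2 (-4520, 23800) (by decide +kernel)
              (CovZ.leaf K2_ok TF_l9890 _)
              (CovZ.n1 (-4520, 23840) (by decide +kernel)
               (CovZ.n2 (-4500, 23820) (by decide +kernel)
                (CovZ.leaf K2_ok TF_l9891 _)
                (CovZ.leaf K2_ok TF_l9892 _))
               (CovZ.leaf K2_ok TF_l9893 _)))
             (CovZ.n1 (-4600, 23800) (by decide +kernel)
              (CovZ.n2 (-4600, 23840) (by decide +kernel)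
               (CovZ.leaf K2_ok TF_l9894 _)
               (CovZ.leaf K2_ok TF_l9895 _))
              (CovZ.n1 (-4560, 23800) (by decide +kernel)
               (CovZ.leaf K2_ok TF_l9896 _)
               (CovZ.leaf K2_ok TF_l9897 _))))
            (CovZ.n1 (-4480, 23760) (by decide +kernel)
             (CovZ.n2 (-4520, 23720) (by decide +kernel)
              (CovZ.leaf K2_ok TF_l9898 _)
              (CovZ.leaf K2_ok TF_l9899 _))
             (CovZ.n1 (-4520, 23800) (by decide +kernel)
              (CovZ.n2 (-4480, 23800) (by decide +kernel)
               (CovZ.leaf K2_ok TF_l9900 _)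
               (CovZ.n1 (-4500, 23820) (by decide +kernel)
                (CovZ.leaf K2_ok TF_l9901 _)
                (CovZ.leaf K2_ok TF_l9902 _)))
              (CovZ.leaf K2_ok TF_l9903 _))))
           (CovZ.n1 (-4560, 23920) (by decide +kernel)
            (CovZ.badM (by decide +kernel))
            (CovZ.n1 (-4560, 23840) (by decide +kernel)
             (CovZ.n2 (-4600, 23880) (by decide +kernel)
              (CovZ.n2 (-4560, 23880) (by decide +kernel)
               (CovZ.n2 (-4580, 23860) (by decide +kernel)
                (CovZ.n2 (-4580, 23880) (by decide +kernel)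
                 (CovZ.leaf K2_ok TF_l9904 _)
                 (CovZ.leaf K2_ok TF_l9905 _))
                (CovZ.leaf K2_ok TF_l9906 _))
               (CovZ.badM (by decide +kernel)))
              (CovZ.n1 (-4600, 23840) (by decide +kernel)
               (CovZ.n2 (-4620, 23860) (by decide +kernel)
                (CovZ.leaf K2_ok TF_l9907 _)
                (CovZ.leaf K2_ok TF_l9908 _))
               (CovZ.leaf K2_ok TF_l9909 _)))
             (CovZ.n1 (-4520, 23880) (by decide +kernel)
              (CovZ.n2 (-4520, 23840) (by decide +kernel)
               (CovZ.n2 (-4540, 23860) (by decide +kernel)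
                (CovZ.leaf K2_ok TF_l9910 _)
                (CovZ.leaf K2_ok TF_l9911 _))
               (CovZ.leaf K2_ok TF_l9912 _))
              (CovZ.n1 (-4560, 23880) (by decide +kernel)
               (CovZ.badM (by decide +kernel))
               (CovZ.n1 (-4540, 23860) (by decide +kernel)
                (CovZ.leaf K2_ok TF_l9913 _)
                (CovZ.badM (by decide +kernel)))))))))
         (CovZ.badM (by decide +kernel)))))

theorem TF_u138 : CovZ TF_M (toL (selN TF_LN 89213870312099266198735376898603729216929810)) [0, 7, 4, 3] (-2560, 23040) (-1280, 24320) (-2560, 25600) :=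
    (CovZ.n2 (-2560, 24320) (by decide +kernel)
     (CovZ.n2 (-1920, 24960) (by decide +kernel)
      (CovZ.subM 10889455019540392721901345664878736572434 (by decide +kernel)
       (CovZ.n2 (-1920, 24320) (by decide +kernel)
        (CovZ.subM 10889038337638267139460663879318290563088 (by decide +kernel)
         (CovZ.n2 (-2240, 24640) (by decide +kernel)
          (CovZ.n2 (-1920, 24640) (by decide +kernel)
           (CovZ.leaf K2_ok TF_l1719 _)
           (CovZ.n1 (-2080, 24800) (by decide +kernel)
            (CovZ.leaf K2_ok TF_l1720 _)
            (CovZ.leaf K2_ok TF_l1721 _)))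
          (CovZ.n1 (-2240, 24320) (by decide +kernel)
           (CovZ.n2 (-2400, 24480) (by decide +kernel)
            (CovZ.leaf K2_ok TF_l1722 _)
            (CovZ.leaf K2_ok TF_l1723 _))
           (CovZ.leaf K2_ok TF_l1724 _))))
        (CovZ.leaf K2_ok TF_l1725 _)))
      (CovZ.subM 89213869853229318267421053972784373745844240 (by decide +kernel)
       (CovZ.n1 (-2560, 24960) (by decide +kernel)
        (CovZ.n2 (-2240, 25280) (by decide +kernel)
         (CovZ.n2 (-2240, 24960) (by decide +kernel)
          (CovZ.n2 (-2400, 25120) (by decide +kernel)
           (CovZ.n2 (-2240, 25120) (by decide +kernel)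
            (CovZ.leaf K2_ok TF_l1726 _)
            (CovZ.n1 (-2320, 25200) (by decide +kernel)
             (CovZ.leaf K2_ok TF_l1727 _)
             (CovZ.leaf K2_ok TF_l1728 _)))
           (CovZ.n1 (-2400, 24960) (by decide +kernel)
            (CovZ.n2 (-2480, 25040) (by decide +kernel)
             (CovZ.leaf K2_ok TF_l1729 _)
             (CovZ.leaf K2_ok TF_l1730 _))
            (CovZ.leaf K2_ok TF_l1731 _)))
          (CovZ.leaf K2_ok TF_l1732 _))
         (CovZ.n1 (-2560, 25280) (by decide +kernel)
          (CovZ.n2 (-2400, 25440) (by decide +kernel)
           (CovZ.n2 (-2400, 25280) (by decide +kernel)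
            (CovZ.subM 89202980817487828429549597418980679505412112 (by decide +kernel)
             (CovZ.n2 (-2480, 25360) (by decide +kernel)
              (CovZ.n2 (-2400, 25360) (by decide +kernel)
               (CovZ.leaf K2_ok TF_l1733 _)
               (CovZ.n1 (-2440, 25400) (by decide +kernel)
                (CovZ.leaf K2_ok TF_l1734 _)
                (CovZ.leaf K2_ok TF_l1735 _)))
              (CovZ.n1 (-2480, 25280) (by decide +kernel)
               (CovZ.n2 (-2520, 25320) (by decide +kernel)
                (CovZ.leaf K2_ok TF_l1736 _)
                (CovZ.leaf K2_ok TF_l1737 _))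
               (CovZ.leaf K2_ok TF_l1738 _))))
            (CovZ.leaf K2_ok TF_l1739 _))
           (CovZ.subM 23365335863406724328387233481490448 (by decide +kernel)
            (CovZ.n1 (-2560, 25440) (by decide +kernel)
             (CovZ.n2 (-2480, 25520) (by decide +kernel)
              (CovZ.n2 (-2480, 25440) (by decide +kernel)
               (CovZ.n2 (-2520, 25480) (by decide +kernel)
                (CovZ.n2 (-2480, 25480) (by decide +kernel)
                 (CovZ.n2 (-2500, 25460) (by decide +kernel)
                  (CovZ.leaf K2_ok TF_l10700 _)
                  (CovZ.leaf K2_ok TF_l10701 _))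
                 (CovZ.n1 (-2500, 25500) (by decide +kernel)
                  (CovZ.leaf K2_ok TF_l10702 _)
                  (CovZ.leaf K2_ok TF_l10703 _)))
                (CovZ.n1 (-2520, 25440) (by decide +kernel)
                 (CovZ.n2 (-2540, 25460) (by decide +kernel)
                  (CovZ.n2 (-2520, 25460) (by decide +kernel)
                   (CovZ.leaf K2_ok TF_l10704 _)
                   (CovZ.badM (by decide +kernel)))
                  (CovZ.n1 (-2540, 25440) (by decide +kernel)
                   (CovZ.badM (by decide +kernel))
                   (CovZ.leaf K2_ok TF_l10705 _)))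
                 (CovZ.leaf K2_ok TF_l10706 _)))
               (CovZ.leaf K2_ok TF_l1740 _))
              (CovZ.badM (by decide +kernel)))
             (CovZ.n1 (-2480, 25360) (by decide +kernel)
              (CovZ.n2 (-2560, 25360) (by decide +kernel)
               (CovZ.n2 (-2520, 25400) (by decide +kernel)
                (CovZ.n2 (-2520, 25360) (by decide +kernel)
                 (CovZ.n2 (-2540, 25380) (by decide +kernel)
                  (CovZ.leaf K2_ok TF_l10707 _)
                  (CovZ.leaf K2_ok TF_l10708 _))
                 (CovZ.leaf K2_ok TF_l1741 _))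
                (CovZ.n1 (-2560, 25400) (by decide +kernel)
                 (CovZ.leaf K2_ok TF_l10709 _)
                 (CovZ.n1 (-2540, 25380) (by decide +kernel)
                  (CovZ.leaf K2_ok TF_l10710 _)
                  (CovZ.leaf K2_ok TF_l10711 _))))
               (CovZ.n1 (-2520, 25320) (by decide +kernel)
                (CovZ.n2 (-2560, 25320) (by decide +kernel)
                 (CovZ.leaf K2_ok TF_l10712 _)
                 (CovZ.leaf K2_ok TF_l10713 _))
                (CovZ.n1 (-2520, 25360) (by decide +kernel)
                 (CovZ.leaf K2_ok TF_l1742 _)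
                 (CovZ.leaf K2_ok TF_l10714 _))))
              (CovZ.n1 (-2480, 25440) (by decide +kernel)
               (CovZ.n2 (-2440, 25400) (by decide +kernel)
                (CovZ.leaf K2_ok TF_l1743 _)
                (CovZ.n1 (-2440, 25440) (by decide +kernel)
                 (CovZ.leaf K2_ok TF_l1744 _)
                 (CovZ.leaf K2_ok TF_l1745 _)))
               (CovZ.n1 (-2520, 25400) (by decide +kernel)
                (CovZ.n2 (-2520, 25440) (by decide +kernel)
                 (CovZ.n2 (-2500, 25420) (by decide +kernel)
                  (CovZ.leaf K2_ok TF_l10715 _)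
                  (CovZ.leaf K2_ok TF_l10716 _))
                 (CovZ.n1 (-2540, 25420) (by decide +kernel)
                  (CovZ.n2 (-2540, 25440) (by decide +kernel)
                   (CovZ.leaf K2_ok TF_l10717 _)
                   (CovZ.leaf K2_ok TF_l10718 _))
                  (CovZ.leaf K2_ok TF_l10719 _)))
                (CovZ.n1 (-2480, 25400) (by decide +kernel)
                 (CovZ.leaf K2_ok TF_l1746 _)
                 (CovZ.n1 (-2500, 25420) (by decide +kernel)
                  (CovZ.leaf K2_ok TF_l10720 _)
                  (CovZ.leaf K2_ok TF_l10721 _)))))))))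
          (CovZ.n1 (-2400, 25120) (by decide +kernel)
           (CovZ.subM 89202980817487828429549597418980679505412112 (by decide +kernel)
            (CovZ.n2 (-2560, 25120) (by decide +kernel)
             (CovZ.n2 (-2480, 25200) (by decide +kernel)
              (CovZ.n2 (-2480, 25120) (by decide +kernel)
               (CovZ.n2 (-2520, 25160) (by decide +kernel)
                (CovZ.leaf K2_ok TF_l1747 _)
                (CovZ.leaf K2_ok TF_l1748 _))
               (CovZ.leaf K2_ok TF_l1749 _))
              (CovZ.n1 (-2560, 25200) (by decide +kernel)
               (CovZ.leaf K2_ok TF_l1750 _)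
               (CovZ.n1 (-2520, 25160) (by decide +kernel)
                (CovZ.leaf K2_ok TF_l1751 _)
                (CovZ.leaf K2_ok TF_l1752 _))))
             (CovZ.n1 (-2480, 25040) (by decide +kernel)
              (CovZ.leaf K2_ok TF_l1753 _)
              (CovZ.n1 (-2480, 25120) (by decide +kernel)
               (CovZ.leaf K2_ok TF_l1754 _)
               (CovZ.leaf K2_ok TF_l1755 _)))))
           (CovZ.n1 (-2400, 25280) (by decide +kernel)
            (CovZ.n2 (-2320, 25200) (by decide +kernel)
             (CovZ.leaf K2_ok TF_l1756 _)
             (CovZ.leaf K2_ok TF_l1757 _))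
            (CovZ.subM 89202980817487828429549597418980679505412112 (by decide +kernel)
             (CovZ.n1 (-2480, 25200) (by decide +kernel)
              (CovZ.n2 (-2480, 25280) (by decide +kernel)
               (CovZ.leaf K2_ok TF_l1758 _)
               (CovZ.n1 (-2520, 25240) (by decide +kernel)
                (CovZ.n2 (-2520, 25280) (by decide +kernel)
                 (CovZ.leaf K2_ok TF_l1759 _)
                 (CovZ.leaf K2_ok TF_l1760 _))
                (CovZ.leaf K2_ok TF_l1761 _)))
              (CovZ.n1 (-2400, 25200) (by decide +kernel)
               (CovZ.leaf K2_ok TF_l1762 _)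
               (CovZ.leaf K2_ok TF_l1763 _))))))))
        (CovZ.n1 (-2240, 24640) (by decide +kernel)
         (CovZ.n2 (-2560, 24640) (by decide +kernel)
          (CovZ.n2 (-2400, 24800) (by decide +kernel)
           (CovZ.n2 (-2400, 24640) (by decide +kernel)
            (CovZ.n2 (-2480, 24720) (by decide +kernel)
             (CovZ.leaf K2_ok TF_l1764 _)
             (CovZ.leaf K2_ok TF_l1765 _))
            (CovZ.leaf K2_ok TF_l1766 _))
           (CovZ.n1 (-2560, 24800) (by decide +kernel)
            (CovZ.leaf K2_ok TF_l1767 _)
            (CovZ.n1 (-2480, 24720) (by decide +kernel)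
             (CovZ.leaf K2_ok TF_l1768 _)
             (CovZ.leaf K2_ok TF_l1769 _))))
          (CovZ.n1 (-2400, 24480) (by decide +kernel)
           (CovZ.leaf K2_ok TF_l1770 _)
           (CovZ.n1 (-2400, 24640) (by decide +kernel)
            (CovZ.leaf K2_ok TF_l1771 _)
            (CovZ.leaf K2_ok TF_l1772 _))))
         (CovZ.n1 (-2240, 24960) (by decide +kernel)
          (CovZ.n2 (-2080, 24800) (by decide +kernel)
           (CovZ.leaf K2_ok TF_l1773 _)
           (CovZ.leaf K2_ok TF_l1774 _))
          (CovZ.n1 (-2400, 24800) (by decide +kernel)
           (CovZ.n2 (-2400, 24960) (by decide +kernel)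
            (CovZ.leaf K2_ok TF_l1775 _)
            (CovZ.n1 (-2480, 24880) (by decide +kernel)
             (CovZ.n2 (-2480, 24960) (by decide +kernel)
              (CovZ.leaf K2_ok TF_l1776 _)
              (CovZ.leaf K2_ok TF_l1777 _))
             (CovZ.leaf K2_ok TF_l1778 _)))
           (CovZ.n1 (-2240, 24800) (by decide +kernel)
            (CovZ.leaf K2_ok TF_l1779 _)
            (CovZ.leaf K2_ok TF_l1780 _))))))))
     (CovZ.n1 (-1920, 23680) (by decide +kernel)
      (CovZ.subM 10889371293674320685291566769440846577680 (by decide +kernel)
       (CovZ.n2 (-2560, 23680) (by decide +kernel)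
        (CovZ.n2 (-2240, 24000) (by decide +kernel)
         (CovZ.n2 (-2240, 23680) (by decide +kernel)
          (CovZ.n2 (-2400, 23840) (by decide +kernel)
           (CovZ.leaf K2_ok TF_l1781 _)
           (CovZ.leaf K2_ok TF_l1782 _))
          (CovZ.leaf K2_ok TF_l1783 _))
         (CovZ.n1 (-2560, 24000) (by decide +kernel)
          (CovZ.leaf K2_ok TF_l1784 _)
          (CovZ.n1 (-2400, 23840) (by decide +kernel)
           (CovZ.leaf K2_ok TF_l1785 _)
           (CovZ.leaf K2_ok TF_l1786 _))))
        (CovZ.n1 (-2240, 23360) (by decide +kernel)
         (CovZ.leaf K2_ok TF_l1787 _)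
         (CovZ.n1 (-2240, 23680) (by decide +kernel)
          (CovZ.leaf K2_ok TF_l1788 _)
          (CovZ.leaf K2_ok TF_l1789 _)))))
      (CovZ.n1 (-1920, 24320) (by decide +kernel)
       (CovZ.n2 (-1600, 24000) (by decide +kernel)
        (CovZ.leaf K2_ok TF_l1790 _)
        (CovZ.leaf K2_ok TF_l1791 _))
       (CovZ.subM 10889370644637213368438113203128805425168 (by decide +kernel)
        (CovZ.n1 (-2240, 24000) (by decide +kernel)
         (CovZ.n2 (-2240, 24320) (by decide +kernel)
          (CovZ.leaf K2_ok TF_l1792 _)
          (CovZ.n1 (-2400, 24160) (by decide +kernel)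
           (CovZ.n2 (-2400, 24320) (by decide +kernel)
            (CovZ.leaf K2_ok TF_l1793 _)
            (CovZ.leaf K2_ok TF_l1794 _))
           (CovZ.leaf K2_ok TF_l1795 _)))
         (CovZ.n1 (-1920, 24000) (by decide +kernel)
          (CovZ.leaf K2_ok TF_l1796 _)
          (CovZ.leaf K2_ok TF_l1797 _)))))))

theorem TF_u139 : CovZ TF_M (toL (selN TF_LN 89213870312099266198735376898603729216929810)) [0, 7, 4, 3] (-1280, 24320) (0, 25600) (-2560, 25600) :=
    (CovZ.n1 (-1280, 25600) (by decide +kernel)
     (CovZ.n2 (-640, 24960) (by decide +kernel)
      (CovZ.n2 (-1280, 24960) (by decide +kernel)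
       (CovZ.leaf K2_ok TF_l1798 _)
       (CovZ.leaf K2_ok TF_l1799 _))
      (CovZ.n1 (-640, 25600) (by decide +kernel)
       (CovZ.leaf K2_ok TF_l1800 _)
       (CovZ.n1 (-960, 25280) (by decide +kernel)
        (CovZ.leaf K2_ok TF_l1801 _)
        (CovZ.leaf K2_ok TF_l1802 _))))
     (CovZ.n1 (-1920, 24960) (by decide +kernel)
      (CovZ.n2 (-1920, 25600) (by decide +kernel)
       (CovZ.subM 10889475788727826861211859786864053452818 (by decide +kernel)
        (CovZ.n2 (-1600, 25280) (by decide +kernel)
         (CovZ.n2 (-1920, 25280) (by decide +kernel)
          (CovZ.leaf K2_ok TF_l1803 _)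
          (CovZ.leaf K2_ok TF_l1804 _))
         (CovZ.n1 (-1600, 25600) (by decide +kernel)
          (CovZ.leaf K2_ok TF_l1805 _)
          (CovZ.n1 (-1760, 25440) (by decide +kernel)
           (CovZ.leaf K2_ok TF_l1806 _)
           (CovZ.leaf K2_ok TF_l1807 _)))))
       (CovZ.subM 89213869853229318267421053972784373745844240 (by decide +kernel)
        (CovZ.n1 (-2240, 25280) (by decide +kernel)
         (CovZ.n2 (-2240, 25600) (by decide +kernel)
          (CovZ.n2 (-2080, 25440) (by decide +kernel)
           (CovZ.n2 (-2240, 25440) (by decide +kernel)
            (CovZ.leaf K2_ok TF_l1808 _)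
            (CovZ.leaf K2_ok TF_l1809 _))
           (CovZ.n1 (-2080, 25600) (by decide +kernel)
            (CovZ.leaf K2_ok TF_l1810 _)
            (CovZ.n1 (-2160, 25520) (by decide +kernel)
             (CovZ.leaf K2_ok TF_l1811 _)
             (CovZ.leaf K2_ok TF_l1812 _))))
          (CovZ.n1 (-2400, 25440) (by decide +kernel)
           (CovZ.subM 23365335863406724328387233481490448 (by decide +kernel)
            (CovZ.n2 (-2400, 25600) (by decide +kernel)
             (CovZ.n2 (-2320, 25520) (by decide +kernel)
              (CovZ.n2 (-2400, 25520) (by decide +kernel)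
               (CovZ.leaf K2_ok TF_l1813 _)
               (CovZ.n1 (-2360, 25480) (by decide +kernel)
                (CovZ.leaf K2_ok TF_l1814 _)
                (CovZ.leaf K2_ok TF_l1815 _)))
              (CovZ.n1 (-2320, 25600) (by decide +kernel)
               (CovZ.leaf K2_ok TF_l1816 _)
               (CovZ.n1 (-2360, 25560) (by decide +kernel)
                (CovZ.n2 (-2360, 25600) (by decide +kernel)
                 (CovZ.leaf K2_ok TF_l1817 _)
                 (CovZ.leaf K2_ok TF_l1818 _))
                (CovZ.leaf K2_ok TF_l1819 _))))
             (CovZ.n1 (-2480, 25520) (by decide +kernel)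
              (CovZ.badM (by decide +kernel))
              (CovZ.n1 (-2400, 25520) (by decide +kernel)
               (CovZ.n2 (-2440, 25480) (by decide +kernel)
                (CovZ.n2 (-2440, 25520) (by decide +kernel)
                 (CovZ.leaf K2_ok TF_l1820 _)
                 (CovZ.leaf K2_ok TF_l1821 _))
                (CovZ.leaf K2_ok TF_l1822 _))
               (CovZ.n1 (-2440, 25560) (by decide +kernel)
                (CovZ.n2 (-2400, 25560) (by decide +kernel)
                 (CovZ.leaf K2_ok TF_l1823 _)
                 (CovZ.n1 (-2420, 25580) (by decide +kernel)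
                  (CovZ.leaf K2_ok TF_l10722 _)
                  (CovZ.leaf K2_ok TF_l10723 _)))
                (CovZ.n1 (-2440, 25520) (by decide +kernel)
                 (CovZ.n2 (-2460, 25540) (by decide +kernel)
                  (CovZ.leaf K2_ok TF_l10724 _)
                  (CovZ.leaf K2_ok TF_l10725 _))
                 (CovZ.leaf K2_ok TF_l1824 _)))))))
           (CovZ.n1 (-2240, 25440) (by decide +kernel)
            (CovZ.n2 (-2320, 25360) (by decide +kernel)
             (CovZ.n2 (-2320, 25440) (by decide +kernel)
              (CovZ.leaf K2_ok TF_l1825 _)
              (CovZ.leaf K2_ok TF_l1826 _))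
             (CovZ.leaf K2_ok TF_l1827 _))
            (CovZ.subM 89202980817487828429549597418980679505412112 (by decide +kernel)
             (CovZ.n1 (-2320, 25520) (by decide +kernel)
              (CovZ.n2 (-2240, 25520) (by decide +kernel)
               (CovZ.leaf K2_ok TF_l1828 _)
               (CovZ.leaf K2_ok TF_l1829 _))
              (CovZ.n1 (-2320, 25440) (by decide +kernel)
               (CovZ.n2 (-2360, 25480) (by decide +kernel)
                (CovZ.leaf K2_ok TF_l1830 _)
                (CovZ.leaf K2_ok TF_l1831 _))
               (CovZ.leaf K2_ok TF_l1832 _)))))))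
         (CovZ.n1 (-1920, 25280) (by decide +kernel)
          (CovZ.n2 (-2080, 25120) (by decide +kernel)
           (CovZ.n2 (-2080, 25280) (by decide +kernel)
            (CovZ.leaf K2_ok TF_l1833 _)
            (CovZ.leaf K2_ok TF_l1834 _))
           (CovZ.leaf K2_ok TF_l1835 _))
          (CovZ.n1 (-2080, 25440) (by decide +kernel)
           (CovZ.n2 (-1920, 25440) (by decide +kernel)
            (CovZ.leaf K2_ok TF_l1836 _)
            (CovZ.leaf K2_ok TF_l1837 _))
           (CovZ.n1 (-2080, 25280) (by decide +kernel)
            (CovZ.leaf K2_ok TF_l1838 _)
            (CovZ.leaf K2_ok TF_l1839 _)))))))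
      (CovZ.subM 10889475788727826861211859786864053452818 (by decide +kernel)
       (CovZ.n1 (-1280, 24960) (by decide +kernel)
        (CovZ.n2 (-1600, 24640) (by decide +kernel)
         (CovZ.n2 (-1600, 24960) (by decide +kernel)
          (CovZ.leaf K2_ok TF_l1840 _)
          (CovZ.leaf K2_ok TF_l1841 _))
         (CovZ.leaf K2_ok TF_l1842 _))
        (CovZ.n1 (-1600, 25280) (by decide +kernel)
         (CovZ.n2 (-1280, 25280) (by decide +kernel)
          (CovZ.leaf K2_ok TF_l1843 _)
          (CovZ.leaf K2_ok TF_l1844 _))
         (CovZ.leaf K2_ok TF_l1845 _))))))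

theorem TF_u140 : CovZ TF_M (toL (selN TF_LN 2854495385411929906106776641281543004962684992)) [0, 7, 4, 3] (8960, 24320) (9600, 23680) (10240, 24320) :=
    (CovZ.subM 2785365088392105755963031616 (by decide +kernel)
       (CovZ.n2 (9600, 24320) (by decide +kernel)
        (CovZ.n2 (9920, 24000) (by decide +kernel)
         (CovZ.n2 (9600, 24000) (by decide +kernel)
          (CovZ.n2 (9760, 24160) (by decide +kernel)
           (CovZ.n2 (9760, 24000) (by decide +kernel)
            (CovZ.n2 (9680, 24080) (by decide +kernel)
             (CovZ.n2 (9760, 24080) (by decide +kernel)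
              (CovZ.n2 (9720, 24040) (by decide +kernel)
               (CovZ.badM (by decide +kernel))
               (CovZ.n1 (9760, 24040) (by decide +kernel)
                (CovZ.leaf K2_ok TF_l13152 _)
                (CovZ.badM (by decide +kernel))))
              (CovZ.badM (by decide +kernel)))
             (CovZ.n1 (9680, 24000) (by decide +kernel)
              (CovZ.n2 (9640, 24040) (by decide +kernel)
               (CovZ.leaf K2_ok TF_l13153 _)
               (CovZ.leaf K2_ok TF_l13154 _))
              (CovZ.leaf K2_ok TF_l13155 _)))
            (CovZ.n1 (9840, 24080) (by decide +kernel)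
             (CovZ.n2 (9840, 24000) (by decide +kernel)
              (CovZ.n2 (9800, 24040) (by decide +kernel)
               (CovZ.badM (by decide +kernel))
               (CovZ.leaf K2_ok TF_l13156 _))
              (CovZ.badM (by decide +kernel)))
             (CovZ.n1 (9760, 24080) (by decide +kernel)
              (CovZ.badM (by decide +kernel))
              (CovZ.n1 (9800, 24040) (by decide +kernel)
               (CovZ.leaf K2_ok TF_l13157 _)
               (CovZ.badM (by decide +kernel))))))
           (CovZ.n1 (9600, 24160) (by decide +kernel)
            (CovZ.badM (by decide +kernel))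
            (CovZ.n1 (9680, 24080) (by decide +kernel)
             (CovZ.n2 (9600, 24080) (by decide +kernel)
              (CovZ.leaf K2_ok TF_l13158 _)
              (CovZ.n1 (9640, 24040) (by decide +kernel)
               (CovZ.leaf K2_ok TF_l13159 _)
               (CovZ.leaf K2_ok TF_l13160 _)))
             (CovZ.badM (by decide +kernel)))))
          (CovZ.n1 (9760, 23840) (by decide +kernel)
           (CovZ.n2 (9600, 23840) (by decide +kernel)
            (CovZ.n2 (9680, 23920) (by decide +kernel)
             (CovZ.leaf K2_ok TF_l13161 _)
             (CovZ.leaf K2_ok TF_l13162 _))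
            (CovZ.n1 (9680, 23760) (by decide +kernel)
             (CovZ.leaf K2_ok TF_l4849 _)
             (CovZ.n1 (9680, 23840) (by decide +kernel)
              (CovZ.leaf K2_ok TF_l13163 _)
              (CovZ.leaf K2_ok TF_l13164 _))))
           (CovZ.n1 (9760, 24000) (by decide +kernel)
            (CovZ.n2 (9840, 23920) (by decide +kernel)
             (CovZ.leaf K2_ok TF_l13165 _)
             (CovZ.n1 (9840, 24000) (by decide +kernel)
              (CovZ.n2 (9880, 23960) (by decide +kernel)
               (CovZ.leaf K2_ok TF_l13166 _)
               (CovZ.n1 (9880, 24000) (by decide +kernel)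
                (CovZ.n2 (9900, 23980) (by decide +kernel)
                 (CovZ.leaf K2_ok TF_l13167 _)
                 (CovZ.badM (by decide +kernel)))
                (CovZ.leaf K2_ok TF_l13168 _)))
              (CovZ.n1 (9800, 23960) (by decide +kernel)
               (CovZ.n2 (9800, 24000) (by decide +kernel)
                (CovZ.leaf K2_ok TF_l13169 _)
                (CovZ.leaf K2_ok TF_l13170 _))
               (CovZ.leaf K2_ok TF_l13171 _))))
            (CovZ.n1 (9680, 23920) (by decide +kernel)
             (CovZ.n2 (9680, 24000) (by decide +kernel)
              (CovZ.leaf K2_ok TF_l13172 _)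
              (CovZ.leaf K2_ok TF_l13173 _))
             (CovZ.n1 (9760, 23920) (by decide +kernel)
              (CovZ.leaf K2_ok TF_l13174 _)
              (CovZ.leaf K2_ok TF_l13175 _))))))
         (CovZ.badM (by decide +kernel)))
        (CovZ.n1 (9280, 24000) (by decide +kernel)
         (CovZ.n2 (9280, 24320) (by decide +kernel)
          (CovZ.n2 (9440, 24160) (by decide +kernel)
           (CovZ.n2 (9280, 24160) (by decide +kernel)
            (CovZ.n2 (9360, 24240) (by decide +kernel)
             (CovZ.n2 (9360, 24160) (by decide +kernel)
              (CovZ.n2 (9320, 24200) (by decide +kernel)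
               (CovZ.leaf K2_ok TF_l13176 _)
               (CovZ.leaf K2_ok TF_l4850 _))
              (CovZ.leaf K2_ok TF_l13177 _))
             (CovZ.n1 (9280, 24240) (by decide +kernel)
              (CovZ.badM (by decide +kernel))
              (CovZ.n1 (9320, 24200) (by decide +kernel)
               (CovZ.leaf K2_ok TF_l4851 _)
               (CovZ.badM (by decide +kernel)))))
            (CovZ.n1 (9360, 24080) (by decide +kernel)
             (CovZ.leaf K2_ok TF_l4852 _)
             (CovZ.n1 (9360, 24160) (by decide +kernel)
              (CovZ.n2 (9400, 24120) (by decide +kernel)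
               (CovZ.leaf K2_ok TF_l4853 _)
               (CovZ.leaf K2_ok TF_l13178 _))
              (CovZ.leaf K2_ok TF_l4854 _))))
           (CovZ.n1 (9440, 24320) (by decide +kernel)
            (CovZ.badM (by decide +kernel))
            (CovZ.n1 (9360, 24240) (by decide +kernel)
             (CovZ.badM (by decide +kernel))
             (CovZ.n1 (9440, 24240) (by decide +kernel)
              (CovZ.n2 (9400, 24200) (by decide +kernel)
               (CovZ.n2 (9400, 24240) (by decide +kernel)
                (CovZ.n2 (9420, 24220) (by decide +kernel)
                 (CovZ.leaf K2_ok TF_l13179 _)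
                 (CovZ.badM (by decide +kernel)))
                (CovZ.n1 (9380, 24220) (by decide +kernel)
                 (CovZ.badM (by decide +kernel))
                 (CovZ.leaf K2_ok TF_l13180 _)))
               (CovZ.n1 (9440, 24200) (by decide +kernel)
                (CovZ.n2 (9420, 24180) (by decide +kernel)
                 (CovZ.leaf K2_ok TF_l13181 _)
                 (CovZ.leaf K2_ok TF_l13182 _))
                (CovZ.n1 (9420, 24220) (by decide +kernel)
                 (CovZ.badM (by decide +kernel))
                 (CovZ.leaf K2_ok TF_l13183 _))))
              (CovZ.n1 (9400, 24280) (by decide +kernel)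
               (CovZ.badM (by decide +kernel))
               (CovZ.n1 (9400, 24240) (by decide +kernel)
                (CovZ.badM (by decide +kernel))
                (CovZ.badM (by decide +kernel))))))))
          (CovZ.n1 (9120, 24160) (by decide +kernel)
           (CovZ.n2 (9120, 24320) (by decide +kernel)
            (CovZ.n2 (9200, 24240) (by decide +kernel)
             (CovZ.leaf K2_ok TF_l4855 _)
             (CovZ.badM (by decide +kernel)))
            (CovZ.n1 (9040, 24240) (by decide +kernel)
             (CovZ.leaf K2_ok TF_l13184 _)
             (CovZ.leaf K2_ok TF_l13185 _)))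
           (CovZ.n1 (9280, 24160) (by decide +kernel)
            (CovZ.leaf K2_ok TF_l4859 _)
            (CovZ.n1 (9200, 24240) (by decide +kernel)
             (CovZ.n2 (9280, 24240) (by decide +kernel)
              (CovZ.leaf K2_ok TF_l4860 _)
              (CovZ.badM (by decide +kernel)))
             (CovZ.leaf K2_ok TF_l4862 _)))))
         (CovZ.n1 (9600, 24000) (by decide +kernel)
          (CovZ.n2 (9440, 23840) (by decide +kernel)
           (CovZ.n2 (9440, 24000) (by decide +kernel)
            (CovZ.n2 (9520, 23920) (by decide +kernel)
             (CovZ.leaf K2_ok TF_l4863 _)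
             (CovZ.n1 (9520, 24000) (by decide +kernel)
              (CovZ.leaf K2_ok TF_l13186 _)
              (CovZ.leaf K2_ok TF_l13187 _)))
            (CovZ.leaf K2_ok TF_l4864 _))
           (CovZ.n1 (9600, 23840) (by decide +kernel)
            (CovZ.leaf K2_ok TF_l4865 _)
            (CovZ.n1 (9520, 23920) (by decide +kernel)
             (CovZ.n2 (9600, 23920) (by decide +kernel)
              (CovZ.leaf K2_ok TF_l13188 _)
              (CovZ.leaf K2_ok TF_l13189 _))
             (CovZ.leaf K2_ok TF_l4866 _))))
          (CovZ.n1 (9440, 24160) (by decide +kernel)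
           (CovZ.n2 (9600, 24160) (by decide +kernel)
            (CovZ.n2 (9520, 24080) (by decide +kernel)
             (CovZ.n2 (9520, 24160) (by decide +kernel)
              (CovZ.n2 (9560, 24120) (by decide +kernel)
               (CovZ.leaf K2_ok TF_l13190 _)
               (CovZ.badM (by decide +kernel)))
              (CovZ.n1 (9480, 24120) (by decide +kernel)
               (CovZ.n2 (9480, 24160) (by decide +kernel)
                (CovZ.leaf K2_ok TF_l13191 _)
                (CovZ.leaf K2_ok TF_l13192 _))
               (CovZ.leaf K2_ok TF_l13193 _)))
             (CovZ.n1 (9600, 24080) (by decide +kernel)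
              (CovZ.leaf K2_ok TF_l13194 _)
              (CovZ.n1 (9560, 24120) (by decide +kernel)
               (CovZ.n2 (9600, 24120) (by decide +kernel)
                (CovZ.leaf K2_ok TF_l13195 _)
                (CovZ.badM (by decide +kernel)))
               (CovZ.leaf K2_ok TF_l13196 _))))
            (CovZ.badM (by decide +kernel)))
           (CovZ.n1 (9440, 24000) (by decide +kernel)
            (CovZ.n2 (9360, 24080) (by decide +kernel)
             (CovZ.n2 (9440, 24080) (by decide +kernel)
              (CovZ.leaf K2_ok TF_l4867 _)
              (CovZ.n1 (9400, 24120) (by decide +kernel)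
               (CovZ.leaf K2_ok TF_l13197 _)
               (CovZ.leaf K2_ok TF_l4868 _)))
             (CovZ.leaf K2_ok TF_l4869 _))
            (CovZ.n1 (9520, 24080) (by decide +kernel)
             (CovZ.n2 (9520, 24000) (by decide +kernel)
              (CovZ.leaf K2_ok TF_l13198 _)
              (CovZ.leaf K2_ok TF_l13199 _))
             (CovZ.n1 (9440, 24080) (by decide +kernel)
              (CovZ.leaf K2_ok TF_l13200 _)
              (CovZ.leaf K2_ok TF_l13201 _)))))))))

theorem TF_u141 : CovZ TF_M (toL (selN TF_LN 2854495385411929906106776641281543004962684992)) [0, 7, 4, 3] (9600, 23680) (10240, 23040) (10240, 24320) :=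
    (CovZ.n1 (10240, 23680) (by decide +kernel)
       (CovZ.n2 (9920, 23360) (by decide +kernel)
        (CovZ.subM 2785365097615477792817807424 (by decide +kernel)
         (CovZ.n2 (9920, 23680) (by decide +kernel)
          (CovZ.n2 (10080, 23520) (by decide +kernel)
           (CovZ.leaf K2_ok TF_l4870 _)
           (CovZ.n1 (10080, 23680) (by decide +kernel)
            (CovZ.n2 (10160, 23600) (by decide +kernel)
             (CovZ.leaf K2_ok TF_l13202 _)
             (CovZ.n1 (10160, 23680) (by decide +kernel)
              (CovZ.leaf K2_ok TF_l13203 _)
              (CovZ.leaf K2_ok TF_l13204 _)))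
            (CovZ.leaf K2_ok TF_l13205 _)))
          (CovZ.n1 (9760, 23520) (by decide +kernel)
           (CovZ.n2 (9760, 23680) (by decide +kernel)
            (CovZ.leaf K2_ok TF_l4871 _)
            (CovZ.leaf K2_ok TF_l4872 _))
           (CovZ.n1 (9920, 23520) (by decide +kernel)
            (CovZ.leaf K2_ok TF_l4873 _)
            (CovZ.leaf K2_ok TF_l4874 _)))))
        (CovZ.subM 2854495385411919764901937036514467928144347200 (by decide +kernel)
         (CovZ.n1 (10240, 23360) (by decide +kernel)
          (CovZ.n2 (10080, 23200) (by decide +kernel)
           (CovZ.n2 (10080, 23360) (by decide +kernel)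
            (CovZ.leaf K2_ok TF_l4875 _)
            (CovZ.leaf K2_ok TF_l4876 _))
           (CovZ.leaf K2_ok TF_l4877 _))
          (CovZ.n1 (10080, 23520) (by decide +kernel)
           (CovZ.n2 (10240, 23520) (by decide +kernel)
            (CovZ.leaf K2_ok TF_l13206 _)
            (CovZ.n1 (10160, 23600) (by decide +kernel)
             (CovZ.leaf K2_ok TF_l13207 _)
             (CovZ.leaf K2_ok TF_l13208 _)))
           (CovZ.leaf K2_ok TF_l4878 _)))))
       (CovZ.subM 2785365088392105755963031616 (by decide +kernel)
        (CovZ.n1 (9920, 24000) (by decide +kernel)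
         (CovZ.n2 (10240, 24000) (by decide +kernel)
          (CovZ.n2 (10080, 23840) (by decide +kernel)
           (CovZ.n2 (10080, 24000) (by decide +kernel)
            (CovZ.n2 (10160, 23920) (by decide +kernel)
             (CovZ.n2 (10080, 23920) (by decide +kernel)
              (CovZ.badM (by decide +kernel))
              (CovZ.n1 (10120, 23880) (by decide +kernel)
               (CovZ.leaf K2_ok TF_l13209 _)
               (CovZ.n1 (10120, 23920) (by decide +kernel)
                (CovZ.n2 (10140, 23900) (by decide +kernel)
                 (CovZ.leaf K2_ok TF_l13210 _)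
                 (CovZ.badM (by decide +kernel)))
                (CovZ.n1 (10100, 23900) (by decide +kernel)
                 (CovZ.n2 (10100, 23920) (by decide +kernel)
                  (CovZ.leaf K2_ok TF_l13211 _)
                  (CovZ.leaf K2_ok TF_l13212 _))
                 (CovZ.leaf K2_ok TF_l13213 _)))))
             (CovZ.badM (by decide +kernel)))
            (CovZ.n1 (10000, 23920) (by decide +kernel)
             (CovZ.n2 (10000, 24000) (by decide +kernel)
              (CovZ.n2 (10040, 23960) (by decide +kernel)
               (CovZ.n2 (10000, 23960) (by decide +kernel)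
                (CovZ.badM (by decide +kernel))
                (CovZ.n1 (10020, 23940) (by decide +kernel)
                 (CovZ.leaf K2_ok TF_l13214 _)
                 (CovZ.badM (by decide +kernel))))
               (CovZ.badM (by decide +kernel)))
              (CovZ.n1 (9960, 23960) (by decide +kernel)
               (CovZ.badM (by decide +kernel))
               (CovZ.n1 (10000, 23960) (by decide +kernel)
                (CovZ.n2 (9980, 23940) (by decide +kernel)
                 (CovZ.n2 (9980, 23960) (by decide +kernel)
                  (CovZ.leaf K2_ok TF_l13215 _)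
                  (CovZ.leaf K2_ok TF_l13216 _))
                 (CovZ.n1 (10000, 23940) (by decide +kernel)
                  (CovZ.leaf K2_ok TF_l13217 _)
                  (CovZ.leaf K2_ok TF_l13218 _)))
                (CovZ.badM (by decide +kernel)))))
             (CovZ.n1 (10080, 23920) (by decide +kernel)
              (CovZ.n2 (10040, 23880) (by decide +kernel)
               (CovZ.n2 (10040, 23920) (by decide +kernel)
                (CovZ.n2 (10060, 23900) (by decide +kernel)
                 (CovZ.leaf K2_ok TF_l13219 _)
                 (CovZ.n1 (10060, 23920) (by decide +kernel)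
                  (CovZ.leaf K2_ok TF_l13220 _)
                  (CovZ.leaf K2_ok TF_l13221 _)))
                (CovZ.n1 (10020, 23900) (by decide +kernel)
                 (CovZ.leaf K2_ok TF_l13222 _)
                 (CovZ.leaf K2_ok TF_l13223 _)))
               (CovZ.n1 (10080, 23880) (by decide +kernel)
                (CovZ.leaf K2_ok TF_l13224 _)
                (CovZ.n1 (10060, 23900) (by decide +kernel)
                 (CovZ.leaf K2_ok TF_l13225 _)
                 (CovZ.leaf K2_ok TF_l13226 _))))
              (CovZ.n1 (10040, 23960) (by decide +kernel)
               (CovZ.badM (by decide +kernel))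
               (CovZ.n1 (10040, 23920) (by decide +kernel)
                (CovZ.n2 (10020, 23940) (by decide +kernel)
                 (CovZ.n2 (10040, 23940) (by decide +kernel)
                  (CovZ.leaf K2_ok TF_l13227 _)
                  (CovZ.badM (by decide +kernel)))
                 (CovZ.leaf K2_ok TF_l13228 _))
                (CovZ.leaf K2_ok TF_l13229 _))))))
           (CovZ.n1 (10240, 23840) (by decide +kernel)
            (CovZ.n2 (10160, 23760) (by decide +kernel)
             (CovZ.n2 (10160, 23840) (by decide +kernel)
              (CovZ.n2 (10200, 23800) (by decide +kernel)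
               (CovZ.leaf K2_ok TF_l13230 _)
               (CovZ.n1 (10200, 23840) (by decide +kernel)
                (CovZ.leaf K2_ok TF_l13231 _)
                (CovZ.leaf K2_ok TF_l13232 _)))
              (CovZ.n1 (10120, 23800) (by decide +kernel)
               (CovZ.n2 (10120, 23840) (by decide +kernel)
                (CovZ.leaf K2_ok TF_l13233 _)
                (CovZ.leaf K2_ok TF_l13234 _))
               (CovZ.leaf K2_ok TF_l13235 _)))
             (CovZ.n1 (10240, 23760) (by decide +kernel)
              (CovZ.leaf K2_ok TF_l13236 _)
              (CovZ.n1 (10200, 23800) (by decide +kernel)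
               (CovZ.leaf K2_ok TF_l13237 _)
               (CovZ.leaf K2_ok TF_l13238 _))))
            (CovZ.n1 (10160, 23920) (by decide +kernel)
             (CovZ.n2 (10240, 23920) (by decide +kernel)
              (CovZ.n2 (10200, 23880) (by decide +kernel)
               (CovZ.n2 (10200, 23920) (by decide +kernel)
                (CovZ.n2 (10220, 23900) (by decide +kernel)
                 (CovZ.leaf K2_ok TF_l13239 _)
                 (CovZ.badM (by decide +kernel)))
                (CovZ.n1 (10180, 23900) (by decide +kernel)
                 (CovZ.badM (by decide +kernel))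
                 (CovZ.n1 (10200, 23900) (by decide +kernel)
                  (CovZ.leaf K2_ok TF_l13240 _)
                  (CovZ.badM (by decide +kernel)))))
               (CovZ.n1 (10240, 23880) (by decide +kernel)
                (CovZ.leaf K2_ok TF_l13241 _)
                (CovZ.n1 (10220, 23900) (by decide +kernel)
                 (CovZ.badM (by decide +kernel))
                 (CovZ.leaf K2_ok TF_l13242 _))))
              (CovZ.badM (by decide +kernel)))
             (CovZ.n1 (10160, 23840) (by decide +kernel)
              (CovZ.n2 (10120, 23880) (by decide +kernel)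
               (CovZ.n2 (10160, 23880) (by decide +kernel)
                (CovZ.leaf K2_ok TF_l13243 _)
                (CovZ.n1 (10140, 23900) (by decide +kernel)
                 (CovZ.leaf K2_ok TF_l13244 _)
                 (CovZ.leaf K2_ok TF_l13245 _)))
               (CovZ.leaf K2_ok TF_l13246 _))
              (CovZ.n1 (10200, 23880) (by decide +kernel)
               (CovZ.n2 (10200, 23840) (by decide +kernel)
                (CovZ.leaf K2_ok TF_l13247 _)
                (CovZ.leaf K2_ok TF_l13248 _))
               (CovZ.n1 (10160, 23880) (by decide +kernel)
                (CovZ.leaf K2_ok TF_l13249 _)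
                (CovZ.leaf K2_ok TF_l13250 _)))))))
          (CovZ.badM (by decide +kernel)))
         (CovZ.n1 (9920, 23680) (by decide +kernel)
          (CovZ.n2 (9760, 23840) (by decide +kernel)
           (CovZ.n2 (9920, 23840) (by decide +kernel)
            (CovZ.n2 (9840, 23760) (by decide +kernel)
             (CovZ.leaf K2_ok TF_l13251 _)
             (CovZ.leaf K2_ok TF_l13252 _))
            (CovZ.n1 (9840, 23920) (by decide +kernel)
             (CovZ.n2 (9920, 23920) (by decide +kernel)
              (CovZ.leaf K2_ok TF_l13253 _)
              (CovZ.n1 (9880, 23960) (by decide +kernel)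
               (CovZ.n2 (9920, 23960) (by decide +kernel)
                (CovZ.leaf K2_ok TF_l13254 _)
                (CovZ.n1 (9900, 23980) (by decide +kernel)
                 (CovZ.n2 (9920, 23980) (by decide +kernel)
                  (CovZ.leaf K2_ok TF_l13255 _)
                  (CovZ.badM (by decide +kernel)))
                 (CovZ.leaf K2_ok TF_l13256 _)))
               (CovZ.leaf K2_ok TF_l13257 _)))
             (CovZ.leaf K2_ok TF_l13258 _)))
           (CovZ.n1 (9760, 23680) (by decide +kernel)
            (CovZ.n2 (9680, 23760) (by decide +kernel)
             (CovZ.leaf K2_ok TF_l13259 _)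
             (CovZ.leaf K2_ok TF_l4879 _))
            (CovZ.leaf K2_ok TF_l13260 _)))
          (CovZ.n1 (10080, 23840) (by decide +kernel)
           (CovZ.n2 (10080, 23680) (by decide +kernel)
            (CovZ.n2 (10000, 23760) (by decide +kernel)
             (CovZ.n2 (10080, 23760) (by decide +kernel)
              (CovZ.leaf K2_ok TF_l13261 _)
              (CovZ.n1 (10040, 23800) (by decide +kernel)
               (CovZ.leaf K2_ok TF_l13262 _)
               (CovZ.leaf K2_ok TF_l13263 _)))
             (CovZ.leaf K2_ok TF_l13264 _))
            (CovZ.n1 (10160, 23760) (by decide +kernel)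
             (CovZ.n2 (10160, 23680) (by decide +kernel)
              (CovZ.leaf K2_ok TF_l13265 _)
              (CovZ.leaf K2_ok TF_l13266 _))
             (CovZ.leaf K2_ok TF_l13267 _)))
           (CovZ.n1 (9920, 23840) (by decide +kernel)
            (CovZ.n2 (10000, 23920) (by decide +kernel)
             (CovZ.n2 (10000, 23840) (by decide +kernel)
              (CovZ.n2 (9960, 23880) (by decide +kernel)
               (CovZ.n2 (10000, 23880) (by decide +kernel)
                (CovZ.leaf K2_ok TF_l13268 _)
                (CovZ.leaf K2_ok TF_l13269 _))
               (CovZ.leaf K2_ok TF_l13270 _))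
              (CovZ.leaf K2_ok TF_l13271 _))
             (CovZ.n1 (9920, 23920) (by decide +kernel)
              (CovZ.n2 (9960, 23960) (by decide +kernel)
               (CovZ.n2 (9960, 23920) (by decide +kernel)
                (CovZ.n2 (9940, 23940) (by decide +kernel)
                 (CovZ.leaf K2_ok TF_l13272 _)
                 (CovZ.leaf K2_ok TF_l13273 _))
                (CovZ.leaf K2_ok TF_l13274 _))
               (CovZ.n1 (9920, 23960) (by decide +kernel)
                (CovZ.leaf K2_ok TF_l13275 _)
                (CovZ.n1 (9940, 23940) (by decide +kernel)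
                 (CovZ.leaf K2_ok TF_l13276 _)
                 (CovZ.leaf K2_ok TF_l13277 _))))
              (CovZ.n1 (9960, 23880) (by decide +kernel)
               (CovZ.leaf K2_ok TF_l13278 _)
               (CovZ.n1 (9960, 23920) (by decide +kernel)
                (CovZ.leaf K2_ok TF_l13279 _)
                (CovZ.leaf K2_ok TF_l13280 _)))))
            (CovZ.n1 (10000, 23760) (by decide +kernel)
             (CovZ.leaf K2_ok TF_l13281 _)
             (CovZ.n1 (10000, 23840) (by decide +kernel)
              (CovZ.n2 (10040, 23800) (by decide +kernel)
               (CovZ.leaf K2_ok TF_l13282 _)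
               (CovZ.leaf K2_ok TF_l13283 _))
              (CovZ.leaf K2_ok TF_l13284 _)))))))))

theorem TF_u142 : CovZ TF_M (toL (selN TF_LN 2854495385411919767068332096040511372361990208)) [0, 7, 4, 3] (11520, 24320) (12160, 23680) (12800, 24320) :=
    (CovZ.n2 (12160, 24320) (by decide +kernel)
        (CovZ.n2 (12480, 24000) (by decide +kernel)
         (CovZ.n2 (12160, 24000) (by decide +kernel)
          (CovZ.n2 (12320, 24160) (by decide +kernel)
           (CovZ.n2 (12320, 24000) (by decide +kernel)
            (CovZ.n2 (12240, 24080) (by decide +kernel)
             (CovZ.badM (by decide +kernel))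
             (CovZ.n1 (12240, 24000) (by decide +kernel)
              (CovZ.badM (by decide +kernel))
              (CovZ.n1 (12280, 24040) (by decide +kernel)
               (CovZ.n2 (12280, 24000) (by decide +kernel)
                (CovZ.badM (by decide +kernel))
                (CovZ.badM (by decide +kernel)))
               (CovZ.badM (by decide +kernel)))))
            (CovZ.badM (by decide +kernel)))
           (CovZ.badM (by decide +kernel)))
          (CovZ.n1 (12320, 23840) (by decide +kernel)
           (CovZ.n2 (12160, 23840) (by decide +kernel)
            (CovZ.n2 (12240, 23920) (by decide +kernel)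
             (CovZ.n2 (12240, 23840) (by decide +kernel)
              (CovZ.n2 (12200, 23880) (by decide +kernel)
               (CovZ.leaf K2_ok TF_l5141 _)
               (CovZ.leaf K2_ok TF_l5142 _))
              (CovZ.leaf K2_ok TF_l15825 _))
             (CovZ.n1 (12160, 23920) (by decide +kernel)
              (CovZ.n2 (12200, 23960) (by decide +kernel)
               (CovZ.n2 (12200, 23920) (by decide +kernel)
                (CovZ.n2 (12180, 23940) (by decide +kernel)
                 (CovZ.leaf K2_ok TF_l15826 _)
                 (CovZ.leaf K2_ok TF_l15827 _))
                (CovZ.leaf K2_ok TF_l5143 _))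
               (CovZ.n1 (12160, 23960) (by decide +kernel)
                (CovZ.leaf K2_ok TF_l15828 _)
                (CovZ.n1 (12180, 23940) (by decide +kernel)
                 (CovZ.leaf K2_ok TF_l15829 _)
                 (CovZ.leaf K2_ok TF_l15830 _))))
              (CovZ.n1 (12200, 23880) (by decide +kernel)
               (CovZ.leaf K2_ok TF_l5144 _)
               (CovZ.n1 (12200, 23920) (by decide +kernel)
                (CovZ.leaf K2_ok TF_l5145 _)
                (CovZ.leaf K2_ok TF_l5146 _)))))
            (CovZ.n1 (12240, 23760) (by decide +kernel)
             (CovZ.leaf K2_ok TF_l5147 _)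
             (CovZ.n1 (12240, 23840) (by decide +kernel)
              (CovZ.leaf K2_ok TF_l5148 _)
              (CovZ.leaf K2_ok TF_l5149 _))))
           (CovZ.n1 (12320, 24000) (by decide +kernel)
            (CovZ.n2 (12400, 23920) (by decide +kernel)
             (CovZ.n2 (12320, 23920) (by decide +kernel)
              (CovZ.n2 (12360, 23960) (by decide +kernel)
               (CovZ.n2 (12360, 23920) (by decide +kernel)
                (CovZ.n2 (12340, 23940) (by decide +kernel)
                 (CovZ.badM (by decide +kernel))
                 (CovZ.leaf K2_ok TF_l15831 _))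
                (CovZ.badM (by decide +kernel)))
               (CovZ.n1 (12320, 23960) (by decide +kernel)
                (CovZ.badM (by decide +kernel))
                (CovZ.n1 (12340, 23940) (by decide +kernel)
                 (CovZ.leaf K2_ok TF_l15832 _)
                 (CovZ.badM (by decide +kernel)))))
              (CovZ.n1 (12360, 23880) (by decide +kernel)
               (CovZ.leaf K2_ok TF_l15833 _)
               (CovZ.n1 (12360, 23920) (by decide +kernel)
                (CovZ.n2 (12380, 23900) (by decide +kernel)
                 (CovZ.leaf K2_ok TF_l15834 _)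
                 (CovZ.badM (by decide +kernel)))
                (CovZ.n1 (12340, 23900) (by decide +kernel)
                 (CovZ.leaf K2_ok TF_l15835 _)
                 (CovZ.leaf K2_ok TF_l15836 _)))))
             (CovZ.badM (by decide +kernel)))
            (CovZ.n1 (12240, 23920) (by decide +kernel)
             (CovZ.n2 (12240, 24000) (by decide +kernel)
              (CovZ.n2 (12280, 23960) (by decide +kernel)
               (CovZ.n2 (12240, 23960) (by decide +kernel)
                (CovZ.leaf K2_ok TF_l15837 _)
                (CovZ.n1 (12260, 23940) (by decide +kernel)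
                 (CovZ.leaf K2_ok TF_l15838 _)
                 (CovZ.leaf K2_ok TF_l15839 _)))
               (CovZ.n1 (12280, 24000) (by decide +kernel)
                (CovZ.n2 (12300, 23980) (by decide +kernel)
                 (CovZ.leaf K2_ok TF_l15840 _)
                 (CovZ.badM (by decide +kernel)))
                (CovZ.n1 (12260, 23980) (by decide +kernel)
                 (CovZ.n2 (12260, 24000) (by decide +kernel)
                  (CovZ.leaf K2_ok TF_l15841 _)
                  (CovZ.leaf K2_ok TF_l15842 _))
                 (CovZ.n1 (12280, 23980) (by decide +kernel)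
                  (CovZ.leaf K2_ok TF_l15843 _)
                  (CovZ.leaf K2_ok TF_l15844 _)))))
              (CovZ.n1 (12200, 23960) (by decide +kernel)
               (CovZ.n2 (12200, 24000) (by decide +kernel)
                (CovZ.n2 (12220, 23980) (by decide +kernel)
                 (CovZ.leaf K2_ok TF_l15845 _)
                 (CovZ.badM (by decide +kernel)))
                (CovZ.n1 (12180, 23980) (by decide +kernel)
                 (CovZ.badM (by decide +kernel))
                 (CovZ.n1 (12200, 23980) (by decide +kernel)
                  (CovZ.leaf K2_ok TF_l15846 _)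
                  (CovZ.badM (by decide +kernel)))))
               (CovZ.n1 (12240, 23960) (by decide +kernel)
                (CovZ.n2 (12220, 23940) (by decide +kernel)
                 (CovZ.leaf K2_ok TF_l15847 _)
                 (CovZ.leaf K2_ok TF_l15848 _))
                (CovZ.n1 (12220, 23980) (by decide +kernel)
                 (CovZ.n2 (12240, 23980) (by decide +kernel)
                  (CovZ.leaf K2_ok TF_l15849 _)
                  (CovZ.leaf K2_ok TF_l15850 _))
                 (CovZ.leaf K2_ok TF_l15851 _)))))
             (CovZ.n1 (12320, 23920) (by decide +kernel)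
              (CovZ.n2 (12280, 23880) (by decide +kernel)
               (CovZ.n2 (12280, 23920) (by decide +kernel)
                (CovZ.leaf K2_ok TF_l15852 _)
                (CovZ.leaf K2_ok TF_l15853 _))
               (CovZ.n1 (12320, 23880) (by decide +kernel)
                (CovZ.leaf K2_ok TF_l15854 _)
                (CovZ.leaf K2_ok TF_l15855 _)))
              (CovZ.n1 (12280, 23960) (by decide +kernel)
               (CovZ.n2 (12320, 23960) (by decide +kernel)
                (CovZ.n2 (12300, 23940) (by decide +kernel)
                 (CovZ.leaf K2_ok TF_l15856 _)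
                 (CovZ.leaf K2_ok TF_l15857 _))
                (CovZ.n1 (12300, 23980) (by decide +kernel)
                 (CovZ.badM (by decide +kernel))
                 (CovZ.leaf K2_ok TF_l15858 _)))
               (CovZ.n1 (12280, 23920) (by decide +kernel)
                (CovZ.n2 (12260, 23940) (by decide +kernel)
                 (CovZ.leaf K2_ok TF_l15859 _)
                 (CovZ.leaf K2_ok TF_l15860 _))
                (CovZ.leaf K2_ok TF_l15861 _))))))))
         (CovZ.badM (by decide +kernel)))
        (CovZ.n1 (11840, 24000) (by decide +kernel)
         (CovZ.badM (by decide +kernel))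
         (CovZ.n1 (12160, 24000) (by decide +kernel)
          (CovZ.n2 (12000, 23840) (by decide +kernel)
           (CovZ.n2 (12000, 24000) (by decide +kernel)
            (CovZ.n2 (12080, 23920) (by decide +kernel)
             (CovZ.n2 (12000, 23920) (by decide +kernel)
              (CovZ.n2 (12040, 23960) (by decide +kernel)
               (CovZ.n2 (12040, 23920) (by decide +kernel)
                (CovZ.n2 (12020, 23940) (by decide +kernel)
                 (CovZ.leaf K2_ok TF_l15862 _)
                 (CovZ.leaf K2_ok TF_l15863 _))
                (CovZ.leaf K2_ok TF_l15864 _))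
               (CovZ.badM (by decide +kernel)))
              (CovZ.n1 (12040, 23880) (by decide +kernel)
               (CovZ.leaf K2_ok TF_l15865 _)
               (CovZ.n1 (12040, 23920) (by decide +kernel)
                (CovZ.leaf K2_ok TF_l15866 _)
                (CovZ.leaf K2_ok TF_l15867 _))))
             (CovZ.n1 (12080, 24000) (by decide +kernel)
              (CovZ.n2 (12120, 23960) (by decide +kernel)
               (CovZ.n2 (12080, 23960) (by decide +kernel)
                (CovZ.badM (by decide +kernel))
                (CovZ.n1 (12100, 23940) (by decide +kernel)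
                 (CovZ.leaf K2_ok TF_l15868 _)
                 (CovZ.n1 (12100, 23960) (by decide +kernel)
                  (CovZ.leaf K2_ok TF_l15869 _)
                  (CovZ.leaf K2_ok TF_l15870 _))))
               (CovZ.badM (by decide +kernel)))
              (CovZ.n1 (12040, 23960) (by decide +kernel)
               (CovZ.badM (by decide +kernel))
               (CovZ.n1 (12080, 23960) (by decide +kernel)
                (CovZ.n2 (12060, 23940) (by decide +kernel)
                 (CovZ.badM (by decide +kernel))
                 (CovZ.leaf K2_ok TF_l15871 _))
                (CovZ.badM (by decide +kernel))))))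
            (CovZ.n1 (11920, 23920) (by decide +kernel)
             (CovZ.badM (by decide +kernel))
             (CovZ.n1 (12000, 23920) (by decide +kernel)
              (CovZ.n2 (11960, 23880) (by decide +kernel)
               (CovZ.n2 (11960, 23920) (by decide +kernel)
                (CovZ.n2 (11980, 23900) (by decide +kernel)
                 (CovZ.leaf K2_ok TF_l15872 _)
                 (CovZ.leaf K2_ok TF_l15873 _))
                (CovZ.n1 (11940, 23900) (by decide +kernel)
                 (CovZ.badM (by decide +kernel))
                 (CovZ.leaf K2_ok TF_l15874 _)))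
               (CovZ.n1 (12000, 23880) (by decide +kernel)
                (CovZ.leaf K2_ok TF_l15875 _)
                (CovZ.leaf K2_ok TF_l15876 _)))
              (CovZ.badM (by decide +kernel)))))
           (CovZ.n1 (12160, 23840) (by decide +kernel)
            (CovZ.n2 (12080, 23760) (by decide +kernel)
             (CovZ.n2 (12080, 23840) (by decide +kernel)
              (CovZ.n2 (12120, 23800) (by decide +kernel)
               (CovZ.leaf K2_ok TF_l15877 _)
               (CovZ.leaf K2_ok TF_l15878 _))
              (CovZ.n1 (12040, 23800) (by decide +kernel)
               (CovZ.leaf K2_ok TF_l15879 _)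
               (CovZ.leaf K2_ok TF_l15880 _)))
             (CovZ.n1 (12160, 23760) (by decide +kernel)
              (CovZ.leaf K2_ok TF_l5150 _)
              (CovZ.n1 (12120, 23800) (by decide +kernel)
               (CovZ.leaf K2_ok TF_l5151 _)
               (CovZ.leaf K2_ok TF_l5152 _))))
            (CovZ.n1 (12080, 23920) (by decide +kernel)
             (CovZ.n2 (12160, 23920) (by decide +kernel)
              (CovZ.n2 (12120, 23880) (by decide +kernel)
               (CovZ.n2 (12120, 23920) (by decide +kernel)
                (CovZ.leaf K2_ok TF_l15881 _)
                (CovZ.leaf K2_ok TF_l15882 _))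
               (CovZ.n1 (12160, 23880) (by decide +kernel)
                (CovZ.leaf K2_ok TF_l15883 _)
                (CovZ.leaf K2_ok TF_l15884 _)))
              (CovZ.n1 (12120, 23960) (by decide +kernel)
               (CovZ.n2 (12160, 23960) (by decide +kernel)
                (CovZ.n2 (12140, 23940) (by decide +kernel)
                 (CovZ.leaf K2_ok TF_l15885 _)
                 (CovZ.leaf K2_ok TF_l15886 _))
                (CovZ.n1 (12140, 23980) (by decide +kernel)
                 (CovZ.n2 (12160, 23980) (by decide +kernel)
                  (CovZ.leaf K2_ok TF_l15887 _)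
                  (CovZ.badM (by decide +kernel)))
                 (CovZ.leaf K2_ok TF_l15888 _)))
               (CovZ.n1 (12120, 23920) (by decide +kernel)
                (CovZ.n2 (12100, 23940) (by decide +kernel)
                 (CovZ.leaf K2_ok TF_l15889 _)
                 (CovZ.leaf K2_ok TF_l15890 _))
                (CovZ.leaf K2_ok TF_l15891 _))))
             (CovZ.n1 (12080, 23840) (by decide +kernel)
              (CovZ.n2 (12040, 23880) (by decide +kernel)
               (CovZ.n2 (12080, 23880) (by decide +kernel)
                (CovZ.leaf K2_ok TF_l15892 _)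
                (CovZ.leaf K2_ok TF_l15893 _))
               (CovZ.leaf K2_ok TF_l15894 _))
              (CovZ.leaf K2_ok TF_l15895 _)))))
          (CovZ.badM (by decide +kernel)))))

theorem TF_u143 : CovZ TF_M (toL (selN TF_LN 2854495385411919767068332096040511372361990208)) [0, 7, 4, 3] (12160, 23680) (12800, 23040) (12800, 24320) :=
    (CovZ.n1 (12800, 23680) (by decide +kernel)
        (CovZ.n2 (12480, 23360) (by decide +kernel)
         (CovZ.n2 (12480, 23680) (by decide +kernel)
          (CovZ.n2 (12640, 23520) (by decide +kernel)
           (CovZ.n2 (12480, 23520) (by decide +kernel)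
            (CovZ.leaf K2_ok TF_l5153 _)
            (CovZ.n1 (12560, 23440) (by decide +kernel)
             (CovZ.leaf K2_ok TF_l5154 _)
             (CovZ.leaf K2_ok TF_l5155 _)))
           (CovZ.n1 (12640, 23680) (by decide +kernel)
            (CovZ.n2 (12720, 23600) (by decide +kernel)
             (CovZ.leaf K2_ok TF_l5156 _)
             (CovZ.badM (by decide +kernel)))
            (CovZ.n1 (12560, 23600) (by decide +kernel)
             (CovZ.n2 (12560, 23680) (by decide +kernel)
              (CovZ.leaf K2_ok TF_l5161 _)
              (CovZ.leaf K2_ok TF_l15896 _))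
             (CovZ.n1 (12640, 23600) (by decide +kernel)
              (CovZ.leaf K2_ok TF_l5162 _)
              (CovZ.leaf K2_ok TF_l5163 _)))))
          (CovZ.n1 (12320, 23520) (by decide +kernel)
           (CovZ.n2 (12320, 23680) (by decide +kernel)
            (CovZ.n2 (12400, 23600) (by decide +kernel)
             (CovZ.leaf K2_ok TF_l5164 _)
             (CovZ.n1 (12400, 23680) (by decide +kernel)
              (CovZ.leaf K2_ok TF_l15897 _)
              (CovZ.leaf K2_ok TF_l15898 _)))
            (CovZ.n1 (12240, 23600) (by decide +kernel)
             (CovZ.leaf K2_ok TF_l5165 _)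
             (CovZ.leaf K2_ok TF_l5166 _)))
           (CovZ.n1 (12480, 23520) (by decide +kernel)
            (CovZ.leaf K2_ok TF_l5167 _)
            (CovZ.n1 (12400, 23600) (by decide +kernel)
             (CovZ.leaf K2_ok TF_l15899 _)
             (CovZ.leaf K2_ok TF_l5168 _)))))
         (CovZ.n1 (12800, 23360) (by decide +kernel)
          (CovZ.n2 (12640, 23200) (by decide +kernel)
           (CovZ.n2 (12640, 23360) (by decide +kernel)
            (CovZ.leaf K2_ok TF_l5169 _)
            (CovZ.leaf K2_ok TF_l5170 _))
           (CovZ.n1 (12800, 23200) (by decide +kernel)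
            (CovZ.leaf K2_ok TF_l5171 _)
            (CovZ.leaf K2_ok TF_l5172 _)))
          (CovZ.n1 (12640, 23520) (by decide +kernel)
           (CovZ.n2 (12800, 23520) (by decide +kernel)
            (CovZ.n2 (12720, 23440) (by decide +kernel)
             (CovZ.n2 (12720, 23520) (by decide +kernel)
              (CovZ.leaf K2_ok TF_l5173 _)
              (CovZ.leaf K2_ok TF_l5174 _))
             (CovZ.n1 (12800, 23440) (by decide +kernel)
              (CovZ.leaf K2_ok TF_l5175 _)
              (CovZ.leaf K2_ok TF_l5176 _)))
            (CovZ.n1 (12720, 23600) (by decide +kernel)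
             (CovZ.badM (by decide +kernel))
             (CovZ.n1 (12720, 23520) (by decide +kernel)
              (CovZ.leaf K2_ok TF_l5181 _)
              (CovZ.leaf K2_ok TF_l5182 _))))
           (CovZ.n1 (12640, 23360) (by decide +kernel)
            (CovZ.leaf K2_ok TF_l5183 _)
            (CovZ.leaf K2_ok TF_l5184 _)))))
        (CovZ.n1 (12480, 24000) (by decide +kernel)
         (CovZ.badM (by decide +kernel))
         (CovZ.n1 (12480, 23680) (by decide +kernel)
          (CovZ.n2 (12320, 23840) (by decide +kernel)
           (CovZ.n2 (12480, 23840) (by decide +kernel)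
            (CovZ.n2 (12400, 23760) (by decide +kernel)
             (CovZ.n2 (12400, 23840) (by decide +kernel)
              (CovZ.n2 (12440, 23800) (by decide +kernel)
               (CovZ.leaf K2_ok TF_l15900 _)
               (CovZ.n1 (12440, 23840) (by decide +kernel)
                (CovZ.leaf K2_ok TF_l15901 _)
                (CovZ.leaf K2_ok TF_l15902 _)))
              (CovZ.n1 (12360, 23800) (by decide +kernel)
               (CovZ.leaf K2_ok TF_l15903 _)
               (CovZ.leaf K2_ok TF_l15904 _)))
             (CovZ.n1 (12480, 23760) (by decide +kernel)
              (CovZ.leaf K2_ok TF_l15905 _)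
              (CovZ.n1 (12440, 23800) (by decide +kernel)
               (CovZ.leaf K2_ok TF_l15906 _)
               (CovZ.leaf K2_ok TF_l15907 _))))
            (CovZ.n1 (12400, 23920) (by decide +kernel)
             (CovZ.badM (by decide +kernel))
             (CovZ.n1 (12400, 23840) (by decide +kernel)
              (CovZ.n2 (12360, 23880) (by decide +kernel)
               (CovZ.n2 (12400, 23880) (by decide +kernel)
                (CovZ.leaf K2_ok TF_l15908 _)
                (CovZ.n1 (12380, 23900) (by decide +kernel)
                 (CovZ.badM (by decide +kernel))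
                 (CovZ.leaf K2_ok TF_l15909 _)))
               (CovZ.leaf K2_ok TF_l15910 _))
              (CovZ.n1 (12440, 23880) (by decide +kernel)
               (CovZ.leaf K2_ok TF_l15911 _)
               (CovZ.leaf K2_ok TF_l15912 _)))))
           (CovZ.n1 (12320, 23680) (by decide +kernel)
            (CovZ.n2 (12240, 23760) (by decide +kernel)
             (CovZ.n2 (12320, 23760) (by decide +kernel)
              (CovZ.leaf K2_ok TF_l5185 _)
              (CovZ.leaf K2_ok TF_l5186 _))
             (CovZ.leaf K2_ok TF_l5187 _))
            (CovZ.leaf K2_ok TF_l15913 _)))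
          (CovZ.n1 (12640, 23840) (by decide +kernel)
           (CovZ.n2 (12640, 23680) (by decide +kernel)
            (CovZ.n2 (12560, 23760) (by decide +kernel)
             (CovZ.badM (by decide +kernel))
             (CovZ.n1 (12560, 23680) (by decide +kernel)
              (CovZ.n2 (12520, 23720) (by decide +kernel)
               (CovZ.leaf K2_ok TF_l15914 _)
               (CovZ.leaf K2_ok TF_l15915 _))
              (CovZ.leaf K2_ok TF_l5190 _)))
            (CovZ.badM (by decide +kernel)))
           (CovZ.n1 (12480, 23840) (by decide +kernel)
            (CovZ.badM (by decide +kernel))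
            (CovZ.n1 (12560, 23760) (by decide +kernel)
             (CovZ.n2 (12480, 23760) (by decide +kernel)
              (CovZ.leaf K2_ok TF_l15916 _)
              (CovZ.n1 (12520, 23720) (by decide +kernel)
               (CovZ.leaf K2_ok TF_l15917 _)
               (CovZ.leaf K2_ok TF_l15918 _)))
             (CovZ.badM (by decide +kernel))))))))

theorem TF_u144 : CovZ TF_M (toL (selN TF_LN 2854495385411919769853697230549477175159947328)) [0, 7, 4, 3] (11520, 24320) (11520, 23680) (12160, 23680) :=
    (CovZ.subM 2854495385411919767068332132933999519781093376 (by decide +kernel)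
        (CovZ.n2 (11840, 24000) (by decide +kernel)
         (CovZ.n2 (11840, 23680) (by decide +kernel)
          (CovZ.n2 (11680, 23840) (by decide +kernel)
           (CovZ.n2 (11840, 23840) (by decide +kernel)
            (CovZ.n2 (11760, 23760) (by decide +kernel)
             (CovZ.n2 (11760, 23840) (by decide +kernel)
              (CovZ.n2 (11800, 23800) (by decide +kernel)
               (CovZ.leaf K2_ok TF_l15929 _)
               (CovZ.n1 (11800, 23840) (by decide +kernel)
                (CovZ.leaf K2_ok TF_l15930 _)
                (CovZ.leaf K2_ok TF_l15931 _)))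
              (CovZ.n1 (11720, 23800) (by decide +kernel)
               (CovZ.n2 (11720, 23840) (by decide +kernel)
                (CovZ.leaf K2_ok TF_l13467 _)
                (CovZ.leaf K2_ok TF_l13468 _))
               (CovZ.leaf K2_ok TF_l15932 _)))
             (CovZ.n1 (11840, 23760) (by decide +kernel)
              (CovZ.leaf K2_ok TF_l15933 _)
              (CovZ.n1 (11800, 23800) (by decide +kernel)
               (CovZ.leaf K2_ok TF_l15934 _)
               (CovZ.leaf K2_ok TF_l15935 _))))
            (CovZ.n1 (11760, 23920) (by decide +kernel)
             (CovZ.n2 (11840, 23920) (by decide +kernel)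
              (CovZ.n2 (11800, 23880) (by decide +kernel)
               (CovZ.badM (by decide +kernel))
               (CovZ.n1 (11840, 23880) (by decide +kernel)
                (CovZ.leaf K2_ok TF_l15936 _)
                (CovZ.badM (by decide +kernel))))
              (CovZ.badM (by decide +kernel)))
             (CovZ.n1 (11760, 23840) (by decide +kernel)
              (CovZ.n2 (11720, 23880) (by decide +kernel)
               (CovZ.n2 (11760, 23880) (by decide +kernel)
                (CovZ.leaf K2_ok TF_l13469 _)
                (CovZ.n1 (11740, 23900) (by decide +kernel)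
                 (CovZ.leaf K2_ok TF_l13470 _)
                 (CovZ.leaf K2_ok TF_l13471 _)))
               (CovZ.n1 (11720, 23840) (by decide +kernel)
                (CovZ.leaf K2_ok TF_l13472 _)
                (CovZ.leaf K2_ok TF_l13473 _)))
              (CovZ.n1 (11800, 23880) (by decide +kernel)
               (CovZ.leaf K2_ok TF_l15937 _)
               (CovZ.n1 (11760, 23880) (by decide +kernel)
                (CovZ.badM (by decide +kernel))
                (CovZ.leaf K2_ok TF_l15938 _))))))
           (CovZ.n1 (11680, 23680) (by decide +kernel)
            (CovZ.n2 (11600, 23760) (by decide +kernel)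
             (CovZ.n2 (11680, 23760) (by decide +kernel)
              (CovZ.leaf K2_ok TF_l13474 _)
              (CovZ.n1 (11640, 23800) (by decide +kernel)
               (CovZ.leaf K2_ok TF_l13475 _)
               (CovZ.leaf K2_ok TF_l13476 _)))
             (CovZ.n1 (11600, 23680) (by decide +kernel)
              (CovZ.n2 (11560, 23720) (by decide +kernel)
               (CovZ.leaf K2_ok TF_l13477 _)
               (CovZ.leaf K2_ok TF_l13478 _))
              (CovZ.leaf K2_ok TF_l13479 _)))
            (CovZ.n1 (11760, 23760) (by decide +kernel)
             (CovZ.n2 (11760, 23680) (by decide +kernel)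
              (CovZ.leaf K2_ok TF_l15939 _)
              (CovZ.leaf K2_ok TF_l15940 _))
             (CovZ.n1 (11680, 23760) (by decide +kernel)
              (CovZ.leaf K2_ok TF_l13480 _)
              (CovZ.leaf K2_ok TF_l13481 _)))))
          (CovZ.n1 (12000, 23840) (by decide +kernel)
           (CovZ.n2 (12000, 23680) (by decide +kernel)
            (CovZ.n2 (11920, 23760) (by decide +kernel)
             (CovZ.n2 (12000, 23760) (by decide +kernel)
              (CovZ.leaf K2_ok TF_l15941 _)
              (CovZ.n1 (11960, 23800) (by decide +kernel)
               (CovZ.leaf K2_ok TF_l15942 _)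
               (CovZ.leaf K2_ok TF_l15943 _)))
             (CovZ.leaf K2_ok TF_l15944 _))
            (CovZ.leaf K2_ok TF_l5235 _))
           (CovZ.n1 (11840, 23840) (by decide +kernel)
            (CovZ.n2 (11920, 23920) (by decide +kernel)
             (CovZ.n2 (11920, 23840) (by decide +kernel)
              (CovZ.n2 (11880, 23880) (by decide +kernel)
               (CovZ.n2 (11920, 23880) (by decide +kernel)
                (CovZ.leaf K2_ok TF_l15945 _)
                (CovZ.n1 (11900, 23900) (by decide +kernel)
                 (CovZ.leaf K2_ok TF_l15946 _)
                 (CovZ.leaf K2_ok TF_l15947 _)))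
               (CovZ.leaf K2_ok TF_l15948 _))
              (CovZ.leaf K2_ok TF_l15949 _))
             (CovZ.n1 (11840, 23920) (by decide +kernel)
              (CovZ.badM (by decide +kernel))
              (CovZ.n1 (11880, 23880) (by decide +kernel)
               (CovZ.leaf K2_ok TF_l15950 _)
               (CovZ.n1 (11880, 23920) (by decide +kernel)
                (CovZ.n2 (11900, 23900) (by decide +kernel)
                 (CovZ.leaf K2_ok TF_l15951 _)
                 (CovZ.badM (by decide +kernel)))
                (CovZ.n1 (11860, 23900) (by decide +kernel)
                 (CovZ.badM (by decide +kernel))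
                 (CovZ.leaf K2_ok TF_l15952 _))))))
            (CovZ.n1 (11920, 23760) (by decide +kernel)
             (CovZ.leaf K2_ok TF_l15953 _)
             (CovZ.n1 (11920, 23840) (by decide +kernel)
              (CovZ.n2 (11960, 23800) (by decide +kernel)
               (CovZ.leaf K2_ok TF_l15954 _)
               (CovZ.leaf K2_ok TF_l15955 _))
              (CovZ.n1 (11880, 23800) (by decide +kernel)
               (CovZ.n2 (11880, 23840) (by decide +kernel)
                (CovZ.leaf K2_ok TF_l15956 _)
                (CovZ.leaf K2_ok TF_l15957 _))
               (CovZ.leaf K2_ok TF_l15958 _)))))))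
         (CovZ.n1 (11520, 24000) (by decide +kernel)
          (CovZ.badM (by decide +kernel))
          (CovZ.n1 (11680, 23840) (by decide +kernel)
           (CovZ.n2 (11520, 23840) (by decide +kernel)
            (CovZ.n2 (11600, 23920) (by decide +kernel)
             (CovZ.n2 (11600, 23840) (by decide +kernel)
              (CovZ.n2 (11560, 23880) (by decide +kernel)
               (CovZ.badM (by decide +kernel))
               (CovZ.n1 (11560, 23840) (by decide +kernel)
                (CovZ.n2 (11540, 23860) (by decide +kernel)
                 (CovZ.badM (by decide +kernel))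
                 (CovZ.leaf K2_ok TF_l13482 _))
                (CovZ.badM (by decide +kernel))))
              (CovZ.n1 (11640, 23880) (by decide +kernel)
               (CovZ.n2 (11640, 23840) (by decide +kernel)
                (CovZ.n2 (11620, 23860) (by decide +kernel)
                 (CovZ.leaf K2_ok TF_l13483 _)
                 (CovZ.leaf K2_ok TF_l13484 _))
                (CovZ.leaf K2_ok TF_l13485 _))
               (CovZ.badM (by decide +kernel))))
             (CovZ.n1 (11520, 23920) (by decide +kernel)
              (CovZ.badM (by decide +kernel))
              (CovZ.n1 (11560, 23880) (by decide +kernel)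
               (CovZ.n2 (11520, 23880) (by decide +kernel)
                (CovZ.n2 (11540, 23900) (by decide +kernel)
                 (CovZ.n2 (11540, 23880) (by decide +kernel)
                  (CovZ.leaf K2_ok TF_l13486 _)
                  (CovZ.badM (by decide +kernel)))
                 (CovZ.n1 (11520, 23900) (by decide +kernel)
                  (CovZ.badM (by decide +kernel))
                  (CovZ.leaf K2_ok TF_l13487 _)))
                (CovZ.n1 (11540, 23860) (by decide +kernel)
                 (CovZ.leaf K2_ok TF_l13488 _)
                 (CovZ.n1 (11540, 23880) (by decide +kernel)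
                  (CovZ.badM (by decide +kernel))
                  (CovZ.leaf K2_ok TF_l13489 _))))
               (CovZ.badM (by decide +kernel)))))
            (CovZ.n1 (11600, 23760) (by decide +kernel)
             (CovZ.n2 (11520, 23760) (by decide +kernel)
              (CovZ.leaf K2_ok TF_l13490 _)
              (CovZ.n1 (11560, 23720) (by decide +kernel)
               (CovZ.leaf K2_ok TF_l13491 _)
               (CovZ.leaf K2_ok TF_l13492 _)))
             (CovZ.n1 (11600, 23840) (by decide +kernel)
              (CovZ.n2 (11640, 23800) (by decide +kernel)
               (CovZ.leaf K2_ok TF_l13493 _)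
               (CovZ.n1 (11640, 23840) (by decide +kernel)
                (CovZ.leaf K2_ok TF_l13494 _)
                (CovZ.leaf K2_ok TF_l13495 _)))
              (CovZ.n1 (11560, 23800) (by decide +kernel)
               (CovZ.n2 (11560, 23840) (by decide +kernel)
                (CovZ.badM (by decide +kernel))
                (CovZ.leaf K2_ok TF_l13496 _))
               (CovZ.n1 (11600, 23800) (by decide +kernel)
                (CovZ.leaf K2_ok TF_l13497 _)
                (CovZ.leaf K2_ok TF_l13498 _))))))
           (CovZ.n1 (11680, 24000) (by decide +kernel)
            (CovZ.n2 (11760, 23920) (by decide +kernel)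
             (CovZ.n2 (11680, 23920) (by decide +kernel)
              (CovZ.n2 (11720, 23960) (by decide +kernel)
               (CovZ.n2 (11720, 23920) (by decide +kernel)
                (CovZ.badM (by decide +kernel))
                (CovZ.n1 (11740, 23940) (by decide +kernel)
                 (CovZ.leaf K2_ok TF_l13499 _)
                 (CovZ.badM (by decide +kernel))))
               (CovZ.badM (by decide +kernel)))
              (CovZ.n1 (11720, 23880) (by decide +kernel)
               (CovZ.n2 (11680, 23880) (by decide +kernel)
                (CovZ.leaf K2_ok TF_l13500 _)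
                (CovZ.leaf K2_ok TF_l13501 _))
               (CovZ.n1 (11720, 23920) (by decide +kernel)
                (CovZ.n2 (11740, 23900) (by decide +kernel)
                 (CovZ.leaf K2_ok TF_l13502 _)
                 (CovZ.n1 (11740, 23920) (by decide +kernel)
                  (CovZ.leaf K2_ok TF_l13503 _)
                  (CovZ.leaf K2_ok TF_l13504 _)))
                (CovZ.n1 (11700, 23900) (by decide +kernel)
                 (CovZ.badM (by decide +kernel))
                 (CovZ.leaf K2_ok TF_l13505 _)))))
             (CovZ.n1 (11760, 24000) (by decide +kernel)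
              (CovZ.n2 (11800, 23960) (by decide +kernel)
               (CovZ.n2 (11760, 23960) (by decide +kernel)
                (CovZ.badM (by decide +kernel))
                (CovZ.n1 (11780, 23940) (by decide +kernel)
                 (CovZ.leaf K2_ok TF_l13506 _)
                 (CovZ.n1 (11780, 23960) (by decide +kernel)
                  (CovZ.badM (by decide +kernel))
                  (CovZ.leaf K2_ok TF_l13507 _))))
               (CovZ.badM (by decide +kernel)))
              (CovZ.n1 (11720, 23960) (by decide +kernel)
               (CovZ.badM (by decide +kernel))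
               (CovZ.n1 (11760, 23960) (by decide +kernel)
                (CovZ.n2 (11740, 23940) (by decide +kernel)
                 (CovZ.badM (by decide +kernel))
                 (CovZ.n1 (11760, 23940) (by decide +kernel)
                  (CovZ.leaf K2_ok TF_l13508 _)
                  (CovZ.badM (by decide +kernel))))
                (CovZ.badM (by decide +kernel))))))
            (CovZ.n1 (11600, 23920) (by decide +kernel)
             (CovZ.badM (by decide +kernel))
             (CovZ.n1 (11680, 23920) (by decide +kernel)
              (CovZ.n2 (11640, 23880) (by decide +kernel)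
               (CovZ.badM (by decide +kernel))
               (CovZ.n1 (11680, 23880) (by decide +kernel)
                (CovZ.leaf K2_ok TF_l13509 _)
                (CovZ.badM (by decide +kernel))))
              (CovZ.badM (by decide +kernel)))))))))

theorem TF_u145 : CovZ TF_M (toL (selN TF_LN 2854495385411919769853697230549477175159947328)) [0, 7, 4, 3] (11520, 23680) (11520, 23040) (12160, 23680) :=
    (CovZ.n1 (11840, 23360) (by decide +kernel)
        (CovZ.n2 (11520, 23360) (by decide +kernel)
         (CovZ.n2 (11680, 23520) (by decide +kernel)
          (CovZ.n2 (11680, 23360) (by decide +kernel)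
           (CovZ.n2 (11600, 23440) (by decide +kernel)
            (CovZ.leaf K2_ok TF_l5236 _)
            (CovZ.leaf K2_ok TF_l5237 _))
           (CovZ.leaf K2_ok TF_l5238 _))
          (CovZ.n1 (11520, 23520) (by decide +kernel)
           (CovZ.leaf K2_ok TF_l13510 _)
           (CovZ.n1 (11600, 23440) (by decide +kernel)
            (CovZ.leaf K2_ok TF_l5239 _)
            (CovZ.leaf K2_ok TF_l13511 _))))
         (CovZ.n1 (11680, 23200) (by decide +kernel)
          (CovZ.leaf K2_ok TF_l5240 _)
          (CovZ.n1 (11680, 23360) (by decide +kernel)
           (CovZ.leaf K2_ok TF_l5241 _)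
           (CovZ.leaf K2_ok TF_l5242 _))))
        (CovZ.subM 2854495385411919767068332132933999519781093440 (by decide +kernel)
         (CovZ.n1 (11840, 23680) (by decide +kernel)
          (CovZ.n2 (12000, 23520) (by decide +kernel)
           (CovZ.n2 (11840, 23520) (by decide +kernel)
            (CovZ.leaf K2_ok TF_l15959 _)
            (CovZ.leaf K2_ok TF_l5243 _))
           (CovZ.n1 (12000, 23680) (by decide +kernel)
            (CovZ.n2 (12080, 23600) (by decide +kernel)
             (CovZ.leaf K2_ok TF_l15960 _)
             (CovZ.leaf K2_ok TF_l5244 _))
            (CovZ.n1 (11920, 23600) (by decide +kernel)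
             (CovZ.n2 (11920, 23680) (by decide +kernel)
              (CovZ.leaf K2_ok TF_l15961 _)
              (CovZ.leaf K2_ok TF_l15962 _))
             (CovZ.leaf K2_ok TF_l15963 _))))
          (CovZ.n1 (11680, 23520) (by decide +kernel)
           (CovZ.n2 (11680, 23680) (by decide +kernel)
            (CovZ.n2 (11760, 23600) (by decide +kernel)
             (CovZ.leaf K2_ok TF_l15964 _)
             (CovZ.n1 (11760, 23680) (by decide +kernel)
              (CovZ.leaf K2_ok TF_l15965 _)
              (CovZ.leaf K2_ok TF_l15966 _)))
            (CovZ.n1 (11600, 23600) (by decide +kernel)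
             (CovZ.n2 (11600, 23680) (by decide +kernel)
              (CovZ.leaf K2_ok TF_l13512 _)
              (CovZ.leaf K2_ok TF_l13513 _))
             (CovZ.leaf K2_ok TF_l13514 _)))
           (CovZ.n1 (11840, 23520) (by decide +kernel)
            (CovZ.leaf K2_ok TF_l5245 _)
            (CovZ.n1 (11760, 23600) (by decide +kernel)
             (CovZ.leaf K2_ok TF_l15967 _)
             (CovZ.leaf K2_ok TF_l15968 _)))))))

theorem TF_u146 : CovZ TF_M (toL (selN TF_LN 2854495385411919769853697230549477175159947328)) [0, 7, 4, 3] (10240, 23040) (11520, 23040) (11520, 24320) :=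
    (CovZ.n2 (10880, 23680) (by decide +kernel)
      (CovZ.n2 (11520, 23680) (by decide +kernel)
       (CovZ.n2 (11200, 23360) (by decide +kernel)
        (CovZ.n2 (11200, 23680) (by decide +kernel)
         (CovZ.n2 (11360, 23520) (by decide +kernel)
          (CovZ.n2 (11200, 23520) (by decide +kernel)
           (CovZ.leaf K2_ok TF_l13410 _)
           (CovZ.n1 (11280, 23440) (by decide +kernel)
            (CovZ.leaf K2_ok TF_l5193 _)
            (CovZ.leaf K2_ok TF_l13411 _)))
          (CovZ.subM 2854495385411919767068332132933999519781093440 (by decide +kernel)
           (CovZ.n1 (11360, 23680) (by decide +kernel)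
            (CovZ.n2 (11440, 23600) (by decide +kernel)
             (CovZ.leaf K2_ok TF_l13412 _)
             (CovZ.n1 (11440, 23680) (by decide +kernel)
              (CovZ.leaf K2_ok TF_l13413 _)
              (CovZ.leaf K2_ok TF_l13414 _)))
            (CovZ.n1 (11280, 23600) (by decide +kernel)
             (CovZ.n2 (11280, 23680) (by decide +kernel)
              (CovZ.leaf K2_ok TF_l13415 _)
              (CovZ.leaf K2_ok TF_l13416 _))
             (CovZ.n1 (11360, 23600) (by decide +kernel)
              (CovZ.leaf K2_ok TF_l13417 _)
              (CovZ.leaf K2_ok TF_l13418 _))))))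
         (CovZ.n1 (11040, 23520) (by decide +kernel)
          (CovZ.subM 2854495385411919762426056948720335341490274368 (by decide +kernel)
           (CovZ.n2 (11040, 23680) (by decide +kernel)
            (CovZ.n2 (11120, 23600) (by decide +kernel)
             (CovZ.leaf K2_ok TF_l13419 _)
             (CovZ.n1 (11120, 23680) (by decide +kernel)
              (CovZ.leaf K2_ok TF_l13420 _)
              (CovZ.leaf K2_ok TF_l13421 _)))
            (CovZ.n1 (10960, 23600) (by decide +kernel)
             (CovZ.n2 (10960, 23680) (by decide +kernel)
              (CovZ.leaf K2_ok TF_l13422 _)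
              (CovZ.leaf K2_ok TF_l13423 _))
             (CovZ.n1 (11040, 23600) (by decide +kernel)
              (CovZ.leaf K2_ok TF_l13424 _)
              (CovZ.leaf K2_ok TF_l13425 _)))))
          (CovZ.n1 (11200, 23520) (by decide +kernel)
           (CovZ.n2 (11120, 23440) (by decide +kernel)
            (CovZ.leaf K2_ok TF_l13426 _)
            (CovZ.leaf K2_ok TF_l5194 _))
           (CovZ.n1 (11120, 23600) (by decide +kernel)
            (CovZ.n2 (11200, 23600) (by decide +kernel)
             (CovZ.leaf K2_ok TF_l13427 _)
             (CovZ.leaf K2_ok TF_l13428 _))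
            (CovZ.leaf K2_ok TF_l13429 _)))))
        (CovZ.n1 (11520, 23360) (by decide +kernel)
         (CovZ.n2 (11360, 23200) (by decide +kernel)
          (CovZ.n2 (11360, 23360) (by decide +kernel)
           (CovZ.leaf K2_ok TF_l5195 _)
           (CovZ.leaf K2_ok TF_l5196 _))
          (CovZ.leaf K2_ok TF_l5197 _))
         (CovZ.n1 (11360, 23520) (by decide +kernel)
          (CovZ.n2 (11520, 23520) (by decide +kernel)
           (CovZ.leaf K2_ok TF_l5198 _)
           (CovZ.n1 (11440, 23600) (by decide +kernel)
            (CovZ.leaf K2_ok TF_l13430 _)
            (CovZ.leaf K2_ok TF_l13431 _)))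
          (CovZ.n1 (11360, 23360) (by decide +kernel)
           (CovZ.n2 (11280, 23440) (by decide +kernel)
            (CovZ.leaf K2_ok TF_l5199 _)
            (CovZ.leaf K2_ok TF_l5200 _))
           (CovZ.leaf K2_ok TF_l5201 _)))))
       (CovZ.subM 2854495385411919767068332132933999519781093440 (by decide +kernel)
        (CovZ.n1 (11200, 24000) (by decide +kernel)
         (CovZ.n2 (11520, 24000) (by decide +kernel)
          (CovZ.n2 (11360, 23840) (by decide +kernel)
           (CovZ.badM (by decide +kernel))
           (CovZ.n1 (11520, 23840) (by decide +kernel)
            (CovZ.n2 (11440, 23760) (by decide +kernel)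
             (CovZ.n2 (11440, 23840) (by decide +kernel)
              (CovZ.n2 (11480, 23800) (by decide +kernel)
               (CovZ.leaf K2_ok TF_l13432 _)
               (CovZ.n1 (11480, 23840) (by decide +kernel)
                (CovZ.n2 (11500, 23820) (by decide +kernel)
                 (CovZ.leaf K2_ok TF_l13433 _)
                 (CovZ.leaf K2_ok TF_l13434 _))
                (CovZ.leaf K2_ok TF_l13435 _)))
              (CovZ.n1 (11400, 23800) (by decide +kernel)
               (CovZ.badM (by decide +kernel))
               (CovZ.n1 (11440, 23800) (by decide +kernel)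
                (CovZ.leaf K2_ok TF_l13436 _)
                (CovZ.badM (by decide +kernel)))))
             (CovZ.n1 (11520, 23760) (by decide +kernel)
              (CovZ.leaf K2_ok TF_l13437 _)
              (CovZ.n1 (11480, 23800) (by decide +kernel)
               (CovZ.n2 (11520, 23800) (by decide +kernel)
                (CovZ.leaf K2_ok TF_l13438 _)
                (CovZ.leaf K2_ok TF_l13439 _))
               (CovZ.leaf K2_ok TF_l13440 _))))
            (CovZ.n1 (11440, 23920) (by decide +kernel)
             (CovZ.n2 (11520, 23920) (by decide +kernel)
              (CovZ.n2 (11480, 23880) (by decide +kernel)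
               (CovZ.badM (by decide +kernel))
               (CovZ.n1 (11520, 23880) (by decide +kernel)
                (CovZ.n2 (11500, 23860) (by decide +kernel)
                 (CovZ.n2 (11500, 23880) (by decide +kernel)
                  (CovZ.leaf K2_ok TF_l13441 _)
                  (CovZ.badM (by decide +kernel)))
                 (CovZ.leaf K2_ok TF_l13442 _))
                (CovZ.n1 (11500, 23900) (by decide +kernel)
                 (CovZ.n2 (11520, 23900) (by decide +kernel)
                  (CovZ.leaf K2_ok TF_l13443 _)
                  (CovZ.badM (by decide +kernel)))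
                 (CovZ.n1 (11500, 23880) (by decide +kernel)
                  (CovZ.badM (by decide +kernel))
                  (CovZ.leaf K2_ok TF_l13444 _)))))
              (CovZ.badM (by decide +kernel)))
             (CovZ.n1 (11440, 23840) (by decide +kernel)
              (CovZ.badM (by decide +kernel))
              (CovZ.n1 (11480, 23880) (by decide +kernel)
               (CovZ.n2 (11480, 23840) (by decide +kernel)
                (CovZ.badM (by decide +kernel))
                (CovZ.leaf K2_ok TF_l13445 _))
               (CovZ.badM (by decide +kernel)))))))
          (CovZ.badM (by decide +kernel)))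
         (CovZ.n1 (11200, 23680) (by decide +kernel)
          (CovZ.n2 (11040, 23840) (by decide +kernel)
           (CovZ.n2 (11200, 23840) (by decide +kernel)
            (CovZ.n2 (11120, 23760) (by decide +kernel)
             (CovZ.badM (by decide +kernel))
             (CovZ.n1 (11200, 23760) (by decide +kernel)
              (CovZ.n2 (11160, 23720) (by decide +kernel)
               (CovZ.badM (by decide +kernel))
               (CovZ.leaf K2_ok TF_l15919 _))
              (CovZ.badM (by decide +kernel))))
            (CovZ.badM (by decide +kernel)))
           (CovZ.n1 (11040, 23680) (by decide +kernel)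
            (CovZ.n2 (10960, 23760) (by decide +kernel)
             (CovZ.badM (by decide +kernel))
             (CovZ.n1 (10960, 23680) (by decide +kernel)
              (CovZ.n2 (10920, 23720) (by decide +kernel)
               (CovZ.leaf K2_ok TF_l13446 _)
               (CovZ.leaf K2_ok TF_l13447 _))
              (CovZ.leaf K2_ok TF_l13448 _)))
            (CovZ.n1 (11120, 23760) (by decide +kernel)
             (CovZ.n2 (11120, 23680) (by decide +kernel)
              (CovZ.badM (by decide +kernel))
              (CovZ.leaf K2_ok TF_l15920 _))
             (CovZ.badM (by decide +kernel)))))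
          (CovZ.n1 (11360, 23840) (by decide +kernel)
           (CovZ.n2 (11360, 23680) (by decide +kernel)
            (CovZ.n2 (11280, 23760) (by decide +kernel)
             (CovZ.n2 (11360, 23760) (by decide +kernel)
              (CovZ.n2 (11320, 23720) (by decide +kernel)
               (CovZ.n2 (11320, 23760) (by decide +kernel)
                (CovZ.leaf K2_ok TF_l15921 _)
                (CovZ.leaf K2_ok TF_l15922 _))
               (CovZ.leaf K2_ok TF_l15923 _))
              (CovZ.badM (by decide +kernel)))
             (CovZ.n1 (11280, 23680) (by decide +kernel)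
              (CovZ.n2 (11240, 23720) (by decide +kernel)
               (CovZ.leaf K2_ok TF_l15924 _)
               (CovZ.leaf K2_ok TF_l15925 _))
              (CovZ.leaf K2_ok TF_l15926 _)))
            (CovZ.n1 (11440, 23760) (by decide +kernel)
             (CovZ.n2 (11440, 23680) (by decide +kernel)
              (CovZ.n2 (11400, 23720) (by decide +kernel)
               (CovZ.leaf K2_ok TF_l13449 _)
               (CovZ.leaf K2_ok TF_l13450 _))
              (CovZ.leaf K2_ok TF_l13451 _))
             (CovZ.n1 (11360, 23760) (by decide +kernel)
              (CovZ.leaf K2_ok TF_l13452 _)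
              (CovZ.n1 (11400, 23720) (by decide +kernel)
               (CovZ.leaf K2_ok TF_l15927 _)
               (CovZ.leaf K2_ok TF_l13453 _)))))
           (CovZ.n1 (11200, 23840) (by decide +kernel)
            (CovZ.badM (by decide +kernel))
            (CovZ.n1 (11280, 23760) (by decide +kernel)
             (CovZ.n2 (11200, 23760) (by decide +kernel)
              (CovZ.badM (by decide +kernel))
              (CovZ.n1 (11240, 23720) (by decide +kernel)
               (CovZ.leaf K2_ok TF_l15928 _)
               (CovZ.badM (by decide +kernel))))
             (CovZ.badM (by decide +kernel)))))))))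
      (CovZ.n1 (10880, 23040) (by decide +kernel)
       (CovZ.n2 (10560, 23360) (by decide +kernel)
        (CovZ.n2 (10880, 23360) (by decide +kernel)
         (CovZ.n2 (10720, 23200) (by decide +kernel)
          (CovZ.n2 (10720, 23360) (by decide +kernel)
           (CovZ.leaf K2_ok TF_l5202 _)
           (CovZ.leaf K2_ok TF_l5203 _))
          (CovZ.n1 (10880, 23200) (by decide +kernel)
           (CovZ.leaf K2_ok TF_l5204 _)
           (CovZ.leaf K2_ok TF_l5205 _)))
         (CovZ.subM 2854495385411919762426056948720335341491322944 (by decide +kernel)
          (CovZ.n1 (10720, 23520) (by decide +kernel)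
           (CovZ.n2 (10880, 23520) (by decide +kernel)
            (CovZ.n2 (10800, 23440) (by decide +kernel)
             (CovZ.leaf K2_ok TF_l13454 _)
             (CovZ.leaf K2_ok TF_l13455 _))
            (CovZ.n1 (10800, 23600) (by decide +kernel)
             (CovZ.n2 (10880, 23600) (by decide +kernel)
              (CovZ.leaf K2_ok TF_l13456 _)
              (CovZ.leaf K2_ok TF_l13457 _))
             (CovZ.leaf K2_ok TF_l13458 _)))
           (CovZ.n1 (10720, 23360) (by decide +kernel)
            (CovZ.n2 (10640, 23440) (by decide +kernel)
             (CovZ.leaf K2_ok TF_l13459 _)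
             (CovZ.leaf K2_ok TF_l13460 _))
            (CovZ.leaf K2_ok TF_l13461 _)))))
        (CovZ.n1 (10560, 23040) (by decide +kernel)
         (CovZ.n2 (10400, 23200) (by decide +kernel)
          (CovZ.n2 (10560, 23200) (by decide +kernel)
           (CovZ.leaf K2_ok TF_l5206 _)
           (CovZ.leaf K2_ok TF_l5207 _))
          (CovZ.leaf K2_ok TF_l5208 _))
         (CovZ.leaf K2_ok TF_l5209 _)))
       (CovZ.n1 (11200, 23360) (by decide +kernel)
        (CovZ.n2 (11200, 23040) (by decide +kernel)
         (CovZ.n2 (11040, 23200) (by decide +kernel)
          (CovZ.n2 (11200, 23200) (by decide +kernel)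
           (CovZ.leaf K2_ok TF_l5210 _)
           (CovZ.leaf K2_ok TF_l5211 _))
          (CovZ.leaf K2_ok TF_l5212 _))
         (CovZ.leaf K2_ok TF_l5213 _))
        (CovZ.n1 (10880, 23360) (by decide +kernel)
         (CovZ.n2 (11040, 23520) (by decide +kernel)
          (CovZ.n2 (11040, 23360) (by decide +kernel)
           (CovZ.n2 (10960, 23440) (by decide +kernel)
            (CovZ.leaf K2_ok TF_l13462 _)
            (CovZ.leaf K2_ok TF_l13463 _))
           (CovZ.leaf K2_ok TF_l5214 _))
          (CovZ.n1 (10880, 23520) (by decide +kernel)
           (CovZ.leaf K2_ok TF_l13464 _)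
           (CovZ.n1 (10960, 23440) (by decide +kernel)
            (CovZ.leaf K2_ok TF_l13465 _)
            (CovZ.leaf K2_ok TF_l13466 _))))
         (CovZ.n1 (11040, 23200) (by decide +kernel)
          (CovZ.leaf K2_ok TF_l5215 _)
          (CovZ.n1 (11040, 23360) (by decide +kernel)
           (CovZ.leaf K2_ok TF_l5216 _)
           (CovZ.leaf K2_ok TF_l5217 _)))))))

theorem TF_u147 : CovZ TF_M (toL (selN TF_LN 2854495385411919764901937073407956075563450432)) [0, 7, 4, 3] (10240, 23040) (10880, 23680) (10240, 24320) :=
    (CovZ.n2 (10240, 23680) (by decide +kernel)
       (CovZ.subM 309485009821345068725829696 (by decide +kernel)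
        (CovZ.n2 (10560, 24000) (by decide +kernel)
         (CovZ.n2 (10560, 23680) (by decide +kernel)
          (CovZ.n2 (10400, 23840) (by decide +kernel)
           (CovZ.n2 (10560, 23840) (by decide +kernel)
            (CovZ.n2 (10480, 23760) (by decide +kernel)
             (CovZ.n2 (10480, 23840) (by decide +kernel)
              (CovZ.n2 (10520, 23800) (by decide +kernel)
               (CovZ.leaf K2_ok TF_l13515 _)
               (CovZ.n1 (10520, 23840) (by decide +kernel)
                (CovZ.n2 (10540, 23820) (by decide +kernel)
                 (CovZ.leaf K2_ok TF_l13516 _)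
                 (CovZ.badM (by decide +kernel)))
                (CovZ.n1 (10500, 23820) (by decide +kernel)
                 (CovZ.badM (by decide +kernel))
                 (CovZ.leaf K2_ok TF_l13517 _))))
              (CovZ.n1 (10440, 23800) (by decide +kernel)
               (CovZ.n2 (10440, 23840) (by decide +kernel)
                (CovZ.n2 (10460, 23820) (by decide +kernel)
                 (CovZ.leaf K2_ok TF_l13518 _)
                 (CovZ.badM (by decide +kernel)))
                (CovZ.leaf K2_ok TF_l13519 _))
               (CovZ.n1 (10480, 23800) (by decide +kernel)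
                (CovZ.leaf K2_ok TF_l13520 _)
                (CovZ.n1 (10460, 23820) (by decide +kernel)
                 (CovZ.leaf K2_ok TF_l13521 _)
                 (CovZ.leaf K2_ok TF_l13522 _)))))
             (CovZ.n1 (10560, 23760) (by decide +kernel)
              (CovZ.n2 (10520, 23720) (by decide +kernel)
               (CovZ.n2 (10520, 23760) (by decide +kernel)
                (CovZ.leaf K2_ok TF_l13523 _)
                (CovZ.leaf K2_ok TF_l13524 _))
               (CovZ.leaf K2_ok TF_l13525 _))
              (CovZ.n1 (10520, 23800) (by decide +kernel)
               (CovZ.n2 (10560, 23800) (by decide +kernel)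
                (CovZ.leaf K2_ok TF_l13526 _)
                (CovZ.n1 (10540, 23820) (by decide +kernel)
                 (CovZ.badM (by decide +kernel))
                 (CovZ.leaf K2_ok TF_l13527 _)))
               (CovZ.leaf K2_ok TF_l13528 _))))
            (CovZ.badM (by decide +kernel)))
           (CovZ.n1 (10400, 23680) (by decide +kernel)
            (CovZ.n2 (10320, 23760) (by decide +kernel)
             (CovZ.n2 (10400, 23760) (by decide +kernel)
              (CovZ.n2 (10360, 23720) (by decide +kernel)
               (CovZ.leaf K2_ok TF_l13529 _)
               (CovZ.leaf K2_ok TF_l13530 _))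
              (CovZ.n1 (10360, 23800) (by decide +kernel)
               (CovZ.n2 (10400, 23800) (by decide +kernel)
                (CovZ.leaf K2_ok TF_l13531 _)
                (CovZ.n1 (10380, 23820) (by decide +kernel)
                 (CovZ.leaf K2_ok TF_l13532 _)
                 (CovZ.leaf K2_ok TF_l13533 _)))
               (CovZ.leaf K2_ok TF_l13534 _)))
             (CovZ.n1 (10320, 23680) (by decide +kernel)
              (CovZ.n2 (10280, 23720) (by decide +kernel)
               (CovZ.leaf K2_ok TF_l13535 _)
               (CovZ.leaf K2_ok TF_l13536 _))
              (CovZ.leaf K2_ok TF_l13537 _)))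
            (CovZ.n1 (10480, 23760) (by decide +kernel)
             (CovZ.n2 (10480, 23680) (by decide +kernel)
              (CovZ.n2 (10440, 23720) (by decide +kernel)
               (CovZ.leaf K2_ok TF_l13538 _)
               (CovZ.leaf K2_ok TF_l13539 _))
              (CovZ.leaf K2_ok TF_l13540 _))
             (CovZ.n1 (10400, 23760) (by decide +kernel)
              (CovZ.leaf K2_ok TF_l13541 _)
              (CovZ.n1 (10440, 23720) (by decide +kernel)
               (CovZ.leaf K2_ok TF_l13542 _)
               (CovZ.n1 (10440, 23760) (by decide +kernel)
                (CovZ.leaf K2_ok TF_l13543 _)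
                (CovZ.leaf K2_ok TF_l13544 _)))))))
          (CovZ.n1 (10720, 23840) (by decide +kernel)
           (CovZ.n2 (10720, 23680) (by decide +kernel)
            (CovZ.n2 (10640, 23760) (by decide +kernel)
             (CovZ.n2 (10720, 23760) (by decide +kernel)
              (CovZ.n2 (10680, 23720) (by decide +kernel)
               (CovZ.n2 (10680, 23760) (by decide +kernel)
                (CovZ.leaf K2_ok TF_l13545 _)
                (CovZ.leaf K2_ok TF_l13546 _))
               (CovZ.leaf K2_ok TF_l13547 _))
              (CovZ.n1 (10680, 23800) (by decide +kernel)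
               (CovZ.badM (by decide +kernel))
               (CovZ.leaf K2_ok TF_l13548 _)))
             (CovZ.n1 (10640, 23680) (by decide +kernel)
              (CovZ.n2 (10600, 23720) (by decide +kernel)
               (CovZ.leaf K2_ok TF_l13549 _)
               (CovZ.leaf K2_ok TF_l13550 _))
              (CovZ.leaf K2_ok TF_l13551 _)))
            (CovZ.n1 (10800, 23760) (by decide +kernel)
             (CovZ.n2 (10800, 23680) (by decide +kernel)
              (CovZ.n2 (10760, 23720) (by decide +kernel)
               (CovZ.leaf K2_ok TF_l13552 _)
               (CovZ.leaf K2_ok TF_l13553 _))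
              (CovZ.leaf K2_ok TF_l13554 _))
             (CovZ.n1 (10720, 23760) (by decide +kernel)
              (CovZ.badM (by decide +kernel))
              (CovZ.n1 (10760, 23720) (by decide +kernel)
               (CovZ.leaf K2_ok TF_l13555 _)
               (CovZ.n1 (10760, 23760) (by decide +kernel)
                (CovZ.leaf K2_ok TF_l13556 _)
                (CovZ.leaf K2_ok TF_l13557 _))))))
           (CovZ.n1 (10560, 23840) (by decide +kernel)
            (CovZ.badM (by decide +kernel))
            (CovZ.n1 (10640, 23760) (by decide +kernel)
             (CovZ.n2 (10560, 23760) (by decide +kernel)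
              (CovZ.leaf K2_ok TF_l13558 _)
              (CovZ.n1 (10600, 23720) (by decide +kernel)
               (CovZ.leaf K2_ok TF_l13559 _)
               (CovZ.n1 (10600, 23760) (by decide +kernel)
                (CovZ.leaf K2_ok TF_l13560 _)
                (CovZ.leaf K2_ok TF_l13561 _))))
             (CovZ.n1 (10640, 23840) (by decide +kernel)
              (CovZ.n2 (10680, 23800) (by decide +kernel)
               (CovZ.leaf K2_ok TF_l13562 _)
               (CovZ.badM (by decide +kernel)))
              (CovZ.n1 (10600, 23800) (by decide +kernel)
               (CovZ.badM (by decide +kernel))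
               (CovZ.n1 (10640, 23800) (by decide +kernel)
                (CovZ.leaf K2_ok TF_l13563 _)
                (CovZ.badM (by decide +kernel)))))))))
         (CovZ.n1 (10240, 24000) (by decide +kernel)
          (CovZ.badM (by decide +kernel))
          (CovZ.n1 (10400, 23840) (by decide +kernel)
           (CovZ.n2 (10240, 23840) (by decide +kernel)
            (CovZ.n2 (10320, 23920) (by decide +kernel)
             (CovZ.n2 (10320, 23840) (by decide +kernel)
              (CovZ.n2 (10280, 23880) (by decide +kernel)
               (CovZ.n2 (10320, 23880) (by decide +kernel)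
                (CovZ.n2 (10300, 23860) (by decide +kernel)
                 (CovZ.badM (by decide +kernel))
                 (CovZ.leaf K2_ok TF_l13564 _))
                (CovZ.badM (by decide +kernel)))
               (CovZ.n1 (10280, 23840) (by decide +kernel)
                (CovZ.n2 (10260, 23860) (by decide +kernel)
                 (CovZ.leaf K2_ok TF_l13565 _)
                 (CovZ.leaf K2_ok TF_l13566 _))
                (CovZ.leaf K2_ok TF_l13567 _)))
              (CovZ.n1 (10360, 23880) (by decide +kernel)
               (CovZ.n2 (10360, 23840) (by decide +kernel)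
                (CovZ.n2 (10340, 23860) (by decide +kernel)
                 (CovZ.leaf K2_ok TF_l13568 _)
                 (CovZ.leaf K2_ok TF_l13569 _))
                (CovZ.leaf K2_ok TF_l13570 _))
               (CovZ.n1 (10320, 23880) (by decide +kernel)
                (CovZ.badM (by decide +kernel))
                (CovZ.n1 (10340, 23860) (by decide +kernel)
                 (CovZ.leaf K2_ok TF_l13571 _)
                 (CovZ.badM (by decide +kernel))))))
             (CovZ.n1 (10240, 23920) (by decide +kernel)
              (CovZ.badM (by decide +kernel))
              (CovZ.n1 (10280, 23880) (by decide +kernel)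
               (CovZ.n2 (10240, 23880) (by decide +kernel)
                (CovZ.badM (by decide +kernel))
                (CovZ.n1 (10260, 23860) (by decide +kernel)
                 (CovZ.leaf K2_ok TF_l13572 _)
                 (CovZ.leaf K2_ok TF_l13573 _)))
               (CovZ.badM (by decide +kernel)))))
            (CovZ.n1 (10320, 23760) (by decide +kernel)
             (CovZ.n2 (10240, 23760) (by decide +kernel)
              (CovZ.leaf K2_ok TF_l13574 _)
              (CovZ.n1 (10280, 23720) (by decide +kernel)
               (CovZ.leaf K2_ok TF_l13575 _)
               (CovZ.leaf K2_ok TF_l13576 _)))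
             (CovZ.n1 (10320, 23840) (by decide +kernel)
              (CovZ.n2 (10360, 23800) (by decide +kernel)
               (CovZ.leaf K2_ok TF_l13577 _)
               (CovZ.n1 (10360, 23840) (by decide +kernel)
                (CovZ.n2 (10380, 23820) (by decide +kernel)
                 (CovZ.leaf K2_ok TF_l13578 _)
                 (CovZ.leaf K2_ok TF_l13579 _))
                (CovZ.leaf K2_ok TF_l13580 _)))
              (CovZ.n1 (10280, 23800) (by decide +kernel)
               (CovZ.n2 (10280, 23840) (by decide +kernel)
                (CovZ.leaf K2_ok TF_l13581 _)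
                (CovZ.leaf K2_ok TF_l13582 _))
               (CovZ.n1 (10320, 23800) (by decide +kernel)
                (CovZ.leaf K2_ok TF_l13583 _)
                (CovZ.leaf K2_ok TF_l13584 _))))))
           (CovZ.badM (by decide +kernel))))))
       (CovZ.n1 (10560, 23360) (by decide +kernel)
        (CovZ.n2 (10240, 23360) (by decide +kernel)
         (CovZ.n2 (10400, 23520) (by decide +kernel)
          (CovZ.n2 (10400, 23360) (by decide +kernel)
           (CovZ.n2 (10320, 23440) (by decide +kernel)
            (CovZ.leaf K2_ok TF_l13585 _)
            (CovZ.leaf K2_ok TF_l13586 _))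
           (CovZ.leaf K2_ok TF_l13587 _))
          (CovZ.n1 (10240, 23520) (by decide +kernel)
           (CovZ.leaf K2_ok TF_l13588 _)
           (CovZ.n1 (10320, 23440) (by decide +kernel)
            (CovZ.leaf K2_ok TF_l13589 _)
            (CovZ.leaf K2_ok TF_l13590 _))))
         (CovZ.n1 (10400, 23200) (by decide +kernel)
          (CovZ.leaf K2_ok TF_l5246 _)
          (CovZ.n1 (10400, 23360) (by decide +kernel)
           (CovZ.leaf K2_ok TF_l5247 _)
           (CovZ.leaf K2_ok TF_l5248 _))))
        (CovZ.subM 2854495385411919762426056948720335341491322944 (by decide +kernel)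
         (CovZ.n1 (10560, 23680) (by decide +kernel)
          (CovZ.n2 (10720, 23520) (by decide +kernel)
           (CovZ.n2 (10560, 23520) (by decide +kernel)
            (CovZ.leaf K2_ok TF_l13591 _)
            (CovZ.n1 (10640, 23440) (by decide +kernel)
             (CovZ.leaf K2_ok TF_l13592 _)
             (CovZ.leaf K2_ok TF_l13593 _)))
           (CovZ.n1 (10720, 23680) (by decide +kernel)
            (CovZ.n2 (10800, 23600) (by decide +kernel)
             (CovZ.leaf K2_ok TF_l13594 _)
             (CovZ.n1 (10800, 23680) (by decide +kernel)
              (CovZ.leaf K2_ok TF_l13595 _)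
              (CovZ.leaf K2_ok TF_l13596 _)))
            (CovZ.n1 (10640, 23600) (by decide +kernel)
             (CovZ.n2 (10640, 23680) (by decide +kernel)
              (CovZ.leaf K2_ok TF_l13597 _)
              (CovZ.leaf K2_ok TF_l13598 _))
             (CovZ.n1 (10720, 23600) (by decide +kernel)
              (CovZ.leaf K2_ok TF_l13599 _)
              (CovZ.leaf K2_ok TF_l13600 _)))))
          (CovZ.n1 (10400, 23520) (by decide +kernel)
           (CovZ.n2 (10400, 23680) (by decide +kernel)
            (CovZ.n2 (10480, 23600) (by decide +kernel)
             (CovZ.leaf K2_ok TF_l13601 _)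
             (CovZ.n1 (10480, 23680) (by decide +kernel)
              (CovZ.leaf K2_ok TF_l13602 _)
              (CovZ.leaf K2_ok TF_l13603 _)))
            (CovZ.n1 (10320, 23600) (by decide +kernel)
             (CovZ.n2 (10320, 23680) (by decide +kernel)
              (CovZ.leaf K2_ok TF_l13604 _)
              (CovZ.leaf K2_ok TF_l13605 _))
             (CovZ.n1 (10400, 23600) (by decide +kernel)
              (CovZ.leaf K2_ok TF_l13606 _)
              (CovZ.leaf K2_ok TF_l13607 _))))
           (CovZ.n1 (10560, 23520) (by decide +kernel)
            (CovZ.n2 (10480, 23440) (by decide +kernel)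
             (CovZ.leaf K2_ok TF_l13608 _)
             (CovZ.leaf K2_ok TF_l13609 _))
            (CovZ.n1 (10480, 23600) (by decide +kernel)
             (CovZ.n2 (10560, 23600) (by decide +kernel)
              (CovZ.leaf K2_ok TF_l13610 _)
              (CovZ.leaf K2_ok TF_l13611 _))
             (CovZ.leaf K2_ok TF_l13612 _))))))))

end Pool.Agent.TET
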