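import Pool.Agent.Helper38_TET.TF_M
import Pool.Agent.Helper38_TET.TF_L
import Pool.Agent.Helper38_TET.TF_11
import Pool.Agent.Helper38_TET.TF_12
import Pool.Agent.Helper38_TET.TF_13
import Pool.Agent.Helper38_TET.TF_23
import Pool.Agent.Helper38_TET.TF_24
import Pool.Agent.Helper38_TET.TF_29
import Pool.Agent.Helper38_TET.TF_31
import Pool.Agent.Helper38_TET.TF_32
import Pool.Agent.Helper38_TET.TF_33
import Pool.Agent.Helper38_TET.TF_34
import Pool.Agent.Helper38_TET.TF_36
import Pool.Agent.Helper38_TET.TF_39
import Pool.Agent.Helper38_TET.TF_63
import Pool.Agent.Helper38_TET.TF_82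
import Pool.Agent.Helper38_TET.TF_87
import Pool.Agent.Helper38_TET.TF_89
import Pool.Agent.Helper38_TET.TF_91
import Pool.Agent.Helper38_TET.TF_92
import Pool.Agent.Helper38_TET.TF_96
import Pool.Agent.Helper38_TET.TF_U10
import Pool.Agent.Helper38_TET.TF_U8
import Pool.Agent.Helper38_TET.TF_U9

/-!
# MP_c7c9bf_co: certificates, family TF
-/

set_option autoImplicit false
set_option maxRecDepth 100000

namespace Pool.Agent.TET

theorem TF_s9_11 : SqZ TF_M TF_L [0, 7, 4, 3] (-7680) (-7680) 2560 9 11 :=
  SqZ.mk (a := 15360) (b := 17920) (c := 20480) (d := 23040) (by norm_num) (by norm_num) (by norm_num) (by norm_num)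
    (CovZ.topM TF_LL 276886749283243672284989516473004434384631103552 (by decide +kernel) (CovZ.n2 (16640, 21760) (by decide +kernel)
    (CovZ.subM 696898287455359682036038619136491555651584 (by decide +kernel)
     (CovZ.n2 (17920, 21760) (by decide +kernel)
      (CovZ.n2 (17280, 21120) (by decide +kernel)
       (CovZ.n2 (17280, 21760) (by decide +kernel)
        (CovZ.badM (by decide +kernel))
        (CovZ.n1 (16960, 21440) (by decide +kernel)
         (CovZ.n2 (16960, 21760) (by decide +kernel)
          (CovZ.badM (by decide +kernel))
          (CovZ.n1 (16800, 21600) (by decide +kernel)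
           (CovZ.n2 (16800, 21760) (by decide +kernel)
            (CovZ.n2 (16880, 21680) (by decide +kernel)
             (CovZ.n2 (16800, 21680) (by decide +kernel)
              (CovZ.n2 (16840, 21720) (by decide +kernel)
               (CovZ.badM (by decide +kernel))
               (CovZ.badM (by decide +kernel)))
              (CovZ.badM (by decide +kernel)))
             (CovZ.n1 (16880, 21760) (by decide +kernel)
              (CovZ.badM (by decide +kernel))
              (CovZ.n1 (16840, 21720) (by decide +kernel)
               (CovZ.badM (by decide +kernel))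
               (CovZ.badM (by decide +kernel)))))
            (CovZ.n1 (16720, 21680) (by decide +kernel)
             (CovZ.badM (by decide +kernel))
             (CovZ.n1 (16800, 21680) (by decide +kernel)
              (CovZ.n2 (16760, 21640) (by decide +kernel)
               (CovZ.badM (by decide +kernel))
               (CovZ.badM (by decide +kernel)))
              (CovZ.badM (by decide +kernel)))))
           (CovZ.badM (by decide +kernel))))
         (CovZ.badM (by decide +kernel))))
       (CovZ.n1 (17920, 21120) (by decide +kernel)
        (CovZ.n2 (17600, 20800) (by decide +kernel)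
         (CovZ.badM (by decide +kernel))
         (CovZ.badM (by decide +kernel)))
        (CovZ.badM (by decide +kernel))))
      (CovZ.n1 (17280, 22400) (by decide +kernel)
       (CovZ.n2 (17920, 22400) (by decide +kernel)
        (CovZ.n2 (17600, 22080) (by decide +kernel)
         (CovZ.n2 (17600, 22400) (by decide +kernel)
          (CovZ.badM (by decide +kernel))
          (CovZ.n1 (17440, 22240) (by decide +kernel)
           (CovZ.n2 (17440, 22400) (by decide +kernel)
            (CovZ.badM (by decide +kernel))
            (CovZ.n1 (17360, 22320) (by decide +kernel)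
             (CovZ.badM (by decide +kernel))
             (CovZ.badM (by decide +kernel))))
           (CovZ.badM (by decide +kernel))))
         (CovZ.badM (by decide +kernel)))
        (CovZ.n1 (17600, 22720) (by decide +kernel)
         (CovZ.n2 (17920, 22720) (by decide +kernel)
          (CovZ.n2 (17760, 22560) (by decide +kernel)
           (CovZ.n2 (17760, 22720) (by decide +kernel)
            (CovZ.badM (by decide +kernel))
            (CovZ.n1 (17680, 22640) (by decide +kernel)
             (CovZ.badM (by decide +kernel))
             (CovZ.badM (by decide +kernel))))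
           (CovZ.badM (by decide +kernel)))
          (CovZ.n1 (17760, 22880) (by decide +kernel)
           (CovZ.n2 (17920, 22880) (by decide +kernel)
            (CovZ.n2 (17840, 22800) (by decide +kernel)
             (CovZ.badM (by decide +kernel))
             (CovZ.badM (by decide +kernel)))
            (CovZ.badM (by decide +kernel)))
           (CovZ.n1 (17760, 22720) (by decide +kernel)
            (CovZ.badM (by decide +kernel))
            (CovZ.n1 (17840, 22800) (by decide +kernel)
             (CovZ.badM (by decide +kernel))
             (CovZ.badM (by decide +kernel))))))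
         (CovZ.n1 (17600, 22400) (by decide +kernel)
          (CovZ.n2 (17440, 22560) (by decide +kernel)
           (CovZ.n2 (17600, 22560) (by decide +kernel)
            (CovZ.n2 (17520, 22480) (by decide +kernel)
             (CovZ.badM (by decide +kernel))
             (CovZ.badM (by decide +kernel)))
            (CovZ.badM (by decide +kernel)))
           (CovZ.n1 (17440, 22400) (by decide +kernel)
            (CovZ.badM (by decide +kernel))
            (CovZ.n1 (17520, 22480) (by decide +kernel)
             (CovZ.badM (by decide +kernel))
             (CovZ.badM (by decide +kernel)))))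
          (CovZ.n1 (17760, 22560) (by decide +kernel)
           (CovZ.badM (by decide +kernel))
           (CovZ.n1 (17600, 22560) (by decide +kernel)
            (CovZ.n2 (17680, 22640) (by decide +kernel)
             (CovZ.badM (by decide +kernel))
             (CovZ.badM (by decide +kernel)))
            (CovZ.badM (by decide +kernel)))))))
       (CovZ.n1 (17280, 21760) (by decide +kernel)
        (CovZ.n2 (16960, 22080) (by decide +kernel)
         (CovZ.n2 (17280, 22080) (by decide +kernel)
          (CovZ.n2 (17120, 21920) (by decide +kernel)
           (CovZ.n2 (17120, 22080) (by decide +kernel)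
            (CovZ.n2 (17200, 22000) (by decide +kernel)
             (CovZ.n2 (17120, 22000) (by decide +kernel)
              (CovZ.n2 (17160, 22040) (by decide +kernel)
               (CovZ.badM (by decide +kernel))
               (CovZ.badM (by decide +kernel)))
              (CovZ.badM (by decide +kernel)))
             (CovZ.n1 (17200, 22080) (by decide +kernel)
              (CovZ.badM (by decide +kernel))
              (CovZ.n1 (17160, 22040) (by decide +kernel)
               (CovZ.badM (by decide +kernel))
               (CovZ.badM (by decide +kernel)))))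
            (CovZ.n1 (17040, 22000) (by decide +kernel)
             (CovZ.badM (by decide +kernel))
             (CovZ.n1 (17120, 22000) (by decide +kernel)
              (CovZ.n2 (17080, 21960) (by decide +kernel)
               (CovZ.badM (by decide +kernel))
               (CovZ.badM (by decide +kernel)))
              (CovZ.badM (by decide +kernel)))))
           (CovZ.badM (by decide +kernel)))
          (CovZ.n1 (17120, 22240) (by decide +kernel)
           (CovZ.n2 (17280, 22240) (by decide +kernel)
            (CovZ.n2 (17200, 22160) (by decide +kernel)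
             (CovZ.badM (by decide +kernel))
             (CovZ.n1 (17280, 22160) (by decide +kernel)
              (CovZ.n2 (17240, 22120) (by decide +kernel)
               (CovZ.badM (by decide +kernel))
               (CovZ.badM (by decide +kernel)))
              (CovZ.badM (by decide +kernel))))
            (CovZ.badM (by decide +kernel)))
           (CovZ.n1 (17120, 22080) (by decide +kernel)
            (CovZ.badM (by decide +kernel))
            (CovZ.n1 (17200, 22160) (by decide +kernel)
             (CovZ.n2 (17200, 22080) (by decide +kernel)
              (CovZ.badM (by decide +kernel))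
              (CovZ.n1 (17240, 22120) (by decide +kernel)
               (CovZ.badM (by decide +kernel))
               (CovZ.badM (by decide +kernel))))
             (CovZ.badM (by decide +kernel))))))
         (CovZ.n1 (16960, 21760) (by decide +kernel)
          (CovZ.n2 (16800, 21920) (by decide +kernel)
           (CovZ.n2 (16960, 21920) (by decide +kernel)
            (CovZ.n2 (16880, 21840) (by decide +kernel)
             (CovZ.badM (by decide +kernel))
             (CovZ.n1 (16960, 21840) (by decide +kernel)
              (CovZ.n2 (16920, 21800) (by decide +kernel)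
               (CovZ.badM (by decide +kernel))
               (CovZ.badM (by decide +kernel)))
              (CovZ.badM (by decide +kernel))))
            (CovZ.badM (by decide +kernel)))
           (CovZ.n1 (16800, 21760) (by decide +kernel)
            (CovZ.badM (by decide +kernel))
            (CovZ.n1 (16880, 21840) (by decide +kernel)
             (CovZ.n2 (16880, 21760) (by decide +kernel)
              (CovZ.badM (by decide +kernel))
              (CovZ.n1 (16920, 21800) (by decide +kernel)
               (CovZ.badM (by decide +kernel))
               (CovZ.badM (by decide +kernel))))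
             (CovZ.badM (by decide +kernel)))))
          (CovZ.n1 (17120, 21920) (by decide +kernel)
           (CovZ.badM (by decide +kernel))
           (CovZ.n1 (16960, 21920) (by decide +kernel)
            (CovZ.n2 (17040, 22000) (by decide +kernel)
             (CovZ.n2 (17040, 21920) (by decide +kernel)
              (CovZ.badM (by decide +kernel))
              (CovZ.n1 (17080, 21960) (by decide +kernel)
               (CovZ.badM (by decide +kernel))
               (CovZ.badM (by decide +kernel))))
             (CovZ.badM (by decide +kernel)))
            (CovZ.n1 (17040, 21840) (by decide +kernel)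
             (CovZ.n2 (16960, 21840) (by decide +kernel)
              (CovZ.n2 (17000, 21880) (by decide +kernel)
               (CovZ.badM (by decide +kernel))
               (CovZ.badM (by decide +kernel)))
              (CovZ.badM (by decide +kernel)))
             (CovZ.n1 (17040, 21920) (by decide +kernel)
              (CovZ.badM (by decide +kernel))
              (CovZ.n1 (17000, 21880) (by decide +kernel)
               (CovZ.badM (by decide +kernel))
               (CovZ.badM (by decide +kernel)))))))))
        (CovZ.n1 (17600, 22080) (by decide +kernel)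
         (CovZ.badM (by decide +kernel))
         (CovZ.n1 (17280, 22080) (by decide +kernel)
          (CovZ.n2 (17440, 22240) (by decide +kernel)
           (CovZ.badM (by decide +kernel))
           (CovZ.n1 (17280, 22240) (by decide +kernel)
            (CovZ.n2 (17360, 22320) (by decide +kernel)
             (CovZ.badM (by decide +kernel))
             (CovZ.badM (by decide +kernel)))
            (CovZ.badM (by decide +kernel))))
          (CovZ.badM (by decide +kernel))))))))
    (CovZ.n1 (16640, 20480) (by decide +kernel)
     (CovZ.subM 94198347718593352150001618849760592970446274624 (by decide +kernel)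
      (CovZ.n2 (16000, 21120) (by decide +kernel)
       TF_u126
       TF_u127))
     (CovZ.subM 1277708863047423116230258589696 (by decide +kernel)
      (CovZ.n1 (17280, 21120) (by decide +kernel)
       (CovZ.n2 (17280, 20480) (by decide +kernel)
        (CovZ.badM (by decide +kernel))
        (CovZ.n1 (17600, 20800) (by decide +kernel)
         (CovZ.badM (by decide +kernel))
         (CovZ.badM (by decide +kernel))))
       (CovZ.n1 (16640, 21120) (by decide +kernel)
        (CovZ.n2 (16960, 21440) (by decide +kernel)
         (CovZ.badM (by decide +kernel))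
         (CovZ.n1 (16640, 21440) (by decide +kernel)
          (CovZ.n2 (16800, 21600) (by decide +kernel)
           (CovZ.badM (by decide +kernel))
           (CovZ.n1 (16640, 21600) (by decide +kernel)
            (CovZ.n2 (16720, 21680) (by decide +kernel)
             (CovZ.n2 (16720, 21600) (by decide +kernel)
              (CovZ.badM (by decide +kernel))
              (CovZ.n1 (16760, 21640) (by decide +kernel)
               (CovZ.badM (by decide +kernel))
               (CovZ.badM (by decide +kernel))))
             (CovZ.badM (by decide +kernel)))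
            (CovZ.n1 (16720, 21520) (by decide +kernel)
             (CovZ.n2 (16640, 21520) (by decide +kernel)
              (CovZ.n2 (16680, 21560) (by decide +kernel)
               (CovZ.badM (by decide +kernel))
               (CovZ.badM (by decide +kernel)))
              (CovZ.badM (by decide +kernel)))
             (CovZ.n1 (16720, 21600) (by decide +kernel)
              (CovZ.badM (by decide +kernel))
              (CovZ.n1 (16680, 21560) (by decide +kernel)
               (CovZ.badM (by decide +kernel))
               (CovZ.badM (by decide +kernel)))))))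
          (CovZ.badM (by decide +kernel))))
        (CovZ.badM (by decide +kernel))))))))
    (CovZ.topM TF_LL 2855192283699373844089744930095010534062555200 (by decide +kernel) (CovZ.n0 (16640, 21760) (by decide +kernel)
    (CovZ.n2 (15360, 21760) (by decide +kernel)
     (CovZ.badM (by decide +kernel))
     (CovZ.n1 (16000, 21120) (by decide +kernel)
      (CovZ.n2 (15360, 21120) (by decide +kernel)
       (CovZ.n2 (15680, 21440) (by decide +kernel)
        (CovZ.badM (by decide +kernel))
        (CovZ.n1 (15360, 21440) (by decide +kernel)
         (CovZ.n2 (15520, 21600) (by decide +kernel)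
          (CovZ.n2 (15520, 21440) (by decide +kernel)
           (CovZ.n2 (15440, 21520) (by decide +kernel)
            (CovZ.n2 (15520, 21520) (by decide +kernel)
             (CovZ.badM (by decide +kernel))
             (CovZ.n1 (15480, 21560) (by decide +kernel)
              (CovZ.leaf K2_ok TF_l5879 _)
              (CovZ.leaf K2_ok TF_l5880 _)))
            (CovZ.badM (by decide +kernel)))
           (CovZ.n1 (15600, 21520) (by decide +kernel)
            (CovZ.badM (by decide +kernel))
            (CovZ.n1 (15520, 21520) (by decide +kernel)
             (CovZ.leaf K2_ok TF_l5887 _)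
             (CovZ.badM (by decide +kernel)))))
          (CovZ.n1 (15360, 21600) (by decide +kernel)
           (CovZ.badM (by decide +kernel))
           (CovZ.n1 (15440, 21520) (by decide +kernel)
            (CovZ.leaf K2_ok TF_l5891 _)
            (CovZ.n1 (15440, 21600) (by decide +kernel)
             (CovZ.n2 (15480, 21560) (by decide +kernel)
              (CovZ.leaf K2_ok TF_l14311 _)
              (CovZ.badM (by decide +kernel)))
             (CovZ.leaf K2_ok TF_l14312 _)))))
         (CovZ.badM (by decide +kernel))))
       (CovZ.n1 (15680, 20800) (by decide +kernel)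
        (CovZ.leaf K2_ok TF_l5898 _)
        (CovZ.badM (by decide +kernel))))
      (CovZ.n1 (16000, 21760) (by decide +kernel)
       (CovZ.n2 (16320, 21440) (by decide +kernel)
        (CovZ.n2 (16000, 21440) (by decide +kernel)
         (CovZ.n2 (16160, 21600) (by decide +kernel)
          (CovZ.badM (by decide +kernel))
          (CovZ.n1 (16000, 21600) (by decide +kernel)
           (CovZ.badM (by decide +kernel))
           (CovZ.badM (by decide +kernel))))
         (CovZ.badM (by decide +kernel)))
        (CovZ.n1 (16320, 21760) (by decide +kernel)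
         (CovZ.badM (by decide +kernel))
         (CovZ.n1 (16160, 21600) (by decide +kernel)
          (CovZ.badM (by decide +kernel))
          (CovZ.badM (by decide +kernel)))))
       (CovZ.n1 (15680, 21440) (by decide +kernel)
        (CovZ.n2 (15680, 21760) (by decide +kernel)
         (CovZ.n2 (15840, 21600) (by decide +kernel)
          (CovZ.n2 (15680, 21600) (by decide +kernel)
           (CovZ.badM (by decide +kernel))
           (CovZ.badM (by decide +kernel)))
          (CovZ.badM (by decide +kernel)))
         (CovZ.n1 (15520, 21600) (by decide +kernel)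
          (CovZ.badM (by decide +kernel))
          (CovZ.n1 (15680, 21600) (by decide +kernel)
           (CovZ.n2 (15600, 21520) (by decide +kernel)
            (CovZ.n2 (15600, 21600) (by decide +kernel)
             (CovZ.n2 (15640, 21560) (by decide +kernel)
              (CovZ.n2 (15600, 21560) (by decide +kernel)
               (CovZ.badM (by decide +kernel))
               (CovZ.badM (by decide +kernel)))
              (CovZ.badM (by decide +kernel)))
             (CovZ.n1 (15560, 21560) (by decide +kernel)
              (CovZ.badM (by decide +kernel))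
              (CovZ.n1 (15600, 21560) (by decide +kernel)
               (CovZ.badM (by decide +kernel))
               (CovZ.badM (by decide +kernel)))))
            (CovZ.badM (by decide +kernel)))
           (CovZ.badM (by decide +kernel)))))
        (CovZ.n1 (16000, 21440) (by decide +kernel)
         (CovZ.badM (by decide +kernel))
         (CovZ.n1 (15840, 21600) (by decide +kernel)
          (CovZ.n2 (16000, 21600) (by decide +kernel)
           (CovZ.badM (by decide +kernel))
           (CovZ.badM (by decide +kernel)))
          (CovZ.badM (by decide +kernel))))))))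
    (CovZ.badM (by decide +kernel))))

theorem TF_s10_11 : SqZ TF_M TF_L [0, 7, 4, 3] (-7680) (-7680) 2560 10 11 :=
  SqZ.mk (a := 17920) (b := 20480) (c := 20480) (d := 23040) (by norm_num) (by norm_num) (by norm_num) (by norm_num)
    (CovZ.topM TF_LL 2048 (by decide +kernel) (CovZ.n2 (19200, 21760) (by decide +kernel)
    (CovZ.badM (by decide +kernel))
    (CovZ.n1 (19200, 20480) (by decide +kernel)
     (CovZ.n2 (18560, 21120) (by decide +kernel)
      (CovZ.n2 (19200, 21120) (by decide +kernel)
       (CovZ.n2 (18880, 20800) (by decide +kernel)
        (CovZ.badM (by decide +kernel))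
        (CovZ.badM (by decide +kernel)))
       (CovZ.badM (by decide +kernel)))
      (CovZ.n1 (18560, 20480) (by decide +kernel)
       (CovZ.badM (by decide +kernel))
       (CovZ.n1 (18880, 20800) (by decide +kernel)
        (CovZ.badM (by decide +kernel))
        (CovZ.badM (by decide +kernel)))))
     (CovZ.badM (by decide +kernel)))))
    (CovZ.topM TF_LL 696898287455349778515724336094292362657792 (by decide +kernel) (CovZ.n0 (19200, 21760) (by decide +kernel)
    (CovZ.n2 (17920, 21760) (by decide +kernel)
     (CovZ.n2 (18560, 22400) (by decide +kernel)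
      (CovZ.n2 (18560, 21760) (by decide +kernel)
       (CovZ.badM (by decide +kernel))
       (CovZ.n1 (18880, 22080) (by decide +kernel)
        (CovZ.badM (by decide +kernel))
        (CovZ.badM (by decide +kernel))))
      (CovZ.n1 (17920, 22400) (by decide +kernel)
       (CovZ.n2 (18240, 22720) (by decide +kernel)
        (CovZ.badM (by decide +kernel))
        (CovZ.n1 (17920, 22720) (by decide +kernel)
         (CovZ.n2 (18080, 22880) (by decide +kernel)
          (CovZ.badM (by decide +kernel))
          (CovZ.n1 (17920, 22880) (by decide +kernel)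
           (CovZ.n2 (18000, 22960) (by decide +kernel)
            (CovZ.badM (by decide +kernel))
            (CovZ.badM (by decide +kernel)))
           (CovZ.badM (by decide +kernel))))
         (CovZ.badM (by decide +kernel))))
       (CovZ.badM (by decide +kernel))))
     (CovZ.n1 (18560, 21120) (by decide +kernel)
      (CovZ.n2 (17920, 21120) (by decide +kernel)
       (CovZ.n2 (18240, 21440) (by decide +kernel)
        (CovZ.badM (by decide +kernel))
        (CovZ.badM (by decide +kernel)))
       (CovZ.badM (by decide +kernel)))
      (CovZ.n1 (18560, 21760) (by decide +kernel)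
       (CovZ.badM (by decide +kernel))
       (CovZ.n1 (18240, 21440) (by decide +kernel)
        (CovZ.badM (by decide +kernel))
        (CovZ.badM (by decide +kernel))))))
    (CovZ.n1 (19200, 23040) (by decide +kernel)
     (CovZ.n2 (19840, 22400) (by decide +kernel)
      (CovZ.n2 (19200, 22400) (by decide +kernel)
       (CovZ.n2 (19520, 22720) (by decide +kernel)
        (CovZ.badM (by decide +kernel))
        (CovZ.badM (by decide +kernel)))
       (CovZ.badM (by decide +kernel)))
      (CovZ.n1 (19840, 23040) (by decide +kernel)
       (CovZ.badM (by decide +kernel))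
       (CovZ.n1 (19520, 22720) (by decide +kernel)
        (CovZ.badM (by decide +kernel))
        (CovZ.badM (by decide +kernel)))))
     (CovZ.n1 (18560, 22400) (by decide +kernel)
      (CovZ.n2 (18560, 23040) (by decide +kernel)
       (CovZ.badM (by decide +kernel))
       (CovZ.n1 (18240, 22720) (by decide +kernel)
        (CovZ.n2 (18240, 23040) (by decide +kernel)
         (CovZ.badM (by decide +kernel))
         (CovZ.n1 (18080, 22880) (by decide +kernel)
          (CovZ.n2 (18080, 23040) (by decide +kernel)
           (CovZ.badM (by decide +kernel))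
           (CovZ.n1 (18000, 22960) (by decide +kernel)
            (CovZ.badM (by decide +kernel))
            (CovZ.badM (by decide +kernel))))
          (CovZ.badM (by decide +kernel))))
        (CovZ.badM (by decide +kernel))))
      (CovZ.n1 (19200, 22400) (by decide +kernel)
       (CovZ.n2 (18880, 22080) (by decide +kernel)
        (CovZ.badM (by decide +kernel))
        (CovZ.badM (by decide +kernel)))
       (CovZ.badM (by decide +kernel)))))))

theorem TF_s11_11 : SqZ TF_M TF_L [0, 7, 4, 3] (-7680) (-7680) 2560 11 11 :=
  SqZ.mk (a := 20480) (b := 23040) (c := 20480) (d := 23040) (by norm_num) (by norm_num) (by norm_num) (by norm_num)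
    (CovZ.topM TF_LL 0 (by decide +kernel) (CovZ.badM (by decide +kernel)))
    (CovZ.topM TF_LL 0 (by decide +kernel) (CovZ.badM (by decide +kernel)))

theorem TF_s12_11 : SqZ TF_M TF_L [0, 7, 4, 3] (-7680) (-7680) 2560 12 11 :=
  SqZ.mk (a := 23040) (b := 25600) (c := 20480) (d := 23040) (by norm_num) (by norm_num) (by norm_num) (by norm_num)
    (CovZ.topM TF_LL 0 (by decide +kernel) (CovZ.badM (by decide +kernel)))
    (CovZ.topM TF_LL 0 (by decide +kernel) (CovZ.badM (by decide +kernel)))

theorem TF_s13_11 : SqZ TF_M TF_L [0, 7, 4, 3] (-7680) (-7680) 2560 13 11 :=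
  SqZ.mk (a := 25600) (b := 28160) (c := 20480) (d := 23040) (by norm_num) (by norm_num) (by norm_num) (by norm_num)
    (CovZ.topM TF_LL 0 (by decide +kernel) (CovZ.badM (by decide +kernel)))
    (CovZ.topM TF_LL 0 (by decide +kernel) (CovZ.badM (by decide +kernel)))

theorem TF_s14_11 : SqZ TF_M TF_L [0, 7, 4, 3] (-7680) (-7680) 2560 14 11 :=
  SqZ.mk (a := 28160) (b := 30720) (c := 20480) (d := 23040) (by norm_num) (by norm_num) (by norm_num) (by norm_num)
    (CovZ.topM TF_LL 0 (by decide +kernel) (CovZ.badM (by decide +kernel)))
    (CovZ.topM TF_LL 0 (by decide +kernel) (CovZ.badM (by decide +kernel)))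

theorem TF_s15_11 : SqZ TF_M TF_L [0, 7, 4, 3] (-7680) (-7680) 2560 15 11 :=
  SqZ.mk (a := 30720) (b := 33280) (c := 20480) (d := 23040) (by norm_num) (by norm_num) (by norm_num) (by norm_num)
    (CovZ.topM TF_LL 0 (by decide +kernel) (CovZ.badM (by decide +kernel)))
    (CovZ.topM TF_LL 0 (by decide +kernel) (CovZ.badM (by decide +kernel)))

theorem TF_s0_12 : SqZ TF_M TF_L [0, 7, 4, 3] (-7680) (-7680) 2560 0 12 :=
  SqZ.mk (a := (-7680)) (b := (-5120)) (c := 23040) (d := 25600) (by norm_num) (by norm_num) (by norm_num) (by norm_num)
    (CovZ.topM TF_LL 649037107316853741796696782798848 (by decide +kernel) (CovZ.n2 (-6400, 24320) (by decide +kernel)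
    (CovZ.n2 (-5120, 24320) (by decide +kernel)
     (CovZ.n2 (-5760, 23680) (by decide +kernel)
      (CovZ.n2 (-5760, 24320) (by decide +kernel)
       (CovZ.n2 (-5440, 24000) (by decide +kernel)
        (CovZ.badM (by decide +kernel))
        (CovZ.n1 (-5440, 24320) (by decide +kernel)
         (CovZ.n2 (-5280, 24160) (by decide +kernel)
          (CovZ.badM (by decide +kernel))
          (CovZ.badM (by decide +kernel)))
         (CovZ.badM (by decide +kernel))))
       (CovZ.badM (by decide +kernel)))
      (CovZ.n1 (-5120, 23680) (by decide +kernel)
       (CovZ.n2 (-5440, 23360) (by decide +kernel)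
        (CovZ.n2 (-5440, 23680) (by decide +kernel)
         (CovZ.n2 (-5280, 23520) (by decide +kernel)
          (CovZ.n2 (-5440, 23520) (by decide +kernel)
           (CovZ.leaf K2_ok TF_l9359 _)
           (CovZ.n1 (-5360, 23440) (by decide +kernel)
            (CovZ.badM (by decide +kernel))
            (CovZ.leaf K2_ok TF_l9360 _)))
          (CovZ.n1 (-5280, 23680) (by decide +kernel)
           (CovZ.n2 (-5200, 23600) (by decide +kernel)
            (CovZ.leaf K2_ok TF_l9361 _)
            (CovZ.leaf K2_ok TF_l9362 _))
           (CovZ.n1 (-5360, 23600) (by decide +kernel)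
            (CovZ.badM (by decide +kernel))
            (CovZ.leaf K2_ok TF_l9363 _))))
         (CovZ.badM (by decide +kernel)))
        (CovZ.n1 (-5120, 23360) (by decide +kernel)
         (CovZ.n2 (-5280, 23200) (by decide +kernel)
          (CovZ.n2 (-5280, 23360) (by decide +kernel)
           (CovZ.leaf K2_ok TF_l9364 _)
           (CovZ.leaf K2_ok TF_l9365 _))
          (CovZ.n1 (-5120, 23200) (by decide +kernel)
           (CovZ.leaf K2_ok TF_l9366 _)
           (CovZ.leaf K2_ok TF_l9367 _)))
         (CovZ.n1 (-5280, 23520) (by decide +kernel)
          (CovZ.n2 (-5120, 23520) (by decide +kernel)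
           (CovZ.leaf K2_ok TF_l9368 _)
           (CovZ.n1 (-5200, 23600) (by decide +kernel)
            (CovZ.leaf K2_ok TF_l9369 _)
            (CovZ.leaf K2_ok TF_l9370 _)))
          (CovZ.n1 (-5280, 23360) (by decide +kernel)
           (CovZ.n2 (-5360, 23440) (by decide +kernel)
            (CovZ.leaf K2_ok TF_l9371 _)
            (CovZ.leaf K2_ok TF_l9372 _))
           (CovZ.leaf K2_ok TF_l9373 _)))))
       (CovZ.n1 (-5440, 24000) (by decide +kernel)
        (CovZ.n2 (-5120, 24000) (by decide +kernel)
         (CovZ.n2 (-5280, 23840) (by decide +kernel)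
          (CovZ.n2 (-5280, 24000) (by decide +kernel)
           (CovZ.n2 (-5200, 23920) (by decide +kernel)
            (CovZ.n2 (-5280, 23920) (by decide +kernel)
             (CovZ.n2 (-5240, 23960) (by decide +kernel)
              (CovZ.n2 (-5240, 23920) (by decide +kernel)
               (CovZ.badM (by decide +kernel))
               (CovZ.leaf K2_ok TF_l9374 _))
              (CovZ.badM (by decide +kernel)))
             (CovZ.n1 (-5240, 23880) (by decide +kernel)
              (CovZ.badM (by decide +kernel))
              (CovZ.n1 (-5240, 23920) (by decide +kernel)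
               (CovZ.n2 (-5220, 23900) (by decide +kernel)
                (CovZ.badM (by decide +kernel))
                (CovZ.leaf K2_ok TF_l9375 _))
               (CovZ.badM (by decide +kernel)))))
            (CovZ.n1 (-5200, 24000) (by decide +kernel)
             (CovZ.n2 (-5160, 23960) (by decide +kernel)
              (CovZ.n2 (-5200, 23960) (by decide +kernel)
               (CovZ.badM (by decide +kernel))
               (CovZ.n1 (-5180, 23940) (by decide +kernel)
                (CovZ.leaf K2_ok TF_l9376 _)
                (CovZ.badM (by decide +kernel))))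
              (CovZ.badM (by decide +kernel)))
             (CovZ.n1 (-5240, 23960) (by decide +kernel)
              (CovZ.n2 (-5240, 24000) (by decide +kernel)
               (CovZ.n2 (-5220, 23980) (by decide +kernel)
                (CovZ.badM (by decide +kernel))
                (CovZ.badM (by decide +kernel)))
               (CovZ.badM (by decide +kernel)))
              (CovZ.n1 (-5200, 23960) (by decide +kernel)
               (CovZ.n2 (-5220, 23940) (by decide +kernel)
                (CovZ.n2 (-5220, 23960) (by decide +kernel)
                 (CovZ.leaf K2_ok TF_l9377 _)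
                 (CovZ.badM (by decide +kernel)))
                (CovZ.leaf K2_ok TF_l9378 _))
               (CovZ.n1 (-5220, 23980) (by decide +kernel)
                (CovZ.badM (by decide +kernel))
                (CovZ.n1 (-5220, 23960) (by decide +kernel)
                 (CovZ.badM (by decide +kernel))
                 (CovZ.leaf K2_ok TF_l9379 _)))))))
           (CovZ.badM (by decide +kernel)))
          (CovZ.n1 (-5120, 23840) (by decide +kernel)
           (CovZ.n2 (-5200, 23760) (by decide +kernel)
            (CovZ.n2 (-5200, 23840) (by decide +kernel)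
             (CovZ.n2 (-5160, 23800) (by decide +kernel)
              (CovZ.leaf K2_ok TF_l9380 _)
              (CovZ.leaf K2_ok TF_l9381 _))
             (CovZ.leaf K2_ok TF_l9382 _))
            (CovZ.n1 (-5120, 23760) (by decide +kernel)
             (CovZ.leaf K2_ok TF_l9383 _)
             (CovZ.n1 (-5160, 23800) (by decide +kernel)
              (CovZ.leaf K2_ok TF_l9384 _)
              (CovZ.leaf K2_ok TF_l9385 _))))
           (CovZ.n1 (-5200, 23920) (by decide +kernel)
            (CovZ.n2 (-5120, 23920) (by decide +kernel)
             (CovZ.n2 (-5160, 23880) (by decide +kernel)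
              (CovZ.n2 (-5160, 23920) (by decide +kernel)
               (CovZ.n2 (-5140, 23900) (by decide +kernel)
                (CovZ.leaf K2_ok TF_l9386 _)
                (CovZ.leaf K2_ok TF_l9387 _))
               (CovZ.leaf K2_ok TF_l9388 _))
              (CovZ.n1 (-5120, 23880) (by decide +kernel)
               (CovZ.leaf K2_ok TF_l9389 _)
               (CovZ.n1 (-5140, 23900) (by decide +kernel)
                (CovZ.leaf K2_ok TF_l9390 _)
                (CovZ.leaf K2_ok TF_l9391 _))))
             (CovZ.n1 (-5160, 23960) (by decide +kernel)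
              (CovZ.badM (by decide +kernel))
              (CovZ.n1 (-5160, 23920) (by decide +kernel)
               (CovZ.n2 (-5180, 23940) (by decide +kernel)
                (CovZ.n2 (-5160, 23940) (by decide +kernel)
                 (CovZ.leaf K2_ok TF_l9392 _)
                 (CovZ.badM (by decide +kernel)))
                (CovZ.leaf K2_ok TF_l9393 _))
               (CovZ.leaf K2_ok TF_l9394 _))))
            (CovZ.n1 (-5200, 23840) (by decide +kernel)
             (CovZ.n2 (-5240, 23880) (by decide +kernel)
              (CovZ.n2 (-5200, 23880) (by decide +kernel)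
               (CovZ.leaf K2_ok TF_l9395 _)
               (CovZ.n1 (-5220, 23900) (by decide +kernel)
                (CovZ.leaf K2_ok TF_l9396 _)
                (CovZ.leaf K2_ok TF_l9397 _)))
              (CovZ.leaf K2_ok TF_l9398 _))
             (CovZ.leaf K2_ok TF_l9399 _)))))
         (CovZ.n1 (-5280, 24160) (by decide +kernel)
          (CovZ.badM (by decide +kernel))
          (CovZ.n1 (-5280, 24000) (by decide +kernel)
           (CovZ.badM (by decide +kernel))
           (CovZ.badM (by decide +kernel)))))
        (CovZ.n1 (-5440, 23680) (by decide +kernel)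
         (CovZ.badM (by decide +kernel))
         (CovZ.n1 (-5280, 23840) (by decide +kernel)
          (CovZ.n2 (-5280, 23680) (by decide +kernel)
           (CovZ.badM (by decide +kernel))
           (CovZ.leaf K2_ok TF_l9400 _))
          (CovZ.badM (by decide +kernel)))))))
     (CovZ.n1 (-5760, 24960) (by decide +kernel)
      (CovZ.badM (by decide +kernel))
      (CovZ.n1 (-5760, 24320) (by decide +kernel)
       (CovZ.badM (by decide +kernel))
       (CovZ.badM (by decide +kernel)))))
    (CovZ.n1 (-6400, 23040) (by decide +kernel)
     (CovZ.badM (by decide +kernel))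
     (CovZ.n1 (-5760, 23680) (by decide +kernel)
      (CovZ.n2 (-5760, 23040) (by decide +kernel)
       (CovZ.badM (by decide +kernel))
       (CovZ.n1 (-5440, 23360) (by decide +kernel)
        (CovZ.n2 (-5440, 23040) (by decide +kernel)
         (CovZ.badM (by decide +kernel))
         (CovZ.n1 (-5280, 23200) (by decide +kernel)
          (CovZ.n2 (-5280, 23040) (by decide +kernel)
           (CovZ.n2 (-5360, 23120) (by decide +kernel)
            (CovZ.leaf K2_ok TF_l9401 _)
            (CovZ.leaf K2_ok TF_l9402 _))
           (CovZ.leaf K2_ok TF_l9403 _))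
          (CovZ.n1 (-5440, 23200) (by decide +kernel)
           (CovZ.leaf K2_ok TF_l9404 _)
           (CovZ.n1 (-5360, 23120) (by decide +kernel)
            (CovZ.badM (by decide +kernel))
            (CovZ.leaf K2_ok TF_l9405 _)))))
        (CovZ.badM (by decide +kernel))))
      (CovZ.badM (by decide +kernel))))))
    (CovZ.topM TF_LL 0 (by decide +kernel) (CovZ.badM (by decide +kernel)))

theorem TF_s1_12 : SqZ TF_M TF_L [0, 7, 4, 3] (-7680) (-7680) 2560 1 12 :=
  SqZ.mk (a := (-5120)) (b := (-2560)) (c := 23040) (d := 25600) (by norm_num) (by norm_num) (by norm_num) (by norm_num)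
    (CovZ.topM TF_LL 89213869853878355374737907723588286963318800 (by decide +kernel) (CovZ.n2 (-3840, 24320) (by decide +kernel)
    TF_u134
    TF_u135))
    (CovZ.topM TF_LL 649037107316853750803896037539840 (by decide +kernel) (CovZ.n0 (-3840, 24320) (by decide +kernel)
    (CovZ.n2 (-5120, 24320) (by decide +kernel)
     (CovZ.n2 (-4480, 24960) (by decide +kernel)
      (CovZ.n2 (-4480, 24320) (by decide +kernel)
       (CovZ.badM (by decide +kernel))
       (CovZ.n1 (-4160, 24640) (by decide +kernel)
        (CovZ.n2 (-4160, 24320) (by decide +kernel)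
         (CovZ.badM (by decide +kernel))
         (CovZ.n1 (-4000, 24480) (by decide +kernel)
          (CovZ.n2 (-4000, 24320) (by decide +kernel)
           (CovZ.badM (by decide +kernel))
           (CovZ.badM (by decide +kernel)))
          (CovZ.badM (by decide +kernel))))
        (CovZ.badM (by decide +kernel))))
      (CovZ.badM (by decide +kernel)))
     (CovZ.n1 (-4480, 23680) (by decide +kernel)
      TF_u136
      TF_u137))
    (CovZ.n1 (-3840, 25600) (by decide +kernel)
     (CovZ.badM (by decide +kernel))
     (CovZ.n1 (-4480, 24960) (by decide +kernel)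
      (CovZ.badM (by decide +kernel))
      (CovZ.n1 (-3840, 24960) (by decide +kernel)
       (CovZ.n2 (-4160, 24640) (by decide +kernel)
        (CovZ.badM (by decide +kernel))
        (CovZ.n1 (-3840, 24640) (by decide +kernel)
         (CovZ.n2 (-4000, 24480) (by decide +kernel)
          (CovZ.badM (by decide +kernel))
          (CovZ.badM (by decide +kernel)))
         (CovZ.badM (by decide +kernel))))
       (CovZ.badM (by decide +kernel)))))))

theorem TF_s2_12 : SqZ TF_M TF_L [0, 7, 4, 3] (-7680) (-7680) 2560 2 12 :=
  SqZ.mk (a := (-2560)) (b := 0) (c := 23040) (d := 25600) (by norm_num) (by norm_num) (by norm_num) (by norm_num)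
    (CovZ.topM TF_LL 10889497532107227996420957914875554759698 (by decide +kernel) (CovZ.n2 (-1280, 24320) (by decide +kernel)
    (CovZ.n2 (0, 24320) (by decide +kernel)
     (CovZ.n2 (-640, 23680) (by decide +kernel)
      (CovZ.n2 (-640, 24320) (by decide +kernel)
       (CovZ.leaf K2_ok TF_l1706 _)
       (CovZ.leaf K2_ok TF_l1707 _))
      (CovZ.leaf K2_ok TF_l1708 _))
     (CovZ.n1 (-640, 24960) (by decide +kernel)
      (CovZ.n2 (0, 24960) (by decide +kernel)
       (CovZ.leaf K2_ok TF_l1709 _)
       (CovZ.leaf K2_ok TF_l1710 _))
      (CovZ.leaf K2_ok TF_l1711 _)))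
    (CovZ.n1 (-1280, 23040) (by decide +kernel)
     (CovZ.n2 (-1920, 23680) (by decide +kernel)
      (CovZ.n2 (-1280, 23680) (by decide +kernel)
       (CovZ.leaf K2_ok TF_l1712 _)
       (CovZ.n1 (-1600, 24000) (by decide +kernel)
        (CovZ.leaf K2_ok TF_l1713 _)
        (CovZ.leaf K2_ok TF_l1714 _)))
      (CovZ.n1 (-1920, 23040) (by decide +kernel)
       (CovZ.n2 (-2240, 23360) (by decide +kernel)
        (CovZ.leaf K2_ok TF_l1715 _)
        (CovZ.leaf K2_ok TF_l1716 _))
       (CovZ.leaf K2_ok TF_l1717 _)))
     (CovZ.leaf K2_ok TF_l1718 _))))
    (CovZ.topM TF_LL 89213870312099266198735376898603729216929810 (by decide +kernel) (CovZ.n0 (-1280, 24320) (by decide +kernel)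
    TF_u138
    TF_u139))

theorem TF_s3_12 : SqZ TF_M TF_L [0, 7, 4, 3] (-7680) (-7680) 2560 3 12 :=
  SqZ.mk (a := 0) (b := 2560) (c := 23040) (d := 25600) (by norm_num) (by norm_num) (by norm_num) (by norm_num)
    (CovZ.topM TF_LL 76223711332128067561109609117082329351186 (by decide +kernel) (CovZ.n2 (1280, 24320) (by decide +kernel)
    (CovZ.n2 (2560, 24320) (by decide +kernel)
     (CovZ.n2 (1920, 23680) (by decide +kernel)
      (CovZ.n2 (1920, 24320) (by decide +kernel)
       (CovZ.leaf K2_ok TF_l3450 _)
       (CovZ.leaf K2_ok TF_l3451 _))
      (CovZ.n1 (2560, 23680) (by decide +kernel)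
       (CovZ.leaf K2_ok TF_l3452 _)
       (CovZ.leaf K2_ok TF_l3453 _)))
     (CovZ.n1 (1920, 24960) (by decide +kernel)
      (CovZ.n2 (2560, 24960) (by decide +kernel)
       (CovZ.n2 (2240, 24640) (by decide +kernel)
        (CovZ.leaf K2_ok TF_l3454 _)
        (CovZ.leaf K2_ok TF_l3455 _))
       (CovZ.subM 65334216072366244483335351330606922400786 (by decide +kernel)
        (CovZ.n1 (2240, 25280) (by decide +kernel)
         (CovZ.n2 (2560, 25280) (by decide +kernel)
          (CovZ.leaf K2_ok TF_l3456 _)
          (CovZ.n1 (2400, 25440) (by decide +kernel)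
           (CovZ.n2 (2560, 25440) (by decide +kernel)
            (CovZ.leaf K2_ok TF_l3457 _)
            (CovZ.n1 (2480, 25520) (by decide +kernel)
             (CovZ.leaf K2_ok TF_l3458 _)
             (CovZ.leaf K2_ok TF_l3459 _)))
           (CovZ.leaf K2_ok TF_l3460 _)))
         (CovZ.leaf K2_ok TF_l3461 _))))
      (CovZ.leaf K2_ok TF_l3462 _)))
    (CovZ.leaf K2_ok TF_l3463 _)))
    (CovZ.topM TF_LL 76223711332128067523330677254125167641618 (by decide +kernel) (CovZ.n0 (1280, 24320) (by decide +kernel)
    (CovZ.n2 (0, 24320) (by decide +kernel)
     (CovZ.leaf K2_ok TF_l3464 _)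
     (CovZ.leaf K2_ok TF_l3465 _))
    (CovZ.n1 (1280, 25600) (by decide +kernel)
     (CovZ.n2 (1920, 24960) (by decide +kernel)
      (CovZ.leaf K2_ok TF_l3466 _)
      (CovZ.n1 (1920, 25600) (by decide +kernel)
       (CovZ.n2 (2240, 25280) (by decide +kernel)
        (CovZ.leaf K2_ok TF_l3467 _)
        (CovZ.subM 65334216072366244483335351330602627433490 (by decide +kernel)
         (CovZ.n1 (2240, 25600) (by decide +kernel)
          (CovZ.n2 (2400, 25440) (by decide +kernel)
           (CovZ.leaf K2_ok TF_l3468 _)
           (CovZ.n1 (2400, 25600) (by decide +kernel)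
            (CovZ.n2 (2480, 25520) (by decide +kernel)
             (CovZ.leaf K2_ok TF_l3469 _)
             (CovZ.leaf K2_ok TF_l3470 _))
            (CovZ.leaf K2_ok TF_l3471 _)))
          (CovZ.leaf K2_ok TF_l3472 _))))
       (CovZ.n1 (1600, 25280) (by decide +kernel)
        (CovZ.leaf K2_ok TF_l3473 _)
        (CovZ.leaf K2_ok TF_l3474 _))))
     (CovZ.n1 (640, 24960) (by decide +kernel)
      (CovZ.leaf K2_ok TF_l3475 _)
      (CovZ.n1 (1280, 24960) (by decide +kernel)
       (CovZ.leaf K2_ok TF_l3476 _)
       (CovZ.leaf K2_ok TF_l3477 _))))))

theorem TF_s4_12 : SqZ TF_M TF_L [0, 7, 4, 3] (-7680) (-7680) 2560 4 12 :=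
  SqZ.mk (a := 2560) (b := 5120) (c := 23040) (d := 25600) (by norm_num) (by norm_num) (by norm_num) (by norm_num)
    (CovZ.topM TF_LL 65334548399647909838744072971947758126098 (by decide +kernel) (CovZ.n2 (3840, 24320) (by decide +kernel)
    (CovZ.subM 20602107661307641597812471234562 (by decide +kernel)
     (CovZ.n2 (5120, 24320) (by decide +kernel)
      (CovZ.n2 (4480, 23680) (by decide +kernel)
       (CovZ.n2 (4480, 24320) (by decide +kernel)
        (CovZ.leaf K2_ok TF_l4351 _)
        (CovZ.leaf K2_ok TF_l4352 _))
       (CovZ.leaf K2_ok TF_l4353 _))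
      (CovZ.n1 (4480, 24960) (by decide +kernel)
       (CovZ.leaf K2_ok TF_l4354 _)
       (CovZ.leaf K2_ok TF_l4355 _))))
    (CovZ.n1 (3840, 23040) (by decide +kernel)
     (CovZ.n2 (3200, 23680) (by decide +kernel)
      (CovZ.n2 (3840, 23680) (by decide +kernel)
       (CovZ.leaf K2_ok TF_l4356 _)
       (CovZ.n1 (3520, 24000) (by decide +kernel)
        (CovZ.leaf K2_ok TF_l4357 _)
        (CovZ.leaf K2_ok TF_l4358 _)))
      (CovZ.leaf K2_ok TF_l4359 _))
     (CovZ.n1 (4480, 23680) (by decide +kernel)
      (CovZ.leaf K2_ok TF_l4360 _)
      (CovZ.leaf K2_ok TF_l4361 _)))))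
    (CovZ.topM TF_LL 65334548399647909838744072971947758126098 (by decide +kernel) (CovZ.n0 (3840, 24320) (by decide +kernel)
    (CovZ.n2 (2560, 24320) (by decide +kernel)
     (CovZ.n2 (3200, 24960) (by decide +kernel)
      (CovZ.n2 (3200, 24320) (by decide +kernel)
       (CovZ.n2 (2880, 24640) (by decide +kernel)
        (CovZ.n2 (3200, 24640) (by decide +kernel)
         (CovZ.leaf K2_ok TF_l4362 _)
         (CovZ.n1 (3040, 24800) (by decide +kernel)
          (CovZ.leaf K2_ok TF_l4363 _)
          (CovZ.leaf K2_ok TF_l4364 _)))
        (CovZ.leaf K2_ok TF_l4365 _))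
       (CovZ.leaf K2_ok TF_l4366 _))
      (CovZ.n1 (2560, 24960) (by decide +kernel)
       (CovZ.subM 65334215747847613453656164426102674031634 (by decide +kernel)
        (CovZ.n2 (2880, 25280) (by decide +kernel)
         (CovZ.n2 (2880, 24960) (by decide +kernel)
          (CovZ.n2 (2720, 25120) (by decide +kernel)
           (CovZ.n2 (2880, 25120) (by decide +kernel)
            (CovZ.leaf K2_ok TF_l4367 _)
            (CovZ.leaf K2_ok TF_l4368 _))
           (CovZ.leaf K2_ok TF_l4369 _))
          (CovZ.leaf K2_ok TF_l4370 _))
         (CovZ.n1 (2560, 25280) (by decide +kernel)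
          (CovZ.n2 (2720, 25440) (by decide +kernel)
           (CovZ.n2 (2720, 25280) (by decide +kernel)
            (CovZ.n2 (2640, 25360) (by decide +kernel)
             (CovZ.leaf K2_ok TF_l4371 _)
             (CovZ.leaf K2_ok TF_l4372 _))
            (CovZ.leaf K2_ok TF_l4373 _))
           (CovZ.n1 (2560, 25440) (by decide +kernel)
            (CovZ.leaf K2_ok TF_l4374 _)
            (CovZ.n1 (2640, 25360) (by decide +kernel)
             (CovZ.leaf K2_ok TF_l4375 _)
             (CovZ.leaf K2_ok TF_l4376 _))))
          (CovZ.n1 (2720, 25120) (by decide +kernel)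
           (CovZ.leaf K2_ok TF_l4377 _)
           (CovZ.n1 (2720, 25280) (by decide +kernel)
            (CovZ.leaf K2_ok TF_l4378 _)
            (CovZ.leaf K2_ok TF_l4379 _))))))
       (CovZ.n1 (2880, 24640) (by decide +kernel)
        (CovZ.leaf K2_ok TF_l4380 _)
        (CovZ.n1 (2880, 24960) (by decide +kernel)
         (CovZ.n2 (3040, 24800) (by decide +kernel)
          (CovZ.leaf K2_ok TF_l4381 _)
          (CovZ.leaf K2_ok TF_l4382 _))
         (CovZ.leaf K2_ok TF_l4383 _)))))
     (CovZ.n1 (3200, 23680) (by decide +kernel)
      (CovZ.leaf K2_ok TF_l4384 _)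
      (CovZ.n1 (3200, 24320) (by decide +kernel)
       (CovZ.n2 (3520, 24000) (by decide +kernel)
        (CovZ.leaf K2_ok TF_l4385 _)
        (CovZ.leaf K2_ok TF_l4386 _))
       (CovZ.n1 (2880, 24000) (by decide +kernel)
        (CovZ.leaf K2_ok TF_l4387 _)
        (CovZ.leaf K2_ok TF_l4388 _)))))
    (CovZ.subM 20602107661307641597812471235586 (by decide +kernel)
     (CovZ.n1 (3840, 25600) (by decide +kernel)
      (CovZ.n2 (4480, 24960) (by decide +kernel)
       (CovZ.leaf K2_ok TF_l4389 _)
       (CovZ.leaf K2_ok TF_l4390 _))
      (CovZ.n1 (3200, 24960) (by decide +kernel)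
       (CovZ.n2 (3200, 25600) (by decide +kernel)
        (CovZ.n2 (3520, 25280) (by decide +kernel)
         (CovZ.leaf K2_ok TF_l4391 _)
         (CovZ.leaf K2_ok TF_l4392 _))
        (CovZ.n1 (2880, 25280) (by decide +kernel)
         (CovZ.n2 (2880, 25600) (by decide +kernel)
          (CovZ.n2 (3040, 25440) (by decide +kernel)
           (CovZ.leaf K2_ok TF_l4393 _)
           (CovZ.leaf K2_ok TF_l4394 _))
          (CovZ.n1 (2720, 25440) (by decide +kernel)
           (CovZ.n2 (2720, 25600) (by decide +kernel)
            (CovZ.leaf K2_ok TF_l4395 _)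
            (CovZ.n1 (2640, 25520) (by decide +kernel)
             (CovZ.leaf K2_ok TF_l4396 _)
             (CovZ.leaf K2_ok TF_l4397 _)))
           (CovZ.n1 (2880, 25440) (by decide +kernel)
            (CovZ.leaf K2_ok TF_l4398 _)
            (CovZ.leaf K2_ok TF_l4399 _))))
         (CovZ.n1 (3200, 25280) (by decide +kernel)
          (CovZ.leaf K2_ok TF_l4400 _)
          (CovZ.n1 (3040, 25440) (by decide +kernel)
           (CovZ.leaf K2_ok TF_l4401 _)
           (CovZ.leaf K2_ok TF_l4402 _)))))
       (CovZ.n1 (3840, 24960) (by decide +kernel)
        (CovZ.n2 (3520, 24640) (by decide +kernel)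
         (CovZ.leaf K2_ok TF_l4403 _)
         (CovZ.leaf K2_ok TF_l4404 _))
        (CovZ.n1 (3520, 25280) (by decide +kernel)
         (CovZ.leaf K2_ok TF_l4405 _)
         (CovZ.leaf K2_ok TF_l4406 _))))))))

theorem TF_s5_12 : SqZ TF_M TF_L [0, 7, 4, 3] (-7680) (-7680) 2560 5 12 :=
  SqZ.mk (a := 5120) (b := 7680) (c := 23040) (d := 25600) (by norm_num) (by norm_num) (by norm_num) (by norm_num)
    (CovZ.topM TF_LL 1393796574938907258809115868850445861519426 (by decide +kernel) (CovZ.n2 (6400, 24320) (by decide +kernel)
    (CovZ.n2 (7680, 24320) (by decide +kernel)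
     (CovZ.n2 (7040, 23680) (by decide +kernel)
      (CovZ.n2 (7040, 24320) (by decide +kernel)
       (CovZ.leaf K2_ok TF_l4664 _)
       (CovZ.leaf K2_ok TF_l4665 _))
      (CovZ.leaf K2_ok TF_l4666 _))
     (CovZ.subM 10143990204702382552594756141120 (by decide +kernel)
      (CovZ.n1 (7040, 24960) (by decide +kernel)
       (CovZ.n2 (7680, 24960) (by decide +kernel)
        (CovZ.n2 (7360, 24640) (by decide +kernel)
         (CovZ.n2 (7360, 24960) (by decide +kernel)
          (CovZ.leaf K2_ok TF_l4667 _)
          (CovZ.leaf K2_ok TF_l4668 _))
         (CovZ.leaf K2_ok TF_l4669 _))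
        (CovZ.subM 2785402867323968575684739072 (by decide +kernel)
         (CovZ.n1 (7360, 25280) (by decide +kernel)
          (CovZ.n2 (7680, 25280) (by decide +kernel)
           (CovZ.n2 (7520, 25120) (by decide +kernel)
            (CovZ.n2 (7520, 25280) (by decide +kernel)
             (CovZ.leaf K2_ok TF_l4670 _)
             (CovZ.leaf K2_ok TF_l4671 _))
            (CovZ.leaf K2_ok TF_l4672 _))
           (CovZ.n1 (7520, 25440) (by decide +kernel)
            (CovZ.badM (by decide +kernel))
            (CovZ.n1 (7520, 25280) (by decide +kernel)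
             (CovZ.leaf K2_ok TF_l4678 _)
             (CovZ.badM (by decide +kernel)))))
          (CovZ.n1 (7360, 24960) (by decide +kernel)
           (CovZ.leaf K2_ok TF_l4680 _)
           (CovZ.leaf K2_ok TF_l4681 _)))))
       (CovZ.leaf K2_ok TF_l4682 _))))
    (CovZ.leaf K2_ok TF_l4683 _)))
    (CovZ.topM TF_LL 20602107661307641597812471234562 (by decide +kernel) (CovZ.n0 (6400, 24320) (by decide +kernel)
    (CovZ.leaf K2_ok TF_l4684 _)
    (CovZ.n1 (6400, 25600) (by decide +kernel)
     (CovZ.subM 2785402876547340621130498048 (by decide +kernel)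
      (CovZ.n2 (7040, 24960) (by decide +kernel)
       (CovZ.leaf K2_ok TF_l4685 _)
       (CovZ.subM 2785402867323968575684739072 (by decide +kernel)
        (CovZ.n1 (7040, 25600) (by decide +kernel)
         (CovZ.n2 (7360, 25280) (by decide +kernel)
          (CovZ.leaf K2_ok TF_l4686 _)
          (CovZ.n1 (7360, 25600) (by decide +kernel)
           (CovZ.n2 (7520, 25440) (by decide +kernel)
            (CovZ.n2 (7360, 25440) (by decide +kernel)
             (CovZ.badM (by decide +kernel))
             (CovZ.leaf K2_ok TF_l4688 _))
            (CovZ.badM (by decide +kernel)))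
           (CovZ.n1 (7200, 25440) (by decide +kernel)
            (CovZ.badM (by decide +kernel))
            (CovZ.n1 (7360, 25440) (by decide +kernel)
             (CovZ.leaf K2_ok TF_l4700 _)
             (CovZ.badM (by decide +kernel))))))
         (CovZ.n1 (6720, 25280) (by decide +kernel)
          (CovZ.n2 (6720, 25600) (by decide +kernel)
           (CovZ.n2 (6880, 25440) (by decide +kernel)
            (CovZ.leaf K2_ok TF_l4702 _)
            (CovZ.leaf K2_ok TF_l4703 _))
           (CovZ.leaf K2_ok TF_l4704 _))
          (CovZ.n1 (7040, 25280) (by decide +kernel)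
           (CovZ.leaf K2_ok TF_l4705 _)
           (CovZ.n1 (6880, 25440) (by decide +kernel)
            (CovZ.leaf K2_ok TF_l4706 _)
            (CovZ.leaf K2_ok TF_l4707 _))))))))
     (CovZ.n1 (5760, 24960) (by decide +kernel)
      (CovZ.n2 (5760, 25600) (by decide +kernel)
       (CovZ.n2 (6080, 25280) (by decide +kernel)
        (CovZ.leaf K2_ok TF_l12993 _)
        (CovZ.leaf K2_ok TF_l12994 _))
       (CovZ.leaf K2_ok TF_l4708 _))
      (CovZ.n1 (6400, 24960) (by decide +kernel)
       (CovZ.leaf K2_ok TF_l4709 _)
       (CovZ.n1 (6080, 25280) (by decide +kernel)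
        (CovZ.leaf K2_ok TF_l4710 _)
        (CovZ.leaf K2_ok TF_l4711 _)))))))

theorem TF_s6_12 : SqZ TF_M TF_L [0, 7, 4, 3] (-7680) (-7680) 2560 6 12 :=
  SqZ.mk (a := 7680) (b := 10240) (c := 23040) (d := 25600) (by norm_num) (by norm_num) (by norm_num) (by norm_num)
    (CovZ.topM TF_LL 2854495385411929906106776641281543004962684992 (by decide +kernel) (CovZ.n2 (8960, 24320) (by decide +kernel)
    (CovZ.n2 (10240, 24320) (by decide +kernel)
     (CovZ.n2 (9600, 23680) (by decide +kernel)
      TF_u140
      TF_u141)
     (CovZ.n1 (9600, 24960) (by decide +kernel)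
      (CovZ.badM (by decide +kernel))
      (CovZ.n1 (9600, 24320) (by decide +kernel)
       (CovZ.badM (by decide +kernel))
       (CovZ.badM (by decide +kernel)))))
    (CovZ.n1 (8960, 23040) (by decide +kernel)
     (CovZ.n2 (8320, 23680) (by decide +kernel)
      (CovZ.n2 (8960, 23680) (by decide +kernel)
       (CovZ.leaf K2_ok TF_l4880 _)
       (CovZ.n1 (8640, 24000) (by decide +kernel)
        (CovZ.n2 (8960, 24000) (by decide +kernel)
         (CovZ.leaf K2_ok TF_l4881 _)
         (CovZ.n1 (8800, 24160) (by decide +kernel)
          (CovZ.leaf K2_ok TF_l4882 _)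
          (CovZ.leaf K2_ok TF_l4883 _)))
        (CovZ.leaf K2_ok TF_l4884 _)))
      (CovZ.leaf K2_ok TF_l4885 _))
     (CovZ.n1 (9600, 23680) (by decide +kernel)
      (CovZ.n2 (9600, 23040) (by decide +kernel)
       (CovZ.n2 (9280, 23360) (by decide +kernel)
        (CovZ.n2 (9600, 23360) (by decide +kernel)
         (CovZ.leaf K2_ok TF_l4886 _)
         (CovZ.leaf K2_ok TF_l4887 _))
        (CovZ.leaf K2_ok TF_l4888 _))
       (CovZ.n1 (9920, 23360) (by decide +kernel)
        (CovZ.leaf K2_ok TF_l4889 _)
        (CovZ.leaf K2_ok TF_l4890 _)))
      (CovZ.n1 (8960, 23680) (by decide +kernel)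
       (CovZ.subM 2785365097615477792817807424 (by decide +kernel)
        (CovZ.n2 (9280, 24000) (by decide +kernel)
         (CovZ.n2 (9280, 23680) (by decide +kernel)
          (CovZ.n2 (9120, 23840) (by decide +kernel)
           (CovZ.leaf K2_ok TF_l4891 _)
           (CovZ.leaf K2_ok TF_l4892 _))
          (CovZ.leaf K2_ok TF_l4893 _))
         (CovZ.n1 (8960, 24000) (by decide +kernel)
          (CovZ.leaf K2_ok TF_l4894 _)
          (CovZ.n1 (9120, 23840) (by decide +kernel)
           (CovZ.leaf K2_ok TF_l4895 _)
           (CovZ.leaf K2_ok TF_l4896 _)))))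
       (CovZ.n1 (9280, 23360) (by decide +kernel)
        (CovZ.leaf K2_ok TF_l4897 _)
        (CovZ.n1 (9280, 23680) (by decide +kernel)
         (CovZ.leaf K2_ok TF_l4898 _)
         (CovZ.leaf K2_ok TF_l4899 _))))))))
    (CovZ.topM TF_LL 1393796574918307936550684774593254791315520 (by decide +kernel) (CovZ.n0 (8960, 24320) (by decide +kernel)
    (CovZ.n2 (7680, 24320) (by decide +kernel)
     (CovZ.n2 (8320, 24960) (by decide +kernel)
      (CovZ.n2 (8320, 24320) (by decide +kernel)
       (CovZ.n2 (8000, 24640) (by decide +kernel)
        (CovZ.subM 1393796574918307936512896619358123332730944 (by decide +kernel)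
         (CovZ.n2 (8320, 24640) (by decide +kernel)
          (CovZ.leaf K2_ok TF_l4900 _)
          (CovZ.n1 (8160, 24800) (by decide +kernel)
           (CovZ.n2 (8320, 24800) (by decide +kernel)
            (CovZ.leaf K2_ok TF_l4901 _)
            (CovZ.n1 (8240, 24880) (by decide +kernel)
             (CovZ.leaf K2_ok TF_l4902 _)
             (CovZ.leaf K2_ok TF_l4903 _)))
           (CovZ.leaf K2_ok TF_l4904 _))))
        (CovZ.leaf K2_ok TF_l4905 _))
       (CovZ.subM 10143990166914227317600738607168 (by decide +kernel)
        (CovZ.n1 (8640, 24640) (by decide +kernel)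
         (CovZ.n2 (8640, 24320) (by decide +kernel)
          (CovZ.n2 (8480, 24480) (by decide +kernel)
           (CovZ.n2 (8640, 24480) (by decide +kernel)
            (CovZ.leaf K2_ok TF_l4906 _)
            (CovZ.leaf K2_ok TF_l4907 _))
           (CovZ.leaf K2_ok TF_l4908 _))
          (CovZ.leaf K2_ok TF_l4909 _))
         (CovZ.n1 (8320, 24640) (by decide +kernel)
          (CovZ.n2 (8480, 24800) (by decide +kernel)
           (CovZ.n2 (8480, 24640) (by decide +kernel)
            (CovZ.n2 (8400, 24720) (by decide +kernel)
             (CovZ.leaf K2_ok TF_l4910 _)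
             (CovZ.leaf K2_ok TF_l4911 _))
            (CovZ.leaf K2_ok TF_l4912 _))
           (CovZ.n1 (8320, 24800) (by decide +kernel)
            (CovZ.leaf K2_ok TF_l4913 _)
            (CovZ.n1 (8400, 24720) (by decide +kernel)
             (CovZ.leaf K2_ok TF_l4914 _)
             (CovZ.leaf K2_ok TF_l4915 _))))
          (CovZ.n1 (8480, 24480) (by decide +kernel)
           (CovZ.leaf K2_ok TF_l4916 _)
           (CovZ.n1 (8480, 24640) (by decide +kernel)
            (CovZ.leaf K2_ok TF_l4917 _)
            (CovZ.leaf K2_ok TF_l4918 _)))))))
      (CovZ.n1 (7680, 24960) (by decide +kernel)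
       (CovZ.subM 10143680681904405972523423891456 (by decide +kernel)
        (CovZ.n2 (8000, 25280) (by decide +kernel)
         (CovZ.n2 (8000, 24960) (by decide +kernel)
          (CovZ.n2 (7840, 25120) (by decide +kernel)
           (CovZ.n2 (8000, 25120) (by decide +kernel)
            (CovZ.leaf K2_ok TF_l4919 _)
            (CovZ.n1 (7920, 25200) (by decide +kernel)
             (CovZ.n2 (8000, 25200) (by decide +kernel)
              (CovZ.leaf K2_ok TF_l4920 _)
              (CovZ.n1 (7960, 25240) (by decide +kernel)
               (CovZ.leaf K2_ok TF_l13285 _)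
               (CovZ.leaf K2_ok TF_l4921 _)))
             (CovZ.leaf K2_ok TF_l4922 _)))
           (CovZ.leaf K2_ok TF_l4923 _))
          (CovZ.n1 (8160, 25120) (by decide +kernel)
           (CovZ.n2 (8160, 24960) (by decide +kernel)
            (CovZ.n2 (8080, 25040) (by decide +kernel)
             (CovZ.n2 (8160, 25040) (by decide +kernel)
              (CovZ.leaf K2_ok TF_l4924 _)
              (CovZ.leaf K2_ok TF_l4925 _))
             (CovZ.leaf K2_ok TF_l4926 _))
            (CovZ.badM (by decide +kernel)))
           (CovZ.n1 (8000, 25120) (by decide +kernel)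
            (CovZ.n2 (8080, 25200) (by decide +kernel)
             (CovZ.n2 (8080, 25120) (by decide +kernel)
              (CovZ.n2 (8040, 25160) (by decide +kernel)
               (CovZ.badM (by decide +kernel))
               (CovZ.leaf K2_ok TF_l4928 _))
              (CovZ.badM (by decide +kernel)))
             (CovZ.n1 (8000, 25200) (by decide +kernel)
              (CovZ.leaf K2_ok TF_l13286 _)
              (CovZ.n1 (8040, 25160) (by decide +kernel)
               (CovZ.leaf K2_ok TF_l4929 _)
               (CovZ.leaf K2_ok TF_l13287 _))))
            (CovZ.n1 (8080, 25040) (by decide +kernel)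
             (CovZ.leaf K2_ok TF_l4930 _)
             (CovZ.n1 (8080, 25120) (by decide +kernel)
              (CovZ.leaf K2_ok TF_l4931 _)
              (CovZ.leaf K2_ok TF_l4932 _))))))
         (CovZ.n1 (7680, 25280) (by decide +kernel)
          (CovZ.n2 (7840, 25440) (by decide +kernel)
           (CovZ.n2 (7840, 25280) (by decide +kernel)
            (CovZ.badM (by decide +kernel))
            (CovZ.n1 (7920, 25360) (by decide +kernel)
             (CovZ.n2 (7920, 25280) (by decide +kernel)
              (CovZ.badM (by decide +kernel))
              (CovZ.n1 (7960, 25320) (by decide +kernel)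
               (CovZ.leaf K2_ok TF_l13288 _)
               (CovZ.badM (by decide +kernel))))
             (CovZ.badM (by decide +kernel))))
           (CovZ.badM (by decide +kernel)))
          (CovZ.n1 (7840, 25120) (by decide +kernel)
           (CovZ.leaf K2_ok TF_l4943 _)
           (CovZ.n1 (7840, 25280) (by decide +kernel)
            (CovZ.n2 (7920, 25200) (by decide +kernel)
             (CovZ.badM (by decide +kernel))
             (CovZ.n1 (7920, 25280) (by decide +kernel)
              (CovZ.n2 (7960, 25240) (by decide +kernel)
               (CovZ.leaf K2_ok TF_l4945 _)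
               (CovZ.n1 (7960, 25280) (by decide +kernel)
                (CovZ.leaf K2_ok TF_l13289 _)
                (CovZ.leaf K2_ok TF_l13290 _)))
              (CovZ.badM (by decide +kernel))))
            (CovZ.badM (by decide +kernel)))))))
       (CovZ.n1 (8000, 24640) (by decide +kernel)
        (CovZ.leaf K2_ok TF_l4949 _)
        (CovZ.subM 10143990166914227317600738607104 (by decide +kernel)
         (CovZ.n1 (8000, 24960) (by decide +kernel)
          (CovZ.n2 (8160, 24800) (by decide +kernel)
           (CovZ.leaf K2_ok TF_l4950 _)
           (CovZ.n1 (8160, 24960) (by decide +kernel)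
            (CovZ.n2 (8240, 24880) (by decide +kernel)
             (CovZ.leaf K2_ok TF_l4951 _)
             (CovZ.n1 (8240, 24960) (by decide +kernel)
              (CovZ.leaf K2_ok TF_l4952 _)
              (CovZ.leaf K2_ok TF_l4953 _)))
            (CovZ.leaf K2_ok TF_l4954 _)))
          (CovZ.n1 (7840, 24800) (by decide +kernel)
           (CovZ.leaf K2_ok TF_l4955 _)
           (CovZ.leaf K2_ok TF_l4956 _)))))))
     (CovZ.n1 (8320, 23680) (by decide +kernel)
      (CovZ.leaf K2_ok TF_l4957 _)
      (CovZ.n1 (8320, 24320) (by decide +kernel)
       (CovZ.n2 (8640, 24000) (by decide +kernel)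
        (CovZ.leaf K2_ok TF_l4958 _)
        (CovZ.subM 10143990166914227317600739655744 (by decide +kernel)
         (CovZ.n1 (8640, 24320) (by decide +kernel)
          (CovZ.n2 (8800, 24160) (by decide +kernel)
           (CovZ.leaf K2_ok TF_l4959 _)
           (CovZ.n1 (8800, 24320) (by decide +kernel)
            (CovZ.leaf K2_ok TF_l4960 _)
            (CovZ.leaf K2_ok TF_l4961 _)))
          (CovZ.leaf K2_ok TF_l4962 _))))
       (CovZ.n1 (8000, 24000) (by decide +kernel)
        (CovZ.leaf K2_ok TF_l4963 _)
        (CovZ.leaf K2_ok TF_l4964 _)))))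
    (CovZ.subM 1393796574918305151147808227252504809701376 (by decide +kernel)
     (CovZ.n1 (8960, 25600) (by decide +kernel)
      (CovZ.badM (by decide +kernel))
      (CovZ.n1 (8320, 24960) (by decide +kernel)
       (CovZ.n2 (8320, 25600) (by decide +kernel)
        (CovZ.n2 (8640, 25280) (by decide +kernel)
         (CovZ.n2 (8320, 25280) (by decide +kernel)
          (CovZ.n2 (8480, 25440) (by decide +kernel)
           (CovZ.n2 (8480, 25280) (by decide +kernel)
            (CovZ.badM (by decide +kernel))
            (CovZ.n1 (8560, 25360) (by decide +kernel)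
             (CovZ.badM (by decide +kernel))
             (CovZ.badM (by decide +kernel))))
           (CovZ.badM (by decide +kernel)))
          (CovZ.n1 (8480, 25120) (by decide +kernel)
           (CovZ.n2 (8320, 25120) (by decide +kernel)
            (CovZ.n2 (8400, 25200) (by decide +kernel)
             (CovZ.n2 (8400, 25120) (by decide +kernel)
              (CovZ.badM (by decide +kernel))
              (CovZ.n1 (8440, 25160) (by decide +kernel)
               (CovZ.badM (by decide +kernel))
               (CovZ.badM (by decide +kernel))))
             (CovZ.badM (by decide +kernel)))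
            (CovZ.n1 (8400, 25040) (by decide +kernel)
             (CovZ.badM (by decide +kernel))
             (CovZ.n1 (8400, 25120) (by decide +kernel)
              (CovZ.badM (by decide +kernel))
              (CovZ.badM (by decide +kernel)))))
           (CovZ.n1 (8480, 25280) (by decide +kernel)
            (CovZ.badM (by decide +kernel))
            (CovZ.n1 (8400, 25200) (by decide +kernel)
             (CovZ.badM (by decide +kernel))
             (CovZ.n1 (8480, 25200) (by decide +kernel)
              (CovZ.n2 (8440, 25160) (by decide +kernel)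
               (CovZ.badM (by decide +kernel))
               (CovZ.badM (by decide +kernel)))
              (CovZ.badM (by decide +kernel)))))))
         (CovZ.n1 (8640, 25600) (by decide +kernel)
          (CovZ.badM (by decide +kernel))
          (CovZ.n1 (8480, 25440) (by decide +kernel)
           (CovZ.badM (by decide +kernel))
           (CovZ.n1 (8640, 25440) (by decide +kernel)
            (CovZ.n2 (8560, 25360) (by decide +kernel)
             (CovZ.n2 (8560, 25440) (by decide +kernel)
              (CovZ.badM (by decide +kernel))
              (CovZ.badM (by decide +kernel)))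
             (CovZ.badM (by decide +kernel)))
            (CovZ.n1 (8560, 25520) (by decide +kernel)
             (CovZ.badM (by decide +kernel))
             (CovZ.n1 (8560, 25440) (by decide +kernel)
              (CovZ.badM (by decide +kernel))
              (CovZ.badM (by decide +kernel))))))))
        (CovZ.n1 (8000, 25280) (by decide +kernel)
         (CovZ.n2 (8000, 25600) (by decide +kernel)
          (CovZ.badM (by decide +kernel))
          (CovZ.n1 (7840, 25440) (by decide +kernel)
           (CovZ.badM (by decide +kernel))
           (CovZ.n1 (8000, 25440) (by decide +kernel)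
            (CovZ.n2 (7920, 25360) (by decide +kernel)
             (CovZ.badM (by decide +kernel))
             (CovZ.n1 (8000, 25360) (by decide +kernel)
              (CovZ.n2 (7960, 25320) (by decide +kernel)
               (CovZ.n2 (7960, 25360) (by decide +kernel)
                (CovZ.badM (by decide +kernel))
                (CovZ.badM (by decide +kernel)))
               (CovZ.badM (by decide +kernel)))
              (CovZ.n1 (7960, 25400) (by decide +kernel)
               (CovZ.badM (by decide +kernel))
               (CovZ.n1 (7960, 25360) (by decide +kernel)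
                (CovZ.badM (by decide +kernel))
                (CovZ.badM (by decide +kernel))))))
            (CovZ.badM (by decide +kernel)))))
         (CovZ.badM (by decide +kernel))))
       (CovZ.n1 (8960, 24960) (by decide +kernel)
        (CovZ.n2 (8640, 24640) (by decide +kernel)
         (CovZ.n2 (8640, 24960) (by decide +kernel)
          (CovZ.badM (by decide +kernel))
          (CovZ.n1 (8480, 24800) (by decide +kernel)
           (CovZ.n2 (8480, 24960) (by decide +kernel)
            (CovZ.badM (by decide +kernel))
            (CovZ.n1 (8400, 24880) (by decide +kernel)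
             (CovZ.n2 (8400, 24960) (by decide +kernel)
              (CovZ.n2 (8440, 24920) (by decide +kernel)
               (CovZ.leaf K2_ok TF_l13291 _)
               (CovZ.n1 (8440, 24960) (by decide +kernel)
                (CovZ.n2 (8460, 24940) (by decide +kernel)
                 (CovZ.leaf K2_ok TF_l13292 _)
                 (CovZ.leaf K2_ok TF_l13293 _))
                (CovZ.leaf K2_ok TF_l13294 _)))
              (CovZ.leaf K2_ok TF_l13295 _))
             (CovZ.n1 (8480, 24880) (by decide +kernel)
              (CovZ.leaf K2_ok TF_l4965 _)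
              (CovZ.n1 (8440, 24920) (by decide +kernel)
               (CovZ.n2 (8480, 24920) (by decide +kernel)
                (CovZ.leaf K2_ok TF_l13296 _)
                (CovZ.n1 (8460, 24940) (by decide +kernel)
                 (CovZ.leaf K2_ok TF_l13297 _)
                 (CovZ.leaf K2_ok TF_l13298 _)))
               (CovZ.leaf K2_ok TF_l13299 _)))))
           (CovZ.badM (by decide +kernel))))
         (CovZ.badM (by decide +kernel)))
        (CovZ.n1 (8640, 25280) (by decide +kernel)
         (CovZ.badM (by decide +kernel))
         (CovZ.n1 (8640, 24960) (by decide +kernel)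
          (CovZ.n2 (8480, 25120) (by decide +kernel)
           (CovZ.badM (by decide +kernel))
           (CovZ.n1 (8480, 24960) (by decide +kernel)
            (CovZ.badM (by decide +kernel))
            (CovZ.badM (by decide +kernel))))
          (CovZ.badM (by decide +kernel))))))))))

theorem TF_s7_12 : SqZ TF_M TF_L [0, 7, 4, 3] (-7680) (-7680) 2560 7 12 :=
  SqZ.mk (a := 10240) (b := 12800) (c := 23040) (d := 25600) (by norm_num) (by norm_num) (by norm_num) (by norm_num)
    (CovZ.topM TF_LL 2854495385411919769853697230549477175159947328 (by decide +kernel) (CovZ.n2 (11520, 24320) (by decide +kernel)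
    (CovZ.subM 2854495385411919767068332096040511372361990208 (by decide +kernel)
     (CovZ.n2 (12800, 24320) (by decide +kernel)
      (CovZ.n2 (12160, 23680) (by decide +kernel)
       TF_u142
       TF_u143)
      (CovZ.n1 (12160, 24960) (by decide +kernel)
       (CovZ.badM (by decide +kernel))
       (CovZ.n1 (12160, 24320) (by decide +kernel)
        (CovZ.badM (by decide +kernel))
        (CovZ.badM (by decide +kernel))))))
    (CovZ.n1 (11520, 23040) (by decide +kernel)
     TF_u146
     (CovZ.n1 (12160, 23680) (by decide +kernel)
      (CovZ.n2 (12160, 23040) (by decide +kernel)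
       (CovZ.n2 (11840, 23360) (by decide +kernel)
        (CovZ.subM 2854495385411919762426056948720335341491322944 (by decide +kernel)
         (CovZ.n2 (12160, 23360) (by decide +kernel)
          (CovZ.n2 (12000, 23200) (by decide +kernel)
           (CovZ.n2 (12000, 23360) (by decide +kernel)
            (CovZ.leaf K2_ok TF_l5218 _)
            (CovZ.leaf K2_ok TF_l5219 _))
           (CovZ.leaf K2_ok TF_l5220 _))
          (CovZ.n1 (12000, 23520) (by decide +kernel)
           (CovZ.n2 (12160, 23520) (by decide +kernel)
            (CovZ.leaf K2_ok TF_l5221 _)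
            (CovZ.n1 (12080, 23600) (by decide +kernel)
             (CovZ.leaf K2_ok TF_l5222 _)
             (CovZ.leaf K2_ok TF_l5223 _)))
           (CovZ.leaf K2_ok TF_l5224 _))))
        (CovZ.n1 (11840, 23040) (by decide +kernel)
         (CovZ.n2 (11680, 23200) (by decide +kernel)
          (CovZ.leaf K2_ok TF_l5225 _)
          (CovZ.leaf K2_ok TF_l5226 _))
         (CovZ.leaf K2_ok TF_l5227 _)))
       (CovZ.subM 2854495385411919762426056948720335341491322944 (by decide +kernel)
        (CovZ.n1 (12480, 23360) (by decide +kernel)
         (CovZ.n2 (12480, 23040) (by decide +kernel)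
          (CovZ.n2 (12320, 23200) (by decide +kernel)
           (CovZ.leaf K2_ok TF_l5228 _)
           (CovZ.leaf K2_ok TF_l5229 _))
          (CovZ.leaf K2_ok TF_l5230 _))
         (CovZ.n1 (12160, 23360) (by decide +kernel)
          (CovZ.leaf K2_ok TF_l5231 _)
          (CovZ.n1 (12320, 23200) (by decide +kernel)
           (CovZ.leaf K2_ok TF_l5232 _)
           (CovZ.n1 (12320, 23360) (by decide +kernel)
            (CovZ.leaf K2_ok TF_l5233 _)
            (CovZ.leaf K2_ok TF_l5234 _)))))))
      (CovZ.n1 (11520, 23680) (by decide +kernel)
       TF_u144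
       TF_u145)))))
    (CovZ.topM TF_LL 2854495385411919764901937073407956075563450432 (by decide +kernel) (CovZ.n0 (11520, 24320) (by decide +kernel)
    (CovZ.n2 (10240, 24320) (by decide +kernel)
     (CovZ.badM (by decide +kernel))
     (CovZ.n1 (10880, 23680) (by decide +kernel)
      TF_u147
      (CovZ.subM 64 (by decide +kernel)
       (CovZ.n1 (10880, 24320) (by decide +kernel)
        (CovZ.n2 (11200, 24000) (by decide +kernel)
         (CovZ.n2 (10880, 24000) (by decide +kernel)
          (CovZ.badM (by decide +kernel))
          (CovZ.n1 (11040, 23840) (by decide +kernel)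
           (CovZ.n2 (10880, 23840) (by decide +kernel)
            (CovZ.badM (by decide +kernel))
            (CovZ.n1 (10960, 23760) (by decide +kernel)
             (CovZ.n2 (10880, 23760) (by decide +kernel)
              (CovZ.badM (by decide +kernel))
              (CovZ.n1 (10920, 23720) (by decide +kernel)
               (CovZ.leaf K2_ok TF_l13613 _)
               (CovZ.badM (by decide +kernel))))
             (CovZ.badM (by decide +kernel))))
           (CovZ.badM (by decide +kernel))))
         (CovZ.badM (by decide +kernel)))
        (CovZ.n1 (10560, 24000) (by decide +kernel)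
         (CovZ.badM (by decide +kernel))
         (CovZ.n1 (10880, 24000) (by decide +kernel)
          (CovZ.n2 (10720, 23840) (by decide +kernel)
           (CovZ.badM (by decide +kernel))
           (CovZ.n1 (10880, 23840) (by decide +kernel)
            (CovZ.n2 (10800, 23760) (by decide +kernel)
             (CovZ.badM (by decide +kernel))
             (CovZ.n1 (10880, 23760) (by decide +kernel)
              (CovZ.n2 (10840, 23720) (by decide +kernel)
               (CovZ.n2 (10840, 23760) (by decide +kernel)
                (CovZ.leaf K2_ok TF_l13614 _)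
                (CovZ.leaf K2_ok TF_l13615 _))
               (CovZ.leaf K2_ok TF_l13616 _))
              (CovZ.badM (by decide +kernel))))
            (CovZ.badM (by decide +kernel))))
          (CovZ.badM (by decide +kernel))))))))
    (CovZ.n1 (11520, 25600) (by decide +kernel)
     (CovZ.badM (by decide +kernel))
     (CovZ.badM (by decide +kernel)))))

theorem TF_s8_12 : SqZ TF_M TF_L [0, 7, 4, 3] (-7680) (-7680) 2560 8 12 :=
  SqZ.mk (a := 12800) (b := 15360) (c := 23040) (d := 25600) (by norm_num) (by norm_num) (by norm_num) (by norm_num)
    (CovZ.topM TF_LL 2854495385411919762116571938898990272765493344 (by decide +kernel) (CovZ.n2 (14080, 24320) (by decide +kernel)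
    (CovZ.badM (by decide +kernel))
    (CovZ.n1 (14080, 23040) (by decide +kernel)
     (CovZ.n2 (13440, 23680) (by decide +kernel)
      (CovZ.badM (by decide +kernel))
      (CovZ.n1 (13440, 23040) (by decide +kernel)
       (CovZ.n2 (13120, 23360) (by decide +kernel)
        (CovZ.n2 (13440, 23360) (by decide +kernel)
         (CovZ.n2 (13280, 23200) (by decide +kernel)
          (CovZ.badM (by decide +kernel))
          (CovZ.n1 (13440, 23200) (by decide +kernel)
           (CovZ.n2 (13360, 23120) (by decide +kernel)
            (CovZ.badM (by decide +kernel))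
            (CovZ.badM (by decide +kernel)))
           (CovZ.badM (by decide +kernel))))
         (CovZ.badM (by decide +kernel)))
        (CovZ.n1 (13120, 23040) (by decide +kernel)
         (CovZ.n2 (12960, 23200) (by decide +kernel)
          (CovZ.n2 (13120, 23200) (by decide +kernel)
           (CovZ.n2 (13040, 23120) (by decide +kernel)
            (CovZ.n2 (13040, 23200) (by decide +kernel)
             (CovZ.leaf K2_ok TF_l5490 _)
             (CovZ.leaf K2_ok TF_l5491 _))
            (CovZ.n1 (13120, 23120) (by decide +kernel)
             (CovZ.leaf K2_ok TF_l5492 _)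
             (CovZ.leaf K2_ok TF_l5493 _)))
           (CovZ.n1 (13040, 23280) (by decide +kernel)
            (CovZ.badM (by decide +kernel))
            (CovZ.leaf K2_ok TF_l5497 _)))
          (CovZ.n1 (12960, 23040) (by decide +kernel)
           (CovZ.leaf K2_ok TF_l5498 _)
           (CovZ.leaf K2_ok TF_l5499 _)))
         (CovZ.n1 (13280, 23200) (by decide +kernel)
          (CovZ.n2 (13280, 23040) (by decide +kernel)
           (CovZ.n2 (13200, 23120) (by decide +kernel)
            (CovZ.n2 (13280, 23120) (by decide +kernel)
             (CovZ.leaf K2_ok TF_l5500 _)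
             (CovZ.n1 (13240, 23160) (by decide +kernel)
              (CovZ.badM (by decide +kernel))
              (CovZ.leaf K2_ok TF_l5501 _)))
            (CovZ.leaf K2_ok TF_l5502 _))
           (CovZ.n1 (13360, 23120) (by decide +kernel)
            (CovZ.n2 (13360, 23040) (by decide +kernel)
             (CovZ.n2 (13320, 23080) (by decide +kernel)
              (CovZ.n2 (13360, 23080) (by decide +kernel)
               (CovZ.leaf K2_ok TF_l13833 _)
               (CovZ.n1 (13340, 23100) (by decide +kernel)
                (CovZ.leaf K2_ok TF_l13834 _)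
                (CovZ.leaf K2_ok TF_l13835 _)))
              (CovZ.leaf K2_ok TF_l5503 _))
             (CovZ.n1 (13400, 23080) (by decide +kernel)
              (CovZ.n2 (13400, 23040) (by decide +kernel)
               (CovZ.leaf K2_ok TF_l13836 _)
               (CovZ.leaf K2_ok TF_l13837 _))
              (CovZ.leaf K2_ok TF_l13838 _)))
            (CovZ.n1 (13280, 23120) (by decide +kernel)
             (CovZ.badM (by decide +kernel))
             (CovZ.n1 (13320, 23080) (by decide +kernel)
              (CovZ.leaf K2_ok TF_l5504 _)
              (CovZ.n1 (13320, 23120) (by decide +kernel)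
               (CovZ.n2 (13340, 23100) (by decide +kernel)
                (CovZ.leaf K2_ok TF_l13839 _)
                (CovZ.leaf K2_ok TF_l13840 _))
               (CovZ.leaf K2_ok TF_l13841 _))))))
          (CovZ.n1 (13120, 23200) (by decide +kernel)
           (CovZ.badM (by decide +kernel))
           (CovZ.n1 (13200, 23120) (by decide +kernel)
            (CovZ.leaf K2_ok TF_l5507 _)
            (CovZ.n1 (13200, 23200) (by decide +kernel)
             (CovZ.n2 (13240, 23160) (by decide +kernel)
              (CovZ.leaf K2_ok TF_l5508 _)
              (CovZ.badM (by decide +kernel)))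
             (CovZ.n1 (13160, 23160) (by decide +kernel)
              (CovZ.badM (by decide +kernel))
              (CovZ.leaf K2_ok TF_l5510 _))))))))
       (CovZ.badM (by decide +kernel))))
     (CovZ.badM (by decide +kernel)))))
    (CovZ.topM TF_LL 2854495385411919762116571938898990272765493344 (by decide +kernel) (CovZ.n0 (14080, 24320) (by decide +kernel)
    (CovZ.n2 (12800, 24320) (by decide +kernel)
     (CovZ.badM (by decide +kernel))
     (CovZ.n1 (13440, 23680) (by decide +kernel)
      (CovZ.n2 (12800, 23680) (by decide +kernel)
       (CovZ.badM (by decide +kernel))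
       (CovZ.n1 (13120, 23360) (by decide +kernel)
        (CovZ.n2 (12800, 23360) (by decide +kernel)
         (CovZ.n2 (12960, 23520) (by decide +kernel)
          (CovZ.n2 (12960, 23360) (by decide +kernel)
           (CovZ.n2 (12880, 23440) (by decide +kernel)
            (CovZ.badM (by decide +kernel))
            (CovZ.leaf K2_ok TF_l5515 _))
           (CovZ.badM (by decide +kernel)))
          (CovZ.n1 (12800, 23520) (by decide +kernel)
           (CovZ.badM (by decide +kernel))
           (CovZ.n1 (12880, 23440) (by decide +kernel)
            (CovZ.leaf K2_ok TF_l5521 _)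
            (CovZ.badM (by decide +kernel)))))
         (CovZ.n1 (12960, 23200) (by decide +kernel)
          (CovZ.leaf K2_ok TF_l5525 _)
          (CovZ.n1 (12960, 23360) (by decide +kernel)
           (CovZ.n2 (13040, 23280) (by decide +kernel)
            (CovZ.leaf K2_ok TF_l5526 _)
            (CovZ.badM (by decide +kernel)))
           (CovZ.n1 (12880, 23280) (by decide +kernel)
            (CovZ.n2 (12880, 23360) (by decide +kernel)
             (CovZ.leaf K2_ok TF_l5530 _)
             (CovZ.leaf K2_ok TF_l5531 _))
            (CovZ.n1 (12960, 23280) (by decide +kernel)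
             (CovZ.leaf K2_ok TF_l5532 _)
             (CovZ.leaf K2_ok TF_l5533 _))))))
        (CovZ.badM (by decide +kernel))))
      (CovZ.badM (by decide +kernel))))
    (CovZ.badM (by decide +kernel))))

theorem TF_s9_12 : SqZ TF_M TF_L [0, 7, 4, 3] (-7680) (-7680) 2560 9 12 :=
  SqZ.mk (a := 15360) (b := 17920) (c := 23040) (d := 25600) (by norm_num) (by norm_num) (by norm_num) (by norm_num)
    (CovZ.topM TF_LL 0 (by decide +kernel) (CovZ.badM (by decide +kernel)))
    (CovZ.topM TF_LL 0 (by decide +kernel) (CovZ.badM (by decide +kernel)))

theorem TF_s10_12 : SqZ TF_M TF_L [0, 7, 4, 3] (-7680) (-7680) 2560 10 12 :=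
  SqZ.mk (a := 17920) (b := 20480) (c := 23040) (d := 25600) (by norm_num) (by norm_num) (by norm_num) (by norm_num)
    (CovZ.topM TF_LL 1267805342733140074031065595904 (by decide +kernel) (CovZ.n2 (19200, 24320) (by decide +kernel)
    (CovZ.n2 (20480, 24320) (by decide +kernel)
     (CovZ.n2 (19840, 23680) (by decide +kernel)
      (CovZ.badM (by decide +kernel))
      (CovZ.n1 (20480, 23680) (by decide +kernel)
       (CovZ.n2 (20160, 23360) (by decide +kernel)
        (CovZ.badM (by decide +kernel))
        (CovZ.badM (by decide +kernel)))
       (CovZ.badM (by decide +kernel))))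
     (CovZ.badM (by decide +kernel)))
    (CovZ.n1 (19200, 23040) (by decide +kernel)
     (CovZ.n2 (18560, 23680) (by decide +kernel)
      (CovZ.n2 (19200, 23680) (by decide +kernel)
       (CovZ.n2 (18880, 23360) (by decide +kernel)
        (CovZ.n2 (18880, 23680) (by decide +kernel)
         (CovZ.badM (by decide +kernel))
         (CovZ.n1 (18720, 23520) (by decide +kernel)
          (CovZ.n2 (18720, 23680) (by decide +kernel)
           (CovZ.badM (by decide +kernel))
           (CovZ.n1 (18640, 23600) (by decide +kernel)
            (CovZ.badM (by decide +kernel))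
            (CovZ.badM (by decide +kernel))))
          (CovZ.badM (by decide +kernel))))
        (CovZ.badM (by decide +kernel)))
       (CovZ.n1 (18880, 24000) (by decide +kernel)
        (CovZ.n2 (19200, 24000) (by decide +kernel)
         (CovZ.n2 (19040, 23840) (by decide +kernel)
          (CovZ.n2 (19040, 24000) (by decide +kernel)
           (CovZ.badM (by decide +kernel))
           (CovZ.n1 (18960, 23920) (by decide +kernel)
            (CovZ.badM (by decide +kernel))
            (CovZ.badM (by decide +kernel))))
          (CovZ.badM (by decide +kernel)))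
         (CovZ.n1 (19040, 24160) (by decide +kernel)
          (CovZ.badM (by decide +kernel))
          (CovZ.n1 (19040, 24000) (by decide +kernel)
           (CovZ.badM (by decide +kernel))
           (CovZ.badM (by decide +kernel)))))
        (CovZ.n1 (18880, 23680) (by decide +kernel)
         (CovZ.n2 (18720, 23840) (by decide +kernel)
          (CovZ.n2 (18880, 23840) (by decide +kernel)
           (CovZ.n2 (18800, 23760) (by decide +kernel)
            (CovZ.badM (by decide +kernel))
            (CovZ.badM (by decide +kernel)))
           (CovZ.badM (by decide +kernel)))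
          (CovZ.n1 (18720, 23680) (by decide +kernel)
           (CovZ.badM (by decide +kernel))
           (CovZ.n1 (18800, 23760) (by decide +kernel)
            (CovZ.badM (by decide +kernel))
            (CovZ.badM (by decide +kernel)))))
         (CovZ.n1 (19040, 23840) (by decide +kernel)
          (CovZ.badM (by decide +kernel))
          (CovZ.n1 (18880, 23840) (by decide +kernel)
           (CovZ.n2 (18960, 23920) (by decide +kernel)
            (CovZ.badM (by decide +kernel))
            (CovZ.badM (by decide +kernel)))
           (CovZ.badM (by decide +kernel)))))))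
      (CovZ.n1 (18560, 23040) (by decide +kernel)
       (CovZ.n2 (18240, 23360) (by decide +kernel)
        (CovZ.n2 (18560, 23360) (by decide +kernel)
         (CovZ.n2 (18400, 23200) (by decide +kernel)
          (CovZ.n2 (18400, 23360) (by decide +kernel)
           (CovZ.badM (by decide +kernel))
           (CovZ.n1 (18320, 23280) (by decide +kernel)
            (CovZ.badM (by decide +kernel))
            (CovZ.badM (by decide +kernel))))
          (CovZ.badM (by decide +kernel)))
         (CovZ.n1 (18400, 23520) (by decide +kernel)
          (CovZ.n2 (18560, 23520) (by decide +kernel)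
           (CovZ.n2 (18480, 23440) (by decide +kernel)
            (CovZ.badM (by decide +kernel))
            (CovZ.badM (by decide +kernel)))
           (CovZ.badM (by decide +kernel)))
          (CovZ.n1 (18400, 23360) (by decide +kernel)
           (CovZ.badM (by decide +kernel))
           (CovZ.n1 (18480, 23440) (by decide +kernel)
            (CovZ.badM (by decide +kernel))
            (CovZ.badM (by decide +kernel))))))
        (CovZ.n1 (18240, 23040) (by decide +kernel)
         (CovZ.n2 (18080, 23200) (by decide +kernel)
          (CovZ.n2 (18240, 23200) (by decide +kernel)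
           (CovZ.n2 (18160, 23120) (by decide +kernel)
            (CovZ.badM (by decide +kernel))
            (CovZ.badM (by decide +kernel)))
           (CovZ.badM (by decide +kernel)))
          (CovZ.n1 (18080, 23040) (by decide +kernel)
           (CovZ.badM (by decide +kernel))
           (CovZ.n1 (18160, 23120) (by decide +kernel)
            (CovZ.badM (by decide +kernel))
            (CovZ.badM (by decide +kernel)))))
         (CovZ.n1 (18400, 23200) (by decide +kernel)
          (CovZ.badM (by decide +kernel))
          (CovZ.n1 (18240, 23200) (by decide +kernel)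
           (CovZ.n2 (18320, 23280) (by decide +kernel)
            (CovZ.badM (by decide +kernel))
            (CovZ.badM (by decide +kernel)))
           (CovZ.badM (by decide +kernel))))))
       (CovZ.n1 (18880, 23360) (by decide +kernel)
        (CovZ.badM (by decide +kernel))
        (CovZ.n1 (18560, 23360) (by decide +kernel)
         (CovZ.n2 (18720, 23520) (by decide +kernel)
          (CovZ.badM (by decide +kernel))
          (CovZ.n1 (18560, 23520) (by decide +kernel)
           (CovZ.n2 (18640, 23600) (by decide +kernel)
            (CovZ.badM (by decide +kernel))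
            (CovZ.badM (by decide +kernel)))
           (CovZ.badM (by decide +kernel))))
         (CovZ.badM (by decide +kernel))))))
     (CovZ.n1 (19840, 23680) (by decide +kernel)
      (CovZ.n2 (19840, 23040) (by decide +kernel)
       (CovZ.badM (by decide +kernel))
       (CovZ.n1 (20160, 23360) (by decide +kernel)
        (CovZ.badM (by decide +kernel))
        (CovZ.badM (by decide +kernel))))
      (CovZ.badM (by decide +kernel))))))
    (CovZ.topM TF_LL 0 (by decide +kernel) (CovZ.badM (by decide +kernel)))

theorem TF_s11_12 : SqZ TF_M TF_L [0, 7, 4, 3] (-7680) (-7680) 2560 11 12 :=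
  SqZ.mk (a := 20480) (b := 23040) (c := 23040) (d := 25600) (by norm_num) (by norm_num) (by norm_num) (by norm_num)
    (CovZ.topM TF_LL 0 (by decide +kernel) (CovZ.badM (by decide +kernel)))
    (CovZ.topM TF_LL 1267650600228229401496703205376 (by decide +kernel) (CovZ.n0 (21760, 24320) (by decide +kernel)
    (CovZ.n2 (20480, 24320) (by decide +kernel)
     (CovZ.n2 (21120, 24960) (by decide +kernel)
      (CovZ.n2 (21120, 24320) (by decide +kernel)
       (CovZ.badM (by decide +kernel))
       (CovZ.n1 (21440, 24640) (by decide +kernel)
        (CovZ.badM (by decide +kernel))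
        (CovZ.badM (by decide +kernel))))
      (CovZ.badM (by decide +kernel)))
     (CovZ.n1 (21120, 23680) (by decide +kernel)
      (CovZ.n2 (20480, 23680) (by decide +kernel)
       (CovZ.n2 (20800, 24000) (by decide +kernel)
        (CovZ.badM (by decide +kernel))
        (CovZ.badM (by decide +kernel)))
       (CovZ.badM (by decide +kernel)))
      (CovZ.n1 (21120, 24320) (by decide +kernel)
       (CovZ.badM (by decide +kernel))
       (CovZ.n1 (20800, 24000) (by decide +kernel)
        (CovZ.badM (by decide +kernel))
        (CovZ.badM (by decide +kernel))))))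
    (CovZ.n1 (21760, 25600) (by decide +kernel)
     (CovZ.n2 (22400, 24960) (by decide +kernel)
      (CovZ.n2 (21760, 24960) (by decide +kernel)
       (CovZ.n2 (22080, 25280) (by decide +kernel)
        (CovZ.badM (by decide +kernel))
        (CovZ.badM (by decide +kernel)))
       (CovZ.badM (by decide +kernel)))
      (CovZ.n1 (22400, 25600) (by decide +kernel)
       (CovZ.badM (by decide +kernel))
       (CovZ.n1 (22080, 25280) (by decide +kernel)
        (CovZ.badM (by decide +kernel))
        (CovZ.badM (by decide +kernel)))))
     (CovZ.n1 (21120, 24960) (by decide +kernel)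
      (CovZ.badM (by decide +kernel))
      (CovZ.n1 (21760, 24960) (by decide +kernel)
       (CovZ.n2 (21440, 24640) (by decide +kernel)
        (CovZ.badM (by decide +kernel))
        (CovZ.badM (by decide +kernel)))
       (CovZ.badM (by decide +kernel)))))))

theorem TF_s12_12 : SqZ TF_M TF_L [0, 7, 4, 3] (-7680) (-7680) 2560 12 12 :=
  SqZ.mk (a := 23040) (b := 25600) (c := 23040) (d := 25600) (by norm_num) (by norm_num) (by norm_num) (by norm_num)
    (CovZ.topM TF_LL 0 (by decide +kernel) (CovZ.badM (by decide +kernel)))
    (CovZ.topM TF_LL 0 (by decide +kernel) (CovZ.badM (by decide +kernel)))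

theorem TF_s13_12 : SqZ TF_M TF_L [0, 7, 4, 3] (-7680) (-7680) 2560 13 12 :=
  SqZ.mk (a := 25600) (b := 28160) (c := 23040) (d := 25600) (by norm_num) (by norm_num) (by norm_num) (by norm_num)
    (CovZ.topM TF_LL 0 (by decide +kernel) (CovZ.badM (by decide +kernel)))
    (CovZ.topM TF_LL 0 (by decide +kernel) (CovZ.badM (by decide +kernel)))

theorem TF_s14_12 : SqZ TF_M TF_L [0, 7, 4, 3] (-7680) (-7680) 2560 14 12 :=
  SqZ.mk (a := 28160) (b := 30720) (c := 23040) (d := 25600) (by norm_num) (by norm_num) (by norm_num) (by norm_num)
    (CovZ.topM TF_LL 0 (by decide +kernel) (CovZ.badM (by decide +kernel)))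
    (CovZ.topM TF_LL 0 (by decide +kernel) (CovZ.badM (by decide +kernel)))

theorem TF_s15_12 : SqZ TF_M TF_L [0, 7, 4, 3] (-7680) (-7680) 2560 15 12 :=
  SqZ.mk (a := 30720) (b := 33280) (c := 23040) (d := 25600) (by norm_num) (by norm_num) (by norm_num) (by norm_num)
    (CovZ.topM TF_LL 0 (by decide +kernel) (CovZ.badM (by decide +kernel)))
    (CovZ.topM TF_LL 0 (by decide +kernel) (CovZ.badM (by decide +kernel)))

theorem TF_s0_13 : SqZ TF_M TF_L [0, 7, 4, 3] (-7680) (-7680) 2560 0 13 :=
  SqZ.mk (a := (-7680)) (b := (-5120)) (c := 25600) (d := 28160) (by norm_num) (by norm_num) (by norm_num) (by norm_num)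
    (CovZ.topM TF_LL 0 (by decide +kernel) (CovZ.badM (by decide +kernel)))
    (CovZ.topM TF_LL 0 (by decide +kernel) (CovZ.badM (by decide +kernel)))

theorem TF_s1_13 : SqZ TF_M TF_L [0, 7, 4, 3] (-7680) (-7680) 2560 1 13 :=
  SqZ.mk (a := (-5120)) (b := (-2560)) (c := 25600) (d := 28160) (by norm_num) (by norm_num) (by norm_num) (by norm_num)
    (CovZ.topM TF_LL 9007199254740992 (by decide +kernel) (CovZ.n2 (-3840, 26880) (by decide +kernel)
    (CovZ.badM (by decide +kernel))
    (CovZ.n1 (-3840, 25600) (by decide +kernel)
     (CovZ.badM (by decide +kernel))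
     (CovZ.badM (by decide +kernel)))))
    (CovZ.topM TF_LL 0 (by decide +kernel) (CovZ.badM (by decide +kernel)))

theorem TF_s2_13 : SqZ TF_M TF_L [0, 7, 4, 3] (-7680) (-7680) 2560 2 13 :=
  SqZ.mk (a := (-2560)) (b := 0) (c := 25600) (d := 28160) (by norm_num) (by norm_num) (by norm_num) (by norm_num)
    (CovZ.topM TF_LL 89213870311450229091418523445037408585777170 (by decide +kernel) (CovZ.n2 (-1280, 26880) (by decide +kernel)
    (CovZ.n2 (0, 26880) (by decide +kernel)
     (CovZ.n2 (-640, 26240) (by decide +kernel)
      (CovZ.n2 (-640, 26880) (by decide +kernel)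
       (CovZ.n2 (-320, 26560) (by decide +kernel)
        (CovZ.leaf K2_ok TF_l1846 _)
        (CovZ.n1 (-320, 26880) (by decide +kernel)
         (CovZ.leaf K2_ok TF_l1847 _)
         (CovZ.leaf K2_ok TF_l1848 _)))
       (CovZ.n1 (-960, 26560) (by decide +kernel)
        (CovZ.n2 (-960, 26880) (by decide +kernel)
         (CovZ.n2 (-800, 26720) (by decide +kernel)
          (CovZ.leaf K2_ok TF_l1849 _)
          (CovZ.leaf K2_ok TF_l1850 _))
         (CovZ.n1 (-1120, 26720) (by decide +kernel)
          (CovZ.n2 (-1120, 26880) (by decide +kernel)
           (CovZ.leaf K2_ok TF_l1851 _)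
           (CovZ.leaf K2_ok TF_l1852 _))
          (CovZ.n1 (-960, 26720) (by decide +kernel)
           (CovZ.leaf K2_ok TF_l1853 _)
           (CovZ.leaf K2_ok TF_l1854 _))))
        (CovZ.n1 (-640, 26560) (by decide +kernel)
         (CovZ.leaf K2_ok TF_l1855 _)
         (CovZ.n1 (-800, 26720) (by decide +kernel)
          (CovZ.leaf K2_ok TF_l1856 _)
          (CovZ.leaf K2_ok TF_l1857 _)))))
      (CovZ.n1 (0, 26240) (by decide +kernel)
       (CovZ.n2 (-320, 25920) (by decide +kernel)
        (CovZ.leaf K2_ok TF_l1858 _)
        (CovZ.leaf K2_ok TF_l1859 _))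
       (CovZ.n1 (-320, 26560) (by decide +kernel)
        (CovZ.leaf K2_ok TF_l1860 _)
        (CovZ.leaf K2_ok TF_l1861 _))))
     (CovZ.n1 (-640, 27520) (by decide +kernel)
      (CovZ.n2 (0, 27520) (by decide +kernel)
       (CovZ.n2 (-320, 27200) (by decide +kernel)
        (CovZ.n2 (-320, 27520) (by decide +kernel)
         (CovZ.n2 (-160, 27360) (by decide +kernel)
          (CovZ.leaf K2_ok TF_l1862 _)
          (CovZ.leaf K2_ok TF_l1863 _))
         (CovZ.n1 (-480, 27360) (by decide +kernel)
          (CovZ.n2 (-480, 27520) (by decide +kernel)
           (CovZ.leaf K2_ok TF_l1864 _)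
           (CovZ.leaf K2_ok TF_l1865 _))
          (CovZ.leaf K2_ok TF_l1866 _)))
        (CovZ.n1 (0, 27200) (by decide +kernel)
         (CovZ.leaf K2_ok TF_l1867 _)
         (CovZ.n1 (-160, 27360) (by decide +kernel)
          (CovZ.leaf K2_ok TF_l1868 _)
          (CovZ.leaf K2_ok TF_l1869 _))))
       (CovZ.n1 (-320, 27840) (by decide +kernel)
        (CovZ.n2 (0, 27840) (by decide +kernel)
         (CovZ.n2 (-160, 27680) (by decide +kernel)
          (CovZ.n2 (-160, 27840) (by decide +kernel)
           (CovZ.leaf K2_ok TF_l1870 _)
           (CovZ.leaf K2_ok TF_l1871 _))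
          (CovZ.leaf K2_ok TF_l1872 _))
         (CovZ.n1 (-160, 28000) (by decide +kernel)
          (CovZ.n2 (0, 28000) (by decide +kernel)
           (CovZ.leaf K2_ok TF_l1873 _)
           (CovZ.leaf K2_ok TF_l1874 _))
          (CovZ.n1 (-160, 27840) (by decide +kernel)
           (CovZ.leaf K2_ok TF_l1875 _)
           (CovZ.leaf K2_ok TF_l1876 _))))
        (CovZ.n1 (-320, 27520) (by decide +kernel)
         (CovZ.n2 (-480, 27680) (by decide +kernel)
          (CovZ.n2 (-320, 27680) (by decide +kernel)
           (CovZ.leaf K2_ok TF_l1877 _)
           (CovZ.leaf K2_ok TF_l1878 _))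
          (CovZ.n1 (-480, 27520) (by decide +kernel)
           (CovZ.leaf K2_ok TF_l1879 _)
           (CovZ.leaf K2_ok TF_l1880 _)))
         (CovZ.leaf K2_ok TF_l1881 _))))
      (CovZ.n1 (-640, 26880) (by decide +kernel)
       (CovZ.n2 (-960, 27200) (by decide +kernel)
        (CovZ.n2 (-640, 27200) (by decide +kernel)
         (CovZ.n2 (-800, 27040) (by decide +kernel)
          (CovZ.n2 (-800, 27200) (by decide +kernel)
           (CovZ.leaf K2_ok TF_l1882 _)
           (CovZ.leaf K2_ok TF_l1883 _))
          (CovZ.leaf K2_ok TF_l1884 _))
         (CovZ.n1 (-800, 27360) (by decide +kernel)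
          (CovZ.n2 (-640, 27360) (by decide +kernel)
           (CovZ.leaf K2_ok TF_l1885 _)
           (CovZ.n1 (-720, 27440) (by decide +kernel)
            (CovZ.leaf K2_ok TF_l1886 _)
            (CovZ.leaf K2_ok TF_l1887 _)))
          (CovZ.n1 (-800, 27200) (by decide +kernel)
           (CovZ.n2 (-880, 27280) (by decide +kernel)
            (CovZ.leaf K2_ok TF_l1888 _)
            (CovZ.leaf K2_ok TF_l1889 _))
           (CovZ.leaf K2_ok TF_l1890 _))))
        (CovZ.n1 (-960, 26880) (by decide +kernel)
         (CovZ.subM 89213870228372766296562940435552587476893714 (by decide +kernel)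
          (CovZ.n2 (-1120, 27040) (by decide +kernel)
           (CovZ.n2 (-960, 27040) (by decide +kernel)
            (CovZ.leaf K2_ok TF_l1891 _)
            (CovZ.n1 (-1040, 27120) (by decide +kernel)
             (CovZ.leaf K2_ok TF_l1892 _)
             (CovZ.leaf K2_ok TF_l1893 _)))
           (CovZ.n1 (-1120, 26880) (by decide +kernel)
            (CovZ.n2 (-1200, 26960) (by decide +kernel)
             (CovZ.leaf K2_ok TF_l1894 _)
             (CovZ.leaf K2_ok TF_l1895 _))
            (CovZ.leaf K2_ok TF_l1896 _))))
         (CovZ.leaf K2_ok TF_l1897 _)))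
       (CovZ.n1 (-320, 27200) (by decide +kernel)
        (CovZ.n2 (-320, 26880) (by decide +kernel)
         (CovZ.n2 (-480, 27040) (by decide +kernel)
          (CovZ.leaf K2_ok TF_l1898 _)
          (CovZ.leaf K2_ok TF_l1899 _))
         (CovZ.leaf K2_ok TF_l1900 _))
        (CovZ.n1 (-640, 27200) (by decide +kernel)
         (CovZ.leaf K2_ok TF_l1901 _)
         (CovZ.n1 (-480, 27040) (by decide +kernel)
          (CovZ.leaf K2_ok TF_l1902 _)
          (CovZ.leaf K2_ok TF_l1903 _)))))))
    (CovZ.n1 (-1280, 25600) (by decide +kernel)
     (CovZ.n2 (-1920, 26240) (by decide +kernel)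
      TF_u148
      TF_u149)
     (CovZ.n1 (-640, 26240) (by decide +kernel)
      (CovZ.n2 (-640, 25600) (by decide +kernel)
       (CovZ.n2 (-960, 25920) (by decide +kernel)
        (CovZ.leaf K2_ok TF_l2032 _)
        (CovZ.leaf K2_ok TF_l2033 _))
       (CovZ.leaf K2_ok TF_l2034 _))
      (CovZ.n1 (-1280, 26240) (by decide +kernel)
       (CovZ.n2 (-960, 26560) (by decide +kernel)
        (CovZ.n2 (-960, 26240) (by decide +kernel)
         (CovZ.n2 (-1120, 26400) (by decide +kernel)
          (CovZ.leaf K2_ok TF_l2035 _)
          (CovZ.leaf K2_ok TF_l2036 _))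
         (CovZ.leaf K2_ok TF_l2037 _))
        (CovZ.n1 (-1280, 26560) (by decide +kernel)
         (CovZ.leaf K2_ok TF_l2038 _)
         (CovZ.n1 (-1120, 26400) (by decide +kernel)
          (CovZ.leaf K2_ok TF_l2039 _)
          (CovZ.n1 (-1120, 26560) (by decide +kernel)
           (CovZ.leaf K2_ok TF_l2040 _)
           (CovZ.leaf K2_ok TF_l2041 _)))))
       (CovZ.n1 (-960, 25920) (by decide +kernel)
        (CovZ.leaf K2_ok TF_l2042 _)
        (CovZ.n1 (-960, 26240) (by decide +kernel)
         (CovZ.leaf K2_ok TF_l2043 _)
         (CovZ.leaf K2_ok TF_l2044 _))))))))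
    (CovZ.topM TF_LL 89213870308854080662151109630772160421167122 (by decide +kernel) (CovZ.n0 (-1280, 26880) (by decide +kernel)
    TF_u156
    TF_u157))

theorem TF_s3_13 : SqZ TF_M TF_L [0, 7, 4, 3] (-7680) (-7680) 2560 3 13 :=
  SqZ.mk (a := 0) (b := 2560) (c := 25600) (d := 28160) (by norm_num) (by norm_num) (by norm_num) (by norm_num)
    (CovZ.topM TF_LL 76223649024565760269695856429643928241170 (by decide +kernel) (CovZ.n2 (1280, 26880) (by decide +kernel)
    (CovZ.subM 324838019564546400085256159953922 (by decide +kernel)
     (CovZ.n2 (2560, 26880) (by decide +kernel)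
      (CovZ.n2 (1920, 26240) (by decide +kernel)
       (CovZ.subM 77371252455336267248304128 (by decide +kernel)
        (CovZ.n2 (1920, 26880) (by decide +kernel)
         (CovZ.n2 (2240, 26560) (by decide +kernel)
          (CovZ.n2 (1920, 26560) (by decide +kernel)
           (CovZ.n2 (2080, 26720) (by decide +kernel)
            (CovZ.n2 (2080, 26560) (by decide +kernel)
             (CovZ.badM (by decide +kernel))
             (CovZ.badM (by decide +kernel)))
            (CovZ.badM (by decide +kernel)))
           (CovZ.n1 (2080, 26400) (by decide +kernel)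
            (CovZ.badM (by decide +kernel))
            (CovZ.n1 (2080, 26560) (by decide +kernel)
             (CovZ.badM (by decide +kernel))
             (CovZ.badM (by decide +kernel)))))
          (CovZ.n1 (2240, 26880) (by decide +kernel)
           (CovZ.badM (by decide +kernel))
           (CovZ.n1 (2080, 26720) (by decide +kernel)
            (CovZ.badM (by decide +kernel))
            (CovZ.badM (by decide +kernel)))))
         (CovZ.n1 (1600, 26560) (by decide +kernel)
          (CovZ.badM (by decide +kernel))
          (CovZ.n1 (1920, 26560) (by decide +kernel)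
           (CovZ.n2 (1760, 26400) (by decide +kernel)
            (CovZ.n2 (1760, 26560) (by decide +kernel)
             (CovZ.badM (by decide +kernel))
             (CovZ.n1 (1680, 26480) (by decide +kernel)
              (CovZ.n2 (1680, 26560) (by decide +kernel)
               (CovZ.n2 (1720, 26520) (by decide +kernel)
                (CovZ.leaf K2_ok TF_l12264 _)
                (CovZ.n1 (1720, 26560) (by decide +kernel)
                 (CovZ.badM (by decide +kernel))
                 (CovZ.leaf K2_ok TF_l12265 _)))
               (CovZ.leaf K2_ok TF_l3496 _))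
              (CovZ.n1 (1760, 26480) (by decide +kernel)
               (CovZ.leaf K2_ok TF_l12266 _)
               (CovZ.n1 (1720, 26520) (by decide +kernel)
                (CovZ.badM (by decide +kernel))
                (CovZ.leaf K2_ok TF_l12267 _)))))
            (CovZ.badM (by decide +kernel)))
           (CovZ.n1 (1760, 26720) (by decide +kernel)
            (CovZ.badM (by decide +kernel))
            (CovZ.n1 (1760, 26560) (by decide +kernel)
             (CovZ.n2 (1680, 26640) (by decide +kernel)
              (CovZ.n2 (1760, 26640) (by decide +kernel)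
               (CovZ.n2 (1720, 26600) (by decide +kernel)
                (CovZ.n2 (1720, 26640) (by decide +kernel)
                 (CovZ.badM (by decide +kernel))
                 (CovZ.n1 (1700, 26620) (by decide +kernel)
                  (CovZ.n2 (1700, 26640) (by decide +kernel)
                   (CovZ.badM (by decide +kernel))
                   (CovZ.leaf K2_ok TF_l12268 _))
                  (CovZ.badM (by decide +kernel))))
                (CovZ.badM (by decide +kernel)))
               (CovZ.n1 (1720, 26680) (by decide +kernel)
                (CovZ.badM (by decide +kernel))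
                (CovZ.n1 (1720, 26640) (by decide +kernel)
                 (CovZ.n2 (1700, 26660) (by decide +kernel)
                  (CovZ.badM (by decide +kernel))
                  (CovZ.leaf K2_ok TF_l12269 _))
                 (CovZ.badM (by decide +kernel)))))
              (CovZ.n1 (1680, 26560) (by decide +kernel)
               (CovZ.n2 (1640, 26600) (by decide +kernel)
                (CovZ.n2 (1680, 26600) (by decide +kernel)
                 (CovZ.leaf K2_ok TF_l3497 _)
                 (CovZ.leaf K2_ok TF_l3498 _))
                (CovZ.leaf K2_ok TF_l3499 _))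
               (CovZ.n1 (1720, 26600) (by decide +kernel)
                (CovZ.n2 (1720, 26560) (by decide +kernel)
                 (CovZ.leaf K2_ok TF_l12270 _)
                 (CovZ.badM (by decide +kernel)))
                (CovZ.n1 (1680, 26600) (by decide +kernel)
                 (CovZ.leaf K2_ok TF_l3500 _)
                 (CovZ.leaf K2_ok TF_l3501 _)))))
             (CovZ.badM (by decide +kernel))))))))
       (CovZ.n1 (2560, 26240) (by decide +kernel)
        (CovZ.n2 (2240, 25920) (by decide +kernel)
         TF_u158
         TF_u159)
        (CovZ.subM 324518631029679182119423201837056 (by decide +kernel)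
         (CovZ.n1 (2240, 26560) (by decide +kernel)
          (CovZ.badM (by decide +kernel))
          (CovZ.n1 (2240, 26240) (by decide +kernel)
           (CovZ.n2 (2080, 26400) (by decide +kernel)
            (CovZ.badM (by decide +kernel))
            (CovZ.n1 (2080, 26240) (by decide +kernel)
             (CovZ.n2 (2000, 26320) (by decide +kernel)
              (CovZ.n2 (2080, 26320) (by decide +kernel)
               (CovZ.n2 (2040, 26280) (by decide +kernel)
                (CovZ.badM (by decide +kernel))
                (CovZ.badM (by decide +kernel)))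
               (CovZ.badM (by decide +kernel)))
              (CovZ.n1 (2000, 26240) (by decide +kernel)
               (CovZ.badM (by decide +kernel))
               (CovZ.n1 (2040, 26280) (by decide +kernel)
                (CovZ.n2 (2040, 26240) (by decide +kernel)
                 (CovZ.badM (by decide +kernel))
                 (CovZ.badM (by decide +kernel)))
                (CovZ.badM (by decide +kernel)))))
             (CovZ.n1 (2160, 26320) (by decide +kernel)
              (CovZ.n2 (2160, 26240) (by decide +kernel)
               (CovZ.n2 (2120, 26280) (by decide +kernel)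
                (CovZ.badM (by decide +kernel))
                (CovZ.n1 (2120, 26240) (by decide +kernel)
                 (CovZ.badM (by decide +kernel))
                 (CovZ.badM (by decide +kernel))))
               (CovZ.badM (by decide +kernel)))
              (CovZ.badM (by decide +kernel)))))
           (CovZ.badM (by decide +kernel)))))))
      (CovZ.subM 77371252455336267248304128 (by decide +kernel)
       (CovZ.n1 (1920, 27520) (by decide +kernel)
        (CovZ.badM (by decide +kernel))
        (CovZ.n1 (1920, 26880) (by decide +kernel)
         (CovZ.badM (by decide +kernel))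
         (CovZ.n1 (2240, 27200) (by decide +kernel)
          (CovZ.n2 (2240, 26880) (by decide +kernel)
           (CovZ.badM (by decide +kernel))
           (CovZ.badM (by decide +kernel)))
          (CovZ.badM (by decide +kernel))))))))
    (CovZ.n1 (1280, 25600) (by decide +kernel)
     (CovZ.n2 (640, 26240) (by decide +kernel)
      (CovZ.n2 (1280, 26240) (by decide +kernel)
       (CovZ.n2 (960, 25920) (by decide +kernel)
        (CovZ.leaf K2_ok TF_l3537 _)
        (CovZ.leaf K2_ok TF_l3538 _))
       (CovZ.subM 76223648699727740705149384286793597190162 (by decide +kernel)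
        (CovZ.n1 (960, 26560) (by decide +kernel)
         (CovZ.n2 (1280, 26560) (by decide +kernel)
          (CovZ.leaf K2_ok TF_l3539 _)
          (CovZ.n1 (1120, 26720) (by decide +kernel)
           (CovZ.n2 (1280, 26720) (by decide +kernel)
            (CovZ.leaf K2_ok TF_l3540 _)
            (CovZ.leaf K2_ok TF_l3541 _))
           (CovZ.leaf K2_ok TF_l3542 _)))
         (CovZ.leaf K2_ok TF_l3543 _))))
      (CovZ.leaf K2_ok TF_l3544 _))
     (CovZ.n1 (1920, 26240) (by decide +kernel)
      (CovZ.n2 (1920, 25600) (by decide +kernel)
       (CovZ.n2 (1600, 25920) (by decide +kernel)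
        (CovZ.subM 65334216072363691232004325233789741630482 (by decide +kernel)
         (CovZ.n2 (1920, 25920) (by decide +kernel)
          (CovZ.leaf K2_ok TF_l3545 _)
          (CovZ.n1 (1760, 26080) (by decide +kernel)
           (CovZ.n2 (1920, 26080) (by decide +kernel)
            (CovZ.leaf K2_ok TF_l3546 _)
            (CovZ.n1 (1840, 26160) (by decide +kernel)
             (CovZ.leaf K2_ok TF_l3547 _)
             (CovZ.leaf K2_ok TF_l3548 _)))
           (CovZ.leaf K2_ok TF_l3549 _))))
        (CovZ.leaf K2_ok TF_l3550 _))
       (CovZ.n1 (2240, 25920) (by decide +kernel)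
        (CovZ.n2 (2240, 25600) (by decide +kernel)
         (CovZ.subM 65334216072366244483335351330602358998034 (by decide +kernel)
          (CovZ.n2 (2080, 25760) (by decide +kernel)
           (CovZ.n2 (2240, 25760) (by decide +kernel)
            (CovZ.leaf K2_ok TF_l3551 _)
            (CovZ.n1 (2160, 25840) (by decide +kernel)
             (CovZ.leaf K2_ok TF_l3552 _)
             (CovZ.leaf K2_ok TF_l3553 _)))
           (CovZ.leaf K2_ok TF_l3554 _)))
         (CovZ.subM 65334216072366167112082891209258694673426 (by decide +kernel)
          (CovZ.n1 (2400, 25760) (by decide +kernel)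
           (CovZ.n2 (2400, 25600) (by decide +kernel)
            (CovZ.n2 (2320, 25680) (by decide +kernel)
             (CovZ.leaf K2_ok TF_l3555 _)
             (CovZ.leaf K2_ok TF_l3556 _))
            (CovZ.leaf K2_ok TF_l3557 _))
           (CovZ.n1 (2240, 25760) (by decide +kernel)
            (CovZ.leaf K2_ok TF_l3558 _)
            (CovZ.n1 (2320, 25680) (by decide +kernel)
             (CovZ.leaf K2_ok TF_l3559 _)
             (CovZ.leaf K2_ok TF_l3560 _))))))
        (CovZ.subM 65334216072363768603256780570052560749586 (by decide +kernel)
         (CovZ.n1 (1920, 25920) (by decide +kernel)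
          (CovZ.n2 (2080, 26080) (by decide +kernel)
           (CovZ.n2 (2080, 25920) (by decide +kernel)
            (CovZ.n2 (2000, 26000) (by decide +kernel)
             (CovZ.leaf K2_ok TF_l3561 _)
             (CovZ.leaf K2_ok TF_l3562 _))
            (CovZ.leaf K2_ok TF_l3563 _))
           (CovZ.n1 (1920, 26080) (by decide +kernel)
            (CovZ.leaf K2_ok TF_l3564 _)
            (CovZ.n1 (2000, 26000) (by decide +kernel)
             (CovZ.leaf K2_ok TF_l3565 _)
             (CovZ.leaf K2_ok TF_l3566 _))))
          (CovZ.n1 (2080, 25760) (by decide +kernel)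
           (CovZ.leaf K2_ok TF_l3567 _)
           (CovZ.n1 (2080, 25920) (by decide +kernel)
            (CovZ.n2 (2160, 25840) (by decide +kernel)
             (CovZ.leaf K2_ok TF_l3568 _)
             (CovZ.leaf K2_ok TF_l3569 _))
            (CovZ.leaf K2_ok TF_l3570 _)))))))
      (CovZ.subM 65334610362406386220477366768352594296850 (by decide +kernel)
       (CovZ.n1 (1280, 26240) (by decide +kernel)
        (CovZ.n2 (1600, 26560) (by decide +kernel)
         (CovZ.n2 (1600, 26240) (by decide +kernel)
          (CovZ.n2 (1440, 26400) (by decide +kernel)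
           (CovZ.n2 (1600, 26400) (by decide +kernel)
            (CovZ.leaf K2_ok TF_l3571 _)
            (CovZ.n1 (1520, 26480) (by decide +kernel)
             (CovZ.leaf K2_ok TF_l3572 _)
             (CovZ.leaf K2_ok TF_l3573 _)))
           (CovZ.leaf K2_ok TF_l3574 _))
          (CovZ.subM 65334215747528224923511317728216246910994 (by decide +kernel)
           (CovZ.n1 (1760, 26400) (by decide +kernel)
            (CovZ.n2 (1760, 26240) (by decide +kernel)
             (CovZ.n2 (1680, 26320) (by decide +kernel)
              (CovZ.leaf K2_ok TF_l3575 _)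
              (CovZ.leaf K2_ok TF_l3576 _))
             (CovZ.leaf K2_ok TF_l3577 _))
            (CovZ.n1 (1600, 26400) (by decide +kernel)
             (CovZ.leaf K2_ok TF_l3578 _)
             (CovZ.n1 (1680, 26320) (by decide +kernel)
              (CovZ.leaf K2_ok TF_l3579 _)
              (CovZ.leaf K2_ok TF_l3580 _))))))
         (CovZ.n1 (1280, 26560) (by decide +kernel)
          (CovZ.n2 (1440, 26720) (by decide +kernel)
           (CovZ.n2 (1440, 26560) (by decide +kernel)
            (CovZ.n2 (1360, 26640) (by decide +kernel)
             (CovZ.leaf K2_ok TF_l3581 _)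
             (CovZ.leaf K2_ok TF_l3582 _))
            (CovZ.leaf K2_ok TF_l3583 _))
           (CovZ.n1 (1280, 26720) (by decide +kernel)
            (CovZ.leaf K2_ok TF_l3584 _)
            (CovZ.n1 (1360, 26640) (by decide +kernel)
             (CovZ.leaf K2_ok TF_l3585 _)
             (CovZ.leaf K2_ok TF_l3586 _))))
          (CovZ.n1 (1440, 26400) (by decide +kernel)
           (CovZ.leaf K2_ok TF_l3587 _)
           (CovZ.n1 (1440, 26560) (by decide +kernel)
            (CovZ.n2 (1520, 26480) (by decide +kernel)
             (CovZ.leaf K2_ok TF_l3588 _)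
             (CovZ.leaf K2_ok TF_l3589 _))
            (CovZ.leaf K2_ok TF_l3590 _)))))
        (CovZ.n1 (1600, 25920) (by decide +kernel)
         (CovZ.leaf K2_ok TF_l3591 _)
         (CovZ.n1 (1600, 26240) (by decide +kernel)
          (CovZ.n2 (1760, 26080) (by decide +kernel)
           (CovZ.leaf K2_ok TF_l3592 _)
           (CovZ.n1 (1760, 26240) (by decide +kernel)
            (CovZ.n2 (1840, 26160) (by decide +kernel)
             (CovZ.leaf K2_ok TF_l3593 _)
             (CovZ.leaf K2_ok TF_l3594 _))
            (CovZ.leaf K2_ok TF_l3595 _)))
          (CovZ.leaf K2_ok TF_l3596 _)))))))))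
    (CovZ.topM TF_LL 89279204442822537296869341283066897929601042 (by decide +kernel) (CovZ.n0 (1280, 26880) (by decide +kernel)
    (CovZ.n2 (0, 26880) (by decide +kernel)
     (CovZ.n2 (640, 27520) (by decide +kernel)
      (CovZ.n2 (640, 26880) (by decide +kernel)
       (CovZ.n2 (320, 27200) (by decide +kernel)
        (CovZ.n2 (640, 27200) (by decide +kernel)
         (CovZ.leaf K2_ok TF_l3597 _)
         (CovZ.n1 (480, 27360) (by decide +kernel)
          (CovZ.leaf K2_ok TF_l3598 _)
          (CovZ.leaf K2_ok TF_l3599 _)))
        (CovZ.leaf K2_ok TF_l3600 _))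
       (CovZ.n1 (960, 27200) (by decide +kernel)
        (CovZ.n2 (960, 26880) (by decide +kernel)
         (CovZ.n2 (800, 27040) (by decide +kernel)
          (CovZ.n2 (960, 27040) (by decide +kernel)
           (CovZ.leaf K2_ok TF_l3601 _)
           (CovZ.leaf K2_ok TF_l3602 _))
          (CovZ.leaf K2_ok TF_l3603 _))
         (CovZ.n1 (1120, 27040) (by decide +kernel)
          (CovZ.leaf K2_ok TF_l3604 _)
          (CovZ.n1 (960, 27040) (by decide +kernel)
           (CovZ.leaf K2_ok TF_l3605 _)
           (CovZ.leaf K2_ok TF_l3606 _))))
        (CovZ.n1 (640, 27200) (by decide +kernel)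
         (CovZ.leaf K2_ok TF_l3607 _)
         (CovZ.n1 (800, 27040) (by decide +kernel)
          (CovZ.leaf K2_ok TF_l3608 _)
          (CovZ.leaf K2_ok TF_l3609 _)))))
      (CovZ.n1 (0, 27520) (by decide +kernel)
       (CovZ.n2 (320, 27840) (by decide +kernel)
        (CovZ.n2 (320, 27520) (by decide +kernel)
         (CovZ.n2 (160, 27680) (by decide +kernel)
          (CovZ.leaf K2_ok TF_l3610 _)
          (CovZ.leaf K2_ok TF_l3611 _))
         (CovZ.leaf K2_ok TF_l3612 _))
        (CovZ.n1 (0, 27840) (by decide +kernel)
         (CovZ.leaf K2_ok TF_l3613 _)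
         (CovZ.n1 (160, 27680) (by decide +kernel)
          (CovZ.leaf K2_ok TF_l3614 _)
          (CovZ.leaf K2_ok TF_l3615 _))))
       (CovZ.n1 (320, 27200) (by decide +kernel)
        (CovZ.leaf K2_ok TF_l3616 _)
        (CovZ.n1 (320, 27520) (by decide +kernel)
         (CovZ.n2 (480, 27360) (by decide +kernel)
          (CovZ.leaf K2_ok TF_l3617 _)
          (CovZ.leaf K2_ok TF_l3618 _))
         (CovZ.leaf K2_ok TF_l3619 _)))))
     (CovZ.n1 (640, 26240) (by decide +kernel)
      (CovZ.leaf K2_ok TF_l3620 _)
      (CovZ.n1 (640, 26880) (by decide +kernel)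
       (CovZ.n2 (960, 26560) (by decide +kernel)
        (CovZ.leaf K2_ok TF_l3621 _)
        (CovZ.n1 (960, 26880) (by decide +kernel)
         (CovZ.n2 (1120, 26720) (by decide +kernel)
          (CovZ.leaf K2_ok TF_l3622 _)
          (CovZ.n1 (1120, 26880) (by decide +kernel)
           (CovZ.leaf K2_ok TF_l3623 _)
           (CovZ.leaf K2_ok TF_l3624 _)))
         (CovZ.leaf K2_ok TF_l3625 _)))
       (CovZ.leaf K2_ok TF_l3626 _))))
    (CovZ.n1 (1280, 28160) (by decide +kernel)
     (CovZ.subM 89202980794122492643514125545929713205116928 (by decide +kernel)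
      (CovZ.n2 (1920, 27520) (by decide +kernel)
       (CovZ.n2 (1280, 27520) (by decide +kernel)
        (CovZ.badM (by decide +kernel))
        (CovZ.badM (by decide +kernel)))
       (CovZ.n1 (1920, 28160) (by decide +kernel)
        (CovZ.badM (by decide +kernel))
        (CovZ.badM (by decide +kernel)))))
     (CovZ.n1 (640, 27520) (by decide +kernel)
      TF_u160
      TF_u161))))

end Pool.Agent.TET
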