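import Pool.Agent.Helper38_TET.TF_M
import Pool.Agent.Helper38_TET.TF_L
import Pool.Agent.Helper38_TET.TF_15
import Pool.Agent.Helper38_TET.TF_25
import Pool.Agent.Helper38_TET.TF_26
import Pool.Agent.Helper38_TET.TF_74
import Pool.Agent.Helper38_TET.TF_83
import Pool.Agent.Helper38_TET.TF_84
import Pool.Agent.Helper38_TET.TF_85

/-!
# MP_c7c9bf_co: certificates, family TF
-/

set_option autoImplicit false
set_option maxRecDepth 100000

namespace Pool.Agent.TET

theorem TF_u163 : CovZ TF_M (toL (selN TF_LN 4835998426363696186392576)) [0, 7, 4, 3] (0, 30080) (0, 30720) (-640, 30080) :=
    (CovZ.n1 (-320, 30400) (by decide +kernel)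
         (CovZ.n2 (0, 30400) (by decide +kernel)
          (CovZ.n2 (-160, 30240) (by decide +kernel)
           (CovZ.n2 (-160, 30400) (by decide +kernel)
            (CovZ.leaf K2_ok TF_l11049 _)
            (CovZ.n1 (-240, 30320) (by decide +kernel)
             (CovZ.leaf K2_ok TF_l11050 _)
             (CovZ.leaf K2_ok TF_l11051 _)))
           (CovZ.n1 (0, 30240) (by decide +kernel)
            (CovZ.leaf K2_ok TF_l11052 _)
            (CovZ.leaf K2_ok TF_l11053 _)))
          (CovZ.n1 (-160, 30560) (by decide +kernel)
           (CovZ.n2 (0, 30560) (by decide +kernel)
            (CovZ.leaf K2_ok TF_l11054 _)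
            (CovZ.leaf K2_ok TF_l11055 _))
           (CovZ.n1 (-160, 30400) (by decide +kernel)
            (CovZ.n2 (-240, 30480) (by decide +kernel)
             (CovZ.leaf K2_ok TF_l11056 _)
             (CovZ.leaf K2_ok TF_l11057 _))
            (CovZ.leaf K2_ok TF_l11058 _))))
         (CovZ.n1 (-320, 30080) (by decide +kernel)
          (CovZ.n2 (-480, 30240) (by decide +kernel)
           (CovZ.n2 (-320, 30240) (by decide +kernel)
            (CovZ.n2 (-400, 30160) (by decide +kernel)
             (CovZ.n2 (-400, 30240) (by decide +kernel)
              (CovZ.n2 (-360, 30200) (by decide +kernel)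
               (CovZ.leaf K2_ok TF_l11059 _)
               (CovZ.leaf K2_ok TF_l11060 _))
              (CovZ.n1 (-440, 30200) (by decide +kernel)
               (CovZ.n2 (-440, 30240) (by decide +kernel)
                (CovZ.leaf K2_ok TF_l11061 _)
                (CovZ.leaf K2_ok TF_l11062 _))
               (CovZ.n1 (-400, 30200) (by decide +kernel)
                (CovZ.leaf K2_ok TF_l11063 _)
                (CovZ.leaf K2_ok TF_l11064 _))))
             (CovZ.n1 (-320, 30160) (by decide +kernel)
              (CovZ.n2 (-360, 30120) (by decide +kernel)
               (CovZ.leaf K2_ok TF_l11065 _)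
               (CovZ.leaf K2_ok TF_l11066 _))
              (CovZ.n1 (-360, 30200) (by decide +kernel)
               (CovZ.leaf K2_ok TF_l11067 _)
               (CovZ.leaf K2_ok TF_l11068 _))))
            (CovZ.n1 (-400, 30320) (by decide +kernel)
             (CovZ.n2 (-320, 30320) (by decide +kernel)
              (CovZ.leaf K2_ok TF_l11069 _)
              (CovZ.leaf K2_ok TF_l11070 _))
             (CovZ.n1 (-400, 30240) (by decide +kernel)
              (CovZ.n2 (-440, 30280) (by decide +kernel)
               (CovZ.leaf K2_ok TF_l11071 _)
               (CovZ.leaf K2_ok TF_l11072 _))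
              (CovZ.leaf K2_ok TF_l11073 _))))
           (CovZ.n1 (-480, 30080) (by decide +kernel)
            (CovZ.n2 (-560, 30160) (by decide +kernel)
             (CovZ.n2 (-480, 30160) (by decide +kernel)
              (CovZ.n2 (-520, 30120) (by decide +kernel)
               (CovZ.badM (by decide +kernel))
               (CovZ.n1 (-480, 30120) (by decide +kernel)
                (CovZ.n2 (-500, 30100) (by decide +kernel)
                 (CovZ.badM (by decide +kernel))
                 (CovZ.n1 (-480, 30100) (by decide +kernel)
                  (CovZ.leaf K2_ok TF_l11074 _)
                  (CovZ.badM (by decide +kernel))))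
                (CovZ.badM (by decide +kernel))))
              (CovZ.badM (by decide +kernel)))
             (CovZ.n1 (-560, 30080) (by decide +kernel)
              (CovZ.badM (by decide +kernel))
              (CovZ.n1 (-520, 30120) (by decide +kernel)
               (CovZ.n2 (-520, 30080) (by decide +kernel)
                (CovZ.badM (by decide +kernel))
                (CovZ.n1 (-500, 30100) (by decide +kernel)
                 (CovZ.n2 (-500, 30080) (by decide +kernel)
                  (CovZ.badM (by decide +kernel))
                  (CovZ.leaf K2_ok TF_l11075 _))
                 (CovZ.badM (by decide +kernel))))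
               (CovZ.badM (by decide +kernel)))))
            (CovZ.n1 (-400, 30160) (by decide +kernel)
             (CovZ.n2 (-400, 30080) (by decide +kernel)
              (CovZ.n2 (-440, 30120) (by decide +kernel)
               (CovZ.n2 (-400, 30120) (by decide +kernel)
                (CovZ.leaf K2_ok TF_l2297 _)
                (CovZ.leaf K2_ok TF_l11076 _))
               (CovZ.n1 (-440, 30080) (by decide +kernel)
                (CovZ.n2 (-460, 30100) (by decide +kernel)
                 (CovZ.leaf K2_ok TF_l11077 _)
                 (CovZ.leaf K2_ok TF_l11078 _))
                (CovZ.leaf K2_ok TF_l2298 _)))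
              (CovZ.leaf K2_ok TF_l2299 _))
             (CovZ.n1 (-480, 30160) (by decide +kernel)
              (CovZ.n2 (-440, 30200) (by decide +kernel)
               (CovZ.n2 (-440, 30160) (by decide +kernel)
                (CovZ.n2 (-460, 30180) (by decide +kernel)
                 (CovZ.leaf K2_ok TF_l11079 _)
                 (CovZ.leaf K2_ok TF_l11080 _))
                (CovZ.leaf K2_ok TF_l11081 _))
               (CovZ.n1 (-480, 30200) (by decide +kernel)
                (CovZ.leaf K2_ok TF_l11082 _)
                (CovZ.n1 (-460, 30180) (by decide +kernel)
                 (CovZ.leaf K2_ok TF_l11083 _)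
                 (CovZ.leaf K2_ok TF_l11084 _))))
              (CovZ.n1 (-440, 30120) (by decide +kernel)
               (CovZ.n2 (-480, 30120) (by decide +kernel)
                (CovZ.leaf K2_ok TF_l11085 _)
                (CovZ.n1 (-460, 30100) (by decide +kernel)
                 (CovZ.leaf K2_ok TF_l11086 _)
                 (CovZ.leaf K2_ok TF_l11087 _)))
               (CovZ.n1 (-440, 30160) (by decide +kernel)
                (CovZ.leaf K2_ok TF_l11088 _)
                (CovZ.n1 (-460, 30140) (by decide +kernel)
                 (CovZ.leaf K2_ok TF_l11089 _)
                 (CovZ.leaf K2_ok TF_l11090 _))))))))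
          (CovZ.n1 (-160, 30240) (by decide +kernel)
           (CovZ.n2 (-160, 30080) (by decide +kernel)
            (CovZ.n2 (-240, 30160) (by decide +kernel)
             (CovZ.leaf K2_ok TF_l11091 _)
             (CovZ.leaf K2_ok TF_l11092 _))
            (CovZ.leaf K2_ok TF_l11093 _))
           (CovZ.n1 (-320, 30240) (by decide +kernel)
            (CovZ.leaf K2_ok TF_l11094 _)
            (CovZ.n1 (-240, 30160) (by decide +kernel)
             (CovZ.n2 (-320, 30160) (by decide +kernel)
              (CovZ.leaf K2_ok TF_l11095 _)
              (CovZ.leaf K2_ok TF_l11096 _))
             (CovZ.n1 (-240, 30240) (by decide +kernel)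
              (CovZ.leaf K2_ok TF_l11097 _)
              (CovZ.leaf K2_ok TF_l11098 _)))))))

theorem TF_u164 : CovZ TF_M (toL (selN TF_LN 54445575918713541781038957685189454069760)) [0, 7, 4, 3] (640, 28160) (1280, 28160) (640, 28800) :=
    (CovZ.n1 (960, 28480) (by decide +kernel)
        (CovZ.n2 (960, 28160) (by decide +kernel)
         (CovZ.n2 (800, 28320) (by decide +kernel)
          (CovZ.subM 10889038337638267139460664794107670429696 (by decide +kernel)
           (CovZ.n2 (960, 28320) (by decide +kernel)
            (CovZ.n2 (880, 28240) (by decide +kernel)
             (CovZ.n2 (880, 28320) (by decide +kernel)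
              (CovZ.n2 (920, 28280) (by decide +kernel)
               (CovZ.n2 (880, 28280) (by decide +kernel)
                (CovZ.leaf K2_ok TF_l12395 _)
                (CovZ.n1 (900, 28260) (by decide +kernel)
                 (CovZ.leaf K2_ok TF_l12396 _)
                 (CovZ.leaf K2_ok TF_l12397 _)))
               (CovZ.n1 (920, 28320) (by decide +kernel)
                (CovZ.n2 (940, 28300) (by decide +kernel)
                 (CovZ.leaf K2_ok TF_l12398 _)
                 (CovZ.n1 (940, 28320) (by decide +kernel)
                  (CovZ.leaf K2_ok TF_l12399 _)
                  (CovZ.leaf K2_ok TF_l12400 _)))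
                (CovZ.leaf K2_ok TF_l12401 _)))
              (CovZ.n1 (840, 28280) (by decide +kernel)
               (CovZ.n2 (840, 28320) (by decide +kernel)
                (CovZ.leaf K2_ok TF_l3835 _)
                (CovZ.leaf K2_ok TF_l3836 _))
               (CovZ.n1 (880, 28280) (by decide +kernel)
                (CovZ.leaf K2_ok TF_l3837 _)
                (CovZ.leaf K2_ok TF_l3838 _))))
             (CovZ.n1 (960, 28240) (by decide +kernel)
              (CovZ.n2 (920, 28200) (by decide +kernel)
               (CovZ.n2 (920, 28240) (by decide +kernel)
                (CovZ.badM (by decide +kernel))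
                (CovZ.leaf K2_ok TF_l12402 _))
               (CovZ.badM (by decide +kernel)))
              (CovZ.n1 (920, 28280) (by decide +kernel)
               (CovZ.subM 1196268651020288 (by decide +kernel)
                (CovZ.n2 (960, 28280) (by decide +kernel)
                 (CovZ.n2 (940, 28260) (by decide +kernel)
                  (CovZ.n2 (940, 28280) (by decide +kernel)
                   (CovZ.badM (by decide +kernel))
                   (CovZ.leaf K2_ok TF_l12403 _))
                  (CovZ.badM (by decide +kernel)))
                 (CovZ.n1 (940, 28300) (by decide +kernel)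
                  (CovZ.badM (by decide +kernel))
                  (CovZ.leaf K2_ok TF_l12404 _))))
               (CovZ.n1 (920, 28240) (by decide +kernel)
                (CovZ.n2 (900, 28260) (by decide +kernel)
                 (CovZ.n2 (920, 28260) (by decide +kernel)
                  (CovZ.leaf K2_ok TF_l12405 _)
                  (CovZ.leaf K2_ok TF_l12406 _))
                 (CovZ.leaf K2_ok TF_l12407 _))
                (CovZ.n1 (940, 28260) (by decide +kernel)
                 (CovZ.badM (by decide +kernel))
                 (CovZ.n1 (920, 28260) (by decide +kernel)
                  (CovZ.leaf K2_ok TF_l12408 _)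
                  (CovZ.badM (by decide +kernel))))))))
            (CovZ.n1 (880, 28400) (by decide +kernel)
             (CovZ.n2 (960, 28400) (by decide +kernel)
              (CovZ.n2 (920, 28360) (by decide +kernel)
               (CovZ.leaf K2_ok TF_l3839 _)
               (CovZ.subM 1196285830889472 (by decide +kernel)
                (CovZ.n1 (960, 28360) (by decide +kernel)
                 (CovZ.n2 (940, 28340) (by decide +kernel)
                  (CovZ.n2 (940, 28360) (by decide +kernel)
                   (CovZ.leaf K2_ok TF_l12409 _)
                   (CovZ.leaf K2_ok TF_l12410 _))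
                  (CovZ.n1 (960, 28340) (by decide +kernel)
                   (CovZ.leaf K2_ok TF_l12411 _)
                   (CovZ.leaf K2_ok TF_l12412 _)))
                 (CovZ.n1 (940, 28380) (by decide +kernel)
                  (CovZ.n2 (960, 28380) (by decide +kernel)
                   (CovZ.leaf K2_ok TF_l12413 _)
                   (CovZ.leaf K2_ok TF_l12414 _))
                  (CovZ.leaf K2_ok TF_l12415 _)))))
              (CovZ.n1 (920, 28440) (by decide +kernel)
               (CovZ.n2 (960, 28440) (by decide +kernel)
                (CovZ.leaf K2_ok TF_l3840 _)
                (CovZ.leaf K2_ok TF_l3841 _))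
               (CovZ.leaf K2_ok TF_l3842 _)))
             (CovZ.n1 (880, 28320) (by decide +kernel)
              (CovZ.n2 (840, 28360) (by decide +kernel)
               (CovZ.n2 (880, 28360) (by decide +kernel)
                (CovZ.leaf K2_ok TF_l3843 _)
                (CovZ.leaf K2_ok TF_l3844 _))
               (CovZ.leaf K2_ok TF_l3845 _))
              (CovZ.n1 (920, 28360) (by decide +kernel)
               (CovZ.n2 (920, 28320) (by decide +kernel)
                (CovZ.n2 (900, 28340) (by decide +kernel)
                 (CovZ.n2 (920, 28340) (by decide +kernel)
                  (CovZ.leaf K2_ok TF_l12416 _)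
                  (CovZ.leaf K2_ok TF_l12417 _))
                 (CovZ.leaf K2_ok TF_l12418 _))
                (CovZ.n1 (940, 28340) (by decide +kernel)
                 (CovZ.n2 (940, 28320) (by decide +kernel)
                  (CovZ.leaf K2_ok TF_l12419 _)
                  (CovZ.leaf K2_ok TF_l12420 _))
                 (CovZ.leaf K2_ok TF_l12421 _)))
               (CovZ.n1 (880, 28360) (by decide +kernel)
                (CovZ.leaf K2_ok TF_l3846 _)
                (CovZ.n1 (900, 28340) (by decide +kernel)
                 (CovZ.leaf K2_ok TF_l12422 _)
                 (CovZ.leaf K2_ok TF_l12423 _))))))))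
          (CovZ.subM 10889412183012081647049918989847668719616 (by decide +kernel)
           (CovZ.n1 (800, 28160) (by decide +kernel)
            (CovZ.n2 (720, 28240) (by decide +kernel)
             (CovZ.n2 (800, 28240) (by decide +kernel)
              (CovZ.leaf K2_ok TF_l3847 _)
              (CovZ.n1 (760, 28280) (by decide +kernel)
               (CovZ.leaf K2_ok TF_l3848 _)
               (CovZ.leaf K2_ok TF_l3849 _)))
             (CovZ.leaf K2_ok TF_l3850 _))
            (CovZ.n1 (880, 28240) (by decide +kernel)
             (CovZ.n2 (880, 28160) (by decide +kernel)
              (CovZ.n2 (840, 28200) (by decide +kernel)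
               (CovZ.n2 (880, 28200) (by decide +kernel)
                (CovZ.leaf K2_ok TF_l3851 _)
                (CovZ.leaf K2_ok TF_l3852 _))
               (CovZ.leaf K2_ok TF_l3853 _))
              (CovZ.n1 (920, 28200) (by decide +kernel)
               (CovZ.n2 (920, 28160) (by decide +kernel)
                (CovZ.leaf K2_ok TF_l12424 _)
                (CovZ.badM (by decide +kernel)))
               (CovZ.n1 (880, 28200) (by decide +kernel)
                (CovZ.leaf K2_ok TF_l12425 _)
                (CovZ.leaf K2_ok TF_l12426 _))))
             (CovZ.n1 (800, 28240) (by decide +kernel)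
              (CovZ.leaf K2_ok TF_l3854 _)
              (CovZ.n1 (840, 28200) (by decide +kernel)
               (CovZ.leaf K2_ok TF_l3855 _)
               (CovZ.n1 (840, 28240) (by decide +kernel)
                (CovZ.leaf K2_ok TF_l3856 _)
                (CovZ.leaf K2_ok TF_l3857 _))))))))
         (CovZ.subM 70385924571136 (by decide +kernel)
          (CovZ.n1 (1120, 28320) (by decide +kernel)
           (CovZ.badM (by decide +kernel))
           (CovZ.n1 (960, 28320) (by decide +kernel)
            (CovZ.n2 (1040, 28400) (by decide +kernel)
             (CovZ.badM (by decide +kernel))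
             (CovZ.n1 (960, 28400) (by decide +kernel)
              (CovZ.n2 (1000, 28440) (by decide +kernel)
               (CovZ.leaf K2_ok TF_l12427 _)
               (CovZ.n1 (960, 28440) (by decide +kernel)
                (CovZ.leaf K2_ok TF_l3858 _)
                (CovZ.leaf K2_ok TF_l12428 _)))
              (CovZ.n1 (1000, 28360) (by decide +kernel)
               (CovZ.n2 (960, 28360) (by decide +kernel)
                (CovZ.n2 (980, 28380) (by decide +kernel)
                 (CovZ.leaf K2_ok TF_l12429 _)
                 (CovZ.n1 (960, 28380) (by decide +kernel)
                  (CovZ.leaf K2_ok TF_l12430 _)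
                  (CovZ.leaf K2_ok TF_l12431 _)))
                (CovZ.n1 (980, 28340) (by decide +kernel)
                 (CovZ.n2 (960, 28340) (by decide +kernel)
                  (CovZ.leaf K2_ok TF_l12432 _)
                  (CovZ.badM (by decide +kernel)))
                 (CovZ.n1 (980, 28360) (by decide +kernel)
                  (CovZ.badM (by decide +kernel))
                  (CovZ.leaf K2_ok TF_l12433 _))))
               (CovZ.n1 (1000, 28400) (by decide +kernel)
                (CovZ.badM (by decide +kernel))
                (CovZ.n1 (980, 28380) (by decide +kernel)
                 (CovZ.leaf K2_ok TF_l12434 _)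
                 (CovZ.badM (by decide +kernel)))))))
            (CovZ.badM (by decide +kernel))))))
        (CovZ.n1 (640, 28480) (by decide +kernel)
         (CovZ.subM 2596168236308632677356291087663104 (by decide +kernel)
          (CovZ.n2 (800, 28640) (by decide +kernel)
           (CovZ.n2 (800, 28480) (by decide +kernel)
            (CovZ.n2 (720, 28560) (by decide +kernel)
             (CovZ.n2 (800, 28560) (by decide +kernel)
              (CovZ.leaf K2_ok TF_l3859 _)
              (CovZ.leaf K2_ok TF_l3860 _))
             (CovZ.leaf K2_ok TF_l3861 _))
            (CovZ.n1 (880, 28560) (by decide +kernel)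
             (CovZ.leaf K2_ok TF_l3862 _)
             (CovZ.n1 (800, 28560) (by decide +kernel)
              (CovZ.leaf K2_ok TF_l3863 _)
              (CovZ.leaf K2_ok TF_l3864 _))))
           (CovZ.n1 (640, 28640) (by decide +kernel)
            (CovZ.n2 (720, 28720) (by decide +kernel)
             (CovZ.leaf K2_ok TF_l3865 _)
             (CovZ.leaf K2_ok TF_l3866 _))
            (CovZ.n1 (720, 28560) (by decide +kernel)
             (CovZ.leaf K2_ok TF_l3867 _)
             (CovZ.leaf K2_ok TF_l3868 _)))))
         (CovZ.n1 (800, 28320) (by decide +kernel)
          (CovZ.n2 (640, 28320) (by decide +kernel)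
           (CovZ.leaf K2_ok TF_l3869 _)
           (CovZ.n1 (720, 28240) (by decide +kernel)
            (CovZ.leaf K2_ok TF_l3870 _)
            (CovZ.n1 (720, 28320) (by decide +kernel)
             (CovZ.n2 (760, 28280) (by decide +kernel)
              (CovZ.leaf K2_ok TF_l3871 _)
              (CovZ.leaf K2_ok TF_l3872 _))
             (CovZ.leaf K2_ok TF_l3873 _))))
          (CovZ.subM 2596168236308632677356291087663104 (by decide +kernel)
           (CovZ.n1 (800, 28480) (by decide +kernel)
            (CovZ.n2 (880, 28400) (by decide +kernel)
             (CovZ.n2 (800, 28400) (by decide +kernel)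
              (CovZ.leaf K2_ok TF_l3874 _)
              (CovZ.n1 (840, 28360) (by decide +kernel)
               (CovZ.leaf K2_ok TF_l3875 _)
               (CovZ.n1 (840, 28400) (by decide +kernel)
                (CovZ.leaf K2_ok TF_l3876 _)
                (CovZ.leaf K2_ok TF_l3877 _))))
             (CovZ.n1 (880, 28480) (by decide +kernel)
              (CovZ.n2 (920, 28440) (by decide +kernel)
               (CovZ.n2 (880, 28440) (by decide +kernel)
                (CovZ.leaf K2_ok TF_l3878 _)
                (CovZ.leaf K2_ok TF_l3879 _))
               (CovZ.leaf K2_ok TF_l3880 _))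
              (CovZ.n1 (840, 28440) (by decide +kernel)
               (CovZ.leaf K2_ok TF_l3881 _)
               (CovZ.n1 (880, 28440) (by decide +kernel)
                (CovZ.leaf K2_ok TF_l3882 _)
                (CovZ.leaf K2_ok TF_l3883 _)))))
            (CovZ.n1 (720, 28400) (by decide +kernel)
             (CovZ.n2 (720, 28480) (by decide +kernel)
              (CovZ.n2 (760, 28440) (by decide +kernel)
               (CovZ.leaf K2_ok TF_l3884 _)
               (CovZ.leaf K2_ok TF_l3885 _))
              (CovZ.leaf K2_ok TF_l3886 _))
             (CovZ.n1 (800, 28400) (by decide +kernel)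
              (CovZ.n2 (760, 28360) (by decide +kernel)
               (CovZ.leaf K2_ok TF_l3887 _)
               (CovZ.leaf K2_ok TF_l3888 _))
              (CovZ.n1 (760, 28440) (by decide +kernel)
               (CovZ.leaf K2_ok TF_l3889 _)
               (CovZ.leaf K2_ok TF_l3890 _)))))))))

theorem TF_u165 : CovZ TF_M (toL (selN TF_LN 54445575918713541781038957685189454069760)) [0, 7, 4, 3] (2560, 30720) (1280, 29440) (2560, 28160) :=
    (CovZ.subM 77371252455406653105766400 (by decide +kernel)
     (CovZ.n2 (2560, 29440) (by decide +kernel)
      (CovZ.n2 (1920, 28800) (by decide +kernel)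
       (CovZ.n2 (1920, 29440) (by decide +kernel)
        (CovZ.n2 (2240, 29120) (by decide +kernel)
         (CovZ.n2 (1920, 29120) (by decide +kernel)
          (CovZ.badM (by decide +kernel))
          (CovZ.n1 (2080, 28960) (by decide +kernel)
           (CovZ.n2 (1920, 28960) (by decide +kernel)
            (CovZ.badM (by decide +kernel))
            (CovZ.badM (by decide +kernel)))
           (CovZ.badM (by decide +kernel))))
         (CovZ.badM (by decide +kernel)))
        (CovZ.n1 (1600, 29120) (by decide +kernel)
         (CovZ.n2 (1600, 29440) (by decide +kernel)
          (CovZ.n2 (1760, 29280) (by decide +kernel)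
           (CovZ.leaf K2_ok TF_l3751 _)
           (CovZ.n1 (1760, 29440) (by decide +kernel)
            (CovZ.badM (by decide +kernel))
            (CovZ.n1 (1680, 29360) (by decide +kernel)
             (CovZ.n2 (1680, 29440) (by decide +kernel)
              (CovZ.badM (by decide +kernel))
              (CovZ.leaf K2_ok TF_l12376 _))
             (CovZ.badM (by decide +kernel)))))
          (CovZ.n1 (1440, 29280) (by decide +kernel)
           (CovZ.n2 (1440, 29440) (by decide +kernel)
            (CovZ.n2 (1520, 29360) (by decide +kernel)
             (CovZ.leaf K2_ok TF_l3752 _)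
             (CovZ.leaf K2_ok TF_l3753 _))
            (CovZ.leaf K2_ok TF_l3754 _))
           (CovZ.n1 (1600, 29280) (by decide +kernel)
            (CovZ.leaf K2_ok TF_l3755 _)
            (CovZ.n1 (1520, 29360) (by decide +kernel)
             (CovZ.leaf K2_ok TF_l3756 _)
             (CovZ.leaf K2_ok TF_l3757 _)))))
         (CovZ.n1 (1920, 29120) (by decide +kernel)
          (CovZ.n2 (1760, 28960) (by decide +kernel)
           (CovZ.n2 (1760, 29120) (by decide +kernel)
            (CovZ.leaf K2_ok TF_l12377 _)
            (CovZ.leaf K2_ok TF_l3758 _))
           (CovZ.n1 (1920, 28960) (by decide +kernel)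
            (CovZ.leaf K2_ok TF_l12378 _)
            (CovZ.leaf K2_ok TF_l12379 _)))
          (CovZ.n1 (1760, 29280) (by decide +kernel)
           (CovZ.badM (by decide +kernel))
           (CovZ.n1 (1760, 29120) (by decide +kernel)
            (CovZ.leaf K2_ok TF_l3759 _)
            (CovZ.leaf K2_ok TF_l3760 _))))))
       (CovZ.n1 (2560, 28800) (by decide +kernel)
        (CovZ.badM (by decide +kernel))
        (CovZ.n1 (2240, 29120) (by decide +kernel)
         (CovZ.badM (by decide +kernel))
         (CovZ.badM (by decide +kernel)))))
      (CovZ.n1 (1920, 30080) (by decide +kernel)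
       (CovZ.badM (by decide +kernel))
       (CovZ.n1 (1920, 29440) (by decide +kernel)
        (CovZ.n2 (1600, 29760) (by decide +kernel)
         (CovZ.badM (by decide +kernel))
         (CovZ.n1 (1600, 29440) (by decide +kernel)
          (CovZ.n2 (1440, 29600) (by decide +kernel)
           (CovZ.n2 (1600, 29600) (by decide +kernel)
            (CovZ.n2 (1520, 29520) (by decide +kernel)
             (CovZ.n2 (1520, 29600) (by decide +kernel)
              (CovZ.n2 (1560, 29560) (by decide +kernel)
               (CovZ.leaf K2_ok TF_l12380 _)
               (CovZ.leaf K2_ok TF_l12381 _))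
              (CovZ.leaf K2_ok TF_l12382 _))
             (CovZ.badM (by decide +kernel)))
            (CovZ.n1 (1520, 29680) (by decide +kernel)
             (CovZ.n2 (1600, 29680) (by decide +kernel)
              (CovZ.n2 (1560, 29640) (by decide +kernel)
               (CovZ.n2 (1560, 29680) (by decide +kernel)
                (CovZ.n2 (1580, 29660) (by decide +kernel)
                 (CovZ.leaf K2_ok TF_l12383 _)
                 (CovZ.badM (by decide +kernel)))
                (CovZ.leaf K2_ok TF_l12384 _))
               (CovZ.n1 (1600, 29640) (by decide +kernel)
                (CovZ.leaf K2_ok TF_l12385 _)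
                (CovZ.n1 (1580, 29660) (by decide +kernel)
                 (CovZ.badM (by decide +kernel))
                 (CovZ.leaf K2_ok TF_l12386 _))))
              (CovZ.n1 (1560, 29720) (by decide +kernel)
               (CovZ.badM (by decide +kernel))
               (CovZ.n1 (1560, 29680) (by decide +kernel)
                (CovZ.n2 (1540, 29700) (by decide +kernel)
                 (CovZ.badM (by decide +kernel))
                 (CovZ.leaf K2_ok TF_l12387 _))
                (CovZ.badM (by decide +kernel)))))
             (CovZ.n1 (1520, 29600) (by decide +kernel)
              (CovZ.n2 (1480, 29640) (by decide +kernel)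
               (CovZ.leaf K2_ok TF_l12388 _)
               (CovZ.leaf K2_ok TF_l12389 _))
              (CovZ.leaf K2_ok TF_l12390 _))))
           (CovZ.n1 (1440, 29440) (by decide +kernel)
            (CovZ.n2 (1360, 29520) (by decide +kernel)
             (CovZ.leaf K2_ok TF_l3761 _)
             (CovZ.leaf K2_ok TF_l3762 _))
            (CovZ.leaf K2_ok TF_l3763 _)))
          (CovZ.n1 (1760, 29600) (by decide +kernel)
           (CovZ.badM (by decide +kernel))
           (CovZ.n1 (1600, 29600) (by decide +kernel)
            (CovZ.n2 (1680, 29680) (by decide +kernel)
             (CovZ.badM (by decide +kernel))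
             (CovZ.n1 (1600, 29680) (by decide +kernel)
              (CovZ.badM (by decide +kernel))
              (CovZ.badM (by decide +kernel))))
            (CovZ.badM (by decide +kernel))))))
        (CovZ.badM (by decide +kernel))))))

theorem TF_u166 : CovZ TF_M (toL (selN TF_LN 54445575918713541781038957685189454069760)) [0, 7, 4, 3] (1280, 29440) (0, 28160) (2560, 28160) :=
    (CovZ.n1 (1280, 28160) (by decide +kernel)
     (CovZ.n2 (640, 28800) (by decide +kernel)
      (CovZ.subM 10889038337638267139460664794107670429696 (by decide +kernel)
       (CovZ.n2 (1280, 28800) (by decide +kernel)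
        (CovZ.n2 (960, 28480) (by decide +kernel)
         (CovZ.n2 (960, 28800) (by decide +kernel)
          (CovZ.subM 1196285831413760 (by decide +kernel)
           (CovZ.n2 (1120, 28640) (by decide +kernel)
            (CovZ.n2 (960, 28640) (by decide +kernel)
             (CovZ.n2 (1040, 28720) (by decide +kernel)
              (CovZ.leaf K2_ok TF_l3764 _)
              (CovZ.n1 (960, 28720) (by decide +kernel)
               (CovZ.leaf K2_ok TF_l3765 _)
               (CovZ.leaf K2_ok TF_l3766 _)))
             (CovZ.n1 (1040, 28560) (by decide +kernel)
              (CovZ.n2 (960, 28560) (by decide +kernel)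
               (CovZ.leaf K2_ok TF_l3767 _)
               (CovZ.n1 (1000, 28520) (by decide +kernel)
                (CovZ.leaf K2_ok TF_l3768 _)
                (CovZ.leaf K2_ok TF_l3769 _)))
              (CovZ.leaf K2_ok TF_l3770 _)))
            (CovZ.n1 (1120, 28800) (by decide +kernel)
             (CovZ.n2 (1200, 28720) (by decide +kernel)
              (CovZ.n2 (1120, 28720) (by decide +kernel)
               (CovZ.leaf K2_ok TF_l3771 _)
               (CovZ.leaf K2_ok TF_l3772 _))
              (CovZ.leaf K2_ok TF_l3773 _))
             (CovZ.n1 (1040, 28720) (by decide +kernel)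
              (CovZ.leaf K2_ok TF_l3774 _)
              (CovZ.n1 (1120, 28720) (by decide +kernel)
               (CovZ.leaf K2_ok TF_l3775 _)
               (CovZ.leaf K2_ok TF_l3776 _))))))
          (CovZ.n1 (800, 28640) (by decide +kernel)
           (CovZ.n2 (800, 28800) (by decide +kernel)
            (CovZ.n2 (880, 28720) (by decide +kernel)
             (CovZ.n2 (800, 28720) (by decide +kernel)
              (CovZ.leaf K2_ok TF_l3777 _)
              (CovZ.leaf K2_ok TF_l3778 _))
             (CovZ.leaf K2_ok TF_l3779 _))
            (CovZ.n1 (720, 28720) (by decide +kernel)
             (CovZ.leaf K2_ok TF_l3780 _)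
             (CovZ.n1 (800, 28720) (by decide +kernel)
              (CovZ.leaf K2_ok TF_l3781 _)
              (CovZ.leaf K2_ok TF_l3782 _))))
           (CovZ.n1 (960, 28640) (by decide +kernel)
            (CovZ.n2 (880, 28560) (by decide +kernel)
             (CovZ.leaf K2_ok TF_l3783 _)
             (CovZ.n1 (960, 28560) (by decide +kernel)
              (CovZ.leaf K2_ok TF_l3784 _)
              (CovZ.leaf K2_ok TF_l3785 _)))
            (CovZ.n1 (880, 28720) (by decide +kernel)
             (CovZ.n2 (960, 28720) (by decide +kernel)
              (CovZ.leaf K2_ok TF_l3786 _)
              (CovZ.leaf K2_ok TF_l3787 _))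
             (CovZ.leaf K2_ok TF_l3788 _)))))
         (CovZ.subM 70385924571136 (by decide +kernel)
          (CovZ.n1 (1280, 28480) (by decide +kernel)
           (CovZ.n2 (1120, 28320) (by decide +kernel)
            (CovZ.n2 (1120, 28480) (by decide +kernel)
             (CovZ.badM (by decide +kernel))
             (CovZ.n1 (1040, 28400) (by decide +kernel)
              (CovZ.n2 (1040, 28480) (by decide +kernel)
               (CovZ.badM (by decide +kernel))
               (CovZ.n1 (1000, 28440) (by decide +kernel)
                (CovZ.leaf K2_ok TF_l3789 _)
                (CovZ.n1 (1040, 28440) (by decide +kernel)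
                 (CovZ.leaf K2_ok TF_l12391 _)
                 (CovZ.leaf K2_ok TF_l12392 _))))
              (CovZ.badM (by decide +kernel))))
            (CovZ.badM (by decide +kernel)))
           (CovZ.n1 (1120, 28640) (by decide +kernel)
            (CovZ.n2 (1280, 28640) (by decide +kernel)
             (CovZ.n2 (1200, 28560) (by decide +kernel)
              (CovZ.leaf K2_ok TF_l3790 _)
              (CovZ.badM (by decide +kernel)))
             (CovZ.n1 (1200, 28720) (by decide +kernel)
              (CovZ.n2 (1280, 28720) (by decide +kernel)
               (CovZ.leaf K2_ok TF_l3791 _)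
               (CovZ.leaf K2_ok TF_l3792 _))
              (CovZ.leaf K2_ok TF_l3793 _)))
            (CovZ.n1 (1120, 28480) (by decide +kernel)
             (CovZ.n2 (1040, 28560) (by decide +kernel)
              (CovZ.n2 (1120, 28560) (by decide +kernel)
               (CovZ.n2 (1080, 28520) (by decide +kernel)
                (CovZ.n2 (1080, 28560) (by decide +kernel)
                 (CovZ.n2 (1100, 28540) (by decide +kernel)
                  (CovZ.n2 (1080, 28540) (by decide +kernel)
                   (CovZ.leaf K2_ok TF_l12393 _)
                   (CovZ.badM (by decide +kernel)))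
                  (CovZ.leaf K2_ok TF_l12394 _))
                 (CovZ.leaf K2_ok TF_l3794 _))
                (CovZ.badM (by decide +kernel)))
               (CovZ.leaf K2_ok TF_l3795 _))
              (CovZ.leaf K2_ok TF_l3796 _))
             (CovZ.n1 (1200, 28560) (by decide +kernel)
              (CovZ.badM (by decide +kernel))
              (CovZ.n1 (1120, 28560) (by decide +kernel)
               (CovZ.leaf K2_ok TF_l3797 _)
               (CovZ.badM (by decide +kernel)))))))))
        (CovZ.n1 (960, 29120) (by decide +kernel)
         (CovZ.subM 1196285831413760 (by decide +kernel)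
          (CovZ.n2 (1280, 29120) (by decide +kernel)
           (CovZ.n2 (1120, 28960) (by decide +kernel)
            (CovZ.n2 (1120, 29120) (by decide +kernel)
             (CovZ.n2 (1200, 29040) (by decide +kernel)
              (CovZ.leaf K2_ok TF_l3798 _)
              (CovZ.leaf K2_ok TF_l3799 _))
             (CovZ.leaf K2_ok TF_l3800 _))
            (CovZ.n1 (1280, 28960) (by decide +kernel)
             (CovZ.n2 (1200, 28880) (by decide +kernel)
              (CovZ.leaf K2_ok TF_l3801 _)
              (CovZ.leaf K2_ok TF_l3802 _))
             (CovZ.n1 (1200, 29040) (by decide +kernel)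
              (CovZ.leaf K2_ok TF_l3803 _)
              (CovZ.leaf K2_ok TF_l3804 _))))
           (CovZ.n1 (1120, 29280) (by decide +kernel)
            (CovZ.leaf K2_ok TF_l3805 _)
            (CovZ.n1 (1120, 29120) (by decide +kernel)
             (CovZ.leaf K2_ok TF_l3806 _)
             (CovZ.leaf K2_ok TF_l3807 _)))))
         (CovZ.n1 (960, 28800) (by decide +kernel)
          (CovZ.n2 (800, 28960) (by decide +kernel)
           (CovZ.n2 (960, 28960) (by decide +kernel)
            (CovZ.leaf K2_ok TF_l3808 _)
            (CovZ.leaf K2_ok TF_l3809 _))
           (CovZ.n1 (800, 28800) (by decide +kernel)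
            (CovZ.leaf K2_ok TF_l3810 _)
            (CovZ.leaf K2_ok TF_l3811 _)))
          (CovZ.subM 1196285831413760 (by decide +kernel)
           (CovZ.n1 (1120, 28960) (by decide +kernel)
            (CovZ.n2 (1120, 28800) (by decide +kernel)
             (CovZ.leaf K2_ok TF_l3812 _)
             (CovZ.leaf K2_ok TF_l3813 _))
            (CovZ.n1 (960, 28960) (by decide +kernel)
             (CovZ.leaf K2_ok TF_l3814 _)
             (CovZ.leaf K2_ok TF_l3815 _))))))))
      (CovZ.n1 (640, 28160) (by decide +kernel)
       (CovZ.n2 (320, 28480) (by decide +kernel)
        (CovZ.n2 (640, 28480) (by decide +kernel)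
         (CovZ.n2 (480, 28320) (by decide +kernel)
          (CovZ.n2 (480, 28480) (by decide +kernel)
           (CovZ.n2 (560, 28400) (by decide +kernel)
            (CovZ.leaf K2_ok TF_l3816 _)
            (CovZ.leaf K2_ok TF_l3817 _))
           (CovZ.leaf K2_ok TF_l3818 _))
          (CovZ.n1 (640, 28320) (by decide +kernel)
           (CovZ.leaf K2_ok TF_l3819 _)
           (CovZ.n1 (560, 28400) (by decide +kernel)
            (CovZ.n2 (640, 28400) (by decide +kernel)
             (CovZ.leaf K2_ok TF_l3820 _)
             (CovZ.leaf K2_ok TF_l3821 _))
            (CovZ.leaf K2_ok TF_l3822 _))))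
         (CovZ.subM 376441542050816221931552031086477312 (by decide +kernel)
          (CovZ.n1 (480, 28640) (by decide +kernel)
           (CovZ.n2 (640, 28640) (by decide +kernel)
            (CovZ.n2 (560, 28560) (by decide +kernel)
             (CovZ.leaf K2_ok TF_l3823 _)
             (CovZ.n1 (640, 28560) (by decide +kernel)
              (CovZ.leaf K2_ok TF_l3824 _)
              (CovZ.leaf K2_ok TF_l3825 _)))
            (CovZ.n1 (560, 28720) (by decide +kernel)
             (CovZ.n2 (640, 28720) (by decide +kernel)
              (CovZ.leaf K2_ok TF_l3826 _)
              (CovZ.leaf K2_ok TF_l3827 _))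
             (CovZ.leaf K2_ok TF_l3828 _)))
           (CovZ.n1 (480, 28480) (by decide +kernel)
            (CovZ.leaf K2_ok TF_l3829 _)
            (CovZ.leaf K2_ok TF_l3830 _)))))
        (CovZ.n1 (320, 28160) (by decide +kernel)
         (CovZ.n2 (160, 28320) (by decide +kernel)
          (CovZ.leaf K2_ok TF_l3831 _)
          (CovZ.leaf K2_ok TF_l3832 _))
         (CovZ.n1 (480, 28320) (by decide +kernel)
          (CovZ.leaf K2_ok TF_l3833 _)
          (CovZ.leaf K2_ok TF_l3834 _))))
       TF_u164))
     (CovZ.subM 77371252455406653105766400 (by decide +kernel)
      (CovZ.n1 (1920, 28800) (by decide +kernel)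
       (CovZ.n2 (1920, 28160) (by decide +kernel)
        (CovZ.badM (by decide +kernel))
        (CovZ.badM (by decide +kernel)))
       (CovZ.n1 (1280, 28800) (by decide +kernel)
        (CovZ.n2 (1600, 29120) (by decide +kernel)
         (CovZ.n2 (1600, 28800) (by decide +kernel)
          (CovZ.n2 (1440, 28960) (by decide +kernel)
           (CovZ.leaf K2_ok TF_l3891 _)
           (CovZ.leaf K2_ok TF_l3892 _))
          (CovZ.leaf K2_ok TF_l3893 _))
         (CovZ.n1 (1280, 29120) (by decide +kernel)
          (CovZ.n2 (1440, 29280) (by decide +kernel)
           (CovZ.leaf K2_ok TF_l3894 _)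
           (CovZ.leaf K2_ok TF_l3895 _))
          (CovZ.n1 (1440, 28960) (by decide +kernel)
           (CovZ.leaf K2_ok TF_l3896 _)
           (CovZ.leaf K2_ok TF_l3897 _))))
        (CovZ.n1 (1600, 28480) (by decide +kernel)
         (CovZ.n2 (1280, 28480) (by decide +kernel)
          (CovZ.n2 (1440, 28640) (by decide +kernel)
           (CovZ.badM (by decide +kernel))
           (CovZ.n1 (1280, 28640) (by decide +kernel)
            (CovZ.n2 (1360, 28720) (by decide +kernel)
             (CovZ.leaf K2_ok TF_l12435 _)
             (CovZ.n1 (1280, 28720) (by decide +kernel)
              (CovZ.leaf K2_ok TF_l3898 _)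
              (CovZ.leaf K2_ok TF_l12436 _)))
            (CovZ.badM (by decide +kernel))))
          (CovZ.badM (by decide +kernel)))
         (CovZ.n1 (1600, 28800) (by decide +kernel)
          (CovZ.badM (by decide +kernel))
          (CovZ.n1 (1440, 28640) (by decide +kernel)
           (CovZ.n2 (1440, 28800) (by decide +kernel)
            (CovZ.leaf K2_ok TF_l12437 _)
            (CovZ.n1 (1360, 28720) (by decide +kernel)
             (CovZ.leaf K2_ok TF_l3899 _)
             (CovZ.leaf K2_ok TF_l12438 _)))
           (CovZ.badM (by decide +kernel)))))))))

theorem TF_u167 : CovZ TF_M (toL (selN TF_LN 19807041514010996222275878912)) [0, 7, 4, 3] (1280, 29440) (1280, 30080) (640, 30080) :=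
    (CovZ.n2 (960, 29760) (by decide +kernel)
         (CovZ.subM 70368744701952 (by decide +kernel)
          (CovZ.n2 (960, 30080) (by decide +kernel)
           (CovZ.n2 (1120, 29920) (by decide +kernel)
            (CovZ.n2 (960, 29920) (by decide +kernel)
             (CovZ.leaf K2_ok TF_l12604 _)
             (CovZ.n1 (1040, 29840) (by decide +kernel)
              (CovZ.leaf K2_ok TF_l12605 _)
              (CovZ.n1 (1040, 29920) (by decide +kernel)
               (CovZ.leaf K2_ok TF_l12606 _)
               (CovZ.leaf K2_ok TF_l12607 _))))
            (CovZ.n1 (1120, 30080) (by decide +kernel)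
             (CovZ.n2 (1200, 30000) (by decide +kernel)
              (CovZ.n2 (1120, 30000) (by decide +kernel)
               (CovZ.n2 (1160, 30040) (by decide +kernel)
                (CovZ.n2 (1160, 30000) (by decide +kernel)
                 (CovZ.n2 (1140, 30020) (by decide +kernel)
                  (CovZ.leaf K2_ok TF_l12608 _)
                  (CovZ.leaf K2_ok TF_l12609 _))
                 (CovZ.leaf K2_ok TF_l12610 _))
                (CovZ.n1 (1120, 30040) (by decide +kernel)
                 (CovZ.badM (by decide +kernel))
                 (CovZ.n1 (1140, 30020) (by decide +kernel)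
                  (CovZ.leaf K2_ok TF_l12611 _)
                  (CovZ.badM (by decide +kernel)))))
               (CovZ.n1 (1160, 29960) (by decide +kernel)
                (CovZ.leaf K2_ok TF_l12612 _)
                (CovZ.n1 (1160, 30000) (by decide +kernel)
                 (CovZ.n2 (1180, 29980) (by decide +kernel)
                  (CovZ.leaf K2_ok TF_l12613 _)
                  (CovZ.leaf K2_ok TF_l12614 _))
                 (CovZ.leaf K2_ok TF_l12615 _))))
              (CovZ.n1 (1200, 30080) (by decide +kernel)
               (CovZ.n2 (1240, 30040) (by decide +kernel)
                (CovZ.n2 (1200, 30040) (by decide +kernel)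
                 (CovZ.badM (by decide +kernel))
                 (CovZ.n1 (1220, 30020) (by decide +kernel)
                  (CovZ.leaf K2_ok TF_l12616 _)
                  (CovZ.badM (by decide +kernel))))
                (CovZ.badM (by decide +kernel)))
               (CovZ.n1 (1160, 30040) (by decide +kernel)
                (CovZ.badM (by decide +kernel))
                (CovZ.n1 (1200, 30040) (by decide +kernel)
                 (CovZ.n2 (1180, 30020) (by decide +kernel)
                  (CovZ.n2 (1180, 30040) (by decide +kernel)
                   (CovZ.leaf K2_ok TF_l12617 _)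
                   (CovZ.leaf K2_ok TF_l12618 _))
                  (CovZ.n1 (1200, 30020) (by decide +kernel)
                   (CovZ.leaf K2_ok TF_l12619 _)
                   (CovZ.leaf K2_ok TF_l12620 _)))
                 (CovZ.n1 (1180, 30060) (by decide +kernel)
                  (CovZ.badM (by decide +kernel))
                  (CovZ.n1 (1180, 30040) (by decide +kernel)
                   (CovZ.badM (by decide +kernel))
                   (CovZ.leaf K2_ok TF_l12621 _)))))))
             (CovZ.n1 (1040, 30000) (by decide +kernel)
              (CovZ.n2 (1040, 30080) (by decide +kernel)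
               (CovZ.n2 (1080, 30040) (by decide +kernel)
                (CovZ.leaf K2_ok TF_l12622 _)
                (CovZ.n1 (1080, 30080) (by decide +kernel)
                 (CovZ.n2 (1100, 30060) (by decide +kernel)
                  (CovZ.leaf K2_ok TF_l12623 _)
                  (CovZ.leaf K2_ok TF_l12624 _))
                 (CovZ.leaf K2_ok TF_l12625 _)))
               (CovZ.n1 (1000, 30040) (by decide +kernel)
                (CovZ.leaf K2_ok TF_l12626 _)
                (CovZ.leaf K2_ok TF_l12627 _)))
              (CovZ.n1 (1120, 30000) (by decide +kernel)
               (CovZ.n2 (1080, 29960) (by decide +kernel)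
                (CovZ.leaf K2_ok TF_l12628 _)
                (CovZ.leaf K2_ok TF_l12629 _))
               (CovZ.n1 (1080, 30040) (by decide +kernel)
                (CovZ.n2 (1120, 30040) (by decide +kernel)
                 (CovZ.leaf K2_ok TF_l12630 _)
                 (CovZ.n1 (1100, 30060) (by decide +kernel)
                  (CovZ.leaf K2_ok TF_l12631 _)
                  (CovZ.leaf K2_ok TF_l12632 _)))
                (CovZ.leaf K2_ok TF_l12633 _))))))
           (CovZ.n1 (800, 29920) (by decide +kernel)
            (CovZ.n2 (800, 30080) (by decide +kernel)
             (CovZ.n2 (880, 30000) (by decide +kernel)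
              (CovZ.leaf K2_ok TF_l12634 _)
              (CovZ.n1 (880, 30080) (by decide +kernel)
               (CovZ.leaf K2_ok TF_l12635 _)
               (CovZ.leaf K2_ok TF_l12636 _)))
             (CovZ.leaf K2_ok TF_l12637 _))
            (CovZ.n1 (960, 29920) (by decide +kernel)
             (CovZ.leaf K2_ok TF_l12638 _)
             (CovZ.n1 (880, 30000) (by decide +kernel)
              (CovZ.n2 (960, 30000) (by decide +kernel)
               (CovZ.leaf K2_ok TF_l12639 _)
               (CovZ.leaf K2_ok TF_l12640 _))
              (CovZ.leaf K2_ok TF_l12641 _))))))
         (CovZ.subM 1196285831413760 (by decide +kernel)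
          (CovZ.n1 (1280, 29760) (by decide +kernel)
           (CovZ.n2 (1120, 29600) (by decide +kernel)
            (CovZ.n2 (1120, 29760) (by decide +kernel)
             (CovZ.n2 (1200, 29680) (by decide +kernel)
              (CovZ.leaf K2_ok TF_l3980 _)
              (CovZ.leaf K2_ok TF_l3981 _))
             (CovZ.leaf K2_ok TF_l3982 _))
            (CovZ.n1 (1280, 29600) (by decide +kernel)
             (CovZ.leaf K2_ok TF_l3983 _)
             (CovZ.n1 (1200, 29680) (by decide +kernel)
              (CovZ.leaf K2_ok TF_l12642 _)
              (CovZ.leaf K2_ok TF_l3984 _))))
           (CovZ.n1 (1120, 29920) (by decide +kernel)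
            (CovZ.n2 (1280, 29920) (by decide +kernel)
             (CovZ.n2 (1200, 29840) (by decide +kernel)
              (CovZ.n2 (1200, 29920) (by decide +kernel)
               (CovZ.n2 (1240, 29880) (by decide +kernel)
                (CovZ.leaf K2_ok TF_l3985 _)
                (CovZ.n1 (1240, 29920) (by decide +kernel)
                 (CovZ.leaf K2_ok TF_l12643 _)
                 (CovZ.leaf K2_ok TF_l3986 _)))
               (CovZ.leaf K2_ok TF_l3987 _))
              (CovZ.n1 (1280, 29840) (by decide +kernel)
               (CovZ.leaf K2_ok TF_l12644 _)
               (CovZ.n1 (1240, 29880) (by decide +kernel)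
                (CovZ.n2 (1280, 29880) (by decide +kernel)
                 (CovZ.leaf K2_ok TF_l12645 _)
                 (CovZ.leaf K2_ok TF_l12646 _))
                (CovZ.leaf K2_ok TF_l12647 _))))
             (CovZ.n1 (1200, 30000) (by decide +kernel)
              (CovZ.n2 (1280, 30000) (by decide +kernel)
               (CovZ.n2 (1240, 29960) (by decide +kernel)
                (CovZ.n2 (1240, 30000) (by decide +kernel)
                 (CovZ.n2 (1260, 29980) (by decide +kernel)
                  (CovZ.leaf K2_ok TF_l12648 _)
                  (CovZ.badM (by decide +kernel)))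
                 (CovZ.n1 (1220, 29980) (by decide +kernel)
                  (CovZ.n2 (1220, 30000) (by decide +kernel)
                   (CovZ.leaf K2_ok TF_l12649 _)
                   (CovZ.leaf K2_ok TF_l12650 _))
                  (CovZ.n1 (1240, 29980) (by decide +kernel)
                   (CovZ.leaf K2_ok TF_l12651 _)
                   (CovZ.leaf K2_ok TF_l12652 _))))
                (CovZ.n1 (1280, 29960) (by decide +kernel)
                 (CovZ.n2 (1260, 29940) (by decide +kernel)
                  (CovZ.n2 (1260, 29960) (by decide +kernel)
                   (CovZ.leaf K2_ok TF_l12653 _)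
                   (CovZ.leaf K2_ok TF_l12654 _))
                  (CovZ.leaf K2_ok TF_l12655 _))
                 (CovZ.n1 (1260, 29980) (by decide +kernel)
                  (CovZ.badM (by decide +kernel))
                  (CovZ.leaf K2_ok TF_l12656 _))))
               (CovZ.n1 (1240, 30040) (by decide +kernel)
                (CovZ.badM (by decide +kernel))
                (CovZ.n1 (1240, 30000) (by decide +kernel)
                 (CovZ.n2 (1220, 30020) (by decide +kernel)
                  (CovZ.badM (by decide +kernel))
                  (CovZ.leaf K2_ok TF_l12657 _))
                 (CovZ.badM (by decide +kernel)))))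
              (CovZ.n1 (1200, 29920) (by decide +kernel)
               (CovZ.n2 (1160, 29960) (by decide +kernel)
                (CovZ.n2 (1200, 29960) (by decide +kernel)
                 (CovZ.leaf K2_ok TF_l12658 _)
                 (CovZ.n1 (1180, 29980) (by decide +kernel)
                  (CovZ.leaf K2_ok TF_l12659 _)
                  (CovZ.leaf K2_ok TF_l12660 _)))
                (CovZ.leaf K2_ok TF_l3988 _))
               (CovZ.leaf K2_ok TF_l3989 _))))
            (CovZ.n1 (1120, 29760) (by decide +kernel)
             (CovZ.n2 (1040, 29840) (by decide +kernel)
              (CovZ.n2 (1120, 29840) (by decide +kernel)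
               (CovZ.leaf K2_ok TF_l3990 _)
               (CovZ.leaf K2_ok TF_l3991 _))
              (CovZ.leaf K2_ok TF_l3992 _))
             (CovZ.leaf K2_ok TF_l3993 _))))))

theorem TF_u168 : CovZ TF_M (toL (selN TF_LN 19807041514010996222275878912)) [0, 7, 4, 3] (1280, 30080) (1280, 30720) (640, 30080) :=
    (CovZ.subM 295147905179353350144 (by decide +kernel)
         (CovZ.n1 (960, 30400) (by decide +kernel)
          (CovZ.n2 (1280, 30400) (by decide +kernel)
           (CovZ.n2 (1120, 30240) (by decide +kernel)
            (CovZ.n2 (1120, 30400) (by decide +kernel)
             (CovZ.n2 (1200, 30320) (by decide +kernel)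
              (CovZ.n2 (1120, 30320) (by decide +kernel)
               (CovZ.badM (by decide +kernel))
               (CovZ.badM (by decide +kernel)))
              (CovZ.badM (by decide +kernel)))
             (CovZ.n1 (1040, 30320) (by decide +kernel)
              (CovZ.badM (by decide +kernel))
              (CovZ.n1 (1120, 30320) (by decide +kernel)
               (CovZ.badM (by decide +kernel))
               (CovZ.badM (by decide +kernel)))))
            (CovZ.badM (by decide +kernel)))
           (CovZ.badM (by decide +kernel)))
          (CovZ.n1 (960, 30080) (by decide +kernel)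
           (CovZ.n2 (800, 30240) (by decide +kernel)
            (CovZ.n2 (960, 30240) (by decide +kernel)
             (CovZ.n2 (880, 30160) (by decide +kernel)
              (CovZ.n2 (880, 30240) (by decide +kernel)
               (CovZ.n2 (920, 30200) (by decide +kernel)
                (CovZ.leaf K2_ok TF_l12661 _)
                (CovZ.n1 (920, 30240) (by decide +kernel)
                 (CovZ.n2 (940, 30220) (by decide +kernel)
                  (CovZ.leaf K2_ok TF_l12662 _)
                  (CovZ.leaf K2_ok TF_l12663 _))
                 (CovZ.leaf K2_ok TF_l12664 _)))
               (CovZ.n1 (840, 30200) (by decide +kernel)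
                (CovZ.leaf K2_ok TF_l12665 _)
                (CovZ.leaf K2_ok TF_l12666 _)))
              (CovZ.n1 (960, 30160) (by decide +kernel)
               (CovZ.n2 (920, 30120) (by decide +kernel)
                (CovZ.leaf K2_ok TF_l12667 _)
                (CovZ.n1 (960, 30120) (by decide +kernel)
                 (CovZ.leaf K2_ok TF_l12668 _)
                 (CovZ.leaf K2_ok TF_l12669 _)))
               (CovZ.n1 (920, 30200) (by decide +kernel)
                (CovZ.n2 (960, 30200) (by decide +kernel)
                 (CovZ.leaf K2_ok TF_l12670 _)
                 (CovZ.n1 (940, 30220) (by decide +kernel)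
                  (CovZ.leaf K2_ok TF_l12671 _)
                  (CovZ.leaf K2_ok TF_l12672 _)))
                (CovZ.leaf K2_ok TF_l12673 _))))
             (CovZ.n1 (880, 30320) (by decide +kernel)
              (CovZ.n2 (960, 30320) (by decide +kernel)
               (CovZ.n2 (920, 30280) (by decide +kernel)
                (CovZ.n2 (920, 30320) (by decide +kernel)
                 (CovZ.n2 (940, 30300) (by decide +kernel)
                  (CovZ.leaf K2_ok TF_l12674 _)
                  (CovZ.badM (by decide +kernel)))
                 (CovZ.leaf K2_ok TF_l12675 _))
                (CovZ.n1 (960, 30280) (by decide +kernel)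
                 (CovZ.n2 (940, 30260) (by decide +kernel)
                  (CovZ.leaf K2_ok TF_l12676 _)
                  (CovZ.leaf K2_ok TF_l12677 _))
                 (CovZ.n1 (940, 30300) (by decide +kernel)
                  (CovZ.n2 (960, 30300) (by decide +kernel)
                   (CovZ.leaf K2_ok TF_l12678 _)
                   (CovZ.badM (by decide +kernel)))
                  (CovZ.leaf K2_ok TF_l12679 _))))
               (CovZ.n1 (920, 30360) (by decide +kernel)
                (CovZ.badM (by decide +kernel))
                (CovZ.n1 (920, 30320) (by decide +kernel)
                 (CovZ.n2 (900, 30340) (by decide +kernel)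
                  (CovZ.badM (by decide +kernel))
                  (CovZ.leaf K2_ok TF_l12680 _))
                 (CovZ.badM (by decide +kernel)))))
              (CovZ.n1 (880, 30240) (by decide +kernel)
               (CovZ.n2 (840, 30280) (by decide +kernel)
                (CovZ.n2 (880, 30280) (by decide +kernel)
                 (CovZ.leaf K2_ok TF_l12681 _)
                 (CovZ.leaf K2_ok TF_l12682 _))
                (CovZ.leaf K2_ok TF_l12683 _))
               (CovZ.n1 (920, 30280) (by decide +kernel)
                (CovZ.leaf K2_ok TF_l12684 _)
                (CovZ.leaf K2_ok TF_l12685 _)))))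
            (CovZ.n1 (800, 30080) (by decide +kernel)
             (CovZ.n2 (720, 30160) (by decide +kernel)
              (CovZ.n2 (800, 30160) (by decide +kernel)
               (CovZ.leaf K2_ok TF_l12686 _)
               (CovZ.leaf K2_ok TF_l12687 _))
              (CovZ.leaf K2_ok TF_l12688 _))
             (CovZ.leaf K2_ok TF_l12689 _)))
           (CovZ.n1 (1120, 30240) (by decide +kernel)
            (CovZ.n2 (1120, 30080) (by decide +kernel)
             (CovZ.n2 (1040, 30160) (by decide +kernel)
              (CovZ.badM (by decide +kernel))
              (CovZ.n1 (1040, 30080) (by decide +kernel)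
               (CovZ.n2 (1000, 30120) (by decide +kernel)
                (CovZ.n2 (1040, 30120) (by decide +kernel)
                 (CovZ.leaf K2_ok TF_l12690 _)
                 (CovZ.n1 (1020, 30140) (by decide +kernel)
                  (CovZ.n2 (1040, 30140) (by decide +kernel)
                   (CovZ.leaf K2_ok TF_l12691 _)
                   (CovZ.leaf K2_ok TF_l12692 _))
                  (CovZ.leaf K2_ok TF_l12693 _)))
                (CovZ.leaf K2_ok TF_l12694 _))
               (CovZ.n1 (1080, 30120) (by decide +kernel)
                (CovZ.n2 (1080, 30080) (by decide +kernel)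
                 (CovZ.n2 (1060, 30100) (by decide +kernel)
                  (CovZ.leaf K2_ok TF_l12695 _)
                  (CovZ.leaf K2_ok TF_l12696 _))
                 (CovZ.leaf K2_ok TF_l12697 _))
                (CovZ.n1 (1040, 30120) (by decide +kernel)
                 (CovZ.leaf K2_ok TF_l12698 _)
                 (CovZ.n1 (1060, 30100) (by decide +kernel)
                  (CovZ.leaf K2_ok TF_l12699 _)
                  (CovZ.n1 (1060, 30120) (by decide +kernel)
                   (CovZ.leaf K2_ok TF_l12700 _)
                   (CovZ.leaf K2_ok TF_l12701 _)))))))
             (CovZ.badM (by decide +kernel)))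
            (CovZ.n1 (960, 30240) (by decide +kernel)
             (CovZ.n2 (1040, 30320) (by decide +kernel)
              (CovZ.n2 (1040, 30240) (by decide +kernel)
               (CovZ.n2 (1000, 30280) (by decide +kernel)
                (CovZ.badM (by decide +kernel))
                (CovZ.n1 (1000, 30240) (by decide +kernel)
                 (CovZ.n2 (980, 30260) (by decide +kernel)
                  (CovZ.badM (by decide +kernel))
                  (CovZ.leaf K2_ok TF_l12702 _))
                 (CovZ.badM (by decide +kernel))))
               (CovZ.badM (by decide +kernel)))
              (CovZ.n1 (960, 30320) (by decide +kernel)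
               (CovZ.badM (by decide +kernel))
               (CovZ.n1 (1000, 30280) (by decide +kernel)
                (CovZ.n2 (960, 30280) (by decide +kernel)
                 (CovZ.n2 (980, 30300) (by decide +kernel)
                  (CovZ.badM (by decide +kernel))
                  (CovZ.n1 (960, 30300) (by decide +kernel)
                   (CovZ.badM (by decide +kernel))
                   (CovZ.badM (by decide +kernel))))
                 (CovZ.n1 (980, 30260) (by decide +kernel)
                  (CovZ.leaf K2_ok TF_l12703 _)
                  (CovZ.badM (by decide +kernel))))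
                (CovZ.n1 (1000, 30320) (by decide +kernel)
                 (CovZ.badM (by decide +kernel))
                 (CovZ.n1 (980, 30300) (by decide +kernel)
                  (CovZ.badM (by decide +kernel))
                  (CovZ.badM (by decide +kernel)))))))
             (CovZ.n1 (1040, 30160) (by decide +kernel)
              (CovZ.n2 (960, 30160) (by decide +kernel)
               (CovZ.n2 (1000, 30200) (by decide +kernel)
                (CovZ.n2 (1000, 30160) (by decide +kernel)
                 (CovZ.n2 (980, 30180) (by decide +kernel)
                  (CovZ.leaf K2_ok TF_l12704 _)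
                  (CovZ.leaf K2_ok TF_l12705 _))
                 (CovZ.leaf K2_ok TF_l12706 _))
                (CovZ.n1 (960, 30200) (by decide +kernel)
                 (CovZ.leaf K2_ok TF_l12707 _)
                 (CovZ.n1 (980, 30180) (by decide +kernel)
                  (CovZ.leaf K2_ok TF_l12708 _)
                  (CovZ.leaf K2_ok TF_l12709 _))))
               (CovZ.n1 (1000, 30120) (by decide +kernel)
                (CovZ.leaf K2_ok TF_l12710 _)
                (CovZ.n1 (1000, 30160) (by decide +kernel)
                 (CovZ.n2 (1020, 30140) (by decide +kernel)
                  (CovZ.leaf K2_ok TF_l12711 _)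
                  (CovZ.n1 (1020, 30160) (by decide +kernel)
                   (CovZ.leaf K2_ok TF_l12712 _)
                   (CovZ.leaf K2_ok TF_l12713 _)))
                 (CovZ.leaf K2_ok TF_l12714 _))))
              (CovZ.n1 (1040, 30240) (by decide +kernel)
               (CovZ.badM (by decide +kernel))
               (CovZ.n1 (1000, 30200) (by decide +kernel)
                (CovZ.n2 (1000, 30240) (by decide +kernel)
                 (CovZ.badM (by decide +kernel))
                 (CovZ.n1 (980, 30220) (by decide +kernel)
                  (CovZ.leaf K2_ok TF_l12715 _)
                  (CovZ.n1 (1000, 30220) (by decide +kernel)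
                   (CovZ.leaf K2_ok TF_l12716 _)
                   (CovZ.leaf K2_ok TF_l12717 _))))
                (CovZ.badM (by decide +kernel))))))))))

theorem TF_u169 : CovZ TF_M (toL (selN TF_LN 19807041514010996222275878912)) [0, 7, 4, 3] (2560, 30720) (1280, 30720) (1280, 29440) :=
    (CovZ.subM 295147975565277396992 (by decide +kernel)
       (CovZ.n2 (1920, 30080) (by decide +kernel)
        (CovZ.n2 (1280, 30080) (by decide +kernel)
         (CovZ.n2 (1600, 30400) (by decide +kernel)
          (CovZ.badM (by decide +kernel))
          (CovZ.n1 (1280, 30400) (by decide +kernel)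
           (CovZ.badM (by decide +kernel))
           (CovZ.badM (by decide +kernel))))
         (CovZ.n1 (1600, 29760) (by decide +kernel)
          (CovZ.n2 (1280, 29760) (by decide +kernel)
           (CovZ.n2 (1440, 29920) (by decide +kernel)
            (CovZ.n2 (1440, 29760) (by decide +kernel)
             (CovZ.n2 (1360, 29840) (by decide +kernel)
              (CovZ.n2 (1440, 29840) (by decide +kernel)
               (CovZ.n2 (1400, 29800) (by decide +kernel)
                (CovZ.n2 (1400, 29840) (by decide +kernel)
                 (CovZ.n2 (1420, 29820) (by decide +kernel)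
                  (CovZ.leaf K2_ok TF_l12455 _)
                  (CovZ.badM (by decide +kernel)))
                 (CovZ.leaf K2_ok TF_l12456 _))
                (CovZ.n1 (1440, 29800) (by decide +kernel)
                 (CovZ.n2 (1420, 29780) (by decide +kernel)
                  (CovZ.leaf K2_ok TF_l12457 _)
                  (CovZ.leaf K2_ok TF_l12458 _))
                 (CovZ.n1 (1420, 29820) (by decide +kernel)
                  (CovZ.badM (by decide +kernel))
                  (CovZ.leaf K2_ok TF_l12459 _))))
               (CovZ.n1 (1400, 29880) (by decide +kernel)
                (CovZ.badM (by decide +kernel))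
                (CovZ.n1 (1400, 29840) (by decide +kernel)
                 (CovZ.n2 (1380, 29860) (by decide +kernel)
                  (CovZ.badM (by decide +kernel))
                  (CovZ.leaf K2_ok TF_l12460 _))
                 (CovZ.badM (by decide +kernel)))))
              (CovZ.n1 (1360, 29760) (by decide +kernel)
               (CovZ.n2 (1320, 29800) (by decide +kernel)
                (CovZ.leaf K2_ok TF_l12461 _)
                (CovZ.leaf K2_ok TF_l12462 _))
               (CovZ.leaf K2_ok TF_l12463 _)))
             (CovZ.n1 (1520, 29840) (by decide +kernel)
              (CovZ.n2 (1520, 29760) (by decide +kernel)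
               (CovZ.n2 (1480, 29800) (by decide +kernel)
                (CovZ.badM (by decide +kernel))
                (CovZ.n1 (1480, 29760) (by decide +kernel)
                 (CovZ.n2 (1460, 29780) (by decide +kernel)
                  (CovZ.badM (by decide +kernel))
                  (CovZ.leaf K2_ok TF_l12464 _))
                 (CovZ.badM (by decide +kernel))))
               (CovZ.badM (by decide +kernel)))
              (CovZ.n1 (1440, 29840) (by decide +kernel)
               (CovZ.badM (by decide +kernel))
               (CovZ.n1 (1480, 29800) (by decide +kernel)
                (CovZ.n2 (1440, 29800) (by decide +kernel)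
                 (CovZ.badM (by decide +kernel))
                 (CovZ.n1 (1460, 29780) (by decide +kernel)
                  (CovZ.leaf K2_ok TF_l12465 _)
                  (CovZ.badM (by decide +kernel))))
                (CovZ.badM (by decide +kernel))))))
            (CovZ.n1 (1280, 29920) (by decide +kernel)
             (CovZ.n2 (1360, 30000) (by decide +kernel)
              (CovZ.n2 (1360, 29920) (by decide +kernel)
               (CovZ.n2 (1320, 29960) (by decide +kernel)
                (CovZ.badM (by decide +kernel))
                (CovZ.n1 (1320, 29920) (by decide +kernel)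
                 (CovZ.n2 (1300, 29940) (by decide +kernel)
                  (CovZ.badM (by decide +kernel))
                  (CovZ.leaf K2_ok TF_l12466 _))
                 (CovZ.badM (by decide +kernel))))
               (CovZ.badM (by decide +kernel)))
              (CovZ.n1 (1280, 30000) (by decide +kernel)
               (CovZ.badM (by decide +kernel))
               (CovZ.n1 (1320, 29960) (by decide +kernel)
                (CovZ.n2 (1280, 29960) (by decide +kernel)
                 (CovZ.badM (by decide +kernel))
                 (CovZ.n1 (1300, 29940) (by decide +kernel)
                  (CovZ.leaf K2_ok TF_l12467 _)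
                  (CovZ.badM (by decide +kernel))))
                (CovZ.badM (by decide +kernel)))))
             (CovZ.n1 (1360, 29840) (by decide +kernel)
              (CovZ.n2 (1280, 29840) (by decide +kernel)
               (CovZ.leaf K2_ok TF_l12468 _)
               (CovZ.n1 (1320, 29800) (by decide +kernel)
                (CovZ.leaf K2_ok TF_l12469 _)
                (CovZ.n1 (1320, 29840) (by decide +kernel)
                 (CovZ.leaf K2_ok TF_l12470 _)
                 (CovZ.leaf K2_ok TF_l12471 _))))
              (CovZ.n1 (1360, 29920) (by decide +kernel)
               (CovZ.n2 (1400, 29880) (by decide +kernel)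
                (CovZ.n2 (1360, 29880) (by decide +kernel)
                 (CovZ.badM (by decide +kernel))
                 (CovZ.n1 (1380, 29860) (by decide +kernel)
                  (CovZ.leaf K2_ok TF_l12472 _)
                  (CovZ.badM (by decide +kernel))))
                (CovZ.badM (by decide +kernel)))
               (CovZ.n1 (1320, 29880) (by decide +kernel)
                (CovZ.n2 (1320, 29920) (by decide +kernel)
                 (CovZ.n2 (1340, 29900) (by decide +kernel)
                  (CovZ.leaf K2_ok TF_l12473 _)
                  (CovZ.badM (by decide +kernel)))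
                 (CovZ.n1 (1300, 29900) (by decide +kernel)
                  (CovZ.n2 (1300, 29920) (by decide +kernel)
                   (CovZ.leaf K2_ok TF_l12474 _)
                   (CovZ.leaf K2_ok TF_l12475 _))
                  (CovZ.n1 (1320, 29900) (by decide +kernel)
                   (CovZ.leaf K2_ok TF_l12476 _)
                   (CovZ.leaf K2_ok TF_l12477 _))))
                (CovZ.n1 (1360, 29880) (by decide +kernel)
                 (CovZ.n2 (1340, 29860) (by decide +kernel)
                  (CovZ.leaf K2_ok TF_l12478 _)
                  (CovZ.leaf K2_ok TF_l12479 _))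
                 (CovZ.n1 (1340, 29900) (by decide +kernel)
                  (CovZ.badM (by decide +kernel))
                  (CovZ.leaf K2_ok TF_l12480 _))))))))
           (CovZ.n1 (1440, 29600) (by decide +kernel)
            (CovZ.n2 (1280, 29600) (by decide +kernel)
             (CovZ.leaf K2_ok TF_l12481 _)
             (CovZ.n1 (1360, 29520) (by decide +kernel)
              (CovZ.leaf K2_ok TF_l12482 _)
              (CovZ.leaf K2_ok TF_l12483 _)))
            (CovZ.n1 (1440, 29760) (by decide +kernel)
             (CovZ.n2 (1520, 29680) (by decide +kernel)
              (CovZ.n2 (1440, 29680) (by decide +kernel)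
               (CovZ.leaf K2_ok TF_l12484 _)
               (CovZ.n1 (1480, 29640) (by decide +kernel)
                (CovZ.leaf K2_ok TF_l12485 _)
                (CovZ.leaf K2_ok TF_l12486 _)))
              (CovZ.n1 (1520, 29760) (by decide +kernel)
               (CovZ.n2 (1560, 29720) (by decide +kernel)
                (CovZ.n2 (1520, 29720) (by decide +kernel)
                 (CovZ.badM (by decide +kernel))
                 (CovZ.n1 (1540, 29700) (by decide +kernel)
                  (CovZ.leaf K2_ok TF_l12487 _)
                  (CovZ.badM (by decide +kernel))))
                (CovZ.badM (by decide +kernel)))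
               (CovZ.n1 (1480, 29720) (by decide +kernel)
                (CovZ.n2 (1480, 29760) (by decide +kernel)
                 (CovZ.n2 (1500, 29740) (by decide +kernel)
                  (CovZ.leaf K2_ok TF_l12488 _)
                  (CovZ.badM (by decide +kernel)))
                 (CovZ.leaf K2_ok TF_l12489 _))
                (CovZ.n1 (1520, 29720) (by decide +kernel)
                 (CovZ.leaf K2_ok TF_l12490 _)
                 (CovZ.n1 (1500, 29740) (by decide +kernel)
                  (CovZ.badM (by decide +kernel))
                  (CovZ.leaf K2_ok TF_l12491 _))))))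
             (CovZ.n1 (1360, 29680) (by decide +kernel)
              (CovZ.n2 (1360, 29760) (by decide +kernel)
               (CovZ.n2 (1400, 29720) (by decide +kernel)
                (CovZ.leaf K2_ok TF_l12492 _)
                (CovZ.n1 (1400, 29760) (by decide +kernel)
                 (CovZ.leaf K2_ok TF_l12493 _)
                 (CovZ.leaf K2_ok TF_l12494 _)))
               (CovZ.leaf K2_ok TF_l12495 _))
              (CovZ.n1 (1440, 29680) (by decide +kernel)
               (CovZ.leaf K2_ok TF_l12496 _)
               (CovZ.n1 (1400, 29720) (by decide +kernel)
                (CovZ.leaf K2_ok TF_l12497 _)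
                (CovZ.leaf K2_ok TF_l12498 _)))))))
          (CovZ.badM (by decide +kernel))))
        (CovZ.n1 (1920, 30720) (by decide +kernel)
         (CovZ.n2 (2240, 30400) (by decide +kernel)
          (CovZ.n2 (1920, 30400) (by decide +kernel)
           (CovZ.badM (by decide +kernel))
           (CovZ.badM (by decide +kernel)))
          (CovZ.badM (by decide +kernel)))
         (CovZ.n1 (1600, 30400) (by decide +kernel)
          (CovZ.badM (by decide +kernel))
          (CovZ.n1 (1920, 30400) (by decide +kernel)
           (CovZ.badM (by decide +kernel))
           (CovZ.badM (by decide +kernel)))))))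

theorem TF_u170 : CovZ TF_M (toL (selN TF_LN 19807041514010996222275878912)) [0, 7, 4, 3] (1280, 30720) (0, 30720) (1280, 29440) :=
    (CovZ.n1 (640, 30080) (by decide +kernel)
       (CovZ.subM 295147905179353350144 (by decide +kernel)
        (CovZ.n2 (640, 30720) (by decide +kernel)
         (CovZ.n2 (960, 30400) (by decide +kernel)
          (CovZ.n2 (640, 30400) (by decide +kernel)
           (CovZ.n2 (800, 30560) (by decide +kernel)
            (CovZ.n2 (800, 30400) (by decide +kernel)
             (CovZ.n2 (720, 30480) (by decide +kernel)
              (CovZ.n2 (800, 30480) (by decide +kernel)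
               (CovZ.n2 (760, 30440) (by decide +kernel)
                (CovZ.n2 (760, 30480) (by decide +kernel)
                 (CovZ.n2 (780, 30460) (by decide +kernel)
                  (CovZ.leaf K2_ok TF_l12499 _)
                  (CovZ.leaf K2_ok TF_l12500 _))
                 (CovZ.leaf K2_ok TF_l12501 _))
                (CovZ.n1 (800, 30440) (by decide +kernel)
                 (CovZ.leaf K2_ok TF_l12502 _)
                 (CovZ.n1 (780, 30460) (by decide +kernel)
                  (CovZ.leaf K2_ok TF_l12503 _)
                  (CovZ.leaf K2_ok TF_l12504 _))))
               (CovZ.n1 (760, 30520) (by decide +kernel)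
                (CovZ.n2 (800, 30520) (by decide +kernel)
                 (CovZ.n2 (780, 30500) (by decide +kernel)
                  (CovZ.leaf K2_ok TF_l12505 _)
                  (CovZ.badM (by decide +kernel)))
                 (CovZ.n1 (780, 30540) (by decide +kernel)
                  (CovZ.badM (by decide +kernel))
                  (CovZ.leaf K2_ok TF_l12506 _)))
                (CovZ.leaf K2_ok TF_l12507 _)))
              (CovZ.n1 (720, 30400) (by decide +kernel)
               (CovZ.n2 (680, 30440) (by decide +kernel)
                (CovZ.leaf K2_ok TF_l12508 _)
                (CovZ.leaf K2_ok TF_l12509 _))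
               (CovZ.leaf K2_ok TF_l12510 _)))
             (CovZ.n1 (880, 30480) (by decide +kernel)
              (CovZ.n2 (880, 30400) (by decide +kernel)
               (CovZ.n2 (840, 30440) (by decide +kernel)
                (CovZ.badM (by decide +kernel))
                (CovZ.n1 (840, 30400) (by decide +kernel)
                 (CovZ.n2 (820, 30420) (by decide +kernel)
                  (CovZ.leaf K2_ok TF_l12511 _)
                  (CovZ.leaf K2_ok TF_l12512 _))
                 (CovZ.leaf K2_ok TF_l12513 _)))
               (CovZ.badM (by decide +kernel)))
              (CovZ.n1 (800, 30480) (by decide +kernel)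
               (CovZ.badM (by decide +kernel))
               (CovZ.n1 (840, 30440) (by decide +kernel)
                (CovZ.n2 (800, 30440) (by decide +kernel)
                 (CovZ.leaf K2_ok TF_l12514 _)
                 (CovZ.n1 (820, 30420) (by decide +kernel)
                  (CovZ.leaf K2_ok TF_l12515 _)
                  (CovZ.leaf K2_ok TF_l12516 _)))
                (CovZ.badM (by decide +kernel))))))
            (CovZ.n1 (640, 30560) (by decide +kernel)
             (CovZ.n2 (720, 30640) (by decide +kernel)
              (CovZ.n2 (720, 30560) (by decide +kernel)
               (CovZ.n2 (680, 30600) (by decide +kernel)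
                (CovZ.n2 (720, 30600) (by decide +kernel)
                 (CovZ.leaf K2_ok TF_l12517 _)
                 (CovZ.n1 (700, 30620) (by decide +kernel)
                  (CovZ.badM (by decide +kernel))
                  (CovZ.leaf K2_ok TF_l12518 _)))
                (CovZ.leaf K2_ok TF_l12519 _))
               (CovZ.n1 (760, 30600) (by decide +kernel)
                (CovZ.n2 (760, 30560) (by decide +kernel)
                 (CovZ.n2 (740, 30580) (by decide +kernel)
                  (CovZ.badM (by decide +kernel))
                  (CovZ.leaf K2_ok TF_l12520 _))
                 (CovZ.badM (by decide +kernel)))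
                (CovZ.n1 (720, 30600) (by decide +kernel)
                 (CovZ.badM (by decide +kernel))
                 (CovZ.n1 (740, 30580) (by decide +kernel)
                  (CovZ.leaf K2_ok TF_l12521 _)
                  (CovZ.badM (by decide +kernel))))))
              (CovZ.n1 (640, 30640) (by decide +kernel)
               (CovZ.n2 (680, 30680) (by decide +kernel)
                (CovZ.n2 (680, 30640) (by decide +kernel)
                 (CovZ.n2 (660, 30660) (by decide +kernel)
                  (CovZ.leaf K2_ok TF_l12522 _)
                  (CovZ.leaf K2_ok TF_l12523 _))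
                 (CovZ.badM (by decide +kernel)))
                (CovZ.n1 (640, 30680) (by decide +kernel)
                 (CovZ.leaf K2_ok TF_l12524 _)
                 (CovZ.n1 (660, 30660) (by decide +kernel)
                  (CovZ.leaf K2_ok TF_l12525 _)
                  (CovZ.leaf K2_ok TF_l12526 _))))
               (CovZ.n1 (680, 30600) (by decide +kernel)
                (CovZ.leaf K2_ok TF_l12527 _)
                (CovZ.n1 (680, 30640) (by decide +kernel)
                 (CovZ.n2 (700, 30620) (by decide +kernel)
                  (CovZ.leaf K2_ok TF_l12528 _)
                  (CovZ.badM (by decide +kernel)))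
                 (CovZ.leaf K2_ok TF_l12529 _)))))
             (CovZ.n1 (720, 30480) (by decide +kernel)
              (CovZ.n2 (640, 30480) (by decide +kernel)
               (CovZ.leaf K2_ok TF_l12530 _)
               (CovZ.n1 (680, 30440) (by decide +kernel)
                (CovZ.leaf K2_ok TF_l12531 _)
                (CovZ.leaf K2_ok TF_l12532 _)))
              (CovZ.n1 (720, 30560) (by decide +kernel)
               (CovZ.n2 (760, 30520) (by decide +kernel)
                (CovZ.leaf K2_ok TF_l12533 _)
                (CovZ.n1 (760, 30560) (by decide +kernel)
                 (CovZ.n2 (780, 30540) (by decide +kernel)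
                  (CovZ.leaf K2_ok TF_l12534 _)
                  (CovZ.badM (by decide +kernel)))
                 (CovZ.n1 (740, 30540) (by decide +kernel)
                  (CovZ.leaf K2_ok TF_l12535 _)
                  (CovZ.leaf K2_ok TF_l12536 _))))
               (CovZ.n1 (680, 30520) (by decide +kernel)
                (CovZ.n2 (680, 30560) (by decide +kernel)
                 (CovZ.leaf K2_ok TF_l12537 _)
                 (CovZ.leaf K2_ok TF_l12538 _))
                (CovZ.n1 (720, 30520) (by decide +kernel)
                 (CovZ.leaf K2_ok TF_l12539 _)
                 (CovZ.leaf K2_ok TF_l12540 _)))))))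
           (CovZ.n1 (800, 30240) (by decide +kernel)
            (CovZ.n2 (640, 30240) (by decide +kernel)
             (CovZ.leaf K2_ok TF_l12541 _)
             (CovZ.n1 (720, 30160) (by decide +kernel)
              (CovZ.leaf K2_ok TF_l12542 _)
              (CovZ.n1 (720, 30240) (by decide +kernel)
               (CovZ.leaf K2_ok TF_l12543 _)
               (CovZ.leaf K2_ok TF_l12544 _))))
            (CovZ.n1 (800, 30400) (by decide +kernel)
             (CovZ.n2 (880, 30320) (by decide +kernel)
              (CovZ.n2 (800, 30320) (by decide +kernel)
               (CovZ.leaf K2_ok TF_l12545 _)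
               (CovZ.n1 (840, 30280) (by decide +kernel)
                (CovZ.leaf K2_ok TF_l12546 _)
                (CovZ.n1 (840, 30320) (by decide +kernel)
                 (CovZ.leaf K2_ok TF_l12547 _)
                 (CovZ.leaf K2_ok TF_l12548 _))))
              (CovZ.n1 (880, 30400) (by decide +kernel)
               (CovZ.n2 (920, 30360) (by decide +kernel)
                (CovZ.n2 (880, 30360) (by decide +kernel)
                 (CovZ.leaf K2_ok TF_l12549 _)
                 (CovZ.n1 (900, 30340) (by decide +kernel)
                  (CovZ.leaf K2_ok TF_l12550 _)
                  (CovZ.leaf K2_ok TF_l12551 _)))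
                (CovZ.badM (by decide +kernel)))
               (CovZ.n1 (840, 30360) (by decide +kernel)
                (CovZ.n2 (840, 30400) (by decide +kernel)
                 (CovZ.n2 (860, 30380) (by decide +kernel)
                  (CovZ.leaf K2_ok TF_l12552 _)
                  (CovZ.leaf K2_ok TF_l12553 _))
                 (CovZ.leaf K2_ok TF_l12554 _))
                (CovZ.n1 (880, 30360) (by decide +kernel)
                 (CovZ.leaf K2_ok TF_l12555 _)
                 (CovZ.n1 (860, 30380) (by decide +kernel)
                  (CovZ.leaf K2_ok TF_l12556 _)
                  (CovZ.leaf K2_ok TF_l12557 _))))))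
             (CovZ.n1 (720, 30320) (by decide +kernel)
              (CovZ.n2 (720, 30400) (by decide +kernel)
               (CovZ.n2 (760, 30360) (by decide +kernel)
                (CovZ.leaf K2_ok TF_l12558 _)
                (CovZ.leaf K2_ok TF_l12559 _))
               (CovZ.leaf K2_ok TF_l12560 _))
              (CovZ.n1 (800, 30320) (by decide +kernel)
               (CovZ.leaf K2_ok TF_l12561 _)
               (CovZ.n1 (760, 30360) (by decide +kernel)
                (CovZ.n2 (800, 30360) (by decide +kernel)
                 (CovZ.leaf K2_ok TF_l12562 _)
                 (CovZ.leaf K2_ok TF_l12563 _))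
                (CovZ.leaf K2_ok TF_l12564 _)))))))
          (CovZ.badM (by decide +kernel)))
         (CovZ.n1 (320, 30400) (by decide +kernel)
          (CovZ.n2 (320, 30720) (by decide +kernel)
           (CovZ.n2 (480, 30560) (by decide +kernel)
            (CovZ.n2 (320, 30560) (by decide +kernel)
             (CovZ.leaf K2_ok TF_l12565 _)
             (CovZ.n1 (400, 30480) (by decide +kernel)
              (CovZ.leaf K2_ok TF_l12566 _)
              (CovZ.leaf K2_ok TF_l12567 _)))
            (CovZ.n1 (480, 30720) (by decide +kernel)
             (CovZ.n2 (560, 30640) (by decide +kernel)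
              (CovZ.n2 (480, 30640) (by decide +kernel)
               (CovZ.leaf K2_ok TF_l12568 _)
               (CovZ.leaf K2_ok TF_l12569 _))
              (CovZ.n1 (560, 30720) (by decide +kernel)
               (CovZ.n2 (600, 30680) (by decide +kernel)
                (CovZ.leaf K2_ok TF_l12570 _)
                (CovZ.n1 (600, 30720) (by decide +kernel)
                 (CovZ.n2 (620, 30700) (by decide +kernel)
                  (CovZ.leaf K2_ok TF_l12571 _)
                  (CovZ.leaf K2_ok TF_l12572 _))
                 (CovZ.leaf K2_ok TF_l12573 _)))
               (CovZ.n1 (520, 30680) (by decide +kernel)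
                (CovZ.leaf K2_ok TF_l12574 _)
                (CovZ.leaf K2_ok TF_l12575 _))))
             (CovZ.n1 (400, 30640) (by decide +kernel)
              (CovZ.n2 (400, 30720) (by decide +kernel)
               (CovZ.leaf K2_ok TF_l12576 _)
               (CovZ.leaf K2_ok TF_l12577 _))
              (CovZ.n1 (480, 30640) (by decide +kernel)
               (CovZ.leaf K2_ok TF_l12578 _)
               (CovZ.leaf K2_ok TF_l12579 _)))))
           (CovZ.n1 (160, 30560) (by decide +kernel)
            (CovZ.n2 (160, 30720) (by decide +kernel)
             (CovZ.leaf K2_ok TF_l12580 _)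
             (CovZ.leaf K2_ok TF_l12581 _))
            (CovZ.n1 (320, 30560) (by decide +kernel)
             (CovZ.leaf K2_ok TF_l12582 _)
             (CovZ.leaf K2_ok TF_l12583 _))))
          (CovZ.n1 (640, 30400) (by decide +kernel)
           (CovZ.n2 (480, 30240) (by decide +kernel)
            (CovZ.n2 (480, 30400) (by decide +kernel)
             (CovZ.n2 (560, 30320) (by decide +kernel)
              (CovZ.leaf K2_ok TF_l12584 _)
              (CovZ.leaf K2_ok TF_l12585 _))
             (CovZ.leaf K2_ok TF_l12586 _))
            (CovZ.n1 (640, 30240) (by decide +kernel)
             (CovZ.leaf K2_ok TF_l12587 _)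
             (CovZ.n1 (560, 30320) (by decide +kernel)
              (CovZ.leaf K2_ok TF_l12588 _)
              (CovZ.leaf K2_ok TF_l12589 _))))
           (CovZ.n1 (480, 30560) (by decide +kernel)
            (CovZ.n2 (640, 30560) (by decide +kernel)
             (CovZ.n2 (560, 30480) (by decide +kernel)
              (CovZ.n2 (560, 30560) (by decide +kernel)
               (CovZ.leaf K2_ok TF_l12590 _)
               (CovZ.leaf K2_ok TF_l12591 _))
              (CovZ.n1 (640, 30480) (by decide +kernel)
               (CovZ.leaf K2_ok TF_l12592 _)
               (CovZ.leaf K2_ok TF_l12593 _)))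
             (CovZ.n1 (560, 30640) (by decide +kernel)
              (CovZ.n2 (640, 30640) (by decide +kernel)
               (CovZ.n2 (600, 30600) (by decide +kernel)
                (CovZ.leaf K2_ok TF_l12594 _)
                (CovZ.leaf K2_ok TF_l12595 _))
               (CovZ.n1 (600, 30680) (by decide +kernel)
                (CovZ.n2 (640, 30680) (by decide +kernel)
                 (CovZ.leaf K2_ok TF_l12596 _)
                 (CovZ.n1 (620, 30700) (by decide +kernel)
                  (CovZ.leaf K2_ok TF_l12597 _)
                  (CovZ.leaf K2_ok TF_l12598 _)))
                (CovZ.leaf K2_ok TF_l12599 _)))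
              (CovZ.leaf K2_ok TF_l12600 _)))
            (CovZ.n1 (480, 30400) (by decide +kernel)
             (CovZ.n2 (400, 30480) (by decide +kernel)
              (CovZ.leaf K2_ok TF_l12601 _)
              (CovZ.leaf K2_ok TF_l12602 _))
             (CovZ.leaf K2_ok TF_l12603 _)))))))
       (CovZ.n1 (1280, 30080) (by decide +kernel)
        TF_u167
        TF_u168))

end Pool.Agent.TET
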