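import Pool.Agent.Helper38_TET.TF_M
import Pool.Agent.Helper38_TET.TF_L
import Pool.Agent.Helper38_TET.TF_15
import Pool.Agent.Helper38_TET.TF_26
import Pool.Agent.Helper38_TET.TF_29
import Pool.Agent.Helper38_TET.TF_30
import Pool.Agent.Helper38_TET.TF_31
import Pool.Agent.Helper38_TET.TF_74
import Pool.Agent.Helper38_TET.TF_75
import Pool.Agent.Helper38_TET.TF_83
import Pool.Agent.Helper38_TET.TF_85
import Pool.Agent.Helper38_TET.TF_86
import Pool.Agent.Helper38_TET.TF_87
import Pool.Agent.Helper38_TET.TF_U10
import Pool.Agent.Helper38_TET.TF_U11

/-!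
# MP_c7c9bf_co: certificates, family TF
-/

set_option autoImplicit false
set_option maxRecDepth 100000

namespace Pool.Agent.TET

theorem TF_s4_13 : SqZ TF_M TF_L [0, 7, 4, 3] (-7680) (-7680) 2560 4 13 :=
  SqZ.mk (a := 2560) (b := 5120) (c := 25600) (d := 28160) (by norm_num) (by norm_num) (by norm_num) (by norm_num)
    (CovZ.topM TF_LL 20602107661307641597803881300994 (by decide +kernel) (CovZ.n2 (3840, 26880) (by decide +kernel)
    (CovZ.n2 (5120, 26880) (by decide +kernel)
     (CovZ.n2 (4480, 26240) (by decide +kernel)
      (CovZ.subM 319388530135628110924242486272 (by decide +kernel)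
       (CovZ.n2 (4480, 26880) (by decide +kernel)
        (CovZ.n2 (4800, 26560) (by decide +kernel)
         (CovZ.leaf K2_ok TF_l4407 _)
         (CovZ.n1 (4800, 26880) (by decide +kernel)
          (CovZ.n2 (4960, 26720) (by decide +kernel)
           (CovZ.leaf K2_ok TF_l4408 _)
           (CovZ.n1 (4960, 26880) (by decide +kernel)
            (CovZ.n2 (5040, 26800) (by decide +kernel)
             (CovZ.leaf K2_ok TF_l4409 _)
             (CovZ.leaf K2_ok TF_l4410 _))
            (CovZ.leaf K2_ok TF_l4411 _)))
          (CovZ.n1 (4640, 26720) (by decide +kernel)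
           (CovZ.leaf K2_ok TF_l4412 _)
           (CovZ.leaf K2_ok TF_l4413 _))))
        (CovZ.n1 (4160, 26560) (by decide +kernel)
         (CovZ.n2 (4160, 26880) (by decide +kernel)
          (CovZ.leaf K2_ok TF_l4414 _)
          (CovZ.leaf K2_ok TF_l4415 _))
         (CovZ.n1 (4480, 26560) (by decide +kernel)
          (CovZ.leaf K2_ok TF_l4416 _)
          (CovZ.leaf K2_ok TF_l4417 _)))))
      (CovZ.subM 20602107656576051742897380261888 (by decide +kernel)
       (CovZ.n1 (5120, 26240) (by decide +kernel)
        (CovZ.n2 (4800, 25920) (by decide +kernel)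
         (CovZ.leaf K2_ok TF_l4418 _)
         (CovZ.leaf K2_ok TF_l4419 _))
        (CovZ.n1 (4800, 26560) (by decide +kernel)
         (CovZ.n2 (5120, 26560) (by decide +kernel)
          (CovZ.leaf K2_ok TF_l4420 _)
          (CovZ.subM 2475880078570760550066683904 (by decide +kernel)
           (CovZ.n1 (4960, 26720) (by decide +kernel)
            (CovZ.n2 (5120, 26720) (by decide +kernel)
             (CovZ.leaf K2_ok TF_l4421 _)
             (CovZ.n1 (5040, 26800) (by decide +kernel)
              (CovZ.leaf K2_ok TF_l4422 _)
              (CovZ.leaf K2_ok TF_l4423 _)))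
            (CovZ.leaf K2_ok TF_l4424 _))))
         (CovZ.leaf K2_ok TF_l4425 _)))))
     (CovZ.subM 2475880078570760550066684928 (by decide +kernel)
      (CovZ.n1 (4480, 27520) (by decide +kernel)
       (CovZ.badM (by decide +kernel))
       (CovZ.n1 (4480, 26880) (by decide +kernel)
        (CovZ.n2 (4160, 27200) (by decide +kernel)
         (CovZ.n2 (4480, 27200) (by decide +kernel)
          (CovZ.n2 (4320, 27040) (by decide +kernel)
           (CovZ.n2 (4320, 27200) (by decide +kernel)
            (CovZ.leaf K2_ok TF_l4426 _)
            (CovZ.leaf K2_ok TF_l4427 _))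
           (CovZ.n1 (4480, 27040) (by decide +kernel)
            (CovZ.leaf K2_ok TF_l4428 _)
            (CovZ.leaf K2_ok TF_l4429 _)))
          (CovZ.n1 (4320, 27360) (by decide +kernel)
           (CovZ.badM (by decide +kernel))
           (CovZ.n1 (4320, 27200) (by decide +kernel)
            (CovZ.n2 (4240, 27280) (by decide +kernel)
             (CovZ.leaf K2_ok TF_l4440 _)
             (CovZ.leaf K2_ok TF_l4441 _))
            (CovZ.leaf K2_ok TF_l4442 _))))
         (CovZ.n1 (4160, 26880) (by decide +kernel)
          (CovZ.n2 (4000, 27040) (by decide +kernel)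
           (CovZ.leaf K2_ok TF_l4443 _)
           (CovZ.leaf K2_ok TF_l4444 _))
          (CovZ.leaf K2_ok TF_l4445 _)))
        (CovZ.n1 (4800, 27200) (by decide +kernel)
         (CovZ.n2 (4800, 26880) (by decide +kernel)
          (CovZ.n2 (4640, 27040) (by decide +kernel)
           (CovZ.n2 (4800, 27040) (by decide +kernel)
            (CovZ.leaf K2_ok TF_l4446 _)
            (CovZ.n1 (4720, 27120) (by decide +kernel)
             (CovZ.badM (by decide +kernel))
             (CovZ.leaf K2_ok TF_l12920 _)))
           (CovZ.leaf K2_ok TF_l4447 _))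
          (CovZ.n1 (4960, 27040) (by decide +kernel)
           (CovZ.n2 (4960, 26880) (by decide +kernel)
            (CovZ.n2 (4880, 26960) (by decide +kernel)
             (CovZ.leaf K2_ok TF_l12921 _)
             (CovZ.leaf K2_ok TF_l4448 _))
            (CovZ.leaf K2_ok TF_l12922 _))
           (CovZ.n1 (4800, 27040) (by decide +kernel)
            (CovZ.badM (by decide +kernel))
            (CovZ.n1 (4880, 26960) (by decide +kernel)
             (CovZ.leaf K2_ok TF_l4449 _)
             (CovZ.n1 (4880, 27040) (by decide +kernel)
              (CovZ.leaf K2_ok TF_l12923 _)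
              (CovZ.leaf K2_ok TF_l12924 _))))))
         (CovZ.n1 (4480, 27200) (by decide +kernel)
          (CovZ.badM (by decide +kernel))
          (CovZ.n1 (4640, 27040) (by decide +kernel)
           (CovZ.leaf K2_ok TF_l4452 _)
           (CovZ.n1 (4640, 27200) (by decide +kernel)
            (CovZ.n2 (4720, 27120) (by decide +kernel)
             (CovZ.leaf K2_ok TF_l12925 _)
             (CovZ.badM (by decide +kernel)))
            (CovZ.n1 (4560, 27120) (by decide +kernel)
             (CovZ.badM (by decide +kernel))
             (CovZ.leaf K2_ok TF_l4455 _))))))))))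
    (CovZ.n1 (3840, 25600) (by decide +kernel)
     (CovZ.n2 (3200, 26240) (by decide +kernel)
      (CovZ.subM 319388530135628110924242486272 (by decide +kernel)
       (CovZ.n2 (3840, 26240) (by decide +kernel)
        (CovZ.n2 (3520, 25920) (by decide +kernel)
         (CovZ.leaf K2_ok TF_l4456 _)
         (CovZ.leaf K2_ok TF_l4457 _))
        (CovZ.n1 (3520, 26560) (by decide +kernel)
         (CovZ.leaf K2_ok TF_l4458 _)
         (CovZ.leaf K2_ok TF_l4459 _))))
      (CovZ.n1 (3200, 25600) (by decide +kernel)
       (CovZ.n2 (2880, 25920) (by decide +kernel)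
        (CovZ.n2 (3200, 25920) (by decide +kernel)
         (CovZ.leaf K2_ok TF_l4460 _)
         (CovZ.n1 (3040, 26080) (by decide +kernel)
          (CovZ.leaf K2_ok TF_l4461 _)
          (CovZ.leaf K2_ok TF_l4462 _)))
        (CovZ.n1 (2880, 25600) (by decide +kernel)
         (CovZ.n2 (2720, 25760) (by decide +kernel)
          (CovZ.n2 (2880, 25760) (by decide +kernel)
           (CovZ.leaf K2_ok TF_l4463 _)
           (CovZ.leaf K2_ok TF_l4464 _))
          (CovZ.n1 (2720, 25600) (by decide +kernel)
           (CovZ.n2 (2640, 25680) (by decide +kernel)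
            (CovZ.leaf K2_ok TF_l4465 _)
            (CovZ.leaf K2_ok TF_l4466 _))
           (CovZ.leaf K2_ok TF_l4467 _)))
         (CovZ.leaf K2_ok TF_l4468 _)))
       (CovZ.leaf K2_ok TF_l4469 _)))
     (CovZ.leaf K2_ok TF_l4470 _))))
    (CovZ.topM TF_LL 319388534867217965830743524354 (by decide +kernel) (CovZ.n0 (3840, 26880) (by decide +kernel)
    (CovZ.n2 (2560, 26880) (by decide +kernel)
     (CovZ.subM 2475880078570760550066684928 (by decide +kernel)
      (CovZ.n2 (3200, 27520) (by decide +kernel)
       (CovZ.n2 (3200, 26880) (by decide +kernel)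
        (CovZ.n2 (2880, 27200) (by decide +kernel)
         (CovZ.leaf K2_ok TF_l12926 _)
         (CovZ.n1 (2880, 26880) (by decide +kernel)
          (CovZ.n2 (2720, 27040) (by decide +kernel)
           (CovZ.leaf K2_ok TF_l12927 _)
           (CovZ.leaf K2_ok TF_l12928 _))
          (CovZ.leaf K2_ok TF_l12929 _)))
        (CovZ.leaf K2_ok TF_l4471 _))
       (CovZ.n1 (2560, 27520) (by decide +kernel)
        (CovZ.n2 (2880, 27840) (by decide +kernel)
         (CovZ.n2 (2880, 27520) (by decide +kernel)
          (CovZ.leaf K2_ok TF_l12930 _)
          (CovZ.leaf K2_ok TF_l12931 _))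
         (CovZ.n1 (2560, 27840) (by decide +kernel)
          (CovZ.leaf K2_ok TF_l12932 _)
          (CovZ.leaf K2_ok TF_l12933 _)))
        (CovZ.n1 (2880, 27200) (by decide +kernel)
         (CovZ.n2 (2560, 27200) (by decide +kernel)
          (CovZ.leaf K2_ok TF_l12934 _)
          (CovZ.n1 (2720, 27040) (by decide +kernel)
           (CovZ.leaf K2_ok TF_l12935 _)
           (CovZ.leaf K2_ok TF_l12936 _)))
         (CovZ.n1 (2880, 27520) (by decide +kernel)
          (CovZ.leaf K2_ok TF_l12937 _)
          (CovZ.leaf K2_ok TF_l12938 _))))))
     (CovZ.n1 (3200, 26240) (by decide +kernel)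
      (CovZ.n2 (2560, 26240) (by decide +kernel)
       (CovZ.subM 2475880078570760550066684928 (by decide +kernel)
        (CovZ.n2 (2880, 26560) (by decide +kernel)
         (CovZ.n2 (2880, 26240) (by decide +kernel)
          (CovZ.n2 (2720, 26400) (by decide +kernel)
           (CovZ.leaf K2_ok TF_l4472 _)
           (CovZ.n1 (2720, 26240) (by decide +kernel)
            (CovZ.n2 (2640, 26320) (by decide +kernel)
             (CovZ.leaf K2_ok TF_l12939 _)
             (CovZ.leaf K2_ok TF_l12940 _))
            (CovZ.leaf K2_ok TF_l4473 _)))
          (CovZ.leaf K2_ok TF_l4474 _))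
         (CovZ.n1 (2560, 26560) (by decide +kernel)
          (CovZ.n2 (2720, 26720) (by decide +kernel)
           (CovZ.n2 (2720, 26560) (by decide +kernel)
            (CovZ.n2 (2640, 26640) (by decide +kernel)
             (CovZ.leaf K2_ok TF_l12941 _)
             (CovZ.leaf K2_ok TF_l12942 _))
            (CovZ.leaf K2_ok TF_l12943 _))
           (CovZ.n1 (2560, 26720) (by decide +kernel)
            (CovZ.leaf K2_ok TF_l12944 _)
            (CovZ.n1 (2640, 26640) (by decide +kernel)
             (CovZ.leaf K2_ok TF_l12945 _)
             (CovZ.leaf K2_ok TF_l12946 _))))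
          (CovZ.n1 (2720, 26400) (by decide +kernel)
           (CovZ.n2 (2560, 26400) (by decide +kernel)
            (CovZ.leaf K2_ok TF_l12947 _)
            (CovZ.n1 (2640, 26320) (by decide +kernel)
             (CovZ.leaf K2_ok TF_l12948 _)
             (CovZ.leaf K2_ok TF_l12949 _)))
           (CovZ.n1 (2720, 26560) (by decide +kernel)
            (CovZ.leaf K2_ok TF_l12950 _)
            (CovZ.n1 (2640, 26480) (by decide +kernel)
             (CovZ.leaf K2_ok TF_l12951 _)
             (CovZ.leaf K2_ok TF_l12952 _)))))))
       (CovZ.n1 (2880, 25920) (by decide +kernel)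
        (CovZ.n2 (2560, 25920) (by decide +kernel)
         (CovZ.subM 319388530135628110924242486272 (by decide +kernel)
          (CovZ.n2 (2720, 26080) (by decide +kernel)
           (CovZ.n2 (2720, 25920) (by decide +kernel)
            (CovZ.n2 (2640, 26000) (by decide +kernel)
             (CovZ.leaf K2_ok TF_l4475 _)
             (CovZ.leaf K2_ok TF_l4476 _))
            (CovZ.leaf K2_ok TF_l4477 _))
           (CovZ.n1 (2560, 26080) (by decide +kernel)
            (CovZ.leaf K2_ok TF_l4478 _)
            (CovZ.n1 (2640, 26000) (by decide +kernel)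
             (CovZ.leaf K2_ok TF_l4479 _)
             (CovZ.leaf K2_ok TF_l4480 _)))))
         (CovZ.n1 (2720, 25760) (by decide +kernel)
          (CovZ.n2 (2560, 25760) (by decide +kernel)
           (CovZ.leaf K2_ok TF_l4481 _)
           (CovZ.n1 (2640, 25680) (by decide +kernel)
            (CovZ.leaf K2_ok TF_l4482 _)
            (CovZ.leaf K2_ok TF_l4483 _)))
          (CovZ.n1 (2720, 25920) (by decide +kernel)
           (CovZ.leaf K2_ok TF_l4484 _)
           (CovZ.n1 (2640, 25840) (by decide +kernel)
            (CovZ.leaf K2_ok TF_l4485 _)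
            (CovZ.leaf K2_ok TF_l4486 _)))))
        (CovZ.subM 319388530135628110924242486272 (by decide +kernel)
         (CovZ.n1 (2880, 26240) (by decide +kernel)
          (CovZ.n2 (3040, 26080) (by decide +kernel)
           (CovZ.leaf K2_ok TF_l4487 _)
           (CovZ.leaf K2_ok TF_l4488 _))
          (CovZ.n1 (2720, 26080) (by decide +kernel)
           (CovZ.n2 (2720, 26240) (by decide +kernel)
            (CovZ.leaf K2_ok TF_l4489 _)
            (CovZ.n1 (2640, 26160) (by decide +kernel)
             (CovZ.leaf K2_ok TF_l12953 _)
             (CovZ.leaf K2_ok TF_l4490 _)))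
           (CovZ.n1 (2880, 26080) (by decide +kernel)
            (CovZ.leaf K2_ok TF_l4491 _)
            (CovZ.leaf K2_ok TF_l4492 _)))))))
      (CovZ.subM 2475880078570760550066684928 (by decide +kernel)
       (CovZ.n1 (3200, 26880) (by decide +kernel)
        (CovZ.n2 (3520, 26560) (by decide +kernel)
         (CovZ.leaf K2_ok TF_l4493 _)
         (CovZ.leaf K2_ok TF_l4494 _))
        (CovZ.n1 (2880, 26560) (by decide +kernel)
         (CovZ.n2 (2880, 26880) (by decide +kernel)
          (CovZ.leaf K2_ok TF_l12954 _)
          (CovZ.n1 (2720, 26720) (by decide +kernel)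
           (CovZ.n2 (2720, 26880) (by decide +kernel)
            (CovZ.leaf K2_ok TF_l12955 _)
            (CovZ.leaf K2_ok TF_l12956 _))
           (CovZ.leaf K2_ok TF_l12957 _)))
         (CovZ.n1 (3200, 26560) (by decide +kernel)
          (CovZ.leaf K2_ok TF_l4495 _)
          (CovZ.leaf K2_ok TF_l4496 _)))))))
    (CovZ.subM 2475880078570760550066684928 (by decide +kernel)
     (CovZ.n1 (3840, 28160) (by decide +kernel)
      (CovZ.n2 (4480, 27520) (by decide +kernel)
       (CovZ.n2 (3840, 27520) (by decide +kernel)
        (CovZ.badM (by decide +kernel))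
        (CovZ.n1 (4160, 27200) (by decide +kernel)
         (CovZ.n2 (3840, 27200) (by decide +kernel)
          (CovZ.leaf K2_ok TF_l4497 _)
          (CovZ.n1 (4000, 27040) (by decide +kernel)
           (CovZ.leaf K2_ok TF_l4498 _)
           (CovZ.leaf K2_ok TF_l4499 _)))
         (CovZ.n1 (4160, 27520) (by decide +kernel)
          (CovZ.n2 (4320, 27360) (by decide +kernel)
           (CovZ.n2 (4160, 27360) (by decide +kernel)
            (CovZ.badM (by decide +kernel))
            (CovZ.n1 (4240, 27280) (by decide +kernel)
             (CovZ.leaf K2_ok TF_l4500 _)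
             (CovZ.badM (by decide +kernel))))
           (CovZ.badM (by decide +kernel)))
          (CovZ.n1 (4000, 27360) (by decide +kernel)
           (CovZ.badM (by decide +kernel))
           (CovZ.n1 (4160, 27360) (by decide +kernel)
            (CovZ.leaf K2_ok TF_l4503 _)
            (CovZ.badM (by decide +kernel)))))))
       (CovZ.badM (by decide +kernel)))
      (CovZ.n1 (3200, 27520) (by decide +kernel)
       (CovZ.n2 (3200, 28160) (by decide +kernel)
        (CovZ.n2 (3520, 27840) (by decide +kernel)
         (CovZ.n2 (3200, 27840) (by decide +kernel)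
          (CovZ.badM (by decide +kernel))
          (CovZ.n1 (3360, 27680) (by decide +kernel)
           (CovZ.leaf K2_ok TF_l12958 _)
           (CovZ.badM (by decide +kernel))))
         (CovZ.badM (by decide +kernel)))
        (CovZ.n1 (2880, 27840) (by decide +kernel)
         (CovZ.badM (by decide +kernel))
         (CovZ.n1 (3200, 27840) (by decide +kernel)
          (CovZ.n2 (3040, 27680) (by decide +kernel)
           (CovZ.leaf K2_ok TF_l12959 _)
           (CovZ.leaf K2_ok TF_l12960 _))
          (CovZ.badM (by decide +kernel)))))
       (CovZ.n1 (3840, 27520) (by decide +kernel)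
        (CovZ.n2 (3520, 27200) (by decide +kernel)
         (CovZ.n2 (3520, 27520) (by decide +kernel)
          (CovZ.n2 (3680, 27360) (by decide +kernel)
           (CovZ.leaf K2_ok TF_l12961 _)
           (CovZ.n1 (3680, 27520) (by decide +kernel)
            (CovZ.leaf K2_ok TF_l12962 _)
            (CovZ.leaf K2_ok TF_l12963 _)))
          (CovZ.leaf K2_ok TF_l12964 _))
         (CovZ.n1 (3840, 27200) (by decide +kernel)
          (CovZ.leaf K2_ok TF_l4504 _)
          (CovZ.n1 (3680, 27360) (by decide +kernel)
           (CovZ.n2 (3840, 27360) (by decide +kernel)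
            (CovZ.leaf K2_ok TF_l12965 _)
            (CovZ.leaf K2_ok TF_l12966 _))
           (CovZ.leaf K2_ok TF_l4505 _))))
        (CovZ.n1 (3520, 27840) (by decide +kernel)
         (CovZ.badM (by decide +kernel))
         (CovZ.n1 (3520, 27520) (by decide +kernel)
          (CovZ.n2 (3360, 27680) (by decide +kernel)
           (CovZ.n2 (3520, 27680) (by decide +kernel)
            (CovZ.leaf K2_ok TF_l12967 _)
            (CovZ.badM (by decide +kernel)))
           (CovZ.leaf K2_ok TF_l12968 _))
          (CovZ.leaf K2_ok TF_l12969 _)))))))))

theorem TF_s5_13 : SqZ TF_M TF_L [0, 7, 4, 3] (-7680) (-7680) 2560 5 13 :=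
  SqZ.mk (a := 5120) (b := 7680) (c := 25600) (d := 28160) (by norm_num) (by norm_num) (by norm_num) (by norm_num)
    (CovZ.topM TF_LL 20602107656576051742897380261888 (by decide +kernel) (CovZ.n2 (6400, 26880) (by decide +kernel)
    (CovZ.badM (by decide +kernel))
    (CovZ.n1 (6400, 25600) (by decide +kernel)
     (CovZ.n2 (5760, 26240) (by decide +kernel)
      (CovZ.subM 319388567914559973881135759360 (by decide +kernel)
       (CovZ.n2 (6400, 26240) (by decide +kernel)
        (CovZ.n2 (6080, 25920) (by decide +kernel)
         (CovZ.n2 (6080, 26240) (by decide +kernel)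
          (CovZ.n2 (6240, 26080) (by decide +kernel)
           (CovZ.leaf K2_ok TF_l12995 _)
           (CovZ.n1 (6240, 26240) (by decide +kernel)
            (CovZ.n2 (6320, 26160) (by decide +kernel)
             (CovZ.leaf K2_ok TF_l12996 _)
             (CovZ.n1 (6320, 26240) (by decide +kernel)
              (CovZ.leaf K2_ok TF_l12997 _)
              (CovZ.leaf K2_ok TF_l12998 _)))
            (CovZ.leaf K2_ok TF_l12999 _)))
          (CovZ.n1 (5920, 26080) (by decide +kernel)
           (CovZ.n2 (5920, 26240) (by decide +kernel)
            (CovZ.leaf K2_ok TF_l13000 _)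
            (CovZ.leaf K2_ok TF_l13001 _))
           (CovZ.leaf K2_ok TF_l13002 _)))
         (CovZ.n1 (6400, 25920) (by decide +kernel)
          (CovZ.leaf K2_ok TF_l13003 _)
          (CovZ.n1 (6240, 26080) (by decide +kernel)
           (CovZ.n2 (6400, 26080) (by decide +kernel)
            (CovZ.leaf K2_ok TF_l13004 _)
            (CovZ.n1 (6320, 26160) (by decide +kernel)
             (CovZ.n2 (6400, 26160) (by decide +kernel)
              (CovZ.leaf K2_ok TF_l13005 _)
              (CovZ.leaf K2_ok TF_l13006 _))
             (CovZ.leaf K2_ok TF_l13007 _)))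
           (CovZ.leaf K2_ok TF_l13008 _))))
        (CovZ.n1 (6080, 26560) (by decide +kernel)
         (CovZ.n2 (6400, 26560) (by decide +kernel)
          (CovZ.n2 (6240, 26400) (by decide +kernel)
           (CovZ.badM (by decide +kernel))
           (CovZ.badM (by decide +kernel)))
          (CovZ.badM (by decide +kernel)))
         (CovZ.n1 (6080, 26240) (by decide +kernel)
          (CovZ.n2 (5920, 26400) (by decide +kernel)
           (CovZ.n2 (6080, 26400) (by decide +kernel)
            (CovZ.n2 (6000, 26320) (by decide +kernel)
             (CovZ.n2 (6000, 26400) (by decide +kernel)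
              (CovZ.leaf K2_ok TF_l13009 _)
              (CovZ.leaf K2_ok TF_l13010 _))
             (CovZ.leaf K2_ok TF_l13011 _))
            (CovZ.n1 (6000, 26480) (by decide +kernel)
             (CovZ.n2 (6080, 26480) (by decide +kernel)
              (CovZ.n2 (6040, 26440) (by decide +kernel)
               (CovZ.n2 (6040, 26480) (by decide +kernel)
                (CovZ.leaf K2_ok TF_l13012 _)
                (CovZ.leaf K2_ok TF_l13013 _))
               (CovZ.leaf K2_ok TF_l13014 _))
              (CovZ.n1 (6040, 26520) (by decide +kernel)
               (CovZ.n2 (6080, 26520) (by decide +kernel)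
                (CovZ.n2 (6060, 26500) (by decide +kernel)
                 (CovZ.badM (by decide +kernel))
                 (CovZ.leaf K2_ok TF_l13015 _))
                (CovZ.badM (by decide +kernel)))
               (CovZ.n1 (6040, 26480) (by decide +kernel)
                (CovZ.leaf K2_ok TF_l13016 _)
                (CovZ.leaf K2_ok TF_l13017 _))))
             (CovZ.n1 (6000, 26400) (by decide +kernel)
              (CovZ.leaf K2_ok TF_l13018 _)
              (CovZ.leaf K2_ok TF_l13019 _))))
           (CovZ.n1 (5920, 26240) (by decide +kernel)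
            (CovZ.leaf K2_ok TF_l13020 _)
            (CovZ.leaf K2_ok TF_l13021 _)))
          (CovZ.n1 (6240, 26400) (by decide +kernel)
           (CovZ.n2 (6240, 26240) (by decide +kernel)
            (CovZ.n2 (6160, 26320) (by decide +kernel)
             (CovZ.n2 (6240, 26320) (by decide +kernel)
              (CovZ.leaf K2_ok TF_l13022 _)
              (CovZ.n1 (6200, 26360) (by decide +kernel)
               (CovZ.leaf K2_ok TF_l13023 _)
               (CovZ.leaf K2_ok TF_l13024 _)))
             (CovZ.leaf K2_ok TF_l13025 _))
            (CovZ.n1 (6320, 26320) (by decide +kernel)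
             (CovZ.n2 (6320, 26240) (by decide +kernel)
              (CovZ.n2 (6280, 26280) (by decide +kernel)
               (CovZ.leaf K2_ok TF_l13026 _)
               (CovZ.leaf K2_ok TF_l13027 _))
              (CovZ.leaf K2_ok TF_l13028 _))
             (CovZ.n1 (6240, 26320) (by decide +kernel)
              (CovZ.leaf K2_ok TF_l13029 _)
              (CovZ.n1 (6280, 26280) (by decide +kernel)
               (CovZ.leaf K2_ok TF_l13030 _)
               (CovZ.leaf K2_ok TF_l13031 _)))))
           (CovZ.n1 (6080, 26400) (by decide +kernel)
            (CovZ.badM (by decide +kernel))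
            (CovZ.n1 (6160, 26320) (by decide +kernel)
             (CovZ.leaf K2_ok TF_l13032 _)
             (CovZ.badM (by decide +kernel)))))))))
      (CovZ.n1 (5760, 25600) (by decide +kernel)
       (CovZ.n2 (5440, 25920) (by decide +kernel)
        (CovZ.n2 (5760, 25920) (by decide +kernel)
         (CovZ.leaf K2_ok TF_l13033 _)
         (CovZ.leaf K2_ok TF_l13034 _))
        (CovZ.leaf K2_ok TF_l4712 _))
       (CovZ.leaf K2_ok TF_l13035 _)))
     (CovZ.subM 2475917857502623506959958016 (by decide +kernel)
      (CovZ.n1 (7040, 26240) (by decide +kernel)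
       (CovZ.n2 (7040, 25600) (by decide +kernel)
        (CovZ.n2 (6720, 25920) (by decide +kernel)
         (CovZ.badM (by decide +kernel))
         (CovZ.n1 (6720, 25600) (by decide +kernel)
          (CovZ.n2 (6560, 25760) (by decide +kernel)
           (CovZ.n2 (6720, 25760) (by decide +kernel)
            (CovZ.leaf K2_ok TF_l13036 _)
            (CovZ.leaf K2_ok TF_l13037 _))
           (CovZ.leaf K2_ok TF_l13038 _))
          (CovZ.leaf K2_ok TF_l4719 _)))
        (CovZ.badM (by decide +kernel)))
       (CovZ.n1 (6400, 26240) (by decide +kernel)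
        (CovZ.badM (by decide +kernel))
        (CovZ.n1 (6720, 25920) (by decide +kernel)
         (CovZ.n2 (6400, 25920) (by decide +kernel)
          (CovZ.n2 (6560, 26080) (by decide +kernel)
           (CovZ.n2 (6560, 25920) (by decide +kernel)
            (CovZ.n2 (6480, 26000) (by decide +kernel)
             (CovZ.leaf K2_ok TF_l13039 _)
             (CovZ.leaf K2_ok TF_l13040 _))
            (CovZ.leaf K2_ok TF_l13041 _))
           (CovZ.n1 (6400, 26080) (by decide +kernel)
            (CovZ.leaf K2_ok TF_l13042 _)
            (CovZ.n1 (6480, 26000) (by decide +kernel)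
             (CovZ.leaf K2_ok TF_l13043 _)
             (CovZ.leaf K2_ok TF_l13044 _))))
          (CovZ.n1 (6560, 25760) (by decide +kernel)
           (CovZ.leaf K2_ok TF_l13045 _)
           (CovZ.n1 (6560, 25920) (by decide +kernel)
            (CovZ.leaf K2_ok TF_l13046 _)
            (CovZ.leaf K2_ok TF_l13047 _))))
         (CovZ.badM (by decide +kernel)))))))))
    (CovZ.topM TF_LL 20602107656576051742897380261888 (by decide +kernel) (CovZ.n0 (6400, 26880) (by decide +kernel)
    (CovZ.n2 (5120, 26880) (by decide +kernel)
     (CovZ.subM 20282409603651670423947251286016 (by decide +kernel)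
      (CovZ.n2 (5760, 27520) (by decide +kernel)
       (CovZ.n2 (5760, 26880) (by decide +kernel)
        (CovZ.n2 (5440, 27200) (by decide +kernel)
         (CovZ.badM (by decide +kernel))
         (CovZ.n1 (5440, 26880) (by decide +kernel)
          (CovZ.n2 (5280, 27040) (by decide +kernel)
           (CovZ.badM (by decide +kernel))
           (CovZ.n1 (5280, 26880) (by decide +kernel)
            (CovZ.n2 (5200, 26960) (by decide +kernel)
             (CovZ.badM (by decide +kernel))
             (CovZ.n1 (5200, 26880) (by decide +kernel)
              (CovZ.badM (by decide +kernel))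
              (CovZ.badM (by decide +kernel))))
            (CovZ.badM (by decide +kernel))))
          (CovZ.badM (by decide +kernel))))
        (CovZ.badM (by decide +kernel)))
       (CovZ.n1 (5120, 27520) (by decide +kernel)
        (CovZ.n2 (5440, 27840) (by decide +kernel)
         (CovZ.n2 (5440, 27520) (by decide +kernel)
          (CovZ.n2 (5280, 27680) (by decide +kernel)
           (CovZ.badM (by decide +kernel))
           (CovZ.n1 (5280, 27520) (by decide +kernel)
            (CovZ.badM (by decide +kernel))
            (CovZ.badM (by decide +kernel))))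
          (CovZ.badM (by decide +kernel)))
         (CovZ.badM (by decide +kernel)))
        (CovZ.n1 (5440, 27200) (by decide +kernel)
         (CovZ.n2 (5120, 27200) (by decide +kernel)
          (CovZ.n2 (5280, 27360) (by decide +kernel)
           (CovZ.n2 (5280, 27200) (by decide +kernel)
            (CovZ.badM (by decide +kernel))
            (CovZ.badM (by decide +kernel)))
           (CovZ.badM (by decide +kernel)))
          (CovZ.n1 (5280, 27040) (by decide +kernel)
           (CovZ.n2 (5120, 27040) (by decide +kernel)
            (CovZ.n2 (5200, 27120) (by decide +kernel)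
             (CovZ.n2 (5200, 27040) (by decide +kernel)
              (CovZ.badM (by decide +kernel))
              (CovZ.badM (by decide +kernel)))
             (CovZ.badM (by decide +kernel)))
            (CovZ.n1 (5200, 26960) (by decide +kernel)
             (CovZ.badM (by decide +kernel))
             (CovZ.n1 (5200, 27040) (by decide +kernel)
              (CovZ.badM (by decide +kernel))
              (CovZ.badM (by decide +kernel)))))
           (CovZ.n1 (5280, 27200) (by decide +kernel)
            (CovZ.badM (by decide +kernel))
            (CovZ.n1 (5200, 27120) (by decide +kernel)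
             (CovZ.badM (by decide +kernel))
             (CovZ.badM (by decide +kernel))))))
         (CovZ.n1 (5440, 27520) (by decide +kernel)
          (CovZ.badM (by decide +kernel))
          (CovZ.n1 (5280, 27360) (by decide +kernel)
           (CovZ.n2 (5280, 27520) (by decide +kernel)
            (CovZ.badM (by decide +kernel))
            (CovZ.badM (by decide +kernel)))
           (CovZ.badM (by decide +kernel))))))))
     (CovZ.n1 (5760, 26240) (by decide +kernel)
      (CovZ.n2 (5120, 26240) (by decide +kernel)
       (CovZ.n2 (5440, 26560) (by decide +kernel)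
        (CovZ.n2 (5440, 26240) (by decide +kernel)
         (CovZ.n2 (5280, 26400) (by decide +kernel)
          (CovZ.leaf K2_ok TF_l4734 _)
          (CovZ.leaf K2_ok TF_l4735 _))
         (CovZ.leaf K2_ok TF_l4736 _))
        (CovZ.n1 (5120, 26560) (by decide +kernel)
         (CovZ.n2 (5280, 26720) (by decide +kernel)
          (CovZ.leaf K2_ok TF_l4737 _)
          (CovZ.leaf K2_ok TF_l4738 _))
         (CovZ.n1 (5280, 26400) (by decide +kernel)
          (CovZ.leaf K2_ok TF_l4739 _)
          (CovZ.n1 (5280, 26560) (by decide +kernel)
           (CovZ.leaf K2_ok TF_l4740 _)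
           (CovZ.leaf K2_ok TF_l4741 _)))))
       (CovZ.n1 (5440, 25920) (by decide +kernel)
        (CovZ.leaf K2_ok TF_l4742 _)
        (CovZ.n1 (5440, 26240) (by decide +kernel)
         (CovZ.leaf K2_ok TF_l4743 _)
         (CovZ.leaf K2_ok TF_l4744 _))))
      (CovZ.n1 (5760, 26880) (by decide +kernel)
       (CovZ.subM 319388530135628110923974049792 (by decide +kernel)
        (CovZ.n2 (6080, 26560) (by decide +kernel)
         (CovZ.n2 (5760, 26560) (by decide +kernel)
          (CovZ.badM (by decide +kernel))
          (CovZ.n1 (5920, 26400) (by decide +kernel)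
           (CovZ.leaf K2_ok TF_l4752 _)
           (CovZ.n1 (5920, 26560) (by decide +kernel)
            (CovZ.n2 (6000, 26480) (by decide +kernel)
             (CovZ.n2 (5920, 26480) (by decide +kernel)
              (CovZ.leaf K2_ok TF_l13048 _)
              (CovZ.leaf K2_ok TF_l13049 _))
             (CovZ.n1 (6000, 26560) (by decide +kernel)
              (CovZ.n2 (6040, 26520) (by decide +kernel)
               (CovZ.n2 (6000, 26520) (by decide +kernel)
                (CovZ.badM (by decide +kernel))
                (CovZ.leaf K2_ok TF_l13050 _))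
               (CovZ.badM (by decide +kernel)))
              (CovZ.n1 (5960, 26520) (by decide +kernel)
               (CovZ.badM (by decide +kernel))
               (CovZ.n1 (6000, 26520) (by decide +kernel)
                (CovZ.leaf K2_ok TF_l13051 _)
                (CovZ.badM (by decide +kernel))))))
            (CovZ.n1 (5840, 26480) (by decide +kernel)
             (CovZ.badM (by decide +kernel))
             (CovZ.n1 (5920, 26480) (by decide +kernel)
              (CovZ.leaf K2_ok TF_l13052 _)
              (CovZ.badM (by decide +kernel)))))))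
         (CovZ.badM (by decide +kernel))))
       (CovZ.n1 (5440, 26560) (by decide +kernel)
        (CovZ.subM 20282409603651670423947519721472 (by decide +kernel)
         (CovZ.n2 (5440, 26880) (by decide +kernel)
          (CovZ.badM (by decide +kernel))
          (CovZ.n1 (5280, 26720) (by decide +kernel)
           (CovZ.n2 (5280, 26880) (by decide +kernel)
            (CovZ.n2 (5360, 26800) (by decide +kernel)
             (CovZ.leaf K2_ok TF_l4757 _)
             (CovZ.badM (by decide +kernel)))
            (CovZ.n1 (5200, 26800) (by decide +kernel)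
             (CovZ.n2 (5200, 26880) (by decide +kernel)
              (CovZ.leaf K2_ok TF_l13053 _)
              (CovZ.leaf K2_ok TF_l13054 _))
             (CovZ.n1 (5280, 26800) (by decide +kernel)
              (CovZ.leaf K2_ok TF_l4758 _)
              (CovZ.leaf K2_ok TF_l13055 _))))
           (CovZ.n1 (5440, 26720) (by decide +kernel)
            (CovZ.n2 (5360, 26640) (by decide +kernel)
             (CovZ.leaf K2_ok TF_l4759 _)
             (CovZ.badM (by decide +kernel)))
            (CovZ.n1 (5360, 26800) (by decide +kernel)
             (CovZ.n2 (5440, 26800) (by decide +kernel)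
              (CovZ.leaf K2_ok TF_l13056 _)
              (CovZ.badM (by decide +kernel)))
             (CovZ.leaf K2_ok TF_l4761 _))))))
        (CovZ.subM 319388530135628110923974049792 (by decide +kernel)
         (CovZ.n1 (5760, 26560) (by decide +kernel)
          (CovZ.n2 (5600, 26400) (by decide +kernel)
           (CovZ.n2 (5600, 26560) (by decide +kernel)
            (CovZ.n2 (5680, 26480) (by decide +kernel)
             (CovZ.leaf K2_ok TF_l4762 _)
             (CovZ.badM (by decide +kernel)))
            (CovZ.leaf K2_ok TF_l4765 _))
           (CovZ.n1 (5760, 26400) (by decide +kernel)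
            (CovZ.leaf K2_ok TF_l4766 _)
            (CovZ.n1 (5680, 26480) (by decide +kernel)
             (CovZ.leaf K2_ok TF_l4767 _)
             (CovZ.leaf K2_ok TF_l4768 _))))
          (CovZ.badM (by decide +kernel))))))))
    (CovZ.subM 20282409603651670423947251286016 (by decide +kernel)
     (CovZ.n1 (6400, 28160) (by decide +kernel)
      (CovZ.badM (by decide +kernel))
      (CovZ.n1 (5760, 27520) (by decide +kernel)
       (CovZ.n2 (5760, 28160) (by decide +kernel)
        (CovZ.badM (by decide +kernel))
        (CovZ.n1 (5440, 27840) (by decide +kernel)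
         (CovZ.n2 (5440, 28160) (by decide +kernel)
          (CovZ.badM (by decide +kernel))
          (CovZ.badM (by decide +kernel)))
         (CovZ.badM (by decide +kernel))))
       (CovZ.badM (by decide +kernel)))))))

theorem TF_s6_13 : SqZ TF_M TF_L [0, 7, 4, 3] (-7680) (-7680) 2560 6 13 :=
  SqZ.mk (a := 7680) (b := 10240) (c := 25600) (d := 28160) (by norm_num) (by norm_num) (by norm_num) (by norm_num)
    (CovZ.topM TF_LL 1393796574918305151147808227252496219766784 (by decide +kernel) (CovZ.n2 (8960, 26880) (by decide +kernel)
    (CovZ.n2 (10240, 26880) (by decide +kernel)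
     (CovZ.n2 (9600, 26240) (by decide +kernel)
      (CovZ.n2 (9600, 26880) (by decide +kernel)
       (CovZ.badM (by decide +kernel))
       (CovZ.n1 (9280, 26560) (by decide +kernel)
        (CovZ.n2 (9280, 26880) (by decide +kernel)
         (CovZ.badM (by decide +kernel))
         (CovZ.n1 (9120, 26720) (by decide +kernel)
          (CovZ.n2 (9120, 26880) (by decide +kernel)
           (CovZ.badM (by decide +kernel))
           (CovZ.badM (by decide +kernel)))
          (CovZ.badM (by decide +kernel))))
        (CovZ.badM (by decide +kernel))))
      (CovZ.badM (by decide +kernel)))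
     (CovZ.n1 (9600, 27520) (by decide +kernel)
      (CovZ.badM (by decide +kernel))
      (CovZ.n1 (9600, 26880) (by decide +kernel)
       (CovZ.n2 (9280, 27200) (by decide +kernel)
        (CovZ.badM (by decide +kernel))
        (CovZ.n1 (9280, 26880) (by decide +kernel)
         (CovZ.n2 (9120, 27040) (by decide +kernel)
          (CovZ.badM (by decide +kernel))
          (CovZ.n1 (9120, 26880) (by decide +kernel)
           (CovZ.badM (by decide +kernel))
           (CovZ.badM (by decide +kernel))))
         (CovZ.badM (by decide +kernel))))
       (CovZ.badM (by decide +kernel)))))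
    (CovZ.n1 (8960, 25600) (by decide +kernel)
     (CovZ.n2 (8320, 26240) (by decide +kernel)
      (CovZ.n2 (8960, 26240) (by decide +kernel)
       (CovZ.n2 (8640, 25920) (by decide +kernel)
        (CovZ.n2 (8640, 26240) (by decide +kernel)
         (CovZ.n2 (8800, 26080) (by decide +kernel)
          (CovZ.badM (by decide +kernel))
          (CovZ.n1 (8800, 26240) (by decide +kernel)
           (CovZ.badM (by decide +kernel))
           (CovZ.badM (by decide +kernel))))
         (CovZ.badM (by decide +kernel)))
        (CovZ.n1 (8960, 25920) (by decide +kernel)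
         (CovZ.n2 (8800, 25760) (by decide +kernel)
          (CovZ.n2 (8800, 25920) (by decide +kernel)
           (CovZ.badM (by decide +kernel))
           (CovZ.n1 (8720, 25840) (by decide +kernel)
            (CovZ.badM (by decide +kernel))
            (CovZ.badM (by decide +kernel))))
          (CovZ.badM (by decide +kernel)))
         (CovZ.n1 (8800, 26080) (by decide +kernel)
          (CovZ.badM (by decide +kernel))
          (CovZ.n1 (8800, 25920) (by decide +kernel)
           (CovZ.badM (by decide +kernel))
           (CovZ.badM (by decide +kernel))))))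
       (CovZ.n1 (8640, 26560) (by decide +kernel)
        (CovZ.n2 (8960, 26560) (by decide +kernel)
         (CovZ.n2 (8800, 26400) (by decide +kernel)
          (CovZ.badM (by decide +kernel))
          (CovZ.n1 (8960, 26400) (by decide +kernel)
           (CovZ.n2 (8880, 26320) (by decide +kernel)
            (CovZ.badM (by decide +kernel))
            (CovZ.badM (by decide +kernel)))
           (CovZ.badM (by decide +kernel))))
         (CovZ.badM (by decide +kernel)))
        (CovZ.n1 (8640, 26240) (by decide +kernel)
         (CovZ.badM (by decide +kernel))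
         (CovZ.n1 (8800, 26400) (by decide +kernel)
          (CovZ.n2 (8800, 26240) (by decide +kernel)
           (CovZ.badM (by decide +kernel))
           (CovZ.n1 (8880, 26320) (by decide +kernel)
            (CovZ.badM (by decide +kernel))
            (CovZ.badM (by decide +kernel))))
          (CovZ.badM (by decide +kernel))))))
      (CovZ.n1 (8320, 25600) (by decide +kernel)
       (CovZ.n2 (8000, 25920) (by decide +kernel)
        (CovZ.badM (by decide +kernel))
        (CovZ.n1 (8000, 25600) (by decide +kernel)
         (CovZ.badM (by decide +kernel))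
         (CovZ.badM (by decide +kernel))))
       (CovZ.n1 (8640, 25920) (by decide +kernel)
        (CovZ.n2 (8640, 25600) (by decide +kernel)
         (CovZ.badM (by decide +kernel))
         (CovZ.n1 (8800, 25760) (by decide +kernel)
          (CovZ.badM (by decide +kernel))
          (CovZ.n1 (8640, 25760) (by decide +kernel)
           (CovZ.n2 (8720, 25840) (by decide +kernel)
            (CovZ.badM (by decide +kernel))
            (CovZ.badM (by decide +kernel)))
           (CovZ.badM (by decide +kernel)))))
        (CovZ.badM (by decide +kernel)))))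
     (CovZ.n1 (9600, 26240) (by decide +kernel)
      (CovZ.badM (by decide +kernel))
      (CovZ.n1 (8960, 26240) (by decide +kernel)
       (CovZ.n2 (9280, 26560) (by decide +kernel)
        (CovZ.badM (by decide +kernel))
        (CovZ.n1 (8960, 26560) (by decide +kernel)
         (CovZ.n2 (9120, 26720) (by decide +kernel)
          (CovZ.badM (by decide +kernel))
          (CovZ.badM (by decide +kernel)))
         (CovZ.badM (by decide +kernel))))
       (CovZ.badM (by decide +kernel)))))))
    (CovZ.topM TF_LL 1393796574918305151147808227252496219766784 (by decide +kernel) (CovZ.n0 (8960, 26880) (by decide +kernel)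
    (CovZ.n2 (7680, 26880) (by decide +kernel)
     (CovZ.badM (by decide +kernel))
     (CovZ.n1 (8320, 26240) (by decide +kernel)
      (CovZ.badM (by decide +kernel))
      (CovZ.badM (by decide +kernel))))
    (CovZ.n1 (8960, 28160) (by decide +kernel)
     (CovZ.n2 (9600, 27520) (by decide +kernel)
      (CovZ.n2 (8960, 27520) (by decide +kernel)
       (CovZ.n2 (9280, 27840) (by decide +kernel)
        (CovZ.n2 (9280, 27520) (by decide +kernel)
         (CovZ.badM (by decide +kernel))
         (CovZ.n1 (9440, 27680) (by decide +kernel)
          (CovZ.badM (by decide +kernel))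
          (CovZ.badM (by decide +kernel))))
        (CovZ.badM (by decide +kernel)))
       (CovZ.n1 (9280, 27200) (by decide +kernel)
        (CovZ.badM (by decide +kernel))
        (CovZ.n1 (9280, 27520) (by decide +kernel)
         (CovZ.badM (by decide +kernel))
         (CovZ.badM (by decide +kernel)))))
      (CovZ.n1 (9600, 28160) (by decide +kernel)
       (CovZ.badM (by decide +kernel))
       (CovZ.n1 (9280, 27840) (by decide +kernel)
        (CovZ.badM (by decide +kernel))
        (CovZ.n1 (9600, 27840) (by decide +kernel)
         (CovZ.n2 (9440, 27680) (by decide +kernel)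
          (CovZ.badM (by decide +kernel))
          (CovZ.badM (by decide +kernel)))
         (CovZ.badM (by decide +kernel))))))
     (CovZ.badM (by decide +kernel)))))

theorem TF_s7_13 : SqZ TF_M TF_L [0, 7, 4, 3] (-7680) (-7680) 2560 7 13 :=
  SqZ.mk (a := 10240) (b := 12800) (c := 25600) (d := 28160) (by norm_num) (by norm_num) (by norm_num) (by norm_num)
    (CovZ.topM TF_LL 36893488147419103232 (by decide +kernel) (CovZ.n2 (11520, 26880) (by decide +kernel)
    (CovZ.badM (by decide +kernel))
    (CovZ.n1 (11520, 25600) (by decide +kernel)
     (CovZ.badM (by decide +kernel))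
     (CovZ.badM (by decide +kernel)))))
    (CovZ.topM TF_LL 0 (by decide +kernel) (CovZ.badM (by decide +kernel)))

theorem TF_s8_13 : SqZ TF_M TF_L [0, 7, 4, 3] (-7680) (-7680) 2560 8 13 :=
  SqZ.mk (a := 12800) (b := 15360) (c := 25600) (d := 28160) (by norm_num) (by norm_num) (by norm_num) (by norm_num)
    (CovZ.topM TF_LL 0 (by decide +kernel) (CovZ.badM (by decide +kernel)))
    (CovZ.topM TF_LL 0 (by decide +kernel) (CovZ.badM (by decide +kernel)))

theorem TF_s9_13 : SqZ TF_M TF_L [0, 7, 4, 3] (-7680) (-7680) 2560 9 13 :=
  SqZ.mk (a := 15360) (b := 17920) (c := 25600) (d := 28160) (by norm_num) (by norm_num) (by norm_num) (by norm_num)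
    (CovZ.topM TF_LL 0 (by decide +kernel) (CovZ.badM (by decide +kernel)))
    (CovZ.topM TF_LL 0 (by decide +kernel) (CovZ.badM (by decide +kernel)))

theorem TF_s10_13 : SqZ TF_M TF_L [0, 7, 4, 3] (-7680) (-7680) 2560 10 13 :=
  SqZ.mk (a := 17920) (b := 20480) (c := 25600) (d := 28160) (by norm_num) (by norm_num) (by norm_num) (by norm_num)
    (CovZ.topM TF_LL 0 (by decide +kernel) (CovZ.badM (by decide +kernel)))
    (CovZ.topM TF_LL 0 (by decide +kernel) (CovZ.badM (by decide +kernel)))

theorem TF_s11_13 : SqZ TF_M TF_L [0, 7, 4, 3] (-7680) (-7680) 2560 11 13 :=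
  SqZ.mk (a := 20480) (b := 23040) (c := 25600) (d := 28160) (by norm_num) (by norm_num) (by norm_num) (by norm_num)
    (CovZ.topM TF_LL 1267650600228229401496703205376 (by decide +kernel) (CovZ.n2 (21760, 26880) (by decide +kernel)
    (CovZ.n2 (23040, 26880) (by decide +kernel)
     (CovZ.n2 (22400, 26240) (by decide +kernel)
      (CovZ.badM (by decide +kernel))
      (CovZ.n1 (23040, 26240) (by decide +kernel)
       (CovZ.n2 (22720, 25920) (by decide +kernel)
        (CovZ.badM (by decide +kernel))
        (CovZ.badM (by decide +kernel)))
       (CovZ.badM (by decide +kernel))))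
     (CovZ.badM (by decide +kernel)))
    (CovZ.n1 (21760, 25600) (by decide +kernel)
     (CovZ.badM (by decide +kernel))
     (CovZ.n1 (22400, 26240) (by decide +kernel)
      (CovZ.n2 (22400, 25600) (by decide +kernel)
       (CovZ.badM (by decide +kernel))
       (CovZ.n1 (22720, 25920) (by decide +kernel)
        (CovZ.badM (by decide +kernel))
        (CovZ.badM (by decide +kernel))))
      (CovZ.badM (by decide +kernel))))))
    (CovZ.topM TF_LL 0 (by decide +kernel) (CovZ.badM (by decide +kernel)))

theorem TF_s12_13 : SqZ TF_M TF_L [0, 7, 4, 3] (-7680) (-7680) 2560 12 13 :=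
  SqZ.mk (a := 23040) (b := 25600) (c := 25600) (d := 28160) (by norm_num) (by norm_num) (by norm_num) (by norm_num)
    (CovZ.topM TF_LL 0 (by decide +kernel) (CovZ.badM (by decide +kernel)))
    (CovZ.topM TF_LL 1267650600228229401496703205376 (by decide +kernel) (CovZ.n0 (24320, 26880) (by decide +kernel)
    (CovZ.n2 (23040, 26880) (by decide +kernel)
     (CovZ.n2 (23680, 27520) (by decide +kernel)
      (CovZ.n2 (23680, 26880) (by decide +kernel)
       (CovZ.badM (by decide +kernel))
       (CovZ.n1 (24000, 27200) (by decide +kernel)
        (CovZ.badM (by decide +kernel))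
        (CovZ.badM (by decide +kernel))))
      (CovZ.badM (by decide +kernel)))
     (CovZ.n1 (23680, 26240) (by decide +kernel)
      (CovZ.n2 (23040, 26240) (by decide +kernel)
       (CovZ.n2 (23360, 26560) (by decide +kernel)
        (CovZ.badM (by decide +kernel))
        (CovZ.badM (by decide +kernel)))
       (CovZ.badM (by decide +kernel)))
      (CovZ.n1 (23680, 26880) (by decide +kernel)
       (CovZ.badM (by decide +kernel))
       (CovZ.n1 (23360, 26560) (by decide +kernel)
        (CovZ.badM (by decide +kernel))
        (CovZ.badM (by decide +kernel))))))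
    (CovZ.n1 (24320, 28160) (by decide +kernel)
     (CovZ.n2 (24960, 27520) (by decide +kernel)
      (CovZ.n2 (24320, 27520) (by decide +kernel)
       (CovZ.n2 (24640, 27840) (by decide +kernel)
        (CovZ.badM (by decide +kernel))
        (CovZ.badM (by decide +kernel)))
       (CovZ.badM (by decide +kernel)))
      (CovZ.n1 (24960, 28160) (by decide +kernel)
       (CovZ.badM (by decide +kernel))
       (CovZ.n1 (24640, 27840) (by decide +kernel)
        (CovZ.badM (by decide +kernel))
        (CovZ.badM (by decide +kernel)))))
     (CovZ.n1 (23680, 27520) (by decide +kernel)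
      (CovZ.badM (by decide +kernel))
      (CovZ.n1 (24320, 27520) (by decide +kernel)
       (CovZ.n2 (24000, 27200) (by decide +kernel)
        (CovZ.badM (by decide +kernel))
        (CovZ.badM (by decide +kernel)))
       (CovZ.badM (by decide +kernel)))))))

theorem TF_s13_13 : SqZ TF_M TF_L [0, 7, 4, 3] (-7680) (-7680) 2560 13 13 :=
  SqZ.mk (a := 25600) (b := 28160) (c := 25600) (d := 28160) (by norm_num) (by norm_num) (by norm_num) (by norm_num)
    (CovZ.topM TF_LL 0 (by decide +kernel) (CovZ.badM (by decide +kernel)))
    (CovZ.topM TF_LL 0 (by decide +kernel) (CovZ.badM (by decide +kernel)))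

theorem TF_s14_13 : SqZ TF_M TF_L [0, 7, 4, 3] (-7680) (-7680) 2560 14 13 :=
  SqZ.mk (a := 28160) (b := 30720) (c := 25600) (d := 28160) (by norm_num) (by norm_num) (by norm_num) (by norm_num)
    (CovZ.topM TF_LL 0 (by decide +kernel) (CovZ.badM (by decide +kernel)))
    (CovZ.topM TF_LL 0 (by decide +kernel) (CovZ.badM (by decide +kernel)))

theorem TF_s15_13 : SqZ TF_M TF_L [0, 7, 4, 3] (-7680) (-7680) 2560 15 13 :=
  SqZ.mk (a := 30720) (b := 33280) (c := 25600) (d := 28160) (by norm_num) (by norm_num) (by norm_num) (by norm_num)
    (CovZ.topM TF_LL 0 (by decide +kernel) (CovZ.badM (by decide +kernel)))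
    (CovZ.topM TF_LL 0 (by decide +kernel) (CovZ.badM (by decide +kernel)))

theorem TF_s0_14 : SqZ TF_M TF_L [0, 7, 4, 3] (-7680) (-7680) 2560 0 14 :=
  SqZ.mk (a := (-7680)) (b := (-5120)) (c := 28160) (d := 30720) (by norm_num) (by norm_num) (by norm_num) (by norm_num)
    (CovZ.topM TF_LL 0 (by decide +kernel) (CovZ.badM (by decide +kernel)))
    (CovZ.topM TF_LL 0 (by decide +kernel) (CovZ.badM (by decide +kernel)))

theorem TF_s1_14 : SqZ TF_M TF_L [0, 7, 4, 3] (-7680) (-7680) 2560 1 14 :=
  SqZ.mk (a := (-5120)) (b := (-2560)) (c := 28160) (d := 30720) (by norm_num) (by norm_num) (by norm_num) (by norm_num)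
    (CovZ.topM TF_LL 0 (by decide +kernel) (CovZ.badM (by decide +kernel)))
    (CovZ.topM TF_LL 0 (by decide +kernel) (CovZ.badM (by decide +kernel)))

theorem TF_s2_14 : SqZ TF_M TF_L [0, 7, 4, 3] (-7680) (-7680) 2560 2 14 :=
  SqZ.mk (a := (-2560)) (b := 0) (c := 28160) (d := 30720) (by norm_num) (by norm_num) (by norm_num) (by norm_num)
    (CovZ.topM TF_LL 375144180894481141906664113727602706 (by decide +kernel) (CovZ.n2 (-1280, 29440) (by decide +kernel)
    (CovZ.n2 (0, 29440) (by decide +kernel)
     (CovZ.n2 (-640, 28800) (by decide +kernel)
      (CovZ.subM 4835703278458516833566720 (by decide +kernel)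
       (CovZ.n2 (-640, 29440) (by decide +kernel)
        (CovZ.n2 (-320, 29120) (by decide +kernel)
         (CovZ.badM (by decide +kernel))
         (CovZ.n1 (-320, 29440) (by decide +kernel)
          (CovZ.n2 (-160, 29280) (by decide +kernel)
           (CovZ.badM (by decide +kernel))
           (CovZ.n1 (-160, 29440) (by decide +kernel)
            (CovZ.n2 (-80, 29360) (by decide +kernel)
             (CovZ.leaf K2_ok TF_l2252 _)
             (CovZ.leaf K2_ok TF_l2253 _))
            (CovZ.n1 (-240, 29360) (by decide +kernel)
             (CovZ.leaf K2_ok TF_l11007 _)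
             (CovZ.leaf K2_ok TF_l11008 _))))
          (CovZ.badM (by decide +kernel))))
        (CovZ.badM (by decide +kernel))))
      (CovZ.n1 (0, 28800) (by decide +kernel)
       (CovZ.subM 373846027451684625515231122575851520 (by decide +kernel)
        (CovZ.n2 (-320, 28480) (by decide +kernel)
         (CovZ.subM 4835703278739991675535360 (by decide +kernel)
          (CovZ.n2 (-320, 28800) (by decide +kernel)
           (CovZ.n2 (-160, 28640) (by decide +kernel)
            (CovZ.n2 (-320, 28640) (by decide +kernel)
             (CovZ.badM (by decide +kernel))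
             (CovZ.n1 (-240, 28560) (by decide +kernel)
              (CovZ.badM (by decide +kernel))
              (CovZ.badM (by decide +kernel))))
            (CovZ.badM (by decide +kernel)))
           (CovZ.n1 (-480, 28640) (by decide +kernel)
            (CovZ.badM (by decide +kernel))
            (CovZ.n1 (-320, 28640) (by decide +kernel)
             (CovZ.n2 (-400, 28560) (by decide +kernel)
              (CovZ.badM (by decide +kernel))
              (CovZ.n1 (-320, 28560) (by decide +kernel)
               (CovZ.n2 (-360, 28520) (by decide +kernel)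
                (CovZ.badM (by decide +kernel))
                (CovZ.badM (by decide +kernel)))
               (CovZ.badM (by decide +kernel))))
             (CovZ.badM (by decide +kernel))))))
         (CovZ.n1 (0, 28480) (by decide +kernel)
          (CovZ.n2 (-160, 28320) (by decide +kernel)
           (CovZ.n2 (-160, 28480) (by decide +kernel)
            (CovZ.leaf K2_ok TF_l2254 _)
            (CovZ.leaf K2_ok TF_l2255 _))
           (CovZ.leaf K2_ok TF_l2256 _))
          (CovZ.n1 (-160, 28640) (by decide +kernel)
           (CovZ.leaf K2_ok TF_l2257 _)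
           (CovZ.leaf K2_ok TF_l2258 _)))))
       (CovZ.subM 4835703278458516699348992 (by decide +kernel)
        (CovZ.n1 (-320, 29120) (by decide +kernel)
         (CovZ.n2 (0, 29120) (by decide +kernel)
          (CovZ.n2 (-160, 28960) (by decide +kernel)
           (CovZ.n2 (-160, 29120) (by decide +kernel)
            (CovZ.leaf K2_ok TF_l11009 _)
            (CovZ.badM (by decide +kernel)))
           (CovZ.n1 (0, 28960) (by decide +kernel)
            (CovZ.leaf K2_ok TF_l11010 _)
            (CovZ.leaf K2_ok TF_l11011 _)))
          (CovZ.n1 (-160, 29280) (by decide +kernel)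
           (CovZ.n2 (0, 29280) (by decide +kernel)
            (CovZ.leaf K2_ok TF_l2259 _)
            (CovZ.leaf K2_ok TF_l2260 _))
           (CovZ.n1 (-160, 29120) (by decide +kernel)
            (CovZ.badM (by decide +kernel))
            (CovZ.leaf K2_ok TF_l11012 _))))
         (CovZ.n1 (-320, 28800) (by decide +kernel)
          (CovZ.badM (by decide +kernel))
          (CovZ.badM (by decide +kernel)))))))
     (CovZ.subM 4835998426363696186392576 (by decide +kernel)
      (CovZ.n1 (-640, 30080) (by decide +kernel)
       (CovZ.n2 (0, 30080) (by decide +kernel)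
        TF_u162
        TF_u163)
       (CovZ.n1 (-640, 29440) (by decide +kernel)
        (CovZ.badM (by decide +kernel))
        (CovZ.n1 (-320, 29760) (by decide +kernel)
         (CovZ.n2 (-320, 29440) (by decide +kernel)
          (CovZ.badM (by decide +kernel))
          (CovZ.n1 (-160, 29600) (by decide +kernel)
           (CovZ.n2 (-160, 29440) (by decide +kernel)
            (CovZ.n2 (-240, 29520) (by decide +kernel)
             (CovZ.leaf K2_ok TF_l2300 _)
             (CovZ.leaf K2_ok TF_l11099 _))
            (CovZ.n1 (-80, 29520) (by decide +kernel)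
             (CovZ.leaf K2_ok TF_l2301 _)
             (CovZ.leaf K2_ok TF_l2302 _)))
           (CovZ.n1 (-320, 29600) (by decide +kernel)
            (CovZ.n2 (-240, 29680) (by decide +kernel)
             (CovZ.leaf K2_ok TF_l2303 _)
             (CovZ.leaf K2_ok TF_l11100 _))
            (CovZ.n1 (-240, 29520) (by decide +kernel)
             (CovZ.badM (by decide +kernel))
             (CovZ.leaf K2_ok TF_l2304 _)))))
         (CovZ.n1 (-640, 29760) (by decide +kernel)
          (CovZ.n2 (-480, 29920) (by decide +kernel)
           (CovZ.n2 (-480, 29760) (by decide +kernel)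
            (CovZ.badM (by decide +kernel))
            (CovZ.n1 (-400, 29840) (by decide +kernel)
             (CovZ.n2 (-400, 29760) (by decide +kernel)
              (CovZ.n2 (-440, 29800) (by decide +kernel)
               (CovZ.leaf K2_ok TF_l11101 _)
               (CovZ.badM (by decide +kernel)))
              (CovZ.leaf K2_ok TF_l11102 _))
             (CovZ.n1 (-480, 29840) (by decide +kernel)
              (CovZ.leaf K2_ok TF_l11103 _)
              (CovZ.n1 (-440, 29800) (by decide +kernel)
               (CovZ.badM (by decide +kernel))
               (CovZ.n1 (-440, 29840) (by decide +kernel)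
                (CovZ.leaf K2_ok TF_l11104 _)
                (CovZ.badM (by decide +kernel)))))))
           (CovZ.badM (by decide +kernel)))
          (CovZ.n1 (-480, 29600) (by decide +kernel)
           (CovZ.badM (by decide +kernel))
           (CovZ.n1 (-480, 29760) (by decide +kernel)
            (CovZ.n2 (-400, 29680) (by decide +kernel)
             (CovZ.badM (by decide +kernel))
             (CovZ.n1 (-400, 29760) (by decide +kernel)
              (CovZ.badM (by decide +kernel))
              (CovZ.badM (by decide +kernel))))
            (CovZ.badM (by decide +kernel))))))))))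
    (CovZ.n1 (-1280, 28160) (by decide +kernel)
     (CovZ.subM 79228162514264337593543950336 (by decide +kernel)
      (CovZ.n2 (-1920, 28800) (by decide +kernel)
       (CovZ.n2 (-1280, 28800) (by decide +kernel)
        (CovZ.n2 (-1600, 28480) (by decide +kernel)
         (CovZ.n2 (-1600, 28800) (by decide +kernel)
          (CovZ.badM (by decide +kernel))
          (CovZ.badM (by decide +kernel)))
         (CovZ.badM (by decide +kernel)))
        (CovZ.n1 (-1600, 29120) (by decide +kernel)
         (CovZ.badM (by decide +kernel))
         (CovZ.n1 (-1600, 28800) (by decide +kernel)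
          (CovZ.badM (by decide +kernel))
          (CovZ.badM (by decide +kernel)))))
       (CovZ.n1 (-1920, 28160) (by decide +kernel)
        (CovZ.badM (by decide +kernel))
        (CovZ.n1 (-1600, 28480) (by decide +kernel)
         (CovZ.n2 (-1600, 28160) (by decide +kernel)
          (CovZ.badM (by decide +kernel))
          (CovZ.badM (by decide +kernel)))
         (CovZ.badM (by decide +kernel))))))
     (CovZ.n1 (-640, 28800) (by decide +kernel)
      (CovZ.n2 (-640, 28160) (by decide +kernel)
       (CovZ.n2 (-960, 28480) (by decide +kernel)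
        (CovZ.badM (by decide +kernel))
        (CovZ.n1 (-960, 28160) (by decide +kernel)
         (CovZ.badM (by decide +kernel))
         (CovZ.badM (by decide +kernel))))
       (CovZ.n1 (-320, 28480) (by decide +kernel)
        (CovZ.n2 (-320, 28160) (by decide +kernel)
         (CovZ.subM 375144081859277703856208958187372546 (by decide +kernel)
          (CovZ.n2 (-480, 28320) (by decide +kernel)
           (CovZ.n2 (-320, 28320) (by decide +kernel)
            (CovZ.leaf K2_ok TF_l2305 _)
            (CovZ.leaf K2_ok TF_l2306 _))
           (CovZ.n1 (-480, 28160) (by decide +kernel)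
            (CovZ.n2 (-560, 28240) (by decide +kernel)
             (CovZ.leaf K2_ok TF_l2307 _)
             (CovZ.leaf K2_ok TF_l2308 _))
            (CovZ.leaf K2_ok TF_l2309 _))))
         (CovZ.n1 (-160, 28320) (by decide +kernel)
          (CovZ.leaf K2_ok TF_l2310 _)
          (CovZ.leaf K2_ok TF_l2311 _)))
        (CovZ.subM 4835703278458516833042434 (by decide +kernel)
         (CovZ.n1 (-640, 28480) (by decide +kernel)
          (CovZ.n2 (-480, 28640) (by decide +kernel)
           (CovZ.n2 (-480, 28480) (by decide +kernel)
            (CovZ.n2 (-560, 28560) (by decide +kernel)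
             (CovZ.badM (by decide +kernel))
             (CovZ.n1 (-560, 28480) (by decide +kernel)
              (CovZ.badM (by decide +kernel))
              (CovZ.badM (by decide +kernel))))
            (CovZ.n1 (-400, 28560) (by decide +kernel)
             (CovZ.n2 (-400, 28480) (by decide +kernel)
              (CovZ.badM (by decide +kernel))
              (CovZ.n1 (-360, 28520) (by decide +kernel)
               (CovZ.n2 (-360, 28480) (by decide +kernel)
                (CovZ.badM (by decide +kernel))
                (CovZ.badM (by decide +kernel)))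
               (CovZ.badM (by decide +kernel))))
             (CovZ.badM (by decide +kernel))))
           (CovZ.n1 (-640, 28640) (by decide +kernel)
            (CovZ.badM (by decide +kernel))
            (CovZ.n1 (-560, 28560) (by decide +kernel)
             (CovZ.badM (by decide +kernel))
             (CovZ.badM (by decide +kernel)))))
          (CovZ.n1 (-480, 28320) (by decide +kernel)
           (CovZ.n2 (-640, 28320) (by decide +kernel)
            (CovZ.n2 (-560, 28400) (by decide +kernel)
             (CovZ.n2 (-560, 28320) (by decide +kernel)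
              (CovZ.badM (by decide +kernel))
              (CovZ.n1 (-520, 28360) (by decide +kernel)
               (CovZ.n2 (-520, 28320) (by decide +kernel)
                (CovZ.badM (by decide +kernel))
                (CovZ.badM (by decide +kernel)))
               (CovZ.badM (by decide +kernel))))
             (CovZ.badM (by decide +kernel)))
            (CovZ.n1 (-560, 28240) (by decide +kernel)
             (CovZ.badM (by decide +kernel))
             (CovZ.n1 (-560, 28320) (by decide +kernel)
              (CovZ.n2 (-520, 28280) (by decide +kernel)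
               (CovZ.badM (by decide +kernel))
               (CovZ.n1 (-520, 28320) (by decide +kernel)
                (CovZ.badM (by decide +kernel))
                (CovZ.badM (by decide +kernel))))
              (CovZ.badM (by decide +kernel)))))
           (CovZ.n1 (-480, 28480) (by decide +kernel)
            (CovZ.n2 (-400, 28400) (by decide +kernel)
             (CovZ.n2 (-480, 28400) (by decide +kernel)
              (CovZ.badM (by decide +kernel))
              (CovZ.n1 (-440, 28360) (by decide +kernel)
               (CovZ.badM (by decide +kernel))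
               (CovZ.badM (by decide +kernel))))
             (CovZ.n1 (-400, 28480) (by decide +kernel)
              (CovZ.n2 (-360, 28440) (by decide +kernel)
               (CovZ.badM (by decide +kernel))
               (CovZ.n1 (-360, 28480) (by decide +kernel)
                (CovZ.badM (by decide +kernel))
                (CovZ.badM (by decide +kernel))))
              (CovZ.badM (by decide +kernel))))
            (CovZ.n1 (-560, 28400) (by decide +kernel)
             (CovZ.n2 (-560, 28480) (by decide +kernel)
              (CovZ.badM (by decide +kernel))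
              (CovZ.badM (by decide +kernel)))
             (CovZ.badM (by decide +kernel)))))))))
      (CovZ.n1 (-1280, 28800) (by decide +kernel)
       (CovZ.badM (by decide +kernel))
       (CovZ.n1 (-960, 28480) (by decide +kernel)
        (CovZ.badM (by decide +kernel))
        (CovZ.badM (by decide +kernel))))))))
    (CovZ.topM TF_LL 79232998512762758883768270848 (by decide +kernel) (CovZ.n0 (-1280, 29440) (by decide +kernel)
    (CovZ.subM 79228162514264337593543950336 (by decide +kernel)
     (CovZ.n2 (-2560, 29440) (by decide +kernel)
      (CovZ.n2 (-1920, 30080) (by decide +kernel)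
       (CovZ.n2 (-1920, 29440) (by decide +kernel)
        (CovZ.badM (by decide +kernel))
        (CovZ.badM (by decide +kernel)))
       (CovZ.badM (by decide +kernel)))
      (CovZ.n1 (-1920, 28800) (by decide +kernel)
       (CovZ.badM (by decide +kernel))
       (CovZ.n1 (-1920, 29440) (by decide +kernel)
        (CovZ.n2 (-1600, 29120) (by decide +kernel)
         (CovZ.badM (by decide +kernel))
         (CovZ.badM (by decide +kernel)))
        (CovZ.badM (by decide +kernel))))))
    (CovZ.n1 (-1280, 30720) (by decide +kernel)
     (CovZ.n2 (-640, 30080) (by decide +kernel)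
      (CovZ.badM (by decide +kernel))
      (CovZ.subM 4835998426363696052174848 (by decide +kernel)
       (CovZ.n1 (-640, 30720) (by decide +kernel)
        (CovZ.n2 (-320, 30400) (by decide +kernel)
         (CovZ.n2 (-640, 30400) (by decide +kernel)
          (CovZ.n2 (-480, 30560) (by decide +kernel)
           (CovZ.n2 (-480, 30400) (by decide +kernel)
            (CovZ.n2 (-560, 30480) (by decide +kernel)
             (CovZ.n2 (-480, 30480) (by decide +kernel)
              (CovZ.n2 (-520, 30440) (by decide +kernel)
               (CovZ.n2 (-520, 30480) (by decide +kernel)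
                (CovZ.leaf K2_ok TF_l11105 _)
                (CovZ.n1 (-540, 30460) (by decide +kernel)
                 (CovZ.leaf K2_ok TF_l11106 _)
                 (CovZ.leaf K2_ok TF_l11107 _)))
               (CovZ.n1 (-480, 30440) (by decide +kernel)
                (CovZ.leaf K2_ok TF_l11108 _)
                (CovZ.leaf K2_ok TF_l11109 _)))
              (CovZ.n1 (-520, 30520) (by decide +kernel)
               (CovZ.leaf K2_ok TF_l11110 _)
               (CovZ.leaf K2_ok TF_l11111 _)))
             (CovZ.n1 (-560, 30400) (by decide +kernel)
              (CovZ.badM (by decide +kernel))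
              (CovZ.n1 (-520, 30440) (by decide +kernel)
               (CovZ.n2 (-520, 30400) (by decide +kernel)
                (CovZ.n2 (-540, 30420) (by decide +kernel)
                 (CovZ.leaf K2_ok TF_l11112 _)
                 (CovZ.leaf K2_ok TF_l11113 _))
                (CovZ.leaf K2_ok TF_l11114 _))
               (CovZ.n1 (-560, 30440) (by decide +kernel)
                (CovZ.leaf K2_ok TF_l11115 _)
                (CovZ.n1 (-540, 30420) (by decide +kernel)
                 (CovZ.badM (by decide +kernel))
                 (CovZ.leaf K2_ok TF_l11116 _))))))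
            (CovZ.n1 (-400, 30480) (by decide +kernel)
             (CovZ.n2 (-400, 30400) (by decide +kernel)
              (CovZ.n2 (-440, 30440) (by decide +kernel)
               (CovZ.leaf K2_ok TF_l11117 _)
               (CovZ.leaf K2_ok TF_l11118 _))
              (CovZ.leaf K2_ok TF_l11119 _))
             (CovZ.n1 (-480, 30480) (by decide +kernel)
              (CovZ.leaf K2_ok TF_l11120 _)
              (CovZ.n1 (-440, 30440) (by decide +kernel)
               (CovZ.leaf K2_ok TF_l11121 _)
               (CovZ.leaf K2_ok TF_l11122 _)))))
           (CovZ.n1 (-640, 30560) (by decide +kernel)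
            (CovZ.n2 (-560, 30640) (by decide +kernel)
             (CovZ.n2 (-560, 30560) (by decide +kernel)
              (CovZ.n2 (-600, 30600) (by decide +kernel)
               (CovZ.n2 (-560, 30600) (by decide +kernel)
                (CovZ.n2 (-580, 30580) (by decide +kernel)
                 (CovZ.leaf K2_ok TF_l11123 _)
                 (CovZ.leaf K2_ok TF_l11124 _))
                (CovZ.leaf K2_ok TF_l11125 _))
               (CovZ.n1 (-600, 30560) (by decide +kernel)
                (CovZ.badM (by decide +kernel))
                (CovZ.leaf K2_ok TF_l11126 _)))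
              (CovZ.n1 (-520, 30600) (by decide +kernel)
               (CovZ.leaf K2_ok TF_l11127 _)
               (CovZ.leaf K2_ok TF_l11128 _)))
             (CovZ.n1 (-640, 30640) (by decide +kernel)
              (CovZ.n2 (-600, 30680) (by decide +kernel)
               (CovZ.n2 (-600, 30640) (by decide +kernel)
                (CovZ.n2 (-620, 30660) (by decide +kernel)
                 (CovZ.leaf K2_ok TF_l11129 _)
                 (CovZ.leaf K2_ok TF_l11130 _))
                (CovZ.leaf K2_ok TF_l11131 _))
               (CovZ.n1 (-640, 30680) (by decide +kernel)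
                (CovZ.n2 (-620, 30700) (by decide +kernel)
                 (CovZ.leaf K2_ok TF_l11132 _)
                 (CovZ.n1 (-640, 30700) (by decide +kernel)
                  (CovZ.leaf K2_ok TF_l11133 _)
                  (CovZ.leaf K2_ok TF_l11134 _)))
                (CovZ.n1 (-620, 30660) (by decide +kernel)
                 (CovZ.badM (by decide +kernel))
                 (CovZ.leaf K2_ok TF_l11135 _))))
              (CovZ.n1 (-600, 30600) (by decide +kernel)
               (CovZ.badM (by decide +kernel))
               (CovZ.n1 (-600, 30640) (by decide +kernel)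
                (CovZ.leaf K2_ok TF_l11136 _)
                (CovZ.n1 (-620, 30620) (by decide +kernel)
                 (CovZ.n2 (-620, 30640) (by decide +kernel)
                  (CovZ.leaf K2_ok TF_l11137 _)
                  (CovZ.badM (by decide +kernel)))
                 (CovZ.leaf K2_ok TF_l11138 _))))))
            (CovZ.n1 (-560, 30480) (by decide +kernel)
             (CovZ.badM (by decide +kernel))
             (CovZ.n1 (-560, 30560) (by decide +kernel)
              (CovZ.n2 (-520, 30520) (by decide +kernel)
               (CovZ.leaf K2_ok TF_l11139 _)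
               (CovZ.n1 (-520, 30560) (by decide +kernel)
                (CovZ.leaf K2_ok TF_l11140 _)
                (CovZ.leaf K2_ok TF_l11141 _)))
              (CovZ.n1 (-600, 30520) (by decide +kernel)
               (CovZ.n2 (-600, 30560) (by decide +kernel)
                (CovZ.n2 (-580, 30540) (by decide +kernel)
                 (CovZ.badM (by decide +kernel))
                 (CovZ.leaf K2_ok TF_l11142 _))
                (CovZ.badM (by decide +kernel)))
               (CovZ.n1 (-560, 30520) (by decide +kernel)
                (CovZ.n2 (-580, 30500) (by decide +kernel)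
                 (CovZ.leaf K2_ok TF_l11143 _)
                 (CovZ.leaf K2_ok TF_l11144 _))
                (CovZ.n1 (-580, 30540) (by decide +kernel)
                 (CovZ.leaf K2_ok TF_l11145 _)
                 (CovZ.leaf K2_ok TF_l11146 _))))))))
          (CovZ.n1 (-480, 30240) (by decide +kernel)
           (CovZ.badM (by decide +kernel))
           (CovZ.n1 (-480, 30400) (by decide +kernel)
            (CovZ.n2 (-400, 30320) (by decide +kernel)
             (CovZ.n2 (-480, 30320) (by decide +kernel)
              (CovZ.leaf K2_ok TF_l11147 _)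
              (CovZ.n1 (-440, 30280) (by decide +kernel)
               (CovZ.n2 (-480, 30280) (by decide +kernel)
                (CovZ.leaf K2_ok TF_l11148 _)
                (CovZ.leaf K2_ok TF_l11149 _))
               (CovZ.n1 (-440, 30320) (by decide +kernel)
                (CovZ.leaf K2_ok TF_l11150 _)
                (CovZ.leaf K2_ok TF_l11151 _))))
             (CovZ.n1 (-400, 30400) (by decide +kernel)
              (CovZ.leaf K2_ok TF_l11152 _)
              (CovZ.n1 (-440, 30360) (by decide +kernel)
               (CovZ.leaf K2_ok TF_l11153 _)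
               (CovZ.leaf K2_ok TF_l11154 _))))
            (CovZ.n1 (-560, 30320) (by decide +kernel)
             (CovZ.n2 (-560, 30400) (by decide +kernel)
              (CovZ.n2 (-520, 30360) (by decide +kernel)
               (CovZ.badM (by decide +kernel))
               (CovZ.n1 (-520, 30400) (by decide +kernel)
                (CovZ.leaf K2_ok TF_l11155 _)
                (CovZ.n1 (-540, 30380) (by decide +kernel)
                 (CovZ.n2 (-540, 30400) (by decide +kernel)
                  (CovZ.leaf K2_ok TF_l11156 _)
                  (CovZ.badM (by decide +kernel)))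
                 (CovZ.leaf K2_ok TF_l11157 _))))
              (CovZ.badM (by decide +kernel)))
             (CovZ.n1 (-480, 30320) (by decide +kernel)
              (CovZ.n2 (-520, 30280) (by decide +kernel)
               (CovZ.n2 (-520, 30320) (by decide +kernel)
                (CovZ.n2 (-500, 30300) (by decide +kernel)
                 (CovZ.badM (by decide +kernel))
                 (CovZ.leaf K2_ok TF_l11158 _))
                (CovZ.badM (by decide +kernel)))
               (CovZ.n1 (-480, 30280) (by decide +kernel)
                (CovZ.n2 (-500, 30260) (by decide +kernel)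
                 (CovZ.n2 (-500, 30280) (by decide +kernel)
                  (CovZ.leaf K2_ok TF_l11159 _)
                  (CovZ.badM (by decide +kernel)))
                 (CovZ.leaf K2_ok TF_l11160 _))
                (CovZ.n1 (-500, 30300) (by decide +kernel)
                 (CovZ.leaf K2_ok TF_l11161 _)
                 (CovZ.leaf K2_ok TF_l11162 _))))
              (CovZ.n1 (-520, 30360) (by decide +kernel)
               (CovZ.n2 (-480, 30360) (by decide +kernel)
                (CovZ.n2 (-500, 30340) (by decide +kernel)
                 (CovZ.leaf K2_ok TF_l11163 _)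
                 (CovZ.leaf K2_ok TF_l11164 _))
                (CovZ.leaf K2_ok TF_l11165 _))
               (CovZ.n1 (-520, 30320) (by decide +kernel)
                (CovZ.badM (by decide +kernel))
                (CovZ.leaf K2_ok TF_l11166 _))))))))
         (CovZ.n1 (-320, 30720) (by decide +kernel)
          (CovZ.n2 (-160, 30560) (by decide +kernel)
           (CovZ.n2 (-320, 30560) (by decide +kernel)
            (CovZ.leaf K2_ok TF_l11167 _)
            (CovZ.n1 (-240, 30480) (by decide +kernel)
             (CovZ.leaf K2_ok TF_l11168 _)
             (CovZ.leaf K2_ok TF_l11169 _)))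
           (CovZ.n1 (-160, 30720) (by decide +kernel)
            (CovZ.leaf K2_ok TF_l11170 _)
            (CovZ.leaf K2_ok TF_l11171 _)))
          (CovZ.n1 (-480, 30560) (by decide +kernel)
           (CovZ.n2 (-480, 30720) (by decide +kernel)
            (CovZ.n2 (-400, 30640) (by decide +kernel)
             (CovZ.n2 (-480, 30640) (by decide +kernel)
              (CovZ.leaf K2_ok TF_l11172 _)
              (CovZ.leaf K2_ok TF_l11173 _))
             (CovZ.n1 (-400, 30720) (by decide +kernel)
              (CovZ.leaf K2_ok TF_l11174 _)
              (CovZ.leaf K2_ok TF_l11175 _)))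
            (CovZ.n1 (-560, 30640) (by decide +kernel)
             (CovZ.n2 (-560, 30720) (by decide +kernel)
              (CovZ.n2 (-520, 30680) (by decide +kernel)
               (CovZ.leaf K2_ok TF_l11176 _)
               (CovZ.leaf K2_ok TF_l11177 _))
              (CovZ.n1 (-600, 30680) (by decide +kernel)
               (CovZ.n2 (-600, 30720) (by decide +kernel)
                (CovZ.leaf K2_ok TF_l11178 _)
                (CovZ.n1 (-620, 30700) (by decide +kernel)
                 (CovZ.leaf K2_ok TF_l11179 _)
                 (CovZ.leaf K2_ok TF_l11180 _)))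
               (CovZ.n1 (-560, 30680) (by decide +kernel)
                (CovZ.leaf K2_ok TF_l11181 _)
                (CovZ.leaf K2_ok TF_l11182 _))))
             (CovZ.n1 (-480, 30640) (by decide +kernel)
              (CovZ.n2 (-520, 30600) (by decide +kernel)
               (CovZ.leaf K2_ok TF_l11183 _)
               (CovZ.leaf K2_ok TF_l11184 _))
              (CovZ.n1 (-520, 30680) (by decide +kernel)
               (CovZ.leaf K2_ok TF_l11185 _)
               (CovZ.leaf K2_ok TF_l11186 _)))))
           (CovZ.n1 (-320, 30560) (by decide +kernel)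
            (CovZ.n2 (-400, 30480) (by decide +kernel)
             (CovZ.n2 (-400, 30560) (by decide +kernel)
              (CovZ.leaf K2_ok TF_l11187 _)
              (CovZ.leaf K2_ok TF_l11188 _))
             (CovZ.n1 (-320, 30480) (by decide +kernel)
              (CovZ.leaf K2_ok TF_l11189 _)
              (CovZ.leaf K2_ok TF_l11190 _)))
            (CovZ.n1 (-400, 30640) (by decide +kernel)
             (CovZ.leaf K2_ok TF_l11191 _)
             (CovZ.n1 (-400, 30560) (by decide +kernel)
              (CovZ.leaf K2_ok TF_l11192 _)
              (CovZ.leaf K2_ok TF_l11193 _)))))))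
        (CovZ.badM (by decide +kernel)))))
     (CovZ.n1 (-1920, 30080) (by decide +kernel)
      (CovZ.n2 (-1920, 30720) (by decide +kernel)
       (CovZ.badM (by decide +kernel))
       (CovZ.badM (by decide +kernel)))
      (CovZ.badM (by decide +kernel))))))

theorem TF_s3_14 : SqZ TF_M TF_L [0, 7, 4, 3] (-7680) (-7680) 2560 3 14 :=
  SqZ.mk (a := 0) (b := 2560) (c := 28160) (d := 30720) (by norm_num) (by norm_num) (by norm_num) (by norm_num)
    (CovZ.topM TF_LL 54445575918713541781038957685189454069760 (by decide +kernel) (CovZ.n2 (1280, 29440) (by decide +kernel)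
    TF_u165
    TF_u166))
    (CovZ.topM TF_LL 43556516811907570172529334429051561443328 (by decide +kernel) (CovZ.n0 (1280, 29440) (by decide +kernel)
    (CovZ.n2 (0, 29440) (by decide +kernel)
     (CovZ.n2 (640, 30080) (by decide +kernel)
      (CovZ.subM 332307018753270187089042812288106496 (by decide +kernel)
       (CovZ.n2 (640, 29440) (by decide +kernel)
        (CovZ.subM 70390219538432 (by decide +kernel)
         (CovZ.n2 (320, 29760) (by decide +kernel)
          (CovZ.n2 (640, 29760) (by decide +kernel)
           (CovZ.n2 (480, 29600) (by decide +kernel)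
            (CovZ.n2 (480, 29760) (by decide +kernel)
             (CovZ.leaf K2_ok TF_l3900 _)
             (CovZ.leaf K2_ok TF_l3901 _))
            (CovZ.n1 (640, 29600) (by decide +kernel)
             (CovZ.leaf K2_ok TF_l3902 _)
             (CovZ.leaf K2_ok TF_l3903 _)))
           (CovZ.n1 (480, 29920) (by decide +kernel)
            (CovZ.n2 (640, 29920) (by decide +kernel)
             (CovZ.leaf K2_ok TF_l12439 _)
             (CovZ.leaf K2_ok TF_l12440 _))
            (CovZ.leaf K2_ok TF_l3904 _)))
          (CovZ.n1 (320, 29440) (by decide +kernel)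
           (CovZ.n2 (160, 29600) (by decide +kernel)
            (CovZ.n2 (320, 29600) (by decide +kernel)
             (CovZ.leaf K2_ok TF_l3905 _)
             (CovZ.leaf K2_ok TF_l3906 _))
            (CovZ.n1 (160, 29440) (by decide +kernel)
             (CovZ.leaf K2_ok TF_l3907 _)
             (CovZ.leaf K2_ok TF_l3908 _)))
           (CovZ.n1 (480, 29600) (by decide +kernel)
            (CovZ.leaf K2_ok TF_l3909 _)
            (CovZ.leaf K2_ok TF_l3910 _)))))
        (CovZ.n1 (960, 29760) (by decide +kernel)
         (CovZ.n2 (960, 29440) (by decide +kernel)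
          (CovZ.n2 (800, 29600) (by decide +kernel)
           (CovZ.leaf K2_ok TF_l3911 _)
           (CovZ.leaf K2_ok TF_l3912 _))
          (CovZ.n1 (1120, 29600) (by decide +kernel)
           (CovZ.leaf K2_ok TF_l3913 _)
           (CovZ.leaf K2_ok TF_l3914 _)))
         (CovZ.subM 70385924571136 (by decide +kernel)
          (CovZ.n1 (640, 29760) (by decide +kernel)
           (CovZ.n2 (800, 29920) (by decide +kernel)
            (CovZ.leaf K2_ok TF_l12441 _)
            (CovZ.leaf K2_ok TF_l12442 _))
           (CovZ.n1 (800, 29600) (by decide +kernel)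
            (CovZ.leaf K2_ok TF_l3915 _)
            (CovZ.leaf K2_ok TF_l12443 _)))))))
      (CovZ.subM 295147975548097527808 (by decide +kernel)
       (CovZ.n1 (0, 30080) (by decide +kernel)
        (CovZ.n2 (320, 30400) (by decide +kernel)
         (CovZ.n2 (320, 30080) (by decide +kernel)
          (CovZ.n2 (160, 30240) (by decide +kernel)
           (CovZ.leaf K2_ok TF_l12444 _)
           (CovZ.leaf K2_ok TF_l12445 _))
          (CovZ.leaf K2_ok TF_l12446 _))
         (CovZ.n1 (0, 30400) (by decide +kernel)
          (CovZ.leaf K2_ok TF_l12447 _)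
          (CovZ.n1 (160, 30240) (by decide +kernel)
           (CovZ.leaf K2_ok TF_l12448 _)
           (CovZ.leaf K2_ok TF_l12449 _))))
        (CovZ.n1 (320, 29760) (by decide +kernel)
         (CovZ.n2 (0, 29760) (by decide +kernel)
          (CovZ.n2 (160, 29920) (by decide +kernel)
           (CovZ.leaf K2_ok TF_l3916 _)
           (CovZ.n1 (0, 29920) (by decide +kernel)
            (CovZ.leaf K2_ok TF_l3917 _)
            (CovZ.leaf K2_ok TF_l3918 _)))
          (CovZ.n1 (160, 29600) (by decide +kernel)
           (CovZ.n2 (0, 29600) (by decide +kernel)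
            (CovZ.leaf K2_ok TF_l3919 _)
            (CovZ.leaf K2_ok TF_l3920 _))
           (CovZ.n1 (160, 29760) (by decide +kernel)
            (CovZ.leaf K2_ok TF_l3921 _)
            (CovZ.leaf K2_ok TF_l3922 _))))
         (CovZ.n1 (320, 30080) (by decide +kernel)
          (CovZ.n2 (480, 29920) (by decide +kernel)
           (CovZ.leaf K2_ok TF_l3923 _)
           (CovZ.n1 (480, 30080) (by decide +kernel)
            (CovZ.leaf K2_ok TF_l12450 _)
            (CovZ.leaf K2_ok TF_l12451 _)))
          (CovZ.n1 (160, 29920) (by decide +kernel)
           (CovZ.n2 (160, 30080) (by decide +kernel)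
            (CovZ.leaf K2_ok TF_l12452 _)
            (CovZ.leaf K2_ok TF_l12453 _))
           (CovZ.n1 (320, 29920) (by decide +kernel)
            (CovZ.leaf K2_ok TF_l3924 _)
            (CovZ.leaf K2_ok TF_l12454 _))))))))
     (CovZ.n1 (640, 28800) (by decide +kernel)
      (CovZ.n2 (0, 28800) (by decide +kernel)
       (CovZ.n2 (320, 29120) (by decide +kernel)
        (CovZ.n2 (320, 28800) (by decide +kernel)
         (CovZ.n2 (160, 28960) (by decide +kernel)
          (CovZ.leaf K2_ok TF_l3925 _)
          (CovZ.leaf K2_ok TF_l3926 _))
         (CovZ.subM 332307018753270187089042812288106496 (by decide +kernel)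
          (CovZ.n1 (480, 28960) (by decide +kernel)
           (CovZ.n2 (480, 28800) (by decide +kernel)
            (CovZ.leaf K2_ok TF_l3927 _)
            (CovZ.leaf K2_ok TF_l3928 _))
           (CovZ.n1 (320, 28960) (by decide +kernel)
            (CovZ.leaf K2_ok TF_l3929 _)
            (CovZ.leaf K2_ok TF_l3930 _)))))
        (CovZ.subM 70385924571136 (by decide +kernel)
         (CovZ.n1 (0, 29120) (by decide +kernel)
          (CovZ.n2 (160, 29280) (by decide +kernel)
           (CovZ.n2 (160, 29120) (by decide +kernel)
            (CovZ.leaf K2_ok TF_l3931 _)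
            (CovZ.leaf K2_ok TF_l3932 _))
           (CovZ.n1 (0, 29280) (by decide +kernel)
            (CovZ.leaf K2_ok TF_l3933 _)
            (CovZ.leaf K2_ok TF_l3934 _)))
          (CovZ.n1 (160, 28960) (by decide +kernel)
           (CovZ.leaf K2_ok TF_l3935 _)
           (CovZ.leaf K2_ok TF_l3936 _)))))
       (CovZ.n1 (320, 28480) (by decide +kernel)
        (CovZ.n2 (0, 28480) (by decide +kernel)
         (CovZ.leaf K2_ok TF_l3937 _)
         (CovZ.n1 (160, 28320) (by decide +kernel)
          (CovZ.leaf K2_ok TF_l3938 _)
          (CovZ.leaf K2_ok TF_l3939 _)))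
        (CovZ.n1 (320, 28800) (by decide +kernel)
         (CovZ.n2 (480, 28640) (by decide +kernel)
          (CovZ.leaf K2_ok TF_l3940 _)
          (CovZ.n1 (480, 28800) (by decide +kernel)
           (CovZ.n2 (560, 28720) (by decide +kernel)
            (CovZ.leaf K2_ok TF_l3941 _)
            (CovZ.leaf K2_ok TF_l3942 _))
           (CovZ.leaf K2_ok TF_l3943 _)))
         (CovZ.n1 (160, 28640) (by decide +kernel)
          (CovZ.leaf K2_ok TF_l3944 _)
          (CovZ.leaf K2_ok TF_l3945 _)))))
      (CovZ.subM 332307018753270187089042812288106496 (by decide +kernel)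
       (CovZ.n1 (640, 29440) (by decide +kernel)
        (CovZ.n2 (960, 29120) (by decide +kernel)
         (CovZ.n2 (640, 29120) (by decide +kernel)
          (CovZ.leaf K2_ok TF_l3946 _)
          (CovZ.n1 (800, 28960) (by decide +kernel)
           (CovZ.n2 (640, 28960) (by decide +kernel)
            (CovZ.leaf K2_ok TF_l3947 _)
            (CovZ.leaf K2_ok TF_l3948 _))
           (CovZ.n1 (800, 29120) (by decide +kernel)
            (CovZ.leaf K2_ok TF_l3949 _)
            (CovZ.leaf K2_ok TF_l3950 _))))
         (CovZ.n1 (960, 29440) (by decide +kernel)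
          (CovZ.n2 (1120, 29280) (by decide +kernel)
           (CovZ.n2 (960, 29280) (by decide +kernel)
            (CovZ.leaf K2_ok TF_l3951 _)
            (CovZ.leaf K2_ok TF_l3952 _))
           (CovZ.leaf K2_ok TF_l3953 _))
          (CovZ.n1 (800, 29280) (by decide +kernel)
           (CovZ.n2 (800, 29440) (by decide +kernel)
            (CovZ.leaf K2_ok TF_l3954 _)
            (CovZ.leaf K2_ok TF_l3955 _))
           (CovZ.n1 (960, 29280) (by decide +kernel)
            (CovZ.leaf K2_ok TF_l3956 _)
            (CovZ.leaf K2_ok TF_l3957 _)))))
        (CovZ.n1 (320, 29120) (by decide +kernel)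
         (CovZ.subM 70390219538432 (by decide +kernel)
          (CovZ.n2 (320, 29440) (by decide +kernel)
           (CovZ.n2 (480, 29280) (by decide +kernel)
            (CovZ.n2 (320, 29280) (by decide +kernel)
             (CovZ.leaf K2_ok TF_l3958 _)
             (CovZ.n1 (400, 29200) (by decide +kernel)
              (CovZ.leaf K2_ok TF_l3959 _)
              (CovZ.leaf K2_ok TF_l3960 _)))
            (CovZ.n1 (480, 29440) (by decide +kernel)
             (CovZ.leaf K2_ok TF_l3961 _)
             (CovZ.leaf K2_ok TF_l3962 _)))
           (CovZ.n1 (160, 29280) (by decide +kernel)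
            (CovZ.n2 (160, 29440) (by decide +kernel)
             (CovZ.leaf K2_ok TF_l3963 _)
             (CovZ.leaf K2_ok TF_l3964 _))
            (CovZ.n1 (320, 29280) (by decide +kernel)
             (CovZ.leaf K2_ok TF_l3965 _)
             (CovZ.leaf K2_ok TF_l3966 _)))))
         (CovZ.n1 (640, 29120) (by decide +kernel)
          (CovZ.n2 (480, 28960) (by decide +kernel)
           (CovZ.n2 (480, 29120) (by decide +kernel)
            (CovZ.n2 (560, 29040) (by decide +kernel)
             (CovZ.leaf K2_ok TF_l3967 _)
             (CovZ.leaf K2_ok TF_l3968 _))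
            (CovZ.n1 (400, 29040) (by decide +kernel)
             (CovZ.leaf K2_ok TF_l3969 _)
             (CovZ.leaf K2_ok TF_l3970 _)))
           (CovZ.n1 (640, 28960) (by decide +kernel)
            (CovZ.n2 (560, 28880) (by decide +kernel)
             (CovZ.leaf K2_ok TF_l3971 _)
             (CovZ.leaf K2_ok TF_l3972 _))
            (CovZ.n1 (560, 29040) (by decide +kernel)
             (CovZ.leaf K2_ok TF_l3973 _)
             (CovZ.leaf K2_ok TF_l3974 _))))
          (CovZ.n1 (480, 29280) (by decide +kernel)
           (CovZ.n2 (640, 29280) (by decide +kernel)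
            (CovZ.leaf K2_ok TF_l3975 _)
            (CovZ.leaf K2_ok TF_l3976 _))
           (CovZ.n1 (480, 29120) (by decide +kernel)
            (CovZ.n2 (400, 29200) (by decide +kernel)
             (CovZ.leaf K2_ok TF_l3977 _)
             (CovZ.leaf K2_ok TF_l3978 _))
            (CovZ.leaf K2_ok TF_l3979 _)))))))))
    (CovZ.subM 19807041514010996222275878912 (by decide +kernel)
     (CovZ.n1 (1280, 30720) (by decide +kernel)
      TF_u169
      TF_u170))))

theorem TF_s4_14 : SqZ TF_M TF_L [0, 7, 4, 3] (-7680) (-7680) 2560 4 14 :=
  SqZ.mk (a := 2560) (b := 5120) (c := 28160) (d := 30720) (by norm_num) (by norm_num) (by norm_num) (by norm_num)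
    (CovZ.topM TF_LL 2475880078570760549798248448 (by decide +kernel) (CovZ.n2 (3840, 29440) (by decide +kernel)
    (CovZ.badM (by decide +kernel))
    (CovZ.n1 (3840, 28160) (by decide +kernel)
     (CovZ.badM (by decide +kernel))
     (CovZ.badM (by decide +kernel)))))
    (CovZ.topM TF_LL 0 (by decide +kernel) (CovZ.badM (by decide +kernel)))

theorem TF_s5_14 : SqZ TF_M TF_L [0, 7, 4, 3] (-7680) (-7680) 2560 5 14 :=
  SqZ.mk (a := 5120) (b := 7680) (c := 28160) (d := 30720) (by norm_num) (by norm_num) (by norm_num) (by norm_num)
    (CovZ.topM TF_LL 20282409603651670423947251286016 (by decide +kernel) (CovZ.n2 (6400, 29440) (by decide +kernel)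
    (CovZ.badM (by decide +kernel))
    (CovZ.n1 (6400, 28160) (by decide +kernel)
     (CovZ.n2 (5760, 28800) (by decide +kernel)
      (CovZ.badM (by decide +kernel))
      (CovZ.n1 (5760, 28160) (by decide +kernel)
       (CovZ.n2 (5440, 28480) (by decide +kernel)
        (CovZ.badM (by decide +kernel))
        (CovZ.n1 (5440, 28160) (by decide +kernel)
         (CovZ.badM (by decide +kernel))
         (CovZ.badM (by decide +kernel))))
       (CovZ.badM (by decide +kernel))))
     (CovZ.badM (by decide +kernel)))))
    (CovZ.topM TF_LL 20282409603651670423947251286016 (by decide +kernel) (CovZ.n0 (6400, 29440) (by decide +kernel)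
    (CovZ.n2 (5120, 29440) (by decide +kernel)
     (CovZ.n2 (5760, 30080) (by decide +kernel)
      (CovZ.n2 (5760, 29440) (by decide +kernel)
       (CovZ.badM (by decide +kernel))
       (CovZ.badM (by decide +kernel)))
      (CovZ.badM (by decide +kernel)))
     (CovZ.n1 (5760, 28800) (by decide +kernel)
      (CovZ.n2 (5120, 28800) (by decide +kernel)
       (CovZ.n2 (5440, 29120) (by decide +kernel)
        (CovZ.n2 (5440, 28800) (by decide +kernel)
         (CovZ.badM (by decide +kernel))
         (CovZ.badM (by decide +kernel)))
        (CovZ.badM (by decide +kernel)))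
       (CovZ.n1 (5440, 28480) (by decide +kernel)
        (CovZ.badM (by decide +kernel))
        (CovZ.n1 (5440, 28800) (by decide +kernel)
         (CovZ.badM (by decide +kernel))
         (CovZ.badM (by decide +kernel)))))
      (CovZ.n1 (5760, 29440) (by decide +kernel)
       (CovZ.badM (by decide +kernel))
       (CovZ.n1 (5440, 29120) (by decide +kernel)
        (CovZ.badM (by decide +kernel))
        (CovZ.badM (by decide +kernel))))))
    (CovZ.n1 (6400, 30720) (by decide +kernel)
     (CovZ.badM (by decide +kernel))
     (CovZ.n1 (5760, 30080) (by decide +kernel)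
      (CovZ.n2 (5760, 30720) (by decide +kernel)
       (CovZ.badM (by decide +kernel))
       (CovZ.badM (by decide +kernel)))
      (CovZ.badM (by decide +kernel))))))

theorem TF_s6_14 : SqZ TF_M TF_L [0, 7, 4, 3] (-7680) (-7680) 2560 6 14 :=
  SqZ.mk (a := 7680) (b := 10240) (c := 28160) (d := 30720) (by norm_num) (by norm_num) (by norm_num) (by norm_num)
    (CovZ.topM TF_LL 1393796574908163946345982392040522594123776 (by decide +kernel) (CovZ.n2 (8960, 29440) (by decide +kernel)
    (CovZ.n2 (10240, 29440) (by decide +kernel)
     (CovZ.n2 (9600, 28800) (by decide +kernel)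
      (CovZ.badM (by decide +kernel))
      (CovZ.n1 (10240, 28800) (by decide +kernel)
       (CovZ.n2 (9920, 28480) (by decide +kernel)
        (CovZ.n2 (9920, 28800) (by decide +kernel)
         (CovZ.badM (by decide +kernel))
         (CovZ.n1 (9760, 28640) (by decide +kernel)
          (CovZ.badM (by decide +kernel))
          (CovZ.badM (by decide +kernel))))
        (CovZ.badM (by decide +kernel)))
       (CovZ.n1 (9920, 29120) (by decide +kernel)
        (CovZ.badM (by decide +kernel))
        (CovZ.n1 (9920, 28800) (by decide +kernel)
         (CovZ.badM (by decide +kernel))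
         (CovZ.badM (by decide +kernel))))))
     (CovZ.badM (by decide +kernel)))
    (CovZ.n1 (8960, 28160) (by decide +kernel)
     (CovZ.badM (by decide +kernel))
     (CovZ.n1 (9600, 28800) (by decide +kernel)
      (CovZ.n2 (9600, 28160) (by decide +kernel)
       (CovZ.badM (by decide +kernel))
       (CovZ.n1 (9920, 28480) (by decide +kernel)
        (CovZ.badM (by decide +kernel))
        (CovZ.n1 (9600, 28480) (by decide +kernel)
         (CovZ.n2 (9760, 28640) (by decide +kernel)
          (CovZ.n2 (9760, 28480) (by decide +kernel)
           (CovZ.badM (by decide +kernel))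
           (CovZ.badM (by decide +kernel)))
          (CovZ.badM (by decide +kernel)))
         (CovZ.n1 (9760, 28320) (by decide +kernel)
          (CovZ.badM (by decide +kernel))
          (CovZ.n1 (9760, 28480) (by decide +kernel)
           (CovZ.badM (by decide +kernel))
           (CovZ.badM (by decide +kernel)))))))
      (CovZ.badM (by decide +kernel))))))
    (CovZ.topM TF_LL 0 (by decide +kernel) (CovZ.badM (by decide +kernel)))

theorem TF_s7_14 : SqZ TF_M TF_L [0, 7, 4, 3] (-7680) (-7680) 2560 7 14 :=
  SqZ.mk (a := 10240) (b := 12800) (c := 28160) (d := 30720) (by norm_num) (by norm_num) (by norm_num) (by norm_num)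
    (CovZ.topM TF_LL 0 (by decide +kernel) (CovZ.badM (by decide +kernel)))
    (CovZ.topM TF_LL 1393796574908163946345982392040522594123776 (by decide +kernel) (CovZ.n0 (11520, 29440) (by decide +kernel)
    (CovZ.n2 (10240, 29440) (by decide +kernel)
     (CovZ.n2 (10880, 30080) (by decide +kernel)
      (CovZ.badM (by decide +kernel))
      (CovZ.n1 (10240, 30080) (by decide +kernel)
       (CovZ.n2 (10560, 30400) (by decide +kernel)
        (CovZ.badM (by decide +kernel))
        (CovZ.badM (by decide +kernel)))
       (CovZ.badM (by decide +kernel))))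
     (CovZ.badM (by decide +kernel)))
    (CovZ.n1 (11520, 30720) (by decide +kernel)
     (CovZ.badM (by decide +kernel))
     (CovZ.n1 (10880, 30080) (by decide +kernel)
      (CovZ.n2 (10880, 30720) (by decide +kernel)
       (CovZ.badM (by decide +kernel))
       (CovZ.n1 (10560, 30400) (by decide +kernel)
        (CovZ.badM (by decide +kernel))
        (CovZ.badM (by decide +kernel))))
      (CovZ.badM (by decide +kernel))))))

theorem TF_s8_14 : SqZ TF_M TF_L [0, 7, 4, 3] (-7680) (-7680) 2560 8 14 :=
  SqZ.mk (a := 12800) (b := 15360) (c := 28160) (d := 30720) (by norm_num) (by norm_num) (by norm_num) (by norm_num)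
    (CovZ.topM TF_LL 0 (by decide +kernel) (CovZ.badM (by decide +kernel)))
    (CovZ.topM TF_LL 0 (by decide +kernel) (CovZ.badM (by decide +kernel)))

theorem TF_s9_14 : SqZ TF_M TF_L [0, 7, 4, 3] (-7680) (-7680) 2560 9 14 :=
  SqZ.mk (a := 15360) (b := 17920) (c := 28160) (d := 30720) (by norm_num) (by norm_num) (by norm_num) (by norm_num)
    (CovZ.topM TF_LL 0 (by decide +kernel) (CovZ.badM (by decide +kernel)))
    (CovZ.topM TF_LL 0 (by decide +kernel) (CovZ.badM (by decide +kernel)))

theorem TF_s10_14 : SqZ TF_M TF_L [0, 7, 4, 3] (-7680) (-7680) 2560 10 14 :=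
  SqZ.mk (a := 17920) (b := 20480) (c := 28160) (d := 30720) (by norm_num) (by norm_num) (by norm_num) (by norm_num)
    (CovZ.topM TF_LL 0 (by decide +kernel) (CovZ.badM (by decide +kernel)))
    (CovZ.topM TF_LL 0 (by decide +kernel) (CovZ.badM (by decide +kernel)))

theorem TF_s11_14 : SqZ TF_M TF_L [0, 7, 4, 3] (-7680) (-7680) 2560 11 14 :=
  SqZ.mk (a := 20480) (b := 23040) (c := 28160) (d := 30720) (by norm_num) (by norm_num) (by norm_num) (by norm_num)
    (CovZ.topM TF_LL 0 (by decide +kernel) (CovZ.badM (by decide +kernel)))
    (CovZ.topM TF_LL 0 (by decide +kernel) (CovZ.badM (by decide +kernel)))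

theorem TF_s12_14 : SqZ TF_M TF_L [0, 7, 4, 3] (-7680) (-7680) 2560 12 14 :=
  SqZ.mk (a := 23040) (b := 25600) (c := 28160) (d := 30720) (by norm_num) (by norm_num) (by norm_num) (by norm_num)
    (CovZ.topM TF_LL 1267650600228229401496703205376 (by decide +kernel) (CovZ.n2 (24320, 29440) (by decide +kernel)
    (CovZ.n2 (25600, 29440) (by decide +kernel)
     (CovZ.n2 (24960, 28800) (by decide +kernel)
      (CovZ.badM (by decide +kernel))
      (CovZ.n1 (25600, 28800) (by decide +kernel)
       (CovZ.n2 (25280, 28480) (by decide +kernel)
        (CovZ.badM (by decide +kernel))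
        (CovZ.badM (by decide +kernel)))
       (CovZ.badM (by decide +kernel))))
     (CovZ.badM (by decide +kernel)))
    (CovZ.n1 (24320, 28160) (by decide +kernel)
     (CovZ.badM (by decide +kernel))
     (CovZ.n1 (24960, 28800) (by decide +kernel)
      (CovZ.n2 (24960, 28160) (by decide +kernel)
       (CovZ.badM (by decide +kernel))
       (CovZ.n1 (25280, 28480) (by decide +kernel)
        (CovZ.badM (by decide +kernel))
        (CovZ.badM (by decide +kernel))))
      (CovZ.badM (by decide +kernel))))))
    (CovZ.topM TF_LL 0 (by decide +kernel) (CovZ.badM (by decide +kernel)))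

theorem TF_s13_14 : SqZ TF_M TF_L [0, 7, 4, 3] (-7680) (-7680) 2560 13 14 :=
  SqZ.mk (a := 25600) (b := 28160) (c := 28160) (d := 30720) (by norm_num) (by norm_num) (by norm_num) (by norm_num)
    (CovZ.topM TF_LL 0 (by decide +kernel) (CovZ.badM (by decide +kernel)))
    (CovZ.topM TF_LL 1267650600228229401496703205376 (by decide +kernel) (CovZ.n0 (26880, 29440) (by decide +kernel)
    (CovZ.n2 (25600, 29440) (by decide +kernel)
     (CovZ.n2 (26240, 30080) (by decide +kernel)
      (CovZ.n2 (26240, 29440) (by decide +kernel)
       (CovZ.badM (by decide +kernel))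
       (CovZ.n1 (26560, 29760) (by decide +kernel)
        (CovZ.badM (by decide +kernel))
        (CovZ.badM (by decide +kernel))))
      (CovZ.badM (by decide +kernel)))
     (CovZ.n1 (26240, 28800) (by decide +kernel)
      (CovZ.n2 (25600, 28800) (by decide +kernel)
       (CovZ.n2 (25920, 29120) (by decide +kernel)
        (CovZ.badM (by decide +kernel))
        (CovZ.badM (by decide +kernel)))
       (CovZ.badM (by decide +kernel)))
      (CovZ.n1 (26240, 29440) (by decide +kernel)
       (CovZ.badM (by decide +kernel))
       (CovZ.n1 (25920, 29120) (by decide +kernel)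
        (CovZ.badM (by decide +kernel))
        (CovZ.badM (by decide +kernel))))))
    (CovZ.n1 (26880, 30720) (by decide +kernel)
     (CovZ.n2 (27520, 30080) (by decide +kernel)
      (CovZ.n2 (26880, 30080) (by decide +kernel)
       (CovZ.n2 (27200, 30400) (by decide +kernel)
        (CovZ.badM (by decide +kernel))
        (CovZ.badM (by decide +kernel)))
       (CovZ.badM (by decide +kernel)))
      (CovZ.n1 (27520, 30720) (by decide +kernel)
       (CovZ.badM (by decide +kernel))
       (CovZ.n1 (27200, 30400) (by decide +kernel)
        (CovZ.badM (by decide +kernel))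
        (CovZ.badM (by decide +kernel)))))
     (CovZ.n1 (26240, 30080) (by decide +kernel)
      (CovZ.badM (by decide +kernel))
      (CovZ.n1 (26880, 30080) (by decide +kernel)
       (CovZ.n2 (26560, 29760) (by decide +kernel)
        (CovZ.badM (by decide +kernel))
        (CovZ.badM (by decide +kernel)))
       (CovZ.badM (by decide +kernel)))))))

theorem TF_s14_14 : SqZ TF_M TF_L [0, 7, 4, 3] (-7680) (-7680) 2560 14 14 :=
  SqZ.mk (a := 28160) (b := 30720) (c := 28160) (d := 30720) (by norm_num) (by norm_num) (by norm_num) (by norm_num)
    (CovZ.topM TF_LL 0 (by decide +kernel) (CovZ.badM (by decide +kernel)))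
    (CovZ.topM TF_LL 0 (by decide +kernel) (CovZ.badM (by decide +kernel)))

theorem TF_s15_14 : SqZ TF_M TF_L [0, 7, 4, 3] (-7680) (-7680) 2560 15 14 :=
  SqZ.mk (a := 30720) (b := 33280) (c := 28160) (d := 30720) (by norm_num) (by norm_num) (by norm_num) (by norm_num)
    (CovZ.topM TF_LL 0 (by decide +kernel) (CovZ.badM (by decide +kernel)))
    (CovZ.topM TF_LL 0 (by decide +kernel) (CovZ.badM (by decide +kernel)))

theorem TF_s0_15 : SqZ TF_M TF_L [0, 7, 4, 3] (-7680) (-7680) 2560 0 15 :=
  SqZ.mk (a := (-7680)) (b := (-5120)) (c := 30720) (d := 33280) (by norm_num) (by norm_num) (by norm_num) (by norm_num)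
    (CovZ.topM TF_LL 0 (by decide +kernel) (CovZ.badM (by decide +kernel)))
    (CovZ.topM TF_LL 0 (by decide +kernel) (CovZ.badM (by decide +kernel)))

theorem TF_s1_15 : SqZ TF_M TF_L [0, 7, 4, 3] (-7680) (-7680) 2560 1 15 :=
  SqZ.mk (a := (-5120)) (b := (-2560)) (c := 30720) (d := 33280) (by norm_num) (by norm_num) (by norm_num) (by norm_num)
    (CovZ.topM TF_LL 0 (by decide +kernel) (CovZ.badM (by decide +kernel)))
    (CovZ.topM TF_LL 0 (by decide +kernel) (CovZ.badM (by decide +kernel)))

theorem TF_s2_15 : SqZ TF_M TF_L [0, 7, 4, 3] (-7680) (-7680) 2560 2 15 :=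
  SqZ.mk (a := (-2560)) (b := 0) (c := 30720) (d := 33280) (by norm_num) (by norm_num) (by norm_num) (by norm_num)
    (CovZ.topM TF_LL 79232998217542796110377517056 (by decide +kernel) (CovZ.n2 (-1280, 32000) (by decide +kernel)
    (CovZ.n2 (0, 32000) (by decide +kernel)
     (CovZ.n2 (-640, 31360) (by decide +kernel)
      (CovZ.n2 (-640, 32000) (by decide +kernel)
       (CovZ.badM (by decide +kernel))
       (CovZ.badM (by decide +kernel)))
      (CovZ.n1 (0, 31360) (by decide +kernel)
       (CovZ.n2 (-320, 31040) (by decide +kernel)
        (CovZ.badM (by decide +kernel))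
        (CovZ.n1 (0, 31040) (by decide +kernel)
         (CovZ.n2 (-160, 30880) (by decide +kernel)
          (CovZ.badM (by decide +kernel))
          (CovZ.n1 (0, 30880) (by decide +kernel)
           (CovZ.leaf K2_ok TF_l11194 _)
           (CovZ.badM (by decide +kernel))))
         (CovZ.badM (by decide +kernel))))
       (CovZ.badM (by decide +kernel))))
     (CovZ.n1 (-640, 32640) (by decide +kernel)
      (CovZ.badM (by decide +kernel))
      (CovZ.n1 (-640, 32000) (by decide +kernel)
       (CovZ.badM (by decide +kernel))
       (CovZ.badM (by decide +kernel)))))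
    (CovZ.n1 (-1280, 30720) (by decide +kernel)
     (CovZ.n2 (-1920, 31360) (by decide +kernel)
      (CovZ.badM (by decide +kernel))
      (CovZ.n1 (-1920, 30720) (by decide +kernel)
       (CovZ.badM (by decide +kernel))
       (CovZ.badM (by decide +kernel))))
     (CovZ.n1 (-640, 31360) (by decide +kernel)
      (CovZ.n2 (-640, 30720) (by decide +kernel)
       (CovZ.badM (by decide +kernel))
       (CovZ.n1 (-320, 31040) (by decide +kernel)
        (CovZ.n2 (-320, 30720) (by decide +kernel)
         (CovZ.n2 (-480, 30880) (by decide +kernel)
          (CovZ.n2 (-320, 30880) (by decide +kernel)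
           (CovZ.n2 (-400, 30800) (by decide +kernel)
            (CovZ.badM (by decide +kernel))
            (CovZ.leaf K2_ok TF_l11195 _))
           (CovZ.badM (by decide +kernel)))
          (CovZ.n1 (-480, 30720) (by decide +kernel)
           (CovZ.n2 (-560, 30800) (by decide +kernel)
            (CovZ.n2 (-480, 30800) (by decide +kernel)
             (CovZ.leaf K2_ok TF_l11196 _)
             (CovZ.badM (by decide +kernel)))
            (CovZ.n1 (-560, 30720) (by decide +kernel)
             (CovZ.n2 (-600, 30760) (by decide +kernel)
              (CovZ.leaf K2_ok TF_l11197 _)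
              (CovZ.leaf K2_ok TF_l11198 _))
             (CovZ.leaf K2_ok TF_l11199 _)))
           (CovZ.leaf K2_ok TF_l11200 _)))
         (CovZ.n1 (-160, 30880) (by decide +kernel)
          (CovZ.leaf K2_ok TF_l11201 _)
          (CovZ.leaf K2_ok TF_l11202 _)))
        (CovZ.badM (by decide +kernel))))
      (CovZ.badM (by decide +kernel))))))
    (CovZ.topM TF_LL 79232998217542796110376992768 (by decide +kernel) (CovZ.n0 (-1280, 32000) (by decide +kernel)
    (CovZ.n2 (-2560, 32000) (by decide +kernel)
     (CovZ.n2 (-1920, 32640) (by decide +kernel)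
      (CovZ.n2 (-1920, 32000) (by decide +kernel)
       (CovZ.badM (by decide +kernel))
       (CovZ.badM (by decide +kernel)))
      (CovZ.badM (by decide +kernel)))
     (CovZ.n1 (-1920, 31360) (by decide +kernel)
      (CovZ.badM (by decide +kernel))
      (CovZ.n1 (-1920, 32000) (by decide +kernel)
       (CovZ.badM (by decide +kernel))
       (CovZ.badM (by decide +kernel)))))
    (CovZ.n1 (-1280, 33280) (by decide +kernel)
     (CovZ.n2 (-640, 32640) (by decide +kernel)
      (CovZ.badM (by decide +kernel))
      (CovZ.n1 (-640, 33280) (by decide +kernel)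
       (CovZ.badM (by decide +kernel))
       (CovZ.badM (by decide +kernel))))
     (CovZ.badM (by decide +kernel)))))

theorem TF_s3_15 : SqZ TF_M TF_L [0, 7, 4, 3] (-7680) (-7680) 2560 3 15 :=
  SqZ.mk (a := 0) (b := 2560) (c := 30720) (d := 33280) (by norm_num) (by norm_num) (by norm_num) (by norm_num)
    (CovZ.topM TF_LL 19807041218863020656999006208 (by decide +kernel) (CovZ.n2 (1280, 32000) (by decide +kernel)
    (CovZ.n2 (2560, 32000) (by decide +kernel)
     (CovZ.n2 (1920, 31360) (by decide +kernel)
      (CovZ.badM (by decide +kernel))
      (CovZ.badM (by decide +kernel)))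
     (CovZ.badM (by decide +kernel)))
    (CovZ.n1 (1280, 30720) (by decide +kernel)
     (CovZ.n2 (640, 31360) (by decide +kernel)
      (CovZ.badM (by decide +kernel))
      (CovZ.n1 (640, 30720) (by decide +kernel)
       (CovZ.n2 (320, 31040) (by decide +kernel)
        (CovZ.n2 (640, 31040) (by decide +kernel)
         (CovZ.n2 (480, 30880) (by decide +kernel)
          (CovZ.n2 (480, 31040) (by decide +kernel)
           (CovZ.n2 (560, 30960) (by decide +kernel)
            (CovZ.n2 (480, 30960) (by decide +kernel)
             (CovZ.badM (by decide +kernel))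
             (CovZ.n1 (520, 30920) (by decide +kernel)
              (CovZ.n2 (480, 30920) (by decide +kernel)
               (CovZ.badM (by decide +kernel))
               (CovZ.n1 (500, 30900) (by decide +kernel)
                (CovZ.leaf K2_ok TF_l12718 _)
                (CovZ.badM (by decide +kernel))))
              (CovZ.badM (by decide +kernel))))
            (CovZ.badM (by decide +kernel)))
           (CovZ.n1 (400, 30960) (by decide +kernel)
            (CovZ.n2 (400, 31040) (by decide +kernel)
             (CovZ.n2 (440, 31000) (by decide +kernel)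
              (CovZ.n2 (400, 31000) (by decide +kernel)
               (CovZ.badM (by decide +kernel))
               (CovZ.n1 (420, 30980) (by decide +kernel)
                (CovZ.leaf K2_ok TF_l12719 _)
                (CovZ.badM (by decide +kernel))))
              (CovZ.badM (by decide +kernel)))
             (CovZ.n1 (360, 31000) (by decide +kernel)
              (CovZ.badM (by decide +kernel))
              (CovZ.n1 (400, 31000) (by decide +kernel)
               (CovZ.leaf K2_ok TF_l12720 _)
               (CovZ.badM (by decide +kernel)))))
            (CovZ.n1 (480, 30960) (by decide +kernel)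
             (CovZ.n2 (440, 30920) (by decide +kernel)
              (CovZ.n2 (440, 30960) (by decide +kernel)
               (CovZ.n2 (460, 30940) (by decide +kernel)
                (CovZ.leaf K2_ok TF_l12721 _)
                (CovZ.n1 (460, 30960) (by decide +kernel)
                 (CovZ.badM (by decide +kernel))
                 (CovZ.leaf K2_ok TF_l12722 _)))
               (CovZ.leaf K2_ok TF_l12723 _))
              (CovZ.n1 (480, 30920) (by decide +kernel)
               (CovZ.leaf K2_ok TF_l12724 _)
               (CovZ.n1 (460, 30940) (by decide +kernel)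
                (CovZ.badM (by decide +kernel))
                (CovZ.leaf K2_ok TF_l12725 _))))
             (CovZ.n1 (440, 31000) (by decide +kernel)
              (CovZ.badM (by decide +kernel))
              (CovZ.n1 (440, 30960) (by decide +kernel)
               (CovZ.n2 (420, 30980) (by decide +kernel)
                (CovZ.n2 (440, 30980) (by decide +kernel)
                 (CovZ.leaf K2_ok TF_l12726 _)
                 (CovZ.badM (by decide +kernel)))
                (CovZ.leaf K2_ok TF_l12727 _))
               (CovZ.n1 (460, 30980) (by decide +kernel)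
                (CovZ.leaf K2_ok TF_l12728 _)
                (CovZ.n1 (440, 30980) (by decide +kernel)
                 (CovZ.badM (by decide +kernel))
                 (CovZ.leaf K2_ok TF_l12729 _))))))))
          (CovZ.n1 (640, 30880) (by decide +kernel)
           (CovZ.n2 (560, 30800) (by decide +kernel)
            (CovZ.n2 (560, 30880) (by decide +kernel)
             (CovZ.badM (by decide +kernel))
             (CovZ.n1 (520, 30840) (by decide +kernel)
              (CovZ.n2 (520, 30880) (by decide +kernel)
               (CovZ.n2 (540, 30860) (by decide +kernel)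
                (CovZ.leaf K2_ok TF_l12730 _)
                (CovZ.badM (by decide +kernel)))
               (CovZ.leaf K2_ok TF_l12731 _))
              (CovZ.n1 (560, 30840) (by decide +kernel)
               (CovZ.leaf K2_ok TF_l12732 _)
               (CovZ.n1 (540, 30860) (by decide +kernel)
                (CovZ.badM (by decide +kernel))
                (CovZ.leaf K2_ok TF_l12733 _)))))
            (CovZ.badM (by decide +kernel)))
           (CovZ.n1 (560, 30960) (by decide +kernel)
            (CovZ.badM (by decide +kernel))
            (CovZ.n1 (560, 30880) (by decide +kernel)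
             (CovZ.n2 (520, 30920) (by decide +kernel)
              (CovZ.badM (by decide +kernel))
              (CovZ.n1 (520, 30880) (by decide +kernel)
               (CovZ.n2 (500, 30900) (by decide +kernel)
                (CovZ.badM (by decide +kernel))
                (CovZ.leaf K2_ok TF_l12734 _))
               (CovZ.badM (by decide +kernel))))
             (CovZ.badM (by decide +kernel))))))
         (CovZ.badM (by decide +kernel)))
        (CovZ.n1 (320, 30720) (by decide +kernel)
         (CovZ.n2 (160, 30880) (by decide +kernel)
          (CovZ.n2 (320, 30880) (by decide +kernel)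
           (CovZ.n2 (240, 30800) (by decide +kernel)
            (CovZ.leaf K2_ok TF_l12735 _)
            (CovZ.leaf K2_ok TF_l12736 _))
           (CovZ.n1 (240, 30960) (by decide +kernel)
            (CovZ.n2 (320, 30960) (by decide +kernel)
             (CovZ.leaf K2_ok TF_l12737 _)
             (CovZ.badM (by decide +kernel)))
            (CovZ.leaf K2_ok TF_l12738 _)))
          (CovZ.leaf K2_ok TF_l12739 _))
         (CovZ.n1 (480, 30880) (by decide +kernel)
          (CovZ.n2 (480, 30720) (by decide +kernel)
           (CovZ.n2 (400, 30800) (by decide +kernel)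
            (CovZ.n2 (480, 30800) (by decide +kernel)
             (CovZ.leaf K2_ok TF_l12740 _)
             (CovZ.n1 (440, 30840) (by decide +kernel)
              (CovZ.n2 (480, 30840) (by decide +kernel)
               (CovZ.leaf K2_ok TF_l12741 _)
               (CovZ.leaf K2_ok TF_l12742 _))
              (CovZ.leaf K2_ok TF_l12743 _)))
            (CovZ.leaf K2_ok TF_l12744 _))
           (CovZ.n1 (560, 30800) (by decide +kernel)
            (CovZ.n2 (560, 30720) (by decide +kernel)
             (CovZ.n2 (520, 30760) (by decide +kernel)
              (CovZ.n2 (560, 30760) (by decide +kernel)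
               (CovZ.leaf K2_ok TF_l12745 _)
               (CovZ.leaf K2_ok TF_l12746 _))
              (CovZ.leaf K2_ok TF_l12747 _))
             (CovZ.n1 (600, 30760) (by decide +kernel)
              (CovZ.leaf K2_ok TF_l12748 _)
              (CovZ.n1 (560, 30760) (by decide +kernel)
               (CovZ.leaf K2_ok TF_l12749 _)
               (CovZ.leaf K2_ok TF_l12750 _))))
            (CovZ.n1 (480, 30800) (by decide +kernel)
             (CovZ.leaf K2_ok TF_l12751 _)
             (CovZ.n1 (520, 30760) (by decide +kernel)
              (CovZ.leaf K2_ok TF_l12752 _)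
              (CovZ.n1 (520, 30800) (by decide +kernel)
               (CovZ.leaf K2_ok TF_l12753 _)
               (CovZ.leaf K2_ok TF_l12754 _))))))
          (CovZ.n1 (320, 30880) (by decide +kernel)
           (CovZ.n2 (400, 30960) (by decide +kernel)
            (CovZ.n2 (400, 30880) (by decide +kernel)
             (CovZ.n2 (360, 30920) (by decide +kernel)
              (CovZ.leaf K2_ok TF_l12755 _)
              (CovZ.leaf K2_ok TF_l12756 _))
             (CovZ.leaf K2_ok TF_l12757 _))
            (CovZ.n1 (320, 30960) (by decide +kernel)
             (CovZ.leaf K2_ok TF_l12758 _)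
             (CovZ.n1 (360, 30920) (by decide +kernel)
              (CovZ.leaf K2_ok TF_l12759 _)
              (CovZ.leaf K2_ok TF_l12760 _))))
           (CovZ.n1 (400, 30800) (by decide +kernel)
            (CovZ.leaf K2_ok TF_l12761 _)
            (CovZ.n1 (400, 30880) (by decide +kernel)
             (CovZ.n2 (440, 30840) (by decide +kernel)
              (CovZ.leaf K2_ok TF_l12762 _)
              (CovZ.leaf K2_ok TF_l12763 _))
             (CovZ.leaf K2_ok TF_l12764 _)))))))
       (CovZ.badM (by decide +kernel))))
     (CovZ.n1 (1920, 31360) (by decide +kernel)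
      (CovZ.badM (by decide +kernel))
      (CovZ.badM (by decide +kernel))))))
    (CovZ.topM TF_LL 524288 (by decide +kernel) (CovZ.n0 (1280, 32000) (by decide +kernel)
    (CovZ.n2 (0, 32000) (by decide +kernel)
     (CovZ.badM (by decide +kernel))
     (CovZ.n1 (640, 31360) (by decide +kernel)
      (CovZ.n2 (0, 31360) (by decide +kernel)
       (CovZ.badM (by decide +kernel))
       (CovZ.n1 (320, 31040) (by decide +kernel)
        (CovZ.n2 (0, 31040) (by decide +kernel)
         (CovZ.badM (by decide +kernel))
         (CovZ.n1 (160, 30880) (by decide +kernel)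
          (CovZ.leaf K2_ok TF_l12765 _)
          (CovZ.n1 (160, 31040) (by decide +kernel)
           (CovZ.n2 (240, 30960) (by decide +kernel)
            (CovZ.leaf K2_ok TF_l12766 _)
            (CovZ.badM (by decide +kernel)))
           (CovZ.n1 (80, 30960) (by decide +kernel)
            (CovZ.badM (by decide +kernel))
            (CovZ.leaf K2_ok TF_l12767 _)))))
        (CovZ.badM (by decide +kernel))))
      (CovZ.badM (by decide +kernel))))
    (CovZ.badM (by decide +kernel))))

theorem TF_s4_15 : SqZ TF_M TF_L [0, 7, 4, 3] (-7680) (-7680) 2560 4 15 :=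
  SqZ.mk (a := 2560) (b := 5120) (c := 30720) (d := 33280) (by norm_num) (by norm_num) (by norm_num) (by norm_num)
    (CovZ.topM TF_LL 0 (by decide +kernel) (CovZ.badM (by decide +kernel)))
    (CovZ.topM TF_LL 0 (by decide +kernel) (CovZ.badM (by decide +kernel)))

theorem TF_s5_15 : SqZ TF_M TF_L [0, 7, 4, 3] (-7680) (-7680) 2560 5 15 :=
  SqZ.mk (a := 5120) (b := 7680) (c := 30720) (d := 33280) (by norm_num) (by norm_num) (by norm_num) (by norm_num)
    (CovZ.topM TF_LL 20282409603651670423947251286016 (by decide +kernel) (CovZ.n2 (6400, 32000) (by decide +kernel)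
    (CovZ.badM (by decide +kernel))
    (CovZ.n1 (6400, 30720) (by decide +kernel)
     (CovZ.n2 (5760, 31360) (by decide +kernel)
      (CovZ.badM (by decide +kernel))
      (CovZ.n1 (5760, 30720) (by decide +kernel)
       (CovZ.badM (by decide +kernel))
       (CovZ.badM (by decide +kernel))))
     (CovZ.badM (by decide +kernel)))))
    (CovZ.topM TF_LL 20282409603651670423947251286016 (by decide +kernel) (CovZ.n0 (6400, 32000) (by decide +kernel)
    (CovZ.badM (by decide +kernel))
    (CovZ.n1 (6400, 33280) (by decide +kernel)
     (CovZ.badM (by decide +kernel))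
     (CovZ.badM (by decide +kernel)))))

theorem TF_s6_15 : SqZ TF_M TF_L [0, 7, 4, 3] (-7680) (-7680) 2560 6 15 :=
  SqZ.mk (a := 7680) (b := 10240) (c := 30720) (d := 33280) (by norm_num) (by norm_num) (by norm_num) (by norm_num)
    (CovZ.topM TF_LL 0 (by decide +kernel) (CovZ.badM (by decide +kernel)))
    (CovZ.topM TF_LL 0 (by decide +kernel) (CovZ.badM (by decide +kernel)))

theorem TF_s7_15 : SqZ TF_M TF_L [0, 7, 4, 3] (-7680) (-7680) 2560 7 15 :=
  SqZ.mk (a := 10240) (b := 12800) (c := 30720) (d := 33280) (by norm_num) (by norm_num) (by norm_num) (by norm_num)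
    (CovZ.topM TF_LL 1393796574908163946345982392040522594123776 (by decide +kernel) (CovZ.n2 (11520, 32000) (by decide +kernel)
    (CovZ.badM (by decide +kernel))
    (CovZ.n1 (11520, 30720) (by decide +kernel)
     (CovZ.n2 (10880, 31360) (by decide +kernel)
      (CovZ.badM (by decide +kernel))
      (CovZ.n1 (10880, 30720) (by decide +kernel)
       (CovZ.badM (by decide +kernel))
       (CovZ.badM (by decide +kernel))))
     (CovZ.badM (by decide +kernel)))))
    (CovZ.topM TF_LL 1393796574908163946345982392040522594123776 (by decide +kernel) (CovZ.n0 (11520, 32000) (by decide +kernel)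
    (CovZ.n2 (10240, 32000) (by decide +kernel)
     (CovZ.n2 (10880, 32640) (by decide +kernel)
      (CovZ.n2 (10880, 32000) (by decide +kernel)
       (CovZ.badM (by decide +kernel))
       (CovZ.n1 (11200, 32320) (by decide +kernel)
        (CovZ.n2 (11200, 32000) (by decide +kernel)
         (CovZ.badM (by decide +kernel))
         (CovZ.badM (by decide +kernel)))
        (CovZ.badM (by decide +kernel))))
      (CovZ.badM (by decide +kernel)))
     (CovZ.n1 (10880, 31360) (by decide +kernel)
      (CovZ.badM (by decide +kernel))
      (CovZ.n1 (10880, 32000) (by decide +kernel)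
       (CovZ.n2 (11200, 31680) (by decide +kernel)
        (CovZ.badM (by decide +kernel))
        (CovZ.n1 (11200, 32000) (by decide +kernel)
         (CovZ.badM (by decide +kernel))
         (CovZ.badM (by decide +kernel))))
       (CovZ.badM (by decide +kernel)))))
    (CovZ.n1 (11520, 33280) (by decide +kernel)
     (CovZ.badM (by decide +kernel))
     (CovZ.n1 (10880, 32640) (by decide +kernel)
      (CovZ.badM (by decide +kernel))
      (CovZ.n1 (11520, 32640) (by decide +kernel)
       (CovZ.n2 (11200, 32320) (by decide +kernel)
        (CovZ.badM (by decide +kernel))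
        (CovZ.badM (by decide +kernel)))
       (CovZ.badM (by decide +kernel)))))))

theorem TF_s8_15 : SqZ TF_M TF_L [0, 7, 4, 3] (-7680) (-7680) 2560 8 15 :=
  SqZ.mk (a := 12800) (b := 15360) (c := 30720) (d := 33280) (by norm_num) (by norm_num) (by norm_num) (by norm_num)
    (CovZ.topM TF_LL 0 (by decide +kernel) (CovZ.badM (by decide +kernel)))
    (CovZ.topM TF_LL 0 (by decide +kernel) (CovZ.badM (by decide +kernel)))

theorem TF_s9_15 : SqZ TF_M TF_L [0, 7, 4, 3] (-7680) (-7680) 2560 9 15 :=
  SqZ.mk (a := 15360) (b := 17920) (c := 30720) (d := 33280) (by norm_num) (by norm_num) (by norm_num) (by norm_num)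
    (CovZ.topM TF_LL 0 (by decide +kernel) (CovZ.badM (by decide +kernel)))
    (CovZ.topM TF_LL 0 (by decide +kernel) (CovZ.badM (by decide +kernel)))

theorem TF_s10_15 : SqZ TF_M TF_L [0, 7, 4, 3] (-7680) (-7680) 2560 10 15 :=
  SqZ.mk (a := 17920) (b := 20480) (c := 30720) (d := 33280) (by norm_num) (by norm_num) (by norm_num) (by norm_num)
    (CovZ.topM TF_LL 0 (by decide +kernel) (CovZ.badM (by decide +kernel)))
    (CovZ.topM TF_LL 0 (by decide +kernel) (CovZ.badM (by decide +kernel)))

theorem TF_s11_15 : SqZ TF_M TF_L [0, 7, 4, 3] (-7680) (-7680) 2560 11 15 :=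
  SqZ.mk (a := 20480) (b := 23040) (c := 30720) (d := 33280) (by norm_num) (by norm_num) (by norm_num) (by norm_num)
    (CovZ.topM TF_LL 0 (by decide +kernel) (CovZ.badM (by decide +kernel)))
    (CovZ.topM TF_LL 0 (by decide +kernel) (CovZ.badM (by decide +kernel)))

theorem TF_s12_15 : SqZ TF_M TF_L [0, 7, 4, 3] (-7680) (-7680) 2560 12 15 :=
  SqZ.mk (a := 23040) (b := 25600) (c := 30720) (d := 33280) (by norm_num) (by norm_num) (by norm_num) (by norm_num)
    (CovZ.topM TF_LL 0 (by decide +kernel) (CovZ.badM (by decide +kernel)))
    (CovZ.topM TF_LL 0 (by decide +kernel) (CovZ.badM (by decide +kernel)))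

theorem TF_s13_15 : SqZ TF_M TF_L [0, 7, 4, 3] (-7680) (-7680) 2560 13 15 :=
  SqZ.mk (a := 25600) (b := 28160) (c := 30720) (d := 33280) (by norm_num) (by norm_num) (by norm_num) (by norm_num)
    (CovZ.topM TF_LL 0 (by decide +kernel) (CovZ.badM (by decide +kernel)))
    (CovZ.topM TF_LL 0 (by decide +kernel) (CovZ.badM (by decide +kernel)))

theorem TF_s14_15 : SqZ TF_M TF_L [0, 7, 4, 3] (-7680) (-7680) 2560 14 15 :=
  SqZ.mk (a := 28160) (b := 30720) (c := 30720) (d := 33280) (by norm_num) (by norm_num) (by norm_num) (by norm_num)
    (CovZ.topM TF_LL 0 (by decide +kernel) (CovZ.badM (by decide +kernel)))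
    (CovZ.topM TF_LL 0 (by decide +kernel) (CovZ.badM (by decide +kernel)))

theorem TF_s15_15 : SqZ TF_M TF_L [0, 7, 4, 3] (-7680) (-7680) 2560 15 15 :=
  SqZ.mk (a := 30720) (b := 33280) (c := 30720) (d := 33280) (by norm_num) (by norm_num) (by norm_num) (by norm_num)
    (CovZ.topM TF_LL 0 (by decide +kernel) (CovZ.badM (by decide +kernel)))
    (CovZ.topM TF_LL 0 (by decide +kernel) (CovZ.badM (by decide +kernel)))

theorem TF_s0_16 : SqZ TF_M TF_L [0, 7, 4, 3] (-7680) (-7680) 2560 0 16 :=
  SqZ.mk (a := (-7680)) (b := (-5120)) (c := 33280) (d := 35840) (by norm_num) (by norm_num) (by norm_num) (by norm_num)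
    (CovZ.topM TF_LL 0 (by decide +kernel) (CovZ.badM (by decide +kernel)))
    (CovZ.topM TF_LL 0 (by decide +kernel) (CovZ.badM (by decide +kernel)))

theorem TF_s1_16 : SqZ TF_M TF_L [0, 7, 4, 3] (-7680) (-7680) 2560 1 16 :=
  SqZ.mk (a := (-5120)) (b := (-2560)) (c := 33280) (d := 35840) (by norm_num) (by norm_num) (by norm_num) (by norm_num)
    (CovZ.topM TF_LL 0 (by decide +kernel) (CovZ.badM (by decide +kernel)))
    (CovZ.topM TF_LL 0 (by decide +kernel) (CovZ.badM (by decide +kernel)))

end Pool.Agent.TET
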