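import Pool.Agent.Helper38_TET.TF_M
import Pool.Agent.Helper38_TET.TF_L

/-!
# MP_c7c9bf_co: certificates, family TF
-/

set_option autoImplicit false
set_option maxRecDepth 100000

namespace Pool.Agent.TET

theorem TF_s2_16 : SqZ TF_M TF_L [0, 7, 4, 3] (-7680) (-7680) 2560 2 16 :=
  SqZ.mk (a := (-2560)) (b := 0) (c := 33280) (d := 35840) (by norm_num) (by norm_num) (by norm_num) (by norm_num)
    (CovZ.topM TF_LL 4835703278458516698824704 (by decide +kernel) (CovZ.n2 (-1280, 34560) (by decide +kernel)
    (CovZ.n2 (0, 34560) (by decide +kernel)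
     (CovZ.n2 (-640, 33920) (by decide +kernel)
      (CovZ.n2 (-640, 34560) (by decide +kernel)
       (CovZ.badM (by decide +kernel))
       (CovZ.badM (by decide +kernel)))
      (CovZ.badM (by decide +kernel)))
     (CovZ.n1 (-640, 35200) (by decide +kernel)
      (CovZ.badM (by decide +kernel))
      (CovZ.n1 (-640, 34560) (by decide +kernel)
       (CovZ.badM (by decide +kernel))
       (CovZ.badM (by decide +kernel)))))
    (CovZ.n1 (-1280, 33280) (by decide +kernel)
     (CovZ.badM (by decide +kernel))
     (CovZ.n1 (-640, 33920) (by decide +kernel)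
      (CovZ.n2 (-640, 33280) (by decide +kernel)
       (CovZ.badM (by decide +kernel))
       (CovZ.badM (by decide +kernel)))
      (CovZ.badM (by decide +kernel))))))
    (CovZ.topM TF_LL 4835703278458516698824704 (by decide +kernel) (CovZ.n0 (-1280, 34560) (by decide +kernel)
    (CovZ.badM (by decide +kernel))
    (CovZ.n1 (-1280, 35840) (by decide +kernel)
     (CovZ.n2 (-640, 35200) (by decide +kernel)
      (CovZ.badM (by decide +kernel))
      (CovZ.n1 (-640, 35840) (by decide +kernel)
       (CovZ.badM (by decide +kernel))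
       (CovZ.badM (by decide +kernel))))
     (CovZ.badM (by decide +kernel)))))

theorem TF_s3_16 : SqZ TF_M TF_L [0, 7, 4, 3] (-7680) (-7680) 2560 3 16 :=
  SqZ.mk (a := 0) (b := 2560) (c := 33280) (d := 35840) (by norm_num) (by norm_num) (by norm_num) (by norm_num)
    (CovZ.topM TF_LL 0 (by decide +kernel) (CovZ.badM (by decide +kernel)))
    (CovZ.topM TF_LL 0 (by decide +kernel) (CovZ.badM (by decide +kernel)))

theorem TF_s4_16 : SqZ TF_M TF_L [0, 7, 4, 3] (-7680) (-7680) 2560 4 16 :=
  SqZ.mk (a := 2560) (b := 5120) (c := 33280) (d := 35840) (by norm_num) (by norm_num) (by norm_num) (by norm_num)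
    (CovZ.topM TF_LL 0 (by decide +kernel) (CovZ.badM (by decide +kernel)))
    (CovZ.topM TF_LL 0 (by decide +kernel) (CovZ.badM (by decide +kernel)))

theorem TF_s5_16 : SqZ TF_M TF_L [0, 7, 4, 3] (-7680) (-7680) 2560 5 16 :=
  SqZ.mk (a := 5120) (b := 7680) (c := 33280) (d := 35840) (by norm_num) (by norm_num) (by norm_num) (by norm_num)
    (CovZ.topM TF_LL 20282409603651670423947251286016 (by decide +kernel) (CovZ.n2 (6400, 34560) (by decide +kernel)
    (CovZ.badM (by decide +kernel))
    (CovZ.n1 (6400, 33280) (by decide +kernel)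
     (CovZ.badM (by decide +kernel))
     (CovZ.badM (by decide +kernel)))))
    (CovZ.topM TF_LL 20282409603651670423947251286016 (by decide +kernel) (CovZ.n0 (6400, 34560) (by decide +kernel)
    (CovZ.badM (by decide +kernel))
    (CovZ.n1 (6400, 35840) (by decide +kernel)
     (CovZ.badM (by decide +kernel))
     (CovZ.badM (by decide +kernel)))))

theorem TF_s6_16 : SqZ TF_M TF_L [0, 7, 4, 3] (-7680) (-7680) 2560 6 16 :=
  SqZ.mk (a := 7680) (b := 10240) (c := 33280) (d := 35840) (by norm_num) (by norm_num) (by norm_num) (by norm_num)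
    (CovZ.topM TF_LL 0 (by decide +kernel) (CovZ.badM (by decide +kernel)))
    (CovZ.topM TF_LL 0 (by decide +kernel) (CovZ.badM (by decide +kernel)))

theorem TF_s7_16 : SqZ TF_M TF_L [0, 7, 4, 3] (-7680) (-7680) 2560 7 16 :=
  SqZ.mk (a := 10240) (b := 12800) (c := 33280) (d := 35840) (by norm_num) (by norm_num) (by norm_num) (by norm_num)
    (CovZ.topM TF_LL 1393796574908163946345982392040522594123776 (by decide +kernel) (CovZ.n2 (11520, 34560) (by decide +kernel)
    (CovZ.n2 (12800, 34560) (by decide +kernel)
     (CovZ.n2 (12160, 33920) (by decide +kernel)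
      (CovZ.n2 (12160, 34560) (by decide +kernel)
       (CovZ.badM (by decide +kernel))
       (CovZ.badM (by decide +kernel)))
      (CovZ.badM (by decide +kernel)))
     (CovZ.n1 (12160, 35200) (by decide +kernel)
      (CovZ.badM (by decide +kernel))
      (CovZ.n1 (12160, 34560) (by decide +kernel)
       (CovZ.badM (by decide +kernel))
       (CovZ.badM (by decide +kernel)))))
    (CovZ.n1 (11520, 33280) (by decide +kernel)
     (CovZ.badM (by decide +kernel))
     (CovZ.n1 (12160, 33920) (by decide +kernel)
      (CovZ.badM (by decide +kernel))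
      (CovZ.badM (by decide +kernel))))))
    (CovZ.topM TF_LL 0 (by decide +kernel) (CovZ.badM (by decide +kernel)))

theorem TF_s8_16 : SqZ TF_M TF_L [0, 7, 4, 3] (-7680) (-7680) 2560 8 16 :=
  SqZ.mk (a := 12800) (b := 15360) (c := 33280) (d := 35840) (by norm_num) (by norm_num) (by norm_num) (by norm_num)
    (CovZ.topM TF_LL 0 (by decide +kernel) (CovZ.badM (by decide +kernel)))
    (CovZ.topM TF_LL 0 (by decide +kernel) (CovZ.badM (by decide +kernel)))

theorem TF_s9_16 : SqZ TF_M TF_L [0, 7, 4, 3] (-7680) (-7680) 2560 9 16 :=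
  SqZ.mk (a := 15360) (b := 17920) (c := 33280) (d := 35840) (by norm_num) (by norm_num) (by norm_num) (by norm_num)
    (CovZ.topM TF_LL 0 (by decide +kernel) (CovZ.badM (by decide +kernel)))
    (CovZ.topM TF_LL 0 (by decide +kernel) (CovZ.badM (by decide +kernel)))

theorem TF_s10_16 : SqZ TF_M TF_L [0, 7, 4, 3] (-7680) (-7680) 2560 10 16 :=
  SqZ.mk (a := 17920) (b := 20480) (c := 33280) (d := 35840) (by norm_num) (by norm_num) (by norm_num) (by norm_num)
    (CovZ.topM TF_LL 0 (by decide +kernel) (CovZ.badM (by decide +kernel)))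
    (CovZ.topM TF_LL 0 (by decide +kernel) (CovZ.badM (by decide +kernel)))

theorem TF_s11_16 : SqZ TF_M TF_L [0, 7, 4, 3] (-7680) (-7680) 2560 11 16 :=
  SqZ.mk (a := 20480) (b := 23040) (c := 33280) (d := 35840) (by norm_num) (by norm_num) (by norm_num) (by norm_num)
    (CovZ.topM TF_LL 0 (by decide +kernel) (CovZ.badM (by decide +kernel)))
    (CovZ.topM TF_LL 0 (by decide +kernel) (CovZ.badM (by decide +kernel)))

theorem TF_s12_16 : SqZ TF_M TF_L [0, 7, 4, 3] (-7680) (-7680) 2560 12 16 :=
  SqZ.mk (a := 23040) (b := 25600) (c := 33280) (d := 35840) (by norm_num) (by norm_num) (by norm_num) (by norm_num)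
    (CovZ.topM TF_LL 0 (by decide +kernel) (CovZ.badM (by decide +kernel)))
    (CovZ.topM TF_LL 0 (by decide +kernel) (CovZ.badM (by decide +kernel)))

theorem TF_s13_16 : SqZ TF_M TF_L [0, 7, 4, 3] (-7680) (-7680) 2560 13 16 :=
  SqZ.mk (a := 25600) (b := 28160) (c := 33280) (d := 35840) (by norm_num) (by norm_num) (by norm_num) (by norm_num)
    (CovZ.topM TF_LL 0 (by decide +kernel) (CovZ.badM (by decide +kernel)))
    (CovZ.topM TF_LL 0 (by decide +kernel) (CovZ.badM (by decide +kernel)))

theorem TF_s14_16 : SqZ TF_M TF_L [0, 7, 4, 3] (-7680) (-7680) 2560 14 16 :=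
  SqZ.mk (a := 28160) (b := 30720) (c := 33280) (d := 35840) (by norm_num) (by norm_num) (by norm_num) (by norm_num)
    (CovZ.topM TF_LL 0 (by decide +kernel) (CovZ.badM (by decide +kernel)))
    (CovZ.topM TF_LL 154742504910672534362390528 (by decide +kernel) (CovZ.n0 (29440, 34560) (by decide +kernel)
    (CovZ.n2 (28160, 34560) (by decide +kernel)
     (CovZ.n2 (28800, 35200) (by decide +kernel)
      (CovZ.n2 (28800, 34560) (by decide +kernel)
       (CovZ.badM (by decide +kernel))
       (CovZ.n1 (29120, 34880) (by decide +kernel)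
        (CovZ.badM (by decide +kernel))
        (CovZ.badM (by decide +kernel))))
      (CovZ.badM (by decide +kernel)))
     (CovZ.n1 (28800, 33920) (by decide +kernel)
      (CovZ.n2 (28160, 33920) (by decide +kernel)
       (CovZ.n2 (28480, 34240) (by decide +kernel)
        (CovZ.badM (by decide +kernel))
        (CovZ.badM (by decide +kernel)))
       (CovZ.badM (by decide +kernel)))
      (CovZ.n1 (28800, 34560) (by decide +kernel)
       (CovZ.badM (by decide +kernel))
       (CovZ.n1 (28480, 34240) (by decide +kernel)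
        (CovZ.badM (by decide +kernel))
        (CovZ.badM (by decide +kernel))))))
    (CovZ.n1 (29440, 35840) (by decide +kernel)
     (CovZ.n2 (30080, 35200) (by decide +kernel)
      (CovZ.n2 (29440, 35200) (by decide +kernel)
       (CovZ.n2 (29760, 35520) (by decide +kernel)
        (CovZ.badM (by decide +kernel))
        (CovZ.badM (by decide +kernel)))
       (CovZ.badM (by decide +kernel)))
      (CovZ.n1 (30080, 35840) (by decide +kernel)
       (CovZ.badM (by decide +kernel))
       (CovZ.n1 (29760, 35520) (by decide +kernel)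
        (CovZ.badM (by decide +kernel))
        (CovZ.badM (by decide +kernel)))))
     (CovZ.n1 (28800, 35200) (by decide +kernel)
      (CovZ.badM (by decide +kernel))
      (CovZ.n1 (29440, 35200) (by decide +kernel)
       (CovZ.n2 (29120, 34880) (by decide +kernel)
        (CovZ.badM (by decide +kernel))
        (CovZ.badM (by decide +kernel)))
       (CovZ.badM (by decide +kernel)))))))

theorem TF_s15_16 : SqZ TF_M TF_L [0, 7, 4, 3] (-7680) (-7680) 2560 15 16 :=
  SqZ.mk (a := 30720) (b := 33280) (c := 33280) (d := 35840) (by norm_num) (by norm_num) (by norm_num) (by norm_num)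
    (CovZ.topM TF_LL 0 (by decide +kernel) (CovZ.badM (by decide +kernel)))
    (CovZ.topM TF_LL 0 (by decide +kernel) (CovZ.badM (by decide +kernel)))

theorem TF_s0_17 : SqZ TF_M TF_L [0, 7, 4, 3] (-7680) (-7680) 2560 0 17 :=
  SqZ.mk (a := (-7680)) (b := (-5120)) (c := 35840) (d := 38400) (by norm_num) (by norm_num) (by norm_num) (by norm_num)
    (CovZ.topM TF_LL 0 (by decide +kernel) (CovZ.badM (by decide +kernel)))
    (CovZ.topM TF_LL 0 (by decide +kernel) (CovZ.badM (by decide +kernel)))

theorem TF_s1_17 : SqZ TF_M TF_L [0, 7, 4, 3] (-7680) (-7680) 2560 1 17 :=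
  SqZ.mk (a := (-5120)) (b := (-2560)) (c := 35840) (d := 38400) (by norm_num) (by norm_num) (by norm_num) (by norm_num)
    (CovZ.topM TF_LL 0 (by decide +kernel) (CovZ.badM (by decide +kernel)))
    (CovZ.topM TF_LL 0 (by decide +kernel) (CovZ.badM (by decide +kernel)))

theorem TF_s2_17 : SqZ TF_M TF_L [0, 7, 4, 3] (-7680) (-7680) 2560 2 17 :=
  SqZ.mk (a := (-2560)) (b := 0) (c := 35840) (d := 38400) (by norm_num) (by norm_num) (by norm_num) (by norm_num)
    (CovZ.topM TF_LL 4835703278458516698824704 (by decide +kernel) (CovZ.n2 (-1280, 37120) (by decide +kernel)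
    (CovZ.n2 (0, 37120) (by decide +kernel)
     (CovZ.n2 (-640, 36480) (by decide +kernel)
      (CovZ.n2 (-640, 37120) (by decide +kernel)
       (CovZ.badM (by decide +kernel))
       (CovZ.badM (by decide +kernel)))
      (CovZ.badM (by decide +kernel)))
     (CovZ.n1 (-640, 37760) (by decide +kernel)
      (CovZ.badM (by decide +kernel))
      (CovZ.n1 (-640, 37120) (by decide +kernel)
       (CovZ.badM (by decide +kernel))
       (CovZ.badM (by decide +kernel)))))
    (CovZ.n1 (-1280, 35840) (by decide +kernel)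
     (CovZ.badM (by decide +kernel))
     (CovZ.n1 (-640, 36480) (by decide +kernel)
      (CovZ.n2 (-640, 35840) (by decide +kernel)
       (CovZ.badM (by decide +kernel))
       (CovZ.badM (by decide +kernel)))
      (CovZ.badM (by decide +kernel))))))
    (CovZ.topM TF_LL 4835703278458516698824704 (by decide +kernel) (CovZ.n0 (-1280, 37120) (by decide +kernel)
    (CovZ.badM (by decide +kernel))
    (CovZ.n1 (-1280, 38400) (by decide +kernel)
     (CovZ.n2 (-640, 37760) (by decide +kernel)
      (CovZ.badM (by decide +kernel))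
      (CovZ.badM (by decide +kernel)))
     (CovZ.badM (by decide +kernel)))))

theorem TF_s3_17 : SqZ TF_M TF_L [0, 7, 4, 3] (-7680) (-7680) 2560 3 17 :=
  SqZ.mk (a := 0) (b := 2560) (c := 35840) (d := 38400) (by norm_num) (by norm_num) (by norm_num) (by norm_num)
    (CovZ.topM TF_LL 0 (by decide +kernel) (CovZ.badM (by decide +kernel)))
    (CovZ.topM TF_LL 0 (by decide +kernel) (CovZ.badM (by decide +kernel)))

theorem TF_s4_17 : SqZ TF_M TF_L [0, 7, 4, 3] (-7680) (-7680) 2560 4 17 :=
  SqZ.mk (a := 2560) (b := 5120) (c := 35840) (d := 38400) (by norm_num) (by norm_num) (by norm_num) (by norm_num)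
    (CovZ.topM TF_LL 0 (by decide +kernel) (CovZ.badM (by decide +kernel)))
    (CovZ.topM TF_LL 0 (by decide +kernel) (CovZ.badM (by decide +kernel)))

theorem TF_s5_17 : SqZ TF_M TF_L [0, 7, 4, 3] (-7680) (-7680) 2560 5 17 :=
  SqZ.mk (a := 5120) (b := 7680) (c := 35840) (d := 38400) (by norm_num) (by norm_num) (by norm_num) (by norm_num)
    (CovZ.topM TF_LL 20282409603651670423947251286016 (by decide +kernel) (CovZ.n2 (6400, 37120) (by decide +kernel)
    (CovZ.badM (by decide +kernel))
    (CovZ.n1 (6400, 35840) (by decide +kernel)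
     (CovZ.badM (by decide +kernel))
     (CovZ.badM (by decide +kernel)))))
    (CovZ.topM TF_LL 0 (by decide +kernel) (CovZ.badM (by decide +kernel)))

theorem TF_s6_17 : SqZ TF_M TF_L [0, 7, 4, 3] (-7680) (-7680) 2560 6 17 :=
  SqZ.mk (a := 7680) (b := 10240) (c := 35840) (d := 38400) (by norm_num) (by norm_num) (by norm_num) (by norm_num)
    (CovZ.topM TF_LL 0 (by decide +kernel) (CovZ.badM (by decide +kernel)))
    (CovZ.topM TF_LL 0 (by decide +kernel) (CovZ.badM (by decide +kernel)))

theorem TF_s7_17 : SqZ TF_M TF_L [0, 7, 4, 3] (-7680) (-7680) 2560 7 17 :=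
  SqZ.mk (a := 10240) (b := 12800) (c := 35840) (d := 38400) (by norm_num) (by norm_num) (by norm_num) (by norm_num)
    (CovZ.topM TF_LL 0 (by decide +kernel) (CovZ.badM (by decide +kernel)))
    (CovZ.topM TF_LL 0 (by decide +kernel) (CovZ.badM (by decide +kernel)))

theorem TF_s8_17 : SqZ TF_M TF_L [0, 7, 4, 3] (-7680) (-7680) 2560 8 17 :=
  SqZ.mk (a := 12800) (b := 15360) (c := 35840) (d := 38400) (by norm_num) (by norm_num) (by norm_num) (by norm_num)
    (CovZ.topM TF_LL 0 (by decide +kernel) (CovZ.badM (by decide +kernel)))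
    (CovZ.topM TF_LL 1393796574908163946345982392040522594123776 (by decide +kernel) (CovZ.n0 (14080, 37120) (by decide +kernel)
    (CovZ.n2 (12800, 37120) (by decide +kernel)
     (CovZ.n2 (13440, 37760) (by decide +kernel)
      (CovZ.n2 (13440, 37120) (by decide +kernel)
       (CovZ.badM (by decide +kernel))
       (CovZ.badM (by decide +kernel)))
      (CovZ.badM (by decide +kernel)))
     (CovZ.n1 (13440, 36480) (by decide +kernel)
      (CovZ.n2 (12800, 36480) (by decide +kernel)
       (CovZ.n2 (13120, 36800) (by decide +kernel)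
        (CovZ.badM (by decide +kernel))
        (CovZ.badM (by decide +kernel)))
       (CovZ.badM (by decide +kernel)))
      (CovZ.n1 (13440, 37120) (by decide +kernel)
       (CovZ.badM (by decide +kernel))
       (CovZ.n1 (13120, 36800) (by decide +kernel)
        (CovZ.badM (by decide +kernel))
        (CovZ.badM (by decide +kernel))))))
    (CovZ.n1 (14080, 38400) (by decide +kernel)
     (CovZ.badM (by decide +kernel))
     (CovZ.n1 (13440, 37760) (by decide +kernel)
      (CovZ.badM (by decide +kernel))
      (CovZ.badM (by decide +kernel))))))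

theorem TF_s9_17 : SqZ TF_M TF_L [0, 7, 4, 3] (-7680) (-7680) 2560 9 17 :=
  SqZ.mk (a := 15360) (b := 17920) (c := 35840) (d := 38400) (by norm_num) (by norm_num) (by norm_num) (by norm_num)
    (CovZ.topM TF_LL 0 (by decide +kernel) (CovZ.badM (by decide +kernel)))
    (CovZ.topM TF_LL 0 (by decide +kernel) (CovZ.badM (by decide +kernel)))

theorem TF_s10_17 : SqZ TF_M TF_L [0, 7, 4, 3] (-7680) (-7680) 2560 10 17 :=
  SqZ.mk (a := 17920) (b := 20480) (c := 35840) (d := 38400) (by norm_num) (by norm_num) (by norm_num) (by norm_num)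
    (CovZ.topM TF_LL 0 (by decide +kernel) (CovZ.badM (by decide +kernel)))
    (CovZ.topM TF_LL 0 (by decide +kernel) (CovZ.badM (by decide +kernel)))

theorem TF_s11_17 : SqZ TF_M TF_L [0, 7, 4, 3] (-7680) (-7680) 2560 11 17 :=
  SqZ.mk (a := 20480) (b := 23040) (c := 35840) (d := 38400) (by norm_num) (by norm_num) (by norm_num) (by norm_num)
    (CovZ.topM TF_LL 0 (by decide +kernel) (CovZ.badM (by decide +kernel)))
    (CovZ.topM TF_LL 0 (by decide +kernel) (CovZ.badM (by decide +kernel)))

theorem TF_s12_17 : SqZ TF_M TF_L [0, 7, 4, 3] (-7680) (-7680) 2560 12 17 :=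
  SqZ.mk (a := 23040) (b := 25600) (c := 35840) (d := 38400) (by norm_num) (by norm_num) (by norm_num) (by norm_num)
    (CovZ.topM TF_LL 0 (by decide +kernel) (CovZ.badM (by decide +kernel)))
    (CovZ.topM TF_LL 0 (by decide +kernel) (CovZ.badM (by decide +kernel)))

theorem TF_s13_17 : SqZ TF_M TF_L [0, 7, 4, 3] (-7680) (-7680) 2560 13 17 :=
  SqZ.mk (a := 25600) (b := 28160) (c := 35840) (d := 38400) (by norm_num) (by norm_num) (by norm_num) (by norm_num)
    (CovZ.topM TF_LL 0 (by decide +kernel) (CovZ.badM (by decide +kernel)))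
    (CovZ.topM TF_LL 0 (by decide +kernel) (CovZ.badM (by decide +kernel)))

theorem TF_s14_17 : SqZ TF_M TF_L [0, 7, 4, 3] (-7680) (-7680) 2560 14 17 :=
  SqZ.mk (a := 28160) (b := 30720) (c := 35840) (d := 38400) (by norm_num) (by norm_num) (by norm_num) (by norm_num)
    (CovZ.topM TF_LL 154742504910672534362390528 (by decide +kernel) (CovZ.n2 (29440, 37120) (by decide +kernel)
    (CovZ.n2 (30720, 37120) (by decide +kernel)
     (CovZ.n2 (30080, 36480) (by decide +kernel)
      (CovZ.badM (by decide +kernel))
      (CovZ.n1 (30720, 36480) (by decide +kernel)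
       (CovZ.n2 (30400, 36160) (by decide +kernel)
        (CovZ.badM (by decide +kernel))
        (CovZ.badM (by decide +kernel)))
       (CovZ.badM (by decide +kernel))))
     (CovZ.badM (by decide +kernel)))
    (CovZ.n1 (29440, 35840) (by decide +kernel)
     (CovZ.badM (by decide +kernel))
     (CovZ.n1 (30080, 36480) (by decide +kernel)
      (CovZ.n2 (30080, 35840) (by decide +kernel)
       (CovZ.badM (by decide +kernel))
       (CovZ.n1 (30400, 36160) (by decide +kernel)
        (CovZ.badM (by decide +kernel))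
        (CovZ.badM (by decide +kernel))))
      (CovZ.badM (by decide +kernel))))))
    (CovZ.topM TF_LL 0 (by decide +kernel) (CovZ.badM (by decide +kernel)))

theorem TF_s15_17 : SqZ TF_M TF_L [0, 7, 4, 3] (-7680) (-7680) 2560 15 17 :=
  SqZ.mk (a := 30720) (b := 33280) (c := 35840) (d := 38400) (by norm_num) (by norm_num) (by norm_num) (by norm_num)
    (CovZ.topM TF_LL 0 (by decide +kernel) (CovZ.badM (by decide +kernel)))
    (CovZ.topM TF_LL 154742504910672534362390528 (by decide +kernel) (CovZ.n0 (32000, 37120) (by decide +kernel)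
    (CovZ.n2 (30720, 37120) (by decide +kernel)
     (CovZ.n2 (31360, 37760) (by decide +kernel)
      (CovZ.n2 (31360, 37120) (by decide +kernel)
       (CovZ.badM (by decide +kernel))
       (CovZ.n1 (31680, 37440) (by decide +kernel)
        (CovZ.badM (by decide +kernel))
        (CovZ.badM (by decide +kernel))))
      (CovZ.badM (by decide +kernel)))
     (CovZ.n1 (31360, 36480) (by decide +kernel)
      (CovZ.n2 (30720, 36480) (by decide +kernel)
       (CovZ.n2 (31040, 36800) (by decide +kernel)
        (CovZ.badM (by decide +kernel))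
        (CovZ.badM (by decide +kernel)))
       (CovZ.badM (by decide +kernel)))
      (CovZ.n1 (31360, 37120) (by decide +kernel)
       (CovZ.badM (by decide +kernel))
       (CovZ.n1 (31040, 36800) (by decide +kernel)
        (CovZ.badM (by decide +kernel))
        (CovZ.badM (by decide +kernel))))))
    (CovZ.n1 (32000, 38400) (by decide +kernel)
     (CovZ.n2 (32640, 37760) (by decide +kernel)
      (CovZ.n2 (32000, 37760) (by decide +kernel)
       (CovZ.n2 (32320, 38080) (by decide +kernel)
        (CovZ.badM (by decide +kernel))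
        (CovZ.badM (by decide +kernel)))
       (CovZ.badM (by decide +kernel)))
      (CovZ.n1 (32640, 38400) (by decide +kernel)
       (CovZ.badM (by decide +kernel))
       (CovZ.n1 (32320, 38080) (by decide +kernel)
        (CovZ.badM (by decide +kernel))
        (CovZ.badM (by decide +kernel)))))
     (CovZ.n1 (31360, 37760) (by decide +kernel)
      (CovZ.badM (by decide +kernel))
      (CovZ.n1 (32000, 37760) (by decide +kernel)
       (CovZ.n2 (31680, 37440) (by decide +kernel)
        (CovZ.badM (by decide +kernel))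
        (CovZ.badM (by decide +kernel)))
       (CovZ.badM (by decide +kernel)))))))

end Pool.Agent.TET
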