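import Pool.Agent.Helper38_TET.UC

/-!
# MP_c7c9bf_co: certificates, family TF
-/

set_option autoImplicit false
set_option maxRecDepth 100000

namespace Pool.Agent.TET

/-- the edge vectors of the family -/
def TF_M : FM :=
  ⟨⟨30720, 0, 0⟩, ⟨0, 0, 0⟩, ⟨0, 0, 0⟩,
    ⟨0, 0, 0⟩, ⟨30720, 0, 0⟩, ⟨0, 0, 0⟩,
    ⟨0, 1, 0⟩, ⟨0, 0, 1⟩, ⟨30720, 0, 0⟩⟩

end Pool.Agent.TET
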