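import Pool.Agent.Helper38_TET.TF_C

/-!
# MP_c7c9bf_co: certificates, family TF
-/

set_option autoImplicit false
set_option maxRecDepth 100000

namespace Pool.Agent.TET

theorem TF_rg0 : ROK [.l ⟨0, -3731, -1441, -43⟩ ⟨0, 0, 0, 1⟩, .l ⟨0, 2295, -3276, -152⟩ ⟨0, 0, 0, 1⟩, .l ⟨0, 1337, 3770, 2888⟩ ⟨0, 0, 0, 1⟩, .l ⟨0, -2859, 2797, 350⟩ ⟨0, 0, 0, 1⟩] := by
  refine rok_f (f := ⟨0, 0, 0, 1⟩) (by decide) (k := -1) (by decide) (Q := [(-3731, -1441, -43), (2295, -3276, -152), (1337, 3770, 2888), (-2859, 2797, 350)])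
    (P := [⟨-1320960, 3731, 1441⟩, ⟨-4669440, -2295, 3276⟩, ⟨88719360, -1337, -3770⟩, ⟨10752000, 2859, -2797⟩]) rfl rfl
    (List.mem_of_getElem? (i := 0) rfl) TF_fr TF_cov ?_
  · intro X Y h
    simp only [List.forall_mem_cons, List.not_mem_nil, false_imp_iff, implies_true, and_true] at h
    push_cast at h ⊢
    obtain ⟨h0, h1, h2, h3⟩ := h
    refine ⟨⟨?_, ?_⟩, ?_, ?_⟩ <;> linarith

theorem TF_rg1 : ROK [.l ⟨0, -3897, -902, -534⟩ ⟨0, 0, 0, 1⟩, .l ⟨0, 485, -3970, 222⟩ ⟨0, 0, 0, 1⟩, .l ⟨0, 3617, -1708, 2928⟩ ⟨0, 0, 0, 1⟩, .l ⟨0, 2693, 2957, 2690⟩ ⟨0, 0, 0, 1⟩, .l ⟨0, -3177, 2431, 2289⟩ ⟨0, 0, 0, 1⟩] := by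
  refine rok_f (f := ⟨0, 0, 0, 1⟩) (by decide) (k := -1) (by decide) (Q := [(-3897, -902, -534), (485, -3970, 222), (3617, -1708, 2928), (2693, 2957, 2690), (-3177, 2431, 2289)])
    (P := [⟨-16404480, 3897, 902⟩, ⟨6819840, -485, 3970⟩, ⟨89948160, -3617, 1708⟩, ⟨82636800, -2693, -2957⟩, ⟨70318080, 3177, -2431⟩]) rfl rfl
    (List.mem_of_getElem? (i := 1) rfl) TF_fr TF_cov ?_
  · intro X Y h
    simp only [List.forall_mem_cons, List.not_mem_nil, false_imp_iff, implies_true, and_true] at h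
    push_cast at h ⊢
    obtain ⟨h0, h1, h2, h3, h4⟩ := h
    refine ⟨⟨?_, ?_⟩, ?_, ?_⟩ <;> linarith

theorem TF_rg2 : ROK [.l ⟨0, 536, 3964, 145⟩ ⟨0, 0, 0, 1⟩, .l ⟨0, -2678, 2971, 110⟩ ⟨0, 0, 0, 1⟩, .l ⟨0, -2608, -3033, 9⟩ ⟨0, 0, 0, 1⟩, .l ⟨0, 656, -3946, 83⟩ ⟨0, 0, 0, 1⟩] := by
  refine rok_f (f := ⟨0, 0, 0, 1⟩) (by decide) (k := -1) (by decide) (Q := [(536, 3964, 145), (-2678, 2971, 110), (-2608, -3033, 9), (656, -3946, 83)])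
    (P := [⟨4454400, -536, -3964⟩, ⟨3379200, 2678, -2971⟩, ⟨276480, 2608, 3033⟩, ⟨2549760, -656, 3946⟩]) rfl rfl
    (List.mem_of_getElem? (i := 2) rfl) TF_fr TF_cov ?_
  · intro X Y h
    simp only [List.forall_mem_cons, List.not_mem_nil, false_imp_iff, implies_true, and_true] at h
    push_cast at h ⊢
    obtain ⟨h0, h1, h2, h3⟩ := h
    refine ⟨⟨?_, ?_⟩, ?_, ?_⟩ <;> linarith

theorem TF_rg3 : ROK [.l ⟨0, 3943, 673, 2658⟩ ⟨0, 0, 0, 1⟩, .l ⟨0, -1328, 3773, 1639⟩ ⟨0, 0, 0, 1⟩, .l ⟨0, -694, -720, -169⟩ ⟨0, 0, 0, 1⟩, .l ⟨0, -449, -3975, 500⟩ ⟨0, 0, 0, 1⟩] := by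
  refine rok_f (f := ⟨0, 0, 0, 1⟩) (by decide) (k := -1) (by decide) (Q := [(3943, 673, 2658), (-1328, 3773, 1639), (-694, -720, -169), (-449, -3975, 500)])
    (P := [⟨81653760, -3943, -673⟩, ⟨50350080, 1328, -3773⟩, ⟨-5191680, 694, 720⟩, ⟨15360000, 449, 3975⟩]) rfl rfl
    (List.mem_of_getElem? (i := 3) rfl) TF_fr TF_cov ?_
  · intro X Y h
    simp only [List.forall_mem_cons, List.not_mem_nil, false_imp_iff, implies_true, and_true] at h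
    push_cast at h ⊢
    obtain ⟨h0, h1, h2, h3⟩ := h
    refine ⟨⟨?_, ?_⟩, ?_, ?_⟩ <;> linarith

theorem TF_rg4 : ROK [.l ⟨0, -3985, -347, 45⟩ ⟨0, 0, 0, 1⟩, .l ⟨0, 1330, -3772, -225⟩ ⟨0, 0, 0, 1⟩, .l ⟨0, 2828, 2828, 2591⟩ ⟨0, 0, 0, 1⟩, .l ⟨0, -3018, 2625, 2422⟩ ⟨0, 0, 0, 1⟩] := by
  refine rok_f (f := ⟨0, 0, 0, 1⟩) (by decide) (k := -1) (by decide) (Q := [(-3985, -347, 45), (1330, -3772, -225), (2828, 2828, 2591), (-3018, 2625, 2422)])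
    (P := [⟨1382400, 3985, 347⟩, ⟨-6912000, -1330, 3772⟩, ⟨79595520, -2828, -2828⟩, ⟨74403840, 3018, -2625⟩]) rfl rfl
    (List.mem_of_getElem? (i := 4) rfl) TF_fr TF_cov ?_
  · intro X Y h
    simp only [List.forall_mem_cons, List.not_mem_nil, false_imp_iff, implies_true, and_true] at h
    push_cast at h ⊢
    obtain ⟨h0, h1, h2, h3⟩ := h
    refine ⟨⟨?_, ?_⟩, ?_, ?_⟩ <;> linarith

theorem TF_rg5 : ROK [.l ⟨0, 3718, 1477, 2716⟩ ⟨0, 0, 0, 1⟩, .l ⟨0, -2000, 0, -963⟩ ⟨0, 0, 0, 1⟩, .l ⟨0, 0, -4000, 791⟩ ⟨0, 0, 0, 1⟩, .l ⟨0, 2139, -3380, 2060⟩ ⟨0, 0, 0, 1⟩] := by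
  refine rok_f (f := ⟨0, 0, 0, 1⟩) (by decide) (k := -1) (by decide) (Q := [(3718, 1477, 2716), (-2000, 0, -963), (0, -4000, 791), (2139, -3380, 2060)])
    (P := [⟨83435520, -3718, -1477⟩, ⟨-29583360, 2000, 0⟩, ⟨24299520, 0, 4000⟩, ⟨63283200, -2139, 3380⟩]) rfl rfl
    (List.mem_of_getElem? (i := 5) rfl) TF_fr TF_cov ?_
  · intro X Y h
    simp only [List.forall_mem_cons, List.not_mem_nil, false_imp_iff, implies_true, and_true] at h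
    push_cast at h ⊢
    obtain ⟨h0, h1, h2, h3⟩ := h
    refine ⟨⟨?_, ?_⟩, ?_, ?_⟩ <;> linarith

theorem TF_rg6 : ROK [.l ⟨0, 3134, 2486, 3233⟩ ⟨0, 0, 0, 1⟩, .l ⟨0, 962, 3883, 3338⟩ ⟨0, 0, 0, 1⟩, .l ⟨0, -3742, 1413, 195⟩ ⟨0, 0, 0, 1⟩, .l ⟨0, -194, -3995, -320⟩ ⟨0, 0, 0, 1⟩, .l ⟨0, 2214, -3331, -124⟩ ⟨0, 0, 0, 1⟩] := by
  refine rok_f (f := ⟨0, 0, 0, 1⟩) (by decide) (k := -1) (by decide) (Q := [(3134, 2486, 3233), (962, 3883, 3338), (-3742, 1413, 195), (-194, -3995, -320), (2214, -3331, -124)])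
    (P := [⟨99317760, -3134, -2486⟩, ⟨102543360, -962, -3883⟩, ⟨5990400, 3742, -1413⟩, ⟨-9830400, 194, 3995⟩, ⟨-3809280, -2214, 3331⟩]) rfl rfl
    (List.mem_of_getElem? (i := 6) rfl) TF_fr TF_cov ?_
  · intro X Y h
    simp only [List.forall_mem_cons, List.not_mem_nil, false_imp_iff, implies_true, and_true] at h
    push_cast at h ⊢
    obtain ⟨h0, h1, h2, h3, h4⟩ := h
    refine ⟨⟨?_, ?_⟩, ?_, ?_⟩ <;> linarith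

theorem TF_rg7 : ROK [.l ⟨0, -3131, 2490, 246⟩ ⟨0, 0, 0, 1⟩, .l ⟨0, -1976, -309, 20⟩ ⟨0, 0, 0, 1⟩, .l ⟨0, 3597, -1751, -3⟩ ⟨0, 0, 0, 1⟩] := by
  refine rok_f (f := ⟨0, 0, 0, 1⟩) (by decide) (k := -1) (by decide) (Q := [(-3131, 2490, 246), (-1976, -309, 20), (3597, -1751, -3)])
    (P := [⟨7557120, 3131, -2490⟩, ⟨614400, 1976, 309⟩, ⟨-92160, -3597, 1751⟩]) rfl rfl
    (List.mem_of_getElem? (i := 7) rfl) TF_fr TF_cov ?_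
  · intro X Y h
    simp only [List.forall_mem_cons, List.not_mem_nil, false_imp_iff, implies_true, and_true] at h
    push_cast at h ⊢
    obtain ⟨h0, h1, h2⟩ := h
    refine ⟨⟨?_, ?_⟩, ?_, ?_⟩ <;> linarith

theorem TF_rg8 : ROK [.l ⟨0, 2828, -2828, 2179⟩ ⟨0, 0, 0, 1⟩, .l ⟨0, 0, 100, 13⟩ ⟨0, 0, 0, 1⟩, .l ⟨0, -3992, -261, -1847⟩ ⟨0, 0, 0, 1⟩, .l ⟨0, 2370, -3223, 1758⟩ ⟨0, 0, 0, 1⟩] := by
  refine rok_f (f := ⟨0, 0, 0, 1⟩) (by decide) (k := -1) (by decide) (Q := [(2828, -2828, 2179), (0, 100, 13), (-3992, -261, -1847), (2370, -3223, 1758)])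
    (P := [⟨66938880, -2828, 2828⟩, ⟨399360, 0, -100⟩, ⟨-56739840, 3992, 261⟩, ⟨54005760, -2370, 3223⟩]) rfl rfl
    (List.mem_of_getElem? (i := 8) rfl) TF_fr TF_cov ?_
  · intro X Y h
    simp only [List.forall_mem_cons, List.not_mem_nil, false_imp_iff, implies_true, and_true] at h
    push_cast at h ⊢
    obtain ⟨h0, h1, h2, h3⟩ := h
    refine ⟨⟨?_, ?_⟩, ?_, ?_⟩ <;> linarith

theorem TF_rg9 : ROK [.l ⟨0, -590, -1911, -50⟩ ⟨0, 0, 0, 1⟩, .l ⟨0, 3414, -2085, 2866⟩ ⟨0, 0, 0, 1⟩, .l ⟨0, 0, 1000, 31⟩ ⟨0, 0, 0, 1⟩] := by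
  refine rok_f (f := ⟨0, 0, 0, 1⟩) (by decide) (k := -1) (by decide) (Q := [(-590, -1911, -50), (3414, -2085, 2866), (0, 1000, 31)])
    (P := [⟨-1536000, 590, 1911⟩, ⟨88043520, -3414, 2085⟩, ⟨952320, 0, -1000⟩]) rfl rfl
    (List.mem_of_getElem? (i := 9) rfl) TF_fr TF_cov ?_
  · intro X Y h
    simp only [List.forall_mem_cons, List.not_mem_nil, false_imp_iff, implies_true, and_true] at h
    push_cast at h ⊢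
    obtain ⟨h0, h1, h2⟩ := h
    refine ⟨⟨?_, ?_⟩, ?_, ?_⟩ <;> linarith

theorem TF_rg10 : ROK [.l ⟨0, -500, 0, 9⟩ ⟨0, 0, 0, 1⟩, .l ⟨0, -247, -761, -30⟩ ⟨0, 0, 0, 1⟩, .l ⟨0, 3968, -505, 94⟩ ⟨0, 0, 0, 1⟩, .l ⟨0, -357, 563, 448⟩ ⟨0, 0, 0, 1⟩] := by
  refine rok_f (f := ⟨0, 0, 0, 1⟩) (by decide) (k := -1) (by decide) (Q := [(-500, 0, 9), (-247, -761, -30), (3968, -505, 94), (-357, 563, 448)])
    (P := [⟨276480, 500, 0⟩, ⟨-921600, 247, 761⟩, ⟨2887680, -3968, 505⟩, ⟨13762560, 357, -563⟩]) rfl rfl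
    (List.mem_of_getElem? (i := 10) rfl) TF_fr TF_cov ?_
  · intro X Y h
    simp only [List.forall_mem_cons, List.not_mem_nil, false_imp_iff, implies_true, and_true] at h
    push_cast at h ⊢
    obtain ⟨h0, h1, h2, h3⟩ := h
    refine ⟨⟨?_, ?_⟩, ?_, ?_⟩ <;> linarith

theorem TF_rg11 : ROK [.l ⟨0, 1809, -853, 511⟩ ⟨0, 0, 0, 1⟩, .l ⟨0, -2977, 2672, -53⟩ ⟨0, 0, 0, 1⟩, .l ⟨0, -3813, -1210, -374⟩ ⟨0, 0, 0, 1⟩, .l ⟨0, -25, -4000, 111⟩ ⟨0, 0, 0, 1⟩] := by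
  refine rok_f (f := ⟨0, 0, 0, 1⟩) (by decide) (k := -1) (by decide) (Q := [(1809, -853, 511), (-2977, 2672, -53), (-3813, -1210, -374), (-25, -4000, 111)])
    (P := [⟨15697920, -1809, 853⟩, ⟨-1628160, 2977, -2672⟩, ⟨-11489280, 3813, 1210⟩, ⟨3409920, 25, 4000⟩]) rfl rfl
    (List.mem_of_getElem? (i := 11) rfl) TF_fr TF_cov ?_
  · intro X Y h
    simp only [List.forall_mem_cons, List.not_mem_nil, false_imp_iff, implies_true, and_true] at h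
    push_cast at h ⊢
    obtain ⟨h0, h1, h2, h3⟩ := h
    refine ⟨⟨?_, ?_⟩, ?_, ?_⟩ <;> linarith

theorem TF_rg12 : ROK [.l ⟨0, 2883, -2773, 126⟩ ⟨0, 0, 0, 1⟩, .l ⟨0, 1120, 1657, 95⟩ ⟨0, 0, 0, 1⟩, .l ⟨0, -250, 0, 3⟩ ⟨0, 0, 0, 1⟩, .l ⟨0, 0, -2000, 41⟩ ⟨0, 0, 0, 1⟩] := by
  refine rok_f (f := ⟨0, 0, 0, 1⟩) (by decide) (k := -1) (by decide) (Q := [(2883, -2773, 126), (1120, 1657, 95), (-250, 0, 3), (0, -2000, 41)])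
    (P := [⟨3870720, -2883, 2773⟩, ⟨2918400, -1120, -1657⟩, ⟨92160, 250, 0⟩, ⟨1259520, 0, 2000⟩]) rfl rfl
    (List.mem_of_getElem? (i := 12) rfl) TF_fr TF_cov ?_
  · intro X Y h
    simp only [List.forall_mem_cons, List.not_mem_nil, false_imp_iff, implies_true, and_true] at h
    push_cast at h ⊢
    obtain ⟨h0, h1, h2, h3⟩ := h
    refine ⟨⟨?_, ?_⟩, ?_, ?_⟩ <;> linarith

theorem TF_rg13 : ROK [.l ⟨0, 607, 3954, 2078⟩ ⟨0, 0, 0, 1⟩, .l ⟨0, -1888, 660, 729⟩ ⟨0, 0, 0, 1⟩, .l ⟨0, -1471, -1355, -373⟩ ⟨0, 0, 0, 1⟩, .l ⟨0, 2563, -3071, 747⟩ ⟨0, 0, 0, 1⟩] := by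
  refine rok_f (f := ⟨0, 0, 0, 1⟩) (by decide) (k := -1) (by decide) (Q := [(607, 3954, 2078), (-1888, 660, 729), (-1471, -1355, -373), (2563, -3071, 747)])
    (P := [⟨63836160, -607, -3954⟩, ⟨22394880, 1888, -660⟩, ⟨-11458560, 1471, 1355⟩, ⟨22947840, -2563, 3071⟩]) rfl rfl
    (List.mem_of_getElem? (i := 13) rfl) TF_fr TF_cov ?_
  · intro X Y h
    simp only [List.forall_mem_cons, List.not_mem_nil, false_imp_iff, implies_true, and_true] at h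
    push_cast at h ⊢
    obtain ⟨h0, h1, h2, h3⟩ := h
    refine ⟨⟨?_, ?_⟩, ?_, ?_⟩ <;> linarith

theorem TF_rg14 : ROK [.l ⟨0, 707, 707, 821⟩ ⟨0, 0, 0, 1⟩, .l ⟨0, -2828, 2828, -23⟩ ⟨0, 0, 0, 1⟩, .l ⟨0, -4000, 0, -311⟩ ⟨0, 0, 0, 1⟩, .l ⟨0, 1950, -3493, 186⟩ ⟨0, 0, 0, 1⟩] := by
  refine rok_f (f := ⟨0, 0, 0, 1⟩) (by decide) (k := -1) (by decide) (Q := [(707, 707, 821), (-2828, 2828, -23), (-4000, 0, -311), (1950, -3493, 186)])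
    (P := [⟨25221120, -707, -707⟩, ⟨-706560, 2828, -2828⟩, ⟨-9553920, 4000, 0⟩, ⟨5713920, -1950, 3493⟩]) rfl rfl
    (List.mem_of_getElem? (i := 14) rfl) TF_fr TF_cov ?_
  · intro X Y h
    simp only [List.forall_mem_cons, List.not_mem_nil, false_imp_iff, implies_true, and_true] at h
    push_cast at h ⊢
    obtain ⟨h0, h1, h2, h3⟩ := h
    refine ⟨⟨?_, ?_⟩, ?_, ?_⟩ <;> linarith

theorem TF_rg15 : ROK [.l ⟨0, -2000, 5, -209⟩ ⟨0, 0, 0, 1⟩, .l ⟨0, -389, -3981, 68⟩ ⟨0, 0, 0, 1⟩, .l ⟨0, 1164, 3827, 560⟩ ⟨0, 0, 0, 1⟩] := by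
  refine rok_f (f := ⟨0, 0, 0, 1⟩) (by decide) (k := -1) (by decide) (Q := [(-2000, 5, -209), (-389, -3981, 68), (1164, 3827, 560)])
    (P := [⟨-6420480, 2000, -5⟩, ⟨2088960, 389, 3981⟩, ⟨17203200, -1164, -3827⟩]) rfl rfl
    (List.mem_of_getElem? (i := 15) rfl) TF_fr TF_cov ?_
  · intro X Y h
    simp only [List.forall_mem_cons, List.not_mem_nil, false_imp_iff, implies_true, and_true] at h
    push_cast at h ⊢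
    obtain ⟨h0, h1, h2⟩ := h
    refine ⟨⟨?_, ?_⟩, ?_, ?_⟩ <;> linarith

theorem TF_rg16 : ROK [.l ⟨0, -942, -3887, -386⟩ ⟨0, 0, 0, 1⟩, .l ⟨0, 3774, 1325, 1381⟩ ⟨0, 0, 0, 1⟩, .l ⟨0, -2069, 3423, 2785⟩ ⟨0, 0, 0, 1⟩, .l ⟨0, -3983, -365, 74⟩ ⟨0, 0, 0, 1⟩] := by
  refine rok_f (f := ⟨0, 0, 0, 1⟩) (by decide) (k := -1) (by decide) (Q := [(-942, -3887, -386), (3774, 1325, 1381), (-2069, 3423, 2785), (-3983, -365, 74)])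
    (P := [⟨-11857920, 942, 3887⟩, ⟨42424320, -3774, -1325⟩, ⟨85555200, 2069, -3423⟩, ⟨2273280, 3983, 365⟩]) rfl rfl
    (List.mem_of_getElem? (i := 16) rfl) TF_fr TF_cov ?_
  · intro X Y h
    simp only [List.forall_mem_cons, List.not_mem_nil, false_imp_iff, implies_true, and_true] at h
    push_cast at h ⊢
    obtain ⟨h0, h1, h2, h3⟩ := h
    refine ⟨⟨?_, ?_⟩, ?_, ?_⟩ <;> linarith

theorem TF_rg17 : ROK [.l ⟨0, 3603, 1738, 3265⟩ ⟨0, 0, 0, 1⟩, .l ⟨0, 0, 4000, 127⟩ ⟨0, 0, 0, 1⟩, .l ⟨0, -4000, 0, -181⟩ ⟨0, 0, 0, 1⟩, .l ⟨0, -1575, -3677, -23⟩ ⟨0, 0, 0, 1⟩, .l ⟨0, 0, -2000, 41⟩ ⟨0, 0, 0, 1⟩] := by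
  refine rok_f (f := ⟨0, 0, 0, 1⟩) (by decide) (k := -1) (by decide) (Q := [(3603, 1738, 3265), (0, 4000, 127), (-4000, 0, -181), (-1575, -3677, -23), (0, -2000, 41)])
    (P := [⟨100300800, -3603, -1738⟩, ⟨3901440, 0, -4000⟩, ⟨-5560320, 4000, 0⟩, ⟨-706560, 1575, 3677⟩, ⟨1259520, 0, 2000⟩]) rfl rfl
    (List.mem_of_getElem? (i := 17) rfl) TF_fr TF_cov ?_
  · intro X Y h
    simp only [List.forall_mem_cons, List.not_mem_nil, false_imp_iff, implies_true, and_true] at h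
    push_cast at h ⊢
    obtain ⟨h0, h1, h2, h3, h4⟩ := h
    refine ⟨⟨?_, ?_⟩, ?_, ?_⟩ <;> linarith

theorem TF_rg18 : ROK [.l ⟨0, -360, -3984, 61⟩ ⟨0, 0, 0, 1⟩, .l ⟨0, 2141, -3379, 124⟩ ⟨0, 0, 0, 1⟩, .l ⟨0, 2872, 2785, 194⟩ ⟨0, 0, 0, 1⟩, .l ⟨0, -3997, 165, 67⟩ ⟨0, 0, 0, 1⟩] := by
  refine rok_f (f := ⟨0, 0, 0, 1⟩) (by decide) (k := -1) (by decide) (Q := [(-360, -3984, 61), (2141, -3379, 124), (2872, 2785, 194), (-3997, 165, 67)])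
    (P := [⟨1873920, 360, 3984⟩, ⟨3809280, -2141, 3379⟩, ⟨5959680, -2872, -2785⟩, ⟨2058240, 3997, -165⟩]) rfl rfl
    (List.mem_of_getElem? (i := 18) rfl) TF_fr TF_cov ?_
  · intro X Y h
    simp only [List.forall_mem_cons, List.not_mem_nil, false_imp_iff, implies_true, and_true] at h
    push_cast at h ⊢
    obtain ⟨h0, h1, h2, h3⟩ := h
    refine ⟨⟨?_, ?_⟩, ?_, ?_⟩ <;> linarith

theorem TF_rg19 : ROK [.l ⟨0, 3229, 2361, 2426⟩ ⟨0, 0, 0, 1⟩, .l ⟨0, -921, 3893, 3912⟩ ⟨0, 0, 0, 1⟩, .l ⟨0, -3785, -1295, -1217⟩ ⟨0, 0, 0, 1⟩, .l ⟨0, 2031, -3446, -3131⟩ ⟨0, 0, 0, 1⟩] := by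
  refine rok_f (f := ⟨0, 0, 0, 1⟩) (by decide) (k := -1) (by decide) (Q := [(3229, 2361, 2426), (-921, 3893, 3912), (-3785, -1295, -1217), (2031, -3446, -3131)])
    (P := [⟨74526720, -3229, -2361⟩, ⟨120176640, 921, -3893⟩, ⟨-37386240, 3785, 1295⟩, ⟨-96184320, -2031, 3446⟩]) rfl rfl
    (List.mem_of_getElem? (i := 19) rfl) TF_fr TF_cov ?_
  · intro X Y h
    simp only [List.forall_mem_cons, List.not_mem_nil, false_imp_iff, implies_true, and_true] at h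
    push_cast at h ⊢
    obtain ⟨h0, h1, h2, h3⟩ := h
    refine ⟨⟨?_, ?_⟩, ?_, ?_⟩ <;> linarith

theorem TF_rg20 : ROK [.l ⟨0, 0, -2000, -209⟩ ⟨0, 0, 0, 1⟩, .l ⟨0, 2000, 0, 911⟩ ⟨0, 0, 0, 1⟩, .l ⟨0, 553, 1922, 1666⟩ ⟨0, 0, 0, 1⟩, .l ⟨0, -1000, 0, 29⟩ ⟨0, 0, 0, 1⟩, .l ⟨0, -3385, -2130, -134⟩ ⟨0, 0, 0, 1⟩] := by
  refine rok_f (f := ⟨0, 0, 0, 1⟩) (by decide) (k := -1) (by decide) (Q := [(0, -2000, -209), (2000, 0, 911), (553, 1922, 1666), (-1000, 0, 29), (-3385, -2130, -134)])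
    (P := [⟨-6420480, 0, 2000⟩, ⟨27985920, -2000, 0⟩, ⟨51179520, -553, -1922⟩, ⟨890880, 1000, 0⟩, ⟨-4116480, 3385, 2130⟩]) rfl rfl
    (List.mem_of_getElem? (i := 20) rfl) TF_fr TF_cov ?_
  · intro X Y h
    simp only [List.forall_mem_cons, List.not_mem_nil, false_imp_iff, implies_true, and_true] at h
    push_cast at h ⊢
    obtain ⟨h0, h1, h2, h3, h4⟩ := h
    refine ⟨⟨?_, ?_⟩, ?_, ?_⟩ <;> linarith

theorem TF_rg21 : ROK [.l ⟨0, -3995, -203, -1500⟩ ⟨0, 0, 0, 1⟩, .l ⟨0, 1840, -3551, 1285⟩ ⟨0, 0, 0, 1⟩, .l ⟨0, 3188, -2416, 2515⟩ ⟨0, 0, 0, 1⟩, .l ⟨0, 1414, 1414, 1465⟩ ⟨0, 0, 0, 1⟩] := by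
  refine rok_f (f := ⟨0, 0, 0, 1⟩) (by decide) (k := -1) (by decide) (Q := [(-3995, -203, -1500), (1840, -3551, 1285), (3188, -2416, 2515), (1414, 1414, 1465)])
    (P := [⟨-46080000, 3995, 203⟩, ⟨39475200, -1840, 3551⟩, ⟨77260800, -3188, 2416⟩, ⟨45004800, -1414, -1414⟩]) rfl rfl
    (List.mem_of_getElem? (i := 21) rfl) TF_fr TF_cov ?_
  · intro X Y h
    simp only [List.forall_mem_cons, List.not_mem_nil, false_imp_iff, implies_true, and_true] at h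
    push_cast at h ⊢
    obtain ⟨h0, h1, h2, h3⟩ := h
    refine ⟨⟨?_, ?_⟩, ?_, ?_⟩ <;> linarith

theorem TF_rg22 : ROK [.l ⟨0, -1991, -189, 30⟩ ⟨0, 0, 0, 1⟩, .l ⟨0, 0, -4000, 77⟩ ⟨0, 0, 0, 1⟩, .l ⟨0, 1659, -1117, 68⟩ ⟨0, 0, 0, 1⟩, .l ⟨0, -83, 3999, 120⟩ ⟨0, 0, 0, 1⟩] := by
  refine rok_f (f := ⟨0, 0, 0, 1⟩) (by decide) (k := -1) (by decide) (Q := [(-1991, -189, 30), (0, -4000, 77), (1659, -1117, 68), (-83, 3999, 120)])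
    (P := [⟨921600, 1991, 189⟩, ⟨2365440, 0, 4000⟩, ⟨2088960, -1659, 1117⟩, ⟨3686400, 83, -3999⟩]) rfl rfl
    (List.mem_of_getElem? (i := 22) rfl) TF_fr TF_cov ?_
  · intro X Y h
    simp only [List.forall_mem_cons, List.not_mem_nil, false_imp_iff, implies_true, and_true] at h
    push_cast at h ⊢
    obtain ⟨h0, h1, h2, h3⟩ := h
    refine ⟨⟨?_, ?_⟩, ?_, ?_⟩ <;> linarith

theorem TF_rg23 : ROK [.l ⟨0, -3977, -428, 67⟩ ⟨0, 0, 0, 1⟩, .l ⟨0, 0, -200, -21⟩ ⟨0, 0, 0, 1⟩, .l ⟨0, 2293, 3278, 364⟩ ⟨0, 0, 0, 1⟩] := by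
  refine rok_f (f := ⟨0, 0, 0, 1⟩) (by decide) (k := -1) (by decide) (Q := [(-3977, -428, 67), (0, -200, -21), (2293, 3278, 364)])
    (P := [⟨2058240, 3977, 428⟩, ⟨-645120, 0, 200⟩, ⟨11182080, -2293, -3278⟩]) rfl rfl
    (List.mem_of_getElem? (i := 23) rfl) TF_fr TF_cov ?_
  · intro X Y h
    simp only [List.forall_mem_cons, List.not_mem_nil, false_imp_iff, implies_true, and_true] at h
    push_cast at h ⊢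
    obtain ⟨h0, h1, h2⟩ := h
    refine ⟨⟨?_, ?_⟩, ?_, ?_⟩ <;> linarith

end Pool.Agent.TET
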