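import Pool.Agent.Helper38_TET.TF_M
import Pool.Agent.Helper38_TET.TF_L
import Pool.Agent.Helper38_TET.TF_7
import Pool.Agent.Helper38_TET.TF_8
import Pool.Agent.Helper38_TET.TF_47
import Pool.Agent.Helper38_TET.TF_49
import Pool.Agent.Helper38_TET.TF_50
import Pool.Agent.Helper38_TET.TF_51
import Pool.Agent.Helper38_TET.TF_67
import Pool.Agent.Helper38_TET.TF_68
import Pool.Agent.Helper38_TET.TF_69
import Pool.Agent.Helper38_TET.TF_103
import Pool.Agent.Helper38_TET.TF_104
import Pool.Agent.Helper38_TET.TF_U2

/-!
# MP_c7c9bf_co: certificates, family TF
-/

set_option autoImplicit false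
set_option maxRecDepth 100000

namespace Pool.Agent.TET

theorem TF_u45 : CovZ TF_M (toL (selN TF_LN 664816821988494453156143003190034432)) [0, 7, 4, 3] (27520, -1280) (28160, -1280) (27520, -640) :=
    (CovZ.n1 (27840, -960) (by decide +kernel)
        (CovZ.badM (by decide +kernel))
        (CovZ.n1 (27520, -960) (by decide +kernel)
         (CovZ.n2 (27680, -800) (by decide +kernel)
          (CovZ.n2 (27680, -960) (by decide +kernel)
           (CovZ.n2 (27600, -880) (by decide +kernel)
            (CovZ.n2 (27680, -880) (by decide +kernel)
             (CovZ.n2 (27640, -920) (by decide +kernel)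
              (CovZ.n2 (27640, -880) (by decide +kernel)
               (CovZ.leaf K2_ok TF_l7394 _)
               (CovZ.leaf K2_ok TF_l7395 _))
              (CovZ.n1 (27680, -920) (by decide +kernel)
               (CovZ.leaf K2_ok TF_l7396 _)
               (CovZ.leaf K2_ok TF_l7397 _)))
             (CovZ.n1 (27640, -840) (by decide +kernel)
              (CovZ.n2 (27680, -840) (by decide +kernel)
               (CovZ.leaf K2_ok TF_l7398 _)
               (CovZ.leaf K2_ok TF_l7399 _))
              (CovZ.leaf K2_ok TF_l7400 _)))
            (CovZ.n1 (27600, -960) (by decide +kernel)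
             (CovZ.n2 (27560, -920) (by decide +kernel)
              (CovZ.n2 (27600, -920) (by decide +kernel)
               (CovZ.leaf K2_ok TF_l7401 _)
               (CovZ.leaf K2_ok TF_l7402 _))
              (CovZ.leaf K2_ok TF_l7403 _))
             (CovZ.n1 (27640, -920) (by decide +kernel)
              (CovZ.leaf K2_ok TF_l7404 _)
              (CovZ.leaf K2_ok TF_l7405 _))))
           (CovZ.n1 (27760, -880) (by decide +kernel)
            (CovZ.n2 (27760, -960) (by decide +kernel)
             (CovZ.n2 (27720, -920) (by decide +kernel)
              (CovZ.n2 (27760, -920) (by decide +kernel)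
               (CovZ.leaf K2_ok TF_l7406 _)
               (CovZ.leaf K2_ok TF_l7407 _))
              (CovZ.leaf K2_ok TF_l7408 _))
             (CovZ.n1 (27800, -920) (by decide +kernel)
              (CovZ.n2 (27800, -960) (by decide +kernel)
               (CovZ.n2 (27780, -940) (by decide +kernel)
                (CovZ.leaf K2_ok TF_l15520 _)
                (CovZ.leaf K2_ok TF_l15521 _))
               (CovZ.leaf K2_ok TF_l15522 _))
              (CovZ.n1 (27760, -920) (by decide +kernel)
               (CovZ.leaf K2_ok TF_l7409 _)
               (CovZ.n1 (27780, -940) (by decide +kernel)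
                (CovZ.leaf K2_ok TF_l15523 _)
                (CovZ.leaf K2_ok TF_l15524 _)))))
            (CovZ.n1 (27680, -880) (by decide +kernel)
             (CovZ.leaf K2_ok TF_l7410 _)
             (CovZ.n1 (27720, -920) (by decide +kernel)
              (CovZ.leaf K2_ok TF_l7411 _)
              (CovZ.leaf K2_ok TF_l7412 _)))))
          (CovZ.n1 (27520, -800) (by decide +kernel)
           (CovZ.leaf K2_ok TF_l7413 _)
           (CovZ.n1 (27600, -880) (by decide +kernel)
            (CovZ.n2 (27520, -880) (by decide +kernel)
             (CovZ.leaf K2_ok TF_l7414 _)
             (CovZ.n1 (27560, -920) (by decide +kernel)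
              (CovZ.leaf K2_ok TF_l7415 _)
              (CovZ.leaf K2_ok TF_l7416 _)))
            (CovZ.n1 (27600, -800) (by decide +kernel)
             (CovZ.n2 (27640, -840) (by decide +kernel)
              (CovZ.leaf K2_ok TF_l7417 _)
              (CovZ.leaf K2_ok TF_l7418 _))
             (CovZ.leaf K2_ok TF_l7419 _)))))
         (CovZ.n1 (27680, -1120) (by decide +kernel)
          (CovZ.n2 (27520, -1120) (by decide +kernel)
           (CovZ.n2 (27600, -1040) (by decide +kernel)
            (CovZ.badM (by decide +kernel))
            (CovZ.n1 (27520, -1040) (by decide +kernel)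
             (CovZ.n2 (27560, -1000) (by decide +kernel)
              (CovZ.n2 (27560, -1040) (by decide +kernel)
               (CovZ.n2 (27540, -1020) (by decide +kernel)
                (CovZ.leaf K2_ok TF_l15525 _)
                (CovZ.leaf K2_ok TF_l15526 _))
               (CovZ.leaf K2_ok TF_l15527 _))
              (CovZ.n1 (27520, -1000) (by decide +kernel)
               (CovZ.leaf K2_ok TF_l7420 _)
               (CovZ.n1 (27540, -1020) (by decide +kernel)
                (CovZ.leaf K2_ok TF_l15528 _)
                (CovZ.leaf K2_ok TF_l15529 _))))
             (CovZ.badM (by decide +kernel))))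
           (CovZ.badM (by decide +kernel)))
          (CovZ.n1 (27680, -960) (by decide +kernel)
           (CovZ.n2 (27760, -1040) (by decide +kernel)
            (CovZ.n2 (27680, -1040) (by decide +kernel)
             (CovZ.n2 (27720, -1000) (by decide +kernel)
              (CovZ.badM (by decide +kernel))
              (CovZ.n1 (27680, -1000) (by decide +kernel)
               (CovZ.leaf K2_ok TF_l15530 _)
               (CovZ.badM (by decide +kernel))))
             (CovZ.badM (by decide +kernel)))
            (CovZ.n1 (27760, -960) (by decide +kernel)
             (CovZ.n2 (27800, -1000) (by decide +kernel)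
              (CovZ.n2 (27760, -1000) (by decide +kernel)
               (CovZ.n2 (27780, -980) (by decide +kernel)
                (CovZ.badM (by decide +kernel))
                (CovZ.n1 (27760, -980) (by decide +kernel)
                 (CovZ.leaf K2_ok TF_l15531 _)
                 (CovZ.badM (by decide +kernel))))
               (CovZ.badM (by decide +kernel)))
              (CovZ.n1 (27800, -960) (by decide +kernel)
               (CovZ.n2 (27820, -980) (by decide +kernel)
                (CovZ.n2 (27800, -980) (by decide +kernel)
                 (CovZ.leaf K2_ok TF_l15532 _)
                 (CovZ.badM (by decide +kernel)))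
                (CovZ.n1 (27820, -960) (by decide +kernel)
                 (CovZ.leaf K2_ok TF_l15533 _)
                 (CovZ.leaf K2_ok TF_l15534 _)))
               (CovZ.n1 (27780, -980) (by decide +kernel)
                (CovZ.leaf K2_ok TF_l15535 _)
                (CovZ.n1 (27800, -980) (by decide +kernel)
                 (CovZ.badM (by decide +kernel))
                 (CovZ.leaf K2_ok TF_l15536 _)))))
             (CovZ.n1 (27720, -1000) (by decide +kernel)
              (CovZ.n2 (27720, -960) (by decide +kernel)
               (CovZ.n2 (27740, -980) (by decide +kernel)
                (CovZ.n2 (27720, -980) (by decide +kernel)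
                 (CovZ.leaf K2_ok TF_l15537 _)
                 (CovZ.leaf K2_ok TF_l15538 _))
                (CovZ.leaf K2_ok TF_l15539 _))
               (CovZ.n1 (27700, -980) (by decide +kernel)
                (CovZ.leaf K2_ok TF_l15540 _)
                (CovZ.n1 (27720, -980) (by decide +kernel)
                 (CovZ.leaf K2_ok TF_l15541 _)
                 (CovZ.leaf K2_ok TF_l15542 _))))
              (CovZ.n1 (27760, -1000) (by decide +kernel)
               (CovZ.badM (by decide +kernel))
               (CovZ.n1 (27740, -980) (by decide +kernel)
                (CovZ.n2 (27760, -980) (by decide +kernel)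
                 (CovZ.badM (by decide +kernel))
                 (CovZ.leaf K2_ok TF_l15543 _))
                (CovZ.badM (by decide +kernel)))))))
           (CovZ.n1 (27600, -1040) (by decide +kernel)
            (CovZ.n2 (27600, -960) (by decide +kernel)
             (CovZ.n2 (27640, -1000) (by decide +kernel)
              (CovZ.n2 (27600, -1000) (by decide +kernel)
               (CovZ.leaf K2_ok TF_l15544 _)
               (CovZ.n1 (27620, -1020) (by decide +kernel)
                (CovZ.n2 (27600, -1020) (by decide +kernel)
                 (CovZ.leaf K2_ok TF_l15545 _)
                 (CovZ.badM (by decide +kernel)))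
                (CovZ.n1 (27620, -1000) (by decide +kernel)
                 (CovZ.leaf K2_ok TF_l15546 _)
                 (CovZ.leaf K2_ok TF_l15547 _))))
              (CovZ.n1 (27640, -960) (by decide +kernel)
               (CovZ.n2 (27660, -980) (by decide +kernel)
                (CovZ.leaf K2_ok TF_l15548 _)
                (CovZ.leaf K2_ok TF_l15549 _))
               (CovZ.n1 (27620, -980) (by decide +kernel)
                (CovZ.leaf K2_ok TF_l15550 _)
                (CovZ.leaf K2_ok TF_l15551 _))))
             (CovZ.n1 (27560, -1000) (by decide +kernel)
              (CovZ.n2 (27560, -960) (by decide +kernel)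
               (CovZ.n2 (27580, -980) (by decide +kernel)
                (CovZ.leaf K2_ok TF_l15552 _)
                (CovZ.leaf K2_ok TF_l15553 _))
               (CovZ.leaf K2_ok TF_l7421 _))
              (CovZ.n1 (27600, -1000) (by decide +kernel)
               (CovZ.n2 (27580, -1020) (by decide +kernel)
                (CovZ.leaf K2_ok TF_l15554 _)
                (CovZ.n1 (27600, -1020) (by decide +kernel)
                 (CovZ.badM (by decide +kernel))
                 (CovZ.leaf K2_ok TF_l15555 _)))
               (CovZ.n1 (27580, -980) (by decide +kernel)
                (CovZ.leaf K2_ok TF_l15556 _)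
                (CovZ.leaf K2_ok TF_l15557 _)))))
            (CovZ.n1 (27680, -1040) (by decide +kernel)
             (CovZ.badM (by decide +kernel))
             (CovZ.n1 (27640, -1000) (by decide +kernel)
              (CovZ.n2 (27680, -1000) (by decide +kernel)
               (CovZ.n2 (27660, -1020) (by decide +kernel)
                (CovZ.n2 (27660, -1000) (by decide +kernel)
                 (CovZ.badM (by decide +kernel))
                 (CovZ.leaf K2_ok TF_l15558 _))
                (CovZ.badM (by decide +kernel)))
               (CovZ.n1 (27660, -980) (by decide +kernel)
                (CovZ.n2 (27680, -980) (by decide +kernel)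
                 (CovZ.leaf K2_ok TF_l15559 _)
                 (CovZ.leaf K2_ok TF_l15560 _))
                (CovZ.leaf K2_ok TF_l15561 _)))
              (CovZ.n1 (27640, -1040) (by decide +kernel)
               (CovZ.n2 (27620, -1020) (by decide +kernel)
                (CovZ.n2 (27640, -1020) (by decide +kernel)
                 (CovZ.badM (by decide +kernel))
                 (CovZ.leaf K2_ok TF_l15562 _))
                (CovZ.badM (by decide +kernel)))
               (CovZ.n1 (27660, -1020) (by decide +kernel)
                (CovZ.badM (by decide +kernel))
                (CovZ.n1 (27640, -1020) (by decide +kernel)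
                 (CovZ.leaf K2_ok TF_l15563 _)
                 (CovZ.badM (by decide +kernel))))))))))))

theorem TF_u46 : CovZ TF_M (toL (selN TF_LN 664816821988494453156143003190034432)) [0, 7, 4, 3] (28160, 0) (26880, -1280) (28160, -2560) :=
    (CovZ.n2 (28160, -1280) (by decide +kernel)
     (CovZ.n2 (27520, -1920) (by decide +kernel)
      (CovZ.n2 (27520, -1280) (by decide +kernel)
       (CovZ.badM (by decide +kernel))
       (CovZ.n1 (27200, -1600) (by decide +kernel)
        (CovZ.n2 (27200, -1280) (by decide +kernel)
         (CovZ.badM (by decide +kernel))
         (CovZ.n1 (27040, -1440) (by decide +kernel)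
          (CovZ.n2 (27040, -1280) (by decide +kernel)
           (CovZ.n2 (27120, -1360) (by decide +kernel)
            (CovZ.n2 (27040, -1360) (by decide +kernel)
             (CovZ.leaf K2_ok TF_l7161 _)
             (CovZ.n1 (27080, -1400) (by decide +kernel)
              (CovZ.n2 (27040, -1400) (by decide +kernel)
               (CovZ.leaf K2_ok TF_l7162 _)
               (CovZ.n1 (27060, -1420) (by decide +kernel)
                (CovZ.leaf K2_ok TF_l15493 _)
                (CovZ.leaf K2_ok TF_l15494 _)))
              (CovZ.n1 (27080, -1360) (by decide +kernel)
               (CovZ.n2 (27100, -1380) (by decide +kernel)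
                (CovZ.leaf K2_ok TF_l15495 _)
                (CovZ.leaf K2_ok TF_l15496 _))
               (CovZ.leaf K2_ok TF_l7163 _))))
            (CovZ.n1 (27120, -1280) (by decide +kernel)
             (CovZ.n2 (27160, -1320) (by decide +kernel)
              (CovZ.n2 (27120, -1320) (by decide +kernel)
               (CovZ.leaf K2_ok TF_l7164 _)
               (CovZ.leaf K2_ok TF_l7165 _))
              (CovZ.n1 (27160, -1280) (by decide +kernel)
               (CovZ.leaf K2_ok TF_l7166 _)
               (CovZ.leaf K2_ok TF_l7167 _)))
             (CovZ.n1 (27080, -1320) (by decide +kernel)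
              (CovZ.leaf K2_ok TF_l7168 _)
              (CovZ.n1 (27120, -1320) (by decide +kernel)
               (CovZ.leaf K2_ok TF_l7169 _)
               (CovZ.leaf K2_ok TF_l7170 _)))))
           (CovZ.n1 (26960, -1360) (by decide +kernel)
            (CovZ.n2 (26960, -1280) (by decide +kernel)
             (CovZ.n2 (27000, -1320) (by decide +kernel)
              (CovZ.leaf K2_ok TF_l7171 _)
              (CovZ.leaf K2_ok TF_l7172 _))
             (CovZ.leaf K2_ok TF_l7173 _))
            (CovZ.n1 (27040, -1360) (by decide +kernel)
             (CovZ.n2 (27000, -1400) (by decide +kernel)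
              (CovZ.leaf K2_ok TF_l7174 _)
              (CovZ.n1 (27040, -1400) (by decide +kernel)
               (CovZ.leaf K2_ok TF_l7175 _)
               (CovZ.leaf K2_ok TF_l7176 _)))
             (CovZ.n1 (27000, -1320) (by decide +kernel)
              (CovZ.leaf K2_ok TF_l7177 _)
              (CovZ.leaf K2_ok TF_l7178 _)))))
          (CovZ.n1 (27200, -1440) (by decide +kernel)
           (CovZ.n2 (27120, -1520) (by decide +kernel)
            (CovZ.n2 (27120, -1440) (by decide +kernel)
             (CovZ.badM (by decide +kernel))
             (CovZ.n1 (27080, -1480) (by decide +kernel)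
              (CovZ.n2 (27080, -1440) (by decide +kernel)
               (CovZ.badM (by decide +kernel))
               (CovZ.n1 (27060, -1460) (by decide +kernel)
                (CovZ.n2 (27060, -1440) (by decide +kernel)
                 (CovZ.badM (by decide +kernel))
                 (CovZ.leaf K2_ok TF_l15497 _))
                (CovZ.badM (by decide +kernel))))
              (CovZ.badM (by decide +kernel))))
            (CovZ.badM (by decide +kernel)))
           (CovZ.n1 (27120, -1360) (by decide +kernel)
            (CovZ.n2 (27200, -1360) (by decide +kernel)
             (CovZ.n2 (27160, -1400) (by decide +kernel)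
              (CovZ.n2 (27160, -1360) (by decide +kernel)
               (CovZ.badM (by decide +kernel))
               (CovZ.n1 (27140, -1380) (by decide +kernel)
                (CovZ.leaf K2_ok TF_l15498 _)
                (CovZ.n1 (27160, -1380) (by decide +kernel)
                 (CovZ.leaf K2_ok TF_l15499 _)
                 (CovZ.leaf K2_ok TF_l15500 _))))
              (CovZ.badM (by decide +kernel)))
             (CovZ.n1 (27160, -1320) (by decide +kernel)
              (CovZ.n2 (27200, -1320) (by decide +kernel)
               (CovZ.n2 (27180, -1340) (by decide +kernel)
                (CovZ.leaf K2_ok TF_l15501 _)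
                (CovZ.badM (by decide +kernel)))
               (CovZ.leaf K2_ok TF_l15502 _))
              (CovZ.n1 (27160, -1360) (by decide +kernel)
               (CovZ.n2 (27140, -1340) (by decide +kernel)
                (CovZ.leaf K2_ok TF_l15503 _)
                (CovZ.leaf K2_ok TF_l15504 _))
               (CovZ.leaf K2_ok TF_l15505 _))))
            (CovZ.n1 (27120, -1440) (by decide +kernel)
             (CovZ.n2 (27080, -1400) (by decide +kernel)
              (CovZ.n2 (27120, -1400) (by decide +kernel)
               (CovZ.n2 (27100, -1420) (by decide +kernel)
                (CovZ.leaf K2_ok TF_l15506 _)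
                (CovZ.n1 (27120, -1420) (by decide +kernel)
                 (CovZ.badM (by decide +kernel))
                 (CovZ.leaf K2_ok TF_l15507 _)))
               (CovZ.n1 (27100, -1380) (by decide +kernel)
                (CovZ.leaf K2_ok TF_l15508 _)
                (CovZ.leaf K2_ok TF_l15509 _)))
              (CovZ.n1 (27080, -1440) (by decide +kernel)
               (CovZ.n2 (27060, -1420) (by decide +kernel)
                (CovZ.leaf K2_ok TF_l15510 _)
                (CovZ.leaf K2_ok TF_l15511 _))
               (CovZ.leaf K2_ok TF_l15512 _)))
             (CovZ.n1 (27160, -1400) (by decide +kernel)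
              (CovZ.badM (by decide +kernel))
              (CovZ.n1 (27120, -1400) (by decide +kernel)
               (CovZ.leaf K2_ok TF_l15513 _)
               (CovZ.n1 (27140, -1420) (by decide +kernel)
                (CovZ.n2 (27120, -1420) (by decide +kernel)
                 (CovZ.leaf K2_ok TF_l15514 _)
                 (CovZ.badM (by decide +kernel)))
                (CovZ.n1 (27140, -1400) (by decide +kernel)
                 (CovZ.badM (by decide +kernel))
                 (CovZ.leaf K2_ok TF_l15515 _))))))))))
        (CovZ.badM (by decide +kernel))))
      (CovZ.badM (by decide +kernel)))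
     (CovZ.n1 (27520, -640) (by decide +kernel)
      (CovZ.n2 (28160, -640) (by decide +kernel)
       TF_u42
       TF_u43)
      (CovZ.n1 (27520, -1280) (by decide +kernel)
       TF_u44
       TF_u45)))

theorem TF_u47 : CovZ TF_M (toL (selN TF_LN 664816821988494453156143003190034432)) [0, 7, 4, 3] (26880, -1280) (25600, -2560) (28160, -2560) :=
    (CovZ.n1 (26880, -2560) (by decide +kernel)
     (CovZ.n2 (26240, -1920) (by decide +kernel)
      (CovZ.n2 (26880, -1920) (by decide +kernel)
       (CovZ.badM (by decide +kernel))
       (CovZ.n1 (26560, -1600) (by decide +kernel)
        (CovZ.n2 (26880, -1600) (by decide +kernel)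
         (CovZ.n2 (26720, -1760) (by decide +kernel)
          (CovZ.n2 (26720, -1600) (by decide +kernel)
           (CovZ.n2 (26800, -1680) (by decide +kernel)
            (CovZ.n2 (26720, -1680) (by decide +kernel)
             (CovZ.n2 (26760, -1640) (by decide +kernel)
              (CovZ.badM (by decide +kernel))
              (CovZ.n1 (26720, -1640) (by decide +kernel)
               (CovZ.leaf K2_ok TF_l7422 _)
               (CovZ.badM (by decide +kernel))))
             (CovZ.badM (by decide +kernel)))
            (CovZ.n1 (26800, -1600) (by decide +kernel)
             (CovZ.badM (by decide +kernel))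
             (CovZ.n1 (26760, -1640) (by decide +kernel)
              (CovZ.n2 (26760, -1600) (by decide +kernel)
               (CovZ.badM (by decide +kernel))
               (CovZ.leaf K2_ok TF_l7424 _))
              (CovZ.badM (by decide +kernel)))))
           (CovZ.n1 (26640, -1680) (by decide +kernel)
            (CovZ.n2 (26640, -1600) (by decide +kernel)
             (CovZ.n2 (26680, -1640) (by decide +kernel)
              (CovZ.leaf K2_ok TF_l7425 _)
              (CovZ.leaf K2_ok TF_l7426 _))
             (CovZ.n1 (26600, -1640) (by decide +kernel)
              (CovZ.leaf K2_ok TF_l7427 _)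
              (CovZ.leaf K2_ok TF_l7428 _)))
            (CovZ.n1 (26720, -1680) (by decide +kernel)
             (CovZ.badM (by decide +kernel))
             (CovZ.n1 (26680, -1640) (by decide +kernel)
              (CovZ.n2 (26720, -1640) (by decide +kernel)
               (CovZ.badM (by decide +kernel))
               (CovZ.leaf K2_ok TF_l7431 _))
              (CovZ.badM (by decide +kernel))))))
          (CovZ.badM (by decide +kernel)))
         (CovZ.n1 (26720, -1440) (by decide +kernel)
          (CovZ.n2 (26880, -1440) (by decide +kernel)
           (CovZ.n2 (26800, -1520) (by decide +kernel)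
            (CovZ.n2 (26800, -1440) (by decide +kernel)
             (CovZ.n2 (26840, -1480) (by decide +kernel)
              (CovZ.leaf K2_ok TF_l7433 _)
              (CovZ.leaf K2_ok TF_l7434 _))
             (CovZ.leaf K2_ok TF_l7435 _))
            (CovZ.n1 (26880, -1520) (by decide +kernel)
             (CovZ.n2 (26840, -1560) (by decide +kernel)
              (CovZ.n2 (26840, -1520) (by decide +kernel)
               (CovZ.leaf K2_ok TF_l7436 _)
               (CovZ.leaf K2_ok TF_l7437 _))
              (CovZ.n1 (26880, -1560) (by decide +kernel)
               (CovZ.badM (by decide +kernel))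
               (CovZ.leaf K2_ok TF_l7438 _)))
             (CovZ.n1 (26840, -1480) (by decide +kernel)
              (CovZ.leaf K2_ok TF_l7439 _)
              (CovZ.leaf K2_ok TF_l7440 _))))
           (CovZ.n1 (26800, -1360) (by decide +kernel)
            (CovZ.n2 (26880, -1360) (by decide +kernel)
             (CovZ.leaf K2_ok TF_l7441 _)
             (CovZ.leaf K2_ok TF_l7442 _))
            (CovZ.leaf K2_ok TF_l7443 _)))
          (CovZ.n1 (26720, -1600) (by decide +kernel)
           (CovZ.n2 (26640, -1520) (by decide +kernel)
            (CovZ.n2 (26720, -1520) (by decide +kernel)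
             (CovZ.leaf K2_ok TF_l7444 _)
             (CovZ.leaf K2_ok TF_l7445 _))
            (CovZ.leaf K2_ok TF_l7446 _))
           (CovZ.n1 (26800, -1520) (by decide +kernel)
            (CovZ.n2 (26800, -1600) (by decide +kernel)
             (CovZ.n2 (26760, -1560) (by decide +kernel)
              (CovZ.n2 (26800, -1560) (by decide +kernel)
               (CovZ.leaf K2_ok TF_l7447 _)
               (CovZ.leaf K2_ok TF_l7448 _))
              (CovZ.leaf K2_ok TF_l7449 _))
             (CovZ.n1 (26840, -1560) (by decide +kernel)
              (CovZ.badM (by decide +kernel))
              (CovZ.leaf K2_ok TF_l7450 _)))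
            (CovZ.n1 (26720, -1520) (by decide +kernel)
             (CovZ.leaf K2_ok TF_l7451 _)
             (CovZ.n1 (26760, -1560) (by decide +kernel)
              (CovZ.leaf K2_ok TF_l7452 _)
              (CovZ.leaf K2_ok TF_l7453 _)))))))
        (CovZ.n1 (26560, -1920) (by decide +kernel)
         (CovZ.n2 (26400, -1760) (by decide +kernel)
          (CovZ.n2 (26560, -1760) (by decide +kernel)
           (CovZ.n2 (26480, -1840) (by decide +kernel)
            (CovZ.n2 (26480, -1760) (by decide +kernel)
             (CovZ.badM (by decide +kernel))
             (CovZ.n1 (26440, -1800) (by decide +kernel)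
              (CovZ.leaf K2_ok TF_l7457 _)
              (CovZ.badM (by decide +kernel))))
            (CovZ.badM (by decide +kernel)))
           (CovZ.n1 (26480, -1680) (by decide +kernel)
            (CovZ.n2 (26560, -1680) (by decide +kernel)
             (CovZ.n2 (26520, -1720) (by decide +kernel)
              (CovZ.leaf K2_ok TF_l7460 _)
              (CovZ.leaf K2_ok TF_l7461 _))
             (CovZ.leaf K2_ok TF_l7462 _))
            (CovZ.n1 (26480, -1760) (by decide +kernel)
             (CovZ.n2 (26440, -1720) (by decide +kernel)
              (CovZ.leaf K2_ok TF_l7463 _)
              (CovZ.leaf K2_ok TF_l7464 _))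
             (CovZ.leaf K2_ok TF_l7465 _))))
          (CovZ.n1 (26400, -1920) (by decide +kernel)
           (CovZ.n2 (26320, -1840) (by decide +kernel)
            (CovZ.n2 (26400, -1840) (by decide +kernel)
             (CovZ.n2 (26360, -1880) (by decide +kernel)
              (CovZ.leaf K2_ok TF_l7466 _)
              (CovZ.badM (by decide +kernel)))
             (CovZ.n1 (26360, -1800) (by decide +kernel)
              (CovZ.leaf K2_ok TF_l7469 _)
              (CovZ.leaf K2_ok TF_l7470 _)))
            (CovZ.n1 (26320, -1920) (by decide +kernel)
             (CovZ.n2 (26280, -1880) (by decide +kernel)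
              (CovZ.leaf K2_ok TF_l7471 _)
              (CovZ.badM (by decide +kernel)))
             (CovZ.leaf K2_ok TF_l7473 _)))
           (CovZ.n1 (26480, -1840) (by decide +kernel)
            (CovZ.badM (by decide +kernel))
            (CovZ.n1 (26400, -1840) (by decide +kernel)
             (CovZ.leaf K2_ok TF_l7474 _)
             (CovZ.badM (by decide +kernel))))))
         (CovZ.n1 (26720, -1760) (by decide +kernel)
          (CovZ.badM (by decide +kernel))
          (CovZ.n1 (26560, -1760) (by decide +kernel)
           (CovZ.n2 (26640, -1680) (by decide +kernel)
            (CovZ.badM (by decide +kernel))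
            (CovZ.n1 (26560, -1680) (by decide +kernel)
             (CovZ.leaf K2_ok TF_l7481 _)
             (CovZ.n1 (26600, -1720) (by decide +kernel)
              (CovZ.leaf K2_ok TF_l7482 _)
              (CovZ.leaf K2_ok TF_l7483 _))))
           (CovZ.badM (by decide +kernel)))))))
      (CovZ.badM (by decide +kernel)))
     (CovZ.n1 (27520, -1920) (by decide +kernel)
      (CovZ.badM (by decide +kernel))
      (CovZ.n1 (26880, -1920) (by decide +kernel)
       (CovZ.n2 (27200, -1600) (by decide +kernel)
        (CovZ.badM (by decide +kernel))
        (CovZ.n1 (26880, -1600) (by decide +kernel)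
         (CovZ.n2 (27040, -1440) (by decide +kernel)
          (CovZ.n2 (27040, -1600) (by decide +kernel)
           (CovZ.n2 (26960, -1520) (by decide +kernel)
            (CovZ.n2 (27040, -1520) (by decide +kernel)
             (CovZ.badM (by decide +kernel))
             (CovZ.n1 (27000, -1480) (by decide +kernel)
              (CovZ.n2 (27040, -1480) (by decide +kernel)
               (CovZ.badM (by decide +kernel))
               (CovZ.n1 (27020, -1460) (by decide +kernel)
                (CovZ.n2 (27040, -1460) (by decide +kernel)
                 (CovZ.badM (by decide +kernel))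
                 (CovZ.leaf K2_ok TF_l15564 _))
                (CovZ.badM (by decide +kernel))))
              (CovZ.badM (by decide +kernel))))
            (CovZ.badM (by decide +kernel)))
           (CovZ.n1 (27120, -1520) (by decide +kernel)
            (CovZ.badM (by decide +kernel))
            (CovZ.n1 (27040, -1520) (by decide +kernel)
             (CovZ.n2 (27080, -1480) (by decide +kernel)
              (CovZ.badM (by decide +kernel))
              (CovZ.n1 (27040, -1480) (by decide +kernel)
               (CovZ.leaf K2_ok TF_l15565 _)
               (CovZ.badM (by decide +kernel))))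
             (CovZ.badM (by decide +kernel)))))
          (CovZ.n1 (26880, -1440) (by decide +kernel)
           (CovZ.n2 (26960, -1360) (by decide +kernel)
            (CovZ.n2 (26960, -1440) (by decide +kernel)
             (CovZ.n2 (26920, -1400) (by decide +kernel)
              (CovZ.leaf K2_ok TF_l7495 _)
              (CovZ.leaf K2_ok TF_l7496 _))
             (CovZ.leaf K2_ok TF_l7497 _))
            (CovZ.n1 (26880, -1360) (by decide +kernel)
             (CovZ.leaf K2_ok TF_l7498 _)
             (CovZ.n1 (26920, -1400) (by decide +kernel)
              (CovZ.leaf K2_ok TF_l7499 _)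
              (CovZ.leaf K2_ok TF_l7500 _))))
           (CovZ.n1 (26960, -1520) (by decide +kernel)
            (CovZ.n2 (26880, -1520) (by decide +kernel)
             (CovZ.leaf K2_ok TF_l7501 _)
             (CovZ.n1 (26920, -1560) (by decide +kernel)
              (CovZ.n2 (26880, -1560) (by decide +kernel)
               (CovZ.leaf K2_ok TF_l7502 _)
               (CovZ.badM (by decide +kernel)))
              (CovZ.n1 (26920, -1520) (by decide +kernel)
               (CovZ.badM (by decide +kernel))
               (CovZ.leaf K2_ok TF_l7503 _))))
            (CovZ.n1 (26960, -1440) (by decide +kernel)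
             (CovZ.n2 (27000, -1480) (by decide +kernel)
              (CovZ.n2 (26960, -1480) (by decide +kernel)
               (CovZ.leaf K2_ok TF_l7504 _)
               (CovZ.n1 (26980, -1500) (by decide +kernel)
                (CovZ.leaf K2_ok TF_l15566 _)
                (CovZ.leaf K2_ok TF_l15567 _)))
              (CovZ.n1 (27000, -1440) (by decide +kernel)
               (CovZ.n2 (27020, -1460) (by decide +kernel)
                (CovZ.leaf K2_ok TF_l15568 _)
                (CovZ.leaf K2_ok TF_l15569 _))
               (CovZ.leaf K2_ok TF_l7505 _)))
             (CovZ.n1 (26920, -1480) (by decide +kernel)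
              (CovZ.leaf K2_ok TF_l7506 _)
              (CovZ.n1 (26960, -1480) (by decide +kernel)
               (CovZ.leaf K2_ok TF_l7507 _)
               (CovZ.leaf K2_ok TF_l7508 _)))))))
         (CovZ.badM (by decide +kernel))))
       (CovZ.badM (by decide +kernel)))))

theorem TF_u48 : CovZ TF_M (toL (selN TF_LN 664816821988494453156143003189903360)) [0, 7, 4, 3] (25600, -1920) (25600, -2560) (26240, -1920) :=
    (CovZ.n1 (25920, -2240) (by decide +kernel)
         (CovZ.n2 (25600, -2240) (by decide +kernel)
          (CovZ.n2 (25760, -2080) (by decide +kernel)
           (CovZ.n2 (25760, -2240) (by decide +kernel)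
            (CovZ.n2 (25680, -2160) (by decide +kernel)
             (CovZ.n2 (25760, -2160) (by decide +kernel)
              (CovZ.leaf K2_ok TF_l7534 _)
              (CovZ.leaf K2_ok TF_l7535 _))
             (CovZ.leaf K2_ok TF_l7536 _))
            (CovZ.n1 (25840, -2160) (by decide +kernel)
             (CovZ.n2 (25840, -2240) (by decide +kernel)
              (CovZ.n2 (25800, -2200) (by decide +kernel)
               (CovZ.leaf K2_ok TF_l7537 _)
               (CovZ.leaf K2_ok TF_l7538 _))
              (CovZ.leaf K2_ok TF_l7539 _))
             (CovZ.n1 (25760, -2160) (by decide +kernel)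
              (CovZ.leaf K2_ok TF_l7540 _)
              (CovZ.n1 (25800, -2200) (by decide +kernel)
               (CovZ.leaf K2_ok TF_l7541 _)
               (CovZ.leaf K2_ok TF_l7542 _)))))
           (CovZ.n1 (25600, -2080) (by decide +kernel)
            (CovZ.leaf K2_ok TF_l7543 _)
            (CovZ.n1 (25680, -2160) (by decide +kernel)
             (CovZ.leaf K2_ok TF_l7544 _)
             (CovZ.leaf K2_ok TF_l7545 _))))
          (CovZ.n1 (25760, -2400) (by decide +kernel)
           (CovZ.n2 (25600, -2400) (by decide +kernel)
            (CovZ.n2 (25680, -2320) (by decide +kernel)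
             (CovZ.n2 (25680, -2400) (by decide +kernel)
              (CovZ.n2 (25640, -2360) (by decide +kernel)
               (CovZ.n2 (25680, -2360) (by decide +kernel)
                (CovZ.leaf K2_ok TF_l15570 _)
                (CovZ.leaf K2_ok TF_l15571 _))
               (CovZ.leaf K2_ok TF_l15572 _))
              (CovZ.n1 (25720, -2360) (by decide +kernel)
               (CovZ.n2 (25720, -2400) (by decide +kernel)
                (CovZ.n2 (25700, -2380) (by decide +kernel)
                 (CovZ.leaf K2_ok TF_l15573 _)
                 (CovZ.leaf K2_ok TF_l15574 _))
                (CovZ.leaf K2_ok TF_l15575 _))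
               (CovZ.n1 (25680, -2360) (by decide +kernel)
                (CovZ.leaf K2_ok TF_l15576 _)
                (CovZ.n1 (25700, -2380) (by decide +kernel)
                 (CovZ.leaf K2_ok TF_l15577 _)
                 (CovZ.leaf K2_ok TF_l15578 _)))))
             (CovZ.n1 (25600, -2320) (by decide +kernel)
              (CovZ.leaf K2_ok TF_l7546 _)
              (CovZ.n1 (25640, -2360) (by decide +kernel)
               (CovZ.leaf K2_ok TF_l7547 _)
               (CovZ.leaf K2_ok TF_l7548 _))))
            (CovZ.n1 (25680, -2480) (by decide +kernel)
             (CovZ.n2 (25600, -2480) (by decide +kernel)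
              (CovZ.n2 (25640, -2440) (by decide +kernel)
               (CovZ.badM (by decide +kernel))
               (CovZ.n1 (25600, -2440) (by decide +kernel)
                (CovZ.leaf K2_ok TF_l15579 _)
                (CovZ.n1 (25620, -2460) (by decide +kernel)
                 (CovZ.n2 (25600, -2460) (by decide +kernel)
                  (CovZ.leaf K2_ok TF_l15580 _)
                  (CovZ.badM (by decide +kernel)))
                 (CovZ.n1 (25620, -2440) (by decide +kernel)
                  (CovZ.leaf K2_ok TF_l15581 _)
                  (CovZ.leaf K2_ok TF_l15582 _)))))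
              (CovZ.badM (by decide +kernel)))
             (CovZ.n1 (25680, -2400) (by decide +kernel)
              (CovZ.n2 (25720, -2440) (by decide +kernel)
               (CovZ.n2 (25680, -2440) (by decide +kernel)
                (CovZ.n2 (25700, -2420) (by decide +kernel)
                 (CovZ.badM (by decide +kernel))
                 (CovZ.n1 (25680, -2420) (by decide +kernel)
                  (CovZ.leaf K2_ok TF_l15583 _)
                  (CovZ.badM (by decide +kernel))))
                (CovZ.badM (by decide +kernel)))
               (CovZ.n1 (25720, -2400) (by decide +kernel)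
                (CovZ.badM (by decide +kernel))
                (CovZ.n1 (25700, -2420) (by decide +kernel)
                 (CovZ.n2 (25700, -2400) (by decide +kernel)
                  (CovZ.badM (by decide +kernel))
                  (CovZ.leaf K2_ok TF_l15584 _))
                 (CovZ.badM (by decide +kernel)))))
              (CovZ.n1 (25640, -2440) (by decide +kernel)
               (CovZ.n2 (25640, -2400) (by decide +kernel)
                (CovZ.n2 (25660, -2420) (by decide +kernel)
                 (CovZ.leaf K2_ok TF_l15585 _)
                 (CovZ.leaf K2_ok TF_l15586 _))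
                (CovZ.n1 (25620, -2420) (by decide +kernel)
                 (CovZ.leaf K2_ok TF_l15587 _)
                 (CovZ.leaf K2_ok TF_l15588 _)))
               (CovZ.n1 (25680, -2440) (by decide +kernel)
                (CovZ.badM (by decide +kernel))
                (CovZ.n1 (25660, -2420) (by decide +kernel)
                 (CovZ.n2 (25680, -2420) (by decide +kernel)
                  (CovZ.leaf K2_ok TF_l15589 _)
                  (CovZ.leaf K2_ok TF_l15590 _))
                 (CovZ.leaf K2_ok TF_l15591 _)))))))
           (CovZ.n1 (25760, -2240) (by decide +kernel)
            (CovZ.n2 (25840, -2320) (by decide +kernel)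
             (CovZ.n2 (25760, -2320) (by decide +kernel)
              (CovZ.n2 (25800, -2280) (by decide +kernel)
               (CovZ.n2 (25800, -2320) (by decide +kernel)
                (CovZ.n2 (25780, -2300) (by decide +kernel)
                 (CovZ.leaf K2_ok TF_l15592 _)
                 (CovZ.leaf K2_ok TF_l15593 _))
                (CovZ.leaf K2_ok TF_l15594 _))
               (CovZ.n1 (25760, -2280) (by decide +kernel)
                (CovZ.leaf K2_ok TF_l7549 _)
                (CovZ.n1 (25780, -2300) (by decide +kernel)
                 (CovZ.leaf K2_ok TF_l15595 _)
                 (CovZ.leaf K2_ok TF_l15596 _))))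
              (CovZ.n1 (25800, -2360) (by decide +kernel)
               (CovZ.n2 (25760, -2360) (by decide +kernel)
                (CovZ.leaf K2_ok TF_l15597 _)
                (CovZ.badM (by decide +kernel)))
               (CovZ.n1 (25800, -2320) (by decide +kernel)
                (CovZ.badM (by decide +kernel))
                (CovZ.n1 (25780, -2340) (by decide +kernel)
                 (CovZ.leaf K2_ok TF_l15598 _)
                 (CovZ.badM (by decide +kernel))))))
             (CovZ.n1 (25840, -2240) (by decide +kernel)
              (CovZ.n2 (25880, -2280) (by decide +kernel)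
               (CovZ.n2 (25840, -2280) (by decide +kernel)
                (CovZ.leaf K2_ok TF_l7550 _)
                (CovZ.badM (by decide +kernel)))
               (CovZ.n1 (25880, -2240) (by decide +kernel)
                (CovZ.badM (by decide +kernel))
                (CovZ.leaf K2_ok TF_l7551 _)))
              (CovZ.n1 (25800, -2280) (by decide +kernel)
               (CovZ.leaf K2_ok TF_l7552 _)
               (CovZ.n1 (25840, -2280) (by decide +kernel)
                (CovZ.n2 (25820, -2300) (by decide +kernel)
                 (CovZ.leaf K2_ok TF_l15599 _)
                 (CovZ.badM (by decide +kernel)))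
                (CovZ.leaf K2_ok TF_l7553 _)))))
            (CovZ.n1 (25680, -2320) (by decide +kernel)
             (CovZ.n2 (25680, -2240) (by decide +kernel)
              (CovZ.n2 (25720, -2280) (by decide +kernel)
               (CovZ.leaf K2_ok TF_l7554 _)
               (CovZ.leaf K2_ok TF_l7555 _))
              (CovZ.leaf K2_ok TF_l7556 _))
             (CovZ.n1 (25760, -2320) (by decide +kernel)
              (CovZ.n2 (25720, -2360) (by decide +kernel)
               (CovZ.n2 (25720, -2320) (by decide +kernel)
                (CovZ.n2 (25740, -2340) (by decide +kernel)
                 (CovZ.leaf K2_ok TF_l15600 _)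
                 (CovZ.leaf K2_ok TF_l15601 _))
                (CovZ.leaf K2_ok TF_l15602 _))
               (CovZ.n1 (25760, -2360) (by decide +kernel)
                (CovZ.n2 (25740, -2380) (by decide +kernel)
                 (CovZ.leaf K2_ok TF_l15603 _)
                 (CovZ.badM (by decide +kernel)))
                (CovZ.n1 (25740, -2340) (by decide +kernel)
                 (CovZ.leaf K2_ok TF_l15604 _)
                 (CovZ.leaf K2_ok TF_l15605 _))))
              (CovZ.n1 (25720, -2280) (by decide +kernel)
               (CovZ.n2 (25760, -2280) (by decide +kernel)
                (CovZ.leaf K2_ok TF_l7557 _)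
                (CovZ.leaf K2_ok TF_l7558 _))
               (CovZ.leaf K2_ok TF_l7559 _)))))))
         (CovZ.n1 (25920, -1920) (by decide +kernel)
          (CovZ.n2 (26080, -2080) (by decide +kernel)
           (CovZ.n2 (25920, -2080) (by decide +kernel)
            (CovZ.n2 (26000, -2000) (by decide +kernel)
             (CovZ.n2 (26000, -2080) (by decide +kernel)
              (CovZ.leaf K2_ok TF_l7560 _)
              (CovZ.leaf K2_ok TF_l7561 _))
             (CovZ.n1 (25920, -2000) (by decide +kernel)
              (CovZ.leaf K2_ok TF_l7562 _)
              (CovZ.leaf K2_ok TF_l7563 _)))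
            (CovZ.n1 (26000, -2160) (by decide +kernel)
             (CovZ.n2 (25920, -2160) (by decide +kernel)
              (CovZ.leaf K2_ok TF_l7564 _)
              (CovZ.n1 (25960, -2200) (by decide +kernel)
               (CovZ.n2 (25920, -2200) (by decide +kernel)
                (CovZ.leaf K2_ok TF_l7565 _)
                (CovZ.badM (by decide +kernel)))
               (CovZ.n1 (25960, -2160) (by decide +kernel)
                (CovZ.badM (by decide +kernel))
                (CovZ.leaf K2_ok TF_l7567 _))))
             (CovZ.n1 (26000, -2080) (by decide +kernel)
              (CovZ.n2 (26040, -2120) (by decide +kernel)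
               (CovZ.n2 (26000, -2120) (by decide +kernel)
                (CovZ.leaf K2_ok TF_l7568 _)
                (CovZ.leaf K2_ok TF_l7569 _))
               (CovZ.n1 (26040, -2080) (by decide +kernel)
                (CovZ.leaf K2_ok TF_l7570 _)
                (CovZ.leaf K2_ok TF_l7571 _)))
              (CovZ.n1 (25960, -2120) (by decide +kernel)
               (CovZ.leaf K2_ok TF_l7572 _)
               (CovZ.n1 (26000, -2120) (by decide +kernel)
                (CovZ.leaf K2_ok TF_l7573 _)
                (CovZ.leaf K2_ok TF_l7574 _))))))
           (CovZ.n1 (26080, -1920) (by decide +kernel)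
            (CovZ.n2 (26160, -2000) (by decide +kernel)
             (CovZ.n2 (26080, -2000) (by decide +kernel)
              (CovZ.leaf K2_ok TF_l7575 _)
              (CovZ.n1 (26120, -2040) (by decide +kernel)
               (CovZ.leaf K2_ok TF_l7576 _)
               (CovZ.leaf K2_ok TF_l7577 _)))
             (CovZ.n1 (26160, -1920) (by decide +kernel)
              (CovZ.n2 (26200, -1960) (by decide +kernel)
               (CovZ.leaf K2_ok TF_l7578 _)
               (CovZ.leaf K2_ok TF_l7579 _))
              (CovZ.leaf K2_ok TF_l7580 _)))
            (CovZ.n1 (26000, -2000) (by decide +kernel)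
             (CovZ.n2 (26000, -1920) (by decide +kernel)
              (CovZ.leaf K2_ok TF_l7581 _)
              (CovZ.leaf K2_ok TF_l7582 _))
             (CovZ.n1 (26080, -2000) (by decide +kernel)
              (CovZ.n2 (26040, -2040) (by decide +kernel)
               (CovZ.leaf K2_ok TF_l7583 _)
               (CovZ.leaf K2_ok TF_l7584 _))
              (CovZ.leaf K2_ok TF_l7585 _)))))
          (CovZ.n1 (25760, -2080) (by decide +kernel)
           (CovZ.n2 (25760, -1920) (by decide +kernel)
            (CovZ.n2 (25840, -2000) (by decide +kernel)
             (CovZ.leaf K2_ok TF_l7586 _)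
             (CovZ.leaf K2_ok TF_l7587 _))
            (CovZ.leaf K2_ok TF_l7588 _))
           (CovZ.n1 (25920, -2080) (by decide +kernel)
            (CovZ.n2 (25840, -2160) (by decide +kernel)
             (CovZ.n2 (25840, -2080) (by decide +kernel)
              (CovZ.n2 (25880, -2120) (by decide +kernel)
               (CovZ.leaf K2_ok TF_l7589 _)
               (CovZ.leaf K2_ok TF_l7590 _))
              (CovZ.leaf K2_ok TF_l7591 _))
             (CovZ.n1 (25920, -2160) (by decide +kernel)
              (CovZ.n2 (25880, -2200) (by decide +kernel)
               (CovZ.leaf K2_ok TF_l7592 _)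
               (CovZ.n1 (25920, -2200) (by decide +kernel)
                (CovZ.leaf K2_ok TF_l7593 _)
                (CovZ.leaf K2_ok TF_l7594 _)))
              (CovZ.n1 (25880, -2120) (by decide +kernel)
               (CovZ.leaf K2_ok TF_l7595 _)
               (CovZ.leaf K2_ok TF_l7596 _))))
            (CovZ.n1 (25840, -2000) (by decide +kernel)
             (CovZ.n2 (25920, -2000) (by decide +kernel)
              (CovZ.leaf K2_ok TF_l7597 _)
              (CovZ.leaf K2_ok TF_l7598 _))
             (CovZ.leaf K2_ok TF_l7599 _))))))

theorem TF_u49 : CovZ TF_M (toL (selN TF_LN 664816823226434492441523346808635904)) [0, 7, 4, 3] (25600, -2560) (26880, -1280) (25600, 0) :=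
    (CovZ.n2 (25600, -1280) (by decide +kernel)
     (CovZ.n2 (26240, -640) (by decide +kernel)
      (CovZ.subM 664816821988494453156143003189903360 (by decide +kernel)
       (CovZ.n2 (26240, -1280) (by decide +kernel)
        (CovZ.n2 (25920, -960) (by decide +kernel)
         (CovZ.n2 (26240, -960) (by decide +kernel)
          (CovZ.leaf K2_ok TF_l7509 _)
          (CovZ.leaf K2_ok TF_l7510 _))
         (CovZ.leaf K2_ok TF_l7511 _))
        (CovZ.n1 (26560, -960) (by decide +kernel)
         (CovZ.n2 (26560, -1280) (by decide +kernel)
          (CovZ.n2 (26400, -1120) (by decide +kernel)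
           (CovZ.n2 (26560, -1120) (by decide +kernel)
            (CovZ.leaf K2_ok TF_l7512 _)
            (CovZ.leaf K2_ok TF_l7513 _))
           (CovZ.leaf K2_ok TF_l7514 _))
          (CovZ.leaf K2_ok TF_l7515 _))
         (CovZ.n1 (26240, -960) (by decide +kernel)
          (CovZ.leaf K2_ok TF_l7516 _)
          (CovZ.n1 (26400, -1120) (by decide +kernel)
           (CovZ.leaf K2_ok TF_l7517 _)
           (CovZ.leaf K2_ok TF_l7518 _))))))
      (CovZ.n1 (25600, -640) (by decide +kernel)
       (CovZ.leaf K2_ok TF_l7519 _)
       (CovZ.n1 (25920, -960) (by decide +kernel)
        (CovZ.leaf K2_ok TF_l7520 _)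
        (CovZ.leaf K2_ok TF_l7521 _))))
     (CovZ.subM 664816821988494453156143003189903360 (by decide +kernel)
      (CovZ.n1 (26240, -1920) (by decide +kernel)
       (CovZ.n2 (25600, -1920) (by decide +kernel)
        (CovZ.n2 (25920, -1600) (by decide +kernel)
         (CovZ.n2 (25920, -1920) (by decide +kernel)
          (CovZ.n2 (25760, -1760) (by decide +kernel)
           (CovZ.n2 (25920, -1760) (by decide +kernel)
            (CovZ.leaf K2_ok TF_l7522 _)
            (CovZ.leaf K2_ok TF_l7523 _))
           (CovZ.leaf K2_ok TF_l7524 _))
          (CovZ.n1 (26080, -1760) (by decide +kernel)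
           (CovZ.n2 (26080, -1920) (by decide +kernel)
            (CovZ.n2 (26000, -1840) (by decide +kernel)
             (CovZ.leaf K2_ok TF_l7525 _)
             (CovZ.leaf K2_ok TF_l7526 _))
            (CovZ.leaf K2_ok TF_l7527 _))
           (CovZ.n1 (25920, -1760) (by decide +kernel)
            (CovZ.leaf K2_ok TF_l7528 _)
            (CovZ.n1 (26000, -1840) (by decide +kernel)
             (CovZ.leaf K2_ok TF_l7529 _)
             (CovZ.leaf K2_ok TF_l7530 _)))))
         (CovZ.n1 (25600, -1600) (by decide +kernel)
          (CovZ.leaf K2_ok TF_l7531 _)
          (CovZ.n1 (25760, -1760) (by decide +kernel)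
           (CovZ.leaf K2_ok TF_l7532 _)
           (CovZ.leaf K2_ok TF_l7533 _))))
        TF_u48)
       (CovZ.n1 (26240, -1280) (by decide +kernel)
        (CovZ.n2 (26560, -1600) (by decide +kernel)
         (CovZ.n2 (26240, -1600) (by decide +kernel)
          (CovZ.n2 (26400, -1440) (by decide +kernel)
           (CovZ.n2 (26400, -1600) (by decide +kernel)
            (CovZ.leaf K2_ok TF_l7600 _)
            (CovZ.leaf K2_ok TF_l7601 _))
           (CovZ.n1 (26240, -1440) (by decide +kernel)
            (CovZ.leaf K2_ok TF_l7602 _)
            (CovZ.leaf K2_ok TF_l7603 _)))
          (CovZ.n1 (26400, -1760) (by decide +kernel)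
           (CovZ.n2 (26240, -1760) (by decide +kernel)
            (CovZ.leaf K2_ok TF_l7604 _)
            (CovZ.n1 (26320, -1840) (by decide +kernel)
             (CovZ.n2 (26240, -1840) (by decide +kernel)
              (CovZ.leaf K2_ok TF_l7605 _)
              (CovZ.n1 (26280, -1880) (by decide +kernel)
               (CovZ.leaf K2_ok TF_l7606 _)
               (CovZ.leaf K2_ok TF_l7607 _)))
             (CovZ.n1 (26320, -1760) (by decide +kernel)
              (CovZ.n2 (26360, -1800) (by decide +kernel)
               (CovZ.leaf K2_ok TF_l7608 _)
               (CovZ.leaf K2_ok TF_l7609 _))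
              (CovZ.leaf K2_ok TF_l7610 _))))
           (CovZ.n1 (26400, -1600) (by decide +kernel)
            (CovZ.n2 (26480, -1680) (by decide +kernel)
             (CovZ.n2 (26400, -1680) (by decide +kernel)
              (CovZ.leaf K2_ok TF_l7611 _)
              (CovZ.n1 (26440, -1720) (by decide +kernel)
               (CovZ.leaf K2_ok TF_l7612 _)
               (CovZ.leaf K2_ok TF_l7613 _)))
             (CovZ.n1 (26480, -1600) (by decide +kernel)
              (CovZ.leaf K2_ok TF_l7614 _)
              (CovZ.leaf K2_ok TF_l7615 _)))
            (CovZ.n1 (26320, -1680) (by decide +kernel)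
             (CovZ.leaf K2_ok TF_l7616 _)
             (CovZ.n1 (26400, -1680) (by decide +kernel)
              (CovZ.leaf K2_ok TF_l7617 _)
              (CovZ.leaf K2_ok TF_l7618 _))))))
         (CovZ.n1 (26560, -1280) (by decide +kernel)
          (CovZ.n2 (26720, -1440) (by decide +kernel)
           (CovZ.n2 (26560, -1440) (by decide +kernel)
            (CovZ.leaf K2_ok TF_l7619 _)
            (CovZ.n1 (26640, -1520) (by decide +kernel)
             (CovZ.leaf K2_ok TF_l7620 _)
             (CovZ.leaf K2_ok TF_l7621 _)))
           (CovZ.n1 (26720, -1280) (by decide +kernel)
            (CovZ.n2 (26800, -1360) (by decide +kernel)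
             (CovZ.leaf K2_ok TF_l7622 _)
             (CovZ.leaf K2_ok TF_l7623 _))
            (CovZ.n1 (26640, -1360) (by decide +kernel)
             (CovZ.leaf K2_ok TF_l7624 _)
             (CovZ.leaf K2_ok TF_l7625 _))))
          (CovZ.n1 (26400, -1440) (by decide +kernel)
           (CovZ.n2 (26400, -1280) (by decide +kernel)
            (CovZ.leaf K2_ok TF_l7626 _)
            (CovZ.leaf K2_ok TF_l7627 _))
           (CovZ.n1 (26560, -1440) (by decide +kernel)
            (CovZ.n2 (26480, -1520) (by decide +kernel)
             (CovZ.leaf K2_ok TF_l7628 _)
             (CovZ.leaf K2_ok TF_l7629 _))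
            (CovZ.leaf K2_ok TF_l7630 _)))))
        (CovZ.n1 (25920, -1600) (by decide +kernel)
         (CovZ.n2 (25920, -1280) (by decide +kernel)
          (CovZ.n2 (26080, -1440) (by decide +kernel)
           (CovZ.leaf K2_ok TF_l7631 _)
           (CovZ.leaf K2_ok TF_l7632 _))
          (CovZ.leaf K2_ok TF_l7633 _))
         (CovZ.n1 (26240, -1600) (by decide +kernel)
          (CovZ.n2 (26080, -1760) (by decide +kernel)
           (CovZ.n2 (26080, -1600) (by decide +kernel)
            (CovZ.n2 (26160, -1680) (by decide +kernel)
             (CovZ.leaf K2_ok TF_l7634 _)
             (CovZ.leaf K2_ok TF_l7635 _))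
            (CovZ.leaf K2_ok TF_l7636 _))
           (CovZ.n1 (26240, -1760) (by decide +kernel)
            (CovZ.n2 (26160, -1840) (by decide +kernel)
             (CovZ.leaf K2_ok TF_l7637 _)
             (CovZ.n1 (26240, -1840) (by decide +kernel)
              (CovZ.leaf K2_ok TF_l7638 _)
              (CovZ.leaf K2_ok TF_l7639 _)))
            (CovZ.n1 (26160, -1680) (by decide +kernel)
             (CovZ.leaf K2_ok TF_l7640 _)
             (CovZ.leaf K2_ok TF_l7641 _))))
          (CovZ.n1 (26080, -1440) (by decide +kernel)
           (CovZ.n2 (26240, -1440) (by decide +kernel)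
            (CovZ.leaf K2_ok TF_l7642 _)
            (CovZ.leaf K2_ok TF_l7643 _))
           (CovZ.leaf K2_ok TF_l7644 _))))))))

theorem TF_u50 : CovZ TF_M (toL (selN TF_LN 664816823226434492441523346808635904)) [0, 7, 4, 3] (26880, -1280) (28160, 0) (25600, 0) :=
    (CovZ.n1 (26880, 0) (by decide +kernel)
     (CovZ.subM 664654562711665239792751425179746304 (by decide +kernel)
      (CovZ.n2 (27520, -640) (by decide +kernel)
       (CovZ.n2 (26880, -640) (by decide +kernel)
        (CovZ.n2 (27200, -320) (by decide +kernel)
         (CovZ.n2 (27200, -640) (by decide +kernel)
          (CovZ.n2 (27040, -480) (by decide +kernel)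
           (CovZ.leaf K2_ok TF_l7645 _)
           (CovZ.leaf K2_ok TF_l7646 _))
          (CovZ.leaf K2_ok TF_l7647 _))
         (CovZ.n1 (26880, -320) (by decide +kernel)
          (CovZ.leaf K2_ok TF_l7648 _)
          (CovZ.n1 (27040, -480) (by decide +kernel)
           (CovZ.leaf K2_ok TF_l7649 _)
           (CovZ.leaf K2_ok TF_l7650 _))))
        (CovZ.n1 (27200, -960) (by decide +kernel)
         (CovZ.n2 (26880, -960) (by decide +kernel)
          (CovZ.leaf K2_ok TF_l7651 _)
          (CovZ.n1 (27040, -1120) (by decide +kernel)
           (CovZ.n2 (26880, -1120) (by decide +kernel)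
            (CovZ.leaf K2_ok TF_l7652 _)
            (CovZ.n1 (26960, -1200) (by decide +kernel)
             (CovZ.leaf K2_ok TF_l7653 _)
             (CovZ.leaf K2_ok TF_l7654 _)))
           (CovZ.n1 (27040, -960) (by decide +kernel)
            (CovZ.n2 (27120, -1040) (by decide +kernel)
             (CovZ.leaf K2_ok TF_l7655 _)
             (CovZ.leaf K2_ok TF_l7656 _))
            (CovZ.leaf K2_ok TF_l7657 _))))
         (CovZ.n1 (27200, -640) (by decide +kernel)
          (CovZ.n2 (27360, -800) (by decide +kernel)
           (CovZ.n2 (27200, -800) (by decide +kernel)
            (CovZ.leaf K2_ok TF_l7658 _)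
            (CovZ.n1 (27280, -880) (by decide +kernel)
             (CovZ.leaf K2_ok TF_l7659 _)
             (CovZ.leaf K2_ok TF_l7660 _)))
           (CovZ.n1 (27360, -640) (by decide +kernel)
            (CovZ.n2 (27440, -720) (by decide +kernel)
             (CovZ.leaf K2_ok TF_l7661 _)
             (CovZ.leaf K2_ok TF_l7662 _))
            (CovZ.leaf K2_ok TF_l7663 _)))
          (CovZ.n1 (27040, -800) (by decide +kernel)
           (CovZ.leaf K2_ok TF_l7664 _)
           (CovZ.n1 (27200, -800) (by decide +kernel)
            (CovZ.leaf K2_ok TF_l7665 _)
            (CovZ.leaf K2_ok TF_l7666 _))))))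
       (CovZ.n1 (27520, 0) (by decide +kernel)
        (CovZ.n2 (27840, -320) (by decide +kernel)
         (CovZ.n2 (27520, -320) (by decide +kernel)
          (CovZ.leaf K2_ok TF_l7667 _)
          (CovZ.n1 (27680, -480) (by decide +kernel)
           (CovZ.n2 (27520, -480) (by decide +kernel)
            (CovZ.leaf K2_ok TF_l7668 _)
            (CovZ.n1 (27600, -560) (by decide +kernel)
             (CovZ.leaf K2_ok TF_l7669 _)
             (CovZ.leaf K2_ok TF_l7670 _)))
           (CovZ.n1 (27680, -320) (by decide +kernel)
            (CovZ.n2 (27760, -400) (by decide +kernel)
             (CovZ.leaf K2_ok TF_l7671 _)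
             (CovZ.leaf K2_ok TF_l7672 _))
            (CovZ.leaf K2_ok TF_l7673 _))))
         (CovZ.n1 (27840, 0) (by decide +kernel)
          (CovZ.n2 (28000, -160) (by decide +kernel)
           (CovZ.n2 (27840, -160) (by decide +kernel)
            (CovZ.leaf K2_ok TF_l7674 _)
            (CovZ.n1 (27920, -240) (by decide +kernel)
             (CovZ.leaf K2_ok TF_l7675 _)
             (CovZ.leaf K2_ok TF_l7676 _)))
           (CovZ.n1 (28000, 0) (by decide +kernel)
            (CovZ.n2 (28080, -80) (by decide +kernel)
             (CovZ.leaf K2_ok TF_l7677 _)
             (CovZ.leaf K2_ok TF_l7678 _))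
            (CovZ.leaf K2_ok TF_l7679 _)))
          (CovZ.n1 (27680, -160) (by decide +kernel)
           (CovZ.leaf K2_ok TF_l7680 _)
           (CovZ.n1 (27840, -160) (by decide +kernel)
            (CovZ.leaf K2_ok TF_l7681 _)
            (CovZ.leaf K2_ok TF_l7682 _)))))
        (CovZ.n1 (27200, -320) (by decide +kernel)
         (CovZ.n2 (27200, 0) (by decide +kernel)
          (CovZ.n2 (27360, -160) (by decide +kernel)
           (CovZ.leaf K2_ok TF_l7683 _)
           (CovZ.leaf K2_ok TF_l7684 _))
          (CovZ.leaf K2_ok TF_l7685 _))
         (CovZ.n1 (27520, -320) (by decide +kernel)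
          (CovZ.n2 (27360, -480) (by decide +kernel)
           (CovZ.leaf K2_ok TF_l7686 _)
           (CovZ.n1 (27520, -480) (by decide +kernel)
            (CovZ.leaf K2_ok TF_l7687 _)
            (CovZ.leaf K2_ok TF_l7688 _)))
          (CovZ.n1 (27360, -160) (by decide +kernel)
           (CovZ.leaf K2_ok TF_l7689 _)
           (CovZ.leaf K2_ok TF_l7690 _)))))))
     (CovZ.n1 (26240, -640) (by decide +kernel)
      (CovZ.n2 (26240, 0) (by decide +kernel)
       (CovZ.n2 (26560, -320) (by decide +kernel)
        (CovZ.leaf K2_ok TF_l7691 _)
        (CovZ.leaf K2_ok TF_l7692 _))
       (CovZ.n1 (25920, -320) (by decide +kernel)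
        (CovZ.leaf K2_ok TF_l7693 _)
        (CovZ.leaf K2_ok TF_l7694 _)))
      (CovZ.subM 664654562711665239792751425179746304 (by decide +kernel)
       (CovZ.n1 (26880, -640) (by decide +kernel)
        (CovZ.n2 (26560, -960) (by decide +kernel)
         (CovZ.n2 (26560, -640) (by decide +kernel)
          (CovZ.n2 (26720, -800) (by decide +kernel)
           (CovZ.leaf K2_ok TF_l7695 _)
           (CovZ.leaf K2_ok TF_l7696 _))
          (CovZ.leaf K2_ok TF_l7697 _))
         (CovZ.n1 (26880, -960) (by decide +kernel)
          (CovZ.n2 (26720, -1120) (by decide +kernel)
           (CovZ.n2 (26720, -960) (by decide +kernel)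
            (CovZ.leaf K2_ok TF_l7698 _)
            (CovZ.leaf K2_ok TF_l7699 _))
           (CovZ.n1 (26880, -1120) (by decide +kernel)
            (CovZ.leaf K2_ok TF_l7700 _)
            (CovZ.leaf K2_ok TF_l7701 _)))
          (CovZ.n1 (26720, -800) (by decide +kernel)
           (CovZ.leaf K2_ok TF_l7702 _)
           (CovZ.leaf K2_ok TF_l7703 _))))
        (CovZ.n1 (26560, -320) (by decide +kernel)
         (CovZ.n2 (26880, -320) (by decide +kernel)
          (CovZ.leaf K2_ok TF_l7704 _)
          (CovZ.leaf K2_ok TF_l7705 _))
         (CovZ.leaf K2_ok TF_l7706 _))))))

theorem TF_u51 : CovZ TF_M (toL (selN TF_LN 2787593315969827377291412512751427168507521)) [0, 7, 4, 3] (-640, 1280) (-640, 960) (-320, 960) :=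
    (CovZ.n2 (-480, 1120) (by decide +kernel)
           (CovZ.n2 (-480, 960) (by decide +kernel)
            (CovZ.subM 2787593149816327894505519534762602692345984 (by decide +kernel)
             (CovZ.n2 (-560, 1040) (by decide +kernel)
              (CovZ.n2 (-480, 1040) (by decide +kernel)
               (CovZ.subM 2787593149816327893296575267840949452013568 (by decide +kernel)
                (CovZ.n2 (-520, 1000) (by decide +kernel)
                 (CovZ.badM (by decide +kernel))
                 (CovZ.n1 (-480, 1000) (by decide +kernel)
                  (CovZ.n2 (-500, 980) (by decide +kernel)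
                   (CovZ.n2 (-500, 1000) (by decide +kernel)
                    (CovZ.leaf K2_ok TF_l10075 _)
                    (CovZ.badM (by decide +kernel)))
                   (CovZ.leaf K2_ok TF_l10076 _))
                  (CovZ.n1 (-500, 1020) (by decide +kernel)
                   (CovZ.n2 (-480, 1020) (by decide +kernel)
                    (CovZ.leaf K2_ok TF_l10077 _)
                    (CovZ.badM (by decide +kernel)))
                   (CovZ.leaf K2_ok TF_l10078 _)))))
               (CovZ.n1 (-520, 1080) (by decide +kernel)
                (CovZ.n2 (-480, 1080) (by decide +kernel)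
                 (CovZ.subM 18447307023662972928 (by decide +kernel)
                  (CovZ.n2 (-500, 1060) (by decide +kernel)
                   (CovZ.n2 (-500, 1080) (by decide +kernel)
                    (CovZ.leaf K2_ok TF_l10079 _)
                    (CovZ.badM (by decide +kernel)))
                   (CovZ.n1 (-480, 1060) (by decide +kernel)
                    (CovZ.badM (by decide +kernel))
                    (CovZ.leaf K2_ok TF_l10080 _))))
                 (CovZ.n1 (-500, 1100) (by decide +kernel)
                  (CovZ.n2 (-480, 1100) (by decide +kernel)
                   (CovZ.leaf K2_ok TF_l10081 _)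
                   (CovZ.leaf K2_ok TF_l10082 _))
                  (CovZ.n1 (-500, 1080) (by decide +kernel)
                   (CovZ.badM (by decide +kernel))
                   (CovZ.leaf K2_ok TF_l10083 _))))
                (CovZ.badM (by decide +kernel))))
              (CovZ.subM 604610483759904263766016 (by decide +kernel)
               (CovZ.n1 (-560, 960) (by decide +kernel)
                (CovZ.badM (by decide +kernel))
                (CovZ.n1 (-520, 1000) (by decide +kernel)
                 (CovZ.n2 (-520, 960) (by decide +kernel)
                  (CovZ.badM (by decide +kernel))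
                  (CovZ.n1 (-500, 980) (by decide +kernel)
                   (CovZ.leaf K2_ok TF_l10084 _)
                   (CovZ.badM (by decide +kernel))))
                 (CovZ.badM (by decide +kernel)))))))
            (CovZ.n1 (-400, 1040) (by decide +kernel)
             (CovZ.n2 (-400, 960) (by decide +kernel)
              (CovZ.subM 2787593149816327904176926093931435903942784 (by decide +kernel)
               (CovZ.n2 (-440, 1000) (by decide +kernel)
                (CovZ.n2 (-400, 1000) (by decide +kernel)
                 (CovZ.leaf K2_ok TF_l10085 _)
                 (CovZ.leaf K2_ok TF_l10086 _))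
                (CovZ.n1 (-440, 960) (by decide +kernel)
                 (CovZ.n2 (-460, 980) (by decide +kernel)
                  (CovZ.leaf K2_ok TF_l10087 _)
                  (CovZ.leaf K2_ok TF_l10088 _))
                 (CovZ.leaf K2_ok TF_l10089 _))))
              (CovZ.leaf K2_ok TF_l1095 _))
             (CovZ.subM 2787593149816327904176926093931435903942784 (by decide +kernel)
              (CovZ.n1 (-480, 1040) (by decide +kernel)
               (CovZ.n2 (-440, 1080) (by decide +kernel)
                (CovZ.n2 (-440, 1040) (by decide +kernel)
                 (CovZ.n2 (-460, 1060) (by decide +kernel)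
                  (CovZ.leaf K2_ok TF_l10090 _)
                  (CovZ.leaf K2_ok TF_l10091 _))
                 (CovZ.leaf K2_ok TF_l10092 _))
                (CovZ.n1 (-480, 1080) (by decide +kernel)
                 (CovZ.leaf K2_ok TF_l10093 _)
                 (CovZ.n1 (-460, 1060) (by decide +kernel)
                  (CovZ.leaf K2_ok TF_l10094 _)
                  (CovZ.leaf K2_ok TF_l10095 _))))
               (CovZ.n1 (-440, 1000) (by decide +kernel)
                (CovZ.n2 (-480, 1000) (by decide +kernel)
                 (CovZ.leaf K2_ok TF_l10096 _)
                 (CovZ.n1 (-460, 980) (by decide +kernel)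
                  (CovZ.leaf K2_ok TF_l10097 _)
                  (CovZ.leaf K2_ok TF_l10098 _)))
                (CovZ.n1 (-440, 1040) (by decide +kernel)
                 (CovZ.leaf K2_ok TF_l10099 _)
                 (CovZ.n1 (-460, 1020) (by decide +kernel)
                  (CovZ.leaf K2_ok TF_l10100 _)
                  (CovZ.leaf K2_ok TF_l10101 _))))))))
           (CovZ.subM 2787593149816327893900909051002698428579968 (by decide +kernel)
            (CovZ.n1 (-640, 1120) (by decide +kernel)
             (CovZ.n2 (-560, 1200) (by decide +kernel)
              (CovZ.n2 (-560, 1120) (by decide +kernel)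
               (CovZ.badM (by decide +kernel))
               (CovZ.n1 (-520, 1160) (by decide +kernel)
                (CovZ.n2 (-520, 1120) (by decide +kernel)
                 (CovZ.badM (by decide +kernel))
                 (CovZ.n1 (-500, 1140) (by decide +kernel)
                  (CovZ.n2 (-500, 1120) (by decide +kernel)
                   (CovZ.badM (by decide +kernel))
                   (CovZ.leaf K2_ok TF_l10102 _))
                  (CovZ.badM (by decide +kernel))))
                (CovZ.badM (by decide +kernel))))
              (CovZ.badM (by decide +kernel)))
             (CovZ.n1 (-560, 1040) (by decide +kernel)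
              (CovZ.n2 (-640, 1040) (by decide +kernel)
               (CovZ.badM (by decide +kernel))
               (CovZ.badM (by decide +kernel)))
              (CovZ.n1 (-560, 1120) (by decide +kernel)
               (CovZ.n2 (-520, 1080) (by decide +kernel)
                (CovZ.badM (by decide +kernel))
                (CovZ.n1 (-520, 1120) (by decide +kernel)
                 (CovZ.n2 (-500, 1100) (by decide +kernel)
                  (CovZ.badM (by decide +kernel))
                  (CovZ.n1 (-500, 1120) (by decide +kernel)
                   (CovZ.leaf K2_ok TF_l10103 _)
                   (CovZ.badM (by decide +kernel))))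
                 (CovZ.badM (by decide +kernel))))
               (CovZ.badM (by decide +kernel)))))))

theorem TF_u52 : CovZ TF_M (toL (selN TF_LN 2787593315969827377291412512751427168507521)) [0, 7, 4, 3] (-640, 960) (-640, 640) (-320, 960) :=
    (CovZ.n1 (-480, 800) (by decide +kernel)
           (CovZ.subM 166153499473719094598987586616950784 (by decide +kernel)
            (CovZ.n2 (-640, 800) (by decide +kernel)
             (CovZ.n2 (-560, 880) (by decide +kernel)
              (CovZ.n2 (-560, 800) (by decide +kernel)
               (CovZ.subM 604610486011704077451264 (by decide +kernel)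
                (CovZ.n2 (-600, 840) (by decide +kernel)
                 (CovZ.n2 (-560, 840) (by decide +kernel)
                  (CovZ.n2 (-580, 820) (by decide +kernel)
                   (CovZ.n2 (-580, 840) (by decide +kernel)
                    (CovZ.leaf K2_ok TF_l10104 _)
                    (CovZ.leaf K2_ok TF_l10105 _))
                   (CovZ.leaf K2_ok TF_l10106 _))
                  (CovZ.n1 (-580, 860) (by decide +kernel)
                   (CovZ.n2 (-560, 860) (by decide +kernel)
                    (CovZ.leaf K2_ok TF_l10107 _)
                    (CovZ.leaf K2_ok TF_l10108 _))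
                   (CovZ.leaf K2_ok TF_l10109 _)))
                 (CovZ.n1 (-600, 800) (by decide +kernel)
                  (CovZ.badM (by decide +kernel))
                  (CovZ.n1 (-580, 820) (by decide +kernel)
                   (CovZ.leaf K2_ok TF_l10110 _)
                   (CovZ.leaf K2_ok TF_l10111 _)))))
               (CovZ.n1 (-520, 840) (by decide +kernel)
                (CovZ.n2 (-520, 800) (by decide +kernel)
                 (CovZ.n2 (-540, 820) (by decide +kernel)
                  (CovZ.leaf K2_ok TF_l10112 _)
                  (CovZ.leaf K2_ok TF_l10113 _))
                 (CovZ.leaf K2_ok TF_l10114 _))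
                (CovZ.n1 (-560, 840) (by decide +kernel)
                 (CovZ.leaf K2_ok TF_l10115 _)
                 (CovZ.n1 (-540, 820) (by decide +kernel)
                  (CovZ.leaf K2_ok TF_l10116 _)
                  (CovZ.n1 (-540, 840) (by decide +kernel)
                   (CovZ.leaf K2_ok TF_l10117 _)
                   (CovZ.leaf K2_ok TF_l10118 _))))))
              (CovZ.badM (by decide +kernel)))
             (CovZ.n1 (-560, 720) (by decide +kernel)
              (CovZ.n2 (-640, 720) (by decide +kernel)
               (CovZ.n2 (-600, 760) (by decide +kernel)
                (CovZ.n2 (-600, 720) (by decide +kernel)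
                 (CovZ.n2 (-620, 740) (by decide +kernel)
                  (CovZ.leaf K2_ok TF_l10119 _)
                  (CovZ.leaf K2_ok TF_l10120 _))
                 (CovZ.leaf K2_ok TF_l10121 _))
                (CovZ.subM 166153499473718947025034996936081408 (by decide +kernel)
                 (CovZ.n1 (-640, 760) (by decide +kernel)
                  (CovZ.n2 (-620, 780) (by decide +kernel)
                   (CovZ.leaf K2_ok TF_l10122 _)
                   (CovZ.n1 (-640, 780) (by decide +kernel)
                    (CovZ.badM (by decide +kernel))
                    (CovZ.leaf K2_ok TF_l10123 _)))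
                  (CovZ.n1 (-620, 740) (by decide +kernel)
                   (CovZ.n2 (-640, 740) (by decide +kernel)
                    (CovZ.leaf K2_ok TF_l10124 _)
                    (CovZ.leaf K2_ok TF_l10125 _))
                   (CovZ.n1 (-620, 760) (by decide +kernel)
                    (CovZ.leaf K2_ok TF_l10126 _)
                    (CovZ.leaf K2_ok TF_l10127 _))))))
               (CovZ.n1 (-600, 680) (by decide +kernel)
                (CovZ.n2 (-640, 680) (by decide +kernel)
                 (CovZ.n2 (-620, 700) (by decide +kernel)
                  (CovZ.leaf K2_ok TF_l10128 _)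
                  (CovZ.leaf K2_ok TF_l10129 _))
                 (CovZ.n1 (-620, 660) (by decide +kernel)
                  (CovZ.leaf K2_ok TF_l10130 _)
                  (CovZ.leaf K2_ok TF_l10131 _)))
                (CovZ.n1 (-600, 720) (by decide +kernel)
                 (CovZ.leaf K2_ok TF_l10132 _)
                 (CovZ.n1 (-620, 700) (by decide +kernel)
                  (CovZ.leaf K2_ok TF_l10133 _)
                  (CovZ.leaf K2_ok TF_l10134 _)))))
              (CovZ.n1 (-560, 800) (by decide +kernel)
               (CovZ.n2 (-520, 760) (by decide +kernel)
                (CovZ.n2 (-560, 760) (by decide +kernel)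
                 (CovZ.leaf K2_ok TF_l10135 _)
                 (CovZ.n1 (-540, 740) (by decide +kernel)
                  (CovZ.leaf K2_ok TF_l10136 _)
                  (CovZ.leaf K2_ok TF_l10137 _)))
                (CovZ.n1 (-520, 800) (by decide +kernel)
                 (CovZ.leaf K2_ok TF_l10138 _)
                 (CovZ.leaf K2_ok TF_l10139 _)))
               (CovZ.n1 (-600, 760) (by decide +kernel)
                (CovZ.n2 (-600, 800) (by decide +kernel)
                 (CovZ.n2 (-580, 780) (by decide +kernel)
                  (CovZ.leaf K2_ok TF_l10140 _)
                  (CovZ.n1 (-580, 800) (by decide +kernel)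
                   (CovZ.leaf K2_ok TF_l10141 _)
                   (CovZ.leaf K2_ok TF_l10142 _)))
                 (CovZ.n1 (-620, 780) (by decide +kernel)
                  (CovZ.badM (by decide +kernel))
                  (CovZ.leaf K2_ok TF_l10143 _)))
                (CovZ.n1 (-560, 760) (by decide +kernel)
                 (CovZ.n2 (-580, 740) (by decide +kernel)
                  (CovZ.leaf K2_ok TF_l10144 _)
                  (CovZ.leaf K2_ok TF_l10145 _))
                 (CovZ.n1 (-580, 780) (by decide +kernel)
                  (CovZ.leaf K2_ok TF_l10146 _)
                  (CovZ.leaf K2_ok TF_l10147 _))))))))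
           (CovZ.n1 (-480, 960) (by decide +kernel)
            (CovZ.n2 (-400, 880) (by decide +kernel)
             (CovZ.subM 10276037796078770356224640 (by decide +kernel)
              (CovZ.n2 (-480, 880) (by decide +kernel)
               (CovZ.leaf K2_ok TF_l1096 _)
               (CovZ.n1 (-440, 840) (by decide +kernel)
                (CovZ.leaf K2_ok TF_l1097 _)
                (CovZ.n1 (-440, 880) (by decide +kernel)
                 (CovZ.leaf K2_ok TF_l1098 _)
                 (CovZ.leaf K2_ok TF_l1099 _)))))
             (CovZ.n1 (-400, 960) (by decide +kernel)
              (CovZ.n2 (-360, 920) (by decide +kernel)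
               (CovZ.leaf K2_ok TF_l1100 _)
               (CovZ.leaf K2_ok TF_l1101 _))
              (CovZ.subM 10276037796078770356224640 (by decide +kernel)
               (CovZ.n1 (-440, 920) (by decide +kernel)
                (CovZ.n2 (-440, 960) (by decide +kernel)
                 (CovZ.leaf K2_ok TF_l10148 _)
                 (CovZ.leaf K2_ok TF_l10149 _))
                (CovZ.n1 (-400, 920) (by decide +kernel)
                 (CovZ.leaf K2_ok TF_l1102 _)
                 (CovZ.leaf K2_ok TF_l10150 _))))))
            (CovZ.subM 604610486011704081908224 (by decide +kernel)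
             (CovZ.n1 (-560, 880) (by decide +kernel)
              (CovZ.n2 (-560, 960) (by decide +kernel)
               (CovZ.n2 (-520, 920) (by decide +kernel)
                (CovZ.subM 604462909807314591547392 (by decide +kernel)
                 (CovZ.n2 (-560, 920) (by decide +kernel)
                  (CovZ.n2 (-540, 940) (by decide +kernel)
                   (CovZ.n2 (-540, 920) (by decide +kernel)
                    (CovZ.badM (by decide +kernel))
                    (CovZ.leaf K2_ok TF_l10151 _))
                   (CovZ.badM (by decide +kernel)))
                  (CovZ.n1 (-540, 900) (by decide +kernel)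
                   (CovZ.n2 (-560, 900) (by decide +kernel)
                    (CovZ.leaf K2_ok TF_l10152 _)
                    (CovZ.leaf K2_ok TF_l10153 _))
                   (CovZ.n1 (-540, 920) (by decide +kernel)
                    (CovZ.leaf K2_ok TF_l10154 _)
                    (CovZ.leaf K2_ok TF_l10155 _)))))
                (CovZ.subM 604610483759904263766528 (by decide +kernel)
                 (CovZ.n1 (-520, 960) (by decide +kernel)
                  (CovZ.n2 (-500, 940) (by decide +kernel)
                   (CovZ.leaf K2_ok TF_l10156 _)
                   (CovZ.leaf K2_ok TF_l10157 _))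
                  (CovZ.n1 (-540, 940) (by decide +kernel)
                   (CovZ.badM (by decide +kernel))
                   (CovZ.n1 (-520, 940) (by decide +kernel)
                    (CovZ.leaf K2_ok TF_l10158 _)
                    (CovZ.badM (by decide +kernel)))))))
               (CovZ.badM (by decide +kernel)))
              (CovZ.n1 (-480, 880) (by decide +kernel)
               (CovZ.n2 (-520, 840) (by decide +kernel)
                (CovZ.n2 (-520, 880) (by decide +kernel)
                 (CovZ.leaf K2_ok TF_l10159 _)
                 (CovZ.n1 (-540, 860) (by decide +kernel)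
                  (CovZ.n2 (-540, 880) (by decide +kernel)
                   (CovZ.leaf K2_ok TF_l10160 _)
                   (CovZ.leaf K2_ok TF_l10161 _))
                  (CovZ.leaf K2_ok TF_l10162 _)))
                (CovZ.n1 (-480, 840) (by decide +kernel)
                 (CovZ.leaf K2_ok TF_l10163 _)
                 (CovZ.leaf K2_ok TF_l10164 _)))
               (CovZ.n1 (-520, 920) (by decide +kernel)
                (CovZ.n2 (-480, 920) (by decide +kernel)
                 (CovZ.n2 (-500, 900) (by decide +kernel)
                  (CovZ.leaf K2_ok TF_l10165 _)
                  (CovZ.leaf K2_ok TF_l10166 _))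
                 (CovZ.n1 (-500, 940) (by decide +kernel)
                  (CovZ.leaf K2_ok TF_l10167 _)
                  (CovZ.leaf K2_ok TF_l10168 _)))
                (CovZ.n1 (-520, 880) (by decide +kernel)
                 (CovZ.n2 (-540, 900) (by decide +kernel)
                  (CovZ.leaf K2_ok TF_l10169 _)
                  (CovZ.n1 (-540, 880) (by decide +kernel)
                   (CovZ.leaf K2_ok TF_l10170 _)
                   (CovZ.leaf K2_ok TF_l10171 _)))
                 (CovZ.leaf K2_ok TF_l10172 _))))))))

theorem TF_u53 : CovZ TF_M (toL (selN TF_LN 1095617005130139787416616976836815771236832981)) [0, 7, 4, 3] (-1280, 1280) (-640, 640) (0, 1280) :=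
    (CovZ.subM 2787593315969827377291412512751427168507521 (by decide +kernel)
       (CovZ.n2 (-640, 1280) (by decide +kernel)
        (CovZ.n2 (-320, 960) (by decide +kernel)
         (CovZ.n2 (-640, 960) (by decide +kernel)
          TF_u51
          TF_u52)
         (CovZ.n1 (-320, 1280) (by decide +kernel)
          (CovZ.n2 (-160, 1120) (by decide +kernel)
           (CovZ.n2 (-320, 1120) (by decide +kernel)
            (CovZ.leaf K2_ok TF_l1103 _)
            (CovZ.n1 (-240, 1040) (by decide +kernel)
             (CovZ.leaf K2_ok TF_l1104 _)
             (CovZ.leaf K2_ok TF_l1105 _)))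
           (CovZ.n1 (-160, 1280) (by decide +kernel)
            (CovZ.leaf K2_ok TF_l1106 _)
            (CovZ.n1 (-240, 1200) (by decide +kernel)
             (CovZ.leaf K2_ok TF_l1107 _)
             (CovZ.leaf K2_ok TF_l1108 _))))
          (CovZ.subM 11484961309850390715699328 (by decide +kernel)
           (CovZ.n1 (-480, 1120) (by decide +kernel)
            (CovZ.n2 (-480, 1280) (by decide +kernel)
             (CovZ.n2 (-400, 1200) (by decide +kernel)
              (CovZ.subM 1208944266921653240594560 (by decide +kernel)
               (CovZ.n2 (-480, 1200) (by decide +kernel)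
                (CovZ.leaf K2_ok TF_l1109 _)
                (CovZ.n1 (-440, 1160) (by decide +kernel)
                 (CovZ.n2 (-480, 1160) (by decide +kernel)
                  (CovZ.leaf K2_ok TF_l10173 _)
                  (CovZ.leaf K2_ok TF_l10174 _))
                 (CovZ.n1 (-440, 1200) (by decide +kernel)
                  (CovZ.leaf K2_ok TF_l1110 _)
                  (CovZ.leaf K2_ok TF_l10175 _)))))
              (CovZ.n1 (-400, 1280) (by decide +kernel)
               (CovZ.leaf K2_ok TF_l1111 _)
               (CovZ.n1 (-440, 1240) (by decide +kernel)
                (CovZ.n2 (-440, 1280) (by decide +kernel)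
                 (CovZ.leaf K2_ok TF_l1112 _)
                 (CovZ.leaf K2_ok TF_l10176 _))
                (CovZ.leaf K2_ok TF_l1113 _))))
             (CovZ.subM 1208944266921653240332416 (by decide +kernel)
              (CovZ.n1 (-560, 1200) (by decide +kernel)
               (CovZ.n2 (-560, 1280) (by decide +kernel)
                (CovZ.n2 (-520, 1240) (by decide +kernel)
                 (CovZ.badM (by decide +kernel))
                 (CovZ.n1 (-520, 1280) (by decide +kernel)
                  (CovZ.n2 (-500, 1260) (by decide +kernel)
                   (CovZ.leaf K2_ok TF_l10177 _)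
                   (CovZ.leaf K2_ok TF_l10178 _))
                  (CovZ.badM (by decide +kernel))))
                (CovZ.badM (by decide +kernel)))
               (CovZ.n1 (-480, 1200) (by decide +kernel)
                (CovZ.n2 (-520, 1160) (by decide +kernel)
                 (CovZ.n2 (-520, 1200) (by decide +kernel)
                  (CovZ.n2 (-500, 1180) (by decide +kernel)
                   (CovZ.n2 (-520, 1180) (by decide +kernel)
                    (CovZ.leaf K2_ok TF_l10179 _)
                    (CovZ.leaf K2_ok TF_l10180 _))
                   (CovZ.n1 (-500, 1200) (by decide +kernel)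
                    (CovZ.leaf K2_ok TF_l10181 _)
                    (CovZ.leaf K2_ok TF_l10182 _)))
                  (CovZ.badM (by decide +kernel)))
                 (CovZ.n1 (-480, 1160) (by decide +kernel)
                  (CovZ.n2 (-500, 1140) (by decide +kernel)
                   (CovZ.n2 (-500, 1160) (by decide +kernel)
                    (CovZ.leaf K2_ok TF_l10183 _)
                    (CovZ.leaf K2_ok TF_l10184 _))
                   (CovZ.leaf K2_ok TF_l10185 _))
                  (CovZ.n1 (-500, 1180) (by decide +kernel)
                   (CovZ.leaf K2_ok TF_l10186 _)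
                   (CovZ.leaf K2_ok TF_l10187 _))))
                (CovZ.n1 (-520, 1240) (by decide +kernel)
                 (CovZ.n2 (-480, 1240) (by decide +kernel)
                  (CovZ.n2 (-500, 1220) (by decide +kernel)
                   (CovZ.leaf K2_ok TF_l10188 _)
                   (CovZ.leaf K2_ok TF_l10189 _))
                  (CovZ.n1 (-500, 1260) (by decide +kernel)
                   (CovZ.leaf K2_ok TF_l10190 _)
                   (CovZ.leaf K2_ok TF_l10191 _)))
                 (CovZ.n1 (-520, 1200) (by decide +kernel)
                  (CovZ.badM (by decide +kernel))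
                  (CovZ.leaf K2_ok TF_l10192 _)))))))
            (CovZ.n1 (-320, 1120) (by decide +kernel)
             (CovZ.n2 (-400, 1040) (by decide +kernel)
              (CovZ.n2 (-400, 1120) (by decide +kernel)
               (CovZ.leaf K2_ok TF_l1114 _)
               (CovZ.n1 (-440, 1080) (by decide +kernel)
                (CovZ.n2 (-440, 1120) (by decide +kernel)
                 (CovZ.leaf K2_ok TF_l10193 _)
                 (CovZ.n1 (-460, 1100) (by decide +kernel)
                  (CovZ.leaf K2_ok TF_l10194 _)
                  (CovZ.leaf K2_ok TF_l10195 _)))
                (CovZ.n1 (-400, 1080) (by decide +kernel)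
                 (CovZ.leaf K2_ok TF_l10196 _)
                 (CovZ.leaf K2_ok TF_l10197 _))))
              (CovZ.n1 (-320, 1040) (by decide +kernel)
               (CovZ.n2 (-360, 1000) (by decide +kernel)
                (CovZ.leaf K2_ok TF_l1115 _)
                (CovZ.leaf K2_ok TF_l1116 _))
               (CovZ.leaf K2_ok TF_l1117 _)))
             (CovZ.n1 (-400, 1200) (by decide +kernel)
              (CovZ.n2 (-320, 1200) (by decide +kernel)
               (CovZ.leaf K2_ok TF_l1118 _)
               (CovZ.leaf K2_ok TF_l1119 _))
              (CovZ.n1 (-400, 1120) (by decide +kernel)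
               (CovZ.n2 (-440, 1160) (by decide +kernel)
                (CovZ.leaf K2_ok TF_l1120 _)
                (CovZ.n1 (-440, 1120) (by decide +kernel)
                 (CovZ.leaf K2_ok TF_l10198 _)
                 (CovZ.leaf K2_ok TF_l10199 _)))
               (CovZ.leaf K2_ok TF_l1121 _))))))))
        (CovZ.subM 2787593149816327892691964784081045188248064 (by decide +kernel)
         (CovZ.n1 (-960, 960) (by decide +kernel)
          (CovZ.n2 (-960, 1280) (by decide +kernel)
           (CovZ.n2 (-800, 1120) (by decide +kernel)
            (CovZ.n2 (-960, 1120) (by decide +kernel)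
             (CovZ.n2 (-880, 1200) (by decide +kernel)
              (CovZ.badM (by decide +kernel))
              (CovZ.n1 (-960, 1200) (by decide +kernel)
               (CovZ.badM (by decide +kernel))
               (CovZ.badM (by decide +kernel))))
             (CovZ.badM (by decide +kernel)))
            (CovZ.badM (by decide +kernel)))
           (CovZ.n1 (-1120, 1120) (by decide +kernel)
            (CovZ.n2 (-1120, 1280) (by decide +kernel)
             (CovZ.n2 (-1040, 1200) (by decide +kernel)
              (CovZ.badM (by decide +kernel))
              (CovZ.badM (by decide +kernel)))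
             (CovZ.badM (by decide +kernel)))
            (CovZ.n1 (-960, 1120) (by decide +kernel)
             (CovZ.badM (by decide +kernel))
             (CovZ.n1 (-1040, 1200) (by decide +kernel)
              (CovZ.n2 (-960, 1200) (by decide +kernel)
               (CovZ.badM (by decide +kernel))
               (CovZ.badM (by decide +kernel)))
              (CovZ.badM (by decide +kernel))))))
          (CovZ.n1 (-640, 960) (by decide +kernel)
           (CovZ.badM (by decide +kernel))
           (CovZ.n1 (-800, 1120) (by decide +kernel)
            (CovZ.n2 (-640, 1120) (by decide +kernel)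
             (CovZ.n2 (-720, 1040) (by decide +kernel)
              (CovZ.n2 (-720, 1120) (by decide +kernel)
               (CovZ.n2 (-680, 1080) (by decide +kernel)
                (CovZ.badM (by decide +kernel))
                (CovZ.badM (by decide +kernel)))
               (CovZ.badM (by decide +kernel)))
              (CovZ.n1 (-640, 1040) (by decide +kernel)
               (CovZ.badM (by decide +kernel))
               (CovZ.n1 (-680, 1080) (by decide +kernel)
                (CovZ.badM (by decide +kernel))
                (CovZ.badM (by decide +kernel)))))
             (CovZ.badM (by decide +kernel)))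
            (CovZ.badM (by decide +kernel))))))))

theorem TF_u54 : CovZ TF_M (toL (selN TF_LN 1095617005130139787416616976836815771236832981)) [0, 7, 4, 3] (-640, 640) (0, 0) (0, 1280) :=
    (CovZ.n1 (0, 640) (by decide +kernel)
       (CovZ.subM 166153499484618338924018236691583108 (by decide +kernel)
        (CovZ.n2 (-320, 320) (by decide +kernel)
         (CovZ.n2 (-320, 640) (by decide +kernel)
          (CovZ.n2 (-160, 480) (by decide +kernel)
           (CovZ.n2 (-320, 480) (by decide +kernel)
            (CovZ.leaf K2_ok TF_l1122 _)
            (CovZ.n1 (-240, 400) (by decide +kernel)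
             (CovZ.leaf K2_ok TF_l1123 _)
             (CovZ.leaf K2_ok TF_l1124 _)))
           (CovZ.n1 (-160, 640) (by decide +kernel)
            (CovZ.leaf K2_ok TF_l1125 _)
            (CovZ.n1 (-240, 560) (by decide +kernel)
             (CovZ.leaf K2_ok TF_l1126 _)
             (CovZ.leaf K2_ok TF_l1127 _))))
          (CovZ.n1 (-480, 480) (by decide +kernel)
           (CovZ.n2 (-480, 640) (by decide +kernel)
            (CovZ.n2 (-400, 560) (by decide +kernel)
             (CovZ.leaf K2_ok TF_l1128 _)
             (CovZ.n1 (-400, 640) (by decide +kernel)
              (CovZ.leaf K2_ok TF_l1129 _)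
              (CovZ.leaf K2_ok TF_l1130 _)))
            (CovZ.subM 166153499483390503461782847960121348 (by decide +kernel)
             (CovZ.n1 (-560, 560) (by decide +kernel)
              (CovZ.n2 (-560, 640) (by decide +kernel)
               (CovZ.n2 (-520, 600) (by decide +kernel)
                (CovZ.leaf K2_ok TF_l10200 _)
                (CovZ.leaf K2_ok TF_l10201 _))
               (CovZ.subM 166153499473719096904830595826188292 (by decide +kernel)
                (CovZ.n1 (-600, 600) (by decide +kernel)
                 (CovZ.n2 (-600, 640) (by decide +kernel)
                  (CovZ.leaf K2_ok TF_l10202 _)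
                  (CovZ.leaf K2_ok TF_l10203 _))
                 (CovZ.n1 (-560, 600) (by decide +kernel)
                  (CovZ.leaf K2_ok TF_l10204 _)
                  (CovZ.leaf K2_ok TF_l10205 _)))))
              (CovZ.n1 (-480, 560) (by decide +kernel)
               (CovZ.n2 (-520, 520) (by decide +kernel)
                (CovZ.leaf K2_ok TF_l10206 _)
                (CovZ.leaf K2_ok TF_l1131 _))
               (CovZ.n1 (-520, 600) (by decide +kernel)
                (CovZ.leaf K2_ok TF_l10207 _)
                (CovZ.leaf K2_ok TF_l10208 _))))))
           (CovZ.n1 (-320, 480) (by decide +kernel)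
            (CovZ.n2 (-400, 400) (by decide +kernel)
             (CovZ.n2 (-400, 480) (by decide +kernel)
              (CovZ.leaf K2_ok TF_l1132 _)
              (CovZ.leaf K2_ok TF_l1133 _))
             (CovZ.leaf K2_ok TF_l1134 _))
            (CovZ.n1 (-400, 560) (by decide +kernel)
             (CovZ.n2 (-320, 560) (by decide +kernel)
              (CovZ.leaf K2_ok TF_l1135 _)
              (CovZ.leaf K2_ok TF_l1136 _))
             (CovZ.leaf K2_ok TF_l1137 _)))))
         (CovZ.n1 (0, 320) (by decide +kernel)
          (CovZ.n2 (-160, 160) (by decide +kernel)
           (CovZ.n2 (-160, 320) (by decide +kernel)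
            (CovZ.leaf K2_ok TF_l1138 _)
            (CovZ.leaf K2_ok TF_l1139 _))
           (CovZ.n1 (0, 160) (by decide +kernel)
            (CovZ.leaf K2_ok TF_l1140 _)
            (CovZ.leaf K2_ok TF_l1141 _)))
          (CovZ.n1 (-160, 480) (by decide +kernel)
           (CovZ.n2 (0, 480) (by decide +kernel)
            (CovZ.leaf K2_ok TF_l1142 _)
            (CovZ.leaf K2_ok TF_l1143 _))
           (CovZ.n1 (-160, 320) (by decide +kernel)
            (CovZ.n2 (-240, 400) (by decide +kernel)
             (CovZ.leaf K2_ok TF_l1144 _)
             (CovZ.leaf K2_ok TF_l1145 _))
            (CovZ.leaf K2_ok TF_l1146 _))))))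
       (CovZ.subM 2787593315969827377291413089247363844019844 (by decide +kernel)
        (CovZ.n1 (-320, 960) (by decide +kernel)
         (CovZ.n2 (0, 960) (by decide +kernel)
          (CovZ.n2 (-160, 800) (by decide +kernel)
           (CovZ.n2 (-160, 960) (by decide +kernel)
            (CovZ.leaf K2_ok TF_l1147 _)
            (CovZ.n1 (-240, 880) (by decide +kernel)
             (CovZ.n2 (-240, 960) (by decide +kernel)
              (CovZ.leaf K2_ok TF_l1148 _)
              (CovZ.leaf K2_ok TF_l1149 _))
             (CovZ.leaf K2_ok TF_l1150 _)))
           (CovZ.n1 (0, 800) (by decide +kernel)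
            (CovZ.leaf K2_ok TF_l1151 _)
            (CovZ.leaf K2_ok TF_l1152 _)))
          (CovZ.n1 (-160, 1120) (by decide +kernel)
           (CovZ.n2 (0, 1120) (by decide +kernel)
            (CovZ.leaf K2_ok TF_l1153 _)
            (CovZ.leaf K2_ok TF_l1154 _))
           (CovZ.n1 (-160, 960) (by decide +kernel)
            (CovZ.n2 (-240, 1040) (by decide +kernel)
             (CovZ.leaf K2_ok TF_l1155 _)
             (CovZ.leaf K2_ok TF_l1156 _))
            (CovZ.leaf K2_ok TF_l1157 _))))
         (CovZ.n1 (-320, 640) (by decide +kernel)
          (CovZ.n2 (-480, 800) (by decide +kernel)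
           (CovZ.n2 (-320, 800) (by decide +kernel)
            (CovZ.n2 (-400, 720) (by decide +kernel)
             (CovZ.n2 (-400, 800) (by decide +kernel)
              (CovZ.leaf K2_ok TF_l1158 _)
              (CovZ.n1 (-440, 760) (by decide +kernel)
               (CovZ.leaf K2_ok TF_l1159 _)
               (CovZ.leaf K2_ok TF_l1160 _)))
             (CovZ.n1 (-320, 720) (by decide +kernel)
              (CovZ.leaf K2_ok TF_l1161 _)
              (CovZ.leaf K2_ok TF_l1162 _)))
            (CovZ.n1 (-400, 880) (by decide +kernel)
             (CovZ.n2 (-320, 880) (by decide +kernel)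
              (CovZ.n2 (-360, 840) (by decide +kernel)
               (CovZ.n2 (-360, 880) (by decide +kernel)
                (CovZ.leaf K2_ok TF_l1163 _)
                (CovZ.leaf K2_ok TF_l1164 _))
               (CovZ.leaf K2_ok TF_l1165 _))
              (CovZ.n1 (-360, 920) (by decide +kernel)
               (CovZ.leaf K2_ok TF_l1166 _)
               (CovZ.leaf K2_ok TF_l1167 _)))
             (CovZ.n1 (-400, 800) (by decide +kernel)
              (CovZ.n2 (-440, 840) (by decide +kernel)
               (CovZ.leaf K2_ok TF_l1168 _)
               (CovZ.leaf K2_ok TF_l1169 _))
              (CovZ.leaf K2_ok TF_l1170 _))))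
           (CovZ.subM 166153499483390503462345763553808516 (by decide +kernel)
            (CovZ.n1 (-480, 640) (by decide +kernel)
             (CovZ.n2 (-560, 720) (by decide +kernel)
              (CovZ.n2 (-480, 720) (by decide +kernel)
               (CovZ.n2 (-520, 680) (by decide +kernel)
                (CovZ.n2 (-520, 720) (by decide +kernel)
                 (CovZ.leaf K2_ok TF_l10209 _)
                 (CovZ.leaf K2_ok TF_l10210 _))
                (CovZ.leaf K2_ok TF_l10211 _))
               (CovZ.n1 (-520, 760) (by decide +kernel)
                (CovZ.n2 (-480, 760) (by decide +kernel)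
                 (CovZ.leaf K2_ok TF_l10212 _)
                 (CovZ.leaf K2_ok TF_l10213 _))
                (CovZ.n1 (-520, 720) (by decide +kernel)
                 (CovZ.n2 (-540, 740) (by decide +kernel)
                  (CovZ.leaf K2_ok TF_l10214 _)
                  (CovZ.leaf K2_ok TF_l10215 _))
                 (CovZ.leaf K2_ok TF_l10216 _))))
              (CovZ.n1 (-560, 640) (by decide +kernel)
               (CovZ.subM 166153499473719096904830595826188288 (by decide +kernel)
                (CovZ.n2 (-600, 680) (by decide +kernel)
                 (CovZ.n2 (-560, 680) (by decide +kernel)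
                  (CovZ.leaf K2_ok TF_l10217 _)
                  (CovZ.leaf K2_ok TF_l10218 _))
                 (CovZ.n1 (-600, 640) (by decide +kernel)
                  (CovZ.n2 (-620, 660) (by decide +kernel)
                   (CovZ.leaf K2_ok TF_l10219 _)
                   (CovZ.leaf K2_ok TF_l10220 _))
                  (CovZ.leaf K2_ok TF_l10221 _))))
               (CovZ.leaf K2_ok TF_l10222 _)))
             (CovZ.n1 (-400, 720) (by decide +kernel)
              (CovZ.n2 (-400, 640) (by decide +kernel)
               (CovZ.n2 (-440, 680) (by decide +kernel)
                (CovZ.leaf K2_ok TF_l1171 _)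
                (CovZ.leaf K2_ok TF_l1172 _))
               (CovZ.leaf K2_ok TF_l1173 _))
              (CovZ.n1 (-480, 720) (by decide +kernel)
               (CovZ.leaf K2_ok TF_l1174 _)
               (CovZ.n1 (-440, 680) (by decide +kernel)
                (CovZ.leaf K2_ok TF_l1175 _)
                (CovZ.leaf K2_ok TF_l1176 _)))))))
          (CovZ.n1 (-160, 800) (by decide +kernel)
           (CovZ.n2 (-160, 640) (by decide +kernel)
            (CovZ.n2 (-240, 720) (by decide +kernel)
             (CovZ.leaf K2_ok TF_l1177 _)
             (CovZ.leaf K2_ok TF_l1178 _))
            (CovZ.leaf K2_ok TF_l1179 _))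
           (CovZ.n1 (-320, 800) (by decide +kernel)
            (CovZ.leaf K2_ok TF_l1180 _)
            (CovZ.n1 (-240, 720) (by decide +kernel)
             (CovZ.leaf K2_ok TF_l1181 _)
             (CovZ.n1 (-240, 800) (by decide +kernel)
              (CovZ.leaf K2_ok TF_l1182 _)
              (CovZ.leaf K2_ok TF_l1183 _)))))))))

theorem TF_u55 : CovZ TF_M (toL (selN TF_LN 1199038927741477196944)) [0, 7, 4, 3] (-640, 1920) (-640, 1600) (-320, 1600) :=
    (CovZ.n2 (-480, 1760) (by decide +kernel)
            (CovZ.n2 (-480, 1600) (by decide +kernel)
             (CovZ.subM 18447307023797191824 (by decide +kernel)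
              (CovZ.n2 (-560, 1680) (by decide +kernel)
               (CovZ.n2 (-480, 1680) (by decide +kernel)
                (CovZ.n2 (-520, 1640) (by decide +kernel)
                 (CovZ.n2 (-520, 1680) (by decide +kernel)
                  (CovZ.leaf K2_ok TF_l1244 _)
                  (CovZ.leaf K2_ok TF_l10250 _))
                 (CovZ.leaf K2_ok TF_l1245 _))
                (CovZ.n1 (-520, 1720) (by decide +kernel)
                 (CovZ.leaf K2_ok TF_l1246 _)
                 (CovZ.leaf K2_ok TF_l1247 _)))
               (CovZ.n1 (-560, 1600) (by decide +kernel)
                (CovZ.subM 562949953421440 (by decide +kernel)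
                 (CovZ.n2 (-600, 1640) (by decide +kernel)
                  (CovZ.n2 (-560, 1640) (by decide +kernel)
                   (CovZ.n2 (-580, 1620) (by decide +kernel)
                    (CovZ.n2 (-580, 1640) (by decide +kernel)
                     (CovZ.leaf K2_ok TF_l10251 _)
                     (CovZ.badM (by decide +kernel)))
                    (CovZ.n1 (-560, 1620) (by decide +kernel)
                     (CovZ.leaf K2_ok TF_l10252 _)
                     (CovZ.leaf K2_ok TF_l10253 _)))
                   (CovZ.n1 (-580, 1660) (by decide +kernel)
                    (CovZ.leaf K2_ok TF_l10254 _)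
                    (CovZ.leaf K2_ok TF_l10255 _)))
                  (CovZ.n1 (-600, 1600) (by decide +kernel)
                   (CovZ.badM (by decide +kernel))
                   (CovZ.n1 (-580, 1620) (by decide +kernel)
                    (CovZ.n2 (-580, 1600) (by decide +kernel)
                     (CovZ.badM (by decide +kernel))
                     (CovZ.leaf K2_ok TF_l10256 _))
                    (CovZ.badM (by decide +kernel))))))
                (CovZ.n1 (-520, 1640) (by decide +kernel)
                 (CovZ.n2 (-520, 1600) (by decide +kernel)
                  (CovZ.leaf K2_ok TF_l10257 _)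
                  (CovZ.leaf K2_ok TF_l1248 _))
                 (CovZ.n1 (-560, 1640) (by decide +kernel)
                  (CovZ.leaf K2_ok TF_l10258 _)
                  (CovZ.leaf K2_ok TF_l10259 _))))))
             (CovZ.n1 (-400, 1680) (by decide +kernel)
              (CovZ.leaf K2_ok TF_l1249 _)
              (CovZ.leaf K2_ok TF_l1250 _)))
            (CovZ.n1 (-640, 1760) (by decide +kernel)
             (CovZ.subM 1199038364791255073936 (by decide +kernel)
              (CovZ.n2 (-560, 1840) (by decide +kernel)
               (CovZ.n2 (-560, 1760) (by decide +kernel)
                (CovZ.subM 1180591620717411303552 (by decide +kernel)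
                 (CovZ.n2 (-600, 1800) (by decide +kernel)
                  (CovZ.n2 (-560, 1800) (by decide +kernel)
                   (CovZ.n2 (-580, 1780) (by decide +kernel)
                    (CovZ.leaf K2_ok TF_l10260 _)
                    (CovZ.leaf K2_ok TF_l10261 _))
                   (CovZ.leaf K2_ok TF_l10262 _))
                  (CovZ.n1 (-600, 1760) (by decide +kernel)
                   (CovZ.n2 (-620, 1780) (by decide +kernel)
                    (CovZ.n2 (-600, 1780) (by decide +kernel)
                     (CovZ.badM (by decide +kernel))
                     (CovZ.leaf K2_ok TF_l10263 _))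
                    (CovZ.badM (by decide +kernel)))
                   (CovZ.leaf K2_ok TF_l10264 _))))
                (CovZ.leaf K2_ok TF_l1251 _))
               (CovZ.subM 1180591620717411303552 (by decide +kernel)
                (CovZ.n1 (-640, 1840) (by decide +kernel)
                 (CovZ.n2 (-600, 1880) (by decide +kernel)
                  (CovZ.n2 (-600, 1840) (by decide +kernel)
                   (CovZ.n2 (-620, 1860) (by decide +kernel)
                    (CovZ.n2 (-600, 1860) (by decide +kernel)
                     (CovZ.leaf K2_ok TF_l10265 _)
                     (CovZ.leaf K2_ok TF_l10266 _))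
                    (CovZ.n1 (-620, 1840) (by decide +kernel)
                     (CovZ.badM (by decide +kernel))
                     (CovZ.leaf K2_ok TF_l10267 _)))
                   (CovZ.leaf K2_ok TF_l10268 _))
                  (CovZ.n1 (-640, 1880) (by decide +kernel)
                   (CovZ.n2 (-620, 1900) (by decide +kernel)
                    (CovZ.n2 (-620, 1880) (by decide +kernel)
                     (CovZ.badM (by decide +kernel))
                     (CovZ.leaf K2_ok TF_l10269 _))
                    (CovZ.badM (by decide +kernel)))
                   (CovZ.n1 (-620, 1860) (by decide +kernel)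
                    (CovZ.badM (by decide +kernel))
                    (CovZ.n1 (-620, 1880) (by decide +kernel)
                     (CovZ.leaf K2_ok TF_l10270 _)
                     (CovZ.badM (by decide +kernel))))))
                 (CovZ.n1 (-600, 1800) (by decide +kernel)
                  (CovZ.n2 (-640, 1800) (by decide +kernel)
                   (CovZ.n2 (-620, 1820) (by decide +kernel)
                    (CovZ.n2 (-620, 1800) (by decide +kernel)
                     (CovZ.badM (by decide +kernel))
                     (CovZ.leaf K2_ok TF_l10271 _))
                    (CovZ.badM (by decide +kernel)))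
                   (CovZ.n1 (-620, 1780) (by decide +kernel)
                    (CovZ.badM (by decide +kernel))
                    (CovZ.n1 (-620, 1800) (by decide +kernel)
                     (CovZ.leaf K2_ok TF_l10272 _)
                     (CovZ.badM (by decide +kernel)))))
                  (CovZ.n1 (-600, 1840) (by decide +kernel)
                   (CovZ.n2 (-580, 1820) (by decide +kernel)
                    (CovZ.leaf K2_ok TF_l10273 _)
                    (CovZ.leaf K2_ok TF_l10274 _))
                   (CovZ.n1 (-620, 1820) (by decide +kernel)
                    (CovZ.n2 (-620, 1840) (by decide +kernel)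
                     (CovZ.leaf K2_ok TF_l10275 _)
                     (CovZ.badM (by decide +kernel)))
                    (CovZ.n1 (-600, 1820) (by decide +kernel)
                     (CovZ.leaf K2_ok TF_l10276 _)
                     (CovZ.leaf K2_ok TF_l10277 _)))))))))
             (CovZ.subM 18447307023797191824 (by decide +kernel)
              (CovZ.n1 (-560, 1680) (by decide +kernel)
               (CovZ.subM 562949953421440 (by decide +kernel)
                (CovZ.n2 (-640, 1680) (by decide +kernel)
                 (CovZ.n2 (-600, 1720) (by decide +kernel)
                  (CovZ.n2 (-600, 1680) (by decide +kernel)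
                   (CovZ.badM (by decide +kernel))
                   (CovZ.leaf K2_ok TF_l10278 _))
                  (CovZ.badM (by decide +kernel)))
                 (CovZ.n1 (-600, 1640) (by decide +kernel)
                  (CovZ.badM (by decide +kernel))
                  (CovZ.n1 (-600, 1680) (by decide +kernel)
                   (CovZ.n2 (-580, 1660) (by decide +kernel)
                    (CovZ.badM (by decide +kernel))
                    (CovZ.n1 (-580, 1680) (by decide +kernel)
                     (CovZ.leaf K2_ok TF_l10279 _)
                     (CovZ.badM (by decide +kernel))))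
                   (CovZ.badM (by decide +kernel))))))
               (CovZ.n1 (-560, 1760) (by decide +kernel)
                (CovZ.n2 (-520, 1720) (by decide +kernel)
                 (CovZ.leaf K2_ok TF_l10280 _)
                 (CovZ.n1 (-520, 1760) (by decide +kernel)
                  (CovZ.leaf K2_ok TF_l1252 _)
                  (CovZ.leaf K2_ok TF_l10281 _)))
                (CovZ.subM 128 (by decide +kernel)
                 (CovZ.n1 (-600, 1720) (by decide +kernel)
                  (CovZ.n2 (-600, 1760) (by decide +kernel)
                   (CovZ.n2 (-580, 1740) (by decide +kernel)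
                    (CovZ.leaf K2_ok TF_l10282 _)
                    (CovZ.leaf K2_ok TF_l10283 _))
                   (CovZ.badM (by decide +kernel)))
                  (CovZ.n1 (-560, 1720) (by decide +kernel)
                   (CovZ.n2 (-580, 1700) (by decide +kernel)
                    (CovZ.n2 (-580, 1720) (by decide +kernel)
                     (CovZ.leaf K2_ok TF_l10284 _)
                     (CovZ.badM (by decide +kernel)))
                    (CovZ.leaf K2_ok TF_l10285 _))
                   (CovZ.n1 (-580, 1740) (by decide +kernel)
                    (CovZ.leaf K2_ok TF_l10286 _)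
                    (CovZ.leaf K2_ok TF_l10287 _))))))))))

theorem TF_u56 : CovZ TF_M (toL (selN TF_LN 1199038927741477196944)) [0, 7, 4, 3] (-640, 1600) (-640, 1280) (-320, 1600) :=
    (CovZ.n1 (-480, 1440) (by decide +kernel)
            (CovZ.subM 18447307024065627264 (by decide +kernel)
             (CovZ.n2 (-640, 1440) (by decide +kernel)
              (CovZ.n2 (-560, 1520) (by decide +kernel)
               (CovZ.n2 (-560, 1440) (by decide +kernel)
                (CovZ.badM (by decide +kernel))
                (CovZ.n1 (-520, 1480) (by decide +kernel)
                 (CovZ.n2 (-520, 1440) (by decide +kernel)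
                  (CovZ.n2 (-540, 1460) (by decide +kernel)
                   (CovZ.leaf K2_ok TF_l10288 _)
                   (CovZ.leaf K2_ok TF_l10289 _))
                  (CovZ.leaf K2_ok TF_l10290 _))
                 (CovZ.subM 562949953422464 (by decide +kernel)
                  (CovZ.n1 (-560, 1480) (by decide +kernel)
                   (CovZ.leaf K2_ok TF_l10291 _)
                   (CovZ.n1 (-540, 1460) (by decide +kernel)
                    (CovZ.leaf K2_ok TF_l10292 _)
                    (CovZ.n1 (-540, 1480) (by decide +kernel)
                     (CovZ.leaf K2_ok TF_l10293 _)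
                     (CovZ.leaf K2_ok TF_l10294 _)))))))
               (CovZ.badM (by decide +kernel)))
              (CovZ.n1 (-560, 1360) (by decide +kernel)
               (CovZ.badM (by decide +kernel))
               (CovZ.n1 (-560, 1440) (by decide +kernel)
                (CovZ.n2 (-520, 1400) (by decide +kernel)
                 (CovZ.subM 562949953422464 (by decide +kernel)
                  (CovZ.n2 (-560, 1400) (by decide +kernel)
                   (CovZ.n2 (-540, 1420) (by decide +kernel)
                    (CovZ.leaf K2_ok TF_l10295 _)
                    (CovZ.leaf K2_ok TF_l10296 _))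
                   (CovZ.n1 (-540, 1380) (by decide +kernel)
                    (CovZ.n2 (-560, 1380) (by decide +kernel)
                     (CovZ.leaf K2_ok TF_l10297 _)
                     (CovZ.badM (by decide +kernel)))
                    (CovZ.n1 (-540, 1400) (by decide +kernel)
                     (CovZ.leaf K2_ok TF_l10298 _)
                     (CovZ.leaf K2_ok TF_l10299 _)))))
                 (CovZ.n1 (-520, 1440) (by decide +kernel)
                  (CovZ.leaf K2_ok TF_l10300 _)
                  (CovZ.n1 (-540, 1420) (by decide +kernel)
                   (CovZ.n2 (-540, 1440) (by decide +kernel)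
                    (CovZ.leaf K2_ok TF_l10301 _)
                    (CovZ.leaf K2_ok TF_l10302 _))
                   (CovZ.leaf K2_ok TF_l10303 _))))
                (CovZ.badM (by decide +kernel))))))
            (CovZ.n1 (-480, 1600) (by decide +kernel)
             (CovZ.n2 (-400, 1520) (by decide +kernel)
              (CovZ.n2 (-480, 1520) (by decide +kernel)
               (CovZ.leaf K2_ok TF_l1253 _)
               (CovZ.n1 (-440, 1480) (by decide +kernel)
                (CovZ.leaf K2_ok TF_l1254 _)
                (CovZ.leaf K2_ok TF_l1255 _)))
              (CovZ.n1 (-400, 1600) (by decide +kernel)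
               (CovZ.leaf K2_ok TF_l1256 _)
               (CovZ.n1 (-440, 1560) (by decide +kernel)
                (CovZ.leaf K2_ok TF_l1257 _)
                (CovZ.leaf K2_ok TF_l1258 _))))
             (CovZ.subM 18447307024065627264 (by decide +kernel)
              (CovZ.n1 (-560, 1520) (by decide +kernel)
               (CovZ.n2 (-560, 1600) (by decide +kernel)
                (CovZ.n2 (-520, 1560) (by decide +kernel)
                 (CovZ.n2 (-560, 1560) (by decide +kernel)
                  (CovZ.leaf K2_ok TF_l10304 _)
                  (CovZ.n1 (-540, 1540) (by decide +kernel)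
                   (CovZ.leaf K2_ok TF_l10305 _)
                   (CovZ.leaf K2_ok TF_l10306 _)))
                 (CovZ.n1 (-520, 1600) (by decide +kernel)
                  (CovZ.leaf K2_ok TF_l1259 _)
                  (CovZ.n1 (-540, 1580) (by decide +kernel)
                   (CovZ.leaf K2_ok TF_l10307 _)
                   (CovZ.leaf K2_ok TF_l10308 _))))
                (CovZ.subM 128 (by decide +kernel)
                 (CovZ.n1 (-600, 1560) (by decide +kernel)
                  (CovZ.n2 (-600, 1600) (by decide +kernel)
                   (CovZ.n2 (-580, 1580) (by decide +kernel)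
                    (CovZ.badM (by decide +kernel))
                    (CovZ.n1 (-580, 1600) (by decide +kernel)
                     (CovZ.leaf K2_ok TF_l10309 _)
                     (CovZ.badM (by decide +kernel))))
                   (CovZ.badM (by decide +kernel)))
                  (CovZ.n1 (-560, 1560) (by decide +kernel)
                   (CovZ.badM (by decide +kernel))
                   (CovZ.n1 (-580, 1580) (by decide +kernel)
                    (CovZ.n2 (-560, 1580) (by decide +kernel)
                     (CovZ.badM (by decide +kernel))
                     (CovZ.leaf K2_ok TF_l10310 _))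
                    (CovZ.badM (by decide +kernel)))))))
               (CovZ.n1 (-480, 1520) (by decide +kernel)
                (CovZ.n2 (-520, 1480) (by decide +kernel)
                 (CovZ.n2 (-520, 1520) (by decide +kernel)
                  (CovZ.leaf K2_ok TF_l10311 _)
                  (CovZ.n1 (-540, 1500) (by decide +kernel)
                   (CovZ.leaf K2_ok TF_l10312 _)
                   (CovZ.leaf K2_ok TF_l10313 _)))
                 (CovZ.n1 (-480, 1480) (by decide +kernel)
                  (CovZ.leaf K2_ok TF_l10314 _)
                  (CovZ.leaf K2_ok TF_l10315 _)))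
                (CovZ.n1 (-520, 1560) (by decide +kernel)
                 (CovZ.n2 (-480, 1560) (by decide +kernel)
                  (CovZ.leaf K2_ok TF_l10316 _)
                  (CovZ.leaf K2_ok TF_l1260 _))
                 (CovZ.n1 (-520, 1520) (by decide +kernel)
                  (CovZ.n2 (-540, 1540) (by decide +kernel)
                   (CovZ.leaf K2_ok TF_l10317 _)
                   (CovZ.leaf K2_ok TF_l10318 _))
                  (CovZ.leaf K2_ok TF_l10319 _))))))))

theorem TF_u57 : CovZ TF_M (toL (selN TF_LN 166153499483409413104403607114224260)) [0, 7, 4, 3] (-1280, 0) (-640, 0) (-640, 640) :=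
    (CovZ.subM 604613944811436629819396 (by decide +kernel)
         (CovZ.n2 (-960, 320) (by decide +kernel)
          (CovZ.n2 (-640, 320) (by decide +kernel)
           (CovZ.subM 604464065015803379974144 (by decide +kernel)
            (CovZ.n2 (-800, 160) (by decide +kernel)
             (CovZ.n2 (-800, 320) (by decide +kernel)
              (CovZ.n2 (-720, 240) (by decide +kernel)
               (CovZ.badM (by decide +kernel))
               (CovZ.n1 (-720, 320) (by decide +kernel)
                (CovZ.n2 (-680, 280) (by decide +kernel)
                 (CovZ.n2 (-720, 280) (by decide +kernel)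
                  (CovZ.n2 (-700, 300) (by decide +kernel)
                   (CovZ.n2 (-700, 280) (by decide +kernel)
                    (CovZ.badM (by decide +kernel))
                    (CovZ.leaf K2_ok TF_l10320 _))
                   (CovZ.badM (by decide +kernel)))
                  (CovZ.n1 (-700, 260) (by decide +kernel)
                   (CovZ.badM (by decide +kernel))
                   (CovZ.n1 (-700, 280) (by decide +kernel)
                    (CovZ.leaf K2_ok TF_l10321 _)
                    (CovZ.badM (by decide +kernel)))))
                 (CovZ.n1 (-680, 320) (by decide +kernel)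
                  (CovZ.n2 (-660, 300) (by decide +kernel)
                   (CovZ.leaf K2_ok TF_l10322 _)
                   (CovZ.leaf K2_ok TF_l10323 _))
                  (CovZ.n1 (-700, 300) (by decide +kernel)
                   (CovZ.badM (by decide +kernel))
                   (CovZ.leaf K2_ok TF_l10324 _))))
                (CovZ.badM (by decide +kernel))))
              (CovZ.badM (by decide +kernel)))
             (CovZ.n1 (-640, 160) (by decide +kernel)
              (CovZ.n2 (-720, 80) (by decide +kernel)
               (CovZ.n2 (-720, 160) (by decide +kernel)
                (CovZ.n2 (-680, 120) (by decide +kernel)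
                 (CovZ.leaf K2_ok TF_l10325 _)
                 (CovZ.leaf K2_ok TF_l10326 _))
                (CovZ.badM (by decide +kernel)))
               (CovZ.n1 (-640, 80) (by decide +kernel)
                (CovZ.leaf K2_ok TF_l10327 _)
                (CovZ.n1 (-680, 120) (by decide +kernel)
                 (CovZ.leaf K2_ok TF_l10328 _)
                 (CovZ.leaf K2_ok TF_l10329 _))))
              (CovZ.n1 (-720, 240) (by decide +kernel)
               (CovZ.n2 (-640, 240) (by decide +kernel)
                (CovZ.n2 (-680, 200) (by decide +kernel)
                 (CovZ.n2 (-680, 240) (by decide +kernel)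
                  (CovZ.leaf K2_ok TF_l10330 _)
                  (CovZ.leaf K2_ok TF_l10331 _))
                 (CovZ.leaf K2_ok TF_l10332 _))
                (CovZ.n1 (-680, 280) (by decide +kernel)
                 (CovZ.n2 (-640, 280) (by decide +kernel)
                  (CovZ.leaf K2_ok TF_l10333 _)
                  (CovZ.n1 (-660, 300) (by decide +kernel)
                   (CovZ.leaf K2_ok TF_l10334 _)
                   (CovZ.leaf K2_ok TF_l10335 _)))
                 (CovZ.n1 (-680, 240) (by decide +kernel)
                  (CovZ.n2 (-700, 260) (by decide +kernel)
                   (CovZ.leaf K2_ok TF_l10336 _)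
                   (CovZ.leaf K2_ok TF_l10337 _))
                  (CovZ.leaf K2_ok TF_l10338 _))))
               (CovZ.n1 (-720, 160) (by decide +kernel)
                (CovZ.badM (by decide +kernel))
                (CovZ.n1 (-680, 200) (by decide +kernel)
                 (CovZ.leaf K2_ok TF_l10339 _)
                 (CovZ.n1 (-720, 200) (by decide +kernel)
                  (CovZ.leaf K2_ok TF_l10340 _)
                  (CovZ.leaf K2_ok TF_l10341 _))))))))
           (CovZ.n1 (-800, 480) (by decide +kernel)
            (CovZ.n2 (-640, 480) (by decide +kernel)
             (CovZ.n2 (-720, 400) (by decide +kernel)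
              (CovZ.n2 (-720, 480) (by decide +kernel)
               (CovZ.n2 (-680, 440) (by decide +kernel)
                (CovZ.badM (by decide +kernel))
                (CovZ.n1 (-680, 480) (by decide +kernel)
                 (CovZ.n2 (-660, 460) (by decide +kernel)
                  (CovZ.leaf K2_ok TF_l10342 _)
                  (CovZ.leaf K2_ok TF_l10343 _))
                 (CovZ.badM (by decide +kernel))))
               (CovZ.badM (by decide +kernel)))
              (CovZ.n1 (-640, 400) (by decide +kernel)
               (CovZ.subM 604610486046888449540096 (by decide +kernel)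
                (CovZ.n2 (-680, 360) (by decide +kernel)
                 (CovZ.n2 (-680, 400) (by decide +kernel)
                  (CovZ.n2 (-660, 380) (by decide +kernel)
                   (CovZ.leaf K2_ok TF_l10344 _)
                   (CovZ.leaf K2_ok TF_l10345 _))
                  (CovZ.n1 (-700, 380) (by decide +kernel)
                   (CovZ.badM (by decide +kernel))
                   (CovZ.leaf K2_ok TF_l10346 _)))
                 (CovZ.n1 (-640, 360) (by decide +kernel)
                  (CovZ.leaf K2_ok TF_l10347 _)
                  (CovZ.n1 (-660, 380) (by decide +kernel)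
                   (CovZ.leaf K2_ok TF_l10348 _)
                   (CovZ.leaf K2_ok TF_l10349 _)))))
               (CovZ.n1 (-680, 440) (by decide +kernel)
                (CovZ.n2 (-640, 440) (by decide +kernel)
                 (CovZ.leaf K2_ok TF_l10350 _)
                 (CovZ.n1 (-660, 460) (by decide +kernel)
                  (CovZ.leaf K2_ok TF_l10351 _)
                  (CovZ.leaf K2_ok TF_l10352 _)))
                (CovZ.n1 (-680, 400) (by decide +kernel)
                 (CovZ.badM (by decide +kernel))
                 (CovZ.leaf K2_ok TF_l10353 _)))))
             (CovZ.n1 (-720, 560) (by decide +kernel)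
              (CovZ.n2 (-640, 560) (by decide +kernel)
               (CovZ.n2 (-680, 520) (by decide +kernel)
                (CovZ.subM 604610486011704077451268 (by decide +kernel)
                 (CovZ.n2 (-680, 560) (by decide +kernel)
                  (CovZ.n2 (-660, 540) (by decide +kernel)
                   (CovZ.leaf K2_ok TF_l10354 _)
                   (CovZ.leaf K2_ok TF_l10355 _))
                  (CovZ.n1 (-700, 540) (by decide +kernel)
                   (CovZ.badM (by decide +kernel))
                   (CovZ.leaf K2_ok TF_l10356 _))))
                (CovZ.n1 (-640, 520) (by decide +kernel)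
                 (CovZ.leaf K2_ok TF_l10357 _)
                 (CovZ.n1 (-660, 540) (by decide +kernel)
                  (CovZ.leaf K2_ok TF_l10358 _)
                  (CovZ.leaf K2_ok TF_l10359 _))))
               (CovZ.subM 604610486011704077451268 (by decide +kernel)
                (CovZ.n1 (-680, 600) (by decide +kernel)
                 (CovZ.n2 (-640, 600) (by decide +kernel)
                  (CovZ.n2 (-660, 580) (by decide +kernel)
                   (CovZ.leaf K2_ok TF_l10360 _)
                   (CovZ.leaf K2_ok TF_l10361 _))
                  (CovZ.n1 (-660, 620) (by decide +kernel)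
                   (CovZ.leaf K2_ok TF_l10362 _)
                   (CovZ.leaf K2_ok TF_l10363 _)))
                 (CovZ.n1 (-680, 560) (by decide +kernel)
                  (CovZ.badM (by decide +kernel))
                  (CovZ.leaf K2_ok TF_l10364 _)))))
              (CovZ.n1 (-720, 480) (by decide +kernel)
               (CovZ.n2 (-760, 520) (by decide +kernel)
                (CovZ.n2 (-720, 520) (by decide +kernel)
                 (CovZ.badM (by decide +kernel))
                 (CovZ.badM (by decide +kernel)))
                (CovZ.badM (by decide +kernel)))
               (CovZ.n1 (-680, 520) (by decide +kernel)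
                (CovZ.n2 (-680, 480) (by decide +kernel)
                 (CovZ.n2 (-700, 500) (by decide +kernel)
                  (CovZ.leaf K2_ok TF_l10365 _)
                  (CovZ.badM (by decide +kernel)))
                 (CovZ.leaf K2_ok TF_l10366 _))
                (CovZ.subM 147573952589676412932 (by decide +kernel)
                 (CovZ.n1 (-720, 520) (by decide +kernel)
                  (CovZ.n2 (-700, 540) (by decide +kernel)
                   (CovZ.n2 (-700, 520) (by decide +kernel)
                    (CovZ.badM (by decide +kernel))
                    (CovZ.leaf K2_ok TF_l10367 _))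
                   (CovZ.badM (by decide +kernel)))
                  (CovZ.n1 (-700, 500) (by decide +kernel)
                   (CovZ.badM (by decide +kernel))
                   (CovZ.n1 (-700, 520) (by decide +kernel)
                    (CovZ.leaf K2_ok TF_l10368 _)
                    (CovZ.leaf K2_ok TF_l10369 _)))))))))
            (CovZ.subM 604462912094298773127168 (by decide +kernel)
             (CovZ.n1 (-800, 320) (by decide +kernel)
              (CovZ.badM (by decide +kernel))
              (CovZ.n1 (-720, 400) (by decide +kernel)
               (CovZ.n2 (-720, 320) (by decide +kernel)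
                (CovZ.badM (by decide +kernel))
                (CovZ.n1 (-680, 360) (by decide +kernel)
                 (CovZ.n2 (-680, 320) (by decide +kernel)
                  (CovZ.badM (by decide +kernel))
                  (CovZ.leaf K2_ok TF_l10370 _))
                 (CovZ.badM (by decide +kernel))))
               (CovZ.badM (by decide +kernel)))))))
          (CovZ.subM 604464064980619007885312 (by decide +kernel)
           (CovZ.n1 (-960, 0) (by decide +kernel)
            (CovZ.badM (by decide +kernel))
            (CovZ.n1 (-800, 160) (by decide +kernel)
             (CovZ.n2 (-800, 0) (by decide +kernel)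
              (CovZ.badM (by decide +kernel))
              (CovZ.n1 (-720, 80) (by decide +kernel)
               (CovZ.n2 (-720, 0) (by decide +kernel)
                (CovZ.n2 (-760, 40) (by decide +kernel)
                 (CovZ.leaf K2_ok TF_l10371 _)
                 (CovZ.n1 (-760, 0) (by decide +kernel)
                  (CovZ.badM (by decide +kernel))
                  (CovZ.leaf K2_ok TF_l10372 _)))
                (CovZ.leaf K2_ok TF_l10373 _))
               (CovZ.badM (by decide +kernel))))
             (CovZ.badM (by decide +kernel)))))))

theorem TF_u58 : CovZ TF_M (toL (selN TF_LN 166153499483409413104403607114224260)) [0, 7, 4, 3] (-640, 0) (0, 0) (-640, 640) :=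
    (CovZ.n1 (-320, 320) (by decide +kernel)
         (CovZ.n2 (-320, 0) (by decide +kernel)
          (CovZ.n2 (-480, 160) (by decide +kernel)
           (CovZ.n2 (-320, 160) (by decide +kernel)
            (CovZ.leaf K2_ok TF_l1261 _)
            (CovZ.n1 (-400, 240) (by decide +kernel)
             (CovZ.leaf K2_ok TF_l1262 _)
             (CovZ.leaf K2_ok TF_l1263 _)))
           (CovZ.n1 (-480, 0) (by decide +kernel)
            (CovZ.n2 (-560, 80) (by decide +kernel)
             (CovZ.leaf K2_ok TF_l1264 _)
             (CovZ.leaf K2_ok TF_l1265 _))
            (CovZ.leaf K2_ok TF_l1266 _)))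
          (CovZ.n1 (-160, 160) (by decide +kernel)
           (CovZ.leaf K2_ok TF_l1267 _)
           (CovZ.leaf K2_ok TF_l1268 _)))
         (CovZ.n1 (-640, 320) (by decide +kernel)
          (CovZ.n2 (-480, 480) (by decide +kernel)
           (CovZ.n2 (-480, 320) (by decide +kernel)
            (CovZ.subM 166153499483390503461782813600382980 (by decide +kernel)
             (CovZ.n2 (-560, 400) (by decide +kernel)
              (CovZ.n2 (-480, 400) (by decide +kernel)
               (CovZ.leaf K2_ok TF_l1269 _)
               (CovZ.n1 (-520, 440) (by decide +kernel)
                (CovZ.leaf K2_ok TF_l1270 _)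
                (CovZ.leaf K2_ok TF_l1271 _)))
              (CovZ.n1 (-560, 320) (by decide +kernel)
               (CovZ.n2 (-600, 360) (by decide +kernel)
                (CovZ.leaf K2_ok TF_l10374 _)
                (CovZ.leaf K2_ok TF_l10375 _))
               (CovZ.leaf K2_ok TF_l1272 _))))
            (CovZ.leaf K2_ok TF_l1273 _))
           (CovZ.subM 166153499483390503461782847960121348 (by decide +kernel)
            (CovZ.n1 (-640, 480) (by decide +kernel)
             (CovZ.n2 (-560, 560) (by decide +kernel)
              (CovZ.n2 (-560, 480) (by decide +kernel)
               (CovZ.n2 (-600, 520) (by decide +kernel)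
                (CovZ.leaf K2_ok TF_l10376 _)
                (CovZ.leaf K2_ok TF_l10377 _))
               (CovZ.leaf K2_ok TF_l1274 _))
              (CovZ.subM 166153499473719096904830595826188292 (by decide +kernel)
               (CovZ.n1 (-640, 560) (by decide +kernel)
                (CovZ.n2 (-600, 600) (by decide +kernel)
                 (CovZ.n2 (-600, 560) (by decide +kernel)
                  (CovZ.leaf K2_ok TF_l10378 _)
                  (CovZ.leaf K2_ok TF_l10379 _))
                 (CovZ.n1 (-640, 600) (by decide +kernel)
                  (CovZ.leaf K2_ok TF_l10380 _)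
                  (CovZ.n1 (-620, 580) (by decide +kernel)
                   (CovZ.leaf K2_ok TF_l10381 _)
                   (CovZ.leaf K2_ok TF_l10382 _))))
                (CovZ.n1 (-600, 520) (by decide +kernel)
                 (CovZ.leaf K2_ok TF_l10383 _)
                 (CovZ.n1 (-600, 560) (by decide +kernel)
                  (CovZ.leaf K2_ok TF_l10384 _)
                  (CovZ.leaf K2_ok TF_l10385 _))))))
             (CovZ.n1 (-560, 400) (by decide +kernel)
              (CovZ.n2 (-640, 400) (by decide +kernel)
               (CovZ.leaf K2_ok TF_l10386 _)
               (CovZ.n1 (-600, 360) (by decide +kernel)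
                (CovZ.leaf K2_ok TF_l10387 _)
                (CovZ.leaf K2_ok TF_l10388 _)))
              (CovZ.n1 (-560, 480) (by decide +kernel)
               (CovZ.n2 (-520, 440) (by decide +kernel)
                (CovZ.leaf K2_ok TF_l10389 _)
                (CovZ.leaf K2_ok TF_l1275 _))
               (CovZ.n1 (-600, 440) (by decide +kernel)
                (CovZ.leaf K2_ok TF_l10390 _)
                (CovZ.leaf K2_ok TF_l10391 _)))))))
          (CovZ.n1 (-480, 160) (by decide +kernel)
           (CovZ.subM 166153499483390502885322061292765184 (by decide +kernel)
            (CovZ.n2 (-640, 160) (by decide +kernel)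
             (CovZ.n2 (-560, 240) (by decide +kernel)
              (CovZ.n2 (-560, 160) (by decide +kernel)
               (CovZ.n2 (-600, 200) (by decide +kernel)
                (CovZ.leaf K2_ok TF_l1276 _)
                (CovZ.leaf K2_ok TF_l1277 _))
               (CovZ.leaf K2_ok TF_l1278 _))
              (CovZ.n1 (-640, 240) (by decide +kernel)
               (CovZ.leaf K2_ok TF_l1279 _)
               (CovZ.n1 (-600, 200) (by decide +kernel)
                (CovZ.leaf K2_ok TF_l10392 _)
                (CovZ.leaf K2_ok TF_l1280 _))))
             (CovZ.n1 (-560, 80) (by decide +kernel)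
              (CovZ.n2 (-640, 80) (by decide +kernel)
               (CovZ.leaf K2_ok TF_l1281 _)
               (CovZ.leaf K2_ok TF_l1282 _))
              (CovZ.n1 (-560, 160) (by decide +kernel)
               (CovZ.leaf K2_ok TF_l1283 _)
               (CovZ.leaf K2_ok TF_l1284 _)))))
           (CovZ.n1 (-480, 320) (by decide +kernel)
            (CovZ.n2 (-400, 240) (by decide +kernel)
             (CovZ.leaf K2_ok TF_l1285 _)
             (CovZ.leaf K2_ok TF_l1286 _))
            (CovZ.subM 166153499483390504038243565903806464 (by decide +kernel)
             (CovZ.n1 (-560, 240) (by decide +kernel)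
              (CovZ.n2 (-560, 320) (by decide +kernel)
               (CovZ.leaf K2_ok TF_l1287 _)
               (CovZ.leaf K2_ok TF_l1288 _))
              (CovZ.n1 (-480, 240) (by decide +kernel)
               (CovZ.leaf K2_ok TF_l1289 _)
               (CovZ.leaf K2_ok TF_l1290 _))))))))

theorem TF_u59 : CovZ TF_M (toL (selN TF_LN 1095617005130139787416616976836815771236832981)) [0, 7, 4, 3] (0, 2560) (-1280, 1280) (0, 0) :=
    (CovZ.n2 (0, 1280) (by decide +kernel)
     (CovZ.n2 (-640, 640) (by decide +kernel)
      TF_u53
      TF_u54)
     (CovZ.n1 (-640, 1920) (by decide +kernel)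
      (CovZ.n2 (0, 1920) (by decide +kernel)
       (CovZ.subM 379118112892891328423337359973295128622404753 (by decide +kernel)
        (CovZ.n2 (-320, 1600) (by decide +kernel)
         (CovZ.n2 (-320, 1920) (by decide +kernel)
          (CovZ.n2 (-160, 1760) (by decide +kernel)
           (CovZ.leaf K2_ok TF_l1184 _)
           (CovZ.n1 (-160, 1920) (by decide +kernel)
            (CovZ.leaf K2_ok TF_l1185 _)
            (CovZ.leaf K2_ok TF_l1186 _)))
          (CovZ.n1 (-480, 1760) (by decide +kernel)
           (CovZ.n2 (-480, 1920) (by decide +kernel)
            (CovZ.n2 (-400, 1840) (by decide +kernel)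
             (CovZ.leaf K2_ok TF_l1187 _)
             (CovZ.n1 (-400, 1920) (by decide +kernel)
              (CovZ.leaf K2_ok TF_l1188 _)
              (CovZ.leaf K2_ok TF_l1189 _)))
            (CovZ.subM 1199038364791255073936 (by decide +kernel)
             (CovZ.n1 (-560, 1840) (by decide +kernel)
              (CovZ.n2 (-560, 1920) (by decide +kernel)
               (CovZ.n2 (-520, 1880) (by decide +kernel)
                (CovZ.leaf K2_ok TF_l1190 _)
                (CovZ.leaf K2_ok TF_l1191 _))
               (CovZ.subM 1180591620717411303552 (by decide +kernel)
                (CovZ.n1 (-600, 1880) (by decide +kernel)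
                 (CovZ.n2 (-600, 1920) (by decide +kernel)
                  (CovZ.leaf K2_ok TF_l10223 _)
                  (CovZ.n1 (-620, 1900) (by decide +kernel)
                   (CovZ.n2 (-620, 1920) (by decide +kernel)
                    (CovZ.leaf K2_ok TF_l10224 _)
                    (CovZ.badM (by decide +kernel)))
                   (CovZ.leaf K2_ok TF_l10225 _)))
                 (CovZ.n1 (-560, 1880) (by decide +kernel)
                  (CovZ.n2 (-580, 1860) (by decide +kernel)
                   (CovZ.leaf K2_ok TF_l10226 _)
                   (CovZ.leaf K2_ok TF_l10227 _))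
                  (CovZ.leaf K2_ok TF_l10228 _)))))
              (CovZ.n1 (-480, 1840) (by decide +kernel)
               (CovZ.n2 (-520, 1800) (by decide +kernel)
                (CovZ.n2 (-520, 1840) (by decide +kernel)
                 (CovZ.leaf K2_ok TF_l1192 _)
                 (CovZ.leaf K2_ok TF_l1193 _))
                (CovZ.leaf K2_ok TF_l1194 _))
               (CovZ.n1 (-520, 1880) (by decide +kernel)
                (CovZ.leaf K2_ok TF_l1195 _)
                (CovZ.leaf K2_ok TF_l1196 _))))))
           (CovZ.n1 (-320, 1760) (by decide +kernel)
            (CovZ.n2 (-400, 1680) (by decide +kernel)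
             (CovZ.n2 (-400, 1760) (by decide +kernel)
              (CovZ.leaf K2_ok TF_l1197 _)
              (CovZ.leaf K2_ok TF_l1198 _))
             (CovZ.leaf K2_ok TF_l1199 _))
            (CovZ.n1 (-400, 1840) (by decide +kernel)
             (CovZ.leaf K2_ok TF_l1200 _)
             (CovZ.leaf K2_ok TF_l1201 _)))))
         (CovZ.n1 (0, 1600) (by decide +kernel)
          (CovZ.n2 (-160, 1440) (by decide +kernel)
           (CovZ.n2 (-160, 1600) (by decide +kernel)
            (CovZ.leaf K2_ok TF_l1202 _)
            (CovZ.leaf K2_ok TF_l1203 _))
           (CovZ.leaf K2_ok TF_l1204 _))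
          (CovZ.n1 (-160, 1760) (by decide +kernel)
           (CovZ.leaf K2_ok TF_l1205 _)
           (CovZ.leaf K2_ok TF_l1206 _)))))
       (CovZ.subM 1092829411814169960039297394416446314343830737 (by decide +kernel)
        (CovZ.n1 (-320, 2240) (by decide +kernel)
         (CovZ.n2 (0, 2240) (by decide +kernel)
          (CovZ.n2 (-160, 2080) (by decide +kernel)
           (CovZ.n2 (-160, 2240) (by decide +kernel)
            (CovZ.leaf K2_ok TF_l1207 _)
            (CovZ.leaf K2_ok TF_l1208 _))
           (CovZ.leaf K2_ok TF_l1209 _))
          (CovZ.n1 (-160, 2400) (by decide +kernel)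
           (CovZ.leaf K2_ok TF_l1210 _)
           (CovZ.leaf K2_ok TF_l1211 _)))
         (CovZ.n1 (-320, 1920) (by decide +kernel)
          (CovZ.n2 (-480, 2080) (by decide +kernel)
           (CovZ.n2 (-320, 2080) (by decide +kernel)
            (CovZ.n2 (-400, 2000) (by decide +kernel)
             (CovZ.leaf K2_ok TF_l1212 _)
             (CovZ.leaf K2_ok TF_l1213 _))
            (CovZ.n1 (-400, 2160) (by decide +kernel)
             (CovZ.leaf K2_ok TF_l1214 _)
             (CovZ.leaf K2_ok TF_l1215 _)))
           (CovZ.subM 356817367694360705279988105394457483910845585 (by decide +kernel)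
            (CovZ.n1 (-480, 1920) (by decide +kernel)
             (CovZ.subM 356811923176489970264572691400738575350760592 (by decide +kernel)
              (CovZ.n2 (-560, 2000) (by decide +kernel)
               (CovZ.n2 (-480, 2000) (by decide +kernel)
                (CovZ.n2 (-520, 1960) (by decide +kernel)
                 (CovZ.leaf K2_ok TF_l1216 _)
                 (CovZ.leaf K2_ok TF_l1217 _))
                (CovZ.leaf K2_ok TF_l1218 _))
               (CovZ.n1 (-560, 1920) (by decide +kernel)
                (CovZ.subM 1180591620717411303552 (by decide +kernel)
                 (CovZ.n2 (-600, 1960) (by decide +kernel)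
                  (CovZ.n2 (-560, 1960) (by decide +kernel)
                   (CovZ.leaf K2_ok TF_l10229 _)
                   (CovZ.leaf K2_ok TF_l1219 _))
                  (CovZ.n1 (-600, 1920) (by decide +kernel)
                   (CovZ.n2 (-620, 1940) (by decide +kernel)
                    (CovZ.leaf K2_ok TF_l10230 _)
                    (CovZ.leaf K2_ok TF_l10231 _))
                   (CovZ.leaf K2_ok TF_l10232 _))))
                (CovZ.leaf K2_ok TF_l1220 _))))
             (CovZ.leaf K2_ok TF_l1221 _))))
          (CovZ.leaf K2_ok TF_l1222 _)))))
      (CovZ.subM 5444517870735026901555895190016418387089 (by decide +kernel)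
       (CovZ.n1 (-640, 1280) (by decide +kernel)
        (CovZ.n2 (-960, 1600) (by decide +kernel)
         (CovZ.n2 (-640, 1600) (by decide +kernel)
          (CovZ.badM (by decide +kernel))
          (CovZ.badM (by decide +kernel)))
         (CovZ.badM (by decide +kernel)))
        (CovZ.n1 (-320, 1600) (by decide +kernel)
         (CovZ.n2 (-320, 1280) (by decide +kernel)
          (CovZ.n2 (-480, 1440) (by decide +kernel)
           (CovZ.n2 (-320, 1440) (by decide +kernel)
            (CovZ.n2 (-400, 1360) (by decide +kernel)
             (CovZ.n2 (-400, 1440) (by decide +kernel)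
              (CovZ.leaf K2_ok TF_l1223 _)
              (CovZ.n1 (-440, 1400) (by decide +kernel)
               (CovZ.leaf K2_ok TF_l1224 _)
               (CovZ.leaf K2_ok TF_l1225 _)))
             (CovZ.n1 (-320, 1360) (by decide +kernel)
              (CovZ.leaf K2_ok TF_l1226 _)
              (CovZ.leaf K2_ok TF_l1227 _)))
            (CovZ.subM 18447307024065893504 (by decide +kernel)
             (CovZ.n1 (-400, 1520) (by decide +kernel)
              (CovZ.leaf K2_ok TF_l1228 _)
              (CovZ.n1 (-400, 1440) (by decide +kernel)
               (CovZ.n2 (-440, 1480) (by decide +kernel)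
                (CovZ.leaf K2_ok TF_l1229 _)
                (CovZ.leaf K2_ok TF_l1230 _))
               (CovZ.leaf K2_ok TF_l1231 _)))))
           (CovZ.n1 (-480, 1280) (by decide +kernel)
            (CovZ.subM 18447307024065627264 (by decide +kernel)
             (CovZ.n2 (-560, 1360) (by decide +kernel)
              (CovZ.n2 (-480, 1360) (by decide +kernel)
               (CovZ.n2 (-520, 1320) (by decide +kernel)
                (CovZ.n2 (-520, 1360) (by decide +kernel)
                 (CovZ.n2 (-500, 1340) (by decide +kernel)
                  (CovZ.leaf K2_ok TF_l10233 _)
                  (CovZ.leaf K2_ok TF_l10234 _))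
                 (CovZ.subM 562949953421440 (by decide +kernel)
                  (CovZ.n1 (-540, 1340) (by decide +kernel)
                   (CovZ.n2 (-540, 1360) (by decide +kernel)
                    (CovZ.leaf K2_ok TF_l10235 _)
                    (CovZ.badM (by decide +kernel)))
                   (CovZ.n1 (-520, 1340) (by decide +kernel)
                    (CovZ.leaf K2_ok TF_l10236 _)
                    (CovZ.leaf K2_ok TF_l10237 _)))))
                (CovZ.n1 (-480, 1320) (by decide +kernel)
                 (CovZ.n2 (-500, 1300) (by decide +kernel)
                  (CovZ.n2 (-500, 1320) (by decide +kernel)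
                   (CovZ.leaf K2_ok TF_l10238 _)
                   (CovZ.leaf K2_ok TF_l10239 _))
                  (CovZ.leaf K2_ok TF_l10240 _))
                 (CovZ.n1 (-500, 1340) (by decide +kernel)
                  (CovZ.leaf K2_ok TF_l10241 _)
                  (CovZ.leaf K2_ok TF_l10242 _))))
               (CovZ.n1 (-520, 1400) (by decide +kernel)
                (CovZ.n2 (-480, 1400) (by decide +kernel)
                 (CovZ.n2 (-500, 1380) (by decide +kernel)
                  (CovZ.leaf K2_ok TF_l10243 _)
                  (CovZ.leaf K2_ok TF_l10244 _))
                 (CovZ.leaf K2_ok TF_l10245 _))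
                (CovZ.n1 (-520, 1360) (by decide +kernel)
                 (CovZ.n2 (-540, 1380) (by decide +kernel)
                  (CovZ.leaf K2_ok TF_l10246 _)
                  (CovZ.n1 (-540, 1360) (by decide +kernel)
                   (CovZ.badM (by decide +kernel))
                   (CovZ.leaf K2_ok TF_l10247 _)))
                 (CovZ.leaf K2_ok TF_l10248 _))))
              (CovZ.n1 (-560, 1280) (by decide +kernel)
               (CovZ.badM (by decide +kernel))
               (CovZ.n1 (-520, 1320) (by decide +kernel)
                (CovZ.n2 (-520, 1280) (by decide +kernel)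
                 (CovZ.badM (by decide +kernel))
                 (CovZ.leaf K2_ok TF_l10249 _))
                (CovZ.badM (by decide +kernel))))))
            (CovZ.n1 (-400, 1360) (by decide +kernel)
             (CovZ.n2 (-400, 1280) (by decide +kernel)
              (CovZ.n2 (-440, 1320) (by decide +kernel)
               (CovZ.leaf K2_ok TF_l1232 _)
               (CovZ.leaf K2_ok TF_l1233 _))
              (CovZ.leaf K2_ok TF_l1234 _))
             (CovZ.n1 (-480, 1360) (by decide +kernel)
              (CovZ.leaf K2_ok TF_l1235 _)
              (CovZ.n1 (-440, 1320) (by decide +kernel)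
               (CovZ.leaf K2_ok TF_l1236 _)
               (CovZ.leaf K2_ok TF_l1237 _))))))
          (CovZ.n1 (-160, 1440) (by decide +kernel)
           (CovZ.n2 (-160, 1280) (by decide +kernel)
            (CovZ.n2 (-240, 1360) (by decide +kernel)
             (CovZ.leaf K2_ok TF_l1238 _)
             (CovZ.leaf K2_ok TF_l1239 _))
            (CovZ.leaf K2_ok TF_l1240 _))
           (CovZ.n1 (-320, 1440) (by decide +kernel)
            (CovZ.leaf K2_ok TF_l1241 _)
            (CovZ.n1 (-240, 1360) (by decide +kernel)
             (CovZ.leaf K2_ok TF_l1242 _)
             (CovZ.leaf K2_ok TF_l1243 _)))))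
         (CovZ.subM 1199038927741477196944 (by decide +kernel)
          (CovZ.n1 (-640, 1600) (by decide +kernel)
           TF_u55
           TF_u56)))))))

theorem TF_u60 : CovZ TF_M (toL (selN TF_LN 1095617005130139787416616976836815771236832981)) [0, 7, 4, 3] (-1280, 1280) (-2560, 0) (0, 0) :=
    (CovZ.subM 166153499483409413104403607114224260 (by decide +kernel)
     (CovZ.n1 (-1280, 0) (by decide +kernel)
      (CovZ.subM 34359738880 (by decide +kernel)
       (CovZ.n2 (-1920, 640) (by decide +kernel)
        (CovZ.n2 (-1280, 640) (by decide +kernel)
         (CovZ.n2 (-1600, 320) (by decide +kernel)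
          (CovZ.badM (by decide +kernel))
          (CovZ.n1 (-1280, 320) (by decide +kernel)
           (CovZ.badM (by decide +kernel))
           (CovZ.n1 (-1440, 480) (by decide +kernel)
            (CovZ.n2 (-1280, 480) (by decide +kernel)
             (CovZ.badM (by decide +kernel))
             (CovZ.badM (by decide +kernel)))
            (CovZ.badM (by decide +kernel)))))
         (CovZ.n1 (-1600, 960) (by decide +kernel)
          (CovZ.n2 (-1280, 960) (by decide +kernel)
           (CovZ.badM (by decide +kernel))
           (CovZ.badM (by decide +kernel)))
          (CovZ.badM (by decide +kernel))))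
        (CovZ.n1 (-1920, 0) (by decide +kernel)
         (CovZ.n2 (-2240, 320) (by decide +kernel)
          (CovZ.n2 (-1920, 320) (by decide +kernel)
           (CovZ.badM (by decide +kernel))
           (CovZ.badM (by decide +kernel)))
          (CovZ.badM (by decide +kernel)))
         (CovZ.n1 (-1600, 320) (by decide +kernel)
          (CovZ.badM (by decide +kernel))
          (CovZ.n1 (-1920, 320) (by decide +kernel)
           (CovZ.badM (by decide +kernel))
           (CovZ.badM (by decide +kernel)))))))
      (CovZ.n1 (-640, 640) (by decide +kernel)
       (CovZ.n2 (-640, 0) (by decide +kernel)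
        TF_u57
        TF_u58)
       (CovZ.subM 34359738880 (by decide +kernel)
        (CovZ.n1 (-1280, 640) (by decide +kernel)
         (CovZ.n2 (-960, 960) (by decide +kernel)
          (CovZ.badM (by decide +kernel))
          (CovZ.n1 (-1280, 960) (by decide +kernel)
           (CovZ.badM (by decide +kernel))
           (CovZ.badM (by decide +kernel))))
         (CovZ.n1 (-960, 320) (by decide +kernel)
          (CovZ.n2 (-1280, 320) (by decide +kernel)
           (CovZ.n2 (-1120, 480) (by decide +kernel)
            (CovZ.badM (by decide +kernel))
            (CovZ.n1 (-1280, 480) (by decide +kernel)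
             (CovZ.badM (by decide +kernel))
             (CovZ.badM (by decide +kernel))))
           (CovZ.badM (by decide +kernel)))
          (CovZ.n1 (-960, 640) (by decide +kernel)
           (CovZ.n2 (-800, 480) (by decide +kernel)
            (CovZ.n2 (-960, 480) (by decide +kernel)
             (CovZ.badM (by decide +kernel))
             (CovZ.badM (by decide +kernel)))
            (CovZ.badM (by decide +kernel)))
           (CovZ.n1 (-1120, 480) (by decide +kernel)
            (CovZ.badM (by decide +kernel))
            (CovZ.n1 (-960, 480) (by decide +kernel)
             (CovZ.badM (by decide +kernel))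
             (CovZ.badM (by decide +kernel)))))))))))

end Pool.Agent.TET
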