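import Pool.Agent.Helper38_TET.CovN

/-!
# MP_c7c9bf_co: certificates, family TG
-/

set_option autoImplicit false
set_option maxRecDepth 100000

namespace Pool.Agent.TET

/-- the polygons -/
def TG_L : List (List Z3) :=
  [[⟨2088960, 0, 25000⟩, ⟨-2304000, 0, -31120⟩, ⟨-22149120, -32080, 0⟩, ⟨17602560, 23880, 11640⟩, ⟨37294080, 47760, 48280⟩],
   [⟨675840, 0, 8000⟩, ⟨-614400, 0, -8000⟩, ⟨-6881280, -10000, 0⟩, ⟨17479680, 23360, 14600⟩, ⟨18155520, 23360, 22600⟩],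
   [⟨1320960, 0, 16000⟩, ⟨-1812480, 0, -25240⟩, ⟨-6881280, -10000, 0⟩, ⟨20643840, 28120, 12520⟩, ⟨21964800, 28120, 28520⟩]]

/-- the polygons in natural numbers -/
def TG_LN : List (List N6) :=
  [[⟨0, 0, 25000, 0, 0, 3274711040⟩, ⟨0, 0, 0, 31120, 4076656640, 0⟩, ⟨0, 32080, 0, 0, 4182640640, 0⟩, ⟨23880, 0, 11640, 0, 0, 4638074880⟩, ⟨47760, 0, 48280, 0, 0, 12550860800⟩],
   [⟨0, 0, 8000, 0, 0, 1047900160⟩, ⟨0, 0, 0, 8000, 1047961600, 0⟩, ⟨0, 10000, 0, 0, 1303838720, 0⟩, ⟨23360, 0, 14600, 0, 0, 4958013440⟩, ⟨23360, 0, 22600, 0, 0, 6005913600⟩],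
   [⟨0, 0, 16000, 0, 0, 2095831040⟩, ⟨0, 0, 0, 25240, 3306444800, 0⟩, ⟨0, 10000, 0, 0, 1303838720, 0⟩, ⟨28120, 0, 12520, 0, 0, 5306122240⟩, ⟨28120, 0, 28520, 0, 0, 7401953280⟩]]

theorem TG_LL : toL TG_LN = TG_L := eqLL_eq (by decide +kernel)

end Pool.Agent.TET
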