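import Pool.Agent.Helper38_TET.TG_M
import Pool.Agent.Helper38_TET.TG_L
import Pool.Agent.Helper38_TET.TG_0

/-!
# MP_c7c9bf_co: certificates, family TG
-/

set_option autoImplicit false
set_option maxRecDepth 100000

namespace Pool.Agent.TET

theorem TG_s0_0 : SqZ TG_M TG_L [0, 7, 4, 3] (-736) (-96) 32 0 0 :=
  SqZ.mk (a := (-736)) (b := (-704)) (c := (-96)) (d := (-64)) (by norm_num) (by norm_num) (by norm_num) (by norm_num)
    (CovZ.topM TG_LL 7 (by decide +kernel) (CovZ.n2 (-720, -80) (by decide +kernel)
    (CovZ.n2 (-704, -80) (by decide +kernel)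
     (CovZ.badM (by decide +kernel))
     (CovZ.n1 (-712, -72) (by decide +kernel)
      (CovZ.n2 (-704, -72) (by decide +kernel)
       (CovZ.badM (by decide +kernel))
       (CovZ.n1 (-708, -68) (by decide +kernel)
        (CovZ.n2 (-704, -68) (by decide +kernel)
         (CovZ.badM (by decide +kernel))
         (CovZ.badM (by decide +kernel)))
        (CovZ.badM (by decide +kernel))))
      (CovZ.badM (by decide +kernel))))
    (CovZ.badM (by decide +kernel))))
    (CovZ.topM TG_LL 7 (by decide +kernel) (CovZ.n0 (-720, -80) (by decide +kernel)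
    (CovZ.badM (by decide +kernel))
    (CovZ.n1 (-720, -64) (by decide +kernel)
     (CovZ.n2 (-712, -72) (by decide +kernel)
      (CovZ.badM (by decide +kernel))
      (CovZ.n1 (-712, -64) (by decide +kernel)
       (CovZ.n2 (-708, -68) (by decide +kernel)
        (CovZ.badM (by decide +kernel))
        (CovZ.badM (by decide +kernel)))
       (CovZ.badM (by decide +kernel))))
     (CovZ.badM (by decide +kernel)))))

theorem TG_s1_0 : SqZ TG_M TG_L [0, 7, 4, 3] (-736) (-96) 32 1 0 :=
  SqZ.mk (a := (-704)) (b := (-672)) (c := (-96)) (d := (-64)) (by norm_num) (by norm_num) (by norm_num) (by norm_num)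
    (CovZ.topM TG_LL 7 (by decide +kernel) (CovZ.n2 (-688, -80) (by decide +kernel)
    (CovZ.badM (by decide +kernel))
    (CovZ.n1 (-688, -96) (by decide +kernel)
     (CovZ.n2 (-696, -88) (by decide +kernel)
      (CovZ.n2 (-688, -88) (by decide +kernel)
       (CovZ.badM (by decide +kernel))
       (CovZ.n1 (-692, -84) (by decide +kernel)
        (CovZ.n2 (-688, -84) (by decide +kernel)
         (CovZ.leaf K2_ok TG_l0 _)
         (CovZ.n1 (-690, -82) (by decide +kernel)
          (CovZ.leaf K2_ok TG_l1 _)
          (CovZ.leaf K2_ok TG_l2 _)))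
        (CovZ.n1 (-692, -88) (by decide +kernel)
         (CovZ.n2 (-694, -86) (by decide +kernel)
          (CovZ.n2 (-692, -86) (by decide +kernel)
           (CovZ.badM (by decide +kernel))
           (CovZ.n1 (-693, -85) (by decide +kernel)
            (CovZ.leaf K2_ok TG_l3 _)
            (CovZ.badM (by decide +kernel))))
          (CovZ.badM (by decide +kernel)))
         (CovZ.n1 (-690, -86) (by decide +kernel)
          (CovZ.badM (by decide +kernel))
          (CovZ.n1 (-692, -86) (by decide +kernel)
           (CovZ.leaf K2_ok TG_l4 _)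
           (CovZ.badM (by decide +kernel)))))))
      (CovZ.badM (by decide +kernel)))
     (CovZ.badM (by decide +kernel)))))
    (CovZ.topM TG_LL 7 (by decide +kernel) (CovZ.n0 (-688, -80) (by decide +kernel)
    (CovZ.n2 (-704, -80) (by decide +kernel)
     (CovZ.n2 (-696, -72) (by decide +kernel)
      (CovZ.n2 (-696, -80) (by decide +kernel)
       (CovZ.n2 (-700, -76) (by decide +kernel)
        (CovZ.n2 (-696, -76) (by decide +kernel)
         (CovZ.leaf K2_ok TG_l5 _)
         (CovZ.n1 (-698, -74) (by decide +kernel)
          (CovZ.leaf K2_ok TG_l6 _)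
          (CovZ.n1 (-698, -76) (by decide +kernel)
           (CovZ.leaf K2_ok TG_l7 _)
           (CovZ.leaf K2_ok TG_l8 _))))
        (CovZ.n1 (-700, -80) (by decide +kernel)
         (CovZ.n2 (-702, -78) (by decide +kernel)
          (CovZ.n2 (-700, -78) (by decide +kernel)
           (CovZ.badM (by decide +kernel))
           (CovZ.n1 (-701, -77) (by decide +kernel)
            (CovZ.leaf K2_ok TG_l9 _)
            (CovZ.badM (by decide +kernel))))
          (CovZ.badM (by decide +kernel)))
         (CovZ.n1 (-698, -78) (by decide +kernel)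
          (CovZ.n2 (-698, -80) (by decide +kernel)
           (CovZ.n2 (-699, -79) (by decide +kernel)
            (CovZ.leaf K2_ok TG_l10 _)
            (CovZ.n1 (-699, -80) (by decide +kernel)
             (CovZ.badM (by decide +kernel))
             (CovZ.leaf K2_ok TG_l11 _)))
           (CovZ.leaf K2_ok TG_l12 _))
          (CovZ.n1 (-700, -78) (by decide +kernel)
           (CovZ.n2 (-699, -77) (by decide +kernel)
            (CovZ.leaf K2_ok TG_l13 _)
            (CovZ.leaf K2_ok TG_l14 _))
           (CovZ.n1 (-699, -79) (by decide +kernel)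
            (CovZ.badM (by decide +kernel))
            (CovZ.leaf K2_ok TG_l15 _))))))
       (CovZ.n1 (-692, -76) (by decide +kernel)
        (CovZ.n2 (-692, -80) (by decide +kernel)
         (CovZ.n2 (-694, -78) (by decide +kernel)
          (CovZ.leaf K2_ok TG_l16 _)
          (CovZ.leaf K2_ok TG_l17 _))
         (CovZ.leaf K2_ok TG_l18 _))
        (CovZ.n1 (-696, -76) (by decide +kernel)
         (CovZ.leaf K2_ok TG_l19 _)
         (CovZ.n1 (-694, -78) (by decide +kernel)
          (CovZ.leaf K2_ok TG_l20 _)
          (CovZ.leaf K2_ok TG_l21 _)))))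
      (CovZ.n1 (-704, -72) (by decide +kernel)
       (CovZ.n2 (-700, -68) (by decide +kernel)
        (CovZ.n2 (-700, -72) (by decide +kernel)
         (CovZ.n2 (-702, -70) (by decide +kernel)
          (CovZ.leaf K2_ok TG_l22 _)
          (CovZ.n1 (-702, -72) (by decide +kernel)
           (CovZ.leaf K2_ok TG_l23 _)
           (CovZ.leaf K2_ok TG_l24 _)))
         (CovZ.leaf K2_ok TG_l25 _))
        (CovZ.n1 (-704, -68) (by decide +kernel)
         (CovZ.badM (by decide +kernel))
         (CovZ.n1 (-702, -70) (by decide +kernel)
          (CovZ.n2 (-704, -70) (by decide +kernel)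
           (CovZ.badM (by decide +kernel))
           (CovZ.leaf K2_ok TG_l26 _))
          (CovZ.badM (by decide +kernel)))))
       (CovZ.n1 (-700, -76) (by decide +kernel)
        (CovZ.n2 (-704, -76) (by decide +kernel)
         (CovZ.n2 (-702, -74) (by decide +kernel)
          (CovZ.n2 (-702, -76) (by decide +kernel)
           (CovZ.badM (by decide +kernel))
           (CovZ.n1 (-701, -75) (by decide +kernel)
            (CovZ.leaf K2_ok TG_l27 _)
            (CovZ.badM (by decide +kernel))))
          (CovZ.badM (by decide +kernel)))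
         (CovZ.n1 (-702, -78) (by decide +kernel)
          (CovZ.badM (by decide +kernel))
          (CovZ.n1 (-702, -76) (by decide +kernel)
           (CovZ.n2 (-701, -77) (by decide +kernel)
            (CovZ.badM (by decide +kernel))
            (CovZ.leaf K2_ok TG_l28 _))
           (CovZ.badM (by decide +kernel)))))
        (CovZ.n1 (-700, -72) (by decide +kernel)
         (CovZ.n2 (-698, -74) (by decide +kernel)
          (CovZ.n2 (-700, -74) (by decide +kernel)
           (CovZ.leaf K2_ok TG_l29 _)
           (CovZ.leaf K2_ok TG_l30 _))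
          (CovZ.leaf K2_ok TG_l31 _))
         (CovZ.leaf K2_ok TG_l32 _)))))
     (CovZ.n1 (-696, -88) (by decide +kernel)
      (CovZ.badM (by decide +kernel))
      (CovZ.n1 (-696, -80) (by decide +kernel)
       (CovZ.n2 (-692, -84) (by decide +kernel)
        (CovZ.n2 (-696, -84) (by decide +kernel)
         (CovZ.n2 (-694, -82) (by decide +kernel)
          (CovZ.n2 (-694, -84) (by decide +kernel)
           (CovZ.n2 (-695, -83) (by decide +kernel)
            (CovZ.leaf K2_ok TG_l33 _)
            (CovZ.n1 (-695, -84) (by decide +kernel)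
             (CovZ.leaf K2_ok TG_l34 _)
             (CovZ.leaf K2_ok TG_l35 _)))
           (CovZ.leaf K2_ok TG_l36 _))
          (CovZ.n1 (-696, -82) (by decide +kernel)
           (CovZ.leaf K2_ok TG_l37 _)
           (CovZ.n1 (-695, -83) (by decide +kernel)
            (CovZ.n2 (-696, -83) (by decide +kernel)
             (CovZ.leaf K2_ok TG_l38 _)
             (CovZ.leaf K2_ok TG_l39 _))
            (CovZ.leaf K2_ok TG_l40 _))))
         (CovZ.n1 (-694, -86) (by decide +kernel)
          (CovZ.n2 (-696, -86) (by decide +kernel)
           (CovZ.n2 (-695, -85) (by decide +kernel)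
            (CovZ.badM (by decide +kernel))
            (CovZ.badM (by decide +kernel)))
           (CovZ.badM (by decide +kernel)))
          (CovZ.n1 (-694, -84) (by decide +kernel)
           (CovZ.n2 (-693, -85) (by decide +kernel)
            (CovZ.n2 (-694, -85) (by decide +kernel)
             (CovZ.leaf K2_ok TG_l41 _)
             (CovZ.badM (by decide +kernel)))
            (CovZ.leaf K2_ok TG_l42 _))
           (CovZ.leaf K2_ok TG_l43 _))))
        (CovZ.n1 (-692, -80) (by decide +kernel)
         (CovZ.n2 (-690, -82) (by decide +kernel)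
          (CovZ.leaf K2_ok TG_l44 _)
          (CovZ.leaf K2_ok TG_l45 _))
         (CovZ.leaf K2_ok TG_l46 _)))
       (CovZ.n1 (-700, -84) (by decide +kernel)
        (CovZ.n2 (-700, -80) (by decide +kernel)
         (CovZ.n2 (-698, -82) (by decide +kernel)
          (CovZ.badM (by decide +kernel))
          (CovZ.n1 (-698, -80) (by decide +kernel)
           (CovZ.n2 (-697, -81) (by decide +kernel)
            (CovZ.n2 (-698, -81) (by decide +kernel)
             (CovZ.leaf K2_ok TG_l47 _)
             (CovZ.leaf K2_ok TG_l48 _))
            (CovZ.leaf K2_ok TG_l49 _))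
           (CovZ.n1 (-699, -81) (by decide +kernel)
            (CovZ.leaf K2_ok TG_l50 _)
            (CovZ.n1 (-698, -81) (by decide +kernel)
             (CovZ.leaf K2_ok TG_l51 _)
             (CovZ.leaf K2_ok TG_l52 _)))))
         (CovZ.badM (by decide +kernel)))
        (CovZ.n1 (-696, -84) (by decide +kernel)
         (CovZ.badM (by decide +kernel))
         (CovZ.n1 (-698, -82) (by decide +kernel)
          (CovZ.n2 (-696, -82) (by decide +kernel)
           (CovZ.leaf K2_ok TG_l53 _)
           (CovZ.n1 (-697, -81) (by decide +kernel)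
            (CovZ.leaf K2_ok TG_l54 _)
            (CovZ.n1 (-697, -82) (by decide +kernel)
             (CovZ.leaf K2_ok TG_l55 _)
             (CovZ.leaf K2_ok TG_l56 _))))
          (CovZ.badM (by decide +kernel))))))))
    (CovZ.n1 (-688, -64) (by decide +kernel)
     (CovZ.badM (by decide +kernel))
     (CovZ.n1 (-696, -72) (by decide +kernel)
      (CovZ.n2 (-696, -64) (by decide +kernel)
       (CovZ.n2 (-692, -68) (by decide +kernel)
        (CovZ.n2 (-696, -68) (by decide +kernel)
         (CovZ.badM (by decide +kernel))
         (CovZ.leaf K2_ok TG_l57 _))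
        (CovZ.badM (by decide +kernel)))
       (CovZ.leaf K2_ok TG_l58 _))
      (CovZ.n1 (-688, -72) (by decide +kernel)
       (CovZ.leaf K2_ok TG_l59 _)
       (CovZ.n1 (-692, -68) (by decide +kernel)
        (CovZ.n2 (-688, -68) (by decide +kernel)
         (CovZ.n2 (-690, -70) (by decide +kernel)
          (CovZ.badM (by decide +kernel))
          (CovZ.n1 (-688, -70) (by decide +kernel)
           (CovZ.leaf K2_ok TG_l60 _)
           (CovZ.badM (by decide +kernel))))
         (CovZ.badM (by decide +kernel)))
        (CovZ.n1 (-692, -72) (by decide +kernel)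
         (CovZ.leaf K2_ok TG_l61 _)
         (CovZ.n1 (-690, -70) (by decide +kernel)
          (CovZ.leaf K2_ok TG_l62 _)
          (CovZ.leaf K2_ok TG_l63 _)))))))))

end Pool.Agent.TET
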