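import Pool.Agent.Helper38_TET.RegS
import Pool.Agent.Helper38_TET.TG_S0

/-!
# MP_c7c9bf_co: certificates, family TG
-/

set_option autoImplicit false
set_option maxRecDepth 100000

namespace Pool.Agent.TET

theorem TG_r0 : ∀ i < 2, SqZ TG_M TG_L [0, 7, 4, 3] (-736) (-96) 32 i 0
  | 0, _ => TG_s0_0
  | 1, _ => TG_s1_0
  | n + 2, h => absurd h (by omega)

theorem TG_rows : ∀ j < 1, ∀ i < 2, SqZ TG_M TG_L [0, 7, 4, 3] (-736) (-96) 32 i j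
  | 0, _ => TG_r0
  | n + 1, h => absurd h (by omega)

theorem TG_cov (X Y : ℝ) (h1 : ((-736 : ℤ) : ℝ) ≤ X) (h2 : X ≤ (-672 : ℤ)) (h3 : ((-96 : ℤ) : ℝ) ≤ Y)
    (h4 : Y ≤ (-64 : ℤ)) : Out TG_L X Y ∨ GoodV [0, 7, 4, 3] (TG_M.v X Y) := by
  push_cast at h1 h2 h3 h4
  refine gridZ (by norm_num) (by norm_num) (by norm_num) TG_rows ?_ ?_ ?_ ?_ <;> push_cast <;> linarith

theorem TG_sc : ∀ a : Fin 3, (![1, 1, 1] : Fin 3 → ℝ) a ≠ 0 := by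
  intro a
  fin_cases a <;> simp

theorem TG_fr (x y : ℝ) : scl ![1, 1, 1] (VF ((((0 : ℤ) : ℝ) - ((0 : ℤ) : ℝ)) / ((40 : ℤ) : ℝ)) ((((1 : ℤ) : ℝ) - ((0 : ℤ) : ℝ)) / ((40 : ℤ) : ℝ)) ((((40 : ℤ) : ℝ) - ((0 : ℤ) : ℝ)) / ((40 : ℤ) : ℝ)) x y) =
    TG_M.v (30720 * x / (40 : ℤ)) (30720 * y / (40 : ℤ)) := by
  funext i j
  fin_cases i <;> fin_cases j <;> simp [scl, VF, FM.v, Z3.ev, TG_M] <;> ring

end Pool.Agent.TET
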