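import Pool.Agent.Helper38_TET.RegE
import Pool.Agent.Helper38_TET.TG_R0

/-!
# MP_c7c9bf_co: the regions of the family TG without the implied conditions
-/

set_option autoImplicit false
set_option maxRecDepth 100000

namespace Pool.Agent.TET

theorem TG_rg0 : ROK [.l ⟨0, 0, 25068, 2720⟩ ⟨0, 0, 1, 40⟩, .l ⟨0, 0, -31195, -3000⟩ ⟨0, 0, 1, 40⟩, .l ⟨0, -32080, -721, -28840⟩ ⟨0, 0, 1, 40⟩, .l ⟨0, 23880, 12213, 22920⟩ ⟨0, 0, 1, 40⟩] :=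
  ROK.drop_l (f := ⟨0, 0, 1, 40⟩) (m1 := ⟨0, 0, 25068, 2720⟩) (m2 := ⟨0, 23880, 12213, 22920⟩)
    (m := ⟨0, 47760, 49494, 48560⟩) (a := 1) (b := 2) (by decide) (by decide)
    (List.mem_of_getElem? (i := 0) rfl) (List.mem_of_getElem? (i := 3) rfl) rfl TG_rgx0

theorem TG_rg1 : ROK [.l ⟨0, 0, 8022, 880⟩ ⟨0, 0, 1, 40⟩, .l ⟨0, 0, -8020, -800⟩ ⟨0, 0, 1, 40⟩, .l ⟨0, -10000, -224, -8960⟩ ⟨0, 0, 1, 40⟩, .l ⟨0, 23360, 15169, 22760⟩ ⟨0, 0, 1, 40⟩] :=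
  ROK.drop_l (f := ⟨0, 0, 1, 40⟩) (m1 := ⟨0, 0, 8022, 880⟩) (m2 := ⟨0, 23360, 15169, 22760⟩)
    (m := ⟨0, 23360, 23191, 23640⟩) (a := 1) (b := 1) (by decide) (by decide)
    (List.mem_of_getElem? (i := 0) rfl) (List.mem_of_getElem? (i := 3) rfl) rfl TG_rgx1

theorem TG_rg2 : ROK [.l ⟨0, 0, 16043, 1720⟩ ⟨0, 0, 1, 40⟩, .l ⟨0, 0, -25299, -2360⟩ ⟨0, 0, 1, 40⟩, .l ⟨0, -10000, -224, -8960⟩ ⟨0, 0, 1, 40⟩, .l ⟨0, 28120, 13192, 26880⟩ ⟨0, 0, 1, 40⟩] :=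
  ROK.drop_l (f := ⟨0, 0, 1, 40⟩) (m1 := ⟨0, 0, 16043, 1720⟩) (m2 := ⟨0, 28120, 13192, 26880⟩)
    (m := ⟨0, 28120, 29235, 28600⟩) (a := 1) (b := 1) (by decide) (by decide)
    (List.mem_of_getElem? (i := 0) rfl) (List.mem_of_getElem? (i := 3) rfl) rfl TG_rgx2

end Pool.Agent.TET
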