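import Pool.Agent.Helper38_TET.TH_M
import Pool.Agent.Helper38_TET.TH_L
import Pool.Agent.Helper38_TET.TH_0
import Pool.Agent.Helper38_TET.TH_1
import Pool.Agent.Helper38_TET.TH_2
import Pool.Agent.Helper38_TET.TH_3
import Pool.Agent.Helper38_TET.TH_6
import Pool.Agent.Helper38_TET.TH_7
import Pool.Agent.Helper38_TET.TH_8
import Pool.Agent.Helper38_TET.TH_9
import Pool.Agent.Helper38_TET.TH_44
import Pool.Agent.Helper38_TET.TH_45
import Pool.Agent.Helper38_TET.TH_46
import Pool.Agent.Helper38_TET.TH_55

/-!
# MP_c7c9bf_co: certificates, family TH
-/

set_option autoImplicit false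
set_option maxRecDepth 100000

namespace Pool.Agent.TET

theorem TH_u0 : CovZ TH_M (toL (selN TH_LN 431415086924347769394276890760080916574264047636934210079432086896639)) [0, 7, 6, 1] (-46080, 41472) (-48384, 39168) (-46080, 36864) :=
    (CovZ.subM 431359305863729315112487906044232912071085922683228749965892137822059 (by decide +kernel)
     (CovZ.n2 (-46080, 39168) (by decide +kernel)
      (CovZ.n2 (-47232, 38016) (by decide +kernel)
       (CovZ.n2 (-47232, 39168) (by decide +kernel)
        (CovZ.subM 53131399728448817726831793866068770627559187635450055820321602 (by decide +kernel)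
         (CovZ.n2 (-46656, 38592) (by decide +kernel)
          (CovZ.n2 (-47232, 38592) (by decide +kernel)
           (CovZ.n2 (-46944, 38880) (by decide +kernel)
            (CovZ.n2 (-46944, 38592) (by decide +kernel)
             (CovZ.leaf K2_ok TH_l971 _)
             (CovZ.leaf K2_ok TH_l972 _))
            (CovZ.leaf K2_ok TH_l973 _))
           (CovZ.n1 (-46944, 38304) (by decide +kernel)
            (CovZ.leaf K2_ok TH_l974 _)
            (CovZ.n1 (-46944, 38592) (by decide +kernel)
             (CovZ.leaf K2_ok TH_l975 _)
             (CovZ.leaf K2_ok TH_l976 _))))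
          (CovZ.n1 (-46656, 39168) (by decide +kernel)
           (CovZ.n2 (-46368, 38880) (by decide +kernel)
            (CovZ.leaf K2_ok TH_l977 _)
            (CovZ.n1 (-46368, 39168) (by decide +kernel)
             (CovZ.leaf K2_ok TH_l978 _)
             (CovZ.leaf K2_ok TH_l979 _)))
           (CovZ.n1 (-46944, 38880) (by decide +kernel)
            (CovZ.n2 (-46944, 39168) (by decide +kernel)
             (CovZ.leaf K2_ok TH_l980 _)
             (CovZ.leaf K2_ok TH_l981 _))
            (CovZ.leaf K2_ok TH_l982 _)))))
        (CovZ.n1 (-47808, 38592) (by decide +kernel)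
         (CovZ.n2 (-47808, 39168) (by decide +kernel)
          (CovZ.n2 (-47520, 38880) (by decide +kernel)
           (CovZ.leaf K2_ok TH_l983 _)
           (CovZ.n1 (-47520, 39168) (by decide +kernel)
            (CovZ.leaf K2_ok TH_l984 _)
            (CovZ.leaf K2_ok TH_l985 _)))
          (CovZ.n1 (-48096, 38880) (by decide +kernel)
           (CovZ.n2 (-48096, 39168) (by decide +kernel)
            (CovZ.leaf K2_ok TH_l986 _)
            (CovZ.leaf K2_ok TH_l987 _))
           (CovZ.leaf K2_ok TH_l988 _)))
         (CovZ.n1 (-47232, 38592) (by decide +kernel)
          (CovZ.n2 (-47520, 38304) (by decide +kernel)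
           (CovZ.n2 (-47520, 38592) (by decide +kernel)
            (CovZ.leaf K2_ok TH_l989 _)
            (CovZ.leaf K2_ok TH_l990 _))
           (CovZ.leaf K2_ok TH_l991 _))
          (CovZ.n1 (-47520, 38880) (by decide +kernel)
           (CovZ.leaf K2_ok TH_l992 _)
           (CovZ.n1 (-47520, 38592) (by decide +kernel)
            (CovZ.leaf K2_ok TH_l993 _)
            (CovZ.leaf K2_ok TH_l994 _))))))
       (CovZ.subM 53131399728448817726831793866068770627559187635450055820321602 (by decide +kernel)
        (CovZ.n1 (-46080, 38016) (by decide +kernel)
         (CovZ.n2 (-46656, 37440) (by decide +kernel)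
          (CovZ.n2 (-46656, 38016) (by decide +kernel)
           (CovZ.n2 (-46368, 37728) (by decide +kernel)
            (CovZ.leaf K2_ok TH_l995 _)
            (CovZ.n1 (-46368, 38016) (by decide +kernel)
             (CovZ.leaf K2_ok TH_l996 _)
             (CovZ.leaf K2_ok TH_l997 _)))
           (CovZ.n1 (-46944, 37728) (by decide +kernel)
            (CovZ.n2 (-46944, 38016) (by decide +kernel)
             (CovZ.leaf K2_ok TH_l998 _)
             (CovZ.leaf K2_ok TH_l999 _))
            (CovZ.leaf K2_ok TH_l1000 _)))
          (CovZ.subM 1569281420181640954801347501257031525192041905138020385280 (by decide +kernel)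
           (CovZ.n1 (-46080, 37440) (by decide +kernel)
            (CovZ.n2 (-46368, 37152) (by decide +kernel)
             (CovZ.n2 (-46368, 37440) (by decide +kernel)
              (CovZ.leaf K2_ok TH_l1001 _)
              (CovZ.leaf K2_ok TH_l1002 _))
             (CovZ.n1 (-46080, 37152) (by decide +kernel)
              (CovZ.leaf K2_ok TH_l1003 _)
              (CovZ.leaf K2_ok TH_l1004 _)))
            (CovZ.n1 (-46368, 37728) (by decide +kernel)
             (CovZ.leaf K2_ok TH_l1005 _)
             (CovZ.n1 (-46368, 37440) (by decide +kernel)
              (CovZ.leaf K2_ok TH_l1006 _)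
              (CovZ.leaf K2_ok TH_l1007 _))))))
         (CovZ.n1 (-46656, 38592) (by decide +kernel)
          (CovZ.subM 1569281420181640954801513654756504639676154881020555428352 (by decide +kernel)
           (CovZ.n2 (-46080, 38592) (by decide +kernel)
            (CovZ.n2 (-46368, 38304) (by decide +kernel)
             (CovZ.n2 (-46368, 38592) (by decide +kernel)
              (CovZ.leaf K2_ok TH_l1008 _)
              (CovZ.leaf K2_ok TH_l1009 _))
             (CovZ.n1 (-46080, 38304) (by decide +kernel)
              (CovZ.leaf K2_ok TH_l1010 _)
              (CovZ.leaf K2_ok TH_l1011 _)))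
            (CovZ.n1 (-46368, 38880) (by decide +kernel)
             (CovZ.leaf K2_ok TH_l1012 _)
             (CovZ.n1 (-46368, 38592) (by decide +kernel)
              (CovZ.leaf K2_ok TH_l1013 _)
              (CovZ.leaf K2_ok TH_l1014 _)))))
          (CovZ.n1 (-46656, 38016) (by decide +kernel)
           (CovZ.n2 (-46944, 38304) (by decide +kernel)
            (CovZ.leaf K2_ok TH_l1015 _)
            (CovZ.n1 (-46944, 38016) (by decide +kernel)
             (CovZ.leaf K2_ok TH_l1016 _)
             (CovZ.leaf K2_ok TH_l1017 _)))
           (CovZ.n1 (-46368, 38304) (by decide +kernel)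
            (CovZ.n2 (-46368, 38016) (by decide +kernel)
             (CovZ.leaf K2_ok TH_l1018 _)
             (CovZ.leaf K2_ok TH_l1019 _))
            (CovZ.leaf K2_ok TH_l1020 _)))))))
      (CovZ.n1 (-47232, 40320) (by decide +kernel)
       (CovZ.subM 53131399728448817726826349358258120060110019106786312930730818 (by decide +kernel)
        (CovZ.n2 (-46080, 40320) (by decide +kernel)
         (CovZ.n2 (-46656, 39744) (by decide +kernel)
          (CovZ.n2 (-46656, 40320) (by decide +kernel)
           (CovZ.n2 (-46368, 40032) (by decide +kernel)
            (CovZ.leaf K2_ok TH_l1021 _)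
            (CovZ.n1 (-46368, 40320) (by decide +kernel)
             (CovZ.leaf K2_ok TH_l1022 _)
             (CovZ.leaf K2_ok TH_l1023 _)))
           (CovZ.n1 (-46944, 40032) (by decide +kernel)
            (CovZ.n2 (-46944, 40320) (by decide +kernel)
             (CovZ.leaf K2_ok TH_l1024 _)
             (CovZ.leaf K2_ok TH_l1025 _))
            (CovZ.leaf K2_ok TH_l1026 _)))
          (CovZ.subM 1569281420181640954801513654766408164712732348495358853632 (by decide +kernel)
           (CovZ.n1 (-46080, 39744) (by decide +kernel)
            (CovZ.n2 (-46368, 39456) (by decide +kernel)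
             (CovZ.n2 (-46368, 39744) (by decide +kernel)
              (CovZ.leaf K2_ok TH_l1027 _)
              (CovZ.leaf K2_ok TH_l1028 _))
             (CovZ.leaf K2_ok TH_l1029 _))
            (CovZ.n1 (-46368, 40032) (by decide +kernel)
             (CovZ.leaf K2_ok TH_l1030 _)
             (CovZ.n1 (-46368, 39744) (by decide +kernel)
              (CovZ.leaf K2_ok TH_l1031 _)
              (CovZ.leaf K2_ok TH_l1032 _))))))
         (CovZ.n1 (-46656, 40896) (by decide +kernel)
          (CovZ.subM 5986334970763842566298964491560687143487379350225408 (by decide +kernel)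
           (CovZ.n2 (-46080, 40896) (by decide +kernel)
            (CovZ.n2 (-46368, 40608) (by decide +kernel)
             (CovZ.n2 (-46368, 40896) (by decide +kernel)
              (CovZ.leaf K2_ok TH_l1033 _)
              (CovZ.leaf K2_ok TH_l1034 _))
             (CovZ.leaf K2_ok TH_l1035 _))
            (CovZ.n1 (-46368, 41184) (by decide +kernel)
             (CovZ.n2 (-46080, 41184) (by decide +kernel)
              (CovZ.leaf K2_ok TH_l1036 _)
              (CovZ.n1 (-46224, 41328) (by decide +kernel)
               (CovZ.n2 (-46080, 41328) (by decide +kernel)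
                (CovZ.leaf K2_ok TH_l1037 _)
                (CovZ.n1 (-46152, 41400) (by decide +kernel)
                 (CovZ.leaf K2_ok TH_l1038 _)
                 (CovZ.leaf K2_ok TH_l1039 _)))
               (CovZ.n1 (-46224, 41184) (by decide +kernel)
                (CovZ.leaf K2_ok TH_l1040 _)
                (CovZ.leaf K2_ok TH_l1041 _))))
             (CovZ.n1 (-46368, 40896) (by decide +kernel)
              (CovZ.leaf K2_ok TH_l1042 _)
              (CovZ.leaf K2_ok TH_l1043 _)))))
          (CovZ.n1 (-46656, 40320) (by decide +kernel)
           (CovZ.n2 (-46944, 40608) (by decide +kernel)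
            (CovZ.leaf K2_ok TH_l1044 _)
            (CovZ.n1 (-46944, 40320) (by decide +kernel)
             (CovZ.leaf K2_ok TH_l1045 _)
             (CovZ.leaf K2_ok TH_l1046 _)))
           (CovZ.n1 (-46368, 40608) (by decide +kernel)
            (CovZ.n2 (-46368, 40320) (by decide +kernel)
             (CovZ.leaf K2_ok TH_l1047 _)
             (CovZ.leaf K2_ok TH_l1048 _))
            (CovZ.leaf K2_ok TH_l1049 _))))))
       (CovZ.n1 (-47232, 39168) (by decide +kernel)
        (CovZ.n2 (-47808, 39744) (by decide +kernel)
         (CovZ.subM 56345283479444502607354570651912112420578486696447355162993506 (by decide +kernel)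
          (CovZ.n2 (-47232, 39744) (by decide +kernel)
           (CovZ.n2 (-47520, 39456) (by decide +kernel)
            (CovZ.n2 (-47520, 39744) (by decide +kernel)
             (CovZ.leaf K2_ok TH_l1050 _)
             (CovZ.leaf K2_ok TH_l1051 _))
            (CovZ.leaf K2_ok TH_l1052 _))
           (CovZ.n1 (-47520, 40032) (by decide +kernel)
            (CovZ.leaf K2_ok TH_l1053 _)
            (CovZ.n1 (-47520, 39744) (by decide +kernel)
             (CovZ.leaf K2_ok TH_l1054 _)
             (CovZ.leaf K2_ok TH_l1055 _)))))
         (CovZ.n1 (-47808, 39168) (by decide +kernel)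
          (CovZ.n2 (-48096, 39456) (by decide +kernel)
           (CovZ.leaf K2_ok TH_l1056 _)
           (CovZ.n1 (-48096, 39168) (by decide +kernel)
            (CovZ.leaf K2_ok TH_l1057 _)
            (CovZ.leaf K2_ok TH_l1058 _)))
          (CovZ.n1 (-47520, 39456) (by decide +kernel)
           (CovZ.n2 (-47520, 39168) (by decide +kernel)
            (CovZ.leaf K2_ok TH_l1059 _)
            (CovZ.leaf K2_ok TH_l1060 _))
           (CovZ.leaf K2_ok TH_l1061 _))))
        (CovZ.subM 53131399728448817726826349358258110156584982529318846721434434 (by decide +kernel)
         (CovZ.n1 (-46656, 39744) (by decide +kernel)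
          (CovZ.n2 (-46656, 39168) (by decide +kernel)
           (CovZ.n2 (-46944, 39456) (by decide +kernel)
            (CovZ.leaf K2_ok TH_l1062 _)
            (CovZ.n1 (-46944, 39168) (by decide +kernel)
             (CovZ.leaf K2_ok TH_l1063 _)
             (CovZ.leaf K2_ok TH_l1064 _)))
           (CovZ.n1 (-46368, 39456) (by decide +kernel)
            (CovZ.n2 (-46368, 39168) (by decide +kernel)
             (CovZ.leaf K2_ok TH_l1065 _)
             (CovZ.leaf K2_ok TH_l1066 _))
            (CovZ.leaf K2_ok TH_l1067 _)))
          (CovZ.n1 (-47232, 39744) (by decide +kernel)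
           (CovZ.n2 (-46944, 40032) (by decide +kernel)
            (CovZ.n2 (-46944, 39744) (by decide +kernel)
             (CovZ.leaf K2_ok TH_l1068 _)
             (CovZ.leaf K2_ok TH_l1069 _))
            (CovZ.leaf K2_ok TH_l1070 _))
           (CovZ.n1 (-46944, 39456) (by decide +kernel)
            (CovZ.leaf K2_ok TH_l1071 _)
            (CovZ.n1 (-46944, 39744) (by decide +kernel)
             (CovZ.leaf K2_ok TH_l1072 _)
             (CovZ.leaf K2_ok TH_l1073 _))))))))))

theorem TH_u1 : CovZ TH_M (toL (selN TH_LN 431415086924347769394276890760080916574264047636934210079432086896639)) [0, 7, 6, 1] (-48384, 39168) (-50688, 36864) (-46080, 36864) :=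
    (CovZ.n1 (-48384, 36864) (by decide +kernel)
     (CovZ.n2 (-49536, 38016) (by decide +kernel)
      (CovZ.n2 (-48384, 38016) (by decide +kernel)
       (CovZ.n2 (-48960, 37440) (by decide +kernel)
        (CovZ.n2 (-48960, 38016) (by decide +kernel)
         (CovZ.n2 (-48672, 37728) (by decide +kernel)
          (CovZ.leaf K2_ok TH_l1074 _)
          (CovZ.n1 (-48672, 38016) (by decide +kernel)
           (CovZ.leaf K2_ok TH_l1075 _)
           (CovZ.leaf K2_ok TH_l1076 _)))
         (CovZ.n1 (-49248, 37728) (by decide +kernel)
          (CovZ.n2 (-49248, 38016) (by decide +kernel)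
           (CovZ.leaf K2_ok TH_l1077 _)
           (CovZ.leaf K2_ok TH_l1078 _))
          (CovZ.leaf K2_ok TH_l1079 _)))
        (CovZ.n1 (-48384, 37440) (by decide +kernel)
         (CovZ.n2 (-48672, 37152) (by decide +kernel)
          (CovZ.n2 (-48672, 37440) (by decide +kernel)
           (CovZ.leaf K2_ok TH_l1080 _)
           (CovZ.leaf K2_ok TH_l1081 _))
          (CovZ.leaf K2_ok TH_l1082 _))
         (CovZ.n1 (-48672, 37728) (by decide +kernel)
          (CovZ.leaf K2_ok TH_l1083 _)
          (CovZ.n1 (-48672, 37440) (by decide +kernel)
           (CovZ.leaf K2_ok TH_l1084 _)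
           (CovZ.leaf K2_ok TH_l1085 _)))))
       (CovZ.n1 (-48960, 38592) (by decide +kernel)
        (CovZ.n2 (-48384, 38592) (by decide +kernel)
         (CovZ.n2 (-48672, 38304) (by decide +kernel)
          (CovZ.n2 (-48672, 38592) (by decide +kernel)
           (CovZ.leaf K2_ok TH_l1086 _)
           (CovZ.leaf K2_ok TH_l1087 _))
          (CovZ.leaf K2_ok TH_l1088 _))
         (CovZ.n1 (-48672, 38880) (by decide +kernel)
          (CovZ.leaf K2_ok TH_l1089 _)
          (CovZ.n1 (-48672, 38592) (by decide +kernel)
           (CovZ.leaf K2_ok TH_l1090 _)
           (CovZ.leaf K2_ok TH_l1091 _))))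
        (CovZ.n1 (-48960, 38016) (by decide +kernel)
         (CovZ.n2 (-49248, 38304) (by decide +kernel)
          (CovZ.leaf K2_ok TH_l1092 _)
          (CovZ.n1 (-49248, 38016) (by decide +kernel)
           (CovZ.leaf K2_ok TH_l1093 _)
           (CovZ.leaf K2_ok TH_l1094 _)))
         (CovZ.n1 (-48672, 38304) (by decide +kernel)
          (CovZ.n2 (-48672, 38016) (by decide +kernel)
           (CovZ.leaf K2_ok TH_l1095 _)
           (CovZ.leaf K2_ok TH_l1096 _))
          (CovZ.leaf K2_ok TH_l1097 _)))))
      (CovZ.n1 (-49536, 36864) (by decide +kernel)
       (CovZ.n2 (-50112, 37440) (by decide +kernel)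
        (CovZ.n2 (-49536, 37440) (by decide +kernel)
         (CovZ.n2 (-49824, 37152) (by decide +kernel)
          (CovZ.n2 (-49824, 37440) (by decide +kernel)
           (CovZ.leaf K2_ok TH_l1098 _)
           (CovZ.leaf K2_ok TH_l1099 _))
          (CovZ.leaf K2_ok TH_l1100 _))
         (CovZ.n1 (-49824, 37728) (by decide +kernel)
          (CovZ.leaf K2_ok TH_l1101 _)
          (CovZ.n1 (-49824, 37440) (by decide +kernel)
           (CovZ.leaf K2_ok TH_l1102 _)
           (CovZ.leaf K2_ok TH_l1103 _))))
        (CovZ.n1 (-50112, 36864) (by decide +kernel)
         (CovZ.n2 (-50400, 37152) (by decide +kernel)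
          (CovZ.leaf K2_ok TH_l1104 _)
          (CovZ.n1 (-50400, 36864) (by decide +kernel)
           (CovZ.leaf K2_ok TH_l1105 _)
           (CovZ.leaf K2_ok TH_l1106 _)))
         (CovZ.n1 (-49824, 37152) (by decide +kernel)
          (CovZ.n2 (-49824, 36864) (by decide +kernel)
           (CovZ.leaf K2_ok TH_l1107 _)
           (CovZ.leaf K2_ok TH_l1108 _))
          (CovZ.leaf K2_ok TH_l1109 _))))
       (CovZ.n1 (-48960, 37440) (by decide +kernel)
        (CovZ.n2 (-48960, 36864) (by decide +kernel)
         (CovZ.n2 (-49248, 37152) (by decide +kernel)
          (CovZ.leaf K2_ok TH_l1110 _)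
          (CovZ.n1 (-49248, 36864) (by decide +kernel)
           (CovZ.leaf K2_ok TH_l1111 _)
           (CovZ.leaf K2_ok TH_l1112 _)))
         (CovZ.n1 (-48672, 37152) (by decide +kernel)
          (CovZ.n2 (-48672, 36864) (by decide +kernel)
           (CovZ.leaf K2_ok TH_l1113 _)
           (CovZ.leaf K2_ok TH_l1114 _))
          (CovZ.leaf K2_ok TH_l1115 _)))
        (CovZ.n1 (-49536, 37440) (by decide +kernel)
         (CovZ.n2 (-49248, 37728) (by decide +kernel)
          (CovZ.n2 (-49248, 37440) (by decide +kernel)
           (CovZ.leaf K2_ok TH_l1116 _)
           (CovZ.leaf K2_ok TH_l1117 _))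
          (CovZ.leaf K2_ok TH_l1118 _))
         (CovZ.n1 (-49248, 37152) (by decide +kernel)
          (CovZ.leaf K2_ok TH_l1119 _)
          (CovZ.n1 (-49248, 37440) (by decide +kernel)
           (CovZ.leaf K2_ok TH_l1120 _)
           (CovZ.leaf K2_ok TH_l1121 _)))))))
     (CovZ.subM 431359305863729315112487906044232912060934814356366265228849669777259 (by decide +kernel)
      (CovZ.n1 (-47232, 38016) (by decide +kernel)
       (CovZ.n2 (-47232, 36864) (by decide +kernel)
        (CovZ.n2 (-47808, 37440) (by decide +kernel)
         (CovZ.n2 (-47232, 37440) (by decide +kernel)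
          (CovZ.n2 (-47520, 37152) (by decide +kernel)
           (CovZ.n2 (-47520, 37440) (by decide +kernel)
            (CovZ.leaf K2_ok TH_l1122 _)
            (CovZ.leaf K2_ok TH_l1123 _))
           (CovZ.leaf K2_ok TH_l1124 _))
          (CovZ.n1 (-47520, 37728) (by decide +kernel)
           (CovZ.leaf K2_ok TH_l1125 _)
           (CovZ.n1 (-47520, 37440) (by decide +kernel)
            (CovZ.leaf K2_ok TH_l1126 _)
            (CovZ.leaf K2_ok TH_l1127 _))))
         (CovZ.n1 (-47808, 36864) (by decide +kernel)
          (CovZ.n2 (-48096, 37152) (by decide +kernel)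
           (CovZ.leaf K2_ok TH_l1128 _)
           (CovZ.n1 (-48096, 36864) (by decide +kernel)
            (CovZ.leaf K2_ok TH_l1129 _)
            (CovZ.leaf K2_ok TH_l1130 _)))
          (CovZ.n1 (-47520, 37152) (by decide +kernel)
           (CovZ.n2 (-47520, 36864) (by decide +kernel)
            (CovZ.leaf K2_ok TH_l1131 _)
            (CovZ.leaf K2_ok TH_l1132 _))
           (CovZ.leaf K2_ok TH_l1133 _))))
        (CovZ.subM 53131399728448817726831793699905129949642877687262199659635522 (by decide +kernel)
         (CovZ.n1 (-46656, 37440) (by decide +kernel)
          (CovZ.n2 (-46656, 36864) (by decide +kernel)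
           (CovZ.n2 (-46944, 37152) (by decide +kernel)
            (CovZ.leaf K2_ok TH_l1134 _)
            (CovZ.n1 (-46944, 36864) (by decide +kernel)
             (CovZ.leaf K2_ok TH_l1135 _)
             (CovZ.leaf K2_ok TH_l1136 _)))
           (CovZ.n1 (-46368, 37152) (by decide +kernel)
            (CovZ.n2 (-46368, 36864) (by decide +kernel)
             (CovZ.leaf K2_ok TH_l1137 _)
             (CovZ.leaf K2_ok TH_l1138 _))
            (CovZ.leaf K2_ok TH_l1139 _)))
          (CovZ.n1 (-47232, 37440) (by decide +kernel)
           (CovZ.n2 (-46944, 37728) (by decide +kernel)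
            (CovZ.n2 (-46944, 37440) (by decide +kernel)
             (CovZ.leaf K2_ok TH_l1140 _)
             (CovZ.leaf K2_ok TH_l1141 _))
            (CovZ.leaf K2_ok TH_l1142 _))
           (CovZ.n1 (-46944, 37152) (by decide +kernel)
            (CovZ.n2 (-47232, 37152) (by decide +kernel)
             (CovZ.leaf K2_ok TH_l1143 _)
             (CovZ.leaf K2_ok TH_l1144 _))
            (CovZ.n1 (-46944, 37440) (by decide +kernel)
             (CovZ.leaf K2_ok TH_l1145 _)
             (CovZ.leaf K2_ok TH_l1146 _)))))))
       (CovZ.n1 (-48384, 38016) (by decide +kernel)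
        (CovZ.n2 (-47808, 38592) (by decide +kernel)
         (CovZ.n2 (-47808, 38016) (by decide +kernel)
          (CovZ.n2 (-48096, 38304) (by decide +kernel)
           (CovZ.leaf K2_ok TH_l1147 _)
           (CovZ.n1 (-48096, 38016) (by decide +kernel)
            (CovZ.leaf K2_ok TH_l1148 _)
            (CovZ.leaf K2_ok TH_l1149 _)))
          (CovZ.n1 (-47520, 38304) (by decide +kernel)
           (CovZ.n2 (-47520, 38016) (by decide +kernel)
            (CovZ.leaf K2_ok TH_l1150 _)
            (CovZ.leaf K2_ok TH_l1151 _))
           (CovZ.leaf K2_ok TH_l1152 _)))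
         (CovZ.n1 (-48384, 38592) (by decide +kernel)
          (CovZ.n2 (-48096, 38880) (by decide +kernel)
           (CovZ.n2 (-48096, 38592) (by decide +kernel)
            (CovZ.leaf K2_ok TH_l1153 _)
            (CovZ.leaf K2_ok TH_l1154 _))
           (CovZ.leaf K2_ok TH_l1155 _))
          (CovZ.n1 (-48096, 38304) (by decide +kernel)
           (CovZ.leaf K2_ok TH_l1156 _)
           (CovZ.n1 (-48096, 38592) (by decide +kernel)
            (CovZ.leaf K2_ok TH_l1157 _)
            (CovZ.leaf K2_ok TH_l1158 _)))))
        (CovZ.n1 (-47808, 37440) (by decide +kernel)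
         (CovZ.n2 (-48384, 37440) (by decide +kernel)
          (CovZ.n2 (-48096, 37728) (by decide +kernel)
           (CovZ.n2 (-48096, 37440) (by decide +kernel)
            (CovZ.leaf K2_ok TH_l1159 _)
            (CovZ.leaf K2_ok TH_l1160 _))
           (CovZ.leaf K2_ok TH_l1161 _))
          (CovZ.n1 (-48096, 37152) (by decide +kernel)
           (CovZ.leaf K2_ok TH_l1162 _)
           (CovZ.n1 (-48096, 37440) (by decide +kernel)
            (CovZ.leaf K2_ok TH_l1163 _)
            (CovZ.leaf K2_ok TH_l1164 _))))
         (CovZ.n1 (-47808, 38016) (by decide +kernel)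
          (CovZ.n2 (-47520, 37728) (by decide +kernel)
           (CovZ.leaf K2_ok TH_l1165 _)
           (CovZ.n1 (-47520, 38016) (by decide +kernel)
            (CovZ.leaf K2_ok TH_l1166 _)
            (CovZ.leaf K2_ok TH_l1167 _)))
          (CovZ.n1 (-48096, 37728) (by decide +kernel)
           (CovZ.n2 (-48096, 38016) (by decide +kernel)
            (CovZ.leaf K2_ok TH_l1168 _)
            (CovZ.leaf K2_ok TH_l1169 _))
           (CovZ.leaf K2_ok TH_l1170 _))))))))

theorem TH_u2 : CovZ TH_M (toL (selN TH_LN 431415086924347769394276890761442046041947821438064022632716507791359)) [0, 7, 6, 1] (-50688, 36864) (-48384, 39168) (-50688, 41472) :=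
    (CovZ.n2 (-50688, 39168) (by decide +kernel)
     (CovZ.n2 (-49536, 40320) (by decide +kernel)
      (CovZ.n2 (-49536, 39168) (by decide +kernel)
       (CovZ.n2 (-50112, 39744) (by decide +kernel)
        (CovZ.n2 (-49536, 39744) (by decide +kernel)
         (CovZ.n2 (-49824, 39456) (by decide +kernel)
          (CovZ.n2 (-49824, 39744) (by decide +kernel)
           (CovZ.leaf K2_ok TH_l1171 _)
           (CovZ.leaf K2_ok TH_l1172 _))
          (CovZ.leaf K2_ok TH_l1173 _))
         (CovZ.n1 (-49824, 40032) (by decide +kernel)
          (CovZ.leaf K2_ok TH_l1174 _)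
          (CovZ.n1 (-49824, 39744) (by decide +kernel)
           (CovZ.leaf K2_ok TH_l1175 _)
           (CovZ.leaf K2_ok TH_l1176 _))))
        (CovZ.n1 (-50112, 39168) (by decide +kernel)
         (CovZ.n2 (-50400, 39456) (by decide +kernel)
          (CovZ.leaf K2_ok TH_l1177 _)
          (CovZ.n1 (-50400, 39168) (by decide +kernel)
           (CovZ.leaf K2_ok TH_l1178 _)
           (CovZ.leaf K2_ok TH_l1179 _)))
         (CovZ.n1 (-49824, 39456) (by decide +kernel)
          (CovZ.leaf K2_ok TH_l1180 _)
          (CovZ.leaf K2_ok TH_l1181 _))))
       (CovZ.n1 (-48960, 39744) (by decide +kernel)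
        (CovZ.n2 (-48960, 39168) (by decide +kernel)
         (CovZ.n2 (-49248, 39456) (by decide +kernel)
          (CovZ.leaf K2_ok TH_l1182 _)
          (CovZ.n1 (-49248, 39168) (by decide +kernel)
           (CovZ.leaf K2_ok TH_l1183 _)
           (CovZ.leaf K2_ok TH_l1184 _)))
         (CovZ.n1 (-48672, 39456) (by decide +kernel)
          (CovZ.n2 (-48672, 39168) (by decide +kernel)
           (CovZ.leaf K2_ok TH_l1185 _)
           (CovZ.leaf K2_ok TH_l1186 _))
          (CovZ.leaf K2_ok TH_l1187 _)))
        (CovZ.n1 (-49536, 39744) (by decide +kernel)
         (CovZ.n2 (-49248, 40032) (by decide +kernel)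
          (CovZ.n2 (-49248, 39744) (by decide +kernel)
           (CovZ.leaf K2_ok TH_l1188 _)
           (CovZ.leaf K2_ok TH_l1189 _))
          (CovZ.leaf K2_ok TH_l1190 _))
         (CovZ.n1 (-49248, 39456) (by decide +kernel)
          (CovZ.leaf K2_ok TH_l1191 _)
          (CovZ.n1 (-49248, 39744) (by decide +kernel)
           (CovZ.leaf K2_ok TH_l1192 _)
           (CovZ.leaf K2_ok TH_l1193 _))))))
      (CovZ.n1 (-50688, 40320) (by decide +kernel)
       (CovZ.n2 (-50112, 40896) (by decide +kernel)
        (CovZ.n2 (-50112, 40320) (by decide +kernel)
         (CovZ.n2 (-50400, 40608) (by decide +kernel)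
          (CovZ.leaf K2_ok TH_l1194 _)
          (CovZ.leaf K2_ok TH_l1195 _))
         (CovZ.n1 (-49824, 40608) (by decide +kernel)
          (CovZ.leaf K2_ok TH_l1196 _)
          (CovZ.leaf K2_ok TH_l1197 _)))
        (CovZ.subM 431360239705877967932368283377595963610615146926750558944693338158794 (by decide +kernel)
         (CovZ.n1 (-50688, 40896) (by decide +kernel)
          (CovZ.n2 (-50400, 41184) (by decide +kernel)
           (CovZ.leaf K2_ok TH_l1198 _)
           (CovZ.leaf K2_ok TH_l1199 _))
          (CovZ.n1 (-50400, 40608) (by decide +kernel)
           (CovZ.leaf K2_ok TH_l1200 _)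
           (CovZ.leaf K2_ok TH_l1201 _)))))
       (CovZ.n1 (-50112, 39744) (by decide +kernel)
        (CovZ.subM 431360239705877967932368283377595963600473941520461813925405125162698 (by decide +kernel)
         (CovZ.n2 (-50688, 39744) (by decide +kernel)
          (CovZ.n2 (-50400, 40032) (by decide +kernel)
           (CovZ.leaf K2_ok TH_l1202 _)
           (CovZ.leaf K2_ok TH_l1203 _))
          (CovZ.n1 (-50400, 39456) (by decide +kernel)
           (CovZ.leaf K2_ok TH_l1204 _)
           (CovZ.leaf K2_ok TH_l1205 _))))
        (CovZ.n1 (-50112, 40320) (by decide +kernel)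
         (CovZ.n2 (-49824, 40032) (by decide +kernel)
          (CovZ.leaf K2_ok TH_l1206 _)
          (CovZ.n1 (-49824, 40320) (by decide +kernel)
           (CovZ.leaf K2_ok TH_l1207 _)
           (CovZ.leaf K2_ok TH_l1208 _)))
         (CovZ.n1 (-50400, 40032) (by decide +kernel)
          (CovZ.leaf K2_ok TH_l1209 _)
          (CovZ.leaf K2_ok TH_l1210 _))))))
     (CovZ.n1 (-49536, 38016) (by decide +kernel)
      (CovZ.n2 (-50688, 38016) (by decide +kernel)
       (CovZ.n2 (-50112, 38592) (by decide +kernel)
        (CovZ.n2 (-50112, 38016) (by decide +kernel)
         (CovZ.n2 (-50400, 38304) (by decide +kernel)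
          (CovZ.leaf K2_ok TH_l1211 _)
          (CovZ.leaf K2_ok TH_l1212 _))
         (CovZ.n1 (-49824, 38304) (by decide +kernel)
          (CovZ.n2 (-49824, 38016) (by decide +kernel)
           (CovZ.leaf K2_ok TH_l1213 _)
           (CovZ.leaf K2_ok TH_l1214 _))
          (CovZ.leaf K2_ok TH_l1215 _)))
        (CovZ.subM 431360188283860545658368759527430489567478093546773535303585554937546 (by decide +kernel)
         (CovZ.n1 (-50688, 38592) (by decide +kernel)
          (CovZ.n2 (-50400, 38880) (by decide +kernel)
           (CovZ.n2 (-50400, 38592) (by decide +kernel)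
            (CovZ.leaf K2_ok TH_l1216 _)
            (CovZ.leaf K2_ok TH_l1217 _))
           (CovZ.leaf K2_ok TH_l1218 _))
          (CovZ.n1 (-50400, 38304) (by decide +kernel)
           (CovZ.leaf K2_ok TH_l1219 _)
           (CovZ.n1 (-50400, 38592) (by decide +kernel)
            (CovZ.leaf K2_ok TH_l1220 _)
            (CovZ.leaf K2_ok TH_l1221 _))))))
       (CovZ.n1 (-50112, 37440) (by decide +kernel)
        (CovZ.subM 431360188081424014598520855548171012235435874493016996947324419879626 (by decide +kernel)
         (CovZ.n2 (-50688, 37440) (by decide +kernel)
          (CovZ.n2 (-50400, 37728) (by decide +kernel)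
           (CovZ.leaf K2_ok TH_l1222 _)
           (CovZ.leaf K2_ok TH_l1223 _))
          (CovZ.n1 (-50400, 37152) (by decide +kernel)
           (CovZ.leaf K2_ok TH_l1224 _)
           (CovZ.n1 (-50400, 37440) (by decide +kernel)
            (CovZ.leaf K2_ok TH_l1225 _)
            (CovZ.leaf K2_ok TH_l1226 _)))))
        (CovZ.n1 (-50112, 38016) (by decide +kernel)
         (CovZ.n2 (-49824, 37728) (by decide +kernel)
          (CovZ.leaf K2_ok TH_l1227 _)
          (CovZ.n1 (-49824, 38016) (by decide +kernel)
           (CovZ.leaf K2_ok TH_l1228 _)
           (CovZ.leaf K2_ok TH_l1229 _)))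
         (CovZ.n1 (-50400, 37728) (by decide +kernel)
          (CovZ.n2 (-50400, 38016) (by decide +kernel)
           (CovZ.leaf K2_ok TH_l1230 _)
           (CovZ.leaf K2_ok TH_l1231 _))
          (CovZ.leaf K2_ok TH_l1232 _)))))
      (CovZ.n1 (-49536, 39168) (by decide +kernel)
       (CovZ.n2 (-48960, 38592) (by decide +kernel)
        (CovZ.n2 (-49536, 38592) (by decide +kernel)
         (CovZ.n2 (-49248, 38880) (by decide +kernel)
          (CovZ.n2 (-49248, 38592) (by decide +kernel)
           (CovZ.leaf K2_ok TH_l1233 _)
           (CovZ.leaf K2_ok TH_l1234 _))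
          (CovZ.leaf K2_ok TH_l1235 _))
         (CovZ.n1 (-49248, 38304) (by decide +kernel)
          (CovZ.leaf K2_ok TH_l1236 _)
          (CovZ.n1 (-49248, 38592) (by decide +kernel)
           (CovZ.leaf K2_ok TH_l1237 _)
           (CovZ.leaf K2_ok TH_l1238 _))))
        (CovZ.n1 (-48960, 39168) (by decide +kernel)
         (CovZ.n2 (-48672, 38880) (by decide +kernel)
          (CovZ.leaf K2_ok TH_l1239 _)
          (CovZ.n1 (-48672, 39168) (by decide +kernel)
           (CovZ.leaf K2_ok TH_l1240 _)
           (CovZ.leaf K2_ok TH_l1241 _)))
         (CovZ.n1 (-49248, 38880) (by decide +kernel)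
          (CovZ.n2 (-49248, 39168) (by decide +kernel)
           (CovZ.leaf K2_ok TH_l1242 _)
           (CovZ.leaf K2_ok TH_l1243 _))
          (CovZ.leaf K2_ok TH_l1244 _))))
       (CovZ.n1 (-50112, 38592) (by decide +kernel)
        (CovZ.n2 (-50112, 39168) (by decide +kernel)
         (CovZ.n2 (-49824, 38880) (by decide +kernel)
          (CovZ.leaf K2_ok TH_l1245 _)
          (CovZ.n1 (-49824, 39168) (by decide +kernel)
           (CovZ.leaf K2_ok TH_l1246 _)
           (CovZ.leaf K2_ok TH_l1247 _)))
         (CovZ.n1 (-50400, 38880) (by decide +kernel)
          (CovZ.leaf K2_ok TH_l1248 _)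
          (CovZ.leaf K2_ok TH_l1249 _)))
        (CovZ.n1 (-49536, 38592) (by decide +kernel)
         (CovZ.n2 (-49824, 38304) (by decide +kernel)
          (CovZ.n2 (-49824, 38592) (by decide +kernel)
           (CovZ.leaf K2_ok TH_l1250 _)
           (CovZ.leaf K2_ok TH_l1251 _))
          (CovZ.leaf K2_ok TH_l1252 _))
         (CovZ.n1 (-49824, 38880) (by decide +kernel)
          (CovZ.leaf K2_ok TH_l1253 _)
          (CovZ.n1 (-49824, 38592) (by decide +kernel)
           (CovZ.leaf K2_ok TH_l1254 _)
           (CovZ.leaf K2_ok TH_l1255 _))))))))

theorem TH_u3 : CovZ TH_M (toL (selN TH_LN 431415086924347769394276890761442046041947821438064022632716507791359)) [0, 7, 6, 1] (-48384, 39168) (-46080, 41472) (-50688, 41472) :=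
    (CovZ.n1 (-48384, 41472) (by decide +kernel)
     (CovZ.subM 431359305863729315112487906044232912071085922683229040448068103219179 (by decide +kernel)
      (CovZ.n2 (-47232, 40320) (by decide +kernel)
       (CovZ.n2 (-48384, 40320) (by decide +kernel)
        (CovZ.n2 (-47808, 40896) (by decide +kernel)
         (CovZ.n2 (-47808, 40320) (by decide +kernel)
          (CovZ.n2 (-48096, 40608) (by decide +kernel)
           (CovZ.leaf K2_ok TH_l1256 _)
           (CovZ.n1 (-48096, 40320) (by decide +kernel)
            (CovZ.leaf K2_ok TH_l1257 _)
            (CovZ.leaf K2_ok TH_l1258 _)))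
          (CovZ.n1 (-47520, 40608) (by decide +kernel)
           (CovZ.n2 (-47520, 40320) (by decide +kernel)
            (CovZ.leaf K2_ok TH_l1259 _)
            (CovZ.leaf K2_ok TH_l1260 _))
           (CovZ.leaf K2_ok TH_l1261 _)))
         (CovZ.n1 (-48384, 40896) (by decide +kernel)
          (CovZ.n2 (-48096, 41184) (by decide +kernel)
           (CovZ.n2 (-48096, 40896) (by decide +kernel)
            (CovZ.leaf K2_ok TH_l1262 _)
            (CovZ.leaf K2_ok TH_l1263 _))
           (CovZ.leaf K2_ok TH_l1264 _))
          (CovZ.n1 (-48096, 40608) (by decide +kernel)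
           (CovZ.leaf K2_ok TH_l1265 _)
           (CovZ.n1 (-48096, 40896) (by decide +kernel)
            (CovZ.leaf K2_ok TH_l1266 _)
            (CovZ.leaf K2_ok TH_l1267 _)))))
        (CovZ.n1 (-47808, 39744) (by decide +kernel)
         (CovZ.n2 (-48384, 39744) (by decide +kernel)
          (CovZ.n2 (-48096, 40032) (by decide +kernel)
           (CovZ.n2 (-48096, 39744) (by decide +kernel)
            (CovZ.leaf K2_ok TH_l1268 _)
            (CovZ.leaf K2_ok TH_l1269 _))
           (CovZ.leaf K2_ok TH_l1270 _))
          (CovZ.n1 (-48096, 39456) (by decide +kernel)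
           (CovZ.leaf K2_ok TH_l1271 _)
           (CovZ.n1 (-48096, 39744) (by decide +kernel)
            (CovZ.leaf K2_ok TH_l1272 _)
            (CovZ.leaf K2_ok TH_l1273 _))))
         (CovZ.n1 (-47808, 40320) (by decide +kernel)
          (CovZ.n2 (-47520, 40032) (by decide +kernel)
           (CovZ.leaf K2_ok TH_l1274 _)
           (CovZ.n1 (-47520, 40320) (by decide +kernel)
            (CovZ.leaf K2_ok TH_l1275 _)
            (CovZ.leaf K2_ok TH_l1276 _)))
          (CovZ.n1 (-48096, 40032) (by decide +kernel)
           (CovZ.n2 (-48096, 40320) (by decide +kernel)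
            (CovZ.leaf K2_ok TH_l1277 _)
            (CovZ.leaf K2_ok TH_l1278 _))
           (CovZ.leaf K2_ok TH_l1279 _)))))
       (CovZ.n1 (-47232, 41472) (by decide +kernel)
        (CovZ.subM 53131399728448817726826349358258120060110019106786312930730818 (by decide +kernel)
         (CovZ.n2 (-46656, 40896) (by decide +kernel)
          (CovZ.n2 (-47232, 40896) (by decide +kernel)
           (CovZ.n2 (-46944, 41184) (by decide +kernel)
            (CovZ.n2 (-46944, 40896) (by decide +kernel)
             (CovZ.leaf K2_ok TH_l1280 _)
             (CovZ.leaf K2_ok TH_l1281 _))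
            (CovZ.n1 (-47232, 41184) (by decide +kernel)
             (CovZ.n2 (-47088, 41328) (by decide +kernel)
              (CovZ.leaf K2_ok TH_l1282 _)
              (CovZ.leaf K2_ok TH_l1283 _))
             (CovZ.leaf K2_ok TH_l1284 _)))
           (CovZ.n1 (-46944, 40608) (by decide +kernel)
            (CovZ.leaf K2_ok TH_l1285 _)
            (CovZ.n1 (-46944, 40896) (by decide +kernel)
             (CovZ.leaf K2_ok TH_l1286 _)
             (CovZ.leaf K2_ok TH_l1287 _))))
          (CovZ.n1 (-46656, 41472) (by decide +kernel)
           (CovZ.subM 5986334970763842566298964491560687143487379350225408 (by decide +kernel)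
            (CovZ.n2 (-46368, 41184) (by decide +kernel)
             (CovZ.n2 (-46656, 41184) (by decide +kernel)
              (CovZ.n2 (-46512, 41328) (by decide +kernel)
               (CovZ.leaf K2_ok TH_l1288 _)
               (CovZ.leaf K2_ok TH_l1289 _))
              (CovZ.leaf K2_ok TH_l1290 _))
             (CovZ.n1 (-46368, 41472) (by decide +kernel)
              (CovZ.n2 (-46224, 41328) (by decide +kernel)
               (CovZ.n2 (-46368, 41328) (by decide +kernel)
                (CovZ.leaf K2_ok TH_l1291 _)
                (CovZ.leaf K2_ok TH_l1292 _))
               (CovZ.n1 (-46224, 41472) (by decide +kernel)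
                (CovZ.n2 (-46152, 41400) (by decide +kernel)
                 (CovZ.leaf K2_ok TH_l1293 _)
                 (CovZ.leaf K2_ok TH_l1294 _))
                (CovZ.leaf K2_ok TH_l1295 _)))
              (CovZ.n1 (-46512, 41328) (by decide +kernel)
               (CovZ.n2 (-46512, 41472) (by decide +kernel)
                (CovZ.leaf K2_ok TH_l1296 _)
                (CovZ.leaf K2_ok TH_l1297 _))
               (CovZ.n1 (-46368, 41328) (by decide +kernel)
                (CovZ.leaf K2_ok TH_l1298 _)
                (CovZ.leaf K2_ok TH_l1299 _))))))
           (CovZ.n1 (-46944, 41184) (by decide +kernel)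
            (CovZ.n2 (-46944, 41472) (by decide +kernel)
             (CovZ.n2 (-46800, 41328) (by decide +kernel)
              (CovZ.leaf K2_ok TH_l1300 _)
              (CovZ.leaf K2_ok TH_l1301 _))
             (CovZ.leaf K2_ok TH_l1302 _))
            (CovZ.n1 (-46656, 41184) (by decide +kernel)
             (CovZ.leaf K2_ok TH_l1303 _)
             (CovZ.n1 (-46800, 41328) (by decide +kernel)
              (CovZ.leaf K2_ok TH_l1304 _)
              (CovZ.leaf K2_ok TH_l1305 _)))))))
        (CovZ.n1 (-47808, 40896) (by decide +kernel)
         (CovZ.n2 (-47808, 41472) (by decide +kernel)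
          (CovZ.subM 56345283479444502607354570651587603770445096835362041503425378 (by decide +kernel)
           (CovZ.n2 (-47520, 41184) (by decide +kernel)
            (CovZ.n2 (-47808, 41184) (by decide +kernel)
             (CovZ.leaf K2_ok TH_l1306 _)
             (CovZ.leaf K2_ok TH_l1307 _))
            (CovZ.n1 (-47520, 41472) (by decide +kernel)
             (CovZ.leaf K2_ok TH_l1308 _)
             (CovZ.leaf K2_ok TH_l1309 _))))
          (CovZ.n1 (-48096, 41184) (by decide +kernel)
           (CovZ.n2 (-48096, 41472) (by decide +kernel)
            (CovZ.leaf K2_ok TH_l1310 _)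
            (CovZ.leaf K2_ok TH_l1311 _))
           (CovZ.n1 (-47808, 41184) (by decide +kernel)
            (CovZ.leaf K2_ok TH_l1312 _)
            (CovZ.leaf K2_ok TH_l1313 _))))
         (CovZ.subM 56345283479444502607354570651587603770445096547131665351713634 (by decide +kernel)
          (CovZ.n1 (-47232, 40896) (by decide +kernel)
           (CovZ.n2 (-47520, 40608) (by decide +kernel)
            (CovZ.n2 (-47520, 40896) (by decide +kernel)
             (CovZ.leaf K2_ok TH_l1314 _)
             (CovZ.leaf K2_ok TH_l1315 _))
            (CovZ.leaf K2_ok TH_l1316 _))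
           (CovZ.n1 (-47520, 41184) (by decide +kernel)
            (CovZ.n2 (-47232, 41184) (by decide +kernel)
             (CovZ.leaf K2_ok TH_l1317 _)
             (CovZ.leaf K2_ok TH_l1318 _))
            (CovZ.n1 (-47520, 40896) (by decide +kernel)
             (CovZ.leaf K2_ok TH_l1319 _)
             (CovZ.leaf K2_ok TH_l1320 _)))))))))
     (CovZ.n1 (-49536, 40320) (by decide +kernel)
      (CovZ.n2 (-49536, 41472) (by decide +kernel)
       (CovZ.n2 (-48960, 40896) (by decide +kernel)
        (CovZ.n2 (-49536, 40896) (by decide +kernel)
         (CovZ.n2 (-49248, 41184) (by decide +kernel)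
          (CovZ.n2 (-49248, 40896) (by decide +kernel)
           (CovZ.leaf K2_ok TH_l1321 _)
           (CovZ.leaf K2_ok TH_l1322 _))
          (CovZ.leaf K2_ok TH_l1323 _))
         (CovZ.n1 (-49248, 40608) (by decide +kernel)
          (CovZ.leaf K2_ok TH_l1324 _)
          (CovZ.n1 (-49248, 40896) (by decide +kernel)
           (CovZ.leaf K2_ok TH_l1325 _)
           (CovZ.leaf K2_ok TH_l1326 _))))
        (CovZ.n1 (-48960, 41472) (by decide +kernel)
         (CovZ.n2 (-48672, 41184) (by decide +kernel)
          (CovZ.leaf K2_ok TH_l1327 _)
          (CovZ.n1 (-48672, 41472) (by decide +kernel)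
           (CovZ.leaf K2_ok TH_l1328 _)
           (CovZ.leaf K2_ok TH_l1329 _)))
         (CovZ.n1 (-49248, 41184) (by decide +kernel)
          (CovZ.n2 (-49248, 41472) (by decide +kernel)
           (CovZ.leaf K2_ok TH_l1330 _)
           (CovZ.leaf K2_ok TH_l1331 _))
          (CovZ.n1 (-48960, 41184) (by decide +kernel)
           (CovZ.leaf K2_ok TH_l1332 _)
           (CovZ.leaf K2_ok TH_l1333 _)))))
       (CovZ.n1 (-50112, 40896) (by decide +kernel)
        (CovZ.n2 (-50112, 41472) (by decide +kernel)
         (CovZ.n2 (-49824, 41184) (by decide +kernel)
          (CovZ.leaf K2_ok TH_l1334 _)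
          (CovZ.n1 (-49824, 41472) (by decide +kernel)
           (CovZ.leaf K2_ok TH_l1335 _)
           (CovZ.leaf K2_ok TH_l1336 _)))
         (CovZ.n1 (-50400, 41184) (by decide +kernel)
          (CovZ.n2 (-50400, 41472) (by decide +kernel)
           (CovZ.leaf K2_ok TH_l1337 _)
           (CovZ.leaf K2_ok TH_l1338 _))
          (CovZ.leaf K2_ok TH_l1339 _)))
        (CovZ.n1 (-49536, 40896) (by decide +kernel)
         (CovZ.n2 (-49824, 40608) (by decide +kernel)
          (CovZ.n2 (-49824, 40896) (by decide +kernel)
           (CovZ.leaf K2_ok TH_l1340 _)
           (CovZ.leaf K2_ok TH_l1341 _))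
          (CovZ.leaf K2_ok TH_l1342 _))
         (CovZ.n1 (-49824, 41184) (by decide +kernel)
          (CovZ.n2 (-49536, 41184) (by decide +kernel)
           (CovZ.leaf K2_ok TH_l1343 _)
           (CovZ.leaf K2_ok TH_l1344 _))
          (CovZ.leaf K2_ok TH_l1345 _)))))
      (CovZ.n1 (-48384, 40320) (by decide +kernel)
       (CovZ.n2 (-48960, 39744) (by decide +kernel)
        (CovZ.n2 (-48960, 40320) (by decide +kernel)
         (CovZ.n2 (-48672, 40032) (by decide +kernel)
          (CovZ.leaf K2_ok TH_l1346 _)
          (CovZ.n1 (-48672, 40320) (by decide +kernel)
           (CovZ.leaf K2_ok TH_l1347 _)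
           (CovZ.leaf K2_ok TH_l1348 _)))
         (CovZ.n1 (-49248, 40032) (by decide +kernel)
          (CovZ.n2 (-49248, 40320) (by decide +kernel)
           (CovZ.leaf K2_ok TH_l1349 _)
           (CovZ.leaf K2_ok TH_l1350 _))
          (CovZ.leaf K2_ok TH_l1351 _)))
        (CovZ.n1 (-48384, 39744) (by decide +kernel)
         (CovZ.n2 (-48672, 39456) (by decide +kernel)
          (CovZ.n2 (-48672, 39744) (by decide +kernel)
           (CovZ.leaf K2_ok TH_l1352 _)
           (CovZ.leaf K2_ok TH_l1353 _))
          (CovZ.leaf K2_ok TH_l1354 _))
         (CovZ.n1 (-48672, 40032) (by decide +kernel)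
          (CovZ.leaf K2_ok TH_l1355 _)
          (CovZ.n1 (-48672, 39744) (by decide +kernel)
           (CovZ.leaf K2_ok TH_l1356 _)
           (CovZ.leaf K2_ok TH_l1357 _)))))
       (CovZ.n1 (-48960, 40896) (by decide +kernel)
        (CovZ.n2 (-48384, 40896) (by decide +kernel)
         (CovZ.n2 (-48672, 40608) (by decide +kernel)
          (CovZ.n2 (-48672, 40896) (by decide +kernel)
           (CovZ.leaf K2_ok TH_l1358 _)
           (CovZ.leaf K2_ok TH_l1359 _))
          (CovZ.leaf K2_ok TH_l1360 _))
         (CovZ.n1 (-48672, 41184) (by decide +kernel)
          (CovZ.n2 (-48384, 41184) (by decide +kernel)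
           (CovZ.leaf K2_ok TH_l1361 _)
           (CovZ.leaf K2_ok TH_l1362 _))
          (CovZ.n1 (-48672, 40896) (by decide +kernel)
           (CovZ.leaf K2_ok TH_l1363 _)
           (CovZ.leaf K2_ok TH_l1364 _))))
        (CovZ.n1 (-48960, 40320) (by decide +kernel)
         (CovZ.n2 (-49248, 40608) (by decide +kernel)
          (CovZ.leaf K2_ok TH_l1365 _)
          (CovZ.n1 (-49248, 40320) (by decide +kernel)
           (CovZ.leaf K2_ok TH_l1366 _)
           (CovZ.leaf K2_ok TH_l1367 _)))
         (CovZ.n1 (-48672, 40608) (by decide +kernel)
          (CovZ.n2 (-48672, 40320) (by decide +kernel)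
           (CovZ.leaf K2_ok TH_l1368 _)
           (CovZ.leaf K2_ok TH_l1369 _))
          (CovZ.leaf K2_ok TH_l1370 _)))))))

theorem TH_u4 : CovZ TH_M (toL (selN TH_LN 1569281420181640954801513654766408164712804406089397830144)) [0, 7, 6, 1] (-46080, 36864) (-43776, 36864) (-43776, 39168) :=
    (CovZ.n2 (-44928, 38016) (by decide +kernel)
      (CovZ.subM 9903525036649525068842401792 (by decide +kernel)
       (CovZ.n2 (-43776, 38016) (by decide +kernel)
        (CovZ.badM (by decide +kernel))
        (CovZ.n1 (-44352, 38592) (by decide +kernel)
         (CovZ.n2 (-43776, 38592) (by decide +kernel)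
          (CovZ.n2 (-44064, 38304) (by decide +kernel)
           (CovZ.n2 (-44064, 38592) (by decide +kernel)
            (CovZ.n2 (-43920, 38448) (by decide +kernel)
             (CovZ.n2 (-44064, 38448) (by decide +kernel)
              (CovZ.n2 (-43992, 38520) (by decide +kernel)
               (CovZ.leaf K3_ok TH_l6617 _)
               (CovZ.leaf K2_ok TH_l6618 _))
              (CovZ.n1 (-43992, 38376) (by decide +kernel)
               (CovZ.badM (by decide +kernel))
               (CovZ.leaf K2_ok TH_l6619 _)))
             (CovZ.n1 (-43920, 38592) (by decide +kernel)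
              (CovZ.n2 (-43848, 38520) (by decide +kernel)
               (CovZ.leaf K2_ok TH_l6620 _)
               (CovZ.n1 (-43848, 38592) (by decide +kernel)
                (CovZ.leaf K2_ok TH_l6621 _)
                (CovZ.leaf K2_ok TH_l6622 _)))
              (CovZ.n1 (-43992, 38520) (by decide +kernel)
               (CovZ.leaf K2_ok TH_l6623 _)
               (CovZ.leaf K2_ok TH_l6624 _))))
            (CovZ.n1 (-44208, 38448) (by decide +kernel)
             (CovZ.n2 (-44208, 38592) (by decide +kernel)
              (CovZ.leaf K2_ok TH_l6625 _)
              (CovZ.leaf K2_ok TH_l6626 _))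
             (CovZ.n1 (-44064, 38448) (by decide +kernel)
              (CovZ.badM (by decide +kernel))
              (CovZ.leaf K2_ok TH_l6627 _))))
           (CovZ.n1 (-43776, 38304) (by decide +kernel)
            (CovZ.n2 (-43920, 38160) (by decide +kernel)
             (CovZ.n2 (-43920, 38304) (by decide +kernel)
              (CovZ.n2 (-43848, 38232) (by decide +kernel)
               (CovZ.badM (by decide +kernel))
               (CovZ.leaf K2_ok TH_l6628 _))
              (CovZ.badM (by decide +kernel)))
             (CovZ.n1 (-43776, 38160) (by decide +kernel)
              (CovZ.badM (by decide +kernel))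
              (CovZ.n1 (-43848, 38232) (by decide +kernel)
               (CovZ.leaf K2_ok TH_l6629 _)
               (CovZ.badM (by decide +kernel)))))
            (CovZ.n1 (-43920, 38448) (by decide +kernel)
             (CovZ.n2 (-43776, 38448) (by decide +kernel)
              (CovZ.n2 (-43848, 38376) (by decide +kernel)
               (CovZ.n2 (-43848, 38448) (by decide +kernel)
                (CovZ.leaf K2_ok TH_l6630 _)
                (CovZ.leaf K2_ok TH_l6631 _))
               (CovZ.leaf K2_ok TH_l6632 _))
              (CovZ.n1 (-43848, 38520) (by decide +kernel)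
               (CovZ.leaf K2_ok TH_l6633 _)
               (CovZ.leaf K2_ok TH_l6634 _)))
             (CovZ.n1 (-43920, 38304) (by decide +kernel)
              (CovZ.leaf K2_ok TH_l6635 _)
              (CovZ.n1 (-43848, 38376) (by decide +kernel)
               (CovZ.leaf K2_ok TH_l6636 _)
               (CovZ.leaf K2_ok TH_l6637 _))))))
          (CovZ.n1 (-44064, 38880) (by decide +kernel)
           (CovZ.n2 (-43776, 38880) (by decide +kernel)
            (CovZ.n2 (-43920, 38736) (by decide +kernel)
             (CovZ.n2 (-43920, 38880) (by decide +kernel)
              (CovZ.n2 (-43848, 38808) (by decide +kernel)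
               (CovZ.leaf K2_ok TH_l6638 _)
               (CovZ.n1 (-43848, 38880) (by decide +kernel)
                (CovZ.leaf K2_ok TH_l6639 _)
                (CovZ.leaf K2_ok TH_l6640 _)))
              (CovZ.n1 (-43992, 38808) (by decide +kernel)
               (CovZ.leaf K2_ok TH_l6641 _)
               (CovZ.leaf K2_ok TH_l6642 _)))
             (CovZ.n1 (-43776, 38736) (by decide +kernel)
              (CovZ.n2 (-43848, 38664) (by decide +kernel)
               (CovZ.leaf K2_ok TH_l6643 _)
               (CovZ.leaf K2_ok TH_l6644 _))
              (CovZ.n1 (-43848, 38808) (by decide +kernel)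
               (CovZ.leaf K2_ok TH_l6645 _)
               (CovZ.leaf K2_ok TH_l6646 _))))
            (CovZ.n1 (-43920, 39024) (by decide +kernel)
             (CovZ.n2 (-43776, 39024) (by decide +kernel)
              (CovZ.n2 (-43848, 38952) (by decide +kernel)
               (CovZ.n2 (-43848, 39024) (by decide +kernel)
                (CovZ.leaf K2_ok TH_l6647 _)
                (CovZ.leaf K2_ok TH_l6648 _))
               (CovZ.leaf K2_ok TH_l6649 _))
              (CovZ.n1 (-43848, 39096) (by decide +kernel)
               (CovZ.leaf K2_ok TH_l6650 _)
               (CovZ.leaf K2_ok TH_l6651 _)))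
             (CovZ.n1 (-43920, 38880) (by decide +kernel)
              (CovZ.n2 (-43992, 38952) (by decide +kernel)
               (CovZ.leaf K2_ok TH_l6652 _)
               (CovZ.leaf K2_ok TH_l6653 _))
              (CovZ.n1 (-43848, 38952) (by decide +kernel)
               (CovZ.leaf K2_ok TH_l6654 _)
               (CovZ.leaf K2_ok TH_l6655 _)))))
           (CovZ.n1 (-44064, 38592) (by decide +kernel)
            (CovZ.n2 (-44208, 38736) (by decide +kernel)
             (CovZ.n2 (-44064, 38736) (by decide +kernel)
              (CovZ.leaf K2_ok TH_l6656 _)
              (CovZ.leaf K2_ok TH_l6657 _))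
             (CovZ.n1 (-44208, 38592) (by decide +kernel)
              (CovZ.leaf K2_ok TH_l6658 _)
              (CovZ.leaf K2_ok TH_l6659 _)))
            (CovZ.n1 (-43920, 38736) (by decide +kernel)
             (CovZ.n2 (-43920, 38592) (by decide +kernel)
              (CovZ.leaf K2_ok TH_l6660 _)
              (CovZ.n1 (-43848, 38664) (by decide +kernel)
               (CovZ.leaf K2_ok TH_l6661 _)
               (CovZ.leaf K2_ok TH_l6662 _)))
             (CovZ.n1 (-44064, 38736) (by decide +kernel)
              (CovZ.n2 (-43992, 38808) (by decide +kernel)
               (CovZ.leaf K2_ok TH_l6663 _)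
               (CovZ.leaf K2_ok TH_l6664 _))
              (CovZ.n1 (-43992, 38664) (by decide +kernel)
               (CovZ.leaf K2_ok TH_l6665 _)
               (CovZ.leaf K2_ok TH_l6666 _)))))))
         (CovZ.badM (by decide +kernel)))))
      (CovZ.n1 (-44928, 36864) (by decide +kernel)
       (CovZ.n2 (-45504, 37440) (by decide +kernel)
        (CovZ.badM (by decide +kernel))
        (CovZ.n1 (-45504, 36864) (by decide +kernel)
         (CovZ.n2 (-45792, 37152) (by decide +kernel)
          (CovZ.badM (by decide +kernel))
          (CovZ.n1 (-45792, 36864) (by decide +kernel)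
           (CovZ.leaf K2_ok TH_l6667 _)
           (CovZ.badM (by decide +kernel))))
         (CovZ.badM (by decide +kernel))))
       (CovZ.badM (by decide +kernel))))

theorem TH_u5 : CovZ TH_M (toL (selN TH_LN 1569281420181640954801513654766408164712804406089397830144)) [0, 7, 6, 1] (-43776, 36864) (-41472, 36864) (-43776, 39168) :=
    (CovZ.subM 9903525036649525068842401792 (by decide +kernel)
      (CovZ.n1 (-42624, 38016) (by decide +kernel)
       (CovZ.n2 (-42624, 36864) (by decide +kernel)
        (CovZ.n2 (-43200, 37440) (by decide +kernel)
         (CovZ.badM (by decide +kernel))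
         (CovZ.badM (by decide +kernel)))
        (CovZ.badM (by decide +kernel)))
       (CovZ.n1 (-43776, 38016) (by decide +kernel)
        (CovZ.n2 (-43200, 38592) (by decide +kernel)
         (CovZ.n2 (-43200, 38016) (by decide +kernel)
          (CovZ.n2 (-43488, 38304) (by decide +kernel)
           (CovZ.badM (by decide +kernel))
           (CovZ.n1 (-43488, 38016) (by decide +kernel)
            (CovZ.n2 (-43632, 38160) (by decide +kernel)
             (CovZ.badM (by decide +kernel))
             (CovZ.badM (by decide +kernel)))
            (CovZ.badM (by decide +kernel))))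
          (CovZ.badM (by decide +kernel)))
         (CovZ.n1 (-43776, 38592) (by decide +kernel)
          (CovZ.n2 (-43488, 38880) (by decide +kernel)
           (CovZ.n2 (-43488, 38592) (by decide +kernel)
            (CovZ.n2 (-43632, 38736) (by decide +kernel)
             (CovZ.badM (by decide +kernel))
             (CovZ.n1 (-43632, 38592) (by decide +kernel)
              (CovZ.n2 (-43704, 38664) (by decide +kernel)
               (CovZ.badM (by decide +kernel))
               (CovZ.n1 (-43704, 38592) (by decide +kernel)
                (CovZ.leaf K2_ok TH_l6668 _)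
                (CovZ.badM (by decide +kernel))))
              (CovZ.badM (by decide +kernel))))
            (CovZ.badM (by decide +kernel)))
           (CovZ.n1 (-43776, 38880) (by decide +kernel)
            (CovZ.n2 (-43632, 39024) (by decide +kernel)
             (CovZ.n2 (-43632, 38880) (by decide +kernel)
              (CovZ.n2 (-43704, 38952) (by decide +kernel)
               (CovZ.badM (by decide +kernel))
               (CovZ.n1 (-43704, 38880) (by decide +kernel)
                (CovZ.leaf K2_ok TH_l6669 _)
                (CovZ.badM (by decide +kernel))))
              (CovZ.badM (by decide +kernel)))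
             (CovZ.n1 (-43776, 39024) (by decide +kernel)
              (CovZ.n2 (-43704, 39096) (by decide +kernel)
               (CovZ.n2 (-43704, 39024) (by decide +kernel)
                (CovZ.leaf K2_ok TH_l6670 _)
                (CovZ.badM (by decide +kernel)))
               (CovZ.leaf K2_ok TH_l6671 _))
              (CovZ.n1 (-43704, 38952) (by decide +kernel)
               (CovZ.leaf K2_ok TH_l6672 _)
               (CovZ.n1 (-43704, 39024) (by decide +kernel)
                (CovZ.badM (by decide +kernel))
                (CovZ.leaf K2_ok TH_l6673 _)))))
            (CovZ.n1 (-43632, 38736) (by decide +kernel)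
             (CovZ.n2 (-43776, 38736) (by decide +kernel)
              (CovZ.n2 (-43704, 38808) (by decide +kernel)
               (CovZ.n2 (-43704, 38736) (by decide +kernel)
                (CovZ.leaf K2_ok TH_l6674 _)
                (CovZ.badM (by decide +kernel)))
               (CovZ.leaf K2_ok TH_l6675 _))
              (CovZ.n1 (-43704, 38664) (by decide +kernel)
               (CovZ.leaf K2_ok TH_l6676 _)
               (CovZ.n1 (-43704, 38736) (by decide +kernel)
                (CovZ.badM (by decide +kernel))
                (CovZ.leaf K2_ok TH_l6677 _))))
             (CovZ.n1 (-43632, 38880) (by decide +kernel)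
              (CovZ.badM (by decide +kernel))
              (CovZ.n1 (-43704, 38808) (by decide +kernel)
               (CovZ.n2 (-43704, 38880) (by decide +kernel)
                (CovZ.badM (by decide +kernel))
                (CovZ.leaf K2_ok TH_l6678 _))
               (CovZ.badM (by decide +kernel)))))))
          (CovZ.n1 (-43488, 38304) (by decide +kernel)
           (CovZ.n2 (-43776, 38304) (by decide +kernel)
            (CovZ.n2 (-43632, 38448) (by decide +kernel)
             (CovZ.n2 (-43632, 38304) (by decide +kernel)
              (CovZ.n2 (-43704, 38376) (by decide +kernel)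
               (CovZ.badM (by decide +kernel))
               (CovZ.n1 (-43704, 38304) (by decide +kernel)
                (CovZ.leaf K2_ok TH_l6679 _)
                (CovZ.badM (by decide +kernel))))
              (CovZ.badM (by decide +kernel)))
             (CovZ.n1 (-43776, 38448) (by decide +kernel)
              (CovZ.n2 (-43704, 38520) (by decide +kernel)
               (CovZ.n2 (-43704, 38448) (by decide +kernel)
                (CovZ.leaf K2_ok TH_l6680 _)
                (CovZ.badM (by decide +kernel)))
               (CovZ.leaf K2_ok TH_l6681 _))
              (CovZ.n1 (-43704, 38376) (by decide +kernel)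
               (CovZ.leaf K2_ok TH_l6682 _)
               (CovZ.n1 (-43704, 38448) (by decide +kernel)
                (CovZ.badM (by decide +kernel))
                (CovZ.leaf K2_ok TH_l6683 _)))))
            (CovZ.n1 (-43632, 38160) (by decide +kernel)
             (CovZ.n2 (-43776, 38160) (by decide +kernel)
              (CovZ.n2 (-43704, 38232) (by decide +kernel)
               (CovZ.n2 (-43704, 38160) (by decide +kernel)
                (CovZ.leaf K2_ok TH_l6684 _)
                (CovZ.badM (by decide +kernel)))
               (CovZ.leaf K2_ok TH_l6685 _))
              (CovZ.badM (by decide +kernel)))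
             (CovZ.n1 (-43632, 38304) (by decide +kernel)
              (CovZ.badM (by decide +kernel))
              (CovZ.n1 (-43704, 38232) (by decide +kernel)
               (CovZ.n2 (-43704, 38304) (by decide +kernel)
                (CovZ.badM (by decide +kernel))
                (CovZ.leaf K2_ok TH_l6686 _))
               (CovZ.badM (by decide +kernel))))))
           (CovZ.n1 (-43488, 38592) (by decide +kernel)
            (CovZ.badM (by decide +kernel))
            (CovZ.n1 (-43632, 38448) (by decide +kernel)
             (CovZ.n2 (-43632, 38592) (by decide +kernel)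
              (CovZ.badM (by decide +kernel))
              (CovZ.n1 (-43704, 38520) (by decide +kernel)
               (CovZ.n2 (-43704, 38592) (by decide +kernel)
                (CovZ.badM (by decide +kernel))
                (CovZ.leaf K2_ok TH_l6687 _))
               (CovZ.badM (by decide +kernel))))
             (CovZ.badM (by decide +kernel)))))))
        (CovZ.n1 (-43200, 37440) (by decide +kernel)
         (CovZ.badM (by decide +kernel))
         (CovZ.n1 (-43200, 38016) (by decide +kernel)
          (CovZ.badM (by decide +kernel))
          (CovZ.n1 (-43488, 37728) (by decide +kernel)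
           (CovZ.n2 (-43488, 38016) (by decide +kernel)
            (CovZ.badM (by decide +kernel))
            (CovZ.badM (by decide +kernel)))
           (CovZ.badM (by decide +kernel))))))))

theorem TH_u6 : CovZ TH_M (toL (selN TH_LN 1569281420181640954801513654766408164712804406089397830144)) [0, 7, 6, 1] (-46080, 41472) (-46080, 39168) (-43776, 39168) :=
    (CovZ.n2 (-44928, 40320) (by decide +kernel)
      (CovZ.n2 (-44928, 39168) (by decide +kernel)
       (CovZ.n2 (-45504, 39744) (by decide +kernel)
        (CovZ.subM 166153509376639520762500951377444864 (by decide +kernel)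
         (CovZ.n2 (-44928, 39744) (by decide +kernel)
          (CovZ.n2 (-45216, 39456) (by decide +kernel)
           (CovZ.n2 (-45216, 39744) (by decide +kernel)
            (CovZ.n2 (-45072, 39600) (by decide +kernel)
             (CovZ.leaf K2_ok TH_l6688 _)
             (CovZ.leaf K2_ok TH_l6689 _))
            (CovZ.leaf K2_ok TH_l6690 _))
           (CovZ.n1 (-44928, 39456) (by decide +kernel)
            (CovZ.n2 (-45072, 39312) (by decide +kernel)
             (CovZ.leaf K2_ok TH_l6691 _)
             (CovZ.leaf K2_ok TH_l6692 _))
            (CovZ.n1 (-45072, 39600) (by decide +kernel)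
             (CovZ.leaf K2_ok TH_l6693 _)
             (CovZ.leaf K2_ok TH_l6694 _))))
          (CovZ.n1 (-45216, 40032) (by decide +kernel)
           (CovZ.n2 (-44928, 40032) (by decide +kernel)
            (CovZ.n2 (-45072, 39888) (by decide +kernel)
             (CovZ.leaf K2_ok TH_l6695 _)
             (CovZ.leaf K2_ok TH_l6696 _))
            (CovZ.n1 (-45072, 40176) (by decide +kernel)
             (CovZ.leaf K2_ok TH_l6697 _)
             (CovZ.leaf K2_ok TH_l6698 _)))
           (CovZ.n1 (-45216, 39744) (by decide +kernel)
            (CovZ.leaf K2_ok TH_l6699 _)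
            (CovZ.n1 (-45072, 39888) (by decide +kernel)
             (CovZ.leaf K2_ok TH_l6700 _)
             (CovZ.leaf K2_ok TH_l6701 _))))))
        (CovZ.n1 (-45504, 39168) (by decide +kernel)
         (CovZ.n2 (-45792, 39456) (by decide +kernel)
          (CovZ.n2 (-45504, 39456) (by decide +kernel)
           (CovZ.leaf K2_ok TH_l6702 _)
           (CovZ.leaf K2_ok TH_l6703 _))
          (CovZ.n1 (-45792, 39168) (by decide +kernel)
           (CovZ.leaf K2_ok TH_l6704 _)
           (CovZ.leaf K2_ok TH_l6705 _)))
         (CovZ.subM 166153509376639520762500951377444864 (by decide +kernel)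
          (CovZ.n1 (-45216, 39456) (by decide +kernel)
           (CovZ.n2 (-45216, 39168) (by decide +kernel)
            (CovZ.leaf K2_ok TH_l6706 _)
            (CovZ.n1 (-45072, 39312) (by decide +kernel)
             (CovZ.leaf K2_ok TH_l6707 _)
             (CovZ.leaf K2_ok TH_l6708 _)))
           (CovZ.n1 (-45504, 39456) (by decide +kernel)
            (CovZ.leaf K2_ok TH_l6709 _)
            (CovZ.leaf K2_ok TH_l6710 _))))))
       (CovZ.subM 166153509376634798396018081732231168 (by decide +kernel)
        (CovZ.n1 (-44352, 39744) (by decide +kernel)
         (CovZ.n2 (-44352, 39168) (by decide +kernel)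
          (CovZ.n2 (-44640, 39456) (by decide +kernel)
           (CovZ.n2 (-44352, 39456) (by decide +kernel)
            (CovZ.n2 (-44496, 39312) (by decide +kernel)
             (CovZ.n2 (-44496, 39456) (by decide +kernel)
              (CovZ.leaf K2_ok TH_l6711 _)
              (CovZ.leaf K2_ok TH_l6712 _))
             (CovZ.leaf K2_ok TH_l6713 _))
            (CovZ.n1 (-44496, 39600) (by decide +kernel)
             (CovZ.leaf K2_ok TH_l6714 _)
             (CovZ.n1 (-44496, 39456) (by decide +kernel)
              (CovZ.leaf K2_ok TH_l6715 _)
              (CovZ.leaf K2_ok TH_l6716 _))))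
           (CovZ.n1 (-44640, 39168) (by decide +kernel)
            (CovZ.n2 (-44784, 39312) (by decide +kernel)
             (CovZ.leaf K2_ok TH_l6717 _)
             (CovZ.leaf K2_ok TH_l6718 _))
            (CovZ.n1 (-44496, 39312) (by decide +kernel)
             (CovZ.n2 (-44496, 39168) (by decide +kernel)
              (CovZ.leaf K2_ok TH_l6719 _)
              (CovZ.leaf K2_ok TH_l6720 _))
             (CovZ.leaf K2_ok TH_l6721 _))))
          (CovZ.n1 (-44064, 39456) (by decide +kernel)
           (CovZ.n2 (-44064, 39168) (by decide +kernel)
            (CovZ.n2 (-44208, 39312) (by decide +kernel)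
             (CovZ.n2 (-44064, 39312) (by decide +kernel)
              (CovZ.leaf K2_ok TH_l6722 _)
              (CovZ.leaf K2_ok TH_l6723 _))
             (CovZ.n1 (-44208, 39168) (by decide +kernel)
              (CovZ.leaf K2_ok TH_l6724 _)
              (CovZ.leaf K2_ok TH_l6725 _)))
            (CovZ.n1 (-43920, 39312) (by decide +kernel)
             (CovZ.n2 (-43920, 39168) (by decide +kernel)
              (CovZ.leaf K2_ok TH_l6726 _)
              (CovZ.n1 (-43848, 39240) (by decide +kernel)
               (CovZ.leaf K2_ok TH_l6727 _)
               (CovZ.leaf K2_ok TH_l6728 _)))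
             (CovZ.n1 (-44064, 39312) (by decide +kernel)
              (CovZ.n2 (-43992, 39384) (by decide +kernel)
               (CovZ.leaf K2_ok TH_l6729 _)
               (CovZ.leaf K2_ok TH_l6730 _))
              (CovZ.leaf K2_ok TH_l6731 _))))
           (CovZ.n1 (-44352, 39456) (by decide +kernel)
            (CovZ.n2 (-44208, 39600) (by decide +kernel)
             (CovZ.n2 (-44208, 39456) (by decide +kernel)
              (CovZ.leaf K2_ok TH_l6732 _)
              (CovZ.leaf K2_ok TH_l6733 _))
             (CovZ.n1 (-44352, 39600) (by decide +kernel)
              (CovZ.leaf K2_ok TH_l6734 _)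
              (CovZ.leaf K2_ok TH_l6735 _)))
            (CovZ.n1 (-44208, 39312) (by decide +kernel)
             (CovZ.n2 (-44352, 39312) (by decide +kernel)
              (CovZ.leaf K2_ok TH_l6736 _)
              (CovZ.leaf K2_ok TH_l6737 _))
             (CovZ.n1 (-44208, 39456) (by decide +kernel)
              (CovZ.leaf K2_ok TH_l6738 _)
              (CovZ.leaf K2_ok TH_l6739 _))))))
         (CovZ.n1 (-44928, 39744) (by decide +kernel)
          (CovZ.n2 (-44640, 40032) (by decide +kernel)
           (CovZ.n2 (-44640, 39744) (by decide +kernel)
            (CovZ.n2 (-44784, 39888) (by decide +kernel)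
             (CovZ.leaf K2_ok TH_l6740 _)
             (CovZ.leaf K2_ok TH_l6741 _))
            (CovZ.n1 (-44496, 39888) (by decide +kernel)
             (CovZ.n2 (-44496, 39744) (by decide +kernel)
              (CovZ.leaf K2_ok TH_l6742 _)
              (CovZ.leaf K2_ok TH_l6743 _))
             (CovZ.leaf K2_ok TH_l6744 _)))
           (CovZ.n1 (-44928, 40032) (by decide +kernel)
            (CovZ.n2 (-44784, 40176) (by decide +kernel)
             (CovZ.leaf K2_ok TH_l6745 _)
             (CovZ.leaf K2_ok TH_l6746 _))
            (CovZ.n1 (-44784, 39888) (by decide +kernel)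
             (CovZ.leaf K2_ok TH_l6747 _)
             (CovZ.leaf K2_ok TH_l6748 _))))
          (CovZ.n1 (-44640, 39456) (by decide +kernel)
           (CovZ.n2 (-44928, 39456) (by decide +kernel)
            (CovZ.n2 (-44784, 39600) (by decide +kernel)
             (CovZ.leaf K2_ok TH_l6749 _)
             (CovZ.leaf K2_ok TH_l6750 _))
            (CovZ.n1 (-44784, 39312) (by decide +kernel)
             (CovZ.leaf K2_ok TH_l6751 _)
             (CovZ.n1 (-44784, 39456) (by decide +kernel)
              (CovZ.leaf K2_ok TH_l6752 _)
              (CovZ.leaf K2_ok TH_l6753 _))))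
           (CovZ.n1 (-44640, 39744) (by decide +kernel)
            (CovZ.n2 (-44496, 39600) (by decide +kernel)
             (CovZ.leaf K2_ok TH_l6754 _)
             (CovZ.n1 (-44496, 39744) (by decide +kernel)
              (CovZ.leaf K2_ok TH_l6755 _)
              (CovZ.leaf K2_ok TH_l6756 _)))
            (CovZ.n1 (-44784, 39600) (by decide +kernel)
             (CovZ.leaf K2_ok TH_l6757 _)
             (CovZ.leaf K2_ok TH_l6758 _))))))))
      (CovZ.n1 (-46080, 40320) (by decide +kernel)
       (CovZ.n2 (-45504, 40896) (by decide +kernel)
        (CovZ.n2 (-45504, 40320) (by decide +kernel)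
         (CovZ.n2 (-45792, 40608) (by decide +kernel)
          (CovZ.n2 (-45504, 40608) (by decide +kernel)
           (CovZ.leaf K2_ok TH_l6759 _)
           (CovZ.n1 (-45648, 40752) (by decide +kernel)
            (CovZ.leaf K2_ok TH_l6760 _)
            (CovZ.leaf K2_ok TH_l6761 _)))
          (CovZ.n1 (-45792, 40320) (by decide +kernel)
           (CovZ.leaf K2_ok TH_l6762 _)
           (CovZ.leaf K2_ok TH_l6763 _)))
         (CovZ.subM 166153509376634798396018081732231168 (by decide +kernel)
          (CovZ.n1 (-45216, 40608) (by decide +kernel)
           (CovZ.n2 (-45216, 40320) (by decide +kernel)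
            (CovZ.leaf K2_ok TH_l6764 _)
            (CovZ.n1 (-45072, 40464) (by decide +kernel)
             (CovZ.leaf K2_ok TH_l6765 _)
             (CovZ.leaf K2_ok TH_l6766 _)))
           (CovZ.n1 (-45504, 40608) (by decide +kernel)
            (CovZ.n2 (-45360, 40752) (by decide +kernel)
             (CovZ.leaf K2_ok TH_l6767 _)
             (CovZ.leaf K2_ok TH_l6768 _))
            (CovZ.leaf K2_ok TH_l6769 _)))))
        (CovZ.n1 (-46080, 40896) (by decide +kernel)
         (CovZ.n2 (-45792, 41184) (by decide +kernel)
          (CovZ.n2 (-45792, 40896) (by decide +kernel)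
           (CovZ.n2 (-45936, 41040) (by decide +kernel)
            (CovZ.leaf K2_ok TH_l6770 _)
            (CovZ.leaf K2_ok TH_l6771 _))
           (CovZ.n1 (-45648, 41040) (by decide +kernel)
            (CovZ.leaf K2_ok TH_l6772 _)
            (CovZ.leaf K2_ok TH_l6773 _)))
          (CovZ.n1 (-46080, 41184) (by decide +kernel)
           (CovZ.subM 1428293040137141013921565779894054952456684032 (by decide +kernel)
            (CovZ.n2 (-45936, 41328) (by decide +kernel)
             (CovZ.n2 (-45936, 41184) (by decide +kernel)
              (CovZ.leaf K2_ok TH_l6774 _)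
              (CovZ.leaf K2_ok TH_l6775 _))
             (CovZ.n1 (-46080, 41328) (by decide +kernel)
              (CovZ.n2 (-46008, 41400) (by decide +kernel)
               (CovZ.leaf K2_ok TH_l6776 _)
               (CovZ.leaf K2_ok TH_l6777 _))
              (CovZ.leaf K2_ok TH_l6778 _))))
           (CovZ.n1 (-45936, 41040) (by decide +kernel)
            (CovZ.leaf K2_ok TH_l6779 _)
            (CovZ.leaf K2_ok TH_l6780 _))))
         (CovZ.n1 (-45792, 40608) (by decide +kernel)
          (CovZ.n2 (-46080, 40608) (by decide +kernel)
           (CovZ.leaf K2_ok TH_l6781 _)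
           (CovZ.n1 (-45936, 40464) (by decide +kernel)
            (CovZ.leaf K2_ok TH_l6782 _)
            (CovZ.leaf K2_ok TH_l6783 _)))
          (CovZ.n1 (-45792, 40896) (by decide +kernel)
           (CovZ.leaf K2_ok TH_l6784 _)
           (CovZ.leaf K2_ok TH_l6785 _)))))
       (CovZ.n1 (-45504, 39744) (by decide +kernel)
        (CovZ.n2 (-46080, 39744) (by decide +kernel)
         (CovZ.n2 (-45792, 40032) (by decide +kernel)
          (CovZ.n2 (-45792, 39744) (by decide +kernel)
           (CovZ.leaf K2_ok TH_l6786 _)
           (CovZ.leaf K2_ok TH_l6787 _))
          (CovZ.leaf K2_ok TH_l6788 _))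
         (CovZ.n1 (-45792, 39456) (by decide +kernel)
          (CovZ.n2 (-46080, 39456) (by decide +kernel)
           (CovZ.leaf K2_ok TH_l6789 _)
           (CovZ.leaf K2_ok TH_l6790 _))
          (CovZ.n1 (-45792, 39744) (by decide +kernel)
           (CovZ.leaf K2_ok TH_l6791 _)
           (CovZ.leaf K2_ok TH_l6792 _))))
        (CovZ.n1 (-45504, 40320) (by decide +kernel)
         (CovZ.subM 166153509376639520762500951377444864 (by decide +kernel)
          (CovZ.n2 (-45216, 40032) (by decide +kernel)
           (CovZ.n2 (-45504, 40032) (by decide +kernel)
            (CovZ.leaf K2_ok TH_l6793 _)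
            (CovZ.n1 (-45360, 39888) (by decide +kernel)
             (CovZ.leaf K2_ok TH_l6794 _)
             (CovZ.leaf K2_ok TH_l6795 _)))
           (CovZ.n1 (-45216, 40320) (by decide +kernel)
            (CovZ.n2 (-45072, 40176) (by decide +kernel)
             (CovZ.leaf K2_ok TH_l6796 _)
             (CovZ.leaf K2_ok TH_l6797 _))
            (CovZ.leaf K2_ok TH_l6798 _))))
         (CovZ.n1 (-45792, 40032) (by decide +kernel)
          (CovZ.n2 (-45792, 40320) (by decide +kernel)
           (CovZ.leaf K2_ok TH_l6799 _)
           (CovZ.leaf K2_ok TH_l6800 _))
          (CovZ.n1 (-45504, 40032) (by decide +kernel)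
           (CovZ.leaf K2_ok TH_l6801 _)
           (CovZ.leaf K2_ok TH_l6802 _)))))))

theorem TH_u7 : CovZ TH_M (toL (selN TH_LN 1569281420181640954801513654766408164712804406089397830144)) [0, 7, 6, 1] (-46080, 39168) (-46080, 36864) (-43776, 39168) :=
    (CovZ.n1 (-44928, 38016) (by decide +kernel)
      (CovZ.n2 (-46080, 38016) (by decide +kernel)
       (CovZ.n2 (-45504, 38592) (by decide +kernel)
        (CovZ.n2 (-45504, 38016) (by decide +kernel)
         (CovZ.n2 (-45792, 38304) (by decide +kernel)
          (CovZ.badM (by decide +kernel))
          (CovZ.n1 (-45792, 38016) (by decide +kernel)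
           (CovZ.leaf K2_ok TH_l6803 _)
           (CovZ.badM (by decide +kernel))))
         (CovZ.badM (by decide +kernel)))
        (CovZ.n1 (-46080, 38592) (by decide +kernel)
         (CovZ.n2 (-45792, 38880) (by decide +kernel)
          (CovZ.n2 (-45792, 38592) (by decide +kernel)
           (CovZ.leaf K2_ok TH_l6804 _)
           (CovZ.badM (by decide +kernel)))
          (CovZ.n1 (-46080, 38880) (by decide +kernel)
           (CovZ.leaf K2_ok TH_l6805 _)
           (CovZ.leaf K2_ok TH_l6806 _)))
         (CovZ.n1 (-45792, 38304) (by decide +kernel)
          (CovZ.leaf K2_ok TH_l6807 _)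
          (CovZ.n1 (-45792, 38592) (by decide +kernel)
           (CovZ.badM (by decide +kernel))
           (CovZ.leaf K2_ok TH_l6808 _)))))
       (CovZ.n1 (-45504, 37440) (by decide +kernel)
        (CovZ.n2 (-46080, 37440) (by decide +kernel)
         (CovZ.n2 (-45792, 37728) (by decide +kernel)
          (CovZ.n2 (-45792, 37440) (by decide +kernel)
           (CovZ.leaf K2_ok TH_l6809 _)
           (CovZ.badM (by decide +kernel)))
          (CovZ.leaf K2_ok TH_l6810 _))
         (CovZ.n1 (-45792, 37152) (by decide +kernel)
          (CovZ.n2 (-46080, 37152) (by decide +kernel)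
           (CovZ.leaf K2_ok TH_l6811 _)
           (CovZ.leaf K2_ok TH_l6812 _))
          (CovZ.n1 (-45792, 37440) (by decide +kernel)
           (CovZ.badM (by decide +kernel))
           (CovZ.leaf K2_ok TH_l6813 _))))
        (CovZ.n1 (-45504, 38016) (by decide +kernel)
         (CovZ.badM (by decide +kernel))
         (CovZ.n1 (-45792, 37728) (by decide +kernel)
          (CovZ.n2 (-45792, 38016) (by decide +kernel)
           (CovZ.badM (by decide +kernel))
           (CovZ.leaf K2_ok TH_l6814 _))
          (CovZ.badM (by decide +kernel))))))
      (CovZ.n1 (-44928, 39168) (by decide +kernel)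
       (CovZ.subM 9903525036649525068842401792 (by decide +kernel)
        (CovZ.n2 (-44352, 38592) (by decide +kernel)
         (CovZ.n2 (-44928, 38592) (by decide +kernel)
          (CovZ.n2 (-44640, 38880) (by decide +kernel)
           (CovZ.n2 (-44640, 38592) (by decide +kernel)
            (CovZ.n2 (-44784, 38736) (by decide +kernel)
             (CovZ.leaf K2_ok TH_l6815 _)
             (CovZ.badM (by decide +kernel)))
            (CovZ.n1 (-44496, 38736) (by decide +kernel)
             (CovZ.badM (by decide +kernel))
             (CovZ.leaf K2_ok TH_l6816 _)))
           (CovZ.n1 (-44928, 38880) (by decide +kernel)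
            (CovZ.n2 (-44784, 39024) (by decide +kernel)
             (CovZ.leaf K2_ok TH_l6817 _)
             (CovZ.leaf K2_ok TH_l6818 _))
            (CovZ.n1 (-44784, 38736) (by decide +kernel)
             (CovZ.badM (by decide +kernel))
             (CovZ.n1 (-44784, 38880) (by decide +kernel)
              (CovZ.leaf K2_ok TH_l6819 _)
              (CovZ.badM (by decide +kernel))))))
          (CovZ.badM (by decide +kernel)))
         (CovZ.n1 (-44352, 39168) (by decide +kernel)
          (CovZ.n2 (-44064, 38880) (by decide +kernel)
           (CovZ.n2 (-44352, 38880) (by decide +kernel)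
            (CovZ.n2 (-44208, 39024) (by decide +kernel)
             (CovZ.n2 (-44208, 38880) (by decide +kernel)
              (CovZ.leaf K2_ok TH_l6820 _)
              (CovZ.leaf K2_ok TH_l6821 _))
             (CovZ.leaf K2_ok TH_l6822 _))
            (CovZ.n1 (-44208, 38736) (by decide +kernel)
             (CovZ.n2 (-44352, 38736) (by decide +kernel)
              (CovZ.leaf K2_ok TH_l6823 _)
              (CovZ.leaf K2_ok TH_l6824 _))
             (CovZ.n1 (-44208, 38880) (by decide +kernel)
              (CovZ.leaf K2_ok TH_l6825 _)
              (CovZ.leaf K2_ok TH_l6826 _))))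
           (CovZ.n1 (-44064, 39168) (by decide +kernel)
            (CovZ.n2 (-43920, 39024) (by decide +kernel)
             (CovZ.n2 (-44064, 39024) (by decide +kernel)
              (CovZ.leaf K2_ok TH_l6827 _)
              (CovZ.leaf K2_ok TH_l6828 _))
             (CovZ.n1 (-43920, 39168) (by decide +kernel)
              (CovZ.n2 (-43848, 39096) (by decide +kernel)
               (CovZ.leaf K2_ok TH_l6829 _)
               (CovZ.leaf K2_ok TH_l6830 _))
              (CovZ.leaf K2_ok TH_l6831 _)))
            (CovZ.n1 (-44208, 39024) (by decide +kernel)
             (CovZ.n2 (-44208, 39168) (by decide +kernel)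
              (CovZ.leaf K2_ok TH_l6832 _)
              (CovZ.leaf K2_ok TH_l6833 _))
             (CovZ.n1 (-44064, 39024) (by decide +kernel)
              (CovZ.leaf K2_ok TH_l6834 _)
              (CovZ.leaf K2_ok TH_l6835 _)))))
          (CovZ.n1 (-44640, 38880) (by decide +kernel)
           (CovZ.n2 (-44640, 39168) (by decide +kernel)
            (CovZ.n2 (-44496, 39024) (by decide +kernel)
             (CovZ.leaf K2_ok TH_l6836 _)
             (CovZ.n1 (-44496, 39168) (by decide +kernel)
              (CovZ.leaf K2_ok TH_l6837 _)
              (CovZ.leaf K2_ok TH_l6838 _)))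
            (CovZ.n1 (-44784, 39024) (by decide +kernel)
             (CovZ.n2 (-44784, 39168) (by decide +kernel)
              (CovZ.leaf K2_ok TH_l6839 _)
              (CovZ.leaf K2_ok TH_l6840 _))
             (CovZ.leaf K2_ok TH_l6841 _)))
           (CovZ.n1 (-44352, 38880) (by decide +kernel)
            (CovZ.n2 (-44496, 38736) (by decide +kernel)
             (CovZ.n2 (-44496, 38880) (by decide +kernel)
              (CovZ.leaf K2_ok TH_l6842 _)
              (CovZ.leaf K2_ok TH_l6843 _))
             (CovZ.leaf K2_ok TH_l6844 _))
            (CovZ.n1 (-44496, 39024) (by decide +kernel)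
             (CovZ.leaf K2_ok TH_l6845 _)
             (CovZ.n1 (-44496, 38880) (by decide +kernel)
              (CovZ.leaf K2_ok TH_l6846 _)
              (CovZ.leaf K2_ok TH_l6847 _))))))))
       (CovZ.n1 (-45504, 38592) (by decide +kernel)
        (CovZ.n2 (-45504, 39168) (by decide +kernel)
         (CovZ.subM 9903525036649525068842401792 (by decide +kernel)
          (CovZ.n2 (-45216, 38880) (by decide +kernel)
           (CovZ.badM (by decide +kernel))
           (CovZ.n1 (-45216, 39168) (by decide +kernel)
            (CovZ.n2 (-45072, 39024) (by decide +kernel)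
             (CovZ.leaf K2_ok TH_l6848 _)
             (CovZ.leaf K2_ok TH_l6849 _))
            (CovZ.leaf K2_ok TH_l6850 _))))
         (CovZ.n1 (-45792, 38880) (by decide +kernel)
          (CovZ.n2 (-45792, 39168) (by decide +kernel)
           (CovZ.leaf K2_ok TH_l6851 _)
           (CovZ.leaf K2_ok TH_l6852 _))
          (CovZ.badM (by decide +kernel))))
        (CovZ.subM 9903525036649525068842401792 (by decide +kernel)
         (CovZ.n1 (-44928, 38592) (by decide +kernel)
          (CovZ.badM (by decide +kernel))
          (CovZ.n1 (-45216, 38880) (by decide +kernel)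
           (CovZ.n2 (-44928, 38880) (by decide +kernel)
            (CovZ.badM (by decide +kernel))
            (CovZ.n1 (-45072, 39024) (by decide +kernel)
             (CovZ.leaf K2_ok TH_l6853 _)
             (CovZ.badM (by decide +kernel))))
           (CovZ.badM (by decide +kernel))))))))

theorem TH_u8 : CovZ TH_M (toL (selN TH_LN 1569281420181640954801513654766408164712804406089397830144)) [0, 7, 6, 1] (-46080, 41472) (-44928, 40320) (-43776, 41472) :=
    (CovZ.subM 1428293380585661434333143764275126414212596224 (by decide +kernel)
       (CovZ.n2 (-44928, 41472) (by decide +kernel)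
        (CovZ.subM 166153509376634798396018081732231168 (by decide +kernel)
         (CovZ.n2 (-44352, 40896) (by decide +kernel)
          (CovZ.n2 (-44928, 40896) (by decide +kernel)
           (CovZ.badM (by decide +kernel))
           (CovZ.n1 (-44640, 40608) (by decide +kernel)
            (CovZ.n2 (-44928, 40608) (by decide +kernel)
             (CovZ.n2 (-44784, 40752) (by decide +kernel)
              (CovZ.n2 (-44784, 40608) (by decide +kernel)
               (CovZ.leaf K2_ok TH_l6890 _)
               (CovZ.leaf K2_ok TH_l6891 _))
              (CovZ.n1 (-44928, 40752) (by decide +kernel)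
               (CovZ.n2 (-44856, 40824) (by decide +kernel)
                (CovZ.leaf K2_ok TH_l6892 _)
                (CovZ.leaf K2_ok TH_l6893 _))
               (CovZ.leaf K2_ok TH_l6894 _)))
             (CovZ.n1 (-44784, 40464) (by decide +kernel)
              (CovZ.leaf K2_ok TH_l6895 _)
              (CovZ.n1 (-44784, 40608) (by decide +kernel)
               (CovZ.leaf K2_ok TH_l6896 _)
               (CovZ.leaf K2_ok TH_l6897 _))))
            (CovZ.n1 (-44640, 40896) (by decide +kernel)
             (CovZ.n2 (-44496, 40752) (by decide +kernel)
              (CovZ.n2 (-44640, 40752) (by decide +kernel)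
               (CovZ.badM (by decide +kernel))
               (CovZ.n1 (-44568, 40680) (by decide +kernel)
                (CovZ.leaf K2_ok TH_l6898 _)
                (CovZ.badM (by decide +kernel))))
              (CovZ.badM (by decide +kernel)))
             (CovZ.n1 (-44784, 40752) (by decide +kernel)
              (CovZ.badM (by decide +kernel))
              (CovZ.n1 (-44640, 40752) (by decide +kernel)
               (CovZ.leaf K2_ok TH_l6899 _)
               (CovZ.badM (by decide +kernel)))))))
          (CovZ.badM (by decide +kernel))))
        (CovZ.n1 (-45504, 40896) (by decide +kernel)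
         (CovZ.subM 1427247692705959881058285978816982361318097408 (by decide +kernel)
          (CovZ.n2 (-45504, 41472) (by decide +kernel)
           (CovZ.subM 4194304 (by decide +kernel)
            (CovZ.n2 (-45216, 41184) (by decide +kernel)
             (CovZ.n2 (-45504, 41184) (by decide +kernel)
              (CovZ.badM (by decide +kernel))
              (CovZ.n1 (-45360, 41040) (by decide +kernel)
               (CovZ.n2 (-45504, 41040) (by decide +kernel)
                (CovZ.n2 (-45432, 41112) (by decide +kernel)
                 (CovZ.leaf K2_ok TH_l6900 _)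
                 (CovZ.leaf K2_ok TH_l6901 _))
                (CovZ.leaf K2_ok TH_l6902 _))
               (CovZ.badM (by decide +kernel))))
             (CovZ.badM (by decide +kernel))))
           (CovZ.n1 (-45792, 41184) (by decide +kernel)
            (CovZ.n2 (-45792, 41472) (by decide +kernel)
             (CovZ.subM 4194304 (by decide +kernel)
              (CovZ.n2 (-45648, 41328) (by decide +kernel)
               (CovZ.n2 (-45792, 41328) (by decide +kernel)
                (CovZ.badM (by decide +kernel))
                (CovZ.n1 (-45720, 41256) (by decide +kernel)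
                 (CovZ.leaf K2_ok TH_l6903 _)
                 (CovZ.badM (by decide +kernel))))
               (CovZ.badM (by decide +kernel))))
             (CovZ.n1 (-45936, 41328) (by decide +kernel)
              (CovZ.subM 9367487224930631680 (by decide +kernel)
               (CovZ.n2 (-45936, 41472) (by decide +kernel)
                (CovZ.badM (by decide +kernel))
                (CovZ.n1 (-46008, 41400) (by decide +kernel)
                 (CovZ.n2 (-46008, 41472) (by decide +kernel)
                  (CovZ.badM (by decide +kernel))
                  (CovZ.leaf K2_ok TH_l6904 _))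
                 (CovZ.badM (by decide +kernel)))))
              (CovZ.n1 (-45792, 41328) (by decide +kernel)
               (CovZ.leaf K2_ok TH_l6905 _)
               (CovZ.badM (by decide +kernel)))))
            (CovZ.subM 4194304 (by decide +kernel)
             (CovZ.n1 (-45504, 41184) (by decide +kernel)
              (CovZ.n2 (-45648, 41040) (by decide +kernel)
               (CovZ.n2 (-45648, 41184) (by decide +kernel)
                (CovZ.leaf K2_ok TH_l6906 _)
                (CovZ.leaf K2_ok TH_l6907 _))
               (CovZ.n1 (-45504, 41040) (by decide +kernel)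
                (CovZ.leaf K2_ok TH_l6908 _)
                (CovZ.leaf K2_ok TH_l6909 _)))
              (CovZ.n1 (-45648, 41328) (by decide +kernel)
               (CovZ.badM (by decide +kernel))
               (CovZ.n1 (-45648, 41184) (by decide +kernel)
                (CovZ.n2 (-45720, 41256) (by decide +kernel)
                 (CovZ.badM (by decide +kernel))
                 (CovZ.leaf K2_ok TH_l6910 _))
                (CovZ.badM (by decide +kernel)))))))))
         (CovZ.subM 166153509376634798396018081732231168 (by decide +kernel)
          (CovZ.n1 (-44928, 40896) (by decide +kernel)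
           (CovZ.n2 (-45216, 40608) (by decide +kernel)
            (CovZ.n2 (-45216, 40896) (by decide +kernel)
             (CovZ.n2 (-45072, 40752) (by decide +kernel)
              (CovZ.leaf K2_ok TH_l6911 _)
              (CovZ.n1 (-45072, 40896) (by decide +kernel)
               (CovZ.leaf K2_ok TH_l6912 _)
               (CovZ.leaf K2_ok TH_l6913 _)))
             (CovZ.n1 (-45360, 40752) (by decide +kernel)
              (CovZ.leaf K2_ok TH_l6914 _)
              (CovZ.leaf K2_ok TH_l6915 _)))
            (CovZ.n1 (-44928, 40608) (by decide +kernel)
             (CovZ.n2 (-45072, 40464) (by decide +kernel)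
              (CovZ.leaf K2_ok TH_l6916 _)
              (CovZ.leaf K2_ok TH_l6917 _))
             (CovZ.n1 (-45072, 40752) (by decide +kernel)
              (CovZ.n2 (-44928, 40752) (by decide +kernel)
               (CovZ.leaf K2_ok TH_l6918 _)
               (CovZ.leaf K2_ok TH_l6919 _))
              (CovZ.leaf K2_ok TH_l6920 _))))
           (CovZ.n1 (-45216, 41184) (by decide +kernel)
            (CovZ.badM (by decide +kernel))
            (CovZ.n1 (-45216, 40896) (by decide +kernel)
             (CovZ.n2 (-45360, 41040) (by decide +kernel)
              (CovZ.n2 (-45216, 41040) (by decide +kernel)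
               (CovZ.n2 (-45288, 40968) (by decide +kernel)
                (CovZ.badM (by decide +kernel))
                (CovZ.leaf K2_ok TH_l6921 _))
               (CovZ.badM (by decide +kernel)))
              (CovZ.n1 (-45360, 40896) (by decide +kernel)
               (CovZ.leaf K2_ok TH_l6922 _)
               (CovZ.leaf K2_ok TH_l6923 _)))
             (CovZ.n1 (-45072, 41040) (by decide +kernel)
              (CovZ.n2 (-45072, 40896) (by decide +kernel)
               (CovZ.n2 (-45144, 40968) (by decide +kernel)
                (CovZ.badM (by decide +kernel))
                (CovZ.leaf K2_ok TH_l6924 _))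
               (CovZ.badM (by decide +kernel)))
              (CovZ.n1 (-45216, 41040) (by decide +kernel)
               (CovZ.badM (by decide +kernel))
               (CovZ.n1 (-45144, 40968) (by decide +kernel)
                (CovZ.leaf K2_ok TH_l6925 _)
                (CovZ.badM (by decide +kernel))))))))))))

theorem TH_u9 : CovZ TH_M (toL (selN TH_LN 1569281420181640954801513654766408164712804406089397830144)) [0, 7, 6, 1] (-44928, 40320) (-43776, 39168) (-43776, 41472) :=
    (CovZ.subM 166153509376634798396018081732231168 (by decide +kernel)
       (CovZ.n1 (-43776, 40320) (by decide +kernel)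
        (CovZ.n2 (-44352, 39744) (by decide +kernel)
         (CovZ.n2 (-44352, 40320) (by decide +kernel)
          (CovZ.n2 (-44064, 40032) (by decide +kernel)
           (CovZ.n2 (-44352, 40032) (by decide +kernel)
            (CovZ.n2 (-44208, 40176) (by decide +kernel)
             (CovZ.n2 (-44208, 40032) (by decide +kernel)
              (CovZ.leaf K2_ok TH_l6926 _)
              (CovZ.leaf K2_ok TH_l6927 _))
             (CovZ.n1 (-44352, 40176) (by decide +kernel)
              (CovZ.leaf K2_ok TH_l6928 _)
              (CovZ.leaf K2_ok TH_l6929 _)))
            (CovZ.n1 (-44208, 39888) (by decide +kernel)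
             (CovZ.n2 (-44352, 39888) (by decide +kernel)
              (CovZ.leaf K2_ok TH_l6930 _)
              (CovZ.leaf K2_ok TH_l6931 _))
             (CovZ.n1 (-44208, 40032) (by decide +kernel)
              (CovZ.leaf K2_ok TH_l6932 _)
              (CovZ.leaf K2_ok TH_l6933 _))))
           (CovZ.n1 (-44064, 40320) (by decide +kernel)
            (CovZ.n2 (-43920, 40176) (by decide +kernel)
             (CovZ.n2 (-44064, 40176) (by decide +kernel)
              (CovZ.n2 (-43992, 40248) (by decide +kernel)
               (CovZ.leaf K2_ok TH_l6934 _)
               (CovZ.leaf K2_ok TH_l6935 _))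
              (CovZ.leaf K2_ok TH_l6936 _))
             (CovZ.n1 (-43920, 40320) (by decide +kernel)
              (CovZ.n2 (-43848, 40248) (by decide +kernel)
               (CovZ.leaf K2_ok TH_l6937 _)
               (CovZ.badM (by decide +kernel)))
              (CovZ.n1 (-43992, 40248) (by decide +kernel)
               (CovZ.leaf K2_ok TH_l6938 _)
               (CovZ.leaf K2_ok TH_l6939 _))))
            (CovZ.n1 (-44208, 40176) (by decide +kernel)
             (CovZ.n2 (-44208, 40320) (by decide +kernel)
              (CovZ.n2 (-44136, 40248) (by decide +kernel)
               (CovZ.leaf K2_ok TH_l6940 _)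
               (CovZ.leaf K2_ok TH_l6941 _))
              (CovZ.leaf K2_ok TH_l6942 _))
             (CovZ.n1 (-44064, 40176) (by decide +kernel)
              (CovZ.leaf K2_ok TH_l6943 _)
              (CovZ.leaf K2_ok TH_l6944 _)))))
          (CovZ.n1 (-44640, 40032) (by decide +kernel)
           (CovZ.n2 (-44640, 40320) (by decide +kernel)
            (CovZ.n2 (-44496, 40176) (by decide +kernel)
             (CovZ.leaf K2_ok TH_l6945 _)
             (CovZ.n1 (-44496, 40320) (by decide +kernel)
              (CovZ.leaf K2_ok TH_l6946 _)
              (CovZ.leaf K2_ok TH_l6947 _)))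
            (CovZ.n1 (-44784, 40176) (by decide +kernel)
             (CovZ.leaf K2_ok TH_l6948 _)
             (CovZ.leaf K2_ok TH_l6949 _)))
           (CovZ.n1 (-44352, 40032) (by decide +kernel)
            (CovZ.n2 (-44496, 39888) (by decide +kernel)
             (CovZ.n2 (-44496, 40032) (by decide +kernel)
              (CovZ.leaf K2_ok TH_l6950 _)
              (CovZ.leaf K2_ok TH_l6951 _))
             (CovZ.leaf K2_ok TH_l6952 _))
            (CovZ.n1 (-44496, 40176) (by decide +kernel)
             (CovZ.leaf K2_ok TH_l6953 _)
             (CovZ.n1 (-44496, 40032) (by decide +kernel)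
              (CovZ.leaf K2_ok TH_l6954 _)
              (CovZ.leaf K2_ok TH_l6955 _))))))
         (CovZ.n1 (-43776, 39744) (by decide +kernel)
          (CovZ.n2 (-44064, 39456) (by decide +kernel)
           (CovZ.n2 (-44064, 39744) (by decide +kernel)
            (CovZ.n2 (-43920, 39600) (by decide +kernel)
             (CovZ.n2 (-44064, 39600) (by decide +kernel)
              (CovZ.n2 (-43992, 39672) (by decide +kernel)
               (CovZ.leaf K2_ok TH_l6956 _)
               (CovZ.leaf K2_ok TH_l6957 _))
              (CovZ.leaf K2_ok TH_l6958 _))
             (CovZ.n1 (-43920, 39744) (by decide +kernel)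
              (CovZ.n2 (-43848, 39672) (by decide +kernel)
               (CovZ.leaf K2_ok TH_l6959 _)
               (CovZ.leaf K2_ok TH_l6960 _))
              (CovZ.n1 (-43992, 39672) (by decide +kernel)
               (CovZ.leaf K2_ok TH_l6961 _)
               (CovZ.leaf K2_ok TH_l6962 _))))
            (CovZ.n1 (-44208, 39600) (by decide +kernel)
             (CovZ.n2 (-44208, 39744) (by decide +kernel)
              (CovZ.leaf K2_ok TH_l6963 _)
              (CovZ.leaf K2_ok TH_l6964 _))
             (CovZ.n1 (-44064, 39600) (by decide +kernel)
              (CovZ.leaf K2_ok TH_l6965 _)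
              (CovZ.leaf K2_ok TH_l6966 _))))
           (CovZ.n1 (-43776, 39456) (by decide +kernel)
            (CovZ.n2 (-43920, 39312) (by decide +kernel)
             (CovZ.n2 (-43920, 39456) (by decide +kernel)
              (CovZ.n2 (-43848, 39384) (by decide +kernel)
               (CovZ.leaf K2_ok TH_l6967 _)
               (CovZ.leaf K2_ok TH_l6968 _))
              (CovZ.n1 (-43992, 39384) (by decide +kernel)
               (CovZ.leaf K2_ok TH_l6969 _)
               (CovZ.leaf K2_ok TH_l6970 _)))
             (CovZ.n1 (-43776, 39312) (by decide +kernel)
              (CovZ.n2 (-43848, 39240) (by decide +kernel)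
               (CovZ.leaf K2_ok TH_l6971 _)
               (CovZ.leaf K2_ok TH_l6972 _))
              (CovZ.n1 (-43848, 39384) (by decide +kernel)
               (CovZ.leaf K2_ok TH_l6973 _)
               (CovZ.leaf K2_ok TH_l6974 _))))
            (CovZ.n1 (-43920, 39600) (by decide +kernel)
             (CovZ.n2 (-43776, 39600) (by decide +kernel)
              (CovZ.n2 (-43848, 39528) (by decide +kernel)
               (CovZ.leaf K2_ok TH_l6975 _)
               (CovZ.leaf K2_ok TH_l6976 _))
              (CovZ.n1 (-43848, 39672) (by decide +kernel)
               (CovZ.leaf K2_ok TH_l6977 _)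
               (CovZ.leaf K2_ok TH_l6978 _)))
             (CovZ.n1 (-43920, 39456) (by decide +kernel)
              (CovZ.leaf K2_ok TH_l6979 _)
              (CovZ.n1 (-43848, 39528) (by decide +kernel)
               (CovZ.leaf K2_ok TH_l6980 _)
               (CovZ.leaf K2_ok TH_l6981 _))))))
          (CovZ.n1 (-44064, 40032) (by decide +kernel)
           (CovZ.n2 (-43776, 40032) (by decide +kernel)
            (CovZ.n2 (-43920, 39888) (by decide +kernel)
             (CovZ.n2 (-43920, 40032) (by decide +kernel)
              (CovZ.n2 (-43848, 39960) (by decide +kernel)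
               (CovZ.leaf K2_ok TH_l6982 _)
               (CovZ.leaf K2_ok TH_l6983 _))
              (CovZ.n1 (-43992, 39960) (by decide +kernel)
               (CovZ.leaf K2_ok TH_l6984 _)
               (CovZ.leaf K2_ok TH_l6985 _)))
             (CovZ.n1 (-43776, 39888) (by decide +kernel)
              (CovZ.n2 (-43848, 39816) (by decide +kernel)
               (CovZ.leaf K2_ok TH_l6986 _)
               (CovZ.leaf K2_ok TH_l6987 _))
              (CovZ.n1 (-43848, 39960) (by decide +kernel)
               (CovZ.leaf K2_ok TH_l6988 _)
               (CovZ.leaf K2_ok TH_l6989 _))))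
            (CovZ.n1 (-43920, 40176) (by decide +kernel)
             (CovZ.n2 (-43776, 40176) (by decide +kernel)
              (CovZ.n2 (-43848, 40104) (by decide +kernel)
               (CovZ.leaf K2_ok TH_l6990 _)
               (CovZ.leaf K2_ok TH_l6991 _))
              (CovZ.n1 (-43848, 40248) (by decide +kernel)
               (CovZ.badM (by decide +kernel))
               (CovZ.leaf K2_ok TH_l6992 _)))
             (CovZ.n1 (-43920, 40032) (by decide +kernel)
              (CovZ.n2 (-43992, 40104) (by decide +kernel)
               (CovZ.leaf K2_ok TH_l6993 _)
               (CovZ.leaf K2_ok TH_l6994 _))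
              (CovZ.n1 (-43848, 40104) (by decide +kernel)
               (CovZ.leaf K2_ok TH_l6995 _)
               (CovZ.leaf K2_ok TH_l6996 _)))))
           (CovZ.n1 (-44064, 39744) (by decide +kernel)
            (CovZ.n2 (-44208, 39888) (by decide +kernel)
             (CovZ.n2 (-44064, 39888) (by decide +kernel)
              (CovZ.leaf K2_ok TH_l6997 _)
              (CovZ.leaf K2_ok TH_l6998 _))
             (CovZ.n1 (-44208, 39744) (by decide +kernel)
              (CovZ.leaf K2_ok TH_l6999 _)
              (CovZ.leaf K2_ok TH_l7000 _)))
            (CovZ.n1 (-43920, 39888) (by decide +kernel)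
             (CovZ.n2 (-43920, 39744) (by decide +kernel)
              (CovZ.leaf K2_ok TH_l7001 _)
              (CovZ.n1 (-43848, 39816) (by decide +kernel)
               (CovZ.leaf K2_ok TH_l7002 _)
               (CovZ.leaf K2_ok TH_l7003 _)))
             (CovZ.n1 (-44064, 39888) (by decide +kernel)
              (CovZ.n2 (-43992, 39960) (by decide +kernel)
               (CovZ.leaf K2_ok TH_l7004 _)
               (CovZ.leaf K2_ok TH_l7005 _))
              (CovZ.n1 (-43992, 39816) (by decide +kernel)
               (CovZ.leaf K2_ok TH_l7006 _)
               (CovZ.leaf K2_ok TH_l7007 _))))))))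
        (CovZ.n1 (-44352, 40896) (by decide +kernel)
         (CovZ.badM (by decide +kernel))
         (CovZ.n1 (-44352, 40320) (by decide +kernel)
          (CovZ.n2 (-44640, 40608) (by decide +kernel)
           (CovZ.n2 (-44352, 40608) (by decide +kernel)
            (CovZ.n2 (-44496, 40464) (by decide +kernel)
             (CovZ.n2 (-44496, 40608) (by decide +kernel)
              (CovZ.n2 (-44424, 40536) (by decide +kernel)
               (CovZ.leaf K2_ok TH_l7008 _)
               (CovZ.badM (by decide +kernel)))
              (CovZ.leaf K2_ok TH_l7009 _))
             (CovZ.n1 (-44352, 40464) (by decide +kernel)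
              (CovZ.leaf K2_ok TH_l7010 _)
              (CovZ.n1 (-44424, 40536) (by decide +kernel)
               (CovZ.badM (by decide +kernel))
               (CovZ.leaf K2_ok TH_l7011 _))))
            (CovZ.n1 (-44496, 40752) (by decide +kernel)
             (CovZ.badM (by decide +kernel))
             (CovZ.n1 (-44496, 40608) (by decide +kernel)
              (CovZ.n2 (-44568, 40680) (by decide +kernel)
               (CovZ.badM (by decide +kernel))
               (CovZ.leaf K2_ok TH_l7012 _))
              (CovZ.badM (by decide +kernel)))))
           (CovZ.n1 (-44640, 40320) (by decide +kernel)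
            (CovZ.n2 (-44784, 40464) (by decide +kernel)
             (CovZ.leaf K2_ok TH_l7013 _)
             (CovZ.leaf K2_ok TH_l7014 _))
            (CovZ.n1 (-44496, 40464) (by decide +kernel)
             (CovZ.n2 (-44496, 40320) (by decide +kernel)
              (CovZ.leaf K2_ok TH_l7015 _)
              (CovZ.leaf K2_ok TH_l7016 _))
             (CovZ.n1 (-44640, 40464) (by decide +kernel)
              (CovZ.leaf K2_ok TH_l7017 _)
              (CovZ.leaf K2_ok TH_l7018 _)))))
          (CovZ.n1 (-44064, 40608) (by decide +kernel)
           (CovZ.n2 (-44064, 40320) (by decide +kernel)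
            (CovZ.n2 (-44208, 40464) (by decide +kernel)
             (CovZ.badM (by decide +kernel))
             (CovZ.n1 (-44208, 40320) (by decide +kernel)
              (CovZ.leaf K2_ok TH_l7019 _)
              (CovZ.n1 (-44136, 40392) (by decide +kernel)
               (CovZ.leaf K2_ok TH_l7020 _)
               (CovZ.leaf K2_ok TH_l7021 _))))
            (CovZ.badM (by decide +kernel)))
           (CovZ.n1 (-44352, 40608) (by decide +kernel)
            (CovZ.badM (by decide +kernel))
            (CovZ.n1 (-44208, 40464) (by decide +kernel)
             (CovZ.n2 (-44352, 40464) (by decide +kernel)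
              (CovZ.badM (by decide +kernel))
              (CovZ.leaf K2_ok TH_l7022 _))
             (CovZ.badM (by decide +kernel)))))))))

theorem TH_u10 : CovZ TH_M (toL (selN TH_LN 431304035582358929854137327918117149771231118396854383307199255461890)) [0, 7, 6, 1] (-50688, 44928) (-50976, 44928) (-50976, 44640) :=
    (CovZ.n2 (-50832, 44784) (by decide +kernel)
             (CovZ.n2 (-50976, 44784) (by decide +kernel)
              (CovZ.n2 (-50904, 44856) (by decide +kernel)
               (CovZ.n2 (-50904, 44784) (by decide +kernel)
                (CovZ.n2 (-50940, 44820) (by decide +kernel)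
                 (CovZ.n2 (-50904, 44820) (by decide +kernel)
                  (CovZ.n2 (-50922, 44802) (by decide +kernel)
                   (CovZ.leaf K2_ok TH_l147 _)
                   (CovZ.leaf K2_ok TH_l148 _))
                  (CovZ.leaf K2_ok TH_l149 _))
                 (CovZ.subM 215202377470672048143012695065156802415790202038526201144490945691648 (by decide +kernel)
                  (CovZ.n1 (-50940, 44784) (by decide +kernel)
                   (CovZ.n2 (-50958, 44802) (by decide +kernel)
                    (CovZ.leaf K2_ok TH_l150 _)
                    (CovZ.leaf K2_ok TH_l151 _))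
                   (CovZ.n1 (-50922, 44802) (by decide +kernel)
                    (CovZ.leaf K2_ok TH_l152 _)
                    (CovZ.leaf K2_ok TH_l153 _)))))
                (CovZ.subM 215623626637346276889804367175891484145065782420128397589508188553216 (by decide +kernel)
                 (CovZ.n1 (-50868, 44820) (by decide +kernel)
                  (CovZ.n2 (-50868, 44784) (by decide +kernel)
                   (CovZ.n2 (-50886, 44802) (by decide +kernel)
                    (CovZ.leaf K2_ok TH_l154 _)
                    (CovZ.leaf K2_ok TH_l155 _))
                   (CovZ.leaf K2_ok TH_l156 _))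
                  (CovZ.n1 (-50904, 44820) (by decide +kernel)
                   (CovZ.leaf K2_ok TH_l157 _)
                   (CovZ.n1 (-50886, 44802) (by decide +kernel)
                    (CovZ.leaf K2_ok TH_l158 _)
                    (CovZ.leaf K2_ok TH_l159 _))))))
               (CovZ.n1 (-50976, 44856) (by decide +kernel)
                (CovZ.n2 (-50940, 44892) (by decide +kernel)
                 (CovZ.n2 (-50940, 44856) (by decide +kernel)
                  (CovZ.leaf K2_ok TH_l160 _)
                  (CovZ.leaf K2_ok TH_l161 _))
                 (CovZ.leaf K2_ok TH_l162 _))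
                (CovZ.n1 (-50940, 44820) (by decide +kernel)
                 (CovZ.leaf K2_ok TH_l163 _)
                 (CovZ.n1 (-50940, 44856) (by decide +kernel)
                  (CovZ.leaf K2_ok TH_l164 _)
                  (CovZ.leaf K2_ok TH_l165 _)))))
              (CovZ.n1 (-50904, 44712) (by decide +kernel)
               (CovZ.subM 160934459922521853404416743130740394992315596005372027370882190032896 (by decide +kernel)
                (CovZ.n2 (-50976, 44712) (by decide +kernel)
                 (CovZ.n2 (-50940, 44748) (by decide +kernel)
                  (CovZ.n2 (-50940, 44712) (by decide +kernel)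
                   (CovZ.n2 (-50958, 44730) (by decide +kernel)
                    (CovZ.leaf K2_ok TH_l166 _)
                    (CovZ.leaf K2_ok TH_l167 _))
                   (CovZ.n1 (-50922, 44730) (by decide +kernel)
                    (CovZ.n2 (-50922, 44712) (by decide +kernel)
                     (CovZ.leaf K2_ok TH_l168 _)
                     (CovZ.leaf K2_ok TH_l169 _))
                    (CovZ.leaf K2_ok TH_l170 _)))
                  (CovZ.n1 (-50976, 44748) (by decide +kernel)
                   (CovZ.n2 (-50958, 44766) (by decide +kernel)
                    (CovZ.leaf K2_ok TH_l171 _)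
                    (CovZ.leaf K2_ok TH_l172 _))
                   (CovZ.n1 (-50958, 44730) (by decide +kernel)
                    (CovZ.leaf K2_ok TH_l173 _)
                    (CovZ.leaf K2_ok TH_l174 _))))
                 (CovZ.n1 (-50940, 44676) (by decide +kernel)
                  (CovZ.n2 (-50976, 44676) (by decide +kernel)
                   (CovZ.n2 (-50958, 44694) (by decide +kernel)
                    (CovZ.leaf K2_ok TH_l175 _)
                    (CovZ.leaf K2_ok TH_l176 _))
                   (CovZ.leaf K2_ok TH_l177 _))
                  (CovZ.n1 (-50940, 44712) (by decide +kernel)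
                   (CovZ.n2 (-50922, 44694) (by decide +kernel)
                    (CovZ.leaf K2_ok TH_l178 _)
                    (CovZ.leaf K2_ok TH_l179 _))
                   (CovZ.n1 (-50958, 44694) (by decide +kernel)
                    (CovZ.leaf K2_ok TH_l180 _)
                    (CovZ.leaf K2_ok TH_l181 _))))))
               (CovZ.n1 (-50904, 44784) (by decide +kernel)
                (CovZ.n2 (-50868, 44748) (by decide +kernel)
                 (CovZ.n2 (-50904, 44748) (by decide +kernel)
                  (CovZ.leaf K2_ok TH_l182 _)
                  (CovZ.n1 (-50886, 44730) (by decide +kernel)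
                   (CovZ.leaf K2_ok TH_l183 _)
                   (CovZ.leaf K2_ok TH_l184 _)))
                 (CovZ.subM 215623626637346276889804367175891484145065782420128397589508188553216 (by decide +kernel)
                  (CovZ.n1 (-50868, 44784) (by decide +kernel)
                   (CovZ.n2 (-50850, 44766) (by decide +kernel)
                    (CovZ.leaf K2_ok TH_l185 _)
                    (CovZ.leaf K2_ok TH_l186 _))
                   (CovZ.n1 (-50886, 44766) (by decide +kernel)
                    (CovZ.leaf K2_ok TH_l187 _)
                    (CovZ.leaf K2_ok TH_l188 _)))))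
                (CovZ.subM 161282484136370768553678664891117541068515913193445056182283725193216 (by decide +kernel)
                 (CovZ.n1 (-50940, 44748) (by decide +kernel)
                  (CovZ.n2 (-50940, 44784) (by decide +kernel)
                   (CovZ.n2 (-50922, 44766) (by decide +kernel)
                    (CovZ.leaf K2_ok TH_l189 _)
                    (CovZ.leaf K2_ok TH_l190 _))
                   (CovZ.n1 (-50958, 44766) (by decide +kernel)
                    (CovZ.leaf K2_ok TH_l191 _)
                    (CovZ.leaf K2_ok TH_l192 _)))
                  (CovZ.n1 (-50904, 44748) (by decide +kernel)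
                   (CovZ.n2 (-50922, 44730) (by decide +kernel)
                    (CovZ.leaf K2_ok TH_l193 _)
                    (CovZ.leaf K2_ok TH_l194 _))
                   (CovZ.n1 (-50922, 44766) (by decide +kernel)
                    (CovZ.leaf K2_ok TH_l195 _)
                    (CovZ.leaf K2_ok TH_l196 _))))))))
             (CovZ.subM 215623626637346276889804367175891484145065782420128397589508188553216 (by decide +kernel)
              (CovZ.n1 (-50832, 44928) (by decide +kernel)
               (CovZ.n2 (-50760, 44856) (by decide +kernel)
                (CovZ.n2 (-50832, 44856) (by decide +kernel)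
                 (CovZ.n2 (-50796, 44892) (by decide +kernel)
                  (CovZ.n2 (-50796, 44856) (by decide +kernel)
                   (CovZ.leaf K2_ok TH_l197 _)
                   (CovZ.leaf K2_ok TH_l198 _))
                  (CovZ.leaf K2_ok TH_l199 _))
                 (CovZ.n1 (-50796, 44820) (by decide +kernel)
                  (CovZ.n2 (-50832, 44820) (by decide +kernel)
                   (CovZ.leaf K2_ok TH_l200 _)
                   (CovZ.n1 (-50814, 44802) (by decide +kernel)
                    (CovZ.leaf K2_ok TH_l201 _)
                    (CovZ.leaf K2_ok TH_l202 _)))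
                  (CovZ.n1 (-50796, 44856) (by decide +kernel)
                   (CovZ.leaf K2_ok TH_l203 _)
                   (CovZ.leaf K2_ok TH_l204 _))))
                (CovZ.n1 (-50760, 44928) (by decide +kernel)
                 (CovZ.n2 (-50724, 44892) (by decide +kernel)
                  (CovZ.leaf K2_ok TH_l205 _)
                  (CovZ.leaf K2_ok TH_l206 _))
                 (CovZ.n1 (-50796, 44892) (by decide +kernel)
                  (CovZ.n2 (-50796, 44928) (by decide +kernel)
                   (CovZ.leaf K2_ok TH_l207 _)
                   (CovZ.leaf K2_ok TH_l208 _))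
                  (CovZ.leaf K2_ok TH_l209 _))))
               (CovZ.n1 (-50904, 44856) (by decide +kernel)
                (CovZ.n2 (-50904, 44928) (by decide +kernel)
                 (CovZ.n2 (-50868, 44892) (by decide +kernel)
                  (CovZ.leaf K2_ok TH_l210 _)
                  (CovZ.leaf K2_ok TH_l211 _))
                 (CovZ.n1 (-50940, 44892) (by decide +kernel)
                  (CovZ.leaf K2_ok TH_l212 _)
                  (CovZ.leaf K2_ok TH_l213 _)))
                (CovZ.n1 (-50832, 44856) (by decide +kernel)
                 (CovZ.n2 (-50868, 44820) (by decide +kernel)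
                  (CovZ.n2 (-50868, 44856) (by decide +kernel)
                   (CovZ.leaf K2_ok TH_l214 _)
                   (CovZ.leaf K2_ok TH_l215 _))
                  (CovZ.n1 (-50832, 44820) (by decide +kernel)
                   (CovZ.leaf K2_ok TH_l216 _)
                   (CovZ.leaf K2_ok TH_l217 _)))
                 (CovZ.n1 (-50868, 44892) (by decide +kernel)
                  (CovZ.leaf K2_ok TH_l218 _)
                  (CovZ.n1 (-50868, 44856) (by decide +kernel)
                   (CovZ.leaf K2_ok TH_l219 _)
                   (CovZ.leaf K2_ok TH_l220 _))))))))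

theorem TH_u11 : CovZ TH_M (toL (selN TH_LN 431304035582358929854137327918117149771231118396854383307199255461890)) [0, 7, 6, 1] (-50976, 44928) (-51264, 44928) (-50976, 44640) :=
    (CovZ.n1 (-51120, 44784) (by decide +kernel)
             (CovZ.n2 (-51120, 44928) (by decide +kernel)
              (CovZ.n2 (-51048, 44856) (by decide +kernel)
               (CovZ.subM 161280015879534786744615432437343705045293740290103064615482108690432 (by decide +kernel)
                (CovZ.n2 (-51120, 44856) (by decide +kernel)
                 (CovZ.n2 (-51084, 44892) (by decide +kernel)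
                  (CovZ.leaf K2_ok TH_l221 _)
                  (CovZ.leaf K2_ok TH_l222 _))
                 (CovZ.n1 (-51084, 44820) (by decide +kernel)
                  (CovZ.leaf K2_ok TH_l223 _)
                  (CovZ.leaf K2_ok TH_l224 _))))
               (CovZ.n1 (-51048, 44928) (by decide +kernel)
                (CovZ.n2 (-51012, 44892) (by decide +kernel)
                 (CovZ.leaf K2_ok TH_l225 _)
                 (CovZ.leaf K2_ok TH_l226 _))
                (CovZ.n1 (-51084, 44892) (by decide +kernel)
                 (CovZ.leaf K2_ok TH_l227 _)
                 (CovZ.leaf K2_ok TH_l228 _))))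
              (CovZ.subM 159252754264915060713608300826077475693083351115958267707877256871936 (by decide +kernel)
               (CovZ.n1 (-51192, 44856) (by decide +kernel)
                (CovZ.n2 (-51192, 44928) (by decide +kernel)
                 (CovZ.n2 (-51156, 44892) (by decide +kernel)
                  (CovZ.leaf K2_ok TH_l229 _)
                  (CovZ.leaf K2_ok TH_l230 _))
                 (CovZ.n1 (-51228, 44892) (by decide +kernel)
                  (CovZ.leaf K2_ok TH_l231 _)
                  (CovZ.leaf K2_ok TH_l232 _)))
                (CovZ.n1 (-51120, 44856) (by decide +kernel)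
                 (CovZ.n2 (-51156, 44820) (by decide +kernel)
                  (CovZ.n2 (-51156, 44856) (by decide +kernel)
                   (CovZ.leaf K2_ok TH_l233 _)
                   (CovZ.leaf K2_ok TH_l234 _))
                  (CovZ.leaf K2_ok TH_l235 _))
                 (CovZ.n1 (-51156, 44892) (by decide +kernel)
                  (CovZ.leaf K2_ok TH_l236 _)
                  (CovZ.n1 (-51156, 44856) (by decide +kernel)
                   (CovZ.leaf K2_ok TH_l237 _)
                   (CovZ.leaf K2_ok TH_l238 _)))))))
             (CovZ.n1 (-50976, 44784) (by decide +kernel)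
              (CovZ.subM 160934459922521853404416743130740394992315596005372027370882190032896 (by decide +kernel)
               (CovZ.n2 (-51048, 44712) (by decide +kernel)
                (CovZ.n2 (-51048, 44784) (by decide +kernel)
                 (CovZ.n2 (-51012, 44748) (by decide +kernel)
                  (CovZ.n2 (-51048, 44748) (by decide +kernel)
                   (CovZ.leaf K2_ok TH_l239 _)
                   (CovZ.leaf K2_ok TH_l240 _))
                  (CovZ.n1 (-51012, 44784) (by decide +kernel)
                   (CovZ.n2 (-50994, 44766) (by decide +kernel)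
                    (CovZ.leaf K2_ok TH_l241 _)
                    (CovZ.leaf K2_ok TH_l242 _))
                   (CovZ.n1 (-51030, 44766) (by decide +kernel)
                    (CovZ.leaf K2_ok TH_l243 _)
                    (CovZ.leaf K2_ok TH_l244 _))))
                 (CovZ.n1 (-51084, 44748) (by decide +kernel)
                  (CovZ.leaf K2_ok TH_l245 _)
                  (CovZ.leaf K2_ok TH_l246 _)))
                (CovZ.n1 (-50976, 44712) (by decide +kernel)
                 (CovZ.n2 (-51012, 44676) (by decide +kernel)
                  (CovZ.leaf K2_ok TH_l247 _)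
                  (CovZ.leaf K2_ok TH_l248 _))
                 (CovZ.n1 (-51012, 44748) (by decide +kernel)
                  (CovZ.n2 (-50976, 44748) (by decide +kernel)
                   (CovZ.n2 (-50994, 44730) (by decide +kernel)
                    (CovZ.leaf K2_ok TH_l249 _)
                    (CovZ.leaf K2_ok TH_l250 _))
                   (CovZ.n1 (-50994, 44766) (by decide +kernel)
                    (CovZ.leaf K2_ok TH_l251 _)
                    (CovZ.leaf K2_ok TH_l252 _)))
                  (CovZ.n1 (-51012, 44712) (by decide +kernel)
                   (CovZ.leaf K2_ok TH_l253 _)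
                   (CovZ.n1 (-50994, 44730) (by decide +kernel)
                    (CovZ.leaf K2_ok TH_l254 _)
                    (CovZ.leaf K2_ok TH_l255 _)))))))
              (CovZ.n1 (-51048, 44856) (by decide +kernel)
               (CovZ.n2 (-50976, 44856) (by decide +kernel)
                (CovZ.n2 (-51012, 44820) (by decide +kernel)
                 (CovZ.n2 (-51012, 44856) (by decide +kernel)
                  (CovZ.leaf K2_ok TH_l256 _)
                  (CovZ.leaf K2_ok TH_l257 _))
                 (CovZ.leaf K2_ok TH_l258 _))
                (CovZ.n1 (-51012, 44892) (by decide +kernel)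
                 (CovZ.leaf K2_ok TH_l259 _)
                 (CovZ.n1 (-51012, 44856) (by decide +kernel)
                  (CovZ.leaf K2_ok TH_l260 _)
                  (CovZ.leaf K2_ok TH_l261 _))))
               (CovZ.n1 (-51048, 44784) (by decide +kernel)
                (CovZ.subM 161280015879534786744615432437343705045293740290103064615482108690432 (by decide +kernel)
                 (CovZ.n2 (-51084, 44820) (by decide +kernel)
                  (CovZ.n2 (-51048, 44820) (by decide +kernel)
                   (CovZ.n2 (-51066, 44802) (by decide +kernel)
                    (CovZ.leaf K2_ok TH_l262 _)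
                    (CovZ.leaf K2_ok TH_l263 _))
                   (CovZ.leaf K2_ok TH_l264 _))
                  (CovZ.n1 (-51084, 44784) (by decide +kernel)
                   (CovZ.n2 (-51102, 44802) (by decide +kernel)
                    (CovZ.leaf K2_ok TH_l265 _)
                    (CovZ.leaf K2_ok TH_l266 _))
                   (CovZ.n1 (-51066, 44802) (by decide +kernel)
                    (CovZ.leaf K2_ok TH_l267 _)
                    (CovZ.leaf K2_ok TH_l268 _)))))
                (CovZ.subM 161282484136370768553678664891117541068515913193445056182283725193216 (by decide +kernel)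
                 (CovZ.n1 (-51012, 44820) (by decide +kernel)
                  (CovZ.n2 (-51012, 44784) (by decide +kernel)
                   (CovZ.n2 (-51030, 44802) (by decide +kernel)
                    (CovZ.leaf K2_ok TH_l269 _)
                    (CovZ.leaf K2_ok TH_l270 _))
                   (CovZ.leaf K2_ok TH_l271 _))
                  (CovZ.leaf K2_ok TH_l272 _)))))))

theorem TH_u12 : CovZ TH_M (toL (selN TH_LN 431304035582358929854137327918117149771231118396854383307199255461890)) [0, 7, 6, 1] (-50688, 44928) (-50832, 44784) (-50688, 44640) :=
    (CovZ.subM 215623626634207726022111026793973589433461949211782071821359330115584 (by decide +kernel)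
              (CovZ.n2 (-50688, 44784) (by decide +kernel)
               (CovZ.n2 (-50760, 44712) (by decide +kernel)
                (CovZ.n2 (-50760, 44784) (by decide +kernel)
                 (CovZ.n2 (-50724, 44748) (by decide +kernel)
                  (CovZ.n2 (-50760, 44748) (by decide +kernel)
                   (CovZ.n2 (-50742, 44766) (by decide +kernel)
                    (CovZ.n2 (-50742, 44748) (by decide +kernel)
                     (CovZ.leaf K2_ok TH_l346 _)
                     (CovZ.leaf K2_ok TH_l347 _))
                    (CovZ.leaf K2_ok TH_l348 _))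
                   (CovZ.n1 (-50742, 44730) (by decide +kernel)
                    (CovZ.leaf K2_ok TH_l349 _)
                    (CovZ.leaf K2_ok TH_l350 _)))
                  (CovZ.n1 (-50724, 44784) (by decide +kernel)
                   (CovZ.n2 (-50706, 44766) (by decide +kernel)
                    (CovZ.leaf K2_ok TH_l351 _)
                    (CovZ.leaf K2_ok TH_l352 _))
                   (CovZ.n1 (-50742, 44766) (by decide +kernel)
                    (CovZ.leaf K2_ok TH_l353 _)
                    (CovZ.leaf K2_ok TH_l354 _))))
                 (CovZ.n1 (-50796, 44748) (by decide +kernel)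
                  (CovZ.n2 (-50796, 44784) (by decide +kernel)
                   (CovZ.n2 (-50778, 44766) (by decide +kernel)
                    (CovZ.leaf K2_ok TH_l355 _)
                    (CovZ.leaf K2_ok TH_l356 _))
                   (CovZ.n1 (-50814, 44766) (by decide +kernel)
                    (CovZ.leaf K2_ok TH_l357 _)
                    (CovZ.leaf K2_ok TH_l358 _)))
                  (CovZ.n1 (-50760, 44748) (by decide +kernel)
                   (CovZ.n2 (-50778, 44730) (by decide +kernel)
                    (CovZ.leaf K2_ok TH_l359 _)
                    (CovZ.leaf K2_ok TH_l360 _))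
                   (CovZ.n1 (-50778, 44766) (by decide +kernel)
                    (CovZ.leaf K2_ok TH_l361 _)
                    (CovZ.leaf K2_ok TH_l362 _)))))
                (CovZ.n1 (-50688, 44712) (by decide +kernel)
                 (CovZ.n2 (-50724, 44676) (by decide +kernel)
                  (CovZ.n2 (-50724, 44712) (by decide +kernel)
                   (CovZ.n2 (-50706, 44694) (by decide +kernel)
                    (CovZ.leaf K2_ok TH_l363 _)
                    (CovZ.leaf K2_ok TH_l364 _))
                   (CovZ.n1 (-50742, 44694) (by decide +kernel)
                    (CovZ.leaf K2_ok TH_l365 _)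
                    (CovZ.n1 (-50724, 44694) (by decide +kernel)
                     (CovZ.n2 (-50733, 44685) (by decide +kernel)
                      (CovZ.leaf K2_ok TH_l366 _)
                      (CovZ.leaf K2_ok TH_l367 _))
                     (CovZ.leaf K2_ok TH_l368 _))))
                  (CovZ.subM 215623626182256209512327225155727826385687392976725903180661753118720 (by decide +kernel)
                   (CovZ.n1 (-50688, 44676) (by decide +kernel)
                    (CovZ.n2 (-50706, 44658) (by decide +kernel)
                     (CovZ.n2 (-50706, 44676) (by decide +kernel)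
                      (CovZ.badM (by decide +kernel))
                      (CovZ.leaf K2_ok TH_l8151 _))
                     (CovZ.badM (by decide +kernel)))
                    (CovZ.n1 (-50706, 44694) (by decide +kernel)
                     (CovZ.n2 (-50688, 44694) (by decide +kernel)
                      (CovZ.n2 (-50697, 44685) (by decide +kernel)
                       (CovZ.leaf K2_ok TH_l8152 _)
                       (CovZ.leaf K2_ok TH_l8153 _))
                      (CovZ.leaf K2_ok TH_l369 _))
                     (CovZ.n1 (-50706, 44676) (by decide +kernel)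
                      (CovZ.leaf K2_ok TH_l8154 _)
                      (CovZ.leaf K2_ok TH_l8155 _))))))
                 (CovZ.n1 (-50724, 44748) (by decide +kernel)
                  (CovZ.n2 (-50688, 44748) (by decide +kernel)
                   (CovZ.n2 (-50706, 44730) (by decide +kernel)
                    (CovZ.leaf K2_ok TH_l370 _)
                    (CovZ.leaf K2_ok TH_l371 _))
                   (CovZ.n1 (-50706, 44766) (by decide +kernel)
                    (CovZ.leaf K2_ok TH_l372 _)
                    (CovZ.leaf K2_ok TH_l373 _)))
                  (CovZ.n1 (-50724, 44712) (by decide +kernel)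
                   (CovZ.n2 (-50742, 44730) (by decide +kernel)
                    (CovZ.n2 (-50724, 44730) (by decide +kernel)
                     (CovZ.leaf K2_ok TH_l374 _)
                     (CovZ.leaf K2_ok TH_l375 _))
                    (CovZ.n1 (-50742, 44712) (by decide +kernel)
                     (CovZ.leaf K2_ok TH_l376 _)
                     (CovZ.leaf K2_ok TH_l377 _)))
                   (CovZ.n1 (-50706, 44730) (by decide +kernel)
                    (CovZ.n2 (-50706, 44712) (by decide +kernel)
                     (CovZ.leaf K2_ok TH_l378 _)
                     (CovZ.leaf K2_ok TH_l379 _))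
                    (CovZ.leaf K2_ok TH_l380 _))))))
               (CovZ.n1 (-50760, 44856) (by decide +kernel)
                (CovZ.n2 (-50688, 44856) (by decide +kernel)
                 (CovZ.n2 (-50724, 44820) (by decide +kernel)
                  (CovZ.n2 (-50724, 44856) (by decide +kernel)
                   (CovZ.leaf K2_ok TH_l381 _)
                   (CovZ.leaf K2_ok TH_l382 _))
                  (CovZ.n1 (-50688, 44820) (by decide +kernel)
                   (CovZ.n2 (-50706, 44802) (by decide +kernel)
                    (CovZ.leaf K2_ok TH_l383 _)
                    (CovZ.leaf K2_ok TH_l384 _))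
                   (CovZ.leaf K2_ok TH_l385 _)))
                 (CovZ.n1 (-50724, 44892) (by decide +kernel)
                  (CovZ.leaf K2_ok TH_l386 _)
                  (CovZ.n1 (-50724, 44856) (by decide +kernel)
                   (CovZ.leaf K2_ok TH_l387 _)
                   (CovZ.leaf K2_ok TH_l388 _))))
                (CovZ.n1 (-50760, 44784) (by decide +kernel)
                 (CovZ.n2 (-50796, 44820) (by decide +kernel)
                  (CovZ.n2 (-50760, 44820) (by decide +kernel)
                   (CovZ.n2 (-50778, 44802) (by decide +kernel)
                    (CovZ.leaf K2_ok TH_l389 _)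
                    (CovZ.leaf K2_ok TH_l390 _))
                   (CovZ.leaf K2_ok TH_l391 _))
                  (CovZ.n1 (-50796, 44784) (by decide +kernel)
                   (CovZ.n2 (-50814, 44802) (by decide +kernel)
                    (CovZ.leaf K2_ok TH_l392 _)
                    (CovZ.leaf K2_ok TH_l393 _))
                   (CovZ.leaf K2_ok TH_l394 _)))
                 (CovZ.n1 (-50724, 44820) (by decide +kernel)
                  (CovZ.n2 (-50724, 44784) (by decide +kernel)
                   (CovZ.n2 (-50742, 44802) (by decide +kernel)
                    (CovZ.leaf K2_ok TH_l395 _)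
                    (CovZ.leaf K2_ok TH_l396 _))
                   (CovZ.n1 (-50706, 44802) (by decide +kernel)
                    (CovZ.leaf K2_ok TH_l397 _)
                    (CovZ.leaf K2_ok TH_l398 _)))
                  (CovZ.n1 (-50760, 44820) (by decide +kernel)
                   (CovZ.leaf K2_ok TH_l399 _)
                   (CovZ.n1 (-50742, 44802) (by decide +kernel)
                    (CovZ.leaf K2_ok TH_l400 _)
                    (CovZ.leaf K2_ok TH_l401 _))))))))

theorem TH_u13 : CovZ TH_M (toL (selN TH_LN 431304035582358929854137327918117149771231118396854383307199255461890)) [0, 7, 6, 1] (-50832, 44784) (-50976, 44640) (-50688, 44640) :=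
    (CovZ.n1 (-50832, 44640) (by decide +kernel)
              (CovZ.n2 (-50904, 44712) (by decide +kernel)
               (CovZ.n2 (-50832, 44712) (by decide +kernel)
                (CovZ.subM 35384930405508480198236317044612765016553802197316790765810007162880 (by decide +kernel)
                 (CovZ.n2 (-50868, 44676) (by decide +kernel)
                  (CovZ.n2 (-50868, 44712) (by decide +kernel)
                   (CovZ.n2 (-50850, 44694) (by decide +kernel)
                    (CovZ.n2 (-50868, 44694) (by decide +kernel)
                     (CovZ.leaf K2_ok TH_l402 _)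
                     (CovZ.leaf K2_ok TH_l403 _))
                    (CovZ.leaf K2_ok TH_l404 _))
                   (CovZ.n1 (-50886, 44694) (by decide +kernel)
                    (CovZ.leaf K2_ok TH_l405 _)
                    (CovZ.n1 (-50868, 44694) (by decide +kernel)
                     (CovZ.leaf K2_ok TH_l406 _)
                     (CovZ.leaf K2_ok TH_l407 _))))
                  (CovZ.n1 (-50832, 44676) (by decide +kernel)
                   (CovZ.subM 3138742429636127023986819288426407484032902266698463182848 (by decide +kernel)
                    (CovZ.n2 (-50850, 44658) (by decide +kernel)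
                     (CovZ.n2 (-50850, 44676) (by decide +kernel)
                      (CovZ.n2 (-50841, 44667) (by decide +kernel)
                       (CovZ.n2 (-50850, 44667) (by decide +kernel)
                        (CovZ.leaf K2_ok TH_l408 _)
                        (CovZ.leaf K2_ok TH_l409 _))
                       (CovZ.leaf K2_ok TH_l410 _))
                      (CovZ.leaf K2_ok TH_l411 _))
                     (CovZ.subM 3138550867693518787879524494968785532870685586572903972864 (by decide +kernel)
                      (CovZ.n1 (-50832, 44658) (by decide +kernel)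
                       (CovZ.n2 (-50841, 44649) (by decide +kernel)
                        (CovZ.n2 (-50841, 44658) (by decide +kernel)
                         (CovZ.leaf K2_ok TH_l412 _)
                         (CovZ.leaf K2_ok TH_l413 _))
                        (CovZ.leaf K2_ok TH_l414 _))
                       (CovZ.n1 (-50841, 44667) (by decide +kernel)
                        (CovZ.leaf K2_ok TH_l415 _)
                        (CovZ.n1 (-50841, 44658) (by decide +kernel)
                         (CovZ.leaf K2_ok TH_l416 _)
                         (CovZ.leaf K2_ok TH_l417 _)))))))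
                   (CovZ.n1 (-50850, 44694) (by decide +kernel)
                    (CovZ.leaf K2_ok TH_l418 _)
                    (CovZ.n1 (-50850, 44676) (by decide +kernel)
                     (CovZ.leaf K2_ok TH_l419 _)
                     (CovZ.leaf K2_ok TH_l420 _))))))
                (CovZ.n1 (-50868, 44748) (by decide +kernel)
                 (CovZ.subM 215623626634207726022111026793973589433461949211782071821359330115584 (by decide +kernel)
                  (CovZ.n2 (-50832, 44748) (by decide +kernel)
                   (CovZ.n2 (-50850, 44730) (by decide +kernel)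
                    (CovZ.leaf K2_ok TH_l421 _)
                    (CovZ.leaf K2_ok TH_l422 _))
                   (CovZ.n1 (-50850, 44766) (by decide +kernel)
                    (CovZ.leaf K2_ok TH_l423 _)
                    (CovZ.leaf K2_ok TH_l424 _))))
                 (CovZ.subM 161275902118141483729510045014387311666495982249982521862830330757120 (by decide +kernel)
                  (CovZ.n1 (-50868, 44712) (by decide +kernel)
                   (CovZ.n2 (-50886, 44730) (by decide +kernel)
                    (CovZ.leaf K2_ok TH_l425 _)
                    (CovZ.leaf K2_ok TH_l426 _))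
                   (CovZ.n1 (-50850, 44730) (by decide +kernel)
                    (CovZ.n2 (-50850, 44712) (by decide +kernel)
                     (CovZ.leaf K2_ok TH_l427 _)
                     (CovZ.leaf K2_ok TH_l428 _))
                    (CovZ.leaf K2_ok TH_l429 _))))))
               (CovZ.subM 28645766491024000781244494979182869579000538907122937765162474553344 (by decide +kernel)
                (CovZ.n1 (-50904, 44640) (by decide +kernel)
                 (CovZ.n2 (-50940, 44676) (by decide +kernel)
                  (CovZ.n2 (-50904, 44676) (by decide +kernel)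
                   (CovZ.n2 (-50922, 44658) (by decide +kernel)
                    (CovZ.leaf K2_ok TH_l430 _)
                    (CovZ.leaf K2_ok TH_l431 _))
                   (CovZ.n1 (-50922, 44694) (by decide +kernel)
                    (CovZ.leaf K2_ok TH_l432 _)
                    (CovZ.leaf K2_ok TH_l433 _)))
                  (CovZ.leaf K2_ok TH_l434 _))
                 (CovZ.n1 (-50868, 44676) (by decide +kernel)
                  (CovZ.n2 (-50868, 44640) (by decide +kernel)
                   (CovZ.n2 (-50886, 44658) (by decide +kernel)
                    (CovZ.n2 (-50868, 44658) (by decide +kernel)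
                     (CovZ.leaf K2_ok TH_l435 _)
                     (CovZ.leaf K2_ok TH_l436 _))
                    (CovZ.leaf K2_ok TH_l437 _))
                   (CovZ.subM 3138742429636127023986819288426407484032902266698463182848 (by decide +kernel)
                    (CovZ.n1 (-50850, 44658) (by decide +kernel)
                     (CovZ.n2 (-50850, 44640) (by decide +kernel)
                      (CovZ.leaf K2_ok TH_l438 _)
                      (CovZ.leaf K2_ok TH_l439 _))
                     (CovZ.n1 (-50868, 44658) (by decide +kernel)
                      (CovZ.n2 (-50859, 44667) (by decide +kernel)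
                       (CovZ.leaf K2_ok TH_l440 _)
                       (CovZ.leaf K2_ok TH_l441 _))
                      (CovZ.leaf K2_ok TH_l442 _)))))
                  (CovZ.n1 (-50904, 44676) (by decide +kernel)
                   (CovZ.n2 (-50886, 44694) (by decide +kernel)
                    (CovZ.n2 (-50886, 44676) (by decide +kernel)
                     (CovZ.leaf K2_ok TH_l443 _)
                     (CovZ.leaf K2_ok TH_l444 _))
                    (CovZ.n1 (-50904, 44694) (by decide +kernel)
                     (CovZ.leaf K2_ok TH_l445 _)
                     (CovZ.leaf K2_ok TH_l446 _)))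
                   (CovZ.n1 (-50886, 44658) (by decide +kernel)
                    (CovZ.leaf K2_ok TH_l447 _)
                    (CovZ.leaf K2_ok TH_l448 _)))))))
              (CovZ.subM 215623626637346276889804367175891484145065782419833249543591348420608 (by decide +kernel)
               (CovZ.n1 (-50760, 44712) (by decide +kernel)
                (CovZ.subM 215603880582658230668283511325276297832111756726074843429984707543040 (by decide +kernel)
                 (CovZ.n2 (-50760, 44640) (by decide +kernel)
                  (CovZ.n2 (-50796, 44676) (by decide +kernel)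
                   (CovZ.n2 (-50760, 44676) (by decide +kernel)
                    (CovZ.badM (by decide +kernel))
                    (CovZ.n1 (-50778, 44694) (by decide +kernel)
                     (CovZ.n2 (-50760, 44694) (by decide +kernel)
                      (CovZ.n2 (-50769, 44685) (by decide +kernel)
                       (CovZ.leaf K2_ok TH_l8156 _)
                       (CovZ.leaf K2_ok TH_l8157 _))
                      (CovZ.leaf K2_ok TH_l449 _))
                     (CovZ.badM (by decide +kernel))))
                   (CovZ.subM 3138550867693340381917894711603833208051177722232018305024 (by decide +kernel)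
                    (CovZ.n1 (-50796, 44640) (by decide +kernel)
                     (CovZ.n2 (-50814, 44658) (by decide +kernel)
                      (CovZ.badM (by decide +kernel))
                      (CovZ.n1 (-50814, 44640) (by decide +kernel)
                       (CovZ.n2 (-50823, 44649) (by decide +kernel)
                        (CovZ.badM (by decide +kernel))
                        (CovZ.leaf K2_ok TH_l450 _))
                       (CovZ.badM (by decide +kernel))))
                     (CovZ.badM (by decide +kernel)))))
                  (CovZ.n1 (-50724, 44676) (by decide +kernel)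
                   (CovZ.subM 421249166674228746791672110734681729275580381602196445017243910144 (by decide +kernel)
                    (CovZ.n2 (-50724, 44640) (by decide +kernel)
                     (CovZ.n2 (-50742, 44658) (by decide +kernel)
                      (CovZ.n2 (-50724, 44658) (by decide +kernel)
                       (CovZ.badM (by decide +kernel))
                       (CovZ.n1 (-50733, 44667) (by decide +kernel)
                        (CovZ.leaf K2_ok TH_l8158 _)
                        (CovZ.badM (by decide +kernel))))
                      (CovZ.badM (by decide +kernel)))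
                     (CovZ.n1 (-50706, 44658) (by decide +kernel)
                      (CovZ.badM (by decide +kernel))
                      (CovZ.n1 (-50724, 44658) (by decide +kernel)
                       (CovZ.n2 (-50715, 44667) (by decide +kernel)
                        (CovZ.badM (by decide +kernel))
                        (CovZ.leaf K2_ok TH_l8159 _))
                       (CovZ.badM (by decide +kernel))))))
                   (CovZ.n1 (-50760, 44676) (by decide +kernel)
                    (CovZ.n2 (-50742, 44694) (by decide +kernel)
                     (CovZ.n2 (-50742, 44676) (by decide +kernel)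
                      (CovZ.leaf K2_ok TH_l451 _)
                      (CovZ.leaf K2_ok TH_l452 _))
                     (CovZ.n1 (-50760, 44694) (by decide +kernel)
                      (CovZ.leaf K2_ok TH_l453 _)
                      (CovZ.leaf K2_ok TH_l454 _)))
                    (CovZ.subM 54341142500975508336125702284773943076549869226683341407224464408576 (by decide +kernel)
                     (CovZ.n1 (-50742, 44658) (by decide +kernel)
                      (CovZ.badM (by decide +kernel))
                      (CovZ.n1 (-50742, 44676) (by decide +kernel)
                       (CovZ.n2 (-50733, 44667) (by decide +kernel)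
                        (CovZ.badM (by decide +kernel))
                        (CovZ.leaf K2_ok TH_l8160 _))
                       (CovZ.badM (by decide +kernel)))))))))
                (CovZ.n1 (-50832, 44712) (by decide +kernel)
                 (CovZ.n2 (-50796, 44748) (by decide +kernel)
                  (CovZ.n2 (-50796, 44712) (by decide +kernel)
                   (CovZ.n2 (-50814, 44730) (by decide +kernel)
                    (CovZ.leaf K2_ok TH_l455 _)
                    (CovZ.n1 (-50814, 44712) (by decide +kernel)
                     (CovZ.leaf K2_ok TH_l456 _)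
                     (CovZ.leaf K2_ok TH_l457 _)))
                   (CovZ.n1 (-50778, 44730) (by decide +kernel)
                    (CovZ.n2 (-50778, 44712) (by decide +kernel)
                     (CovZ.leaf K2_ok TH_l458 _)
                     (CovZ.leaf K2_ok TH_l459 _))
                    (CovZ.leaf K2_ok TH_l460 _)))
                  (CovZ.n1 (-50832, 44748) (by decide +kernel)
                   (CovZ.n2 (-50814, 44766) (by decide +kernel)
                    (CovZ.leaf K2_ok TH_l461 _)
                    (CovZ.leaf K2_ok TH_l462 _))
                   (CovZ.n1 (-50814, 44730) (by decide +kernel)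
                    (CovZ.leaf K2_ok TH_l463 _)
                    (CovZ.leaf K2_ok TH_l464 _))))
                 (CovZ.n1 (-50796, 44676) (by decide +kernel)
                  (CovZ.subM 35384930405508480198236317044612765016553802197021642719893165981696 (by decide +kernel)
                   (CovZ.n2 (-50832, 44676) (by decide +kernel)
                    (CovZ.n2 (-50814, 44694) (by decide +kernel)
                     (CovZ.n2 (-50814, 44676) (by decide +kernel)
                      (CovZ.leaf K2_ok TH_l465 _)
                      (CovZ.n1 (-50805, 44685) (by decide +kernel)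
                       (CovZ.badM (by decide +kernel))
                       (CovZ.leaf K2_ok TH_l466 _)))
                     (CovZ.n1 (-50832, 44694) (by decide +kernel)
                      (CovZ.leaf K2_ok TH_l467 _)
                      (CovZ.leaf K2_ok TH_l468 _)))
                    (CovZ.subM 3138550867693518787879524494968785532575537681393551147008 (by decide +kernel)
                     (CovZ.n1 (-50814, 44658) (by decide +kernel)
                      (CovZ.n2 (-50832, 44658) (by decide +kernel)
                       (CovZ.n2 (-50823, 44667) (by decide +kernel)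
                        (CovZ.leaf K2_ok TH_l469 _)
                        (CovZ.leaf K2_ok TH_l470 _))
                       (CovZ.n1 (-50823, 44649) (by decide +kernel)
                        (CovZ.leaf K2_ok TH_l471 _)
                        (CovZ.leaf K2_ok TH_l472 _)))
                      (CovZ.n1 (-50814, 44676) (by decide +kernel)
                       (CovZ.badM (by decide +kernel))
                       (CovZ.leaf K2_ok TH_l473 _))))))
                  (CovZ.n1 (-50796, 44712) (by decide +kernel)
                   (CovZ.n2 (-50778, 44694) (by decide +kernel)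
                    (CovZ.n2 (-50796, 44694) (by decide +kernel)
                     (CovZ.n2 (-50787, 44703) (by decide +kernel)
                      (CovZ.leaf K2_ok TH_l474 _)
                      (CovZ.leaf K2_ok TH_l475 _))
                     (CovZ.badM (by decide +kernel)))
                    (CovZ.n1 (-50778, 44712) (by decide +kernel)
                     (CovZ.leaf K2_ok TH_l476 _)
                     (CovZ.leaf K2_ok TH_l477 _)))
                   (CovZ.n1 (-50814, 44694) (by decide +kernel)
                    (CovZ.leaf K2_ok TH_l478 _)
                    (CovZ.n1 (-50796, 44694) (by decide +kernel)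
                     (CovZ.n2 (-50805, 44685) (by decide +kernel)
                      (CovZ.leaf K2_ok TH_l479 _)
                      (CovZ.badM (by decide +kernel)))
                     (CovZ.leaf K2_ok TH_l480 _)))))))))

theorem TH_u14 : CovZ TH_M (toL (selN TH_LN 431304035582358929854137327918117149771231118396854383307199255461890)) [0, 7, 6, 1] (-51840, 44928) (-51264, 44352) (-50688, 44928) :=
    (CovZ.n2 (-51264, 44928) (by decide +kernel)
          (CovZ.n2 (-50976, 44640) (by decide +kernel)
           (CovZ.n2 (-51264, 44640) (by decide +kernel)
            (CovZ.n2 (-51120, 44784) (by decide +kernel)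
             (CovZ.subM 251068617504131421686403888963815510867588604452498154409953321828352 (by decide +kernel)
              (CovZ.n2 (-51120, 44640) (by decide +kernel)
               (CovZ.n2 (-51192, 44712) (by decide +kernel)
                (CovZ.n2 (-51120, 44712) (by decide +kernel)
                 (CovZ.leaf K2_ok TH_l126 _)
                 (CovZ.leaf K2_ok TH_l127 _))
                (CovZ.leaf K2_ok TH_l128 _))
               (CovZ.n1 (-51048, 44712) (by decide +kernel)
                (CovZ.n2 (-51048, 44640) (by decide +kernel)
                 (CovZ.leaf K2_ok TH_l129 _)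
                 (CovZ.leaf K2_ok TH_l130 _))
                (CovZ.n1 (-51120, 44712) (by decide +kernel)
                 (CovZ.n2 (-51084, 44748) (by decide +kernel)
                  (CovZ.leaf K2_ok TH_l131 _)
                  (CovZ.leaf K2_ok TH_l132 _))
                 (CovZ.leaf K2_ok TH_l133 _)))))
             (CovZ.subM 159252754264939580642262155047811209245517756062896167533832194506752 (by decide +kernel)
              (CovZ.n1 (-51264, 44784) (by decide +kernel)
               (CovZ.n2 (-51192, 44856) (by decide +kernel)
                (CovZ.n2 (-51192, 44784) (by decide +kernel)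
                 (CovZ.leaf K2_ok TH_l134 _)
                 (CovZ.n1 (-51156, 44820) (by decide +kernel)
                  (CovZ.leaf K2_ok TH_l135 _)
                  (CovZ.leaf K2_ok TH_l136 _)))
                (CovZ.n1 (-51264, 44856) (by decide +kernel)
                 (CovZ.n2 (-51228, 44892) (by decide +kernel)
                  (CovZ.leaf K2_ok TH_l137 _)
                  (CovZ.leaf K2_ok TH_l138 _))
                 (CovZ.leaf K2_ok TH_l139 _)))
               (CovZ.n1 (-51192, 44712) (by decide +kernel)
                (CovZ.n2 (-51264, 44712) (by decide +kernel)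
                 (CovZ.leaf K2_ok TH_l140 _)
                 (CovZ.leaf K2_ok TH_l141 _))
                (CovZ.leaf K2_ok TH_l142 _)))))
            (CovZ.subM 215680396494381552383486092164313849073990525266360749423284393656320 (by decide +kernel)
             (CovZ.n1 (-51120, 44496) (by decide +kernel)
              (CovZ.leaf K2_ok TH_l143 _)
              (CovZ.n1 (-51120, 44640) (by decide +kernel)
               (CovZ.n2 (-51048, 44568) (by decide +kernel)
                (CovZ.leaf K2_ok TH_l144 _)
                (CovZ.leaf K2_ok TH_l145 _))
               (CovZ.leaf K2_ok TH_l146 _)))))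
           (CovZ.n1 (-50976, 44928) (by decide +kernel)
            TH_u10
            TH_u11))
          (CovZ.subM 37932994212544887683258484897869737260877005134689515501882168098816 (by decide +kernel)
           (CovZ.n1 (-51552, 44640) (by decide +kernel)
            (CovZ.n2 (-51552, 44928) (by decide +kernel)
             (CovZ.n2 (-51408, 44784) (by decide +kernel)
              (CovZ.n2 (-51552, 44784) (by decide +kernel)
               (CovZ.leaf K2_ok TH_l273 _)
               (CovZ.leaf K2_ok TH_l274 _))
              (CovZ.n1 (-51408, 44928) (by decide +kernel)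
               (CovZ.n2 (-51336, 44856) (by decide +kernel)
                (CovZ.leaf K2_ok TH_l275 _)
                (CovZ.n1 (-51336, 44928) (by decide +kernel)
                 (CovZ.leaf K2_ok TH_l276 _)
                 (CovZ.leaf K2_ok TH_l277 _)))
               (CovZ.leaf K2_ok TH_l278 _)))
             (CovZ.n1 (-51696, 44784) (by decide +kernel)
              (CovZ.leaf K2_ok TH_l279 _)
              (CovZ.leaf K2_ok TH_l280 _)))
            (CovZ.n1 (-51264, 44640) (by decide +kernel)
             (CovZ.n2 (-51408, 44496) (by decide +kernel)
              (CovZ.leaf K2_ok TH_l281 _)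
              (CovZ.leaf K2_ok TH_l282 _))
             (CovZ.n1 (-51408, 44784) (by decide +kernel)
              (CovZ.n2 (-51264, 44784) (by decide +kernel)
               (CovZ.leaf K2_ok TH_l283 _)
               (CovZ.n1 (-51336, 44856) (by decide +kernel)
                (CovZ.n2 (-51264, 44856) (by decide +kernel)
                 (CovZ.leaf K2_ok TH_l284 _)
                 (CovZ.leaf K2_ok TH_l285 _))
                (CovZ.n1 (-51336, 44784) (by decide +kernel)
                 (CovZ.leaf K2_ok TH_l286 _)
                 (CovZ.leaf K2_ok TH_l287 _))))
              (CovZ.leaf K2_ok TH_l288 _))))))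

end Pool.Agent.TET
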