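import Pool.Agent.Helper38_TET.TH_M
import Pool.Agent.Helper38_TET.TH_L
import Pool.Agent.Helper38_TET.TH_1
import Pool.Agent.Helper38_TET.TH_2
import Pool.Agent.Helper38_TET.TH_3
import Pool.Agent.Helper38_TET.TH_4
import Pool.Agent.Helper38_TET.TH_5
import Pool.Agent.Helper38_TET.TH_9
import Pool.Agent.Helper38_TET.TH_10
import Pool.Agent.Helper38_TET.TH_11
import Pool.Agent.Helper38_TET.TH_12
import Pool.Agent.Helper38_TET.TH_13
import Pool.Agent.Helper38_TET.TH_14
import Pool.Agent.Helper38_TET.TH_15
import Pool.Agent.Helper38_TET.TH_U0

/-!
# MP_c7c9bf_co: certificates, family TH
-/

set_option autoImplicit false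
set_option maxRecDepth 100000

namespace Pool.Agent.TET

theorem TH_u15 : CovZ TH_M (toL (selN TH_LN 431304035582358929854137327918117149771231118396854383307199255461890)) [0, 7, 6, 1] (-51264, 44352) (-50688, 43776) (-50688, 44928) :=
    (CovZ.n1 (-50688, 44352) (by decide +kernel)
          (CovZ.subM 215680408948151203832023625034719773009074682175315411906491845738498 (by decide +kernel)
           (CovZ.n2 (-50976, 44064) (by decide +kernel)
            (CovZ.n2 (-50976, 44352) (by decide +kernel)
             (CovZ.n2 (-50832, 44208) (by decide +kernel)
              (CovZ.leaf K2_ok TH_l289 _)
              (CovZ.n1 (-50832, 44352) (by decide +kernel)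
               (CovZ.leaf K2_ok TH_l290 _)
               (CovZ.leaf K2_ok TH_l291 _)))
             (CovZ.n1 (-51120, 44208) (by decide +kernel)
              (CovZ.leaf K2_ok TH_l292 _)
              (CovZ.leaf K2_ok TH_l293 _)))
            (CovZ.n1 (-50688, 44064) (by decide +kernel)
             (CovZ.n2 (-50832, 43920) (by decide +kernel)
              (CovZ.leaf K2_ok TH_l294 _)
              (CovZ.leaf K2_ok TH_l295 _))
             (CovZ.n1 (-50832, 44208) (by decide +kernel)
              (CovZ.n2 (-50688, 44208) (by decide +kernel)
               (CovZ.leaf K2_ok TH_l296 _)
               (CovZ.leaf K2_ok TH_l297 _))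
              (CovZ.leaf K2_ok TH_l298 _)))))
          (CovZ.n1 (-50976, 44640) (by decide +kernel)
           (CovZ.n2 (-50688, 44640) (by decide +kernel)
            (CovZ.subM 216101645259321270068744357193531829370118715020612460469737374089216 (by decide +kernel)
             (CovZ.n2 (-50832, 44496) (by decide +kernel)
              (CovZ.n2 (-50832, 44640) (by decide +kernel)
               (CovZ.subM 216101645259321078506790152569899989466315115803203826815657246195712 (by decide +kernel)
                (CovZ.n2 (-50760, 44568) (by decide +kernel)
                 (CovZ.n2 (-50832, 44568) (by decide +kernel)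
                  (CovZ.subM 822755417211470720126857279997228915858920613399200881982832640 (by decide +kernel)
                   (CovZ.n2 (-50796, 44604) (by decide +kernel)
                    (CovZ.n2 (-50796, 44568) (by decide +kernel)
                     (CovZ.n2 (-50814, 44586) (by decide +kernel)
                      (CovZ.leaf K2_ok TH_l299 _)
                      (CovZ.leaf K2_ok TH_l300 _))
                     (CovZ.n1 (-50778, 44586) (by decide +kernel)
                      (CovZ.n2 (-50778, 44568) (by decide +kernel)
                       (CovZ.leaf K2_ok TH_l301 _)
                       (CovZ.leaf K2_ok TH_l302 _))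
                      (CovZ.leaf K2_ok TH_l303 _)))
                    (CovZ.n1 (-50832, 44604) (by decide +kernel)
                     (CovZ.n2 (-50814, 44622) (by decide +kernel)
                      (CovZ.leaf K2_ok TH_l304 _)
                      (CovZ.leaf K2_ok TH_l305 _))
                     (CovZ.n1 (-50814, 44586) (by decide +kernel)
                      (CovZ.leaf K2_ok TH_l306 _)
                      (CovZ.leaf K2_ok TH_l307 _)))))
                  (CovZ.n1 (-50796, 44532) (by decide +kernel)
                   (CovZ.leaf K2_ok TH_l308 _)
                   (CovZ.n1 (-50796, 44568) (by decide +kernel)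
                    (CovZ.n2 (-50778, 44550) (by decide +kernel)
                     (CovZ.leaf K2_ok TH_l309 _)
                     (CovZ.leaf K2_ok TH_l310 _))
                    (CovZ.leaf K2_ok TH_l311 _))))
                 (CovZ.subM 421249169812779614485012492652576440879413589653374167249262215168 (by decide +kernel)
                  (CovZ.n1 (-50760, 44640) (by decide +kernel)
                   (CovZ.badM (by decide +kernel))
                   (CovZ.n1 (-50796, 44604) (by decide +kernel)
                    (CovZ.n2 (-50796, 44640) (by decide +kernel)
                     (CovZ.badM (by decide +kernel))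
                     (CovZ.n1 (-50814, 44622) (by decide +kernel)
                      (CovZ.n2 (-50814, 44640) (by decide +kernel)
                       (CovZ.badM (by decide +kernel))
                       (CovZ.n1 (-50823, 44631) (by decide +kernel)
                        (CovZ.leaf K2_ok TH_l312 _)
                        (CovZ.leaf K2_ok TH_l313 _)))
                      (CovZ.badM (by decide +kernel))))
                    (CovZ.badM (by decide +kernel)))))))
               (CovZ.n1 (-50904, 44568) (by decide +kernel)
                (CovZ.n2 (-50904, 44640) (by decide +kernel)
                 (CovZ.n2 (-50868, 44604) (by decide +kernel)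
                  (CovZ.leaf K2_ok TH_l314 _)
                  (CovZ.n1 (-50868, 44640) (by decide +kernel)
                   (CovZ.n2 (-50850, 44622) (by decide +kernel)
                    (CovZ.leaf K2_ok TH_l315 _)
                    (CovZ.leaf K2_ok TH_l316 _))
                   (CovZ.leaf K2_ok TH_l317 _)))
                 (CovZ.leaf K2_ok TH_l318 _))
                (CovZ.subM 215680396092646849756704571190361582114917011968479414174668047777792 (by decide +kernel)
                 (CovZ.n1 (-50832, 44568) (by decide +kernel)
                  (CovZ.leaf K2_ok TH_l319 _)
                  (CovZ.n1 (-50868, 44604) (by decide +kernel)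
                   (CovZ.n2 (-50832, 44604) (by decide +kernel)
                    (CovZ.leaf K2_ok TH_l320 _)
                    (CovZ.n1 (-50850, 44622) (by decide +kernel)
                     (CovZ.leaf K2_ok TH_l321 _)
                     (CovZ.leaf K2_ok TH_l322 _)))
                   (CovZ.leaf K2_ok TH_l323 _))))))
              (CovZ.subM 215680396092646849760009898440728223064020560363323687244695549771776 (by decide +kernel)
               (CovZ.n1 (-50688, 44496) (by decide +kernel)
                (CovZ.n2 (-50760, 44424) (by decide +kernel)
                 (CovZ.n2 (-50760, 44496) (by decide +kernel)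
                  (CovZ.n2 (-50724, 44460) (by decide +kernel)
                   (CovZ.leaf K2_ok TH_l324 _)
                   (CovZ.n1 (-50724, 44496) (by decide +kernel)
                    (CovZ.n2 (-50706, 44478) (by decide +kernel)
                     (CovZ.leaf K2_ok TH_l325 _)
                     (CovZ.leaf K2_ok TH_l326 _))
                    (CovZ.leaf K2_ok TH_l327 _)))
                  (CovZ.leaf K2_ok TH_l328 _))
                 (CovZ.n1 (-50688, 44424) (by decide +kernel)
                  (CovZ.leaf K2_ok TH_l329 _)
                  (CovZ.n1 (-50724, 44460) (by decide +kernel)
                   (CovZ.n2 (-50688, 44460) (by decide +kernel)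
                    (CovZ.leaf K2_ok TH_l330 _)
                    (CovZ.n1 (-50706, 44478) (by decide +kernel)
                     (CovZ.leaf K2_ok TH_l331 _)
                     (CovZ.leaf K2_ok TH_l332 _)))
                   (CovZ.leaf K2_ok TH_l333 _))))
                (CovZ.n1 (-50760, 44568) (by decide +kernel)
                 (CovZ.badM (by decide +kernel))
                 (CovZ.n1 (-50760, 44496) (by decide +kernel)
                  (CovZ.n2 (-50796, 44532) (by decide +kernel)
                   (CovZ.n2 (-50760, 44532) (by decide +kernel)
                    (CovZ.leaf K2_ok TH_l334 _)
                    (CovZ.n1 (-50778, 44550) (by decide +kernel)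
                     (CovZ.leaf K2_ok TH_l335 _)
                     (CovZ.leaf K2_ok TH_l336 _)))
                   (CovZ.leaf K2_ok TH_l337 _))
                  (CovZ.subM 822752303180531680640697095836069746430659204973399425550385152 (by decide +kernel)
                   (CovZ.n1 (-50724, 44532) (by decide +kernel)
                    (CovZ.n2 (-50724, 44496) (by decide +kernel)
                     (CovZ.n2 (-50742, 44514) (by decide +kernel)
                      (CovZ.leaf K2_ok TH_l338 _)
                      (CovZ.leaf K2_ok TH_l339 _))
                     (CovZ.n1 (-50706, 44514) (by decide +kernel)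
                      (CovZ.n2 (-50706, 44496) (by decide +kernel)
                       (CovZ.n2 (-50715, 44505) (by decide +kernel)
                        (CovZ.badM (by decide +kernel))
                        (CovZ.leaf K2_ok TH_l340 _))
                       (CovZ.badM (by decide +kernel)))
                      (CovZ.n1 (-50724, 44514) (by decide +kernel)
                       (CovZ.badM (by decide +kernel))
                       (CovZ.leaf K2_ok TH_l341 _))))
                    (CovZ.n1 (-50760, 44532) (by decide +kernel)
                     (CovZ.n2 (-50742, 44550) (by decide +kernel)
                      (CovZ.leaf K2_ok TH_l342 _)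
                      (CovZ.leaf K2_ok TH_l343 _))
                     (CovZ.n1 (-50742, 44514) (by decide +kernel)
                      (CovZ.leaf K2_ok TH_l344 _)
                      (CovZ.leaf K2_ok TH_l345 _)))))))))))
            (CovZ.n1 (-50832, 44784) (by decide +kernel)
             TH_u12
             TH_u13))
           (CovZ.subM 215680408948151395393966233270827067802531685156457913838748470116354 (by decide +kernel)
            (CovZ.n1 (-50976, 44352) (by decide +kernel)
             (CovZ.n2 (-51120, 44496) (by decide +kernel)
              (CovZ.n2 (-50976, 44496) (by decide +kernel)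
               (CovZ.leaf K2_ok TH_l481 _)
               (CovZ.n1 (-51048, 44568) (by decide +kernel)
                (CovZ.leaf K2_ok TH_l482 _)
                (CovZ.leaf K2_ok TH_l483 _)))
              (CovZ.leaf K2_ok TH_l484 _))
             (CovZ.n1 (-50832, 44496) (by decide +kernel)
              (CovZ.n2 (-50832, 44352) (by decide +kernel)
               (CovZ.n2 (-50904, 44424) (by decide +kernel)
                (CovZ.leaf K2_ok TH_l485 _)
                (CovZ.leaf K2_ok TH_l486 _))
               (CovZ.n1 (-50760, 44424) (by decide +kernel)
                (CovZ.leaf K2_ok TH_l487 _)
                (CovZ.n1 (-50832, 44424) (by decide +kernel)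
                 (CovZ.leaf K2_ok TH_l488 _)
                 (CovZ.leaf K2_ok TH_l489 _))))
              (CovZ.n1 (-50976, 44496) (by decide +kernel)
               (CovZ.n2 (-50904, 44568) (by decide +kernel)
                (CovZ.n2 (-50904, 44496) (by decide +kernel)
                 (CovZ.leaf K2_ok TH_l490 _)
                 (CovZ.leaf K2_ok TH_l491 _))
                (CovZ.n1 (-50976, 44568) (by decide +kernel)
                 (CovZ.leaf K2_ok TH_l492 _)
                 (CovZ.leaf K2_ok TH_l493 _)))
               (CovZ.leaf K2_ok TH_l494 _)))))))

theorem TH_u16 : CovZ TH_M (toL (selN TH_LN 431304035582358929854137327918117149771231118396854383307199255461890)) [0, 7, 6, 1] (-50688, 46080) (-51264, 45504) (-50688, 44928) :=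
    (CovZ.n2 (-50688, 45504) (by decide +kernel)
          (CovZ.n2 (-50976, 45216) (by decide +kernel)
           (CovZ.n2 (-50976, 45504) (by decide +kernel)
            (CovZ.n2 (-50832, 45360) (by decide +kernel)
             (CovZ.n2 (-50976, 45360) (by decide +kernel)
              (CovZ.leaf K2_ok TH_l495 _)
              (CovZ.n1 (-50904, 45288) (by decide +kernel)
               (CovZ.leaf K2_ok TH_l496 _)
               (CovZ.leaf K2_ok TH_l497 _)))
             (CovZ.n1 (-50832, 45504) (by decide +kernel)
              (CovZ.leaf K2_ok TH_l498 _)
              (CovZ.leaf K2_ok TH_l499 _)))
            (CovZ.n1 (-51120, 45360) (by decide +kernel)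
             (CovZ.n2 (-51120, 45504) (by decide +kernel)
              (CovZ.leaf K2_ok TH_l500 _)
              (CovZ.leaf K2_ok TH_l501 _))
             (CovZ.n1 (-50976, 45360) (by decide +kernel)
              (CovZ.n2 (-51048, 45288) (by decide +kernel)
               (CovZ.leaf K2_ok TH_l502 _)
               (CovZ.leaf K2_ok TH_l503 _))
              (CovZ.leaf K2_ok TH_l504 _))))
           (CovZ.n1 (-50688, 45216) (by decide +kernel)
            (CovZ.n2 (-50832, 45072) (by decide +kernel)
             (CovZ.n2 (-50832, 45216) (by decide +kernel)
              (CovZ.n2 (-50760, 45144) (by decide +kernel)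
               (CovZ.leaf K2_ok TH_l505 _)
               (CovZ.leaf K2_ok TH_l506 _))
              (CovZ.n1 (-50904, 45144) (by decide +kernel)
               (CovZ.leaf K2_ok TH_l507 _)
               (CovZ.leaf K2_ok TH_l508 _)))
             (CovZ.n1 (-50688, 45072) (by decide +kernel)
              (CovZ.subM 215623626634207726022113881289359006545521079061053510014662787219456 (by decide +kernel)
               (CovZ.n2 (-50760, 45000) (by decide +kernel)
                (CovZ.n2 (-50760, 45072) (by decide +kernel)
                 (CovZ.leaf K2_ok TH_l509 _)
                 (CovZ.leaf K2_ok TH_l510 _))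
                (CovZ.n1 (-50688, 45000) (by decide +kernel)
                 (CovZ.leaf K2_ok TH_l511 _)
                 (CovZ.leaf K2_ok TH_l512 _))))
              (CovZ.n1 (-50760, 45144) (by decide +kernel)
               (CovZ.leaf K2_ok TH_l513 _)
               (CovZ.n1 (-50760, 45072) (by decide +kernel)
                (CovZ.leaf K2_ok TH_l514 _)
                (CovZ.leaf K2_ok TH_l515 _)))))
            (CovZ.n1 (-50832, 45360) (by decide +kernel)
             (CovZ.n2 (-50688, 45360) (by decide +kernel)
              (CovZ.n2 (-50760, 45288) (by decide +kernel)
               (CovZ.leaf K2_ok TH_l516 _)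
               (CovZ.leaf K2_ok TH_l517 _))
              (CovZ.leaf K2_ok TH_l518 _))
             (CovZ.n1 (-50832, 45216) (by decide +kernel)
              (CovZ.n2 (-50904, 45288) (by decide +kernel)
               (CovZ.leaf K2_ok TH_l519 _)
               (CovZ.leaf K2_ok TH_l520 _))
              (CovZ.n1 (-50760, 45288) (by decide +kernel)
               (CovZ.leaf K2_ok TH_l521 _)
               (CovZ.leaf K2_ok TH_l522 _))))))
          (CovZ.n1 (-50976, 45792) (by decide +kernel)
           (CovZ.n2 (-50688, 45792) (by decide +kernel)
            (CovZ.n2 (-50832, 45648) (by decide +kernel)
             (CovZ.n2 (-50832, 45792) (by decide +kernel)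
              (CovZ.leaf K2_ok TH_l523 _)
              (CovZ.leaf K2_ok TH_l524 _))
             (CovZ.leaf K2_ok TH_l525 _))
            (CovZ.n1 (-50832, 45936) (by decide +kernel)
             (CovZ.leaf K2_ok TH_l526 _)
             (CovZ.leaf K2_ok TH_l527 _)))
           (CovZ.n1 (-50976, 45504) (by decide +kernel)
            (CovZ.n2 (-51120, 45648) (by decide +kernel)
             (CovZ.leaf K2_ok TH_l528 _)
             (CovZ.n1 (-51120, 45504) (by decide +kernel)
              (CovZ.leaf K2_ok TH_l529 _)
              (CovZ.leaf K2_ok TH_l530 _)))
            (CovZ.n1 (-50832, 45648) (by decide +kernel)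
             (CovZ.n2 (-50832, 45504) (by decide +kernel)
              (CovZ.leaf K2_ok TH_l531 _)
              (CovZ.leaf K2_ok TH_l532 _))
             (CovZ.leaf K2_ok TH_l533 _)))))

theorem TH_u17 : CovZ TH_M (toL (selN TH_LN 431304035582358929854137327918117149771231118396854383307199255461890)) [0, 7, 6, 1] (-51264, 45504) (-51840, 44928) (-50688, 44928) :=
    (CovZ.n1 (-51264, 44928) (by decide +kernel)
          (CovZ.subM 37932994212544887683169995540921967748251391404583646803701315715072 (by decide +kernel)
           (CovZ.n2 (-51552, 45216) (by decide +kernel)
            (CovZ.n2 (-51264, 45216) (by decide +kernel)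
             (CovZ.n2 (-51408, 45072) (by decide +kernel)
              (CovZ.n2 (-51408, 45216) (by decide +kernel)
               (CovZ.n2 (-51336, 45144) (by decide +kernel)
                (CovZ.leaf K2_ok TH_l534 _)
                (CovZ.leaf K2_ok TH_l535 _))
               (CovZ.n1 (-51480, 45144) (by decide +kernel)
                (CovZ.leaf K2_ok TH_l536 _)
                (CovZ.leaf K2_ok TH_l537 _)))
              (CovZ.n1 (-51264, 45072) (by decide +kernel)
               (CovZ.n2 (-51336, 45000) (by decide +kernel)
                (CovZ.n2 (-51336, 45072) (by decide +kernel)
                 (CovZ.leaf K2_ok TH_l538 _)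
                 (CovZ.leaf K2_ok TH_l539 _))
                (CovZ.n1 (-51264, 45000) (by decide +kernel)
                 (CovZ.leaf K2_ok TH_l540 _)
                 (CovZ.leaf K2_ok TH_l541 _)))
               (CovZ.n1 (-51336, 45144) (by decide +kernel)
                (CovZ.leaf K2_ok TH_l542 _)
                (CovZ.n1 (-51336, 45072) (by decide +kernel)
                 (CovZ.leaf K2_ok TH_l543 _)
                 (CovZ.leaf K2_ok TH_l544 _)))))
             (CovZ.n1 (-51408, 45360) (by decide +kernel)
              (CovZ.n2 (-51264, 45360) (by decide +kernel)
               (CovZ.leaf K2_ok TH_l545 _)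
               (CovZ.leaf K2_ok TH_l546 _))
              (CovZ.n1 (-51408, 45216) (by decide +kernel)
               (CovZ.leaf K2_ok TH_l547 _)
               (CovZ.leaf K2_ok TH_l548 _))))
            (CovZ.n1 (-51552, 44928) (by decide +kernel)
             (CovZ.subM 3138742429638981519372231210723825256428260200972706430976 (by decide +kernel)
              (CovZ.n2 (-51696, 45072) (by decide +kernel)
               (CovZ.n2 (-51552, 45072) (by decide +kernel)
                (CovZ.leaf K2_ok TH_l549 _)
                (CovZ.n1 (-51624, 45144) (by decide +kernel)
                 (CovZ.leaf K2_ok TH_l550 _)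
                 (CovZ.leaf K2_ok TH_l551 _)))
               (CovZ.n1 (-51696, 44928) (by decide +kernel)
                (CovZ.leaf K2_ok TH_l552 _)
                (CovZ.leaf K2_ok TH_l553 _))))
             (CovZ.n1 (-51408, 45072) (by decide +kernel)
              (CovZ.n2 (-51408, 44928) (by decide +kernel)
               (CovZ.n2 (-51480, 45000) (by decide +kernel)
                (CovZ.n2 (-51408, 45000) (by decide +kernel)
                 (CovZ.leaf K2_ok TH_l554 _)
                 (CovZ.leaf K2_ok TH_l555 _))
                (CovZ.leaf K2_ok TH_l556 _))
               (CovZ.n1 (-51336, 45000) (by decide +kernel)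
                (CovZ.n2 (-51336, 44928) (by decide +kernel)
                 (CovZ.leaf K2_ok TH_l557 _)
                 (CovZ.leaf K2_ok TH_l558 _))
                (CovZ.n1 (-51408, 45000) (by decide +kernel)
                 (CovZ.leaf K2_ok TH_l559 _)
                 (CovZ.leaf K2_ok TH_l560 _))))
              (CovZ.n1 (-51552, 45072) (by decide +kernel)
               (CovZ.n2 (-51480, 45144) (by decide +kernel)
                (CovZ.n2 (-51480, 45072) (by decide +kernel)
                 (CovZ.leaf K2_ok TH_l561 _)
                 (CovZ.leaf K2_ok TH_l562 _))
                (CovZ.leaf K2_ok TH_l563 _))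
               (CovZ.n1 (-51480, 45000) (by decide +kernel)
                (CovZ.leaf K2_ok TH_l564 _)
                (CovZ.n1 (-51480, 45072) (by decide +kernel)
                 (CovZ.leaf K2_ok TH_l565 _)
                 (CovZ.leaf K2_ok TH_l566 _))))))))
          (CovZ.n1 (-50976, 45216) (by decide +kernel)
           (CovZ.n2 (-50976, 44928) (by decide +kernel)
            (CovZ.n2 (-51120, 45072) (by decide +kernel)
             (CovZ.n2 (-50976, 45072) (by decide +kernel)
              (CovZ.n2 (-51048, 45000) (by decide +kernel)
               (CovZ.n2 (-51048, 45072) (by decide +kernel)
                (CovZ.leaf K2_ok TH_l567 _)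
                (CovZ.leaf K2_ok TH_l568 _))
               (CovZ.n1 (-50976, 45000) (by decide +kernel)
                (CovZ.leaf K2_ok TH_l569 _)
                (CovZ.leaf K2_ok TH_l570 _)))
              (CovZ.n1 (-51048, 45144) (by decide +kernel)
               (CovZ.leaf K2_ok TH_l571 _)
               (CovZ.n1 (-51048, 45072) (by decide +kernel)
                (CovZ.leaf K2_ok TH_l572 _)
                (CovZ.leaf K2_ok TH_l573 _))))
             (CovZ.n1 (-51120, 44928) (by decide +kernel)
              (CovZ.subM 213593074013611908446715780121645552014142845546647691315442812469248 (by decide +kernel)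
               (CovZ.n2 (-51192, 45000) (by decide +kernel)
                (CovZ.n2 (-51120, 45000) (by decide +kernel)
                 (CovZ.leaf K2_ok TH_l574 _)
                 (CovZ.leaf K2_ok TH_l575 _))
                (CovZ.n1 (-51192, 44928) (by decide +kernel)
                 (CovZ.leaf K2_ok TH_l576 _)
                 (CovZ.leaf K2_ok TH_l577 _))))
              (CovZ.n1 (-51048, 45000) (by decide +kernel)
               (CovZ.n2 (-51048, 44928) (by decide +kernel)
                (CovZ.leaf K2_ok TH_l578 _)
                (CovZ.leaf K2_ok TH_l579 _))
               (CovZ.n1 (-51120, 45000) (by decide +kernel)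
                (CovZ.leaf K2_ok TH_l580 _)
                (CovZ.leaf K2_ok TH_l581 _)))))
            (CovZ.n1 (-50832, 45072) (by decide +kernel)
             (CovZ.n2 (-50832, 44928) (by decide +kernel)
              (CovZ.n2 (-50904, 45000) (by decide +kernel)
               (CovZ.n2 (-50832, 45000) (by decide +kernel)
                (CovZ.leaf K2_ok TH_l582 _)
                (CovZ.leaf K2_ok TH_l583 _))
               (CovZ.n1 (-50904, 44928) (by decide +kernel)
                (CovZ.n2 (-50940, 44964) (by decide +kernel)
                 (CovZ.leaf K2_ok TH_l584 _)
                 (CovZ.leaf K2_ok TH_l585 _))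
                (CovZ.n1 (-50868, 44964) (by decide +kernel)
                 (CovZ.leaf K2_ok TH_l586 _)
                 (CovZ.leaf K2_ok TH_l587 _))))
              (CovZ.subM 215623626634207726022113881289359006545521079061053510014662787219456 (by decide +kernel)
               (CovZ.n1 (-50760, 45000) (by decide +kernel)
                (CovZ.n2 (-50760, 44928) (by decide +kernel)
                 (CovZ.n2 (-50796, 44964) (by decide +kernel)
                  (CovZ.leaf K2_ok TH_l588 _)
                  (CovZ.leaf K2_ok TH_l589 _))
                 (CovZ.n1 (-50724, 44964) (by decide +kernel)
                  (CovZ.leaf K2_ok TH_l590 _)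
                  (CovZ.leaf K2_ok TH_l591 _)))
                (CovZ.n1 (-50832, 45000) (by decide +kernel)
                 (CovZ.leaf K2_ok TH_l592 _)
                 (CovZ.n1 (-50796, 44964) (by decide +kernel)
                  (CovZ.leaf K2_ok TH_l593 _)
                  (CovZ.leaf K2_ok TH_l594 _))))))
             (CovZ.n1 (-50976, 45072) (by decide +kernel)
              (CovZ.n2 (-50904, 45144) (by decide +kernel)
               (CovZ.n2 (-50904, 45072) (by decide +kernel)
                (CovZ.leaf K2_ok TH_l595 _)
                (CovZ.leaf K2_ok TH_l596 _))
               (CovZ.leaf K2_ok TH_l597 _))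
              (CovZ.n1 (-50904, 45000) (by decide +kernel)
               (CovZ.n2 (-50976, 45000) (by decide +kernel)
                (CovZ.leaf K2_ok TH_l598 _)
                (CovZ.n1 (-50940, 44964) (by decide +kernel)
                 (CovZ.leaf K2_ok TH_l599 _)
                 (CovZ.leaf K2_ok TH_l600 _)))
               (CovZ.n1 (-50904, 45072) (by decide +kernel)
                (CovZ.leaf K2_ok TH_l601 _)
                (CovZ.leaf K2_ok TH_l602 _))))))
           (CovZ.n1 (-51264, 45216) (by decide +kernel)
            (CovZ.n2 (-51120, 45360) (by decide +kernel)
             (CovZ.n2 (-51120, 45216) (by decide +kernel)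
              (CovZ.n2 (-51192, 45288) (by decide +kernel)
               (CovZ.leaf K2_ok TH_l603 _)
               (CovZ.leaf K2_ok TH_l604 _))
              (CovZ.n1 (-51048, 45288) (by decide +kernel)
               (CovZ.leaf K2_ok TH_l605 _)
               (CovZ.leaf K2_ok TH_l606 _)))
             (CovZ.n1 (-51264, 45360) (by decide +kernel)
              (CovZ.leaf K2_ok TH_l607 _)
              (CovZ.leaf K2_ok TH_l608 _)))
            (CovZ.n1 (-51120, 45072) (by decide +kernel)
             (CovZ.subM 213593074013611908446715780121645552014142845546647691315717690376192 (by decide +kernel)
              (CovZ.n2 (-51264, 45072) (by decide +kernel)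
               (CovZ.n2 (-51192, 45144) (by decide +kernel)
                (CovZ.n2 (-51192, 45072) (by decide +kernel)
                 (CovZ.leaf K2_ok TH_l609 _)
                 (CovZ.leaf K2_ok TH_l610 _))
                (CovZ.leaf K2_ok TH_l611 _))
               (CovZ.n1 (-51192, 45000) (by decide +kernel)
                (CovZ.n2 (-51264, 45000) (by decide +kernel)
                 (CovZ.leaf K2_ok TH_l612 _)
                 (CovZ.leaf K2_ok TH_l613 _))
                (CovZ.n1 (-51192, 45072) (by decide +kernel)
                 (CovZ.leaf K2_ok TH_l614 _)
                 (CovZ.leaf K2_ok TH_l615 _)))))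
             (CovZ.n1 (-51120, 45216) (by decide +kernel)
              (CovZ.n2 (-51048, 45144) (by decide +kernel)
               (CovZ.leaf K2_ok TH_l616 _)
               (CovZ.leaf K2_ok TH_l617 _))
              (CovZ.n1 (-51192, 45144) (by decide +kernel)
               (CovZ.leaf K2_ok TH_l618 _)
               (CovZ.leaf K2_ok TH_l619 _)))))))

theorem TH_u18 : CovZ TH_M (toL (selN TH_LN 431304292795625877147848274686398473808896309502259091611277921412810)) [0, 7, 6, 1] (-50688, 46080) (-52992, 46080) (-52992, 43776) :=
    (CovZ.n2 (-51840, 44928) (by decide +kernel)
      (CovZ.subM 4708023943423807556118787190465554237063025757371542070784 (by decide +kernel)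
       (CovZ.n2 (-52992, 44928) (by decide +kernel)
        (CovZ.subM 3138742429730325371705412643111555558473027889701202214912 (by decide +kernel)
         (CovZ.n2 (-52416, 45504) (by decide +kernel)
          (CovZ.n2 (-52416, 44928) (by decide +kernel)
           (CovZ.n2 (-52704, 45216) (by decide +kernel)
            (CovZ.n2 (-52416, 45216) (by decide +kernel)
             (CovZ.leaf K2_ok TH_l689 _)
             (CovZ.leaf K2_ok TH_l690 _))
            (CovZ.leaf K2_ok TH_l691 _))
           (CovZ.n1 (-52128, 45216) (by decide +kernel)
            (CovZ.n2 (-52128, 44928) (by decide +kernel)
             (CovZ.leaf K2_ok TH_l692 _)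
             (CovZ.n1 (-51984, 45072) (by decide +kernel)
              (CovZ.leaf K2_ok TH_l693 _)
              (CovZ.leaf K2_ok TH_l694 _)))
            (CovZ.n1 (-52416, 45216) (by decide +kernel)
             (CovZ.n2 (-52272, 45360) (by decide +kernel)
              (CovZ.leaf K2_ok TH_l695 _)
              (CovZ.leaf K2_ok TH_l696 _))
             (CovZ.leaf K2_ok TH_l697 _))))
          (CovZ.n1 (-52992, 45504) (by decide +kernel)
           (CovZ.n2 (-52704, 45792) (by decide +kernel)
            (CovZ.n2 (-52704, 45504) (by decide +kernel)
             (CovZ.leaf K2_ok TH_l698 _)
             (CovZ.leaf K2_ok TH_l699 _))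
            (CovZ.n1 (-52992, 45792) (by decide +kernel)
             (CovZ.leaf K2_ok TH_l700 _)
             (CovZ.leaf K2_ok TH_l701 _)))
           (CovZ.n1 (-52704, 45216) (by decide +kernel)
            (CovZ.n2 (-52992, 45216) (by decide +kernel)
             (CovZ.leaf K2_ok TH_l702 _)
             (CovZ.leaf K2_ok TH_l703 _))
            (CovZ.n1 (-52704, 45504) (by decide +kernel)
             (CovZ.leaf K2_ok TH_l704 _)
             (CovZ.leaf K2_ok TH_l705 _))))))
        (CovZ.n1 (-52416, 44352) (by decide +kernel)
         (CovZ.n2 (-52992, 44352) (by decide +kernel)
          (CovZ.n2 (-52704, 44640) (by decide +kernel)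
           (CovZ.leaf K2_ok TH_l706 _)
           (CovZ.leaf K2_ok TH_l707 _))
          (CovZ.leaf K2_ok TH_l708 _))
         (CovZ.n1 (-52416, 44928) (by decide +kernel)
          (CovZ.n2 (-52128, 44640) (by decide +kernel)
           (CovZ.n2 (-52416, 44640) (by decide +kernel)
            (CovZ.leaf K2_ok TH_l709 _)
            (CovZ.leaf K2_ok TH_l710 _))
           (CovZ.n1 (-52128, 44928) (by decide +kernel)
            (CovZ.leaf K2_ok TH_l711 _)
            (CovZ.leaf K2_ok TH_l712 _)))
          (CovZ.n1 (-52704, 44640) (by decide +kernel)
           (CovZ.n2 (-52704, 44928) (by decide +kernel)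
            (CovZ.leaf K2_ok TH_l713 _)
            (CovZ.leaf K2_ok TH_l714 _))
           (CovZ.leaf K2_ok TH_l715 _))))))
      (CovZ.subM 431304022726854575782112361748524314282560924005443893734341042290690 (by decide +kernel)
       (CovZ.n1 (-51840, 46080) (by decide +kernel)
        (CovZ.n2 (-51264, 45504) (by decide +kernel)
         (CovZ.subM 37932994212544887683169995540921967748251391404583646803701315715072 (by decide +kernel)
          (CovZ.n2 (-51840, 45504) (by decide +kernel)
           (CovZ.n2 (-51552, 45792) (by decide +kernel)
            (CovZ.n2 (-51552, 45504) (by decide +kernel)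
             (CovZ.n2 (-51696, 45648) (by decide +kernel)
              (CovZ.leaf K2_ok TH_l716 _)
              (CovZ.n1 (-51696, 45504) (by decide +kernel)
               (CovZ.leaf K2_ok TH_l717 _)
               (CovZ.leaf K2_ok TH_l718 _)))
             (CovZ.n1 (-51408, 45648) (by decide +kernel)
              (CovZ.n2 (-51408, 45504) (by decide +kernel)
               (CovZ.leaf K2_ok TH_l719 _)
               (CovZ.leaf K2_ok TH_l720 _))
              (CovZ.leaf K2_ok TH_l721 _)))
            (CovZ.subM 3138742429638981519372231208188524055971801397979299987456 (by decide +kernel)
             (CovZ.n1 (-51840, 45792) (by decide +kernel)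
              (CovZ.n2 (-51696, 45936) (by decide +kernel)
               (CovZ.leaf K2_ok TH_l722 _)
               (CovZ.leaf K2_ok TH_l723 _))
              (CovZ.n1 (-51696, 45648) (by decide +kernel)
               (CovZ.leaf K2_ok TH_l724 _)
               (CovZ.leaf K2_ok TH_l725 _)))))
           (CovZ.n1 (-51552, 45216) (by decide +kernel)
            (CovZ.subM 3138742429638981519372231210723825256428260200972706430976 (by decide +kernel)
             (CovZ.n2 (-51840, 45216) (by decide +kernel)
              (CovZ.n2 (-51696, 45360) (by decide +kernel)
               (CovZ.n2 (-51696, 45216) (by decide +kernel)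
                (CovZ.n2 (-51768, 45288) (by decide +kernel)
                 (CovZ.leaf K2_ok TH_l726 _)
                 (CovZ.leaf K2_ok TH_l727 _))
                (CovZ.n1 (-51624, 45288) (by decide +kernel)
                 (CovZ.leaf K2_ok TH_l728 _)
                 (CovZ.leaf K2_ok TH_l729 _)))
               (CovZ.n1 (-51840, 45360) (by decide +kernel)
                (CovZ.leaf K2_ok TH_l730 _)
                (CovZ.n1 (-51768, 45288) (by decide +kernel)
                 (CovZ.leaf K2_ok TH_l731 _)
                 (CovZ.leaf K2_ok TH_l732 _))))
              (CovZ.n1 (-51696, 45072) (by decide +kernel)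
               (CovZ.n2 (-51840, 45072) (by decide +kernel)
                (CovZ.leaf K2_ok TH_l733 _)
                (CovZ.leaf K2_ok TH_l734 _))
               (CovZ.n1 (-51696, 45216) (by decide +kernel)
                (CovZ.n2 (-51624, 45144) (by decide +kernel)
                 (CovZ.leaf K2_ok TH_l735 _)
                 (CovZ.leaf K2_ok TH_l736 _))
                (CovZ.leaf K2_ok TH_l737 _)))))
            (CovZ.n1 (-51552, 45504) (by decide +kernel)
             (CovZ.n2 (-51408, 45360) (by decide +kernel)
              (CovZ.n2 (-51552, 45360) (by decide +kernel)
               (CovZ.leaf K2_ok TH_l738 _)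
               (CovZ.n1 (-51480, 45288) (by decide +kernel)
                (CovZ.leaf K2_ok TH_l739 _)
                (CovZ.leaf K2_ok TH_l740 _)))
              (CovZ.n1 (-51408, 45504) (by decide +kernel)
               (CovZ.leaf K2_ok TH_l741 _)
               (CovZ.leaf K2_ok TH_l742 _)))
             (CovZ.subM 3138742429638981519372231208188524055971801397979299987456 (by decide +kernel)
              (CovZ.n1 (-51696, 45360) (by decide +kernel)
               (CovZ.n2 (-51696, 45504) (by decide +kernel)
                (CovZ.leaf K2_ok TH_l743 _)
                (CovZ.leaf K2_ok TH_l744 _))
               (CovZ.n1 (-51552, 45360) (by decide +kernel)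
                (CovZ.leaf K2_ok TH_l745 _)
                (CovZ.leaf K2_ok TH_l746 _))))))))
         (CovZ.n1 (-51264, 46080) (by decide +kernel)
          (CovZ.n2 (-50976, 45792) (by decide +kernel)
           (CovZ.n2 (-51264, 45792) (by decide +kernel)
            (CovZ.n2 (-51120, 45936) (by decide +kernel)
             (CovZ.n2 (-51120, 45792) (by decide +kernel)
              (CovZ.leaf K2_ok TH_l747 _)
              (CovZ.leaf K2_ok TH_l748 _))
             (CovZ.leaf K2_ok TH_l749 _))
            (CovZ.n1 (-51120, 45648) (by decide +kernel)
             (CovZ.leaf K2_ok TH_l750 _)
             (CovZ.n1 (-51120, 45792) (by decide +kernel)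
              (CovZ.leaf K2_ok TH_l751 _)
              (CovZ.leaf K2_ok TH_l752 _))))
           (CovZ.n1 (-50976, 46080) (by decide +kernel)
            (CovZ.n2 (-50832, 45936) (by decide +kernel)
             (CovZ.leaf K2_ok TH_l753 _)
             (CovZ.leaf K2_ok TH_l754 _))
            (CovZ.n1 (-51120, 45936) (by decide +kernel)
             (CovZ.leaf K2_ok TH_l755 _)
             (CovZ.leaf K2_ok TH_l756 _))))
          (CovZ.subM 37932171460241707151495063834596955518029193889256471384821296283648 (by decide +kernel)
           (CovZ.n1 (-51552, 45792) (by decide +kernel)
            (CovZ.n2 (-51552, 46080) (by decide +kernel)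
             (CovZ.n2 (-51408, 45936) (by decide +kernel)
              (CovZ.leaf K2_ok TH_l757 _)
              (CovZ.leaf K2_ok TH_l758 _))
             (CovZ.leaf K2_ok TH_l759 _))
            (CovZ.n1 (-51264, 45792) (by decide +kernel)
             (CovZ.n2 (-51408, 45648) (by decide +kernel)
              (CovZ.leaf K2_ok TH_l760 _)
              (CovZ.leaf K2_ok TH_l761 _))
             (CovZ.n1 (-51408, 45936) (by decide +kernel)
              (CovZ.leaf K2_ok TH_l762 _)
              (CovZ.leaf K2_ok TH_l763 _)))))))
        (CovZ.subM 3138742429638981519372231210723825256428260200972706430976 (by decide +kernel)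
         (CovZ.n1 (-52416, 45504) (by decide +kernel)
          (CovZ.n2 (-52416, 46080) (by decide +kernel)
           (CovZ.n2 (-52128, 45792) (by decide +kernel)
            (CovZ.n2 (-52416, 45792) (by decide +kernel)
             (CovZ.n2 (-52272, 45936) (by decide +kernel)
              (CovZ.leaf K2_ok TH_l764 _)
              (CovZ.leaf K2_ok TH_l765 _))
             (CovZ.n1 (-52272, 45648) (by decide +kernel)
              (CovZ.leaf K2_ok TH_l766 _)
              (CovZ.leaf K2_ok TH_l767 _)))
            (CovZ.n1 (-52128, 46080) (by decide +kernel)
             (CovZ.n2 (-51984, 45936) (by decide +kernel)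
              (CovZ.leaf K2_ok TH_l768 _)
              (CovZ.leaf K2_ok TH_l769 _))
             (CovZ.leaf K2_ok TH_l770 _)))
           (CovZ.n1 (-52704, 45792) (by decide +kernel)
            (CovZ.n2 (-52704, 46080) (by decide +kernel)
             (CovZ.leaf K2_ok TH_l771 _)
             (CovZ.leaf K2_ok TH_l772 _))
            (CovZ.n1 (-52416, 45792) (by decide +kernel)
             (CovZ.leaf K2_ok TH_l773 _)
             (CovZ.leaf K2_ok TH_l774 _))))
          (CovZ.n1 (-51840, 45504) (by decide +kernel)
           (CovZ.n2 (-52128, 45216) (by decide +kernel)
            (CovZ.n2 (-52128, 45504) (by decide +kernel)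
             (CovZ.n2 (-51984, 45360) (by decide +kernel)
              (CovZ.n2 (-52128, 45360) (by decide +kernel)
               (CovZ.leaf K2_ok TH_l775 _)
               (CovZ.leaf K2_ok TH_l776 _))
              (CovZ.n1 (-51984, 45504) (by decide +kernel)
               (CovZ.leaf K2_ok TH_l777 _)
               (CovZ.leaf K2_ok TH_l778 _)))
             (CovZ.n1 (-52272, 45360) (by decide +kernel)
              (CovZ.leaf K2_ok TH_l779 _)
              (CovZ.leaf K2_ok TH_l780 _)))
            (CovZ.n1 (-51840, 45216) (by decide +kernel)
             (CovZ.n2 (-51984, 45072) (by decide +kernel)
              (CovZ.leaf K2_ok TH_l781 _)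
              (CovZ.n1 (-51840, 45072) (by decide +kernel)
               (CovZ.leaf K2_ok TH_l782 _)
               (CovZ.leaf K2_ok TH_l783 _)))
             (CovZ.n1 (-51984, 45360) (by decide +kernel)
              (CovZ.n2 (-51840, 45360) (by decide +kernel)
               (CovZ.leaf K2_ok TH_l784 _)
               (CovZ.leaf K2_ok TH_l785 _))
              (CovZ.n1 (-51984, 45216) (by decide +kernel)
               (CovZ.leaf K2_ok TH_l786 _)
               (CovZ.n1 (-51912, 45288) (by decide +kernel)
                (CovZ.leaf K2_ok TH_l787 _)
                (CovZ.leaf K2_ok TH_l788 _))))))
           (CovZ.n1 (-52128, 45792) (by decide +kernel)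
            (CovZ.n2 (-51840, 45792) (by decide +kernel)
             (CovZ.n2 (-51984, 45648) (by decide +kernel)
              (CovZ.leaf K2_ok TH_l789 _)
              (CovZ.leaf K2_ok TH_l790 _))
             (CovZ.n1 (-51984, 45936) (by decide +kernel)
              (CovZ.leaf K2_ok TH_l791 _)
              (CovZ.leaf K2_ok TH_l792 _)))
            (CovZ.n1 (-52128, 45504) (by decide +kernel)
             (CovZ.n2 (-52272, 45648) (by decide +kernel)
              (CovZ.leaf K2_ok TH_l793 _)
              (CovZ.n1 (-52272, 45504) (by decide +kernel)
               (CovZ.leaf K2_ok TH_l794 _)
               (CovZ.leaf K2_ok TH_l795 _)))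
             (CovZ.n1 (-51984, 45648) (by decide +kernel)
              (CovZ.n2 (-51984, 45504) (by decide +kernel)
               (CovZ.leaf K2_ok TH_l796 _)
               (CovZ.leaf K2_ok TH_l797 _))
              (CovZ.leaf K2_ok TH_l798 _))))))))))

theorem TH_u19 : CovZ TH_M (toL (selN TH_LN 431304292795625877147848274686398473808896309502259091611277921412810)) [0, 7, 6, 1] (-52992, 46080) (-55296, 46080) (-52992, 43776) :=
    (CovZ.subM 1569472982103018532689882740448763791532639102315242471936 (by decide +kernel)
      (CovZ.n1 (-54144, 44928) (by decide +kernel)
       (CovZ.n2 (-54144, 46080) (by decide +kernel)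
        (CovZ.n2 (-53568, 45504) (by decide +kernel)
         (CovZ.n2 (-54144, 45504) (by decide +kernel)
          (CovZ.n2 (-53856, 45792) (by decide +kernel)
           (CovZ.leaf K2_ok TH_l799 _)
           (CovZ.leaf K2_ok TH_l800 _))
          (CovZ.leaf K2_ok TH_l801 _))
         (CovZ.subM 191561945641137454294958130594406785330953445608275968 (by decide +kernel)
          (CovZ.n1 (-53568, 46080) (by decide +kernel)
           (CovZ.n2 (-53280, 45792) (by decide +kernel)
            (CovZ.leaf K2_ok TH_l802 _)
            (CovZ.leaf K2_ok TH_l803 _))
           (CovZ.n1 (-53856, 45792) (by decide +kernel)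
            (CovZ.leaf K2_ok TH_l804 _)
            (CovZ.leaf K2_ok TH_l805 _)))))
        (CovZ.subM 191561942786642068883038368477834551275050381917290496 (by decide +kernel)
         (CovZ.n1 (-54720, 45504) (by decide +kernel)
          (CovZ.n2 (-54720, 46080) (by decide +kernel)
           (CovZ.n2 (-54432, 45792) (by decide +kernel)
            (CovZ.badM (by decide +kernel))
            (CovZ.leaf K2_ok TH_l806 _))
           (CovZ.badM (by decide +kernel)))
          (CovZ.n1 (-54144, 45504) (by decide +kernel)
           (CovZ.leaf K2_ok TH_l807 _)
           (CovZ.n1 (-54432, 45792) (by decide +kernel)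
            (CovZ.leaf K2_ok TH_l808 _)
            (CovZ.leaf K2_ok TH_l809 _))))))
       (CovZ.n1 (-52992, 44928) (by decide +kernel)
        (CovZ.n2 (-53568, 44352) (by decide +kernel)
         (CovZ.n2 (-53568, 44928) (by decide +kernel)
          (CovZ.leaf K2_ok TH_l810 _)
          (CovZ.leaf K2_ok TH_l811 _))
         (CovZ.n1 (-52992, 44352) (by decide +kernel)
          (CovZ.leaf K2_ok TH_l812 _)
          (CovZ.leaf K2_ok TH_l813 _)))
        (CovZ.n1 (-53568, 45504) (by decide +kernel)
         (CovZ.subM 191561945641137454294958130594406785330953445608275968 (by decide +kernel)
          (CovZ.n2 (-52992, 45504) (by decide +kernel)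
           (CovZ.n2 (-53280, 45216) (by decide +kernel)
            (CovZ.n2 (-53280, 45504) (by decide +kernel)
             (CovZ.leaf K2_ok TH_l814 _)
             (CovZ.leaf K2_ok TH_l815 _))
            (CovZ.leaf K2_ok TH_l816 _))
           (CovZ.n1 (-53280, 45792) (by decide +kernel)
            (CovZ.leaf K2_ok TH_l817 _)
            (CovZ.n1 (-53280, 45504) (by decide +kernel)
             (CovZ.leaf K2_ok TH_l818 _)
             (CovZ.leaf K2_ok TH_l819 _)))))
         (CovZ.n1 (-53568, 44928) (by decide +kernel)
          (CovZ.n2 (-53856, 45216) (by decide +kernel)
           (CovZ.leaf K2_ok TH_l820 _)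
           (CovZ.leaf K2_ok TH_l821 _))
          (CovZ.n1 (-53280, 45216) (by decide +kernel)
           (CovZ.leaf K2_ok TH_l822 _)
           (CovZ.leaf K2_ok TH_l823 _)))))))

theorem TH_u20 : CovZ TH_M (toL (selN TH_LN 677431182682061165382893530819603915171201236774994076065065374564351)) [0, 7, 6, 1] (-48960, 43200) (-49248, 42912) (-48960, 42624) :=
    (CovZ.n2 (-48960, 42912) (by decide +kernel)
           (CovZ.n2 (-49104, 42768) (by decide +kernel)
            (CovZ.subM 2419361017291873090283813818187257683987015365148844856919932637 (by decide +kernel)
             (CovZ.n2 (-49104, 42912) (by decide +kernel)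
              (CovZ.n2 (-49032, 42840) (by decide +kernel)
               (CovZ.n2 (-49104, 42840) (by decide +kernel)
                (CovZ.n2 (-49068, 42876) (by decide +kernel)
                 (CovZ.n2 (-49068, 42840) (by decide +kernel)
                  (CovZ.leaf K2_ok TH_l1542 _)
                  (CovZ.n1 (-49050, 42858) (by decide +kernel)
                   (CovZ.leaf K2_ok TH_l1543 _)
                   (CovZ.leaf K2_ok TH_l1544 _)))
                 (CovZ.n1 (-49104, 42876) (by decide +kernel)
                  (CovZ.n2 (-49086, 42894) (by decide +kernel)
                   (CovZ.leaf K2_ok TH_l1545 _)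
                   (CovZ.leaf K2_ok TH_l1546 _))
                  (CovZ.leaf K2_ok TH_l1547 _)))
                (CovZ.n1 (-49068, 42804) (by decide +kernel)
                 (CovZ.leaf K2_ok TH_l1548 _)
                 (CovZ.n1 (-49068, 42840) (by decide +kernel)
                  (CovZ.leaf K2_ok TH_l1549 _)
                  (CovZ.leaf K2_ok TH_l1550 _))))
               (CovZ.n1 (-49032, 42912) (by decide +kernel)
                (CovZ.n2 (-48996, 42876) (by decide +kernel)
                 (CovZ.n2 (-49032, 42876) (by decide +kernel)
                  (CovZ.n2 (-49014, 42894) (by decide +kernel)
                   (CovZ.n2 (-49014, 42876) (by decide +kernel)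
                    (CovZ.leaf K2_ok TH_l1551 _)
                    (CovZ.leaf K2_ok TH_l1552 _))
                   (CovZ.leaf K2_ok TH_l1553 _))
                  (CovZ.n1 (-49014, 42858) (by decide +kernel)
                   (CovZ.leaf K2_ok TH_l1554 _)
                   (CovZ.leaf K2_ok TH_l1555 _)))
                 (CovZ.subM 102844085404928226220168284322266988710556456688978621567598592 (by decide +kernel)
                  (CovZ.n1 (-48996, 42912) (by decide +kernel)
                   (CovZ.n2 (-48978, 42894) (by decide +kernel)
                    (CovZ.n2 (-48996, 42894) (by decide +kernel)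
                     (CovZ.badM (by decide +kernel))
                     (CovZ.n1 (-48987, 42885) (by decide +kernel)
                      (CovZ.leaf K2_ok TH_l1556 _)
                      (CovZ.leaf K2_ok TH_l1557 _)))
                    (CovZ.badM (by decide +kernel)))
                   (CovZ.n1 (-49014, 42894) (by decide +kernel)
                    (CovZ.n2 (-49014, 42912) (by decide +kernel)
                     (CovZ.leaf K2_ok TH_l1558 _)
                     (CovZ.leaf K2_ok TH_l1559 _))
                    (CovZ.n1 (-48996, 42894) (by decide +kernel)
                     (CovZ.leaf K2_ok TH_l1560 _)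
                     (CovZ.leaf K2_ok TH_l1561 _))))))
                (CovZ.n1 (-49068, 42876) (by decide +kernel)
                 (CovZ.n2 (-49068, 42912) (by decide +kernel)
                  (CovZ.n2 (-49050, 42894) (by decide +kernel)
                   (CovZ.leaf K2_ok TH_l1562 _)
                   (CovZ.leaf K2_ok TH_l1563 _))
                  (CovZ.n1 (-49086, 42894) (by decide +kernel)
                   (CovZ.leaf K2_ok TH_l1564 _)
                   (CovZ.leaf K2_ok TH_l1565 _)))
                 (CovZ.n1 (-49032, 42876) (by decide +kernel)
                  (CovZ.n2 (-49050, 42858) (by decide +kernel)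
                   (CovZ.leaf K2_ok TH_l1566 _)
                   (CovZ.leaf K2_ok TH_l1567 _))
                  (CovZ.n1 (-49050, 42894) (by decide +kernel)
                   (CovZ.leaf K2_ok TH_l1568 _)
                   (CovZ.leaf K2_ok TH_l1569 _))))))
              (CovZ.n1 (-49176, 42840) (by decide +kernel)
               (CovZ.n2 (-49176, 42912) (by decide +kernel)
                (CovZ.n2 (-49140, 42876) (by decide +kernel)
                 (CovZ.leaf K2_ok TH_l1570 _)
                 (CovZ.n1 (-49140, 42912) (by decide +kernel)
                  (CovZ.n2 (-49122, 42894) (by decide +kernel)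
                   (CovZ.n2 (-49140, 42894) (by decide +kernel)
                    (CovZ.leaf K2_ok TH_l1571 _)
                    (CovZ.leaf K2_ok TH_l1572 _))
                   (CovZ.leaf K2_ok TH_l1573 _))
                  (CovZ.n1 (-49158, 42894) (by decide +kernel)
                   (CovZ.leaf K2_ok TH_l1574 _)
                   (CovZ.leaf K2_ok TH_l1575 _))))
                (CovZ.n1 (-49212, 42876) (by decide +kernel)
                 (CovZ.leaf K2_ok TH_l1576 _)
                 (CovZ.leaf K2_ok TH_l1577 _)))
               (CovZ.n1 (-49104, 42840) (by decide +kernel)
                (CovZ.leaf K2_ok TH_l1578 _)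
                (CovZ.n1 (-49140, 42876) (by decide +kernel)
                 (CovZ.n2 (-49104, 42876) (by decide +kernel)
                  (CovZ.leaf K2_ok TH_l1579 _)
                  (CovZ.n1 (-49122, 42894) (by decide +kernel)
                   (CovZ.leaf K2_ok TH_l1580 _)
                   (CovZ.leaf K2_ok TH_l1581 _)))
                 (CovZ.leaf K2_ok TH_l1582 _))))))
            (CovZ.subM 2213672947530193074870617397851163424077456764824195487717375711 (by decide +kernel)
             (CovZ.n1 (-48960, 42768) (by decide +kernel)
              (CovZ.n2 (-49032, 42696) (by decide +kernel)
               (CovZ.n2 (-49032, 42768) (by decide +kernel)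
                (CovZ.leaf K2_ok TH_l1583 _)
                (CovZ.leaf K2_ok TH_l1584 _))
               (CovZ.n1 (-48960, 42696) (by decide +kernel)
                (CovZ.leaf K2_ok TH_l1585 _)
                (CovZ.leaf K2_ok TH_l1586 _)))
              (CovZ.n1 (-49032, 42840) (by decide +kernel)
               (CovZ.n2 (-48960, 42840) (by decide +kernel)
                (CovZ.n2 (-48996, 42804) (by decide +kernel)
                 (CovZ.n2 (-48996, 42840) (by decide +kernel)
                  (CovZ.n2 (-48978, 42822) (by decide +kernel)
                   (CovZ.leaf K2_ok TH_l1587 _)
                   (CovZ.leaf K2_ok TH_l1588 _))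
                  (CovZ.leaf K2_ok TH_l1589 _))
                 (CovZ.n1 (-48960, 42804) (by decide +kernel)
                  (CovZ.leaf K2_ok TH_l1590 _)
                  (CovZ.n1 (-48978, 42822) (by decide +kernel)
                   (CovZ.leaf K2_ok TH_l1591 _)
                   (CovZ.leaf K2_ok TH_l1592 _))))
                (CovZ.n1 (-48996, 42876) (by decide +kernel)
                 (CovZ.subM 154266495906370376736734821849628319644229703386916949277743108 (by decide +kernel)
                  (CovZ.n2 (-48960, 42876) (by decide +kernel)
                   (CovZ.n2 (-48978, 42858) (by decide +kernel)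
                    (CovZ.leaf K2_ok TH_l1593 _)
                    (CovZ.leaf K2_ok TH_l1594 _))
                   (CovZ.subM 102844085404928226220168284322266988710556456688978621567598592 (by decide +kernel)
                    (CovZ.n1 (-48978, 42894) (by decide +kernel)
                     (CovZ.n2 (-48960, 42894) (by decide +kernel)
                      (CovZ.leaf K2_ok TH_l1595 _)
                      (CovZ.badM (by decide +kernel)))
                     (CovZ.n1 (-48978, 42876) (by decide +kernel)
                      (CovZ.leaf K2_ok TH_l1596 _)
                      (CovZ.leaf K2_ok TH_l1597 _))))))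
                 (CovZ.n1 (-48996, 42840) (by decide +kernel)
                  (CovZ.n2 (-49014, 42858) (by decide +kernel)
                   (CovZ.leaf K2_ok TH_l1598 _)
                   (CovZ.leaf K2_ok TH_l1599 _))
                  (CovZ.n1 (-48978, 42858) (by decide +kernel)
                   (CovZ.leaf K2_ok TH_l1600 _)
                   (CovZ.leaf K2_ok TH_l1601 _)))))
               (CovZ.n1 (-49032, 42768) (by decide +kernel)
                (CovZ.n2 (-49068, 42804) (by decide +kernel)
                 (CovZ.leaf K2_ok TH_l1602 _)
                 (CovZ.leaf K2_ok TH_l1603 _))
                (CovZ.n1 (-48996, 42804) (by decide +kernel)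
                 (CovZ.n2 (-48996, 42768) (by decide +kernel)
                  (CovZ.leaf K2_ok TH_l1604 _)
                  (CovZ.leaf K2_ok TH_l1605 _))
                 (CovZ.leaf K2_ok TH_l1606 _)))))))
           (CovZ.subM 2417754071585124680829765823150653690466502940804069991507771076 (by decide +kernel)
            (CovZ.n1 (-49104, 43056) (by decide +kernel)
             (CovZ.badM (by decide +kernel))
             (CovZ.n1 (-49104, 42912) (by decide +kernel)
              (CovZ.n2 (-49176, 42984) (by decide +kernel)
               (CovZ.subM 102845261595280686387403979411477105696584915745837550682703872 (by decide +kernel)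
                (CovZ.n2 (-49104, 42984) (by decide +kernel)
                 (CovZ.n2 (-49140, 42948) (by decide +kernel)
                  (CovZ.subM 784637740307386381112269040629503511583106257615639805952 (by decide +kernel)
                   (CovZ.n2 (-49140, 42984) (by decide +kernel)
                    (CovZ.n2 (-49122, 42966) (by decide +kernel)
                     (CovZ.n2 (-49140, 42966) (by decide +kernel)
                      (CovZ.badM (by decide +kernel))
                      (CovZ.leaf K2_ok TH_l1607 _))
                     (CovZ.badM (by decide +kernel)))
                    (CovZ.n1 (-49158, 42966) (by decide +kernel)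
                     (CovZ.badM (by decide +kernel))
                     (CovZ.n1 (-49140, 42966) (by decide +kernel)
                      (CovZ.leaf K2_ok TH_l1608 _)
                      (CovZ.badM (by decide +kernel))))))
                  (CovZ.n1 (-49104, 42948) (by decide +kernel)
                   (CovZ.n2 (-49122, 42930) (by decide +kernel)
                    (CovZ.n2 (-49122, 42948) (by decide +kernel)
                     (CovZ.leaf K2_ok TH_l1609 _)
                     (CovZ.leaf K2_ok TH_l1610 _))
                    (CovZ.leaf K2_ok TH_l1611 _))
                   (CovZ.n1 (-49122, 42966) (by decide +kernel)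
                    (CovZ.badM (by decide +kernel))
                    (CovZ.leaf K2_ok TH_l1612 _))))
                 (CovZ.badM (by decide +kernel))))
               (CovZ.n1 (-49176, 42912) (by decide +kernel)
                (CovZ.n2 (-49212, 42948) (by decide +kernel)
                 (CovZ.n2 (-49176, 42948) (by decide +kernel)
                  (CovZ.n2 (-49194, 42930) (by decide +kernel)
                   (CovZ.leaf K2_ok TH_l1613 _)
                   (CovZ.leaf K2_ok TH_l1614 _))
                  (CovZ.n1 (-49194, 42966) (by decide +kernel)
                   (CovZ.n2 (-49176, 42966) (by decide +kernel)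
                    (CovZ.leaf K2_ok TH_l1615 _)
                    (CovZ.leaf K2_ok TH_l1616 _))
                   (CovZ.leaf K2_ok TH_l1617 _)))
                 (CovZ.n1 (-49212, 42912) (by decide +kernel)
                  (CovZ.n2 (-49230, 42930) (by decide +kernel)
                   (CovZ.leaf K2_ok TH_l1618 _)
                   (CovZ.leaf K2_ok TH_l1619 _))
                  (CovZ.n1 (-49194, 42930) (by decide +kernel)
                   (CovZ.leaf K2_ok TH_l1620 _)
                   (CovZ.leaf K2_ok TH_l1621 _))))
                (CovZ.n1 (-49140, 42948) (by decide +kernel)
                 (CovZ.n2 (-49140, 42912) (by decide +kernel)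
                  (CovZ.n2 (-49158, 42930) (by decide +kernel)
                   (CovZ.leaf K2_ok TH_l1622 _)
                   (CovZ.leaf K2_ok TH_l1623 _))
                  (CovZ.n1 (-49122, 42930) (by decide +kernel)
                   (CovZ.n2 (-49122, 42912) (by decide +kernel)
                    (CovZ.leaf K2_ok TH_l1624 _)
                    (CovZ.n1 (-49113, 42921) (by decide +kernel)
                     (CovZ.leaf K2_ok TH_l1625 _)
                     (CovZ.leaf K2_ok TH_l1626 _)))
                   (CovZ.leaf K2_ok TH_l1627 _)))
                 (CovZ.n1 (-49176, 42948) (by decide +kernel)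
                  (CovZ.n2 (-49158, 42966) (by decide +kernel)
                   (CovZ.leaf K2_ok TH_l1628 _)
                   (CovZ.n1 (-49176, 42966) (by decide +kernel)
                    (CovZ.leaf K2_ok TH_l1629 _)
                    (CovZ.leaf K2_ok TH_l1630 _)))
                  (CovZ.n1 (-49158, 42930) (by decide +kernel)
                   (CovZ.leaf K2_ok TH_l1631 _)
                   (CovZ.leaf K2_ok TH_l1632 _))))))
              (CovZ.subM 102845261595280686387403979411477105706256322302754584080353280 (by decide +kernel)
               (CovZ.n1 (-49032, 42984) (by decide +kernel)
                (CovZ.n2 (-49032, 42912) (by decide +kernel)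
                 (CovZ.n2 (-49068, 42948) (by decide +kernel)
                  (CovZ.badM (by decide +kernel))
                  (CovZ.n1 (-49068, 42912) (by decide +kernel)
                   (CovZ.n2 (-49086, 42930) (by decide +kernel)
                    (CovZ.badM (by decide +kernel))
                    (CovZ.n1 (-49086, 42912) (by decide +kernel)
                     (CovZ.leaf K2_ok TH_l1633 _)
                     (CovZ.n1 (-49077, 42921) (by decide +kernel)
                      (CovZ.leaf K2_ok TH_l1634 _)
                      (CovZ.leaf K2_ok TH_l1635 _))))
                   (CovZ.badM (by decide +kernel))))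
                 (CovZ.badM (by decide +kernel)))
                (CovZ.n1 (-49104, 42984) (by decide +kernel)
                 (CovZ.badM (by decide +kernel))
                 (CovZ.n1 (-49068, 42948) (by decide +kernel)
                  (CovZ.n2 (-49104, 42948) (by decide +kernel)
                   (CovZ.badM (by decide +kernel))
                   (CovZ.n1 (-49086, 42930) (by decide +kernel)
                    (CovZ.leaf K2_ok TH_l1636 _)
                    (CovZ.badM (by decide +kernel))))
                  (CovZ.badM (by decide +kernel))))))))))

theorem TH_u21 : CovZ TH_M (toL (selN TH_LN 2213660393326722302222713530099412122212563436337591480646352895)) [0, 7, 6, 1] (-48960, 42624) (-48672, 42624) (-48672, 42912) :=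
    (CovZ.n2 (-48816, 42768) (by decide +kernel)
             (CovZ.n2 (-48672, 42768) (by decide +kernel)
              (CovZ.n2 (-48744, 42696) (by decide +kernel)
               (CovZ.n2 (-48744, 42768) (by decide +kernel)
                (CovZ.subM 154368498839513655800868745590391379089623448139132158947829456 (by decide +kernel)
                 (CovZ.n2 (-48708, 42732) (by decide +kernel)
                  (CovZ.n2 (-48744, 42732) (by decide +kernel)
                   (CovZ.n2 (-48726, 42750) (by decide +kernel)
                    (CovZ.leaf K2_ok TH_l1657 _)
                    (CovZ.leaf K2_ok TH_l1658 _))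
                   (CovZ.n1 (-48726, 42714) (by decide +kernel)
                    (CovZ.leaf K2_ok TH_l1659 _)
                    (CovZ.leaf K2_ok TH_l1660 _)))
                  (CovZ.subM 443657519002241955072395107077864489560916551122072829968 (by decide +kernel)
                   (CovZ.n1 (-48708, 42768) (by decide +kernel)
                    (CovZ.n2 (-48690, 42750) (by decide +kernel)
                     (CovZ.n2 (-48708, 42750) (by decide +kernel)
                      (CovZ.badM (by decide +kernel))
                      (CovZ.leaf K2_ok TH_l1661 _))
                     (CovZ.badM (by decide +kernel)))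
                    (CovZ.n1 (-48726, 42750) (by decide +kernel)
                     (CovZ.n2 (-48726, 42768) (by decide +kernel)
                      (CovZ.leaf K2_ok TH_l1662 _)
                      (CovZ.n1 (-48735, 42759) (by decide +kernel)
                       (CovZ.leaf K2_ok TH_l1663 _)
                       (CovZ.leaf K2_ok TH_l1664 _)))
                     (CovZ.n1 (-48708, 42750) (by decide +kernel)
                      (CovZ.leaf K2_ok TH_l1665 _)
                      (CovZ.n1 (-48717, 42759) (by decide +kernel)
                       (CovZ.badM (by decide +kernel))
                       (CovZ.leaf K2_ok TH_l1666 _))))))))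
                (CovZ.n1 (-48780, 42732) (by decide +kernel)
                 (CovZ.subM 154368498809582102268342399941267658710954510149763575111691412 (by decide +kernel)
                  (CovZ.n2 (-48780, 42768) (by decide +kernel)
                   (CovZ.n2 (-48762, 42750) (by decide +kernel)
                    (CovZ.leaf K2_ok TH_l1667 _)
                    (CovZ.n1 (-48762, 42768) (by decide +kernel)
                     (CovZ.leaf K2_ok TH_l1668 _)
                     (CovZ.leaf K2_ok TH_l1669 _)))
                   (CovZ.n1 (-48798, 42750) (by decide +kernel)
                    (CovZ.leaf K2_ok TH_l1670 _)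
                    (CovZ.leaf K2_ok TH_l1671 _))))
                 (CovZ.n1 (-48744, 42732) (by decide +kernel)
                  (CovZ.n2 (-48762, 42714) (by decide +kernel)
                   (CovZ.leaf K2_ok TH_l1672 _)
                   (CovZ.leaf K2_ok TH_l1673 _))
                  (CovZ.n1 (-48762, 42750) (by decide +kernel)
                   (CovZ.leaf K2_ok TH_l1674 _)
                   (CovZ.leaf K2_ok TH_l1675 _)))))
               (CovZ.subM 155975443013754809539987919353757089828158525695722956218115801 (by decide +kernel)
                (CovZ.n1 (-48672, 42696) (by decide +kernel)
                 (CovZ.n2 (-48708, 42660) (by decide +kernel)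
                  (CovZ.n2 (-48708, 42696) (by decide +kernel)
                   (CovZ.leaf K2_ok TH_l1676 _)
                   (CovZ.leaf K2_ok TH_l1677 _))
                  (CovZ.n1 (-48672, 42660) (by decide +kernel)
                   (CovZ.leaf K2_ok TH_l1678 _)
                   (CovZ.leaf K2_ok TH_l1679 _)))
                 (CovZ.n1 (-48708, 42732) (by decide +kernel)
                  (CovZ.n2 (-48672, 42732) (by decide +kernel)
                   (CovZ.n2 (-48690, 42714) (by decide +kernel)
                    (CovZ.leaf K2_ok TH_l1680 _)
                    (CovZ.leaf K2_ok TH_l1681 _))
                   (CovZ.n1 (-48690, 42750) (by decide +kernel)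
                    (CovZ.badM (by decide +kernel))
                    (CovZ.leaf K2_ok TH_l1682 _)))
                  (CovZ.n1 (-48708, 42696) (by decide +kernel)
                   (CovZ.n2 (-48726, 42714) (by decide +kernel)
                    (CovZ.leaf K2_ok TH_l1683 _)
                    (CovZ.leaf K2_ok TH_l1684 _))
                   (CovZ.n1 (-48690, 42714) (by decide +kernel)
                    (CovZ.leaf K2_ok TH_l1685 _)
                    (CovZ.leaf K2_ok TH_l1686 _)))))))
              (CovZ.subM 154266495906382068705928706818289101695033877341973869949552788 (by decide +kernel)
               (CovZ.n1 (-48744, 42840) (by decide +kernel)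
                (CovZ.badM (by decide +kernel))
                (CovZ.n1 (-48744, 42768) (by decide +kernel)
                 (CovZ.n2 (-48780, 42804) (by decide +kernel)
                  (CovZ.subM 20779328638941137502255463549370372 (by decide +kernel)
                   (CovZ.n2 (-48744, 42804) (by decide +kernel)
                    (CovZ.n2 (-48762, 42786) (by decide +kernel)
                     (CovZ.badM (by decide +kernel))
                     (CovZ.n1 (-48744, 42786) (by decide +kernel)
                      (CovZ.leaf K2_ok TH_l1687 _)
                      (CovZ.badM (by decide +kernel))))
                    (CovZ.badM (by decide +kernel))))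
                  (CovZ.n1 (-48780, 42768) (by decide +kernel)
                   (CovZ.n2 (-48798, 42786) (by decide +kernel)
                    (CovZ.n2 (-48780, 42786) (by decide +kernel)
                     (CovZ.leaf K2_ok TH_l1688 _)
                     (CovZ.leaf K2_ok TH_l1689 _))
                    (CovZ.leaf K2_ok TH_l1690 _))
                   (CovZ.n1 (-48762, 42786) (by decide +kernel)
                    (CovZ.n2 (-48762, 42768) (by decide +kernel)
                     (CovZ.leaf K2_ok TH_l1691 _)
                     (CovZ.leaf K2_ok TH_l1692 _))
                    (CovZ.n1 (-48780, 42786) (by decide +kernel)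
                     (CovZ.leaf K2_ok TH_l1693 _)
                     (CovZ.leaf K2_ok TH_l1694 _)))))
                 (CovZ.subM 10141204801825835211973625643008 (by decide +kernel)
                  (CovZ.n1 (-48708, 42804) (by decide +kernel)
                   (CovZ.n2 (-48708, 42768) (by decide +kernel)
                    (CovZ.n2 (-48726, 42786) (by decide +kernel)
                     (CovZ.badM (by decide +kernel))
                     (CovZ.n1 (-48726, 42768) (by decide +kernel)
                      (CovZ.leaf K2_ok TH_l1695 _)
                      (CovZ.badM (by decide +kernel))))
                    (CovZ.badM (by decide +kernel)))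
                   (CovZ.n1 (-48744, 42804) (by decide +kernel)
                    (CovZ.badM (by decide +kernel))
                    (CovZ.n1 (-48726, 42786) (by decide +kernel)
                     (CovZ.n2 (-48744, 42786) (by decide +kernel)
                      (CovZ.badM (by decide +kernel))
                      (CovZ.leaf K2_ok TH_l1696 _))
                     (CovZ.badM (by decide +kernel))))))))))
             (CovZ.n1 (-48816, 42624) (by decide +kernel)
              (CovZ.n2 (-48888, 42696) (by decide +kernel)
               (CovZ.n2 (-48816, 42696) (by decide +kernel)
                (CovZ.leaf K2_ok TH_l1697 _)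
                (CovZ.n1 (-48852, 42732) (by decide +kernel)
                 (CovZ.n2 (-48816, 42732) (by decide +kernel)
                  (CovZ.leaf K2_ok TH_l1698 _)
                  (CovZ.n1 (-48834, 42750) (by decide +kernel)
                   (CovZ.leaf K2_ok TH_l1699 _)
                   (CovZ.leaf K2_ok TH_l1700 _)))
                 (CovZ.leaf K2_ok TH_l1701 _)))
               (CovZ.n1 (-48888, 42624) (by decide +kernel)
                (CovZ.leaf K2_ok TH_l1702 _)
                (CovZ.leaf K2_ok TH_l1703 _)))
              (CovZ.n1 (-48744, 42696) (by decide +kernel)
               (CovZ.n2 (-48744, 42624) (by decide +kernel)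
                (CovZ.n2 (-48780, 42660) (by decide +kernel)
                 (CovZ.leaf K2_ok TH_l1704 _)
                 (CovZ.leaf K2_ok TH_l1705 _))
                (CovZ.n1 (-48708, 42660) (by decide +kernel)
                 (CovZ.leaf K2_ok TH_l1706 _)
                 (CovZ.leaf K2_ok TH_l1707 _)))
               (CovZ.n1 (-48816, 42696) (by decide +kernel)
                (CovZ.n2 (-48780, 42732) (by decide +kernel)
                 (CovZ.n2 (-48780, 42696) (by decide +kernel)
                  (CovZ.leaf K2_ok TH_l1708 _)
                  (CovZ.n1 (-48762, 42714) (by decide +kernel)
                   (CovZ.leaf K2_ok TH_l1709 _)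
                   (CovZ.leaf K2_ok TH_l1710 _)))
                 (CovZ.leaf K2_ok TH_l1711 _))
                (CovZ.n1 (-48780, 42660) (by decide +kernel)
                 (CovZ.leaf K2_ok TH_l1712 _)
                 (CovZ.leaf K2_ok TH_l1713 _))))))

theorem TH_u22 : CovZ TH_M (toL (selN TH_LN 2213660393326722302222713530099412122212563436337591480646352895)) [0, 7, 6, 1] (-48672, 42624) (-48384, 42624) (-48672, 42912) :=
    (CovZ.n1 (-48528, 42768) (by decide +kernel)
             (CovZ.n2 (-48528, 42624) (by decide +kernel)
              (CovZ.n2 (-48600, 42696) (by decide +kernel)
               (CovZ.subM 51524463976959957283636348347163103193718915595769129396733080 (by decide +kernel)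
                (CovZ.n2 (-48528, 42696) (by decide +kernel)
                 (CovZ.n2 (-48564, 42660) (by decide +kernel)
                  (CovZ.subM 51422412033890923998985002119201668699702880610416840660877328 (by decide +kernel)
                   (CovZ.n2 (-48564, 42696) (by decide +kernel)
                    (CovZ.n2 (-48546, 42678) (by decide +kernel)
                     (CovZ.n2 (-48564, 42678) (by decide +kernel)
                      (CovZ.leaf K2_ok TH_l1714 _)
                      (CovZ.leaf K2_ok TH_l1715 _))
                     (CovZ.badM (by decide +kernel)))
                    (CovZ.n1 (-48582, 42678) (by decide +kernel)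
                     (CovZ.n2 (-48582, 42696) (by decide +kernel)
                      (CovZ.leaf K2_ok TH_l1716 _)
                      (CovZ.leaf K2_ok TH_l1717 _))
                     (CovZ.leaf K2_ok TH_l1718 _))))
                  (CovZ.n1 (-48528, 42660) (by decide +kernel)
                   (CovZ.n2 (-48546, 42642) (by decide +kernel)
                    (CovZ.leaf K2_ok TH_l1719 _)
                    (CovZ.leaf K2_ok TH_l1720 _))
                   (CovZ.n1 (-48546, 42678) (by decide +kernel)
                    (CovZ.n2 (-48528, 42678) (by decide +kernel)
                     (CovZ.leaf K2_ok TH_l1721 _)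
                     (CovZ.badM (by decide +kernel)))
                    (CovZ.leaf K2_ok TH_l1722 _))))
                 (CovZ.subM 162259278038139183006207218548752 (by decide +kernel)
                  (CovZ.n1 (-48564, 42732) (by decide +kernel)
                   (CovZ.badM (by decide +kernel))
                   (CovZ.n1 (-48564, 42696) (by decide +kernel)
                    (CovZ.n2 (-48582, 42714) (by decide +kernel)
                     (CovZ.badM (by decide +kernel))
                     (CovZ.n1 (-48582, 42696) (by decide +kernel)
                      (CovZ.leaf K2_ok TH_l1723 _)
                      (CovZ.leaf K2_ok TH_l1724 _)))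
                    (CovZ.badM (by decide +kernel)))))))
               (CovZ.n1 (-48600, 42624) (by decide +kernel)
                (CovZ.subM 155975443013754809539987919353757089828158525695722956218115801 (by decide +kernel)
                 (CovZ.n2 (-48636, 42660) (by decide +kernel)
                  (CovZ.n2 (-48600, 42660) (by decide +kernel)
                   (CovZ.leaf K2_ok TH_l1725 _)
                   (CovZ.n1 (-48618, 42678) (by decide +kernel)
                    (CovZ.leaf K2_ok TH_l1726 _)
                    (CovZ.leaf K2_ok TH_l1727 _)))
                  (CovZ.n1 (-48636, 42624) (by decide +kernel)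
                   (CovZ.leaf K2_ok TH_l1728 _)
                   (CovZ.leaf K2_ok TH_l1729 _))))
                (CovZ.subM 154368498815568413688462735601083828528317279497932294975006457 (by decide +kernel)
                 (CovZ.n1 (-48564, 42660) (by decide +kernel)
                  (CovZ.n2 (-48564, 42624) (by decide +kernel)
                   (CovZ.n2 (-48582, 42642) (by decide +kernel)
                    (CovZ.leaf K2_ok TH_l1730 _)
                    (CovZ.leaf K2_ok TH_l1731 _))
                   (CovZ.n1 (-48546, 42642) (by decide +kernel)
                    (CovZ.leaf K2_ok TH_l1732 _)
                    (CovZ.leaf K2_ok TH_l1733 _)))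
                  (CovZ.n1 (-48600, 42660) (by decide +kernel)
                   (CovZ.n2 (-48582, 42678) (by decide +kernel)
                    (CovZ.leaf K2_ok TH_l1734 _)
                    (CovZ.leaf K2_ok TH_l1735 _))
                   (CovZ.n1 (-48582, 42642) (by decide +kernel)
                    (CovZ.leaf K2_ok TH_l1736 _)
                    (CovZ.leaf K2_ok TH_l1737 _)))))))
              (CovZ.subM 51524463976959957283636337713176877636353793182236071224673416 (by decide +kernel)
               (CovZ.n1 (-48456, 42696) (by decide +kernel)
                (CovZ.n2 (-48456, 42624) (by decide +kernel)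
                 (CovZ.n2 (-48492, 42660) (by decide +kernel)
                  (CovZ.badM (by decide +kernel))
                  (CovZ.n1 (-48492, 42624) (by decide +kernel)
                   (CovZ.n2 (-48510, 42642) (by decide +kernel)
                    (CovZ.n2 (-48492, 42642) (by decide +kernel)
                     (CovZ.leaf K2_ok TH_l1738 _)
                     (CovZ.leaf K2_ok TH_l1739 _))
                    (CovZ.leaf K2_ok TH_l1740 _))
                   (CovZ.n1 (-48474, 42642) (by decide +kernel)
                    (CovZ.leaf K2_ok TH_l1741 _)
                    (CovZ.n1 (-48492, 42642) (by decide +kernel)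
                     (CovZ.badM (by decide +kernel))
                     (CovZ.leaf K2_ok TH_l1742 _)))))
                 (CovZ.badM (by decide +kernel)))
                (CovZ.n1 (-48528, 42696) (by decide +kernel)
                 (CovZ.badM (by decide +kernel))
                 (CovZ.n1 (-48492, 42660) (by decide +kernel)
                  (CovZ.n2 (-48528, 42660) (by decide +kernel)
                   (CovZ.subM 33554432 (by decide +kernel)
                    (CovZ.n2 (-48510, 42678) (by decide +kernel)
                     (CovZ.n2 (-48510, 42660) (by decide +kernel)
                      (CovZ.leaf K2_ok TH_l1743 _)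
                      (CovZ.badM (by decide +kernel)))
                     (CovZ.n1 (-48528, 42678) (by decide +kernel)
                      (CovZ.badM (by decide +kernel))
                      (CovZ.n1 (-48519, 42669) (by decide +kernel)
                       (CovZ.leaf K2_ok TH_l1744 _)
                       (CovZ.badM (by decide +kernel))))))
                   (CovZ.n1 (-48510, 42642) (by decide +kernel)
                    (CovZ.leaf K2_ok TH_l1745 _)
                    (CovZ.leaf K2_ok TH_l1746 _)))
                  (CovZ.badM (by decide +kernel)))))))
             (CovZ.n1 (-48672, 42768) (by decide +kernel)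
              (CovZ.badM (by decide +kernel))
              (CovZ.n1 (-48600, 42696) (by decide +kernel)
               (CovZ.subM 155975443013754809539987919353757089828158525695722956218115801 (by decide +kernel)
                (CovZ.n2 (-48672, 42696) (by decide +kernel)
                 (CovZ.n2 (-48636, 42732) (by decide +kernel)
                  (CovZ.n2 (-48636, 42696) (by decide +kernel)
                   (CovZ.n2 (-48654, 42714) (by decide +kernel)
                    (CovZ.n2 (-48636, 42714) (by decide +kernel)
                     (CovZ.leaf K2_ok TH_l1747 _)
                     (CovZ.n1 (-48645, 42723) (by decide +kernel)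
                      (CovZ.leaf K2_ok TH_l1748 _)
                      (CovZ.leaf K2_ok TH_l1749 _)))
                    (CovZ.leaf K2_ok TH_l1750 _))
                   (CovZ.n1 (-48618, 42714) (by decide +kernel)
                    (CovZ.n2 (-48618, 42696) (by decide +kernel)
                     (CovZ.leaf K2_ok TH_l1751 _)
                     (CovZ.leaf K2_ok TH_l1752 _))
                    (CovZ.leaf K2_ok TH_l1753 _)))
                  (CovZ.n1 (-48672, 42732) (by decide +kernel)
                   (CovZ.badM (by decide +kernel))
                   (CovZ.n1 (-48654, 42714) (by decide +kernel)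
                    (CovZ.leaf K2_ok TH_l1754 _)
                    (CovZ.n1 (-48654, 42732) (by decide +kernel)
                     (CovZ.n2 (-48645, 42723) (by decide +kernel)
                      (CovZ.leaf K2_ok TH_l1755 _)
                      (CovZ.badM (by decide +kernel)))
                     (CovZ.leaf K2_ok TH_l1756 _)))))
                 (CovZ.n1 (-48636, 42660) (by decide +kernel)
                  (CovZ.n2 (-48672, 42660) (by decide +kernel)
                   (CovZ.n2 (-48654, 42678) (by decide +kernel)
                    (CovZ.leaf K2_ok TH_l1757 _)
                    (CovZ.leaf K2_ok TH_l1758 _))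
                   (CovZ.leaf K2_ok TH_l1759 _))
                  (CovZ.n1 (-48636, 42696) (by decide +kernel)
                   (CovZ.n2 (-48618, 42678) (by decide +kernel)
                    (CovZ.leaf K2_ok TH_l1760 _)
                    (CovZ.leaf K2_ok TH_l1761 _))
                   (CovZ.n1 (-48654, 42678) (by decide +kernel)
                    (CovZ.leaf K2_ok TH_l1762 _)
                    (CovZ.leaf K2_ok TH_l1763 _))))))
               (CovZ.subM 162259278038139183006207218548752 (by decide +kernel)
                (CovZ.n1 (-48600, 42768) (by decide +kernel)
                 (CovZ.n2 (-48564, 42732) (by decide +kernel)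
                  (CovZ.n2 (-48600, 42732) (by decide +kernel)
                   (CovZ.badM (by decide +kernel))
                   (CovZ.n1 (-48582, 42714) (by decide +kernel)
                    (CovZ.n2 (-48600, 42714) (by decide +kernel)
                     (CovZ.badM (by decide +kernel))
                     (CovZ.leaf K2_ok TH_l1764 _))
                    (CovZ.badM (by decide +kernel))))
                  (CovZ.badM (by decide +kernel)))
                 (CovZ.n1 (-48636, 42732) (by decide +kernel)
                  (CovZ.badM (by decide +kernel))
                  (CovZ.n1 (-48600, 42732) (by decide +kernel)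
                   (CovZ.n2 (-48618, 42714) (by decide +kernel)
                    (CovZ.badM (by decide +kernel))
                    (CovZ.n1 (-48600, 42714) (by decide +kernel)
                     (CovZ.leaf K2_ok TH_l1765 _)
                     (CovZ.badM (by decide +kernel))))
                   (CovZ.badM (by decide +kernel)))))))))

theorem TH_u23 : CovZ TH_M (toL (selN TH_LN 677431182682061165382893530819603915171201236774994076065065374564351)) [0, 7, 6, 1] (-48384, 41472) (-48384, 42624) (-49536, 42624) :=
    (CovZ.n2 (-48960, 42048) (by decide +kernel)
        (CovZ.n2 (-48960, 42624) (by decide +kernel)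
         (CovZ.n2 (-48672, 42336) (by decide +kernel)
          (CovZ.n2 (-48960, 42336) (by decide +kernel)
           (CovZ.subM 2216874269415240282060173613237966414864717120685360452367007455 (by decide +kernel)
            (CovZ.n2 (-48816, 42480) (by decide +kernel)
             (CovZ.n2 (-48816, 42336) (by decide +kernel)
              (CovZ.leaf K2_ok TH_l1432 _)
              (CovZ.leaf K2_ok TH_l1433 _))
             (CovZ.n1 (-48960, 42480) (by decide +kernel)
              (CovZ.n2 (-48888, 42552) (by decide +kernel)
               (CovZ.leaf K2_ok TH_l1434 _)
               (CovZ.leaf K2_ok TH_l1435 _))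
              (CovZ.leaf K2_ok TH_l1436 _))))
           (CovZ.n1 (-48816, 42192) (by decide +kernel)
            (CovZ.leaf K2_ok TH_l1437 _)
            (CovZ.n1 (-48816, 42336) (by decide +kernel)
             (CovZ.leaf K2_ok TH_l1438 _)
             (CovZ.leaf K2_ok TH_l1439 _))))
          (CovZ.subM 2216874269415240282773797459601006430557271333940385307438333951 (by decide +kernel)
           (CovZ.n1 (-48672, 42624) (by decide +kernel)
            (CovZ.n2 (-48528, 42480) (by decide +kernel)
             (CovZ.n2 (-48672, 42480) (by decide +kernel)
              (CovZ.n2 (-48600, 42552) (by decide +kernel)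
               (CovZ.n2 (-48600, 42480) (by decide +kernel)
                (CovZ.leaf K2_ok TH_l1440 _)
                (CovZ.leaf K2_ok TH_l1441 _))
               (CovZ.n1 (-48672, 42552) (by decide +kernel)
                (CovZ.leaf K2_ok TH_l1442 _)
                (CovZ.leaf K2_ok TH_l1443 _)))
              (CovZ.n1 (-48600, 42408) (by decide +kernel)
               (CovZ.leaf K2_ok TH_l1444 _)
               (CovZ.leaf K2_ok TH_l1445 _)))
             (CovZ.n1 (-48528, 42624) (by decide +kernel)
              (CovZ.n2 (-48456, 42552) (by decide +kernel)
               (CovZ.n2 (-48528, 42552) (by decide +kernel)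
                (CovZ.n2 (-48492, 42588) (by decide +kernel)
                 (CovZ.leaf K2_ok TH_l1446 _)
                 (CovZ.leaf K2_ok TH_l1447 _))
                (CovZ.n1 (-48492, 42516) (by decide +kernel)
                 (CovZ.leaf K2_ok TH_l1448 _)
                 (CovZ.leaf K2_ok TH_l1449 _)))
               (CovZ.subM 53131408157187421740479957689609949698643181894410787071993577 (by decide +kernel)
                (CovZ.n1 (-48456, 42624) (by decide +kernel)
                 (CovZ.n2 (-48420, 42588) (by decide +kernel)
                  (CovZ.n2 (-48456, 42588) (by decide +kernel)
                   (CovZ.n2 (-48438, 42606) (by decide +kernel)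
                    (CovZ.leaf K2_ok TH_l1450 _)
                    (CovZ.leaf K2_ok TH_l1451 _))
                   (CovZ.n1 (-48438, 42570) (by decide +kernel)
                    (CovZ.leaf K2_ok TH_l1452 _)
                    (CovZ.leaf K2_ok TH_l1453 _)))
                  (CovZ.subM 51522845661655649390265931832829643039564641905809959619134600 (by decide +kernel)
                   (CovZ.n1 (-48420, 42624) (by decide +kernel)
                    (CovZ.n2 (-48402, 42606) (by decide +kernel)
                     (CovZ.leaf K2_ok TH_l1454 _)
                     (CovZ.badM (by decide +kernel)))
                    (CovZ.n1 (-48438, 42606) (by decide +kernel)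
                     (CovZ.n2 (-48438, 42624) (by decide +kernel)
                      (CovZ.leaf K2_ok TH_l1455 _)
                      (CovZ.leaf K2_ok TH_l1456 _))
                     (CovZ.n1 (-48420, 42606) (by decide +kernel)
                      (CovZ.leaf K2_ok TH_l1457 _)
                      (CovZ.leaf K2_ok TH_l1458 _))))))
                 (CovZ.n1 (-48492, 42588) (by decide +kernel)
                  (CovZ.n2 (-48492, 42624) (by decide +kernel)
                   (CovZ.n2 (-48474, 42606) (by decide +kernel)
                    (CovZ.leaf K2_ok TH_l1459 _)
                    (CovZ.leaf K2_ok TH_l1460 _))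
                   (CovZ.n1 (-48510, 42606) (by decide +kernel)
                    (CovZ.leaf K2_ok TH_l1461 _)
                    (CovZ.leaf K2_ok TH_l1462 _)))
                  (CovZ.n1 (-48456, 42588) (by decide +kernel)
                   (CovZ.n2 (-48474, 42570) (by decide +kernel)
                    (CovZ.leaf K2_ok TH_l1463 _)
                    (CovZ.leaf K2_ok TH_l1464 _))
                   (CovZ.n1 (-48474, 42606) (by decide +kernel)
                    (CovZ.leaf K2_ok TH_l1465 _)
                    (CovZ.leaf K2_ok TH_l1466 _)))))))
              (CovZ.n1 (-48600, 42552) (by decide +kernel)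
               (CovZ.n2 (-48600, 42624) (by decide +kernel)
                (CovZ.n2 (-48564, 42588) (by decide +kernel)
                 (CovZ.leaf K2_ok TH_l1467 _)
                 (CovZ.n1 (-48564, 42624) (by decide +kernel)
                  (CovZ.leaf K2_ok TH_l1468 _)
                  (CovZ.leaf K2_ok TH_l1469 _)))
                (CovZ.n1 (-48636, 42588) (by decide +kernel)
                 (CovZ.n2 (-48636, 42624) (by decide +kernel)
                  (CovZ.leaf K2_ok TH_l1470 _)
                  (CovZ.leaf K2_ok TH_l1471 _))
                 (CovZ.leaf K2_ok TH_l1472 _)))
               (CovZ.n1 (-48528, 42552) (by decide +kernel)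
                (CovZ.leaf K2_ok TH_l1473 _)
                (CovZ.n1 (-48564, 42588) (by decide +kernel)
                 (CovZ.n2 (-48528, 42588) (by decide +kernel)
                  (CovZ.leaf K2_ok TH_l1474 _)
                  (CovZ.n1 (-48546, 42606) (by decide +kernel)
                   (CovZ.leaf K2_ok TH_l1475 _)
                   (CovZ.leaf K2_ok TH_l1476 _)))
                 (CovZ.leaf K2_ok TH_l1477 _))))))
            (CovZ.n1 (-48816, 42480) (by decide +kernel)
             (CovZ.n2 (-48816, 42624) (by decide +kernel)
              (CovZ.n2 (-48744, 42552) (by decide +kernel)
               (CovZ.leaf K2_ok TH_l1478 _)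
               (CovZ.n1 (-48744, 42624) (by decide +kernel)
                (CovZ.leaf K2_ok TH_l1479 _)
                (CovZ.leaf K2_ok TH_l1480 _)))
              (CovZ.n1 (-48888, 42552) (by decide +kernel)
               (CovZ.leaf K2_ok TH_l1481 _)
               (CovZ.leaf K2_ok TH_l1482 _)))
             (CovZ.n1 (-48672, 42480) (by decide +kernel)
              (CovZ.leaf K2_ok TH_l1483 _)
              (CovZ.n1 (-48744, 42552) (by decide +kernel)
               (CovZ.n2 (-48672, 42552) (by decide +kernel)
                (CovZ.leaf K2_ok TH_l1484 _)
                (CovZ.leaf K2_ok TH_l1485 _))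
               (CovZ.leaf K2_ok TH_l1486 _)))))))
         (CovZ.n1 (-49248, 42336) (by decide +kernel)
          (CovZ.n2 (-49248, 42624) (by decide +kernel)
           (CovZ.n2 (-49104, 42480) (by decide +kernel)
            (CovZ.n2 (-49248, 42480) (by decide +kernel)
             (CovZ.leaf K2_ok TH_l1487 _)
             (CovZ.leaf K2_ok TH_l1488 _))
            (CovZ.n1 (-49104, 42624) (by decide +kernel)
             (CovZ.n2 (-49032, 42552) (by decide +kernel)
              (CovZ.leaf K2_ok TH_l1489 _)
              (CovZ.leaf K2_ok TH_l1490 _))
             (CovZ.leaf K2_ok TH_l1491 _)))
           (CovZ.n1 (-49392, 42480) (by decide +kernel)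
            (CovZ.n2 (-49392, 42624) (by decide +kernel)
             (CovZ.leaf K2_ok TH_l1492 _)
             (CovZ.leaf K2_ok TH_l1493 _))
            (CovZ.n1 (-49248, 42480) (by decide +kernel)
             (CovZ.leaf K2_ok TH_l1494 _)
             (CovZ.leaf K2_ok TH_l1495 _))))
          (CovZ.n1 (-48960, 42336) (by decide +kernel)
           (CovZ.n2 (-49104, 42192) (by decide +kernel)
            (CovZ.leaf K2_ok TH_l1496 _)
            (CovZ.leaf K2_ok TH_l1497 _))
           (CovZ.n1 (-49104, 42480) (by decide +kernel)
            (CovZ.n2 (-48960, 42480) (by decide +kernel)
             (CovZ.leaf K2_ok TH_l1498 _)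
             (CovZ.leaf K2_ok TH_l1499 _))
            (CovZ.n1 (-49104, 42336) (by decide +kernel)
             (CovZ.leaf K2_ok TH_l1500 _)
             (CovZ.leaf K2_ok TH_l1501 _))))))
        (CovZ.n1 (-48384, 42048) (by decide +kernel)
         (CovZ.n2 (-48672, 41760) (by decide +kernel)
          (CovZ.n2 (-48672, 42048) (by decide +kernel)
           (CovZ.n2 (-48528, 41904) (by decide +kernel)
            (CovZ.leaf K2_ok TH_l1502 _)
            (CovZ.leaf K2_ok TH_l1503 _))
           (CovZ.n1 (-48816, 41904) (by decide +kernel)
            (CovZ.leaf K2_ok TH_l1504 _)
            (CovZ.leaf K2_ok TH_l1505 _)))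
          (CovZ.n1 (-48384, 41760) (by decide +kernel)
           (CovZ.leaf K2_ok TH_l1506 _)
           (CovZ.n1 (-48528, 41904) (by decide +kernel)
            (CovZ.leaf K2_ok TH_l1507 _)
            (CovZ.leaf K2_ok TH_l1508 _))))
         (CovZ.n1 (-48672, 42336) (by decide +kernel)
          (CovZ.subM 159189319103886312965071218644194319813971699059244610091722747 (by decide +kernel)
           (CovZ.n2 (-48384, 42336) (by decide +kernel)
            (CovZ.n2 (-48528, 42192) (by decide +kernel)
             (CovZ.n2 (-48528, 42336) (by decide +kernel)
              (CovZ.leaf K2_ok TH_l1509 _)
              (CovZ.leaf K2_ok TH_l1510 _))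
             (CovZ.n1 (-48384, 42192) (by decide +kernel)
              (CovZ.leaf K2_ok TH_l1511 _)
              (CovZ.leaf K2_ok TH_l1512 _)))
            (CovZ.n1 (-48528, 42480) (by decide +kernel)
             (CovZ.n2 (-48384, 42480) (by decide +kernel)
              (CovZ.n2 (-48456, 42408) (by decide +kernel)
               (CovZ.n2 (-48456, 42480) (by decide +kernel)
                (CovZ.leaf K2_ok TH_l1513 _)
                (CovZ.leaf K2_ok TH_l1514 _))
               (CovZ.n1 (-48384, 42408) (by decide +kernel)
                (CovZ.leaf K2_ok TH_l1515 _)
                (CovZ.leaf K2_ok TH_l1516 _)))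
              (CovZ.n1 (-48456, 42552) (by decide +kernel)
               (CovZ.n2 (-48384, 42552) (by decide +kernel)
                (CovZ.n2 (-48420, 42516) (by decide +kernel)
                 (CovZ.n2 (-48420, 42552) (by decide +kernel)
                  (CovZ.leaf K2_ok TH_l1517 _)
                  (CovZ.leaf K2_ok TH_l1518 _))
                 (CovZ.n1 (-48384, 42516) (by decide +kernel)
                  (CovZ.leaf K2_ok TH_l1519 _)
                  (CovZ.leaf K2_ok TH_l1520 _)))
                (CovZ.n1 (-48420, 42588) (by decide +kernel)
                 (CovZ.subM 51524463982933114475407736610637200557966432610479013667800201 (by decide +kernel)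
                  (CovZ.n2 (-48384, 42588) (by decide +kernel)
                   (CovZ.n2 (-48402, 42570) (by decide +kernel)
                    (CovZ.leaf K2_ok TH_l1521 _)
                    (CovZ.leaf K2_ok TH_l1522 _))
                   (CovZ.n1 (-48402, 42606) (by decide +kernel)
                    (CovZ.n2 (-48384, 42606) (by decide +kernel)
                     (CovZ.leaf K2_ok TH_l1523 _)
                     (CovZ.badM (by decide +kernel)))
                    (CovZ.leaf K2_ok TH_l1524 _))))
                 (CovZ.n1 (-48420, 42552) (by decide +kernel)
                  (CovZ.n2 (-48438, 42570) (by decide +kernel)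
                   (CovZ.n2 (-48420, 42570) (by decide +kernel)
                    (CovZ.leaf K2_ok TH_l1525 _)
                    (CovZ.leaf K2_ok TH_l1526 _))
                   (CovZ.leaf K2_ok TH_l1527 _))
                  (CovZ.n1 (-48402, 42570) (by decide +kernel)
                   (CovZ.leaf K2_ok TH_l1528 _)
                   (CovZ.leaf K2_ok TH_l1529 _)))))
               (CovZ.n1 (-48456, 42480) (by decide +kernel)
                (CovZ.n2 (-48492, 42516) (by decide +kernel)
                 (CovZ.leaf K2_ok TH_l1530 _)
                 (CovZ.leaf K2_ok TH_l1531 _))
                (CovZ.leaf K2_ok TH_l1532 _))))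
             (CovZ.n1 (-48528, 42336) (by decide +kernel)
              (CovZ.n2 (-48600, 42408) (by decide +kernel)
               (CovZ.leaf K2_ok TH_l1533 _)
               (CovZ.leaf K2_ok TH_l1534 _))
              (CovZ.n1 (-48456, 42408) (by decide +kernel)
               (CovZ.leaf K2_ok TH_l1535 _)
               (CovZ.leaf K2_ok TH_l1536 _))))))
          (CovZ.n1 (-48672, 42048) (by decide +kernel)
           (CovZ.n2 (-48816, 42192) (by decide +kernel)
            (CovZ.leaf K2_ok TH_l1537 _)
            (CovZ.leaf K2_ok TH_l1538 _))
           (CovZ.n1 (-48528, 42192) (by decide +kernel)
            (CovZ.n2 (-48528, 42048) (by decide +kernel)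
             (CovZ.leaf K2_ok TH_l1539 _)
             (CovZ.leaf K2_ok TH_l1540 _))
            (CovZ.leaf K2_ok TH_l1541 _))))))

theorem TH_u24 : CovZ TH_M (toL (selN TH_LN 677431182682061165382893530819603915171201236774994076065065374564351)) [0, 7, 6, 1] (-48384, 42624) (-48384, 43776) (-49536, 42624) :=
    (CovZ.n1 (-48960, 43200) (by decide +kernel)
        (CovZ.subM 1298074214633708060054128689152020 (by decide +kernel)
         (CovZ.n2 (-48384, 43200) (by decide +kernel)
          (CovZ.n2 (-48672, 42912) (by decide +kernel)
           (CovZ.badM (by decide +kernel))
           (CovZ.n1 (-48384, 42912) (by decide +kernel)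
            (CovZ.n2 (-48528, 42768) (by decide +kernel)
             (CovZ.badM (by decide +kernel))
             (CovZ.badM (by decide +kernel)))
            (CovZ.badM (by decide +kernel))))
          (CovZ.badM (by decide +kernel))))
        (CovZ.n1 (-48960, 42624) (by decide +kernel)
         (CovZ.n2 (-49248, 42912) (by decide +kernel)
          TH_u20
          (CovZ.n1 (-49248, 42624) (by decide +kernel)
           (CovZ.n2 (-49392, 42768) (by decide +kernel)
            (CovZ.n2 (-49248, 42768) (by decide +kernel)
             (CovZ.leaf K2_ok TH_l1637 _)
             (CovZ.n1 (-49320, 42840) (by decide +kernel)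
              (CovZ.n2 (-49248, 42840) (by decide +kernel)
               (CovZ.leaf K2_ok TH_l1638 _)
               (CovZ.n1 (-49284, 42876) (by decide +kernel)
                (CovZ.leaf K2_ok TH_l1639 _)
                (CovZ.leaf K2_ok TH_l1640 _)))
              (CovZ.n1 (-49320, 42768) (by decide +kernel)
               (CovZ.leaf K2_ok TH_l1641 _)
               (CovZ.leaf K2_ok TH_l1642 _))))
            (CovZ.n1 (-49392, 42624) (by decide +kernel)
             (CovZ.n2 (-49464, 42696) (by decide +kernel)
              (CovZ.leaf K2_ok TH_l1643 _)
              (CovZ.leaf K2_ok TH_l1644 _))
             (CovZ.leaf K2_ok TH_l1645 _)))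
           (CovZ.n1 (-49104, 42768) (by decide +kernel)
            (CovZ.n2 (-49104, 42624) (by decide +kernel)
             (CovZ.n2 (-49176, 42696) (by decide +kernel)
              (CovZ.leaf K2_ok TH_l1646 _)
              (CovZ.leaf K2_ok TH_l1647 _))
             (CovZ.n1 (-49032, 42696) (by decide +kernel)
              (CovZ.leaf K2_ok TH_l1648 _)
              (CovZ.leaf K2_ok TH_l1649 _)))
            (CovZ.n1 (-49248, 42768) (by decide +kernel)
             (CovZ.n2 (-49176, 42840) (by decide +kernel)
              (CovZ.n2 (-49176, 42768) (by decide +kernel)
               (CovZ.leaf K2_ok TH_l1650 _)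
               (CovZ.leaf K2_ok TH_l1651 _))
              (CovZ.n1 (-49248, 42840) (by decide +kernel)
               (CovZ.n2 (-49212, 42876) (by decide +kernel)
                (CovZ.leaf K2_ok TH_l1652 _)
                (CovZ.leaf K2_ok TH_l1653 _))
               (CovZ.leaf K2_ok TH_l1654 _)))
             (CovZ.n1 (-49176, 42696) (by decide +kernel)
              (CovZ.leaf K2_ok TH_l1655 _)
              (CovZ.leaf K2_ok TH_l1656 _))))))
         (CovZ.subM 2213660393326722302222713530099412122212563436337591480646352895 (by decide +kernel)
          (CovZ.n1 (-48672, 42912) (by decide +kernel)
           (CovZ.n2 (-48672, 42624) (by decide +kernel)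
            TH_u21
            TH_u22)
           (CovZ.n1 (-48960, 42912) (by decide +kernel)
            (CovZ.badM (by decide +kernel))
            (CovZ.n1 (-48816, 42768) (by decide +kernel)
             (CovZ.n2 (-48960, 42768) (by decide +kernel)
              (CovZ.n2 (-48888, 42840) (by decide +kernel)
               (CovZ.n2 (-48888, 42768) (by decide +kernel)
                (CovZ.n2 (-48924, 42804) (by decide +kernel)
                 (CovZ.n2 (-48888, 42804) (by decide +kernel)
                  (CovZ.n2 (-48906, 42786) (by decide +kernel)
                   (CovZ.leaf K2_ok TH_l1766 _)
                   (CovZ.leaf K2_ok TH_l1767 _))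
                  (CovZ.n1 (-48906, 42822) (by decide +kernel)
                   (CovZ.leaf K2_ok TH_l1768 _)
                   (CovZ.leaf K2_ok TH_l1769 _)))
                 (CovZ.n1 (-48924, 42768) (by decide +kernel)
                  (CovZ.leaf K2_ok TH_l1770 _)
                  (CovZ.n1 (-48906, 42786) (by decide +kernel)
                   (CovZ.leaf K2_ok TH_l1771 _)
                   (CovZ.leaf K2_ok TH_l1772 _))))
                (CovZ.n1 (-48852, 42804) (by decide +kernel)
                 (CovZ.n2 (-48852, 42768) (by decide +kernel)
                  (CovZ.n2 (-48870, 42786) (by decide +kernel)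
                   (CovZ.leaf K2_ok TH_l1773 _)
                   (CovZ.leaf K2_ok TH_l1774 _))
                  (CovZ.n1 (-48834, 42786) (by decide +kernel)
                   (CovZ.leaf K2_ok TH_l1775 _)
                   (CovZ.leaf K2_ok TH_l1776 _)))
                 (CovZ.n1 (-48888, 42804) (by decide +kernel)
                  (CovZ.n2 (-48870, 42822) (by decide +kernel)
                   (CovZ.leaf K2_ok TH_l1777 _)
                   (CovZ.leaf K2_ok TH_l1778 _))
                  (CovZ.n1 (-48870, 42786) (by decide +kernel)
                   (CovZ.leaf K2_ok TH_l1779 _)
                   (CovZ.leaf K2_ok TH_l1780 _)))))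
               (CovZ.n1 (-48960, 42840) (by decide +kernel)
                (CovZ.subM 154266495906370376736734821849628319644229703386916949277743108 (by decide +kernel)
                 (CovZ.n2 (-48924, 42876) (by decide +kernel)
                  (CovZ.n2 (-48924, 42840) (by decide +kernel)
                   (CovZ.n2 (-48942, 42858) (by decide +kernel)
                    (CovZ.n2 (-48924, 42858) (by decide +kernel)
                     (CovZ.leaf K2_ok TH_l1781 _)
                     (CovZ.n1 (-48933, 42867) (by decide +kernel)
                      (CovZ.badM (by decide +kernel))
                      (CovZ.leaf K2_ok TH_l1782 _)))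
                    (CovZ.leaf K2_ok TH_l1783 _))
                   (CovZ.n1 (-48906, 42858) (by decide +kernel)
                    (CovZ.leaf K2_ok TH_l1784 _)
                    (CovZ.n1 (-48924, 42858) (by decide +kernel)
                     (CovZ.badM (by decide +kernel))
                     (CovZ.leaf K2_ok TH_l1785 _))))
                  (CovZ.n1 (-48960, 42876) (by decide +kernel)
                   (CovZ.subM 2475880078570760549798248448 (by decide +kernel)
                    (CovZ.n2 (-48942, 42894) (by decide +kernel)
                     (CovZ.n2 (-48942, 42876) (by decide +kernel)
                      (CovZ.n2 (-48951, 42885) (by decide +kernel)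
                       (CovZ.badM (by decide +kernel))
                       (CovZ.leaf K2_ok TH_l1786 _))
                      (CovZ.badM (by decide +kernel)))
                     (CovZ.n1 (-48960, 42894) (by decide +kernel)
                      (CovZ.badM (by decide +kernel))
                      (CovZ.n1 (-48951, 42885) (by decide +kernel)
                       (CovZ.leaf K2_ok TH_l1787 _)
                       (CovZ.badM (by decide +kernel))))))
                   (CovZ.n1 (-48942, 42858) (by decide +kernel)
                    (CovZ.leaf K2_ok TH_l1788 _)
                    (CovZ.n1 (-48942, 42876) (by decide +kernel)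
                     (CovZ.leaf K2_ok TH_l1789 _)
                     (CovZ.leaf K2_ok TH_l1790 _))))))
                (CovZ.n1 (-48924, 42804) (by decide +kernel)
                 (CovZ.n2 (-48960, 42804) (by decide +kernel)
                  (CovZ.n2 (-48942, 42822) (by decide +kernel)
                   (CovZ.leaf K2_ok TH_l1791 _)
                   (CovZ.leaf K2_ok TH_l1792 _))
                  (CovZ.leaf K2_ok TH_l1793 _))
                 (CovZ.subM 565644204536062668785494496903822063994237323941765919628015748 (by decide +kernel)
                  (CovZ.n1 (-48924, 42840) (by decide +kernel)
                   (CovZ.n2 (-48906, 42822) (by decide +kernel)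
                    (CovZ.leaf K2_ok TH_l1794 _)
                    (CovZ.n1 (-48906, 42840) (by decide +kernel)
                     (CovZ.leaf K2_ok TH_l1795 _)
                     (CovZ.leaf K2_ok TH_l1796 _)))
                   (CovZ.n1 (-48942, 42822) (by decide +kernel)
                    (CovZ.n2 (-48942, 42840) (by decide +kernel)
                     (CovZ.leaf K2_ok TH_l1797 _)
                     (CovZ.leaf K2_ok TH_l1798 _))
                    (CovZ.leaf K2_ok TH_l1799 _)))))))
              (CovZ.n1 (-48888, 42696) (by decide +kernel)
               (CovZ.n2 (-48960, 42696) (by decide +kernel)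
                (CovZ.n2 (-48924, 42732) (by decide +kernel)
                 (CovZ.leaf K2_ok TH_l1800 _)
                 (CovZ.leaf K2_ok TH_l1801 _))
                (CovZ.leaf K2_ok TH_l1802 _))
               (CovZ.n1 (-48888, 42768) (by decide +kernel)
                (CovZ.n2 (-48852, 42732) (by decide +kernel)
                 (CovZ.leaf K2_ok TH_l1803 _)
                 (CovZ.n1 (-48852, 42768) (by decide +kernel)
                  (CovZ.n2 (-48834, 42750) (by decide +kernel)
                   (CovZ.leaf K2_ok TH_l1804 _)
                   (CovZ.leaf K2_ok TH_l1805 _))
                  (CovZ.n1 (-48870, 42750) (by decide +kernel)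
                   (CovZ.leaf K2_ok TH_l1806 _)
                   (CovZ.leaf K2_ok TH_l1807 _))))
                (CovZ.n1 (-48924, 42732) (by decide +kernel)
                 (CovZ.n2 (-48924, 42768) (by decide +kernel)
                  (CovZ.leaf K2_ok TH_l1808 _)
                  (CovZ.leaf K2_ok TH_l1809 _))
                 (CovZ.leaf K2_ok TH_l1810 _)))))
             (CovZ.subM 154266495906382068750530367357831882666806455765794949160966292 (by decide +kernel)
              (CovZ.n1 (-48816, 42912) (by decide +kernel)
               (CovZ.n2 (-48744, 42840) (by decide +kernel)
                (CovZ.n2 (-48816, 42840) (by decide +kernel)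
                 (CovZ.badM (by decide +kernel))
                 (CovZ.n1 (-48780, 42804) (by decide +kernel)
                  (CovZ.n2 (-48816, 42804) (by decide +kernel)
                   (CovZ.subM 46768052394588893392659119448748044762468073865216 (by decide +kernel)
                    (CovZ.n2 (-48798, 42822) (by decide +kernel)
                     (CovZ.n2 (-48798, 42804) (by decide +kernel)
                      (CovZ.leaf K2_ok TH_l1811 _)
                      (CovZ.badM (by decide +kernel)))
                     (CovZ.n1 (-48816, 42822) (by decide +kernel)
                      (CovZ.badM (by decide +kernel))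
                      (CovZ.leaf K2_ok TH_l1812 _))))
                   (CovZ.n1 (-48798, 42786) (by decide +kernel)
                    (CovZ.leaf K2_ok TH_l1813 _)
                    (CovZ.leaf K2_ok TH_l1814 _)))
                  (CovZ.badM (by decide +kernel))))
                (CovZ.badM (by decide +kernel)))
               (CovZ.n1 (-48888, 42840) (by decide +kernel)
                (CovZ.badM (by decide +kernel))
                (CovZ.n1 (-48816, 42840) (by decide +kernel)
                 (CovZ.n2 (-48852, 42804) (by decide +kernel)
                  (CovZ.subM 442891271231809097756853160584484236188998243275893704708 (by decide +kernel)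
                   (CovZ.n2 (-48852, 42840) (by decide +kernel)
                    (CovZ.n2 (-48834, 42822) (by decide +kernel)
                     (CovZ.n2 (-48852, 42822) (by decide +kernel)
                      (CovZ.badM (by decide +kernel))
                      (CovZ.leaf K2_ok TH_l1815 _))
                     (CovZ.badM (by decide +kernel)))
                    (CovZ.n1 (-48870, 42822) (by decide +kernel)
                     (CovZ.n2 (-48870, 42840) (by decide +kernel)
                      (CovZ.n2 (-48861, 42831) (by decide +kernel)
                       (CovZ.leaf K2_ok TH_l1816 _)
                       (CovZ.badM (by decide +kernel)))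
                      (CovZ.leaf K2_ok TH_l1817 _))
                     (CovZ.n1 (-48852, 42822) (by decide +kernel)
                      (CovZ.leaf K2_ok TH_l1818 _)
                      (CovZ.leaf K2_ok TH_l1819 _)))))
                  (CovZ.n1 (-48816, 42804) (by decide +kernel)
                   (CovZ.n2 (-48834, 42786) (by decide +kernel)
                    (CovZ.leaf K2_ok TH_l1820 _)
                    (CovZ.leaf K2_ok TH_l1821 _))
                   (CovZ.subM 442891271231809097756851862510269602482085481152277186564 (by decide +kernel)
                    (CovZ.n1 (-48834, 42822) (by decide +kernel)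
                     (CovZ.n2 (-48816, 42822) (by decide +kernel)
                      (CovZ.leaf K2_ok TH_l1822 _)
                      (CovZ.badM (by decide +kernel)))
                     (CovZ.n1 (-48834, 42804) (by decide +kernel)
                      (CovZ.leaf K2_ok TH_l1823 _)
                      (CovZ.leaf K2_ok TH_l1824 _))))))
                 (CovZ.badM (by decide +kernel))))))))))))

theorem TH_u25 : CovZ TH_M (toL (selN TH_LN 56345283479444502607354570651587603770445096837332366206182240)) [0, 7, 6, 1] (-47808, 42048) (-47520, 42048) (-47520, 42336) :=
    (CovZ.n2 (-47664, 42192) (by decide +kernel)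
              (CovZ.n2 (-47520, 42192) (by decide +kernel)
               (CovZ.n2 (-47592, 42120) (by decide +kernel)
                (CovZ.n2 (-47592, 42192) (by decide +kernel)
                 (CovZ.n2 (-47556, 42156) (by decide +kernel)
                  (CovZ.leaf K2_ok TH_l1911 _)
                  (CovZ.subM 1569281420182353881408808727658118615722454829648490529088 (by decide +kernel)
                   (CovZ.n1 (-47556, 42192) (by decide +kernel)
                    (CovZ.n2 (-47538, 42174) (by decide +kernel)
                     (CovZ.leaf K2_ok TH_l1912 _)
                     (CovZ.leaf K2_ok TH_l1913 _))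
                    (CovZ.n1 (-47574, 42174) (by decide +kernel)
                     (CovZ.leaf K2_ok TH_l1914 _)
                     (CovZ.leaf K2_ok TH_l1915 _)))))
                 (CovZ.n1 (-47628, 42156) (by decide +kernel)
                  (CovZ.n2 (-47628, 42192) (by decide +kernel)
                   (CovZ.leaf K2_ok TH_l1916 _)
                   (CovZ.leaf K2_ok TH_l1917 _))
                  (CovZ.leaf K2_ok TH_l1918 _)))
                (CovZ.n1 (-47520, 42120) (by decide +kernel)
                 (CovZ.leaf K2_ok TH_l1919 _)
                 (CovZ.n1 (-47556, 42156) (by decide +kernel)
                  (CovZ.n2 (-47520, 42156) (by decide +kernel)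
                   (CovZ.leaf K2_ok TH_l1920 _)
                   (CovZ.n1 (-47538, 42174) (by decide +kernel)
                    (CovZ.leaf K2_ok TH_l1921 _)
                    (CovZ.leaf K2_ok TH_l1922 _)))
                  (CovZ.leaf K2_ok TH_l1923 _))))
               (CovZ.n1 (-47592, 42264) (by decide +kernel)
                (CovZ.badM (by decide +kernel))
                (CovZ.n1 (-47592, 42192) (by decide +kernel)
                 (CovZ.n2 (-47628, 42228) (by decide +kernel)
                  (CovZ.subM 3215445363951850771210267251399792330211685302065443211575296 (by decide +kernel)
                   (CovZ.n2 (-47592, 42228) (by decide +kernel)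
                    (CovZ.n2 (-47610, 42210) (by decide +kernel)
                     (CovZ.leaf K2_ok TH_l1924 _)
                     (CovZ.n1 (-47592, 42210) (by decide +kernel)
                      (CovZ.leaf K2_ok TH_l1925 _)
                      (CovZ.leaf K2_ok TH_l1926 _)))
                    (CovZ.n1 (-47610, 42246) (by decide +kernel)
                     (CovZ.badM (by decide +kernel))
                     (CovZ.n1 (-47610, 42228) (by decide +kernel)
                      (CovZ.leaf K2_ok TH_l1927 _)
                      (CovZ.badM (by decide +kernel))))))
                  (CovZ.n1 (-47628, 42192) (by decide +kernel)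
                   (CovZ.n2 (-47646, 42210) (by decide +kernel)
                    (CovZ.leaf K2_ok TH_l1928 _)
                    (CovZ.leaf K2_ok TH_l1929 _))
                   (CovZ.n1 (-47610, 42210) (by decide +kernel)
                    (CovZ.leaf K2_ok TH_l1930 _)
                    (CovZ.leaf K2_ok TH_l1931 _))))
                 (CovZ.subM 1569275433870220126337749805483985503787699271616419594240 (by decide +kernel)
                  (CovZ.n1 (-47556, 42228) (by decide +kernel)
                   (CovZ.n2 (-47556, 42192) (by decide +kernel)
                    (CovZ.n2 (-47574, 42210) (by decide +kernel)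
                     (CovZ.n2 (-47556, 42210) (by decide +kernel)
                      (CovZ.leaf K2_ok TH_l1932 _)
                      (CovZ.badM (by decide +kernel)))
                     (CovZ.leaf K2_ok TH_l1933 _))
                    (CovZ.n1 (-47538, 42210) (by decide +kernel)
                     (CovZ.leaf K2_ok TH_l1934 _)
                     (CovZ.n1 (-47556, 42210) (by decide +kernel)
                      (CovZ.badM (by decide +kernel))
                      (CovZ.leaf K2_ok TH_l1935 _))))
                   (CovZ.n1 (-47592, 42228) (by decide +kernel)
                    (CovZ.badM (by decide +kernel))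
                    (CovZ.n1 (-47574, 42210) (by decide +kernel)
                     (CovZ.leaf K2_ok TH_l1936 _)
                     (CovZ.badM (by decide +kernel)))))))))
              (CovZ.n1 (-47664, 42048) (by decide +kernel)
               (CovZ.n2 (-47736, 42120) (by decide +kernel)
                (CovZ.n2 (-47664, 42120) (by decide +kernel)
                 (CovZ.leaf K2_ok TH_l1937 _)
                 (CovZ.leaf K2_ok TH_l1938 _))
                (CovZ.leaf K2_ok TH_l1939 _))
               (CovZ.n1 (-47592, 42120) (by decide +kernel)
                (CovZ.n2 (-47592, 42048) (by decide +kernel)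
                 (CovZ.leaf K2_ok TH_l1940 _)
                 (CovZ.leaf K2_ok TH_l1941 _))
                (CovZ.n1 (-47664, 42120) (by decide +kernel)
                 (CovZ.n2 (-47628, 42156) (by decide +kernel)
                  (CovZ.leaf K2_ok TH_l1942 _)
                  (CovZ.leaf K2_ok TH_l1943 _))
                 (CovZ.leaf K2_ok TH_l1944 _)))))

theorem TH_u26 : CovZ TH_M (toL (selN TH_LN 56345283479444502607354570651587603770445096837332366206182240)) [0, 7, 6, 1] (-47520, 42048) (-47232, 42048) (-47520, 42336) :=
    (CovZ.n1 (-47376, 42192) (by decide +kernel)
              (CovZ.n2 (-47376, 42048) (by decide +kernel)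
               (CovZ.n2 (-47448, 42120) (by decide +kernel)
                (CovZ.subM 1961594292333314921770192604315522970287703987192017715520 (by decide +kernel)
                 (CovZ.n2 (-47376, 42120) (by decide +kernel)
                  (CovZ.n2 (-47412, 42084) (by decide +kernel)
                   (CovZ.n2 (-47412, 42120) (by decide +kernel)
                    (CovZ.n2 (-47394, 42102) (by decide +kernel)
                     (CovZ.leaf K2_ok TH_l1945 _)
                     (CovZ.leaf K2_ok TH_l1946 _))
                    (CovZ.n1 (-47430, 42102) (by decide +kernel)
                     (CovZ.leaf K2_ok TH_l1947 _)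
                     (CovZ.leaf K2_ok TH_l1948 _)))
                   (CovZ.n1 (-47376, 42084) (by decide +kernel)
                    (CovZ.leaf K2_ok TH_l1949 _)
                    (CovZ.n1 (-47394, 42102) (by decide +kernel)
                     (CovZ.leaf K2_ok TH_l1950 _)
                     (CovZ.leaf K2_ok TH_l1951 _))))
                  (CovZ.n1 (-47412, 42156) (by decide +kernel)
                   (CovZ.subM 22835963083295358096932580233558405051769159680 (by decide +kernel)
                    (CovZ.n2 (-47376, 42156) (by decide +kernel)
                     (CovZ.n2 (-47394, 42138) (by decide +kernel)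
                      (CovZ.badM (by decide +kernel))
                      (CovZ.n1 (-47376, 42138) (by decide +kernel)
                       (CovZ.leaf K2_ok TH_l1952 _)
                       (CovZ.badM (by decide +kernel))))
                     (CovZ.badM (by decide +kernel))))
                   (CovZ.n1 (-47412, 42120) (by decide +kernel)
                    (CovZ.n2 (-47430, 42138) (by decide +kernel)
                     (CovZ.leaf K2_ok TH_l1953 _)
                     (CovZ.leaf K2_ok TH_l1954 _))
                    (CovZ.n1 (-47394, 42138) (by decide +kernel)
                     (CovZ.leaf K2_ok TH_l1955 _)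
                     (CovZ.leaf K2_ok TH_l1956 _))))))
                (CovZ.n1 (-47448, 42048) (by decide +kernel)
                 (CovZ.n2 (-47484, 42084) (by decide +kernel)
                  (CovZ.leaf K2_ok TH_l1957 _)
                  (CovZ.leaf K2_ok TH_l1958 _))
                 (CovZ.n1 (-47412, 42084) (by decide +kernel)
                  (CovZ.leaf K2_ok TH_l1959 _)
                  (CovZ.n1 (-47448, 42084) (by decide +kernel)
                   (CovZ.n2 (-47430, 42102) (by decide +kernel)
                    (CovZ.leaf K2_ok TH_l1960 _)
                    (CovZ.leaf K2_ok TH_l1961 _))
                   (CovZ.leaf K2_ok TH_l1962 _)))))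
               (CovZ.subM 1961594292333314921770192604315522970283092301173590327616 (by decide +kernel)
                (CovZ.n1 (-47304, 42120) (by decide +kernel)
                 (CovZ.n2 (-47304, 42048) (by decide +kernel)
                  (CovZ.n2 (-47340, 42084) (by decide +kernel)
                   (CovZ.n2 (-47304, 42084) (by decide +kernel)
                    (CovZ.n2 (-47322, 42066) (by decide +kernel)
                     (CovZ.leaf K2_ok TH_l1963 _)
                     (CovZ.leaf K2_ok TH_l1964 _))
                    (CovZ.subM 1569275433871647025581301653720436613213611991048317304832 (by decide +kernel)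
                     (CovZ.n1 (-47322, 42102) (by decide +kernel)
                      (CovZ.n2 (-47304, 42102) (by decide +kernel)
                       (CovZ.leaf K2_ok TH_l1965 _)
                       (CovZ.n1 (-47313, 42111) (by decide +kernel)
                        (CovZ.leaf K2_ok TH_l1966 _)
                        (CovZ.leaf K2_ok TH_l1967 _)))
                      (CovZ.leaf K2_ok TH_l1968 _))))
                   (CovZ.n1 (-47340, 42048) (by decide +kernel)
                    (CovZ.leaf K2_ok TH_l1969 _)
                    (CovZ.n1 (-47322, 42066) (by decide +kernel)
                     (CovZ.leaf K2_ok TH_l1970 _)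
                     (CovZ.leaf K2_ok TH_l1971 _))))
                  (CovZ.n1 (-47268, 42084) (by decide +kernel)
                   (CovZ.n2 (-47268, 42048) (by decide +kernel)
                    (CovZ.n2 (-47286, 42066) (by decide +kernel)
                     (CovZ.leaf K2_ok TH_l1972 _)
                     (CovZ.leaf K2_ok TH_l1973 _))
                    (CovZ.n1 (-47250, 42066) (by decide +kernel)
                     (CovZ.leaf K2_ok TH_l1974 _)
                     (CovZ.leaf K2_ok TH_l1975 _)))
                   (CovZ.n1 (-47304, 42084) (by decide +kernel)
                    (CovZ.subM 22835963083295358096932580233558405051769159680 (by decide +kernel)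
                     (CovZ.n2 (-47286, 42102) (by decide +kernel)
                      (CovZ.n2 (-47286, 42084) (by decide +kernel)
                       (CovZ.leaf K2_ok TH_l1976 _)
                       (CovZ.leaf K2_ok TH_l1977 _))
                      (CovZ.n1 (-47304, 42102) (by decide +kernel)
                       (CovZ.leaf K2_ok TH_l1978 _)
                       (CovZ.leaf K2_ok TH_l1979 _))))
                    (CovZ.n1 (-47286, 42066) (by decide +kernel)
                     (CovZ.leaf K2_ok TH_l1980 _)
                     (CovZ.leaf K2_ok TH_l1981 _)))))
                 (CovZ.n1 (-47376, 42120) (by decide +kernel)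
                  (CovZ.subM 22835963083295358096932580233558405051769159680 (by decide +kernel)
                   (CovZ.n2 (-47340, 42156) (by decide +kernel)
                    (CovZ.n2 (-47340, 42120) (by decide +kernel)
                     (CovZ.n2 (-47358, 42138) (by decide +kernel)
                      (CovZ.badM (by decide +kernel))
                      (CovZ.leaf K2_ok TH_l1982 _))
                     (CovZ.badM (by decide +kernel)))
                    (CovZ.n1 (-47376, 42156) (by decide +kernel)
                     (CovZ.badM (by decide +kernel))
                     (CovZ.n1 (-47358, 42138) (by decide +kernel)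
                      (CovZ.n2 (-47376, 42138) (by decide +kernel)
                       (CovZ.badM (by decide +kernel))
                       (CovZ.leaf K2_ok TH_l1983 _))
                      (CovZ.badM (by decide +kernel))))))
                  (CovZ.n1 (-47340, 42084) (by decide +kernel)
                   (CovZ.n2 (-47376, 42084) (by decide +kernel)
                    (CovZ.n2 (-47358, 42102) (by decide +kernel)
                     (CovZ.leaf K2_ok TH_l1984 _)
                     (CovZ.leaf K2_ok TH_l1985 _))
                    (CovZ.leaf K2_ok TH_l1986 _))
                   (CovZ.subM 1569275433871647025581301653720436613213611991048317304832 (by decide +kernel)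
                    (CovZ.n1 (-47340, 42120) (by decide +kernel)
                     (CovZ.n2 (-47322, 42102) (by decide +kernel)
                      (CovZ.n2 (-47340, 42102) (by decide +kernel)
                       (CovZ.leaf K2_ok TH_l1987 _)
                       (CovZ.leaf K2_ok TH_l1988 _))
                      (CovZ.n1 (-47322, 42120) (by decide +kernel)
                       (CovZ.n2 (-47313, 42111) (by decide +kernel)
                        (CovZ.leaf K2_ok TH_l1989 _)
                        (CovZ.badM (by decide +kernel)))
                       (CovZ.leaf K2_ok TH_l1990 _)))
                     (CovZ.n1 (-47358, 42102) (by decide +kernel)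
                      (CovZ.leaf K2_ok TH_l1991 _)
                      (CovZ.leaf K2_ok TH_l1992 _)))))))))
              (CovZ.n1 (-47520, 42192) (by decide +kernel)
               (CovZ.badM (by decide +kernel))
               (CovZ.n1 (-47448, 42120) (by decide +kernel)
                (CovZ.n2 (-47520, 42120) (by decide +kernel)
                 (CovZ.subM 1608899644537634297668008925361853173471377142300945846108480 (by decide +kernel)
                  (CovZ.n2 (-47484, 42156) (by decide +kernel)
                   (CovZ.n2 (-47484, 42120) (by decide +kernel)
                    (CovZ.n2 (-47502, 42138) (by decide +kernel)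
                     (CovZ.leaf K2_ok TH_l1993 _)
                     (CovZ.leaf K2_ok TH_l1994 _))
                    (CovZ.n1 (-47466, 42138) (by decide +kernel)
                     (CovZ.leaf K2_ok TH_l1995 _)
                     (CovZ.leaf K2_ok TH_l1996 _)))
                   (CovZ.n1 (-47520, 42156) (by decide +kernel)
                    (CovZ.n2 (-47502, 42174) (by decide +kernel)
                     (CovZ.leaf K2_ok TH_l1997 _)
                     (CovZ.leaf K2_ok TH_l1998 _))
                    (CovZ.n1 (-47502, 42138) (by decide +kernel)
                     (CovZ.leaf K2_ok TH_l1999 _)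
                     (CovZ.leaf K2_ok TH_l2000 _)))))
                 (CovZ.n1 (-47484, 42084) (by decide +kernel)
                  (CovZ.leaf K2_ok TH_l2001 _)
                  (CovZ.n1 (-47484, 42120) (by decide +kernel)
                   (CovZ.leaf K2_ok TH_l2002 _)
                   (CovZ.leaf K2_ok TH_l2003 _))))
                (CovZ.subM 1569275433871647025581312038324057203261550756622153809984 (by decide +kernel)
                 (CovZ.n1 (-47448, 42192) (by decide +kernel)
                  (CovZ.n2 (-47412, 42156) (by decide +kernel)
                   (CovZ.n2 (-47448, 42156) (by decide +kernel)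
                    (CovZ.subM 9903520314283042199192993792 (by decide +kernel)
                     (CovZ.n2 (-47430, 42174) (by decide +kernel)
                      (CovZ.n2 (-47430, 42156) (by decide +kernel)
                       (CovZ.n2 (-47439, 42165) (by decide +kernel)
                        (CovZ.badM (by decide +kernel))
                        (CovZ.leaf K2_ok TH_l2004 _))
                       (CovZ.badM (by decide +kernel)))
                      (CovZ.n1 (-47448, 42174) (by decide +kernel)
                       (CovZ.badM (by decide +kernel))
                       (CovZ.n1 (-47439, 42165) (by decide +kernel)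
                        (CovZ.leaf K2_ok TH_l2005 _)
                        (CovZ.badM (by decide +kernel))))))
                    (CovZ.n1 (-47430, 42138) (by decide +kernel)
                     (CovZ.leaf K2_ok TH_l2006 _)
                     (CovZ.leaf K2_ok TH_l2007 _)))
                   (CovZ.badM (by decide +kernel)))
                  (CovZ.n1 (-47484, 42156) (by decide +kernel)
                   (CovZ.n2 (-47484, 42192) (by decide +kernel)
                    (CovZ.n2 (-47466, 42174) (by decide +kernel)
                     (CovZ.n2 (-47484, 42174) (by decide +kernel)
                      (CovZ.leaf K2_ok TH_l2008 _)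
                      (CovZ.leaf K2_ok TH_l2009 _))
                     (CovZ.badM (by decide +kernel)))
                    (CovZ.n1 (-47502, 42174) (by decide +kernel)
                     (CovZ.n2 (-47502, 42192) (by decide +kernel)
                      (CovZ.leaf K2_ok TH_l2010 _)
                      (CovZ.n1 (-47511, 42183) (by decide +kernel)
                       (CovZ.leaf K2_ok TH_l2011 _)
                       (CovZ.leaf K2_ok TH_l2012 _)))
                     (CovZ.n1 (-47484, 42174) (by decide +kernel)
                      (CovZ.leaf K2_ok TH_l2013 _)
                      (CovZ.n1 (-47493, 42183) (by decide +kernel)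
                       (CovZ.leaf K2_ok TH_l2014 _)
                       (CovZ.leaf K2_ok TH_l2015 _)))))
                   (CovZ.n1 (-47448, 42156) (by decide +kernel)
                    (CovZ.n2 (-47466, 42138) (by decide +kernel)
                     (CovZ.leaf K2_ok TH_l2016 _)
                     (CovZ.leaf K2_ok TH_l2017 _))
                    (CovZ.n1 (-47466, 42174) (by decide +kernel)
                     (CovZ.subM 9903520314283042199192993792 (by decide +kernel)
                      (CovZ.n2 (-47448, 42174) (by decide +kernel)
                       (CovZ.n2 (-47457, 42165) (by decide +kernel)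
                        (CovZ.badM (by decide +kernel))
                        (CovZ.n1 (-47448, 42165) (by decide +kernel)
                         (CovZ.leaf K2_ok TH_l2018 _)
                         (CovZ.badM (by decide +kernel))))
                       (CovZ.badM (by decide +kernel))))
                     (CovZ.leaf K2_ok TH_l2019 _)))))))))

theorem TH_u27 : CovZ TH_M (toL (selN TH_LN 53131399728448817726826349358258120060110019397268488761910080)) [0, 7, 6, 1] (-46080, 41472) (-46656, 42048) (-47232, 41472) :=
    (CovZ.n2 (-46656, 41472) (by decide +kernel)
           (CovZ.n2 (-46944, 41760) (by decide +kernel)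
            (CovZ.subM 5986312134800758772470227934835175410661231373582848 (by decide +kernel)
             (CovZ.n2 (-46656, 41760) (by decide +kernel)
              (CovZ.n2 (-46800, 41616) (by decide +kernel)
               (CovZ.n2 (-46800, 41760) (by decide +kernel)
                (CovZ.n2 (-46728, 41688) (by decide +kernel)
                 (CovZ.leaf K2_ok TH_l2036 _)
                 (CovZ.n1 (-46728, 41760) (by decide +kernel)
                  (CovZ.leaf K2_ok TH_l2037 _)
                  (CovZ.leaf K2_ok TH_l2038 _)))
                (CovZ.n1 (-46872, 41688) (by decide +kernel)
                 (CovZ.n2 (-46872, 41760) (by decide +kernel)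
                  (CovZ.leaf K2_ok TH_l2039 _)
                  (CovZ.leaf K2_ok TH_l2040 _))
                 (CovZ.leaf K2_ok TH_l2041 _)))
               (CovZ.n1 (-46656, 41616) (by decide +kernel)
                (CovZ.leaf K2_ok TH_l2042 _)
                (CovZ.n1 (-46728, 41688) (by decide +kernel)
                 (CovZ.n2 (-46656, 41688) (by decide +kernel)
                  (CovZ.leaf K2_ok TH_l2043 _)
                  (CovZ.leaf K2_ok TH_l2044 _))
                 (CovZ.leaf K2_ok TH_l2045 _))))
              (CovZ.n1 (-46800, 41904) (by decide +kernel)
               (CovZ.badM (by decide +kernel))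
               (CovZ.n1 (-46800, 41760) (by decide +kernel)
                (CovZ.n2 (-46872, 41832) (by decide +kernel)
                 (CovZ.n2 (-46800, 41832) (by decide +kernel)
                  (CovZ.leaf K2_ok TH_l2046 _)
                  (CovZ.badM (by decide +kernel)))
                 (CovZ.n1 (-46872, 41760) (by decide +kernel)
                  (CovZ.leaf K2_ok TH_l2047 _)
                  (CovZ.leaf K2_ok TH_l2048 _)))
                (CovZ.subM 9367487224930631680 (by decide +kernel)
                 (CovZ.n1 (-46728, 41832) (by decide +kernel)
                  (CovZ.n2 (-46728, 41760) (by decide +kernel)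
                   (CovZ.n2 (-46764, 41796) (by decide +kernel)
                    (CovZ.badM (by decide +kernel))
                    (CovZ.leaf K2_ok TH_l2049 _))
                   (CovZ.badM (by decide +kernel)))
                  (CovZ.n1 (-46800, 41832) (by decide +kernel)
                   (CovZ.badM (by decide +kernel))
                   (CovZ.n1 (-46764, 41796) (by decide +kernel)
                    (CovZ.leaf K2_ok TH_l2050 _)
                    (CovZ.badM (by decide +kernel))))))))))
            (CovZ.n1 (-46944, 41472) (by decide +kernel)
             (CovZ.n2 (-47088, 41616) (by decide +kernel)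
              (CovZ.n2 (-46944, 41616) (by decide +kernel)
               (CovZ.leaf K2_ok TH_l2051 _)
               (CovZ.leaf K2_ok TH_l2052 _))
              (CovZ.leaf K2_ok TH_l2053 _))
             (CovZ.subM 5986334970763842566298964491560687143205904373514752 (by decide +kernel)
              (CovZ.n1 (-46800, 41616) (by decide +kernel)
               (CovZ.n2 (-46800, 41472) (by decide +kernel)
                (CovZ.leaf K2_ok TH_l2054 _)
                (CovZ.leaf K2_ok TH_l2055 _))
               (CovZ.n1 (-46944, 41616) (by decide +kernel)
                (CovZ.n2 (-46872, 41688) (by decide +kernel)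
                 (CovZ.leaf K2_ok TH_l2056 _)
                 (CovZ.leaf K2_ok TH_l2057 _))
                (CovZ.leaf K2_ok TH_l2058 _))))))
           (CovZ.subM 5986312134800758772470227934835175410661231373582848 (by decide +kernel)
            (CovZ.n1 (-46368, 41760) (by decide +kernel)
             (CovZ.n2 (-46368, 41472) (by decide +kernel)
              (CovZ.n2 (-46512, 41616) (by decide +kernel)
               (CovZ.subM 1427247692705959881058285978816982361318097408 (by decide +kernel)
                (CovZ.n2 (-46368, 41616) (by decide +kernel)
                 (CovZ.n2 (-46440, 41544) (by decide +kernel)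
                  (CovZ.n2 (-46440, 41616) (by decide +kernel)
                   (CovZ.leaf K2_ok TH_l2059 _)
                   (CovZ.leaf K2_ok TH_l2060 _))
                  (CovZ.n1 (-46368, 41544) (by decide +kernel)
                   (CovZ.leaf K2_ok TH_l2061 _)
                   (CovZ.leaf K2_ok TH_l2062 _)))
                 (CovZ.subM 9367487224930631680 (by decide +kernel)
                  (CovZ.n1 (-46440, 41688) (by decide +kernel)
                   (CovZ.badM (by decide +kernel))
                   (CovZ.n1 (-46440, 41616) (by decide +kernel)
                    (CovZ.n2 (-46476, 41652) (by decide +kernel)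
                     (CovZ.badM (by decide +kernel))
                     (CovZ.leaf K2_ok TH_l2063 _))
                    (CovZ.badM (by decide +kernel)))))))
               (CovZ.n1 (-46512, 41472) (by decide +kernel)
                (CovZ.n2 (-46584, 41544) (by decide +kernel)
                 (CovZ.leaf K2_ok TH_l2064 _)
                 (CovZ.leaf K2_ok TH_l2065 _))
                (CovZ.n1 (-46440, 41544) (by decide +kernel)
                 (CovZ.leaf K2_ok TH_l2066 _)
                 (CovZ.leaf K2_ok TH_l2067 _))))
              (CovZ.subM 1427247692705959881058285978816982361318097408 (by decide +kernel)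
               (CovZ.n1 (-46224, 41616) (by decide +kernel)
                (CovZ.n2 (-46224, 41472) (by decide +kernel)
                 (CovZ.n2 (-46296, 41544) (by decide +kernel)
                  (CovZ.n2 (-46224, 41544) (by decide +kernel)
                   (CovZ.leaf K2_ok TH_l2068 _)
                   (CovZ.badM (by decide +kernel)))
                  (CovZ.leaf K2_ok TH_l2069 _))
                 (CovZ.subM 9367487224930631680 (by decide +kernel)
                  (CovZ.n1 (-46152, 41544) (by decide +kernel)
                   (CovZ.n2 (-46152, 41472) (by decide +kernel)
                    (CovZ.leaf K2_ok TH_l2070 _)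
                    (CovZ.badM (by decide +kernel)))
                   (CovZ.n1 (-46224, 41544) (by decide +kernel)
                    (CovZ.badM (by decide +kernel))
                    (CovZ.leaf K2_ok TH_l2071 _)))))
                (CovZ.n1 (-46368, 41616) (by decide +kernel)
                 (CovZ.badM (by decide +kernel))
                 (CovZ.n1 (-46296, 41544) (by decide +kernel)
                  (CovZ.n2 (-46368, 41544) (by decide +kernel)
                   (CovZ.leaf K2_ok TH_l2072 _)
                   (CovZ.leaf K2_ok TH_l2073 _))
                  (CovZ.badM (by decide +kernel)))))))
             (CovZ.n1 (-46656, 41760) (by decide +kernel)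
              (CovZ.badM (by decide +kernel))
              (CovZ.n1 (-46512, 41616) (by decide +kernel)
               (CovZ.n2 (-46656, 41616) (by decide +kernel)
                (CovZ.subM 1427247692705959890961806293100024560511091200 (by decide +kernel)
                 (CovZ.n2 (-46584, 41688) (by decide +kernel)
                  (CovZ.n2 (-46584, 41616) (by decide +kernel)
                   (CovZ.leaf K2_ok TH_l2074 _)
                   (CovZ.leaf K2_ok TH_l2075 _))
                  (CovZ.n1 (-46656, 41688) (by decide +kernel)
                   (CovZ.leaf K2_ok TH_l2076 _)
                   (CovZ.leaf K2_ok TH_l2077 _))))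
                (CovZ.n1 (-46584, 41544) (by decide +kernel)
                 (CovZ.leaf K2_ok TH_l2078 _)
                 (CovZ.leaf K2_ok TH_l2079 _)))
               (CovZ.subM 9367487224930631680 (by decide +kernel)
                (CovZ.n1 (-46512, 41760) (by decide +kernel)
                 (CovZ.n2 (-46440, 41688) (by decide +kernel)
                  (CovZ.n2 (-46512, 41688) (by decide +kernel)
                   (CovZ.badM (by decide +kernel))
                   (CovZ.n1 (-46476, 41652) (by decide +kernel)
                    (CovZ.leaf K2_ok TH_l2080 _)
                    (CovZ.badM (by decide +kernel))))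
                  (CovZ.badM (by decide +kernel)))
                 (CovZ.n1 (-46584, 41688) (by decide +kernel)
                  (CovZ.badM (by decide +kernel))
                  (CovZ.n1 (-46512, 41688) (by decide +kernel)
                   (CovZ.leaf K2_ok TH_l2081 _)
                   (CovZ.badM (by decide +kernel)))))))))))

theorem TH_u28 : CovZ TH_M (toL (selN TH_LN 53131399728448817726826349358258120060110019397268488761910080)) [0, 7, 6, 1] (-46656, 42048) (-47232, 42624) (-47232, 41472) :=
    (CovZ.n1 (-47232, 42048) (by decide +kernel)
           (CovZ.badM (by decide +kernel))
           (CovZ.n1 (-46944, 41760) (by decide +kernel)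
            (CovZ.n2 (-47232, 41760) (by decide +kernel)
             (CovZ.n2 (-47088, 41904) (by decide +kernel)
              (CovZ.n2 (-47088, 41760) (by decide +kernel)
               (CovZ.n2 (-47160, 41832) (by decide +kernel)
                (CovZ.leaf K2_ok TH_l2082 _)
                (CovZ.leaf K2_ok TH_l2083 _))
               (CovZ.n1 (-47016, 41832) (by decide +kernel)
                (CovZ.leaf K2_ok TH_l2084 _)
                (CovZ.n1 (-47088, 41832) (by decide +kernel)
                 (CovZ.leaf K2_ok TH_l2085 _)
                 (CovZ.leaf K2_ok TH_l2086 _))))
              (CovZ.n1 (-47232, 41904) (by decide +kernel)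
               (CovZ.n2 (-47160, 41976) (by decide +kernel)
                (CovZ.n2 (-47160, 41904) (by decide +kernel)
                 (CovZ.n2 (-47196, 41940) (by decide +kernel)
                  (CovZ.leaf K2_ok TH_l2087 _)
                  (CovZ.leaf K2_ok TH_l2088 _))
                 (CovZ.n1 (-47124, 41940) (by decide +kernel)
                  (CovZ.leaf K2_ok TH_l2089 _)
                  (CovZ.leaf K2_ok TH_l2090 _)))
                (CovZ.n1 (-47232, 41976) (by decide +kernel)
                 (CovZ.subM 1961594292333314573321048877274536383787203808866976399680 (by decide +kernel)
                  (CovZ.n2 (-47196, 42012) (by decide +kernel)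
                   (CovZ.leaf K2_ok TH_l2091 _)
                   (CovZ.n1 (-47232, 42012) (by decide +kernel)
                    (CovZ.n2 (-47214, 42030) (by decide +kernel)
                     (CovZ.leaf K2_ok TH_l2092 _)
                     (CovZ.leaf K2_ok TH_l2093 _))
                    (CovZ.leaf K2_ok TH_l2094 _))))
                 (CovZ.n1 (-47196, 41940) (by decide +kernel)
                  (CovZ.leaf K2_ok TH_l2095 _)
                  (CovZ.leaf K2_ok TH_l2096 _))))
               (CovZ.n1 (-47160, 41832) (by decide +kernel)
                (CovZ.leaf K2_ok TH_l2097 _)
                (CovZ.n1 (-47160, 41904) (by decide +kernel)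
                 (CovZ.leaf K2_ok TH_l2098 _)
                 (CovZ.leaf K2_ok TH_l2099 _)))))
             (CovZ.n1 (-47088, 41616) (by decide +kernel)
              (CovZ.n2 (-47232, 41616) (by decide +kernel)
               (CovZ.leaf K2_ok TH_l2100 _)
               (CovZ.leaf K2_ok TH_l2101 _))
              (CovZ.n1 (-47088, 41760) (by decide +kernel)
               (CovZ.leaf K2_ok TH_l2102 _)
               (CovZ.leaf K2_ok TH_l2103 _))))
            (CovZ.subM 100874986481958409432568047766608146337537141316164279345984 (by decide +kernel)
             (CovZ.n1 (-46944, 42048) (by decide +kernel)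
              (CovZ.subM 1427596141849686931948392788698034691159622144 (by decide +kernel)
               (CovZ.n2 (-46800, 41904) (by decide +kernel)
                (CovZ.n2 (-46944, 41904) (by decide +kernel)
                 (CovZ.badM (by decide +kernel))
                 (CovZ.n1 (-46872, 41832) (by decide +kernel)
                  (CovZ.n2 (-46944, 41832) (by decide +kernel)
                   (CovZ.n2 (-46908, 41868) (by decide +kernel)
                    (CovZ.leaf K2_ok TH_l2104 _)
                    (CovZ.leaf K2_ok TH_l2105 _))
                   (CovZ.leaf K2_ok TH_l2106 _))
                  (CovZ.badM (by decide +kernel))))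
                (CovZ.badM (by decide +kernel))))
              (CovZ.n1 (-47088, 41904) (by decide +kernel)
               (CovZ.n2 (-47088, 42048) (by decide +kernel)
                (CovZ.subM 2140871539069324425208047267280730339227468032 (by decide +kernel)
                 (CovZ.n2 (-47016, 41976) (by decide +kernel)
                  (CovZ.n2 (-47088, 41976) (by decide +kernel)
                   (CovZ.badM (by decide +kernel))
                   (CovZ.n1 (-47052, 41940) (by decide +kernel)
                    (CovZ.leaf K2_ok TH_l2107 _)
                    (CovZ.subM 713623846363364534246212639981808560849813760 (by decide +kernel)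
                     (CovZ.n1 (-47052, 41976) (by decide +kernel)
                      (CovZ.n2 (-47034, 41958) (by decide +kernel)
                       (CovZ.leaf K2_ok TH_l2108 _)
                       (CovZ.badM (by decide +kernel)))
                      (CovZ.n1 (-47070, 41958) (by decide +kernel)
                       (CovZ.badM (by decide +kernel))
                       (CovZ.leaf K2_ok TH_l2109 _))))))
                  (CovZ.badM (by decide +kernel))))
                (CovZ.n1 (-47160, 41976) (by decide +kernel)
                 (CovZ.subM 2140871539069324415304517572684211539371098432 (by decide +kernel)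
                  (CovZ.n2 (-47160, 42048) (by decide +kernel)
                   (CovZ.n2 (-47124, 42012) (by decide +kernel)
                    (CovZ.n2 (-47160, 42012) (by decide +kernel)
                     (CovZ.badM (by decide +kernel))
                     (CovZ.n1 (-47142, 41994) (by decide +kernel)
                      (CovZ.leaf K2_ok TH_l2110 _)
                      (CovZ.badM (by decide +kernel))))
                    (CovZ.badM (by decide +kernel)))
                   (CovZ.n1 (-47196, 42012) (by decide +kernel)
                    (CovZ.subM 713623846363364534246212639981808560849813568 (by decide +kernel)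
                     (CovZ.n2 (-47196, 42048) (by decide +kernel)
                      (CovZ.n2 (-47178, 42030) (by decide +kernel)
                       (CovZ.leaf K2_ok TH_l2111 _)
                       (CovZ.badM (by decide +kernel)))
                      (CovZ.n1 (-47214, 42030) (by decide +kernel)
                       (CovZ.badM (by decide +kernel))
                       (CovZ.leaf K2_ok TH_l2112 _))))
                    (CovZ.n1 (-47160, 42012) (by decide +kernel)
                     (CovZ.n2 (-47178, 41994) (by decide +kernel)
                      (CovZ.leaf K2_ok TH_l2113 _)
                      (CovZ.leaf K2_ok TH_l2114 _))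
                     (CovZ.n1 (-47178, 42030) (by decide +kernel)
                      (CovZ.badM (by decide +kernel))
                      (CovZ.leaf K2_ok TH_l2115 _))))))
                 (CovZ.subM 2140871539069324425208047267280730339227468032 (by decide +kernel)
                  (CovZ.n1 (-47088, 41976) (by decide +kernel)
                   (CovZ.n2 (-47124, 41940) (by decide +kernel)
                    (CovZ.n2 (-47124, 41976) (by decide +kernel)
                     (CovZ.leaf K2_ok TH_l2116 _)
                     (CovZ.leaf K2_ok TH_l2117 _))
                    (CovZ.n1 (-47088, 41940) (by decide +kernel)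
                     (CovZ.leaf K2_ok TH_l2118 _)
                     (CovZ.leaf K2_ok TH_l2119 _)))
                   (CovZ.subM 2140871539069324415304517498897235175813415168 (by decide +kernel)
                    (CovZ.n1 (-47124, 42012) (by decide +kernel)
                     (CovZ.badM (by decide +kernel))
                     (CovZ.n1 (-47124, 41976) (by decide +kernel)
                      (CovZ.n2 (-47142, 41994) (by decide +kernel)
                       (CovZ.leaf K2_ok TH_l2120 _)
                       (CovZ.leaf K2_ok TH_l2121 _))
                      (CovZ.n1 (-47106, 41994) (by decide +kernel)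
                       (CovZ.leaf K2_ok TH_l2122 _)
                       (CovZ.leaf K2_ok TH_l2123 _)))))))))
               (CovZ.n1 (-46944, 41904) (by decide +kernel)
                (CovZ.n2 (-47016, 41832) (by decide +kernel)
                 (CovZ.n2 (-47016, 41904) (by decide +kernel)
                  (CovZ.n2 (-46980, 41868) (by decide +kernel)
                   (CovZ.leaf K2_ok TH_l2124 _)
                   (CovZ.leaf K2_ok TH_l2125 _))
                  (CovZ.leaf K2_ok TH_l2126 _))
                 (CovZ.n1 (-46944, 41832) (by decide +kernel)
                  (CovZ.leaf K2_ok TH_l2127 _)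
                  (CovZ.n1 (-46980, 41868) (by decide +kernel)
                   (CovZ.leaf K2_ok TH_l2128 _)
                   (CovZ.leaf K2_ok TH_l2129 _))))
                (CovZ.subM 2140871539069324425208047267280730339227468032 (by decide +kernel)
                 (CovZ.n1 (-47016, 41976) (by decide +kernel)
                  (CovZ.badM (by decide +kernel))
                  (CovZ.n1 (-47016, 41904) (by decide +kernel)
                   (CovZ.n2 (-47052, 41940) (by decide +kernel)
                    (CovZ.n2 (-47016, 41940) (by decide +kernel)
                     (CovZ.leaf K2_ok TH_l2130 _)
                     (CovZ.n1 (-47034, 41958) (by decide +kernel)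
                      (CovZ.badM (by decide +kernel))
                      (CovZ.leaf K2_ok TH_l2131 _)))
                    (CovZ.leaf K2_ok TH_l2132 _))
                   (CovZ.badM (by decide +kernel)))))))))))

theorem TH_u29 : CovZ TH_M (toL (selN TH_LN 159189319078397724320795502251130398146230071717438611119450091)) [0, 7, 6, 1] (-47808, 42624) (-48096, 42624) (-48096, 42336) :=
    (CovZ.n2 (-47952, 42480) (by decide +kernel)
             (CovZ.n2 (-48096, 42480) (by decide +kernel)
              (CovZ.badM (by decide +kernel))
              (CovZ.n1 (-48024, 42408) (by decide +kernel)
               (CovZ.n2 (-48096, 42408) (by decide +kernel)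
                (CovZ.subM 56345235205834941057145594170855911286792473146231884378800352 (by decide +kernel)
                 (CovZ.n2 (-48060, 42444) (by decide +kernel)
                  (CovZ.n2 (-48060, 42408) (by decide +kernel)
                   (CovZ.n2 (-48078, 42426) (by decide +kernel)
                    (CovZ.leaf K2_ok TH_l2257 _)
                    (CovZ.leaf K2_ok TH_l2258 _))
                   (CovZ.n1 (-48042, 42426) (by decide +kernel)
                    (CovZ.leaf K2_ok TH_l2259 _)
                    (CovZ.leaf K2_ok TH_l2260 _)))
                  (CovZ.n1 (-48096, 42444) (by decide +kernel)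
                   (CovZ.n2 (-48078, 42462) (by decide +kernel)
                    (CovZ.leaf K2_ok TH_l2261 _)
                    (CovZ.n1 (-48096, 42462) (by decide +kernel)
                     (CovZ.leaf K2_ok TH_l2262 _)
                     (CovZ.leaf K2_ok TH_l2263 _)))
                   (CovZ.n1 (-48078, 42426) (by decide +kernel)
                    (CovZ.leaf K2_ok TH_l2264 _)
                    (CovZ.leaf K2_ok TH_l2265 _)))))
                (CovZ.n1 (-48060, 42372) (by decide +kernel)
                 (CovZ.leaf K2_ok TH_l2266 _)
                 (CovZ.subM 56345284245692271601552144933318886932782174420848175605096928 (by decide +kernel)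
                  (CovZ.n1 (-48060, 42408) (by decide +kernel)
                   (CovZ.n2 (-48042, 42390) (by decide +kernel)
                    (CovZ.leaf K2_ok TH_l2267 _)
                    (CovZ.leaf K2_ok TH_l2268 _))
                   (CovZ.n1 (-48078, 42390) (by decide +kernel)
                    (CovZ.leaf K2_ok TH_l2269 _)
                    (CovZ.leaf K2_ok TH_l2270 _))))))
               (CovZ.subM 54635900407021914685754702394817052758449159046230664986755200 (by decide +kernel)
                (CovZ.n1 (-48024, 42480) (by decide +kernel)
                 (CovZ.n2 (-47988, 42444) (by decide +kernel)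
                  (CovZ.n2 (-48024, 42444) (by decide +kernel)
                   (CovZ.badM (by decide +kernel))
                   (CovZ.n1 (-48006, 42426) (by decide +kernel)
                    (CovZ.n2 (-48024, 42426) (by decide +kernel)
                     (CovZ.leaf K2_ok TH_l2271 _)
                     (CovZ.leaf K2_ok TH_l2272 _))
                    (CovZ.badM (by decide +kernel))))
                  (CovZ.badM (by decide +kernel)))
                 (CovZ.n1 (-48060, 42444) (by decide +kernel)
                  (CovZ.subM 3213882218500144014639362934982416945944668971238462945492992 (by decide +kernel)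
                   (CovZ.n2 (-48060, 42480) (by decide +kernel)
                    (CovZ.n2 (-48042, 42462) (by decide +kernel)
                     (CovZ.n2 (-48060, 42462) (by decide +kernel)
                      (CovZ.badM (by decide +kernel))
                      (CovZ.leaf K2_ok TH_l2273 _))
                     (CovZ.badM (by decide +kernel)))
                    (CovZ.n1 (-48078, 42462) (by decide +kernel)
                     (CovZ.n2 (-48078, 42480) (by decide +kernel)
                      (CovZ.n2 (-48069, 42471) (by decide +kernel)
                       (CovZ.leaf K2_ok TH_l2274 _)
                       (CovZ.badM (by decide +kernel)))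
                      (CovZ.leaf K2_ok TH_l2275 _))
                     (CovZ.n1 (-48060, 42462) (by decide +kernel)
                      (CovZ.leaf K2_ok TH_l2276 _)
                      (CovZ.leaf K2_ok TH_l2277 _)))))
                  (CovZ.n1 (-48024, 42444) (by decide +kernel)
                   (CovZ.n2 (-48042, 42426) (by decide +kernel)
                    (CovZ.n2 (-48042, 42444) (by decide +kernel)
                     (CovZ.leaf K2_ok TH_l2278 _)
                     (CovZ.leaf K2_ok TH_l2279 _))
                    (CovZ.n1 (-48024, 42426) (by decide +kernel)
                     (CovZ.leaf K2_ok TH_l2280 _)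
                     (CovZ.leaf K2_ok TH_l2281 _)))
                   (CovZ.n1 (-48042, 42462) (by decide +kernel)
                    (CovZ.badM (by decide +kernel))
                    (CovZ.n1 (-48042, 42444) (by decide +kernel)
                     (CovZ.leaf K2_ok TH_l2282 _)
                     (CovZ.badM (by decide +kernel))))))))))
             (CovZ.badM (by decide +kernel)))

end Pool.Agent.TET
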