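import Pool.Agent.Helper38_TET.TH_M
import Pool.Agent.Helper38_TET.TH_L
import Pool.Agent.Helper38_TET.TH_9
import Pool.Agent.Helper38_TET.TH_12
import Pool.Agent.Helper38_TET.TH_13
import Pool.Agent.Helper38_TET.TH_14
import Pool.Agent.Helper38_TET.TH_15
import Pool.Agent.Helper38_TET.TH_16
import Pool.Agent.Helper38_TET.TH_17
import Pool.Agent.Helper38_TET.TH_18
import Pool.Agent.Helper38_TET.TH_19
import Pool.Agent.Helper38_TET.TH_55
import Pool.Agent.Helper38_TET.TH_U1

/-!
# MP_c7c9bf_co: certificates, family TH
-/

set_option autoImplicit false
set_option maxRecDepth 100000

namespace Pool.Agent.TET

theorem TH_u30 : CovZ TH_M (toL (selN TH_LN 159189319078397724320795502251130398146230071717438611119450091)) [0, 7, 6, 1] (-48096, 42624) (-48384, 42624) (-48096, 42336) :=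
    (CovZ.n1 (-48240, 42480) (by decide +kernel)
             (CovZ.subM 51524470112915277938963170044025309159203204123038837897168009 (by decide +kernel)
              (CovZ.n2 (-48240, 42624) (by decide +kernel)
               (CovZ.n2 (-48168, 42552) (by decide +kernel)
                (CovZ.n2 (-48240, 42552) (by decide +kernel)
                 (CovZ.badM (by decide +kernel))
                 (CovZ.n1 (-48204, 42516) (by decide +kernel)
                  (CovZ.n2 (-48240, 42516) (by decide +kernel)
                   (CovZ.n2 (-48222, 42534) (by decide +kernel)
                    (CovZ.leaf K2_ok TH_l2283 _)
                    (CovZ.n1 (-48240, 42534) (by decide +kernel)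
                     (CovZ.badM (by decide +kernel))
                     (CovZ.leaf K2_ok TH_l2284 _)))
                   (CovZ.n1 (-48222, 42498) (by decide +kernel)
                    (CovZ.leaf K2_ok TH_l2285 _)
                    (CovZ.n1 (-48222, 42516) (by decide +kernel)
                     (CovZ.leaf K2_ok TH_l2286 _)
                     (CovZ.leaf K2_ok TH_l2287 _))))
                  (CovZ.badM (by decide +kernel))))
                (CovZ.badM (by decide +kernel)))
               (CovZ.n1 (-48312, 42552) (by decide +kernel)
                (CovZ.subM 100434394013957325165801809944836237887787360206900034536456 (by decide +kernel)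
                 (CovZ.n2 (-48312, 42624) (by decide +kernel)
                  (CovZ.subM 100434394013957325165801809944836237887787360206899967426560 (by decide +kernel)
                   (CovZ.n2 (-48276, 42588) (by decide +kernel)
                    (CovZ.n2 (-48312, 42588) (by decide +kernel)
                     (CovZ.badM (by decide +kernel))
                     (CovZ.n1 (-48294, 42570) (by decide +kernel)
                      (CovZ.n2 (-48312, 42570) (by decide +kernel)
                       (CovZ.badM (by decide +kernel))
                       (CovZ.leaf K2_ok TH_l2288 _))
                      (CovZ.badM (by decide +kernel))))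
                    (CovZ.badM (by decide +kernel))))
                  (CovZ.n1 (-48348, 42588) (by decide +kernel)
                   (CovZ.badM (by decide +kernel))
                   (CovZ.subM 100434394013957325165801809944836237887787360206899967426560 (by decide +kernel)
                    (CovZ.n1 (-48312, 42588) (by decide +kernel)
                     (CovZ.n2 (-48330, 42570) (by decide +kernel)
                      (CovZ.badM (by decide +kernel))
                      (CovZ.n1 (-48312, 42570) (by decide +kernel)
                       (CovZ.leaf K2_ok TH_l2289 _)
                       (CovZ.badM (by decide +kernel))))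
                     (CovZ.badM (by decide +kernel)))))))
                (CovZ.n1 (-48240, 42552) (by decide +kernel)
                 (CovZ.n2 (-48276, 42516) (by decide +kernel)
                  (CovZ.n2 (-48276, 42552) (by decide +kernel)
                   (CovZ.n2 (-48258, 42534) (by decide +kernel)
                    (CovZ.n2 (-48276, 42534) (by decide +kernel)
                     (CovZ.leaf K2_ok TH_l2290 _)
                     (CovZ.leaf K2_ok TH_l2291 _))
                    (CovZ.n1 (-48258, 42552) (by decide +kernel)
                     (CovZ.leaf K2_ok TH_l2292 _)
                     (CovZ.leaf K2_ok TH_l2293 _)))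
                   (CovZ.n1 (-48294, 42534) (by decide +kernel)
                    (CovZ.leaf K2_ok TH_l2294 _)
                    (CovZ.n1 (-48276, 42534) (by decide +kernel)
                     (CovZ.leaf K2_ok TH_l2295 _)
                     (CovZ.leaf K2_ok TH_l2296 _))))
                  (CovZ.n1 (-48240, 42516) (by decide +kernel)
                   (CovZ.n2 (-48258, 42498) (by decide +kernel)
                    (CovZ.leaf K2_ok TH_l2297 _)
                    (CovZ.leaf K2_ok TH_l2298 _))
                   (CovZ.n1 (-48258, 42534) (by decide +kernel)
                    (CovZ.n2 (-48240, 42534) (by decide +kernel)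
                     (CovZ.leaf K2_ok TH_l2299 _)
                     (CovZ.leaf K2_ok TH_l2300 _))
                    (CovZ.leaf K2_ok TH_l2301 _))))
                 (CovZ.subM 100434394013957325165801809944836237887787360206899967426560 (by decide +kernel)
                  (CovZ.n1 (-48276, 42588) (by decide +kernel)
                   (CovZ.badM (by decide +kernel))
                   (CovZ.n1 (-48276, 42552) (by decide +kernel)
                    (CovZ.n2 (-48294, 42570) (by decide +kernel)
                     (CovZ.badM (by decide +kernel))
                     (CovZ.n1 (-48294, 42552) (by decide +kernel)
                      (CovZ.leaf K2_ok TH_l2302 _)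
                      (CovZ.badM (by decide +kernel))))
                    (CovZ.badM (by decide +kernel)))))))))
             (CovZ.n1 (-48096, 42480) (by decide +kernel)
              (CovZ.n2 (-48168, 42408) (by decide +kernel)
               (CovZ.n2 (-48168, 42480) (by decide +kernel)
                (CovZ.subM 56345284245703963614650792156664516411443904685005423069635552 (by decide +kernel)
                 (CovZ.n2 (-48132, 42444) (by decide +kernel)
                  (CovZ.n2 (-48168, 42444) (by decide +kernel)
                   (CovZ.n2 (-48150, 42462) (by decide +kernel)
                    (CovZ.leaf K2_ok TH_l2303 _)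
                    (CovZ.leaf K2_ok TH_l2304 _))
                   (CovZ.n1 (-48150, 42426) (by decide +kernel)
                    (CovZ.leaf K2_ok TH_l2305 _)
                    (CovZ.leaf K2_ok TH_l2306 _)))
                  (CovZ.n1 (-48132, 42480) (by decide +kernel)
                   (CovZ.n2 (-48114, 42462) (by decide +kernel)
                    (CovZ.leaf K2_ok TH_l2307 _)
                    (CovZ.leaf K2_ok TH_l2308 _))
                   (CovZ.n1 (-48150, 42462) (by decide +kernel)
                    (CovZ.leaf K2_ok TH_l2309 _)
                    (CovZ.leaf K2_ok TH_l2310 _)))))
                (CovZ.n1 (-48204, 42444) (by decide +kernel)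
                 (CovZ.n2 (-48204, 42480) (by decide +kernel)
                  (CovZ.n2 (-48186, 42462) (by decide +kernel)
                   (CovZ.leaf K2_ok TH_l2311 _)
                   (CovZ.leaf K2_ok TH_l2312 _))
                  (CovZ.leaf K2_ok TH_l2313 _))
                 (CovZ.n1 (-48168, 42444) (by decide +kernel)
                  (CovZ.leaf K2_ok TH_l2314 _)
                  (CovZ.n1 (-48186, 42462) (by decide +kernel)
                   (CovZ.leaf K2_ok TH_l2315 _)
                   (CovZ.leaf K2_ok TH_l2316 _)))))
               (CovZ.n1 (-48096, 42408) (by decide +kernel)
                (CovZ.n2 (-48132, 42372) (by decide +kernel)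
                 (CovZ.leaf K2_ok TH_l2317 _)
                 (CovZ.leaf K2_ok TH_l2318 _))
                (CovZ.subM 56345284245703963614650792156664516411443904685005423069635552 (by decide +kernel)
                 (CovZ.n1 (-48132, 42444) (by decide +kernel)
                  (CovZ.n2 (-48096, 42444) (by decide +kernel)
                   (CovZ.n2 (-48114, 42426) (by decide +kernel)
                    (CovZ.leaf K2_ok TH_l2319 _)
                    (CovZ.leaf K2_ok TH_l2320 _))
                   (CovZ.n1 (-48114, 42462) (by decide +kernel)
                    (CovZ.leaf K2_ok TH_l2321 _)
                    (CovZ.leaf K2_ok TH_l2322 _)))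
                  (CovZ.n1 (-48132, 42408) (by decide +kernel)
                   (CovZ.n2 (-48150, 42426) (by decide +kernel)
                    (CovZ.leaf K2_ok TH_l2323 _)
                    (CovZ.leaf K2_ok TH_l2324 _))
                   (CovZ.n1 (-48114, 42426) (by decide +kernel)
                    (CovZ.leaf K2_ok TH_l2325 _)
                    (CovZ.leaf K2_ok TH_l2326 _)))))))
              (CovZ.subM 54738346201433258490047099545619617503911101149371912318615681 (by decide +kernel)
               (CovZ.n1 (-48168, 42552) (by decide +kernel)
                (CovZ.badM (by decide +kernel))
                (CovZ.n1 (-48168, 42480) (by decide +kernel)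
                 (CovZ.n2 (-48204, 42516) (by decide +kernel)
                  (CovZ.subM 51522457940283810320384767171031734397258710880028438523019265 (by decide +kernel)
                   (CovZ.n2 (-48168, 42516) (by decide +kernel)
                    (CovZ.n2 (-48186, 42498) (by decide +kernel)
                     (CovZ.n2 (-48186, 42516) (by decide +kernel)
                      (CovZ.badM (by decide +kernel))
                      (CovZ.leaf K2_ok TH_l2327 _))
                     (CovZ.n1 (-48168, 42498) (by decide +kernel)
                      (CovZ.leaf K2_ok TH_l2328 _)
                      (CovZ.badM (by decide +kernel))))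
                    (CovZ.badM (by decide +kernel))))
                  (CovZ.n1 (-48204, 42480) (by decide +kernel)
                   (CovZ.n2 (-48222, 42498) (by decide +kernel)
                    (CovZ.n2 (-48204, 42498) (by decide +kernel)
                     (CovZ.leaf K2_ok TH_l2329 _)
                     (CovZ.leaf K2_ok TH_l2330 _))
                    (CovZ.leaf K2_ok TH_l2331 _))
                   (CovZ.n1 (-48186, 42498) (by decide +kernel)
                    (CovZ.leaf K2_ok TH_l2332 _)
                    (CovZ.leaf K2_ok TH_l2333 _))))
                 (CovZ.subM 54736334028801790871468696672626042732219644062179317593931776 (by decide +kernel)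
                  (CovZ.n1 (-48132, 42516) (by decide +kernel)
                   (CovZ.n2 (-48132, 42480) (by decide +kernel)
                    (CovZ.n2 (-48150, 42498) (by decide +kernel)
                     (CovZ.n2 (-48132, 42498) (by decide +kernel)
                      (CovZ.n2 (-48141, 42489) (by decide +kernel)
                       (CovZ.badM (by decide +kernel))
                       (CovZ.leaf K2_ok TH_l2334 _))
                      (CovZ.badM (by decide +kernel)))
                     (CovZ.n1 (-48150, 42480) (by decide +kernel)
                      (CovZ.leaf K2_ok TH_l2335 _)
                      (CovZ.leaf K2_ok TH_l2336 _)))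
                    (CovZ.subM 3213876088517980551083929501594308344707897602793826791981056 (by decide +kernel)
                     (CovZ.n1 (-48114, 42498) (by decide +kernel)
                      (CovZ.n2 (-48114, 42480) (by decide +kernel)
                       (CovZ.n2 (-48123, 42489) (by decide +kernel)
                        (CovZ.badM (by decide +kernel))
                        (CovZ.leaf K2_ok TH_l2337 _))
                       (CovZ.badM (by decide +kernel)))
                      (CovZ.n1 (-48132, 42498) (by decide +kernel)
                       (CovZ.badM (by decide +kernel))
                       (CovZ.n1 (-48123, 42489) (by decide +kernel)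
                        (CovZ.leaf K2_ok TH_l2338 _)
                        (CovZ.badM (by decide +kernel)))))))
                   (CovZ.n1 (-48168, 42516) (by decide +kernel)
                    (CovZ.badM (by decide +kernel))
                    (CovZ.n1 (-48150, 42498) (by decide +kernel)
                     (CovZ.n2 (-48168, 42498) (by decide +kernel)
                      (CovZ.badM (by decide +kernel))
                      (CovZ.leaf K2_ok TH_l2339 _))
                     (CovZ.badM (by decide +kernel)))))))))))

theorem TH_u31 : CovZ TH_M (toL (selN TH_LN 159189319078397724320795502251130398146230071717438611119450091)) [0, 7, 6, 1] (-47232, 42624) (-47808, 42624) (-47808, 42048) :=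
    (CovZ.n2 (-47520, 42336) (by decide +kernel)
           (CovZ.n2 (-47808, 42336) (by decide +kernel)
            (CovZ.badM (by decide +kernel))
            (CovZ.subM 56345283479444502607354570651587603770445096837332366206182240 (by decide +kernel)
             (CovZ.n1 (-47664, 42192) (by decide +kernel)
              (CovZ.n2 (-47808, 42192) (by decide +kernel)
               (CovZ.n2 (-47736, 42264) (by decide +kernel)
                (CovZ.n2 (-47736, 42192) (by decide +kernel)
                 (CovZ.n2 (-47772, 42228) (by decide +kernel)
                  (CovZ.n2 (-47736, 42228) (by decide +kernel)
                   (CovZ.leaf K2_ok TH_l2203 _)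
                   (CovZ.leaf K2_ok TH_l2204 _))
                  (CovZ.leaf K2_ok TH_l2205 _))
                 (CovZ.n1 (-47700, 42228) (by decide +kernel)
                  (CovZ.n2 (-47700, 42192) (by decide +kernel)
                   (CovZ.leaf K2_ok TH_l2206 _)
                   (CovZ.n1 (-47682, 42210) (by decide +kernel)
                    (CovZ.leaf K2_ok TH_l2207 _)
                    (CovZ.leaf K2_ok TH_l2208 _)))
                  (CovZ.n1 (-47736, 42228) (by decide +kernel)
                   (CovZ.leaf K2_ok TH_l2209 _)
                   (CovZ.leaf K2_ok TH_l2210 _))))
                (CovZ.n1 (-47808, 42264) (by decide +kernel)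
                 (CovZ.n2 (-47772, 42300) (by decide +kernel)
                  (CovZ.n2 (-47772, 42264) (by decide +kernel)
                   (CovZ.n2 (-47790, 42282) (by decide +kernel)
                    (CovZ.leaf K2_ok TH_l2211 _)
                    (CovZ.leaf K2_ok TH_l2212 _))
                   (CovZ.n1 (-47754, 42282) (by decide +kernel)
                    (CovZ.leaf K2_ok TH_l2213 _)
                    (CovZ.leaf K2_ok TH_l2214 _)))
                  (CovZ.n1 (-47808, 42300) (by decide +kernel)
                   (CovZ.subM 56244400830484817734987760489604831335747755190103726226407424 (by decide +kernel)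
                    (CovZ.n2 (-47790, 42318) (by decide +kernel)
                     (CovZ.n2 (-47790, 42300) (by decide +kernel)
                      (CovZ.leaf K2_ok TH_l2215 _)
                      (CovZ.leaf K2_ok TH_l2216 _))
                     (CovZ.n1 (-47808, 42318) (by decide +kernel)
                      (CovZ.leaf K2_ok TH_l2217 _)
                      (CovZ.leaf K2_ok TH_l2218 _))))
                   (CovZ.n1 (-47790, 42282) (by decide +kernel)
                    (CovZ.leaf K2_ok TH_l2219 _)
                    (CovZ.leaf K2_ok TH_l2220 _))))
                 (CovZ.n1 (-47772, 42228) (by decide +kernel)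
                  (CovZ.leaf K2_ok TH_l2221 _)
                  (CovZ.n1 (-47772, 42264) (by decide +kernel)
                   (CovZ.leaf K2_ok TH_l2222 _)
                   (CovZ.leaf K2_ok TH_l2223 _)))))
               (CovZ.n1 (-47736, 42120) (by decide +kernel)
                (CovZ.n2 (-47808, 42120) (by decide +kernel)
                 (CovZ.leaf K2_ok TH_l2224 _)
                 (CovZ.leaf K2_ok TH_l2225 _))
                (CovZ.n1 (-47736, 42192) (by decide +kernel)
                 (CovZ.n2 (-47700, 42156) (by decide +kernel)
                  (CovZ.leaf K2_ok TH_l2226 _)
                  (CovZ.leaf K2_ok TH_l2227 _))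
                 (CovZ.leaf K2_ok TH_l2228 _))))
              (CovZ.n1 (-47664, 42336) (by decide +kernel)
               (CovZ.n2 (-47592, 42264) (by decide +kernel)
                (CovZ.n2 (-47664, 42264) (by decide +kernel)
                 (CovZ.badM (by decide +kernel))
                 (CovZ.n1 (-47628, 42228) (by decide +kernel)
                  (CovZ.n2 (-47664, 42228) (by decide +kernel)
                   (CovZ.n2 (-47646, 42246) (by decide +kernel)
                    (CovZ.leaf K2_ok TH_l2229 _)
                    (CovZ.leaf K2_ok TH_l2230 _))
                   (CovZ.n1 (-47646, 42210) (by decide +kernel)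
                    (CovZ.leaf K2_ok TH_l2231 _)
                    (CovZ.leaf K2_ok TH_l2232 _)))
                  (CovZ.subM 3213876088517980551432373328409366191630906197261734746521600 (by decide +kernel)
                   (CovZ.n1 (-47628, 42264) (by decide +kernel)
                    (CovZ.n2 (-47610, 42246) (by decide +kernel)
                     (CovZ.leaf K2_ok TH_l2233 _)
                     (CovZ.badM (by decide +kernel)))
                    (CovZ.n1 (-47646, 42246) (by decide +kernel)
                     (CovZ.badM (by decide +kernel))
                     (CovZ.n1 (-47628, 42246) (by decide +kernel)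
                      (CovZ.leaf K2_ok TH_l2234 _)
                      (CovZ.badM (by decide +kernel))))))))
                (CovZ.badM (by decide +kernel)))
               (CovZ.n1 (-47736, 42264) (by decide +kernel)
                (CovZ.subM 56244400830484817734639311356262384066230914849154588236316704 (by decide +kernel)
                 (CovZ.n2 (-47736, 42336) (by decide +kernel)
                  (CovZ.n2 (-47700, 42300) (by decide +kernel)
                   (CovZ.n2 (-47736, 42300) (by decide +kernel)
                    (CovZ.badM (by decide +kernel))
                    (CovZ.n1 (-47718, 42282) (by decide +kernel)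
                     (CovZ.leaf K2_ok TH_l2235 _)
                     (CovZ.subM 348449143727040986586495598010130648530944 (by decide +kernel)
                      (CovZ.n1 (-47718, 42300) (by decide +kernel)
                       (CovZ.n2 (-47709, 42291) (by decide +kernel)
                        (CovZ.leaf K2_ok TH_l2236 _)
                        (CovZ.badM (by decide +kernel)))
                       (CovZ.n1 (-47727, 42291) (by decide +kernel)
                        (CovZ.badM (by decide +kernel))
                        (CovZ.leaf K2_ok TH_l2237 _))))))
                   (CovZ.badM (by decide +kernel)))
                  (CovZ.n1 (-47772, 42300) (by decide +kernel)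
                   (CovZ.subM 4820814138763281533133264629985780882372504229860177713561600 (by decide +kernel)
                    (CovZ.n2 (-47772, 42336) (by decide +kernel)
                     (CovZ.n2 (-47754, 42318) (by decide +kernel)
                      (CovZ.n2 (-47772, 42318) (by decide +kernel)
                       (CovZ.badM (by decide +kernel))
                       (CovZ.leaf K2_ok TH_l2238 _))
                      (CovZ.badM (by decide +kernel)))
                     (CovZ.n1 (-47790, 42318) (by decide +kernel)
                      (CovZ.badM (by decide +kernel))
                      (CovZ.n1 (-47772, 42318) (by decide +kernel)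
                       (CovZ.leaf K2_ok TH_l2239 _)
                       (CovZ.badM (by decide +kernel))))))
                   (CovZ.n1 (-47736, 42300) (by decide +kernel)
                    (CovZ.n2 (-47754, 42282) (by decide +kernel)
                     (CovZ.leaf K2_ok TH_l2240 _)
                     (CovZ.n1 (-47736, 42282) (by decide +kernel)
                      (CovZ.leaf K2_ok TH_l2241 _)
                      (CovZ.leaf K2_ok TH_l2242 _)))
                    (CovZ.n1 (-47754, 42318) (by decide +kernel)
                     (CovZ.badM (by decide +kernel))
                     (CovZ.n1 (-47754, 42300) (by decide +kernel)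
                      (CovZ.leaf K2_ok TH_l2243 _)
                      (CovZ.badM (by decide +kernel))))))))
                (CovZ.n1 (-47664, 42264) (by decide +kernel)
                 (CovZ.n2 (-47700, 42228) (by decide +kernel)
                  (CovZ.subM 56244408492962544900743584730809669012989258692676374679781472 (by decide +kernel)
                   (CovZ.n2 (-47700, 42264) (by decide +kernel)
                    (CovZ.n2 (-47682, 42246) (by decide +kernel)
                     (CovZ.leaf K2_ok TH_l2244 _)
                     (CovZ.leaf K2_ok TH_l2245 _))
                    (CovZ.n1 (-47718, 42246) (by decide +kernel)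
                     (CovZ.leaf K2_ok TH_l2246 _)
                     (CovZ.leaf K2_ok TH_l2247 _))))
                  (CovZ.n1 (-47664, 42228) (by decide +kernel)
                   (CovZ.n2 (-47682, 42210) (by decide +kernel)
                    (CovZ.leaf K2_ok TH_l2248 _)
                    (CovZ.leaf K2_ok TH_l2249 _))
                   (CovZ.n1 (-47682, 42246) (by decide +kernel)
                    (CovZ.leaf K2_ok TH_l2250 _)
                    (CovZ.leaf K2_ok TH_l2251 _))))
                 (CovZ.subM 56244400830484817734639311356262344452149657716984691952713760 (by decide +kernel)
                  (CovZ.n1 (-47700, 42300) (by decide +kernel)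
                   (CovZ.badM (by decide +kernel))
                   (CovZ.n1 (-47700, 42264) (by decide +kernel)
                    (CovZ.n2 (-47718, 42282) (by decide +kernel)
                     (CovZ.n2 (-47700, 42282) (by decide +kernel)
                      (CovZ.leaf K2_ok TH_l2252 _)
                      (CovZ.n1 (-47709, 42291) (by decide +kernel)
                       (CovZ.badM (by decide +kernel))
                       (CovZ.leaf K2_ok TH_l2253 _)))
                     (CovZ.leaf K2_ok TH_l2254 _))
                    (CovZ.n1 (-47682, 42282) (by decide +kernel)
                     (CovZ.leaf K2_ok TH_l2255 _)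
                     (CovZ.n1 (-47700, 42282) (by decide +kernel)
                      (CovZ.badM (by decide +kernel))
                      (CovZ.leaf K2_ok TH_l2256 _))))))))))))
           (CovZ.badM (by decide +kernel)))

theorem TH_u32 : CovZ TH_M (toL (selN TH_LN 159189319078397724320795502251130398146230071717438611119450091)) [0, 7, 6, 1] (-47808, 42624) (-48384, 42624) (-47808, 42048) :=
    (CovZ.n1 (-48096, 42336) (by decide +kernel)
           (CovZ.n2 (-48096, 42624) (by decide +kernel)
            TH_u29
            TH_u30)
           (CovZ.n1 (-47808, 42336) (by decide +kernel)
            (CovZ.n2 (-47952, 42192) (by decide +kernel)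
             (CovZ.n2 (-47952, 42336) (by decide +kernel)
              (CovZ.n2 (-47880, 42264) (by decide +kernel)
               (CovZ.n2 (-47952, 42264) (by decide +kernel)
                (CovZ.n2 (-47916, 42300) (by decide +kernel)
                 (CovZ.leaf K2_ok TH_l2340 _)
                 (CovZ.leaf K2_ok TH_l2341 _))
                (CovZ.leaf K2_ok TH_l2342 _))
               (CovZ.subM 56345283479444501168956164897831849525011497234560770355241952 (by decide +kernel)
                (CovZ.n1 (-47880, 42336) (by decide +kernel)
                 (CovZ.n2 (-47844, 42300) (by decide +kernel)
                  (CovZ.n2 (-47880, 42300) (by decide +kernel)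
                   (CovZ.n2 (-47862, 42318) (by decide +kernel)
                    (CovZ.leaf K2_ok TH_l2343 _)
                    (CovZ.leaf K2_ok TH_l2344 _))
                   (CovZ.n1 (-47862, 42282) (by decide +kernel)
                    (CovZ.leaf K2_ok TH_l2345 _)
                    (CovZ.leaf K2_ok TH_l2346 _)))
                  (CovZ.subM 56244408492962522064432052624031559750612477504828801841889504 (by decide +kernel)
                   (CovZ.n1 (-47844, 42336) (by decide +kernel)
                    (CovZ.n2 (-47826, 42318) (by decide +kernel)
                     (CovZ.leaf K2_ok TH_l2347 _)
                     (CovZ.leaf K2_ok TH_l2348 _))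
                    (CovZ.n1 (-47862, 42318) (by decide +kernel)
                     (CovZ.leaf K2_ok TH_l2349 _)
                     (CovZ.leaf K2_ok TH_l2350 _)))))
                 (CovZ.n1 (-47916, 42300) (by decide +kernel)
                  (CovZ.n2 (-47916, 42336) (by decide +kernel)
                   (CovZ.n2 (-47898, 42318) (by decide +kernel)
                    (CovZ.leaf K2_ok TH_l2351 _)
                    (CovZ.leaf K2_ok TH_l2352 _))
                   (CovZ.leaf K2_ok TH_l2353 _))
                  (CovZ.n1 (-47880, 42300) (by decide +kernel)
                   (CovZ.leaf K2_ok TH_l2354 _)
                   (CovZ.n1 (-47898, 42318) (by decide +kernel)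
                    (CovZ.leaf K2_ok TH_l2355 _)
                    (CovZ.leaf K2_ok TH_l2356 _)))))))
              (CovZ.n1 (-48024, 42264) (by decide +kernel)
               (CovZ.n2 (-48024, 42336) (by decide +kernel)
                (CovZ.n2 (-47988, 42300) (by decide +kernel)
                 (CovZ.leaf K2_ok TH_l2357 _)
                 (CovZ.leaf K2_ok TH_l2358 _))
                (CovZ.leaf K2_ok TH_l2359 _))
               (CovZ.n1 (-47952, 42264) (by decide +kernel)
                (CovZ.leaf K2_ok TH_l2360 _)
                (CovZ.n1 (-47988, 42300) (by decide +kernel)
                 (CovZ.leaf K2_ok TH_l2361 _)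
                 (CovZ.leaf K2_ok TH_l2362 _)))))
             (CovZ.n1 (-47808, 42192) (by decide +kernel)
              (CovZ.n2 (-47880, 42120) (by decide +kernel)
               (CovZ.leaf K2_ok TH_l2363 _)
               (CovZ.leaf K2_ok TH_l2364 _))
              (CovZ.n1 (-47880, 42264) (by decide +kernel)
               (CovZ.subM 56345283479444501168956164897831849525011494928717761141547872 (by decide +kernel)
                (CovZ.n2 (-47808, 42264) (by decide +kernel)
                 (CovZ.n2 (-47844, 42228) (by decide +kernel)
                  (CovZ.leaf K2_ok TH_l2365 _)
                  (CovZ.leaf K2_ok TH_l2366 _))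
                 (CovZ.n1 (-47844, 42300) (by decide +kernel)
                  (CovZ.n2 (-47808, 42300) (by decide +kernel)
                   (CovZ.n2 (-47826, 42282) (by decide +kernel)
                    (CovZ.leaf K2_ok TH_l2367 _)
                    (CovZ.leaf K2_ok TH_l2368 _))
                   (CovZ.n1 (-47826, 42318) (by decide +kernel)
                    (CovZ.n2 (-47808, 42318) (by decide +kernel)
                     (CovZ.leaf K2_ok TH_l2369 _)
                     (CovZ.leaf K2_ok TH_l2370 _))
                    (CovZ.leaf K2_ok TH_l2371 _)))
                  (CovZ.leaf K2_ok TH_l2372 _))))
               (CovZ.n1 (-47880, 42192) (by decide +kernel)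
                (CovZ.leaf K2_ok TH_l2373 _)
                (CovZ.n1 (-47844, 42228) (by decide +kernel)
                 (CovZ.leaf K2_ok TH_l2374 _)
                 (CovZ.leaf K2_ok TH_l2375 _))))))
            (CovZ.n1 (-47952, 42480) (by decide +kernel)
             (CovZ.badM (by decide +kernel))
             (CovZ.n1 (-47952, 42336) (by decide +kernel)
              (CovZ.n2 (-48024, 42408) (by decide +kernel)
               (CovZ.subM 56345235205834963893108677466214018122888298621196265695740128 (by decide +kernel)
                (CovZ.n2 (-47952, 42408) (by decide +kernel)
                 (CovZ.n2 (-47988, 42372) (by decide +kernel)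
                  (CovZ.n2 (-47988, 42408) (by decide +kernel)
                   (CovZ.n2 (-47970, 42390) (by decide +kernel)
                    (CovZ.leaf K2_ok TH_l2376 _)
                    (CovZ.n1 (-47970, 42408) (by decide +kernel)
                     (CovZ.leaf K2_ok TH_l2377 _)
                     (CovZ.leaf K2_ok TH_l2378 _)))
                   (CovZ.n1 (-48006, 42390) (by decide +kernel)
                    (CovZ.leaf K2_ok TH_l2379 _)
                    (CovZ.leaf K2_ok TH_l2380 _)))
                  (CovZ.n1 (-47952, 42372) (by decide +kernel)
                   (CovZ.n2 (-47970, 42354) (by decide +kernel)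
                    (CovZ.leaf K2_ok TH_l2381 _)
                    (CovZ.leaf K2_ok TH_l2382 _))
                   (CovZ.n1 (-47970, 42390) (by decide +kernel)
                    (CovZ.n2 (-47952, 42390) (by decide +kernel)
                     (CovZ.leaf K2_ok TH_l2383 _)
                     (CovZ.leaf K2_ok TH_l2384 _))
                    (CovZ.leaf K2_ok TH_l2385 _))))
                 (CovZ.subM 54635900407021914685754702394817052758449159046230664986755200 (by decide +kernel)
                  (CovZ.n1 (-47988, 42444) (by decide +kernel)
                   (CovZ.badM (by decide +kernel))
                   (CovZ.n1 (-47988, 42408) (by decide +kernel)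
                    (CovZ.n2 (-48006, 42426) (by decide +kernel)
                     (CovZ.n2 (-47988, 42426) (by decide +kernel)
                      (CovZ.leaf K2_ok TH_l2386 _)
                      (CovZ.badM (by decide +kernel)))
                     (CovZ.n1 (-48006, 42408) (by decide +kernel)
                      (CovZ.leaf K2_ok TH_l2387 _)
                      (CovZ.leaf K2_ok TH_l2388 _)))
                    (CovZ.subM 3213882218500144014639363267289415892173602609545089810169856 (by decide +kernel)
                     (CovZ.n1 (-47970, 42426) (by decide +kernel)
                      (CovZ.n2 (-47970, 42408) (by decide +kernel)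
                       (CovZ.n2 (-47979, 42417) (by decide +kernel)
                        (CovZ.badM (by decide +kernel))
                        (CovZ.leaf K2_ok TH_l2389 _))
                       (CovZ.badM (by decide +kernel)))
                      (CovZ.n1 (-47988, 42426) (by decide +kernel)
                       (CovZ.badM (by decide +kernel))
                       (CovZ.n1 (-47979, 42417) (by decide +kernel)
                        (CovZ.leaf K2_ok TH_l2390 _)
                        (CovZ.badM (by decide +kernel)))))))))))
               (CovZ.n1 (-48024, 42336) (by decide +kernel)
                (CovZ.n2 (-48060, 42372) (by decide +kernel)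
                 (CovZ.n2 (-48024, 42372) (by decide +kernel)
                  (CovZ.leaf K2_ok TH_l2391 _)
                  (CovZ.n1 (-48042, 42390) (by decide +kernel)
                   (CovZ.leaf K2_ok TH_l2392 _)
                   (CovZ.leaf K2_ok TH_l2393 _)))
                 (CovZ.leaf K2_ok TH_l2394 _))
                (CovZ.subM 56345284245692271601552144933318886932786896787331045254505440 (by decide +kernel)
                 (CovZ.n1 (-47988, 42372) (by decide +kernel)
                  (CovZ.n2 (-47988, 42336) (by decide +kernel)
                   (CovZ.leaf K2_ok TH_l2395 _)
                   (CovZ.n1 (-47970, 42354) (by decide +kernel)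
                    (CovZ.leaf K2_ok TH_l2396 _)
                    (CovZ.leaf K2_ok TH_l2397 _)))
                  (CovZ.n1 (-48024, 42372) (by decide +kernel)
                   (CovZ.leaf K2_ok TH_l2398 _)
                   (CovZ.leaf K2_ok TH_l2399 _))))))
              (CovZ.subM 56345234439587193460164248286999939728526403470415860147945696 (by decide +kernel)
               (CovZ.n1 (-47880, 42408) (by decide +kernel)
                (CovZ.n2 (-47880, 42336) (by decide +kernel)
                 (CovZ.n2 (-47916, 42372) (by decide +kernel)
                  (CovZ.subM 56244406960466981198543194255299938883213460196854989244596352 (by decide +kernel)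
                   (CovZ.n2 (-47880, 42372) (by decide +kernel)
                    (CovZ.n2 (-47898, 42354) (by decide +kernel)
                     (CovZ.leaf K2_ok TH_l2400 _)
                     (CovZ.leaf K2_ok TH_l2401 _))
                    (CovZ.n1 (-47898, 42390) (by decide +kernel)
                     (CovZ.badM (by decide +kernel))
                     (CovZ.n1 (-47898, 42372) (by decide +kernel)
                      (CovZ.leaf K2_ok TH_l2402 _)
                      (CovZ.badM (by decide +kernel))))))
                  (CovZ.n1 (-47916, 42336) (by decide +kernel)
                   (CovZ.n2 (-47934, 42354) (by decide +kernel)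
                    (CovZ.leaf K2_ok TH_l2403 _)
                    (CovZ.leaf K2_ok TH_l2404 _))
                   (CovZ.n1 (-47898, 42354) (by decide +kernel)
                    (CovZ.leaf K2_ok TH_l2405 _)
                    (CovZ.leaf K2_ok TH_l2406 _))))
                 (CovZ.subM 56244406960466981198543194255299938883213457891011980030902400 (by decide +kernel)
                  (CovZ.n1 (-47844, 42372) (by decide +kernel)
                   (CovZ.n2 (-47844, 42336) (by decide +kernel)
                    (CovZ.n2 (-47862, 42354) (by decide +kernel)
                     (CovZ.n2 (-47844, 42354) (by decide +kernel)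
                      (CovZ.leaf K2_ok TH_l2407 _)
                      (CovZ.badM (by decide +kernel)))
                     (CovZ.leaf K2_ok TH_l2408 _))
                    (CovZ.subM 54635893504805669368426711139599528485754901788614956400246784 (by decide +kernel)
                     (CovZ.n1 (-47826, 42354) (by decide +kernel)
                      (CovZ.n2 (-47826, 42336) (by decide +kernel)
                       (CovZ.leaf K2_ok TH_l2409 _)
                       (CovZ.badM (by decide +kernel)))
                      (CovZ.n1 (-47844, 42354) (by decide +kernel)
                       (CovZ.badM (by decide +kernel))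
                       (CovZ.n1 (-47835, 42345) (by decide +kernel)
                        (CovZ.leaf K2_ok TH_l2410 _)
                        (CovZ.badM (by decide +kernel)))))))
                   (CovZ.n1 (-47880, 42372) (by decide +kernel)
                    (CovZ.badM (by decide +kernel))
                    (CovZ.n1 (-47862, 42354) (by decide +kernel)
                     (CovZ.n2 (-47880, 42354) (by decide +kernel)
                      (CovZ.leaf K2_ok TH_l2411 _)
                      (CovZ.leaf K2_ok TH_l2412 _))
                     (CovZ.badM (by decide +kernel)))))))
                (CovZ.n1 (-47952, 42408) (by decide +kernel)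
                 (CovZ.badM (by decide +kernel))
                 (CovZ.n1 (-47916, 42372) (by decide +kernel)
                  (CovZ.n2 (-47952, 42372) (by decide +kernel)
                   (CovZ.n2 (-47934, 42390) (by decide +kernel)
                    (CovZ.leaf K2_ok TH_l2413 _)
                    (CovZ.n1 (-47952, 42390) (by decide +kernel)
                     (CovZ.leaf K2_ok TH_l2414 _)
                     (CovZ.leaf K2_ok TH_l2415 _)))
                   (CovZ.n1 (-47934, 42354) (by decide +kernel)
                    (CovZ.leaf K2_ok TH_l2416 _)
                    (CovZ.leaf K2_ok TH_l2417 _)))
                  (CovZ.subM 3213876088517980551083929833901307290936868134588601075761152 (by decide +kernel)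
                   (CovZ.n1 (-47916, 42408) (by decide +kernel)
                    (CovZ.n2 (-47898, 42390) (by decide +kernel)
                     (CovZ.n2 (-47916, 42390) (by decide +kernel)
                      (CovZ.badM (by decide +kernel))
                      (CovZ.leaf K2_ok TH_l2418 _))
                     (CovZ.badM (by decide +kernel)))
                    (CovZ.n1 (-47934, 42390) (by decide +kernel)
                     (CovZ.badM (by decide +kernel))
                     (CovZ.n1 (-47916, 42390) (by decide +kernel)
                      (CovZ.leaf K2_ok TH_l2419 _)
                      (CovZ.badM (by decide +kernel))))))))))))))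

theorem TH_u33 : CovZ TH_M (toL (selN TH_LN 159189319078397724320795502251130398146230071717438611119450091)) [0, 7, 6, 1] (-46080, 41472) (-47232, 42624) (-48384, 41472) :=
    (CovZ.n2 (-47232, 41472) (by decide +kernel)
        (CovZ.n2 (-47808, 42048) (by decide +kernel)
         (CovZ.n2 (-47232, 42048) (by decide +kernel)
          (CovZ.n2 (-47520, 41760) (by decide +kernel)
           (CovZ.n2 (-47520, 42048) (by decide +kernel)
            (CovZ.subM 53131399728448817726826349358258120060110024008954507189297984 (by decide +kernel)
             (CovZ.n2 (-47376, 41904) (by decide +kernel)
              (CovZ.n2 (-47520, 41904) (by decide +kernel)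
               (CovZ.n2 (-47448, 41976) (by decide +kernel)
                (CovZ.leaf K2_ok TH_l1874 _)
                (CovZ.leaf K2_ok TH_l1875 _))
               (CovZ.leaf K2_ok TH_l1876 _))
              (CovZ.n1 (-47376, 42048) (by decide +kernel)
               (CovZ.n2 (-47304, 41976) (by decide +kernel)
                (CovZ.n2 (-47376, 41976) (by decide +kernel)
                 (CovZ.n2 (-47340, 42012) (by decide +kernel)
                  (CovZ.leaf K2_ok TH_l1877 _)
                  (CovZ.leaf K2_ok TH_l1878 _))
                 (CovZ.leaf K2_ok TH_l1879 _))
                (CovZ.n1 (-47304, 42048) (by decide +kernel)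
                 (CovZ.n2 (-47268, 42012) (by decide +kernel)
                  (CovZ.leaf K2_ok TH_l1880 _)
                  (CovZ.n1 (-47268, 42048) (by decide +kernel)
                   (CovZ.n2 (-47250, 42030) (by decide +kernel)
                    (CovZ.leaf K2_ok TH_l1881 _)
                    (CovZ.leaf K2_ok TH_l1882 _))
                   (CovZ.leaf K2_ok TH_l1883 _)))
                 (CovZ.n1 (-47340, 42012) (by decide +kernel)
                  (CovZ.leaf K2_ok TH_l1884 _)
                  (CovZ.leaf K2_ok TH_l1885 _))))
               (CovZ.n1 (-47448, 41976) (by decide +kernel)
                (CovZ.n2 (-47448, 42048) (by decide +kernel)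
                 (CovZ.leaf K2_ok TH_l1886 _)
                 (CovZ.leaf K2_ok TH_l1887 _))
                (CovZ.n1 (-47376, 41976) (by decide +kernel)
                 (CovZ.leaf K2_ok TH_l1888 _)
                 (CovZ.leaf K2_ok TH_l1889 _))))))
            (CovZ.n1 (-47664, 41904) (by decide +kernel)
             (CovZ.n2 (-47664, 42048) (by decide +kernel)
              (CovZ.n2 (-47592, 41976) (by decide +kernel)
               (CovZ.leaf K2_ok TH_l1890 _)
               (CovZ.leaf K2_ok TH_l1891 _))
              (CovZ.leaf K2_ok TH_l1892 _))
             (CovZ.n1 (-47520, 41904) (by decide +kernel)
              (CovZ.leaf K2_ok TH_l1893 _)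
              (CovZ.n1 (-47592, 41976) (by decide +kernel)
               (CovZ.leaf K2_ok TH_l1894 _)
               (CovZ.leaf K2_ok TH_l1895 _)))))
           (CovZ.subM 53131399728448817726826349358258120060110024006702707375612736 (by decide +kernel)
            (CovZ.n1 (-47232, 41760) (by decide +kernel)
             (CovZ.n2 (-47376, 41616) (by decide +kernel)
              (CovZ.n2 (-47376, 41760) (by decide +kernel)
               (CovZ.leaf K2_ok TH_l1896 _)
               (CovZ.leaf K2_ok TH_l1897 _))
              (CovZ.leaf K2_ok TH_l1898 _))
             (CovZ.n1 (-47376, 41904) (by decide +kernel)
              (CovZ.n2 (-47232, 41904) (by decide +kernel)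
               (CovZ.n2 (-47304, 41832) (by decide +kernel)
                (CovZ.leaf K2_ok TH_l1899 _)
                (CovZ.leaf K2_ok TH_l1900 _))
               (CovZ.n1 (-47304, 41976) (by decide +kernel)
                (CovZ.n2 (-47232, 41976) (by decide +kernel)
                 (CovZ.leaf K2_ok TH_l1901 _)
                 (CovZ.n1 (-47268, 42012) (by decide +kernel)
                  (CovZ.n2 (-47232, 42012) (by decide +kernel)
                   (CovZ.leaf K2_ok TH_l1902 _)
                   (CovZ.n1 (-47250, 42030) (by decide +kernel)
                    (CovZ.leaf K2_ok TH_l1903 _)
                    (CovZ.leaf K2_ok TH_l1904 _)))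
                  (CovZ.leaf K2_ok TH_l1905 _)))
                (CovZ.n1 (-47304, 41904) (by decide +kernel)
                 (CovZ.leaf K2_ok TH_l1906 _)
                 (CovZ.leaf K2_ok TH_l1907 _))))
              (CovZ.n1 (-47376, 41760) (by decide +kernel)
               (CovZ.leaf K2_ok TH_l1908 _)
               (CovZ.n1 (-47304, 41832) (by decide +kernel)
                (CovZ.leaf K2_ok TH_l1909 _)
                (CovZ.leaf K2_ok TH_l1910 _)))))))
          (CovZ.subM 56345283479444502607354570651587603770445096837332366206182240 (by decide +kernel)
           (CovZ.n1 (-47520, 42336) (by decide +kernel)
            (CovZ.subM 1569275433846670190958947355801916608752567030004081229824 (by decide +kernel)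
             (CovZ.n2 (-47232, 42336) (by decide +kernel)
              (CovZ.n2 (-47376, 42192) (by decide +kernel)
               (CovZ.badM (by decide +kernel))
               (CovZ.n1 (-47232, 42192) (by decide +kernel)
                (CovZ.n2 (-47304, 42120) (by decide +kernel)
                 (CovZ.badM (by decide +kernel))
                 (CovZ.n1 (-47232, 42120) (by decide +kernel)
                  (CovZ.n2 (-47268, 42084) (by decide +kernel)
                   (CovZ.badM (by decide +kernel))
                   (CovZ.badM (by decide +kernel)))
                  (CovZ.badM (by decide +kernel))))
                (CovZ.badM (by decide +kernel))))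
              (CovZ.badM (by decide +kernel))))
            (CovZ.n1 (-47520, 42048) (by decide +kernel)
             TH_u25
             TH_u26))))
         (CovZ.n1 (-47808, 41472) (by decide +kernel)
          (CovZ.n2 (-48096, 41760) (by decide +kernel)
           (CovZ.n2 (-47808, 41760) (by decide +kernel)
            (CovZ.leaf K2_ok TH_l2020 _)
            (CovZ.n1 (-47952, 41904) (by decide +kernel)
             (CovZ.leaf K2_ok TH_l2021 _)
             (CovZ.leaf K2_ok TH_l2022 _)))
           (CovZ.n1 (-48096, 41472) (by decide +kernel)
            (CovZ.n2 (-48240, 41616) (by decide +kernel)
             (CovZ.leaf K2_ok TH_l2023 _)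
             (CovZ.leaf K2_ok TH_l2024 _))
            (CovZ.n1 (-47952, 41616) (by decide +kernel)
             (CovZ.leaf K2_ok TH_l2025 _)
             (CovZ.leaf K2_ok TH_l2026 _))))
          (CovZ.n1 (-47520, 41760) (by decide +kernel)
           (CovZ.n2 (-47520, 41472) (by decide +kernel)
            (CovZ.n2 (-47664, 41616) (by decide +kernel)
             (CovZ.leaf K2_ok TH_l2027 _)
             (CovZ.leaf K2_ok TH_l2028 _))
            (CovZ.n1 (-47376, 41616) (by decide +kernel)
             (CovZ.leaf K2_ok TH_l2029 _)
             (CovZ.leaf K2_ok TH_l2030 _)))
           (CovZ.n1 (-47808, 41760) (by decide +kernel)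
            (CovZ.n2 (-47664, 41904) (by decide +kernel)
             (CovZ.leaf K2_ok TH_l2031 _)
             (CovZ.n1 (-47808, 41904) (by decide +kernel)
              (CovZ.leaf K2_ok TH_l2032 _)
              (CovZ.leaf K2_ok TH_l2033 _)))
            (CovZ.n1 (-47664, 41616) (by decide +kernel)
             (CovZ.leaf K2_ok TH_l2034 _)
             (CovZ.leaf K2_ok TH_l2035 _))))))
        (CovZ.subM 53131399728448817726826349358258120060110019397268488761910080 (by decide +kernel)
         (CovZ.n1 (-46656, 42048) (by decide +kernel)
          TH_u27
          TH_u28)))

theorem TH_u34 : CovZ TH_M (toL (selN TH_LN 159189319078397724320795502251130398146230071717438611119450091)) [0, 7, 6, 1] (-47232, 42624) (-48384, 43776) (-48384, 41472) :=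
    (CovZ.n1 (-48384, 42624) (by decide +kernel)
        (CovZ.badM (by decide +kernel))
        (CovZ.n1 (-47808, 42048) (by decide +kernel)
         (CovZ.n2 (-48384, 42048) (by decide +kernel)
          (CovZ.n2 (-48096, 42336) (by decide +kernel)
           (CovZ.n2 (-48096, 42048) (by decide +kernel)
            (CovZ.n2 (-48240, 42192) (by decide +kernel)
             (CovZ.n2 (-48096, 42192) (by decide +kernel)
              (CovZ.leaf K2_ok TH_l2133 _)
              (CovZ.n1 (-48168, 42264) (by decide +kernel)
               (CovZ.n2 (-48096, 42264) (by decide +kernel)
                (CovZ.leaf K2_ok TH_l2134 _)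
                (CovZ.leaf K2_ok TH_l2135 _))
               (CovZ.leaf K2_ok TH_l2136 _)))
             (CovZ.n1 (-48240, 42048) (by decide +kernel)
              (CovZ.leaf K2_ok TH_l2137 _)
              (CovZ.leaf K2_ok TH_l2138 _)))
            (CovZ.n1 (-47952, 42192) (by decide +kernel)
             (CovZ.n2 (-47952, 42048) (by decide +kernel)
              (CovZ.n2 (-48024, 42120) (by decide +kernel)
               (CovZ.leaf K2_ok TH_l2139 _)
               (CovZ.leaf K2_ok TH_l2140 _))
              (CovZ.n1 (-47880, 42120) (by decide +kernel)
               (CovZ.leaf K2_ok TH_l2141 _)
               (CovZ.leaf K2_ok TH_l2142 _)))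
             (CovZ.n1 (-48096, 42192) (by decide +kernel)
              (CovZ.n2 (-48024, 42264) (by decide +kernel)
               (CovZ.leaf K2_ok TH_l2143 _)
               (CovZ.n1 (-48096, 42264) (by decide +kernel)
                (CovZ.leaf K2_ok TH_l2144 _)
                (CovZ.leaf K2_ok TH_l2145 _)))
              (CovZ.leaf K2_ok TH_l2146 _))))
           (CovZ.n1 (-48384, 42336) (by decide +kernel)
            (CovZ.n2 (-48240, 42480) (by decide +kernel)
             (CovZ.n2 (-48240, 42336) (by decide +kernel)
              (CovZ.n2 (-48312, 42408) (by decide +kernel)
               (CovZ.n2 (-48240, 42408) (by decide +kernel)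
                (CovZ.leaf K2_ok TH_l2147 _)
                (CovZ.n1 (-48276, 42444) (by decide +kernel)
                 (CovZ.leaf K2_ok TH_l2148 _)
                 (CovZ.leaf K2_ok TH_l2149 _)))
               (CovZ.n1 (-48312, 42336) (by decide +kernel)
                (CovZ.leaf K2_ok TH_l2150 _)
                (CovZ.leaf K2_ok TH_l2151 _)))
              (CovZ.n1 (-48168, 42408) (by decide +kernel)
               (CovZ.n2 (-48168, 42336) (by decide +kernel)
                (CovZ.leaf K2_ok TH_l2152 _)
                (CovZ.leaf K2_ok TH_l2153 _))
               (CovZ.n1 (-48240, 42408) (by decide +kernel)
                (CovZ.n2 (-48204, 42444) (by decide +kernel)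
                 (CovZ.leaf K2_ok TH_l2154 _)
                 (CovZ.leaf K2_ok TH_l2155 _))
                (CovZ.leaf K2_ok TH_l2156 _))))
             (CovZ.n1 (-48384, 42480) (by decide +kernel)
              (CovZ.n2 (-48312, 42552) (by decide +kernel)
               (CovZ.n2 (-48312, 42480) (by decide +kernel)
                (CovZ.n2 (-48348, 42516) (by decide +kernel)
                 (CovZ.n2 (-48312, 42516) (by decide +kernel)
                  (CovZ.leaf K2_ok TH_l2157 _)
                  (CovZ.n1 (-48330, 42534) (by decide +kernel)
                   (CovZ.leaf K2_ok TH_l2158 _)
                   (CovZ.leaf K2_ok TH_l2159 _)))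
                 (CovZ.leaf K2_ok TH_l2160 _))
                (CovZ.subM 53131408157187421729241110262640446130021688146121792239969249 (by decide +kernel)
                 (CovZ.n1 (-48276, 42516) (by decide +kernel)
                  (CovZ.n2 (-48276, 42480) (by decide +kernel)
                   (CovZ.n2 (-48294, 42498) (by decide +kernel)
                    (CovZ.leaf K2_ok TH_l2161 _)
                    (CovZ.leaf K2_ok TH_l2162 _))
                   (CovZ.n1 (-48258, 42498) (by decide +kernel)
                    (CovZ.leaf K2_ok TH_l2163 _)
                    (CovZ.leaf K2_ok TH_l2164 _)))
                  (CovZ.n1 (-48312, 42516) (by decide +kernel)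
                   (CovZ.n2 (-48294, 42534) (by decide +kernel)
                    (CovZ.leaf K2_ok TH_l2165 _)
                    (CovZ.leaf K2_ok TH_l2166 _))
                   (CovZ.n1 (-48294, 42498) (by decide +kernel)
                    (CovZ.leaf K2_ok TH_l2167 _)
                    (CovZ.leaf K2_ok TH_l2168 _))))))
               (CovZ.n1 (-48384, 42552) (by decide +kernel)
                (CovZ.subM 51524463982933114475407736610637200557966432610479013667800201 (by decide +kernel)
                 (CovZ.n2 (-48348, 42588) (by decide +kernel)
                  (CovZ.n2 (-48348, 42552) (by decide +kernel)
                   (CovZ.n2 (-48366, 42570) (by decide +kernel)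
                    (CovZ.leaf K2_ok TH_l2169 _)
                    (CovZ.leaf K2_ok TH_l2170 _))
                   (CovZ.n1 (-48330, 42570) (by decide +kernel)
                    (CovZ.leaf K2_ok TH_l2171 _)
                    (CovZ.leaf K2_ok TH_l2172 _)))
                  (CovZ.n1 (-48384, 42588) (by decide +kernel)
                   (CovZ.subM 8 (by decide +kernel)
                    (CovZ.n2 (-48366, 42606) (by decide +kernel)
                     (CovZ.n2 (-48366, 42588) (by decide +kernel)
                      (CovZ.leaf K2_ok TH_l2173 _)
                      (CovZ.badM (by decide +kernel)))
                     (CovZ.n1 (-48384, 42606) (by decide +kernel)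
                      (CovZ.badM (by decide +kernel))
                      (CovZ.n1 (-48375, 42597) (by decide +kernel)
                       (CovZ.leaf K2_ok TH_l2174 _)
                       (CovZ.badM (by decide +kernel))))))
                   (CovZ.n1 (-48366, 42570) (by decide +kernel)
                    (CovZ.leaf K2_ok TH_l2175 _)
                    (CovZ.leaf K2_ok TH_l2176 _)))))
                (CovZ.n1 (-48348, 42516) (by decide +kernel)
                 (CovZ.leaf K2_ok TH_l2177 _)
                 (CovZ.n1 (-48348, 42552) (by decide +kernel)
                  (CovZ.n2 (-48330, 42534) (by decide +kernel)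
                   (CovZ.leaf K2_ok TH_l2178 _)
                   (CovZ.leaf K2_ok TH_l2179 _))
                  (CovZ.n1 (-48366, 42534) (by decide +kernel)
                   (CovZ.leaf K2_ok TH_l2180 _)
                   (CovZ.leaf K2_ok TH_l2181 _))))))
              (CovZ.n1 (-48312, 42408) (by decide +kernel)
               (CovZ.leaf K2_ok TH_l2182 _)
               (CovZ.n1 (-48312, 42480) (by decide +kernel)
                (CovZ.n2 (-48276, 42444) (by decide +kernel)
                 (CovZ.leaf K2_ok TH_l2183 _)
                 (CovZ.n1 (-48276, 42480) (by decide +kernel)
                  (CovZ.leaf K2_ok TH_l2184 _)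
                  (CovZ.leaf K2_ok TH_l2185 _)))
                (CovZ.n1 (-48348, 42444) (by decide +kernel)
                 (CovZ.leaf K2_ok TH_l2186 _)
                 (CovZ.leaf K2_ok TH_l2187 _))))))
            (CovZ.n1 (-48240, 42192) (by decide +kernel)
             (CovZ.n2 (-48384, 42192) (by decide +kernel)
              (CovZ.leaf K2_ok TH_l2188 _)
              (CovZ.leaf K2_ok TH_l2189 _))
             (CovZ.n1 (-48240, 42336) (by decide +kernel)
              (CovZ.n2 (-48168, 42264) (by decide +kernel)
               (CovZ.leaf K2_ok TH_l2190 _)
               (CovZ.n1 (-48168, 42336) (by decide +kernel)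
                (CovZ.leaf K2_ok TH_l2191 _)
                (CovZ.leaf K2_ok TH_l2192 _)))
              (CovZ.leaf K2_ok TH_l2193 _)))))
          (CovZ.n1 (-48096, 41760) (by decide +kernel)
           (CovZ.n2 (-48384, 41760) (by decide +kernel)
            (CovZ.n2 (-48240, 41904) (by decide +kernel)
             (CovZ.leaf K2_ok TH_l2194 _)
             (CovZ.leaf K2_ok TH_l2195 _))
            (CovZ.n1 (-48240, 41616) (by decide +kernel)
             (CovZ.leaf K2_ok TH_l2196 _)
             (CovZ.leaf K2_ok TH_l2197 _)))
           (CovZ.n1 (-48096, 42048) (by decide +kernel)
            (CovZ.n2 (-47952, 41904) (by decide +kernel)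
             (CovZ.leaf K2_ok TH_l2198 _)
             (CovZ.n1 (-47952, 42048) (by decide +kernel)
              (CovZ.leaf K2_ok TH_l2199 _)
              (CovZ.leaf K2_ok TH_l2200 _)))
            (CovZ.n1 (-48240, 41904) (by decide +kernel)
             (CovZ.leaf K2_ok TH_l2201 _)
             (CovZ.leaf K2_ok TH_l2202 _)))))
         (CovZ.n1 (-47808, 42624) (by decide +kernel)
          TH_u31
          TH_u32)))

theorem TH_u35 : CovZ TH_M (toL (selN TH_LN 677431182682061165382893530819603915171201236774994076065065374564351)) [0, 7, 6, 1] (-46080, 46080) (-48384, 43776) (-46080, 41472) :=
    (CovZ.subM 1570041681618173571157671616721613617008760490417065035241 (by decide +kernel)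
     (CovZ.n2 (-46080, 43776) (by decide +kernel)
      (CovZ.n2 (-47232, 42624) (by decide +kernel)
       (CovZ.badM (by decide +kernel))
       (CovZ.n1 (-46080, 42624) (by decide +kernel)
        (CovZ.n2 (-46656, 42048) (by decide +kernel)
         (CovZ.badM (by decide +kernel))
         (CovZ.badM (by decide +kernel)))
        (CovZ.badM (by decide +kernel))))
      (CovZ.subM 356811923181682267432591329812284808399683584 (by decide +kernel)
       (CovZ.n1 (-47232, 44928) (by decide +kernel)
        (CovZ.n2 (-46080, 44928) (by decide +kernel)
         (CovZ.badM (by decide +kernel))
         (CovZ.n1 (-46656, 45504) (by decide +kernel)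
          (CovZ.n2 (-46080, 45504) (by decide +kernel)
           (CovZ.badM (by decide +kernel))
           (CovZ.n1 (-46368, 45792) (by decide +kernel)
            (CovZ.n2 (-46080, 45792) (by decide +kernel)
             (CovZ.n2 (-46224, 45648) (by decide +kernel)
              (CovZ.n2 (-46224, 45792) (by decide +kernel)
               (CovZ.n2 (-46152, 45720) (by decide +kernel)
                (CovZ.n2 (-46224, 45720) (by decide +kernel)
                 (CovZ.n2 (-46188, 45756) (by decide +kernel)
                  (CovZ.badM (by decide +kernel))
                  (CovZ.leaf K2_ok TH_l1371 _))
                 (CovZ.badM (by decide +kernel)))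
                (CovZ.n1 (-46152, 45792) (by decide +kernel)
                 (CovZ.badM (by decide +kernel))
                 (CovZ.n1 (-46188, 45756) (by decide +kernel)
                  (CovZ.n2 (-46188, 45792) (by decide +kernel)
                   (CovZ.badM (by decide +kernel))
                   (CovZ.leaf K2_ok TH_l1372 _))
                  (CovZ.badM (by decide +kernel)))))
               (CovZ.n1 (-46296, 45720) (by decide +kernel)
                (CovZ.n2 (-46296, 45792) (by decide +kernel)
                 (CovZ.n2 (-46260, 45756) (by decide +kernel)
                  (CovZ.leaf K2_ok TH_l1373 _)
                  (CovZ.n1 (-46260, 45792) (by decide +kernel)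
                   (CovZ.leaf K2_ok TH_l1374 _)
                   (CovZ.leaf K2_ok TH_l1375 _)))
                 (CovZ.n1 (-46332, 45756) (by decide +kernel)
                  (CovZ.n2 (-46332, 45792) (by decide +kernel)
                   (CovZ.leaf K2_ok TH_l1376 _)
                   (CovZ.leaf K2_ok TH_l1377 _))
                  (CovZ.leaf K2_ok TH_l1378 _)))
                (CovZ.n1 (-46224, 45720) (by decide +kernel)
                 (CovZ.badM (by decide +kernel))
                 (CovZ.n1 (-46260, 45756) (by decide +kernel)
                  (CovZ.leaf K2_ok TH_l1379 _)
                  (CovZ.badM (by decide +kernel))))))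
              (CovZ.badM (by decide +kernel)))
             (CovZ.n1 (-46224, 45936) (by decide +kernel)
              (CovZ.n2 (-46080, 45936) (by decide +kernel)
               (CovZ.n2 (-46152, 45864) (by decide +kernel)
                (CovZ.n2 (-46152, 45936) (by decide +kernel)
                 (CovZ.n2 (-46116, 45900) (by decide +kernel)
                  (CovZ.leaf K2_ok TH_l1380 _)
                  (CovZ.leaf K2_ok TH_l1381 _))
                 (CovZ.n1 (-46188, 45900) (by decide +kernel)
                  (CovZ.leaf K2_ok TH_l1382 _)
                  (CovZ.leaf K2_ok TH_l1383 _)))
                (CovZ.n1 (-46080, 45864) (by decide +kernel)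
                 (CovZ.n2 (-46116, 45828) (by decide +kernel)
                  (CovZ.leaf K2_ok TH_l1384 _)
                  (CovZ.leaf K2_ok TH_l1385 _))
                 (CovZ.n1 (-46116, 45900) (by decide +kernel)
                  (CovZ.leaf K2_ok TH_l1386 _)
                  (CovZ.leaf K2_ok TH_l1387 _))))
               (CovZ.n1 (-46152, 46008) (by decide +kernel)
                (CovZ.n2 (-46080, 46008) (by decide +kernel)
                 (CovZ.n2 (-46116, 45972) (by decide +kernel)
                  (CovZ.leaf K2_ok TH_l1388 _)
                  (CovZ.leaf K2_ok TH_l1389 _))
                 (CovZ.leaf K2_ok TH_l1390 _))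
                (CovZ.n1 (-46152, 45936) (by decide +kernel)
                 (CovZ.n2 (-46188, 45972) (by decide +kernel)
                  (CovZ.leaf K2_ok TH_l1391 _)
                  (CovZ.leaf K2_ok TH_l1392 _))
                 (CovZ.n1 (-46116, 45972) (by decide +kernel)
                  (CovZ.leaf K2_ok TH_l1393 _)
                  (CovZ.leaf K2_ok TH_l1394 _)))))
              (CovZ.n1 (-46224, 45792) (by decide +kernel)
               (CovZ.n2 (-46296, 45864) (by decide +kernel)
                (CovZ.n2 (-46224, 45864) (by decide +kernel)
                 (CovZ.n2 (-46260, 45828) (by decide +kernel)
                  (CovZ.leaf K2_ok TH_l1395 _)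
                  (CovZ.leaf K2_ok TH_l1396 _))
                 (CovZ.n1 (-46260, 45900) (by decide +kernel)
                  (CovZ.leaf K2_ok TH_l1397 _)
                  (CovZ.leaf K2_ok TH_l1398 _)))
                (CovZ.n1 (-46296, 45792) (by decide +kernel)
                 (CovZ.n2 (-46332, 45828) (by decide +kernel)
                  (CovZ.leaf K2_ok TH_l1399 _)
                  (CovZ.leaf K2_ok TH_l1400 _))
                 (CovZ.n1 (-46260, 45828) (by decide +kernel)
                  (CovZ.leaf K2_ok TH_l1401 _)
                  (CovZ.leaf K2_ok TH_l1402 _))))
               (CovZ.n1 (-46152, 45864) (by decide +kernel)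
                (CovZ.n2 (-46152, 45792) (by decide +kernel)
                 (CovZ.n2 (-46188, 45828) (by decide +kernel)
                  (CovZ.leaf K2_ok TH_l1403 _)
                  (CovZ.leaf K2_ok TH_l1404 _))
                 (CovZ.n1 (-46116, 45828) (by decide +kernel)
                  (CovZ.badM (by decide +kernel))
                  (CovZ.leaf K2_ok TH_l1405 _)))
                (CovZ.n1 (-46224, 45864) (by decide +kernel)
                 (CovZ.n2 (-46188, 45900) (by decide +kernel)
                  (CovZ.leaf K2_ok TH_l1406 _)
                  (CovZ.leaf K2_ok TH_l1407 _))
                 (CovZ.n1 (-46188, 45828) (by decide +kernel)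
                  (CovZ.leaf K2_ok TH_l1408 _)
                  (CovZ.leaf K2_ok TH_l1409 _)))))))
            (CovZ.n1 (-46368, 45504) (by decide +kernel)
             (CovZ.n2 (-46512, 45648) (by decide +kernel)
              (CovZ.n2 (-46368, 45648) (by decide +kernel)
               (CovZ.n2 (-46440, 45576) (by decide +kernel)
                (CovZ.n2 (-46440, 45648) (by decide +kernel)
                 (CovZ.badM (by decide +kernel))
                 (CovZ.n1 (-46476, 45612) (by decide +kernel)
                  (CovZ.n2 (-46476, 45648) (by decide +kernel)
                   (CovZ.leaf K2_ok TH_l1410 _)
                   (CovZ.leaf K2_ok TH_l1411 _))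
                  (CovZ.badM (by decide +kernel))))
                (CovZ.badM (by decide +kernel)))
               (CovZ.n1 (-46440, 45720) (by decide +kernel)
                (CovZ.n2 (-46368, 45720) (by decide +kernel)
                 (CovZ.n2 (-46404, 45684) (by decide +kernel)
                  (CovZ.leaf K2_ok TH_l1412 _)
                  (CovZ.leaf K2_ok TH_l1413 _))
                 (CovZ.n1 (-46404, 45756) (by decide +kernel)
                  (CovZ.leaf K2_ok TH_l1414 _)
                  (CovZ.leaf K2_ok TH_l1415 _)))
                (CovZ.n1 (-46440, 45648) (by decide +kernel)
                 (CovZ.n2 (-46476, 45684) (by decide +kernel)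
                  (CovZ.leaf K2_ok TH_l1416 _)
                  (CovZ.leaf K2_ok TH_l1417 _))
                 (CovZ.n1 (-46404, 45684) (by decide +kernel)
                  (CovZ.n2 (-46404, 45648) (by decide +kernel)
                   (CovZ.leaf K2_ok TH_l1418 _)
                   (CovZ.leaf K2_ok TH_l1419 _))
                  (CovZ.leaf K2_ok TH_l1420 _)))))
              (CovZ.n1 (-46512, 45504) (by decide +kernel)
               (CovZ.n2 (-46584, 45576) (by decide +kernel)
                (CovZ.n2 (-46512, 45576) (by decide +kernel)
                 (CovZ.n2 (-46548, 45540) (by decide +kernel)
                  (CovZ.n2 (-46548, 45576) (by decide +kernel)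
                   (CovZ.badM (by decide +kernel))
                   (CovZ.leaf K2_ok TH_l1421 _))
                  (CovZ.badM (by decide +kernel)))
                 (CovZ.n1 (-46548, 45612) (by decide +kernel)
                  (CovZ.leaf K2_ok TH_l1422 _)
                  (CovZ.n1 (-46548, 45576) (by decide +kernel)
                   (CovZ.leaf K2_ok TH_l1423 _)
                   (CovZ.leaf K2_ok TH_l1424 _))))
                (CovZ.n1 (-46584, 45504) (by decide +kernel)
                 (CovZ.n2 (-46620, 45540) (by decide +kernel)
                  (CovZ.leaf K2_ok TH_l1425 _)
                  (CovZ.badM (by decide +kernel)))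
                 (CovZ.n1 (-46548, 45540) (by decide +kernel)
                  (CovZ.badM (by decide +kernel))
                  (CovZ.leaf K2_ok TH_l1426 _))))
               (CovZ.n1 (-46440, 45576) (by decide +kernel)
                (CovZ.badM (by decide +kernel))
                (CovZ.n1 (-46512, 45576) (by decide +kernel)
                 (CovZ.n2 (-46476, 45612) (by decide +kernel)
                  (CovZ.badM (by decide +kernel))
                  (CovZ.leaf K2_ok TH_l1427 _))
                 (CovZ.badM (by decide +kernel))))))
             (CovZ.n1 (-46224, 45648) (by decide +kernel)
              (CovZ.badM (by decide +kernel))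
              (CovZ.n1 (-46368, 45648) (by decide +kernel)
               (CovZ.n2 (-46296, 45720) (by decide +kernel)
                (CovZ.badM (by decide +kernel))
                (CovZ.n1 (-46368, 45720) (by decide +kernel)
                 (CovZ.n2 (-46332, 45756) (by decide +kernel)
                  (CovZ.leaf K2_ok TH_l1428 _)
                  (CovZ.leaf K2_ok TH_l1429 _))
                 (CovZ.n1 (-46332, 45684) (by decide +kernel)
                  (CovZ.leaf K2_ok TH_l1430 _)
                  (CovZ.n1 (-46332, 45720) (by decide +kernel)
                   (CovZ.badM (by decide +kernel))
                   (CovZ.leaf K2_ok TH_l1431 _)))))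
               (CovZ.badM (by decide +kernel)))))))
          (CovZ.n1 (-46656, 44928) (by decide +kernel)
           (CovZ.n2 (-46944, 45216) (by decide +kernel)
            (CovZ.badM (by decide +kernel))
            (CovZ.n1 (-46944, 44928) (by decide +kernel)
             (CovZ.n2 (-47088, 45072) (by decide +kernel)
              (CovZ.n2 (-46944, 45072) (by decide +kernel)
               (CovZ.badM (by decide +kernel))
               (CovZ.n1 (-47016, 45144) (by decide +kernel)
                (CovZ.badM (by decide +kernel))
                (CovZ.badM (by decide +kernel))))
              (CovZ.badM (by decide +kernel)))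
             (CovZ.badM (by decide +kernel))))
           (CovZ.badM (by decide +kernel)))))
        (CovZ.badM (by decide +kernel))))))

theorem TH_u36 : CovZ TH_M (toL (selN TH_LN 677431182682061165382893530819603915171201236774994076065065374564351)) [0, 7, 6, 1] (-48384, 43776) (-50688, 41472) (-46080, 41472) :=
    (CovZ.n1 (-48384, 41472) (by decide +kernel)
     (CovZ.n2 (-49536, 42624) (by decide +kernel)
      (CovZ.n2 (-48384, 42624) (by decide +kernel)
       TH_u23
       TH_u24)
      (CovZ.n1 (-49536, 41472) (by decide +kernel)
       (CovZ.n2 (-50112, 42048) (by decide +kernel)
        (CovZ.n2 (-49536, 42048) (by decide +kernel)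
         (CovZ.n2 (-49824, 41760) (by decide +kernel)
          (CovZ.n2 (-49824, 42048) (by decide +kernel)
           (CovZ.leaf K2_ok TH_l1825 _)
           (CovZ.leaf K2_ok TH_l1826 _))
          (CovZ.n1 (-49536, 41760) (by decide +kernel)
           (CovZ.leaf K2_ok TH_l1827 _)
           (CovZ.n1 (-49680, 41904) (by decide +kernel)
            (CovZ.leaf K2_ok TH_l1828 _)
            (CovZ.leaf K2_ok TH_l1829 _))))
         (CovZ.n1 (-49824, 42336) (by decide +kernel)
          (CovZ.n2 (-49536, 42336) (by decide +kernel)
           (CovZ.n2 (-49680, 42192) (by decide +kernel)
            (CovZ.leaf K2_ok TH_l1830 _)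
            (CovZ.leaf K2_ok TH_l1831 _))
           (CovZ.n1 (-49680, 42480) (by decide +kernel)
            (CovZ.leaf K2_ok TH_l1832 _)
            (CovZ.n1 (-49680, 42336) (by decide +kernel)
             (CovZ.leaf K2_ok TH_l1833 _)
             (CovZ.leaf K2_ok TH_l1834 _))))
          (CovZ.n1 (-49824, 42048) (by decide +kernel)
           (CovZ.n2 (-49968, 42192) (by decide +kernel)
            (CovZ.leaf K2_ok TH_l1835 _)
            (CovZ.leaf K2_ok TH_l1836 _))
           (CovZ.n1 (-49680, 42192) (by decide +kernel)
            (CovZ.leaf K2_ok TH_l1837 _)
            (CovZ.leaf K2_ok TH_l1838 _)))))
        (CovZ.n1 (-50112, 41472) (by decide +kernel)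
         (CovZ.subM 431360239705877967932368283377595963610615146926750558944693342353098 (by decide +kernel)
          (CovZ.n2 (-50400, 41760) (by decide +kernel)
           (CovZ.n2 (-50112, 41760) (by decide +kernel)
            (CovZ.leaf K2_ok TH_l1839 _)
            (CovZ.n1 (-50256, 41904) (by decide +kernel)
             (CovZ.leaf K2_ok TH_l1840 _)
             (CovZ.leaf K2_ok TH_l1841 _)))
           (CovZ.n1 (-50400, 41472) (by decide +kernel)
            (CovZ.leaf K2_ok TH_l1842 _)
            (CovZ.leaf K2_ok TH_l1843 _))))
         (CovZ.n1 (-49824, 41760) (by decide +kernel)
          (CovZ.n2 (-49824, 41472) (by decide +kernel)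
           (CovZ.leaf K2_ok TH_l1844 _)
           (CovZ.leaf K2_ok TH_l1845 _))
          (CovZ.n1 (-50112, 41760) (by decide +kernel)
           (CovZ.leaf K2_ok TH_l1846 _)
           (CovZ.leaf K2_ok TH_l1847 _)))))
       (CovZ.n1 (-48960, 42048) (by decide +kernel)
        (CovZ.n2 (-48960, 41472) (by decide +kernel)
         (CovZ.n2 (-49248, 41760) (by decide +kernel)
          (CovZ.n2 (-48960, 41760) (by decide +kernel)
           (CovZ.leaf K2_ok TH_l1848 _)
           (CovZ.n1 (-49104, 41904) (by decide +kernel)
            (CovZ.leaf K2_ok TH_l1849 _)
            (CovZ.leaf K2_ok TH_l1850 _)))
          (CovZ.n1 (-49248, 41472) (by decide +kernel)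
           (CovZ.leaf K2_ok TH_l1851 _)
           (CovZ.leaf K2_ok TH_l1852 _)))
         (CovZ.n1 (-48672, 41760) (by decide +kernel)
          (CovZ.n2 (-48672, 41472) (by decide +kernel)
           (CovZ.n2 (-48816, 41616) (by decide +kernel)
            (CovZ.leaf K2_ok TH_l1853 _)
            (CovZ.leaf K2_ok TH_l1854 _))
           (CovZ.leaf K2_ok TH_l1855 _))
          (CovZ.n1 (-48960, 41760) (by decide +kernel)
           (CovZ.n2 (-48816, 41904) (by decide +kernel)
            (CovZ.leaf K2_ok TH_l1856 _)
            (CovZ.leaf K2_ok TH_l1857 _))
           (CovZ.leaf K2_ok TH_l1858 _))))
        (CovZ.n1 (-49536, 42048) (by decide +kernel)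
         (CovZ.n2 (-49248, 42336) (by decide +kernel)
          (CovZ.n2 (-49248, 42048) (by decide +kernel)
           (CovZ.n2 (-49392, 42192) (by decide +kernel)
            (CovZ.leaf K2_ok TH_l1859 _)
            (CovZ.leaf K2_ok TH_l1860 _))
           (CovZ.n1 (-49104, 42192) (by decide +kernel)
            (CovZ.leaf K2_ok TH_l1861 _)
            (CovZ.leaf K2_ok TH_l1862 _)))
          (CovZ.n1 (-49536, 42336) (by decide +kernel)
           (CovZ.n2 (-49392, 42480) (by decide +kernel)
            (CovZ.n2 (-49392, 42336) (by decide +kernel)
             (CovZ.leaf K2_ok TH_l1863 _)
             (CovZ.leaf K2_ok TH_l1864 _))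
            (CovZ.leaf K2_ok TH_l1865 _))
           (CovZ.n1 (-49392, 42192) (by decide +kernel)
            (CovZ.leaf K2_ok TH_l1866 _)
            (CovZ.leaf K2_ok TH_l1867 _))))
         (CovZ.n1 (-49248, 41760) (by decide +kernel)
          (CovZ.n2 (-49536, 41760) (by decide +kernel)
           (CovZ.n2 (-49392, 41904) (by decide +kernel)
            (CovZ.leaf K2_ok TH_l1868 _)
            (CovZ.leaf K2_ok TH_l1869 _))
           (CovZ.leaf K2_ok TH_l1870 _))
          (CovZ.n1 (-49248, 42048) (by decide +kernel)
           (CovZ.n2 (-49104, 41904) (by decide +kernel)
            (CovZ.leaf K2_ok TH_l1871 _)
            (CovZ.leaf K2_ok TH_l1872 _))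
           (CovZ.leaf K2_ok TH_l1873 _)))))))
     (CovZ.subM 159189319078397724320795502251130398146230071717438611119450091 (by decide +kernel)
      (CovZ.n1 (-47232, 42624) (by decide +kernel)
       TH_u33
       TH_u34)))

theorem TH_u37 : CovZ TH_M (toL (selN TH_LN 647039562282861007433023918005917221318954809008126347228601627213826)) [0, 7, 6, 1] (-50688, 43776) (-50112, 43776) (-50112, 44352) :=
    (CovZ.n2 (-50400, 44064) (by decide +kernel)
            (CovZ.n2 (-50112, 44064) (by decide +kernel)
             (CovZ.n2 (-50256, 43920) (by decide +kernel)
              (CovZ.n2 (-50256, 44064) (by decide +kernel)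
               (CovZ.subM 647039562078756737814465728361129322494213749919911781938887839973376 (by decide +kernel)
                (CovZ.n2 (-50184, 43992) (by decide +kernel)
                 (CovZ.n2 (-50256, 43992) (by decide +kernel)
                  (CovZ.n2 (-50220, 44028) (by decide +kernel)
                   (CovZ.leaf K2_ok TH_l2420 _)
                   (CovZ.leaf K2_ok TH_l2421 _))
                  (CovZ.leaf K2_ok TH_l2422 _))
                 (CovZ.n1 (-50184, 44064) (by decide +kernel)
                  (CovZ.n2 (-50148, 44028) (by decide +kernel)
                   (CovZ.n2 (-50184, 44028) (by decide +kernel)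
                    (CovZ.n2 (-50166, 44046) (by decide +kernel)
                     (CovZ.leaf K2_ok TH_l2423 _)
                     (CovZ.leaf K2_ok TH_l2424 _))
                    (CovZ.n1 (-50166, 44010) (by decide +kernel)
                     (CovZ.leaf K2_ok TH_l2425 _)
                     (CovZ.leaf K2_ok TH_l2426 _)))
                   (CovZ.subM 822758580282269984615744822607487321739437181778136659163873280 (by decide +kernel)
                    (CovZ.n1 (-50148, 44064) (by decide +kernel)
                     (CovZ.n2 (-50130, 44046) (by decide +kernel)
                      (CovZ.n2 (-50148, 44046) (by decide +kernel)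
                       (CovZ.badM (by decide +kernel))
                       (CovZ.n1 (-50139, 44037) (by decide +kernel)
                        (CovZ.leaf K2_ok TH_l2427 _)
                        (CovZ.badM (by decide +kernel))))
                      (CovZ.badM (by decide +kernel)))
                     (CovZ.n1 (-50166, 44046) (by decide +kernel)
                      (CovZ.leaf K2_ok TH_l2428 _)
                      (CovZ.leaf K2_ok TH_l2429 _)))))
                  (CovZ.n1 (-50220, 44028) (by decide +kernel)
                   (CovZ.n2 (-50220, 44064) (by decide +kernel)
                    (CovZ.n2 (-50202, 44046) (by decide +kernel)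
                     (CovZ.leaf K2_ok TH_l2430 _)
                     (CovZ.leaf K2_ok TH_l2431 _))
                    (CovZ.leaf K2_ok TH_l2432 _))
                   (CovZ.n1 (-50184, 44028) (by decide +kernel)
                    (CovZ.leaf K2_ok TH_l2433 _)
                    (CovZ.leaf K2_ok TH_l2434 _))))))
               (CovZ.n1 (-50328, 43992) (by decide +kernel)
                (CovZ.leaf K2_ok TH_l2435 _)
                (CovZ.n1 (-50256, 43992) (by decide +kernel)
                 (CovZ.leaf K2_ok TH_l2436 _)
                 (CovZ.leaf K2_ok TH_l2437 _))))
              (CovZ.n1 (-50112, 43920) (by decide +kernel)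
               (CovZ.n2 (-50184, 43848) (by decide +kernel)
                (CovZ.leaf K2_ok TH_l2438 _)
                (CovZ.leaf K2_ok TH_l2439 _))
               (CovZ.n1 (-50184, 43992) (by decide +kernel)
                (CovZ.subM 647039562078756738188244772108507743803889910945556375170645785313280 (by decide +kernel)
                 (CovZ.n2 (-50112, 43992) (by decide +kernel)
                  (CovZ.n2 (-50148, 43956) (by decide +kernel)
                   (CovZ.leaf K2_ok TH_l2440 _)
                   (CovZ.leaf K2_ok TH_l2441 _))
                  (CovZ.n1 (-50148, 44028) (by decide +kernel)
                   (CovZ.subM 215680396095785401001465155597690799936542405254477699836657094623232 (by decide +kernel)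
                    (CovZ.n2 (-50112, 44028) (by decide +kernel)
                     (CovZ.n2 (-50130, 44010) (by decide +kernel)
                      (CovZ.leaf K2_ok TH_l2442 _)
                      (CovZ.leaf K2_ok TH_l2443 _))
                     (CovZ.n1 (-50130, 44046) (by decide +kernel)
                      (CovZ.badM (by decide +kernel))
                      (CovZ.n1 (-50130, 44028) (by decide +kernel)
                       (CovZ.n2 (-50139, 44037) (by decide +kernel)
                        (CovZ.badM (by decide +kernel))
                        (CovZ.leaf K2_ok TH_l2444 _))
                       (CovZ.badM (by decide +kernel))))))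
                   (CovZ.n1 (-50148, 43992) (by decide +kernel)
                    (CovZ.n2 (-50166, 44010) (by decide +kernel)
                     (CovZ.leaf K2_ok TH_l2445 _)
                     (CovZ.leaf K2_ok TH_l2446 _))
                    (CovZ.n1 (-50130, 44010) (by decide +kernel)
                     (CovZ.leaf K2_ok TH_l2447 _)
                     (CovZ.leaf K2_ok TH_l2448 _))))))
                (CovZ.n1 (-50184, 43920) (by decide +kernel)
                 (CovZ.leaf K2_ok TH_l2449 _)
                 (CovZ.n1 (-50148, 43956) (by decide +kernel)
                  (CovZ.leaf K2_ok TH_l2450 _)
                  (CovZ.leaf K2_ok TH_l2451 _))))))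
             (CovZ.subM 215680415404150341670562653194945363276241982939479187125244938682368 (by decide +kernel)
              (CovZ.n1 (-50256, 44208) (by decide +kernel)
               (CovZ.badM (by decide +kernel))
               (CovZ.n1 (-50256, 44064) (by decide +kernel)
                (CovZ.n2 (-50328, 44136) (by decide +kernel)
                 (CovZ.n2 (-50256, 44136) (by decide +kernel)
                  (CovZ.n2 (-50292, 44100) (by decide +kernel)
                   (CovZ.leaf K2_ok TH_l2452 _)
                   (CovZ.n1 (-50256, 44100) (by decide +kernel)
                    (CovZ.leaf K2_ok TH_l2453 _)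
                    (CovZ.n1 (-50274, 44118) (by decide +kernel)
                     (CovZ.leaf K2_ok TH_l2454 _)
                     (CovZ.leaf K2_ok TH_l2455 _))))
                  (CovZ.n1 (-50292, 44172) (by decide +kernel)
                   (CovZ.subM 12855504354072287579745029464459485566685917135718005017149440 (by decide +kernel)
                    (CovZ.n2 (-50256, 44172) (by decide +kernel)
                     (CovZ.n2 (-50274, 44154) (by decide +kernel)
                      (CovZ.n2 (-50274, 44172) (by decide +kernel)
                       (CovZ.n2 (-50265, 44163) (by decide +kernel)
                        (CovZ.leaf K2_ok TH_l2456 _)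
                        (CovZ.badM (by decide +kernel)))
                       (CovZ.leaf K2_ok TH_l2457 _))
                      (CovZ.n1 (-50256, 44154) (by decide +kernel)
                       (CovZ.leaf K2_ok TH_l2458 _)
                       (CovZ.leaf K2_ok TH_l2459 _)))
                     (CovZ.badM (by decide +kernel))))
                   (CovZ.n1 (-50292, 44136) (by decide +kernel)
                    (CovZ.n2 (-50310, 44154) (by decide +kernel)
                     (CovZ.leaf K2_ok TH_l2460 _)
                     (CovZ.leaf K2_ok TH_l2461 _))
                    (CovZ.subM 215680408951289754699619734167572032662865679706748439396798928257024 (by decide +kernel)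
                     (CovZ.n1 (-50274, 44154) (by decide +kernel)
                      (CovZ.leaf K2_ok TH_l2462 _)
                      (CovZ.n1 (-50292, 44154) (by decide +kernel)
                       (CovZ.n2 (-50283, 44163) (by decide +kernel)
                        (CovZ.leaf K2_ok TH_l2463 _)
                        (CovZ.leaf K2_ok TH_l2464 _))
                       (CovZ.leaf K2_ok TH_l2465 _)))))))
                 (CovZ.n1 (-50328, 44064) (by decide +kernel)
                  (CovZ.leaf K2_ok TH_l2466 _)
                  (CovZ.n1 (-50292, 44100) (by decide +kernel)
                   (CovZ.leaf K2_ok TH_l2467 _)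
                   (CovZ.leaf K2_ok TH_l2468 _))))
                (CovZ.n1 (-50184, 44136) (by decide +kernel)
                 (CovZ.n2 (-50184, 44064) (by decide +kernel)
                  (CovZ.n2 (-50220, 44100) (by decide +kernel)
                   (CovZ.subM 12855504354072287579745029464459485566685917135718005017149440 (by decide +kernel)
                    (CovZ.n2 (-50184, 44100) (by decide +kernel)
                     (CovZ.n2 (-50202, 44082) (by decide +kernel)
                      (CovZ.leaf K2_ok TH_l2469 _)
                      (CovZ.badM (by decide +kernel)))
                     (CovZ.n1 (-50202, 44118) (by decide +kernel)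
                      (CovZ.badM (by decide +kernel))
                      (CovZ.n1 (-50202, 44100) (by decide +kernel)
                       (CovZ.n2 (-50211, 44109) (by decide +kernel)
                        (CovZ.leaf K2_ok TH_l2470 _)
                        (CovZ.leaf K2_ok TH_l2471 _))
                       (CovZ.badM (by decide +kernel))))))
                   (CovZ.n1 (-50220, 44064) (by decide +kernel)
                    (CovZ.n2 (-50238, 44082) (by decide +kernel)
                     (CovZ.leaf K2_ok TH_l2472 _)
                     (CovZ.leaf K2_ok TH_l2473 _))
                    (CovZ.subM 215680415379041931735586545326191225869575624139894671311509206859776 (by decide +kernel)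
                     (CovZ.n1 (-50202, 44082) (by decide +kernel)
                      (CovZ.leaf K2_ok TH_l2474 _)
                      (CovZ.n1 (-50220, 44082) (by decide +kernel)
                       (CovZ.n2 (-50211, 44091) (by decide +kernel)
                        (CovZ.leaf K2_ok TH_l2475 _)
                        (CovZ.leaf K2_ok TH_l2476 _))
                       (CovZ.leaf K2_ok TH_l2477 _))))))
                  (CovZ.n1 (-50148, 44100) (by decide +kernel)
                   (CovZ.n2 (-50148, 44064) (by decide +kernel)
                    (CovZ.badM (by decide +kernel))
                    (CovZ.badM (by decide +kernel)))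
                   (CovZ.badM (by decide +kernel))))
                 (CovZ.n1 (-50256, 44136) (by decide +kernel)
                  (CovZ.subM 12855504354072287579745029464459485566685917135718005017149440 (by decide +kernel)
                   (CovZ.n2 (-50220, 44172) (by decide +kernel)
                    (CovZ.n2 (-50220, 44136) (by decide +kernel)
                     (CovZ.n2 (-50238, 44154) (by decide +kernel)
                      (CovZ.badM (by decide +kernel))
                      (CovZ.n1 (-50238, 44136) (by decide +kernel)
                       (CovZ.leaf K2_ok TH_l2478 _)
                       (CovZ.badM (by decide +kernel))))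
                     (CovZ.badM (by decide +kernel)))
                    (CovZ.n1 (-50256, 44172) (by decide +kernel)
                     (CovZ.badM (by decide +kernel))
                     (CovZ.n1 (-50238, 44154) (by decide +kernel)
                      (CovZ.n2 (-50256, 44154) (by decide +kernel)
                       (CovZ.badM (by decide +kernel))
                       (CovZ.leaf K2_ok TH_l2479 _))
                      (CovZ.badM (by decide +kernel))))))
                  (CovZ.n1 (-50220, 44100) (by decide +kernel)
                   (CovZ.n2 (-50256, 44100) (by decide +kernel)
                    (CovZ.n2 (-50238, 44118) (by decide +kernel)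
                     (CovZ.leaf K2_ok TH_l2480 _)
                     (CovZ.leaf K2_ok TH_l2481 _))
                    (CovZ.n1 (-50238, 44082) (by decide +kernel)
                     (CovZ.leaf K2_ok TH_l2482 _)
                     (CovZ.leaf K2_ok TH_l2483 _)))
                   (CovZ.subM 12855504354072287579745029464459485566685917135718005017149440 (by decide +kernel)
                    (CovZ.n1 (-50220, 44136) (by decide +kernel)
                     (CovZ.n2 (-50202, 44118) (by decide +kernel)
                      (CovZ.n2 (-50220, 44118) (by decide +kernel)
                       (CovZ.n2 (-50211, 44127) (by decide +kernel)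
                        (CovZ.leaf K2_ok TH_l2484 _)
                        (CovZ.leaf K2_ok TH_l2485 _))
                       (CovZ.leaf K2_ok TH_l2486 _))
                      (CovZ.badM (by decide +kernel)))
                     (CovZ.n1 (-50238, 44118) (by decide +kernel)
                      (CovZ.leaf K2_ok TH_l2487 _)
                      (CovZ.n1 (-50220, 44118) (by decide +kernel)
                       (CovZ.leaf K2_ok TH_l2488 _)
                       (CovZ.leaf K2_ok TH_l2489 _))))))))))))
            (CovZ.n1 (-50400, 43776) (by decide +kernel)
             (CovZ.n2 (-50544, 43920) (by decide +kernel)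
              (CovZ.n2 (-50400, 43920) (by decide +kernel)
               (CovZ.leaf K2_ok TH_l2490 _)
               (CovZ.leaf K2_ok TH_l2491 _))
              (CovZ.leaf K2_ok TH_l2492 _))
             (CovZ.n1 (-50256, 43920) (by decide +kernel)
              (CovZ.n2 (-50256, 43776) (by decide +kernel)
               (CovZ.leaf K2_ok TH_l2493 _)
               (CovZ.n1 (-50184, 43848) (by decide +kernel)
                (CovZ.leaf K2_ok TH_l2494 _)
                (CovZ.leaf K2_ok TH_l2495 _)))
              (CovZ.n1 (-50400, 43920) (by decide +kernel)
               (CovZ.n2 (-50328, 43992) (by decide +kernel)
                (CovZ.leaf K2_ok TH_l2496 _)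
                (CovZ.leaf K2_ok TH_l2497 _))
               (CovZ.leaf K2_ok TH_l2498 _)))))

theorem TH_u38 : CovZ TH_M (toL (selN TH_LN 647039562282861007433023918005917221318954809008126347228601627213826)) [0, 7, 6, 1] (-50112, 43776) (-49536, 43776) (-50112, 44352) :=
    (CovZ.n1 (-49824, 44064) (by decide +kernel)
            (CovZ.n2 (-49824, 43776) (by decide +kernel)
             (CovZ.n2 (-49968, 43920) (by decide +kernel)
              (CovZ.subM 207168877196505663286092483821410761365794033591042313289728 (by decide +kernel)
               (CovZ.n2 (-49824, 43920) (by decide +kernel)
                (CovZ.n2 (-49896, 43848) (by decide +kernel)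
                 (CovZ.subM 5444517870735634385433636409045740945408 (by decide +kernel)
                  (CovZ.n2 (-49896, 43920) (by decide +kernel)
                   (CovZ.badM (by decide +kernel))
                   (CovZ.n1 (-49932, 43884) (by decide +kernel)
                    (CovZ.n2 (-49932, 43920) (by decide +kernel)
                     (CovZ.badM (by decide +kernel))
                     (CovZ.n1 (-49950, 43902) (by decide +kernel)
                      (CovZ.badM (by decide +kernel))
                      (CovZ.badM (by decide +kernel))))
                    (CovZ.badM (by decide +kernel)))))
                 (CovZ.n1 (-49824, 43848) (by decide +kernel)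
                  (CovZ.n2 (-49860, 43812) (by decide +kernel)
                   (CovZ.badM (by decide +kernel))
                   (CovZ.badM (by decide +kernel)))
                  (CovZ.badM (by decide +kernel))))
                (CovZ.n1 (-49896, 43992) (by decide +kernel)
                 (CovZ.badM (by decide +kernel))
                 (CovZ.n1 (-49896, 43920) (by decide +kernel)
                  (CovZ.badM (by decide +kernel))
                  (CovZ.badM (by decide +kernel))))))
              (CovZ.n1 (-49968, 43776) (by decide +kernel)
               (CovZ.n2 (-50040, 43848) (by decide +kernel)
                (CovZ.subM 647038739527443412832212896130522224053526486201538409374519354458112 (by decide +kernel)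
                 (CovZ.n2 (-49968, 43848) (by decide +kernel)
                  (CovZ.n2 (-50004, 43812) (by decide +kernel)
                   (CovZ.leaf K2_ok TH_l2499 _)
                   (CovZ.leaf K2_ok TH_l2500 _))
                  (CovZ.n1 (-50004, 43884) (by decide +kernel)
                   (CovZ.subM 215679573368811309759733725648779375889278538592666098109101125926912 (by decide +kernel)
                    (CovZ.n2 (-49968, 43884) (by decide +kernel)
                     (CovZ.leaf K2_ok TH_l2501 _)
                     (CovZ.n1 (-49986, 43902) (by decide +kernel)
                      (CovZ.subM 6497781093271368933663963258638423201958469525850923466752 (by decide +kernel)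
                       (CovZ.n2 (-49968, 43902) (by decide +kernel)
                        (CovZ.n2 (-49977, 43893) (by decide +kernel)
                         (CovZ.leaf K2_ok TH_l2502 _)
                         (CovZ.n1 (-49968, 43893) (by decide +kernel)
                          (CovZ.leaf K2_ok TH_l2503 _)
                          (CovZ.leaf K2_ok TH_l2504 _)))
                        (CovZ.leaf K2_ok TH_l2505 _)))
                      (CovZ.leaf K2_ok TH_l2506 _))))
                   (CovZ.leaf K2_ok TH_l2507 _))))
                (CovZ.n1 (-50040, 43776) (by decide +kernel)
                 (CovZ.leaf K2_ok TH_l2508 _)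
                 (CovZ.leaf K2_ok TH_l2509 _)))
               (CovZ.subM 647038726671939058757367688520163679485263188117396868185464424628224 (by decide +kernel)
                (CovZ.n1 (-49896, 43848) (by decide +kernel)
                 (CovZ.n2 (-49896, 43776) (by decide +kernel)
                  (CovZ.n2 (-49932, 43812) (by decide +kernel)
                   (CovZ.n2 (-49896, 43812) (by decide +kernel)
                    (CovZ.leaf K2_ok TH_l2510 _)
                    (CovZ.n1 (-49914, 43830) (by decide +kernel)
                     (CovZ.n2 (-49896, 43830) (by decide +kernel)
                      (CovZ.leaf K2_ok TH_l2511 _)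
                      (CovZ.leaf K2_ok TH_l2512 _))
                     (CovZ.leaf K2_ok TH_l2513 _)))
                   (CovZ.leaf K2_ok TH_l2514 _))
                  (CovZ.subM 215679579991129120664022368103363570267592707588570856492762019135488 (by decide +kernel)
                   (CovZ.n1 (-49860, 43812) (by decide +kernel)
                    (CovZ.n2 (-49860, 43776) (by decide +kernel)
                     (CovZ.n2 (-49878, 43794) (by decide +kernel)
                      (CovZ.n2 (-49860, 43794) (by decide +kernel)
                       (CovZ.leaf K2_ok TH_l2515 _)
                       (CovZ.leaf K2_ok TH_l2516 _))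
                      (CovZ.leaf K2_ok TH_l2517 _))
                     (CovZ.n1 (-49842, 43794) (by decide +kernel)
                      (CovZ.n2 (-49842, 43776) (by decide +kernel)
                       (CovZ.leaf K2_ok TH_l2518 _)
                       (CovZ.badM (by decide +kernel)))
                      (CovZ.leaf K2_ok TH_l2519 _)))
                    (CovZ.n1 (-49896, 43812) (by decide +kernel)
                     (CovZ.subM 274031556999544297163190906134303066185487351808 (by decide +kernel)
                      (CovZ.n2 (-49878, 43830) (by decide +kernel)
                       (CovZ.n2 (-49878, 43812) (by decide +kernel)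
                        (CovZ.leaf K2_ok TH_l2520 _)
                        (CovZ.badM (by decide +kernel)))
                       (CovZ.n1 (-49896, 43830) (by decide +kernel)
                        (CovZ.badM (by decide +kernel))
                        (CovZ.n1 (-49887, 43821) (by decide +kernel)
                         (CovZ.leaf K2_ok TH_l2521 _)
                         (CovZ.badM (by decide +kernel))))))
                     (CovZ.n1 (-49878, 43794) (by decide +kernel)
                      (CovZ.leaf K2_ok TH_l2522 _)
                      (CovZ.leaf K2_ok TH_l2523 _))))))
                 (CovZ.n1 (-49968, 43848) (by decide +kernel)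
                  (CovZ.subM 215679573368811309759733725648779375889278538592666098109101125926912 (by decide +kernel)
                   (CovZ.n2 (-49932, 43884) (by decide +kernel)
                    (CovZ.n2 (-49932, 43848) (by decide +kernel)
                     (CovZ.n2 (-49950, 43866) (by decide +kernel)
                      (CovZ.subM 6497781093271368764883909265852945324124664239693890584576 (by decide +kernel)
                       (CovZ.n2 (-49932, 43866) (by decide +kernel)
                        (CovZ.leaf K2_ok TH_l2524 _)
                        (CovZ.n1 (-49941, 43875) (by decide +kernel)
                         (CovZ.n2 (-49932, 43875) (by decide +kernel)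
                          (CovZ.leaf K2_ok TH_l2525 _)
                          (CovZ.badM (by decide +kernel)))
                         (CovZ.leaf K2_ok TH_l2526 _))))
                      (CovZ.leaf K2_ok TH_l2527 _))
                     (CovZ.n1 (-49914, 43866) (by decide +kernel)
                      (CovZ.n2 (-49914, 43848) (by decide +kernel)
                       (CovZ.leaf K2_ok TH_l2528 _)
                       (CovZ.badM (by decide +kernel)))
                      (CovZ.leaf K2_ok TH_l2529 _)))
                    (CovZ.n1 (-49968, 43884) (by decide +kernel)
                     (CovZ.subM 6497781093271368939108481129373438617372463244759214850048 (by decide +kernel)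
                      (CovZ.n2 (-49950, 43902) (by decide +kernel)
                       (CovZ.n2 (-49950, 43884) (by decide +kernel)
                        (CovZ.leaf K2_ok TH_l2530 _)
                        (CovZ.leaf K2_ok TH_l2531 _))
                       (CovZ.n1 (-49968, 43902) (by decide +kernel)
                        (CovZ.badM (by decide +kernel))
                        (CovZ.leaf K2_ok TH_l2532 _))))
                     (CovZ.n1 (-49950, 43866) (by decide +kernel)
                      (CovZ.leaf K2_ok TH_l2533 _)
                      (CovZ.leaf K2_ok TH_l2534 _)))))
                  (CovZ.n1 (-49932, 43812) (by decide +kernel)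
                   (CovZ.leaf K2_ok TH_l2535 _)
                   (CovZ.n1 (-49932, 43848) (by decide +kernel)
                    (CovZ.n2 (-49914, 43830) (by decide +kernel)
                     (CovZ.leaf K2_ok TH_l2536 _)
                     (CovZ.leaf K2_ok TH_l2537 _))
                    (CovZ.leaf K2_ok TH_l2538 _))))))))
             (CovZ.badM (by decide +kernel)))
            (CovZ.n1 (-50112, 44064) (by decide +kernel)
             (CovZ.badM (by decide +kernel))
             (CovZ.n1 (-49968, 43920) (by decide +kernel)
              (CovZ.n2 (-50112, 43920) (by decide +kernel)
               (CovZ.subM 647039562078756738188244772280010056732042896531097177316256963887104 (by decide +kernel)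
                (CovZ.n2 (-50040, 43992) (by decide +kernel)
                 (CovZ.n2 (-50040, 43920) (by decide +kernel)
                  (CovZ.n2 (-50076, 43956) (by decide +kernel)
                   (CovZ.subM 647038720018113136542535549974720667163259157970664574710025207939072 (by decide +kernel)
                    (CovZ.n2 (-50040, 43956) (by decide +kernel)
                     (CovZ.n2 (-50058, 43938) (by decide +kernel)
                      (CovZ.leaf K2_ok TH_l2539 _)
                      (CovZ.leaf K2_ok TH_l2540 _))
                     (CovZ.n1 (-50058, 43974) (by decide +kernel)
                      (CovZ.badM (by decide +kernel))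
                      (CovZ.leaf K2_ok TH_l2541 _))))
                   (CovZ.leaf K2_ok TH_l2542 _))
                  (CovZ.subM 647038720018113136542535550148945239026779651263912373715090532204544 (by decide +kernel)
                   (CovZ.n1 (-50004, 43956) (by decide +kernel)
                    (CovZ.n2 (-50004, 43920) (by decide +kernel)
                     (CovZ.n2 (-50022, 43938) (by decide +kernel)
                      (CovZ.n2 (-50004, 43938) (by decide +kernel)
                       (CovZ.leaf K2_ok TH_l2543 _)
                       (CovZ.badM (by decide +kernel)))
                      (CovZ.n1 (-50022, 43920) (by decide +kernel)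
                       (CovZ.leaf K2_ok TH_l2544 _)
                       (CovZ.leaf K2_ok TH_l2545 _)))
                     (CovZ.subM 220679357884688169828173835430137815688897438659762978816 (by decide +kernel)
                      (CovZ.n1 (-49986, 43938) (by decide +kernel)
                       (CovZ.n2 (-49986, 43920) (by decide +kernel)
                        (CovZ.leaf K2_ok TH_l2546 _)
                        (CovZ.leaf K2_ok TH_l2547 _))
                       (CovZ.n1 (-50004, 43938) (by decide +kernel)
                        (CovZ.badM (by decide +kernel))
                        (CovZ.leaf K2_ok TH_l2548 _)))))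
                    (CovZ.n1 (-50040, 43956) (by decide +kernel)
                     (CovZ.badM (by decide +kernel))
                     (CovZ.n1 (-50022, 43938) (by decide +kernel)
                      (CovZ.leaf K2_ok TH_l2549 _)
                      (CovZ.badM (by decide +kernel)))))))
                 (CovZ.n1 (-50112, 43992) (by decide +kernel)
                  (CovZ.subM 215680396095785401001465155597690799936542405254477699836657094623232 (by decide +kernel)
                   (CovZ.n2 (-50076, 44028) (by decide +kernel)
                    (CovZ.n2 (-50076, 43992) (by decide +kernel)
                     (CovZ.n2 (-50094, 44010) (by decide +kernel)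
                      (CovZ.badM (by decide +kernel))
                      (CovZ.leaf K2_ok TH_l2550 _))
                     (CovZ.badM (by decide +kernel)))
                    (CovZ.n1 (-50112, 44028) (by decide +kernel)
                     (CovZ.badM (by decide +kernel))
                     (CovZ.n1 (-50094, 44010) (by decide +kernel)
                      (CovZ.leaf K2_ok TH_l2551 _)
                      (CovZ.badM (by decide +kernel))))))
                  (CovZ.n1 (-50076, 43956) (by decide +kernel)
                   (CovZ.leaf K2_ok TH_l2552 _)
                   (CovZ.subM 647039542770195637716137396990004890714736716015126859534314858610688 (by decide +kernel)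
                    (CovZ.n1 (-50076, 43992) (by decide +kernel)
                     (CovZ.n2 (-50058, 43974) (by decide +kernel)
                      (CovZ.leaf K2_ok TH_l2553 _)
                      (CovZ.n1 (-50058, 43992) (by decide +kernel)
                       (CovZ.badM (by decide +kernel))
                       (CovZ.leaf K2_ok TH_l8161 _)))
                     (CovZ.n1 (-50094, 43974) (by decide +kernel)
                      (CovZ.leaf K2_ok TH_l2554 _)
                      (CovZ.leaf K2_ok TH_l2555 _))))))))
               (CovZ.n1 (-50040, 43848) (by decide +kernel)
                (CovZ.n2 (-50112, 43848) (by decide +kernel)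
                 (CovZ.leaf K2_ok TH_l2556 _)
                 (CovZ.leaf K2_ok TH_l2557 _))
                (CovZ.subM 647039562279623993720618556728199836165706265835457858372099060531200 (by decide +kernel)
                 (CovZ.n1 (-50040, 43920) (by decide +kernel)
                  (CovZ.n2 (-50004, 43884) (by decide +kernel)
                   (CovZ.leaf K2_ok TH_l2558 _)
                   (CovZ.subM 647038720043221543484082273204288396719610935898341438183084119818240 (by decide +kernel)
                    (CovZ.n1 (-50004, 43920) (by decide +kernel)
                     (CovZ.n2 (-49986, 43902) (by decide +kernel)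
                      (CovZ.leaf K2_ok TH_l2559 _)
                      (CovZ.leaf K2_ok TH_l2560 _))
                     (CovZ.n1 (-50022, 43902) (by decide +kernel)
                      (CovZ.leaf K2_ok TH_l2561 _)
                      (CovZ.n1 (-50004, 43902) (by decide +kernel)
                       (CovZ.leaf K2_ok TH_l2562 _)
                       (CovZ.n1 (-50013, 43911) (by decide +kernel)
                        (CovZ.leaf K2_ok TH_l2563 _)
                        (CovZ.leaf K2_ok TH_l2564 _)))))))
                  (CovZ.leaf K2_ok TH_l2565 _)))))
              (CovZ.subM 174224571863520493293247799005065324265472 (by decide +kernel)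
               (CovZ.n1 (-49968, 44064) (by decide +kernel)
                (CovZ.badM (by decide +kernel))
                (CovZ.n1 (-50040, 43992) (by decide +kernel)
                 (CovZ.badM (by decide +kernel))
                 (CovZ.n1 (-49968, 43992) (by decide +kernel)
                  (CovZ.n2 (-50004, 43956) (by decide +kernel)
                   (CovZ.badM (by decide +kernel))
                   (CovZ.n1 (-49968, 43956) (by decide +kernel)
                    (CovZ.n2 (-49986, 43938) (by decide +kernel)
                     (CovZ.badM (by decide +kernel))
                     (CovZ.badM (by decide +kernel)))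
                    (CovZ.badM (by decide +kernel))))
                  (CovZ.badM (by decide +kernel)))))))))

theorem TH_u39 : CovZ TH_M (toL (selN TH_LN 215623626634207726022114238101282183035491653117555693768974857682944)) [0, 7, 6, 1] (-50688, 44928) (-50112, 44928) (-50112, 45504) :=
    (CovZ.n2 (-50400, 45216) (by decide +kernel)
            (CovZ.subM 75137029146617927901612734249225045504283609507940444215436451528704 (by decide +kernel)
             (CovZ.n2 (-50112, 45216) (by decide +kernel)
              (CovZ.n2 (-50256, 45072) (by decide +kernel)
               (CovZ.n2 (-50256, 45216) (by decide +kernel)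
                (CovZ.subM 191561945462731492711905437833122929211881041636114432 (by decide +kernel)
                 (CovZ.n2 (-50184, 45144) (by decide +kernel)
                  (CovZ.n2 (-50256, 45144) (by decide +kernel)
                   (CovZ.leaf K2_ok TH_l2566 _)
                   (CovZ.leaf K2_ok TH_l2567 _))
                  (CovZ.n1 (-50184, 45216) (by decide +kernel)
                   (CovZ.leaf K2_ok TH_l2568 _)
                   (CovZ.leaf K2_ok TH_l2569 _))))
                (CovZ.n1 (-50328, 45144) (by decide +kernel)
                 (CovZ.n2 (-50328, 45216) (by decide +kernel)
                  (CovZ.leaf K2_ok TH_l2570 _)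
                  (CovZ.leaf K2_ok TH_l2571 _))
                 (CovZ.n1 (-50256, 45144) (by decide +kernel)
                  (CovZ.leaf K2_ok TH_l2572 _)
                  (CovZ.leaf K2_ok TH_l2573 _))))
               (CovZ.subM 191561945462731492711905437833122929211881041627725824 (by decide +kernel)
                (CovZ.n1 (-50112, 45072) (by decide +kernel)
                 (CovZ.n2 (-50184, 45000) (by decide +kernel)
                  (CovZ.n2 (-50184, 45072) (by decide +kernel)
                   (CovZ.leaf K2_ok TH_l2574 _)
                   (CovZ.n1 (-50220, 45036) (by decide +kernel)
                    (CovZ.leaf K2_ok TH_l2575 _)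
                    (CovZ.leaf K2_ok TH_l2576 _)))
                  (CovZ.subM 2854495385417112059129849271438193303457120256 (by decide +kernel)
                   (CovZ.n1 (-50112, 45000) (by decide +kernel)
                    (CovZ.n2 (-50148, 44964) (by decide +kernel)
                     (CovZ.leaf K2_ok TH_l2577 _)
                     (CovZ.leaf K2_ok TH_l2578 _))
                    (CovZ.n1 (-50148, 45036) (by decide +kernel)
                     (CovZ.leaf K2_ok TH_l2579 _)
                     (CovZ.leaf K2_ok TH_l2580 _)))))
                 (CovZ.n1 (-50184, 45144) (by decide +kernel)
                  (CovZ.n2 (-50112, 45144) (by decide +kernel)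
                   (CovZ.leaf K2_ok TH_l2581 _)
                   (CovZ.leaf K2_ok TH_l2582 _))
                  (CovZ.n1 (-50184, 45072) (by decide +kernel)
                   (CovZ.leaf K2_ok TH_l2583 _)
                   (CovZ.leaf K2_ok TH_l2584 _))))))
              (CovZ.n1 (-50256, 45360) (by decide +kernel)
               (CovZ.n2 (-50112, 45360) (by decide +kernel)
                (CovZ.n2 (-50184, 45288) (by decide +kernel)
                 (CovZ.leaf K2_ok TH_l2585 _)
                 (CovZ.leaf K2_ok TH_l2586 _))
                (CovZ.leaf K2_ok TH_l2587 _))
               (CovZ.n1 (-50256, 45216) (by decide +kernel)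
                (CovZ.n2 (-50328, 45288) (by decide +kernel)
                 (CovZ.leaf K2_ok TH_l2588 _)
                 (CovZ.leaf K2_ok TH_l2589 _))
                (CovZ.n1 (-50184, 45288) (by decide +kernel)
                 (CovZ.n2 (-50184, 45216) (by decide +kernel)
                  (CovZ.leaf K2_ok TH_l2590 _)
                  (CovZ.leaf K2_ok TH_l2591 _))
                 (CovZ.leaf K2_ok TH_l2592 _))))))
            (CovZ.n1 (-50400, 44928) (by decide +kernel)
             (CovZ.n2 (-50544, 45072) (by decide +kernel)
              (CovZ.n2 (-50400, 45072) (by decide +kernel)
               (CovZ.n2 (-50472, 45000) (by decide +kernel)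
                (CovZ.n2 (-50472, 45072) (by decide +kernel)
                 (CovZ.leaf K2_ok TH_l2593 _)
                 (CovZ.leaf K2_ok TH_l2594 _))
                (CovZ.n1 (-50400, 45000) (by decide +kernel)
                 (CovZ.n2 (-50436, 44964) (by decide +kernel)
                  (CovZ.leaf K2_ok TH_l2595 _)
                  (CovZ.leaf K2_ok TH_l2596 _))
                 (CovZ.leaf K2_ok TH_l2597 _)))
               (CovZ.n1 (-50472, 45144) (by decide +kernel)
                (CovZ.leaf K2_ok TH_l2598 _)
                (CovZ.n1 (-50472, 45072) (by decide +kernel)
                 (CovZ.leaf K2_ok TH_l2599 _)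
                 (CovZ.leaf K2_ok TH_l2600 _))))
              (CovZ.n1 (-50544, 44928) (by decide +kernel)
               (CovZ.n2 (-50616, 45000) (by decide +kernel)
                (CovZ.n2 (-50544, 45000) (by decide +kernel)
                 (CovZ.n2 (-50580, 44964) (by decide +kernel)
                  (CovZ.leaf K2_ok TH_l2601 _)
                  (CovZ.leaf K2_ok TH_l2602 _))
                 (CovZ.leaf K2_ok TH_l2603 _))
                (CovZ.n1 (-50616, 44928) (by decide +kernel)
                 (CovZ.n2 (-50652, 44964) (by decide +kernel)
                  (CovZ.leaf K2_ok TH_l2604 _)
                  (CovZ.leaf K2_ok TH_l2605 _))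
                 (CovZ.n1 (-50580, 44964) (by decide +kernel)
                  (CovZ.leaf K2_ok TH_l2606 _)
                  (CovZ.leaf K2_ok TH_l2607 _))))
               (CovZ.n1 (-50472, 45000) (by decide +kernel)
                (CovZ.n2 (-50472, 44928) (by decide +kernel)
                 (CovZ.n2 (-50508, 44964) (by decide +kernel)
                  (CovZ.leaf K2_ok TH_l2608 _)
                  (CovZ.n1 (-50508, 44928) (by decide +kernel)
                   (CovZ.leaf K2_ok TH_l2609 _)
                   (CovZ.leaf K2_ok TH_l2610 _)))
                 (CovZ.n1 (-50436, 44964) (by decide +kernel)
                  (CovZ.leaf K2_ok TH_l2611 _)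
                  (CovZ.leaf K2_ok TH_l2612 _)))
                (CovZ.n1 (-50544, 45000) (by decide +kernel)
                 (CovZ.leaf K2_ok TH_l2613 _)
                 (CovZ.n1 (-50508, 44964) (by decide +kernel)
                  (CovZ.leaf K2_ok TH_l2614 _)
                  (CovZ.leaf K2_ok TH_l2615 _))))))
             (CovZ.subM 75137029146617927901612734249225045504283609507940444215436451528704 (by decide +kernel)
              (CovZ.n1 (-50256, 45072) (by decide +kernel)
               (CovZ.n2 (-50256, 44928) (by decide +kernel)
                (CovZ.n2 (-50328, 45000) (by decide +kernel)
                 (CovZ.n2 (-50256, 45000) (by decide +kernel)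
                  (CovZ.n2 (-50292, 44964) (by decide +kernel)
                   (CovZ.leaf K2_ok TH_l2616 _)
                   (CovZ.leaf K2_ok TH_l2617 _))
                  (CovZ.leaf K2_ok TH_l2618 _))
                 (CovZ.n1 (-50328, 44928) (by decide +kernel)
                  (CovZ.n2 (-50364, 44964) (by decide +kernel)
                   (CovZ.leaf K2_ok TH_l2619 _)
                   (CovZ.leaf K2_ok TH_l2620 _))
                  (CovZ.n1 (-50292, 44964) (by decide +kernel)
                   (CovZ.n2 (-50292, 44928) (by decide +kernel)
                    (CovZ.leaf K2_ok TH_l2621 _)
                    (CovZ.leaf K2_ok TH_l2622 _))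
                   (CovZ.leaf K2_ok TH_l2623 _))))
                (CovZ.subM 2854495385417112059129849271438193307752087552 (by decide +kernel)
                 (CovZ.n1 (-50184, 45000) (by decide +kernel)
                  (CovZ.n2 (-50184, 44928) (by decide +kernel)
                   (CovZ.n2 (-50220, 44964) (by decide +kernel)
                    (CovZ.leaf K2_ok TH_l2624 _)
                    (CovZ.n1 (-50220, 44928) (by decide +kernel)
                     (CovZ.leaf K2_ok TH_l2625 _)
                     (CovZ.leaf K2_ok TH_l2626 _)))
                   (CovZ.n1 (-50148, 44964) (by decide +kernel)
                    (CovZ.n2 (-50148, 44928) (by decide +kernel)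
                     (CovZ.leaf K2_ok TH_l2627 _)
                     (CovZ.leaf K2_ok TH_l2628 _))
                    (CovZ.leaf K2_ok TH_l2629 _)))
                  (CovZ.n1 (-50256, 45000) (by decide +kernel)
                   (CovZ.n2 (-50220, 45036) (by decide +kernel)
                    (CovZ.leaf K2_ok TH_l2630 _)
                    (CovZ.leaf K2_ok TH_l2631 _))
                   (CovZ.n1 (-50220, 44964) (by decide +kernel)
                    (CovZ.leaf K2_ok TH_l2632 _)
                    (CovZ.leaf K2_ok TH_l2633 _))))))
               (CovZ.n1 (-50400, 45072) (by decide +kernel)
                (CovZ.n2 (-50328, 45144) (by decide +kernel)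
                 (CovZ.n2 (-50328, 45072) (by decide +kernel)
                  (CovZ.leaf K2_ok TH_l2634 _)
                  (CovZ.leaf K2_ok TH_l2635 _))
                 (CovZ.leaf K2_ok TH_l2636 _))
                (CovZ.n1 (-50328, 45000) (by decide +kernel)
                 (CovZ.n2 (-50400, 45000) (by decide +kernel)
                  (CovZ.n2 (-50364, 45036) (by decide +kernel)
                   (CovZ.leaf K2_ok TH_l2637 _)
                   (CovZ.leaf K2_ok TH_l2638 _))
                  (CovZ.n1 (-50364, 44964) (by decide +kernel)
                   (CovZ.leaf K2_ok TH_l2639 _)
                   (CovZ.leaf K2_ok TH_l2640 _)))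
                 (CovZ.n1 (-50328, 45072) (by decide +kernel)
                  (CovZ.leaf K2_ok TH_l2641 _)
                  (CovZ.leaf K2_ok TH_l2642 _))))))))

theorem TH_u40 : CovZ TH_M (toL (selN TH_LN 215623626634207726022114238101282183035491653117555693768974857682944)) [0, 7, 6, 1] (-50112, 44928) (-49536, 44928) (-50112, 45504) :=
    (CovZ.subM 191561945819543415888395413049454578715811109700386816 (by decide +kernel)
            (CovZ.n1 (-49824, 45216) (by decide +kernel)
             (CovZ.n2 (-49824, 44928) (by decide +kernel)
              (CovZ.subM 2854495385417112059439334281259538647059808256 (by decide +kernel)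
               (CovZ.n2 (-49968, 45072) (by decide +kernel)
                (CovZ.n2 (-49824, 45072) (by decide +kernel)
                 (CovZ.n2 (-49896, 45000) (by decide +kernel)
                  (CovZ.n2 (-49896, 45072) (by decide +kernel)
                   (CovZ.n2 (-49860, 45036) (by decide +kernel)
                    (CovZ.leaf K2_ok TH_l2643 _)
                    (CovZ.leaf K2_ok TH_l2644 _))
                   (CovZ.n1 (-49932, 45036) (by decide +kernel)
                    (CovZ.leaf K2_ok TH_l2645 _)
                    (CovZ.leaf K2_ok TH_l2646 _)))
                  (CovZ.n1 (-49824, 45000) (by decide +kernel)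
                   (CovZ.n2 (-49860, 44964) (by decide +kernel)
                    (CovZ.n2 (-49860, 45000) (by decide +kernel)
                     (CovZ.leaf K2_ok TH_l2647 _)
                     (CovZ.leaf K2_ok TH_l2648 _))
                    (CovZ.leaf K2_ok TH_l2649 _))
                   (CovZ.n1 (-49860, 45036) (by decide +kernel)
                    (CovZ.leaf K2_ok TH_l2650 _)
                    (CovZ.n1 (-49860, 45000) (by decide +kernel)
                     (CovZ.leaf K2_ok TH_l2651 _)
                     (CovZ.leaf K2_ok TH_l2652 _)))))
                 (CovZ.n1 (-49896, 45144) (by decide +kernel)
                  (CovZ.n2 (-49824, 45144) (by decide +kernel)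
                   (CovZ.leaf K2_ok TH_l2653 _)
                   (CovZ.leaf K2_ok TH_l2654 _))
                  (CovZ.n1 (-49896, 45072) (by decide +kernel)
                   (CovZ.leaf K2_ok TH_l2655 _)
                   (CovZ.leaf K2_ok TH_l2656 _))))
                (CovZ.n1 (-49968, 44928) (by decide +kernel)
                 (CovZ.n2 (-50040, 45000) (by decide +kernel)
                  (CovZ.n2 (-49968, 45000) (by decide +kernel)
                   (CovZ.subM 2854495385411919762271314443809662807127900160 (by decide +kernel)
                    (CovZ.n2 (-50004, 44964) (by decide +kernel)
                     (CovZ.n2 (-50004, 45000) (by decide +kernel)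
                      (CovZ.leaf K2_ok TH_l2657 _)
                      (CovZ.leaf K2_ok TH_l2658 _))
                     (CovZ.n1 (-49968, 44964) (by decide +kernel)
                      (CovZ.badM (by decide +kernel))
                      (CovZ.leaf K2_ok TH_l2659 _))))
                   (CovZ.n1 (-50004, 45036) (by decide +kernel)
                    (CovZ.leaf K2_ok TH_l2660 _)
                    (CovZ.leaf K2_ok TH_l2661 _)))
                  (CovZ.subM 2854495385411919762271314443809662807127900160 (by decide +kernel)
                   (CovZ.n1 (-50040, 44928) (by decide +kernel)
                    (CovZ.n2 (-50076, 44964) (by decide +kernel)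
                     (CovZ.leaf K2_ok TH_l2662 _)
                     (CovZ.n1 (-50076, 44928) (by decide +kernel)
                      (CovZ.leaf K2_ok TH_l2663 _)
                      (CovZ.leaf K2_ok TH_l2664 _)))
                    (CovZ.n1 (-50004, 44964) (by decide +kernel)
                     (CovZ.badM (by decide +kernel))
                     (CovZ.leaf K2_ok TH_l2665 _)))))
                 (CovZ.n1 (-49896, 45000) (by decide +kernel)
                  (CovZ.subM 2854495385411919762271314443809662807127883776 (by decide +kernel)
                   (CovZ.n2 (-49896, 44928) (by decide +kernel)
                    (CovZ.n2 (-49932, 44964) (by decide +kernel)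
                     (CovZ.leaf K2_ok TH_l2666 _)
                     (CovZ.badM (by decide +kernel)))
                    (CovZ.n1 (-49860, 44964) (by decide +kernel)
                     (CovZ.badM (by decide +kernel))
                     (CovZ.leaf K2_ok TH_l2667 _))))
                  (CovZ.n1 (-49968, 45000) (by decide +kernel)
                   (CovZ.n2 (-49932, 45036) (by decide +kernel)
                    (CovZ.leaf K2_ok TH_l2668 _)
                    (CovZ.leaf K2_ok TH_l2669 _))
                   (CovZ.n1 (-49932, 44964) (by decide +kernel)
                    (CovZ.leaf K2_ok TH_l2670 _)
                    (CovZ.leaf K2_ok TH_l2671 _)))))))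
              (CovZ.n1 (-49680, 45072) (by decide +kernel)
               (CovZ.subM 3211307308593602029394420763800602271924879360 (by decide +kernel)
                (CovZ.n2 (-49680, 44928) (by decide +kernel)
                 (CovZ.n2 (-49752, 45000) (by decide +kernel)
                  (CovZ.n2 (-49680, 45000) (by decide +kernel)
                   (CovZ.n2 (-49716, 44964) (by decide +kernel)
                    (CovZ.leaf K2_ok TH_l2672 _)
                    (CovZ.leaf K2_ok TH_l2673 _))
                   (CovZ.n1 (-49716, 45036) (by decide +kernel)
                    (CovZ.leaf K2_ok TH_l2674 _)
                    (CovZ.n1 (-49716, 45000) (by decide +kernel)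
                     (CovZ.leaf K2_ok TH_l2675 _)
                     (CovZ.leaf K2_ok TH_l2676 _))))
                  (CovZ.n1 (-49752, 44928) (by decide +kernel)
                   (CovZ.n2 (-49788, 44964) (by decide +kernel)
                    (CovZ.leaf K2_ok TH_l2677 _)
                    (CovZ.badM (by decide +kernel)))
                   (CovZ.n1 (-49716, 44964) (by decide +kernel)
                    (CovZ.badM (by decide +kernel))
                    (CovZ.leaf K2_ok TH_l2678 _))))
                 (CovZ.n1 (-49608, 45000) (by decide +kernel)
                  (CovZ.n2 (-49608, 44928) (by decide +kernel)
                   (CovZ.n2 (-49644, 44964) (by decide +kernel)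
                    (CovZ.n2 (-49608, 44964) (by decide +kernel)
                     (CovZ.badM (by decide +kernel))
                     (CovZ.leaf K2_ok TH_l2679 _))
                    (CovZ.badM (by decide +kernel)))
                   (CovZ.n1 (-49572, 44964) (by decide +kernel)
                    (CovZ.n2 (-49572, 44928) (by decide +kernel)
                     (CovZ.badM (by decide +kernel))
                     (CovZ.leaf K2_ok TH_l2680 _))
                    (CovZ.leaf K2_ok TH_l2681 _)))
                  (CovZ.n1 (-49680, 45000) (by decide +kernel)
                   (CovZ.n2 (-49644, 45036) (by decide +kernel)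
                    (CovZ.n2 (-49644, 45000) (by decide +kernel)
                     (CovZ.leaf K2_ok TH_l2682 _)
                     (CovZ.leaf K2_ok TH_l2683 _))
                    (CovZ.leaf K2_ok TH_l2684 _))
                   (CovZ.n1 (-49644, 44964) (by decide +kernel)
                    (CovZ.leaf K2_ok TH_l2685 _)
                    (CovZ.n1 (-49644, 45000) (by decide +kernel)
                     (CovZ.leaf K2_ok TH_l2686 _)
                     (CovZ.leaf K2_ok TH_l2687 _)))))))
               (CovZ.subM 2854495385417112059439334281259538647059808256 (by decide +kernel)
                (CovZ.n1 (-49824, 45072) (by decide +kernel)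
                 (CovZ.n2 (-49752, 45144) (by decide +kernel)
                  (CovZ.n2 (-49752, 45072) (by decide +kernel)
                   (CovZ.leaf K2_ok TH_l2688 _)
                   (CovZ.leaf K2_ok TH_l2689 _))
                  (CovZ.n1 (-49824, 45144) (by decide +kernel)
                   (CovZ.leaf K2_ok TH_l2690 _)
                   (CovZ.leaf K2_ok TH_l2691 _)))
                 (CovZ.n1 (-49752, 45000) (by decide +kernel)
                  (CovZ.n2 (-49824, 45000) (by decide +kernel)
                   (CovZ.n2 (-49788, 45036) (by decide +kernel)
                    (CovZ.leaf K2_ok TH_l2692 _)
                    (CovZ.leaf K2_ok TH_l2693 _))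
                   (CovZ.n1 (-49788, 44964) (by decide +kernel)
                    (CovZ.leaf K2_ok TH_l2694 _)
                    (CovZ.n1 (-49788, 45000) (by decide +kernel)
                     (CovZ.leaf K2_ok TH_l2695 _)
                     (CovZ.leaf K2_ok TH_l2696 _))))
                  (CovZ.n1 (-49752, 45072) (by decide +kernel)
                   (CovZ.n2 (-49716, 45036) (by decide +kernel)
                    (CovZ.leaf K2_ok TH_l2697 _)
                    (CovZ.leaf K2_ok TH_l2698 _))
                   (CovZ.n1 (-49788, 45036) (by decide +kernel)
                    (CovZ.leaf K2_ok TH_l2699 _)
                    (CovZ.leaf K2_ok TH_l2700 _))))))))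
             (CovZ.n1 (-50112, 45216) (by decide +kernel)
              (CovZ.n2 (-49968, 45360) (by decide +kernel)
               (CovZ.n2 (-49968, 45216) (by decide +kernel)
                (CovZ.n2 (-50040, 45288) (by decide +kernel)
                 (CovZ.leaf K2_ok TH_l2701 _)
                 (CovZ.n1 (-50040, 45216) (by decide +kernel)
                  (CovZ.leaf K2_ok TH_l2702 _)
                  (CovZ.leaf K2_ok TH_l2703 _)))
                (CovZ.n1 (-49896, 45288) (by decide +kernel)
                 (CovZ.n2 (-49896, 45216) (by decide +kernel)
                  (CovZ.leaf K2_ok TH_l2704 _)
                  (CovZ.leaf K2_ok TH_l2705 _))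
                 (CovZ.leaf K2_ok TH_l2706 _)))
               (CovZ.n1 (-50112, 45360) (by decide +kernel)
                (CovZ.leaf K2_ok TH_l2707 _)
                (CovZ.n1 (-50040, 45288) (by decide +kernel)
                 (CovZ.leaf K2_ok TH_l2708 _)
                 (CovZ.leaf K2_ok TH_l2709 _))))
              (CovZ.n1 (-49968, 45072) (by decide +kernel)
               (CovZ.n2 (-50112, 45072) (by decide +kernel)
                (CovZ.n2 (-50040, 45144) (by decide +kernel)
                 (CovZ.n2 (-50040, 45072) (by decide +kernel)
                  (CovZ.leaf K2_ok TH_l2710 _)
                  (CovZ.leaf K2_ok TH_l2711 _))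
                 (CovZ.n1 (-50112, 45144) (by decide +kernel)
                  (CovZ.leaf K2_ok TH_l2712 _)
                  (CovZ.leaf K2_ok TH_l2713 _)))
                (CovZ.subM 2854495385417112059129849271438193303457120256 (by decide +kernel)
                 (CovZ.n1 (-50040, 45000) (by decide +kernel)
                  (CovZ.n2 (-50112, 45000) (by decide +kernel)
                   (CovZ.n2 (-50076, 45036) (by decide +kernel)
                    (CovZ.leaf K2_ok TH_l2714 _)
                    (CovZ.leaf K2_ok TH_l2715 _))
                   (CovZ.n1 (-50076, 44964) (by decide +kernel)
                    (CovZ.leaf K2_ok TH_l2716 _)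
                    (CovZ.leaf K2_ok TH_l2717 _)))
                  (CovZ.n1 (-50040, 45072) (by decide +kernel)
                   (CovZ.n2 (-50004, 45036) (by decide +kernel)
                    (CovZ.leaf K2_ok TH_l2718 _)
                    (CovZ.leaf K2_ok TH_l2719 _))
                   (CovZ.leaf K2_ok TH_l2720 _)))))
               (CovZ.n1 (-49968, 45216) (by decide +kernel)
                (CovZ.subM 2854495385417112059439334281259538647059808256 (by decide +kernel)
                 (CovZ.n2 (-49896, 45144) (by decide +kernel)
                  (CovZ.n2 (-49968, 45144) (by decide +kernel)
                   (CovZ.leaf K2_ok TH_l2721 _)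
                   (CovZ.leaf K2_ok TH_l2722 _))
                  (CovZ.n1 (-49896, 45216) (by decide +kernel)
                   (CovZ.leaf K2_ok TH_l2723 _)
                   (CovZ.leaf K2_ok TH_l2724 _))))
                (CovZ.n1 (-50040, 45144) (by decide +kernel)
                 (CovZ.n2 (-50040, 45216) (by decide +kernel)
                  (CovZ.leaf K2_ok TH_l2725 _)
                  (CovZ.leaf K2_ok TH_l2726 _))
                 (CovZ.n1 (-49968, 45144) (by decide +kernel)
                  (CovZ.leaf K2_ok TH_l2727 _)
                  (CovZ.leaf K2_ok TH_l2728 _))))))))

theorem TH_u41 : CovZ TH_M (toL (selN TH_LN 215623626634207726022110848388011959650101948647414853383297393770496)) [0, 7, 6, 1] (-50400, 44640) (-50544, 44784) (-50688, 44640) :=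
    (CovZ.n2 (-50544, 44640) (by decide +kernel)
                (CovZ.n2 (-50616, 44712) (by decide +kernel)
                 (CovZ.n2 (-50544, 44712) (by decide +kernel)
                  (CovZ.subM 43816495352349086650196141986249408701338098829565688138605518651392 (by decide +kernel)
                   (CovZ.n2 (-50580, 44676) (by decide +kernel)
                    (CovZ.n2 (-50580, 44712) (by decide +kernel)
                     (CovZ.n2 (-50562, 44694) (by decide +kernel)
                      (CovZ.n2 (-50580, 44694) (by decide +kernel)
                       (CovZ.leaf K2_ok TH_l2789 _)
                       (CovZ.badM (by decide +kernel)))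
                      (CovZ.leaf K2_ok TH_l2790 _))
                     (CovZ.n1 (-50598, 44694) (by decide +kernel)
                      (CovZ.n2 (-50598, 44712) (by decide +kernel)
                       (CovZ.leaf K2_ok TH_l2791 _)
                       (CovZ.leaf K2_ok TH_l2792 _))
                      (CovZ.n1 (-50580, 44694) (by decide +kernel)
                       (CovZ.badM (by decide +kernel))
                       (CovZ.leaf K2_ok TH_l2793 _))))
                    (CovZ.subM 26959946667150651767288428101776336598223294034331069502503002308608 (by decide +kernel)
                     (CovZ.n1 (-50544, 44676) (by decide +kernel)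
                      (CovZ.badM (by decide +kernel))
                      (CovZ.n1 (-50562, 44694) (by decide +kernel)
                       (CovZ.n2 (-50544, 44694) (by decide +kernel)
                        (CovZ.badM (by decide +kernel))
                        (CovZ.leaf K2_ok TH_l2794 _))
                       (CovZ.badM (by decide +kernel)))))))
                  (CovZ.n1 (-50580, 44748) (by decide +kernel)
                   (CovZ.n2 (-50544, 44748) (by decide +kernel)
                    (CovZ.n2 (-50562, 44730) (by decide +kernel)
                     (CovZ.n2 (-50562, 44748) (by decide +kernel)
                      (CovZ.leaf K2_ok TH_l2795 _)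
                      (CovZ.leaf K2_ok TH_l2796 _))
                     (CovZ.leaf K2_ok TH_l2797 _))
                    (CovZ.n1 (-50562, 44766) (by decide +kernel)
                     (CovZ.leaf K2_ok TH_l2798 _)
                     (CovZ.n1 (-50562, 44748) (by decide +kernel)
                      (CovZ.leaf K2_ok TH_l2799 _)
                      (CovZ.leaf K2_ok TH_l2800 _))))
                   (CovZ.subM 105861890592436992741169729687912841386609630426054340421554345607168 (by decide +kernel)
                    (CovZ.n1 (-50580, 44712) (by decide +kernel)
                     (CovZ.n2 (-50598, 44730) (by decide +kernel)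
                      (CovZ.leaf K2_ok TH_l2801 _)
                      (CovZ.leaf K2_ok TH_l2802 _))
                     (CovZ.n1 (-50562, 44730) (by decide +kernel)
                      (CovZ.n2 (-50562, 44712) (by decide +kernel)
                       (CovZ.leaf K2_ok TH_l2803 _)
                       (CovZ.leaf K2_ok TH_l2804 _))
                      (CovZ.n1 (-50580, 44730) (by decide +kernel)
                       (CovZ.leaf K2_ok TH_l2805 _)
                       (CovZ.leaf K2_ok TH_l2806 _)))))))
                 (CovZ.subM 43816495352349086650196141986249408701338098829565688138605518651392 (by decide +kernel)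
                  (CovZ.n1 (-50616, 44640) (by decide +kernel)
                   (CovZ.n2 (-50652, 44676) (by decide +kernel)
                    (CovZ.n2 (-50616, 44676) (by decide +kernel)
                     (CovZ.badM (by decide +kernel))
                     (CovZ.n1 (-50634, 44694) (by decide +kernel)
                      (CovZ.n2 (-50616, 44694) (by decide +kernel)
                       (CovZ.badM (by decide +kernel))
                       (CovZ.leaf K2_ok TH_l2807 _))
                      (CovZ.badM (by decide +kernel))))
                    (CovZ.badM (by decide +kernel)))
                   (CovZ.n1 (-50580, 44676) (by decide +kernel)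
                    (CovZ.badM (by decide +kernel))
                    (CovZ.n1 (-50616, 44676) (by decide +kernel)
                     (CovZ.n2 (-50598, 44694) (by decide +kernel)
                      (CovZ.badM (by decide +kernel))
                      (CovZ.n1 (-50616, 44694) (by decide +kernel)
                       (CovZ.leaf K2_ok TH_l2808 _)
                       (CovZ.badM (by decide +kernel))))
                     (CovZ.badM (by decide +kernel)))))))
                (CovZ.n1 (-50472, 44712) (by decide +kernel)
                 (CovZ.subM 26959946667150651767288428101776336598223294034331069502503002308608 (by decide +kernel)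
                  (CovZ.n2 (-50472, 44640) (by decide +kernel)
                   (CovZ.n2 (-50508, 44676) (by decide +kernel)
                    (CovZ.n2 (-50472, 44676) (by decide +kernel)
                     (CovZ.badM (by decide +kernel))
                     (CovZ.n1 (-50490, 44694) (by decide +kernel)
                      (CovZ.n2 (-50472, 44694) (by decide +kernel)
                       (CovZ.badM (by decide +kernel))
                       (CovZ.leaf K2_ok TH_l2809 _))
                      (CovZ.badM (by decide +kernel))))
                    (CovZ.badM (by decide +kernel)))
                   (CovZ.n1 (-50436, 44676) (by decide +kernel)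
                    (CovZ.badM (by decide +kernel))
                    (CovZ.n1 (-50472, 44676) (by decide +kernel)
                     (CovZ.n2 (-50454, 44694) (by decide +kernel)
                      (CovZ.badM (by decide +kernel))
                      (CovZ.n1 (-50472, 44694) (by decide +kernel)
                       (CovZ.leaf K2_ok TH_l2810 _)
                       (CovZ.badM (by decide +kernel))))
                     (CovZ.badM (by decide +kernel))))))
                 (CovZ.n1 (-50544, 44712) (by decide +kernel)
                  (CovZ.n2 (-50508, 44748) (by decide +kernel)
                   (CovZ.subM 43816495352349086650926892804914860160439941245923829648433484922880 (by decide +kernel)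
                    (CovZ.n2 (-50508, 44712) (by decide +kernel)
                     (CovZ.n2 (-50526, 44730) (by decide +kernel)
                      (CovZ.leaf K2_ok TH_l2811 _)
                      (CovZ.n1 (-50526, 44712) (by decide +kernel)
                       (CovZ.n2 (-50535, 44721) (by decide +kernel)
                        (CovZ.leaf K2_ok TH_l2812 _)
                        (CovZ.leaf K2_ok TH_l2813 _))
                       (CovZ.leaf K2_ok TH_l2814 _)))
                     (CovZ.n1 (-50490, 44730) (by decide +kernel)
                      (CovZ.n2 (-50490, 44712) (by decide +kernel)
                       (CovZ.leaf K2_ok TH_l2815 _)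
                       (CovZ.leaf K2_ok TH_l2816 _))
                      (CovZ.leaf K2_ok TH_l2817 _))))
                   (CovZ.n1 (-50544, 44748) (by decide +kernel)
                    (CovZ.n2 (-50526, 44766) (by decide +kernel)
                     (CovZ.leaf K2_ok TH_l2818 _)
                     (CovZ.leaf K2_ok TH_l2819 _))
                    (CovZ.n1 (-50526, 44730) (by decide +kernel)
                     (CovZ.n2 (-50544, 44730) (by decide +kernel)
                      (CovZ.leaf K2_ok TH_l2820 _)
                      (CovZ.leaf K2_ok TH_l2821 _))
                     (CovZ.leaf K2_ok TH_l2822 _))))
                  (CovZ.subM 26959946667150651767288428101776336598223294034331069502503002308608 (by decide +kernel)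
                   (CovZ.n1 (-50508, 44676) (by decide +kernel)
                    (CovZ.n2 (-50544, 44676) (by decide +kernel)
                     (CovZ.n2 (-50526, 44694) (by decide +kernel)
                      (CovZ.badM (by decide +kernel))
                      (CovZ.n1 (-50544, 44694) (by decide +kernel)
                       (CovZ.leaf K2_ok TH_l2823 _)
                       (CovZ.badM (by decide +kernel))))
                     (CovZ.badM (by decide +kernel)))
                    (CovZ.n1 (-50508, 44712) (by decide +kernel)
                     (CovZ.n2 (-50490, 44694) (by decide +kernel)
                      (CovZ.n2 (-50508, 44694) (by decide +kernel)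
                       (CovZ.leaf K2_ok TH_l2824 _)
                       (CovZ.badM (by decide +kernel)))
                      (CovZ.n1 (-50490, 44712) (by decide +kernel)
                       (CovZ.leaf K2_ok TH_l2825 _)
                       (CovZ.leaf K2_ok TH_l2826 _)))
                     (CovZ.n1 (-50526, 44694) (by decide +kernel)
                      (CovZ.n2 (-50526, 44712) (by decide +kernel)
                       (CovZ.leaf K2_ok TH_l2827 _)
                       (CovZ.leaf K2_ok TH_l2828 _))
                      (CovZ.n1 (-50508, 44694) (by decide +kernel)
                       (CovZ.badM (by decide +kernel))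
                       (CovZ.leaf K2_ok TH_l2829 _)))))))))

theorem TH_u42 : CovZ TH_M (toL (selN TH_LN 215623626634207726022110848388011959650101948647414853383297393770496)) [0, 7, 6, 1] (-50544, 44784) (-50688, 44928) (-50688, 44640) :=
    (CovZ.n1 (-50688, 44784) (by decide +kernel)
                (CovZ.n2 (-50616, 44856) (by decide +kernel)
                 (CovZ.n2 (-50616, 44784) (by decide +kernel)
                  (CovZ.n2 (-50652, 44820) (by decide +kernel)
                   (CovZ.n2 (-50616, 44820) (by decide +kernel)
                    (CovZ.n2 (-50634, 44802) (by decide +kernel)
                     (CovZ.leaf K2_ok TH_l2830 _)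
                     (CovZ.leaf K2_ok TH_l2831 _))
                    (CovZ.leaf K2_ok TH_l2832 _))
                   (CovZ.n1 (-50652, 44784) (by decide +kernel)
                    (CovZ.n2 (-50670, 44802) (by decide +kernel)
                     (CovZ.leaf K2_ok TH_l2833 _)
                     (CovZ.leaf K2_ok TH_l2834 _))
                    (CovZ.n1 (-50634, 44802) (by decide +kernel)
                     (CovZ.leaf K2_ok TH_l2835 _)
                     (CovZ.leaf K2_ok TH_l2836 _))))
                  (CovZ.n1 (-50580, 44820) (by decide +kernel)
                   (CovZ.n2 (-50580, 44784) (by decide +kernel)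
                    (CovZ.n2 (-50598, 44802) (by decide +kernel)
                     (CovZ.leaf K2_ok TH_l2837 _)
                     (CovZ.leaf K2_ok TH_l2838 _))
                    (CovZ.n1 (-50562, 44802) (by decide +kernel)
                     (CovZ.leaf K2_ok TH_l2839 _)
                     (CovZ.leaf K2_ok TH_l2840 _)))
                   (CovZ.n1 (-50616, 44820) (by decide +kernel)
                    (CovZ.leaf K2_ok TH_l2841 _)
                    (CovZ.n1 (-50598, 44802) (by decide +kernel)
                     (CovZ.leaf K2_ok TH_l2842 _)
                     (CovZ.leaf K2_ok TH_l2843 _)))))
                 (CovZ.n1 (-50688, 44856) (by decide +kernel)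
                  (CovZ.n2 (-50652, 44892) (by decide +kernel)
                   (CovZ.n2 (-50652, 44856) (by decide +kernel)
                    (CovZ.leaf K2_ok TH_l2844 _)
                    (CovZ.leaf K2_ok TH_l2845 _))
                   (CovZ.leaf K2_ok TH_l2846 _))
                  (CovZ.n1 (-50652, 44820) (by decide +kernel)
                   (CovZ.n2 (-50688, 44820) (by decide +kernel)
                    (CovZ.leaf K2_ok TH_l2847 _)
                    (CovZ.n1 (-50670, 44802) (by decide +kernel)
                     (CovZ.leaf K2_ok TH_l2848 _)
                     (CovZ.leaf K2_ok TH_l2849 _)))
                   (CovZ.n1 (-50652, 44856) (by decide +kernel)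
                    (CovZ.leaf K2_ok TH_l2850 _)
                    (CovZ.leaf K2_ok TH_l2851 _)))))
                (CovZ.n1 (-50616, 44712) (by decide +kernel)
                 (CovZ.n2 (-50688, 44712) (by decide +kernel)
                  (CovZ.n2 (-50652, 44748) (by decide +kernel)
                   (CovZ.n2 (-50652, 44712) (by decide +kernel)
                    (CovZ.n2 (-50670, 44730) (by decide +kernel)
                     (CovZ.n2 (-50652, 44730) (by decide +kernel)
                      (CovZ.leaf K2_ok TH_l2852 _)
                      (CovZ.leaf K2_ok TH_l2853 _))
                     (CovZ.n1 (-50670, 44712) (by decide +kernel)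
                      (CovZ.leaf K2_ok TH_l2854 _)
                      (CovZ.leaf K2_ok TH_l2855 _)))
                    (CovZ.n1 (-50634, 44730) (by decide +kernel)
                     (CovZ.n2 (-50634, 44712) (by decide +kernel)
                      (CovZ.leaf K2_ok TH_l2856 _)
                      (CovZ.leaf K2_ok TH_l2857 _))
                     (CovZ.leaf K2_ok TH_l2858 _)))
                   (CovZ.n1 (-50688, 44748) (by decide +kernel)
                    (CovZ.n2 (-50670, 44766) (by decide +kernel)
                     (CovZ.leaf K2_ok TH_l2859 _)
                     (CovZ.leaf K2_ok TH_l2860 _))
                    (CovZ.n1 (-50670, 44730) (by decide +kernel)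
                     (CovZ.leaf K2_ok TH_l2861 _)
                     (CovZ.leaf K2_ok TH_l2862 _))))
                  (CovZ.n1 (-50652, 44676) (by decide +kernel)
                   (CovZ.n2 (-50688, 44676) (by decide +kernel)
                    (CovZ.n2 (-50670, 44694) (by decide +kernel)
                     (CovZ.n2 (-50670, 44676) (by decide +kernel)
                      (CovZ.n2 (-50679, 44685) (by decide +kernel)
                       (CovZ.leaf K2_ok TH_l8162 _)
                       (CovZ.leaf K2_ok TH_l8163 _))
                      (CovZ.leaf K2_ok TH_l8164 _))
                     (CovZ.n1 (-50688, 44694) (by decide +kernel)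
                      (CovZ.leaf K2_ok TH_l2863 _)
                      (CovZ.leaf K2_ok TH_l8165 _)))
                    (CovZ.n1 (-50670, 44658) (by decide +kernel)
                     (CovZ.badM (by decide +kernel))
                     (CovZ.n1 (-50670, 44676) (by decide +kernel)
                      (CovZ.badM (by decide +kernel))
                      (CovZ.badM (by decide +kernel)))))
                   (CovZ.n1 (-50652, 44712) (by decide +kernel)
                    (CovZ.n2 (-50634, 44694) (by decide +kernel)
                     (CovZ.n2 (-50652, 44694) (by decide +kernel)
                      (CovZ.leaf K2_ok TH_l2864 _)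
                      (CovZ.badM (by decide +kernel)))
                     (CovZ.leaf K2_ok TH_l2865 _))
                    (CovZ.n1 (-50670, 44694) (by decide +kernel)
                     (CovZ.n2 (-50670, 44712) (by decide +kernel)
                      (CovZ.leaf K2_ok TH_l2866 _)
                      (CovZ.leaf K2_ok TH_l2867 _))
                     (CovZ.leaf K2_ok TH_l2868 _)))))
                 (CovZ.n1 (-50616, 44784) (by decide +kernel)
                  (CovZ.n2 (-50580, 44748) (by decide +kernel)
                   (CovZ.n2 (-50616, 44748) (by decide +kernel)
                    (CovZ.n2 (-50598, 44766) (by decide +kernel)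
                     (CovZ.n2 (-50598, 44748) (by decide +kernel)
                      (CovZ.leaf K2_ok TH_l2869 _)
                      (CovZ.leaf K2_ok TH_l2870 _))
                     (CovZ.leaf K2_ok TH_l2871 _))
                    (CovZ.n1 (-50598, 44730) (by decide +kernel)
                     (CovZ.leaf K2_ok TH_l2872 _)
                     (CovZ.n1 (-50598, 44748) (by decide +kernel)
                      (CovZ.leaf K2_ok TH_l2873 _)
                      (CovZ.leaf K2_ok TH_l2874 _))))
                   (CovZ.n1 (-50580, 44784) (by decide +kernel)
                    (CovZ.n2 (-50562, 44766) (by decide +kernel)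
                     (CovZ.leaf K2_ok TH_l2875 _)
                     (CovZ.leaf K2_ok TH_l2876 _))
                    (CovZ.n1 (-50598, 44766) (by decide +kernel)
                     (CovZ.leaf K2_ok TH_l2877 _)
                     (CovZ.leaf K2_ok TH_l2878 _))))
                  (CovZ.n1 (-50652, 44748) (by decide +kernel)
                   (CovZ.n2 (-50652, 44784) (by decide +kernel)
                    (CovZ.n2 (-50634, 44766) (by decide +kernel)
                     (CovZ.leaf K2_ok TH_l2879 _)
                     (CovZ.leaf K2_ok TH_l2880 _))
                    (CovZ.n1 (-50670, 44766) (by decide +kernel)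
                     (CovZ.leaf K2_ok TH_l2881 _)
                     (CovZ.leaf K2_ok TH_l2882 _)))
                   (CovZ.n1 (-50616, 44748) (by decide +kernel)
                    (CovZ.n2 (-50634, 44730) (by decide +kernel)
                     (CovZ.leaf K2_ok TH_l2883 _)
                     (CovZ.leaf K2_ok TH_l2884 _))
                    (CovZ.n1 (-50634, 44766) (by decide +kernel)
                     (CovZ.leaf K2_ok TH_l2885 _)
                     (CovZ.n1 (-50634, 44748) (by decide +kernel)
                      (CovZ.leaf K2_ok TH_l2886 _)
                      (CovZ.leaf K2_ok TH_l2887 _))))))))

theorem TH_u43 : CovZ TH_M (toL (selN TH_LN 862663188917068757400380982136712816203618761349281481784451126050818)) [0, 7, 6, 1] (-50688, 44928) (-50688, 44352) (-50112, 44352) :=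
    (CovZ.subM 431304029182853713620659953394927402764655380313867681377768130494464 (by decide +kernel)
           (CovZ.n2 (-50400, 44640) (by decide +kernel)
            (CovZ.subM 215680402548645987598549105006915443114553431666452827994470736723968 (by decide +kernel)
             (CovZ.n2 (-50400, 44352) (by decide +kernel)
              (CovZ.n2 (-50544, 44496) (by decide +kernel)
               (CovZ.badM (by decide +kernel))
               (CovZ.n1 (-50544, 44352) (by decide +kernel)
                (CovZ.n2 (-50616, 44424) (by decide +kernel)
                 (CovZ.subM 215679573337205118357347538677719960716078180624278091626541723156480 (by decide +kernel)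
                  (CovZ.n2 (-50544, 44424) (by decide +kernel)
                   (CovZ.n2 (-50580, 44388) (by decide +kernel)
                    (CovZ.badM (by decide +kernel))
                    (CovZ.n1 (-50544, 44388) (by decide +kernel)
                     (CovZ.n2 (-50562, 44370) (by decide +kernel)
                      (CovZ.leaf K2_ok TH_l2772 _)
                      (CovZ.leaf K2_ok TH_l2773 _))
                     (CovZ.badM (by decide +kernel))))
                   (CovZ.badM (by decide +kernel))))
                 (CovZ.n1 (-50616, 44352) (by decide +kernel)
                  (CovZ.n2 (-50652, 44388) (by decide +kernel)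
                   (CovZ.n2 (-50616, 44388) (by decide +kernel)
                    (CovZ.leaf K2_ok TH_l2774 _)
                    (CovZ.leaf K2_ok TH_l2775 _))
                   (CovZ.leaf K2_ok TH_l2776 _))
                  (CovZ.n1 (-50580, 44388) (by decide +kernel)
                   (CovZ.leaf K2_ok TH_l2777 _)
                   (CovZ.n1 (-50616, 44388) (by decide +kernel)
                    (CovZ.n2 (-50598, 44406) (by decide +kernel)
                     (CovZ.leaf K2_ok TH_l2778 _)
                     (CovZ.leaf K2_ok TH_l2779 _))
                    (CovZ.leaf K2_ok TH_l2780 _)))))
                (CovZ.subM 215679573337205118357347538677719960716078180624278091626541723156480 (by decide +kernel)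
                 (CovZ.n1 (-50472, 44424) (by decide +kernel)
                  (CovZ.n2 (-50472, 44352) (by decide +kernel)
                   (CovZ.n2 (-50508, 44388) (by decide +kernel)
                    (CovZ.badM (by decide +kernel))
                    (CovZ.n1 (-50508, 44352) (by decide +kernel)
                     (CovZ.n2 (-50526, 44370) (by decide +kernel)
                      (CovZ.n2 (-50508, 44370) (by decide +kernel)
                       (CovZ.leaf K2_ok TH_l2781 _)
                       (CovZ.n1 (-50517, 44379) (by decide +kernel)
                        (CovZ.badM (by decide +kernel))
                        (CovZ.leaf K2_ok TH_l2782 _)))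
                      (CovZ.leaf K2_ok TH_l2783 _))
                     (CovZ.n1 (-50490, 44370) (by decide +kernel)
                      (CovZ.n2 (-50490, 44352) (by decide +kernel)
                       (CovZ.n2 (-50499, 44361) (by decide +kernel)
                        (CovZ.badM (by decide +kernel))
                        (CovZ.leaf K2_ok TH_l2784 _))
                       (CovZ.badM (by decide +kernel)))
                      (CovZ.n1 (-50508, 44370) (by decide +kernel)
                       (CovZ.badM (by decide +kernel))
                       (CovZ.leaf K2_ok TH_l2785 _)))))
                   (CovZ.badM (by decide +kernel)))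
                  (CovZ.n1 (-50544, 44424) (by decide +kernel)
                   (CovZ.badM (by decide +kernel))
                   (CovZ.n1 (-50508, 44388) (by decide +kernel)
                    (CovZ.n2 (-50544, 44388) (by decide +kernel)
                     (CovZ.n2 (-50526, 44406) (by decide +kernel)
                      (CovZ.n2 (-50526, 44388) (by decide +kernel)
                       (CovZ.badM (by decide +kernel))
                       (CovZ.badM (by decide +kernel)))
                      (CovZ.badM (by decide +kernel)))
                     (CovZ.n1 (-50526, 44370) (by decide +kernel)
                      (CovZ.leaf K2_ok TH_l2786 _)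
                      (CovZ.n1 (-50526, 44388) (by decide +kernel)
                       (CovZ.n2 (-50517, 44379) (by decide +kernel)
                        (CovZ.leaf K2_ok TH_l2787 _)
                        (CovZ.badM (by decide +kernel)))
                       (CovZ.leaf K2_ok TH_l2788 _))))
                    (CovZ.badM (by decide +kernel))))))))
              (CovZ.badM (by decide +kernel))))
            (CovZ.n1 (-50688, 44640) (by decide +kernel)
             (CovZ.subM 215623626634207726022110848388011959650101948647414853383297393770496 (by decide +kernel)
              (CovZ.n2 (-50544, 44784) (by decide +kernel)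
               TH_u41
               TH_u42))
             (CovZ.subM 215680396095785400627885926527312480640558310500345355066981970083840 (by decide +kernel)
              (CovZ.n1 (-50544, 44496) (by decide +kernel)
               (CovZ.n2 (-50688, 44496) (by decide +kernel)
                (CovZ.badM (by decide +kernel))
                (CovZ.n1 (-50616, 44424) (by decide +kernel)
                 (CovZ.n2 (-50688, 44424) (by decide +kernel)
                  (CovZ.subM 215680396089508298891939764667914687295884781005076233988314649067520 (by decide +kernel)
                   (CovZ.n2 (-50652, 44460) (by decide +kernel)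
                    (CovZ.n2 (-50652, 44424) (by decide +kernel)
                     (CovZ.n2 (-50670, 44442) (by decide +kernel)
                      (CovZ.leaf K2_ok TH_l2888 _)
                      (CovZ.leaf K2_ok TH_l2889 _))
                     (CovZ.n1 (-50634, 44442) (by decide +kernel)
                      (CovZ.leaf K2_ok TH_l2890 _)
                      (CovZ.leaf K2_ok TH_l2891 _)))
                    (CovZ.n1 (-50688, 44460) (by decide +kernel)
                     (CovZ.n2 (-50670, 44478) (by decide +kernel)
                      (CovZ.leaf K2_ok TH_l2892 _)
                      (CovZ.leaf K2_ok TH_l2893 _))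
                     (CovZ.n1 (-50670, 44442) (by decide +kernel)
                      (CovZ.leaf K2_ok TH_l2894 _)
                      (CovZ.leaf K2_ok TH_l2895 _)))))
                  (CovZ.n1 (-50652, 44388) (by decide +kernel)
                   (CovZ.leaf K2_ok TH_l2896 _)
                   (CovZ.leaf K2_ok TH_l2897 _)))
                 (CovZ.badM (by decide +kernel))))
               (CovZ.badM (by decide +kernel)))))))

end Pool.Agent.TET
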