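import Pool.Agent.Helper38_TET.TH_M
import Pool.Agent.Helper38_TET.TH_L
import Pool.Agent.Helper38_TET.TH_18
import Pool.Agent.Helper38_TET.TH_19
import Pool.Agent.Helper38_TET.TH_20
import Pool.Agent.Helper38_TET.TH_21
import Pool.Agent.Helper38_TET.TH_22
import Pool.Agent.Helper38_TET.TH_23
import Pool.Agent.Helper38_TET.TH_24
import Pool.Agent.Helper38_TET.TH_25
import Pool.Agent.Helper38_TET.TH_26
import Pool.Agent.Helper38_TET.TH_55
import Pool.Agent.Helper38_TET.TH_U2

/-!
# MP_c7c9bf_co: certificates, family TH
-/

set_option autoImplicit false
set_option maxRecDepth 100000

namespace Pool.Agent.TET

theorem TH_u44 : CovZ TH_M (toL (selN TH_LN 862663188917068757400380982136712816203618761349281481784451126050818)) [0, 7, 6, 1] (-50688, 44352) (-50688, 43776) (-50112, 44352) :=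
    (CovZ.subM 647039562282860623934994282197322394937779388506171630703521758740482 (by decide +kernel)
           (CovZ.n1 (-50400, 44064) (by decide +kernel)
            (CovZ.n2 (-50688, 44064) (by decide +kernel)
             (CovZ.n2 (-50544, 44208) (by decide +kernel)
              (CovZ.n2 (-50544, 44064) (by decide +kernel)
               (CovZ.leaf K2_ok TH_l2898 _)
               (CovZ.n1 (-50472, 44136) (by decide +kernel)
                (CovZ.leaf K2_ok TH_l2899 _)
                (CovZ.leaf K2_ok TH_l2900 _)))
              (CovZ.n1 (-50688, 44208) (by decide +kernel)
               (CovZ.n2 (-50616, 44280) (by decide +kernel)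
                (CovZ.leaf K2_ok TH_l2901 _)
                (CovZ.leaf K2_ok TH_l2902 _))
               (CovZ.leaf K2_ok TH_l2903 _)))
             (CovZ.n1 (-50544, 43920) (by decide +kernel)
              (CovZ.leaf K2_ok TH_l2904 _)
              (CovZ.n1 (-50544, 44064) (by decide +kernel)
               (CovZ.leaf K2_ok TH_l2905 _)
               (CovZ.leaf K2_ok TH_l2906 _))))
            (CovZ.subM 215680415404150341670562653194945363276241982939479187125236348747776 (by decide +kernel)
             (CovZ.n1 (-50400, 44352) (by decide +kernel)
              (CovZ.n2 (-50256, 44208) (by decide +kernel)
               (CovZ.n2 (-50400, 44208) (by decide +kernel)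
                (CovZ.n2 (-50328, 44280) (by decide +kernel)
                 (CovZ.n2 (-50328, 44208) (by decide +kernel)
                  (CovZ.subM 215680396095785400627703238822646117775624393873458817975589221171200 (by decide +kernel)
                   (CovZ.n2 (-50364, 44244) (by decide +kernel)
                    (CovZ.badM (by decide +kernel))
                    (CovZ.n1 (-50364, 44208) (by decide +kernel)
                     (CovZ.n2 (-50382, 44226) (by decide +kernel)
                      (CovZ.leaf K2_ok TH_l2907 _)
                      (CovZ.leaf K2_ok TH_l2908 _))
                     (CovZ.n1 (-50346, 44226) (by decide +kernel)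
                      (CovZ.leaf K2_ok TH_l2909 _)
                      (CovZ.n1 (-50364, 44226) (by decide +kernel)
                       (CovZ.badM (by decide +kernel))
                       (CovZ.leaf K2_ok TH_l2910 _))))))
                  (CovZ.badM (by decide +kernel)))
                 (CovZ.subM 215680396095785400627703238822646117775624393873458817975589221171200 (by decide +kernel)
                  (CovZ.n1 (-50400, 44280) (by decide +kernel)
                   (CovZ.badM (by decide +kernel))
                   (CovZ.n1 (-50364, 44244) (by decide +kernel)
                    (CovZ.n2 (-50400, 44244) (by decide +kernel)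
                     (CovZ.n2 (-50382, 44262) (by decide +kernel)
                      (CovZ.n2 (-50382, 44244) (by decide +kernel)
                       (CovZ.leaf K2_ok TH_l2911 _)
                       (CovZ.badM (by decide +kernel)))
                      (CovZ.leaf K2_ok TH_l2912 _))
                     (CovZ.n1 (-50382, 44226) (by decide +kernel)
                      (CovZ.leaf K2_ok TH_l2913 _)
                      (CovZ.leaf K2_ok TH_l2914 _)))
                    (CovZ.badM (by decide +kernel))))))
                (CovZ.n1 (-50328, 44136) (by decide +kernel)
                 (CovZ.n2 (-50400, 44136) (by decide +kernel)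
                  (CovZ.n2 (-50364, 44172) (by decide +kernel)
                   (CovZ.leaf K2_ok TH_l2915 _)
                   (CovZ.leaf K2_ok TH_l2916 _))
                  (CovZ.leaf K2_ok TH_l2917 _))
                 (CovZ.n1 (-50328, 44208) (by decide +kernel)
                  (CovZ.n2 (-50292, 44172) (by decide +kernel)
                   (CovZ.n2 (-50328, 44172) (by decide +kernel)
                    (CovZ.subM 215680396089483778960733991571643965121515418500651739882319446540288 (by decide +kernel)
                     (CovZ.n2 (-50310, 44190) (by decide +kernel)
                      (CovZ.n2 (-50310, 44172) (by decide +kernel)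
                       (CovZ.leaf K2_ok TH_l2918 _)
                       (CovZ.leaf K2_ok TH_l2919 _))
                      (CovZ.n1 (-50328, 44190) (by decide +kernel)
                       (CovZ.leaf K2_ok TH_l2920 _)
                       (CovZ.leaf K2_ok TH_l2921 _))))
                    (CovZ.n1 (-50310, 44154) (by decide +kernel)
                     (CovZ.leaf K2_ok TH_l2922 _)
                     (CovZ.leaf K2_ok TH_l2923 _)))
                   (CovZ.badM (by decide +kernel)))
                  (CovZ.subM 215680408951289754699625443158342856504925214051082768237931903582208 (by decide +kernel)
                   (CovZ.n1 (-50364, 44172) (by decide +kernel)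
                    (CovZ.n2 (-50364, 44208) (by decide +kernel)
                     (CovZ.n2 (-50346, 44190) (by decide +kernel)
                      (CovZ.leaf K2_ok TH_l2924 _)
                      (CovZ.leaf K2_ok TH_l2925 _))
                     (CovZ.leaf K2_ok TH_l2926 _))
                    (CovZ.n1 (-50328, 44172) (by decide +kernel)
                     (CovZ.leaf K2_ok TH_l2927 _)
                     (CovZ.n1 (-50346, 44190) (by decide +kernel)
                      (CovZ.leaf K2_ok TH_l2928 _)
                      (CovZ.leaf K2_ok TH_l2929 _))))))))
               (CovZ.badM (by decide +kernel)))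
              (CovZ.n1 (-50544, 44208) (by decide +kernel)
               (CovZ.n2 (-50544, 44352) (by decide +kernel)
                (CovZ.n2 (-50472, 44280) (by decide +kernel)
                 (CovZ.n2 (-50544, 44280) (by decide +kernel)
                  (CovZ.subM 215680396095785400627703238822646117775624393873458745917995183243264 (by decide +kernel)
                   (CovZ.n2 (-50508, 44316) (by decide +kernel)
                    (CovZ.n2 (-50508, 44280) (by decide +kernel)
                     (CovZ.leaf K2_ok TH_l2930 _)
                     (CovZ.leaf K2_ok TH_l2931 _))
                    (CovZ.n1 (-50544, 44316) (by decide +kernel)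
                     (CovZ.n2 (-50526, 44334) (by decide +kernel)
                      (CovZ.leaf K2_ok TH_l2932 _)
                      (CovZ.leaf K2_ok TH_l2933 _))
                     (CovZ.leaf K2_ok TH_l2934 _))))
                  (CovZ.n1 (-50508, 44244) (by decide +kernel)
                   (CovZ.leaf K2_ok TH_l2935 _)
                   (CovZ.leaf K2_ok TH_l2936 _)))
                 (CovZ.subM 215680396089508298889393554784148522516009357791923824434219283644416 (by decide +kernel)
                  (CovZ.n1 (-50472, 44352) (by decide +kernel)
                   (CovZ.n2 (-50436, 44316) (by decide +kernel)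
                    (CovZ.n2 (-50472, 44316) (by decide +kernel)
                     (CovZ.subM 11417981562915326981025243953511777712841162752 (by decide +kernel)
                      (CovZ.n2 (-50454, 44334) (by decide +kernel)
                       (CovZ.n2 (-50454, 44316) (by decide +kernel)
                        (CovZ.leaf K2_ok TH_l2937 _)
                        (CovZ.badM (by decide +kernel)))
                       (CovZ.n1 (-50472, 44334) (by decide +kernel)
                        (CovZ.badM (by decide +kernel))
                        (CovZ.leaf K2_ok TH_l2938 _))))
                     (CovZ.n1 (-50454, 44298) (by decide +kernel)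
                      (CovZ.leaf K2_ok TH_l2939 _)
                      (CovZ.n1 (-50454, 44316) (by decide +kernel)
                       (CovZ.n2 (-50445, 44307) (by decide +kernel)
                        (CovZ.leaf K2_ok TH_l2940 _)
                        (CovZ.badM (by decide +kernel)))
                       (CovZ.leaf K2_ok TH_l2941 _))))
                    (CovZ.badM (by decide +kernel)))
                   (CovZ.n1 (-50508, 44316) (by decide +kernel)
                    (CovZ.n2 (-50508, 44352) (by decide +kernel)
                     (CovZ.n2 (-50490, 44334) (by decide +kernel)
                      (CovZ.leaf K2_ok TH_l2942 _)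
                      (CovZ.n1 (-50490, 44352) (by decide +kernel)
                       (CovZ.n2 (-50481, 44343) (by decide +kernel)
                        (CovZ.leaf K2_ok TH_l2943 _)
                        (CovZ.badM (by decide +kernel)))
                       (CovZ.leaf K2_ok TH_l2944 _)))
                     (CovZ.n1 (-50526, 44334) (by decide +kernel)
                      (CovZ.leaf K2_ok TH_l2945 _)
                      (CovZ.leaf K2_ok TH_l2946 _)))
                    (CovZ.n1 (-50472, 44316) (by decide +kernel)
                     (CovZ.n2 (-50490, 44298) (by decide +kernel)
                      (CovZ.leaf K2_ok TH_l2947 _)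
                      (CovZ.leaf K2_ok TH_l2948 _))
                     (CovZ.n1 (-50490, 44334) (by decide +kernel)
                      (CovZ.n2 (-50472, 44334) (by decide +kernel)
                       (CovZ.leaf K2_ok TH_l2949 _)
                       (CovZ.n1 (-50481, 44343) (by decide +kernel)
                        (CovZ.badM (by decide +kernel))
                        (CovZ.leaf K2_ok TH_l2950 _)))
                      (CovZ.leaf K2_ok TH_l2951 _)))))))
                (CovZ.n1 (-50616, 44280) (by decide +kernel)
                 (CovZ.n2 (-50616, 44352) (by decide +kernel)
                  (CovZ.n2 (-50580, 44316) (by decide +kernel)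
                   (CovZ.leaf K2_ok TH_l2952 _)
                   (CovZ.leaf K2_ok TH_l2953 _))
                  (CovZ.leaf K2_ok TH_l2954 _))
                 (CovZ.n1 (-50544, 44280) (by decide +kernel)
                  (CovZ.leaf K2_ok TH_l2955 _)
                  (CovZ.n1 (-50580, 44316) (by decide +kernel)
                   (CovZ.n2 (-50544, 44316) (by decide +kernel)
                    (CovZ.leaf K2_ok TH_l2956 _)
                    (CovZ.leaf K2_ok TH_l2957 _))
                   (CovZ.leaf K2_ok TH_l2958 _)))))
               (CovZ.n1 (-50400, 44208) (by decide +kernel)
                (CovZ.n2 (-50472, 44136) (by decide +kernel)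
                 (CovZ.n2 (-50472, 44208) (by decide +kernel)
                  (CovZ.leaf K2_ok TH_l2959 _)
                  (CovZ.leaf K2_ok TH_l2960 _))
                 (CovZ.n1 (-50400, 44136) (by decide +kernel)
                  (CovZ.leaf K2_ok TH_l2961 _)
                  (CovZ.leaf K2_ok TH_l2962 _)))
                (CovZ.n1 (-50472, 44280) (by decide +kernel)
                 (CovZ.subM 215680396095785400627703238822646117775624393873458817975589221171200 (by decide +kernel)
                  (CovZ.n2 (-50400, 44280) (by decide +kernel)
                   (CovZ.n2 (-50436, 44244) (by decide +kernel)
                    (CovZ.n2 (-50436, 44280) (by decide +kernel)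
                     (CovZ.n2 (-50418, 44262) (by decide +kernel)
                      (CovZ.leaf K2_ok TH_l2963 _)
                      (CovZ.leaf K2_ok TH_l2964 _))
                     (CovZ.n1 (-50454, 44262) (by decide +kernel)
                      (CovZ.leaf K2_ok TH_l2965 _)
                      (CovZ.leaf K2_ok TH_l2966 _)))
                    (CovZ.n1 (-50400, 44244) (by decide +kernel)
                     (CovZ.leaf K2_ok TH_l2967 _)
                     (CovZ.n1 (-50418, 44262) (by decide +kernel)
                      (CovZ.leaf K2_ok TH_l2968 _)
                      (CovZ.leaf K2_ok TH_l2969 _))))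
                   (CovZ.n1 (-50436, 44316) (by decide +kernel)
                    (CovZ.badM (by decide +kernel))
                    (CovZ.n1 (-50436, 44280) (by decide +kernel)
                     (CovZ.n2 (-50454, 44298) (by decide +kernel)
                      (CovZ.n2 (-50436, 44298) (by decide +kernel)
                       (CovZ.leaf K2_ok TH_l2970 _)
                       (CovZ.n1 (-50445, 44307) (by decide +kernel)
                        (CovZ.badM (by decide +kernel))
                        (CovZ.leaf K2_ok TH_l2971 _)))
                      (CovZ.leaf K2_ok TH_l2972 _))
                     (CovZ.subM 11417981562915326981025243953511777712841162752 (by decide +kernel)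
                      (CovZ.n1 (-50418, 44298) (by decide +kernel)
                       (CovZ.n2 (-50418, 44280) (by decide +kernel)
                        (CovZ.leaf K2_ok TH_l2973 _)
                        (CovZ.badM (by decide +kernel)))
                       (CovZ.n1 (-50436, 44298) (by decide +kernel)
                        (CovZ.badM (by decide +kernel))
                        (CovZ.leaf K2_ok TH_l2974 _))))))))
                 (CovZ.n1 (-50472, 44208) (by decide +kernel)
                  (CovZ.n2 (-50508, 44244) (by decide +kernel)
                   (CovZ.leaf K2_ok TH_l2975 _)
                   (CovZ.leaf K2_ok TH_l2976 _))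
                  (CovZ.n1 (-50436, 44244) (by decide +kernel)
                   (CovZ.leaf K2_ok TH_l2977 _)
                   (CovZ.leaf K2_ok TH_l2978 _))))))))))

theorem TH_u45 : CovZ TH_M (toL (selN TH_LN 215623626634207726022111205199935136140072213218907215792265861545984)) [0, 7, 6, 1] (-50112, 44928) (-50400, 44928) (-50400, 44640) :=
    (CovZ.subM 75137029146617736339667271517732333598840824624854090813295218933760 (by decide +kernel)
              (CovZ.n2 (-50256, 44784) (by decide +kernel)
               (CovZ.n2 (-50400, 44784) (by decide +kernel)
                (CovZ.n2 (-50328, 44856) (by decide +kernel)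
                 (CovZ.n2 (-50328, 44784) (by decide +kernel)
                  (CovZ.n2 (-50364, 44820) (by decide +kernel)
                   (CovZ.subM 115185319012496582644470435891293990006599710069074127793160192000 (by decide +kernel)
                    (CovZ.n2 (-50328, 44820) (by decide +kernel)
                     (CovZ.n2 (-50346, 44802) (by decide +kernel)
                      (CovZ.leaf K2_ok TH_l2979 _)
                      (CovZ.leaf K2_ok TH_l2980 _))
                     (CovZ.n1 (-50346, 44838) (by decide +kernel)
                      (CovZ.leaf K2_ok TH_l2981 _)
                      (CovZ.leaf K2_ok TH_l2982 _))))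
                   (CovZ.n1 (-50364, 44784) (by decide +kernel)
                    (CovZ.n2 (-50382, 44802) (by decide +kernel)
                     (CovZ.leaf K2_ok TH_l2983 _)
                     (CovZ.n1 (-50382, 44784) (by decide +kernel)
                      (CovZ.leaf K2_ok TH_l2984 _)
                      (CovZ.leaf K2_ok TH_l2985 _)))
                    (CovZ.n1 (-50346, 44802) (by decide +kernel)
                     (CovZ.leaf K2_ok TH_l2986 _)
                     (CovZ.leaf K2_ok TH_l2987 _))))
                  (CovZ.subM 115185319012496582644470435891293990006599710069074127793160192000 (by decide +kernel)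
                   (CovZ.n1 (-50292, 44820) (by decide +kernel)
                    (CovZ.n2 (-50292, 44784) (by decide +kernel)
                     (CovZ.n2 (-50310, 44802) (by decide +kernel)
                      (CovZ.leaf K2_ok TH_l2988 _)
                      (CovZ.leaf K2_ok TH_l2989 _))
                     (CovZ.badM (by decide +kernel)))
                    (CovZ.n1 (-50328, 44820) (by decide +kernel)
                     (CovZ.n2 (-50310, 44838) (by decide +kernel)
                      (CovZ.leaf K2_ok TH_l2990 _)
                      (CovZ.leaf K2_ok TH_l2991 _))
                     (CovZ.n1 (-50310, 44802) (by decide +kernel)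
                      (CovZ.leaf K2_ok TH_l2992 _)
                      (CovZ.leaf K2_ok TH_l2993 _))))))
                 (CovZ.n1 (-50400, 44856) (by decide +kernel)
                  (CovZ.n2 (-50364, 44892) (by decide +kernel)
                   (CovZ.n2 (-50364, 44856) (by decide +kernel)
                    (CovZ.n2 (-50382, 44874) (by decide +kernel)
                     (CovZ.leaf K2_ok TH_l2994 _)
                     (CovZ.leaf K2_ok TH_l2995 _))
                    (CovZ.leaf K2_ok TH_l2996 _))
                   (CovZ.leaf K2_ok TH_l2997 _))
                  (CovZ.n1 (-50364, 44820) (by decide +kernel)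
                   (CovZ.n2 (-50400, 44820) (by decide +kernel)
                    (CovZ.leaf K2_ok TH_l2998 _)
                    (CovZ.n1 (-50382, 44802) (by decide +kernel)
                     (CovZ.leaf K2_ok TH_l2999 _)
                     (CovZ.leaf K2_ok TH_l3000 _)))
                   (CovZ.n1 (-50364, 44856) (by decide +kernel)
                    (CovZ.leaf K2_ok TH_l3001 _)
                    (CovZ.leaf K2_ok TH_l3002 _)))))
                (CovZ.subM 13486555351804616694123540434996750663424652766523317581404591620096 (by decide +kernel)
                 (CovZ.n1 (-50328, 44712) (by decide +kernel)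
                  (CovZ.n2 (-50400, 44712) (by decide +kernel)
                   (CovZ.n2 (-50364, 44748) (by decide +kernel)
                    (CovZ.n2 (-50364, 44712) (by decide +kernel)
                     (CovZ.n2 (-50382, 44730) (by decide +kernel)
                      (CovZ.n2 (-50364, 44730) (by decide +kernel)
                       (CovZ.leaf K2_ok TH_l3003 _)
                       (CovZ.leaf K2_ok TH_l3004 _))
                      (CovZ.n1 (-50382, 44712) (by decide +kernel)
                       (CovZ.leaf K2_ok TH_l3005 _)
                       (CovZ.leaf K2_ok TH_l3006 _)))
                     (CovZ.n1 (-50346, 44730) (by decide +kernel)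
                      (CovZ.n2 (-50346, 44712) (by decide +kernel)
                       (CovZ.leaf K2_ok TH_l3007 _)
                       (CovZ.leaf K2_ok TH_l3008 _))
                      (CovZ.n1 (-50364, 44730) (by decide +kernel)
                       (CovZ.leaf K2_ok TH_l3009 _)
                       (CovZ.n1 (-50355, 44721) (by decide +kernel)
                        (CovZ.leaf K2_ok TH_l3010 _)
                        (CovZ.leaf K2_ok TH_l3011 _)))))
                    (CovZ.n1 (-50400, 44748) (by decide +kernel)
                     (CovZ.n2 (-50382, 44766) (by decide +kernel)
                      (CovZ.n2 (-50382, 44748) (by decide +kernel)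
                       (CovZ.leaf K2_ok TH_l3012 _)
                       (CovZ.leaf K2_ok TH_l3013 _))
                      (CovZ.leaf K2_ok TH_l3014 _))
                     (CovZ.n1 (-50382, 44730) (by decide +kernel)
                      (CovZ.n2 (-50400, 44730) (by decide +kernel)
                       (CovZ.leaf K2_ok TH_l3015 _)
                       (CovZ.n1 (-50391, 44721) (by decide +kernel)
                        (CovZ.leaf K2_ok TH_l3016 _)
                        (CovZ.leaf K2_ok TH_l3017 _)))
                      (CovZ.n1 (-50382, 44748) (by decide +kernel)
                       (CovZ.leaf K2_ok TH_l3018 _)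
                       (CovZ.leaf K2_ok TH_l3019 _)))))
                   (CovZ.badM (by decide +kernel)))
                  (CovZ.n1 (-50328, 44784) (by decide +kernel)
                   (CovZ.n2 (-50292, 44748) (by decide +kernel)
                    (CovZ.n2 (-50328, 44748) (by decide +kernel)
                     (CovZ.n2 (-50310, 44766) (by decide +kernel)
                      (CovZ.n2 (-50310, 44748) (by decide +kernel)
                       (CovZ.leaf K2_ok TH_l3020 _)
                       (CovZ.leaf K2_ok TH_l3021 _))
                      (CovZ.leaf K2_ok TH_l3022 _))
                     (CovZ.n1 (-50310, 44730) (by decide +kernel)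
                      (CovZ.leaf K2_ok TH_l3023 _)
                      (CovZ.n1 (-50310, 44748) (by decide +kernel)
                       (CovZ.leaf K2_ok TH_l3024 _)
                       (CovZ.leaf K2_ok TH_l3025 _))))
                    (CovZ.n1 (-50292, 44784) (by decide +kernel)
                     (CovZ.badM (by decide +kernel))
                     (CovZ.n1 (-50310, 44766) (by decide +kernel)
                      (CovZ.leaf K2_ok TH_l3026 _)
                      (CovZ.leaf K2_ok TH_l3027 _))))
                   (CovZ.n1 (-50364, 44748) (by decide +kernel)
                    (CovZ.n2 (-50364, 44784) (by decide +kernel)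
                     (CovZ.n2 (-50346, 44766) (by decide +kernel)
                      (CovZ.leaf K2_ok TH_l3028 _)
                      (CovZ.leaf K2_ok TH_l3029 _))
                     (CovZ.n1 (-50382, 44766) (by decide +kernel)
                      (CovZ.leaf K2_ok TH_l3030 _)
                      (CovZ.leaf K2_ok TH_l3031 _)))
                    (CovZ.n1 (-50328, 44748) (by decide +kernel)
                     (CovZ.n2 (-50346, 44730) (by decide +kernel)
                      (CovZ.n2 (-50346, 44748) (by decide +kernel)
                       (CovZ.leaf K2_ok TH_l3032 _)
                       (CovZ.leaf K2_ok TH_l3033 _))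
                      (CovZ.n1 (-50328, 44730) (by decide +kernel)
                       (CovZ.leaf K2_ok TH_l3034 _)
                       (CovZ.leaf K2_ok TH_l3035 _)))
                     (CovZ.n1 (-50346, 44766) (by decide +kernel)
                      (CovZ.n2 (-50328, 44766) (by decide +kernel)
                       (CovZ.leaf K2_ok TH_l3036 _)
                       (CovZ.leaf K2_ok TH_l3037 _))
                      (CovZ.n1 (-50346, 44748) (by decide +kernel)
                       (CovZ.leaf K2_ok TH_l3038 _)
                       (CovZ.leaf K2_ok TH_l3039 _)))))))))
               (CovZ.n1 (-50256, 44928) (by decide +kernel)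
                (CovZ.subM 16384 (by decide +kernel)
                 (CovZ.n2 (-50184, 44856) (by decide +kernel)
                  (CovZ.n2 (-50256, 44856) (by decide +kernel)
                   (CovZ.n2 (-50220, 44892) (by decide +kernel)
                    (CovZ.badM (by decide +kernel))
                    (CovZ.n1 (-50256, 44892) (by decide +kernel)
                     (CovZ.leaf K2_ok TH_l3040 _)
                     (CovZ.badM (by decide +kernel))))
                   (CovZ.badM (by decide +kernel)))
                  (CovZ.n1 (-50184, 44928) (by decide +kernel)
                   (CovZ.n2 (-50148, 44892) (by decide +kernel)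
                    (CovZ.n2 (-50184, 44892) (by decide +kernel)
                     (CovZ.leaf K2_ok TH_l3041 _)
                     (CovZ.badM (by decide +kernel)))
                    (CovZ.n1 (-50148, 44928) (by decide +kernel)
                     (CovZ.badM (by decide +kernel))
                     (CovZ.leaf K2_ok TH_l3042 _)))
                   (CovZ.n1 (-50220, 44892) (by decide +kernel)
                    (CovZ.n2 (-50220, 44928) (by decide +kernel)
                     (CovZ.n2 (-50202, 44910) (by decide +kernel)
                      (CovZ.leaf K2_ok TH_l3043 _)
                      (CovZ.leaf K2_ok TH_l3044 _))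
                     (CovZ.leaf K2_ok TH_l3045 _))
                    (CovZ.n1 (-50184, 44892) (by decide +kernel)
                     (CovZ.badM (by decide +kernel))
                     (CovZ.leaf K2_ok TH_l3046 _))))))
                (CovZ.n1 (-50328, 44856) (by decide +kernel)
                 (CovZ.n2 (-50328, 44928) (by decide +kernel)
                  (CovZ.n2 (-50292, 44892) (by decide +kernel)
                   (CovZ.leaf K2_ok TH_l3047 _)
                   (CovZ.n1 (-50292, 44928) (by decide +kernel)
                    (CovZ.leaf K2_ok TH_l3048 _)
                    (CovZ.leaf K2_ok TH_l3049 _)))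
                  (CovZ.n1 (-50364, 44892) (by decide +kernel)
                   (CovZ.n2 (-50364, 44928) (by decide +kernel)
                    (CovZ.leaf K2_ok TH_l3050 _)
                    (CovZ.leaf K2_ok TH_l3051 _))
                   (CovZ.leaf K2_ok TH_l3052 _)))
                 (CovZ.subM 115185319012496582644470435891293990006599710069074127793160208384 (by decide +kernel)
                  (CovZ.n1 (-50256, 44856) (by decide +kernel)
                   (CovZ.n2 (-50292, 44820) (by decide +kernel)
                    (CovZ.n2 (-50292, 44856) (by decide +kernel)
                     (CovZ.badM (by decide +kernel))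
                     (CovZ.leaf K2_ok TH_l3053 _))
                    (CovZ.badM (by decide +kernel)))
                   (CovZ.n1 (-50292, 44892) (by decide +kernel)
                    (CovZ.n2 (-50256, 44892) (by decide +kernel)
                     (CovZ.n2 (-50274, 44874) (by decide +kernel)
                      (CovZ.leaf K2_ok TH_l3054 _)
                      (CovZ.badM (by decide +kernel)))
                     (CovZ.leaf K2_ok TH_l3055 _))
                    (CovZ.n1 (-50292, 44856) (by decide +kernel)
                     (CovZ.leaf K2_ok TH_l3056 _)
                     (CovZ.leaf K2_ok TH_l3057 _)))))))))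

theorem TH_u46 : CovZ TH_M (toL (selN TH_LN 215623626634207726022111205199935136140072213218907215792265861545984)) [0, 7, 6, 1] (-50400, 44928) (-50688, 44928) (-50400, 44640) :=
    (CovZ.n1 (-50544, 44784) (by decide +kernel)
              (CovZ.n2 (-50544, 44928) (by decide +kernel)
               (CovZ.n2 (-50472, 44856) (by decide +kernel)
                (CovZ.n2 (-50544, 44856) (by decide +kernel)
                 (CovZ.n2 (-50508, 44892) (by decide +kernel)
                  (CovZ.n2 (-50508, 44856) (by decide +kernel)
                   (CovZ.leaf K2_ok TH_l3058 _)
                   (CovZ.leaf K2_ok TH_l3059 _))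
                  (CovZ.leaf K2_ok TH_l3060 _))
                 (CovZ.n1 (-50508, 44820) (by decide +kernel)
                  (CovZ.n2 (-50544, 44820) (by decide +kernel)
                   (CovZ.leaf K2_ok TH_l3061 _)
                   (CovZ.n1 (-50526, 44802) (by decide +kernel)
                    (CovZ.leaf K2_ok TH_l3062 _)
                    (CovZ.leaf K2_ok TH_l3063 _)))
                  (CovZ.n1 (-50508, 44856) (by decide +kernel)
                   (CovZ.leaf K2_ok TH_l3064 _)
                   (CovZ.leaf K2_ok TH_l3065 _))))
                (CovZ.n1 (-50472, 44928) (by decide +kernel)
                 (CovZ.n2 (-50436, 44892) (by decide +kernel)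
                  (CovZ.leaf K2_ok TH_l3066 _)
                  (CovZ.leaf K2_ok TH_l3067 _))
                 (CovZ.n1 (-50508, 44892) (by decide +kernel)
                  (CovZ.n2 (-50508, 44928) (by decide +kernel)
                   (CovZ.leaf K2_ok TH_l3068 _)
                   (CovZ.leaf K2_ok TH_l3069 _))
                  (CovZ.leaf K2_ok TH_l3070 _))))
               (CovZ.n1 (-50616, 44856) (by decide +kernel)
                (CovZ.n2 (-50616, 44928) (by decide +kernel)
                 (CovZ.n2 (-50580, 44892) (by decide +kernel)
                  (CovZ.leaf K2_ok TH_l3071 _)
                  (CovZ.leaf K2_ok TH_l3072 _))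
                 (CovZ.n1 (-50652, 44892) (by decide +kernel)
                  (CovZ.n2 (-50652, 44928) (by decide +kernel)
                   (CovZ.leaf K2_ok TH_l3073 _)
                   (CovZ.leaf K2_ok TH_l3074 _))
                  (CovZ.n1 (-50616, 44892) (by decide +kernel)
                   (CovZ.leaf K2_ok TH_l3075 _)
                   (CovZ.leaf K2_ok TH_l3076 _))))
                (CovZ.n1 (-50544, 44856) (by decide +kernel)
                 (CovZ.n2 (-50580, 44820) (by decide +kernel)
                  (CovZ.n2 (-50580, 44856) (by decide +kernel)
                   (CovZ.leaf K2_ok TH_l3077 _)
                   (CovZ.leaf K2_ok TH_l3078 _))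
                  (CovZ.n1 (-50544, 44820) (by decide +kernel)
                   (CovZ.n2 (-50562, 44802) (by decide +kernel)
                    (CovZ.leaf K2_ok TH_l3079 _)
                    (CovZ.leaf K2_ok TH_l3080 _))
                   (CovZ.leaf K2_ok TH_l3081 _)))
                 (CovZ.n1 (-50580, 44892) (by decide +kernel)
                  (CovZ.leaf K2_ok TH_l3082 _)
                  (CovZ.n1 (-50580, 44856) (by decide +kernel)
                   (CovZ.n2 (-50598, 44874) (by decide +kernel)
                    (CovZ.leaf K2_ok TH_l3083 _)
                    (CovZ.leaf K2_ok TH_l3084 _))
                   (CovZ.leaf K2_ok TH_l3085 _))))))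
              (CovZ.n1 (-50400, 44784) (by decide +kernel)
               (CovZ.subM 213938629515559294525160536712789099468585071450317117400592777478144 (by decide +kernel)
                (CovZ.n2 (-50472, 44712) (by decide +kernel)
                 (CovZ.n2 (-50472, 44784) (by decide +kernel)
                  (CovZ.subM 75110701023483783159899345900125100605099769522185109979769365069824 (by decide +kernel)
                   (CovZ.n2 (-50436, 44748) (by decide +kernel)
                    (CovZ.n2 (-50472, 44748) (by decide +kernel)
                     (CovZ.n2 (-50454, 44766) (by decide +kernel)
                      (CovZ.n2 (-50454, 44748) (by decide +kernel)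
                       (CovZ.leaf K2_ok TH_l3086 _)
                       (CovZ.leaf K2_ok TH_l3087 _))
                      (CovZ.leaf K2_ok TH_l3088 _))
                     (CovZ.subM 6582018229296796790032891486935326606080555253031340852786495488 (by decide +kernel)
                      (CovZ.n1 (-50454, 44730) (by decide +kernel)
                       (CovZ.n2 (-50472, 44730) (by decide +kernel)
                        (CovZ.leaf K2_ok TH_l3089 _)
                        (CovZ.leaf K2_ok TH_l3090 _))
                       (CovZ.n1 (-50454, 44748) (by decide +kernel)
                        (CovZ.leaf K2_ok TH_l3091 _)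
                        (CovZ.leaf K2_ok TH_l3092 _)))))
                    (CovZ.n1 (-50436, 44784) (by decide +kernel)
                     (CovZ.n2 (-50418, 44766) (by decide +kernel)
                      (CovZ.leaf K2_ok TH_l3093 _)
                      (CovZ.leaf K2_ok TH_l3094 _))
                     (CovZ.n1 (-50454, 44766) (by decide +kernel)
                      (CovZ.leaf K2_ok TH_l3095 _)
                      (CovZ.leaf K2_ok TH_l3096 _)))))
                  (CovZ.n1 (-50508, 44748) (by decide +kernel)
                   (CovZ.n2 (-50508, 44784) (by decide +kernel)
                    (CovZ.n2 (-50490, 44766) (by decide +kernel)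
                     (CovZ.leaf K2_ok TH_l3097 _)
                     (CovZ.leaf K2_ok TH_l3098 _))
                    (CovZ.n1 (-50526, 44766) (by decide +kernel)
                     (CovZ.leaf K2_ok TH_l3099 _)
                     (CovZ.leaf K2_ok TH_l3100 _)))
                   (CovZ.n1 (-50472, 44748) (by decide +kernel)
                    (CovZ.subM 43816495352349086650926892804914860160439941245923829648433484922880 (by decide +kernel)
                     (CovZ.n2 (-50490, 44730) (by decide +kernel)
                      (CovZ.n2 (-50490, 44748) (by decide +kernel)
                       (CovZ.leaf K2_ok TH_l3101 _)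
                       (CovZ.leaf K2_ok TH_l3102 _))
                      (CovZ.n1 (-50472, 44730) (by decide +kernel)
                       (CovZ.leaf K2_ok TH_l3103 _)
                       (CovZ.n1 (-50481, 44739) (by decide +kernel)
                        (CovZ.leaf K2_ok TH_l3104 _)
                        (CovZ.leaf K2_ok TH_l3105 _)))))
                    (CovZ.n1 (-50490, 44766) (by decide +kernel)
                     (CovZ.leaf K2_ok TH_l3106 _)
                     (CovZ.leaf K2_ok TH_l3107 _)))))
                 (CovZ.subM 13486555351804616694123540434996750663424652766523317581404591620096 (by decide +kernel)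
                  (CovZ.n1 (-50400, 44712) (by decide +kernel)
                   (CovZ.n2 (-50436, 44676) (by decide +kernel)
                    (CovZ.n2 (-50436, 44712) (by decide +kernel)
                     (CovZ.badM (by decide +kernel))
                     (CovZ.n1 (-50454, 44694) (by decide +kernel)
                      (CovZ.n2 (-50454, 44712) (by decide +kernel)
                       (CovZ.badM (by decide +kernel))
                       (CovZ.leaf K2_ok TH_l3108 _))
                      (CovZ.badM (by decide +kernel))))
                    (CovZ.badM (by decide +kernel)))
                   (CovZ.n1 (-50436, 44748) (by decide +kernel)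
                    (CovZ.n2 (-50400, 44748) (by decide +kernel)
                     (CovZ.n2 (-50418, 44730) (by decide +kernel)
                      (CovZ.n2 (-50418, 44748) (by decide +kernel)
                       (CovZ.leaf K2_ok TH_l3109 _)
                       (CovZ.leaf K2_ok TH_l3110 _))
                      (CovZ.leaf K2_ok TH_l3111 _))
                     (CovZ.n1 (-50418, 44766) (by decide +kernel)
                      (CovZ.leaf K2_ok TH_l3112 _)
                      (CovZ.n1 (-50418, 44748) (by decide +kernel)
                       (CovZ.leaf K2_ok TH_l3113 _)
                       (CovZ.leaf K2_ok TH_l3114 _))))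
                    (CovZ.n1 (-50436, 44712) (by decide +kernel)
                     (CovZ.n2 (-50454, 44730) (by decide +kernel)
                      (CovZ.n2 (-50436, 44730) (by decide +kernel)
                       (CovZ.leaf K2_ok TH_l3115 _)
                       (CovZ.leaf K2_ok TH_l3116 _))
                      (CovZ.n1 (-50454, 44712) (by decide +kernel)
                       (CovZ.leaf K2_ok TH_l3117 _)
                       (CovZ.leaf K2_ok TH_l3118 _)))
                     (CovZ.n1 (-50418, 44730) (by decide +kernel)
                      (CovZ.n2 (-50418, 44712) (by decide +kernel)
                       (CovZ.n2 (-50427, 44721) (by decide +kernel)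
                        (CovZ.leaf K2_ok TH_l3119 _)
                        (CovZ.leaf K2_ok TH_l3120 _))
                       (CovZ.leaf K2_ok TH_l3121 _))
                      (CovZ.n1 (-50436, 44730) (by decide +kernel)
                       (CovZ.leaf K2_ok TH_l3122 _)
                       (CovZ.n1 (-50427, 44721) (by decide +kernel)
                        (CovZ.leaf K2_ok TH_l3123 _)
                        (CovZ.leaf K2_ok TH_l3124 _))))))))))
               (CovZ.n1 (-50472, 44856) (by decide +kernel)
                (CovZ.subM 75137029146617736339667271517732333598840824624854090813295218933760 (by decide +kernel)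
                 (CovZ.n2 (-50400, 44856) (by decide +kernel)
                  (CovZ.n2 (-50436, 44820) (by decide +kernel)
                   (CovZ.n2 (-50436, 44856) (by decide +kernel)
                    (CovZ.leaf K2_ok TH_l3125 _)
                    (CovZ.leaf K2_ok TH_l3126 _))
                   (CovZ.n1 (-50400, 44820) (by decide +kernel)
                    (CovZ.n2 (-50418, 44802) (by decide +kernel)
                     (CovZ.leaf K2_ok TH_l3127 _)
                     (CovZ.n1 (-50400, 44802) (by decide +kernel)
                      (CovZ.leaf K2_ok TH_l3128 _)
                      (CovZ.leaf K2_ok TH_l3129 _)))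
                    (CovZ.leaf K2_ok TH_l3130 _)))
                  (CovZ.n1 (-50436, 44892) (by decide +kernel)
                   (CovZ.n2 (-50400, 44892) (by decide +kernel)
                    (CovZ.leaf K2_ok TH_l3131 _)
                    (CovZ.leaf K2_ok TH_l3132 _))
                   (CovZ.n1 (-50436, 44856) (by decide +kernel)
                    (CovZ.n2 (-50454, 44874) (by decide +kernel)
                     (CovZ.leaf K2_ok TH_l3133 _)
                     (CovZ.leaf K2_ok TH_l3134 _))
                    (CovZ.leaf K2_ok TH_l3135 _)))))
                (CovZ.n1 (-50472, 44784) (by decide +kernel)
                 (CovZ.n2 (-50508, 44820) (by decide +kernel)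
                  (CovZ.n2 (-50472, 44820) (by decide +kernel)
                   (CovZ.n2 (-50490, 44802) (by decide +kernel)
                    (CovZ.leaf K2_ok TH_l3136 _)
                    (CovZ.leaf K2_ok TH_l3137 _))
                   (CovZ.leaf K2_ok TH_l3138 _))
                  (CovZ.n1 (-50508, 44784) (by decide +kernel)
                   (CovZ.n2 (-50526, 44802) (by decide +kernel)
                    (CovZ.leaf K2_ok TH_l3139 _)
                    (CovZ.leaf K2_ok TH_l3140 _))
                   (CovZ.n1 (-50490, 44802) (by decide +kernel)
                    (CovZ.leaf K2_ok TH_l3141 _)
                    (CovZ.leaf K2_ok TH_l3142 _))))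
                 (CovZ.subM 75137029146617736339667271517732333598840824624854090813295218933760 (by decide +kernel)
                  (CovZ.n1 (-50436, 44820) (by decide +kernel)
                   (CovZ.n2 (-50436, 44784) (by decide +kernel)
                    (CovZ.n2 (-50454, 44802) (by decide +kernel)
                     (CovZ.leaf K2_ok TH_l3143 _)
                     (CovZ.leaf K2_ok TH_l3144 _))
                    (CovZ.n1 (-50418, 44802) (by decide +kernel)
                     (CovZ.leaf K2_ok TH_l3145 _)
                     (CovZ.leaf K2_ok TH_l3146 _)))
                   (CovZ.n1 (-50472, 44820) (by decide +kernel)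
                    (CovZ.leaf K2_ok TH_l3147 _)
                    (CovZ.n1 (-50454, 44802) (by decide +kernel)
                     (CovZ.leaf K2_ok TH_l3148 _)
                     (CovZ.leaf K2_ok TH_l3149 _)))))))))

theorem TH_u47 : CovZ TH_M (toL (selN TH_LN 862718293348817360547777098947884641163989722455769093690736104177663)) [0, 7, 6, 1] (-49536, 42624) (-49248, 42912) (-49536, 43200) :=
    (CovZ.n2 (-49536, 42912) (by decide +kernel)
           (CovZ.subM 431414248093142751462128506457689068314160513517852027414465612857046 (by decide +kernel)
            (CovZ.n2 (-49392, 43056) (by decide +kernel)
             (CovZ.n2 (-49392, 42912) (by decide +kernel)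
              (CovZ.n2 (-49464, 42984) (by decide +kernel)
               (CovZ.n2 (-49392, 42984) (by decide +kernel)
                (CovZ.n2 (-49428, 42948) (by decide +kernel)
                 (CovZ.leaf K2_ok TH_l3217 _)
                 (CovZ.leaf K2_ok TH_l3218 _))
                (CovZ.n1 (-49428, 43020) (by decide +kernel)
                 (CovZ.n2 (-49392, 43020) (by decide +kernel)
                  (CovZ.leaf K2_ok TH_l3219 _)
                  (CovZ.n1 (-49410, 43038) (by decide +kernel)
                   (CovZ.leaf K2_ok TH_l3220 _)
                   (CovZ.leaf K2_ok TH_l3221 _)))
                 (CovZ.n1 (-49428, 42984) (by decide +kernel)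
                  (CovZ.leaf K2_ok TH_l3222 _)
                  (CovZ.leaf K2_ok TH_l3223 _))))
               (CovZ.n1 (-49464, 42912) (by decide +kernel)
                (CovZ.leaf K2_ok TH_l3224 _)
                (CovZ.leaf K2_ok TH_l3225 _)))
              (CovZ.n1 (-49320, 42984) (by decide +kernel)
               (CovZ.n2 (-49320, 42912) (by decide +kernel)
                (CovZ.n2 (-49356, 42948) (by decide +kernel)
                 (CovZ.leaf K2_ok TH_l3226 _)
                 (CovZ.leaf K2_ok TH_l3227 _))
                (CovZ.n1 (-49284, 42948) (by decide +kernel)
                 (CovZ.leaf K2_ok TH_l3228 _)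
                 (CovZ.leaf K2_ok TH_l3229 _)))
               (CovZ.n1 (-49392, 42984) (by decide +kernel)
                (CovZ.n2 (-49356, 43020) (by decide +kernel)
                 (CovZ.n2 (-49356, 42984) (by decide +kernel)
                  (CovZ.n2 (-49374, 43002) (by decide +kernel)
                   (CovZ.leaf K2_ok TH_l3230 _)
                   (CovZ.leaf K2_ok TH_l3231 _))
                  (CovZ.n1 (-49338, 43002) (by decide +kernel)
                   (CovZ.leaf K2_ok TH_l3232 _)
                   (CovZ.leaf K2_ok TH_l3233 _)))
                 (CovZ.n1 (-49392, 43020) (by decide +kernel)
                  (CovZ.n2 (-49374, 43038) (by decide +kernel)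
                   (CovZ.leaf K2_ok TH_l3234 _)
                   (CovZ.leaf K2_ok TH_l3235 _))
                  (CovZ.n1 (-49374, 43002) (by decide +kernel)
                   (CovZ.leaf K2_ok TH_l3236 _)
                   (CovZ.leaf K2_ok TH_l3237 _))))
                (CovZ.n1 (-49356, 42948) (by decide +kernel)
                 (CovZ.leaf K2_ok TH_l3238 _)
                 (CovZ.n1 (-49356, 42984) (by decide +kernel)
                  (CovZ.n2 (-49338, 42966) (by decide +kernel)
                   (CovZ.leaf K2_ok TH_l3239 _)
                   (CovZ.leaf K2_ok TH_l3240 _))
                  (CovZ.leaf K2_ok TH_l3241 _))))))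
             (CovZ.n1 (-49536, 43056) (by decide +kernel)
              (CovZ.n2 (-49464, 43128) (by decide +kernel)
               (CovZ.n2 (-49464, 43056) (by decide +kernel)
                (CovZ.n2 (-49500, 43092) (by decide +kernel)
                 (CovZ.n2 (-49464, 43092) (by decide +kernel)
                  (CovZ.n2 (-49482, 43074) (by decide +kernel)
                   (CovZ.leaf K2_ok TH_l3242 _)
                   (CovZ.leaf K2_ok TH_l3243 _))
                  (CovZ.n1 (-49482, 43110) (by decide +kernel)
                   (CovZ.n2 (-49464, 43110) (by decide +kernel)
                    (CovZ.leaf K2_ok TH_l3244 _)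
                    (CovZ.leaf K2_ok TH_l3245 _))
                   (CovZ.leaf K2_ok TH_l3246 _)))
                 (CovZ.n1 (-49500, 43056) (by decide +kernel)
                  (CovZ.n2 (-49518, 43074) (by decide +kernel)
                   (CovZ.leaf K2_ok TH_l3247 _)
                   (CovZ.leaf K2_ok TH_l3248 _))
                  (CovZ.n1 (-49482, 43074) (by decide +kernel)
                   (CovZ.leaf K2_ok TH_l3249 _)
                   (CovZ.leaf K2_ok TH_l3250 _))))
                (CovZ.n1 (-49428, 43092) (by decide +kernel)
                 (CovZ.n2 (-49428, 43056) (by decide +kernel)
                  (CovZ.n2 (-49446, 43074) (by decide +kernel)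
                   (CovZ.leaf K2_ok TH_l3251 _)
                   (CovZ.leaf K2_ok TH_l3252 _))
                  (CovZ.subM 54919530636967633569163541254825539826049986603501303662881221120 (by decide +kernel)
                   (CovZ.n1 (-49410, 43074) (by decide +kernel)
                    (CovZ.leaf K2_ok TH_l3253 _)
                    (CovZ.n1 (-49428, 43074) (by decide +kernel)
                     (CovZ.n2 (-49419, 43083) (by decide +kernel)
                      (CovZ.n2 (-49419, 43074) (by decide +kernel)
                       (CovZ.leaf K2_ok TH_l3254 _)
                       (CovZ.leaf K2_ok TH_l3255 _))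
                      (CovZ.leaf K2_ok TH_l3256 _))
                     (CovZ.leaf K2_ok TH_l3257 _)))))
                 (CovZ.n1 (-49464, 43092) (by decide +kernel)
                  (CovZ.subM 54533865505483445699660911367330885026989091714951854085086904320 (by decide +kernel)
                   (CovZ.n2 (-49446, 43110) (by decide +kernel)
                    (CovZ.n2 (-49446, 43092) (by decide +kernel)
                     (CovZ.leaf K2_ok TH_l3258 _)
                     (CovZ.leaf K2_ok TH_l3259 _))
                    (CovZ.n1 (-49464, 43110) (by decide +kernel)
                     (CovZ.leaf K2_ok TH_l3260 _)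
                     (CovZ.leaf K2_ok TH_l3261 _))))
                  (CovZ.n1 (-49446, 43074) (by decide +kernel)
                   (CovZ.leaf K2_ok TH_l3262 _)
                   (CovZ.leaf K2_ok TH_l3263 _)))))
               (CovZ.n1 (-49536, 43128) (by decide +kernel)
                (CovZ.subM 53299724533289070394683135030762542792857545881253928365593731072 (by decide +kernel)
                 (CovZ.n2 (-49500, 43164) (by decide +kernel)
                  (CovZ.n2 (-49500, 43128) (by decide +kernel)
                   (CovZ.n2 (-49518, 43146) (by decide +kernel)
                    (CovZ.n2 (-49500, 43146) (by decide +kernel)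
                     (CovZ.leaf K2_ok TH_l3264 _)
                     (CovZ.badM (by decide +kernel)))
                    (CovZ.leaf K2_ok TH_l3265 _))
                   (CovZ.subM 52656949303324668086922814339117845722318939979930899611511685120 (by decide +kernel)
                    (CovZ.n1 (-49482, 43146) (by decide +kernel)
                     (CovZ.n2 (-49482, 43128) (by decide +kernel)
                      (CovZ.leaf K2_ok TH_l3266 _)
                      (CovZ.leaf K2_ok TH_l3267 _))
                     (CovZ.n1 (-49500, 43146) (by decide +kernel)
                      (CovZ.badM (by decide +kernel))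
                      (CovZ.leaf K2_ok TH_l3268 _)))))
                  (CovZ.n1 (-49536, 43164) (by decide +kernel)
                   (CovZ.badM (by decide +kernel))
                   (CovZ.n1 (-49518, 43146) (by decide +kernel)
                    (CovZ.n2 (-49536, 43146) (by decide +kernel)
                     (CovZ.badM (by decide +kernel))
                     (CovZ.n1 (-49527, 43137) (by decide +kernel)
                      (CovZ.leaf K2_ok TH_l3269 _)
                      (CovZ.badM (by decide +kernel))))
                    (CovZ.badM (by decide +kernel))))))
                (CovZ.n1 (-49500, 43092) (by decide +kernel)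
                 (CovZ.n2 (-49536, 43092) (by decide +kernel)
                  (CovZ.n2 (-49518, 43110) (by decide +kernel)
                   (CovZ.leaf K2_ok TH_l3270 _)
                   (CovZ.leaf K2_ok TH_l3271 _))
                  (CovZ.n1 (-49518, 43074) (by decide +kernel)
                   (CovZ.leaf K2_ok TH_l3272 _)
                   (CovZ.leaf K2_ok TH_l3273 _)))
                 (CovZ.subM 54945241645675777413488584853787739403474234671545308534402916864 (by decide +kernel)
                  (CovZ.n1 (-49500, 43128) (by decide +kernel)
                   (CovZ.n2 (-49482, 43110) (by decide +kernel)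
                    (CovZ.leaf K2_ok TH_l3274 _)
                    (CovZ.n1 (-49482, 43128) (by decide +kernel)
                     (CovZ.leaf K2_ok TH_l3275 _)
                     (CovZ.leaf K2_ok TH_l3276 _)))
                   (CovZ.n1 (-49518, 43110) (by decide +kernel)
                    (CovZ.leaf K2_ok TH_l3277 _)
                    (CovZ.leaf K2_ok TH_l3278 _)))))))
              (CovZ.n1 (-49464, 42984) (by decide +kernel)
               (CovZ.n2 (-49536, 42984) (by decide +kernel)
                (CovZ.n2 (-49500, 43020) (by decide +kernel)
                 (CovZ.leaf K2_ok TH_l3279 _)
                 (CovZ.leaf K2_ok TH_l3280 _))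
                (CovZ.leaf K2_ok TH_l3281 _))
               (CovZ.n1 (-49464, 43056) (by decide +kernel)
                (CovZ.n2 (-49428, 43020) (by decide +kernel)
                 (CovZ.leaf K2_ok TH_l3282 _)
                 (CovZ.n1 (-49428, 43056) (by decide +kernel)
                  (CovZ.n2 (-49410, 43038) (by decide +kernel)
                   (CovZ.leaf K2_ok TH_l3283 _)
                   (CovZ.leaf K2_ok TH_l3284 _))
                  (CovZ.leaf K2_ok TH_l3285 _)))
                (CovZ.n1 (-49500, 43020) (by decide +kernel)
                 (CovZ.leaf K2_ok TH_l3286 _)
                 (CovZ.n1 (-49464, 43020) (by decide +kernel)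
                  (CovZ.leaf K2_ok TH_l3287 _)
                  (CovZ.leaf K2_ok TH_l3288 _))))))))
           (CovZ.n1 (-49392, 42768) (by decide +kernel)
            (CovZ.n2 (-49536, 42768) (by decide +kernel)
             (CovZ.n2 (-49464, 42840) (by decide +kernel)
              (CovZ.leaf K2_ok TH_l3289 _)
              (CovZ.leaf K2_ok TH_l3290 _))
             (CovZ.leaf K2_ok TH_l3291 _))
            (CovZ.n1 (-49392, 42912) (by decide +kernel)
             (CovZ.n2 (-49320, 42840) (by decide +kernel)
              (CovZ.leaf K2_ok TH_l3292 _)
              (CovZ.n1 (-49320, 42912) (by decide +kernel)
               (CovZ.n2 (-49284, 42876) (by decide +kernel)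
                (CovZ.leaf K2_ok TH_l3293 _)
                (CovZ.leaf K2_ok TH_l3294 _))
               (CovZ.leaf K2_ok TH_l3295 _)))
             (CovZ.n1 (-49464, 42840) (by decide +kernel)
              (CovZ.n2 (-49464, 42912) (by decide +kernel)
               (CovZ.leaf K2_ok TH_l3296 _)
               (CovZ.leaf K2_ok TH_l3297 _))
              (CovZ.leaf K2_ok TH_l3298 _)))))

theorem TH_u48 : CovZ TH_M (toL (selN TH_LN 862718293348817360547777098947884641163989722455769093690736104177663)) [0, 7, 6, 1] (-49248, 42912) (-48960, 43200) (-49536, 43200) :=
    (CovZ.subM 55099610926831826246796488857556151505425434596474880505150389956 (by decide +kernel)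
           (CovZ.n1 (-49248, 43200) (by decide +kernel)
            (CovZ.n2 (-49104, 43056) (by decide +kernel)
             (CovZ.n2 (-49248, 43056) (by decide +kernel)
              (CovZ.badM (by decide +kernel))
              (CovZ.n1 (-49176, 42984) (by decide +kernel)
               (CovZ.n2 (-49248, 42984) (by decide +kernel)
                (CovZ.subM 12554324693565214375511110242534475031465630062653682681856 (by decide +kernel)
                 (CovZ.n2 (-49212, 43020) (by decide +kernel)
                  (CovZ.n2 (-49212, 42984) (by decide +kernel)
                   (CovZ.n2 (-49230, 43002) (by decide +kernel)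
                    (CovZ.badM (by decide +kernel))
                    (CovZ.n1 (-49230, 42984) (by decide +kernel)
                     (CovZ.n2 (-49239, 42993) (by decide +kernel)
                      (CovZ.badM (by decide +kernel))
                      (CovZ.leaf K2_ok TH_l3299 _))
                     (CovZ.badM (by decide +kernel))))
                   (CovZ.badM (by decide +kernel)))
                  (CovZ.n1 (-49248, 43020) (by decide +kernel)
                   (CovZ.badM (by decide +kernel))
                   (CovZ.n1 (-49230, 43002) (by decide +kernel)
                    (CovZ.leaf K2_ok TH_l3300 _)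
                    (CovZ.badM (by decide +kernel))))))
                (CovZ.n1 (-49212, 42948) (by decide +kernel)
                 (CovZ.n2 (-49248, 42948) (by decide +kernel)
                  (CovZ.n2 (-49230, 42966) (by decide +kernel)
                   (CovZ.leaf K2_ok TH_l3301 _)
                   (CovZ.leaf K2_ok TH_l3302 _))
                  (CovZ.leaf K2_ok TH_l3303 _))
                 (CovZ.n1 (-49212, 42984) (by decide +kernel)
                  (CovZ.n2 (-49194, 42966) (by decide +kernel)
                   (CovZ.leaf K2_ok TH_l3304 _)
                   (CovZ.n1 (-49194, 42984) (by decide +kernel)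
                    (CovZ.leaf K2_ok TH_l3305 _)
                    (CovZ.leaf K2_ok TH_l3306 _)))
                  (CovZ.n1 (-49230, 42966) (by decide +kernel)
                   (CovZ.leaf K2_ok TH_l3307 _)
                   (CovZ.leaf K2_ok TH_l3308 _)))))
               (CovZ.badM (by decide +kernel))))
             (CovZ.badM (by decide +kernel)))
            (CovZ.n1 (-49392, 43056) (by decide +kernel)
             (CovZ.subM 54328177435914075915829473633385533041340787691000955044551196672 (by decide +kernel)
              (CovZ.n2 (-49392, 43200) (by decide +kernel)
               (CovZ.n2 (-49320, 43128) (by decide +kernel)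
                (CovZ.n2 (-49392, 43128) (by decide +kernel)
                 (CovZ.badM (by decide +kernel))
                 (CovZ.n1 (-49356, 43092) (by decide +kernel)
                  (CovZ.n2 (-49392, 43092) (by decide +kernel)
                   (CovZ.badM (by decide +kernel))
                   (CovZ.n1 (-49374, 43074) (by decide +kernel)
                    (CovZ.leaf K2_ok TH_l3309 _)
                    (CovZ.badM (by decide +kernel))))
                  (CovZ.badM (by decide +kernel))))
                (CovZ.badM (by decide +kernel)))
               (CovZ.n1 (-49464, 43128) (by decide +kernel)
                (CovZ.subM 52656145834278593348959013841835216160762858992015272169235808256 (by decide +kernel)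
                 (CovZ.n2 (-49464, 43200) (by decide +kernel)
                  (CovZ.n2 (-49428, 43164) (by decide +kernel)
                   (CovZ.n2 (-49464, 43164) (by decide +kernel)
                    (CovZ.badM (by decide +kernel))
                    (CovZ.n1 (-49446, 43146) (by decide +kernel)
                     (CovZ.n2 (-49464, 43146) (by decide +kernel)
                      (CovZ.badM (by decide +kernel))
                      (CovZ.n1 (-49455, 43137) (by decide +kernel)
                       (CovZ.leaf K2_ok TH_l3310 _)
                       (CovZ.badM (by decide +kernel))))
                     (CovZ.badM (by decide +kernel))))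
                   (CovZ.badM (by decide +kernel)))
                  (CovZ.n1 (-49500, 43164) (by decide +kernel)
                   (CovZ.badM (by decide +kernel))
                   (CovZ.n1 (-49464, 43164) (by decide +kernel)
                    (CovZ.n2 (-49482, 43146) (by decide +kernel)
                     (CovZ.badM (by decide +kernel))
                     (CovZ.n1 (-49464, 43146) (by decide +kernel)
                      (CovZ.leaf K2_ok TH_l3311 _)
                      (CovZ.badM (by decide +kernel))))
                    (CovZ.badM (by decide +kernel))))))
                (CovZ.n1 (-49392, 43128) (by decide +kernel)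
                 (CovZ.n2 (-49428, 43092) (by decide +kernel)
                  (CovZ.subM 54328164869354017973486455255435021749880494538392858722324971520 (by decide +kernel)
                   (CovZ.n2 (-49428, 43128) (by decide +kernel)
                    (CovZ.n2 (-49410, 43110) (by decide +kernel)
                     (CovZ.n2 (-49428, 43110) (by decide +kernel)
                      (CovZ.badM (by decide +kernel))
                      (CovZ.n1 (-49419, 43101) (by decide +kernel)
                       (CovZ.leaf K2_ok TH_l3312 _)
                       (CovZ.badM (by decide +kernel))))
                     (CovZ.badM (by decide +kernel)))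
                    (CovZ.n1 (-49446, 43110) (by decide +kernel)
                     (CovZ.subM 54302453860621928886251754005438737247046855959145743429002067968 (by decide +kernel)
                      (CovZ.n2 (-49446, 43128) (by decide +kernel)
                       (CovZ.n2 (-49437, 43119) (by decide +kernel)
                        (CovZ.leaf K2_ok TH_l3313 _)
                        (CovZ.badM (by decide +kernel)))
                       (CovZ.n1 (-49455, 43119) (by decide +kernel)
                        (CovZ.leaf K2_ok TH_l3314 _)
                        (CovZ.leaf K2_ok TH_l3315 _))))
                     (CovZ.n1 (-49428, 43110) (by decide +kernel)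
                      (CovZ.leaf K2_ok TH_l3316 _)
                      (CovZ.leaf K2_ok TH_l3317 _)))))
                  (CovZ.n1 (-49392, 43092) (by decide +kernel)
                   (CovZ.n2 (-49410, 43074) (by decide +kernel)
                    (CovZ.n2 (-49410, 43092) (by decide +kernel)
                     (CovZ.leaf K2_ok TH_l3318 _)
                     (CovZ.leaf K2_ok TH_l3319 _))
                    (CovZ.n1 (-49392, 43074) (by decide +kernel)
                     (CovZ.leaf K2_ok TH_l3320 _)
                     (CovZ.leaf K2_ok TH_l3321 _)))
                   (CovZ.n1 (-49410, 43110) (by decide +kernel)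
                    (CovZ.badM (by decide +kernel))
                    (CovZ.n1 (-49410, 43092) (by decide +kernel)
                     (CovZ.leaf K2_ok TH_l3322 _)
                     (CovZ.badM (by decide +kernel))))))
                 (CovZ.subM 52656145834278593348959013841835216160762858992015272169235808256 (by decide +kernel)
                  (CovZ.n1 (-49428, 43164) (by decide +kernel)
                   (CovZ.badM (by decide +kernel))
                   (CovZ.n1 (-49428, 43128) (by decide +kernel)
                    (CovZ.n2 (-49446, 43146) (by decide +kernel)
                     (CovZ.badM (by decide +kernel))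
                     (CovZ.n1 (-49446, 43128) (by decide +kernel)
                      (CovZ.n2 (-49455, 43137) (by decide +kernel)
                       (CovZ.badM (by decide +kernel))
                       (CovZ.leaf K2_ok TH_l3323 _))
                      (CovZ.badM (by decide +kernel))))
                    (CovZ.badM (by decide +kernel)))))))))
             (CovZ.n1 (-49248, 43056) (by decide +kernel)
              (CovZ.n2 (-49320, 42984) (by decide +kernel)
               (CovZ.n2 (-49320, 43056) (by decide +kernel)
                (CovZ.n2 (-49284, 43020) (by decide +kernel)
                 (CovZ.n2 (-49320, 43020) (by decide +kernel)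
                  (CovZ.subM 12554324693565303578321762695105634762210885005106238193664 (by decide +kernel)
                   (CovZ.n2 (-49302, 43038) (by decide +kernel)
                    (CovZ.leaf K2_ok TH_l3324 _)
                    (CovZ.n1 (-49320, 43038) (by decide +kernel)
                     (CovZ.n2 (-49311, 43047) (by decide +kernel)
                      (CovZ.leaf K2_ok TH_l3325 _)
                      (CovZ.n1 (-49320, 43047) (by decide +kernel)
                       (CovZ.badM (by decide +kernel))
                       (CovZ.leaf K2_ok TH_l3326 _)))
                     (CovZ.leaf K2_ok TH_l3327 _))))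
                  (CovZ.n1 (-49302, 43002) (by decide +kernel)
                   (CovZ.n2 (-49320, 43002) (by decide +kernel)
                    (CovZ.leaf K2_ok TH_l3328 _)
                    (CovZ.leaf K2_ok TH_l3329 _))
                   (CovZ.n1 (-49302, 43020) (by decide +kernel)
                    (CovZ.leaf K2_ok TH_l3330 _)
                    (CovZ.leaf K2_ok TH_l3331 _))))
                 (CovZ.badM (by decide +kernel)))
                (CovZ.n1 (-49356, 43020) (by decide +kernel)
                 (CovZ.n2 (-49356, 43056) (by decide +kernel)
                  (CovZ.n2 (-49338, 43038) (by decide +kernel)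
                   (CovZ.leaf K2_ok TH_l3332 _)
                   (CovZ.leaf K2_ok TH_l3333 _))
                  (CovZ.n1 (-49374, 43038) (by decide +kernel)
                   (CovZ.leaf K2_ok TH_l3334 _)
                   (CovZ.leaf K2_ok TH_l3335 _)))
                 (CovZ.n1 (-49320, 43020) (by decide +kernel)
                  (CovZ.n2 (-49338, 43002) (by decide +kernel)
                   (CovZ.leaf K2_ok TH_l3336 _)
                   (CovZ.n1 (-49320, 43002) (by decide +kernel)
                    (CovZ.leaf K2_ok TH_l3337 _)
                    (CovZ.leaf K2_ok TH_l3338 _)))
                  (CovZ.n1 (-49338, 43038) (by decide +kernel)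
                   (CovZ.n2 (-49320, 43038) (by decide +kernel)
                    (CovZ.leaf K2_ok TH_l3339 _)
                    (CovZ.leaf K2_ok TH_l3340 _))
                   (CovZ.leaf K2_ok TH_l3341 _)))))
               (CovZ.n1 (-49248, 42984) (by decide +kernel)
                (CovZ.n2 (-49284, 42948) (by decide +kernel)
                 (CovZ.n2 (-49284, 42984) (by decide +kernel)
                  (CovZ.n2 (-49266, 42966) (by decide +kernel)
                   (CovZ.leaf K2_ok TH_l3342 _)
                   (CovZ.n1 (-49266, 42984) (by decide +kernel)
                    (CovZ.leaf K2_ok TH_l3343 _)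
                    (CovZ.leaf K2_ok TH_l3344 _)))
                  (CovZ.leaf K2_ok TH_l3345 _))
                 (CovZ.n1 (-49248, 42948) (by decide +kernel)
                  (CovZ.leaf K2_ok TH_l3346 _)
                  (CovZ.n1 (-49266, 42966) (by decide +kernel)
                   (CovZ.leaf K2_ok TH_l3347 _)
                   (CovZ.leaf K2_ok TH_l3348 _))))
                (CovZ.n1 (-49284, 43020) (by decide +kernel)
                 (CovZ.subM 12554324693565214375511110242534475031465630062653682681856 (by decide +kernel)
                  (CovZ.n2 (-49248, 43020) (by decide +kernel)
                   (CovZ.n2 (-49266, 43002) (by decide +kernel)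
                    (CovZ.leaf K2_ok TH_l3349 _)
                    (CovZ.n1 (-49248, 43002) (by decide +kernel)
                     (CovZ.leaf K2_ok TH_l3350 _)
                     (CovZ.leaf K2_ok TH_l3351 _)))
                   (CovZ.badM (by decide +kernel))))
                 (CovZ.n1 (-49284, 42984) (by decide +kernel)
                  (CovZ.n2 (-49302, 43002) (by decide +kernel)
                   (CovZ.leaf K2_ok TH_l3352 _)
                   (CovZ.leaf K2_ok TH_l3353 _))
                  (CovZ.n1 (-49266, 43002) (by decide +kernel)
                   (CovZ.leaf K2_ok TH_l3354 _)
                   (CovZ.leaf K2_ok TH_l3355 _))))))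
              (CovZ.subM 54302466427207428649097429084496315012969133916912558034110382080 (by decide +kernel)
               (CovZ.n1 (-49320, 43128) (by decide +kernel)
                (CovZ.badM (by decide +kernel))
                (CovZ.n1 (-49320, 43056) (by decide +kernel)
                 (CovZ.n2 (-49356, 43092) (by decide +kernel)
                  (CovZ.badM (by decide +kernel))
                  (CovZ.n1 (-49356, 43056) (by decide +kernel)
                   (CovZ.n2 (-49374, 43074) (by decide +kernel)
                    (CovZ.badM (by decide +kernel))
                    (CovZ.n1 (-49374, 43056) (by decide +kernel)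
                     (CovZ.leaf K2_ok TH_l3356 _)
                     (CovZ.leaf K2_ok TH_l3357 _)))
                   (CovZ.badM (by decide +kernel))))
                 (CovZ.badM (by decide +kernel)))))))))

theorem TH_u49 : CovZ TH_M (toL (selN TH_LN 647040359435954963422890138316419657616492977945018360025308827989702)) [0, 7, 6, 1] (-49536, 43776) (-49824, 43488) (-49536, 43200) :=
    (CovZ.subM 647038739521141791165243648882242330337320319472294689950407323549696 (by decide +kernel)
            (CovZ.n2 (-49536, 43488) (by decide +kernel)
             (CovZ.n2 (-49680, 43344) (by decide +kernel)
              (CovZ.n2 (-49680, 43488) (by decide +kernel)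
               (CovZ.subM 6453154823495692600729637746226187143858667146395866498072576 (by decide +kernel)
                (CovZ.n2 (-49608, 43416) (by decide +kernel)
                 (CovZ.n2 (-49680, 43416) (by decide +kernel)
                  (CovZ.n2 (-49644, 43452) (by decide +kernel)
                   (CovZ.subM 6427850256750759206762171925374530998830601948342173978066944 (by decide +kernel)
                    (CovZ.n2 (-49644, 43416) (by decide +kernel)
                     (CovZ.n2 (-49662, 43434) (by decide +kernel)
                      (CovZ.badM (by decide +kernel))
                      (CovZ.n1 (-49662, 43416) (by decide +kernel)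
                       (CovZ.leaf K2_ok TH_l3526 _)
                       (CovZ.badM (by decide +kernel))))
                     (CovZ.badM (by decide +kernel))))
                   (CovZ.n1 (-49680, 43452) (by decide +kernel)
                    (CovZ.n2 (-49662, 43470) (by decide +kernel)
                     (CovZ.leaf K2_ok TH_l3527 _)
                     (CovZ.leaf K2_ok TH_l3528 _))
                    (CovZ.n1 (-49662, 43434) (by decide +kernel)
                     (CovZ.leaf K2_ok TH_l3529 _)
                     (CovZ.leaf K2_ok TH_l3530 _))))
                  (CovZ.subM 6427850256750759206762171925374530998830601948342173978066944 (by decide +kernel)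
                   (CovZ.n1 (-49644, 43380) (by decide +kernel)
                    (CovZ.n2 (-49680, 43380) (by decide +kernel)
                     (CovZ.n2 (-49662, 43398) (by decide +kernel)
                      (CovZ.leaf K2_ok TH_l3531 _)
                      (CovZ.leaf K2_ok TH_l3532 _))
                     (CovZ.n1 (-49662, 43362) (by decide +kernel)
                      (CovZ.leaf K2_ok TH_l3533 _)
                      (CovZ.leaf K2_ok TH_l3534 _)))
                    (CovZ.n1 (-49644, 43416) (by decide +kernel)
                     (CovZ.n2 (-49626, 43398) (by decide +kernel)
                      (CovZ.leaf K2_ok TH_l3535 _)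
                      (CovZ.badM (by decide +kernel)))
                     (CovZ.n1 (-49662, 43398) (by decide +kernel)
                      (CovZ.leaf K2_ok TH_l3536 _)
                      (CovZ.leaf K2_ok TH_l3537 _))))))
                 (CovZ.subM 25304566744933393967465820851656145632528107861007107358720 (by decide +kernel)
                  (CovZ.n1 (-49608, 43488) (by decide +kernel)
                   (CovZ.badM (by decide +kernel))
                   (CovZ.n1 (-49644, 43452) (by decide +kernel)
                    (CovZ.n2 (-49644, 43488) (by decide +kernel)
                     (CovZ.subM 25304566370788974810754673791354371527668216346586701103104 (by decide +kernel)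
                      (CovZ.n2 (-49626, 43470) (by decide +kernel)
                       (CovZ.n2 (-49644, 43470) (by decide +kernel)
                        (CovZ.leaf K2_ok TH_l3538 _)
                        (CovZ.leaf K2_ok TH_l3539 _))
                       (CovZ.n1 (-49626, 43488) (by decide +kernel)
                        (CovZ.badM (by decide +kernel))
                        (CovZ.n1 (-49635, 43479) (by decide +kernel)
                         (CovZ.leaf K2_ok TH_l3540 _)
                         (CovZ.badM (by decide +kernel))))))
                     (CovZ.n1 (-49662, 43470) (by decide +kernel)
                      (CovZ.leaf K2_ok TH_l3541 _)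
                      (CovZ.leaf K2_ok TH_l3542 _)))
                    (CovZ.badM (by decide +kernel)))))))
               (CovZ.n1 (-49752, 43416) (by decide +kernel)
                (CovZ.n2 (-49752, 43488) (by decide +kernel)
                 (CovZ.n2 (-49716, 43452) (by decide +kernel)
                  (CovZ.leaf K2_ok TH_l3543 _)
                  (CovZ.n1 (-49716, 43488) (by decide +kernel)
                   (CovZ.leaf K2_ok TH_l3544 _)
                   (CovZ.leaf K2_ok TH_l3545 _)))
                 (CovZ.n1 (-49788, 43452) (by decide +kernel)
                  (CovZ.leaf K2_ok TH_l3546 _)
                  (CovZ.leaf K2_ok TH_l3547 _)))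
                (CovZ.n1 (-49680, 43416) (by decide +kernel)
                 (CovZ.n2 (-49716, 43380) (by decide +kernel)
                  (CovZ.n2 (-49716, 43416) (by decide +kernel)
                   (CovZ.n2 (-49698, 43398) (by decide +kernel)
                    (CovZ.leaf K2_ok TH_l3548 _)
                    (CovZ.leaf K2_ok TH_l3549 _))
                   (CovZ.leaf K2_ok TH_l3550 _))
                  (CovZ.n1 (-49680, 43380) (by decide +kernel)
                   (CovZ.leaf K2_ok TH_l3551 _)
                   (CovZ.leaf K2_ok TH_l3552 _)))
                 (CovZ.n1 (-49716, 43452) (by decide +kernel)
                  (CovZ.subM 6453154826488847953983326922707333681261614770651216346087424 (by decide +kernel)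
                   (CovZ.n2 (-49680, 43452) (by decide +kernel)
                    (CovZ.n2 (-49698, 43434) (by decide +kernel)
                     (CovZ.leaf K2_ok TH_l3553 _)
                     (CovZ.leaf K2_ok TH_l3554 _))
                    (CovZ.n1 (-49698, 43470) (by decide +kernel)
                     (CovZ.leaf K2_ok TH_l3555 _)
                     (CovZ.leaf K2_ok TH_l3556 _))))
                  (CovZ.n1 (-49716, 43416) (by decide +kernel)
                   (CovZ.leaf K2_ok TH_l3557 _)
                   (CovZ.n1 (-49698, 43434) (by decide +kernel)
                    (CovZ.leaf K2_ok TH_l3558 _)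
                    (CovZ.leaf K2_ok TH_l3559 _)))))))
              (CovZ.subM 6427850256750759206762171925374530998226139038534859390713856 (by decide +kernel)
               (CovZ.n1 (-49536, 43344) (by decide +kernel)
                (CovZ.n2 (-49608, 43272) (by decide +kernel)
                 (CovZ.n2 (-49608, 43344) (by decide +kernel)
                  (CovZ.n2 (-49572, 43308) (by decide +kernel)
                   (CovZ.n2 (-49608, 43308) (by decide +kernel)
                    (CovZ.n2 (-49590, 43326) (by decide +kernel)
                     (CovZ.badM (by decide +kernel))
                     (CovZ.n1 (-49608, 43326) (by decide +kernel)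
                      (CovZ.badM (by decide +kernel))
                      (CovZ.badM (by decide +kernel))))
                    (CovZ.badM (by decide +kernel)))
                   (CovZ.badM (by decide +kernel)))
                  (CovZ.n1 (-49644, 43308) (by decide +kernel)
                   (CovZ.n2 (-49644, 43344) (by decide +kernel)
                    (CovZ.n2 (-49626, 43326) (by decide +kernel)
                     (CovZ.leaf K2_ok TH_l3560 _)
                     (CovZ.n1 (-49626, 43344) (by decide +kernel)
                      (CovZ.leaf K2_ok TH_l3561 _)
                      (CovZ.leaf K2_ok TH_l3562 _)))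
                    (CovZ.n1 (-49662, 43326) (by decide +kernel)
                     (CovZ.leaf K2_ok TH_l3563 _)
                     (CovZ.leaf K2_ok TH_l3564 _)))
                   (CovZ.n1 (-49608, 43308) (by decide +kernel)
                    (CovZ.n2 (-49626, 43290) (by decide +kernel)
                     (CovZ.n2 (-49626, 43308) (by decide +kernel)
                      (CovZ.badM (by decide +kernel))
                      (CovZ.leaf K2_ok TH_l3565 _))
                     (CovZ.badM (by decide +kernel)))
                    (CovZ.n1 (-49626, 43326) (by decide +kernel)
                     (CovZ.n2 (-49608, 43326) (by decide +kernel)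
                      (CovZ.leaf K2_ok TH_l3566 _)
                      (CovZ.leaf K2_ok TH_l3567 _))
                     (CovZ.leaf K2_ok TH_l3568 _)))))
                 (CovZ.badM (by decide +kernel)))
                (CovZ.n1 (-49608, 43416) (by decide +kernel)
                 (CovZ.badM (by decide +kernel))
                 (CovZ.n1 (-49608, 43344) (by decide +kernel)
                  (CovZ.n2 (-49644, 43380) (by decide +kernel)
                   (CovZ.n2 (-49608, 43380) (by decide +kernel)
                    (CovZ.n2 (-49626, 43362) (by decide +kernel)
                     (CovZ.n2 (-49626, 43380) (by decide +kernel)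
                      (CovZ.badM (by decide +kernel))
                      (CovZ.leaf K2_ok TH_l3569 _))
                     (CovZ.badM (by decide +kernel)))
                    (CovZ.n1 (-49626, 43398) (by decide +kernel)
                     (CovZ.badM (by decide +kernel))
                     (CovZ.leaf K2_ok TH_l3570 _)))
                   (CovZ.n1 (-49644, 43344) (by decide +kernel)
                    (CovZ.n2 (-49662, 43362) (by decide +kernel)
                     (CovZ.leaf K2_ok TH_l3571 _)
                     (CovZ.leaf K2_ok TH_l3572 _))
                    (CovZ.n1 (-49626, 43362) (by decide +kernel)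
                     (CovZ.n2 (-49626, 43344) (by decide +kernel)
                      (CovZ.leaf K2_ok TH_l3573 _)
                      (CovZ.leaf K2_ok TH_l3574 _))
                     (CovZ.leaf K2_ok TH_l3575 _))))
                  (CovZ.badM (by decide +kernel)))))))
             (CovZ.n1 (-49680, 43632) (by decide +kernel)
              (CovZ.subM 215679573362313528292038197005189379563232815377173064364536543313920 (by decide +kernel)
               (CovZ.n2 (-49536, 43632) (by decide +kernel)
                (CovZ.n2 (-49608, 43560) (by decide +kernel)
                 (CovZ.n2 (-49608, 43632) (by decide +kernel)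
                  (CovZ.badM (by decide +kernel))
                  (CovZ.n1 (-49644, 43596) (by decide +kernel)
                   (CovZ.badM (by decide +kernel))
                   (CovZ.n1 (-49608, 43596) (by decide +kernel)
                    (CovZ.n2 (-49626, 43578) (by decide +kernel)
                     (CovZ.leaf K2_ok TH_l3576 _)
                     (CovZ.badM (by decide +kernel)))
                    (CovZ.badM (by decide +kernel)))))
                 (CovZ.n1 (-49536, 43560) (by decide +kernel)
                  (CovZ.badM (by decide +kernel))
                  (CovZ.badM (by decide +kernel))))
                (CovZ.badM (by decide +kernel))))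
              (CovZ.n1 (-49680, 43488) (by decide +kernel)
               (CovZ.n2 (-49752, 43560) (by decide +kernel)
                (CovZ.subM 215679579790359944846184074676761709182613389251449049054906522009600 (by decide +kernel)
                 (CovZ.n2 (-49680, 43560) (by decide +kernel)
                  (CovZ.n2 (-49716, 43524) (by decide +kernel)
                   (CovZ.leaf K2_ok TH_l3577 _)
                   (CovZ.n1 (-49680, 43524) (by decide +kernel)
                    (CovZ.leaf K2_ok TH_l3578 _)
                    (CovZ.leaf K2_ok TH_l3579 _)))
                  (CovZ.n1 (-49716, 43596) (by decide +kernel)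
                   (CovZ.leaf K2_ok TH_l3580 _)
                   (CovZ.leaf K2_ok TH_l3581 _))))
                (CovZ.n1 (-49752, 43488) (by decide +kernel)
                 (CovZ.n2 (-49788, 43524) (by decide +kernel)
                  (CovZ.leaf K2_ok TH_l3582 _)
                  (CovZ.leaf K2_ok TH_l3583 _))
                 (CovZ.n1 (-49716, 43524) (by decide +kernel)
                  (CovZ.n2 (-49716, 43488) (by decide +kernel)
                   (CovZ.leaf K2_ok TH_l3584 _)
                   (CovZ.n1 (-49698, 43506) (by decide +kernel)
                    (CovZ.leaf K2_ok TH_l3585 _)
                    (CovZ.leaf K2_ok TH_l3586 _)))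
                  (CovZ.leaf K2_ok TH_l3587 _))))
               (CovZ.subM 215679573362509688095424867917312042721899838415800311965185837367296 (by decide +kernel)
                (CovZ.n1 (-49608, 43560) (by decide +kernel)
                 (CovZ.n2 (-49608, 43488) (by decide +kernel)
                  (CovZ.n2 (-49644, 43524) (by decide +kernel)
                   (CovZ.subM 25108407315691142212054304753132439769269313292276544307200 (by decide +kernel)
                    (CovZ.n2 (-49608, 43524) (by decide +kernel)
                     (CovZ.n2 (-49626, 43506) (by decide +kernel)
                      (CovZ.leaf K2_ok TH_l3588 _)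
                      (CovZ.badM (by decide +kernel)))
                     (CovZ.n1 (-49626, 43542) (by decide +kernel)
                      (CovZ.badM (by decide +kernel))
                      (CovZ.leaf K2_ok TH_l3589 _))))
                   (CovZ.n1 (-49644, 43488) (by decide +kernel)
                    (CovZ.n2 (-49662, 43506) (by decide +kernel)
                     (CovZ.leaf K2_ok TH_l3590 _)
                     (CovZ.leaf K2_ok TH_l3591 _))
                    (CovZ.n1 (-49626, 43506) (by decide +kernel)
                     (CovZ.n2 (-49626, 43488) (by decide +kernel)
                      (CovZ.leaf K2_ok TH_l3592 _)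
                      (CovZ.leaf K2_ok TH_l3593 _))
                     (CovZ.leaf K2_ok TH_l3594 _))))
                  (CovZ.badM (by decide +kernel)))
                 (CovZ.n1 (-49680, 43560) (by decide +kernel)
                  (CovZ.n2 (-49644, 43596) (by decide +kernel)
                   (CovZ.n2 (-49644, 43560) (by decide +kernel)
                    (CovZ.n2 (-49662, 43578) (by decide +kernel)
                     (CovZ.leaf K2_ok TH_l3595 _)
                     (CovZ.n1 (-49662, 43560) (by decide +kernel)
                      (CovZ.leaf K2_ok TH_l3596 _)
                      (CovZ.leaf K2_ok TH_l3597 _)))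
                    (CovZ.n1 (-49626, 43578) (by decide +kernel)
                     (CovZ.n2 (-49626, 43560) (by decide +kernel)
                      (CovZ.leaf K2_ok TH_l3598 _)
                      (CovZ.leaf K2_ok TH_l3599 _))
                     (CovZ.leaf K2_ok TH_l3600 _)))
                   (CovZ.n1 (-49680, 43596) (by decide +kernel)
                    (CovZ.n2 (-49662, 43614) (by decide +kernel)
                     (CovZ.leaf K2_ok TH_l3601 _)
                     (CovZ.leaf K2_ok TH_l3602 _))
                    (CovZ.n1 (-49662, 43578) (by decide +kernel)
                     (CovZ.leaf K2_ok TH_l3603 _)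
                     (CovZ.leaf K2_ok TH_l3604 _))))
                  (CovZ.n1 (-49644, 43524) (by decide +kernel)
                   (CovZ.n2 (-49680, 43524) (by decide +kernel)
                    (CovZ.n2 (-49662, 43542) (by decide +kernel)
                     (CovZ.leaf K2_ok TH_l3605 _)
                     (CovZ.leaf K2_ok TH_l3606 _))
                    (CovZ.leaf K2_ok TH_l3607 _))
                   (CovZ.n1 (-49644, 43560) (by decide +kernel)
                    (CovZ.n2 (-49626, 43542) (by decide +kernel)
                     (CovZ.leaf K2_ok TH_l3608 _)
                     (CovZ.leaf K2_ok TH_l3609 _))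
                    (CovZ.n1 (-49662, 43542) (by decide +kernel)
                     (CovZ.n2 (-49662, 43560) (by decide +kernel)
                      (CovZ.leaf K2_ok TH_l3610 _)
                      (CovZ.leaf K2_ok TH_l3611 _))
                     (CovZ.leaf K2_ok TH_l3612 _)))))))))))

theorem TH_u50 : CovZ TH_M (toL (selN TH_LN 647040359435954963422890138316419657616492977945018360025308827989702)) [0, 7, 6, 1] (-49824, 43488) (-50112, 43200) (-49536, 43200) :=
    (CovZ.n1 (-49824, 43200) (by decide +kernel)
            (CovZ.n2 (-49968, 43344) (by decide +kernel)
             (CovZ.n2 (-49824, 43344) (by decide +kernel)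
              (CovZ.n2 (-49896, 43272) (by decide +kernel)
               (CovZ.n2 (-49896, 43344) (by decide +kernel)
                (CovZ.leaf K2_ok TH_l3613 _)
                (CovZ.leaf K2_ok TH_l3614 _))
               (CovZ.leaf K2_ok TH_l3615 _))
              (CovZ.n1 (-49896, 43416) (by decide +kernel)
               (CovZ.leaf K2_ok TH_l3616 _)
               (CovZ.n1 (-49896, 43344) (by decide +kernel)
                (CovZ.leaf K2_ok TH_l3617 _)
                (CovZ.leaf K2_ok TH_l3618 _))))
             (CovZ.n1 (-49968, 43200) (by decide +kernel)
              (CovZ.leaf K2_ok TH_l3619 _)
              (CovZ.n1 (-49896, 43272) (by decide +kernel)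
               (CovZ.n2 (-49896, 43200) (by decide +kernel)
                (CovZ.leaf K2_ok TH_l3620 _)
                (CovZ.leaf K2_ok TH_l3621 _))
               (CovZ.leaf K2_ok TH_l3622 _))))
            (CovZ.n1 (-49680, 43344) (by decide +kernel)
             (CovZ.n2 (-49680, 43200) (by decide +kernel)
              (CovZ.n2 (-49752, 43272) (by decide +kernel)
               (CovZ.subM 431359564679267462429138343968338759793903694893137067135908513357826 (by decide +kernel)
                (CovZ.n2 (-49680, 43272) (by decide +kernel)
                 (CovZ.n2 (-49716, 43236) (by decide +kernel)
                  (CovZ.n2 (-49716, 43272) (by decide +kernel)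
                   (CovZ.leaf K2_ok TH_l3623 _)
                   (CovZ.leaf K2_ok TH_l3624 _))
                  (CovZ.n1 (-49680, 43236) (by decide +kernel)
                   (CovZ.leaf K2_ok TH_l3625 _)
                   (CovZ.leaf K2_ok TH_l3626 _)))
                 (CovZ.n1 (-49716, 43308) (by decide +kernel)
                  (CovZ.n2 (-49680, 43308) (by decide +kernel)
                   (CovZ.leaf K2_ok TH_l3627 _)
                   (CovZ.leaf K2_ok TH_l3628 _))
                  (CovZ.n1 (-49716, 43272) (by decide +kernel)
                   (CovZ.leaf K2_ok TH_l3629 _)
                   (CovZ.n1 (-49698, 43290) (by decide +kernel)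
                    (CovZ.leaf K2_ok TH_l3630 _)
                    (CovZ.leaf K2_ok TH_l3631 _))))))
               (CovZ.n1 (-49752, 43200) (by decide +kernel)
                (CovZ.leaf K2_ok TH_l3632 _)
                (CovZ.subM 431359641824860050389353681386857266669640210486369018293356779774466 (by decide +kernel)
                 (CovZ.n1 (-49716, 43236) (by decide +kernel)
                  (CovZ.n2 (-49716, 43200) (by decide +kernel)
                   (CovZ.n2 (-49734, 43218) (by decide +kernel)
                    (CovZ.leaf K2_ok TH_l3633 _)
                    (CovZ.leaf K2_ok TH_l3634 _))
                   (CovZ.n1 (-49698, 43218) (by decide +kernel)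
                    (CovZ.leaf K2_ok TH_l3635 _)
                    (CovZ.leaf K2_ok TH_l3636 _)))
                  (CovZ.leaf K2_ok TH_l3637 _)))))
              (CovZ.subM 431359564679267462429138343968338759772353633933678530051321324675074 (by decide +kernel)
               (CovZ.n1 (-49608, 43272) (by decide +kernel)
                (CovZ.n2 (-49608, 43200) (by decide +kernel)
                 (CovZ.n2 (-49644, 43236) (by decide +kernel)
                  (CovZ.subM 98079714798104594323556009880588137327063403688049508352 (by decide +kernel)
                   (CovZ.n2 (-49608, 43236) (by decide +kernel)
                    (CovZ.n2 (-49626, 43218) (by decide +kernel)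
                     (CovZ.n2 (-49626, 43236) (by decide +kernel)
                      (CovZ.badM (by decide +kernel))
                      (CovZ.n1 (-49635, 43227) (by decide +kernel)
                       (CovZ.leaf K2_ok TH_l3638 _)
                       (CovZ.leaf K2_ok TH_l3639 _)))
                     (CovZ.badM (by decide +kernel)))
                    (CovZ.n1 (-49626, 43254) (by decide +kernel)
                     (CovZ.badM (by decide +kernel))
                     (CovZ.leaf K2_ok TH_l3640 _))))
                  (CovZ.n1 (-49644, 43200) (by decide +kernel)
                   (CovZ.n2 (-49662, 43218) (by decide +kernel)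
                    (CovZ.leaf K2_ok TH_l3641 _)
                    (CovZ.leaf K2_ok TH_l3642 _))
                   (CovZ.n1 (-49626, 43218) (by decide +kernel)
                    (CovZ.leaf K2_ok TH_l3643 _)
                    (CovZ.leaf K2_ok TH_l3644 _))))
                 (CovZ.badM (by decide +kernel)))
                (CovZ.n1 (-49680, 43272) (by decide +kernel)
                 (CovZ.subM 431359153303127748997896576629233548864569600523874800445606202441728 (by decide +kernel)
                  (CovZ.n2 (-49644, 43308) (by decide +kernel)
                   (CovZ.n2 (-49644, 43272) (by decide +kernel)
                    (CovZ.n2 (-49662, 43290) (by decide +kernel)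
                     (CovZ.leaf K2_ok TH_l3645 _)
                     (CovZ.leaf K2_ok TH_l3646 _))
                    (CovZ.n1 (-49626, 43290) (by decide +kernel)
                     (CovZ.leaf K2_ok TH_l3647 _)
                     (CovZ.n1 (-49644, 43290) (by decide +kernel)
                      (CovZ.leaf K2_ok TH_l3648 _)
                      (CovZ.leaf K2_ok TH_l3649 _))))
                   (CovZ.n1 (-49680, 43308) (by decide +kernel)
                    (CovZ.n2 (-49662, 43326) (by decide +kernel)
                     (CovZ.leaf K2_ok TH_l3650 _)
                     (CovZ.leaf K2_ok TH_l3651 _))
                    (CovZ.n1 (-49662, 43290) (by decide +kernel)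
                     (CovZ.leaf K2_ok TH_l3652 _)
                     (CovZ.leaf K2_ok TH_l3653 _)))))
                 (CovZ.n1 (-49644, 43236) (by decide +kernel)
                  (CovZ.n2 (-49680, 43236) (by decide +kernel)
                   (CovZ.n2 (-49662, 43254) (by decide +kernel)
                    (CovZ.leaf K2_ok TH_l3654 _)
                    (CovZ.leaf K2_ok TH_l3655 _))
                   (CovZ.n1 (-49662, 43218) (by decide +kernel)
                    (CovZ.leaf K2_ok TH_l3656 _)
                    (CovZ.leaf K2_ok TH_l3657 _)))
                  (CovZ.subM 431359153303127748997896576629233548864569600523874800445606202441728 (by decide +kernel)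
                   (CovZ.n1 (-49644, 43272) (by decide +kernel)
                    (CovZ.n2 (-49626, 43254) (by decide +kernel)
                     (CovZ.leaf K2_ok TH_l3658 _)
                     (CovZ.n1 (-49626, 43272) (by decide +kernel)
                      (CovZ.badM (by decide +kernel))
                      (CovZ.leaf K2_ok TH_l3659 _)))
                    (CovZ.n1 (-49662, 43254) (by decide +kernel)
                     (CovZ.leaf K2_ok TH_l3660 _)
                     (CovZ.leaf K2_ok TH_l3661 _)))))))))
             (CovZ.n1 (-49824, 43344) (by decide +kernel)
              (CovZ.subM 431359166183937055937638751207623486288924329414737918633314026029058 (by decide +kernel)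
               (CovZ.n2 (-49752, 43416) (by decide +kernel)
                (CovZ.n2 (-49752, 43344) (by decide +kernel)
                 (CovZ.leaf K2_ok TH_l3662 _)
                 (CovZ.n1 (-49716, 43380) (by decide +kernel)
                  (CovZ.n2 (-49716, 43344) (by decide +kernel)
                   (CovZ.leaf K2_ok TH_l3663 _)
                   (CovZ.leaf K2_ok TH_l3664 _))
                  (CovZ.leaf K2_ok TH_l3665 _)))
                (CovZ.n1 (-49824, 43416) (by decide +kernel)
                 (CovZ.n2 (-49788, 43452) (by decide +kernel)
                  (CovZ.leaf K2_ok TH_l3666 _)
                  (CovZ.leaf K2_ok TH_l3667 _))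
                 (CovZ.leaf K2_ok TH_l3668 _))))
              (CovZ.n1 (-49752, 43272) (by decide +kernel)
               (CovZ.n2 (-49824, 43272) (by decide +kernel)
                (CovZ.leaf K2_ok TH_l3669 _)
                (CovZ.leaf K2_ok TH_l3670 _))
               (CovZ.subM 431359166183937055937627338801268138242531648510911890834313340551170 (by decide +kernel)
                (CovZ.n1 (-49752, 43344) (by decide +kernel)
                 (CovZ.n2 (-49716, 43308) (by decide +kernel)
                  (CovZ.leaf K2_ok TH_l3671 _)
                  (CovZ.leaf K2_ok TH_l3672 _))
                 (CovZ.n1 (-49788, 43308) (by decide +kernel)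
                  (CovZ.leaf K2_ok TH_l3673 _)
                  (CovZ.leaf K2_ok TH_l3674 _))))))))

theorem TH_u51 : CovZ TH_M (toL (selN TH_LN 862718293348817360547777098947884641163989722455769093690736104177663)) [0, 7, 6, 1] (-50688, 43776) (-50112, 43200) (-49536, 43776) :=
    (CovZ.subM 647040359439093514290948854107670278058281557661657871108382532810438 (by decide +kernel)
         (CovZ.n2 (-50112, 43776) (by decide +kernel)
          (CovZ.n2 (-49824, 43488) (by decide +kernel)
           (CovZ.n2 (-50112, 43488) (by decide +kernel)
            (CovZ.subM 647039562279722456564965202214581530285435994675620992493652800471042 (by decide +kernel)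
             (CovZ.n2 (-49968, 43632) (by decide +kernel)
              (CovZ.n2 (-49968, 43488) (by decide +kernel)
               (CovZ.leaf K2_ok TH_l3358 _)
               (CovZ.n1 (-49896, 43560) (by decide +kernel)
                (CovZ.n2 (-49896, 43488) (by decide +kernel)
                 (CovZ.leaf K2_ok TH_l3359 _)
                 (CovZ.leaf K2_ok TH_l3360 _))
                (CovZ.leaf K2_ok TH_l3361 _)))
              (CovZ.n1 (-50112, 43632) (by decide +kernel)
               (CovZ.n2 (-50040, 43704) (by decide +kernel)
                (CovZ.leaf K2_ok TH_l3362 _)
                (CovZ.leaf K2_ok TH_l3363 _))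
               (CovZ.leaf K2_ok TH_l3364 _))))
            (CovZ.n1 (-49968, 43344) (by decide +kernel)
             (CovZ.n2 (-50112, 43344) (by decide +kernel)
              (CovZ.leaf K2_ok TH_l3365 _)
              (CovZ.leaf K2_ok TH_l3366 _))
             (CovZ.subM 431360400318656668509139620260805194830765921998402765556713062965250 (by decide +kernel)
              (CovZ.n1 (-49968, 43488) (by decide +kernel)
               (CovZ.n2 (-49896, 43416) (by decide +kernel)
                (CovZ.leaf K2_ok TH_l3367 _)
                (CovZ.n1 (-49896, 43488) (by decide +kernel)
                 (CovZ.leaf K2_ok TH_l3368 _)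
                 (CovZ.leaf K2_ok TH_l3369 _)))
               (CovZ.leaf K2_ok TH_l3370 _)))))
           (CovZ.subM 647039562279722073435233973617857029312079043968923687857420859604992 (by decide +kernel)
            (CovZ.n1 (-49824, 43776) (by decide +kernel)
             (CovZ.n2 (-49680, 43632) (by decide +kernel)
              (CovZ.n2 (-49824, 43632) (by decide +kernel)
               (CovZ.subM 215679579991227200378649202971840152157646444868769190966484122206208 (by decide +kernel)
                (CovZ.n2 (-49752, 43704) (by decide +kernel)
                 (CovZ.n2 (-49752, 43632) (by decide +kernel)
                  (CovZ.n2 (-49788, 43668) (by decide +kernel)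
                   (CovZ.n2 (-49752, 43668) (by decide +kernel)
                    (CovZ.leaf K2_ok TH_l3371 _)
                    (CovZ.leaf K2_ok TH_l3372 _))
                   (CovZ.leaf K2_ok TH_l3373 _))
                  (CovZ.n1 (-49716, 43668) (by decide +kernel)
                   (CovZ.n2 (-49716, 43632) (by decide +kernel)
                    (CovZ.n2 (-49734, 43650) (by decide +kernel)
                     (CovZ.leaf K2_ok TH_l3374 _)
                     (CovZ.leaf K2_ok TH_l3375 _))
                    (CovZ.n1 (-49698, 43650) (by decide +kernel)
                     (CovZ.leaf K2_ok TH_l3376 _)
                     (CovZ.leaf K2_ok TH_l3377 _)))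
                   (CovZ.n1 (-49752, 43668) (by decide +kernel)
                    (CovZ.subM 215679573362313528666182616161900526644926192907537144673727875645440 (by decide +kernel)
                     (CovZ.n2 (-49734, 43686) (by decide +kernel)
                      (CovZ.n2 (-49734, 43668) (by decide +kernel)
                       (CovZ.leaf K2_ok TH_l3378 _)
                       (CovZ.n1 (-49725, 43677) (by decide +kernel)
                        (CovZ.leaf K2_ok TH_l3379 _)
                        (CovZ.n1 (-49734, 43677) (by decide +kernel)
                         (CovZ.leaf K2_ok TH_l3380 _)
                         (CovZ.leaf K2_ok TH_l3381 _))))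
                      (CovZ.n1 (-49752, 43686) (by decide +kernel)
                       (CovZ.n2 (-49743, 43695) (by decide +kernel)
                        (CovZ.leaf K2_ok TH_l3382 _)
                        (CovZ.n1 (-49752, 43695) (by decide +kernel)
                         (CovZ.leaf K2_ok TH_l3383 _)
                         (CovZ.leaf K2_ok TH_l3384 _)))
                       (CovZ.n1 (-49743, 43677) (by decide +kernel)
                        (CovZ.leaf K2_ok TH_l3385 _)
                        (CovZ.leaf K2_ok TH_l3386 _)))))
                    (CovZ.n1 (-49734, 43650) (by decide +kernel)
                     (CovZ.leaf K2_ok TH_l3387 _)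
                     (CovZ.leaf K2_ok TH_l3388 _)))))
                 (CovZ.n1 (-49824, 43704) (by decide +kernel)
                  (CovZ.n2 (-49788, 43740) (by decide +kernel)
                   (CovZ.n2 (-49788, 43704) (by decide +kernel)
                    (CovZ.n2 (-49806, 43722) (by decide +kernel)
                     (CovZ.leaf K2_ok TH_l3389 _)
                     (CovZ.leaf K2_ok TH_l3390 _))
                    (CovZ.n1 (-49770, 43722) (by decide +kernel)
                     (CovZ.leaf K2_ok TH_l3391 _)
                     (CovZ.leaf K2_ok TH_l3392 _)))
                   (CovZ.n1 (-49824, 43740) (by decide +kernel)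
                    (CovZ.subM 215679573337205118357336120696157045409379564983976250272776133279744 (by decide +kernel)
                     (CovZ.n2 (-49806, 43758) (by decide +kernel)
                      (CovZ.n2 (-49806, 43740) (by decide +kernel)
                       (CovZ.leaf K2_ok TH_l3393 _)
                       (CovZ.badM (by decide +kernel)))
                      (CovZ.n1 (-49824, 43758) (by decide +kernel)
                       (CovZ.badM (by decide +kernel))
                       (CovZ.leaf K2_ok TH_l3394 _))))
                    (CovZ.n1 (-49806, 43722) (by decide +kernel)
                     (CovZ.leaf K2_ok TH_l3395 _)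
                     (CovZ.n1 (-49806, 43740) (by decide +kernel)
                      (CovZ.leaf K2_ok TH_l3396 _)
                      (CovZ.leaf K2_ok TH_l3397 _)))))
                  (CovZ.n1 (-49788, 43668) (by decide +kernel)
                   (CovZ.leaf K2_ok TH_l3398 _)
                   (CovZ.leaf K2_ok TH_l3399 _)))))
               (CovZ.n1 (-49752, 43560) (by decide +kernel)
                (CovZ.n2 (-49824, 43560) (by decide +kernel)
                 (CovZ.n2 (-49788, 43596) (by decide +kernel)
                  (CovZ.leaf K2_ok TH_l3400 _)
                  (CovZ.leaf K2_ok TH_l3401 _))
                 (CovZ.n1 (-49788, 43524) (by decide +kernel)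
                  (CovZ.leaf K2_ok TH_l3402 _)
                  (CovZ.leaf K2_ok TH_l3403 _)))
                (CovZ.n1 (-49752, 43632) (by decide +kernel)
                 (CovZ.n2 (-49716, 43596) (by decide +kernel)
                  (CovZ.leaf K2_ok TH_l3404 _)
                  (CovZ.leaf K2_ok TH_l3405 _))
                 (CovZ.leaf K2_ok TH_l3406 _))))
              (CovZ.subM 98079714615416886934934231287680142747226581092351868928 (by decide +kernel)
               (CovZ.n1 (-49680, 43776) (by decide +kernel)
                (CovZ.badM (by decide +kernel))
                (CovZ.n1 (-49752, 43704) (by decide +kernel)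
                 (CovZ.n2 (-49752, 43776) (by decide +kernel)
                  (CovZ.n2 (-49716, 43740) (by decide +kernel)
                   (CovZ.n2 (-49752, 43740) (by decide +kernel)
                    (CovZ.badM (by decide +kernel))
                    (CovZ.n1 (-49734, 43722) (by decide +kernel)
                     (CovZ.leaf K2_ok TH_l3407 _)
                     (CovZ.badM (by decide +kernel))))
                   (CovZ.badM (by decide +kernel)))
                  (CovZ.n1 (-49788, 43740) (by decide +kernel)
                   (CovZ.badM (by decide +kernel))
                   (CovZ.n1 (-49752, 43740) (by decide +kernel)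
                    (CovZ.n2 (-49770, 43722) (by decide +kernel)
                     (CovZ.badM (by decide +kernel))
                     (CovZ.n1 (-49752, 43722) (by decide +kernel)
                      (CovZ.leaf K2_ok TH_l3408 _)
                      (CovZ.badM (by decide +kernel))))
                    (CovZ.badM (by decide +kernel)))))
                 (CovZ.n1 (-49680, 43704) (by decide +kernel)
                  (CovZ.n2 (-49716, 43668) (by decide +kernel)
                   (CovZ.n2 (-49716, 43704) (by decide +kernel)
                    (CovZ.badM (by decide +kernel))
                    (CovZ.n1 (-49734, 43686) (by decide +kernel)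
                     (CovZ.leaf K2_ok TH_l3409 _)
                     (CovZ.n1 (-49716, 43686) (by decide +kernel)
                      (CovZ.leaf K2_ok TH_l3410 _)
                      (CovZ.leaf K2_ok TH_l3411 _))))
                   (CovZ.badM (by decide +kernel)))
                  (CovZ.n1 (-49716, 43740) (by decide +kernel)
                   (CovZ.badM (by decide +kernel))
                   (CovZ.n1 (-49716, 43704) (by decide +kernel)
                    (CovZ.n2 (-49734, 43722) (by decide +kernel)
                     (CovZ.badM (by decide +kernel))
                     (CovZ.n1 (-49734, 43704) (by decide +kernel)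
                      (CovZ.n2 (-49743, 43713) (by decide +kernel)
                       (CovZ.badM (by decide +kernel))
                       (CovZ.leaf K2_ok TH_l3412 _))
                      (CovZ.badM (by decide +kernel))))
                    (CovZ.badM (by decide +kernel)))))))))
             (CovZ.n1 (-49968, 43632) (by decide +kernel)
              (CovZ.n2 (-49968, 43776) (by decide +kernel)
               (CovZ.n2 (-49896, 43704) (by decide +kernel)
                (CovZ.n2 (-49968, 43704) (by decide +kernel)
                 (CovZ.leaf K2_ok TH_l3413 _)
                 (CovZ.leaf K2_ok TH_l3414 _))
                (CovZ.n1 (-49896, 43776) (by decide +kernel)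
                 (CovZ.subM 215679579991227200378649203151509241891902572547450626380595187417088 (by decide +kernel)
                  (CovZ.n2 (-49860, 43740) (by decide +kernel)
                   (CovZ.leaf K2_ok TH_l3415 _)
                   (CovZ.n1 (-49860, 43776) (by decide +kernel)
                    (CovZ.n2 (-49842, 43758) (by decide +kernel)
                     (CovZ.leaf K2_ok TH_l3416 _)
                     (CovZ.leaf K2_ok TH_l3417 _))
                    (CovZ.leaf K2_ok TH_l3418 _))))
                 (CovZ.leaf K2_ok TH_l3419 _)))
               (CovZ.n1 (-50040, 43704) (by decide +kernel)
                (CovZ.leaf K2_ok TH_l3420 _)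
                (CovZ.leaf K2_ok TH_l3421 _)))
              (CovZ.n1 (-49824, 43632) (by decide +kernel)
               (CovZ.n2 (-49896, 43560) (by decide +kernel)
                (CovZ.leaf K2_ok TH_l3422 _)
                (CovZ.n1 (-49824, 43560) (by decide +kernel)
                 (CovZ.leaf K2_ok TH_l3423 _)
                 (CovZ.leaf K2_ok TH_l3424 _)))
               (CovZ.n1 (-49896, 43704) (by decide +kernel)
                (CovZ.subM 215679579991227200378649203151509241891902572547450626380595187417088 (by decide +kernel)
                 (CovZ.n2 (-49824, 43704) (by decide +kernel)
                  (CovZ.leaf K2_ok TH_l3425 _)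
                  (CovZ.n1 (-49860, 43740) (by decide +kernel)
                   (CovZ.n2 (-49824, 43740) (by decide +kernel)
                    (CovZ.leaf K2_ok TH_l3426 _)
                    (CovZ.n1 (-49842, 43758) (by decide +kernel)
                     (CovZ.n2 (-49824, 43758) (by decide +kernel)
                      (CovZ.leaf K2_ok TH_l3427 _)
                      (CovZ.n1 (-49833, 43767) (by decide +kernel)
                       (CovZ.badM (by decide +kernel))
                       (CovZ.leaf K2_ok TH_l8166 _)))
                     (CovZ.leaf K2_ok TH_l3428 _)))
                   (CovZ.leaf K2_ok TH_l3429 _))))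
                (CovZ.n1 (-49896, 43632) (by decide +kernel)
                 (CovZ.leaf K2_ok TH_l3430 _)
                 (CovZ.leaf K2_ok TH_l3431 _))))))))
          (CovZ.n1 (-50400, 43488) (by decide +kernel)
           (CovZ.subM 647039613704890300561154491994213025875411304639617682253349436170882 (by decide +kernel)
            (CovZ.n2 (-50400, 43776) (by decide +kernel)
             (CovZ.n2 (-50256, 43632) (by decide +kernel)
              (CovZ.leaf K2_ok TH_l3432 _)
              (CovZ.n1 (-50256, 43776) (by decide +kernel)
               (CovZ.leaf K2_ok TH_l3433 _)
               (CovZ.leaf K2_ok TH_l3434 _)))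
             (CovZ.n1 (-50544, 43632) (by decide +kernel)
              (CovZ.leaf K2_ok TH_l3435 _)
              (CovZ.leaf K2_ok TH_l3436 _))))
           (CovZ.n1 (-50112, 43488) (by decide +kernel)
            (CovZ.n2 (-50256, 43344) (by decide +kernel)
             (CovZ.leaf K2_ok TH_l3437 _)
             (CovZ.leaf K2_ok TH_l3438 _))
            (CovZ.n1 (-50256, 43632) (by decide +kernel)
             (CovZ.n2 (-50112, 43632) (by decide +kernel)
              (CovZ.leaf K2_ok TH_l3439 _)
              (CovZ.leaf K2_ok TH_l3440 _))
             (CovZ.leaf K2_ok TH_l3441 _))))))

theorem TH_u52 : CovZ TH_M (toL (selN TH_LN 862718293348817360547777098947884641163989722455769093690736104177663)) [0, 7, 6, 1] (-50112, 43200) (-49536, 42624) (-49536, 43776) :=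
    (CovZ.n1 (-49536, 43200) (by decide +kernel)
         (CovZ.n2 (-49824, 42912) (by decide +kernel)
          (CovZ.n2 (-49824, 43200) (by decide +kernel)
           (CovZ.n2 (-49680, 43056) (by decide +kernel)
            (CovZ.subM 431414265769509488301390614554742368298834702748624549696535592416986 (by decide +kernel)
             (CovZ.n2 (-49824, 43056) (by decide +kernel)
              (CovZ.n2 (-49752, 43128) (by decide +kernel)
               (CovZ.n2 (-49752, 43056) (by decide +kernel)
                (CovZ.leaf K2_ok TH_l3442 _)
                (CovZ.leaf K2_ok TH_l3443 _))
               (CovZ.n1 (-49824, 43128) (by decide +kernel)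
                (CovZ.leaf K2_ok TH_l3444 _)
                (CovZ.leaf K2_ok TH_l3445 _)))
              (CovZ.n1 (-49752, 42984) (by decide +kernel)
               (CovZ.leaf K2_ok TH_l3446 _)
               (CovZ.n1 (-49752, 43056) (by decide +kernel)
                (CovZ.leaf K2_ok TH_l3447 _)
                (CovZ.leaf K2_ok TH_l3448 _)))))
            (CovZ.subM 431414265768725615360505638876657025927016633137428029474286715516614 (by decide +kernel)
             (CovZ.n1 (-49680, 43200) (by decide +kernel)
              (CovZ.n2 (-49608, 43128) (by decide +kernel)
               (CovZ.n2 (-49680, 43128) (by decide +kernel)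
                (CovZ.n2 (-49644, 43164) (by decide +kernel)
                 (CovZ.n2 (-49644, 43128) (by decide +kernel)
                  (CovZ.n2 (-49662, 43146) (by decide +kernel)
                   (CovZ.leaf K2_ok TH_l3449 _)
                   (CovZ.leaf K2_ok TH_l3450 _))
                  (CovZ.n1 (-49626, 43146) (by decide +kernel)
                   (CovZ.leaf K2_ok TH_l3451 _)
                   (CovZ.leaf K2_ok TH_l3452 _)))
                 (CovZ.n1 (-49680, 43164) (by decide +kernel)
                  (CovZ.n2 (-49662, 43182) (by decide +kernel)
                   (CovZ.n2 (-49662, 43164) (by decide +kernel)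
                    (CovZ.leaf K2_ok TH_l3453 _)
                    (CovZ.leaf K2_ok TH_l3454 _))
                   (CovZ.leaf K2_ok TH_l3455 _))
                  (CovZ.n1 (-49662, 43146) (by decide +kernel)
                   (CovZ.leaf K2_ok TH_l3456 _)
                   (CovZ.leaf K2_ok TH_l3457 _))))
                (CovZ.n1 (-49644, 43092) (by decide +kernel)
                 (CovZ.leaf K2_ok TH_l3458 _)
                 (CovZ.n1 (-49644, 43128) (by decide +kernel)
                  (CovZ.leaf K2_ok TH_l3459 _)
                  (CovZ.leaf K2_ok TH_l3460 _))))
               (CovZ.n1 (-49608, 43200) (by decide +kernel)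
                (CovZ.n2 (-49572, 43164) (by decide +kernel)
                 (CovZ.n2 (-49608, 43164) (by decide +kernel)
                  (CovZ.n2 (-49590, 43182) (by decide +kernel)
                   (CovZ.leaf K2_ok TH_l3461 _)
                   (CovZ.leaf K2_ok TH_l3462 _))
                  (CovZ.n1 (-49590, 43146) (by decide +kernel)
                   (CovZ.leaf K2_ok TH_l3463 _)
                   (CovZ.leaf K2_ok TH_l3464 _)))
                 (CovZ.badM (by decide +kernel)))
                (CovZ.n1 (-49644, 43164) (by decide +kernel)
                 (CovZ.subM 431359789663160122216459031203813619028604639038961254446655649587714 (by decide +kernel)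
                  (CovZ.n2 (-49644, 43200) (by decide +kernel)
                   (CovZ.n2 (-49626, 43182) (by decide +kernel)
                    (CovZ.leaf K2_ok TH_l3465 _)
                    (CovZ.leaf K2_ok TH_l3466 _))
                   (CovZ.n1 (-49662, 43182) (by decide +kernel)
                    (CovZ.leaf K2_ok TH_l3467 _)
                    (CovZ.n1 (-49644, 43182) (by decide +kernel)
                     (CovZ.leaf K2_ok TH_l3468 _)
                     (CovZ.leaf K2_ok TH_l3469 _)))))
                 (CovZ.n1 (-49608, 43164) (by decide +kernel)
                  (CovZ.n2 (-49626, 43146) (by decide +kernel)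
                   (CovZ.leaf K2_ok TH_l3470 _)
                   (CovZ.leaf K2_ok TH_l3471 _))
                  (CovZ.n1 (-49626, 43182) (by decide +kernel)
                   (CovZ.n2 (-49608, 43182) (by decide +kernel)
                    (CovZ.leaf K2_ok TH_l3472 _)
                    (CovZ.leaf K2_ok TH_l3473 _))
                   (CovZ.leaf K2_ok TH_l3474 _))))))
              (CovZ.n1 (-49752, 43128) (by decide +kernel)
               (CovZ.n2 (-49752, 43200) (by decide +kernel)
                (CovZ.n2 (-49716, 43164) (by decide +kernel)
                 (CovZ.leaf K2_ok TH_l3475 _)
                 (CovZ.n1 (-49716, 43200) (by decide +kernel)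
                  (CovZ.n2 (-49698, 43182) (by decide +kernel)
                   (CovZ.leaf K2_ok TH_l3476 _)
                   (CovZ.leaf K2_ok TH_l3477 _))
                  (CovZ.n1 (-49734, 43182) (by decide +kernel)
                   (CovZ.leaf K2_ok TH_l3478 _)
                   (CovZ.leaf K2_ok TH_l3479 _))))
                (CovZ.leaf K2_ok TH_l3480 _))
               (CovZ.n1 (-49680, 43128) (by decide +kernel)
                (CovZ.n2 (-49716, 43092) (by decide +kernel)
                 (CovZ.leaf K2_ok TH_l3481 _)
                 (CovZ.leaf K2_ok TH_l3482 _))
                (CovZ.n1 (-49716, 43164) (by decide +kernel)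
                 (CovZ.leaf K2_ok TH_l3483 _)
                 (CovZ.n1 (-49716, 43128) (by decide +kernel)
                  (CovZ.leaf K2_ok TH_l3484 _)
                  (CovZ.leaf K2_ok TH_l3485 _))))))))
           (CovZ.subM 431415088540840136464551880651678704421126178794367730395187102267098 (by decide +kernel)
            (CovZ.n1 (-49968, 43056) (by decide +kernel)
             (CovZ.n2 (-49968, 43200) (by decide +kernel)
              (CovZ.n2 (-49896, 43128) (by decide +kernel)
               (CovZ.leaf K2_ok TH_l3486 _)
               (CovZ.n1 (-49896, 43200) (by decide +kernel)
                (CovZ.leaf K2_ok TH_l3487 _)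
                (CovZ.leaf K2_ok TH_l3488 _)))
              (CovZ.leaf K2_ok TH_l3489 _))
             (CovZ.n1 (-49824, 43056) (by decide +kernel)
              (CovZ.leaf K2_ok TH_l3490 _)
              (CovZ.n1 (-49896, 43128) (by decide +kernel)
               (CovZ.leaf K2_ok TH_l3491 _)
               (CovZ.leaf K2_ok TH_l3492 _))))))
          (CovZ.n1 (-49536, 42912) (by decide +kernel)
           (CovZ.n2 (-49680, 42768) (by decide +kernel)
            (CovZ.n2 (-49680, 42912) (by decide +kernel)
             (CovZ.leaf K2_ok TH_l3493 _)
             (CovZ.leaf K2_ok TH_l3494 _))
            (CovZ.n1 (-49536, 42768) (by decide +kernel)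
             (CovZ.leaf K2_ok TH_l3495 _)
             (CovZ.n1 (-49608, 42840) (by decide +kernel)
              (CovZ.leaf K2_ok TH_l3496 _)
              (CovZ.leaf K2_ok TH_l3497 _))))
           (CovZ.n1 (-49680, 43056) (by decide +kernel)
            (CovZ.n2 (-49536, 43056) (by decide +kernel)
             (CovZ.n2 (-49608, 42984) (by decide +kernel)
              (CovZ.n2 (-49608, 43056) (by decide +kernel)
               (CovZ.n2 (-49572, 43020) (by decide +kernel)
                (CovZ.leaf K2_ok TH_l3498 _)
                (CovZ.leaf K2_ok TH_l3499 _))
               (CovZ.leaf K2_ok TH_l3500 _))
              (CovZ.n1 (-49536, 42984) (by decide +kernel)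
               (CovZ.leaf K2_ok TH_l3501 _)
               (CovZ.n1 (-49572, 43020) (by decide +kernel)
                (CovZ.leaf K2_ok TH_l3502 _)
                (CovZ.leaf K2_ok TH_l3503 _))))
             (CovZ.subM 431414246485469107823720739245914182600544323959764554751139265885894 (by decide +kernel)
              (CovZ.n1 (-49608, 43128) (by decide +kernel)
               (CovZ.n2 (-49536, 43128) (by decide +kernel)
                (CovZ.n2 (-49572, 43092) (by decide +kernel)
                 (CovZ.n2 (-49572, 43128) (by decide +kernel)
                  (CovZ.n2 (-49554, 43110) (by decide +kernel)
                   (CovZ.leaf K2_ok TH_l3504 _)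
                   (CovZ.leaf K2_ok TH_l3505 _))
                  (CovZ.n1 (-49590, 43110) (by decide +kernel)
                   (CovZ.leaf K2_ok TH_l3506 _)
                   (CovZ.leaf K2_ok TH_l3507 _)))
                 (CovZ.n1 (-49536, 43092) (by decide +kernel)
                  (CovZ.leaf K2_ok TH_l3508 _)
                  (CovZ.n1 (-49554, 43110) (by decide +kernel)
                   (CovZ.leaf K2_ok TH_l3509 _)
                   (CovZ.leaf K2_ok TH_l3510 _))))
                (CovZ.n1 (-49572, 43164) (by decide +kernel)
                 (CovZ.subM 53298921064242995656719333175008901856030092842704844487074521088 (by decide +kernel)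
                  (CovZ.n2 (-49536, 43164) (by decide +kernel)
                   (CovZ.n2 (-49554, 43146) (by decide +kernel)
                    (CovZ.badM (by decide +kernel))
                    (CovZ.n1 (-49536, 43146) (by decide +kernel)
                     (CovZ.leaf K2_ok TH_l3511 _)
                     (CovZ.badM (by decide +kernel))))
                   (CovZ.badM (by decide +kernel))))
                 (CovZ.n1 (-49572, 43128) (by decide +kernel)
                  (CovZ.n2 (-49590, 43146) (by decide +kernel)
                   (CovZ.leaf K2_ok TH_l3512 _)
                   (CovZ.leaf K2_ok TH_l3513 _))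
                  (CovZ.n1 (-49554, 43146) (by decide +kernel)
                   (CovZ.leaf K2_ok TH_l3514 _)
                   (CovZ.leaf K2_ok TH_l3515 _)))))
               (CovZ.n1 (-49608, 43056) (by decide +kernel)
                (CovZ.n2 (-49644, 43092) (by decide +kernel)
                 (CovZ.leaf K2_ok TH_l3516 _)
                 (CovZ.leaf K2_ok TH_l3517 _))
                (CovZ.n1 (-49572, 43092) (by decide +kernel)
                 (CovZ.leaf K2_ok TH_l3518 _)
                 (CovZ.n1 (-49608, 43092) (by decide +kernel)
                  (CovZ.leaf K2_ok TH_l3519 _)
                  (CovZ.leaf K2_ok TH_l3520 _)))))))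
            (CovZ.n1 (-49680, 42912) (by decide +kernel)
             (CovZ.n2 (-49752, 42984) (by decide +kernel)
              (CovZ.leaf K2_ok TH_l3521 _)
              (CovZ.leaf K2_ok TH_l3522 _))
             (CovZ.n1 (-49608, 42984) (by decide +kernel)
              (CovZ.leaf K2_ok TH_l3523 _)
              (CovZ.n1 (-49680, 42984) (by decide +kernel)
               (CovZ.leaf K2_ok TH_l3524 _)
               (CovZ.leaf K2_ok TH_l3525 _)))))))
         (CovZ.subM 647040359435954963422890138316419657616492977945018360025308827989702 (by decide +kernel)
          (CovZ.n1 (-49824, 43488) (by decide +kernel)
           TH_u49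
           TH_u50)))

theorem TH_u53 : CovZ TH_M (toL (selN TH_LN 862718293348817360547777098947884641163989722455769093690736104177663)) [0, 7, 6, 1] (-50688, 46080) (-50688, 43776) (-48384, 43776) :=
    (CovZ.subM 862663188917068757400380982136712816203618761349281481784451126050818 (by decide +kernel)
      (CovZ.n2 (-49536, 44928) (by decide +kernel)
       (CovZ.n2 (-49536, 43776) (by decide +kernel)
        (CovZ.n2 (-50112, 44352) (by decide +kernel)
         (CovZ.badM (by decide +kernel))
         (CovZ.subM 647039562282861007433023918005917221318954809008126347228601627213826 (by decide +kernel)
          (CovZ.n1 (-50112, 43776) (by decide +kernel)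
           TH_u37
           TH_u38)))
        (CovZ.badM (by decide +kernel)))
       (CovZ.n1 (-50688, 44928) (by decide +kernel)
        (CovZ.subM 215623626634207726022114238101282183035491653117555693768974857682944 (by decide +kernel)
         (CovZ.n2 (-50112, 45504) (by decide +kernel)
          (CovZ.n2 (-50112, 44928) (by decide +kernel)
           TH_u39
           TH_u40)
          (CovZ.n1 (-50688, 45504) (by decide +kernel)
           (CovZ.n2 (-50400, 45792) (by decide +kernel)
            (CovZ.n2 (-50400, 45504) (by decide +kernel)
             (CovZ.n2 (-50544, 45648) (by decide +kernel)
              (CovZ.leaf K2_ok TH_l2729 _)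
              (CovZ.n1 (-50544, 45504) (by decide +kernel)
               (CovZ.leaf K2_ok TH_l2730 _)
               (CovZ.leaf K2_ok TH_l2731 _)))
             (CovZ.n1 (-50256, 45648) (by decide +kernel)
              (CovZ.n2 (-50256, 45504) (by decide +kernel)
               (CovZ.leaf K2_ok TH_l2732 _)
               (CovZ.leaf K2_ok TH_l2733 _))
              (CovZ.n1 (-50400, 45648) (by decide +kernel)
               (CovZ.leaf K2_ok TH_l2734 _)
               (CovZ.leaf K2_ok TH_l2735 _))))
            (CovZ.n1 (-50688, 45792) (by decide +kernel)
             (CovZ.n2 (-50544, 45936) (by decide +kernel)
              (CovZ.leaf K2_ok TH_l2736 _)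
              (CovZ.leaf K2_ok TH_l2737 _))
             (CovZ.n1 (-50544, 45648) (by decide +kernel)
              (CovZ.leaf K2_ok TH_l2738 _)
              (CovZ.n1 (-50544, 45792) (by decide +kernel)
               (CovZ.leaf K2_ok TH_l2739 _)
               (CovZ.leaf K2_ok TH_l2740 _)))))
           (CovZ.n1 (-50400, 45216) (by decide +kernel)
            (CovZ.n2 (-50688, 45216) (by decide +kernel)
             (CovZ.n2 (-50544, 45360) (by decide +kernel)
              (CovZ.n2 (-50544, 45216) (by decide +kernel)
               (CovZ.n2 (-50616, 45288) (by decide +kernel)
                (CovZ.leaf K2_ok TH_l2741 _)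
                (CovZ.leaf K2_ok TH_l2742 _))
               (CovZ.n1 (-50472, 45288) (by decide +kernel)
                (CovZ.leaf K2_ok TH_l2743 _)
                (CovZ.leaf K2_ok TH_l2744 _)))
              (CovZ.n1 (-50688, 45360) (by decide +kernel)
               (CovZ.leaf K2_ok TH_l2745 _)
               (CovZ.n1 (-50616, 45288) (by decide +kernel)
                (CovZ.leaf K2_ok TH_l2746 _)
                (CovZ.leaf K2_ok TH_l2747 _))))
             (CovZ.n1 (-50544, 45072) (by decide +kernel)
              (CovZ.n2 (-50688, 45072) (by decide +kernel)
               (CovZ.n2 (-50616, 45144) (by decide +kernel)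
                (CovZ.n2 (-50616, 45072) (by decide +kernel)
                 (CovZ.leaf K2_ok TH_l2748 _)
                 (CovZ.leaf K2_ok TH_l2749 _))
                (CovZ.leaf K2_ok TH_l2750 _))
               (CovZ.n1 (-50616, 45000) (by decide +kernel)
                (CovZ.n2 (-50688, 45000) (by decide +kernel)
                 (CovZ.leaf K2_ok TH_l2751 _)
                 (CovZ.n1 (-50652, 44964) (by decide +kernel)
                  (CovZ.leaf K2_ok TH_l2752 _)
                  (CovZ.leaf K2_ok TH_l2753 _)))
                (CovZ.n1 (-50616, 45072) (by decide +kernel)
                 (CovZ.leaf K2_ok TH_l2754 _)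
                 (CovZ.leaf K2_ok TH_l2755 _))))
              (CovZ.n1 (-50544, 45216) (by decide +kernel)
               (CovZ.n2 (-50472, 45144) (by decide +kernel)
                (CovZ.leaf K2_ok TH_l2756 _)
                (CovZ.n1 (-50472, 45216) (by decide +kernel)
                 (CovZ.leaf K2_ok TH_l2757 _)
                 (CovZ.leaf K2_ok TH_l2758 _)))
               (CovZ.n1 (-50616, 45144) (by decide +kernel)
                (CovZ.n2 (-50616, 45216) (by decide +kernel)
                 (CovZ.leaf K2_ok TH_l2759 _)
                 (CovZ.leaf K2_ok TH_l2760 _))
                (CovZ.leaf K2_ok TH_l2761 _)))))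
            (CovZ.n1 (-50400, 45504) (by decide +kernel)
             (CovZ.n2 (-50256, 45360) (by decide +kernel)
              (CovZ.n2 (-50400, 45360) (by decide +kernel)
               (CovZ.leaf K2_ok TH_l2762 _)
               (CovZ.n1 (-50328, 45288) (by decide +kernel)
                (CovZ.leaf K2_ok TH_l2763 _)
                (CovZ.leaf K2_ok TH_l2764 _)))
              (CovZ.n1 (-50256, 45504) (by decide +kernel)
               (CovZ.leaf K2_ok TH_l2765 _)
               (CovZ.leaf K2_ok TH_l2766 _)))
             (CovZ.n1 (-50544, 45360) (by decide +kernel)
              (CovZ.n2 (-50544, 45504) (by decide +kernel)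
               (CovZ.leaf K2_ok TH_l2767 _)
               (CovZ.leaf K2_ok TH_l2768 _))
              (CovZ.n1 (-50400, 45360) (by decide +kernel)
               (CovZ.n2 (-50472, 45288) (by decide +kernel)
                (CovZ.leaf K2_ok TH_l2769 _)
                (CovZ.leaf K2_ok TH_l2770 _))
               (CovZ.leaf K2_ok TH_l2771 _))))))))
        (CovZ.n1 (-50112, 44352) (by decide +kernel)
         (CovZ.n2 (-50688, 44352) (by decide +kernel)
          TH_u43
          TH_u44)
         (CovZ.subM 215623626634207726022111205199935136140072213218907215792265861545984 (by decide +kernel)
          (CovZ.n1 (-50112, 44928) (by decide +kernel)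
           (CovZ.subM 356811923176489970264571492362408968467775488 (by decide +kernel)
            (CovZ.n2 (-49824, 44640) (by decide +kernel)
             (CovZ.badM (by decide +kernel))
             (CovZ.n1 (-49824, 44928) (by decide +kernel)
              (CovZ.n2 (-49680, 44784) (by decide +kernel)
               (CovZ.badM (by decide +kernel))
               (CovZ.n1 (-49680, 44928) (by decide +kernel)
                (CovZ.badM (by decide +kernel))
                (CovZ.badM (by decide +kernel))))
              (CovZ.badM (by decide +kernel)))))
           (CovZ.n1 (-50400, 44640) (by decide +kernel)
            (CovZ.n2 (-50400, 44928) (by decide +kernel)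
             TH_u45
             TH_u46)
            (CovZ.subM 75097536987025213511562106146664641801059907635260041340862576197632 (by decide +kernel)
             (CovZ.n1 (-50112, 44640) (by decide +kernel)
              (CovZ.badM (by decide +kernel))
              (CovZ.n1 (-50256, 44784) (by decide +kernel)
               (CovZ.badM (by decide +kernel))
               (CovZ.subM 6582018229296796790032891486935326606080555253031340852786495488 (by decide +kernel)
                (CovZ.n1 (-50256, 44640) (by decide +kernel)
                 (CovZ.n2 (-50328, 44712) (by decide +kernel)
                  (CovZ.n2 (-50256, 44712) (by decide +kernel)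
                   (CovZ.badM (by decide +kernel))
                   (CovZ.n1 (-50292, 44748) (by decide +kernel)
                    (CovZ.badM (by decide +kernel))
                    (CovZ.n1 (-50292, 44712) (by decide +kernel)
                     (CovZ.n2 (-50310, 44730) (by decide +kernel)
                      (CovZ.n2 (-50292, 44730) (by decide +kernel)
                       (CovZ.n2 (-50301, 44721) (by decide +kernel)
                        (CovZ.n2 (-50301, 44730) (by decide +kernel)
                         (CovZ.badM (by decide +kernel))
                         (CovZ.leaf K2_ok TH_l3150 _))
                        (CovZ.badM (by decide +kernel)))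
                       (CovZ.n1 (-50301, 44739) (by decide +kernel)
                        (CovZ.badM (by decide +kernel))
                        (CovZ.leaf K2_ok TH_l3151 _)))
                      (CovZ.n1 (-50310, 44712) (by decide +kernel)
                       (CovZ.n2 (-50319, 44721) (by decide +kernel)
                        (CovZ.leaf K2_ok TH_l3152 _)
                        (CovZ.leaf K2_ok TH_l3153 _))
                       (CovZ.n1 (-50301, 44721) (by decide +kernel)
                        (CovZ.leaf K2_ok TH_l3154 _)
                        (CovZ.leaf K2_ok TH_l3155 _))))
                     (CovZ.badM (by decide +kernel)))))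
                  (CovZ.badM (by decide +kernel)))
                 (CovZ.badM (by decide +kernel))))))))))))))

theorem TH_u54 : CovZ TH_M (toL (selN TH_LN 862718293348817360547777098947884641163989722455769093690736104177663)) [0, 7, 6, 1] (-50688, 43776) (-50688, 41472) (-48384, 43776) :=
    (CovZ.n1 (-49536, 42624) (by decide +kernel)
      (CovZ.n2 (-50688, 42624) (by decide +kernel)
       (CovZ.n2 (-50112, 43200) (by decide +kernel)
        (CovZ.n2 (-50112, 42624) (by decide +kernel)
         (CovZ.subM 431360246158934714706416705518906624348197703655662199104976956602058 (by decide +kernel)
          (CovZ.n2 (-50400, 42912) (by decide +kernel)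
           (CovZ.n2 (-50112, 42912) (by decide +kernel)
            (CovZ.n2 (-50256, 42768) (by decide +kernel)
             (CovZ.leaf K2_ok TH_l3156 _)
             (CovZ.leaf K2_ok TH_l3157 _))
            (CovZ.n1 (-50256, 43056) (by decide +kernel)
             (CovZ.leaf K2_ok TH_l3158 _)
             (CovZ.leaf K2_ok TH_l3159 _)))
           (CovZ.n1 (-50400, 42624) (by decide +kernel)
            (CovZ.leaf K2_ok TH_l3160 _)
            (CovZ.n1 (-50256, 42768) (by decide +kernel)
             (CovZ.leaf K2_ok TH_l3161 _)
             (CovZ.leaf K2_ok TH_l3162 _)))))
         (CovZ.n1 (-49824, 42912) (by decide +kernel)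
          (CovZ.n2 (-49824, 42624) (by decide +kernel)
           (CovZ.subM 431415082087783390064646450419397118607782682777226657836701138728666 (by decide +kernel)
            (CovZ.n2 (-49968, 42768) (by decide +kernel)
             (CovZ.n2 (-49824, 42768) (by decide +kernel)
              (CovZ.leaf K2_ok TH_l3163 _)
              (CovZ.leaf K2_ok TH_l3164 _))
             (CovZ.n1 (-49968, 42624) (by decide +kernel)
              (CovZ.leaf K2_ok TH_l3165 _)
              (CovZ.leaf K2_ok TH_l3166 _))))
           (CovZ.n1 (-49680, 42768) (by decide +kernel)
            (CovZ.n2 (-49680, 42624) (by decide +kernel)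
             (CovZ.leaf K2_ok TH_l3167 _)
             (CovZ.leaf K2_ok TH_l3168 _))
            (CovZ.n1 (-49824, 42768) (by decide +kernel)
             (CovZ.leaf K2_ok TH_l3169 _)
             (CovZ.leaf K2_ok TH_l3170 _))))
          (CovZ.n1 (-50112, 42912) (by decide +kernel)
           (CovZ.n2 (-49968, 43056) (by decide +kernel)
            (CovZ.n2 (-49968, 42912) (by decide +kernel)
             (CovZ.leaf K2_ok TH_l3171 _)
             (CovZ.n1 (-49896, 42984) (by decide +kernel)
              (CovZ.leaf K2_ok TH_l3172 _)
              (CovZ.leaf K2_ok TH_l3173 _)))
            (CovZ.n1 (-50112, 43056) (by decide +kernel)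
             (CovZ.leaf K2_ok TH_l3174 _)
             (CovZ.leaf K2_ok TH_l3175 _)))
           (CovZ.n1 (-49968, 42768) (by decide +kernel)
            (CovZ.n2 (-50112, 42768) (by decide +kernel)
             (CovZ.leaf K2_ok TH_l3176 _)
             (CovZ.leaf K2_ok TH_l3177 _))
            (CovZ.n1 (-49968, 42912) (by decide +kernel)
             (CovZ.leaf K2_ok TH_l3178 _)
             (CovZ.leaf K2_ok TH_l3179 _))))))
        (CovZ.subM 647039819496139833063752826215063669737294859035986778953805838595786 (by decide +kernel)
         (CovZ.n1 (-50688, 43200) (by decide +kernel)
          (CovZ.n2 (-50400, 43488) (by decide +kernel)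
           (CovZ.n2 (-50400, 43200) (by decide +kernel)
            (CovZ.n2 (-50544, 43344) (by decide +kernel)
             (CovZ.leaf K2_ok TH_l3180 _)
             (CovZ.leaf K2_ok TH_l3181 _))
            (CovZ.n1 (-50256, 43344) (by decide +kernel)
             (CovZ.leaf K2_ok TH_l3182 _)
             (CovZ.leaf K2_ok TH_l3183 _)))
           (CovZ.n1 (-50688, 43488) (by decide +kernel)
            (CovZ.n2 (-50544, 43632) (by decide +kernel)
             (CovZ.leaf K2_ok TH_l3184 _)
             (CovZ.leaf K2_ok TH_l3185 _))
            (CovZ.leaf K2_ok TH_l3186 _)))
          (CovZ.n1 (-50400, 42912) (by decide +kernel)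
           (CovZ.n2 (-50688, 42912) (by decide +kernel)
            (CovZ.leaf K2_ok TH_l3187 _)
            (CovZ.leaf K2_ok TH_l3188 _))
           (CovZ.n1 (-50400, 43200) (by decide +kernel)
            (CovZ.n2 (-50256, 43056) (by decide +kernel)
             (CovZ.leaf K2_ok TH_l3189 _)
             (CovZ.n1 (-50256, 43200) (by decide +kernel)
              (CovZ.leaf K2_ok TH_l3190 _)
              (CovZ.leaf K2_ok TH_l3191 _)))
            (CovZ.leaf K2_ok TH_l3192 _))))))
       (CovZ.n1 (-50112, 42048) (by decide +kernel)
        (CovZ.subM 431360246158934714706406714785057682629019773158819760423815989606090 (by decide +kernel)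
         (CovZ.n2 (-50688, 42048) (by decide +kernel)
          (CovZ.n2 (-50400, 42336) (by decide +kernel)
           (CovZ.n2 (-50400, 42048) (by decide +kernel)
            (CovZ.leaf K2_ok TH_l3193 _)
            (CovZ.n1 (-50256, 42192) (by decide +kernel)
             (CovZ.leaf K2_ok TH_l3194 _)
             (CovZ.leaf K2_ok TH_l3195 _)))
           (CovZ.n1 (-50688, 42336) (by decide +kernel)
            (CovZ.leaf K2_ok TH_l3196 _)
            (CovZ.leaf K2_ok TH_l3197 _)))
          (CovZ.n1 (-50400, 41760) (by decide +kernel)
           (CovZ.n2 (-50688, 41760) (by decide +kernel)
            (CovZ.leaf K2_ok TH_l3198 _)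
            (CovZ.leaf K2_ok TH_l3199 _))
           (CovZ.n1 (-50400, 42048) (by decide +kernel)
            (CovZ.leaf K2_ok TH_l3200 _)
            (CovZ.leaf K2_ok TH_l3201 _)))))
        (CovZ.n1 (-50112, 42624) (by decide +kernel)
         (CovZ.n2 (-49824, 42336) (by decide +kernel)
          (CovZ.subM 431415082087783390064647877667089824567663741063196107331837521475290 (by decide +kernel)
           (CovZ.n2 (-50112, 42336) (by decide +kernel)
            (CovZ.n2 (-49968, 42480) (by decide +kernel)
             (CovZ.leaf K2_ok TH_l3202 _)
             (CovZ.leaf K2_ok TH_l3203 _))
            (CovZ.n1 (-49968, 42192) (by decide +kernel)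
             (CovZ.leaf K2_ok TH_l3204 _)
             (CovZ.leaf K2_ok TH_l3205 _))))
          (CovZ.n1 (-49824, 42624) (by decide +kernel)
           (CovZ.n2 (-49680, 42480) (by decide +kernel)
            (CovZ.leaf K2_ok TH_l3206 _)
            (CovZ.n1 (-49680, 42624) (by decide +kernel)
             (CovZ.leaf K2_ok TH_l3207 _)
             (CovZ.leaf K2_ok TH_l3208 _)))
           (CovZ.n1 (-49968, 42480) (by decide +kernel)
            (CovZ.leaf K2_ok TH_l3209 _)
            (CovZ.leaf K2_ok TH_l3210 _))))
         (CovZ.subM 431360246158934714706406714785057682629030295653876052639022277375690 (by decide +kernel)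
          (CovZ.n1 (-50400, 42336) (by decide +kernel)
           (CovZ.n2 (-50400, 42624) (by decide +kernel)
            (CovZ.n2 (-50256, 42480) (by decide +kernel)
             (CovZ.leaf K2_ok TH_l3211 _)
             (CovZ.leaf K2_ok TH_l3212 _))
            (CovZ.leaf K2_ok TH_l3213 _))
           (CovZ.n1 (-50112, 42336) (by decide +kernel)
            (CovZ.leaf K2_ok TH_l3214 _)
            (CovZ.n1 (-50256, 42480) (by decide +kernel)
             (CovZ.leaf K2_ok TH_l3215 _)
             (CovZ.leaf K2_ok TH_l3216 _))))))))
      (CovZ.n1 (-49536, 43776) (by decide +kernel)
       (CovZ.n2 (-48960, 43200) (by decide +kernel)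
        (CovZ.n2 (-49536, 43200) (by decide +kernel)
         (CovZ.subM 215679573337401281153878144861968885028910715821899451704828024061952 (by decide +kernel)
          (CovZ.n2 (-49248, 43488) (by decide +kernel)
           (CovZ.badM (by decide +kernel))
           (CovZ.n1 (-49536, 43488) (by decide +kernel)
            (CovZ.n2 (-49392, 43632) (by decide +kernel)
             (CovZ.n2 (-49392, 43488) (by decide +kernel)
              (CovZ.n2 (-49464, 43560) (by decide +kernel)
               (CovZ.badM (by decide +kernel))
               (CovZ.badM (by decide +kernel)))
              (CovZ.badM (by decide +kernel)))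
             (CovZ.n1 (-49536, 43632) (by decide +kernel)
              (CovZ.badM (by decide +kernel))
              (CovZ.n1 (-49464, 43560) (by decide +kernel)
               (CovZ.n2 (-49536, 43560) (by decide +kernel)
                (CovZ.badM (by decide +kernel))
                (CovZ.badM (by decide +kernel)))
               (CovZ.badM (by decide +kernel)))))
            (CovZ.badM (by decide +kernel)))))
         (CovZ.n1 (-49248, 42912) (by decide +kernel)
          TH_u47
          TH_u48))
        (CovZ.badM (by decide +kernel)))
       (CovZ.n1 (-50112, 43200) (by decide +kernel)
        TH_u51
        TH_u52)))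

theorem TH_u55 : CovZ TH_M (toL (selN TH_LN 3211307308593602029703905773621947617675051008)) [0, 7, 6, 1] (-48384, 44928) (-48096, 44928) (-48096, 45216) :=
    (CovZ.n2 (-48240, 45072) (by decide +kernel)
              (CovZ.n2 (-48096, 45072) (by decide +kernel)
               (CovZ.subM 3211307308593602029394420763800567087552790528 (by decide +kernel)
                (CovZ.n2 (-48168, 45000) (by decide +kernel)
                 (CovZ.n2 (-48168, 45072) (by decide +kernel)
                  (CovZ.n2 (-48132, 45036) (by decide +kernel)
                   (CovZ.n2 (-48168, 45036) (by decide +kernel)
                    (CovZ.leaf K2_ok TH_l3788 _)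
                    (CovZ.n1 (-48150, 45018) (by decide +kernel)
                     (CovZ.leaf K2_ok TH_l3789 _)
                     (CovZ.leaf K2_ok TH_l3790 _)))
                   (CovZ.n1 (-48132, 45072) (by decide +kernel)
                    (CovZ.n2 (-48114, 45054) (by decide +kernel)
                     (CovZ.leaf K2_ok TH_l3791 _)
                     (CovZ.leaf K2_ok TH_l3792 _))
                    (CovZ.leaf K2_ok TH_l3793 _)))
                  (CovZ.n1 (-48204, 45036) (by decide +kernel)
                   (CovZ.n2 (-48204, 45072) (by decide +kernel)
                    (CovZ.leaf K2_ok TH_l3794 _)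
                    (CovZ.leaf K2_ok TH_l3795 _))
                   (CovZ.n1 (-48168, 45036) (by decide +kernel)
                    (CovZ.n2 (-48186, 45018) (by decide +kernel)
                     (CovZ.leaf K2_ok TH_l3796 _)
                     (CovZ.leaf K2_ok TH_l3797 _))
                    (CovZ.leaf K2_ok TH_l3798 _))))
                 (CovZ.n1 (-48096, 45000) (by decide +kernel)
                  (CovZ.n2 (-48132, 44964) (by decide +kernel)
                   (CovZ.n2 (-48132, 45000) (by decide +kernel)
                    (CovZ.n2 (-48114, 44982) (by decide +kernel)
                     (CovZ.leaf K2_ok TH_l3799 _)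
                     (CovZ.leaf K2_ok TH_l3800 _))
                    (CovZ.n1 (-48150, 44982) (by decide +kernel)
                     (CovZ.leaf K2_ok TH_l3801 _)
                     (CovZ.leaf K2_ok TH_l3802 _)))
                   (CovZ.n1 (-48096, 44964) (by decide +kernel)
                    (CovZ.badM (by decide +kernel))
                    (CovZ.n1 (-48114, 44982) (by decide +kernel)
                     (CovZ.leaf K2_ok TH_l3803 _)
                     (CovZ.n1 (-48114, 44964) (by decide +kernel)
                      (CovZ.leaf K2_ok TH_l3804 _)
                      (CovZ.leaf K2_ok TH_l3805 _)))))
                  (CovZ.n1 (-48132, 45036) (by decide +kernel)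
                   (CovZ.n2 (-48096, 45036) (by decide +kernel)
                    (CovZ.n2 (-48114, 45018) (by decide +kernel)
                     (CovZ.leaf K2_ok TH_l3806 _)
                     (CovZ.leaf K2_ok TH_l3807 _))
                    (CovZ.n1 (-48114, 45054) (by decide +kernel)
                     (CovZ.leaf K2_ok TH_l3808 _)
                     (CovZ.leaf K2_ok TH_l3809 _)))
                   (CovZ.n1 (-48132, 45000) (by decide +kernel)
                    (CovZ.n2 (-48150, 45018) (by decide +kernel)
                     (CovZ.leaf K2_ok TH_l3810 _)
                     (CovZ.leaf K2_ok TH_l3811 _))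
                    (CovZ.n1 (-48114, 45018) (by decide +kernel)
                     (CovZ.leaf K2_ok TH_l3812 _)
                     (CovZ.leaf K2_ok TH_l3813 _)))))))
               (CovZ.n1 (-48168, 45144) (by decide +kernel)
                (CovZ.n2 (-48096, 45144) (by decide +kernel)
                 (CovZ.n2 (-48132, 45108) (by decide +kernel)
                  (CovZ.n2 (-48132, 45144) (by decide +kernel)
                   (CovZ.leaf K2_ok TH_l3814 _)
                   (CovZ.leaf K2_ok TH_l3815 _))
                  (CovZ.n1 (-48096, 45108) (by decide +kernel)
                   (CovZ.leaf K2_ok TH_l3816 _)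
                   (CovZ.leaf K2_ok TH_l3817 _)))
                 (CovZ.n1 (-48132, 45180) (by decide +kernel)
                  (CovZ.leaf K2_ok TH_l3818 _)
                  (CovZ.n1 (-48132, 45144) (by decide +kernel)
                   (CovZ.leaf K2_ok TH_l3819 _)
                   (CovZ.leaf K2_ok TH_l3820 _))))
                (CovZ.n1 (-48168, 45072) (by decide +kernel)
                 (CovZ.n2 (-48204, 45108) (by decide +kernel)
                  (CovZ.n2 (-48168, 45108) (by decide +kernel)
                   (CovZ.leaf K2_ok TH_l3821 _)
                   (CovZ.leaf K2_ok TH_l3822 _))
                  (CovZ.n1 (-48204, 45072) (by decide +kernel)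
                   (CovZ.n2 (-48222, 45090) (by decide +kernel)
                    (CovZ.leaf K2_ok TH_l3823 _)
                    (CovZ.leaf K2_ok TH_l3824 _))
                   (CovZ.leaf K2_ok TH_l3825 _)))
                 (CovZ.n1 (-48132, 45108) (by decide +kernel)
                  (CovZ.n2 (-48132, 45072) (by decide +kernel)
                   (CovZ.n2 (-48150, 45090) (by decide +kernel)
                    (CovZ.leaf K2_ok TH_l3826 _)
                    (CovZ.leaf K2_ok TH_l3827 _))
                   (CovZ.leaf K2_ok TH_l3828 _))
                  (CovZ.leaf K2_ok TH_l3829 _)))))
              (CovZ.subM 3211307308593602029394420763800567087552790528 (by decide +kernel)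
               (CovZ.n1 (-48240, 44928) (by decide +kernel)
                (CovZ.n2 (-48312, 45000) (by decide +kernel)
                 (CovZ.n2 (-48240, 45000) (by decide +kernel)
                  (CovZ.n2 (-48276, 44964) (by decide +kernel)
                   (CovZ.n2 (-48276, 45000) (by decide +kernel)
                    (CovZ.n2 (-48258, 44982) (by decide +kernel)
                     (CovZ.leaf K2_ok TH_l3830 _)
                     (CovZ.leaf K2_ok TH_l3831 _))
                    (CovZ.n1 (-48294, 44982) (by decide +kernel)
                     (CovZ.leaf K2_ok TH_l3832 _)
                     (CovZ.leaf K2_ok TH_l3833 _)))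
                   (CovZ.n1 (-48240, 44964) (by decide +kernel)
                    (CovZ.badM (by decide +kernel))
                    (CovZ.n1 (-48258, 44982) (by decide +kernel)
                     (CovZ.leaf K2_ok TH_l3834 _)
                     (CovZ.leaf K2_ok TH_l3835 _))))
                  (CovZ.n1 (-48276, 45036) (by decide +kernel)
                   (CovZ.n2 (-48240, 45036) (by decide +kernel)
                    (CovZ.n2 (-48258, 45018) (by decide +kernel)
                     (CovZ.leaf K2_ok TH_l3836 _)
                     (CovZ.leaf K2_ok TH_l3837 _))
                    (CovZ.leaf K2_ok TH_l3838 _))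
                   (CovZ.n1 (-48276, 45000) (by decide +kernel)
                    (CovZ.n2 (-48294, 45018) (by decide +kernel)
                     (CovZ.leaf K2_ok TH_l3839 _)
                     (CovZ.leaf K2_ok TH_l3840 _))
                    (CovZ.n1 (-48258, 45018) (by decide +kernel)
                     (CovZ.leaf K2_ok TH_l3841 _)
                     (CovZ.leaf K2_ok TH_l3842 _)))))
                 (CovZ.n1 (-48312, 44928) (by decide +kernel)
                  (CovZ.n2 (-48348, 44964) (by decide +kernel)
                   (CovZ.n2 (-48312, 44964) (by decide +kernel)
                    (CovZ.badM (by decide +kernel))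
                    (CovZ.n1 (-48330, 44982) (by decide +kernel)
                     (CovZ.leaf K2_ok TH_l3843 _)
                     (CovZ.n1 (-48330, 44964) (by decide +kernel)
                      (CovZ.leaf K2_ok TH_l3844 _)
                      (CovZ.leaf K2_ok TH_l3845 _))))
                   (CovZ.badM (by decide +kernel)))
                  (CovZ.n1 (-48276, 44964) (by decide +kernel)
                   (CovZ.badM (by decide +kernel))
                   (CovZ.n1 (-48312, 44964) (by decide +kernel)
                    (CovZ.n2 (-48294, 44982) (by decide +kernel)
                     (CovZ.n2 (-48294, 44964) (by decide +kernel)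
                      (CovZ.leaf K2_ok TH_l3846 _)
                      (CovZ.leaf K2_ok TH_l3847 _))
                     (CovZ.leaf K2_ok TH_l3848 _))
                    (CovZ.badM (by decide +kernel))))))
                (CovZ.n1 (-48168, 45000) (by decide +kernel)
                 (CovZ.n2 (-48168, 44928) (by decide +kernel)
                  (CovZ.n2 (-48204, 44964) (by decide +kernel)
                   (CovZ.n2 (-48168, 44964) (by decide +kernel)
                    (CovZ.badM (by decide +kernel))
                    (CovZ.n1 (-48186, 44982) (by decide +kernel)
                     (CovZ.leaf K2_ok TH_l3849 _)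
                     (CovZ.n1 (-48186, 44964) (by decide +kernel)
                      (CovZ.leaf K2_ok TH_l3850 _)
                      (CovZ.leaf K2_ok TH_l3851 _))))
                   (CovZ.badM (by decide +kernel)))
                  (CovZ.n1 (-48132, 44964) (by decide +kernel)
                   (CovZ.badM (by decide +kernel))
                   (CovZ.n1 (-48168, 44964) (by decide +kernel)
                    (CovZ.n2 (-48150, 44982) (by decide +kernel)
                     (CovZ.leaf K2_ok TH_l3852 _)
                     (CovZ.leaf K2_ok TH_l3853 _))
                    (CovZ.badM (by decide +kernel)))))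
                 (CovZ.n1 (-48240, 45000) (by decide +kernel)
                  (CovZ.n2 (-48204, 45036) (by decide +kernel)
                   (CovZ.n2 (-48204, 45000) (by decide +kernel)
                    (CovZ.n2 (-48222, 45018) (by decide +kernel)
                     (CovZ.leaf K2_ok TH_l3854 _)
                     (CovZ.leaf K2_ok TH_l3855 _))
                    (CovZ.n1 (-48186, 45018) (by decide +kernel)
                     (CovZ.leaf K2_ok TH_l3856 _)
                     (CovZ.leaf K2_ok TH_l3857 _)))
                   (CovZ.n1 (-48240, 45036) (by decide +kernel)
                    (CovZ.leaf K2_ok TH_l3858 _)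
                    (CovZ.n1 (-48222, 45018) (by decide +kernel)
                     (CovZ.leaf K2_ok TH_l3859 _)
                     (CovZ.leaf K2_ok TH_l3860 _))))
                  (CovZ.n1 (-48204, 44964) (by decide +kernel)
                   (CovZ.n2 (-48240, 44964) (by decide +kernel)
                    (CovZ.n2 (-48222, 44982) (by decide +kernel)
                     (CovZ.leaf K2_ok TH_l3861 _)
                     (CovZ.leaf K2_ok TH_l3862 _))
                    (CovZ.badM (by decide +kernel)))
                   (CovZ.n1 (-48204, 45000) (by decide +kernel)
                    (CovZ.n2 (-48186, 44982) (by decide +kernel)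
                     (CovZ.leaf K2_ok TH_l3863 _)
                     (CovZ.leaf K2_ok TH_l3864 _))
                    (CovZ.n1 (-48222, 44982) (by decide +kernel)
                     (CovZ.leaf K2_ok TH_l3865 _)
                     (CovZ.leaf K2_ok TH_l3866 _)))))))))

theorem TH_u56 : CovZ TH_M (toL (selN TH_LN 3211307308593602029703905773621947617675051008)) [0, 7, 6, 1] (-48096, 44928) (-47808, 44928) (-48096, 45216) :=
    (CovZ.n1 (-47952, 45072) (by decide +kernel)
              (CovZ.subM 3211307308593602029394420763800567087552790528 (by decide +kernel)
               (CovZ.n2 (-47952, 44928) (by decide +kernel)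
                (CovZ.n2 (-48024, 45000) (by decide +kernel)
                 (CovZ.n2 (-47952, 45000) (by decide +kernel)
                  (CovZ.n2 (-47988, 44964) (by decide +kernel)
                   (CovZ.n2 (-47988, 45000) (by decide +kernel)
                    (CovZ.n2 (-47970, 44982) (by decide +kernel)
                     (CovZ.leaf K2_ok TH_l3867 _)
                     (CovZ.n1 (-47970, 45000) (by decide +kernel)
                      (CovZ.leaf K2_ok TH_l3868 _)
                      (CovZ.leaf K2_ok TH_l3869 _)))
                    (CovZ.n1 (-48006, 44982) (by decide +kernel)
                     (CovZ.leaf K2_ok TH_l3870 _)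
                     (CovZ.n1 (-47988, 44982) (by decide +kernel)
                      (CovZ.n2 (-47997, 44973) (by decide +kernel)
                       (CovZ.leaf K2_ok TH_l3871 _)
                       (CovZ.leaf K2_ok TH_l3872 _))
                      (CovZ.leaf K2_ok TH_l3873 _))))
                   (CovZ.n1 (-47952, 44964) (by decide +kernel)
                    (CovZ.badM (by decide +kernel))
                    (CovZ.n1 (-47970, 44982) (by decide +kernel)
                     (CovZ.n2 (-47952, 44982) (by decide +kernel)
                      (CovZ.leaf K2_ok TH_l3874 _)
                      (CovZ.leaf K2_ok TH_l3875 _))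
                     (CovZ.n1 (-47970, 44964) (by decide +kernel)
                      (CovZ.leaf K2_ok TH_l3876 _)
                      (CovZ.leaf K2_ok TH_l3877 _)))))
                  (CovZ.n1 (-47988, 45036) (by decide +kernel)
                   (CovZ.n2 (-47952, 45036) (by decide +kernel)
                    (CovZ.n2 (-47970, 45018) (by decide +kernel)
                     (CovZ.leaf K2_ok TH_l3878 _)
                     (CovZ.leaf K2_ok TH_l3879 _))
                    (CovZ.n1 (-47970, 45054) (by decide +kernel)
                     (CovZ.leaf K2_ok TH_l3880 _)
                     (CovZ.leaf K2_ok TH_l3881 _)))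
                   (CovZ.n1 (-47988, 45000) (by decide +kernel)
                    (CovZ.n2 (-48006, 45018) (by decide +kernel)
                     (CovZ.leaf K2_ok TH_l3882 _)
                     (CovZ.leaf K2_ok TH_l3883 _))
                    (CovZ.n1 (-47970, 45018) (by decide +kernel)
                     (CovZ.leaf K2_ok TH_l3884 _)
                     (CovZ.leaf K2_ok TH_l3885 _)))))
                 (CovZ.n1 (-48024, 44928) (by decide +kernel)
                  (CovZ.n2 (-48060, 44964) (by decide +kernel)
                   (CovZ.n2 (-48024, 44964) (by decide +kernel)
                    (CovZ.badM (by decide +kernel))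
                    (CovZ.n1 (-48042, 44982) (by decide +kernel)
                     (CovZ.leaf K2_ok TH_l3886 _)
                     (CovZ.n1 (-48042, 44964) (by decide +kernel)
                      (CovZ.leaf K2_ok TH_l3887 _)
                      (CovZ.leaf K2_ok TH_l3888 _))))
                   (CovZ.badM (by decide +kernel)))
                  (CovZ.n1 (-47988, 44964) (by decide +kernel)
                   (CovZ.badM (by decide +kernel))
                   (CovZ.n1 (-48024, 44964) (by decide +kernel)
                    (CovZ.n2 (-48006, 44982) (by decide +kernel)
                     (CovZ.n2 (-48006, 44964) (by decide +kernel)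
                      (CovZ.leaf K2_ok TH_l3889 _)
                      (CovZ.leaf K2_ok TH_l3890 _))
                     (CovZ.leaf K2_ok TH_l3891 _))
                    (CovZ.badM (by decide +kernel))))))
                (CovZ.n1 (-47880, 45000) (by decide +kernel)
                 (CovZ.n2 (-47880, 44928) (by decide +kernel)
                  (CovZ.n2 (-47916, 44964) (by decide +kernel)
                   (CovZ.n2 (-47880, 44964) (by decide +kernel)
                    (CovZ.badM (by decide +kernel))
                    (CovZ.n1 (-47898, 44982) (by decide +kernel)
                     (CovZ.n2 (-47880, 44982) (by decide +kernel)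
                      (CovZ.leaf K2_ok TH_l3892 _)
                      (CovZ.leaf K2_ok TH_l3893 _))
                     (CovZ.n1 (-47898, 44964) (by decide +kernel)
                      (CovZ.n2 (-47907, 44973) (by decide +kernel)
                       (CovZ.leaf K2_ok TH_l3894 _)
                       (CovZ.badM (by decide +kernel)))
                      (CovZ.leaf K2_ok TH_l3895 _))))
                   (CovZ.badM (by decide +kernel)))
                  (CovZ.n1 (-47844, 44964) (by decide +kernel)
                   (CovZ.badM (by decide +kernel))
                   (CovZ.n1 (-47880, 44964) (by decide +kernel)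
                    (CovZ.n2 (-47862, 44982) (by decide +kernel)
                     (CovZ.n2 (-47862, 44964) (by decide +kernel)
                      (CovZ.leaf K2_ok TH_l3896 _)
                      (CovZ.leaf K2_ok TH_l3897 _))
                     (CovZ.n1 (-47880, 44982) (by decide +kernel)
                      (CovZ.leaf K2_ok TH_l3898 _)
                      (CovZ.leaf K2_ok TH_l3899 _)))
                    (CovZ.badM (by decide +kernel)))))
                 (CovZ.n1 (-47952, 45000) (by decide +kernel)
                  (CovZ.n2 (-47916, 45036) (by decide +kernel)
                   (CovZ.n2 (-47916, 45000) (by decide +kernel)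
                    (CovZ.n2 (-47934, 45018) (by decide +kernel)
                     (CovZ.leaf K2_ok TH_l3900 _)
                     (CovZ.n1 (-47934, 45000) (by decide +kernel)
                      (CovZ.leaf K2_ok TH_l3901 _)
                      (CovZ.leaf K2_ok TH_l3902 _)))
                    (CovZ.n1 (-47898, 45018) (by decide +kernel)
                     (CovZ.n2 (-47898, 45000) (by decide +kernel)
                      (CovZ.leaf K2_ok TH_l3903 _)
                      (CovZ.leaf K2_ok TH_l3904 _))
                     (CovZ.leaf K2_ok TH_l3905 _)))
                   (CovZ.n1 (-47952, 45036) (by decide +kernel)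
                    (CovZ.n2 (-47934, 45054) (by decide +kernel)
                     (CovZ.leaf K2_ok TH_l3906 _)
                     (CovZ.leaf K2_ok TH_l3907 _))
                    (CovZ.n1 (-47934, 45018) (by decide +kernel)
                     (CovZ.leaf K2_ok TH_l3908 _)
                     (CovZ.leaf K2_ok TH_l3909 _))))
                  (CovZ.n1 (-47916, 44964) (by decide +kernel)
                   (CovZ.n2 (-47952, 44964) (by decide +kernel)
                    (CovZ.n2 (-47934, 44982) (by decide +kernel)
                     (CovZ.n2 (-47934, 44964) (by decide +kernel)
                      (CovZ.leaf K2_ok TH_l3910 _)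
                      (CovZ.leaf K2_ok TH_l3911 _))
                     (CovZ.leaf K2_ok TH_l3912 _))
                    (CovZ.badM (by decide +kernel)))
                   (CovZ.n1 (-47916, 45000) (by decide +kernel)
                    (CovZ.n2 (-47898, 44982) (by decide +kernel)
                     (CovZ.leaf K2_ok TH_l3913 _)
                     (CovZ.n1 (-47898, 45000) (by decide +kernel)
                      (CovZ.leaf K2_ok TH_l3914 _)
                      (CovZ.leaf K2_ok TH_l3915 _)))
                    (CovZ.n1 (-47934, 44982) (by decide +kernel)
                     (CovZ.leaf K2_ok TH_l3916 _)
                     (CovZ.n1 (-47916, 44982) (by decide +kernel)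
                      (CovZ.leaf K2_ok TH_l3917 _)
                      (CovZ.leaf K2_ok TH_l3918 _)))))))))
              (CovZ.n1 (-48096, 45072) (by decide +kernel)
               (CovZ.n2 (-48024, 45144) (by decide +kernel)
                (CovZ.n2 (-48024, 45072) (by decide +kernel)
                 (CovZ.n2 (-48060, 45108) (by decide +kernel)
                  (CovZ.n2 (-48024, 45108) (by decide +kernel)
                   (CovZ.leaf K2_ok TH_l3919 _)
                   (CovZ.leaf K2_ok TH_l3920 _))
                  (CovZ.subM 3211307308593602029394420763800567087552790528 (by decide +kernel)
                   (CovZ.n1 (-48060, 45072) (by decide +kernel)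
                    (CovZ.n2 (-48078, 45090) (by decide +kernel)
                     (CovZ.leaf K2_ok TH_l3921 _)
                     (CovZ.leaf K2_ok TH_l3922 _))
                    (CovZ.n1 (-48042, 45090) (by decide +kernel)
                     (CovZ.leaf K2_ok TH_l3923 _)
                     (CovZ.leaf K2_ok TH_l3924 _)))))
                 (CovZ.n1 (-47988, 45108) (by decide +kernel)
                  (CovZ.subM 3211307308593602029394420763800567087552790528 (by decide +kernel)
                   (CovZ.n2 (-47988, 45072) (by decide +kernel)
                    (CovZ.n2 (-48006, 45090) (by decide +kernel)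
                     (CovZ.leaf K2_ok TH_l3925 _)
                     (CovZ.leaf K2_ok TH_l3926 _))
                    (CovZ.n1 (-47970, 45090) (by decide +kernel)
                     (CovZ.leaf K2_ok TH_l3927 _)
                     (CovZ.leaf K2_ok TH_l3928 _))))
                  (CovZ.leaf K2_ok TH_l3929 _)))
                (CovZ.n1 (-48096, 45144) (by decide +kernel)
                 (CovZ.n2 (-48060, 45180) (by decide +kernel)
                  (CovZ.n2 (-48060, 45144) (by decide +kernel)
                   (CovZ.leaf K2_ok TH_l3930 _)
                   (CovZ.leaf K2_ok TH_l3931 _))
                  (CovZ.leaf K2_ok TH_l3932 _))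
                 (CovZ.n1 (-48060, 45108) (by decide +kernel)
                  (CovZ.leaf K2_ok TH_l3933 _)
                  (CovZ.n1 (-48060, 45144) (by decide +kernel)
                   (CovZ.leaf K2_ok TH_l3934 _)
                   (CovZ.leaf K2_ok TH_l3935 _)))))
               (CovZ.subM 3211307308593602029394420763800567087552790528 (by decide +kernel)
                (CovZ.n1 (-48024, 45000) (by decide +kernel)
                 (CovZ.n2 (-48096, 45000) (by decide +kernel)
                  (CovZ.n2 (-48060, 45036) (by decide +kernel)
                   (CovZ.n2 (-48060, 45000) (by decide +kernel)
                    (CovZ.n2 (-48078, 45018) (by decide +kernel)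
                     (CovZ.leaf K2_ok TH_l3936 _)
                     (CovZ.leaf K2_ok TH_l3937 _))
                    (CovZ.n1 (-48042, 45018) (by decide +kernel)
                     (CovZ.leaf K2_ok TH_l3938 _)
                     (CovZ.leaf K2_ok TH_l3939 _)))
                   (CovZ.n1 (-48096, 45036) (by decide +kernel)
                    (CovZ.leaf K2_ok TH_l3940 _)
                    (CovZ.n1 (-48078, 45018) (by decide +kernel)
                     (CovZ.leaf K2_ok TH_l3941 _)
                     (CovZ.leaf K2_ok TH_l3942 _))))
                  (CovZ.n1 (-48060, 44964) (by decide +kernel)
                   (CovZ.n2 (-48096, 44964) (by decide +kernel)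
                    (CovZ.n2 (-48078, 44982) (by decide +kernel)
                     (CovZ.n2 (-48078, 44964) (by decide +kernel)
                      (CovZ.leaf K2_ok TH_l3943 _)
                      (CovZ.leaf K2_ok TH_l3944 _))
                     (CovZ.leaf K2_ok TH_l3945 _))
                    (CovZ.badM (by decide +kernel)))
                   (CovZ.n1 (-48060, 45000) (by decide +kernel)
                    (CovZ.n2 (-48042, 44982) (by decide +kernel)
                     (CovZ.leaf K2_ok TH_l3946 _)
                     (CovZ.leaf K2_ok TH_l3947 _))
                    (CovZ.n1 (-48078, 44982) (by decide +kernel)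
                     (CovZ.leaf K2_ok TH_l3948 _)
                     (CovZ.n1 (-48060, 44982) (by decide +kernel)
                      (CovZ.leaf K2_ok TH_l3949 _)
                      (CovZ.leaf K2_ok TH_l3950 _))))))
                 (CovZ.n1 (-48024, 45072) (by decide +kernel)
                  (CovZ.n2 (-47988, 45036) (by decide +kernel)
                   (CovZ.n2 (-48024, 45036) (by decide +kernel)
                    (CovZ.leaf K2_ok TH_l3951 _)
                    (CovZ.n1 (-48006, 45018) (by decide +kernel)
                     (CovZ.leaf K2_ok TH_l3952 _)
                     (CovZ.leaf K2_ok TH_l3953 _)))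
                   (CovZ.n1 (-47988, 45072) (by decide +kernel)
                    (CovZ.leaf K2_ok TH_l3954 _)
                    (CovZ.leaf K2_ok TH_l3955 _)))
                  (CovZ.n1 (-48060, 45036) (by decide +kernel)
                   (CovZ.n2 (-48060, 45072) (by decide +kernel)
                    (CovZ.leaf K2_ok TH_l3956 _)
                    (CovZ.leaf K2_ok TH_l3957 _))
                   (CovZ.n1 (-48024, 45036) (by decide +kernel)
                    (CovZ.n2 (-48042, 45018) (by decide +kernel)
                     (CovZ.leaf K2_ok TH_l3958 _)
                     (CovZ.leaf K2_ok TH_l3959 _))
                    (CovZ.leaf K2_ok TH_l3960 _))))))))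

end Pool.Agent.TET
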