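import Pool.Agent.Helper38_TET.TH_M
import Pool.Agent.Helper38_TET.TH_L
import Pool.Agent.Helper38_TET.TH_24
import Pool.Agent.Helper38_TET.TH_25
import Pool.Agent.Helper38_TET.TH_26
import Pool.Agent.Helper38_TET.TH_27
import Pool.Agent.Helper38_TET.TH_28
import Pool.Agent.Helper38_TET.TH_29
import Pool.Agent.Helper38_TET.TH_30
import Pool.Agent.Helper38_TET.TH_31
import Pool.Agent.Helper38_TET.TH_32
import Pool.Agent.Helper38_TET.TH_33
import Pool.Agent.Helper38_TET.TH_U3

/-!
# MP_c7c9bf_co: certificates, family TH
-/

set_option autoImplicit false
set_option maxRecDepth 100000

namespace Pool.Agent.TET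

theorem TH_u57 : CovZ TH_M (toL (selN TH_LN 3211307308593602029703905773621947617675051008)) [0, 7, 6, 1] (-47520, 45216) (-47664, 45072) (-47520, 44928) :=
    (CovZ.n2 (-47520, 45072) (by decide +kernel)
               (CovZ.subM 2854495385417112059129849271438193305604587520 (by decide +kernel)
                (CovZ.n2 (-47592, 45000) (by decide +kernel)
                 (CovZ.n2 (-47592, 45072) (by decide +kernel)
                  (CovZ.n2 (-47556, 45036) (by decide +kernel)
                   (CovZ.n2 (-47592, 45036) (by decide +kernel)
                    (CovZ.n2 (-47574, 45054) (by decide +kernel)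
                     (CovZ.n2 (-47574, 45036) (by decide +kernel)
                      (CovZ.leaf K2_ok TH_l3961 _)
                      (CovZ.leaf K2_ok TH_l3962 _))
                     (CovZ.leaf K2_ok TH_l3963 _))
                    (CovZ.n1 (-47574, 45018) (by decide +kernel)
                     (CovZ.n2 (-47592, 45018) (by decide +kernel)
                      (CovZ.leaf K2_ok TH_l3964 _)
                      (CovZ.n1 (-47583, 45009) (by decide +kernel)
                       (CovZ.leaf K2_ok TH_l3965 _)
                       (CovZ.leaf K2_ok TH_l3966 _)))
                     (CovZ.n1 (-47574, 45036) (by decide +kernel)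
                      (CovZ.leaf K2_ok TH_l3967 _)
                      (CovZ.leaf K2_ok TH_l3968 _))))
                   (CovZ.n1 (-47556, 45072) (by decide +kernel)
                    (CovZ.n2 (-47538, 45054) (by decide +kernel)
                     (CovZ.leaf K2_ok TH_l3969 _)
                     (CovZ.n1 (-47538, 45072) (by decide +kernel)
                      (CovZ.leaf K2_ok TH_l3970 _)
                      (CovZ.leaf K2_ok TH_l3971 _)))
                    (CovZ.n1 (-47574, 45054) (by decide +kernel)
                     (CovZ.leaf K2_ok TH_l3972 _)
                     (CovZ.leaf K2_ok TH_l3973 _))))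
                  (CovZ.n1 (-47628, 45036) (by decide +kernel)
                   (CovZ.n2 (-47628, 45072) (by decide +kernel)
                    (CovZ.n2 (-47610, 45054) (by decide +kernel)
                     (CovZ.leaf K2_ok TH_l3974 _)
                     (CovZ.leaf K2_ok TH_l3975 _))
                    (CovZ.n1 (-47646, 45054) (by decide +kernel)
                     (CovZ.leaf K2_ok TH_l3976 _)
                     (CovZ.leaf K2_ok TH_l3977 _)))
                   (CovZ.n1 (-47592, 45036) (by decide +kernel)
                    (CovZ.n2 (-47610, 45018) (by decide +kernel)
                     (CovZ.leaf K2_ok TH_l3978 _)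
                     (CovZ.n1 (-47592, 45018) (by decide +kernel)
                      (CovZ.leaf K2_ok TH_l3979 _)
                      (CovZ.leaf K2_ok TH_l3980 _)))
                    (CovZ.n1 (-47610, 45054) (by decide +kernel)
                     (CovZ.leaf K2_ok TH_l3981 _)
                     (CovZ.n1 (-47610, 45036) (by decide +kernel)
                      (CovZ.leaf K2_ok TH_l3982 _)
                      (CovZ.leaf K2_ok TH_l3983 _))))))
                 (CovZ.n1 (-47520, 45000) (by decide +kernel)
                  (CovZ.n2 (-47556, 44964) (by decide +kernel)
                   (CovZ.n2 (-47556, 45000) (by decide +kernel)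
                    (CovZ.n2 (-47538, 44982) (by decide +kernel)
                     (CovZ.n2 (-47556, 44982) (by decide +kernel)
                      (CovZ.leaf K2_ok TH_l3984 _)
                      (CovZ.badM (by decide +kernel)))
                     (CovZ.n1 (-47538, 45000) (by decide +kernel)
                      (CovZ.badM (by decide +kernel))
                      (CovZ.n1 (-47547, 44991) (by decide +kernel)
                       (CovZ.leaf K2_ok TH_l3985 _)
                       (CovZ.badM (by decide +kernel)))))
                    (CovZ.n1 (-47574, 44982) (by decide +kernel)
                     (CovZ.n2 (-47574, 45000) (by decide +kernel)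
                      (CovZ.n2 (-47565, 44991) (by decide +kernel)
                       (CovZ.leaf K2_ok TH_l3986 _)
                       (CovZ.leaf K2_ok TH_l3987 _))
                      (CovZ.leaf K2_ok TH_l3988 _))
                     (CovZ.n1 (-47556, 44982) (by decide +kernel)
                      (CovZ.badM (by decide +kernel))
                      (CovZ.n1 (-47565, 44991) (by decide +kernel)
                       (CovZ.leaf K2_ok TH_l3989 _)
                       (CovZ.badM (by decide +kernel))))))
                   (CovZ.badM (by decide +kernel)))
                  (CovZ.n1 (-47556, 45036) (by decide +kernel)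
                   (CovZ.n2 (-47520, 45036) (by decide +kernel)
                    (CovZ.n2 (-47538, 45018) (by decide +kernel)
                     (CovZ.n2 (-47538, 45036) (by decide +kernel)
                      (CovZ.leaf K2_ok TH_l3990 _)
                      (CovZ.leaf K2_ok TH_l3991 _))
                     (CovZ.n1 (-47520, 45018) (by decide +kernel)
                      (CovZ.n2 (-47529, 45009) (by decide +kernel)
                       (CovZ.leaf K2_ok TH_l3992 _)
                       (CovZ.badM (by decide +kernel)))
                      (CovZ.leaf K2_ok TH_l3993 _)))
                    (CovZ.n1 (-47538, 45054) (by decide +kernel)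
                     (CovZ.leaf K2_ok TH_l3994 _)
                     (CovZ.n1 (-47538, 45036) (by decide +kernel)
                      (CovZ.leaf K2_ok TH_l3995 _)
                      (CovZ.leaf K2_ok TH_l3996 _))))
                   (CovZ.n1 (-47556, 45000) (by decide +kernel)
                    (CovZ.n2 (-47574, 45018) (by decide +kernel)
                     (CovZ.n2 (-47556, 45018) (by decide +kernel)
                      (CovZ.n2 (-47565, 45009) (by decide +kernel)
                       (CovZ.leaf K2_ok TH_l3997 _)
                       (CovZ.leaf K2_ok TH_l3998 _))
                      (CovZ.leaf K2_ok TH_l3999 _))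
                     (CovZ.n1 (-47574, 45000) (by decide +kernel)
                      (CovZ.n2 (-47583, 45009) (by decide +kernel)
                       (CovZ.leaf K2_ok TH_l4000 _)
                       (CovZ.leaf K2_ok TH_l4001 _))
                      (CovZ.leaf K2_ok TH_l4002 _)))
                    (CovZ.n1 (-47538, 45018) (by decide +kernel)
                     (CovZ.n2 (-47538, 45000) (by decide +kernel)
                      (CovZ.n2 (-47547, 45009) (by decide +kernel)
                       (CovZ.leaf K2_ok TH_l4003 _)
                       (CovZ.n1 (-47547, 45000) (by decide +kernel)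
                        (CovZ.leaf K2_ok TH_l4004 _)
                        (CovZ.leaf K2_ok TH_l4005 _)))
                      (CovZ.n1 (-47529, 45009) (by decide +kernel)
                       (CovZ.badM (by decide +kernel))
                       (CovZ.leaf K2_ok TH_l4006 _)))
                     (CovZ.n1 (-47556, 45018) (by decide +kernel)
                      (CovZ.leaf K2_ok TH_l4007 _)
                      (CovZ.leaf K2_ok TH_l4008 _))))))))
               (CovZ.n1 (-47592, 45144) (by decide +kernel)
                (CovZ.n2 (-47520, 45144) (by decide +kernel)
                 (CovZ.n2 (-47556, 45108) (by decide +kernel)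
                  (CovZ.n2 (-47556, 45144) (by decide +kernel)
                   (CovZ.n2 (-47538, 45126) (by decide +kernel)
                    (CovZ.leaf K2_ok TH_l4009 _)
                    (CovZ.leaf K2_ok TH_l4010 _))
                   (CovZ.n1 (-47574, 45126) (by decide +kernel)
                    (CovZ.leaf K2_ok TH_l4011 _)
                    (CovZ.leaf K2_ok TH_l4012 _)))
                  (CovZ.subM 3211307308593602029239678258889894555337883648 (by decide +kernel)
                   (CovZ.n1 (-47520, 45108) (by decide +kernel)
                    (CovZ.n2 (-47538, 45090) (by decide +kernel)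
                     (CovZ.leaf K2_ok TH_l4013 _)
                     (CovZ.leaf K2_ok TH_l4014 _))
                    (CovZ.n1 (-47538, 45126) (by decide +kernel)
                     (CovZ.leaf K2_ok TH_l4015 _)
                     (CovZ.leaf K2_ok TH_l4016 _)))))
                 (CovZ.n1 (-47556, 45180) (by decide +kernel)
                  (CovZ.n2 (-47520, 45180) (by decide +kernel)
                   (CovZ.leaf K2_ok TH_l4017 _)
                   (CovZ.leaf K2_ok TH_l4018 _))
                  (CovZ.n1 (-47556, 45144) (by decide +kernel)
                   (CovZ.leaf K2_ok TH_l4019 _)
                   (CovZ.n1 (-47538, 45162) (by decide +kernel)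
                    (CovZ.leaf K2_ok TH_l4020 _)
                    (CovZ.leaf K2_ok TH_l4021 _)))))
                (CovZ.n1 (-47592, 45072) (by decide +kernel)
                 (CovZ.n2 (-47628, 45108) (by decide +kernel)
                  (CovZ.n2 (-47592, 45108) (by decide +kernel)
                   (CovZ.n2 (-47610, 45090) (by decide +kernel)
                    (CovZ.leaf K2_ok TH_l4022 _)
                    (CovZ.leaf K2_ok TH_l4023 _))
                   (CovZ.n1 (-47610, 45126) (by decide +kernel)
                    (CovZ.leaf K2_ok TH_l4024 _)
                    (CovZ.leaf K2_ok TH_l4025 _)))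
                  (CovZ.n1 (-47628, 45072) (by decide +kernel)
                   (CovZ.n2 (-47646, 45090) (by decide +kernel)
                    (CovZ.leaf K2_ok TH_l4026 _)
                    (CovZ.leaf K2_ok TH_l4027 _))
                   (CovZ.n1 (-47610, 45090) (by decide +kernel)
                    (CovZ.leaf K2_ok TH_l4028 _)
                    (CovZ.leaf K2_ok TH_l4029 _))))
                 (CovZ.n1 (-47556, 45108) (by decide +kernel)
                  (CovZ.subM 3211307308593602029239678258889894555337883648 (by decide +kernel)
                   (CovZ.n2 (-47556, 45072) (by decide +kernel)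
                    (CovZ.n2 (-47574, 45090) (by decide +kernel)
                     (CovZ.leaf K2_ok TH_l4030 _)
                     (CovZ.leaf K2_ok TH_l4031 _))
                    (CovZ.n1 (-47538, 45090) (by decide +kernel)
                     (CovZ.leaf K2_ok TH_l4032 _)
                     (CovZ.leaf K2_ok TH_l4033 _))))
                  (CovZ.n1 (-47592, 45108) (by decide +kernel)
                   (CovZ.n2 (-47574, 45126) (by decide +kernel)
                    (CovZ.leaf K2_ok TH_l4034 _)
                    (CovZ.leaf K2_ok TH_l4035 _))
                   (CovZ.n1 (-47574, 45090) (by decide +kernel)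
                    (CovZ.leaf K2_ok TH_l4036 _)
                    (CovZ.leaf K2_ok TH_l4037 _)))))))

theorem TH_u58 : CovZ TH_M (toL (selN TH_LN 3211307308593602029703905773621947617675051008)) [0, 7, 6, 1] (-47664, 45072) (-47808, 44928) (-47520, 44928) :=
    (CovZ.subM 2854495385417112059129849271438193303457103872 (by decide +kernel)
               (CovZ.n1 (-47664, 44928) (by decide +kernel)
                (CovZ.n2 (-47736, 45000) (by decide +kernel)
                 (CovZ.n2 (-47664, 45000) (by decide +kernel)
                  (CovZ.n2 (-47700, 44964) (by decide +kernel)
                   (CovZ.n2 (-47700, 45000) (by decide +kernel)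
                    (CovZ.n2 (-47682, 44982) (by decide +kernel)
                     (CovZ.n2 (-47700, 44982) (by decide +kernel)
                      (CovZ.n2 (-47691, 44991) (by decide +kernel)
                       (CovZ.badM (by decide +kernel))
                       (CovZ.leaf K2_ok TH_l4038 _))
                      (CovZ.badM (by decide +kernel)))
                     (CovZ.n1 (-47682, 45000) (by decide +kernel)
                      (CovZ.leaf K2_ok TH_l4039 _)
                      (CovZ.leaf K2_ok TH_l4040 _)))
                    (CovZ.n1 (-47718, 44982) (by decide +kernel)
                     (CovZ.n2 (-47718, 45000) (by decide +kernel)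
                      (CovZ.leaf K2_ok TH_l4041 _)
                      (CovZ.leaf K2_ok TH_l4042 _))
                     (CovZ.n1 (-47700, 44982) (by decide +kernel)
                      (CovZ.badM (by decide +kernel))
                      (CovZ.leaf K2_ok TH_l4043 _))))
                   (CovZ.n1 (-47664, 44964) (by decide +kernel)
                    (CovZ.badM (by decide +kernel))
                    (CovZ.n1 (-47682, 44982) (by decide +kernel)
                     (CovZ.n2 (-47664, 44982) (by decide +kernel)
                      (CovZ.badM (by decide +kernel))
                      (CovZ.leaf K2_ok TH_l4044 _))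
                     (CovZ.badM (by decide +kernel)))))
                  (CovZ.n1 (-47700, 45036) (by decide +kernel)
                   (CovZ.n2 (-47664, 45036) (by decide +kernel)
                    (CovZ.n2 (-47682, 45018) (by decide +kernel)
                     (CovZ.leaf K2_ok TH_l4045 _)
                     (CovZ.leaf K2_ok TH_l4046 _))
                    (CovZ.n1 (-47682, 45054) (by decide +kernel)
                     (CovZ.leaf K2_ok TH_l4047 _)
                     (CovZ.n1 (-47682, 45036) (by decide +kernel)
                      (CovZ.leaf K2_ok TH_l4048 _)
                      (CovZ.leaf K2_ok TH_l4049 _))))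
                   (CovZ.n1 (-47700, 45000) (by decide +kernel)
                    (CovZ.n2 (-47718, 45018) (by decide +kernel)
                     (CovZ.leaf K2_ok TH_l4050 _)
                     (CovZ.n1 (-47718, 45000) (by decide +kernel)
                      (CovZ.leaf K2_ok TH_l4051 _)
                      (CovZ.leaf K2_ok TH_l4052 _)))
                    (CovZ.n1 (-47682, 45018) (by decide +kernel)
                     (CovZ.n2 (-47682, 45000) (by decide +kernel)
                      (CovZ.n2 (-47691, 45009) (by decide +kernel)
                       (CovZ.leaf K2_ok TH_l4053 _)
                       (CovZ.leaf K2_ok TH_l4054 _))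
                      (CovZ.n1 (-47673, 45009) (by decide +kernel)
                       (CovZ.leaf K2_ok TH_l4055 _)
                       (CovZ.leaf K2_ok TH_l4056 _)))
                     (CovZ.n1 (-47700, 45018) (by decide +kernel)
                      (CovZ.leaf K2_ok TH_l4057 _)
                      (CovZ.n1 (-47691, 45009) (by decide +kernel)
                       (CovZ.leaf K2_ok TH_l4058 _)
                       (CovZ.n1 (-47691, 45018) (by decide +kernel)
                        (CovZ.leaf K2_ok TH_l4059 _)
                        (CovZ.leaf K2_ok TH_l4060 _))))))))
                 (CovZ.n1 (-47736, 44928) (by decide +kernel)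
                  (CovZ.n2 (-47772, 44964) (by decide +kernel)
                   (CovZ.n2 (-47736, 44964) (by decide +kernel)
                    (CovZ.badM (by decide +kernel))
                    (CovZ.n1 (-47754, 44982) (by decide +kernel)
                     (CovZ.n2 (-47736, 44982) (by decide +kernel)
                      (CovZ.badM (by decide +kernel))
                      (CovZ.leaf K2_ok TH_l4061 _))
                     (CovZ.badM (by decide +kernel))))
                   (CovZ.badM (by decide +kernel)))
                  (CovZ.n1 (-47700, 44964) (by decide +kernel)
                   (CovZ.badM (by decide +kernel))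
                   (CovZ.n1 (-47736, 44964) (by decide +kernel)
                    (CovZ.n2 (-47718, 44982) (by decide +kernel)
                     (CovZ.badM (by decide +kernel))
                     (CovZ.n1 (-47736, 44982) (by decide +kernel)
                      (CovZ.leaf K2_ok TH_l4062 _)
                      (CovZ.badM (by decide +kernel))))
                    (CovZ.badM (by decide +kernel))))))
                (CovZ.n1 (-47592, 45000) (by decide +kernel)
                 (CovZ.n2 (-47592, 44928) (by decide +kernel)
                  (CovZ.n2 (-47628, 44964) (by decide +kernel)
                   (CovZ.n2 (-47592, 44964) (by decide +kernel)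
                    (CovZ.badM (by decide +kernel))
                    (CovZ.n1 (-47610, 44982) (by decide +kernel)
                     (CovZ.n2 (-47592, 44982) (by decide +kernel)
                      (CovZ.badM (by decide +kernel))
                      (CovZ.n1 (-47601, 44991) (by decide +kernel)
                       (CovZ.leaf K2_ok TH_l4063 _)
                       (CovZ.badM (by decide +kernel))))
                     (CovZ.badM (by decide +kernel))))
                   (CovZ.badM (by decide +kernel)))
                  (CovZ.n1 (-47556, 44964) (by decide +kernel)
                   (CovZ.badM (by decide +kernel))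
                   (CovZ.n1 (-47592, 44964) (by decide +kernel)
                    (CovZ.n2 (-47574, 44982) (by decide +kernel)
                     (CovZ.badM (by decide +kernel))
                     (CovZ.n1 (-47592, 44982) (by decide +kernel)
                      (CovZ.leaf K2_ok TH_l4064 _)
                      (CovZ.badM (by decide +kernel))))
                    (CovZ.badM (by decide +kernel)))))
                 (CovZ.n1 (-47664, 45000) (by decide +kernel)
                  (CovZ.n2 (-47628, 45036) (by decide +kernel)
                   (CovZ.n2 (-47628, 45000) (by decide +kernel)
                    (CovZ.n2 (-47646, 45018) (by decide +kernel)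
                     (CovZ.n2 (-47628, 45018) (by decide +kernel)
                      (CovZ.n2 (-47637, 45009) (by decide +kernel)
                       (CovZ.leaf K2_ok TH_l4065 _)
                       (CovZ.leaf K2_ok TH_l4066 _))
                      (CovZ.leaf K2_ok TH_l4067 _))
                     (CovZ.n1 (-47646, 45000) (by decide +kernel)
                      (CovZ.leaf K2_ok TH_l4068 _)
                      (CovZ.n1 (-47637, 45009) (by decide +kernel)
                       (CovZ.leaf K2_ok TH_l4069 _)
                       (CovZ.leaf K2_ok TH_l4070 _))))
                    (CovZ.n1 (-47610, 45018) (by decide +kernel)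
                     (CovZ.n2 (-47610, 45000) (by decide +kernel)
                      (CovZ.n2 (-47619, 45009) (by decide +kernel)
                       (CovZ.leaf K2_ok TH_l4071 _)
                       (CovZ.leaf K2_ok TH_l4072 _))
                      (CovZ.leaf K2_ok TH_l4073 _))
                     (CovZ.n1 (-47628, 45018) (by decide +kernel)
                      (CovZ.leaf K2_ok TH_l4074 _)
                      (CovZ.n1 (-47619, 45009) (by decide +kernel)
                       (CovZ.leaf K2_ok TH_l4075 _)
                       (CovZ.leaf K2_ok TH_l4076 _)))))
                   (CovZ.n1 (-47664, 45036) (by decide +kernel)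
                    (CovZ.n2 (-47646, 45054) (by decide +kernel)
                     (CovZ.n2 (-47646, 45036) (by decide +kernel)
                      (CovZ.leaf K2_ok TH_l4077 _)
                      (CovZ.leaf K2_ok TH_l4078 _))
                     (CovZ.leaf K2_ok TH_l4079 _))
                    (CovZ.n1 (-47646, 45018) (by decide +kernel)
                     (CovZ.leaf K2_ok TH_l4080 _)
                     (CovZ.n1 (-47646, 45036) (by decide +kernel)
                      (CovZ.leaf K2_ok TH_l4081 _)
                      (CovZ.leaf K2_ok TH_l4082 _)))))
                  (CovZ.n1 (-47628, 44964) (by decide +kernel)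
                   (CovZ.n2 (-47664, 44964) (by decide +kernel)
                    (CovZ.n2 (-47646, 44982) (by decide +kernel)
                     (CovZ.badM (by decide +kernel))
                     (CovZ.n1 (-47664, 44982) (by decide +kernel)
                      (CovZ.n2 (-47655, 44991) (by decide +kernel)
                       (CovZ.badM (by decide +kernel))
                       (CovZ.leaf K2_ok TH_l4083 _))
                      (CovZ.badM (by decide +kernel))))
                    (CovZ.badM (by decide +kernel)))
                   (CovZ.n1 (-47628, 45000) (by decide +kernel)
                    (CovZ.n2 (-47610, 44982) (by decide +kernel)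
                     (CovZ.n2 (-47628, 44982) (by decide +kernel)
                      (CovZ.leaf K2_ok TH_l4084 _)
                      (CovZ.badM (by decide +kernel)))
                     (CovZ.n1 (-47610, 45000) (by decide +kernel)
                      (CovZ.leaf K2_ok TH_l4085 _)
                      (CovZ.leaf K2_ok TH_l4086 _)))
                    (CovZ.n1 (-47646, 44982) (by decide +kernel)
                     (CovZ.n2 (-47646, 45000) (by decide +kernel)
                      (CovZ.leaf K2_ok TH_l4087 _)
                      (CovZ.leaf K2_ok TH_l4088 _))
                     (CovZ.n1 (-47628, 44982) (by decide +kernel)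
                      (CovZ.badM (by decide +kernel))
                      (CovZ.leaf K2_ok TH_l4089 _)))))))))

theorem TH_u59 : CovZ TH_M (toL (selN TH_LN 3211307308593602029703905773621947617675051008)) [0, 7, 6, 1] (-47808, 45504) (-47808, 45216) (-47520, 45216) :=
    (CovZ.n2 (-47664, 45360) (by decide +kernel)
              (CovZ.n2 (-47664, 45216) (by decide +kernel)
               (CovZ.n2 (-47736, 45288) (by decide +kernel)
                (CovZ.n2 (-47664, 45288) (by decide +kernel)
                 (CovZ.n2 (-47700, 45252) (by decide +kernel)
                  (CovZ.leaf K2_ok TH_l4154 _)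
                  (CovZ.leaf K2_ok TH_l4155 _))
                 (CovZ.n1 (-47700, 45324) (by decide +kernel)
                  (CovZ.leaf K2_ok TH_l4156 _)
                  (CovZ.leaf K2_ok TH_l4157 _)))
                (CovZ.n1 (-47736, 45216) (by decide +kernel)
                 (CovZ.n2 (-47772, 45252) (by decide +kernel)
                  (CovZ.leaf K2_ok TH_l4158 _)
                  (CovZ.n1 (-47772, 45216) (by decide +kernel)
                   (CovZ.leaf K2_ok TH_l4159 _)
                   (CovZ.leaf K2_ok TH_l4160 _)))
                 (CovZ.n1 (-47700, 45252) (by decide +kernel)
                  (CovZ.n2 (-47700, 45216) (by decide +kernel)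
                   (CovZ.leaf K2_ok TH_l4161 _)
                   (CovZ.leaf K2_ok TH_l4162 _))
                  (CovZ.leaf K2_ok TH_l4163 _))))
               (CovZ.n1 (-47592, 45288) (by decide +kernel)
                (CovZ.n2 (-47592, 45216) (by decide +kernel)
                 (CovZ.n2 (-47628, 45252) (by decide +kernel)
                  (CovZ.leaf K2_ok TH_l4164 _)
                  (CovZ.n1 (-47628, 45216) (by decide +kernel)
                   (CovZ.leaf K2_ok TH_l4165 _)
                   (CovZ.n1 (-47610, 45234) (by decide +kernel)
                    (CovZ.leaf K2_ok TH_l4166 _)
                    (CovZ.leaf K2_ok TH_l4167 _))))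
                 (CovZ.n1 (-47556, 45252) (by decide +kernel)
                  (CovZ.n2 (-47556, 45216) (by decide +kernel)
                   (CovZ.leaf K2_ok TH_l4168 _)
                   (CovZ.leaf K2_ok TH_l4169 _))
                  (CovZ.leaf K2_ok TH_l4170 _)))
                (CovZ.n1 (-47664, 45288) (by decide +kernel)
                 (CovZ.n2 (-47628, 45324) (by decide +kernel)
                  (CovZ.leaf K2_ok TH_l4171 _)
                  (CovZ.leaf K2_ok TH_l4172 _))
                 (CovZ.n1 (-47628, 45252) (by decide +kernel)
                  (CovZ.leaf K2_ok TH_l4173 _)
                  (CovZ.leaf K2_ok TH_l4174 _)))))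
              (CovZ.n1 (-47808, 45360) (by decide +kernel)
               (CovZ.n2 (-47736, 45432) (by decide +kernel)
                (CovZ.n2 (-47736, 45360) (by decide +kernel)
                 (CovZ.leaf K2_ok TH_l4175 _)
                 (CovZ.leaf K2_ok TH_l4176 _))
                (CovZ.leaf K2_ok TH_l4177 _))
               (CovZ.n1 (-47736, 45288) (by decide +kernel)
                (CovZ.n2 (-47808, 45288) (by decide +kernel)
                 (CovZ.n2 (-47772, 45324) (by decide +kernel)
                  (CovZ.leaf K2_ok TH_l4178 _)
                  (CovZ.leaf K2_ok TH_l4179 _))
                 (CovZ.n1 (-47772, 45252) (by decide +kernel)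
                  (CovZ.leaf K2_ok TH_l4180 _)
                  (CovZ.leaf K2_ok TH_l4181 _)))
                (CovZ.n1 (-47736, 45360) (by decide +kernel)
                 (CovZ.n2 (-47700, 45324) (by decide +kernel)
                  (CovZ.leaf K2_ok TH_l4182 _)
                  (CovZ.leaf K2_ok TH_l4183 _))
                 (CovZ.leaf K2_ok TH_l4184 _)))))

theorem TH_u60 : CovZ TH_M (toL (selN TH_LN 3211307308593602029703905773621947617675051008)) [0, 7, 6, 1] (-47808, 45216) (-47808, 44928) (-47520, 45216) :=
    (CovZ.n1 (-47664, 45072) (by decide +kernel)
              (CovZ.n2 (-47808, 45072) (by decide +kernel)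
               (CovZ.n2 (-47736, 45144) (by decide +kernel)
                (CovZ.n2 (-47736, 45072) (by decide +kernel)
                 (CovZ.n2 (-47772, 45108) (by decide +kernel)
                  (CovZ.n2 (-47736, 45108) (by decide +kernel)
                   (CovZ.n2 (-47754, 45090) (by decide +kernel)
                    (CovZ.leaf K2_ok TH_l4185 _)
                    (CovZ.leaf K2_ok TH_l4186 _))
                   (CovZ.n1 (-47754, 45126) (by decide +kernel)
                    (CovZ.leaf K2_ok TH_l4187 _)
                    (CovZ.leaf K2_ok TH_l4188 _)))
                  (CovZ.n1 (-47772, 45072) (by decide +kernel)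
                   (CovZ.n2 (-47790, 45090) (by decide +kernel)
                    (CovZ.leaf K2_ok TH_l4189 _)
                    (CovZ.leaf K2_ok TH_l4190 _))
                   (CovZ.n1 (-47754, 45090) (by decide +kernel)
                    (CovZ.leaf K2_ok TH_l4191 _)
                    (CovZ.leaf K2_ok TH_l4192 _))))
                 (CovZ.n1 (-47700, 45108) (by decide +kernel)
                  (CovZ.n2 (-47700, 45072) (by decide +kernel)
                   (CovZ.n2 (-47718, 45090) (by decide +kernel)
                    (CovZ.leaf K2_ok TH_l4193 _)
                    (CovZ.leaf K2_ok TH_l4194 _))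
                   (CovZ.n1 (-47682, 45090) (by decide +kernel)
                    (CovZ.leaf K2_ok TH_l4195 _)
                    (CovZ.leaf K2_ok TH_l4196 _)))
                  (CovZ.n1 (-47736, 45108) (by decide +kernel)
                   (CovZ.leaf K2_ok TH_l4197 _)
                   (CovZ.n1 (-47718, 45090) (by decide +kernel)
                    (CovZ.leaf K2_ok TH_l4198 _)
                    (CovZ.leaf K2_ok TH_l4199 _)))))
                (CovZ.n1 (-47808, 45144) (by decide +kernel)
                 (CovZ.n2 (-47772, 45180) (by decide +kernel)
                  (CovZ.n2 (-47772, 45144) (by decide +kernel)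
                   (CovZ.leaf K2_ok TH_l4200 _)
                   (CovZ.leaf K2_ok TH_l4201 _))
                  (CovZ.leaf K2_ok TH_l4202 _))
                 (CovZ.n1 (-47772, 45108) (by decide +kernel)
                  (CovZ.n2 (-47808, 45108) (by decide +kernel)
                   (CovZ.n2 (-47790, 45126) (by decide +kernel)
                    (CovZ.leaf K2_ok TH_l4203 _)
                    (CovZ.leaf K2_ok TH_l4204 _))
                   (CovZ.n1 (-47790, 45090) (by decide +kernel)
                    (CovZ.leaf K2_ok TH_l4205 _)
                    (CovZ.leaf K2_ok TH_l4206 _)))
                  (CovZ.n1 (-47772, 45144) (by decide +kernel)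
                   (CovZ.n2 (-47754, 45126) (by decide +kernel)
                    (CovZ.leaf K2_ok TH_l4207 _)
                    (CovZ.leaf K2_ok TH_l4208 _))
                   (CovZ.n1 (-47790, 45126) (by decide +kernel)
                    (CovZ.leaf K2_ok TH_l4209 _)
                    (CovZ.leaf K2_ok TH_l4210 _))))))
               (CovZ.subM 2854495385417112059129849271438193303457103872 (by decide +kernel)
                (CovZ.n1 (-47736, 45000) (by decide +kernel)
                 (CovZ.n2 (-47808, 45000) (by decide +kernel)
                  (CovZ.n2 (-47772, 45036) (by decide +kernel)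
                   (CovZ.n2 (-47772, 45000) (by decide +kernel)
                    (CovZ.n2 (-47790, 45018) (by decide +kernel)
                     (CovZ.n2 (-47772, 45018) (by decide +kernel)
                      (CovZ.leaf K2_ok TH_l4211 _)
                      (CovZ.leaf K2_ok TH_l4212 _))
                     (CovZ.n1 (-47790, 45000) (by decide +kernel)
                      (CovZ.leaf K2_ok TH_l4213 _)
                      (CovZ.leaf K2_ok TH_l4214 _)))
                    (CovZ.n1 (-47754, 45018) (by decide +kernel)
                     (CovZ.n2 (-47754, 45000) (by decide +kernel)
                      (CovZ.leaf K2_ok TH_l4215 _)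
                      (CovZ.leaf K2_ok TH_l4216 _))
                     (CovZ.leaf K2_ok TH_l4217 _)))
                   (CovZ.n1 (-47808, 45036) (by decide +kernel)
                    (CovZ.n2 (-47790, 45054) (by decide +kernel)
                     (CovZ.leaf K2_ok TH_l4218 _)
                     (CovZ.leaf K2_ok TH_l4219 _))
                    (CovZ.n1 (-47790, 45018) (by decide +kernel)
                     (CovZ.leaf K2_ok TH_l4220 _)
                     (CovZ.leaf K2_ok TH_l4221 _))))
                  (CovZ.n1 (-47772, 44964) (by decide +kernel)
                   (CovZ.n2 (-47808, 44964) (by decide +kernel)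
                    (CovZ.n2 (-47790, 44982) (by decide +kernel)
                     (CovZ.n2 (-47790, 44964) (by decide +kernel)
                      (CovZ.n2 (-47799, 44973) (by decide +kernel)
                       (CovZ.leaf K2_ok TH_l4222 _)
                       (CovZ.badM (by decide +kernel)))
                      (CovZ.leaf K2_ok TH_l4223 _))
                     (CovZ.leaf K2_ok TH_l4224 _))
                    (CovZ.badM (by decide +kernel)))
                   (CovZ.n1 (-47772, 45000) (by decide +kernel)
                    (CovZ.n2 (-47754, 44982) (by decide +kernel)
                     (CovZ.n2 (-47772, 44982) (by decide +kernel)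
                      (CovZ.leaf K2_ok TH_l4225 _)
                      (CovZ.badM (by decide +kernel)))
                     (CovZ.n1 (-47754, 45000) (by decide +kernel)
                      (CovZ.leaf K2_ok TH_l4226 _)
                      (CovZ.leaf K2_ok TH_l4227 _)))
                    (CovZ.n1 (-47790, 44982) (by decide +kernel)
                     (CovZ.n2 (-47790, 45000) (by decide +kernel)
                      (CovZ.leaf K2_ok TH_l4228 _)
                      (CovZ.leaf K2_ok TH_l4229 _))
                     (CovZ.n1 (-47772, 44982) (by decide +kernel)
                      (CovZ.n2 (-47781, 44973) (by decide +kernel)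
                       (CovZ.leaf K2_ok TH_l4230 _)
                       (CovZ.badM (by decide +kernel)))
                      (CovZ.n1 (-47781, 44991) (by decide +kernel)
                       (CovZ.leaf K2_ok TH_l4231 _)
                       (CovZ.n1 (-47781, 44982) (by decide +kernel)
                        (CovZ.leaf K2_ok TH_l4232 _)
                        (CovZ.leaf K2_ok TH_l4233 _))))))))
                 (CovZ.n1 (-47736, 45072) (by decide +kernel)
                  (CovZ.n2 (-47700, 45036) (by decide +kernel)
                   (CovZ.n2 (-47736, 45036) (by decide +kernel)
                    (CovZ.n2 (-47718, 45054) (by decide +kernel)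
                     (CovZ.n2 (-47718, 45036) (by decide +kernel)
                      (CovZ.leaf K2_ok TH_l4234 _)
                      (CovZ.leaf K2_ok TH_l4235 _))
                     (CovZ.leaf K2_ok TH_l4236 _))
                    (CovZ.n1 (-47718, 45018) (by decide +kernel)
                     (CovZ.leaf K2_ok TH_l4237 _)
                     (CovZ.leaf K2_ok TH_l4238 _)))
                   (CovZ.n1 (-47700, 45072) (by decide +kernel)
                    (CovZ.n2 (-47682, 45054) (by decide +kernel)
                     (CovZ.leaf K2_ok TH_l4239 _)
                     (CovZ.leaf K2_ok TH_l4240 _))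
                    (CovZ.n1 (-47718, 45054) (by decide +kernel)
                     (CovZ.leaf K2_ok TH_l4241 _)
                     (CovZ.leaf K2_ok TH_l4242 _))))
                  (CovZ.n1 (-47772, 45036) (by decide +kernel)
                   (CovZ.n2 (-47772, 45072) (by decide +kernel)
                    (CovZ.n2 (-47754, 45054) (by decide +kernel)
                     (CovZ.leaf K2_ok TH_l4243 _)
                     (CovZ.leaf K2_ok TH_l4244 _))
                    (CovZ.n1 (-47790, 45054) (by decide +kernel)
                     (CovZ.leaf K2_ok TH_l4245 _)
                     (CovZ.leaf K2_ok TH_l4246 _)))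
                   (CovZ.n1 (-47736, 45036) (by decide +kernel)
                    (CovZ.n2 (-47754, 45018) (by decide +kernel)
                     (CovZ.leaf K2_ok TH_l4247 _)
                     (CovZ.leaf K2_ok TH_l4248 _))
                    (CovZ.n1 (-47754, 45054) (by decide +kernel)
                     (CovZ.leaf K2_ok TH_l4249 _)
                     (CovZ.n1 (-47754, 45036) (by decide +kernel)
                      (CovZ.leaf K2_ok TH_l4250 _)
                      (CovZ.leaf K2_ok TH_l4251 _)))))))))
              (CovZ.n1 (-47664, 45216) (by decide +kernel)
               (CovZ.n2 (-47592, 45144) (by decide +kernel)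
                (CovZ.n2 (-47664, 45144) (by decide +kernel)
                 (CovZ.n2 (-47628, 45180) (by decide +kernel)
                  (CovZ.n2 (-47628, 45144) (by decide +kernel)
                   (CovZ.leaf K2_ok TH_l4252 _)
                   (CovZ.n1 (-47610, 45162) (by decide +kernel)
                    (CovZ.leaf K2_ok TH_l4253 _)
                    (CovZ.leaf K2_ok TH_l4254 _)))
                  (CovZ.leaf K2_ok TH_l4255 _))
                 (CovZ.n1 (-47628, 45108) (by decide +kernel)
                  (CovZ.n2 (-47664, 45108) (by decide +kernel)
                   (CovZ.n2 (-47646, 45126) (by decide +kernel)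
                    (CovZ.leaf K2_ok TH_l4256 _)
                    (CovZ.leaf K2_ok TH_l4257 _))
                   (CovZ.n1 (-47646, 45090) (by decide +kernel)
                    (CovZ.leaf K2_ok TH_l4258 _)
                    (CovZ.leaf K2_ok TH_l4259 _)))
                  (CovZ.n1 (-47628, 45144) (by decide +kernel)
                   (CovZ.leaf K2_ok TH_l4260 _)
                   (CovZ.leaf K2_ok TH_l4261 _))))
                (CovZ.n1 (-47592, 45216) (by decide +kernel)
                 (CovZ.n2 (-47556, 45180) (by decide +kernel)
                  (CovZ.n2 (-47592, 45180) (by decide +kernel)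
                   (CovZ.leaf K2_ok TH_l4262 _)
                   (CovZ.leaf K2_ok TH_l4263 _))
                  (CovZ.n1 (-47556, 45216) (by decide +kernel)
                   (CovZ.leaf K2_ok TH_l4264 _)
                   (CovZ.leaf K2_ok TH_l4265 _)))
                 (CovZ.n1 (-47628, 45180) (by decide +kernel)
                  (CovZ.n2 (-47628, 45216) (by decide +kernel)
                   (CovZ.leaf K2_ok TH_l4266 _)
                   (CovZ.leaf K2_ok TH_l4267 _))
                  (CovZ.n1 (-47592, 45180) (by decide +kernel)
                   (CovZ.n2 (-47610, 45162) (by decide +kernel)
                    (CovZ.leaf K2_ok TH_l4268 _)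
                    (CovZ.leaf K2_ok TH_l4269 _))
                   (CovZ.leaf K2_ok TH_l4270 _)))))
               (CovZ.n1 (-47736, 45144) (by decide +kernel)
                (CovZ.n2 (-47736, 45216) (by decide +kernel)
                 (CovZ.n2 (-47700, 45180) (by decide +kernel)
                  (CovZ.leaf K2_ok TH_l4271 _)
                  (CovZ.n1 (-47700, 45216) (by decide +kernel)
                   (CovZ.leaf K2_ok TH_l4272 _)
                   (CovZ.leaf K2_ok TH_l4273 _)))
                 (CovZ.n1 (-47772, 45180) (by decide +kernel)
                  (CovZ.n2 (-47772, 45216) (by decide +kernel)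
                   (CovZ.leaf K2_ok TH_l4274 _)
                   (CovZ.leaf K2_ok TH_l4275 _))
                  (CovZ.n1 (-47736, 45180) (by decide +kernel)
                   (CovZ.leaf K2_ok TH_l4276 _)
                   (CovZ.leaf K2_ok TH_l4277 _))))
                (CovZ.n1 (-47664, 45144) (by decide +kernel)
                 (CovZ.n2 (-47700, 45108) (by decide +kernel)
                  (CovZ.n2 (-47700, 45144) (by decide +kernel)
                   (CovZ.n2 (-47682, 45126) (by decide +kernel)
                    (CovZ.leaf K2_ok TH_l4278 _)
                    (CovZ.leaf K2_ok TH_l4279 _))
                   (CovZ.n1 (-47718, 45126) (by decide +kernel)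
                    (CovZ.leaf K2_ok TH_l4280 _)
                    (CovZ.leaf K2_ok TH_l4281 _)))
                  (CovZ.n1 (-47664, 45108) (by decide +kernel)
                   (CovZ.n2 (-47682, 45090) (by decide +kernel)
                    (CovZ.leaf K2_ok TH_l4282 _)
                    (CovZ.leaf K2_ok TH_l4283 _))
                   (CovZ.leaf K2_ok TH_l4284 _)))
                 (CovZ.n1 (-47700, 45180) (by decide +kernel)
                  (CovZ.n2 (-47664, 45180) (by decide +kernel)
                   (CovZ.leaf K2_ok TH_l4285 _)
                   (CovZ.leaf K2_ok TH_l4286 _))
                  (CovZ.n1 (-47700, 45144) (by decide +kernel)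
                   (CovZ.leaf K2_ok TH_l4287 _)
                   (CovZ.leaf K2_ok TH_l4288 _)))))))

theorem TH_u61 : CovZ TH_M (toL (selN TH_LN 3211307308593602029703905773621947617675051008)) [0, 7, 6, 1] (-48384, 44928) (-47808, 44928) (-47808, 45504) :=
    (CovZ.n2 (-48096, 45216) (by decide +kernel)
            (CovZ.n2 (-47808, 45216) (by decide +kernel)
             (CovZ.n2 (-47952, 45072) (by decide +kernel)
              (CovZ.n2 (-47952, 45216) (by decide +kernel)
               (CovZ.n2 (-47880, 45144) (by decide +kernel)
                (CovZ.n2 (-47952, 45144) (by decide +kernel)
                 (CovZ.n2 (-47916, 45180) (by decide +kernel)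
                  (CovZ.n2 (-47916, 45144) (by decide +kernel)
                   (CovZ.leaf K2_ok TH_l3675 _)
                   (CovZ.leaf K2_ok TH_l3676 _))
                  (CovZ.leaf K2_ok TH_l3677 _))
                 (CovZ.n1 (-47916, 45108) (by decide +kernel)
                  (CovZ.n2 (-47952, 45108) (by decide +kernel)
                   (CovZ.leaf K2_ok TH_l3678 _)
                   (CovZ.n1 (-47934, 45090) (by decide +kernel)
                    (CovZ.leaf K2_ok TH_l3679 _)
                    (CovZ.leaf K2_ok TH_l3680 _)))
                  (CovZ.n1 (-47916, 45144) (by decide +kernel)
                   (CovZ.leaf K2_ok TH_l3681 _)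
                   (CovZ.leaf K2_ok TH_l3682 _))))
                (CovZ.n1 (-47880, 45216) (by decide +kernel)
                 (CovZ.n2 (-47844, 45180) (by decide +kernel)
                  (CovZ.leaf K2_ok TH_l3683 _)
                  (CovZ.n1 (-47844, 45216) (by decide +kernel)
                   (CovZ.leaf K2_ok TH_l3684 _)
                   (CovZ.leaf K2_ok TH_l3685 _)))
                 (CovZ.n1 (-47916, 45180) (by decide +kernel)
                  (CovZ.n2 (-47916, 45216) (by decide +kernel)
                   (CovZ.leaf K2_ok TH_l3686 _)
                   (CovZ.leaf K2_ok TH_l3687 _))
                  (CovZ.leaf K2_ok TH_l3688 _))))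
               (CovZ.n1 (-48024, 45144) (by decide +kernel)
                (CovZ.n2 (-48024, 45216) (by decide +kernel)
                 (CovZ.n2 (-47988, 45180) (by decide +kernel)
                  (CovZ.leaf K2_ok TH_l3689 _)
                  (CovZ.leaf K2_ok TH_l3690 _))
                 (CovZ.n1 (-48060, 45180) (by decide +kernel)
                  (CovZ.n2 (-48060, 45216) (by decide +kernel)
                   (CovZ.leaf K2_ok TH_l3691 _)
                   (CovZ.leaf K2_ok TH_l3692 _))
                  (CovZ.leaf K2_ok TH_l3693 _)))
                (CovZ.n1 (-47952, 45144) (by decide +kernel)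
                 (CovZ.n2 (-47988, 45108) (by decide +kernel)
                  (CovZ.n2 (-47988, 45144) (by decide +kernel)
                   (CovZ.leaf K2_ok TH_l3694 _)
                   (CovZ.leaf K2_ok TH_l3695 _))
                  (CovZ.n1 (-47952, 45108) (by decide +kernel)
                   (CovZ.leaf K2_ok TH_l3696 _)
                   (CovZ.n1 (-47970, 45126) (by decide +kernel)
                    (CovZ.leaf K2_ok TH_l3697 _)
                    (CovZ.leaf K2_ok TH_l3698 _))))
                 (CovZ.n1 (-47988, 45180) (by decide +kernel)
                  (CovZ.leaf K2_ok TH_l3699 _)
                  (CovZ.n1 (-47988, 45144) (by decide +kernel)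
                   (CovZ.leaf K2_ok TH_l3700 _)
                   (CovZ.leaf K2_ok TH_l3701 _))))))
              (CovZ.n1 (-47808, 45072) (by decide +kernel)
               (CovZ.subM 3211307308593602029394420763800567087552790528 (by decide +kernel)
                (CovZ.n2 (-47880, 45000) (by decide +kernel)
                 (CovZ.n2 (-47880, 45072) (by decide +kernel)
                  (CovZ.n2 (-47844, 45036) (by decide +kernel)
                   (CovZ.n2 (-47880, 45036) (by decide +kernel)
                    (CovZ.n2 (-47862, 45054) (by decide +kernel)
                     (CovZ.leaf K2_ok TH_l3702 _)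
                     (CovZ.leaf K2_ok TH_l3703 _))
                    (CovZ.n1 (-47862, 45018) (by decide +kernel)
                     (CovZ.leaf K2_ok TH_l3704 _)
                     (CovZ.leaf K2_ok TH_l3705 _)))
                   (CovZ.n1 (-47844, 45072) (by decide +kernel)
                    (CovZ.n2 (-47826, 45054) (by decide +kernel)
                     (CovZ.leaf K2_ok TH_l3706 _)
                     (CovZ.leaf K2_ok TH_l3707 _))
                    (CovZ.leaf K2_ok TH_l3708 _)))
                  (CovZ.n1 (-47916, 45036) (by decide +kernel)
                   (CovZ.n2 (-47916, 45072) (by decide +kernel)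
                    (CovZ.n2 (-47898, 45054) (by decide +kernel)
                     (CovZ.leaf K2_ok TH_l3709 _)
                     (CovZ.leaf K2_ok TH_l3710 _))
                    (CovZ.n1 (-47934, 45054) (by decide +kernel)
                     (CovZ.leaf K2_ok TH_l3711 _)
                     (CovZ.leaf K2_ok TH_l3712 _)))
                   (CovZ.n1 (-47880, 45036) (by decide +kernel)
                    (CovZ.n2 (-47898, 45018) (by decide +kernel)
                     (CovZ.leaf K2_ok TH_l3713 _)
                     (CovZ.leaf K2_ok TH_l3714 _))
                    (CovZ.n1 (-47898, 45054) (by decide +kernel)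
                     (CovZ.leaf K2_ok TH_l3715 _)
                     (CovZ.leaf K2_ok TH_l3716 _)))))
                 (CovZ.n1 (-47808, 45000) (by decide +kernel)
                  (CovZ.n2 (-47844, 44964) (by decide +kernel)
                   (CovZ.n2 (-47844, 45000) (by decide +kernel)
                    (CovZ.n2 (-47826, 44982) (by decide +kernel)
                     (CovZ.n2 (-47844, 44982) (by decide +kernel)
                      (CovZ.leaf K2_ok TH_l3717 _)
                      (CovZ.leaf K2_ok TH_l3718 _))
                     (CovZ.leaf K2_ok TH_l3719 _))
                    (CovZ.n1 (-47862, 44982) (by decide +kernel)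
                     (CovZ.n2 (-47862, 45000) (by decide +kernel)
                      (CovZ.leaf K2_ok TH_l3720 _)
                      (CovZ.leaf K2_ok TH_l3721 _))
                     (CovZ.n1 (-47844, 44982) (by decide +kernel)
                      (CovZ.leaf K2_ok TH_l3722 _)
                      (CovZ.leaf K2_ok TH_l3723 _))))
                   (CovZ.n1 (-47808, 44964) (by decide +kernel)
                    (CovZ.badM (by decide +kernel))
                    (CovZ.n1 (-47826, 44982) (by decide +kernel)
                     (CovZ.n2 (-47808, 44982) (by decide +kernel)
                      (CovZ.leaf K2_ok TH_l3724 _)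
                      (CovZ.leaf K2_ok TH_l3725 _))
                     (CovZ.n1 (-47826, 44964) (by decide +kernel)
                      (CovZ.leaf K2_ok TH_l3726 _)
                      (CovZ.leaf K2_ok TH_l3727 _)))))
                  (CovZ.n1 (-47844, 45036) (by decide +kernel)
                   (CovZ.n2 (-47808, 45036) (by decide +kernel)
                    (CovZ.n2 (-47826, 45018) (by decide +kernel)
                     (CovZ.leaf K2_ok TH_l3728 _)
                     (CovZ.leaf K2_ok TH_l3729 _))
                    (CovZ.n1 (-47826, 45054) (by decide +kernel)
                     (CovZ.leaf K2_ok TH_l3730 _)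
                     (CovZ.leaf K2_ok TH_l3731 _)))
                   (CovZ.n1 (-47844, 45000) (by decide +kernel)
                    (CovZ.n2 (-47862, 45018) (by decide +kernel)
                     (CovZ.n2 (-47844, 45018) (by decide +kernel)
                      (CovZ.leaf K2_ok TH_l3732 _)
                      (CovZ.leaf K2_ok TH_l3733 _))
                     (CovZ.n1 (-47862, 45000) (by decide +kernel)
                      (CovZ.leaf K2_ok TH_l3734 _)
                      (CovZ.leaf K2_ok TH_l3735 _)))
                    (CovZ.n1 (-47826, 45018) (by decide +kernel)
                     (CovZ.n2 (-47826, 45000) (by decide +kernel)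
                      (CovZ.leaf K2_ok TH_l3736 _)
                      (CovZ.leaf K2_ok TH_l3737 _))
                     (CovZ.leaf K2_ok TH_l3738 _)))))))
               (CovZ.n1 (-47880, 45144) (by decide +kernel)
                (CovZ.n2 (-47808, 45144) (by decide +kernel)
                 (CovZ.n2 (-47844, 45108) (by decide +kernel)
                  (CovZ.n2 (-47844, 45144) (by decide +kernel)
                   (CovZ.leaf K2_ok TH_l3739 _)
                   (CovZ.leaf K2_ok TH_l3740 _))
                  (CovZ.n1 (-47808, 45108) (by decide +kernel)
                   (CovZ.n2 (-47826, 45090) (by decide +kernel)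
                    (CovZ.leaf K2_ok TH_l3741 _)
                    (CovZ.leaf K2_ok TH_l3742 _))
                   (CovZ.n1 (-47826, 45126) (by decide +kernel)
                    (CovZ.leaf K2_ok TH_l3743 _)
                    (CovZ.leaf K2_ok TH_l3744 _))))
                 (CovZ.n1 (-47844, 45180) (by decide +kernel)
                  (CovZ.leaf K2_ok TH_l3745 _)
                  (CovZ.n1 (-47844, 45144) (by decide +kernel)
                   (CovZ.leaf K2_ok TH_l3746 _)
                   (CovZ.leaf K2_ok TH_l3747 _))))
                (CovZ.n1 (-47880, 45072) (by decide +kernel)
                 (CovZ.n2 (-47916, 45108) (by decide +kernel)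
                  (CovZ.n2 (-47880, 45108) (by decide +kernel)
                   (CovZ.n2 (-47898, 45090) (by decide +kernel)
                    (CovZ.leaf K2_ok TH_l3748 _)
                    (CovZ.leaf K2_ok TH_l3749 _))
                   (CovZ.leaf K2_ok TH_l3750 _))
                  (CovZ.subM 3211307308593602029394420763800567087552790528 (by decide +kernel)
                   (CovZ.n1 (-47916, 45072) (by decide +kernel)
                    (CovZ.n2 (-47934, 45090) (by decide +kernel)
                     (CovZ.leaf K2_ok TH_l3751 _)
                     (CovZ.leaf K2_ok TH_l3752 _))
                    (CovZ.n1 (-47898, 45090) (by decide +kernel)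
                     (CovZ.leaf K2_ok TH_l3753 _)
                     (CovZ.leaf K2_ok TH_l3754 _)))))
                 (CovZ.n1 (-47844, 45108) (by decide +kernel)
                  (CovZ.subM 3211307308593602029394420763800567087552790528 (by decide +kernel)
                   (CovZ.n2 (-47844, 45072) (by decide +kernel)
                    (CovZ.n2 (-47862, 45090) (by decide +kernel)
                     (CovZ.leaf K2_ok TH_l3755 _)
                     (CovZ.leaf K2_ok TH_l3756 _))
                    (CovZ.n1 (-47826, 45090) (by decide +kernel)
                     (CovZ.leaf K2_ok TH_l3757 _)
                     (CovZ.leaf K2_ok TH_l3758 _))))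
                  (CovZ.n1 (-47880, 45108) (by decide +kernel)
                   (CovZ.leaf K2_ok TH_l3759 _)
                   (CovZ.n1 (-47862, 45090) (by decide +kernel)
                    (CovZ.leaf K2_ok TH_l3760 _)
                    (CovZ.leaf K2_ok TH_l3761 _))))))))
             (CovZ.n1 (-47952, 45360) (by decide +kernel)
              (CovZ.n2 (-47808, 45360) (by decide +kernel)
               (CovZ.n2 (-47880, 45288) (by decide +kernel)
                (CovZ.n2 (-47880, 45360) (by decide +kernel)
                 (CovZ.leaf K2_ok TH_l3762 _)
                 (CovZ.leaf K2_ok TH_l3763 _))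
                (CovZ.n1 (-47808, 45288) (by decide +kernel)
                 (CovZ.n2 (-47844, 45252) (by decide +kernel)
                  (CovZ.leaf K2_ok TH_l3764 _)
                  (CovZ.leaf K2_ok TH_l3765 _))
                 (CovZ.leaf K2_ok TH_l3766 _)))
               (CovZ.n1 (-47880, 45432) (by decide +kernel)
                (CovZ.n2 (-47808, 45432) (by decide +kernel)
                 (CovZ.leaf K2_ok TH_l3767 _)
                 (CovZ.n1 (-47844, 45468) (by decide +kernel)
                  (CovZ.leaf K2_ok TH_l3768 _)
                  (CovZ.leaf K2_ok TH_l3769 _)))
                (CovZ.n1 (-47880, 45360) (by decide +kernel)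
                 (CovZ.leaf K2_ok TH_l3770 _)
                 (CovZ.leaf K2_ok TH_l3771 _))))
              (CovZ.n1 (-47952, 45216) (by decide +kernel)
               (CovZ.n2 (-48024, 45288) (by decide +kernel)
                (CovZ.n2 (-47952, 45288) (by decide +kernel)
                 (CovZ.n2 (-47988, 45252) (by decide +kernel)
                  (CovZ.leaf K2_ok TH_l3772 _)
                  (CovZ.leaf K2_ok TH_l3773 _))
                 (CovZ.leaf K2_ok TH_l3774 _))
                (CovZ.n1 (-48024, 45216) (by decide +kernel)
                 (CovZ.n2 (-48060, 45252) (by decide +kernel)
                  (CovZ.leaf K2_ok TH_l3775 _)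
                  (CovZ.leaf K2_ok TH_l3776 _))
                 (CovZ.n1 (-47988, 45252) (by decide +kernel)
                  (CovZ.leaf K2_ok TH_l3777 _)
                  (CovZ.leaf K2_ok TH_l3778 _))))
               (CovZ.n1 (-47880, 45288) (by decide +kernel)
                (CovZ.n2 (-47880, 45216) (by decide +kernel)
                 (CovZ.n2 (-47916, 45252) (by decide +kernel)
                  (CovZ.leaf K2_ok TH_l3779 _)
                  (CovZ.n1 (-47916, 45216) (by decide +kernel)
                   (CovZ.leaf K2_ok TH_l3780 _)
                   (CovZ.leaf K2_ok TH_l3781 _)))
                 (CovZ.n1 (-47844, 45252) (by decide +kernel)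
                  (CovZ.n2 (-47844, 45216) (by decide +kernel)
                   (CovZ.leaf K2_ok TH_l3782 _)
                   (CovZ.leaf K2_ok TH_l3783 _))
                  (CovZ.leaf K2_ok TH_l3784 _)))
                (CovZ.n1 (-47952, 45288) (by decide +kernel)
                 (CovZ.leaf K2_ok TH_l3785 _)
                 (CovZ.n1 (-47916, 45252) (by decide +kernel)
                  (CovZ.leaf K2_ok TH_l3786 _)
                  (CovZ.leaf K2_ok TH_l3787 _)))))))
            (CovZ.n1 (-48096, 44928) (by decide +kernel)
             TH_u55
             TH_u56))

theorem TH_u62 : CovZ TH_M (toL (selN TH_LN 3211307308593602029703905773621947617675051008)) [0, 7, 6, 1] (-47808, 44928) (-47232, 44928) (-47808, 45504) :=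
    (CovZ.n1 (-47520, 45216) (by decide +kernel)
            (CovZ.n2 (-47520, 44928) (by decide +kernel)
             (CovZ.n2 (-47664, 45072) (by decide +kernel)
              TH_u57
              TH_u58)
             (CovZ.n1 (-47376, 45072) (by decide +kernel)
              (CovZ.badM (by decide +kernel))
              (CovZ.n1 (-47520, 45072) (by decide +kernel)
               (CovZ.n2 (-47448, 45144) (by decide +kernel)
                (CovZ.subM 3211307308593602029239678258889894555337883648 (by decide +kernel)
                 (CovZ.n2 (-47448, 45072) (by decide +kernel)
                  (CovZ.n2 (-47484, 45108) (by decide +kernel)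
                   (CovZ.n2 (-47448, 45108) (by decide +kernel)
                    (CovZ.n2 (-47466, 45090) (by decide +kernel)
                     (CovZ.leaf K2_ok TH_l4090 _)
                     (CovZ.leaf K2_ok TH_l4091 _))
                    (CovZ.n1 (-47466, 45126) (by decide +kernel)
                     (CovZ.leaf K2_ok TH_l4092 _)
                     (CovZ.leaf K2_ok TH_l4093 _)))
                   (CovZ.n1 (-47484, 45072) (by decide +kernel)
                    (CovZ.n2 (-47502, 45090) (by decide +kernel)
                     (CovZ.leaf K2_ok TH_l4094 _)
                     (CovZ.leaf K2_ok TH_l4095 _))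
                    (CovZ.n1 (-47466, 45090) (by decide +kernel)
                     (CovZ.n2 (-47466, 45072) (by decide +kernel)
                      (CovZ.leaf K2_ok TH_l4096 _)
                      (CovZ.leaf K2_ok TH_l4097 _))
                     (CovZ.leaf K2_ok TH_l4098 _))))
                  (CovZ.n1 (-47412, 45108) (by decide +kernel)
                   (CovZ.n2 (-47412, 45072) (by decide +kernel)
                    (CovZ.n2 (-47430, 45090) (by decide +kernel)
                     (CovZ.n2 (-47412, 45090) (by decide +kernel)
                      (CovZ.leaf K2_ok TH_l4099 _)
                      (CovZ.leaf K2_ok TH_l4100 _))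
                     (CovZ.n1 (-47430, 45072) (by decide +kernel)
                      (CovZ.leaf K2_ok TH_l4101 _)
                      (CovZ.n1 (-47421, 45081) (by decide +kernel)
                       (CovZ.leaf K2_ok TH_l4102 _)
                       (CovZ.leaf K2_ok TH_l4103 _))))
                    (CovZ.n1 (-47394, 45090) (by decide +kernel)
                     (CovZ.n2 (-47394, 45072) (by decide +kernel)
                      (CovZ.leaf K2_ok TH_l4104 _)
                      (CovZ.leaf K2_ok TH_l4105 _))
                     (CovZ.leaf K2_ok TH_l4106 _)))
                   (CovZ.n1 (-47448, 45108) (by decide +kernel)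
                    (CovZ.n2 (-47430, 45126) (by decide +kernel)
                     (CovZ.leaf K2_ok TH_l4107 _)
                     (CovZ.leaf K2_ok TH_l4108 _))
                    (CovZ.n1 (-47430, 45090) (by decide +kernel)
                     (CovZ.leaf K2_ok TH_l4109 _)
                     (CovZ.leaf K2_ok TH_l4110 _))))))
                (CovZ.n1 (-47520, 45144) (by decide +kernel)
                 (CovZ.n2 (-47484, 45180) (by decide +kernel)
                  (CovZ.n2 (-47484, 45144) (by decide +kernel)
                   (CovZ.n2 (-47502, 45162) (by decide +kernel)
                    (CovZ.leaf K2_ok TH_l4111 _)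
                    (CovZ.leaf K2_ok TH_l4112 _))
                   (CovZ.leaf K2_ok TH_l4113 _))
                  (CovZ.leaf K2_ok TH_l4114 _))
                 (CovZ.subM 3211307308593602029239678258889894555337883648 (by decide +kernel)
                  (CovZ.n1 (-47484, 45108) (by decide +kernel)
                   (CovZ.n2 (-47520, 45108) (by decide +kernel)
                    (CovZ.n2 (-47502, 45126) (by decide +kernel)
                     (CovZ.leaf K2_ok TH_l4115 _)
                     (CovZ.leaf K2_ok TH_l4116 _))
                    (CovZ.n1 (-47502, 45090) (by decide +kernel)
                     (CovZ.leaf K2_ok TH_l4117 _)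
                     (CovZ.leaf K2_ok TH_l4118 _)))
                   (CovZ.n1 (-47484, 45144) (by decide +kernel)
                    (CovZ.n2 (-47466, 45126) (by decide +kernel)
                     (CovZ.leaf K2_ok TH_l4119 _)
                     (CovZ.leaf K2_ok TH_l4120 _))
                    (CovZ.n1 (-47502, 45126) (by decide +kernel)
                     (CovZ.leaf K2_ok TH_l4121 _)
                     (CovZ.leaf K2_ok TH_l4122 _)))))))
               (CovZ.subM 2854495385417112058975106766527520771242196992 (by decide +kernel)
                (CovZ.n1 (-47448, 45000) (by decide +kernel)
                 (CovZ.n2 (-47520, 45000) (by decide +kernel)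
                  (CovZ.n2 (-47484, 45036) (by decide +kernel)
                   (CovZ.badM (by decide +kernel))
                   (CovZ.n1 (-47520, 45036) (by decide +kernel)
                    (CovZ.n2 (-47502, 45054) (by decide +kernel)
                     (CovZ.n2 (-47502, 45036) (by decide +kernel)
                      (CovZ.leaf K2_ok TH_l4123 _)
                      (CovZ.leaf K2_ok TH_l4124 _))
                     (CovZ.leaf K2_ok TH_l4125 _))
                    (CovZ.n1 (-47502, 45018) (by decide +kernel)
                     (CovZ.n2 (-47520, 45018) (by decide +kernel)
                      (CovZ.leaf K2_ok TH_l4126 _)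
                      (CovZ.badM (by decide +kernel)))
                     (CovZ.leaf K2_ok TH_l4127 _))))
                  (CovZ.badM (by decide +kernel)))
                 (CovZ.n1 (-47448, 45072) (by decide +kernel)
                  (CovZ.n2 (-47412, 45036) (by decide +kernel)
                   (CovZ.n2 (-47448, 45036) (by decide +kernel)
                    (CovZ.n2 (-47430, 45054) (by decide +kernel)
                     (CovZ.n2 (-47430, 45036) (by decide +kernel)
                      (CovZ.n2 (-47439, 45045) (by decide +kernel)
                       (CovZ.leaf K2_ok TH_l4128 _)
                       (CovZ.leaf K2_ok TH_l4129 _))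
                      (CovZ.leaf K2_ok TH_l4130 _))
                     (CovZ.leaf K2_ok TH_l4131 _))
                    (CovZ.n1 (-47430, 45018) (by decide +kernel)
                     (CovZ.n2 (-47448, 45018) (by decide +kernel)
                      (CovZ.leaf K2_ok TH_l4132 _)
                      (CovZ.badM (by decide +kernel)))
                     (CovZ.n1 (-47430, 45036) (by decide +kernel)
                      (CovZ.leaf K2_ok TH_l4133 _)
                      (CovZ.leaf K2_ok TH_l4134 _))))
                   (CovZ.n1 (-47412, 45072) (by decide +kernel)
                    (CovZ.n2 (-47394, 45054) (by decide +kernel)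
                     (CovZ.leaf K2_ok TH_l4135 _)
                     (CovZ.n1 (-47394, 45072) (by decide +kernel)
                      (CovZ.leaf K2_ok TH_l4136 _)
                      (CovZ.leaf K2_ok TH_l4137 _)))
                    (CovZ.n1 (-47430, 45054) (by decide +kernel)
                     (CovZ.n2 (-47430, 45072) (by decide +kernel)
                      (CovZ.leaf K2_ok TH_l4138 _)
                      (CovZ.leaf K2_ok TH_l4139 _))
                     (CovZ.leaf K2_ok TH_l4140 _))))
                  (CovZ.n1 (-47484, 45036) (by decide +kernel)
                   (CovZ.n2 (-47484, 45072) (by decide +kernel)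
                    (CovZ.n2 (-47466, 45054) (by decide +kernel)
                     (CovZ.leaf K2_ok TH_l4141 _)
                     (CovZ.n1 (-47466, 45072) (by decide +kernel)
                      (CovZ.leaf K2_ok TH_l4142 _)
                      (CovZ.leaf K2_ok TH_l4143 _)))
                    (CovZ.n1 (-47502, 45054) (by decide +kernel)
                     (CovZ.n2 (-47502, 45072) (by decide +kernel)
                      (CovZ.leaf K2_ok TH_l4144 _)
                      (CovZ.leaf K2_ok TH_l4145 _))
                     (CovZ.leaf K2_ok TH_l4146 _)))
                   (CovZ.n1 (-47448, 45036) (by decide +kernel)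
                    (CovZ.n2 (-47466, 45018) (by decide +kernel)
                     (CovZ.leaf K2_ok TH_l4147 _)
                     (CovZ.n1 (-47448, 45018) (by decide +kernel)
                      (CovZ.badM (by decide +kernel))
                      (CovZ.n1 (-47457, 45027) (by decide +kernel)
                       (CovZ.leaf K2_ok TH_l4148 _)
                       (CovZ.badM (by decide +kernel)))))
                    (CovZ.n1 (-47466, 45054) (by decide +kernel)
                     (CovZ.n2 (-47448, 45054) (by decide +kernel)
                      (CovZ.leaf K2_ok TH_l4149 _)
                      (CovZ.n1 (-47457, 45063) (by decide +kernel)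
                       (CovZ.leaf K2_ok TH_l4150 _)
                       (CovZ.leaf K2_ok TH_l4151 _)))
                     (CovZ.n1 (-47466, 45036) (by decide +kernel)
                      (CovZ.leaf K2_ok TH_l4152 _)
                      (CovZ.leaf K2_ok TH_l4153 _)))))))))))
            (CovZ.n1 (-47808, 45216) (by decide +kernel)
             TH_u59
             TH_u60))

theorem TH_u63 : CovZ TH_M (toL (selN TH_LN 3211307308593602029703905773621947617675051008)) [0, 7, 6, 1] (-48384, 46080) (-48384, 45504) (-47808, 45504) :=
    (CovZ.n2 (-48096, 45792) (by decide +kernel)
            (CovZ.n2 (-48096, 45504) (by decide +kernel)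
             (CovZ.n2 (-48240, 45648) (by decide +kernel)
              (CovZ.n2 (-48096, 45648) (by decide +kernel)
               (CovZ.n2 (-48168, 45576) (by decide +kernel)
                (CovZ.leaf K2_ok TH_l4289 _)
                (CovZ.leaf K2_ok TH_l4290 _))
               (CovZ.n1 (-48168, 45720) (by decide +kernel)
                (CovZ.leaf K2_ok TH_l4291 _)
                (CovZ.leaf K2_ok TH_l4292 _)))
              (CovZ.n1 (-48240, 45504) (by decide +kernel)
               (CovZ.n2 (-48312, 45576) (by decide +kernel)
                (CovZ.leaf K2_ok TH_l4293 _)
                (CovZ.leaf K2_ok TH_l4294 _))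
               (CovZ.n1 (-48168, 45576) (by decide +kernel)
                (CovZ.n2 (-48168, 45504) (by decide +kernel)
                 (CovZ.leaf K2_ok TH_l4295 _)
                 (CovZ.leaf K2_ok TH_l4296 _))
                (CovZ.leaf K2_ok TH_l4297 _))))
             (CovZ.n1 (-47952, 45648) (by decide +kernel)
              (CovZ.n2 (-47952, 45504) (by decide +kernel)
               (CovZ.n2 (-48024, 45576) (by decide +kernel)
                (CovZ.leaf K2_ok TH_l4298 _)
                (CovZ.leaf K2_ok TH_l4299 _))
               (CovZ.n1 (-47880, 45576) (by decide +kernel)
                (CovZ.n2 (-47880, 45504) (by decide +kernel)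
                 (CovZ.leaf K2_ok TH_l4300 _)
                 (CovZ.leaf K2_ok TH_l4301 _))
                (CovZ.leaf K2_ok TH_l4302 _)))
              (CovZ.n1 (-48096, 45648) (by decide +kernel)
               (CovZ.n2 (-48024, 45720) (by decide +kernel)
                (CovZ.leaf K2_ok TH_l4303 _)
                (CovZ.leaf K2_ok TH_l4304 _))
               (CovZ.n1 (-48024, 45576) (by decide +kernel)
                (CovZ.leaf K2_ok TH_l4305 _)
                (CovZ.leaf K2_ok TH_l4306 _)))))
            (CovZ.n1 (-48384, 45792) (by decide +kernel)
             (CovZ.n2 (-48240, 45936) (by decide +kernel)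
              (CovZ.n2 (-48240, 45792) (by decide +kernel)
               (CovZ.leaf K2_ok TH_l4307 _)
               (CovZ.leaf K2_ok TH_l4308 _))
              (CovZ.n1 (-48384, 45936) (by decide +kernel)
               (CovZ.leaf K2_ok TH_l4309 _)
               (CovZ.leaf K2_ok TH_l4310 _)))
             (CovZ.n1 (-48240, 45648) (by decide +kernel)
              (CovZ.n2 (-48384, 45648) (by decide +kernel)
               (CovZ.n2 (-48312, 45720) (by decide +kernel)
                (CovZ.leaf K2_ok TH_l4311 _)
                (CovZ.leaf K2_ok TH_l4312 _))
               (CovZ.n1 (-48312, 45576) (by decide +kernel)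
                (CovZ.leaf K2_ok TH_l4313 _)
                (CovZ.leaf K2_ok TH_l4314 _)))
              (CovZ.n1 (-48240, 45792) (by decide +kernel)
               (CovZ.n2 (-48168, 45720) (by decide +kernel)
                (CovZ.leaf K2_ok TH_l4315 _)
                (CovZ.leaf K2_ok TH_l4316 _))
               (CovZ.leaf K2_ok TH_l4317 _)))))

theorem TH_u64 : CovZ TH_M (toL (selN TH_LN 3211307308593602029703905773621947617675051008)) [0, 7, 6, 1] (-48384, 45504) (-48384, 44928) (-47808, 45504) :=
    (CovZ.n1 (-48096, 45216) (by decide +kernel)
            (CovZ.n2 (-48384, 45216) (by decide +kernel)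
             (CovZ.n2 (-48240, 45360) (by decide +kernel)
              (CovZ.n2 (-48240, 45216) (by decide +kernel)
               (CovZ.n2 (-48312, 45288) (by decide +kernel)
                (CovZ.n2 (-48240, 45288) (by decide +kernel)
                 (CovZ.leaf K2_ok TH_l4318 _)
                 (CovZ.leaf K2_ok TH_l4319 _))
                (CovZ.n1 (-48312, 45216) (by decide +kernel)
                 (CovZ.leaf K2_ok TH_l4320 _)
                 (CovZ.leaf K2_ok TH_l4321 _)))
               (CovZ.n1 (-48168, 45288) (by decide +kernel)
                (CovZ.n2 (-48168, 45216) (by decide +kernel)
                 (CovZ.leaf K2_ok TH_l4322 _)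
                 (CovZ.n1 (-48132, 45252) (by decide +kernel)
                  (CovZ.leaf K2_ok TH_l4323 _)
                  (CovZ.leaf K2_ok TH_l4324 _)))
                (CovZ.n1 (-48240, 45288) (by decide +kernel)
                 (CovZ.leaf K2_ok TH_l4325 _)
                 (CovZ.n1 (-48204, 45252) (by decide +kernel)
                  (CovZ.leaf K2_ok TH_l4326 _)
                  (CovZ.leaf K2_ok TH_l4327 _)))))
              (CovZ.n1 (-48384, 45360) (by decide +kernel)
               (CovZ.n2 (-48312, 45432) (by decide +kernel)
                (CovZ.n2 (-48312, 45360) (by decide +kernel)
                 (CovZ.leaf K2_ok TH_l4328 _)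
                 (CovZ.leaf K2_ok TH_l4329 _))
                (CovZ.leaf K2_ok TH_l4330 _))
               (CovZ.n1 (-48312, 45288) (by decide +kernel)
                (CovZ.n2 (-48384, 45288) (by decide +kernel)
                 (CovZ.leaf K2_ok TH_l4331 _)
                 (CovZ.leaf K2_ok TH_l4332 _))
                (CovZ.n1 (-48312, 45360) (by decide +kernel)
                 (CovZ.leaf K2_ok TH_l4333 _)
                 (CovZ.leaf K2_ok TH_l4334 _)))))
             (CovZ.n1 (-48240, 45072) (by decide +kernel)
              (CovZ.n2 (-48384, 45072) (by decide +kernel)
               (CovZ.n2 (-48312, 45144) (by decide +kernel)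
                (CovZ.n2 (-48312, 45072) (by decide +kernel)
                 (CovZ.n2 (-48348, 45108) (by decide +kernel)
                  (CovZ.leaf K2_ok TH_l4335 _)
                  (CovZ.n1 (-48348, 45072) (by decide +kernel)
                   (CovZ.leaf K2_ok TH_l4336 _)
                   (CovZ.leaf K2_ok TH_l4337 _)))
                 (CovZ.n1 (-48276, 45108) (by decide +kernel)
                  (CovZ.n2 (-48276, 45072) (by decide +kernel)
                   (CovZ.leaf K2_ok TH_l4338 _)
                   (CovZ.leaf K2_ok TH_l4339 _))
                  (CovZ.leaf K2_ok TH_l4340 _)))
                (CovZ.n1 (-48384, 45144) (by decide +kernel)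
                 (CovZ.n2 (-48348, 45180) (by decide +kernel)
                  (CovZ.n2 (-48348, 45144) (by decide +kernel)
                   (CovZ.leaf K2_ok TH_l4341 _)
                   (CovZ.leaf K2_ok TH_l4342 _))
                  (CovZ.leaf K2_ok TH_l4343 _))
                 (CovZ.n1 (-48348, 45108) (by decide +kernel)
                  (CovZ.leaf K2_ok TH_l4344 _)
                  (CovZ.n1 (-48348, 45144) (by decide +kernel)
                   (CovZ.leaf K2_ok TH_l4345 _)
                   (CovZ.leaf K2_ok TH_l4346 _)))))
               (CovZ.subM 3211307308593602029394420763800567087552790528 (by decide +kernel)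
                (CovZ.n1 (-48312, 45000) (by decide +kernel)
                 (CovZ.n2 (-48384, 45000) (by decide +kernel)
                  (CovZ.n2 (-48348, 45036) (by decide +kernel)
                   (CovZ.n2 (-48348, 45000) (by decide +kernel)
                    (CovZ.n2 (-48366, 45018) (by decide +kernel)
                     (CovZ.leaf K2_ok TH_l4347 _)
                     (CovZ.leaf K2_ok TH_l4348 _))
                    (CovZ.leaf K2_ok TH_l4349 _))
                   (CovZ.n1 (-48384, 45036) (by decide +kernel)
                    (CovZ.leaf K2_ok TH_l4350 _)
                    (CovZ.n1 (-48366, 45018) (by decide +kernel)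
                     (CovZ.leaf K2_ok TH_l4351 _)
                     (CovZ.leaf K2_ok TH_l4352 _))))
                  (CovZ.n1 (-48348, 44964) (by decide +kernel)
                   (CovZ.n2 (-48384, 44964) (by decide +kernel)
                    (CovZ.n2 (-48366, 44982) (by decide +kernel)
                     (CovZ.n2 (-48366, 44964) (by decide +kernel)
                      (CovZ.leaf K2_ok TH_l4353 _)
                      (CovZ.leaf K2_ok TH_l4354 _))
                     (CovZ.leaf K2_ok TH_l4355 _))
                    (CovZ.badM (by decide +kernel)))
                   (CovZ.n1 (-48348, 45000) (by decide +kernel)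
                    (CovZ.n2 (-48330, 44982) (by decide +kernel)
                     (CovZ.leaf K2_ok TH_l4356 _)
                     (CovZ.leaf K2_ok TH_l4357 _))
                    (CovZ.n1 (-48366, 44982) (by decide +kernel)
                     (CovZ.leaf K2_ok TH_l4358 _)
                     (CovZ.leaf K2_ok TH_l4359 _)))))
                 (CovZ.n1 (-48312, 45072) (by decide +kernel)
                  (CovZ.n2 (-48276, 45036) (by decide +kernel)
                   (CovZ.n2 (-48312, 45036) (by decide +kernel)
                    (CovZ.leaf K2_ok TH_l4360 _)
                    (CovZ.n1 (-48294, 45018) (by decide +kernel)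
                     (CovZ.leaf K2_ok TH_l4361 _)
                     (CovZ.leaf K2_ok TH_l4362 _)))
                   (CovZ.n1 (-48276, 45072) (by decide +kernel)
                    (CovZ.leaf K2_ok TH_l4363 _)
                    (CovZ.leaf K2_ok TH_l4364 _)))
                  (CovZ.n1 (-48348, 45036) (by decide +kernel)
                   (CovZ.n2 (-48348, 45072) (by decide +kernel)
                    (CovZ.leaf K2_ok TH_l4365 _)
                    (CovZ.leaf K2_ok TH_l4366 _))
                   (CovZ.n1 (-48312, 45036) (by decide +kernel)
                    (CovZ.n2 (-48330, 45018) (by decide +kernel)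
                     (CovZ.leaf K2_ok TH_l4367 _)
                     (CovZ.leaf K2_ok TH_l4368 _))
                    (CovZ.leaf K2_ok TH_l4369 _)))))))
              (CovZ.n1 (-48240, 45216) (by decide +kernel)
               (CovZ.n2 (-48168, 45144) (by decide +kernel)
                (CovZ.n2 (-48240, 45144) (by decide +kernel)
                 (CovZ.n2 (-48204, 45180) (by decide +kernel)
                  (CovZ.n2 (-48204, 45144) (by decide +kernel)
                   (CovZ.leaf K2_ok TH_l4370 _)
                   (CovZ.leaf K2_ok TH_l4371 _))
                  (CovZ.leaf K2_ok TH_l4372 _))
                 (CovZ.n1 (-48204, 45108) (by decide +kernel)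
                  (CovZ.leaf K2_ok TH_l4373 _)
                  (CovZ.n1 (-48204, 45144) (by decide +kernel)
                   (CovZ.leaf K2_ok TH_l4374 _)
                   (CovZ.leaf K2_ok TH_l4375 _))))
                (CovZ.n1 (-48168, 45216) (by decide +kernel)
                 (CovZ.n2 (-48132, 45180) (by decide +kernel)
                  (CovZ.leaf K2_ok TH_l4376 _)
                  (CovZ.leaf K2_ok TH_l4377 _))
                 (CovZ.n1 (-48204, 45180) (by decide +kernel)
                  (CovZ.leaf K2_ok TH_l4378 _)
                  (CovZ.leaf K2_ok TH_l4379 _))))
               (CovZ.n1 (-48312, 45144) (by decide +kernel)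
                (CovZ.n2 (-48312, 45216) (by decide +kernel)
                 (CovZ.n2 (-48276, 45180) (by decide +kernel)
                  (CovZ.leaf K2_ok TH_l4380 _)
                  (CovZ.leaf K2_ok TH_l4381 _))
                 (CovZ.n1 (-48348, 45180) (by decide +kernel)
                  (CovZ.leaf K2_ok TH_l4382 _)
                  (CovZ.leaf K2_ok TH_l4383 _)))
                (CovZ.n1 (-48240, 45144) (by decide +kernel)
                 (CovZ.n2 (-48276, 45108) (by decide +kernel)
                  (CovZ.n2 (-48276, 45144) (by decide +kernel)
                   (CovZ.leaf K2_ok TH_l4384 _)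
                   (CovZ.leaf K2_ok TH_l4385 _))
                  (CovZ.leaf K2_ok TH_l4386 _))
                 (CovZ.n1 (-48276, 45180) (by decide +kernel)
                  (CovZ.leaf K2_ok TH_l4387 _)
                  (CovZ.n1 (-48276, 45144) (by decide +kernel)
                   (CovZ.leaf K2_ok TH_l4388 _)
                   (CovZ.leaf K2_ok TH_l4389 _))))))))
            (CovZ.n1 (-48096, 45504) (by decide +kernel)
             (CovZ.n2 (-47952, 45360) (by decide +kernel)
              (CovZ.n2 (-48096, 45360) (by decide +kernel)
               (CovZ.n2 (-48024, 45432) (by decide +kernel)
                (CovZ.n2 (-48024, 45360) (by decide +kernel)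
                 (CovZ.leaf K2_ok TH_l4390 _)
                 (CovZ.leaf K2_ok TH_l4391 _))
                (CovZ.leaf K2_ok TH_l4392 _))
               (CovZ.n1 (-48024, 45288) (by decide +kernel)
                (CovZ.n2 (-48096, 45288) (by decide +kernel)
                 (CovZ.leaf K2_ok TH_l4393 _)
                 (CovZ.leaf K2_ok TH_l4394 _))
                (CovZ.n1 (-48024, 45360) (by decide +kernel)
                 (CovZ.leaf K2_ok TH_l4395 _)
                 (CovZ.leaf K2_ok TH_l4396 _))))
              (CovZ.n1 (-47952, 45504) (by decide +kernel)
               (CovZ.n2 (-47880, 45432) (by decide +kernel)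
                (CovZ.leaf K2_ok TH_l4397 _)
                (CovZ.n1 (-47880, 45504) (by decide +kernel)
                 (CovZ.leaf K2_ok TH_l4398 _)
                 (CovZ.leaf K2_ok TH_l4399 _)))
               (CovZ.n1 (-48024, 45432) (by decide +kernel)
                (CovZ.n2 (-48024, 45504) (by decide +kernel)
                 (CovZ.leaf K2_ok TH_l4400 _)
                 (CovZ.leaf K2_ok TH_l4401 _))
                (CovZ.leaf K2_ok TH_l4402 _))))
             (CovZ.n1 (-48240, 45360) (by decide +kernel)
              (CovZ.n2 (-48240, 45504) (by decide +kernel)
               (CovZ.n2 (-48168, 45432) (by decide +kernel)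
                (CovZ.leaf K2_ok TH_l4403 _)
                (CovZ.n1 (-48168, 45504) (by decide +kernel)
                 (CovZ.leaf K2_ok TH_l4404 _)
                 (CovZ.leaf K2_ok TH_l4405 _)))
               (CovZ.n1 (-48312, 45432) (by decide +kernel)
                (CovZ.n2 (-48312, 45504) (by decide +kernel)
                 (CovZ.leaf K2_ok TH_l4406 _)
                 (CovZ.leaf K2_ok TH_l4407 _))
                (CovZ.leaf K2_ok TH_l4408 _)))
              (CovZ.n1 (-48096, 45360) (by decide +kernel)
               (CovZ.n2 (-48168, 45288) (by decide +kernel)
                (CovZ.n2 (-48168, 45360) (by decide +kernel)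
                 (CovZ.leaf K2_ok TH_l4409 _)
                 (CovZ.leaf K2_ok TH_l4410 _))
                (CovZ.n1 (-48096, 45288) (by decide +kernel)
                 (CovZ.n2 (-48132, 45252) (by decide +kernel)
                  (CovZ.leaf K2_ok TH_l4411 _)
                  (CovZ.leaf K2_ok TH_l4412 _))
                 (CovZ.leaf K2_ok TH_l4413 _)))
               (CovZ.n1 (-48168, 45432) (by decide +kernel)
                (CovZ.leaf K2_ok TH_l4414 _)
                (CovZ.n1 (-48168, 45360) (by decide +kernel)
                 (CovZ.leaf K2_ok TH_l4415 _)
                 (CovZ.leaf K2_ok TH_l4416 _)))))))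

theorem TH_u65 : CovZ TH_M (toL (selN TH_LN 3211307308593602029703905773621947617675051008)) [0, 7, 6, 1] (-47232, 45504) (-47232, 45216) (-46944, 45216) :=
    (CovZ.n2 (-47088, 45360) (by decide +kernel)
              (CovZ.n2 (-47088, 45216) (by decide +kernel)
               (CovZ.n2 (-47160, 45288) (by decide +kernel)
                (CovZ.n2 (-47088, 45288) (by decide +kernel)
                 (CovZ.n2 (-47124, 45252) (by decide +kernel)
                  (CovZ.n2 (-47124, 45288) (by decide +kernel)
                   (CovZ.leaf K2_ok TH_l4488 _)
                   (CovZ.leaf K2_ok TH_l4489 _))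
                  (CovZ.n1 (-47088, 45252) (by decide +kernel)
                   (CovZ.n2 (-47106, 45234) (by decide +kernel)
                    (CovZ.leaf K2_ok TH_l4490 _)
                    (CovZ.leaf K2_ok TH_l4491 _))
                   (CovZ.leaf K2_ok TH_l4492 _)))
                 (CovZ.n1 (-47124, 45324) (by decide +kernel)
                  (CovZ.n2 (-47088, 45324) (by decide +kernel)
                   (CovZ.leaf K2_ok TH_l4493 _)
                   (CovZ.leaf K2_ok TH_l4494 _))
                  (CovZ.n1 (-47124, 45288) (by decide +kernel)
                   (CovZ.leaf K2_ok TH_l4495 _)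
                   (CovZ.leaf K2_ok TH_l4496 _))))
                (CovZ.n1 (-47160, 45216) (by decide +kernel)
                 (CovZ.n2 (-47196, 45252) (by decide +kernel)
                  (CovZ.n2 (-47160, 45252) (by decide +kernel)
                   (CovZ.n2 (-47178, 45234) (by decide +kernel)
                    (CovZ.leaf K2_ok TH_l4497 _)
                    (CovZ.leaf K2_ok TH_l4498 _))
                   (CovZ.leaf K2_ok TH_l4499 _))
                  (CovZ.n1 (-47196, 45216) (by decide +kernel)
                   (CovZ.leaf K2_ok TH_l4500 _)
                   (CovZ.n1 (-47178, 45234) (by decide +kernel)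
                    (CovZ.leaf K2_ok TH_l4501 _)
                    (CovZ.leaf K2_ok TH_l4502 _))))
                 (CovZ.n1 (-47124, 45252) (by decide +kernel)
                  (CovZ.subM 356811923176489970574056502183719127698374656 (by decide +kernel)
                   (CovZ.n2 (-47124, 45216) (by decide +kernel)
                    (CovZ.n2 (-47142, 45234) (by decide +kernel)
                     (CovZ.leaf K2_ok TH_l4503 _)
                     (CovZ.n1 (-47142, 45216) (by decide +kernel)
                      (CovZ.leaf K2_ok TH_l4504 _)
                      (CovZ.leaf K2_ok TH_l4505 _)))
                    (CovZ.n1 (-47106, 45234) (by decide +kernel)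
                     (CovZ.n2 (-47106, 45216) (by decide +kernel)
                      (CovZ.leaf K2_ok TH_l4506 _)
                      (CovZ.leaf K2_ok TH_l4507 _))
                     (CovZ.leaf K2_ok TH_l4508 _))))
                  (CovZ.n1 (-47160, 45252) (by decide +kernel)
                   (CovZ.leaf K2_ok TH_l4509 _)
                   (CovZ.n1 (-47142, 45234) (by decide +kernel)
                    (CovZ.leaf K2_ok TH_l4510 _)
                    (CovZ.leaf K2_ok TH_l4511 _))))))
               (CovZ.n1 (-47016, 45288) (by decide +kernel)
                (CovZ.subM 309485009821345343602688000 (by decide +kernel)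
                 (CovZ.n2 (-47016, 45216) (by decide +kernel)
                  (CovZ.n2 (-47052, 45252) (by decide +kernel)
                   (CovZ.n2 (-47016, 45252) (by decide +kernel)
                    (CovZ.n2 (-47034, 45234) (by decide +kernel)
                     (CovZ.leaf K2_ok TH_l4512 _)
                     (CovZ.leaf K2_ok TH_l4513 _))
                    (CovZ.leaf K2_ok TH_l4514 _))
                   (CovZ.n1 (-47052, 45216) (by decide +kernel)
                    (CovZ.n2 (-47070, 45234) (by decide +kernel)
                     (CovZ.leaf K2_ok TH_l4515 _)
                     (CovZ.n1 (-47070, 45216) (by decide +kernel)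
                      (CovZ.n2 (-47079, 45225) (by decide +kernel)
                       (CovZ.leaf K2_ok TH_l4516 _)
                       (CovZ.leaf K2_ok TH_l4517 _))
                      (CovZ.leaf K2_ok TH_l4518 _)))
                    (CovZ.n1 (-47034, 45234) (by decide +kernel)
                     (CovZ.n2 (-47034, 45216) (by decide +kernel)
                      (CovZ.leaf K2_ok TH_l4519 _)
                      (CovZ.leaf K2_ok TH_l4520 _))
                     (CovZ.leaf K2_ok TH_l4521 _))))
                  (CovZ.n1 (-46980, 45252) (by decide +kernel)
                   (CovZ.n2 (-46980, 45216) (by decide +kernel)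
                    (CovZ.n2 (-46998, 45234) (by decide +kernel)
                     (CovZ.leaf K2_ok TH_l4522 _)
                     (CovZ.n1 (-46998, 45216) (by decide +kernel)
                      (CovZ.leaf K2_ok TH_l4523 _)
                      (CovZ.leaf K2_ok TH_l4524 _)))
                    (CovZ.n1 (-46962, 45234) (by decide +kernel)
                     (CovZ.badM (by decide +kernel))
                     (CovZ.n1 (-46980, 45234) (by decide +kernel)
                      (CovZ.leaf K2_ok TH_l4525 _)
                      (CovZ.badM (by decide +kernel)))))
                   (CovZ.n1 (-47016, 45252) (by decide +kernel)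
                    (CovZ.n2 (-46998, 45270) (by decide +kernel)
                     (CovZ.n2 (-46998, 45252) (by decide +kernel)
                      (CovZ.n2 (-47007, 45261) (by decide +kernel)
                       (CovZ.leaf K2_ok TH_l4526 _)
                       (CovZ.leaf K2_ok TH_l4527 _))
                      (CovZ.leaf K2_ok TH_l4528 _))
                     (CovZ.leaf K2_ok TH_l4529 _))
                    (CovZ.n1 (-46998, 45234) (by decide +kernel)
                     (CovZ.leaf K2_ok TH_l4530 _)
                     (CovZ.n1 (-46998, 45252) (by decide +kernel)
                      (CovZ.leaf K2_ok TH_l4531 _)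
                      (CovZ.leaf K2_ok TH_l4532 _)))))))
                (CovZ.n1 (-47088, 45288) (by decide +kernel)
                 (CovZ.n2 (-47052, 45324) (by decide +kernel)
                  (CovZ.n2 (-47052, 45288) (by decide +kernel)
                   (CovZ.leaf K2_ok TH_l4533 _)
                   (CovZ.leaf K2_ok TH_l4534 _))
                  (CovZ.leaf K2_ok TH_l4535 _))
                 (CovZ.subM 356811923176489970574056502183719127698374656 (by decide +kernel)
                  (CovZ.n1 (-47052, 45252) (by decide +kernel)
                   (CovZ.n2 (-47088, 45252) (by decide +kernel)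
                    (CovZ.leaf K2_ok TH_l4536 _)
                    (CovZ.n1 (-47070, 45234) (by decide +kernel)
                     (CovZ.leaf K2_ok TH_l4537 _)
                     (CovZ.leaf K2_ok TH_l4538 _)))
                   (CovZ.n1 (-47052, 45288) (by decide +kernel)
                    (CovZ.leaf K2_ok TH_l4539 _)
                    (CovZ.leaf K2_ok TH_l4540 _)))))))
              (CovZ.n1 (-47232, 45360) (by decide +kernel)
               (CovZ.n2 (-47160, 45432) (by decide +kernel)
                (CovZ.n2 (-47160, 45360) (by decide +kernel)
                 (CovZ.n2 (-47196, 45396) (by decide +kernel)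
                  (CovZ.leaf K2_ok TH_l4541 _)
                  (CovZ.leaf K2_ok TH_l4542 _))
                 (CovZ.n1 (-47124, 45396) (by decide +kernel)
                  (CovZ.leaf K2_ok TH_l4543 _)
                  (CovZ.leaf K2_ok TH_l4544 _)))
                (CovZ.n1 (-47232, 45432) (by decide +kernel)
                 (CovZ.n2 (-47196, 45468) (by decide +kernel)
                  (CovZ.n2 (-47196, 45432) (by decide +kernel)
                   (CovZ.leaf K2_ok TH_l4545 _)
                   (CovZ.leaf K2_ok TH_l4546 _))
                  (CovZ.leaf K2_ok TH_l4547 _))
                 (CovZ.n1 (-47196, 45396) (by decide +kernel)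
                  (CovZ.leaf K2_ok TH_l4548 _)
                  (CovZ.leaf K2_ok TH_l4549 _))))
               (CovZ.n1 (-47160, 45288) (by decide +kernel)
                (CovZ.n2 (-47232, 45288) (by decide +kernel)
                 (CovZ.n2 (-47196, 45324) (by decide +kernel)
                  (CovZ.n2 (-47196, 45288) (by decide +kernel)
                   (CovZ.leaf K2_ok TH_l4550 _)
                   (CovZ.leaf K2_ok TH_l4551 _))
                  (CovZ.leaf K2_ok TH_l4552 _))
                 (CovZ.n1 (-47196, 45252) (by decide +kernel)
                  (CovZ.n2 (-47232, 45252) (by decide +kernel)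
                   (CovZ.leaf K2_ok TH_l4553 _)
                   (CovZ.n1 (-47214, 45234) (by decide +kernel)
                    (CovZ.leaf K2_ok TH_l4554 _)
                    (CovZ.leaf K2_ok TH_l4555 _)))
                  (CovZ.n1 (-47196, 45288) (by decide +kernel)
                   (CovZ.leaf K2_ok TH_l4556 _)
                   (CovZ.leaf K2_ok TH_l4557 _))))
                (CovZ.n1 (-47160, 45360) (by decide +kernel)
                 (CovZ.n2 (-47124, 45324) (by decide +kernel)
                  (CovZ.leaf K2_ok TH_l4558 _)
                  (CovZ.n1 (-47124, 45360) (by decide +kernel)
                   (CovZ.leaf K2_ok TH_l4559 _)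
                   (CovZ.leaf K2_ok TH_l4560 _)))
                 (CovZ.n1 (-47196, 45324) (by decide +kernel)
                  (CovZ.n2 (-47196, 45360) (by decide +kernel)
                   (CovZ.leaf K2_ok TH_l4561 _)
                   (CovZ.leaf K2_ok TH_l4562 _))
                  (CovZ.leaf K2_ok TH_l4563 _))))))

theorem TH_u66 : CovZ TH_M (toL (selN TH_LN 3211307308593602029703905773621947617675051008)) [0, 7, 6, 1] (-47232, 45216) (-47232, 44928) (-46944, 45216) :=
    (CovZ.subM 356811923181682267432591329812249624027594752 (by decide +kernel)
              (CovZ.n1 (-47088, 45072) (by decide +kernel)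
               (CovZ.n2 (-47232, 45072) (by decide +kernel)
                (CovZ.n2 (-47160, 45144) (by decide +kernel)
                 (CovZ.badM (by decide +kernel))
                 (CovZ.n1 (-47232, 45144) (by decide +kernel)
                  (CovZ.n2 (-47196, 45180) (by decide +kernel)
                   (CovZ.n2 (-47196, 45144) (by decide +kernel)
                    (CovZ.n2 (-47214, 45162) (by decide +kernel)
                     (CovZ.leaf K2_ok TH_l4564 _)
                     (CovZ.n1 (-47214, 45144) (by decide +kernel)
                      (CovZ.leaf K2_ok TH_l4565 _)
                      (CovZ.leaf K2_ok TH_l4566 _)))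
                    (CovZ.n1 (-47178, 45162) (by decide +kernel)
                     (CovZ.n2 (-47178, 45144) (by decide +kernel)
                      (CovZ.leaf K2_ok TH_l4567 _)
                      (CovZ.leaf K2_ok TH_l4568 _))
                     (CovZ.leaf K2_ok TH_l4569 _)))
                   (CovZ.n1 (-47232, 45180) (by decide +kernel)
                    (CovZ.n2 (-47214, 45198) (by decide +kernel)
                     (CovZ.n2 (-47214, 45180) (by decide +kernel)
                      (CovZ.leaf K2_ok TH_l4570 _)
                      (CovZ.leaf K2_ok TH_l4571 _))
                     (CovZ.leaf K2_ok TH_l4572 _))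
                    (CovZ.n1 (-47214, 45162) (by decide +kernel)
                     (CovZ.leaf K2_ok TH_l4573 _)
                     (CovZ.leaf K2_ok TH_l4574 _))))
                  (CovZ.badM (by decide +kernel))))
                (CovZ.badM (by decide +kernel)))
               (CovZ.n1 (-47088, 45216) (by decide +kernel)
                (CovZ.n2 (-47016, 45144) (by decide +kernel)
                 (CovZ.n2 (-47088, 45144) (by decide +kernel)
                  (CovZ.n2 (-47052, 45180) (by decide +kernel)
                   (CovZ.n2 (-47052, 45144) (by decide +kernel)
                    (CovZ.n2 (-47070, 45162) (by decide +kernel)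
                     (CovZ.n2 (-47052, 45162) (by decide +kernel)
                      (CovZ.leaf K2_ok TH_l4575 _)
                      (CovZ.n1 (-47061, 45171) (by decide +kernel)
                       (CovZ.leaf K2_ok TH_l4576 _)
                       (CovZ.leaf K2_ok TH_l4577 _)))
                     (CovZ.n1 (-47070, 45144) (by decide +kernel)
                      (CovZ.n2 (-47079, 45153) (by decide +kernel)
                       (CovZ.leaf K2_ok TH_l4578 _)
                       (CovZ.badM (by decide +kernel)))
                      (CovZ.leaf K2_ok TH_l4579 _)))
                    (CovZ.n1 (-47034, 45162) (by decide +kernel)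
                     (CovZ.n2 (-47034, 45144) (by decide +kernel)
                      (CovZ.leaf K2_ok TH_l4580 _)
                      (CovZ.leaf K2_ok TH_l4581 _))
                     (CovZ.leaf K2_ok TH_l4582 _)))
                   (CovZ.n1 (-47088, 45180) (by decide +kernel)
                    (CovZ.n2 (-47070, 45198) (by decide +kernel)
                     (CovZ.n2 (-47070, 45180) (by decide +kernel)
                      (CovZ.leaf K2_ok TH_l4583 _)
                      (CovZ.leaf K2_ok TH_l4584 _))
                     (CovZ.n1 (-47088, 45198) (by decide +kernel)
                      (CovZ.leaf K2_ok TH_l4585 _)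
                      (CovZ.leaf K2_ok TH_l4586 _)))
                    (CovZ.n1 (-47070, 45162) (by decide +kernel)
                     (CovZ.n2 (-47088, 45162) (by decide +kernel)
                      (CovZ.leaf K2_ok TH_l4587 _)
                      (CovZ.leaf K2_ok TH_l4588 _))
                     (CovZ.n1 (-47070, 45180) (by decide +kernel)
                      (CovZ.leaf K2_ok TH_l4589 _)
                      (CovZ.leaf K2_ok TH_l4590 _)))))
                  (CovZ.badM (by decide +kernel)))
                 (CovZ.n1 (-47016, 45216) (by decide +kernel)
                  (CovZ.n2 (-46980, 45180) (by decide +kernel)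
                   (CovZ.n2 (-47016, 45180) (by decide +kernel)
                    (CovZ.n2 (-46998, 45198) (by decide +kernel)
                     (CovZ.n2 (-46998, 45180) (by decide +kernel)
                      (CovZ.n2 (-47007, 45189) (by decide +kernel)
                       (CovZ.badM (by decide +kernel))
                       (CovZ.leaf K2_ok TH_l4591 _))
                      (CovZ.badM (by decide +kernel)))
                     (CovZ.n1 (-47016, 45198) (by decide +kernel)
                      (CovZ.leaf K2_ok TH_l4592 _)
                      (CovZ.n1 (-47007, 45189) (by decide +kernel)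
                       (CovZ.leaf K2_ok TH_l4593 _)
                       (CovZ.leaf K2_ok TH_l4594 _))))
                    (CovZ.n1 (-46998, 45162) (by decide +kernel)
                     (CovZ.n2 (-47016, 45162) (by decide +kernel)
                      (CovZ.leaf K2_ok TH_l4595 _)
                      (CovZ.badM (by decide +kernel)))
                     (CovZ.n1 (-46998, 45180) (by decide +kernel)
                      (CovZ.badM (by decide +kernel))
                      (CovZ.leaf K2_ok TH_l4596 _))))
                   (CovZ.n1 (-46980, 45216) (by decide +kernel)
                    (CovZ.badM (by decide +kernel))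
                    (CovZ.n1 (-46998, 45198) (by decide +kernel)
                     (CovZ.n2 (-46998, 45216) (by decide +kernel)
                      (CovZ.n2 (-46989, 45207) (by decide +kernel)
                       (CovZ.leaf K2_ok TH_l4597 _)
                       (CovZ.leaf K2_ok TH_l4598 _))
                      (CovZ.leaf K2_ok TH_l4599 _))
                     (CovZ.badM (by decide +kernel)))))
                  (CovZ.n1 (-47052, 45180) (by decide +kernel)
                   (CovZ.n2 (-47052, 45216) (by decide +kernel)
                    (CovZ.n2 (-47034, 45198) (by decide +kernel)
                     (CovZ.leaf K2_ok TH_l4600 _)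
                     (CovZ.n1 (-47034, 45216) (by decide +kernel)
                      (CovZ.leaf K2_ok TH_l4601 _)
                      (CovZ.leaf K2_ok TH_l4602 _)))
                    (CovZ.n1 (-47070, 45198) (by decide +kernel)
                     (CovZ.n2 (-47070, 45216) (by decide +kernel)
                      (CovZ.leaf K2_ok TH_l4603 _)
                      (CovZ.leaf K2_ok TH_l4604 _))
                     (CovZ.leaf K2_ok TH_l4605 _)))
                   (CovZ.n1 (-47016, 45180) (by decide +kernel)
                    (CovZ.n2 (-47034, 45162) (by decide +kernel)
                     (CovZ.n2 (-47034, 45180) (by decide +kernel)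
                      (CovZ.leaf K2_ok TH_l4606 _)
                      (CovZ.leaf K2_ok TH_l4607 _))
                     (CovZ.n1 (-47016, 45162) (by decide +kernel)
                      (CovZ.leaf K2_ok TH_l4608 _)
                      (CovZ.leaf K2_ok TH_l4609 _)))
                    (CovZ.n1 (-47034, 45198) (by decide +kernel)
                     (CovZ.leaf K2_ok TH_l4610 _)
                     (CovZ.n1 (-47034, 45180) (by decide +kernel)
                      (CovZ.n2 (-47043, 45189) (by decide +kernel)
                       (CovZ.leaf K2_ok TH_l4611 _)
                       (CovZ.n1 (-47043, 45180) (by decide +kernel)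
                        (CovZ.leaf K2_ok TH_l4612 _)
                        (CovZ.leaf K2_ok TH_l4613 _)))
                      (CovZ.leaf K2_ok TH_l4614 _)))))))
                (CovZ.n1 (-47160, 45144) (by decide +kernel)
                 (CovZ.n2 (-47160, 45216) (by decide +kernel)
                  (CovZ.n2 (-47124, 45180) (by decide +kernel)
                   (CovZ.n2 (-47160, 45180) (by decide +kernel)
                    (CovZ.n2 (-47142, 45198) (by decide +kernel)
                     (CovZ.n2 (-47142, 45180) (by decide +kernel)
                      (CovZ.leaf K2_ok TH_l4615 _)
                      (CovZ.leaf K2_ok TH_l4616 _))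
                     (CovZ.leaf K2_ok TH_l4617 _))
                    (CovZ.n1 (-47142, 45162) (by decide +kernel)
                     (CovZ.leaf K2_ok TH_l4618 _)
                     (CovZ.n1 (-47142, 45180) (by decide +kernel)
                      (CovZ.leaf K2_ok TH_l4619 _)
                      (CovZ.leaf K2_ok TH_l4620 _))))
                   (CovZ.n1 (-47124, 45216) (by decide +kernel)
                    (CovZ.n2 (-47106, 45198) (by decide +kernel)
                     (CovZ.leaf K2_ok TH_l4621 _)
                     (CovZ.n1 (-47106, 45216) (by decide +kernel)
                      (CovZ.leaf K2_ok TH_l4622 _)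
                      (CovZ.leaf K2_ok TH_l4623 _)))
                    (CovZ.n1 (-47142, 45198) (by decide +kernel)
                     (CovZ.n2 (-47142, 45216) (by decide +kernel)
                      (CovZ.leaf K2_ok TH_l4624 _)
                      (CovZ.leaf K2_ok TH_l4625 _))
                     (CovZ.leaf K2_ok TH_l4626 _))))
                  (CovZ.n1 (-47196, 45180) (by decide +kernel)
                   (CovZ.n2 (-47196, 45216) (by decide +kernel)
                    (CovZ.n2 (-47178, 45198) (by decide +kernel)
                     (CovZ.leaf K2_ok TH_l4627 _)
                     (CovZ.n1 (-47178, 45216) (by decide +kernel)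
                      (CovZ.leaf K2_ok TH_l4628 _)
                      (CovZ.leaf K2_ok TH_l4629 _)))
                    (CovZ.n1 (-47214, 45198) (by decide +kernel)
                     (CovZ.leaf K2_ok TH_l4630 _)
                     (CovZ.leaf K2_ok TH_l4631 _)))
                   (CovZ.n1 (-47160, 45180) (by decide +kernel)
                    (CovZ.n2 (-47178, 45162) (by decide +kernel)
                     (CovZ.leaf K2_ok TH_l4632 _)
                     (CovZ.leaf K2_ok TH_l4633 _))
                    (CovZ.n1 (-47178, 45198) (by decide +kernel)
                     (CovZ.leaf K2_ok TH_l4634 _)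
                     (CovZ.n1 (-47178, 45180) (by decide +kernel)
                      (CovZ.leaf K2_ok TH_l4635 _)
                      (CovZ.leaf K2_ok TH_l4636 _))))))
                 (CovZ.n1 (-47088, 45144) (by decide +kernel)
                  (CovZ.badM (by decide +kernel))
                  (CovZ.n1 (-47124, 45180) (by decide +kernel)
                   (CovZ.n2 (-47088, 45180) (by decide +kernel)
                    (CovZ.n2 (-47106, 45162) (by decide +kernel)
                     (CovZ.leaf K2_ok TH_l4637 _)
                     (CovZ.n1 (-47088, 45162) (by decide +kernel)
                      (CovZ.leaf K2_ok TH_l4638 _)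
                      (CovZ.leaf K2_ok TH_l4639 _)))
                    (CovZ.n1 (-47106, 45198) (by decide +kernel)
                     (CovZ.leaf K2_ok TH_l4640 _)
                     (CovZ.n1 (-47106, 45180) (by decide +kernel)
                      (CovZ.leaf K2_ok TH_l4641 _)
                      (CovZ.leaf K2_ok TH_l4642 _))))
                   (CovZ.n1 (-47124, 45144) (by decide +kernel)
                    (CovZ.n2 (-47142, 45162) (by decide +kernel)
                     (CovZ.leaf K2_ok TH_l4643 _)
                     (CovZ.n1 (-47142, 45144) (by decide +kernel)
                      (CovZ.n2 (-47151, 45153) (by decide +kernel)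
                       (CovZ.leaf K2_ok TH_l4644 _)
                       (CovZ.badM (by decide +kernel)))
                      (CovZ.leaf K2_ok TH_l4645 _)))
                    (CovZ.n1 (-47106, 45162) (by decide +kernel)
                     (CovZ.n2 (-47106, 45144) (by decide +kernel)
                      (CovZ.n2 (-47115, 45153) (by decide +kernel)
                       (CovZ.leaf K2_ok TH_l4646 _)
                       (CovZ.badM (by decide +kernel)))
                      (CovZ.leaf K2_ok TH_l4647 _))
                     (CovZ.n1 (-47124, 45162) (by decide +kernel)
                      (CovZ.leaf K2_ok TH_l4648 _)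
                      (CovZ.leaf K2_ok TH_l4649 _))))))))))

theorem TH_u67 : CovZ TH_M (toL (selN TH_LN 3211307308593602029703905773621947617675051008)) [0, 7, 6, 1] (-47232, 46080) (-47232, 45504) (-46656, 45504) :=
    (CovZ.n2 (-46944, 45792) (by decide +kernel)
            (CovZ.n2 (-46944, 45504) (by decide +kernel)
             (CovZ.n2 (-47088, 45648) (by decide +kernel)
              (CovZ.n2 (-46944, 45648) (by decide +kernel)
               (CovZ.n2 (-47016, 45576) (by decide +kernel)
                (CovZ.n2 (-47016, 45648) (by decide +kernel)
                 (CovZ.leaf K2_ok TH_l4417 _)
                 (CovZ.leaf K2_ok TH_l4418 _))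
                (CovZ.n1 (-46944, 45576) (by decide +kernel)
                 (CovZ.leaf K2_ok TH_l4419 _)
                 (CovZ.leaf K2_ok TH_l4420 _)))
               (CovZ.n1 (-47016, 45720) (by decide +kernel)
                (CovZ.n2 (-46944, 45720) (by decide +kernel)
                 (CovZ.leaf K2_ok TH_l4421 _)
                 (CovZ.leaf K2_ok TH_l4422 _))
                (CovZ.n1 (-47016, 45648) (by decide +kernel)
                 (CovZ.leaf K2_ok TH_l4423 _)
                 (CovZ.leaf K2_ok TH_l4424 _))))
              (CovZ.n1 (-47088, 45504) (by decide +kernel)
               (CovZ.n2 (-47160, 45576) (by decide +kernel)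
                (CovZ.n2 (-47088, 45576) (by decide +kernel)
                 (CovZ.leaf K2_ok TH_l4425 _)
                 (CovZ.leaf K2_ok TH_l4426 _))
                (CovZ.n1 (-47160, 45504) (by decide +kernel)
                 (CovZ.leaf K2_ok TH_l4427 _)
                 (CovZ.leaf K2_ok TH_l4428 _)))
               (CovZ.n1 (-47016, 45576) (by decide +kernel)
                (CovZ.n2 (-47016, 45504) (by decide +kernel)
                 (CovZ.n2 (-47052, 45540) (by decide +kernel)
                  (CovZ.leaf K2_ok TH_l4429 _)
                  (CovZ.leaf K2_ok TH_l4430 _))
                 (CovZ.n1 (-46980, 45540) (by decide +kernel)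
                  (CovZ.leaf K2_ok TH_l4431 _)
                  (CovZ.leaf K2_ok TH_l4432 _)))
                (CovZ.n1 (-47088, 45576) (by decide +kernel)
                 (CovZ.leaf K2_ok TH_l4433 _)
                 (CovZ.n1 (-47052, 45540) (by decide +kernel)
                  (CovZ.leaf K2_ok TH_l4434 _)
                  (CovZ.leaf K2_ok TH_l4435 _))))))
             (CovZ.n1 (-46800, 45648) (by decide +kernel)
              (CovZ.n2 (-46800, 45504) (by decide +kernel)
               (CovZ.n2 (-46872, 45576) (by decide +kernel)
                (CovZ.n2 (-46800, 45576) (by decide +kernel)
                 (CovZ.n2 (-46836, 45540) (by decide +kernel)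
                  (CovZ.leaf K2_ok TH_l4436 _)
                  (CovZ.leaf K2_ok TH_l4437 _))
                 (CovZ.n1 (-46836, 45612) (by decide +kernel)
                  (CovZ.leaf K2_ok TH_l4438 _)
                  (CovZ.leaf K2_ok TH_l4439 _)))
                (CovZ.n1 (-46872, 45504) (by decide +kernel)
                 (CovZ.n2 (-46908, 45540) (by decide +kernel)
                  (CovZ.leaf K2_ok TH_l4440 _)
                  (CovZ.leaf K2_ok TH_l4441 _))
                 (CovZ.n1 (-46836, 45540) (by decide +kernel)
                  (CovZ.leaf K2_ok TH_l4442 _)
                  (CovZ.leaf K2_ok TH_l4443 _))))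
               (CovZ.n1 (-46728, 45576) (by decide +kernel)
                (CovZ.subM 356811923181682267432591329812284533521776640 (by decide +kernel)
                 (CovZ.n2 (-46728, 45504) (by decide +kernel)
                  (CovZ.n2 (-46764, 45540) (by decide +kernel)
                   (CovZ.leaf K2_ok TH_l4444 _)
                   (CovZ.leaf K2_ok TH_l4445 _))
                  (CovZ.n1 (-46692, 45540) (by decide +kernel)
                   (CovZ.leaf K2_ok TH_l4446 _)
                   (CovZ.leaf K2_ok TH_l4447 _))))
                (CovZ.n1 (-46800, 45576) (by decide +kernel)
                 (CovZ.n2 (-46764, 45612) (by decide +kernel)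
                  (CovZ.leaf K2_ok TH_l4448 _)
                  (CovZ.leaf K2_ok TH_l4449 _))
                 (CovZ.n1 (-46764, 45540) (by decide +kernel)
                  (CovZ.leaf K2_ok TH_l4450 _)
                  (CovZ.leaf K2_ok TH_l4451 _)))))
              (CovZ.n1 (-46944, 45648) (by decide +kernel)
               (CovZ.n2 (-46872, 45720) (by decide +kernel)
                (CovZ.n2 (-46872, 45648) (by decide +kernel)
                 (CovZ.leaf K2_ok TH_l4452 _)
                 (CovZ.leaf K2_ok TH_l4453 _))
                (CovZ.n1 (-46944, 45720) (by decide +kernel)
                 (CovZ.leaf K2_ok TH_l4454 _)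
                 (CovZ.leaf K2_ok TH_l4455 _)))
               (CovZ.n1 (-46872, 45576) (by decide +kernel)
                (CovZ.n2 (-46944, 45576) (by decide +kernel)
                 (CovZ.leaf K2_ok TH_l4456 _)
                 (CovZ.n1 (-46908, 45540) (by decide +kernel)
                  (CovZ.leaf K2_ok TH_l4457 _)
                  (CovZ.leaf K2_ok TH_l4458 _)))
                (CovZ.n1 (-46872, 45648) (by decide +kernel)
                 (CovZ.leaf K2_ok TH_l4459 _)
                 (CovZ.leaf K2_ok TH_l4460 _))))))
            (CovZ.n1 (-47232, 45792) (by decide +kernel)
             (CovZ.n2 (-47088, 45936) (by decide +kernel)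
              (CovZ.n2 (-47088, 45792) (by decide +kernel)
               (CovZ.n2 (-47160, 45864) (by decide +kernel)
                (CovZ.leaf K2_ok TH_l4461 _)
                (CovZ.n1 (-47160, 45792) (by decide +kernel)
                 (CovZ.leaf K2_ok TH_l4462 _)
                 (CovZ.leaf K2_ok TH_l4463 _)))
               (CovZ.n1 (-47016, 45864) (by decide +kernel)
                (CovZ.n2 (-47016, 45792) (by decide +kernel)
                 (CovZ.leaf K2_ok TH_l4464 _)
                 (CovZ.leaf K2_ok TH_l4465 _))
                (CovZ.leaf K2_ok TH_l4466 _)))
              (CovZ.n1 (-47232, 45936) (by decide +kernel)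
               (CovZ.n2 (-47160, 46008) (by decide +kernel)
                (CovZ.leaf K2_ok TH_l4467 _)
                (CovZ.leaf K2_ok TH_l4468 _))
               (CovZ.n1 (-47160, 45864) (by decide +kernel)
                (CovZ.leaf K2_ok TH_l4469 _)
                (CovZ.n1 (-47160, 45936) (by decide +kernel)
                 (CovZ.leaf K2_ok TH_l4470 _)
                 (CovZ.leaf K2_ok TH_l4471 _)))))
             (CovZ.n1 (-47088, 45648) (by decide +kernel)
              (CovZ.n2 (-47232, 45648) (by decide +kernel)
               (CovZ.n2 (-47160, 45720) (by decide +kernel)
                (CovZ.n2 (-47160, 45648) (by decide +kernel)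
                 (CovZ.leaf K2_ok TH_l4472 _)
                 (CovZ.leaf K2_ok TH_l4473 _))
                (CovZ.n1 (-47232, 45720) (by decide +kernel)
                 (CovZ.leaf K2_ok TH_l4474 _)
                 (CovZ.leaf K2_ok TH_l4475 _)))
               (CovZ.n1 (-47160, 45576) (by decide +kernel)
                (CovZ.n2 (-47232, 45576) (by decide +kernel)
                 (CovZ.leaf K2_ok TH_l4476 _)
                 (CovZ.leaf K2_ok TH_l4477 _))
                (CovZ.n1 (-47160, 45648) (by decide +kernel)
                 (CovZ.leaf K2_ok TH_l4478 _)
                 (CovZ.leaf K2_ok TH_l4479 _))))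
              (CovZ.n1 (-47088, 45792) (by decide +kernel)
               (CovZ.n2 (-47016, 45720) (by decide +kernel)
                (CovZ.n2 (-47088, 45720) (by decide +kernel)
                 (CovZ.leaf K2_ok TH_l4480 _)
                 (CovZ.leaf K2_ok TH_l4481 _))
                (CovZ.n1 (-47016, 45792) (by decide +kernel)
                 (CovZ.leaf K2_ok TH_l4482 _)
                 (CovZ.leaf K2_ok TH_l4483 _)))
               (CovZ.n1 (-47160, 45720) (by decide +kernel)
                (CovZ.n2 (-47160, 45792) (by decide +kernel)
                 (CovZ.leaf K2_ok TH_l4484 _)
                 (CovZ.leaf K2_ok TH_l4485 _))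
                (CovZ.n1 (-47088, 45720) (by decide +kernel)
                 (CovZ.leaf K2_ok TH_l4486 _)
                 (CovZ.leaf K2_ok TH_l4487 _)))))))

theorem TH_u68 : CovZ TH_M (toL (selN TH_LN 3211307308593602029703905773621947617675051008)) [0, 7, 6, 1] (-47232, 45504) (-47232, 44928) (-46656, 45504) :=
    (CovZ.n1 (-46944, 45216) (by decide +kernel)
            (CovZ.n2 (-47232, 45216) (by decide +kernel)
             TH_u65
             TH_u66)
            (CovZ.n1 (-46944, 45504) (by decide +kernel)
             (CovZ.n2 (-46800, 45360) (by decide +kernel)
              (CovZ.n2 (-46944, 45360) (by decide +kernel)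
               (CovZ.n2 (-46872, 45432) (by decide +kernel)
                (CovZ.subM 356811923176489970574056502183754312070463488 (by decide +kernel)
                 (CovZ.n2 (-46872, 45360) (by decide +kernel)
                  (CovZ.n2 (-46908, 45396) (by decide +kernel)
                   (CovZ.leaf K2_ok TH_l4650 _)
                   (CovZ.n1 (-46908, 45360) (by decide +kernel)
                    (CovZ.leaf K2_ok TH_l4651 _)
                    (CovZ.leaf K2_ok TH_l4652 _)))
                  (CovZ.n1 (-46836, 45396) (by decide +kernel)
                   (CovZ.n2 (-46836, 45360) (by decide +kernel)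
                    (CovZ.leaf K2_ok TH_l4653 _)
                    (CovZ.leaf K2_ok TH_l4654 _))
                   (CovZ.leaf K2_ok TH_l4655 _))))
                (CovZ.n1 (-46944, 45432) (by decide +kernel)
                 (CovZ.n2 (-46908, 45468) (by decide +kernel)
                  (CovZ.n2 (-46908, 45432) (by decide +kernel)
                   (CovZ.leaf K2_ok TH_l4656 _)
                   (CovZ.leaf K2_ok TH_l4657 _))
                  (CovZ.leaf K2_ok TH_l4658 _))
                 (CovZ.n1 (-46908, 45396) (by decide +kernel)
                  (CovZ.leaf K2_ok TH_l4659 _)
                  (CovZ.n1 (-46908, 45432) (by decide +kernel)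
                   (CovZ.leaf K2_ok TH_l4660 _)
                   (CovZ.leaf K2_ok TH_l4661 _)))))
               (CovZ.subM 356811923176489970574056502183719127698374656 (by decide +kernel)
                (CovZ.n1 (-46872, 45288) (by decide +kernel)
                 (CovZ.n2 (-46944, 45288) (by decide +kernel)
                  (CovZ.n2 (-46908, 45324) (by decide +kernel)
                   (CovZ.n2 (-46908, 45288) (by decide +kernel)
                    (CovZ.n2 (-46926, 45306) (by decide +kernel)
                     (CovZ.leaf K2_ok TH_l4662 _)
                     (CovZ.badM (by decide +kernel)))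
                    (CovZ.n1 (-46890, 45306) (by decide +kernel)
                     (CovZ.badM (by decide +kernel))
                     (CovZ.leaf K2_ok TH_l4663 _)))
                   (CovZ.n1 (-46944, 45324) (by decide +kernel)
                    (CovZ.leaf K2_ok TH_l4664 _)
                    (CovZ.n1 (-46926, 45306) (by decide +kernel)
                     (CovZ.leaf K2_ok TH_l4665 _)
                     (CovZ.leaf K2_ok TH_l4666 _))))
                  (CovZ.badM (by decide +kernel)))
                 (CovZ.n1 (-46872, 45360) (by decide +kernel)
                  (CovZ.n2 (-46836, 45324) (by decide +kernel)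
                   (CovZ.n2 (-46872, 45324) (by decide +kernel)
                    (CovZ.n2 (-46854, 45342) (by decide +kernel)
                     (CovZ.badM (by decide +kernel))
                     (CovZ.leaf K2_ok TH_l4667 _))
                    (CovZ.badM (by decide +kernel)))
                   (CovZ.n1 (-46836, 45360) (by decide +kernel)
                    (CovZ.badM (by decide +kernel))
                    (CovZ.n1 (-46854, 45342) (by decide +kernel)
                     (CovZ.leaf K2_ok TH_l4668 _)
                     (CovZ.badM (by decide +kernel)))))
                  (CovZ.n1 (-46908, 45324) (by decide +kernel)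
                   (CovZ.n2 (-46908, 45360) (by decide +kernel)
                    (CovZ.leaf K2_ok TH_l4669 _)
                    (CovZ.n1 (-46926, 45342) (by decide +kernel)
                     (CovZ.leaf K2_ok TH_l4670 _)
                     (CovZ.leaf K2_ok TH_l4671 _)))
                   (CovZ.n1 (-46872, 45324) (by decide +kernel)
                    (CovZ.n2 (-46890, 45306) (by decide +kernel)
                     (CovZ.leaf K2_ok TH_l4672 _)
                     (CovZ.badM (by decide +kernel)))
                    (CovZ.n1 (-46890, 45342) (by decide +kernel)
                     (CovZ.leaf K2_ok TH_l4673 _)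
                     (CovZ.leaf K2_ok TH_l4674 _))))))))
              (CovZ.n1 (-46800, 45504) (by decide +kernel)
               (CovZ.subM 356811923176489970574056502183754037192556544 (by decide +kernel)
                (CovZ.n2 (-46728, 45432) (by decide +kernel)
                 (CovZ.n2 (-46800, 45432) (by decide +kernel)
                  (CovZ.n2 (-46764, 45468) (by decide +kernel)
                   (CovZ.n2 (-46764, 45432) (by decide +kernel)
                    (CovZ.leaf K2_ok TH_l4675 _)
                    (CovZ.leaf K2_ok TH_l4676 _))
                   (CovZ.leaf K2_ok TH_l4677 _))
                  (CovZ.n1 (-46764, 45396) (by decide +kernel)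
                   (CovZ.leaf K2_ok TH_l4678 _)
                   (CovZ.n1 (-46764, 45432) (by decide +kernel)
                    (CovZ.badM (by decide +kernel))
                    (CovZ.leaf K2_ok TH_l4679 _))))
                 (CovZ.n1 (-46728, 45504) (by decide +kernel)
                  (CovZ.n2 (-46692, 45468) (by decide +kernel)
                   (CovZ.leaf K2_ok TH_l4680 _)
                   (CovZ.n1 (-46692, 45504) (by decide +kernel)
                    (CovZ.leaf K2_ok TH_l4681 _)
                    (CovZ.leaf K2_ok TH_l4682 _)))
                  (CovZ.n1 (-46764, 45468) (by decide +kernel)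
                   (CovZ.leaf K2_ok TH_l4683 _)
                   (CovZ.leaf K2_ok TH_l4684 _)))))
               (CovZ.n1 (-46872, 45432) (by decide +kernel)
                (CovZ.n2 (-46872, 45504) (by decide +kernel)
                 (CovZ.n2 (-46836, 45468) (by decide +kernel)
                  (CovZ.leaf K2_ok TH_l4685 _)
                  (CovZ.leaf K2_ok TH_l4686 _))
                 (CovZ.n1 (-46908, 45468) (by decide +kernel)
                  (CovZ.leaf K2_ok TH_l4687 _)
                  (CovZ.leaf K2_ok TH_l4688 _)))
                (CovZ.subM 356811923176489970574056502183754037192556544 (by decide +kernel)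
                 (CovZ.n1 (-46800, 45432) (by decide +kernel)
                  (CovZ.n2 (-46836, 45396) (by decide +kernel)
                   (CovZ.n2 (-46836, 45432) (by decide +kernel)
                    (CovZ.leaf K2_ok TH_l4689 _)
                    (CovZ.leaf K2_ok TH_l4690 _))
                   (CovZ.n1 (-46800, 45396) (by decide +kernel)
                    (CovZ.n2 (-46818, 45378) (by decide +kernel)
                     (CovZ.leaf K2_ok TH_l4691 _)
                     (CovZ.badM (by decide +kernel)))
                    (CovZ.leaf K2_ok TH_l4692 _)))
                  (CovZ.n1 (-46836, 45468) (by decide +kernel)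
                   (CovZ.leaf K2_ok TH_l4693 _)
                   (CovZ.n1 (-46836, 45432) (by decide +kernel)
                    (CovZ.leaf K2_ok TH_l4694 _)
                    (CovZ.leaf K2_ok TH_l4695 _))))))))
             (CovZ.n1 (-47088, 45360) (by decide +kernel)
              (CovZ.n2 (-47088, 45504) (by decide +kernel)
               (CovZ.n2 (-47016, 45432) (by decide +kernel)
                (CovZ.n2 (-47088, 45432) (by decide +kernel)
                 (CovZ.n2 (-47052, 45468) (by decide +kernel)
                  (CovZ.leaf K2_ok TH_l4696 _)
                  (CovZ.leaf K2_ok TH_l4697 _))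
                 (CovZ.n1 (-47052, 45396) (by decide +kernel)
                  (CovZ.leaf K2_ok TH_l4698 _)
                  (CovZ.n1 (-47052, 45432) (by decide +kernel)
                   (CovZ.leaf K2_ok TH_l4699 _)
                   (CovZ.leaf K2_ok TH_l4700 _))))
                (CovZ.n1 (-47016, 45504) (by decide +kernel)
                 (CovZ.n2 (-46980, 45468) (by decide +kernel)
                  (CovZ.leaf K2_ok TH_l4701 _)
                  (CovZ.leaf K2_ok TH_l4702 _))
                 (CovZ.n1 (-47052, 45468) (by decide +kernel)
                  (CovZ.leaf K2_ok TH_l4703 _)
                  (CovZ.leaf K2_ok TH_l4704 _))))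
               (CovZ.n1 (-47160, 45432) (by decide +kernel)
                (CovZ.n2 (-47160, 45504) (by decide +kernel)
                 (CovZ.n2 (-47124, 45468) (by decide +kernel)
                  (CovZ.leaf K2_ok TH_l4705 _)
                  (CovZ.leaf K2_ok TH_l4706 _))
                 (CovZ.n1 (-47196, 45468) (by decide +kernel)
                  (CovZ.leaf K2_ok TH_l4707 _)
                  (CovZ.leaf K2_ok TH_l4708 _)))
                (CovZ.n1 (-47088, 45432) (by decide +kernel)
                 (CovZ.n2 (-47124, 45396) (by decide +kernel)
                  (CovZ.leaf K2_ok TH_l4709 _)
                  (CovZ.leaf K2_ok TH_l4710 _))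
                 (CovZ.n1 (-47124, 45468) (by decide +kernel)
                  (CovZ.leaf K2_ok TH_l4711 _)
                  (CovZ.leaf K2_ok TH_l4712 _)))))
              (CovZ.n1 (-46944, 45360) (by decide +kernel)
               (CovZ.n2 (-47016, 45288) (by decide +kernel)
                (CovZ.n2 (-47016, 45360) (by decide +kernel)
                 (CovZ.subM 356811923176489970574056502183754312070463488 (by decide +kernel)
                  (CovZ.n2 (-46980, 45324) (by decide +kernel)
                   (CovZ.n2 (-47016, 45324) (by decide +kernel)
                    (CovZ.n2 (-46998, 45342) (by decide +kernel)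
                     (CovZ.leaf K2_ok TH_l4713 _)
                     (CovZ.leaf K2_ok TH_l4714 _))
                    (CovZ.leaf K2_ok TH_l4715 _))
                   (CovZ.n1 (-46980, 45360) (by decide +kernel)
                    (CovZ.leaf K2_ok TH_l4716 _)
                    (CovZ.leaf K2_ok TH_l4717 _))))
                 (CovZ.n1 (-47052, 45324) (by decide +kernel)
                  (CovZ.n2 (-47052, 45360) (by decide +kernel)
                   (CovZ.leaf K2_ok TH_l4718 _)
                   (CovZ.leaf K2_ok TH_l4719 _))
                  (CovZ.leaf K2_ok TH_l4720 _)))
                (CovZ.subM 356811923176489970574056502183719127698374656 (by decide +kernel)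
                 (CovZ.n1 (-46944, 45288) (by decide +kernel)
                  (CovZ.n2 (-46980, 45252) (by decide +kernel)
                   (CovZ.n2 (-46980, 45288) (by decide +kernel)
                    (CovZ.n2 (-46962, 45270) (by decide +kernel)
                     (CovZ.leaf K2_ok TH_l4721 _)
                     (CovZ.leaf K2_ok TH_l4722 _))
                    (CovZ.n1 (-46998, 45270) (by decide +kernel)
                     (CovZ.leaf K2_ok TH_l4723 _)
                     (CovZ.leaf K2_ok TH_l4724 _)))
                   (CovZ.n1 (-46944, 45252) (by decide +kernel)
                    (CovZ.n2 (-46962, 45234) (by decide +kernel)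
                     (CovZ.leaf K2_ok TH_l4725 _)
                     (CovZ.badM (by decide +kernel)))
                    (CovZ.n1 (-46962, 45270) (by decide +kernel)
                     (CovZ.badM (by decide +kernel))
                     (CovZ.leaf K2_ok TH_l4726 _))))
                  (CovZ.n1 (-46980, 45324) (by decide +kernel)
                   (CovZ.n2 (-46944, 45324) (by decide +kernel)
                    (CovZ.leaf K2_ok TH_l4727 _)
                    (CovZ.leaf K2_ok TH_l4728 _))
                   (CovZ.n1 (-46980, 45288) (by decide +kernel)
                    (CovZ.leaf K2_ok TH_l4729 _)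
                    (CovZ.leaf K2_ok TH_l4730 _))))))
               (CovZ.n1 (-47016, 45432) (by decide +kernel)
                (CovZ.n2 (-46944, 45432) (by decide +kernel)
                 (CovZ.n2 (-46980, 45396) (by decide +kernel)
                  (CovZ.n2 (-46980, 45432) (by decide +kernel)
                   (CovZ.leaf K2_ok TH_l4731 _)
                   (CovZ.leaf K2_ok TH_l4732 _))
                  (CovZ.leaf K2_ok TH_l4733 _))
                 (CovZ.n1 (-46980, 45468) (by decide +kernel)
                  (CovZ.leaf K2_ok TH_l4734 _)
                  (CovZ.n1 (-46980, 45432) (by decide +kernel)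
                   (CovZ.leaf K2_ok TH_l4735 _)
                   (CovZ.leaf K2_ok TH_l4736 _))))
                (CovZ.n1 (-47016, 45360) (by decide +kernel)
                 (CovZ.n2 (-47052, 45396) (by decide +kernel)
                  (CovZ.leaf K2_ok TH_l4737 _)
                  (CovZ.n1 (-47052, 45360) (by decide +kernel)
                   (CovZ.leaf K2_ok TH_l4738 _)
                   (CovZ.leaf K2_ok TH_l4739 _)))
                 (CovZ.n1 (-46980, 45396) (by decide +kernel)
                  (CovZ.n2 (-46980, 45360) (by decide +kernel)
                   (CovZ.leaf K2_ok TH_l4740 _)
                   (CovZ.leaf K2_ok TH_l4741 _))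
                  (CovZ.leaf K2_ok TH_l4742 _))))))))

theorem TH_u69 : CovZ TH_M (toL (selN TH_LN 3211307308593602029703905773621947617675051008)) [0, 7, 6, 1] (-46080, 46080) (-46656, 46080) (-46656, 45504) :=
    (CovZ.n2 (-46368, 45792) (by decide +kernel)
            (CovZ.n2 (-46656, 45792) (by decide +kernel)
             (CovZ.n2 (-46512, 45936) (by decide +kernel)
              (CovZ.n2 (-46512, 45792) (by decide +kernel)
               (CovZ.n2 (-46584, 45864) (by decide +kernel)
                (CovZ.n2 (-46512, 45864) (by decide +kernel)
                 (CovZ.n2 (-46548, 45828) (by decide +kernel)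
                  (CovZ.leaf K2_ok TH_l4743 _)
                  (CovZ.leaf K2_ok TH_l4744 _))
                 (CovZ.leaf K2_ok TH_l4745 _))
                (CovZ.n1 (-46584, 45792) (by decide +kernel)
                 (CovZ.leaf K2_ok TH_l4746 _)
                 (CovZ.leaf K2_ok TH_l4747 _)))
               (CovZ.n1 (-46440, 45864) (by decide +kernel)
                (CovZ.n2 (-46440, 45792) (by decide +kernel)
                 (CovZ.n2 (-46476, 45828) (by decide +kernel)
                  (CovZ.leaf K2_ok TH_l4748 _)
                  (CovZ.leaf K2_ok TH_l4749 _))
                 (CovZ.leaf K2_ok TH_l4750 _))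
                (CovZ.n1 (-46512, 45864) (by decide +kernel)
                 (CovZ.leaf K2_ok TH_l4751 _)
                 (CovZ.n1 (-46476, 45828) (by decide +kernel)
                  (CovZ.leaf K2_ok TH_l4752 _)
                  (CovZ.leaf K2_ok TH_l4753 _)))))
              (CovZ.n1 (-46656, 45936) (by decide +kernel)
               (CovZ.n2 (-46584, 46008) (by decide +kernel)
                (CovZ.n2 (-46584, 45936) (by decide +kernel)
                 (CovZ.leaf K2_ok TH_l4754 _)
                 (CovZ.leaf K2_ok TH_l4755 _))
                (CovZ.leaf K2_ok TH_l4756 _))
               (CovZ.n1 (-46584, 45864) (by decide +kernel)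
                (CovZ.n2 (-46656, 45864) (by decide +kernel)
                 (CovZ.leaf K2_ok TH_l4757 _)
                 (CovZ.leaf K2_ok TH_l4758 _))
                (CovZ.n1 (-46584, 45936) (by decide +kernel)
                 (CovZ.leaf K2_ok TH_l4759 _)
                 (CovZ.leaf K2_ok TH_l4760 _)))))
             (CovZ.n1 (-46512, 45648) (by decide +kernel)
              (CovZ.n2 (-46656, 45648) (by decide +kernel)
               (CovZ.n2 (-46584, 45720) (by decide +kernel)
                (CovZ.n2 (-46584, 45648) (by decide +kernel)
                 (CovZ.n2 (-46620, 45684) (by decide +kernel)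
                  (CovZ.leaf K2_ok TH_l4761 _)
                  (CovZ.leaf K2_ok TH_l4762 _))
                 (CovZ.n1 (-46548, 45684) (by decide +kernel)
                  (CovZ.leaf K2_ok TH_l4763 _)
                  (CovZ.leaf K2_ok TH_l4764 _)))
                (CovZ.n1 (-46656, 45720) (by decide +kernel)
                 (CovZ.leaf K2_ok TH_l4765 _)
                 (CovZ.n1 (-46620, 45684) (by decide +kernel)
                  (CovZ.leaf K2_ok TH_l4766 _)
                  (CovZ.n1 (-46620, 45720) (by decide +kernel)
                   (CovZ.leaf K2_ok TH_l4767 _)
                   (CovZ.leaf K2_ok TH_l4768 _)))))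
               (CovZ.subM 356811923181682267432591329812284533521776640 (by decide +kernel)
                (CovZ.n1 (-46584, 45576) (by decide +kernel)
                 (CovZ.n2 (-46656, 45576) (by decide +kernel)
                  (CovZ.n2 (-46620, 45612) (by decide +kernel)
                   (CovZ.leaf K2_ok TH_l4769 _)
                   (CovZ.leaf K2_ok TH_l4770 _))
                  (CovZ.n1 (-46620, 45540) (by decide +kernel)
                   (CovZ.leaf K2_ok TH_l4771 _)
                   (CovZ.n1 (-46620, 45576) (by decide +kernel)
                    (CovZ.leaf K2_ok TH_l4772 _)
                    (CovZ.leaf K2_ok TH_l4773 _))))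
                 (CovZ.n1 (-46584, 45648) (by decide +kernel)
                  (CovZ.n2 (-46548, 45612) (by decide +kernel)
                   (CovZ.leaf K2_ok TH_l4774 _)
                   (CovZ.n1 (-46548, 45648) (by decide +kernel)
                    (CovZ.leaf K2_ok TH_l4775 _)
                    (CovZ.leaf K2_ok TH_l4776 _)))
                  (CovZ.n1 (-46620, 45612) (by decide +kernel)
                   (CovZ.leaf K2_ok TH_l4777 _)
                   (CovZ.leaf K2_ok TH_l4778 _))))))
              (CovZ.n1 (-46512, 45792) (by decide +kernel)
               (CovZ.n2 (-46440, 45720) (by decide +kernel)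
                (CovZ.n2 (-46512, 45720) (by decide +kernel)
                 (CovZ.n2 (-46476, 45756) (by decide +kernel)
                  (CovZ.leaf K2_ok TH_l4779 _)
                  (CovZ.leaf K2_ok TH_l4780 _))
                 (CovZ.n1 (-46476, 45684) (by decide +kernel)
                  (CovZ.leaf K2_ok TH_l4781 _)
                  (CovZ.n1 (-46476, 45720) (by decide +kernel)
                   (CovZ.leaf K2_ok TH_l4782 _)
                   (CovZ.leaf K2_ok TH_l4783 _))))
                (CovZ.n1 (-46440, 45792) (by decide +kernel)
                 (CovZ.n2 (-46404, 45756) (by decide +kernel)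
                  (CovZ.leaf K2_ok TH_l4784 _)
                  (CovZ.leaf K2_ok TH_l4785 _))
                 (CovZ.n1 (-46476, 45756) (by decide +kernel)
                  (CovZ.leaf K2_ok TH_l4786 _)
                  (CovZ.leaf K2_ok TH_l4787 _))))
               (CovZ.n1 (-46584, 45720) (by decide +kernel)
                (CovZ.n2 (-46584, 45792) (by decide +kernel)
                 (CovZ.leaf K2_ok TH_l4788 _)
                 (CovZ.leaf K2_ok TH_l4789 _))
                (CovZ.n1 (-46512, 45720) (by decide +kernel)
                 (CovZ.n2 (-46548, 45684) (by decide +kernel)
                  (CovZ.leaf K2_ok TH_l4790 _)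
                  (CovZ.leaf K2_ok TH_l4791 _))
                 (CovZ.leaf K2_ok TH_l4792 _))))))
            (CovZ.n1 (-46368, 46080) (by decide +kernel)
             (CovZ.n2 (-46224, 45936) (by decide +kernel)
              (CovZ.n2 (-46368, 45936) (by decide +kernel)
               (CovZ.n2 (-46296, 46008) (by decide +kernel)
                (CovZ.n2 (-46296, 45936) (by decide +kernel)
                 (CovZ.leaf K2_ok TH_l4793 _)
                 (CovZ.leaf K2_ok TH_l4794 _))
                (CovZ.n1 (-46368, 46008) (by decide +kernel)
                 (CovZ.leaf K2_ok TH_l4795 _)
                 (CovZ.leaf K2_ok TH_l4796 _)))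
               (CovZ.n1 (-46296, 45864) (by decide +kernel)
                (CovZ.n2 (-46368, 45864) (by decide +kernel)
                 (CovZ.leaf K2_ok TH_l4797 _)
                 (CovZ.n1 (-46332, 45828) (by decide +kernel)
                  (CovZ.leaf K2_ok TH_l4798 _)
                  (CovZ.leaf K2_ok TH_l4799 _)))
                (CovZ.n1 (-46296, 45936) (by decide +kernel)
                 (CovZ.n2 (-46260, 45900) (by decide +kernel)
                  (CovZ.leaf K2_ok TH_l4800 _)
                  (CovZ.n1 (-46260, 45936) (by decide +kernel)
                   (CovZ.leaf K2_ok TH_l4801 _)
                   (CovZ.leaf K2_ok TH_l4802 _)))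
                 (CovZ.n1 (-46332, 45900) (by decide +kernel)
                  (CovZ.leaf K2_ok TH_l4803 _)
                  (CovZ.leaf K2_ok TH_l4804 _)))))
              (CovZ.n1 (-46224, 46080) (by decide +kernel)
               (CovZ.n2 (-46152, 46008) (by decide +kernel)
                (CovZ.n2 (-46224, 46008) (by decide +kernel)
                 (CovZ.leaf K2_ok TH_l4805 _)
                 (CovZ.leaf K2_ok TH_l4806 _))
                (CovZ.n1 (-46152, 46080) (by decide +kernel)
                 (CovZ.leaf K2_ok TH_l4807 _)
                 (CovZ.leaf K2_ok TH_l4808 _)))
               (CovZ.n1 (-46296, 46008) (by decide +kernel)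
                (CovZ.n2 (-46296, 46080) (by decide +kernel)
                 (CovZ.leaf K2_ok TH_l4809 _)
                 (CovZ.leaf K2_ok TH_l4810 _))
                (CovZ.n1 (-46224, 46008) (by decide +kernel)
                 (CovZ.leaf K2_ok TH_l4811 _)
                 (CovZ.leaf K2_ok TH_l4812 _)))))
             (CovZ.n1 (-46512, 45936) (by decide +kernel)
              (CovZ.n2 (-46512, 46080) (by decide +kernel)
               (CovZ.n2 (-46440, 46008) (by decide +kernel)
                (CovZ.leaf K2_ok TH_l4813 _)
                (CovZ.n1 (-46440, 46080) (by decide +kernel)
                 (CovZ.leaf K2_ok TH_l4814 _)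
                 (CovZ.leaf K2_ok TH_l4815 _)))
               (CovZ.n1 (-46584, 46008) (by decide +kernel)
                (CovZ.n2 (-46584, 46080) (by decide +kernel)
                 (CovZ.leaf K2_ok TH_l4816 _)
                 (CovZ.leaf K2_ok TH_l4817 _))
                (CovZ.leaf K2_ok TH_l4818 _)))
              (CovZ.n1 (-46368, 45936) (by decide +kernel)
               (CovZ.n2 (-46440, 45864) (by decide +kernel)
                (CovZ.n2 (-46440, 45936) (by decide +kernel)
                 (CovZ.leaf K2_ok TH_l4819 _)
                 (CovZ.leaf K2_ok TH_l4820 _))
                (CovZ.n1 (-46368, 45864) (by decide +kernel)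
                 (CovZ.leaf K2_ok TH_l4821 _)
                 (CovZ.leaf K2_ok TH_l4822 _)))
               (CovZ.n1 (-46440, 46008) (by decide +kernel)
                (CovZ.n2 (-46368, 46008) (by decide +kernel)
                 (CovZ.leaf K2_ok TH_l4823 _)
                 (CovZ.leaf K2_ok TH_l4824 _))
                (CovZ.n1 (-46440, 45936) (by decide +kernel)
                 (CovZ.leaf K2_ok TH_l4825 _)
                 (CovZ.leaf K2_ok TH_l4826 _)))))))

theorem TH_u70 : CovZ TH_M (toL (selN TH_LN 3211307308593602029703905773621947617675051008)) [0, 7, 6, 1] (-46656, 46080) (-47232, 46080) (-46656, 45504) :=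
    (CovZ.n1 (-46944, 45792) (by decide +kernel)
            (CovZ.n2 (-46944, 46080) (by decide +kernel)
             (CovZ.n2 (-46800, 45936) (by decide +kernel)
              (CovZ.n2 (-46944, 45936) (by decide +kernel)
               (CovZ.n2 (-46872, 46008) (by decide +kernel)
                (CovZ.n2 (-46872, 45936) (by decide +kernel)
                 (CovZ.leaf K2_ok TH_l4827 _)
                 (CovZ.leaf K2_ok TH_l4828 _))
                (CovZ.leaf K2_ok TH_l4829 _))
               (CovZ.n1 (-46872, 45864) (by decide +kernel)
                (CovZ.leaf K2_ok TH_l4830 _)
                (CovZ.n1 (-46872, 45936) (by decide +kernel)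
                 (CovZ.leaf K2_ok TH_l4831 _)
                 (CovZ.leaf K2_ok TH_l4832 _))))
              (CovZ.n1 (-46800, 46080) (by decide +kernel)
               (CovZ.n2 (-46728, 46008) (by decide +kernel)
                (CovZ.leaf K2_ok TH_l4833 _)
                (CovZ.n1 (-46728, 46080) (by decide +kernel)
                 (CovZ.leaf K2_ok TH_l4834 _)
                 (CovZ.leaf K2_ok TH_l4835 _)))
               (CovZ.n1 (-46872, 46008) (by decide +kernel)
                (CovZ.n2 (-46872, 46080) (by decide +kernel)
                 (CovZ.leaf K2_ok TH_l4836 _)
                 (CovZ.leaf K2_ok TH_l4837 _))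
                (CovZ.leaf K2_ok TH_l4838 _))))
             (CovZ.n1 (-47088, 45936) (by decide +kernel)
              (CovZ.n2 (-47088, 46080) (by decide +kernel)
               (CovZ.n2 (-47016, 46008) (by decide +kernel)
                (CovZ.leaf K2_ok TH_l4839 _)
                (CovZ.leaf K2_ok TH_l4840 _))
               (CovZ.n1 (-47160, 46008) (by decide +kernel)
                (CovZ.leaf K2_ok TH_l4841 _)
                (CovZ.leaf K2_ok TH_l4842 _)))
              (CovZ.n1 (-46944, 45936) (by decide +kernel)
               (CovZ.n2 (-47016, 45864) (by decide +kernel)
                (CovZ.n2 (-47016, 45936) (by decide +kernel)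
                 (CovZ.leaf K2_ok TH_l4843 _)
                 (CovZ.leaf K2_ok TH_l4844 _))
                (CovZ.leaf K2_ok TH_l4845 _))
               (CovZ.n1 (-47016, 46008) (by decide +kernel)
                (CovZ.leaf K2_ok TH_l4846 _)
                (CovZ.leaf K2_ok TH_l4847 _)))))
            (CovZ.n1 (-46656, 45792) (by decide +kernel)
             (CovZ.n2 (-46800, 45648) (by decide +kernel)
              (CovZ.n2 (-46800, 45792) (by decide +kernel)
               (CovZ.n2 (-46728, 45720) (by decide +kernel)
                (CovZ.n2 (-46800, 45720) (by decide +kernel)
                 (CovZ.leaf K2_ok TH_l4848 _)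
                 (CovZ.leaf K2_ok TH_l4849 _))
                (CovZ.n1 (-46728, 45792) (by decide +kernel)
                 (CovZ.leaf K2_ok TH_l4850 _)
                 (CovZ.leaf K2_ok TH_l4851 _)))
               (CovZ.n1 (-46872, 45720) (by decide +kernel)
                (CovZ.n2 (-46872, 45792) (by decide +kernel)
                 (CovZ.leaf K2_ok TH_l4852 _)
                 (CovZ.leaf K2_ok TH_l4853 _))
                (CovZ.n1 (-46800, 45720) (by decide +kernel)
                 (CovZ.leaf K2_ok TH_l4854 _)
                 (CovZ.leaf K2_ok TH_l4855 _))))
              (CovZ.n1 (-46656, 45648) (by decide +kernel)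
               (CovZ.n2 (-46728, 45576) (by decide +kernel)
                (CovZ.n2 (-46728, 45648) (by decide +kernel)
                 (CovZ.n2 (-46692, 45612) (by decide +kernel)
                  (CovZ.leaf K2_ok TH_l4856 _)
                  (CovZ.leaf K2_ok TH_l4857 _))
                 (CovZ.n1 (-46764, 45612) (by decide +kernel)
                  (CovZ.leaf K2_ok TH_l4858 _)
                  (CovZ.leaf K2_ok TH_l4859 _)))
                (CovZ.subM 356811923181682267432591329812284533521776640 (by decide +kernel)
                 (CovZ.n1 (-46656, 45576) (by decide +kernel)
                  (CovZ.n2 (-46692, 45540) (by decide +kernel)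
                   (CovZ.n2 (-46692, 45576) (by decide +kernel)
                    (CovZ.leaf K2_ok TH_l4860 _)
                    (CovZ.leaf K2_ok TH_l4861 _))
                   (CovZ.leaf K2_ok TH_l4862 _))
                  (CovZ.n1 (-46692, 45612) (by decide +kernel)
                   (CovZ.leaf K2_ok TH_l4863 _)
                   (CovZ.leaf K2_ok TH_l4864 _)))))
               (CovZ.n1 (-46728, 45720) (by decide +kernel)
                (CovZ.n2 (-46656, 45720) (by decide +kernel)
                 (CovZ.leaf K2_ok TH_l4865 _)
                 (CovZ.n1 (-46692, 45756) (by decide +kernel)
                  (CovZ.leaf K2_ok TH_l4866 _)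
                  (CovZ.leaf K2_ok TH_l4867 _)))
                (CovZ.n1 (-46728, 45648) (by decide +kernel)
                 (CovZ.leaf K2_ok TH_l4868 _)
                 (CovZ.n1 (-46692, 45684) (by decide +kernel)
                  (CovZ.leaf K2_ok TH_l4869 _)
                  (CovZ.leaf K2_ok TH_l4870 _))))))
             (CovZ.n1 (-46800, 45936) (by decide +kernel)
              (CovZ.n2 (-46656, 45936) (by decide +kernel)
               (CovZ.n2 (-46728, 45864) (by decide +kernel)
                (CovZ.n2 (-46728, 45936) (by decide +kernel)
                 (CovZ.leaf K2_ok TH_l4871 _)
                 (CovZ.leaf K2_ok TH_l4872 _))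
                (CovZ.n1 (-46656, 45864) (by decide +kernel)
                 (CovZ.leaf K2_ok TH_l4873 _)
                 (CovZ.leaf K2_ok TH_l4874 _)))
               (CovZ.n1 (-46728, 46008) (by decide +kernel)
                (CovZ.leaf K2_ok TH_l4875 _)
                (CovZ.n1 (-46728, 45936) (by decide +kernel)
                 (CovZ.leaf K2_ok TH_l4876 _)
                 (CovZ.leaf K2_ok TH_l4877 _))))
              (CovZ.n1 (-46800, 45792) (by decide +kernel)
               (CovZ.n2 (-46872, 45864) (by decide +kernel)
                (CovZ.n2 (-46800, 45864) (by decide +kernel)
                 (CovZ.leaf K2_ok TH_l4878 _)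
                 (CovZ.leaf K2_ok TH_l4879 _))
                (CovZ.n1 (-46872, 45792) (by decide +kernel)
                 (CovZ.leaf K2_ok TH_l4880 _)
                 (CovZ.leaf K2_ok TH_l4881 _)))
               (CovZ.n1 (-46728, 45864) (by decide +kernel)
                (CovZ.n2 (-46728, 45792) (by decide +kernel)
                 (CovZ.leaf K2_ok TH_l4882 _)
                 (CovZ.leaf K2_ok TH_l4883 _))
                (CovZ.n1 (-46800, 45864) (by decide +kernel)
                 (CovZ.leaf K2_ok TH_l4884 _)
                 (CovZ.leaf K2_ok TH_l4885 _)))))))

theorem TH_u71 : CovZ TH_M (toL (selN TH_LN 3211307308593602029703905773621947617675051008)) [0, 7, 6, 1] (-47232, 44928) (-47232, 45216) (-47520, 45216) :=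
    (CovZ.n2 (-47376, 45072) (by decide +kernel)
              (CovZ.n2 (-47376, 45216) (by decide +kernel)
               (CovZ.n2 (-47304, 45144) (by decide +kernel)
                (CovZ.n2 (-47376, 45144) (by decide +kernel)
                 (CovZ.n2 (-47340, 45180) (by decide +kernel)
                  (CovZ.n2 (-47340, 45144) (by decide +kernel)
                   (CovZ.n2 (-47358, 45162) (by decide +kernel)
                    (CovZ.leaf K2_ok TH_l4989 _)
                    (CovZ.leaf K2_ok TH_l4990 _))
                   (CovZ.n1 (-47322, 45162) (by decide +kernel)
                    (CovZ.leaf K2_ok TH_l4991 _)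
                    (CovZ.leaf K2_ok TH_l4992 _)))
                  (CovZ.n1 (-47376, 45180) (by decide +kernel)
                   (CovZ.n2 (-47358, 45198) (by decide +kernel)
                    (CovZ.leaf K2_ok TH_l4993 _)
                    (CovZ.leaf K2_ok TH_l4994 _))
                   (CovZ.n1 (-47358, 45162) (by decide +kernel)
                    (CovZ.leaf K2_ok TH_l4995 _)
                    (CovZ.leaf K2_ok TH_l4996 _))))
                 (CovZ.subM 3211307308593602029239678258889894555337883648 (by decide +kernel)
                  (CovZ.n1 (-47340, 45108) (by decide +kernel)
                   (CovZ.n2 (-47376, 45108) (by decide +kernel)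
                    (CovZ.n2 (-47358, 45126) (by decide +kernel)
                     (CovZ.n2 (-47358, 45108) (by decide +kernel)
                      (CovZ.leaf K2_ok TH_l4997 _)
                      (CovZ.leaf K2_ok TH_l4998 _))
                     (CovZ.leaf K2_ok TH_l4999 _))
                    (CovZ.n1 (-47358, 45090) (by decide +kernel)
                     (CovZ.leaf K2_ok TH_l5000 _)
                     (CovZ.leaf K2_ok TH_l5001 _)))
                   (CovZ.n1 (-47340, 45144) (by decide +kernel)
                    (CovZ.n2 (-47322, 45126) (by decide +kernel)
                     (CovZ.leaf K2_ok TH_l5002 _)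
                     (CovZ.n1 (-47322, 45144) (by decide +kernel)
                      (CovZ.n2 (-47313, 45135) (by decide +kernel)
                       (CovZ.leaf K2_ok TH_l5003 _)
                       (CovZ.n1 (-47313, 45144) (by decide +kernel)
                        (CovZ.leaf K2_ok TH_l5004 _)
                        (CovZ.leaf K2_ok TH_l5005 _)))
                      (CovZ.leaf K2_ok TH_l5006 _)))
                    (CovZ.n1 (-47358, 45126) (by decide +kernel)
                     (CovZ.leaf K2_ok TH_l5007 _)
                     (CovZ.leaf K2_ok TH_l5008 _))))))
                (CovZ.n1 (-47304, 45216) (by decide +kernel)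
                 (CovZ.n2 (-47268, 45180) (by decide +kernel)
                  (CovZ.n2 (-47304, 45180) (by decide +kernel)
                   (CovZ.n2 (-47286, 45198) (by decide +kernel)
                    (CovZ.n2 (-47286, 45180) (by decide +kernel)
                     (CovZ.leaf K2_ok TH_l5009 _)
                     (CovZ.leaf K2_ok TH_l5010 _))
                    (CovZ.leaf K2_ok TH_l5011 _))
                   (CovZ.n1 (-47286, 45162) (by decide +kernel)
                    (CovZ.n2 (-47304, 45162) (by decide +kernel)
                     (CovZ.leaf K2_ok TH_l5012 _)
                     (CovZ.leaf K2_ok TH_l5013 _))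
                    (CovZ.leaf K2_ok TH_l5014 _)))
                  (CovZ.n1 (-47268, 45216) (by decide +kernel)
                   (CovZ.n2 (-47250, 45198) (by decide +kernel)
                    (CovZ.leaf K2_ok TH_l5015 _)
                    (CovZ.leaf K2_ok TH_l5016 _))
                   (CovZ.n1 (-47286, 45198) (by decide +kernel)
                    (CovZ.n2 (-47286, 45216) (by decide +kernel)
                     (CovZ.leaf K2_ok TH_l5017 _)
                     (CovZ.leaf K2_ok TH_l5018 _))
                    (CovZ.leaf K2_ok TH_l5019 _))))
                 (CovZ.n1 (-47340, 45180) (by decide +kernel)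
                  (CovZ.n2 (-47340, 45216) (by decide +kernel)
                   (CovZ.n2 (-47322, 45198) (by decide +kernel)
                    (CovZ.leaf K2_ok TH_l5020 _)
                    (CovZ.leaf K2_ok TH_l5021 _))
                   (CovZ.leaf K2_ok TH_l5022 _))
                  (CovZ.n1 (-47304, 45180) (by decide +kernel)
                   (CovZ.n2 (-47322, 45162) (by decide +kernel)
                    (CovZ.leaf K2_ok TH_l5023 _)
                    (CovZ.leaf K2_ok TH_l5024 _))
                   (CovZ.n1 (-47322, 45198) (by decide +kernel)
                    (CovZ.leaf K2_ok TH_l5025 _)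
                    (CovZ.leaf K2_ok TH_l5026 _))))))
               (CovZ.n1 (-47448, 45144) (by decide +kernel)
                (CovZ.n2 (-47448, 45216) (by decide +kernel)
                 (CovZ.n2 (-47412, 45180) (by decide +kernel)
                  (CovZ.n2 (-47448, 45180) (by decide +kernel)
                   (CovZ.leaf K2_ok TH_l5027 _)
                   (CovZ.leaf K2_ok TH_l5028 _))
                  (CovZ.n1 (-47412, 45216) (by decide +kernel)
                   (CovZ.n2 (-47394, 45198) (by decide +kernel)
                    (CovZ.leaf K2_ok TH_l5029 _)
                    (CovZ.leaf K2_ok TH_l5030 _))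
                   (CovZ.leaf K2_ok TH_l5031 _)))
                 (CovZ.n1 (-47484, 45180) (by decide +kernel)
                  (CovZ.n2 (-47484, 45216) (by decide +kernel)
                   (CovZ.leaf K2_ok TH_l5032 _)
                   (CovZ.n1 (-47502, 45198) (by decide +kernel)
                    (CovZ.leaf K2_ok TH_l5033 _)
                    (CovZ.leaf K2_ok TH_l5034 _)))
                  (CovZ.n1 (-47448, 45180) (by decide +kernel)
                   (CovZ.n2 (-47466, 45162) (by decide +kernel)
                    (CovZ.leaf K2_ok TH_l5035 _)
                    (CovZ.leaf K2_ok TH_l5036 _))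
                   (CovZ.leaf K2_ok TH_l5037 _))))
                (CovZ.n1 (-47376, 45144) (by decide +kernel)
                 (CovZ.subM 3211307308593602029239678258889894555337883648 (by decide +kernel)
                  (CovZ.n2 (-47412, 45108) (by decide +kernel)
                   (CovZ.n2 (-47412, 45144) (by decide +kernel)
                    (CovZ.n2 (-47394, 45126) (by decide +kernel)
                     (CovZ.leaf K2_ok TH_l5038 _)
                     (CovZ.leaf K2_ok TH_l5039 _))
                    (CovZ.n1 (-47430, 45126) (by decide +kernel)
                     (CovZ.leaf K2_ok TH_l5040 _)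
                     (CovZ.leaf K2_ok TH_l5041 _)))
                   (CovZ.n1 (-47376, 45108) (by decide +kernel)
                    (CovZ.n2 (-47394, 45090) (by decide +kernel)
                     (CovZ.leaf K2_ok TH_l5042 _)
                     (CovZ.leaf K2_ok TH_l5043 _))
                    (CovZ.n1 (-47394, 45126) (by decide +kernel)
                     (CovZ.leaf K2_ok TH_l5044 _)
                     (CovZ.leaf K2_ok TH_l5045 _)))))
                 (CovZ.n1 (-47412, 45180) (by decide +kernel)
                  (CovZ.n2 (-47376, 45180) (by decide +kernel)
                   (CovZ.n2 (-47394, 45162) (by decide +kernel)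
                    (CovZ.leaf K2_ok TH_l5046 _)
                    (CovZ.leaf K2_ok TH_l5047 _))
                   (CovZ.leaf K2_ok TH_l5048 _))
                  (CovZ.n1 (-47412, 45144) (by decide +kernel)
                   (CovZ.n2 (-47430, 45162) (by decide +kernel)
                    (CovZ.leaf K2_ok TH_l5049 _)
                    (CovZ.leaf K2_ok TH_l5050 _))
                   (CovZ.n1 (-47394, 45162) (by decide +kernel)
                    (CovZ.leaf K2_ok TH_l5051 _)
                    (CovZ.leaf K2_ok TH_l5052 _)))))))
              (CovZ.subM 356811923181682267432591329812249624027594752 (by decide +kernel)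
               (CovZ.n1 (-47232, 45072) (by decide +kernel)
                (CovZ.badM (by decide +kernel))
                (CovZ.n1 (-47304, 45144) (by decide +kernel)
                 (CovZ.n2 (-47232, 45144) (by decide +kernel)
                  (CovZ.n2 (-47268, 45108) (by decide +kernel)
                   (CovZ.n2 (-47268, 45144) (by decide +kernel)
                    (CovZ.n2 (-47250, 45126) (by decide +kernel)
                     (CovZ.n2 (-47268, 45126) (by decide +kernel)
                      (CovZ.leaf K2_ok TH_l5053 _)
                      (CovZ.badM (by decide +kernel)))
                     (CovZ.n1 (-47250, 45144) (by decide +kernel)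
                      (CovZ.badM (by decide +kernel))
                      (CovZ.leaf K2_ok TH_l5054 _)))
                    (CovZ.n1 (-47286, 45126) (by decide +kernel)
                     (CovZ.n2 (-47286, 45144) (by decide +kernel)
                      (CovZ.leaf K2_ok TH_l5055 _)
                      (CovZ.n1 (-47295, 45135) (by decide +kernel)
                       (CovZ.n2 (-47295, 45144) (by decide +kernel)
                        (CovZ.leaf K2_ok TH_l5056 _)
                        (CovZ.leaf K2_ok TH_l5057 _))
                       (CovZ.leaf K2_ok TH_l5058 _)))
                     (CovZ.n1 (-47268, 45126) (by decide +kernel)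
                      (CovZ.badM (by decide +kernel))
                      (CovZ.leaf K2_ok TH_l5059 _))))
                   (CovZ.badM (by decide +kernel)))
                  (CovZ.n1 (-47268, 45180) (by decide +kernel)
                   (CovZ.n2 (-47232, 45180) (by decide +kernel)
                    (CovZ.n2 (-47250, 45162) (by decide +kernel)
                     (CovZ.n2 (-47250, 45180) (by decide +kernel)
                      (CovZ.leaf K2_ok TH_l5060 _)
                      (CovZ.leaf K2_ok TH_l5061 _))
                     (CovZ.leaf K2_ok TH_l5062 _))
                    (CovZ.n1 (-47250, 45198) (by decide +kernel)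
                     (CovZ.leaf K2_ok TH_l5063 _)
                     (CovZ.n1 (-47250, 45180) (by decide +kernel)
                      (CovZ.leaf K2_ok TH_l5064 _)
                      (CovZ.leaf K2_ok TH_l5065 _))))
                   (CovZ.n1 (-47268, 45144) (by decide +kernel)
                    (CovZ.n2 (-47286, 45162) (by decide +kernel)
                     (CovZ.leaf K2_ok TH_l5066 _)
                     (CovZ.n1 (-47286, 45144) (by decide +kernel)
                      (CovZ.leaf K2_ok TH_l5067 _)
                      (CovZ.leaf K2_ok TH_l5068 _)))
                    (CovZ.n1 (-47250, 45162) (by decide +kernel)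
                     (CovZ.n2 (-47250, 45144) (by decide +kernel)
                      (CovZ.leaf K2_ok TH_l5069 _)
                      (CovZ.leaf K2_ok TH_l5070 _))
                     (CovZ.leaf K2_ok TH_l5071 _)))))
                 (CovZ.n1 (-47304, 45072) (by decide +kernel)
                  (CovZ.n2 (-47340, 45108) (by decide +kernel)
                   (CovZ.n2 (-47304, 45108) (by decide +kernel)
                    (CovZ.badM (by decide +kernel))
                    (CovZ.n1 (-47322, 45126) (by decide +kernel)
                     (CovZ.n2 (-47304, 45126) (by decide +kernel)
                      (CovZ.leaf K2_ok TH_l5072 _)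
                      (CovZ.n1 (-47313, 45135) (by decide +kernel)
                       (CovZ.leaf K2_ok TH_l5073 _)
                       (CovZ.leaf K2_ok TH_l5074 _)))
                     (CovZ.n1 (-47322, 45108) (by decide +kernel)
                      (CovZ.leaf K2_ok TH_l5075 _)
                      (CovZ.leaf K2_ok TH_l5076 _))))
                   (CovZ.badM (by decide +kernel)))
                  (CovZ.n1 (-47268, 45108) (by decide +kernel)
                   (CovZ.badM (by decide +kernel))
                   (CovZ.n1 (-47304, 45108) (by decide +kernel)
                    (CovZ.n2 (-47286, 45126) (by decide +kernel)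
                     (CovZ.badM (by decide +kernel))
                     (CovZ.n1 (-47304, 45126) (by decide +kernel)
                      (CovZ.leaf K2_ok TH_l5077 _)
                      (CovZ.n1 (-47295, 45117) (by decide +kernel)
                       (CovZ.leaf K2_ok TH_l5078 _)
                       (CovZ.n1 (-47295, 45126) (by decide +kernel)
                        (CovZ.leaf K2_ok TH_l5079 _)
                        (CovZ.leaf K2_ok TH_l5080 _)))))
                    (CovZ.badM (by decide +kernel)))))))))

end Pool.Agent.TET
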