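import Pool.Agent.Helper38_TET.TH_M
import Pool.Agent.Helper38_TET.TH_L
import Pool.Agent.Helper38_TET.TH_40
import Pool.Agent.Helper38_TET.TH_41
import Pool.Agent.Helper38_TET.TH_42
import Pool.Agent.Helper38_TET.TH_43
import Pool.Agent.Helper38_TET.TH_44
import Pool.Agent.Helper38_TET.TH_46
import Pool.Agent.Helper38_TET.TH_47
import Pool.Agent.Helper38_TET.TH_48
import Pool.Agent.Helper38_TET.TH_49
import Pool.Agent.Helper38_TET.TH_50
import Pool.Agent.Helper38_TET.TH_51

/-!
# MP_c7c9bf_co: certificates, family TH
-/

set_option autoImplicit false
set_option maxRecDepth 100000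

namespace Pool.Agent.TET

theorem TH_u87 : CovZ TH_M (toL (selN TH_LN 3211307308593602029703905773621947617675051008)) [0, 7, 6, 1] (-48384, 46080) (-47232, 46080) (-47232, 47232) :=
    (CovZ.n2 (-47808, 46656) (by decide +kernel)
         (CovZ.n2 (-47232, 46656) (by decide +kernel)
          (CovZ.n2 (-47520, 46368) (by decide +kernel)
           (CovZ.n2 (-47520, 46656) (by decide +kernel)
            (CovZ.n2 (-47376, 46512) (by decide +kernel)
             (CovZ.n2 (-47520, 46512) (by decide +kernel)
              (CovZ.leaf K2_ok TH_l6231 _)
              (CovZ.leaf K2_ok TH_l6232 _))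
             (CovZ.n1 (-47376, 46656) (by decide +kernel)
              (CovZ.leaf K2_ok TH_l6233 _)
              (CovZ.leaf K2_ok TH_l6234 _)))
            (CovZ.n1 (-47664, 46512) (by decide +kernel)
             (CovZ.n2 (-47664, 46656) (by decide +kernel)
              (CovZ.leaf K2_ok TH_l6235 _)
              (CovZ.leaf K2_ok TH_l6236 _))
             (CovZ.n1 (-47520, 46512) (by decide +kernel)
              (CovZ.leaf K2_ok TH_l6237 _)
              (CovZ.leaf K2_ok TH_l6238 _))))
           (CovZ.n1 (-47232, 46368) (by decide +kernel)
            (CovZ.n2 (-47376, 46224) (by decide +kernel)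
             (CovZ.n2 (-47376, 46368) (by decide +kernel)
              (CovZ.leaf K2_ok TH_l6239 _)
              (CovZ.leaf K2_ok TH_l6240 _))
             (CovZ.n1 (-47232, 46224) (by decide +kernel)
              (CovZ.leaf K2_ok TH_l6241 _)
              (CovZ.leaf K2_ok TH_l6242 _)))
            (CovZ.n1 (-47376, 46512) (by decide +kernel)
             (CovZ.n2 (-47232, 46512) (by decide +kernel)
              (CovZ.leaf K2_ok TH_l6243 _)
              (CovZ.leaf K2_ok TH_l6244 _))
             (CovZ.n1 (-47376, 46368) (by decide +kernel)
              (CovZ.leaf K2_ok TH_l6245 _)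
              (CovZ.leaf K2_ok TH_l6246 _)))))
          (CovZ.n1 (-47520, 46944) (by decide +kernel)
           (CovZ.n2 (-47232, 46944) (by decide +kernel)
            (CovZ.n2 (-47376, 46800) (by decide +kernel)
             (CovZ.n2 (-47376, 46944) (by decide +kernel)
              (CovZ.leaf K2_ok TH_l6247 _)
              (CovZ.leaf K2_ok TH_l6248 _))
             (CovZ.leaf K2_ok TH_l6249 _))
            (CovZ.n1 (-47376, 47088) (by decide +kernel)
             (CovZ.leaf K2_ok TH_l6250 _)
             (CovZ.n1 (-47376, 46944) (by decide +kernel)
              (CovZ.leaf K2_ok TH_l6251 _)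
              (CovZ.leaf K2_ok TH_l6252 _))))
           (CovZ.n1 (-47520, 46656) (by decide +kernel)
            (CovZ.n2 (-47664, 46800) (by decide +kernel)
             (CovZ.leaf K2_ok TH_l6253 _)
             (CovZ.n1 (-47664, 46656) (by decide +kernel)
              (CovZ.leaf K2_ok TH_l6254 _)
              (CovZ.leaf K2_ok TH_l6255 _)))
            (CovZ.n1 (-47376, 46800) (by decide +kernel)
             (CovZ.n2 (-47376, 46656) (by decide +kernel)
              (CovZ.leaf K2_ok TH_l6256 _)
              (CovZ.leaf K2_ok TH_l6257 _))
             (CovZ.leaf K2_ok TH_l6258 _)))))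
         (CovZ.n1 (-47808, 46080) (by decide +kernel)
          (CovZ.n2 (-48096, 46368) (by decide +kernel)
           (CovZ.n2 (-47808, 46368) (by decide +kernel)
            (CovZ.n2 (-47952, 46224) (by decide +kernel)
             (CovZ.n2 (-47952, 46368) (by decide +kernel)
              (CovZ.leaf K2_ok TH_l6259 _)
              (CovZ.leaf K2_ok TH_l6260 _))
             (CovZ.n1 (-47808, 46224) (by decide +kernel)
              (CovZ.leaf K2_ok TH_l6261 _)
              (CovZ.leaf K2_ok TH_l6262 _)))
            (CovZ.n1 (-47952, 46512) (by decide +kernel)
             (CovZ.leaf K2_ok TH_l6263 _)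
             (CovZ.n1 (-47952, 46368) (by decide +kernel)
              (CovZ.leaf K2_ok TH_l6264 _)
              (CovZ.leaf K2_ok TH_l6265 _))))
           (CovZ.n1 (-48096, 46080) (by decide +kernel)
            (CovZ.n2 (-48240, 46224) (by decide +kernel)
             (CovZ.n2 (-48096, 46224) (by decide +kernel)
              (CovZ.leaf K2_ok TH_l6266 _)
              (CovZ.leaf K2_ok TH_l6267 _))
             (CovZ.n1 (-48240, 46080) (by decide +kernel)
              (CovZ.leaf K2_ok TH_l6268 _)
              (CovZ.leaf K2_ok TH_l6269 _)))
            (CovZ.n1 (-47952, 46224) (by decide +kernel)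
             (CovZ.n2 (-47952, 46080) (by decide +kernel)
              (CovZ.leaf K2_ok TH_l6270 _)
              (CovZ.leaf K2_ok TH_l6271 _))
             (CovZ.leaf K2_ok TH_l6272 _))))
          (CovZ.n1 (-47520, 46368) (by decide +kernel)
           (CovZ.n2 (-47520, 46080) (by decide +kernel)
            (CovZ.n2 (-47664, 46224) (by decide +kernel)
             (CovZ.n2 (-47520, 46224) (by decide +kernel)
              (CovZ.leaf K2_ok TH_l6273 _)
              (CovZ.leaf K2_ok TH_l6274 _))
             (CovZ.n1 (-47664, 46080) (by decide +kernel)
              (CovZ.leaf K2_ok TH_l6275 _)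
              (CovZ.leaf K2_ok TH_l6276 _)))
            (CovZ.n1 (-47376, 46224) (by decide +kernel)
             (CovZ.n2 (-47376, 46080) (by decide +kernel)
              (CovZ.leaf K2_ok TH_l6277 _)
              (CovZ.leaf K2_ok TH_l6278 _))
             (CovZ.n1 (-47520, 46224) (by decide +kernel)
              (CovZ.leaf K2_ok TH_l6279 _)
              (CovZ.leaf K2_ok TH_l6280 _))))
           (CovZ.n1 (-47808, 46368) (by decide +kernel)
            (CovZ.n2 (-47664, 46512) (by decide +kernel)
             (CovZ.n2 (-47664, 46368) (by decide +kernel)
              (CovZ.leaf K2_ok TH_l6281 _)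
              (CovZ.leaf K2_ok TH_l6282 _))
             (CovZ.leaf K2_ok TH_l6283 _))
            (CovZ.n1 (-47664, 46224) (by decide +kernel)
             (CovZ.n2 (-47808, 46224) (by decide +kernel)
              (CovZ.leaf K2_ok TH_l6284 _)
              (CovZ.leaf K2_ok TH_l6285 _))
             (CovZ.n1 (-47664, 46368) (by decide +kernel)
              (CovZ.leaf K2_ok TH_l6286 _)
              (CovZ.leaf K2_ok TH_l6287 _)))))))

theorem TH_u88 : CovZ TH_M (toL (selN TH_LN 3211307308593602029703905773621947617675051008)) [0, 7, 6, 1] (-47232, 46080) (-46080, 46080) (-47232, 47232) :=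
    (CovZ.n1 (-46656, 46656) (by decide +kernel)
         (CovZ.n2 (-46656, 46080) (by decide +kernel)
          (CovZ.n2 (-46944, 46368) (by decide +kernel)
           (CovZ.n2 (-46656, 46368) (by decide +kernel)
            (CovZ.n2 (-46800, 46224) (by decide +kernel)
             (CovZ.n2 (-46800, 46368) (by decide +kernel)
              (CovZ.n2 (-46728, 46296) (by decide +kernel)
               (CovZ.leaf K2_ok TH_l6288 _)
               (CovZ.leaf K2_ok TH_l6289 _))
              (CovZ.n1 (-46872, 46296) (by decide +kernel)
               (CovZ.leaf K2_ok TH_l6290 _)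
               (CovZ.leaf K2_ok TH_l6291 _)))
             (CovZ.n1 (-46656, 46224) (by decide +kernel)
              (CovZ.n2 (-46728, 46152) (by decide +kernel)
               (CovZ.n2 (-46728, 46224) (by decide +kernel)
                (CovZ.leaf K2_ok TH_l6292 _)
                (CovZ.leaf K2_ok TH_l6293 _))
               (CovZ.leaf K2_ok TH_l6294 _))
              (CovZ.n1 (-46728, 46296) (by decide +kernel)
               (CovZ.leaf K2_ok TH_l6295 _)
               (CovZ.n1 (-46728, 46224) (by decide +kernel)
                (CovZ.leaf K2_ok TH_l6296 _)
                (CovZ.leaf K2_ok TH_l6297 _)))))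
            (CovZ.n1 (-46800, 46512) (by decide +kernel)
             (CovZ.n2 (-46656, 46512) (by decide +kernel)
              (CovZ.n2 (-46728, 46440) (by decide +kernel)
               (CovZ.leaf K2_ok TH_l6298 _)
               (CovZ.leaf K2_ok TH_l6299 _))
              (CovZ.leaf K2_ok TH_l6300 _))
             (CovZ.n1 (-46800, 46368) (by decide +kernel)
              (CovZ.n2 (-46872, 46440) (by decide +kernel)
               (CovZ.leaf K2_ok TH_l6301 _)
               (CovZ.leaf K2_ok TH_l6302 _))
              (CovZ.n1 (-46728, 46440) (by decide +kernel)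
               (CovZ.leaf K2_ok TH_l6303 _)
               (CovZ.leaf K2_ok TH_l6304 _)))))
           (CovZ.n1 (-46944, 46080) (by decide +kernel)
            (CovZ.n2 (-47088, 46224) (by decide +kernel)
             (CovZ.n2 (-46944, 46224) (by decide +kernel)
              (CovZ.n2 (-47016, 46152) (by decide +kernel)
               (CovZ.leaf K2_ok TH_l6305 _)
               (CovZ.leaf K2_ok TH_l6306 _))
              (CovZ.n1 (-47016, 46296) (by decide +kernel)
               (CovZ.leaf K2_ok TH_l6307 _)
               (CovZ.leaf K2_ok TH_l6308 _)))
             (CovZ.n1 (-47088, 46080) (by decide +kernel)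
              (CovZ.n2 (-47160, 46152) (by decide +kernel)
               (CovZ.leaf K2_ok TH_l6309 _)
               (CovZ.leaf K2_ok TH_l6310 _))
              (CovZ.n1 (-47016, 46152) (by decide +kernel)
               (CovZ.leaf K2_ok TH_l6311 _)
               (CovZ.leaf K2_ok TH_l6312 _))))
            (CovZ.n1 (-46800, 46224) (by decide +kernel)
             (CovZ.n2 (-46800, 46080) (by decide +kernel)
              (CovZ.n2 (-46872, 46152) (by decide +kernel)
               (CovZ.leaf K2_ok TH_l6313 _)
               (CovZ.n1 (-46872, 46080) (by decide +kernel)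
                (CovZ.leaf K2_ok TH_l6314 _)
                (CovZ.leaf K2_ok TH_l6315 _)))
              (CovZ.n1 (-46728, 46152) (by decide +kernel)
               (CovZ.n2 (-46728, 46080) (by decide +kernel)
                (CovZ.leaf K2_ok TH_l6316 _)
                (CovZ.leaf K2_ok TH_l6317 _))
               (CovZ.leaf K2_ok TH_l6318 _)))
             (CovZ.n1 (-46944, 46224) (by decide +kernel)
              (CovZ.n2 (-46872, 46296) (by decide +kernel)
               (CovZ.leaf K2_ok TH_l6319 _)
               (CovZ.leaf K2_ok TH_l6320 _))
              (CovZ.n1 (-46872, 46152) (by decide +kernel)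
               (CovZ.leaf K2_ok TH_l6321 _)
               (CovZ.n1 (-46872, 46224) (by decide +kernel)
                (CovZ.leaf K2_ok TH_l6322 _)
                (CovZ.leaf K2_ok TH_l6323 _)))))))
          (CovZ.n1 (-46368, 46368) (by decide +kernel)
           (CovZ.n2 (-46368, 46080) (by decide +kernel)
            (CovZ.n2 (-46512, 46224) (by decide +kernel)
             (CovZ.n2 (-46368, 46224) (by decide +kernel)
              (CovZ.n2 (-46440, 46152) (by decide +kernel)
               (CovZ.n2 (-46440, 46224) (by decide +kernel)
                (CovZ.leaf K2_ok TH_l6324 _)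
                (CovZ.leaf K2_ok TH_l6325 _))
               (CovZ.n1 (-46368, 46152) (by decide +kernel)
                (CovZ.leaf K2_ok TH_l6326 _)
                (CovZ.leaf K2_ok TH_l6327 _)))
              (CovZ.n1 (-46440, 46296) (by decide +kernel)
               (CovZ.leaf K2_ok TH_l6328 _)
               (CovZ.n1 (-46440, 46224) (by decide +kernel)
                (CovZ.leaf K2_ok TH_l6329 _)
                (CovZ.leaf K2_ok TH_l6330 _))))
             (CovZ.n1 (-46512, 46080) (by decide +kernel)
              (CovZ.n2 (-46584, 46152) (by decide +kernel)
               (CovZ.leaf K2_ok TH_l6331 _)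
               (CovZ.n1 (-46584, 46080) (by decide +kernel)
                (CovZ.leaf K2_ok TH_l6332 _)
                (CovZ.leaf K2_ok TH_l6333 _)))
              (CovZ.n1 (-46440, 46152) (by decide +kernel)
               (CovZ.n2 (-46440, 46080) (by decide +kernel)
                (CovZ.leaf K2_ok TH_l6334 _)
                (CovZ.leaf K2_ok TH_l6335 _))
               (CovZ.leaf K2_ok TH_l6336 _))))
            (CovZ.n1 (-46224, 46224) (by decide +kernel)
             (CovZ.n2 (-46224, 46080) (by decide +kernel)
              (CovZ.n2 (-46296, 46152) (by decide +kernel)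
               (CovZ.n2 (-46224, 46152) (by decide +kernel)
                (CovZ.leaf K2_ok TH_l6337 _)
                (CovZ.leaf K2_ok TH_l6338 _))
               (CovZ.n1 (-46296, 46080) (by decide +kernel)
                (CovZ.leaf K2_ok TH_l6339 _)
                (CovZ.leaf K2_ok TH_l6340 _)))
              (CovZ.n1 (-46152, 46152) (by decide +kernel)
               (CovZ.n2 (-46152, 46080) (by decide +kernel)
                (CovZ.leaf K2_ok TH_l6341 _)
                (CovZ.leaf K2_ok TH_l6342 _))
               (CovZ.n1 (-46224, 46152) (by decide +kernel)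
                (CovZ.leaf K2_ok TH_l6343 _)
                (CovZ.leaf K2_ok TH_l6344 _))))
             (CovZ.n1 (-46368, 46224) (by decide +kernel)
              (CovZ.n2 (-46296, 46296) (by decide +kernel)
               (CovZ.n2 (-46296, 46224) (by decide +kernel)
                (CovZ.leaf K2_ok TH_l6345 _)
                (CovZ.leaf K2_ok TH_l6346 _))
               (CovZ.leaf K2_ok TH_l6347 _))
              (CovZ.n1 (-46296, 46152) (by decide +kernel)
               (CovZ.n2 (-46368, 46152) (by decide +kernel)
                (CovZ.leaf K2_ok TH_l6348 _)
                (CovZ.leaf K2_ok TH_l6349 _))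
               (CovZ.n1 (-46296, 46224) (by decide +kernel)
                (CovZ.leaf K2_ok TH_l6350 _)
                (CovZ.leaf K2_ok TH_l6351 _))))))
           (CovZ.n1 (-46656, 46368) (by decide +kernel)
            (CovZ.n2 (-46512, 46512) (by decide +kernel)
             (CovZ.n2 (-46512, 46368) (by decide +kernel)
              (CovZ.n2 (-46584, 46440) (by decide +kernel)
               (CovZ.leaf K2_ok TH_l6352 _)
               (CovZ.n1 (-46584, 46368) (by decide +kernel)
                (CovZ.leaf K2_ok TH_l6353 _)
                (CovZ.leaf K2_ok TH_l6354 _)))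
              (CovZ.n1 (-46440, 46440) (by decide +kernel)
               (CovZ.n2 (-46440, 46368) (by decide +kernel)
                (CovZ.leaf K2_ok TH_l6355 _)
                (CovZ.leaf K2_ok TH_l6356 _))
               (CovZ.leaf K2_ok TH_l6357 _)))
             (CovZ.n1 (-46656, 46512) (by decide +kernel)
              (CovZ.leaf K2_ok TH_l6358 _)
              (CovZ.n1 (-46584, 46440) (by decide +kernel)
               (CovZ.leaf K2_ok TH_l6359 _)
               (CovZ.leaf K2_ok TH_l6360 _))))
            (CovZ.n1 (-46512, 46224) (by decide +kernel)
             (CovZ.n2 (-46656, 46224) (by decide +kernel)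
              (CovZ.n2 (-46584, 46296) (by decide +kernel)
               (CovZ.n2 (-46584, 46224) (by decide +kernel)
                (CovZ.leaf K2_ok TH_l6361 _)
                (CovZ.leaf K2_ok TH_l6362 _))
               (CovZ.leaf K2_ok TH_l6363 _))
              (CovZ.n1 (-46584, 46152) (by decide +kernel)
               (CovZ.leaf K2_ok TH_l6364 _)
               (CovZ.n1 (-46584, 46224) (by decide +kernel)
                (CovZ.leaf K2_ok TH_l6365 _)
                (CovZ.leaf K2_ok TH_l6366 _))))
             (CovZ.n1 (-46512, 46368) (by decide +kernel)
              (CovZ.n2 (-46440, 46296) (by decide +kernel)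
               (CovZ.leaf K2_ok TH_l6367 _)
               (CovZ.leaf K2_ok TH_l6368 _))
              (CovZ.n1 (-46584, 46296) (by decide +kernel)
               (CovZ.leaf K2_ok TH_l6369 _)
               (CovZ.leaf K2_ok TH_l6370 _)))))))
         (CovZ.n1 (-47232, 46656) (by decide +kernel)
          (CovZ.n2 (-46944, 46944) (by decide +kernel)
           (CovZ.n2 (-46944, 46656) (by decide +kernel)
            (CovZ.n2 (-47088, 46800) (by decide +kernel)
             (CovZ.n2 (-46944, 46800) (by decide +kernel)
              (CovZ.leaf K2_ok TH_l6371 _)
              (CovZ.leaf K2_ok TH_l6372 _))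
             (CovZ.n1 (-47088, 46656) (by decide +kernel)
              (CovZ.leaf K2_ok TH_l6373 _)
              (CovZ.leaf K2_ok TH_l6374 _)))
            (CovZ.n1 (-46800, 46800) (by decide +kernel)
             (CovZ.n2 (-46800, 46656) (by decide +kernel)
              (CovZ.leaf K2_ok TH_l6375 _)
              (CovZ.leaf K2_ok TH_l6376 _))
             (CovZ.n1 (-46944, 46800) (by decide +kernel)
              (CovZ.leaf K2_ok TH_l6377 _)
              (CovZ.leaf K2_ok TH_l6378 _))))
           (CovZ.n1 (-47232, 46944) (by decide +kernel)
            (CovZ.n2 (-47088, 47088) (by decide +kernel)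
             (CovZ.n2 (-47088, 46944) (by decide +kernel)
              (CovZ.leaf K2_ok TH_l6379 _)
              (CovZ.leaf K2_ok TH_l6380 _))
             (CovZ.leaf K2_ok TH_l6381 _))
            (CovZ.n1 (-47088, 46800) (by decide +kernel)
             (CovZ.leaf K2_ok TH_l6382 _)
             (CovZ.n1 (-47088, 46944) (by decide +kernel)
              (CovZ.leaf K2_ok TH_l6383 _)
              (CovZ.leaf K2_ok TH_l6384 _)))))
          (CovZ.n1 (-46944, 46368) (by decide +kernel)
           (CovZ.n2 (-47232, 46368) (by decide +kernel)
            (CovZ.n2 (-47088, 46512) (by decide +kernel)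
             (CovZ.n2 (-47088, 46368) (by decide +kernel)
              (CovZ.leaf K2_ok TH_l6385 _)
              (CovZ.leaf K2_ok TH_l6386 _))
             (CovZ.n1 (-47232, 46512) (by decide +kernel)
              (CovZ.leaf K2_ok TH_l6387 _)
              (CovZ.leaf K2_ok TH_l6388 _)))
            (CovZ.n1 (-47088, 46224) (by decide +kernel)
             (CovZ.n2 (-47232, 46224) (by decide +kernel)
              (CovZ.leaf K2_ok TH_l6389 _)
              (CovZ.n1 (-47160, 46152) (by decide +kernel)
               (CovZ.leaf K2_ok TH_l6390 _)
               (CovZ.leaf K2_ok TH_l6391 _)))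
             (CovZ.n1 (-47088, 46368) (by decide +kernel)
              (CovZ.n2 (-47016, 46296) (by decide +kernel)
               (CovZ.leaf K2_ok TH_l6392 _)
               (CovZ.leaf K2_ok TH_l6393 _))
              (CovZ.leaf K2_ok TH_l6394 _))))
           (CovZ.n1 (-46944, 46656) (by decide +kernel)
            (CovZ.n2 (-46800, 46512) (by decide +kernel)
             (CovZ.n2 (-46944, 46512) (by decide +kernel)
              (CovZ.leaf K2_ok TH_l6395 _)
              (CovZ.n1 (-46872, 46440) (by decide +kernel)
               (CovZ.leaf K2_ok TH_l6396 _)
               (CovZ.leaf K2_ok TH_l6397 _)))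
             (CovZ.n1 (-46800, 46656) (by decide +kernel)
              (CovZ.leaf K2_ok TH_l6398 _)
              (CovZ.leaf K2_ok TH_l6399 _)))
            (CovZ.n1 (-47088, 46512) (by decide +kernel)
             (CovZ.n2 (-47088, 46656) (by decide +kernel)
              (CovZ.leaf K2_ok TH_l6400 _)
              (CovZ.leaf K2_ok TH_l6401 _))
             (CovZ.n1 (-46944, 46512) (by decide +kernel)
              (CovZ.leaf K2_ok TH_l6402 _)
              (CovZ.leaf K2_ok TH_l6403 _)))))))

theorem TH_u89 : CovZ TH_M (toL (selN TH_LN 215623626634207726022114238101282183035491653117555693768977005166592)) [0, 7, 6, 1] (-50688, 46080) (-48384, 46080) (-48384, 48384) :=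
    (CovZ.n2 (-49536, 47232) (by decide +kernel)
      (CovZ.subM 191561945819543415888395413049454578724818444238209024 (by decide +kernel)
       (CovZ.n2 (-48384, 47232) (by decide +kernel)
        (CovZ.n2 (-48960, 46656) (by decide +kernel)
         (CovZ.n2 (-48960, 47232) (by decide +kernel)
          (CovZ.n2 (-48672, 46944) (by decide +kernel)
           (CovZ.n2 (-48960, 46944) (by decide +kernel)
            (CovZ.leaf K2_ok TH_l6129 _)
            (CovZ.n1 (-48816, 46800) (by decide +kernel)
             (CovZ.leaf K2_ok TH_l6130 _)
             (CovZ.leaf K2_ok TH_l6131 _)))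
           (CovZ.n1 (-48672, 47232) (by decide +kernel)
            (CovZ.leaf K2_ok TH_l6132 _)
            (CovZ.leaf K2_ok TH_l6133 _)))
          (CovZ.n1 (-49248, 46944) (by decide +kernel)
           (CovZ.n2 (-49248, 47232) (by decide +kernel)
            (CovZ.n2 (-49104, 47088) (by decide +kernel)
             (CovZ.leaf K2_ok TH_l6134 _)
             (CovZ.leaf K2_ok TH_l6135 _))
            (CovZ.leaf K2_ok TH_l6136 _))
           (CovZ.n1 (-48960, 46944) (by decide +kernel)
            (CovZ.leaf K2_ok TH_l6137 _)
            (CovZ.leaf K2_ok TH_l6138 _))))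
         (CovZ.n1 (-48384, 46656) (by decide +kernel)
          (CovZ.n2 (-48672, 46368) (by decide +kernel)
           (CovZ.n2 (-48672, 46656) (by decide +kernel)
            (CovZ.n2 (-48528, 46512) (by decide +kernel)
             (CovZ.leaf K2_ok TH_l6139 _)
             (CovZ.leaf K2_ok TH_l6140 _))
            (CovZ.n1 (-48816, 46512) (by decide +kernel)
             (CovZ.leaf K2_ok TH_l6141 _)
             (CovZ.leaf K2_ok TH_l6142 _)))
           (CovZ.n1 (-48384, 46368) (by decide +kernel)
            (CovZ.n2 (-48528, 46224) (by decide +kernel)
             (CovZ.n2 (-48528, 46368) (by decide +kernel)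
              (CovZ.leaf K2_ok TH_l6143 _)
              (CovZ.leaf K2_ok TH_l6144 _))
             (CovZ.leaf K2_ok TH_l6145 _))
            (CovZ.n1 (-48528, 46512) (by decide +kernel)
             (CovZ.leaf K2_ok TH_l6146 _)
             (CovZ.n1 (-48528, 46368) (by decide +kernel)
              (CovZ.leaf K2_ok TH_l6147 _)
              (CovZ.leaf K2_ok TH_l6148 _)))))
          (CovZ.n1 (-48672, 46944) (by decide +kernel)
           (CovZ.n2 (-48384, 46944) (by decide +kernel)
            (CovZ.n2 (-48528, 46800) (by decide +kernel)
             (CovZ.leaf K2_ok TH_l6149 _)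
             (CovZ.leaf K2_ok TH_l6150 _))
            (CovZ.leaf K2_ok TH_l6151 _))
           (CovZ.n1 (-48672, 46656) (by decide +kernel)
            (CovZ.n2 (-48816, 46800) (by decide +kernel)
             (CovZ.leaf K2_ok TH_l6152 _)
             (CovZ.leaf K2_ok TH_l6153 _))
            (CovZ.n1 (-48528, 46800) (by decide +kernel)
             (CovZ.leaf K2_ok TH_l6154 _)
             (CovZ.leaf K2_ok TH_l6155 _))))))
        (CovZ.n1 (-48960, 47808) (by decide +kernel)
         (CovZ.n2 (-48384, 47808) (by decide +kernel)
          (CovZ.n2 (-48672, 47520) (by decide +kernel)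
           (CovZ.n2 (-48672, 47808) (by decide +kernel)
            (CovZ.leaf K2_ok TH_l6156 _)
            (CovZ.leaf K2_ok TH_l6157 _))
           (CovZ.n1 (-48384, 47520) (by decide +kernel)
            (CovZ.leaf K2_ok TH_l6158 _)
            (CovZ.leaf K2_ok TH_l6159 _)))
          (CovZ.n1 (-48672, 48096) (by decide +kernel)
           (CovZ.leaf K2_ok TH_l6160 _)
           (CovZ.n1 (-48672, 47808) (by decide +kernel)
            (CovZ.leaf K2_ok TH_l6161 _)
            (CovZ.leaf K2_ok TH_l6162 _))))
         (CovZ.n1 (-48960, 47232) (by decide +kernel)
          (CovZ.n2 (-49248, 47520) (by decide +kernel)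
           (CovZ.n2 (-48960, 47520) (by decide +kernel)
            (CovZ.leaf K2_ok TH_l6163 _)
            (CovZ.leaf K2_ok TH_l6164 _))
           (CovZ.n1 (-49248, 47232) (by decide +kernel)
            (CovZ.leaf K2_ok TH_l6165 _)
            (CovZ.leaf K2_ok TH_l6166 _)))
          (CovZ.n1 (-48672, 47520) (by decide +kernel)
           (CovZ.n2 (-48672, 47232) (by decide +kernel)
            (CovZ.leaf K2_ok TH_l6167 _)
            (CovZ.leaf K2_ok TH_l6168 _))
           (CovZ.n1 (-48960, 47520) (by decide +kernel)
            (CovZ.leaf K2_ok TH_l6169 _)
            (CovZ.leaf K2_ok TH_l6170 _)))))))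
      (CovZ.n1 (-49536, 46080) (by decide +kernel)
       (CovZ.n2 (-50112, 46656) (by decide +kernel)
        (CovZ.subM 191561945819543415888395413049454578724818446394081280 (by decide +kernel)
         (CovZ.n2 (-49536, 46656) (by decide +kernel)
          (CovZ.n2 (-49824, 46368) (by decide +kernel)
           (CovZ.n2 (-49824, 46656) (by decide +kernel)
            (CovZ.n2 (-49680, 46512) (by decide +kernel)
             (CovZ.leaf K2_ok TH_l6171 _)
             (CovZ.leaf K2_ok TH_l6172 _))
            (CovZ.leaf K2_ok TH_l6173 _))
           (CovZ.n1 (-49536, 46368) (by decide +kernel)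
            (CovZ.n2 (-49680, 46224) (by decide +kernel)
             (CovZ.leaf K2_ok TH_l6174 _)
             (CovZ.leaf K2_ok TH_l6175 _))
            (CovZ.n1 (-49680, 46512) (by decide +kernel)
             (CovZ.leaf K2_ok TH_l6176 _)
             (CovZ.leaf K2_ok TH_l6177 _))))
          (CovZ.n1 (-49824, 46944) (by decide +kernel)
           (CovZ.n2 (-49536, 46944) (by decide +kernel)
            (CovZ.leaf K2_ok TH_l6178 _)
            (CovZ.leaf K2_ok TH_l6179 _))
           (CovZ.n1 (-49824, 46656) (by decide +kernel)
            (CovZ.leaf K2_ok TH_l6180 _)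
            (CovZ.leaf K2_ok TH_l6181 _)))))
        (CovZ.n1 (-50112, 46080) (by decide +kernel)
         (CovZ.n2 (-50400, 46368) (by decide +kernel)
          (CovZ.n2 (-50112, 46368) (by decide +kernel)
           (CovZ.leaf K2_ok TH_l6182 _)
           (CovZ.leaf K2_ok TH_l6183 _))
          (CovZ.n1 (-50400, 46080) (by decide +kernel)
           (CovZ.n2 (-50544, 46224) (by decide +kernel)
            (CovZ.leaf K2_ok TH_l6184 _)
            (CovZ.leaf K2_ok TH_l6185 _))
           (CovZ.n1 (-50256, 46224) (by decide +kernel)
            (CovZ.leaf K2_ok TH_l6186 _)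
            (CovZ.leaf K2_ok TH_l6187 _))))
         (CovZ.subM 191561945819543415888395413049454578724818446394081280 (by decide +kernel)
          (CovZ.n1 (-49824, 46368) (by decide +kernel)
           (CovZ.n2 (-49824, 46080) (by decide +kernel)
            (CovZ.n2 (-49968, 46224) (by decide +kernel)
             (CovZ.leaf K2_ok TH_l6188 _)
             (CovZ.leaf K2_ok TH_l6189 _))
            (CovZ.n1 (-49680, 46224) (by decide +kernel)
             (CovZ.n2 (-49680, 46080) (by decide +kernel)
              (CovZ.leaf K2_ok TH_l6190 _)
              (CovZ.leaf K2_ok TH_l6191 _))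
             (CovZ.leaf K2_ok TH_l6192 _)))
           (CovZ.n1 (-50112, 46368) (by decide +kernel)
            (CovZ.leaf K2_ok TH_l6193 _)
            (CovZ.n1 (-49968, 46224) (by decide +kernel)
             (CovZ.leaf K2_ok TH_l6194 _)
             (CovZ.leaf K2_ok TH_l6195 _)))))))
       (CovZ.subM 191561945819543415888395413049454578724818444238209024 (by decide +kernel)
        (CovZ.n1 (-48960, 46656) (by decide +kernel)
         (CovZ.n2 (-48960, 46080) (by decide +kernel)
          (CovZ.n2 (-49248, 46368) (by decide +kernel)
           (CovZ.subM 3211307308593602029703905773621947615527567360 (by decide +kernel)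
            (CovZ.n2 (-48960, 46368) (by decide +kernel)
             (CovZ.n2 (-49104, 46224) (by decide +kernel)
              (CovZ.n2 (-49104, 46368) (by decide +kernel)
               (CovZ.leaf K2_ok TH_l6196 _)
               (CovZ.leaf K2_ok TH_l6197 _))
              (CovZ.leaf K2_ok TH_l6198 _))
             (CovZ.n1 (-49104, 46512) (by decide +kernel)
              (CovZ.leaf K2_ok TH_l6199 _)
              (CovZ.leaf K2_ok TH_l6200 _))))
           (CovZ.n1 (-49248, 46080) (by decide +kernel)
            (CovZ.n2 (-49392, 46224) (by decide +kernel)
             (CovZ.leaf K2_ok TH_l6201 _)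
             (CovZ.n1 (-49392, 46080) (by decide +kernel)
              (CovZ.leaf K2_ok TH_l6202 _)
              (CovZ.leaf K2_ok TH_l6203 _)))
            (CovZ.n1 (-49104, 46224) (by decide +kernel)
             (CovZ.n2 (-49104, 46080) (by decide +kernel)
              (CovZ.leaf K2_ok TH_l6204 _)
              (CovZ.leaf K2_ok TH_l6205 _))
             (CovZ.leaf K2_ok TH_l6206 _))))
          (CovZ.n1 (-48672, 46368) (by decide +kernel)
           (CovZ.n2 (-48672, 46080) (by decide +kernel)
            (CovZ.n2 (-48816, 46224) (by decide +kernel)
             (CovZ.leaf K2_ok TH_l6207 _)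
             (CovZ.n1 (-48816, 46080) (by decide +kernel)
              (CovZ.leaf K2_ok TH_l6208 _)
              (CovZ.leaf K2_ok TH_l6209 _)))
            (CovZ.n1 (-48528, 46224) (by decide +kernel)
             (CovZ.n2 (-48528, 46080) (by decide +kernel)
              (CovZ.leaf K2_ok TH_l6210 _)
              (CovZ.leaf K2_ok TH_l6211 _))
             (CovZ.leaf K2_ok TH_l6212 _)))
           (CovZ.subM 3211307308593602029703905773621947615527567360 (by decide +kernel)
            (CovZ.n1 (-48960, 46368) (by decide +kernel)
             (CovZ.n2 (-48816, 46512) (by decide +kernel)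
              (CovZ.n2 (-48816, 46368) (by decide +kernel)
               (CovZ.leaf K2_ok TH_l6213 _)
               (CovZ.leaf K2_ok TH_l6214 _))
              (CovZ.leaf K2_ok TH_l6215 _))
             (CovZ.n1 (-48816, 46224) (by decide +kernel)
              (CovZ.leaf K2_ok TH_l6216 _)
              (CovZ.n1 (-48816, 46368) (by decide +kernel)
               (CovZ.leaf K2_ok TH_l6217 _)
               (CovZ.leaf K2_ok TH_l6218 _)))))))
         (CovZ.n1 (-49536, 46656) (by decide +kernel)
          (CovZ.n2 (-49248, 46944) (by decide +kernel)
           (CovZ.n2 (-49248, 46656) (by decide +kernel)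
            (CovZ.leaf K2_ok TH_l6219 _)
            (CovZ.leaf K2_ok TH_l6220 _))
           (CovZ.n1 (-49536, 46944) (by decide +kernel)
            (CovZ.leaf K2_ok TH_l6221 _)
            (CovZ.leaf K2_ok TH_l6222 _)))
          (CovZ.n1 (-49248, 46368) (by decide +kernel)
           (CovZ.n2 (-49536, 46368) (by decide +kernel)
            (CovZ.n2 (-49392, 46512) (by decide +kernel)
             (CovZ.leaf K2_ok TH_l6223 _)
             (CovZ.leaf K2_ok TH_l6224 _))
            (CovZ.n1 (-49392, 46224) (by decide +kernel)
             (CovZ.leaf K2_ok TH_l6225 _)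
             (CovZ.n1 (-49392, 46368) (by decide +kernel)
              (CovZ.leaf K2_ok TH_l6226 _)
              (CovZ.leaf K2_ok TH_l6227 _))))
           (CovZ.n1 (-49248, 46656) (by decide +kernel)
            (CovZ.n2 (-49104, 46512) (by decide +kernel)
             (CovZ.leaf K2_ok TH_l6228 _)
             (CovZ.leaf K2_ok TH_l6229 _))
            (CovZ.leaf K2_ok TH_l6230 _))))))))

theorem TH_u90 : CovZ TH_M (toL (selN TH_LN 215623626634207726022114238101282183035491653117555693768977005166592)) [0, 7, 6, 1] (-48384, 46080) (-46080, 46080) (-48384, 48384) :=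
    (CovZ.subM 3211307308593602029703905773621947617675051008 (by decide +kernel)
      (CovZ.n1 (-47232, 47232) (by decide +kernel)
       (CovZ.n2 (-47232, 46080) (by decide +kernel)
        TH_u87
        TH_u88)
       (CovZ.n1 (-48384, 47232) (by decide +kernel)
        (CovZ.n2 (-47808, 47808) (by decide +kernel)
         (CovZ.n2 (-47808, 47232) (by decide +kernel)
          (CovZ.n2 (-48096, 47520) (by decide +kernel)
           (CovZ.n2 (-47808, 47520) (by decide +kernel)
            (CovZ.leaf K2_ok TH_l6404 _)
            (CovZ.leaf K2_ok TH_l6405 _))
           (CovZ.n1 (-48096, 47232) (by decide +kernel)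
            (CovZ.leaf K2_ok TH_l6406 _)
            (CovZ.leaf K2_ok TH_l6407 _)))
          (CovZ.n1 (-47520, 47520) (by decide +kernel)
           (CovZ.n2 (-47520, 47232) (by decide +kernel)
            (CovZ.n2 (-47664, 47376) (by decide +kernel)
             (CovZ.leaf K2_ok TH_l6408 _)
             (CovZ.leaf K2_ok TH_l6409 _))
            (CovZ.n1 (-47376, 47376) (by decide +kernel)
             (CovZ.leaf K2_ok TH_l6410 _)
             (CovZ.leaf K2_ok TH_l6411 _)))
           (CovZ.n1 (-47808, 47520) (by decide +kernel)
            (CovZ.leaf K2_ok TH_l6412 _)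
            (CovZ.n1 (-47664, 47376) (by decide +kernel)
             (CovZ.leaf K2_ok TH_l6413 _)
             (CovZ.leaf K2_ok TH_l6414 _)))))
         (CovZ.n1 (-48384, 47808) (by decide +kernel)
          (CovZ.n2 (-48096, 48096) (by decide +kernel)
           (CovZ.n2 (-48096, 47808) (by decide +kernel)
            (CovZ.leaf K2_ok TH_l6415 _)
            (CovZ.leaf K2_ok TH_l6416 _))
           (CovZ.leaf K2_ok TH_l6417 _))
          (CovZ.n1 (-48096, 47520) (by decide +kernel)
           (CovZ.n2 (-48384, 47520) (by decide +kernel)
            (CovZ.leaf K2_ok TH_l6418 _)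
            (CovZ.leaf K2_ok TH_l6419 _))
           (CovZ.n1 (-48096, 47808) (by decide +kernel)
            (CovZ.leaf K2_ok TH_l6420 _)
            (CovZ.leaf K2_ok TH_l6421 _)))))
        (CovZ.n1 (-47808, 46656) (by decide +kernel)
         (CovZ.n2 (-48384, 46656) (by decide +kernel)
          (CovZ.n2 (-48096, 46944) (by decide +kernel)
           (CovZ.n2 (-48096, 46656) (by decide +kernel)
            (CovZ.n2 (-48240, 46800) (by decide +kernel)
             (CovZ.leaf K2_ok TH_l6422 _)
             (CovZ.n1 (-48240, 46656) (by decide +kernel)
              (CovZ.leaf K2_ok TH_l6423 _)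
              (CovZ.leaf K2_ok TH_l6424 _)))
            (CovZ.n1 (-47952, 46800) (by decide +kernel)
             (CovZ.n2 (-47952, 46656) (by decide +kernel)
              (CovZ.leaf K2_ok TH_l6425 _)
              (CovZ.leaf K2_ok TH_l6426 _))
             (CovZ.leaf K2_ok TH_l6427 _)))
           (CovZ.n1 (-48384, 46944) (by decide +kernel)
            (CovZ.n2 (-48240, 47088) (by decide +kernel)
             (CovZ.leaf K2_ok TH_l6428 _)
             (CovZ.leaf K2_ok TH_l6429 _))
            (CovZ.n1 (-48240, 46800) (by decide +kernel)
             (CovZ.leaf K2_ok TH_l6430 _)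
             (CovZ.leaf K2_ok TH_l6431 _))))
          (CovZ.n1 (-48096, 46368) (by decide +kernel)
           (CovZ.n2 (-48384, 46368) (by decide +kernel)
            (CovZ.n2 (-48240, 46512) (by decide +kernel)
             (CovZ.n2 (-48240, 46368) (by decide +kernel)
              (CovZ.leaf K2_ok TH_l6432 _)
              (CovZ.leaf K2_ok TH_l6433 _))
             (CovZ.leaf K2_ok TH_l6434 _))
            (CovZ.n1 (-48240, 46224) (by decide +kernel)
             (CovZ.leaf K2_ok TH_l6435 _)
             (CovZ.n1 (-48240, 46368) (by decide +kernel)
              (CovZ.leaf K2_ok TH_l6436 _)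
              (CovZ.leaf K2_ok TH_l6437 _))))
           (CovZ.n1 (-48096, 46656) (by decide +kernel)
            (CovZ.n2 (-47952, 46512) (by decide +kernel)
             (CovZ.leaf K2_ok TH_l6438 _)
             (CovZ.n1 (-47952, 46656) (by decide +kernel)
              (CovZ.leaf K2_ok TH_l6439 _)
              (CovZ.leaf K2_ok TH_l6440 _)))
            (CovZ.n1 (-48240, 46512) (by decide +kernel)
             (CovZ.n2 (-48240, 46656) (by decide +kernel)
              (CovZ.leaf K2_ok TH_l6441 _)
              (CovZ.leaf K2_ok TH_l6442 _))
             (CovZ.leaf K2_ok TH_l6443 _)))))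
         (CovZ.n1 (-47808, 47232) (by decide +kernel)
          (CovZ.n2 (-47520, 46944) (by decide +kernel)
           (CovZ.n2 (-47808, 46944) (by decide +kernel)
            (CovZ.n2 (-47664, 47088) (by decide +kernel)
             (CovZ.n2 (-47664, 46944) (by decide +kernel)
              (CovZ.leaf K2_ok TH_l6444 _)
              (CovZ.leaf K2_ok TH_l6445 _))
             (CovZ.leaf K2_ok TH_l6446 _))
            (CovZ.n1 (-47664, 46800) (by decide +kernel)
             (CovZ.leaf K2_ok TH_l6447 _)
             (CovZ.n1 (-47664, 46944) (by decide +kernel)
              (CovZ.leaf K2_ok TH_l6448 _)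
              (CovZ.leaf K2_ok TH_l6449 _))))
           (CovZ.n1 (-47520, 47232) (by decide +kernel)
            (CovZ.n2 (-47376, 47088) (by decide +kernel)
             (CovZ.leaf K2_ok TH_l6450 _)
             (CovZ.leaf K2_ok TH_l6451 _))
            (CovZ.n1 (-47664, 47088) (by decide +kernel)
             (CovZ.leaf K2_ok TH_l6452 _)
             (CovZ.leaf K2_ok TH_l6453 _))))
          (CovZ.n1 (-48096, 46944) (by decide +kernel)
           (CovZ.n2 (-48096, 47232) (by decide +kernel)
            (CovZ.n2 (-47952, 47088) (by decide +kernel)
             (CovZ.leaf K2_ok TH_l6454 _)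
             (CovZ.leaf K2_ok TH_l6455 _))
            (CovZ.n1 (-48240, 47088) (by decide +kernel)
             (CovZ.leaf K2_ok TH_l6456 _)
             (CovZ.leaf K2_ok TH_l6457 _)))
           (CovZ.n1 (-47808, 46944) (by decide +kernel)
            (CovZ.n2 (-47952, 46800) (by decide +kernel)
             (CovZ.leaf K2_ok TH_l6458 _)
             (CovZ.leaf K2_ok TH_l6459 _))
            (CovZ.n1 (-47952, 47088) (by decide +kernel)
             (CovZ.leaf K2_ok TH_l6460 _)
             (CovZ.leaf K2_ok TH_l6461 _)))))))))

theorem TH_u91 : CovZ TH_M (toL (selN TH_LN 215623626634207726022114238101282183035491653117555693768977005166592)) [0, 7, 6, 1] (-50688, 46080) (-48384, 48384) (-50688, 50688) :=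
    (CovZ.n2 (-50688, 48384) (by decide +kernel)
     (CovZ.n2 (-49536, 49536) (by decide +kernel)
      (CovZ.n2 (-49536, 48384) (by decide +kernel)
       (CovZ.n2 (-50112, 48960) (by decide +kernel)
        (CovZ.subM 191561945819543415888395412739969568903473377669300224 (by decide +kernel)
         (CovZ.n2 (-49536, 48960) (by decide +kernel)
          (CovZ.n2 (-49824, 48672) (by decide +kernel)
           (CovZ.leaf K2_ok TH_l6462 _)
           (CovZ.leaf K2_ok TH_l6463 _))
          (CovZ.n1 (-49824, 49248) (by decide +kernel)
           (CovZ.leaf K2_ok TH_l6464 _)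
           (CovZ.leaf K2_ok TH_l6465 _))))
        (CovZ.n1 (-50112, 48384) (by decide +kernel)
         (CovZ.n2 (-50400, 48672) (by decide +kernel)
          (CovZ.leaf K2_ok TH_l6466 _)
          (CovZ.leaf K2_ok TH_l6467 _))
         (CovZ.n1 (-49824, 48672) (by decide +kernel)
          (CovZ.leaf K2_ok TH_l6468 _)
          (CovZ.leaf K2_ok TH_l6469 _))))
       (CovZ.subM 191561945819543415888395413049454578724818444238209024 (by decide +kernel)
        (CovZ.n1 (-48960, 48960) (by decide +kernel)
         (CovZ.n2 (-48960, 48384) (by decide +kernel)
          (CovZ.n2 (-49248, 48672) (by decide +kernel)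
           (CovZ.leaf K2_ok TH_l6470 _)
           (CovZ.n1 (-49248, 48384) (by decide +kernel)
            (CovZ.leaf K2_ok TH_l6471 _)
            (CovZ.leaf K2_ok TH_l6472 _)))
          (CovZ.n1 (-48672, 48672) (by decide +kernel)
           (CovZ.n2 (-48672, 48384) (by decide +kernel)
            (CovZ.leaf K2_ok TH_l6473 _)
            (CovZ.leaf K2_ok TH_l6474 _))
           (CovZ.leaf K2_ok TH_l6475 _)))
         (CovZ.n1 (-49536, 48960) (by decide +kernel)
          (CovZ.n2 (-49248, 49248) (by decide +kernel)
           (CovZ.leaf K2_ok TH_l6476 _)
           (CovZ.leaf K2_ok TH_l6477 _))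
          (CovZ.n1 (-49248, 48672) (by decide +kernel)
           (CovZ.leaf K2_ok TH_l6478 _)
           (CovZ.leaf K2_ok TH_l6479 _))))))
      (CovZ.n1 (-50688, 49536) (by decide +kernel)
       (CovZ.n2 (-50112, 50112) (by decide +kernel)
        (CovZ.n2 (-50112, 49536) (by decide +kernel)
         (CovZ.leaf K2_ok TH_l6480 _)
         (CovZ.leaf K2_ok TH_l6481 _))
        (CovZ.n1 (-50688, 50112) (by decide +kernel)
         (CovZ.leaf K2_ok TH_l6482 _)
         (CovZ.leaf K2_ok TH_l6483 _)))
       (CovZ.n1 (-50112, 48960) (by decide +kernel)
        (CovZ.n2 (-50688, 48960) (by decide +kernel)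
         (CovZ.leaf K2_ok TH_l6484 _)
         (CovZ.n1 (-50400, 48672) (by decide +kernel)
          (CovZ.leaf K2_ok TH_l6485 _)
          (CovZ.leaf K2_ok TH_l6486 _)))
        (CovZ.n1 (-50112, 49536) (by decide +kernel)
         (CovZ.leaf K2_ok TH_l6487 _)
         (CovZ.leaf K2_ok TH_l6488 _)))))
     (CovZ.n1 (-49536, 47232) (by decide +kernel)
      (CovZ.n2 (-50688, 47232) (by decide +kernel)
       (CovZ.n2 (-50112, 47808) (by decide +kernel)
        (CovZ.n2 (-50112, 47232) (by decide +kernel)
         (CovZ.n2 (-50400, 47520) (by decide +kernel)
          (CovZ.leaf K2_ok TH_l6489 _)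
          (CovZ.n1 (-50400, 47232) (by decide +kernel)
           (CovZ.leaf K2_ok TH_l6490 _)
           (CovZ.leaf K2_ok TH_l6491 _)))
         (CovZ.n1 (-49824, 47520) (by decide +kernel)
          (CovZ.n2 (-49824, 47232) (by decide +kernel)
           (CovZ.leaf K2_ok TH_l6492 _)
           (CovZ.leaf K2_ok TH_l6493 _))
          (CovZ.leaf K2_ok TH_l6494 _)))
        (CovZ.n1 (-50688, 47808) (by decide +kernel)
         (CovZ.n2 (-50400, 48096) (by decide +kernel)
          (CovZ.leaf K2_ok TH_l6495 _)
          (CovZ.leaf K2_ok TH_l6496 _))
         (CovZ.n1 (-50400, 47520) (by decide +kernel)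
          (CovZ.leaf K2_ok TH_l6497 _)
          (CovZ.leaf K2_ok TH_l6498 _))))
       (CovZ.n1 (-50112, 46656) (by decide +kernel)
        (CovZ.n2 (-50688, 46656) (by decide +kernel)
         (CovZ.n2 (-50400, 46944) (by decide +kernel)
          (CovZ.n2 (-50400, 46656) (by decide +kernel)
           (CovZ.leaf K2_ok TH_l6499 _)
           (CovZ.leaf K2_ok TH_l6500 _))
          (CovZ.leaf K2_ok TH_l6501 _))
         (CovZ.n1 (-50400, 46368) (by decide +kernel)
          (CovZ.n2 (-50688, 46368) (by decide +kernel)
           (CovZ.leaf K2_ok TH_l6502 _)
           (CovZ.n1 (-50544, 46224) (by decide +kernel)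
            (CovZ.leaf K2_ok TH_l6503 _)
            (CovZ.leaf K2_ok TH_l6504 _)))
          (CovZ.n1 (-50400, 46656) (by decide +kernel)
           (CovZ.leaf K2_ok TH_l6505 _)
           (CovZ.leaf K2_ok TH_l6506 _))))
        (CovZ.n1 (-50112, 47232) (by decide +kernel)
         (CovZ.subM 191561945819543415888395413049454578724818446394081280 (by decide +kernel)
          (CovZ.n2 (-49824, 46944) (by decide +kernel)
           (CovZ.n2 (-50112, 46944) (by decide +kernel)
            (CovZ.leaf K2_ok TH_l6507 _)
            (CovZ.leaf K2_ok TH_l6508 _))
           (CovZ.n1 (-49824, 47232) (by decide +kernel)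
            (CovZ.leaf K2_ok TH_l6509 _)
            (CovZ.leaf K2_ok TH_l6510 _))))
         (CovZ.n1 (-50400, 46944) (by decide +kernel)
          (CovZ.n2 (-50400, 47232) (by decide +kernel)
           (CovZ.leaf K2_ok TH_l6511 _)
           (CovZ.leaf K2_ok TH_l6512 _))
          (CovZ.n1 (-50112, 46944) (by decide +kernel)
           (CovZ.leaf K2_ok TH_l6513 _)
           (CovZ.leaf K2_ok TH_l6514 _))))))
      (CovZ.n1 (-49536, 48384) (by decide +kernel)
       (CovZ.subM 191561945819543415888395413049454578724818444238209024 (by decide +kernel)
        (CovZ.n2 (-48960, 47808) (by decide +kernel)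
         (CovZ.n2 (-49536, 47808) (by decide +kernel)
          (CovZ.n2 (-49248, 48096) (by decide +kernel)
           (CovZ.n2 (-49248, 47808) (by decide +kernel)
            (CovZ.leaf K2_ok TH_l6515 _)
            (CovZ.leaf K2_ok TH_l6516 _))
           (CovZ.leaf K2_ok TH_l6517 _))
          (CovZ.n1 (-49248, 47520) (by decide +kernel)
           (CovZ.leaf K2_ok TH_l6518 _)
           (CovZ.n1 (-49248, 47808) (by decide +kernel)
            (CovZ.leaf K2_ok TH_l6519 _)
            (CovZ.leaf K2_ok TH_l6520 _))))
         (CovZ.n1 (-48960, 48384) (by decide +kernel)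
          (CovZ.n2 (-48672, 48096) (by decide +kernel)
           (CovZ.leaf K2_ok TH_l6521 _)
           (CovZ.n1 (-48672, 48384) (by decide +kernel)
            (CovZ.leaf K2_ok TH_l6522 _)
            (CovZ.leaf K2_ok TH_l6523 _)))
          (CovZ.n1 (-49248, 48096) (by decide +kernel)
           (CovZ.n2 (-49248, 48384) (by decide +kernel)
            (CovZ.leaf K2_ok TH_l6524 _)
            (CovZ.leaf K2_ok TH_l6525 _))
           (CovZ.leaf K2_ok TH_l6526 _)))))
       (CovZ.n1 (-50112, 47808) (by decide +kernel)
        (CovZ.n2 (-50112, 48384) (by decide +kernel)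
         (CovZ.n2 (-49824, 48096) (by decide +kernel)
          (CovZ.leaf K2_ok TH_l6527 _)
          (CovZ.leaf K2_ok TH_l6528 _))
         (CovZ.n1 (-50400, 48096) (by decide +kernel)
          (CovZ.leaf K2_ok TH_l6529 _)
          (CovZ.leaf K2_ok TH_l6530 _)))
        (CovZ.subM 191561945819543415888395413049454578724818446394081280 (by decide +kernel)
         (CovZ.n1 (-49536, 47808) (by decide +kernel)
          (CovZ.n2 (-49824, 47520) (by decide +kernel)
           (CovZ.n2 (-49824, 47808) (by decide +kernel)
            (CovZ.leaf K2_ok TH_l6531 _)
            (CovZ.leaf K2_ok TH_l6532 _))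
           (CovZ.leaf K2_ok TH_l6533 _))
          (CovZ.n1 (-49824, 48096) (by decide +kernel)
           (CovZ.leaf K2_ok TH_l6534 _)
           (CovZ.n1 (-49824, 47808) (by decide +kernel)
            (CovZ.leaf K2_ok TH_l6535 _)
            (CovZ.leaf K2_ok TH_l6536 _)))))))))

theorem TH_u92 : CovZ TH_M (toL (selN TH_LN 215623626634207726022114238101282183035491653117555693768977005166592)) [0, 7, 6, 1] (-48384, 48384) (-46080, 50688) (-50688, 50688) :=
    (CovZ.n1 (-48384, 50688) (by decide +kernel)
     (CovZ.subM 3211307308593602029703905773630954816929792000 (by decide +kernel)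
      (CovZ.n2 (-47232, 49536) (by decide +kernel)
       (CovZ.n2 (-48384, 49536) (by decide +kernel)
        (CovZ.n2 (-47808, 50112) (by decide +kernel)
         (CovZ.n2 (-47808, 49536) (by decide +kernel)
          (CovZ.n2 (-48096, 49824) (by decide +kernel)
           (CovZ.leaf K2_ok TH_l6537 _)
           (CovZ.leaf K2_ok TH_l6538 _))
          (CovZ.n1 (-47520, 49824) (by decide +kernel)
           (CovZ.n2 (-47520, 49536) (by decide +kernel)
            (CovZ.leaf K2_ok TH_l6539 _)
            (CovZ.leaf K2_ok TH_l6540 _))
           (CovZ.leaf K2_ok TH_l6541 _)))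
         (CovZ.n1 (-48384, 50112) (by decide +kernel)
          (CovZ.n2 (-48096, 50400) (by decide +kernel)
           (CovZ.leaf K2_ok TH_l6542 _)
           (CovZ.leaf K2_ok TH_l6543 _))
          (CovZ.n1 (-48096, 49824) (by decide +kernel)
           (CovZ.leaf K2_ok TH_l6544 _)
           (CovZ.leaf K2_ok TH_l6545 _))))
        (CovZ.n1 (-47808, 48960) (by decide +kernel)
         (CovZ.n2 (-48384, 48960) (by decide +kernel)
          (CovZ.n2 (-48096, 49248) (by decide +kernel)
           (CovZ.n2 (-48096, 48960) (by decide +kernel)
            (CovZ.leaf K2_ok TH_l6546 _)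
            (CovZ.leaf K2_ok TH_l6547 _))
           (CovZ.leaf K2_ok TH_l6548 _))
          (CovZ.n1 (-48096, 48672) (by decide +kernel)
           (CovZ.leaf K2_ok TH_l6549 _)
           (CovZ.n1 (-48096, 48960) (by decide +kernel)
            (CovZ.leaf K2_ok TH_l6550 _)
            (CovZ.leaf K2_ok TH_l6551 _))))
         (CovZ.n1 (-47808, 49536) (by decide +kernel)
          (CovZ.n2 (-47520, 49248) (by decide +kernel)
           (CovZ.leaf K2_ok TH_l6552 _)
           (CovZ.n1 (-47520, 49536) (by decide +kernel)
            (CovZ.leaf K2_ok TH_l6553 _)
            (CovZ.leaf K2_ok TH_l6554 _)))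
          (CovZ.n1 (-48096, 49248) (by decide +kernel)
           (CovZ.n2 (-48096, 49536) (by decide +kernel)
            (CovZ.leaf K2_ok TH_l6555 _)
            (CovZ.leaf K2_ok TH_l6556 _))
           (CovZ.leaf K2_ok TH_l6557 _)))))
       (CovZ.n1 (-47232, 50688) (by decide +kernel)
        (CovZ.n2 (-46656, 50112) (by decide +kernel)
         (CovZ.n2 (-47232, 50112) (by decide +kernel)
          (CovZ.n2 (-46944, 50400) (by decide +kernel)
           (CovZ.n2 (-46944, 50112) (by decide +kernel)
            (CovZ.leaf K2_ok TH_l6558 _)
            (CovZ.leaf K2_ok TH_l6559 _))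
           (CovZ.n1 (-47232, 50400) (by decide +kernel)
            (CovZ.leaf K2_ok TH_l6560 _)
            (CovZ.leaf K2_ok TH_l6561 _)))
          (CovZ.n1 (-46944, 49824) (by decide +kernel)
           (CovZ.n2 (-47232, 49824) (by decide +kernel)
            (CovZ.leaf K2_ok TH_l6562 _)
            (CovZ.n1 (-47088, 49680) (by decide +kernel)
             (CovZ.leaf K2_ok TH_l6563 _)
             (CovZ.leaf K2_ok TH_l6564 _)))
           (CovZ.n1 (-46944, 50112) (by decide +kernel)
            (CovZ.leaf K2_ok TH_l6565 _)
            (CovZ.leaf K2_ok TH_l6566 _))))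
         (CovZ.n1 (-46656, 50688) (by decide +kernel)
          (CovZ.n2 (-46368, 50400) (by decide +kernel)
           (CovZ.n2 (-46656, 50400) (by decide +kernel)
            (CovZ.leaf K2_ok TH_l6567 _)
            (CovZ.leaf K2_ok TH_l6568 _))
           (CovZ.n1 (-46368, 50688) (by decide +kernel)
            (CovZ.n2 (-46224, 50544) (by decide +kernel)
             (CovZ.leaf K2_ok TH_l6569 _)
             (CovZ.leaf K2_ok TH_l6570 _))
            (CovZ.leaf K2_ok TH_l6571 _)))
          (CovZ.n1 (-46944, 50400) (by decide +kernel)
           (CovZ.n2 (-46944, 50688) (by decide +kernel)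
            (CovZ.leaf K2_ok TH_l6572 _)
            (CovZ.leaf K2_ok TH_l6573 _))
           (CovZ.n1 (-46656, 50400) (by decide +kernel)
            (CovZ.leaf K2_ok TH_l6574 _)
            (CovZ.leaf K2_ok TH_l6575 _)))))
        (CovZ.n1 (-47808, 50112) (by decide +kernel)
         (CovZ.subM 2854495385417112059129849271447200504859328512 (by decide +kernel)
          (CovZ.n2 (-47808, 50688) (by decide +kernel)
           (CovZ.n2 (-47520, 50400) (by decide +kernel)
            (CovZ.leaf K2_ok TH_l6576 _)
            (CovZ.n1 (-47520, 50688) (by decide +kernel)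
             (CovZ.leaf K2_ok TH_l6577 _)
             (CovZ.leaf K2_ok TH_l6578 _)))
           (CovZ.n1 (-48096, 50400) (by decide +kernel)
            (CovZ.leaf K2_ok TH_l6579 _)
            (CovZ.leaf K2_ok TH_l6580 _))))
         (CovZ.n1 (-47232, 50112) (by decide +kernel)
          (CovZ.n2 (-47520, 49824) (by decide +kernel)
           (CovZ.n2 (-47520, 50112) (by decide +kernel)
            (CovZ.leaf K2_ok TH_l6581 _)
            (CovZ.leaf K2_ok TH_l6582 _))
           (CovZ.n1 (-47232, 49824) (by decide +kernel)
            (CovZ.leaf K2_ok TH_l6583 _)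
            (CovZ.leaf K2_ok TH_l6584 _)))
          (CovZ.subM 2854495385417112059129849271438193305604587520 (by decide +kernel)
           (CovZ.n1 (-47520, 50400) (by decide +kernel)
            (CovZ.n2 (-47232, 50400) (by decide +kernel)
             (CovZ.leaf K2_ok TH_l6585 _)
             (CovZ.leaf K2_ok TH_l6586 _))
            (CovZ.n1 (-47520, 50112) (by decide +kernel)
             (CovZ.leaf K2_ok TH_l6587 _)
             (CovZ.leaf K2_ok TH_l6588 _)))))))))
     (CovZ.n1 (-49536, 49536) (by decide +kernel)
      (CovZ.n2 (-49536, 50688) (by decide +kernel)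
       (CovZ.subM 3211307308593602029394420763809574288955031552 (by decide +kernel)
        (CovZ.n2 (-48960, 50112) (by decide +kernel)
         (CovZ.n2 (-49536, 50112) (by decide +kernel)
          (CovZ.n2 (-49248, 50400) (by decide +kernel)
           (CovZ.leaf K2_ok TH_l6589 _)
           (CovZ.leaf K2_ok TH_l6590 _))
          (CovZ.n1 (-49248, 49824) (by decide +kernel)
           (CovZ.leaf K2_ok TH_l6591 _)
           (CovZ.leaf K2_ok TH_l6592 _)))
         (CovZ.n1 (-48960, 50688) (by decide +kernel)
          (CovZ.n2 (-48672, 50400) (by decide +kernel)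
           (CovZ.leaf K2_ok TH_l6593 _)
           (CovZ.leaf K2_ok TH_l6594 _))
          (CovZ.leaf K2_ok TH_l6595 _))))
       (CovZ.n1 (-50112, 50112) (by decide +kernel)
        (CovZ.n2 (-50112, 50688) (by decide +kernel)
         (CovZ.leaf K2_ok TH_l6596 _)
         (CovZ.leaf K2_ok TH_l6597 _))
        (CovZ.n1 (-49536, 50112) (by decide +kernel)
         (CovZ.leaf K2_ok TH_l6598 _)
         (CovZ.leaf K2_ok TH_l6599 _))))
      (CovZ.subM 191561945819543415888395413049454578724818306799255552 (by decide +kernel)
       (CovZ.n1 (-48384, 49536) (by decide +kernel)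
        (CovZ.n2 (-48960, 48960) (by decide +kernel)
         (CovZ.n2 (-48960, 49536) (by decide +kernel)
          (CovZ.n2 (-48672, 49248) (by decide +kernel)
           (CovZ.leaf K2_ok TH_l6600 _)
           (CovZ.leaf K2_ok TH_l6601 _))
          (CovZ.leaf K2_ok TH_l6602 _))
         (CovZ.n1 (-48384, 48960) (by decide +kernel)
          (CovZ.n2 (-48672, 48672) (by decide +kernel)
           (CovZ.leaf K2_ok TH_l6603 _)
           (CovZ.leaf K2_ok TH_l6604 _))
          (CovZ.n1 (-48672, 49248) (by decide +kernel)
           (CovZ.leaf K2_ok TH_l6605 _)
           (CovZ.leaf K2_ok TH_l6606 _))))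
        (CovZ.subM 3211307308593602029394420763809574288955031552 (by decide +kernel)
         (CovZ.n1 (-48960, 50112) (by decide +kernel)
          (CovZ.n2 (-48384, 50112) (by decide +kernel)
           (CovZ.n2 (-48672, 49824) (by decide +kernel)
            (CovZ.leaf K2_ok TH_l6607 _)
            (CovZ.leaf K2_ok TH_l6608 _))
           (CovZ.n1 (-48672, 50400) (by decide +kernel)
            (CovZ.leaf K2_ok TH_l6609 _)
            (CovZ.leaf K2_ok TH_l6610 _)))
          (CovZ.n1 (-48960, 49536) (by decide +kernel)
           (CovZ.n2 (-49248, 49824) (by decide +kernel)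
            (CovZ.leaf K2_ok TH_l6611 _)
            (CovZ.leaf K2_ok TH_l6612 _))
           (CovZ.n1 (-48672, 49824) (by decide +kernel)
            (CovZ.leaf K2_ok TH_l6613 _)
            (CovZ.leaf K2_ok TH_l6614 _)))))))))

theorem TH_u93 : CovZ TH_M (toL (selN TH_LN 3112881567383836743540392398899065529225563841935441920)) [0, 7, 6, 1] (-44928, 48384) (-44928, 48960) (-45504, 48960) :=
    (CovZ.n2 (-45216, 48672) (by decide +kernel)
           (CovZ.n2 (-45216, 48960) (by decide +kernel)
            (CovZ.n2 (-45072, 48816) (by decide +kernel)
             (CovZ.n2 (-45216, 48816) (by decide +kernel)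
              (CovZ.n2 (-45144, 48888) (by decide +kernel)
               (CovZ.n2 (-45144, 48816) (by decide +kernel)
                (CovZ.leaf K2_ok TH_l7034 _)
                (CovZ.leaf K2_ok TH_l7035 _))
               (CovZ.n1 (-45216, 48888) (by decide +kernel)
                (CovZ.leaf K2_ok TH_l7036 _)
                (CovZ.leaf K2_ok TH_l7037 _)))
              (CovZ.n1 (-45144, 48744) (by decide +kernel)
               (CovZ.leaf K2_ok TH_l7038 _)
               (CovZ.n1 (-45144, 48816) (by decide +kernel)
                (CovZ.leaf K2_ok TH_l7039 _)
                (CovZ.leaf K2_ok TH_l7040 _))))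
             (CovZ.n1 (-45072, 48960) (by decide +kernel)
              (CovZ.n2 (-45000, 48888) (by decide +kernel)
               (CovZ.n2 (-45072, 48888) (by decide +kernel)
                (CovZ.leaf K2_ok TH_l7041 _)
                (CovZ.n1 (-45036, 48852) (by decide +kernel)
                 (CovZ.leaf K2_ok TH_l7042 _)
                 (CovZ.leaf K2_ok TH_l7043 _)))
               (CovZ.n1 (-45000, 48960) (by decide +kernel)
                (CovZ.n2 (-44964, 48924) (by decide +kernel)
                 (CovZ.leaf K2_ok TH_l7044 _)
                 (CovZ.leaf K2_ok TH_l7045 _))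
                (CovZ.leaf K2_ok TH_l7046 _)))
              (CovZ.n1 (-45144, 48888) (by decide +kernel)
               (CovZ.n2 (-45144, 48960) (by decide +kernel)
                (CovZ.leaf K2_ok TH_l7047 _)
                (CovZ.leaf K2_ok TH_l7048 _))
               (CovZ.n1 (-45072, 48888) (by decide +kernel)
                (CovZ.n2 (-45108, 48852) (by decide +kernel)
                 (CovZ.leaf K2_ok TH_l7049 _)
                 (CovZ.leaf K2_ok TH_l7050 _))
                (CovZ.leaf K2_ok TH_l7051 _)))))
            (CovZ.n1 (-45360, 48816) (by decide +kernel)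
             (CovZ.n2 (-45360, 48960) (by decide +kernel)
              (CovZ.n2 (-45288, 48888) (by decide +kernel)
               (CovZ.leaf K2_ok TH_l7052 _)
               (CovZ.n1 (-45288, 48960) (by decide +kernel)
                (CovZ.leaf K2_ok TH_l7053 _)
                (CovZ.leaf K2_ok TH_l7054 _)))
              (CovZ.n1 (-45432, 48888) (by decide +kernel)
               (CovZ.n2 (-45432, 48960) (by decide +kernel)
                (CovZ.leaf K2_ok TH_l7055 _)
                (CovZ.leaf K2_ok TH_l7056 _))
               (CovZ.leaf K2_ok TH_l7057 _)))
             (CovZ.n1 (-45216, 48816) (by decide +kernel)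
              (CovZ.n2 (-45288, 48744) (by decide +kernel)
               (CovZ.n2 (-45288, 48816) (by decide +kernel)
                (CovZ.leaf K2_ok TH_l7058 _)
                (CovZ.leaf K2_ok TH_l7059 _))
               (CovZ.n1 (-45216, 48744) (by decide +kernel)
                (CovZ.leaf K2_ok TH_l7060 _)
                (CovZ.leaf K2_ok TH_l7061 _)))
              (CovZ.n1 (-45288, 48888) (by decide +kernel)
               (CovZ.n2 (-45216, 48888) (by decide +kernel)
                (CovZ.leaf K2_ok TH_l7062 _)
                (CovZ.leaf K2_ok TH_l7063 _))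
               (CovZ.n1 (-45288, 48816) (by decide +kernel)
                (CovZ.leaf K2_ok TH_l7064 _)
                (CovZ.leaf K2_ok TH_l7065 _))))))
           (CovZ.n1 (-44928, 48672) (by decide +kernel)
            (CovZ.n2 (-45072, 48528) (by decide +kernel)
             (CovZ.n2 (-45072, 48672) (by decide +kernel)
              (CovZ.n2 (-45000, 48600) (by decide +kernel)
               (CovZ.n2 (-45072, 48600) (by decide +kernel)
                (CovZ.leaf K2_ok TH_l7066 _)
                (CovZ.n1 (-45036, 48564) (by decide +kernel)
                 (CovZ.leaf K2_ok TH_l7067 _)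
                 (CovZ.n1 (-45036, 48600) (by decide +kernel)
                  (CovZ.leaf K2_ok TH_l7068 _)
                  (CovZ.leaf K2_ok TH_l7069 _))))
               (CovZ.n1 (-45000, 48672) (by decide +kernel)
                (CovZ.badM (by decide +kernel))
                (CovZ.n1 (-45036, 48636) (by decide +kernel)
                 (CovZ.leaf K2_ok TH_l7070 _)
                 (CovZ.leaf K2_ok TH_l7071 _))))
              (CovZ.n1 (-45144, 48600) (by decide +kernel)
               (CovZ.n2 (-45144, 48672) (by decide +kernel)
                (CovZ.n2 (-45108, 48636) (by decide +kernel)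
                 (CovZ.leaf K2_ok TH_l7072 _)
                 (CovZ.leaf K2_ok TH_l7073 _))
                (CovZ.n1 (-45180, 48636) (by decide +kernel)
                 (CovZ.leaf K2_ok TH_l7074 _)
                 (CovZ.leaf K2_ok TH_l7075 _)))
               (CovZ.n1 (-45072, 48600) (by decide +kernel)
                (CovZ.n2 (-45108, 48564) (by decide +kernel)
                 (CovZ.leaf K2_ok TH_l7076 _)
                 (CovZ.leaf K2_ok TH_l7077 _))
                (CovZ.n1 (-45108, 48636) (by decide +kernel)
                 (CovZ.leaf K2_ok TH_l7078 _)
                 (CovZ.leaf K2_ok TH_l7079 _)))))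
             (CovZ.n1 (-44928, 48528) (by decide +kernel)
              (CovZ.n2 (-45000, 48456) (by decide +kernel)
               (CovZ.n2 (-45000, 48528) (by decide +kernel)
                (CovZ.badM (by decide +kernel))
                (CovZ.n1 (-45036, 48492) (by decide +kernel)
                 (CovZ.n2 (-45036, 48528) (by decide +kernel)
                  (CovZ.leaf K2_ok TH_l7080 _)
                  (CovZ.leaf K2_ok TH_l7081 _))
                 (CovZ.leaf K2_ok TH_l7082 _)))
               (CovZ.badM (by decide +kernel)))
              (CovZ.n1 (-45000, 48600) (by decide +kernel)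
               (CovZ.badM (by decide +kernel))
               (CovZ.n1 (-45000, 48528) (by decide +kernel)
                (CovZ.n2 (-45036, 48564) (by decide +kernel)
                 (CovZ.leaf K2_ok TH_l7083 _)
                 (CovZ.n1 (-45036, 48528) (by decide +kernel)
                  (CovZ.leaf K2_ok TH_l7084 _)
                  (CovZ.leaf K2_ok TH_l7085 _)))
                (CovZ.badM (by decide +kernel))))))
            (CovZ.n1 (-45072, 48816) (by decide +kernel)
             (CovZ.n2 (-44928, 48816) (by decide +kernel)
              (CovZ.n2 (-45000, 48744) (by decide +kernel)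
               (CovZ.n2 (-45000, 48816) (by decide +kernel)
                (CovZ.n2 (-44964, 48780) (by decide +kernel)
                 (CovZ.leaf K2_ok TH_l7086 _)
                 (CovZ.leaf K2_ok TH_l7087 _))
                (CovZ.n1 (-45036, 48780) (by decide +kernel)
                 (CovZ.leaf K2_ok TH_l7088 _)
                 (CovZ.leaf K2_ok TH_l7089 _)))
               (CovZ.n1 (-44928, 48744) (by decide +kernel)
                (CovZ.n2 (-44964, 48708) (by decide +kernel)
                 (CovZ.leaf K2_ok TH_l7090 _)
                 (CovZ.badM (by decide +kernel)))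
                (CovZ.n1 (-44964, 48780) (by decide +kernel)
                 (CovZ.leaf K2_ok TH_l7091 _)
                 (CovZ.leaf K2_ok TH_l7092 _))))
              (CovZ.n1 (-45000, 48888) (by decide +kernel)
               (CovZ.n2 (-44928, 48888) (by decide +kernel)
                (CovZ.n2 (-44964, 48852) (by decide +kernel)
                 (CovZ.leaf K2_ok TH_l7093 _)
                 (CovZ.leaf K2_ok TH_l7094 _))
                (CovZ.n1 (-44964, 48924) (by decide +kernel)
                 (CovZ.leaf K2_ok TH_l7095 _)
                 (CovZ.leaf K2_ok TH_l7096 _)))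
               (CovZ.n1 (-45000, 48816) (by decide +kernel)
                (CovZ.leaf K2_ok TH_l7097 _)
                (CovZ.n1 (-44964, 48852) (by decide +kernel)
                 (CovZ.leaf K2_ok TH_l7098 _)
                 (CovZ.leaf K2_ok TH_l7099 _)))))
             (CovZ.n1 (-45072, 48672) (by decide +kernel)
              (CovZ.n2 (-45144, 48744) (by decide +kernel)
               (CovZ.n2 (-45072, 48744) (by decide +kernel)
                (CovZ.n2 (-45108, 48708) (by decide +kernel)
                 (CovZ.leaf K2_ok TH_l7100 _)
                 (CovZ.leaf K2_ok TH_l7101 _))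
                (CovZ.n1 (-45108, 48780) (by decide +kernel)
                 (CovZ.leaf K2_ok TH_l7102 _)
                 (CovZ.leaf K2_ok TH_l7103 _)))
               (CovZ.n1 (-45144, 48672) (by decide +kernel)
                (CovZ.leaf K2_ok TH_l7104 _)
                (CovZ.leaf K2_ok TH_l7105 _)))
              (CovZ.n1 (-45000, 48744) (by decide +kernel)
               (CovZ.n2 (-45000, 48672) (by decide +kernel)
                (CovZ.leaf K2_ok TH_l7106 _)
                (CovZ.n1 (-44964, 48708) (by decide +kernel)
                 (CovZ.badM (by decide +kernel))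
                 (CovZ.leaf K2_ok TH_l7107 _)))
               (CovZ.n1 (-45072, 48744) (by decide +kernel)
                (CovZ.leaf K2_ok TH_l7108 _)
                (CovZ.n1 (-45036, 48708) (by decide +kernel)
                 (CovZ.leaf K2_ok TH_l7109 _)
                 (CovZ.leaf K2_ok TH_l7110 _))))))))

theorem TH_u94 : CovZ TH_M (toL (selN TH_LN 3112881567383836743540392398899065529225563841935441920)) [0, 7, 6, 1] (-44928, 48960) (-44928, 49536) (-45504, 48960) :=
    (CovZ.n1 (-45216, 49248) (by decide +kernel)
           (CovZ.n2 (-44928, 49248) (by decide +kernel)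
            (CovZ.n2 (-45072, 49104) (by decide +kernel)
             (CovZ.n2 (-45072, 49248) (by decide +kernel)
              (CovZ.n2 (-45000, 49176) (by decide +kernel)
               (CovZ.leaf K2_ok TH_l7111 _)
               (CovZ.n1 (-45000, 49248) (by decide +kernel)
                (CovZ.leaf K2_ok TH_l7112 _)
                (CovZ.leaf K2_ok TH_l7113 _)))
              (CovZ.n1 (-45144, 49176) (by decide +kernel)
               (CovZ.n2 (-45144, 49248) (by decide +kernel)
                (CovZ.leaf K2_ok TH_l7114 _)
                (CovZ.leaf K2_ok TH_l7115 _))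
               (CovZ.n1 (-45072, 49176) (by decide +kernel)
                (CovZ.leaf K2_ok TH_l7116 _)
                (CovZ.leaf K2_ok TH_l7117 _))))
             (CovZ.n1 (-44928, 49104) (by decide +kernel)
              (CovZ.n2 (-45000, 49032) (by decide +kernel)
               (CovZ.n2 (-45000, 49104) (by decide +kernel)
                (CovZ.leaf K2_ok TH_l7118 _)
                (CovZ.leaf K2_ok TH_l7119 _))
               (CovZ.n1 (-44928, 49032) (by decide +kernel)
                (CovZ.leaf K2_ok TH_l7120 _)
                (CovZ.leaf K2_ok TH_l7121 _)))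
              (CovZ.n1 (-45000, 49176) (by decide +kernel)
               (CovZ.n2 (-44928, 49176) (by decide +kernel)
                (CovZ.leaf K2_ok TH_l7122 _)
                (CovZ.leaf K2_ok TH_l7123 _))
               (CovZ.n1 (-45000, 49104) (by decide +kernel)
                (CovZ.leaf K2_ok TH_l7124 _)
                (CovZ.leaf K2_ok TH_l7125 _)))))
            (CovZ.n1 (-45072, 49392) (by decide +kernel)
             (CovZ.n2 (-44928, 49392) (by decide +kernel)
              (CovZ.n2 (-45000, 49320) (by decide +kernel)
               (CovZ.n2 (-45000, 49392) (by decide +kernel)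
                (CovZ.leaf K2_ok TH_l7126 _)
                (CovZ.leaf K2_ok TH_l7127 _))
               (CovZ.n1 (-44928, 49320) (by decide +kernel)
                (CovZ.leaf K2_ok TH_l7128 _)
                (CovZ.leaf K2_ok TH_l7129 _)))
              (CovZ.n1 (-45000, 49464) (by decide +kernel)
               (CovZ.n2 (-44928, 49464) (by decide +kernel)
                (CovZ.leaf K2_ok TH_l7130 _)
                (CovZ.leaf K2_ok TH_l7131 _))
               (CovZ.n1 (-45000, 49392) (by decide +kernel)
                (CovZ.leaf K2_ok TH_l7132 _)
                (CovZ.leaf K2_ok TH_l7133 _))))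
             (CovZ.n1 (-45072, 49248) (by decide +kernel)
              (CovZ.n2 (-45144, 49320) (by decide +kernel)
               (CovZ.leaf K2_ok TH_l7134 _)
               (CovZ.n1 (-45144, 49248) (by decide +kernel)
                (CovZ.leaf K2_ok TH_l7135 _)
                (CovZ.leaf K2_ok TH_l7136 _)))
              (CovZ.n1 (-45000, 49320) (by decide +kernel)
               (CovZ.n2 (-45000, 49248) (by decide +kernel)
                (CovZ.leaf K2_ok TH_l7137 _)
                (CovZ.leaf K2_ok TH_l7138 _))
               (CovZ.leaf K2_ok TH_l7139 _)))))
           (CovZ.n1 (-45216, 48960) (by decide +kernel)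
            (CovZ.n2 (-45360, 49104) (by decide +kernel)
             (CovZ.n2 (-45216, 49104) (by decide +kernel)
              (CovZ.n2 (-45288, 49032) (by decide +kernel)
               (CovZ.n2 (-45288, 49104) (by decide +kernel)
                (CovZ.leaf K2_ok TH_l7140 _)
                (CovZ.leaf K2_ok TH_l7141 _))
               (CovZ.leaf K2_ok TH_l7142 _))
              (CovZ.n1 (-45288, 49176) (by decide +kernel)
               (CovZ.leaf K2_ok TH_l7143 _)
               (CovZ.leaf K2_ok TH_l7144 _)))
             (CovZ.n1 (-45360, 48960) (by decide +kernel)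
              (CovZ.n2 (-45432, 49032) (by decide +kernel)
               (CovZ.leaf K2_ok TH_l7145 _)
               (CovZ.leaf K2_ok TH_l7146 _))
              (CovZ.n1 (-45288, 49032) (by decide +kernel)
               (CovZ.n2 (-45288, 48960) (by decide +kernel)
                (CovZ.leaf K2_ok TH_l7147 _)
                (CovZ.leaf K2_ok TH_l7148 _))
               (CovZ.leaf K2_ok TH_l7149 _))))
            (CovZ.n1 (-45072, 49104) (by decide +kernel)
             (CovZ.n2 (-45072, 48960) (by decide +kernel)
              (CovZ.n2 (-45144, 49032) (by decide +kernel)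
               (CovZ.n2 (-45072, 49032) (by decide +kernel)
                (CovZ.leaf K2_ok TH_l7150 _)
                (CovZ.leaf K2_ok TH_l7151 _))
               (CovZ.n1 (-45144, 48960) (by decide +kernel)
                (CovZ.leaf K2_ok TH_l7152 _)
                (CovZ.leaf K2_ok TH_l7153 _)))
              (CovZ.n1 (-45000, 49032) (by decide +kernel)
               (CovZ.n2 (-45000, 48960) (by decide +kernel)
                (CovZ.leaf K2_ok TH_l7154 _)
                (CovZ.leaf K2_ok TH_l7155 _))
               (CovZ.n1 (-45072, 49032) (by decide +kernel)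
                (CovZ.leaf K2_ok TH_l7156 _)
                (CovZ.leaf K2_ok TH_l7157 _))))
             (CovZ.n1 (-45216, 49104) (by decide +kernel)
              (CovZ.n2 (-45144, 49176) (by decide +kernel)
               (CovZ.n2 (-45144, 49104) (by decide +kernel)
                (CovZ.leaf K2_ok TH_l7158 _)
                (CovZ.leaf K2_ok TH_l7159 _))
               (CovZ.leaf K2_ok TH_l7160 _))
              (CovZ.n1 (-45144, 49032) (by decide +kernel)
               (CovZ.leaf K2_ok TH_l7161 _)
               (CovZ.n1 (-45144, 49104) (by decide +kernel)
                (CovZ.leaf K2_ok TH_l7162 _)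
                (CovZ.leaf K2_ok TH_l7163 _)))))))

theorem TH_u95 : CovZ TH_M (toL (selN TH_LN 3112881570595144052133994428602971302847511457463009280)) [0, 7, 6, 1] (-46080, 48384) (-44928, 48384) (-44928, 49536) :=
    (CovZ.n2 (-45504, 48960) (by decide +kernel)
        (CovZ.subM 3112881567383836743540392398899065529225563841935441920 (by decide +kernel)
         (CovZ.n2 (-44928, 48960) (by decide +kernel)
          TH_u93
          TH_u94))
        (CovZ.n1 (-45504, 48384) (by decide +kernel)
         (CovZ.n2 (-45792, 48672) (by decide +kernel)
          (CovZ.subM 3112881567383836743540392398899065529225563841935441920 (by decide +kernel)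
           (CovZ.n2 (-45504, 48672) (by decide +kernel)
            (CovZ.n2 (-45648, 48528) (by decide +kernel)
             (CovZ.n2 (-45648, 48672) (by decide +kernel)
              (CovZ.n2 (-45576, 48600) (by decide +kernel)
               (CovZ.leaf K2_ok TH_l7164 _)
               (CovZ.leaf K2_ok TH_l7165 _))
              (CovZ.n1 (-45720, 48600) (by decide +kernel)
               (CovZ.leaf K2_ok TH_l7166 _)
               (CovZ.leaf K2_ok TH_l7167 _)))
             (CovZ.n1 (-45504, 48528) (by decide +kernel)
              (CovZ.n2 (-45576, 48456) (by decide +kernel)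
               (CovZ.leaf K2_ok TH_l7168 _)
               (CovZ.leaf K2_ok TH_l7169 _))
              (CovZ.n1 (-45576, 48600) (by decide +kernel)
               (CovZ.leaf K2_ok TH_l7170 _)
               (CovZ.leaf K2_ok TH_l7171 _))))
            (CovZ.n1 (-45648, 48816) (by decide +kernel)
             (CovZ.n2 (-45504, 48816) (by decide +kernel)
              (CovZ.n2 (-45576, 48744) (by decide +kernel)
               (CovZ.leaf K2_ok TH_l7172 _)
               (CovZ.leaf K2_ok TH_l7173 _))
              (CovZ.n1 (-45576, 48888) (by decide +kernel)
               (CovZ.leaf K2_ok TH_l7174 _)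
               (CovZ.leaf K2_ok TH_l7175 _)))
             (CovZ.n1 (-45648, 48672) (by decide +kernel)
              (CovZ.leaf K2_ok TH_l7176 _)
              (CovZ.n1 (-45576, 48744) (by decide +kernel)
               (CovZ.leaf K2_ok TH_l7177 _)
               (CovZ.leaf K2_ok TH_l7178 _))))))
          (CovZ.n1 (-45792, 48384) (by decide +kernel)
           (CovZ.n2 (-45936, 48528) (by decide +kernel)
            (CovZ.badM (by decide +kernel))
            (CovZ.n1 (-45936, 48384) (by decide +kernel)
             (CovZ.leaf K2_ok TH_l7179 _)
             (CovZ.badM (by decide +kernel))))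
           (CovZ.subM 3112881567383836743540392398899065529225563841935441920 (by decide +kernel)
            (CovZ.n1 (-45648, 48528) (by decide +kernel)
             (CovZ.n2 (-45648, 48384) (by decide +kernel)
              (CovZ.n2 (-45720, 48456) (by decide +kernel)
               (CovZ.leaf K2_ok TH_l7180 _)
               (CovZ.leaf K2_ok TH_l7181 _))
              (CovZ.n1 (-45576, 48456) (by decide +kernel)
               (CovZ.leaf K2_ok TH_l7182 _)
               (CovZ.leaf K2_ok TH_l7183 _)))
             (CovZ.n1 (-45792, 48528) (by decide +kernel)
              (CovZ.leaf K2_ok TH_l7184 _)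
              (CovZ.n1 (-45720, 48456) (by decide +kernel)
               (CovZ.badM (by decide +kernel))
               (CovZ.leaf K2_ok TH_l7185 _)))))))
         (CovZ.subM 3112881567383836743540392398899065529225563841935441920 (by decide +kernel)
          (CovZ.n1 (-45216, 48672) (by decide +kernel)
           (CovZ.n2 (-45216, 48384) (by decide +kernel)
            (CovZ.n2 (-45360, 48528) (by decide +kernel)
             (CovZ.n2 (-45216, 48528) (by decide +kernel)
              (CovZ.n2 (-45288, 48456) (by decide +kernel)
               (CovZ.n2 (-45288, 48528) (by decide +kernel)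
                (CovZ.leaf K2_ok TH_l7186 _)
                (CovZ.leaf K2_ok TH_l7187 _))
               (CovZ.n1 (-45216, 48456) (by decide +kernel)
                (CovZ.leaf K2_ok TH_l7188 _)
                (CovZ.leaf K2_ok TH_l7189 _)))
              (CovZ.n1 (-45288, 48600) (by decide +kernel)
               (CovZ.n2 (-45216, 48600) (by decide +kernel)
                (CovZ.leaf K2_ok TH_l7190 _)
                (CovZ.leaf K2_ok TH_l7191 _))
               (CovZ.n1 (-45288, 48528) (by decide +kernel)
                (CovZ.leaf K2_ok TH_l7192 _)
                (CovZ.leaf K2_ok TH_l7193 _))))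
             (CovZ.n1 (-45360, 48384) (by decide +kernel)
              (CovZ.n2 (-45432, 48456) (by decide +kernel)
               (CovZ.leaf K2_ok TH_l7194 _)
               (CovZ.n1 (-45432, 48384) (by decide +kernel)
                (CovZ.leaf K2_ok TH_l7195 _)
                (CovZ.leaf K2_ok TH_l7196 _)))
              (CovZ.n1 (-45288, 48456) (by decide +kernel)
               (CovZ.n2 (-45288, 48384) (by decide +kernel)
                (CovZ.leaf K2_ok TH_l7197 _)
                (CovZ.leaf K2_ok TH_l7198 _))
               (CovZ.n1 (-45360, 48456) (by decide +kernel)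
                (CovZ.leaf K2_ok TH_l7199 _)
                (CovZ.leaf K2_ok TH_l7200 _)))))
            (CovZ.n1 (-45072, 48528) (by decide +kernel)
             (CovZ.n2 (-45072, 48384) (by decide +kernel)
              (CovZ.n2 (-45144, 48456) (by decide +kernel)
               (CovZ.n2 (-45072, 48456) (by decide +kernel)
                (CovZ.n2 (-45108, 48420) (by decide +kernel)
                 (CovZ.leaf K2_ok TH_l7201 _)
                 (CovZ.leaf K2_ok TH_l7202 _))
                (CovZ.n1 (-45108, 48492) (by decide +kernel)
                 (CovZ.leaf K2_ok TH_l7203 _)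
                 (CovZ.leaf K2_ok TH_l7204 _)))
               (CovZ.n1 (-45144, 48384) (by decide +kernel)
                (CovZ.n2 (-45180, 48420) (by decide +kernel)
                 (CovZ.leaf K2_ok TH_l7205 _)
                 (CovZ.leaf K2_ok TH_l7206 _))
                (CovZ.n1 (-45108, 48420) (by decide +kernel)
                 (CovZ.leaf K2_ok TH_l7207 _)
                 (CovZ.leaf K2_ok TH_l7208 _))))
              (CovZ.n1 (-45000, 48456) (by decide +kernel)
               (CovZ.n2 (-45000, 48384) (by decide +kernel)
                (CovZ.n2 (-45036, 48420) (by decide +kernel)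
                 (CovZ.leaf K2_ok TH_l7209 _)
                 (CovZ.leaf K2_ok TH_l7210 _))
                (CovZ.badM (by decide +kernel)))
               (CovZ.n1 (-45072, 48456) (by decide +kernel)
                (CovZ.n2 (-45036, 48492) (by decide +kernel)
                 (CovZ.leaf K2_ok TH_l7211 _)
                 (CovZ.leaf K2_ok TH_l7212 _))
                (CovZ.n1 (-45036, 48420) (by decide +kernel)
                 (CovZ.leaf K2_ok TH_l7213 _)
                 (CovZ.n1 (-45036, 48456) (by decide +kernel)
                  (CovZ.leaf K2_ok TH_l7214 _)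
                  (CovZ.leaf K2_ok TH_l7215 _))))))
             (CovZ.n1 (-45216, 48528) (by decide +kernel)
              (CovZ.n2 (-45144, 48600) (by decide +kernel)
               (CovZ.n2 (-45144, 48528) (by decide +kernel)
                (CovZ.leaf K2_ok TH_l7216 _)
                (CovZ.leaf K2_ok TH_l7217 _))
               (CovZ.n1 (-45216, 48600) (by decide +kernel)
                (CovZ.leaf K2_ok TH_l7218 _)
                (CovZ.leaf K2_ok TH_l7219 _)))
              (CovZ.n1 (-45144, 48456) (by decide +kernel)
               (CovZ.n2 (-45216, 48456) (by decide +kernel)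
                (CovZ.leaf K2_ok TH_l7220 _)
                (CovZ.n1 (-45180, 48420) (by decide +kernel)
                 (CovZ.leaf K2_ok TH_l7221 _)
                 (CovZ.leaf K2_ok TH_l7222 _)))
               (CovZ.n1 (-45144, 48528) (by decide +kernel)
                (CovZ.n2 (-45108, 48492) (by decide +kernel)
                 (CovZ.leaf K2_ok TH_l7223 _)
                 (CovZ.leaf K2_ok TH_l7224 _))
                (CovZ.n1 (-45180, 48492) (by decide +kernel)
                 (CovZ.leaf K2_ok TH_l7225 _)
                 (CovZ.leaf K2_ok TH_l7226 _)))))))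
           (CovZ.n1 (-45504, 48672) (by decide +kernel)
            (CovZ.n2 (-45360, 48816) (by decide +kernel)
             (CovZ.n2 (-45360, 48672) (by decide +kernel)
              (CovZ.n2 (-45432, 48744) (by decide +kernel)
               (CovZ.leaf K2_ok TH_l7227 _)
               (CovZ.leaf K2_ok TH_l7228 _))
              (CovZ.n1 (-45288, 48744) (by decide +kernel)
               (CovZ.n2 (-45288, 48672) (by decide +kernel)
                (CovZ.leaf K2_ok TH_l7229 _)
                (CovZ.leaf K2_ok TH_l7230 _))
               (CovZ.leaf K2_ok TH_l7231 _)))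
             (CovZ.n1 (-45504, 48816) (by decide +kernel)
              (CovZ.n2 (-45432, 48888) (by decide +kernel)
               (CovZ.leaf K2_ok TH_l7232 _)
               (CovZ.leaf K2_ok TH_l7233 _))
              (CovZ.n1 (-45432, 48744) (by decide +kernel)
               (CovZ.leaf K2_ok TH_l7234 _)
               (CovZ.n1 (-45432, 48816) (by decide +kernel)
                (CovZ.leaf K2_ok TH_l7235 _)
                (CovZ.leaf K2_ok TH_l7236 _)))))
            (CovZ.n1 (-45360, 48528) (by decide +kernel)
             (CovZ.n2 (-45504, 48528) (by decide +kernel)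
              (CovZ.n2 (-45432, 48600) (by decide +kernel)
               (CovZ.n2 (-45432, 48528) (by decide +kernel)
                (CovZ.leaf K2_ok TH_l7237 _)
                (CovZ.leaf K2_ok TH_l7238 _))
               (CovZ.leaf K2_ok TH_l7239 _))
              (CovZ.n1 (-45432, 48456) (by decide +kernel)
               (CovZ.leaf K2_ok TH_l7240 _)
               (CovZ.n1 (-45432, 48528) (by decide +kernel)
                (CovZ.leaf K2_ok TH_l7241 _)
                (CovZ.leaf K2_ok TH_l7242 _))))
             (CovZ.n1 (-45360, 48672) (by decide +kernel)
              (CovZ.n2 (-45288, 48600) (by decide +kernel)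
               (CovZ.n2 (-45360, 48600) (by decide +kernel)
                (CovZ.leaf K2_ok TH_l7243 _)
                (CovZ.leaf K2_ok TH_l7244 _))
               (CovZ.n1 (-45288, 48672) (by decide +kernel)
                (CovZ.leaf K2_ok TH_l7245 _)
                (CovZ.leaf K2_ok TH_l7246 _)))
              (CovZ.n1 (-45432, 48600) (by decide +kernel)
               (CovZ.n2 (-45432, 48672) (by decide +kernel)
                (CovZ.leaf K2_ok TH_l7247 _)
                (CovZ.leaf K2_ok TH_l7248 _))
               (CovZ.leaf K2_ok TH_l7249 _)))))))))

theorem TH_u96 : CovZ TH_M (toL (selN TH_LN 3112881570595144052133994428602971302847511457463009280)) [0, 7, 6, 1] (-44928, 48384) (-43776, 48384) (-44928, 49536) :=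
    (CovZ.subM 47890485652059026823698344598447161988085597568237568 (by decide +kernel)
        (CovZ.n1 (-44352, 48960) (by decide +kernel)
         (CovZ.badM (by decide +kernel))
         (CovZ.n1 (-44928, 48960) (by decide +kernel)
          (CovZ.n2 (-44640, 49248) (by decide +kernel)
           (CovZ.n2 (-44640, 48960) (by decide +kernel)
            (CovZ.n2 (-44784, 49104) (by decide +kernel)
             (CovZ.n2 (-44640, 49104) (by decide +kernel)
              (CovZ.n2 (-44712, 49032) (by decide +kernel)
               (CovZ.n2 (-44712, 49104) (by decide +kernel)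
                (CovZ.badM (by decide +kernel))
                (CovZ.n1 (-44748, 49068) (by decide +kernel)
                 (CovZ.n2 (-44748, 49104) (by decide +kernel)
                  (CovZ.leaf K2_ok TH_l7250 _)
                  (CovZ.leaf K2_ok TH_l7251 _))
                 (CovZ.badM (by decide +kernel))))
               (CovZ.badM (by decide +kernel)))
              (CovZ.n1 (-44712, 49176) (by decide +kernel)
               (CovZ.n2 (-44640, 49176) (by decide +kernel)
                (CovZ.n2 (-44676, 49140) (by decide +kernel)
                 (CovZ.n2 (-44676, 49176) (by decide +kernel)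
                  (CovZ.badM (by decide +kernel))
                  (CovZ.leaf K2_ok TH_l7252 _))
                 (CovZ.badM (by decide +kernel)))
                (CovZ.n1 (-44676, 49212) (by decide +kernel)
                 (CovZ.n2 (-44640, 49212) (by decide +kernel)
                  (CovZ.leaf K2_ok TH_l7253 _)
                  (CovZ.leaf K2_ok TH_l7254 _))
                 (CovZ.n1 (-44676, 49176) (by decide +kernel)
                  (CovZ.leaf K2_ok TH_l7255 _)
                  (CovZ.leaf K2_ok TH_l7256 _))))
               (CovZ.n1 (-44712, 49104) (by decide +kernel)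
                (CovZ.n2 (-44748, 49140) (by decide +kernel)
                 (CovZ.leaf K2_ok TH_l7257 _)
                 (CovZ.leaf K2_ok TH_l7258 _))
                (CovZ.n1 (-44676, 49140) (by decide +kernel)
                 (CovZ.badM (by decide +kernel))
                 (CovZ.leaf K2_ok TH_l7259 _)))))
             (CovZ.n1 (-44784, 48960) (by decide +kernel)
              (CovZ.n2 (-44856, 49032) (by decide +kernel)
               (CovZ.n2 (-44784, 49032) (by decide +kernel)
                (CovZ.n2 (-44820, 48996) (by decide +kernel)
                 (CovZ.leaf K2_ok TH_l7260 _)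
                 (CovZ.leaf K2_ok TH_l7261 _))
                (CovZ.n1 (-44820, 49068) (by decide +kernel)
                 (CovZ.leaf K2_ok TH_l7262 _)
                 (CovZ.leaf K2_ok TH_l7263 _)))
               (CovZ.n1 (-44856, 48960) (by decide +kernel)
                (CovZ.n2 (-44892, 48996) (by decide +kernel)
                 (CovZ.leaf K2_ok TH_l7264 _)
                 (CovZ.leaf K2_ok TH_l7265 _))
                (CovZ.leaf K2_ok TH_l7266 _)))
              (CovZ.n1 (-44712, 49032) (by decide +kernel)
               (CovZ.badM (by decide +kernel))
               (CovZ.n1 (-44784, 49032) (by decide +kernel)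
                (CovZ.n2 (-44748, 49068) (by decide +kernel)
                 (CovZ.badM (by decide +kernel))
                 (CovZ.leaf K2_ok TH_l7267 _))
                (CovZ.badM (by decide +kernel))))))
            (CovZ.badM (by decide +kernel)))
           (CovZ.n1 (-44928, 49248) (by decide +kernel)
            (CovZ.n2 (-44784, 49392) (by decide +kernel)
             (CovZ.n2 (-44784, 49248) (by decide +kernel)
              (CovZ.n2 (-44856, 49320) (by decide +kernel)
               (CovZ.n2 (-44784, 49320) (by decide +kernel)
                (CovZ.leaf K2_ok TH_l7268 _)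
                (CovZ.n1 (-44820, 49356) (by decide +kernel)
                 (CovZ.leaf K2_ok TH_l7269 _)
                 (CovZ.leaf K2_ok TH_l7270 _)))
               (CovZ.n1 (-44856, 49248) (by decide +kernel)
                (CovZ.leaf K2_ok TH_l7271 _)
                (CovZ.n1 (-44820, 49284) (by decide +kernel)
                 (CovZ.leaf K2_ok TH_l7272 _)
                 (CovZ.leaf K2_ok TH_l7273 _))))
              (CovZ.n1 (-44712, 49320) (by decide +kernel)
               (CovZ.n2 (-44712, 49248) (by decide +kernel)
                (CovZ.n2 (-44748, 49284) (by decide +kernel)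
                 (CovZ.leaf K2_ok TH_l7274 _)
                 (CovZ.leaf K2_ok TH_l7275 _))
                (CovZ.n1 (-44676, 49284) (by decide +kernel)
                 (CovZ.n2 (-44676, 49248) (by decide +kernel)
                  (CovZ.leaf K2_ok TH_l7276 _)
                  (CovZ.leaf K2_ok TH_l7277 _))
                 (CovZ.leaf K2_ok TH_l7278 _)))
               (CovZ.n1 (-44784, 49320) (by decide +kernel)
                (CovZ.n2 (-44748, 49356) (by decide +kernel)
                 (CovZ.leaf K2_ok TH_l7279 _)
                 (CovZ.leaf K2_ok TH_l7280 _))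
                (CovZ.n1 (-44748, 49284) (by decide +kernel)
                 (CovZ.leaf K2_ok TH_l7281 _)
                 (CovZ.leaf K2_ok TH_l7282 _)))))
             (CovZ.n1 (-44928, 49392) (by decide +kernel)
              (CovZ.n2 (-44856, 49464) (by decide +kernel)
               (CovZ.n2 (-44856, 49392) (by decide +kernel)
                (CovZ.leaf K2_ok TH_l7283 _)
                (CovZ.leaf K2_ok TH_l7284 _))
               (CovZ.leaf K2_ok TH_l7285 _))
              (CovZ.n1 (-44856, 49320) (by decide +kernel)
               (CovZ.n2 (-44928, 49320) (by decide +kernel)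
                (CovZ.leaf K2_ok TH_l7286 _)
                (CovZ.leaf K2_ok TH_l7287 _))
               (CovZ.n1 (-44856, 49392) (by decide +kernel)
                (CovZ.n2 (-44820, 49356) (by decide +kernel)
                 (CovZ.leaf K2_ok TH_l7288 _)
                 (CovZ.leaf K2_ok TH_l7289 _))
                (CovZ.leaf K2_ok TH_l7290 _)))))
            (CovZ.n1 (-44784, 49104) (by decide +kernel)
             (CovZ.n2 (-44928, 49104) (by decide +kernel)
              (CovZ.n2 (-44856, 49176) (by decide +kernel)
               (CovZ.n2 (-44856, 49104) (by decide +kernel)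
                (CovZ.leaf K2_ok TH_l7291 _)
                (CovZ.n1 (-44820, 49140) (by decide +kernel)
                 (CovZ.leaf K2_ok TH_l7292 _)
                 (CovZ.leaf K2_ok TH_l7293 _)))
               (CovZ.n1 (-44928, 49176) (by decide +kernel)
                (CovZ.leaf K2_ok TH_l7294 _)
                (CovZ.n1 (-44892, 49140) (by decide +kernel)
                 (CovZ.leaf K2_ok TH_l7295 _)
                 (CovZ.leaf K2_ok TH_l7296 _))))
              (CovZ.n1 (-44856, 49032) (by decide +kernel)
               (CovZ.n2 (-44928, 49032) (by decide +kernel)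
                (CovZ.n2 (-44892, 49068) (by decide +kernel)
                 (CovZ.leaf K2_ok TH_l7297 _)
                 (CovZ.leaf K2_ok TH_l7298 _))
                (CovZ.n1 (-44892, 48996) (by decide +kernel)
                 (CovZ.leaf K2_ok TH_l7299 _)
                 (CovZ.leaf K2_ok TH_l7300 _)))
               (CovZ.n1 (-44856, 49104) (by decide +kernel)
                (CovZ.n2 (-44820, 49068) (by decide +kernel)
                 (CovZ.leaf K2_ok TH_l7301 _)
                 (CovZ.leaf K2_ok TH_l7302 _))
                (CovZ.leaf K2_ok TH_l7303 _))))
             (CovZ.n1 (-44784, 49248) (by decide +kernel)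
              (CovZ.n2 (-44712, 49176) (by decide +kernel)
               (CovZ.n2 (-44784, 49176) (by decide +kernel)
                (CovZ.n2 (-44748, 49212) (by decide +kernel)
                 (CovZ.leaf K2_ok TH_l7304 _)
                 (CovZ.leaf K2_ok TH_l7305 _))
                (CovZ.n1 (-44748, 49140) (by decide +kernel)
                 (CovZ.leaf K2_ok TH_l7306 _)
                 (CovZ.n1 (-44748, 49176) (by decide +kernel)
                  (CovZ.leaf K2_ok TH_l7307 _)
                  (CovZ.leaf K2_ok TH_l7308 _))))
               (CovZ.n1 (-44712, 49248) (by decide +kernel)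
                (CovZ.n2 (-44676, 49212) (by decide +kernel)
                 (CovZ.leaf K2_ok TH_l7309 _)
                 (CovZ.n1 (-44676, 49248) (by decide +kernel)
                  (CovZ.leaf K2_ok TH_l7310 _)
                  (CovZ.leaf K2_ok TH_l7311 _)))
                (CovZ.n1 (-44748, 49212) (by decide +kernel)
                 (CovZ.n2 (-44748, 49248) (by decide +kernel)
                  (CovZ.leaf K2_ok TH_l7312 _)
                  (CovZ.leaf K2_ok TH_l7313 _))
                 (CovZ.leaf K2_ok TH_l7314 _))))
              (CovZ.n1 (-44856, 49176) (by decide +kernel)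
               (CovZ.n2 (-44856, 49248) (by decide +kernel)
                (CovZ.n2 (-44820, 49212) (by decide +kernel)
                 (CovZ.leaf K2_ok TH_l7315 _)
                 (CovZ.leaf K2_ok TH_l7316 _))
                (CovZ.leaf K2_ok TH_l7317 _))
               (CovZ.n1 (-44784, 49176) (by decide +kernel)
                (CovZ.n2 (-44820, 49140) (by decide +kernel)
                 (CovZ.leaf K2_ok TH_l7318 _)
                 (CovZ.leaf K2_ok TH_l7319 _))
                (CovZ.n1 (-44820, 49212) (by decide +kernel)
                 (CovZ.leaf K2_ok TH_l7320 _)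
                 (CovZ.leaf K2_ok TH_l7321 _))))))))
          (CovZ.n1 (-44640, 48672) (by decide +kernel)
           (CovZ.n2 (-44928, 48672) (by decide +kernel)
            (CovZ.n2 (-44784, 48816) (by decide +kernel)
             (CovZ.badM (by decide +kernel))
             (CovZ.n1 (-44928, 48816) (by decide +kernel)
              (CovZ.n2 (-44856, 48888) (by decide +kernel)
               (CovZ.badM (by decide +kernel))
               (CovZ.n1 (-44928, 48888) (by decide +kernel)
                (CovZ.n2 (-44892, 48924) (by decide +kernel)
                 (CovZ.leaf K2_ok TH_l7322 _)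
                 (CovZ.leaf K2_ok TH_l7323 _))
                (CovZ.n1 (-44892, 48852) (by decide +kernel)
                 (CovZ.leaf K2_ok TH_l7324 _)
                 (CovZ.leaf K2_ok TH_l7325 _))))
              (CovZ.badM (by decide +kernel))))
            (CovZ.badM (by decide +kernel)))
           (CovZ.n1 (-44640, 48960) (by decide +kernel)
            (CovZ.badM (by decide +kernel))
            (CovZ.n1 (-44784, 48816) (by decide +kernel)
             (CovZ.n2 (-44784, 48960) (by decide +kernel)
              (CovZ.badM (by decide +kernel))
              (CovZ.n1 (-44856, 48888) (by decide +kernel)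
               (CovZ.n2 (-44856, 48960) (by decide +kernel)
                (CovZ.n2 (-44820, 48924) (by decide +kernel)
                 (CovZ.leaf K2_ok TH_l7326 _)
                 (CovZ.leaf K2_ok TH_l7327 _))
                (CovZ.n1 (-44892, 48924) (by decide +kernel)
                 (CovZ.leaf K2_ok TH_l7328 _)
                 (CovZ.leaf K2_ok TH_l7329 _)))
               (CovZ.badM (by decide +kernel))))
             (CovZ.badM (by decide +kernel))))))))

theorem TH_u97 : CovZ TH_M (toL (selN TH_LN 3112881570595144052133994428602971302847511457463009280)) [0, 7, 6, 1] (-46080, 50688) (-46080, 49536) (-44928, 49536) :=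
    (CovZ.n2 (-45504, 50112) (by decide +kernel)
        (CovZ.n2 (-45504, 49536) (by decide +kernel)
         (CovZ.n2 (-45792, 49824) (by decide +kernel)
          (CovZ.subM 3112881567383836743540392398899065529225563841935441920 (by decide +kernel)
           (CovZ.n2 (-45504, 49824) (by decide +kernel)
            (CovZ.n2 (-45648, 49680) (by decide +kernel)
             (CovZ.n2 (-45648, 49824) (by decide +kernel)
              (CovZ.leaf K2_ok TH_l7330 _)
              (CovZ.leaf K2_ok TH_l7331 _))
             (CovZ.n1 (-45504, 49680) (by decide +kernel)
              (CovZ.leaf K2_ok TH_l7332 _)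
              (CovZ.leaf K2_ok TH_l7333 _)))
            (CovZ.n1 (-45648, 49968) (by decide +kernel)
             (CovZ.n2 (-45504, 49968) (by decide +kernel)
              (CovZ.leaf K2_ok TH_l7334 _)
              (CovZ.leaf K2_ok TH_l7335 _))
             (CovZ.n1 (-45648, 49824) (by decide +kernel)
              (CovZ.leaf K2_ok TH_l7336 _)
              (CovZ.leaf K2_ok TH_l7337 _)))))
          (CovZ.n1 (-45792, 49536) (by decide +kernel)
           (CovZ.n2 (-45936, 49680) (by decide +kernel)
            (CovZ.badM (by decide +kernel))
            (CovZ.n1 (-45936, 49536) (by decide +kernel)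
             (CovZ.leaf K2_ok TH_l7338 _)
             (CovZ.badM (by decide +kernel))))
           (CovZ.subM 3112881567383836743540392398899065529225563841935441920 (by decide +kernel)
            (CovZ.n1 (-45648, 49680) (by decide +kernel)
             (CovZ.n2 (-45648, 49536) (by decide +kernel)
              (CovZ.leaf K2_ok TH_l7339 _)
              (CovZ.leaf K2_ok TH_l7340 _))
             (CovZ.n1 (-45792, 49680) (by decide +kernel)
              (CovZ.leaf K2_ok TH_l7341 _)
              (CovZ.leaf K2_ok TH_l7342 _))))))
         (CovZ.subM 3112881567383836743540392398899065529225563841935441920 (by decide +kernel)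
          (CovZ.n1 (-45216, 49824) (by decide +kernel)
           (CovZ.n2 (-45216, 49536) (by decide +kernel)
            (CovZ.n2 (-45360, 49680) (by decide +kernel)
             (CovZ.n2 (-45216, 49680) (by decide +kernel)
              (CovZ.n2 (-45288, 49608) (by decide +kernel)
               (CovZ.leaf K2_ok TH_l7343 _)
               (CovZ.leaf K2_ok TH_l7344 _))
              (CovZ.n1 (-45288, 49752) (by decide +kernel)
               (CovZ.leaf K2_ok TH_l7345 _)
               (CovZ.leaf K2_ok TH_l7346 _)))
             (CovZ.n1 (-45360, 49536) (by decide +kernel)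
              (CovZ.leaf K2_ok TH_l7347 _)
              (CovZ.leaf K2_ok TH_l7348 _)))
            (CovZ.n1 (-45072, 49680) (by decide +kernel)
             (CovZ.n2 (-45072, 49536) (by decide +kernel)
              (CovZ.n2 (-45144, 49608) (by decide +kernel)
               (CovZ.leaf K2_ok TH_l7349 _)
               (CovZ.leaf K2_ok TH_l7350 _))
              (CovZ.n1 (-45000, 49608) (by decide +kernel)
               (CovZ.n2 (-45000, 49536) (by decide +kernel)
                (CovZ.leaf K2_ok TH_l7351 _)
                (CovZ.leaf K2_ok TH_l7352 _))
               (CovZ.leaf K2_ok TH_l7353 _)))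
             (CovZ.n1 (-45216, 49680) (by decide +kernel)
              (CovZ.n2 (-45144, 49752) (by decide +kernel)
               (CovZ.leaf K2_ok TH_l7354 _)
               (CovZ.leaf K2_ok TH_l7355 _))
              (CovZ.n1 (-45144, 49608) (by decide +kernel)
               (CovZ.leaf K2_ok TH_l7356 _)
               (CovZ.n1 (-45144, 49680) (by decide +kernel)
                (CovZ.leaf K2_ok TH_l7357 _)
                (CovZ.leaf K2_ok TH_l7358 _))))))
           (CovZ.n1 (-45504, 49824) (by decide +kernel)
            (CovZ.n2 (-45360, 49968) (by decide +kernel)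
             (CovZ.n2 (-45360, 49824) (by decide +kernel)
              (CovZ.leaf K2_ok TH_l7359 _)
              (CovZ.leaf K2_ok TH_l7360 _))
             (CovZ.n1 (-45504, 49968) (by decide +kernel)
              (CovZ.leaf K2_ok TH_l7361 _)
              (CovZ.leaf K2_ok TH_l7362 _)))
            (CovZ.n1 (-45360, 49680) (by decide +kernel)
             (CovZ.n2 (-45504, 49680) (by decide +kernel)
              (CovZ.leaf K2_ok TH_l7363 _)
              (CovZ.n1 (-45432, 49608) (by decide +kernel)
               (CovZ.leaf K2_ok TH_l7364 _)
               (CovZ.leaf K2_ok TH_l7365 _)))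
             (CovZ.n1 (-45360, 49824) (by decide +kernel)
              (CovZ.n2 (-45288, 49752) (by decide +kernel)
               (CovZ.leaf K2_ok TH_l7366 _)
               (CovZ.leaf K2_ok TH_l7367 _))
              (CovZ.leaf K2_ok TH_l7368 _)))))))
        (CovZ.n1 (-46080, 50112) (by decide +kernel)
         (CovZ.n2 (-45792, 50400) (by decide +kernel)
          (CovZ.n2 (-45792, 50112) (by decide +kernel)
           (CovZ.n2 (-45936, 50256) (by decide +kernel)
            (CovZ.badM (by decide +kernel))
            (CovZ.n1 (-45936, 50112) (by decide +kernel)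
             (CovZ.leaf K2_ok TH_l7369 _)
             (CovZ.badM (by decide +kernel))))
           (CovZ.n1 (-45648, 50256) (by decide +kernel)
            (CovZ.n2 (-45648, 50112) (by decide +kernel)
             (CovZ.leaf K2_ok TH_l7370 _)
             (CovZ.leaf K2_ok TH_l7371 _))
            (CovZ.leaf K2_ok TH_l7372 _)))
          (CovZ.subM 2854495385417112059439334281259573556553973760 (by decide +kernel)
           (CovZ.n1 (-46080, 50400) (by decide +kernel)
            (CovZ.n2 (-45936, 50544) (by decide +kernel)
             (CovZ.leaf K2_ok TH_l7373 _)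
             (CovZ.leaf K2_ok TH_l7374 _))
            (CovZ.n1 (-45936, 50256) (by decide +kernel)
             (CovZ.leaf K2_ok TH_l7375 _)
             (CovZ.n1 (-45936, 50400) (by decide +kernel)
              (CovZ.badM (by decide +kernel))
              (CovZ.leaf K2_ok TH_l7376 _))))))
         (CovZ.n1 (-45792, 49824) (by decide +kernel)
          (CovZ.subM 2854495385417112059439334281259573556553973760 (by decide +kernel)
           (CovZ.n2 (-46080, 49824) (by decide +kernel)
            (CovZ.n2 (-45936, 49968) (by decide +kernel)
             (CovZ.leaf K2_ok TH_l7377 _)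
             (CovZ.leaf K2_ok TH_l7378 _))
            (CovZ.n1 (-45936, 49680) (by decide +kernel)
             (CovZ.leaf K2_ok TH_l7379 _)
             (CovZ.n1 (-45936, 49824) (by decide +kernel)
              (CovZ.badM (by decide +kernel))
              (CovZ.leaf K2_ok TH_l7380 _)))))
          (CovZ.n1 (-45792, 50112) (by decide +kernel)
           (CovZ.n2 (-45648, 49968) (by decide +kernel)
            (CovZ.leaf K2_ok TH_l7381 _)
            (CovZ.n1 (-45648, 50112) (by decide +kernel)
             (CovZ.leaf K2_ok TH_l7382 _)
             (CovZ.leaf K2_ok TH_l7383 _)))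
           (CovZ.n1 (-45936, 49968) (by decide +kernel)
            (CovZ.n2 (-45936, 50112) (by decide +kernel)
             (CovZ.badM (by decide +kernel))
             (CovZ.leaf K2_ok TH_l7384 _))
            (CovZ.badM (by decide +kernel)))))))

theorem TH_u98 : CovZ TH_M (toL (selN TH_LN 3112881570595144052133994428602971302847511457463009280)) [0, 7, 6, 1] (-46080, 49536) (-46080, 48384) (-44928, 49536) :=
    (CovZ.n1 (-45504, 48960) (by decide +kernel)
        (CovZ.n2 (-46080, 48960) (by decide +kernel)
         (CovZ.n2 (-45792, 49248) (by decide +kernel)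
          (CovZ.n2 (-45792, 48960) (by decide +kernel)
           (CovZ.n2 (-45936, 49104) (by decide +kernel)
            (CovZ.badM (by decide +kernel))
            (CovZ.n1 (-45936, 48960) (by decide +kernel)
             (CovZ.leaf K2_ok TH_l7385 _)
             (CovZ.badM (by decide +kernel))))
           (CovZ.subM 3112881567383836743540392398899065529225563841935441920 (by decide +kernel)
            (CovZ.n1 (-45648, 49104) (by decide +kernel)
             (CovZ.n2 (-45648, 48960) (by decide +kernel)
              (CovZ.leaf K2_ok TH_l7386 _)
              (CovZ.leaf K2_ok TH_l7387 _))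
             (CovZ.n1 (-45792, 49104) (by decide +kernel)
              (CovZ.leaf K2_ok TH_l7388 _)
              (CovZ.leaf K2_ok TH_l7389 _)))))
          (CovZ.subM 2854495385417112059439334281259573556553973760 (by decide +kernel)
           (CovZ.n1 (-46080, 49248) (by decide +kernel)
            (CovZ.n2 (-45936, 49392) (by decide +kernel)
             (CovZ.n2 (-45936, 49248) (by decide +kernel)
              (CovZ.leaf K2_ok TH_l7390 _)
              (CovZ.badM (by decide +kernel)))
             (CovZ.leaf K2_ok TH_l7391 _))
            (CovZ.n1 (-45936, 49104) (by decide +kernel)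
             (CovZ.n2 (-46080, 49104) (by decide +kernel)
              (CovZ.leaf K2_ok TH_l7392 _)
              (CovZ.leaf K2_ok TH_l7393 _))
             (CovZ.n1 (-45936, 49248) (by decide +kernel)
              (CovZ.badM (by decide +kernel))
              (CovZ.leaf K2_ok TH_l7394 _))))))
         (CovZ.n1 (-45792, 48672) (by decide +kernel)
          (CovZ.n2 (-46080, 48672) (by decide +kernel)
           (CovZ.n2 (-45936, 48816) (by decide +kernel)
            (CovZ.n2 (-45936, 48672) (by decide +kernel)
             (CovZ.leaf K2_ok TH_l7395 _)
             (CovZ.badM (by decide +kernel)))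
            (CovZ.leaf K2_ok TH_l7396 _))
           (CovZ.n1 (-45936, 48528) (by decide +kernel)
            (CovZ.n2 (-46080, 48528) (by decide +kernel)
             (CovZ.leaf K2_ok TH_l7397 _)
             (CovZ.leaf K2_ok TH_l7398 _))
            (CovZ.n1 (-45936, 48672) (by decide +kernel)
             (CovZ.badM (by decide +kernel))
             (CovZ.leaf K2_ok TH_l7399 _))))
          (CovZ.n1 (-45792, 48960) (by decide +kernel)
           (CovZ.subM 3112881567383836743540392398899065529225563841935441920 (by decide +kernel)
            (CovZ.n2 (-45648, 48816) (by decide +kernel)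
             (CovZ.n2 (-45792, 48816) (by decide +kernel)
              (CovZ.n2 (-45720, 48888) (by decide +kernel)
               (CovZ.leaf K2_ok TH_l7400 _)
               (CovZ.badM (by decide +kernel)))
              (CovZ.leaf K2_ok TH_l7401 _))
             (CovZ.n1 (-45648, 48960) (by decide +kernel)
              (CovZ.n2 (-45576, 48888) (by decide +kernel)
               (CovZ.leaf K2_ok TH_l7402 _)
               (CovZ.leaf K2_ok TH_l7403 _))
              (CovZ.leaf K2_ok TH_l7404 _))))
           (CovZ.n1 (-45936, 48816) (by decide +kernel)
            (CovZ.n2 (-45936, 48960) (by decide +kernel)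
             (CovZ.badM (by decide +kernel))
             (CovZ.leaf K2_ok TH_l7405 _))
            (CovZ.badM (by decide +kernel))))))
        (CovZ.n1 (-45504, 49536) (by decide +kernel)
         (CovZ.subM 3112881567383836743540392398899065529225563841935441920 (by decide +kernel)
          (CovZ.n2 (-45216, 49248) (by decide +kernel)
           (CovZ.n2 (-45504, 49248) (by decide +kernel)
            (CovZ.n2 (-45360, 49392) (by decide +kernel)
             (CovZ.n2 (-45360, 49248) (by decide +kernel)
              (CovZ.leaf K2_ok TH_l7406 _)
              (CovZ.n1 (-45288, 49320) (by decide +kernel)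
               (CovZ.leaf K2_ok TH_l7407 _)
               (CovZ.leaf K2_ok TH_l7408 _)))
             (CovZ.n1 (-45504, 49392) (by decide +kernel)
              (CovZ.leaf K2_ok TH_l7409 _)
              (CovZ.n1 (-45432, 49320) (by decide +kernel)
               (CovZ.leaf K2_ok TH_l7410 _)
               (CovZ.leaf K2_ok TH_l7411 _))))
            (CovZ.n1 (-45360, 49104) (by decide +kernel)
             (CovZ.n2 (-45504, 49104) (by decide +kernel)
              (CovZ.n2 (-45432, 49176) (by decide +kernel)
               (CovZ.leaf K2_ok TH_l7412 _)
               (CovZ.leaf K2_ok TH_l7413 _))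
              (CovZ.n1 (-45432, 49032) (by decide +kernel)
               (CovZ.leaf K2_ok TH_l7414 _)
               (CovZ.leaf K2_ok TH_l7415 _)))
             (CovZ.n1 (-45360, 49248) (by decide +kernel)
              (CovZ.n2 (-45288, 49176) (by decide +kernel)
               (CovZ.leaf K2_ok TH_l7416 _)
               (CovZ.n1 (-45288, 49248) (by decide +kernel)
                (CovZ.leaf K2_ok TH_l7417 _)
                (CovZ.leaf K2_ok TH_l7418 _)))
              (CovZ.n1 (-45432, 49176) (by decide +kernel)
               (CovZ.leaf K2_ok TH_l7419 _)
               (CovZ.leaf K2_ok TH_l7420 _)))))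
           (CovZ.n1 (-45216, 49536) (by decide +kernel)
            (CovZ.n2 (-45072, 49392) (by decide +kernel)
             (CovZ.n2 (-45216, 49392) (by decide +kernel)
              (CovZ.n2 (-45144, 49464) (by decide +kernel)
               (CovZ.n2 (-45144, 49392) (by decide +kernel)
                (CovZ.leaf K2_ok TH_l7421 _)
                (CovZ.leaf K2_ok TH_l7422 _))
               (CovZ.leaf K2_ok TH_l7423 _))
              (CovZ.n1 (-45144, 49320) (by decide +kernel)
               (CovZ.leaf K2_ok TH_l7424 _)
               (CovZ.n1 (-45144, 49392) (by decide +kernel)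
                (CovZ.leaf K2_ok TH_l7425 _)
                (CovZ.leaf K2_ok TH_l7426 _))))
             (CovZ.n1 (-45072, 49536) (by decide +kernel)
              (CovZ.n2 (-45000, 49464) (by decide +kernel)
               (CovZ.leaf K2_ok TH_l7427 _)
               (CovZ.n1 (-45000, 49536) (by decide +kernel)
                (CovZ.leaf K2_ok TH_l7428 _)
                (CovZ.leaf K2_ok TH_l7429 _)))
              (CovZ.n1 (-45144, 49464) (by decide +kernel)
               (CovZ.n2 (-45144, 49536) (by decide +kernel)
                (CovZ.leaf K2_ok TH_l7430 _)
                (CovZ.leaf K2_ok TH_l7431 _))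
               (CovZ.leaf K2_ok TH_l7432 _))))
            (CovZ.n1 (-45360, 49392) (by decide +kernel)
             (CovZ.n2 (-45360, 49536) (by decide +kernel)
              (CovZ.n2 (-45288, 49464) (by decide +kernel)
               (CovZ.leaf K2_ok TH_l7433 _)
               (CovZ.leaf K2_ok TH_l7434 _))
              (CovZ.n1 (-45432, 49464) (by decide +kernel)
               (CovZ.leaf K2_ok TH_l7435 _)
               (CovZ.leaf K2_ok TH_l7436 _)))
             (CovZ.n1 (-45216, 49392) (by decide +kernel)
              (CovZ.n2 (-45288, 49320) (by decide +kernel)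
               (CovZ.n2 (-45288, 49392) (by decide +kernel)
                (CovZ.leaf K2_ok TH_l7437 _)
                (CovZ.leaf K2_ok TH_l7438 _))
               (CovZ.leaf K2_ok TH_l7439 _))
              (CovZ.n1 (-45288, 49464) (by decide +kernel)
               (CovZ.leaf K2_ok TH_l7440 _)
               (CovZ.leaf K2_ok TH_l7441 _)))))))
         (CovZ.n1 (-45792, 49248) (by decide +kernel)
          (CovZ.n2 (-45792, 49536) (by decide +kernel)
           (CovZ.subM 3112881567383836743540392398899065529225563841935441920 (by decide +kernel)
            (CovZ.n2 (-45648, 49392) (by decide +kernel)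
             (CovZ.n2 (-45792, 49392) (by decide +kernel)
              (CovZ.leaf K2_ok TH_l7442 _)
              (CovZ.leaf K2_ok TH_l7443 _))
             (CovZ.n1 (-45648, 49536) (by decide +kernel)
              (CovZ.n2 (-45576, 49464) (by decide +kernel)
               (CovZ.leaf K2_ok TH_l7444 _)
               (CovZ.leaf K2_ok TH_l7445 _))
              (CovZ.leaf K2_ok TH_l7446 _))))
           (CovZ.n1 (-45936, 49392) (by decide +kernel)
            (CovZ.n2 (-45936, 49536) (by decide +kernel)
             (CovZ.badM (by decide +kernel))
             (CovZ.leaf K2_ok TH_l7447 _))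
            (CovZ.badM (by decide +kernel))))
          (CovZ.subM 3112881567383836743540392398899065529225563841935441920 (by decide +kernel)
           (CovZ.n1 (-45504, 49248) (by decide +kernel)
            (CovZ.n2 (-45648, 49104) (by decide +kernel)
             (CovZ.n2 (-45648, 49248) (by decide +kernel)
              (CovZ.n2 (-45576, 49176) (by decide +kernel)
               (CovZ.leaf K2_ok TH_l7448 _)
               (CovZ.leaf K2_ok TH_l7449 _))
              (CovZ.leaf K2_ok TH_l7450 _))
             (CovZ.n1 (-45504, 49104) (by decide +kernel)
              (CovZ.n2 (-45576, 49032) (by decide +kernel)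
               (CovZ.leaf K2_ok TH_l7451 _)
               (CovZ.leaf K2_ok TH_l7452 _))
              (CovZ.n1 (-45576, 49176) (by decide +kernel)
               (CovZ.leaf K2_ok TH_l7453 _)
               (CovZ.leaf K2_ok TH_l7454 _))))
            (CovZ.n1 (-45648, 49392) (by decide +kernel)
             (CovZ.n2 (-45504, 49392) (by decide +kernel)
              (CovZ.leaf K2_ok TH_l7455 _)
              (CovZ.leaf K2_ok TH_l7456 _))
             (CovZ.n1 (-45648, 49248) (by decide +kernel)
              (CovZ.leaf K2_ok TH_l7457 _)
              (CovZ.leaf K2_ok TH_l7458 _))))))))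

theorem TH_u99 : CovZ TH_M (toL (selN TH_LN 3112881570595144052133994428602971302847511457463009280)) [0, 7, 6, 1] (-44928, 47232) (-45504, 47808) (-46080, 47232) :=
    (CovZ.n2 (-45504, 47232) (by decide +kernel)
         (CovZ.n2 (-45792, 47520) (by decide +kernel)
          (CovZ.subM 3064991081731777716716694054300618367237478244367204352 (by decide +kernel)
           (CovZ.n2 (-45504, 47520) (by decide +kernel)
            (CovZ.n2 (-45648, 47376) (by decide +kernel)
             (CovZ.n2 (-45648, 47520) (by decide +kernel)
              (CovZ.n2 (-45576, 47448) (by decide +kernel)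
               (CovZ.n2 (-45648, 47448) (by decide +kernel)
                (CovZ.leaf K2_ok TH_l7459 _)
                (CovZ.leaf K2_ok TH_l7460 _))
               (CovZ.n1 (-45576, 47520) (by decide +kernel)
                (CovZ.n2 (-45540, 47484) (by decide +kernel)
                 (CovZ.leaf K2_ok TH_l7461 _)
                 (CovZ.leaf K2_ok TH_l7462 _))
                (CovZ.leaf K2_ok TH_l7463 _)))
              (CovZ.badM (by decide +kernel)))
             (CovZ.n1 (-45504, 47376) (by decide +kernel)
              (CovZ.n2 (-45576, 47304) (by decide +kernel)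
               (CovZ.n2 (-45576, 47376) (by decide +kernel)
                (CovZ.leaf K2_ok TH_l7464 _)
                (CovZ.n1 (-45612, 47340) (by decide +kernel)
                 (CovZ.leaf K2_ok TH_l7465 _)
                 (CovZ.leaf K2_ok TH_l7466 _)))
               (CovZ.n1 (-45504, 47304) (by decide +kernel)
                (CovZ.n2 (-45540, 47268) (by decide +kernel)
                 (CovZ.leaf K2_ok TH_l7467 _)
                 (CovZ.badM (by decide +kernel)))
                (CovZ.n1 (-45540, 47340) (by decide +kernel)
                 (CovZ.badM (by decide +kernel))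
                 (CovZ.leaf K2_ok TH_l7468 _))))
              (CovZ.n1 (-45576, 47448) (by decide +kernel)
               (CovZ.n2 (-45504, 47448) (by decide +kernel)
                (CovZ.n2 (-45540, 47412) (by decide +kernel)
                 (CovZ.leaf K2_ok TH_l7469 _)
                 (CovZ.leaf K2_ok TH_l7470 _))
                (CovZ.leaf K2_ok TH_l7471 _))
               (CovZ.n1 (-45576, 47376) (by decide +kernel)
                (CovZ.n2 (-45612, 47412) (by decide +kernel)
                 (CovZ.leaf K2_ok TH_l7472 _)
                 (CovZ.leaf K2_ok TH_l7473 _))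
                (CovZ.leaf K2_ok TH_l7474 _)))))
            (CovZ.n1 (-45648, 47664) (by decide +kernel)
             (CovZ.n2 (-45504, 47664) (by decide +kernel)
              (CovZ.n2 (-45576, 47592) (by decide +kernel)
               (CovZ.n2 (-45576, 47664) (by decide +kernel)
                (CovZ.n2 (-45540, 47628) (by decide +kernel)
                 (CovZ.leaf K2_ok TH_l7475 _)
                 (CovZ.leaf K2_ok TH_l7476 _))
                (CovZ.leaf K2_ok TH_l7477 _))
               (CovZ.n1 (-45504, 47592) (by decide +kernel)
                (CovZ.leaf K2_ok TH_l7478 _)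
                (CovZ.leaf K2_ok TH_l7479 _)))
              (CovZ.n1 (-45576, 47736) (by decide +kernel)
               (CovZ.n2 (-45504, 47736) (by decide +kernel)
                (CovZ.leaf K2_ok TH_l7480 _)
                (CovZ.n1 (-45540, 47772) (by decide +kernel)
                 (CovZ.leaf K2_ok TH_l7481 _)
                 (CovZ.leaf K2_ok TH_l7482 _)))
               (CovZ.n1 (-45576, 47664) (by decide +kernel)
                (CovZ.leaf K2_ok TH_l7483 _)
                (CovZ.leaf K2_ok TH_l7484 _))))
             (CovZ.n1 (-45648, 47520) (by decide +kernel)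
              (CovZ.badM (by decide +kernel))
              (CovZ.n1 (-45576, 47592) (by decide +kernel)
               (CovZ.n2 (-45576, 47520) (by decide +kernel)
                (CovZ.leaf K2_ok TH_l7485 _)
                (CovZ.leaf K2_ok TH_l7486 _))
               (CovZ.n1 (-45648, 47592) (by decide +kernel)
                (CovZ.leaf K2_ok TH_l7487 _)
                (CovZ.leaf K2_ok TH_l7488 _)))))))
          (CovZ.n1 (-45792, 47232) (by decide +kernel)
           (CovZ.n2 (-45936, 47376) (by decide +kernel)
            (CovZ.badM (by decide +kernel))
            (CovZ.n1 (-45936, 47232) (by decide +kernel)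
             (CovZ.n2 (-46008, 47304) (by decide +kernel)
              (CovZ.leaf K2_ok TH_l7489 _)
              (CovZ.leaf K2_ok TH_l7490 _))
             (CovZ.n1 (-45864, 47304) (by decide +kernel)
              (CovZ.n2 (-45864, 47232) (by decide +kernel)
               (CovZ.leaf K2_ok TH_l7491 _)
               (CovZ.badM (by decide +kernel)))
              (CovZ.leaf K2_ok TH_l7492 _))))
           (CovZ.subM 3064991081731777716716694054300618367237478244367204352 (by decide +kernel)
            (CovZ.n1 (-45648, 47376) (by decide +kernel)
             (CovZ.n2 (-45648, 47232) (by decide +kernel)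
              (CovZ.badM (by decide +kernel))
              (CovZ.n1 (-45576, 47304) (by decide +kernel)
               (CovZ.n2 (-45576, 47232) (by decide +kernel)
                (CovZ.n2 (-45612, 47268) (by decide +kernel)
                 (CovZ.leaf K2_ok TH_l7493 _)
                 (CovZ.leaf K2_ok TH_l7494 _))
                (CovZ.leaf K2_ok TH_l7495 _))
               (CovZ.n1 (-45648, 47304) (by decide +kernel)
                (CovZ.leaf K2_ok TH_l7496 _)
                (CovZ.n1 (-45612, 47268) (by decide +kernel)
                 (CovZ.badM (by decide +kernel))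
                 (CovZ.leaf K2_ok TH_l7497 _)))))
             (CovZ.badM (by decide +kernel))))))
         (CovZ.subM 3064991081731777716716694054300618367237478244367204352 (by decide +kernel)
          (CovZ.n1 (-45216, 47520) (by decide +kernel)
           (CovZ.badM (by decide +kernel))
           (CovZ.n1 (-45504, 47520) (by decide +kernel)
            (CovZ.n2 (-45360, 47664) (by decide +kernel)
             (CovZ.n2 (-45360, 47520) (by decide +kernel)
              (CovZ.n2 (-45432, 47592) (by decide +kernel)
               (CovZ.n2 (-45360, 47592) (by decide +kernel)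
                (CovZ.n2 (-45396, 47556) (by decide +kernel)
                 (CovZ.leaf K2_ok TH_l7498 _)
                 (CovZ.badM (by decide +kernel)))
                (CovZ.n1 (-45396, 47628) (by decide +kernel)
                 (CovZ.leaf K2_ok TH_l7499 _)
                 (CovZ.n1 (-45396, 47592) (by decide +kernel)
                  (CovZ.leaf K2_ok TH_l7500 _)
                  (CovZ.leaf K2_ok TH_l7501 _))))
               (CovZ.n1 (-45432, 47520) (by decide +kernel)
                (CovZ.n2 (-45468, 47556) (by decide +kernel)
                 (CovZ.leaf K2_ok TH_l7502 _)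
                 (CovZ.leaf K2_ok TH_l7503 _))
                (CovZ.n1 (-45396, 47556) (by decide +kernel)
                 (CovZ.badM (by decide +kernel))
                 (CovZ.leaf K2_ok TH_l7504 _))))
              (CovZ.n1 (-45288, 47592) (by decide +kernel)
               (CovZ.badM (by decide +kernel))
               (CovZ.n1 (-45360, 47592) (by decide +kernel)
                (CovZ.n2 (-45324, 47628) (by decide +kernel)
                 (CovZ.badM (by decide +kernel))
                 (CovZ.leaf K2_ok TH_l7505 _))
                (CovZ.badM (by decide +kernel)))))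
             (CovZ.n1 (-45504, 47664) (by decide +kernel)
              (CovZ.n2 (-45432, 47736) (by decide +kernel)
               (CovZ.n2 (-45432, 47664) (by decide +kernel)
                (CovZ.n2 (-45468, 47700) (by decide +kernel)
                 (CovZ.leaf K2_ok TH_l7506 _)
                 (CovZ.leaf K2_ok TH_l7507 _))
                (CovZ.leaf K2_ok TH_l7508 _))
               (CovZ.n1 (-45504, 47736) (by decide +kernel)
                (CovZ.leaf K2_ok TH_l7509 _)
                (CovZ.leaf K2_ok TH_l7510 _)))
              (CovZ.n1 (-45432, 47592) (by decide +kernel)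
               (CovZ.n2 (-45504, 47592) (by decide +kernel)
                (CovZ.leaf K2_ok TH_l7511 _)
                (CovZ.leaf K2_ok TH_l7512 _))
               (CovZ.n1 (-45432, 47664) (by decide +kernel)
                (CovZ.n2 (-45396, 47628) (by decide +kernel)
                 (CovZ.leaf K2_ok TH_l7513 _)
                 (CovZ.n1 (-45396, 47664) (by decide +kernel)
                  (CovZ.leaf K2_ok TH_l7514 _)
                  (CovZ.leaf K2_ok TH_l7515 _)))
                (CovZ.n1 (-45468, 47628) (by decide +kernel)
                 (CovZ.leaf K2_ok TH_l7516 _)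
                 (CovZ.leaf K2_ok TH_l7517 _))))))
            (CovZ.n1 (-45360, 47376) (by decide +kernel)
             (CovZ.n2 (-45504, 47376) (by decide +kernel)
              (CovZ.n2 (-45432, 47448) (by decide +kernel)
               (CovZ.badM (by decide +kernel))
               (CovZ.n1 (-45504, 47448) (by decide +kernel)
                (CovZ.leaf K2_ok TH_l7518 _)
                (CovZ.n1 (-45468, 47412) (by decide +kernel)
                 (CovZ.leaf K2_ok TH_l7519 _)
                 (CovZ.leaf K2_ok TH_l7520 _))))
              (CovZ.badM (by decide +kernel)))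
             (CovZ.n1 (-45360, 47520) (by decide +kernel)
              (CovZ.badM (by decide +kernel))
              (CovZ.n1 (-45432, 47448) (by decide +kernel)
               (CovZ.n2 (-45432, 47520) (by decide +kernel)
                (CovZ.badM (by decide +kernel))
                (CovZ.n1 (-45468, 47484) (by decide +kernel)
                 (CovZ.leaf K2_ok TH_l7521 _)
                 (CovZ.leaf K2_ok TH_l7522 _)))
               (CovZ.badM (by decide +kernel)))))))))

theorem TH_u100 : CovZ TH_M (toL (selN TH_LN 3112881570595144052133994428602971302847511457463009280)) [0, 7, 6, 1] (-45504, 47808) (-46080, 48384) (-46080, 47232) :=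
    (CovZ.n1 (-46080, 47808) (by decide +kernel)
         (CovZ.n2 (-45792, 48096) (by decide +kernel)
          (CovZ.n2 (-45792, 47808) (by decide +kernel)
           (CovZ.n2 (-45936, 47952) (by decide +kernel)
            (CovZ.badM (by decide +kernel))
            (CovZ.n1 (-45936, 47808) (by decide +kernel)
             (CovZ.n2 (-46008, 47880) (by decide +kernel)
              (CovZ.badM (by decide +kernel))
              (CovZ.leaf K2_ok TH_l7523 _))
             (CovZ.badM (by decide +kernel))))
           (CovZ.subM 3112881567383836743540392398899065529225563841935441920 (by decide +kernel)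
            (CovZ.n1 (-45648, 47952) (by decide +kernel)
             (CovZ.n2 (-45648, 47808) (by decide +kernel)
              (CovZ.n2 (-45720, 47880) (by decide +kernel)
               (CovZ.leaf K2_ok TH_l7524 _)
               (CovZ.n1 (-45720, 47808) (by decide +kernel)
                (CovZ.badM (by decide +kernel))
                (CovZ.leaf K2_ok TH_l7525 _)))
              (CovZ.n1 (-45576, 47880) (by decide +kernel)
               (CovZ.n2 (-45576, 47808) (by decide +kernel)
                (CovZ.leaf K2_ok TH_l7526 _)
                (CovZ.leaf K2_ok TH_l7527 _))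
               (CovZ.n1 (-45648, 47880) (by decide +kernel)
                (CovZ.leaf K2_ok TH_l7528 _)
                (CovZ.leaf K2_ok TH_l7529 _))))
             (CovZ.n1 (-45792, 47952) (by decide +kernel)
              (CovZ.n2 (-45720, 48024) (by decide +kernel)
               (CovZ.n2 (-45720, 47952) (by decide +kernel)
                (CovZ.badM (by decide +kernel))
                (CovZ.leaf K2_ok TH_l7530 _))
               (CovZ.badM (by decide +kernel)))
              (CovZ.n1 (-45720, 47880) (by decide +kernel)
               (CovZ.badM (by decide +kernel))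
               (CovZ.n1 (-45720, 47952) (by decide +kernel)
                (CovZ.leaf K2_ok TH_l7531 _)
                (CovZ.badM (by decide +kernel))))))))
          (CovZ.n1 (-46080, 48096) (by decide +kernel)
           (CovZ.n2 (-45936, 48240) (by decide +kernel)
            (CovZ.n2 (-45936, 48096) (by decide +kernel)
             (CovZ.leaf K2_ok TH_l7532 _)
             (CovZ.badM (by decide +kernel)))
            (CovZ.n1 (-46080, 48240) (by decide +kernel)
             (CovZ.leaf K2_ok TH_l7533 _)
             (CovZ.leaf K2_ok TH_l7534 _)))
           (CovZ.n1 (-45936, 47952) (by decide +kernel)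
            (CovZ.n2 (-46080, 47952) (by decide +kernel)
             (CovZ.leaf K2_ok TH_l7535 _)
             (CovZ.n1 (-46008, 47880) (by decide +kernel)
              (CovZ.leaf K2_ok TH_l7536 _)
              (CovZ.leaf K2_ok TH_l7537 _)))
            (CovZ.n1 (-45936, 48096) (by decide +kernel)
             (CovZ.badM (by decide +kernel))
             (CovZ.n1 (-46008, 48024) (by decide +kernel)
              (CovZ.leaf K2_ok TH_l7538 _)
              (CovZ.badM (by decide +kernel)))))))
         (CovZ.n1 (-45792, 47520) (by decide +kernel)
          (CovZ.n2 (-46080, 47520) (by decide +kernel)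
           (CovZ.n2 (-45936, 47664) (by decide +kernel)
            (CovZ.n2 (-45936, 47520) (by decide +kernel)
             (CovZ.n2 (-46008, 47592) (by decide +kernel)
              (CovZ.badM (by decide +kernel))
              (CovZ.leaf K2_ok TH_l7539 _))
             (CovZ.badM (by decide +kernel)))
            (CovZ.n1 (-46080, 47664) (by decide +kernel)
             (CovZ.n2 (-46008, 47736) (by decide +kernel)
              (CovZ.leaf K2_ok TH_l7540 _)
              (CovZ.leaf K2_ok TH_l7541 _))
             (CovZ.n1 (-46008, 47592) (by decide +kernel)
              (CovZ.leaf K2_ok TH_l7542 _)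
              (CovZ.leaf K2_ok TH_l7543 _))))
           (CovZ.n1 (-45936, 47376) (by decide +kernel)
            (CovZ.n2 (-46080, 47376) (by decide +kernel)
             (CovZ.n2 (-46008, 47448) (by decide +kernel)
              (CovZ.leaf K2_ok TH_l7544 _)
              (CovZ.leaf K2_ok TH_l7545 _))
             (CovZ.n1 (-46008, 47304) (by decide +kernel)
              (CovZ.leaf K2_ok TH_l7546 _)
              (CovZ.leaf K2_ok TH_l7547 _)))
            (CovZ.n1 (-45936, 47520) (by decide +kernel)
             (CovZ.badM (by decide +kernel))
             (CovZ.n1 (-46008, 47448) (by decide +kernel)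
              (CovZ.leaf K2_ok TH_l7548 _)
              (CovZ.badM (by decide +kernel))))))
          (CovZ.n1 (-45792, 47808) (by decide +kernel)
           (CovZ.subM 3112881567383836743540392398899065529225563841935441920 (by decide +kernel)
            (CovZ.n2 (-45648, 47664) (by decide +kernel)
             (CovZ.n2 (-45792, 47664) (by decide +kernel)
              (CovZ.n2 (-45720, 47736) (by decide +kernel)
               (CovZ.n2 (-45720, 47664) (by decide +kernel)
                (CovZ.badM (by decide +kernel))
                (CovZ.leaf K2_ok TH_l7549 _))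
               (CovZ.badM (by decide +kernel)))
              (CovZ.n1 (-45720, 47592) (by decide +kernel)
               (CovZ.badM (by decide +kernel))
               (CovZ.n1 (-45720, 47664) (by decide +kernel)
                (CovZ.leaf K2_ok TH_l7550 _)
                (CovZ.badM (by decide +kernel)))))
             (CovZ.n1 (-45648, 47808) (by decide +kernel)
              (CovZ.n2 (-45576, 47736) (by decide +kernel)
               (CovZ.n2 (-45648, 47736) (by decide +kernel)
                (CovZ.leaf K2_ok TH_l7551 _)
                (CovZ.leaf K2_ok TH_l7552 _))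
               (CovZ.n1 (-45576, 47808) (by decide +kernel)
                (CovZ.leaf K2_ok TH_l7553 _)
                (CovZ.leaf K2_ok TH_l7554 _)))
              (CovZ.n1 (-45720, 47736) (by decide +kernel)
               (CovZ.n2 (-45720, 47808) (by decide +kernel)
                (CovZ.leaf K2_ok TH_l7555 _)
                (CovZ.badM (by decide +kernel)))
               (CovZ.n1 (-45648, 47736) (by decide +kernel)
                (CovZ.leaf K2_ok TH_l7556 _)
                (CovZ.leaf K2_ok TH_l7557 _))))))
           (CovZ.n1 (-45936, 47664) (by decide +kernel)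
            (CovZ.n2 (-45936, 47808) (by decide +kernel)
             (CovZ.badM (by decide +kernel))
             (CovZ.n1 (-46008, 47736) (by decide +kernel)
              (CovZ.leaf K2_ok TH_l7558 _)
              (CovZ.badM (by decide +kernel))))
            (CovZ.badM (by decide +kernel))))))

theorem TH_u101 : CovZ TH_M (toL (selN TH_LN 3112881570595144052133994428602971302847511457463009280)) [0, 7, 6, 1] (-44928, 48384) (-45504, 48384) (-45504, 47808) :=
    (CovZ.subM 3112881567383836743540392398899065529225563841935441920 (by decide +kernel)
          (CovZ.n2 (-45216, 48096) (by decide +kernel)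
           (CovZ.n2 (-45504, 48096) (by decide +kernel)
            (CovZ.n2 (-45360, 48240) (by decide +kernel)
             (CovZ.n2 (-45360, 48096) (by decide +kernel)
              (CovZ.n2 (-45432, 48168) (by decide +kernel)
               (CovZ.n2 (-45360, 48168) (by decide +kernel)
                (CovZ.leaf K2_ok TH_l7591 _)
                (CovZ.leaf K2_ok TH_l7592 _))
               (CovZ.n1 (-45432, 48096) (by decide +kernel)
                (CovZ.leaf K2_ok TH_l7593 _)
                (CovZ.leaf K2_ok TH_l7594 _)))
              (CovZ.n1 (-45288, 48168) (by decide +kernel)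
               (CovZ.n2 (-45288, 48096) (by decide +kernel)
                (CovZ.leaf K2_ok TH_l7595 _)
                (CovZ.n1 (-45252, 48132) (by decide +kernel)
                 (CovZ.leaf K2_ok TH_l7596 _)
                 (CovZ.leaf K2_ok TH_l7597 _)))
               (CovZ.n1 (-45360, 48168) (by decide +kernel)
                (CovZ.leaf K2_ok TH_l7598 _)
                (CovZ.leaf K2_ok TH_l7599 _))))
             (CovZ.n1 (-45504, 48240) (by decide +kernel)
              (CovZ.n2 (-45432, 48312) (by decide +kernel)
               (CovZ.n2 (-45432, 48240) (by decide +kernel)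
                (CovZ.leaf K2_ok TH_l7600 _)
                (CovZ.leaf K2_ok TH_l7601 _))
               (CovZ.leaf K2_ok TH_l7602 _))
              (CovZ.n1 (-45432, 48168) (by decide +kernel)
               (CovZ.leaf K2_ok TH_l7603 _)
               (CovZ.n1 (-45432, 48240) (by decide +kernel)
                (CovZ.leaf K2_ok TH_l7604 _)
                (CovZ.leaf K2_ok TH_l7605 _)))))
            (CovZ.n1 (-45360, 47952) (by decide +kernel)
             (CovZ.n2 (-45504, 47952) (by decide +kernel)
              (CovZ.n2 (-45432, 48024) (by decide +kernel)
               (CovZ.n2 (-45432, 47952) (by decide +kernel)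
                (CovZ.leaf K2_ok TH_l7606 _)
                (CovZ.leaf K2_ok TH_l7607 _))
               (CovZ.n1 (-45504, 48024) (by decide +kernel)
                (CovZ.leaf K2_ok TH_l7608 _)
                (CovZ.leaf K2_ok TH_l7609 _)))
              (CovZ.n1 (-45432, 47880) (by decide +kernel)
               (CovZ.n2 (-45504, 47880) (by decide +kernel)
                (CovZ.leaf K2_ok TH_l7610 _)
                (CovZ.leaf K2_ok TH_l7611 _))
               (CovZ.n1 (-45432, 47952) (by decide +kernel)
                (CovZ.n2 (-45396, 47916) (by decide +kernel)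
                 (CovZ.leaf K2_ok TH_l7612 _)
                 (CovZ.leaf K2_ok TH_l7613 _))
                (CovZ.leaf K2_ok TH_l7614 _))))
             (CovZ.n1 (-45360, 48096) (by decide +kernel)
              (CovZ.n2 (-45288, 48024) (by decide +kernel)
               (CovZ.n2 (-45360, 48024) (by decide +kernel)
                (CovZ.leaf K2_ok TH_l7615 _)
                (CovZ.n1 (-45324, 47988) (by decide +kernel)
                 (CovZ.leaf K2_ok TH_l7616 _)
                 (CovZ.leaf K2_ok TH_l7617 _)))
               (CovZ.n1 (-45288, 48096) (by decide +kernel)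
                (CovZ.n2 (-45252, 48060) (by decide +kernel)
                 (CovZ.leaf K2_ok TH_l7618 _)
                 (CovZ.leaf K2_ok TH_l7619 _))
                (CovZ.leaf K2_ok TH_l7620 _)))
              (CovZ.n1 (-45432, 48024) (by decide +kernel)
               (CovZ.n2 (-45432, 48096) (by decide +kernel)
                (CovZ.leaf K2_ok TH_l7621 _)
                (CovZ.leaf K2_ok TH_l7622 _))
               (CovZ.n1 (-45360, 48024) (by decide +kernel)
                (CovZ.leaf K2_ok TH_l7623 _)
                (CovZ.leaf K2_ok TH_l7624 _))))))
           (CovZ.n1 (-45216, 48384) (by decide +kernel)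
            (CovZ.n2 (-45072, 48240) (by decide +kernel)
             (CovZ.n2 (-45216, 48240) (by decide +kernel)
              (CovZ.n2 (-45144, 48312) (by decide +kernel)
               (CovZ.n2 (-45144, 48240) (by decide +kernel)
                (CovZ.n2 (-45180, 48276) (by decide +kernel)
                 (CovZ.leaf K2_ok TH_l7625 _)
                 (CovZ.leaf K2_ok TH_l7626 _))
                (CovZ.n1 (-45108, 48276) (by decide +kernel)
                 (CovZ.leaf K2_ok TH_l7627 _)
                 (CovZ.leaf K2_ok TH_l7628 _)))
               (CovZ.n1 (-45216, 48312) (by decide +kernel)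
                (CovZ.n2 (-45180, 48348) (by decide +kernel)
                 (CovZ.leaf K2_ok TH_l7629 _)
                 (CovZ.leaf K2_ok TH_l7630 _))
                (CovZ.leaf K2_ok TH_l7631 _)))
              (CovZ.n1 (-45144, 48168) (by decide +kernel)
               (CovZ.n2 (-45216, 48168) (by decide +kernel)
                (CovZ.n2 (-45180, 48204) (by decide +kernel)
                 (CovZ.leaf K2_ok TH_l7632 _)
                 (CovZ.leaf K2_ok TH_l7633 _))
                (CovZ.n1 (-45180, 48132) (by decide +kernel)
                 (CovZ.leaf K2_ok TH_l7634 _)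
                 (CovZ.n1 (-45180, 48168) (by decide +kernel)
                  (CovZ.leaf K2_ok TH_l7635 _)
                  (CovZ.leaf K2_ok TH_l7636 _))))
               (CovZ.n1 (-45144, 48240) (by decide +kernel)
                (CovZ.n2 (-45108, 48204) (by decide +kernel)
                 (CovZ.leaf K2_ok TH_l7637 _)
                 (CovZ.leaf K2_ok TH_l7638 _))
                (CovZ.n1 (-45180, 48204) (by decide +kernel)
                 (CovZ.leaf K2_ok TH_l7639 _)
                 (CovZ.leaf K2_ok TH_l7640 _)))))
             (CovZ.n1 (-45072, 48384) (by decide +kernel)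
              (CovZ.n2 (-45000, 48312) (by decide +kernel)
               (CovZ.n2 (-45072, 48312) (by decide +kernel)
                (CovZ.n2 (-45036, 48348) (by decide +kernel)
                 (CovZ.n2 (-45036, 48312) (by decide +kernel)
                  (CovZ.leaf K2_ok TH_l7641 _)
                  (CovZ.leaf K2_ok TH_l7642 _))
                 (CovZ.leaf K2_ok TH_l7643 _))
                (CovZ.n1 (-45036, 48276) (by decide +kernel)
                 (CovZ.leaf K2_ok TH_l7644 _)
                 (CovZ.n1 (-45036, 48312) (by decide +kernel)
                  (CovZ.leaf K2_ok TH_l7645 _)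
                  (CovZ.leaf K2_ok TH_l7646 _))))
               (CovZ.n1 (-45000, 48384) (by decide +kernel)
                (CovZ.badM (by decide +kernel))
                (CovZ.n1 (-45036, 48348) (by decide +kernel)
                 (CovZ.n2 (-45036, 48384) (by decide +kernel)
                  (CovZ.leaf K2_ok TH_l7647 _)
                  (CovZ.leaf K2_ok TH_l7648 _))
                 (CovZ.n1 (-45000, 48348) (by decide +kernel)
                  (CovZ.leaf K2_ok TH_l7649 _)
                  (CovZ.leaf K2_ok TH_l7650 _)))))
              (CovZ.n1 (-45144, 48312) (by decide +kernel)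
               (CovZ.n2 (-45144, 48384) (by decide +kernel)
                (CovZ.n2 (-45108, 48348) (by decide +kernel)
                 (CovZ.leaf K2_ok TH_l7651 _)
                 (CovZ.n1 (-45108, 48384) (by decide +kernel)
                  (CovZ.leaf K2_ok TH_l7652 _)
                  (CovZ.leaf K2_ok TH_l7653 _)))
                (CovZ.n1 (-45180, 48348) (by decide +kernel)
                 (CovZ.leaf K2_ok TH_l7654 _)
                 (CovZ.leaf K2_ok TH_l7655 _)))
               (CovZ.n1 (-45072, 48312) (by decide +kernel)
                (CovZ.n2 (-45108, 48276) (by decide +kernel)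
                 (CovZ.leaf K2_ok TH_l7656 _)
                 (CovZ.leaf K2_ok TH_l7657 _))
                (CovZ.n1 (-45108, 48348) (by decide +kernel)
                 (CovZ.leaf K2_ok TH_l7658 _)
                 (CovZ.leaf K2_ok TH_l7659 _))))))
            (CovZ.n1 (-45360, 48240) (by decide +kernel)
             (CovZ.n2 (-45360, 48384) (by decide +kernel)
              (CovZ.n2 (-45288, 48312) (by decide +kernel)
               (CovZ.n2 (-45360, 48312) (by decide +kernel)
                (CovZ.leaf K2_ok TH_l7660 _)
                (CovZ.leaf K2_ok TH_l7661 _))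
               (CovZ.n1 (-45288, 48384) (by decide +kernel)
                (CovZ.n2 (-45252, 48348) (by decide +kernel)
                 (CovZ.leaf K2_ok TH_l7662 _)
                 (CovZ.leaf K2_ok TH_l7663 _))
                (CovZ.leaf K2_ok TH_l7664 _)))
              (CovZ.n1 (-45432, 48312) (by decide +kernel)
               (CovZ.n2 (-45432, 48384) (by decide +kernel)
                (CovZ.leaf K2_ok TH_l7665 _)
                (CovZ.leaf K2_ok TH_l7666 _))
               (CovZ.n1 (-45360, 48312) (by decide +kernel)
                (CovZ.leaf K2_ok TH_l7667 _)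
                (CovZ.leaf K2_ok TH_l7668 _))))
             (CovZ.n1 (-45216, 48240) (by decide +kernel)
              (CovZ.n2 (-45288, 48168) (by decide +kernel)
               (CovZ.n2 (-45288, 48240) (by decide +kernel)
                (CovZ.n2 (-45252, 48204) (by decide +kernel)
                 (CovZ.leaf K2_ok TH_l7669 _)
                 (CovZ.leaf K2_ok TH_l7670 _))
                (CovZ.n1 (-45324, 48204) (by decide +kernel)
                 (CovZ.leaf K2_ok TH_l7671 _)
                 (CovZ.leaf K2_ok TH_l7672 _)))
               (CovZ.n1 (-45216, 48168) (by decide +kernel)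
                (CovZ.n2 (-45252, 48132) (by decide +kernel)
                 (CovZ.leaf K2_ok TH_l7673 _)
                 (CovZ.leaf K2_ok TH_l7674 _))
                (CovZ.n1 (-45252, 48204) (by decide +kernel)
                 (CovZ.leaf K2_ok TH_l7675 _)
                 (CovZ.leaf K2_ok TH_l7676 _))))
              (CovZ.n1 (-45288, 48312) (by decide +kernel)
               (CovZ.n2 (-45216, 48312) (by decide +kernel)
                (CovZ.leaf K2_ok TH_l7677 _)
                (CovZ.leaf K2_ok TH_l7678 _))
               (CovZ.n1 (-45288, 48240) (by decide +kernel)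
                (CovZ.leaf K2_ok TH_l7679 _)
                (CovZ.leaf K2_ok TH_l7680 _))))))))

theorem TH_u102 : CovZ TH_M (toL (selN TH_LN 3112881570595144052133994428602971302847511457463009280)) [0, 7, 6, 1] (-45504, 48384) (-46080, 48384) (-45504, 47808) :=
    (CovZ.n1 (-45792, 48096) (by decide +kernel)
          (CovZ.n2 (-45792, 48384) (by decide +kernel)
           (CovZ.subM 3112881567383836743540392398899065529225563841935441920 (by decide +kernel)
            (CovZ.n2 (-45648, 48240) (by decide +kernel)
             (CovZ.n2 (-45792, 48240) (by decide +kernel)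
              (CovZ.n2 (-45720, 48312) (by decide +kernel)
               (CovZ.leaf K2_ok TH_l7681 _)
               (CovZ.badM (by decide +kernel)))
              (CovZ.n1 (-45720, 48168) (by decide +kernel)
               (CovZ.badM (by decide +kernel))
               (CovZ.n1 (-45720, 48240) (by decide +kernel)
                (CovZ.leaf K2_ok TH_l7682 _)
                (CovZ.badM (by decide +kernel)))))
             (CovZ.n1 (-45648, 48384) (by decide +kernel)
              (CovZ.n2 (-45576, 48312) (by decide +kernel)
               (CovZ.leaf K2_ok TH_l7683 _)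
               (CovZ.n1 (-45576, 48384) (by decide +kernel)
                (CovZ.leaf K2_ok TH_l7684 _)
                (CovZ.leaf K2_ok TH_l7685 _)))
              (CovZ.n1 (-45720, 48312) (by decide +kernel)
               (CovZ.leaf K2_ok TH_l7686 _)
               (CovZ.leaf K2_ok TH_l7687 _)))))
           (CovZ.n1 (-45936, 48240) (by decide +kernel)
            (CovZ.n2 (-45936, 48384) (by decide +kernel)
             (CovZ.badM (by decide +kernel))
             (CovZ.leaf K2_ok TH_l7688 _))
            (CovZ.badM (by decide +kernel))))
          (CovZ.subM 3112881567383836743540392398899065529225563841935441920 (by decide +kernel)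
           (CovZ.n1 (-45504, 48096) (by decide +kernel)
            (CovZ.n2 (-45648, 47952) (by decide +kernel)
             (CovZ.n2 (-45648, 48096) (by decide +kernel)
              (CovZ.n2 (-45576, 48024) (by decide +kernel)
               (CovZ.leaf K2_ok TH_l7689 _)
               (CovZ.n1 (-45576, 48096) (by decide +kernel)
                (CovZ.leaf K2_ok TH_l7690 _)
                (CovZ.leaf K2_ok TH_l7691 _)))
              (CovZ.n1 (-45720, 48024) (by decide +kernel)
               (CovZ.n2 (-45720, 48096) (by decide +kernel)
                (CovZ.leaf K2_ok TH_l7692 _)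
                (CovZ.badM (by decide +kernel)))
               (CovZ.leaf K2_ok TH_l7693 _)))
             (CovZ.n1 (-45504, 47952) (by decide +kernel)
              (CovZ.n2 (-45576, 47880) (by decide +kernel)
               (CovZ.n2 (-45576, 47952) (by decide +kernel)
                (CovZ.leaf K2_ok TH_l7694 _)
                (CovZ.leaf K2_ok TH_l7695 _))
               (CovZ.n1 (-45504, 47880) (by decide +kernel)
                (CovZ.leaf K2_ok TH_l7696 _)
                (CovZ.leaf K2_ok TH_l7697 _)))
              (CovZ.n1 (-45576, 48024) (by decide +kernel)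
               (CovZ.n2 (-45504, 48024) (by decide +kernel)
                (CovZ.leaf K2_ok TH_l7698 _)
                (CovZ.leaf K2_ok TH_l7699 _))
               (CovZ.n1 (-45576, 47952) (by decide +kernel)
                (CovZ.leaf K2_ok TH_l7700 _)
                (CovZ.leaf K2_ok TH_l7701 _)))))
            (CovZ.n1 (-45648, 48240) (by decide +kernel)
             (CovZ.n2 (-45504, 48240) (by decide +kernel)
              (CovZ.n2 (-45576, 48168) (by decide +kernel)
               (CovZ.n2 (-45576, 48240) (by decide +kernel)
                (CovZ.leaf K2_ok TH_l7702 _)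
                (CovZ.leaf K2_ok TH_l7703 _))
               (CovZ.n1 (-45504, 48168) (by decide +kernel)
                (CovZ.leaf K2_ok TH_l7704 _)
                (CovZ.leaf K2_ok TH_l7705 _)))
              (CovZ.n1 (-45576, 48312) (by decide +kernel)
               (CovZ.n2 (-45504, 48312) (by decide +kernel)
                (CovZ.leaf K2_ok TH_l7706 _)
                (CovZ.leaf K2_ok TH_l7707 _))
               (CovZ.leaf K2_ok TH_l7708 _)))
             (CovZ.n1 (-45648, 48096) (by decide +kernel)
              (CovZ.n2 (-45720, 48168) (by decide +kernel)
               (CovZ.leaf K2_ok TH_l7709 _)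
               (CovZ.leaf K2_ok TH_l7710 _))
              (CovZ.n1 (-45576, 48168) (by decide +kernel)
               (CovZ.n2 (-45576, 48096) (by decide +kernel)
                (CovZ.leaf K2_ok TH_l7711 _)
                (CovZ.leaf K2_ok TH_l7712 _))
               (CovZ.leaf K2_ok TH_l7713 _)))))))

end Pool.Agent.TET
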