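import Pool.Agent.Helper38_TET.TH_M
import Pool.Agent.Helper38_TET.TH_L
import Pool.Agent.Helper38_TET.TH_50
import Pool.Agent.Helper38_TET.TH_51
import Pool.Agent.Helper38_TET.TH_52
import Pool.Agent.Helper38_TET.TH_53
import Pool.Agent.Helper38_TET.TH_54
import Pool.Agent.Helper38_TET.TH_U6

/-!
# MP_c7c9bf_co: certificates, family TH
-/

set_option autoImplicit false
set_option maxRecDepth 100000

namespace Pool.Agent.TET

theorem TH_u103 : CovZ TH_M (toL (selN TH_LN 3112881570595144052133994428602971302847511457463009280)) [0, 7, 6, 1] (-46080, 46080) (-44928, 47232) (-46080, 48384) :=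
    (CovZ.n2 (-46080, 47232) (by decide +kernel)
       (CovZ.n2 (-45504, 47808) (by decide +kernel)
        TH_u99
        TH_u100)
       (CovZ.n1 (-45504, 46656) (by decide +kernel)
        (CovZ.n2 (-46080, 46656) (by decide +kernel)
         (CovZ.n2 (-45792, 46944) (by decide +kernel)
          (CovZ.n2 (-45792, 46656) (by decide +kernel)
           (CovZ.n2 (-45936, 46800) (by decide +kernel)
            (CovZ.badM (by decide +kernel))
            (CovZ.n1 (-45936, 46656) (by decide +kernel)
             (CovZ.n2 (-46008, 46728) (by decide +kernel)
              (CovZ.badM (by decide +kernel))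
              (CovZ.n1 (-46008, 46656) (by decide +kernel)
               (CovZ.leaf K2_ok TH_l7559 _)
               (CovZ.badM (by decide +kernel))))
             (CovZ.badM (by decide +kernel))))
           (CovZ.badM (by decide +kernel)))
          (CovZ.n1 (-46080, 46944) (by decide +kernel)
           (CovZ.n2 (-45936, 47088) (by decide +kernel)
            (CovZ.n2 (-45936, 46944) (by decide +kernel)
             (CovZ.n2 (-46008, 47016) (by decide +kernel)
              (CovZ.badM (by decide +kernel))
              (CovZ.n1 (-46008, 46944) (by decide +kernel)
               (CovZ.leaf K2_ok TH_l7560 _)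
               (CovZ.badM (by decide +kernel))))
             (CovZ.badM (by decide +kernel)))
            (CovZ.n1 (-46080, 47088) (by decide +kernel)
             (CovZ.n2 (-46008, 47160) (by decide +kernel)
              (CovZ.leaf K2_ok TH_l7561 _)
              (CovZ.leaf K2_ok TH_l7562 _))
             (CovZ.n1 (-46008, 47016) (by decide +kernel)
              (CovZ.leaf K2_ok TH_l7563 _)
              (CovZ.n1 (-46008, 47088) (by decide +kernel)
               (CovZ.leaf K2_ok TH_l7564 _)
               (CovZ.leaf K2_ok TH_l7565 _)))))
           (CovZ.n1 (-45936, 46800) (by decide +kernel)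
            (CovZ.n2 (-46080, 46800) (by decide +kernel)
             (CovZ.n2 (-46008, 46872) (by decide +kernel)
              (CovZ.n2 (-46008, 46800) (by decide +kernel)
               (CovZ.leaf K2_ok TH_l7566 _)
               (CovZ.badM (by decide +kernel)))
              (CovZ.leaf K2_ok TH_l7567 _))
             (CovZ.n1 (-46008, 46728) (by decide +kernel)
              (CovZ.leaf K2_ok TH_l7568 _)
              (CovZ.n1 (-46008, 46800) (by decide +kernel)
               (CovZ.badM (by decide +kernel))
               (CovZ.leaf K2_ok TH_l7569 _))))
            (CovZ.n1 (-45936, 46944) (by decide +kernel)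
             (CovZ.badM (by decide +kernel))
             (CovZ.n1 (-46008, 46872) (by decide +kernel)
              (CovZ.n2 (-46008, 46944) (by decide +kernel)
               (CovZ.badM (by decide +kernel))
               (CovZ.leaf K2_ok TH_l7570 _))
              (CovZ.badM (by decide +kernel)))))))
         (CovZ.n1 (-45792, 46368) (by decide +kernel)
          (CovZ.n2 (-46080, 46368) (by decide +kernel)
           (CovZ.n2 (-45936, 46512) (by decide +kernel)
            (CovZ.n2 (-45936, 46368) (by decide +kernel)
             (CovZ.n2 (-46008, 46440) (by decide +kernel)
              (CovZ.badM (by decide +kernel))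
              (CovZ.n1 (-46008, 46368) (by decide +kernel)
               (CovZ.leaf K2_ok TH_l7571 _)
               (CovZ.badM (by decide +kernel))))
             (CovZ.badM (by decide +kernel)))
            (CovZ.n1 (-46080, 46512) (by decide +kernel)
             (CovZ.n2 (-46008, 46584) (by decide +kernel)
              (CovZ.n2 (-46008, 46512) (by decide +kernel)
               (CovZ.leaf K2_ok TH_l7572 _)
               (CovZ.badM (by decide +kernel)))
              (CovZ.leaf K2_ok TH_l7573 _))
             (CovZ.n1 (-46008, 46440) (by decide +kernel)
              (CovZ.n2 (-46080, 46440) (by decide +kernel)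
               (CovZ.leaf K2_ok TH_l7574 _)
               (CovZ.leaf K2_ok TH_l7575 _))
              (CovZ.n1 (-46008, 46512) (by decide +kernel)
               (CovZ.badM (by decide +kernel))
               (CovZ.leaf K2_ok TH_l7576 _)))))
           (CovZ.n1 (-45936, 46224) (by decide +kernel)
            (CovZ.n2 (-46080, 46224) (by decide +kernel)
             (CovZ.n2 (-46008, 46296) (by decide +kernel)
              (CovZ.n2 (-46008, 46224) (by decide +kernel)
               (CovZ.leaf K2_ok TH_l7577 _)
               (CovZ.badM (by decide +kernel)))
              (CovZ.n1 (-46080, 46296) (by decide +kernel)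
               (CovZ.leaf K2_ok TH_l7578 _)
               (CovZ.leaf K2_ok TH_l7579 _)))
             (CovZ.n1 (-46008, 46152) (by decide +kernel)
              (CovZ.n2 (-46080, 46152) (by decide +kernel)
               (CovZ.leaf K2_ok TH_l7580 _)
               (CovZ.leaf K2_ok TH_l7581 _))
              (CovZ.n1 (-46008, 46224) (by decide +kernel)
               (CovZ.badM (by decide +kernel))
               (CovZ.leaf K2_ok TH_l7582 _))))
            (CovZ.n1 (-45936, 46368) (by decide +kernel)
             (CovZ.badM (by decide +kernel))
             (CovZ.n1 (-46008, 46296) (by decide +kernel)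
              (CovZ.n2 (-46008, 46368) (by decide +kernel)
               (CovZ.badM (by decide +kernel))
               (CovZ.leaf K2_ok TH_l7583 _))
              (CovZ.badM (by decide +kernel))))))
          (CovZ.n1 (-45792, 46656) (by decide +kernel)
           (CovZ.badM (by decide +kernel))
           (CovZ.n1 (-45936, 46512) (by decide +kernel)
            (CovZ.n2 (-45936, 46656) (by decide +kernel)
             (CovZ.badM (by decide +kernel))
             (CovZ.n1 (-46008, 46584) (by decide +kernel)
              (CovZ.n2 (-46008, 46656) (by decide +kernel)
               (CovZ.badM (by decide +kernel))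
               (CovZ.leaf K2_ok TH_l7584 _))
              (CovZ.badM (by decide +kernel))))
            (CovZ.badM (by decide +kernel))))))
        (CovZ.n1 (-45504, 47232) (by decide +kernel)
         (CovZ.badM (by decide +kernel))
         (CovZ.n1 (-45792, 46944) (by decide +kernel)
          (CovZ.n2 (-45792, 47232) (by decide +kernel)
           (CovZ.subM 3064991081731777716716694054300618367237478244367204352 (by decide +kernel)
            (CovZ.n2 (-45648, 47088) (by decide +kernel)
             (CovZ.badM (by decide +kernel))
             (CovZ.n1 (-45648, 47232) (by decide +kernel)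
              (CovZ.n2 (-45576, 47160) (by decide +kernel)
               (CovZ.n2 (-45648, 47160) (by decide +kernel)
                (CovZ.n2 (-45612, 47196) (by decide +kernel)
                 (CovZ.badM (by decide +kernel))
                 (CovZ.badM (by decide +kernel)))
                (CovZ.badM (by decide +kernel)))
               (CovZ.n1 (-45576, 47232) (by decide +kernel)
                (CovZ.badM (by decide +kernel))
                (CovZ.n1 (-45612, 47196) (by decide +kernel)
                 (CovZ.leaf K2_ok TH_l7585 _)
                 (CovZ.badM (by decide +kernel)))))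
              (CovZ.badM (by decide +kernel)))))
           (CovZ.n1 (-45936, 47088) (by decide +kernel)
            (CovZ.n2 (-45936, 47232) (by decide +kernel)
             (CovZ.n2 (-45864, 47160) (by decide +kernel)
              (CovZ.leaf K2_ok TH_l7586 _)
              (CovZ.n1 (-45864, 47232) (by decide +kernel)
               (CovZ.badM (by decide +kernel))
               (CovZ.leaf K2_ok TH_l7587 _)))
             (CovZ.n1 (-46008, 47160) (by decide +kernel)
              (CovZ.n2 (-46008, 47232) (by decide +kernel)
               (CovZ.leaf K2_ok TH_l7588 _)
               (CovZ.leaf K2_ok TH_l7589 _))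
              (CovZ.leaf K2_ok TH_l7590 _)))
            (CovZ.badM (by decide +kernel))))
          (CovZ.badM (by decide +kernel))))))

theorem TH_u104 : CovZ TH_M (toL (selN TH_LN 3112881570595144052133994428602971302847511457463009280)) [0, 7, 6, 1] (-44928, 47232) (-43776, 48384) (-46080, 48384) :=
    (CovZ.n1 (-44928, 48384) (by decide +kernel)
       (CovZ.badM (by decide +kernel))
       (CovZ.n1 (-45504, 47808) (by decide +kernel)
        (CovZ.n2 (-45504, 48384) (by decide +kernel)
         TH_u101
         TH_u102)
        (CovZ.subM 3064991081731777716716694054300618367237478244367204352 (by decide +kernel)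
         (CovZ.n1 (-44928, 47808) (by decide +kernel)
          (CovZ.n2 (-45216, 47520) (by decide +kernel)
           (CovZ.n2 (-45216, 47808) (by decide +kernel)
            (CovZ.badM (by decide +kernel))
            (CovZ.n1 (-45360, 47664) (by decide +kernel)
             (CovZ.n2 (-45360, 47808) (by decide +kernel)
              (CovZ.n2 (-45288, 47736) (by decide +kernel)
               (CovZ.n2 (-45360, 47736) (by decide +kernel)
                (CovZ.n2 (-45324, 47772) (by decide +kernel)
                 (CovZ.leaf K2_ok TH_l7714 _)
                 (CovZ.leaf K2_ok TH_l7715 _))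
                (CovZ.n1 (-45324, 47700) (by decide +kernel)
                 (CovZ.leaf K2_ok TH_l7716 _)
                 (CovZ.leaf K2_ok TH_l7717 _)))
               (CovZ.n1 (-45288, 47808) (by decide +kernel)
                (CovZ.n2 (-45252, 47772) (by decide +kernel)
                 (CovZ.leaf K2_ok TH_l7718 _)
                 (CovZ.n1 (-45252, 47808) (by decide +kernel)
                  (CovZ.badM (by decide +kernel))
                  (CovZ.leaf K2_ok TH_l7719 _)))
                (CovZ.n1 (-45324, 47772) (by decide +kernel)
                 (CovZ.leaf K2_ok TH_l7720 _)
                 (CovZ.leaf K2_ok TH_l7721 _))))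
              (CovZ.n1 (-45432, 47736) (by decide +kernel)
               (CovZ.n2 (-45432, 47808) (by decide +kernel)
                (CovZ.n2 (-45396, 47772) (by decide +kernel)
                 (CovZ.leaf K2_ok TH_l7722 _)
                 (CovZ.leaf K2_ok TH_l7723 _))
                (CovZ.n1 (-45468, 47772) (by decide +kernel)
                 (CovZ.leaf K2_ok TH_l7724 _)
                 (CovZ.leaf K2_ok TH_l7725 _)))
               (CovZ.n1 (-45360, 47736) (by decide +kernel)
                (CovZ.leaf K2_ok TH_l7726 _)
                (CovZ.n1 (-45396, 47772) (by decide +kernel)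
                 (CovZ.leaf K2_ok TH_l7727 _)
                 (CovZ.leaf K2_ok TH_l7728 _)))))
             (CovZ.n1 (-45216, 47664) (by decide +kernel)
              (CovZ.n2 (-45288, 47592) (by decide +kernel)
               (CovZ.n2 (-45288, 47664) (by decide +kernel)
                (CovZ.badM (by decide +kernel))
                (CovZ.n1 (-45324, 47628) (by decide +kernel)
                 (CovZ.n2 (-45324, 47664) (by decide +kernel)
                  (CovZ.badM (by decide +kernel))
                  (CovZ.leaf K2_ok TH_l7729 _))
                 (CovZ.badM (by decide +kernel))))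
               (CovZ.badM (by decide +kernel)))
              (CovZ.n1 (-45288, 47736) (by decide +kernel)
               (CovZ.badM (by decide +kernel))
               (CovZ.n1 (-45288, 47664) (by decide +kernel)
                (CovZ.n2 (-45324, 47700) (by decide +kernel)
                 (CovZ.badM (by decide +kernel))
                 (CovZ.leaf K2_ok TH_l7730 _))
                (CovZ.badM (by decide +kernel)))))))
           (CovZ.badM (by decide +kernel)))
          (CovZ.n1 (-45216, 48096) (by decide +kernel)
           (CovZ.n2 (-44928, 48096) (by decide +kernel)
            (CovZ.n2 (-45072, 47952) (by decide +kernel)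
             (CovZ.n2 (-45072, 48096) (by decide +kernel)
              (CovZ.badM (by decide +kernel))
              (CovZ.n1 (-45144, 48024) (by decide +kernel)
               (CovZ.n2 (-45144, 48096) (by decide +kernel)
                (CovZ.n2 (-45108, 48060) (by decide +kernel)
                 (CovZ.leaf K2_ok TH_l7731 _)
                 (CovZ.n1 (-45108, 48096) (by decide +kernel)
                  (CovZ.leaf K2_ok TH_l7732 _)
                  (CovZ.leaf K2_ok TH_l7733 _)))
                (CovZ.n1 (-45180, 48060) (by decide +kernel)
                 (CovZ.leaf K2_ok TH_l7734 _)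
                 (CovZ.leaf K2_ok TH_l7735 _)))
               (CovZ.n1 (-45072, 48024) (by decide +kernel)
                (CovZ.n2 (-45108, 47988) (by decide +kernel)
                 (CovZ.n2 (-45108, 48024) (by decide +kernel)
                  (CovZ.badM (by decide +kernel))
                  (CovZ.leaf K2_ok TH_l7736 _))
                 (CovZ.badM (by decide +kernel)))
                (CovZ.n1 (-45108, 48060) (by decide +kernel)
                 (CovZ.badM (by decide +kernel))
                 (CovZ.n1 (-45108, 48024) (by decide +kernel)
                  (CovZ.leaf K2_ok TH_l7737 _)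
                  (CovZ.badM (by decide +kernel)))))))
             (CovZ.badM (by decide +kernel)))
            (CovZ.n1 (-45072, 48240) (by decide +kernel)
             (CovZ.n2 (-44928, 48240) (by decide +kernel)
              (CovZ.n2 (-45000, 48168) (by decide +kernel)
               (CovZ.n2 (-45000, 48240) (by decide +kernel)
                (CovZ.badM (by decide +kernel))
                (CovZ.n1 (-45036, 48204) (by decide +kernel)
                 (CovZ.n2 (-45036, 48240) (by decide +kernel)
                  (CovZ.leaf K2_ok TH_l7738 _)
                  (CovZ.leaf K2_ok TH_l7739 _))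
                 (CovZ.leaf K2_ok TH_l7740 _)))
               (CovZ.badM (by decide +kernel)))
              (CovZ.n1 (-45000, 48312) (by decide +kernel)
               (CovZ.badM (by decide +kernel))
               (CovZ.n1 (-45000, 48240) (by decide +kernel)
                (CovZ.n2 (-45036, 48276) (by decide +kernel)
                 (CovZ.leaf K2_ok TH_l7741 _)
                 (CovZ.n1 (-45036, 48240) (by decide +kernel)
                  (CovZ.leaf K2_ok TH_l7742 _)
                  (CovZ.leaf K2_ok TH_l7743 _)))
                (CovZ.badM (by decide +kernel)))))
             (CovZ.n1 (-45072, 48096) (by decide +kernel)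
              (CovZ.n2 (-45144, 48168) (by decide +kernel)
               (CovZ.n2 (-45072, 48168) (by decide +kernel)
                (CovZ.n2 (-45108, 48132) (by decide +kernel)
                 (CovZ.n2 (-45108, 48168) (by decide +kernel)
                  (CovZ.leaf K2_ok TH_l7744 _)
                  (CovZ.leaf K2_ok TH_l7745 _))
                 (CovZ.leaf K2_ok TH_l7746 _))
                (CovZ.n1 (-45108, 48204) (by decide +kernel)
                 (CovZ.n2 (-45072, 48204) (by decide +kernel)
                  (CovZ.leaf K2_ok TH_l7747 _)
                  (CovZ.leaf K2_ok TH_l7748 _))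
                 (CovZ.leaf K2_ok TH_l7749 _)))
               (CovZ.n1 (-45144, 48096) (by decide +kernel)
                (CovZ.n2 (-45180, 48132) (by decide +kernel)
                 (CovZ.leaf K2_ok TH_l7750 _)
                 (CovZ.leaf K2_ok TH_l7751 _))
                (CovZ.n1 (-45108, 48132) (by decide +kernel)
                 (CovZ.leaf K2_ok TH_l7752 _)
                 (CovZ.leaf K2_ok TH_l7753 _))))
              (CovZ.n1 (-45000, 48168) (by decide +kernel)
               (CovZ.badM (by decide +kernel))
               (CovZ.n1 (-45072, 48168) (by decide +kernel)
                (CovZ.n2 (-45036, 48204) (by decide +kernel)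
                 (CovZ.n2 (-45036, 48168) (by decide +kernel)
                  (CovZ.leaf K2_ok TH_l7754 _)
                  (CovZ.leaf K2_ok TH_l7755 _))
                 (CovZ.leaf K2_ok TH_l7756 _))
                (CovZ.n1 (-45036, 48132) (by decide +kernel)
                 (CovZ.leaf K2_ok TH_l7757 _)
                 (CovZ.n1 (-45036, 48168) (by decide +kernel)
                  (CovZ.badM (by decide +kernel))
                  (CovZ.leaf K2_ok TH_l7758 _))))))))
           (CovZ.n1 (-45216, 47808) (by decide +kernel)
            (CovZ.n2 (-45360, 47952) (by decide +kernel)
             (CovZ.n2 (-45216, 47952) (by decide +kernel)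
              (CovZ.n2 (-45288, 47880) (by decide +kernel)
               (CovZ.n2 (-45288, 47952) (by decide +kernel)
                (CovZ.n2 (-45252, 47916) (by decide +kernel)
                 (CovZ.leaf K2_ok TH_l7759 _)
                 (CovZ.n1 (-45252, 47952) (by decide +kernel)
                  (CovZ.leaf K2_ok TH_l7760 _)
                  (CovZ.leaf K2_ok TH_l7761 _)))
                (CovZ.n1 (-45324, 47916) (by decide +kernel)
                 (CovZ.leaf K2_ok TH_l7762 _)
                 (CovZ.leaf K2_ok TH_l7763 _)))
               (CovZ.n1 (-45216, 47880) (by decide +kernel)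
                (CovZ.n2 (-45252, 47844) (by decide +kernel)
                 (CovZ.n2 (-45252, 47880) (by decide +kernel)
                  (CovZ.leaf K2_ok TH_l7764 _)
                  (CovZ.leaf K2_ok TH_l7765 _))
                 (CovZ.n1 (-45216, 47844) (by decide +kernel)
                  (CovZ.leaf K2_ok TH_l7766 _)
                  (CovZ.leaf K2_ok TH_l7767 _)))
                (CovZ.n1 (-45252, 47916) (by decide +kernel)
                 (CovZ.leaf K2_ok TH_l7768 _)
                 (CovZ.leaf K2_ok TH_l7769 _))))
              (CovZ.n1 (-45288, 48024) (by decide +kernel)
               (CovZ.n2 (-45216, 48024) (by decide +kernel)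
                (CovZ.n2 (-45252, 47988) (by decide +kernel)
                 (CovZ.leaf K2_ok TH_l7770 _)
                 (CovZ.n1 (-45216, 47988) (by decide +kernel)
                  (CovZ.leaf K2_ok TH_l7771 _)
                  (CovZ.leaf K2_ok TH_l7772 _)))
                (CovZ.n1 (-45252, 48060) (by decide +kernel)
                 (CovZ.leaf K2_ok TH_l7773 _)
                 (CovZ.leaf K2_ok TH_l7774 _)))
               (CovZ.n1 (-45288, 47952) (by decide +kernel)
                (CovZ.n2 (-45324, 47988) (by decide +kernel)
                 (CovZ.leaf K2_ok TH_l7775 _)
                 (CovZ.leaf K2_ok TH_l7776 _))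
                (CovZ.n1 (-45252, 47988) (by decide +kernel)
                 (CovZ.leaf K2_ok TH_l7777 _)
                 (CovZ.leaf K2_ok TH_l7778 _)))))
             (CovZ.n1 (-45360, 47808) (by decide +kernel)
              (CovZ.n2 (-45432, 47880) (by decide +kernel)
               (CovZ.n2 (-45360, 47880) (by decide +kernel)
                (CovZ.n2 (-45396, 47844) (by decide +kernel)
                 (CovZ.leaf K2_ok TH_l7779 _)
                 (CovZ.leaf K2_ok TH_l7780 _))
                (CovZ.leaf K2_ok TH_l7781 _))
               (CovZ.n1 (-45432, 47808) (by decide +kernel)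
                (CovZ.leaf K2_ok TH_l7782 _)
                (CovZ.leaf K2_ok TH_l7783 _)))
              (CovZ.n1 (-45288, 47880) (by decide +kernel)
               (CovZ.n2 (-45288, 47808) (by decide +kernel)
                (CovZ.n2 (-45324, 47844) (by decide +kernel)
                 (CovZ.leaf K2_ok TH_l7784 _)
                 (CovZ.leaf K2_ok TH_l7785 _))
                (CovZ.n1 (-45252, 47844) (by decide +kernel)
                 (CovZ.n2 (-45252, 47808) (by decide +kernel)
                  (CovZ.leaf K2_ok TH_l7786 _)
                  (CovZ.leaf K2_ok TH_l7787 _))
                 (CovZ.leaf K2_ok TH_l7788 _)))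
               (CovZ.n1 (-45360, 47880) (by decide +kernel)
                (CovZ.n2 (-45324, 47916) (by decide +kernel)
                 (CovZ.leaf K2_ok TH_l7789 _)
                 (CovZ.leaf K2_ok TH_l7790 _))
                (CovZ.n1 (-45324, 47844) (by decide +kernel)
                 (CovZ.leaf K2_ok TH_l7791 _)
                 (CovZ.n1 (-45324, 47880) (by decide +kernel)
                  (CovZ.leaf K2_ok TH_l7792 _)
                  (CovZ.leaf K2_ok TH_l7793 _)))))))
            (CovZ.n1 (-45072, 47952) (by decide +kernel)
             (CovZ.badM (by decide +kernel))
             (CovZ.n1 (-45216, 47952) (by decide +kernel)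
              (CovZ.n2 (-45144, 48024) (by decide +kernel)
               (CovZ.n2 (-45144, 47952) (by decide +kernel)
                (CovZ.n2 (-45180, 47988) (by decide +kernel)
                 (CovZ.n2 (-45144, 47988) (by decide +kernel)
                  (CovZ.leaf K2_ok TH_l7794 _)
                  (CovZ.leaf K2_ok TH_l7795 _))
                 (CovZ.n1 (-45180, 47952) (by decide +kernel)
                  (CovZ.leaf K2_ok TH_l7796 _)
                  (CovZ.leaf K2_ok TH_l7797 _)))
                (CovZ.n1 (-45108, 47988) (by decide +kernel)
                 (CovZ.badM (by decide +kernel))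
                 (CovZ.leaf K2_ok TH_l7798 _)))
               (CovZ.n1 (-45216, 48024) (by decide +kernel)
                (CovZ.n2 (-45180, 48060) (by decide +kernel)
                 (CovZ.n2 (-45180, 48024) (by decide +kernel)
                  (CovZ.leaf K2_ok TH_l7799 _)
                  (CovZ.leaf K2_ok TH_l7800 _))
                 (CovZ.leaf K2_ok TH_l7801 _))
                (CovZ.n1 (-45180, 47988) (by decide +kernel)
                 (CovZ.leaf K2_ok TH_l7802 _)
                 (CovZ.n1 (-45180, 48024) (by decide +kernel)
                  (CovZ.leaf K2_ok TH_l7803 _)
                  (CovZ.leaf K2_ok TH_l7804 _)))))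
              (CovZ.n1 (-45144, 47880) (by decide +kernel)
               (CovZ.n2 (-45216, 47880) (by decide +kernel)
                (CovZ.n2 (-45180, 47916) (by decide +kernel)
                 (CovZ.badM (by decide +kernel))
                 (CovZ.leaf K2_ok TH_l7805 _))
                (CovZ.badM (by decide +kernel)))
               (CovZ.n1 (-45144, 47952) (by decide +kernel)
                (CovZ.badM (by decide +kernel))
                (CovZ.n1 (-45180, 47916) (by decide +kernel)
                 (CovZ.n2 (-45180, 47952) (by decide +kernel)
                  (CovZ.leaf K2_ok TH_l7806 _)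
                  (CovZ.leaf K2_ok TH_l7807 _))
                 (CovZ.badM (by decide +kernel)))))))))))))

theorem TH_u105 : CovZ TH_M (toL (selN TH_LN 47890485652059026823698344598447161988085597568237568)) [0, 7, 6, 1] (-44928, 49536) (-44352, 50112) (-44928, 50688) :=
    (CovZ.n2 (-44928, 50112) (by decide +kernel)
          (CovZ.n2 (-44640, 50400) (by decide +kernel)
           (CovZ.n2 (-44640, 50112) (by decide +kernel)
            (CovZ.n2 (-44784, 50256) (by decide +kernel)
             (CovZ.n2 (-44640, 50256) (by decide +kernel)
              (CovZ.n2 (-44712, 50184) (by decide +kernel)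
               (CovZ.n2 (-44712, 50256) (by decide +kernel)
                (CovZ.leaf K2_ok TH_l7808 _)
                (CovZ.leaf K2_ok TH_l7809 _))
               (CovZ.n1 (-44640, 50184) (by decide +kernel)
                (CovZ.leaf K2_ok TH_l7810 _)
                (CovZ.leaf K2_ok TH_l7811 _)))
              (CovZ.n1 (-44712, 50328) (by decide +kernel)
               (CovZ.n2 (-44640, 50328) (by decide +kernel)
                (CovZ.leaf K2_ok TH_l7812 _)
                (CovZ.leaf K2_ok TH_l7813 _))
               (CovZ.n1 (-44712, 50256) (by decide +kernel)
                (CovZ.leaf K2_ok TH_l7814 _)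
                (CovZ.leaf K2_ok TH_l7815 _))))
             (CovZ.n1 (-44784, 50112) (by decide +kernel)
              (CovZ.n2 (-44856, 50184) (by decide +kernel)
               (CovZ.leaf K2_ok TH_l7816 _)
               (CovZ.n1 (-44856, 50112) (by decide +kernel)
                (CovZ.leaf K2_ok TH_l7817 _)
                (CovZ.leaf K2_ok TH_l7818 _)))
              (CovZ.n1 (-44712, 50184) (by decide +kernel)
               (CovZ.n2 (-44712, 50112) (by decide +kernel)
                (CovZ.leaf K2_ok TH_l7819 _)
                (CovZ.leaf K2_ok TH_l7820 _))
               (CovZ.leaf K2_ok TH_l7821 _))))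
            (CovZ.n1 (-44496, 50256) (by decide +kernel)
             (CovZ.n2 (-44496, 50112) (by decide +kernel)
              (CovZ.n2 (-44568, 50184) (by decide +kernel)
               (CovZ.n2 (-44496, 50184) (by decide +kernel)
                (CovZ.leaf K2_ok TH_l7822 _)
                (CovZ.leaf K2_ok TH_l7823 _))
               (CovZ.n1 (-44568, 50112) (by decide +kernel)
                (CovZ.leaf K2_ok TH_l7824 _)
                (CovZ.leaf K2_ok TH_l7825 _)))
              (CovZ.badM (by decide +kernel)))
             (CovZ.n1 (-44640, 50256) (by decide +kernel)
              (CovZ.n2 (-44568, 50328) (by decide +kernel)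
               (CovZ.n2 (-44568, 50256) (by decide +kernel)
                (CovZ.leaf K2_ok TH_l7826 _)
                (CovZ.leaf K2_ok TH_l7827 _))
               (CovZ.n1 (-44640, 50328) (by decide +kernel)
                (CovZ.leaf K2_ok TH_l7828 _)
                (CovZ.leaf K2_ok TH_l7829 _)))
              (CovZ.n1 (-44568, 50184) (by decide +kernel)
               (CovZ.n2 (-44640, 50184) (by decide +kernel)
                (CovZ.leaf K2_ok TH_l7830 _)
                (CovZ.n1 (-44604, 50148) (by decide +kernel)
                 (CovZ.leaf K2_ok TH_l7831 _)
                 (CovZ.leaf K2_ok TH_l7832 _)))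
               (CovZ.n1 (-44568, 50256) (by decide +kernel)
                (CovZ.n2 (-44532, 50220) (by decide +kernel)
                 (CovZ.leaf K2_ok TH_l7833 _)
                 (CovZ.leaf K2_ok TH_l7834 _))
                (CovZ.leaf K2_ok TH_l7835 _))))))
           (CovZ.n1 (-44928, 50400) (by decide +kernel)
            (CovZ.n2 (-44784, 50544) (by decide +kernel)
             (CovZ.n2 (-44784, 50400) (by decide +kernel)
              (CovZ.n2 (-44856, 50472) (by decide +kernel)
               (CovZ.leaf K2_ok TH_l7836 _)
               (CovZ.leaf K2_ok TH_l7837 _))
              (CovZ.n1 (-44712, 50472) (by decide +kernel)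
               (CovZ.n2 (-44712, 50400) (by decide +kernel)
                (CovZ.leaf K2_ok TH_l7838 _)
                (CovZ.leaf K2_ok TH_l7839 _))
               (CovZ.leaf K2_ok TH_l7840 _)))
             (CovZ.n1 (-44928, 50544) (by decide +kernel)
              (CovZ.n2 (-44856, 50616) (by decide +kernel)
               (CovZ.leaf K2_ok TH_l7841 _)
               (CovZ.leaf K2_ok TH_l7842 _))
              (CovZ.n1 (-44856, 50472) (by decide +kernel)
               (CovZ.leaf K2_ok TH_l7843 _)
               (CovZ.n1 (-44856, 50544) (by decide +kernel)
                (CovZ.leaf K2_ok TH_l7844 _)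
                (CovZ.leaf K2_ok TH_l7845 _)))))
            (CovZ.n1 (-44784, 50256) (by decide +kernel)
             (CovZ.n2 (-44928, 50256) (by decide +kernel)
              (CovZ.n2 (-44856, 50328) (by decide +kernel)
               (CovZ.n2 (-44856, 50256) (by decide +kernel)
                (CovZ.leaf K2_ok TH_l7846 _)
                (CovZ.leaf K2_ok TH_l7847 _))
               (CovZ.leaf K2_ok TH_l7848 _))
              (CovZ.n1 (-44856, 50184) (by decide +kernel)
               (CovZ.leaf K2_ok TH_l7849 _)
               (CovZ.n1 (-44856, 50256) (by decide +kernel)
                (CovZ.leaf K2_ok TH_l7850 _)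
                (CovZ.leaf K2_ok TH_l7851 _))))
             (CovZ.n1 (-44784, 50400) (by decide +kernel)
              (CovZ.n2 (-44712, 50328) (by decide +kernel)
               (CovZ.leaf K2_ok TH_l7852 _)
               (CovZ.n1 (-44712, 50400) (by decide +kernel)
                (CovZ.leaf K2_ok TH_l7853 _)
                (CovZ.leaf K2_ok TH_l7854 _)))
              (CovZ.n1 (-44856, 50328) (by decide +kernel)
               (CovZ.n2 (-44856, 50400) (by decide +kernel)
                (CovZ.leaf K2_ok TH_l7855 _)
                (CovZ.n1 (-44892, 50364) (by decide +kernel)
                 (CovZ.leaf K2_ok TH_l7856 _)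
                 (CovZ.leaf K2_ok TH_l7857 _)))
               (CovZ.leaf K2_ok TH_l7858 _))))))
          (CovZ.n1 (-44640, 49824) (by decide +kernel)
           (CovZ.n2 (-44928, 49824) (by decide +kernel)
            (CovZ.n2 (-44784, 49968) (by decide +kernel)
             (CovZ.n2 (-44784, 49824) (by decide +kernel)
              (CovZ.n2 (-44856, 49896) (by decide +kernel)
               (CovZ.n2 (-44784, 49896) (by decide +kernel)
                (CovZ.leaf K2_ok TH_l7859 _)
                (CovZ.leaf K2_ok TH_l7860 _))
               (CovZ.n1 (-44856, 49824) (by decide +kernel)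
                (CovZ.leaf K2_ok TH_l7861 _)
                (CovZ.leaf K2_ok TH_l7862 _)))
              (CovZ.n1 (-44712, 49896) (by decide +kernel)
               (CovZ.n2 (-44712, 49824) (by decide +kernel)
                (CovZ.leaf K2_ok TH_l7863 _)
                (CovZ.leaf K2_ok TH_l7864 _))
               (CovZ.n1 (-44784, 49896) (by decide +kernel)
                (CovZ.leaf K2_ok TH_l7865 _)
                (CovZ.leaf K2_ok TH_l7866 _))))
             (CovZ.n1 (-44928, 49968) (by decide +kernel)
              (CovZ.n2 (-44856, 50040) (by decide +kernel)
               (CovZ.n2 (-44856, 49968) (by decide +kernel)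
                (CovZ.leaf K2_ok TH_l7867 _)
                (CovZ.leaf K2_ok TH_l7868 _))
               (CovZ.leaf K2_ok TH_l7869 _))
              (CovZ.n1 (-44856, 49896) (by decide +kernel)
               (CovZ.leaf K2_ok TH_l7870 _)
               (CovZ.n1 (-44856, 49968) (by decide +kernel)
                (CovZ.leaf K2_ok TH_l7871 _)
                (CovZ.leaf K2_ok TH_l7872 _)))))
            (CovZ.n1 (-44784, 49680) (by decide +kernel)
             (CovZ.n2 (-44928, 49680) (by decide +kernel)
              (CovZ.n2 (-44856, 49752) (by decide +kernel)
               (CovZ.n2 (-44856, 49680) (by decide +kernel)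
                (CovZ.leaf K2_ok TH_l7873 _)
                (CovZ.leaf K2_ok TH_l7874 _))
               (CovZ.leaf K2_ok TH_l7875 _))
              (CovZ.n1 (-44856, 49608) (by decide +kernel)
               (CovZ.leaf K2_ok TH_l7876 _)
               (CovZ.n1 (-44856, 49680) (by decide +kernel)
                (CovZ.leaf K2_ok TH_l7877 _)
                (CovZ.leaf K2_ok TH_l7878 _))))
             (CovZ.n1 (-44784, 49824) (by decide +kernel)
              (CovZ.n2 (-44712, 49752) (by decide +kernel)
               (CovZ.n2 (-44784, 49752) (by decide +kernel)
                (CovZ.leaf K2_ok TH_l7879 _)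
                (CovZ.leaf K2_ok TH_l7880 _))
               (CovZ.n1 (-44712, 49824) (by decide +kernel)
                (CovZ.leaf K2_ok TH_l7881 _)
                (CovZ.leaf K2_ok TH_l7882 _)))
              (CovZ.n1 (-44856, 49752) (by decide +kernel)
               (CovZ.n2 (-44856, 49824) (by decide +kernel)
                (CovZ.leaf K2_ok TH_l7883 _)
                (CovZ.leaf K2_ok TH_l7884 _))
               (CovZ.n1 (-44784, 49752) (by decide +kernel)
                (CovZ.leaf K2_ok TH_l7885 _)
                (CovZ.leaf K2_ok TH_l7886 _))))))
           (CovZ.n1 (-44640, 50112) (by decide +kernel)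
            (CovZ.n2 (-44496, 49968) (by decide +kernel)
             (CovZ.n2 (-44640, 49968) (by decide +kernel)
              (CovZ.n2 (-44568, 50040) (by decide +kernel)
               (CovZ.n2 (-44568, 49968) (by decide +kernel)
                (CovZ.leaf K2_ok TH_l7887 _)
                (CovZ.n1 (-44532, 50004) (by decide +kernel)
                 (CovZ.leaf K2_ok TH_l7888 _)
                 (CovZ.leaf K2_ok TH_l7889 _)))
               (CovZ.n1 (-44640, 50040) (by decide +kernel)
                (CovZ.leaf K2_ok TH_l7890 _)
                (CovZ.leaf K2_ok TH_l7891 _)))
              (CovZ.n1 (-44568, 49896) (by decide +kernel)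
               (CovZ.n2 (-44640, 49896) (by decide +kernel)
                (CovZ.leaf K2_ok TH_l7892 _)
                (CovZ.n1 (-44604, 49860) (by decide +kernel)
                 (CovZ.leaf K2_ok TH_l7893 _)
                 (CovZ.leaf K2_ok TH_l7894 _)))
               (CovZ.n1 (-44568, 49968) (by decide +kernel)
                (CovZ.n2 (-44532, 49932) (by decide +kernel)
                 (CovZ.leaf K2_ok TH_l7895 _)
                 (CovZ.leaf K2_ok TH_l7896 _))
                (CovZ.n1 (-44604, 49932) (by decide +kernel)
                 (CovZ.leaf K2_ok TH_l7897 _)
                 (CovZ.leaf K2_ok TH_l7898 _)))))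
             (CovZ.n1 (-44496, 50112) (by decide +kernel)
              (CovZ.badM (by decide +kernel))
              (CovZ.n1 (-44568, 50040) (by decide +kernel)
               (CovZ.n2 (-44568, 50112) (by decide +kernel)
                (CovZ.n2 (-44532, 50076) (by decide +kernel)
                 (CovZ.leaf K2_ok TH_l7899 _)
                 (CovZ.leaf K2_ok TH_l7900 _))
                (CovZ.leaf K2_ok TH_l7901 _))
               (CovZ.n1 (-44496, 50040) (by decide +kernel)
                (CovZ.n2 (-44532, 50004) (by decide +kernel)
                 (CovZ.leaf K2_ok TH_l7902 _)
                 (CovZ.badM (by decide +kernel)))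
                (CovZ.leaf K2_ok TH_l7903 _)))))
            (CovZ.n1 (-44784, 49968) (by decide +kernel)
             (CovZ.n2 (-44784, 50112) (by decide +kernel)
              (CovZ.n2 (-44712, 50040) (by decide +kernel)
               (CovZ.leaf K2_ok TH_l7904 _)
               (CovZ.n1 (-44712, 50112) (by decide +kernel)
                (CovZ.leaf K2_ok TH_l7905 _)
                (CovZ.leaf K2_ok TH_l7906 _)))
              (CovZ.n1 (-44856, 50040) (by decide +kernel)
               (CovZ.n2 (-44856, 50112) (by decide +kernel)
                (CovZ.leaf K2_ok TH_l7907 _)
                (CovZ.leaf K2_ok TH_l7908 _))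
               (CovZ.leaf K2_ok TH_l7909 _)))
             (CovZ.n1 (-44640, 49968) (by decide +kernel)
              (CovZ.n2 (-44712, 49896) (by decide +kernel)
               (CovZ.n2 (-44712, 49968) (by decide +kernel)
                (CovZ.leaf K2_ok TH_l7910 _)
                (CovZ.leaf K2_ok TH_l7911 _))
               (CovZ.n1 (-44640, 49896) (by decide +kernel)
                (CovZ.leaf K2_ok TH_l7912 _)
                (CovZ.n1 (-44676, 49932) (by decide +kernel)
                 (CovZ.leaf K2_ok TH_l7913 _)
                 (CovZ.leaf K2_ok TH_l7914 _))))
              (CovZ.n1 (-44712, 50040) (by decide +kernel)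
               (CovZ.n2 (-44640, 50040) (by decide +kernel)
                (CovZ.leaf K2_ok TH_l7915 _)
                (CovZ.leaf K2_ok TH_l7916 _))
               (CovZ.n1 (-44712, 49968) (by decide +kernel)
                (CovZ.leaf K2_ok TH_l7917 _)
                (CovZ.leaf K2_ok TH_l7918 _))))))))

theorem TH_u106 : CovZ TH_M (toL (selN TH_LN 47890485652059026823698344598447161988085597568237568)) [0, 7, 6, 1] (-44352, 50112) (-43776, 50688) (-44928, 50688) :=
    (CovZ.n1 (-44352, 50688) (by decide +kernel)
          (CovZ.badM (by decide +kernel))
          (CovZ.n1 (-44640, 50400) (by decide +kernel)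
           (CovZ.n2 (-44640, 50688) (by decide +kernel)
            (CovZ.n2 (-44496, 50544) (by decide +kernel)
             (CovZ.n2 (-44640, 50544) (by decide +kernel)
              (CovZ.n2 (-44568, 50616) (by decide +kernel)
               (CovZ.n2 (-44568, 50544) (by decide +kernel)
                (CovZ.leaf K2_ok TH_l7919 _)
                (CovZ.leaf K2_ok TH_l7920 _))
               (CovZ.n1 (-44640, 50616) (by decide +kernel)
                (CovZ.leaf K2_ok TH_l7921 _)
                (CovZ.leaf K2_ok TH_l7922 _)))
              (CovZ.n1 (-44568, 50472) (by decide +kernel)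
               (CovZ.n2 (-44640, 50472) (by decide +kernel)
                (CovZ.leaf K2_ok TH_l7923 _)
                (CovZ.leaf K2_ok TH_l7924 _))
               (CovZ.n1 (-44568, 50544) (by decide +kernel)
                (CovZ.n2 (-44532, 50508) (by decide +kernel)
                 (CovZ.leaf K2_ok TH_l7925 _)
                 (CovZ.leaf K2_ok TH_l7926 _))
                (CovZ.leaf K2_ok TH_l7927 _))))
             (CovZ.n1 (-44496, 50688) (by decide +kernel)
              (CovZ.badM (by decide +kernel))
              (CovZ.n1 (-44568, 50616) (by decide +kernel)
               (CovZ.n2 (-44568, 50688) (by decide +kernel)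
                (CovZ.leaf K2_ok TH_l7928 _)
                (CovZ.leaf K2_ok TH_l7929 _))
               (CovZ.n1 (-44496, 50616) (by decide +kernel)
                (CovZ.leaf K2_ok TH_l7930 _)
                (CovZ.leaf K2_ok TH_l7931 _)))))
            (CovZ.n1 (-44784, 50544) (by decide +kernel)
             (CovZ.n2 (-44784, 50688) (by decide +kernel)
              (CovZ.n2 (-44712, 50616) (by decide +kernel)
               (CovZ.leaf K2_ok TH_l7932 _)
               (CovZ.n1 (-44712, 50688) (by decide +kernel)
                (CovZ.leaf K2_ok TH_l7933 _)
                (CovZ.n1 (-44748, 50652) (by decide +kernel)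
                 (CovZ.leaf K2_ok TH_l7934 _)
                 (CovZ.leaf K2_ok TH_l7935 _))))
              (CovZ.n1 (-44856, 50616) (by decide +kernel)
               (CovZ.leaf K2_ok TH_l7936 _)
               (CovZ.leaf K2_ok TH_l7937 _)))
             (CovZ.n1 (-44640, 50544) (by decide +kernel)
              (CovZ.n2 (-44712, 50472) (by decide +kernel)
               (CovZ.n2 (-44712, 50544) (by decide +kernel)
                (CovZ.leaf K2_ok TH_l7938 _)
                (CovZ.leaf K2_ok TH_l7939 _))
               (CovZ.n1 (-44640, 50472) (by decide +kernel)
                (CovZ.leaf K2_ok TH_l7940 _)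
                (CovZ.leaf K2_ok TH_l7941 _)))
              (CovZ.n1 (-44712, 50616) (by decide +kernel)
               (CovZ.leaf K2_ok TH_l7942 _)
               (CovZ.n1 (-44712, 50544) (by decide +kernel)
                (CovZ.leaf K2_ok TH_l7943 _)
                (CovZ.leaf K2_ok TH_l7944 _))))))
           (CovZ.n1 (-44352, 50400) (by decide +kernel)
            (CovZ.n2 (-44496, 50256) (by decide +kernel)
             (CovZ.n2 (-44496, 50400) (by decide +kernel)
              (CovZ.badM (by decide +kernel))
              (CovZ.n1 (-44568, 50328) (by decide +kernel)
               (CovZ.n2 (-44568, 50400) (by decide +kernel)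
                (CovZ.leaf K2_ok TH_l7945 _)
                (CovZ.leaf K2_ok TH_l7946 _))
               (CovZ.n1 (-44496, 50328) (by decide +kernel)
                (CovZ.leaf K2_ok TH_l7947 _)
                (CovZ.leaf K2_ok TH_l7948 _))))
             (CovZ.badM (by decide +kernel)))
            (CovZ.n1 (-44496, 50544) (by decide +kernel)
             (CovZ.badM (by decide +kernel))
             (CovZ.n1 (-44496, 50400) (by decide +kernel)
              (CovZ.n2 (-44568, 50472) (by decide +kernel)
               (CovZ.n2 (-44496, 50472) (by decide +kernel)
                (CovZ.leaf K2_ok TH_l7949 _)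
                (CovZ.leaf K2_ok TH_l7950 _))
               (CovZ.n1 (-44568, 50400) (by decide +kernel)
                (CovZ.leaf K2_ok TH_l7951 _)
                (CovZ.leaf K2_ok TH_l7952 _)))
              (CovZ.badM (by decide +kernel)))))))

theorem TH_u107 : CovZ TH_M (toL (selN TH_LN 47890485652059026823698344598447161988085597568237568)) [0, 7, 6, 1] (-43776, 48384) (-43776, 49536) (-44928, 49536) :=
    (CovZ.n2 (-44352, 48960) (by decide +kernel)
         (CovZ.n2 (-44352, 49536) (by decide +kernel)
          (CovZ.badM (by decide +kernel))
          (CovZ.n1 (-44640, 49248) (by decide +kernel)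
           (CovZ.n2 (-44640, 49536) (by decide +kernel)
            (CovZ.n2 (-44496, 49392) (by decide +kernel)
             (CovZ.n2 (-44640, 49392) (by decide +kernel)
              (CovZ.n2 (-44568, 49464) (by decide +kernel)
               (CovZ.n2 (-44568, 49392) (by decide +kernel)
                (CovZ.n2 (-44604, 49428) (by decide +kernel)
                 (CovZ.leaf K2_ok TH_l8043 _)
                 (CovZ.leaf K2_ok TH_l8044 _))
                (CovZ.n1 (-44532, 49428) (by decide +kernel)
                 (CovZ.n2 (-44532, 49392) (by decide +kernel)
                  (CovZ.leaf K2_ok TH_l8045 _)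
                  (CovZ.badM (by decide +kernel)))
                 (CovZ.leaf K2_ok TH_l8046 _)))
               (CovZ.n1 (-44640, 49464) (by decide +kernel)
                (CovZ.n2 (-44604, 49500) (by decide +kernel)
                 (CovZ.leaf K2_ok TH_l8047 _)
                 (CovZ.leaf K2_ok TH_l8048 _))
                (CovZ.n1 (-44604, 49428) (by decide +kernel)
                 (CovZ.leaf K2_ok TH_l8049 _)
                 (CovZ.n1 (-44604, 49464) (by decide +kernel)
                  (CovZ.leaf K2_ok TH_l8050 _)
                  (CovZ.leaf K2_ok TH_l8051 _)))))
              (CovZ.n1 (-44568, 49320) (by decide +kernel)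
               (CovZ.n2 (-44640, 49320) (by decide +kernel)
                (CovZ.n2 (-44604, 49356) (by decide +kernel)
                 (CovZ.n2 (-44604, 49320) (by decide +kernel)
                  (CovZ.leaf K2_ok TH_l8052 _)
                  (CovZ.leaf K2_ok TH_l8053 _))
                 (CovZ.leaf K2_ok TH_l8054 _))
                (CovZ.n1 (-44604, 49284) (by decide +kernel)
                 (CovZ.leaf K2_ok TH_l8055 _)
                 (CovZ.n1 (-44604, 49320) (by decide +kernel)
                  (CovZ.leaf K2_ok TH_l8056 _)
                  (CovZ.leaf K2_ok TH_l8057 _))))
               (CovZ.n1 (-44568, 49392) (by decide +kernel)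
                (CovZ.n2 (-44532, 49356) (by decide +kernel)
                 (CovZ.n2 (-44568, 49356) (by decide +kernel)
                  (CovZ.leaf K2_ok TH_l8058 _)
                  (CovZ.badM (by decide +kernel)))
                 (CovZ.n1 (-44532, 49392) (by decide +kernel)
                  (CovZ.badM (by decide +kernel))
                  (CovZ.leaf K2_ok TH_l8059 _)))
                (CovZ.n1 (-44604, 49356) (by decide +kernel)
                 (CovZ.n2 (-44604, 49392) (by decide +kernel)
                  (CovZ.leaf K2_ok TH_l8060 _)
                  (CovZ.leaf K2_ok TH_l8061 _))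
                 (CovZ.leaf K2_ok TH_l8062 _)))))
             (CovZ.n1 (-44496, 49536) (by decide +kernel)
              (CovZ.badM (by decide +kernel))
              (CovZ.n1 (-44568, 49464) (by decide +kernel)
               (CovZ.n2 (-44568, 49536) (by decide +kernel)
                (CovZ.n2 (-44532, 49500) (by decide +kernel)
                 (CovZ.leaf K2_ok TH_l8063 _)
                 (CovZ.n1 (-44532, 49536) (by decide +kernel)
                  (CovZ.badM (by decide +kernel))
                  (CovZ.leaf K2_ok TH_l8064 _)))
                (CovZ.n1 (-44604, 49500) (by decide +kernel)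
                 (CovZ.leaf K2_ok TH_l8065 _)
                 (CovZ.leaf K2_ok TH_l8066 _)))
               (CovZ.n1 (-44496, 49464) (by decide +kernel)
                (CovZ.n2 (-44532, 49428) (by decide +kernel)
                 (CovZ.n2 (-44532, 49464) (by decide +kernel)
                  (CovZ.badM (by decide +kernel))
                  (CovZ.leaf K2_ok TH_l8067 _))
                 (CovZ.badM (by decide +kernel)))
                (CovZ.n1 (-44532, 49500) (by decide +kernel)
                 (CovZ.badM (by decide +kernel))
                 (CovZ.n1 (-44532, 49464) (by decide +kernel)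
                  (CovZ.leaf K2_ok TH_l8068 _)
                  (CovZ.badM (by decide +kernel))))))))
            (CovZ.n1 (-44784, 49392) (by decide +kernel)
             (CovZ.n2 (-44784, 49536) (by decide +kernel)
              (CovZ.n2 (-44712, 49464) (by decide +kernel)
               (CovZ.n2 (-44784, 49464) (by decide +kernel)
                (CovZ.n2 (-44748, 49500) (by decide +kernel)
                 (CovZ.leaf K2_ok TH_l8069 _)
                 (CovZ.leaf K2_ok TH_l8070 _))
                (CovZ.n1 (-44748, 49428) (by decide +kernel)
                 (CovZ.leaf K2_ok TH_l8071 _)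
                 (CovZ.leaf K2_ok TH_l8072 _)))
               (CovZ.n1 (-44712, 49536) (by decide +kernel)
                (CovZ.n2 (-44676, 49500) (by decide +kernel)
                 (CovZ.leaf K2_ok TH_l8073 _)
                 (CovZ.leaf K2_ok TH_l8074 _))
                (CovZ.n1 (-44748, 49500) (by decide +kernel)
                 (CovZ.n2 (-44748, 49536) (by decide +kernel)
                  (CovZ.leaf K2_ok TH_l8075 _)
                  (CovZ.leaf K2_ok TH_l8076 _))
                 (CovZ.leaf K2_ok TH_l8077 _))))
              (CovZ.n1 (-44856, 49464) (by decide +kernel)
               (CovZ.n2 (-44856, 49536) (by decide +kernel)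
                (CovZ.leaf K2_ok TH_l8078 _)
                (CovZ.leaf K2_ok TH_l8079 _))
               (CovZ.n1 (-44784, 49464) (by decide +kernel)
                (CovZ.leaf K2_ok TH_l8080 _)
                (CovZ.leaf K2_ok TH_l8081 _))))
             (CovZ.n1 (-44640, 49392) (by decide +kernel)
              (CovZ.n2 (-44712, 49320) (by decide +kernel)
               (CovZ.n2 (-44712, 49392) (by decide +kernel)
                (CovZ.n2 (-44676, 49356) (by decide +kernel)
                 (CovZ.leaf K2_ok TH_l8082 _)
                 (CovZ.n1 (-44676, 49392) (by decide +kernel)
                  (CovZ.leaf K2_ok TH_l8083 _)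
                  (CovZ.leaf K2_ok TH_l8084 _)))
                (CovZ.n1 (-44748, 49356) (by decide +kernel)
                 (CovZ.n2 (-44748, 49392) (by decide +kernel)
                  (CovZ.leaf K2_ok TH_l8085 _)
                  (CovZ.leaf K2_ok TH_l8086 _))
                 (CovZ.leaf K2_ok TH_l8087 _)))
               (CovZ.n1 (-44640, 49320) (by decide +kernel)
                (CovZ.n2 (-44676, 49284) (by decide +kernel)
                 (CovZ.leaf K2_ok TH_l8088 _)
                 (CovZ.leaf K2_ok TH_l8089 _))
                (CovZ.n1 (-44676, 49356) (by decide +kernel)
                 (CovZ.leaf K2_ok TH_l8090 _)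
                 (CovZ.leaf K2_ok TH_l8091 _))))
              (CovZ.n1 (-44712, 49464) (by decide +kernel)
               (CovZ.n2 (-44640, 49464) (by decide +kernel)
                (CovZ.n2 (-44676, 49428) (by decide +kernel)
                 (CovZ.leaf K2_ok TH_l8092 _)
                 (CovZ.leaf K2_ok TH_l8093 _))
                (CovZ.n1 (-44676, 49500) (by decide +kernel)
                 (CovZ.leaf K2_ok TH_l8094 _)
                 (CovZ.leaf K2_ok TH_l8095 _)))
               (CovZ.n1 (-44712, 49392) (by decide +kernel)
                (CovZ.leaf K2_ok TH_l8096 _)
                (CovZ.leaf K2_ok TH_l8097 _))))))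
           (CovZ.badM (by decide +kernel))))
         (CovZ.badM (by decide +kernel)))

theorem TH_u108 : CovZ TH_M (toL (selN TH_LN 47890485652059026823698344598447161988085597568237568)) [0, 7, 6, 1] (-43776, 49536) (-43776, 50688) (-44928, 49536) :=
    (CovZ.n1 (-44352, 50112) (by decide +kernel)
         (CovZ.badM (by decide +kernel))
         (CovZ.n1 (-44352, 49536) (by decide +kernel)
          (CovZ.n2 (-44640, 49824) (by decide +kernel)
           (CovZ.n2 (-44352, 49824) (by decide +kernel)
            (CovZ.n2 (-44496, 49680) (by decide +kernel)
             (CovZ.n2 (-44496, 49824) (by decide +kernel)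
              (CovZ.badM (by decide +kernel))
              (CovZ.n1 (-44568, 49752) (by decide +kernel)
               (CovZ.n2 (-44568, 49824) (by decide +kernel)
                (CovZ.n2 (-44532, 49788) (by decide +kernel)
                 (CovZ.leaf K2_ok TH_l8098 _)
                 (CovZ.n1 (-44532, 49824) (by decide +kernel)
                  (CovZ.badM (by decide +kernel))
                  (CovZ.leaf K2_ok TH_l8099 _)))
                (CovZ.n1 (-44604, 49788) (by decide +kernel)
                 (CovZ.leaf K2_ok TH_l8100 _)
                 (CovZ.leaf K2_ok TH_l8101 _)))
               (CovZ.n1 (-44496, 49752) (by decide +kernel)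
                (CovZ.n2 (-44532, 49716) (by decide +kernel)
                 (CovZ.leaf K2_ok TH_l8102 _)
                 (CovZ.badM (by decide +kernel)))
                (CovZ.n1 (-44532, 49788) (by decide +kernel)
                 (CovZ.badM (by decide +kernel))
                 (CovZ.leaf K2_ok TH_l8103 _)))))
             (CovZ.badM (by decide +kernel)))
            (CovZ.n1 (-44496, 49968) (by decide +kernel)
             (CovZ.badM (by decide +kernel))
             (CovZ.n1 (-44496, 49824) (by decide +kernel)
              (CovZ.n2 (-44568, 49896) (by decide +kernel)
               (CovZ.n2 (-44496, 49896) (by decide +kernel)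
                (CovZ.n2 (-44532, 49860) (by decide +kernel)
                 (CovZ.leaf K2_ok TH_l8104 _)
                 (CovZ.badM (by decide +kernel)))
                (CovZ.n1 (-44532, 49932) (by decide +kernel)
                 (CovZ.badM (by decide +kernel))
                 (CovZ.leaf K2_ok TH_l8105 _)))
               (CovZ.n1 (-44568, 49824) (by decide +kernel)
                (CovZ.n2 (-44604, 49860) (by decide +kernel)
                 (CovZ.leaf K2_ok TH_l8106 _)
                 (CovZ.leaf K2_ok TH_l8107 _))
                (CovZ.n1 (-44532, 49860) (by decide +kernel)
                 (CovZ.leaf K2_ok TH_l8108 _)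
                 (CovZ.leaf K2_ok TH_l8109 _))))
              (CovZ.badM (by decide +kernel)))))
           (CovZ.n1 (-44640, 49536) (by decide +kernel)
            (CovZ.n2 (-44784, 49680) (by decide +kernel)
             (CovZ.n2 (-44640, 49680) (by decide +kernel)
              (CovZ.n2 (-44712, 49608) (by decide +kernel)
               (CovZ.n2 (-44712, 49680) (by decide +kernel)
                (CovZ.leaf K2_ok TH_l8110 _)
                (CovZ.leaf K2_ok TH_l8111 _))
               (CovZ.n1 (-44640, 49608) (by decide +kernel)
                (CovZ.n2 (-44676, 49572) (by decide +kernel)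
                 (CovZ.n2 (-44676, 49608) (by decide +kernel)
                  (CovZ.leaf K2_ok TH_l8112 _)
                  (CovZ.leaf K2_ok TH_l8113 _))
                 (CovZ.leaf K2_ok TH_l8114 _))
                (CovZ.leaf K2_ok TH_l8115 _)))
              (CovZ.n1 (-44712, 49752) (by decide +kernel)
               (CovZ.n2 (-44640, 49752) (by decide +kernel)
                (CovZ.n2 (-44676, 49716) (by decide +kernel)
                 (CovZ.leaf K2_ok TH_l8116 _)
                 (CovZ.leaf K2_ok TH_l8117 _))
                (CovZ.leaf K2_ok TH_l8118 _))
               (CovZ.n1 (-44712, 49680) (by decide +kernel)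
                (CovZ.leaf K2_ok TH_l8119 _)
                (CovZ.leaf K2_ok TH_l8120 _))))
             (CovZ.n1 (-44784, 49536) (by decide +kernel)
              (CovZ.n2 (-44856, 49608) (by decide +kernel)
               (CovZ.n2 (-44784, 49608) (by decide +kernel)
                (CovZ.leaf K2_ok TH_l8121 _)
                (CovZ.leaf K2_ok TH_l8122 _))
               (CovZ.n1 (-44856, 49536) (by decide +kernel)
                (CovZ.leaf K2_ok TH_l8123 _)
                (CovZ.leaf K2_ok TH_l8124 _)))
              (CovZ.n1 (-44712, 49608) (by decide +kernel)
               (CovZ.n2 (-44712, 49536) (by decide +kernel)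
                (CovZ.leaf K2_ok TH_l8125 _)
                (CovZ.leaf K2_ok TH_l8126 _))
               (CovZ.n1 (-44784, 49608) (by decide +kernel)
                (CovZ.leaf K2_ok TH_l8127 _)
                (CovZ.leaf K2_ok TH_l8128 _)))))
            (CovZ.n1 (-44496, 49680) (by decide +kernel)
             (CovZ.n2 (-44496, 49536) (by decide +kernel)
              (CovZ.n2 (-44568, 49608) (by decide +kernel)
               (CovZ.n2 (-44496, 49608) (by decide +kernel)
                (CovZ.n2 (-44532, 49572) (by decide +kernel)
                 (CovZ.n2 (-44532, 49608) (by decide +kernel)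
                  (CovZ.badM (by decide +kernel))
                  (CovZ.leaf K2_ok TH_l8129 _))
                 (CovZ.badM (by decide +kernel)))
                (CovZ.n1 (-44532, 49644) (by decide +kernel)
                 (CovZ.badM (by decide +kernel))
                 (CovZ.n1 (-44532, 49608) (by decide +kernel)
                  (CovZ.leaf K2_ok TH_l8130 _)
                  (CovZ.badM (by decide +kernel)))))
               (CovZ.n1 (-44568, 49536) (by decide +kernel)
                (CovZ.n2 (-44604, 49572) (by decide +kernel)
                 (CovZ.leaf K2_ok TH_l8131 _)
                 (CovZ.leaf K2_ok TH_l8132 _))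
                (CovZ.n1 (-44532, 49572) (by decide +kernel)
                 (CovZ.n2 (-44532, 49536) (by decide +kernel)
                  (CovZ.leaf K2_ok TH_l8133 _)
                  (CovZ.badM (by decide +kernel)))
                 (CovZ.leaf K2_ok TH_l8134 _))))
              (CovZ.badM (by decide +kernel)))
             (CovZ.n1 (-44640, 49680) (by decide +kernel)
              (CovZ.n2 (-44568, 49752) (by decide +kernel)
               (CovZ.n2 (-44568, 49680) (by decide +kernel)
                (CovZ.n2 (-44604, 49716) (by decide +kernel)
                 (CovZ.leaf K2_ok TH_l8135 _)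
                 (CovZ.leaf K2_ok TH_l8136 _))
                (CovZ.n1 (-44532, 49716) (by decide +kernel)
                 (CovZ.leaf K2_ok TH_l8137 _)
                 (CovZ.leaf K2_ok TH_l8138 _)))
               (CovZ.n1 (-44640, 49752) (by decide +kernel)
                (CovZ.leaf K2_ok TH_l8139 _)
                (CovZ.n1 (-44604, 49716) (by decide +kernel)
                 (CovZ.leaf K2_ok TH_l8140 _)
                 (CovZ.leaf K2_ok TH_l8141 _))))
              (CovZ.n1 (-44568, 49608) (by decide +kernel)
               (CovZ.n2 (-44640, 49608) (by decide +kernel)
                (CovZ.n2 (-44604, 49644) (by decide +kernel)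
                 (CovZ.leaf K2_ok TH_l8142 _)
                 (CovZ.leaf K2_ok TH_l8143 _))
                (CovZ.n1 (-44604, 49572) (by decide +kernel)
                 (CovZ.leaf K2_ok TH_l8144 _)
                 (CovZ.n1 (-44604, 49608) (by decide +kernel)
                  (CovZ.leaf K2_ok TH_l8145 _)
                  (CovZ.leaf K2_ok TH_l8146 _))))
               (CovZ.n1 (-44568, 49680) (by decide +kernel)
                (CovZ.n2 (-44532, 49644) (by decide +kernel)
                 (CovZ.leaf K2_ok TH_l8147 _)
                 (CovZ.n1 (-44532, 49680) (by decide +kernel)
                  (CovZ.badM (by decide +kernel))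
                  (CovZ.leaf K2_ok TH_l8148 _)))
                (CovZ.n1 (-44604, 49644) (by decide +kernel)
                 (CovZ.leaf K2_ok TH_l8149 _)
                 (CovZ.leaf K2_ok TH_l8150 _))))))))
          (CovZ.badM (by decide +kernel))))

end Pool.Agent.TET
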