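import Pool.Agent.Helper38_TET.TH_M
import Pool.Agent.Helper38_TET.TH_L
import Pool.Agent.Helper38_TET.TH_0
import Pool.Agent.Helper38_TET.TH_4
import Pool.Agent.Helper38_TET.TH_5
import Pool.Agent.Helper38_TET.TH_6
import Pool.Agent.Helper38_TET.TH_44
import Pool.Agent.Helper38_TET.TH_45
import Pool.Agent.Helper38_TET.TH_46
import Pool.Agent.Helper38_TET.TH_53
import Pool.Agent.Helper38_TET.TH_U0
import Pool.Agent.Helper38_TET.TH_U1
import Pool.Agent.Helper38_TET.TH_U2
import Pool.Agent.Helper38_TET.TH_U3
import Pool.Agent.Helper38_TET.TH_U4
import Pool.Agent.Helper38_TET.TH_U5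
import Pool.Agent.Helper38_TET.TH_U6
import Pool.Agent.Helper38_TET.TH_U7

/-!
# MP_c7c9bf_co: certificates, family TH
-/

set_option autoImplicit false
set_option maxRecDepth 100000

namespace Pool.Agent.TET

theorem TH_s0_0 : SqZ TH_M TH_L [0, 7, 6, 1] (-55296) 36864 4608 0 0 :=
  SqZ.mk (a := (-55296)) (b := (-50688)) (c := 36864) (d := 41472) (by norm_num) (by norm_num) (by norm_num) (by norm_num)
    (CovZ.topM TH_LL 1092824213032768387033126663533446262531211280009093942894700234 (by decide +kernel) (CovZ.n2 (-52992, 39168) (by decide +kernel)
    (CovZ.n2 (-50688, 39168) (by decide +kernel)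
     (CovZ.n2 (-51840, 38016) (by decide +kernel)
      (CovZ.n2 (-51840, 39168) (by decide +kernel)
       (CovZ.n2 (-51264, 38592) (by decide +kernel)
        (CovZ.n2 (-51840, 38592) (by decide +kernel)
         (CovZ.leaf K2_ok TH_l0 _)
         (CovZ.leaf K2_ok TH_l1 _))
        (CovZ.n1 (-51264, 39168) (by decide +kernel)
         (CovZ.n2 (-50976, 38880) (by decide +kernel)
          (CovZ.leaf K2_ok TH_l2 _)
          (CovZ.leaf K2_ok TH_l3 _))
         (CovZ.leaf K2_ok TH_l4 _)))
       (CovZ.n1 (-52416, 38592) (by decide +kernel)
        (CovZ.leaf K2_ok TH_l5 _)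
        (CovZ.leaf K2_ok TH_l6 _)))
      (CovZ.n1 (-50688, 38016) (by decide +kernel)
       (CovZ.n2 (-51264, 37440) (by decide +kernel)
        (CovZ.n2 (-51264, 38016) (by decide +kernel)
         (CovZ.n2 (-50976, 37728) (by decide +kernel)
          (CovZ.leaf K2_ok TH_l7 _)
          (CovZ.leaf K2_ok TH_l8 _))
         (CovZ.leaf K2_ok TH_l9 _))
        (CovZ.n1 (-50688, 37440) (by decide +kernel)
         (CovZ.n2 (-50976, 37152) (by decide +kernel)
          (CovZ.leaf K2_ok TH_l10 _)
          (CovZ.leaf K2_ok TH_l11 _))
         (CovZ.n1 (-50976, 37728) (by decide +kernel)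
          (CovZ.leaf K2_ok TH_l12 _)
          (CovZ.leaf K2_ok TH_l13 _))))
       (CovZ.n1 (-51264, 38592) (by decide +kernel)
        (CovZ.n2 (-50688, 38592) (by decide +kernel)
         (CovZ.n2 (-50976, 38304) (by decide +kernel)
          (CovZ.leaf K2_ok TH_l14 _)
          (CovZ.leaf K2_ok TH_l15 _))
         (CovZ.n1 (-50976, 38880) (by decide +kernel)
          (CovZ.leaf K2_ok TH_l16 _)
          (CovZ.leaf K2_ok TH_l17 _)))
        (CovZ.n1 (-51264, 38016) (by decide +kernel)
         (CovZ.leaf K2_ok TH_l18 _)
         (CovZ.n1 (-50976, 38304) (by decide +kernel)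
          (CovZ.leaf K2_ok TH_l19 _)
          (CovZ.leaf K2_ok TH_l20 _))))))
     (CovZ.n1 (-51840, 40320) (by decide +kernel)
      (CovZ.n2 (-50688, 40320) (by decide +kernel)
       (CovZ.n2 (-51264, 39744) (by decide +kernel)
        (CovZ.n2 (-51264, 40320) (by decide +kernel)
         (CovZ.n2 (-50976, 40032) (by decide +kernel)
          (CovZ.leaf K2_ok TH_l21 _)
          (CovZ.leaf K2_ok TH_l22 _))
         (CovZ.leaf K2_ok TH_l23 _))
        (CovZ.n1 (-50688, 39744) (by decide +kernel)
         (CovZ.n2 (-50976, 39456) (by decide +kernel)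
          (CovZ.leaf K2_ok TH_l24 _)
          (CovZ.leaf K2_ok TH_l25 _))
         (CovZ.n1 (-50976, 40032) (by decide +kernel)
          (CovZ.leaf K2_ok TH_l26 _)
          (CovZ.leaf K2_ok TH_l27 _))))
       (CovZ.n1 (-51264, 40896) (by decide +kernel)
        (CovZ.n2 (-50688, 40896) (by decide +kernel)
         (CovZ.n2 (-50976, 40608) (by decide +kernel)
          (CovZ.leaf K2_ok TH_l28 _)
          (CovZ.leaf K2_ok TH_l29 _))
         (CovZ.n1 (-50976, 41184) (by decide +kernel)
          (CovZ.leaf K2_ok TH_l30 _)
          (CovZ.leaf K2_ok TH_l31 _)))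
        (CovZ.n1 (-51264, 40320) (by decide +kernel)
         (CovZ.leaf K2_ok TH_l32 _)
         (CovZ.leaf K2_ok TH_l33 _))))
      (CovZ.n1 (-51840, 39168) (by decide +kernel)
       (CovZ.n2 (-52416, 39744) (by decide +kernel)
        (CovZ.leaf K2_ok TH_l34 _)
        (CovZ.leaf K2_ok TH_l35 _))
       (CovZ.n1 (-51264, 39744) (by decide +kernel)
        (CovZ.n2 (-51264, 39168) (by decide +kernel)
         (CovZ.leaf K2_ok TH_l36 _)
         (CovZ.n1 (-50976, 39456) (by decide +kernel)
          (CovZ.leaf K2_ok TH_l37 _)
          (CovZ.leaf K2_ok TH_l38 _)))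
        (CovZ.n1 (-51840, 39744) (by decide +kernel)
         (CovZ.leaf K2_ok TH_l39 _)
         (CovZ.leaf K2_ok TH_l40 _))))))
    (CovZ.n1 (-52992, 36864) (by decide +kernel)
     (CovZ.subM 1605653654294204866190572011003767189186544128 (by decide +kernel)
      (CovZ.n2 (-54144, 38016) (by decide +kernel)
       (CovZ.n2 (-52992, 38016) (by decide +kernel)
        (CovZ.leaf K2_ok TH_l41 _)
        (CovZ.leaf K2_ok TH_l42 _))
       (CovZ.n1 (-54144, 36864) (by decide +kernel)
        (CovZ.leaf K2_ok TH_l43 _)
        (CovZ.leaf K2_ok TH_l44 _))))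
     (CovZ.n1 (-51840, 38016) (by decide +kernel)
      (CovZ.subM 218648347674363526758441438154321432297394412668159208060920522 (by decide +kernel)
       (CovZ.n2 (-51840, 36864) (by decide +kernel)
        (CovZ.n2 (-52416, 37440) (by decide +kernel)
         (CovZ.leaf K2_ok TH_l45 _)
         (CovZ.leaf K2_ok TH_l46 _))
        (CovZ.n1 (-51264, 37440) (by decide +kernel)
         (CovZ.n2 (-51264, 36864) (by decide +kernel)
          (CovZ.leaf K2_ok TH_l47 _)
          (CovZ.n1 (-50976, 37152) (by decide +kernel)
           (CovZ.leaf K2_ok TH_l48 _)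
           (CovZ.leaf K2_ok TH_l49 _)))
         (CovZ.n1 (-51840, 37440) (by decide +kernel)
          (CovZ.leaf K2_ok TH_l50 _)
          (CovZ.leaf K2_ok TH_l51 _)))))
      (CovZ.subM 3138550867694767630972394755701839006562977033070312464904 (by decide +kernel)
       (CovZ.n1 (-52992, 38016) (by decide +kernel)
        (CovZ.n2 (-52416, 38592) (by decide +kernel)
         (CovZ.leaf K2_ok TH_l52 _)
         (CovZ.leaf K2_ok TH_l53 _))
        (CovZ.n1 (-52416, 37440) (by decide +kernel)
         (CovZ.leaf K2_ok TH_l54 _)
         (CovZ.leaf K2_ok TH_l55 _))))))))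
    (CovZ.topM TH_LL 1092824213032768398451108205181125315949259192746576271000512202 (by decide +kernel) (CovZ.n0 (-52992, 39168) (by decide +kernel)
    (CovZ.subM 1569275433848276547296329252410985988108415356327861158400 (by decide +kernel)
     (CovZ.n2 (-55296, 39168) (by decide +kernel)
      (CovZ.n2 (-54144, 40320) (by decide +kernel)
       (CovZ.n2 (-54144, 39168) (by decide +kernel)
        (CovZ.leaf K2_ok TH_l56 _)
        (CovZ.n1 (-53568, 39744) (by decide +kernel)
         (CovZ.leaf K2_ok TH_l57 _)
         (CovZ.leaf K2_ok TH_l58 _)))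
       (CovZ.n1 (-55296, 40320) (by decide +kernel)
        (CovZ.leaf K2_ok TH_l59 _)
        (CovZ.leaf K2_ok TH_l60 _)))
      (CovZ.subM 1605653654294204866190572011003767326625497600 (by decide +kernel)
       (CovZ.n1 (-54144, 38016) (by decide +kernel)
        (CovZ.n2 (-55296, 38016) (by decide +kernel)
         (CovZ.leaf K2_ok TH_l61 _)
         (CovZ.leaf K2_ok TH_l62 _))
        (CovZ.n1 (-54144, 39168) (by decide +kernel)
         (CovZ.leaf K2_ok TH_l63 _)
         (CovZ.leaf K2_ok TH_l64 _))))))
    (CovZ.n1 (-52992, 41472) (by decide +kernel)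
     (CovZ.n2 (-51840, 40320) (by decide +kernel)
      (CovZ.subM 4707826395169065572087193937524715937241459461693321553416 (by decide +kernel)
       (CovZ.n2 (-52992, 40320) (by decide +kernel)
        (CovZ.n2 (-52416, 40896) (by decide +kernel)
         (CovZ.n2 (-52416, 40320) (by decide +kernel)
          (CovZ.leaf K2_ok TH_l65 _)
          (CovZ.leaf K2_ok TH_l66 _))
         (CovZ.leaf K2_ok TH_l67 _))
        (CovZ.n1 (-52416, 39744) (by decide +kernel)
         (CovZ.leaf K2_ok TH_l68 _)
         (CovZ.n1 (-52416, 40320) (by decide +kernel)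
          (CovZ.leaf K2_ok TH_l69 _)
          (CovZ.leaf K2_ok TH_l70 _)))))
      (CovZ.n1 (-51840, 41472) (by decide +kernel)
       (CovZ.n2 (-51264, 40896) (by decide +kernel)
        (CovZ.n2 (-51840, 40896) (by decide +kernel)
         (CovZ.leaf K2_ok TH_l71 _)
         (CovZ.leaf K2_ok TH_l72 _))
        (CovZ.n1 (-51264, 41472) (by decide +kernel)
         (CovZ.n2 (-50976, 41184) (by decide +kernel)
          (CovZ.leaf K2_ok TH_l73 _)
          (CovZ.leaf K2_ok TH_l74 _))
         (CovZ.leaf K2_ok TH_l75 _)))
       (CovZ.subM 4707832381479772079465546899817790743136707972393017583112 (by decide +kernel)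
        (CovZ.n1 (-52416, 40896) (by decide +kernel)
         (CovZ.n2 (-52416, 41472) (by decide +kernel)
          (CovZ.leaf K2_ok TH_l76 _)
          (CovZ.leaf K2_ok TH_l77 _))
         (CovZ.n1 (-51840, 40896) (by decide +kernel)
          (CovZ.leaf K2_ok TH_l78 _)
          (CovZ.leaf K2_ok TH_l79 _))))))
     (CovZ.subM 1569275433848276547296495405910459102592528332210396725760 (by decide +kernel)
      (CovZ.n1 (-54144, 40320) (by decide +kernel)
       (CovZ.n2 (-54144, 41472) (by decide +kernel)
        (CovZ.n2 (-53568, 40896) (by decide +kernel)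
         (CovZ.leaf K2_ok TH_l80 _)
         (CovZ.leaf K2_ok TH_l81 _))
        (CovZ.leaf K2_ok TH_l82 _))
       (CovZ.n1 (-52992, 40320) (by decide +kernel)
        (CovZ.n2 (-53568, 39744) (by decide +kernel)
         (CovZ.leaf K2_ok TH_l83 _)
         (CovZ.leaf K2_ok TH_l84 _))
        (CovZ.n1 (-53568, 40896) (by decide +kernel)
         (CovZ.leaf K2_ok TH_l85 _)
         (CovZ.leaf K2_ok TH_l86 _))))))))

theorem TH_s1_0 : SqZ TH_M TH_L [0, 7, 6, 1] (-55296) 36864 4608 1 0 :=
  SqZ.mk (a := (-50688)) (b := (-46080)) (c := 36864) (d := 41472) (by norm_num) (by norm_num) (by norm_num) (by norm_num)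
    (CovZ.topM TH_LL 431415086924347769394276890760080916574264047636934210079432086896639 (by decide +kernel) (CovZ.n2 (-48384, 39168) (by decide +kernel)
    TH_u0
    TH_u1))
    (CovZ.topM TH_LL 431415086924347769394276890761442046041947821438064022632716507791359 (by decide +kernel) (CovZ.n0 (-48384, 39168) (by decide +kernel)
    TH_u2
    TH_u3))

theorem TH_s2_0 : SqZ TH_M TH_L [0, 7, 6, 1] (-55296) 36864 4608 2 0 :=
  SqZ.mk (a := (-46080)) (b := (-41472)) (c := 36864) (d := 41472) (by norm_num) (by norm_num) (by norm_num) (by norm_num)
    (CovZ.topM TH_LL 1569281420181640954801513654766408164712804406089397830144 (by decide +kernel) (CovZ.n2 (-43776, 39168) (by decide +kernel)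
    (CovZ.subM 166153509376634798396018081732231168 (by decide +kernel)
     (CovZ.n2 (-41472, 39168) (by decide +kernel)
      (CovZ.n2 (-42624, 38016) (by decide +kernel)
       (CovZ.n2 (-42624, 39168) (by decide +kernel)
        (CovZ.badM (by decide +kernel))
        (CovZ.n1 (-43200, 38592) (by decide +kernel)
         (CovZ.n2 (-43200, 39168) (by decide +kernel)
          (CovZ.badM (by decide +kernel))
          (CovZ.n1 (-43488, 38880) (by decide +kernel)
           (CovZ.n2 (-43488, 39168) (by decide +kernel)
            (CovZ.badM (by decide +kernel))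
            (CovZ.n1 (-43632, 39024) (by decide +kernel)
             (CovZ.n2 (-43632, 39168) (by decide +kernel)
              (CovZ.badM (by decide +kernel))
              (CovZ.n1 (-43704, 39096) (by decide +kernel)
               (CovZ.n2 (-43704, 39168) (by decide +kernel)
                (CovZ.badM (by decide +kernel))
                (CovZ.leaf K2_ok TH_l6615 _))
               (CovZ.badM (by decide +kernel))))
             (CovZ.badM (by decide +kernel))))
           (CovZ.badM (by decide +kernel))))
         (CovZ.badM (by decide +kernel))))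
       (CovZ.badM (by decide +kernel)))
      (CovZ.n1 (-42624, 40320) (by decide +kernel)
       (CovZ.badM (by decide +kernel))
       (CovZ.n1 (-42624, 39168) (by decide +kernel)
        (CovZ.n2 (-43200, 39744) (by decide +kernel)
         (CovZ.badM (by decide +kernel))
         (CovZ.n1 (-43200, 39168) (by decide +kernel)
          (CovZ.n2 (-43488, 39456) (by decide +kernel)
           (CovZ.n2 (-43200, 39456) (by decide +kernel)
            (CovZ.badM (by decide +kernel))
            (CovZ.n1 (-43344, 39600) (by decide +kernel)
             (CovZ.badM (by decide +kernel))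
             (CovZ.n1 (-43344, 39456) (by decide +kernel)
              (CovZ.n2 (-43416, 39528) (by decide +kernel)
               (CovZ.n2 (-43344, 39528) (by decide +kernel)
                (CovZ.badM (by decide +kernel))
                (CovZ.n1 (-43380, 39564) (by decide +kernel)
                 (CovZ.badM (by decide +kernel))
                 (CovZ.badM (by decide +kernel))))
               (CovZ.badM (by decide +kernel)))
              (CovZ.n1 (-43272, 39528) (by decide +kernel)
               (CovZ.badM (by decide +kernel))
               (CovZ.n1 (-43344, 39528) (by decide +kernel)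
                (CovZ.badM (by decide +kernel))
                (CovZ.badM (by decide +kernel)))))))
           (CovZ.n1 (-43488, 39168) (by decide +kernel)
            (CovZ.n2 (-43632, 39312) (by decide +kernel)
             (CovZ.badM (by decide +kernel))
             (CovZ.n1 (-43632, 39168) (by decide +kernel)
              (CovZ.n2 (-43704, 39240) (by decide +kernel)
               (CovZ.badM (by decide +kernel))
               (CovZ.n1 (-43704, 39168) (by decide +kernel)
                (CovZ.leaf K2_ok TH_l6616 _)
                (CovZ.badM (by decide +kernel))))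
              (CovZ.badM (by decide +kernel))))
            (CovZ.badM (by decide +kernel))))
          (CovZ.n1 (-42912, 39456) (by decide +kernel)
           (CovZ.badM (by decide +kernel))
           (CovZ.n1 (-43200, 39456) (by decide +kernel)
            (CovZ.badM (by decide +kernel))
            (CovZ.badM (by decide +kernel))))))
        (CovZ.badM (by decide +kernel))))))
    (CovZ.n1 (-43776, 36864) (by decide +kernel)
     TH_u4
     TH_u5)))
    (CovZ.topM TH_LL 1569281420181640954801513654766408164712804406089397830144 (by decide +kernel) (CovZ.n0 (-43776, 39168) (by decide +kernel)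
    (CovZ.n2 (-46080, 39168) (by decide +kernel)
     TH_u6
     TH_u7)
    (CovZ.n1 (-43776, 41472) (by decide +kernel)
     (CovZ.subM 166153509376634798396018081732231168 (by decide +kernel)
      (CovZ.n2 (-42624, 40320) (by decide +kernel)
       (CovZ.n2 (-43776, 40320) (by decide +kernel)
        (CovZ.badM (by decide +kernel))
        (CovZ.n1 (-43200, 39744) (by decide +kernel)
         (CovZ.n2 (-43776, 39744) (by decide +kernel)
          (CovZ.n2 (-43488, 40032) (by decide +kernel)
           (CovZ.n2 (-43488, 39744) (by decide +kernel)
            (CovZ.n2 (-43632, 39888) (by decide +kernel)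
             (CovZ.badM (by decide +kernel))
             (CovZ.n1 (-43632, 39744) (by decide +kernel)
              (CovZ.n2 (-43704, 39816) (by decide +kernel)
               (CovZ.badM (by decide +kernel))
               (CovZ.n1 (-43704, 39744) (by decide +kernel)
                (CovZ.leaf K2_ok TH_l6854 _)
                (CovZ.badM (by decide +kernel))))
              (CovZ.badM (by decide +kernel))))
            (CovZ.badM (by decide +kernel)))
           (CovZ.n1 (-43776, 40032) (by decide +kernel)
            (CovZ.n2 (-43632, 40176) (by decide +kernel)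
             (CovZ.n2 (-43632, 40032) (by decide +kernel)
              (CovZ.n2 (-43704, 40104) (by decide +kernel)
               (CovZ.badM (by decide +kernel))
               (CovZ.n1 (-43704, 40032) (by decide +kernel)
                (CovZ.leaf K2_ok TH_l6855 _)
                (CovZ.badM (by decide +kernel))))
              (CovZ.badM (by decide +kernel)))
             (CovZ.n1 (-43776, 40176) (by decide +kernel)
              (CovZ.badM (by decide +kernel))
              (CovZ.n1 (-43704, 40104) (by decide +kernel)
               (CovZ.leaf K2_ok TH_l6856 _)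
               (CovZ.n1 (-43704, 40176) (by decide +kernel)
                (CovZ.badM (by decide +kernel))
                (CovZ.leaf K2_ok TH_l6857 _)))))
            (CovZ.n1 (-43632, 39888) (by decide +kernel)
             (CovZ.n2 (-43776, 39888) (by decide +kernel)
              (CovZ.n2 (-43704, 39960) (by decide +kernel)
               (CovZ.n2 (-43704, 39888) (by decide +kernel)
                (CovZ.leaf K2_ok TH_l6858 _)
                (CovZ.badM (by decide +kernel)))
               (CovZ.leaf K2_ok TH_l6859 _))
              (CovZ.n1 (-43704, 39816) (by decide +kernel)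
               (CovZ.leaf K2_ok TH_l6860 _)
               (CovZ.n1 (-43704, 39888) (by decide +kernel)
                (CovZ.badM (by decide +kernel))
                (CovZ.leaf K2_ok TH_l6861 _))))
             (CovZ.n1 (-43632, 40032) (by decide +kernel)
              (CovZ.badM (by decide +kernel))
              (CovZ.n1 (-43704, 39960) (by decide +kernel)
               (CovZ.n2 (-43704, 40032) (by decide +kernel)
                (CovZ.badM (by decide +kernel))
                (CovZ.leaf K2_ok TH_l6862 _))
               (CovZ.badM (by decide +kernel)))))))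
          (CovZ.n1 (-43488, 39456) (by decide +kernel)
           (CovZ.n2 (-43776, 39456) (by decide +kernel)
            (CovZ.n2 (-43632, 39600) (by decide +kernel)
             (CovZ.n2 (-43632, 39456) (by decide +kernel)
              (CovZ.n2 (-43704, 39528) (by decide +kernel)
               (CovZ.leaf K2_ok TH_l6863 _)
               (CovZ.n1 (-43704, 39456) (by decide +kernel)
                (CovZ.leaf K2_ok TH_l6864 _)
                (CovZ.leaf K2_ok TH_l6865 _)))
              (CovZ.n1 (-43560, 39528) (by decide +kernel)
               (CovZ.badM (by decide +kernel))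
               (CovZ.n1 (-43632, 39528) (by decide +kernel)
                (CovZ.leaf K2_ok TH_l6866 _)
                (CovZ.badM (by decide +kernel)))))
             (CovZ.n1 (-43776, 39600) (by decide +kernel)
              (CovZ.n2 (-43704, 39672) (by decide +kernel)
               (CovZ.n2 (-43704, 39600) (by decide +kernel)
                (CovZ.leaf K2_ok TH_l6867 _)
                (CovZ.leaf K2_ok TH_l6868 _))
               (CovZ.leaf K2_ok TH_l6869 _))
              (CovZ.n1 (-43704, 39528) (by decide +kernel)
               (CovZ.leaf K2_ok TH_l6870 _)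
               (CovZ.n1 (-43704, 39600) (by decide +kernel)
                (CovZ.leaf K2_ok TH_l6871 _)
                (CovZ.leaf K2_ok TH_l6872 _)))))
            (CovZ.n1 (-43632, 39312) (by decide +kernel)
             (CovZ.n2 (-43776, 39312) (by decide +kernel)
              (CovZ.n2 (-43704, 39384) (by decide +kernel)
               (CovZ.leaf K2_ok TH_l6873 _)
               (CovZ.leaf K2_ok TH_l6874 _))
              (CovZ.n1 (-43704, 39240) (by decide +kernel)
               (CovZ.leaf K2_ok TH_l6875 _)
               (CovZ.n1 (-43704, 39312) (by decide +kernel)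
                (CovZ.badM (by decide +kernel))
                (CovZ.leaf K2_ok TH_l6876 _))))
             (CovZ.n1 (-43632, 39456) (by decide +kernel)
              (CovZ.badM (by decide +kernel))
              (CovZ.n1 (-43704, 39384) (by decide +kernel)
               (CovZ.n2 (-43704, 39456) (by decide +kernel)
                (CovZ.badM (by decide +kernel))
                (CovZ.leaf K2_ok TH_l6877 _))
               (CovZ.badM (by decide +kernel))))))
           (CovZ.n1 (-43488, 39744) (by decide +kernel)
            (CovZ.n2 (-43344, 39600) (by decide +kernel)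
             (CovZ.n2 (-43488, 39600) (by decide +kernel)
              (CovZ.badM (by decide +kernel))
              (CovZ.n1 (-43416, 39528) (by decide +kernel)
               (CovZ.n2 (-43488, 39528) (by decide +kernel)
                (CovZ.n2 (-43452, 39564) (by decide +kernel)
                 (CovZ.badM (by decide +kernel))
                 (CovZ.leaf K2_ok TH_l6878 _))
                (CovZ.badM (by decide +kernel)))
               (CovZ.n1 (-43416, 39600) (by decide +kernel)
                (CovZ.n2 (-43380, 39564) (by decide +kernel)
                 (CovZ.leaf K2_ok TH_l6879 _)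
                 (CovZ.badM (by decide +kernel)))
                (CovZ.leaf K2_ok TH_l6880 _))))
             (CovZ.badM (by decide +kernel)))
            (CovZ.n1 (-43632, 39600) (by decide +kernel)
             (CovZ.n2 (-43632, 39744) (by decide +kernel)
              (CovZ.n2 (-43560, 39672) (by decide +kernel)
               (CovZ.leaf K2_ok TH_l6881 _)
               (CovZ.badM (by decide +kernel)))
              (CovZ.n1 (-43704, 39672) (by decide +kernel)
               (CovZ.n2 (-43704, 39744) (by decide +kernel)
                (CovZ.leaf K2_ok TH_l6882 _)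
                (CovZ.leaf K2_ok TH_l6883 _))
               (CovZ.leaf K2_ok TH_l6884 _)))
             (CovZ.n1 (-43488, 39600) (by decide +kernel)
              (CovZ.n2 (-43560, 39528) (by decide +kernel)
               (CovZ.n2 (-43560, 39600) (by decide +kernel)
                (CovZ.leaf K2_ok TH_l6885 _)
                (CovZ.leaf K2_ok TH_l6886 _))
               (CovZ.n1 (-43488, 39528) (by decide +kernel)
                (CovZ.badM (by decide +kernel))
                (CovZ.leaf K2_ok TH_l6887 _)))
              (CovZ.n1 (-43560, 39672) (by decide +kernel)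
               (CovZ.badM (by decide +kernel))
               (CovZ.n1 (-43560, 39600) (by decide +kernel)
                (CovZ.leaf K2_ok TH_l6888 _)
                (CovZ.leaf K2_ok TH_l6889 _))))))))
         (CovZ.n1 (-43200, 40320) (by decide +kernel)
          (CovZ.badM (by decide +kernel))
          (CovZ.n1 (-43488, 40032) (by decide +kernel)
           (CovZ.badM (by decide +kernel))
           (CovZ.badM (by decide +kernel))))))
       (CovZ.badM (by decide +kernel))))
     (CovZ.n1 (-44928, 40320) (by decide +kernel)
      TH_u8
      TH_u9))))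

theorem TH_s0_1 : SqZ TH_M TH_L [0, 7, 6, 1] (-55296) 36864 4608 0 1 :=
  SqZ.mk (a := (-55296)) (b := (-50688)) (c := 41472) (d := 46080) (by norm_num) (by norm_num) (by norm_num) (by norm_num)
    (CovZ.topM TH_LL 431304292795625877147848274687759603276580063356112590041013584193226 (by decide +kernel) (CovZ.n2 (-52992, 43776) (by decide +kernel)
    (CovZ.n2 (-50688, 43776) (by decide +kernel)
     (CovZ.n2 (-51840, 42624) (by decide +kernel)
      (CovZ.n2 (-51840, 43776) (by decide +kernel)
       (CovZ.n2 (-51264, 43200) (by decide +kernel)
        (CovZ.subM 822757011012913153276536736723710086031480167453396626839217672 (by decide +kernel)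
         (CovZ.n2 (-51840, 43200) (by decide +kernel)
          (CovZ.n2 (-51552, 43488) (by decide +kernel)
           (CovZ.n2 (-51552, 43200) (by decide +kernel)
            (CovZ.leaf K2_ok TH_l87 _)
            (CovZ.leaf K2_ok TH_l88 _))
           (CovZ.leaf K2_ok TH_l89 _))
          (CovZ.n1 (-51552, 42912) (by decide +kernel)
           (CovZ.leaf K2_ok TH_l90 _)
           (CovZ.leaf K2_ok TH_l91 _))))
        (CovZ.n1 (-51264, 43776) (by decide +kernel)
         (CovZ.n2 (-50976, 43488) (by decide +kernel)
          (CovZ.n2 (-51264, 43488) (by decide +kernel)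
           (CovZ.leaf K2_ok TH_l92 _)
           (CovZ.leaf K2_ok TH_l93 _))
          (CovZ.n1 (-50976, 43776) (by decide +kernel)
           (CovZ.leaf K2_ok TH_l94 _)
           (CovZ.leaf K2_ok TH_l95 _)))
         (CovZ.n1 (-51552, 43488) (by decide +kernel)
          (CovZ.n2 (-51552, 43776) (by decide +kernel)
           (CovZ.leaf K2_ok TH_l96 _)
           (CovZ.leaf K2_ok TH_l97 _))
          (CovZ.leaf K2_ok TH_l98 _))))
       (CovZ.subM 4708023943420953066519006275777528953944689123130508617224 (by decide +kernel)
        (CovZ.n1 (-52416, 43200) (by decide +kernel)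
         (CovZ.n2 (-52416, 43776) (by decide +kernel)
          (CovZ.n2 (-52128, 43488) (by decide +kernel)
           (CovZ.leaf K2_ok TH_l99 _)
           (CovZ.leaf K2_ok TH_l100 _))
          (CovZ.leaf K2_ok TH_l101 _))
         (CovZ.n1 (-51840, 43200) (by decide +kernel)
          (CovZ.leaf K2_ok TH_l102 _)
          (CovZ.leaf K2_ok TH_l103 _)))))
      (CovZ.n1 (-50688, 42624) (by decide +kernel)
       (CovZ.n2 (-51264, 42048) (by decide +kernel)
        (CovZ.n2 (-51264, 42624) (by decide +kernel)
         (CovZ.n2 (-50976, 42336) (by decide +kernel)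
          (CovZ.leaf K2_ok TH_l104 _)
          (CovZ.leaf K2_ok TH_l105 _))
         (CovZ.n1 (-51552, 42336) (by decide +kernel)
          (CovZ.leaf K2_ok TH_l106 _)
          (CovZ.leaf K2_ok TH_l107 _)))
        (CovZ.subM 1092824213032768386854720701903662902530646912790655880962549450 (by decide +kernel)
         (CovZ.n1 (-50688, 42048) (by decide +kernel)
          (CovZ.n2 (-50976, 41760) (by decide +kernel)
           (CovZ.leaf K2_ok TH_l108 _)
           (CovZ.leaf K2_ok TH_l109 _))
          (CovZ.n1 (-50976, 42336) (by decide +kernel)
           (CovZ.leaf K2_ok TH_l110 _)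
           (CovZ.leaf K2_ok TH_l111 _)))))
       (CovZ.n1 (-51264, 43200) (by decide +kernel)
        (CovZ.n2 (-50688, 43200) (by decide +kernel)
         (CovZ.n2 (-50976, 42912) (by decide +kernel)
          (CovZ.n2 (-50976, 43200) (by decide +kernel)
           (CovZ.leaf K2_ok TH_l112 _)
           (CovZ.leaf K2_ok TH_l113 _))
          (CovZ.n1 (-50688, 42912) (by decide +kernel)
           (CovZ.leaf K2_ok TH_l114 _)
           (CovZ.leaf K2_ok TH_l115 _)))
         (CovZ.subM 215680666160633513408809631053867121472093431253692509861555780232906 (by decide +kernel)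
          (CovZ.n1 (-50976, 43488) (by decide +kernel)
           (CovZ.n2 (-50688, 43488) (by decide +kernel)
            (CovZ.leaf K2_ok TH_l116 _)
            (CovZ.n1 (-50832, 43632) (by decide +kernel)
             (CovZ.leaf K2_ok TH_l117 _)
             (CovZ.leaf K2_ok TH_l118 _)))
           (CovZ.n1 (-50976, 43200) (by decide +kernel)
            (CovZ.leaf K2_ok TH_l119 _)
            (CovZ.leaf K2_ok TH_l120 _)))))
        (CovZ.n1 (-51264, 42624) (by decide +kernel)
         (CovZ.n2 (-51552, 42912) (by decide +kernel)
          (CovZ.leaf K2_ok TH_l121 _)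
          (CovZ.leaf K2_ok TH_l122 _))
         (CovZ.n1 (-50976, 42912) (by decide +kernel)
          (CovZ.n2 (-50976, 42624) (by decide +kernel)
           (CovZ.leaf K2_ok TH_l123 _)
           (CovZ.leaf K2_ok TH_l124 _))
          (CovZ.leaf K2_ok TH_l125 _))))))
     (CovZ.n1 (-51840, 44928) (by decide +kernel)
      (CovZ.subM 431304035582358929854137327918117149771231118396854383307199255461890 (by decide +kernel)
       (CovZ.n2 (-50688, 44928) (by decide +kernel)
        (CovZ.n2 (-51264, 44352) (by decide +kernel)
         TH_u14
         TH_u15)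
        (CovZ.n1 (-51264, 45504) (by decide +kernel)
         TH_u16
         TH_u17)))
      (CovZ.n1 (-51840, 43776) (by decide +kernel)
       (CovZ.subM 4708023943420953060733375270703437665124126766823898670592 (by decide +kernel)
        (CovZ.n2 (-52416, 44352) (by decide +kernel)
         (CovZ.n2 (-51840, 44352) (by decide +kernel)
          (CovZ.n2 (-52128, 44064) (by decide +kernel)
           (CovZ.n2 (-52128, 44352) (by decide +kernel)
            (CovZ.leaf K2_ok TH_l620 _)
            (CovZ.leaf K2_ok TH_l621 _))
           (CovZ.leaf K2_ok TH_l622 _))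
          (CovZ.n1 (-52128, 44640) (by decide +kernel)
           (CovZ.n2 (-51840, 44640) (by decide +kernel)
            (CovZ.leaf K2_ok TH_l623 _)
            (CovZ.leaf K2_ok TH_l624 _))
           (CovZ.leaf K2_ok TH_l625 _)))
         (CovZ.n1 (-52416, 43776) (by decide +kernel)
          (CovZ.leaf K2_ok TH_l626 _)
          (CovZ.n1 (-52128, 44064) (by decide +kernel)
           (CovZ.leaf K2_ok TH_l627 _)
           (CovZ.leaf K2_ok TH_l628 _)))))
       (CovZ.n1 (-51264, 44352) (by decide +kernel)
        (CovZ.subM 215680460472563848258054528932522867135010181645090905646921258936002 (by decide +kernel)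
         (CovZ.n2 (-51264, 43776) (by decide +kernel)
          (CovZ.n2 (-51552, 44064) (by decide +kernel)
           (CovZ.n2 (-51264, 44064) (by decide +kernel)
            (CovZ.leaf K2_ok TH_l629 _)
            (CovZ.leaf K2_ok TH_l630 _))
           (CovZ.leaf K2_ok TH_l631 _))
          (CovZ.n1 (-50976, 44064) (by decide +kernel)
           (CovZ.n2 (-50976, 43776) (by decide +kernel)
            (CovZ.leaf K2_ok TH_l632 _)
            (CovZ.n1 (-50832, 43920) (by decide +kernel)
             (CovZ.leaf K2_ok TH_l633 _)
             (CovZ.leaf K2_ok TH_l634 _)))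
           (CovZ.n1 (-51264, 44064) (by decide +kernel)
            (CovZ.leaf K2_ok TH_l635 _)
            (CovZ.leaf K2_ok TH_l636 _)))))
        (CovZ.subM 33700756492684027256529386344745606299274202365044110749046226347520 (by decide +kernel)
         (CovZ.n1 (-51840, 44352) (by decide +kernel)
          (CovZ.n2 (-51552, 44640) (by decide +kernel)
           (CovZ.n2 (-51552, 44352) (by decide +kernel)
            (CovZ.leaf K2_ok TH_l637 _)
            (CovZ.n1 (-51408, 44496) (by decide +kernel)
             (CovZ.leaf K2_ok TH_l638 _)
             (CovZ.leaf K2_ok TH_l639 _)))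
           (CovZ.n1 (-51840, 44640) (by decide +kernel)
            (CovZ.n2 (-51696, 44784) (by decide +kernel)
             (CovZ.leaf K2_ok TH_l640 _)
             (CovZ.leaf K2_ok TH_l641 _))
            (CovZ.leaf K2_ok TH_l642 _)))
          (CovZ.n1 (-51552, 44064) (by decide +kernel)
           (CovZ.leaf K2_ok TH_l643 _)
           (CovZ.n1 (-51552, 44352) (by decide +kernel)
            (CovZ.leaf K2_ok TH_l644 _)
            (CovZ.leaf K2_ok TH_l645 _)))))))))
    (CovZ.n1 (-52992, 41472) (by decide +kernel)
     (CovZ.subM 1569472982101591290782143171723132498961564397273995543040 (by decide +kernel)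
      (CovZ.n2 (-54144, 42624) (by decide +kernel)
       (CovZ.n2 (-52992, 42624) (by decide +kernel)
        (CovZ.n2 (-53568, 42048) (by decide +kernel)
         (CovZ.leaf K2_ok TH_l646 _)
         (CovZ.leaf K2_ok TH_l647 _))
        (CovZ.n1 (-53568, 43200) (by decide +kernel)
         (CovZ.leaf K2_ok TH_l648 _)
         (CovZ.leaf K2_ok TH_l649 _)))
       (CovZ.n1 (-54144, 41472) (by decide +kernel)
        (CovZ.leaf K2_ok TH_l650 _)
        (CovZ.n1 (-53568, 42048) (by decide +kernel)
         (CovZ.leaf K2_ok TH_l651 _)
         (CovZ.leaf K2_ok TH_l652 _)))))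
     (CovZ.n1 (-51840, 42624) (by decide +kernel)
      (CovZ.n2 (-51840, 41472) (by decide +kernel)
       (CovZ.subM 4707832381479772079465546909958995544962543184366647420424 (by decide +kernel)
        (CovZ.n2 (-52416, 42048) (by decide +kernel)
         (CovZ.n2 (-51840, 42048) (by decide +kernel)
          (CovZ.leaf K2_ok TH_l653 _)
          (CovZ.leaf K2_ok TH_l654 _))
         (CovZ.n1 (-52416, 41472) (by decide +kernel)
          (CovZ.leaf K2_ok TH_l655 _)
          (CovZ.leaf K2_ok TH_l656 _))))
       (CovZ.n1 (-51264, 42048) (by decide +kernel)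
        (CovZ.subM 1092824213032768386854720701903662902530646912790655880958355146 (by decide +kernel)
         (CovZ.n2 (-51264, 41472) (by decide +kernel)
          (CovZ.leaf K2_ok TH_l657 _)
          (CovZ.n1 (-50976, 41760) (by decide +kernel)
           (CovZ.n2 (-50976, 41472) (by decide +kernel)
            (CovZ.leaf K2_ok TH_l658 _)
            (CovZ.leaf K2_ok TH_l659 _))
           (CovZ.leaf K2_ok TH_l660 _))))
        (CovZ.n1 (-51840, 42048) (by decide +kernel)
         (CovZ.n2 (-51552, 42336) (by decide +kernel)
          (CovZ.leaf K2_ok TH_l661 _)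
          (CovZ.leaf K2_ok TH_l662 _))
         (CovZ.leaf K2_ok TH_l663 _))))
      (CovZ.subM 4708023943422380315572841703342341093767637047993964209672 (by decide +kernel)
       (CovZ.n1 (-52992, 42624) (by decide +kernel)
        (CovZ.n2 (-52416, 43200) (by decide +kernel)
         (CovZ.n2 (-52416, 42624) (by decide +kernel)
          (CovZ.leaf K2_ok TH_l664 _)
          (CovZ.leaf K2_ok TH_l665 _))
         (CovZ.n1 (-52992, 43200) (by decide +kernel)
          (CovZ.leaf K2_ok TH_l666 _)
          (CovZ.leaf K2_ok TH_l667 _)))
        (CovZ.n1 (-52416, 42048) (by decide +kernel)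
         (CovZ.n2 (-52992, 42048) (by decide +kernel)
          (CovZ.leaf K2_ok TH_l668 _)
          (CovZ.leaf K2_ok TH_l669 _))
         (CovZ.n1 (-52416, 42624) (by decide +kernel)
          (CovZ.leaf K2_ok TH_l670 _)
          (CovZ.leaf K2_ok TH_l671 _)))))))))
    (CovZ.topM TH_LL 431304292795625877147848274686398473808896309502259091611277921412810 (by decide +kernel) (CovZ.n0 (-52992, 43776) (by decide +kernel)
    (CovZ.subM 1569472982104445786167555091485249070900463387821638959616 (by decide +kernel)
     (CovZ.n2 (-55296, 43776) (by decide +kernel)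
      (CovZ.n2 (-54144, 44928) (by decide +kernel)
       (CovZ.n2 (-54144, 43776) (by decide +kernel)
        (CovZ.n2 (-54720, 44352) (by decide +kernel)
         (CovZ.leaf K2_ok TH_l672 _)
         (CovZ.n1 (-54720, 43776) (by decide +kernel)
          (CovZ.badM (by decide +kernel))
          (CovZ.leaf K2_ok TH_l673 _)))
        (CovZ.n1 (-53568, 44352) (by decide +kernel)
         (CovZ.n2 (-53568, 43776) (by decide +kernel)
          (CovZ.leaf K2_ok TH_l674 _)
          (CovZ.leaf K2_ok TH_l675 _))
         (CovZ.n1 (-54144, 44352) (by decide +kernel)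
          (CovZ.leaf K2_ok TH_l676 _)
          (CovZ.leaf K2_ok TH_l677 _))))
       (CovZ.subM 191561942786642068883048509682636377110262355542933504 (by decide +kernel)
        (CovZ.n1 (-55296, 44928) (by decide +kernel)
         (CovZ.n2 (-54720, 45504) (by decide +kernel)
          (CovZ.n2 (-54720, 44928) (by decide +kernel)
           (CovZ.badM (by decide +kernel))
           (CovZ.leaf K2_ok TH_l678 _))
          (CovZ.badM (by decide +kernel)))
         (CovZ.n1 (-54720, 44352) (by decide +kernel)
          (CovZ.badM (by decide +kernel))
          (CovZ.n1 (-54720, 44928) (by decide +kernel)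
           (CovZ.leaf K2_ok TH_l679 _)
           (CovZ.leaf K2_ok TH_l680 _))))))
      (CovZ.n1 (-54144, 42624) (by decide +kernel)
       (CovZ.n2 (-55296, 42624) (by decide +kernel)
        (CovZ.n2 (-54720, 43200) (by decide +kernel)
         (CovZ.leaf K2_ok TH_l681 _)
         (CovZ.badM (by decide +kernel)))
        (CovZ.leaf K2_ok TH_l682 _))
       (CovZ.n1 (-54144, 43776) (by decide +kernel)
        (CovZ.n2 (-53568, 43200) (by decide +kernel)
         (CovZ.n2 (-54144, 43200) (by decide +kernel)
          (CovZ.leaf K2_ok TH_l683 _)
          (CovZ.leaf K2_ok TH_l684 _))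
         (CovZ.n1 (-53568, 43776) (by decide +kernel)
          (CovZ.leaf K2_ok TH_l685 _)
          (CovZ.leaf K2_ok TH_l686 _)))
        (CovZ.n1 (-54720, 43200) (by decide +kernel)
         (CovZ.leaf K2_ok TH_l687 _)
         (CovZ.leaf K2_ok TH_l688 _))))))
    (CovZ.n1 (-52992, 46080) (by decide +kernel)
     TH_u18
     TH_u19)))

theorem TH_s1_1 : SqZ TH_M TH_L [0, 7, 6, 1] (-55296) 36864 4608 1 1 :=
  SqZ.mk (a := (-50688)) (b := (-46080)) (c := 41472) (d := 46080) (by norm_num) (by norm_num) (by norm_num) (by norm_num)
    (CovZ.topM TH_LL 677431182682061165382893530819603915171201236774994076065065374564351 (by decide +kernel) (CovZ.n2 (-48384, 43776) (by decide +kernel)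
    TH_u35
    TH_u36))
    (CovZ.topM TH_LL 862718293348817360547777098947884641163989722455769093690736104177663 (by decide +kernel) (CovZ.n0 (-48384, 43776) (by decide +kernel)
    (CovZ.n2 (-50688, 43776) (by decide +kernel)
     TH_u53
     TH_u54)
    (CovZ.subM 215623626634207726022114238101282183035491653117555693768977005166592 (by decide +kernel)
     (CovZ.n1 (-48384, 46080) (by decide +kernel)
      (CovZ.subM 3211307308593602029703905773621947617675051008 (by decide +kernel)
       (CovZ.n2 (-47232, 44928) (by decide +kernel)
        (CovZ.n2 (-48384, 44928) (by decide +kernel)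
         (CovZ.n2 (-47808, 45504) (by decide +kernel)
          (CovZ.n2 (-47808, 44928) (by decide +kernel)
           TH_u61
           TH_u62)
          (CovZ.n1 (-48384, 45504) (by decide +kernel)
           TH_u63
           TH_u64))
         (CovZ.badM (by decide +kernel)))
        (CovZ.n1 (-47232, 46080) (by decide +kernel)
         (CovZ.n2 (-46656, 45504) (by decide +kernel)
          (CovZ.n2 (-47232, 45504) (by decide +kernel)
           TH_u67
           TH_u68)
          (CovZ.n1 (-46656, 46080) (by decide +kernel)
           TH_u69
           TH_u70))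
         (CovZ.n1 (-47808, 45504) (by decide +kernel)
          TH_u73
          TH_u74))))
      (CovZ.n1 (-49536, 44928) (by decide +kernel)
       (CovZ.n2 (-49536, 46080) (by decide +kernel)
        TH_u75
        TH_u76)
       (CovZ.subM 3211307308593602029703905773621947617675067392 (by decide +kernel)
        (CovZ.n1 (-48384, 44928) (by decide +kernel)
         (CovZ.badM (by decide +kernel))
         (CovZ.n1 (-48960, 45504) (by decide +kernel)
          TH_u81
          TH_u82))))))))

theorem TH_s2_1 : SqZ TH_M TH_L [0, 7, 6, 1] (-55296) 36864 4608 2 1 :=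
  SqZ.mk (a := (-46080)) (b := (-41472)) (c := 41472) (d := 46080) (by norm_num) (by norm_num) (by norm_num) (by norm_num)
    (CovZ.topM TH_LL 0 (by decide +kernel) (CovZ.badM (by decide +kernel)))
    (CovZ.topM TH_LL 356811923181682267432591329812284533521776640 (by decide +kernel) (CovZ.n0 (-43776, 43776) (by decide +kernel)
    (CovZ.n2 (-46080, 43776) (by decide +kernel)
     (CovZ.n2 (-44928, 44928) (by decide +kernel)
      (CovZ.badM (by decide +kernel))
      (CovZ.n1 (-46080, 44928) (by decide +kernel)
       (CovZ.n2 (-45504, 45504) (by decide +kernel)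
        (CovZ.badM (by decide +kernel))
        (CovZ.n1 (-46080, 45504) (by decide +kernel)
         (CovZ.n2 (-45792, 45792) (by decide +kernel)
          (CovZ.badM (by decide +kernel))
          (CovZ.n1 (-46080, 45792) (by decide +kernel)
           (CovZ.n2 (-45936, 45936) (by decide +kernel)
            (CovZ.n2 (-45936, 45792) (by decide +kernel)
             (CovZ.n2 (-46008, 45864) (by decide +kernel)
              (CovZ.badM (by decide +kernel))
              (CovZ.badM (by decide +kernel)))
             (CovZ.badM (by decide +kernel)))
            (CovZ.n1 (-46080, 45936) (by decide +kernel)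
             (CovZ.n2 (-46008, 46008) (by decide +kernel)
              (CovZ.n2 (-46008, 45936) (by decide +kernel)
               (CovZ.leaf K2_ok TH_l7023 _)
               (CovZ.badM (by decide +kernel)))
              (CovZ.n1 (-46080, 46008) (by decide +kernel)
               (CovZ.leaf K2_ok TH_l7024 _)
               (CovZ.n1 (-46044, 45972) (by decide +kernel)
                (CovZ.leaf K2_ok TH_l7025 _)
                (CovZ.leaf K2_ok TH_l7026 _))))
             (CovZ.n1 (-46008, 45864) (by decide +kernel)
              (CovZ.n2 (-46080, 45864) (by decide +kernel)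
               (CovZ.n2 (-46044, 45900) (by decide +kernel)
                (CovZ.leaf K2_ok TH_l7027 _)
                (CovZ.leaf K2_ok TH_l7028 _))
               (CovZ.n1 (-46044, 45828) (by decide +kernel)
                (CovZ.leaf K2_ok TH_l7029 _)
                (CovZ.n1 (-46044, 45864) (by decide +kernel)
                 (CovZ.badM (by decide +kernel))
                 (CovZ.leaf K2_ok TH_l7030 _))))
              (CovZ.n1 (-46008, 45936) (by decide +kernel)
               (CovZ.badM (by decide +kernel))
               (CovZ.n1 (-46044, 45900) (by decide +kernel)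
                (CovZ.leaf K2_ok TH_l7031 _)
                (CovZ.badM (by decide +kernel)))))))
           (CovZ.badM (by decide +kernel))))
         (CovZ.badM (by decide +kernel))))
       (CovZ.badM (by decide +kernel))))
     (CovZ.badM (by decide +kernel)))
    (CovZ.n1 (-43776, 46080) (by decide +kernel)
     (CovZ.badM (by decide +kernel))
     (CovZ.n1 (-44928, 44928) (by decide +kernel)
      (CovZ.n2 (-44928, 46080) (by decide +kernel)
       (CovZ.badM (by decide +kernel))
       (CovZ.n1 (-45504, 45504) (by decide +kernel)
        (CovZ.n2 (-45504, 46080) (by decide +kernel)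
         (CovZ.badM (by decide +kernel))
         (CovZ.n1 (-45792, 45792) (by decide +kernel)
          (CovZ.n2 (-45792, 46080) (by decide +kernel)
           (CovZ.badM (by decide +kernel))
           (CovZ.n1 (-45936, 45936) (by decide +kernel)
            (CovZ.n2 (-45936, 46080) (by decide +kernel)
             (CovZ.badM (by decide +kernel))
             (CovZ.n1 (-46008, 46008) (by decide +kernel)
              (CovZ.n2 (-46008, 46080) (by decide +kernel)
               (CovZ.badM (by decide +kernel))
               (CovZ.leaf K2_ok TH_l7032 _))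
              (CovZ.badM (by decide +kernel))))
            (CovZ.badM (by decide +kernel))))
          (CovZ.badM (by decide +kernel))))
        (CovZ.badM (by decide +kernel))))
      (CovZ.badM (by decide +kernel))))))

theorem TH_s0_2 : SqZ TH_M TH_L [0, 7, 6, 1] (-55296) 36864 4608 0 2 :=
  SqZ.mk (a := (-55296)) (b := (-50688)) (c := 46080) (d := 50688) (by norm_num) (by norm_num) (by norm_num) (by norm_num)
    (CovZ.topM TH_LL 431304022726854575782203705600857495714948654307488661423069542268930 (by decide +kernel) (CovZ.n2 (-52992, 48384) (by decide +kernel)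
    (CovZ.n2 (-50688, 48384) (by decide +kernel)
     (CovZ.n2 (-51840, 47232) (by decide +kernel)
      (CovZ.n2 (-51840, 48384) (by decide +kernel)
       (CovZ.n2 (-51264, 47808) (by decide +kernel)
        (CovZ.subM 37932171457103156283801723452679060806425360680910145757409926201344 (by decide +kernel)
         (CovZ.n2 (-51840, 47808) (by decide +kernel)
          (CovZ.n2 (-51552, 48096) (by decide +kernel)
           (CovZ.leaf K2_ok TH_l824 _)
           (CovZ.leaf K2_ok TH_l825 _))
          (CovZ.n1 (-51552, 47520) (by decide +kernel)
           (CovZ.leaf K2_ok TH_l826 _)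
           (CovZ.leaf K2_ok TH_l827 _))))
        (CovZ.n1 (-51264, 48384) (by decide +kernel)
         (CovZ.n2 (-50976, 48096) (by decide +kernel)
          (CovZ.leaf K2_ok TH_l828 _)
          (CovZ.leaf K2_ok TH_l829 _))
         (CovZ.leaf K2_ok TH_l830 _)))
       (CovZ.subM 3138742429638981519372231208188524055971801397979298938880 (by decide +kernel)
        (CovZ.n1 (-52416, 47808) (by decide +kernel)
         (CovZ.n2 (-52416, 48384) (by decide +kernel)
          (CovZ.n2 (-52128, 48096) (by decide +kernel)
           (CovZ.leaf K2_ok TH_l831 _)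
           (CovZ.leaf K2_ok TH_l832 _))
          (CovZ.leaf K2_ok TH_l833 _))
         (CovZ.n1 (-51840, 47808) (by decide +kernel)
          (CovZ.n2 (-52128, 47520) (by decide +kernel)
           (CovZ.leaf K2_ok TH_l834 _)
           (CovZ.leaf K2_ok TH_l835 _))
          (CovZ.leaf K2_ok TH_l836 _)))))
      (CovZ.n1 (-50688, 47232) (by decide +kernel)
       (CovZ.n2 (-51264, 46656) (by decide +kernel)
        (CovZ.n2 (-51264, 47232) (by decide +kernel)
         (CovZ.n2 (-50976, 46944) (by decide +kernel)
          (CovZ.leaf K2_ok TH_l837 _)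
          (CovZ.n1 (-50976, 47232) (by decide +kernel)
           (CovZ.leaf K2_ok TH_l838 _)
           (CovZ.leaf K2_ok TH_l839 _)))
         (CovZ.n1 (-51552, 46944) (by decide +kernel)
          (CovZ.n2 (-51552, 47232) (by decide +kernel)
           (CovZ.leaf K2_ok TH_l840 _)
           (CovZ.leaf K2_ok TH_l841 _))
          (CovZ.leaf K2_ok TH_l842 _)))
        (CovZ.n1 (-50688, 46656) (by decide +kernel)
         (CovZ.n2 (-50976, 46368) (by decide +kernel)
          (CovZ.n2 (-50976, 46656) (by decide +kernel)
           (CovZ.leaf K2_ok TH_l843 _)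
           (CovZ.leaf K2_ok TH_l844 _))
          (CovZ.n1 (-50688, 46368) (by decide +kernel)
           (CovZ.leaf K2_ok TH_l845 _)
           (CovZ.leaf K2_ok TH_l846 _)))
         (CovZ.n1 (-50976, 46944) (by decide +kernel)
          (CovZ.leaf K2_ok TH_l847 _)
          (CovZ.n1 (-50976, 46656) (by decide +kernel)
           (CovZ.leaf K2_ok TH_l848 _)
           (CovZ.leaf K2_ok TH_l849 _)))))
       (CovZ.n1 (-51264, 47808) (by decide +kernel)
        (CovZ.n2 (-50688, 47808) (by decide +kernel)
         (CovZ.n2 (-50976, 47520) (by decide +kernel)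
          (CovZ.leaf K2_ok TH_l850 _)
          (CovZ.leaf K2_ok TH_l851 _))
         (CovZ.n1 (-50976, 48096) (by decide +kernel)
          (CovZ.leaf K2_ok TH_l852 _)
          (CovZ.leaf K2_ok TH_l853 _)))
        (CovZ.n1 (-51264, 47232) (by decide +kernel)
         (CovZ.n2 (-51552, 47520) (by decide +kernel)
          (CovZ.leaf K2_ok TH_l854 _)
          (CovZ.leaf K2_ok TH_l855 _))
         (CovZ.n1 (-50976, 47520) (by decide +kernel)
          (CovZ.leaf K2_ok TH_l856 _)
          (CovZ.leaf K2_ok TH_l857 _))))))
     (CovZ.n1 (-51840, 49536) (by decide +kernel)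
      (CovZ.n2 (-50688, 49536) (by decide +kernel)
       (CovZ.n2 (-51264, 48960) (by decide +kernel)
        (CovZ.n2 (-51264, 49536) (by decide +kernel)
         (CovZ.leaf K2_ok TH_l858 _)
         (CovZ.leaf K2_ok TH_l859 _))
        (CovZ.n1 (-50688, 48960) (by decide +kernel)
         (CovZ.leaf K2_ok TH_l860 _)
         (CovZ.leaf K2_ok TH_l861 _)))
       (CovZ.n1 (-51264, 50112) (by decide +kernel)
        (CovZ.n2 (-50688, 50112) (by decide +kernel)
         (CovZ.leaf K2_ok TH_l862 _)
         (CovZ.leaf K2_ok TH_l863 _))
        (CovZ.n1 (-51264, 49536) (by decide +kernel)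
         (CovZ.leaf K2_ok TH_l864 _)
         (CovZ.leaf K2_ok TH_l865 _))))
      (CovZ.n1 (-51840, 48384) (by decide +kernel)
       (CovZ.subM 3138742429638981519372231208188524055971801397979298938880 (by decide +kernel)
        (CovZ.n2 (-52416, 48960) (by decide +kernel)
         (CovZ.n2 (-51840, 48960) (by decide +kernel)
          (CovZ.leaf K2_ok TH_l866 _)
          (CovZ.leaf K2_ok TH_l867 _))
         (CovZ.n1 (-52416, 48384) (by decide +kernel)
          (CovZ.leaf K2_ok TH_l868 _)
          (CovZ.leaf K2_ok TH_l869 _))))
       (CovZ.n1 (-51264, 48960) (by decide +kernel)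
        (CovZ.n2 (-51264, 48384) (by decide +kernel)
         (CovZ.leaf K2_ok TH_l870 _)
         (CovZ.leaf K2_ok TH_l871 _))
        (CovZ.n1 (-51840, 48960) (by decide +kernel)
         (CovZ.leaf K2_ok TH_l872 _)
         (CovZ.leaf K2_ok TH_l873 _))))))
    (CovZ.n1 (-52992, 46080) (by decide +kernel)
     (CovZ.subM 191561945641137454294958130594406785330953445612470272 (by decide +kernel)
      (CovZ.n2 (-54144, 47232) (by decide +kernel)
       (CovZ.n2 (-52992, 47232) (by decide +kernel)
        (CovZ.n2 (-53568, 46656) (by decide +kernel)
         (CovZ.n2 (-53568, 47232) (by decide +kernel)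
          (CovZ.leaf K2_ok TH_l874 _)
          (CovZ.leaf K2_ok TH_l875 _))
         (CovZ.n1 (-52992, 46656) (by decide +kernel)
          (CovZ.n2 (-53280, 46368) (by decide +kernel)
           (CovZ.leaf K2_ok TH_l876 _)
           (CovZ.leaf K2_ok TH_l877 _))
          (CovZ.leaf K2_ok TH_l878 _)))
        (CovZ.n1 (-53568, 47808) (by decide +kernel)
         (CovZ.n2 (-52992, 47808) (by decide +kernel)
          (CovZ.leaf K2_ok TH_l879 _)
          (CovZ.leaf K2_ok TH_l880 _))
         (CovZ.n1 (-53568, 47232) (by decide +kernel)
          (CovZ.leaf K2_ok TH_l881 _)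
          (CovZ.leaf K2_ok TH_l882 _))))
       (CovZ.n1 (-54144, 46080) (by decide +kernel)
        (CovZ.subM 191561942786642068883038368477834551275050381917290496 (by decide +kernel)
         (CovZ.n2 (-54720, 46656) (by decide +kernel)
          (CovZ.n2 (-54144, 46656) (by decide +kernel)
           (CovZ.leaf K2_ok TH_l883 _)
           (CovZ.leaf K2_ok TH_l884 _))
          (CovZ.n1 (-54720, 46080) (by decide +kernel)
           (CovZ.badM (by decide +kernel))
           (CovZ.leaf K2_ok TH_l885 _))))
        (CovZ.n1 (-53568, 46656) (by decide +kernel)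
         (CovZ.n2 (-53568, 46080) (by decide +kernel)
          (CovZ.leaf K2_ok TH_l886 _)
          (CovZ.n1 (-53280, 46368) (by decide +kernel)
           (CovZ.leaf K2_ok TH_l887 _)
           (CovZ.leaf K2_ok TH_l888 _)))
         (CovZ.n1 (-54144, 46656) (by decide +kernel)
          (CovZ.leaf K2_ok TH_l889 _)
          (CovZ.n1 (-53856, 46368) (by decide +kernel)
           (CovZ.leaf K2_ok TH_l890 _)
           (CovZ.leaf K2_ok TH_l891 _)))))))
     (CovZ.n1 (-51840, 47232) (by decide +kernel)
      (CovZ.n2 (-51840, 46080) (by decide +kernel)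
       (CovZ.subM 3138742429638981519372231210723825256428260200972706398208 (by decide +kernel)
        (CovZ.n2 (-52416, 46656) (by decide +kernel)
         (CovZ.n2 (-51840, 46656) (by decide +kernel)
          (CovZ.n2 (-52128, 46368) (by decide +kernel)
           (CovZ.n2 (-52128, 46656) (by decide +kernel)
            (CovZ.leaf K2_ok TH_l892 _)
            (CovZ.leaf K2_ok TH_l893 _))
           (CovZ.n1 (-51840, 46368) (by decide +kernel)
            (CovZ.leaf K2_ok TH_l894 _)
            (CovZ.leaf K2_ok TH_l895 _)))
          (CovZ.n1 (-52128, 46944) (by decide +kernel)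
           (CovZ.leaf K2_ok TH_l896 _)
           (CovZ.n1 (-52128, 46656) (by decide +kernel)
            (CovZ.leaf K2_ok TH_l897 _)
            (CovZ.leaf K2_ok TH_l898 _))))
         (CovZ.n1 (-52416, 46080) (by decide +kernel)
          (CovZ.n2 (-52704, 46368) (by decide +kernel)
           (CovZ.leaf K2_ok TH_l899 _)
           (CovZ.n1 (-52704, 46080) (by decide +kernel)
            (CovZ.leaf K2_ok TH_l900 _)
            (CovZ.leaf K2_ok TH_l901 _)))
          (CovZ.n1 (-52128, 46368) (by decide +kernel)
           (CovZ.n2 (-52128, 46080) (by decide +kernel)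
            (CovZ.leaf K2_ok TH_l902 _)
            (CovZ.leaf K2_ok TH_l903 _))
           (CovZ.n1 (-52416, 46368) (by decide +kernel)
            (CovZ.leaf K2_ok TH_l904 _)
            (CovZ.leaf K2_ok TH_l905 _))))))
       (CovZ.n1 (-51264, 46656) (by decide +kernel)
        (CovZ.n2 (-51264, 46080) (by decide +kernel)
         (CovZ.subM 37932171460241707151495063834596955518029193889256471384821296283648 (by decide +kernel)
          (CovZ.n2 (-51552, 46368) (by decide +kernel)
           (CovZ.n2 (-51264, 46368) (by decide +kernel)
            (CovZ.leaf K2_ok TH_l906 _)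
            (CovZ.leaf K2_ok TH_l907 _))
           (CovZ.n1 (-51552, 46080) (by decide +kernel)
            (CovZ.leaf K2_ok TH_l908 _)
            (CovZ.leaf K2_ok TH_l909 _))))
         (CovZ.n1 (-50976, 46368) (by decide +kernel)
          (CovZ.n2 (-50976, 46080) (by decide +kernel)
           (CovZ.leaf K2_ok TH_l910 _)
           (CovZ.leaf K2_ok TH_l911 _))
          (CovZ.n1 (-51264, 46368) (by decide +kernel)
           (CovZ.leaf K2_ok TH_l912 _)
           (CovZ.leaf K2_ok TH_l913 _))))
        (CovZ.subM 37932171460241707151495063834596955518029193889256471384821296283648 (by decide +kernel)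
         (CovZ.n1 (-51840, 46656) (by decide +kernel)
          (CovZ.n2 (-51552, 46944) (by decide +kernel)
           (CovZ.n2 (-51552, 46656) (by decide +kernel)
            (CovZ.leaf K2_ok TH_l914 _)
            (CovZ.leaf K2_ok TH_l915 _))
           (CovZ.leaf K2_ok TH_l916 _))
          (CovZ.n1 (-51552, 46368) (by decide +kernel)
           (CovZ.n2 (-51840, 46368) (by decide +kernel)
            (CovZ.leaf K2_ok TH_l917 _)
            (CovZ.leaf K2_ok TH_l918 _))
           (CovZ.n1 (-51552, 46656) (by decide +kernel)
            (CovZ.leaf K2_ok TH_l919 _)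
            (CovZ.leaf K2_ok TH_l920 _)))))))
      (CovZ.subM 3138742429638981519372231210723825256428260200972706398208 (by decide +kernel)
       (CovZ.n1 (-52992, 47232) (by decide +kernel)
        (CovZ.n2 (-52416, 47808) (by decide +kernel)
         (CovZ.n2 (-52416, 47232) (by decide +kernel)
          (CovZ.leaf K2_ok TH_l921 _)
          (CovZ.n1 (-52128, 47520) (by decide +kernel)
           (CovZ.leaf K2_ok TH_l922 _)
           (CovZ.leaf K2_ok TH_l923 _)))
         (CovZ.n1 (-52992, 47808) (by decide +kernel)
          (CovZ.leaf K2_ok TH_l924 _)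
          (CovZ.leaf K2_ok TH_l925 _)))
        (CovZ.n1 (-52416, 46656) (by decide +kernel)
         (CovZ.n2 (-52992, 46656) (by decide +kernel)
          (CovZ.n2 (-52704, 46944) (by decide +kernel)
           (CovZ.leaf K2_ok TH_l926 _)
           (CovZ.leaf K2_ok TH_l927 _))
          (CovZ.n1 (-52704, 46368) (by decide +kernel)
           (CovZ.leaf K2_ok TH_l928 _)
           (CovZ.n1 (-52704, 46656) (by decide +kernel)
            (CovZ.leaf K2_ok TH_l929 _)
            (CovZ.leaf K2_ok TH_l930 _))))
         (CovZ.n1 (-52416, 47232) (by decide +kernel)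
          (CovZ.n2 (-52128, 46944) (by decide +kernel)
           (CovZ.leaf K2_ok TH_l931 _)
           (CovZ.leaf K2_ok TH_l932 _))
          (CovZ.n1 (-52704, 46944) (by decide +kernel)
           (CovZ.leaf K2_ok TH_l933 _)
           (CovZ.leaf K2_ok TH_l934 _))))))))))
    (CovZ.topM TH_LL 431304022726854575595131496022501922184876686234794613562041451986946 (by decide +kernel) (CovZ.n0 (-52992, 48384) (by decide +kernel)
    (CovZ.subM 191561945641137454294958130594406785330953445612470272 (by decide +kernel)
     (CovZ.n2 (-55296, 48384) (by decide +kernel)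
      (CovZ.n2 (-54144, 49536) (by decide +kernel)
       (CovZ.n2 (-54144, 48384) (by decide +kernel)
        (CovZ.n2 (-54720, 48960) (by decide +kernel)
         (CovZ.leaf K2_ok TH_l935 _)
         (CovZ.leaf K2_ok TH_l936 _))
        (CovZ.n1 (-53568, 48960) (by decide +kernel)
         (CovZ.n2 (-53568, 48384) (by decide +kernel)
          (CovZ.leaf K2_ok TH_l937 _)
          (CovZ.leaf K2_ok TH_l938 _))
         (CovZ.leaf K2_ok TH_l939 _)))
       (CovZ.subM 191561942608236107294793383345548805093863489869447168 (by decide +kernel)
        (CovZ.n1 (-55296, 49536) (by decide +kernel)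
         (CovZ.n2 (-54720, 50112) (by decide +kernel)
          (CovZ.leaf K2_ok TH_l940 _)
          (CovZ.badM (by decide +kernel)))
         (CovZ.n1 (-54720, 48960) (by decide +kernel)
          (CovZ.badM (by decide +kernel))
          (CovZ.leaf K2_ok TH_l941 _)))))
      (CovZ.n1 (-54144, 47232) (by decide +kernel)
       (CovZ.subM 191561942786642068883038368477834551275050381917290496 (by decide +kernel)
        (CovZ.n2 (-55296, 47232) (by decide +kernel)
         (CovZ.n2 (-54720, 47808) (by decide +kernel)
          (CovZ.n2 (-54720, 47232) (by decide +kernel)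
           (CovZ.badM (by decide +kernel))
           (CovZ.leaf K2_ok TH_l942 _))
          (CovZ.badM (by decide +kernel)))
         (CovZ.n1 (-54720, 46656) (by decide +kernel)
          (CovZ.badM (by decide +kernel))
          (CovZ.n1 (-54720, 47232) (by decide +kernel)
           (CovZ.leaf K2_ok TH_l943 _)
           (CovZ.badM (by decide +kernel))))))
       (CovZ.n1 (-54144, 48384) (by decide +kernel)
        (CovZ.n2 (-53568, 47808) (by decide +kernel)
         (CovZ.n2 (-54144, 47808) (by decide +kernel)
          (CovZ.leaf K2_ok TH_l944 _)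
          (CovZ.leaf K2_ok TH_l945 _))
         (CovZ.n1 (-53568, 48384) (by decide +kernel)
          (CovZ.leaf K2_ok TH_l946 _)
          (CovZ.leaf K2_ok TH_l947 _)))
        (CovZ.n1 (-54720, 47808) (by decide +kernel)
         (CovZ.n2 (-54720, 48384) (by decide +kernel)
          (CovZ.leaf K2_ok TH_l948 _)
          (CovZ.badM (by decide +kernel)))
         (CovZ.leaf K2_ok TH_l949 _))))))
    (CovZ.n1 (-52992, 50688) (by decide +kernel)
     (CovZ.n2 (-51840, 49536) (by decide +kernel)
      (CovZ.subM 3138742429638981519372231208188524055971801397979290550272 (by decide +kernel)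
       (CovZ.n2 (-52992, 49536) (by decide +kernel)
        (CovZ.n2 (-52416, 50112) (by decide +kernel)
         (CovZ.n2 (-52416, 49536) (by decide +kernel)
          (CovZ.leaf K2_ok TH_l950 _)
          (CovZ.leaf K2_ok TH_l951 _))
         (CovZ.leaf K2_ok TH_l952 _))
        (CovZ.n1 (-52416, 48960) (by decide +kernel)
         (CovZ.n2 (-52992, 48960) (by decide +kernel)
          (CovZ.leaf K2_ok TH_l953 _)
          (CovZ.leaf K2_ok TH_l954 _))
         (CovZ.n1 (-52416, 49536) (by decide +kernel)
          (CovZ.leaf K2_ok TH_l955 _)
          (CovZ.leaf K2_ok TH_l956 _)))))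
      (CovZ.n1 (-51840, 50688) (by decide +kernel)
       (CovZ.n2 (-51264, 50112) (by decide +kernel)
        (CovZ.leaf K2_ok TH_l957 _)
        (CovZ.n1 (-51264, 50688) (by decide +kernel)
         (CovZ.leaf K2_ok TH_l958 _)
         (CovZ.leaf K2_ok TH_l959 _)))
       (CovZ.n1 (-52416, 50112) (by decide +kernel)
        (CovZ.n2 (-52416, 50688) (by decide +kernel)
         (CovZ.leaf K2_ok TH_l960 _)
         (CovZ.leaf K2_ok TH_l961 _))
        (CovZ.leaf K2_ok TH_l962 _))))
     (CovZ.subM 191561945641137454294958130594406785330953445607227392 (by decide +kernel)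
      (CovZ.n1 (-54144, 49536) (by decide +kernel)
       (CovZ.n2 (-54144, 50688) (by decide +kernel)
        (CovZ.n2 (-53568, 50112) (by decide +kernel)
         (CovZ.leaf K2_ok TH_l963 _)
         (CovZ.leaf K2_ok TH_l964 _))
        (CovZ.n1 (-54720, 50112) (by decide +kernel)
         (CovZ.leaf K2_ok TH_l965 _)
         (CovZ.leaf K2_ok TH_l966 _)))
       (CovZ.n1 (-52992, 49536) (by decide +kernel)
        (CovZ.n2 (-53568, 48960) (by decide +kernel)
         (CovZ.leaf K2_ok TH_l967 _)
         (CovZ.leaf K2_ok TH_l968 _))
        (CovZ.n1 (-53568, 50112) (by decide +kernel)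
         (CovZ.leaf K2_ok TH_l969 _)
         (CovZ.leaf K2_ok TH_l970 _))))))))

theorem TH_s1_2 : SqZ TH_M TH_L [0, 7, 6, 1] (-55296) 36864 4608 1 2 :=
  SqZ.mk (a := (-50688)) (b := (-46080)) (c := 46080) (d := 50688) (by norm_num) (by norm_num) (by norm_num) (by norm_num)
    (CovZ.topM TH_LL 215623626634207726022114238101282183035491653117555693768977005166592 (by decide +kernel) (CovZ.n2 (-48384, 48384) (by decide +kernel)
    (CovZ.subM 3211307308593602029703905773621947617675051008 (by decide +kernel)
     (CovZ.n2 (-46080, 48384) (by decide +kernel)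
      TH_u85
      TH_u86))
    (CovZ.n1 (-48384, 46080) (by decide +kernel)
     TH_u89
     TH_u90)))
    (CovZ.topM TH_LL 215623626634207726022114238101282183035491653117555693768977005166592 (by decide +kernel) (CovZ.n0 (-48384, 48384) (by decide +kernel)
    TH_u91
    TH_u92))

theorem TH_s2_2 : SqZ TH_M TH_L [0, 7, 6, 1] (-55296) 36864 4608 2 2 :=
  SqZ.mk (a := (-46080)) (b := (-41472)) (c := 46080) (d := 50688) (by norm_num) (by norm_num) (by norm_num) (by norm_num)
    (CovZ.topM TH_LL 3211307308593602029703905773621947340649660416 (by decide +kernel) (CovZ.n2 (-43776, 48384) (by decide +kernel)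
    (CovZ.badM (by decide +kernel))
    (CovZ.n1 (-43776, 46080) (by decide +kernel)
     (CovZ.n2 (-44928, 47232) (by decide +kernel)
      (CovZ.badM (by decide +kernel))
      (CovZ.n1 (-44928, 46080) (by decide +kernel)
       (CovZ.n2 (-45504, 46656) (by decide +kernel)
        (CovZ.badM (by decide +kernel))
        (CovZ.n1 (-45504, 46080) (by decide +kernel)
         (CovZ.n2 (-45792, 46368) (by decide +kernel)
          (CovZ.badM (by decide +kernel))
          (CovZ.n1 (-45792, 46080) (by decide +kernel)
           (CovZ.n2 (-45936, 46224) (by decide +kernel)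
            (CovZ.badM (by decide +kernel))
            (CovZ.n1 (-45936, 46080) (by decide +kernel)
             (CovZ.n2 (-46008, 46152) (by decide +kernel)
              (CovZ.badM (by decide +kernel))
              (CovZ.n1 (-46008, 46080) (by decide +kernel)
               (CovZ.leaf K2_ok TH_l7033 _)
               (CovZ.badM (by decide +kernel))))
             (CovZ.badM (by decide +kernel))))
           (CovZ.badM (by decide +kernel))))
         (CovZ.badM (by decide +kernel))))
       (CovZ.badM (by decide +kernel))))
     (CovZ.badM (by decide +kernel)))))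
    (CovZ.topM TH_LL 3112881570595144052133994428602971302847511457463009280 (by decide +kernel) (CovZ.n0 (-43776, 48384) (by decide +kernel)
    (CovZ.n2 (-46080, 48384) (by decide +kernel)
     (CovZ.n2 (-44928, 49536) (by decide +kernel)
      (CovZ.n2 (-44928, 48384) (by decide +kernel)
       TH_u95
       TH_u96)
      (CovZ.n1 (-46080, 49536) (by decide +kernel)
       TH_u97
       TH_u98))
     (CovZ.n1 (-44928, 47232) (by decide +kernel)
      TH_u103
      TH_u104))
    (CovZ.n1 (-43776, 50688) (by decide +kernel)
     (CovZ.badM (by decide +kernel))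
     (CovZ.n1 (-44928, 49536) (by decide +kernel)
      (CovZ.n2 (-44928, 50688) (by decide +kernel)
       (CovZ.subM 47890485652059026823698344598447161988085597568237568 (by decide +kernel)
        (CovZ.n2 (-44352, 50112) (by decide +kernel)
         TH_u105
         TH_u106))
       (CovZ.n1 (-45504, 50112) (by decide +kernel)
        (CovZ.n2 (-45504, 50688) (by decide +kernel)
         (CovZ.subM 3112881567383836743540392398899065529225563841935441920 (by decide +kernel)
          (CovZ.n2 (-45216, 50400) (by decide +kernel)
           (CovZ.n2 (-45504, 50400) (by decide +kernel)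
            (CovZ.n2 (-45360, 50544) (by decide +kernel)
             (CovZ.n2 (-45360, 50400) (by decide +kernel)
              (CovZ.leaf K2_ok TH_l7953 _)
              (CovZ.leaf K2_ok TH_l7954 _))
             (CovZ.leaf K2_ok TH_l7955 _))
            (CovZ.n1 (-45360, 50256) (by decide +kernel)
             (CovZ.n2 (-45504, 50256) (by decide +kernel)
              (CovZ.leaf K2_ok TH_l7956 _)
              (CovZ.leaf K2_ok TH_l7957 _))
             (CovZ.n1 (-45360, 50400) (by decide +kernel)
              (CovZ.leaf K2_ok TH_l7958 _)
              (CovZ.leaf K2_ok TH_l7959 _))))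
           (CovZ.n1 (-45216, 50688) (by decide +kernel)
            (CovZ.n2 (-45072, 50544) (by decide +kernel)
             (CovZ.n2 (-45216, 50544) (by decide +kernel)
              (CovZ.leaf K2_ok TH_l7960 _)
              (CovZ.n1 (-45144, 50472) (by decide +kernel)
               (CovZ.leaf K2_ok TH_l7961 _)
               (CovZ.leaf K2_ok TH_l7962 _)))
             (CovZ.n1 (-45072, 50688) (by decide +kernel)
              (CovZ.n2 (-45000, 50616) (by decide +kernel)
               (CovZ.leaf K2_ok TH_l7963 _)
               (CovZ.leaf K2_ok TH_l7964 _))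
              (CovZ.leaf K2_ok TH_l7965 _)))
            (CovZ.n1 (-45360, 50544) (by decide +kernel)
             (CovZ.n2 (-45360, 50688) (by decide +kernel)
              (CovZ.leaf K2_ok TH_l7966 _)
              (CovZ.leaf K2_ok TH_l7967 _))
             (CovZ.n1 (-45216, 50544) (by decide +kernel)
              (CovZ.leaf K2_ok TH_l7968 _)
              (CovZ.leaf K2_ok TH_l7969 _))))))
         (CovZ.n1 (-45792, 50400) (by decide +kernel)
          (CovZ.n2 (-45792, 50688) (by decide +kernel)
           (CovZ.n2 (-45648, 50544) (by decide +kernel)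
            (CovZ.leaf K2_ok TH_l7970 _)
            (CovZ.n1 (-45648, 50688) (by decide +kernel)
             (CovZ.leaf K2_ok TH_l7971 _)
             (CovZ.leaf K2_ok TH_l7972 _)))
           (CovZ.n1 (-45936, 50544) (by decide +kernel)
            (CovZ.n2 (-45936, 50688) (by decide +kernel)
             (CovZ.badM (by decide +kernel))
             (CovZ.leaf K2_ok TH_l7973 _))
            (CovZ.badM (by decide +kernel))))
          (CovZ.subM 3112881567383836743540392398899065529225563841935441920 (by decide +kernel)
           (CovZ.n1 (-45504, 50400) (by decide +kernel)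
            (CovZ.n2 (-45648, 50256) (by decide +kernel)
             (CovZ.n2 (-45648, 50400) (by decide +kernel)
              (CovZ.leaf K2_ok TH_l7974 _)
              (CovZ.leaf K2_ok TH_l7975 _))
             (CovZ.n1 (-45504, 50256) (by decide +kernel)
              (CovZ.leaf K2_ok TH_l7976 _)
              (CovZ.leaf K2_ok TH_l7977 _)))
            (CovZ.n1 (-45648, 50544) (by decide +kernel)
             (CovZ.n2 (-45504, 50544) (by decide +kernel)
              (CovZ.leaf K2_ok TH_l7978 _)
              (CovZ.leaf K2_ok TH_l7979 _))
             (CovZ.n1 (-45648, 50400) (by decide +kernel)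
              (CovZ.leaf K2_ok TH_l7980 _)
              (CovZ.leaf K2_ok TH_l7981 _)))))))
        (CovZ.subM 3112881567383836743540392398899065529225563841935441920 (by decide +kernel)
         (CovZ.n1 (-44928, 50112) (by decide +kernel)
          (CovZ.n2 (-45216, 49824) (by decide +kernel)
           (CovZ.n2 (-45216, 50112) (by decide +kernel)
            (CovZ.n2 (-45072, 49968) (by decide +kernel)
             (CovZ.n2 (-45216, 49968) (by decide +kernel)
              (CovZ.n2 (-45144, 50040) (by decide +kernel)
               (CovZ.leaf K2_ok TH_l7982 _)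
               (CovZ.leaf K2_ok TH_l7983 _))
              (CovZ.n1 (-45144, 49896) (by decide +kernel)
               (CovZ.leaf K2_ok TH_l7984 _)
               (CovZ.leaf K2_ok TH_l7985 _)))
             (CovZ.n1 (-45072, 50112) (by decide +kernel)
              (CovZ.n2 (-45000, 50040) (by decide +kernel)
               (CovZ.leaf K2_ok TH_l7986 _)
               (CovZ.leaf K2_ok TH_l7987 _))
              (CovZ.n1 (-45144, 50040) (by decide +kernel)
               (CovZ.leaf K2_ok TH_l7988 _)
               (CovZ.leaf K2_ok TH_l7989 _))))
            (CovZ.n1 (-45360, 49968) (by decide +kernel)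
             (CovZ.n2 (-45360, 50112) (by decide +kernel)
              (CovZ.leaf K2_ok TH_l7990 _)
              (CovZ.leaf K2_ok TH_l7991 _))
             (CovZ.n1 (-45216, 49968) (by decide +kernel)
              (CovZ.n2 (-45288, 49896) (by decide +kernel)
               (CovZ.leaf K2_ok TH_l7992 _)
               (CovZ.leaf K2_ok TH_l7993 _))
              (CovZ.leaf K2_ok TH_l7994 _))))
           (CovZ.n1 (-44928, 49824) (by decide +kernel)
            (CovZ.n2 (-45072, 49680) (by decide +kernel)
             (CovZ.n2 (-45072, 49824) (by decide +kernel)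
              (CovZ.n2 (-45000, 49752) (by decide +kernel)
               (CovZ.leaf K2_ok TH_l7995 _)
               (CovZ.n1 (-45000, 49824) (by decide +kernel)
                (CovZ.leaf K2_ok TH_l7996 _)
                (CovZ.leaf K2_ok TH_l7997 _)))
              (CovZ.n1 (-45144, 49752) (by decide +kernel)
               (CovZ.leaf K2_ok TH_l7998 _)
               (CovZ.leaf K2_ok TH_l7999 _)))
             (CovZ.n1 (-44928, 49680) (by decide +kernel)
              (CovZ.n2 (-45000, 49608) (by decide +kernel)
               (CovZ.n2 (-45000, 49680) (by decide +kernel)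
                (CovZ.leaf K2_ok TH_l8000 _)
                (CovZ.leaf K2_ok TH_l8001 _))
               (CovZ.leaf K2_ok TH_l8002 _))
              (CovZ.n1 (-45000, 49752) (by decide +kernel)
               (CovZ.leaf K2_ok TH_l8003 _)
               (CovZ.n1 (-45000, 49680) (by decide +kernel)
                (CovZ.leaf K2_ok TH_l8004 _)
                (CovZ.leaf K2_ok TH_l8005 _)))))
            (CovZ.n1 (-45072, 49968) (by decide +kernel)
             (CovZ.n2 (-44928, 49968) (by decide +kernel)
              (CovZ.n2 (-45000, 49896) (by decide +kernel)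
               (CovZ.n2 (-45000, 49968) (by decide +kernel)
                (CovZ.leaf K2_ok TH_l8006 _)
                (CovZ.leaf K2_ok TH_l8007 _))
               (CovZ.leaf K2_ok TH_l8008 _))
              (CovZ.n1 (-45000, 50040) (by decide +kernel)
               (CovZ.leaf K2_ok TH_l8009 _)
               (CovZ.leaf K2_ok TH_l8010 _)))
             (CovZ.n1 (-45072, 49824) (by decide +kernel)
              (CovZ.n2 (-45144, 49896) (by decide +kernel)
               (CovZ.leaf K2_ok TH_l8011 _)
               (CovZ.leaf K2_ok TH_l8012 _))
              (CovZ.n1 (-45000, 49896) (by decide +kernel)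
               (CovZ.n2 (-45000, 49824) (by decide +kernel)
                (CovZ.leaf K2_ok TH_l8013 _)
                (CovZ.leaf K2_ok TH_l8014 _))
               (CovZ.leaf K2_ok TH_l8015 _))))))
          (CovZ.n1 (-45216, 50400) (by decide +kernel)
           (CovZ.n2 (-44928, 50400) (by decide +kernel)
            (CovZ.n2 (-45072, 50256) (by decide +kernel)
             (CovZ.n2 (-45072, 50400) (by decide +kernel)
              (CovZ.n2 (-45000, 50328) (by decide +kernel)
               (CovZ.leaf K2_ok TH_l8016 _)
               (CovZ.leaf K2_ok TH_l8017 _))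
              (CovZ.leaf K2_ok TH_l8018 _))
             (CovZ.n1 (-44928, 50256) (by decide +kernel)
              (CovZ.n2 (-45000, 50184) (by decide +kernel)
               (CovZ.leaf K2_ok TH_l8019 _)
               (CovZ.leaf K2_ok TH_l8020 _))
              (CovZ.n1 (-45000, 50328) (by decide +kernel)
               (CovZ.leaf K2_ok TH_l8021 _)
               (CovZ.leaf K2_ok TH_l8022 _))))
            (CovZ.n1 (-45072, 50544) (by decide +kernel)
             (CovZ.n2 (-44928, 50544) (by decide +kernel)
              (CovZ.n2 (-45000, 50472) (by decide +kernel)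
               (CovZ.leaf K2_ok TH_l8023 _)
               (CovZ.leaf K2_ok TH_l8024 _))
              (CovZ.n1 (-45000, 50616) (by decide +kernel)
               (CovZ.leaf K2_ok TH_l8025 _)
               (CovZ.leaf K2_ok TH_l8026 _)))
             (CovZ.n1 (-45072, 50400) (by decide +kernel)
              (CovZ.n2 (-45144, 50472) (by decide +kernel)
               (CovZ.leaf K2_ok TH_l8027 _)
               (CovZ.n1 (-45144, 50400) (by decide +kernel)
                (CovZ.leaf K2_ok TH_l8028 _)
                (CovZ.leaf K2_ok TH_l8029 _)))
              (CovZ.n1 (-45000, 50472) (by decide +kernel)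
               (CovZ.leaf K2_ok TH_l8030 _)
               (CovZ.leaf K2_ok TH_l8031 _)))))
           (CovZ.n1 (-45216, 50112) (by decide +kernel)
            (CovZ.n2 (-45360, 50256) (by decide +kernel)
             (CovZ.n2 (-45216, 50256) (by decide +kernel)
              (CovZ.leaf K2_ok TH_l8032 _)
              (CovZ.leaf K2_ok TH_l8033 _))
             (CovZ.n1 (-45360, 50112) (by decide +kernel)
              (CovZ.leaf K2_ok TH_l8034 _)
              (CovZ.leaf K2_ok TH_l8035 _)))
            (CovZ.n1 (-45072, 50256) (by decide +kernel)
             (CovZ.n2 (-45072, 50112) (by decide +kernel)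
              (CovZ.n2 (-45144, 50184) (by decide +kernel)
               (CovZ.leaf K2_ok TH_l8036 _)
               (CovZ.leaf K2_ok TH_l8037 _))
              (CovZ.n1 (-45000, 50184) (by decide +kernel)
               (CovZ.leaf K2_ok TH_l8038 _)
               (CovZ.leaf K2_ok TH_l8039 _)))
             (CovZ.n1 (-45216, 50256) (by decide +kernel)
              (CovZ.leaf K2_ok TH_l8040 _)
              (CovZ.n1 (-45144, 50184) (by decide +kernel)
               (CovZ.leaf K2_ok TH_l8041 _)
               (CovZ.leaf K2_ok TH_l8042 _))))))))))
      (CovZ.subM 47890485652059026823698344598447161988085597568237568 (by decide +kernel)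
       (CovZ.n1 (-43776, 49536) (by decide +kernel)
        TH_u107
        TH_u108))))))

end Pool.Agent.TET
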