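import Pool.Agent.Helper38_TET.RegY
import Pool.Agent.Helper38_TET.TH_S0

/-!
# MP_c7c9bf_co: certificates, family TH
-/

set_option autoImplicit false
set_option maxRecDepth 100000

namespace Pool.Agent.TET

theorem TH_r0 : ∀ i < 3, SqZ TH_M TH_L [0, 7, 6, 1] (-55296) 36864 4608 i 0
  | 0, _ => TH_s0_0
  | 1, _ => TH_s1_0
  | 2, _ => TH_s2_0
  | n + 3, h => absurd h (by omega)

theorem TH_r1 : ∀ i < 3, SqZ TH_M TH_L [0, 7, 6, 1] (-55296) 36864 4608 i 1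
  | 0, _ => TH_s0_1
  | 1, _ => TH_s1_1
  | 2, _ => TH_s2_1
  | n + 3, h => absurd h (by omega)

theorem TH_r2 : ∀ i < 3, SqZ TH_M TH_L [0, 7, 6, 1] (-55296) 36864 4608 i 2
  | 0, _ => TH_s0_2
  | 1, _ => TH_s1_2
  | 2, _ => TH_s2_2
  | n + 3, h => absurd h (by omega)

theorem TH_rows : ∀ j < 3, ∀ i < 3, SqZ TH_M TH_L [0, 7, 6, 1] (-55296) 36864 4608 i j
  | 0, _ => TH_r0
  | 1, _ => TH_r1
  | 2, _ => TH_r2
  | n + 3, h => absurd h (by omega)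

theorem TH_cov (X Y : ℝ) (h1 : ((-55296 : ℤ) : ℝ) ≤ X) (h2 : X ≤ (-41472 : ℤ)) (h3 : ((36864 : ℤ) : ℝ) ≤ Y)
    (h4 : Y ≤ (50688 : ℤ)) : Out TH_L X Y ∨ GoodV [0, 7, 6, 1] (TH_M.v X Y) := by
  push_cast at h1 h2 h3 h4
  refine gridZ (by norm_num) (by norm_num) (by norm_num) TH_rows ?_ ?_ ?_ ?_ <;> push_cast <;> linarith

theorem TH_sc : ∀ a : Fin 3, (![3, 3, 3] : Fin 3 → ℝ) a ≠ 0 := by
  intro a
  fin_cases a <;> simp

theorem TH_fr (x y : ℝ) : scl ![3, 3, 3] (swp (VB x y)) =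
    TH_M.v (30720 * (((3 : ℤ) : ℝ) * x) / (1 : ℤ)) (30720 * (((3 : ℤ) : ℝ) * y) / (1 : ℤ)) := by
  funext i j
  fin_cases i <;> fin_cases j <;> simp [scl, swp, VB, FM.v, Z3.ev, TH_M] <;> ring

end Pool.Agent.TET
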