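import Pool.Agent.Helper38_TET.TH_C

/-!
# MP_c7c9bf_co: certificates, family TH
-/

set_option autoImplicit false
set_option maxRecDepth 100000

namespace Pool.Agent.TET

theorem TH_rg0 : ROK [.q ⟨-458, -502, 960, 0⟩ ⟨-1462, 502, 960, 0⟩, .q ⟨447, 513, -960, 0⟩ ⟨-1473, 513, 960, 0⟩, .q ⟨1462, -502, -960, 0⟩ ⟨1765, 950, 1124, -3839⟩, .q ⟨1473, -513, -960, 0⟩ ⟨1765, 950, 1124, -3839⟩, .q ⟨1462, -502, -960, 0⟩ ⟨-1532, -1183, -1124, 3839⟩, .q ⟨1473, -513, -960, 0⟩ ⟨-1532, -1183, -1124, 3839⟩] := by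
  refine rok_bys (s := -1) (nlo := 502) (nhi := 513) (q := 960) (by decide) (by decide) (by decide) (by decide) (z := 3) (by decide) TH_sc (k := 1) (by decide) (Q := [(1124, 3839, -950), (-1124, -3839, 1183)])
    (P := [⟨-46264320, -960, 0⟩, ⟨47278080, 960, 0⟩, ⟨-87552000, 1124, 3839⟩, ⟨109025280, -1124, -3839⟩]) rfl rfl
    (List.mem_of_getElem? (i := 0) rfl) TH_fr TH_cov ?_
  · intro X Y h
    simp only [List.forall_mem_cons, List.not_mem_nil, false_imp_iff, implies_true, and_true] at h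
    push_cast at h ⊢
    obtain ⟨h0, h1, h2, h3⟩ := h
    refine ⟨⟨?_, ?_⟩, ?_, ?_⟩ <;> linarith

theorem TH_rg1 : ROK [.q ⟨-39, -41, 80, 0⟩ ⟨-121, 41, 80, 0⟩, .q ⟨36, 44, -80, 0⟩ ⟨-124, 44, 80, 0⟩, .q ⟨121, -41, -80, 0⟩ ⟨2399, 1601, 0, -4000⟩, .q ⟨124, -44, -80, 0⟩ ⟨2399, 1601, 0, -4000⟩, .q ⟨121, -41, -80, 0⟩ ⟨-486, -97, -2522, 3105⟩, .q ⟨124, -44, -80, 0⟩ ⟨-486, -97, -2522, 3105⟩] := by
  refine rok_bys (s := -1) (nlo := 41) (nhi := 44) (q := 80) (by decide) (by decide) (by decide) (by decide) (z := 3) (by decide) TH_sc (k := 1) (by decide) (Q := [(0, 4000, -1601), (-2522, -3105, 97)])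
    (P := [⟨-3778560, -80, 0⟩, ⟨4055040, 80, 0⟩, ⟨-147548160, 0, 4000⟩, ⟨8939520, -2522, -3105⟩]) rfl rfl
    (List.mem_of_getElem? (i := 1) rfl) TH_fr TH_cov ?_
  · intro X Y h
    simp only [List.forall_mem_cons, List.not_mem_nil, false_imp_iff, implies_true, and_true] at h
    push_cast at h ⊢
    obtain ⟨h0, h1, h2, h3⟩ := h
    refine ⟨⟨?_, ?_⟩, ?_, ?_⟩ <;> linarith

theorem TH_rg2 : ROK [.q ⟨-452, -508, 960, 0⟩ ⟨-1468, 508, 960, 0⟩, .q ⟨443, 517, -960, 0⟩ ⟨-1477, 517, 960, 0⟩, .q ⟨1468, -508, -960, 0⟩ ⟨1273, 460, 1826, -3559⟩, .q ⟨1477, -517, -960, 0⟩ ⟨1273, 460, 1826, -3559⟩, .q ⟨1468, -508, -960, 0⟩ ⟨-1369, -1020, -1369, 3758⟩, .q ⟨1477, -517, -960, 0⟩ ⟨-1369, -1020, -1369, 3758⟩] := by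
  refine rok_bys (s := -1) (nlo := 508) (nhi := 517) (q := 960) (by decide) (by decide) (by decide) (by decide) (z := 3) (by decide) TH_sc (k := 1) (by decide) (Q := [(1826, 3559, -460), (-1369, -3758, 1020)])
    (P := [⟨-46817280, -960, 0⟩, ⟨47646720, 960, 0⟩, ⟨-42393600, 1826, 3559⟩, ⟨94003200, -1369, -3758⟩]) rfl rfl
    (List.mem_of_getElem? (i := 2) rfl) TH_fr TH_cov ?_
  · intro X Y h
    simp only [List.forall_mem_cons, List.not_mem_nil, false_imp_iff, implies_true, and_true] at h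
    push_cast at h ⊢
    obtain ⟨h0, h1, h2, h3⟩ := h
    refine ⟨⟨?_, ?_⟩, ?_, ?_⟩ <;> linarith

theorem TH_rg3 : ROK [.q ⟨-38, -42, 80, 0⟩ ⟨-122, 42, 80, 0⟩, .q ⟨35, 45, -80, 0⟩ ⟨-125, 45, 80, 0⟩, .q ⟨122, -42, -80, 0⟩ ⟨2110, 1293, 558, -3961⟩, .q ⟨125, -45, -80, 0⟩ ⟨2110, 1293, 558, -3961⟩, .q ⟨122, -42, -80, 0⟩ ⟨-1611, -1268, -995, 3874⟩, .q ⟨125, -45, -80, 0⟩ ⟨-1611, -1268, -995, 3874⟩] := by
  refine rok_bys (s := -1) (nlo := 42) (nhi := 45) (q := 80) (by decide) (by decide) (by decide) (by decide) (z := 3) (by decide) TH_sc (k := 1) (by decide) (Q := [(558, 3961, -1293), (-995, -3874, 1268)])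
    (P := [⟨-3870720, -80, 0⟩, ⟨4147200, 80, 0⟩, ⟨-119162880, 558, 3961⟩, ⟨116858880, -995, -3874⟩]) rfl rfl
    (List.mem_of_getElem? (i := 3) rfl) TH_fr TH_cov ?_
  · intro X Y h
    simp only [List.forall_mem_cons, List.not_mem_nil, false_imp_iff, implies_true, and_true] at h
    push_cast at h ⊢
    obtain ⟨h0, h1, h2, h3⟩ := h
    refine ⟨⟨?_, ?_⟩, ?_, ?_⟩ <;> linarith

theorem TH_rg4 : ROK [.q ⟨-227, -253, 480, 0⟩ ⟨-733, 253, 480, 0⟩, .q ⟨220, 260, -480, 0⟩ ⟨-740, 260, 480, 0⟩, .q ⟨733, -253, -480, 0⟩ ⟨873, 460, 581, -1914⟩, .q ⟨740, -260, -480, 0⟩ ⟨873, 460, 581, -1914⟩, .q ⟨733, -253, -480, 0⟩ ⟨-1505, -1161, -1162, 3828⟩, .q ⟨740, -260, -480, 0⟩ ⟨-1505, -1161, -1162, 3828⟩] := by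
  refine rok_bys (s := -1) (nlo := 253) (nhi := 260) (q := 480) (by decide) (by decide) (by decide) (by decide) (z := 3) (by decide) TH_sc (k := 1) (by decide) (Q := [(581, 1914, -460), (-1162, -3828, 1161)])
    (P := [⟨-23316480, -480, 0⟩, ⟨23961600, 480, 0⟩, ⟨-42393600, 581, 1914⟩, ⟨106997760, -1162, -3828⟩]) rfl rfl
    (List.mem_of_getElem? (i := 4) rfl) TH_fr TH_cov ?_
  · intro X Y h
    simp only [List.forall_mem_cons, List.not_mem_nil, false_imp_iff, implies_true, and_true] at h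
    push_cast at h ⊢
    obtain ⟨h0, h1, h2, h3⟩ := h
    refine ⟨⟨?_, ?_⟩, ?_, ?_⟩ <;> linarith

theorem TH_rg5 : ROK [.q ⟨-463, -497, 960, 0⟩ ⟨-1457, 497, 960, 0⟩, .q ⟨454, 506, -960, 0⟩ ⟨-1466, 506, 960, 0⟩, .q ⟨1457, -497, -960, 0⟩ ⟨1451, 664, 1566, -3681⟩, .q ⟨1466, -506, -960, 0⟩ ⟨1451, 664, 1566, -3681⟩, .q ⟨1457, -497, -960, 0⟩ ⟨-1238, -877, -1566, 3681⟩, .q ⟨1466, -506, -960, 0⟩ ⟨-1238, -877, -1566, 3681⟩] := by
  refine rok_bys (s := -1) (nlo := 497) (nhi := 506) (q := 960) (by decide) (by decide) (by decide) (by decide) (z := 3) (by decide) TH_sc (k := 1) (by decide) (Q := [(1566, 3681, -664), (-1566, -3681, 877)])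
    (P := [⟨-45803520, -960, 0⟩, ⟨46632960, 960, 0⟩, ⟨-61194240, 1566, 3681⟩, ⟨80824320, -1566, -3681⟩]) rfl rfl
    (List.mem_of_getElem? (i := 5) rfl) TH_fr TH_cov ?_
  · intro X Y h
    simp only [List.forall_mem_cons, List.not_mem_nil, false_imp_iff, implies_true, and_true] at h
    push_cast at h ⊢
    obtain ⟨h0, h1, h2, h3⟩ := h
    refine ⟨⟨?_, ?_⟩, ?_, ?_⟩ <;> linarith

theorem TH_rg6 : ROK [.q ⟨-39, -41, 80, 0⟩ ⟨-121, 41, 80, 0⟩, .q ⟨36, 44, -80, 0⟩ ⟨-124, 44, 80, 0⟩, .q ⟨121, -41, -80, 0⟩ ⟨2399, 1601, 0, -4000⟩, .q ⟨124, -44, -80, 0⟩ ⟨2399, 1601, 0, -4000⟩, .q ⟨121, -41, -80, 0⟩ ⟨-1202, -840, -1617, 3659⟩, .q ⟨124, -44, -80, 0⟩ ⟨-1202, -840, -1617, 3659⟩] := by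
  refine rok_bys (s := -1) (nlo := 41) (nhi := 44) (q := 80) (by decide) (by decide) (by decide) (by decide) (z := 3) (by decide) TH_sc (k := 1) (by decide) (Q := [(0, 4000, -1601), (-1617, -3659, 840)])
    (P := [⟨-3778560, -80, 0⟩, ⟨4055040, 80, 0⟩, ⟨-147548160, 0, 4000⟩, ⟨77414400, -1617, -3659⟩]) rfl rfl
    (List.mem_of_getElem? (i := 6) rfl) TH_fr TH_cov ?_
  · intro X Y h
    simp only [List.forall_mem_cons, List.not_mem_nil, false_imp_iff, implies_true, and_true] at h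
    push_cast at h ⊢
    obtain ⟨h0, h1, h2, h3⟩ := h
    refine ⟨⟨?_, ?_⟩, ?_, ?_⟩ <;> linarith

theorem TH_rg7 : ROK [.q ⟨-21, -19, 40, 0⟩ ⟨-59, 19, 40, 0⟩, .q ⟨18, 22, -40, 0⟩ ⟨-62, 22, 40, 0⟩, .q ⟨59, -19, -40, 0⟩ ⟨1424, 548, 1665, -3637⟩, .q ⟨62, -22, -40, 0⟩ ⟨1424, 548, 1665, -3637⟩, .q ⟨59, -19, -40, 0⟩ ⟨-1166, -806, -1665, 3637⟩, .q ⟨62, -22, -40, 0⟩ ⟨-1166, -806, -1665, 3637⟩, .q ⟨59, -19, -40, 0⟩ ⟨1317, 1322, -1828, -811⟩, .q ⟨62, -22, -40, 0⟩ ⟨1317, 1322, -1828, -811⟩] := by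
  refine rok_bys (s := -1) (nlo := 19) (nhi := 22) (q := 40) (by decide) (by decide) (by decide) (by decide) (z := 3) (by decide) TH_sc (k := 1) (by decide) (Q := [(1665, 3637, -548), (-1665, -3637, 806), (-1828, 811, -1322)])
    (P := [⟨-1751040, -40, 0⟩, ⟨2027520, 40, 0⟩, ⟨-50503680, 1665, 3637⟩, ⟨74280960, -1665, -3637⟩, ⟨-121835520, -1828, 811⟩]) rfl rfl
    (List.mem_of_getElem? (i := 7) rfl) TH_fr TH_cov ?_
  · intro X Y h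
    simp only [List.forall_mem_cons, List.not_mem_nil, false_imp_iff, implies_true, and_true] at h
    push_cast at h ⊢
    obtain ⟨h0, h1, h2, h3, h4⟩ := h
    refine ⟨⟨?_, ?_⟩, ?_, ?_⟩ <;> linarith

theorem TH_rg8 : ROK [.q ⟨-235, -245, 480, 0⟩ ⟨-725, 245, 480, 0⟩, .q ⟨228, 252, -480, 0⟩ ⟨-732, 252, 480, 0⟩, .q ⟨725, -245, -480, 0⟩ ⟨2399, 1601, 0, -4000⟩, .q ⟨732, -252, -480, 0⟩ ⟨2399, 1601, 0, -4000⟩, .q ⟨725, -245, -480, 0⟩ ⟨-1220, -857, -1592, 3669⟩, .q ⟨732, -252, -480, 0⟩ ⟨-1220, -857, -1592, 3669⟩] := by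
  refine rok_bys (s := -1) (nlo := 245) (nhi := 252) (q := 480) (by decide) (by decide) (by decide) (by decide) (z := 3) (by decide) TH_sc (k := 1) (by decide) (Q := [(0, 4000, -1601), (-1592, -3669, 857)])
    (P := [⟨-22579200, -480, 0⟩, ⟨23224320, 480, 0⟩, ⟨-147548160, 0, 4000⟩, ⟨78981120, -1592, -3669⟩]) rfl rfl
    (List.mem_of_getElem? (i := 8) rfl) TH_fr TH_cov ?_
  · intro X Y h
    simp only [List.forall_mem_cons, List.not_mem_nil, false_imp_iff, implies_true, and_true] at h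
    push_cast at h ⊢
    obtain ⟨h0, h1, h2, h3⟩ := h
    refine ⟨⟨?_, ?_⟩, ?_, ?_⟩ <;> linarith

theorem TH_rg9 : ROK [.q ⟨-20, -20, 40, 0⟩ ⟨-60, 20, 40, 0⟩, .q ⟨17, 23, -40, 0⟩ ⟨-63, 23, 40, 0⟩, .q ⟨60, -20, -40, 0⟩ ⟨2399, 1601, 0, -4000⟩, .q ⟨63, -23, -40, 0⟩ ⟨2399, 1601, 0, -4000⟩, .q ⟨60, -20, -40, 0⟩ ⟨-1070, -705, -1798, 3573⟩, .q ⟨63, -23, -40, 0⟩ ⟨-1070, -705, -1798, 3573⟩] := by
  refine rok_bys (s := -1) (nlo := 20) (nhi := 23) (q := 40) (by decide) (by decide) (by decide) (by decide) (z := 3) (by decide) TH_sc (k := 1) (by decide) (Q := [(0, 4000, -1601), (-1798, -3573, 705)])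
    (P := [⟨-1843200, -40, 0⟩, ⟨2119680, 40, 0⟩, ⟨-147548160, 0, 4000⟩, ⟨64972800, -1798, -3573⟩]) rfl rfl
    (List.mem_of_getElem? (i := 9) rfl) TH_fr TH_cov ?_
  · intro X Y h
    simp only [List.forall_mem_cons, List.not_mem_nil, false_imp_iff, implies_true, and_true] at h
    push_cast at h ⊢
    obtain ⟨h0, h1, h2, h3⟩ := h
    refine ⟨⟨?_, ?_⟩, ?_, ?_⟩ <;> linarith

theorem TH_rg10 : ROK [.q ⟨-38, -42, 80, 0⟩ ⟨-122, 42, 80, 0⟩, .q ⟨35, 45, -80, 0⟩ ⟨-125, 45, 80, 0⟩, .q ⟨122, -42, -80, 0⟩ ⟨1008, 233, 2139, -3380⟩, .q ⟨125, -45, -80, 0⟩ ⟨1008, 233, 2139, -3380⟩, .q ⟨122, -42, -80, 0⟩ ⟨-1303, -947, -1470, 3720⟩, .q ⟨125, -45, -80, 0⟩ ⟨-1303, -947, -1470, 3720⟩] := by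
  refine rok_bys (s := -1) (nlo := 42) (nhi := 45) (q := 80) (by decide) (by decide) (by decide) (by decide) (z := 3) (by decide) TH_sc (k := 1) (by decide) (Q := [(2139, 3380, -233), (-1470, -3720, 947)])
    (P := [⟨-3870720, -80, 0⟩, ⟨4147200, 80, 0⟩, ⟨-21473280, 2139, 3380⟩, ⟨87275520, -1470, -3720⟩]) rfl rfl
    (List.mem_of_getElem? (i := 10) rfl) TH_fr TH_cov ?_
  · intro X Y h
    simp only [List.forall_mem_cons, List.not_mem_nil, false_imp_iff, implies_true, and_true] at h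
    push_cast at h ⊢
    obtain ⟨h0, h1, h2, h3⟩ := h
    refine ⟨⟨?_, ?_⟩, ?_, ?_⟩ <;> linarith

theorem TH_rg11 : ROK [.q ⟨-452, -508, 960, 0⟩ ⟨-1468, 508, 960, 0⟩, .q ⟨445, 515, -960, 0⟩ ⟨-1475, 515, 960, 0⟩, .q ⟨1468, -508, -960, 0⟩ ⟨1430, 609, 1619, -3658⟩, .q ⟨1475, -515, -960, 0⟩ ⟨1430, 609, 1619, -3658⟩, .q ⟨1468, -508, -960, 0⟩ ⟨-1198, -841, -1619, 3658⟩, .q ⟨1475, -515, -960, 0⟩ ⟨-1198, -841, -1619, 3658⟩] := by
  refine rok_bys (s := -1) (nlo := 508) (nhi := 515) (q := 960) (by decide) (by decide) (by decide) (by decide) (z := 3) (by decide) TH_sc (k := 1) (by decide) (Q := [(1619, 3658, -609), (-1619, -3658, 841)])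
    (P := [⟨-46817280, -960, 0⟩, ⟨47462400, 960, 0⟩, ⟨-56125440, 1619, 3658⟩, ⟨77506560, -1619, -3658⟩]) rfl rfl
    (List.mem_of_getElem? (i := 11) rfl) TH_fr TH_cov ?_
  · intro X Y h
    simp only [List.forall_mem_cons, List.not_mem_nil, false_imp_iff, implies_true, and_true] at h
    push_cast at h ⊢
    obtain ⟨h0, h1, h2, h3⟩ := h
    refine ⟨⟨?_, ?_⟩, ?_, ?_⟩ <;> linarith

theorem TH_rg12 : ROK [.q ⟨-225, -255, 480, 0⟩ ⟨-735, 255, 480, 0⟩, .q ⟨217, 263, -480, 0⟩ ⟨-743, 263, 480, 0⟩, .q ⟨735, -255, -480, 0⟩ ⟨2534, 1769, -315, -3988⟩, .q ⟨743, -263, -480, 0⟩ ⟨2534, 1769, -315, -3988⟩, .q ⟨735, -255, -480, 0⟩ ⟨-598, -419, -811, 1828⟩, .q ⟨743, -263, -480, 0⟩ ⟨-598, -419, -811, 1828⟩] := by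
  refine rok_bys (s := -1) (nlo := 255) (nhi := 263) (q := 480) (by decide) (by decide) (by decide) (by decide) (z := 3) (by decide) TH_sc (k := 1) (by decide) (Q := [(-315, 3988, -1769), (-811, -1828, 419)])
    (P := [⟨-23500800, -480, 0⟩, ⟨24238080, 480, 0⟩, ⟨-163031040, -315, 3988⟩, ⟨38615040, -811, -1828⟩]) rfl rfl
    (List.mem_of_getElem? (i := 12) rfl) TH_fr TH_cov ?_
  · intro X Y h
    simp only [List.forall_mem_cons, List.not_mem_nil, false_imp_iff, implies_true, and_true] at h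
    push_cast at h ⊢
    obtain ⟨h0, h1, h2, h3⟩ := h
    refine ⟨⟨?_, ?_⟩, ?_, ?_⟩ <;> linarith

theorem TH_rg13 : ROK [.q ⟨-39, -41, 80, 0⟩ ⟨-121, 41, 80, 0⟩, .q ⟨35, 45, -80, 0⟩ ⟨-125, 45, 80, 0⟩, .q ⟨121, -41, -80, 0⟩ ⟨2709, 2036, -832, -3913⟩, .q ⟨125, -45, -80, 0⟩ ⟨2709, 2036, -832, -3913⟩, .q ⟨121, -41, -80, 0⟩ ⟨-1065, -701, -1804, 3570⟩, .q ⟨125, -45, -80, 0⟩ ⟨-1065, -701, -1804, 3570⟩] := by
  refine rok_bys (s := -1) (nlo := 41) (nhi := 45) (q := 80) (by decide) (by decide) (by decide) (by decide) (z := 3) (by decide) TH_sc (k := 1) (by decide) (Q := [(-832, 3913, -2036), (-1804, -3570, 701)])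
    (P := [⟨-3778560, -80, 0⟩, ⟨4147200, 80, 0⟩, ⟨-187637760, -832, 3913⟩, ⟨64604160, -1804, -3570⟩]) rfl rfl
    (List.mem_of_getElem? (i := 13) rfl) TH_fr TH_cov ?_
  · intro X Y h
    simp only [List.forall_mem_cons, List.not_mem_nil, false_imp_iff, implies_true, and_true] at h
    push_cast at h ⊢
    obtain ⟨h0, h1, h2, h3⟩ := h
    refine ⟨⟨?_, ?_⟩, ?_, ?_⟩ <;> linarith

theorem TH_rg14 : ROK [.q ⟨-37, -43, 80, 0⟩ ⟨-123, 43, 80, 0⟩, .q ⟨34, 46, -80, 0⟩ ⟨-126, 46, 80, 0⟩, .q ⟨123, -43, -80, 0⟩ ⟨2538, 2561, -1325, -3774⟩, .q ⟨126, -46, -80, 0⟩ ⟨2538, 2561, -1325, -3774⟩, .q ⟨123, -43, -80, 0⟩ ⟨-1752, -2131, -115, 3998⟩, .q ⟨126, -46, -80, 0⟩ ⟨-1752, -2131, -115, 3998⟩] := by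
  refine rok_bys (s := -1) (nlo := 43) (nhi := 46) (q := 80) (by decide) (by decide) (by decide) (by decide) (z := 3) (by decide) TH_sc (k := 1) (by decide) (Q := [(-1325, 3774, -2561), (-115, -3998, 2131)])
    (P := [⟨-3962880, -80, 0⟩, ⟨4239360, 80, 0⟩, ⟨-236021760, -1325, 3774⟩, ⟨196392960, -115, -3998⟩]) rfl rfl
    (List.mem_of_getElem? (i := 14) rfl) TH_fr TH_cov ?_
  · intro X Y h
    simp only [List.forall_mem_cons, List.not_mem_nil, false_imp_iff, implies_true, and_true] at h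
    push_cast at h ⊢
    obtain ⟨h0, h1, h2, h3⟩ := h
    refine ⟨⟨?_, ?_⟩, ?_, ?_⟩ <;> linarith

theorem TH_rg15 : ROK [.q ⟨-38, -42, 80, 0⟩ ⟨-122, 42, 80, 0⟩, .q ⟨35, 45, -80, 0⟩ ⟨-125, 45, 80, 0⟩, .q ⟨122, -42, -80, 0⟩ ⟨2399, 1601, 0, -4000⟩, .q ⟨125, -45, -80, 0⟩ ⟨2399, 1601, 0, -4000⟩, .q ⟨122, -42, -80, 0⟩ ⟨-488, -99, -2520, 3107⟩, .q ⟨125, -45, -80, 0⟩ ⟨-488, -99, -2520, 3107⟩] := by
  refine rok_bys (s := -1) (nlo := 42) (nhi := 45) (q := 80) (by decide) (by decide) (by decide) (by decide) (z := 3) (by decide) TH_sc (k := 1) (by decide) (Q := [(0, 4000, -1601), (-2520, -3107, 99)])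
    (P := [⟨-3870720, -80, 0⟩, ⟨4147200, 80, 0⟩, ⟨-147548160, 0, 4000⟩, ⟨9123840, -2520, -3107⟩]) rfl rfl
    (List.mem_of_getElem? (i := 15) rfl) TH_fr TH_cov ?_
  · intro X Y h
    simp only [List.forall_mem_cons, List.not_mem_nil, false_imp_iff, implies_true, and_true] at h
    push_cast at h ⊢
    obtain ⟨h0, h1, h2, h3⟩ := h
    refine ⟨⟨?_, ?_⟩, ?_, ?_⟩ <;> linarith

theorem TH_rg16 : ROK [.q ⟨-453, -507, 960, 0⟩ ⟨-1467, 507, 960, 0⟩, .q ⟨442, 518, -960, 0⟩ ⟨-1478, 518, 960, 0⟩, .q ⟨1467, -507, -960, 0⟩ ⟨14795, -9378, -1893, -3524⟩, .q ⟨1478, -518, -960, 0⟩ ⟨14795, -9378, -1893, -3524⟩, .q ⟨1467, -507, -960, 0⟩ ⟨9226, -14643, 1893, 3524⟩, .q ⟨1478, -518, -960, 0⟩ ⟨9226, -14643, 1893, 3524⟩, .q ⟨1467, -507, -960, 0⟩ ⟨2890, 2691, -3254, -2327⟩, .q ⟨1478, -518, -960, 0⟩ ⟨2890, 2691, -3254, -2327⟩, .q ⟨1467, -507, -960, 0⟩ ⟨-1178, -820, -1647,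 3645⟩, .q ⟨1478, -518, -960, 0⟩ ⟨-1178, -820, -1647, 3645⟩] := by
  refine rok_bys (s := -1) (nlo := 507) (nhi := 518) (q := 960) (by decide) (by decide) (by decide) (by decide) (z := 3) (by decide) TH_sc (k := 1) (by decide) (Q := [(-1893, 3524, 9378), (1893, -3524, 14643), (-3254, 2327, -2691), (-1647, -3645, 820)])
    (P := [⟨-46725120, -960, 0⟩, ⟨47738880, 960, 0⟩, ⟨864276480, -1893, 3524⟩, ⟨1349498880, 1893, -3524⟩, ⟨-248002560, -3254, 2327⟩, ⟨75571200, -1647, -3645⟩]) rfl rfl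
    (List.mem_of_getElem? (i := 16) rfl) TH_fr TH_cov ?_
  · intro X Y h
    simp only [List.forall_mem_cons, List.not_mem_nil, false_imp_iff, implies_true, and_true] at h
    push_cast at h ⊢
    obtain ⟨h0, h1, h2, h3, h4, h5⟩ := h
    refine ⟨⟨?_, ?_⟩, ?_, ?_⟩ <;> linarith

theorem TH_rg17 : ROK [.q ⟨-227, -253, 480, 0⟩ ⟨-733, 253, 480, 0⟩, .q ⟨217, 263, -480, 0⟩ ⟨-743, 263, 480, 0⟩, .q ⟨733, -253, -480, 0⟩ ⟨462, 191, 558, -1211⟩, .q ⟨743, -263, -480, 0⟩ ⟨462, 191, 558, -1211⟩, .q ⟨733, -253, -480, 0⟩ ⟨-1159, -800, -1674, 3633⟩, .q ⟨743, -263, -480, 0⟩ ⟨-1159, -800, -1674, 3633⟩] := by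
  refine rok_bys (s := -1) (nlo := 253) (nhi := 263) (q := 480) (by decide) (by decide) (by decide) (by decide) (z := 3) (by decide) TH_sc (k := 1) (by decide) (Q := [(558, 1211, -191), (-1674, -3633, 800)])
    (P := [⟨-23316480, -480, 0⟩, ⟨24238080, 480, 0⟩, ⟨-17602560, 558, 1211⟩, ⟨73728000, -1674, -3633⟩]) rfl rfl
    (List.mem_of_getElem? (i := 17) rfl) TH_fr TH_cov ?_
  · intro X Y h
    simp only [List.forall_mem_cons, List.not_mem_nil, false_imp_iff, implies_true, and_true] at h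
    push_cast at h ⊢
    obtain ⟨h0, h1, h2, h3⟩ := h
    refine ⟨⟨?_, ?_⟩, ?_, ?_⟩ <;> linarith

theorem TH_rg18 : ROK [.q ⟨-451, -509, 960, 0⟩ ⟨-1469, 509, 960, 0⟩, .q ⟨441, 519, -960, 0⟩ ⟨-1479, 519, 960, 0⟩, .q ⟨1469, -509, -960, 0⟩ ⟨551, -204, 2650, -2997⟩, .q ⟨1479, -519, -960, 0⟩ ⟨551, -204, 2650, -2997⟩, .q ⟨1469, -509, -960, 0⟩ ⟨-366, 19, -2650, 2997⟩, .q ⟨1479, -519, -960, 0⟩ ⟨-366, 19, -2650, 2997⟩, .q ⟨1469, -509, -960, 0⟩ ⟨-1328, -981, -1428, 3737⟩, .q ⟨1479, -519, -960, 0⟩ ⟨-1328, -981, -1428, 3737⟩] := by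
  refine rok_bys (s := -1) (nlo := 509) (nhi := 519) (q := 960) (by decide) (by decide) (by decide) (by decide) (z := 3) (by decide) TH_sc (k := 1) (by decide) (Q := [(2650, 2997, 204), (-2650, -2997, -19), (-1428, -3737, 981)])
    (P := [⟨-46909440, -960, 0⟩, ⟨47831040, 960, 0⟩, ⟨18800640, 2650, 2997⟩, ⟨-1751040, -2650, -2997⟩, ⟨90408960, -1428, -3737⟩]) rfl rfl
    (List.mem_of_getElem? (i := 18) rfl) TH_fr TH_cov ?_
  · intro X Y h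
    simp only [List.forall_mem_cons, List.not_mem_nil, false_imp_iff, implies_true, and_true] at h
    push_cast at h ⊢
    obtain ⟨h0, h1, h2, h3, h4⟩ := h
    refine ⟨⟨?_, ?_⟩, ?_, ?_⟩ <;> linarith

theorem TH_rg19 : ROK [.q ⟨-20, -20, 40, 0⟩ ⟨-60, 20, 40, 0⟩, .q ⟨17, 23, -40, 0⟩ ⟨-63, 23, 40, 0⟩, .q ⟨60, -20, -40, 0⟩ ⟨1244, 536, 1795, -3575⟩, .q ⟨63, -23, -40, 0⟩ ⟨1244, 536, 1795, -3575⟩, .q ⟨60, -20, -40, 0⟩ ⟨-1072, -708, -1795, 3575⟩, .q ⟨63, -23, -40, 0⟩ ⟨-1072, -708, -1795, 3575⟩] := by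
  refine rok_bys (s := -1) (nlo := 20) (nhi := 23) (q := 40) (by decide) (by decide) (by decide) (by decide) (z := 3) (by decide) TH_sc (k := 1) (by decide) (Q := [(1795, 3575, -536), (-1795, -3575, 708)])
    (P := [⟨-1843200, -40, 0⟩, ⟨2119680, 40, 0⟩, ⟨-49397760, 1795, 3575⟩, ⟨65249280, -1795, -3575⟩]) rfl rfl
    (List.mem_of_getElem? (i := 19) rfl) TH_fr TH_cov ?_
  · intro X Y h
    simp only [List.forall_mem_cons, List.not_mem_nil, false_imp_iff, implies_true, and_true] at h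
    push_cast at h ⊢
    obtain ⟨h0, h1, h2, h3⟩ := h
    refine ⟨⟨?_, ?_⟩, ?_, ?_⟩ <;> linarith

theorem TH_rg20 : ROK [.q ⟨-20, -20, 40, 0⟩ ⟨-60, 20, 40, 0⟩, .q ⟨17, 23, -40, 0⟩ ⟨-63, 23, 40, 0⟩, .q ⟨60, -20, -40, 0⟩ ⟨2429, 1643, -73, -3999⟩, .q ⟨63, -23, -40, 0⟩ ⟨2429, 1643, -73, -3999⟩, .q ⟨60, -20, -40, 0⟩ ⟨4633, -7448, 1272, 1543⟩, .q ⟨63, -23, -40, 0⟩ ⟨4633, -7448, 1272, 1543⟩, .q ⟨60, -20, -40, 0⟩ ⟨166, 569, -3172, 2437⟩, .q ⟨63, -23, -40, 0⟩ ⟨166, 569, -3172, 2437⟩] := by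
  refine rok_bys (s := -1) (nlo := 20) (nhi := 23) (q := 40) (by decide) (by decide) (by decide) (by decide) (z := 3) (by decide) TH_sc (k := 1) (by decide) (Q := [(-73, 3999, -1643), (1272, -1543, 7448), (-3172, -2437, -569)])
    (P := [⟨-1843200, -40, 0⟩, ⟨2119680, 40, 0⟩, ⟨-151418880, -73, 3999⟩, ⟨686407680, 1272, -1543⟩, ⟨-52439040, -3172, -2437⟩]) rfl rfl
    (List.mem_of_getElem? (i := 20) rfl) TH_fr TH_cov ?_
  · intro X Y h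
    simp only [List.forall_mem_cons, List.not_mem_nil, false_imp_iff, implies_true, and_true] at h
    push_cast at h ⊢
    obtain ⟨h0, h1, h2, h3, h4⟩ := h
    refine ⟨⟨?_, ?_⟩, ?_, ?_⟩ <;> linarith

theorem TH_rg21 : ROK [.q ⟨-228, -252, 480, 0⟩ ⟨-732, 252, 480, 0⟩, .q ⟨217, 263, -480, 0⟩ ⟨-743, 263, 480, 0⟩, .q ⟨732, -252, -480, 0⟩ ⟨3002, 2611, -2458, -3155⟩, .q ⟨743, -263, -480, 0⟩ ⟨3002, 2611, -2458, -3155⟩, .q ⟨732, -252, -480, 0⟩ ⟨-716, -547, -634, 1897⟩, .q ⟨743, -263, -480, 0⟩ ⟨-716, -547, -634, 1897⟩, .q ⟨732, -252, -480, 0⟩ ⟨-56, 139, -1455, 1372⟩, .q ⟨743, -263, -480, 0⟩ ⟨-56, 139, -1455, 1372⟩] := by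
  refine rok_bys (s := -1) (nlo := 252) (nhi := 263) (q := 480) (by decide) (by decide) (by decide) (by decide) (z := 3) (by decide) TH_sc (k := 1) (by decide) (Q := [(-2458, 3155, -2611), (-634, -1897, 547), (-1455, -1372, -139)])
    (P := [⟨-23224320, -480, 0⟩, ⟨24238080, 480, 0⟩, ⟨-240629760, -2458, 3155⟩, ⟨50411520, -634, -1897⟩, ⟨-12810240, -1455, -1372⟩]) rfl rfl
    (List.mem_of_getElem? (i := 21) rfl) TH_fr TH_cov ?_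
  · intro X Y h
    simp only [List.forall_mem_cons, List.not_mem_nil, false_imp_iff, implies_true, and_true] at h
    push_cast at h ⊢
    obtain ⟨h0, h1, h2, h3, h4⟩ := h
    refine ⟨⟨?_, ?_⟩, ?_, ?_⟩ <;> linarith

theorem TH_rg22 : ROK [.q ⟨-21, -19, 40, 0⟩ ⟨-59, 19, 40, 0⟩, .q ⟨17, 23, -40, 0⟩ ⟨-63, 23, 40, 0⟩, .q ⟨59, -19, -40, 0⟩ ⟨1113, 612, 1831, -3556⟩, .q ⟨63, -23, -40, 0⟩ ⟨1113, 612, 1831, -3556⟩, .q ⟨59, -19, -40, 0⟩ ⟨-1045, -680, -1831, 3556⟩, .q ⟨63, -23, -40, 0⟩ ⟨-1045, -680, -1831, 3556⟩] := by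
  refine rok_bys (s := -1) (nlo := 19) (nhi := 23) (q := 40) (by decide) (by decide) (by decide) (by decide) (z := 3) (by decide) TH_sc (k := 1) (by decide) (Q := [(1831, 3556, -612), (-1831, -3556, 680)])
    (P := [⟨-1751040, -40, 0⟩, ⟨2119680, 40, 0⟩, ⟨-56401920, 1831, 3556⟩, ⟨62668800, -1831, -3556⟩]) rfl rfl
    (List.mem_of_getElem? (i := 22) rfl) TH_fr TH_cov ?_
  · intro X Y h
    simp only [List.forall_mem_cons, List.not_mem_nil, false_imp_iff, implies_true, and_true] at h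
    push_cast at h ⊢
    obtain ⟨h0, h1, h2, h3⟩ := h
    refine ⟨⟨?_, ?_⟩, ?_, ?_⟩ <;> linarith

theorem TH_rg23 : ROK [.q ⟨-73, -87, 160, 0⟩ ⟨-247, 87, 160, 0⟩, .q ⟨70, 90, -160, 0⟩ ⟨-250, 90, 160, 0⟩, .q ⟨247, -87, -160, 0⟩ ⟨2729, 2891, -2490, -3130⟩, .q ⟨250, -90, -160, 0⟩ ⟨2729, 2891, -2490, -3130⟩, .q ⟨247, -87, -160, 0⟩ ⟨-255, -307, 249, 313⟩, .q ⟨250, -90, -160, 0⟩ ⟨-255, -307, 249, 313⟩] := by
  refine rok_bys (s := -1) (nlo := 87) (nhi := 90) (q := 160) (by decide) (by decide) (by decide) (by decide) (z := 3) (by decide) TH_sc (k := 1) (by decide) (Q := [(-2490, 3130, -2891), (249, -313, 307)])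
    (P := [⟨-8017920, -160, 0⟩, ⟨8294400, 160, 0⟩, ⟨-266434560, -2490, 3130⟩, ⟨28293120, 249, -313⟩]) rfl rfl
    (List.mem_of_getElem? (i := 23) rfl) TH_fr TH_cov ?_
  · intro X Y h
    simp only [List.forall_mem_cons, List.not_mem_nil, false_imp_iff, implies_true, and_true] at h
    push_cast at h ⊢
    obtain ⟨h0, h1, h2, h3⟩ := h
    refine ⟨⟨?_, ?_⟩, ?_, ?_⟩ <;> linarith

end Pool.Agent.TET
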