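import Pool.Agent.Helper38_TET.TH_M
import Pool.Agent.Helper38_TET.TH_L
import Pool.Agent.Helper38_TET.TH_32
import Pool.Agent.Helper38_TET.TH_33
import Pool.Agent.Helper38_TET.TH_34
import Pool.Agent.Helper38_TET.TH_35
import Pool.Agent.Helper38_TET.TH_36
import Pool.Agent.Helper38_TET.TH_37
import Pool.Agent.Helper38_TET.TH_38
import Pool.Agent.Helper38_TET.TH_39
import Pool.Agent.Helper38_TET.TH_40
import Pool.Agent.Helper38_TET.TH_U4

/-!
# MP_c7c9bf_co: certificates, family TH
-/

set_option autoImplicit false
set_option maxRecDepth 100000

namespace Pool.Agent.TET

theorem TH_u72 : CovZ TH_M (toL (selN TH_LN 3211307308593602029703905773621947617675051008)) [0, 7, 6, 1] (-47232, 45216) (-47232, 45504) (-47520, 45216) :=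
    (CovZ.n1 (-47376, 45360) (by decide +kernel)
              (CovZ.n2 (-47232, 45360) (by decide +kernel)
               (CovZ.n2 (-47304, 45288) (by decide +kernel)
                (CovZ.n2 (-47304, 45360) (by decide +kernel)
                 (CovZ.n2 (-47268, 45324) (by decide +kernel)
                  (CovZ.leaf K2_ok TH_l5081 _)
                  (CovZ.n1 (-47268, 45360) (by decide +kernel)
                   (CovZ.leaf K2_ok TH_l5082 _)
                   (CovZ.leaf K2_ok TH_l5083 _)))
                 (CovZ.n1 (-47340, 45324) (by decide +kernel)
                  (CovZ.n2 (-47340, 45360) (by decide +kernel)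
                   (CovZ.leaf K2_ok TH_l5084 _)
                   (CovZ.leaf K2_ok TH_l5085 _))
                  (CovZ.leaf K2_ok TH_l5086 _)))
                (CovZ.n1 (-47232, 45288) (by decide +kernel)
                 (CovZ.n2 (-47268, 45252) (by decide +kernel)
                  (CovZ.n2 (-47268, 45288) (by decide +kernel)
                   (CovZ.leaf K2_ok TH_l5087 _)
                   (CovZ.leaf K2_ok TH_l5088 _))
                  (CovZ.n1 (-47232, 45252) (by decide +kernel)
                   (CovZ.n2 (-47250, 45234) (by decide +kernel)
                    (CovZ.leaf K2_ok TH_l5089 _)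
                    (CovZ.leaf K2_ok TH_l5090 _))
                   (CovZ.leaf K2_ok TH_l5091 _)))
                 (CovZ.n1 (-47268, 45324) (by decide +kernel)
                  (CovZ.leaf K2_ok TH_l5092 _)
                  (CovZ.n1 (-47268, 45288) (by decide +kernel)
                   (CovZ.leaf K2_ok TH_l5093 _)
                   (CovZ.leaf K2_ok TH_l5094 _)))))
               (CovZ.n1 (-47304, 45432) (by decide +kernel)
                (CovZ.n2 (-47232, 45432) (by decide +kernel)
                 (CovZ.n2 (-47268, 45396) (by decide +kernel)
                  (CovZ.leaf K2_ok TH_l5095 _)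
                  (CovZ.leaf K2_ok TH_l5096 _))
                 (CovZ.leaf K2_ok TH_l5097 _))
                (CovZ.n1 (-47304, 45360) (by decide +kernel)
                 (CovZ.n2 (-47340, 45396) (by decide +kernel)
                  (CovZ.leaf K2_ok TH_l5098 _)
                  (CovZ.leaf K2_ok TH_l5099 _))
                 (CovZ.n1 (-47268, 45396) (by decide +kernel)
                  (CovZ.leaf K2_ok TH_l5100 _)
                  (CovZ.leaf K2_ok TH_l5101 _)))))
              (CovZ.n1 (-47376, 45216) (by decide +kernel)
               (CovZ.n2 (-47448, 45288) (by decide +kernel)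
                (CovZ.n2 (-47376, 45288) (by decide +kernel)
                 (CovZ.n2 (-47412, 45252) (by decide +kernel)
                  (CovZ.leaf K2_ok TH_l5102 _)
                  (CovZ.n1 (-47376, 45252) (by decide +kernel)
                   (CovZ.n2 (-47394, 45234) (by decide +kernel)
                    (CovZ.leaf K2_ok TH_l5103 _)
                    (CovZ.leaf K2_ok TH_l5104 _))
                   (CovZ.leaf K2_ok TH_l5105 _)))
                 (CovZ.n1 (-47412, 45324) (by decide +kernel)
                  (CovZ.leaf K2_ok TH_l5106 _)
                  (CovZ.n1 (-47412, 45288) (by decide +kernel)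
                   (CovZ.leaf K2_ok TH_l5107 _)
                   (CovZ.leaf K2_ok TH_l5108 _))))
                (CovZ.n1 (-47448, 45216) (by decide +kernel)
                 (CovZ.n2 (-47484, 45252) (by decide +kernel)
                  (CovZ.n2 (-47448, 45252) (by decide +kernel)
                   (CovZ.leaf K2_ok TH_l5109 _)
                   (CovZ.leaf K2_ok TH_l5110 _))
                  (CovZ.n1 (-47484, 45216) (by decide +kernel)
                   (CovZ.leaf K2_ok TH_l5111 _)
                   (CovZ.leaf K2_ok TH_l5112 _)))
                 (CovZ.n1 (-47412, 45252) (by decide +kernel)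
                  (CovZ.n2 (-47412, 45216) (by decide +kernel)
                   (CovZ.leaf K2_ok TH_l5113 _)
                   (CovZ.n1 (-47394, 45234) (by decide +kernel)
                    (CovZ.leaf K2_ok TH_l5114 _)
                    (CovZ.leaf K2_ok TH_l5115 _)))
                  (CovZ.leaf K2_ok TH_l5116 _))))
               (CovZ.n1 (-47304, 45288) (by decide +kernel)
                (CovZ.n2 (-47304, 45216) (by decide +kernel)
                 (CovZ.n2 (-47340, 45252) (by decide +kernel)
                  (CovZ.n2 (-47304, 45252) (by decide +kernel)
                   (CovZ.leaf K2_ok TH_l5117 _)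
                   (CovZ.leaf K2_ok TH_l5118 _))
                  (CovZ.n1 (-47340, 45216) (by decide +kernel)
                   (CovZ.leaf K2_ok TH_l5119 _)
                   (CovZ.leaf K2_ok TH_l5120 _)))
                 (CovZ.n1 (-47268, 45252) (by decide +kernel)
                  (CovZ.n2 (-47268, 45216) (by decide +kernel)
                   (CovZ.n2 (-47286, 45234) (by decide +kernel)
                    (CovZ.leaf K2_ok TH_l5121 _)
                    (CovZ.leaf K2_ok TH_l5122 _))
                   (CovZ.leaf K2_ok TH_l5123 _))
                  (CovZ.n1 (-47304, 45252) (by decide +kernel)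
                   (CovZ.leaf K2_ok TH_l5124 _)
                   (CovZ.n1 (-47286, 45234) (by decide +kernel)
                    (CovZ.leaf K2_ok TH_l5125 _)
                    (CovZ.leaf K2_ok TH_l5126 _)))))
                (CovZ.n1 (-47376, 45288) (by decide +kernel)
                 (CovZ.n2 (-47340, 45324) (by decide +kernel)
                  (CovZ.leaf K2_ok TH_l5127 _)
                  (CovZ.leaf K2_ok TH_l5128 _))
                 (CovZ.n1 (-47340, 45252) (by decide +kernel)
                  (CovZ.leaf K2_ok TH_l5129 _)
                  (CovZ.n1 (-47340, 45288) (by decide +kernel)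
                   (CovZ.leaf K2_ok TH_l5130 _)
                   (CovZ.leaf K2_ok TH_l5131 _)))))))

theorem TH_u73 : CovZ TH_M (toL (selN TH_LN 3211307308593602029703905773621947617675051008)) [0, 7, 6, 1] (-48384, 46080) (-47808, 45504) (-47232, 46080) :=
    (CovZ.n2 (-47808, 46080) (by decide +kernel)
           (CovZ.n2 (-47520, 45792) (by decide +kernel)
            (CovZ.n2 (-47808, 45792) (by decide +kernel)
             (CovZ.n2 (-47664, 45936) (by decide +kernel)
              (CovZ.n2 (-47664, 45792) (by decide +kernel)
               (CovZ.n2 (-47736, 45864) (by decide +kernel)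
                (CovZ.leaf K2_ok TH_l4886 _)
                (CovZ.leaf K2_ok TH_l4887 _))
               (CovZ.n1 (-47592, 45864) (by decide +kernel)
                (CovZ.n2 (-47592, 45792) (by decide +kernel)
                 (CovZ.leaf K2_ok TH_l4888 _)
                 (CovZ.leaf K2_ok TH_l4889 _))
                (CovZ.leaf K2_ok TH_l4890 _)))
              (CovZ.n1 (-47808, 45936) (by decide +kernel)
               (CovZ.leaf K2_ok TH_l4891 _)
               (CovZ.n1 (-47736, 45864) (by decide +kernel)
                (CovZ.leaf K2_ok TH_l4892 _)
                (CovZ.leaf K2_ok TH_l4893 _))))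
             (CovZ.n1 (-47664, 45648) (by decide +kernel)
              (CovZ.n2 (-47808, 45648) (by decide +kernel)
               (CovZ.n2 (-47736, 45720) (by decide +kernel)
                (CovZ.leaf K2_ok TH_l4894 _)
                (CovZ.leaf K2_ok TH_l4895 _))
               (CovZ.n1 (-47736, 45576) (by decide +kernel)
                (CovZ.leaf K2_ok TH_l4896 _)
                (CovZ.n1 (-47736, 45648) (by decide +kernel)
                 (CovZ.leaf K2_ok TH_l4897 _)
                 (CovZ.leaf K2_ok TH_l4898 _))))
              (CovZ.n1 (-47664, 45792) (by decide +kernel)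
               (CovZ.n2 (-47592, 45720) (by decide +kernel)
                (CovZ.leaf K2_ok TH_l4899 _)
                (CovZ.n1 (-47592, 45792) (by decide +kernel)
                 (CovZ.leaf K2_ok TH_l4900 _)
                 (CovZ.leaf K2_ok TH_l4901 _)))
               (CovZ.n1 (-47736, 45720) (by decide +kernel)
                (CovZ.leaf K2_ok TH_l4902 _)
                (CovZ.leaf K2_ok TH_l4903 _)))))
            (CovZ.n1 (-47520, 46080) (by decide +kernel)
             (CovZ.n2 (-47376, 45936) (by decide +kernel)
              (CovZ.n2 (-47520, 45936) (by decide +kernel)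
               (CovZ.leaf K2_ok TH_l4904 _)
               (CovZ.n1 (-47448, 45864) (by decide +kernel)
                (CovZ.leaf K2_ok TH_l4905 _)
                (CovZ.leaf K2_ok TH_l4906 _)))
              (CovZ.n1 (-47376, 46080) (by decide +kernel)
               (CovZ.n2 (-47304, 46008) (by decide +kernel)
                (CovZ.leaf K2_ok TH_l4907 _)
                (CovZ.leaf K2_ok TH_l4908 _))
               (CovZ.leaf K2_ok TH_l4909 _)))
             (CovZ.n1 (-47664, 45936) (by decide +kernel)
              (CovZ.n2 (-47664, 46080) (by decide +kernel)
               (CovZ.leaf K2_ok TH_l4910 _)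
               (CovZ.leaf K2_ok TH_l4911 _))
              (CovZ.n1 (-47520, 45936) (by decide +kernel)
               (CovZ.n2 (-47592, 45864) (by decide +kernel)
                (CovZ.leaf K2_ok TH_l4912 _)
                (CovZ.leaf K2_ok TH_l4913 _))
               (CovZ.n1 (-47592, 46008) (by decide +kernel)
                (CovZ.leaf K2_ok TH_l4914 _)
                (CovZ.leaf K2_ok TH_l4915 _))))))
           (CovZ.n1 (-48096, 45792) (by decide +kernel)
            (CovZ.n2 (-48096, 46080) (by decide +kernel)
             (CovZ.n2 (-47952, 45936) (by decide +kernel)
              (CovZ.n2 (-48096, 45936) (by decide +kernel)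
               (CovZ.leaf K2_ok TH_l4916 _)
               (CovZ.n1 (-48024, 45864) (by decide +kernel)
                (CovZ.leaf K2_ok TH_l4917 _)
                (CovZ.leaf K2_ok TH_l4918 _)))
              (CovZ.n1 (-47952, 46080) (by decide +kernel)
               (CovZ.leaf K2_ok TH_l4919 _)
               (CovZ.leaf K2_ok TH_l4920 _)))
             (CovZ.n1 (-48240, 45936) (by decide +kernel)
              (CovZ.n2 (-48240, 46080) (by decide +kernel)
               (CovZ.leaf K2_ok TH_l4921 _)
               (CovZ.leaf K2_ok TH_l4922 _))
              (CovZ.n1 (-48096, 45936) (by decide +kernel)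
               (CovZ.leaf K2_ok TH_l4923 _)
               (CovZ.leaf K2_ok TH_l4924 _))))
            (CovZ.n1 (-47808, 45792) (by decide +kernel)
             (CovZ.n2 (-47952, 45648) (by decide +kernel)
              (CovZ.n2 (-47952, 45792) (by decide +kernel)
               (CovZ.n2 (-47880, 45720) (by decide +kernel)
                (CovZ.leaf K2_ok TH_l4925 _)
                (CovZ.leaf K2_ok TH_l4926 _))
               (CovZ.n1 (-48024, 45720) (by decide +kernel)
                (CovZ.leaf K2_ok TH_l4927 _)
                (CovZ.leaf K2_ok TH_l4928 _)))
              (CovZ.n1 (-47808, 45648) (by decide +kernel)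
               (CovZ.n2 (-47880, 45576) (by decide +kernel)
                (CovZ.n2 (-47880, 45648) (by decide +kernel)
                 (CovZ.leaf K2_ok TH_l4929 _)
                 (CovZ.leaf K2_ok TH_l4930 _))
                (CovZ.leaf K2_ok TH_l4931 _))
               (CovZ.n1 (-47880, 45720) (by decide +kernel)
                (CovZ.leaf K2_ok TH_l4932 _)
                (CovZ.leaf K2_ok TH_l4933 _))))
             (CovZ.n1 (-47952, 45936) (by decide +kernel)
              (CovZ.n2 (-47808, 45936) (by decide +kernel)
               (CovZ.leaf K2_ok TH_l4934 _)
               (CovZ.leaf K2_ok TH_l4935 _))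
              (CovZ.n1 (-47952, 45792) (by decide +kernel)
               (CovZ.leaf K2_ok TH_l4936 _)
               (CovZ.leaf K2_ok TH_l4937 _))))))

theorem TH_u74 : CovZ TH_M (toL (selN TH_LN 3211307308593602029703905773621947617675051008)) [0, 7, 6, 1] (-47808, 45504) (-47232, 44928) (-47232, 46080) :=
    (CovZ.n1 (-47232, 45504) (by decide +kernel)
           (CovZ.n2 (-47520, 45216) (by decide +kernel)
            (CovZ.n2 (-47520, 45504) (by decide +kernel)
             (CovZ.n2 (-47376, 45360) (by decide +kernel)
              (CovZ.n2 (-47520, 45360) (by decide +kernel)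
               (CovZ.n2 (-47448, 45432) (by decide +kernel)
                (CovZ.n2 (-47448, 45360) (by decide +kernel)
                 (CovZ.n2 (-47484, 45396) (by decide +kernel)
                  (CovZ.leaf K2_ok TH_l4938 _)
                  (CovZ.leaf K2_ok TH_l4939 _))
                 (CovZ.n1 (-47412, 45396) (by decide +kernel)
                  (CovZ.leaf K2_ok TH_l4940 _)
                  (CovZ.leaf K2_ok TH_l4941 _)))
                (CovZ.n1 (-47520, 45432) (by decide +kernel)
                 (CovZ.leaf K2_ok TH_l4942 _)
                 (CovZ.n1 (-47484, 45396) (by decide +kernel)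
                  (CovZ.leaf K2_ok TH_l4943 _)
                  (CovZ.leaf K2_ok TH_l4944 _))))
               (CovZ.n1 (-47448, 45288) (by decide +kernel)
                (CovZ.n2 (-47520, 45288) (by decide +kernel)
                 (CovZ.n2 (-47484, 45324) (by decide +kernel)
                  (CovZ.leaf K2_ok TH_l4945 _)
                  (CovZ.leaf K2_ok TH_l4946 _))
                 (CovZ.n1 (-47484, 45252) (by decide +kernel)
                  (CovZ.leaf K2_ok TH_l4947 _)
                  (CovZ.leaf K2_ok TH_l4948 _)))
                (CovZ.n1 (-47448, 45360) (by decide +kernel)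
                 (CovZ.n2 (-47412, 45324) (by decide +kernel)
                  (CovZ.leaf K2_ok TH_l4949 _)
                  (CovZ.n1 (-47412, 45360) (by decide +kernel)
                   (CovZ.leaf K2_ok TH_l4950 _)
                   (CovZ.leaf K2_ok TH_l4951 _)))
                 (CovZ.n1 (-47484, 45324) (by decide +kernel)
                  (CovZ.n2 (-47484, 45360) (by decide +kernel)
                   (CovZ.leaf K2_ok TH_l4952 _)
                   (CovZ.leaf K2_ok TH_l4953 _))
                  (CovZ.leaf K2_ok TH_l4954 _)))))
              (CovZ.n1 (-47376, 45504) (by decide +kernel)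
               (CovZ.n2 (-47304, 45432) (by decide +kernel)
                (CovZ.n2 (-47376, 45432) (by decide +kernel)
                 (CovZ.leaf K2_ok TH_l4955 _)
                 (CovZ.n1 (-47340, 45396) (by decide +kernel)
                  (CovZ.leaf K2_ok TH_l4956 _)
                  (CovZ.leaf K2_ok TH_l4957 _)))
                (CovZ.n1 (-47304, 45504) (by decide +kernel)
                 (CovZ.n2 (-47268, 45468) (by decide +kernel)
                  (CovZ.leaf K2_ok TH_l4958 _)
                  (CovZ.leaf K2_ok TH_l4959 _))
                 (CovZ.leaf K2_ok TH_l4960 _)))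
               (CovZ.n1 (-47448, 45432) (by decide +kernel)
                (CovZ.n2 (-47448, 45504) (by decide +kernel)
                 (CovZ.n2 (-47412, 45468) (by decide +kernel)
                  (CovZ.leaf K2_ok TH_l4961 _)
                  (CovZ.leaf K2_ok TH_l4962 _))
                 (CovZ.leaf K2_ok TH_l4963 _))
                (CovZ.n1 (-47376, 45432) (by decide +kernel)
                 (CovZ.n2 (-47412, 45396) (by decide +kernel)
                  (CovZ.leaf K2_ok TH_l4964 _)
                  (CovZ.leaf K2_ok TH_l4965 _))
                 (CovZ.n1 (-47412, 45468) (by decide +kernel)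
                  (CovZ.leaf K2_ok TH_l4966 _)
                  (CovZ.leaf K2_ok TH_l4967 _))))))
             (CovZ.n1 (-47664, 45360) (by decide +kernel)
              (CovZ.n2 (-47664, 45504) (by decide +kernel)
               (CovZ.n2 (-47592, 45432) (by decide +kernel)
                (CovZ.n2 (-47664, 45432) (by decide +kernel)
                 (CovZ.leaf K2_ok TH_l4968 _)
                 (CovZ.leaf K2_ok TH_l4969 _))
                (CovZ.n1 (-47592, 45504) (by decide +kernel)
                 (CovZ.leaf K2_ok TH_l4970 _)
                 (CovZ.leaf K2_ok TH_l4971 _)))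
               (CovZ.n1 (-47736, 45432) (by decide +kernel)
                (CovZ.n2 (-47736, 45504) (by decide +kernel)
                 (CovZ.leaf K2_ok TH_l4972 _)
                 (CovZ.leaf K2_ok TH_l4973 _))
                (CovZ.n1 (-47664, 45432) (by decide +kernel)
                 (CovZ.leaf K2_ok TH_l4974 _)
                 (CovZ.leaf K2_ok TH_l4975 _))))
              (CovZ.n1 (-47520, 45360) (by decide +kernel)
               (CovZ.n2 (-47592, 45288) (by decide +kernel)
                (CovZ.n2 (-47592, 45360) (by decide +kernel)
                 (CovZ.n2 (-47556, 45324) (by decide +kernel)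
                  (CovZ.leaf K2_ok TH_l4976 _)
                  (CovZ.leaf K2_ok TH_l4977 _))
                 (CovZ.leaf K2_ok TH_l4978 _))
                (CovZ.n1 (-47520, 45288) (by decide +kernel)
                 (CovZ.n2 (-47556, 45252) (by decide +kernel)
                  (CovZ.n2 (-47556, 45288) (by decide +kernel)
                   (CovZ.leaf K2_ok TH_l4979 _)
                   (CovZ.leaf K2_ok TH_l4980 _))
                  (CovZ.leaf K2_ok TH_l4981 _))
                 (CovZ.n1 (-47556, 45324) (by decide +kernel)
                  (CovZ.leaf K2_ok TH_l4982 _)
                  (CovZ.leaf K2_ok TH_l4983 _))))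
               (CovZ.n1 (-47592, 45432) (by decide +kernel)
                (CovZ.n2 (-47520, 45432) (by decide +kernel)
                 (CovZ.leaf K2_ok TH_l4984 _)
                 (CovZ.leaf K2_ok TH_l4985 _))
                (CovZ.n1 (-47592, 45360) (by decide +kernel)
                 (CovZ.leaf K2_ok TH_l4986 _)
                 (CovZ.n1 (-47556, 45396) (by decide +kernel)
                  (CovZ.leaf K2_ok TH_l4987 _)
                  (CovZ.leaf K2_ok TH_l4988 _)))))))
            (CovZ.n1 (-47232, 45216) (by decide +kernel)
             TH_u71
             TH_u72))
           (CovZ.n1 (-47520, 45792) (by decide +kernel)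
            (CovZ.n2 (-47232, 45792) (by decide +kernel)
             (CovZ.n2 (-47376, 45648) (by decide +kernel)
              (CovZ.n2 (-47376, 45792) (by decide +kernel)
               (CovZ.n2 (-47304, 45720) (by decide +kernel)
                (CovZ.leaf K2_ok TH_l5132 _)
                (CovZ.n1 (-47304, 45792) (by decide +kernel)
                 (CovZ.leaf K2_ok TH_l5133 _)
                 (CovZ.leaf K2_ok TH_l5134 _)))
               (CovZ.n1 (-47448, 45720) (by decide +kernel)
                (CovZ.n2 (-47448, 45792) (by decide +kernel)
                 (CovZ.leaf K2_ok TH_l5135 _)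
                 (CovZ.leaf K2_ok TH_l5136 _))
                (CovZ.leaf K2_ok TH_l5137 _)))
              (CovZ.n1 (-47232, 45648) (by decide +kernel)
               (CovZ.n2 (-47304, 45576) (by decide +kernel)
                (CovZ.n2 (-47304, 45648) (by decide +kernel)
                 (CovZ.leaf K2_ok TH_l5138 _)
                 (CovZ.leaf K2_ok TH_l5139 _))
                (CovZ.n1 (-47232, 45576) (by decide +kernel)
                 (CovZ.leaf K2_ok TH_l5140 _)
                 (CovZ.leaf K2_ok TH_l5141 _)))
               (CovZ.n1 (-47304, 45720) (by decide +kernel)
                (CovZ.leaf K2_ok TH_l5142 _)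
                (CovZ.n1 (-47304, 45648) (by decide +kernel)
                 (CovZ.leaf K2_ok TH_l5143 _)
                 (CovZ.leaf K2_ok TH_l5144 _)))))
             (CovZ.n1 (-47376, 45936) (by decide +kernel)
              (CovZ.n2 (-47232, 45936) (by decide +kernel)
               (CovZ.n2 (-47304, 45864) (by decide +kernel)
                (CovZ.leaf K2_ok TH_l5145 _)
                (CovZ.leaf K2_ok TH_l5146 _))
               (CovZ.n1 (-47304, 46008) (by decide +kernel)
                (CovZ.leaf K2_ok TH_l5147 _)
                (CovZ.leaf K2_ok TH_l5148 _)))
              (CovZ.n1 (-47376, 45792) (by decide +kernel)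
               (CovZ.n2 (-47448, 45864) (by decide +kernel)
                (CovZ.leaf K2_ok TH_l5149 _)
                (CovZ.leaf K2_ok TH_l5150 _))
               (CovZ.n1 (-47304, 45864) (by decide +kernel)
                (CovZ.n2 (-47304, 45792) (by decide +kernel)
                 (CovZ.leaf K2_ok TH_l5151 _)
                 (CovZ.leaf K2_ok TH_l5152 _))
                (CovZ.leaf K2_ok TH_l5153 _)))))
            (CovZ.n1 (-47520, 45504) (by decide +kernel)
             (CovZ.n2 (-47664, 45648) (by decide +kernel)
              (CovZ.n2 (-47520, 45648) (by decide +kernel)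
               (CovZ.n2 (-47592, 45576) (by decide +kernel)
                (CovZ.n2 (-47592, 45648) (by decide +kernel)
                 (CovZ.leaf K2_ok TH_l5154 _)
                 (CovZ.leaf K2_ok TH_l5155 _))
                (CovZ.leaf K2_ok TH_l5156 _))
               (CovZ.n1 (-47592, 45720) (by decide +kernel)
                (CovZ.leaf K2_ok TH_l5157 _)
                (CovZ.n1 (-47592, 45648) (by decide +kernel)
                 (CovZ.leaf K2_ok TH_l5158 _)
                 (CovZ.leaf K2_ok TH_l5159 _))))
              (CovZ.n1 (-47664, 45504) (by decide +kernel)
               (CovZ.n2 (-47736, 45576) (by decide +kernel)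
                (CovZ.leaf K2_ok TH_l5160 _)
                (CovZ.n1 (-47736, 45504) (by decide +kernel)
                 (CovZ.leaf K2_ok TH_l5161 _)
                 (CovZ.leaf K2_ok TH_l5162 _)))
               (CovZ.n1 (-47592, 45576) (by decide +kernel)
                (CovZ.n2 (-47592, 45504) (by decide +kernel)
                 (CovZ.leaf K2_ok TH_l5163 _)
                 (CovZ.leaf K2_ok TH_l5164 _))
                (CovZ.leaf K2_ok TH_l5165 _))))
             (CovZ.n1 (-47376, 45648) (by decide +kernel)
              (CovZ.n2 (-47376, 45504) (by decide +kernel)
               (CovZ.n2 (-47448, 45576) (by decide +kernel)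
                (CovZ.n2 (-47376, 45576) (by decide +kernel)
                 (CovZ.leaf K2_ok TH_l5166 _)
                 (CovZ.leaf K2_ok TH_l5167 _))
                (CovZ.n1 (-47448, 45504) (by decide +kernel)
                 (CovZ.leaf K2_ok TH_l5168 _)
                 (CovZ.leaf K2_ok TH_l5169 _)))
               (CovZ.n1 (-47304, 45576) (by decide +kernel)
                (CovZ.n2 (-47304, 45504) (by decide +kernel)
                 (CovZ.leaf K2_ok TH_l5170 _)
                 (CovZ.leaf K2_ok TH_l5171 _))
                (CovZ.leaf K2_ok TH_l5172 _)))
              (CovZ.n1 (-47520, 45648) (by decide +kernel)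
               (CovZ.n2 (-47448, 45720) (by decide +kernel)
                (CovZ.n2 (-47448, 45648) (by decide +kernel)
                 (CovZ.leaf K2_ok TH_l5173 _)
                 (CovZ.leaf K2_ok TH_l5174 _))
                (CovZ.leaf K2_ok TH_l5175 _))
               (CovZ.n1 (-47448, 45576) (by decide +kernel)
                (CovZ.leaf K2_ok TH_l5176 _)
                (CovZ.n1 (-47448, 45648) (by decide +kernel)
                 (CovZ.leaf K2_ok TH_l5177 _)
                 (CovZ.leaf K2_ok TH_l5178 _))))))))

theorem TH_u75 : CovZ TH_M (toL (selN TH_LN 215623626634207726022114238101282183035491653117555693768977005166592)) [0, 7, 6, 1] (-48384, 46080) (-49536, 46080) (-49536, 44928) :=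
    (CovZ.subM 191561945819543415888395408097694421574290007948017664 (by decide +kernel)
         (CovZ.n2 (-48960, 45504) (by decide +kernel)
          (CovZ.n2 (-49536, 45504) (by decide +kernel)
           (CovZ.n2 (-49248, 45792) (by decide +kernel)
            (CovZ.n2 (-49248, 45504) (by decide +kernel)
             (CovZ.n2 (-49392, 45648) (by decide +kernel)
              (CovZ.n2 (-49248, 45648) (by decide +kernel)
               (CovZ.leaf K2_ok TH_l5179 _)
               (CovZ.leaf K2_ok TH_l5180 _))
              (CovZ.n1 (-49392, 45504) (by decide +kernel)
               (CovZ.leaf K2_ok TH_l5181 _)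
               (CovZ.leaf K2_ok TH_l5182 _)))
             (CovZ.n1 (-49104, 45648) (by decide +kernel)
              (CovZ.n2 (-49104, 45504) (by decide +kernel)
               (CovZ.leaf K2_ok TH_l5183 _)
               (CovZ.leaf K2_ok TH_l5184 _))
              (CovZ.n1 (-49248, 45648) (by decide +kernel)
               (CovZ.leaf K2_ok TH_l5185 _)
               (CovZ.leaf K2_ok TH_l5186 _))))
            (CovZ.n1 (-49536, 45792) (by decide +kernel)
             (CovZ.n2 (-49392, 45936) (by decide +kernel)
              (CovZ.n2 (-49392, 45792) (by decide +kernel)
               (CovZ.leaf K2_ok TH_l5187 _)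
               (CovZ.leaf K2_ok TH_l5188 _))
              (CovZ.leaf K2_ok TH_l5189 _))
             (CovZ.n1 (-49392, 45648) (by decide +kernel)
              (CovZ.n2 (-49536, 45648) (by decide +kernel)
               (CovZ.leaf K2_ok TH_l5190 _)
               (CovZ.leaf K2_ok TH_l5191 _))
              (CovZ.n1 (-49392, 45792) (by decide +kernel)
               (CovZ.leaf K2_ok TH_l5192 _)
               (CovZ.leaf K2_ok TH_l5193 _)))))
           (CovZ.n1 (-49248, 45216) (by decide +kernel)
            (CovZ.n2 (-49536, 45216) (by decide +kernel)
             (CovZ.n2 (-49392, 45360) (by decide +kernel)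
              (CovZ.n2 (-49392, 45216) (by decide +kernel)
               (CovZ.n2 (-49464, 45288) (by decide +kernel)
                (CovZ.leaf K2_ok TH_l5194 _)
                (CovZ.n1 (-49464, 45216) (by decide +kernel)
                 (CovZ.leaf K2_ok TH_l5195 _)
                 (CovZ.leaf K2_ok TH_l5196 _)))
               (CovZ.n1 (-49320, 45288) (by decide +kernel)
                (CovZ.n2 (-49320, 45216) (by decide +kernel)
                 (CovZ.leaf K2_ok TH_l5197 _)
                 (CovZ.leaf K2_ok TH_l5198 _))
                (CovZ.leaf K2_ok TH_l5199 _)))
              (CovZ.n1 (-49536, 45360) (by decide +kernel)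
               (CovZ.n2 (-49464, 45432) (by decide +kernel)
                (CovZ.n2 (-49464, 45360) (by decide +kernel)
                 (CovZ.leaf K2_ok TH_l5200 _)
                 (CovZ.leaf K2_ok TH_l5201 _))
                (CovZ.leaf K2_ok TH_l5202 _))
               (CovZ.n1 (-49464, 45288) (by decide +kernel)
                (CovZ.leaf K2_ok TH_l5203 _)
                (CovZ.leaf K2_ok TH_l5204 _))))
             (CovZ.n1 (-49392, 45072) (by decide +kernel)
              (CovZ.n2 (-49536, 45072) (by decide +kernel)
               (CovZ.n2 (-49464, 45144) (by decide +kernel)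
                (CovZ.n2 (-49464, 45072) (by decide +kernel)
                 (CovZ.n2 (-49500, 45108) (by decide +kernel)
                  (CovZ.leaf K2_ok TH_l5205 _)
                  (CovZ.leaf K2_ok TH_l5206 _))
                 (CovZ.leaf K2_ok TH_l5207 _))
                (CovZ.n1 (-49536, 45144) (by decide +kernel)
                 (CovZ.leaf K2_ok TH_l5208 _)
                 (CovZ.leaf K2_ok TH_l5209 _)))
               (CovZ.subM 3211307308593602029394420763800602271924879360 (by decide +kernel)
                (CovZ.n1 (-49464, 45000) (by decide +kernel)
                 (CovZ.n2 (-49536, 45000) (by decide +kernel)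
                  (CovZ.n2 (-49500, 45036) (by decide +kernel)
                   (CovZ.n2 (-49500, 45000) (by decide +kernel)
                    (CovZ.leaf K2_ok TH_l5210 _)
                    (CovZ.leaf K2_ok TH_l5211 _))
                   (CovZ.leaf K2_ok TH_l5212 _))
                  (CovZ.n1 (-49500, 44964) (by decide +kernel)
                   (CovZ.leaf K2_ok TH_l5213 _)
                   (CovZ.n1 (-49500, 45000) (by decide +kernel)
                    (CovZ.leaf K2_ok TH_l5214 _)
                    (CovZ.leaf K2_ok TH_l5215 _))))
                 (CovZ.n1 (-49464, 45072) (by decide +kernel)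
                  (CovZ.n2 (-49428, 45036) (by decide +kernel)
                   (CovZ.leaf K2_ok TH_l5216 _)
                   (CovZ.n1 (-49428, 45072) (by decide +kernel)
                    (CovZ.leaf K2_ok TH_l5217 _)
                    (CovZ.leaf K2_ok TH_l5218 _)))
                  (CovZ.n1 (-49500, 45036) (by decide +kernel)
                   (CovZ.leaf K2_ok TH_l5219 _)
                   (CovZ.leaf K2_ok TH_l5220 _))))))
              (CovZ.n1 (-49392, 45216) (by decide +kernel)
               (CovZ.n2 (-49320, 45144) (by decide +kernel)
                (CovZ.n2 (-49392, 45144) (by decide +kernel)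
                 (CovZ.leaf K2_ok TH_l5221 _)
                 (CovZ.n1 (-49356, 45108) (by decide +kernel)
                  (CovZ.leaf K2_ok TH_l5222 _)
                  (CovZ.leaf K2_ok TH_l5223 _)))
                (CovZ.n1 (-49320, 45216) (by decide +kernel)
                 (CovZ.leaf K2_ok TH_l5224 _)
                 (CovZ.leaf K2_ok TH_l5225 _)))
               (CovZ.n1 (-49464, 45144) (by decide +kernel)
                (CovZ.n2 (-49464, 45216) (by decide +kernel)
                 (CovZ.leaf K2_ok TH_l5226 _)
                 (CovZ.leaf K2_ok TH_l5227 _))
                (CovZ.n1 (-49392, 45144) (by decide +kernel)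
                 (CovZ.leaf K2_ok TH_l5228 _)
                 (CovZ.leaf K2_ok TH_l5229 _))))))
            (CovZ.n1 (-49248, 45504) (by decide +kernel)
             (CovZ.n2 (-49104, 45360) (by decide +kernel)
              (CovZ.n2 (-49248, 45360) (by decide +kernel)
               (CovZ.n2 (-49176, 45432) (by decide +kernel)
                (CovZ.leaf K2_ok TH_l5230 _)
                (CovZ.leaf K2_ok TH_l5231 _))
               (CovZ.n1 (-49176, 45288) (by decide +kernel)
                (CovZ.leaf K2_ok TH_l5232 _)
                (CovZ.n1 (-49176, 45360) (by decide +kernel)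
                 (CovZ.leaf K2_ok TH_l5233 _)
                 (CovZ.leaf K2_ok TH_l5234 _))))
              (CovZ.n1 (-49104, 45504) (by decide +kernel)
               (CovZ.n2 (-49032, 45432) (by decide +kernel)
                (CovZ.leaf K2_ok TH_l5235 _)
                (CovZ.leaf K2_ok TH_l5236 _))
               (CovZ.n1 (-49176, 45432) (by decide +kernel)
                (CovZ.leaf K2_ok TH_l5237 _)
                (CovZ.leaf K2_ok TH_l5238 _))))
             (CovZ.n1 (-49392, 45360) (by decide +kernel)
              (CovZ.n2 (-49392, 45504) (by decide +kernel)
               (CovZ.n2 (-49320, 45432) (by decide +kernel)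
                (CovZ.leaf K2_ok TH_l5239 _)
                (CovZ.leaf K2_ok TH_l5240 _))
               (CovZ.n1 (-49464, 45432) (by decide +kernel)
                (CovZ.leaf K2_ok TH_l5241 _)
                (CovZ.leaf K2_ok TH_l5242 _)))
              (CovZ.n1 (-49248, 45360) (by decide +kernel)
               (CovZ.n2 (-49320, 45288) (by decide +kernel)
                (CovZ.leaf K2_ok TH_l5243 _)
                (CovZ.leaf K2_ok TH_l5244 _))
               (CovZ.n1 (-49320, 45432) (by decide +kernel)
                (CovZ.leaf K2_ok TH_l5245 _)
                (CovZ.leaf K2_ok TH_l5246 _)))))))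
          (CovZ.n1 (-48960, 46080) (by decide +kernel)
           (CovZ.n2 (-48672, 45792) (by decide +kernel)
            (CovZ.n2 (-48960, 45792) (by decide +kernel)
             (CovZ.n2 (-48816, 45936) (by decide +kernel)
              (CovZ.n2 (-48816, 45792) (by decide +kernel)
               (CovZ.leaf K2_ok TH_l5247 _)
               (CovZ.leaf K2_ok TH_l5248 _))
              (CovZ.leaf K2_ok TH_l5249 _))
             (CovZ.n1 (-48816, 45648) (by decide +kernel)
              (CovZ.n2 (-48960, 45648) (by decide +kernel)
               (CovZ.leaf K2_ok TH_l5250 _)
               (CovZ.n1 (-48888, 45576) (by decide +kernel)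
                (CovZ.leaf K2_ok TH_l5251 _)
                (CovZ.leaf K2_ok TH_l5252 _)))
              (CovZ.n1 (-48816, 45792) (by decide +kernel)
               (CovZ.n2 (-48744, 45720) (by decide +kernel)
                (CovZ.leaf K2_ok TH_l5253 _)
                (CovZ.leaf K2_ok TH_l5254 _))
               (CovZ.leaf K2_ok TH_l5255 _))))
            (CovZ.n1 (-48672, 46080) (by decide +kernel)
             (CovZ.n2 (-48528, 45936) (by decide +kernel)
              (CovZ.n2 (-48672, 45936) (by decide +kernel)
               (CovZ.leaf K2_ok TH_l5256 _)
               (CovZ.leaf K2_ok TH_l5257 _))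
              (CovZ.n1 (-48528, 46080) (by decide +kernel)
               (CovZ.leaf K2_ok TH_l5258 _)
               (CovZ.leaf K2_ok TH_l5259 _)))
             (CovZ.n1 (-48816, 45936) (by decide +kernel)
              (CovZ.n2 (-48816, 46080) (by decide +kernel)
               (CovZ.leaf K2_ok TH_l5260 _)
               (CovZ.leaf K2_ok TH_l5261 _))
              (CovZ.n1 (-48672, 45936) (by decide +kernel)
               (CovZ.leaf K2_ok TH_l5262 _)
               (CovZ.leaf K2_ok TH_l5263 _)))))
           (CovZ.n1 (-49248, 45792) (by decide +kernel)
            (CovZ.n2 (-49248, 46080) (by decide +kernel)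
             (CovZ.n2 (-49104, 45936) (by decide +kernel)
              (CovZ.leaf K2_ok TH_l5264 _)
              (CovZ.n1 (-49104, 46080) (by decide +kernel)
               (CovZ.leaf K2_ok TH_l5265 _)
               (CovZ.leaf K2_ok TH_l5266 _)))
             (CovZ.n1 (-49392, 45936) (by decide +kernel)
              (CovZ.leaf K2_ok TH_l5267 _)
              (CovZ.leaf K2_ok TH_l5268 _)))
            (CovZ.n1 (-48960, 45792) (by decide +kernel)
             (CovZ.n2 (-49104, 45648) (by decide +kernel)
              (CovZ.n2 (-49104, 45792) (by decide +kernel)
               (CovZ.leaf K2_ok TH_l5269 _)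
               (CovZ.leaf K2_ok TH_l5270 _))
              (CovZ.n1 (-48960, 45648) (by decide +kernel)
               (CovZ.leaf K2_ok TH_l5271 _)
               (CovZ.leaf K2_ok TH_l5272 _)))
             (CovZ.n1 (-49104, 45936) (by decide +kernel)
              (CovZ.leaf K2_ok TH_l5273 _)
              (CovZ.n1 (-49104, 45792) (by decide +kernel)
               (CovZ.leaf K2_ok TH_l5274 _)
               (CovZ.leaf K2_ok TH_l5275 _))))))))

theorem TH_u76 : CovZ TH_M (toL (selN TH_LN 215623626634207726022114238101282183035491653117555693768977005166592)) [0, 7, 6, 1] (-49536, 46080) (-50688, 46080) (-49536, 44928) :=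
    (CovZ.n1 (-50112, 45504) (by decide +kernel)
         (CovZ.n2 (-50112, 46080) (by decide +kernel)
          (CovZ.subM 191561945819543415888395413049454578724818446394081280 (by decide +kernel)
           (CovZ.n2 (-49824, 45792) (by decide +kernel)
            (CovZ.n2 (-50112, 45792) (by decide +kernel)
             (CovZ.n2 (-49968, 45936) (by decide +kernel)
              (CovZ.n2 (-49968, 45792) (by decide +kernel)
               (CovZ.leaf K2_ok TH_l5276 _)
               (CovZ.leaf K2_ok TH_l5277 _))
              (CovZ.leaf K2_ok TH_l5278 _))
             (CovZ.n1 (-49968, 45648) (by decide +kernel)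
              (CovZ.n2 (-50112, 45648) (by decide +kernel)
               (CovZ.leaf K2_ok TH_l5279 _)
               (CovZ.leaf K2_ok TH_l5280 _))
              (CovZ.n1 (-49968, 45792) (by decide +kernel)
               (CovZ.leaf K2_ok TH_l5281 _)
               (CovZ.leaf K2_ok TH_l5282 _))))
            (CovZ.n1 (-49824, 46080) (by decide +kernel)
             (CovZ.n2 (-49680, 45936) (by decide +kernel)
              (CovZ.leaf K2_ok TH_l5283 _)
              (CovZ.leaf K2_ok TH_l5284 _))
             (CovZ.n1 (-49968, 45936) (by decide +kernel)
              (CovZ.leaf K2_ok TH_l5285 _)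
              (CovZ.leaf K2_ok TH_l5286 _)))))
          (CovZ.n1 (-50400, 45792) (by decide +kernel)
           (CovZ.n2 (-50400, 46080) (by decide +kernel)
            (CovZ.n2 (-50256, 45936) (by decide +kernel)
             (CovZ.leaf K2_ok TH_l5287 _)
             (CovZ.leaf K2_ok TH_l5288 _))
            (CovZ.n1 (-50544, 45936) (by decide +kernel)
             (CovZ.leaf K2_ok TH_l5289 _)
             (CovZ.leaf K2_ok TH_l5290 _)))
           (CovZ.n1 (-50112, 45792) (by decide +kernel)
            (CovZ.n2 (-50256, 45648) (by decide +kernel)
             (CovZ.n2 (-50256, 45792) (by decide +kernel)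
              (CovZ.leaf K2_ok TH_l5291 _)
              (CovZ.leaf K2_ok TH_l5292 _))
             (CovZ.leaf K2_ok TH_l5293 _))
            (CovZ.n1 (-50256, 45936) (by decide +kernel)
             (CovZ.leaf K2_ok TH_l5294 _)
             (CovZ.n1 (-50256, 45792) (by decide +kernel)
              (CovZ.leaf K2_ok TH_l5295 _)
              (CovZ.leaf K2_ok TH_l5296 _))))))
         (CovZ.subM 191561945819543415888395413049454578715811109700386816 (by decide +kernel)
          (CovZ.n1 (-49536, 45504) (by decide +kernel)
           (CovZ.n2 (-49824, 45216) (by decide +kernel)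
            (CovZ.n2 (-49824, 45504) (by decide +kernel)
             (CovZ.n2 (-49680, 45360) (by decide +kernel)
              (CovZ.subM 191561945462731492711905437833122929211881037332758528 (by decide +kernel)
               (CovZ.n2 (-49824, 45360) (by decide +kernel)
                (CovZ.n2 (-49752, 45432) (by decide +kernel)
                 (CovZ.leaf K2_ok TH_l5297 _)
                 (CovZ.leaf K2_ok TH_l5298 _))
                (CovZ.n1 (-49752, 45288) (by decide +kernel)
                 (CovZ.leaf K2_ok TH_l5299 _)
                 (CovZ.leaf K2_ok TH_l5300 _))))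
              (CovZ.n1 (-49680, 45504) (by decide +kernel)
               (CovZ.n2 (-49608, 45432) (by decide +kernel)
                (CovZ.leaf K2_ok TH_l5301 _)
                (CovZ.leaf K2_ok TH_l5302 _))
               (CovZ.n1 (-49752, 45432) (by decide +kernel)
                (CovZ.leaf K2_ok TH_l5303 _)
                (CovZ.leaf K2_ok TH_l5304 _))))
             (CovZ.n1 (-49968, 45360) (by decide +kernel)
              (CovZ.n2 (-49968, 45504) (by decide +kernel)
               (CovZ.leaf K2_ok TH_l5305 _)
               (CovZ.leaf K2_ok TH_l5306 _))
              (CovZ.n1 (-49824, 45360) (by decide +kernel)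
               (CovZ.n2 (-49896, 45288) (by decide +kernel)
                (CovZ.leaf K2_ok TH_l5307 _)
                (CovZ.leaf K2_ok TH_l5308 _))
               (CovZ.leaf K2_ok TH_l5309 _))))
            (CovZ.n1 (-49536, 45216) (by decide +kernel)
             (CovZ.n2 (-49680, 45072) (by decide +kernel)
              (CovZ.n2 (-49680, 45216) (by decide +kernel)
               (CovZ.n2 (-49608, 45144) (by decide +kernel)
                (CovZ.n2 (-49680, 45144) (by decide +kernel)
                 (CovZ.n2 (-49644, 45180) (by decide +kernel)
                  (CovZ.leaf K2_ok TH_l5310 _)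
                  (CovZ.leaf K2_ok TH_l5311 _))
                 (CovZ.leaf K2_ok TH_l5312 _))
                (CovZ.n1 (-49608, 45216) (by decide +kernel)
                 (CovZ.leaf K2_ok TH_l5313 _)
                 (CovZ.n1 (-49644, 45180) (by decide +kernel)
                  (CovZ.leaf K2_ok TH_l5314 _)
                  (CovZ.leaf K2_ok TH_l5315 _))))
               (CovZ.subM 2854495385417112059439334281259538647059808256 (by decide +kernel)
                (CovZ.n1 (-49752, 45144) (by decide +kernel)
                 (CovZ.n2 (-49752, 45216) (by decide +kernel)
                  (CovZ.leaf K2_ok TH_l5316 _)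
                  (CovZ.leaf K2_ok TH_l5317 _))
                 (CovZ.n1 (-49680, 45144) (by decide +kernel)
                  (CovZ.leaf K2_ok TH_l5318 _)
                  (CovZ.leaf K2_ok TH_l5319 _)))))
              (CovZ.n1 (-49536, 45072) (by decide +kernel)
               (CovZ.subM 3211307308593602029394420763800602271924879360 (by decide +kernel)
                (CovZ.n2 (-49608, 45000) (by decide +kernel)
                 (CovZ.n2 (-49608, 45072) (by decide +kernel)
                  (CovZ.n2 (-49572, 45036) (by decide +kernel)
                   (CovZ.leaf K2_ok TH_l5320 _)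
                   (CovZ.n1 (-49572, 45072) (by decide +kernel)
                    (CovZ.leaf K2_ok TH_l5321 _)
                    (CovZ.leaf K2_ok TH_l5322 _)))
                  (CovZ.n1 (-49644, 45036) (by decide +kernel)
                   (CovZ.leaf K2_ok TH_l5323 _)
                   (CovZ.leaf K2_ok TH_l5324 _)))
                 (CovZ.n1 (-49536, 45000) (by decide +kernel)
                  (CovZ.n2 (-49572, 44964) (by decide +kernel)
                   (CovZ.n2 (-49572, 45000) (by decide +kernel)
                    (CovZ.leaf K2_ok TH_l5325 _)
                    (CovZ.leaf K2_ok TH_l5326 _))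
                   (CovZ.leaf K2_ok TH_l5327 _))
                  (CovZ.n1 (-49572, 45036) (by decide +kernel)
                   (CovZ.leaf K2_ok TH_l5328 _)
                   (CovZ.n1 (-49572, 45000) (by decide +kernel)
                    (CovZ.leaf K2_ok TH_l5329 _)
                    (CovZ.leaf K2_ok TH_l5330 _))))))
               (CovZ.n1 (-49608, 45144) (by decide +kernel)
                (CovZ.n2 (-49536, 45144) (by decide +kernel)
                 (CovZ.leaf K2_ok TH_l5331 _)
                 (CovZ.leaf K2_ok TH_l5332 _))
                (CovZ.n1 (-49608, 45072) (by decide +kernel)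
                 (CovZ.n2 (-49644, 45108) (by decide +kernel)
                  (CovZ.leaf K2_ok TH_l5333 _)
                  (CovZ.leaf K2_ok TH_l5334 _))
                 (CovZ.leaf K2_ok TH_l5335 _)))))
             (CovZ.n1 (-49680, 45360) (by decide +kernel)
              (CovZ.n2 (-49536, 45360) (by decide +kernel)
               (CovZ.n2 (-49608, 45288) (by decide +kernel)
                (CovZ.leaf K2_ok TH_l5336 _)
                (CovZ.leaf K2_ok TH_l5337 _))
               (CovZ.n1 (-49608, 45432) (by decide +kernel)
                (CovZ.leaf K2_ok TH_l5338 _)
                (CovZ.leaf K2_ok TH_l5339 _)))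
              (CovZ.n1 (-49680, 45216) (by decide +kernel)
               (CovZ.subM 2854495385417112059439334281259538647059808256 (by decide +kernel)
                (CovZ.n2 (-49752, 45288) (by decide +kernel)
                 (CovZ.n2 (-49680, 45288) (by decide +kernel)
                  (CovZ.leaf K2_ok TH_l5340 _)
                  (CovZ.leaf K2_ok TH_l5341 _))
                 (CovZ.n1 (-49752, 45216) (by decide +kernel)
                  (CovZ.leaf K2_ok TH_l5342 _)
                  (CovZ.leaf K2_ok TH_l5343 _))))
               (CovZ.n1 (-49608, 45288) (by decide +kernel)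
                (CovZ.n2 (-49608, 45216) (by decide +kernel)
                 (CovZ.leaf K2_ok TH_l5344 _)
                 (CovZ.leaf K2_ok TH_l5345 _))
                (CovZ.leaf K2_ok TH_l5346 _))))))
           (CovZ.n1 (-49824, 45792) (by decide +kernel)
            (CovZ.n2 (-49536, 45792) (by decide +kernel)
             (CovZ.n2 (-49680, 45648) (by decide +kernel)
              (CovZ.n2 (-49680, 45792) (by decide +kernel)
               (CovZ.leaf K2_ok TH_l5347 _)
               (CovZ.leaf K2_ok TH_l5348 _))
              (CovZ.n1 (-49536, 45648) (by decide +kernel)
               (CovZ.leaf K2_ok TH_l5349 _)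
               (CovZ.leaf K2_ok TH_l5350 _)))
             (CovZ.n1 (-49680, 45936) (by decide +kernel)
              (CovZ.leaf K2_ok TH_l5351 _)
              (CovZ.n1 (-49680, 45792) (by decide +kernel)
               (CovZ.leaf K2_ok TH_l5352 _)
               (CovZ.leaf K2_ok TH_l5353 _))))
            (CovZ.n1 (-49824, 45504) (by decide +kernel)
             (CovZ.n2 (-49968, 45648) (by decide +kernel)
              (CovZ.n2 (-49824, 45648) (by decide +kernel)
               (CovZ.leaf K2_ok TH_l5354 _)
               (CovZ.leaf K2_ok TH_l5355 _))
              (CovZ.n1 (-49968, 45504) (by decide +kernel)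
               (CovZ.leaf K2_ok TH_l5356 _)
               (CovZ.leaf K2_ok TH_l5357 _)))
             (CovZ.n1 (-49680, 45648) (by decide +kernel)
              (CovZ.n2 (-49680, 45504) (by decide +kernel)
               (CovZ.leaf K2_ok TH_l5358 _)
               (CovZ.leaf K2_ok TH_l5359 _))
              (CovZ.n1 (-49824, 45648) (by decide +kernel)
               (CovZ.leaf K2_ok TH_l5360 _)
               (CovZ.leaf K2_ok TH_l5361 _))))))))

theorem TH_u77 : CovZ TH_M (toL (selN TH_LN 3211307308593602029703905773621947617675067392)) [0, 7, 6, 1] (-48960, 45504) (-49248, 45216) (-48960, 44928) :=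
    (CovZ.n2 (-48960, 45216) (by decide +kernel)
             (CovZ.n2 (-49104, 45072) (by decide +kernel)
              (CovZ.n2 (-49104, 45216) (by decide +kernel)
               (CovZ.n2 (-49032, 45144) (by decide +kernel)
                (CovZ.n2 (-49104, 45144) (by decide +kernel)
                 (CovZ.leaf K2_ok TH_l5474 _)
                 (CovZ.n1 (-49068, 45108) (by decide +kernel)
                  (CovZ.leaf K2_ok TH_l5475 _)
                  (CovZ.leaf K2_ok TH_l5476 _)))
                (CovZ.n1 (-49032, 45216) (by decide +kernel)
                 (CovZ.leaf K2_ok TH_l5477 _)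
                 (CovZ.n1 (-49068, 45180) (by decide +kernel)
                  (CovZ.leaf K2_ok TH_l5478 _)
                  (CovZ.leaf K2_ok TH_l5479 _))))
               (CovZ.n1 (-49176, 45144) (by decide +kernel)
                (CovZ.n2 (-49176, 45216) (by decide +kernel)
                 (CovZ.leaf K2_ok TH_l5480 _)
                 (CovZ.leaf K2_ok TH_l5481 _))
                (CovZ.n1 (-49104, 45144) (by decide +kernel)
                 (CovZ.n2 (-49140, 45108) (by decide +kernel)
                  (CovZ.leaf K2_ok TH_l5482 _)
                  (CovZ.leaf K2_ok TH_l5483 _))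
                 (CovZ.leaf K2_ok TH_l5484 _))))
              (CovZ.n1 (-48960, 45072) (by decide +kernel)
               (CovZ.subM 3211307308593602029394420763800602271924879360 (by decide +kernel)
                (CovZ.n2 (-49032, 45000) (by decide +kernel)
                 (CovZ.n2 (-49032, 45072) (by decide +kernel)
                  (CovZ.n2 (-48996, 45036) (by decide +kernel)
                   (CovZ.leaf K2_ok TH_l5485 _)
                   (CovZ.leaf K2_ok TH_l5486 _))
                  (CovZ.n1 (-49068, 45036) (by decide +kernel)
                   (CovZ.leaf K2_ok TH_l5487 _)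
                   (CovZ.leaf K2_ok TH_l5488 _)))
                 (CovZ.n1 (-48960, 45000) (by decide +kernel)
                  (CovZ.n2 (-48996, 44964) (by decide +kernel)
                   (CovZ.n2 (-48996, 45000) (by decide +kernel)
                    (CovZ.n2 (-48978, 44982) (by decide +kernel)
                     (CovZ.leaf K2_ok TH_l5489 _)
                     (CovZ.leaf K2_ok TH_l5490 _))
                    (CovZ.leaf K2_ok TH_l5491 _))
                   (CovZ.n1 (-48960, 44964) (by decide +kernel)
                    (CovZ.badM (by decide +kernel))
                    (CovZ.leaf K2_ok TH_l5492 _)))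
                  (CovZ.n1 (-48996, 45036) (by decide +kernel)
                   (CovZ.leaf K2_ok TH_l5493 _)
                   (CovZ.n1 (-48996, 45000) (by decide +kernel)
                    (CovZ.leaf K2_ok TH_l5494 _)
                    (CovZ.leaf K2_ok TH_l5495 _))))))
               (CovZ.n1 (-49032, 45144) (by decide +kernel)
                (CovZ.n2 (-48960, 45144) (by decide +kernel)
                 (CovZ.n2 (-48996, 45108) (by decide +kernel)
                  (CovZ.leaf K2_ok TH_l5496 _)
                  (CovZ.leaf K2_ok TH_l5497 _))
                 (CovZ.leaf K2_ok TH_l5498 _))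
                (CovZ.subM 3211307308593602029394420763800602271924879360 (by decide +kernel)
                 (CovZ.n1 (-49032, 45072) (by decide +kernel)
                  (CovZ.n2 (-49068, 45108) (by decide +kernel)
                   (CovZ.leaf K2_ok TH_l5499 _)
                   (CovZ.leaf K2_ok TH_l5500 _))
                  (CovZ.n1 (-48996, 45108) (by decide +kernel)
                   (CovZ.leaf K2_ok TH_l5501 _)
                   (CovZ.leaf K2_ok TH_l5502 _)))))))
             (CovZ.n1 (-49104, 45360) (by decide +kernel)
              (CovZ.n2 (-48960, 45360) (by decide +kernel)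
               (CovZ.n2 (-49032, 45288) (by decide +kernel)
                (CovZ.n2 (-49032, 45360) (by decide +kernel)
                 (CovZ.leaf K2_ok TH_l5503 _)
                 (CovZ.leaf K2_ok TH_l5504 _))
                (CovZ.n1 (-48960, 45288) (by decide +kernel)
                 (CovZ.leaf K2_ok TH_l5505 _)
                 (CovZ.leaf K2_ok TH_l5506 _)))
               (CovZ.n1 (-49032, 45432) (by decide +kernel)
                (CovZ.leaf K2_ok TH_l5507 _)
                (CovZ.n1 (-49032, 45360) (by decide +kernel)
                 (CovZ.leaf K2_ok TH_l5508 _)
                 (CovZ.leaf K2_ok TH_l5509 _))))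
              (CovZ.n1 (-49104, 45216) (by decide +kernel)
               (CovZ.n2 (-49176, 45288) (by decide +kernel)
                (CovZ.leaf K2_ok TH_l5510 _)
                (CovZ.n1 (-49176, 45216) (by decide +kernel)
                 (CovZ.leaf K2_ok TH_l5511 _)
                 (CovZ.leaf K2_ok TH_l5512 _)))
               (CovZ.n1 (-49032, 45288) (by decide +kernel)
                (CovZ.n2 (-49032, 45216) (by decide +kernel)
                 (CovZ.leaf K2_ok TH_l5513 _)
                 (CovZ.leaf K2_ok TH_l5514 _))
                (CovZ.leaf K2_ok TH_l5515 _)))))

theorem TH_u78 : CovZ TH_M (toL (selN TH_LN 3211307308593602029703905773621947617675067392)) [0, 7, 6, 1] (-49248, 45216) (-49536, 44928) (-48960, 44928) :=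
    (CovZ.n1 (-49248, 44928) (by decide +kernel)
             (CovZ.n2 (-49392, 45072) (by decide +kernel)
              (CovZ.n2 (-49248, 45072) (by decide +kernel)
               (CovZ.subM 3211307308593602029394420763800602271924879360 (by decide +kernel)
                (CovZ.n2 (-49320, 45000) (by decide +kernel)
                 (CovZ.n2 (-49320, 45072) (by decide +kernel)
                  (CovZ.n2 (-49284, 45036) (by decide +kernel)
                   (CovZ.leaf K2_ok TH_l5516 _)
                   (CovZ.leaf K2_ok TH_l5517 _))
                  (CovZ.n1 (-49356, 45036) (by decide +kernel)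
                   (CovZ.leaf K2_ok TH_l5518 _)
                   (CovZ.leaf K2_ok TH_l5519 _)))
                 (CovZ.n1 (-49248, 45000) (by decide +kernel)
                  (CovZ.n2 (-49284, 44964) (by decide +kernel)
                   (CovZ.n2 (-49284, 45000) (by decide +kernel)
                    (CovZ.leaf K2_ok TH_l5520 _)
                    (CovZ.leaf K2_ok TH_l5521 _))
                   (CovZ.n1 (-49248, 44964) (by decide +kernel)
                    (CovZ.badM (by decide +kernel))
                    (CovZ.leaf K2_ok TH_l5522 _)))
                  (CovZ.n1 (-49284, 45036) (by decide +kernel)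
                   (CovZ.leaf K2_ok TH_l5523 _)
                   (CovZ.n1 (-49284, 45000) (by decide +kernel)
                    (CovZ.leaf K2_ok TH_l5524 _)
                    (CovZ.leaf K2_ok TH_l5525 _))))))
               (CovZ.n1 (-49320, 45144) (by decide +kernel)
                (CovZ.n2 (-49248, 45144) (by decide +kernel)
                 (CovZ.n2 (-49284, 45108) (by decide +kernel)
                  (CovZ.leaf K2_ok TH_l5526 _)
                  (CovZ.leaf K2_ok TH_l5527 _))
                 (CovZ.leaf K2_ok TH_l5528 _))
                (CovZ.subM 3211307308593602029394420763800602271924879360 (by decide +kernel)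
                 (CovZ.n1 (-49320, 45072) (by decide +kernel)
                  (CovZ.n2 (-49356, 45108) (by decide +kernel)
                   (CovZ.leaf K2_ok TH_l5529 _)
                   (CovZ.leaf K2_ok TH_l5530 _))
                  (CovZ.n1 (-49284, 45108) (by decide +kernel)
                   (CovZ.leaf K2_ok TH_l5531 _)
                   (CovZ.leaf K2_ok TH_l5532 _))))))
              (CovZ.subM 3211307308593602029394420763800602271924879360 (by decide +kernel)
               (CovZ.n1 (-49392, 44928) (by decide +kernel)
                (CovZ.n2 (-49464, 45000) (by decide +kernel)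
                 (CovZ.n2 (-49392, 45000) (by decide +kernel)
                  (CovZ.n2 (-49428, 44964) (by decide +kernel)
                   (CovZ.n2 (-49428, 45000) (by decide +kernel)
                    (CovZ.leaf K2_ok TH_l5533 _)
                    (CovZ.leaf K2_ok TH_l5534 _))
                   (CovZ.n1 (-49392, 44964) (by decide +kernel)
                    (CovZ.leaf K2_ok TH_l5535 _)
                    (CovZ.leaf K2_ok TH_l5536 _)))
                  (CovZ.n1 (-49428, 45036) (by decide +kernel)
                   (CovZ.leaf K2_ok TH_l5537 _)
                   (CovZ.n1 (-49428, 45000) (by decide +kernel)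
                    (CovZ.leaf K2_ok TH_l5538 _)
                    (CovZ.leaf K2_ok TH_l5539 _))))
                 (CovZ.n1 (-49464, 44928) (by decide +kernel)
                  (CovZ.n2 (-49500, 44964) (by decide +kernel)
                   (CovZ.n2 (-49464, 44964) (by decide +kernel)
                    (CovZ.leaf K2_ok TH_l5540 _)
                    (CovZ.leaf K2_ok TH_l5541 _))
                   (CovZ.n1 (-49500, 44928) (by decide +kernel)
                    (CovZ.leaf K2_ok TH_l5542 _)
                    (CovZ.leaf K2_ok TH_l5543 _)))
                  (CovZ.n1 (-49428, 44964) (by decide +kernel)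
                   (CovZ.n2 (-49428, 44928) (by decide +kernel)
                    (CovZ.leaf K2_ok TH_l5544 _)
                    (CovZ.leaf K2_ok TH_l5545 _))
                   (CovZ.leaf K2_ok TH_l5546 _))))
                (CovZ.n1 (-49320, 45000) (by decide +kernel)
                 (CovZ.n2 (-49320, 44928) (by decide +kernel)
                  (CovZ.n2 (-49356, 44964) (by decide +kernel)
                   (CovZ.n2 (-49320, 44964) (by decide +kernel)
                    (CovZ.leaf K2_ok TH_l5547 _)
                    (CovZ.leaf K2_ok TH_l5548 _))
                   (CovZ.n1 (-49356, 44928) (by decide +kernel)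
                    (CovZ.n2 (-49374, 44946) (by decide +kernel)
                     (CovZ.leaf K2_ok TH_l5549 _)
                     (CovZ.badM (by decide +kernel)))
                    (CovZ.leaf K2_ok TH_l5550 _)))
                  (CovZ.n1 (-49284, 44964) (by decide +kernel)
                   (CovZ.badM (by decide +kernel))
                   (CovZ.n1 (-49320, 44964) (by decide +kernel)
                    (CovZ.leaf K2_ok TH_l5551 _)
                    (CovZ.leaf K2_ok TH_l5552 _))))
                 (CovZ.n1 (-49392, 45000) (by decide +kernel)
                  (CovZ.n2 (-49356, 45036) (by decide +kernel)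
                   (CovZ.n2 (-49356, 45000) (by decide +kernel)
                    (CovZ.leaf K2_ok TH_l5553 _)
                    (CovZ.leaf K2_ok TH_l5554 _))
                   (CovZ.leaf K2_ok TH_l5555 _))
                  (CovZ.n1 (-49356, 44964) (by decide +kernel)
                   (CovZ.n2 (-49392, 44964) (by decide +kernel)
                    (CovZ.leaf K2_ok TH_l5556 _)
                    (CovZ.n1 (-49374, 44946) (by decide +kernel)
                     (CovZ.leaf K2_ok TH_l5557 _)
                     (CovZ.leaf K2_ok TH_l5558 _)))
                   (CovZ.n1 (-49356, 45000) (by decide +kernel)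
                    (CovZ.leaf K2_ok TH_l5559 _)
                    (CovZ.leaf K2_ok TH_l5560 _))))))))
             (CovZ.n1 (-49104, 45072) (by decide +kernel)
              (CovZ.subM 3211307308593602029394420763800602271924879360 (by decide +kernel)
               (CovZ.n2 (-49104, 44928) (by decide +kernel)
                (CovZ.n2 (-49176, 45000) (by decide +kernel)
                 (CovZ.n2 (-49104, 45000) (by decide +kernel)
                  (CovZ.n2 (-49140, 44964) (by decide +kernel)
                   (CovZ.n2 (-49140, 45000) (by decide +kernel)
                    (CovZ.leaf K2_ok TH_l5561 _)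
                    (CovZ.leaf K2_ok TH_l5562 _))
                   (CovZ.n1 (-49104, 44964) (by decide +kernel)
                    (CovZ.badM (by decide +kernel))
                    (CovZ.leaf K2_ok TH_l5563 _)))
                  (CovZ.n1 (-49140, 45036) (by decide +kernel)
                   (CovZ.leaf K2_ok TH_l5564 _)
                   (CovZ.n1 (-49140, 45000) (by decide +kernel)
                    (CovZ.leaf K2_ok TH_l5565 _)
                    (CovZ.leaf K2_ok TH_l5566 _))))
                 (CovZ.n1 (-49176, 44928) (by decide +kernel)
                  (CovZ.n2 (-49212, 44964) (by decide +kernel)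
                   (CovZ.n2 (-49176, 44964) (by decide +kernel)
                    (CovZ.badM (by decide +kernel))
                    (CovZ.leaf K2_ok TH_l5567 _))
                   (CovZ.badM (by decide +kernel)))
                  (CovZ.n1 (-49140, 44964) (by decide +kernel)
                   (CovZ.badM (by decide +kernel))
                   (CovZ.n1 (-49176, 44964) (by decide +kernel)
                    (CovZ.leaf K2_ok TH_l5568 _)
                    (CovZ.badM (by decide +kernel))))))
                (CovZ.n1 (-49032, 45000) (by decide +kernel)
                 (CovZ.n2 (-49032, 44928) (by decide +kernel)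
                  (CovZ.n2 (-49068, 44964) (by decide +kernel)
                   (CovZ.n2 (-49032, 44964) (by decide +kernel)
                    (CovZ.badM (by decide +kernel))
                    (CovZ.leaf K2_ok TH_l5569 _))
                   (CovZ.badM (by decide +kernel)))
                  (CovZ.n1 (-48996, 44964) (by decide +kernel)
                   (CovZ.badM (by decide +kernel))
                   (CovZ.n1 (-49032, 44964) (by decide +kernel)
                    (CovZ.leaf K2_ok TH_l5570 _)
                    (CovZ.badM (by decide +kernel)))))
                 (CovZ.n1 (-49104, 45000) (by decide +kernel)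
                  (CovZ.n2 (-49068, 45036) (by decide +kernel)
                   (CovZ.n2 (-49068, 45000) (by decide +kernel)
                    (CovZ.n2 (-49086, 45018) (by decide +kernel)
                     (CovZ.leaf K2_ok TH_l5571 _)
                     (CovZ.leaf K2_ok TH_l5572 _))
                    (CovZ.leaf K2_ok TH_l5573 _))
                   (CovZ.leaf K2_ok TH_l5574 _))
                  (CovZ.n1 (-49068, 44964) (by decide +kernel)
                   (CovZ.n2 (-49104, 44964) (by decide +kernel)
                    (CovZ.leaf K2_ok TH_l5575 _)
                    (CovZ.badM (by decide +kernel)))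
                   (CovZ.n1 (-49068, 45000) (by decide +kernel)
                    (CovZ.leaf K2_ok TH_l5576 _)
                    (CovZ.leaf K2_ok TH_l5577 _)))))))
              (CovZ.n1 (-49248, 45072) (by decide +kernel)
               (CovZ.n2 (-49176, 45144) (by decide +kernel)
                (CovZ.subM 3211307308593602029394420763800602271924879360 (by decide +kernel)
                 (CovZ.n2 (-49176, 45072) (by decide +kernel)
                  (CovZ.n2 (-49212, 45108) (by decide +kernel)
                   (CovZ.leaf K2_ok TH_l5578 _)
                   (CovZ.n1 (-49212, 45072) (by decide +kernel)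
                    (CovZ.leaf K2_ok TH_l5579 _)
                    (CovZ.leaf K2_ok TH_l5580 _)))
                  (CovZ.n1 (-49140, 45108) (by decide +kernel)
                   (CovZ.leaf K2_ok TH_l5581 _)
                   (CovZ.leaf K2_ok TH_l5582 _))))
                (CovZ.n1 (-49248, 45144) (by decide +kernel)
                 (CovZ.leaf K2_ok TH_l5583 _)
                 (CovZ.n1 (-49212, 45108) (by decide +kernel)
                  (CovZ.leaf K2_ok TH_l5584 _)
                  (CovZ.leaf K2_ok TH_l5585 _))))
               (CovZ.subM 3211307308593602029394420763800602271924879360 (by decide +kernel)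
                (CovZ.n1 (-49176, 45000) (by decide +kernel)
                 (CovZ.n2 (-49248, 45000) (by decide +kernel)
                  (CovZ.n2 (-49212, 45036) (by decide +kernel)
                   (CovZ.n2 (-49212, 45000) (by decide +kernel)
                    (CovZ.leaf K2_ok TH_l5586 _)
                    (CovZ.leaf K2_ok TH_l5587 _))
                   (CovZ.leaf K2_ok TH_l5588 _))
                  (CovZ.n1 (-49212, 44964) (by decide +kernel)
                   (CovZ.n2 (-49248, 44964) (by decide +kernel)
                    (CovZ.leaf K2_ok TH_l5589 _)
                    (CovZ.badM (by decide +kernel)))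
                   (CovZ.n1 (-49212, 45000) (by decide +kernel)
                    (CovZ.leaf K2_ok TH_l5590 _)
                    (CovZ.leaf K2_ok TH_l5591 _))))
                 (CovZ.n1 (-49176, 45072) (by decide +kernel)
                  (CovZ.n2 (-49140, 45036) (by decide +kernel)
                   (CovZ.leaf K2_ok TH_l5592 _)
                   (CovZ.n1 (-49140, 45072) (by decide +kernel)
                    (CovZ.leaf K2_ok TH_l5593 _)
                    (CovZ.leaf K2_ok TH_l5594 _)))
                  (CovZ.n1 (-49212, 45036) (by decide +kernel)
                   (CovZ.leaf K2_ok TH_l5595 _)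
                   (CovZ.leaf K2_ok TH_l5596 _))))))))

theorem TH_u79 : CovZ TH_M (toL (selN TH_LN 3211307308593602029703905773621947617675067392)) [0, 7, 6, 1] (-48960, 44928) (-48672, 44928) (-48672, 45216) :=
    (CovZ.n2 (-48816, 45072) (by decide +kernel)
              (CovZ.n2 (-48672, 45072) (by decide +kernel)
               (CovZ.subM 3211307308593602029394420763800602271924879360 (by decide +kernel)
                (CovZ.n2 (-48744, 45000) (by decide +kernel)
                 (CovZ.n2 (-48744, 45072) (by decide +kernel)
                  (CovZ.n2 (-48708, 45036) (by decide +kernel)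
                   (CovZ.leaf K2_ok TH_l5597 _)
                   (CovZ.leaf K2_ok TH_l5598 _))
                  (CovZ.n1 (-48780, 45036) (by decide +kernel)
                   (CovZ.n2 (-48780, 45072) (by decide +kernel)
                    (CovZ.leaf K2_ok TH_l5599 _)
                    (CovZ.leaf K2_ok TH_l5600 _))
                   (CovZ.n1 (-48744, 45036) (by decide +kernel)
                    (CovZ.leaf K2_ok TH_l5601 _)
                    (CovZ.leaf K2_ok TH_l5602 _))))
                 (CovZ.n1 (-48672, 45000) (by decide +kernel)
                  (CovZ.n2 (-48708, 44964) (by decide +kernel)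
                   (CovZ.n2 (-48708, 45000) (by decide +kernel)
                    (CovZ.n2 (-48690, 44982) (by decide +kernel)
                     (CovZ.leaf K2_ok TH_l5603 _)
                     (CovZ.leaf K2_ok TH_l5604 _))
                    (CovZ.n1 (-48726, 44982) (by decide +kernel)
                     (CovZ.leaf K2_ok TH_l5605 _)
                     (CovZ.leaf K2_ok TH_l5606 _)))
                   (CovZ.n1 (-48672, 44964) (by decide +kernel)
                    (CovZ.badM (by decide +kernel))
                    (CovZ.n1 (-48690, 44982) (by decide +kernel)
                     (CovZ.leaf K2_ok TH_l5607 _)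
                     (CovZ.leaf K2_ok TH_l5608 _))))
                  (CovZ.n1 (-48708, 45036) (by decide +kernel)
                   (CovZ.n2 (-48672, 45036) (by decide +kernel)
                    (CovZ.leaf K2_ok TH_l5609 _)
                    (CovZ.leaf K2_ok TH_l5610 _))
                   (CovZ.n1 (-48708, 45000) (by decide +kernel)
                    (CovZ.n2 (-48726, 45018) (by decide +kernel)
                     (CovZ.leaf K2_ok TH_l5611 _)
                     (CovZ.leaf K2_ok TH_l5612 _))
                    (CovZ.leaf K2_ok TH_l5613 _))))))
               (CovZ.n1 (-48744, 45144) (by decide +kernel)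
                (CovZ.n2 (-48672, 45144) (by decide +kernel)
                 (CovZ.n2 (-48708, 45108) (by decide +kernel)
                  (CovZ.leaf K2_ok TH_l5614 _)
                  (CovZ.leaf K2_ok TH_l5615 _))
                 (CovZ.n1 (-48708, 45180) (by decide +kernel)
                  (CovZ.leaf K2_ok TH_l5616 _)
                  (CovZ.leaf K2_ok TH_l5617 _)))
                (CovZ.subM 3211307308593602029394420763800602271924879360 (by decide +kernel)
                 (CovZ.n1 (-48744, 45072) (by decide +kernel)
                  (CovZ.n2 (-48780, 45108) (by decide +kernel)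
                   (CovZ.leaf K2_ok TH_l5618 _)
                   (CovZ.n1 (-48780, 45072) (by decide +kernel)
                    (CovZ.leaf K2_ok TH_l5619 _)
                    (CovZ.leaf K2_ok TH_l5620 _)))
                  (CovZ.n1 (-48708, 45108) (by decide +kernel)
                   (CovZ.leaf K2_ok TH_l5621 _)
                   (CovZ.leaf K2_ok TH_l5622 _))))))
              (CovZ.subM 3211307308593602029394420763800602271924879360 (by decide +kernel)
               (CovZ.n1 (-48816, 44928) (by decide +kernel)
                (CovZ.n2 (-48888, 45000) (by decide +kernel)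
                 (CovZ.n2 (-48816, 45000) (by decide +kernel)
                  (CovZ.n2 (-48852, 44964) (by decide +kernel)
                   (CovZ.n2 (-48852, 45000) (by decide +kernel)
                    (CovZ.n2 (-48834, 44982) (by decide +kernel)
                     (CovZ.leaf K2_ok TH_l5623 _)
                     (CovZ.leaf K2_ok TH_l5624 _))
                    (CovZ.leaf K2_ok TH_l5625 _))
                   (CovZ.n1 (-48816, 44964) (by decide +kernel)
                    (CovZ.badM (by decide +kernel))
                    (CovZ.leaf K2_ok TH_l5626 _)))
                  (CovZ.n1 (-48852, 45036) (by decide +kernel)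
                   (CovZ.n2 (-48816, 45036) (by decide +kernel)
                    (CovZ.n2 (-48834, 45018) (by decide +kernel)
                     (CovZ.leaf K2_ok TH_l5627 _)
                     (CovZ.leaf K2_ok TH_l5628 _))
                    (CovZ.leaf K2_ok TH_l5629 _))
                   (CovZ.n1 (-48852, 45000) (by decide +kernel)
                    (CovZ.n2 (-48870, 45018) (by decide +kernel)
                     (CovZ.leaf K2_ok TH_l5630 _)
                     (CovZ.leaf K2_ok TH_l5631 _))
                    (CovZ.n1 (-48834, 45018) (by decide +kernel)
                     (CovZ.leaf K2_ok TH_l5632 _)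
                     (CovZ.leaf K2_ok TH_l5633 _)))))
                 (CovZ.n1 (-48888, 44928) (by decide +kernel)
                  (CovZ.n2 (-48924, 44964) (by decide +kernel)
                   (CovZ.n2 (-48888, 44964) (by decide +kernel)
                    (CovZ.badM (by decide +kernel))
                    (CovZ.leaf K2_ok TH_l5634 _))
                   (CovZ.badM (by decide +kernel)))
                  (CovZ.n1 (-48852, 44964) (by decide +kernel)
                   (CovZ.badM (by decide +kernel))
                   (CovZ.n1 (-48888, 44964) (by decide +kernel)
                    (CovZ.n2 (-48870, 44982) (by decide +kernel)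
                     (CovZ.leaf K2_ok TH_l5635 _)
                     (CovZ.leaf K2_ok TH_l5636 _))
                    (CovZ.badM (by decide +kernel))))))
                (CovZ.n1 (-48744, 45000) (by decide +kernel)
                 (CovZ.n2 (-48744, 44928) (by decide +kernel)
                  (CovZ.n2 (-48780, 44964) (by decide +kernel)
                   (CovZ.n2 (-48744, 44964) (by decide +kernel)
                    (CovZ.badM (by decide +kernel))
                    (CovZ.leaf K2_ok TH_l5637 _))
                   (CovZ.badM (by decide +kernel)))
                  (CovZ.n1 (-48708, 44964) (by decide +kernel)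
                   (CovZ.badM (by decide +kernel))
                   (CovZ.n1 (-48744, 44964) (by decide +kernel)
                    (CovZ.n2 (-48726, 44982) (by decide +kernel)
                     (CovZ.leaf K2_ok TH_l5638 _)
                     (CovZ.leaf K2_ok TH_l5639 _))
                    (CovZ.badM (by decide +kernel)))))
                 (CovZ.n1 (-48816, 45000) (by decide +kernel)
                  (CovZ.n2 (-48780, 45036) (by decide +kernel)
                   (CovZ.n2 (-48780, 45000) (by decide +kernel)
                    (CovZ.leaf K2_ok TH_l5640 _)
                    (CovZ.leaf K2_ok TH_l5641 _))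
                   (CovZ.n1 (-48816, 45036) (by decide +kernel)
                    (CovZ.leaf K2_ok TH_l5642 _)
                    (CovZ.leaf K2_ok TH_l5643 _)))
                  (CovZ.n1 (-48780, 44964) (by decide +kernel)
                   (CovZ.n2 (-48816, 44964) (by decide +kernel)
                    (CovZ.n2 (-48798, 44982) (by decide +kernel)
                     (CovZ.leaf K2_ok TH_l5644 _)
                     (CovZ.leaf K2_ok TH_l5645 _))
                    (CovZ.badM (by decide +kernel)))
                   (CovZ.n1 (-48780, 45000) (by decide +kernel)
                    (CovZ.leaf K2_ok TH_l5646 _)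
                    (CovZ.leaf K2_ok TH_l5647 _))))))))

theorem TH_u80 : CovZ TH_M (toL (selN TH_LN 3211307308593602029703905773621947617675067392)) [0, 7, 6, 1] (-48672, 44928) (-48384, 44928) (-48672, 45216) :=
    (CovZ.n1 (-48528, 45072) (by decide +kernel)
              (CovZ.subM 3211307308593602029394420763800602271924879360 (by decide +kernel)
               (CovZ.n2 (-48528, 44928) (by decide +kernel)
                (CovZ.n2 (-48600, 45000) (by decide +kernel)
                 (CovZ.n2 (-48528, 45000) (by decide +kernel)
                  (CovZ.n2 (-48564, 44964) (by decide +kernel)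
                   (CovZ.n2 (-48564, 45000) (by decide +kernel)
                    (CovZ.n2 (-48546, 44982) (by decide +kernel)
                     (CovZ.leaf K2_ok TH_l5648 _)
                     (CovZ.leaf K2_ok TH_l5649 _))
                    (CovZ.n1 (-48582, 44982) (by decide +kernel)
                     (CovZ.leaf K2_ok TH_l5650 _)
                     (CovZ.leaf K2_ok TH_l5651 _)))
                   (CovZ.n1 (-48528, 44964) (by decide +kernel)
                    (CovZ.badM (by decide +kernel))
                    (CovZ.n1 (-48546, 44982) (by decide +kernel)
                     (CovZ.leaf K2_ok TH_l5652 _)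
                     (CovZ.leaf K2_ok TH_l5653 _))))
                  (CovZ.n1 (-48564, 45036) (by decide +kernel)
                   (CovZ.n2 (-48528, 45036) (by decide +kernel)
                    (CovZ.leaf K2_ok TH_l5654 _)
                    (CovZ.leaf K2_ok TH_l5655 _))
                   (CovZ.n1 (-48564, 45000) (by decide +kernel)
                    (CovZ.n2 (-48582, 45018) (by decide +kernel)
                     (CovZ.leaf K2_ok TH_l5656 _)
                     (CovZ.leaf K2_ok TH_l5657 _))
                    (CovZ.leaf K2_ok TH_l5658 _))))
                 (CovZ.n1 (-48600, 44928) (by decide +kernel)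
                  (CovZ.n2 (-48636, 44964) (by decide +kernel)
                   (CovZ.n2 (-48600, 44964) (by decide +kernel)
                    (CovZ.badM (by decide +kernel))
                    (CovZ.n1 (-48618, 44982) (by decide +kernel)
                     (CovZ.leaf K2_ok TH_l5659 _)
                     (CovZ.leaf K2_ok TH_l5660 _)))
                   (CovZ.badM (by decide +kernel)))
                  (CovZ.n1 (-48564, 44964) (by decide +kernel)
                   (CovZ.badM (by decide +kernel))
                   (CovZ.n1 (-48600, 44964) (by decide +kernel)
                    (CovZ.leaf K2_ok TH_l5661 _)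
                    (CovZ.badM (by decide +kernel))))))
                (CovZ.n1 (-48456, 45000) (by decide +kernel)
                 (CovZ.n2 (-48456, 44928) (by decide +kernel)
                  (CovZ.n2 (-48492, 44964) (by decide +kernel)
                   (CovZ.n2 (-48456, 44964) (by decide +kernel)
                    (CovZ.badM (by decide +kernel))
                    (CovZ.n1 (-48474, 44982) (by decide +kernel)
                     (CovZ.leaf K2_ok TH_l5662 _)
                     (CovZ.leaf K2_ok TH_l5663 _)))
                   (CovZ.badM (by decide +kernel)))
                  (CovZ.n1 (-48420, 44964) (by decide +kernel)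
                   (CovZ.badM (by decide +kernel))
                   (CovZ.n1 (-48456, 44964) (by decide +kernel)
                    (CovZ.n2 (-48438, 44982) (by decide +kernel)
                     (CovZ.leaf K2_ok TH_l5664 _)
                     (CovZ.leaf K2_ok TH_l5665 _))
                    (CovZ.badM (by decide +kernel)))))
                 (CovZ.n1 (-48528, 45000) (by decide +kernel)
                  (CovZ.n2 (-48492, 45036) (by decide +kernel)
                   (CovZ.n2 (-48492, 45000) (by decide +kernel)
                    (CovZ.n2 (-48510, 45018) (by decide +kernel)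
                     (CovZ.leaf K2_ok TH_l5666 _)
                     (CovZ.leaf K2_ok TH_l5667 _))
                    (CovZ.n1 (-48474, 45018) (by decide +kernel)
                     (CovZ.leaf K2_ok TH_l5668 _)
                     (CovZ.leaf K2_ok TH_l5669 _)))
                   (CovZ.n1 (-48528, 45036) (by decide +kernel)
                    (CovZ.leaf K2_ok TH_l5670 _)
                    (CovZ.n1 (-48510, 45018) (by decide +kernel)
                     (CovZ.leaf K2_ok TH_l5671 _)
                     (CovZ.leaf K2_ok TH_l5672 _))))
                  (CovZ.n1 (-48492, 44964) (by decide +kernel)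
                   (CovZ.n2 (-48528, 44964) (by decide +kernel)
                    (CovZ.n2 (-48510, 44982) (by decide +kernel)
                     (CovZ.leaf K2_ok TH_l5673 _)
                     (CovZ.leaf K2_ok TH_l5674 _))
                    (CovZ.badM (by decide +kernel)))
                   (CovZ.n1 (-48492, 45000) (by decide +kernel)
                    (CovZ.n2 (-48474, 44982) (by decide +kernel)
                     (CovZ.leaf K2_ok TH_l5675 _)
                     (CovZ.leaf K2_ok TH_l5676 _))
                    (CovZ.n1 (-48510, 44982) (by decide +kernel)
                     (CovZ.leaf K2_ok TH_l5677 _)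
                     (CovZ.leaf K2_ok TH_l5678 _))))))))
              (CovZ.n1 (-48672, 45072) (by decide +kernel)
               (CovZ.n2 (-48600, 45144) (by decide +kernel)
                (CovZ.subM 3211307308593602029394420763800602271924879360 (by decide +kernel)
                 (CovZ.n2 (-48600, 45072) (by decide +kernel)
                  (CovZ.n2 (-48636, 45108) (by decide +kernel)
                   (CovZ.leaf K2_ok TH_l5679 _)
                   (CovZ.n1 (-48636, 45072) (by decide +kernel)
                    (CovZ.leaf K2_ok TH_l5680 _)
                    (CovZ.leaf K2_ok TH_l5681 _)))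
                  (CovZ.n1 (-48564, 45108) (by decide +kernel)
                   (CovZ.n2 (-48564, 45072) (by decide +kernel)
                    (CovZ.leaf K2_ok TH_l5682 _)
                    (CovZ.leaf K2_ok TH_l5683 _))
                   (CovZ.leaf K2_ok TH_l5684 _))))
                (CovZ.n1 (-48672, 45144) (by decide +kernel)
                 (CovZ.leaf K2_ok TH_l5685 _)
                 (CovZ.n1 (-48636, 45108) (by decide +kernel)
                  (CovZ.leaf K2_ok TH_l5686 _)
                  (CovZ.leaf K2_ok TH_l5687 _))))
               (CovZ.subM 3211307308593602029394420763800602271924879360 (by decide +kernel)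
                (CovZ.n1 (-48600, 45000) (by decide +kernel)
                 (CovZ.n2 (-48672, 45000) (by decide +kernel)
                  (CovZ.n2 (-48636, 45036) (by decide +kernel)
                   (CovZ.n2 (-48636, 45000) (by decide +kernel)
                    (CovZ.n2 (-48654, 45018) (by decide +kernel)
                     (CovZ.leaf K2_ok TH_l5688 _)
                     (CovZ.leaf K2_ok TH_l5689 _))
                    (CovZ.n1 (-48618, 45018) (by decide +kernel)
                     (CovZ.leaf K2_ok TH_l5690 _)
                     (CovZ.leaf K2_ok TH_l5691 _)))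
                   (CovZ.leaf K2_ok TH_l5692 _))
                  (CovZ.n1 (-48636, 44964) (by decide +kernel)
                   (CovZ.n2 (-48672, 44964) (by decide +kernel)
                    (CovZ.n2 (-48654, 44982) (by decide +kernel)
                     (CovZ.leaf K2_ok TH_l5693 _)
                     (CovZ.leaf K2_ok TH_l5694 _))
                    (CovZ.badM (by decide +kernel)))
                   (CovZ.n1 (-48636, 45000) (by decide +kernel)
                    (CovZ.n2 (-48618, 44982) (by decide +kernel)
                     (CovZ.leaf K2_ok TH_l5695 _)
                     (CovZ.leaf K2_ok TH_l5696 _))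
                    (CovZ.n1 (-48654, 44982) (by decide +kernel)
                     (CovZ.leaf K2_ok TH_l5697 _)
                     (CovZ.leaf K2_ok TH_l5698 _)))))
                 (CovZ.n1 (-48600, 45072) (by decide +kernel)
                  (CovZ.n2 (-48564, 45036) (by decide +kernel)
                   (CovZ.leaf K2_ok TH_l5699 _)
                   (CovZ.n1 (-48564, 45072) (by decide +kernel)
                    (CovZ.leaf K2_ok TH_l5700 _)
                    (CovZ.leaf K2_ok TH_l5701 _)))
                  (CovZ.n1 (-48636, 45036) (by decide +kernel)
                   (CovZ.leaf K2_ok TH_l5702 _)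
                   (CovZ.n1 (-48600, 45036) (by decide +kernel)
                    (CovZ.n2 (-48618, 45018) (by decide +kernel)
                     (CovZ.leaf K2_ok TH_l5703 _)
                     (CovZ.leaf K2_ok TH_l5704 _))
                    (CovZ.leaf K2_ok TH_l5705 _))))))))

theorem TH_u81 : CovZ TH_M (toL (selN TH_LN 3211307308593602029703905773621947617675067392)) [0, 7, 6, 1] (-48384, 46080) (-48960, 45504) (-48384, 44928) :=
    (CovZ.n2 (-48384, 45504) (by decide +kernel)
           (CovZ.n2 (-48672, 45216) (by decide +kernel)
            (CovZ.n2 (-48672, 45504) (by decide +kernel)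
             (CovZ.n2 (-48528, 45360) (by decide +kernel)
              (CovZ.n2 (-48672, 45360) (by decide +kernel)
               (CovZ.n2 (-48600, 45432) (by decide +kernel)
                (CovZ.n2 (-48600, 45360) (by decide +kernel)
                 (CovZ.leaf K2_ok TH_l5362 _)
                 (CovZ.leaf K2_ok TH_l5363 _))
                (CovZ.leaf K2_ok TH_l5364 _))
               (CovZ.n1 (-48600, 45288) (by decide +kernel)
                (CovZ.n2 (-48672, 45288) (by decide +kernel)
                 (CovZ.leaf K2_ok TH_l5365 _)
                 (CovZ.leaf K2_ok TH_l5366 _))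
                (CovZ.n1 (-48600, 45360) (by decide +kernel)
                 (CovZ.leaf K2_ok TH_l5367 _)
                 (CovZ.leaf K2_ok TH_l5368 _))))
              (CovZ.n1 (-48528, 45504) (by decide +kernel)
               (CovZ.n2 (-48456, 45432) (by decide +kernel)
                (CovZ.leaf K2_ok TH_l5369 _)
                (CovZ.n1 (-48456, 45504) (by decide +kernel)
                 (CovZ.leaf K2_ok TH_l5370 _)
                 (CovZ.leaf K2_ok TH_l5371 _)))
               (CovZ.n1 (-48600, 45432) (by decide +kernel)
                (CovZ.leaf K2_ok TH_l5372 _)
                (CovZ.leaf K2_ok TH_l5373 _))))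
             (CovZ.n1 (-48816, 45360) (by decide +kernel)
              (CovZ.n2 (-48816, 45504) (by decide +kernel)
               (CovZ.n2 (-48744, 45432) (by decide +kernel)
                (CovZ.leaf K2_ok TH_l5374 _)
                (CovZ.leaf K2_ok TH_l5375 _))
               (CovZ.n1 (-48888, 45432) (by decide +kernel)
                (CovZ.leaf K2_ok TH_l5376 _)
                (CovZ.leaf K2_ok TH_l5377 _)))
              (CovZ.n1 (-48672, 45360) (by decide +kernel)
               (CovZ.n2 (-48744, 45288) (by decide +kernel)
                (CovZ.n2 (-48744, 45360) (by decide +kernel)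
                 (CovZ.leaf K2_ok TH_l5378 _)
                 (CovZ.leaf K2_ok TH_l5379 _))
                (CovZ.n1 (-48672, 45288) (by decide +kernel)
                 (CovZ.leaf K2_ok TH_l5380 _)
                 (CovZ.leaf K2_ok TH_l5381 _)))
               (CovZ.n1 (-48744, 45432) (by decide +kernel)
                (CovZ.leaf K2_ok TH_l5382 _)
                (CovZ.n1 (-48744, 45360) (by decide +kernel)
                 (CovZ.leaf K2_ok TH_l5383 _)
                 (CovZ.leaf K2_ok TH_l5384 _))))))
            (CovZ.n1 (-48384, 45216) (by decide +kernel)
             (CovZ.n2 (-48528, 45072) (by decide +kernel)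
              (CovZ.n2 (-48528, 45216) (by decide +kernel)
               (CovZ.n2 (-48456, 45144) (by decide +kernel)
                (CovZ.n2 (-48528, 45144) (by decide +kernel)
                 (CovZ.n2 (-48492, 45180) (by decide +kernel)
                  (CovZ.leaf K2_ok TH_l5385 _)
                  (CovZ.leaf K2_ok TH_l5386 _))
                 (CovZ.n1 (-48492, 45108) (by decide +kernel)
                  (CovZ.leaf K2_ok TH_l5387 _)
                  (CovZ.leaf K2_ok TH_l5388 _)))
                (CovZ.n1 (-48456, 45216) (by decide +kernel)
                 (CovZ.leaf K2_ok TH_l5389 _)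
                 (CovZ.leaf K2_ok TH_l5390 _)))
               (CovZ.n1 (-48600, 45144) (by decide +kernel)
                (CovZ.n2 (-48600, 45216) (by decide +kernel)
                 (CovZ.n2 (-48564, 45180) (by decide +kernel)
                  (CovZ.leaf K2_ok TH_l5391 _)
                  (CovZ.leaf K2_ok TH_l5392 _))
                 (CovZ.leaf K2_ok TH_l5393 _))
                (CovZ.n1 (-48528, 45144) (by decide +kernel)
                 (CovZ.n2 (-48564, 45108) (by decide +kernel)
                  (CovZ.n2 (-48564, 45144) (by decide +kernel)
                   (CovZ.leaf K2_ok TH_l5394 _)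
                   (CovZ.leaf K2_ok TH_l5395 _))
                  (CovZ.leaf K2_ok TH_l5396 _))
                 (CovZ.n1 (-48564, 45180) (by decide +kernel)
                  (CovZ.n2 (-48528, 45180) (by decide +kernel)
                   (CovZ.leaf K2_ok TH_l5397 _)
                   (CovZ.leaf K2_ok TH_l5398 _))
                  (CovZ.leaf K2_ok TH_l5399 _)))))
              (CovZ.n1 (-48384, 45072) (by decide +kernel)
               (CovZ.subM 3211307308593602029394420763800602271924879360 (by decide +kernel)
                (CovZ.n2 (-48456, 45000) (by decide +kernel)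
                 (CovZ.n2 (-48456, 45072) (by decide +kernel)
                  (CovZ.n2 (-48420, 45036) (by decide +kernel)
                   (CovZ.n2 (-48456, 45036) (by decide +kernel)
                    (CovZ.leaf K2_ok TH_l5400 _)
                    (CovZ.n1 (-48438, 45018) (by decide +kernel)
                     (CovZ.leaf K2_ok TH_l5401 _)
                     (CovZ.leaf K2_ok TH_l5402 _)))
                   (CovZ.n1 (-48420, 45072) (by decide +kernel)
                    (CovZ.leaf K2_ok TH_l5403 _)
                    (CovZ.leaf K2_ok TH_l5404 _)))
                  (CovZ.n1 (-48492, 45036) (by decide +kernel)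
                   (CovZ.n2 (-48492, 45072) (by decide +kernel)
                    (CovZ.leaf K2_ok TH_l5405 _)
                    (CovZ.leaf K2_ok TH_l5406 _))
                   (CovZ.n1 (-48456, 45036) (by decide +kernel)
                    (CovZ.n2 (-48474, 45018) (by decide +kernel)
                     (CovZ.leaf K2_ok TH_l5407 _)
                     (CovZ.leaf K2_ok TH_l5408 _))
                    (CovZ.leaf K2_ok TH_l5409 _))))
                 (CovZ.n1 (-48384, 45000) (by decide +kernel)
                  (CovZ.n2 (-48420, 44964) (by decide +kernel)
                   (CovZ.n2 (-48420, 45000) (by decide +kernel)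
                    (CovZ.n2 (-48402, 44982) (by decide +kernel)
                     (CovZ.leaf K2_ok TH_l5410 _)
                     (CovZ.leaf K2_ok TH_l5411 _))
                    (CovZ.n1 (-48438, 44982) (by decide +kernel)
                     (CovZ.leaf K2_ok TH_l5412 _)
                     (CovZ.leaf K2_ok TH_l5413 _)))
                   (CovZ.n1 (-48384, 44964) (by decide +kernel)
                    (CovZ.badM (by decide +kernel))
                    (CovZ.n1 (-48402, 44982) (by decide +kernel)
                     (CovZ.leaf K2_ok TH_l5414 _)
                     (CovZ.leaf K2_ok TH_l5415 _))))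
                  (CovZ.n1 (-48420, 45036) (by decide +kernel)
                   (CovZ.n2 (-48384, 45036) (by decide +kernel)
                    (CovZ.n2 (-48402, 45018) (by decide +kernel)
                     (CovZ.leaf K2_ok TH_l5416 _)
                     (CovZ.leaf K2_ok TH_l5417 _))
                    (CovZ.leaf K2_ok TH_l5418 _))
                   (CovZ.n1 (-48420, 45000) (by decide +kernel)
                    (CovZ.n2 (-48438, 45018) (by decide +kernel)
                     (CovZ.leaf K2_ok TH_l5419 _)
                     (CovZ.leaf K2_ok TH_l5420 _))
                    (CovZ.n1 (-48402, 45018) (by decide +kernel)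
                     (CovZ.leaf K2_ok TH_l5421 _)
                     (CovZ.leaf K2_ok TH_l5422 _)))))))
               (CovZ.n1 (-48456, 45144) (by decide +kernel)
                (CovZ.n2 (-48384, 45144) (by decide +kernel)
                 (CovZ.n2 (-48420, 45108) (by decide +kernel)
                  (CovZ.leaf K2_ok TH_l5423 _)
                  (CovZ.n1 (-48384, 45108) (by decide +kernel)
                   (CovZ.leaf K2_ok TH_l5424 _)
                   (CovZ.leaf K2_ok TH_l5425 _)))
                 (CovZ.n1 (-48420, 45180) (by decide +kernel)
                  (CovZ.leaf K2_ok TH_l5426 _)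
                  (CovZ.n1 (-48420, 45144) (by decide +kernel)
                   (CovZ.leaf K2_ok TH_l5427 _)
                   (CovZ.leaf K2_ok TH_l5428 _))))
                (CovZ.subM 3211307308593602029394420763800602271924879360 (by decide +kernel)
                 (CovZ.n1 (-48456, 45072) (by decide +kernel)
                  (CovZ.n2 (-48492, 45108) (by decide +kernel)
                   (CovZ.leaf K2_ok TH_l5429 _)
                   (CovZ.n1 (-48492, 45072) (by decide +kernel)
                    (CovZ.leaf K2_ok TH_l5430 _)
                    (CovZ.leaf K2_ok TH_l5431 _)))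
                  (CovZ.n1 (-48420, 45108) (by decide +kernel)
                   (CovZ.n2 (-48420, 45072) (by decide +kernel)
                    (CovZ.leaf K2_ok TH_l5432 _)
                    (CovZ.leaf K2_ok TH_l5433 _))
                   (CovZ.leaf K2_ok TH_l5434 _)))))))
             (CovZ.n1 (-48528, 45360) (by decide +kernel)
              (CovZ.n2 (-48384, 45360) (by decide +kernel)
               (CovZ.n2 (-48456, 45288) (by decide +kernel)
                (CovZ.n2 (-48456, 45360) (by decide +kernel)
                 (CovZ.leaf K2_ok TH_l5435 _)
                 (CovZ.leaf K2_ok TH_l5436 _))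
                (CovZ.n1 (-48384, 45288) (by decide +kernel)
                 (CovZ.leaf K2_ok TH_l5437 _)
                 (CovZ.leaf K2_ok TH_l5438 _)))
               (CovZ.n1 (-48456, 45432) (by decide +kernel)
                (CovZ.leaf K2_ok TH_l5439 _)
                (CovZ.n1 (-48456, 45360) (by decide +kernel)
                 (CovZ.leaf K2_ok TH_l5440 _)
                 (CovZ.leaf K2_ok TH_l5441 _))))
              (CovZ.n1 (-48528, 45216) (by decide +kernel)
               (CovZ.n2 (-48600, 45288) (by decide +kernel)
                (CovZ.n2 (-48528, 45288) (by decide +kernel)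
                 (CovZ.leaf K2_ok TH_l5442 _)
                 (CovZ.leaf K2_ok TH_l5443 _))
                (CovZ.n1 (-48600, 45216) (by decide +kernel)
                 (CovZ.leaf K2_ok TH_l5444 _)
                 (CovZ.leaf K2_ok TH_l5445 _)))
               (CovZ.n1 (-48456, 45288) (by decide +kernel)
                (CovZ.n2 (-48456, 45216) (by decide +kernel)
                 (CovZ.n2 (-48492, 45252) (by decide +kernel)
                  (CovZ.leaf K2_ok TH_l5446 _)
                  (CovZ.leaf K2_ok TH_l5447 _))
                 (CovZ.n1 (-48420, 45252) (by decide +kernel)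
                  (CovZ.leaf K2_ok TH_l5448 _)
                  (CovZ.leaf K2_ok TH_l5449 _)))
                (CovZ.n1 (-48528, 45288) (by decide +kernel)
                 (CovZ.leaf K2_ok TH_l5450 _)
                 (CovZ.leaf K2_ok TH_l5451 _)))))))
           (CovZ.n1 (-48672, 45792) (by decide +kernel)
            (CovZ.n2 (-48384, 45792) (by decide +kernel)
             (CovZ.n2 (-48528, 45648) (by decide +kernel)
              (CovZ.n2 (-48528, 45792) (by decide +kernel)
               (CovZ.leaf K2_ok TH_l5452 _)
               (CovZ.leaf K2_ok TH_l5453 _))
              (CovZ.n1 (-48384, 45648) (by decide +kernel)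
               (CovZ.n2 (-48456, 45576) (by decide +kernel)
                (CovZ.leaf K2_ok TH_l5454 _)
                (CovZ.leaf K2_ok TH_l5455 _))
               (CovZ.leaf K2_ok TH_l5456 _)))
             (CovZ.n1 (-48528, 45936) (by decide +kernel)
              (CovZ.n2 (-48384, 45936) (by decide +kernel)
               (CovZ.leaf K2_ok TH_l5457 _)
               (CovZ.leaf K2_ok TH_l5458 _))
              (CovZ.n1 (-48528, 45792) (by decide +kernel)
               (CovZ.leaf K2_ok TH_l5459 _)
               (CovZ.leaf K2_ok TH_l5460 _))))
            (CovZ.n1 (-48672, 45504) (by decide +kernel)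
             (CovZ.n2 (-48816, 45648) (by decide +kernel)
              (CovZ.n2 (-48672, 45648) (by decide +kernel)
               (CovZ.leaf K2_ok TH_l5461 _)
               (CovZ.leaf K2_ok TH_l5462 _))
              (CovZ.n1 (-48816, 45504) (by decide +kernel)
               (CovZ.n2 (-48888, 45576) (by decide +kernel)
                (CovZ.leaf K2_ok TH_l5463 _)
                (CovZ.leaf K2_ok TH_l5464 _))
               (CovZ.n1 (-48744, 45576) (by decide +kernel)
                (CovZ.leaf K2_ok TH_l5465 _)
                (CovZ.leaf K2_ok TH_l5466 _))))
             (CovZ.n1 (-48528, 45648) (by decide +kernel)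
              (CovZ.n2 (-48528, 45504) (by decide +kernel)
               (CovZ.n2 (-48600, 45576) (by decide +kernel)
                (CovZ.leaf K2_ok TH_l5467 _)
                (CovZ.leaf K2_ok TH_l5468 _))
               (CovZ.n1 (-48456, 45576) (by decide +kernel)
                (CovZ.leaf K2_ok TH_l5469 _)
                (CovZ.leaf K2_ok TH_l5470 _)))
              (CovZ.n1 (-48672, 45648) (by decide +kernel)
               (CovZ.leaf K2_ok TH_l5471 _)
               (CovZ.n1 (-48600, 45576) (by decide +kernel)
                (CovZ.leaf K2_ok TH_l5472 _)
                (CovZ.leaf K2_ok TH_l5473 _)))))))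

theorem TH_u82 : CovZ TH_M (toL (selN TH_LN 3211307308593602029703905773621947617675067392)) [0, 7, 6, 1] (-48960, 45504) (-49536, 44928) (-48384, 44928) :=
    (CovZ.n1 (-48960, 44928) (by decide +kernel)
           (CovZ.n2 (-49248, 45216) (by decide +kernel)
            TH_u77
            TH_u78)
           (CovZ.n1 (-48672, 45216) (by decide +kernel)
            (CovZ.n2 (-48672, 44928) (by decide +kernel)
             TH_u79
             TH_u80)
            (CovZ.n1 (-48960, 45216) (by decide +kernel)
             (CovZ.n2 (-48816, 45360) (by decide +kernel)
              (CovZ.n2 (-48816, 45216) (by decide +kernel)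
               (CovZ.n2 (-48888, 45288) (by decide +kernel)
                (CovZ.n2 (-48816, 45288) (by decide +kernel)
                 (CovZ.leaf K2_ok TH_l5706 _)
                 (CovZ.leaf K2_ok TH_l5707 _))
                (CovZ.n1 (-48888, 45216) (by decide +kernel)
                 (CovZ.leaf K2_ok TH_l5708 _)
                 (CovZ.leaf K2_ok TH_l5709 _)))
               (CovZ.n1 (-48744, 45288) (by decide +kernel)
                (CovZ.n2 (-48744, 45216) (by decide +kernel)
                 (CovZ.leaf K2_ok TH_l5710 _)
                 (CovZ.leaf K2_ok TH_l5711 _))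
                (CovZ.leaf K2_ok TH_l5712 _)))
              (CovZ.n1 (-48960, 45360) (by decide +kernel)
               (CovZ.n2 (-48888, 45432) (by decide +kernel)
                (CovZ.n2 (-48888, 45360) (by decide +kernel)
                 (CovZ.leaf K2_ok TH_l5713 _)
                 (CovZ.leaf K2_ok TH_l5714 _))
                (CovZ.leaf K2_ok TH_l5715 _))
               (CovZ.n1 (-48888, 45288) (by decide +kernel)
                (CovZ.leaf K2_ok TH_l5716 _)
                (CovZ.n1 (-48888, 45360) (by decide +kernel)
                 (CovZ.leaf K2_ok TH_l5717 _)
                 (CovZ.leaf K2_ok TH_l5718 _)))))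
             (CovZ.n1 (-48816, 45072) (by decide +kernel)
              (CovZ.n2 (-48960, 45072) (by decide +kernel)
               (CovZ.n2 (-48888, 45144) (by decide +kernel)
                (CovZ.subM 3211307308593602029394420763800602271924879360 (by decide +kernel)
                 (CovZ.n2 (-48888, 45072) (by decide +kernel)
                  (CovZ.n2 (-48924, 45108) (by decide +kernel)
                   (CovZ.leaf K2_ok TH_l5719 _)
                   (CovZ.n1 (-48924, 45072) (by decide +kernel)
                    (CovZ.leaf K2_ok TH_l5720 _)
                    (CovZ.leaf K2_ok TH_l5721 _)))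
                  (CovZ.n1 (-48852, 45108) (by decide +kernel)
                   (CovZ.n2 (-48852, 45072) (by decide +kernel)
                    (CovZ.leaf K2_ok TH_l5722 _)
                    (CovZ.leaf K2_ok TH_l5723 _))
                   (CovZ.leaf K2_ok TH_l5724 _))))
                (CovZ.n1 (-48960, 45144) (by decide +kernel)
                 (CovZ.leaf K2_ok TH_l5725 _)
                 (CovZ.n1 (-48924, 45108) (by decide +kernel)
                  (CovZ.leaf K2_ok TH_l5726 _)
                  (CovZ.leaf K2_ok TH_l5727 _))))
               (CovZ.subM 3211307308593602029394420763800602271924879360 (by decide +kernel)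
                (CovZ.n1 (-48888, 45000) (by decide +kernel)
                 (CovZ.n2 (-48960, 45000) (by decide +kernel)
                  (CovZ.n2 (-48924, 45036) (by decide +kernel)
                   (CovZ.n2 (-48924, 45000) (by decide +kernel)
                    (CovZ.leaf K2_ok TH_l5728 _)
                    (CovZ.leaf K2_ok TH_l5729 _))
                   (CovZ.leaf K2_ok TH_l5730 _))
                  (CovZ.n1 (-48924, 44964) (by decide +kernel)
                   (CovZ.n2 (-48960, 44964) (by decide +kernel)
                    (CovZ.leaf K2_ok TH_l5731 _)
                    (CovZ.badM (by decide +kernel)))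
                   (CovZ.n1 (-48924, 45000) (by decide +kernel)
                    (CovZ.leaf K2_ok TH_l5732 _)
                    (CovZ.leaf K2_ok TH_l5733 _))))
                 (CovZ.n1 (-48888, 45072) (by decide +kernel)
                  (CovZ.n2 (-48852, 45036) (by decide +kernel)
                   (CovZ.leaf K2_ok TH_l5734 _)
                   (CovZ.leaf K2_ok TH_l5735 _))
                  (CovZ.n1 (-48924, 45036) (by decide +kernel)
                   (CovZ.n2 (-48924, 45072) (by decide +kernel)
                    (CovZ.leaf K2_ok TH_l5736 _)
                    (CovZ.leaf K2_ok TH_l5737 _))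
                   (CovZ.n1 (-48888, 45036) (by decide +kernel)
                    (CovZ.leaf K2_ok TH_l5738 _)
                    (CovZ.leaf K2_ok TH_l5739 _)))))))
              (CovZ.n1 (-48816, 45216) (by decide +kernel)
               (CovZ.n2 (-48744, 45144) (by decide +kernel)
                (CovZ.n2 (-48816, 45144) (by decide +kernel)
                 (CovZ.n2 (-48780, 45180) (by decide +kernel)
                  (CovZ.leaf K2_ok TH_l5740 _)
                  (CovZ.leaf K2_ok TH_l5741 _))
                 (CovZ.n1 (-48780, 45108) (by decide +kernel)
                  (CovZ.leaf K2_ok TH_l5742 _)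
                  (CovZ.leaf K2_ok TH_l5743 _)))
                (CovZ.n1 (-48744, 45216) (by decide +kernel)
                 (CovZ.leaf K2_ok TH_l5744 _)
                 (CovZ.leaf K2_ok TH_l5745 _)))
               (CovZ.n1 (-48888, 45144) (by decide +kernel)
                (CovZ.n2 (-48888, 45216) (by decide +kernel)
                 (CovZ.leaf K2_ok TH_l5746 _)
                 (CovZ.leaf K2_ok TH_l5747 _))
                (CovZ.n1 (-48816, 45144) (by decide +kernel)
                 (CovZ.n2 (-48852, 45108) (by decide +kernel)
                  (CovZ.leaf K2_ok TH_l5748 _)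
                  (CovZ.leaf K2_ok TH_l5749 _))
                 (CovZ.leaf K2_ok TH_l5750 _))))))))

theorem TH_u83 : CovZ TH_M (toL (selN TH_LN 3211307308593602029703905773621947617675051008)) [0, 7, 6, 1] (-46080, 46080) (-46080, 47232) (-47232, 47232) :=
    (CovZ.n2 (-46656, 46656) (by decide +kernel)
         (CovZ.n2 (-46656, 47232) (by decide +kernel)
          (CovZ.n2 (-46368, 46944) (by decide +kernel)
           (CovZ.n2 (-46656, 46944) (by decide +kernel)
            (CovZ.n2 (-46512, 47088) (by decide +kernel)
             (CovZ.n2 (-46512, 46944) (by decide +kernel)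
              (CovZ.leaf K2_ok TH_l5814 _)
              (CovZ.leaf K2_ok TH_l5815 _))
             (CovZ.n1 (-46656, 47088) (by decide +kernel)
              (CovZ.leaf K2_ok TH_l5816 _)
              (CovZ.leaf K2_ok TH_l5817 _)))
            (CovZ.n1 (-46512, 46800) (by decide +kernel)
             (CovZ.n2 (-46656, 46800) (by decide +kernel)
              (CovZ.leaf K2_ok TH_l5818 _)
              (CovZ.leaf K2_ok TH_l5819 _))
             (CovZ.n1 (-46512, 46944) (by decide +kernel)
              (CovZ.n2 (-46440, 46872) (by decide +kernel)
               (CovZ.leaf K2_ok TH_l5820 _)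
               (CovZ.leaf K2_ok TH_l5821 _))
              (CovZ.leaf K2_ok TH_l5822 _))))
           (CovZ.n1 (-46368, 47232) (by decide +kernel)
            (CovZ.n2 (-46224, 47088) (by decide +kernel)
             (CovZ.n2 (-46368, 47088) (by decide +kernel)
              (CovZ.n2 (-46296, 47160) (by decide +kernel)
               (CovZ.leaf K2_ok TH_l5823 _)
               (CovZ.leaf K2_ok TH_l5824 _))
              (CovZ.n1 (-46296, 47016) (by decide +kernel)
               (CovZ.leaf K2_ok TH_l5825 _)
               (CovZ.leaf K2_ok TH_l5826 _)))
             (CovZ.n1 (-46224, 47232) (by decide +kernel)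
              (CovZ.n2 (-46152, 47160) (by decide +kernel)
               (CovZ.leaf K2_ok TH_l5827 _)
               (CovZ.leaf K2_ok TH_l5828 _))
              (CovZ.leaf K2_ok TH_l5829 _)))
            (CovZ.n1 (-46512, 47088) (by decide +kernel)
             (CovZ.n2 (-46512, 47232) (by decide +kernel)
              (CovZ.leaf K2_ok TH_l5830 _)
              (CovZ.leaf K2_ok TH_l5831 _))
             (CovZ.n1 (-46368, 47088) (by decide +kernel)
              (CovZ.leaf K2_ok TH_l5832 _)
              (CovZ.leaf K2_ok TH_l5833 _)))))
          (CovZ.n1 (-46944, 46944) (by decide +kernel)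
           (CovZ.n2 (-46944, 47232) (by decide +kernel)
            (CovZ.n2 (-46800, 47088) (by decide +kernel)
             (CovZ.leaf K2_ok TH_l5834 _)
             (CovZ.n1 (-46800, 47232) (by decide +kernel)
              (CovZ.leaf K2_ok TH_l5835 _)
              (CovZ.leaf K2_ok TH_l5836 _)))
            (CovZ.n1 (-47088, 47088) (by decide +kernel)
             (CovZ.leaf K2_ok TH_l5837 _)
             (CovZ.leaf K2_ok TH_l5838 _)))
           (CovZ.n1 (-46656, 46944) (by decide +kernel)
            (CovZ.n2 (-46800, 46800) (by decide +kernel)
             (CovZ.n2 (-46800, 46944) (by decide +kernel)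
              (CovZ.leaf K2_ok TH_l5839 _)
              (CovZ.leaf K2_ok TH_l5840 _))
             (CovZ.n1 (-46656, 46800) (by decide +kernel)
              (CovZ.leaf K2_ok TH_l5841 _)
              (CovZ.leaf K2_ok TH_l5842 _)))
            (CovZ.n1 (-46800, 47088) (by decide +kernel)
             (CovZ.n2 (-46656, 47088) (by decide +kernel)
              (CovZ.leaf K2_ok TH_l5843 _)
              (CovZ.leaf K2_ok TH_l5844 _))
             (CovZ.n1 (-46800, 46944) (by decide +kernel)
              (CovZ.leaf K2_ok TH_l5845 _)
              (CovZ.leaf K2_ok TH_l5846 _))))))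
         (CovZ.n1 (-46080, 46656) (by decide +kernel)
          (CovZ.n2 (-46368, 46368) (by decide +kernel)
           (CovZ.n2 (-46368, 46656) (by decide +kernel)
            (CovZ.n2 (-46224, 46512) (by decide +kernel)
             (CovZ.n2 (-46368, 46512) (by decide +kernel)
              (CovZ.n2 (-46296, 46584) (by decide +kernel)
               (CovZ.n2 (-46296, 46512) (by decide +kernel)
                (CovZ.leaf K2_ok TH_l5847 _)
                (CovZ.leaf K2_ok TH_l5848 _))
               (CovZ.leaf K2_ok TH_l5849 _))
              (CovZ.n1 (-46296, 46440) (by decide +kernel)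
               (CovZ.leaf K2_ok TH_l5850 _)
               (CovZ.n1 (-46296, 46512) (by decide +kernel)
                (CovZ.leaf K2_ok TH_l5851 _)
                (CovZ.leaf K2_ok TH_l5852 _))))
             (CovZ.n1 (-46224, 46656) (by decide +kernel)
              (CovZ.n2 (-46152, 46584) (by decide +kernel)
               (CovZ.leaf K2_ok TH_l5853 _)
               (CovZ.n1 (-46152, 46656) (by decide +kernel)
                (CovZ.leaf K2_ok TH_l5854 _)
                (CovZ.leaf K2_ok TH_l5855 _)))
              (CovZ.n1 (-46296, 46584) (by decide +kernel)
               (CovZ.leaf K2_ok TH_l5856 _)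
               (CovZ.leaf K2_ok TH_l5857 _))))
            (CovZ.n1 (-46512, 46512) (by decide +kernel)
             (CovZ.n2 (-46512, 46656) (by decide +kernel)
              (CovZ.n2 (-46440, 46584) (by decide +kernel)
               (CovZ.leaf K2_ok TH_l5858 _)
               (CovZ.leaf K2_ok TH_l5859 _))
              (CovZ.leaf K2_ok TH_l5860 _))
             (CovZ.n1 (-46368, 46512) (by decide +kernel)
              (CovZ.n2 (-46440, 46440) (by decide +kernel)
               (CovZ.leaf K2_ok TH_l5861 _)
               (CovZ.leaf K2_ok TH_l5862 _))
              (CovZ.n1 (-46440, 46584) (by decide +kernel)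
               (CovZ.leaf K2_ok TH_l5863 _)
               (CovZ.leaf K2_ok TH_l5864 _)))))
           (CovZ.n1 (-46080, 46368) (by decide +kernel)
            (CovZ.n2 (-46224, 46224) (by decide +kernel)
             (CovZ.n2 (-46224, 46368) (by decide +kernel)
              (CovZ.n2 (-46152, 46296) (by decide +kernel)
               (CovZ.n2 (-46224, 46296) (by decide +kernel)
                (CovZ.leaf K2_ok TH_l5865 _)
                (CovZ.leaf K2_ok TH_l5866 _))
               (CovZ.n1 (-46152, 46368) (by decide +kernel)
                (CovZ.leaf K2_ok TH_l5867 _)
                (CovZ.leaf K2_ok TH_l5868 _)))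
              (CovZ.n1 (-46296, 46296) (by decide +kernel)
               (CovZ.n2 (-46296, 46368) (by decide +kernel)
                (CovZ.leaf K2_ok TH_l5869 _)
                (CovZ.leaf K2_ok TH_l5870 _))
               (CovZ.n1 (-46224, 46296) (by decide +kernel)
                (CovZ.leaf K2_ok TH_l5871 _)
                (CovZ.leaf K2_ok TH_l5872 _))))
             (CovZ.n1 (-46080, 46224) (by decide +kernel)
              (CovZ.n2 (-46152, 46152) (by decide +kernel)
               (CovZ.n2 (-46152, 46224) (by decide +kernel)
                (CovZ.leaf K2_ok TH_l5873 _)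
                (CovZ.leaf K2_ok TH_l5874 _))
               (CovZ.n1 (-46080, 46152) (by decide +kernel)
                (CovZ.leaf K2_ok TH_l5875 _)
                (CovZ.leaf K2_ok TH_l5876 _)))
              (CovZ.n1 (-46152, 46296) (by decide +kernel)
               (CovZ.n2 (-46080, 46296) (by decide +kernel)
                (CovZ.leaf K2_ok TH_l5877 _)
                (CovZ.leaf K2_ok TH_l5878 _))
               (CovZ.n1 (-46152, 46224) (by decide +kernel)
                (CovZ.leaf K2_ok TH_l5879 _)
                (CovZ.leaf K2_ok TH_l5880 _)))))
            (CovZ.n1 (-46224, 46512) (by decide +kernel)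
             (CovZ.n2 (-46080, 46512) (by decide +kernel)
              (CovZ.n2 (-46152, 46440) (by decide +kernel)
               (CovZ.n2 (-46152, 46512) (by decide +kernel)
                (CovZ.leaf K2_ok TH_l5881 _)
                (CovZ.leaf K2_ok TH_l5882 _))
               (CovZ.n1 (-46080, 46440) (by decide +kernel)
                (CovZ.leaf K2_ok TH_l5883 _)
                (CovZ.leaf K2_ok TH_l5884 _)))
              (CovZ.n1 (-46152, 46584) (by decide +kernel)
               (CovZ.leaf K2_ok TH_l5885 _)
               (CovZ.n1 (-46152, 46512) (by decide +kernel)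
                (CovZ.leaf K2_ok TH_l5886 _)
                (CovZ.leaf K2_ok TH_l5887 _))))
             (CovZ.n1 (-46224, 46368) (by decide +kernel)
              (CovZ.n2 (-46296, 46440) (by decide +kernel)
               (CovZ.leaf K2_ok TH_l5888 _)
               (CovZ.n1 (-46296, 46368) (by decide +kernel)
                (CovZ.leaf K2_ok TH_l5889 _)
                (CovZ.leaf K2_ok TH_l5890 _)))
              (CovZ.n1 (-46152, 46440) (by decide +kernel)
               (CovZ.n2 (-46152, 46368) (by decide +kernel)
                (CovZ.leaf K2_ok TH_l5891 _)
                (CovZ.leaf K2_ok TH_l5892 _))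
               (CovZ.leaf K2_ok TH_l5893 _))))))
          (CovZ.n1 (-46368, 46944) (by decide +kernel)
           (CovZ.n2 (-46080, 46944) (by decide +kernel)
            (CovZ.n2 (-46224, 46800) (by decide +kernel)
             (CovZ.n2 (-46224, 46944) (by decide +kernel)
              (CovZ.n2 (-46152, 46872) (by decide +kernel)
               (CovZ.leaf K2_ok TH_l5894 _)
               (CovZ.n1 (-46152, 46944) (by decide +kernel)
                (CovZ.leaf K2_ok TH_l5895 _)
                (CovZ.leaf K2_ok TH_l5896 _)))
              (CovZ.n1 (-46296, 46872) (by decide +kernel)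
               (CovZ.leaf K2_ok TH_l5897 _)
               (CovZ.leaf K2_ok TH_l5898 _)))
             (CovZ.n1 (-46080, 46800) (by decide +kernel)
              (CovZ.n2 (-46152, 46728) (by decide +kernel)
               (CovZ.n2 (-46152, 46800) (by decide +kernel)
                (CovZ.leaf K2_ok TH_l5899 _)
                (CovZ.leaf K2_ok TH_l5900 _))
               (CovZ.n1 (-46080, 46728) (by decide +kernel)
                (CovZ.leaf K2_ok TH_l5901 _)
                (CovZ.leaf K2_ok TH_l5902 _)))
              (CovZ.n1 (-46152, 46872) (by decide +kernel)
               (CovZ.leaf K2_ok TH_l5903 _)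
               (CovZ.n1 (-46152, 46800) (by decide +kernel)
                (CovZ.leaf K2_ok TH_l5904 _)
                (CovZ.leaf K2_ok TH_l5905 _)))))
            (CovZ.n1 (-46224, 47088) (by decide +kernel)
             (CovZ.n2 (-46080, 47088) (by decide +kernel)
              (CovZ.n2 (-46152, 47016) (by decide +kernel)
               (CovZ.n2 (-46152, 47088) (by decide +kernel)
                (CovZ.leaf K2_ok TH_l5906 _)
                (CovZ.leaf K2_ok TH_l5907 _))
               (CovZ.leaf K2_ok TH_l5908 _))
              (CovZ.n1 (-46152, 47160) (by decide +kernel)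
               (CovZ.leaf K2_ok TH_l5909 _)
               (CovZ.leaf K2_ok TH_l5910 _)))
             (CovZ.n1 (-46224, 46944) (by decide +kernel)
              (CovZ.n2 (-46296, 47016) (by decide +kernel)
               (CovZ.leaf K2_ok TH_l5911 _)
               (CovZ.leaf K2_ok TH_l5912 _))
              (CovZ.n1 (-46152, 47016) (by decide +kernel)
               (CovZ.n2 (-46152, 46944) (by decide +kernel)
                (CovZ.leaf K2_ok TH_l5913 _)
                (CovZ.leaf K2_ok TH_l5914 _))
               (CovZ.leaf K2_ok TH_l5915 _)))))
           (CovZ.n1 (-46368, 46656) (by decide +kernel)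
            (CovZ.n2 (-46512, 46800) (by decide +kernel)
             (CovZ.n2 (-46368, 46800) (by decide +kernel)
              (CovZ.n2 (-46440, 46728) (by decide +kernel)
               (CovZ.leaf K2_ok TH_l5916 _)
               (CovZ.leaf K2_ok TH_l5917 _))
              (CovZ.n1 (-46440, 46872) (by decide +kernel)
               (CovZ.leaf K2_ok TH_l5918 _)
               (CovZ.leaf K2_ok TH_l5919 _)))
             (CovZ.n1 (-46512, 46656) (by decide +kernel)
              (CovZ.leaf K2_ok TH_l5920 _)
              (CovZ.n1 (-46440, 46728) (by decide +kernel)
               (CovZ.leaf K2_ok TH_l5921 _)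
               (CovZ.leaf K2_ok TH_l5922 _))))
            (CovZ.n1 (-46224, 46800) (by decide +kernel)
             (CovZ.n2 (-46224, 46656) (by decide +kernel)
              (CovZ.n2 (-46296, 46728) (by decide +kernel)
               (CovZ.leaf K2_ok TH_l5923 _)
               (CovZ.leaf K2_ok TH_l5924 _))
              (CovZ.n1 (-46152, 46728) (by decide +kernel)
               (CovZ.n2 (-46152, 46656) (by decide +kernel)
                (CovZ.leaf K2_ok TH_l5925 _)
                (CovZ.leaf K2_ok TH_l5926 _))
               (CovZ.leaf K2_ok TH_l5927 _)))
             (CovZ.n1 (-46368, 46800) (by decide +kernel)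
              (CovZ.n2 (-46296, 46872) (by decide +kernel)
               (CovZ.n2 (-46296, 46800) (by decide +kernel)
                (CovZ.leaf K2_ok TH_l5928 _)
                (CovZ.leaf K2_ok TH_l5929 _))
               (CovZ.leaf K2_ok TH_l5930 _))
              (CovZ.n1 (-46296, 46728) (by decide +kernel)
               (CovZ.leaf K2_ok TH_l5931 _)
               (CovZ.n1 (-46296, 46800) (by decide +kernel)
                (CovZ.leaf K2_ok TH_l5932 _)
                (CovZ.leaf K2_ok TH_l5933 _)))))))))

theorem TH_u84 : CovZ TH_M (toL (selN TH_LN 3211307308593602029703905773621947617675051008)) [0, 7, 6, 1] (-46080, 47232) (-46080, 48384) (-47232, 47232) :=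
    (CovZ.n1 (-46656, 47808) (by decide +kernel)
         (CovZ.n2 (-46080, 47808) (by decide +kernel)
          (CovZ.n2 (-46368, 47520) (by decide +kernel)
           (CovZ.n2 (-46368, 47808) (by decide +kernel)
            (CovZ.n2 (-46224, 47664) (by decide +kernel)
             (CovZ.n2 (-46368, 47664) (by decide +kernel)
              (CovZ.leaf K2_ok TH_l5934 _)
              (CovZ.n1 (-46296, 47592) (by decide +kernel)
               (CovZ.leaf K2_ok TH_l5935 _)
               (CovZ.leaf K2_ok TH_l5936 _)))
             (CovZ.n1 (-46224, 47808) (by decide +kernel)
              (CovZ.n2 (-46152, 47736) (by decide +kernel)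
               (CovZ.leaf K2_ok TH_l5937 _)
               (CovZ.leaf K2_ok TH_l5938 _))
              (CovZ.leaf K2_ok TH_l5939 _)))
            (CovZ.n1 (-46512, 47664) (by decide +kernel)
             (CovZ.n2 (-46512, 47808) (by decide +kernel)
              (CovZ.leaf K2_ok TH_l5940 _)
              (CovZ.leaf K2_ok TH_l5941 _))
             (CovZ.n1 (-46368, 47664) (by decide +kernel)
              (CovZ.leaf K2_ok TH_l5942 _)
              (CovZ.leaf K2_ok TH_l5943 _))))
           (CovZ.n1 (-46080, 47520) (by decide +kernel)
            (CovZ.n2 (-46224, 47376) (by decide +kernel)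
             (CovZ.n2 (-46224, 47520) (by decide +kernel)
              (CovZ.n2 (-46152, 47448) (by decide +kernel)
               (CovZ.leaf K2_ok TH_l5944 _)
               (CovZ.leaf K2_ok TH_l5945 _))
              (CovZ.leaf K2_ok TH_l5946 _))
             (CovZ.n1 (-46080, 47376) (by decide +kernel)
              (CovZ.n2 (-46152, 47304) (by decide +kernel)
               (CovZ.leaf K2_ok TH_l5947 _)
               (CovZ.leaf K2_ok TH_l5948 _))
              (CovZ.n1 (-46152, 47448) (by decide +kernel)
               (CovZ.leaf K2_ok TH_l5949 _)
               (CovZ.leaf K2_ok TH_l5950 _))))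
            (CovZ.n1 (-46224, 47664) (by decide +kernel)
             (CovZ.n2 (-46080, 47664) (by decide +kernel)
              (CovZ.n2 (-46152, 47592) (by decide +kernel)
               (CovZ.leaf K2_ok TH_l5951 _)
               (CovZ.leaf K2_ok TH_l5952 _))
              (CovZ.leaf K2_ok TH_l5953 _))
             (CovZ.n1 (-46224, 47520) (by decide +kernel)
              (CovZ.leaf K2_ok TH_l5954 _)
              (CovZ.n1 (-46152, 47592) (by decide +kernel)
               (CovZ.leaf K2_ok TH_l5955 _)
               (CovZ.leaf K2_ok TH_l5956 _))))))
          (CovZ.n1 (-46368, 48096) (by decide +kernel)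
           (CovZ.n2 (-46080, 48096) (by decide +kernel)
            (CovZ.n2 (-46224, 47952) (by decide +kernel)
             (CovZ.n2 (-46224, 48096) (by decide +kernel)
              (CovZ.leaf K2_ok TH_l5957 _)
              (CovZ.leaf K2_ok TH_l5958 _))
             (CovZ.n1 (-46080, 47952) (by decide +kernel)
              (CovZ.leaf K2_ok TH_l5959 _)
              (CovZ.leaf K2_ok TH_l5960 _)))
            (CovZ.n1 (-46224, 48240) (by decide +kernel)
             (CovZ.n2 (-46080, 48240) (by decide +kernel)
              (CovZ.leaf K2_ok TH_l5961 _)
              (CovZ.leaf K2_ok TH_l5962 _))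
             (CovZ.n1 (-46224, 48096) (by decide +kernel)
              (CovZ.leaf K2_ok TH_l5963 _)
              (CovZ.leaf K2_ok TH_l5964 _))))
           (CovZ.n1 (-46368, 47808) (by decide +kernel)
            (CovZ.n2 (-46512, 47952) (by decide +kernel)
             (CovZ.n2 (-46368, 47952) (by decide +kernel)
              (CovZ.leaf K2_ok TH_l5965 _)
              (CovZ.leaf K2_ok TH_l5966 _))
             (CovZ.n1 (-46512, 47808) (by decide +kernel)
              (CovZ.leaf K2_ok TH_l5967 _)
              (CovZ.leaf K2_ok TH_l5968 _)))
            (CovZ.n1 (-46224, 47952) (by decide +kernel)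
             (CovZ.n2 (-46224, 47808) (by decide +kernel)
              (CovZ.leaf K2_ok TH_l5969 _)
              (CovZ.leaf K2_ok TH_l5970 _))
             (CovZ.n1 (-46368, 47952) (by decide +kernel)
              (CovZ.leaf K2_ok TH_l5971 _)
              (CovZ.leaf K2_ok TH_l5972 _))))))
         (CovZ.n1 (-46656, 47232) (by decide +kernel)
          (CovZ.n2 (-46944, 47520) (by decide +kernel)
           (CovZ.n2 (-46656, 47520) (by decide +kernel)
            (CovZ.n2 (-46800, 47376) (by decide +kernel)
             (CovZ.n2 (-46800, 47520) (by decide +kernel)
              (CovZ.leaf K2_ok TH_l5973 _)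
              (CovZ.leaf K2_ok TH_l5974 _))
             (CovZ.n1 (-46656, 47376) (by decide +kernel)
              (CovZ.leaf K2_ok TH_l5975 _)
              (CovZ.leaf K2_ok TH_l5976 _)))
            (CovZ.n1 (-46800, 47664) (by decide +kernel)
             (CovZ.leaf K2_ok TH_l5977 _)
             (CovZ.n1 (-46800, 47520) (by decide +kernel)
              (CovZ.leaf K2_ok TH_l5978 _)
              (CovZ.leaf K2_ok TH_l5979 _))))
           (CovZ.n1 (-46944, 47232) (by decide +kernel)
            (CovZ.n2 (-47088, 47376) (by decide +kernel)
             (CovZ.leaf K2_ok TH_l5980 _)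
             (CovZ.n1 (-47088, 47232) (by decide +kernel)
              (CovZ.leaf K2_ok TH_l5981 _)
              (CovZ.leaf K2_ok TH_l5982 _)))
            (CovZ.n1 (-46800, 47376) (by decide +kernel)
             (CovZ.n2 (-46800, 47232) (by decide +kernel)
              (CovZ.leaf K2_ok TH_l5983 _)
              (CovZ.leaf K2_ok TH_l5984 _))
             (CovZ.leaf K2_ok TH_l5985 _))))
          (CovZ.n1 (-46368, 47520) (by decide +kernel)
           (CovZ.n2 (-46368, 47232) (by decide +kernel)
            (CovZ.n2 (-46512, 47376) (by decide +kernel)
             (CovZ.n2 (-46368, 47376) (by decide +kernel)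
              (CovZ.leaf K2_ok TH_l5986 _)
              (CovZ.leaf K2_ok TH_l5987 _))
             (CovZ.n1 (-46512, 47232) (by decide +kernel)
              (CovZ.leaf K2_ok TH_l5988 _)
              (CovZ.leaf K2_ok TH_l5989 _)))
            (CovZ.n1 (-46224, 47376) (by decide +kernel)
             (CovZ.n2 (-46224, 47232) (by decide +kernel)
              (CovZ.leaf K2_ok TH_l5990 _)
              (CovZ.n1 (-46152, 47304) (by decide +kernel)
               (CovZ.leaf K2_ok TH_l5991 _)
               (CovZ.leaf K2_ok TH_l5992 _)))
             (CovZ.n1 (-46368, 47376) (by decide +kernel)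
              (CovZ.leaf K2_ok TH_l5993 _)
              (CovZ.n1 (-46296, 47304) (by decide +kernel)
               (CovZ.leaf K2_ok TH_l5994 _)
               (CovZ.leaf K2_ok TH_l5995 _)))))
           (CovZ.n1 (-46656, 47520) (by decide +kernel)
            (CovZ.n2 (-46512, 47664) (by decide +kernel)
             (CovZ.n2 (-46512, 47520) (by decide +kernel)
              (CovZ.leaf K2_ok TH_l5996 _)
              (CovZ.leaf K2_ok TH_l5997 _))
             (CovZ.n1 (-46656, 47664) (by decide +kernel)
              (CovZ.leaf K2_ok TH_l5998 _)
              (CovZ.leaf K2_ok TH_l5999 _)))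
            (CovZ.n1 (-46512, 47376) (by decide +kernel)
             (CovZ.n2 (-46656, 47376) (by decide +kernel)
              (CovZ.leaf K2_ok TH_l6000 _)
              (CovZ.leaf K2_ok TH_l6001 _))
             (CovZ.n1 (-46512, 47520) (by decide +kernel)
              (CovZ.leaf K2_ok TH_l6002 _)
              (CovZ.leaf K2_ok TH_l6003 _)))))))

theorem TH_u85 : CovZ TH_M (toL (selN TH_LN 3211307308593602029703905773621947617675051008)) [0, 7, 6, 1] (-46080, 46080) (-46080, 48384) (-48384, 48384) :=
    (CovZ.n2 (-47232, 47232) (by decide +kernel)
       (CovZ.n2 (-47232, 48384) (by decide +kernel)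
        (CovZ.n2 (-46656, 47808) (by decide +kernel)
         (CovZ.n2 (-47232, 47808) (by decide +kernel)
          (CovZ.n2 (-46944, 48096) (by decide +kernel)
           (CovZ.n2 (-46944, 47808) (by decide +kernel)
            (CovZ.n2 (-47088, 47952) (by decide +kernel)
             (CovZ.leaf K2_ok TH_l5751 _)
             (CovZ.leaf K2_ok TH_l5752 _))
            (CovZ.n1 (-46800, 47952) (by decide +kernel)
             (CovZ.n2 (-46800, 47808) (by decide +kernel)
              (CovZ.leaf K2_ok TH_l5753 _)
              (CovZ.leaf K2_ok TH_l5754 _))
             (CovZ.leaf K2_ok TH_l5755 _)))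
           (CovZ.n1 (-47232, 48096) (by decide +kernel)
            (CovZ.n2 (-47088, 48240) (by decide +kernel)
             (CovZ.leaf K2_ok TH_l5756 _)
             (CovZ.leaf K2_ok TH_l5757 _))
            (CovZ.n1 (-47088, 47952) (by decide +kernel)
             (CovZ.leaf K2_ok TH_l5758 _)
             (CovZ.leaf K2_ok TH_l5759 _))))
          (CovZ.n1 (-46944, 47520) (by decide +kernel)
           (CovZ.n2 (-47232, 47520) (by decide +kernel)
            (CovZ.n2 (-47088, 47664) (by decide +kernel)
             (CovZ.leaf K2_ok TH_l5760 _)
             (CovZ.leaf K2_ok TH_l5761 _))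
            (CovZ.n1 (-47088, 47376) (by decide +kernel)
             (CovZ.leaf K2_ok TH_l5762 _)
             (CovZ.n1 (-47088, 47520) (by decide +kernel)
              (CovZ.leaf K2_ok TH_l5763 _)
              (CovZ.leaf K2_ok TH_l5764 _))))
           (CovZ.n1 (-46944, 47808) (by decide +kernel)
            (CovZ.n2 (-46800, 47664) (by decide +kernel)
             (CovZ.leaf K2_ok TH_l5765 _)
             (CovZ.n1 (-46800, 47808) (by decide +kernel)
              (CovZ.leaf K2_ok TH_l5766 _)
              (CovZ.leaf K2_ok TH_l5767 _)))
            (CovZ.n1 (-47088, 47664) (by decide +kernel)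
             (CovZ.leaf K2_ok TH_l5768 _)
             (CovZ.leaf K2_ok TH_l5769 _)))))
         (CovZ.n1 (-46656, 48384) (by decide +kernel)
          (CovZ.n2 (-46368, 48096) (by decide +kernel)
           (CovZ.n2 (-46656, 48096) (by decide +kernel)
            (CovZ.n2 (-46512, 48240) (by decide +kernel)
             (CovZ.n2 (-46512, 48096) (by decide +kernel)
              (CovZ.leaf K2_ok TH_l5770 _)
              (CovZ.leaf K2_ok TH_l5771 _))
             (CovZ.leaf K2_ok TH_l5772 _))
            (CovZ.n1 (-46512, 47952) (by decide +kernel)
             (CovZ.leaf K2_ok TH_l5773 _)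
             (CovZ.n1 (-46512, 48096) (by decide +kernel)
              (CovZ.leaf K2_ok TH_l5774 _)
              (CovZ.leaf K2_ok TH_l5775 _))))
           (CovZ.n1 (-46368, 48384) (by decide +kernel)
            (CovZ.n2 (-46224, 48240) (by decide +kernel)
             (CovZ.n2 (-46368, 48240) (by decide +kernel)
              (CovZ.leaf K2_ok TH_l5776 _)
              (CovZ.leaf K2_ok TH_l5777 _))
             (CovZ.n1 (-46224, 48384) (by decide +kernel)
              (CovZ.leaf K2_ok TH_l5778 _)
              (CovZ.leaf K2_ok TH_l5779 _)))
            (CovZ.n1 (-46512, 48240) (by decide +kernel)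
             (CovZ.n2 (-46512, 48384) (by decide +kernel)
              (CovZ.leaf K2_ok TH_l5780 _)
              (CovZ.leaf K2_ok TH_l5781 _))
             (CovZ.n1 (-46368, 48240) (by decide +kernel)
              (CovZ.leaf K2_ok TH_l5782 _)
              (CovZ.leaf K2_ok TH_l5783 _)))))
          (CovZ.n1 (-46944, 48096) (by decide +kernel)
           (CovZ.n2 (-46944, 48384) (by decide +kernel)
            (CovZ.n2 (-46800, 48240) (by decide +kernel)
             (CovZ.leaf K2_ok TH_l5784 _)
             (CovZ.leaf K2_ok TH_l5785 _))
            (CovZ.n1 (-47088, 48240) (by decide +kernel)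
             (CovZ.leaf K2_ok TH_l5786 _)
             (CovZ.leaf K2_ok TH_l5787 _)))
           (CovZ.n1 (-46656, 48096) (by decide +kernel)
            (CovZ.n2 (-46800, 47952) (by decide +kernel)
             (CovZ.n2 (-46800, 48096) (by decide +kernel)
              (CovZ.leaf K2_ok TH_l5788 _)
              (CovZ.leaf K2_ok TH_l5789 _))
             (CovZ.leaf K2_ok TH_l5790 _))
            (CovZ.n1 (-46800, 48240) (by decide +kernel)
             (CovZ.leaf K2_ok TH_l5791 _)
             (CovZ.n1 (-46800, 48096) (by decide +kernel)
              (CovZ.leaf K2_ok TH_l5792 _)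
              (CovZ.leaf K2_ok TH_l5793 _)))))))
        (CovZ.n1 (-47808, 47808) (by decide +kernel)
         (CovZ.n2 (-47808, 48384) (by decide +kernel)
          (CovZ.n2 (-47520, 48096) (by decide +kernel)
           (CovZ.n2 (-47808, 48096) (by decide +kernel)
            (CovZ.leaf K2_ok TH_l5794 _)
            (CovZ.leaf K2_ok TH_l5795 _))
           (CovZ.n1 (-47520, 48384) (by decide +kernel)
            (CovZ.leaf K2_ok TH_l5796 _)
            (CovZ.leaf K2_ok TH_l5797 _)))
          (CovZ.n1 (-48096, 48096) (by decide +kernel)
           (CovZ.n2 (-48096, 48384) (by decide +kernel)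
            (CovZ.leaf K2_ok TH_l5798 _)
            (CovZ.leaf K2_ok TH_l5799 _))
           (CovZ.n1 (-47808, 48096) (by decide +kernel)
            (CovZ.leaf K2_ok TH_l5800 _)
            (CovZ.leaf K2_ok TH_l5801 _))))
         (CovZ.n1 (-47232, 47808) (by decide +kernel)
          (CovZ.n2 (-47520, 47520) (by decide +kernel)
           (CovZ.n2 (-47520, 47808) (by decide +kernel)
            (CovZ.n2 (-47376, 47664) (by decide +kernel)
             (CovZ.leaf K2_ok TH_l5802 _)
             (CovZ.leaf K2_ok TH_l5803 _))
            (CovZ.leaf K2_ok TH_l5804 _))
           (CovZ.n1 (-47232, 47520) (by decide +kernel)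
            (CovZ.n2 (-47376, 47376) (by decide +kernel)
             (CovZ.leaf K2_ok TH_l5805 _)
             (CovZ.leaf K2_ok TH_l5806 _))
            (CovZ.n1 (-47376, 47664) (by decide +kernel)
             (CovZ.leaf K2_ok TH_l5807 _)
             (CovZ.leaf K2_ok TH_l5808 _))))
          (CovZ.n1 (-47520, 48096) (by decide +kernel)
           (CovZ.n2 (-47232, 48096) (by decide +kernel)
            (CovZ.leaf K2_ok TH_l5809 _)
            (CovZ.leaf K2_ok TH_l5810 _))
           (CovZ.n1 (-47520, 47808) (by decide +kernel)
            (CovZ.leaf K2_ok TH_l5811 _)
            (CovZ.n1 (-47376, 47952) (by decide +kernel)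
             (CovZ.leaf K2_ok TH_l5812 _)
             (CovZ.leaf K2_ok TH_l5813 _)))))))
       (CovZ.n1 (-46080, 47232) (by decide +kernel)
        TH_u83
        TH_u84))

theorem TH_u86 : CovZ TH_M (toL (selN TH_LN 3211307308593602029703905773621947617675051008)) [0, 7, 6, 1] (-46080, 48384) (-46080, 50688) (-48384, 48384) :=
    (CovZ.n1 (-47232, 49536) (by decide +kernel)
       (CovZ.n2 (-46080, 49536) (by decide +kernel)
        (CovZ.n2 (-46656, 48960) (by decide +kernel)
         (CovZ.n2 (-46656, 49536) (by decide +kernel)
          (CovZ.n2 (-46368, 49248) (by decide +kernel)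
           (CovZ.n2 (-46656, 49248) (by decide +kernel)
            (CovZ.n2 (-46512, 49392) (by decide +kernel)
             (CovZ.n2 (-46512, 49248) (by decide +kernel)
              (CovZ.leaf K2_ok TH_l6004 _)
              (CovZ.leaf K2_ok TH_l6005 _))
             (CovZ.leaf K2_ok TH_l6006 _))
            (CovZ.n1 (-46512, 49104) (by decide +kernel)
             (CovZ.leaf K2_ok TH_l6007 _)
             (CovZ.leaf K2_ok TH_l6008 _)))
           (CovZ.n1 (-46368, 49536) (by decide +kernel)
            (CovZ.n2 (-46224, 49392) (by decide +kernel)
             (CovZ.leaf K2_ok TH_l6009 _)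
             (CovZ.n1 (-46224, 49536) (by decide +kernel)
              (CovZ.leaf K2_ok TH_l6010 _)
              (CovZ.leaf K2_ok TH_l6011 _)))
            (CovZ.n1 (-46512, 49392) (by decide +kernel)
             (CovZ.leaf K2_ok TH_l6012 _)
             (CovZ.leaf K2_ok TH_l6013 _))))
          (CovZ.n1 (-46944, 49248) (by decide +kernel)
           (CovZ.n2 (-46944, 49536) (by decide +kernel)
            (CovZ.n2 (-46800, 49392) (by decide +kernel)
             (CovZ.leaf K2_ok TH_l6014 _)
             (CovZ.leaf K2_ok TH_l6015 _))
            (CovZ.n1 (-47088, 49392) (by decide +kernel)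
             (CovZ.leaf K2_ok TH_l6016 _)
             (CovZ.leaf K2_ok TH_l6017 _)))
           (CovZ.n1 (-46656, 49248) (by decide +kernel)
            (CovZ.n2 (-46800, 49104) (by decide +kernel)
             (CovZ.leaf K2_ok TH_l6018 _)
             (CovZ.leaf K2_ok TH_l6019 _))
            (CovZ.n1 (-46800, 49392) (by decide +kernel)
             (CovZ.leaf K2_ok TH_l6020 _)
             (CovZ.leaf K2_ok TH_l6021 _)))))
         (CovZ.n1 (-46080, 48960) (by decide +kernel)
          (CovZ.n2 (-46368, 48672) (by decide +kernel)
           (CovZ.n2 (-46368, 48960) (by decide +kernel)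
            (CovZ.n2 (-46224, 48816) (by decide +kernel)
             (CovZ.leaf K2_ok TH_l6022 _)
             (CovZ.n1 (-46224, 48960) (by decide +kernel)
              (CovZ.leaf K2_ok TH_l6023 _)
              (CovZ.leaf K2_ok TH_l6024 _)))
            (CovZ.n1 (-46512, 48816) (by decide +kernel)
             (CovZ.n2 (-46512, 48960) (by decide +kernel)
              (CovZ.leaf K2_ok TH_l6025 _)
              (CovZ.leaf K2_ok TH_l6026 _))
             (CovZ.leaf K2_ok TH_l6027 _)))
           (CovZ.n1 (-46080, 48672) (by decide +kernel)
            (CovZ.n2 (-46224, 48528) (by decide +kernel)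
             (CovZ.n2 (-46224, 48672) (by decide +kernel)
              (CovZ.leaf K2_ok TH_l6028 _)
              (CovZ.leaf K2_ok TH_l6029 _))
             (CovZ.n1 (-46080, 48528) (by decide +kernel)
              (CovZ.leaf K2_ok TH_l6030 _)
              (CovZ.leaf K2_ok TH_l6031 _)))
            (CovZ.n1 (-46224, 48816) (by decide +kernel)
             (CovZ.n2 (-46080, 48816) (by decide +kernel)
              (CovZ.leaf K2_ok TH_l6032 _)
              (CovZ.leaf K2_ok TH_l6033 _))
             (CovZ.n1 (-46224, 48672) (by decide +kernel)
              (CovZ.leaf K2_ok TH_l6034 _)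
              (CovZ.leaf K2_ok TH_l6035 _)))))
          (CovZ.n1 (-46368, 49248) (by decide +kernel)
           (CovZ.n2 (-46080, 49248) (by decide +kernel)
            (CovZ.n2 (-46224, 49104) (by decide +kernel)
             (CovZ.n2 (-46224, 49248) (by decide +kernel)
              (CovZ.leaf K2_ok TH_l6036 _)
              (CovZ.leaf K2_ok TH_l6037 _))
             (CovZ.n1 (-46080, 49104) (by decide +kernel)
              (CovZ.leaf K2_ok TH_l6038 _)
              (CovZ.leaf K2_ok TH_l6039 _)))
            (CovZ.n1 (-46224, 49392) (by decide +kernel)
             (CovZ.leaf K2_ok TH_l6040 _)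
             (CovZ.n1 (-46224, 49248) (by decide +kernel)
              (CovZ.leaf K2_ok TH_l6041 _)
              (CovZ.leaf K2_ok TH_l6042 _))))
           (CovZ.n1 (-46368, 48960) (by decide +kernel)
            (CovZ.n2 (-46512, 49104) (by decide +kernel)
             (CovZ.leaf K2_ok TH_l6043 _)
             (CovZ.n1 (-46512, 48960) (by decide +kernel)
              (CovZ.leaf K2_ok TH_l6044 _)
              (CovZ.leaf K2_ok TH_l6045 _)))
            (CovZ.n1 (-46224, 49104) (by decide +kernel)
             (CovZ.n2 (-46224, 48960) (by decide +kernel)
              (CovZ.leaf K2_ok TH_l6046 _)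
              (CovZ.leaf K2_ok TH_l6047 _))
             (CovZ.leaf K2_ok TH_l6048 _))))))
        (CovZ.n1 (-46656, 50112) (by decide +kernel)
         (CovZ.n2 (-46080, 50112) (by decide +kernel)
          (CovZ.n2 (-46368, 49824) (by decide +kernel)
           (CovZ.n2 (-46368, 50112) (by decide +kernel)
            (CovZ.n2 (-46224, 49968) (by decide +kernel)
             (CovZ.leaf K2_ok TH_l6049 _)
             (CovZ.leaf K2_ok TH_l6050 _))
            (CovZ.n1 (-46512, 49968) (by decide +kernel)
             (CovZ.leaf K2_ok TH_l6051 _)
             (CovZ.leaf K2_ok TH_l6052 _)))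
           (CovZ.n1 (-46080, 49824) (by decide +kernel)
            (CovZ.n2 (-46224, 49680) (by decide +kernel)
             (CovZ.n2 (-46224, 49824) (by decide +kernel)
              (CovZ.leaf K2_ok TH_l6053 _)
              (CovZ.leaf K2_ok TH_l6054 _))
             (CovZ.leaf K2_ok TH_l6055 _))
            (CovZ.n1 (-46224, 49968) (by decide +kernel)
             (CovZ.leaf K2_ok TH_l6056 _)
             (CovZ.n1 (-46224, 49824) (by decide +kernel)
              (CovZ.leaf K2_ok TH_l6057 _)
              (CovZ.leaf K2_ok TH_l6058 _)))))
          (CovZ.n1 (-46368, 50400) (by decide +kernel)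
           (CovZ.n2 (-46080, 50400) (by decide +kernel)
            (CovZ.n2 (-46224, 50256) (by decide +kernel)
             (CovZ.leaf K2_ok TH_l6059 _)
             (CovZ.leaf K2_ok TH_l6060 _))
            (CovZ.n1 (-46224, 50544) (by decide +kernel)
             (CovZ.leaf K2_ok TH_l6061 _)
             (CovZ.leaf K2_ok TH_l6062 _)))
           (CovZ.n1 (-46368, 50112) (by decide +kernel)
            (CovZ.n2 (-46512, 50256) (by decide +kernel)
             (CovZ.leaf K2_ok TH_l6063 _)
             (CovZ.leaf K2_ok TH_l6064 _))
            (CovZ.n1 (-46224, 50256) (by decide +kernel)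
             (CovZ.leaf K2_ok TH_l6065 _)
             (CovZ.leaf K2_ok TH_l6066 _)))))
         (CovZ.n1 (-46656, 49536) (by decide +kernel)
          (CovZ.n2 (-46944, 49824) (by decide +kernel)
           (CovZ.n2 (-46656, 49824) (by decide +kernel)
            (CovZ.n2 (-46800, 49680) (by decide +kernel)
             (CovZ.leaf K2_ok TH_l6067 _)
             (CovZ.leaf K2_ok TH_l6068 _))
            (CovZ.n1 (-46800, 49968) (by decide +kernel)
             (CovZ.leaf K2_ok TH_l6069 _)
             (CovZ.leaf K2_ok TH_l6070 _)))
           (CovZ.n1 (-46944, 49536) (by decide +kernel)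
            (CovZ.leaf K2_ok TH_l6071 _)
            (CovZ.leaf K2_ok TH_l6072 _)))
          (CovZ.n1 (-46368, 49824) (by decide +kernel)
           (CovZ.n2 (-46368, 49536) (by decide +kernel)
            (CovZ.n2 (-46512, 49680) (by decide +kernel)
             (CovZ.leaf K2_ok TH_l6073 _)
             (CovZ.leaf K2_ok TH_l6074 _))
            (CovZ.n1 (-46224, 49680) (by decide +kernel)
             (CovZ.n2 (-46224, 49536) (by decide +kernel)
              (CovZ.leaf K2_ok TH_l6075 _)
              (CovZ.leaf K2_ok TH_l6076 _))
             (CovZ.leaf K2_ok TH_l6077 _)))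
           (CovZ.n1 (-46656, 49824) (by decide +kernel)
            (CovZ.leaf K2_ok TH_l6078 _)
            (CovZ.n1 (-46512, 49680) (by decide +kernel)
             (CovZ.leaf K2_ok TH_l6079 _)
             (CovZ.leaf K2_ok TH_l6080 _)))))))
       (CovZ.n1 (-47232, 48384) (by decide +kernel)
        (CovZ.n2 (-47808, 48960) (by decide +kernel)
         (CovZ.n2 (-47232, 48960) (by decide +kernel)
          (CovZ.n2 (-47520, 48672) (by decide +kernel)
           (CovZ.n2 (-47520, 48960) (by decide +kernel)
            (CovZ.leaf K2_ok TH_l6081 _)
            (CovZ.leaf K2_ok TH_l6082 _))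
           (CovZ.n1 (-47232, 48672) (by decide +kernel)
            (CovZ.leaf K2_ok TH_l6083 _)
            (CovZ.leaf K2_ok TH_l6084 _)))
          (CovZ.n1 (-47520, 49248) (by decide +kernel)
           (CovZ.n2 (-47232, 49248) (by decide +kernel)
            (CovZ.leaf K2_ok TH_l6085 _)
            (CovZ.leaf K2_ok TH_l6086 _))
           (CovZ.n1 (-47520, 48960) (by decide +kernel)
            (CovZ.leaf K2_ok TH_l6087 _)
            (CovZ.leaf K2_ok TH_l6088 _))))
         (CovZ.n1 (-47808, 48384) (by decide +kernel)
          (CovZ.n2 (-48096, 48672) (by decide +kernel)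
           (CovZ.n2 (-47808, 48672) (by decide +kernel)
            (CovZ.leaf K2_ok TH_l6089 _)
            (CovZ.leaf K2_ok TH_l6090 _))
           (CovZ.n1 (-48096, 48384) (by decide +kernel)
            (CovZ.leaf K2_ok TH_l6091 _)
            (CovZ.leaf K2_ok TH_l6092 _)))
          (CovZ.n1 (-47520, 48672) (by decide +kernel)
           (CovZ.n2 (-47520, 48384) (by decide +kernel)
            (CovZ.leaf K2_ok TH_l6093 _)
            (CovZ.leaf K2_ok TH_l6094 _))
           (CovZ.n1 (-47808, 48672) (by decide +kernel)
            (CovZ.leaf K2_ok TH_l6095 _)
            (CovZ.leaf K2_ok TH_l6096 _)))))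
        (CovZ.n1 (-46656, 48960) (by decide +kernel)
         (CovZ.n2 (-46656, 48384) (by decide +kernel)
          (CovZ.n2 (-46944, 48672) (by decide +kernel)
           (CovZ.n2 (-46656, 48672) (by decide +kernel)
            (CovZ.n2 (-46800, 48528) (by decide +kernel)
             (CovZ.leaf K2_ok TH_l6097 _)
             (CovZ.leaf K2_ok TH_l6098 _))
            (CovZ.n1 (-46800, 48816) (by decide +kernel)
             (CovZ.leaf K2_ok TH_l6099 _)
             (CovZ.leaf K2_ok TH_l6100 _)))
           (CovZ.n1 (-46944, 48384) (by decide +kernel)
            (CovZ.n2 (-47088, 48528) (by decide +kernel)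
             (CovZ.leaf K2_ok TH_l6101 _)
             (CovZ.leaf K2_ok TH_l6102 _))
            (CovZ.n1 (-46800, 48528) (by decide +kernel)
             (CovZ.leaf K2_ok TH_l6103 _)
             (CovZ.leaf K2_ok TH_l6104 _))))
          (CovZ.n1 (-46368, 48672) (by decide +kernel)
           (CovZ.n2 (-46368, 48384) (by decide +kernel)
            (CovZ.n2 (-46512, 48528) (by decide +kernel)
             (CovZ.leaf K2_ok TH_l6105 _)
             (CovZ.n1 (-46512, 48384) (by decide +kernel)
              (CovZ.leaf K2_ok TH_l6106 _)
              (CovZ.leaf K2_ok TH_l6107 _)))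
            (CovZ.n1 (-46224, 48528) (by decide +kernel)
             (CovZ.n2 (-46224, 48384) (by decide +kernel)
              (CovZ.leaf K2_ok TH_l6108 _)
              (CovZ.leaf K2_ok TH_l6109 _))
             (CovZ.n1 (-46368, 48528) (by decide +kernel)
              (CovZ.leaf K2_ok TH_l6110 _)
              (CovZ.leaf K2_ok TH_l6111 _))))
           (CovZ.n1 (-46656, 48672) (by decide +kernel)
            (CovZ.n2 (-46512, 48816) (by decide +kernel)
             (CovZ.n2 (-46512, 48672) (by decide +kernel)
              (CovZ.leaf K2_ok TH_l6112 _)
              (CovZ.leaf K2_ok TH_l6113 _))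
             (CovZ.leaf K2_ok TH_l6114 _))
            (CovZ.n1 (-46512, 48528) (by decide +kernel)
             (CovZ.leaf K2_ok TH_l6115 _)
             (CovZ.n1 (-46512, 48672) (by decide +kernel)
              (CovZ.leaf K2_ok TH_l6116 _)
              (CovZ.leaf K2_ok TH_l6117 _))))))
         (CovZ.n1 (-47232, 48960) (by decide +kernel)
          (CovZ.n2 (-46944, 49248) (by decide +kernel)
           (CovZ.n2 (-46944, 48960) (by decide +kernel)
            (CovZ.leaf K2_ok TH_l6118 _)
            (CovZ.n1 (-46800, 49104) (by decide +kernel)
             (CovZ.leaf K2_ok TH_l6119 _)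
             (CovZ.leaf K2_ok TH_l6120 _)))
           (CovZ.n1 (-47232, 49248) (by decide +kernel)
            (CovZ.leaf K2_ok TH_l6121 _)
            (CovZ.leaf K2_ok TH_l6122 _)))
          (CovZ.n1 (-46944, 48672) (by decide +kernel)
           (CovZ.n2 (-47232, 48672) (by decide +kernel)
            (CovZ.leaf K2_ok TH_l6123 _)
            (CovZ.n1 (-47088, 48528) (by decide +kernel)
             (CovZ.leaf K2_ok TH_l6124 _)
             (CovZ.leaf K2_ok TH_l6125 _)))
           (CovZ.n1 (-46944, 48960) (by decide +kernel)
            (CovZ.n2 (-46800, 48816) (by decide +kernel)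
             (CovZ.leaf K2_ok TH_l6126 _)
             (CovZ.leaf K2_ok TH_l6127 _))
            (CovZ.leaf K2_ok TH_l6128 _)))))))

end Pool.Agent.TET
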