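import Pool.Agent.Helper38_TET.TI_M
import Pool.Agent.Helper38_TET.TI_L
import Pool.Agent.Helper38_TET.TI_0
import Pool.Agent.Helper38_TET.TI_1
import Pool.Agent.Helper38_TET.TI_2
import Pool.Agent.Helper38_TET.TI_3
import Pool.Agent.Helper38_TET.TI_4
import Pool.Agent.Helper38_TET.TI_5
import Pool.Agent.Helper38_TET.TI_6
import Pool.Agent.Helper38_TET.TI_7
import Pool.Agent.Helper38_TET.TI_45

/-!
# MP_c7c9bf_co: certificates, family TI
-/

set_option autoImplicit false
set_option maxRecDepth 100000

namespace Pool.Agent.TET

theorem TI_u0 : CovZ TI_M (toL (selN TI_LN 12259964326927111752135379824476651832367127685190248976)) [0, 7, 6, 1] (82944, 77184) (82368, 77184) (82368, 76608) :=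
    (CovZ.n2 (82656, 76896) (by decide +kernel)
           (CovZ.n2 (82368, 76896) (by decide +kernel)
            (CovZ.n2 (82512, 77040) (by decide +kernel)
             (CovZ.n2 (82512, 76896) (by decide +kernel)
              (CovZ.n2 (82440, 76968) (by decide +kernel)
               (CovZ.n2 (82512, 76968) (by decide +kernel)
                (CovZ.leaf K2_ok TI_l22 _)
                (CovZ.leaf K2_ok TI_l23 _))
               (CovZ.n1 (82440, 76896) (by decide +kernel)
                (CovZ.leaf K2_ok TI_l24 _)
                (CovZ.leaf K2_ok TI_l25 _)))
              (CovZ.n1 (82584, 76968) (by decide +kernel)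
               (CovZ.leaf K2_ok TI_l26 _)
               (CovZ.n1 (82512, 76968) (by decide +kernel)
                (CovZ.n2 (82548, 77004) (by decide +kernel)
                 (CovZ.leaf K2_ok TI_l27 _)
                 (CovZ.leaf K2_ok TI_l28 _))
                (CovZ.leaf K2_ok TI_l29 _))))
             (CovZ.n1 (82368, 77040) (by decide +kernel)
              (CovZ.n2 (82440, 77112) (by decide +kernel)
               (CovZ.n2 (82440, 77040) (by decide +kernel)
                (CovZ.leaf K2_ok TI_l30 _)
                (CovZ.n1 (82476, 77076) (by decide +kernel)
                 (CovZ.leaf K2_ok TI_l31 _)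
                 (CovZ.leaf K2_ok TI_l32 _)))
               (CovZ.n1 (82368, 77112) (by decide +kernel)
                (CovZ.n2 (82404, 77148) (by decide +kernel)
                 (CovZ.leaf K2_ok TI_l33 _)
                 (CovZ.leaf K2_ok TI_l34 _))
                (CovZ.leaf K2_ok TI_l35 _)))
              (CovZ.n1 (82440, 76968) (by decide +kernel)
               (CovZ.n2 (82368, 76968) (by decide +kernel)
                (CovZ.leaf K2_ok TI_l36 _)
                (CovZ.leaf K2_ok TI_l37 _))
               (CovZ.n1 (82440, 77040) (by decide +kernel)
                (CovZ.leaf K2_ok TI_l38 _)
                (CovZ.leaf K2_ok TI_l39 _)))))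
            (CovZ.n1 (82512, 76752) (by decide +kernel)
             (CovZ.n2 (82368, 76752) (by decide +kernel)
              (CovZ.n2 (82440, 76824) (by decide +kernel)
               (CovZ.leaf K2_ok TI_l40 _)
               (CovZ.leaf K2_ok TI_l41 _))
              (CovZ.leaf K2_ok TI_l42 _))
             (CovZ.n1 (82512, 76896) (by decide +kernel)
              (CovZ.n2 (82584, 76824) (by decide +kernel)
               (CovZ.leaf K2_ok TI_l43 _)
               (CovZ.leaf K2_ok TI_l44 _))
              (CovZ.n1 (82440, 76824) (by decide +kernel)
               (CovZ.leaf K2_ok TI_l45 _)
               (CovZ.leaf K2_ok TI_l46 _)))))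
           (CovZ.n1 (82656, 77184) (by decide +kernel)
            (CovZ.subM 12259964326927111037010718087234711886789105966582948368 (by decide +kernel)
             (CovZ.n2 (82800, 77040) (by decide +kernel)
              (CovZ.n2 (82656, 77040) (by decide +kernel)
               (CovZ.n2 (82728, 77112) (by decide +kernel)
                (CovZ.n2 (82728, 77040) (by decide +kernel)
                 (CovZ.n2 (82692, 77076) (by decide +kernel)
                  (CovZ.leaf K2_ok TI_l47 _)
                  (CovZ.leaf K2_ok TI_l48 _))
                 (CovZ.leaf K2_ok TI_l49 _))
                (CovZ.n1 (82656, 77112) (by decide +kernel)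
                 (CovZ.n2 (82692, 77148) (by decide +kernel)
                  (CovZ.leaf K2_ok TI_l50 _)
                  (CovZ.n1 (82656, 77148) (by decide +kernel)
                   (CovZ.n2 (82674, 77166) (by decide +kernel)
                    (CovZ.leaf K2_ok TI_l51 _)
                    (CovZ.leaf K2_ok TI_l52 _))
                   (CovZ.leaf K2_ok TI_l53 _)))
                 (CovZ.leaf K2_ok TI_l54 _)))
               (CovZ.n1 (82728, 76968) (by decide +kernel)
                (CovZ.n2 (82656, 76968) (by decide +kernel)
                 (CovZ.leaf K2_ok TI_l55 _)
                 (CovZ.leaf K2_ok TI_l56 _))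
                (CovZ.n1 (82728, 77040) (by decide +kernel)
                 (CovZ.leaf K2_ok TI_l57 _)
                 (CovZ.leaf K2_ok TI_l58 _))))
              (CovZ.n1 (82800, 77184) (by decide +kernel)
               (CovZ.n2 (82872, 77112) (by decide +kernel)
                (CovZ.n2 (82800, 77112) (by decide +kernel)
                 (CovZ.n2 (82836, 77148) (by decide +kernel)
                  (CovZ.leaf K2_ok TI_l59 _)
                  (CovZ.n1 (82800, 77148) (by decide +kernel)
                   (CovZ.leaf K2_ok TI_l60 _)
                   (CovZ.leaf K2_ok TI_l61 _)))
                 (CovZ.leaf K2_ok TI_l62 _))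
                (CovZ.n1 (82872, 77184) (by decide +kernel)
                 (CovZ.n2 (82908, 77148) (by decide +kernel)
                  (CovZ.leaf K2_ok TI_l63 _)
                  (CovZ.n1 (82908, 77184) (by decide +kernel)
                   (CovZ.leaf K2_ok TI_l64 _)
                   (CovZ.leaf K2_ok TI_l65 _)))
                 (CovZ.n1 (82836, 77148) (by decide +kernel)
                  (CovZ.n2 (82836, 77184) (by decide +kernel)
                   (CovZ.leaf K2_ok TI_l66 _)
                   (CovZ.leaf K2_ok TI_l67 _))
                  (CovZ.leaf K2_ok TI_l68 _))))
               (CovZ.n1 (82728, 77112) (by decide +kernel)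
                (CovZ.n2 (82728, 77184) (by decide +kernel)
                 (CovZ.n2 (82764, 77148) (by decide +kernel)
                  (CovZ.n2 (82728, 77148) (by decide +kernel)
                   (CovZ.n2 (82746, 77166) (by decide +kernel)
                    (CovZ.leaf K2_ok TI_l69 _)
                    (CovZ.leaf K2_ok TI_l70 _))
                   (CovZ.leaf K2_ok TI_l71 _))
                  (CovZ.n1 (82764, 77184) (by decide +kernel)
                   (CovZ.leaf K2_ok TI_l72 _)
                   (CovZ.n1 (82746, 77166) (by decide +kernel)
                    (CovZ.leaf K2_ok TI_l73 _)
                    (CovZ.leaf K2_ok TI_l74 _))))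
                 (CovZ.n1 (82692, 77148) (by decide +kernel)
                  (CovZ.n2 (82692, 77184) (by decide +kernel)
                   (CovZ.leaf K2_ok TI_l75 _)
                   (CovZ.n1 (82674, 77166) (by decide +kernel)
                    (CovZ.leaf K2_ok TI_l76 _)
                    (CovZ.leaf K2_ok TI_l77 _)))
                  (CovZ.n1 (82728, 77148) (by decide +kernel)
                   (CovZ.leaf K2_ok TI_l78 _)
                   (CovZ.leaf K2_ok TI_l79 _))))
                (CovZ.n1 (82800, 77112) (by decide +kernel)
                 (CovZ.leaf K2_ok TI_l80 _)
                 (CovZ.n1 (82764, 77148) (by decide +kernel)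
                  (CovZ.n2 (82800, 77148) (by decide +kernel)
                   (CovZ.leaf K2_ok TI_l81 _)
                   (CovZ.leaf K2_ok TI_l82 _))
                  (CovZ.leaf K2_ok TI_l83 _)))))))
            (CovZ.n1 (82512, 77040) (by decide +kernel)
             (CovZ.n2 (82512, 77184) (by decide +kernel)
              (CovZ.subM 12259964326927111037010718091567502024287936928729899536 (by decide +kernel)
               (CovZ.n2 (82584, 77112) (by decide +kernel)
                (CovZ.n2 (82512, 77112) (by decide +kernel)
                 (CovZ.n2 (82548, 77148) (by decide +kernel)
                  (CovZ.leaf K2_ok TI_l84 _)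
                  (CovZ.leaf K2_ok TI_l85 _))
                 (CovZ.leaf K2_ok TI_l86 _))
                (CovZ.n1 (82584, 77184) (by decide +kernel)
                 (CovZ.n2 (82620, 77148) (by decide +kernel)
                  (CovZ.n2 (82584, 77148) (by decide +kernel)
                   (CovZ.n2 (82602, 77166) (by decide +kernel)
                    (CovZ.leaf K2_ok TI_l87 _)
                    (CovZ.leaf K2_ok TI_l88 _))
                   (CovZ.leaf K2_ok TI_l89 _))
                  (CovZ.n1 (82620, 77184) (by decide +kernel)
                   (CovZ.leaf K2_ok TI_l90 _)
                   (CovZ.n1 (82602, 77166) (by decide +kernel)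
                    (CovZ.leaf K2_ok TI_l91 _)
                    (CovZ.leaf K2_ok TI_l92 _))))
                 (CovZ.n1 (82548, 77148) (by decide +kernel)
                  (CovZ.n2 (82548, 77184) (by decide +kernel)
                   (CovZ.leaf K2_ok TI_l93 _)
                   (CovZ.leaf K2_ok TI_l94 _))
                  (CovZ.n1 (82584, 77148) (by decide +kernel)
                   (CovZ.leaf K2_ok TI_l95 _)
                   (CovZ.leaf K2_ok TI_l96 _))))))
              (CovZ.n1 (82440, 77112) (by decide +kernel)
               (CovZ.n2 (82440, 77184) (by decide +kernel)
                (CovZ.n2 (82476, 77148) (by decide +kernel)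
                 (CovZ.leaf K2_ok TI_l97 _)
                 (CovZ.n1 (82476, 77184) (by decide +kernel)
                  (CovZ.leaf K2_ok TI_l98 _)
                  (CovZ.leaf K2_ok TI_l99 _)))
                (CovZ.n1 (82404, 77148) (by decide +kernel)
                 (CovZ.n2 (82404, 77184) (by decide +kernel)
                  (CovZ.leaf K2_ok TI_l100 _)
                  (CovZ.leaf K2_ok TI_l101 _))
                 (CovZ.n1 (82440, 77148) (by decide +kernel)
                  (CovZ.leaf K2_ok TI_l102 _)
                  (CovZ.n1 (82422, 77166) (by decide +kernel)
                   (CovZ.leaf K2_ok TI_l103 _)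
                   (CovZ.leaf K2_ok TI_l104 _)))))
               (CovZ.subM 170143941873127088516052643676361959952 (by decide +kernel)
                (CovZ.n1 (82512, 77112) (by decide +kernel)
                 (CovZ.n2 (82476, 77076) (by decide +kernel)
                  (CovZ.leaf K2_ok TI_l105 _)
                  (CovZ.leaf K2_ok TI_l106 _))
                 (CovZ.n1 (82476, 77148) (by decide +kernel)
                  (CovZ.n2 (82512, 77148) (by decide +kernel)
                   (CovZ.leaf K2_ok TI_l107 _)
                   (CovZ.leaf K2_ok TI_l108 _))
                  (CovZ.leaf K2_ok TI_l109 _))))))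
             (CovZ.n1 (82656, 77040) (by decide +kernel)
              (CovZ.n2 (82584, 76968) (by decide +kernel)
               (CovZ.n2 (82584, 77040) (by decide +kernel)
                (CovZ.leaf K2_ok TI_l110 _)
                (CovZ.leaf K2_ok TI_l111 _))
               (CovZ.n1 (82656, 76968) (by decide +kernel)
                (CovZ.leaf K2_ok TI_l112 _)
                (CovZ.leaf K2_ok TI_l113 _)))
              (CovZ.subM 12259964326927111037010718091567502024287936928729899536 (by decide +kernel)
               (CovZ.n1 (82584, 77112) (by decide +kernel)
                (CovZ.n2 (82656, 77112) (by decide +kernel)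
                 (CovZ.n2 (82620, 77076) (by decide +kernel)
                  (CovZ.leaf K2_ok TI_l114 _)
                  (CovZ.leaf K2_ok TI_l115 _))
                 (CovZ.n1 (82620, 77148) (by decide +kernel)
                  (CovZ.n2 (82656, 77148) (by decide +kernel)
                   (CovZ.leaf K2_ok TI_l116 _)
                   (CovZ.leaf K2_ok TI_l117 _))
                  (CovZ.leaf K2_ok TI_l118 _)))
                (CovZ.n1 (82584, 77040) (by decide +kernel)
                 (CovZ.leaf K2_ok TI_l119 _)
                 (CovZ.n1 (82620, 77076) (by decide +kernel)
                  (CovZ.leaf K2_ok TI_l120 _)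
                  (CovZ.leaf K2_ok TI_l121 _)))))))))

theorem TI_u1 : CovZ TI_M (toL (selN TI_LN 12259964326927111752135379824476651832367127685190248976)) [0, 7, 6, 1] (82368, 77184) (81792, 77184) (82368, 76608) :=
    (CovZ.n1 (82080, 76896) (by decide +kernel)
           (CovZ.n2 (82080, 77184) (by decide +kernel)
            (CovZ.n2 (82224, 77040) (by decide +kernel)
             (CovZ.n2 (82080, 77040) (by decide +kernel)
              (CovZ.n2 (82152, 77112) (by decide +kernel)
               (CovZ.n2 (82152, 77040) (by decide +kernel)
                (CovZ.n2 (82116, 77076) (by decide +kernel)
                 (CovZ.leaf K2_ok TI_l122 _)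
                 (CovZ.leaf K2_ok TI_l123 _))
                (CovZ.n1 (82188, 77076) (by decide +kernel)
                 (CovZ.leaf K2_ok TI_l124 _)
                 (CovZ.leaf K2_ok TI_l125 _)))
               (CovZ.subM 680564896106729322020185409505993533456 (by decide +kernel)
                (CovZ.n1 (82080, 77112) (by decide +kernel)
                 (CovZ.n2 (82116, 77148) (by decide +kernel)
                  (CovZ.leaf K2_ok TI_l126 _)
                  (CovZ.n1 (82080, 77148) (by decide +kernel)
                   (CovZ.n2 (82098, 77166) (by decide +kernel)
                    (CovZ.leaf K2_ok TI_l127 _)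
                    (CovZ.leaf K2_ok TI_l128 _))
                   (CovZ.leaf K2_ok TI_l129 _)))
                 (CovZ.leaf K2_ok TI_l130 _))))
              (CovZ.n1 (82152, 76968) (by decide +kernel)
               (CovZ.n2 (82080, 76968) (by decide +kernel)
                (CovZ.n2 (82116, 77004) (by decide +kernel)
                 (CovZ.leaf K2_ok TI_l131 _)
                 (CovZ.leaf K2_ok TI_l132 _))
                (CovZ.leaf K2_ok TI_l133 _))
               (CovZ.n1 (82152, 77040) (by decide +kernel)
                (CovZ.leaf K2_ok TI_l134 _)
                (CovZ.leaf K2_ok TI_l135 _))))
             (CovZ.n1 (82224, 77184) (by decide +kernel)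
              (CovZ.n2 (82296, 77112) (by decide +kernel)
               (CovZ.subM 680564896106729322020221438298717530128 (by decide +kernel)
                (CovZ.n2 (82224, 77112) (by decide +kernel)
                 (CovZ.n2 (82260, 77148) (by decide +kernel)
                  (CovZ.leaf K2_ok TI_l136 _)
                  (CovZ.n1 (82224, 77148) (by decide +kernel)
                   (CovZ.n2 (82242, 77166) (by decide +kernel)
                    (CovZ.leaf K2_ok TI_l137 _)
                    (CovZ.leaf K2_ok TI_l138 _))
                   (CovZ.leaf K2_ok TI_l139 _)))
                 (CovZ.leaf K2_ok TI_l140 _)))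
               (CovZ.n1 (82296, 77184) (by decide +kernel)
                (CovZ.n2 (82332, 77148) (by decide +kernel)
                 (CovZ.leaf K2_ok TI_l141 _)
                 (CovZ.n1 (82332, 77184) (by decide +kernel)
                  (CovZ.n2 (82350, 77166) (by decide +kernel)
                   (CovZ.leaf K2_ok TI_l142 _)
                   (CovZ.leaf K2_ok TI_l143 _))
                  (CovZ.leaf K2_ok TI_l144 _)))
                (CovZ.subM 680564896106110352000578748161267968016 (by decide +kernel)
                 (CovZ.n1 (82260, 77148) (by decide +kernel)
                  (CovZ.n2 (82260, 77184) (by decide +kernel)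
                   (CovZ.leaf K2_ok TI_l145 _)
                   (CovZ.leaf K2_ok TI_l146 _))
                  (CovZ.n1 (82296, 77148) (by decide +kernel)
                   (CovZ.leaf K2_ok TI_l147 _)
                   (CovZ.leaf K2_ok TI_l148 _))))))
              (CovZ.n1 (82152, 77112) (by decide +kernel)
               (CovZ.subM 680564896106110352000578748165562935312 (by decide +kernel)
                (CovZ.n2 (82152, 77184) (by decide +kernel)
                 (CovZ.n2 (82188, 77148) (by decide +kernel)
                  (CovZ.n2 (82152, 77148) (by decide +kernel)
                   (CovZ.n2 (82170, 77166) (by decide +kernel)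
                    (CovZ.leaf K2_ok TI_l149 _)
                    (CovZ.leaf K2_ok TI_l150 _))
                   (CovZ.leaf K2_ok TI_l151 _))
                  (CovZ.n1 (82188, 77184) (by decide +kernel)
                   (CovZ.leaf K2_ok TI_l152 _)
                   (CovZ.n1 (82170, 77166) (by decide +kernel)
                    (CovZ.badM (by decide +kernel))
                    (CovZ.leaf K2_ok TI_l153 _))))
                 (CovZ.n1 (82116, 77148) (by decide +kernel)
                  (CovZ.n2 (82116, 77184) (by decide +kernel)
                   (CovZ.n2 (82134, 77166) (by decide +kernel)
                    (CovZ.leaf K2_ok TI_l154 _)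
                    (CovZ.badM (by decide +kernel)))
                   (CovZ.n1 (82098, 77166) (by decide +kernel)
                    (CovZ.badM (by decide +kernel))
                    (CovZ.leaf K2_ok TI_l155 _)))
                  (CovZ.n1 (82152, 77148) (by decide +kernel)
                   (CovZ.leaf K2_ok TI_l156 _)
                   (CovZ.n1 (82134, 77166) (by decide +kernel)
                    (CovZ.leaf K2_ok TI_l157 _)
                    (CovZ.leaf K2_ok TI_l158 _))))))
               (CovZ.n1 (82224, 77112) (by decide +kernel)
                (CovZ.n2 (82188, 77076) (by decide +kernel)
                 (CovZ.leaf K2_ok TI_l159 _)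
                 (CovZ.leaf K2_ok TI_l160 _))
                (CovZ.subM 680564896106110352000578748165562935312 (by decide +kernel)
                 (CovZ.n1 (82188, 77148) (by decide +kernel)
                  (CovZ.n2 (82224, 77148) (by decide +kernel)
                   (CovZ.leaf K2_ok TI_l161 _)
                   (CovZ.leaf K2_ok TI_l162 _))
                  (CovZ.n1 (82188, 77112) (by decide +kernel)
                   (CovZ.leaf K2_ok TI_l163 _)
                   (CovZ.leaf K2_ok TI_l164 _))))))))
            (CovZ.n1 (81936, 77040) (by decide +kernel)
             (CovZ.n2 (81936, 77184) (by decide +kernel)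
              (CovZ.n2 (82008, 77112) (by decide +kernel)
               (CovZ.subM 701832544039287975986637315271224305680 (by decide +kernel)
                (CovZ.n2 (81936, 77112) (by decide +kernel)
                 (CovZ.n2 (81972, 77148) (by decide +kernel)
                  (CovZ.leaf K2_ok TI_l165 _)
                  (CovZ.n1 (81936, 77148) (by decide +kernel)
                   (CovZ.n2 (81954, 77166) (by decide +kernel)
                    (CovZ.leaf K2_ok TI_l166 _)
                    (CovZ.n1 (81936, 77166) (by decide +kernel)
                     (CovZ.badM (by decide +kernel))
                     (CovZ.leaf K2_ok TI_l167 _)))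
                   (CovZ.leaf K2_ok TI_l168 _)))
                 (CovZ.leaf K2_ok TI_l169 _)))
               (CovZ.subM 701832544038669005967003632333029484560 (by decide +kernel)
                (CovZ.n1 (82008, 77184) (by decide +kernel)
                 (CovZ.n2 (82044, 77148) (by decide +kernel)
                  (CovZ.leaf K2_ok TI_l170 _)
                  (CovZ.n1 (82044, 77184) (by decide +kernel)
                   (CovZ.leaf K2_ok TI_l171 _)
                   (CovZ.leaf K2_ok TI_l172 _)))
                 (CovZ.n1 (81972, 77148) (by decide +kernel)
                  (CovZ.n2 (81972, 77184) (by decide +kernel)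
                   (CovZ.leaf K2_ok TI_l173 _)
                   (CovZ.n1 (81954, 77166) (by decide +kernel)
                    (CovZ.badM (by decide +kernel))
                    (CovZ.leaf K2_ok TI_l174 _)))
                  (CovZ.n1 (82008, 77148) (by decide +kernel)
                   (CovZ.leaf K2_ok TI_l175 _)
                   (CovZ.leaf K2_ok TI_l176 _))))))
              (CovZ.n1 (81864, 77112) (by decide +kernel)
               (CovZ.n2 (81864, 77184) (by decide +kernel)
                (CovZ.n2 (81900, 77148) (by decide +kernel)
                 (CovZ.leaf K2_ok TI_l177 _)
                 (CovZ.n1 (81900, 77184) (by decide +kernel)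
                  (CovZ.n2 (81918, 77166) (by decide +kernel)
                   (CovZ.leaf K2_ok TI_l178 _)
                   (CovZ.badM (by decide +kernel)))
                  (CovZ.leaf K2_ok TI_l179 _)))
                (CovZ.n1 (81828, 77148) (by decide +kernel)
                 (CovZ.n2 (81828, 77184) (by decide +kernel)
                  (CovZ.leaf K2_ok TI_l180 _)
                  (CovZ.leaf K2_ok TI_l181 _))
                 (CovZ.n1 (81864, 77148) (by decide +kernel)
                  (CovZ.leaf K2_ok TI_l182 _)
                  (CovZ.leaf K2_ok TI_l183 _))))
               (CovZ.n1 (81936, 77112) (by decide +kernel)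
                (CovZ.n2 (81900, 77076) (by decide +kernel)
                 (CovZ.leaf K2_ok TI_l184 _)
                 (CovZ.leaf K2_ok TI_l185 _))
                (CovZ.n1 (81900, 77148) (by decide +kernel)
                 (CovZ.subM 701832544038669005966994624996335790096 (by decide +kernel)
                  (CovZ.n2 (81936, 77148) (by decide +kernel)
                   (CovZ.leaf K2_ok TI_l186 _)
                   (CovZ.n1 (81918, 77166) (by decide +kernel)
                    (CovZ.n2 (81936, 77166) (by decide +kernel)
                     (CovZ.leaf K2_ok TI_l187 _)
                     (CovZ.badM (by decide +kernel)))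
                    (CovZ.leaf K2_ok TI_l188 _))))
                 (CovZ.leaf K2_ok TI_l189 _)))))
             (CovZ.n1 (82080, 77040) (by decide +kernel)
              (CovZ.n2 (82008, 76968) (by decide +kernel)
               (CovZ.n2 (82008, 77040) (by decide +kernel)
                (CovZ.leaf K2_ok TI_l190 _)
                (CovZ.leaf K2_ok TI_l191 _))
               (CovZ.n1 (82080, 76968) (by decide +kernel)
                (CovZ.leaf K2_ok TI_l192 _)
                (CovZ.leaf K2_ok TI_l193 _)))
              (CovZ.n1 (82008, 77112) (by decide +kernel)
               (CovZ.subM 680564896106729322020185409505993533456 (by decide +kernel)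
                (CovZ.n2 (82080, 77112) (by decide +kernel)
                 (CovZ.n2 (82044, 77076) (by decide +kernel)
                  (CovZ.leaf K2_ok TI_l194 _)
                  (CovZ.leaf K2_ok TI_l195 _))
                 (CovZ.n1 (82044, 77148) (by decide +kernel)
                  (CovZ.n2 (82080, 77148) (by decide +kernel)
                   (CovZ.leaf K2_ok TI_l196 _)
                   (CovZ.leaf K2_ok TI_l197 _))
                  (CovZ.leaf K2_ok TI_l198 _))))
               (CovZ.n1 (82008, 77040) (by decide +kernel)
                (CovZ.n2 (81972, 77076) (by decide +kernel)
                 (CovZ.leaf K2_ok TI_l199 _)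
                 (CovZ.leaf K2_ok TI_l200 _))
                (CovZ.n1 (82044, 77076) (by decide +kernel)
                 (CovZ.leaf K2_ok TI_l201 _)
                 (CovZ.leaf K2_ok TI_l202 _)))))))
           (CovZ.n1 (82368, 76896) (by decide +kernel)
            (CovZ.n2 (82224, 76752) (by decide +kernel)
             (CovZ.n2 (82224, 76896) (by decide +kernel)
              (CovZ.leaf K2_ok TI_l203 _)
              (CovZ.n1 (82152, 76824) (by decide +kernel)
               (CovZ.leaf K2_ok TI_l204 _)
               (CovZ.leaf K2_ok TI_l205 _)))
             (CovZ.n1 (82368, 76752) (by decide +kernel)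
              (CovZ.n2 (82296, 76680) (by decide +kernel)
               (CovZ.leaf K2_ok TI_l206 _)
               (CovZ.leaf K2_ok TI_l207 _))
              (CovZ.n1 (82296, 76824) (by decide +kernel)
               (CovZ.leaf K2_ok TI_l208 _)
               (CovZ.leaf K2_ok TI_l209 _))))
            (CovZ.n1 (82224, 77040) (by decide +kernel)
             (CovZ.n2 (82368, 77040) (by decide +kernel)
              (CovZ.n2 (82296, 76968) (by decide +kernel)
               (CovZ.n2 (82296, 77040) (by decide +kernel)
                (CovZ.leaf K2_ok TI_l210 _)
                (CovZ.leaf K2_ok TI_l211 _))
               (CovZ.n1 (82368, 76968) (by decide +kernel)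
                (CovZ.leaf K2_ok TI_l212 _)
                (CovZ.leaf K2_ok TI_l213 _)))
              (CovZ.n1 (82296, 77112) (by decide +kernel)
               (CovZ.n2 (82368, 77112) (by decide +kernel)
                (CovZ.n2 (82332, 77076) (by decide +kernel)
                 (CovZ.leaf K2_ok TI_l214 _)
                 (CovZ.leaf K2_ok TI_l215 _))
                (CovZ.n1 (82332, 77148) (by decide +kernel)
                 (CovZ.n2 (82368, 77148) (by decide +kernel)
                  (CovZ.leaf K2_ok TI_l216 _)
                  (CovZ.n1 (82350, 77166) (by decide +kernel)
                   (CovZ.leaf K2_ok TI_l217 _)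
                   (CovZ.leaf K2_ok TI_l218 _)))
                 (CovZ.leaf K2_ok TI_l219 _)))
               (CovZ.n1 (82296, 77040) (by decide +kernel)
                (CovZ.leaf K2_ok TI_l220 _)
                (CovZ.n1 (82332, 77076) (by decide +kernel)
                 (CovZ.leaf K2_ok TI_l221 _)
                 (CovZ.leaf K2_ok TI_l222 _)))))
             (CovZ.n1 (82224, 76896) (by decide +kernel)
              (CovZ.n2 (82152, 76968) (by decide +kernel)
               (CovZ.n2 (82224, 76968) (by decide +kernel)
                (CovZ.leaf K2_ok TI_l223 _)
                (CovZ.leaf K2_ok TI_l224 _))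
               (CovZ.n1 (82152, 76896) (by decide +kernel)
                (CovZ.leaf K2_ok TI_l225 _)
                (CovZ.leaf K2_ok TI_l226 _)))
              (CovZ.n1 (82296, 76968) (by decide +kernel)
               (CovZ.leaf K2_ok TI_l227 _)
               (CovZ.n1 (82224, 76968) (by decide +kernel)
                (CovZ.leaf K2_ok TI_l228 _)
                (CovZ.leaf K2_ok TI_l229 _)))))))

theorem TI_u2 : CovZ TI_M (toL (selN TI_LN 12259964327692074679792736811004796249741536994636196432)) [0, 7, 6, 1] (82944, 78336) (81792, 77184) (82944, 76032) :=
    (CovZ.subM 12259964326927111752135379824476651832367127685190248976 (by decide +kernel)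
       (CovZ.n2 (82944, 77184) (by decide +kernel)
        (CovZ.n2 (82368, 76608) (by decide +kernel)
         (CovZ.n2 (82368, 77184) (by decide +kernel)
          TI_u0
          TI_u1)
         (CovZ.n1 (82944, 76608) (by decide +kernel)
          (CovZ.n2 (82656, 76320) (by decide +kernel)
           (CovZ.n2 (82656, 76608) (by decide +kernel)
            (CovZ.leaf K2_ok TI_l230 _)
            (CovZ.n1 (82512, 76464) (by decide +kernel)
             (CovZ.leaf K2_ok TI_l231 _)
             (CovZ.leaf K2_ok TI_l232 _)))
           (CovZ.subM 12259964326927111037010718087234711886789105966582948368 (by decide +kernel)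
            (CovZ.n1 (82944, 76320) (by decide +kernel)
             (CovZ.n2 (82800, 76176) (by decide +kernel)
              (CovZ.leaf K2_ok TI_l233 _)
              (CovZ.leaf K2_ok TI_l234 _))
             (CovZ.n1 (82800, 76464) (by decide +kernel)
              (CovZ.n2 (82944, 76464) (by decide +kernel)
               (CovZ.leaf K2_ok TI_l235 _)
               (CovZ.leaf K2_ok TI_l236 _))
              (CovZ.leaf K2_ok TI_l237 _)))))
          (CovZ.n1 (82656, 76896) (by decide +kernel)
           (CovZ.subM 12259964326927111037010718087234711886789105966582948368 (by decide +kernel)
            (CovZ.n2 (82944, 76896) (by decide +kernel)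
             (CovZ.n2 (82800, 76752) (by decide +kernel)
              (CovZ.n2 (82800, 76896) (by decide +kernel)
               (CovZ.leaf K2_ok TI_l238 _)
               (CovZ.n1 (82728, 76824) (by decide +kernel)
                (CovZ.leaf K2_ok TI_l239 _)
                (CovZ.leaf K2_ok TI_l240 _)))
              (CovZ.n1 (82944, 76752) (by decide +kernel)
               (CovZ.leaf K2_ok TI_l241 _)
               (CovZ.n1 (82872, 76824) (by decide +kernel)
                (CovZ.leaf K2_ok TI_l242 _)
                (CovZ.leaf K2_ok TI_l243 _))))
             (CovZ.n1 (82800, 77040) (by decide +kernel)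
              (CovZ.n2 (82944, 77040) (by decide +kernel)
               (CovZ.n2 (82872, 76968) (by decide +kernel)
                (CovZ.n2 (82872, 77040) (by decide +kernel)
                 (CovZ.leaf K2_ok TI_l244 _)
                 (CovZ.leaf K2_ok TI_l245 _))
                (CovZ.n1 (82944, 76968) (by decide +kernel)
                 (CovZ.leaf K2_ok TI_l246 _)
                 (CovZ.leaf K2_ok TI_l247 _)))
               (CovZ.n1 (82872, 77112) (by decide +kernel)
                (CovZ.n2 (82944, 77112) (by decide +kernel)
                 (CovZ.n2 (82908, 77076) (by decide +kernel)
                  (CovZ.leaf K2_ok TI_l248 _)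
                  (CovZ.leaf K2_ok TI_l249 _))
                 (CovZ.n1 (82908, 77148) (by decide +kernel)
                  (CovZ.n2 (82944, 77148) (by decide +kernel)
                   (CovZ.leaf K2_ok TI_l250 _)
                   (CovZ.leaf K2_ok TI_l251 _))
                  (CovZ.leaf K2_ok TI_l252 _)))
                (CovZ.n1 (82872, 77040) (by decide +kernel)
                 (CovZ.leaf K2_ok TI_l253 _)
                 (CovZ.n1 (82908, 77076) (by decide +kernel)
                  (CovZ.leaf K2_ok TI_l254 _)
                  (CovZ.leaf K2_ok TI_l255 _)))))
              (CovZ.n1 (82800, 76896) (by decide +kernel)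
               (CovZ.n2 (82728, 76968) (by decide +kernel)
                (CovZ.n2 (82800, 76968) (by decide +kernel)
                 (CovZ.leaf K2_ok TI_l256 _)
                 (CovZ.leaf K2_ok TI_l257 _))
                (CovZ.leaf K2_ok TI_l258 _))
               (CovZ.n1 (82872, 76968) (by decide +kernel)
                (CovZ.leaf K2_ok TI_l259 _)
                (CovZ.n1 (82800, 76968) (by decide +kernel)
                 (CovZ.leaf K2_ok TI_l260 _)
                 (CovZ.leaf K2_ok TI_l261 _)))))))
           (CovZ.n1 (82656, 76608) (by decide +kernel)
            (CovZ.n2 (82512, 76752) (by decide +kernel)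
             (CovZ.n2 (82656, 76752) (by decide +kernel)
              (CovZ.leaf K2_ok TI_l262 _)
              (CovZ.n1 (82584, 76824) (by decide +kernel)
               (CovZ.leaf K2_ok TI_l263 _)
               (CovZ.leaf K2_ok TI_l264 _)))
             (CovZ.n1 (82512, 76608) (by decide +kernel)
              (CovZ.leaf K2_ok TI_l265 _)
              (CovZ.leaf K2_ok TI_l266 _)))
            (CovZ.subM 12259964326927111037010718087234711886789105966582948368 (by decide +kernel)
             (CovZ.n1 (82800, 76752) (by decide +kernel)
              (CovZ.n2 (82800, 76608) (by decide +kernel)
               (CovZ.leaf K2_ok TI_l267 _)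
               (CovZ.leaf K2_ok TI_l268 _))
              (CovZ.n1 (82656, 76752) (by decide +kernel)
               (CovZ.n2 (82728, 76824) (by decide +kernel)
                (CovZ.leaf K2_ok TI_l269 _)
                (CovZ.leaf K2_ok TI_l270 _))
               (CovZ.leaf K2_ok TI_l271 _))))))))
        (CovZ.subM 170141183460469231731687303715885154304 (by decide +kernel)
         (CovZ.n1 (82368, 77760) (by decide +kernel)
          (CovZ.badM (by decide +kernel))
          (CovZ.n1 (82368, 77184) (by decide +kernel)
           (CovZ.n2 (82080, 77472) (by decide +kernel)
            (CovZ.badM (by decide +kernel))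
            (CovZ.n1 (82080, 77184) (by decide +kernel)
             (CovZ.badM (by decide +kernel))
             (CovZ.badM (by decide +kernel))))
           (CovZ.n1 (82656, 77472) (by decide +kernel)
            (CovZ.n2 (82656, 77184) (by decide +kernel)
             (CovZ.n2 (82512, 77328) (by decide +kernel)
              (CovZ.badM (by decide +kernel))
              (CovZ.n1 (82512, 77184) (by decide +kernel)
               (CovZ.badM (by decide +kernel))
               (CovZ.n1 (82584, 77256) (by decide +kernel)
                (CovZ.n2 (82584, 77184) (by decide +kernel)
                 (CovZ.n2 (82548, 77220) (by decide +kernel)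
                  (CovZ.badM (by decide +kernel))
                  (CovZ.n1 (82548, 77184) (by decide +kernel)
                   (CovZ.n2 (82530, 77202) (by decide +kernel)
                    (CovZ.leaf K2_ok TI_l272 _)
                    (CovZ.leaf K2_ok TI_l273 _))
                   (CovZ.n1 (82566, 77202) (by decide +kernel)
                    (CovZ.leaf K2_ok TI_l274 _)
                    (CovZ.leaf K2_ok TI_l275 _))))
                 (CovZ.badM (by decide +kernel)))
                (CovZ.badM (by decide +kernel)))))
             (CovZ.badM (by decide +kernel)))
            (CovZ.badM (by decide +kernel))))))))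

theorem TI_u3 : CovZ TI_M (toL (selN TI_LN 12259964327692074679792736811004796249741536994636196432)) [0, 7, 6, 1] (81792, 77184) (80640, 76032) (82944, 76032) :=
    (CovZ.n1 (81792, 76032) (by decide +kernel)
       (CovZ.n2 (81216, 76608) (by decide +kernel)
        (CovZ.subM 697613412369349954128602298174950134900752 (by decide +kernel)
         (CovZ.n2 (81792, 76608) (by decide +kernel)
          (CovZ.n2 (81504, 76320) (by decide +kernel)
           (CovZ.n2 (81504, 76608) (by decide +kernel)
            (CovZ.leaf K2_ok TI_l276 _)
            (CovZ.n1 (81360, 76464) (by decide +kernel)
             (CovZ.leaf K2_ok TI_l277 _)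
             (CovZ.leaf K2_ok TI_l278 _)))
           (CovZ.n1 (81792, 76320) (by decide +kernel)
            (CovZ.n2 (81648, 76176) (by decide +kernel)
             (CovZ.leaf K2_ok TI_l279 _)
             (CovZ.leaf K2_ok TI_l280 _))
            (CovZ.n1 (81648, 76464) (by decide +kernel)
             (CovZ.n2 (81792, 76464) (by decide +kernel)
              (CovZ.leaf K2_ok TI_l281 _)
              (CovZ.leaf K2_ok TI_l282 _))
             (CovZ.leaf K2_ok TI_l283 _))))
          (CovZ.n1 (81504, 76896) (by decide +kernel)
           (CovZ.n2 (81792, 76896) (by decide +kernel)
            (CovZ.n2 (81648, 76752) (by decide +kernel)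
             (CovZ.n2 (81648, 76896) (by decide +kernel)
              (CovZ.n2 (81720, 76824) (by decide +kernel)
               (CovZ.leaf K2_ok TI_l284 _)
               (CovZ.leaf K2_ok TI_l285 _))
              (CovZ.n1 (81576, 76824) (by decide +kernel)
               (CovZ.leaf K2_ok TI_l286 _)
               (CovZ.leaf K2_ok TI_l287 _)))
             (CovZ.n1 (81792, 76752) (by decide +kernel)
              (CovZ.leaf K2_ok TI_l288 _)
              (CovZ.n1 (81720, 76824) (by decide +kernel)
               (CovZ.leaf K2_ok TI_l289 _)
               (CovZ.leaf K2_ok TI_l290 _))))
            (CovZ.n1 (81648, 77040) (by decide +kernel)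
             (CovZ.n2 (81792, 77040) (by decide +kernel)
              (CovZ.n2 (81720, 76968) (by decide +kernel)
               (CovZ.n2 (81720, 77040) (by decide +kernel)
                (CovZ.leaf K2_ok TI_l291 _)
                (CovZ.leaf K2_ok TI_l292 _))
               (CovZ.n1 (81792, 76968) (by decide +kernel)
                (CovZ.leaf K2_ok TI_l293 _)
                (CovZ.leaf K2_ok TI_l294 _)))
              (CovZ.n1 (81720, 77112) (by decide +kernel)
               (CovZ.n2 (81792, 77112) (by decide +kernel)
                (CovZ.n2 (81756, 77076) (by decide +kernel)
                 (CovZ.leaf K2_ok TI_l295 _)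
                 (CovZ.leaf K2_ok TI_l296 _))
                (CovZ.n1 (81756, 77148) (by decide +kernel)
                 (CovZ.n2 (81792, 77148) (by decide +kernel)
                  (CovZ.leaf K2_ok TI_l297 _)
                  (CovZ.n1 (81774, 77166) (by decide +kernel)
                   (CovZ.leaf K2_ok TI_l298 _)
                   (CovZ.leaf K2_ok TI_l299 _)))
                 (CovZ.leaf K2_ok TI_l300 _)))
               (CovZ.n1 (81720, 77040) (by decide +kernel)
                (CovZ.n2 (81684, 77076) (by decide +kernel)
                 (CovZ.leaf K2_ok TI_l301 _)
                 (CovZ.leaf K2_ok TI_l302 _))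
                (CovZ.n1 (81756, 77076) (by decide +kernel)
                 (CovZ.leaf K2_ok TI_l303 _)
                 (CovZ.leaf K2_ok TI_l304 _)))))
             (CovZ.n1 (81648, 76896) (by decide +kernel)
              (CovZ.n2 (81576, 76968) (by decide +kernel)
               (CovZ.n2 (81648, 76968) (by decide +kernel)
                (CovZ.leaf K2_ok TI_l305 _)
                (CovZ.leaf K2_ok TI_l306 _))
               (CovZ.leaf K2_ok TI_l307 _))
              (CovZ.n1 (81720, 76968) (by decide +kernel)
               (CovZ.leaf K2_ok TI_l308 _)
               (CovZ.n1 (81648, 76968) (by decide +kernel)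
                (CovZ.leaf K2_ok TI_l309 _)
                (CovZ.leaf K2_ok TI_l310 _))))))
           (CovZ.n1 (81504, 76608) (by decide +kernel)
            (CovZ.n2 (81360, 76752) (by decide +kernel)
             (CovZ.n2 (81504, 76752) (by decide +kernel)
              (CovZ.leaf K2_ok TI_l311 _)
              (CovZ.n1 (81432, 76824) (by decide +kernel)
               (CovZ.leaf K2_ok TI_l312 _)
               (CovZ.leaf K2_ok TI_l313 _)))
             (CovZ.n1 (81360, 76608) (by decide +kernel)
              (CovZ.leaf K2_ok TI_l314 _)
              (CovZ.leaf K2_ok TI_l315 _)))
            (CovZ.n1 (81648, 76752) (by decide +kernel)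
             (CovZ.n2 (81648, 76608) (by decide +kernel)
              (CovZ.leaf K2_ok TI_l316 _)
              (CovZ.leaf K2_ok TI_l317 _))
             (CovZ.n1 (81504, 76752) (by decide +kernel)
              (CovZ.n2 (81576, 76824) (by decide +kernel)
               (CovZ.leaf K2_ok TI_l318 _)
               (CovZ.leaf K2_ok TI_l319 _))
              (CovZ.leaf K2_ok TI_l320 _)))))))
        (CovZ.n1 (81216, 76032) (by decide +kernel)
         (CovZ.subM 758949492187681937418414618585796708192862208 (by decide +kernel)
          (CovZ.n2 (80928, 76320) (by decide +kernel)
           (CovZ.n2 (81216, 76320) (by decide +kernel)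
            (CovZ.n2 (81072, 76176) (by decide +kernel)
             (CovZ.leaf K2_ok TI_l321 _)
             (CovZ.leaf K2_ok TI_l322 _))
            (CovZ.n1 (81072, 76464) (by decide +kernel)
             (CovZ.n2 (81216, 76464) (by decide +kernel)
              (CovZ.leaf K2_ok TI_l323 _)
              (CovZ.leaf K2_ok TI_l324 _))
             (CovZ.leaf K2_ok TI_l325 _)))
           (CovZ.n1 (80928, 76032) (by decide +kernel)
            (CovZ.leaf K2_ok TI_l326 _)
            (CovZ.leaf K2_ok TI_l327 _))))
         (CovZ.subM 697613412369349954128602298174950134900752 (by decide +kernel)
          (CovZ.n1 (81504, 76320) (by decide +kernel)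
           (CovZ.n2 (81504, 76032) (by decide +kernel)
            (CovZ.leaf K2_ok TI_l328 _)
            (CovZ.n1 (81648, 76176) (by decide +kernel)
             (CovZ.leaf K2_ok TI_l329 _)
             (CovZ.leaf K2_ok TI_l330 _)))
           (CovZ.n1 (81216, 76320) (by decide +kernel)
            (CovZ.n2 (81360, 76464) (by decide +kernel)
             (CovZ.leaf K2_ok TI_l331 _)
             (CovZ.leaf K2_ok TI_l332 _))
            (CovZ.leaf K2_ok TI_l333 _))))))
       (CovZ.subM 12259964326927111752135379824476651832367127685190248976 (by decide +kernel)
        (CovZ.n1 (82368, 76608) (by decide +kernel)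
         (CovZ.n2 (82368, 76032) (by decide +kernel)
          (CovZ.n2 (82080, 76320) (by decide +kernel)
           (CovZ.n2 (82368, 76320) (by decide +kernel)
            (CovZ.n2 (82224, 76176) (by decide +kernel)
             (CovZ.leaf K2_ok TI_l334 _)
             (CovZ.leaf K2_ok TI_l335 _))
            (CovZ.n1 (82224, 76464) (by decide +kernel)
             (CovZ.leaf K2_ok TI_l336 _)
             (CovZ.leaf K2_ok TI_l337 _)))
           (CovZ.n1 (82080, 76032) (by decide +kernel)
            (CovZ.leaf K2_ok TI_l338 _)
            (CovZ.leaf K2_ok TI_l339 _)))
          (CovZ.n1 (82656, 76320) (by decide +kernel)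
           (CovZ.n2 (82656, 76032) (by decide +kernel)
            (CovZ.leaf K2_ok TI_l340 _)
            (CovZ.leaf K2_ok TI_l341 _))
           (CovZ.n1 (82368, 76320) (by decide +kernel)
            (CovZ.n2 (82512, 76464) (by decide +kernel)
             (CovZ.leaf K2_ok TI_l342 _)
             (CovZ.leaf K2_ok TI_l343 _))
            (CovZ.leaf K2_ok TI_l344 _))))
         (CovZ.n1 (81792, 76608) (by decide +kernel)
          (CovZ.n2 (82080, 76896) (by decide +kernel)
           (CovZ.n2 (82080, 76608) (by decide +kernel)
            (CovZ.n2 (81936, 76752) (by decide +kernel)
             (CovZ.n2 (82080, 76752) (by decide +kernel)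
              (CovZ.leaf K2_ok TI_l345 _)
              (CovZ.n1 (82008, 76824) (by decide +kernel)
               (CovZ.leaf K2_ok TI_l346 _)
               (CovZ.leaf K2_ok TI_l347 _)))
             (CovZ.n1 (81936, 76608) (by decide +kernel)
              (CovZ.leaf K2_ok TI_l348 _)
              (CovZ.n1 (82008, 76680) (by decide +kernel)
               (CovZ.leaf K2_ok TI_l349 _)
               (CovZ.leaf K2_ok TI_l350 _))))
            (CovZ.n1 (82224, 76752) (by decide +kernel)
             (CovZ.n2 (82224, 76608) (by decide +kernel)
              (CovZ.leaf K2_ok TI_l351 _)
              (CovZ.leaf K2_ok TI_l352 _))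
             (CovZ.n1 (82080, 76752) (by decide +kernel)
              (CovZ.n2 (82152, 76824) (by decide +kernel)
               (CovZ.leaf K2_ok TI_l353 _)
               (CovZ.leaf K2_ok TI_l354 _))
              (CovZ.leaf K2_ok TI_l355 _))))
           (CovZ.n1 (81792, 76896) (by decide +kernel)
            (CovZ.n2 (81936, 77040) (by decide +kernel)
             (CovZ.n2 (81936, 76896) (by decide +kernel)
              (CovZ.n2 (81864, 76968) (by decide +kernel)
               (CovZ.n2 (81936, 76968) (by decide +kernel)
                (CovZ.leaf K2_ok TI_l356 _)
                (CovZ.leaf K2_ok TI_l357 _))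
               (CovZ.leaf K2_ok TI_l358 _))
              (CovZ.n1 (82008, 76968) (by decide +kernel)
               (CovZ.leaf K2_ok TI_l359 _)
               (CovZ.n1 (81936, 76968) (by decide +kernel)
                (CovZ.leaf K2_ok TI_l360 _)
                (CovZ.leaf K2_ok TI_l361 _))))
             (CovZ.n1 (81792, 77040) (by decide +kernel)
              (CovZ.n2 (81864, 77112) (by decide +kernel)
               (CovZ.n2 (81864, 77040) (by decide +kernel)
                (CovZ.leaf K2_ok TI_l362 _)
                (CovZ.n1 (81900, 77076) (by decide +kernel)
                 (CovZ.leaf K2_ok TI_l363 _)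
                 (CovZ.leaf K2_ok TI_l364 _)))
               (CovZ.n1 (81792, 77112) (by decide +kernel)
                (CovZ.n2 (81828, 77148) (by decide +kernel)
                 (CovZ.leaf K2_ok TI_l365 _)
                 (CovZ.n1 (81792, 77148) (by decide +kernel)
                  (CovZ.leaf K2_ok TI_l366 _)
                  (CovZ.leaf K2_ok TI_l367 _)))
                (CovZ.leaf K2_ok TI_l368 _)))
              (CovZ.n1 (81864, 76968) (by decide +kernel)
               (CovZ.n2 (81792, 76968) (by decide +kernel)
                (CovZ.leaf K2_ok TI_l369 _)
                (CovZ.leaf K2_ok TI_l370 _))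
               (CovZ.n1 (81864, 77040) (by decide +kernel)
                (CovZ.leaf K2_ok TI_l371 _)
                (CovZ.leaf K2_ok TI_l372 _)))))
            (CovZ.n1 (81936, 76752) (by decide +kernel)
             (CovZ.n2 (81792, 76752) (by decide +kernel)
              (CovZ.n2 (81864, 76824) (by decide +kernel)
               (CovZ.leaf K2_ok TI_l373 _)
               (CovZ.leaf K2_ok TI_l374 _))
              (CovZ.leaf K2_ok TI_l375 _))
             (CovZ.n1 (81936, 76896) (by decide +kernel)
              (CovZ.leaf K2_ok TI_l376 _)
              (CovZ.n1 (81864, 76824) (by decide +kernel)
               (CovZ.leaf K2_ok TI_l377 _)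
               (CovZ.leaf K2_ok TI_l378 _))))))
          (CovZ.n1 (82080, 76320) (by decide +kernel)
           (CovZ.n2 (81792, 76320) (by decide +kernel)
            (CovZ.n2 (81936, 76464) (by decide +kernel)
             (CovZ.leaf K2_ok TI_l379 _)
             (CovZ.leaf K2_ok TI_l380 _))
            (CovZ.leaf K2_ok TI_l381 _))
           (CovZ.n1 (82080, 76608) (by decide +kernel)
            (CovZ.leaf K2_ok TI_l382 _)
            (CovZ.n1 (81936, 76464) (by decide +kernel)
             (CovZ.leaf K2_ok TI_l383 _)
             (CovZ.leaf K2_ok TI_l384 _))))))))

theorem TI_u4 : CovZ TI_M (toL (selN TI_LN 764962940949789063068300553583349727107563584)) [0, 7, 6, 1] (78336, 76032) (79488, 76032) (79488, 77184) :=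
    (CovZ.subM 6040692619200004729065075689601956240703552 (by decide +kernel)
         (CovZ.n2 (78912, 76608) (by decide +kernel)
          (CovZ.n2 (79488, 76608) (by decide +kernel)
           (CovZ.n2 (79200, 76320) (by decide +kernel)
            (CovZ.n2 (79200, 76608) (by decide +kernel)
             (CovZ.n2 (79344, 76464) (by decide +kernel)
              (CovZ.leaf K2_ok TI_l408 _)
              (CovZ.leaf K2_ok TI_l409 _))
             (CovZ.n1 (79056, 76464) (by decide +kernel)
              (CovZ.leaf K2_ok TI_l410 _)
              (CovZ.n1 (79200, 76464) (by decide +kernel)
               (CovZ.leaf K2_ok TI_l411 _)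
               (CovZ.leaf K2_ok TI_l412 _))))
            (CovZ.n1 (79488, 76320) (by decide +kernel)
             (CovZ.n2 (79344, 76176) (by decide +kernel)
              (CovZ.leaf K2_ok TI_l413 _)
              (CovZ.leaf K2_ok TI_l414 _))
             (CovZ.n1 (79344, 76464) (by decide +kernel)
              (CovZ.n2 (79488, 76464) (by decide +kernel)
               (CovZ.leaf K2_ok TI_l415 _)
               (CovZ.leaf K2_ok TI_l416 _))
              (CovZ.leaf K2_ok TI_l417 _))))
           (CovZ.n1 (79200, 76896) (by decide +kernel)
            (CovZ.n2 (79488, 76896) (by decide +kernel)
             (CovZ.n2 (79344, 76752) (by decide +kernel)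
              (CovZ.n2 (79344, 76896) (by decide +kernel)
               (CovZ.n2 (79416, 76824) (by decide +kernel)
                (CovZ.n2 (79344, 76824) (by decide +kernel)
                 (CovZ.n2 (79380, 76860) (by decide +kernel)
                  (CovZ.leaf K2_ok TI_l418 _)
                  (CovZ.leaf K2_ok TI_l419 _))
                 (CovZ.leaf K2_ok TI_l420 _))
                (CovZ.n1 (79416, 76896) (by decide +kernel)
                 (CovZ.leaf K2_ok TI_l421 _)
                 (CovZ.n1 (79380, 76860) (by decide +kernel)
                  (CovZ.leaf K2_ok TI_l422 _)
                  (CovZ.leaf K2_ok TI_l423 _))))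
               (CovZ.subM 6037970318645132095694121340112312947703872 (by decide +kernel)
                (CovZ.n1 (79272, 76824) (by decide +kernel)
                 (CovZ.n2 (79272, 76896) (by decide +kernel)
                  (CovZ.leaf K2_ok TI_l424 _)
                  (CovZ.leaf K2_ok TI_l425 _))
                 (CovZ.n1 (79344, 76824) (by decide +kernel)
                  (CovZ.leaf K2_ok TI_l426 _)
                  (CovZ.leaf K2_ok TI_l427 _)))))
              (CovZ.n1 (79488, 76752) (by decide +kernel)
               (CovZ.n2 (79416, 76680) (by decide +kernel)
                (CovZ.leaf K2_ok TI_l428 _)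
                (CovZ.leaf K2_ok TI_l429 _))
               (CovZ.n1 (79416, 76824) (by decide +kernel)
                (CovZ.n2 (79488, 76824) (by decide +kernel)
                 (CovZ.leaf K2_ok TI_l430 _)
                 (CovZ.leaf K2_ok TI_l431 _))
                (CovZ.leaf K2_ok TI_l432 _))))
             (CovZ.n1 (79344, 77040) (by decide +kernel)
              (CovZ.n2 (79488, 77040) (by decide +kernel)
               (CovZ.n2 (79416, 76968) (by decide +kernel)
                (CovZ.subM 24500371956682437647983999979341413892096 (by decide +kernel)
                 (CovZ.n2 (79416, 77040) (by decide +kernel)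
                  (CovZ.n2 (79452, 77004) (by decide +kernel)
                   (CovZ.n2 (79416, 77004) (by decide +kernel)
                    (CovZ.n2 (79434, 77022) (by decide +kernel)
                     (CovZ.leaf K2_ok TI_l433 _)
                     (CovZ.badM (by decide +kernel)))
                    (CovZ.leaf K2_ok TI_l434 _))
                   (CovZ.subM 21778113021314929940277003119603799310336 (by decide +kernel)
                    (CovZ.n1 (79452, 77040) (by decide +kernel)
                     (CovZ.leaf K2_ok TI_l435 _)
                     (CovZ.n1 (79434, 77022) (by decide +kernel)
                      (CovZ.badM (by decide +kernel))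
                      (CovZ.n1 (79452, 77022) (by decide +kernel)
                       (CovZ.leaf K2_ok TI_l436 _)
                       (CovZ.badM (by decide +kernel)))))))
                  (CovZ.n1 (79380, 77004) (by decide +kernel)
                   (CovZ.badM (by decide +kernel))
                   (CovZ.n1 (79416, 77004) (by decide +kernel)
                    (CovZ.leaf K2_ok TI_l437 _)
                    (CovZ.badM (by decide +kernel))))))
                (CovZ.n1 (79488, 76968) (by decide +kernel)
                 (CovZ.n2 (79452, 76932) (by decide +kernel)
                  (CovZ.leaf K2_ok TI_l438 _)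
                  (CovZ.leaf K2_ok TI_l439 _))
                 (CovZ.subM 29944889827417453063397993698249705275392 (by decide +kernel)
                  (CovZ.n1 (79452, 77004) (by decide +kernel)
                   (CovZ.n2 (79488, 77004) (by decide +kernel)
                    (CovZ.leaf K2_ok TI_l440 _)
                    (CovZ.leaf K2_ok TI_l441 _))
                   (CovZ.n1 (79452, 76968) (by decide +kernel)
                    (CovZ.leaf K2_ok TI_l442 _)
                    (CovZ.leaf K2_ok TI_l443 _))))))
               (CovZ.badM (by decide +kernel)))
              (CovZ.n1 (79344, 76896) (by decide +kernel)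
               (CovZ.subM 5950858032713371849047497440609780285571136 (by decide +kernel)
                (CovZ.n2 (79272, 76968) (by decide +kernel)
                 (CovZ.n2 (79344, 76968) (by decide +kernel)
                  (CovZ.n2 (79308, 76932) (by decide +kernel)
                   (CovZ.leaf K2_ok TI_l444 _)
                   (CovZ.n1 (79344, 76932) (by decide +kernel)
                    (CovZ.leaf K2_ok TI_l445 _)
                    (CovZ.leaf K2_ok TI_l446 _)))
                  (CovZ.subM 8589934592 (by decide +kernel)
                   (CovZ.n1 (79308, 77004) (by decide +kernel)
                    (CovZ.n2 (79344, 77004) (by decide +kernel)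
                     (CovZ.n2 (79326, 76986) (by decide +kernel)
                      (CovZ.badM (by decide +kernel))
                      (CovZ.n1 (79344, 76986) (by decide +kernel)
                       (CovZ.leaf K2_ok TI_l447 _)
                       (CovZ.badM (by decide +kernel))))
                     (CovZ.badM (by decide +kernel)))
                    (CovZ.n1 (79308, 76968) (by decide +kernel)
                     (CovZ.badM (by decide +kernel))
                     (CovZ.n1 (79326, 76986) (by decide +kernel)
                      (CovZ.leaf K2_ok TI_l448 _)
                      (CovZ.badM (by decide +kernel)))))))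
                 (CovZ.n1 (79272, 76896) (by decide +kernel)
                  (CovZ.n2 (79236, 76932) (by decide +kernel)
                   (CovZ.n2 (79272, 76932) (by decide +kernel)
                    (CovZ.leaf K2_ok TI_l449 _)
                    (CovZ.leaf K2_ok TI_l450 _))
                   (CovZ.leaf K2_ok TI_l451 _))
                  (CovZ.n1 (79308, 76932) (by decide +kernel)
                   (CovZ.leaf K2_ok TI_l452 _)
                   (CovZ.leaf K2_ok TI_l453 _)))))
               (CovZ.n1 (79416, 76968) (by decide +kernel)
                (CovZ.n2 (79416, 76896) (by decide +kernel)
                 (CovZ.n2 (79380, 76932) (by decide +kernel)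
                  (CovZ.n2 (79416, 76932) (by decide +kernel)
                   (CovZ.leaf K2_ok TI_l454 _)
                   (CovZ.leaf K2_ok TI_l455 _))
                  (CovZ.leaf K2_ok TI_l456 _))
                 (CovZ.n1 (79452, 76932) (by decide +kernel)
                  (CovZ.leaf K2_ok TI_l457 _)
                  (CovZ.leaf K2_ok TI_l458 _)))
                (CovZ.subM 5953580291648739356755204437469234431262784 (by decide +kernel)
                 (CovZ.n1 (79344, 76968) (by decide +kernel)
                  (CovZ.subM 24500330418307569369362971735095901159424 (by decide +kernel)
                   (CovZ.n2 (79380, 77004) (by decide +kernel)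
                    (CovZ.n2 (79380, 76968) (by decide +kernel)
                     (CovZ.n2 (79362, 76986) (by decide +kernel)
                      (CovZ.n2 (79380, 76986) (by decide +kernel)
                       (CovZ.leaf K2_ok TI_l459 _)
                       (CovZ.badM (by decide +kernel)))
                      (CovZ.leaf K2_ok TI_l460 _))
                     (CovZ.leaf K2_ok TI_l461 _))
                    (CovZ.n1 (79344, 77004) (by decide +kernel)
                     (CovZ.badM (by decide +kernel))
                     (CovZ.leaf K2_ok TI_l462 _))))
                  (CovZ.n1 (79380, 76932) (by decide +kernel)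
                   (CovZ.leaf K2_ok TI_l463 _)
                   (CovZ.leaf K2_ok TI_l464 _))))))))
            (CovZ.n1 (79200, 76608) (by decide +kernel)
             (CovZ.subM 6037970318645132095694119034269303734009856 (by decide +kernel)
              (CovZ.n2 (79056, 76752) (by decide +kernel)
               (CovZ.n2 (79200, 76752) (by decide +kernel)
                (CovZ.n2 (79128, 76680) (by decide +kernel)
                 (CovZ.leaf K2_ok TI_l465 _)
                 (CovZ.leaf K2_ok TI_l466 _))
                (CovZ.n1 (79128, 76824) (by decide +kernel)
                 (CovZ.n2 (79200, 76824) (by decide +kernel)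
                  (CovZ.leaf K2_ok TI_l467 _)
                  (CovZ.leaf K2_ok TI_l468 _))
                 (CovZ.leaf K2_ok TI_l469 _)))
               (CovZ.n1 (79056, 76608) (by decide +kernel)
                (CovZ.leaf K2_ok TI_l470 _)
                (CovZ.n1 (79128, 76680) (by decide +kernel)
                 (CovZ.leaf K2_ok TI_l471 _)
                 (CovZ.leaf K2_ok TI_l472 _)))))
             (CovZ.n1 (79344, 76752) (by decide +kernel)
              (CovZ.n2 (79344, 76608) (by decide +kernel)
               (CovZ.leaf K2_ok TI_l473 _)
               (CovZ.n1 (79416, 76680) (by decide +kernel)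
                (CovZ.leaf K2_ok TI_l474 _)
                (CovZ.leaf K2_ok TI_l475 _)))
              (CovZ.n1 (79200, 76752) (by decide +kernel)
               (CovZ.n2 (79272, 76824) (by decide +kernel)
                (CovZ.leaf K2_ok TI_l476 _)
                (CovZ.leaf K2_ok TI_l477 _))
               (CovZ.leaf K2_ok TI_l478 _))))))
          (CovZ.n1 (78912, 76032) (by decide +kernel)
           (CovZ.subM 6016192247162192034032463059393661978542080 (by decide +kernel)
            (CovZ.n2 (78624, 76320) (by decide +kernel)
             (CovZ.n2 (78912, 76320) (by decide +kernel)
              (CovZ.n2 (78768, 76176) (by decide +kernel)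
               (CovZ.leaf K2_ok TI_l479 _)
               (CovZ.leaf K2_ok TI_l480 _))
              (CovZ.n1 (78768, 76464) (by decide +kernel)
               (CovZ.n2 (78912, 76464) (by decide +kernel)
                (CovZ.leaf K2_ok TI_l481 _)
                (CovZ.leaf K2_ok TI_l482 _))
               (CovZ.leaf K2_ok TI_l483 _)))
             (CovZ.n1 (78624, 76032) (by decide +kernel)
              (CovZ.leaf K2_ok TI_l6613 _)
              (CovZ.n1 (78768, 76176) (by decide +kernel)
               (CovZ.leaf K2_ok TI_l484 _)
               (CovZ.leaf K2_ok TI_l6614 _)))))
           (CovZ.n1 (79200, 76320) (by decide +kernel)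
            (CovZ.n2 (79200, 76032) (by decide +kernel)
             (CovZ.leaf K2_ok TI_l485 _)
             (CovZ.n1 (79344, 76176) (by decide +kernel)
              (CovZ.leaf K2_ok TI_l486 _)
              (CovZ.leaf K2_ok TI_l487 _)))
            (CovZ.n1 (78912, 76320) (by decide +kernel)
             (CovZ.n2 (79056, 76464) (by decide +kernel)
              (CovZ.leaf K2_ok TI_l488 _)
              (CovZ.leaf K2_ok TI_l489 _))
             (CovZ.leaf K2_ok TI_l490 _))))))

theorem TI_u5 : CovZ TI_M (toL (selN TI_LN 764962940949789063068300553583349727107563584)) [0, 7, 6, 1] (79488, 76032) (80640, 76032) (79488, 77184) :=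
    (CovZ.n1 (80064, 76608) (by decide +kernel)
         (CovZ.n2 (80064, 76032) (by decide +kernel)
          (CovZ.n2 (79776, 76320) (by decide +kernel)
           (CovZ.n2 (80064, 76320) (by decide +kernel)
            (CovZ.n2 (79920, 76176) (by decide +kernel)
             (CovZ.leaf K2_ok TI_l491 _)
             (CovZ.leaf K2_ok TI_l492 _))
            (CovZ.n1 (79920, 76464) (by decide +kernel)
             (CovZ.n2 (80064, 76464) (by decide +kernel)
              (CovZ.leaf K2_ok TI_l493 _)
              (CovZ.leaf K2_ok TI_l494 _))
             (CovZ.leaf K2_ok TI_l495 _)))
           (CovZ.n1 (79776, 76032) (by decide +kernel)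
            (CovZ.leaf K2_ok TI_l496 _)
            (CovZ.leaf K2_ok TI_l497 _)))
          (CovZ.n1 (80352, 76320) (by decide +kernel)
           (CovZ.n2 (80352, 76032) (by decide +kernel)
            (CovZ.leaf K2_ok TI_l498 _)
            (CovZ.n1 (80496, 76176) (by decide +kernel)
             (CovZ.leaf K2_ok TI_l499 _)
             (CovZ.leaf K2_ok TI_l500 _)))
           (CovZ.n1 (80064, 76320) (by decide +kernel)
            (CovZ.n2 (80208, 76464) (by decide +kernel)
             (CovZ.leaf K2_ok TI_l501 _)
             (CovZ.leaf K2_ok TI_l502 _))
            (CovZ.leaf K2_ok TI_l503 _))))
         (CovZ.n1 (79488, 76608) (by decide +kernel)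
          (CovZ.n2 (79776, 76896) (by decide +kernel)
           (CovZ.n2 (79776, 76608) (by decide +kernel)
            (CovZ.subM 719664538972179945277550873528183591227375680 (by decide +kernel)
             (CovZ.n2 (79632, 76752) (by decide +kernel)
              (CovZ.n2 (79776, 76752) (by decide +kernel)
               (CovZ.n2 (79704, 76680) (by decide +kernel)
                (CovZ.leaf K2_ok TI_l504 _)
                (CovZ.leaf K2_ok TI_l505 _))
               (CovZ.n1 (79704, 76824) (by decide +kernel)
                (CovZ.n2 (79776, 76824) (by decide +kernel)
                 (CovZ.leaf K2_ok TI_l506 _)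
                 (CovZ.leaf K2_ok TI_l507 _))
                (CovZ.leaf K2_ok TI_l508 _)))
              (CovZ.n1 (79632, 76608) (by decide +kernel)
               (CovZ.leaf K2_ok TI_l509 _)
               (CovZ.n1 (79704, 76680) (by decide +kernel)
                (CovZ.leaf K2_ok TI_l510 _)
                (CovZ.leaf K2_ok TI_l511 _)))))
            (CovZ.n1 (79920, 76752) (by decide +kernel)
             (CovZ.n2 (79920, 76608) (by decide +kernel)
              (CovZ.leaf K2_ok TI_l512 _)
              (CovZ.n1 (79992, 76680) (by decide +kernel)
               (CovZ.leaf K2_ok TI_l513 _)
               (CovZ.leaf K2_ok TI_l514 _)))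
             (CovZ.n1 (79776, 76752) (by decide +kernel)
              (CovZ.n2 (79848, 76824) (by decide +kernel)
               (CovZ.leaf K2_ok TI_l515 _)
               (CovZ.leaf K2_ok TI_l516 _))
              (CovZ.leaf K2_ok TI_l517 _))))
           (CovZ.subM 719664538972179945277550873528183591227375680 (by decide +kernel)
            (CovZ.n1 (79488, 76896) (by decide +kernel)
             (CovZ.n2 (79632, 77040) (by decide +kernel)
              (CovZ.n2 (79632, 76896) (by decide +kernel)
               (CovZ.n2 (79560, 76968) (by decide +kernel)
                (CovZ.n2 (79632, 76968) (by decide +kernel)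
                 (CovZ.n2 (79596, 76932) (by decide +kernel)
                  (CovZ.n2 (79596, 76968) (by decide +kernel)
                   (CovZ.leaf K2_ok TI_l518 _)
                   (CovZ.leaf K2_ok TI_l519 _))
                  (CovZ.n1 (79632, 76932) (by decide +kernel)
                   (CovZ.leaf K2_ok TI_l520 _)
                   (CovZ.leaf K2_ok TI_l521 _)))
                 (CovZ.n1 (79596, 77004) (by decide +kernel)
                  (CovZ.n2 (79632, 77004) (by decide +kernel)
                   (CovZ.leaf K2_ok TI_l522 _)
                   (CovZ.n1 (79614, 77022) (by decide +kernel)
                    (CovZ.leaf K2_ok TI_l523 _)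
                    (CovZ.leaf K2_ok TI_l524 _)))
                  (CovZ.n1 (79596, 76968) (by decide +kernel)
                   (CovZ.leaf K2_ok TI_l525 _)
                   (CovZ.leaf K2_ok TI_l526 _))))
                (CovZ.n1 (79560, 76896) (by decide +kernel)
                 (CovZ.n2 (79524, 76932) (by decide +kernel)
                  (CovZ.leaf K2_ok TI_l527 _)
                  (CovZ.leaf K2_ok TI_l528 _))
                 (CovZ.n1 (79596, 76932) (by decide +kernel)
                  (CovZ.leaf K2_ok TI_l529 _)
                  (CovZ.leaf K2_ok TI_l530 _))))
               (CovZ.n1 (79704, 76968) (by decide +kernel)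
                (CovZ.n2 (79704, 76896) (by decide +kernel)
                 (CovZ.leaf K2_ok TI_l531 _)
                 (CovZ.n1 (79740, 76932) (by decide +kernel)
                  (CovZ.leaf K2_ok TI_l532 _)
                  (CovZ.leaf K2_ok TI_l533 _)))
                (CovZ.n1 (79632, 76968) (by decide +kernel)
                 (CovZ.n2 (79668, 77004) (by decide +kernel)
                  (CovZ.n2 (79668, 76968) (by decide +kernel)
                   (CovZ.leaf K2_ok TI_l534 _)
                   (CovZ.n1 (79686, 76986) (by decide +kernel)
                    (CovZ.leaf K2_ok TI_l535 _)
                    (CovZ.leaf K2_ok TI_l536 _)))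
                  (CovZ.leaf K2_ok TI_l537 _))
                 (CovZ.n1 (79668, 76932) (by decide +kernel)
                  (CovZ.leaf K2_ok TI_l538 _)
                  (CovZ.leaf K2_ok TI_l539 _)))))
              (CovZ.n1 (79488, 77040) (by decide +kernel)
               (CovZ.badM (by decide +kernel))
               (CovZ.n1 (79560, 76968) (by decide +kernel)
                (CovZ.subM 29944889827417453063400299541258918969408 (by decide +kernel)
                 (CovZ.n2 (79488, 76968) (by decide +kernel)
                  (CovZ.n2 (79524, 77004) (by decide +kernel)
                   (CovZ.n2 (79524, 76968) (by decide +kernel)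
                    (CovZ.leaf K2_ok TI_l540 _)
                    (CovZ.n1 (79542, 76986) (by decide +kernel)
                     (CovZ.leaf K2_ok TI_l541 _)
                     (CovZ.leaf K2_ok TI_l542 _)))
                   (CovZ.leaf K2_ok TI_l543 _))
                  (CovZ.n1 (79524, 76932) (by decide +kernel)
                   (CovZ.leaf K2_ok TI_l544 _)
                   (CovZ.leaf K2_ok TI_l545 _))))
                (CovZ.subM 713653791242807357982206382718445817896648704 (by decide +kernel)
                 (CovZ.n1 (79560, 77040) (by decide +kernel)
                  (CovZ.n2 (79596, 77004) (by decide +kernel)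
                   (CovZ.n2 (79560, 77004) (by decide +kernel)
                    (CovZ.n2 (79578, 77022) (by decide +kernel)
                     (CovZ.leaf K2_ok TI_l546 _)
                     (CovZ.leaf K2_ok TI_l547 _))
                    (CovZ.leaf K2_ok TI_l548 _))
                   (CovZ.subM 713623846394518315397421605752991538825150464 (by decide +kernel)
                    (CovZ.n1 (79596, 77040) (by decide +kernel)
                     (CovZ.n2 (79614, 77022) (by decide +kernel)
                      (CovZ.n2 (79596, 77022) (by decide +kernel)
                       (CovZ.leaf K2_ok TI_l549 _)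
                       (CovZ.leaf K2_ok TI_l550 _))
                      (CovZ.n1 (79614, 77040) (by decide +kernel)
                       (CovZ.leaf K2_ok TI_l551 _)
                       (CovZ.leaf K2_ok TI_l552 _)))
                     (CovZ.n1 (79578, 77022) (by decide +kernel)
                      (CovZ.n2 (79578, 77040) (by decide +kernel)
                       (CovZ.leaf K2_ok TI_l553 _)
                       (CovZ.leaf K2_ok TI_l554 _))
                      (CovZ.n1 (79596, 77022) (by decide +kernel)
                       (CovZ.leaf K2_ok TI_l555 _)
                       (CovZ.leaf K2_ok TI_l556 _))))))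
                  (CovZ.n1 (79524, 77004) (by decide +kernel)
                   (CovZ.subM 21778113021314929940277003119603799310336 (by decide +kernel)
                    (CovZ.n2 (79524, 77040) (by decide +kernel)
                     (CovZ.n2 (79542, 77022) (by decide +kernel)
                      (CovZ.leaf K2_ok TI_l557 _)
                      (CovZ.leaf K2_ok TI_l558 _))
                     (CovZ.n1 (79506, 77022) (by decide +kernel)
                      (CovZ.leaf K2_ok TI_l559 _)
                      (CovZ.n1 (79524, 77022) (by decide +kernel)
                       (CovZ.leaf K2_ok TI_l560 _)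
                       (CovZ.leaf K2_ok TI_l561 _)))))
                   (CovZ.n1 (79560, 77004) (by decide +kernel)
                    (CovZ.leaf K2_ok TI_l562 _)
                    (CovZ.n1 (79542, 77022) (by decide +kernel)
                     (CovZ.n2 (79560, 77022) (by decide +kernel)
                      (CovZ.leaf K2_ok TI_l563 _)
                      (CovZ.leaf K2_ok TI_l564 _))
                     (CovZ.leaf K2_ok TI_l565 _)))))))))
             (CovZ.n1 (79632, 76752) (by decide +kernel)
              (CovZ.n2 (79488, 76752) (by decide +kernel)
               (CovZ.n2 (79560, 76824) (by decide +kernel)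
                (CovZ.leaf K2_ok TI_l566 _)
                (CovZ.n1 (79488, 76824) (by decide +kernel)
                 (CovZ.n2 (79524, 76860) (by decide +kernel)
                  (CovZ.leaf K2_ok TI_l567 _)
                  (CovZ.leaf K2_ok TI_l568 _))
                 (CovZ.leaf K2_ok TI_l569 _)))
               (CovZ.leaf K2_ok TI_l570 _))
              (CovZ.n1 (79632, 76896) (by decide +kernel)
               (CovZ.n2 (79704, 76824) (by decide +kernel)
                (CovZ.n2 (79632, 76824) (by decide +kernel)
                 (CovZ.n2 (79668, 76860) (by decide +kernel)
                  (CovZ.leaf K2_ok TI_l571 _)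
                  (CovZ.leaf K2_ok TI_l572 _))
                 (CovZ.leaf K2_ok TI_l573 _))
                (CovZ.n1 (79704, 76896) (by decide +kernel)
                 (CovZ.leaf K2_ok TI_l574 _)
                 (CovZ.leaf K2_ok TI_l575 _)))
               (CovZ.n1 (79560, 76824) (by decide +kernel)
                (CovZ.n2 (79560, 76896) (by decide +kernel)
                 (CovZ.leaf K2_ok TI_l576 _)
                 (CovZ.n1 (79524, 76860) (by decide +kernel)
                  (CovZ.leaf K2_ok TI_l577 _)
                  (CovZ.leaf K2_ok TI_l578 _)))
                (CovZ.n1 (79632, 76824) (by decide +kernel)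
                 (CovZ.leaf K2_ok TI_l579 _)
                 (CovZ.leaf K2_ok TI_l580 _))))))))
          (CovZ.n1 (79776, 76320) (by decide +kernel)
           (CovZ.n2 (79488, 76320) (by decide +kernel)
            (CovZ.n2 (79632, 76464) (by decide +kernel)
             (CovZ.leaf K2_ok TI_l581 _)
             (CovZ.leaf K2_ok TI_l582 _))
            (CovZ.leaf K2_ok TI_l583 _))
           (CovZ.n1 (79776, 76608) (by decide +kernel)
            (CovZ.n2 (79920, 76464) (by decide +kernel)
             (CovZ.leaf K2_ok TI_l584 _)
             (CovZ.leaf K2_ok TI_l585 _))
            (CovZ.n1 (79632, 76464) (by decide +kernel)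
             (CovZ.leaf K2_ok TI_l586 _)
             (CovZ.n1 (79776, 76464) (by decide +kernel)
              (CovZ.leaf K2_ok TI_l587 _)
              (CovZ.leaf K2_ok TI_l588 _)))))))

theorem TI_u6 : CovZ TI_M (toL (selN TI_LN 6040692619200004729065075689601956240703552)) [0, 7, 6, 1] (79488, 77184) (78912, 77184) (78912, 76608) :=
    (CovZ.n2 (79200, 76896) (by decide +kernel)
            (CovZ.subM 6037970318645132095694119034269303734009856 (by decide +kernel)
             (CovZ.n2 (78912, 76896) (by decide +kernel)
              (CovZ.n2 (79056, 77040) (by decide +kernel)
               (CovZ.n2 (79056, 76896) (by decide +kernel)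
                (CovZ.n2 (78984, 76968) (by decide +kernel)
                 (CovZ.n2 (79056, 76968) (by decide +kernel)
                  (CovZ.n2 (79020, 76932) (by decide +kernel)
                   (CovZ.leaf K2_ok TI_l6642 _)
                   (CovZ.leaf K2_ok TI_l591 _))
                  (CovZ.subM 5575186299632655785383929568162090376495104 (by decide +kernel)
                   (CovZ.n1 (79020, 77004) (by decide +kernel)
                    (CovZ.n2 (79056, 77004) (by decide +kernel)
                     (CovZ.leaf K2_ok TI_l6643 _)
                     (CovZ.badM (by decide +kernel)))
                    (CovZ.n1 (79020, 76968) (by decide +kernel)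
                     (CovZ.n2 (79002, 76986) (by decide +kernel)
                      (CovZ.n2 (79020, 76986) (by decide +kernel)
                       (CovZ.leaf K2_ok TI_l6644 _)
                       (CovZ.leaf K2_ok TI_l6645 _))
                      (CovZ.leaf K2_ok TI_l6646 _))
                     (CovZ.leaf K2_ok TI_l6647 _)))))
                 (CovZ.n1 (78984, 76896) (by decide +kernel)
                  (CovZ.n2 (78948, 76932) (by decide +kernel)
                   (CovZ.n2 (78984, 76932) (by decide +kernel)
                    (CovZ.leaf K2_ok TI_l592 _)
                    (CovZ.leaf K2_ok TI_l6648 _))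
                   (CovZ.leaf K2_ok TI_l593 _))
                  (CovZ.n1 (79020, 76932) (by decide +kernel)
                   (CovZ.leaf K2_ok TI_l594 _)
                   (CovZ.leaf K2_ok TI_l595 _))))
                (CovZ.n1 (79128, 76968) (by decide +kernel)
                 (CovZ.n2 (79128, 76896) (by decide +kernel)
                  (CovZ.n2 (79092, 76932) (by decide +kernel)
                   (CovZ.n2 (79128, 76932) (by decide +kernel)
                    (CovZ.leaf K2_ok TI_l596 _)
                    (CovZ.leaf K2_ok TI_l6649 _))
                   (CovZ.leaf K2_ok TI_l597 _))
                  (CovZ.n1 (79164, 76932) (by decide +kernel)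
                   (CovZ.leaf K2_ok TI_l598 _)
                   (CovZ.leaf K2_ok TI_l599 _)))
                 (CovZ.n1 (79056, 76968) (by decide +kernel)
                  (CovZ.subM 5923635443359696771970425166172221025026048 (by decide +kernel)
                   (CovZ.n2 (79092, 77004) (by decide +kernel)
                    (CovZ.n2 (79092, 76968) (by decide +kernel)
                     (CovZ.leaf K2_ok TI_l6650 _)
                     (CovZ.leaf K2_ok TI_l6651 _))
                    (CovZ.n1 (79056, 77004) (by decide +kernel)
                     (CovZ.n2 (79074, 77022) (by decide +kernel)
                      (CovZ.leaf K2_ok TI_l6652 _)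
                      (CovZ.badM (by decide +kernel)))
                     (CovZ.leaf K2_ok TI_l6653 _))))
                  (CovZ.n1 (79092, 76932) (by decide +kernel)
                   (CovZ.leaf K2_ok TI_l600 _)
                   (CovZ.leaf K2_ok TI_l6654 _)))))
               (CovZ.subM 5667743103435151047445967461383531330011136 (by decide +kernel)
                (CovZ.n1 (78912, 77040) (by decide +kernel)
                 (CovZ.badM (by decide +kernel))
                 (CovZ.n1 (78984, 76968) (by decide +kernel)
                  (CovZ.n2 (78912, 76968) (by decide +kernel)
                   (CovZ.n2 (78948, 77004) (by decide +kernel)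
                    (CovZ.n2 (78948, 76968) (by decide +kernel)
                     (CovZ.n2 (78930, 76986) (by decide +kernel)
                      (CovZ.leaf K2_ok TI_l6655 _)
                      (CovZ.leaf K2_ok TI_l6656 _))
                     (CovZ.n1 (78966, 76986) (by decide +kernel)
                      (CovZ.leaf K2_ok TI_l6657 _)
                      (CovZ.n1 (78948, 76986) (by decide +kernel)
                       (CovZ.badM (by decide +kernel))
                       (CovZ.leaf K2_ok TI_l6658 _))))
                    (CovZ.badM (by decide +kernel)))
                   (CovZ.n1 (78948, 76932) (by decide +kernel)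
                    (CovZ.leaf K2_ok TI_l601 _)
                    (CovZ.n1 (78948, 76968) (by decide +kernel)
                     (CovZ.leaf K2_ok TI_l6659 _)
                     (CovZ.leaf K2_ok TI_l6660 _))))
                  (CovZ.n1 (78984, 77040) (by decide +kernel)
                   (CovZ.n2 (79020, 77004) (by decide +kernel)
                    (CovZ.n2 (78984, 77004) (by decide +kernel)
                     (CovZ.badM (by decide +kernel))
                     (CovZ.n1 (79002, 76986) (by decide +kernel)
                      (CovZ.leaf K2_ok TI_l6661 _)
                      (CovZ.badM (by decide +kernel))))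
                    (CovZ.badM (by decide +kernel)))
                   (CovZ.n1 (78948, 77004) (by decide +kernel)
                    (CovZ.badM (by decide +kernel))
                    (CovZ.n1 (78984, 77004) (by decide +kernel)
                     (CovZ.n2 (78966, 76986) (by decide +kernel)
                      (CovZ.badM (by decide +kernel))
                      (CovZ.leaf K2_ok TI_l6662 _))
                     (CovZ.badM (by decide +kernel)))))))))
              (CovZ.n1 (79056, 76752) (by decide +kernel)
               (CovZ.n2 (78912, 76752) (by decide +kernel)
                (CovZ.n2 (78984, 76824) (by decide +kernel)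
                 (CovZ.leaf K2_ok TI_l602 _)
                 (CovZ.leaf K2_ok TI_l603 _))
                (CovZ.leaf K2_ok TI_l604 _))
               (CovZ.n1 (79056, 76896) (by decide +kernel)
                (CovZ.n2 (79128, 76824) (by decide +kernel)
                 (CovZ.leaf K2_ok TI_l605 _)
                 (CovZ.n1 (79128, 76896) (by decide +kernel)
                  (CovZ.leaf K2_ok TI_l606 _)
                  (CovZ.leaf K2_ok TI_l607 _)))
                (CovZ.n1 (78984, 76824) (by decide +kernel)
                 (CovZ.n2 (78984, 76896) (by decide +kernel)
                  (CovZ.leaf K2_ok TI_l608 _)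
                  (CovZ.leaf K2_ok TI_l609 _))
                 (CovZ.n1 (79056, 76824) (by decide +kernel)
                  (CovZ.leaf K2_ok TI_l610 _)
                  (CovZ.leaf K2_ok TI_l611 _)))))))
            (CovZ.n1 (79200, 77184) (by decide +kernel)
             (CovZ.n2 (79344, 77040) (by decide +kernel)
              (CovZ.subM 5929079961230431787385841465734138530103360 (by decide +kernel)
               (CovZ.n2 (79200, 77040) (by decide +kernel)
                (CovZ.badM (by decide +kernel))
                (CovZ.n1 (79272, 76968) (by decide +kernel)
                 (CovZ.n2 (79200, 76968) (by decide +kernel)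
                  (CovZ.n2 (79236, 77004) (by decide +kernel)
                   (CovZ.n2 (79236, 76968) (by decide +kernel)
                    (CovZ.leaf K2_ok TI_l6663 _)
                    (CovZ.badM (by decide +kernel)))
                   (CovZ.n1 (79200, 77004) (by decide +kernel)
                    (CovZ.badM (by decide +kernel))
                    (CovZ.leaf K2_ok TI_l6664 _)))
                  (CovZ.leaf K2_ok TI_l612 _))
                 (CovZ.badM (by decide +kernel)))))
              (CovZ.badM (by decide +kernel)))
             (CovZ.subM 5929079961230431787385839159891129316409344 (by decide +kernel)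
              (CovZ.n1 (79056, 77040) (by decide +kernel)
               (CovZ.badM (by decide +kernel))
               (CovZ.n1 (79200, 77040) (by decide +kernel)
                (CovZ.n2 (79128, 76968) (by decide +kernel)
                 (CovZ.n2 (79128, 77040) (by decide +kernel)
                  (CovZ.n2 (79164, 77004) (by decide +kernel)
                   (CovZ.n2 (79128, 77004) (by decide +kernel)
                    (CovZ.n2 (79146, 77022) (by decide +kernel)
                     (CovZ.leaf K2_ok TI_l6665 _)
                     (CovZ.badM (by decide +kernel)))
                    (CovZ.leaf K2_ok TI_l6666 _))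
                   (CovZ.n1 (79164, 77040) (by decide +kernel)
                    (CovZ.n2 (79182, 77022) (by decide +kernel)
                     (CovZ.leaf K2_ok TI_l6667 _)
                     (CovZ.badM (by decide +kernel)))
                    (CovZ.n1 (79146, 77022) (by decide +kernel)
                     (CovZ.badM (by decide +kernel))
                     (CovZ.n1 (79164, 77022) (by decide +kernel)
                      (CovZ.leaf K2_ok TI_l6668 _)
                      (CovZ.badM (by decide +kernel))))))
                  (CovZ.n1 (79092, 77004) (by decide +kernel)
                   (CovZ.n2 (79092, 77040) (by decide +kernel)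
                    (CovZ.n2 (79110, 77022) (by decide +kernel)
                     (CovZ.n2 (79092, 77022) (by decide +kernel)
                      (CovZ.badM (by decide +kernel))
                      (CovZ.leaf K2_ok TI_l6669 _))
                     (CovZ.badM (by decide +kernel)))
                    (CovZ.n1 (79074, 77022) (by decide +kernel)
                     (CovZ.badM (by decide +kernel))
                     (CovZ.leaf K2_ok TI_l6670 _)))
                   (CovZ.n1 (79128, 77004) (by decide +kernel)
                    (CovZ.n2 (79110, 76986) (by decide +kernel)
                     (CovZ.leaf K2_ok TI_l6671 _)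
                     (CovZ.leaf K2_ok TI_l6672 _))
                    (CovZ.n1 (79110, 77022) (by decide +kernel)
                     (CovZ.badM (by decide +kernel))
                     (CovZ.n1 (79110, 77004) (by decide +kernel)
                      (CovZ.n2 (79101, 77013) (by decide +kernel)
                       (CovZ.badM (by decide +kernel))
                       (CovZ.leaf K2_ok TI_l6673 _))
                      (CovZ.badM (by decide +kernel)))))))
                 (CovZ.n1 (79200, 76968) (by decide +kernel)
                  (CovZ.n2 (79164, 76932) (by decide +kernel)
                   (CovZ.leaf K2_ok TI_l6674 _)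
                   (CovZ.leaf K2_ok TI_l613 _))
                  (CovZ.n1 (79164, 77004) (by decide +kernel)
                   (CovZ.n2 (79200, 77004) (by decide +kernel)
                    (CovZ.n2 (79182, 76986) (by decide +kernel)
                     (CovZ.leaf K2_ok TI_l6675 _)
                     (CovZ.leaf K2_ok TI_l6676 _))
                    (CovZ.n1 (79182, 77022) (by decide +kernel)
                     (CovZ.badM (by decide +kernel))
                     (CovZ.leaf K2_ok TI_l6677 _)))
                   (CovZ.n1 (79164, 76968) (by decide +kernel)
                    (CovZ.leaf K2_ok TI_l6678 _)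
                    (CovZ.n1 (79182, 76986) (by decide +kernel)
                     (CovZ.leaf K2_ok TI_l6679 _)
                     (CovZ.leaf K2_ok TI_l6680 _))))))
                (CovZ.n1 (79128, 77112) (by decide +kernel)
                 (CovZ.badM (by decide +kernel))
                 (CovZ.n1 (79128, 77040) (by decide +kernel)
                  (CovZ.badM (by decide +kernel))
                  (CovZ.badM (by decide +kernel)))))))))

theorem TI_u7 : CovZ TI_M (toL (selN TI_LN 6040692619200004729065075689601956240703552)) [0, 7, 6, 1] (78912, 77184) (78336, 77184) (78912, 76608) :=
    (CovZ.subM 6016192247162192034032463059393661978542080 (by decide +kernel)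
            (CovZ.n1 (78624, 76896) (by decide +kernel)
             (CovZ.n2 (78624, 77184) (by decide +kernel)
              (CovZ.n2 (78768, 77040) (by decide +kernel)
               (CovZ.n2 (78624, 77040) (by decide +kernel)
                (CovZ.badM (by decide +kernel))
                (CovZ.n1 (78696, 76968) (by decide +kernel)
                 (CovZ.n2 (78624, 76968) (by decide +kernel)
                  (CovZ.badM (by decide +kernel))
                  (CovZ.n1 (78660, 76932) (by decide +kernel)
                   (CovZ.leaf K2_ok TI_l6681 _)
                   (CovZ.n1 (78660, 76968) (by decide +kernel)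
                    (CovZ.leaf K2_ok TI_l6682 _)
                    (CovZ.leaf K2_ok TI_l6683 _))))
                 (CovZ.badM (by decide +kernel))))
               (CovZ.badM (by decide +kernel)))
              (CovZ.n1 (78480, 77040) (by decide +kernel)
               (CovZ.badM (by decide +kernel))
               (CovZ.n1 (78624, 77040) (by decide +kernel)
                (CovZ.n2 (78552, 76968) (by decide +kernel)
                 (CovZ.badM (by decide +kernel))
                 (CovZ.n1 (78624, 76968) (by decide +kernel)
                  (CovZ.n2 (78588, 76932) (by decide +kernel)
                   (CovZ.n2 (78588, 76968) (by decide +kernel)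
                    (CovZ.leaf K2_ok TI_l6684 _)
                    (CovZ.badM (by decide +kernel)))
                   (CovZ.n1 (78624, 76932) (by decide +kernel)
                    (CovZ.leaf K2_ok TI_l6685 _)
                    (CovZ.leaf K2_ok TI_l6686 _)))
                  (CovZ.badM (by decide +kernel))))
                (CovZ.badM (by decide +kernel)))))
             (CovZ.n1 (78912, 76896) (by decide +kernel)
              (CovZ.n2 (78768, 76752) (by decide +kernel)
               (CovZ.n2 (78768, 76896) (by decide +kernel)
                (CovZ.n2 (78840, 76824) (by decide +kernel)
                 (CovZ.n2 (78768, 76824) (by decide +kernel)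
                  (CovZ.n2 (78804, 76860) (by decide +kernel)
                   (CovZ.leaf K2_ok TI_l6687 _)
                   (CovZ.leaf K2_ok TI_l6688 _))
                  (CovZ.leaf K2_ok TI_l6689 _))
                 (CovZ.n1 (78840, 76896) (by decide +kernel)
                  (CovZ.leaf K2_ok TI_l614 _)
                  (CovZ.n1 (78804, 76860) (by decide +kernel)
                   (CovZ.leaf K2_ok TI_l6690 _)
                   (CovZ.leaf K2_ok TI_l6691 _))))
                (CovZ.n1 (78696, 76824) (by decide +kernel)
                 (CovZ.n2 (78696, 76896) (by decide +kernel)
                  (CovZ.leaf K2_ok TI_l6692 _)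
                  (CovZ.n1 (78660, 76860) (by decide +kernel)
                   (CovZ.leaf K2_ok TI_l6693 _)
                   (CovZ.leaf K2_ok TI_l6694 _)))
                 (CovZ.n1 (78768, 76824) (by decide +kernel)
                  (CovZ.leaf K2_ok TI_l6695 _)
                  (CovZ.n1 (78732, 76860) (by decide +kernel)
                   (CovZ.leaf K2_ok TI_l6696 _)
                   (CovZ.leaf K2_ok TI_l6697 _)))))
               (CovZ.n1 (78912, 76752) (by decide +kernel)
                (CovZ.n2 (78840, 76680) (by decide +kernel)
                 (CovZ.leaf K2_ok TI_l615 _)
                 (CovZ.leaf K2_ok TI_l616 _))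
                (CovZ.n1 (78840, 76824) (by decide +kernel)
                 (CovZ.n2 (78912, 76824) (by decide +kernel)
                  (CovZ.leaf K2_ok TI_l617 _)
                  (CovZ.leaf K2_ok TI_l618 _))
                 (CovZ.leaf K2_ok TI_l619 _))))
              (CovZ.n1 (78768, 77040) (by decide +kernel)
               (CovZ.n2 (78912, 77040) (by decide +kernel)
                (CovZ.n2 (78840, 76968) (by decide +kernel)
                 (CovZ.badM (by decide +kernel))
                 (CovZ.n1 (78912, 76968) (by decide +kernel)
                  (CovZ.n2 (78876, 76932) (by decide +kernel)
                   (CovZ.n2 (78876, 76968) (by decide +kernel)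
                    (CovZ.leaf K2_ok TI_l6698 _)
                    (CovZ.leaf K2_ok TI_l6699 _))
                   (CovZ.n1 (78912, 76932) (by decide +kernel)
                    (CovZ.leaf K2_ok TI_l620 _)
                    (CovZ.leaf K2_ok TI_l6700 _)))
                  (CovZ.badM (by decide +kernel))))
                (CovZ.badM (by decide +kernel)))
               (CovZ.n1 (78768, 76896) (by decide +kernel)
                (CovZ.n2 (78696, 76968) (by decide +kernel)
                 (CovZ.n2 (78768, 76968) (by decide +kernel)
                  (CovZ.n2 (78732, 76932) (by decide +kernel)
                   (CovZ.n2 (78732, 76968) (by decide +kernel)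
                    (CovZ.leaf K2_ok TI_l6701 _)
                    (CovZ.leaf K2_ok TI_l6702 _))
                   (CovZ.n1 (78768, 76932) (by decide +kernel)
                    (CovZ.leaf K2_ok TI_l6703 _)
                    (CovZ.leaf K2_ok TI_l6704 _)))
                  (CovZ.badM (by decide +kernel)))
                 (CovZ.n1 (78696, 76896) (by decide +kernel)
                  (CovZ.n2 (78660, 76932) (by decide +kernel)
                   (CovZ.n2 (78696, 76932) (by decide +kernel)
                    (CovZ.leaf K2_ok TI_l6705 _)
                    (CovZ.leaf K2_ok TI_l6706 _))
                   (CovZ.leaf K2_ok TI_l6707 _))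
                  (CovZ.n1 (78732, 76932) (by decide +kernel)
                   (CovZ.leaf K2_ok TI_l6708 _)
                   (CovZ.leaf K2_ok TI_l6709 _))))
                (CovZ.n1 (78840, 76968) (by decide +kernel)
                 (CovZ.n2 (78840, 76896) (by decide +kernel)
                  (CovZ.n2 (78804, 76932) (by decide +kernel)
                   (CovZ.n2 (78840, 76932) (by decide +kernel)
                    (CovZ.leaf K2_ok TI_l6710 _)
                    (CovZ.leaf K2_ok TI_l6711 _))
                   (CovZ.leaf K2_ok TI_l6712 _))
                  (CovZ.n1 (78876, 76932) (by decide +kernel)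
                   (CovZ.leaf K2_ok TI_l621 _)
                   (CovZ.leaf K2_ok TI_l6713 _)))
                 (CovZ.n1 (78768, 76968) (by decide +kernel)
                  (CovZ.badM (by decide +kernel))
                  (CovZ.n1 (78804, 76932) (by decide +kernel)
                   (CovZ.leaf K2_ok TI_l6714 _)
                   (CovZ.n1 (78804, 76968) (by decide +kernel)
                    (CovZ.leaf K2_ok TI_l6715 _)
                    (CovZ.leaf K2_ok TI_l6716 _))))))))))

theorem TI_u8 : CovZ TI_M (toL (selN TI_LN 697613412369349954128602298174950134900752)) [0, 7, 6, 1] (81216, 76608) (81504, 76896) (81216, 77184) :=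
    (CovZ.n2 (81216, 76896) (by decide +kernel)
            (CovZ.n2 (81360, 77040) (by decide +kernel)
             (CovZ.n2 (81360, 76896) (by decide +kernel)
              (CovZ.n2 (81288, 76968) (by decide +kernel)
               (CovZ.n2 (81360, 76968) (by decide +kernel)
                (CovZ.leaf K2_ok TI_l696 _)
                (CovZ.leaf K2_ok TI_l697 _))
               (CovZ.n1 (81288, 76896) (by decide +kernel)
                (CovZ.leaf K2_ok TI_l698 _)
                (CovZ.leaf K2_ok TI_l699 _)))
              (CovZ.n1 (81432, 76968) (by decide +kernel)
               (CovZ.n2 (81432, 76896) (by decide +kernel)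
                (CovZ.leaf K2_ok TI_l700 _)
                (CovZ.leaf K2_ok TI_l701 _))
               (CovZ.n1 (81360, 76968) (by decide +kernel)
                (CovZ.leaf K2_ok TI_l702 _)
                (CovZ.leaf K2_ok TI_l703 _))))
             (CovZ.n1 (81216, 77040) (by decide +kernel)
              (CovZ.subM 31901725429577601078125346088407105536 (by decide +kernel)
               (CovZ.n2 (81288, 77112) (by decide +kernel)
                (CovZ.n2 (81288, 77040) (by decide +kernel)
                 (CovZ.leaf K2_ok TI_l704 _)
                 (CovZ.n1 (81324, 77076) (by decide +kernel)
                  (CovZ.leaf K2_ok TI_l705 _)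
                  (CovZ.leaf K2_ok TI_l706 _)))
                (CovZ.n1 (81216, 77112) (by decide +kernel)
                 (CovZ.n2 (81252, 77148) (by decide +kernel)
                  (CovZ.leaf K2_ok TI_l707 _)
                  (CovZ.n1 (81216, 77148) (by decide +kernel)
                   (CovZ.n2 (81234, 77166) (by decide +kernel)
                    (CovZ.leaf K2_ok TI_l708 _)
                    (CovZ.leaf K2_ok TI_l709 _))
                   (CovZ.leaf K2_ok TI_l710 _)))
                 (CovZ.leaf K2_ok TI_l711 _))))
              (CovZ.n1 (81288, 76968) (by decide +kernel)
               (CovZ.n2 (81216, 76968) (by decide +kernel)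
                (CovZ.n2 (81252, 77004) (by decide +kernel)
                 (CovZ.leaf K2_ok TI_l712 _)
                 (CovZ.leaf K2_ok TI_l713 _))
                (CovZ.leaf K2_ok TI_l714 _))
               (CovZ.n1 (81288, 77040) (by decide +kernel)
                (CovZ.leaf K2_ok TI_l715 _)
                (CovZ.n1 (81252, 77004) (by decide +kernel)
                 (CovZ.leaf K2_ok TI_l716 _)
                 (CovZ.leaf K2_ok TI_l717 _))))))
            (CovZ.n1 (81360, 76752) (by decide +kernel)
             (CovZ.n2 (81216, 76752) (by decide +kernel)
              (CovZ.n2 (81288, 76824) (by decide +kernel)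
               (CovZ.leaf K2_ok TI_l718 _)
               (CovZ.leaf K2_ok TI_l719 _))
              (CovZ.leaf K2_ok TI_l720 _))
             (CovZ.n1 (81360, 76896) (by decide +kernel)
              (CovZ.leaf K2_ok TI_l721 _)
              (CovZ.n1 (81288, 76824) (by decide +kernel)
               (CovZ.leaf K2_ok TI_l722 _)
               (CovZ.n1 (81360, 76824) (by decide +kernel)
                (CovZ.leaf K2_ok TI_l723 _)
                (CovZ.leaf K2_ok TI_l724 _))))))

theorem TI_u9 : CovZ TI_M (toL (selN TI_LN 697613412369349954128602298174950134900752)) [0, 7, 6, 1] (81504, 76896) (81792, 77184) (81216, 77184) :=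
    (CovZ.n1 (81504, 77184) (by decide +kernel)
            (CovZ.n2 (81648, 77040) (by decide +kernel)
             (CovZ.n2 (81504, 77040) (by decide +kernel)
              (CovZ.n2 (81576, 77112) (by decide +kernel)
               (CovZ.n2 (81576, 77040) (by decide +kernel)
                (CovZ.n2 (81540, 77076) (by decide +kernel)
                 (CovZ.leaf K2_ok TI_l725 _)
                 (CovZ.leaf K2_ok TI_l726 _))
                (CovZ.n1 (81612, 77076) (by decide +kernel)
                 (CovZ.leaf K2_ok TI_l727 _)
                 (CovZ.leaf K2_ok TI_l728 _)))
               (CovZ.n1 (81504, 77112) (by decide +kernel)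
                (CovZ.n2 (81540, 77148) (by decide +kernel)
                 (CovZ.n2 (81540, 77112) (by decide +kernel)
                  (CovZ.leaf K2_ok TI_l729 _)
                  (CovZ.leaf K2_ok TI_l730 _))
                 (CovZ.n1 (81504, 77148) (by decide +kernel)
                  (CovZ.n2 (81522, 77166) (by decide +kernel)
                   (CovZ.leaf K2_ok TI_l731 _)
                   (CovZ.leaf K2_ok TI_l732 _))
                  (CovZ.leaf K2_ok TI_l733 _)))
                (CovZ.leaf K2_ok TI_l734 _)))
              (CovZ.n1 (81576, 76968) (by decide +kernel)
               (CovZ.n2 (81504, 76968) (by decide +kernel)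
                (CovZ.n2 (81540, 77004) (by decide +kernel)
                 (CovZ.leaf K2_ok TI_l735 _)
                 (CovZ.leaf K2_ok TI_l736 _))
                (CovZ.leaf K2_ok TI_l737 _))
               (CovZ.n1 (81576, 77040) (by decide +kernel)
                (CovZ.leaf K2_ok TI_l738 _)
                (CovZ.n1 (81540, 77004) (by decide +kernel)
                 (CovZ.leaf K2_ok TI_l739 _)
                 (CovZ.leaf K2_ok TI_l740 _)))))
             (CovZ.n1 (81648, 77184) (by decide +kernel)
              (CovZ.n2 (81720, 77112) (by decide +kernel)
               (CovZ.n2 (81648, 77112) (by decide +kernel)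
                (CovZ.n2 (81684, 77148) (by decide +kernel)
                 (CovZ.leaf K2_ok TI_l741 _)
                 (CovZ.n1 (81648, 77148) (by decide +kernel)
                  (CovZ.n2 (81666, 77166) (by decide +kernel)
                   (CovZ.leaf K2_ok TI_l742 _)
                   (CovZ.leaf K2_ok TI_l743 _))
                  (CovZ.leaf K2_ok TI_l744 _)))
                (CovZ.n1 (81684, 77076) (by decide +kernel)
                 (CovZ.leaf K2_ok TI_l745 _)
                 (CovZ.leaf K2_ok TI_l746 _)))
               (CovZ.n1 (81720, 77184) (by decide +kernel)
                (CovZ.n2 (81756, 77148) (by decide +kernel)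
                 (CovZ.leaf K2_ok TI_l747 _)
                 (CovZ.n1 (81756, 77184) (by decide +kernel)
                  (CovZ.n2 (81774, 77166) (by decide +kernel)
                   (CovZ.leaf K2_ok TI_l748 _)
                   (CovZ.badM (by decide +kernel)))
                  (CovZ.leaf K2_ok TI_l749 _)))
                (CovZ.n1 (81684, 77148) (by decide +kernel)
                 (CovZ.n2 (81684, 77184) (by decide +kernel)
                  (CovZ.n2 (81702, 77166) (by decide +kernel)
                   (CovZ.leaf K2_ok TI_l750 _)
                   (CovZ.badM (by decide +kernel)))
                  (CovZ.n1 (81666, 77166) (by decide +kernel)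
                   (CovZ.badM (by decide +kernel))
                   (CovZ.leaf K2_ok TI_l751 _)))
                 (CovZ.n1 (81720, 77148) (by decide +kernel)
                  (CovZ.leaf K2_ok TI_l752 _)
                  (CovZ.leaf K2_ok TI_l753 _)))))
              (CovZ.n1 (81576, 77112) (by decide +kernel)
               (CovZ.n2 (81576, 77184) (by decide +kernel)
                (CovZ.n2 (81612, 77148) (by decide +kernel)
                 (CovZ.n2 (81576, 77148) (by decide +kernel)
                  (CovZ.n2 (81594, 77166) (by decide +kernel)
                   (CovZ.leaf K2_ok TI_l754 _)
                   (CovZ.leaf K2_ok TI_l755 _))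
                  (CovZ.leaf K2_ok TI_l756 _))
                 (CovZ.n1 (81612, 77184) (by decide +kernel)
                  (CovZ.leaf K2_ok TI_l757 _)
                  (CovZ.n1 (81594, 77166) (by decide +kernel)
                   (CovZ.badM (by decide +kernel))
                   (CovZ.n1 (81612, 77166) (by decide +kernel)
                    (CovZ.leaf K2_ok TI_l758 _)
                    (CovZ.badM (by decide +kernel))))))
                (CovZ.n1 (81540, 77148) (by decide +kernel)
                 (CovZ.n2 (81540, 77184) (by decide +kernel)
                  (CovZ.n2 (81558, 77166) (by decide +kernel)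
                   (CovZ.leaf K2_ok TI_l759 _)
                   (CovZ.badM (by decide +kernel)))
                  (CovZ.n1 (81522, 77166) (by decide +kernel)
                   (CovZ.badM (by decide +kernel))
                   (CovZ.n1 (81540, 77166) (by decide +kernel)
                    (CovZ.leaf K2_ok TI_l760 _)
                    (CovZ.badM (by decide +kernel)))))
                 (CovZ.n1 (81576, 77148) (by decide +kernel)
                  (CovZ.leaf K2_ok TI_l761 _)
                  (CovZ.n1 (81558, 77166) (by decide +kernel)
                   (CovZ.leaf K2_ok TI_l762 _)
                   (CovZ.leaf K2_ok TI_l763 _)))))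
               (CovZ.n1 (81648, 77112) (by decide +kernel)
                (CovZ.n2 (81612, 77076) (by decide +kernel)
                 (CovZ.leaf K2_ok TI_l764 _)
                 (CovZ.leaf K2_ok TI_l765 _))
                (CovZ.n1 (81612, 77148) (by decide +kernel)
                 (CovZ.n2 (81648, 77148) (by decide +kernel)
                  (CovZ.leaf K2_ok TI_l766 _)
                  (CovZ.leaf K2_ok TI_l767 _))
                 (CovZ.n1 (81612, 77112) (by decide +kernel)
                  (CovZ.leaf K2_ok TI_l768 _)
                  (CovZ.leaf K2_ok TI_l769 _)))))))
            (CovZ.n1 (81360, 77040) (by decide +kernel)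
             (CovZ.n2 (81360, 77184) (by decide +kernel)
              (CovZ.n2 (81432, 77112) (by decide +kernel)
               (CovZ.n2 (81360, 77112) (by decide +kernel)
                (CovZ.n2 (81396, 77148) (by decide +kernel)
                 (CovZ.leaf K2_ok TI_l770 _)
                 (CovZ.leaf K2_ok TI_l771 _))
                (CovZ.leaf K2_ok TI_l772 _))
               (CovZ.n1 (81432, 77184) (by decide +kernel)
                (CovZ.n2 (81468, 77148) (by decide +kernel)
                 (CovZ.leaf K2_ok TI_l773 _)
                 (CovZ.n1 (81468, 77184) (by decide +kernel)
                  (CovZ.n2 (81486, 77166) (by decide +kernel)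
                   (CovZ.leaf K2_ok TI_l774 _)
                   (CovZ.n1 (81486, 77184) (by decide +kernel)
                    (CovZ.leaf K2_ok TI_l775 _)
                    (CovZ.leaf K2_ok TI_l776 _)))
                  (CovZ.leaf K2_ok TI_l777 _)))
                (CovZ.n1 (81396, 77148) (by decide +kernel)
                 (CovZ.n2 (81396, 77184) (by decide +kernel)
                  (CovZ.leaf K2_ok TI_l778 _)
                  (CovZ.leaf K2_ok TI_l779 _))
                 (CovZ.n1 (81432, 77148) (by decide +kernel)
                  (CovZ.leaf K2_ok TI_l780 _)
                  (CovZ.leaf K2_ok TI_l781 _)))))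
              (CovZ.subM 31901725429577601078125346088407105536 (by decide +kernel)
               (CovZ.n1 (81288, 77112) (by decide +kernel)
                (CovZ.n2 (81288, 77184) (by decide +kernel)
                 (CovZ.n2 (81324, 77148) (by decide +kernel)
                  (CovZ.n2 (81288, 77148) (by decide +kernel)
                   (CovZ.n2 (81306, 77166) (by decide +kernel)
                    (CovZ.leaf K2_ok TI_l782 _)
                    (CovZ.n1 (81288, 77166) (by decide +kernel)
                     (CovZ.n2 (81297, 77175) (by decide +kernel)
                      (CovZ.leaf K2_ok TI_l783 _)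
                      (CovZ.leaf K2_ok TI_l784 _))
                     (CovZ.leaf K2_ok TI_l785 _)))
                   (CovZ.leaf K2_ok TI_l786 _))
                  (CovZ.n1 (81324, 77184) (by decide +kernel)
                   (CovZ.n2 (81342, 77166) (by decide +kernel)
                    (CovZ.leaf K2_ok TI_l787 _)
                    (CovZ.leaf K2_ok TI_l788 _))
                   (CovZ.n1 (81306, 77166) (by decide +kernel)
                    (CovZ.n2 (81306, 77184) (by decide +kernel)
                     (CovZ.leaf K2_ok TI_l789 _)
                     (CovZ.n1 (81297, 77175) (by decide +kernel)
                      (CovZ.badM (by decide +kernel))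
                      (CovZ.leaf K2_ok TI_l790 _)))
                    (CovZ.leaf K2_ok TI_l791 _))))
                 (CovZ.n1 (81252, 77148) (by decide +kernel)
                  (CovZ.n2 (81252, 77184) (by decide +kernel)
                   (CovZ.n2 (81270, 77166) (by decide +kernel)
                    (CovZ.leaf K2_ok TI_l792 _)
                    (CovZ.n1 (81270, 77184) (by decide +kernel)
                     (CovZ.leaf K2_ok TI_l793 _)
                     (CovZ.leaf K2_ok TI_l794 _)))
                   (CovZ.leaf K2_ok TI_l795 _))
                  (CovZ.n1 (81288, 77148) (by decide +kernel)
                   (CovZ.leaf K2_ok TI_l796 _)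
                   (CovZ.n1 (81270, 77166) (by decide +kernel)
                    (CovZ.n2 (81288, 77166) (by decide +kernel)
                     (CovZ.leaf K2_ok TI_l797 _)
                     (CovZ.leaf K2_ok TI_l798 _))
                    (CovZ.leaf K2_ok TI_l799 _)))))
                (CovZ.n1 (81360, 77112) (by decide +kernel)
                 (CovZ.n2 (81324, 77076) (by decide +kernel)
                  (CovZ.leaf K2_ok TI_l800 _)
                  (CovZ.leaf K2_ok TI_l801 _))
                 (CovZ.n1 (81324, 77148) (by decide +kernel)
                  (CovZ.n2 (81360, 77148) (by decide +kernel)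
                   (CovZ.leaf K2_ok TI_l802 _)
                   (CovZ.n1 (81342, 77166) (by decide +kernel)
                    (CovZ.leaf K2_ok TI_l803 _)
                    (CovZ.leaf K2_ok TI_l804 _)))
                  (CovZ.leaf K2_ok TI_l805 _))))))
             (CovZ.n1 (81504, 77040) (by decide +kernel)
              (CovZ.n2 (81432, 76968) (by decide +kernel)
               (CovZ.n2 (81432, 77040) (by decide +kernel)
                (CovZ.leaf K2_ok TI_l806 _)
                (CovZ.leaf K2_ok TI_l807 _))
               (CovZ.n1 (81504, 76968) (by decide +kernel)
                (CovZ.leaf K2_ok TI_l808 _)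
                (CovZ.leaf K2_ok TI_l809 _)))
              (CovZ.n1 (81432, 77112) (by decide +kernel)
               (CovZ.n2 (81504, 77112) (by decide +kernel)
                (CovZ.n2 (81468, 77076) (by decide +kernel)
                 (CovZ.leaf K2_ok TI_l810 _)
                 (CovZ.n1 (81504, 77076) (by decide +kernel)
                  (CovZ.leaf K2_ok TI_l811 _)
                  (CovZ.leaf K2_ok TI_l812 _)))
                (CovZ.n1 (81468, 77148) (by decide +kernel)
                 (CovZ.n2 (81504, 77148) (by decide +kernel)
                  (CovZ.leaf K2_ok TI_l813 _)
                  (CovZ.n1 (81486, 77166) (by decide +kernel)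
                   (CovZ.leaf K2_ok TI_l814 _)
                   (CovZ.leaf K2_ok TI_l815 _)))
                 (CovZ.n1 (81468, 77112) (by decide +kernel)
                  (CovZ.leaf K2_ok TI_l816 _)
                  (CovZ.n1 (81486, 77130) (by decide +kernel)
                   (CovZ.leaf K2_ok TI_l817 _)
                   (CovZ.leaf K2_ok TI_l818 _)))))
               (CovZ.n1 (81432, 77040) (by decide +kernel)
                (CovZ.n2 (81396, 77076) (by decide +kernel)
                 (CovZ.leaf K2_ok TI_l819 _)
                 (CovZ.leaf K2_ok TI_l820 _))
                (CovZ.n1 (81468, 77076) (by decide +kernel)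
                 (CovZ.leaf K2_ok TI_l821 _)
                 (CovZ.leaf K2_ok TI_l822 _)))))))

theorem TI_u10 : CovZ TI_M (toL (selN TI_LN 758927714116198997356752962610921092207198208)) [0, 7, 6, 1] (81216, 77184) (80928, 77184) (80928, 76896) :=
    (CovZ.n2 (81072, 77040) (by decide +kernel)
             (CovZ.n2 (80928, 77040) (by decide +kernel)
              (CovZ.n2 (81000, 77112) (by decide +kernel)
               (CovZ.n2 (81000, 77040) (by decide +kernel)
                (CovZ.n2 (80964, 77076) (by decide +kernel)
                 (CovZ.n2 (81000, 77076) (by decide +kernel)
                  (CovZ.leaf K2_ok TI_l823 _)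
                  (CovZ.leaf K2_ok TI_l824 _))
                 (CovZ.leaf K2_ok TI_l825 _))
                (CovZ.n1 (81036, 77076) (by decide +kernel)
                 (CovZ.leaf K2_ok TI_l826 _)
                 (CovZ.leaf K2_ok TI_l827 _)))
               (CovZ.n1 (80928, 77112) (by decide +kernel)
                (CovZ.subM 44606966816657410256513448416545368040636416 (by decide +kernel)
                 (CovZ.n2 (80964, 77148) (by decide +kernel)
                  (CovZ.n2 (80964, 77112) (by decide +kernel)
                   (CovZ.leaf K2_ok TI_l828 _)
                   (CovZ.n1 (80982, 77130) (by decide +kernel)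
                    (CovZ.leaf K2_ok TI_l829 _)
                    (CovZ.leaf K2_ok TI_l830 _)))
                  (CovZ.n1 (80928, 77148) (by decide +kernel)
                   (CovZ.n2 (80946, 77166) (by decide +kernel)
                    (CovZ.leaf K2_ok TI_l831 _)
                    (CovZ.leaf K2_ok TI_l832 _))
                   (CovZ.leaf K2_ok TI_l833 _))))
                (CovZ.n1 (80964, 77076) (by decide +kernel)
                 (CovZ.leaf K2_ok TI_l834 _)
                 (CovZ.leaf K2_ok TI_l835 _))))
              (CovZ.n1 (81000, 76968) (by decide +kernel)
               (CovZ.n2 (80928, 76968) (by decide +kernel)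
                (CovZ.n2 (80964, 77004) (by decide +kernel)
                 (CovZ.leaf K2_ok TI_l836 _)
                 (CovZ.leaf K2_ok TI_l837 _))
                (CovZ.leaf K2_ok TI_l838 _))
               (CovZ.n1 (81000, 77040) (by decide +kernel)
                (CovZ.leaf K2_ok TI_l839 _)
                (CovZ.leaf K2_ok TI_l840 _))))
             (CovZ.n1 (81072, 77184) (by decide +kernel)
              (CovZ.n2 (81144, 77112) (by decide +kernel)
               (CovZ.subM 696932847635503120001352219136871860895744 (by decide +kernel)
                (CovZ.n2 (81072, 77112) (by decide +kernel)
                 (CovZ.n2 (81108, 77148) (by decide +kernel)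
                  (CovZ.n2 (81108, 77112) (by decide +kernel)
                   (CovZ.leaf K2_ok TI_l841 _)
                   (CovZ.n1 (81126, 77130) (by decide +kernel)
                    (CovZ.leaf K2_ok TI_l842 _)
                    (CovZ.leaf K2_ok TI_l843 _)))
                  (CovZ.n1 (81072, 77148) (by decide +kernel)
                   (CovZ.n2 (81090, 77166) (by decide +kernel)
                    (CovZ.leaf K2_ok TI_l844 _)
                    (CovZ.leaf K2_ok TI_l845 _))
                   (CovZ.leaf K2_ok TI_l846 _)))
                 (CovZ.n1 (81108, 77076) (by decide +kernel)
                  (CovZ.leaf K2_ok TI_l847 _)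
                  (CovZ.leaf K2_ok TI_l848 _))))
               (CovZ.subM 31901725428958631058482620766651514880 (by decide +kernel)
                (CovZ.n1 (81144, 77184) (by decide +kernel)
                 (CovZ.n2 (81180, 77148) (by decide +kernel)
                  (CovZ.n2 (81144, 77148) (by decide +kernel)
                   (CovZ.n2 (81162, 77166) (by decide +kernel)
                    (CovZ.leaf K2_ok TI_l849 _)
                    (CovZ.leaf K2_ok TI_l850 _))
                   (CovZ.leaf K2_ok TI_l851 _))
                  (CovZ.n1 (81180, 77184) (by decide +kernel)
                   (CovZ.leaf K2_ok TI_l852 _)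
                   (CovZ.n1 (81162, 77166) (by decide +kernel)
                    (CovZ.badM (by decide +kernel))
                    (CovZ.leaf K2_ok TI_l853 _))))
                 (CovZ.n1 (81108, 77148) (by decide +kernel)
                  (CovZ.n2 (81108, 77184) (by decide +kernel)
                   (CovZ.n2 (81126, 77166) (by decide +kernel)
                    (CovZ.leaf K2_ok TI_l854 _)
                    (CovZ.badM (by decide +kernel)))
                   (CovZ.n1 (81090, 77166) (by decide +kernel)
                    (CovZ.badM (by decide +kernel))
                    (CovZ.n1 (81108, 77166) (by decide +kernel)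
                     (CovZ.leaf K2_ok TI_l855 _)
                     (CovZ.badM (by decide +kernel)))))
                  (CovZ.n1 (81144, 77148) (by decide +kernel)
                   (CovZ.leaf K2_ok TI_l856 _)
                   (CovZ.n1 (81126, 77166) (by decide +kernel)
                    (CovZ.leaf K2_ok TI_l857 _)
                    (CovZ.leaf K2_ok TI_l858 _)))))))
              (CovZ.n1 (81000, 77112) (by decide +kernel)
               (CovZ.subM 44606966816657410256513448417671267947479040 (by decide +kernel)
                (CovZ.n2 (81000, 77184) (by decide +kernel)
                 (CovZ.n2 (81036, 77148) (by decide +kernel)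
                  (CovZ.n2 (81000, 77148) (by decide +kernel)
                   (CovZ.n2 (81018, 77166) (by decide +kernel)
                    (CovZ.leaf K2_ok TI_l859 _)
                    (CovZ.leaf K2_ok TI_l860 _))
                   (CovZ.leaf K2_ok TI_l861 _))
                  (CovZ.n1 (81036, 77184) (by decide +kernel)
                   (CovZ.n2 (81054, 77166) (by decide +kernel)
                    (CovZ.leaf K2_ok TI_l862 _)
                    (CovZ.n1 (81054, 77184) (by decide +kernel)
                     (CovZ.leaf K2_ok TI_l863 _)
                     (CovZ.leaf K2_ok TI_l864 _)))
                   (CovZ.n1 (81018, 77166) (by decide +kernel)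
                    (CovZ.n2 (81018, 77184) (by decide +kernel)
                     (CovZ.leaf K2_ok TI_l865 _)
                     (CovZ.leaf K2_ok TI_l866 _))
                    (CovZ.leaf K2_ok TI_l867 _))))
                 (CovZ.n1 (80964, 77148) (by decide +kernel)
                  (CovZ.n2 (80964, 77184) (by decide +kernel)
                   (CovZ.n2 (80982, 77166) (by decide +kernel)
                    (CovZ.leaf K2_ok TI_l868 _)
                    (CovZ.leaf K2_ok TI_l869 _))
                   (CovZ.n1 (80946, 77166) (by decide +kernel)
                    (CovZ.n2 (80946, 77184) (by decide +kernel)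
                     (CovZ.leaf K2_ok TI_l870 _)
                     (CovZ.leaf K2_ok TI_l871 _))
                    (CovZ.n1 (80964, 77166) (by decide +kernel)
                     (CovZ.leaf K2_ok TI_l872 _)
                     (CovZ.leaf K2_ok TI_l873 _))))
                  (CovZ.n1 (81000, 77148) (by decide +kernel)
                   (CovZ.n2 (80982, 77130) (by decide +kernel)
                    (CovZ.leaf K2_ok TI_l874 _)
                    (CovZ.leaf K2_ok TI_l875 _))
                   (CovZ.leaf K2_ok TI_l876 _)))))
               (CovZ.n1 (81072, 77112) (by decide +kernel)
                (CovZ.n2 (81036, 77076) (by decide +kernel)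
                 (CovZ.n2 (81036, 77112) (by decide +kernel)
                  (CovZ.leaf K2_ok TI_l877 _)
                  (CovZ.leaf K2_ok TI_l878 _))
                 (CovZ.leaf K2_ok TI_l879 _))
                (CovZ.subM 5476419596163973442011872374544935518208 (by decide +kernel)
                 (CovZ.n1 (81036, 77148) (by decide +kernel)
                  (CovZ.n2 (81072, 77148) (by decide +kernel)
                   (CovZ.leaf K2_ok TI_l880 _)
                   (CovZ.n1 (81054, 77166) (by decide +kernel)
                    (CovZ.n2 (81072, 77166) (by decide +kernel)
                     (CovZ.leaf K2_ok TI_l881 _)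
                     (CovZ.leaf K2_ok TI_l882 _))
                    (CovZ.leaf K2_ok TI_l883 _)))
                  (CovZ.n1 (81036, 77112) (by decide +kernel)
                   (CovZ.leaf K2_ok TI_l884 _)
                   (CovZ.leaf K2_ok TI_l885 _))))))))

theorem TI_u11 : CovZ TI_M (toL (selN TI_LN 758927714116198997356752962610921092207198208)) [0, 7, 6, 1] (80928, 77184) (80640, 77184) (80928, 76896) :=
    (CovZ.n1 (80784, 77040) (by decide +kernel)
             (CovZ.n2 (80784, 77184) (by decide +kernel)
              (CovZ.n2 (80856, 77112) (by decide +kernel)
               (CovZ.n2 (80784, 77112) (by decide +kernel)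
                (CovZ.subM 44606945548999337112027675763110567379042304 (by decide +kernel)
                 (CovZ.n2 (80820, 77148) (by decide +kernel)
                  (CovZ.n2 (80820, 77112) (by decide +kernel)
                   (CovZ.leaf K2_ok TI_l886 _)
                   (CovZ.n1 (80838, 77130) (by decide +kernel)
                    (CovZ.leaf K2_ok TI_l887 _)
                    (CovZ.leaf K2_ok TI_l888 _)))
                  (CovZ.n1 (80784, 77148) (by decide +kernel)
                   (CovZ.n2 (80802, 77166) (by decide +kernel)
                    (CovZ.leaf K2_ok TI_l889 _)
                    (CovZ.n1 (80784, 77166) (by decide +kernel)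
                     (CovZ.badM (by decide +kernel))
                     (CovZ.leaf K2_ok TI_l890 _)))
                   (CovZ.leaf K2_ok TI_l891 _))))
                (CovZ.n1 (80820, 77076) (by decide +kernel)
                 (CovZ.leaf K2_ok TI_l892 _)
                 (CovZ.leaf K2_ok TI_l893 _)))
               (CovZ.subM 44606966816657410875483468059235505490198528 (by decide +kernel)
                (CovZ.n1 (80856, 77184) (by decide +kernel)
                 (CovZ.n2 (80892, 77148) (by decide +kernel)
                  (CovZ.n2 (80856, 77148) (by decide +kernel)
                   (CovZ.n2 (80874, 77166) (by decide +kernel)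
                    (CovZ.leaf K2_ok TI_l894 _)
                    (CovZ.leaf K2_ok TI_l895 _))
                   (CovZ.leaf K2_ok TI_l896 _))
                  (CovZ.n1 (80892, 77184) (by decide +kernel)
                   (CovZ.leaf K2_ok TI_l897 _)
                   (CovZ.n1 (80874, 77166) (by decide +kernel)
                    (CovZ.badM (by decide +kernel))
                    (CovZ.n1 (80892, 77166) (by decide +kernel)
                     (CovZ.leaf K2_ok TI_l898 _)
                     (CovZ.badM (by decide +kernel))))))
                 (CovZ.n1 (80820, 77148) (by decide +kernel)
                  (CovZ.subM 44601501031128601477642239820840645293342720 (by decide +kernel)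
                   (CovZ.n2 (80820, 77184) (by decide +kernel)
                    (CovZ.n2 (80838, 77166) (by decide +kernel)
                     (CovZ.leaf K2_ok TI_l899 _)
                     (CovZ.badM (by decide +kernel)))
                    (CovZ.n1 (80802, 77166) (by decide +kernel)
                     (CovZ.badM (by decide +kernel))
                     (CovZ.n1 (80820, 77166) (by decide +kernel)
                      (CovZ.leaf K2_ok TI_l900 _)
                      (CovZ.badM (by decide +kernel))))))
                  (CovZ.n1 (80856, 77148) (by decide +kernel)
                   (CovZ.n2 (80838, 77130) (by decide +kernel)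
                    (CovZ.leaf K2_ok TI_l901 _)
                    (CovZ.leaf K2_ok TI_l902 _))
                   (CovZ.n1 (80838, 77166) (by decide +kernel)
                    (CovZ.n2 (80856, 77166) (by decide +kernel)
                     (CovZ.leaf K2_ok TI_l903 _)
                     (CovZ.badM (by decide +kernel)))
                    (CovZ.leaf K2_ok TI_l904 _)))))))
              (CovZ.n1 (80712, 77112) (by decide +kernel)
               (CovZ.subM 44606945549650909520544983369636588734971904 (by decide +kernel)
                (CovZ.n2 (80712, 77184) (by decide +kernel)
                 (CovZ.n2 (80748, 77148) (by decide +kernel)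
                  (CovZ.n2 (80712, 77148) (by decide +kernel)
                   (CovZ.n2 (80730, 77166) (by decide +kernel)
                    (CovZ.leaf K2_ok TI_l905 _)
                    (CovZ.leaf K2_ok TI_l906 _))
                   (CovZ.leaf K2_ok TI_l907 _))
                  (CovZ.subM 44601501031128601477642239820840645293309952 (by decide +kernel)
                   (CovZ.n1 (80748, 77184) (by decide +kernel)
                    (CovZ.n2 (80766, 77166) (by decide +kernel)
                     (CovZ.leaf K2_ok TI_l908 _)
                     (CovZ.badM (by decide +kernel)))
                    (CovZ.n1 (80730, 77166) (by decide +kernel)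
                     (CovZ.badM (by decide +kernel))
                     (CovZ.leaf K2_ok TI_l909 _)))))
                 (CovZ.n1 (80676, 77148) (by decide +kernel)
                  (CovZ.subM 44601501031128601477642239820840645293309952 (by decide +kernel)
                   (CovZ.n2 (80676, 77184) (by decide +kernel)
                    (CovZ.n2 (80694, 77166) (by decide +kernel)
                     (CovZ.n2 (80676, 77166) (by decide +kernel)
                      (CovZ.badM (by decide +kernel))
                      (CovZ.leaf K2_ok TI_l910 _))
                     (CovZ.badM (by decide +kernel)))
                    (CovZ.n1 (80658, 77166) (by decide +kernel)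
                     (CovZ.badM (by decide +kernel))
                     (CovZ.n1 (80676, 77166) (by decide +kernel)
                      (CovZ.leaf K2_ok TI_l911 _)
                      (CovZ.badM (by decide +kernel))))))
                  (CovZ.n1 (80712, 77148) (by decide +kernel)
                   (CovZ.leaf K2_ok TI_l912 _)
                   (CovZ.n1 (80694, 77166) (by decide +kernel)
                    (CovZ.n2 (80712, 77166) (by decide +kernel)
                     (CovZ.leaf K2_ok TI_l913 _)
                     (CovZ.badM (by decide +kernel)))
                    (CovZ.leaf K2_ok TI_l914 _))))))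
               (CovZ.n1 (80784, 77112) (by decide +kernel)
                (CovZ.n2 (80748, 77076) (by decide +kernel)
                 (CovZ.leaf K2_ok TI_l915 _)
                 (CovZ.leaf K2_ok TI_l916 _))
                (CovZ.subM 44606945549650909520544983369636863612878848 (by decide +kernel)
                 (CovZ.n1 (80748, 77148) (by decide +kernel)
                  (CovZ.n2 (80784, 77148) (by decide +kernel)
                   (CovZ.n2 (80766, 77130) (by decide +kernel)
                    (CovZ.leaf K2_ok TI_l917 _)
                    (CovZ.leaf K2_ok TI_l918 _))
                   (CovZ.n1 (80766, 77166) (by decide +kernel)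
                    (CovZ.leaf K2_ok TI_l919 _)
                    (CovZ.leaf K2_ok TI_l920 _)))
                  (CovZ.n1 (80748, 77112) (by decide +kernel)
                   (CovZ.leaf K2_ok TI_l921 _)
                   (CovZ.leaf K2_ok TI_l922 _)))))))
             (CovZ.n1 (80928, 77040) (by decide +kernel)
              (CovZ.n2 (80856, 76968) (by decide +kernel)
               (CovZ.n2 (80856, 77040) (by decide +kernel)
                (CovZ.leaf K2_ok TI_l923 _)
                (CovZ.n1 (80820, 77004) (by decide +kernel)
                 (CovZ.leaf K2_ok TI_l924 _)
                 (CovZ.leaf K2_ok TI_l925 _)))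
               (CovZ.n1 (80928, 76968) (by decide +kernel)
                (CovZ.leaf K2_ok TI_l926 _)
                (CovZ.leaf K2_ok TI_l927 _)))
              (CovZ.n1 (80856, 77112) (by decide +kernel)
               (CovZ.n2 (80928, 77112) (by decide +kernel)
                (CovZ.n2 (80892, 77076) (by decide +kernel)
                 (CovZ.leaf K2_ok TI_l928 _)
                 (CovZ.n1 (80928, 77076) (by decide +kernel)
                  (CovZ.leaf K2_ok TI_l929 _)
                  (CovZ.leaf K2_ok TI_l930 _)))
                (CovZ.subM 44606966816657410875483468059235505490198528 (by decide +kernel)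
                 (CovZ.n1 (80892, 77148) (by decide +kernel)
                  (CovZ.n2 (80928, 77148) (by decide +kernel)
                   (CovZ.n2 (80910, 77130) (by decide +kernel)
                    (CovZ.leaf K2_ok TI_l931 _)
                    (CovZ.leaf K2_ok TI_l932 _))
                   (CovZ.leaf K2_ok TI_l933 _))
                  (CovZ.n1 (80892, 77112) (by decide +kernel)
                   (CovZ.leaf K2_ok TI_l934 _)
                   (CovZ.n1 (80910, 77130) (by decide +kernel)
                    (CovZ.leaf K2_ok TI_l935 _)
                    (CovZ.leaf K2_ok TI_l936 _))))))
               (CovZ.n1 (80856, 77040) (by decide +kernel)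
                (CovZ.n2 (80820, 77076) (by decide +kernel)
                 (CovZ.n2 (80856, 77076) (by decide +kernel)
                  (CovZ.leaf K2_ok TI_l937 _)
                  (CovZ.leaf K2_ok TI_l938 _))
                 (CovZ.leaf K2_ok TI_l939 _))
                (CovZ.n1 (80892, 77076) (by decide +kernel)
                 (CovZ.leaf K2_ok TI_l940 _)
                 (CovZ.leaf K2_ok TI_l941 _))))))

theorem TI_u12 : CovZ TI_M (toL (selN TI_LN 764962940949789063068300553583349727107563584)) [0, 7, 6, 1] (80640, 77184) (80352, 77184) (80352, 76896) :=
    (CovZ.n2 (80496, 77040) (by decide +kernel)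
             (CovZ.n2 (80352, 77040) (by decide +kernel)
              (CovZ.n2 (80424, 77112) (by decide +kernel)
               (CovZ.n2 (80424, 77040) (by decide +kernel)
                (CovZ.n2 (80388, 77076) (by decide +kernel)
                 (CovZ.n2 (80424, 77076) (by decide +kernel)
                  (CovZ.leaf K2_ok TI_l1009 _)
                  (CovZ.leaf K2_ok TI_l1010 _))
                 (CovZ.leaf K2_ok TI_l1011 _))
                (CovZ.n1 (80460, 77076) (by decide +kernel)
                 (CovZ.leaf K2_ok TI_l1012 _)
                 (CovZ.leaf K2_ok TI_l1013 _)))
               (CovZ.subM 45303846495560983063549722679114203111882816 (by decide +kernel)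
                (CovZ.n1 (80352, 77112) (by decide +kernel)
                 (CovZ.n2 (80388, 77148) (by decide +kernel)
                  (CovZ.n2 (80388, 77112) (by decide +kernel)
                   (CovZ.leaf K2_ok TI_l1014 _)
                   (CovZ.n1 (80406, 77130) (by decide +kernel)
                    (CovZ.leaf K2_ok TI_l1015 _)
                    (CovZ.n1 (80388, 77130) (by decide +kernel)
                     (CovZ.leaf K2_ok TI_l1016 _)
                     (CovZ.leaf K2_ok TI_l1017 _))))
                  (CovZ.n1 (80352, 77148) (by decide +kernel)
                   (CovZ.subM 44601501031047471839227633139144787568361472 (by decide +kernel)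
                    (CovZ.n2 (80370, 77166) (by decide +kernel)
                     (CovZ.n2 (80370, 77148) (by decide +kernel)
                      (CovZ.leaf K2_ok TI_l1018 _)
                      (CovZ.n1 (80379, 77157) (by decide +kernel)
                       (CovZ.leaf K2_ok TI_l1019 _)
                       (CovZ.leaf K2_ok TI_l1020 _)))
                     (CovZ.n1 (80352, 77166) (by decide +kernel)
                      (CovZ.badM (by decide +kernel))
                      (CovZ.leaf K2_ok TI_l1021 _))))
                   (CovZ.n1 (80370, 77130) (by decide +kernel)
                    (CovZ.leaf K2_ok TI_l1022 _)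
                    (CovZ.leaf K2_ok TI_l1023 _))))
                 (CovZ.n1 (80388, 77076) (by decide +kernel)
                  (CovZ.leaf K2_ok TI_l1024 _)
                  (CovZ.n1 (80388, 77112) (by decide +kernel)
                   (CovZ.n2 (80406, 77094) (by decide +kernel)
                    (CovZ.leaf K2_ok TI_l1025 _)
                    (CovZ.leaf K2_ok TI_l1026 _))
                   (CovZ.leaf K2_ok TI_l1027 _))))))
              (CovZ.n1 (80424, 76968) (by decide +kernel)
               (CovZ.n2 (80352, 76968) (by decide +kernel)
                (CovZ.leaf K2_ok TI_l1028 _)
                (CovZ.leaf K2_ok TI_l1029 _))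
               (CovZ.n1 (80424, 77040) (by decide +kernel)
                (CovZ.leaf K2_ok TI_l1030 _)
                (CovZ.leaf K2_ok TI_l1031 _))))
             (CovZ.n1 (80496, 77184) (by decide +kernel)
              (CovZ.n2 (80568, 77112) (by decide +kernel)
               (CovZ.n2 (80496, 77112) (by decide +kernel)
                (CovZ.subM 44601501031780174505129569375917680443523072 (by decide +kernel)
                 (CovZ.n2 (80532, 77148) (by decide +kernel)
                  (CovZ.n2 (80532, 77112) (by decide +kernel)
                   (CovZ.leaf K2_ok TI_l1032 _)
                   (CovZ.leaf K2_ok TI_l1033 _))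
                  (CovZ.n1 (80496, 77148) (by decide +kernel)
                   (CovZ.n2 (80514, 77166) (by decide +kernel)
                    (CovZ.leaf K2_ok TI_l1034 _)
                    (CovZ.leaf K2_ok TI_l1035 _))
                   (CovZ.n1 (80514, 77130) (by decide +kernel)
                    (CovZ.leaf K2_ok TI_l1036 _)
                    (CovZ.leaf K2_ok TI_l1037 _)))))
                (CovZ.n1 (80532, 77076) (by decide +kernel)
                 (CovZ.leaf K2_ok TI_l1038 _)
                 (CovZ.leaf K2_ok TI_l1039 _)))
               (CovZ.subM 44601501031780174505129569375917680443588608 (by decide +kernel)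
                (CovZ.n1 (80568, 77184) (by decide +kernel)
                 (CovZ.n2 (80604, 77148) (by decide +kernel)
                  (CovZ.n2 (80568, 77148) (by decide +kernel)
                   (CovZ.n2 (80586, 77166) (by decide +kernel)
                    (CovZ.leaf K2_ok TI_l1040 _)
                    (CovZ.leaf K2_ok TI_l1041 _))
                   (CovZ.n1 (80586, 77130) (by decide +kernel)
                    (CovZ.leaf K2_ok TI_l1042 _)
                    (CovZ.leaf K2_ok TI_l1043 _)))
                  (CovZ.subM 44601501031047471839227633139144856288165888 (by decide +kernel)
                   (CovZ.n1 (80604, 77184) (by decide +kernel)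
                    (CovZ.n2 (80622, 77166) (by decide +kernel)
                     (CovZ.leaf K2_ok TI_l1044 _)
                     (CovZ.badM (by decide +kernel)))
                    (CovZ.n1 (80586, 77166) (by decide +kernel)
                     (CovZ.badM (by decide +kernel))
                     (CovZ.leaf K2_ok TI_l1045 _)))))
                 (CovZ.n1 (80532, 77148) (by decide +kernel)
                  (CovZ.subM 44601501031047471839227633139144856288100352 (by decide +kernel)
                   (CovZ.n2 (80532, 77184) (by decide +kernel)
                    (CovZ.n2 (80550, 77166) (by decide +kernel)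
                     (CovZ.n2 (80532, 77166) (by decide +kernel)
                      (CovZ.badM (by decide +kernel))
                      (CovZ.leaf K2_ok TI_l1046 _))
                     (CovZ.badM (by decide +kernel)))
                    (CovZ.n1 (80514, 77166) (by decide +kernel)
                     (CovZ.badM (by decide +kernel))
                     (CovZ.leaf K2_ok TI_l1047 _))))
                  (CovZ.n1 (80568, 77148) (by decide +kernel)
                   (CovZ.leaf K2_ok TI_l1048 _)
                   (CovZ.n1 (80550, 77166) (by decide +kernel)
                    (CovZ.leaf K2_ok TI_l1049 _)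
                    (CovZ.leaf K2_ok TI_l1050 _)))))))
              (CovZ.n1 (80424, 77112) (by decide +kernel)
               (CovZ.subM 45298399319234256478302560571937941673214016 (by decide +kernel)
                (CovZ.n2 (80424, 77184) (by decide +kernel)
                 (CovZ.n2 (80460, 77148) (by decide +kernel)
                  (CovZ.n2 (80424, 77148) (by decide +kernel)
                   (CovZ.subM 44601501031047471839227633139144856287838208 (by decide +kernel)
                    (CovZ.n2 (80442, 77166) (by decide +kernel)
                     (CovZ.n2 (80442, 77148) (by decide +kernel)
                      (CovZ.leaf K2_ok TI_l1051 _)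
                      (CovZ.leaf K2_ok TI_l1052 _))
                     (CovZ.n1 (80424, 77166) (by decide +kernel)
                      (CovZ.badM (by decide +kernel))
                      (CovZ.leaf K2_ok TI_l1053 _))))
                   (CovZ.n1 (80442, 77130) (by decide +kernel)
                    (CovZ.leaf K2_ok TI_l1054 _)
                    (CovZ.n1 (80442, 77148) (by decide +kernel)
                     (CovZ.n2 (80451, 77139) (by decide +kernel)
                      (CovZ.leaf K2_ok TI_l1055 _)
                      (CovZ.leaf K2_ok TI_l1056 _))
                     (CovZ.leaf K2_ok TI_l1057 _))))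
                  (CovZ.subM 44601501031047471839227633139144856287838208 (by decide +kernel)
                   (CovZ.n1 (80460, 77184) (by decide +kernel)
                    (CovZ.n2 (80478, 77166) (by decide +kernel)
                     (CovZ.n2 (80460, 77166) (by decide +kernel)
                      (CovZ.badM (by decide +kernel))
                      (CovZ.leaf K2_ok TI_l1058 _))
                     (CovZ.badM (by decide +kernel)))
                    (CovZ.n1 (80442, 77166) (by decide +kernel)
                     (CovZ.badM (by decide +kernel))
                     (CovZ.n1 (80460, 77166) (by decide +kernel)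
                      (CovZ.leaf K2_ok TI_l1059 _)
                      (CovZ.badM (by decide +kernel)))))))
                 (CovZ.n1 (80388, 77148) (by decide +kernel)
                  (CovZ.subM 44601501031047471839227633139144787568361472 (by decide +kernel)
                   (CovZ.n2 (80388, 77184) (by decide +kernel)
                    (CovZ.n2 (80406, 77166) (by decide +kernel)
                     (CovZ.n2 (80388, 77166) (by decide +kernel)
                      (CovZ.badM (by decide +kernel))
                      (CovZ.leaf K2_ok TI_l1060 _))
                     (CovZ.badM (by decide +kernel)))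
                    (CovZ.n1 (80370, 77166) (by decide +kernel)
                     (CovZ.badM (by decide +kernel))
                     (CovZ.n1 (80388, 77166) (by decide +kernel)
                      (CovZ.leaf K2_ok TI_l1061 _)
                      (CovZ.badM (by decide +kernel))))))
                  (CovZ.n1 (80424, 77148) (by decide +kernel)
                   (CovZ.leaf K2_ok TI_l1062 _)
                   (CovZ.n1 (80406, 77166) (by decide +kernel)
                    (CovZ.n2 (80424, 77166) (by decide +kernel)
                     (CovZ.leaf K2_ok TI_l1063 _)
                     (CovZ.badM (by decide +kernel)))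
                    (CovZ.leaf K2_ok TI_l1064 _))))))
               (CovZ.n1 (80496, 77112) (by decide +kernel)
                (CovZ.n2 (80460, 77076) (by decide +kernel)
                 (CovZ.leaf K2_ok TI_l1065 _)
                 (CovZ.leaf K2_ok TI_l1066 _))
                (CovZ.subM 45298399319234256478302560571937941740322816 (by decide +kernel)
                 (CovZ.n1 (80460, 77148) (by decide +kernel)
                  (CovZ.n2 (80496, 77148) (by decide +kernel)
                   (CovZ.leaf K2_ok TI_l1067 _)
                   (CovZ.n1 (80478, 77166) (by decide +kernel)
                    (CovZ.n2 (80496, 77166) (by decide +kernel)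
                     (CovZ.leaf K2_ok TI_l1068 _)
                     (CovZ.badM (by decide +kernel)))
                    (CovZ.leaf K2_ok TI_l1069 _)))
                  (CovZ.n1 (80460, 77112) (by decide +kernel)
                   (CovZ.n2 (80442, 77130) (by decide +kernel)
                    (CovZ.n2 (80460, 77130) (by decide +kernel)
                     (CovZ.leaf K2_ok TI_l1070 _)
                     (CovZ.leaf K2_ok TI_l1071 _))
                    (CovZ.leaf K2_ok TI_l1072 _))
                   (CovZ.n1 (80478, 77130) (by decide +kernel)
                    (CovZ.n2 (80478, 77112) (by decide +kernel)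
                     (CovZ.leaf K2_ok TI_l1073 _)
                     (CovZ.leaf K2_ok TI_l1074 _))
                    (CovZ.leaf K2_ok TI_l1075 _)))))))))

theorem TI_u13 : CovZ TI_M (toL (selN TI_LN 764962940949789063068300553583349727107563584)) [0, 7, 6, 1] (80352, 77184) (80064, 77184) (80352, 76896) :=
    (CovZ.n1 (80208, 77040) (by decide +kernel)
             (CovZ.subM 45306568754496350590600240483964714838130752 (by decide +kernel)
              (CovZ.n2 (80208, 77184) (by decide +kernel)
               (CovZ.n2 (80280, 77112) (by decide +kernel)
                (CovZ.n2 (80208, 77112) (by decide +kernel)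
                 (CovZ.n2 (80244, 77148) (by decide +kernel)
                  (CovZ.n2 (80244, 77112) (by decide +kernel)
                   (CovZ.leaf K2_ok TI_l1076 _)
                   (CovZ.n1 (80262, 77130) (by decide +kernel)
                    (CovZ.leaf K2_ok TI_l1077 _)
                    (CovZ.leaf K2_ok TI_l1078 _)))
                  (CovZ.n1 (80208, 77148) (by decide +kernel)
                   (CovZ.n2 (80226, 77166) (by decide +kernel)
                    (CovZ.leaf K2_ok TI_l1079 _)
                    (CovZ.n1 (80208, 77166) (by decide +kernel)
                     (CovZ.badM (by decide +kernel))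
                     (CovZ.leaf K2_ok TI_l1080 _)))
                   (CovZ.n1 (80226, 77130) (by decide +kernel)
                    (CovZ.leaf K2_ok TI_l1081 _)
                    (CovZ.leaf K2_ok TI_l1082 _))))
                 (CovZ.n1 (80244, 77076) (by decide +kernel)
                  (CovZ.n2 (80208, 77076) (by decide +kernel)
                   (CovZ.n2 (80226, 77094) (by decide +kernel)
                    (CovZ.leaf K2_ok TI_l1083 _)
                    (CovZ.leaf K2_ok TI_l1084 _))
                   (CovZ.leaf K2_ok TI_l1085 _))
                  (CovZ.n1 (80244, 77112) (by decide +kernel)
                   (CovZ.leaf K2_ok TI_l1086 _)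
                   (CovZ.leaf K2_ok TI_l1087 _))))
                (CovZ.n1 (80280, 77184) (by decide +kernel)
                 (CovZ.n2 (80316, 77148) (by decide +kernel)
                  (CovZ.n2 (80280, 77148) (by decide +kernel)
                   (CovZ.subM 44601501031047471839227633139144804748230656 (by decide +kernel)
                    (CovZ.n2 (80298, 77166) (by decide +kernel)
                     (CovZ.n2 (80298, 77148) (by decide +kernel)
                      (CovZ.leaf K2_ok TI_l1088 _)
                      (CovZ.n1 (80307, 77157) (by decide +kernel)
                       (CovZ.leaf K2_ok TI_l1089 _)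
                       (CovZ.leaf K2_ok TI_l1090 _)))
                     (CovZ.n1 (80280, 77166) (by decide +kernel)
                      (CovZ.badM (by decide +kernel))
                      (CovZ.leaf K2_ok TI_l1091 _))))
                   (CovZ.n1 (80298, 77130) (by decide +kernel)
                    (CovZ.leaf K2_ok TI_l1092 _)
                    (CovZ.leaf K2_ok TI_l1093 _)))
                  (CovZ.subM 44601501031047471839227633139144804748230656 (by decide +kernel)
                   (CovZ.n1 (80316, 77184) (by decide +kernel)
                    (CovZ.n2 (80334, 77166) (by decide +kernel)
                     (CovZ.n2 (80316, 77166) (by decide +kernel)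
                      (CovZ.badM (by decide +kernel))
                      (CovZ.n1 (80325, 77157) (by decide +kernel)
                       (CovZ.leaf K2_ok TI_l1094 _)
                       (CovZ.n1 (80325, 77166) (by decide +kernel)
                        (CovZ.leaf K2_ok TI_l1095 _)
                        (CovZ.leaf K2_ok TI_l1096 _))))
                     (CovZ.badM (by decide +kernel)))
                    (CovZ.n1 (80298, 77166) (by decide +kernel)
                     (CovZ.badM (by decide +kernel))
                     (CovZ.n1 (80316, 77166) (by decide +kernel)
                      (CovZ.n2 (80307, 77157) (by decide +kernel)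
                       (CovZ.n2 (80307, 77166) (by decide +kernel)
                        (CovZ.leaf K2_ok TI_l1097 _)
                        (CovZ.leaf K2_ok TI_l1098 _))
                       (CovZ.n1 (80316, 77157) (by decide +kernel)
                        (CovZ.leaf K2_ok TI_l1099 _)
                        (CovZ.leaf K2_ok TI_l1100 _)))
                      (CovZ.badM (by decide +kernel)))))))
                 (CovZ.n1 (80244, 77148) (by decide +kernel)
                  (CovZ.subM 44601501031047471839227633139144787568361472 (by decide +kernel)
                   (CovZ.n2 (80244, 77184) (by decide +kernel)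
                    (CovZ.n2 (80262, 77166) (by decide +kernel)
                     (CovZ.n2 (80244, 77166) (by decide +kernel)
                      (CovZ.badM (by decide +kernel))
                      (CovZ.leaf K2_ok TI_l1101 _))
                     (CovZ.badM (by decide +kernel)))
                    (CovZ.n1 (80226, 77166) (by decide +kernel)
                     (CovZ.badM (by decide +kernel))
                     (CovZ.n1 (80244, 77166) (by decide +kernel)
                      (CovZ.leaf K2_ok TI_l1102 _)
                      (CovZ.badM (by decide +kernel))))))
                  (CovZ.n1 (80280, 77148) (by decide +kernel)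
                   (CovZ.n2 (80262, 77130) (by decide +kernel)
                    (CovZ.leaf K2_ok TI_l1103 _)
                    (CovZ.leaf K2_ok TI_l1104 _))
                   (CovZ.n1 (80262, 77166) (by decide +kernel)
                    (CovZ.leaf K2_ok TI_l1105 _)
                    (CovZ.leaf K2_ok TI_l1106 _))))))
               (CovZ.n1 (80136, 77112) (by decide +kernel)
                (CovZ.n2 (80136, 77184) (by decide +kernel)
                 (CovZ.n2 (80172, 77148) (by decide +kernel)
                  (CovZ.n2 (80136, 77148) (by decide +kernel)
                   (CovZ.subM 44601501031047471839227633139144783273394176 (by decide +kernel)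
                    (CovZ.n2 (80154, 77166) (by decide +kernel)
                     (CovZ.n2 (80154, 77148) (by decide +kernel)
                      (CovZ.n2 (80145, 77157) (by decide +kernel)
                       (CovZ.n2 (80154, 77157) (by decide +kernel)
                        (CovZ.leaf K2_ok TI_l1107 _)
                        (CovZ.leaf K2_ok TI_l1108 _))
                       (CovZ.leaf K2_ok TI_l1109 _))
                      (CovZ.n1 (80163, 77157) (by decide +kernel)
                       (CovZ.leaf K2_ok TI_l1110 _)
                       (CovZ.n1 (80154, 77157) (by decide +kernel)
                        (CovZ.leaf K2_ok TI_l1111 _)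
                        (CovZ.leaf K2_ok TI_l1112 _))))
                     (CovZ.n1 (80136, 77166) (by decide +kernel)
                      (CovZ.badM (by decide +kernel))
                      (CovZ.n1 (80145, 77157) (by decide +kernel)
                       (CovZ.leaf K2_ok TI_l1113 _)
                       (CovZ.leaf K2_ok TI_l1114 _)))))
                   (CovZ.n1 (80154, 77130) (by decide +kernel)
                    (CovZ.leaf K2_ok TI_l1115 _)
                    (CovZ.leaf K2_ok TI_l1116 _)))
                  (CovZ.subM 44601501031047471839227633139144783273394176 (by decide +kernel)
                   (CovZ.n1 (80172, 77184) (by decide +kernel)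
                    (CovZ.n2 (80190, 77166) (by decide +kernel)
                     (CovZ.n2 (80172, 77166) (by decide +kernel)
                      (CovZ.badM (by decide +kernel))
                      (CovZ.leaf K2_ok TI_l1117 _))
                     (CovZ.badM (by decide +kernel)))
                    (CovZ.n1 (80154, 77166) (by decide +kernel)
                     (CovZ.badM (by decide +kernel))
                     (CovZ.n1 (80172, 77166) (by decide +kernel)
                      (CovZ.leaf K2_ok TI_l1118 _)
                      (CovZ.badM (by decide +kernel)))))))
                 (CovZ.n1 (80100, 77148) (by decide +kernel)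
                  (CovZ.subM 162259276829213363391578018676736 (by decide +kernel)
                   (CovZ.n2 (80100, 77184) (by decide +kernel)
                    (CovZ.n2 (80118, 77166) (by decide +kernel)
                     (CovZ.leaf K2_ok TI_l1119 _)
                     (CovZ.badM (by decide +kernel)))
                    (CovZ.n1 (80082, 77166) (by decide +kernel)
                     (CovZ.badM (by decide +kernel))
                     (CovZ.n1 (80100, 77166) (by decide +kernel)
                      (CovZ.leaf K2_ok TI_l1120 _)
                      (CovZ.badM (by decide +kernel))))))
                  (CovZ.n1 (80136, 77148) (by decide +kernel)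
                   (CovZ.n2 (80118, 77130) (by decide +kernel)
                    (CovZ.n2 (80118, 77148) (by decide +kernel)
                     (CovZ.leaf K2_ok TI_l1121 _)
                     (CovZ.leaf K2_ok TI_l1122 _))
                    (CovZ.n1 (80136, 77130) (by decide +kernel)
                     (CovZ.leaf K2_ok TI_l1123 _)
                     (CovZ.leaf K2_ok TI_l1124 _)))
                   (CovZ.subM 10633986225575499009707682127056732160 (by decide +kernel)
                    (CovZ.n1 (80118, 77166) (by decide +kernel)
                     (CovZ.n2 (80136, 77166) (by decide +kernel)
                      (CovZ.leaf K2_ok TI_l1125 _)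
                      (CovZ.badM (by decide +kernel)))
                     (CovZ.n1 (80118, 77148) (by decide +kernel)
                      (CovZ.leaf K2_ok TI_l1126 _)
                      (CovZ.leaf K2_ok TI_l1127 _)))))))
                (CovZ.n1 (80208, 77112) (by decide +kernel)
                 (CovZ.n2 (80172, 77076) (by decide +kernel)
                  (CovZ.n2 (80172, 77112) (by decide +kernel)
                   (CovZ.leaf K2_ok TI_l1128 _)
                   (CovZ.leaf K2_ok TI_l1129 _))
                  (CovZ.n1 (80208, 77076) (by decide +kernel)
                   (CovZ.leaf K2_ok TI_l1130 _)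
                   (CovZ.leaf K2_ok TI_l1131 _)))
                 (CovZ.n1 (80172, 77148) (by decide +kernel)
                  (CovZ.n2 (80208, 77148) (by decide +kernel)
                   (CovZ.n2 (80190, 77130) (by decide +kernel)
                    (CovZ.n2 (80190, 77148) (by decide +kernel)
                     (CovZ.leaf K2_ok TI_l1132 _)
                     (CovZ.leaf K2_ok TI_l1133 _))
                    (CovZ.n1 (80208, 77130) (by decide +kernel)
                     (CovZ.leaf K2_ok TI_l1134 _)
                     (CovZ.leaf K2_ok TI_l1135 _)))
                   (CovZ.subM 44601501031047472458197652781834920722956288 (by decide +kernel)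
                    (CovZ.n1 (80190, 77166) (by decide +kernel)
                     (CovZ.n2 (80208, 77166) (by decide +kernel)
                      (CovZ.leaf K2_ok TI_l1136 _)
                      (CovZ.badM (by decide +kernel)))
                     (CovZ.n1 (80190, 77148) (by decide +kernel)
                      (CovZ.leaf K2_ok TI_l1137 _)
                      (CovZ.leaf K2_ok TI_l1138 _)))))
                  (CovZ.n1 (80172, 77112) (by decide +kernel)
                   (CovZ.leaf K2_ok TI_l1139 _)
                   (CovZ.n1 (80190, 77130) (by decide +kernel)
                    (CovZ.leaf K2_ok TI_l1140 _)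
                    (CovZ.leaf K2_ok TI_l1141 _))))))))
             (CovZ.n1 (80352, 77040) (by decide +kernel)
              (CovZ.n2 (80280, 76968) (by decide +kernel)
               (CovZ.n2 (80280, 77040) (by decide +kernel)
                (CovZ.leaf K2_ok TI_l1142 _)
                (CovZ.n1 (80244, 77004) (by decide +kernel)
                 (CovZ.leaf K2_ok TI_l1143 _)
                 (CovZ.leaf K2_ok TI_l1144 _)))
               (CovZ.n1 (80352, 76968) (by decide +kernel)
                (CovZ.leaf K2_ok TI_l1145 _)
                (CovZ.leaf K2_ok TI_l1146 _)))
              (CovZ.n1 (80280, 77112) (by decide +kernel)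
               (CovZ.subM 45303846495560983063549722679114203111882816 (by decide +kernel)
                (CovZ.n2 (80352, 77112) (by decide +kernel)
                 (CovZ.n2 (80316, 77076) (by decide +kernel)
                  (CovZ.n2 (80316, 77112) (by decide +kernel)
                   (CovZ.leaf K2_ok TI_l1147 _)
                   (CovZ.leaf K2_ok TI_l1148 _))
                  (CovZ.leaf K2_ok TI_l1149 _))
                 (CovZ.n1 (80316, 77148) (by decide +kernel)
                  (CovZ.n2 (80352, 77148) (by decide +kernel)
                   (CovZ.n2 (80334, 77130) (by decide +kernel)
                    (CovZ.leaf K2_ok TI_l1150 _)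
                    (CovZ.leaf K2_ok TI_l1151 _))
                   (CovZ.n1 (80334, 77166) (by decide +kernel)
                    (CovZ.n2 (80352, 77166) (by decide +kernel)
                     (CovZ.leaf K2_ok TI_l1152 _)
                     (CovZ.badM (by decide +kernel)))
                    (CovZ.leaf K2_ok TI_l1153 _)))
                  (CovZ.n1 (80316, 77112) (by decide +kernel)
                   (CovZ.leaf K2_ok TI_l1154 _)
                   (CovZ.n1 (80334, 77130) (by decide +kernel)
                    (CovZ.leaf K2_ok TI_l1155 _)
                    (CovZ.leaf K2_ok TI_l1156 _))))))
               (CovZ.n1 (80280, 77040) (by decide +kernel)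
                (CovZ.n2 (80244, 77076) (by decide +kernel)
                 (CovZ.n2 (80280, 77076) (by decide +kernel)
                  (CovZ.leaf K2_ok TI_l1157 _)
                  (CovZ.leaf K2_ok TI_l1158 _))
                 (CovZ.leaf K2_ok TI_l1159 _))
                (CovZ.n1 (80316, 77076) (by decide +kernel)
                 (CovZ.leaf K2_ok TI_l1160 _)
                 (CovZ.leaf K2_ok TI_l1161 _))))))

end Pool.Agent.TET
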