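import Pool.Agent.Helper38_TET.TI_M
import Pool.Agent.Helper38_TET.TI_L
import Pool.Agent.Helper38_TET.TI_4
import Pool.Agent.Helper38_TET.TI_6
import Pool.Agent.Helper38_TET.TI_7
import Pool.Agent.Helper38_TET.TI_8
import Pool.Agent.Helper38_TET.TI_9
import Pool.Agent.Helper38_TET.TI_10
import Pool.Agent.Helper38_TET.TI_25
import Pool.Agent.Helper38_TET.TI_26
import Pool.Agent.Helper38_TET.TI_27
import Pool.Agent.Helper38_TET.TI_28
import Pool.Agent.Helper38_TET.TI_29
import Pool.Agent.Helper38_TET.TI_45
import Pool.Agent.Helper38_TET.TI_U0

/-!
# MP_c7c9bf_co: certificates, family TI
-/

set_option autoImplicit false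
set_option maxRecDepth 100000

namespace Pool.Agent.TET

theorem TI_u14 : CovZ TI_M (toL (selN TI_LN 764962940949789063068300553583349727107563584)) [0, 7, 6, 1] (80640, 77184) (80064, 77184) (80064, 76608) :=
    (CovZ.n2 (80352, 76896) (by decide +kernel)
           (CovZ.n2 (80064, 76896) (by decide +kernel)
            (CovZ.n2 (80208, 77040) (by decide +kernel)
             (CovZ.n2 (80208, 76896) (by decide +kernel)
              (CovZ.n2 (80136, 76968) (by decide +kernel)
               (CovZ.n2 (80208, 76968) (by decide +kernel)
                (CovZ.leaf K2_ok TI_l971 _)
                (CovZ.n1 (80172, 77004) (by decide +kernel)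
                 (CovZ.leaf K2_ok TI_l972 _)
                 (CovZ.leaf K2_ok TI_l973 _)))
               (CovZ.n1 (80136, 76896) (by decide +kernel)
                (CovZ.leaf K2_ok TI_l974 _)
                (CovZ.leaf K2_ok TI_l975 _)))
              (CovZ.n1 (80280, 76968) (by decide +kernel)
               (CovZ.n2 (80280, 76896) (by decide +kernel)
                (CovZ.leaf K2_ok TI_l976 _)
                (CovZ.leaf K2_ok TI_l977 _))
               (CovZ.n1 (80208, 76968) (by decide +kernel)
                (CovZ.n2 (80244, 77004) (by decide +kernel)
                 (CovZ.leaf K2_ok TI_l978 _)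
                 (CovZ.leaf K2_ok TI_l979 _))
                (CovZ.leaf K2_ok TI_l980 _))))
             (CovZ.n1 (80064, 77040) (by decide +kernel)
              (CovZ.subM 45306568754496350590600240483964710543163456 (by decide +kernel)
               (CovZ.n2 (80136, 77112) (by decide +kernel)
                (CovZ.n2 (80136, 77040) (by decide +kernel)
                 (CovZ.n2 (80100, 77076) (by decide +kernel)
                  (CovZ.n2 (80136, 77076) (by decide +kernel)
                   (CovZ.leaf K2_ok TI_l981 _)
                   (CovZ.leaf K2_ok TI_l982 _))
                  (CovZ.leaf K2_ok TI_l983 _))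
                 (CovZ.n1 (80172, 77076) (by decide +kernel)
                  (CovZ.leaf K2_ok TI_l984 _)
                  (CovZ.leaf K2_ok TI_l985 _)))
                (CovZ.n1 (80064, 77112) (by decide +kernel)
                 (CovZ.n2 (80100, 77148) (by decide +kernel)
                  (CovZ.n2 (80100, 77112) (by decide +kernel)
                   (CovZ.leaf K2_ok TI_l986 _)
                   (CovZ.n1 (80118, 77130) (by decide +kernel)
                    (CovZ.leaf K2_ok TI_l987 _)
                    (CovZ.leaf K2_ok TI_l988 _)))
                  (CovZ.n1 (80064, 77148) (by decide +kernel)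
                   (CovZ.n2 (80082, 77166) (by decide +kernel)
                    (CovZ.leaf K2_ok TI_l989 _)
                    (CovZ.badM (by decide +kernel)))
                   (CovZ.leaf K2_ok TI_l990 _)))
                 (CovZ.n1 (80100, 77076) (by decide +kernel)
                  (CovZ.leaf K2_ok TI_l991 _)
                  (CovZ.n1 (80100, 77112) (by decide +kernel)
                   (CovZ.leaf K2_ok TI_l992 _)
                   (CovZ.leaf K2_ok TI_l993 _))))))
              (CovZ.n1 (80136, 76968) (by decide +kernel)
               (CovZ.n2 (80064, 76968) (by decide +kernel)
                (CovZ.n2 (80100, 77004) (by decide +kernel)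
                 (CovZ.leaf K2_ok TI_l994 _)
                 (CovZ.leaf K2_ok TI_l995 _))
                (CovZ.leaf K2_ok TI_l996 _))
               (CovZ.n1 (80136, 77040) (by decide +kernel)
                (CovZ.leaf K2_ok TI_l997 _)
                (CovZ.n1 (80100, 77004) (by decide +kernel)
                 (CovZ.leaf K2_ok TI_l998 _)
                 (CovZ.leaf K2_ok TI_l999 _))))))
            (CovZ.n1 (80208, 76752) (by decide +kernel)
             (CovZ.n2 (80064, 76752) (by decide +kernel)
              (CovZ.n2 (80136, 76824) (by decide +kernel)
               (CovZ.leaf K2_ok TI_l1000 _)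
               (CovZ.leaf K2_ok TI_l1001 _))
              (CovZ.leaf K2_ok TI_l1002 _))
             (CovZ.n1 (80208, 76896) (by decide +kernel)
              (CovZ.n2 (80280, 76824) (by decide +kernel)
               (CovZ.leaf K2_ok TI_l1003 _)
               (CovZ.leaf K2_ok TI_l1004 _))
              (CovZ.n1 (80136, 76824) (by decide +kernel)
               (CovZ.n2 (80136, 76896) (by decide +kernel)
                (CovZ.leaf K2_ok TI_l1005 _)
                (CovZ.leaf K2_ok TI_l1006 _))
               (CovZ.n1 (80208, 76824) (by decide +kernel)
                (CovZ.leaf K2_ok TI_l1007 _)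
                (CovZ.leaf K2_ok TI_l1008 _))))))
           (CovZ.n1 (80352, 77184) (by decide +kernel)
            TI_u12
            TI_u13))

theorem TI_u15 : CovZ TI_M (toL (selN TI_LN 764962940949789063068300553583349727107563584)) [0, 7, 6, 1] (80064, 77184) (79488, 77184) (80064, 76608) :=
    (CovZ.n1 (79776, 76896) (by decide +kernel)
           (CovZ.n2 (79776, 77184) (by decide +kernel)
            (CovZ.n2 (79920, 77040) (by decide +kernel)
             (CovZ.subM 713653791242888488258933824462508837540216896 (by decide +kernel)
              (CovZ.n2 (79776, 77040) (by decide +kernel)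
               (CovZ.badM (by decide +kernel))
               (CovZ.n1 (79848, 76968) (by decide +kernel)
                (CovZ.n2 (79776, 76968) (by decide +kernel)
                 (CovZ.n2 (79812, 77004) (by decide +kernel)
                  (CovZ.leaf K2_ok TI_l1162 _)
                  (CovZ.n1 (79776, 77004) (by decide +kernel)
                   (CovZ.leaf K2_ok TI_l1163 _)
                   (CovZ.leaf K2_ok TI_l1164 _)))
                 (CovZ.leaf K2_ok TI_l1165 _))
                (CovZ.n1 (79848, 77040) (by decide +kernel)
                 (CovZ.n2 (79884, 77004) (by decide +kernel)
                  (CovZ.n2 (79848, 77004) (by decide +kernel)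
                   (CovZ.n2 (79866, 77022) (by decide +kernel)
                    (CovZ.leaf K2_ok TI_l1166 _)
                    (CovZ.leaf K2_ok TI_l1167 _))
                   (CovZ.leaf K2_ok TI_l1168 _))
                  (CovZ.n1 (79884, 77040) (by decide +kernel)
                   (CovZ.leaf K2_ok TI_l1169 _)
                   (CovZ.leaf K2_ok TI_l1170 _)))
                 (CovZ.n1 (79812, 77004) (by decide +kernel)
                  (CovZ.n2 (79812, 77040) (by decide +kernel)
                   (CovZ.leaf K2_ok TI_l1171 _)
                   (CovZ.leaf K2_ok TI_l1172 _))
                  (CovZ.n1 (79848, 77004) (by decide +kernel)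
                   (CovZ.leaf K2_ok TI_l1173 _)
                   (CovZ.n1 (79830, 77022) (by decide +kernel)
                    (CovZ.leaf K2_ok TI_l1174 _)
                    (CovZ.leaf K2_ok TI_l1175 _))))))))
             (CovZ.subM 696900946561645951522046916021279524913152 (by decide +kernel)
              (CovZ.n1 (79920, 77184) (by decide +kernel)
               (CovZ.n2 (79992, 77112) (by decide +kernel)
                (CovZ.badM (by decide +kernel))
                (CovZ.n1 (79992, 77184) (by decide +kernel)
                 (CovZ.n2 (80028, 77148) (by decide +kernel)
                  (CovZ.badM (by decide +kernel))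
                  (CovZ.n1 (80028, 77184) (by decide +kernel)
                   (CovZ.n2 (80046, 77166) (by decide +kernel)
                    (CovZ.badM (by decide +kernel))
                    (CovZ.badM (by decide +kernel)))
                   (CovZ.badM (by decide +kernel))))
                 (CovZ.badM (by decide +kernel))))
               (CovZ.badM (by decide +kernel)))))
            (CovZ.subM 713653791242888488258933824462508837540216896 (by decide +kernel)
             (CovZ.n1 (79632, 77040) (by decide +kernel)
              (CovZ.badM (by decide +kernel))
              (CovZ.n1 (79776, 77040) (by decide +kernel)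
               (CovZ.n2 (79704, 76968) (by decide +kernel)
                (CovZ.n2 (79704, 77040) (by decide +kernel)
                 (CovZ.n2 (79740, 77004) (by decide +kernel)
                  (CovZ.n2 (79704, 77004) (by decide +kernel)
                   (CovZ.n2 (79722, 77022) (by decide +kernel)
                    (CovZ.leaf K2_ok TI_l1176 _)
                    (CovZ.leaf K2_ok TI_l1177 _))
                   (CovZ.leaf K2_ok TI_l1178 _))
                  (CovZ.subM 713626568611915308036850691721607297214988288 (by decide +kernel)
                   (CovZ.n1 (79740, 77040) (by decide +kernel)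
                    (CovZ.n2 (79758, 77022) (by decide +kernel)
                     (CovZ.leaf K2_ok TI_l1179 _)
                     (CovZ.n1 (79758, 77040) (by decide +kernel)
                      (CovZ.leaf K2_ok TI_l1180 _)
                      (CovZ.leaf K2_ok TI_l1181 _)))
                    (CovZ.n1 (79722, 77022) (by decide +kernel)
                     (CovZ.leaf K2_ok TI_l1182 _)
                     (CovZ.n1 (79740, 77022) (by decide +kernel)
                      (CovZ.leaf K2_ok TI_l1183 _)
                      (CovZ.leaf K2_ok TI_l1184 _))))))
                 (CovZ.n1 (79668, 77004) (by decide +kernel)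
                  (CovZ.n2 (79668, 77040) (by decide +kernel)
                   (CovZ.leaf K2_ok TI_l1185 _)
                   (CovZ.leaf K2_ok TI_l1186 _))
                  (CovZ.n1 (79704, 77004) (by decide +kernel)
                   (CovZ.n2 (79686, 76986) (by decide +kernel)
                    (CovZ.leaf K2_ok TI_l1187 _)
                    (CovZ.leaf K2_ok TI_l1188 _))
                   (CovZ.leaf K2_ok TI_l1189 _))))
                (CovZ.n1 (79776, 76968) (by decide +kernel)
                 (CovZ.n2 (79740, 76932) (by decide +kernel)
                  (CovZ.leaf K2_ok TI_l1190 _)
                  (CovZ.leaf K2_ok TI_l1191 _))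
                 (CovZ.n1 (79740, 77004) (by decide +kernel)
                  (CovZ.n2 (79776, 77004) (by decide +kernel)
                   (CovZ.leaf K2_ok TI_l1192 _)
                   (CovZ.n1 (79758, 77022) (by decide +kernel)
                    (CovZ.leaf K2_ok TI_l1193 _)
                    (CovZ.leaf K2_ok TI_l1194 _)))
                  (CovZ.leaf K2_ok TI_l1195 _))))
               (CovZ.badM (by decide +kernel))))))
           (CovZ.n1 (80064, 76896) (by decide +kernel)
            (CovZ.n2 (79920, 76752) (by decide +kernel)
             (CovZ.n2 (79920, 76896) (by decide +kernel)
              (CovZ.n2 (79992, 76824) (by decide +kernel)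
               (CovZ.leaf K2_ok TI_l1196 _)
               (CovZ.leaf K2_ok TI_l1197 _))
              (CovZ.n1 (79848, 76824) (by decide +kernel)
               (CovZ.leaf K2_ok TI_l1198 _)
               (CovZ.n1 (79920, 76824) (by decide +kernel)
                (CovZ.leaf K2_ok TI_l1199 _)
                (CovZ.leaf K2_ok TI_l1200 _))))
             (CovZ.n1 (80064, 76752) (by decide +kernel)
              (CovZ.n2 (79992, 76680) (by decide +kernel)
               (CovZ.leaf K2_ok TI_l1201 _)
               (CovZ.leaf K2_ok TI_l1202 _))
              (CovZ.n1 (79992, 76824) (by decide +kernel)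
               (CovZ.n2 (80064, 76824) (by decide +kernel)
                (CovZ.leaf K2_ok TI_l1203 _)
                (CovZ.leaf K2_ok TI_l1204 _))
               (CovZ.leaf K2_ok TI_l1205 _))))
            (CovZ.n1 (79920, 77040) (by decide +kernel)
             (CovZ.n2 (80064, 77040) (by decide +kernel)
              (CovZ.n2 (79992, 76968) (by decide +kernel)
               (CovZ.n2 (79992, 77040) (by decide +kernel)
                (CovZ.n2 (80028, 77004) (by decide +kernel)
                 (CovZ.leaf K2_ok TI_l1206 _)
                 (CovZ.n1 (80028, 77040) (by decide +kernel)
                  (CovZ.leaf K2_ok TI_l1207 _)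
                  (CovZ.leaf K2_ok TI_l1208 _)))
                (CovZ.subM 713632013171405548197272168487633195784749120 (by decide +kernel)
                 (CovZ.n1 (79956, 77004) (by decide +kernel)
                  (CovZ.n2 (79956, 77040) (by decide +kernel)
                   (CovZ.leaf K2_ok TI_l1209 _)
                   (CovZ.n1 (79938, 77022) (by decide +kernel)
                    (CovZ.leaf K2_ok TI_l1210 _)
                    (CovZ.leaf K2_ok TI_l1211 _)))
                  (CovZ.n1 (79992, 77004) (by decide +kernel)
                   (CovZ.leaf K2_ok TI_l1212 _)
                   (CovZ.leaf K2_ok TI_l1213 _)))))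
               (CovZ.n1 (80064, 76968) (by decide +kernel)
                (CovZ.leaf K2_ok TI_l1214 _)
                (CovZ.leaf K2_ok TI_l1215 _)))
              (CovZ.subM 705078357435104307528803938667987531202624 (by decide +kernel)
               (CovZ.n1 (79992, 77112) (by decide +kernel)
                (CovZ.n2 (80064, 77112) (by decide +kernel)
                 (CovZ.n2 (80028, 77076) (by decide +kernel)
                  (CovZ.leaf K2_ok TI_l1216 _)
                  (CovZ.n1 (80064, 77076) (by decide +kernel)
                   (CovZ.leaf K2_ok TI_l1217 _)
                   (CovZ.leaf K2_ok TI_l1218 _)))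
                 (CovZ.subM 696911580385612250191843260311828562968576 (by decide +kernel)
                  (CovZ.n1 (80028, 77148) (by decide +kernel)
                   (CovZ.n2 (80064, 77148) (by decide +kernel)
                    (CovZ.n2 (80046, 77130) (by decide +kernel)
                     (CovZ.leaf K2_ok TI_l1219 _)
                     (CovZ.leaf K2_ok TI_l1220 _))
                    (CovZ.subM 696898287454081973172991196020261297061888 (by decide +kernel)
                     (CovZ.n1 (80046, 77166) (by decide +kernel)
                      (CovZ.badM (by decide +kernel))
                      (CovZ.n1 (80046, 77148) (by decide +kernel)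
                       (CovZ.badM (by decide +kernel))
                       (CovZ.n1 (80055, 77157) (by decide +kernel)
                        (CovZ.leaf K2_ok TI_l6718 _)
                        (CovZ.badM (by decide +kernel)))))))
                   (CovZ.n1 (80028, 77112) (by decide +kernel)
                    (CovZ.badM (by decide +kernel))
                    (CovZ.n1 (80046, 77130) (by decide +kernel)
                     (CovZ.leaf K2_ok TI_l1221 _)
                     (CovZ.badM (by decide +kernel)))))))
                (CovZ.n1 (79992, 77040) (by decide +kernel)
                 (CovZ.subM 81130276727439438219993250005056 (by decide +kernel)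
                  (CovZ.n2 (79956, 77076) (by decide +kernel)
                   (CovZ.n2 (79992, 77076) (by decide +kernel)
                    (CovZ.n2 (79974, 77058) (by decide +kernel)
                     (CovZ.badM (by decide +kernel))
                     (CovZ.n1 (79992, 77058) (by decide +kernel)
                      (CovZ.leaf K2_ok TI_l1222 _)
                      (CovZ.leaf K2_ok TI_l1223 _)))
                    (CovZ.badM (by decide +kernel)))
                   (CovZ.n1 (79956, 77040) (by decide +kernel)
                    (CovZ.badM (by decide +kernel))
                    (CovZ.n1 (79974, 77058) (by decide +kernel)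
                     (CovZ.leaf K2_ok TI_l1224 _)
                     (CovZ.badM (by decide +kernel))))))
                 (CovZ.n1 (80028, 77076) (by decide +kernel)
                  (CovZ.n2 (80028, 77040) (by decide +kernel)
                   (CovZ.n2 (80010, 77058) (by decide +kernel)
                    (CovZ.n2 (80028, 77058) (by decide +kernel)
                     (CovZ.leaf K2_ok TI_l1225 _)
                     (CovZ.leaf K2_ok TI_l1226 _))
                    (CovZ.leaf K2_ok TI_l1227 _))
                   (CovZ.n1 (80046, 77058) (by decide +kernel)
                    (CovZ.leaf K2_ok TI_l1228 _)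
                    (CovZ.leaf K2_ok TI_l1229 _)))
                  (CovZ.subM 81130276727439438219993250005056 (by decide +kernel)
                   (CovZ.n1 (79992, 77076) (by decide +kernel)
                    (CovZ.n2 (80010, 77094) (by decide +kernel)
                     (CovZ.n2 (80010, 77076) (by decide +kernel)
                      (CovZ.leaf K2_ok TI_l1230 _)
                      (CovZ.n1 (80019, 77085) (by decide +kernel)
                       (CovZ.leaf K2_ok TI_l1231 _)
                       (CovZ.leaf K2_ok TI_l1232 _)))
                     (CovZ.badM (by decide +kernel)))
                    (CovZ.n1 (80010, 77058) (by decide +kernel)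
                     (CovZ.leaf K2_ok TI_l1233 _)
                     (CovZ.n1 (80010, 77076) (by decide +kernel)
                      (CovZ.leaf K2_ok TI_l1234 _)
                      (CovZ.leaf K2_ok TI_l1235 _))))))))))
             (CovZ.n1 (79920, 76896) (by decide +kernel)
              (CovZ.subM 713653791242888488258933824462508837540216896 (by decide +kernel)
               (CovZ.n2 (79848, 76968) (by decide +kernel)
                (CovZ.n2 (79920, 76968) (by decide +kernel)
                 (CovZ.n2 (79884, 76932) (by decide +kernel)
                  (CovZ.leaf K2_ok TI_l1236 _)
                  (CovZ.leaf K2_ok TI_l1237 _))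
                 (CovZ.n1 (79884, 77004) (by decide +kernel)
                  (CovZ.n2 (79920, 77004) (by decide +kernel)
                   (CovZ.leaf K2_ok TI_l1238 _)
                   (CovZ.leaf K2_ok TI_l1239 _))
                  (CovZ.leaf K2_ok TI_l1240 _)))
                (CovZ.n1 (79848, 76896) (by decide +kernel)
                 (CovZ.leaf K2_ok TI_l1241 _)
                 (CovZ.n1 (79884, 76932) (by decide +kernel)
                  (CovZ.leaf K2_ok TI_l1242 _)
                  (CovZ.leaf K2_ok TI_l1243 _)))))
              (CovZ.n1 (79992, 76968) (by decide +kernel)
               (CovZ.n2 (79992, 76896) (by decide +kernel)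
                (CovZ.n2 (79956, 76932) (by decide +kernel)
                 (CovZ.leaf K2_ok TI_l1244 _)
                 (CovZ.leaf K2_ok TI_l1245 _))
                (CovZ.n1 (80028, 76932) (by decide +kernel)
                 (CovZ.leaf K2_ok TI_l1246 _)
                 (CovZ.leaf K2_ok TI_l1247 _)))
               (CovZ.n1 (79920, 76968) (by decide +kernel)
                (CovZ.n2 (79956, 77004) (by decide +kernel)
                 (CovZ.leaf K2_ok TI_l1248 _)
                 (CovZ.leaf K2_ok TI_l1249 _))
                (CovZ.leaf K2_ok TI_l1250 _)))))))

theorem TI_u16 : CovZ TI_M (toL (selN TI_LN 12259964327692074679792736811004796249741536994636196432)) [0, 7, 6, 1] (82944, 78336) (80640, 78336) (80640, 76032) :=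
    (CovZ.n2 (81792, 77184) (by decide +kernel)
      (CovZ.n2 (80640, 77184) (by decide +kernel)
       (CovZ.n2 (81216, 77760) (by decide +kernel)
        (CovZ.n2 (81216, 77184) (by decide +kernel)
         (CovZ.badM (by decide +kernel))
         (CovZ.badM (by decide +kernel)))
        (CovZ.badM (by decide +kernel)))
       (CovZ.n1 (81216, 76608) (by decide +kernel)
        (CovZ.subM 758949492187681937418414618585796725372731392 (by decide +kernel)
         (CovZ.n2 (80640, 76608) (by decide +kernel)
          (CovZ.n2 (80928, 76896) (by decide +kernel)
           (CovZ.n2 (80928, 76608) (by decide +kernel)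
            (CovZ.n2 (80784, 76752) (by decide +kernel)
             (CovZ.n2 (80928, 76752) (by decide +kernel)
              (CovZ.n2 (80856, 76680) (by decide +kernel)
               (CovZ.leaf K2_ok TI_l643 _)
               (CovZ.leaf K2_ok TI_l644 _))
              (CovZ.n1 (80856, 76824) (by decide +kernel)
               (CovZ.n2 (80928, 76824) (by decide +kernel)
                (CovZ.leaf K2_ok TI_l645 _)
                (CovZ.leaf K2_ok TI_l646 _))
               (CovZ.leaf K2_ok TI_l647 _)))
             (CovZ.n1 (80784, 76608) (by decide +kernel)
              (CovZ.leaf K2_ok TI_l648 _)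
              (CovZ.n1 (80856, 76680) (by decide +kernel)
               (CovZ.leaf K2_ok TI_l649 _)
               (CovZ.leaf K2_ok TI_l650 _))))
            (CovZ.n1 (81072, 76752) (by decide +kernel)
             (CovZ.n2 (81072, 76608) (by decide +kernel)
              (CovZ.leaf K2_ok TI_l651 _)
              (CovZ.leaf K2_ok TI_l652 _))
             (CovZ.n1 (80928, 76752) (by decide +kernel)
              (CovZ.n2 (81000, 76824) (by decide +kernel)
               (CovZ.leaf K2_ok TI_l653 _)
               (CovZ.leaf K2_ok TI_l654 _))
              (CovZ.leaf K2_ok TI_l655 _))))
           (CovZ.n1 (80640, 76896) (by decide +kernel)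
            (CovZ.n2 (80784, 77040) (by decide +kernel)
             (CovZ.n2 (80784, 76896) (by decide +kernel)
              (CovZ.n2 (80712, 76968) (by decide +kernel)
               (CovZ.n2 (80784, 76968) (by decide +kernel)
                (CovZ.leaf K2_ok TI_l656 _)
                (CovZ.leaf K2_ok TI_l657 _))
               (CovZ.n1 (80712, 76896) (by decide +kernel)
                (CovZ.leaf K2_ok TI_l658 _)
                (CovZ.leaf K2_ok TI_l659 _)))
              (CovZ.n1 (80856, 76968) (by decide +kernel)
               (CovZ.n2 (80856, 76896) (by decide +kernel)
                (CovZ.leaf K2_ok TI_l660 _)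
                (CovZ.leaf K2_ok TI_l661 _))
               (CovZ.n1 (80784, 76968) (by decide +kernel)
                (CovZ.n2 (80820, 77004) (by decide +kernel)
                 (CovZ.leaf K2_ok TI_l662 _)
                 (CovZ.leaf K2_ok TI_l663 _))
                (CovZ.leaf K2_ok TI_l664 _))))
             (CovZ.n1 (80640, 77040) (by decide +kernel)
              (CovZ.n2 (80712, 77112) (by decide +kernel)
               (CovZ.n2 (80712, 77040) (by decide +kernel)
                (CovZ.n2 (80676, 77076) (by decide +kernel)
                 (CovZ.n2 (80712, 77076) (by decide +kernel)
                  (CovZ.leaf K2_ok TI_l665 _)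
                  (CovZ.leaf K2_ok TI_l666 _))
                 (CovZ.leaf K2_ok TI_l667 _))
                (CovZ.n1 (80748, 77076) (by decide +kernel)
                 (CovZ.leaf K2_ok TI_l668 _)
                 (CovZ.leaf K2_ok TI_l669 _)))
               (CovZ.n1 (80640, 77112) (by decide +kernel)
                (CovZ.subM 44606945549650909520544983369636588734971904 (by decide +kernel)
                 (CovZ.n2 (80676, 77148) (by decide +kernel)
                  (CovZ.n2 (80676, 77112) (by decide +kernel)
                   (CovZ.leaf K2_ok TI_l670 _)
                   (CovZ.leaf K2_ok TI_l671 _))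
                  (CovZ.n1 (80640, 77148) (by decide +kernel)
                   (CovZ.n2 (80658, 77166) (by decide +kernel)
                    (CovZ.leaf K2_ok TI_l672 _)
                    (CovZ.n1 (80640, 77166) (by decide +kernel)
                     (CovZ.badM (by decide +kernel))
                     (CovZ.leaf K2_ok TI_l673 _)))
                   (CovZ.leaf K2_ok TI_l674 _))))
                (CovZ.n1 (80676, 77076) (by decide +kernel)
                 (CovZ.leaf K2_ok TI_l675 _)
                 (CovZ.leaf K2_ok TI_l676 _))))
              (CovZ.n1 (80712, 76968) (by decide +kernel)
               (CovZ.n2 (80640, 76968) (by decide +kernel)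
                (CovZ.leaf K2_ok TI_l677 _)
                (CovZ.leaf K2_ok TI_l678 _))
               (CovZ.n1 (80712, 77040) (by decide +kernel)
                (CovZ.leaf K2_ok TI_l679 _)
                (CovZ.n1 (80676, 77004) (by decide +kernel)
                 (CovZ.leaf K2_ok TI_l680 _)
                 (CovZ.leaf K2_ok TI_l681 _))))))
            (CovZ.n1 (80784, 76752) (by decide +kernel)
             (CovZ.n2 (80640, 76752) (by decide +kernel)
              (CovZ.n2 (80712, 76824) (by decide +kernel)
               (CovZ.leaf K2_ok TI_l682 _)
               (CovZ.leaf K2_ok TI_l683 _))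
              (CovZ.leaf K2_ok TI_l684 _))
             (CovZ.n1 (80784, 76896) (by decide +kernel)
              (CovZ.n2 (80856, 76824) (by decide +kernel)
               (CovZ.leaf K2_ok TI_l685 _)
               (CovZ.leaf K2_ok TI_l686 _))
              (CovZ.n1 (80712, 76824) (by decide +kernel)
               (CovZ.leaf K2_ok TI_l687 _)
               (CovZ.n1 (80784, 76824) (by decide +kernel)
                (CovZ.leaf K2_ok TI_l688 _)
                (CovZ.leaf K2_ok TI_l689 _)))))))
          (CovZ.n1 (80928, 76320) (by decide +kernel)
           (CovZ.n2 (80640, 76320) (by decide +kernel)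
            (CovZ.n2 (80784, 76464) (by decide +kernel)
             (CovZ.leaf K2_ok TI_l690 _)
             (CovZ.leaf K2_ok TI_l691 _))
            (CovZ.leaf K2_ok TI_l692 _))
           (CovZ.n1 (80928, 76608) (by decide +kernel)
            (CovZ.leaf K2_ok TI_l693 _)
            (CovZ.n1 (80784, 76464) (by decide +kernel)
             (CovZ.leaf K2_ok TI_l694 _)
             (CovZ.leaf K2_ok TI_l695 _))))))
        (CovZ.n1 (81216, 77184) (by decide +kernel)
         (CovZ.subM 697613412369349954128602298174950134900752 (by decide +kernel)
          (CovZ.n2 (81504, 76896) (by decide +kernel)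
           TI_u8
           TI_u9))
         (CovZ.subM 758927714116198997356752962610921092207198208 (by decide +kernel)
          (CovZ.n1 (80928, 76896) (by decide +kernel)
           (CovZ.n2 (80928, 77184) (by decide +kernel)
            TI_u10
            TI_u11)
           (CovZ.n1 (81216, 76896) (by decide +kernel)
            (CovZ.n2 (81072, 76752) (by decide +kernel)
             (CovZ.n2 (81072, 76896) (by decide +kernel)
              (CovZ.leaf K2_ok TI_l942 _)
              (CovZ.n1 (81000, 76824) (by decide +kernel)
               (CovZ.leaf K2_ok TI_l943 _)
               (CovZ.leaf K2_ok TI_l944 _)))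
             (CovZ.n1 (81216, 76752) (by decide +kernel)
              (CovZ.n2 (81144, 76680) (by decide +kernel)
               (CovZ.leaf K2_ok TI_l945 _)
               (CovZ.leaf K2_ok TI_l946 _))
              (CovZ.n1 (81144, 76824) (by decide +kernel)
               (CovZ.n2 (81216, 76824) (by decide +kernel)
                (CovZ.leaf K2_ok TI_l947 _)
                (CovZ.leaf K2_ok TI_l948 _))
               (CovZ.leaf K2_ok TI_l949 _))))
            (CovZ.n1 (81072, 77040) (by decide +kernel)
             (CovZ.n2 (81216, 77040) (by decide +kernel)
              (CovZ.n2 (81144, 76968) (by decide +kernel)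
               (CovZ.n2 (81144, 77040) (by decide +kernel)
                (CovZ.leaf K2_ok TI_l950 _)
                (CovZ.leaf K2_ok TI_l951 _))
               (CovZ.n1 (81216, 76968) (by decide +kernel)
                (CovZ.leaf K2_ok TI_l952 _)
                (CovZ.leaf K2_ok TI_l953 _)))
              (CovZ.n1 (81144, 77112) (by decide +kernel)
               (CovZ.subM 31901725429577601078125310904035016704 (by decide +kernel)
                (CovZ.n2 (81216, 77112) (by decide +kernel)
                 (CovZ.n2 (81180, 77076) (by decide +kernel)
                  (CovZ.leaf K2_ok TI_l954 _)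
                  (CovZ.leaf K2_ok TI_l955 _))
                 (CovZ.n1 (81180, 77148) (by decide +kernel)
                  (CovZ.n2 (81216, 77148) (by decide +kernel)
                   (CovZ.leaf K2_ok TI_l956 _)
                   (CovZ.leaf K2_ok TI_l957 _))
                  (CovZ.n1 (81180, 77112) (by decide +kernel)
                   (CovZ.leaf K2_ok TI_l958 _)
                   (CovZ.leaf K2_ok TI_l959 _)))))
               (CovZ.n1 (81144, 77040) (by decide +kernel)
                (CovZ.n2 (81108, 77076) (by decide +kernel)
                 (CovZ.leaf K2_ok TI_l960 _)
                 (CovZ.leaf K2_ok TI_l961 _))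
                (CovZ.n1 (81180, 77076) (by decide +kernel)
                 (CovZ.leaf K2_ok TI_l962 _)
                 (CovZ.leaf K2_ok TI_l963 _)))))
             (CovZ.n1 (81072, 76896) (by decide +kernel)
              (CovZ.n2 (81000, 76968) (by decide +kernel)
               (CovZ.n2 (81072, 76968) (by decide +kernel)
                (CovZ.leaf K2_ok TI_l964 _)
                (CovZ.leaf K2_ok TI_l965 _))
               (CovZ.n1 (81000, 76896) (by decide +kernel)
                (CovZ.leaf K2_ok TI_l966 _)
                (CovZ.leaf K2_ok TI_l967 _)))
              (CovZ.n1 (81144, 76968) (by decide +kernel)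
               (CovZ.leaf K2_ok TI_l968 _)
               (CovZ.n1 (81072, 76968) (by decide +kernel)
                (CovZ.leaf K2_ok TI_l969 _)
                (CovZ.leaf K2_ok TI_l970 _)))))))))))
      (CovZ.n1 (81792, 78336) (by decide +kernel)
       (CovZ.badM (by decide +kernel))
       (CovZ.n1 (81216, 77760) (by decide +kernel)
        (CovZ.badM (by decide +kernel))
        (CovZ.badM (by decide +kernel)))))

theorem TI_u17 : CovZ TI_M (toL (selN TI_LN 12259964327692074679792736811004796249741536994636196432)) [0, 7, 6, 1] (80640, 78336) (78336, 78336) (80640, 76032) :=
    (CovZ.subM 764962940949789063068300553583349727107563584 (by decide +kernel)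
      (CovZ.n1 (79488, 77184) (by decide +kernel)
       (CovZ.subM 696900945910073543004737003634381891305472 (by decide +kernel)
        (CovZ.n2 (79488, 78336) (by decide +kernel)
         (CovZ.n2 (80064, 77760) (by decide +kernel)
          (CovZ.n2 (79488, 77760) (by decide +kernel)
           (CovZ.badM (by decide +kernel))
           (CovZ.n1 (79776, 77472) (by decide +kernel)
            (CovZ.badM (by decide +kernel))
            (CovZ.badM (by decide +kernel))))
          (CovZ.badM (by decide +kernel)))
         (CovZ.badM (by decide +kernel))))
       (CovZ.n1 (80640, 77184) (by decide +kernel)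
        (CovZ.n2 (80064, 76608) (by decide +kernel)
         (CovZ.n2 (80064, 77184) (by decide +kernel)
          TI_u14
          TI_u15)
         (CovZ.n1 (80640, 76608) (by decide +kernel)
          (CovZ.n2 (80352, 76320) (by decide +kernel)
           (CovZ.n2 (80352, 76608) (by decide +kernel)
            (CovZ.n2 (80496, 76464) (by decide +kernel)
             (CovZ.leaf K2_ok TI_l1251 _)
             (CovZ.leaf K2_ok TI_l1252 _))
            (CovZ.n1 (80208, 76464) (by decide +kernel)
             (CovZ.leaf K2_ok TI_l1253 _)
             (CovZ.leaf K2_ok TI_l1254 _)))
           (CovZ.n1 (80640, 76320) (by decide +kernel)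
            (CovZ.n2 (80496, 76176) (by decide +kernel)
             (CovZ.leaf K2_ok TI_l1255 _)
             (CovZ.leaf K2_ok TI_l1256 _))
            (CovZ.n1 (80496, 76464) (by decide +kernel)
             (CovZ.n2 (80640, 76464) (by decide +kernel)
              (CovZ.leaf K2_ok TI_l1257 _)
              (CovZ.leaf K2_ok TI_l1258 _))
             (CovZ.leaf K2_ok TI_l1259 _))))
          (CovZ.n1 (80352, 76896) (by decide +kernel)
           (CovZ.n2 (80640, 76896) (by decide +kernel)
            (CovZ.n2 (80496, 76752) (by decide +kernel)
             (CovZ.n2 (80496, 76896) (by decide +kernel)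
              (CovZ.n2 (80568, 76824) (by decide +kernel)
               (CovZ.leaf K2_ok TI_l1260 _)
               (CovZ.leaf K2_ok TI_l1261 _))
              (CovZ.n1 (80424, 76824) (by decide +kernel)
               (CovZ.leaf K2_ok TI_l1262 _)
               (CovZ.n1 (80496, 76824) (by decide +kernel)
                (CovZ.leaf K2_ok TI_l1263 _)
                (CovZ.leaf K2_ok TI_l1264 _))))
             (CovZ.n1 (80640, 76752) (by decide +kernel)
              (CovZ.n2 (80568, 76680) (by decide +kernel)
               (CovZ.leaf K2_ok TI_l1265 _)
               (CovZ.leaf K2_ok TI_l1266 _))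
              (CovZ.n1 (80568, 76824) (by decide +kernel)
               (CovZ.leaf K2_ok TI_l1267 _)
               (CovZ.leaf K2_ok TI_l1268 _))))
            (CovZ.n1 (80496, 77040) (by decide +kernel)
             (CovZ.n2 (80640, 77040) (by decide +kernel)
              (CovZ.n2 (80568, 76968) (by decide +kernel)
               (CovZ.n2 (80568, 77040) (by decide +kernel)
                (CovZ.leaf K2_ok TI_l1269 _)
                (CovZ.leaf K2_ok TI_l1270 _))
               (CovZ.n1 (80640, 76968) (by decide +kernel)
                (CovZ.leaf K2_ok TI_l1271 _)
                (CovZ.leaf K2_ok TI_l1272 _)))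
              (CovZ.n1 (80568, 77112) (by decide +kernel)
               (CovZ.n2 (80640, 77112) (by decide +kernel)
                (CovZ.n2 (80604, 77076) (by decide +kernel)
                 (CovZ.n2 (80604, 77112) (by decide +kernel)
                  (CovZ.leaf K2_ok TI_l1273 _)
                  (CovZ.leaf K2_ok TI_l1274 _))
                 (CovZ.leaf K2_ok TI_l1275 _))
                (CovZ.subM 44601501031780174505129569375917680443588608 (by decide +kernel)
                 (CovZ.n1 (80604, 77148) (by decide +kernel)
                  (CovZ.n2 (80640, 77148) (by decide +kernel)
                   (CovZ.n2 (80622, 77130) (by decide +kernel)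
                    (CovZ.n2 (80622, 77148) (by decide +kernel)
                     (CovZ.leaf K2_ok TI_l1276 _)
                     (CovZ.leaf K2_ok TI_l1277 _))
                    (CovZ.leaf K2_ok TI_l1278 _))
                   (CovZ.n1 (80622, 77166) (by decide +kernel)
                    (CovZ.n2 (80640, 77166) (by decide +kernel)
                     (CovZ.leaf K2_ok TI_l1279 _)
                     (CovZ.badM (by decide +kernel)))
                    (CovZ.leaf K2_ok TI_l1280 _)))
                  (CovZ.n1 (80604, 77112) (by decide +kernel)
                   (CovZ.n2 (80586, 77130) (by decide +kernel)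
                    (CovZ.leaf K2_ok TI_l1281 _)
                    (CovZ.leaf K2_ok TI_l1282 _))
                   (CovZ.leaf K2_ok TI_l1283 _)))))
               (CovZ.n1 (80568, 77040) (by decide +kernel)
                (CovZ.n2 (80532, 77076) (by decide +kernel)
                 (CovZ.n2 (80568, 77076) (by decide +kernel)
                  (CovZ.leaf K2_ok TI_l1284 _)
                  (CovZ.leaf K2_ok TI_l1285 _))
                 (CovZ.leaf K2_ok TI_l1286 _))
                (CovZ.n1 (80604, 77076) (by decide +kernel)
                 (CovZ.leaf K2_ok TI_l1287 _)
                 (CovZ.leaf K2_ok TI_l1288 _)))))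
             (CovZ.n1 (80496, 76896) (by decide +kernel)
              (CovZ.n2 (80424, 76968) (by decide +kernel)
               (CovZ.n2 (80496, 76968) (by decide +kernel)
                (CovZ.leaf K2_ok TI_l1289 _)
                (CovZ.leaf K2_ok TI_l1290 _))
               (CovZ.n1 (80424, 76896) (by decide +kernel)
                (CovZ.leaf K2_ok TI_l1291 _)
                (CovZ.leaf K2_ok TI_l1292 _)))
              (CovZ.n1 (80568, 76968) (by decide +kernel)
               (CovZ.n2 (80568, 76896) (by decide +kernel)
                (CovZ.leaf K2_ok TI_l1293 _)
                (CovZ.leaf K2_ok TI_l1294 _))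
               (CovZ.n1 (80496, 76968) (by decide +kernel)
                (CovZ.leaf K2_ok TI_l1295 _)
                (CovZ.leaf K2_ok TI_l1296 _))))))
           (CovZ.n1 (80352, 76608) (by decide +kernel)
            (CovZ.n2 (80208, 76752) (by decide +kernel)
             (CovZ.n2 (80352, 76752) (by decide +kernel)
              (CovZ.n2 (80280, 76680) (by decide +kernel)
               (CovZ.leaf K2_ok TI_l1297 _)
               (CovZ.leaf K2_ok TI_l1298 _))
              (CovZ.n1 (80280, 76824) (by decide +kernel)
               (CovZ.n2 (80352, 76824) (by decide +kernel)
                (CovZ.leaf K2_ok TI_l1299 _)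
                (CovZ.leaf K2_ok TI_l1300 _))
               (CovZ.leaf K2_ok TI_l1301 _)))
             (CovZ.n1 (80208, 76608) (by decide +kernel)
              (CovZ.leaf K2_ok TI_l1302 _)
              (CovZ.leaf K2_ok TI_l1303 _)))
            (CovZ.n1 (80496, 76752) (by decide +kernel)
             (CovZ.n2 (80496, 76608) (by decide +kernel)
              (CovZ.leaf K2_ok TI_l1304 _)
              (CovZ.n1 (80568, 76680) (by decide +kernel)
               (CovZ.leaf K2_ok TI_l1305 _)
               (CovZ.leaf K2_ok TI_l1306 _)))
             (CovZ.n1 (80352, 76752) (by decide +kernel)
              (CovZ.n2 (80424, 76824) (by decide +kernel)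
               (CovZ.leaf K2_ok TI_l1307 _)
               (CovZ.leaf K2_ok TI_l1308 _))
              (CovZ.leaf K2_ok TI_l1309 _)))))))
        (CovZ.subM 696900945910073562347550117468465866473472 (by decide +kernel)
         (CovZ.n1 (80064, 77760) (by decide +kernel)
          (CovZ.badM (by decide +kernel))
          (CovZ.n1 (80064, 77184) (by decide +kernel)
           (CovZ.n2 (79776, 77472) (by decide +kernel)
            (CovZ.badM (by decide +kernel))
            (CovZ.n1 (79776, 77184) (by decide +kernel)
             (CovZ.badM (by decide +kernel))
             (CovZ.badM (by decide +kernel))))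
           (CovZ.n1 (80352, 77472) (by decide +kernel)
            (CovZ.n2 (80352, 77184) (by decide +kernel)
             (CovZ.n2 (80208, 77328) (by decide +kernel)
              (CovZ.badM (by decide +kernel))
              (CovZ.n1 (80208, 77184) (by decide +kernel)
               (CovZ.n2 (80136, 77256) (by decide +kernel)
                (CovZ.badM (by decide +kernel))
                (CovZ.n1 (80136, 77184) (by decide +kernel)
                 (CovZ.badM (by decide +kernel))
                 (CovZ.badM (by decide +kernel))))
               (CovZ.badM (by decide +kernel))))
             (CovZ.badM (by decide +kernel)))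
            (CovZ.badM (by decide +kernel)))))))))

theorem TI_u18 : CovZ TI_M (toL (selN TI_LN 12259964326927111037010718087234711886789105965508682256)) [0, 7, 6, 1] (84096, 77184) (83520, 77184) (83520, 76608) :=
    (CovZ.subM 162260514769252684800649936773632 (by decide +kernel)
          (CovZ.n2 (83808, 76896) (by decide +kernel)
           (CovZ.n2 (83520, 76896) (by decide +kernel)
            (CovZ.n2 (83664, 77040) (by decide +kernel)
             (CovZ.n2 (83664, 76896) (by decide +kernel)
              (CovZ.n2 (83592, 76968) (by decide +kernel)
               (CovZ.n2 (83664, 76968) (by decide +kernel)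
                (CovZ.leaf K2_ok TI_l3998 _)
                (CovZ.leaf K2_ok TI_l3999 _))
               (CovZ.leaf K2_ok TI_l4000 _))
              (CovZ.n1 (83736, 76968) (by decide +kernel)
               (CovZ.leaf K2_ok TI_l4001 _)
               (CovZ.n1 (83664, 76968) (by decide +kernel)
                (CovZ.leaf K2_ok TI_l4002 _)
                (CovZ.leaf K2_ok TI_l4003 _))))
             (CovZ.n1 (83520, 77040) (by decide +kernel)
              (CovZ.n2 (83592, 77112) (by decide +kernel)
               (CovZ.n2 (83592, 77040) (by decide +kernel)
                (CovZ.leaf K2_ok TI_l4004 _)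
                (CovZ.n1 (83628, 77076) (by decide +kernel)
                 (CovZ.leaf K2_ok TI_l4005 _)
                 (CovZ.leaf K2_ok TI_l4006 _)))
               (CovZ.n1 (83520, 77112) (by decide +kernel)
                (CovZ.n2 (83556, 77148) (by decide +kernel)
                 (CovZ.leaf K2_ok TI_l4007 _)
                 (CovZ.leaf K2_ok TI_l4008 _))
                (CovZ.leaf K2_ok TI_l4009 _)))
              (CovZ.n1 (83592, 76968) (by decide +kernel)
               (CovZ.n2 (83520, 76968) (by decide +kernel)
                (CovZ.leaf K2_ok TI_l4010 _)
                (CovZ.leaf K2_ok TI_l4011 _))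
               (CovZ.n1 (83592, 77040) (by decide +kernel)
                (CovZ.leaf K2_ok TI_l4012 _)
                (CovZ.leaf K2_ok TI_l4013 _)))))
            (CovZ.n1 (83664, 76752) (by decide +kernel)
             (CovZ.n2 (83520, 76752) (by decide +kernel)
              (CovZ.n2 (83592, 76824) (by decide +kernel)
               (CovZ.leaf K2_ok TI_l4014 _)
               (CovZ.leaf K2_ok TI_l4015 _))
              (CovZ.leaf K2_ok TI_l4016 _))
             (CovZ.n1 (83664, 76896) (by decide +kernel)
              (CovZ.leaf K2_ok TI_l4017 _)
              (CovZ.n1 (83592, 76824) (by decide +kernel)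
               (CovZ.leaf K2_ok TI_l4018 _)
               (CovZ.leaf K2_ok TI_l4019 _)))))
           (CovZ.n1 (83808, 77184) (by decide +kernel)
            (CovZ.n2 (83952, 77040) (by decide +kernel)
             (CovZ.n2 (83808, 77040) (by decide +kernel)
              (CovZ.n2 (83880, 77112) (by decide +kernel)
               (CovZ.n2 (83880, 77040) (by decide +kernel)
                (CovZ.leaf K2_ok TI_l4020 _)
                (CovZ.n1 (83916, 77076) (by decide +kernel)
                 (CovZ.leaf K2_ok TI_l4021 _)
                 (CovZ.leaf K2_ok TI_l4022 _)))
               (CovZ.n1 (83808, 77112) (by decide +kernel)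
                (CovZ.n2 (83844, 77148) (by decide +kernel)
                 (CovZ.leaf K2_ok TI_l4023 _)
                 (CovZ.n1 (83808, 77148) (by decide +kernel)
                  (CovZ.leaf K2_ok TI_l4024 _)
                  (CovZ.leaf K2_ok TI_l4025 _)))
                (CovZ.leaf K2_ok TI_l4026 _)))
              (CovZ.n1 (83880, 76968) (by decide +kernel)
               (CovZ.n2 (83808, 76968) (by decide +kernel)
                (CovZ.leaf K2_ok TI_l4027 _)
                (CovZ.leaf K2_ok TI_l4028 _))
               (CovZ.n1 (83880, 77040) (by decide +kernel)
                (CovZ.leaf K2_ok TI_l4029 _)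
                (CovZ.leaf K2_ok TI_l4030 _))))
             (CovZ.n1 (83952, 77184) (by decide +kernel)
              (CovZ.n2 (84024, 77112) (by decide +kernel)
               (CovZ.n2 (83952, 77112) (by decide +kernel)
                (CovZ.n2 (83988, 77148) (by decide +kernel)
                 (CovZ.leaf K2_ok TI_l4031 _)
                 (CovZ.n1 (83952, 77148) (by decide +kernel)
                  (CovZ.n2 (83970, 77166) (by decide +kernel)
                   (CovZ.leaf K2_ok TI_l4032 _)
                   (CovZ.leaf K2_ok TI_l4033 _))
                  (CovZ.leaf K2_ok TI_l4034 _)))
                (CovZ.leaf K2_ok TI_l4035 _))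
               (CovZ.n1 (84024, 77184) (by decide +kernel)
                (CovZ.n2 (84060, 77148) (by decide +kernel)
                 (CovZ.n2 (84024, 77148) (by decide +kernel)
                  (CovZ.leaf K2_ok TI_l4036 _)
                  (CovZ.leaf K2_ok TI_l4037 _))
                 (CovZ.leaf K2_ok TI_l4038 _))
                (CovZ.n1 (83988, 77148) (by decide +kernel)
                 (CovZ.leaf K2_ok TI_l4039 _)
                 (CovZ.n1 (84024, 77148) (by decide +kernel)
                  (CovZ.leaf K2_ok TI_l4040 _)
                  (CovZ.leaf K2_ok TI_l4041 _)))))
              (CovZ.n1 (83880, 77112) (by decide +kernel)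
               (CovZ.n2 (83880, 77184) (by decide +kernel)
                (CovZ.n2 (83916, 77148) (by decide +kernel)
                 (CovZ.leaf K2_ok TI_l4042 _)
                 (CovZ.n1 (83916, 77184) (by decide +kernel)
                  (CovZ.n2 (83934, 77166) (by decide +kernel)
                   (CovZ.leaf K2_ok TI_l4043 _)
                   (CovZ.badM (by decide +kernel)))
                  (CovZ.leaf K2_ok TI_l4044 _)))
                (CovZ.n1 (83844, 77148) (by decide +kernel)
                 (CovZ.n2 (83844, 77184) (by decide +kernel)
                  (CovZ.leaf K2_ok TI_l4045 _)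
                  (CovZ.leaf K2_ok TI_l4046 _))
                 (CovZ.n1 (83880, 77148) (by decide +kernel)
                  (CovZ.leaf K2_ok TI_l4047 _)
                  (CovZ.leaf K2_ok TI_l4048 _))))
               (CovZ.n1 (83952, 77112) (by decide +kernel)
                (CovZ.n2 (83916, 77076) (by decide +kernel)
                 (CovZ.leaf K2_ok TI_l4049 _)
                 (CovZ.leaf K2_ok TI_l4050 _))
                (CovZ.n1 (83916, 77148) (by decide +kernel)
                 (CovZ.n2 (83952, 77148) (by decide +kernel)
                  (CovZ.leaf K2_ok TI_l4051 _)
                  (CovZ.n1 (83934, 77166) (by decide +kernel)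
                   (CovZ.n2 (83952, 77166) (by decide +kernel)
                    (CovZ.leaf K2_ok TI_l4052 _)
                    (CovZ.badM (by decide +kernel)))
                   (CovZ.leaf K2_ok TI_l4053 _)))
                 (CovZ.leaf K2_ok TI_l4054 _))))))
            (CovZ.n1 (83664, 77040) (by decide +kernel)
             (CovZ.n2 (83664, 77184) (by decide +kernel)
              (CovZ.n2 (83736, 77112) (by decide +kernel)
               (CovZ.n2 (83664, 77112) (by decide +kernel)
                (CovZ.n2 (83700, 77148) (by decide +kernel)
                 (CovZ.leaf K2_ok TI_l4055 _)
                 (CovZ.leaf K2_ok TI_l4056 _))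
                (CovZ.leaf K2_ok TI_l4057 _))
               (CovZ.n1 (83736, 77184) (by decide +kernel)
                (CovZ.n2 (83772, 77148) (by decide +kernel)
                 (CovZ.leaf K2_ok TI_l4058 _)
                 (CovZ.leaf K2_ok TI_l4059 _))
                (CovZ.n1 (83700, 77148) (by decide +kernel)
                 (CovZ.n2 (83700, 77184) (by decide +kernel)
                  (CovZ.n2 (83718, 77166) (by decide +kernel)
                   (CovZ.leaf K2_ok TI_l4060 _)
                   (CovZ.badM (by decide +kernel)))
                  (CovZ.leaf K2_ok TI_l4061 _))
                 (CovZ.n1 (83736, 77148) (by decide +kernel)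
                  (CovZ.leaf K2_ok TI_l4062 _)
                  (CovZ.leaf K2_ok TI_l4063 _)))))
              (CovZ.n1 (83592, 77112) (by decide +kernel)
               (CovZ.n2 (83592, 77184) (by decide +kernel)
                (CovZ.n2 (83628, 77148) (by decide +kernel)
                 (CovZ.leaf K2_ok TI_l4064 _)
                 (CovZ.leaf K2_ok TI_l4065 _))
                (CovZ.n1 (83556, 77148) (by decide +kernel)
                 (CovZ.leaf K2_ok TI_l4066 _)
                 (CovZ.n1 (83592, 77148) (by decide +kernel)
                  (CovZ.leaf K2_ok TI_l4067 _)
                  (CovZ.leaf K2_ok TI_l4068 _))))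
               (CovZ.n1 (83664, 77112) (by decide +kernel)
                (CovZ.n2 (83628, 77076) (by decide +kernel)
                 (CovZ.leaf K2_ok TI_l4069 _)
                 (CovZ.n1 (83664, 77076) (by decide +kernel)
                  (CovZ.leaf K2_ok TI_l4070 _)
                  (CovZ.leaf K2_ok TI_l4071 _)))
                (CovZ.n1 (83628, 77148) (by decide +kernel)
                 (CovZ.n2 (83664, 77148) (by decide +kernel)
                  (CovZ.leaf K2_ok TI_l4072 _)
                  (CovZ.leaf K2_ok TI_l4073 _))
                 (CovZ.leaf K2_ok TI_l4074 _)))))
             (CovZ.n1 (83808, 77040) (by decide +kernel)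
              (CovZ.n2 (83736, 76968) (by decide +kernel)
               (CovZ.n2 (83736, 77040) (by decide +kernel)
                (CovZ.leaf K2_ok TI_l4075 _)
                (CovZ.leaf K2_ok TI_l4076 _))
               (CovZ.n1 (83808, 76968) (by decide +kernel)
                (CovZ.leaf K2_ok TI_l4077 _)
                (CovZ.leaf K2_ok TI_l4078 _)))
              (CovZ.n1 (83736, 77112) (by decide +kernel)
               (CovZ.n2 (83808, 77112) (by decide +kernel)
                (CovZ.n2 (83772, 77076) (by decide +kernel)
                 (CovZ.leaf K2_ok TI_l4079 _)
                 (CovZ.leaf K2_ok TI_l4080 _))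
                (CovZ.n1 (83772, 77148) (by decide +kernel)
                 (CovZ.n2 (83808, 77148) (by decide +kernel)
                  (CovZ.leaf K2_ok TI_l4081 _)
                  (CovZ.leaf K2_ok TI_l4082 _))
                 (CovZ.leaf K2_ok TI_l4083 _)))
               (CovZ.n1 (83736, 77040) (by decide +kernel)
                (CovZ.n2 (83700, 77076) (by decide +kernel)
                 (CovZ.leaf K2_ok TI_l4084 _)
                 (CovZ.leaf K2_ok TI_l4085 _))
                (CovZ.leaf K2_ok TI_l4086 _))))))))

theorem TI_u19 : CovZ TI_M (toL (selN TI_LN 12259964326927111037010718087234711886789105965508682256)) [0, 7, 6, 1] (83520, 77184) (82944, 77184) (83520, 76608) :=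
    (CovZ.n1 (83232, 76896) (by decide +kernel)
          (CovZ.n2 (83232, 77184) (by decide +kernel)
           (CovZ.subM 12259964326927111037008121938186474453322017480732844544 (by decide +kernel)
            (CovZ.n2 (83376, 77040) (by decide +kernel)
             (CovZ.n2 (83232, 77040) (by decide +kernel)
              (CovZ.n2 (83304, 77112) (by decide +kernel)
               (CovZ.n2 (83304, 77040) (by decide +kernel)
                (CovZ.leaf K2_ok TI_l4087 _)
                (CovZ.n1 (83340, 77076) (by decide +kernel)
                 (CovZ.leaf K2_ok TI_l4088 _)
                 (CovZ.leaf K2_ok TI_l4089 _)))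
               (CovZ.n1 (83232, 77112) (by decide +kernel)
                (CovZ.n2 (83268, 77148) (by decide +kernel)
                 (CovZ.leaf K2_ok TI_l4090 _)
                 (CovZ.n1 (83232, 77148) (by decide +kernel)
                  (CovZ.n2 (83250, 77166) (by decide +kernel)
                   (CovZ.leaf K2_ok TI_l4091 _)
                   (CovZ.leaf K2_ok TI_l4092 _))
                  (CovZ.leaf K2_ok TI_l4093 _)))
                (CovZ.leaf K2_ok TI_l4094 _)))
              (CovZ.n1 (83304, 76968) (by decide +kernel)
               (CovZ.n2 (83232, 76968) (by decide +kernel)
                (CovZ.leaf K2_ok TI_l4095 _)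
                (CovZ.leaf K2_ok TI_l4096 _))
               (CovZ.n1 (83304, 77040) (by decide +kernel)
                (CovZ.leaf K2_ok TI_l4097 _)
                (CovZ.leaf K2_ok TI_l4098 _))))
             (CovZ.n1 (83376, 77184) (by decide +kernel)
              (CovZ.subM 162260514769252684800649936773632 (by decide +kernel)
               (CovZ.n2 (83448, 77112) (by decide +kernel)
                (CovZ.n2 (83376, 77112) (by decide +kernel)
                 (CovZ.n2 (83412, 77148) (by decide +kernel)
                  (CovZ.leaf K2_ok TI_l4099 _)
                  (CovZ.leaf K2_ok TI_l4100 _))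
                 (CovZ.n1 (83412, 77076) (by decide +kernel)
                  (CovZ.leaf K2_ok TI_l4101 _)
                  (CovZ.leaf K2_ok TI_l4102 _)))
                (CovZ.n1 (83448, 77184) (by decide +kernel)
                 (CovZ.n2 (83484, 77148) (by decide +kernel)
                  (CovZ.leaf K2_ok TI_l4103 _)
                  (CovZ.n1 (83484, 77184) (by decide +kernel)
                   (CovZ.n2 (83502, 77166) (by decide +kernel)
                    (CovZ.leaf K2_ok TI_l4104 _)
                    (CovZ.badM (by decide +kernel)))
                   (CovZ.leaf K2_ok TI_l4105 _)))
                 (CovZ.n1 (83412, 77148) (by decide +kernel)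
                  (CovZ.n2 (83412, 77184) (by decide +kernel)
                   (CovZ.leaf K2_ok TI_l4106 _)
                   (CovZ.leaf K2_ok TI_l4107 _))
                  (CovZ.n1 (83448, 77148) (by decide +kernel)
                   (CovZ.leaf K2_ok TI_l4108 _)
                   (CovZ.n1 (83430, 77166) (by decide +kernel)
                    (CovZ.leaf K2_ok TI_l4109 _)
                    (CovZ.leaf K2_ok TI_l4110 _)))))))
              (CovZ.n1 (83304, 77112) (by decide +kernel)
               (CovZ.n2 (83304, 77184) (by decide +kernel)
                (CovZ.n2 (83340, 77148) (by decide +kernel)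
                 (CovZ.n2 (83304, 77148) (by decide +kernel)
                  (CovZ.leaf K2_ok TI_l4111 _)
                  (CovZ.leaf K2_ok TI_l4112 _))
                 (CovZ.n1 (83340, 77184) (by decide +kernel)
                  (CovZ.leaf K2_ok TI_l4113 _)
                  (CovZ.leaf K2_ok TI_l4114 _)))
                (CovZ.n1 (83268, 77148) (by decide +kernel)
                 (CovZ.n2 (83268, 77184) (by decide +kernel)
                  (CovZ.leaf K2_ok TI_l4115 _)
                  (CovZ.n1 (83250, 77166) (by decide +kernel)
                   (CovZ.badM (by decide +kernel))
                   (CovZ.n1 (83268, 77166) (by decide +kernel)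
                    (CovZ.leaf K2_ok TI_l4116 _)
                    (CovZ.badM (by decide +kernel)))))
                 (CovZ.n1 (83304, 77148) (by decide +kernel)
                  (CovZ.leaf K2_ok TI_l4117 _)
                  (CovZ.leaf K2_ok TI_l4118 _))))
               (CovZ.n1 (83376, 77112) (by decide +kernel)
                (CovZ.n2 (83340, 77076) (by decide +kernel)
                 (CovZ.leaf K2_ok TI_l4119 _)
                 (CovZ.leaf K2_ok TI_l4120 _))
                (CovZ.n1 (83340, 77148) (by decide +kernel)
                 (CovZ.n2 (83376, 77148) (by decide +kernel)
                  (CovZ.leaf K2_ok TI_l4121 _)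
                  (CovZ.leaf K2_ok TI_l4122 _))
                 (CovZ.leaf K2_ok TI_l4123 _)))))))
           (CovZ.n1 (83088, 77040) (by decide +kernel)
            (CovZ.n2 (83088, 77184) (by decide +kernel)
             (CovZ.subM 12259964326927110866866938477717242721643720964103479808 (by decide +kernel)
              (CovZ.n2 (83160, 77112) (by decide +kernel)
               (CovZ.n2 (83088, 77112) (by decide +kernel)
                (CovZ.n2 (83124, 77148) (by decide +kernel)
                 (CovZ.leaf K2_ok TI_l4124 _)
                 (CovZ.leaf K2_ok TI_l4125 _))
                (CovZ.leaf K2_ok TI_l4126 _))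
               (CovZ.n1 (83160, 77184) (by decide +kernel)
                (CovZ.n2 (83196, 77148) (by decide +kernel)
                 (CovZ.leaf K2_ok TI_l4127 _)
                 (CovZ.n1 (83196, 77184) (by decide +kernel)
                  (CovZ.leaf K2_ok TI_l4128 _)
                  (CovZ.leaf K2_ok TI_l4129 _)))
                (CovZ.n1 (83124, 77148) (by decide +kernel)
                 (CovZ.n2 (83124, 77184) (by decide +kernel)
                  (CovZ.leaf K2_ok TI_l4130 _)
                  (CovZ.n1 (83106, 77166) (by decide +kernel)
                   (CovZ.badM (by decide +kernel))
                   (CovZ.leaf K2_ok TI_l4131 _)))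
                 (CovZ.n1 (83160, 77148) (by decide +kernel)
                  (CovZ.leaf K2_ok TI_l4132 _)
                  (CovZ.leaf K2_ok TI_l4133 _))))))
             (CovZ.n1 (83016, 77112) (by decide +kernel)
              (CovZ.n2 (83016, 77184) (by decide +kernel)
               (CovZ.n2 (83052, 77148) (by decide +kernel)
                (CovZ.leaf K2_ok TI_l4134 _)
                (CovZ.n1 (83052, 77184) (by decide +kernel)
                 (CovZ.leaf K2_ok TI_l4135 _)
                 (CovZ.n1 (83034, 77166) (by decide +kernel)
                  (CovZ.badM (by decide +kernel))
                  (CovZ.leaf K2_ok TI_l4136 _))))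
               (CovZ.n1 (82980, 77148) (by decide +kernel)
                (CovZ.n2 (82980, 77184) (by decide +kernel)
                 (CovZ.leaf K2_ok TI_l4137 _)
                 (CovZ.leaf K2_ok TI_l4138 _))
                (CovZ.n1 (83016, 77148) (by decide +kernel)
                 (CovZ.leaf K2_ok TI_l4139 _)
                 (CovZ.leaf K2_ok TI_l4140 _))))
              (CovZ.n1 (83088, 77112) (by decide +kernel)
               (CovZ.n2 (83052, 77076) (by decide +kernel)
                (CovZ.leaf K2_ok TI_l4141 _)
                (CovZ.leaf K2_ok TI_l4142 _))
               (CovZ.n1 (83052, 77148) (by decide +kernel)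
                (CovZ.n2 (83088, 77148) (by decide +kernel)
                 (CovZ.leaf K2_ok TI_l4143 _)
                 (CovZ.leaf K2_ok TI_l4144 _))
                (CovZ.leaf K2_ok TI_l4145 _)))))
            (CovZ.n1 (83232, 77040) (by decide +kernel)
             (CovZ.n2 (83160, 76968) (by decide +kernel)
              (CovZ.n2 (83160, 77040) (by decide +kernel)
               (CovZ.leaf K2_ok TI_l4146 _)
               (CovZ.leaf K2_ok TI_l4147 _))
              (CovZ.n1 (83232, 76968) (by decide +kernel)
               (CovZ.leaf K2_ok TI_l4148 _)
               (CovZ.leaf K2_ok TI_l4149 _)))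
             (CovZ.subM 12259964326927110866866938477717242721643720964103479808 (by decide +kernel)
              (CovZ.n1 (83160, 77112) (by decide +kernel)
               (CovZ.n2 (83232, 77112) (by decide +kernel)
                (CovZ.n2 (83196, 77076) (by decide +kernel)
                 (CovZ.leaf K2_ok TI_l4150 _)
                 (CovZ.n1 (83232, 77076) (by decide +kernel)
                  (CovZ.leaf K2_ok TI_l4151 _)
                  (CovZ.leaf K2_ok TI_l4152 _)))
                (CovZ.n1 (83196, 77148) (by decide +kernel)
                 (CovZ.n2 (83232, 77148) (by decide +kernel)
                  (CovZ.leaf K2_ok TI_l4153 _)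
                  (CovZ.leaf K2_ok TI_l4154 _))
                 (CovZ.leaf K2_ok TI_l4155 _)))
               (CovZ.n1 (83160, 77040) (by decide +kernel)
                (CovZ.leaf K2_ok TI_l4156 _)
                (CovZ.n1 (83196, 77076) (by decide +kernel)
                 (CovZ.leaf K2_ok TI_l4157 _)
                 (CovZ.leaf K2_ok TI_l4158 _))))))))
          (CovZ.subM 12259964326927111037008121938186474453322017480732844544 (by decide +kernel)
           (CovZ.n1 (83520, 76896) (by decide +kernel)
            (CovZ.n2 (83376, 76752) (by decide +kernel)
             (CovZ.n2 (83376, 76896) (by decide +kernel)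
              (CovZ.n2 (83448, 76824) (by decide +kernel)
               (CovZ.leaf K2_ok TI_l4159 _)
               (CovZ.leaf K2_ok TI_l4160 _))
              (CovZ.n1 (83304, 76824) (by decide +kernel)
               (CovZ.leaf K2_ok TI_l4161 _)
               (CovZ.leaf K2_ok TI_l4162 _)))
             (CovZ.subM 162260514769252684800649936773632 (by decide +kernel)
              (CovZ.n1 (83520, 76752) (by decide +kernel)
               (CovZ.leaf K2_ok TI_l4163 _)
               (CovZ.n1 (83448, 76824) (by decide +kernel)
                (CovZ.n2 (83520, 76824) (by decide +kernel)
                 (CovZ.leaf K2_ok TI_l4164 _)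
                 (CovZ.leaf K2_ok TI_l4165 _))
                (CovZ.leaf K2_ok TI_l4166 _)))))
            (CovZ.n1 (83376, 77040) (by decide +kernel)
             (CovZ.subM 162260514769252684800649936773632 (by decide +kernel)
              (CovZ.n2 (83520, 77040) (by decide +kernel)
               (CovZ.n2 (83448, 76968) (by decide +kernel)
                (CovZ.n2 (83448, 77040) (by decide +kernel)
                 (CovZ.leaf K2_ok TI_l4167 _)
                 (CovZ.leaf K2_ok TI_l4168 _))
                (CovZ.n1 (83520, 76968) (by decide +kernel)
                 (CovZ.leaf K2_ok TI_l4169 _)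
                 (CovZ.leaf K2_ok TI_l4170 _)))
               (CovZ.n1 (83448, 77112) (by decide +kernel)
                (CovZ.n2 (83520, 77112) (by decide +kernel)
                 (CovZ.n2 (83484, 77076) (by decide +kernel)
                  (CovZ.leaf K2_ok TI_l4171 _)
                  (CovZ.leaf K2_ok TI_l4172 _))
                 (CovZ.n1 (83484, 77148) (by decide +kernel)
                  (CovZ.n2 (83520, 77148) (by decide +kernel)
                   (CovZ.leaf K2_ok TI_l4173 _)
                   (CovZ.n1 (83502, 77166) (by decide +kernel)
                    (CovZ.leaf K2_ok TI_l4174 _)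
                    (CovZ.leaf K2_ok TI_l4175 _)))
                  (CovZ.leaf K2_ok TI_l4176 _)))
                (CovZ.n1 (83448, 77040) (by decide +kernel)
                 (CovZ.leaf K2_ok TI_l4177 _)
                 (CovZ.n1 (83484, 77076) (by decide +kernel)
                  (CovZ.leaf K2_ok TI_l4178 _)
                  (CovZ.leaf K2_ok TI_l4179 _))))))
             (CovZ.n1 (83376, 76896) (by decide +kernel)
              (CovZ.n2 (83304, 76968) (by decide +kernel)
               (CovZ.n2 (83376, 76968) (by decide +kernel)
                (CovZ.leaf K2_ok TI_l4180 _)
                (CovZ.leaf K2_ok TI_l4181 _))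
               (CovZ.leaf K2_ok TI_l4182 _))
              (CovZ.n1 (83448, 76968) (by decide +kernel)
               (CovZ.leaf K2_ok TI_l4183 _)
               (CovZ.n1 (83376, 76968) (by decide +kernel)
                (CovZ.leaf K2_ok TI_l4184 _)
                (CovZ.leaf K2_ok TI_l4185 _))))))))

theorem TI_u20 : CovZ TI_M (toL (selN TI_LN 12259964326927111037010718087234711886789105965508682256)) [0, 7, 6, 1] (85248, 76032) (84096, 77184) (82944, 76032) :=
    (CovZ.n2 (84096, 76032) (by decide +kernel)
       (CovZ.n2 (83520, 76608) (by decide +kernel)
        (CovZ.subM 162260514769252684800649936773632 (by decide +kernel)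
         (CovZ.n2 (84096, 76608) (by decide +kernel)
          (CovZ.n2 (83808, 76320) (by decide +kernel)
           (CovZ.n2 (83808, 76608) (by decide +kernel)
            (CovZ.leaf K2_ok TI_l3851 _)
            (CovZ.n1 (83664, 76464) (by decide +kernel)
             (CovZ.leaf K2_ok TI_l3852 _)
             (CovZ.n1 (83808, 76464) (by decide +kernel)
              (CovZ.leaf K2_ok TI_l3853 _)
              (CovZ.leaf K2_ok TI_l3854 _))))
           (CovZ.n1 (84096, 76320) (by decide +kernel)
            (CovZ.n2 (83952, 76176) (by decide +kernel)
             (CovZ.leaf K2_ok TI_l3855 _)
             (CovZ.leaf K2_ok TI_l3856 _))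
            (CovZ.n1 (83952, 76464) (by decide +kernel)
             (CovZ.leaf K2_ok TI_l3857 _)
             (CovZ.leaf K2_ok TI_l3858 _))))
          (CovZ.n1 (83808, 76896) (by decide +kernel)
           (CovZ.n2 (84096, 76896) (by decide +kernel)
            (CovZ.n2 (83952, 76752) (by decide +kernel)
             (CovZ.n2 (83952, 76896) (by decide +kernel)
              (CovZ.leaf K2_ok TI_l3859 _)
              (CovZ.n1 (83880, 76824) (by decide +kernel)
               (CovZ.leaf K2_ok TI_l3860 _)
               (CovZ.leaf K2_ok TI_l3861 _)))
             (CovZ.n1 (84096, 76752) (by decide +kernel)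
              (CovZ.leaf K2_ok TI_l3862 _)
              (CovZ.n1 (84024, 76824) (by decide +kernel)
               (CovZ.leaf K2_ok TI_l3863 _)
               (CovZ.leaf K2_ok TI_l3864 _))))
            (CovZ.n1 (83952, 77040) (by decide +kernel)
             (CovZ.n2 (84096, 77040) (by decide +kernel)
              (CovZ.n2 (84024, 76968) (by decide +kernel)
               (CovZ.n2 (84024, 77040) (by decide +kernel)
                (CovZ.leaf K2_ok TI_l3865 _)
                (CovZ.leaf K2_ok TI_l3866 _))
               (CovZ.n1 (84096, 76968) (by decide +kernel)
                (CovZ.leaf K2_ok TI_l3867 _)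
                (CovZ.leaf K2_ok TI_l3868 _)))
              (CovZ.n1 (84024, 77112) (by decide +kernel)
               (CovZ.n2 (84096, 77112) (by decide +kernel)
                (CovZ.n2 (84060, 77076) (by decide +kernel)
                 (CovZ.leaf K2_ok TI_l3869 _)
                 (CovZ.leaf K2_ok TI_l3870 _))
                (CovZ.n1 (84060, 77148) (by decide +kernel)
                 (CovZ.n2 (84096, 77148) (by decide +kernel)
                  (CovZ.leaf K2_ok TI_l3871 _)
                  (CovZ.leaf K2_ok TI_l3872 _))
                 (CovZ.leaf K2_ok TI_l3873 _)))
               (CovZ.n1 (84024, 77040) (by decide +kernel)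
                (CovZ.n2 (83988, 77076) (by decide +kernel)
                 (CovZ.leaf K2_ok TI_l3874 _)
                 (CovZ.leaf K2_ok TI_l3875 _))
                (CovZ.n1 (84060, 77076) (by decide +kernel)
                 (CovZ.leaf K2_ok TI_l3876 _)
                 (CovZ.leaf K2_ok TI_l3877 _)))))
             (CovZ.n1 (83952, 76896) (by decide +kernel)
              (CovZ.n2 (83880, 76968) (by decide +kernel)
               (CovZ.n2 (83952, 76968) (by decide +kernel)
                (CovZ.leaf K2_ok TI_l3878 _)
                (CovZ.leaf K2_ok TI_l3879 _))
               (CovZ.leaf K2_ok TI_l3880 _))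
              (CovZ.n1 (84024, 76968) (by decide +kernel)
               (CovZ.n2 (84024, 76896) (by decide +kernel)
                (CovZ.leaf K2_ok TI_l3881 _)
                (CovZ.leaf K2_ok TI_l3882 _))
               (CovZ.n1 (83952, 76968) (by decide +kernel)
                (CovZ.leaf K2_ok TI_l3883 _)
                (CovZ.leaf K2_ok TI_l3884 _))))))
           (CovZ.n1 (83808, 76608) (by decide +kernel)
            (CovZ.n2 (83664, 76752) (by decide +kernel)
             (CovZ.n2 (83808, 76752) (by decide +kernel)
              (CovZ.leaf K2_ok TI_l3885 _)
              (CovZ.n1 (83736, 76824) (by decide +kernel)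
               (CovZ.leaf K2_ok TI_l3886 _)
               (CovZ.leaf K2_ok TI_l3887 _)))
             (CovZ.n1 (83664, 76608) (by decide +kernel)
              (CovZ.leaf K2_ok TI_l3888 _)
              (CovZ.leaf K2_ok TI_l3889 _)))
            (CovZ.n1 (83952, 76752) (by decide +kernel)
             (CovZ.n2 (83952, 76608) (by decide +kernel)
              (CovZ.leaf K2_ok TI_l3890 _)
              (CovZ.leaf K2_ok TI_l3891 _))
             (CovZ.n1 (83808, 76752) (by decide +kernel)
              (CovZ.n2 (83880, 76824) (by decide +kernel)
               (CovZ.leaf K2_ok TI_l3892 _)
               (CovZ.leaf K2_ok TI_l3893 _))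
              (CovZ.leaf K2_ok TI_l3894 _)))))))
        (CovZ.n1 (83520, 76032) (by decide +kernel)
         (CovZ.n2 (83232, 76320) (by decide +kernel)
          (CovZ.subM 12259964326927111037008121938186474453322017480732844544 (by decide +kernel)
           (CovZ.n2 (83520, 76320) (by decide +kernel)
            (CovZ.n2 (83376, 76176) (by decide +kernel)
             (CovZ.leaf K2_ok TI_l3895 _)
             (CovZ.leaf K2_ok TI_l3896 _))
            (CovZ.n1 (83376, 76464) (by decide +kernel)
             (CovZ.leaf K2_ok TI_l3897 _)
             (CovZ.leaf K2_ok TI_l3898 _))))
          (CovZ.n1 (83232, 76032) (by decide +kernel)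
           (CovZ.leaf K2_ok TI_l3899 _)
           (CovZ.leaf K2_ok TI_l3900 _)))
         (CovZ.subM 162260514769252684800649936773632 (by decide +kernel)
          (CovZ.n1 (83808, 76320) (by decide +kernel)
           (CovZ.n2 (83808, 76032) (by decide +kernel)
            (CovZ.leaf K2_ok TI_l3901 _)
            (CovZ.leaf K2_ok TI_l3902 _))
           (CovZ.n1 (83520, 76320) (by decide +kernel)
            (CovZ.n2 (83664, 76464) (by decide +kernel)
             (CovZ.leaf K2_ok TI_l3903 _)
             (CovZ.leaf K2_ok TI_l3904 _))
            (CovZ.leaf K2_ok TI_l3905 _))))))
       (CovZ.subM 162260514769252684800649936764928 (by decide +kernel)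
        (CovZ.n1 (84672, 76608) (by decide +kernel)
         (CovZ.n2 (84672, 76032) (by decide +kernel)
          (CovZ.n2 (84384, 76320) (by decide +kernel)
           (CovZ.n2 (84672, 76320) (by decide +kernel)
            (CovZ.n2 (84528, 76176) (by decide +kernel)
             (CovZ.leaf K2_ok TI_l3906 _)
             (CovZ.leaf K2_ok TI_l3907 _))
            (CovZ.n1 (84528, 76464) (by decide +kernel)
             (CovZ.n2 (84672, 76464) (by decide +kernel)
              (CovZ.leaf K2_ok TI_l3908 _)
              (CovZ.leaf K2_ok TI_l3909 _))
             (CovZ.leaf K2_ok TI_l3910 _)))
           (CovZ.n1 (84384, 76032) (by decide +kernel)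
            (CovZ.leaf K2_ok TI_l3911 _)
            (CovZ.leaf K2_ok TI_l3912 _)))
          (CovZ.n1 (84960, 76320) (by decide +kernel)
           (CovZ.n2 (84960, 76032) (by decide +kernel)
            (CovZ.leaf K2_ok TI_l3913 _)
            (CovZ.n1 (85104, 76176) (by decide +kernel)
             (CovZ.leaf K2_ok TI_l3914 _)
             (CovZ.leaf K2_ok TI_l3915 _)))
           (CovZ.n1 (84672, 76320) (by decide +kernel)
            (CovZ.n2 (84816, 76464) (by decide +kernel)
             (CovZ.leaf K2_ok TI_l3916 _)
             (CovZ.leaf K2_ok TI_l3917 _))
            (CovZ.leaf K2_ok TI_l3918 _))))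
         (CovZ.n1 (84096, 76608) (by decide +kernel)
          (CovZ.n2 (84384, 76896) (by decide +kernel)
           (CovZ.n2 (84384, 76608) (by decide +kernel)
            (CovZ.n2 (84240, 76752) (by decide +kernel)
             (CovZ.n2 (84384, 76752) (by decide +kernel)
              (CovZ.leaf K2_ok TI_l3919 _)
              (CovZ.n1 (84312, 76824) (by decide +kernel)
               (CovZ.n2 (84384, 76824) (by decide +kernel)
                (CovZ.leaf K2_ok TI_l3920 _)
                (CovZ.leaf K2_ok TI_l3921 _))
               (CovZ.leaf K2_ok TI_l3922 _)))
             (CovZ.leaf K2_ok TI_l3923 _))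
            (CovZ.n1 (84528, 76752) (by decide +kernel)
             (CovZ.n2 (84528, 76608) (by decide +kernel)
              (CovZ.leaf K2_ok TI_l3924 _)
              (CovZ.leaf K2_ok TI_l3925 _))
             (CovZ.n1 (84384, 76752) (by decide +kernel)
              (CovZ.n2 (84456, 76824) (by decide +kernel)
               (CovZ.leaf K2_ok TI_l3926 _)
               (CovZ.leaf K2_ok TI_l3927 _))
              (CovZ.leaf K2_ok TI_l3928 _))))
           (CovZ.n1 (84096, 76896) (by decide +kernel)
            (CovZ.n2 (84240, 77040) (by decide +kernel)
             (CovZ.n2 (84240, 76896) (by decide +kernel)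
              (CovZ.n2 (84168, 76968) (by decide +kernel)
               (CovZ.n2 (84240, 76968) (by decide +kernel)
                (CovZ.leaf K2_ok TI_l3929 _)
                (CovZ.leaf K2_ok TI_l3930 _))
               (CovZ.leaf K2_ok TI_l3931 _))
              (CovZ.n1 (84312, 76968) (by decide +kernel)
               (CovZ.leaf K2_ok TI_l3932 _)
               (CovZ.n1 (84240, 76968) (by decide +kernel)
                (CovZ.leaf K2_ok TI_l3933 _)
                (CovZ.leaf K2_ok TI_l3934 _))))
             (CovZ.n1 (84096, 77040) (by decide +kernel)
              (CovZ.n2 (84168, 77112) (by decide +kernel)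
               (CovZ.n2 (84168, 77040) (by decide +kernel)
                (CovZ.leaf K2_ok TI_l3935 _)
                (CovZ.n1 (84204, 77076) (by decide +kernel)
                 (CovZ.leaf K2_ok TI_l3936 _)
                 (CovZ.leaf K2_ok TI_l3937 _)))
               (CovZ.n1 (84096, 77112) (by decide +kernel)
                (CovZ.n2 (84132, 77148) (by decide +kernel)
                 (CovZ.leaf K2_ok TI_l3938 _)
                 (CovZ.leaf K2_ok TI_l3939 _))
                (CovZ.leaf K2_ok TI_l3940 _)))
              (CovZ.n1 (84168, 76968) (by decide +kernel)
               (CovZ.n2 (84096, 76968) (by decide +kernel)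
                (CovZ.leaf K2_ok TI_l3941 _)
                (CovZ.leaf K2_ok TI_l3942 _))
               (CovZ.n1 (84168, 77040) (by decide +kernel)
                (CovZ.leaf K2_ok TI_l3943 _)
                (CovZ.leaf K2_ok TI_l3944 _)))))
            (CovZ.n1 (84240, 76752) (by decide +kernel)
             (CovZ.n2 (84096, 76752) (by decide +kernel)
              (CovZ.n2 (84168, 76824) (by decide +kernel)
               (CovZ.leaf K2_ok TI_l3945 _)
               (CovZ.leaf K2_ok TI_l3946 _))
              (CovZ.leaf K2_ok TI_l3947 _))
             (CovZ.n1 (84240, 76896) (by decide +kernel)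
              (CovZ.leaf K2_ok TI_l3948 _)
              (CovZ.n1 (84168, 76824) (by decide +kernel)
               (CovZ.leaf K2_ok TI_l3949 _)
               (CovZ.leaf K2_ok TI_l3950 _))))))
          (CovZ.n1 (84384, 76320) (by decide +kernel)
           (CovZ.n2 (84096, 76320) (by decide +kernel)
            (CovZ.n2 (84240, 76464) (by decide +kernel)
             (CovZ.leaf K2_ok TI_l3951 _)
             (CovZ.leaf K2_ok TI_l3952 _))
            (CovZ.leaf K2_ok TI_l3953 _))
           (CovZ.n1 (84384, 76608) (by decide +kernel)
            (CovZ.leaf K2_ok TI_l3954 _)
            (CovZ.n1 (84240, 76464) (by decide +kernel)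
             (CovZ.leaf K2_ok TI_l3955 _)
             (CovZ.leaf K2_ok TI_l3956 _))))))))

theorem TI_u21 : CovZ TI_M (toL (selN TI_LN 12259964326927111037010718087234711886789105965508682256)) [0, 7, 6, 1] (84096, 77184) (82944, 78336) (82944, 76032) :=
    (CovZ.n1 (82944, 77184) (by decide +kernel)
       (CovZ.badM (by decide +kernel))
       (CovZ.n1 (83520, 76608) (by decide +kernel)
        (CovZ.n2 (82944, 76608) (by decide +kernel)
         (CovZ.n2 (83232, 76896) (by decide +kernel)
          (CovZ.n2 (83232, 76608) (by decide +kernel)
           (CovZ.n2 (83088, 76752) (by decide +kernel)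
            (CovZ.n2 (83232, 76752) (by decide +kernel)
             (CovZ.leaf K2_ok TI_l3957 _)
             (CovZ.n1 (83160, 76824) (by decide +kernel)
              (CovZ.leaf K2_ok TI_l3958 _)
              (CovZ.leaf K2_ok TI_l3959 _)))
            (CovZ.leaf K2_ok TI_l3960 _))
           (CovZ.subM 12259964326927111037008121938186474453322017480732844544 (by decide +kernel)
            (CovZ.n1 (83376, 76752) (by decide +kernel)
             (CovZ.n2 (83376, 76608) (by decide +kernel)
              (CovZ.leaf K2_ok TI_l3961 _)
              (CovZ.leaf K2_ok TI_l3962 _))
             (CovZ.n1 (83232, 76752) (by decide +kernel)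
              (CovZ.n2 (83304, 76824) (by decide +kernel)
               (CovZ.leaf K2_ok TI_l3963 _)
               (CovZ.leaf K2_ok TI_l3964 _))
              (CovZ.leaf K2_ok TI_l3965 _)))))
          (CovZ.n1 (82944, 76896) (by decide +kernel)
           (CovZ.n2 (83088, 77040) (by decide +kernel)
            (CovZ.n2 (83088, 76896) (by decide +kernel)
             (CovZ.n2 (83016, 76968) (by decide +kernel)
              (CovZ.n2 (83088, 76968) (by decide +kernel)
               (CovZ.leaf K2_ok TI_l3966 _)
               (CovZ.leaf K2_ok TI_l3967 _))
              (CovZ.leaf K2_ok TI_l3968 _))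
             (CovZ.n1 (83160, 76968) (by decide +kernel)
              (CovZ.n2 (83160, 76896) (by decide +kernel)
               (CovZ.leaf K2_ok TI_l3969 _)
               (CovZ.leaf K2_ok TI_l3970 _))
              (CovZ.n1 (83088, 76968) (by decide +kernel)
               (CovZ.leaf K2_ok TI_l3971 _)
               (CovZ.leaf K2_ok TI_l3972 _))))
            (CovZ.n1 (82944, 77040) (by decide +kernel)
             (CovZ.n2 (83016, 77112) (by decide +kernel)
              (CovZ.n2 (83016, 77040) (by decide +kernel)
               (CovZ.n2 (82980, 77076) (by decide +kernel)
                (CovZ.leaf K2_ok TI_l3973 _)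
                (CovZ.leaf K2_ok TI_l3974 _))
               (CovZ.n1 (83052, 77076) (by decide +kernel)
                (CovZ.leaf K2_ok TI_l3975 _)
                (CovZ.leaf K2_ok TI_l3976 _)))
              (CovZ.n1 (82944, 77112) (by decide +kernel)
               (CovZ.n2 (82980, 77148) (by decide +kernel)
                (CovZ.leaf K2_ok TI_l3977 _)
                (CovZ.leaf K2_ok TI_l3978 _))
               (CovZ.leaf K2_ok TI_l3979 _)))
             (CovZ.n1 (83016, 76968) (by decide +kernel)
              (CovZ.n2 (82944, 76968) (by decide +kernel)
               (CovZ.leaf K2_ok TI_l3980 _)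
               (CovZ.leaf K2_ok TI_l3981 _))
              (CovZ.n1 (83016, 77040) (by decide +kernel)
               (CovZ.leaf K2_ok TI_l3982 _)
               (CovZ.leaf K2_ok TI_l3983 _)))))
           (CovZ.n1 (83088, 76752) (by decide +kernel)
            (CovZ.n2 (82944, 76752) (by decide +kernel)
             (CovZ.n2 (83016, 76824) (by decide +kernel)
              (CovZ.leaf K2_ok TI_l3984 _)
              (CovZ.leaf K2_ok TI_l3985 _))
             (CovZ.leaf K2_ok TI_l3986 _))
            (CovZ.n1 (83088, 76896) (by decide +kernel)
             (CovZ.leaf K2_ok TI_l3987 _)
             (CovZ.n1 (83016, 76824) (by decide +kernel)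
              (CovZ.leaf K2_ok TI_l3988 _)
              (CovZ.n1 (83088, 76824) (by decide +kernel)
               (CovZ.leaf K2_ok TI_l3989 _)
               (CovZ.leaf K2_ok TI_l3990 _)))))))
         (CovZ.n1 (83232, 76320) (by decide +kernel)
          (CovZ.n2 (82944, 76320) (by decide +kernel)
           (CovZ.n2 (83088, 76464) (by decide +kernel)
            (CovZ.leaf K2_ok TI_l3991 _)
            (CovZ.leaf K2_ok TI_l3992 _))
           (CovZ.leaf K2_ok TI_l3993 _))
          (CovZ.n1 (83232, 76608) (by decide +kernel)
           (CovZ.n2 (83376, 76464) (by decide +kernel)
            (CovZ.leaf K2_ok TI_l3994 _)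
            (CovZ.leaf K2_ok TI_l3995 _))
           (CovZ.n1 (83088, 76464) (by decide +kernel)
            (CovZ.leaf K2_ok TI_l3996 _)
            (CovZ.leaf K2_ok TI_l3997 _)))))
        (CovZ.n1 (83520, 77184) (by decide +kernel)
         TI_u18
         TI_u19)))

theorem TI_u22 : CovZ TI_M (toL (selN TI_LN 162260514769252684800649936764928)) [0, 7, 6, 1] (85248, 77184) (84672, 77184) (84672, 76608) :=
    (CovZ.n2 (84960, 76896) (by decide +kernel)
           (CovZ.n2 (84672, 76896) (by decide +kernel)
            (CovZ.n2 (84816, 77040) (by decide +kernel)
             (CovZ.n2 (84816, 76896) (by decide +kernel)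
              (CovZ.n2 (84744, 76968) (by decide +kernel)
               (CovZ.n2 (84816, 76968) (by decide +kernel)
                (CovZ.leaf K2_ok TI_l4230 _)
                (CovZ.leaf K2_ok TI_l4231 _))
               (CovZ.n1 (84744, 76896) (by decide +kernel)
                (CovZ.leaf K2_ok TI_l4232 _)
                (CovZ.leaf K2_ok TI_l4233 _)))
              (CovZ.n1 (84888, 76968) (by decide +kernel)
               (CovZ.n2 (84888, 76896) (by decide +kernel)
                (CovZ.leaf K2_ok TI_l4234 _)
                (CovZ.leaf K2_ok TI_l4235 _))
               (CovZ.n1 (84816, 76968) (by decide +kernel)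
                (CovZ.leaf K2_ok TI_l4236 _)
                (CovZ.leaf K2_ok TI_l4237 _))))
             (CovZ.n1 (84672, 77040) (by decide +kernel)
              (CovZ.n2 (84744, 77112) (by decide +kernel)
               (CovZ.n2 (84744, 77040) (by decide +kernel)
                (CovZ.leaf K2_ok TI_l4238 _)
                (CovZ.n1 (84780, 77076) (by decide +kernel)
                 (CovZ.leaf K2_ok TI_l4239 _)
                 (CovZ.leaf K2_ok TI_l4240 _)))
               (CovZ.n1 (84672, 77112) (by decide +kernel)
                (CovZ.n2 (84708, 77148) (by decide +kernel)
                 (CovZ.leaf K2_ok TI_l4241 _)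
                 (CovZ.leaf K2_ok TI_l4242 _))
                (CovZ.leaf K2_ok TI_l4243 _)))
              (CovZ.n1 (84744, 76968) (by decide +kernel)
               (CovZ.n2 (84672, 76968) (by decide +kernel)
                (CovZ.leaf K2_ok TI_l4244 _)
                (CovZ.leaf K2_ok TI_l4245 _))
               (CovZ.n1 (84744, 77040) (by decide +kernel)
                (CovZ.leaf K2_ok TI_l4246 _)
                (CovZ.leaf K2_ok TI_l4247 _)))))
            (CovZ.n1 (84816, 76752) (by decide +kernel)
             (CovZ.n2 (84672, 76752) (by decide +kernel)
              (CovZ.n2 (84744, 76824) (by decide +kernel)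
               (CovZ.leaf K2_ok TI_l4248 _)
               (CovZ.leaf K2_ok TI_l4249 _))
              (CovZ.leaf K2_ok TI_l4250 _))
             (CovZ.n1 (84816, 76896) (by decide +kernel)
              (CovZ.leaf K2_ok TI_l4251 _)
              (CovZ.n1 (84744, 76824) (by decide +kernel)
               (CovZ.leaf K2_ok TI_l4252 _)
               (CovZ.leaf K2_ok TI_l4253 _)))))
           (CovZ.n1 (84960, 77184) (by decide +kernel)
            (CovZ.n2 (85104, 77040) (by decide +kernel)
             (CovZ.n2 (84960, 77040) (by decide +kernel)
              (CovZ.n2 (85032, 77112) (by decide +kernel)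
               (CovZ.n2 (85032, 77040) (by decide +kernel)
                (CovZ.leaf K2_ok TI_l4254 _)
                (CovZ.n1 (85068, 77076) (by decide +kernel)
                 (CovZ.leaf K2_ok TI_l4255 _)
                 (CovZ.leaf K2_ok TI_l4256 _)))
               (CovZ.n1 (84960, 77112) (by decide +kernel)
                (CovZ.n2 (84996, 77148) (by decide +kernel)
                 (CovZ.leaf K2_ok TI_l4257 _)
                 (CovZ.n1 (84960, 77148) (by decide +kernel)
                  (CovZ.n2 (84978, 77166) (by decide +kernel)
                   (CovZ.leaf K2_ok TI_l4258 _)
                   (CovZ.n1 (84960, 77166) (by decide +kernel)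
                    (CovZ.badM (by decide +kernel))
                    (CovZ.leaf K2_ok TI_l4259 _)))
                  (CovZ.leaf K2_ok TI_l4260 _)))
                (CovZ.leaf K2_ok TI_l4261 _)))
              (CovZ.n1 (85032, 76968) (by decide +kernel)
               (CovZ.n2 (84960, 76968) (by decide +kernel)
                (CovZ.leaf K2_ok TI_l4262 _)
                (CovZ.leaf K2_ok TI_l4263 _))
               (CovZ.n1 (85032, 77040) (by decide +kernel)
                (CovZ.leaf K2_ok TI_l4264 _)
                (CovZ.leaf K2_ok TI_l4265 _))))
             (CovZ.n1 (85104, 77184) (by decide +kernel)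
              (CovZ.n2 (85176, 77112) (by decide +kernel)
               (CovZ.n2 (85104, 77112) (by decide +kernel)
                (CovZ.n2 (85140, 77148) (by decide +kernel)
                 (CovZ.leaf K2_ok TI_l4266 _)
                 (CovZ.leaf K2_ok TI_l4267 _))
                (CovZ.leaf K2_ok TI_l4268 _))
               (CovZ.n1 (85176, 77184) (by decide +kernel)
                (CovZ.n2 (85212, 77148) (by decide +kernel)
                 (CovZ.leaf K2_ok TI_l4269 _)
                 (CovZ.n1 (85212, 77184) (by decide +kernel)
                  (CovZ.leaf K2_ok TI_l4270 _)
                  (CovZ.n1 (85194, 77166) (by decide +kernel)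
                   (CovZ.badM (by decide +kernel))
                   (CovZ.leaf K2_ok TI_l4271 _))))
                (CovZ.n1 (85140, 77148) (by decide +kernel)
                 (CovZ.n2 (85140, 77184) (by decide +kernel)
                  (CovZ.leaf K2_ok TI_l4272 _)
                  (CovZ.leaf K2_ok TI_l4273 _))
                 (CovZ.n1 (85176, 77148) (by decide +kernel)
                  (CovZ.leaf K2_ok TI_l4274 _)
                  (CovZ.n1 (85158, 77166) (by decide +kernel)
                   (CovZ.leaf K2_ok TI_l4275 _)
                   (CovZ.leaf K2_ok TI_l4276 _))))))
              (CovZ.n1 (85032, 77112) (by decide +kernel)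
               (CovZ.n2 (85032, 77184) (by decide +kernel)
                (CovZ.n2 (85068, 77148) (by decide +kernel)
                 (CovZ.n2 (85032, 77148) (by decide +kernel)
                  (CovZ.n2 (85050, 77166) (by decide +kernel)
                   (CovZ.leaf K2_ok TI_l4277 _)
                   (CovZ.leaf K2_ok TI_l4278 _))
                  (CovZ.leaf K2_ok TI_l4279 _))
                 (CovZ.n1 (85068, 77184) (by decide +kernel)
                  (CovZ.n2 (85086, 77166) (by decide +kernel)
                   (CovZ.leaf K2_ok TI_l4280 _)
                   (CovZ.badM (by decide +kernel)))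
                  (CovZ.n1 (85050, 77166) (by decide +kernel)
                   (CovZ.badM (by decide +kernel))
                   (CovZ.n1 (85068, 77166) (by decide +kernel)
                    (CovZ.leaf K2_ok TI_l4281 _)
                    (CovZ.badM (by decide +kernel))))))
                (CovZ.n1 (84996, 77148) (by decide +kernel)
                 (CovZ.n2 (84996, 77184) (by decide +kernel)
                  (CovZ.leaf K2_ok TI_l4282 _)
                  (CovZ.n1 (84978, 77166) (by decide +kernel)
                   (CovZ.badM (by decide +kernel))
                   (CovZ.leaf K2_ok TI_l4283 _)))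
                 (CovZ.n1 (85032, 77148) (by decide +kernel)
                  (CovZ.leaf K2_ok TI_l4284 _)
                  (CovZ.leaf K2_ok TI_l4285 _))))
               (CovZ.n1 (85104, 77112) (by decide +kernel)
                (CovZ.n2 (85068, 77076) (by decide +kernel)
                 (CovZ.leaf K2_ok TI_l4286 _)
                 (CovZ.leaf K2_ok TI_l4287 _))
                (CovZ.n1 (85068, 77148) (by decide +kernel)
                 (CovZ.n2 (85104, 77148) (by decide +kernel)
                  (CovZ.leaf K2_ok TI_l4288 _)
                  (CovZ.n1 (85086, 77166) (by decide +kernel)
                   (CovZ.leaf K2_ok TI_l4289 _)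
                   (CovZ.leaf K2_ok TI_l4290 _)))
                 (CovZ.leaf K2_ok TI_l4291 _))))))
            (CovZ.n1 (84816, 77040) (by decide +kernel)
             (CovZ.n2 (84816, 77184) (by decide +kernel)
              (CovZ.n2 (84888, 77112) (by decide +kernel)
               (CovZ.n2 (84816, 77112) (by decide +kernel)
                (CovZ.n2 (84852, 77148) (by decide +kernel)
                 (CovZ.n2 (84852, 77112) (by decide +kernel)
                  (CovZ.leaf K2_ok TI_l4292 _)
                  (CovZ.n1 (84870, 77130) (by decide +kernel)
                   (CovZ.leaf K2_ok TI_l4293 _)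
                   (CovZ.leaf K2_ok TI_l4294 _)))
                 (CovZ.n1 (84816, 77148) (by decide +kernel)
                  (CovZ.leaf K2_ok TI_l4295 _)
                  (CovZ.leaf K2_ok TI_l4296 _)))
                (CovZ.leaf K2_ok TI_l4297 _))
               (CovZ.n1 (84888, 77184) (by decide +kernel)
                (CovZ.n2 (84924, 77148) (by decide +kernel)
                 (CovZ.n2 (84888, 77148) (by decide +kernel)
                  (CovZ.n2 (84906, 77166) (by decide +kernel)
                   (CovZ.leaf K2_ok TI_l4298 _)
                   (CovZ.leaf K2_ok TI_l4299 _))
                  (CovZ.leaf K2_ok TI_l4300 _))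
                 (CovZ.n1 (84924, 77184) (by decide +kernel)
                  (CovZ.leaf K2_ok TI_l4301 _)
                  (CovZ.n1 (84906, 77166) (by decide +kernel)
                   (CovZ.badM (by decide +kernel))
                   (CovZ.leaf K2_ok TI_l4302 _))))
                (CovZ.n1 (84852, 77148) (by decide +kernel)
                 (CovZ.n2 (84852, 77184) (by decide +kernel)
                  (CovZ.n2 (84870, 77166) (by decide +kernel)
                   (CovZ.leaf K2_ok TI_l4303 _)
                   (CovZ.badM (by decide +kernel)))
                  (CovZ.leaf K2_ok TI_l4304 _))
                 (CovZ.n1 (84888, 77148) (by decide +kernel)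
                  (CovZ.leaf K2_ok TI_l4305 _)
                  (CovZ.leaf K2_ok TI_l4306 _)))))
              (CovZ.n1 (84744, 77112) (by decide +kernel)
               (CovZ.n2 (84744, 77184) (by decide +kernel)
                (CovZ.n2 (84780, 77148) (by decide +kernel)
                 (CovZ.leaf K2_ok TI_l4307 _)
                 (CovZ.n1 (84780, 77184) (by decide +kernel)
                  (CovZ.leaf K2_ok TI_l4308 _)
                  (CovZ.leaf K2_ok TI_l4309 _)))
                (CovZ.n1 (84708, 77148) (by decide +kernel)
                 (CovZ.n2 (84708, 77184) (by decide +kernel)
                  (CovZ.leaf K2_ok TI_l4310 _)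
                  (CovZ.n1 (84690, 77166) (by decide +kernel)
                   (CovZ.badM (by decide +kernel))
                   (CovZ.leaf K2_ok TI_l4311 _)))
                 (CovZ.leaf K2_ok TI_l4312 _)))
               (CovZ.n1 (84816, 77112) (by decide +kernel)
                (CovZ.n2 (84780, 77076) (by decide +kernel)
                 (CovZ.leaf K2_ok TI_l4313 _)
                 (CovZ.leaf K2_ok TI_l4314 _))
                (CovZ.n1 (84780, 77148) (by decide +kernel)
                 (CovZ.n2 (84816, 77148) (by decide +kernel)
                  (CovZ.leaf K2_ok TI_l4315 _)
                  (CovZ.n1 (84798, 77166) (by decide +kernel)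
                   (CovZ.leaf K2_ok TI_l4316 _)
                   (CovZ.leaf K2_ok TI_l4317 _)))
                 (CovZ.leaf K2_ok TI_l4318 _)))))
             (CovZ.n1 (84960, 77040) (by decide +kernel)
              (CovZ.n2 (84888, 76968) (by decide +kernel)
               (CovZ.n2 (84888, 77040) (by decide +kernel)
                (CovZ.leaf K2_ok TI_l4319 _)
                (CovZ.leaf K2_ok TI_l4320 _))
               (CovZ.n1 (84960, 76968) (by decide +kernel)
                (CovZ.leaf K2_ok TI_l4321 _)
                (CovZ.leaf K2_ok TI_l4322 _)))
              (CovZ.n1 (84888, 77112) (by decide +kernel)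
               (CovZ.n2 (84960, 77112) (by decide +kernel)
                (CovZ.n2 (84924, 77076) (by decide +kernel)
                 (CovZ.leaf K2_ok TI_l4323 _)
                 (CovZ.leaf K2_ok TI_l4324 _))
                (CovZ.n1 (84924, 77148) (by decide +kernel)
                 (CovZ.n2 (84960, 77148) (by decide +kernel)
                  (CovZ.leaf K2_ok TI_l4325 _)
                  (CovZ.leaf K2_ok TI_l4326 _))
                 (CovZ.n1 (84924, 77112) (by decide +kernel)
                  (CovZ.leaf K2_ok TI_l4327 _)
                  (CovZ.leaf K2_ok TI_l4328 _))))
               (CovZ.n1 (84888, 77040) (by decide +kernel)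
                (CovZ.n2 (84852, 77076) (by decide +kernel)
                 (CovZ.leaf K2_ok TI_l4329 _)
                 (CovZ.leaf K2_ok TI_l4330 _))
                (CovZ.n1 (84924, 77076) (by decide +kernel)
                 (CovZ.leaf K2_ok TI_l4331 _)
                 (CovZ.leaf K2_ok TI_l4332 _))))))))

theorem TI_u23 : CovZ TI_M (toL (selN TI_LN 162260514769252684800649936764928)) [0, 7, 6, 1] (84672, 77184) (84096, 77184) (84672, 76608) :=
    (CovZ.n1 (84384, 76896) (by decide +kernel)
           (CovZ.n2 (84384, 77184) (by decide +kernel)
            (CovZ.n2 (84528, 77040) (by decide +kernel)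
             (CovZ.n2 (84384, 77040) (by decide +kernel)
              (CovZ.n2 (84456, 77112) (by decide +kernel)
               (CovZ.n2 (84456, 77040) (by decide +kernel)
                (CovZ.leaf K2_ok TI_l4333 _)
                (CovZ.n1 (84492, 77076) (by decide +kernel)
                 (CovZ.leaf K2_ok TI_l4334 _)
                 (CovZ.leaf K2_ok TI_l4335 _)))
               (CovZ.n1 (84384, 77112) (by decide +kernel)
                (CovZ.n2 (84420, 77148) (by decide +kernel)
                 (CovZ.leaf K2_ok TI_l4336 _)
                 (CovZ.leaf K2_ok TI_l4337 _))
                (CovZ.leaf K2_ok TI_l4338 _)))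
              (CovZ.n1 (84456, 76968) (by decide +kernel)
               (CovZ.n2 (84384, 76968) (by decide +kernel)
                (CovZ.leaf K2_ok TI_l4339 _)
                (CovZ.leaf K2_ok TI_l4340 _))
               (CovZ.n1 (84456, 77040) (by decide +kernel)
                (CovZ.leaf K2_ok TI_l4341 _)
                (CovZ.leaf K2_ok TI_l4342 _))))
             (CovZ.n1 (84528, 77184) (by decide +kernel)
              (CovZ.n2 (84600, 77112) (by decide +kernel)
               (CovZ.n2 (84528, 77112) (by decide +kernel)
                (CovZ.n2 (84564, 77148) (by decide +kernel)
                 (CovZ.leaf K2_ok TI_l4343 _)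
                 (CovZ.leaf K2_ok TI_l4344 _))
                (CovZ.n1 (84564, 77076) (by decide +kernel)
                 (CovZ.leaf K2_ok TI_l4345 _)
                 (CovZ.leaf K2_ok TI_l4346 _)))
               (CovZ.n1 (84600, 77184) (by decide +kernel)
                (CovZ.n2 (84636, 77148) (by decide +kernel)
                 (CovZ.n2 (84600, 77148) (by decide +kernel)
                  (CovZ.leaf K2_ok TI_l4347 _)
                  (CovZ.leaf K2_ok TI_l4348 _))
                 (CovZ.n1 (84636, 77184) (by decide +kernel)
                  (CovZ.n2 (84654, 77166) (by decide +kernel)
                   (CovZ.leaf K2_ok TI_l4349 _)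
                   (CovZ.badM (by decide +kernel)))
                  (CovZ.leaf K2_ok TI_l4350 _)))
                (CovZ.n1 (84564, 77148) (by decide +kernel)
                 (CovZ.n2 (84564, 77184) (by decide +kernel)
                  (CovZ.leaf K2_ok TI_l4351 _)
                  (CovZ.n1 (84546, 77166) (by decide +kernel)
                   (CovZ.badM (by decide +kernel))
                   (CovZ.leaf K2_ok TI_l4352 _)))
                 (CovZ.n1 (84600, 77148) (by decide +kernel)
                  (CovZ.leaf K2_ok TI_l4353 _)
                  (CovZ.leaf K2_ok TI_l4354 _)))))
              (CovZ.n1 (84456, 77112) (by decide +kernel)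
               (CovZ.n2 (84456, 77184) (by decide +kernel)
                (CovZ.n2 (84492, 77148) (by decide +kernel)
                 (CovZ.n2 (84456, 77148) (by decide +kernel)
                  (CovZ.n2 (84474, 77166) (by decide +kernel)
                   (CovZ.leaf K2_ok TI_l4355 _)
                   (CovZ.leaf K2_ok TI_l4356 _))
                  (CovZ.leaf K2_ok TI_l4357 _))
                 (CovZ.n1 (84492, 77184) (by decide +kernel)
                  (CovZ.leaf K2_ok TI_l4358 _)
                  (CovZ.n1 (84474, 77166) (by decide +kernel)
                   (CovZ.badM (by decide +kernel))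
                   (CovZ.leaf K2_ok TI_l4359 _))))
                (CovZ.n1 (84420, 77148) (by decide +kernel)
                 (CovZ.leaf K2_ok TI_l4360 _)
                 (CovZ.n1 (84456, 77148) (by decide +kernel)
                  (CovZ.leaf K2_ok TI_l4361 _)
                  (CovZ.leaf K2_ok TI_l4362 _))))
               (CovZ.n1 (84528, 77112) (by decide +kernel)
                (CovZ.n2 (84492, 77076) (by decide +kernel)
                 (CovZ.leaf K2_ok TI_l4363 _)
                 (CovZ.leaf K2_ok TI_l4364 _))
                (CovZ.n1 (84492, 77148) (by decide +kernel)
                 (CovZ.n2 (84528, 77148) (by decide +kernel)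
                  (CovZ.leaf K2_ok TI_l4365 _)
                  (CovZ.leaf K2_ok TI_l4366 _))
                 (CovZ.leaf K2_ok TI_l4367 _))))))
            (CovZ.n1 (84240, 77040) (by decide +kernel)
             (CovZ.n2 (84240, 77184) (by decide +kernel)
              (CovZ.n2 (84312, 77112) (by decide +kernel)
               (CovZ.n2 (84240, 77112) (by decide +kernel)
                (CovZ.n2 (84276, 77148) (by decide +kernel)
                 (CovZ.leaf K2_ok TI_l4368 _)
                 (CovZ.leaf K2_ok TI_l4369 _))
                (CovZ.leaf K2_ok TI_l4370 _))
               (CovZ.n1 (84312, 77184) (by decide +kernel)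
                (CovZ.n2 (84348, 77148) (by decide +kernel)
                 (CovZ.n2 (84312, 77148) (by decide +kernel)
                  (CovZ.leaf K2_ok TI_l4371 _)
                  (CovZ.leaf K2_ok TI_l4372 _))
                 (CovZ.n1 (84348, 77184) (by decide +kernel)
                  (CovZ.n2 (84366, 77166) (by decide +kernel)
                   (CovZ.leaf K2_ok TI_l4373 _)
                   (CovZ.badM (by decide +kernel)))
                  (CovZ.leaf K2_ok TI_l4374 _)))
                (CovZ.n1 (84276, 77148) (by decide +kernel)
                 (CovZ.n2 (84276, 77184) (by decide +kernel)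
                  (CovZ.leaf K2_ok TI_l4375 _)
                  (CovZ.leaf K2_ok TI_l4376 _))
                 (CovZ.n1 (84312, 77148) (by decide +kernel)
                  (CovZ.leaf K2_ok TI_l4377 _)
                  (CovZ.n1 (84294, 77166) (by decide +kernel)
                   (CovZ.leaf K2_ok TI_l4378 _)
                   (CovZ.leaf K2_ok TI_l4379 _))))))
              (CovZ.n1 (84168, 77112) (by decide +kernel)
               (CovZ.n2 (84168, 77184) (by decide +kernel)
                (CovZ.n2 (84204, 77148) (by decide +kernel)
                 (CovZ.n2 (84168, 77148) (by decide +kernel)
                  (CovZ.n2 (84186, 77166) (by decide +kernel)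
                   (CovZ.leaf K2_ok TI_l4380 _)
                   (CovZ.leaf K2_ok TI_l4381 _))
                  (CovZ.leaf K2_ok TI_l4382 _))
                 (CovZ.n1 (84204, 77184) (by decide +kernel)
                  (CovZ.leaf K2_ok TI_l4383 _)
                  (CovZ.n1 (84186, 77166) (by decide +kernel)
                   (CovZ.badM (by decide +kernel))
                   (CovZ.n1 (84204, 77166) (by decide +kernel)
                    (CovZ.leaf K2_ok TI_l4384 _)
                    (CovZ.badM (by decide +kernel))))))
                (CovZ.n1 (84132, 77148) (by decide +kernel)
                 (CovZ.n2 (84132, 77184) (by decide +kernel)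
                  (CovZ.leaf K2_ok TI_l4385 _)
                  (CovZ.leaf K2_ok TI_l4386 _))
                 (CovZ.n1 (84168, 77148) (by decide +kernel)
                  (CovZ.leaf K2_ok TI_l4387 _)
                  (CovZ.leaf K2_ok TI_l4388 _))))
               (CovZ.n1 (84240, 77112) (by decide +kernel)
                (CovZ.n2 (84204, 77076) (by decide +kernel)
                 (CovZ.leaf K2_ok TI_l4389 _)
                 (CovZ.leaf K2_ok TI_l4390 _))
                (CovZ.n1 (84204, 77148) (by decide +kernel)
                 (CovZ.n2 (84240, 77148) (by decide +kernel)
                  (CovZ.leaf K2_ok TI_l4391 _)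
                  (CovZ.leaf K2_ok TI_l4392 _))
                 (CovZ.leaf K2_ok TI_l4393 _)))))
             (CovZ.n1 (84384, 77040) (by decide +kernel)
              (CovZ.n2 (84312, 76968) (by decide +kernel)
               (CovZ.n2 (84312, 77040) (by decide +kernel)
                (CovZ.leaf K2_ok TI_l4394 _)
                (CovZ.leaf K2_ok TI_l4395 _))
               (CovZ.n1 (84384, 76968) (by decide +kernel)
                (CovZ.leaf K2_ok TI_l4396 _)
                (CovZ.leaf K2_ok TI_l4397 _)))
              (CovZ.n1 (84312, 77112) (by decide +kernel)
               (CovZ.n2 (84384, 77112) (by decide +kernel)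
                (CovZ.n2 (84348, 77076) (by decide +kernel)
                 (CovZ.leaf K2_ok TI_l4398 _)
                 (CovZ.leaf K2_ok TI_l4399 _))
                (CovZ.n1 (84348, 77148) (by decide +kernel)
                 (CovZ.n2 (84384, 77148) (by decide +kernel)
                  (CovZ.leaf K2_ok TI_l4400 _)
                  (CovZ.n1 (84366, 77166) (by decide +kernel)
                   (CovZ.leaf K2_ok TI_l4401 _)
                   (CovZ.leaf K2_ok TI_l4402 _)))
                 (CovZ.leaf K2_ok TI_l4403 _)))
               (CovZ.n1 (84312, 77040) (by decide +kernel)
                (CovZ.leaf K2_ok TI_l4404 _)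
                (CovZ.n1 (84348, 77076) (by decide +kernel)
                 (CovZ.leaf K2_ok TI_l4405 _)
                 (CovZ.leaf K2_ok TI_l4406 _)))))))
           (CovZ.n1 (84672, 76896) (by decide +kernel)
            (CovZ.n2 (84528, 76752) (by decide +kernel)
             (CovZ.n2 (84528, 76896) (by decide +kernel)
              (CovZ.leaf K2_ok TI_l4407 _)
              (CovZ.n1 (84456, 76824) (by decide +kernel)
               (CovZ.leaf K2_ok TI_l4408 _)
               (CovZ.leaf K2_ok TI_l4409 _)))
             (CovZ.n1 (84672, 76752) (by decide +kernel)
              (CovZ.leaf K2_ok TI_l4410 _)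
              (CovZ.n1 (84600, 76824) (by decide +kernel)
               (CovZ.leaf K2_ok TI_l4411 _)
               (CovZ.leaf K2_ok TI_l4412 _))))
            (CovZ.n1 (84528, 77040) (by decide +kernel)
             (CovZ.n2 (84672, 77040) (by decide +kernel)
              (CovZ.n2 (84600, 76968) (by decide +kernel)
               (CovZ.n2 (84600, 77040) (by decide +kernel)
                (CovZ.leaf K2_ok TI_l4413 _)
                (CovZ.leaf K2_ok TI_l4414 _))
               (CovZ.n1 (84672, 76968) (by decide +kernel)
                (CovZ.leaf K2_ok TI_l4415 _)
                (CovZ.leaf K2_ok TI_l4416 _)))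
              (CovZ.n1 (84600, 77112) (by decide +kernel)
               (CovZ.n2 (84672, 77112) (by decide +kernel)
                (CovZ.n2 (84636, 77076) (by decide +kernel)
                 (CovZ.leaf K2_ok TI_l4417 _)
                 (CovZ.leaf K2_ok TI_l4418 _))
                (CovZ.n1 (84636, 77148) (by decide +kernel)
                 (CovZ.n2 (84672, 77148) (by decide +kernel)
                  (CovZ.leaf K2_ok TI_l4419 _)
                  (CovZ.leaf K2_ok TI_l4420 _))
                 (CovZ.leaf K2_ok TI_l4421 _)))
               (CovZ.n1 (84600, 77040) (by decide +kernel)
                (CovZ.n2 (84564, 77076) (by decide +kernel)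
                 (CovZ.n2 (84600, 77076) (by decide +kernel)
                  (CovZ.leaf K2_ok TI_l4422 _)
                  (CovZ.leaf K2_ok TI_l4423 _))
                 (CovZ.leaf K2_ok TI_l4424 _))
                (CovZ.n1 (84636, 77076) (by decide +kernel)
                 (CovZ.leaf K2_ok TI_l4425 _)
                 (CovZ.leaf K2_ok TI_l4426 _)))))
             (CovZ.n1 (84528, 76896) (by decide +kernel)
              (CovZ.n2 (84456, 76968) (by decide +kernel)
               (CovZ.n2 (84528, 76968) (by decide +kernel)
                (CovZ.leaf K2_ok TI_l4427 _)
                (CovZ.leaf K2_ok TI_l4428 _))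
               (CovZ.leaf K2_ok TI_l4429 _))
              (CovZ.n1 (84600, 76968) (by decide +kernel)
               (CovZ.leaf K2_ok TI_l4430 _)
               (CovZ.n1 (84528, 76968) (by decide +kernel)
                (CovZ.leaf K2_ok TI_l4431 _)
                (CovZ.leaf K2_ok TI_l4432 _)))))))

theorem TI_u24 : CovZ TI_M (toL (selN TI_LN 1901112911870620742432042804572037264301580133142128457029003)) [0, 7, 6, 1] (82944, 81792) (82656, 81792) (82656, 81504) :=
    (CovZ.n2 (82800, 81648) (by decide +kernel)
             (CovZ.n2 (82656, 81648) (by decide +kernel)
              (CovZ.n2 (82728, 81720) (by decide +kernel)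
               (CovZ.n2 (82728, 81648) (by decide +kernel)
                (CovZ.n2 (82692, 81684) (by decide +kernel)
                 (CovZ.n2 (82728, 81684) (by decide +kernel)
                  (CovZ.leaf K2_ok TI_l1352 _)
                  (CovZ.leaf K2_ok TI_l1353 _))
                 (CovZ.n1 (82692, 81648) (by decide +kernel)
                  (CovZ.leaf K2_ok TI_l1354 _)
                  (CovZ.leaf K2_ok TI_l1355 _)))
                (CovZ.n1 (82764, 81684) (by decide +kernel)
                 (CovZ.n2 (82764, 81648) (by decide +kernel)
                  (CovZ.leaf K2_ok TI_l1356 _)
                  (CovZ.leaf K2_ok TI_l1357 _))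
                 (CovZ.leaf K2_ok TI_l1358 _)))
               (CovZ.n1 (82656, 81720) (by decide +kernel)
                (CovZ.n2 (82692, 81756) (by decide +kernel)
                 (CovZ.n2 (82692, 81720) (by decide +kernel)
                  (CovZ.leaf K2_ok TI_l1359 _)
                  (CovZ.leaf K2_ok TI_l1360 _))
                 (CovZ.leaf K2_ok TI_l1361 _))
                (CovZ.n1 (82692, 81684) (by decide +kernel)
                 (CovZ.n2 (82656, 81684) (by decide +kernel)
                  (CovZ.leaf K2_ok TI_l1362 _)
                  (CovZ.leaf K2_ok TI_l1363 _))
                 (CovZ.leaf K2_ok TI_l1364 _))))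
              (CovZ.subM 256012624511670665891260986531207596202751091592845221564801 (by decide +kernel)
               (CovZ.n1 (82728, 81576) (by decide +kernel)
                (CovZ.n2 (82656, 81576) (by decide +kernel)
                 (CovZ.n2 (82692, 81612) (by decide +kernel)
                  (CovZ.subM 252849553715323471287522781579364812429577033536995934077185 (by decide +kernel)
                   (CovZ.n2 (82692, 81576) (by decide +kernel)
                    (CovZ.n2 (82674, 81594) (by decide +kernel)
                     (CovZ.leaf K2_ok TI_l1365 _)
                     (CovZ.n1 (82674, 81576) (by decide +kernel)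
                      (CovZ.leaf K2_ok TI_l1366 _)
                      (CovZ.leaf K2_ok TI_l1367 _)))
                    (CovZ.n1 (82710, 81594) (by decide +kernel)
                     (CovZ.n2 (82710, 81576) (by decide +kernel)
                      (CovZ.leaf K2_ok TI_l1368 _)
                      (CovZ.n1 (82719, 81585) (by decide +kernel)
                       (CovZ.leaf K2_ok TI_l1369 _)
                       (CovZ.leaf K2_ok TI_l1370 _)))
                     (CovZ.leaf K2_ok TI_l1371 _))))
                  (CovZ.n1 (82656, 81612) (by decide +kernel)
                   (CovZ.n2 (82674, 81630) (by decide +kernel)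
                    (CovZ.leaf K2_ok TI_l1372 _)
                    (CovZ.leaf K2_ok TI_l1373 _))
                   (CovZ.leaf K2_ok TI_l1374 _)))
                 (CovZ.subM 201063416507897702926808159843681945221323119936065765376256 (by decide +kernel)
                  (CovZ.n1 (82692, 81540) (by decide +kernel)
                   (CovZ.badM (by decide +kernel))
                   (CovZ.n1 (82692, 81576) (by decide +kernel)
                    (CovZ.n2 (82710, 81558) (by decide +kernel)
                     (CovZ.n2 (82692, 81558) (by decide +kernel)
                      (CovZ.n2 (82701, 81567) (by decide +kernel)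
                       (CovZ.badM (by decide +kernel))
                       (CovZ.leaf K2_ok TI_l6722 _))
                      (CovZ.badM (by decide +kernel)))
                     (CovZ.n1 (82710, 81576) (by decide +kernel)
                      (CovZ.leaf K2_ok TI_l1375 _)
                      (CovZ.n1 (82701, 81567) (by decide +kernel)
                       (CovZ.leaf K2_ok TI_l1376 _)
                       (CovZ.leaf K2_ok TI_l1377 _))))
                    (CovZ.n1 (82674, 81558) (by decide +kernel)
                     (CovZ.leaf K2_ok TI_l6723 _)
                     (CovZ.n1 (82692, 81558) (by decide +kernel)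
                      (CovZ.badM (by decide +kernel))
                      (CovZ.leaf K2_ok TI_l6724 _)))))))
                (CovZ.n1 (82728, 81648) (by decide +kernel)
                 (CovZ.n2 (82764, 81612) (by decide +kernel)
                  (CovZ.n2 (82728, 81612) (by decide +kernel)
                   (CovZ.n2 (82746, 81630) (by decide +kernel)
                    (CovZ.n2 (82746, 81612) (by decide +kernel)
                     (CovZ.leaf K2_ok TI_l1378 _)
                     (CovZ.leaf K2_ok TI_l1379 _))
                    (CovZ.leaf K2_ok TI_l1380 _))
                   (CovZ.n1 (82746, 81594) (by decide +kernel)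
                    (CovZ.leaf K2_ok TI_l1381 _)
                    (CovZ.leaf K2_ok TI_l1382 _)))
                  (CovZ.n1 (82764, 81648) (by decide +kernel)
                   (CovZ.leaf K2_ok TI_l1383 _)
                   (CovZ.leaf K2_ok TI_l1384 _)))
                 (CovZ.n1 (82692, 81612) (by decide +kernel)
                  (CovZ.n2 (82692, 81648) (by decide +kernel)
                   (CovZ.leaf K2_ok TI_l1385 _)
                   (CovZ.leaf K2_ok TI_l1386 _))
                  (CovZ.n1 (82728, 81612) (by decide +kernel)
                   (CovZ.n2 (82710, 81594) (by decide +kernel)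
                    (CovZ.leaf K2_ok TI_l1387 _)
                    (CovZ.n1 (82728, 81594) (by decide +kernel)
                     (CovZ.leaf K2_ok TI_l1388 _)
                     (CovZ.leaf K2_ok TI_l1389 _)))
                   (CovZ.n1 (82710, 81630) (by decide +kernel)
                    (CovZ.leaf K2_ok TI_l1390 _)
                    (CovZ.leaf K2_ok TI_l1391 _))))))))
             (CovZ.n1 (82800, 81792) (by decide +kernel)
              (CovZ.subM 252653344896173386194763452203258620509939225155418116460929 (by decide +kernel)
               (CovZ.n2 (82872, 81720) (by decide +kernel)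
                (CovZ.n2 (82800, 81720) (by decide +kernel)
                 (CovZ.n2 (82836, 81756) (by decide +kernel)
                  (CovZ.n2 (82836, 81720) (by decide +kernel)
                   (CovZ.leaf K2_ok TI_l1392 _)
                   (CovZ.leaf K2_ok TI_l1393 _))
                  (CovZ.leaf K2_ok TI_l1394 _))
                 (CovZ.leaf K2_ok TI_l1395 _))
                (CovZ.n1 (82872, 81792) (by decide +kernel)
                 (CovZ.leaf K2_ok TI_l1396 _)
                 (CovZ.n1 (82836, 81756) (by decide +kernel)
                  (CovZ.leaf K2_ok TI_l1397 _)
                  (CovZ.leaf K2_ok TI_l1398 _)))))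
              (CovZ.n1 (82728, 81720) (by decide +kernel)
               (CovZ.n2 (82728, 81792) (by decide +kernel)
                (CovZ.leaf K2_ok TI_l1399 _)
                (CovZ.n1 (82692, 81756) (by decide +kernel)
                 (CovZ.leaf K2_ok TI_l1400 _)
                 (CovZ.leaf K2_ok TI_l1401 _)))
               (CovZ.n1 (82800, 81720) (by decide +kernel)
                (CovZ.n2 (82764, 81684) (by decide +kernel)
                 (CovZ.leaf K2_ok TI_l1402 _)
                 (CovZ.n1 (82800, 81684) (by decide +kernel)
                  (CovZ.n2 (82782, 81666) (by decide +kernel)
                   (CovZ.leaf K2_ok TI_l1403 _)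
                   (CovZ.leaf K2_ok TI_l1404 _))
                  (CovZ.leaf K2_ok TI_l1405 _)))
                (CovZ.n1 (82764, 81756) (by decide +kernel)
                 (CovZ.leaf K2_ok TI_l1406 _)
                 (CovZ.n1 (82764, 81720) (by decide +kernel)
                  (CovZ.leaf K2_ok TI_l1407 _)
                  (CovZ.leaf K2_ok TI_l1408 _)))))))

theorem TI_u25 : CovZ TI_M (toL (selN TI_LN 1901112911870620742432042804572037264301580133142128457029003)) [0, 7, 6, 1] (82656, 81792) (82368, 81792) (82656, 81504) :=
    (CovZ.n1 (82512, 81648) (by decide +kernel)
             (CovZ.n2 (82512, 81792) (by decide +kernel)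
              (CovZ.n2 (82584, 81720) (by decide +kernel)
               (CovZ.n2 (82512, 81720) (by decide +kernel)
                (CovZ.n2 (82548, 81756) (by decide +kernel)
                 (CovZ.n2 (82548, 81720) (by decide +kernel)
                  (CovZ.leaf K2_ok TI_l1409 _)
                  (CovZ.n1 (82566, 81738) (by decide +kernel)
                   (CovZ.leaf K2_ok TI_l1410 _)
                   (CovZ.leaf K2_ok TI_l1411 _)))
                 (CovZ.leaf K2_ok TI_l1412 _))
                (CovZ.subM 254443352282988430219303990677227714778233505643175750930819 (by decide +kernel)
                 (CovZ.n1 (82548, 81684) (by decide +kernel)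
                  (CovZ.n2 (82512, 81684) (by decide +kernel)
                   (CovZ.n2 (82530, 81702) (by decide +kernel)
                    (CovZ.n2 (82530, 81684) (by decide +kernel)
                     (CovZ.leaf K2_ok TI_l1413 _)
                     (CovZ.leaf K2_ok TI_l1414 _))
                    (CovZ.leaf K2_ok TI_l1415 _))
                   (CovZ.n1 (82530, 81666) (by decide +kernel)
                    (CovZ.n2 (82512, 81666) (by decide +kernel)
                     (CovZ.leaf K2_ok TI_l1416 _)
                     (CovZ.leaf K2_ok TI_l1417 _))
                    (CovZ.leaf K2_ok TI_l1418 _)))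
                  (CovZ.n1 (82548, 81720) (by decide +kernel)
                   (CovZ.leaf K2_ok TI_l1419 _)
                   (CovZ.n1 (82530, 81702) (by decide +kernel)
                    (CovZ.leaf K2_ok TI_l1420 _)
                    (CovZ.leaf K2_ok TI_l1421 _))))))
               (CovZ.n1 (82584, 81792) (by decide +kernel)
                (CovZ.leaf K2_ok TI_l1422 _)
                (CovZ.n1 (82548, 81756) (by decide +kernel)
                 (CovZ.leaf K2_ok TI_l1423 _)
                 (CovZ.n1 (82584, 81756) (by decide +kernel)
                  (CovZ.n2 (82566, 81738) (by decide +kernel)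
                   (CovZ.leaf K2_ok TI_l1424 _)
                   (CovZ.leaf K2_ok TI_l1425 _))
                  (CovZ.leaf K2_ok TI_l1426 _)))))
              (CovZ.n1 (82440, 81720) (by decide +kernel)
               (CovZ.n2 (82440, 81792) (by decide +kernel)
                (CovZ.n2 (82476, 81756) (by decide +kernel)
                 (CovZ.leaf K2_ok TI_l1427 _)
                 (CovZ.n1 (82476, 81792) (by decide +kernel)
                  (CovZ.leaf K2_ok TI_l1428 _)
                  (CovZ.leaf K2_ok TI_l1429 _)))
                (CovZ.n1 (82404, 81756) (by decide +kernel)
                 (CovZ.n2 (82404, 81792) (by decide +kernel)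
                  (CovZ.leaf K2_ok TI_l1430 _)
                  (CovZ.n1 (82386, 81774) (by decide +kernel)
                   (CovZ.leaf K2_ok TI_l1431 _)
                   (CovZ.leaf K2_ok TI_l1432 _)))
                 (CovZ.n1 (82440, 81756) (by decide +kernel)
                  (CovZ.n2 (82422, 81738) (by decide +kernel)
                   (CovZ.leaf K2_ok TI_l1433 _)
                   (CovZ.leaf K2_ok TI_l1434 _))
                  (CovZ.leaf K2_ok TI_l1435 _))))
               (CovZ.n1 (82512, 81720) (by decide +kernel)
                (CovZ.subM 216786871871117706630586364545568212716260937985299461443851 (by decide +kernel)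
                 (CovZ.n2 (82476, 81684) (by decide +kernel)
                  (CovZ.n2 (82476, 81720) (by decide +kernel)
                   (CovZ.leaf K2_ok TI_l1436 _)
                   (CovZ.n1 (82458, 81702) (by decide +kernel)
                    (CovZ.leaf K2_ok TI_l1437 _)
                    (CovZ.n1 (82476, 81702) (by decide +kernel)
                     (CovZ.n2 (82467, 81693) (by decide +kernel)
                      (CovZ.leaf K2_ok TI_l1438 _)
                      (CovZ.leaf K2_ok TI_l1439 _))
                     (CovZ.leaf K2_ok TI_l1440 _))))
                  (CovZ.n1 (82512, 81684) (by decide +kernel)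
                   (CovZ.subM 204226538351665430076272515641568649642292772833136499228928 (by decide +kernel)
                    (CovZ.n2 (82494, 81666) (by decide +kernel)
                     (CovZ.n2 (82494, 81684) (by decide +kernel)
                      (CovZ.leaf K2_ok TI_l1441 _)
                      (CovZ.leaf K2_ok TI_l1442 _))
                     (CovZ.n1 (82512, 81666) (by decide +kernel)
                      (CovZ.leaf K2_ok TI_l6725 _)
                      (CovZ.leaf K2_ok TI_l1443 _))))
                   (CovZ.n1 (82494, 81702) (by decide +kernel)
                    (CovZ.leaf K2_ok TI_l1444 _)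
                    (CovZ.n1 (82494, 81684) (by decide +kernel)
                     (CovZ.leaf K2_ok TI_l1445 _)
                     (CovZ.leaf K2_ok TI_l1446 _))))))
                (CovZ.n1 (82476, 81756) (by decide +kernel)
                 (CovZ.n2 (82512, 81756) (by decide +kernel)
                  (CovZ.n2 (82494, 81738) (by decide +kernel)
                   (CovZ.leaf K2_ok TI_l1447 _)
                   (CovZ.leaf K2_ok TI_l1448 _))
                  (CovZ.leaf K2_ok TI_l1449 _))
                 (CovZ.n1 (82476, 81720) (by decide +kernel)
                  (CovZ.n2 (82458, 81738) (by decide +kernel)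
                   (CovZ.leaf K2_ok TI_l1450 _)
                   (CovZ.n1 (82458, 81720) (by decide +kernel)
                    (CovZ.leaf K2_ok TI_l1451 _)
                    (CovZ.n1 (82467, 81729) (by decide +kernel)
                     (CovZ.leaf K2_ok TI_l1452 _)
                     (CovZ.leaf K2_ok TI_l1453 _))))
                  (CovZ.n1 (82494, 81738) (by decide +kernel)
                   (CovZ.n2 (82494, 81720) (by decide +kernel)
                    (CovZ.leaf K2_ok TI_l1454 _)
                    (CovZ.leaf K2_ok TI_l1455 _))
                   (CovZ.leaf K2_ok TI_l1456 _)))))))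
             (CovZ.n1 (82656, 81648) (by decide +kernel)
              (CovZ.subM 255988104583016811669440842444547385600289727745582572765443 (by decide +kernel)
               (CovZ.n2 (82584, 81576) (by decide +kernel)
                (CovZ.n2 (82584, 81648) (by decide +kernel)
                 (CovZ.n2 (82620, 81612) (by decide +kernel)
                  (CovZ.subM 251280278234708748701634658473480313894590753513544943141120 (by decide +kernel)
                   (CovZ.n2 (82584, 81612) (by decide +kernel)
                    (CovZ.n2 (82602, 81630) (by decide +kernel)
                     (CovZ.n2 (82602, 81612) (by decide +kernel)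
                      (CovZ.leaf K2_ok TI_l1457 _)
                      (CovZ.leaf K2_ok TI_l1458 _))
                     (CovZ.leaf K2_ok TI_l1459 _))
                    (CovZ.n1 (82602, 81594) (by decide +kernel)
                     (CovZ.badM (by decide +kernel))
                     (CovZ.leaf K2_ok TI_l1460 _))))
                  (CovZ.n1 (82620, 81648) (by decide +kernel)
                   (CovZ.leaf K2_ok TI_l1461 _)
                   (CovZ.n1 (82602, 81630) (by decide +kernel)
                    (CovZ.leaf K2_ok TI_l1462 _)
                    (CovZ.leaf K2_ok TI_l1463 _))))
                 (CovZ.subM 251280278234708748701634658473480313894590753513544943141120 (by decide +kernel)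
                  (CovZ.n1 (82548, 81612) (by decide +kernel)
                   (CovZ.n2 (82548, 81648) (by decide +kernel)
                    (CovZ.n2 (82566, 81630) (by decide +kernel)
                     (CovZ.n2 (82548, 81630) (by decide +kernel)
                      (CovZ.n2 (82557, 81639) (by decide +kernel)
                       (CovZ.badM (by decide +kernel))
                       (CovZ.leaf K2_ok TI_l6726 _))
                      (CovZ.badM (by decide +kernel)))
                     (CovZ.leaf K2_ok TI_l1464 _))
                    (CovZ.subM 196159429230833773869868419475239575503198607639501078528 (by decide +kernel)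
                     (CovZ.n1 (82530, 81630) (by decide +kernel)
                      (CovZ.n2 (82530, 81648) (by decide +kernel)
                       (CovZ.leaf K2_ok TI_l6727 _)
                       (CovZ.badM (by decide +kernel)))
                      (CovZ.n1 (82548, 81630) (by decide +kernel)
                       (CovZ.badM (by decide +kernel))
                       (CovZ.leaf K2_ok TI_l6728 _)))))
                   (CovZ.n1 (82584, 81612) (by decide +kernel)
                    (CovZ.badM (by decide +kernel))
                    (CovZ.n1 (82566, 81630) (by decide +kernel)
                     (CovZ.n2 (82584, 81630) (by decide +kernel)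
                      (CovZ.leaf K2_ok TI_l1465 _)
                      (CovZ.leaf K2_ok TI_l1466 _))
                     (CovZ.badM (by decide +kernel)))))))
                (CovZ.n1 (82656, 81576) (by decide +kernel)
                 (CovZ.badM (by decide +kernel))
                 (CovZ.n1 (82620, 81612) (by decide +kernel)
                  (CovZ.n2 (82656, 81612) (by decide +kernel)
                   (CovZ.n2 (82638, 81594) (by decide +kernel)
                    (CovZ.leaf K2_ok TI_l1467 _)
                    (CovZ.leaf K2_ok TI_l1468 _))
                   (CovZ.n1 (82638, 81630) (by decide +kernel)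
                    (CovZ.leaf K2_ok TI_l1469 _)
                    (CovZ.n1 (82638, 81612) (by decide +kernel)
                     (CovZ.leaf K2_ok TI_l1470 _)
                     (CovZ.leaf K2_ok TI_l1471 _))))
                  (CovZ.subM 196159429230922976851327155965698176312741104615665172480 (by decide +kernel)
                   (CovZ.n1 (82620, 81576) (by decide +kernel)
                    (CovZ.n2 (82602, 81594) (by decide +kernel)
                     (CovZ.n2 (82620, 81594) (by decide +kernel)
                      (CovZ.badM (by decide +kernel))
                      (CovZ.n1 (82611, 81603) (by decide +kernel)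
                       (CovZ.leaf K2_ok TI_l1472 _)
                       (CovZ.badM (by decide +kernel))))
                     (CovZ.badM (by decide +kernel)))
                    (CovZ.n1 (82638, 81594) (by decide +kernel)
                     (CovZ.n2 (82638, 81576) (by decide +kernel)
                      (CovZ.n2 (82629, 81585) (by decide +kernel)
                       (CovZ.n2 (82638, 81585) (by decide +kernel)
                        (CovZ.badM (by decide +kernel))
                        (CovZ.leaf K2_ok TI_l6729 _))
                       (CovZ.badM (by decide +kernel)))
                      (CovZ.leaf K2_ok TI_l6730 _))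
                     (CovZ.leaf K2_ok TI_l1473 _))))))))
              (CovZ.n1 (82584, 81720) (by decide +kernel)
               (CovZ.n2 (82656, 81720) (by decide +kernel)
                (CovZ.n2 (82620, 81684) (by decide +kernel)
                 (CovZ.n2 (82620, 81720) (by decide +kernel)
                  (CovZ.leaf K2_ok TI_l1474 _)
                  (CovZ.n1 (82602, 81702) (by decide +kernel)
                   (CovZ.leaf K2_ok TI_l1475 _)
                   (CovZ.leaf K2_ok TI_l1476 _)))
                 (CovZ.n1 (82656, 81684) (by decide +kernel)
                  (CovZ.n2 (82638, 81666) (by decide +kernel)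
                   (CovZ.leaf K2_ok TI_l1477 _)
                   (CovZ.leaf K2_ok TI_l1478 _))
                  (CovZ.leaf K2_ok TI_l1479 _)))
                (CovZ.n1 (82620, 81756) (by decide +kernel)
                 (CovZ.leaf K2_ok TI_l1480 _)
                 (CovZ.n1 (82620, 81720) (by decide +kernel)
                  (CovZ.leaf K2_ok TI_l1481 _)
                  (CovZ.leaf K2_ok TI_l1482 _))))
               (CovZ.subM 256012627716835100410262938033029631382259094504291759559043 (by decide +kernel)
                (CovZ.n1 (82584, 81648) (by decide +kernel)
                 (CovZ.n2 (82548, 81684) (by decide +kernel)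
                  (CovZ.n2 (82584, 81684) (by decide +kernel)
                   (CovZ.n2 (82566, 81666) (by decide +kernel)
                    (CovZ.leaf K2_ok TI_l1483 _)
                    (CovZ.n1 (82584, 81666) (by decide +kernel)
                     (CovZ.leaf K2_ok TI_l1484 _)
                     (CovZ.leaf K2_ok TI_l1485 _)))
                   (CovZ.leaf K2_ok TI_l1486 _))
                  (CovZ.n1 (82548, 81648) (by decide +kernel)
                   (CovZ.n2 (82530, 81666) (by decide +kernel)
                    (CovZ.leaf K2_ok TI_l1487 _)
                    (CovZ.n1 (82530, 81648) (by decide +kernel)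
                     (CovZ.leaf K2_ok TI_l1488 _)
                     (CovZ.leaf K2_ok TI_l1489 _)))
                   (CovZ.n1 (82566, 81666) (by decide +kernel)
                    (CovZ.n2 (82566, 81648) (by decide +kernel)
                     (CovZ.leaf K2_ok TI_l1490 _)
                     (CovZ.leaf K2_ok TI_l1491 _))
                    (CovZ.leaf K2_ok TI_l1492 _))))
                 (CovZ.n1 (82620, 81684) (by decide +kernel)
                  (CovZ.n2 (82620, 81648) (by decide +kernel)
                   (CovZ.n2 (82602, 81666) (by decide +kernel)
                    (CovZ.leaf K2_ok TI_l1493 _)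
                    (CovZ.leaf K2_ok TI_l1494 _))
                   (CovZ.n1 (82638, 81666) (by decide +kernel)
                    (CovZ.leaf K2_ok TI_l1495 _)
                    (CovZ.leaf K2_ok TI_l1496 _)))
                  (CovZ.n1 (82584, 81684) (by decide +kernel)
                   (CovZ.n2 (82602, 81702) (by decide +kernel)
                    (CovZ.leaf K2_ok TI_l1497 _)
                    (CovZ.leaf K2_ok TI_l1498 _))
                   (CovZ.leaf K2_ok TI_l1499 _))))))))

theorem TI_u26 : CovZ TI_M (toL (selN TI_LN 3213863828553652858965687916672635150038679888378151278089615)) [0, 7, 6, 1] (82944, 81792) (82368, 81792) (82368, 81216) :=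
    (CovZ.subM 1901112911870620742432042804572037264301580133142128457029003 (by decide +kernel)
          (CovZ.n2 (82656, 81504) (by decide +kernel)
           (CovZ.n2 (82368, 81504) (by decide +kernel)
            (CovZ.n2 (82512, 81648) (by decide +kernel)
             (CovZ.subM 1964659283390069516415400888806696373399223554639377989632 (by decide +kernel)
              (CovZ.n2 (82512, 81504) (by decide +kernel)
               (CovZ.n2 (82440, 81576) (by decide +kernel)
                (CovZ.badM (by decide +kernel))
                (CovZ.badM (by decide +kernel)))
               (CovZ.n1 (82584, 81576) (by decide +kernel)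
                (CovZ.badM (by decide +kernel))
                (CovZ.badM (by decide +kernel)))))
             (CovZ.n1 (82368, 81648) (by decide +kernel)
              (CovZ.n2 (82440, 81720) (by decide +kernel)
               (CovZ.subM 242388778247922197840065805188098706333797877366425026297856 (by decide +kernel)
                (CovZ.n2 (82440, 81648) (by decide +kernel)
                 (CovZ.n2 (82404, 81684) (by decide +kernel)
                  (CovZ.n2 (82440, 81684) (by decide +kernel)
                   (CovZ.subM 3163070797169289274650427309027283987876099722625951989760 (by decide +kernel)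
                    (CovZ.n2 (82422, 81666) (by decide +kernel)
                     (CovZ.n2 (82422, 81684) (by decide +kernel)
                      (CovZ.leaf K2_ok TI_l1310 _)
                      (CovZ.n1 (82413, 81675) (by decide +kernel)
                       (CovZ.leaf K2_ok TI_l1311 _)
                       (CovZ.leaf K2_ok TI_l1312 _)))
                     (CovZ.n1 (82440, 81666) (by decide +kernel)
                      (CovZ.badM (by decide +kernel))
                      (CovZ.leaf K2_ok TI_l1313 _))))
                   (CovZ.n1 (82422, 81702) (by decide +kernel)
                    (CovZ.n2 (82440, 81702) (by decide +kernel)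
                     (CovZ.n2 (82431, 81693) (by decide +kernel)
                      (CovZ.leaf K2_ok TI_l1314 _)
                      (CovZ.leaf K2_ok TI_l1315 _))
                     (CovZ.leaf K2_ok TI_l1316 _))
                    (CovZ.n1 (82422, 81684) (by decide +kernel)
                     (CovZ.leaf K2_ok TI_l1317 _)
                     (CovZ.n1 (82431, 81693) (by decide +kernel)
                      (CovZ.leaf K2_ok TI_l1318 _)
                      (CovZ.leaf K2_ok TI_l1319 _)))))
                  (CovZ.subM 730750818665451459101842416358141509827966271488 (by decide +kernel)
                   (CovZ.n1 (82404, 81648) (by decide +kernel)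
                    (CovZ.n2 (82386, 81666) (by decide +kernel)
                     (CovZ.n2 (82404, 81666) (by decide +kernel)
                      (CovZ.badM (by decide +kernel))
                      (CovZ.leaf K2_ok TI_l6719 _))
                     (CovZ.badM (by decide +kernel)))
                    (CovZ.n1 (82422, 81666) (by decide +kernel)
                     (CovZ.badM (by decide +kernel))
                     (CovZ.n1 (82404, 81666) (by decide +kernel)
                      (CovZ.n2 (82413, 81675) (by decide +kernel)
                       (CovZ.badM (by decide +kernel))
                       (CovZ.leaf K2_ok TI_l6720 _))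
                      (CovZ.badM (by decide +kernel)))))))
                 (CovZ.n1 (82476, 81684) (by decide +kernel)
                  (CovZ.subM 3169203812690819091914515109279255320258982347718350864384 (by decide +kernel)
                   (CovZ.n2 (82476, 81648) (by decide +kernel)
                    (CovZ.n2 (82458, 81666) (by decide +kernel)
                     (CovZ.n2 (82476, 81666) (by decide +kernel)
                      (CovZ.badM (by decide +kernel))
                      (CovZ.leaf K2_ok TI_l1320 _))
                     (CovZ.badM (by decide +kernel)))
                    (CovZ.n1 (82494, 81666) (by decide +kernel)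
                     (CovZ.badM (by decide +kernel))
                     (CovZ.n1 (82476, 81666) (by decide +kernel)
                      (CovZ.leaf K2_ok TI_l1321 _)
                      (CovZ.badM (by decide +kernel))))))
                  (CovZ.n1 (82440, 81684) (by decide +kernel)
                   (CovZ.n2 (82458, 81702) (by decide +kernel)
                    (CovZ.n2 (82458, 81684) (by decide +kernel)
                     (CovZ.leaf K2_ok TI_l1322 _)
                     (CovZ.leaf K2_ok TI_l1323 _))
                    (CovZ.leaf K2_ok TI_l1324 _))
                   (CovZ.subM 3169203812690819091914515109279255320258982347718350864384 (by decide +kernel)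
                    (CovZ.n1 (82458, 81666) (by decide +kernel)
                     (CovZ.leaf K2_ok TI_l1325 _)
                     (CovZ.n1 (82458, 81684) (by decide +kernel)
                      (CovZ.leaf K2_ok TI_l1326 _)
                      (CovZ.n1 (82449, 81675) (by decide +kernel)
                       (CovZ.leaf K2_ok TI_l1327 _)
                       (CovZ.leaf K2_ok TI_l1328 _)))))))))
               (CovZ.n1 (82368, 81720) (by decide +kernel)
                (CovZ.n2 (82404, 81756) (by decide +kernel)
                 (CovZ.subM 242388778247922287043047263925222990234721552578548051476747 (by decide +kernel)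
                  (CovZ.n2 (82404, 81720) (by decide +kernel)
                   (CovZ.n2 (82386, 81738) (by decide +kernel)
                    (CovZ.leaf K2_ok TI_l1329 _)
                    (CovZ.n1 (82386, 81720) (by decide +kernel)
                     (CovZ.leaf K2_ok TI_l1330 _)
                     (CovZ.leaf K2_ok TI_l1331 _)))
                   (CovZ.n1 (82422, 81738) (by decide +kernel)
                    (CovZ.leaf K2_ok TI_l1332 _)
                    (CovZ.leaf K2_ok TI_l1333 _))))
                 (CovZ.n1 (82368, 81756) (by decide +kernel)
                  (CovZ.n2 (82386, 81774) (by decide +kernel)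
                   (CovZ.leaf K2_ok TI_l1334 _)
                   (CovZ.leaf K2_ok TI_l1335 _))
                  (CovZ.n1 (82386, 81738) (by decide +kernel)
                   (CovZ.leaf K2_ok TI_l1336 _)
                   (CovZ.leaf K2_ok TI_l1337 _))))
                (CovZ.subM 242388778247922197840065805188098706333797877366425026297856 (by decide +kernel)
                 (CovZ.n1 (82404, 81684) (by decide +kernel)
                  (CovZ.subM 12578723401619468205401832929734004990841640225976575066112 (by decide +kernel)
                   (CovZ.n2 (82368, 81684) (by decide +kernel)
                    (CovZ.n2 (82386, 81702) (by decide +kernel)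
                     (CovZ.n2 (82386, 81684) (by decide +kernel)
                      (CovZ.n2 (82377, 81693) (by decide +kernel)
                       (CovZ.n2 (82386, 81693) (by decide +kernel)
                        (CovZ.leaf K2_ok TI_l1338 _)
                        (CovZ.leaf K2_ok TI_l1339 _))
                       (CovZ.leaf K2_ok TI_l1340 _))
                      (CovZ.n1 (82395, 81693) (by decide +kernel)
                       (CovZ.leaf K2_ok TI_l1341 _)
                       (CovZ.n1 (82386, 81693) (by decide +kernel)
                        (CovZ.leaf K2_ok TI_l1342 _)
                        (CovZ.leaf K2_ok TI_l1343 _))))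
                     (CovZ.n1 (82368, 81702) (by decide +kernel)
                      (CovZ.leaf K2_ok TI_l1344 _)
                      (CovZ.leaf K2_ok TI_l1345 _)))
                    (CovZ.n1 (82386, 81666) (by decide +kernel)
                     (CovZ.badM (by decide +kernel))
                     (CovZ.leaf K2_ok TI_l6721 _))))
                  (CovZ.n1 (82404, 81720) (by decide +kernel)
                   (CovZ.leaf K2_ok TI_l1346 _)
                   (CovZ.subM 41325277972579611886192719870346585907918069704879765454848 (by decide +kernel)
                    (CovZ.n1 (82386, 81702) (by decide +kernel)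
                     (CovZ.leaf K2_ok TI_l1347 _)
                     (CovZ.n1 (82404, 81702) (by decide +kernel)
                      (CovZ.n2 (82395, 81693) (by decide +kernel)
                       (CovZ.leaf K2_ok TI_l1348 _)
                       (CovZ.leaf K2_ok TI_l1349 _))
                      (CovZ.n1 (82395, 81711) (by decide +kernel)
                       (CovZ.leaf K2_ok TI_l1350 _)
                       (CovZ.leaf K2_ok TI_l1351 _))))))))))
              (CovZ.n1 (82440, 81576) (by decide +kernel)
               (CovZ.badM (by decide +kernel))
               (CovZ.n1 (82440, 81648) (by decide +kernel)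
                (CovZ.badM (by decide +kernel))
                (CovZ.badM (by decide +kernel))))))
            (CovZ.badM (by decide +kernel)))
           (CovZ.n1 (82656, 81792) (by decide +kernel)
            TI_u24
            TI_u25)))

theorem TI_u27 : CovZ TI_M (toL (selN TI_LN 3213863828553652858965687916672635150038679888378151278089615)) [0, 7, 6, 1] (82368, 81792) (81792, 81792) (82368, 81216) :=
    (CovZ.subM 242438201276477010544281845532584163705361599389010453598475 (by decide +kernel)
          (CovZ.n1 (82080, 81504) (by decide +kernel)
           (CovZ.n2 (82080, 81792) (by decide +kernel)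
            (CovZ.n2 (82224, 81648) (by decide +kernel)
             (CovZ.badM (by decide +kernel))
             (CovZ.n1 (82224, 81792) (by decide +kernel)
              (CovZ.n2 (82296, 81720) (by decide +kernel)
               (CovZ.badM (by decide +kernel))
               (CovZ.n1 (82296, 81792) (by decide +kernel)
                (CovZ.n2 (82332, 81756) (by decide +kernel)
                 (CovZ.subM 242388778224536744395078486382072531337716128844208796598280 (by decide +kernel)
                  (CovZ.n2 (82296, 81756) (by decide +kernel)
                   (CovZ.n2 (82314, 81774) (by decide +kernel)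
                    (CovZ.leaf K2_ok TI_l1500 _)
                    (CovZ.leaf K2_ok TI_l1501 _))
                   (CovZ.subM 41325274956037377939823518624600234646909519675005142564864 (by decide +kernel)
                    (CovZ.n1 (82314, 81738) (by decide +kernel)
                     (CovZ.n2 (82296, 81738) (by decide +kernel)
                      (CovZ.n2 (82305, 81747) (by decide +kernel)
                       (CovZ.leaf K2_ok TI_l1502 _)
                       (CovZ.leaf K2_ok TI_l1503 _))
                      (CovZ.leaf K2_ok TI_l1504 _))
                     (CovZ.leaf K2_ok TI_l1505 _)))))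
                 (CovZ.n1 (82332, 81792) (by decide +kernel)
                  (CovZ.n2 (82350, 81774) (by decide +kernel)
                   (CovZ.leaf K2_ok TI_l1506 _)
                   (CovZ.leaf K2_ok TI_l1507 _))
                  (CovZ.n1 (82314, 81774) (by decide +kernel)
                   (CovZ.n2 (82314, 81792) (by decide +kernel)
                    (CovZ.leaf K2_ok TI_l1508 _)
                    (CovZ.leaf K2_ok TI_l1509 _))
                   (CovZ.n1 (82332, 81774) (by decide +kernel)
                    (CovZ.leaf K2_ok TI_l1510 _)
                    (CovZ.leaf K2_ok TI_l1511 _)))))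
                (CovZ.subM 242388778224536744395078486382072531337716128844208796598280 (by decide +kernel)
                 (CovZ.n1 (82260, 81756) (by decide +kernel)
                  (CovZ.n2 (82260, 81792) (by decide +kernel)
                   (CovZ.leaf K2_ok TI_l1512 _)
                   (CovZ.n1 (82242, 81774) (by decide +kernel)
                    (CovZ.leaf K2_ok TI_l1513 _)
                    (CovZ.n1 (82260, 81774) (by decide +kernel)
                     (CovZ.badM (by decide +kernel))
                     (CovZ.leaf K2_ok TI_l1514 _))))
                  (CovZ.n1 (82296, 81756) (by decide +kernel)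
                   (CovZ.subM 12554203470773361527671578851485935233117628494914881847296 (by decide +kernel)
                    (CovZ.n2 (82278, 81738) (by decide +kernel)
                     (CovZ.n2 (82278, 81756) (by decide +kernel)
                      (CovZ.n2 (82287, 81747) (by decide +kernel)
                       (CovZ.badM (by decide +kernel))
                       (CovZ.leaf K2_ok TI_l1515 _))
                      (CovZ.badM (by decide +kernel)))
                     (CovZ.n1 (82296, 81738) (by decide +kernel)
                      (CovZ.badM (by decide +kernel))
                      (CovZ.leaf K2_ok TI_l1516 _))))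
                   (CovZ.n1 (82278, 81774) (by decide +kernel)
                    (CovZ.leaf K2_ok TI_l1517 _)
                    (CovZ.n1 (82278, 81756) (by decide +kernel)
                     (CovZ.leaf K2_ok TI_l1518 _)
                     (CovZ.n1 (82287, 81765) (by decide +kernel)
                      (CovZ.leaf K2_ok TI_l1519 _)
                      (CovZ.leaf K2_ok TI_l1520 _)))))))))
              (CovZ.badM (by decide +kernel))))
            (CovZ.badM (by decide +kernel)))
           (CovZ.n1 (82368, 81504) (by decide +kernel)
            (CovZ.badM (by decide +kernel))
            (CovZ.n1 (82224, 81648) (by decide +kernel)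
             (CovZ.n2 (82368, 81648) (by decide +kernel)
              (CovZ.badM (by decide +kernel))
              (CovZ.n1 (82296, 81720) (by decide +kernel)
               (CovZ.n2 (82368, 81720) (by decide +kernel)
                (CovZ.subM 12578723401619468205401832929734004990841640225976575066112 (by decide +kernel)
                 (CovZ.n2 (82332, 81684) (by decide +kernel)
                  (CovZ.n2 (82332, 81720) (by decide +kernel)
                   (CovZ.n2 (82350, 81702) (by decide +kernel)
                    (CovZ.n2 (82332, 81702) (by decide +kernel)
                     (CovZ.leaf K2_ok TI_l6731 _)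
                     (CovZ.leaf K2_ok TI_l6732 _))
                    (CovZ.leaf K2_ok TI_l1521 _))
                   (CovZ.subM 12554203472234863165002481764619017664920993908584001568768 (by decide +kernel)
                    (CovZ.n1 (82314, 81702) (by decide +kernel)
                     (CovZ.n2 (82314, 81720) (by decide +kernel)
                      (CovZ.leaf K2_ok TI_l6733 _)
                      (CovZ.badM (by decide +kernel)))
                     (CovZ.n1 (82332, 81702) (by decide +kernel)
                      (CovZ.badM (by decide +kernel))
                      (CovZ.leaf K2_ok TI_l6734 _)))))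
                  (CovZ.n1 (82368, 81684) (by decide +kernel)
                   (CovZ.badM (by decide +kernel))
                   (CovZ.n1 (82350, 81702) (by decide +kernel)
                    (CovZ.n2 (82368, 81702) (by decide +kernel)
                     (CovZ.n2 (82359, 81693) (by decide +kernel)
                      (CovZ.leaf K2_ok TI_l1522 _)
                      (CovZ.leaf K2_ok TI_l1523 _))
                     (CovZ.n1 (82359, 81711) (by decide +kernel)
                      (CovZ.leaf K2_ok TI_l1524 _)
                      (CovZ.leaf K2_ok TI_l1525 _)))
                    (CovZ.subM 12554203472234863165002647918118490779405106884466536611840 (by decide +kernel)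
                     (CovZ.n1 (82350, 81684) (by decide +kernel)
                      (CovZ.n2 (82341, 81693) (by decide +kernel)
                       (CovZ.n2 (82350, 81693) (by decide +kernel)
                        (CovZ.badM (by decide +kernel))
                        (CovZ.leaf K2_ok TI_l6735 _))
                       (CovZ.badM (by decide +kernel)))
                      (CovZ.leaf K2_ok TI_l1526 _)))))))
                (CovZ.n1 (82332, 81756) (by decide +kernel)
                 (CovZ.n2 (82368, 81756) (by decide +kernel)
                  (CovZ.n2 (82350, 81738) (by decide +kernel)
                   (CovZ.leaf K2_ok TI_l1527 _)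
                   (CovZ.leaf K2_ok TI_l1528 _))
                  (CovZ.n1 (82350, 81774) (by decide +kernel)
                   (CovZ.n2 (82368, 81774) (by decide +kernel)
                    (CovZ.leaf K2_ok TI_l1529 _)
                    (CovZ.leaf K2_ok TI_l1530 _))
                   (CovZ.n1 (82350, 81756) (by decide +kernel)
                    (CovZ.leaf K2_ok TI_l1531 _)
                    (CovZ.leaf K2_ok TI_l1532 _))))
                 (CovZ.subM 41325274956037377939823684778178974609571018144762231259136 (by decide +kernel)
                  (CovZ.n1 (82332, 81720) (by decide +kernel)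
                   (CovZ.n2 (82314, 81738) (by decide +kernel)
                    (CovZ.n2 (82332, 81738) (by decide +kernel)
                     (CovZ.leaf K2_ok TI_l1533 _)
                     (CovZ.leaf K2_ok TI_l1534 _))
                    (CovZ.n1 (82314, 81720) (by decide +kernel)
                     (CovZ.leaf K2_ok TI_l1535 _)
                     (CovZ.leaf K2_ok TI_l1536 _)))
                   (CovZ.n1 (82350, 81738) (by decide +kernel)
                    (CovZ.n2 (82350, 81720) (by decide +kernel)
                     (CovZ.leaf K2_ok TI_l1537 _)
                     (CovZ.leaf K2_ok TI_l1538 _))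
                    (CovZ.n1 (82332, 81738) (by decide +kernel)
                     (CovZ.n2 (82341, 81747) (by decide +kernel)
                      (CovZ.leaf K2_ok TI_l1539 _)
                      (CovZ.leaf K2_ok TI_l1540 _))
                     (CovZ.leaf K2_ok TI_l1541 _)))))))
               (CovZ.n1 (82296, 81648) (by decide +kernel)
                (CovZ.badM (by decide +kernel))
                (CovZ.n1 (82332, 81684) (by decide +kernel)
                 (CovZ.badM (by decide +kernel))
                 (CovZ.badM (by decide +kernel))))))
             (CovZ.badM (by decide +kernel))))))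

end Pool.Agent.TET
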