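import Pool.Agent.Helper38_TET.TI_M
import Pool.Agent.Helper38_TET.TI_L
import Pool.Agent.Helper38_TET.TI_10
import Pool.Agent.Helper38_TET.TI_11
import Pool.Agent.Helper38_TET.TI_12
import Pool.Agent.Helper38_TET.TI_13
import Pool.Agent.Helper38_TET.TI_14
import Pool.Agent.Helper38_TET.TI_15
import Pool.Agent.Helper38_TET.TI_16
import Pool.Agent.Helper38_TET.TI_18
import Pool.Agent.Helper38_TET.TI_19
import Pool.Agent.Helper38_TET.TI_45
import Pool.Agent.Helper38_TET.TI_46

/-!
# MP_c7c9bf_co: certificates, family TI
-/

set_option autoImplicit false
set_option maxRecDepth 100000

namespace Pool.Agent.TET

theorem TI_u28 : CovZ TI_M (toL (selN TI_LN 1901112911869889991613377353112935421885221991632300490757515)) [0, 7, 6, 1] (82944, 81504) (82944, 81792) (82656, 81504) :=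
    (CovZ.n1 (82800, 81648) (by decide +kernel)
             (CovZ.subM 252653344896173386194763452203258620509939225155418116460929 (by decide +kernel)
              (CovZ.n2 (82944, 81648) (by decide +kernel)
               (CovZ.n2 (82872, 81576) (by decide +kernel)
                (CovZ.n2 (82872, 81648) (by decide +kernel)
                 (CovZ.n2 (82908, 81612) (by decide +kernel)
                  (CovZ.leaf K2_ok TI_l1546 _)
                  (CovZ.leaf K2_ok TI_l1547 _))
                 (CovZ.n1 (82836, 81612) (by decide +kernel)
                  (CovZ.leaf K2_ok TI_l1548 _)
                  (CovZ.n1 (82872, 81612) (by decide +kernel)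
                   (CovZ.leaf K2_ok TI_l1549 _)
                   (CovZ.leaf K2_ok TI_l1550 _))))
                (CovZ.n1 (82944, 81576) (by decide +kernel)
                 (CovZ.n2 (82908, 81540) (by decide +kernel)
                  (CovZ.n2 (82908, 81576) (by decide +kernel)
                   (CovZ.leaf K2_ok TI_l1551 _)
                   (CovZ.n1 (82890, 81558) (by decide +kernel)
                    (CovZ.leaf K2_ok TI_l1552 _)
                    (CovZ.leaf K2_ok TI_l1553 _)))
                  (CovZ.n1 (82944, 81540) (by decide +kernel)
                   (CovZ.n2 (82926, 81522) (by decide +kernel)
                    (CovZ.leaf K2_ok TI_l1554 _)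
                    (CovZ.leaf K2_ok TI_l1555 _))
                   (CovZ.leaf K2_ok TI_l1556 _)))
                 (CovZ.n1 (82908, 81612) (by decide +kernel)
                  (CovZ.n2 (82944, 81612) (by decide +kernel)
                   (CovZ.leaf K2_ok TI_l1557 _)
                   (CovZ.leaf K2_ok TI_l1558 _))
                  (CovZ.n1 (82908, 81576) (by decide +kernel)
                   (CovZ.leaf K2_ok TI_l1559 _)
                   (CovZ.leaf K2_ok TI_l1560 _)))))
               (CovZ.n1 (82872, 81720) (by decide +kernel)
                (CovZ.n2 (82944, 81720) (by decide +kernel)
                 (CovZ.n2 (82908, 81684) (by decide +kernel)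
                  (CovZ.leaf K2_ok TI_l1561 _)
                  (CovZ.leaf K2_ok TI_l1562 _))
                 (CovZ.n1 (82908, 81756) (by decide +kernel)
                  (CovZ.leaf K2_ok TI_l1563 _)
                  (CovZ.leaf K2_ok TI_l1564 _)))
                (CovZ.n1 (82872, 81648) (by decide +kernel)
                 (CovZ.n2 (82836, 81684) (by decide +kernel)
                  (CovZ.leaf K2_ok TI_l1565 _)
                  (CovZ.n1 (82836, 81648) (by decide +kernel)
                   (CovZ.leaf K2_ok TI_l1566 _)
                   (CovZ.leaf K2_ok TI_l1567 _)))
                 (CovZ.n1 (82908, 81684) (by decide +kernel)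
                  (CovZ.n2 (82908, 81648) (by decide +kernel)
                   (CovZ.leaf K2_ok TI_l1568 _)
                   (CovZ.leaf K2_ok TI_l1569 _))
                  (CovZ.leaf K2_ok TI_l1570 _))))))
             (CovZ.subM 256012624511670576688280192408715107431135068021684806226305 (by decide +kernel)
              (CovZ.n1 (82800, 81504) (by decide +kernel)
               (CovZ.n2 (82728, 81576) (by decide +kernel)
                (CovZ.n2 (82800, 81576) (by decide +kernel)
                 (CovZ.subM 252653346395606896251645295339052408254594041301171083149569 (by decide +kernel)
                  (CovZ.n2 (82764, 81540) (by decide +kernel)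
                   (CovZ.n2 (82764, 81576) (by decide +kernel)
                    (CovZ.n2 (82782, 81558) (by decide +kernel)
                     (CovZ.n2 (82764, 81558) (by decide +kernel)
                      (CovZ.n2 (82773, 81567) (by decide +kernel)
                       (CovZ.leaf K2_ok TI_l1571 _)
                       (CovZ.leaf K2_ok TI_l1572 _))
                      (CovZ.leaf K2_ok TI_l1573 _))
                     (CovZ.leaf K2_ok TI_l1574 _))
                    (CovZ.n1 (82746, 81558) (by decide +kernel)
                     (CovZ.n2 (82746, 81576) (by decide +kernel)
                      (CovZ.n2 (82755, 81567) (by decide +kernel)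
                       (CovZ.n2 (82746, 81567) (by decide +kernel)
                        (CovZ.leaf K2_ok TI_l1575 _)
                        (CovZ.leaf K2_ok TI_l1576 _))
                       (CovZ.leaf K2_ok TI_l1577 _))
                      (CovZ.n1 (82737, 81567) (by decide +kernel)
                       (CovZ.n2 (82737, 81576) (by decide +kernel)
                        (CovZ.leaf K2_ok TI_l1578 _)
                        (CovZ.leaf K2_ok TI_l1579 _))
                       (CovZ.leaf K2_ok TI_l1580 _)))
                     (CovZ.n1 (82764, 81558) (by decide +kernel)
                      (CovZ.leaf K2_ok TI_l1581 _)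
                      (CovZ.n1 (82755, 81567) (by decide +kernel)
                       (CovZ.leaf K2_ok TI_l1582 _)
                       (CovZ.leaf K2_ok TI_l1583 _)))))
                   (CovZ.n1 (82800, 81540) (by decide +kernel)
                    (CovZ.subM 200867255579141836837674437292757617807178914513980688957696 (by decide +kernel)
                     (CovZ.n2 (82782, 81522) (by decide +kernel)
                      (CovZ.n2 (82782, 81540) (by decide +kernel)
                       (CovZ.leaf K2_ok TI_l1584 _)
                       (CovZ.n1 (82773, 81531) (by decide +kernel)
                        (CovZ.leaf K2_ok TI_l1585 _)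
                        (CovZ.leaf K2_ok TI_l1586 _)))
                      (CovZ.n1 (82800, 81522) (by decide +kernel)
                       (CovZ.badM (by decide +kernel))
                       (CovZ.n1 (82791, 81531) (by decide +kernel)
                        (CovZ.leaf K2_ok TI_l1587 _)
                        (CovZ.leaf K2_ok TI_l1588 _)))))
                    (CovZ.n1 (82782, 81558) (by decide +kernel)
                     (CovZ.n2 (82800, 81558) (by decide +kernel)
                      (CovZ.leaf K2_ok TI_l1589 _)
                      (CovZ.leaf K2_ok TI_l1590 _))
                     (CovZ.n1 (82782, 81540) (by decide +kernel)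
                      (CovZ.leaf K2_ok TI_l1591 _)
                      (CovZ.leaf K2_ok TI_l1592 _))))))
                 (CovZ.n1 (82764, 81612) (by decide +kernel)
                  (CovZ.n2 (82800, 81612) (by decide +kernel)
                   (CovZ.n2 (82782, 81594) (by decide +kernel)
                    (CovZ.leaf K2_ok TI_l1593 _)
                    (CovZ.n1 (82800, 81594) (by decide +kernel)
                     (CovZ.leaf K2_ok TI_l1594 _)
                     (CovZ.leaf K2_ok TI_l1595 _)))
                   (CovZ.leaf K2_ok TI_l1596 _))
                  (CovZ.n1 (82764, 81576) (by decide +kernel)
                   (CovZ.n2 (82746, 81594) (by decide +kernel)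
                    (CovZ.n2 (82764, 81594) (by decide +kernel)
                     (CovZ.leaf K2_ok TI_l1597 _)
                     (CovZ.leaf K2_ok TI_l1598 _))
                    (CovZ.n1 (82746, 81576) (by decide +kernel)
                     (CovZ.leaf K2_ok TI_l1599 _)
                     (CovZ.leaf K2_ok TI_l1600 _)))
                   (CovZ.n1 (82782, 81594) (by decide +kernel)
                    (CovZ.leaf K2_ok TI_l1601 _)
                    (CovZ.n1 (82764, 81594) (by decide +kernel)
                     (CovZ.leaf K2_ok TI_l1602 _)
                     (CovZ.leaf K2_ok TI_l1603 _))))))
                (CovZ.subM 200867257078666779949957497301714139502946830734980240376064 (by decide +kernel)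
                 (CovZ.n1 (82728, 81504) (by decide +kernel)
                  (CovZ.n2 (82692, 81540) (by decide +kernel)
                   (CovZ.n2 (82728, 81540) (by decide +kernel)
                    (CovZ.badM (by decide +kernel))
                    (CovZ.n1 (82710, 81558) (by decide +kernel)
                     (CovZ.n2 (82728, 81558) (by decide +kernel)
                      (CovZ.badM (by decide +kernel))
                      (CovZ.leaf K2_ok TI_l1604 _))
                     (CovZ.badM (by decide +kernel))))
                   (CovZ.badM (by decide +kernel)))
                  (CovZ.n1 (82764, 81540) (by decide +kernel)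
                   (CovZ.subM 147573952589676412928 (by decide +kernel)
                    (CovZ.n2 (82764, 81504) (by decide +kernel)
                     (CovZ.n2 (82746, 81522) (by decide +kernel)
                      (CovZ.n2 (82764, 81522) (by decide +kernel)
                       (CovZ.badM (by decide +kernel))
                       (CovZ.leaf K2_ok TI_l1605 _))
                      (CovZ.badM (by decide +kernel)))
                     (CovZ.n1 (82782, 81522) (by decide +kernel)
                      (CovZ.badM (by decide +kernel))
                      (CovZ.n1 (82764, 81522) (by decide +kernel)
                       (CovZ.n2 (82773, 81531) (by decide +kernel)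
                        (CovZ.badM (by decide +kernel))
                        (CovZ.leaf K2_ok TI_l1606 _))
                       (CovZ.badM (by decide +kernel))))))
                   (CovZ.n1 (82728, 81540) (by decide +kernel)
                    (CovZ.n2 (82746, 81558) (by decide +kernel)
                     (CovZ.n2 (82746, 81540) (by decide +kernel)
                      (CovZ.leaf K2_ok TI_l1607 _)
                      (CovZ.leaf K2_ok TI_l1608 _))
                     (CovZ.n1 (82728, 81558) (by decide +kernel)
                      (CovZ.n2 (82737, 81567) (by decide +kernel)
                       (CovZ.leaf K2_ok TI_l1609 _)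
                       (CovZ.leaf K2_ok TI_l1610 _))
                      (CovZ.leaf K2_ok TI_l1611 _)))
                    (CovZ.n1 (82746, 81522) (by decide +kernel)
                     (CovZ.badM (by decide +kernel))
                     (CovZ.n1 (82746, 81540) (by decide +kernel)
                      (CovZ.leaf K2_ok TI_l1612 _)
                      (CovZ.badM (by decide +kernel)))))))))
               (CovZ.n1 (82872, 81576) (by decide +kernel)
                (CovZ.subM 252653344896081953139364239881518786312840507436476416397569 (by decide +kernel)
                 (CovZ.n2 (82872, 81504) (by decide +kernel)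
                  (CovZ.n2 (82836, 81540) (by decide +kernel)
                   (CovZ.n2 (82872, 81540) (by decide +kernel)
                    (CovZ.n2 (82854, 81522) (by decide +kernel)
                     (CovZ.leaf K2_ok TI_l1613 _)
                     (CovZ.leaf K2_ok TI_l1614 _))
                    (CovZ.n1 (82854, 81558) (by decide +kernel)
                     (CovZ.leaf K2_ok TI_l1615 _)
                     (CovZ.leaf K2_ok TI_l1616 _)))
                   (CovZ.subM 200867255579141836837674437292767521327493197556179881951489 (by decide +kernel)
                    (CovZ.n1 (82836, 81504) (by decide +kernel)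
                     (CovZ.n2 (82818, 81522) (by decide +kernel)
                      (CovZ.n2 (82836, 81522) (by decide +kernel)
                       (CovZ.leaf K2_ok TI_l1617 _)
                       (CovZ.leaf K2_ok TI_l1618 _))
                      (CovZ.leaf K2_ok TI_l1619 _))
                     (CovZ.n1 (82854, 81522) (by decide +kernel)
                      (CovZ.subM 200867255532373784443085543910239703160109995699825996202240 (by decide +kernel)
                       (CovZ.n2 (82854, 81504) (by decide +kernel)
                        (CovZ.n2 (82845, 81513) (by decide +kernel)
                         (CovZ.leaf K2_ok TI_l1620 _)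
                         (CovZ.leaf K2_ok TI_l1621 _))
                        (CovZ.n1 (82863, 81513) (by decide +kernel)
                         (CovZ.leaf K2_ok TI_l1622 _)
                         (CovZ.leaf K2_ok TI_l1623 _))))
                      (CovZ.leaf K2_ok TI_l1624 _)))))
                  (CovZ.n1 (82908, 81540) (by decide +kernel)
                   (CovZ.subM 252653344896081953139320375032822378787966232423479361143041 (by decide +kernel)
                    (CovZ.n2 (82908, 81504) (by decide +kernel)
                     (CovZ.n2 (82890, 81522) (by decide +kernel)
                      (CovZ.leaf K2_ok TI_l1625 _)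
                      (CovZ.leaf K2_ok TI_l1626 _))
                     (CovZ.n1 (82926, 81522) (by decide +kernel)
                      (CovZ.n2 (82926, 81504) (by decide +kernel)
                       (CovZ.leaf K2_ok TI_l1627 _)
                       (CovZ.leaf K3_ok TI_l6736 _))
                      (CovZ.leaf K2_ok TI_l1628 _))))
                   (CovZ.n1 (82872, 81540) (by decide +kernel)
                    (CovZ.n2 (82890, 81558) (by decide +kernel)
                     (CovZ.leaf K2_ok TI_l1629 _)
                     (CovZ.leaf K2_ok TI_l1630 _))
                    (CovZ.leaf K2_ok TI_l1631 _)))))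
                (CovZ.n1 (82800, 81576) (by decide +kernel)
                 (CovZ.n2 (82836, 81612) (by decide +kernel)
                  (CovZ.n2 (82836, 81576) (by decide +kernel)
                   (CovZ.n2 (82818, 81594) (by decide +kernel)
                    (CovZ.leaf K2_ok TI_l1632 _)
                    (CovZ.leaf K2_ok TI_l1633 _))
                   (CovZ.leaf K2_ok TI_l1634 _))
                  (CovZ.n1 (82800, 81612) (by decide +kernel)
                   (CovZ.n2 (82818, 81630) (by decide +kernel)
                    (CovZ.leaf K2_ok TI_l1635 _)
                    (CovZ.leaf K2_ok TI_l1636 _))
                   (CovZ.leaf K2_ok TI_l1637 _)))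
                 (CovZ.subM 252653344896081953139364239881518786312835895750457989009665 (by decide +kernel)
                  (CovZ.n1 (82836, 81540) (by decide +kernel)
                   (CovZ.subM 252653344896081953139362899944093779026207003702467277881601 (by decide +kernel)
                    (CovZ.n2 (82800, 81540) (by decide +kernel)
                     (CovZ.n2 (82818, 81558) (by decide +kernel)
                      (CovZ.leaf K2_ok TI_l1638 _)
                      (CovZ.leaf K2_ok TI_l1639 _))
                     (CovZ.n1 (82818, 81522) (by decide +kernel)
                      (CovZ.n2 (82800, 81522) (by decide +kernel)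
                       (CovZ.leaf K2_ok TI_l1640 _)
                       (CovZ.leaf K2_ok TI_l1641 _))
                      (CovZ.leaf K2_ok TI_l1642 _))))
                   (CovZ.n1 (82836, 81576) (by decide +kernel)
                    (CovZ.leaf K2_ok TI_l1643 _)
                    (CovZ.n1 (82818, 81558) (by decide +kernel)
                     (CovZ.leaf K2_ok TI_l1644 _)
                     (CovZ.leaf K2_ok TI_l1645 _))))))))))

theorem TI_u29 : CovZ TI_M (toL (selN TI_LN 3213863828553652858965687916672635150038679888378151278089615)) [0, 7, 6, 1] (81792, 81792) (82080, 81792) (82080, 82080) :=
    (CovZ.n2 (81936, 81936) (by decide +kernel)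
            (CovZ.n2 (82080, 81936) (by decide +kernel)
             (CovZ.subM 3149499012772424598489535105798652275275833784729995103442315 (by decide +kernel)
              (CovZ.n2 (82008, 81864) (by decide +kernel)
               (CovZ.n2 (82008, 81936) (by decide +kernel)
                (CovZ.n2 (82044, 81900) (by decide +kernel)
                 (CovZ.n2 (82008, 81900) (by decide +kernel)
                  (CovZ.n2 (82026, 81918) (by decide +kernel)
                   (CovZ.n2 (82026, 81900) (by decide +kernel)
                    (CovZ.leaf K3_ok TI_l1770 _)
                    (CovZ.n1 (82035, 81909) (by decide +kernel)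
                     (CovZ.leaf K3_ok TI_l1771 _)
                     (CovZ.leaf K2_ok TI_l1772 _)))
                   (CovZ.leaf K2_ok TI_l1773 _))
                  (CovZ.leaf K2_ok TI_l1774 _))
                 (CovZ.n1 (82044, 81936) (by decide +kernel)
                  (CovZ.leaf K3_ok TI_l1775 _)
                  (CovZ.n1 (82026, 81918) (by decide +kernel)
                   (CovZ.leaf K2_ok TI_l1776 _)
                   (CovZ.leaf K2_ok TI_l1777 _))))
                (CovZ.n1 (81972, 81900) (by decide +kernel)
                 (CovZ.n2 (81972, 81936) (by decide +kernel)
                  (CovZ.leaf K2_ok TI_l1778 _)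
                  (CovZ.n1 (81954, 81918) (by decide +kernel)
                   (CovZ.leaf K2_ok TI_l1779 _)
                   (CovZ.n1 (81972, 81918) (by decide +kernel)
                    (CovZ.leaf K2_ok TI_l6737 _)
                    (CovZ.leaf K2_ok TI_l1780 _))))
                 (CovZ.n1 (82008, 81900) (by decide +kernel)
                  (CovZ.n2 (81990, 81882) (by decide +kernel)
                   (CovZ.leaf K3_ok TI_l6738 _)
                   (CovZ.n1 (82008, 81882) (by decide +kernel)
                    (CovZ.leaf K2_ok TI_l6739 _)
                    (CovZ.leaf K2_ok TI_l6740 _)))
                  (CovZ.n1 (81990, 81918) (by decide +kernel)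
                   (CovZ.leaf K2_ok TI_l1781 _)
                   (CovZ.n1 (81990, 81900) (by decide +kernel)
                    (CovZ.leaf K2_ok TI_l6741 _)
                    (CovZ.n1 (81999, 81909) (by decide +kernel)
                     (CovZ.leaf K2_ok TI_l6742 _)
                     (CovZ.leaf K2_ok TI_l6743 _)))))))
               (CovZ.n1 (82080, 81864) (by decide +kernel)
                (CovZ.subM 1714434087930962405516109195947573837358008758786658163228672 (by decide +kernel)
                 (CovZ.n2 (82044, 81828) (by decide +kernel)
                  (CovZ.n2 (82044, 81864) (by decide +kernel)
                   (CovZ.n2 (82062, 81846) (by decide +kernel)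
                    (CovZ.leaf K2_ok TI_l6744 _)
                    (CovZ.n1 (82062, 81864) (by decide +kernel)
                     (CovZ.n2 (82071, 81855) (by decide +kernel)
                      (CovZ.leaf K2_ok TI_l6745 _)
                      (CovZ.leaf K2_ok TI_l1782 _))
                     (CovZ.leaf K2_ok TI_l6746 _)))
                   (CovZ.subM 191561942608236107294793378393788647952342390272950272 (by decide +kernel)
                    (CovZ.n1 (82026, 81846) (by decide +kernel)
                     (CovZ.n2 (82026, 81864) (by decide +kernel)
                      (CovZ.leaf K2_ok TI_l6747 _)
                      (CovZ.badM (by decide +kernel)))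
                     (CovZ.n1 (82044, 81846) (by decide +kernel)
                      (CovZ.badM (by decide +kernel))
                      (CovZ.leaf K2_ok TI_l6748 _)))))
                  (CovZ.n1 (82080, 81828) (by decide +kernel)
                   (CovZ.badM (by decide +kernel))
                   (CovZ.n1 (82062, 81846) (by decide +kernel)
                    (CovZ.n2 (82080, 81846) (by decide +kernel)
                     (CovZ.leaf K2_ok TI_l6749 _)
                     (CovZ.leaf K2_ok TI_l1783 _))
                    (CovZ.n1 (82062, 81828) (by decide +kernel)
                     (CovZ.leaf K2_ok TI_l6750 _)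
                     (CovZ.n1 (82071, 81837) (by decide +kernel)
                      (CovZ.badM (by decide +kernel))
                      (CovZ.leaf K2_ok TI_l6751 _)))))))
                (CovZ.n1 (82044, 81900) (by decide +kernel)
                 (CovZ.n2 (82080, 81900) (by decide +kernel)
                  (CovZ.n2 (82062, 81882) (by decide +kernel)
                   (CovZ.leaf K3_ok TI_l1784 _)
                   (CovZ.leaf K2_ok TI_l1785 _))
                  (CovZ.n1 (82062, 81918) (by decide +kernel)
                   (CovZ.leaf K3_ok TI_l1786 _)
                   (CovZ.leaf K2_ok TI_l1787 _)))
                 (CovZ.subM 2944803497023678725216823507969937908683824581650609543839744 (by decide +kernel)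
                  (CovZ.n1 (82044, 81864) (by decide +kernel)
                   (CovZ.n2 (82026, 81882) (by decide +kernel)
                    (CovZ.n2 (82044, 81882) (by decide +kernel)
                     (CovZ.leaf K2_ok TI_l6752 _)
                     (CovZ.leaf K2_ok TI_l1788 _))
                    (CovZ.n1 (82026, 81864) (by decide +kernel)
                     (CovZ.leaf K2_ok TI_l6753 _)
                     (CovZ.n1 (82035, 81873) (by decide +kernel)
                      (CovZ.leaf K2_ok TI_l6754 _)
                      (CovZ.leaf K2_ok TI_l6755 _))))
                   (CovZ.n1 (82062, 81882) (by decide +kernel)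
                    (CovZ.n2 (82062, 81864) (by decide +kernel)
                     (CovZ.leaf K2_ok TI_l1789 _)
                     (CovZ.leaf K2_ok TI_l1790 _))
                    (CovZ.leaf K2_ok TI_l1791 _))))))))
             (CovZ.n1 (82008, 82008) (by decide +kernel)
              (CovZ.n2 (82080, 82008) (by decide +kernel)
               (CovZ.subM 3162053219306505507559126240917964443286484595473964066805131 (by decide +kernel)
                (CovZ.n2 (82044, 81972) (by decide +kernel)
                 (CovZ.n2 (82044, 82008) (by decide +kernel)
                  (CovZ.leaf K2_ok TI_l1792 _)
                  (CovZ.leaf K2_ok TI_l1793 _))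
                 (CovZ.n1 (82080, 81972) (by decide +kernel)
                  (CovZ.leaf K2_ok TI_l1794 _)
                  (CovZ.leaf K2_ok TI_l1795 _))))
               (CovZ.n1 (82044, 82044) (by decide +kernel)
                (CovZ.n2 (82080, 82044) (by decide +kernel)
                 (CovZ.leaf K2_ok TI_l1796 _)
                 (CovZ.leaf K2_ok TI_l1797 _))
                (CovZ.n1 (82044, 82008) (by decide +kernel)
                 (CovZ.leaf K2_ok TI_l1798 _)
                 (CovZ.leaf K2_ok TI_l1799 _))))
              (CovZ.subM 3149499015788964004433883645333472242350079545935061571343755 (by decide +kernel)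
               (CovZ.n1 (82008, 81936) (by decide +kernel)
                (CovZ.n2 (81972, 81972) (by decide +kernel)
                 (CovZ.n2 (82008, 81972) (by decide +kernel)
                  (CovZ.n2 (81990, 81954) (by decide +kernel)
                   (CovZ.leaf K2_ok TI_l1800 _)
                   (CovZ.leaf K2_ok TI_l1801 _))
                  (CovZ.leaf K2_ok TI_l1802 _))
                 (CovZ.n1 (81972, 81936) (by decide +kernel)
                  (CovZ.n2 (81954, 81954) (by decide +kernel)
                   (CovZ.leaf K2_ok TI_l1803 _)
                   (CovZ.leaf K2_ok TI_l1804 _))
                  (CovZ.n1 (81990, 81954) (by decide +kernel)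
                   (CovZ.leaf K2_ok TI_l1805 _)
                   (CovZ.leaf K2_ok TI_l1806 _))))
                (CovZ.n1 (82044, 81972) (by decide +kernel)
                 (CovZ.n2 (82044, 81936) (by decide +kernel)
                  (CovZ.n2 (82026, 81954) (by decide +kernel)
                   (CovZ.leaf K2_ok TI_l1807 _)
                   (CovZ.leaf K3_ok TI_l1808 _))
                  (CovZ.n1 (82062, 81954) (by decide +kernel)
                   (CovZ.leaf K3_ok TI_l1809 _)
                   (CovZ.leaf K2_ok TI_l1810 _)))
                 (CovZ.leaf K2_ok TI_l1811 _))))))
            (CovZ.subM 803470554718572108449017191282644280864127228888498284003328 (by decide +kernel)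
             (CovZ.n1 (81936, 81792) (by decide +kernel)
              (CovZ.badM (by decide +kernel))
              (CovZ.n1 (82008, 81864) (by decide +kernel)
               (CovZ.badM (by decide +kernel))
               (CovZ.n1 (81936, 81864) (by decide +kernel)
                (CovZ.n2 (81972, 81900) (by decide +kernel)
                 (CovZ.n2 (81972, 81864) (by decide +kernel)
                  (CovZ.badM (by decide +kernel))
                  (CovZ.n1 (81990, 81882) (by decide +kernel)
                   (CovZ.n2 (81990, 81864) (by decide +kernel)
                    (CovZ.n2 (81981, 81873) (by decide +kernel)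
                     (CovZ.leaf K2_ok TI_l6756 _)
                     (CovZ.badM (by decide +kernel)))
                    (CovZ.n1 (81999, 81873) (by decide +kernel)
                     (CovZ.badM (by decide +kernel))
                     (CovZ.leaf K2_ok TI_l6757 _)))
                   (CovZ.leaf K2_ok TI_l6758 _)))
                 (CovZ.badM (by decide +kernel)))
                (CovZ.badM (by decide +kernel)))))))

theorem TI_u30 : CovZ TI_M (toL (selN TI_LN 3213863828553652858965687916672635150038679888378151278089615)) [0, 7, 6, 1] (82080, 81792) (82368, 81792) (82080, 82080) :=
    (CovZ.n1 (82224, 81936) (by decide +kernel)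
            (CovZ.n2 (82224, 81792) (by decide +kernel)
             (CovZ.subM 3162077356019290859516107723472612635092551515397045029574027 (by decide +kernel)
              (CovZ.n2 (82152, 81864) (by decide +kernel)
               (CovZ.n2 (82224, 81864) (by decide +kernel)
                (CovZ.n2 (82188, 81828) (by decide +kernel)
                 (CovZ.n2 (82188, 81864) (by decide +kernel)
                  (CovZ.leaf K2_ok TI_l1812 _)
                  (CovZ.n1 (82170, 81846) (by decide +kernel)
                   (CovZ.leaf K2_ok TI_l1813 _)
                   (CovZ.leaf K2_ok TI_l1814 _)))
                 (CovZ.n1 (82224, 81828) (by decide +kernel)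
                  (CovZ.n2 (82206, 81810) (by decide +kernel)
                   (CovZ.leaf K2_ok TI_l1815 _)
                   (CovZ.leaf K2_ok TI_l1816 _))
                  (CovZ.n1 (82206, 81846) (by decide +kernel)
                   (CovZ.leaf K2_ok TI_l1817 _)
                   (CovZ.leaf K2_ok TI_l1818 _))))
                (CovZ.n1 (82188, 81900) (by decide +kernel)
                 (CovZ.n2 (82224, 81900) (by decide +kernel)
                  (CovZ.leaf K2_ok TI_l1819 _)
                  (CovZ.leaf K2_ok TI_l1820 _))
                 (CovZ.n1 (82188, 81864) (by decide +kernel)
                  (CovZ.leaf K2_ok TI_l1821 _)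
                  (CovZ.n1 (82206, 81882) (by decide +kernel)
                   (CovZ.leaf K2_ok TI_l1822 _)
                   (CovZ.leaf K2_ok TI_l1823 _)))))
               (CovZ.subM 2747761819371999304396960407654682078090744833148693801603082 (by decide +kernel)
                (CovZ.n1 (82152, 81792) (by decide +kernel)
                 (CovZ.n2 (82116, 81828) (by decide +kernel)
                  (CovZ.n2 (82152, 81828) (by decide +kernel)
                   (CovZ.n2 (82134, 81810) (by decide +kernel)
                    (CovZ.leaf K2_ok TI_l1824 _)
                    (CovZ.n1 (82152, 81810) (by decide +kernel)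
                     (CovZ.badM (by decide +kernel))
                     (CovZ.leaf K2_ok TI_l1825 _)))
                   (CovZ.n1 (82134, 81846) (by decide +kernel)
                    (CovZ.leaf K2_ok TI_l1826 _)
                    (CovZ.leaf K2_ok TI_l1827 _)))
                  (CovZ.subM 100433723547523582899131603162874351527999870361714424807424 (by decide +kernel)
                   (CovZ.n1 (82116, 81792) (by decide +kernel)
                    (CovZ.n2 (82098, 81810) (by decide +kernel)
                     (CovZ.n2 (82116, 81810) (by decide +kernel)
                      (CovZ.badM (by decide +kernel))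
                      (CovZ.n1 (82107, 81819) (by decide +kernel)
                       (CovZ.leaf K2_ok TI_l6759 _)
                       (CovZ.badM (by decide +kernel))))
                     (CovZ.badM (by decide +kernel)))
                    (CovZ.n1 (82134, 81810) (by decide +kernel)
                     (CovZ.badM (by decide +kernel))
                     (CovZ.n1 (82116, 81810) (by decide +kernel)
                      (CovZ.leaf K2_ok TI_l6760 _)
                      (CovZ.leaf K2_ok TI_l6761 _))))))
                 (CovZ.n1 (82188, 81828) (by decide +kernel)
                  (CovZ.subM 1739646130631931710323587493843177637635786839238946420948992 (by decide +kernel)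
                   (CovZ.n2 (82188, 81792) (by decide +kernel)
                    (CovZ.n2 (82170, 81810) (by decide +kernel)
                     (CovZ.n2 (82188, 81810) (by decide +kernel)
                      (CovZ.n2 (82179, 81801) (by decide +kernel)
                       (CovZ.leaf K2_ok TI_l6762 _)
                       (CovZ.leaf K2_ok TI_l6763 _))
                      (CovZ.leaf K2_ok TI_l1828 _))
                     (CovZ.n1 (82170, 81792) (by decide +kernel)
                      (CovZ.leaf K2_ok TI_l6764 _)
                      (CovZ.n1 (82179, 81801) (by decide +kernel)
                       (CovZ.badM (by decide +kernel))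
                       (CovZ.leaf K2_ok TI_l6765 _))))
                    (CovZ.n1 (82206, 81810) (by decide +kernel)
                     (CovZ.n2 (82206, 81792) (by decide +kernel)
                      (CovZ.leaf K2_ok TI_l6766 _)
                      (CovZ.n1 (82215, 81801) (by decide +kernel)
                       (CovZ.badM (by decide +kernel))
                       (CovZ.leaf K2_ok TI_l6767 _)))
                     (CovZ.leaf K2_ok TI_l1829 _))))
                  (CovZ.n1 (82152, 81828) (by decide +kernel)
                   (CovZ.n2 (82170, 81846) (by decide +kernel)
                    (CovZ.n2 (82170, 81828) (by decide +kernel)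
                     (CovZ.leaf K2_ok TI_l1830 _)
                     (CovZ.leaf K2_ok TI_l1831 _))
                    (CovZ.leaf K2_ok TI_l1832 _))
                   (CovZ.n1 (82170, 81810) (by decide +kernel)
                    (CovZ.n2 (82152, 81810) (by decide +kernel)
                     (CovZ.leaf K2_ok TI_l1833 _)
                     (CovZ.leaf K2_ok TI_l6768 _))
                    (CovZ.leaf K2_ok TI_l1834 _))))))))
             (CovZ.subM 1956824782967512084785378434939821199696459760551007803807115 (by decide +kernel)
              (CovZ.n1 (82296, 81864) (by decide +kernel)
               (CovZ.n2 (82296, 81792) (by decide +kernel)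
                (CovZ.n2 (82260, 81828) (by decide +kernel)
                 (CovZ.n2 (82296, 81828) (by decide +kernel)
                  (CovZ.n2 (82278, 81810) (by decide +kernel)
                   (CovZ.leaf K2_ok TI_l1835 _)
                   (CovZ.leaf K2_ok TI_l1836 _))
                  (CovZ.n1 (82278, 81846) (by decide +kernel)
                   (CovZ.leaf K2_ok TI_l1837 _)
                   (CovZ.leaf K2_ok TI_l1838 _)))
                 (CovZ.n1 (82260, 81792) (by decide +kernel)
                  (CovZ.n2 (82242, 81810) (by decide +kernel)
                   (CovZ.leaf K2_ok TI_l1839 _)
                   (CovZ.n1 (82242, 81792) (by decide +kernel)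
                    (CovZ.n2 (82233, 81801) (by decide +kernel)
                     (CovZ.leaf K2_ok TI_l1840 _)
                     (CovZ.badM (by decide +kernel)))
                    (CovZ.leaf K2_ok TI_l1841 _)))
                  (CovZ.n1 (82278, 81810) (by decide +kernel)
                   (CovZ.leaf K2_ok TI_l1842 _)
                   (CovZ.leaf K2_ok TI_l1843 _))))
                (CovZ.n1 (82332, 81828) (by decide +kernel)
                 (CovZ.n2 (82332, 81792) (by decide +kernel)
                  (CovZ.leaf K2_ok TI_l1844 _)
                  (CovZ.n1 (82350, 81810) (by decide +kernel)
                   (CovZ.leaf K2_ok TI_l1845 _)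
                   (CovZ.leaf K2_ok TI_l1846 _)))
                 (CovZ.leaf K2_ok TI_l1847 _)))
               (CovZ.n1 (82224, 81864) (by decide +kernel)
                (CovZ.n2 (82260, 81900) (by decide +kernel)
                 (CovZ.n2 (82260, 81864) (by decide +kernel)
                  (CovZ.n2 (82242, 81882) (by decide +kernel)
                   (CovZ.leaf K2_ok TI_l1848 _)
                   (CovZ.leaf K2_ok TI_l1849 _))
                  (CovZ.leaf K2_ok TI_l1850 _))
                 (CovZ.n1 (82224, 81900) (by decide +kernel)
                  (CovZ.leaf K2_ok TI_l1851 _)
                  (CovZ.leaf K2_ok TI_l1852 _)))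
                (CovZ.n1 (82260, 81828) (by decide +kernel)
                 (CovZ.n2 (82224, 81828) (by decide +kernel)
                  (CovZ.n2 (82242, 81846) (by decide +kernel)
                   (CovZ.leaf K2_ok TI_l1853 _)
                   (CovZ.leaf K2_ok TI_l1854 _))
                  (CovZ.leaf K2_ok TI_l1855 _))
                 (CovZ.n1 (82260, 81864) (by decide +kernel)
                  (CovZ.leaf K2_ok TI_l1856 _)
                  (CovZ.n1 (82242, 81846) (by decide +kernel)
                   (CovZ.leaf K2_ok TI_l1857 _)
                   (CovZ.leaf K2_ok TI_l1858 _))))))))
            (CovZ.n1 (82080, 81936) (by decide +kernel)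
             (CovZ.n2 (82152, 82008) (by decide +kernel)
              (CovZ.n2 (82152, 81936) (by decide +kernel)
               (CovZ.n2 (82116, 81972) (by decide +kernel)
                (CovZ.n2 (82152, 81972) (by decide +kernel)
                 (CovZ.leaf K2_ok TI_l1859 _)
                 (CovZ.leaf K2_ok TI_l1860 _))
                (CovZ.n1 (82116, 81936) (by decide +kernel)
                 (CovZ.leaf K2_ok TI_l1861 _)
                 (CovZ.leaf K2_ok TI_l1862 _)))
               (CovZ.n1 (82188, 81972) (by decide +kernel)
                (CovZ.n2 (82188, 81936) (by decide +kernel)
                 (CovZ.leaf K2_ok TI_l1863 _)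
                 (CovZ.leaf K2_ok TI_l1864 _))
                (CovZ.leaf K2_ok TI_l1865 _)))
              (CovZ.n1 (82080, 82008) (by decide +kernel)
               (CovZ.n2 (82116, 82044) (by decide +kernel)
                (CovZ.n2 (82116, 82008) (by decide +kernel)
                 (CovZ.leaf K2_ok TI_l1866 _)
                 (CovZ.leaf K2_ok TI_l1867 _))
                (CovZ.leaf K2_ok TI_l1868 _))
               (CovZ.leaf K2_ok TI_l1869 _)))
             (CovZ.subM 3162077739236712180777500099824405251963689533339805258225035 (by decide +kernel)
              (CovZ.n1 (82152, 81864) (by decide +kernel)
               (CovZ.n2 (82080, 81864) (by decide +kernel)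
                (CovZ.n2 (82116, 81900) (by decide +kernel)
                 (CovZ.n2 (82116, 81864) (by decide +kernel)
                  (CovZ.n2 (82098, 81882) (by decide +kernel)
                   (CovZ.leaf K2_ok TI_l1870 _)
                   (CovZ.leaf K2_ok TI_l1871 _))
                  (CovZ.n1 (82134, 81882) (by decide +kernel)
                   (CovZ.n2 (82134, 81864) (by decide +kernel)
                    (CovZ.leaf K2_ok TI_l1872 _)
                    (CovZ.leaf K2_ok TI_l1873 _))
                   (CovZ.leaf K2_ok TI_l1874 _)))
                 (CovZ.n1 (82080, 81900) (by decide +kernel)
                  (CovZ.n2 (82098, 81918) (by decide +kernel)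
                   (CovZ.leaf K2_ok TI_l1875 _)
                   (CovZ.leaf K2_ok TI_l1876 _))
                  (CovZ.n1 (82098, 81882) (by decide +kernel)
                   (CovZ.leaf K2_ok TI_l1877 _)
                   (CovZ.n1 (82098, 81900) (by decide +kernel)
                    (CovZ.leaf K3_ok TI_l1878 _)
                    (CovZ.n1 (82089, 81891) (by decide +kernel)
                     (CovZ.leaf K2_ok TI_l1879 _)
                     (CovZ.leaf K3_ok TI_l1880 _))))))
                (CovZ.subM 2747762202495884520869174997241438865668040737833474347503626 (by decide +kernel)
                 (CovZ.n1 (82116, 81828) (by decide +kernel)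
                  (CovZ.subM 1714434087930962405516109195947573837358008758786658163228672 (by decide +kernel)
                   (CovZ.n2 (82080, 81828) (by decide +kernel)
                    (CovZ.n2 (82098, 81846) (by decide +kernel)
                     (CovZ.n2 (82098, 81828) (by decide +kernel)
                      (CovZ.leaf K2_ok TI_l1881 _)
                      (CovZ.leaf K2_ok TI_l1882 _))
                     (CovZ.n1 (82080, 81846) (by decide +kernel)
                      (CovZ.leaf K2_ok TI_l1883 _)
                      (CovZ.leaf K2_ok TI_l1884 _)))
                    (CovZ.n1 (82098, 81810) (by decide +kernel)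
                     (CovZ.badM (by decide +kernel))
                     (CovZ.n1 (82098, 81828) (by decide +kernel)
                      (CovZ.leaf K2_ok TI_l6769 _)
                      (CovZ.badM (by decide +kernel))))))
                  (CovZ.n1 (82116, 81864) (by decide +kernel)
                   (CovZ.leaf K2_ok TI_l1885 _)
                   (CovZ.subM 1739695745174884555770710482463406168291516960540570123501568 (by decide +kernel)
                    (CovZ.n1 (82098, 81846) (by decide +kernel)
                     (CovZ.n2 (82098, 81864) (by decide +kernel)
                      (CovZ.leaf K2_ok TI_l1886 _)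
                      (CovZ.leaf K2_ok TI_l1887 _))
                     (CovZ.n1 (82116, 81846) (by decide +kernel)
                      (CovZ.leaf K2_ok TI_l1888 _)
                      (CovZ.n1 (82107, 81855) (by decide +kernel)
                       (CovZ.leaf K2_ok TI_l1889 _)
                       (CovZ.leaf K2_ok TI_l1890 _)))))))))
               (CovZ.n1 (82152, 81936) (by decide +kernel)
                (CovZ.n2 (82188, 81900) (by decide +kernel)
                 (CovZ.n2 (82152, 81900) (by decide +kernel)
                  (CovZ.n2 (82170, 81918) (by decide +kernel)
                   (CovZ.leaf K2_ok TI_l1891 _)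
                   (CovZ.leaf K2_ok TI_l1892 _))
                  (CovZ.leaf K2_ok TI_l1893 _))
                 (CovZ.n1 (82188, 81936) (by decide +kernel)
                  (CovZ.leaf K2_ok TI_l1894 _)
                  (CovZ.n1 (82170, 81918) (by decide +kernel)
                   (CovZ.leaf K2_ok TI_l1895 _)
                   (CovZ.leaf K2_ok TI_l1896 _))))
                (CovZ.n1 (82116, 81900) (by decide +kernel)
                 (CovZ.n2 (82116, 81936) (by decide +kernel)
                  (CovZ.leaf K2_ok TI_l1897 _)
                  (CovZ.n1 (82098, 81918) (by decide +kernel)
                   (CovZ.leaf K3_ok TI_l1898 _)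
                   (CovZ.leaf K2_ok TI_l1899 _)))
                 (CovZ.n1 (82152, 81900) (by decide +kernel)
                  (CovZ.n2 (82134, 81882) (by decide +kernel)
                   (CovZ.leaf K2_ok TI_l1900 _)
                   (CovZ.leaf K2_ok TI_l1901 _))
                  (CovZ.leaf K2_ok TI_l1902 _))))))))

theorem TI_u31 : CovZ TI_M (toL (selN TI_LN 3213863828553652858965687916672635150038679888378151278089615)) [0, 7, 6, 1] (81792, 81792) (82368, 81792) (82368, 82368) :=
    (CovZ.n2 (82080, 82080) (by decide +kernel)
          (CovZ.n2 (82368, 82080) (by decide +kernel)
           (CovZ.n2 (82224, 81936) (by decide +kernel)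
            (CovZ.n2 (82224, 82080) (by decide +kernel)
             (CovZ.n2 (82296, 82008) (by decide +kernel)
              (CovZ.n2 (82224, 82008) (by decide +kernel)
               (CovZ.n2 (82260, 82044) (by decide +kernel)
                (CovZ.leaf K2_ok TI_l1713 _)
                (CovZ.leaf K2_ok TI_l1714 _))
               (CovZ.leaf K2_ok TI_l1715 _))
              (CovZ.n1 (82296, 82080) (by decide +kernel)
               (CovZ.leaf K2_ok TI_l1716 _)
               (CovZ.n1 (82260, 82044) (by decide +kernel)
                (CovZ.leaf K2_ok TI_l1717 _)
                (CovZ.leaf K2_ok TI_l1718 _))))
             (CovZ.n1 (82152, 82008) (by decide +kernel)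
              (CovZ.n2 (82152, 82080) (by decide +kernel)
               (CovZ.leaf K2_ok TI_l1719 _)
               (CovZ.n1 (82116, 82044) (by decide +kernel)
                (CovZ.leaf K2_ok TI_l1720 _)
                (CovZ.leaf K2_ok TI_l1721 _)))
              (CovZ.n1 (82224, 82008) (by decide +kernel)
               (CovZ.n2 (82188, 81972) (by decide +kernel)
                (CovZ.leaf K2_ok TI_l1722 _)
                (CovZ.n1 (82224, 81972) (by decide +kernel)
                 (CovZ.leaf K2_ok TI_l1723 _)
                 (CovZ.leaf K2_ok TI_l1724 _)))
               (CovZ.n1 (82188, 82044) (by decide +kernel)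
                (CovZ.leaf K2_ok TI_l1725 _)
                (CovZ.n1 (82188, 82008) (by decide +kernel)
                 (CovZ.leaf K2_ok TI_l1726 _)
                 (CovZ.leaf K2_ok TI_l1727 _))))))
            (CovZ.n1 (82368, 81936) (by decide +kernel)
             (CovZ.subM 1956824782967512084785378434941089005039340762810203720783243 (by decide +kernel)
              (CovZ.n2 (82296, 81864) (by decide +kernel)
               (CovZ.n2 (82296, 81936) (by decide +kernel)
                (CovZ.leaf K2_ok TI_l1728 _)
                (CovZ.n1 (82260, 81900) (by decide +kernel)
                 (CovZ.leaf K2_ok TI_l1729 _)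
                 (CovZ.n1 (82296, 81900) (by decide +kernel)
                  (CovZ.leaf K2_ok TI_l1730 _)
                  (CovZ.leaf K2_ok TI_l1731 _))))
               (CovZ.n1 (82368, 81864) (by decide +kernel)
                (CovZ.n2 (82332, 81828) (by decide +kernel)
                 (CovZ.leaf K2_ok TI_l1732 _)
                 (CovZ.n1 (82368, 81828) (by decide +kernel)
                  (CovZ.n2 (82350, 81810) (by decide +kernel)
                   (CovZ.leaf K2_ok TI_l1733 _)
                   (CovZ.leaf K2_ok TI_l1734 _))
                  (CovZ.leaf K2_ok TI_l1735 _)))
                (CovZ.n1 (82332, 81900) (by decide +kernel)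
                 (CovZ.n2 (82368, 81900) (by decide +kernel)
                  (CovZ.leaf K2_ok TI_l1736 _)
                  (CovZ.leaf K2_ok TI_l1737 _))
                 (CovZ.n1 (82332, 81864) (by decide +kernel)
                  (CovZ.leaf K2_ok TI_l1738 _)
                  (CovZ.leaf K2_ok TI_l1739 _))))))
             (CovZ.n1 (82296, 82008) (by decide +kernel)
              (CovZ.subM 1956037552803908791951029356550734268987564701791293857207691 (by decide +kernel)
               (CovZ.n2 (82368, 82008) (by decide +kernel)
                (CovZ.n2 (82332, 81972) (by decide +kernel)
                 (CovZ.leaf K2_ok TI_l1740 _)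
                 (CovZ.leaf K2_ok TI_l1741 _))
                (CovZ.n1 (82332, 82044) (by decide +kernel)
                 (CovZ.leaf K2_ok TI_l1742 _)
                 (CovZ.leaf K2_ok TI_l1743 _))))
              (CovZ.n1 (82296, 81936) (by decide +kernel)
               (CovZ.n2 (82260, 81972) (by decide +kernel)
                (CovZ.leaf K2_ok TI_l1744 _)
                (CovZ.leaf K2_ok TI_l1745 _))
               (CovZ.n1 (82332, 81972) (by decide +kernel)
                (CovZ.leaf K2_ok TI_l1746 _)
                (CovZ.leaf K2_ok TI_l1747 _))))))
           (CovZ.n1 (82224, 82224) (by decide +kernel)
            (CovZ.n2 (82368, 82224) (by decide +kernel)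
             (CovZ.n2 (82296, 82152) (by decide +kernel)
              (CovZ.n2 (82296, 82224) (by decide +kernel)
               (CovZ.leaf K2_ok TI_l1748 _)
               (CovZ.leaf K2_ok TI_l1749 _))
              (CovZ.n1 (82368, 82152) (by decide +kernel)
               (CovZ.n2 (82332, 82116) (by decide +kernel)
                (CovZ.leaf K2_ok TI_l1750 _)
                (CovZ.leaf K2_ok TI_l1751 _))
               (CovZ.leaf K2_ok TI_l1752 _)))
             (CovZ.n1 (82296, 82296) (by decide +kernel)
              (CovZ.n2 (82368, 82296) (by decide +kernel)
               (CovZ.leaf K2_ok TI_l1753 _)
               (CovZ.leaf K2_ok TI_l1754 _))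
              (CovZ.n1 (82296, 82224) (by decide +kernel)
               (CovZ.leaf K2_ok TI_l1755 _)
               (CovZ.leaf K2_ok TI_l1756 _))))
            (CovZ.n1 (82224, 82080) (by decide +kernel)
             (CovZ.n2 (82152, 82152) (by decide +kernel)
              (CovZ.n2 (82224, 82152) (by decide +kernel)
               (CovZ.n2 (82188, 82116) (by decide +kernel)
                (CovZ.leaf K2_ok TI_l1757 _)
                (CovZ.leaf K2_ok TI_l1758 _))
               (CovZ.leaf K2_ok TI_l1759 _))
              (CovZ.n1 (82152, 82080) (by decide +kernel)
               (CovZ.n2 (82116, 82116) (by decide +kernel)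
                (CovZ.leaf K2_ok TI_l1760 _)
                (CovZ.n1 (82116, 82080) (by decide +kernel)
                 (CovZ.leaf K2_ok TI_l1761 _)
                 (CovZ.leaf K2_ok TI_l1762 _)))
               (CovZ.n1 (82188, 82116) (by decide +kernel)
                (CovZ.leaf K2_ok TI_l1763 _)
                (CovZ.leaf K2_ok TI_l1764 _))))
             (CovZ.n1 (82296, 82152) (by decide +kernel)
              (CovZ.n2 (82296, 82080) (by decide +kernel)
               (CovZ.n2 (82260, 82116) (by decide +kernel)
                (CovZ.leaf K2_ok TI_l1765 _)
                (CovZ.leaf K2_ok TI_l1766 _))
               (CovZ.leaf K2_ok TI_l1767 _))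
              (CovZ.n1 (82224, 82152) (by decide +kernel)
               (CovZ.leaf K2_ok TI_l1768 _)
               (CovZ.leaf K2_ok TI_l1769 _))))))
          (CovZ.n1 (82080, 81792) (by decide +kernel)
           TI_u29
           TI_u30))

theorem TI_u32 : CovZ TI_M (toL (selN TI_LN 3213863828553652858965687916672635150038679888378151278089615)) [0, 7, 6, 1] (82368, 81792) (82944, 81792) (82368, 82368) :=
    (CovZ.n1 (82656, 82080) (by decide +kernel)
          (CovZ.n2 (82656, 81792) (by decide +kernel)
           (CovZ.subM 2007823642120848908252674619312479926561839740998626316522891 (by decide +kernel)
            (CovZ.n2 (82512, 81936) (by decide +kernel)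
             (CovZ.n2 (82656, 81936) (by decide +kernel)
              (CovZ.n2 (82584, 81864) (by decide +kernel)
               (CovZ.n2 (82584, 81936) (by decide +kernel)
                (CovZ.leaf K2_ok TI_l1903 _)
                (CovZ.n1 (82548, 81900) (by decide +kernel)
                 (CovZ.leaf K2_ok TI_l1904 _)
                 (CovZ.leaf K2_ok TI_l1905 _)))
               (CovZ.n1 (82656, 81864) (by decide +kernel)
                (CovZ.n2 (82620, 81828) (by decide +kernel)
                 (CovZ.leaf K2_ok TI_l1906 _)
                 (CovZ.leaf K2_ok TI_l1907 _))
                (CovZ.n1 (82620, 81900) (by decide +kernel)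
                 (CovZ.leaf K2_ok TI_l1908 _)
                 (CovZ.leaf K2_ok TI_l1909 _))))
              (CovZ.n1 (82584, 82008) (by decide +kernel)
               (CovZ.n2 (82656, 82008) (by decide +kernel)
                (CovZ.n2 (82620, 81972) (by decide +kernel)
                 (CovZ.leaf K2_ok TI_l1910 _)
                 (CovZ.leaf K2_ok TI_l1911 _))
                (CovZ.leaf K2_ok TI_l1912 _))
               (CovZ.n1 (82584, 81936) (by decide +kernel)
                (CovZ.leaf K2_ok TI_l1913 _)
                (CovZ.n1 (82620, 81972) (by decide +kernel)
                 (CovZ.leaf K2_ok TI_l1914 _)
                 (CovZ.leaf K2_ok TI_l1915 _)))))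
             (CovZ.n1 (82512, 81792) (by decide +kernel)
              (CovZ.n2 (82440, 81864) (by decide +kernel)
               (CovZ.n2 (82512, 81864) (by decide +kernel)
                (CovZ.n2 (82476, 81828) (by decide +kernel)
                 (CovZ.leaf K2_ok TI_l1916 _)
                 (CovZ.n1 (82512, 81828) (by decide +kernel)
                  (CovZ.leaf K2_ok TI_l1917 _)
                  (CovZ.leaf K2_ok TI_l1918 _)))
                (CovZ.n1 (82476, 81900) (by decide +kernel)
                 (CovZ.leaf K2_ok TI_l1919 _)
                 (CovZ.leaf K2_ok TI_l1920 _)))
               (CovZ.n1 (82440, 81792) (by decide +kernel)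
                (CovZ.n2 (82404, 81828) (by decide +kernel)
                 (CovZ.n2 (82440, 81828) (by decide +kernel)
                  (CovZ.leaf K2_ok TI_l1921 _)
                  (CovZ.leaf K2_ok TI_l1922 _))
                 (CovZ.n1 (82404, 81792) (by decide +kernel)
                  (CovZ.leaf K2_ok TI_l1923 _)
                  (CovZ.n1 (82422, 81810) (by decide +kernel)
                   (CovZ.leaf K2_ok TI_l1924 _)
                   (CovZ.leaf K2_ok TI_l1925 _))))
                (CovZ.n1 (82476, 81828) (by decide +kernel)
                 (CovZ.n2 (82476, 81792) (by decide +kernel)
                  (CovZ.leaf K2_ok TI_l1926 _)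
                  (CovZ.leaf K2_ok TI_l1927 _))
                 (CovZ.leaf K2_ok TI_l1928 _))))
              (CovZ.n1 (82584, 81864) (by decide +kernel)
               (CovZ.n2 (82584, 81792) (by decide +kernel)
                (CovZ.n2 (82548, 81828) (by decide +kernel)
                 (CovZ.n2 (82584, 81828) (by decide +kernel)
                  (CovZ.leaf K2_ok TI_l1929 _)
                  (CovZ.leaf K2_ok TI_l1930 _))
                 (CovZ.n1 (82548, 81792) (by decide +kernel)
                  (CovZ.leaf K2_ok TI_l1931 _)
                  (CovZ.leaf K2_ok TI_l1932 _)))
                (CovZ.n1 (82620, 81828) (by decide +kernel)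
                 (CovZ.n2 (82620, 81792) (by decide +kernel)
                  (CovZ.leaf K2_ok TI_l1933 _)
                  (CovZ.leaf K2_ok TI_l1934 _))
                 (CovZ.leaf K2_ok TI_l1935 _)))
               (CovZ.n1 (82512, 81864) (by decide +kernel)
                (CovZ.n2 (82548, 81900) (by decide +kernel)
                 (CovZ.leaf K2_ok TI_l1936 _)
                 (CovZ.leaf K3_ok TI_l1937 _))
                (CovZ.leaf K2_ok TI_l1938 _))))))
           (CovZ.subM 256012627716835100410264267605826769042114206353819112182145 (by decide +kernel)
            (CovZ.n1 (82800, 81936) (by decide +kernel)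
             (CovZ.n2 (82800, 81792) (by decide +kernel)
              (CovZ.n2 (82728, 81864) (by decide +kernel)
               (CovZ.n2 (82800, 81864) (by decide +kernel)
                (CovZ.n2 (82764, 81828) (by decide +kernel)
                 (CovZ.leaf K2_ok TI_l1939 _)
                 (CovZ.leaf K2_ok TI_l1940 _))
                (CovZ.leaf K2_ok TI_l1941 _))
               (CovZ.n1 (82728, 81792) (by decide +kernel)
                (CovZ.n2 (82692, 81828) (by decide +kernel)
                 (CovZ.leaf K2_ok TI_l1942 _)
                 (CovZ.leaf K2_ok TI_l1943 _))
                (CovZ.n1 (82764, 81828) (by decide +kernel)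
                 (CovZ.leaf K2_ok TI_l1944 _)
                 (CovZ.leaf K2_ok TI_l1945 _))))
              (CovZ.n1 (82872, 81864) (by decide +kernel)
               (CovZ.n2 (82872, 81792) (by decide +kernel)
                (CovZ.n2 (82836, 81828) (by decide +kernel)
                 (CovZ.leaf K2_ok TI_l1946 _)
                 (CovZ.leaf K2_ok TI_l1947 _))
                (CovZ.leaf K2_ok TI_l1948 _))
               (CovZ.n1 (82800, 81864) (by decide +kernel)
                (CovZ.leaf K2_ok TI_l1949 _)
                (CovZ.leaf K2_ok TI_l1950 _))))
             (CovZ.n1 (82656, 81936) (by decide +kernel)
              (CovZ.n2 (82728, 82008) (by decide +kernel)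
               (CovZ.n2 (82728, 81936) (by decide +kernel)
                (CovZ.n2 (82692, 81972) (by decide +kernel)
                 (CovZ.leaf K2_ok TI_l1951 _)
                 (CovZ.leaf K2_ok TI_l1952 _))
                (CovZ.leaf K2_ok TI_l1953 _))
               (CovZ.n1 (82656, 82008) (by decide +kernel)
                (CovZ.leaf K2_ok TI_l1954 _)
                (CovZ.leaf K2_ok TI_l1955 _)))
              (CovZ.n1 (82728, 81864) (by decide +kernel)
               (CovZ.n2 (82656, 81864) (by decide +kernel)
                (CovZ.n2 (82692, 81900) (by decide +kernel)
                 (CovZ.leaf K2_ok TI_l1956 _)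
                 (CovZ.leaf K2_ok TI_l1957 _))
                (CovZ.leaf K2_ok TI_l1958 _))
               (CovZ.n1 (82728, 81936) (by decide +kernel)
                (CovZ.leaf K2_ok TI_l1959 _)
                (CovZ.n1 (82692, 81900) (by decide +kernel)
                 (CovZ.leaf K2_ok TI_l1960 _)
                 (CovZ.leaf K2_ok TI_l1961 _))))))))
          (CovZ.n1 (82368, 82080) (by decide +kernel)
           (CovZ.n2 (82512, 82224) (by decide +kernel)
            (CovZ.n2 (82512, 82080) (by decide +kernel)
             (CovZ.subM 1956037552803908791951029356550734268988154997601652831294859 (by decide +kernel)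
              (CovZ.n2 (82440, 82152) (by decide +kernel)
               (CovZ.n2 (82512, 82152) (by decide +kernel)
                (CovZ.leaf K2_ok TI_l1962 _)
                (CovZ.leaf K2_ok TI_l1963 _))
               (CovZ.n1 (82440, 82080) (by decide +kernel)
                (CovZ.leaf K2_ok TI_l1964 _)
                (CovZ.leaf K2_ok TI_l1965 _))))
             (CovZ.subM 256012627717565862379302318005721551178347366776812035248515 (by decide +kernel)
              (CovZ.n1 (82584, 82152) (by decide +kernel)
               (CovZ.n2 (82584, 82080) (by decide +kernel)
                (CovZ.leaf K2_ok TI_l1966 _)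
                (CovZ.leaf K2_ok TI_l1967 _))
               (CovZ.n1 (82512, 82152) (by decide +kernel)
                (CovZ.leaf K2_ok TI_l1968 _)
                (CovZ.leaf K2_ok TI_l1969 _)))))
            (CovZ.subM 1956037552803908791951029377319921703127465511723638148175243 (by decide +kernel)
             (CovZ.n1 (82368, 82224) (by decide +kernel)
              (CovZ.n2 (82440, 82296) (by decide +kernel)
               (CovZ.n2 (82440, 82224) (by decide +kernel)
                (CovZ.leaf K2_ok TI_l1970 _)
                (CovZ.leaf K2_ok TI_l1971 _))
               (CovZ.leaf K3_ok TI_l1972 _))
              (CovZ.leaf K2_ok TI_l1973 _))))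
           (CovZ.subM 2007823642120848908252674619312479926561839740998626316522891 (by decide +kernel)
            (CovZ.n1 (82512, 81936) (by decide +kernel)
             (CovZ.n2 (82368, 81936) (by decide +kernel)
              (CovZ.n2 (82440, 82008) (by decide +kernel)
               (CovZ.n2 (82440, 81936) (by decide +kernel)
                (CovZ.n2 (82404, 81972) (by decide +kernel)
                 (CovZ.leaf K2_ok TI_l1974 _)
                 (CovZ.n1 (82404, 81936) (by decide +kernel)
                  (CovZ.leaf K2_ok TI_l1975 _)
                  (CovZ.leaf K2_ok TI_l1976 _)))
                (CovZ.n1 (82476, 81972) (by decide +kernel)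
                 (CovZ.leaf K2_ok TI_l1977 _)
                 (CovZ.leaf K2_ok TI_l1978 _)))
               (CovZ.n1 (82368, 82008) (by decide +kernel)
                (CovZ.n2 (82404, 82044) (by decide +kernel)
                 (CovZ.leaf K2_ok TI_l1979 _)
                 (CovZ.leaf K2_ok TI_l1980 _))
                (CovZ.leaf K2_ok TI_l1981 _)))
              (CovZ.n1 (82440, 81864) (by decide +kernel)
               (CovZ.n2 (82368, 81864) (by decide +kernel)
                (CovZ.n2 (82404, 81900) (by decide +kernel)
                 (CovZ.n2 (82404, 81864) (by decide +kernel)
                  (CovZ.leaf K2_ok TI_l1982 _)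
                  (CovZ.leaf K2_ok TI_l1983 _))
                 (CovZ.leaf K2_ok TI_l1984 _))
                (CovZ.n1 (82404, 81828) (by decide +kernel)
                 (CovZ.leaf K2_ok TI_l1985 _)
                 (CovZ.leaf K2_ok TI_l1986 _)))
               (CovZ.n1 (82440, 81936) (by decide +kernel)
                (CovZ.leaf K2_ok TI_l1987 _)
                (CovZ.n1 (82404, 81900) (by decide +kernel)
                 (CovZ.leaf K2_ok TI_l1988 _)
                 (CovZ.leaf K2_ok TI_l1989 _)))))
             (CovZ.n1 (82512, 82080) (by decide +kernel)
              (CovZ.n2 (82584, 82008) (by decide +kernel)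
               (CovZ.n2 (82512, 82008) (by decide +kernel)
                (CovZ.leaf K2_ok TI_l1990 _)
                (CovZ.leaf K2_ok TI_l1991 _))
               (CovZ.n1 (82584, 82080) (by decide +kernel)
                (CovZ.leaf K2_ok TI_l1992 _)
                (CovZ.leaf K2_ok TI_l1993 _)))
              (CovZ.n1 (82440, 82008) (by decide +kernel)
               (CovZ.n2 (82440, 82080) (by decide +kernel)
                (CovZ.leaf K2_ok TI_l1994 _)
                (CovZ.n1 (82404, 82044) (by decide +kernel)
                 (CovZ.leaf K2_ok TI_l1995 _)
                 (CovZ.leaf K2_ok TI_l1996 _)))
               (CovZ.n1 (82512, 82008) (by decide +kernel)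
                (CovZ.n2 (82476, 81972) (by decide +kernel)
                 (CovZ.leaf K2_ok TI_l1997 _)
                 (CovZ.leaf K2_ok TI_l1998 _))
                (CovZ.n1 (82476, 82044) (by decide +kernel)
                 (CovZ.leaf K2_ok TI_l1999 _)
                 (CovZ.leaf K2_ok TI_l2000 _)))))))))

theorem TI_u33 : CovZ TI_M (toL (selN TI_LN 226325156771193199330382740586869260330806511540882894754959)) [0, 7, 6, 1] (80640, 81792) (81216, 81792) (81216, 82368) :=
    (CovZ.subM 196172901377549686990862007533653987840817759277918716934 (by decide +kernel)
           (CovZ.n2 (80928, 82080) (by decide +kernel)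
            (CovZ.n2 (81216, 82080) (by decide +kernel)
             (CovZ.badM (by decide +kernel))
             (CovZ.n1 (81072, 82224) (by decide +kernel)
              (CovZ.n2 (81216, 82224) (by decide +kernel)
               (CovZ.badM (by decide +kernel))
               (CovZ.n1 (81144, 82296) (by decide +kernel)
                (CovZ.n2 (81216, 82296) (by decide +kernel)
                 (CovZ.subM 356824264165396368081113762887228771952231430 (by decide +kernel)
                  (CovZ.n2 (81180, 82260) (by decide +kernel)
                   (CovZ.n2 (81180, 82296) (by decide +kernel)
                    (CovZ.leaf K2_ok TI_l2001 _)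
                    (CovZ.n1 (81162, 82278) (by decide +kernel)
                     (CovZ.leaf K2_ok TI_l2002 _)
                     (CovZ.leaf K2_ok TI_l2003 _)))
                   (CovZ.n1 (81216, 82260) (by decide +kernel)
                    (CovZ.n2 (81198, 82242) (by decide +kernel)
                     (CovZ.leaf K2_ok TI_l2004 _)
                     (CovZ.n1 (81216, 82242) (by decide +kernel)
                      (CovZ.leaf K2_ok TI_l6770 _)
                      (CovZ.leaf K2_ok TI_l2005 _)))
                    (CovZ.n1 (81198, 82278) (by decide +kernel)
                     (CovZ.leaf K2_ok TI_l2006 _)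
                     (CovZ.n1 (81198, 82260) (by decide +kernel)
                      (CovZ.leaf K2_ok TI_l2007 _)
                      (CovZ.leaf K2_ok TI_l2008 _))))))
                 (CovZ.n1 (81180, 82332) (by decide +kernel)
                  (CovZ.n2 (81216, 82332) (by decide +kernel)
                   (CovZ.leaf K2_ok TI_l2009 _)
                   (CovZ.leaf K2_ok TI_l2010 _))
                  (CovZ.n1 (81180, 82296) (by decide +kernel)
                   (CovZ.n2 (81162, 82314) (by decide +kernel)
                    (CovZ.leaf K2_ok TI_l2011 _)
                    (CovZ.leaf K2_ok TI_l2012 _))
                   (CovZ.leaf K2_ok TI_l2013 _))))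
                (CovZ.subM 356822812233000647536585210909069777909579776 (by decide +kernel)
                 (CovZ.n1 (81144, 82224) (by decide +kernel)
                  (CovZ.n2 (81108, 82260) (by decide +kernel)
                   (CovZ.n2 (81144, 82260) (by decide +kernel)
                    (CovZ.n2 (81126, 82242) (by decide +kernel)
                     (CovZ.leaf K2_ok TI_l2014 _)
                     (CovZ.leaf K2_ok TI_l2015 _))
                    (CovZ.n1 (81126, 82278) (by decide +kernel)
                     (CovZ.leaf K2_ok TI_l2016 _)
                     (CovZ.n1 (81126, 82260) (by decide +kernel)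
                      (CovZ.leaf K2_ok TI_l2017 _)
                      (CovZ.leaf K2_ok TI_l2018 _))))
                   (CovZ.subM 20769187434139310514121985316880384 (by decide +kernel)
                    (CovZ.n1 (81108, 82224) (by decide +kernel)
                     (CovZ.n2 (81090, 82242) (by decide +kernel)
                      (CovZ.n2 (81108, 82242) (by decide +kernel)
                       (CovZ.badM (by decide +kernel))
                       (CovZ.leaf K2_ok TI_l2019 _))
                      (CovZ.badM (by decide +kernel)))
                     (CovZ.n1 (81126, 82242) (by decide +kernel)
                      (CovZ.badM (by decide +kernel))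
                      (CovZ.leaf K2_ok TI_l2020 _)))))
                  (CovZ.n1 (81180, 82260) (by decide +kernel)
                   (CovZ.subM 356811923197259177505751431442580167798554624 (by decide +kernel)
                    (CovZ.n2 (81180, 82224) (by decide +kernel)
                     (CovZ.n2 (81162, 82242) (by decide +kernel)
                      (CovZ.n2 (81180, 82242) (by decide +kernel)
                       (CovZ.badM (by decide +kernel))
                       (CovZ.leaf K2_ok TI_l2021 _))
                      (CovZ.badM (by decide +kernel)))
                     (CovZ.n1 (81198, 82242) (by decide +kernel)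
                      (CovZ.badM (by decide +kernel))
                      (CovZ.leaf K2_ok TI_l2022 _))))
                   (CovZ.n1 (81144, 82260) (by decide +kernel)
                    (CovZ.n2 (81162, 82278) (by decide +kernel)
                     (CovZ.leaf K2_ok TI_l2023 _)
                     (CovZ.leaf K2_ok TI_l2024 _))
                    (CovZ.leaf K2_ok TI_l2025 _)))))))
              (CovZ.badM (by decide +kernel))))
            (CovZ.badM (by decide +kernel))))

theorem TI_u34 : CovZ TI_M (toL (selN TI_LN 226325156771193199330382740586869260330806511540882894754959)) [0, 7, 6, 1] (81216, 81792) (81792, 81792) (81216, 82368) :=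
    (CovZ.n1 (81504, 82080) (by decide +kernel)
           (CovZ.subM 2147483648 (by decide +kernel)
            (CovZ.n2 (81504, 81792) (by decide +kernel)
             (CovZ.badM (by decide +kernel))
             (CovZ.n1 (81648, 81936) (by decide +kernel)
              (CovZ.badM (by decide +kernel))
              (CovZ.n1 (81504, 81936) (by decide +kernel)
               (CovZ.n2 (81576, 82008) (by decide +kernel)
                (CovZ.badM (by decide +kernel))
                (CovZ.badM (by decide +kernel)))
               (CovZ.badM (by decide +kernel))))))
           (CovZ.n1 (81216, 82080) (by decide +kernel)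
            (CovZ.n2 (81360, 82224) (by decide +kernel)
             (CovZ.subM 46028750430740535654039499770837043159578443918 (by decide +kernel)
              (CovZ.n2 (81360, 82080) (by decide +kernel)
               (CovZ.n2 (81288, 82152) (by decide +kernel)
                (CovZ.n2 (81360, 82152) (by decide +kernel)
                 (CovZ.subM 5192296858535436371225666232778752 (by decide +kernel)
                  (CovZ.n2 (81324, 82116) (by decide +kernel)
                   (CovZ.n2 (81324, 82152) (by decide +kernel)
                    (CovZ.leaf K2_ok TI_l2026 _)
                    (CovZ.badM (by decide +kernel)))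
                   (CovZ.n1 (81360, 82116) (by decide +kernel)
                    (CovZ.badM (by decide +kernel))
                    (CovZ.n1 (81342, 82134) (by decide +kernel)
                     (CovZ.n2 (81360, 82134) (by decide +kernel)
                      (CovZ.badM (by decide +kernel))
                      (CovZ.leaf K2_ok TI_l2027 _))
                     (CovZ.badM (by decide +kernel))))))
                 (CovZ.n1 (81324, 82188) (by decide +kernel)
                  (CovZ.n2 (81360, 82188) (by decide +kernel)
                   (CovZ.n2 (81342, 82170) (by decide +kernel)
                    (CovZ.leaf K2_ok TI_l2028 _)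
                    (CovZ.leaf K2_ok TI_l2029 _))
                   (CovZ.n1 (81342, 82206) (by decide +kernel)
                    (CovZ.leaf K2_ok TI_l2030 _)
                    (CovZ.n1 (81342, 82188) (by decide +kernel)
                     (CovZ.leaf K3_ok TI_l2031 _)
                     (CovZ.leaf K2_ok TI_l2032 _))))
                  (CovZ.subM 356813284311190515696169266164498339071000576 (by decide +kernel)
                   (CovZ.n1 (81324, 82152) (by decide +kernel)
                    (CovZ.n2 (81306, 82170) (by decide +kernel)
                     (CovZ.n2 (81324, 82170) (by decide +kernel)
                      (CovZ.n2 (81315, 82161) (by decide +kernel)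
                       (CovZ.leaf K2_ok TI_l2033 _)
                       (CovZ.leaf K2_ok TI_l2034 _))
                      (CovZ.leaf K2_ok TI_l2035 _))
                     (CovZ.n1 (81306, 82152) (by decide +kernel)
                      (CovZ.badM (by decide +kernel))
                      (CovZ.n1 (81315, 82161) (by decide +kernel)
                       (CovZ.leaf K2_ok TI_l2036 _)
                       (CovZ.leaf K2_ok TI_l2037 _))))
                    (CovZ.n1 (81342, 82170) (by decide +kernel)
                     (CovZ.n2 (81342, 82152) (by decide +kernel)
                      (CovZ.leaf K2_ok TI_l2038 _)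
                      (CovZ.leaf K2_ok TI_l2039 _))
                     (CovZ.n1 (81324, 82170) (by decide +kernel)
                      (CovZ.leaf K2_ok TI_l2040 _)
                      (CovZ.leaf K2_ok TI_l2041 _)))))))
                (CovZ.badM (by decide +kernel)))
               (CovZ.n1 (81432, 82152) (by decide +kernel)
                (CovZ.subM 356824173679238984673229062377887920723853440 (by decide +kernel)
                 (CovZ.n2 (81432, 82080) (by decide +kernel)
                  (CovZ.n2 (81396, 82116) (by decide +kernel)
                   (CovZ.n2 (81432, 82116) (by decide +kernel)
                    (CovZ.badM (by decide +kernel))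
                    (CovZ.n1 (81414, 82134) (by decide +kernel)
                     (CovZ.n2 (81432, 82134) (by decide +kernel)
                      (CovZ.n2 (81423, 82125) (by decide +kernel)
                       (CovZ.leaf K2_ok TI_l2042 _)
                       (CovZ.leaf K2_ok TI_l2043 _))
                      (CovZ.leaf K2_ok TI_l2044 _))
                     (CovZ.n1 (81414, 82116) (by decide +kernel)
                      (CovZ.leaf K2_ok TI_l2045 _)
                      (CovZ.leaf K2_ok TI_l2046 _))))
                   (CovZ.badM (by decide +kernel)))
                  (CovZ.n1 (81468, 82116) (by decide +kernel)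
                   (CovZ.subM 140737488355328 (by decide +kernel)
                    (CovZ.n2 (81468, 82080) (by decide +kernel)
                     (CovZ.n2 (81450, 82098) (by decide +kernel)
                      (CovZ.n2 (81468, 82098) (by decide +kernel)
                       (CovZ.badM (by decide +kernel))
                       (CovZ.leaf K2_ok TI_l2047 _))
                      (CovZ.badM (by decide +kernel)))
                     (CovZ.n1 (81486, 82098) (by decide +kernel)
                      (CovZ.badM (by decide +kernel))
                      (CovZ.leaf K2_ok TI_l2048 _))))
                   (CovZ.n1 (81432, 82116) (by decide +kernel)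
                    (CovZ.n2 (81450, 82134) (by decide +kernel)
                     (CovZ.n2 (81450, 82116) (by decide +kernel)
                      (CovZ.leaf K2_ok TI_l2049 _)
                      (CovZ.leaf K2_ok TI_l2050 _))
                     (CovZ.leaf K2_ok TI_l2051 _))
                    (CovZ.n1 (81450, 82098) (by decide +kernel)
                     (CovZ.badM (by decide +kernel))
                     (CovZ.n1 (81450, 82116) (by decide +kernel)
                      (CovZ.leaf K2_ok TI_l2052 _)
                      (CovZ.badM (by decide +kernel))))))))
                (CovZ.n1 (81360, 82152) (by decide +kernel)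
                 (CovZ.n2 (81396, 82188) (by decide +kernel)
                  (CovZ.n2 (81396, 82152) (by decide +kernel)
                   (CovZ.n2 (81378, 82170) (by decide +kernel)
                    (CovZ.leaf K2_ok TI_l2053 _)
                    (CovZ.n1 (81378, 82152) (by decide +kernel)
                     (CovZ.leaf K2_ok TI_l2054 _)
                     (CovZ.leaf K2_ok TI_l2055 _)))
                   (CovZ.n1 (81414, 82170) (by decide +kernel)
                    (CovZ.leaf K2_ok TI_l2056 _)
                    (CovZ.leaf K2_ok TI_l2057 _)))
                  (CovZ.n1 (81360, 82188) (by decide +kernel)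
                   (CovZ.n2 (81378, 82206) (by decide +kernel)
                    (CovZ.leaf K2_ok TI_l2058 _)
                    (CovZ.leaf K2_ok TI_l2059 _))
                   (CovZ.leaf K2_ok TI_l2060 _)))
                 (CovZ.subM 356824173679238984673229062377887920723853440 (by decide +kernel)
                  (CovZ.n1 (81396, 82116) (by decide +kernel)
                   (CovZ.n2 (81360, 82116) (by decide +kernel)
                    (CovZ.n2 (81378, 82134) (by decide +kernel)
                     (CovZ.badM (by decide +kernel))
                     (CovZ.leaf K2_ok TI_l2061 _))
                    (CovZ.badM (by decide +kernel)))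
                   (CovZ.n1 (81396, 82152) (by decide +kernel)
                    (CovZ.leaf K2_ok TI_l2062 _)
                    (CovZ.subM 1361134659980612390470461276660472741888 (by decide +kernel)
                     (CovZ.n1 (81378, 82134) (by decide +kernel)
                      (CovZ.n2 (81378, 82152) (by decide +kernel)
                       (CovZ.leaf K2_ok TI_l2063 _)
                       (CovZ.leaf K2_ok TI_l2064 _))
                      (CovZ.n1 (81396, 82134) (by decide +kernel)
                       (CovZ.badM (by decide +kernel))
                       (CovZ.n1 (81387, 82143) (by decide +kernel)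
                        (CovZ.leaf K2_ok TI_l2065 _)
                        (CovZ.leaf K2_ok TI_l2066 _))))))))))))
             (CovZ.n1 (81216, 82224) (by decide +kernel)
              (CovZ.n2 (81288, 82296) (by decide +kernel)
               (CovZ.subM 1499501039687588286345494273636853472694623910495238 (by decide +kernel)
                (CovZ.n2 (81288, 82224) (by decide +kernel)
                 (CovZ.n2 (81252, 82260) (by decide +kernel)
                  (CovZ.n2 (81288, 82260) (by decide +kernel)
                   (CovZ.n2 (81270, 82242) (by decide +kernel)
                    (CovZ.leaf K2_ok TI_l2067 _)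
                    (CovZ.leaf K2_ok TI_l2068 _))
                   (CovZ.n1 (81270, 82278) (by decide +kernel)
                    (CovZ.leaf K2_ok TI_l2069 _)
                    (CovZ.leaf K2_ok TI_l2070 _)))
                  (CovZ.subM 356824258765407625291701308229186369083146246 (by decide +kernel)
                   (CovZ.n1 (81252, 82224) (by decide +kernel)
                    (CovZ.n2 (81234, 82242) (by decide +kernel)
                     (CovZ.n2 (81252, 82242) (by decide +kernel)
                      (CovZ.leaf K2_ok TI_l2071 _)
                      (CovZ.leaf K2_ok TI_l2072 _))
                     (CovZ.n1 (81234, 82224) (by decide +kernel)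
                      (CovZ.leaf K2_ok TI_l2073 _)
                      (CovZ.leaf K2_ok TI_l2074 _)))
                    (CovZ.n1 (81270, 82242) (by decide +kernel)
                     (CovZ.leaf K2_ok TI_l2075 _)
                     (CovZ.n1 (81252, 82242) (by decide +kernel)
                      (CovZ.n2 (81261, 82251) (by decide +kernel)
                       (CovZ.leaf K2_ok TI_l2076 _)
                       (CovZ.leaf K2_ok TI_l2077 _))
                      (CovZ.leaf K2_ok TI_l2078 _))))))
                 (CovZ.n1 (81324, 82260) (by decide +kernel)
                  (CovZ.n2 (81324, 82224) (by decide +kernel)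
                   (CovZ.n2 (81306, 82242) (by decide +kernel)
                    (CovZ.leaf K2_ok TI_l2079 _)
                    (CovZ.leaf K2_ok TI_l2080 _))
                   (CovZ.n1 (81342, 82242) (by decide +kernel)
                    (CovZ.leaf K2_ok TI_l2081 _)
                    (CovZ.leaf K2_ok TI_l2082 _)))
                  (CovZ.n1 (81288, 82260) (by decide +kernel)
                   (CovZ.n2 (81306, 82278) (by decide +kernel)
                    (CovZ.leaf K2_ok TI_l2083 _)
                    (CovZ.leaf K2_ok TI_l2084 _))
                   (CovZ.leaf K2_ok TI_l2085 _)))))
               (CovZ.subM 196172901377549686990862007533653987840817759277918716934 (by decide +kernel)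
                (CovZ.n1 (81216, 82296) (by decide +kernel)
                 (CovZ.n2 (81252, 82332) (by decide +kernel)
                  (CovZ.n2 (81252, 82296) (by decide +kernel)
                   (CovZ.leaf K2_ok TI_l2086 _)
                   (CovZ.n1 (81270, 82314) (by decide +kernel)
                    (CovZ.leaf K2_ok TI_l2087 _)
                    (CovZ.leaf K2_ok TI_l2088 _)))
                  (CovZ.leaf K2_ok TI_l2089 _))
                 (CovZ.n1 (81252, 82260) (by decide +kernel)
                  (CovZ.subM 356824264165396368081113762887228771952231430 (by decide +kernel)
                   (CovZ.n2 (81216, 82260) (by decide +kernel)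
                    (CovZ.n2 (81234, 82278) (by decide +kernel)
                     (CovZ.n2 (81234, 82260) (by decide +kernel)
                      (CovZ.leaf K2_ok TI_l2090 _)
                      (CovZ.leaf K2_ok TI_l2091 _))
                     (CovZ.leaf K2_ok TI_l2092 _))
                    (CovZ.leaf K2_ok TI_l2093 _)))
                  (CovZ.n1 (81252, 82296) (by decide +kernel)
                   (CovZ.leaf K2_ok TI_l2094 _)
                   (CovZ.n1 (81234, 82278) (by decide +kernel)
                    (CovZ.leaf K2_ok TI_l2095 _)
                    (CovZ.leaf K2_ok TI_l2096 _)))))))
              (CovZ.subM 356824264149819457698468669882438245532303366 (by decide +kernel)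
               (CovZ.n1 (81288, 82152) (by decide +kernel)
                (CovZ.badM (by decide +kernel))
                (CovZ.n1 (81288, 82224) (by decide +kernel)
                 (CovZ.n2 (81324, 82188) (by decide +kernel)
                  (CovZ.subM 356824173679238984674440349380743984721166336 (by decide +kernel)
                   (CovZ.n2 (81288, 82188) (by decide +kernel)
                    (CovZ.n2 (81306, 82206) (by decide +kernel)
                     (CovZ.n2 (81306, 82188) (by decide +kernel)
                      (CovZ.leaf K2_ok TI_l2097 _)
                      (CovZ.leaf K2_ok TI_l2098 _))
                     (CovZ.leaf K2_ok TI_l2099 _))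
                    (CovZ.n1 (81306, 82170) (by decide +kernel)
                     (CovZ.badM (by decide +kernel))
                     (CovZ.leaf K2_ok TI_l2100 _))))
                  (CovZ.n1 (81324, 82224) (by decide +kernel)
                   (CovZ.leaf K2_ok TI_l2101 _)
                   (CovZ.n1 (81306, 82206) (by decide +kernel)
                    (CovZ.leaf K2_ok TI_l2102 _)
                    (CovZ.n1 (81324, 82206) (by decide +kernel)
                     (CovZ.leaf K2_ok TI_l2103 _)
                     (CovZ.leaf K2_ok TI_l2104 _)))))
                 (CovZ.subM 356824173674046687815905503305328127438225408 (by decide +kernel)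
                  (CovZ.n1 (81252, 82188) (by decide +kernel)
                   (CovZ.n2 (81252, 82224) (by decide +kernel)
                    (CovZ.leaf K2_ok TI_l2105 _)
                    (CovZ.n1 (81234, 82206) (by decide +kernel)
                     (CovZ.leaf K2_ok TI_l2106 _)
                     (CovZ.n1 (81252, 82206) (by decide +kernel)
                      (CovZ.badM (by decide +kernel))
                      (CovZ.leaf K2_ok TI_l2107 _))))
                   (CovZ.n1 (81288, 82188) (by decide +kernel)
                    (CovZ.badM (by decide +kernel))
                    (CovZ.n1 (81270, 82206) (by decide +kernel)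
                     (CovZ.n2 (81288, 82206) (by decide +kernel)
                      (CovZ.leaf K2_ok TI_l2108 _)
                      (CovZ.leaf K2_ok TI_l2109 _))
                     (CovZ.badM (by decide +kernel)))))))))))
            (CovZ.badM (by decide +kernel))))

theorem TI_u35 : CovZ TI_M (toL (selN TI_LN 588491759839228385443490863468815840789533626172620932102)) [0, 7, 6, 1] (80640, 82368) (80928, 82368) (80928, 82656) :=
    (CovZ.n2 (80784, 82512) (by decide +kernel)
             (CovZ.n2 (80928, 82512) (by decide +kernel)
              (CovZ.subM 196159429254026550322976520487391348855997959776604521478 (by decide +kernel)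
               (CovZ.n2 (80856, 82440) (by decide +kernel)
                (CovZ.n2 (80856, 82512) (by decide +kernel)
                 (CovZ.leaf K2_ok TI_l2110 _)
                 (CovZ.n1 (80820, 82476) (by decide +kernel)
                  (CovZ.leaf K2_ok TI_l2111 _)
                  (CovZ.n1 (80856, 82476) (by decide +kernel)
                   (CovZ.leaf K2_ok TI_l2112 _)
                   (CovZ.leaf K2_ok TI_l2113 _))))
                (CovZ.n1 (80928, 82440) (by decide +kernel)
                 (CovZ.n2 (80892, 82404) (by decide +kernel)
                  (CovZ.n2 (80892, 82440) (by decide +kernel)
                   (CovZ.leaf K2_ok TI_l2114 _)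
                   (CovZ.n1 (80874, 82422) (by decide +kernel)
                    (CovZ.leaf K2_ok TI_l2115 _)
                    (CovZ.leaf K2_ok TI_l2116 _)))
                  (CovZ.n1 (80928, 82404) (by decide +kernel)
                   (CovZ.n2 (80910, 82386) (by decide +kernel)
                    (CovZ.leaf K2_ok TI_l2117 _)
                    (CovZ.leaf K2_ok TI_l2118 _))
                   (CovZ.n1 (80910, 82422) (by decide +kernel)
                    (CovZ.leaf K2_ok TI_l2119 _)
                    (CovZ.leaf K2_ok TI_l2120 _))))
                 (CovZ.n1 (80892, 82476) (by decide +kernel)
                  (CovZ.n2 (80928, 82476) (by decide +kernel)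
                   (CovZ.leaf K2_ok TI_l2121 _)
                   (CovZ.leaf K2_ok TI_l2122 _))
                  (CovZ.n1 (80892, 82440) (by decide +kernel)
                   (CovZ.leaf K2_ok TI_l2123 _)
                   (CovZ.leaf K2_ok TI_l2124 _))))))
              (CovZ.n1 (80856, 82584) (by decide +kernel)
               (CovZ.n2 (80928, 82584) (by decide +kernel)
                (CovZ.n2 (80892, 82548) (by decide +kernel)
                 (CovZ.leaf K2_ok TI_l2125 _)
                 (CovZ.leaf K2_ok TI_l2126 _))
                (CovZ.n1 (80892, 82620) (by decide +kernel)
                 (CovZ.leaf K2_ok TI_l2127 _)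
                 (CovZ.n1 (80892, 82584) (by decide +kernel)
                  (CovZ.leaf K2_ok TI_l2128 _)
                  (CovZ.leaf K2_ok TI_l2129 _))))
               (CovZ.n1 (80856, 82512) (by decide +kernel)
                (CovZ.n2 (80820, 82548) (by decide +kernel)
                 (CovZ.leaf K2_ok TI_l2130 _)
                 (CovZ.n1 (80820, 82512) (by decide +kernel)
                  (CovZ.leaf K3_ok TI_l2131 _)
                  (CovZ.leaf K2_ok TI_l2132 _)))
                (CovZ.n1 (80892, 82548) (by decide +kernel)
                 (CovZ.n2 (80892, 82512) (by decide +kernel)
                  (CovZ.leaf K2_ok TI_l2133 _)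
                  (CovZ.leaf K2_ok TI_l2134 _))
                 (CovZ.leaf K3_ok TI_l2135 _)))))
             (CovZ.subM 356812008662465478892536955533433512554136582 (by decide +kernel)
              (CovZ.n1 (80784, 82368) (by decide +kernel)
               (CovZ.n2 (80712, 82440) (by decide +kernel)
                (CovZ.n2 (80784, 82440) (by decide +kernel)
                 (CovZ.subM 83010348331961417728 (by decide +kernel)
                  (CovZ.n2 (80748, 82404) (by decide +kernel)
                   (CovZ.n2 (80748, 82440) (by decide +kernel)
                    (CovZ.n2 (80766, 82422) (by decide +kernel)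
                     (CovZ.leaf K2_ok TI_l2136 _)
                     (CovZ.n1 (80766, 82440) (by decide +kernel)
                      (CovZ.leaf K2_ok TI_l2137 _)
                      (CovZ.leaf K2_ok TI_l2138 _)))
                    (CovZ.n1 (80730, 82422) (by decide +kernel)
                     (CovZ.n2 (80730, 82440) (by decide +kernel)
                      (CovZ.leaf K2_ok TI_l2139 _)
                      (CovZ.n1 (80721, 82431) (by decide +kernel)
                       (CovZ.leaf K2_ok TI_l2140 _)
                       (CovZ.leaf K3_ok TI_l2141 _)))
                     (CovZ.n1 (80748, 82422) (by decide +kernel)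
                      (CovZ.leaf K2_ok TI_l2142 _)
                      (CovZ.leaf K2_ok TI_l2143 _))))
                   (CovZ.n1 (80784, 82404) (by decide +kernel)
                    (CovZ.n2 (80766, 82386) (by decide +kernel)
                     (CovZ.n2 (80766, 82404) (by decide +kernel)
                      (CovZ.leaf K2_ok TI_l2144 _)
                      (CovZ.badM (by decide +kernel)))
                     (CovZ.n1 (80784, 82386) (by decide +kernel)
                      (CovZ.badM (by decide +kernel))
                      (CovZ.leaf K2_ok TI_l2145 _)))
                    (CovZ.n1 (80766, 82422) (by decide +kernel)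
                     (CovZ.n2 (80784, 82422) (by decide +kernel)
                      (CovZ.n2 (80775, 82413) (by decide +kernel)
                       (CovZ.leaf K2_ok TI_l2146 _)
                       (CovZ.leaf K2_ok TI_l2147 _))
                      (CovZ.leaf K3_ok TI_l2148 _))
                     (CovZ.n1 (80766, 82404) (by decide +kernel)
                      (CovZ.leaf K2_ok TI_l2149 _)
                      (CovZ.leaf K2_ok TI_l2150 _))))))
                 (CovZ.n1 (80748, 82476) (by decide +kernel)
                  (CovZ.n2 (80784, 82476) (by decide +kernel)
                   (CovZ.n2 (80766, 82458) (by decide +kernel)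
                    (CovZ.leaf K2_ok TI_l2151 _)
                    (CovZ.leaf K2_ok TI_l2152 _))
                   (CovZ.n1 (80766, 82494) (by decide +kernel)
                    (CovZ.leaf K2_ok TI_l2153 _)
                    (CovZ.leaf K2_ok TI_l2154 _)))
                  (CovZ.subM 85153668479971173190912739930984677380 (by decide +kernel)
                   (CovZ.n1 (80748, 82440) (by decide +kernel)
                    (CovZ.n2 (80730, 82458) (by decide +kernel)
                     (CovZ.leaf K2_ok TI_l2155 _)
                     (CovZ.n1 (80730, 82440) (by decide +kernel)
                      (CovZ.leaf K2_ok TI_l2156 _)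
                      (CovZ.leaf K2_ok TI_l2157 _)))
                    (CovZ.n1 (80766, 82458) (by decide +kernel)
                     (CovZ.leaf K2_ok TI_l2158 _)
                     (CovZ.leaf K2_ok TI_l2159 _))))))
                (CovZ.badM (by decide +kernel)))
               (CovZ.n1 (80856, 82440) (by decide +kernel)
                (CovZ.n2 (80856, 82368) (by decide +kernel)
                 (CovZ.n2 (80820, 82404) (by decide +kernel)
                  (CovZ.n2 (80856, 82404) (by decide +kernel)
                   (CovZ.n2 (80838, 82386) (by decide +kernel)
                    (CovZ.leaf K2_ok TI_l2160 _)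
                    (CovZ.leaf K2_ok TI_l2161 _))
                   (CovZ.n1 (80838, 82422) (by decide +kernel)
                    (CovZ.leaf K2_ok TI_l2162 _)
                    (CovZ.leaf K2_ok TI_l2163 _)))
                  (CovZ.subM 73786976294838206464 (by decide +kernel)
                   (CovZ.n1 (80820, 82368) (by decide +kernel)
                    (CovZ.n2 (80802, 82386) (by decide +kernel)
                     (CovZ.n2 (80820, 82386) (by decide +kernel)
                      (CovZ.badM (by decide +kernel))
                      (CovZ.leaf K2_ok TI_l2164 _))
                     (CovZ.badM (by decide +kernel)))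
                    (CovZ.n1 (80838, 82386) (by decide +kernel)
                     (CovZ.badM (by decide +kernel))
                     (CovZ.n1 (80820, 82386) (by decide +kernel)
                      (CovZ.leaf K2_ok TI_l2165 _)
                      (CovZ.badM (by decide +kernel)))))))
                 (CovZ.n1 (80892, 82404) (by decide +kernel)
                  (CovZ.subM 356812008247081700499187441216373973999157248 (by decide +kernel)
                   (CovZ.n2 (80892, 82368) (by decide +kernel)
                    (CovZ.n2 (80874, 82386) (by decide +kernel)
                     (CovZ.leaf K2_ok TI_l2166 _)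
                     (CovZ.badM (by decide +kernel)))
                    (CovZ.n1 (80910, 82386) (by decide +kernel)
                     (CovZ.badM (by decide +kernel))
                     (CovZ.leaf K2_ok TI_l2167 _))))
                  (CovZ.n1 (80856, 82404) (by decide +kernel)
                   (CovZ.n2 (80874, 82422) (by decide +kernel)
                    (CovZ.leaf K2_ok TI_l2168 _)
                    (CovZ.leaf K2_ok TI_l2169 _))
                   (CovZ.leaf K2_ok TI_l2170 _))))
                (CovZ.n1 (80784, 82440) (by decide +kernel)
                 (CovZ.n2 (80820, 82476) (by decide +kernel)
                  (CovZ.n2 (80820, 82440) (by decide +kernel)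
                   (CovZ.n2 (80802, 82458) (by decide +kernel)
                    (CovZ.leaf K2_ok TI_l2171 _)
                    (CovZ.leaf K2_ok TI_l2172 _))
                   (CovZ.n1 (80838, 82458) (by decide +kernel)
                    (CovZ.leaf K2_ok TI_l2173 _)
                    (CovZ.leaf K2_ok TI_l2174 _)))
                  (CovZ.n1 (80784, 82476) (by decide +kernel)
                   (CovZ.leaf K2_ok TI_l2175 _)
                   (CovZ.leaf K2_ok TI_l2176 _)))
                 (CovZ.n1 (80820, 82404) (by decide +kernel)
                  (CovZ.n2 (80784, 82404) (by decide +kernel)
                   (CovZ.n2 (80802, 82422) (by decide +kernel)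
                    (CovZ.leaf K2_ok TI_l2177 _)
                    (CovZ.leaf K2_ok TI_l2178 _))
                   (CovZ.leaf K2_ok TI_l2179 _))
                  (CovZ.n1 (80820, 82440) (by decide +kernel)
                   (CovZ.leaf K2_ok TI_l2180 _)
                   (CovZ.n1 (80802, 82422) (by decide +kernel)
                    (CovZ.n2 (80802, 82440) (by decide +kernel)
                     (CovZ.leaf K2_ok TI_l2181 _)
                     (CovZ.leaf K2_ok TI_l2182 _))
                    (CovZ.leaf K2_ok TI_l2183 _)))))))))

theorem TI_u36 : CovZ TI_M (toL (selN TI_LN 588491759839228385443490863468815840789533626172620932102)) [0, 7, 6, 1] (80928, 82368) (81216, 82368) (80928, 82656) :=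
    (CovZ.n1 (81072, 82512) (by decide +kernel)
             (CovZ.n2 (81072, 82368) (by decide +kernel)
              (CovZ.n2 (81000, 82440) (by decide +kernel)
               (CovZ.n2 (81072, 82440) (by decide +kernel)
                (CovZ.n2 (81036, 82404) (by decide +kernel)
                 (CovZ.leaf K2_ok TI_l2184 _)
                 (CovZ.n1 (81072, 82404) (by decide +kernel)
                  (CovZ.n2 (81054, 82386) (by decide +kernel)
                   (CovZ.leaf K2_ok TI_l2185 _)
                   (CovZ.leaf K2_ok TI_l2186 _))
                  (CovZ.leaf K2_ok TI_l2187 _)))
                (CovZ.n1 (81036, 82476) (by decide +kernel)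
                 (CovZ.leaf K2_ok TI_l2188 _)
                 (CovZ.n1 (81036, 82440) (by decide +kernel)
                  (CovZ.leaf K2_ok TI_l2189 _)
                  (CovZ.leaf K2_ok TI_l2190 _))))
               (CovZ.subM 2923360262261507354825912032772311453847271769094 (by decide +kernel)
                (CovZ.n1 (81000, 82368) (by decide +kernel)
                 (CovZ.n2 (80964, 82404) (by decide +kernel)
                  (CovZ.n2 (81000, 82404) (by decide +kernel)
                   (CovZ.n2 (80982, 82386) (by decide +kernel)
                    (CovZ.leaf K2_ok TI_l2191 _)
                    (CovZ.leaf K2_ok TI_l2192 _))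
                   (CovZ.leaf K2_ok TI_l2193 _))
                  (CovZ.subM 356812008683234656423155868754164966982943750 (by decide +kernel)
                   (CovZ.n1 (80964, 82368) (by decide +kernel)
                    (CovZ.n2 (80946, 82386) (by decide +kernel)
                     (CovZ.leaf K2_ok TI_l2194 _)
                     (CovZ.leaf K2_ok TI_l2195 _))
                    (CovZ.n1 (80982, 82386) (by decide +kernel)
                     (CovZ.leaf K2_ok TI_l2196 _)
                     (CovZ.leaf K2_ok TI_l2197 _)))))
                 (CovZ.n1 (81036, 82404) (by decide +kernel)
                  (CovZ.n2 (81036, 82368) (by decide +kernel)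
                   (CovZ.n2 (81018, 82386) (by decide +kernel)
                    (CovZ.leaf K2_ok TI_l2198 _)
                    (CovZ.leaf K2_ok TI_l2199 _))
                   (CovZ.n1 (81054, 82386) (by decide +kernel)
                    (CovZ.leaf K2_ok TI_l2200 _)
                    (CovZ.leaf K2_ok TI_l2201 _)))
                  (CovZ.n1 (81000, 82404) (by decide +kernel)
                   (CovZ.leaf K2_ok TI_l2202 _)
                   (CovZ.leaf K2_ok TI_l2203 _))))))
              (CovZ.n1 (81144, 82440) (by decide +kernel)
               (CovZ.n2 (81144, 82368) (by decide +kernel)
                (CovZ.n2 (81108, 82404) (by decide +kernel)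
                 (CovZ.n2 (81144, 82404) (by decide +kernel)
                  (CovZ.leaf K2_ok TI_l2204 _)
                  (CovZ.leaf K2_ok TI_l2205 _))
                 (CovZ.n1 (81108, 82368) (by decide +kernel)
                  (CovZ.leaf K3_ok TI_l2206 _)
                  (CovZ.leaf K2_ok TI_l2207 _)))
                (CovZ.n1 (81180, 82404) (by decide +kernel)
                 (CovZ.n2 (81180, 82368) (by decide +kernel)
                  (CovZ.leaf K2_ok TI_l2208 _)
                  (CovZ.leaf K2_ok TI_l2209 _))
                 (CovZ.leaf K2_ok TI_l2210 _)))
               (CovZ.n1 (81072, 82440) (by decide +kernel)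
                (CovZ.n2 (81108, 82476) (by decide +kernel)
                 (CovZ.n2 (81108, 82440) (by decide +kernel)
                  (CovZ.leaf K2_ok TI_l2211 _)
                  (CovZ.leaf K2_ok TI_l2212 _))
                 (CovZ.leaf K2_ok TI_l2213 _))
                (CovZ.leaf K2_ok TI_l2214 _))))
             (CovZ.n1 (80928, 82512) (by decide +kernel)
              (CovZ.n2 (81000, 82584) (by decide +kernel)
               (CovZ.n2 (81000, 82512) (by decide +kernel)
                (CovZ.n2 (80964, 82548) (by decide +kernel)
                 (CovZ.leaf K2_ok TI_l2215 _)
                 (CovZ.n1 (80964, 82512) (by decide +kernel)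
                  (CovZ.leaf K2_ok TI_l2216 _)
                  (CovZ.leaf K2_ok TI_l2217 _)))
                (CovZ.n1 (81036, 82548) (by decide +kernel)
                 (CovZ.leaf K2_ok TI_l2218 _)
                 (CovZ.leaf K2_ok TI_l2219 _)))
               (CovZ.n1 (80928, 82584) (by decide +kernel)
                (CovZ.leaf K2_ok TI_l2220 _)
                (CovZ.leaf K2_ok TI_l2221 _)))
              (CovZ.n1 (81000, 82440) (by decide +kernel)
               (CovZ.subM 196159429254026550322976520487391348855997959776604521478 (by decide +kernel)
                (CovZ.n2 (80928, 82440) (by decide +kernel)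
                 (CovZ.n2 (80964, 82476) (by decide +kernel)
                  (CovZ.n2 (80964, 82440) (by decide +kernel)
                   (CovZ.leaf K2_ok TI_l2222 _)
                   (CovZ.leaf K2_ok TI_l2223 _))
                  (CovZ.leaf K2_ok TI_l2224 _))
                 (CovZ.leaf K2_ok TI_l2225 _)))
               (CovZ.n1 (81000, 82512) (by decide +kernel)
                (CovZ.leaf K2_ok TI_l2226 _)
                (CovZ.n1 (80964, 82476) (by decide +kernel)
                 (CovZ.leaf K2_ok TI_l2227 _)
                 (CovZ.n1 (81000, 82476) (by decide +kernel)
                  (CovZ.leaf K2_ok TI_l2228 _)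
                  (CovZ.leaf K2_ok TI_l2229 _)))))))

theorem TI_u37 : CovZ TI_M (toL (selN TI_LN 588491759839228385443490863468815840789533626172620932102)) [0, 7, 6, 1] (80640, 82944) (80640, 82368) (81216, 82368) :=
    (CovZ.n2 (80928, 82656) (by decide +kernel)
           (CovZ.n2 (80928, 82368) (by decide +kernel)
            TI_u35
            TI_u36)
           (CovZ.n1 (80640, 82656) (by decide +kernel)
            (CovZ.n2 (80784, 82800) (by decide +kernel)
             (CovZ.n2 (80784, 82656) (by decide +kernel)
              (CovZ.subM 425467229915549916608297099780811654148 (by decide +kernel)
               (CovZ.n2 (80712, 82728) (by decide +kernel)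
                (CovZ.n2 (80784, 82728) (by decide +kernel)
                 (CovZ.leaf K3_ok TI_l2230 _)
                 (CovZ.leaf K2_ok TI_l2231 _))
                (CovZ.n1 (80712, 82656) (by decide +kernel)
                 (CovZ.n2 (80676, 82692) (by decide +kernel)
                  (CovZ.leaf K2_ok TI_l2232 _)
                  (CovZ.leaf K2_ok TI_l2233 _))
                 (CovZ.n1 (80748, 82692) (by decide +kernel)
                  (CovZ.leaf K2_ok TI_l2234 _)
                  (CovZ.leaf K2_ok TI_l2235 _)))))
              (CovZ.n1 (80856, 82728) (by decide +kernel)
               (CovZ.n2 (80856, 82656) (by decide +kernel)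
                (CovZ.n2 (80820, 82692) (by decide +kernel)
                 (CovZ.leaf K2_ok TI_l2236 _)
                 (CovZ.leaf K2_ok TI_l2237 _))
                (CovZ.leaf K2_ok TI_l2238 _))
               (CovZ.n1 (80784, 82728) (by decide +kernel)
                (CovZ.leaf K2_ok TI_l2239 _)
                (CovZ.leaf K2_ok TI_l2240 _))))
             (CovZ.subM 425467229915549916608297104178858165252 (by decide +kernel)
              (CovZ.n1 (80640, 82800) (by decide +kernel)
               (CovZ.n2 (80712, 82872) (by decide +kernel)
                (CovZ.n2 (80712, 82800) (by decide +kernel)
                 (CovZ.n2 (80676, 82836) (by decide +kernel)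
                  (CovZ.leaf K2_ok TI_l2241 _)
                  (CovZ.leaf K2_ok TI_l2242 _))
                 (CovZ.leaf K2_ok TI_l2243 _))
                (CovZ.leaf K2_ok TI_l2244 _))
               (CovZ.n1 (80712, 82728) (by decide +kernel)
                (CovZ.n2 (80640, 82728) (by decide +kernel)
                 (CovZ.leaf K2_ok TI_l2245 _)
                 (CovZ.leaf K2_ok TI_l2246 _))
                (CovZ.n1 (80712, 82800) (by decide +kernel)
                 (CovZ.leaf K2_ok TI_l2247 _)
                 (CovZ.n1 (80676, 82764) (by decide +kernel)
                  (CovZ.leaf K2_ok TI_l2248 _)
                  (CovZ.leaf K2_ok TI_l2249 _)))))))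
            (CovZ.n1 (80784, 82512) (by decide +kernel)
             (CovZ.subM 85153709054694281844482216569180521476 (by decide +kernel)
              (CovZ.n2 (80640, 82512) (by decide +kernel)
               (CovZ.n2 (80712, 82584) (by decide +kernel)
                (CovZ.n2 (80712, 82512) (by decide +kernel)
                 (CovZ.n2 (80676, 82548) (by decide +kernel)
                  (CovZ.n2 (80712, 82548) (by decide +kernel)
                   (CovZ.leaf K2_ok TI_l2250 _)
                   (CovZ.leaf K2_ok TI_l2251 _))
                  (CovZ.n1 (80676, 82512) (by decide +kernel)
                   (CovZ.n2 (80658, 82530) (by decide +kernel)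
                    (CovZ.leaf K2_ok TI_l2252 _)
                    (CovZ.leaf K2_ok TI_l2253 _))
                   (CovZ.leaf K2_ok TI_l2254 _)))
                 (CovZ.n1 (80748, 82548) (by decide +kernel)
                  (CovZ.n2 (80748, 82512) (by decide +kernel)
                   (CovZ.leaf K2_ok TI_l2255 _)
                   (CovZ.leaf K2_ok TI_l2256 _))
                  (CovZ.leaf K2_ok TI_l2257 _)))
                (CovZ.n1 (80640, 82584) (by decide +kernel)
                 (CovZ.n2 (80676, 82620) (by decide +kernel)
                  (CovZ.n2 (80676, 82584) (by decide +kernel)
                   (CovZ.leaf K2_ok TI_l2258 _)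
                   (CovZ.leaf K3_ok TI_l2259 _))
                  (CovZ.leaf K2_ok TI_l2260 _))
                 (CovZ.n1 (80676, 82548) (by decide +kernel)
                  (CovZ.n2 (80640, 82548) (by decide +kernel)
                   (CovZ.leaf K2_ok TI_l2261 _)
                   (CovZ.leaf K2_ok TI_l2262 _))
                  (CovZ.leaf K2_ok TI_l2263 _))))
               (CovZ.n1 (80712, 82440) (by decide +kernel)
                (CovZ.subM 85070591730234615948854000189635035136 (by decide +kernel)
                 (CovZ.n2 (80640, 82440) (by decide +kernel)
                  (CovZ.n2 (80676, 82476) (by decide +kernel)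
                   (CovZ.n2 (80676, 82440) (by decide +kernel)
                    (CovZ.n2 (80658, 82458) (by decide +kernel)
                     (CovZ.n2 (80676, 82458) (by decide +kernel)
                      (CovZ.badM (by decide +kernel))
                      (CovZ.leaf K2_ok TI_l2264 _))
                     (CovZ.badM (by decide +kernel)))
                    (CovZ.n1 (80694, 82458) (by decide +kernel)
                     (CovZ.badM (by decide +kernel))
                     (CovZ.leaf K2_ok TI_l2265 _)))
                   (CovZ.n1 (80640, 82476) (by decide +kernel)
                    (CovZ.n2 (80658, 82494) (by decide +kernel)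
                     (CovZ.n2 (80658, 82476) (by decide +kernel)
                      (CovZ.leaf K2_ok TI_l2266 _)
                      (CovZ.n1 (80667, 82485) (by decide +kernel)
                       (CovZ.leaf K2_ok TI_l2267 _)
                       (CovZ.leaf K2_ok TI_l2268 _)))
                     (CovZ.leaf K2_ok TI_l2269 _))
                    (CovZ.leaf K2_ok TI_l2270 _)))
                  (CovZ.badM (by decide +kernel))))
                (CovZ.n1 (80712, 82512) (by decide +kernel)
                 (CovZ.n2 (80748, 82476) (by decide +kernel)
                  (CovZ.n2 (80712, 82476) (by decide +kernel)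
                   (CovZ.n2 (80730, 82494) (by decide +kernel)
                    (CovZ.leaf K2_ok TI_l2271 _)
                    (CovZ.leaf K2_ok TI_l2272 _))
                   (CovZ.leaf K2_ok TI_l2273 _))
                  (CovZ.n1 (80748, 82512) (by decide +kernel)
                   (CovZ.leaf K2_ok TI_l2274 _)
                   (CovZ.n1 (80730, 82494) (by decide +kernel)
                    (CovZ.leaf K2_ok TI_l2275 _)
                    (CovZ.leaf K2_ok TI_l2276 _))))
                 (CovZ.subM 85153668479971173190912739930986775556 (by decide +kernel)
                  (CovZ.n1 (80676, 82476) (by decide +kernel)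
                   (CovZ.n2 (80676, 82512) (by decide +kernel)
                    (CovZ.leaf K2_ok TI_l2277 _)
                    (CovZ.n1 (80658, 82494) (by decide +kernel)
                     (CovZ.leaf K2_ok TI_l2278 _)
                     (CovZ.leaf K2_ok TI_l2279 _)))
                   (CovZ.n1 (80712, 82476) (by decide +kernel)
                    (CovZ.n2 (80694, 82458) (by decide +kernel)
                     (CovZ.leaf K2_ok TI_l2280 _)
                     (CovZ.n1 (80712, 82458) (by decide +kernel)
                      (CovZ.leaf K2_ok TI_l2281 _)
                      (CovZ.leaf K2_ok TI_l2282 _)))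
                    (CovZ.n1 (80694, 82494) (by decide +kernel)
                     (CovZ.leaf K2_ok TI_l2283 _)
                     (CovZ.n1 (80694, 82476) (by decide +kernel)
                      (CovZ.leaf K2_ok TI_l2284 _)
                      (CovZ.leaf K2_ok TI_l2285 _))))))))))
             (CovZ.n1 (80784, 82656) (by decide +kernel)
              (CovZ.n2 (80856, 82584) (by decide +kernel)
               (CovZ.n2 (80784, 82584) (by decide +kernel)
                (CovZ.n2 (80820, 82620) (by decide +kernel)
                 (CovZ.n2 (80820, 82584) (by decide +kernel)
                  (CovZ.leaf K2_ok TI_l2286 _)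
                  (CovZ.leaf K2_ok TI_l2287 _))
                 (CovZ.leaf K2_ok TI_l2288 _))
                (CovZ.leaf K2_ok TI_l2289 _))
               (CovZ.n1 (80856, 82656) (by decide +kernel)
                (CovZ.leaf K2_ok TI_l2290 _)
                (CovZ.n1 (80820, 82620) (by decide +kernel)
                 (CovZ.leaf K2_ok TI_l2291 _)
                 (CovZ.leaf K2_ok TI_l2292 _))))
              (CovZ.subM 85184862836154977000666365333291926532 (by decide +kernel)
               (CovZ.n1 (80712, 82584) (by decide +kernel)
                (CovZ.n2 (80712, 82656) (by decide +kernel)
                 (CovZ.leaf K2_ok TI_l2293 _)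
                 (CovZ.n1 (80676, 82620) (by decide +kernel)
                  (CovZ.leaf K2_ok TI_l2294 _)
                  (CovZ.leaf K2_ok TI_l2295 _)))
                (CovZ.n1 (80784, 82584) (by decide +kernel)
                 (CovZ.n2 (80748, 82548) (by decide +kernel)
                  (CovZ.leaf K2_ok TI_l2296 _)
                  (CovZ.n1 (80784, 82548) (by decide +kernel)
                   (CovZ.leaf K2_ok TI_l2297 _)
                   (CovZ.leaf K2_ok TI_l2298 _)))
                 (CovZ.n1 (80748, 82620) (by decide +kernel)
                  (CovZ.leaf K3_ok TI_l2299 _)
                  (CovZ.n1 (80748, 82584) (by decide +kernel)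
                   (CovZ.leaf K2_ok TI_l2300 _)
                   (CovZ.leaf K2_ok TI_l2301 _))))))))))

theorem TI_u38 : CovZ TI_M (toL (selN TI_LN 588491759839228385443490863468815840789533626172620932102)) [0, 7, 6, 1] (80640, 82368) (80640, 81792) (81216, 82368) :=
    (CovZ.n1 (80928, 82080) (by decide +kernel)
           (CovZ.badM (by decide +kernel))
           (CovZ.n1 (80928, 82368) (by decide +kernel)
            (CovZ.n2 (81072, 82224) (by decide +kernel)
             (CovZ.badM (by decide +kernel))
             (CovZ.n1 (81072, 82368) (by decide +kernel)
              (CovZ.n2 (81144, 82296) (by decide +kernel)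
               (CovZ.subM 356824258848484384930569938895468868258497542 (by decide +kernel)
                (CovZ.n2 (81072, 82296) (by decide +kernel)
                 (CovZ.n2 (81108, 82332) (by decide +kernel)
                  (CovZ.n2 (81108, 82296) (by decide +kernel)
                   (CovZ.n2 (81090, 82314) (by decide +kernel)
                    (CovZ.leaf K2_ok TI_l2302 _)
                    (CovZ.leaf K2_ok TI_l2303 _))
                   (CovZ.n1 (81126, 82314) (by decide +kernel)
                    (CovZ.leaf K2_ok TI_l2304 _)
                    (CovZ.leaf K3_ok TI_l2305 _)))
                  (CovZ.n1 (81072, 82332) (by decide +kernel)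
                   (CovZ.n2 (81090, 82350) (by decide +kernel)
                    (CovZ.leaf K2_ok TI_l2306 _)
                    (CovZ.leaf K2_ok TI_l2307 _))
                   (CovZ.leaf K2_ok TI_l2308 _)))
                 (CovZ.subM 356822812233000647536585210909069777909579776 (by decide +kernel)
                  (CovZ.n1 (81108, 82260) (by decide +kernel)
                   (CovZ.subM 20769207241179939080206383702867968 (by decide +kernel)
                    (CovZ.n2 (81072, 82260) (by decide +kernel)
                     (CovZ.n2 (81090, 82278) (by decide +kernel)
                      (CovZ.n2 (81090, 82260) (by decide +kernel)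
                       (CovZ.leaf K2_ok TI_l2309 _)
                       (CovZ.leaf K2_ok TI_l2310 _))
                      (CovZ.n1 (81072, 82278) (by decide +kernel)
                       (CovZ.leaf K2_ok TI_l2311 _)
                       (CovZ.leaf K2_ok TI_l2312 _)))
                     (CovZ.n1 (81090, 82242) (by decide +kernel)
                      (CovZ.n2 (81072, 82242) (by decide +kernel)
                       (CovZ.n2 (81081, 82251) (by decide +kernel)
                        (CovZ.badM (by decide +kernel))
                        (CovZ.leaf K2_ok TI_l2313 _))
                       (CovZ.badM (by decide +kernel)))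
                      (CovZ.n1 (81090, 82260) (by decide +kernel)
                       (CovZ.leaf K2_ok TI_l2314 _)
                       (CovZ.n1 (81081, 82251) (by decide +kernel)
                        (CovZ.leaf K2_ok TI_l2315 _)
                        (CovZ.leaf K2_ok TI_l2316 _))))))
                   (CovZ.n1 (81108, 82296) (by decide +kernel)
                    (CovZ.leaf K2_ok TI_l2317 _)
                    (CovZ.n1 (81090, 82278) (by decide +kernel)
                     (CovZ.leaf K2_ok TI_l2318 _)
                     (CovZ.n1 (81108, 82278) (by decide +kernel)
                      (CovZ.leaf K2_ok TI_l2319 _)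
                      (CovZ.leaf K2_ok TI_l2320 _))))))))
               (CovZ.n1 (81144, 82368) (by decide +kernel)
                (CovZ.n2 (81180, 82332) (by decide +kernel)
                 (CovZ.n2 (81144, 82332) (by decide +kernel)
                  (CovZ.leaf K2_ok TI_l2321 _)
                  (CovZ.leaf K2_ok TI_l2322 _))
                 (CovZ.leaf K2_ok TI_l2323 _))
                (CovZ.subM 2923360273150543096295944072443252273149143680006 (by decide +kernel)
                 (CovZ.n1 (81108, 82332) (by decide +kernel)
                  (CovZ.n2 (81108, 82368) (by decide +kernel)
                   (CovZ.leaf K2_ok TI_l2324 _)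
                   (CovZ.n1 (81090, 82350) (by decide +kernel)
                    (CovZ.leaf K2_ok TI_l2325 _)
                    (CovZ.leaf K2_ok TI_l2326 _)))
                  (CovZ.n1 (81144, 82332) (by decide +kernel)
                   (CovZ.n2 (81126, 82314) (by decide +kernel)
                    (CovZ.leaf K3_ok TI_l2327 _)
                    (CovZ.leaf K2_ok TI_l2328 _))
                   (CovZ.n1 (81126, 82350) (by decide +kernel)
                    (CovZ.leaf K2_ok TI_l2329 _)
                    (CovZ.leaf K2_ok TI_l2330 _)))))))
              (CovZ.subM 356813369812742914899739110763915863599875078 (by decide +kernel)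
               (CovZ.n1 (81000, 82296) (by decide +kernel)
                (CovZ.n2 (81000, 82368) (by decide +kernel)
                 (CovZ.n2 (81036, 82332) (by decide +kernel)
                  (CovZ.subM 356812008350927657476926900525961401830735878 (by decide +kernel)
                   (CovZ.n2 (81000, 82332) (by decide +kernel)
                    (CovZ.n2 (81018, 82350) (by decide +kernel)
                     (CovZ.n2 (81018, 82332) (by decide +kernel)
                      (CovZ.leaf K3_ok TI_l2331 _)
                      (CovZ.leaf K3_ok TI_l2332 _))
                     (CovZ.leaf K2_ok TI_l2333 _))
                    (CovZ.subM 356811923197259177505751431442580167798554624 (by decide +kernel)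
                     (CovZ.n1 (81018, 82314) (by decide +kernel)
                      (CovZ.badM (by decide +kernel))
                      (CovZ.n1 (81018, 82332) (by decide +kernel)
                       (CovZ.leaf K3_ok TI_l2334 _)
                       (CovZ.n1 (81009, 82323) (by decide +kernel)
                        (CovZ.leaf K3_ok TI_l2335 _)
                        (CovZ.leaf K2_ok TI_l2336 _)))))))
                  (CovZ.n1 (81036, 82368) (by decide +kernel)
                   (CovZ.leaf K2_ok TI_l2337 _)
                   (CovZ.n1 (81018, 82350) (by decide +kernel)
                    (CovZ.leaf K2_ok TI_l2338 _)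
                    (CovZ.n1 (81036, 82350) (by decide +kernel)
                     (CovZ.leaf K2_ok TI_l2339 _)
                     (CovZ.leaf K2_ok TI_l2340 _)))))
                 (CovZ.subM 356812008350927657476926900525961401830735878 (by decide +kernel)
                  (CovZ.n1 (80964, 82332) (by decide +kernel)
                   (CovZ.n2 (80964, 82368) (by decide +kernel)
                    (CovZ.leaf K2_ok TI_l2341 _)
                    (CovZ.n1 (80946, 82350) (by decide +kernel)
                     (CovZ.leaf K2_ok TI_l2342 _)
                     (CovZ.leaf K2_ok TI_l2343 _)))
                   (CovZ.n1 (81000, 82332) (by decide +kernel)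
                    (CovZ.badM (by decide +kernel))
                    (CovZ.n1 (80982, 82350) (by decide +kernel)
                     (CovZ.n2 (81000, 82350) (by decide +kernel)
                      (CovZ.leaf K3_ok TI_l2344 _)
                      (CovZ.leaf K2_ok TI_l2345 _))
                     (CovZ.badM (by decide +kernel)))))))
                (CovZ.n1 (81072, 82296) (by decide +kernel)
                 (CovZ.subM 20769207241179939080206383702867968 (by decide +kernel)
                  (CovZ.n2 (81036, 82260) (by decide +kernel)
                   (CovZ.n2 (81036, 82296) (by decide +kernel)
                    (CovZ.n2 (81054, 82278) (by decide +kernel)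
                     (CovZ.badM (by decide +kernel))
                     (CovZ.n1 (81054, 82296) (by decide +kernel)
                      (CovZ.leaf K2_ok TI_l2346 _)
                      (CovZ.n1 (81045, 82287) (by decide +kernel)
                       (CovZ.leaf K2_ok TI_l2347 _)
                       (CovZ.leaf K2_ok TI_l2348 _))))
                    (CovZ.badM (by decide +kernel)))
                   (CovZ.n1 (81072, 82260) (by decide +kernel)
                    (CovZ.n2 (81054, 82242) (by decide +kernel)
                     (CovZ.n2 (81054, 82260) (by decide +kernel)
                      (CovZ.leaf K2_ok TI_l2349 _)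
                      (CovZ.badM (by decide +kernel)))
                     (CovZ.n1 (81072, 82242) (by decide +kernel)
                      (CovZ.badM (by decide +kernel))
                      (CovZ.n1 (81063, 82251) (by decide +kernel)
                       (CovZ.leaf K2_ok TI_l2350 _)
                       (CovZ.badM (by decide +kernel)))))
                    (CovZ.n1 (81054, 82278) (by decide +kernel)
                     (CovZ.n2 (81072, 82278) (by decide +kernel)
                      (CovZ.leaf K2_ok TI_l2351 _)
                      (CovZ.leaf K2_ok TI_l2352 _))
                     (CovZ.n1 (81054, 82260) (by decide +kernel)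
                      (CovZ.badM (by decide +kernel))
                      (CovZ.n1 (81063, 82269) (by decide +kernel)
                       (CovZ.leaf K2_ok TI_l2353 _)
                       (CovZ.leaf K2_ok TI_l2354 _)))))))
                 (CovZ.n1 (81036, 82332) (by decide +kernel)
                  (CovZ.n2 (81072, 82332) (by decide +kernel)
                   (CovZ.n2 (81054, 82314) (by decide +kernel)
                    (CovZ.leaf K2_ok TI_l2355 _)
                    (CovZ.leaf K3_ok TI_l2356 _))
                   (CovZ.leaf K2_ok TI_l2357 _))
                  (CovZ.subM 356811923197259177505751431442580167798554624 (by decide +kernel)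
                   (CovZ.n1 (81036, 82296) (by decide +kernel)
                    (CovZ.n2 (81018, 82314) (by decide +kernel)
                     (CovZ.leaf K3_ok TI_l2358 _)
                     (CovZ.badM (by decide +kernel)))
                    (CovZ.n1 (81054, 82314) (by decide +kernel)
                     (CovZ.n2 (81054, 82296) (by decide +kernel)
                      (CovZ.leaf K3_ok TI_l2359 _)
                      (CovZ.leaf K3_ok TI_l2360 _))
                     (CovZ.leaf K3_ok TI_l2361 _))))))))))
            (CovZ.badM (by decide +kernel))))

theorem TI_u39 : CovZ TI_M (toL (selN TI_LN 3213863828553652858965688248979634076924844223867886407652751)) [0, 7, 6, 1] (81792, 81792) (82080, 82080) (81792, 82368) :=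
    (CovZ.n2 (81792, 82080) (by decide +kernel)
           (CovZ.n2 (81936, 82224) (by decide +kernel)
            (CovZ.n2 (81936, 82080) (by decide +kernel)
             (CovZ.n2 (81864, 82152) (by decide +kernel)
              (CovZ.n2 (81936, 82152) (by decide +kernel)
               (CovZ.n2 (81900, 82116) (by decide +kernel)
                (CovZ.leaf K2_ok TI_l2400 _)
                (CovZ.leaf K2_ok TI_l2401 _))
               (CovZ.n1 (81900, 82188) (by decide +kernel)
                (CovZ.leaf K2_ok TI_l2402 _)
                (CovZ.leaf K2_ok TI_l2403 _)))
              (CovZ.n1 (81864, 82080) (by decide +kernel)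
               (CovZ.n2 (81828, 82116) (by decide +kernel)
                (CovZ.n2 (81864, 82116) (by decide +kernel)
                 (CovZ.leaf K2_ok TI_l2404 _)
                 (CovZ.leaf K2_ok TI_l2405 _))
                (CovZ.n1 (81828, 82080) (by decide +kernel)
                 (CovZ.leaf K2_ok TI_l2406 _)
                 (CovZ.leaf K2_ok TI_l2407 _)))
               (CovZ.n1 (81900, 82116) (by decide +kernel)
                (CovZ.n2 (81900, 82080) (by decide +kernel)
                 (CovZ.leaf K2_ok TI_l2408 _)
                 (CovZ.leaf K2_ok TI_l2409 _))
                (CovZ.leaf K2_ok TI_l2410 _))))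
             (CovZ.n1 (82008, 82152) (by decide +kernel)
              (CovZ.n2 (82008, 82080) (by decide +kernel)
               (CovZ.n2 (81972, 82116) (by decide +kernel)
                (CovZ.leaf K2_ok TI_l2411 _)
                (CovZ.leaf K2_ok TI_l2412 _))
               (CovZ.n1 (82044, 82116) (by decide +kernel)
                (CovZ.leaf K2_ok TI_l2413 _)
                (CovZ.leaf K2_ok TI_l2414 _)))
              (CovZ.n1 (81936, 82152) (by decide +kernel)
               (CovZ.n2 (81972, 82188) (by decide +kernel)
                (CovZ.leaf K2_ok TI_l2415 _)
                (CovZ.leaf K2_ok TI_l2416 _))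
               (CovZ.leaf K2_ok TI_l2417 _))))
            (CovZ.n1 (81792, 82224) (by decide +kernel)
             (CovZ.n2 (81864, 82296) (by decide +kernel)
              (CovZ.n2 (81864, 82224) (by decide +kernel)
               (CovZ.n2 (81828, 82260) (by decide +kernel)
                (CovZ.leaf K2_ok TI_l2418 _)
                (CovZ.leaf K2_ok TI_l2419 _))
               (CovZ.n1 (81900, 82260) (by decide +kernel)
                (CovZ.leaf K3_ok TI_l2420 _)
                (CovZ.leaf K2_ok TI_l2421 _)))
              (CovZ.n1 (81792, 82296) (by decide +kernel)
               (CovZ.leaf K2_ok TI_l2422 _)
               (CovZ.leaf K2_ok TI_l2423 _)))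
             (CovZ.n1 (81864, 82152) (by decide +kernel)
              (CovZ.n2 (81792, 82152) (by decide +kernel)
               (CovZ.n2 (81828, 82188) (by decide +kernel)
                (CovZ.leaf K2_ok TI_l2424 _)
                (CovZ.leaf K2_ok TI_l2425 _))
               (CovZ.leaf K2_ok TI_l2426 _))
              (CovZ.n1 (81864, 82224) (by decide +kernel)
               (CovZ.leaf K2_ok TI_l2427 _)
               (CovZ.n1 (81828, 82188) (by decide +kernel)
                (CovZ.leaf K2_ok TI_l2428 _)
                (CovZ.leaf K2_ok TI_l2429 _))))))
           (CovZ.n1 (81936, 81936) (by decide +kernel)
            (CovZ.subM 1944292509151006537571229674618023813606590935204269765170571 (by decide +kernel)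
             (CovZ.n2 (81792, 81936) (by decide +kernel)
              (CovZ.n2 (81864, 82008) (by decide +kernel)
               (CovZ.subM 226325108880682962081315188317968434260851934573454736494731 (by decide +kernel)
                (CovZ.n2 (81864, 81936) (by decide +kernel)
                 (CovZ.n2 (81828, 81972) (by decide +kernel)
                  (CovZ.n2 (81864, 81972) (by decide +kernel)
                   (CovZ.n2 (81846, 81954) (by decide +kernel)
                    (CovZ.leaf K2_ok TI_l2430 _)
                    (CovZ.n1 (81864, 81954) (by decide +kernel)
                     (CovZ.leaf K2_ok TI_l2431 _)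
                     (CovZ.leaf K2_ok TI_l2432 _)))
                   (CovZ.n1 (81846, 81990) (by decide +kernel)
                    (CovZ.leaf K2_ok TI_l2433 _)
                    (CovZ.n1 (81846, 81972) (by decide +kernel)
                     (CovZ.leaf K2_ok TI_l2434 _)
                     (CovZ.leaf K2_ok TI_l2435 _))))
                  (CovZ.subM 26656359495118635473866913824235746916040704 (by decide +kernel)
                   (CovZ.n1 (81828, 81936) (by decide +kernel)
                    (CovZ.n2 (81810, 81954) (by decide +kernel)
                     (CovZ.n2 (81828, 81954) (by decide +kernel)
                      (CovZ.n2 (81819, 81945) (by decide +kernel)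
                       (CovZ.leaf K2_ok TI_l2436 _)
                       (CovZ.leaf K2_ok TI_l2437 _))
                      (CovZ.leaf K2_ok TI_l2438 _))
                     (CovZ.badM (by decide +kernel)))
                    (CovZ.n1 (81846, 81954) (by decide +kernel)
                     (CovZ.leaf K2_ok TI_l2439 _)
                     (CovZ.leaf K2_ok TI_l2440 _)))))
                 (CovZ.n1 (81900, 81972) (by decide +kernel)
                  (CovZ.subM 25163576781017921710603553304456239547336195769819379798152 (by decide +kernel)
                   (CovZ.n2 (81900, 81936) (by decide +kernel)
                    (CovZ.n2 (81882, 81954) (by decide +kernel)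
                     (CovZ.leaf K2_ok TI_l2441 _)
                     (CovZ.leaf K2_ok TI_l2442 _))
                    (CovZ.n1 (81918, 81954) (by decide +kernel)
                     (CovZ.n2 (81918, 81936) (by decide +kernel)
                      (CovZ.leaf K2_ok TI_l2443 _)
                      (CovZ.leaf K2_ok TI_l2444 _))
                     (CovZ.leaf K2_ok TI_l2445 _))))
                  (CovZ.n1 (81864, 81972) (by decide +kernel)
                   (CovZ.n2 (81882, 81990) (by decide +kernel)
                    (CovZ.leaf K2_ok TI_l2446 _)
                    (CovZ.leaf K2_ok TI_l2447 _))
                   (CovZ.n1 (81882, 81954) (by decide +kernel)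
                    (CovZ.leaf K2_ok TI_l2448 _)
                    (CovZ.leaf K2_ok TI_l2449 _))))))
               (CovZ.n1 (81792, 82008) (by decide +kernel)
                (CovZ.n2 (81828, 82044) (by decide +kernel)
                 (CovZ.n2 (81828, 82008) (by decide +kernel)
                  (CovZ.n2 (81810, 82026) (by decide +kernel)
                   (CovZ.leaf K2_ok TI_l2450 _)
                   (CovZ.leaf K2_ok TI_l2451 _))
                  (CovZ.n1 (81846, 82026) (by decide +kernel)
                   (CovZ.leaf K2_ok TI_l2452 _)
                   (CovZ.leaf K2_ok TI_l2453 _)))
                 (CovZ.n1 (81792, 82044) (by decide +kernel)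
                  (CovZ.leaf K2_ok TI_l2454 _)
                  (CovZ.leaf K2_ok TI_l2455 _)))
                (CovZ.subM 226325108880682962081315188317968434260851934573420376756363 (by decide +kernel)
                 (CovZ.n1 (81828, 81972) (by decide +kernel)
                  (CovZ.subM 26656359495118635783351923645580815640821760 (by decide +kernel)
                   (CovZ.n2 (81792, 81972) (by decide +kernel)
                    (CovZ.n2 (81810, 81990) (by decide +kernel)
                     (CovZ.n2 (81810, 81972) (by decide +kernel)
                      (CovZ.leaf K2_ok TI_l2456 _)
                      (CovZ.leaf K2_ok TI_l2457 _))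
                     (CovZ.leaf K2_ok TI_l2458 _))
                    (CovZ.n1 (81810, 81954) (by decide +kernel)
                     (CovZ.n2 (81792, 81954) (by decide +kernel)
                      (CovZ.leaf K2_ok TI_l2459 _)
                      (CovZ.badM (by decide +kernel)))
                     (CovZ.leaf K2_ok TI_l2460 _))))
                  (CovZ.n1 (81828, 82008) (by decide +kernel)
                   (CovZ.leaf K2_ok TI_l2461 _)
                   (CovZ.n1 (81810, 81990) (by decide +kernel)
                    (CovZ.leaf K2_ok TI_l2462 _)
                    (CovZ.leaf K2_ok TI_l2463 _)))))))
              (CovZ.subM 174224571863520493293247799005065324265472 (by decide +kernel)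
               (CovZ.n1 (81864, 81864) (by decide +kernel)
                (CovZ.badM (by decide +kernel))
                (CovZ.n1 (81864, 81936) (by decide +kernel)
                 (CovZ.n2 (81900, 81900) (by decide +kernel)
                  (CovZ.badM (by decide +kernel))
                  (CovZ.n1 (81900, 81936) (by decide +kernel)
                   (CovZ.badM (by decide +kernel))
                   (CovZ.n1 (81882, 81918) (by decide +kernel)
                    (CovZ.leaf K2_ok TI_l6771 _)
                    (CovZ.badM (by decide +kernel)))))
                 (CovZ.badM (by decide +kernel)))))))
            (CovZ.n1 (81936, 82080) (by decide +kernel)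
             (CovZ.n2 (82008, 82008) (by decide +kernel)
              (CovZ.n2 (81936, 82008) (by decide +kernel)
               (CovZ.n2 (81972, 82044) (by decide +kernel)
                (CovZ.n2 (81972, 82008) (by decide +kernel)
                 (CovZ.leaf K2_ok TI_l2464 _)
                 (CovZ.n1 (81990, 82026) (by decide +kernel)
                  (CovZ.leaf K2_ok TI_l2465 _)
                  (CovZ.leaf K2_ok TI_l2466 _)))
                (CovZ.leaf K2_ok TI_l2467 _))
               (CovZ.subM 3149499015765579978410813770505733778319866816625631974921611 (by decide +kernel)
                (CovZ.n1 (81972, 81972) (by decide +kernel)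
                 (CovZ.n2 (81936, 81972) (by decide +kernel)
                  (CovZ.n2 (81954, 81990) (by decide +kernel)
                   (CovZ.leaf K2_ok TI_l2468 _)
                   (CovZ.leaf K2_ok TI_l2469 _))
                  (CovZ.leaf K2_ok TI_l2470 _))
                 (CovZ.n1 (81972, 82008) (by decide +kernel)
                  (CovZ.leaf K2_ok TI_l2471 _)
                  (CovZ.n1 (81954, 81990) (by decide +kernel)
                   (CovZ.leaf K2_ok TI_l2472 _)
                   (CovZ.leaf K2_ok TI_l2473 _))))))
              (CovZ.n1 (82008, 82080) (by decide +kernel)
               (CovZ.leaf K2_ok TI_l2474 _)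
               (CovZ.n1 (81972, 82044) (by decide +kernel)
                (CovZ.leaf K2_ok TI_l2475 _)
                (CovZ.n1 (82008, 82044) (by decide +kernel)
                 (CovZ.leaf K2_ok TI_l2476 _)
                 (CovZ.leaf K2_ok TI_l2477 _)))))
             (CovZ.n1 (81864, 82008) (by decide +kernel)
              (CovZ.n2 (81864, 82080) (by decide +kernel)
               (CovZ.leaf K2_ok TI_l2478 _)
               (CovZ.subM 3149497480182617438878312414485729247482737339532008975504779 (by decide +kernel)
                (CovZ.n1 (81828, 82044) (by decide +kernel)
                 (CovZ.n2 (81828, 82080) (by decide +kernel)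
                  (CovZ.leaf K2_ok TI_l2479 _)
                  (CovZ.leaf K2_ok TI_l2480 _))
                 (CovZ.n1 (81864, 82044) (by decide +kernel)
                  (CovZ.leaf K2_ok TI_l2481 _)
                  (CovZ.n1 (81846, 82062) (by decide +kernel)
                   (CovZ.leaf K2_ok TI_l2482 _)
                   (CovZ.leaf K2_ok TI_l2483 _))))))
              (CovZ.n1 (81936, 82008) (by decide +kernel)
               (CovZ.subM 3149499012771693874338118185199022112257103340333719772730763 (by decide +kernel)
                (CovZ.n2 (81900, 81972) (by decide +kernel)
                 (CovZ.n2 (81900, 82008) (by decide +kernel)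
                  (CovZ.leaf K2_ok TI_l2484 _)
                  (CovZ.n1 (81882, 81990) (by decide +kernel)
                   (CovZ.leaf K2_ok TI_l2485 _)
                   (CovZ.leaf K2_ok TI_l2486 _)))
                 (CovZ.n1 (81936, 81972) (by decide +kernel)
                  (CovZ.n2 (81918, 81954) (by decide +kernel)
                   (CovZ.leaf K2_ok TI_l2487 _)
                   (CovZ.n1 (81936, 81954) (by decide +kernel)
                    (CovZ.leaf K2_ok TI_l2488 _)
                    (CovZ.leaf K2_ok TI_l2489 _)))
                  (CovZ.leaf K2_ok TI_l2490 _))))
               (CovZ.n1 (81900, 82044) (by decide +kernel)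
                (CovZ.n2 (81936, 82044) (by decide +kernel)
                 (CovZ.leaf K2_ok TI_l2491 _)
                 (CovZ.leaf K2_ok TI_l2492 _))
                (CovZ.n1 (81900, 82008) (by decide +kernel)
                 (CovZ.leaf K2_ok TI_l2493 _)
                 (CovZ.leaf K2_ok TI_l2494 _))))))))

theorem TI_u40 : CovZ TI_M (toL (selN TI_LN 3213863828553652858965688248979634076924844223867886407652751)) [0, 7, 6, 1] (82080, 82080) (82368, 82368) (81792, 82368) :=
    (CovZ.n1 (82080, 82368) (by decide +kernel)
           (CovZ.n2 (82224, 82224) (by decide +kernel)
            (CovZ.n2 (82080, 82224) (by decide +kernel)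
             (CovZ.n2 (82152, 82296) (by decide +kernel)
              (CovZ.n2 (82152, 82224) (by decide +kernel)
               (CovZ.leaf K3_ok TI_l2495 _)
               (CovZ.leaf K3_ok TI_l2496 _))
              (CovZ.leaf K3_ok TI_l2497 _))
             (CovZ.n1 (82152, 82152) (by decide +kernel)
              (CovZ.leaf K3_ok TI_l2498 _)
              (CovZ.n1 (82152, 82224) (by decide +kernel)
               (CovZ.leaf K3_ok TI_l2499 _)
               (CovZ.n1 (82116, 82188) (by decide +kernel)
                (CovZ.leaf K2_ok TI_l2500 _)
                (CovZ.leaf K2_ok TI_l2501 _)))))
            (CovZ.n1 (82224, 82368) (by decide +kernel)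
             (CovZ.leaf K2_ok TI_l2502 _)
             (CovZ.n1 (82152, 82296) (by decide +kernel)
              (CovZ.leaf K3_ok TI_l2503 _)
              (CovZ.n1 (82224, 82296) (by decide +kernel)
               (CovZ.leaf K3_ok TI_l2504 _)
               (CovZ.leaf K2_ok TI_l2505 _)))))
           (CovZ.n1 (81936, 82224) (by decide +kernel)
            (CovZ.n2 (81936, 82368) (by decide +kernel)
             (CovZ.n2 (82008, 82296) (by decide +kernel)
              (CovZ.leaf K3_ok TI_l2506 _)
              (CovZ.leaf K3_ok TI_l2507 _))
             (CovZ.n1 (81864, 82296) (by decide +kernel)
              (CovZ.n2 (81864, 82368) (by decide +kernel)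
               (CovZ.leaf K2_ok TI_l2508 _)
               (CovZ.n1 (81828, 82332) (by decide +kernel)
                (CovZ.leaf K2_ok TI_l2509 _)
                (CovZ.leaf K2_ok TI_l2510 _)))
              (CovZ.n1 (81936, 82296) (by decide +kernel)
               (CovZ.leaf K3_ok TI_l2511 _)
               (CovZ.leaf K2_ok TI_l2512 _))))
            (CovZ.n1 (82080, 82224) (by decide +kernel)
             (CovZ.n2 (82008, 82152) (by decide +kernel)
              (CovZ.n2 (82008, 82224) (by decide +kernel)
               (CovZ.leaf K2_ok TI_l2513 _)
               (CovZ.n1 (81972, 82188) (by decide +kernel)
                (CovZ.leaf K2_ok TI_l2514 _)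
                (CovZ.leaf K2_ok TI_l2515 _)))
              (CovZ.n1 (82080, 82152) (by decide +kernel)
               (CovZ.n2 (82044, 82116) (by decide +kernel)
                (CovZ.leaf K2_ok TI_l2516 _)
                (CovZ.leaf K2_ok TI_l2517 _))
               (CovZ.n1 (82044, 82188) (by decide +kernel)
                (CovZ.leaf K2_ok TI_l2518 _)
                (CovZ.leaf K2_ok TI_l2519 _))))
             (CovZ.n1 (82008, 82296) (by decide +kernel)
              (CovZ.n2 (82080, 82296) (by decide +kernel)
               (CovZ.leaf K2_ok TI_l2520 _)
               (CovZ.leaf K2_ok TI_l2521 _))
              (CovZ.n1 (82008, 82224) (by decide +kernel)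
               (CovZ.n2 (81972, 82260) (by decide +kernel)
                (CovZ.leaf K2_ok TI_l2522 _)
                (CovZ.leaf K2_ok TI_l2523 _))
               (CovZ.leaf K2_ok TI_l2524 _))))))

theorem TI_u41 : CovZ TI_M (toL (selN TI_LN 3213863828553652858965688248979634076924844223867886407652751)) [0, 7, 6, 1] (81792, 81792) (81792, 82080) (81504, 82080) :=
    (CovZ.subM 1944292509151006537571230006925022759835559161156000475518351 (by decide +kernel)
            (CovZ.n2 (81648, 81936) (by decide +kernel)
             (CovZ.n2 (81648, 82080) (by decide +kernel)
              (CovZ.n2 (81720, 82008) (by decide +kernel)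
               (CovZ.subM 560491342369946446655496389692120709107548288 (by decide +kernel)
                (CovZ.n2 (81648, 82008) (by decide +kernel)
                 (CovZ.n2 (81684, 82044) (by decide +kernel)
                  (CovZ.subM 535228779117388408577022964703143769392807936 (by decide +kernel)
                   (CovZ.n2 (81684, 82008) (by decide +kernel)
                    (CovZ.n2 (81666, 82026) (by decide +kernel)
                     (CovZ.n2 (81684, 82026) (by decide +kernel)
                      (CovZ.leaf K2_ok TI_l2777 _)
                      (CovZ.leaf K2_ok TI_l2778 _))
                     (CovZ.n1 (81666, 82008) (by decide +kernel)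
                      (CovZ.leaf K2_ok TI_l2779 _)
                      (CovZ.leaf K2_ok TI_l2780 _)))
                    (CovZ.n1 (81702, 82026) (by decide +kernel)
                     (CovZ.n2 (81702, 82008) (by decide +kernel)
                      (CovZ.leaf K2_ok TI_l2781 _)
                      (CovZ.leaf K2_ok TI_l2782 _))
                     (CovZ.leaf K2_ok TI_l2783 _))))
                  (CovZ.n1 (81648, 82044) (by decide +kernel)
                   (CovZ.n2 (81666, 82062) (by decide +kernel)
                    (CovZ.n2 (81666, 82044) (by decide +kernel)
                     (CovZ.leaf K2_ok TI_l2784 _)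
                     (CovZ.leaf K2_ok TI_l2785 _))
                    (CovZ.leaf K2_ok TI_l2786 _))
                   (CovZ.n1 (81666, 82026) (by decide +kernel)
                    (CovZ.n2 (81648, 82026) (by decide +kernel)
                     (CovZ.leaf K2_ok TI_l2787 _)
                     (CovZ.leaf K2_ok TI_l2788 _))
                    (CovZ.leaf K2_ok TI_l2789 _))))
                 (CovZ.badM (by decide +kernel))))
               (CovZ.n1 (81720, 82080) (by decide +kernel)
                (CovZ.n2 (81756, 82044) (by decide +kernel)
                 (CovZ.n2 (81720, 82044) (by decide +kernel)
                  (CovZ.n2 (81738, 82062) (by decide +kernel)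
                   (CovZ.leaf K2_ok TI_l2790 _)
                   (CovZ.leaf K2_ok TI_l2791 _))
                  (CovZ.leaf K2_ok TI_l2792 _))
                 (CovZ.n1 (81756, 82080) (by decide +kernel)
                  (CovZ.leaf K2_ok TI_l2793 _)
                  (CovZ.n1 (81738, 82062) (by decide +kernel)
                   (CovZ.leaf K2_ok TI_l2794 _)
                   (CovZ.leaf K2_ok TI_l2795 _))))
                (CovZ.n1 (81684, 82044) (by decide +kernel)
                 (CovZ.n2 (81684, 82080) (by decide +kernel)
                  (CovZ.leaf K2_ok TI_l2796 _)
                  (CovZ.n1 (81666, 82062) (by decide +kernel)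
                   (CovZ.leaf K2_ok TI_l2797 _)
                   (CovZ.n1 (81684, 82062) (by decide +kernel)
                    (CovZ.leaf K2_ok TI_l2798 _)
                    (CovZ.leaf K2_ok TI_l2799 _))))
                 (CovZ.n1 (81720, 82044) (by decide +kernel)
                  (CovZ.n2 (81702, 82026) (by decide +kernel)
                   (CovZ.leaf K2_ok TI_l2800 _)
                   (CovZ.leaf K2_ok TI_l2801 _))
                  (CovZ.n1 (81702, 82062) (by decide +kernel)
                   (CovZ.n2 (81720, 82062) (by decide +kernel)
                    (CovZ.leaf K2_ok TI_l2802 _)
                    (CovZ.leaf K2_ok TI_l2803 _))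
                   (CovZ.n1 (81702, 82044) (by decide +kernel)
                    (CovZ.leaf K2_ok TI_l2804 _)
                    (CovZ.leaf K2_ok TI_l2805 _)))))))
              (CovZ.subM 560491342369946446655496389692120709107548288 (by decide +kernel)
               (CovZ.n1 (81576, 82008) (by decide +kernel)
                (CovZ.n2 (81576, 82080) (by decide +kernel)
                 (CovZ.n2 (81612, 82044) (by decide +kernel)
                  (CovZ.subM 356822817861450422391117302475360471061889024 (by decide +kernel)
                   (CovZ.n2 (81576, 82044) (by decide +kernel)
                    (CovZ.n2 (81594, 82062) (by decide +kernel)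
                     (CovZ.n2 (81594, 82044) (by decide +kernel)
                      (CovZ.leaf K2_ok TI_l2806 _)
                      (CovZ.leaf K2_ok TI_l2807 _))
                     (CovZ.leaf K2_ok TI_l2808 _))
                    (CovZ.subM 332306998946228968225951767217569792 (by decide +kernel)
                     (CovZ.n1 (81594, 82026) (by decide +kernel)
                      (CovZ.n2 (81576, 82026) (by decide +kernel)
                       (CovZ.n2 (81585, 82035) (by decide +kernel)
                        (CovZ.badM (by decide +kernel))
                        (CovZ.leaf K2_ok TI_l2809 _))
                       (CovZ.badM (by decide +kernel)))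
                      (CovZ.n1 (81594, 82044) (by decide +kernel)
                       (CovZ.leaf K2_ok TI_l2810 _)
                       (CovZ.n1 (81585, 82035) (by decide +kernel)
                        (CovZ.leaf K2_ok TI_l2811 _)
                        (CovZ.leaf K2_ok TI_l2812 _)))))))
                  (CovZ.n1 (81612, 82080) (by decide +kernel)
                   (CovZ.leaf K2_ok TI_l2813 _)
                   (CovZ.n1 (81594, 82062) (by decide +kernel)
                    (CovZ.leaf K2_ok TI_l2814 _)
                    (CovZ.leaf K2_ok TI_l2815 _))))
                 (CovZ.subM 356822817861450422391117302475360471061889024 (by decide +kernel)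
                  (CovZ.n1 (81540, 82044) (by decide +kernel)
                   (CovZ.n2 (81540, 82080) (by decide +kernel)
                    (CovZ.n2 (81558, 82062) (by decide +kernel)
                     (CovZ.n2 (81540, 82062) (by decide +kernel)
                      (CovZ.n2 (81549, 82071) (by decide +kernel)
                       (CovZ.leaf K2_ok TI_l2816 _)
                       (CovZ.leaf K2_ok TI_l2817 _))
                      (CovZ.leaf K2_ok TI_l2818 _))
                     (CovZ.leaf K2_ok TI_l2819 _))
                    (CovZ.n1 (81522, 82062) (by decide +kernel)
                     (CovZ.leaf K2_ok TI_l2820 _)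
                     (CovZ.n1 (81540, 82062) (by decide +kernel)
                      (CovZ.badM (by decide +kernel))
                      (CovZ.leaf K2_ok TI_l2821 _))))
                   (CovZ.n1 (81576, 82044) (by decide +kernel)
                    (CovZ.subM 2147483648 (by decide +kernel)
                     (CovZ.n2 (81558, 82026) (by decide +kernel)
                      (CovZ.n2 (81558, 82044) (by decide +kernel)
                       (CovZ.leaf K2_ok TI_l2822 _)
                       (CovZ.badM (by decide +kernel)))
                      (CovZ.n1 (81576, 82026) (by decide +kernel)
                       (CovZ.badM (by decide +kernel))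
                       (CovZ.leaf K2_ok TI_l2823 _))))
                    (CovZ.n1 (81558, 82062) (by decide +kernel)
                     (CovZ.n2 (81576, 82062) (by decide +kernel)
                      (CovZ.leaf K2_ok TI_l2824 _)
                      (CovZ.leaf K2_ok TI_l2825 _))
                     (CovZ.n1 (81558, 82044) (by decide +kernel)
                      (CovZ.leaf K2_ok TI_l2826 _)
                      (CovZ.leaf K2_ok TI_l2827 _)))))))
                (CovZ.n1 (81648, 82008) (by decide +kernel)
                 (CovZ.badM (by decide +kernel))
                 (CovZ.n1 (81612, 82044) (by decide +kernel)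
                  (CovZ.n2 (81648, 82044) (by decide +kernel)
                   (CovZ.subM 535217890413953937492421104941657717880127488 (by decide +kernel)
                    (CovZ.n2 (81630, 82026) (by decide +kernel)
                     (CovZ.n2 (81630, 82044) (by decide +kernel)
                      (CovZ.leaf K2_ok TI_l2828 _)
                      (CovZ.n1 (81621, 82035) (by decide +kernel)
                       (CovZ.leaf K2_ok TI_l2829 _)
                       (CovZ.leaf K2_ok TI_l2830 _)))
                     (CovZ.n1 (81648, 82026) (by decide +kernel)
                      (CovZ.n2 (81639, 82017) (by decide +kernel)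
                       (CovZ.leaf K2_ok TI_l6772 _)
                       (CovZ.leaf K2_ok TI_l6773 _))
                      (CovZ.n1 (81639, 82035) (by decide +kernel)
                       (CovZ.leaf K2_ok TI_l2831 _)
                       (CovZ.leaf K2_ok TI_l6774 _)))))
                   (CovZ.n1 (81630, 82062) (by decide +kernel)
                    (CovZ.leaf K2_ok TI_l2832 _)
                    (CovZ.leaf K2_ok TI_l2833 _)))
                  (CovZ.subM 332306998946228968225951767217569792 (by decide +kernel)
                   (CovZ.n1 (81612, 82008) (by decide +kernel)
                    (CovZ.n2 (81594, 82026) (by decide +kernel)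
                     (CovZ.n2 (81612, 82026) (by decide +kernel)
                      (CovZ.badM (by decide +kernel))
                      (CovZ.n1 (81603, 82035) (by decide +kernel)
                       (CovZ.n2 (81612, 82035) (by decide +kernel)
                        (CovZ.badM (by decide +kernel))
                        (CovZ.leaf K2_ok TI_l2834 _))
                       (CovZ.badM (by decide +kernel))))
                     (CovZ.badM (by decide +kernel)))
                    (CovZ.n1 (81630, 82026) (by decide +kernel)
                     (CovZ.badM (by decide +kernel))
                     (CovZ.n1 (81612, 82026) (by decide +kernel)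
                      (CovZ.n2 (81621, 82035) (by decide +kernel)
                       (CovZ.leaf K2_ok TI_l2835 _)
                       (CovZ.leaf K2_ok TI_l2836 _))
                      (CovZ.badM (by decide +kernel)))))))))))
             (CovZ.n1 (81792, 81936) (by decide +kernel)
              (CovZ.badM (by decide +kernel))
              (CovZ.n1 (81720, 82008) (by decide +kernel)
               (CovZ.n2 (81792, 82008) (by decide +kernel)
                (CovZ.subM 26656359495118635783351923645580815640821760 (by decide +kernel)
                 (CovZ.n2 (81756, 81972) (by decide +kernel)
                  (CovZ.n2 (81756, 82008) (by decide +kernel)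
                   (CovZ.n2 (81774, 81990) (by decide +kernel)
                    (CovZ.leaf K2_ok TI_l2837 _)
                    (CovZ.leaf K2_ok TI_l2838 _))
                   (CovZ.n1 (81738, 81990) (by decide +kernel)
                    (CovZ.leaf K2_ok TI_l2839 _)
                    (CovZ.n1 (81756, 81990) (by decide +kernel)
                     (CovZ.badM (by decide +kernel))
                     (CovZ.leaf K2_ok TI_l2840 _))))
                  (CovZ.n1 (81792, 81972) (by decide +kernel)
                   (CovZ.n2 (81774, 81954) (by decide +kernel)
                    (CovZ.leaf K2_ok TI_l2841 _)
                    (CovZ.n1 (81792, 81954) (by decide +kernel)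
                     (CovZ.badM (by decide +kernel))
                     (CovZ.leaf K2_ok TI_l2842 _)))
                   (CovZ.n1 (81774, 81990) (by decide +kernel)
                    (CovZ.n2 (81792, 81990) (by decide +kernel)
                     (CovZ.leaf K2_ok TI_l2843 _)
                     (CovZ.leaf K2_ok TI_l2844 _))
                    (CovZ.subM 22300745198530623141535718849109113809403904 (by decide +kernel)
                     (CovZ.n1 (81774, 81972) (by decide +kernel)
                      (CovZ.n2 (81765, 81981) (by decide +kernel)
                       (CovZ.leaf K2_ok TI_l2845 _)
                       (CovZ.badM (by decide +kernel)))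
                      (CovZ.n1 (81783, 81981) (by decide +kernel)
                       (CovZ.leaf K2_ok TI_l2846 _)
                       (CovZ.leaf K2_ok TI_l2847 _))))))))
                (CovZ.n1 (81756, 82044) (by decide +kernel)
                 (CovZ.n2 (81792, 82044) (by decide +kernel)
                  (CovZ.n2 (81774, 82026) (by decide +kernel)
                   (CovZ.leaf K2_ok TI_l2848 _)
                   (CovZ.leaf K2_ok TI_l2849 _))
                  (CovZ.n1 (81774, 82062) (by decide +kernel)
                   (CovZ.leaf K2_ok TI_l2850 _)
                   (CovZ.leaf K2_ok TI_l2851 _)))
                 (CovZ.subM 25163600726306954895147743890526034770453253556886610907274 (by decide +kernel)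
                  (CovZ.n1 (81756, 82008) (by decide +kernel)
                   (CovZ.n2 (81738, 82026) (by decide +kernel)
                    (CovZ.n2 (81756, 82026) (by decide +kernel)
                     (CovZ.leaf K2_ok TI_l2852 _)
                     (CovZ.leaf K2_ok TI_l2853 _))
                    (CovZ.leaf K2_ok TI_l2854 _))
                   (CovZ.n1 (81774, 82026) (by decide +kernel)
                    (CovZ.n2 (81774, 82008) (by decide +kernel)
                     (CovZ.leaf K2_ok TI_l2855 _)
                     (CovZ.leaf K2_ok TI_l2856 _))
                    (CovZ.leaf K2_ok TI_l2857 _))))))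
               (CovZ.badM (by decide +kernel))))))

theorem TI_u42 : CovZ TI_M (toL (selN TI_LN 3213863828553652858965688248979634076924844223867886407652751)) [0, 7, 6, 1] (81792, 82080) (81792, 82368) (81504, 82080) :=
    (CovZ.n1 (81648, 82224) (by decide +kernel)
            (CovZ.n2 (81792, 82224) (by decide +kernel)
             (CovZ.n2 (81720, 82152) (by decide +kernel)
              (CovZ.n2 (81720, 82224) (by decide +kernel)
               (CovZ.leaf K2_ok TI_l2858 _)
               (CovZ.n1 (81684, 82188) (by decide +kernel)
                (CovZ.leaf K2_ok TI_l2859 _)
                (CovZ.n1 (81720, 82188) (by decide +kernel)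
                 (CovZ.leaf K2_ok TI_l2860 _)
                 (CovZ.leaf K2_ok TI_l2861 _))))
              (CovZ.n1 (81792, 82152) (by decide +kernel)
               (CovZ.n2 (81756, 82116) (by decide +kernel)
                (CovZ.leaf K2_ok TI_l2862 _)
                (CovZ.n1 (81792, 82116) (by decide +kernel)
                 (CovZ.leaf K2_ok TI_l2863 _)
                 (CovZ.leaf K2_ok TI_l2864 _)))
               (CovZ.n1 (81756, 82188) (by decide +kernel)
                (CovZ.leaf K2_ok TI_l2865 _)
                (CovZ.n1 (81756, 82152) (by decide +kernel)
                 (CovZ.leaf K2_ok TI_l2866 _)
                 (CovZ.leaf K2_ok TI_l2867 _)))))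
             (CovZ.n1 (81720, 82296) (by decide +kernel)
              (CovZ.n2 (81792, 82296) (by decide +kernel)
               (CovZ.n2 (81756, 82260) (by decide +kernel)
                (CovZ.leaf K2_ok TI_l2868 _)
                (CovZ.leaf K2_ok TI_l2869 _))
               (CovZ.n1 (81756, 82332) (by decide +kernel)
                (CovZ.leaf K2_ok TI_l2870 _)
                (CovZ.leaf K2_ok TI_l2871 _)))
              (CovZ.n1 (81720, 82224) (by decide +kernel)
               (CovZ.n2 (81684, 82260) (by decide +kernel)
                (CovZ.leaf K2_ok TI_l2872 _)
                (CovZ.n1 (81684, 82224) (by decide +kernel)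
                 (CovZ.leaf K2_ok TI_l2873 _)
                 (CovZ.leaf K2_ok TI_l2874 _)))
               (CovZ.n1 (81756, 82260) (by decide +kernel)
                (CovZ.leaf K2_ok TI_l2875 _)
                (CovZ.leaf K2_ok TI_l2876 _)))))
            (CovZ.subM 1944292892274891754045147353151270601763455890225851715949967 (by decide +kernel)
             (CovZ.n1 (81648, 82080) (by decide +kernel)
              (CovZ.n2 (81576, 82152) (by decide +kernel)
               (CovZ.n2 (81648, 82152) (by decide +kernel)
                (CovZ.n2 (81612, 82116) (by decide +kernel)
                 (CovZ.n2 (81612, 82152) (by decide +kernel)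
                  (CovZ.leaf K2_ok TI_l2877 _)
                  (CovZ.n1 (81594, 82134) (by decide +kernel)
                   (CovZ.leaf K2_ok TI_l2878 _)
                   (CovZ.leaf K2_ok TI_l2879 _)))
                 (CovZ.n1 (81648, 82116) (by decide +kernel)
                  (CovZ.n2 (81630, 82098) (by decide +kernel)
                   (CovZ.leaf K2_ok TI_l2880 _)
                   (CovZ.leaf K2_ok TI_l2881 _))
                  (CovZ.leaf K2_ok TI_l2882 _)))
                (CovZ.n1 (81612, 82188) (by decide +kernel)
                 (CovZ.n2 (81648, 82188) (by decide +kernel)
                  (CovZ.leaf K2_ok TI_l2883 _)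
                  (CovZ.leaf K2_ok TI_l2884 _))
                 (CovZ.n1 (81612, 82152) (by decide +kernel)
                  (CovZ.leaf K2_ok TI_l2885 _)
                  (CovZ.leaf K2_ok TI_l2886 _))))
               (CovZ.subM 226325072956784842478255682349008171016861811360801123992719 (by decide +kernel)
                (CovZ.n1 (81576, 82080) (by decide +kernel)
                 (CovZ.n2 (81540, 82116) (by decide +kernel)
                  (CovZ.n2 (81576, 82116) (by decide +kernel)
                   (CovZ.n2 (81558, 82098) (by decide +kernel)
                    (CovZ.leaf K2_ok TI_l2887 _)
                    (CovZ.n1 (81576, 82098) (by decide +kernel)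
                     (CovZ.leaf K2_ok TI_l2888 _)
                     (CovZ.leaf K2_ok TI_l2889 _)))
                   (CovZ.n1 (81558, 82134) (by decide +kernel)
                    (CovZ.leaf K2_ok TI_l2890 _)
                    (CovZ.leaf K2_ok TI_l2891 _)))
                  (CovZ.subM 356822817861490987210324624263093726518182016 (by decide +kernel)
                   (CovZ.n1 (81540, 82080) (by decide +kernel)
                    (CovZ.n2 (81522, 82098) (by decide +kernel)
                     (CovZ.n2 (81540, 82098) (by decide +kernel)
                      (CovZ.leaf K2_ok TI_l2892 _)
                      (CovZ.leaf K2_ok TI_l2893 _))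
                     (CovZ.n1 (81522, 82080) (by decide +kernel)
                      (CovZ.leaf K2_ok TI_l2894 _)
                      (CovZ.leaf K2_ok TI_l2895 _)))
                    (CovZ.n1 (81558, 82098) (by decide +kernel)
                     (CovZ.n2 (81558, 82080) (by decide +kernel)
                      (CovZ.leaf K2_ok TI_l2896 _)
                      (CovZ.n1 (81567, 82089) (by decide +kernel)
                       (CovZ.leaf K2_ok TI_l2897 _)
                       (CovZ.leaf K2_ok TI_l2898 _)))
                     (CovZ.leaf K2_ok TI_l2899 _)))))
                 (CovZ.n1 (81612, 82116) (by decide +kernel)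
                  (CovZ.n2 (81612, 82080) (by decide +kernel)
                   (CovZ.n2 (81594, 82098) (by decide +kernel)
                    (CovZ.leaf K2_ok TI_l2900 _)
                    (CovZ.leaf K2_ok TI_l2901 _))
                   (CovZ.n1 (81630, 82098) (by decide +kernel)
                    (CovZ.leaf K2_ok TI_l2902 _)
                    (CovZ.leaf K2_ok TI_l2903 _)))
                  (CovZ.n1 (81576, 82116) (by decide +kernel)
                   (CovZ.n2 (81594, 82134) (by decide +kernel)
                    (CovZ.leaf K2_ok TI_l2904 _)
                    (CovZ.leaf K2_ok TI_l2905 _))
                   (CovZ.leaf K2_ok TI_l2906 _))))))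
              (CovZ.n1 (81720, 82152) (by decide +kernel)
               (CovZ.n2 (81720, 82080) (by decide +kernel)
                (CovZ.n2 (81684, 82116) (by decide +kernel)
                 (CovZ.n2 (81720, 82116) (by decide +kernel)
                  (CovZ.n2 (81702, 82098) (by decide +kernel)
                   (CovZ.leaf K2_ok TI_l2907 _)
                   (CovZ.leaf K2_ok TI_l2908 _))
                  (CovZ.leaf K2_ok TI_l2909 _))
                 (CovZ.n1 (81684, 82080) (by decide +kernel)
                  (CovZ.leaf K2_ok TI_l2910 _)
                  (CovZ.n1 (81702, 82098) (by decide +kernel)
                   (CovZ.leaf K2_ok TI_l2911 _)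
                   (CovZ.leaf K2_ok TI_l2912 _))))
                (CovZ.n1 (81756, 82116) (by decide +kernel)
                 (CovZ.n2 (81756, 82080) (by decide +kernel)
                  (CovZ.leaf K2_ok TI_l2913 _)
                  (CovZ.n1 (81774, 82098) (by decide +kernel)
                   (CovZ.leaf K2_ok TI_l2914 _)
                   (CovZ.leaf K2_ok TI_l2915 _)))
                 (CovZ.n1 (81720, 82116) (by decide +kernel)
                  (CovZ.leaf K2_ok TI_l2916 _)
                  (CovZ.leaf K2_ok TI_l2917 _))))
               (CovZ.n1 (81648, 82152) (by decide +kernel)
                (CovZ.n2 (81684, 82188) (by decide +kernel)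
                 (CovZ.n2 (81684, 82152) (by decide +kernel)
                  (CovZ.leaf K2_ok TI_l2918 _)
                  (CovZ.leaf K2_ok TI_l2919 _))
                 (CovZ.leaf K2_ok TI_l2920 _))
                (CovZ.leaf K2_ok TI_l2921 _))))))

end Pool.Agent.TET
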