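import Pool.Agent.Helper38_TET.TI_M
import Pool.Agent.Helper38_TET.TI_L
import Pool.Agent.Helper38_TET.TI_15
import Pool.Agent.Helper38_TET.TI_16
import Pool.Agent.Helper38_TET.TI_17
import Pool.Agent.Helper38_TET.TI_18
import Pool.Agent.Helper38_TET.TI_19
import Pool.Agent.Helper38_TET.TI_20
import Pool.Agent.Helper38_TET.TI_21
import Pool.Agent.Helper38_TET.TI_29
import Pool.Agent.Helper38_TET.TI_30
import Pool.Agent.Helper38_TET.TI_31
import Pool.Agent.Helper38_TET.TI_32
import Pool.Agent.Helper38_TET.TI_U2

/-!
# MP_c7c9bf_co: certificates, family TI
-/

set_option autoImplicit false
set_option maxRecDepth 100000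

namespace Pool.Agent.TET

theorem TI_u43 : CovZ TI_M (toL (selN TI_LN 3213863828553652858965688248979634076924844223867886407652751)) [0, 7, 6, 1] (81792, 81792) (81792, 82368) (81216, 82368) :=
    (CovZ.n2 (81504, 82080) (by decide +kernel)
          (CovZ.n2 (81504, 82368) (by decide +kernel)
           (CovZ.n2 (81648, 82224) (by decide +kernel)
            (CovZ.subM 331077821109746966721578623289929097004972661643016335787151 (by decide +kernel)
             (CovZ.n2 (81504, 82224) (by decide +kernel)
              (CovZ.n2 (81576, 82296) (by decide +kernel)
               (CovZ.n2 (81576, 82224) (by decide +kernel)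
                (CovZ.n2 (81540, 82260) (by decide +kernel)
                 (CovZ.n2 (81576, 82260) (by decide +kernel)
                  (CovZ.leaf K2_ok TI_l2666 _)
                  (CovZ.leaf K2_ok TI_l2667 _))
                 (CovZ.n1 (81540, 82224) (by decide +kernel)
                  (CovZ.leaf K2_ok TI_l2668 _)
                  (CovZ.leaf K2_ok TI_l2669 _)))
                (CovZ.n1 (81612, 82260) (by decide +kernel)
                 (CovZ.n2 (81612, 82224) (by decide +kernel)
                  (CovZ.leaf K2_ok TI_l2670 _)
                  (CovZ.leaf K2_ok TI_l2671 _))
                 (CovZ.leaf K2_ok TI_l2672 _)))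
               (CovZ.n1 (81504, 82296) (by decide +kernel)
                (CovZ.n2 (81540, 82332) (by decide +kernel)
                 (CovZ.leaf K2_ok TI_l2673 _)
                 (CovZ.leaf K2_ok TI_l2674 _))
                (CovZ.leaf K2_ok TI_l2675 _)))
              (CovZ.n1 (81576, 82152) (by decide +kernel)
               (CovZ.n2 (81504, 82152) (by decide +kernel)
                (CovZ.n2 (81540, 82188) (by decide +kernel)
                 (CovZ.subM 25457877287723646777043608652165986944861998013059231122574 (by decide +kernel)
                  (CovZ.n2 (81540, 82152) (by decide +kernel)
                   (CovZ.n2 (81522, 82170) (by decide +kernel)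
                    (CovZ.leaf K2_ok TI_l2676 _)
                    (CovZ.leaf K2_ok TI_l2677 _))
                   (CovZ.n1 (81558, 82170) (by decide +kernel)
                    (CovZ.leaf K2_ok TI_l2678 _)
                    (CovZ.leaf K2_ok TI_l2679 _))))
                 (CovZ.n1 (81504, 82188) (by decide +kernel)
                  (CovZ.n2 (81522, 82206) (by decide +kernel)
                   (CovZ.leaf K2_ok TI_l2680 _)
                   (CovZ.leaf K2_ok TI_l2681 _))
                  (CovZ.leaf K2_ok TI_l2682 _)))
                (CovZ.subM 25457817424411058035510420806362845701586419123553510098062 (by decide +kernel)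
                 (CovZ.n1 (81540, 82116) (by decide +kernel)
                  (CovZ.n2 (81504, 82116) (by decide +kernel)
                   (CovZ.n2 (81522, 82134) (by decide +kernel)
                    (CovZ.leaf K2_ok TI_l2683 _)
                    (CovZ.leaf K2_ok TI_l2684 _))
                   (CovZ.leaf K2_ok TI_l2685 _))
                  (CovZ.n1 (81540, 82152) (by decide +kernel)
                   (CovZ.leaf K2_ok TI_l2686 _)
                   (CovZ.n1 (81522, 82134) (by decide +kernel)
                    (CovZ.leaf K2_ok TI_l2687 _)
                    (CovZ.leaf K2_ok TI_l2688 _))))))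
               (CovZ.n1 (81576, 82224) (by decide +kernel)
                (CovZ.leaf K2_ok TI_l2689 _)
                (CovZ.n1 (81540, 82188) (by decide +kernel)
                 (CovZ.n2 (81540, 82224) (by decide +kernel)
                  (CovZ.leaf K2_ok TI_l2690 _)
                  (CovZ.n1 (81522, 82206) (by decide +kernel)
                   (CovZ.leaf K2_ok TI_l2691 _)
                   (CovZ.leaf K2_ok TI_l2692 _)))
                 (CovZ.n1 (81576, 82188) (by decide +kernel)
                  (CovZ.n2 (81558, 82170) (by decide +kernel)
                   (CovZ.leaf K2_ok TI_l2693 _)
                   (CovZ.leaf K2_ok TI_l2694 _))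
                  (CovZ.leaf K2_ok TI_l2695 _)))))))
            (CovZ.n1 (81648, 82368) (by decide +kernel)
             (CovZ.n2 (81720, 82296) (by decide +kernel)
              (CovZ.n2 (81648, 82296) (by decide +kernel)
               (CovZ.n2 (81684, 82332) (by decide +kernel)
                (CovZ.leaf K2_ok TI_l2696 _)
                (CovZ.leaf K2_ok TI_l2697 _))
               (CovZ.leaf K2_ok TI_l2698 _))
              (CovZ.n1 (81720, 82368) (by decide +kernel)
               (CovZ.leaf K2_ok TI_l2699 _)
               (CovZ.n1 (81684, 82332) (by decide +kernel)
                (CovZ.leaf K2_ok TI_l2700 _)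
                (CovZ.leaf K2_ok TI_l2701 _))))
             (CovZ.subM 732812524858870401313309882349028092950276721531259057079439 (by decide +kernel)
              (CovZ.n1 (81576, 82296) (by decide +kernel)
               (CovZ.n2 (81576, 82368) (by decide +kernel)
                (CovZ.leaf K2_ok TI_l2702 _)
                (CovZ.n1 (81540, 82332) (by decide +kernel)
                 (CovZ.leaf K2_ok TI_l2703 _)
                 (CovZ.leaf K2_ok TI_l2704 _)))
               (CovZ.n1 (81648, 82296) (by decide +kernel)
                (CovZ.n2 (81612, 82260) (by decide +kernel)
                 (CovZ.leaf K2_ok TI_l2705 _)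
                 (CovZ.n1 (81648, 82260) (by decide +kernel)
                  (CovZ.leaf K2_ok TI_l2706 _)
                  (CovZ.leaf K2_ok TI_l2707 _)))
                (CovZ.n1 (81612, 82332) (by decide +kernel)
                 (CovZ.leaf K2_ok TI_l2708 _)
                 (CovZ.leaf K2_ok TI_l2709 _)))))))
           (CovZ.subM 129422760909167799449545274767717013564917620106187574871182 (by decide +kernel)
            (CovZ.n1 (81360, 82224) (by decide +kernel)
             (CovZ.n2 (81360, 82368) (by decide +kernel)
              (CovZ.n2 (81432, 82296) (by decide +kernel)
               (CovZ.n2 (81360, 82296) (by decide +kernel)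
                (CovZ.n2 (81396, 82332) (by decide +kernel)
                 (CovZ.n2 (81396, 82296) (by decide +kernel)
                  (CovZ.leaf K2_ok TI_l2710 _)
                  (CovZ.leaf K2_ok TI_l2711 _))
                 (CovZ.leaf K2_ok TI_l2712 _))
                (CovZ.n1 (81396, 82260) (by decide +kernel)
                 (CovZ.leaf K2_ok TI_l2713 _)
                 (CovZ.leaf K2_ok TI_l2714 _)))
               (CovZ.n1 (81432, 82368) (by decide +kernel)
                (CovZ.leaf K2_ok TI_l2715 _)
                (CovZ.n1 (81396, 82332) (by decide +kernel)
                 (CovZ.leaf K2_ok TI_l2716 _)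
                 (CovZ.leaf K2_ok TI_l2717 _))))
              (CovZ.n1 (81288, 82296) (by decide +kernel)
               (CovZ.n2 (81288, 82368) (by decide +kernel)
                (CovZ.leaf K2_ok TI_l2718 _)
                (CovZ.subM 588491759839217234730609231077850208502472035549579314182 (by decide +kernel)
                 (CovZ.n1 (81252, 82332) (by decide +kernel)
                  (CovZ.leaf K2_ok TI_l2719 _)
                  (CovZ.n1 (81288, 82332) (by decide +kernel)
                   (CovZ.n2 (81270, 82314) (by decide +kernel)
                    (CovZ.leaf K2_ok TI_l2720 _)
                    (CovZ.leaf K2_ok TI_l2721 _))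
                   (CovZ.leaf K2_ok TI_l2722 _)))))
               (CovZ.n1 (81360, 82296) (by decide +kernel)
                (CovZ.subM 196172901377549686990862007533653987859264644638601905158 (by decide +kernel)
                 (CovZ.n2 (81324, 82260) (by decide +kernel)
                  (CovZ.n2 (81324, 82296) (by decide +kernel)
                   (CovZ.leaf K2_ok TI_l2723 _)
                   (CovZ.n1 (81306, 82278) (by decide +kernel)
                    (CovZ.leaf K2_ok TI_l2724 _)
                    (CovZ.leaf K2_ok TI_l2725 _)))
                  (CovZ.n1 (81360, 82260) (by decide +kernel)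
                   (CovZ.n2 (81342, 82242) (by decide +kernel)
                    (CovZ.leaf K2_ok TI_l2726 _)
                    (CovZ.leaf K2_ok TI_l2727 _))
                   (CovZ.leaf K2_ok TI_l2728 _))))
                (CovZ.n1 (81324, 82332) (by decide +kernel)
                 (CovZ.n2 (81360, 82332) (by decide +kernel)
                  (CovZ.leaf K2_ok TI_l2729 _)
                  (CovZ.leaf K2_ok TI_l2730 _))
                 (CovZ.n1 (81324, 82296) (by decide +kernel)
                  (CovZ.leaf K2_ok TI_l2731 _)
                  (CovZ.leaf K2_ok TI_l2732 _))))))
             (CovZ.n1 (81504, 82224) (by decide +kernel)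
              (CovZ.n2 (81432, 82152) (by decide +kernel)
               (CovZ.n2 (81432, 82224) (by decide +kernel)
                (CovZ.n2 (81468, 82188) (by decide +kernel)
                 (CovZ.n2 (81432, 82188) (by decide +kernel)
                  (CovZ.n2 (81450, 82206) (by decide +kernel)
                   (CovZ.leaf K2_ok TI_l2733 _)
                   (CovZ.leaf K2_ok TI_l2734 _))
                  (CovZ.leaf K2_ok TI_l2735 _))
                 (CovZ.leaf K2_ok TI_l2736 _))
                (CovZ.subM 1499546711613754856292480897607936776332604453422222 (by decide +kernel)
                 (CovZ.n1 (81396, 82188) (by decide +kernel)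
                  (CovZ.n2 (81396, 82224) (by decide +kernel)
                   (CovZ.leaf K2_ok TI_l2737 _)
                   (CovZ.n1 (81378, 82206) (by decide +kernel)
                    (CovZ.leaf K2_ok TI_l2738 _)
                    (CovZ.leaf K2_ok TI_l2739 _)))
                  (CovZ.n1 (81432, 82188) (by decide +kernel)
                   (CovZ.n2 (81414, 82170) (by decide +kernel)
                    (CovZ.leaf K2_ok TI_l2740 _)
                    (CovZ.leaf K2_ok TI_l2741 _))
                   (CovZ.n1 (81414, 82206) (by decide +kernel)
                    (CovZ.leaf K2_ok TI_l2742 _)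
                    (CovZ.n1 (81414, 82188) (by decide +kernel)
                     (CovZ.leaf K3_ok TI_l2743 _)
                     (CovZ.leaf K2_ok TI_l2744 _)))))))
               (CovZ.n1 (81504, 82152) (by decide +kernel)
                (CovZ.subM 46028924655229322414891657652202103484100640910 (by decide +kernel)
                 (CovZ.n2 (81468, 82116) (by decide +kernel)
                  (CovZ.n2 (81468, 82152) (by decide +kernel)
                   (CovZ.leaf K2_ok TI_l2745 _)
                   (CovZ.n1 (81450, 82134) (by decide +kernel)
                    (CovZ.leaf K2_ok TI_l2746 _)
                    (CovZ.n1 (81468, 82134) (by decide +kernel)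
                     (CovZ.leaf K2_ok TI_l2747 _)
                     (CovZ.leaf K2_ok TI_l2748 _))))
                  (CovZ.n1 (81504, 82116) (by decide +kernel)
                   (CovZ.subM 356822812544538439241782422750100555349098496 (by decide +kernel)
                    (CovZ.n2 (81486, 82098) (by decide +kernel)
                     (CovZ.leaf K2_ok TI_l2749 _)
                     (CovZ.n1 (81504, 82098) (by decide +kernel)
                      (CovZ.n2 (81495, 82089) (by decide +kernel)
                       (CovZ.leaf K2_ok TI_l2750 _)
                       (CovZ.leaf K2_ok TI_l2751 _))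
                      (CovZ.leaf K2_ok TI_l2752 _))))
                   (CovZ.n1 (81486, 82134) (by decide +kernel)
                    (CovZ.leaf K2_ok TI_l2753 _)
                    (CovZ.n1 (81486, 82116) (by decide +kernel)
                     (CovZ.leaf K2_ok TI_l2754 _)
                     (CovZ.leaf K2_ok TI_l2755 _))))))
                (CovZ.n1 (81468, 82188) (by decide +kernel)
                 (CovZ.n2 (81504, 82188) (by decide +kernel)
                  (CovZ.n2 (81486, 82170) (by decide +kernel)
                   (CovZ.leaf K2_ok TI_l2756 _)
                   (CovZ.leaf K2_ok TI_l2757 _))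
                  (CovZ.leaf K2_ok TI_l2758 _))
                 (CovZ.subM 25163576781063926766492437324561074149960789209851768079502 (by decide +kernel)
                  (CovZ.n1 (81468, 82152) (by decide +kernel)
                   (CovZ.n2 (81450, 82170) (by decide +kernel)
                    (CovZ.leaf K2_ok TI_l2759 _)
                    (CovZ.n1 (81450, 82152) (by decide +kernel)
                     (CovZ.leaf K2_ok TI_l2760 _)
                     (CovZ.leaf K2_ok TI_l2761 _)))
                   (CovZ.n1 (81486, 82170) (by decide +kernel)
                    (CovZ.leaf K2_ok TI_l2762 _)
                    (CovZ.leaf K2_ok TI_l2763 _)))))))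
              (CovZ.n1 (81432, 82296) (by decide +kernel)
               (CovZ.n2 (81504, 82296) (by decide +kernel)
                (CovZ.n2 (81468, 82260) (by decide +kernel)
                 (CovZ.leaf K2_ok TI_l2764 _)
                 (CovZ.n1 (81504, 82260) (by decide +kernel)
                  (CovZ.leaf K2_ok TI_l2765 _)
                  (CovZ.leaf K2_ok TI_l2766 _)))
                (CovZ.n1 (81468, 82332) (by decide +kernel)
                 (CovZ.leaf K2_ok TI_l2767 _)
                 (CovZ.leaf K2_ok TI_l2768 _)))
               (CovZ.n1 (81432, 82224) (by decide +kernel)
                (CovZ.n2 (81396, 82260) (by decide +kernel)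
                 (CovZ.n2 (81432, 82260) (by decide +kernel)
                  (CovZ.leaf K2_ok TI_l2769 _)
                  (CovZ.leaf K2_ok TI_l2770 _))
                 (CovZ.n1 (81396, 82224) (by decide +kernel)
                  (CovZ.n2 (81378, 82242) (by decide +kernel)
                   (CovZ.leaf K2_ok TI_l2771 _)
                   (CovZ.leaf K2_ok TI_l2772 _))
                  (CovZ.leaf K2_ok TI_l2773 _)))
                (CovZ.n1 (81468, 82260) (by decide +kernel)
                 (CovZ.n2 (81468, 82224) (by decide +kernel)
                  (CovZ.leaf K2_ok TI_l2774 _)
                  (CovZ.leaf K2_ok TI_l2775 _))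
                 (CovZ.leaf K2_ok TI_l2776 _))))))))
          (CovZ.n1 (81792, 82080) (by decide +kernel)
           TI_u41
           TI_u42))

theorem TI_u44 : CovZ TI_M (toL (selN TI_LN 3213863828553652858965688248979634076924844223867886407652751)) [0, 7, 6, 1] (81792, 82368) (81792, 82944) (81216, 82368) :=
    (CovZ.n1 (81504, 82656) (by decide +kernel)
          (CovZ.n2 (81792, 82656) (by decide +kernel)
           (CovZ.n2 (81648, 82512) (by decide +kernel)
            (CovZ.n2 (81648, 82656) (by decide +kernel)
             (CovZ.leaf K2_ok TI_l2922 _)
             (CovZ.n1 (81576, 82584) (by decide +kernel)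
              (CovZ.leaf K3_ok TI_l2923 _)
              (CovZ.n1 (81648, 82584) (by decide +kernel)
               (CovZ.leaf K3_ok TI_l2924 _)
               (CovZ.leaf K3_ok TI_l2925 _))))
            (CovZ.n1 (81792, 82512) (by decide +kernel)
             (CovZ.n2 (81720, 82440) (by decide +kernel)
              (CovZ.n2 (81720, 82512) (by decide +kernel)
               (CovZ.leaf K2_ok TI_l2926 _)
               (CovZ.leaf K3_ok TI_l2927 _))
              (CovZ.n1 (81792, 82440) (by decide +kernel)
               (CovZ.leaf K2_ok TI_l2928 _)
               (CovZ.leaf K3_ok TI_l2929 _)))
             (CovZ.n1 (81720, 82584) (by decide +kernel)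
              (CovZ.n2 (81792, 82584) (by decide +kernel)
               (CovZ.leaf K3_ok TI_l2930 _)
               (CovZ.leaf K3_ok TI_l2931 _))
              (CovZ.n1 (81720, 82512) (by decide +kernel)
               (CovZ.leaf K3_ok TI_l2932 _)
               (CovZ.leaf K3_ok TI_l2933 _)))))
           (CovZ.n1 (81648, 82800) (by decide +kernel)
            (CovZ.n2 (81792, 82800) (by decide +kernel)
             (CovZ.n2 (81720, 82728) (by decide +kernel)
              (CovZ.leaf K3_ok TI_l2934 _)
              (CovZ.leaf K3_ok TI_l2935 _))
             (CovZ.n1 (81720, 82872) (by decide +kernel)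
              (CovZ.leaf K3_ok TI_l2936 _)
              (CovZ.leaf K3_ok TI_l2937 _)))
            (CovZ.n1 (81648, 82656) (by decide +kernel)
             (CovZ.n2 (81576, 82728) (by decide +kernel)
              (CovZ.leaf K3_ok TI_l2938 _)
              (CovZ.n1 (81576, 82656) (by decide +kernel)
               (CovZ.leaf K3_ok TI_l2939 _)
               (CovZ.leaf K3_ok TI_l2940 _)))
             (CovZ.n1 (81720, 82728) (by decide +kernel)
              (CovZ.leaf K3_ok TI_l2941 _)
              (CovZ.leaf K3_ok TI_l2942 _)))))
          (CovZ.n1 (81504, 82368) (by decide +kernel)
           (CovZ.subM 531157463535857976571143092646544514309523007827372253643918 (by decide +kernel)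
            (CovZ.n2 (81360, 82512) (by decide +kernel)
             (CovZ.n2 (81504, 82512) (by decide +kernel)
              (CovZ.n2 (81432, 82440) (by decide +kernel)
               (CovZ.n2 (81432, 82512) (by decide +kernel)
                (CovZ.leaf K3_ok TI_l2943 _)
                (CovZ.n1 (81396, 82476) (by decide +kernel)
                 (CovZ.leaf K3_ok TI_l2944 _)
                 (CovZ.leaf K3_ok TI_l2945 _)))
               (CovZ.n1 (81504, 82440) (by decide +kernel)
                (CovZ.n2 (81468, 82404) (by decide +kernel)
                 (CovZ.leaf K2_ok TI_l2946 _)
                 (CovZ.leaf K2_ok TI_l2947 _))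
                (CovZ.leaf K2_ok TI_l2948 _)))
              (CovZ.n1 (81432, 82584) (by decide +kernel)
               (CovZ.n2 (81504, 82584) (by decide +kernel)
                (CovZ.leaf K3_ok TI_l2949 _)
                (CovZ.leaf K3_ok TI_l2950 _))
               (CovZ.n1 (81432, 82512) (by decide +kernel)
                (CovZ.leaf K3_ok TI_l2951 _)
                (CovZ.leaf K3_ok TI_l2952 _))))
             (CovZ.n1 (81360, 82368) (by decide +kernel)
              (CovZ.n2 (81288, 82440) (by decide +kernel)
               (CovZ.n2 (81360, 82440) (by decide +kernel)
                (CovZ.n2 (81324, 82404) (by decide +kernel)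
                 (CovZ.leaf K2_ok TI_l2953 _)
                 (CovZ.leaf K2_ok TI_l2954 _))
                (CovZ.leaf K3_ok TI_l2955 _))
               (CovZ.n1 (81288, 82368) (by decide +kernel)
                (CovZ.n2 (81252, 82404) (by decide +kernel)
                 (CovZ.leaf K2_ok TI_l2956 _)
                 (CovZ.n1 (81252, 82368) (by decide +kernel)
                  (CovZ.leaf K2_ok TI_l2957 _)
                  (CovZ.leaf K2_ok TI_l2958 _)))
                (CovZ.n1 (81324, 82404) (by decide +kernel)
                 (CovZ.n2 (81324, 82368) (by decide +kernel)
                  (CovZ.leaf K2_ok TI_l2959 _)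
                  (CovZ.leaf K2_ok TI_l2960 _))
                 (CovZ.leaf K2_ok TI_l2961 _))))
              (CovZ.n1 (81432, 82440) (by decide +kernel)
               (CovZ.n2 (81432, 82368) (by decide +kernel)
                (CovZ.n2 (81396, 82404) (by decide +kernel)
                 (CovZ.leaf K2_ok TI_l2962 _)
                 (CovZ.leaf K3_ok TI_l2963 _))
                (CovZ.n1 (81468, 82404) (by decide +kernel)
                 (CovZ.leaf K2_ok TI_l2964 _)
                 (CovZ.leaf K2_ok TI_l2965 _)))
               (CovZ.n1 (81360, 82440) (by decide +kernel)
                (CovZ.n2 (81396, 82476) (by decide +kernel)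
                 (CovZ.leaf K3_ok TI_l2966 _)
                 (CovZ.leaf K3_ok TI_l2967 _))
                (CovZ.leaf K2_ok TI_l2968 _))))))
           (CovZ.n1 (81648, 82512) (by decide +kernel)
            (CovZ.n2 (81648, 82368) (by decide +kernel)
             (CovZ.n2 (81576, 82440) (by decide +kernel)
              (CovZ.n2 (81648, 82440) (by decide +kernel)
               (CovZ.leaf K2_ok TI_l2969 _)
               (CovZ.leaf K3_ok TI_l2970 _))
              (CovZ.n1 (81576, 82368) (by decide +kernel)
               (CovZ.n2 (81540, 82404) (by decide +kernel)
                (CovZ.leaf K2_ok TI_l2971 _)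
                (CovZ.leaf K2_ok TI_l2972 _))
               (CovZ.leaf K2_ok TI_l2973 _)))
             (CovZ.n1 (81720, 82440) (by decide +kernel)
              (CovZ.n2 (81720, 82368) (by decide +kernel)
               (CovZ.leaf K2_ok TI_l2974 _)
               (CovZ.leaf K2_ok TI_l2975 _))
              (CovZ.leaf K3_ok TI_l2976 _)))
            (CovZ.n1 (81504, 82512) (by decide +kernel)
             (CovZ.n2 (81576, 82584) (by decide +kernel)
              (CovZ.n2 (81576, 82512) (by decide +kernel)
               (CovZ.leaf K2_ok TI_l2977 _)
               (CovZ.leaf K3_ok TI_l2978 _))
              (CovZ.leaf K3_ok TI_l2979 _))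
             (CovZ.n1 (81576, 82440) (by decide +kernel)
              (CovZ.n2 (81504, 82440) (by decide +kernel)
               (CovZ.leaf K2_ok TI_l2980 _)
               (CovZ.leaf K2_ok TI_l2981 _))
              (CovZ.n1 (81576, 82512) (by decide +kernel)
               (CovZ.leaf K3_ok TI_l2982 _)
               (CovZ.leaf K2_ok TI_l2983 _)))))))

theorem TI_u45 : CovZ TI_M (toL (selN TI_LN 3213863828553652858965688248979634076924844223867886407652751)) [0, 7, 6, 1] (82944, 82944) (81792, 82944) (81792, 81792) :=
    (CovZ.n2 (82368, 82368) (by decide +kernel)
        (CovZ.n2 (81792, 82368) (by decide +kernel)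
         (CovZ.n2 (82080, 82656) (by decide +kernel)
          (CovZ.n2 (82080, 82368) (by decide +kernel)
           (CovZ.n2 (81936, 82512) (by decide +kernel)
            (CovZ.n2 (82080, 82512) (by decide +kernel)
             (CovZ.n2 (82008, 82440) (by decide +kernel)
              (CovZ.leaf K3_ok TI_l2362 _)
              (CovZ.n1 (82080, 82440) (by decide +kernel)
               (CovZ.leaf K2_ok TI_l2363 _)
               (CovZ.leaf K2_ok TI_l2364 _)))
             (CovZ.n1 (82008, 82584) (by decide +kernel)
              (CovZ.leaf K3_ok TI_l2365 _)
              (CovZ.leaf K3_ok TI_l2366 _)))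
            (CovZ.n1 (81936, 82368) (by decide +kernel)
             (CovZ.n2 (81864, 82440) (by decide +kernel)
              (CovZ.n2 (81936, 82440) (by decide +kernel)
               (CovZ.leaf K3_ok TI_l2367 _)
               (CovZ.leaf K3_ok TI_l2368 _))
              (CovZ.n1 (81864, 82368) (by decide +kernel)
               (CovZ.leaf K2_ok TI_l2369 _)
               (CovZ.leaf K3_ok TI_l2370 _)))
             (CovZ.n1 (82008, 82440) (by decide +kernel)
              (CovZ.n2 (82008, 82368) (by decide +kernel)
               (CovZ.leaf K2_ok TI_l2371 _)
               (CovZ.leaf K2_ok TI_l2372 _))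
              (CovZ.leaf K3_ok TI_l2373 _))))
           (CovZ.n1 (82224, 82512) (by decide +kernel)
            (CovZ.n2 (82224, 82368) (by decide +kernel)
             (CovZ.n2 (82152, 82440) (by decide +kernel)
              (CovZ.leaf K3_ok TI_l2374 _)
              (CovZ.n1 (82152, 82368) (by decide +kernel)
               (CovZ.leaf K2_ok TI_l2375 _)
               (CovZ.leaf K3_ok TI_l2376 _)))
             (CovZ.n1 (82296, 82440) (by decide +kernel)
              (CovZ.n2 (82296, 82368) (by decide +kernel)
               (CovZ.leaf K2_ok TI_l2377 _)
               (CovZ.leaf K2_ok TI_l2378 _))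
              (CovZ.leaf K3_ok TI_l2379 _)))
            (CovZ.n1 (82080, 82512) (by decide +kernel)
             (CovZ.n2 (82152, 82584) (by decide +kernel)
              (CovZ.leaf K3_ok TI_l2380 _)
              (CovZ.leaf K3_ok TI_l2381 _))
             (CovZ.leaf K3_ok TI_l2382 _))))
          (CovZ.n1 (81792, 82656) (by decide +kernel)
           (CovZ.n2 (81936, 82800) (by decide +kernel)
            (CovZ.n2 (81936, 82656) (by decide +kernel)
             (CovZ.n2 (81864, 82728) (by decide +kernel)
              (CovZ.leaf K3_ok TI_l2383 _)
              (CovZ.leaf K3_ok TI_l2384 _))
             (CovZ.n1 (82008, 82728) (by decide +kernel)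
              (CovZ.leaf K3_ok TI_l2385 _)
              (CovZ.leaf K3_ok TI_l2386 _)))
            (CovZ.n1 (81792, 82800) (by decide +kernel)
             (CovZ.n2 (81864, 82872) (by decide +kernel)
              (CovZ.leaf K3_ok TI_l2387 _)
              (CovZ.leaf K3_ok TI_l2388 _))
             (CovZ.leaf K3_ok TI_l2389 _)))
           (CovZ.n1 (81936, 82512) (by decide +kernel)
            (CovZ.n2 (81792, 82512) (by decide +kernel)
             (CovZ.n2 (81864, 82584) (by decide +kernel)
              (CovZ.n2 (81864, 82512) (by decide +kernel)
               (CovZ.leaf K3_ok TI_l2390 _)
               (CovZ.leaf K3_ok TI_l2391 _))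
              (CovZ.leaf K3_ok TI_l2392 _))
             (CovZ.n1 (81864, 82440) (by decide +kernel)
              (CovZ.leaf K3_ok TI_l2393 _)
              (CovZ.n1 (81864, 82512) (by decide +kernel)
               (CovZ.leaf K3_ok TI_l2394 _)
               (CovZ.leaf K2_ok TI_l2395 _))))
            (CovZ.n1 (81936, 82656) (by decide +kernel)
             (CovZ.leaf K3_ok TI_l2396 _)
             (CovZ.n1 (81864, 82584) (by decide +kernel)
              (CovZ.leaf K2_ok TI_l2397 _)
              (CovZ.n1 (81936, 82584) (by decide +kernel)
               (CovZ.leaf K3_ok TI_l2398 _)
               (CovZ.leaf K3_ok TI_l2399 _)))))))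
         (CovZ.n1 (82080, 82080) (by decide +kernel)
          TI_u39
          TI_u40))
        (CovZ.n1 (82368, 82944) (by decide +kernel)
         (CovZ.n2 (82656, 82656) (by decide +kernel)
          (CovZ.n2 (82368, 82656) (by decide +kernel)
           (CovZ.n2 (82512, 82800) (by decide +kernel)
            (CovZ.n2 (82512, 82656) (by decide +kernel)
             (CovZ.leaf K3_ok TI_l2525 _)
             (CovZ.leaf K3_ok TI_l2526 _))
            (CovZ.leaf K3_ok TI_l2527 _))
           (CovZ.n1 (82512, 82512) (by decide +kernel)
            (CovZ.n2 (82368, 82512) (by decide +kernel)
             (CovZ.n2 (82440, 82584) (by decide +kernel)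
              (CovZ.leaf K3_ok TI_l2528 _)
              (CovZ.leaf K3_ok TI_l2529 _))
             (CovZ.leaf K3_ok TI_l2530 _))
            (CovZ.n1 (82512, 82656) (by decide +kernel)
             (CovZ.leaf K3_ok TI_l2531 _)
             (CovZ.n1 (82440, 82584) (by decide +kernel)
              (CovZ.leaf K3_ok TI_l2532 _)
              (CovZ.leaf K3_ok TI_l2533 _)))))
          (CovZ.n1 (82656, 82944) (by decide +kernel)
           (CovZ.leaf K3_ok TI_l2534 _)
           (CovZ.n1 (82512, 82800) (by decide +kernel)
            (CovZ.leaf K3_ok TI_l2535 _)
            (CovZ.n1 (82656, 82800) (by decide +kernel)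
             (CovZ.leaf K3_ok TI_l2536 _)
             (CovZ.leaf K3_ok TI_l2537 _)))))
         (CovZ.n1 (82080, 82656) (by decide +kernel)
          (CovZ.n2 (82080, 82944) (by decide +kernel)
           (CovZ.n2 (82224, 82800) (by decide +kernel)
            (CovZ.leaf K3_ok TI_l2538 _)
            (CovZ.n1 (82224, 82944) (by decide +kernel)
             (CovZ.leaf K3_ok TI_l2539 _)
             (CovZ.leaf K3_ok TI_l2540 _)))
           (CovZ.n1 (81936, 82800) (by decide +kernel)
            (CovZ.n2 (81936, 82944) (by decide +kernel)
             (CovZ.leaf K2_ok TI_l2541 _)
             (CovZ.n1 (81864, 82872) (by decide +kernel)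
              (CovZ.leaf K3_ok TI_l2542 _)
              (CovZ.leaf K3_ok TI_l2543 _)))
            (CovZ.n1 (82080, 82800) (by decide +kernel)
             (CovZ.n2 (82008, 82728) (by decide +kernel)
              (CovZ.leaf K3_ok TI_l2544 _)
              (CovZ.leaf K3_ok TI_l2545 _))
             (CovZ.leaf K3_ok TI_l2546 _))))
          (CovZ.n1 (82368, 82656) (by decide +kernel)
           (CovZ.n2 (82224, 82512) (by decide +kernel)
            (CovZ.n2 (82224, 82656) (by decide +kernel)
             (CovZ.leaf K3_ok TI_l2547 _)
             (CovZ.n1 (82152, 82584) (by decide +kernel)
              (CovZ.leaf K3_ok TI_l2548 _)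
              (CovZ.leaf K3_ok TI_l2549 _)))
            (CovZ.n1 (82368, 82512) (by decide +kernel)
             (CovZ.n2 (82296, 82440) (by decide +kernel)
              (CovZ.leaf K3_ok TI_l2550 _)
              (CovZ.leaf K3_ok TI_l2551 _))
             (CovZ.n1 (82296, 82584) (by decide +kernel)
              (CovZ.leaf K3_ok TI_l2552 _)
              (CovZ.leaf K3_ok TI_l2553 _))))
           (CovZ.n1 (82224, 82800) (by decide +kernel)
            (CovZ.n2 (82368, 82800) (by decide +kernel)
             (CovZ.leaf K3_ok TI_l2554 _)
             (CovZ.leaf K3_ok TI_l2555 _))
            (CovZ.n1 (82224, 82656) (by decide +kernel)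
             (CovZ.leaf K3_ok TI_l2556 _)
             (CovZ.leaf K3_ok TI_l2557 _)))))))

theorem TI_u46 : CovZ TI_M (toL (selN TI_LN 3213863828553652858965688248979634076924844223867886407652751)) [0, 7, 6, 1] (81792, 82944) (80640, 82944) (81792, 81792) :=
    (CovZ.n1 (81216, 82368) (by decide +kernel)
        (CovZ.n2 (81216, 82944) (by decide +kernel)
         (CovZ.n2 (81504, 82656) (by decide +kernel)
          (CovZ.subM 531157463535857976571143092646544514309523007827372253643918 (by decide +kernel)
           (CovZ.n2 (81216, 82656) (by decide +kernel)
            (CovZ.n2 (81360, 82800) (by decide +kernel)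
             (CovZ.n2 (81360, 82656) (by decide +kernel)
              (CovZ.n2 (81288, 82728) (by decide +kernel)
               (CovZ.n2 (81360, 82728) (by decide +kernel)
                (CovZ.leaf K2_ok TI_l2558 _)
                (CovZ.leaf K2_ok TI_l2559 _))
               (CovZ.n1 (81288, 82656) (by decide +kernel)
                (CovZ.leaf K2_ok TI_l2560 _)
                (CovZ.leaf K2_ok TI_l2561 _)))
              (CovZ.n1 (81432, 82728) (by decide +kernel)
               (CovZ.n2 (81432, 82656) (by decide +kernel)
                (CovZ.leaf K2_ok TI_l2562 _)
                (CovZ.leaf K3_ok TI_l2563 _))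
               (CovZ.leaf K2_ok TI_l2564 _)))
             (CovZ.n1 (81216, 82800) (by decide +kernel)
              (CovZ.n2 (81288, 82872) (by decide +kernel)
               (CovZ.n2 (81288, 82800) (by decide +kernel)
                (CovZ.leaf K2_ok TI_l2565 _)
                (CovZ.leaf K2_ok TI_l2566 _))
               (CovZ.leaf K2_ok TI_l2567 _))
              (CovZ.leaf K2_ok TI_l2568 _)))
            (CovZ.n1 (81360, 82512) (by decide +kernel)
             (CovZ.n2 (81216, 82512) (by decide +kernel)
              (CovZ.n2 (81288, 82584) (by decide +kernel)
               (CovZ.n2 (81288, 82512) (by decide +kernel)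
                (CovZ.leaf K2_ok TI_l2569 _)
                (CovZ.n1 (81324, 82548) (by decide +kernel)
                 (CovZ.leaf K3_ok TI_l2570 _)
                 (CovZ.leaf K2_ok TI_l2571 _)))
               (CovZ.n1 (81216, 82584) (by decide +kernel)
                (CovZ.leaf K2_ok TI_l2572 _)
                (CovZ.leaf K2_ok TI_l2573 _)))
              (CovZ.n1 (81288, 82440) (by decide +kernel)
               (CovZ.n2 (81216, 82440) (by decide +kernel)
                (CovZ.n2 (81252, 82476) (by decide +kernel)
                 (CovZ.leaf K2_ok TI_l2574 _)
                 (CovZ.leaf K2_ok TI_l2575 _))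
                (CovZ.leaf K2_ok TI_l2576 _))
               (CovZ.n1 (81288, 82512) (by decide +kernel)
                (CovZ.leaf K3_ok TI_l2577 _)
                (CovZ.n1 (81252, 82476) (by decide +kernel)
                 (CovZ.leaf K2_ok TI_l2578 _)
                 (CovZ.leaf K2_ok TI_l2579 _)))))
             (CovZ.n1 (81360, 82656) (by decide +kernel)
              (CovZ.leaf K3_ok TI_l2580 _)
              (CovZ.n1 (81288, 82584) (by decide +kernel)
               (CovZ.n2 (81288, 82656) (by decide +kernel)
                (CovZ.leaf K2_ok TI_l2581 _)
                (CovZ.leaf K2_ok TI_l2582 _))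
               (CovZ.n1 (81360, 82584) (by decide +kernel)
                (CovZ.leaf K2_ok TI_l2583 _)
                (CovZ.leaf K2_ok TI_l2584 _)))))))
          (CovZ.n1 (81504, 82944) (by decide +kernel)
           (CovZ.n2 (81648, 82800) (by decide +kernel)
            (CovZ.n2 (81504, 82800) (by decide +kernel)
             (CovZ.n2 (81576, 82872) (by decide +kernel)
              (CovZ.leaf K3_ok TI_l2585 _)
              (CovZ.leaf K2_ok TI_l2586 _))
             (CovZ.leaf K2_ok TI_l2587 _))
            (CovZ.n1 (81648, 82944) (by decide +kernel)
             (CovZ.leaf K3_ok TI_l2588 _)
             (CovZ.n1 (81576, 82872) (by decide +kernel)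
              (CovZ.leaf K3_ok TI_l2589 _)
              (CovZ.leaf K3_ok TI_l2590 _))))
           (CovZ.subM 531157463629394081360320879411580343603365121085351936394382 (by decide +kernel)
            (CovZ.n1 (81360, 82800) (by decide +kernel)
             (CovZ.n2 (81360, 82944) (by decide +kernel)
              (CovZ.leaf K2_ok TI_l2591 _)
              (CovZ.n1 (81288, 82872) (by decide +kernel)
               (CovZ.leaf K2_ok TI_l2592 _)
               (CovZ.leaf K2_ok TI_l2593 _)))
             (CovZ.n1 (81504, 82800) (by decide +kernel)
              (CovZ.n2 (81432, 82728) (by decide +kernel)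
               (CovZ.leaf K2_ok TI_l2594 _)
               (CovZ.leaf K3_ok TI_l2595 _))
              (CovZ.n1 (81432, 82872) (by decide +kernel)
               (CovZ.leaf K3_ok TI_l2596 _)
               (CovZ.leaf K2_ok TI_l2597 _)))))))
         (CovZ.subM 588491759839406791405079108453948126536291273816972198918 (by decide +kernel)
          (CovZ.n1 (80928, 82656) (by decide +kernel)
           (CovZ.n2 (80928, 82944) (by decide +kernel)
            (CovZ.n2 (81072, 82800) (by decide +kernel)
             (CovZ.n2 (80928, 82800) (by decide +kernel)
              (CovZ.n2 (81000, 82872) (by decide +kernel)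
               (CovZ.n2 (81000, 82800) (by decide +kernel)
                (CovZ.leaf K2_ok TI_l2598 _)
                (CovZ.leaf K2_ok TI_l2599 _))
               (CovZ.leaf K2_ok TI_l2600 _))
              (CovZ.n1 (81000, 82728) (by decide +kernel)
               (CovZ.n2 (80928, 82728) (by decide +kernel)
                (CovZ.leaf K2_ok TI_l2601 _)
                (CovZ.leaf K2_ok TI_l2602 _))
               (CovZ.leaf K2_ok TI_l2603 _)))
             (CovZ.n1 (81072, 82944) (by decide +kernel)
              (CovZ.leaf K2_ok TI_l2604 _)
              (CovZ.n1 (81000, 82872) (by decide +kernel)
               (CovZ.leaf K2_ok TI_l2605 _)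
               (CovZ.n1 (81072, 82872) (by decide +kernel)
                (CovZ.leaf K2_ok TI_l2606 _)
                (CovZ.leaf K2_ok TI_l2607 _)))))
            (CovZ.n1 (80784, 82800) (by decide +kernel)
             (CovZ.n2 (80784, 82944) (by decide +kernel)
              (CovZ.n2 (80856, 82872) (by decide +kernel)
               (CovZ.leaf K2_ok TI_l2608 _)
               (CovZ.leaf K2_ok TI_l2609 _))
              (CovZ.subM 425467229915551125534116718808032871428 (by decide +kernel)
               (CovZ.n1 (80712, 82872) (by decide +kernel)
                (CovZ.n2 (80712, 82944) (by decide +kernel)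
                 (CovZ.leaf K2_ok TI_l2610 _)
                 (CovZ.leaf K2_ok TI_l2611 _))
                (CovZ.n1 (80784, 82872) (by decide +kernel)
                 (CovZ.leaf K2_ok TI_l2612 _)
                 (CovZ.leaf K2_ok TI_l2613 _)))))
             (CovZ.n1 (80928, 82800) (by decide +kernel)
              (CovZ.n2 (80856, 82728) (by decide +kernel)
               (CovZ.leaf K2_ok TI_l2614 _)
               (CovZ.n1 (80928, 82728) (by decide +kernel)
                (CovZ.n2 (80892, 82692) (by decide +kernel)
                 (CovZ.leaf K2_ok TI_l2615 _)
                 (CovZ.leaf K2_ok TI_l2616 _))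
                (CovZ.leaf K2_ok TI_l2617 _)))
              (CovZ.n1 (80856, 82872) (by decide +kernel)
               (CovZ.n2 (80928, 82872) (by decide +kernel)
                (CovZ.leaf K2_ok TI_l2618 _)
                (CovZ.leaf K2_ok TI_l2619 _))
               (CovZ.n1 (80856, 82800) (by decide +kernel)
                (CovZ.leaf K2_ok TI_l2620 _)
                (CovZ.leaf K2_ok TI_l2621 _))))))
           (CovZ.n1 (81216, 82656) (by decide +kernel)
            (CovZ.n2 (81072, 82512) (by decide +kernel)
             (CovZ.n2 (81072, 82656) (by decide +kernel)
              (CovZ.n2 (81144, 82584) (by decide +kernel)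
               (CovZ.n2 (81072, 82584) (by decide +kernel)
                (CovZ.leaf K2_ok TI_l2622 _)
                (CovZ.leaf K2_ok TI_l2623 _))
               (CovZ.n1 (81144, 82656) (by decide +kernel)
                (CovZ.leaf K2_ok TI_l2624 _)
                (CovZ.n1 (81108, 82620) (by decide +kernel)
                 (CovZ.leaf K2_ok TI_l2625 _)
                 (CovZ.leaf K2_ok TI_l2626 _))))
              (CovZ.n1 (81000, 82584) (by decide +kernel)
               (CovZ.n2 (81000, 82656) (by decide +kernel)
                (CovZ.leaf K2_ok TI_l2627 _)
                (CovZ.n1 (80964, 82620) (by decide +kernel)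
                 (CovZ.leaf K2_ok TI_l2628 _)
                 (CovZ.leaf K2_ok TI_l2629 _)))
               (CovZ.n1 (81072, 82584) (by decide +kernel)
                (CovZ.n2 (81036, 82548) (by decide +kernel)
                 (CovZ.leaf K2_ok TI_l2630 _)
                 (CovZ.leaf K2_ok TI_l2631 _))
                (CovZ.n1 (81036, 82620) (by decide +kernel)
                 (CovZ.leaf K2_ok TI_l2632 _)
                 (CovZ.leaf K2_ok TI_l2633 _)))))
             (CovZ.n1 (81216, 82512) (by decide +kernel)
              (CovZ.n2 (81144, 82440) (by decide +kernel)
               (CovZ.n2 (81144, 82512) (by decide +kernel)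
                (CovZ.leaf K2_ok TI_l2634 _)
                (CovZ.n1 (81108, 82476) (by decide +kernel)
                 (CovZ.leaf K2_ok TI_l2635 _)
                 (CovZ.leaf K2_ok TI_l2636 _)))
               (CovZ.n1 (81216, 82440) (by decide +kernel)
                (CovZ.n2 (81180, 82404) (by decide +kernel)
                 (CovZ.leaf K2_ok TI_l2637 _)
                 (CovZ.n1 (81216, 82404) (by decide +kernel)
                  (CovZ.leaf K2_ok TI_l2638 _)
                  (CovZ.leaf K2_ok TI_l2639 _)))
                (CovZ.n1 (81180, 82476) (by decide +kernel)
                 (CovZ.leaf K2_ok TI_l2640 _)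
                 (CovZ.leaf K2_ok TI_l2641 _))))
              (CovZ.n1 (81144, 82584) (by decide +kernel)
               (CovZ.n2 (81216, 82584) (by decide +kernel)
                (CovZ.n2 (81180, 82548) (by decide +kernel)
                 (CovZ.leaf K2_ok TI_l2642 _)
                 (CovZ.leaf K2_ok TI_l2643 _))
                (CovZ.n1 (81180, 82620) (by decide +kernel)
                 (CovZ.leaf K2_ok TI_l2644 _)
                 (CovZ.leaf K2_ok TI_l2645 _)))
               (CovZ.n1 (81144, 82512) (by decide +kernel)
                (CovZ.n2 (81108, 82548) (by decide +kernel)
                 (CovZ.leaf K2_ok TI_l2646 _)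
                 (CovZ.n1 (81108, 82512) (by decide +kernel)
                  (CovZ.leaf K2_ok TI_l2647 _)
                  (CovZ.leaf K2_ok TI_l2648 _)))
                (CovZ.n1 (81180, 82548) (by decide +kernel)
                 (CovZ.leaf K2_ok TI_l2649 _)
                 (CovZ.leaf K2_ok TI_l2650 _))))))
            (CovZ.n1 (81072, 82800) (by decide +kernel)
             (CovZ.n2 (81216, 82800) (by decide +kernel)
              (CovZ.n2 (81144, 82728) (by decide +kernel)
               (CovZ.leaf K2_ok TI_l2651 _)
               (CovZ.n1 (81216, 82728) (by decide +kernel)
                (CovZ.leaf K2_ok TI_l2652 _)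
                (CovZ.leaf K2_ok TI_l2653 _)))
              (CovZ.n1 (81144, 82872) (by decide +kernel)
               (CovZ.n2 (81216, 82872) (by decide +kernel)
                (CovZ.leaf K2_ok TI_l2654 _)
                (CovZ.leaf K2_ok TI_l2655 _))
               (CovZ.n1 (81144, 82800) (by decide +kernel)
                (CovZ.leaf K2_ok TI_l2656 _)
                (CovZ.leaf K2_ok TI_l2657 _))))
             (CovZ.n1 (81072, 82656) (by decide +kernel)
              (CovZ.n2 (81000, 82728) (by decide +kernel)
               (CovZ.n2 (81072, 82728) (by decide +kernel)
                (CovZ.leaf K2_ok TI_l2658 _)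
                (CovZ.leaf K2_ok TI_l2659 _))
               (CovZ.n1 (81000, 82656) (by decide +kernel)
                (CovZ.n2 (80964, 82692) (by decide +kernel)
                 (CovZ.leaf K2_ok TI_l2660 _)
                 (CovZ.leaf K2_ok TI_l2661 _))
                (CovZ.leaf K2_ok TI_l2662 _)))
              (CovZ.n1 (81144, 82728) (by decide +kernel)
               (CovZ.n2 (81144, 82656) (by decide +kernel)
                (CovZ.leaf K2_ok TI_l2663 _)
                (CovZ.leaf K2_ok TI_l2664 _))
               (CovZ.leaf K2_ok TI_l2665 _))))))))
        (CovZ.n1 (81792, 82368) (by decide +kernel)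
         TI_u43
         TI_u44))

theorem TI_u47 : CovZ TI_M (toL (selN TI_LN 425467229915549916608297104178858165252)) [0, 7, 6, 1] (80064, 82368) (80352, 82656) (80064, 82944) :=
    (CovZ.subM 85070591740138212042361697187668164608 (by decide +kernel)
            (CovZ.n2 (80064, 82656) (by decide +kernel)
             (CovZ.n2 (80208, 82800) (by decide +kernel)
              (CovZ.n2 (80208, 82656) (by decide +kernel)
               (CovZ.n2 (80136, 82728) (by decide +kernel)
                (CovZ.n2 (80208, 82728) (by decide +kernel)
                 (CovZ.subM 2097152 (by decide +kernel)
                  (CovZ.n2 (80172, 82692) (by decide +kernel)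
                   (CovZ.n2 (80172, 82728) (by decide +kernel)
                    (CovZ.leaf K3_ok TI_l2984 _)
                    (CovZ.n1 (80154, 82710) (by decide +kernel)
                     (CovZ.leaf K3_ok TI_l2985 _)
                     (CovZ.leaf K3_ok TI_l2986 _)))
                   (CovZ.n1 (80208, 82692) (by decide +kernel)
                    (CovZ.n2 (80190, 82674) (by decide +kernel)
                     (CovZ.n2 (80190, 82692) (by decide +kernel)
                      (CovZ.leaf K3_ok TI_l2987 _)
                      (CovZ.leaf K3_ok TI_l2988 _))
                     (CovZ.leaf K3_ok TI_l2989 _))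
                    (CovZ.n1 (80190, 82710) (by decide +kernel)
                     (CovZ.n2 (80208, 82710) (by decide +kernel)
                      (CovZ.leaf K3_ok TI_l2990 _)
                      (CovZ.leaf K3_ok TI_l2991 _))
                     (CovZ.leaf K3_ok TI_l2992 _)))))
                 (CovZ.n1 (80172, 82764) (by decide +kernel)
                  (CovZ.n2 (80208, 82764) (by decide +kernel)
                   (CovZ.leaf K3_ok TI_l2993 _)
                   (CovZ.n1 (80190, 82782) (by decide +kernel)
                    (CovZ.leaf K3_ok TI_l2994 _)
                    (CovZ.leaf K3_ok TI_l2995 _)))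
                  (CovZ.n1 (80172, 82728) (by decide +kernel)
                   (CovZ.n2 (80154, 82746) (by decide +kernel)
                    (CovZ.leaf K3_ok TI_l2996 _)
                    (CovZ.leaf K3_ok TI_l2997 _))
                   (CovZ.leaf K3_ok TI_l2998 _))))
                (CovZ.subM 2097152 (by decide +kernel)
                 (CovZ.n1 (80136, 82656) (by decide +kernel)
                  (CovZ.badM (by decide +kernel))
                  (CovZ.n1 (80172, 82692) (by decide +kernel)
                   (CovZ.badM (by decide +kernel))
                   (CovZ.n1 (80136, 82692) (by decide +kernel)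
                    (CovZ.n2 (80154, 82710) (by decide +kernel)
                     (CovZ.leaf K3_ok TI_l2999 _)
                     (CovZ.badM (by decide +kernel)))
                    (CovZ.badM (by decide +kernel)))))))
               (CovZ.n1 (80280, 82728) (by decide +kernel)
                (CovZ.n2 (80280, 82656) (by decide +kernel)
                 (CovZ.n2 (80244, 82692) (by decide +kernel)
                  (CovZ.n2 (80280, 82692) (by decide +kernel)
                   (CovZ.n2 (80262, 82674) (by decide +kernel)
                    (CovZ.leaf K3_ok TI_l3000 _)
                    (CovZ.leaf K3_ok TI_l3001 _))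
                   (CovZ.n1 (80262, 82710) (by decide +kernel)
                    (CovZ.leaf K3_ok TI_l3002 _)
                    (CovZ.leaf K3_ok TI_l3003 _)))
                  (CovZ.subM 85070591730234615875067023894798925824 (by decide +kernel)
                   (CovZ.n1 (80244, 82656) (by decide +kernel)
                    (CovZ.n2 (80226, 82674) (by decide +kernel)
                     (CovZ.leaf K3_ok TI_l3004 _)
                     (CovZ.badM (by decide +kernel)))
                    (CovZ.n1 (80262, 82674) (by decide +kernel)
                     (CovZ.leaf K3_ok TI_l3005 _)
                     (CovZ.leaf K3_ok TI_l3006 _)))))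
                 (CovZ.n1 (80316, 82692) (by decide +kernel)
                  (CovZ.n2 (80316, 82656) (by decide +kernel)
                   (CovZ.leaf K3_ok TI_l3007 _)
                   (CovZ.n1 (80334, 82674) (by decide +kernel)
                    (CovZ.leaf K3_ok TI_l3008 _)
                    (CovZ.leaf K3_ok TI_l3009 _)))
                  (CovZ.leaf K3_ok TI_l3010 _)))
                (CovZ.n1 (80208, 82728) (by decide +kernel)
                 (CovZ.n2 (80244, 82764) (by decide +kernel)
                  (CovZ.n2 (80244, 82728) (by decide +kernel)
                   (CovZ.leaf K3_ok TI_l3011 _)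
                   (CovZ.leaf K3_ok TI_l3012 _))
                  (CovZ.leaf K3_ok TI_l3013 _))
                 (CovZ.n1 (80244, 82692) (by decide +kernel)
                  (CovZ.n2 (80208, 82692) (by decide +kernel)
                   (CovZ.n2 (80226, 82710) (by decide +kernel)
                    (CovZ.leaf K3_ok TI_l3014 _)
                    (CovZ.leaf K3_ok TI_l3015 _))
                   (CovZ.leaf K3_ok TI_l3016 _))
                  (CovZ.n1 (80244, 82728) (by decide +kernel)
                   (CovZ.leaf K3_ok TI_l3017 _)
                   (CovZ.n1 (80226, 82710) (by decide +kernel)
                    (CovZ.leaf K3_ok TI_l3018 _)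
                    (CovZ.leaf K3_ok TI_l3019 _)))))))
              (CovZ.n1 (80064, 82800) (by decide +kernel)
               (CovZ.n2 (80136, 82872) (by decide +kernel)
                (CovZ.n2 (80136, 82800) (by decide +kernel)
                 (CovZ.badM (by decide +kernel))
                 (CovZ.n1 (80172, 82836) (by decide +kernel)
                  (CovZ.n2 (80172, 82800) (by decide +kernel)
                   (CovZ.leaf K3_ok TI_l3020 _)
                   (CovZ.leaf K3_ok TI_l3021 _))
                  (CovZ.leaf K3_ok TI_l3022 _)))
                (CovZ.badM (by decide +kernel)))
               (CovZ.n1 (80136, 82728) (by decide +kernel)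
                (CovZ.badM (by decide +kernel))
                (CovZ.n1 (80136, 82800) (by decide +kernel)
                 (CovZ.n2 (80172, 82764) (by decide +kernel)
                  (CovZ.leaf K3_ok TI_l3023 _)
                  (CovZ.leaf K3_ok TI_l3024 _))
                 (CovZ.subM 9903520314283042199192993792 (by decide +kernel)
                  (CovZ.n1 (80100, 82764) (by decide +kernel)
                   (CovZ.n2 (80100, 82800) (by decide +kernel)
                    (CovZ.leaf K3_ok TI_l3025 _)
                    (CovZ.badM (by decide +kernel)))
                   (CovZ.n1 (80136, 82764) (by decide +kernel)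
                    (CovZ.badM (by decide +kernel))
                    (CovZ.n1 (80118, 82782) (by decide +kernel)
                     (CovZ.leaf K3_ok TI_l3026 _)
                     (CovZ.badM (by decide +kernel))))))))))
             (CovZ.n1 (80208, 82512) (by decide +kernel)
              (CovZ.badM (by decide +kernel))
              (CovZ.n1 (80208, 82656) (by decide +kernel)
               (CovZ.n2 (80280, 82584) (by decide +kernel)
                (CovZ.badM (by decide +kernel))
                (CovZ.n1 (80280, 82656) (by decide +kernel)
                 (CovZ.n2 (80316, 82620) (by decide +kernel)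
                  (CovZ.subM 304371277216209698816 (by decide +kernel)
                   (CovZ.n2 (80280, 82620) (by decide +kernel)
                    (CovZ.n2 (80298, 82638) (by decide +kernel)
                     (CovZ.n2 (80298, 82620) (by decide +kernel)
                      (CovZ.leaf K3_ok TI_l3027 _)
                      (CovZ.leaf K3_ok TI_l3028 _))
                     (CovZ.leaf K3_ok TI_l3029 _))
                    (CovZ.n1 (80298, 82602) (by decide +kernel)
                     (CovZ.badM (by decide +kernel))
                     (CovZ.n1 (80298, 82620) (by decide +kernel)
                      (CovZ.leaf K3_ok TI_l3030 _)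
                      (CovZ.badM (by decide +kernel))))))
                  (CovZ.n1 (80316, 82656) (by decide +kernel)
                   (CovZ.leaf K3_ok TI_l3031 _)
                   (CovZ.n1 (80298, 82638) (by decide +kernel)
                    (CovZ.n2 (80298, 82656) (by decide +kernel)
                     (CovZ.n2 (80307, 82647) (by decide +kernel)
                      (CovZ.leaf K3_ok TI_l3032 _)
                      (CovZ.leaf K3_ok TI_l3033 _))
                     (CovZ.leaf K3_ok TI_l3034 _))
                    (CovZ.n1 (80316, 82638) (by decide +kernel)
                     (CovZ.n2 (80307, 82629) (by decide +kernel)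
                      (CovZ.leaf K3_ok TI_l3035 _)
                      (CovZ.leaf K3_ok TI_l3036 _))
                     (CovZ.leaf K3_ok TI_l3037 _)))))
                 (CovZ.subM 9223372036856872960 (by decide +kernel)
                  (CovZ.n1 (80244, 82620) (by decide +kernel)
                   (CovZ.n2 (80244, 82656) (by decide +kernel)
                    (CovZ.leaf K3_ok TI_l3038 _)
                    (CovZ.badM (by decide +kernel)))
                   (CovZ.n1 (80280, 82620) (by decide +kernel)
                    (CovZ.badM (by decide +kernel))
                    (CovZ.n1 (80262, 82638) (by decide +kernel)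
                     (CovZ.leaf K3_ok TI_l3039 _)
                     (CovZ.badM (by decide +kernel))))))))
               (CovZ.badM (by decide +kernel))))))

theorem TI_u48 : CovZ TI_M (toL (selN TI_LN 425467229915549916608297104178858165252)) [0, 7, 6, 1] (80352, 82656) (80640, 82944) (80064, 82944) :=
    (CovZ.n1 (80352, 82944) (by decide +kernel)
            (CovZ.n2 (80496, 82800) (by decide +kernel)
             (CovZ.subM 85153709213150305822145357016589139968 (by decide +kernel)
              (CovZ.n2 (80352, 82800) (by decide +kernel)
               (CovZ.n2 (80424, 82872) (by decide +kernel)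
                (CovZ.n2 (80424, 82800) (by decide +kernel)
                 (CovZ.n2 (80388, 82836) (by decide +kernel)
                  (CovZ.leaf K3_ok TI_l3040 _)
                  (CovZ.leaf K3_ok TI_l3041 _))
                 (CovZ.n1 (80460, 82836) (by decide +kernel)
                  (CovZ.leaf K3_ok TI_l3042 _)
                  (CovZ.leaf K3_ok TI_l3043 _)))
                (CovZ.n1 (80352, 82872) (by decide +kernel)
                 (CovZ.leaf K3_ok TI_l3044 _)
                 (CovZ.leaf K3_ok TI_l3045 _)))
               (CovZ.n1 (80424, 82728) (by decide +kernel)
                (CovZ.subM 85153668489874769358205161424042328064 (by decide +kernel)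
                 (CovZ.n2 (80352, 82728) (by decide +kernel)
                  (CovZ.n2 (80388, 82764) (by decide +kernel)
                   (CovZ.n2 (80388, 82728) (by decide +kernel)
                    (CovZ.leaf K3_ok TI_l3046 _)
                    (CovZ.leaf K3_ok TI_l3047 _))
                   (CovZ.leaf K3_ok TI_l3048 _))
                  (CovZ.n1 (80388, 82692) (by decide +kernel)
                   (CovZ.n2 (80352, 82692) (by decide +kernel)
                    (CovZ.n2 (80370, 82710) (by decide +kernel)
                     (CovZ.leaf K3_ok TI_l3049 _)
                     (CovZ.leaf K3_ok TI_l3050 _))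
                    (CovZ.leaf K3_ok TI_l3051 _))
                   (CovZ.n1 (80388, 82728) (by decide +kernel)
                    (CovZ.leaf K3_ok TI_l3052 _)
                    (CovZ.leaf K3_ok TI_l3053 _)))))
                (CovZ.n1 (80424, 82800) (by decide +kernel)
                 (CovZ.leaf K3_ok TI_l3054 _)
                 (CovZ.n1 (80388, 82764) (by decide +kernel)
                  (CovZ.leaf K3_ok TI_l3055 _)
                  (CovZ.leaf K3_ok TI_l3056 _))))))
             (CovZ.n1 (80496, 82944) (by decide +kernel)
              (CovZ.n2 (80568, 82872) (by decide +kernel)
               (CovZ.n2 (80496, 82872) (by decide +kernel)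
                (CovZ.leaf K2_ok TI_l3057 _)
                (CovZ.leaf K2_ok TI_l3058 _))
               (CovZ.n1 (80568, 82944) (by decide +kernel)
                (CovZ.leaf K2_ok TI_l3059 _)
                (CovZ.leaf K2_ok TI_l3060 _)))
              (CovZ.n1 (80424, 82872) (by decide +kernel)
               (CovZ.n2 (80424, 82944) (by decide +kernel)
                (CovZ.leaf K3_ok TI_l3061 _)
                (CovZ.n1 (80388, 82908) (by decide +kernel)
                 (CovZ.leaf K3_ok TI_l3062 _)
                 (CovZ.leaf K2_ok TI_l3063 _)))
               (CovZ.n1 (80496, 82872) (by decide +kernel)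
                (CovZ.n2 (80460, 82836) (by decide +kernel)
                 (CovZ.leaf K3_ok TI_l3064 _)
                 (CovZ.leaf K2_ok TI_l3065 _))
                (CovZ.leaf K2_ok TI_l3066 _)))))
            (CovZ.subM 85153709213150303460962115581766533120 (by decide +kernel)
             (CovZ.n1 (80208, 82800) (by decide +kernel)
              (CovZ.n2 (80208, 82944) (by decide +kernel)
               (CovZ.n2 (80280, 82872) (by decide +kernel)
                (CovZ.n2 (80208, 82872) (by decide +kernel)
                 (CovZ.n2 (80244, 82908) (by decide +kernel)
                  (CovZ.leaf K3_ok TI_l3067 _)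
                  (CovZ.leaf K3_ok TI_l3068 _))
                 (CovZ.leaf K3_ok TI_l3069 _))
                (CovZ.n1 (80280, 82944) (by decide +kernel)
                 (CovZ.leaf K3_ok TI_l3070 _)
                 (CovZ.n1 (80244, 82908) (by decide +kernel)
                  (CovZ.leaf K3_ok TI_l3071 _)
                  (CovZ.leaf K3_ok TI_l3072 _))))
               (CovZ.n1 (80136, 82872) (by decide +kernel)
                (CovZ.n2 (80136, 82944) (by decide +kernel)
                 (CovZ.leaf K2_ok TI_l3073 _)
                 (CovZ.n1 (80100, 82908) (by decide +kernel)
                  (CovZ.leaf K3_ok TI_l3074 _)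
                  (CovZ.leaf K3_ok TI_l3075 _)))
                (CovZ.n1 (80208, 82872) (by decide +kernel)
                 (CovZ.n2 (80172, 82836) (by decide +kernel)
                  (CovZ.leaf K3_ok TI_l3076 _)
                  (CovZ.leaf K3_ok TI_l3077 _))
                 (CovZ.n1 (80172, 82908) (by decide +kernel)
                  (CovZ.leaf K3_ok TI_l3078 _)
                  (CovZ.leaf K3_ok TI_l3079 _)))))
              (CovZ.n1 (80352, 82800) (by decide +kernel)
               (CovZ.n2 (80280, 82728) (by decide +kernel)
                (CovZ.n2 (80280, 82800) (by decide +kernel)
                 (CovZ.leaf K3_ok TI_l3080 _)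
                 (CovZ.subM 85153668489874769284418185128935686144 (by decide +kernel)
                  (CovZ.n1 (80244, 82764) (by decide +kernel)
                   (CovZ.leaf K3_ok TI_l3081 _)
                   (CovZ.n1 (80280, 82764) (by decide +kernel)
                    (CovZ.n2 (80262, 82746) (by decide +kernel)
                     (CovZ.leaf K3_ok TI_l3082 _)
                     (CovZ.leaf K3_ok TI_l3083 _))
                    (CovZ.leaf K3_ok TI_l3084 _)))))
                (CovZ.n1 (80352, 82728) (by decide +kernel)
                 (CovZ.subM 85070591740138212042361697187668164608 (by decide +kernel)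
                  (CovZ.n2 (80316, 82692) (by decide +kernel)
                   (CovZ.leaf K3_ok TI_l3085 _)
                   (CovZ.n1 (80352, 82692) (by decide +kernel)
                    (CovZ.n2 (80334, 82674) (by decide +kernel)
                     (CovZ.leaf K3_ok TI_l3086 _)
                     (CovZ.leaf K3_ok TI_l3087 _))
                    (CovZ.leaf K3_ok TI_l3088 _))))
                 (CovZ.n1 (80316, 82764) (by decide +kernel)
                  (CovZ.n2 (80352, 82764) (by decide +kernel)
                   (CovZ.leaf K3_ok TI_l3089 _)
                   (CovZ.leaf K3_ok TI_l3090 _))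
                  (CovZ.n1 (80316, 82728) (by decide +kernel)
                   (CovZ.leaf K2_ok TI_l3091 _)
                   (CovZ.leaf K2_ok TI_l3092 _)))))
               (CovZ.n1 (80280, 82872) (by decide +kernel)
                (CovZ.n2 (80352, 82872) (by decide +kernel)
                 (CovZ.n2 (80316, 82836) (by decide +kernel)
                  (CovZ.leaf K3_ok TI_l3093 _)
                  (CovZ.leaf K3_ok TI_l3094 _))
                 (CovZ.n1 (80316, 82908) (by decide +kernel)
                  (CovZ.leaf K3_ok TI_l3095 _)
                  (CovZ.leaf K3_ok TI_l3096 _)))
                (CovZ.n1 (80280, 82800) (by decide +kernel)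
                 (CovZ.n2 (80244, 82836) (by decide +kernel)
                  (CovZ.leaf K3_ok TI_l3097 _)
                  (CovZ.n1 (80244, 82800) (by decide +kernel)
                   (CovZ.leaf K3_ok TI_l3098 _)
                   (CovZ.leaf K3_ok TI_l3099 _)))
                 (CovZ.n1 (80316, 82836) (by decide +kernel)
                  (CovZ.n2 (80316, 82800) (by decide +kernel)
                   (CovZ.leaf K3_ok TI_l3100 _)
                   (CovZ.leaf K3_ok TI_l3101 _))
                  (CovZ.leaf K3_ok TI_l3102 _))))))))

theorem TI_u49 : CovZ TI_M (toL (selN TI_LN 425467229915549916608297104178858165252)) [0, 7, 6, 1] (80640, 82944) (80352, 82656) (80640, 82368) :=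
    (CovZ.n2 (80640, 82656) (by decide +kernel)
            (CovZ.n2 (80496, 82512) (by decide +kernel)
             (CovZ.n2 (80496, 82656) (by decide +kernel)
              (CovZ.n2 (80568, 82584) (by decide +kernel)
               (CovZ.subM 85153668489874771719388402858864934912 (by decide +kernel)
                (CovZ.n2 (80496, 82584) (by decide +kernel)
                 (CovZ.n2 (80532, 82620) (by decide +kernel)
                  (CovZ.n2 (80532, 82584) (by decide +kernel)
                   (CovZ.leaf K2_ok TI_l3103 _)
                   (CovZ.leaf K2_ok TI_l3104 _))
                  (CovZ.leaf K2_ok TI_l3105 _))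
                 (CovZ.n1 (80532, 82548) (by decide +kernel)
                  (CovZ.subM 85070591730234691432930749809122344960 (by decide +kernel)
                   (CovZ.n2 (80496, 82548) (by decide +kernel)
                    (CovZ.n2 (80514, 82566) (by decide +kernel)
                     (CovZ.leaf K2_ok TI_l3106 _)
                     (CovZ.leaf K2_ok TI_l3107 _))
                    (CovZ.n1 (80514, 82530) (by decide +kernel)
                     (CovZ.leaf K2_ok TI_l3108 _)
                     (CovZ.leaf K2_ok TI_l3109 _))))
                  (CovZ.leaf K2_ok TI_l3110 _))))
               (CovZ.n1 (80568, 82656) (by decide +kernel)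
                (CovZ.leaf K2_ok TI_l3111 _)
                (CovZ.subM 85153668489874771719388402858864934912 (by decide +kernel)
                 (CovZ.n1 (80532, 82620) (by decide +kernel)
                  (CovZ.n2 (80532, 82656) (by decide +kernel)
                   (CovZ.leaf K2_ok TI_l3112 _)
                   (CovZ.leaf K2_ok TI_l3113 _))
                  (CovZ.n1 (80568, 82620) (by decide +kernel)
                   (CovZ.leaf K2_ok TI_l3114 _)
                   (CovZ.leaf K2_ok TI_l3115 _))))))
              (CovZ.subM 85153668489874771719388402858864934912 (by decide +kernel)
               (CovZ.n1 (80424, 82584) (by decide +kernel)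
                (CovZ.n2 (80424, 82656) (by decide +kernel)
                 (CovZ.n2 (80460, 82620) (by decide +kernel)
                  (CovZ.n2 (80424, 82620) (by decide +kernel)
                   (CovZ.leaf K2_ok TI_l3116 _)
                   (CovZ.leaf K2_ok TI_l3117 _))
                  (CovZ.n1 (80460, 82656) (by decide +kernel)
                   (CovZ.leaf K2_ok TI_l3118 _)
                   (CovZ.n1 (80442, 82638) (by decide +kernel)
                    (CovZ.leaf K2_ok TI_l3119 _)
                    (CovZ.leaf K2_ok TI_l3120 _))))
                 (CovZ.subM 85070591740138212042361697187668164608 (by decide +kernel)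
                  (CovZ.n1 (80388, 82620) (by decide +kernel)
                   (CovZ.n2 (80388, 82656) (by decide +kernel)
                    (CovZ.leaf K2_ok TI_l3121 _)
                    (CovZ.n1 (80370, 82638) (by decide +kernel)
                     (CovZ.leaf K3_ok TI_l3122 _)
                     (CovZ.n1 (80388, 82638) (by decide +kernel)
                      (CovZ.leaf K2_ok TI_l3123 _)
                      (CovZ.leaf K3_ok TI_l3124 _))))
                   (CovZ.n1 (80424, 82620) (by decide +kernel)
                    (CovZ.n2 (80406, 82602) (by decide +kernel)
                     (CovZ.leaf K2_ok TI_l3125 _)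
                     (CovZ.leaf K2_ok TI_l3126 _))
                    (CovZ.leaf K2_ok TI_l3127 _)))))
                (CovZ.n1 (80496, 82584) (by decide +kernel)
                 (CovZ.subM 85070591730234691432930749809122344960 (by decide +kernel)
                  (CovZ.n2 (80460, 82548) (by decide +kernel)
                   (CovZ.n2 (80460, 82584) (by decide +kernel)
                    (CovZ.leaf K2_ok TI_l3128 _)
                    (CovZ.n1 (80442, 82566) (by decide +kernel)
                     (CovZ.leaf K2_ok TI_l3129 _)
                     (CovZ.n1 (80460, 82566) (by decide +kernel)
                      (CovZ.n2 (80451, 82557) (by decide +kernel)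
                       (CovZ.leaf K2_ok TI_l3130 _)
                       (CovZ.leaf K2_ok TI_l3131 _))
                      (CovZ.leaf K3_ok TI_l3132 _))))
                   (CovZ.n1 (80496, 82548) (by decide +kernel)
                    (CovZ.n2 (80478, 82530) (by decide +kernel)
                     (CovZ.leaf K2_ok TI_l3133 _)
                     (CovZ.leaf K2_ok TI_l3134 _))
                    (CovZ.n1 (80478, 82566) (by decide +kernel)
                     (CovZ.leaf K2_ok TI_l3135 _)
                     (CovZ.leaf K2_ok TI_l3136 _)))))
                 (CovZ.n1 (80460, 82620) (by decide +kernel)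
                  (CovZ.n2 (80496, 82620) (by decide +kernel)
                   (CovZ.n2 (80478, 82602) (by decide +kernel)
                    (CovZ.leaf K3_ok TI_l3137 _)
                    (CovZ.n1 (80496, 82602) (by decide +kernel)
                     (CovZ.leaf K2_ok TI_l3138 _)
                     (CovZ.leaf K2_ok TI_l3139 _)))
                   (CovZ.leaf K2_ok TI_l3140 _))
                  (CovZ.subM 85070591730234691728078654988475170816 (by decide +kernel)
                   (CovZ.n1 (80460, 82584) (by decide +kernel)
                    (CovZ.n2 (80442, 82602) (by decide +kernel)
                     (CovZ.leaf K3_ok TI_l3141 _)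
                     (CovZ.leaf K3_ok TI_l3142 _))
                    (CovZ.n1 (80478, 82602) (by decide +kernel)
                     (CovZ.n2 (80478, 82584) (by decide +kernel)
                      (CovZ.leaf K3_ok TI_l3143 _)
                      (CovZ.leaf K2_ok TI_l3144 _))
                     (CovZ.leaf K2_ok TI_l3145 _)))))))))
             (CovZ.n1 (80640, 82512) (by decide +kernel)
              (CovZ.subM 85070591730234615948854000189635035136 (by decide +kernel)
               (CovZ.n2 (80568, 82440) (by decide +kernel)
                (CovZ.n2 (80568, 82512) (by decide +kernel)
                 (CovZ.n2 (80604, 82476) (by decide +kernel)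
                  (CovZ.badM (by decide +kernel))
                  (CovZ.n1 (80604, 82512) (by decide +kernel)
                   (CovZ.leaf K2_ok TI_l3146 _)
                   (CovZ.n1 (80586, 82494) (by decide +kernel)
                    (CovZ.leaf K2_ok TI_l3147 _)
                    (CovZ.leaf K2_ok TI_l3148 _))))
                 (CovZ.badM (by decide +kernel)))
                (CovZ.n1 (80640, 82440) (by decide +kernel)
                 (CovZ.badM (by decide +kernel))
                 (CovZ.n1 (80604, 82476) (by decide +kernel)
                  (CovZ.n2 (80640, 82476) (by decide +kernel)
                   (CovZ.badM (by decide +kernel))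
                   (CovZ.n1 (80622, 82494) (by decide +kernel)
                    (CovZ.leaf K2_ok TI_l3149 _)
                    (CovZ.badM (by decide +kernel))))
                  (CovZ.badM (by decide +kernel))))))
              (CovZ.n1 (80568, 82584) (by decide +kernel)
               (CovZ.n2 (80640, 82584) (by decide +kernel)
                (CovZ.subM 85153668489874771719390654658678621188 (by decide +kernel)
                 (CovZ.n2 (80604, 82548) (by decide +kernel)
                  (CovZ.leaf K2_ok TI_l3150 _)
                  (CovZ.n1 (80640, 82548) (by decide +kernel)
                   (CovZ.n2 (80622, 82530) (by decide +kernel)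
                    (CovZ.leaf K2_ok TI_l3151 _)
                    (CovZ.leaf K2_ok TI_l3152 _))
                   (CovZ.leaf K2_ok TI_l3153 _))))
                (CovZ.n1 (80604, 82620) (by decide +kernel)
                 (CovZ.leaf K2_ok TI_l3154 _)
                 (CovZ.n1 (80604, 82584) (by decide +kernel)
                  (CovZ.leaf K2_ok TI_l3155 _)
                  (CovZ.leaf K2_ok TI_l3156 _))))
               (CovZ.subM 85153668479971248748776465845310194692 (by decide +kernel)
                (CovZ.n1 (80568, 82512) (by decide +kernel)
                 (CovZ.n2 (80532, 82548) (by decide +kernel)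
                  (CovZ.n2 (80568, 82548) (by decide +kernel)
                   (CovZ.n2 (80550, 82530) (by decide +kernel)
                    (CovZ.leaf K2_ok TI_l3157 _)
                    (CovZ.n1 (80568, 82530) (by decide +kernel)
                     (CovZ.leaf K2_ok TI_l3158 _)
                     (CovZ.leaf K2_ok TI_l3159 _)))
                   (CovZ.leaf K2_ok TI_l3160 _))
                  (CovZ.n1 (80532, 82512) (by decide +kernel)
                   (CovZ.leaf K2_ok TI_l3161 _)
                   (CovZ.n1 (80550, 82530) (by decide +kernel)
                    (CovZ.leaf K2_ok TI_l3162 _)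
                    (CovZ.leaf K2_ok TI_l3163 _))))
                 (CovZ.n1 (80604, 82548) (by decide +kernel)
                  (CovZ.n2 (80604, 82512) (by decide +kernel)
                   (CovZ.n2 (80586, 82530) (by decide +kernel)
                    (CovZ.leaf K2_ok TI_l3164 _)
                    (CovZ.leaf K2_ok TI_l3165 _))
                   (CovZ.n1 (80622, 82530) (by decide +kernel)
                    (CovZ.leaf K2_ok TI_l3166 _)
                    (CovZ.leaf K2_ok TI_l3167 _)))
                  (CovZ.n1 (80568, 82548) (by decide +kernel)
                   (CovZ.n2 (80586, 82566) (by decide +kernel)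
                    (CovZ.leaf K2_ok TI_l3168 _)
                    (CovZ.leaf K2_ok TI_l3169 _))
                   (CovZ.leaf K2_ok TI_l3170 _))))))))
            (CovZ.n1 (80496, 82800) (by decide +kernel)
             (CovZ.n2 (80640, 82800) (by decide +kernel)
              (CovZ.n2 (80568, 82728) (by decide +kernel)
               (CovZ.n2 (80568, 82800) (by decide +kernel)
                (CovZ.leaf K2_ok TI_l3171 _)
                (CovZ.n1 (80532, 82764) (by decide +kernel)
                 (CovZ.leaf K3_ok TI_l3172 _)
                 (CovZ.leaf K2_ok TI_l3173 _)))
               (CovZ.n1 (80640, 82728) (by decide +kernel)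
                (CovZ.n2 (80604, 82692) (by decide +kernel)
                 (CovZ.leaf K2_ok TI_l3174 _)
                 (CovZ.leaf K2_ok TI_l3175 _))
                (CovZ.n1 (80604, 82764) (by decide +kernel)
                 (CovZ.leaf K2_ok TI_l3176 _)
                 (CovZ.leaf K2_ok TI_l3177 _))))
              (CovZ.n1 (80568, 82872) (by decide +kernel)
               (CovZ.n2 (80640, 82872) (by decide +kernel)
                (CovZ.n2 (80604, 82836) (by decide +kernel)
                 (CovZ.leaf K2_ok TI_l3178 _)
                 (CovZ.leaf K2_ok TI_l3179 _))
                (CovZ.leaf K2_ok TI_l3180 _))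
               (CovZ.n1 (80568, 82800) (by decide +kernel)
                (CovZ.n2 (80532, 82836) (by decide +kernel)
                 (CovZ.leaf K2_ok TI_l3181 _)
                 (CovZ.leaf K2_ok TI_l3182 _))
                (CovZ.n1 (80604, 82836) (by decide +kernel)
                 (CovZ.leaf K2_ok TI_l3183 _)
                 (CovZ.leaf K2_ok TI_l3184 _)))))
             (CovZ.n1 (80496, 82656) (by decide +kernel)
              (CovZ.subM 85153709054693980793616681829484462080 (by decide +kernel)
               (CovZ.n2 (80424, 82728) (by decide +kernel)
                (CovZ.n2 (80496, 82728) (by decide +kernel)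
                 (CovZ.n2 (80460, 82692) (by decide +kernel)
                  (CovZ.leaf K3_ok TI_l3185 _)
                  (CovZ.n1 (80496, 82692) (by decide +kernel)
                   (CovZ.leaf K3_ok TI_l3186 _)
                   (CovZ.leaf K3_ok TI_l3187 _)))
                 (CovZ.n1 (80460, 82764) (by decide +kernel)
                  (CovZ.leaf K2_ok TI_l3188 _)
                  (CovZ.n1 (80460, 82728) (by decide +kernel)
                   (CovZ.leaf K2_ok TI_l3189 _)
                   (CovZ.leaf K2_ok TI_l3190 _))))
                (CovZ.n1 (80424, 82656) (by decide +kernel)
                 (CovZ.n2 (80388, 82692) (by decide +kernel)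
                  (CovZ.n2 (80424, 82692) (by decide +kernel)
                   (CovZ.n2 (80406, 82674) (by decide +kernel)
                    (CovZ.leaf K3_ok TI_l3191 _)
                    (CovZ.leaf K2_ok TI_l3192 _))
                   (CovZ.leaf K3_ok TI_l3193 _))
                  (CovZ.n1 (80388, 82656) (by decide +kernel)
                   (CovZ.leaf K2_ok TI_l3194 _)
                   (CovZ.n1 (80406, 82674) (by decide +kernel)
                    (CovZ.leaf K3_ok TI_l3195 _)
                    (CovZ.leaf K3_ok TI_l3196 _))))
                 (CovZ.n1 (80460, 82692) (by decide +kernel)
                  (CovZ.n2 (80460, 82656) (by decide +kernel)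
                   (CovZ.leaf K2_ok TI_l3197 _)
                   (CovZ.leaf K3_ok TI_l3198 _))
                  (CovZ.n1 (80424, 82692) (by decide +kernel)
                   (CovZ.n2 (80442, 82710) (by decide +kernel)
                    (CovZ.leaf K2_ok TI_l3199 _)
                    (CovZ.leaf K3_ok TI_l3200 _))
                   (CovZ.leaf K2_ok TI_l3201 _))))))
              (CovZ.n1 (80568, 82728) (by decide +kernel)
               (CovZ.n2 (80568, 82656) (by decide +kernel)
                (CovZ.subM 85153709054693980793616681829484462080 (by decide +kernel)
                 (CovZ.n2 (80532, 82692) (by decide +kernel)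
                  (CovZ.n2 (80568, 82692) (by decide +kernel)
                   (CovZ.leaf K2_ok TI_l3202 _)
                   (CovZ.leaf K2_ok TI_l3203 _))
                  (CovZ.n1 (80532, 82656) (by decide +kernel)
                   (CovZ.leaf K2_ok TI_l3204 _)
                   (CovZ.leaf K2_ok TI_l3205 _))))
                (CovZ.n1 (80604, 82692) (by decide +kernel)
                 (CovZ.n2 (80604, 82656) (by decide +kernel)
                  (CovZ.leaf K2_ok TI_l3206 _)
                  (CovZ.leaf K2_ok TI_l3207 _))
                 (CovZ.leaf K2_ok TI_l3208 _)))
               (CovZ.n1 (80496, 82728) (by decide +kernel)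
                (CovZ.n2 (80532, 82764) (by decide +kernel)
                 (CovZ.leaf K2_ok TI_l3209 _)
                 (CovZ.leaf K2_ok TI_l3210 _))
                (CovZ.leaf K2_ok TI_l3211 _))))))

theorem TI_u50 : CovZ TI_M (toL (selN TI_LN 425467229915549916608297104178858165252)) [0, 7, 6, 1] (80352, 82656) (80064, 82368) (80640, 82368) :=
    (CovZ.subM 85070591730234691728080906788288857092 (by decide +kernel)
            (CovZ.n1 (80352, 82368) (by decide +kernel)
             (CovZ.n2 (80208, 82512) (by decide +kernel)
              (CovZ.n2 (80352, 82512) (by decide +kernel)
               (CovZ.badM (by decide +kernel))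
               (CovZ.n1 (80280, 82584) (by decide +kernel)
                (CovZ.n2 (80352, 82584) (by decide +kernel)
                 (CovZ.badM (by decide +kernel))
                 (CovZ.n1 (80316, 82620) (by decide +kernel)
                  (CovZ.n2 (80352, 82620) (by decide +kernel)
                   (CovZ.subM 75862235003130531020800 (by decide +kernel)
                    (CovZ.n2 (80334, 82602) (by decide +kernel)
                     (CovZ.n2 (80334, 82620) (by decide +kernel)
                      (CovZ.leaf K3_ok TI_l3212 _)
                      (CovZ.n1 (80325, 82611) (by decide +kernel)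
                       (CovZ.leaf K3_ok TI_l3213 _)
                       (CovZ.leaf K3_ok TI_l3214 _)))
                     (CovZ.n1 (80352, 82602) (by decide +kernel)
                      (CovZ.n2 (80343, 82593) (by decide +kernel)
                       (CovZ.leaf K3_ok TI_l3215 _)
                       (CovZ.leaf K2_ok TI_l3216 _))
                      (CovZ.leaf K3_ok TI_l3217 _))))
                   (CovZ.n1 (80334, 82638) (by decide +kernel)
                    (CovZ.n2 (80352, 82638) (by decide +kernel)
                     (CovZ.leaf K3_ok TI_l3218 _)
                     (CovZ.leaf K3_ok TI_l3219 _))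
                    (CovZ.leaf K2_ok TI_l3220 _)))
                  (CovZ.subM 304371277216207601664 (by decide +kernel)
                   (CovZ.n1 (80316, 82584) (by decide +kernel)
                    (CovZ.n2 (80298, 82602) (by decide +kernel)
                     (CovZ.n2 (80316, 82602) (by decide +kernel)
                      (CovZ.n2 (80307, 82593) (by decide +kernel)
                       (CovZ.leaf K3_ok TI_l3221 _)
                       (CovZ.leaf K3_ok TI_l3222 _))
                      (CovZ.leaf K3_ok TI_l3223 _))
                     (CovZ.badM (by decide +kernel)))
                    (CovZ.n1 (80334, 82602) (by decide +kernel)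
                     (CovZ.n2 (80334, 82584) (by decide +kernel)
                      (CovZ.leaf K3_ok TI_l3224 _)
                      (CovZ.n1 (80343, 82593) (by decide +kernel)
                       (CovZ.badM (by decide +kernel))
                       (CovZ.leaf K3_ok TI_l3225 _)))
                     (CovZ.n1 (80316, 82602) (by decide +kernel)
                      (CovZ.n2 (80325, 82611) (by decide +kernel)
                       (CovZ.leaf K3_ok TI_l3226 _)
                       (CovZ.leaf K3_ok TI_l3227 _))
                      (CovZ.leaf K3_ok TI_l3228 _)))))))
                (CovZ.badM (by decide +kernel))))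
              (CovZ.badM (by decide +kernel)))
             (CovZ.n1 (80496, 82512) (by decide +kernel)
              (CovZ.badM (by decide +kernel))
              (CovZ.n1 (80352, 82512) (by decide +kernel)
               (CovZ.n2 (80424, 82584) (by decide +kernel)
                (CovZ.subM 75567087097951178194944 (by decide +kernel)
                 (CovZ.n2 (80424, 82512) (by decide +kernel)
                  (CovZ.n2 (80388, 82548) (by decide +kernel)
                   (CovZ.n2 (80424, 82548) (by decide +kernel)
                    (CovZ.n2 (80406, 82530) (by decide +kernel)
                     (CovZ.n2 (80406, 82548) (by decide +kernel)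
                      (CovZ.leaf K2_ok TI_l3229 _)
                      (CovZ.badM (by decide +kernel)))
                     (CovZ.n1 (80424, 82530) (by decide +kernel)
                      (CovZ.badM (by decide +kernel))
                      (CovZ.leaf K2_ok TI_l3230 _)))
                    (CovZ.n1 (80406, 82566) (by decide +kernel)
                     (CovZ.leaf K2_ok TI_l3231 _)
                     (CovZ.n1 (80406, 82548) (by decide +kernel)
                      (CovZ.leaf K2_ok TI_l3232 _)
                      (CovZ.n1 (80415, 82557) (by decide +kernel)
                       (CovZ.leaf K2_ok TI_l3233 _)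
                       (CovZ.leaf K2_ok TI_l3234 _)))))
                   (CovZ.badM (by decide +kernel)))
                  (CovZ.n1 (80460, 82548) (by decide +kernel)
                   (CovZ.n2 (80460, 82512) (by decide +kernel)
                    (CovZ.n2 (80442, 82530) (by decide +kernel)
                     (CovZ.n2 (80460, 82530) (by decide +kernel)
                      (CovZ.leaf K2_ok TI_l3235 _)
                      (CovZ.leaf K2_ok TI_l3236 _))
                     (CovZ.n1 (80442, 82512) (by decide +kernel)
                      (CovZ.leaf K2_ok TI_l3237 _)
                      (CovZ.n1 (80451, 82521) (by decide +kernel)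
                       (CovZ.badM (by decide +kernel))
                       (CovZ.leaf K2_ok TI_l3238 _))))
                    (CovZ.n1 (80478, 82530) (by decide +kernel)
                     (CovZ.n2 (80478, 82512) (by decide +kernel)
                      (CovZ.leaf K2_ok TI_l3239 _)
                      (CovZ.leaf K2_ok TI_l3240 _))
                     (CovZ.leaf K2_ok TI_l3241 _)))
                   (CovZ.n1 (80424, 82548) (by decide +kernel)
                    (CovZ.n2 (80442, 82566) (by decide +kernel)
                     (CovZ.n2 (80442, 82548) (by decide +kernel)
                      (CovZ.leaf K2_ok TI_l3242 _)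
                      (CovZ.n1 (80451, 82557) (by decide +kernel)
                       (CovZ.leaf K2_ok TI_l3243 _)
                       (CovZ.leaf K2_ok TI_l3244 _)))
                     (CovZ.leaf K2_ok TI_l3245 _))
                    (CovZ.n1 (80442, 82530) (by decide +kernel)
                     (CovZ.n2 (80424, 82530) (by decide +kernel)
                      (CovZ.n2 (80433, 82539) (by decide +kernel)
                       (CovZ.leaf K2_ok TI_l3246 _)
                       (CovZ.leaf K2_ok TI_l3247 _))
                      (CovZ.leaf K2_ok TI_l3248 _))
                     (CovZ.n1 (80442, 82548) (by decide +kernel)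
                      (CovZ.leaf K2_ok TI_l3249 _)
                      (CovZ.n1 (80433, 82539) (by decide +kernel)
                       (CovZ.leaf K2_ok TI_l3250 _)
                       (CovZ.leaf K2_ok TI_l3251 _))))))))
                (CovZ.n1 (80352, 82584) (by decide +kernel)
                 (CovZ.n2 (80388, 82620) (by decide +kernel)
                  (CovZ.n2 (80388, 82584) (by decide +kernel)
                   (CovZ.n2 (80370, 82602) (by decide +kernel)
                    (CovZ.leaf K3_ok TI_l3252 _)
                    (CovZ.leaf K3_ok TI_l3253 _))
                   (CovZ.n1 (80406, 82602) (by decide +kernel)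
                    (CovZ.n2 (80406, 82584) (by decide +kernel)
                     (CovZ.leaf K3_ok TI_l3254 _)
                     (CovZ.leaf K2_ok TI_l3255 _))
                    (CovZ.leaf K3_ok TI_l3256 _)))
                  (CovZ.n1 (80352, 82620) (by decide +kernel)
                   (CovZ.n2 (80370, 82638) (by decide +kernel)
                    (CovZ.n2 (80370, 82620) (by decide +kernel)
                     (CovZ.leaf K3_ok TI_l3257 _)
                     (CovZ.leaf K3_ok TI_l3258 _))
                    (CovZ.leaf K3_ok TI_l3259 _))
                   (CovZ.leaf K3_ok TI_l3260 _)))
                 (CovZ.subM 75567087097951178194944 (by decide +kernel)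
                  (CovZ.n1 (80388, 82548) (by decide +kernel)
                   (CovZ.badM (by decide +kernel))
                   (CovZ.n1 (80388, 82584) (by decide +kernel)
                    (CovZ.leaf K2_ok TI_l3261 _)
                    (CovZ.n1 (80370, 82566) (by decide +kernel)
                     (CovZ.leaf K3_ok TI_l3262 _)
                     (CovZ.n1 (80388, 82566) (by decide +kernel)
                      (CovZ.badM (by decide +kernel))
                      (CovZ.leaf K2_ok TI_l3263 _))))))))
               (CovZ.badM (by decide +kernel))))))

theorem TI_u51 : CovZ TI_M (toL (selN TI_LN 316912952293123944447943507968)) [0, 7, 6, 1] (87552, 80640) (87552, 82944) (85248, 80640) :=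
    (CovZ.n1 (86400, 81792) (by decide +kernel)
       (CovZ.n2 (87552, 81792) (by decide +kernel)
        (CovZ.n2 (86976, 81216) (by decide +kernel)
         (CovZ.n2 (86976, 81792) (by decide +kernel)
          (CovZ.badM (by decide +kernel))
          (CovZ.n1 (86688, 81504) (by decide +kernel)
           (CovZ.n2 (86688, 81792) (by decide +kernel)
            (CovZ.badM (by decide +kernel))
            (CovZ.n1 (86544, 81648) (by decide +kernel)
             (CovZ.leaf K2_ok TI_l4491 _)
             (CovZ.badM (by decide +kernel))))
           (CovZ.badM (by decide +kernel))))
         (CovZ.badM (by decide +kernel)))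
        (CovZ.n1 (86976, 82368) (by decide +kernel)
         (CovZ.badM (by decide +kernel))
         (CovZ.n1 (86976, 81792) (by decide +kernel)
          (CovZ.n2 (86688, 82080) (by decide +kernel)
           (CovZ.badM (by decide +kernel))
           (CovZ.n1 (86688, 81792) (by decide +kernel)
            (CovZ.leaf K2_ok TI_l4492 _)
            (CovZ.badM (by decide +kernel))))
          (CovZ.badM (by decide +kernel)))))
       (CovZ.n1 (86400, 80640) (by decide +kernel)
        (CovZ.n2 (85824, 81216) (by decide +kernel)
         (CovZ.n2 (86400, 81216) (by decide +kernel)
          (CovZ.n2 (86112, 80928) (by decide +kernel)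
           (CovZ.n2 (86112, 81216) (by decide +kernel)
            (CovZ.n2 (86256, 81072) (by decide +kernel)
             (CovZ.leaf K3_ok TI_l4493 _)
             (CovZ.leaf K3_ok TI_l4494 _))
            (CovZ.n1 (85968, 81072) (by decide +kernel)
             (CovZ.leaf K2_ok TI_l4495 _)
             (CovZ.n1 (86112, 81072) (by decide +kernel)
              (CovZ.leaf K2_ok TI_l4496 _)
              (CovZ.leaf K3_ok TI_l4497 _))))
           (CovZ.n1 (86400, 80928) (by decide +kernel)
            (CovZ.n2 (86256, 80784) (by decide +kernel)
             (CovZ.n2 (86256, 80928) (by decide +kernel)
              (CovZ.badM (by decide +kernel))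
              (CovZ.n1 (86184, 80856) (by decide +kernel)
               (CovZ.leaf K3_ok TI_l4498 _)
               (CovZ.badM (by decide +kernel))))
             (CovZ.badM (by decide +kernel)))
            (CovZ.n1 (86256, 81072) (by decide +kernel)
             (CovZ.n2 (86400, 81072) (by decide +kernel)
              (CovZ.leaf K3_ok TI_l4499 _)
              (CovZ.leaf K3_ok TI_l4500 _))
             (CovZ.n1 (86256, 80928) (by decide +kernel)
              (CovZ.leaf K3_ok TI_l4501 _)
              (CovZ.leaf K3_ok TI_l4502 _)))))
          (CovZ.n1 (86112, 81504) (by decide +kernel)
           (CovZ.n2 (86400, 81504) (by decide +kernel)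
            (CovZ.n2 (86256, 81360) (by decide +kernel)
             (CovZ.leaf K2_ok TI_l4503 _)
             (CovZ.leaf K2_ok TI_l4504 _))
            (CovZ.n1 (86256, 81648) (by decide +kernel)
             (CovZ.leaf K2_ok TI_l4505 _)
             (CovZ.leaf K2_ok TI_l4506 _)))
           (CovZ.n1 (86112, 81216) (by decide +kernel)
            (CovZ.n2 (85968, 81360) (by decide +kernel)
             (CovZ.n2 (86112, 81360) (by decide +kernel)
              (CovZ.leaf K2_ok TI_l4507 _)
              (CovZ.leaf K2_ok TI_l4508 _))
             (CovZ.n1 (85968, 81216) (by decide +kernel)
              (CovZ.leaf K2_ok TI_l4509 _)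
              (CovZ.leaf K2_ok TI_l4510 _)))
            (CovZ.n1 (86256, 81360) (by decide +kernel)
             (CovZ.n2 (86256, 81216) (by decide +kernel)
              (CovZ.leaf K2_ok TI_l4511 _)
              (CovZ.leaf K2_ok TI_l4512 _))
             (CovZ.leaf K2_ok TI_l4513 _)))))
         (CovZ.n1 (85824, 80640) (by decide +kernel)
          (CovZ.n2 (85536, 80928) (by decide +kernel)
           (CovZ.n2 (85824, 80928) (by decide +kernel)
            (CovZ.n2 (85680, 80784) (by decide +kernel)
             (CovZ.n2 (85680, 80928) (by decide +kernel)
              (CovZ.leaf K3_ok TI_l4514 _)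
              (CovZ.n1 (85608, 80856) (by decide +kernel)
               (CovZ.leaf K3_ok TI_l4515 _)
               (CovZ.n1 (85680, 80856) (by decide +kernel)
                (CovZ.leaf K3_ok TI_l4516 _)
                (CovZ.leaf K2_ok TI_l4517 _))))
             (CovZ.n1 (85824, 80784) (by decide +kernel)
              (CovZ.n2 (85752, 80712) (by decide +kernel)
               (CovZ.leaf K3_ok TI_l4518 _)
               (CovZ.n1 (85824, 80712) (by decide +kernel)
                (CovZ.badM (by decide +kernel))
                (CovZ.leaf K3_ok TI_l4519 _)))
              (CovZ.n1 (85752, 80856) (by decide +kernel)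
               (CovZ.leaf K3_ok TI_l4520 _)
               (CovZ.n1 (85752, 80784) (by decide +kernel)
                (CovZ.leaf K2_ok TI_l4521 _)
                (CovZ.leaf K3_ok TI_l4522 _)))))
            (CovZ.n1 (85680, 81072) (by decide +kernel)
             (CovZ.n2 (85824, 81072) (by decide +kernel)
              (CovZ.n2 (85752, 81000) (by decide +kernel)
               (CovZ.leaf K2_ok TI_l4523 _)
               (CovZ.leaf K2_ok TI_l4524 _))
              (CovZ.n1 (85752, 81144) (by decide +kernel)
               (CovZ.leaf K2_ok TI_l4525 _)
               (CovZ.leaf K2_ok TI_l4526 _)))
             (CovZ.n1 (85680, 80928) (by decide +kernel)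
              (CovZ.n2 (85608, 81000) (by decide +kernel)
               (CovZ.leaf K2_ok TI_l4527 _)
               (CovZ.n1 (85608, 80928) (by decide +kernel)
                (CovZ.leaf K2_ok TI_l4528 _)
                (CovZ.leaf K2_ok TI_l4529 _)))
              (CovZ.n1 (85752, 81000) (by decide +kernel)
               (CovZ.leaf K2_ok TI_l4530 _)
               (CovZ.leaf K2_ok TI_l4531 _)))))
           (CovZ.n1 (85536, 80640) (by decide +kernel)
            (CovZ.n2 (85392, 80784) (by decide +kernel)
             (CovZ.n2 (85536, 80784) (by decide +kernel)
              (CovZ.n2 (85464, 80712) (by decide +kernel)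
               (CovZ.n2 (85464, 80784) (by decide +kernel)
                (CovZ.leaf K2_ok TI_l4532 _)
                (CovZ.leaf K2_ok TI_l4533 _))
               (CovZ.n1 (85536, 80712) (by decide +kernel)
                (CovZ.leaf K2_ok TI_l4534 _)
                (CovZ.leaf K2_ok TI_l4535 _)))
              (CovZ.n1 (85464, 80856) (by decide +kernel)
               (CovZ.n2 (85536, 80856) (by decide +kernel)
                (CovZ.leaf K2_ok TI_l4536 _)
                (CovZ.leaf K2_ok TI_l4537 _))
               (CovZ.n1 (85464, 80784) (by decide +kernel)
                (CovZ.leaf K2_ok TI_l4538 _)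
                (CovZ.leaf K2_ok TI_l4539 _))))
             (CovZ.n1 (85392, 80640) (by decide +kernel)
              (CovZ.n2 (85320, 80712) (by decide +kernel)
               (CovZ.n2 (85392, 80712) (by decide +kernel)
                (CovZ.n2 (85356, 80676) (by decide +kernel)
                 (CovZ.leaf K2_ok TI_l4540 _)
                 (CovZ.leaf K2_ok TI_l4541 _))
                (CovZ.leaf K2_ok TI_l4542 _))
               (CovZ.n1 (85320, 80640) (by decide +kernel)
                (CovZ.n2 (85284, 80676) (by decide +kernel)
                 (CovZ.leaf K2_ok TI_l4543 _)
                 (CovZ.leaf K2_ok TI_l4544 _))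
                (CovZ.n1 (85356, 80676) (by decide +kernel)
                 (CovZ.leaf K2_ok TI_l4545 _)
                 (CovZ.leaf K2_ok TI_l4546 _))))
              (CovZ.n1 (85464, 80712) (by decide +kernel)
               (CovZ.n2 (85464, 80640) (by decide +kernel)
                (CovZ.leaf K2_ok TI_l4547 _)
                (CovZ.n1 (85500, 80676) (by decide +kernel)
                 (CovZ.leaf K2_ok TI_l4548 _)
                 (CovZ.leaf K2_ok TI_l4549 _)))
               (CovZ.n1 (85392, 80712) (by decide +kernel)
                (CovZ.leaf K2_ok TI_l4550 _)
                (CovZ.leaf K2_ok TI_l4551 _)))))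
            (CovZ.n1 (85680, 80784) (by decide +kernel)
             (CovZ.n2 (85680, 80640) (by decide +kernel)
              (CovZ.n2 (85608, 80712) (by decide +kernel)
               (CovZ.n2 (85680, 80712) (by decide +kernel)
                (CovZ.leaf K2_ok TI_l4552 _)
                (CovZ.leaf K3_ok TI_l4553 _))
               (CovZ.n1 (85608, 80640) (by decide +kernel)
                (CovZ.leaf K2_ok TI_l4554 _)
                (CovZ.leaf K2_ok TI_l4555 _)))
              (CovZ.n1 (85752, 80712) (by decide +kernel)
               (CovZ.badM (by decide +kernel))
               (CovZ.leaf K3_ok TI_l4556 _)))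
             (CovZ.n1 (85536, 80784) (by decide +kernel)
              (CovZ.n2 (85608, 80856) (by decide +kernel)
               (CovZ.n2 (85608, 80784) (by decide +kernel)
                (CovZ.leaf K2_ok TI_l4557 _)
                (CovZ.leaf K2_ok TI_l4558 _))
               (CovZ.leaf K3_ok TI_l4559 _))
              (CovZ.n1 (85608, 80712) (by decide +kernel)
               (CovZ.n2 (85536, 80712) (by decide +kernel)
                (CovZ.leaf K2_ok TI_l4560 _)
                (CovZ.leaf K2_ok TI_l4561 _))
               (CovZ.n1 (85608, 80784) (by decide +kernel)
                (CovZ.leaf K2_ok TI_l4562 _)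
                (CovZ.leaf K2_ok TI_l4563 _)))))))
          (CovZ.n1 (86112, 80928) (by decide +kernel)
           (CovZ.n2 (86112, 80640) (by decide +kernel)
            (CovZ.n2 (85968, 80784) (by decide +kernel)
             (CovZ.n2 (86112, 80784) (by decide +kernel)
              (CovZ.badM (by decide +kernel))
              (CovZ.n1 (86040, 80856) (by decide +kernel)
               (CovZ.leaf K3_ok TI_l4564 _)
               (CovZ.badM (by decide +kernel))))
             (CovZ.badM (by decide +kernel)))
            (CovZ.n1 (86256, 80784) (by decide +kernel)
             (CovZ.badM (by decide +kernel))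
             (CovZ.n1 (86112, 80784) (by decide +kernel)
              (CovZ.n2 (86184, 80856) (by decide +kernel)
               (CovZ.badM (by decide +kernel))
               (CovZ.leaf K3_ok TI_l4565 _))
              (CovZ.badM (by decide +kernel)))))
           (CovZ.n1 (85824, 80928) (by decide +kernel)
            (CovZ.n2 (85968, 81072) (by decide +kernel)
             (CovZ.n2 (85968, 80928) (by decide +kernel)
              (CovZ.n2 (85896, 81000) (by decide +kernel)
               (CovZ.leaf K2_ok TI_l4566 _)
               (CovZ.leaf K3_ok TI_l4567 _))
              (CovZ.leaf K3_ok TI_l4568 _))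
             (CovZ.n1 (85824, 81072) (by decide +kernel)
              (CovZ.leaf K2_ok TI_l4569 _)
              (CovZ.leaf K2_ok TI_l4570 _)))
            (CovZ.n1 (85968, 80784) (by decide +kernel)
             (CovZ.n2 (85824, 80784) (by decide +kernel)
              (CovZ.n2 (85896, 80856) (by decide +kernel)
               (CovZ.leaf K3_ok TI_l4571 _)
               (CovZ.leaf K3_ok TI_l4572 _))
              (CovZ.leaf K3_ok TI_l4573 _))
             (CovZ.n1 (85968, 80928) (by decide +kernel)
              (CovZ.leaf K3_ok TI_l4574 _)
              (CovZ.n1 (85896, 80856) (by decide +kernel)
               (CovZ.leaf K2_ok TI_l4575 _)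
               (CovZ.n1 (85968, 80856) (by decide +kernel)
                (CovZ.leaf K3_ok TI_l4576 _)
                (CovZ.leaf K2_ok TI_l4577 _)))))))))
        (CovZ.n1 (86976, 81216) (by decide +kernel)
         (CovZ.badM (by decide +kernel))
         (CovZ.n1 (86400, 81216) (by decide +kernel)
          (CovZ.n2 (86688, 81504) (by decide +kernel)
           (CovZ.n2 (86688, 81216) (by decide +kernel)
            (CovZ.n2 (86544, 81360) (by decide +kernel)
             (CovZ.badM (by decide +kernel))
             (CovZ.n1 (86544, 81216) (by decide +kernel)
              (CovZ.leaf K3_ok TI_l4578 _)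
              (CovZ.badM (by decide +kernel))))
            (CovZ.badM (by decide +kernel)))
           (CovZ.n1 (86400, 81504) (by decide +kernel)
            (CovZ.n2 (86544, 81648) (by decide +kernel)
             (CovZ.leaf K2_ok TI_l4579 _)
             (CovZ.leaf K2_ok TI_l4580 _))
            (CovZ.leaf K3_ok TI_l4581 _)))
          (CovZ.n1 (86688, 80928) (by decide +kernel)
           (CovZ.n2 (86400, 80928) (by decide +kernel)
            (CovZ.n2 (86544, 81072) (by decide +kernel)
             (CovZ.badM (by decide +kernel))
             (CovZ.leaf K2_ok TI_l4582 _))
            (CovZ.badM (by decide +kernel)))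
           (CovZ.n1 (86688, 81216) (by decide +kernel)
            (CovZ.badM (by decide +kernel))
            (CovZ.n1 (86544, 81072) (by decide +kernel)
             (CovZ.leaf K3_ok TI_l4583 _)
             (CovZ.badM (by decide +kernel)))))))))

theorem TI_u52 : CovZ TI_M (toL (selN TI_LN 86410529155280588088677343728601534496)) [0, 7, 6, 1] (82944, 78336) (85248, 78336) (85248, 80640) :=
    (CovZ.n2 (84096, 79488) (by decide +kernel)
       (CovZ.n2 (85248, 79488) (by decide +kernel)
        (CovZ.badM (by decide +kernel))
        (CovZ.n1 (84672, 80064) (by decide +kernel)
         (CovZ.subM 316912952293123940049896996896 (by decide +kernel)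
          (CovZ.n2 (85248, 80064) (by decide +kernel)
           (CovZ.badM (by decide +kernel))
           (CovZ.n1 (84960, 80352) (by decide +kernel)
            (CovZ.n2 (85248, 80352) (by decide +kernel)
             (CovZ.badM (by decide +kernel))
             (CovZ.n1 (85104, 80496) (by decide +kernel)
              (CovZ.n2 (85248, 80496) (by decide +kernel)
               (CovZ.n2 (85176, 80424) (by decide +kernel)
                (CovZ.n2 (85176, 80496) (by decide +kernel)
                 (CovZ.n2 (85212, 80460) (by decide +kernel)
                  (CovZ.n2 (85176, 80460) (by decide +kernel)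
                   (CovZ.n2 (85194, 80478) (by decide +kernel)
                    (CovZ.leaf K2_ok TI_l4584 _)
                    (CovZ.leaf K2_ok TI_l4585 _))
                   (CovZ.leaf K2_ok TI_l4586 _))
                  (CovZ.n1 (85212, 80496) (by decide +kernel)
                   (CovZ.leaf K2_ok TI_l4587 _)
                   (CovZ.n1 (85194, 80478) (by decide +kernel)
                    (CovZ.leaf K2_ok TI_l4588 _)
                    (CovZ.leaf K2_ok TI_l4589 _))))
                 (CovZ.n1 (85140, 80460) (by decide +kernel)
                  (CovZ.n2 (85140, 80496) (by decide +kernel)
                   (CovZ.leaf K2_ok TI_l4590 _)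
                   (CovZ.n1 (85122, 80478) (by decide +kernel)
                    (CovZ.leaf K2_ok TI_l4591 _)
                    (CovZ.leaf K2_ok TI_l4592 _)))
                  (CovZ.n1 (85176, 80460) (by decide +kernel)
                   (CovZ.n2 (85158, 80442) (by decide +kernel)
                    (CovZ.leaf K2_ok TI_l4593 _)
                    (CovZ.leaf K2_ok TI_l4594 _))
                   (CovZ.leaf K2_ok TI_l4595 _))))
                (CovZ.n1 (85248, 80424) (by decide +kernel)
                 (CovZ.n2 (85212, 80388) (by decide +kernel)
                  (CovZ.n2 (85212, 80424) (by decide +kernel)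
                   (CovZ.leaf K2_ok TI_l4596 _)
                   (CovZ.n1 (85194, 80406) (by decide +kernel)
                    (CovZ.leaf K2_ok TI_l4597 _)
                    (CovZ.leaf K2_ok TI_l4598 _)))
                  (CovZ.n1 (85248, 80388) (by decide +kernel)
                   (CovZ.n2 (85230, 80370) (by decide +kernel)
                    (CovZ.n2 (85230, 80388) (by decide +kernel)
                     (CovZ.leaf K2_ok TI_l4599 _)
                     (CovZ.leaf K2_ok TI_l4600 _))
                    (CovZ.n1 (85248, 80370) (by decide +kernel)
                     (CovZ.badM (by decide +kernel))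
                     (CovZ.leaf K2_ok TI_l4601 _)))
                   (CovZ.n1 (85230, 80406) (by decide +kernel)
                    (CovZ.leaf K2_ok TI_l4602 _)
                    (CovZ.n1 (85230, 80388) (by decide +kernel)
                     (CovZ.leaf K2_ok TI_l4603 _)
                     (CovZ.leaf K2_ok TI_l4604 _)))))
                 (CovZ.n1 (85212, 80460) (by decide +kernel)
                  (CovZ.n2 (85248, 80460) (by decide +kernel)
                   (CovZ.n2 (85230, 80442) (by decide +kernel)
                    (CovZ.leaf K2_ok TI_l4605 _)
                    (CovZ.leaf K2_ok TI_l4606 _))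
                   (CovZ.leaf K2_ok TI_l4607 _))
                  (CovZ.n1 (85212, 80424) (by decide +kernel)
                   (CovZ.n2 (85194, 80442) (by decide +kernel)
                    (CovZ.leaf K2_ok TI_l4608 _)
                    (CovZ.leaf K2_ok TI_l4609 _))
                   (CovZ.n1 (85230, 80442) (by decide +kernel)
                    (CovZ.leaf K2_ok TI_l4610 _)
                    (CovZ.leaf K2_ok TI_l4611 _))))))
               (CovZ.n1 (85176, 80568) (by decide +kernel)
                (CovZ.n2 (85248, 80568) (by decide +kernel)
                 (CovZ.n2 (85212, 80532) (by decide +kernel)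
                  (CovZ.leaf K2_ok TI_l4612 _)
                  (CovZ.n1 (85248, 80532) (by decide +kernel)
                   (CovZ.leaf K2_ok TI_l4613 _)
                   (CovZ.leaf K2_ok TI_l4614 _)))
                 (CovZ.n1 (85212, 80604) (by decide +kernel)
                  (CovZ.leaf K2_ok TI_l4615 _)
                  (CovZ.leaf K2_ok TI_l4616 _)))
                (CovZ.n1 (85176, 80496) (by decide +kernel)
                 (CovZ.n2 (85140, 80532) (by decide +kernel)
                  (CovZ.n2 (85176, 80532) (by decide +kernel)
                   (CovZ.n2 (85158, 80514) (by decide +kernel)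
                    (CovZ.leaf K2_ok TI_l4617 _)
                    (CovZ.leaf K2_ok TI_l4618 _))
                   (CovZ.leaf K2_ok TI_l4619 _))
                  (CovZ.n1 (85140, 80496) (by decide +kernel)
                   (CovZ.n2 (85122, 80514) (by decide +kernel)
                    (CovZ.n2 (85140, 80514) (by decide +kernel)
                     (CovZ.leaf K2_ok TI_l4620 _)
                     (CovZ.leaf K2_ok TI_l4621 _))
                    (CovZ.leaf K2_ok TI_l4622 _))
                   (CovZ.n1 (85158, 80514) (by decide +kernel)
                    (CovZ.leaf K2_ok TI_l4623 _)
                    (CovZ.leaf K2_ok TI_l4624 _))))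
                 (CovZ.n1 (85212, 80532) (by decide +kernel)
                  (CovZ.n2 (85212, 80496) (by decide +kernel)
                   (CovZ.leaf K2_ok TI_l4625 _)
                   (CovZ.leaf K2_ok TI_l4626 _))
                  (CovZ.leaf K2_ok TI_l4627 _)))))
              (CovZ.n1 (85104, 80352) (by decide +kernel)
               (CovZ.n2 (85032, 80424) (by decide +kernel)
                (CovZ.n2 (85104, 80424) (by decide +kernel)
                 (CovZ.badM (by decide +kernel))
                 (CovZ.n1 (85068, 80460) (by decide +kernel)
                  (CovZ.n2 (85104, 80460) (by decide +kernel)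
                   (CovZ.n2 (85086, 80442) (by decide +kernel)
                    (CovZ.leaf K2_ok TI_l4628 _)
                    (CovZ.n1 (85104, 80442) (by decide +kernel)
                     (CovZ.badM (by decide +kernel))
                     (CovZ.leaf K2_ok TI_l4629 _)))
                   (CovZ.n1 (85086, 80478) (by decide +kernel)
                    (CovZ.leaf K2_ok TI_l4630 _)
                    (CovZ.n1 (85086, 80460) (by decide +kernel)
                     (CovZ.leaf K2_ok TI_l4631 _)
                     (CovZ.leaf K2_ok TI_l4632 _))))
                  (CovZ.badM (by decide +kernel))))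
                (CovZ.badM (by decide +kernel)))
               (CovZ.n1 (85176, 80424) (by decide +kernel)
                (CovZ.n2 (85176, 80352) (by decide +kernel)
                 (CovZ.n2 (85140, 80388) (by decide +kernel)
                  (CovZ.n2 (85176, 80388) (by decide +kernel)
                   (CovZ.badM (by decide +kernel))
                   (CovZ.n1 (85158, 80406) (by decide +kernel)
                    (CovZ.n2 (85176, 80406) (by decide +kernel)
                     (CovZ.badM (by decide +kernel))
                     (CovZ.leaf K2_ok TI_l4633 _))
                    (CovZ.badM (by decide +kernel))))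
                  (CovZ.badM (by decide +kernel)))
                 (CovZ.n1 (85212, 80388) (by decide +kernel)
                  (CovZ.badM (by decide +kernel))
                  (CovZ.n1 (85176, 80388) (by decide +kernel)
                   (CovZ.n2 (85194, 80406) (by decide +kernel)
                    (CovZ.leaf K2_ok TI_l4634 _)
                    (CovZ.n1 (85176, 80406) (by decide +kernel)
                     (CovZ.leaf K2_ok TI_l4635 _)
                     (CovZ.leaf K2_ok TI_l4636 _)))
                   (CovZ.badM (by decide +kernel)))))
                (CovZ.n1 (85104, 80424) (by decide +kernel)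
                 (CovZ.n2 (85140, 80460) (by decide +kernel)
                  (CovZ.n2 (85140, 80424) (by decide +kernel)
                   (CovZ.n2 (85122, 80442) (by decide +kernel)
                    (CovZ.n2 (85140, 80442) (by decide +kernel)
                     (CovZ.leaf K2_ok TI_l4637 _)
                     (CovZ.leaf K2_ok TI_l4638 _))
                    (CovZ.leaf K2_ok TI_l4639 _))
                   (CovZ.n1 (85158, 80442) (by decide +kernel)
                    (CovZ.leaf K2_ok TI_l4640 _)
                    (CovZ.leaf K2_ok TI_l4641 _)))
                  (CovZ.n1 (85104, 80460) (by decide +kernel)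
                   (CovZ.n2 (85122, 80478) (by decide +kernel)
                    (CovZ.n2 (85122, 80460) (by decide +kernel)
                     (CovZ.leaf K2_ok TI_l4642 _)
                     (CovZ.leaf K2_ok TI_l4643 _))
                    (CovZ.leaf K2_ok TI_l4644 _))
                   (CovZ.n1 (85122, 80442) (by decide +kernel)
                    (CovZ.leaf K2_ok TI_l4645 _)
                    (CovZ.leaf K2_ok TI_l4646 _))))
                 (CovZ.n1 (85140, 80388) (by decide +kernel)
                  (CovZ.badM (by decide +kernel))
                  (CovZ.n1 (85140, 80424) (by decide +kernel)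
                   (CovZ.leaf K2_ok TI_l4647 _)
                   (CovZ.badM (by decide +kernel)))))))))
            (CovZ.badM (by decide +kernel)))))
         (CovZ.badM (by decide +kernel))))
       (CovZ.badM (by decide +kernel)))

theorem TI_u53 : CovZ TI_M (toL (selN TI_LN 86410529155280588088677343728601534496)) [0, 7, 6, 1] (85248, 78336) (87552, 78336) (85248, 80640) :=
    (CovZ.subM 316912952293123940049896996864 (by decide +kernel)
       (CovZ.n1 (86400, 79488) (by decide +kernel)
        (CovZ.badM (by decide +kernel))
        (CovZ.n1 (85248, 79488) (by decide +kernel)
         (CovZ.n2 (85824, 80064) (by decide +kernel)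
          (CovZ.badM (by decide +kernel))
          (CovZ.n1 (85248, 80064) (by decide +kernel)
           (CovZ.n2 (85536, 80352) (by decide +kernel)
            (CovZ.n2 (85536, 80064) (by decide +kernel)
             (CovZ.n2 (85392, 80208) (by decide +kernel)
              (CovZ.badM (by decide +kernel))
              (CovZ.badM (by decide +kernel)))
             (CovZ.badM (by decide +kernel)))
            (CovZ.n1 (85248, 80352) (by decide +kernel)
             (CovZ.n2 (85392, 80496) (by decide +kernel)
              (CovZ.n2 (85392, 80352) (by decide +kernel)
               (CovZ.n2 (85320, 80424) (by decide +kernel)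
                (CovZ.badM (by decide +kernel))
                (CovZ.n1 (85320, 80352) (by decide +kernel)
                 (CovZ.n2 (85284, 80388) (by decide +kernel)
                  (CovZ.badM (by decide +kernel))
                  (CovZ.n1 (85284, 80352) (by decide +kernel)
                   (CovZ.n2 (85266, 80370) (by decide +kernel)
                    (CovZ.badM (by decide +kernel))
                    (CovZ.leaf K2_ok TI_l4648 _))
                   (CovZ.badM (by decide +kernel))))
                 (CovZ.badM (by decide +kernel))))
               (CovZ.badM (by decide +kernel)))
              (CovZ.n1 (85248, 80496) (by decide +kernel)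
               (CovZ.n2 (85320, 80568) (by decide +kernel)
                (CovZ.n2 (85320, 80496) (by decide +kernel)
                 (CovZ.n2 (85284, 80532) (by decide +kernel)
                  (CovZ.leaf K2_ok TI_l4649 _)
                  (CovZ.n1 (85284, 80496) (by decide +kernel)
                   (CovZ.leaf K2_ok TI_l4650 _)
                   (CovZ.badM (by decide +kernel))))
                 (CovZ.n1 (85356, 80532) (by decide +kernel)
                  (CovZ.badM (by decide +kernel))
                  (CovZ.leaf K2_ok TI_l4651 _)))
                (CovZ.n1 (85248, 80568) (by decide +kernel)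
                 (CovZ.n2 (85284, 80604) (by decide +kernel)
                  (CovZ.leaf K2_ok TI_l4652 _)
                  (CovZ.leaf K2_ok TI_l4653 _))
                 (CovZ.leaf K2_ok TI_l4654 _)))
               (CovZ.n1 (85320, 80424) (by decide +kernel)
                (CovZ.n2 (85248, 80424) (by decide +kernel)
                 (CovZ.n2 (85284, 80460) (by decide +kernel)
                  (CovZ.n2 (85284, 80424) (by decide +kernel)
                   (CovZ.leaf K2_ok TI_l4655 _)
                   (CovZ.badM (by decide +kernel)))
                  (CovZ.n1 (85248, 80460) (by decide +kernel)
                   (CovZ.leaf K2_ok TI_l4656 _)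
                   (CovZ.leaf K2_ok TI_l4657 _)))
                 (CovZ.n1 (85284, 80388) (by decide +kernel)
                  (CovZ.n2 (85248, 80388) (by decide +kernel)
                   (CovZ.n2 (85266, 80406) (by decide +kernel)
                    (CovZ.n2 (85266, 80388) (by decide +kernel)
                     (CovZ.leaf K2_ok TI_l4658 _)
                     (CovZ.badM (by decide +kernel)))
                    (CovZ.leaf K2_ok TI_l4659 _))
                   (CovZ.leaf K2_ok TI_l4660 _))
                  (CovZ.n1 (85284, 80424) (by decide +kernel)
                   (CovZ.badM (by decide +kernel))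
                   (CovZ.n1 (85266, 80406) (by decide +kernel)
                    (CovZ.leaf K3_ok TI_l4661 _)
                    (CovZ.badM (by decide +kernel))))))
                (CovZ.n1 (85320, 80496) (by decide +kernel)
                 (CovZ.badM (by decide +kernel))
                 (CovZ.n1 (85284, 80460) (by decide +kernel)
                  (CovZ.leaf K2_ok TI_l4662 _)
                  (CovZ.badM (by decide +kernel)))))))
             (CovZ.n1 (85392, 80208) (by decide +kernel)
              (CovZ.badM (by decide +kernel))
              (CovZ.n1 (85392, 80352) (by decide +kernel)
               (CovZ.badM (by decide +kernel))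
               (CovZ.n1 (85320, 80280) (by decide +kernel)
                (CovZ.n2 (85320, 80352) (by decide +kernel)
                 (CovZ.badM (by decide +kernel))
                 (CovZ.n1 (85284, 80316) (by decide +kernel)
                  (CovZ.n2 (85284, 80352) (by decide +kernel)
                   (CovZ.badM (by decide +kernel))
                   (CovZ.badM (by decide +kernel)))
                  (CovZ.badM (by decide +kernel))))
                (CovZ.badM (by decide +kernel)))))))
           (CovZ.badM (by decide +kernel))))
         (CovZ.badM (by decide +kernel)))))

theorem TI_u54 : CovZ TI_M (toL (selN TI_LN 43643219427390268791536924121871136460832)) [0, 7, 6, 1] (84096, 81216) (83808, 81216) (83808, 80928) :=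
    (CovZ.subM 85081301159495667530372674306923696160 (by decide +kernel)
             (CovZ.n2 (83952, 81072) (by decide +kernel)
              (CovZ.n2 (83808, 81072) (by decide +kernel)
               (CovZ.n2 (83880, 81144) (by decide +kernel)
                (CovZ.n2 (83880, 81072) (by decide +kernel)
                 (CovZ.n2 (83844, 81108) (by decide +kernel)
                  (CovZ.n2 (83880, 81108) (by decide +kernel)
                   (CovZ.n2 (83862, 81090) (by decide +kernel)
                    (CovZ.leaf K2_ok TI_l4663 _)
                    (CovZ.leaf K2_ok TI_l4664 _))
                   (CovZ.n1 (83862, 81126) (by decide +kernel)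
                    (CovZ.leaf K2_ok TI_l4665 _)
                    (CovZ.leaf K2_ok TI_l4666 _)))
                  (CovZ.n1 (83844, 81072) (by decide +kernel)
                   (CovZ.n2 (83826, 81090) (by decide +kernel)
                    (CovZ.leaf K2_ok TI_l4667 _)
                    (CovZ.leaf K2_ok TI_l4668 _))
                   (CovZ.n1 (83862, 81090) (by decide +kernel)
                    (CovZ.leaf K2_ok TI_l4669 _)
                    (CovZ.leaf K2_ok TI_l4670 _))))
                 (CovZ.n1 (83916, 81108) (by decide +kernel)
                  (CovZ.n2 (83916, 81072) (by decide +kernel)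
                   (CovZ.n2 (83898, 81090) (by decide +kernel)
                    (CovZ.leaf K2_ok TI_l4671 _)
                    (CovZ.leaf K2_ok TI_l4672 _))
                   (CovZ.n1 (83934, 81090) (by decide +kernel)
                    (CovZ.leaf K2_ok TI_l4673 _)
                    (CovZ.leaf K2_ok TI_l4674 _)))
                  (CovZ.n1 (83880, 81108) (by decide +kernel)
                   (CovZ.leaf K2_ok TI_l4675 _)
                   (CovZ.leaf K2_ok TI_l4676 _))))
                (CovZ.n1 (83808, 81144) (by decide +kernel)
                 (CovZ.n2 (83844, 81180) (by decide +kernel)
                  (CovZ.n2 (83844, 81144) (by decide +kernel)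
                   (CovZ.leaf K2_ok TI_l4677 _)
                   (CovZ.n1 (83862, 81162) (by decide +kernel)
                    (CovZ.leaf K2_ok TI_l4678 _)
                    (CovZ.leaf K2_ok TI_l4679 _)))
                  (CovZ.leaf K2_ok TI_l4680 _))
                 (CovZ.n1 (83844, 81108) (by decide +kernel)
                  (CovZ.n2 (83808, 81108) (by decide +kernel)
                   (CovZ.n2 (83826, 81126) (by decide +kernel)
                    (CovZ.leaf K2_ok TI_l4681 _)
                    (CovZ.leaf K2_ok TI_l4682 _))
                   (CovZ.leaf K2_ok TI_l4683 _))
                  (CovZ.n1 (83844, 81144) (by decide +kernel)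
                   (CovZ.leaf K2_ok TI_l4684 _)
                   (CovZ.n1 (83826, 81126) (by decide +kernel)
                    (CovZ.leaf K2_ok TI_l4685 _)
                    (CovZ.leaf K2_ok TI_l4686 _))))))
               (CovZ.n1 (83880, 81000) (by decide +kernel)
                (CovZ.badM (by decide +kernel))
                (CovZ.n1 (83880, 81072) (by decide +kernel)
                 (CovZ.n2 (83916, 81036) (by decide +kernel)
                  (CovZ.subM 10709112348099339050866434287599616 (by decide +kernel)
                   (CovZ.n2 (83880, 81036) (by decide +kernel)
                    (CovZ.n2 (83898, 81054) (by decide +kernel)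
                     (CovZ.n2 (83898, 81036) (by decide +kernel)
                      (CovZ.leaf K2_ok TI_l4687 _)
                      (CovZ.leaf K2_ok TI_l4688 _))
                     (CovZ.leaf K2_ok TI_l4689 _))
                    (CovZ.leaf K2_ok TI_l4690 _)))
                  (CovZ.n1 (83916, 81072) (by decide +kernel)
                   (CovZ.leaf K2_ok TI_l4691 _)
                   (CovZ.n1 (83898, 81054) (by decide +kernel)
                    (CovZ.leaf K2_ok TI_l4692 _)
                    (CovZ.leaf K2_ok TI_l4693 _))))
                 (CovZ.subM 10709112348099339050866434287599616 (by decide +kernel)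
                  (CovZ.n1 (83844, 81036) (by decide +kernel)
                   (CovZ.n2 (83844, 81072) (by decide +kernel)
                    (CovZ.n2 (83862, 81054) (by decide +kernel)
                     (CovZ.leaf K2_ok TI_l4694 _)
                     (CovZ.leaf K2_ok TI_l4695 _))
                    (CovZ.n1 (83826, 81054) (by decide +kernel)
                     (CovZ.leaf K2_ok TI_l4696 _)
                     (CovZ.n1 (83844, 81054) (by decide +kernel)
                      (CovZ.badM (by decide +kernel))
                      (CovZ.leaf K2_ok TI_l4697 _))))
                   (CovZ.n1 (83880, 81036) (by decide +kernel)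
                    (CovZ.badM (by decide +kernel))
                    (CovZ.n1 (83862, 81054) (by decide +kernel)
                     (CovZ.n2 (83880, 81054) (by decide +kernel)
                      (CovZ.n2 (83871, 81045) (by decide +kernel)
                       (CovZ.leaf K2_ok TI_l4698 _)
                       (CovZ.leaf K2_ok TI_l4699 _))
                      (CovZ.leaf K2_ok TI_l4700 _))
                     (CovZ.badM (by decide +kernel)))))))))
              (CovZ.n1 (83952, 81216) (by decide +kernel)
               (CovZ.n2 (84024, 81144) (by decide +kernel)
                (CovZ.n2 (83952, 81144) (by decide +kernel)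
                 (CovZ.n2 (83988, 81180) (by decide +kernel)
                  (CovZ.n2 (83988, 81144) (by decide +kernel)
                   (CovZ.leaf K2_ok TI_l4701 _)
                   (CovZ.leaf K2_ok TI_l4702 _))
                  (CovZ.leaf K2_ok TI_l4703 _))
                 (CovZ.n1 (83988, 81108) (by decide +kernel)
                  (CovZ.leaf K2_ok TI_l4704 _)
                  (CovZ.leaf K2_ok TI_l4705 _)))
                (CovZ.n1 (84024, 81216) (by decide +kernel)
                 (CovZ.leaf K2_ok TI_l4706 _)
                 (CovZ.n1 (83988, 81180) (by decide +kernel)
                  (CovZ.leaf K2_ok TI_l4707 _)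
                  (CovZ.leaf K2_ok TI_l4708 _))))
               (CovZ.n1 (83880, 81144) (by decide +kernel)
                (CovZ.n2 (83880, 81216) (by decide +kernel)
                 (CovZ.leaf K2_ok TI_l4709 _)
                 (CovZ.n1 (83844, 81180) (by decide +kernel)
                  (CovZ.leaf K2_ok TI_l4710 _)
                  (CovZ.n1 (83880, 81180) (by decide +kernel)
                   (CovZ.n2 (83862, 81162) (by decide +kernel)
                    (CovZ.leaf K2_ok TI_l4711 _)
                    (CovZ.leaf K2_ok TI_l4712 _))
                   (CovZ.leaf K2_ok TI_l4713 _))))
                (CovZ.n1 (83952, 81144) (by decide +kernel)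
                 (CovZ.n2 (83916, 81108) (by decide +kernel)
                  (CovZ.n2 (83916, 81144) (by decide +kernel)
                   (CovZ.leaf K2_ok TI_l4714 _)
                   (CovZ.leaf K2_ok TI_l4715 _))
                  (CovZ.n1 (83952, 81108) (by decide +kernel)
                   (CovZ.leaf K2_ok TI_l4716 _)
                   (CovZ.leaf K2_ok TI_l4717 _)))
                 (CovZ.n1 (83916, 81180) (by decide +kernel)
                  (CovZ.n2 (83952, 81180) (by decide +kernel)
                   (CovZ.leaf K2_ok TI_l4718 _)
                   (CovZ.leaf K2_ok TI_l4719 _))
                  (CovZ.n1 (83916, 81144) (by decide +kernel)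
                   (CovZ.leaf K3_ok TI_l4720 _)
                   (CovZ.n1 (83934, 81162) (by decide +kernel)
                    (CovZ.leaf K3_ok TI_l4721 _)
                    (CovZ.leaf K2_ok TI_l4722 _)))))))))

theorem TI_u55 : CovZ TI_M (toL (selN TI_LN 43643219427390268791536924121871136460832)) [0, 7, 6, 1] (83808, 81216) (83520, 81216) (83808, 80928) :=
    (CovZ.subM 86410529155280583366382993219784937504 (by decide +kernel)
             (CovZ.n1 (83664, 81072) (by decide +kernel)
              (CovZ.n2 (83664, 81216) (by decide +kernel)
               (CovZ.n2 (83736, 81144) (by decide +kernel)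
                (CovZ.n2 (83664, 81144) (by decide +kernel)
                 (CovZ.n2 (83700, 81180) (by decide +kernel)
                  (CovZ.n2 (83700, 81144) (by decide +kernel)
                   (CovZ.n2 (83682, 81162) (by decide +kernel)
                    (CovZ.n2 (83700, 81162) (by decide +kernel)
                     (CovZ.leaf K2_ok TI_l4723 _)
                     (CovZ.leaf K2_ok TI_l4724 _))
                    (CovZ.n1 (83682, 81144) (by decide +kernel)
                     (CovZ.leaf K2_ok TI_l4725 _)
                     (CovZ.leaf K2_ok TI_l4726 _)))
                   (CovZ.n1 (83718, 81162) (by decide +kernel)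
                    (CovZ.leaf K2_ok TI_l4727 _)
                    (CovZ.leaf K2_ok TI_l4728 _)))
                  (CovZ.n1 (83664, 81180) (by decide +kernel)
                   (CovZ.n2 (83682, 81198) (by decide +kernel)
                    (CovZ.leaf K2_ok TI_l4729 _)
                    (CovZ.leaf K2_ok TI_l4730 _))
                   (CovZ.leaf K2_ok TI_l4731 _)))
                 (CovZ.subM 10709112348099339122994397069705216 (by decide +kernel)
                  (CovZ.n1 (83700, 81108) (by decide +kernel)
                   (CovZ.subM 72057594037927936 (by decide +kernel)
                    (CovZ.n2 (83664, 81108) (by decide +kernel)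
                     (CovZ.n2 (83682, 81126) (by decide +kernel)
                      (CovZ.n2 (83682, 81108) (by decide +kernel)
                       (CovZ.n2 (83673, 81117) (by decide +kernel)
                        (CovZ.leaf K2_ok TI_l4732 _)
                        (CovZ.badM (by decide +kernel)))
                       (CovZ.leaf K2_ok TI_l4733 _))
                      (CovZ.leaf K2_ok TI_l4734 _))
                     (CovZ.n1 (83682, 81090) (by decide +kernel)
                      (CovZ.badM (by decide +kernel))
                      (CovZ.leaf K2_ok TI_l4735 _))))
                   (CovZ.n1 (83700, 81144) (by decide +kernel)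
                    (CovZ.leaf K2_ok TI_l4736 _)
                    (CovZ.n1 (83682, 81126) (by decide +kernel)
                     (CovZ.leaf K2_ok TI_l4737 _)
                     (CovZ.leaf K2_ok TI_l4738 _))))))
                (CovZ.n1 (83736, 81216) (by decide +kernel)
                 (CovZ.n2 (83772, 81180) (by decide +kernel)
                  (CovZ.leaf K2_ok TI_l4739 _)
                  (CovZ.leaf K2_ok TI_l4740 _))
                 (CovZ.n1 (83700, 81180) (by decide +kernel)
                  (CovZ.n2 (83700, 81216) (by decide +kernel)
                   (CovZ.leaf K2_ok TI_l4741 _)
                   (CovZ.n1 (83682, 81198) (by decide +kernel)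
                    (CovZ.n2 (83682, 81216) (by decide +kernel)
                     (CovZ.leaf K2_ok TI_l4742 _)
                     (CovZ.leaf K2_ok TI_l4743 _))
                    (CovZ.leaf K2_ok TI_l4744 _)))
                  (CovZ.n1 (83736, 81180) (by decide +kernel)
                   (CovZ.leaf K2_ok TI_l4745 _)
                   (CovZ.leaf K2_ok TI_l4746 _)))))
               (CovZ.n1 (83592, 81144) (by decide +kernel)
                (CovZ.n2 (83592, 81216) (by decide +kernel)
                 (CovZ.n2 (83628, 81180) (by decide +kernel)
                  (CovZ.subM 10709112348099339122994397069705248 (by decide +kernel)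
                   (CovZ.n2 (83592, 81180) (by decide +kernel)
                    (CovZ.n2 (83610, 81198) (by decide +kernel)
                     (CovZ.n2 (83610, 81180) (by decide +kernel)
                      (CovZ.leaf K2_ok TI_l4747 _)
                      (CovZ.leaf K2_ok TI_l4748 _))
                     (CovZ.leaf K2_ok TI_l4749 _))
                    (CovZ.leaf K2_ok TI_l4750 _)))
                  (CovZ.n1 (83628, 81216) (by decide +kernel)
                   (CovZ.leaf K2_ok TI_l4751 _)
                   (CovZ.n1 (83610, 81198) (by decide +kernel)
                    (CovZ.leaf K2_ok TI_l4752 _)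
                    (CovZ.n1 (83628, 81198) (by decide +kernel)
                     (CovZ.leaf K2_ok TI_l4753 _)
                     (CovZ.leaf K2_ok TI_l4754 _)))))
                 (CovZ.subM 1339937108133015212026801457350049824 (by decide +kernel)
                  (CovZ.n1 (83556, 81180) (by decide +kernel)
                   (CovZ.n2 (83556, 81216) (by decide +kernel)
                    (CovZ.leaf K2_ok TI_l4755 _)
                    (CovZ.n1 (83538, 81198) (by decide +kernel)
                     (CovZ.leaf K2_ok TI_l4756 _)
                     (CovZ.leaf K2_ok TI_l4757 _)))
                   (CovZ.n1 (83592, 81180) (by decide +kernel)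
                    (CovZ.badM (by decide +kernel))
                    (CovZ.n1 (83574, 81198) (by decide +kernel)
                     (CovZ.n2 (83592, 81198) (by decide +kernel)
                      (CovZ.leaf K2_ok TI_l4758 _)
                      (CovZ.leaf K2_ok TI_l4759 _))
                     (CovZ.n1 (83574, 81180) (by decide +kernel)
                      (CovZ.leaf K2_ok TI_l4760 _)
                      (CovZ.leaf K2_ok TI_l4761 _)))))))
                (CovZ.n1 (83664, 81144) (by decide +kernel)
                 (CovZ.subM 72057594037927936 (by decide +kernel)
                  (CovZ.n2 (83628, 81108) (by decide +kernel)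
                   (CovZ.n2 (83628, 81144) (by decide +kernel)
                    (CovZ.n2 (83646, 81126) (by decide +kernel)
                     (CovZ.badM (by decide +kernel))
                     (CovZ.n1 (83646, 81144) (by decide +kernel)
                      (CovZ.leaf K2_ok TI_l4762 _)
                      (CovZ.n1 (83637, 81135) (by decide +kernel)
                       (CovZ.leaf K2_ok TI_l4763 _)
                       (CovZ.leaf K2_ok TI_l4764 _))))
                    (CovZ.badM (by decide +kernel)))
                   (CovZ.n1 (83664, 81108) (by decide +kernel)
                    (CovZ.badM (by decide +kernel))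
                    (CovZ.n1 (83646, 81126) (by decide +kernel)
                     (CovZ.n2 (83664, 81126) (by decide +kernel)
                      (CovZ.badM (by decide +kernel))
                      (CovZ.leaf K2_ok TI_l4765 _))
                     (CovZ.badM (by decide +kernel))))))
                 (CovZ.n1 (83628, 81180) (by decide +kernel)
                  (CovZ.n2 (83664, 81180) (by decide +kernel)
                   (CovZ.n2 (83646, 81162) (by decide +kernel)
                    (CovZ.leaf K2_ok TI_l4766 _)
                    (CovZ.n1 (83664, 81162) (by decide +kernel)
                     (CovZ.leaf K2_ok TI_l4767 _)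
                     (CovZ.leaf K2_ok TI_l4768 _)))
                   (CovZ.n1 (83646, 81198) (by decide +kernel)
                    (CovZ.n2 (83664, 81198) (by decide +kernel)
                     (CovZ.leaf K2_ok TI_l4769 _)
                     (CovZ.leaf K2_ok TI_l4770 _))
                    (CovZ.leaf K2_ok TI_l4771 _)))
                  (CovZ.subM 10384593717069655329188955440545792 (by decide +kernel)
                   (CovZ.n1 (83628, 81144) (by decide +kernel)
                    (CovZ.n2 (83610, 81162) (by decide +kernel)
                     (CovZ.n2 (83628, 81162) (by decide +kernel)
                      (CovZ.n2 (83619, 81153) (by decide +kernel)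
                       (CovZ.leaf K2_ok TI_l4772 _)
                       (CovZ.leaf K2_ok TI_l4773 _))
                      (CovZ.leaf K2_ok TI_l4774 _))
                     (CovZ.n1 (83610, 81144) (by decide +kernel)
                      (CovZ.leaf K2_ok TI_l4775 _)
                      (CovZ.n1 (83619, 81153) (by decide +kernel)
                       (CovZ.badM (by decide +kernel))
                       (CovZ.leaf K2_ok TI_l4776 _))))
                    (CovZ.n1 (83646, 81162) (by decide +kernel)
                     (CovZ.n2 (83646, 81144) (by decide +kernel)
                      (CovZ.leaf K2_ok TI_l4777 _)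
                      (CovZ.n1 (83655, 81153) (by decide +kernel)
                       (CovZ.leaf K2_ok TI_l4778 _)
                       (CovZ.leaf K2_ok TI_l4779 _)))
                     (CovZ.n1 (83628, 81162) (by decide +kernel)
                      (CovZ.n2 (83637, 81171) (by decide +kernel)
                       (CovZ.leaf K2_ok TI_l4780 _)
                       (CovZ.leaf K2_ok TI_l4781 _))
                      (CovZ.leaf K2_ok TI_l4782 _)))))))))
              (CovZ.n1 (83808, 81072) (by decide +kernel)
               (CovZ.badM (by decide +kernel))
               (CovZ.n1 (83736, 81144) (by decide +kernel)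
                (CovZ.n2 (83808, 81144) (by decide +kernel)
                 (CovZ.n2 (83772, 81108) (by decide +kernel)
                  (CovZ.n2 (83772, 81144) (by decide +kernel)
                   (CovZ.leaf K2_ok TI_l4783 _)
                   (CovZ.n1 (83754, 81126) (by decide +kernel)
                    (CovZ.n2 (83754, 81144) (by decide +kernel)
                     (CovZ.leaf K2_ok TI_l4784 _)
                     (CovZ.leaf K2_ok TI_l4785 _))
                    (CovZ.leaf K2_ok TI_l4786 _)))
                  (CovZ.n1 (83808, 81108) (by decide +kernel)
                   (CovZ.n2 (83790, 81090) (by decide +kernel)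
                    (CovZ.leaf K2_ok TI_l4787 _)
                    (CovZ.n1 (83808, 81090) (by decide +kernel)
                     (CovZ.leaf K2_ok TI_l4788 _)
                     (CovZ.leaf K2_ok TI_l4789 _)))
                   (CovZ.n1 (83790, 81126) (by decide +kernel)
                    (CovZ.leaf K2_ok TI_l4790 _)
                    (CovZ.n1 (83790, 81108) (by decide +kernel)
                     (CovZ.leaf K2_ok TI_l4791 _)
                     (CovZ.leaf K2_ok TI_l4792 _)))))
                 (CovZ.n1 (83772, 81180) (by decide +kernel)
                  (CovZ.n2 (83808, 81180) (by decide +kernel)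
                   (CovZ.n2 (83790, 81162) (by decide +kernel)
                    (CovZ.leaf K2_ok TI_l4793 _)
                    (CovZ.leaf K2_ok TI_l4794 _))
                   (CovZ.leaf K2_ok TI_l4795 _))
                  (CovZ.n1 (83772, 81144) (by decide +kernel)
                   (CovZ.leaf K2_ok TI_l4796 _)
                   (CovZ.leaf K2_ok TI_l4797 _))))
                (CovZ.subM 10709112348099339122994397069705216 (by decide +kernel)
                 (CovZ.n1 (83736, 81072) (by decide +kernel)
                  (CovZ.n2 (83700, 81108) (by decide +kernel)
                   (CovZ.n2 (83736, 81108) (by decide +kernel)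
                    (CovZ.subM 72057594037927936 (by decide +kernel)
                     (CovZ.n2 (83718, 81090) (by decide +kernel)
                      (CovZ.n2 (83718, 81108) (by decide +kernel)
                       (CovZ.n2 (83727, 81099) (by decide +kernel)
                        (CovZ.leaf K2_ok TI_l4798 _)
                        (CovZ.leaf K2_ok TI_l4799 _))
                       (CovZ.leaf K2_ok TI_l4800 _))
                      (CovZ.n1 (83736, 81090) (by decide +kernel)
                       (CovZ.badM (by decide +kernel))
                       (CovZ.leaf K2_ok TI_l4801 _))))
                    (CovZ.n1 (83718, 81126) (by decide +kernel)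
                     (CovZ.leaf K2_ok TI_l4802 _)
                     (CovZ.leaf K2_ok TI_l4803 _)))
                   (CovZ.subM 72057594037927936 (by decide +kernel)
                    (CovZ.n1 (83700, 81072) (by decide +kernel)
                     (CovZ.n2 (83682, 81090) (by decide +kernel)
                      (CovZ.n2 (83700, 81090) (by decide +kernel)
                       (CovZ.badM (by decide +kernel))
                       (CovZ.leaf K2_ok TI_l4804 _))
                      (CovZ.badM (by decide +kernel)))
                     (CovZ.n1 (83718, 81090) (by decide +kernel)
                      (CovZ.badM (by decide +kernel))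
                      (CovZ.leaf K2_ok TI_l4805 _)))))
                  (CovZ.n1 (83772, 81108) (by decide +kernel)
                   (CovZ.subM 10384593717069655329118586696368128 (by decide +kernel)
                    (CovZ.n2 (83772, 81072) (by decide +kernel)
                     (CovZ.n2 (83754, 81090) (by decide +kernel)
                      (CovZ.n2 (83772, 81090) (by decide +kernel)
                       (CovZ.badM (by decide +kernel))
                       (CovZ.leaf K2_ok TI_l4806 _))
                      (CovZ.badM (by decide +kernel)))
                     (CovZ.n1 (83790, 81090) (by decide +kernel)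
                      (CovZ.badM (by decide +kernel))
                      (CovZ.leaf K2_ok TI_l4807 _))))
                   (CovZ.n1 (83736, 81108) (by decide +kernel)
                    (CovZ.n2 (83754, 81126) (by decide +kernel)
                     (CovZ.leaf K2_ok TI_l4808 _)
                     (CovZ.leaf K2_ok TI_l4809 _))
                    (CovZ.n1 (83754, 81090) (by decide +kernel)
                     (CovZ.leaf K2_ok TI_l4810 _)
                     (CovZ.leaf K2_ok TI_l4811 _))))))))))

theorem TI_u56 : CovZ TI_M (toL (selN TI_LN 43643219427390268791536924121871136460832)) [0, 7, 6, 1] (84096, 80640) (84096, 81216) (83520, 81216) :=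
    (CovZ.n2 (83808, 80928) (by decide +kernel)
           (CovZ.n2 (83808, 81216) (by decide +kernel)
            TI_u54
            TI_u55)
           (CovZ.subM 85081301159495667530372674306923696160 (by decide +kernel)
            (CovZ.n1 (84096, 80928) (by decide +kernel)
             (CovZ.badM (by decide +kernel))
             (CovZ.n1 (83952, 81072) (by decide +kernel)
              (CovZ.n2 (84096, 81072) (by decide +kernel)
               (CovZ.n2 (84024, 81000) (by decide +kernel)
                (CovZ.n2 (84024, 81072) (by decide +kernel)
                 (CovZ.n2 (84060, 81036) (by decide +kernel)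
                  (CovZ.n2 (84024, 81036) (by decide +kernel)
                   (CovZ.n2 (84042, 81054) (by decide +kernel)
                    (CovZ.leaf K2_ok TI_l4812 _)
                    (CovZ.n1 (84024, 81054) (by decide +kernel)
                     (CovZ.leaf K2_ok TI_l4813 _)
                     (CovZ.leaf K2_ok TI_l4814 _)))
                   (CovZ.leaf K2_ok TI_l4815 _))
                  (CovZ.n1 (84060, 81072) (by decide +kernel)
                   (CovZ.leaf K2_ok TI_l4816 _)
                   (CovZ.n1 (84042, 81054) (by decide +kernel)
                    (CovZ.leaf K2_ok TI_l4817 _)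
                    (CovZ.leaf K2_ok TI_l4818 _))))
                 (CovZ.n1 (83988, 81036) (by decide +kernel)
                  (CovZ.n2 (83988, 81072) (by decide +kernel)
                   (CovZ.n2 (84006, 81054) (by decide +kernel)
                    (CovZ.leaf K2_ok TI_l4819 _)
                    (CovZ.leaf K2_ok TI_l4820 _))
                   (CovZ.n1 (83970, 81054) (by decide +kernel)
                    (CovZ.leaf K2_ok TI_l4821 _)
                    (CovZ.leaf K2_ok TI_l4822 _)))
                  (CovZ.n1 (84024, 81036) (by decide +kernel)
                   (CovZ.n2 (84006, 81018) (by decide +kernel)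
                    (CovZ.n2 (84006, 81036) (by decide +kernel)
                     (CovZ.leaf K2_ok TI_l4823 _)
                     (CovZ.leaf K2_ok TI_l4824 _))
                    (CovZ.n1 (84024, 81018) (by decide +kernel)
                     (CovZ.leaf K2_ok TI_l4825 _)
                     (CovZ.leaf K2_ok TI_l4826 _)))
                   (CovZ.n1 (84006, 81054) (by decide +kernel)
                    (CovZ.leaf K2_ok TI_l4827 _)
                    (CovZ.n1 (84006, 81036) (by decide +kernel)
                     (CovZ.leaf K2_ok TI_l4828 _)
                     (CovZ.leaf K2_ok TI_l4829 _))))))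
                (CovZ.n1 (84096, 81000) (by decide +kernel)
                 (CovZ.n2 (84060, 80964) (by decide +kernel)
                  (CovZ.n2 (84060, 81000) (by decide +kernel)
                   (CovZ.leaf K2_ok TI_l4830 _)
                   (CovZ.n1 (84042, 80982) (by decide +kernel)
                    (CovZ.leaf K2_ok TI_l4831 _)
                    (CovZ.leaf K2_ok TI_l4832 _)))
                  (CovZ.n1 (84096, 80964) (by decide +kernel)
                   (CovZ.n2 (84078, 80946) (by decide +kernel)
                    (CovZ.leaf K2_ok TI_l4833 _)
                    (CovZ.leaf K2_ok TI_l4834 _))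
                   (CovZ.n1 (84078, 80982) (by decide +kernel)
                    (CovZ.leaf K2_ok TI_l4835 _)
                    (CovZ.leaf K2_ok TI_l4836 _))))
                 (CovZ.n1 (84060, 81036) (by decide +kernel)
                  (CovZ.n2 (84096, 81036) (by decide +kernel)
                   (CovZ.n2 (84078, 81018) (by decide +kernel)
                    (CovZ.leaf K2_ok TI_l4837 _)
                    (CovZ.leaf K2_ok TI_l4838 _))
                   (CovZ.n1 (84078, 81054) (by decide +kernel)
                    (CovZ.leaf K2_ok TI_l4839 _)
                    (CovZ.leaf K2_ok TI_l4840 _)))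
                  (CovZ.n1 (84060, 81000) (by decide +kernel)
                   (CovZ.n2 (84042, 81018) (by decide +kernel)
                    (CovZ.leaf K2_ok TI_l4841 _)
                    (CovZ.leaf K2_ok TI_l4842 _))
                   (CovZ.leaf K2_ok TI_l4843 _)))))
               (CovZ.n1 (84024, 81144) (by decide +kernel)
                (CovZ.n2 (84096, 81144) (by decide +kernel)
                 (CovZ.n2 (84060, 81108) (by decide +kernel)
                  (CovZ.leaf K2_ok TI_l4844 _)
                  (CovZ.n1 (84096, 81108) (by decide +kernel)
                   (CovZ.leaf K2_ok TI_l4845 _)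
                   (CovZ.leaf K2_ok TI_l4846 _)))
                 (CovZ.n1 (84060, 81180) (by decide +kernel)
                  (CovZ.leaf K2_ok TI_l4847 _)
                  (CovZ.leaf K2_ok TI_l4848 _)))
                (CovZ.n1 (84024, 81072) (by decide +kernel)
                 (CovZ.n2 (83988, 81108) (by decide +kernel)
                  (CovZ.n2 (84024, 81108) (by decide +kernel)
                   (CovZ.leaf K2_ok TI_l4849 _)
                   (CovZ.leaf K2_ok TI_l4850 _))
                  (CovZ.n1 (83988, 81072) (by decide +kernel)
                   (CovZ.leaf K2_ok TI_l4851 _)
                   (CovZ.leaf K2_ok TI_l4852 _)))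
                 (CovZ.n1 (84060, 81108) (by decide +kernel)
                  (CovZ.n2 (84060, 81072) (by decide +kernel)
                   (CovZ.n2 (84042, 81090) (by decide +kernel)
                    (CovZ.leaf K2_ok TI_l4853 _)
                    (CovZ.leaf K2_ok TI_l4854 _))
                   (CovZ.leaf K2_ok TI_l4855 _))
                  (CovZ.leaf K2_ok TI_l4856 _)))))
              (CovZ.n1 (83952, 80928) (by decide +kernel)
               (CovZ.n2 (83880, 81000) (by decide +kernel)
                (CovZ.n2 (83952, 81000) (by decide +kernel)
                 (CovZ.badM (by decide +kernel))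
                 (CovZ.n1 (83916, 81036) (by decide +kernel)
                  (CovZ.n2 (83952, 81036) (by decide +kernel)
                   (CovZ.n2 (83934, 81018) (by decide +kernel)
                    (CovZ.leaf K2_ok TI_l4857 _)
                    (CovZ.n1 (83952, 81018) (by decide +kernel)
                     (CovZ.leaf K2_ok TI_l4858 _)
                     (CovZ.leaf K2_ok TI_l4859 _)))
                   (CovZ.leaf K2_ok TI_l4860 _))
                  (CovZ.subM 10384593717069655257060992658440192 (by decide +kernel)
                   (CovZ.n1 (83916, 81000) (by decide +kernel)
                    (CovZ.n2 (83898, 81018) (by decide +kernel)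
                     (CovZ.leaf K2_ok TI_l4861 _)
                     (CovZ.badM (by decide +kernel)))
                    (CovZ.n1 (83934, 81018) (by decide +kernel)
                     (CovZ.badM (by decide +kernel))
                     (CovZ.leaf K2_ok TI_l4862 _))))))
                (CovZ.badM (by decide +kernel)))
               (CovZ.n1 (84024, 81000) (by decide +kernel)
                (CovZ.subM 10709112348099339050870832334110720 (by decide +kernel)
                 (CovZ.n2 (84024, 80928) (by decide +kernel)
                  (CovZ.n2 (83988, 80964) (by decide +kernel)
                   (CovZ.n2 (84024, 80964) (by decide +kernel)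
                    (CovZ.badM (by decide +kernel))
                    (CovZ.n1 (84006, 80982) (by decide +kernel)
                     (CovZ.n2 (84024, 80982) (by decide +kernel)
                      (CovZ.leaf K2_ok TI_l4863 _)
                      (CovZ.leaf K2_ok TI_l4864 _))
                     (CovZ.badM (by decide +kernel))))
                   (CovZ.badM (by decide +kernel)))
                  (CovZ.n1 (84060, 80964) (by decide +kernel)
                   (CovZ.n2 (84060, 80928) (by decide +kernel)
                    (CovZ.n2 (84042, 80946) (by decide +kernel)
                     (CovZ.n2 (84060, 80946) (by decide +kernel)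
                      (CovZ.badM (by decide +kernel))
                      (CovZ.leaf K2_ok TI_l4865 _))
                     (CovZ.badM (by decide +kernel)))
                    (CovZ.n1 (84078, 80946) (by decide +kernel)
                     (CovZ.badM (by decide +kernel))
                     (CovZ.leaf K2_ok TI_l4866 _)))
                   (CovZ.n1 (84024, 80964) (by decide +kernel)
                    (CovZ.n2 (84042, 80982) (by decide +kernel)
                     (CovZ.leaf K2_ok TI_l4867 _)
                     (CovZ.leaf K2_ok TI_l4868 _))
                    (CovZ.leaf K2_ok TI_l4869 _)))))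
                (CovZ.n1 (83952, 81000) (by decide +kernel)
                 (CovZ.n2 (83988, 81036) (by decide +kernel)
                  (CovZ.subM 10709429261051627563124863803719680 (by decide +kernel)
                   (CovZ.n2 (83988, 81000) (by decide +kernel)
                    (CovZ.n2 (83970, 81018) (by decide +kernel)
                     (CovZ.n2 (83988, 81018) (by decide +kernel)
                      (CovZ.leaf K2_ok TI_l4870 _)
                      (CovZ.leaf K2_ok TI_l4871 _))
                     (CovZ.n1 (83970, 81000) (by decide +kernel)
                      (CovZ.leaf K2_ok TI_l4872 _)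
                      (CovZ.leaf K2_ok TI_l4873 _)))
                    (CovZ.n1 (84006, 81018) (by decide +kernel)
                     (CovZ.leaf K2_ok TI_l4874 _)
                     (CovZ.leaf K2_ok TI_l4875 _))))
                  (CovZ.n1 (83952, 81036) (by decide +kernel)
                   (CovZ.n2 (83970, 81054) (by decide +kernel)
                    (CovZ.leaf K2_ok TI_l4876 _)
                    (CovZ.leaf K2_ok TI_l4877 _))
                   (CovZ.n1 (83970, 81018) (by decide +kernel)
                    (CovZ.leaf K2_ok TI_l4878 _)
                    (CovZ.n1 (83970, 81036) (by decide +kernel)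
                     (CovZ.leaf K2_ok TI_l4879 _)
                     (CovZ.leaf K2_ok TI_l4880 _)))))
                 (CovZ.subM 10709112348099339050870832334110720 (by decide +kernel)
                  (CovZ.n1 (83988, 80964) (by decide +kernel)
                   (CovZ.badM (by decide +kernel))
                   (CovZ.n1 (83988, 81000) (by decide +kernel)
                    (CovZ.leaf K2_ok TI_l4881 _)
                    (CovZ.n1 (83970, 80982) (by decide +kernel)
                     (CovZ.n2 (83970, 81000) (by decide +kernel)
                      (CovZ.leaf K2_ok TI_l4882 _)
                      (CovZ.badM (by decide +kernel)))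
                     (CovZ.n1 (83988, 80982) (by decide +kernel)
                      (CovZ.badM (by decide +kernel))
                      (CovZ.leaf K2_ok TI_l4883 _)))))))))))))

end Pool.Agent.TET
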