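import Pool.Agent.Helper38_TET.TI_M
import Pool.Agent.Helper38_TET.TI_L
import Pool.Agent.Helper38_TET.TI_32
import Pool.Agent.Helper38_TET.TI_33
import Pool.Agent.Helper38_TET.TI_34
import Pool.Agent.Helper38_TET.TI_35
import Pool.Agent.Helper38_TET.TI_36
import Pool.Agent.Helper38_TET.TI_37
import Pool.Agent.Helper38_TET.TI_38
import Pool.Agent.Helper38_TET.TI_39
import Pool.Agent.Helper38_TET.TI_40

/-!
# MP_c7c9bf_co: certificates, family TI
-/

set_option autoImplicit false
set_option maxRecDepth 100000

namespace Pool.Agent.TET

theorem TI_u57 : CovZ TI_M (toL (selN TI_LN 43643219427390268791536924121871136460832)) [0, 7, 6, 1] (84096, 81216) (84096, 81792) (83520, 81216) :=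
    (CovZ.n1 (83808, 81504) (by decide +kernel)
           (CovZ.n2 (84096, 81504) (by decide +kernel)
            (CovZ.n2 (83952, 81360) (by decide +kernel)
             (CovZ.n2 (83952, 81504) (by decide +kernel)
              (CovZ.leaf K2_ok TI_l4884 _)
              (CovZ.n1 (83880, 81432) (by decide +kernel)
               (CovZ.n2 (83880, 81504) (by decide +kernel)
                (CovZ.leaf K2_ok TI_l4885 _)
                (CovZ.leaf K2_ok TI_l4886 _))
               (CovZ.n1 (83952, 81432) (by decide +kernel)
                (CovZ.n2 (83916, 81396) (by decide +kernel)
                 (CovZ.leaf K2_ok TI_l4887 _)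
                 (CovZ.leaf K2_ok TI_l4888 _))
                (CovZ.leaf K2_ok TI_l4889 _))))
             (CovZ.subM 85081301159805152504453452732836220960 (by decide +kernel)
              (CovZ.n1 (84096, 81360) (by decide +kernel)
               (CovZ.n2 (84024, 81288) (by decide +kernel)
                (CovZ.n2 (84024, 81360) (by decide +kernel)
                 (CovZ.leaf K2_ok TI_l4890 _)
                 (CovZ.n1 (83988, 81324) (by decide +kernel)
                  (CovZ.leaf K2_ok TI_l4891 _)
                  (CovZ.leaf K2_ok TI_l4892 _)))
                (CovZ.n1 (84096, 81288) (by decide +kernel)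
                 (CovZ.n2 (84060, 81252) (by decide +kernel)
                  (CovZ.leaf K2_ok TI_l4893 _)
                  (CovZ.leaf K2_ok TI_l4894 _))
                 (CovZ.leaf K2_ok TI_l4895 _)))
               (CovZ.n1 (84024, 81432) (by decide +kernel)
                (CovZ.n2 (84096, 81432) (by decide +kernel)
                 (CovZ.leaf K2_ok TI_l4896 _)
                 (CovZ.leaf K2_ok TI_l4897 _))
                (CovZ.n1 (84024, 81360) (by decide +kernel)
                 (CovZ.leaf K2_ok TI_l4898 _)
                 (CovZ.leaf K2_ok TI_l4899 _))))))
            (CovZ.n1 (83952, 81648) (by decide +kernel)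
             (CovZ.subM 85081301159805152504453452732836220960 (by decide +kernel)
              (CovZ.n2 (84096, 81648) (by decide +kernel)
               (CovZ.n2 (84024, 81576) (by decide +kernel)
                (CovZ.leaf K2_ok TI_l4900 _)
                (CovZ.n1 (84096, 81576) (by decide +kernel)
                 (CovZ.leaf K2_ok TI_l4901 _)
                 (CovZ.leaf K2_ok TI_l4902 _)))
               (CovZ.n1 (84024, 81720) (by decide +kernel)
                (CovZ.leaf K2_ok TI_l4903 _)
                (CovZ.n1 (84024, 81648) (by decide +kernel)
                 (CovZ.leaf K2_ok TI_l4904 _)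
                 (CovZ.leaf K2_ok TI_l4905 _)))))
             (CovZ.n1 (83952, 81504) (by decide +kernel)
              (CovZ.n2 (83880, 81576) (by decide +kernel)
               (CovZ.n2 (83952, 81576) (by decide +kernel)
                (CovZ.leaf K2_ok TI_l4906 _)
                (CovZ.leaf K2_ok TI_l4907 _))
               (CovZ.n1 (83880, 81504) (by decide +kernel)
                (CovZ.leaf K2_ok TI_l4908 _)
                (CovZ.leaf K2_ok TI_l4909 _)))
              (CovZ.n1 (84024, 81576) (by decide +kernel)
               (CovZ.n2 (84024, 81504) (by decide +kernel)
                (CovZ.leaf K2_ok TI_l4910 _)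
                (CovZ.leaf K2_ok TI_l4911 _))
               (CovZ.leaf K2_ok TI_l4912 _)))))
           (CovZ.n1 (83808, 81216) (by decide +kernel)
            (CovZ.n2 (83664, 81360) (by decide +kernel)
             (CovZ.n2 (83808, 81360) (by decide +kernel)
              (CovZ.n2 (83736, 81288) (by decide +kernel)
               (CovZ.n2 (83736, 81360) (by decide +kernel)
                (CovZ.leaf K2_ok TI_l4913 _)
                (CovZ.n1 (83700, 81324) (by decide +kernel)
                 (CovZ.leaf K2_ok TI_l4914 _)
                 (CovZ.leaf K2_ok TI_l4915 _)))
               (CovZ.n1 (83808, 81288) (by decide +kernel)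
                (CovZ.n2 (83772, 81252) (by decide +kernel)
                 (CovZ.leaf K2_ok TI_l4916 _)
                 (CovZ.leaf K2_ok TI_l4917 _))
                (CovZ.n1 (83772, 81324) (by decide +kernel)
                 (CovZ.leaf K2_ok TI_l4918 _)
                 (CovZ.n1 (83772, 81288) (by decide +kernel)
                  (CovZ.leaf K2_ok TI_l4919 _)
                  (CovZ.leaf K2_ok TI_l4920 _)))))
              (CovZ.n1 (83736, 81432) (by decide +kernel)
               (CovZ.n2 (83808, 81432) (by decide +kernel)
                (CovZ.n2 (83772, 81396) (by decide +kernel)
                 (CovZ.leaf K2_ok TI_l4921 _)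
                 (CovZ.leaf K2_ok TI_l4922 _))
                (CovZ.leaf K2_ok TI_l4923 _))
               (CovZ.n1 (83736, 81360) (by decide +kernel)
                (CovZ.n2 (83700, 81396) (by decide +kernel)
                 (CovZ.leaf K2_ok TI_l4924 _)
                 (CovZ.leaf K2_ok TI_l4925 _))
                (CovZ.n1 (83772, 81396) (by decide +kernel)
                 (CovZ.leaf K2_ok TI_l4926 _)
                 (CovZ.leaf K2_ok TI_l4927 _)))))
             (CovZ.n1 (83664, 81216) (by decide +kernel)
              (CovZ.n2 (83592, 81288) (by decide +kernel)
               (CovZ.n2 (83664, 81288) (by decide +kernel)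
                (CovZ.n2 (83628, 81252) (by decide +kernel)
                 (CovZ.leaf K2_ok TI_l4928 _)
                 (CovZ.n1 (83664, 81252) (by decide +kernel)
                  (CovZ.leaf K2_ok TI_l4929 _)
                  (CovZ.leaf K2_ok TI_l4930 _)))
                (CovZ.n1 (83628, 81324) (by decide +kernel)
                 (CovZ.leaf K2_ok TI_l4931 _)
                 (CovZ.n1 (83628, 81288) (by decide +kernel)
                  (CovZ.leaf K2_ok TI_l4932 _)
                  (CovZ.leaf K2_ok TI_l4933 _))))
               (CovZ.n1 (83592, 81216) (by decide +kernel)
                (CovZ.n2 (83556, 81252) (by decide +kernel)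
                 (CovZ.n2 (83592, 81252) (by decide +kernel)
                  (CovZ.n2 (83574, 81234) (by decide +kernel)
                   (CovZ.leaf K2_ok TI_l4934 _)
                   (CovZ.leaf K2_ok TI_l4935 _))
                  (CovZ.leaf K2_ok TI_l4936 _))
                 (CovZ.subM 43557484201379383924520549142359353458720 (by decide +kernel)
                  (CovZ.n1 (83556, 81216) (by decide +kernel)
                   (CovZ.n2 (83538, 81234) (by decide +kernel)
                    (CovZ.leaf K2_ok TI_l4937 _)
                    (CovZ.leaf K2_ok TI_l4938 _))
                   (CovZ.n1 (83574, 81234) (by decide +kernel)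
                    (CovZ.leaf K2_ok TI_l4939 _)
                    (CovZ.leaf K2_ok TI_l4940 _)))))
                (CovZ.n1 (83628, 81252) (by decide +kernel)
                 (CovZ.n2 (83628, 81216) (by decide +kernel)
                  (CovZ.leaf K2_ok TI_l4941 _)
                  (CovZ.n1 (83646, 81234) (by decide +kernel)
                   (CovZ.leaf K2_ok TI_l4942 _)
                   (CovZ.leaf K2_ok TI_l4943 _)))
                 (CovZ.n1 (83592, 81252) (by decide +kernel)
                  (CovZ.leaf K2_ok TI_l4944 _)
                  (CovZ.leaf K2_ok TI_l4945 _)))))
              (CovZ.n1 (83736, 81288) (by decide +kernel)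
               (CovZ.n2 (83736, 81216) (by decide +kernel)
                (CovZ.n2 (83700, 81252) (by decide +kernel)
                 (CovZ.n2 (83736, 81252) (by decide +kernel)
                  (CovZ.n2 (83718, 81234) (by decide +kernel)
                   (CovZ.leaf K2_ok TI_l4946 _)
                   (CovZ.leaf K2_ok TI_l4947 _))
                  (CovZ.leaf K2_ok TI_l4948 _))
                 (CovZ.n1 (83700, 81216) (by decide +kernel)
                  (CovZ.n2 (83682, 81234) (by decide +kernel)
                   (CovZ.leaf K2_ok TI_l4949 _)
                   (CovZ.leaf K2_ok TI_l4950 _))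
                  (CovZ.n1 (83718, 81234) (by decide +kernel)
                   (CovZ.leaf K2_ok TI_l4951 _)
                   (CovZ.leaf K2_ok TI_l4952 _))))
                (CovZ.n1 (83772, 81252) (by decide +kernel)
                 (CovZ.n2 (83772, 81216) (by decide +kernel)
                  (CovZ.leaf K2_ok TI_l4953 _)
                  (CovZ.leaf K2_ok TI_l4954 _))
                 (CovZ.leaf K2_ok TI_l4955 _)))
               (CovZ.n1 (83664, 81288) (by decide +kernel)
                (CovZ.n2 (83700, 81324) (by decide +kernel)
                 (CovZ.leaf K2_ok TI_l4956 _)
                 (CovZ.leaf K2_ok TI_l4957 _))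
                (CovZ.leaf K2_ok TI_l4958 _)))))
            (CovZ.n1 (83952, 81360) (by decide +kernel)
             (CovZ.n2 (83952, 81216) (by decide +kernel)
              (CovZ.n2 (83880, 81288) (by decide +kernel)
               (CovZ.n2 (83952, 81288) (by decide +kernel)
                (CovZ.n2 (83916, 81252) (by decide +kernel)
                 (CovZ.leaf K2_ok TI_l4959 _)
                 (CovZ.leaf K2_ok TI_l4960 _))
                (CovZ.n1 (83916, 81324) (by decide +kernel)
                 (CovZ.leaf K2_ok TI_l4961 _)
                 (CovZ.leaf K2_ok TI_l4962 _)))
               (CovZ.n1 (83880, 81216) (by decide +kernel)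
                (CovZ.n2 (83844, 81252) (by decide +kernel)
                 (CovZ.leaf K2_ok TI_l4963 _)
                 (CovZ.n1 (83844, 81216) (by decide +kernel)
                  (CovZ.leaf K2_ok TI_l4964 _)
                  (CovZ.leaf K2_ok TI_l4965 _)))
                (CovZ.n1 (83916, 81252) (by decide +kernel)
                 (CovZ.n2 (83916, 81216) (by decide +kernel)
                  (CovZ.leaf K2_ok TI_l4966 _)
                  (CovZ.leaf K2_ok TI_l4967 _))
                 (CovZ.leaf K2_ok TI_l4968 _))))
              (CovZ.subM 85081301159495667494632107664111439904 (by decide +kernel)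
               (CovZ.n1 (84024, 81288) (by decide +kernel)
                (CovZ.n2 (84024, 81216) (by decide +kernel)
                 (CovZ.n2 (83988, 81252) (by decide +kernel)
                  (CovZ.leaf K2_ok TI_l4969 _)
                  (CovZ.leaf K2_ok TI_l4970 _))
                 (CovZ.n1 (84060, 81252) (by decide +kernel)
                  (CovZ.leaf K2_ok TI_l4971 _)
                  (CovZ.leaf K2_ok TI_l4972 _)))
                (CovZ.n1 (83952, 81288) (by decide +kernel)
                 (CovZ.leaf K2_ok TI_l4973 _)
                 (CovZ.leaf K2_ok TI_l4974 _)))))
             (CovZ.n1 (83808, 81360) (by decide +kernel)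
              (CovZ.n2 (83880, 81432) (by decide +kernel)
               (CovZ.n2 (83880, 81360) (by decide +kernel)
                (CovZ.leaf K2_ok TI_l4975 _)
                (CovZ.n1 (83916, 81396) (by decide +kernel)
                 (CovZ.leaf K2_ok TI_l4976 _)
                 (CovZ.leaf K2_ok TI_l4977 _)))
               (CovZ.leaf K2_ok TI_l4978 _))
              (CovZ.n1 (83880, 81288) (by decide +kernel)
               (CovZ.n2 (83808, 81288) (by decide +kernel)
                (CovZ.n2 (83844, 81324) (by decide +kernel)
                 (CovZ.leaf K2_ok TI_l4979 _)
                 (CovZ.leaf K2_ok TI_l4980 _))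
                (CovZ.leaf K2_ok TI_l4981 _))
               (CovZ.n1 (83880, 81360) (by decide +kernel)
                (CovZ.leaf K2_ok TI_l4982 _)
                (CovZ.n1 (83844, 81324) (by decide +kernel)
                 (CovZ.leaf K2_ok TI_l4983 _)
                 (CovZ.leaf K2_ok TI_l4984 _))))))))

theorem TI_u58 : CovZ TI_M (toL (selN TI_LN 85081301159805152504453452732836220960)) [0, 7, 6, 1] (84672, 81216) (84384, 80928) (84672, 80640) :=
    (CovZ.subM 324835543981972306063871145279520 (by decide +kernel)
            (CovZ.n2 (84672, 80928) (by decide +kernel)
             (CovZ.n2 (84528, 80784) (by decide +kernel)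
              (CovZ.n2 (84528, 80928) (by decide +kernel)
               (CovZ.n2 (84600, 80856) (by decide +kernel)
                (CovZ.n2 (84528, 80856) (by decide +kernel)
                 (CovZ.n2 (84564, 80892) (by decide +kernel)
                  (CovZ.n2 (84564, 80856) (by decide +kernel)
                   (CovZ.leaf K2_ok TI_l4985 _)
                   (CovZ.leaf K2_ok TI_l4986 _))
                  (CovZ.leaf K2_ok TI_l4987 _))
                 (CovZ.n1 (84564, 80820) (by decide +kernel)
                  (CovZ.leaf K2_ok TI_l4988 _)
                  (CovZ.leaf K2_ok TI_l4989 _)))
                (CovZ.n1 (84600, 80928) (by decide +kernel)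
                 (CovZ.leaf K2_ok TI_l4990 _)
                 (CovZ.n1 (84564, 80892) (by decide +kernel)
                  (CovZ.leaf K2_ok TI_l4991 _)
                  (CovZ.leaf K2_ok TI_l4992 _))))
               (CovZ.n1 (84456, 80856) (by decide +kernel)
                (CovZ.n2 (84456, 80928) (by decide +kernel)
                 (CovZ.leaf K2_ok TI_l4993 _)
                 (CovZ.n1 (84420, 80892) (by decide +kernel)
                  (CovZ.leaf K2_ok TI_l4994 _)
                  (CovZ.n1 (84456, 80892) (by decide +kernel)
                   (CovZ.n2 (84438, 80874) (by decide +kernel)
                    (CovZ.leaf K2_ok TI_l4995 _)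
                    (CovZ.leaf K2_ok TI_l4996 _))
                   (CovZ.leaf K2_ok TI_l4997 _))))
                (CovZ.n1 (84528, 80856) (by decide +kernel)
                 (CovZ.n2 (84492, 80820) (by decide +kernel)
                  (CovZ.leaf K2_ok TI_l4998 _)
                  (CovZ.n1 (84528, 80820) (by decide +kernel)
                   (CovZ.n2 (84510, 80802) (by decide +kernel)
                    (CovZ.leaf K2_ok TI_l4999 _)
                    (CovZ.leaf K2_ok TI_l5000 _))
                   (CovZ.leaf K2_ok TI_l5001 _)))
                 (CovZ.n1 (84492, 80892) (by decide +kernel)
                  (CovZ.n2 (84528, 80892) (by decide +kernel)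
                   (CovZ.leaf K2_ok TI_l5002 _)
                   (CovZ.leaf K2_ok TI_l5003 _))
                  (CovZ.n1 (84492, 80856) (by decide +kernel)
                   (CovZ.leaf K2_ok TI_l5004 _)
                   (CovZ.leaf K2_ok TI_l5005 _))))))
              (CovZ.n1 (84672, 80784) (by decide +kernel)
               (CovZ.n2 (84600, 80712) (by decide +kernel)
                (CovZ.n2 (84600, 80784) (by decide +kernel)
                 (CovZ.n2 (84636, 80748) (by decide +kernel)
                  (CovZ.n2 (84600, 80748) (by decide +kernel)
                   (CovZ.n2 (84618, 80766) (by decide +kernel)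
                    (CovZ.leaf K2_ok TI_l5006 _)
                    (CovZ.leaf K2_ok TI_l5007 _))
                   (CovZ.leaf K2_ok TI_l5008 _))
                  (CovZ.n1 (84636, 80784) (by decide +kernel)
                   (CovZ.leaf K2_ok TI_l5009 _)
                   (CovZ.n1 (84618, 80766) (by decide +kernel)
                    (CovZ.leaf K2_ok TI_l5010 _)
                    (CovZ.leaf K2_ok TI_l5011 _))))
                 (CovZ.n1 (84564, 80748) (by decide +kernel)
                  (CovZ.n2 (84564, 80784) (by decide +kernel)
                   (CovZ.leaf K2_ok TI_l5012 _)
                   (CovZ.n1 (84546, 80766) (by decide +kernel)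
                    (CovZ.leaf K2_ok TI_l5013 _)
                    (CovZ.leaf K2_ok TI_l5014 _)))
                  (CovZ.n1 (84600, 80748) (by decide +kernel)
                   (CovZ.n2 (84582, 80730) (by decide +kernel)
                    (CovZ.leaf K2_ok TI_l5015 _)
                    (CovZ.leaf K2_ok TI_l5016 _))
                   (CovZ.leaf K2_ok TI_l5017 _))))
                (CovZ.n1 (84672, 80712) (by decide +kernel)
                 (CovZ.subM 316912952293123940049896996864 (by decide +kernel)
                  (CovZ.n2 (84636, 80676) (by decide +kernel)
                   (CovZ.n2 (84636, 80712) (by decide +kernel)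
                    (CovZ.leaf K2_ok TI_l5018 _)
                    (CovZ.n1 (84618, 80694) (by decide +kernel)
                     (CovZ.leaf K2_ok TI_l5019 _)
                     (CovZ.leaf K2_ok TI_l5020 _)))
                   (CovZ.n1 (84672, 80676) (by decide +kernel)
                    (CovZ.n2 (84654, 80658) (by decide +kernel)
                     (CovZ.leaf K2_ok TI_l5021 _)
                     (CovZ.leaf K2_ok TI_l5022 _))
                    (CovZ.n1 (84654, 80694) (by decide +kernel)
                     (CovZ.leaf K2_ok TI_l5023 _)
                     (CovZ.n1 (84654, 80676) (by decide +kernel)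
                      (CovZ.n2 (84645, 80685) (by decide +kernel)
                       (CovZ.leaf K2_ok TI_l5024 _)
                       (CovZ.leaf K2_ok TI_l5025 _))
                      (CovZ.leaf K2_ok TI_l5026 _))))))
                 (CovZ.n1 (84636, 80748) (by decide +kernel)
                  (CovZ.n2 (84672, 80748) (by decide +kernel)
                   (CovZ.n2 (84654, 80730) (by decide +kernel)
                    (CovZ.leaf K2_ok TI_l5027 _)
                    (CovZ.n1 (84672, 80730) (by decide +kernel)
                     (CovZ.leaf K2_ok TI_l5028 _)
                     (CovZ.leaf K2_ok TI_l5029 _)))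
                   (CovZ.leaf K2_ok TI_l5030 _))
                  (CovZ.n1 (84636, 80712) (by decide +kernel)
                   (CovZ.leaf K2_ok TI_l5031 _)
                   (CovZ.leaf K2_ok TI_l5032 _)))))
               (CovZ.n1 (84600, 80856) (by decide +kernel)
                (CovZ.n2 (84672, 80856) (by decide +kernel)
                 (CovZ.n2 (84636, 80820) (by decide +kernel)
                  (CovZ.leaf K2_ok TI_l5033 _)
                  (CovZ.n1 (84672, 80820) (by decide +kernel)
                   (CovZ.leaf K2_ok TI_l5034 _)
                   (CovZ.leaf K2_ok TI_l5035 _)))
                 (CovZ.n1 (84636, 80892) (by decide +kernel)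
                  (CovZ.leaf K2_ok TI_l5036 _)
                  (CovZ.n1 (84636, 80856) (by decide +kernel)
                   (CovZ.leaf K2_ok TI_l5037 _)
                   (CovZ.leaf K2_ok TI_l5038 _))))
                (CovZ.n1 (84600, 80784) (by decide +kernel)
                 (CovZ.n2 (84564, 80820) (by decide +kernel)
                  (CovZ.n2 (84600, 80820) (by decide +kernel)
                   (CovZ.n2 (84582, 80802) (by decide +kernel)
                    (CovZ.leaf K2_ok TI_l5039 _)
                    (CovZ.leaf K2_ok TI_l5040 _))
                   (CovZ.leaf K2_ok TI_l5041 _))
                  (CovZ.n1 (84564, 80784) (by decide +kernel)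
                   (CovZ.n2 (84546, 80802) (by decide +kernel)
                    (CovZ.leaf K2_ok TI_l5042 _)
                    (CovZ.leaf K2_ok TI_l5043 _))
                   (CovZ.n1 (84582, 80802) (by decide +kernel)
                    (CovZ.leaf K2_ok TI_l5044 _)
                    (CovZ.leaf K2_ok TI_l5045 _))))
                 (CovZ.n1 (84636, 80820) (by decide +kernel)
                  (CovZ.n2 (84636, 80784) (by decide +kernel)
                   (CovZ.leaf K2_ok TI_l5046 _)
                   (CovZ.leaf K2_ok TI_l5047 _))
                  (CovZ.leaf K2_ok TI_l5048 _))))))
             (CovZ.n1 (84528, 81072) (by decide +kernel)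
              (CovZ.n2 (84672, 81072) (by decide +kernel)
               (CovZ.n2 (84600, 81000) (by decide +kernel)
                (CovZ.n2 (84600, 81072) (by decide +kernel)
                 (CovZ.leaf K2_ok TI_l5049 _)
                 (CovZ.n1 (84564, 81036) (by decide +kernel)
                  (CovZ.leaf K2_ok TI_l5050 _)
                  (CovZ.leaf K2_ok TI_l5051 _)))
                (CovZ.n1 (84672, 81000) (by decide +kernel)
                 (CovZ.n2 (84636, 80964) (by decide +kernel)
                  (CovZ.leaf K2_ok TI_l5052 _)
                  (CovZ.leaf K2_ok TI_l5053 _))
                 (CovZ.leaf K2_ok TI_l5054 _)))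
               (CovZ.n1 (84600, 81144) (by decide +kernel)
                (CovZ.n2 (84672, 81144) (by decide +kernel)
                 (CovZ.leaf K2_ok TI_l5055 _)
                 (CovZ.leaf K2_ok TI_l5056 _))
                (CovZ.n1 (84600, 81072) (by decide +kernel)
                 (CovZ.leaf K2_ok TI_l5057 _)
                 (CovZ.leaf K2_ok TI_l5058 _))))
              (CovZ.n1 (84528, 80928) (by decide +kernel)
               (CovZ.n2 (84456, 81000) (by decide +kernel)
                (CovZ.n2 (84528, 81000) (by decide +kernel)
                 (CovZ.n2 (84492, 80964) (by decide +kernel)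
                  (CovZ.leaf K2_ok TI_l5059 _)
                  (CovZ.leaf K2_ok TI_l5060 _))
                 (CovZ.n1 (84492, 81036) (by decide +kernel)
                  (CovZ.leaf K2_ok TI_l5061 _)
                  (CovZ.leaf K2_ok TI_l5062 _)))
                (CovZ.n1 (84456, 80928) (by decide +kernel)
                 (CovZ.n2 (84420, 80964) (by decide +kernel)
                  (CovZ.leaf K2_ok TI_l5063 _)
                  (CovZ.n1 (84420, 80928) (by decide +kernel)
                   (CovZ.leaf K2_ok TI_l5064 _)
                   (CovZ.leaf K3_ok TI_l5065 _)))
                 (CovZ.n1 (84492, 80964) (by decide +kernel)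
                  (CovZ.leaf K2_ok TI_l5066 _)
                  (CovZ.leaf K2_ok TI_l5067 _))))
               (CovZ.n1 (84600, 81000) (by decide +kernel)
                (CovZ.n2 (84600, 80928) (by decide +kernel)
                 (CovZ.n2 (84564, 80964) (by decide +kernel)
                  (CovZ.leaf K2_ok TI_l5068 _)
                  (CovZ.leaf K2_ok TI_l5069 _))
                 (CovZ.n1 (84636, 80964) (by decide +kernel)
                  (CovZ.leaf K2_ok TI_l5070 _)
                  (CovZ.leaf K2_ok TI_l5071 _)))
                (CovZ.n1 (84528, 81000) (by decide +kernel)
                 (CovZ.leaf K2_ok TI_l5072 _)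
                 (CovZ.leaf K2_ok TI_l5073 _)))))))

theorem TI_u59 : CovZ TI_M (toL (selN TI_LN 85081301159805152504453452732836220960)) [0, 7, 6, 1] (84384, 80928) (84096, 80640) (84672, 80640) :=
    (CovZ.n1 (84384, 80640) (by decide +kernel)
            (CovZ.n2 (84240, 80784) (by decide +kernel)
             (CovZ.subM 324835543981972306345346121990176 (by decide +kernel)
              (CovZ.n2 (84384, 80784) (by decide +kernel)
               (CovZ.badM (by decide +kernel))
               (CovZ.n1 (84312, 80856) (by decide +kernel)
                (CovZ.n2 (84384, 80856) (by decide +kernel)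
                 (CovZ.n2 (84348, 80820) (by decide +kernel)
                  (CovZ.n2 (84348, 80856) (by decide +kernel)
                   (CovZ.n2 (84366, 80838) (by decide +kernel)
                    (CovZ.leaf K2_ok TI_l5074 _)
                    (CovZ.leaf K2_ok TI_l5075 _))
                   (CovZ.n1 (84330, 80838) (by decide +kernel)
                    (CovZ.leaf K2_ok TI_l5076 _)
                    (CovZ.leaf K2_ok TI_l5077 _)))
                  (CovZ.n1 (84384, 80820) (by decide +kernel)
                   (CovZ.n2 (84366, 80802) (by decide +kernel)
                    (CovZ.leaf K2_ok TI_l5078 _)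
                    (CovZ.leaf K2_ok TI_l5079 _))
                   (CovZ.n1 (84366, 80838) (by decide +kernel)
                    (CovZ.leaf K2_ok TI_l5080 _)
                    (CovZ.leaf K2_ok TI_l5081 _))))
                 (CovZ.n1 (84348, 80892) (by decide +kernel)
                  (CovZ.n2 (84384, 80892) (by decide +kernel)
                   (CovZ.leaf K2_ok TI_l5082 _)
                   (CovZ.n1 (84366, 80910) (by decide +kernel)
                    (CovZ.leaf K2_ok TI_l5083 _)
                    (CovZ.leaf K2_ok TI_l5084 _)))
                  (CovZ.n1 (84348, 80856) (by decide +kernel)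
                   (CovZ.n2 (84330, 80874) (by decide +kernel)
                    (CovZ.leaf K2_ok TI_l5085 _)
                    (CovZ.n1 (84330, 80856) (by decide +kernel)
                     (CovZ.leaf K2_ok TI_l5086 _)
                     (CovZ.leaf K2_ok TI_l5087 _)))
                   (CovZ.leaf K2_ok TI_l5088 _))))
                (CovZ.subM 324518631029683793809839675801600 (by decide +kernel)
                 (CovZ.n1 (84312, 80784) (by decide +kernel)
                  (CovZ.n2 (84276, 80820) (by decide +kernel)
                   (CovZ.n2 (84312, 80820) (by decide +kernel)
                    (CovZ.badM (by decide +kernel))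
                    (CovZ.n1 (84294, 80838) (by decide +kernel)
                     (CovZ.n2 (84312, 80838) (by decide +kernel)
                      (CovZ.n2 (84303, 80829) (by decide +kernel)
                       (CovZ.leaf K2_ok TI_l5089 _)
                       (CovZ.leaf K2_ok TI_l5090 _))
                      (CovZ.leaf K2_ok TI_l5091 _))
                     (CovZ.badM (by decide +kernel))))
                   (CovZ.badM (by decide +kernel)))
                  (CovZ.n1 (84348, 80820) (by decide +kernel)
                   (CovZ.n2 (84348, 80784) (by decide +kernel)
                    (CovZ.n2 (84330, 80802) (by decide +kernel)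
                     (CovZ.n2 (84348, 80802) (by decide +kernel)
                      (CovZ.badM (by decide +kernel))
                      (CovZ.leaf K2_ok TI_l5092 _))
                     (CovZ.badM (by decide +kernel)))
                    (CovZ.n1 (84366, 80802) (by decide +kernel)
                     (CovZ.badM (by decide +kernel))
                     (CovZ.n1 (84348, 80802) (by decide +kernel)
                      (CovZ.n2 (84357, 80811) (by decide +kernel)
                       (CovZ.badM (by decide +kernel))
                       (CovZ.leaf K2_ok TI_l5093 _))
                      (CovZ.badM (by decide +kernel)))))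
                   (CovZ.n1 (84312, 80820) (by decide +kernel)
                    (CovZ.n2 (84330, 80838) (by decide +kernel)
                     (CovZ.leaf K2_ok TI_l5094 _)
                     (CovZ.leaf K2_ok TI_l5095 _))
                    (CovZ.n1 (84330, 80802) (by decide +kernel)
                     (CovZ.badM (by decide +kernel))
                     (CovZ.n1 (84330, 80820) (by decide +kernel)
                      (CovZ.leaf K2_ok TI_l5096 _)
                      (CovZ.n1 (84321, 80811) (by decide +kernel)
                       (CovZ.leaf K2_ok TI_l5097 _)
                       (CovZ.leaf K2_ok TI_l5098 _)))))))))))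
             (CovZ.badM (by decide +kernel)))
            (CovZ.subM 324835543981972306063871145279520 (by decide +kernel)
             (CovZ.n1 (84528, 80784) (by decide +kernel)
              (CovZ.n2 (84528, 80640) (by decide +kernel)
               (CovZ.n2 (84456, 80712) (by decide +kernel)
                (CovZ.n2 (84528, 80712) (by decide +kernel)
                 (CovZ.badM (by decide +kernel))
                 (CovZ.n1 (84492, 80748) (by decide +kernel)
                  (CovZ.subM 316912952293123940049896996864 (by decide +kernel)
                   (CovZ.n2 (84528, 80748) (by decide +kernel)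
                    (CovZ.n2 (84510, 80730) (by decide +kernel)
                     (CovZ.leaf K2_ok TI_l5099 _)
                     (CovZ.n1 (84528, 80730) (by decide +kernel)
                      (CovZ.badM (by decide +kernel))
                      (CovZ.leaf K2_ok TI_l5100 _)))
                    (CovZ.n1 (84510, 80766) (by decide +kernel)
                     (CovZ.n2 (84528, 80766) (by decide +kernel)
                      (CovZ.leaf K2_ok TI_l5101 _)
                      (CovZ.leaf K2_ok TI_l5102 _))
                     (CovZ.n1 (84510, 80748) (by decide +kernel)
                      (CovZ.leaf K2_ok TI_l5103 _)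
                      (CovZ.leaf K2_ok TI_l5104 _)))))
                  (CovZ.subM 324518631029679182119423201771520 (by decide +kernel)
                   (CovZ.n1 (84492, 80712) (by decide +kernel)
                    (CovZ.n2 (84474, 80730) (by decide +kernel)
                     (CovZ.n2 (84492, 80730) (by decide +kernel)
                      (CovZ.badM (by decide +kernel))
                      (CovZ.leaf K2_ok TI_l5105 _))
                     (CovZ.badM (by decide +kernel)))
                    (CovZ.badM (by decide +kernel))))))
                (CovZ.badM (by decide +kernel)))
               (CovZ.subM 316912952293123940049896996864 (by decide +kernel)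
                (CovZ.n1 (84600, 80712) (by decide +kernel)
                 (CovZ.n2 (84600, 80640) (by decide +kernel)
                  (CovZ.n2 (84564, 80676) (by decide +kernel)
                   (CovZ.n2 (84600, 80676) (by decide +kernel)
                    (CovZ.badM (by decide +kernel))
                    (CovZ.n1 (84582, 80694) (by decide +kernel)
                     (CovZ.leaf K2_ok TI_l5106 _)
                     (CovZ.badM (by decide +kernel))))
                   (CovZ.badM (by decide +kernel)))
                  (CovZ.n1 (84636, 80676) (by decide +kernel)
                   (CovZ.badM (by decide +kernel))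
                   (CovZ.n1 (84600, 80676) (by decide +kernel)
                    (CovZ.n2 (84618, 80694) (by decide +kernel)
                     (CovZ.badM (by decide +kernel))
                     (CovZ.leaf K2_ok TI_l5107 _))
                    (CovZ.badM (by decide +kernel)))))
                 (CovZ.n1 (84528, 80712) (by decide +kernel)
                  (CovZ.n2 (84564, 80748) (by decide +kernel)
                   (CovZ.n2 (84564, 80712) (by decide +kernel)
                    (CovZ.n2 (84546, 80730) (by decide +kernel)
                     (CovZ.n2 (84564, 80730) (by decide +kernel)
                      (CovZ.leaf K2_ok TI_l5108 _)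
                      (CovZ.leaf K2_ok TI_l5109 _))
                     (CovZ.badM (by decide +kernel)))
                    (CovZ.n1 (84582, 80730) (by decide +kernel)
                     (CovZ.leaf K2_ok TI_l5110 _)
                     (CovZ.n1 (84564, 80730) (by decide +kernel)
                      (CovZ.leaf K2_ok TI_l5111 _)
                      (CovZ.leaf K2_ok TI_l5112 _))))
                   (CovZ.n1 (84528, 80748) (by decide +kernel)
                    (CovZ.n2 (84546, 80766) (by decide +kernel)
                     (CovZ.n2 (84546, 80748) (by decide +kernel)
                      (CovZ.leaf K2_ok TI_l5113 _)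
                      (CovZ.leaf K2_ok TI_l5114 _))
                     (CovZ.leaf K2_ok TI_l5115 _))
                    (CovZ.n1 (84546, 80730) (by decide +kernel)
                     (CovZ.leaf K2_ok TI_l5116 _)
                     (CovZ.n1 (84546, 80748) (by decide +kernel)
                      (CovZ.leaf K2_ok TI_l5117 _)
                      (CovZ.leaf K2_ok TI_l5118 _)))))
                  (CovZ.n1 (84564, 80676) (by decide +kernel)
                   (CovZ.badM (by decide +kernel))
                   (CovZ.n1 (84564, 80712) (by decide +kernel)
                    (CovZ.n2 (84582, 80694) (by decide +kernel)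
                     (CovZ.badM (by decide +kernel))
                     (CovZ.leaf K2_ok TI_l5119 _))
                    (CovZ.badM (by decide +kernel))))))))
              (CovZ.n1 (84384, 80784) (by decide +kernel)
               (CovZ.n2 (84456, 80856) (by decide +kernel)
                (CovZ.n2 (84456, 80784) (by decide +kernel)
                 (CovZ.n2 (84420, 80820) (by decide +kernel)
                  (CovZ.n2 (84456, 80820) (by decide +kernel)
                   (CovZ.n2 (84438, 80802) (by decide +kernel)
                    (CovZ.leaf K2_ok TI_l5120 _)
                    (CovZ.leaf K2_ok TI_l5121 _))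
                   (CovZ.n1 (84438, 80838) (by decide +kernel)
                    (CovZ.leaf K2_ok TI_l5122 _)
                    (CovZ.leaf K2_ok TI_l5123 _)))
                  (CovZ.n1 (84420, 80784) (by decide +kernel)
                   (CovZ.n2 (84402, 80802) (by decide +kernel)
                    (CovZ.n2 (84420, 80802) (by decide +kernel)
                     (CovZ.leaf K2_ok TI_l5124 _)
                     (CovZ.leaf K2_ok TI_l5125 _))
                    (CovZ.n1 (84402, 80784) (by decide +kernel)
                     (CovZ.leaf K2_ok TI_l5126 _)
                     (CovZ.leaf K2_ok TI_l5127 _)))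
                   (CovZ.n1 (84438, 80802) (by decide +kernel)
                    (CovZ.leaf K2_ok TI_l5128 _)
                    (CovZ.leaf K2_ok TI_l5129 _))))
                 (CovZ.n1 (84492, 80820) (by decide +kernel)
                  (CovZ.n2 (84492, 80784) (by decide +kernel)
                   (CovZ.leaf K2_ok TI_l5130 _)
                   (CovZ.n1 (84510, 80802) (by decide +kernel)
                    (CovZ.n2 (84510, 80784) (by decide +kernel)
                     (CovZ.leaf K2_ok TI_l5131 _)
                     (CovZ.leaf K2_ok TI_l5132 _))
                    (CovZ.leaf K2_ok TI_l5133 _)))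
                  (CovZ.n1 (84456, 80820) (by decide +kernel)
                   (CovZ.leaf K2_ok TI_l5134 _)
                   (CovZ.leaf K2_ok TI_l5135 _))))
                (CovZ.n1 (84384, 80856) (by decide +kernel)
                 (CovZ.n2 (84420, 80892) (by decide +kernel)
                  (CovZ.n2 (84420, 80856) (by decide +kernel)
                   (CovZ.leaf K2_ok TI_l5136 _)
                   (CovZ.n1 (84438, 80874) (by decide +kernel)
                    (CovZ.leaf K2_ok TI_l5137 _)
                    (CovZ.leaf K2_ok TI_l5138 _)))
                  (CovZ.leaf K2_ok TI_l5139 _))
                 (CovZ.n1 (84420, 80820) (by decide +kernel)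
                  (CovZ.n2 (84384, 80820) (by decide +kernel)
                   (CovZ.n2 (84402, 80838) (by decide +kernel)
                    (CovZ.leaf K2_ok TI_l5140 _)
                    (CovZ.leaf K2_ok TI_l5141 _))
                   (CovZ.leaf K2_ok TI_l5142 _))
                  (CovZ.n1 (84420, 80856) (by decide +kernel)
                   (CovZ.leaf K2_ok TI_l5143 _)
                   (CovZ.n1 (84402, 80838) (by decide +kernel)
                    (CovZ.leaf K2_ok TI_l5144 _)
                    (CovZ.leaf K2_ok TI_l5145 _))))))
               (CovZ.n1 (84456, 80712) (by decide +kernel)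
                (CovZ.badM (by decide +kernel))
                (CovZ.n1 (84456, 80784) (by decide +kernel)
                 (CovZ.n2 (84492, 80748) (by decide +kernel)
                  (CovZ.subM 324518631029683793805441629290496 (by decide +kernel)
                   (CovZ.n2 (84456, 80748) (by decide +kernel)
                    (CovZ.n2 (84474, 80766) (by decide +kernel)
                     (CovZ.n2 (84474, 80748) (by decide +kernel)
                      (CovZ.leaf K2_ok TI_l5146 _)
                      (CovZ.leaf K2_ok TI_l5147 _))
                     (CovZ.leaf K2_ok TI_l5148 _))
                    (CovZ.leaf K2_ok TI_l5149 _)))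
                  (CovZ.n1 (84492, 80784) (by decide +kernel)
                   (CovZ.leaf K2_ok TI_l5150 _)
                   (CovZ.n1 (84474, 80766) (by decide +kernel)
                    (CovZ.leaf K2_ok TI_l5151 _)
                    (CovZ.leaf K2_ok TI_l5152 _))))
                 (CovZ.subM 324518631029683793805441629290496 (by decide +kernel)
                  (CovZ.n1 (84420, 80748) (by decide +kernel)
                   (CovZ.n2 (84420, 80784) (by decide +kernel)
                    (CovZ.leaf K2_ok TI_l5153 _)
                    (CovZ.n1 (84402, 80766) (by decide +kernel)
                     (CovZ.n2 (84402, 80784) (by decide +kernel)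
                      (CovZ.leaf K2_ok TI_l5154 _)
                      (CovZ.badM (by decide +kernel)))
                     (CovZ.leaf K2_ok TI_l5155 _)))
                   (CovZ.n1 (84456, 80748) (by decide +kernel)
                    (CovZ.badM (by decide +kernel))
                    (CovZ.n1 (84438, 80766) (by decide +kernel)
                     (CovZ.n2 (84456, 80766) (by decide +kernel)
                      (CovZ.leaf K2_ok TI_l5156 _)
                      (CovZ.leaf K2_ok TI_l5157 _))
                     (CovZ.badM (by decide +kernel))))))))))))

theorem TI_u60 : CovZ TI_M (toL (selN TI_LN 316912952293123944447943508000)) [0, 7, 6, 1] (85248, 80640) (84960, 80928) (84672, 80640) :=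
    (CovZ.n2 (84960, 80640) (by decide +kernel)
             (CovZ.n2 (84816, 80784) (by decide +kernel)
              (CovZ.n2 (84960, 80784) (by decide +kernel)
               (CovZ.n2 (84888, 80712) (by decide +kernel)
                (CovZ.n2 (84888, 80784) (by decide +kernel)
                 (CovZ.leaf K2_ok TI_l5158 _)
                 (CovZ.n1 (84852, 80748) (by decide +kernel)
                  (CovZ.leaf K2_ok TI_l5159 _)
                  (CovZ.leaf K2_ok TI_l5160 _)))
                (CovZ.n1 (84960, 80712) (by decide +kernel)
                 (CovZ.n2 (84924, 80676) (by decide +kernel)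
                  (CovZ.leaf K2_ok TI_l5161 _)
                  (CovZ.n1 (84960, 80676) (by decide +kernel)
                   (CovZ.leaf K3_ok TI_l5162 _)
                   (CovZ.leaf K2_ok TI_l5163 _)))
                 (CovZ.n1 (84924, 80748) (by decide +kernel)
                  (CovZ.leaf K2_ok TI_l5164 _)
                  (CovZ.leaf K2_ok TI_l5165 _))))
               (CovZ.n1 (84888, 80856) (by decide +kernel)
                (CovZ.n2 (84960, 80856) (by decide +kernel)
                 (CovZ.n2 (84924, 80820) (by decide +kernel)
                  (CovZ.leaf K2_ok TI_l5166 _)
                  (CovZ.leaf K2_ok TI_l5167 _))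
                 (CovZ.leaf K2_ok TI_l5168 _))
                (CovZ.n1 (84888, 80784) (by decide +kernel)
                 (CovZ.n2 (84852, 80820) (by decide +kernel)
                  (CovZ.leaf K2_ok TI_l5169 _)
                  (CovZ.leaf K2_ok TI_l5170 _))
                 (CovZ.n1 (84924, 80820) (by decide +kernel)
                  (CovZ.leaf K2_ok TI_l5171 _)
                  (CovZ.leaf K2_ok TI_l5172 _)))))
              (CovZ.n1 (84816, 80640) (by decide +kernel)
               (CovZ.n2 (84744, 80712) (by decide +kernel)
                (CovZ.n2 (84816, 80712) (by decide +kernel)
                 (CovZ.n2 (84780, 80676) (by decide +kernel)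
                  (CovZ.n2 (84780, 80712) (by decide +kernel)
                   (CovZ.leaf K2_ok TI_l5173 _)
                   (CovZ.n1 (84762, 80694) (by decide +kernel)
                    (CovZ.leaf K2_ok TI_l5174 _)
                    (CovZ.leaf K2_ok TI_l5175 _)))
                  (CovZ.n1 (84816, 80676) (by decide +kernel)
                   (CovZ.n2 (84798, 80658) (by decide +kernel)
                    (CovZ.leaf K2_ok TI_l5176 _)
                    (CovZ.leaf K2_ok TI_l5177 _))
                   (CovZ.leaf K2_ok TI_l5178 _)))
                 (CovZ.n1 (84780, 80748) (by decide +kernel)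
                  (CovZ.n2 (84816, 80748) (by decide +kernel)
                   (CovZ.leaf K2_ok TI_l5179 _)
                   (CovZ.leaf K2_ok TI_l5180 _))
                  (CovZ.n1 (84780, 80712) (by decide +kernel)
                   (CovZ.leaf K2_ok TI_l5181 _)
                   (CovZ.leaf K2_ok TI_l5182 _))))
                (CovZ.n1 (84744, 80640) (by decide +kernel)
                 (CovZ.n2 (84708, 80676) (by decide +kernel)
                  (CovZ.n2 (84744, 80676) (by decide +kernel)
                   (CovZ.n2 (84726, 80658) (by decide +kernel)
                    (CovZ.leaf K2_ok TI_l5183 _)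
                    (CovZ.leaf K2_ok TI_l5184 _))
                   (CovZ.n1 (84726, 80694) (by decide +kernel)
                    (CovZ.leaf K2_ok TI_l5185 _)
                    (CovZ.leaf K2_ok TI_l5186 _)))
                  (CovZ.subM 4611686018427518976 (by decide +kernel)
                   (CovZ.n1 (84708, 80640) (by decide +kernel)
                    (CovZ.n2 (84690, 80658) (by decide +kernel)
                     (CovZ.leaf K2_ok TI_l5187 _)
                     (CovZ.badM (by decide +kernel)))
                    (CovZ.n1 (84726, 80658) (by decide +kernel)
                     (CovZ.n2 (84726, 80640) (by decide +kernel)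
                      (CovZ.leaf K2_ok TI_l5188 _)
                      (CovZ.leaf K2_ok TI_l5189 _))
                     (CovZ.leaf K2_ok TI_l5190 _)))))
                 (CovZ.n1 (84780, 80676) (by decide +kernel)
                  (CovZ.n2 (84780, 80640) (by decide +kernel)
                   (CovZ.n2 (84762, 80658) (by decide +kernel)
                    (CovZ.n2 (84780, 80658) (by decide +kernel)
                     (CovZ.leaf K2_ok TI_l5191 _)
                     (CovZ.leaf K2_ok TI_l5192 _))
                    (CovZ.n1 (84762, 80640) (by decide +kernel)
                     (CovZ.leaf K2_ok TI_l5193 _)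
                     (CovZ.leaf K2_ok TI_l5194 _)))
                   (CovZ.n1 (84798, 80658) (by decide +kernel)
                    (CovZ.leaf K2_ok TI_l5195 _)
                    (CovZ.leaf K2_ok TI_l5196 _)))
                  (CovZ.n1 (84744, 80676) (by decide +kernel)
                   (CovZ.n2 (84762, 80694) (by decide +kernel)
                    (CovZ.leaf K2_ok TI_l5197 _)
                    (CovZ.leaf K2_ok TI_l5198 _))
                   (CovZ.leaf K2_ok TI_l5199 _)))))
               (CovZ.n1 (84888, 80712) (by decide +kernel)
                (CovZ.n2 (84888, 80640) (by decide +kernel)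
                 (CovZ.n2 (84852, 80676) (by decide +kernel)
                  (CovZ.n2 (84888, 80676) (by decide +kernel)
                   (CovZ.leaf K2_ok TI_l5200 _)
                   (CovZ.leaf K2_ok TI_l5201 _))
                  (CovZ.n1 (84852, 80640) (by decide +kernel)
                   (CovZ.leaf K2_ok TI_l5202 _)
                   (CovZ.leaf K2_ok TI_l5203 _)))
                 (CovZ.n1 (84924, 80676) (by decide +kernel)
                  (CovZ.n2 (84924, 80640) (by decide +kernel)
                   (CovZ.leaf K2_ok TI_l5204 _)
                   (CovZ.leaf K2_ok TI_l5205 _))
                  (CovZ.leaf K2_ok TI_l5206 _)))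
                (CovZ.n1 (84816, 80712) (by decide +kernel)
                 (CovZ.n2 (84852, 80748) (by decide +kernel)
                  (CovZ.n2 (84852, 80712) (by decide +kernel)
                   (CovZ.leaf K2_ok TI_l5207 _)
                   (CovZ.leaf K2_ok TI_l5208 _))
                  (CovZ.leaf K2_ok TI_l5209 _))
                 (CovZ.n1 (84852, 80676) (by decide +kernel)
                  (CovZ.n2 (84816, 80676) (by decide +kernel)
                   (CovZ.leaf K2_ok TI_l5210 _)
                   (CovZ.leaf K2_ok TI_l5211 _))
                  (CovZ.leaf K2_ok TI_l5212 _))))))
             (CovZ.n1 (85104, 80784) (by decide +kernel)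
              (CovZ.n2 (85104, 80640) (by decide +kernel)
               (CovZ.n2 (85032, 80712) (by decide +kernel)
                (CovZ.n2 (85104, 80712) (by decide +kernel)
                 (CovZ.n2 (85068, 80676) (by decide +kernel)
                  (CovZ.leaf K2_ok TI_l5213 _)
                  (CovZ.leaf K2_ok TI_l5214 _))
                 (CovZ.leaf K2_ok TI_l5215 _))
                (CovZ.n1 (85032, 80640) (by decide +kernel)
                 (CovZ.n2 (84996, 80676) (by decide +kernel)
                  (CovZ.n2 (85032, 80676) (by decide +kernel)
                   (CovZ.leaf K2_ok TI_l5216 _)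
                   (CovZ.leaf K3_ok TI_l5217 _))
                  (CovZ.n1 (84996, 80640) (by decide +kernel)
                   (CovZ.leaf K3_ok TI_l5218 _)
                   (CovZ.leaf K2_ok TI_l5219 _)))
                 (CovZ.n1 (85068, 80676) (by decide +kernel)
                  (CovZ.leaf K2_ok TI_l5220 _)
                  (CovZ.leaf K2_ok TI_l5221 _))))
               (CovZ.n1 (85176, 80712) (by decide +kernel)
                (CovZ.n2 (85176, 80640) (by decide +kernel)
                 (CovZ.n2 (85140, 80676) (by decide +kernel)
                  (CovZ.leaf K2_ok TI_l5222 _)
                  (CovZ.leaf K2_ok TI_l5223 _))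
                 (CovZ.n1 (85212, 80676) (by decide +kernel)
                  (CovZ.leaf K2_ok TI_l5224 _)
                  (CovZ.leaf K2_ok TI_l5225 _)))
                (CovZ.n1 (85104, 80712) (by decide +kernel)
                 (CovZ.n2 (85140, 80748) (by decide +kernel)
                  (CovZ.leaf K2_ok TI_l5226 _)
                  (CovZ.leaf K2_ok TI_l5227 _))
                 (CovZ.leaf K2_ok TI_l5228 _))))
              (CovZ.n1 (84960, 80784) (by decide +kernel)
               (CovZ.n2 (85032, 80856) (by decide +kernel)
                (CovZ.n2 (85032, 80784) (by decide +kernel)
                 (CovZ.leaf K2_ok TI_l5229 _)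
                 (CovZ.n1 (85068, 80820) (by decide +kernel)
                  (CovZ.leaf K2_ok TI_l5230 _)
                  (CovZ.leaf K2_ok TI_l5231 _)))
                (CovZ.n1 (84960, 80856) (by decide +kernel)
                 (CovZ.leaf K2_ok TI_l5232 _)
                 (CovZ.leaf K2_ok TI_l5233 _)))
               (CovZ.n1 (85032, 80712) (by decide +kernel)
                (CovZ.n2 (84960, 80712) (by decide +kernel)
                 (CovZ.n2 (84996, 80748) (by decide +kernel)
                  (CovZ.leaf K2_ok TI_l5234 _)
                  (CovZ.leaf K2_ok TI_l5235 _))
                 (CovZ.leaf K2_ok TI_l5236 _))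
                (CovZ.n1 (85032, 80784) (by decide +kernel)
                 (CovZ.leaf K2_ok TI_l5237 _)
                 (CovZ.n1 (84996, 80748) (by decide +kernel)
                  (CovZ.leaf K2_ok TI_l5238 _)
                  (CovZ.leaf K2_ok TI_l5239 _)))))))

theorem TI_u61 : CovZ TI_M (toL (selN TI_LN 316912952293123944447943508000)) [0, 7, 6, 1] (84960, 80928) (84672, 81216) (84672, 80640) :=
    (CovZ.n1 (84672, 80928) (by decide +kernel)
             (CovZ.n2 (84816, 81072) (by decide +kernel)
              (CovZ.n2 (84816, 80928) (by decide +kernel)
               (CovZ.n2 (84744, 81000) (by decide +kernel)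
                (CovZ.n2 (84816, 81000) (by decide +kernel)
                 (CovZ.leaf K2_ok TI_l5240 _)
                 (CovZ.leaf K2_ok TI_l5241 _))
                (CovZ.n1 (84744, 80928) (by decide +kernel)
                 (CovZ.n2 (84708, 80964) (by decide +kernel)
                  (CovZ.leaf K2_ok TI_l5242 _)
                  (CovZ.leaf K2_ok TI_l5243 _))
                 (CovZ.leaf K2_ok TI_l5244 _)))
               (CovZ.n1 (84888, 81000) (by decide +kernel)
                (CovZ.n2 (84888, 80928) (by decide +kernel)
                 (CovZ.leaf K2_ok TI_l5245 _)
                 (CovZ.leaf K2_ok TI_l5246 _))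
                (CovZ.n1 (84816, 81000) (by decide +kernel)
                 (CovZ.leaf K2_ok TI_l5247 _)
                 (CovZ.leaf K2_ok TI_l5248 _))))
              (CovZ.n1 (84672, 81072) (by decide +kernel)
               (CovZ.n2 (84744, 81144) (by decide +kernel)
                (CovZ.n2 (84744, 81072) (by decide +kernel)
                 (CovZ.leaf K2_ok TI_l5249 _)
                 (CovZ.leaf K2_ok TI_l5250 _))
                (CovZ.leaf K2_ok TI_l5251 _))
               (CovZ.n1 (84744, 81000) (by decide +kernel)
                (CovZ.n2 (84672, 81000) (by decide +kernel)
                 (CovZ.n2 (84708, 81036) (by decide +kernel)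
                  (CovZ.leaf K2_ok TI_l5252 _)
                  (CovZ.leaf K2_ok TI_l5253 _))
                 (CovZ.leaf K2_ok TI_l5254 _))
                (CovZ.n1 (84744, 81072) (by decide +kernel)
                 (CovZ.leaf K2_ok TI_l5255 _)
                 (CovZ.n1 (84708, 81036) (by decide +kernel)
                  (CovZ.leaf K2_ok TI_l5256 _)
                  (CovZ.leaf K2_ok TI_l5257 _))))))
             (CovZ.n1 (84816, 80784) (by decide +kernel)
              (CovZ.n2 (84672, 80784) (by decide +kernel)
               (CovZ.n2 (84744, 80856) (by decide +kernel)
                (CovZ.n2 (84744, 80784) (by decide +kernel)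
                 (CovZ.n2 (84708, 80820) (by decide +kernel)
                  (CovZ.leaf K2_ok TI_l5258 _)
                  (CovZ.n1 (84708, 80784) (by decide +kernel)
                   (CovZ.leaf K2_ok TI_l5259 _)
                   (CovZ.leaf K2_ok TI_l5260 _)))
                 (CovZ.n1 (84780, 80820) (by decide +kernel)
                  (CovZ.leaf K2_ok TI_l5261 _)
                  (CovZ.leaf K2_ok TI_l5262 _)))
                (CovZ.n1 (84672, 80856) (by decide +kernel)
                 (CovZ.n2 (84708, 80892) (by decide +kernel)
                  (CovZ.leaf K2_ok TI_l5263 _)
                  (CovZ.leaf K2_ok TI_l5264 _))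
                 (CovZ.leaf K2_ok TI_l5265 _)))
               (CovZ.n1 (84744, 80712) (by decide +kernel)
                (CovZ.n2 (84672, 80712) (by decide +kernel)
                 (CovZ.n2 (84708, 80748) (by decide +kernel)
                  (CovZ.n2 (84708, 80712) (by decide +kernel)
                   (CovZ.n2 (84690, 80730) (by decide +kernel)
                    (CovZ.leaf K2_ok TI_l5266 _)
                    (CovZ.leaf K2_ok TI_l5267 _))
                   (CovZ.n1 (84726, 80730) (by decide +kernel)
                    (CovZ.leaf K2_ok TI_l5268 _)
                    (CovZ.leaf K2_ok TI_l5269 _)))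
                  (CovZ.leaf K2_ok TI_l5270 _))
                 (CovZ.n1 (84708, 80676) (by decide +kernel)
                  (CovZ.n2 (84672, 80676) (by decide +kernel)
                   (CovZ.n2 (84690, 80694) (by decide +kernel)
                    (CovZ.leaf K2_ok TI_l5271 _)
                    (CovZ.leaf K2_ok TI_l5272 _))
                   (CovZ.leaf K2_ok TI_l5273 _))
                  (CovZ.n1 (84708, 80712) (by decide +kernel)
                   (CovZ.leaf K2_ok TI_l5274 _)
                   (CovZ.n1 (84690, 80694) (by decide +kernel)
                    (CovZ.leaf K2_ok TI_l5275 _)
                    (CovZ.leaf K2_ok TI_l5276 _)))))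
                (CovZ.n1 (84744, 80784) (by decide +kernel)
                 (CovZ.n2 (84780, 80748) (by decide +kernel)
                  (CovZ.n2 (84744, 80748) (by decide +kernel)
                   (CovZ.leaf K2_ok TI_l5277 _)
                   (CovZ.leaf K2_ok TI_l5278 _))
                  (CovZ.leaf K2_ok TI_l5279 _))
                 (CovZ.n1 (84708, 80748) (by decide +kernel)
                  (CovZ.leaf K2_ok TI_l5280 _)
                  (CovZ.n1 (84744, 80748) (by decide +kernel)
                   (CovZ.leaf K2_ok TI_l5281 _)
                   (CovZ.leaf K2_ok TI_l5282 _))))))
              (CovZ.n1 (84816, 80928) (by decide +kernel)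
               (CovZ.n2 (84888, 80856) (by decide +kernel)
                (CovZ.n2 (84816, 80856) (by decide +kernel)
                 (CovZ.n2 (84852, 80892) (by decide +kernel)
                  (CovZ.leaf K2_ok TI_l5283 _)
                  (CovZ.leaf K2_ok TI_l5284 _))
                 (CovZ.leaf K2_ok TI_l5285 _))
                (CovZ.n1 (84888, 80928) (by decide +kernel)
                 (CovZ.leaf K2_ok TI_l5286 _)
                 (CovZ.n1 (84852, 80892) (by decide +kernel)
                  (CovZ.leaf K2_ok TI_l5287 _)
                  (CovZ.leaf K2_ok TI_l5288 _))))
               (CovZ.n1 (84744, 80856) (by decide +kernel)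
                (CovZ.n2 (84744, 80928) (by decide +kernel)
                 (CovZ.leaf K2_ok TI_l5289 _)
                 (CovZ.n1 (84708, 80892) (by decide +kernel)
                  (CovZ.leaf K2_ok TI_l5290 _)
                  (CovZ.leaf K2_ok TI_l5291 _)))
                (CovZ.n1 (84816, 80856) (by decide +kernel)
                 (CovZ.n2 (84780, 80820) (by decide +kernel)
                  (CovZ.leaf K2_ok TI_l5292 _)
                  (CovZ.leaf K2_ok TI_l5293 _))
                 (CovZ.n1 (84780, 80892) (by decide +kernel)
                  (CovZ.leaf K2_ok TI_l5294 _)
                  (CovZ.leaf K2_ok TI_l5295 _)))))))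

theorem TI_u62 : CovZ TI_M (toL (selN TI_LN 85081301159805152504453452732836220960)) [0, 7, 6, 1] (84096, 80640) (84384, 80928) (84096, 81216) :=
    (CovZ.n2 (84096, 80928) (by decide +kernel)
            (CovZ.n2 (84240, 81072) (by decide +kernel)
             (CovZ.n2 (84240, 80928) (by decide +kernel)
              (CovZ.n2 (84168, 81000) (by decide +kernel)
               (CovZ.subM 324835543981972306345346121990176 (by decide +kernel)
                (CovZ.n2 (84240, 81000) (by decide +kernel)
                 (CovZ.n2 (84204, 80964) (by decide +kernel)
                  (CovZ.n2 (84204, 81000) (by decide +kernel)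
                   (CovZ.leaf K2_ok TI_l5344 _)
                   (CovZ.n1 (84186, 80982) (by decide +kernel)
                    (CovZ.leaf K2_ok TI_l5345 _)
                    (CovZ.leaf K2_ok TI_l5346 _)))
                  (CovZ.n1 (84240, 80964) (by decide +kernel)
                   (CovZ.n2 (84222, 80946) (by decide +kernel)
                    (CovZ.leaf K2_ok TI_l5347 _)
                    (CovZ.leaf K2_ok TI_l5348 _))
                   (CovZ.leaf K2_ok TI_l5349 _)))
                 (CovZ.n1 (84204, 81036) (by decide +kernel)
                  (CovZ.n2 (84240, 81036) (by decide +kernel)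
                   (CovZ.leaf K2_ok TI_l5350 _)
                   (CovZ.leaf K2_ok TI_l5351 _))
                  (CovZ.n1 (84204, 81000) (by decide +kernel)
                   (CovZ.leaf K2_ok TI_l5352 _)
                   (CovZ.leaf K2_ok TI_l5353 _)))))
               (CovZ.n1 (84168, 80928) (by decide +kernel)
                (CovZ.n2 (84132, 80964) (by decide +kernel)
                 (CovZ.n2 (84168, 80964) (by decide +kernel)
                  (CovZ.n2 (84150, 80946) (by decide +kernel)
                   (CovZ.leaf K2_ok TI_l5354 _)
                   (CovZ.leaf K2_ok TI_l5355 _))
                  (CovZ.leaf K2_ok TI_l5356 _))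
                 (CovZ.subM 10709429261051627563124863803719680 (by decide +kernel)
                  (CovZ.n1 (84132, 80928) (by decide +kernel)
                   (CovZ.n2 (84114, 80946) (by decide +kernel)
                    (CovZ.leaf K2_ok TI_l5357 _)
                    (CovZ.n1 (84114, 80928) (by decide +kernel)
                     (CovZ.leaf K2_ok TI_l5358 _)
                     (CovZ.leaf K2_ok TI_l5359 _)))
                   (CovZ.n1 (84150, 80946) (by decide +kernel)
                    (CovZ.leaf K2_ok TI_l5360 _)
                    (CovZ.leaf K2_ok TI_l5361 _)))))
                (CovZ.subM 324835543981972306345346121990176 (by decide +kernel)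
                 (CovZ.n1 (84204, 80964) (by decide +kernel)
                  (CovZ.n2 (84204, 80928) (by decide +kernel)
                   (CovZ.leaf K2_ok TI_l5362 _)
                   (CovZ.n1 (84222, 80946) (by decide +kernel)
                    (CovZ.leaf K2_ok TI_l5363 _)
                    (CovZ.leaf K2_ok TI_l5364 _)))
                  (CovZ.n1 (84168, 80964) (by decide +kernel)
                   (CovZ.leaf K2_ok TI_l5365 _)
                   (CovZ.leaf K2_ok TI_l5366 _))))))
              (CovZ.subM 324835543981972306345346121990176 (by decide +kernel)
               (CovZ.n1 (84312, 81000) (by decide +kernel)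
                (CovZ.n2 (84312, 80928) (by decide +kernel)
                 (CovZ.n2 (84276, 80964) (by decide +kernel)
                  (CovZ.n2 (84312, 80964) (by decide +kernel)
                   (CovZ.leaf K2_ok TI_l5367 _)
                   (CovZ.leaf K2_ok TI_l5368 _))
                  (CovZ.n1 (84276, 80928) (by decide +kernel)
                   (CovZ.leaf K2_ok TI_l5369 _)
                   (CovZ.leaf K2_ok TI_l5370 _)))
                 (CovZ.n1 (84348, 80964) (by decide +kernel)
                  (CovZ.n2 (84348, 80928) (by decide +kernel)
                   (CovZ.leaf K2_ok TI_l5371 _)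
                   (CovZ.leaf K2_ok TI_l5372 _))
                  (CovZ.leaf K2_ok TI_l5373 _)))
                (CovZ.n1 (84240, 81000) (by decide +kernel)
                 (CovZ.n2 (84276, 81036) (by decide +kernel)
                  (CovZ.n2 (84276, 81000) (by decide +kernel)
                   (CovZ.leaf K2_ok TI_l5374 _)
                   (CovZ.leaf K2_ok TI_l5375 _))
                  (CovZ.leaf K2_ok TI_l5376 _))
                 (CovZ.n1 (84276, 80964) (by decide +kernel)
                  (CovZ.n2 (84240, 80964) (by decide +kernel)
                   (CovZ.leaf K2_ok TI_l5377 _)
                   (CovZ.leaf K2_ok TI_l5378 _))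
                  (CovZ.leaf K2_ok TI_l5379 _))))))
             (CovZ.n1 (84096, 81072) (by decide +kernel)
              (CovZ.n2 (84168, 81144) (by decide +kernel)
               (CovZ.n2 (84168, 81072) (by decide +kernel)
                (CovZ.n2 (84132, 81108) (by decide +kernel)
                 (CovZ.n2 (84168, 81108) (by decide +kernel)
                  (CovZ.leaf K2_ok TI_l5380 _)
                  (CovZ.leaf K2_ok TI_l5381 _))
                 (CovZ.n1 (84132, 81072) (by decide +kernel)
                  (CovZ.leaf K2_ok TI_l5382 _)
                  (CovZ.leaf K2_ok TI_l5383 _)))
                (CovZ.n1 (84204, 81108) (by decide +kernel)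
                 (CovZ.n2 (84204, 81072) (by decide +kernel)
                  (CovZ.leaf K3_ok TI_l5384 _)
                  (CovZ.leaf K2_ok TI_l5385 _))
                 (CovZ.leaf K2_ok TI_l5386 _)))
               (CovZ.n1 (84096, 81144) (by decide +kernel)
                (CovZ.n2 (84132, 81180) (by decide +kernel)
                 (CovZ.leaf K2_ok TI_l5387 _)
                 (CovZ.leaf K2_ok TI_l5388 _))
                (CovZ.leaf K2_ok TI_l5389 _)))
              (CovZ.n1 (84168, 81000) (by decide +kernel)
               (CovZ.n2 (84096, 81000) (by decide +kernel)
                (CovZ.n2 (84132, 81036) (by decide +kernel)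
                 (CovZ.n2 (84132, 81000) (by decide +kernel)
                  (CovZ.leaf K2_ok TI_l5390 _)
                  (CovZ.n1 (84150, 81018) (by decide +kernel)
                   (CovZ.leaf K2_ok TI_l5391 _)
                   (CovZ.leaf K2_ok TI_l5392 _)))
                 (CovZ.leaf K2_ok TI_l5393 _))
                (CovZ.n1 (84132, 80964) (by decide +kernel)
                 (CovZ.n2 (84096, 80964) (by decide +kernel)
                  (CovZ.n2 (84114, 80982) (by decide +kernel)
                   (CovZ.leaf K2_ok TI_l5394 _)
                   (CovZ.leaf K2_ok TI_l5395 _))
                  (CovZ.leaf K2_ok TI_l5396 _))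
                 (CovZ.n1 (84132, 81000) (by decide +kernel)
                  (CovZ.leaf K2_ok TI_l5397 _)
                  (CovZ.n1 (84114, 80982) (by decide +kernel)
                   (CovZ.leaf K2_ok TI_l5398 _)
                   (CovZ.leaf K2_ok TI_l5399 _)))))
               (CovZ.n1 (84168, 81072) (by decide +kernel)
                (CovZ.leaf K2_ok TI_l5400 _)
                (CovZ.n1 (84132, 81036) (by decide +kernel)
                 (CovZ.leaf K2_ok TI_l5401 _)
                 (CovZ.n1 (84168, 81036) (by decide +kernel)
                  (CovZ.leaf K2_ok TI_l5402 _)
                  (CovZ.leaf K2_ok TI_l5403 _)))))))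
            (CovZ.n1 (84240, 80784) (by decide +kernel)
             (CovZ.badM (by decide +kernel))
             (CovZ.n1 (84240, 80928) (by decide +kernel)
              (CovZ.subM 324835543981972306345346121990176 (by decide +kernel)
               (CovZ.n2 (84312, 80856) (by decide +kernel)
                (CovZ.n2 (84240, 80856) (by decide +kernel)
                 (CovZ.n2 (84276, 80892) (by decide +kernel)
                  (CovZ.n2 (84276, 80856) (by decide +kernel)
                   (CovZ.n2 (84258, 80874) (by decide +kernel)
                    (CovZ.leaf K2_ok TI_l5404 _)
                    (CovZ.n1 (84258, 80856) (by decide +kernel)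
                     (CovZ.leaf K2_ok TI_l5405 _)
                     (CovZ.n1 (84267, 80865) (by decide +kernel)
                      (CovZ.leaf K2_ok TI_l5406 _)
                      (CovZ.leaf K2_ok TI_l5407 _))))
                   (CovZ.n1 (84294, 80874) (by decide +kernel)
                    (CovZ.n2 (84294, 80856) (by decide +kernel)
                     (CovZ.leaf K2_ok TI_l5408 _)
                     (CovZ.leaf K2_ok TI_l5409 _))
                    (CovZ.leaf K2_ok TI_l5410 _)))
                  (CovZ.n1 (84240, 80892) (by decide +kernel)
                   (CovZ.leaf K2_ok TI_l5411 _)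
                   (CovZ.leaf K2_ok TI_l5412 _)))
                 (CovZ.subM 324518631029683793809839675801600 (by decide +kernel)
                  (CovZ.n1 (84276, 80820) (by decide +kernel)
                   (CovZ.badM (by decide +kernel))
                   (CovZ.n1 (84276, 80856) (by decide +kernel)
                    (CovZ.n2 (84294, 80838) (by decide +kernel)
                     (CovZ.leaf K2_ok TI_l5413 _)
                     (CovZ.leaf K2_ok TI_l5414 _))
                    (CovZ.n1 (84258, 80838) (by decide +kernel)
                     (CovZ.leaf K2_ok TI_l5415 _)
                     (CovZ.n1 (84276, 80838) (by decide +kernel)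
                      (CovZ.badM (by decide +kernel))
                      (CovZ.leaf K2_ok TI_l5416 _)))))))
                (CovZ.n1 (84312, 80928) (by decide +kernel)
                 (CovZ.n2 (84348, 80892) (by decide +kernel)
                  (CovZ.n2 (84312, 80892) (by decide +kernel)
                   (CovZ.leaf K2_ok TI_l5417 _)
                   (CovZ.leaf K2_ok TI_l5418 _))
                  (CovZ.n1 (84348, 80928) (by decide +kernel)
                   (CovZ.leaf K2_ok TI_l5419 _)
                   (CovZ.leaf K2_ok TI_l5420 _)))
                 (CovZ.n1 (84276, 80892) (by decide +kernel)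
                  (CovZ.n2 (84276, 80928) (by decide +kernel)
                   (CovZ.leaf K2_ok TI_l5421 _)
                   (CovZ.leaf K2_ok TI_l5422 _))
                  (CovZ.n1 (84312, 80892) (by decide +kernel)
                   (CovZ.n2 (84294, 80874) (by decide +kernel)
                    (CovZ.leaf K2_ok TI_l5423 _)
                    (CovZ.leaf K2_ok TI_l5424 _))
                   (CovZ.leaf K2_ok TI_l5425 _))))))
              (CovZ.n1 (84168, 80856) (by decide +kernel)
               (CovZ.n2 (84168, 80928) (by decide +kernel)
                (CovZ.subM 324835543981972306345346121990176 (by decide +kernel)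
                 (CovZ.n2 (84204, 80892) (by decide +kernel)
                  (CovZ.n2 (84168, 80892) (by decide +kernel)
                   (CovZ.n2 (84186, 80910) (by decide +kernel)
                    (CovZ.leaf K2_ok TI_l5426 _)
                    (CovZ.leaf K2_ok TI_l5427 _))
                   (CovZ.leaf K2_ok TI_l5428 _))
                  (CovZ.n1 (84204, 80928) (by decide +kernel)
                   (CovZ.leaf K2_ok TI_l5429 _)
                   (CovZ.n1 (84186, 80910) (by decide +kernel)
                    (CovZ.leaf K2_ok TI_l5430 _)
                    (CovZ.leaf K2_ok TI_l5431 _)))))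
                (CovZ.subM 10709112348099339050870832334110720 (by decide +kernel)
                 (CovZ.n1 (84132, 80892) (by decide +kernel)
                  (CovZ.n2 (84132, 80928) (by decide +kernel)
                   (CovZ.n2 (84150, 80910) (by decide +kernel)
                    (CovZ.badM (by decide +kernel))
                    (CovZ.n1 (84150, 80928) (by decide +kernel)
                     (CovZ.leaf K2_ok TI_l5432 _)
                     (CovZ.leaf K2_ok TI_l5433 _)))
                   (CovZ.n1 (84114, 80910) (by decide +kernel)
                    (CovZ.leaf K2_ok TI_l5434 _)
                    (CovZ.badM (by decide +kernel))))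
                  (CovZ.n1 (84168, 80892) (by decide +kernel)
                   (CovZ.badM (by decide +kernel))
                   (CovZ.n1 (84150, 80910) (by decide +kernel)
                    (CovZ.n2 (84168, 80910) (by decide +kernel)
                     (CovZ.badM (by decide +kernel))
                     (CovZ.leaf K2_ok TI_l5435 _))
                    (CovZ.badM (by decide +kernel)))))))
               (CovZ.subM 324835543981972306345346121990176 (by decide +kernel)
                (CovZ.n1 (84240, 80856) (by decide +kernel)
                 (CovZ.badM (by decide +kernel))
                 (CovZ.n1 (84204, 80892) (by decide +kernel)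
                  (CovZ.n2 (84240, 80892) (by decide +kernel)
                   (CovZ.n2 (84222, 80874) (by decide +kernel)
                    (CovZ.leaf K2_ok TI_l5436 _)
                    (CovZ.leaf K2_ok TI_l5437 _))
                   (CovZ.n1 (84222, 80910) (by decide +kernel)
                    (CovZ.leaf K2_ok TI_l5438 _)
                    (CovZ.leaf K2_ok TI_l5439 _)))
                  (CovZ.subM 4398046511104 (by decide +kernel)
                   (CovZ.n1 (84204, 80856) (by decide +kernel)
                    (CovZ.n2 (84186, 80874) (by decide +kernel)
                     (CovZ.leaf K2_ok TI_l5440 _)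
                     (CovZ.badM (by decide +kernel)))
                    (CovZ.n1 (84222, 80874) (by decide +kernel)
                     (CovZ.badM (by decide +kernel))
                     (CovZ.leaf K2_ok TI_l5441 _)))))))))))

theorem TI_u63 : CovZ TI_M (toL (selN TI_LN 85081301159805152504453452732836220960)) [0, 7, 6, 1] (84384, 80928) (84672, 81216) (84096, 81216) :=
    (CovZ.n1 (84384, 81216) (by decide +kernel)
            (CovZ.subM 324835543981972306063871145279520 (by decide +kernel)
             (CovZ.n2 (84528, 81072) (by decide +kernel)
              (CovZ.n2 (84384, 81072) (by decide +kernel)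
               (CovZ.n2 (84456, 81144) (by decide +kernel)
                (CovZ.n2 (84456, 81072) (by decide +kernel)
                 (CovZ.n2 (84420, 81108) (by decide +kernel)
                  (CovZ.leaf K2_ok TI_l5442 _)
                  (CovZ.leaf K2_ok TI_l5443 _))
                 (CovZ.leaf K2_ok TI_l5444 _))
                (CovZ.n1 (84384, 81144) (by decide +kernel)
                 (CovZ.leaf K2_ok TI_l5445 _)
                 (CovZ.leaf K2_ok TI_l5446 _)))
               (CovZ.n1 (84456, 81000) (by decide +kernel)
                (CovZ.n2 (84384, 81000) (by decide +kernel)
                 (CovZ.n2 (84420, 81036) (by decide +kernel)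
                  (CovZ.leaf K2_ok TI_l5447 _)
                  (CovZ.leaf K2_ok TI_l5448 _))
                 (CovZ.leaf K2_ok TI_l5449 _))
                (CovZ.n1 (84456, 81072) (by decide +kernel)
                 (CovZ.leaf K2_ok TI_l5450 _)
                 (CovZ.n1 (84420, 81036) (by decide +kernel)
                  (CovZ.leaf K2_ok TI_l5451 _)
                  (CovZ.leaf K2_ok TI_l5452 _)))))
              (CovZ.n1 (84528, 81216) (by decide +kernel)
               (CovZ.n2 (84600, 81144) (by decide +kernel)
                (CovZ.n2 (84528, 81144) (by decide +kernel)
                 (CovZ.leaf K2_ok TI_l5453 _)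
                 (CovZ.leaf K2_ok TI_l5454 _))
                (CovZ.leaf K2_ok TI_l5455 _))
               (CovZ.n1 (84456, 81144) (by decide +kernel)
                (CovZ.leaf K2_ok TI_l5456 _)
                (CovZ.n1 (84528, 81144) (by decide +kernel)
                 (CovZ.leaf K2_ok TI_l5457 _)
                 (CovZ.leaf K2_ok TI_l5458 _))))))
            (CovZ.n1 (84240, 81072) (by decide +kernel)
             (CovZ.n2 (84240, 81216) (by decide +kernel)
              (CovZ.subM 324835543981972306345346121990176 (by decide +kernel)
               (CovZ.n2 (84312, 81144) (by decide +kernel)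
                (CovZ.n2 (84240, 81144) (by decide +kernel)
                 (CovZ.n2 (84276, 81180) (by decide +kernel)
                  (CovZ.leaf K2_ok TI_l5459 _)
                  (CovZ.leaf K2_ok TI_l5460 _))
                 (CovZ.leaf K2_ok TI_l5461 _))
                (CovZ.n1 (84312, 81216) (by decide +kernel)
                 (CovZ.leaf K2_ok TI_l5462 _)
                 (CovZ.n1 (84276, 81180) (by decide +kernel)
                  (CovZ.leaf K2_ok TI_l5463 _)
                  (CovZ.leaf K2_ok TI_l5464 _)))))
              (CovZ.n1 (84168, 81144) (by decide +kernel)
               (CovZ.n2 (84168, 81216) (by decide +kernel)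
                (CovZ.leaf K2_ok TI_l5465 _)
                (CovZ.n1 (84132, 81180) (by decide +kernel)
                 (CovZ.leaf K2_ok TI_l5466 _)
                 (CovZ.leaf K2_ok TI_l5467 _)))
               (CovZ.subM 324835543981972306345346121990176 (by decide +kernel)
                (CovZ.n1 (84240, 81144) (by decide +kernel)
                 (CovZ.n2 (84204, 81108) (by decide +kernel)
                  (CovZ.leaf K2_ok TI_l5468 _)
                  (CovZ.leaf K2_ok TI_l5469 _))
                 (CovZ.n1 (84204, 81180) (by decide +kernel)
                  (CovZ.leaf K2_ok TI_l5470 _)
                  (CovZ.leaf K2_ok TI_l5471 _))))))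
             (CovZ.subM 324835543981972306345346121990176 (by decide +kernel)
              (CovZ.n1 (84384, 81072) (by decide +kernel)
               (CovZ.n2 (84312, 81000) (by decide +kernel)
                (CovZ.n2 (84312, 81072) (by decide +kernel)
                 (CovZ.leaf K2_ok TI_l5472 _)
                 (CovZ.n1 (84276, 81036) (by decide +kernel)
                  (CovZ.leaf K2_ok TI_l5473 _)
                  (CovZ.leaf K2_ok TI_l5474 _)))
                (CovZ.n1 (84384, 81000) (by decide +kernel)
                 (CovZ.n2 (84348, 80964) (by decide +kernel)
                  (CovZ.leaf K2_ok TI_l5475 _)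
                  (CovZ.leaf K2_ok TI_l5476 _))
                 (CovZ.n1 (84348, 81036) (by decide +kernel)
                  (CovZ.leaf K2_ok TI_l5477 _)
                  (CovZ.n1 (84348, 81000) (by decide +kernel)
                   (CovZ.leaf K2_ok TI_l5478 _)
                   (CovZ.leaf K2_ok TI_l5479 _)))))
               (CovZ.n1 (84312, 81144) (by decide +kernel)
                (CovZ.n2 (84384, 81144) (by decide +kernel)
                 (CovZ.n2 (84348, 81108) (by decide +kernel)
                  (CovZ.leaf K2_ok TI_l5480 _)
                  (CovZ.leaf K2_ok TI_l5481 _))
                 (CovZ.leaf K2_ok TI_l5482 _))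
                (CovZ.n1 (84312, 81072) (by decide +kernel)
                 (CovZ.n2 (84276, 81108) (by decide +kernel)
                  (CovZ.leaf K2_ok TI_l5483 _)
                  (CovZ.leaf K2_ok TI_l5484 _))
                 (CovZ.n1 (84348, 81108) (by decide +kernel)
                  (CovZ.leaf K2_ok TI_l5485 _)
                  (CovZ.leaf K2_ok TI_l5486 _))))))))

theorem TI_u64 : CovZ TI_M (toL (selN TI_LN 252653344896173386238319617235132742157746462431423060119969)) [0, 7, 6, 1] (82944, 81216) (83232, 81216) (83232, 81504) :=
    (CovZ.subM 51786089316940116345331017464797552752319952078651223314560 (by decide +kernel)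
            (CovZ.n2 (83088, 81360) (by decide +kernel)
             (CovZ.n2 (83232, 81360) (by decide +kernel)
              (CovZ.subM 37778936366556789080064 (by decide +kernel)
               (CovZ.n2 (83160, 81288) (by decide +kernel)
                (CovZ.n2 (83160, 81360) (by decide +kernel)
                 (CovZ.n2 (83196, 81324) (by decide +kernel)
                  (CovZ.n2 (83160, 81324) (by decide +kernel)
                   (CovZ.n2 (83178, 81342) (by decide +kernel)
                    (CovZ.badM (by decide +kernel))
                    (CovZ.n1 (83160, 81342) (by decide +kernel)
                     (CovZ.n2 (83169, 81351) (by decide +kernel)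
                      (CovZ.badM (by decide +kernel))
                      (CovZ.leaf K2_ok TI_l5592 _))
                     (CovZ.badM (by decide +kernel))))
                   (CovZ.badM (by decide +kernel)))
                  (CovZ.n1 (83196, 81360) (by decide +kernel)
                   (CovZ.badM (by decide +kernel))
                   (CovZ.n1 (83178, 81342) (by decide +kernel)
                    (CovZ.n2 (83178, 81360) (by decide +kernel)
                     (CovZ.badM (by decide +kernel))
                     (CovZ.n1 (83169, 81351) (by decide +kernel)
                      (CovZ.leaf K2_ok TI_l5593 _)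
                      (CovZ.badM (by decide +kernel))))
                    (CovZ.badM (by decide +kernel)))))
                 (CovZ.n1 (83124, 81324) (by decide +kernel)
                  (CovZ.n2 (83124, 81360) (by decide +kernel)
                   (CovZ.n2 (83142, 81342) (by decide +kernel)
                    (CovZ.badM (by decide +kernel))
                    (CovZ.n1 (83142, 81360) (by decide +kernel)
                     (CovZ.leaf K2_ok TI_l5594 _)
                     (CovZ.badM (by decide +kernel))))
                   (CovZ.badM (by decide +kernel)))
                  (CovZ.n1 (83160, 81324) (by decide +kernel)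
                   (CovZ.badM (by decide +kernel))
                   (CovZ.n1 (83142, 81342) (by decide +kernel)
                    (CovZ.n2 (83160, 81342) (by decide +kernel)
                     (CovZ.badM (by decide +kernel))
                     (CovZ.n1 (83151, 81351) (by decide +kernel)
                      (CovZ.leaf K2_ok TI_l5595 _)
                      (CovZ.badM (by decide +kernel))))
                    (CovZ.badM (by decide +kernel))))))
                (CovZ.badM (by decide +kernel))))
              (CovZ.n1 (83160, 81432) (by decide +kernel)
               (CovZ.n2 (83232, 81432) (by decide +kernel)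
                (CovZ.n2 (83196, 81396) (by decide +kernel)
                 (CovZ.n2 (83196, 81432) (by decide +kernel)
                  (CovZ.n2 (83214, 81414) (by decide +kernel)
                   (CovZ.leaf K2_ok TI_l5596 _)
                   (CovZ.leaf K2_ok TI_l5597 _))
                  (CovZ.n1 (83178, 81414) (by decide +kernel)
                   (CovZ.leaf K2_ok TI_l5598 _)
                   (CovZ.leaf K2_ok TI_l5599 _)))
                 (CovZ.n1 (83232, 81396) (by decide +kernel)
                  (CovZ.n2 (83214, 81378) (by decide +kernel)
                   (CovZ.leaf K2_ok TI_l5600 _)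
                   (CovZ.leaf K2_ok TI_l5601 _))
                  (CovZ.n1 (83214, 81414) (by decide +kernel)
                   (CovZ.n2 (83232, 81414) (by decide +kernel)
                    (CovZ.leaf K2_ok TI_l5602 _)
                    (CovZ.leaf K2_ok TI_l5603 _))
                   (CovZ.n1 (83214, 81396) (by decide +kernel)
                    (CovZ.leaf K2_ok TI_l5604 _)
                    (CovZ.leaf K2_ok TI_l5605 _)))))
                (CovZ.n1 (83196, 81468) (by decide +kernel)
                 (CovZ.n2 (83232, 81468) (by decide +kernel)
                  (CovZ.n2 (83214, 81450) (by decide +kernel)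
                   (CovZ.leaf K2_ok TI_l5606 _)
                   (CovZ.leaf K2_ok TI_l5607 _))
                  (CovZ.leaf K2_ok TI_l5608 _))
                 (CovZ.n1 (83196, 81432) (by decide +kernel)
                  (CovZ.leaf K2_ok TI_l5609 _)
                  (CovZ.n1 (83214, 81450) (by decide +kernel)
                   (CovZ.leaf K2_ok TI_l5610 _)
                   (CovZ.leaf K2_ok TI_l5611 _)))))
               (CovZ.subM 1339957707378242400985427582629445632 (by decide +kernel)
                (CovZ.n1 (83160, 81360) (by decide +kernel)
                 (CovZ.n2 (83124, 81396) (by decide +kernel)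
                  (CovZ.n2 (83160, 81396) (by decide +kernel)
                   (CovZ.n2 (83142, 81378) (by decide +kernel)
                    (CovZ.leaf K2_ok TI_l5612 _)
                    (CovZ.n1 (83160, 81378) (by decide +kernel)
                     (CovZ.leaf K2_ok TI_l5613 _)
                     (CovZ.leaf K2_ok TI_l5614 _)))
                   (CovZ.n1 (83142, 81414) (by decide +kernel)
                    (CovZ.leaf K2_ok TI_l5615 _)
                    (CovZ.n1 (83142, 81396) (by decide +kernel)
                     (CovZ.leaf K2_ok TI_l5616 _)
                     (CovZ.leaf K2_ok TI_l5617 _))))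
                  (CovZ.subM 20282409641430602849854500634624 (by decide +kernel)
                   (CovZ.n1 (83124, 81360) (by decide +kernel)
                    (CovZ.n2 (83106, 81378) (by decide +kernel)
                     (CovZ.n2 (83124, 81378) (by decide +kernel)
                      (CovZ.n2 (83115, 81369) (by decide +kernel)
                       (CovZ.leaf K2_ok TI_l5618 _)
                       (CovZ.leaf K2_ok TI_l5619 _))
                      (CovZ.leaf K2_ok TI_l5620 _))
                     (CovZ.n1 (83106, 81360) (by decide +kernel)
                      (CovZ.n2 (83097, 81369) (by decide +kernel)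
                       (CovZ.leaf K2_ok TI_l5621 _)
                       (CovZ.badM (by decide +kernel)))
                      (CovZ.leaf K2_ok TI_l5622 _)))
                    (CovZ.n1 (83142, 81378) (by decide +kernel)
                     (CovZ.n2 (83142, 81360) (by decide +kernel)
                      (CovZ.leaf K2_ok TI_l5623 _)
                      (CovZ.leaf K2_ok TI_l5624 _))
                     (CovZ.leaf K2_ok TI_l5625 _)))))
                 (CovZ.n1 (83196, 81396) (by decide +kernel)
                  (CovZ.subM 10404876126711085864414446786445312 (by decide +kernel)
                   (CovZ.n2 (83196, 81360) (by decide +kernel)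
                    (CovZ.n2 (83178, 81378) (by decide +kernel)
                     (CovZ.n2 (83196, 81378) (by decide +kernel)
                      (CovZ.n2 (83187, 81369) (by decide +kernel)
                       (CovZ.leaf K2_ok TI_l5626 _)
                       (CovZ.leaf K2_ok TI_l5627 _))
                      (CovZ.leaf K2_ok TI_l5628 _))
                     (CovZ.n1 (83178, 81360) (by decide +kernel)
                      (CovZ.leaf K2_ok TI_l5629 _)
                      (CovZ.leaf K2_ok TI_l5630 _)))
                    (CovZ.n1 (83214, 81378) (by decide +kernel)
                     (CovZ.leaf K2_ok TI_l5631 _)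
                     (CovZ.leaf K2_ok TI_l5632 _))))
                  (CovZ.n1 (83160, 81396) (by decide +kernel)
                   (CovZ.n2 (83178, 81414) (by decide +kernel)
                    (CovZ.n2 (83178, 81396) (by decide +kernel)
                     (CovZ.leaf K2_ok TI_l5633 _)
                     (CovZ.leaf K2_ok TI_l5634 _))
                    (CovZ.leaf K2_ok TI_l5635 _))
                   (CovZ.leaf K2_ok TI_l5636 _)))))))
             (CovZ.badM (by decide +kernel))))

theorem TI_u65 : CovZ TI_M (toL (selN TI_LN 252653344896173386238319617235132742157746462431423060119969)) [0, 7, 6, 1] (83232, 81216) (83520, 81216) (83232, 81504) :=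
    (CovZ.subM 51786089316940116345331017464718324589805759798617357553696 (by decide +kernel)
            (CovZ.n1 (83376, 81360) (by decide +kernel)
             (CovZ.n2 (83376, 81216) (by decide +kernel)
              (CovZ.n2 (83304, 81288) (by decide +kernel)
               (CovZ.n2 (83376, 81288) (by decide +kernel)
                (CovZ.subM 43556144263954337975909475736874137944064 (by decide +kernel)
                 (CovZ.n2 (83340, 81252) (by decide +kernel)
                  (CovZ.n2 (83340, 81288) (by decide +kernel)
                   (CovZ.leaf K2_ok TI_l5637 _)
                   (CovZ.n1 (83322, 81270) (by decide +kernel)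
                    (CovZ.n2 (83322, 81288) (by decide +kernel)
                     (CovZ.leaf K2_ok TI_l5638 _)
                     (CovZ.badM (by decide +kernel)))
                    (CovZ.n1 (83340, 81270) (by decide +kernel)
                     (CovZ.badM (by decide +kernel))
                     (CovZ.leaf K2_ok TI_l5639 _))))
                  (CovZ.n1 (83376, 81252) (by decide +kernel)
                   (CovZ.n2 (83358, 81234) (by decide +kernel)
                    (CovZ.n2 (83358, 81252) (by decide +kernel)
                     (CovZ.leaf K2_ok TI_l5640 _)
                     (CovZ.badM (by decide +kernel)))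
                    (CovZ.n1 (83376, 81234) (by decide +kernel)
                     (CovZ.badM (by decide +kernel))
                     (CovZ.leaf K2_ok TI_l5641 _)))
                   (CovZ.n1 (83358, 81270) (by decide +kernel)
                    (CovZ.n2 (83376, 81270) (by decide +kernel)
                     (CovZ.leaf K2_ok TI_l5642 _)
                     (CovZ.leaf K2_ok TI_l5643 _))
                    (CovZ.n1 (83358, 81252) (by decide +kernel)
                     (CovZ.leaf K2_ok TI_l5644 _)
                     (CovZ.leaf K2_ok TI_l5645 _))))))
                (CovZ.n1 (83340, 81324) (by decide +kernel)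
                 (CovZ.n2 (83376, 81324) (by decide +kernel)
                  (CovZ.n2 (83358, 81306) (by decide +kernel)
                   (CovZ.leaf K2_ok TI_l5646 _)
                   (CovZ.leaf K2_ok TI_l5647 _))
                  (CovZ.leaf K2_ok TI_l5648 _))
                 (CovZ.subM 43556154648548055045564732797866796384288 (by decide +kernel)
                  (CovZ.n1 (83340, 81288) (by decide +kernel)
                   (CovZ.n2 (83322, 81306) (by decide +kernel)
                    (CovZ.n2 (83340, 81306) (by decide +kernel)
                     (CovZ.leaf K2_ok TI_l5649 _)
                     (CovZ.leaf K2_ok TI_l5650 _))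
                    (CovZ.n1 (83322, 81288) (by decide +kernel)
                     (CovZ.leaf K2_ok TI_l5651 _)
                     (CovZ.leaf K2_ok TI_l5652 _)))
                   (CovZ.n1 (83358, 81306) (by decide +kernel)
                    (CovZ.n2 (83358, 81288) (by decide +kernel)
                     (CovZ.leaf K2_ok TI_l5653 _)
                     (CovZ.leaf K2_ok TI_l5654 _))
                    (CovZ.leaf K2_ok TI_l5655 _))))))
               (CovZ.badM (by decide +kernel)))
              (CovZ.subM 43557484201379383943410015003469324357664 (by decide +kernel)
               (CovZ.n1 (83448, 81288) (by decide +kernel)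
                (CovZ.n2 (83448, 81216) (by decide +kernel)
                 (CovZ.n2 (83412, 81252) (by decide +kernel)
                  (CovZ.n2 (83448, 81252) (by decide +kernel)
                   (CovZ.subM 43556144263954337975909475736874137944064 (by decide +kernel)
                    (CovZ.n2 (83430, 81234) (by decide +kernel)
                     (CovZ.leaf K2_ok TI_l5656 _)
                     (CovZ.n1 (83448, 81234) (by decide +kernel)
                      (CovZ.n2 (83439, 81225) (by decide +kernel)
                       (CovZ.leaf K2_ok TI_l5657 _)
                       (CovZ.n1 (83448, 81225) (by decide +kernel)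
                        (CovZ.leaf K2_ok TI_l5658 _)
                        (CovZ.leaf K2_ok TI_l5659 _)))
                      (CovZ.leaf K2_ok TI_l5660 _))))
                   (CovZ.n1 (83430, 81270) (by decide +kernel)
                    (CovZ.leaf K2_ok TI_l5661 _)
                    (CovZ.leaf K2_ok TI_l5662 _)))
                  (CovZ.subM 43556144263954337975909475736874137944064 (by decide +kernel)
                   (CovZ.n1 (83412, 81216) (by decide +kernel)
                    (CovZ.n2 (83394, 81234) (by decide +kernel)
                     (CovZ.n2 (83412, 81234) (by decide +kernel)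
                      (CovZ.badM (by decide +kernel))
                      (CovZ.leaf K2_ok TI_l5663 _))
                     (CovZ.badM (by decide +kernel)))
                    (CovZ.n1 (83430, 81234) (by decide +kernel)
                     (CovZ.n2 (83430, 81216) (by decide +kernel)
                      (CovZ.leaf K2_ok TI_l5664 _)
                      (CovZ.n1 (83439, 81225) (by decide +kernel)
                       (CovZ.leaf K2_ok TI_l5665 _)
                       (CovZ.leaf K2_ok TI_l5666 _)))
                     (CovZ.n1 (83412, 81234) (by decide +kernel)
                      (CovZ.leaf K2_ok TI_l5667 _)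
                      (CovZ.leaf K2_ok TI_l5668 _))))))
                 (CovZ.n1 (83484, 81252) (by decide +kernel)
                  (CovZ.subM 43556154648548055026675266866388215529472 (by decide +kernel)
                   (CovZ.n2 (83484, 81216) (by decide +kernel)
                    (CovZ.n2 (83466, 81234) (by decide +kernel)
                     (CovZ.n2 (83484, 81234) (by decide +kernel)
                      (CovZ.leaf K2_ok TI_l5669 _)
                      (CovZ.leaf K2_ok TI_l5670 _))
                     (CovZ.n1 (83466, 81216) (by decide +kernel)
                      (CovZ.leaf K2_ok TI_l5671 _)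
                      (CovZ.leaf K2_ok TI_l5672 _)))
                    (CovZ.n1 (83502, 81234) (by decide +kernel)
                     (CovZ.leaf K2_ok TI_l5673 _)
                     (CovZ.leaf K2_ok TI_l5674 _))))
                  (CovZ.n1 (83448, 81252) (by decide +kernel)
                   (CovZ.n2 (83466, 81270) (by decide +kernel)
                    (CovZ.leaf K2_ok TI_l5675 _)
                    (CovZ.leaf K2_ok TI_l5676 _))
                   (CovZ.leaf K2_ok TI_l5677 _))))
                (CovZ.n1 (83376, 81288) (by decide +kernel)
                 (CovZ.n2 (83412, 81324) (by decide +kernel)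
                  (CovZ.n2 (83412, 81288) (by decide +kernel)
                   (CovZ.n2 (83394, 81306) (by decide +kernel)
                    (CovZ.leaf K2_ok TI_l5678 _)
                    (CovZ.leaf K2_ok TI_l5679 _))
                   (CovZ.n1 (83430, 81306) (by decide +kernel)
                    (CovZ.leaf K2_ok TI_l5680 _)
                    (CovZ.leaf K2_ok TI_l5681 _)))
                  (CovZ.n1 (83376, 81324) (by decide +kernel)
                   (CovZ.n2 (83394, 81342) (by decide +kernel)
                    (CovZ.leaf K2_ok TI_l5682 _)
                    (CovZ.leaf K2_ok TI_l5683 _))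
                   (CovZ.leaf K2_ok TI_l5684 _)))
                 (CovZ.n1 (83412, 81252) (by decide +kernel)
                  (CovZ.subM 43556144263954337975909475736874137944064 (by decide +kernel)
                   (CovZ.n2 (83376, 81252) (by decide +kernel)
                    (CovZ.n2 (83394, 81270) (by decide +kernel)
                     (CovZ.n2 (83394, 81252) (by decide +kernel)
                      (CovZ.leaf K2_ok TI_l5685 _)
                      (CovZ.leaf K2_ok TI_l5686 _))
                     (CovZ.n1 (83376, 81270) (by decide +kernel)
                      (CovZ.leaf K2_ok TI_l5687 _)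
                      (CovZ.leaf K2_ok TI_l5688 _)))
                    (CovZ.n1 (83394, 81234) (by decide +kernel)
                     (CovZ.n2 (83376, 81234) (by decide +kernel)
                      (CovZ.n2 (83385, 81243) (by decide +kernel)
                       (CovZ.leaf K2_ok TI_l5689 _)
                       (CovZ.leaf K2_ok TI_l5690 _))
                      (CovZ.badM (by decide +kernel)))
                     (CovZ.n1 (83394, 81252) (by decide +kernel)
                      (CovZ.leaf K2_ok TI_l5691 _)
                      (CovZ.leaf K2_ok TI_l5692 _)))))
                  (CovZ.n1 (83412, 81288) (by decide +kernel)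
                   (CovZ.leaf K2_ok TI_l5693 _)
                   (CovZ.subM 43556154648548055045564732797866796384256 (by decide +kernel)
                    (CovZ.n1 (83394, 81270) (by decide +kernel)
                     (CovZ.leaf K2_ok TI_l5694 _)
                     (CovZ.n1 (83412, 81270) (by decide +kernel)
                      (CovZ.leaf K2_ok TI_l5695 _)
                      (CovZ.n1 (83403, 81279) (by decide +kernel)
                       (CovZ.leaf K2_ok TI_l5696 _)
                       (CovZ.leaf K2_ok TI_l5697 _)))))))))))
             (CovZ.n1 (83232, 81360) (by decide +kernel)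
              (CovZ.n2 (83304, 81432) (by decide +kernel)
               (CovZ.n2 (83304, 81360) (by decide +kernel)
                (CovZ.n2 (83268, 81396) (by decide +kernel)
                 (CovZ.n2 (83304, 81396) (by decide +kernel)
                  (CovZ.leaf K2_ok TI_l5698 _)
                  (CovZ.leaf K2_ok TI_l5699 _))
                 (CovZ.subM 43557482923587578918077073283018054041600 (by decide +kernel)
                  (CovZ.n1 (83268, 81360) (by decide +kernel)
                   (CovZ.n2 (83250, 81378) (by decide +kernel)
                    (CovZ.leaf K2_ok TI_l5700 _)
                    (CovZ.leaf K2_ok TI_l5701 _))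
                   (CovZ.n1 (83286, 81378) (by decide +kernel)
                    (CovZ.leaf K2_ok TI_l5702 _)
                    (CovZ.leaf K2_ok TI_l5703 _)))))
                (CovZ.n1 (83340, 81396) (by decide +kernel)
                 (CovZ.n2 (83340, 81360) (by decide +kernel)
                  (CovZ.leaf K2_ok TI_l5704 _)
                  (CovZ.leaf K2_ok TI_l5705 _))
                 (CovZ.n1 (83304, 81396) (by decide +kernel)
                  (CovZ.leaf K2_ok TI_l5706 _)
                  (CovZ.leaf K2_ok TI_l5707 _))))
               (CovZ.n1 (83232, 81432) (by decide +kernel)
                (CovZ.n2 (83268, 81468) (by decide +kernel)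
                 (CovZ.n2 (83268, 81432) (by decide +kernel)
                  (CovZ.leaf K2_ok TI_l5708 _)
                  (CovZ.n1 (83286, 81450) (by decide +kernel)
                   (CovZ.leaf K2_ok TI_l5709 _)
                   (CovZ.leaf K2_ok TI_l5710 _)))
                 (CovZ.leaf K2_ok TI_l5711 _))
                (CovZ.n1 (83268, 81396) (by decide +kernel)
                 (CovZ.n2 (83232, 81396) (by decide +kernel)
                  (CovZ.n2 (83250, 81414) (by decide +kernel)
                   (CovZ.leaf K2_ok TI_l5712 _)
                   (CovZ.leaf K2_ok TI_l5713 _))
                  (CovZ.leaf K2_ok TI_l5714 _))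
                 (CovZ.n1 (83268, 81432) (by decide +kernel)
                  (CovZ.leaf K2_ok TI_l5715 _)
                  (CovZ.n1 (83250, 81414) (by decide +kernel)
                   (CovZ.leaf K2_ok TI_l5716 _)
                   (CovZ.leaf K2_ok TI_l5717 _))))))
              (CovZ.n1 (83304, 81288) (by decide +kernel)
               (CovZ.badM (by decide +kernel))
               (CovZ.n1 (83304, 81360) (by decide +kernel)
                (CovZ.n2 (83340, 81324) (by decide +kernel)
                 (CovZ.subM 43557484201379383948132309147269820579872 (by decide +kernel)
                  (CovZ.n2 (83304, 81324) (by decide +kernel)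
                   (CovZ.n2 (83322, 81342) (by decide +kernel)
                    (CovZ.leaf K2_ok TI_l5718 _)
                    (CovZ.leaf K2_ok TI_l5719 _))
                   (CovZ.n1 (83322, 81306) (by decide +kernel)
                    (CovZ.leaf K2_ok TI_l5720 _)
                    (CovZ.leaf K2_ok TI_l5721 _))))
                 (CovZ.n1 (83340, 81360) (by decide +kernel)
                  (CovZ.leaf K2_ok TI_l5722 _)
                  (CovZ.n1 (83322, 81342) (by decide +kernel)
                   (CovZ.leaf K2_ok TI_l5723 _)
                   (CovZ.leaf K2_ok TI_l5724 _))))
                (CovZ.subM 43557482903305169314425402014645738274816 (by decide +kernel)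
                 (CovZ.n1 (83268, 81324) (by decide +kernel)
                  (CovZ.n2 (83268, 81360) (by decide +kernel)
                   (CovZ.leaf K2_ok TI_l5725 _)
                   (CovZ.n1 (83250, 81342) (by decide +kernel)
                    (CovZ.leaf K2_ok TI_l5726 _)
                    (CovZ.leaf K2_ok TI_l5727 _)))
                  (CovZ.n1 (83304, 81324) (by decide +kernel)
                   (CovZ.n2 (83286, 81306) (by decide +kernel)
                    (CovZ.leaf K2_ok TI_l5728 _)
                    (CovZ.n1 (83304, 81306) (by decide +kernel)
                     (CovZ.badM (by decide +kernel))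
                     (CovZ.leaf K2_ok TI_l5729 _)))
                   (CovZ.n1 (83286, 81342) (by decide +kernel)
                    (CovZ.leaf K2_ok TI_l5730 _)
                    (CovZ.n1 (83286, 81324) (by decide +kernel)
                     (CovZ.leaf K2_ok TI_l5731 _)
                     (CovZ.leaf K2_ok TI_l5732 _)))))))))))

theorem TI_u66 : CovZ TI_M (toL (selN TI_LN 252653344896173386238319617235132742157746462431423060119969)) [0, 7, 6, 1] (84096, 81792) (83520, 81792) (83520, 81216) :=
    (CovZ.subM 43643219427390268791536928625470763831584 (by decide +kernel)
          (CovZ.n2 (83808, 81504) (by decide +kernel)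
           (CovZ.n2 (83520, 81504) (by decide +kernel)
            (CovZ.n2 (83664, 81648) (by decide +kernel)
             (CovZ.n2 (83664, 81504) (by decide +kernel)
              (CovZ.n2 (83592, 81576) (by decide +kernel)
               (CovZ.n2 (83664, 81576) (by decide +kernel)
                (CovZ.leaf K2_ok TI_l5831 _)
                (CovZ.leaf K2_ok TI_l5832 _))
               (CovZ.n1 (83592, 81504) (by decide +kernel)
                (CovZ.n2 (83556, 81540) (by decide +kernel)
                 (CovZ.leaf K2_ok TI_l5833 _)
                 (CovZ.leaf K2_ok TI_l5834 _))
                (CovZ.leaf K3_ok TI_l5835 _)))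
              (CovZ.n1 (83736, 81576) (by decide +kernel)
               (CovZ.n2 (83736, 81504) (by decide +kernel)
                (CovZ.leaf K2_ok TI_l5836 _)
                (CovZ.leaf K2_ok TI_l5837 _))
               (CovZ.n1 (83664, 81576) (by decide +kernel)
                (CovZ.leaf K2_ok TI_l5838 _)
                (CovZ.leaf K2_ok TI_l5839 _))))
             (CovZ.n1 (83520, 81648) (by decide +kernel)
              (CovZ.n2 (83592, 81720) (by decide +kernel)
               (CovZ.n2 (83592, 81648) (by decide +kernel)
                (CovZ.leaf K2_ok TI_l5840 _)
                (CovZ.leaf K2_ok TI_l5841 _))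
               (CovZ.leaf K2_ok TI_l5842 _))
              (CovZ.n1 (83592, 81576) (by decide +kernel)
               (CovZ.n2 (83520, 81576) (by decide +kernel)
                (CovZ.leaf K2_ok TI_l5843 _)
                (CovZ.leaf K2_ok TI_l5844 _))
               (CovZ.n1 (83592, 81648) (by decide +kernel)
                (CovZ.leaf K2_ok TI_l5845 _)
                (CovZ.leaf K2_ok TI_l5846 _)))))
            (CovZ.n1 (83664, 81360) (by decide +kernel)
             (CovZ.n2 (83520, 81360) (by decide +kernel)
              (CovZ.n2 (83592, 81432) (by decide +kernel)
               (CovZ.n2 (83592, 81360) (by decide +kernel)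
                (CovZ.n2 (83556, 81396) (by decide +kernel)
                 (CovZ.leaf K2_ok TI_l5847 _)
                 (CovZ.leaf K2_ok TI_l5848 _))
                (CovZ.n1 (83628, 81396) (by decide +kernel)
                 (CovZ.leaf K2_ok TI_l5849 _)
                 (CovZ.leaf K2_ok TI_l5850 _)))
               (CovZ.n1 (83520, 81432) (by decide +kernel)
                (CovZ.n2 (83556, 81468) (by decide +kernel)
                 (CovZ.leaf K2_ok TI_l5851 _)
                 (CovZ.leaf K2_ok TI_l5852 _))
                (CovZ.leaf K2_ok TI_l5853 _)))
              (CovZ.n1 (83592, 81288) (by decide +kernel)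
               (CovZ.n2 (83520, 81288) (by decide +kernel)
                (CovZ.n2 (83556, 81324) (by decide +kernel)
                 (CovZ.n2 (83556, 81288) (by decide +kernel)
                  (CovZ.leaf K2_ok TI_l5854 _)
                  (CovZ.leaf K2_ok TI_l5855 _))
                 (CovZ.n1 (83520, 81324) (by decide +kernel)
                  (CovZ.leaf K2_ok TI_l5856 _)
                  (CovZ.leaf K2_ok TI_l5857 _)))
                (CovZ.n1 (83556, 81252) (by decide +kernel)
                 (CovZ.n2 (83520, 81252) (by decide +kernel)
                  (CovZ.leaf K2_ok TI_l5858 _)
                  (CovZ.leaf K2_ok TI_l5859 _))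
                 (CovZ.leaf K2_ok TI_l5860 _)))
               (CovZ.n1 (83592, 81360) (by decide +kernel)
                (CovZ.leaf K2_ok TI_l5861 _)
                (CovZ.n1 (83556, 81324) (by decide +kernel)
                 (CovZ.leaf K2_ok TI_l5862 _)
                 (CovZ.n1 (83592, 81324) (by decide +kernel)
                  (CovZ.leaf K2_ok TI_l5863 _)
                  (CovZ.leaf K2_ok TI_l5864 _))))))
             (CovZ.n1 (83664, 81504) (by decide +kernel)
              (CovZ.n2 (83736, 81432) (by decide +kernel)
               (CovZ.n2 (83664, 81432) (by decide +kernel)
                (CovZ.n2 (83700, 81468) (by decide +kernel)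
                 (CovZ.leaf K2_ok TI_l5865 _)
                 (CovZ.leaf K2_ok TI_l5866 _))
                (CovZ.leaf K2_ok TI_l5867 _))
               (CovZ.n1 (83736, 81504) (by decide +kernel)
                (CovZ.leaf K2_ok TI_l5868 _)
                (CovZ.n1 (83700, 81468) (by decide +kernel)
                 (CovZ.leaf K2_ok TI_l5869 _)
                 (CovZ.leaf K2_ok TI_l5870 _))))
              (CovZ.n1 (83592, 81432) (by decide +kernel)
               (CovZ.n2 (83592, 81504) (by decide +kernel)
                (CovZ.leaf K2_ok TI_l5871 _)
                (CovZ.n1 (83556, 81468) (by decide +kernel)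
                 (CovZ.leaf K2_ok TI_l5872 _)
                 (CovZ.leaf K2_ok TI_l5873 _)))
               (CovZ.n1 (83664, 81432) (by decide +kernel)
                (CovZ.n2 (83628, 81396) (by decide +kernel)
                 (CovZ.leaf K2_ok TI_l5874 _)
                 (CovZ.leaf K2_ok TI_l5875 _))
                (CovZ.leaf K2_ok TI_l5876 _))))))
           (CovZ.n1 (83808, 81792) (by decide +kernel)
            (CovZ.n2 (83952, 81648) (by decide +kernel)
             (CovZ.n2 (83808, 81648) (by decide +kernel)
              (CovZ.n2 (83880, 81720) (by decide +kernel)
               (CovZ.n2 (83880, 81648) (by decide +kernel)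
                (CovZ.leaf K2_ok TI_l5877 _)
                (CovZ.leaf K2_ok TI_l5878 _))
               (CovZ.leaf K2_ok TI_l5879 _))
              (CovZ.leaf K2_ok TI_l5880 _))
             (CovZ.n1 (83952, 81792) (by decide +kernel)
              (CovZ.leaf K2_ok TI_l5881 _)
              (CovZ.n1 (83880, 81720) (by decide +kernel)
               (CovZ.leaf K2_ok TI_l5882 _)
               (CovZ.leaf K2_ok TI_l5883 _))))
            (CovZ.n1 (83664, 81648) (by decide +kernel)
             (CovZ.n2 (83664, 81792) (by decide +kernel)
              (CovZ.leaf K2_ok TI_l5884 _)
              (CovZ.n1 (83592, 81720) (by decide +kernel)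
               (CovZ.leaf K2_ok TI_l5885 _)
               (CovZ.n1 (83664, 81720) (by decide +kernel)
                (CovZ.leaf K2_ok TI_l5886 _)
                (CovZ.leaf K2_ok TI_l5887 _))))
             (CovZ.n1 (83808, 81648) (by decide +kernel)
              (CovZ.n2 (83736, 81576) (by decide +kernel)
               (CovZ.leaf K2_ok TI_l5888 _)
               (CovZ.n1 (83808, 81576) (by decide +kernel)
                (CovZ.leaf K2_ok TI_l5889 _)
                (CovZ.leaf K2_ok TI_l5890 _)))
              (CovZ.n1 (83736, 81720) (by decide +kernel)
               (CovZ.leaf K2_ok TI_l5891 _)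
               (CovZ.n1 (83736, 81648) (by decide +kernel)
                (CovZ.leaf K2_ok TI_l5892 _)
                (CovZ.leaf K2_ok TI_l5893 _))))))))

theorem TI_u67 : CovZ TI_M (toL (selN TI_LN 252653344896173386238319617235132742157746462431423060119969)) [0, 7, 6, 1] (83520, 81792) (82944, 81792) (83520, 81216) :=
    (CovZ.n1 (83232, 81504) (by decide +kernel)
          (CovZ.n2 (83232, 81792) (by decide +kernel)
           (CovZ.n2 (83376, 81648) (by decide +kernel)
            (CovZ.n2 (83232, 81648) (by decide +kernel)
             (CovZ.n2 (83304, 81720) (by decide +kernel)
              (CovZ.n2 (83304, 81648) (by decide +kernel)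
               (CovZ.leaf K2_ok TI_l5894 _)
               (CovZ.leaf K2_ok TI_l5895 _))
              (CovZ.n1 (83232, 81720) (by decide +kernel)
               (CovZ.leaf K2_ok TI_l5896 _)
               (CovZ.leaf K2_ok TI_l5897 _)))
             (CovZ.n1 (83304, 81576) (by decide +kernel)
              (CovZ.n2 (83232, 81576) (by decide +kernel)
               (CovZ.n2 (83268, 81612) (by decide +kernel)
                (CovZ.leaf K2_ok TI_l5898 _)
                (CovZ.leaf K2_ok TI_l5899 _))
               (CovZ.leaf K2_ok TI_l5900 _))
              (CovZ.n1 (83304, 81648) (by decide +kernel)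
               (CovZ.leaf K2_ok TI_l5901 _)
               (CovZ.n1 (83268, 81612) (by decide +kernel)
                (CovZ.leaf K2_ok TI_l5902 _)
                (CovZ.leaf K2_ok TI_l5903 _)))))
            (CovZ.n1 (83376, 81792) (by decide +kernel)
             (CovZ.n2 (83448, 81720) (by decide +kernel)
              (CovZ.n2 (83376, 81720) (by decide +kernel)
               (CovZ.leaf K2_ok TI_l5904 _)
               (CovZ.leaf K2_ok TI_l5905 _))
              (CovZ.leaf K2_ok TI_l5906 _))
             (CovZ.n1 (83304, 81720) (by decide +kernel)
              (CovZ.n2 (83304, 81792) (by decide +kernel)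
               (CovZ.leaf K2_ok TI_l5907 _)
               (CovZ.leaf K2_ok TI_l5908 _))
              (CovZ.n1 (83376, 81720) (by decide +kernel)
               (CovZ.leaf K2_ok TI_l5909 _)
               (CovZ.leaf K2_ok TI_l5910 _)))))
           (CovZ.n1 (83088, 81648) (by decide +kernel)
            (CovZ.n2 (83088, 81792) (by decide +kernel)
             (CovZ.n2 (83160, 81720) (by decide +kernel)
              (CovZ.n2 (83088, 81720) (by decide +kernel)
               (CovZ.leaf K2_ok TI_l5911 _)
               (CovZ.leaf K2_ok TI_l5912 _))
              (CovZ.n1 (83160, 81792) (by decide +kernel)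
               (CovZ.leaf K2_ok TI_l5913 _)
               (CovZ.n1 (83124, 81756) (by decide +kernel)
                (CovZ.leaf K2_ok TI_l5914 _)
                (CovZ.leaf K2_ok TI_l5915 _))))
             (CovZ.n1 (83016, 81720) (by decide +kernel)
              (CovZ.n2 (83016, 81792) (by decide +kernel)
               (CovZ.leaf K2_ok TI_l5916 _)
               (CovZ.n1 (82980, 81756) (by decide +kernel)
                (CovZ.leaf K2_ok TI_l5917 _)
                (CovZ.leaf K2_ok TI_l5918 _)))
              (CovZ.n1 (83088, 81720) (by decide +kernel)
               (CovZ.n2 (83052, 81684) (by decide +kernel)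
                (CovZ.leaf K2_ok TI_l5919 _)
                (CovZ.leaf K2_ok TI_l5920 _))
               (CovZ.n1 (83052, 81756) (by decide +kernel)
                (CovZ.leaf K2_ok TI_l5921 _)
                (CovZ.leaf K2_ok TI_l5922 _)))))
            (CovZ.n1 (83232, 81648) (by decide +kernel)
             (CovZ.n2 (83160, 81576) (by decide +kernel)
              (CovZ.n2 (83160, 81648) (by decide +kernel)
               (CovZ.leaf K2_ok TI_l5923 _)
               (CovZ.n1 (83124, 81612) (by decide +kernel)
                (CovZ.leaf K2_ok TI_l5924 _)
                (CovZ.leaf K2_ok TI_l5925 _)))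
              (CovZ.n1 (83232, 81576) (by decide +kernel)
               (CovZ.n2 (83196, 81540) (by decide +kernel)
                (CovZ.leaf K2_ok TI_l5926 _)
                (CovZ.leaf K2_ok TI_l5927 _))
               (CovZ.n1 (83196, 81612) (by decide +kernel)
                (CovZ.leaf K2_ok TI_l5928 _)
                (CovZ.leaf K2_ok TI_l5929 _))))
             (CovZ.n1 (83160, 81720) (by decide +kernel)
              (CovZ.n2 (83232, 81720) (by decide +kernel)
               (CovZ.n2 (83196, 81684) (by decide +kernel)
                (CovZ.leaf K2_ok TI_l5930 _)
                (CovZ.leaf K2_ok TI_l5931 _))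
               (CovZ.leaf K2_ok TI_l5932 _))
              (CovZ.n1 (83160, 81648) (by decide +kernel)
               (CovZ.n2 (83124, 81684) (by decide +kernel)
                (CovZ.leaf K2_ok TI_l5933 _)
                (CovZ.leaf K2_ok TI_l5934 _))
               (CovZ.n1 (83196, 81684) (by decide +kernel)
                (CovZ.leaf K2_ok TI_l5935 _)
                (CovZ.leaf K2_ok TI_l5936 _)))))))
          (CovZ.n1 (83520, 81504) (by decide +kernel)
           (CovZ.subM 51786089316940116345331017464718634074815581214054826512416 (by decide +kernel)
            (CovZ.n2 (83376, 81360) (by decide +kernel)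
             (CovZ.n2 (83376, 81504) (by decide +kernel)
              (CovZ.n2 (83448, 81432) (by decide +kernel)
               (CovZ.n2 (83376, 81432) (by decide +kernel)
                (CovZ.n2 (83412, 81468) (by decide +kernel)
                 (CovZ.n2 (83412, 81432) (by decide +kernel)
                  (CovZ.leaf K2_ok TI_l5937 _)
                  (CovZ.leaf K2_ok TI_l5938 _))
                 (CovZ.leaf K2_ok TI_l5939 _))
                (CovZ.leaf K2_ok TI_l5940 _))
               (CovZ.n1 (83448, 81504) (by decide +kernel)
                (CovZ.leaf K2_ok TI_l5941 _)
                (CovZ.n1 (83412, 81468) (by decide +kernel)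
                 (CovZ.leaf K2_ok TI_l5942 _)
                 (CovZ.leaf K2_ok TI_l5943 _))))
              (CovZ.n1 (83304, 81432) (by decide +kernel)
               (CovZ.n2 (83304, 81504) (by decide +kernel)
                (CovZ.leaf K2_ok TI_l5944 _)
                (CovZ.n1 (83268, 81468) (by decide +kernel)
                 (CovZ.leaf K2_ok TI_l5945 _)
                 (CovZ.n1 (83304, 81468) (by decide +kernel)
                  (CovZ.leaf K2_ok TI_l5946 _)
                  (CovZ.leaf K2_ok TI_l5947 _))))
               (CovZ.n1 (83376, 81432) (by decide +kernel)
                (CovZ.n2 (83340, 81396) (by decide +kernel)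
                 (CovZ.leaf K2_ok TI_l5948 _)
                 (CovZ.n1 (83376, 81396) (by decide +kernel)
                  (CovZ.leaf K2_ok TI_l5949 _)
                  (CovZ.leaf K2_ok TI_l5950 _)))
                (CovZ.n1 (83340, 81468) (by decide +kernel)
                 (CovZ.leaf K2_ok TI_l5951 _)
                 (CovZ.n1 (83340, 81432) (by decide +kernel)
                  (CovZ.leaf K2_ok TI_l5952 _)
                  (CovZ.leaf K2_ok TI_l5953 _))))))
             (CovZ.n1 (83520, 81360) (by decide +kernel)
              (CovZ.n2 (83448, 81288) (by decide +kernel)
               (CovZ.n2 (83448, 81360) (by decide +kernel)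
                (CovZ.n2 (83484, 81324) (by decide +kernel)
                 (CovZ.n2 (83448, 81324) (by decide +kernel)
                  (CovZ.n2 (83466, 81342) (by decide +kernel)
                   (CovZ.leaf K2_ok TI_l5954 _)
                   (CovZ.leaf K2_ok TI_l5955 _))
                  (CovZ.leaf K3_ok TI_l5956 _))
                 (CovZ.n1 (83484, 81360) (by decide +kernel)
                  (CovZ.leaf K2_ok TI_l5957 _)
                  (CovZ.leaf K2_ok TI_l5958 _)))
                (CovZ.n1 (83412, 81324) (by decide +kernel)
                 (CovZ.n2 (83412, 81360) (by decide +kernel)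
                  (CovZ.leaf K2_ok TI_l5959 _)
                  (CovZ.n1 (83394, 81342) (by decide +kernel)
                   (CovZ.leaf K2_ok TI_l5960 _)
                   (CovZ.leaf K2_ok TI_l5961 _)))
                 (CovZ.n1 (83448, 81324) (by decide +kernel)
                  (CovZ.n2 (83430, 81306) (by decide +kernel)
                   (CovZ.leaf K2_ok TI_l5962 _)
                   (CovZ.leaf K2_ok TI_l5963 _))
                  (CovZ.leaf K2_ok TI_l5964 _))))
               (CovZ.n1 (83520, 81288) (by decide +kernel)
                (CovZ.subM 43557484201379383943410015078235980824608 (by decide +kernel)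
                 (CovZ.n2 (83484, 81252) (by decide +kernel)
                  (CovZ.n2 (83484, 81288) (by decide +kernel)
                   (CovZ.leaf K2_ok TI_l5965 _)
                   (CovZ.n1 (83466, 81270) (by decide +kernel)
                    (CovZ.leaf K2_ok TI_l5966 _)
                    (CovZ.n1 (83484, 81270) (by decide +kernel)
                     (CovZ.leaf K2_ok TI_l5967 _)
                     (CovZ.leaf K2_ok TI_l5968 _))))
                  (CovZ.n1 (83520, 81252) (by decide +kernel)
                   (CovZ.n2 (83502, 81234) (by decide +kernel)
                    (CovZ.leaf K2_ok TI_l5969 _)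
                    (CovZ.leaf K2_ok TI_l5970 _))
                   (CovZ.n1 (83502, 81270) (by decide +kernel)
                    (CovZ.leaf K2_ok TI_l5971 _)
                    (CovZ.leaf K2_ok TI_l5972 _)))))
                (CovZ.n1 (83484, 81324) (by decide +kernel)
                 (CovZ.n2 (83520, 81324) (by decide +kernel)
                  (CovZ.leaf K2_ok TI_l5973 _)
                  (CovZ.leaf K2_ok TI_l5974 _))
                 (CovZ.n1 (83484, 81288) (by decide +kernel)
                  (CovZ.leaf K2_ok TI_l5975 _)
                  (CovZ.n1 (83502, 81306) (by decide +kernel)
                   (CovZ.leaf K2_ok TI_l5976 _)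
                   (CovZ.leaf K2_ok TI_l5977 _))))))
              (CovZ.n1 (83448, 81432) (by decide +kernel)
               (CovZ.n2 (83520, 81432) (by decide +kernel)
                (CovZ.n2 (83484, 81396) (by decide +kernel)
                 (CovZ.leaf K2_ok TI_l5978 _)
                 (CovZ.leaf K2_ok TI_l5979 _))
                (CovZ.n1 (83484, 81468) (by decide +kernel)
                 (CovZ.leaf K2_ok TI_l5980 _)
                 (CovZ.leaf K2_ok TI_l5981 _)))
               (CovZ.n1 (83448, 81360) (by decide +kernel)
                (CovZ.n2 (83412, 81396) (by decide +kernel)
                 (CovZ.n2 (83448, 81396) (by decide +kernel)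
                  (CovZ.leaf K2_ok TI_l5982 _)
                  (CovZ.leaf K2_ok TI_l5983 _))
                 (CovZ.n1 (83412, 81360) (by decide +kernel)
                  (CovZ.leaf K2_ok TI_l5984 _)
                  (CovZ.n1 (83430, 81378) (by decide +kernel)
                   (CovZ.leaf K2_ok TI_l5985 _)
                   (CovZ.leaf K2_ok TI_l5986 _))))
                (CovZ.n1 (83484, 81396) (by decide +kernel)
                 (CovZ.n2 (83484, 81360) (by decide +kernel)
                  (CovZ.leaf K2_ok TI_l5987 _)
                  (CovZ.leaf K2_ok TI_l5988 _))
                 (CovZ.leaf K2_ok TI_l5989 _)))))))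
           (CovZ.n1 (83376, 81648) (by decide +kernel)
            (CovZ.subM 43643219427390268829315860488427925541152 (by decide +kernel)
             (CovZ.n2 (83520, 81648) (by decide +kernel)
              (CovZ.n2 (83448, 81576) (by decide +kernel)
               (CovZ.n2 (83448, 81648) (by decide +kernel)
                (CovZ.leaf K2_ok TI_l5990 _)
                (CovZ.leaf K2_ok TI_l5991 _))
               (CovZ.n1 (83520, 81576) (by decide +kernel)
                (CovZ.n2 (83484, 81540) (by decide +kernel)
                 (CovZ.leaf K2_ok TI_l5992 _)
                 (CovZ.leaf K2_ok TI_l5993 _))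
                (CovZ.leaf K2_ok TI_l5994 _)))
              (CovZ.n1 (83448, 81720) (by decide +kernel)
               (CovZ.n2 (83520, 81720) (by decide +kernel)
                (CovZ.leaf K2_ok TI_l5995 _)
                (CovZ.leaf K2_ok TI_l5996 _))
               (CovZ.n1 (83448, 81648) (by decide +kernel)
                (CovZ.leaf K2_ok TI_l5997 _)
                (CovZ.leaf K2_ok TI_l5998 _)))))
            (CovZ.n1 (83376, 81504) (by decide +kernel)
             (CovZ.n2 (83304, 81576) (by decide +kernel)
              (CovZ.subM 46768052438232112810542008781073686461043171266848 (by decide +kernel)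
               (CovZ.n2 (83376, 81576) (by decide +kernel)
                (CovZ.n2 (83340, 81540) (by decide +kernel)
                 (CovZ.leaf K2_ok TI_l5999 _)
                 (CovZ.leaf K2_ok TI_l6000 _))
                (CovZ.n1 (83340, 81612) (by decide +kernel)
                 (CovZ.leaf K2_ok TI_l6001 _)
                 (CovZ.leaf K2_ok TI_l6002 _))))
              (CovZ.n1 (83304, 81504) (by decide +kernel)
               (CovZ.n2 (83268, 81540) (by decide +kernel)
                (CovZ.leaf K2_ok TI_l6003 _)
                (CovZ.n1 (83268, 81504) (by decide +kernel)
                 (CovZ.leaf K2_ok TI_l6004 _)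
                 (CovZ.leaf K2_ok TI_l6005 _)))
               (CovZ.n1 (83340, 81540) (by decide +kernel)
                (CovZ.leaf K2_ok TI_l6006 _)
                (CovZ.leaf K2_ok TI_l6007 _))))
             (CovZ.subM 43643219427390268829315860488427925541152 (by decide +kernel)
              (CovZ.n1 (83448, 81576) (by decide +kernel)
               (CovZ.n2 (83448, 81504) (by decide +kernel)
                (CovZ.n2 (83412, 81540) (by decide +kernel)
                 (CovZ.leaf K2_ok TI_l6008 _)
                 (CovZ.leaf K2_ok TI_l6009 _))
                (CovZ.n1 (83484, 81540) (by decide +kernel)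
                 (CovZ.leaf K2_ok TI_l6010 _)
                 (CovZ.leaf K2_ok TI_l6011 _)))
               (CovZ.n1 (83376, 81576) (by decide +kernel)
                (CovZ.leaf K2_ok TI_l6012 _)
                (CovZ.leaf K2_ok TI_l6013 _))))))))

theorem TI_u68 : CovZ TI_M (toL (selN TI_LN 252653344896173386238319617235132742157746462431423060119969)) [0, 7, 6, 1] (82944, 82944) (82944, 81792) (84096, 81792) :=
    (CovZ.n2 (83520, 82368) (by decide +kernel)
        (CovZ.n2 (83520, 81792) (by decide +kernel)
         (CovZ.n2 (83232, 82080) (by decide +kernel)
          (CovZ.n2 (83520, 82080) (by decide +kernel)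
           (CovZ.n2 (83376, 81936) (by decide +kernel)
            (CovZ.n2 (83376, 82080) (by decide +kernel)
             (CovZ.leaf K2_ok TI_l5487 _)
             (CovZ.n1 (83304, 82008) (by decide +kernel)
              (CovZ.leaf K2_ok TI_l5488 _)
              (CovZ.leaf K2_ok TI_l5489 _)))
            (CovZ.subM 43643219427390268829315860488427925541152 (by decide +kernel)
             (CovZ.n1 (83520, 81936) (by decide +kernel)
              (CovZ.n2 (83448, 81864) (by decide +kernel)
               (CovZ.leaf K2_ok TI_l5490 _)
               (CovZ.leaf K2_ok TI_l5491 _))
              (CovZ.n1 (83448, 82008) (by decide +kernel)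
               (CovZ.leaf K2_ok TI_l5492 _)
               (CovZ.n1 (83448, 81936) (by decide +kernel)
                (CovZ.leaf K2_ok TI_l5493 _)
                (CovZ.leaf K2_ok TI_l5494 _))))))
           (CovZ.n1 (83376, 82224) (by decide +kernel)
            (CovZ.n2 (83520, 82224) (by decide +kernel)
             (CovZ.n2 (83448, 82152) (by decide +kernel)
              (CovZ.leaf K2_ok TI_l5495 _)
              (CovZ.leaf K2_ok TI_l5496 _))
             (CovZ.leaf K2_ok TI_l5497 _))
            (CovZ.n1 (83376, 82080) (by decide +kernel)
             (CovZ.n2 (83304, 82152) (by decide +kernel)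
              (CovZ.leaf K3_ok TI_l5498 _)
              (CovZ.leaf K2_ok TI_l5499 _))
             (CovZ.n1 (83448, 82152) (by decide +kernel)
              (CovZ.leaf K2_ok TI_l5500 _)
              (CovZ.leaf K2_ok TI_l5501 _)))))
          (CovZ.n1 (83232, 81792) (by decide +kernel)
           (CovZ.n2 (83088, 81936) (by decide +kernel)
            (CovZ.n2 (83232, 81936) (by decide +kernel)
             (CovZ.n2 (83160, 81864) (by decide +kernel)
              (CovZ.leaf K2_ok TI_l5502 _)
              (CovZ.n1 (83232, 81864) (by decide +kernel)
               (CovZ.leaf K2_ok TI_l5503 _)
               (CovZ.leaf K2_ok TI_l5504 _)))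
             (CovZ.n1 (83160, 82008) (by decide +kernel)
              (CovZ.leaf K2_ok TI_l5505 _)
              (CovZ.n1 (83160, 81936) (by decide +kernel)
               (CovZ.leaf K2_ok TI_l5506 _)
               (CovZ.leaf K2_ok TI_l5507 _))))
            (CovZ.n1 (83088, 81792) (by decide +kernel)
             (CovZ.n2 (83016, 81864) (by decide +kernel)
              (CovZ.n2 (83088, 81864) (by decide +kernel)
               (CovZ.leaf K2_ok TI_l5508 _)
               (CovZ.leaf K2_ok TI_l5509 _))
              (CovZ.n1 (83016, 81792) (by decide +kernel)
               (CovZ.leaf K2_ok TI_l5510 _)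
               (CovZ.leaf K2_ok TI_l5511 _)))
             (CovZ.n1 (83160, 81864) (by decide +kernel)
              (CovZ.n2 (83160, 81792) (by decide +kernel)
               (CovZ.leaf K2_ok TI_l5512 _)
               (CovZ.leaf K2_ok TI_l5513 _))
              (CovZ.leaf K2_ok TI_l5514 _))))
           (CovZ.n1 (83376, 81936) (by decide +kernel)
            (CovZ.n2 (83376, 81792) (by decide +kernel)
             (CovZ.n2 (83304, 81864) (by decide +kernel)
              (CovZ.n2 (83376, 81864) (by decide +kernel)
               (CovZ.leaf K2_ok TI_l5515 _)
               (CovZ.leaf K2_ok TI_l5516 _))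
              (CovZ.n1 (83304, 81792) (by decide +kernel)
               (CovZ.leaf K2_ok TI_l5517 _)
               (CovZ.leaf K2_ok TI_l5518 _)))
             (CovZ.n1 (83448, 81864) (by decide +kernel)
              (CovZ.n2 (83448, 81792) (by decide +kernel)
               (CovZ.leaf K2_ok TI_l5519 _)
               (CovZ.leaf K2_ok TI_l5520 _))
              (CovZ.leaf K2_ok TI_l5521 _)))
            (CovZ.n1 (83232, 81936) (by decide +kernel)
             (CovZ.n2 (83304, 82008) (by decide +kernel)
              (CovZ.n2 (83304, 81936) (by decide +kernel)
               (CovZ.leaf K2_ok TI_l5522 _)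
               (CovZ.leaf K2_ok TI_l5523 _))
              (CovZ.leaf K2_ok TI_l5524 _))
             (CovZ.leaf K2_ok TI_l5525 _)))))
         (CovZ.subM 43643240196577702930847442747456080711968 (by decide +kernel)
          (CovZ.n1 (83808, 82080) (by decide +kernel)
           (CovZ.n2 (83808, 81792) (by decide +kernel)
            (CovZ.n2 (83664, 81936) (by decide +kernel)
             (CovZ.n2 (83808, 81936) (by decide +kernel)
              (CovZ.n2 (83736, 81864) (by decide +kernel)
               (CovZ.leaf K2_ok TI_l5526 _)
               (CovZ.leaf K2_ok TI_l5527 _))
              (CovZ.n1 (83736, 82008) (by decide +kernel)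
               (CovZ.leaf K2_ok TI_l5528 _)
               (CovZ.leaf K3_ok TI_l5529 _)))
             (CovZ.n1 (83664, 81792) (by decide +kernel)
              (CovZ.n2 (83592, 81864) (by decide +kernel)
               (CovZ.leaf K3_ok TI_l5530 _)
               (CovZ.n1 (83592, 81792) (by decide +kernel)
                (CovZ.leaf K2_ok TI_l5531 _)
                (CovZ.leaf K2_ok TI_l5532 _)))
              (CovZ.n1 (83736, 81864) (by decide +kernel)
               (CovZ.n2 (83736, 81792) (by decide +kernel)
                (CovZ.leaf K2_ok TI_l5533 _)
                (CovZ.leaf K2_ok TI_l5534 _))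
               (CovZ.leaf K2_ok TI_l5535 _))))
            (CovZ.n1 (83952, 81936) (by decide +kernel)
             (CovZ.n2 (83952, 81792) (by decide +kernel)
              (CovZ.n2 (83880, 81864) (by decide +kernel)
               (CovZ.leaf K3_ok TI_l5536 _)
               (CovZ.leaf K2_ok TI_l5537 _))
              (CovZ.n1 (84024, 81864) (by decide +kernel)
               (CovZ.leaf K2_ok TI_l5538 _)
               (CovZ.leaf K2_ok TI_l5539 _)))
             (CovZ.n1 (83808, 81936) (by decide +kernel)
              (CovZ.n2 (83880, 82008) (by decide +kernel)
               (CovZ.leaf K3_ok TI_l5540 _)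
               (CovZ.leaf K2_ok TI_l5541 _))
              (CovZ.leaf K2_ok TI_l5542 _))))
           (CovZ.n1 (83520, 82080) (by decide +kernel)
            (CovZ.n2 (83664, 82224) (by decide +kernel)
             (CovZ.n2 (83664, 82080) (by decide +kernel)
              (CovZ.n2 (83592, 82152) (by decide +kernel)
               (CovZ.leaf K2_ok TI_l5543 _)
               (CovZ.leaf K2_ok TI_l5544 _))
              (CovZ.leaf K2_ok TI_l5545 _))
             (CovZ.leaf K2_ok TI_l5546 _))
            (CovZ.n1 (83664, 81936) (by decide +kernel)
             (CovZ.n2 (83520, 81936) (by decide +kernel)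
              (CovZ.n2 (83592, 82008) (by decide +kernel)
               (CovZ.leaf K3_ok TI_l5547 _)
               (CovZ.leaf K2_ok TI_l5548 _))
              (CovZ.leaf K3_ok TI_l5549 _))
             (CovZ.n1 (83664, 82080) (by decide +kernel)
              (CovZ.leaf K3_ok TI_l5550 _)
              (CovZ.n1 (83592, 82008) (by decide +kernel)
               (CovZ.leaf K3_ok TI_l5551 _)
               (CovZ.leaf K2_ok TI_l5552 _))))))))
        (CovZ.n1 (82944, 82368) (by decide +kernel)
         (CovZ.n2 (83232, 82656) (by decide +kernel)
          (CovZ.n2 (83232, 82368) (by decide +kernel)
           (CovZ.n2 (83088, 82512) (by decide +kernel)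
            (CovZ.n2 (83232, 82512) (by decide +kernel)
             (CovZ.leaf K3_ok TI_l5553 _)
             (CovZ.leaf K3_ok TI_l5554 _))
            (CovZ.n1 (83088, 82368) (by decide +kernel)
             (CovZ.leaf K3_ok TI_l5555 _)
             (CovZ.leaf K3_ok TI_l5556 _)))
           (CovZ.n1 (83376, 82512) (by decide +kernel)
            (CovZ.n2 (83376, 82368) (by decide +kernel)
             (CovZ.leaf K3_ok TI_l5557 _)
             (CovZ.leaf K2_ok TI_l5558 _))
            (CovZ.leaf K3_ok TI_l5559 _)))
          (CovZ.n1 (82944, 82656) (by decide +kernel)
           (CovZ.n2 (83088, 82800) (by decide +kernel)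
            (CovZ.n2 (83088, 82656) (by decide +kernel)
             (CovZ.leaf K3_ok TI_l5560 _)
             (CovZ.leaf K3_ok TI_l5561 _))
            (CovZ.leaf K3_ok TI_l5562 _))
           (CovZ.leaf K3_ok TI_l5563 _)))
         (CovZ.n1 (83232, 82080) (by decide +kernel)
          (CovZ.n2 (82944, 82080) (by decide +kernel)
           (CovZ.n2 (83088, 82224) (by decide +kernel)
            (CovZ.n2 (83088, 82080) (by decide +kernel)
             (CovZ.n2 (83016, 82152) (by decide +kernel)
              (CovZ.leaf K2_ok TI_l5564 _)
              (CovZ.n1 (83016, 82080) (by decide +kernel)
               (CovZ.leaf K2_ok TI_l5565 _)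
               (CovZ.leaf K2_ok TI_l5566 _)))
             (CovZ.n1 (83160, 82152) (by decide +kernel)
              (CovZ.leaf K2_ok TI_l5567 _)
              (CovZ.leaf K2_ok TI_l5568 _)))
            (CovZ.n1 (82944, 82224) (by decide +kernel)
             (CovZ.n2 (83016, 82296) (by decide +kernel)
              (CovZ.n2 (83016, 82224) (by decide +kernel)
               (CovZ.leaf K2_ok TI_l5569 _)
               (CovZ.leaf K2_ok TI_l5570 _))
              (CovZ.leaf K2_ok TI_l5571 _))
             (CovZ.leaf K2_ok TI_l5572 _)))
           (CovZ.n1 (83088, 81936) (by decide +kernel)
            (CovZ.n2 (82944, 81936) (by decide +kernel)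
             (CovZ.n2 (83016, 82008) (by decide +kernel)
              (CovZ.n2 (83016, 81936) (by decide +kernel)
               (CovZ.leaf K2_ok TI_l5573 _)
               (CovZ.leaf K2_ok TI_l5574 _))
              (CovZ.leaf K3_ok TI_l5575 _))
             (CovZ.n1 (83016, 81864) (by decide +kernel)
              (CovZ.n2 (82944, 81864) (by decide +kernel)
               (CovZ.leaf K2_ok TI_l5576 _)
               (CovZ.leaf K2_ok TI_l5577 _))
              (CovZ.leaf K3_ok TI_l5578 _)))
            (CovZ.n1 (83088, 82080) (by decide +kernel)
             (CovZ.leaf K3_ok TI_l5579 _)
             (CovZ.n1 (83016, 82008) (by decide +kernel)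
              (CovZ.leaf K3_ok TI_l5580 _)
              (CovZ.n1 (83088, 82008) (by decide +kernel)
               (CovZ.leaf K2_ok TI_l5581 _)
               (CovZ.leaf K2_ok TI_l5582 _))))))
          (CovZ.n1 (83232, 82368) (by decide +kernel)
           (CovZ.n2 (83376, 82224) (by decide +kernel)
            (CovZ.leaf K3_ok TI_l5583 _)
            (CovZ.n1 (83376, 82368) (by decide +kernel)
             (CovZ.leaf K2_ok TI_l5584 _)
             (CovZ.leaf K2_ok TI_l5585 _)))
           (CovZ.n1 (83088, 82224) (by decide +kernel)
            (CovZ.n2 (83088, 82368) (by decide +kernel)
             (CovZ.leaf K2_ok TI_l5586 _)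
             (CovZ.n1 (83016, 82296) (by decide +kernel)
              (CovZ.leaf K2_ok TI_l5587 _)
              (CovZ.leaf K2_ok TI_l5588 _)))
            (CovZ.n1 (83232, 82224) (by decide +kernel)
             (CovZ.n2 (83160, 82152) (by decide +kernel)
              (CovZ.leaf K2_ok TI_l5589 _)
              (CovZ.leaf K2_ok TI_l5590 _))
             (CovZ.leaf K2_ok TI_l5591 _)))))))

theorem TI_u69 : CovZ TI_M (toL (selN TI_LN 252653344896173386238319617235132742157746462431423060119969)) [0, 7, 6, 1] (82944, 81792) (82944, 80640) (84096, 81792) :=
    (CovZ.n1 (83520, 81216) (by decide +kernel)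
        (CovZ.n2 (82944, 81216) (by decide +kernel)
         (CovZ.n2 (83232, 81504) (by decide +kernel)
          (CovZ.n2 (83232, 81216) (by decide +kernel)
           TI_u64
           TI_u65)
          (CovZ.n1 (82944, 81504) (by decide +kernel)
           (CovZ.n2 (83088, 81648) (by decide +kernel)
            (CovZ.n2 (83088, 81504) (by decide +kernel)
             (CovZ.n2 (83016, 81576) (by decide +kernel)
              (CovZ.n2 (83088, 81576) (by decide +kernel)
               (CovZ.n2 (83052, 81540) (by decide +kernel)
                (CovZ.leaf K2_ok TI_l5733 _)
                (CovZ.n1 (83088, 81540) (by decide +kernel)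
                 (CovZ.n2 (83070, 81522) (by decide +kernel)
                  (CovZ.leaf K2_ok TI_l5734 _)
                  (CovZ.leaf K2_ok TI_l5735 _))
                 (CovZ.leaf K2_ok TI_l5736 _)))
               (CovZ.n1 (83052, 81612) (by decide +kernel)
                (CovZ.leaf K2_ok TI_l5737 _)
                (CovZ.n1 (83052, 81576) (by decide +kernel)
                 (CovZ.leaf K2_ok TI_l5738 _)
                 (CovZ.leaf K2_ok TI_l5739 _))))
              (CovZ.n1 (83016, 81504) (by decide +kernel)
               (CovZ.n2 (82980, 81540) (by decide +kernel)
                (CovZ.n2 (83016, 81540) (by decide +kernel)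
                 (CovZ.n2 (82998, 81522) (by decide +kernel)
                  (CovZ.leaf K2_ok TI_l5740 _)
                  (CovZ.leaf K2_ok TI_l5741 _))
                 (CovZ.leaf K2_ok TI_l5742 _))
                (CovZ.subM 252653344896081953139449310493491893860132276540510291759104 (by decide +kernel)
                 (CovZ.n1 (82980, 81504) (by decide +kernel)
                  (CovZ.n2 (82962, 81522) (by decide +kernel)
                   (CovZ.leaf K2_ok TI_l5743 _)
                   (CovZ.leaf K2_ok TI_l5744 _))
                  (CovZ.n1 (82998, 81522) (by decide +kernel)
                   (CovZ.leaf K2_ok TI_l5745 _)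
                   (CovZ.leaf K2_ok TI_l5746 _)))))
               (CovZ.n1 (83052, 81540) (by decide +kernel)
                (CovZ.n2 (83052, 81504) (by decide +kernel)
                 (CovZ.leaf K2_ok TI_l5747 _)
                 (CovZ.n1 (83070, 81522) (by decide +kernel)
                  (CovZ.leaf K2_ok TI_l5748 _)
                  (CovZ.leaf K2_ok TI_l5749 _)))
                (CovZ.n1 (83016, 81540) (by decide +kernel)
                 (CovZ.n2 (83034, 81558) (by decide +kernel)
                  (CovZ.leaf K2_ok TI_l5750 _)
                  (CovZ.leaf K2_ok TI_l5751 _))
                 (CovZ.leaf K2_ok TI_l5752 _)))))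
             (CovZ.n1 (83160, 81576) (by decide +kernel)
              (CovZ.n2 (83160, 81504) (by decide +kernel)
               (CovZ.n2 (83124, 81540) (by decide +kernel)
                (CovZ.n2 (83160, 81540) (by decide +kernel)
                 (CovZ.leaf K2_ok TI_l5753 _)
                 (CovZ.leaf K2_ok TI_l5754 _))
                (CovZ.n1 (83124, 81504) (by decide +kernel)
                 (CovZ.leaf K2_ok TI_l5755 _)
                 (CovZ.leaf K2_ok TI_l5756 _)))
               (CovZ.n1 (83196, 81540) (by decide +kernel)
                (CovZ.n2 (83196, 81504) (by decide +kernel)
                 (CovZ.leaf K2_ok TI_l5757 _)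
                 (CovZ.leaf K2_ok TI_l5758 _))
                (CovZ.leaf K2_ok TI_l5759 _)))
              (CovZ.n1 (83088, 81576) (by decide +kernel)
               (CovZ.n2 (83124, 81612) (by decide +kernel)
                (CovZ.leaf K2_ok TI_l5760 _)
                (CovZ.leaf K2_ok TI_l5761 _))
               (CovZ.n1 (83124, 81540) (by decide +kernel)
                (CovZ.n2 (83088, 81540) (by decide +kernel)
                 (CovZ.n2 (83106, 81558) (by decide +kernel)
                  (CovZ.leaf K2_ok TI_l5762 _)
                  (CovZ.leaf K2_ok TI_l5763 _))
                 (CovZ.leaf K2_ok TI_l5764 _))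
                (CovZ.leaf K2_ok TI_l5765 _)))))
            (CovZ.n1 (82944, 81648) (by decide +kernel)
             (CovZ.n2 (83016, 81720) (by decide +kernel)
              (CovZ.n2 (83016, 81648) (by decide +kernel)
               (CovZ.n2 (82980, 81684) (by decide +kernel)
                (CovZ.leaf K2_ok TI_l5766 _)
                (CovZ.n1 (82980, 81648) (by decide +kernel)
                 (CovZ.leaf K2_ok TI_l5767 _)
                 (CovZ.leaf K2_ok TI_l5768 _)))
               (CovZ.n1 (83052, 81684) (by decide +kernel)
                (CovZ.leaf K2_ok TI_l5769 _)
                (CovZ.leaf K2_ok TI_l5770 _)))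
              (CovZ.n1 (82944, 81720) (by decide +kernel)
               (CovZ.n2 (82980, 81756) (by decide +kernel)
                (CovZ.leaf K2_ok TI_l5771 _)
                (CovZ.leaf K2_ok TI_l5772 _))
               (CovZ.leaf K2_ok TI_l5773 _)))
             (CovZ.n1 (83016, 81576) (by decide +kernel)
              (CovZ.n2 (82944, 81576) (by decide +kernel)
               (CovZ.n2 (82980, 81612) (by decide +kernel)
                (CovZ.n2 (82980, 81576) (by decide +kernel)
                 (CovZ.leaf K2_ok TI_l5774 _)
                 (CovZ.leaf K2_ok TI_l5775 _))
                (CovZ.leaf K2_ok TI_l5776 _))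
               (CovZ.n1 (82980, 81540) (by decide +kernel)
                (CovZ.n2 (82944, 81540) (by decide +kernel)
                 (CovZ.n2 (82962, 81558) (by decide +kernel)
                  (CovZ.leaf K2_ok TI_l5777 _)
                  (CovZ.leaf K2_ok TI_l5778 _))
                 (CovZ.leaf K2_ok TI_l5779 _))
                (CovZ.n1 (82980, 81576) (by decide +kernel)
                 (CovZ.leaf K2_ok TI_l5780 _)
                 (CovZ.leaf K2_ok TI_l5781 _))))
              (CovZ.n1 (83016, 81648) (by decide +kernel)
               (CovZ.leaf K2_ok TI_l5782 _)
               (CovZ.n1 (82980, 81612) (by decide +kernel)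
                (CovZ.leaf K2_ok TI_l5783 _)
                (CovZ.n1 (83016, 81612) (by decide +kernel)
                 (CovZ.leaf K2_ok TI_l5784 _)
                 (CovZ.leaf K2_ok TI_l5785 _)))))))
           (CovZ.subM 51786089316940116345331017464797552752319952078651223314560 (by decide +kernel)
            (CovZ.n1 (83088, 81360) (by decide +kernel)
             (CovZ.badM (by decide +kernel))
             (CovZ.n1 (83088, 81504) (by decide +kernel)
              (CovZ.n2 (83160, 81432) (by decide +kernel)
               (CovZ.n2 (83088, 81432) (by decide +kernel)
                (CovZ.n2 (83124, 81468) (by decide +kernel)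
                 (CovZ.n2 (83124, 81432) (by decide +kernel)
                  (CovZ.leaf K2_ok TI_l5786 _)
                  (CovZ.leaf K2_ok TI_l5787 _))
                 (CovZ.n1 (83088, 81468) (by decide +kernel)
                  (CovZ.leaf K2_ok TI_l5788 _)
                  (CovZ.leaf K2_ok TI_l5789 _)))
                (CovZ.subM 1339957707378242400985427582629445632 (by decide +kernel)
                 (CovZ.n1 (83124, 81396) (by decide +kernel)
                  (CovZ.n2 (83088, 81396) (by decide +kernel)
                   (CovZ.n2 (83106, 81414) (by decide +kernel)
                    (CovZ.leaf K2_ok TI_l5790 _)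
                    (CovZ.leaf K2_ok TI_l5791 _))
                   (CovZ.leaf K2_ok TI_l5792 _))
                  (CovZ.n1 (83124, 81432) (by decide +kernel)
                   (CovZ.leaf K2_ok TI_l5793 _)
                   (CovZ.n1 (83106, 81414) (by decide +kernel)
                    (CovZ.leaf K2_ok TI_l5794 _)
                    (CovZ.leaf K2_ok TI_l5795 _))))))
               (CovZ.n1 (83160, 81504) (by decide +kernel)
                (CovZ.n2 (83196, 81468) (by decide +kernel)
                 (CovZ.leaf K2_ok TI_l5796 _)
                 (CovZ.leaf K2_ok TI_l5797 _))
                (CovZ.n1 (83124, 81468) (by decide +kernel)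
                 (CovZ.leaf K2_ok TI_l5798 _)
                 (CovZ.n1 (83160, 81468) (by decide +kernel)
                  (CovZ.leaf K2_ok TI_l5799 _)
                  (CovZ.leaf K2_ok TI_l5800 _)))))
              (CovZ.n1 (83016, 81432) (by decide +kernel)
               (CovZ.n2 (83016, 81504) (by decide +kernel)
                (CovZ.n2 (83052, 81468) (by decide +kernel)
                 (CovZ.subM 51786089316940116301646602699170626175282311332558333280256 (by decide +kernel)
                  (CovZ.n2 (83016, 81468) (by decide +kernel)
                   (CovZ.n2 (83034, 81486) (by decide +kernel)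
                    (CovZ.leaf K2_ok TI_l5801 _)
                    (CovZ.leaf K2_ok TI_l5802 _))
                   (CovZ.n1 (83034, 81450) (by decide +kernel)
                    (CovZ.leaf K2_ok TI_l5803 _)
                    (CovZ.leaf K2_ok TI_l5804 _))))
                 (CovZ.n1 (83052, 81504) (by decide +kernel)
                  (CovZ.leaf K2_ok TI_l5805 _)
                  (CovZ.n1 (83034, 81486) (by decide +kernel)
                   (CovZ.leaf K2_ok TI_l5806 _)
                   (CovZ.leaf K2_ok TI_l5807 _))))
                (CovZ.subM 51786089316940116301646602699170626175282310769608379858944 (by decide +kernel)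
                 (CovZ.n1 (82980, 81468) (by decide +kernel)
                  (CovZ.n2 (82980, 81504) (by decide +kernel)
                   (CovZ.leaf K2_ok TI_l5808 _)
                   (CovZ.n1 (82962, 81486) (by decide +kernel)
                    (CovZ.leaf K2_ok TI_l5809 _)
                    (CovZ.leaf K2_ok TI_l5810 _)))
                  (CovZ.n1 (83016, 81468) (by decide +kernel)
                   (CovZ.n2 (82998, 81450) (by decide +kernel)
                    (CovZ.leaf K2_ok TI_l5811 _)
                    (CovZ.n1 (83016, 81450) (by decide +kernel)
                     (CovZ.badM (by decide +kernel))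
                     (CovZ.leaf K2_ok TI_l5812 _)))
                   (CovZ.n1 (82998, 81486) (by decide +kernel)
                    (CovZ.leaf K2_ok TI_l5813 _)
                    (CovZ.leaf K2_ok TI_l5814 _))))))
               (CovZ.n1 (83088, 81432) (by decide +kernel)
                (CovZ.subM 20282409641430602849854500634624 (by decide +kernel)
                 (CovZ.n2 (83052, 81396) (by decide +kernel)
                  (CovZ.n2 (83052, 81432) (by decide +kernel)
                   (CovZ.leaf K2_ok TI_l5815 _)
                   (CovZ.n1 (83034, 81414) (by decide +kernel)
                    (CovZ.leaf K2_ok TI_l5816 _)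
                    (CovZ.n1 (83052, 81414) (by decide +kernel)
                     (CovZ.badM (by decide +kernel))
                     (CovZ.leaf K2_ok TI_l5817 _))))
                  (CovZ.n1 (83088, 81396) (by decide +kernel)
                   (CovZ.n2 (83070, 81378) (by decide +kernel)
                    (CovZ.leaf K2_ok TI_l5818 _)
                    (CovZ.n1 (83088, 81378) (by decide +kernel)
                     (CovZ.badM (by decide +kernel))
                     (CovZ.n1 (83079, 81387) (by decide +kernel)
                      (CovZ.leaf K2_ok TI_l5819 _)
                      (CovZ.badM (by decide +kernel)))))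
                   (CovZ.n1 (83070, 81414) (by decide +kernel)
                    (CovZ.leaf K2_ok TI_l5820 _)
                    (CovZ.n1 (83070, 81396) (by decide +kernel)
                     (CovZ.n2 (83061, 81405) (by decide +kernel)
                      (CovZ.leaf K2_ok TI_l5821 _)
                      (CovZ.badM (by decide +kernel)))
                     (CovZ.leaf K2_ok TI_l5822 _))))))
                (CovZ.n1 (83052, 81468) (by decide +kernel)
                 (CovZ.n2 (83088, 81468) (by decide +kernel)
                  (CovZ.n2 (83070, 81450) (by decide +kernel)
                   (CovZ.leaf K2_ok TI_l5823 _)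
                   (CovZ.leaf K2_ok TI_l5824 _))
                  (CovZ.leaf K2_ok TI_l5825 _))
                 (CovZ.subM 10404876126711085864414446786445312 (by decide +kernel)
                  (CovZ.n1 (83052, 81432) (by decide +kernel)
                   (CovZ.n2 (83034, 81450) (by decide +kernel)
                    (CovZ.leaf K2_ok TI_l5826 _)
                    (CovZ.leaf K2_ok TI_l5827 _))
                   (CovZ.n1 (83070, 81450) (by decide +kernel)
                    (CovZ.leaf K2_ok TI_l5828 _)
                    (CovZ.leaf K2_ok TI_l5829 _))))))))))))
         (CovZ.subM 56668397794436279435264 (by decide +kernel)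
          (CovZ.n1 (83232, 80928) (by decide +kernel)
           (CovZ.badM (by decide +kernel))
           (CovZ.n1 (83232, 81216) (by decide +kernel)
            (CovZ.n2 (83376, 81072) (by decide +kernel)
             (CovZ.badM (by decide +kernel))
             (CovZ.n1 (83376, 81216) (by decide +kernel)
              (CovZ.n2 (83448, 81144) (by decide +kernel)
               (CovZ.badM (by decide +kernel))
               (CovZ.n1 (83448, 81216) (by decide +kernel)
                (CovZ.n2 (83484, 81180) (by decide +kernel)
                 (CovZ.badM (by decide +kernel))
                 (CovZ.n1 (83484, 81216) (by decide +kernel)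
                  (CovZ.badM (by decide +kernel))
                  (CovZ.n1 (83466, 81198) (by decide +kernel)
                   (CovZ.leaf K2_ok TI_l5830 _)
                   (CovZ.badM (by decide +kernel)))))
                (CovZ.badM (by decide +kernel))))
              (CovZ.badM (by decide +kernel))))
            (CovZ.badM (by decide +kernel))))))
        (CovZ.n1 (83520, 81792) (by decide +kernel)
         TI_u66
         TI_u67))

end Pool.Agent.TET
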