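import Pool.Agent.Helper38_TET.TI_M
import Pool.Agent.Helper38_TET.TI_L
import Pool.Agent.Helper38_TET.TI_21
import Pool.Agent.Helper38_TET.TI_22
import Pool.Agent.Helper38_TET.TI_23
import Pool.Agent.Helper38_TET.TI_24
import Pool.Agent.Helper38_TET.TI_40
import Pool.Agent.Helper38_TET.TI_41
import Pool.Agent.Helper38_TET.TI_42

/-!
# MP_c7c9bf_co: certificates, family TI
-/

set_option autoImplicit false
set_option maxRecDepth 100000

namespace Pool.Agent.TET

theorem TI_u70 : CovZ TI_M (toL (selN TI_LN 316912952293123940049896996896)) [0, 7, 6, 1] (85248, 80640) (84960, 80640) (84960, 80352) :=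
    (CovZ.n2 (85104, 80496) (by decide +kernel)
              (CovZ.n2 (84960, 80496) (by decide +kernel)
               (CovZ.n2 (85032, 80568) (by decide +kernel)
                (CovZ.n2 (85032, 80496) (by decide +kernel)
                 (CovZ.n2 (84996, 80532) (by decide +kernel)
                  (CovZ.n2 (85032, 80532) (by decide +kernel)
                   (CovZ.leaf K2_ok TI_l6014 _)
                   (CovZ.leaf K2_ok TI_l6015 _))
                  (CovZ.n1 (84996, 80496) (by decide +kernel)
                   (CovZ.n2 (84978, 80514) (by decide +kernel)
                    (CovZ.leaf K2_ok TI_l6016 _)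
                    (CovZ.badM (by decide +kernel)))
                   (CovZ.n1 (85014, 80514) (by decide +kernel)
                    (CovZ.leaf K2_ok TI_l6017 _)
                    (CovZ.leaf K2_ok TI_l6018 _))))
                 (CovZ.n1 (85068, 80532) (by decide +kernel)
                  (CovZ.n2 (85068, 80496) (by decide +kernel)
                   (CovZ.leaf K2_ok TI_l6019 _)
                   (CovZ.leaf K2_ok TI_l6020 _))
                  (CovZ.n1 (85032, 80532) (by decide +kernel)
                   (CovZ.leaf K2_ok TI_l6021 _)
                   (CovZ.leaf K2_ok TI_l6022 _))))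
                (CovZ.n1 (84960, 80568) (by decide +kernel)
                 (CovZ.n2 (84996, 80604) (by decide +kernel)
                  (CovZ.n2 (84996, 80568) (by decide +kernel)
                   (CovZ.leaf K2_ok TI_l6023 _)
                   (CovZ.n1 (85014, 80586) (by decide +kernel)
                    (CovZ.leaf K2_ok TI_l6024 _)
                    (CovZ.leaf K2_ok TI_l6025 _)))
                  (CovZ.leaf K2_ok TI_l6026 _))
                 (CovZ.n1 (84996, 80532) (by decide +kernel)
                  (CovZ.n2 (84960, 80532) (by decide +kernel)
                   (CovZ.n2 (84978, 80550) (by decide +kernel)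
                    (CovZ.leaf K2_ok TI_l6027 _)
                    (CovZ.leaf K2_ok TI_l6028 _))
                   (CovZ.n1 (84978, 80514) (by decide +kernel)
                    (CovZ.leaf K2_ok TI_l6029 _)
                    (CovZ.leaf K2_ok TI_l6030 _)))
                  (CovZ.n1 (84996, 80568) (by decide +kernel)
                   (CovZ.leaf K2_ok TI_l6031 _)
                   (CovZ.leaf K2_ok TI_l6032 _)))))
               (CovZ.n1 (85032, 80424) (by decide +kernel)
                (CovZ.badM (by decide +kernel))
                (CovZ.n1 (85032, 80496) (by decide +kernel)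
                 (CovZ.n2 (85068, 80460) (by decide +kernel)
                  (CovZ.n2 (85032, 80460) (by decide +kernel)
                   (CovZ.n2 (85050, 80478) (by decide +kernel)
                    (CovZ.leaf K2_ok TI_l6033 _)
                    (CovZ.leaf K2_ok TI_l6034 _))
                   (CovZ.badM (by decide +kernel)))
                  (CovZ.n1 (85068, 80496) (by decide +kernel)
                   (CovZ.leaf K2_ok TI_l6035 _)
                   (CovZ.n1 (85050, 80478) (by decide +kernel)
                    (CovZ.leaf K2_ok TI_l6036 _)
                    (CovZ.leaf K2_ok TI_l6037 _))))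
                 (CovZ.n1 (84996, 80460) (by decide +kernel)
                  (CovZ.n2 (84996, 80496) (by decide +kernel)
                   (CovZ.leaf K2_ok TI_l6038 _)
                   (CovZ.badM (by decide +kernel)))
                  (CovZ.n1 (85032, 80460) (by decide +kernel)
                   (CovZ.badM (by decide +kernel))
                   (CovZ.n1 (85014, 80478) (by decide +kernel)
                    (CovZ.leaf K2_ok TI_l6039 _)
                    (CovZ.badM (by decide +kernel))))))))
              (CovZ.n1 (85104, 80640) (by decide +kernel)
               (CovZ.n2 (85176, 80568) (by decide +kernel)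
                (CovZ.n2 (85104, 80568) (by decide +kernel)
                 (CovZ.n2 (85140, 80604) (by decide +kernel)
                  (CovZ.n2 (85140, 80568) (by decide +kernel)
                   (CovZ.leaf K2_ok TI_l6040 _)
                   (CovZ.leaf K2_ok TI_l6041 _))
                  (CovZ.leaf K2_ok TI_l6042 _))
                 (CovZ.n1 (85140, 80532) (by decide +kernel)
                  (CovZ.leaf K2_ok TI_l6043 _)
                  (CovZ.leaf K2_ok TI_l6044 _)))
                (CovZ.n1 (85176, 80640) (by decide +kernel)
                 (CovZ.leaf K2_ok TI_l6045 _)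
                 (CovZ.n1 (85140, 80604) (by decide +kernel)
                  (CovZ.leaf K2_ok TI_l6046 _)
                  (CovZ.n1 (85176, 80604) (by decide +kernel)
                   (CovZ.leaf K2_ok TI_l6047 _)
                   (CovZ.leaf K2_ok TI_l6048 _)))))
               (CovZ.n1 (85032, 80568) (by decide +kernel)
                (CovZ.n2 (85032, 80640) (by decide +kernel)
                 (CovZ.n2 (85068, 80604) (by decide +kernel)
                  (CovZ.leaf K2_ok TI_l6049 _)
                  (CovZ.leaf K2_ok TI_l6050 _))
                 (CovZ.n1 (84996, 80604) (by decide +kernel)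
                  (CovZ.n2 (84996, 80640) (by decide +kernel)
                   (CovZ.leaf K2_ok TI_l6051 _)
                   (CovZ.n1 (84978, 80622) (by decide +kernel)
                    (CovZ.leaf K3_ok TI_l6052 _)
                    (CovZ.leaf K2_ok TI_l6053 _)))
                  (CovZ.n1 (85032, 80604) (by decide +kernel)
                   (CovZ.leaf K2_ok TI_l6054 _)
                   (CovZ.leaf K3_ok TI_l6055 _))))
                (CovZ.n1 (85104, 80568) (by decide +kernel)
                 (CovZ.n2 (85068, 80532) (by decide +kernel)
                  (CovZ.leaf K2_ok TI_l6056 _)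
                  (CovZ.n1 (85104, 80532) (by decide +kernel)
                   (CovZ.leaf K2_ok TI_l6057 _)
                   (CovZ.leaf K2_ok TI_l6058 _)))
                 (CovZ.n1 (85068, 80604) (by decide +kernel)
                  (CovZ.n2 (85104, 80604) (by decide +kernel)
                   (CovZ.leaf K2_ok TI_l6059 _)
                   (CovZ.leaf K2_ok TI_l6060 _))
                  (CovZ.n1 (85068, 80568) (by decide +kernel)
                   (CovZ.leaf K2_ok TI_l6061 _)
                   (CovZ.leaf K2_ok TI_l6062 _)))))))

theorem TI_u71 : CovZ TI_M (toL (selN TI_LN 316912952293123940049896996896)) [0, 7, 6, 1] (84960, 80640) (84672, 80640) (84960, 80352) :=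
    (CovZ.n1 (84816, 80496) (by decide +kernel)
              (CovZ.n2 (84816, 80640) (by decide +kernel)
               (CovZ.n2 (84888, 80568) (by decide +kernel)
                (CovZ.n2 (84816, 80568) (by decide +kernel)
                 (CovZ.n2 (84852, 80604) (by decide +kernel)
                  (CovZ.n2 (84852, 80568) (by decide +kernel)
                   (CovZ.leaf K2_ok TI_l6063 _)
                   (CovZ.n1 (84870, 80586) (by decide +kernel)
                    (CovZ.n2 (84870, 80568) (by decide +kernel)
                     (CovZ.leaf K2_ok TI_l6064 _)
                     (CovZ.leaf K2_ok TI_l6065 _))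
                    (CovZ.leaf K2_ok TI_l6066 _)))
                  (CovZ.n1 (84816, 80604) (by decide +kernel)
                   (CovZ.n2 (84834, 80622) (by decide +kernel)
                    (CovZ.leaf K2_ok TI_l6067 _)
                    (CovZ.leaf K2_ok TI_l6068 _))
                   (CovZ.leaf K2_ok TI_l6069 _)))
                 (CovZ.n1 (84852, 80532) (by decide +kernel)
                  (CovZ.badM (by decide +kernel))
                  (CovZ.n1 (84852, 80568) (by decide +kernel)
                   (CovZ.leaf K2_ok TI_l6070 _)
                   (CovZ.badM (by decide +kernel)))))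
                (CovZ.n1 (84888, 80640) (by decide +kernel)
                 (CovZ.n2 (84924, 80604) (by decide +kernel)
                  (CovZ.n2 (84888, 80604) (by decide +kernel)
                   (CovZ.leaf K2_ok TI_l6071 _)
                   (CovZ.leaf K2_ok TI_l6072 _))
                  (CovZ.leaf K2_ok TI_l6073 _))
                 (CovZ.n1 (84852, 80604) (by decide +kernel)
                  (CovZ.n2 (84852, 80640) (by decide +kernel)
                   (CovZ.leaf K2_ok TI_l6074 _)
                   (CovZ.n1 (84834, 80622) (by decide +kernel)
                    (CovZ.leaf K2_ok TI_l6075 _)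
                    (CovZ.leaf K2_ok TI_l6076 _)))
                  (CovZ.n1 (84888, 80604) (by decide +kernel)
                   (CovZ.n2 (84870, 80586) (by decide +kernel)
                    (CovZ.leaf K2_ok TI_l6077 _)
                    (CovZ.leaf K2_ok TI_l6078 _))
                   (CovZ.leaf K2_ok TI_l6079 _)))))
               (CovZ.n1 (84744, 80568) (by decide +kernel)
                (CovZ.n2 (84744, 80640) (by decide +kernel)
                 (CovZ.n2 (84780, 80604) (by decide +kernel)
                  (CovZ.n2 (84744, 80604) (by decide +kernel)
                   (CovZ.n2 (84762, 80622) (by decide +kernel)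
                    (CovZ.badM (by decide +kernel))
                    (CovZ.n1 (84744, 80622) (by decide +kernel)
                     (CovZ.n2 (84753, 80631) (by decide +kernel)
                      (CovZ.leaf K2_ok TI_l6080 _)
                      (CovZ.leaf K2_ok TI_l6081 _))
                     (CovZ.badM (by decide +kernel))))
                   (CovZ.badM (by decide +kernel)))
                  (CovZ.n1 (84780, 80640) (by decide +kernel)
                   (CovZ.leaf K2_ok TI_l6082 _)
                   (CovZ.n1 (84762, 80622) (by decide +kernel)
                    (CovZ.n2 (84762, 80640) (by decide +kernel)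
                     (CovZ.leaf K2_ok TI_l6083 _)
                     (CovZ.n1 (84753, 80631) (by decide +kernel)
                      (CovZ.leaf K2_ok TI_l6084 _)
                      (CovZ.leaf K2_ok TI_l6085 _)))
                    (CovZ.leaf K2_ok TI_l6086 _))))
                 (CovZ.n1 (84708, 80604) (by decide +kernel)
                  (CovZ.n2 (84708, 80640) (by decide +kernel)
                   (CovZ.n2 (84726, 80622) (by decide +kernel)
                    (CovZ.badM (by decide +kernel))
                    (CovZ.n1 (84726, 80640) (by decide +kernel)
                     (CovZ.leaf K2_ok TI_l6087 _)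
                     (CovZ.badM (by decide +kernel))))
                   (CovZ.badM (by decide +kernel)))
                  (CovZ.n1 (84744, 80604) (by decide +kernel)
                   (CovZ.badM (by decide +kernel))
                   (CovZ.n1 (84726, 80622) (by decide +kernel)
                    (CovZ.n2 (84744, 80622) (by decide +kernel)
                     (CovZ.badM (by decide +kernel))
                     (CovZ.leaf K2_ok TI_l6088 _))
                    (CovZ.badM (by decide +kernel))))))
                (CovZ.n1 (84816, 80568) (by decide +kernel)
                 (CovZ.badM (by decide +kernel))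
                 (CovZ.n1 (84780, 80604) (by decide +kernel)
                  (CovZ.n2 (84816, 80604) (by decide +kernel)
                   (CovZ.n2 (84798, 80586) (by decide +kernel)
                    (CovZ.leaf K2_ok TI_l6089 _)
                    (CovZ.leaf K2_ok TI_l6090 _))
                   (CovZ.leaf K2_ok TI_l6091 _))
                  (CovZ.badM (by decide +kernel))))))
              (CovZ.n1 (84960, 80496) (by decide +kernel)
               (CovZ.badM (by decide +kernel))
               (CovZ.n1 (84888, 80568) (by decide +kernel)
                (CovZ.n2 (84960, 80568) (by decide +kernel)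
                 (CovZ.n2 (84924, 80532) (by decide +kernel)
                  (CovZ.n2 (84924, 80568) (by decide +kernel)
                   (CovZ.n2 (84942, 80550) (by decide +kernel)
                    (CovZ.leaf K2_ok TI_l6092 _)
                    (CovZ.leaf K2_ok TI_l6093 _))
                   (CovZ.n1 (84906, 80550) (by decide +kernel)
                    (CovZ.leaf K2_ok TI_l6094 _)
                    (CovZ.n1 (84924, 80550) (by decide +kernel)
                     (CovZ.leaf K2_ok TI_l6095 _)
                     (CovZ.leaf K2_ok TI_l6096 _))))
                  (CovZ.n1 (84960, 80532) (by decide +kernel)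
                   (CovZ.n2 (84942, 80514) (by decide +kernel)
                    (CovZ.n2 (84942, 80532) (by decide +kernel)
                     (CovZ.leaf K2_ok TI_l6097 _)
                     (CovZ.badM (by decide +kernel)))
                    (CovZ.n1 (84960, 80514) (by decide +kernel)
                     (CovZ.badM (by decide +kernel))
                     (CovZ.leaf K2_ok TI_l6098 _)))
                   (CovZ.n1 (84942, 80550) (by decide +kernel)
                    (CovZ.n2 (84960, 80550) (by decide +kernel)
                     (CovZ.leaf K2_ok TI_l6099 _)
                     (CovZ.leaf K2_ok TI_l6100 _))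
                    (CovZ.n1 (84942, 80532) (by decide +kernel)
                     (CovZ.leaf K2_ok TI_l6101 _)
                     (CovZ.leaf K2_ok TI_l6102 _)))))
                 (CovZ.n1 (84924, 80604) (by decide +kernel)
                  (CovZ.n2 (84960, 80604) (by decide +kernel)
                   (CovZ.n2 (84942, 80586) (by decide +kernel)
                    (CovZ.leaf K2_ok TI_l6103 _)
                    (CovZ.leaf K2_ok TI_l6104 _))
                   (CovZ.n1 (84942, 80622) (by decide +kernel)
                    (CovZ.leaf K2_ok TI_l6105 _)
                    (CovZ.leaf K3_ok TI_l6106 _)))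
                  (CovZ.n1 (84924, 80568) (by decide +kernel)
                   (CovZ.n2 (84906, 80586) (by decide +kernel)
                    (CovZ.leaf K2_ok TI_l6107 _)
                    (CovZ.leaf K2_ok TI_l6108 _))
                   (CovZ.n1 (84942, 80586) (by decide +kernel)
                    (CovZ.n2 (84942, 80568) (by decide +kernel)
                     (CovZ.leaf K2_ok TI_l6109 _)
                     (CovZ.leaf K2_ok TI_l6110 _))
                    (CovZ.leaf K2_ok TI_l6111 _)))))
                (CovZ.n1 (84888, 80496) (by decide +kernel)
                 (CovZ.n2 (84852, 80532) (by decide +kernel)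
                  (CovZ.n2 (84888, 80532) (by decide +kernel)
                   (CovZ.badM (by decide +kernel))
                   (CovZ.n1 (84870, 80550) (by decide +kernel)
                    (CovZ.n2 (84888, 80550) (by decide +kernel)
                     (CovZ.badM (by decide +kernel))
                     (CovZ.leaf K2_ok TI_l6112 _))
                    (CovZ.badM (by decide +kernel))))
                  (CovZ.badM (by decide +kernel)))
                 (CovZ.n1 (84924, 80532) (by decide +kernel)
                  (CovZ.badM (by decide +kernel))
                  (CovZ.n1 (84888, 80532) (by decide +kernel)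
                   (CovZ.n2 (84906, 80550) (by decide +kernel)
                    (CovZ.badM (by decide +kernel))
                    (CovZ.leaf K2_ok TI_l6113 _))
                   (CovZ.badM (by decide +kernel))))))))

theorem TI_u72 : CovZ TI_M (toL (selN TI_LN 85102070347239291814967574718153101344)) [0, 7, 6, 1] (85248, 80640) (85248, 81792) (84096, 81792) :=
    (CovZ.n2 (84672, 81216) (by decide +kernel)
         (CovZ.n2 (84672, 81792) (by decide +kernel)
          (CovZ.subM 316912952293123944447943508000 (by decide +kernel)
           (CovZ.n2 (84960, 81504) (by decide +kernel)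
            (CovZ.n2 (84672, 81504) (by decide +kernel)
             (CovZ.n2 (84816, 81648) (by decide +kernel)
              (CovZ.n2 (84816, 81504) (by decide +kernel)
               (CovZ.leaf K2_ok TI_l6288 _)
               (CovZ.leaf K2_ok TI_l6289 _))
              (CovZ.n1 (84672, 81648) (by decide +kernel)
               (CovZ.leaf K2_ok TI_l6290 _)
               (CovZ.leaf K2_ok TI_l6291 _)))
             (CovZ.n1 (84816, 81360) (by decide +kernel)
              (CovZ.n2 (84672, 81360) (by decide +kernel)
               (CovZ.n2 (84744, 81432) (by decide +kernel)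
                (CovZ.leaf K2_ok TI_l6292 _)
                (CovZ.leaf K2_ok TI_l6293 _))
               (CovZ.leaf K2_ok TI_l6294 _))
              (CovZ.n1 (84816, 81504) (by decide +kernel)
               (CovZ.leaf K2_ok TI_l6295 _)
               (CovZ.n1 (84744, 81432) (by decide +kernel)
                (CovZ.leaf K2_ok TI_l6296 _)
                (CovZ.leaf K2_ok TI_l6297 _)))))
            (CovZ.n1 (84960, 81792) (by decide +kernel)
             (CovZ.leaf K2_ok TI_l6298 _)
             (CovZ.n1 (84816, 81648) (by decide +kernel)
              (CovZ.leaf K2_ok TI_l6299 _)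
              (CovZ.n1 (84960, 81648) (by decide +kernel)
               (CovZ.leaf K2_ok TI_l6300 _)
               (CovZ.leaf K2_ok TI_l6301 _))))))
          (CovZ.n1 (84384, 81504) (by decide +kernel)
           (CovZ.n2 (84384, 81792) (by decide +kernel)
            (CovZ.subM 324835543981972306063871145279520 (by decide +kernel)
             (CovZ.n2 (84528, 81648) (by decide +kernel)
              (CovZ.n2 (84384, 81648) (by decide +kernel)
               (CovZ.n2 (84456, 81720) (by decide +kernel)
                (CovZ.leaf K2_ok TI_l6302 _)
                (CovZ.leaf K2_ok TI_l6303 _))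
               (CovZ.leaf K2_ok TI_l6304 _))
              (CovZ.n1 (84528, 81792) (by decide +kernel)
               (CovZ.leaf K3_ok TI_l6305 _)
               (CovZ.n1 (84456, 81720) (by decide +kernel)
                (CovZ.leaf K2_ok TI_l6306 _)
                (CovZ.leaf K2_ok TI_l6307 _)))))
            (CovZ.n1 (84240, 81648) (by decide +kernel)
             (CovZ.n2 (84240, 81792) (by decide +kernel)
              (CovZ.leaf K3_ok TI_l6308 _)
              (CovZ.n1 (84168, 81720) (by decide +kernel)
               (CovZ.leaf K2_ok TI_l6309 _)
               (CovZ.leaf K3_ok TI_l6310 _)))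
             (CovZ.subM 324835543981973459266850728837152 (by decide +kernel)
              (CovZ.n1 (84384, 81648) (by decide +kernel)
               (CovZ.n2 (84312, 81576) (by decide +kernel)
                (CovZ.leaf K2_ok TI_l6311 _)
                (CovZ.leaf K2_ok TI_l6312 _))
               (CovZ.n1 (84312, 81720) (by decide +kernel)
                (CovZ.leaf K2_ok TI_l6313 _)
                (CovZ.leaf K2_ok TI_l6314 _))))))
           (CovZ.subM 324835543981972306063871145279520 (by decide +kernel)
            (CovZ.n1 (84672, 81504) (by decide +kernel)
             (CovZ.n2 (84528, 81360) (by decide +kernel)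
              (CovZ.n2 (84528, 81504) (by decide +kernel)
               (CovZ.leaf K2_ok TI_l6315 _)
               (CovZ.n1 (84456, 81432) (by decide +kernel)
                (CovZ.leaf K2_ok TI_l6316 _)
                (CovZ.n1 (84528, 81432) (by decide +kernel)
                 (CovZ.leaf K2_ok TI_l6317 _)
                 (CovZ.leaf K2_ok TI_l6318 _))))
              (CovZ.n1 (84672, 81360) (by decide +kernel)
               (CovZ.n2 (84600, 81288) (by decide +kernel)
                (CovZ.leaf K2_ok TI_l6319 _)
                (CovZ.leaf K2_ok TI_l6320 _))
               (CovZ.n1 (84600, 81432) (by decide +kernel)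
                (CovZ.leaf K2_ok TI_l6321 _)
                (CovZ.leaf K2_ok TI_l6322 _))))
             (CovZ.n1 (84528, 81648) (by decide +kernel)
              (CovZ.n2 (84672, 81648) (by decide +kernel)
               (CovZ.n2 (84600, 81576) (by decide +kernel)
                (CovZ.leaf K2_ok TI_l6323 _)
                (CovZ.leaf K2_ok TI_l6324 _))
               (CovZ.leaf K2_ok TI_l6325 _))
              (CovZ.n1 (84528, 81504) (by decide +kernel)
               (CovZ.n2 (84456, 81576) (by decide +kernel)
                (CovZ.leaf K2_ok TI_l6326 _)
                (CovZ.n1 (84456, 81504) (by decide +kernel)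
                 (CovZ.leaf K2_ok TI_l6327 _)
                 (CovZ.leaf K2_ok TI_l6328 _)))
               (CovZ.n1 (84600, 81576) (by decide +kernel)
                (CovZ.leaf K2_ok TI_l6329 _)
                (CovZ.leaf K2_ok TI_l6330 _))))))))
         (CovZ.subM 316912952293123944447943508000 (by decide +kernel)
          (CovZ.n1 (85248, 81216) (by decide +kernel)
           (CovZ.n2 (84960, 80928) (by decide +kernel)
            (CovZ.n2 (84960, 81216) (by decide +kernel)
             (CovZ.n2 (85104, 81072) (by decide +kernel)
              (CovZ.n2 (84960, 81072) (by decide +kernel)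
               (CovZ.n2 (85032, 81144) (by decide +kernel)
                (CovZ.n2 (85032, 81072) (by decide +kernel)
                 (CovZ.leaf K2_ok TI_l6331 _)
                 (CovZ.leaf K2_ok TI_l6332 _))
                (CovZ.leaf K2_ok TI_l6333 _))
               (CovZ.leaf K2_ok TI_l6334 _))
              (CovZ.n1 (85104, 81216) (by decide +kernel)
               (CovZ.leaf K2_ok TI_l6335 _)
               (CovZ.n1 (85032, 81144) (by decide +kernel)
                (CovZ.leaf K2_ok TI_l6336 _)
                (CovZ.leaf K2_ok TI_l6337 _))))
             (CovZ.n1 (84816, 81072) (by decide +kernel)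
              (CovZ.n2 (84816, 81216) (by decide +kernel)
               (CovZ.leaf K2_ok TI_l6338 _)
               (CovZ.n1 (84744, 81144) (by decide +kernel)
                (CovZ.leaf K2_ok TI_l6339 _)
                (CovZ.n1 (84816, 81144) (by decide +kernel)
                 (CovZ.leaf K2_ok TI_l6340 _)
                 (CovZ.leaf K2_ok TI_l6341 _))))
              (CovZ.n1 (84960, 81072) (by decide +kernel)
               (CovZ.n2 (84888, 81000) (by decide +kernel)
                (CovZ.leaf K2_ok TI_l6342 _)
                (CovZ.n1 (84960, 81000) (by decide +kernel)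
                 (CovZ.leaf K2_ok TI_l6343 _)
                 (CovZ.leaf K2_ok TI_l6344 _)))
               (CovZ.n1 (84888, 81144) (by decide +kernel)
                (CovZ.n2 (84960, 81144) (by decide +kernel)
                 (CovZ.leaf K2_ok TI_l6345 _)
                 (CovZ.leaf K2_ok TI_l6346 _))
                (CovZ.n1 (84888, 81072) (by decide +kernel)
                 (CovZ.leaf K2_ok TI_l6347 _)
                 (CovZ.leaf K2_ok TI_l6348 _))))))
            (CovZ.n1 (85248, 80928) (by decide +kernel)
             (CovZ.n2 (85104, 80784) (by decide +kernel)
              (CovZ.n2 (85104, 80928) (by decide +kernel)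
               (CovZ.n2 (85176, 80856) (by decide +kernel)
                (CovZ.n2 (85104, 80856) (by decide +kernel)
                 (CovZ.leaf K2_ok TI_l6349 _)
                 (CovZ.leaf K2_ok TI_l6350 _))
                (CovZ.leaf K2_ok TI_l6351 _))
               (CovZ.n1 (85032, 80856) (by decide +kernel)
                (CovZ.n2 (85032, 80928) (by decide +kernel)
                 (CovZ.leaf K2_ok TI_l6352 _)
                 (CovZ.leaf K2_ok TI_l6353 _))
                (CovZ.n1 (85104, 80856) (by decide +kernel)
                 (CovZ.n2 (85068, 80820) (by decide +kernel)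
                  (CovZ.leaf K2_ok TI_l6354 _)
                  (CovZ.leaf K2_ok TI_l6355 _))
                 (CovZ.leaf K2_ok TI_l6356 _))))
              (CovZ.n1 (85248, 80784) (by decide +kernel)
               (CovZ.n2 (85176, 80712) (by decide +kernel)
                (CovZ.n2 (85176, 80784) (by decide +kernel)
                 (CovZ.leaf K2_ok TI_l6357 _)
                 (CovZ.n1 (85140, 80748) (by decide +kernel)
                  (CovZ.leaf K2_ok TI_l6358 _)
                  (CovZ.leaf K2_ok TI_l6359 _)))
                (CovZ.n1 (85248, 80712) (by decide +kernel)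
                 (CovZ.n2 (85212, 80676) (by decide +kernel)
                  (CovZ.leaf K2_ok TI_l6360 _)
                  (CovZ.leaf K2_ok TI_l6361 _))
                 (CovZ.leaf K2_ok TI_l6362 _)))
               (CovZ.n1 (85176, 80856) (by decide +kernel)
                (CovZ.n2 (85248, 80856) (by decide +kernel)
                 (CovZ.leaf K2_ok TI_l6363 _)
                 (CovZ.leaf K2_ok TI_l6364 _))
                (CovZ.n1 (85176, 80784) (by decide +kernel)
                 (CovZ.leaf K2_ok TI_l6365 _)
                 (CovZ.leaf K2_ok TI_l6366 _)))))
             (CovZ.n1 (85104, 81072) (by decide +kernel)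
              (CovZ.n2 (85248, 81072) (by decide +kernel)
               (CovZ.n2 (85176, 81000) (by decide +kernel)
                (CovZ.leaf K2_ok TI_l6367 _)
                (CovZ.leaf K3_ok TI_l6368 _))
               (CovZ.n1 (85176, 81144) (by decide +kernel)
                (CovZ.n2 (85248, 81144) (by decide +kernel)
                 (CovZ.leaf K2_ok TI_l6369 _)
                 (CovZ.leaf K2_ok TI_l6370 _))
                (CovZ.n1 (85176, 81072) (by decide +kernel)
                 (CovZ.leaf K2_ok TI_l6371 _)
                 (CovZ.leaf K2_ok TI_l6372 _))))
              (CovZ.n1 (85104, 80928) (by decide +kernel)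
               (CovZ.n2 (85032, 81000) (by decide +kernel)
                (CovZ.n2 (85104, 81000) (by decide +kernel)
                 (CovZ.leaf K2_ok TI_l6373 _)
                 (CovZ.leaf K2_ok TI_l6374 _))
                (CovZ.n1 (85032, 80928) (by decide +kernel)
                 (CovZ.leaf K2_ok TI_l6375 _)
                 (CovZ.leaf K2_ok TI_l6376 _)))
               (CovZ.n1 (85176, 81000) (by decide +kernel)
                (CovZ.n2 (85176, 80928) (by decide +kernel)
                 (CovZ.leaf K2_ok TI_l6377 _)
                 (CovZ.leaf K2_ok TI_l6378 _))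
                (CovZ.leaf K3_ok TI_l6379 _))))))
           (CovZ.n1 (84960, 81504) (by decide +kernel)
            (CovZ.n2 (85248, 81504) (by decide +kernel)
             (CovZ.n2 (85104, 81360) (by decide +kernel)
              (CovZ.n2 (85104, 81504) (by decide +kernel)
               (CovZ.leaf K2_ok TI_l6380 _)
               (CovZ.n1 (85032, 81432) (by decide +kernel)
                (CovZ.leaf K2_ok TI_l6381 _)
                (CovZ.leaf K2_ok TI_l6382 _)))
              (CovZ.n1 (85248, 81360) (by decide +kernel)
               (CovZ.n2 (85176, 81288) (by decide +kernel)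
                (CovZ.leaf K2_ok TI_l6383 _)
                (CovZ.leaf K2_ok TI_l6384 _))
               (CovZ.leaf K2_ok TI_l6385 _)))
             (CovZ.n1 (85104, 81648) (by decide +kernel)
              (CovZ.n2 (85248, 81648) (by decide +kernel)
               (CovZ.leaf K2_ok TI_l6386 _)
               (CovZ.leaf K2_ok TI_l6387 _))
              (CovZ.n1 (85104, 81504) (by decide +kernel)
               (CovZ.leaf K2_ok TI_l6388 _)
               (CovZ.leaf K2_ok TI_l6389 _))))
            (CovZ.n1 (84960, 81216) (by decide +kernel)
             (CovZ.n2 (84816, 81360) (by decide +kernel)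
              (CovZ.n2 (84960, 81360) (by decide +kernel)
               (CovZ.n2 (84888, 81288) (by decide +kernel)
                (CovZ.leaf K2_ok TI_l6390 _)
                (CovZ.leaf K2_ok TI_l6391 _))
               (CovZ.n1 (84888, 81432) (by decide +kernel)
                (CovZ.leaf K2_ok TI_l6392 _)
                (CovZ.leaf K2_ok TI_l6393 _)))
              (CovZ.n1 (84816, 81216) (by decide +kernel)
               (CovZ.n2 (84744, 81288) (by decide +kernel)
                (CovZ.leaf K2_ok TI_l6394 _)
                (CovZ.n1 (84744, 81216) (by decide +kernel)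
                 (CovZ.leaf K2_ok TI_l6395 _)
                 (CovZ.leaf K2_ok TI_l6396 _)))
               (CovZ.n1 (84888, 81288) (by decide +kernel)
                (CovZ.n2 (84888, 81216) (by decide +kernel)
                 (CovZ.leaf K2_ok TI_l6397 _)
                 (CovZ.leaf K2_ok TI_l6398 _))
                (CovZ.leaf K2_ok TI_l6399 _))))
             (CovZ.n1 (85104, 81360) (by decide +kernel)
              (CovZ.n2 (85104, 81216) (by decide +kernel)
               (CovZ.n2 (85032, 81288) (by decide +kernel)
                (CovZ.leaf K2_ok TI_l6400 _)
                (CovZ.leaf K2_ok TI_l6401 _))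
               (CovZ.n1 (85176, 81288) (by decide +kernel)
                (CovZ.leaf K2_ok TI_l6402 _)
                (CovZ.leaf K2_ok TI_l6403 _)))
              (CovZ.n1 (84960, 81360) (by decide +kernel)
               (CovZ.n2 (85032, 81432) (by decide +kernel)
                (CovZ.leaf K2_ok TI_l6404 _)
                (CovZ.leaf K2_ok TI_l6405 _))
               (CovZ.leaf K2_ok TI_l6406 _))))))))

theorem TI_u73 : CovZ TI_M (toL (selN TI_LN 85102070347239291814967574718153101344)) [0, 7, 6, 1] (85248, 81792) (85248, 82944) (84096, 81792) :=
    (CovZ.n1 (84672, 82368) (by decide +kernel)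
         (CovZ.subM 316912952293123944447943508000 (by decide +kernel)
          (CovZ.n2 (85248, 82368) (by decide +kernel)
           (CovZ.n2 (84960, 82080) (by decide +kernel)
            (CovZ.n2 (84960, 82368) (by decide +kernel)
             (CovZ.leaf K2_ok TI_l6407 _)
             (CovZ.n1 (84816, 82224) (by decide +kernel)
              (CovZ.leaf K2_ok TI_l6408 _)
              (CovZ.leaf K2_ok TI_l6409 _)))
            (CovZ.n1 (85248, 82080) (by decide +kernel)
             (CovZ.n2 (85104, 81936) (by decide +kernel)
              (CovZ.leaf K2_ok TI_l6410 _)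
              (CovZ.n1 (85248, 81936) (by decide +kernel)
               (CovZ.leaf K2_ok TI_l6411 _)
               (CovZ.leaf K2_ok TI_l6412 _)))
             (CovZ.n1 (85104, 82224) (by decide +kernel)
              (CovZ.leaf K2_ok TI_l6413 _)
              (CovZ.leaf K2_ok TI_l6414 _))))
           (CovZ.n1 (84960, 82656) (by decide +kernel)
            (CovZ.n2 (85248, 82656) (by decide +kernel)
             (CovZ.n2 (85104, 82512) (by decide +kernel)
              (CovZ.leaf K2_ok TI_l6415 _)
              (CovZ.leaf K2_ok TI_l6416 _))
             (CovZ.leaf K3_ok TI_l6417 _))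
            (CovZ.n1 (84960, 82368) (by decide +kernel)
             (CovZ.n2 (84816, 82512) (by decide +kernel)
              (CovZ.leaf K3_ok TI_l6418 _)
              (CovZ.leaf K2_ok TI_l6419 _))
             (CovZ.n1 (85104, 82512) (by decide +kernel)
              (CovZ.leaf K3_ok TI_l6420 _)
              (CovZ.leaf K2_ok TI_l6421 _))))))
         (CovZ.n1 (84672, 81792) (by decide +kernel)
          (CovZ.n2 (84384, 82080) (by decide +kernel)
           (CovZ.subM 324835543981972306063871145279520 (by decide +kernel)
            (CovZ.n2 (84672, 82080) (by decide +kernel)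
             (CovZ.n2 (84528, 81936) (by decide +kernel)
              (CovZ.leaf K2_ok TI_l6422 _)
              (CovZ.n1 (84672, 81936) (by decide +kernel)
               (CovZ.leaf K3_ok TI_l6423 _)
               (CovZ.leaf K2_ok TI_l6424 _)))
             (CovZ.n1 (84528, 82224) (by decide +kernel)
              (CovZ.leaf K2_ok TI_l6425 _)
              (CovZ.n1 (84528, 82080) (by decide +kernel)
               (CovZ.leaf K2_ok TI_l6426 _)
               (CovZ.leaf K2_ok TI_l6427 _)))))
           (CovZ.n1 (84384, 81792) (by decide +kernel)
            (CovZ.n2 (84240, 81936) (by decide +kernel)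
             (CovZ.n2 (84384, 81936) (by decide +kernel)
              (CovZ.n2 (84312, 81864) (by decide +kernel)
               (CovZ.leaf K3_ok TI_l6428 _)
               (CovZ.leaf K2_ok TI_l6429 _))
              (CovZ.leaf K3_ok TI_l6430 _))
             (CovZ.n1 (84240, 81792) (by decide +kernel)
              (CovZ.leaf K2_ok TI_l6431 _)
              (CovZ.n1 (84312, 81864) (by decide +kernel)
               (CovZ.leaf K2_ok TI_l6432 _)
               (CovZ.leaf K3_ok TI_l6433 _))))
            (CovZ.n1 (84528, 81936) (by decide +kernel)
             (CovZ.n2 (84528, 81792) (by decide +kernel)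
              (CovZ.leaf K2_ok TI_l6434 _)
              (CovZ.leaf K3_ok TI_l6435 _))
             (CovZ.leaf K3_ok TI_l6436 _))))
          (CovZ.subM 316912952293123944447943508000 (by decide +kernel)
           (CovZ.n1 (84960, 82080) (by decide +kernel)
            (CovZ.n2 (84960, 81792) (by decide +kernel)
             (CovZ.n2 (84816, 81936) (by decide +kernel)
              (CovZ.n2 (84960, 81936) (by decide +kernel)
               (CovZ.leaf K2_ok TI_l6437 _)
               (CovZ.leaf K2_ok TI_l6438 _))
              (CovZ.n1 (84816, 81792) (by decide +kernel)
               (CovZ.leaf K3_ok TI_l6439 _)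
               (CovZ.leaf K2_ok TI_l6440 _)))
             (CovZ.n1 (85104, 81936) (by decide +kernel)
              (CovZ.n2 (85104, 81792) (by decide +kernel)
               (CovZ.leaf K2_ok TI_l6441 _)
               (CovZ.leaf K2_ok TI_l6442 _))
              (CovZ.leaf K2_ok TI_l6443 _)))
            (CovZ.n1 (84672, 82080) (by decide +kernel)
             (CovZ.n2 (84816, 82224) (by decide +kernel)
              (CovZ.n2 (84816, 82080) (by decide +kernel)
               (CovZ.leaf K3_ok TI_l6444 _)
               (CovZ.leaf K2_ok TI_l6445 _))
              (CovZ.leaf K2_ok TI_l6446 _))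
             (CovZ.leaf K3_ok TI_l6447 _))))))

theorem TI_u74 : CovZ TI_M (toL (selN TI_LN 252653344896173386238319617235132742157746462431423060119969)) [0, 7, 6, 1] (87552, 82944) (85248, 82944) (85248, 80640) :=
    (CovZ.subM 316912952293123944447943507968 (by decide +kernel)
      (CovZ.n2 (86400, 81792) (by decide +kernel)
       (CovZ.n2 (85248, 81792) (by decide +kernel)
        (CovZ.n2 (85824, 82368) (by decide +kernel)
         (CovZ.n2 (85824, 81792) (by decide +kernel)
          (CovZ.n2 (85536, 82080) (by decide +kernel)
           (CovZ.n2 (85824, 82080) (by decide +kernel)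
            (CovZ.n2 (85680, 81936) (by decide +kernel)
             (CovZ.leaf K2_ok TI_l6114 _)
             (CovZ.leaf K2_ok TI_l6115 _))
            (CovZ.n1 (85680, 82224) (by decide +kernel)
             (CovZ.leaf K2_ok TI_l6116 _)
             (CovZ.leaf K2_ok TI_l6117 _)))
           (CovZ.n1 (85536, 81792) (by decide +kernel)
            (CovZ.n2 (85392, 81936) (by decide +kernel)
             (CovZ.leaf K2_ok TI_l6118 _)
             (CovZ.n1 (85392, 81792) (by decide +kernel)
              (CovZ.leaf K2_ok TI_l6119 _)
              (CovZ.leaf K2_ok TI_l6120 _)))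
            (CovZ.n1 (85680, 81936) (by decide +kernel)
             (CovZ.leaf K2_ok TI_l6121 _)
             (CovZ.leaf K2_ok TI_l6122 _))))
          (CovZ.n1 (86112, 82080) (by decide +kernel)
           (CovZ.n2 (86112, 81792) (by decide +kernel)
            (CovZ.n2 (85968, 81936) (by decide +kernel)
             (CovZ.leaf K2_ok TI_l6123 _)
             (CovZ.leaf K2_ok TI_l6124 _))
            (CovZ.n1 (86256, 81936) (by decide +kernel)
             (CovZ.leaf K2_ok TI_l6125 _)
             (CovZ.leaf K2_ok TI_l6126 _)))
           (CovZ.n1 (85824, 82080) (by decide +kernel)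
            (CovZ.leaf K2_ok TI_l6127 _)
            (CovZ.leaf K2_ok TI_l6128 _))))
         (CovZ.n1 (85248, 82368) (by decide +kernel)
          (CovZ.n2 (85536, 82656) (by decide +kernel)
           (CovZ.n2 (85536, 82368) (by decide +kernel)
            (CovZ.n2 (85392, 82512) (by decide +kernel)
             (CovZ.leaf K3_ok TI_l6129 _)
             (CovZ.leaf K2_ok TI_l6130 _))
            (CovZ.leaf K2_ok TI_l6131 _))
           (CovZ.leaf K3_ok TI_l6132 _))
          (CovZ.n1 (85536, 82080) (by decide +kernel)
           (CovZ.n2 (85248, 82080) (by decide +kernel)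
            (CovZ.n2 (85392, 82224) (by decide +kernel)
             (CovZ.leaf K2_ok TI_l6133 _)
             (CovZ.leaf K2_ok TI_l6134 _))
            (CovZ.leaf K2_ok TI_l6135 _))
           (CovZ.n1 (85536, 82368) (by decide +kernel)
            (CovZ.leaf K2_ok TI_l6136 _)
            (CovZ.n1 (85392, 82224) (by decide +kernel)
             (CovZ.leaf K3_ok TI_l6137 _)
             (CovZ.leaf K2_ok TI_l6138 _))))))
        (CovZ.n1 (85824, 81216) (by decide +kernel)
         (CovZ.n2 (85248, 81216) (by decide +kernel)
          (CovZ.n2 (85536, 81504) (by decide +kernel)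
           (CovZ.n2 (85536, 81216) (by decide +kernel)
            (CovZ.n2 (85392, 81360) (by decide +kernel)
             (CovZ.n2 (85536, 81360) (by decide +kernel)
              (CovZ.leaf K2_ok TI_l6139 _)
              (CovZ.leaf K2_ok TI_l6140 _))
             (CovZ.n1 (85392, 81216) (by decide +kernel)
              (CovZ.n2 (85320, 81288) (by decide +kernel)
               (CovZ.leaf K2_ok TI_l6141 _)
               (CovZ.leaf K2_ok TI_l6142 _))
              (CovZ.leaf K2_ok TI_l6143 _)))
            (CovZ.n1 (85680, 81360) (by decide +kernel)
             (CovZ.n2 (85680, 81216) (by decide +kernel)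
              (CovZ.leaf K2_ok TI_l6144 _)
              (CovZ.leaf K2_ok TI_l6145 _))
             (CovZ.leaf K2_ok TI_l6146 _)))
           (CovZ.n1 (85248, 81504) (by decide +kernel)
            (CovZ.n2 (85392, 81648) (by decide +kernel)
             (CovZ.n2 (85392, 81504) (by decide +kernel)
              (CovZ.leaf K2_ok TI_l6147 _)
              (CovZ.leaf K2_ok TI_l6148 _))
             (CovZ.leaf K2_ok TI_l6149 _))
            (CovZ.n1 (85392, 81360) (by decide +kernel)
             (CovZ.leaf K2_ok TI_l6150 _)
             (CovZ.n1 (85392, 81504) (by decide +kernel)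
              (CovZ.leaf K2_ok TI_l6151 _)
              (CovZ.leaf K2_ok TI_l6152 _)))))
          (CovZ.n1 (85536, 80928) (by decide +kernel)
           (CovZ.n2 (85248, 80928) (by decide +kernel)
            (CovZ.n2 (85392, 81072) (by decide +kernel)
             (CovZ.n2 (85392, 80928) (by decide +kernel)
              (CovZ.n2 (85320, 81000) (by decide +kernel)
               (CovZ.leaf K2_ok TI_l6153 _)
               (CovZ.n1 (85320, 80928) (by decide +kernel)
                (CovZ.leaf K2_ok TI_l6154 _)
                (CovZ.leaf K2_ok TI_l6155 _)))
              (CovZ.n1 (85464, 81000) (by decide +kernel)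
               (CovZ.n2 (85464, 80928) (by decide +kernel)
                (CovZ.leaf K2_ok TI_l6156 _)
                (CovZ.leaf K2_ok TI_l6157 _))
               (CovZ.leaf K2_ok TI_l6158 _)))
             (CovZ.n1 (85248, 81072) (by decide +kernel)
              (CovZ.n2 (85320, 81144) (by decide +kernel)
               (CovZ.leaf K2_ok TI_l6159 _)
               (CovZ.leaf K2_ok TI_l6160 _))
              (CovZ.leaf K2_ok TI_l6161 _)))
            (CovZ.n1 (85392, 80784) (by decide +kernel)
             (CovZ.n2 (85248, 80784) (by decide +kernel)
              (CovZ.n2 (85320, 80856) (by decide +kernel)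
               (CovZ.n2 (85320, 80784) (by decide +kernel)
                (CovZ.leaf K2_ok TI_l6162 _)
                (CovZ.leaf K2_ok TI_l6163 _))
               (CovZ.leaf K3_ok TI_l6164 _))
              (CovZ.n1 (85320, 80712) (by decide +kernel)
               (CovZ.n2 (85248, 80712) (by decide +kernel)
                (CovZ.n2 (85284, 80748) (by decide +kernel)
                 (CovZ.leaf K2_ok TI_l6165 _)
                 (CovZ.leaf K2_ok TI_l6166 _))
                (CovZ.leaf K2_ok TI_l6167 _))
               (CovZ.n1 (85320, 80784) (by decide +kernel)
                (CovZ.leaf K2_ok TI_l6168 _)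
                (CovZ.n1 (85284, 80748) (by decide +kernel)
                 (CovZ.leaf K2_ok TI_l6169 _)
                 (CovZ.leaf K2_ok TI_l6170 _)))))
             (CovZ.n1 (85392, 80928) (by decide +kernel)
              (CovZ.leaf K2_ok TI_l6171 _)
              (CovZ.n1 (85320, 80856) (by decide +kernel)
               (CovZ.leaf K3_ok TI_l6172 _)
               (CovZ.n1 (85392, 80856) (by decide +kernel)
                (CovZ.leaf K2_ok TI_l6173 _)
                (CovZ.leaf K2_ok TI_l6174 _))))))
           (CovZ.n1 (85536, 81216) (by decide +kernel)
            (CovZ.n2 (85680, 81072) (by decide +kernel)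
             (CovZ.n2 (85536, 81072) (by decide +kernel)
              (CovZ.n2 (85608, 81144) (by decide +kernel)
               (CovZ.leaf K2_ok TI_l6175 _)
               (CovZ.leaf K2_ok TI_l6176 _))
              (CovZ.leaf K2_ok TI_l6177 _))
             (CovZ.n1 (85680, 81216) (by decide +kernel)
              (CovZ.leaf K2_ok TI_l6178 _)
              (CovZ.n1 (85608, 81144) (by decide +kernel)
               (CovZ.leaf K2_ok TI_l6179 _)
               (CovZ.leaf K2_ok TI_l6180 _))))
            (CovZ.n1 (85392, 81072) (by decide +kernel)
             (CovZ.n2 (85392, 81216) (by decide +kernel)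
              (CovZ.leaf K2_ok TI_l6181 _)
              (CovZ.n1 (85320, 81144) (by decide +kernel)
               (CovZ.leaf K2_ok TI_l6182 _)
               (CovZ.leaf K2_ok TI_l6183 _)))
             (CovZ.n1 (85536, 81072) (by decide +kernel)
              (CovZ.n2 (85464, 81000) (by decide +kernel)
               (CovZ.leaf K2_ok TI_l6184 _)
               (CovZ.leaf K2_ok TI_l6185 _))
              (CovZ.n1 (85464, 81144) (by decide +kernel)
               (CovZ.leaf K2_ok TI_l6186 _)
               (CovZ.leaf K2_ok TI_l6187 _)))))))
         (CovZ.n1 (85824, 81792) (by decide +kernel)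
          (CovZ.n2 (86112, 81504) (by decide +kernel)
           (CovZ.n2 (85824, 81504) (by decide +kernel)
            (CovZ.n2 (85968, 81648) (by decide +kernel)
             (CovZ.n2 (85968, 81504) (by decide +kernel)
              (CovZ.leaf K2_ok TI_l6188 _)
              (CovZ.leaf K2_ok TI_l6189 _))
             (CovZ.leaf K2_ok TI_l6190 _))
            (CovZ.leaf K2_ok TI_l6191 _))
           (CovZ.n1 (86112, 81792) (by decide +kernel)
            (CovZ.leaf K2_ok TI_l6192 _)
            (CovZ.n1 (85968, 81648) (by decide +kernel)
             (CovZ.leaf K2_ok TI_l6193 _)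
             (CovZ.leaf K2_ok TI_l6194 _))))
          (CovZ.n1 (85536, 81504) (by decide +kernel)
           (CovZ.n2 (85536, 81792) (by decide +kernel)
            (CovZ.leaf K2_ok TI_l6195 _)
            (CovZ.n1 (85392, 81648) (by decide +kernel)
             (CovZ.leaf K2_ok TI_l6196 _)
             (CovZ.n1 (85536, 81648) (by decide +kernel)
              (CovZ.leaf K2_ok TI_l6197 _)
              (CovZ.leaf K2_ok TI_l6198 _))))
           (CovZ.n1 (85824, 81504) (by decide +kernel)
            (CovZ.n2 (85680, 81360) (by decide +kernel)
             (CovZ.leaf K2_ok TI_l6199 _)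
             (CovZ.n1 (85824, 81360) (by decide +kernel)
              (CovZ.leaf K2_ok TI_l6200 _)
              (CovZ.leaf K2_ok TI_l6201 _)))
            (CovZ.n1 (85680, 81648) (by decide +kernel)
             (CovZ.leaf K2_ok TI_l6202 _)
             (CovZ.n1 (85680, 81504) (by decide +kernel)
              (CovZ.leaf K2_ok TI_l6203 _)
              (CovZ.leaf K2_ok TI_l6204 _))))))))
       (CovZ.n1 (86400, 82944) (by decide +kernel)
        (CovZ.n2 (86976, 82368) (by decide +kernel)
         (CovZ.n2 (86400, 82368) (by decide +kernel)
          (CovZ.n2 (86688, 82656) (by decide +kernel)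
           (CovZ.n2 (86688, 82368) (by decide +kernel)
            (CovZ.leaf K2_ok TI_l6205 _)
            (CovZ.badM (by decide +kernel)))
           (CovZ.leaf K2_ok TI_l6206 _))
          (CovZ.leaf K2_ok TI_l6207 _))
         (CovZ.n1 (86976, 82944) (by decide +kernel)
          (CovZ.badM (by decide +kernel))
          (CovZ.n1 (86688, 82656) (by decide +kernel)
           (CovZ.leaf K2_ok TI_l6208 _)
           (CovZ.badM (by decide +kernel)))))
        (CovZ.n1 (85824, 82368) (by decide +kernel)
         (CovZ.n2 (85824, 82944) (by decide +kernel)
          (CovZ.leaf K2_ok TI_l6209 _)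
          (CovZ.n1 (85536, 82656) (by decide +kernel)
           (CovZ.leaf K3_ok TI_l6210 _)
           (CovZ.n1 (85824, 82656) (by decide +kernel)
            (CovZ.n2 (85680, 82512) (by decide +kernel)
             (CovZ.leaf K3_ok TI_l6211 _)
             (CovZ.leaf K3_ok TI_l6212 _))
            (CovZ.leaf K2_ok TI_l6213 _))))
         (CovZ.n1 (86400, 82368) (by decide +kernel)
          (CovZ.n2 (86112, 82080) (by decide +kernel)
           (CovZ.n2 (86112, 82368) (by decide +kernel)
            (CovZ.leaf K2_ok TI_l6214 _)
            (CovZ.leaf K2_ok TI_l6215 _))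
           (CovZ.n1 (86400, 82080) (by decide +kernel)
            (CovZ.n2 (86256, 81936) (by decide +kernel)
             (CovZ.leaf K2_ok TI_l6216 _)
             (CovZ.leaf K2_ok TI_l6217 _))
            (CovZ.leaf K2_ok TI_l6218 _)))
          (CovZ.n1 (86112, 82656) (by decide +kernel)
           (CovZ.n2 (86400, 82656) (by decide +kernel)
            (CovZ.leaf K2_ok TI_l6219 _)
            (CovZ.leaf K2_ok TI_l6220 _))
           (CovZ.n1 (86112, 82368) (by decide +kernel)
            (CovZ.leaf K2_ok TI_l6221 _)
            (CovZ.leaf K2_ok TI_l6222 _))))))))

theorem TI_u75 : CovZ TI_M (toL (selN TI_LN 252653344896173386238319617235132742157746462431423060119969)) [0, 7, 6, 1] (85248, 82944) (82944, 82944) (85248, 80640) :=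
    (CovZ.n1 (84096, 81792) (by decide +kernel)
      (CovZ.n2 (84096, 82944) (by decide +kernel)
       (CovZ.subM 85102070347239291814967574718153101344 (by decide +kernel)
        (CovZ.n2 (84672, 82368) (by decide +kernel)
         (CovZ.n2 (84096, 82368) (by decide +kernel)
          (CovZ.n2 (84384, 82656) (by decide +kernel)
           (CovZ.n2 (84384, 82368) (by decide +kernel)
            (CovZ.n2 (84240, 82512) (by decide +kernel)
             (CovZ.leaf K2_ok TI_l6223 _)
             (CovZ.leaf K2_ok TI_l6224 _))
            (CovZ.n1 (84528, 82512) (by decide +kernel)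
             (CovZ.leaf K2_ok TI_l6225 _)
             (CovZ.leaf K2_ok TI_l6226 _)))
           (CovZ.n1 (84096, 82656) (by decide +kernel)
            (CovZ.n2 (84240, 82800) (by decide +kernel)
             (CovZ.leaf K3_ok TI_l6227 _)
             (CovZ.leaf K2_ok TI_l6228 _))
            (CovZ.leaf K2_ok TI_l6229 _)))
          (CovZ.n1 (84384, 82080) (by decide +kernel)
           (CovZ.n2 (84096, 82080) (by decide +kernel)
            (CovZ.n2 (84240, 82224) (by decide +kernel)
             (CovZ.n2 (84240, 82080) (by decide +kernel)
              (CovZ.leaf K2_ok TI_l6230 _)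
              (CovZ.leaf K2_ok TI_l6231 _))
             (CovZ.leaf K2_ok TI_l6232 _))
            (CovZ.leaf K3_ok TI_l6233 _))
           (CovZ.n1 (84384, 82368) (by decide +kernel)
            (CovZ.leaf K3_ok TI_l6234 _)
            (CovZ.n1 (84240, 82224) (by decide +kernel)
             (CovZ.leaf K2_ok TI_l6235 _)
             (CovZ.n1 (84384, 82224) (by decide +kernel)
              (CovZ.leaf K2_ok TI_l6236 _)
              (CovZ.leaf K2_ok TI_l6237 _))))))
         (CovZ.n1 (84672, 82944) (by decide +kernel)
          (CovZ.n2 (84960, 82656) (by decide +kernel)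
           (CovZ.leaf K2_ok TI_l6238 _)
           (CovZ.n1 (84960, 82944) (by decide +kernel)
            (CovZ.leaf K2_ok TI_l6239 _)
            (CovZ.leaf K2_ok TI_l6240 _)))
          (CovZ.n1 (84384, 82656) (by decide +kernel)
           (CovZ.n2 (84384, 82944) (by decide +kernel)
            (CovZ.leaf K2_ok TI_l6241 _)
            (CovZ.n1 (84240, 82800) (by decide +kernel)
             (CovZ.leaf K2_ok TI_l6242 _)
             (CovZ.leaf K2_ok TI_l6243 _)))
           (CovZ.n1 (84672, 82656) (by decide +kernel)
            (CovZ.n2 (84528, 82512) (by decide +kernel)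
             (CovZ.leaf K2_ok TI_l6244 _)
             (CovZ.leaf K2_ok TI_l6245 _))
            (CovZ.leaf K2_ok TI_l6246 _))))))
       (CovZ.n1 (83520, 82368) (by decide +kernel)
        (CovZ.n2 (83520, 82944) (by decide +kernel)
         (CovZ.subM 43643240196577702930847442747456080711968 (by decide +kernel)
          (CovZ.n2 (83808, 82656) (by decide +kernel)
           (CovZ.n2 (83520, 82656) (by decide +kernel)
            (CovZ.n2 (83664, 82800) (by decide +kernel)
             (CovZ.leaf K3_ok TI_l6247 _)
             (CovZ.leaf K3_ok TI_l6248 _))
            (CovZ.leaf K2_ok TI_l6249 _))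
           (CovZ.n1 (83808, 82944) (by decide +kernel)
            (CovZ.leaf K2_ok TI_l6250 _)
            (CovZ.n1 (83664, 82800) (by decide +kernel)
             (CovZ.leaf K3_ok TI_l6251 _)
             (CovZ.leaf K2_ok TI_l6252 _)))))
         (CovZ.n1 (83232, 82656) (by decide +kernel)
          (CovZ.n2 (83232, 82944) (by decide +kernel)
           (CovZ.leaf K3_ok TI_l6253 _)
           (CovZ.n1 (83088, 82800) (by decide +kernel)
            (CovZ.leaf K3_ok TI_l6254 _)
            (CovZ.n1 (83232, 82800) (by decide +kernel)
             (CovZ.leaf K3_ok TI_l6255 _)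
             (CovZ.leaf K3_ok TI_l6256 _))))
          (CovZ.n1 (83520, 82656) (by decide +kernel)
           (CovZ.n2 (83376, 82512) (by decide +kernel)
            (CovZ.leaf K3_ok TI_l6257 _)
            (CovZ.n1 (83520, 82512) (by decide +kernel)
             (CovZ.leaf K2_ok TI_l6258 _)
             (CovZ.leaf K2_ok TI_l6259 _)))
           (CovZ.n1 (83376, 82800) (by decide +kernel)
            (CovZ.leaf K3_ok TI_l6260 _)
            (CovZ.n1 (83376, 82656) (by decide +kernel)
             (CovZ.leaf K3_ok TI_l6261 _)
             (CovZ.leaf K3_ok TI_l6262 _))))))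
        (CovZ.subM 43643240196577702930847442747456080711968 (by decide +kernel)
         (CovZ.n1 (84096, 82368) (by decide +kernel)
          (CovZ.n2 (83808, 82080) (by decide +kernel)
           (CovZ.n2 (83808, 82368) (by decide +kernel)
            (CovZ.leaf K3_ok TI_l6263 _)
            (CovZ.n1 (83664, 82224) (by decide +kernel)
             (CovZ.leaf K2_ok TI_l6264 _)
             (CovZ.n1 (83808, 82224) (by decide +kernel)
              (CovZ.leaf K2_ok TI_l6265 _)
              (CovZ.leaf K3_ok TI_l6266 _))))
           (CovZ.n1 (84096, 82080) (by decide +kernel)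
            (CovZ.n2 (83952, 81936) (by decide +kernel)
             (CovZ.n2 (83952, 82080) (by decide +kernel)
              (CovZ.leaf K3_ok TI_l6267 _)
              (CovZ.n1 (83880, 82008) (by decide +kernel)
               (CovZ.leaf K3_ok TI_l6268 _)
               (CovZ.leaf K2_ok TI_l6269 _)))
             (CovZ.n1 (84096, 81936) (by decide +kernel)
              (CovZ.n2 (84024, 81864) (by decide +kernel)
               (CovZ.leaf K2_ok TI_l6270 _)
               (CovZ.leaf K2_ok TI_l6271 _))
              (CovZ.leaf K2_ok TI_l6272 _)))
            (CovZ.n1 (83952, 82224) (by decide +kernel)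
             (CovZ.n2 (84096, 82224) (by decide +kernel)
              (CovZ.leaf K3_ok TI_l6273 _)
              (CovZ.leaf K2_ok TI_l6274 _))
             (CovZ.n1 (83952, 82080) (by decide +kernel)
              (CovZ.leaf K3_ok TI_l6275 _)
              (CovZ.leaf K3_ok TI_l6276 _)))))
          (CovZ.n1 (83808, 82656) (by decide +kernel)
           (CovZ.n2 (84096, 82656) (by decide +kernel)
            (CovZ.n2 (83952, 82512) (by decide +kernel)
             (CovZ.leaf K3_ok TI_l6277 _)
             (CovZ.leaf K3_ok TI_l6278 _))
            (CovZ.n1 (83952, 82800) (by decide +kernel)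
             (CovZ.leaf K3_ok TI_l6279 _)
             (CovZ.leaf K2_ok TI_l6280 _)))
           (CovZ.n1 (83808, 82368) (by decide +kernel)
            (CovZ.n2 (83664, 82512) (by decide +kernel)
             (CovZ.n2 (83808, 82512) (by decide +kernel)
              (CovZ.leaf K3_ok TI_l6281 _)
              (CovZ.leaf K3_ok TI_l6282 _))
             (CovZ.n1 (83664, 82368) (by decide +kernel)
              (CovZ.leaf K3_ok TI_l6283 _)
              (CovZ.leaf K2_ok TI_l6284 _)))
            (CovZ.n1 (83952, 82512) (by decide +kernel)
             (CovZ.n2 (83952, 82368) (by decide +kernel)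
              (CovZ.leaf K3_ok TI_l6285 _)
              (CovZ.leaf K2_ok TI_l6286 _))
             (CovZ.leaf K3_ok TI_l6287 _))))))))
      (CovZ.subM 85102070347239291814967574718153101344 (by decide +kernel)
       (CovZ.n1 (85248, 81792) (by decide +kernel)
        TI_u72
        TI_u73)))

theorem TI_u76 : CovZ TI_M (toL (selN TI_LN 425467229915549916608297104178858165252)) [0, 7, 6, 1] (80640, 82944) (80064, 83520) (79488, 82944) :=
    (CovZ.n2 (80064, 82944) (by decide +kernel)
          (CovZ.subM 425436035559366113674761566079894421504 (by decide +kernel)
           (CovZ.n2 (79776, 83232) (by decide +kernel)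
            (CovZ.n2 (80064, 83232) (by decide +kernel)
             (CovZ.n2 (79920, 83088) (by decide +kernel)
              (CovZ.n2 (79920, 83232) (by decide +kernel)
               (CovZ.leaf K2_ok TI_l3438 _)
               (CovZ.n1 (79848, 83160) (by decide +kernel)
                (CovZ.n2 (79848, 83232) (by decide +kernel)
                 (CovZ.leaf K2_ok TI_l3439 _)
                 (CovZ.leaf K2_ok TI_l3440 _))
                (CovZ.n1 (79920, 83160) (by decide +kernel)
                 (CovZ.n2 (79884, 83124) (by decide +kernel)
                  (CovZ.leaf K2_ok TI_l3441 _)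
                  (CovZ.leaf K2_ok TI_l3442 _))
                 (CovZ.leaf K2_ok TI_l3443 _))))
              (CovZ.n1 (80064, 83088) (by decide +kernel)
               (CovZ.n2 (79992, 83016) (by decide +kernel)
                (CovZ.n2 (79992, 83088) (by decide +kernel)
                 (CovZ.leaf K2_ok TI_l3444 _)
                 (CovZ.n1 (79956, 83052) (by decide +kernel)
                  (CovZ.leaf K2_ok TI_l3445 _)
                  (CovZ.leaf K2_ok TI_l3446 _)))
                (CovZ.n1 (80064, 83016) (by decide +kernel)
                 (CovZ.n2 (80028, 82980) (by decide +kernel)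
                  (CovZ.leaf K2_ok TI_l3447 _)
                  (CovZ.n1 (80064, 82980) (by decide +kernel)
                   (CovZ.leaf K2_ok TI_l3448 _)
                   (CovZ.leaf K2_ok TI_l3449 _)))
                 (CovZ.n1 (80028, 83052) (by decide +kernel)
                  (CovZ.leaf K2_ok TI_l3450 _)
                  (CovZ.leaf K2_ok TI_l3451 _))))
               (CovZ.n1 (79992, 83160) (by decide +kernel)
                (CovZ.n2 (80064, 83160) (by decide +kernel)
                 (CovZ.leaf K2_ok TI_l3452 _)
                 (CovZ.leaf K2_ok TI_l3453 _))
                (CovZ.n1 (79992, 83088) (by decide +kernel)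
                 (CovZ.n2 (79956, 83124) (by decide +kernel)
                  (CovZ.leaf K2_ok TI_l3454 _)
                  (CovZ.leaf K2_ok TI_l3455 _))
                 (CovZ.leaf K2_ok TI_l3456 _)))))
             (CovZ.n1 (79920, 83376) (by decide +kernel)
              (CovZ.n2 (80064, 83376) (by decide +kernel)
               (CovZ.n2 (79992, 83304) (by decide +kernel)
                (CovZ.leaf K2_ok TI_l3457 _)
                (CovZ.leaf K2_ok TI_l3458 _))
               (CovZ.n1 (79992, 83448) (by decide +kernel)
                (CovZ.leaf K2_ok TI_l3459 _)
                (CovZ.leaf K2_ok TI_l3460 _)))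
              (CovZ.n1 (79920, 83232) (by decide +kernel)
               (CovZ.n2 (79848, 83304) (by decide +kernel)
                (CovZ.n2 (79920, 83304) (by decide +kernel)
                 (CovZ.leaf K2_ok TI_l3461 _)
                 (CovZ.leaf K2_ok TI_l3462 _))
                (CovZ.n1 (79848, 83232) (by decide +kernel)
                 (CovZ.leaf K2_ok TI_l3463 _)
                 (CovZ.leaf K2_ok TI_l3464 _)))
               (CovZ.n1 (79992, 83304) (by decide +kernel)
                (CovZ.n2 (79992, 83232) (by decide +kernel)
                 (CovZ.leaf K2_ok TI_l3465 _)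
                 (CovZ.leaf K2_ok TI_l3466 _))
                (CovZ.leaf K2_ok TI_l3467 _)))))
            (CovZ.subM 83076908192882344372139423478841344 (by decide +kernel)
             (CovZ.n1 (79776, 82944) (by decide +kernel)
              (CovZ.n2 (79632, 83088) (by decide +kernel)
               (CovZ.n2 (79776, 83088) (by decide +kernel)
                (CovZ.badM (by decide +kernel))
                (CovZ.n1 (79704, 83160) (by decide +kernel)
                 (CovZ.n2 (79776, 83160) (by decide +kernel)
                  (CovZ.badM (by decide +kernel))
                  (CovZ.n1 (79740, 83196) (by decide +kernel)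
                   (CovZ.leaf K2_ok TI_l3468 _)
                   (CovZ.badM (by decide +kernel))))
                 (CovZ.badM (by decide +kernel))))
               (CovZ.badM (by decide +kernel)))
              (CovZ.n1 (79920, 83088) (by decide +kernel)
               (CovZ.n2 (79920, 82944) (by decide +kernel)
                (CovZ.n2 (79848, 83016) (by decide +kernel)
                 (CovZ.n2 (79920, 83016) (by decide +kernel)
                  (CovZ.n2 (79884, 82980) (by decide +kernel)
                   (CovZ.leaf K2_ok TI_l3469 _)
                   (CovZ.n1 (79920, 82980) (by decide +kernel)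
                    (CovZ.badM (by decide +kernel))
                    (CovZ.leaf K2_ok TI_l3470 _)))
                  (CovZ.n1 (79884, 83052) (by decide +kernel)
                   (CovZ.n2 (79920, 83052) (by decide +kernel)
                    (CovZ.leaf K2_ok TI_l3471 _)
                    (CovZ.leaf K2_ok TI_l3472 _))
                   (CovZ.n1 (79884, 83016) (by decide +kernel)
                    (CovZ.leaf K2_ok TI_l3473 _)
                    (CovZ.leaf K2_ok TI_l3474 _))))
                 (CovZ.badM (by decide +kernel)))
                (CovZ.n1 (79992, 83016) (by decide +kernel)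
                 (CovZ.n2 (79992, 82944) (by decide +kernel)
                  (CovZ.n2 (79956, 82980) (by decide +kernel)
                   (CovZ.n2 (79992, 82980) (by decide +kernel)
                    (CovZ.badM (by decide +kernel))
                    (CovZ.leaf K2_ok TI_l3475 _))
                   (CovZ.badM (by decide +kernel)))
                  (CovZ.n1 (80028, 82980) (by decide +kernel)
                   (CovZ.n2 (80028, 82944) (by decide +kernel)
                    (CovZ.leaf K2_ok TI_l3476 _)
                    (CovZ.leaf K2_ok TI_l3477 _))
                   (CovZ.leaf K2_ok TI_l3478 _)))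
                 (CovZ.n1 (79920, 83016) (by decide +kernel)
                  (CovZ.n2 (79956, 83052) (by decide +kernel)
                   (CovZ.n2 (79956, 83016) (by decide +kernel)
                    (CovZ.leaf K2_ok TI_l3479 _)
                    (CovZ.leaf K2_ok TI_l3480 _))
                   (CovZ.leaf K2_ok TI_l3481 _))
                  (CovZ.leaf K2_ok TI_l3482 _))))
               (CovZ.n1 (79776, 83088) (by decide +kernel)
                (CovZ.n2 (79848, 83160) (by decide +kernel)
                 (CovZ.n2 (79848, 83088) (by decide +kernel)
                  (CovZ.n2 (79812, 83124) (by decide +kernel)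
                   (CovZ.leaf K2_ok TI_l3483 _)
                   (CovZ.badM (by decide +kernel)))
                  (CovZ.n1 (79884, 83124) (by decide +kernel)
                   (CovZ.n2 (79884, 83088) (by decide +kernel)
                    (CovZ.leaf K2_ok TI_l3484 _)
                    (CovZ.leaf K2_ok TI_l3485 _))
                   (CovZ.leaf K2_ok TI_l3486 _)))
                 (CovZ.leaf K2_ok TI_l3487 _))
                (CovZ.n1 (79848, 83016) (by decide +kernel)
                 (CovZ.badM (by decide +kernel))
                 (CovZ.n1 (79848, 83088) (by decide +kernel)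
                  (CovZ.leaf K2_ok TI_l3488 _)
                  (CovZ.badM (by decide +kernel))))))))))
          (CovZ.n1 (80352, 83232) (by decide +kernel)
           (CovZ.n2 (80352, 82944) (by decide +kernel)
            (CovZ.n2 (80208, 83088) (by decide +kernel)
             (CovZ.n2 (80352, 83088) (by decide +kernel)
              (CovZ.subM 425436076124185246610053680814341750784 (by decide +kernel)
               (CovZ.n2 (80280, 83016) (by decide +kernel)
                (CovZ.n2 (80280, 83088) (by decide +kernel)
                 (CovZ.leaf K2_ok TI_l3489 _)
                 (CovZ.n1 (80244, 83052) (by decide +kernel)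
                  (CovZ.leaf K2_ok TI_l3490 _)
                  (CovZ.leaf K2_ok TI_l3491 _)))
                (CovZ.n1 (80352, 83016) (by decide +kernel)
                 (CovZ.n2 (80316, 82980) (by decide +kernel)
                  (CovZ.leaf K2_ok TI_l3492 _)
                  (CovZ.leaf K2_ok TI_l3493 _))
                 (CovZ.leaf K2_ok TI_l3494 _))))
              (CovZ.n1 (80280, 83160) (by decide +kernel)
               (CovZ.n2 (80352, 83160) (by decide +kernel)
                (CovZ.leaf K2_ok TI_l3495 _)
                (CovZ.leaf K2_ok TI_l3496 _))
               (CovZ.n1 (80280, 83088) (by decide +kernel)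
                (CovZ.leaf K2_ok TI_l3497 _)
                (CovZ.leaf K2_ok TI_l3498 _))))
             (CovZ.subM 425436076124185246610053680814341750784 (by decide +kernel)
              (CovZ.n1 (80208, 82944) (by decide +kernel)
               (CovZ.n2 (80136, 83016) (by decide +kernel)
                (CovZ.n2 (80208, 83016) (by decide +kernel)
                 (CovZ.n2 (80172, 82980) (by decide +kernel)
                  (CovZ.leaf K2_ok TI_l3499 _)
                  (CovZ.leaf K2_ok TI_l3500 _))
                 (CovZ.leaf K2_ok TI_l3501 _))
                (CovZ.n1 (80136, 82944) (by decide +kernel)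
                 (CovZ.n2 (80100, 82980) (by decide +kernel)
                  (CovZ.leaf K2_ok TI_l3502 _)
                  (CovZ.leaf K2_ok TI_l3503 _))
                 (CovZ.n1 (80172, 82980) (by decide +kernel)
                  (CovZ.n2 (80172, 82944) (by decide +kernel)
                   (CovZ.leaf K2_ok TI_l3504 _)
                   (CovZ.leaf K2_ok TI_l3505 _))
                  (CovZ.leaf K2_ok TI_l3506 _))))
               (CovZ.n1 (80280, 83016) (by decide +kernel)
                (CovZ.n2 (80280, 82944) (by decide +kernel)
                 (CovZ.leaf K2_ok TI_l3507 _)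
                 (CovZ.n1 (80316, 82980) (by decide +kernel)
                  (CovZ.leaf K2_ok TI_l3508 _)
                  (CovZ.leaf K2_ok TI_l3509 _)))
                (CovZ.n1 (80208, 83016) (by decide +kernel)
                 (CovZ.n2 (80244, 83052) (by decide +kernel)
                  (CovZ.leaf K2_ok TI_l3510 _)
                  (CovZ.leaf K2_ok TI_l3511 _))
                 (CovZ.leaf K2_ok TI_l3512 _))))))
            (CovZ.n1 (80496, 83088) (by decide +kernel)
             (CovZ.n2 (80496, 82944) (by decide +kernel)
              (CovZ.n2 (80424, 83016) (by decide +kernel)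
               (CovZ.n2 (80496, 83016) (by decide +kernel)
                (CovZ.leaf K2_ok TI_l3513 _)
                (CovZ.leaf K2_ok TI_l3514 _))
               (CovZ.n1 (80424, 82944) (by decide +kernel)
                (CovZ.leaf K2_ok TI_l3515 _)
                (CovZ.leaf K2_ok TI_l3516 _)))
              (CovZ.n1 (80568, 83016) (by decide +kernel)
               (CovZ.n2 (80568, 82944) (by decide +kernel)
                (CovZ.leaf K2_ok TI_l3517 _)
                (CovZ.leaf K2_ok TI_l3518 _))
               (CovZ.leaf K2_ok TI_l3519 _)))
             (CovZ.n1 (80352, 83088) (by decide +kernel)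
              (CovZ.n2 (80424, 83160) (by decide +kernel)
               (CovZ.n2 (80424, 83088) (by decide +kernel)
                (CovZ.leaf K2_ok TI_l3520 _)
                (CovZ.leaf K2_ok TI_l3521 _))
               (CovZ.leaf K2_ok TI_l3522 _))
              (CovZ.n1 (80424, 83016) (by decide +kernel)
               (CovZ.leaf K2_ok TI_l3523 _)
               (CovZ.leaf K2_ok TI_l3524 _)))))
           (CovZ.n1 (80064, 83232) (by decide +kernel)
            (CovZ.n2 (80208, 83376) (by decide +kernel)
             (CovZ.n2 (80208, 83232) (by decide +kernel)
              (CovZ.n2 (80136, 83304) (by decide +kernel)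
               (CovZ.leaf K2_ok TI_l3525 _)
               (CovZ.n1 (80136, 83232) (by decide +kernel)
                (CovZ.leaf K2_ok TI_l3526 _)
                (CovZ.leaf K2_ok TI_l3527 _)))
              (CovZ.n1 (80280, 83304) (by decide +kernel)
               (CovZ.n2 (80280, 83232) (by decide +kernel)
                (CovZ.leaf K2_ok TI_l3528 _)
                (CovZ.leaf K2_ok TI_l3529 _))
               (CovZ.leaf K2_ok TI_l3530 _)))
             (CovZ.n1 (80064, 83376) (by decide +kernel)
              (CovZ.n2 (80136, 83448) (by decide +kernel)
               (CovZ.leaf K2_ok TI_l3531 _)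
               (CovZ.leaf K2_ok TI_l3532 _))
              (CovZ.leaf K2_ok TI_l3533 _)))
            (CovZ.n1 (80208, 83088) (by decide +kernel)
             (CovZ.subM 425436035559365962559034114251249680384 (by decide +kernel)
              (CovZ.n2 (80064, 83088) (by decide +kernel)
               (CovZ.n2 (80136, 83160) (by decide +kernel)
                (CovZ.n2 (80136, 83088) (by decide +kernel)
                 (CovZ.leaf K2_ok TI_l3534 _)
                 (CovZ.leaf K2_ok TI_l3535 _))
                (CovZ.leaf K2_ok TI_l3536 _))
               (CovZ.n1 (80136, 83016) (by decide +kernel)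
                (CovZ.n2 (80064, 83016) (by decide +kernel)
                 (CovZ.n2 (80100, 83052) (by decide +kernel)
                  (CovZ.leaf K2_ok TI_l3537 _)
                  (CovZ.leaf K2_ok TI_l3538 _))
                 (CovZ.leaf K2_ok TI_l3539 _))
                (CovZ.n1 (80136, 83088) (by decide +kernel)
                 (CovZ.leaf K2_ok TI_l3540 _)
                 (CovZ.n1 (80100, 83052) (by decide +kernel)
                  (CovZ.leaf K2_ok TI_l3541 _)
                  (CovZ.leaf K2_ok TI_l3542 _))))))
             (CovZ.n1 (80208, 83232) (by decide +kernel)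
              (CovZ.leaf K2_ok TI_l3543 _)
              (CovZ.n1 (80136, 83160) (by decide +kernel)
               (CovZ.leaf K2_ok TI_l3544 _)
               (CovZ.n1 (80208, 83160) (by decide +kernel)
                (CovZ.leaf K2_ok TI_l3545 _)
                (CovZ.leaf K2_ok TI_l3546 _))))))))

theorem TI_u77 : CovZ TI_M (toL (selN TI_LN 425467229915549916608297104178858165252)) [0, 7, 6, 1] (80064, 83520) (79488, 84096) (79488, 82944) :=
    (CovZ.subM 425436035559366113674761566079894421504 (by decide +kernel)
          (CovZ.n1 (79488, 83520) (by decide +kernel)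
           (CovZ.n2 (79776, 83808) (by decide +kernel)
            (CovZ.n2 (79776, 83520) (by decide +kernel)
             (CovZ.subM 425352958651173231035241521477331189760 (by decide +kernel)
              (CovZ.n2 (79632, 83664) (by decide +kernel)
               (CovZ.n2 (79776, 83664) (by decide +kernel)
                (CovZ.n2 (79704, 83592) (by decide +kernel)
                 (CovZ.leaf K2_ok TI_l3547 _)
                 (CovZ.leaf K2_ok TI_l3548 _))
                (CovZ.n1 (79704, 83736) (by decide +kernel)
                 (CovZ.leaf K2_ok TI_l3549 _)
                 (CovZ.leaf K3_ok TI_l3550 _)))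
               (CovZ.n1 (79632, 83520) (by decide +kernel)
                (CovZ.n2 (79560, 83592) (by decide +kernel)
                 (CovZ.leaf K2_ok TI_l3551 _)
                 (CovZ.leaf K3_ok TI_l3552 _))
                (CovZ.n1 (79704, 83592) (by decide +kernel)
                 (CovZ.leaf K3_ok TI_l3553 _)
                 (CovZ.leaf K3_ok TI_l3554 _)))))
             (CovZ.n1 (79920, 83664) (by decide +kernel)
              (CovZ.n2 (79920, 83520) (by decide +kernel)
               (CovZ.n2 (79848, 83592) (by decide +kernel)
                (CovZ.leaf K2_ok TI_l3555 _)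
                (CovZ.leaf K2_ok TI_l3556 _))
               (CovZ.leaf K2_ok TI_l3557 _))
              (CovZ.leaf K2_ok TI_l3558 _)))
            (CovZ.subM 425352958651173231035241521477331189760 (by decide +kernel)
             (CovZ.n1 (79488, 83808) (by decide +kernel)
              (CovZ.n2 (79632, 83952) (by decide +kernel)
               (CovZ.n2 (79632, 83808) (by decide +kernel)
                (CovZ.leaf K2_ok TI_l3559 _)
                (CovZ.leaf K2_ok TI_l3560 _))
               (CovZ.leaf K2_ok TI_l3561 _))
              (CovZ.n1 (79632, 83664) (by decide +kernel)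
               (CovZ.n2 (79488, 83664) (by decide +kernel)
                (CovZ.n2 (79560, 83736) (by decide +kernel)
                 (CovZ.leaf K3_ok TI_l3562 _)
                 (CovZ.leaf K3_ok TI_l3563 _))
                (CovZ.leaf K3_ok TI_l3564 _))
               (CovZ.n1 (79632, 83808) (by decide +kernel)
                (CovZ.leaf K2_ok TI_l3565 _)
                (CovZ.n1 (79560, 83736) (by decide +kernel)
                 (CovZ.leaf K3_ok TI_l3566 _)
                 (CovZ.leaf K2_ok TI_l3567 _)))))))
           (CovZ.n1 (79776, 83232) (by decide +kernel)
            (CovZ.subM 340282366920938464053670417790742298624 (by decide +kernel)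
             (CovZ.n2 (79488, 83232) (by decide +kernel)
              (CovZ.n2 (79632, 83376) (by decide +kernel)
               (CovZ.n2 (79632, 83232) (by decide +kernel)
                (CovZ.n2 (79560, 83304) (by decide +kernel)
                 (CovZ.n2 (79632, 83304) (by decide +kernel)
                  (CovZ.badM (by decide +kernel))
                  (CovZ.leaf K2_ok TI_l3568 _))
                 (CovZ.badM (by decide +kernel)))
                (CovZ.n1 (79704, 83304) (by decide +kernel)
                 (CovZ.n2 (79704, 83232) (by decide +kernel)
                  (CovZ.leaf K2_ok TI_l3569 _)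
                  (CovZ.leaf K2_ok TI_l3570 _))
                 (CovZ.leaf K2_ok TI_l3571 _)))
               (CovZ.n1 (79488, 83376) (by decide +kernel)
                (CovZ.n2 (79560, 83448) (by decide +kernel)
                 (CovZ.n2 (79560, 83376) (by decide +kernel)
                  (CovZ.n2 (79524, 83412) (by decide +kernel)
                   (CovZ.leaf K2_ok TI_l3572 _)
                   (CovZ.leaf K2_ok TI_l3573 _))
                  (CovZ.leaf K2_ok TI_l3574 _))
                 (CovZ.leaf K2_ok TI_l3575 _))
                (CovZ.leaf K2_ok TI_l3576 _)))
              (CovZ.n1 (79632, 83088) (by decide +kernel)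
               (CovZ.badM (by decide +kernel))
               (CovZ.n1 (79632, 83232) (by decide +kernel)
                (CovZ.n2 (79704, 83160) (by decide +kernel)
                 (CovZ.badM (by decide +kernel))
                 (CovZ.n1 (79704, 83232) (by decide +kernel)
                  (CovZ.leaf K2_ok TI_l3577 _)
                  (CovZ.badM (by decide +kernel))))
                (CovZ.badM (by decide +kernel))))))
            (CovZ.n1 (79776, 83520) (by decide +kernel)
             (CovZ.n2 (79920, 83376) (by decide +kernel)
              (CovZ.n2 (79776, 83376) (by decide +kernel)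
               (CovZ.n2 (79848, 83448) (by decide +kernel)
                (CovZ.n2 (79848, 83376) (by decide +kernel)
                 (CovZ.leaf K2_ok TI_l3578 _)
                 (CovZ.leaf K2_ok TI_l3579 _))
                (CovZ.leaf K2_ok TI_l3580 _))
               (CovZ.leaf K2_ok TI_l3581 _))
              (CovZ.n1 (79920, 83520) (by decide +kernel)
               (CovZ.leaf K2_ok TI_l3582 _)
               (CovZ.n1 (79848, 83448) (by decide +kernel)
                (CovZ.leaf K2_ok TI_l3583 _)
                (CovZ.leaf K2_ok TI_l3584 _))))
             (CovZ.subM 425352958651173079919514069648684351488 (by decide +kernel)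
              (CovZ.n1 (79632, 83376) (by decide +kernel)
               (CovZ.n2 (79632, 83520) (by decide +kernel)
                (CovZ.leaf K2_ok TI_l3585 _)
                (CovZ.n1 (79560, 83448) (by decide +kernel)
                 (CovZ.leaf K3_ok TI_l3586 _)
                 (CovZ.leaf K2_ok TI_l3587 _)))
               (CovZ.n1 (79776, 83376) (by decide +kernel)
                (CovZ.n2 (79704, 83304) (by decide +kernel)
                 (CovZ.leaf K2_ok TI_l3588 _)
                 (CovZ.n1 (79776, 83304) (by decide +kernel)
                  (CovZ.leaf K2_ok TI_l3589 _)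
                  (CovZ.leaf K2_ok TI_l3590 _)))
                (CovZ.n1 (79704, 83448) (by decide +kernel)
                 (CovZ.leaf K2_ok TI_l3591 _)
                 (CovZ.n1 (79704, 83376) (by decide +kernel)
                  (CovZ.leaf K2_ok TI_l3592 _)
                  (CovZ.leaf K2_ok TI_l3593 _))))))))))

theorem TI_u78 : CovZ TI_M (toL (selN TI_LN 3213863828553652858965688248979634076924844223867886407652751)) [0, 7, 6, 1] (82944, 82944) (81792, 84096) (80640, 82944) :=
    (CovZ.n2 (81792, 82944) (by decide +kernel)
       (CovZ.n2 (81216, 83520) (by decide +kernel)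
        (CovZ.n2 (81792, 83520) (by decide +kernel)
         (CovZ.n2 (81504, 83232) (by decide +kernel)
          (CovZ.n2 (81504, 83520) (by decide +kernel)
           (CovZ.leaf K2_ok TI_l3594 _)
           (CovZ.n1 (81360, 83376) (by decide +kernel)
            (CovZ.leaf K2_ok TI_l3595 _)
            (CovZ.n1 (81504, 83376) (by decide +kernel)
             (CovZ.leaf K2_ok TI_l3596 _)
             (CovZ.leaf K2_ok TI_l3597 _))))
          (CovZ.n1 (81792, 83232) (by decide +kernel)
           (CovZ.n2 (81648, 83088) (by decide +kernel)
            (CovZ.leaf K3_ok TI_l3598 _)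
            (CovZ.n1 (81792, 83088) (by decide +kernel)
             (CovZ.leaf K2_ok TI_l3599 _)
             (CovZ.leaf K3_ok TI_l3600 _)))
           (CovZ.n1 (81648, 83376) (by decide +kernel)
            (CovZ.leaf K2_ok TI_l3601 _)
            (CovZ.n1 (81648, 83232) (by decide +kernel)
             (CovZ.leaf K2_ok TI_l3602 _)
             (CovZ.leaf K2_ok TI_l3603 _)))))
         (CovZ.n1 (81504, 83808) (by decide +kernel)
          (CovZ.n2 (81792, 83808) (by decide +kernel)
           (CovZ.n2 (81648, 83664) (by decide +kernel)
            (CovZ.leaf K2_ok TI_l3604 _)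
            (CovZ.leaf K2_ok TI_l3605 _))
           (CovZ.n1 (81648, 83952) (by decide +kernel)
            (CovZ.leaf K2_ok TI_l3606 _)
            (CovZ.leaf K2_ok TI_l3607 _)))
          (CovZ.n1 (81504, 83520) (by decide +kernel)
           (CovZ.n2 (81360, 83664) (by decide +kernel)
            (CovZ.leaf K2_ok TI_l3608 _)
            (CovZ.n1 (81360, 83520) (by decide +kernel)
             (CovZ.leaf K2_ok TI_l3609 _)
             (CovZ.leaf K2_ok TI_l3610 _)))
           (CovZ.n1 (81648, 83664) (by decide +kernel)
            (CovZ.leaf K2_ok TI_l3611 _)
            (CovZ.leaf K2_ok TI_l3612 _)))))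
        (CovZ.n1 (81216, 82944) (by decide +kernel)
         (CovZ.subM 588491759839406791405079108453948126536291273816972198918 (by decide +kernel)
          (CovZ.n2 (80928, 83232) (by decide +kernel)
           (CovZ.n2 (81216, 83232) (by decide +kernel)
            (CovZ.n2 (81072, 83088) (by decide +kernel)
             (CovZ.n2 (81072, 83232) (by decide +kernel)
              (CovZ.leaf K2_ok TI_l3613 _)
              (CovZ.n1 (81000, 83160) (by decide +kernel)
               (CovZ.leaf K2_ok TI_l3614 _)
               (CovZ.leaf K2_ok TI_l3615 _)))
             (CovZ.n1 (81216, 83088) (by decide +kernel)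
              (CovZ.n2 (81144, 83016) (by decide +kernel)
               (CovZ.leaf K2_ok TI_l3616 _)
               (CovZ.leaf K2_ok TI_l3617 _))
              (CovZ.leaf K2_ok TI_l3618 _)))
            (CovZ.n1 (81072, 83376) (by decide +kernel)
             (CovZ.n2 (81216, 83376) (by decide +kernel)
              (CovZ.leaf K2_ok TI_l3619 _)
              (CovZ.leaf K2_ok TI_l3620 _))
             (CovZ.n1 (81072, 83232) (by decide +kernel)
              (CovZ.leaf K2_ok TI_l3621 _)
              (CovZ.leaf K2_ok TI_l3622 _))))
           (CovZ.n1 (80928, 82944) (by decide +kernel)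
            (CovZ.n2 (80784, 83088) (by decide +kernel)
             (CovZ.n2 (80928, 83088) (by decide +kernel)
              (CovZ.n2 (80856, 83016) (by decide +kernel)
               (CovZ.leaf K2_ok TI_l3623 _)
               (CovZ.leaf K2_ok TI_l3624 _))
              (CovZ.n1 (80856, 83160) (by decide +kernel)
               (CovZ.leaf K2_ok TI_l3625 _)
               (CovZ.leaf K2_ok TI_l3626 _)))
             (CovZ.n1 (80784, 82944) (by decide +kernel)
              (CovZ.subM 425467229915551125534116718808032871428 (by decide +kernel)
               (CovZ.n2 (80712, 83016) (by decide +kernel)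
                (CovZ.n2 (80784, 83016) (by decide +kernel)
                 (CovZ.leaf K2_ok TI_l3627 _)
                 (CovZ.leaf K2_ok TI_l3628 _))
                (CovZ.n1 (80712, 82944) (by decide +kernel)
                 (CovZ.leaf K2_ok TI_l3629 _)
                 (CovZ.leaf K2_ok TI_l3630 _))))
              (CovZ.n1 (80856, 83016) (by decide +kernel)
               (CovZ.n2 (80856, 82944) (by decide +kernel)
                (CovZ.leaf K2_ok TI_l3631 _)
                (CovZ.leaf K2_ok TI_l3632 _))
               (CovZ.leaf K2_ok TI_l3633 _))))
            (CovZ.n1 (81072, 83088) (by decide +kernel)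
             (CovZ.n2 (81072, 82944) (by decide +kernel)
              (CovZ.n2 (81000, 83016) (by decide +kernel)
               (CovZ.leaf K2_ok TI_l3634 _)
               (CovZ.leaf K2_ok TI_l3635 _))
              (CovZ.n1 (81144, 83016) (by decide +kernel)
               (CovZ.leaf K2_ok TI_l3636 _)
               (CovZ.leaf K2_ok TI_l3637 _)))
             (CovZ.n1 (80928, 83088) (by decide +kernel)
              (CovZ.n2 (81000, 83160) (by decide +kernel)
               (CovZ.leaf K2_ok TI_l3638 _)
               (CovZ.leaf K2_ok TI_l3639 _))
              (CovZ.leaf K2_ok TI_l3640 _))))))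
         (CovZ.n1 (81504, 83232) (by decide +kernel)
          (CovZ.n2 (81504, 82944) (by decide +kernel)
           (CovZ.subM 531157463629394081360320879411580343603365121085351936394382 (by decide +kernel)
            (CovZ.n2 (81360, 83088) (by decide +kernel)
             (CovZ.n2 (81504, 83088) (by decide +kernel)
              (CovZ.n2 (81432, 83016) (by decide +kernel)
               (CovZ.leaf K2_ok TI_l3641 _)
               (CovZ.leaf K2_ok TI_l3642 _))
              (CovZ.leaf K2_ok TI_l3643 _))
             (CovZ.n1 (81360, 82944) (by decide +kernel)
              (CovZ.n2 (81288, 83016) (by decide +kernel)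
               (CovZ.leaf K2_ok TI_l3644 _)
               (CovZ.leaf K2_ok TI_l3645 _))
              (CovZ.n1 (81432, 83016) (by decide +kernel)
               (CovZ.leaf K2_ok TI_l3646 _)
               (CovZ.leaf K2_ok TI_l3647 _)))))
           (CovZ.n1 (81648, 83088) (by decide +kernel)
            (CovZ.n2 (81648, 82944) (by decide +kernel)
             (CovZ.n2 (81576, 83016) (by decide +kernel)
              (CovZ.leaf K2_ok TI_l3648 _)
              (CovZ.leaf K3_ok TI_l3649 _))
             (CovZ.leaf K3_ok TI_l3650 _))
            (CovZ.leaf K2_ok TI_l3651 _)))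
          (CovZ.subM 531157463629394081360320879411580343603365121085351936394382 (by decide +kernel)
           (CovZ.n1 (81216, 83232) (by decide +kernel)
            (CovZ.n2 (81360, 83376) (by decide +kernel)
             (CovZ.n2 (81360, 83232) (by decide +kernel)
              (CovZ.leaf K2_ok TI_l3652 _)
              (CovZ.leaf K2_ok TI_l3653 _))
             (CovZ.leaf K2_ok TI_l3654 _))
            (CovZ.n1 (81360, 83088) (by decide +kernel)
             (CovZ.leaf K2_ok TI_l3655 _)
             (CovZ.leaf K2_ok TI_l3656 _)))))))
       (CovZ.n1 (82368, 83520) (by decide +kernel)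
        (CovZ.n2 (82368, 82944) (by decide +kernel)
         (CovZ.n2 (82080, 83232) (by decide +kernel)
          (CovZ.n2 (82368, 83232) (by decide +kernel)
           (CovZ.n2 (82224, 83088) (by decide +kernel)
            (CovZ.leaf K2_ok TI_l3657 _)
            (CovZ.n1 (82368, 83088) (by decide +kernel)
             (CovZ.leaf K3_ok TI_l3658 _)
             (CovZ.leaf K2_ok TI_l3659 _)))
           (CovZ.n1 (82224, 83376) (by decide +kernel)
            (CovZ.leaf K2_ok TI_l3660 _)
            (CovZ.leaf K2_ok TI_l3661 _)))
          (CovZ.n1 (82080, 82944) (by decide +kernel)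
           (CovZ.n2 (81936, 83088) (by decide +kernel)
            (CovZ.n2 (82080, 83088) (by decide +kernel)
             (CovZ.leaf K3_ok TI_l3662 _)
             (CovZ.leaf K3_ok TI_l3663 _))
            (CovZ.n1 (81936, 82944) (by decide +kernel)
             (CovZ.leaf K2_ok TI_l3664 _)
             (CovZ.leaf K2_ok TI_l3665 _)))
           (CovZ.n1 (82224, 83088) (by decide +kernel)
            (CovZ.n2 (82224, 82944) (by decide +kernel)
             (CovZ.leaf K3_ok TI_l3666 _)
             (CovZ.leaf K3_ok TI_l3667 _))
            (CovZ.leaf K3_ok TI_l3668 _))))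
         (CovZ.n1 (82656, 83232) (by decide +kernel)
          (CovZ.n2 (82656, 82944) (by decide +kernel)
           (CovZ.n2 (82512, 83088) (by decide +kernel)
            (CovZ.leaf K3_ok TI_l3669 _)
            (CovZ.n1 (82512, 82944) (by decide +kernel)
             (CovZ.leaf K3_ok TI_l3670 _)
             (CovZ.leaf K3_ok TI_l3671 _)))
           (CovZ.n1 (82800, 83088) (by decide +kernel)
            (CovZ.n2 (82800, 82944) (by decide +kernel)
             (CovZ.leaf K3_ok TI_l3672 _)
             (CovZ.leaf K3_ok TI_l3673 _))
            (CovZ.leaf K3_ok TI_l3674 _)))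
          (CovZ.n1 (82368, 83232) (by decide +kernel)
           (CovZ.n2 (82512, 83376) (by decide +kernel)
            (CovZ.leaf K3_ok TI_l3675 _)
            (CovZ.leaf K3_ok TI_l3676 _))
           (CovZ.leaf K3_ok TI_l3677 _))))
        (CovZ.n1 (81792, 83520) (by decide +kernel)
         (CovZ.n2 (82080, 83808) (by decide +kernel)
          (CovZ.n2 (82080, 83520) (by decide +kernel)
           (CovZ.n2 (81936, 83664) (by decide +kernel)
            (CovZ.leaf K2_ok TI_l3678 _)
            (CovZ.leaf K2_ok TI_l3679 _))
           (CovZ.n1 (82224, 83664) (by decide +kernel)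
            (CovZ.leaf K2_ok TI_l3680 _)
            (CovZ.leaf K2_ok TI_l3681 _)))
          (CovZ.leaf K2_ok TI_l3682 _))
         (CovZ.n1 (82080, 83232) (by decide +kernel)
          (CovZ.n2 (81792, 83232) (by decide +kernel)
           (CovZ.n2 (81936, 83376) (by decide +kernel)
            (CovZ.n2 (81936, 83232) (by decide +kernel)
             (CovZ.leaf K2_ok TI_l3683 _)
             (CovZ.leaf K3_ok TI_l3684 _))
            (CovZ.leaf K2_ok TI_l3685 _))
           (CovZ.leaf K2_ok TI_l3686 _))
          (CovZ.n1 (82080, 83520) (by decide +kernel)
           (CovZ.leaf K2_ok TI_l3687 _)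
           (CovZ.n1 (81936, 83376) (by decide +kernel)
            (CovZ.leaf K2_ok TI_l3688 _)
            (CovZ.leaf K2_ok TI_l3689 _)))))))

theorem TI_u79 : CovZ TI_M (toL (selN TI_LN 3213863828553652858965688248979634076924844223867886407652751)) [0, 7, 6, 1] (81792, 84096) (80640, 85248) (80640, 82944) :=
    (CovZ.n1 (80640, 84096) (by decide +kernel)
       (CovZ.n2 (81216, 84672) (by decide +kernel)
        (CovZ.n2 (81216, 84096) (by decide +kernel)
         (CovZ.subM 588491759839406791405079108444044606222008231617779205126 (by decide +kernel)
          (CovZ.n2 (80928, 84384) (by decide +kernel)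
           (CovZ.n2 (81216, 84384) (by decide +kernel)
            (CovZ.n2 (81072, 84240) (by decide +kernel)
             (CovZ.leaf K2_ok TI_l3690 _)
             (CovZ.leaf K2_ok TI_l3691 _))
            (CovZ.leaf K2_ok TI_l3692 _))
           (CovZ.n1 (80928, 84096) (by decide +kernel)
            (CovZ.n2 (80784, 84240) (by decide +kernel)
             (CovZ.leaf K2_ok TI_l3693 _)
             (CovZ.leaf K2_ok TI_l3694 _))
            (CovZ.leaf K2_ok TI_l3695 _))))
         (CovZ.n1 (81504, 84384) (by decide +kernel)
          (CovZ.n2 (81504, 84096) (by decide +kernel)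
           (CovZ.leaf K2_ok TI_l3696 _)
           (CovZ.leaf K2_ok TI_l3697 _))
          (CovZ.leaf K2_ok TI_l3698 _)))
        (CovZ.subM 588491759839406791405079108444044606222008231617779205126 (by decide +kernel)
         (CovZ.n1 (80640, 84672) (by decide +kernel)
          (CovZ.n2 (80928, 84960) (by decide +kernel)
           (CovZ.n2 (80928, 84672) (by decide +kernel)
            (CovZ.leaf K3_ok TI_l3699 _)
            (CovZ.leaf K3_ok TI_l3700 _))
           (CovZ.leaf K2_ok TI_l3701 _))
          (CovZ.n1 (80928, 84384) (by decide +kernel)
           (CovZ.leaf K2_ok TI_l3702 _)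
           (CovZ.n1 (80928, 84672) (by decide +kernel)
            (CovZ.leaf K2_ok TI_l3703 _)
            (CovZ.n1 (80784, 84528) (by decide +kernel)
             (CovZ.leaf K3_ok TI_l3704 _)
             (CovZ.leaf K2_ok TI_l3705 _)))))))
       (CovZ.n1 (81216, 83520) (by decide +kernel)
        (CovZ.subM 588491759839406791405079108453948126536291273816972198918 (by decide +kernel)
         (CovZ.n2 (80640, 83520) (by decide +kernel)
          (CovZ.n2 (80928, 83808) (by decide +kernel)
           (CovZ.n2 (80928, 83520) (by decide +kernel)
            (CovZ.n2 (80784, 83664) (by decide +kernel)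
             (CovZ.n2 (80928, 83664) (by decide +kernel)
              (CovZ.leaf K2_ok TI_l3706 _)
              (CovZ.leaf K2_ok TI_l3707 _))
             (CovZ.n1 (80784, 83520) (by decide +kernel)
              (CovZ.leaf K2_ok TI_l3708 _)
              (CovZ.leaf K2_ok TI_l3709 _)))
            (CovZ.n1 (81072, 83664) (by decide +kernel)
             (CovZ.n2 (81072, 83520) (by decide +kernel)
              (CovZ.leaf K2_ok TI_l3710 _)
              (CovZ.leaf K2_ok TI_l3711 _))
             (CovZ.leaf K2_ok TI_l3712 _)))
           (CovZ.n1 (80640, 83808) (by decide +kernel)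
            (CovZ.n2 (80784, 83952) (by decide +kernel)
             (CovZ.leaf K2_ok TI_l3713 _)
             (CovZ.leaf K2_ok TI_l3714 _))
            (CovZ.leaf K2_ok TI_l3715 _)))
          (CovZ.n1 (80928, 83232) (by decide +kernel)
           (CovZ.n2 (80640, 83232) (by decide +kernel)
            (CovZ.n2 (80784, 83376) (by decide +kernel)
             (CovZ.n2 (80784, 83232) (by decide +kernel)
              (CovZ.n2 (80712, 83304) (by decide +kernel)
               (CovZ.leaf K2_ok TI_l3716 _)
               (CovZ.leaf K2_ok TI_l3717 _))
              (CovZ.leaf K2_ok TI_l3718 _))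
             (CovZ.leaf K2_ok TI_l3719 _))
            (CovZ.n1 (80784, 83088) (by decide +kernel)
             (CovZ.subM 425467229915551125534116718808032871428 (by decide +kernel)
              (CovZ.n2 (80640, 83088) (by decide +kernel)
               (CovZ.n2 (80712, 83160) (by decide +kernel)
                (CovZ.n2 (80712, 83088) (by decide +kernel)
                 (CovZ.leaf K2_ok TI_l3720 _)
                 (CovZ.leaf K2_ok TI_l3721 _))
                (CovZ.leaf K2_ok TI_l3722 _))
               (CovZ.leaf K2_ok TI_l3723 _)))
             (CovZ.n1 (80784, 83232) (by decide +kernel)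
              (CovZ.leaf K2_ok TI_l3724 _)
              (CovZ.n1 (80712, 83160) (by decide +kernel)
               (CovZ.leaf K2_ok TI_l3725 _)
               (CovZ.leaf K2_ok TI_l3726 _)))))
           (CovZ.n1 (80928, 83520) (by decide +kernel)
            (CovZ.leaf K2_ok TI_l3727 _)
            (CovZ.n1 (80784, 83376) (by decide +kernel)
             (CovZ.leaf K2_ok TI_l3728 _)
             (CovZ.n1 (80928, 83376) (by decide +kernel)
              (CovZ.n2 (80856, 83304) (by decide +kernel)
               (CovZ.leaf K2_ok TI_l3729 _)
               (CovZ.leaf K2_ok TI_l3730 _))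
              (CovZ.leaf K2_ok TI_l3731 _)))))))
        (CovZ.n1 (81216, 84096) (by decide +kernel)
         (CovZ.n2 (81504, 83808) (by decide +kernel)
          (CovZ.n2 (81216, 83808) (by decide +kernel)
           (CovZ.n2 (81360, 83952) (by decide +kernel)
            (CovZ.leaf K2_ok TI_l3732 _)
            (CovZ.leaf K2_ok TI_l3733 _))
           (CovZ.leaf K2_ok TI_l3734 _))
          (CovZ.n1 (81504, 84096) (by decide +kernel)
           (CovZ.leaf K2_ok TI_l3735 _)
           (CovZ.n1 (81360, 83952) (by decide +kernel)
            (CovZ.leaf K2_ok TI_l3736 _)
            (CovZ.leaf K2_ok TI_l3737 _))))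
         (CovZ.subM 588491759839406791405079108444044606222008231617779205126 (by decide +kernel)
          (CovZ.n1 (80928, 83808) (by decide +kernel)
           (CovZ.n2 (80928, 84096) (by decide +kernel)
            (CovZ.leaf K2_ok TI_l3738 _)
            (CovZ.n1 (80784, 83952) (by decide +kernel)
             (CovZ.leaf K2_ok TI_l3739 _)
             (CovZ.leaf K2_ok TI_l3740 _)))
           (CovZ.n1 (81216, 83808) (by decide +kernel)
            (CovZ.n2 (81072, 83664) (by decide +kernel)
             (CovZ.leaf K2_ok TI_l3741 _)
             (CovZ.leaf K2_ok TI_l3742 _))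
            (CovZ.n1 (81072, 83952) (by decide +kernel)
             (CovZ.leaf K2_ok TI_l3743 _)
             (CovZ.leaf K2_ok TI_l3744 _))))))))

theorem TI_u80 : CovZ TI_M (toL (selN TI_LN 3213863828553652858965688248979634076924844223867886407652751)) [0, 7, 6, 1] (82944, 87552) (80640, 85248) (82944, 82944) :=
    (CovZ.n2 (82944, 85248) (by decide +kernel)
     (CovZ.n2 (81792, 84096) (by decide +kernel)
      (CovZ.n2 (81792, 85248) (by decide +kernel)
       (CovZ.n2 (82368, 84672) (by decide +kernel)
        (CovZ.n2 (81792, 84672) (by decide +kernel)
         (CovZ.n2 (82080, 84960) (by decide +kernel)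
          (CovZ.n2 (82080, 84672) (by decide +kernel)
           (CovZ.leaf K2_ok TI_l3264 _)
           (CovZ.leaf K2_ok TI_l3265 _))
          (CovZ.leaf K2_ok TI_l3266 _))
         (CovZ.leaf K2_ok TI_l3267 _))
        (CovZ.n1 (82368, 85248) (by decide +kernel)
         (CovZ.leaf K2_ok TI_l3268 _)
         (CovZ.n1 (82080, 84960) (by decide +kernel)
          (CovZ.leaf K2_ok TI_l3269 _)
          (CovZ.leaf K2_ok TI_l3270 _))))
       (CovZ.n1 (81216, 84672) (by decide +kernel)
        (CovZ.n2 (81216, 85248) (by decide +kernel)
         (CovZ.leaf K2_ok TI_l3271 _)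
         (CovZ.n1 (80928, 84960) (by decide +kernel)
          (CovZ.leaf K3_ok TI_l3272 _)
          (CovZ.n1 (81216, 84960) (by decide +kernel)
           (CovZ.leaf K2_ok TI_l3273 _)
           (CovZ.leaf K2_ok TI_l3274 _))))
        (CovZ.n1 (81792, 84672) (by decide +kernel)
         (CovZ.n2 (81504, 84384) (by decide +kernel)
          (CovZ.leaf K2_ok TI_l3275 _)
          (CovZ.n1 (81792, 84384) (by decide +kernel)
           (CovZ.leaf K2_ok TI_l3276 _)
           (CovZ.leaf K2_ok TI_l3277 _)))
         (CovZ.n1 (81504, 84960) (by decide +kernel)
          (CovZ.leaf K2_ok TI_l3278 _)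
          (CovZ.n1 (81504, 84672) (by decide +kernel)
           (CovZ.leaf K2_ok TI_l3279 _)
           (CovZ.leaf K2_ok TI_l3280 _))))))
      (CovZ.n1 (82944, 84096) (by decide +kernel)
       (CovZ.n2 (82368, 83520) (by decide +kernel)
        (CovZ.n2 (82368, 84096) (by decide +kernel)
         (CovZ.leaf K2_ok TI_l3281 _)
         (CovZ.n1 (82080, 83808) (by decide +kernel)
          (CovZ.n2 (82080, 84096) (by decide +kernel)
           (CovZ.leaf K2_ok TI_l3282 _)
           (CovZ.leaf K2_ok TI_l3283 _))
          (CovZ.n1 (82368, 83808) (by decide +kernel)
           (CovZ.n2 (82224, 83664) (by decide +kernel)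
            (CovZ.leaf K2_ok TI_l3284 _)
            (CovZ.leaf K2_ok TI_l3285 _))
           (CovZ.leaf K2_ok TI_l3286 _))))
        (CovZ.n1 (82944, 83520) (by decide +kernel)
         (CovZ.n2 (82656, 83232) (by decide +kernel)
          (CovZ.n2 (82656, 83520) (by decide +kernel)
           (CovZ.leaf K2_ok TI_l3287 _)
           (CovZ.n1 (82512, 83376) (by decide +kernel)
            (CovZ.leaf K2_ok TI_l3288 _)
            (CovZ.leaf K2_ok TI_l3289 _)))
          (CovZ.subM 256012627716835100410264289673088417815721923418787485454721 (by decide +kernel)
           (CovZ.n1 (82944, 83232) (by decide +kernel)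
            (CovZ.n2 (82800, 83088) (by decide +kernel)
             (CovZ.leaf K3_ok TI_l3290 _)
             (CovZ.leaf K2_ok TI_l3291 _))
            (CovZ.n1 (82800, 83376) (by decide +kernel)
             (CovZ.leaf K2_ok TI_l3292 _)
             (CovZ.leaf K3_ok TI_l3293 _)))))
         (CovZ.n1 (82656, 83808) (by decide +kernel)
          (CovZ.n2 (82944, 83808) (by decide +kernel)
           (CovZ.leaf K2_ok TI_l3294 _)
           (CovZ.leaf K2_ok TI_l3295 _))
          (CovZ.n1 (82656, 83520) (by decide +kernel)
           (CovZ.leaf K2_ok TI_l3296 _)
           (CovZ.leaf K2_ok TI_l3297 _)))))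
       (CovZ.n1 (82368, 84672) (by decide +kernel)
        (CovZ.n2 (82944, 84672) (by decide +kernel)
         (CovZ.n2 (82656, 84384) (by decide +kernel)
          (CovZ.leaf K2_ok TI_l3298 _)
          (CovZ.n1 (82944, 84384) (by decide +kernel)
           (CovZ.leaf K2_ok TI_l3299 _)
           (CovZ.leaf K2_ok TI_l3300 _)))
         (CovZ.n1 (82656, 84960) (by decide +kernel)
          (CovZ.leaf K2_ok TI_l3301 _)
          (CovZ.n1 (82656, 84672) (by decide +kernel)
           (CovZ.leaf K2_ok TI_l3302 _)
           (CovZ.leaf K2_ok TI_l3303 _))))
        (CovZ.n1 (82368, 84096) (by decide +kernel)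
         (CovZ.n2 (82080, 84384) (by decide +kernel)
          (CovZ.n2 (82368, 84384) (by decide +kernel)
           (CovZ.leaf K2_ok TI_l3304 _)
           (CovZ.leaf K2_ok TI_l3305 _))
          (CovZ.n1 (82080, 84096) (by decide +kernel)
           (CovZ.leaf K2_ok TI_l3306 _)
           (CovZ.leaf K2_ok TI_l3307 _)))
         (CovZ.n1 (82656, 84384) (by decide +kernel)
          (CovZ.n2 (82656, 84096) (by decide +kernel)
           (CovZ.leaf K2_ok TI_l3308 _)
           (CovZ.leaf K2_ok TI_l3309 _))
          (CovZ.leaf K2_ok TI_l3310 _))))))
     (CovZ.n1 (81792, 86400) (by decide +kernel)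
      (CovZ.n2 (82944, 86400) (by decide +kernel)
       (CovZ.n2 (82368, 85824) (by decide +kernel)
        (CovZ.n2 (82368, 86400) (by decide +kernel)
         (CovZ.leaf K2_ok TI_l3311 _)
         (CovZ.n1 (82080, 86112) (by decide +kernel)
          (CovZ.leaf K3_ok TI_l3312 _)
          (CovZ.leaf K3_ok TI_l3313 _)))
        (CovZ.n1 (82944, 85824) (by decide +kernel)
         (CovZ.n2 (82656, 85536) (by decide +kernel)
          (CovZ.leaf K2_ok TI_l3314 _)
          (CovZ.leaf K2_ok TI_l3315 _))
         (CovZ.leaf K2_ok TI_l3316 _)))
       (CovZ.n1 (82368, 86976) (by decide +kernel)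
        (CovZ.n2 (82944, 86976) (by decide +kernel)
         (CovZ.leaf K2_ok TI_l3317 _)
         (CovZ.leaf K2_ok TI_l3318 _))
        (CovZ.n1 (82368, 86400) (by decide +kernel)
         (CovZ.leaf K3_ok TI_l3319 _)
         (CovZ.leaf K2_ok TI_l3320 _))))
      (CovZ.n1 (81792, 85248) (by decide +kernel)
       (CovZ.n2 (81216, 85824) (by decide +kernel)
        (CovZ.n2 (81792, 85824) (by decide +kernel)
         (CovZ.n2 (81504, 85536) (by decide +kernel)
          (CovZ.leaf K3_ok TI_l3321 _)
          (CovZ.leaf K3_ok TI_l3322 _))
         (CovZ.n1 (81504, 86112) (by decide +kernel)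
          (CovZ.leaf K3_ok TI_l3323 _)
          (CovZ.leaf K3_ok TI_l3324 _)))
        (CovZ.n1 (81216, 85248) (by decide +kernel)
         (CovZ.n2 (80928, 85536) (by decide +kernel)
          (CovZ.leaf K2_ok TI_l3325 _)
          (CovZ.n1 (80928, 85248) (by decide +kernel)
           (CovZ.leaf K2_ok TI_l3326 _)
           (CovZ.leaf K2_ok TI_l3327 _)))
         (CovZ.n1 (81504, 85536) (by decide +kernel)
          (CovZ.n2 (81504, 85248) (by decide +kernel)
           (CovZ.leaf K2_ok TI_l3328 _)
           (CovZ.leaf K3_ok TI_l3329 _))
          (CovZ.leaf K3_ok TI_l3330 _))))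
       (CovZ.n1 (82368, 85824) (by decide +kernel)
        (CovZ.n2 (82368, 85248) (by decide +kernel)
         (CovZ.n2 (82080, 85536) (by decide +kernel)
          (CovZ.leaf K3_ok TI_l3331 _)
          (CovZ.leaf K3_ok TI_l3332 _))
         (CovZ.n1 (82656, 85536) (by decide +kernel)
          (CovZ.leaf K2_ok TI_l3333 _)
          (CovZ.leaf K2_ok TI_l3334 _)))
        (CovZ.leaf K2_ok TI_l3335 _)))))

theorem TI_u81 : CovZ TI_M (toL (selN TI_LN 3213863828553652858965688248979634076924844223867886407652751)) [0, 7, 6, 1] (80640, 85248) (78336, 82944) (82944, 82944) :=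
    (CovZ.n1 (80640, 82944) (by decide +kernel)
     (CovZ.subM 425467229915549916608297104178858165252 (by decide +kernel)
      (CovZ.n2 (79488, 84096) (by decide +kernel)
       (CovZ.n2 (80640, 84096) (by decide +kernel)
        (CovZ.n2 (80064, 83520) (by decide +kernel)
         (CovZ.n2 (80064, 84096) (by decide +kernel)
          (CovZ.n2 (80352, 83808) (by decide +kernel)
           (CovZ.n2 (80064, 83808) (by decide +kernel)
            (CovZ.n2 (80208, 83952) (by decide +kernel)
             (CovZ.n2 (80208, 83808) (by decide +kernel)
              (CovZ.leaf K2_ok TI_l3336 _)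
              (CovZ.leaf K2_ok TI_l3337 _))
             (CovZ.leaf K2_ok TI_l3338 _))
            (CovZ.leaf K2_ok TI_l3339 _))
           (CovZ.n1 (80352, 84096) (by decide +kernel)
            (CovZ.leaf K2_ok TI_l3340 _)
            (CovZ.n1 (80208, 83952) (by decide +kernel)
             (CovZ.leaf K2_ok TI_l3341 _)
             (CovZ.leaf K2_ok TI_l3342 _))))
          (CovZ.subM 425456804746800252985275688065211301888 (by decide +kernel)
           (CovZ.n1 (79776, 83808) (by decide +kernel)
            (CovZ.n2 (79776, 84096) (by decide +kernel)
             (CovZ.leaf K2_ok TI_l3343 _)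
             (CovZ.n1 (79632, 83952) (by decide +kernel)
              (CovZ.leaf K2_ok TI_l3344 _)
              (CovZ.n1 (79776, 83952) (by decide +kernel)
               (CovZ.leaf K2_ok TI_l3345 _)
               (CovZ.leaf K2_ok TI_l3346 _))))
            (CovZ.n1 (80064, 83808) (by decide +kernel)
             (CovZ.n2 (79920, 83664) (by decide +kernel)
              (CovZ.n2 (79920, 83808) (by decide +kernel)
               (CovZ.leaf K2_ok TI_l3347 _)
               (CovZ.leaf K2_ok TI_l3348 _))
              (CovZ.n1 (80064, 83664) (by decide +kernel)
               (CovZ.leaf K2_ok TI_l3349 _)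
               (CovZ.leaf K2_ok TI_l3350 _)))
             (CovZ.n1 (79920, 83952) (by decide +kernel)
              (CovZ.n2 (80064, 83952) (by decide +kernel)
               (CovZ.leaf K2_ok TI_l3351 _)
               (CovZ.leaf K2_ok TI_l3352 _))
              (CovZ.n1 (79920, 83808) (by decide +kernel)
               (CovZ.leaf K2_ok TI_l3353 _)
               (CovZ.leaf K2_ok TI_l3354 _)))))))
         (CovZ.n1 (80640, 83520) (by decide +kernel)
          (CovZ.n2 (80352, 83232) (by decide +kernel)
           (CovZ.n2 (80352, 83520) (by decide +kernel)
            (CovZ.n2 (80496, 83376) (by decide +kernel)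
             (CovZ.n2 (80352, 83376) (by decide +kernel)
              (CovZ.n2 (80424, 83448) (by decide +kernel)
               (CovZ.leaf K2_ok TI_l3355 _)
               (CovZ.leaf K2_ok TI_l3356 _))
              (CovZ.leaf K2_ok TI_l3357 _))
             (CovZ.n1 (80496, 83520) (by decide +kernel)
              (CovZ.leaf K2_ok TI_l3358 _)
              (CovZ.n1 (80424, 83448) (by decide +kernel)
               (CovZ.leaf K2_ok TI_l3359 _)
               (CovZ.leaf K2_ok TI_l3360 _))))
            (CovZ.n1 (80208, 83376) (by decide +kernel)
             (CovZ.n2 (80208, 83520) (by decide +kernel)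
              (CovZ.leaf K2_ok TI_l3361 _)
              (CovZ.n1 (80136, 83448) (by decide +kernel)
               (CovZ.leaf K2_ok TI_l3362 _)
               (CovZ.leaf K2_ok TI_l3363 _)))
             (CovZ.n1 (80352, 83376) (by decide +kernel)
              (CovZ.n2 (80280, 83304) (by decide +kernel)
               (CovZ.leaf K2_ok TI_l3364 _)
               (CovZ.leaf K2_ok TI_l3365 _))
              (CovZ.n1 (80280, 83448) (by decide +kernel)
               (CovZ.leaf K2_ok TI_l3366 _)
               (CovZ.leaf K2_ok TI_l3367 _)))))
           (CovZ.n1 (80640, 83232) (by decide +kernel)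
            (CovZ.n2 (80496, 83088) (by decide +kernel)
             (CovZ.n2 (80496, 83232) (by decide +kernel)
              (CovZ.leaf K2_ok TI_l3368 _)
              (CovZ.n1 (80424, 83160) (by decide +kernel)
               (CovZ.leaf K2_ok TI_l3369 _)
               (CovZ.leaf K2_ok TI_l3370 _)))
             (CovZ.n1 (80640, 83088) (by decide +kernel)
              (CovZ.n2 (80568, 83016) (by decide +kernel)
               (CovZ.leaf K2_ok TI_l3371 _)
               (CovZ.n1 (80640, 83016) (by decide +kernel)
                (CovZ.leaf K2_ok TI_l3372 _)
                (CovZ.leaf K2_ok TI_l3373 _)))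
              (CovZ.n1 (80568, 83160) (by decide +kernel)
               (CovZ.leaf K2_ok TI_l3374 _)
               (CovZ.leaf K2_ok TI_l3375 _))))
            (CovZ.n1 (80496, 83376) (by decide +kernel)
             (CovZ.n2 (80640, 83376) (by decide +kernel)
              (CovZ.n2 (80568, 83304) (by decide +kernel)
               (CovZ.leaf K2_ok TI_l3376 _)
               (CovZ.leaf K2_ok TI_l3377 _))
              (CovZ.leaf K2_ok TI_l3378 _))
             (CovZ.n1 (80496, 83232) (by decide +kernel)
              (CovZ.n2 (80424, 83304) (by decide +kernel)
               (CovZ.leaf K2_ok TI_l3379 _)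
               (CovZ.leaf K2_ok TI_l3380 _))
              (CovZ.n1 (80568, 83304) (by decide +kernel)
               (CovZ.leaf K2_ok TI_l3381 _)
               (CovZ.leaf K2_ok TI_l3382 _))))))
          (CovZ.n1 (80352, 83808) (by decide +kernel)
           (CovZ.n2 (80640, 83808) (by decide +kernel)
            (CovZ.n2 (80496, 83664) (by decide +kernel)
             (CovZ.leaf K2_ok TI_l3383 _)
             (CovZ.n1 (80640, 83664) (by decide +kernel)
              (CovZ.leaf K2_ok TI_l3384 _)
              (CovZ.leaf K2_ok TI_l3385 _)))
            (CovZ.n1 (80496, 83952) (by decide +kernel)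
             (CovZ.leaf K2_ok TI_l3386 _)
             (CovZ.n1 (80496, 83808) (by decide +kernel)
              (CovZ.leaf K2_ok TI_l3387 _)
              (CovZ.leaf K2_ok TI_l3388 _))))
           (CovZ.n1 (80352, 83520) (by decide +kernel)
            (CovZ.n2 (80208, 83664) (by decide +kernel)
             (CovZ.n2 (80352, 83664) (by decide +kernel)
              (CovZ.leaf K2_ok TI_l3389 _)
              (CovZ.leaf K2_ok TI_l3390 _))
             (CovZ.n1 (80208, 83520) (by decide +kernel)
              (CovZ.leaf K2_ok TI_l3391 _)
              (CovZ.leaf K2_ok TI_l3392 _)))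
            (CovZ.n1 (80496, 83664) (by decide +kernel)
             (CovZ.n2 (80496, 83520) (by decide +kernel)
              (CovZ.leaf K2_ok TI_l3393 _)
              (CovZ.leaf K2_ok TI_l3394 _))
             (CovZ.leaf K2_ok TI_l3395 _))))))
        (CovZ.n1 (80064, 84672) (by decide +kernel)
         (CovZ.n2 (80640, 84672) (by decide +kernel)
          (CovZ.n2 (80352, 84384) (by decide +kernel)
           (CovZ.n2 (80352, 84672) (by decide +kernel)
            (CovZ.leaf K2_ok TI_l3396 _)
            (CovZ.n1 (80208, 84528) (by decide +kernel)
             (CovZ.leaf K2_ok TI_l3397 _)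
             (CovZ.leaf K2_ok TI_l3398 _)))
           (CovZ.n1 (80640, 84384) (by decide +kernel)
            (CovZ.n2 (80496, 84240) (by decide +kernel)
             (CovZ.leaf K2_ok TI_l3399 _)
             (CovZ.leaf K2_ok TI_l3400 _))
            (CovZ.leaf K2_ok TI_l3401 _)))
          (CovZ.n1 (80352, 84960) (by decide +kernel)
           (CovZ.n2 (80640, 84960) (by decide +kernel)
            (CovZ.leaf K2_ok TI_l3402 _)
            (CovZ.leaf K3_ok TI_l3403 _))
           (CovZ.n1 (80352, 84672) (by decide +kernel)
            (CovZ.leaf K2_ok TI_l3404 _)
            (CovZ.leaf K3_ok TI_l3405 _))))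
         (CovZ.n1 (80064, 84096) (by decide +kernel)
          (CovZ.subM 85174437825861789521901080633443090432 (by decide +kernel)
           (CovZ.n2 (79776, 84384) (by decide +kernel)
            (CovZ.n2 (80064, 84384) (by decide +kernel)
             (CovZ.n2 (79920, 84240) (by decide +kernel)
              (CovZ.leaf K3_ok TI_l3406 _)
              (CovZ.leaf K3_ok TI_l3407 _))
             (CovZ.n1 (79920, 84528) (by decide +kernel)
              (CovZ.leaf K3_ok TI_l3408 _)
              (CovZ.leaf K3_ok TI_l3409 _)))
            (CovZ.n1 (79776, 84096) (by decide +kernel)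
             (CovZ.n2 (79632, 84240) (by decide +kernel)
              (CovZ.leaf K3_ok TI_l3410 _)
              (CovZ.n1 (79632, 84096) (by decide +kernel)
               (CovZ.leaf K2_ok TI_l3411 _)
               (CovZ.leaf K3_ok TI_l3412 _)))
             (CovZ.n1 (79920, 84240) (by decide +kernel)
              (CovZ.n2 (79920, 84096) (by decide +kernel)
               (CovZ.leaf K2_ok TI_l3413 _)
               (CovZ.leaf K2_ok TI_l3414 _))
              (CovZ.leaf K3_ok TI_l3415 _)))))
          (CovZ.n1 (80352, 84384) (by decide +kernel)
           (CovZ.n2 (80352, 84096) (by decide +kernel)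
            (CovZ.n2 (80208, 84240) (by decide +kernel)
             (CovZ.leaf K2_ok TI_l3416 _)
             (CovZ.leaf K2_ok TI_l3417 _))
            (CovZ.n1 (80496, 84240) (by decide +kernel)
             (CovZ.leaf K2_ok TI_l3418 _)
             (CovZ.leaf K2_ok TI_l3419 _)))
           (CovZ.leaf K2_ok TI_l3420 _)))))
       (CovZ.n1 (79488, 82944) (by decide +kernel)
        (CovZ.subM 425352958651173231035241521477331189760 (by decide +kernel)
         (CovZ.n2 (78912, 83520) (by decide +kernel)
          (CovZ.n2 (79488, 83520) (by decide +kernel)
           (CovZ.n2 (79200, 83232) (by decide +kernel)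
            (CovZ.n2 (79200, 83520) (by decide +kernel)
             (CovZ.n2 (79344, 83376) (by decide +kernel)
              (CovZ.badM (by decide +kernel))
              (CovZ.n1 (79344, 83520) (by decide +kernel)
               (CovZ.leaf K3_ok TI_l3421 _)
               (CovZ.badM (by decide +kernel))))
             (CovZ.badM (by decide +kernel)))
            (CovZ.n1 (79488, 83232) (by decide +kernel)
             (CovZ.badM (by decide +kernel))
             (CovZ.n1 (79344, 83376) (by decide +kernel)
              (CovZ.n2 (79488, 83376) (by decide +kernel)
               (CovZ.badM (by decide +kernel))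
               (CovZ.n1 (79416, 83448) (by decide +kernel)
                (CovZ.n2 (79488, 83448) (by decide +kernel)
                 (CovZ.leaf K2_ok TI_l3422 _)
                 (CovZ.leaf K3_ok TI_l3423 _))
                (CovZ.badM (by decide +kernel))))
              (CovZ.badM (by decide +kernel)))))
           (CovZ.n1 (79200, 83808) (by decide +kernel)
            (CovZ.n2 (79488, 83808) (by decide +kernel)
             (CovZ.n2 (79344, 83664) (by decide +kernel)
              (CovZ.n2 (79344, 83808) (by decide +kernel)
               (CovZ.leaf K2_ok TI_l3424 _)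
               (CovZ.badM (by decide +kernel)))
              (CovZ.n1 (79488, 83664) (by decide +kernel)
               (CovZ.n2 (79416, 83592) (by decide +kernel)
                (CovZ.leaf K3_ok TI_l3425 _)
                (CovZ.leaf K3_ok TI_l3426 _))
               (CovZ.n1 (79416, 83736) (by decide +kernel)
                (CovZ.leaf K2_ok TI_l3427 _)
                (CovZ.leaf K2_ok TI_l3428 _))))
             (CovZ.n1 (79344, 83952) (by decide +kernel)
              (CovZ.n2 (79488, 83952) (by decide +kernel)
               (CovZ.leaf K3_ok TI_l3429 _)
               (CovZ.leaf K2_ok TI_l3430 _))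
              (CovZ.n1 (79344, 83808) (by decide +kernel)
               (CovZ.badM (by decide +kernel))
               (CovZ.leaf K2_ok TI_l3431 _))))
            (CovZ.n1 (79200, 83520) (by decide +kernel)
             (CovZ.badM (by decide +kernel))
             (CovZ.n1 (79344, 83664) (by decide +kernel)
              (CovZ.n2 (79344, 83520) (by decide +kernel)
               (CovZ.n2 (79272, 83592) (by decide +kernel)
                (CovZ.n2 (79344, 83592) (by decide +kernel)
                 (CovZ.leaf K3_ok TI_l3432 _)
                 (CovZ.badM (by decide +kernel)))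
                (CovZ.n1 (79272, 83520) (by decide +kernel)
                 (CovZ.leaf K3_ok TI_l3433 _)
                 (CovZ.leaf K2_ok TI_l3434 _)))
               (CovZ.n1 (79416, 83592) (by decide +kernel)
                (CovZ.n2 (79416, 83520) (by decide +kernel)
                 (CovZ.leaf K3_ok TI_l3435 _)
                 (CovZ.leaf K3_ok TI_l3436 _))
                (CovZ.leaf K3_ok TI_l3437 _)))
              (CovZ.badM (by decide +kernel))))))
          (CovZ.badM (by decide +kernel))))
        (CovZ.n1 (80064, 83520) (by decide +kernel)
         TI_u76
         TI_u77))))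
     (CovZ.n1 (81792, 84096) (by decide +kernel)
      TI_u78
      TI_u79))

end Pool.Agent.TET
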