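import Pool.Agent.Helper38_TET.TI_M
import Pool.Agent.Helper38_TET.TI_L
import Pool.Agent.Helper38_TET.TI_0
import Pool.Agent.Helper38_TET.TI_2
import Pool.Agent.Helper38_TET.TI_3
import Pool.Agent.Helper38_TET.TI_4
import Pool.Agent.Helper38_TET.TI_10
import Pool.Agent.Helper38_TET.TI_11
import Pool.Agent.Helper38_TET.TI_24
import Pool.Agent.Helper38_TET.TI_25
import Pool.Agent.Helper38_TET.TI_27
import Pool.Agent.Helper38_TET.TI_28
import Pool.Agent.Helper38_TET.TI_29
import Pool.Agent.Helper38_TET.TI_35
import Pool.Agent.Helper38_TET.TI_42
import Pool.Agent.Helper38_TET.TI_43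
import Pool.Agent.Helper38_TET.TI_44
import Pool.Agent.Helper38_TET.TI_45
import Pool.Agent.Helper38_TET.TI_U0
import Pool.Agent.Helper38_TET.TI_U1
import Pool.Agent.Helper38_TET.TI_U2
import Pool.Agent.Helper38_TET.TI_U3
import Pool.Agent.Helper38_TET.TI_U4
import Pool.Agent.Helper38_TET.TI_U5

/-!
# MP_c7c9bf_co: certificates, family TI
-/

set_option autoImplicit false
set_option maxRecDepth 100000

namespace Pool.Agent.TET

theorem TI_s0_0 : SqZ TI_M TI_L [0, 7, 6, 1] 78336 73728 4608 0 0 :=
  SqZ.mk (a := 78336) (b := 82944) (c := 73728) (d := 78336) (by norm_num) (by norm_num) (by norm_num) (by norm_num)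
    (CovZ.topM TI_LL 12259964327692074679792736811004796249741536994636196432 (by decide +kernel) (CovZ.n2 (80640, 76032) (by decide +kernel)
    (CovZ.n2 (82944, 76032) (by decide +kernel)
     (CovZ.n2 (81792, 74880) (by decide +kernel)
      (CovZ.n2 (81792, 76032) (by decide +kernel)
       (CovZ.subM 12259964326927111752135379824476651832367127685190248976 (by decide +kernel)
        (CovZ.n2 (82368, 75456) (by decide +kernel)
         (CovZ.n2 (81792, 75456) (by decide +kernel)
          (CovZ.n2 (82080, 75744) (by decide +kernel)
           (CovZ.leaf K2_ok TI_l0 _)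
           (CovZ.leaf K2_ok TI_l1 _))
          (CovZ.leaf K2_ok TI_l2 _))
         (CovZ.n1 (82368, 76032) (by decide +kernel)
          (CovZ.leaf K2_ok TI_l3 _)
          (CovZ.n1 (82080, 75744) (by decide +kernel)
           (CovZ.leaf K2_ok TI_l4 _)
           (CovZ.leaf K2_ok TI_l5 _)))))
       (CovZ.n1 (81216, 75456) (by decide +kernel)
        (CovZ.n2 (81216, 76032) (by decide +kernel)
         (CovZ.leaf K2_ok TI_l6 _)
         (CovZ.n1 (80928, 75744) (by decide +kernel)
          (CovZ.leaf K2_ok TI_l7 _)
          (CovZ.leaf K2_ok TI_l8 _)))
        (CovZ.subM 697613412369349954128602298174950134900752 (by decide +kernel)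
         (CovZ.n1 (81792, 75456) (by decide +kernel)
          (CovZ.n2 (81504, 75168) (by decide +kernel)
           (CovZ.leaf K2_ok TI_l9 _)
           (CovZ.leaf K2_ok TI_l10 _))
          (CovZ.n1 (81504, 75744) (by decide +kernel)
           (CovZ.n2 (81792, 75744) (by decide +kernel)
            (CovZ.leaf K2_ok TI_l11 _)
            (CovZ.leaf K2_ok TI_l12 _))
           (CovZ.leaf K2_ok TI_l13 _))))))
      (CovZ.subM 12259964326927111752135379824476651832367127685190248976 (by decide +kernel)
       (CovZ.n1 (82944, 74880) (by decide +kernel)
        (CovZ.n2 (82368, 74304) (by decide +kernel)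
         (CovZ.leaf K2_ok TI_l14 _)
         (CovZ.leaf K2_ok TI_l15 _))
        (CovZ.n1 (82368, 75456) (by decide +kernel)
         (CovZ.n2 (82944, 75456) (by decide +kernel)
          (CovZ.n2 (82656, 75168) (by decide +kernel)
           (CovZ.leaf K2_ok TI_l16 _)
           (CovZ.leaf K2_ok TI_l17 _))
          (CovZ.n1 (82656, 75744) (by decide +kernel)
           (CovZ.leaf K2_ok TI_l18 _)
           (CovZ.leaf K2_ok TI_l19 _)))
         (CovZ.n1 (82368, 74880) (by decide +kernel)
          (CovZ.leaf K2_ok TI_l20 _)
          (CovZ.leaf K2_ok TI_l21 _))))))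
     (CovZ.n1 (81792, 77184) (by decide +kernel)
      TI_u2
      TI_u3))
    (CovZ.n1 (80640, 73728) (by decide +kernel)
     (CovZ.subM 764962940949789063068300553583349727107563584 (by decide +kernel)
      (CovZ.n2 (79488, 74880) (by decide +kernel)
       (CovZ.n2 (80640, 74880) (by decide +kernel)
        (CovZ.n2 (80064, 74304) (by decide +kernel)
         (CovZ.leaf K2_ok TI_l385 _)
         (CovZ.leaf K2_ok TI_l386 _))
        (CovZ.n1 (80064, 75456) (by decide +kernel)
         (CovZ.n2 (80640, 75456) (by decide +kernel)
          (CovZ.n2 (80352, 75168) (by decide +kernel)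
           (CovZ.leaf K2_ok TI_l387 _)
           (CovZ.leaf K2_ok TI_l388 _))
          (CovZ.n1 (80352, 75744) (by decide +kernel)
           (CovZ.leaf K2_ok TI_l389 _)
           (CovZ.leaf K2_ok TI_l390 _)))
         (CovZ.n1 (80064, 74880) (by decide +kernel)
          (CovZ.leaf K2_ok TI_l391 _)
          (CovZ.n1 (80352, 75168) (by decide +kernel)
           (CovZ.leaf K2_ok TI_l392 _)
           (CovZ.leaf K2_ok TI_l393 _)))))
       (CovZ.n1 (79488, 73728) (by decide +kernel)
        (CovZ.n2 (78912, 74304) (by decide +kernel)
         (CovZ.leaf K2_ok TI_l394 _)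
         (CovZ.leaf K2_ok TI_l395 _))
        (CovZ.n1 (80064, 74304) (by decide +kernel)
         (CovZ.leaf K2_ok TI_l396 _)
         (CovZ.leaf K2_ok TI_l397 _)))))
     (CovZ.n1 (81792, 74880) (by decide +kernel)
      (CovZ.n2 (81792, 73728) (by decide +kernel)
       (CovZ.n2 (81216, 74304) (by decide +kernel)
        (CovZ.leaf K2_ok TI_l398 _)
        (CovZ.leaf K2_ok TI_l399 _))
       (CovZ.n1 (82368, 74304) (by decide +kernel)
        (CovZ.leaf K2_ok TI_l400 _)
        (CovZ.leaf K2_ok TI_l401 _)))
      (CovZ.n1 (80640, 74880) (by decide +kernel)
       (CovZ.n2 (81216, 75456) (by decide +kernel)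
        (CovZ.n2 (81216, 74880) (by decide +kernel)
         (CovZ.leaf K2_ok TI_l402 _)
         (CovZ.leaf K2_ok TI_l403 _))
        (CovZ.n1 (80640, 75456) (by decide +kernel)
         (CovZ.n2 (80928, 75744) (by decide +kernel)
          (CovZ.leaf K2_ok TI_l404 _)
          (CovZ.leaf K2_ok TI_l405 _))
         (CovZ.leaf K2_ok TI_l406 _)))
       (CovZ.leaf K2_ok TI_l407 _))))))
    (CovZ.topM TI_LL 12259964327692074679792736811004796249741536994636196432 (by decide +kernel) (CovZ.n0 (80640, 76032) (by decide +kernel)
    (CovZ.subM 764962940949789063068300553583349727107563584 (by decide +kernel)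
     (CovZ.n2 (78336, 76032) (by decide +kernel)
      (CovZ.n2 (79488, 77184) (by decide +kernel)
       (CovZ.n2 (79488, 76032) (by decide +kernel)
        TI_u4
        TI_u5)
       (CovZ.subM 6040692619200004729065075689601956240703552 (by decide +kernel)
        (CovZ.n1 (78336, 77184) (by decide +kernel)
         (CovZ.n2 (78912, 77760) (by decide +kernel)
          (CovZ.n2 (78912, 77184) (by decide +kernel)
           (CovZ.badM (by decide +kernel))
           (CovZ.badM (by decide +kernel)))
          (CovZ.badM (by decide +kernel)))
         (CovZ.n1 (78912, 76608) (by decide +kernel)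
          (CovZ.subM 6016192247162192034032463059393661978542080 (by decide +kernel)
           (CovZ.n2 (78336, 76608) (by decide +kernel)
            (CovZ.n2 (78624, 76896) (by decide +kernel)
             (CovZ.n2 (78624, 76608) (by decide +kernel)
              (CovZ.n2 (78480, 76752) (by decide +kernel)
               (CovZ.n2 (78624, 76752) (by decide +kernel)
                (CovZ.n2 (78552, 76680) (by decide +kernel)
                 (CovZ.leaf K2_ok TI_l6615 _)
                 (CovZ.leaf K2_ok TI_l6616 _))
                (CovZ.n1 (78552, 76824) (by decide +kernel)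
                 (CovZ.n2 (78624, 76824) (by decide +kernel)
                  (CovZ.leaf K2_ok TI_l6617 _)
                  (CovZ.n1 (78588, 76860) (by decide +kernel)
                   (CovZ.leaf K2_ok TI_l6618 _)
                   (CovZ.leaf K2_ok TI_l6619 _)))
                 (CovZ.leaf K2_ok TI_l6620 _)))
               (CovZ.n1 (78480, 76608) (by decide +kernel)
                (CovZ.badM (by decide +kernel))
                (CovZ.n1 (78552, 76680) (by decide +kernel)
                 (CovZ.leaf K2_ok TI_l6621 _)
                 (CovZ.leaf K2_ok TI_l6622 _))))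
              (CovZ.n1 (78768, 76752) (by decide +kernel)
               (CovZ.n2 (78768, 76608) (by decide +kernel)
                (CovZ.leaf K2_ok TI_l6623 _)
                (CovZ.n1 (78840, 76680) (by decide +kernel)
                 (CovZ.leaf K2_ok TI_l589 _)
                 (CovZ.leaf K2_ok TI_l6624 _)))
               (CovZ.n1 (78624, 76752) (by decide +kernel)
                (CovZ.n2 (78696, 76824) (by decide +kernel)
                 (CovZ.leaf K2_ok TI_l6625 _)
                 (CovZ.n1 (78624, 76824) (by decide +kernel)
                  (CovZ.n2 (78660, 76860) (by decide +kernel)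
                   (CovZ.leaf K2_ok TI_l6626 _)
                   (CovZ.leaf K2_ok TI_l6627 _))
                  (CovZ.leaf K2_ok TI_l6628 _)))
                (CovZ.leaf K2_ok TI_l6629 _))))
             (CovZ.n1 (78336, 76896) (by decide +kernel)
              (CovZ.n2 (78480, 77040) (by decide +kernel)
               (CovZ.n2 (78480, 76896) (by decide +kernel)
                (CovZ.badM (by decide +kernel))
                (CovZ.n1 (78552, 76968) (by decide +kernel)
                 (CovZ.n2 (78552, 76896) (by decide +kernel)
                  (CovZ.badM (by decide +kernel))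
                  (CovZ.n1 (78588, 76932) (by decide +kernel)
                   (CovZ.leaf K2_ok TI_l6630 _)
                   (CovZ.badM (by decide +kernel))))
                 (CovZ.badM (by decide +kernel))))
               (CovZ.badM (by decide +kernel)))
              (CovZ.n1 (78480, 76752) (by decide +kernel)
               (CovZ.badM (by decide +kernel))
               (CovZ.n1 (78480, 76896) (by decide +kernel)
                (CovZ.n2 (78552, 76824) (by decide +kernel)
                 (CovZ.n2 (78480, 76824) (by decide +kernel)
                  (CovZ.n2 (78516, 76860) (by decide +kernel)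
                   (CovZ.leaf K2_ok TI_l6631 _)
                   (CovZ.badM (by decide +kernel)))
                  (CovZ.leaf K2_ok TI_l6632 _))
                 (CovZ.n1 (78552, 76896) (by decide +kernel)
                  (CovZ.leaf K2_ok TI_l6633 _)
                  (CovZ.n1 (78516, 76860) (by decide +kernel)
                   (CovZ.leaf K2_ok TI_l6634 _)
                   (CovZ.leaf K2_ok TI_l6635 _))))
                (CovZ.badM (by decide +kernel))))))
            (CovZ.n1 (78624, 76320) (by decide +kernel)
             (CovZ.n2 (78336, 76320) (by decide +kernel)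
              (CovZ.n2 (78480, 76464) (by decide +kernel)
               (CovZ.leaf K2_ok TI_l6636 _)
               (CovZ.badM (by decide +kernel)))
              (CovZ.leaf K2_ok TI_l6637 _))
             (CovZ.n1 (78624, 76608) (by decide +kernel)
              (CovZ.n2 (78768, 76464) (by decide +kernel)
               (CovZ.leaf K2_ok TI_l6638 _)
               (CovZ.leaf K2_ok TI_l590 _))
              (CovZ.n1 (78480, 76464) (by decide +kernel)
               (CovZ.leaf K2_ok TI_l6639 _)
               (CovZ.n1 (78624, 76464) (by decide +kernel)
                (CovZ.leaf K2_ok TI_l6640 _)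
                (CovZ.leaf K2_ok TI_l6641 _)))))))
          (CovZ.n1 (78912, 77184) (by decide +kernel)
           TI_u6
           TI_u7)))))
      (CovZ.n1 (79488, 74880) (by decide +kernel)
       (CovZ.subM 6040692619362264005894289052993534259380288 (by decide +kernel)
        (CovZ.n2 (78336, 74880) (by decide +kernel)
         (CovZ.n2 (78912, 75456) (by decide +kernel)
          (CovZ.n2 (78912, 74880) (by decide +kernel)
           (CovZ.leaf K2_ok TI_l622 _)
           (CovZ.leaf K2_ok TI_l623 _))
          (CovZ.n1 (78336, 75456) (by decide +kernel)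
           (CovZ.n2 (78624, 75744) (by decide +kernel)
            (CovZ.leaf K2_ok TI_l624 _)
            (CovZ.leaf K2_ok TI_l6717 _))
           (CovZ.leaf K2_ok TI_l625 _)))
         (CovZ.leaf K2_ok TI_l626 _)))
       (CovZ.n1 (79488, 76032) (by decide +kernel)
        (CovZ.n2 (80064, 75456) (by decide +kernel)
         (CovZ.n2 (79488, 75456) (by decide +kernel)
          (CovZ.n2 (79776, 75744) (by decide +kernel)
           (CovZ.leaf K2_ok TI_l627 _)
           (CovZ.leaf K2_ok TI_l628 _))
          (CovZ.leaf K2_ok TI_l629 _))
         (CovZ.n1 (80064, 76032) (by decide +kernel)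
          (CovZ.n2 (80352, 75744) (by decide +kernel)
           (CovZ.leaf K2_ok TI_l630 _)
           (CovZ.leaf K2_ok TI_l631 _))
          (CovZ.n1 (79776, 75744) (by decide +kernel)
           (CovZ.leaf K2_ok TI_l632 _)
           (CovZ.leaf K2_ok TI_l633 _))))
        (CovZ.subM 6040692619362264005894289052993534259380288 (by decide +kernel)
         (CovZ.n1 (78912, 75456) (by decide +kernel)
          (CovZ.n2 (78912, 76032) (by decide +kernel)
           (CovZ.n2 (79200, 75744) (by decide +kernel)
            (CovZ.leaf K2_ok TI_l634 _)
            (CovZ.leaf K2_ok TI_l635 _))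
           (CovZ.n1 (78624, 75744) (by decide +kernel)
            (CovZ.leaf K2_ok TI_l636 _)
            (CovZ.n1 (78912, 75744) (by decide +kernel)
             (CovZ.leaf K2_ok TI_l637 _)
             (CovZ.leaf K2_ok TI_l638 _))))
          (CovZ.n1 (79488, 75456) (by decide +kernel)
           (CovZ.n2 (79200, 75168) (by decide +kernel)
            (CovZ.leaf K2_ok TI_l639 _)
            (CovZ.leaf K2_ok TI_l640 _))
           (CovZ.n1 (79200, 75744) (by decide +kernel)
            (CovZ.leaf K2_ok TI_l641 _)
            (CovZ.leaf K2_ok TI_l642 _)))))))))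
    (CovZ.n1 (80640, 78336) (by decide +kernel)
     TI_u16
     TI_u17)))

theorem TI_s1_0 : SqZ TI_M TI_L [0, 7, 6, 1] 78336 73728 4608 1 0 :=
  SqZ.mk (a := 82944) (b := 87552) (c := 73728) (d := 78336) (by norm_num) (by norm_num) (by norm_num) (by norm_num)
    (CovZ.topM TI_LL 12259964326927110866869534626765480155101802249624576528 (by decide +kernel) (CovZ.n2 (85248, 76032) (by decide +kernel)
    (CovZ.subM 8388608 (by decide +kernel)
     (CovZ.n2 (87552, 76032) (by decide +kernel)
      (CovZ.n2 (86400, 74880) (by decide +kernel)
       (CovZ.n2 (86400, 76032) (by decide +kernel)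
        (CovZ.badM (by decide +kernel))
        (CovZ.n1 (85824, 75456) (by decide +kernel)
         (CovZ.n2 (85824, 76032) (by decide +kernel)
          (CovZ.badM (by decide +kernel))
          (CovZ.n1 (85536, 75744) (by decide +kernel)
           (CovZ.leaf K2_ok TI_l3828 _)
           (CovZ.badM (by decide +kernel))))
         (CovZ.badM (by decide +kernel))))
       (CovZ.badM (by decide +kernel)))
      (CovZ.n1 (86400, 77184) (by decide +kernel)
       (CovZ.badM (by decide +kernel))
       (CovZ.n1 (86400, 76032) (by decide +kernel)
        (CovZ.n2 (85824, 76608) (by decide +kernel)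
         (CovZ.badM (by decide +kernel))
         (CovZ.n1 (85824, 76032) (by decide +kernel)
          (CovZ.n2 (85536, 76320) (by decide +kernel)
           (CovZ.badM (by decide +kernel))
           (CovZ.n1 (85536, 76032) (by decide +kernel)
            (CovZ.leaf K2_ok TI_l3829 _)
            (CovZ.badM (by decide +kernel))))
          (CovZ.badM (by decide +kernel))))
        (CovZ.badM (by decide +kernel))))))
    (CovZ.n1 (85248, 73728) (by decide +kernel)
     (CovZ.n2 (84096, 74880) (by decide +kernel)
      (CovZ.subM 162260514769252684800649936764928 (by decide +kernel)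
       (CovZ.n2 (85248, 74880) (by decide +kernel)
        (CovZ.n2 (84672, 74304) (by decide +kernel)
         (CovZ.leaf K2_ok TI_l3830 _)
         (CovZ.n1 (85248, 74304) (by decide +kernel)
          (CovZ.leaf K2_ok TI_l3831 _)
          (CovZ.leaf K2_ok TI_l3832 _)))
        (CovZ.n1 (84672, 75456) (by decide +kernel)
         (CovZ.n2 (85248, 75456) (by decide +kernel)
          (CovZ.n2 (84960, 75168) (by decide +kernel)
           (CovZ.leaf K2_ok TI_l3833 _)
           (CovZ.leaf K2_ok TI_l3834 _))
          (CovZ.n1 (84960, 75744) (by decide +kernel)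
           (CovZ.n2 (85248, 75744) (by decide +kernel)
            (CovZ.leaf K2_ok TI_l3835 _)
            (CovZ.leaf K2_ok TI_l3836 _))
           (CovZ.leaf K2_ok TI_l3837 _)))
         (CovZ.n1 (84672, 74880) (by decide +kernel)
          (CovZ.leaf K2_ok TI_l3838 _)
          (CovZ.leaf K2_ok TI_l3839 _)))))
      (CovZ.n1 (84096, 73728) (by decide +kernel)
       (CovZ.n2 (83520, 74304) (by decide +kernel)
        (CovZ.leaf K2_ok TI_l3840 _)
        (CovZ.leaf K2_ok TI_l3841 _))
       (CovZ.n1 (84672, 74304) (by decide +kernel)
        (CovZ.leaf K2_ok TI_l3842 _)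
        (CovZ.leaf K2_ok TI_l3843 _))))
     (CovZ.subM 8388608 (by decide +kernel)
      (CovZ.n1 (86400, 74880) (by decide +kernel)
       (CovZ.n2 (86400, 73728) (by decide +kernel)
        (CovZ.n2 (85824, 74304) (by decide +kernel)
         (CovZ.badM (by decide +kernel))
         (CovZ.leaf K2_ok TI_l3844 _))
        (CovZ.badM (by decide +kernel)))
       (CovZ.n1 (85248, 74880) (by decide +kernel)
        (CovZ.n2 (85824, 75456) (by decide +kernel)
         (CovZ.n2 (85824, 74880) (by decide +kernel)
          (CovZ.leaf K2_ok TI_l3845 _)
          (CovZ.badM (by decide +kernel)))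
         (CovZ.n1 (85248, 75456) (by decide +kernel)
          (CovZ.n2 (85536, 75744) (by decide +kernel)
           (CovZ.leaf K2_ok TI_l3846 _)
           (CovZ.leaf K2_ok TI_l3847 _))
          (CovZ.leaf K2_ok TI_l3848 _)))
        (CovZ.n1 (85824, 74304) (by decide +kernel)
         (CovZ.leaf K2_ok TI_l3849 _)
         (CovZ.leaf K2_ok TI_l3850 _))))))))
    (CovZ.topM TI_LL 12259964326927111037010718087234711886789105965508682256 (by decide +kernel) (CovZ.n0 (85248, 76032) (by decide +kernel)
    (CovZ.n2 (82944, 76032) (by decide +kernel)
     (CovZ.n2 (84096, 77184) (by decide +kernel)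
      TI_u20
      TI_u21)
     (CovZ.n1 (84096, 74880) (by decide +kernel)
      (CovZ.n2 (82944, 74880) (by decide +kernel)
       (CovZ.n2 (83520, 75456) (by decide +kernel)
        (CovZ.n2 (83520, 74880) (by decide +kernel)
         (CovZ.leaf K2_ok TI_l4186 _)
         (CovZ.leaf K2_ok TI_l4187 _))
        (CovZ.n1 (82944, 75456) (by decide +kernel)
         (CovZ.n2 (83232, 75744) (by decide +kernel)
          (CovZ.leaf K2_ok TI_l4188 _)
          (CovZ.leaf K2_ok TI_l4189 _))
         (CovZ.leaf K2_ok TI_l4190 _)))
       (CovZ.n1 (83520, 74304) (by decide +kernel)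
        (CovZ.leaf K2_ok TI_l4191 _)
        (CovZ.leaf K2_ok TI_l4192 _)))
      (CovZ.n1 (84096, 76032) (by decide +kernel)
       (CovZ.subM 162260514769252684800649936764928 (by decide +kernel)
        (CovZ.n2 (84672, 75456) (by decide +kernel)
         (CovZ.n2 (84096, 75456) (by decide +kernel)
          (CovZ.n2 (84384, 75744) (by decide +kernel)
           (CovZ.leaf K2_ok TI_l4193 _)
           (CovZ.leaf K2_ok TI_l4194 _))
          (CovZ.leaf K2_ok TI_l4195 _))
         (CovZ.n1 (84672, 76032) (by decide +kernel)
          (CovZ.n2 (84960, 75744) (by decide +kernel)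
           (CovZ.leaf K2_ok TI_l4196 _)
           (CovZ.leaf K2_ok TI_l4197 _))
          (CovZ.n1 (84384, 75744) (by decide +kernel)
           (CovZ.leaf K2_ok TI_l4198 _)
           (CovZ.n1 (84672, 75744) (by decide +kernel)
            (CovZ.leaf K2_ok TI_l4199 _)
            (CovZ.leaf K2_ok TI_l4200 _))))))
       (CovZ.n1 (83520, 75456) (by decide +kernel)
        (CovZ.n2 (83520, 76032) (by decide +kernel)
         (CovZ.leaf K2_ok TI_l4201 _)
         (CovZ.n1 (83232, 75744) (by decide +kernel)
          (CovZ.leaf K2_ok TI_l4202 _)
          (CovZ.leaf K2_ok TI_l4203 _)))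
        (CovZ.subM 162260514769252684800649936773632 (by decide +kernel)
         (CovZ.n1 (84096, 75456) (by decide +kernel)
          (CovZ.n2 (83808, 75168) (by decide +kernel)
           (CovZ.leaf K2_ok TI_l4204 _)
           (CovZ.leaf K2_ok TI_l4205 _))
          (CovZ.n1 (83808, 75744) (by decide +kernel)
           (CovZ.n2 (84096, 75744) (by decide +kernel)
            (CovZ.leaf K2_ok TI_l4206 _)
            (CovZ.leaf K2_ok TI_l4207 _))
           (CovZ.leaf K2_ok TI_l4208 _))))))))
    (CovZ.n1 (85248, 78336) (by decide +kernel)
     (CovZ.subM 8388608 (by decide +kernel)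
      (CovZ.n2 (86400, 77184) (by decide +kernel)
       (CovZ.n2 (85248, 77184) (by decide +kernel)
        (CovZ.badM (by decide +kernel))
        (CovZ.n1 (85824, 76608) (by decide +kernel)
         (CovZ.n2 (85248, 76608) (by decide +kernel)
          (CovZ.n2 (85536, 76896) (by decide +kernel)
           (CovZ.n2 (85536, 76608) (by decide +kernel)
            (CovZ.n2 (85392, 76752) (by decide +kernel)
             (CovZ.badM (by decide +kernel))
             (CovZ.n1 (85392, 76608) (by decide +kernel)
              (CovZ.leaf K2_ok TI_l4209 _)
              (CovZ.badM (by decide +kernel))))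
            (CovZ.badM (by decide +kernel)))
           (CovZ.n1 (85248, 76896) (by decide +kernel)
            (CovZ.n2 (85392, 77040) (by decide +kernel)
             (CovZ.n2 (85392, 76896) (by decide +kernel)
              (CovZ.n2 (85320, 76968) (by decide +kernel)
               (CovZ.badM (by decide +kernel))
               (CovZ.n1 (85320, 76896) (by decide +kernel)
                (CovZ.leaf K2_ok TI_l4210 _)
                (CovZ.badM (by decide +kernel))))
              (CovZ.badM (by decide +kernel)))
             (CovZ.n1 (85248, 77040) (by decide +kernel)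
              (CovZ.n2 (85320, 77112) (by decide +kernel)
               (CovZ.n2 (85320, 77040) (by decide +kernel)
                (CovZ.n2 (85284, 77076) (by decide +kernel)
                 (CovZ.badM (by decide +kernel))
                 (CovZ.leaf K2_ok TI_l4211 _))
                (CovZ.badM (by decide +kernel)))
               (CovZ.n1 (85248, 77112) (by decide +kernel)
                (CovZ.n2 (85284, 77148) (by decide +kernel)
                 (CovZ.leaf K2_ok TI_l4212 _)
                 (CovZ.n1 (85248, 77148) (by decide +kernel)
                  (CovZ.n2 (85266, 77166) (by decide +kernel)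
                   (CovZ.leaf K2_ok TI_l4213 _)
                   (CovZ.leaf K2_ok TI_l4214 _))
                  (CovZ.leaf K2_ok TI_l4215 _)))
                (CovZ.leaf K2_ok TI_l4216 _)))
              (CovZ.n1 (85320, 76968) (by decide +kernel)
               (CovZ.n2 (85248, 76968) (by decide +kernel)
                (CovZ.n2 (85284, 77004) (by decide +kernel)
                 (CovZ.leaf K2_ok TI_l4217 _)
                 (CovZ.leaf K2_ok TI_l4218 _))
                (CovZ.leaf K2_ok TI_l4219 _))
               (CovZ.n1 (85320, 77040) (by decide +kernel)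
                (CovZ.badM (by decide +kernel))
                (CovZ.n1 (85284, 77004) (by decide +kernel)
                 (CovZ.leaf K2_ok TI_l4220 _)
                 (CovZ.badM (by decide +kernel)))))))
            (CovZ.n1 (85392, 76752) (by decide +kernel)
             (CovZ.n2 (85248, 76752) (by decide +kernel)
              (CovZ.n2 (85320, 76824) (by decide +kernel)
               (CovZ.leaf K2_ok TI_l4221 _)
               (CovZ.leaf K2_ok TI_l4222 _))
              (CovZ.leaf K2_ok TI_l4223 _))
             (CovZ.n1 (85392, 76896) (by decide +kernel)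
              (CovZ.badM (by decide +kernel))
              (CovZ.n1 (85320, 76824) (by decide +kernel)
               (CovZ.leaf K2_ok TI_l4224 _)
               (CovZ.badM (by decide +kernel)))))))
          (CovZ.n1 (85536, 76320) (by decide +kernel)
           (CovZ.n2 (85248, 76320) (by decide +kernel)
            (CovZ.n2 (85392, 76464) (by decide +kernel)
             (CovZ.leaf K2_ok TI_l4225 _)
             (CovZ.leaf K2_ok TI_l4226 _))
            (CovZ.leaf K2_ok TI_l4227 _))
           (CovZ.n1 (85536, 76608) (by decide +kernel)
            (CovZ.badM (by decide +kernel))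
            (CovZ.n1 (85392, 76464) (by decide +kernel)
             (CovZ.leaf K2_ok TI_l4228 _)
             (CovZ.badM (by decide +kernel))))))
         (CovZ.n1 (85824, 77184) (by decide +kernel)
          (CovZ.badM (by decide +kernel))
          (CovZ.n1 (85536, 76896) (by decide +kernel)
           (CovZ.n2 (85536, 77184) (by decide +kernel)
            (CovZ.badM (by decide +kernel))
            (CovZ.n1 (85392, 77040) (by decide +kernel)
             (CovZ.n2 (85392, 77184) (by decide +kernel)
              (CovZ.badM (by decide +kernel))
              (CovZ.n1 (85320, 77112) (by decide +kernel)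
               (CovZ.n2 (85320, 77184) (by decide +kernel)
                (CovZ.badM (by decide +kernel))
                (CovZ.n1 (85284, 77148) (by decide +kernel)
                 (CovZ.n2 (85284, 77184) (by decide +kernel)
                  (CovZ.badM (by decide +kernel))
                  (CovZ.leaf K2_ok TI_l4229 _))
                 (CovZ.badM (by decide +kernel))))
               (CovZ.badM (by decide +kernel))))
             (CovZ.badM (by decide +kernel))))
           (CovZ.badM (by decide +kernel))))))
       (CovZ.badM (by decide +kernel))))
     (CovZ.n1 (84096, 77184) (by decide +kernel)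
      (CovZ.badM (by decide +kernel))
      (CovZ.subM 162260514769252684800649936764928 (by decide +kernel)
       (CovZ.n1 (85248, 77184) (by decide +kernel)
        (CovZ.n2 (84672, 76608) (by decide +kernel)
         (CovZ.n2 (84672, 77184) (by decide +kernel)
          TI_u22
          TI_u23)
         (CovZ.n1 (85248, 76608) (by decide +kernel)
          (CovZ.n2 (84960, 76320) (by decide +kernel)
           (CovZ.n2 (84960, 76608) (by decide +kernel)
            (CovZ.n2 (85104, 76464) (by decide +kernel)
             (CovZ.leaf K2_ok TI_l4433 _)
             (CovZ.leaf K2_ok TI_l4434 _))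
            (CovZ.n1 (84816, 76464) (by decide +kernel)
             (CovZ.leaf K2_ok TI_l4435 _)
             (CovZ.n1 (84960, 76464) (by decide +kernel)
              (CovZ.leaf K2_ok TI_l4436 _)
              (CovZ.leaf K2_ok TI_l4437 _))))
           (CovZ.n1 (85248, 76320) (by decide +kernel)
            (CovZ.n2 (85104, 76176) (by decide +kernel)
             (CovZ.leaf K2_ok TI_l4438 _)
             (CovZ.leaf K2_ok TI_l4439 _))
            (CovZ.n1 (85104, 76464) (by decide +kernel)
             (CovZ.n2 (85248, 76464) (by decide +kernel)
              (CovZ.leaf K2_ok TI_l4440 _)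
              (CovZ.leaf K2_ok TI_l4441 _))
             (CovZ.leaf K2_ok TI_l4442 _))))
          (CovZ.n1 (84960, 76896) (by decide +kernel)
           (CovZ.n2 (85248, 76896) (by decide +kernel)
            (CovZ.n2 (85104, 76752) (by decide +kernel)
             (CovZ.n2 (85104, 76896) (by decide +kernel)
              (CovZ.leaf K2_ok TI_l4443 _)
              (CovZ.n1 (85032, 76824) (by decide +kernel)
               (CovZ.leaf K2_ok TI_l4444 _)
               (CovZ.n1 (85104, 76824) (by decide +kernel)
                (CovZ.leaf K2_ok TI_l4445 _)
                (CovZ.leaf K2_ok TI_l4446 _))))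
             (CovZ.n1 (85248, 76752) (by decide +kernel)
              (CovZ.leaf K2_ok TI_l4447 _)
              (CovZ.n1 (85176, 76824) (by decide +kernel)
               (CovZ.leaf K2_ok TI_l4448 _)
               (CovZ.leaf K2_ok TI_l4449 _))))
            (CovZ.n1 (85104, 77040) (by decide +kernel)
             (CovZ.n2 (85248, 77040) (by decide +kernel)
              (CovZ.n2 (85176, 76968) (by decide +kernel)
               (CovZ.n2 (85176, 77040) (by decide +kernel)
                (CovZ.leaf K2_ok TI_l4450 _)
                (CovZ.leaf K2_ok TI_l4451 _))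
               (CovZ.n1 (85248, 76968) (by decide +kernel)
                (CovZ.leaf K2_ok TI_l4452 _)
                (CovZ.leaf K2_ok TI_l4453 _)))
              (CovZ.n1 (85176, 77112) (by decide +kernel)
               (CovZ.n2 (85248, 77112) (by decide +kernel)
                (CovZ.n2 (85212, 77076) (by decide +kernel)
                 (CovZ.leaf K2_ok TI_l4454 _)
                 (CovZ.leaf K2_ok TI_l4455 _))
                (CovZ.n1 (85212, 77148) (by decide +kernel)
                 (CovZ.n2 (85248, 77148) (by decide +kernel)
                  (CovZ.leaf K2_ok TI_l4456 _)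
                  (CovZ.n1 (85230, 77166) (by decide +kernel)
                   (CovZ.leaf K2_ok TI_l4457 _)
                   (CovZ.leaf K2_ok TI_l4458 _)))
                 (CovZ.leaf K2_ok TI_l4459 _)))
               (CovZ.n1 (85176, 77040) (by decide +kernel)
                (CovZ.leaf K2_ok TI_l4460 _)
                (CovZ.n1 (85212, 77076) (by decide +kernel)
                 (CovZ.leaf K2_ok TI_l4461 _)
                 (CovZ.leaf K2_ok TI_l4462 _)))))
             (CovZ.n1 (85104, 76896) (by decide +kernel)
              (CovZ.n2 (85032, 76968) (by decide +kernel)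
               (CovZ.n2 (85104, 76968) (by decide +kernel)
                (CovZ.leaf K2_ok TI_l4463 _)
                (CovZ.leaf K2_ok TI_l4464 _))
               (CovZ.leaf K2_ok TI_l4465 _))
              (CovZ.n1 (85176, 76968) (by decide +kernel)
               (CovZ.n2 (85176, 76896) (by decide +kernel)
                (CovZ.leaf K2_ok TI_l4466 _)
                (CovZ.leaf K2_ok TI_l4467 _))
               (CovZ.n1 (85104, 76968) (by decide +kernel)
                (CovZ.leaf K2_ok TI_l4468 _)
                (CovZ.leaf K2_ok TI_l4469 _))))))
           (CovZ.n1 (84960, 76608) (by decide +kernel)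
            (CovZ.n2 (84816, 76752) (by decide +kernel)
             (CovZ.n2 (84960, 76752) (by decide +kernel)
              (CovZ.leaf K2_ok TI_l4470 _)
              (CovZ.n1 (84888, 76824) (by decide +kernel)
               (CovZ.n2 (84960, 76824) (by decide +kernel)
                (CovZ.leaf K2_ok TI_l4471 _)
                (CovZ.leaf K2_ok TI_l4472 _))
               (CovZ.leaf K2_ok TI_l4473 _)))
             (CovZ.n1 (84816, 76608) (by decide +kernel)
              (CovZ.leaf K2_ok TI_l4474 _)
              (CovZ.leaf K2_ok TI_l4475 _)))
            (CovZ.n1 (85104, 76752) (by decide +kernel)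
             (CovZ.n2 (85104, 76608) (by decide +kernel)
              (CovZ.leaf K2_ok TI_l4476 _)
              (CovZ.leaf K2_ok TI_l4477 _))
             (CovZ.n1 (84960, 76752) (by decide +kernel)
              (CovZ.n2 (85032, 76824) (by decide +kernel)
               (CovZ.leaf K2_ok TI_l4478 _)
               (CovZ.leaf K2_ok TI_l4479 _))
              (CovZ.leaf K2_ok TI_l4480 _)))))))
        (CovZ.badM (by decide +kernel))))))))

theorem TI_s0_1 : SqZ TI_M TI_L [0, 7, 6, 1] 78336 73728 4608 0 1 :=
  SqZ.mk (a := 78336) (b := 82944) (c := 78336) (d := 82944) (by norm_num) (by norm_num) (by norm_num) (by norm_num)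
    (CovZ.topM TI_LL 3213863828553652858965687916672635150038679888378151278089615 (by decide +kernel) (CovZ.n2 (80640, 80640) (by decide +kernel)
    (CovZ.n2 (82944, 80640) (by decide +kernel)
     (CovZ.badM (by decide +kernel))
     (CovZ.n1 (81792, 81792) (by decide +kernel)
      (CovZ.n2 (82944, 81792) (by decide +kernel)
       (CovZ.n2 (82368, 81216) (by decide +kernel)
        (CovZ.n2 (82368, 81792) (by decide +kernel)
         TI_u26
         TI_u27)
        (CovZ.subM 1901112911869889991613377353112935421885221991632300490757515 (by decide +kernel)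
         (CovZ.n1 (82944, 81216) (by decide +kernel)
          (CovZ.badM (by decide +kernel))
          (CovZ.n1 (82656, 81504) (by decide +kernel)
           (CovZ.n2 (82944, 81504) (by decide +kernel)
            (CovZ.subM 200867257031898727555367939305198332397941748252069605671169 (by decide +kernel)
             (CovZ.n2 (82800, 81360) (by decide +kernel)
              (CovZ.n2 (82800, 81504) (by decide +kernel)
               (CovZ.subM 200867255532373784442745261543318764696646621092394227990785 (by decide +kernel)
                (CovZ.n2 (82872, 81432) (by decide +kernel)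
                 (CovZ.badM (by decide +kernel))
                 (CovZ.n1 (82872, 81504) (by decide +kernel)
                  (CovZ.n2 (82908, 81468) (by decide +kernel)
                   (CovZ.badM (by decide +kernel))
                   (CovZ.n1 (82908, 81504) (by decide +kernel)
                    (CovZ.leaf K2_ok TI_l1542 _)
                    (CovZ.n1 (82890, 81486) (by decide +kernel)
                     (CovZ.leaf K2_ok TI_l1543 _)
                     (CovZ.n1 (82908, 81486) (by decide +kernel)
                      (CovZ.badM (by decide +kernel))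
                      (CovZ.leaf K2_ok TI_l1544 _)))))
                  (CovZ.n1 (82836, 81468) (by decide +kernel)
                   (CovZ.n2 (82836, 81504) (by decide +kernel)
                    (CovZ.n2 (82854, 81486) (by decide +kernel)
                     (CovZ.badM (by decide +kernel))
                     (CovZ.leaf K2_ok TI_l1545 _))
                    (CovZ.badM (by decide +kernel)))
                   (CovZ.badM (by decide +kernel))))))
               (CovZ.badM (by decide +kernel)))
              (CovZ.n1 (82944, 81360) (by decide +kernel)
               (CovZ.badM (by decide +kernel))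
               (CovZ.n1 (82872, 81432) (by decide +kernel)
                (CovZ.badM (by decide +kernel))
                (CovZ.badM (by decide +kernel))))))
            TI_u28)
           (CovZ.badM (by decide +kernel))))))
       (CovZ.n1 (82368, 82368) (by decide +kernel)
        (CovZ.n2 (82944, 82368) (by decide +kernel)
         (CovZ.n2 (82656, 82080) (by decide +kernel)
          (CovZ.n2 (82656, 82368) (by decide +kernel)
           (CovZ.subM 256012627716835100410264289673088417815721923418787485454721 (by decide +kernel)
            (CovZ.n2 (82800, 82224) (by decide +kernel)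
             (CovZ.n2 (82656, 82224) (by decide +kernel)
              (CovZ.n2 (82728, 82296) (by decide +kernel)
               (CovZ.n2 (82728, 82224) (by decide +kernel)
                (CovZ.leaf K2_ok TI_l1646 _)
                (CovZ.leaf K2_ok TI_l1647 _))
               (CovZ.leaf K3_ok TI_l1648 _))
              (CovZ.leaf K3_ok TI_l1649 _))
             (CovZ.n1 (82800, 82368) (by decide +kernel)
              (CovZ.leaf K3_ok TI_l1650 _)
              (CovZ.n1 (82728, 82296) (by decide +kernel)
               (CovZ.leaf K3_ok TI_l1651 _)
               (CovZ.leaf K3_ok TI_l1652 _)))))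
           (CovZ.n1 (82512, 82224) (by decide +kernel)
            (CovZ.n2 (82512, 82368) (by decide +kernel)
             (CovZ.leaf K3_ok TI_l1653 _)
             (CovZ.n1 (82440, 82296) (by decide +kernel)
              (CovZ.leaf K2_ok TI_l1654 _)
              (CovZ.n1 (82512, 82296) (by decide +kernel)
               (CovZ.leaf K2_ok TI_l1655 _)
               (CovZ.leaf K2_ok TI_l1656 _))))
            (CovZ.subM 256012627717565862379302338774908985317657880898797352128899 (by decide +kernel)
             (CovZ.n1 (82656, 82224) (by decide +kernel)
              (CovZ.n2 (82584, 82152) (by decide +kernel)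
               (CovZ.leaf K3_ok TI_l1657 _)
               (CovZ.n1 (82656, 82152) (by decide +kernel)
                (CovZ.leaf K2_ok TI_l1658 _)
                (CovZ.leaf K2_ok TI_l1659 _)))
              (CovZ.n1 (82584, 82296) (by decide +kernel)
               (CovZ.n2 (82656, 82296) (by decide +kernel)
                (CovZ.leaf K2_ok TI_l1660 _)
                (CovZ.leaf K2_ok TI_l1661 _))
               (CovZ.n1 (82584, 82224) (by decide +kernel)
                (CovZ.leaf K2_ok TI_l1662 _)
                (CovZ.leaf K2_ok TI_l1663 _)))))))
          (CovZ.subM 256012627716835100410264289673088417815721923418787485454721 (by decide +kernel)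
           (CovZ.n1 (82944, 82080) (by decide +kernel)
            (CovZ.n2 (82800, 81936) (by decide +kernel)
             (CovZ.n2 (82800, 82080) (by decide +kernel)
              (CovZ.leaf K3_ok TI_l1664 _)
              (CovZ.n1 (82728, 82008) (by decide +kernel)
               (CovZ.n2 (82728, 82080) (by decide +kernel)
                (CovZ.leaf K2_ok TI_l1665 _)
                (CovZ.leaf K2_ok TI_l1666 _))
               (CovZ.n1 (82800, 82008) (by decide +kernel)
                (CovZ.leaf K2_ok TI_l1667 _)
                (CovZ.leaf K2_ok TI_l1668 _))))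
             (CovZ.n1 (82944, 81936) (by decide +kernel)
              (CovZ.n2 (82872, 81864) (by decide +kernel)
               (CovZ.leaf K2_ok TI_l1669 _)
               (CovZ.n1 (82944, 81864) (by decide +kernel)
                (CovZ.n2 (82908, 81828) (by decide +kernel)
                 (CovZ.leaf K2_ok TI_l1670 _)
                 (CovZ.leaf K2_ok TI_l1671 _))
                (CovZ.leaf K2_ok TI_l1672 _)))
              (CovZ.n1 (82872, 82008) (by decide +kernel)
               (CovZ.n2 (82944, 82008) (by decide +kernel)
                (CovZ.leaf K2_ok TI_l1673 _)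
                (CovZ.leaf K2_ok TI_l1674 _))
               (CovZ.n1 (82872, 81936) (by decide +kernel)
                (CovZ.leaf K2_ok TI_l1675 _)
                (CovZ.leaf K2_ok TI_l1676 _)))))
            (CovZ.n1 (82800, 82224) (by decide +kernel)
             (CovZ.n2 (82944, 82224) (by decide +kernel)
              (CovZ.n2 (82872, 82152) (by decide +kernel)
               (CovZ.leaf K2_ok TI_l1677 _)
               (CovZ.n1 (82944, 82152) (by decide +kernel)
                (CovZ.leaf K2_ok TI_l1678 _)
                (CovZ.leaf K2_ok TI_l1679 _)))
              (CovZ.n1 (82872, 82296) (by decide +kernel)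
               (CovZ.leaf K2_ok TI_l1680 _)
               (CovZ.leaf K2_ok TI_l1681 _)))
             (CovZ.n1 (82800, 82080) (by decide +kernel)
              (CovZ.n2 (82728, 82152) (by decide +kernel)
               (CovZ.n2 (82800, 82152) (by decide +kernel)
                (CovZ.leaf K3_ok TI_l1682 _)
                (CovZ.leaf K2_ok TI_l1683 _))
               (CovZ.n1 (82728, 82080) (by decide +kernel)
                (CovZ.leaf K2_ok TI_l1684 _)
                (CovZ.leaf K2_ok TI_l1685 _)))
              (CovZ.n1 (82872, 82152) (by decide +kernel)
               (CovZ.n2 (82872, 82080) (by decide +kernel)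
                (CovZ.leaf K2_ok TI_l1686 _)
                (CovZ.leaf K2_ok TI_l1687 _))
               (CovZ.leaf K2_ok TI_l1688 _)))))))
         (CovZ.n1 (82656, 82656) (by decide +kernel)
          (CovZ.subM 256012627716835100410264289673088417815721923418787485454721 (by decide +kernel)
           (CovZ.n2 (82944, 82656) (by decide +kernel)
            (CovZ.n2 (82800, 82512) (by decide +kernel)
             (CovZ.n2 (82800, 82656) (by decide +kernel)
              (CovZ.leaf K3_ok TI_l1689 _)
              (CovZ.leaf K3_ok TI_l1690 _))
             (CovZ.n1 (82944, 82512) (by decide +kernel)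
              (CovZ.n2 (82872, 82440) (by decide +kernel)
               (CovZ.leaf K3_ok TI_l1691 _)
               (CovZ.leaf K3_ok TI_l1692 _))
              (CovZ.n1 (82872, 82584) (by decide +kernel)
               (CovZ.leaf K3_ok TI_l1693 _)
               (CovZ.leaf K3_ok TI_l1694 _))))
            (CovZ.n1 (82800, 82800) (by decide +kernel)
             (CovZ.n2 (82944, 82800) (by decide +kernel)
              (CovZ.leaf K3_ok TI_l1695 _)
              (CovZ.leaf K3_ok TI_l1696 _))
             (CovZ.n1 (82800, 82656) (by decide +kernel)
              (CovZ.leaf K3_ok TI_l1697 _)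
              (CovZ.leaf K3_ok TI_l1698 _)))))
          (CovZ.n1 (82656, 82368) (by decide +kernel)
           (CovZ.n2 (82512, 82512) (by decide +kernel)
            (CovZ.subM 256012627717565862379302338774908985317657880898797352128899 (by decide +kernel)
             (CovZ.n2 (82656, 82512) (by decide +kernel)
              (CovZ.n2 (82584, 82440) (by decide +kernel)
               (CovZ.leaf K3_ok TI_l1699 _)
               (CovZ.leaf K2_ok TI_l1700 _))
              (CovZ.n1 (82584, 82584) (by decide +kernel)
               (CovZ.leaf K3_ok TI_l1701 _)
               (CovZ.leaf K3_ok TI_l1702 _))))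
            (CovZ.n1 (82512, 82368) (by decide +kernel)
             (CovZ.n2 (82440, 82440) (by decide +kernel)
              (CovZ.leaf K3_ok TI_l1703 _)
              (CovZ.n1 (82440, 82368) (by decide +kernel)
               (CovZ.leaf K2_ok TI_l1704 _)
               (CovZ.leaf K2_ok TI_l1705 _)))
             (CovZ.n1 (82584, 82440) (by decide +kernel)
              (CovZ.leaf K3_ok TI_l1706 _)
              (CovZ.leaf K3_ok TI_l1707 _))))
           (CovZ.subM 256012627716835100410264289673088417815721923418787485454721 (by decide +kernel)
            (CovZ.n1 (82800, 82512) (by decide +kernel)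
             (CovZ.n2 (82800, 82368) (by decide +kernel)
              (CovZ.n2 (82728, 82440) (by decide +kernel)
               (CovZ.leaf K3_ok TI_l1708 _)
               (CovZ.leaf K3_ok TI_l1709 _))
              (CovZ.leaf K3_ok TI_l1710 _))
             (CovZ.n1 (82656, 82512) (by decide +kernel)
              (CovZ.leaf K3_ok TI_l1711 _)
              (CovZ.leaf K3_ok TI_l1712 _)))))))
        (CovZ.n1 (82368, 81792) (by decide +kernel)
         TI_u31
         TI_u32)))
      (CovZ.badM (by decide +kernel))))
    (CovZ.n1 (80640, 78336) (by decide +kernel)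
     (CovZ.badM (by decide +kernel))
     (CovZ.badM (by decide +kernel)))))
    (CovZ.topM TI_LL 3213863828553652858965688248979634076924844223867886407652751 (by decide +kernel) (CovZ.n0 (80640, 80640) (by decide +kernel)
    (CovZ.badM (by decide +kernel))
    (CovZ.n1 (80640, 82944) (by decide +kernel)
     (CovZ.n2 (81792, 81792) (by decide +kernel)
      (CovZ.n2 (80640, 81792) (by decide +kernel)
       (CovZ.n2 (81216, 82368) (by decide +kernel)
        (CovZ.subM 226325156771193199330382740586869260330806511540882894754959 (by decide +kernel)
         (CovZ.n2 (81216, 81792) (by decide +kernel)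
          TI_u33
          TI_u34))
        (CovZ.subM 588491759839228385443490863468815840789533626172620932102 (by decide +kernel)
         (CovZ.n1 (80640, 82368) (by decide +kernel)
          TI_u37
          TI_u38)))
       (CovZ.badM (by decide +kernel)))
      (CovZ.n1 (81792, 82944) (by decide +kernel)
       TI_u45
       TI_u46))
     (CovZ.subM 425467229915549916608297104178858165252 (by decide +kernel)
      (CovZ.n1 (79488, 81792) (by decide +kernel)
       (CovZ.n2 (79488, 82944) (by decide +kernel)
        (CovZ.n2 (80064, 82368) (by decide +kernel)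
         (CovZ.badM (by decide +kernel))
         (CovZ.n1 (80064, 82944) (by decide +kernel)
          (CovZ.n2 (80352, 82656) (by decide +kernel)
           TI_u47
           TI_u48)
          (CovZ.subM 9903520314283042199192993792 (by decide +kernel)
           (CovZ.n1 (79776, 82656) (by decide +kernel)
            (CovZ.n2 (79776, 82944) (by decide +kernel)
             (CovZ.n2 (79920, 82800) (by decide +kernel)
              (CovZ.badM (by decide +kernel))
              (CovZ.badM (by decide +kernel)))
             (CovZ.badM (by decide +kernel)))
            (CovZ.n1 (80064, 82656) (by decide +kernel)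
             (CovZ.badM (by decide +kernel))
             (CovZ.n1 (79920, 82800) (by decide +kernel)
              (CovZ.n2 (80064, 82800) (by decide +kernel)
               (CovZ.badM (by decide +kernel))
               (CovZ.badM (by decide +kernel)))
              (CovZ.badM (by decide +kernel))))))))
        (CovZ.badM (by decide +kernel)))
       (CovZ.n1 (80640, 81792) (by decide +kernel)
        (CovZ.badM (by decide +kernel))
        (CovZ.n1 (80064, 82368) (by decide +kernel)
         (CovZ.n2 (80640, 82368) (by decide +kernel)
          (CovZ.badM (by decide +kernel))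
          (CovZ.n1 (80352, 82656) (by decide +kernel)
           TI_u49
           TI_u50))
         (CovZ.badM (by decide +kernel)))))))))

theorem TI_s1_1 : SqZ TI_M TI_L [0, 7, 6, 1] 78336 73728 4608 1 1 :=
  SqZ.mk (a := 82944) (b := 87552) (c := 78336) (d := 82944) (by norm_num) (by norm_num) (by norm_num) (by norm_num)
    (CovZ.topM TI_LL 252653344896173297035338823112600561895837303302623475143072 (by decide +kernel) (CovZ.n2 (85248, 80640) (by decide +kernel)
    (CovZ.subM 316912952293123944447943507968 (by decide +kernel)
     (CovZ.n2 (87552, 80640) (by decide +kernel)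
      (CovZ.n2 (86400, 79488) (by decide +kernel)
       (CovZ.n2 (86400, 80640) (by decide +kernel)
        (CovZ.badM (by decide +kernel))
        (CovZ.n1 (85824, 80064) (by decide +kernel)
         (CovZ.n2 (85824, 80640) (by decide +kernel)
          (CovZ.badM (by decide +kernel))
          (CovZ.n1 (85536, 80352) (by decide +kernel)
           (CovZ.n2 (85536, 80640) (by decide +kernel)
            (CovZ.badM (by decide +kernel))
            (CovZ.n1 (85392, 80496) (by decide +kernel)
             (CovZ.n2 (85392, 80640) (by decide +kernel)
              (CovZ.n2 (85464, 80568) (by decide +kernel)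
               (CovZ.n2 (85392, 80568) (by decide +kernel)
                (CovZ.n2 (85428, 80604) (by decide +kernel)
                 (CovZ.badM (by decide +kernel))
                 (CovZ.leaf K3_ok TI_l4481 _))
                (CovZ.badM (by decide +kernel)))
               (CovZ.n1 (85464, 80640) (by decide +kernel)
                (CovZ.leaf K2_ok TI_l4482 _)
                (CovZ.n1 (85428, 80604) (by decide +kernel)
                 (CovZ.leaf K2_ok TI_l4483 _)
                 (CovZ.leaf K2_ok TI_l4484 _))))
              (CovZ.n1 (85320, 80568) (by decide +kernel)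
               (CovZ.n2 (85320, 80640) (by decide +kernel)
                (CovZ.leaf K3_ok TI_l4485 _)
                (CovZ.n1 (85284, 80604) (by decide +kernel)
                 (CovZ.leaf K2_ok TI_l4486 _)
                 (CovZ.leaf K3_ok TI_l4487 _)))
               (CovZ.n1 (85392, 80568) (by decide +kernel)
                (CovZ.n2 (85356, 80532) (by decide +kernel)
                 (CovZ.leaf K3_ok TI_l4488 _)
                 (CovZ.badM (by decide +kernel)))
                (CovZ.n1 (85356, 80604) (by decide +kernel)
                 (CovZ.leaf K2_ok TI_l4489 _)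
                 (CovZ.leaf K2_ok TI_l4490 _)))))
             (CovZ.badM (by decide +kernel))))
           (CovZ.badM (by decide +kernel))))
         (CovZ.badM (by decide +kernel))))
       (CovZ.badM (by decide +kernel)))
      TI_u51))
    (CovZ.subM 86410529155280588088677343728601534496 (by decide +kernel)
     (CovZ.n1 (85248, 78336) (by decide +kernel)
      TI_u52
      TI_u53))))
    (CovZ.topM TI_LL 252653344896173386238319617235132742157746462431423060119969 (by decide +kernel) (CovZ.n0 (85248, 80640) (by decide +kernel)
    (CovZ.n2 (82944, 80640) (by decide +kernel)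
     (CovZ.n2 (84096, 81792) (by decide +kernel)
      (CovZ.n2 (84096, 80640) (by decide +kernel)
       (CovZ.n2 (83520, 81216) (by decide +kernel)
        (CovZ.subM 43643219427390268791536924121871136460832 (by decide +kernel)
         (CovZ.n2 (84096, 81216) (by decide +kernel)
          TI_u56
          TI_u57))
        (CovZ.subM 70368744177664 (by decide +kernel)
         (CovZ.n1 (83520, 80640) (by decide +kernel)
          (CovZ.badM (by decide +kernel))
          (CovZ.n1 (83808, 80928) (by decide +kernel)
           (CovZ.badM (by decide +kernel))
           (CovZ.n1 (83520, 80928) (by decide +kernel)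
            (CovZ.n2 (83664, 81072) (by decide +kernel)
             (CovZ.badM (by decide +kernel))
             (CovZ.badM (by decide +kernel)))
            (CovZ.badM (by decide +kernel)))))))
       (CovZ.subM 85081301159805152504453452732836220960 (by decide +kernel)
        (CovZ.n1 (84672, 81216) (by decide +kernel)
         (CovZ.n2 (84672, 80640) (by decide +kernel)
          (CovZ.n2 (84384, 80928) (by decide +kernel)
           TI_u58
           TI_u59)
          (CovZ.subM 316912952293123944447943508000 (by decide +kernel)
           (CovZ.n1 (84960, 80928) (by decide +kernel)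
            TI_u60
            TI_u61)))
         (CovZ.n1 (84096, 81216) (by decide +kernel)
          (CovZ.n2 (84384, 81504) (by decide +kernel)
           (CovZ.n2 (84384, 81216) (by decide +kernel)
            (CovZ.n2 (84240, 81360) (by decide +kernel)
             (CovZ.n2 (84384, 81360) (by decide +kernel)
              (CovZ.n2 (84312, 81288) (by decide +kernel)
               (CovZ.n2 (84312, 81360) (by decide +kernel)
                (CovZ.leaf K2_ok TI_l5296 _)
                (CovZ.leaf K2_ok TI_l5297 _))
               (CovZ.n1 (84384, 81288) (by decide +kernel)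
                (CovZ.leaf K2_ok TI_l5298 _)
                (CovZ.leaf K2_ok TI_l5299 _)))
              (CovZ.n1 (84312, 81432) (by decide +kernel)
               (CovZ.n2 (84384, 81432) (by decide +kernel)
                (CovZ.leaf K2_ok TI_l5300 _)
                (CovZ.leaf K2_ok TI_l5301 _))
               (CovZ.n1 (84312, 81360) (by decide +kernel)
                (CovZ.leaf K2_ok TI_l5302 _)
                (CovZ.leaf K2_ok TI_l5303 _))))
             (CovZ.n1 (84240, 81216) (by decide +kernel)
              (CovZ.n2 (84168, 81288) (by decide +kernel)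
               (CovZ.n2 (84240, 81288) (by decide +kernel)
                (CovZ.leaf K2_ok TI_l5304 _)
                (CovZ.leaf K2_ok TI_l5305 _))
               (CovZ.n1 (84168, 81216) (by decide +kernel)
                (CovZ.n2 (84132, 81252) (by decide +kernel)
                 (CovZ.leaf K2_ok TI_l5306 _)
                 (CovZ.leaf K2_ok TI_l5307 _))
                (CovZ.leaf K2_ok TI_l5308 _)))
              (CovZ.n1 (84312, 81288) (by decide +kernel)
               (CovZ.n2 (84312, 81216) (by decide +kernel)
                (CovZ.leaf K2_ok TI_l5309 _)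
                (CovZ.leaf K2_ok TI_l5310 _))
               (CovZ.n1 (84240, 81288) (by decide +kernel)
                (CovZ.leaf K2_ok TI_l5311 _)
                (CovZ.leaf K2_ok TI_l5312 _)))))
            (CovZ.subM 324835543981972306063871145279520 (by decide +kernel)
             (CovZ.n1 (84528, 81360) (by decide +kernel)
              (CovZ.n2 (84528, 81216) (by decide +kernel)
               (CovZ.n2 (84456, 81288) (by decide +kernel)
                (CovZ.n2 (84528, 81288) (by decide +kernel)
                 (CovZ.leaf K2_ok TI_l5313 _)
                 (CovZ.leaf K2_ok TI_l5314 _))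
                (CovZ.n1 (84456, 81216) (by decide +kernel)
                 (CovZ.leaf K2_ok TI_l5315 _)
                 (CovZ.leaf K2_ok TI_l5316 _)))
               (CovZ.n1 (84600, 81288) (by decide +kernel)
                (CovZ.n2 (84600, 81216) (by decide +kernel)
                 (CovZ.leaf K2_ok TI_l5317 _)
                 (CovZ.leaf K2_ok TI_l5318 _))
                (CovZ.leaf K2_ok TI_l5319 _)))
              (CovZ.n1 (84384, 81360) (by decide +kernel)
               (CovZ.n2 (84456, 81432) (by decide +kernel)
                (CovZ.n2 (84456, 81360) (by decide +kernel)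
                 (CovZ.leaf K2_ok TI_l5320 _)
                 (CovZ.leaf K2_ok TI_l5321 _))
                (CovZ.leaf K2_ok TI_l5322 _))
               (CovZ.leaf K2_ok TI_l5323 _)))))
           (CovZ.n1 (84096, 81504) (by decide +kernel)
            (CovZ.n2 (84240, 81648) (by decide +kernel)
             (CovZ.n2 (84240, 81504) (by decide +kernel)
              (CovZ.n2 (84168, 81576) (by decide +kernel)
               (CovZ.n2 (84240, 81576) (by decide +kernel)
                (CovZ.leaf K2_ok TI_l5324 _)
                (CovZ.leaf K2_ok TI_l5325 _))
               (CovZ.n1 (84168, 81504) (by decide +kernel)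
                (CovZ.leaf K2_ok TI_l5326 _)
                (CovZ.leaf K2_ok TI_l5327 _)))
              (CovZ.n1 (84312, 81576) (by decide +kernel)
               (CovZ.leaf K2_ok TI_l5328 _)
               (CovZ.leaf K2_ok TI_l5329 _)))
             (CovZ.n1 (84096, 81648) (by decide +kernel)
              (CovZ.n2 (84168, 81720) (by decide +kernel)
               (CovZ.leaf K2_ok TI_l5330 _)
               (CovZ.leaf K2_ok TI_l5331 _))
              (CovZ.leaf K2_ok TI_l5332 _)))
            (CovZ.n1 (84240, 81360) (by decide +kernel)
             (CovZ.n2 (84096, 81360) (by decide +kernel)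
              (CovZ.n2 (84168, 81432) (by decide +kernel)
               (CovZ.n2 (84168, 81360) (by decide +kernel)
                (CovZ.leaf K2_ok TI_l5333 _)
                (CovZ.leaf K2_ok TI_l5334 _))
               (CovZ.leaf K2_ok TI_l5335 _))
              (CovZ.n1 (84168, 81288) (by decide +kernel)
               (CovZ.n2 (84096, 81288) (by decide +kernel)
                (CovZ.leaf K2_ok TI_l5336 _)
                (CovZ.leaf K2_ok TI_l5337 _))
               (CovZ.n1 (84168, 81360) (by decide +kernel)
                (CovZ.leaf K2_ok TI_l5338 _)
                (CovZ.leaf K2_ok TI_l5339 _))))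
             (CovZ.n1 (84240, 81504) (by decide +kernel)
              (CovZ.leaf K2_ok TI_l5340 _)
              (CovZ.n1 (84168, 81432) (by decide +kernel)
               (CovZ.leaf K2_ok TI_l5341 _)
               (CovZ.n1 (84240, 81432) (by decide +kernel)
                (CovZ.leaf K2_ok TI_l5342 _)
                (CovZ.leaf K2_ok TI_l5343 _)))))))
          (CovZ.n1 (84384, 80928) (by decide +kernel)
           TI_u62
           TI_u63)))))
      (CovZ.n1 (82944, 81792) (by decide +kernel)
       TI_u68
       TI_u69))
     (CovZ.subM 86410529155280588088677343728601534496 (by decide +kernel)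
      (CovZ.n1 (84096, 79488) (by decide +kernel)
       (CovZ.badM (by decide +kernel))
       (CovZ.n1 (84096, 80640) (by decide +kernel)
        (CovZ.n2 (84672, 80064) (by decide +kernel)
         (CovZ.badM (by decide +kernel))
         (CovZ.n1 (84672, 80640) (by decide +kernel)
          (CovZ.subM 316912952293123940049896996896 (by decide +kernel)
           (CovZ.n2 (84960, 80352) (by decide +kernel)
            (CovZ.badM (by decide +kernel))
            (CovZ.n1 (84960, 80640) (by decide +kernel)
             TI_u70
             TI_u71)))
          (CovZ.badM (by decide +kernel))))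
        (CovZ.badM (by decide +kernel))))))
    (CovZ.n1 (85248, 82944) (by decide +kernel)
     TI_u74
     TI_u75)))

theorem TI_s0_2 : SqZ TI_M TI_L [0, 7, 6, 1] 78336 73728 4608 0 2 :=
  SqZ.mk (a := 78336) (b := 82944) (c := 82944) (d := 87552) (by norm_num) (by norm_num) (by norm_num) (by norm_num)
    (CovZ.topM TI_LL 3213863828553652858965688248979634076924844223867886407652751 (by decide +kernel) (CovZ.n2 (80640, 85248) (by decide +kernel)
    TI_u80
    TI_u81))
    (CovZ.topM TI_LL 3213863828553652858965347966612703234941066566218255446447503 (by decide +kernel) (CovZ.n0 (80640, 85248) (by decide +kernel)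
    (CovZ.subM 85184862984707932830639454547896960004 (by decide +kernel)
     (CovZ.n2 (78336, 85248) (by decide +kernel)
      (CovZ.n2 (79488, 86400) (by decide +kernel)
       (CovZ.n2 (79488, 85248) (by decide +kernel)
        (CovZ.subM 85091360917668906882381036030879858688 (by decide +kernel)
         (CovZ.n2 (78912, 85824) (by decide +kernel)
          (CovZ.n2 (79488, 85824) (by decide +kernel)
           (CovZ.n2 (79200, 85536) (by decide +kernel)
            (CovZ.leaf K3_ok TI_l3745 _)
            (CovZ.n1 (79488, 85536) (by decide +kernel)
             (CovZ.leaf K3_ok TI_l3746 _)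
             (CovZ.leaf K3_ok TI_l3747 _)))
           (CovZ.n1 (79200, 86112) (by decide +kernel)
            (CovZ.leaf K3_ok TI_l3748 _)
            (CovZ.n1 (79200, 85824) (by decide +kernel)
             (CovZ.badM (by decide +kernel))
             (CovZ.leaf K3_ok TI_l3749 _))))
          (CovZ.n1 (78912, 85248) (by decide +kernel)
           (CovZ.badM (by decide +kernel))
           (CovZ.n1 (79200, 85536) (by decide +kernel)
            (CovZ.n2 (79200, 85248) (by decide +kernel)
             (CovZ.badM (by decide +kernel))
             (CovZ.leaf K3_ok TI_l3750 _))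
            (CovZ.badM (by decide +kernel))))))
        (CovZ.n1 (80064, 85824) (by decide +kernel)
         (CovZ.n2 (80064, 85248) (by decide +kernel)
          (CovZ.subM 85174437825861789521901080633443090432 (by decide +kernel)
           (CovZ.n2 (79776, 85536) (by decide +kernel)
            (CovZ.n2 (80064, 85536) (by decide +kernel)
             (CovZ.leaf K3_ok TI_l3751 _)
             (CovZ.leaf K3_ok TI_l3752 _))
            (CovZ.n1 (79776, 85248) (by decide +kernel)
             (CovZ.leaf K2_ok TI_l3753 _)
             (CovZ.leaf K2_ok TI_l3754 _))))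
          (CovZ.n1 (80352, 85536) (by decide +kernel)
           (CovZ.n2 (80352, 85248) (by decide +kernel)
            (CovZ.leaf K3_ok TI_l3755 _)
            (CovZ.leaf K3_ok TI_l3756 _))
           (CovZ.leaf K3_ok TI_l3757 _)))
         (CovZ.n1 (79488, 85824) (by decide +kernel)
          (CovZ.n2 (79776, 86112) (by decide +kernel)
           (CovZ.leaf K2_ok TI_l3758 _)
           (CovZ.leaf K3_ok TI_l3759 _))
          (CovZ.leaf K3_ok TI_l3760 _))))
       (CovZ.subM 85091360917668906882381036030879858688 (by decide +kernel)
        (CovZ.n1 (78336, 86400) (by decide +kernel)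
         (CovZ.n2 (78912, 86976) (by decide +kernel)
          (CovZ.n2 (78912, 86400) (by decide +kernel)
           (CovZ.badM (by decide +kernel))
           (CovZ.n1 (79200, 86688) (by decide +kernel)
            (CovZ.leaf K3_ok TI_l3761 _)
            (CovZ.badM (by decide +kernel))))
          (CovZ.badM (by decide +kernel)))
         (CovZ.n1 (78912, 85824) (by decide +kernel)
          (CovZ.badM (by decide +kernel))
          (CovZ.n1 (78912, 86400) (by decide +kernel)
           (CovZ.leaf K2_ok TI_l3762 _)
           (CovZ.badM (by decide +kernel)))))))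
      (CovZ.n1 (79488, 84096) (by decide +kernel)
       (CovZ.subM 85070591730234767571866914045562978304 (by decide +kernel)
        (CovZ.n2 (78336, 84096) (by decide +kernel)
         (CovZ.n2 (78912, 84672) (by decide +kernel)
          (CovZ.n2 (78912, 84096) (by decide +kernel)
           (CovZ.badM (by decide +kernel))
           (CovZ.n1 (79200, 84384) (by decide +kernel)
            (CovZ.n2 (79200, 84096) (by decide +kernel)
             (CovZ.badM (by decide +kernel))
             (CovZ.n1 (79344, 84240) (by decide +kernel)
              (CovZ.n2 (79344, 84096) (by decide +kernel)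
               (CovZ.badM (by decide +kernel))
               (CovZ.leaf K2_ok TI_l3763 _))
              (CovZ.badM (by decide +kernel))))
            (CovZ.badM (by decide +kernel))))
          (CovZ.badM (by decide +kernel)))
         (CovZ.n1 (78912, 83520) (by decide +kernel)
          (CovZ.badM (by decide +kernel))
          (CovZ.n1 (78912, 84096) (by decide +kernel)
           (CovZ.n2 (79200, 83808) (by decide +kernel)
            (CovZ.badM (by decide +kernel))
            (CovZ.n1 (79200, 84096) (by decide +kernel)
             (CovZ.leaf K3_ok TI_l3764 _)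
             (CovZ.badM (by decide +kernel))))
           (CovZ.badM (by decide +kernel))))))
       (CovZ.n1 (79488, 85248) (by decide +kernel)
        (CovZ.n2 (80064, 84672) (by decide +kernel)
         (CovZ.subM 85174437825861789521901080633443090432 (by decide +kernel)
          (CovZ.n2 (79488, 84672) (by decide +kernel)
           (CovZ.n2 (79776, 84960) (by decide +kernel)
            (CovZ.n2 (79776, 84672) (by decide +kernel)
             (CovZ.leaf K3_ok TI_l3765 _)
             (CovZ.leaf K3_ok TI_l3766 _))
            (CovZ.leaf K3_ok TI_l3767 _))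
           (CovZ.n1 (79776, 84384) (by decide +kernel)
            (CovZ.n2 (79488, 84384) (by decide +kernel)
             (CovZ.n2 (79632, 84528) (by decide +kernel)
              (CovZ.leaf K3_ok TI_l3768 _)
              (CovZ.leaf K3_ok TI_l3769 _))
             (CovZ.leaf K3_ok TI_l3770 _))
            (CovZ.n1 (79776, 84672) (by decide +kernel)
             (CovZ.leaf K3_ok TI_l3771 _)
             (CovZ.n1 (79632, 84528) (by decide +kernel)
              (CovZ.leaf K3_ok TI_l3772 _)
              (CovZ.leaf K3_ok TI_l3773 _))))))
         (CovZ.n1 (80064, 85248) (by decide +kernel)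
          (CovZ.leaf K3_ok TI_l3774 _)
          (CovZ.subM 85174437825861789521901080633443090432 (by decide +kernel)
           (CovZ.n1 (79776, 84960) (by decide +kernel)
            (CovZ.leaf K2_ok TI_l3775 _)
            (CovZ.n1 (80064, 84960) (by decide +kernel)
             (CovZ.n2 (79920, 84816) (by decide +kernel)
              (CovZ.leaf K3_ok TI_l3776 _)
              (CovZ.leaf K3_ok TI_l3777 _))
             (CovZ.leaf K3_ok TI_l3778 _))))))
        (CovZ.subM 85091360917668906882381036030879858688 (by decide +kernel)
         (CovZ.n1 (78912, 84672) (by decide +kernel)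
          (CovZ.n2 (78912, 85248) (by decide +kernel)
           (CovZ.leaf K3_ok TI_l3779 _)
           (CovZ.badM (by decide +kernel)))
          (CovZ.n1 (79488, 84672) (by decide +kernel)
           (CovZ.n2 (79200, 84384) (by decide +kernel)
            (CovZ.n2 (79200, 84672) (by decide +kernel)
             (CovZ.leaf K3_ok TI_l3780 _)
             (CovZ.badM (by decide +kernel)))
            (CovZ.n1 (79488, 84384) (by decide +kernel)
             (CovZ.n2 (79344, 84240) (by decide +kernel)
              (CovZ.leaf K3_ok TI_l3781 _)
              (CovZ.n1 (79488, 84240) (by decide +kernel)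
               (CovZ.leaf K3_ok TI_l3782 _)
               (CovZ.leaf K3_ok TI_l3783 _)))
             (CovZ.n1 (79344, 84528) (by decide +kernel)
              (CovZ.leaf K3_ok TI_l3784 _)
              (CovZ.leaf K3_ok TI_l3785 _))))
           (CovZ.n1 (79200, 84960) (by decide +kernel)
            (CovZ.n2 (79488, 84960) (by decide +kernel)
             (CovZ.n2 (79344, 84816) (by decide +kernel)
              (CovZ.leaf K3_ok TI_l3786 _)
              (CovZ.leaf K3_ok TI_l3787 _))
             (CovZ.leaf K2_ok TI_l3788 _))
            (CovZ.n1 (79200, 84672) (by decide +kernel)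
             (CovZ.badM (by decide +kernel))
             (CovZ.leaf K3_ok TI_l3789 _))))))))))
    (CovZ.n1 (80640, 87552) (by decide +kernel)
     (CovZ.n2 (81792, 86400) (by decide +kernel)
      (CovZ.n2 (80640, 86400) (by decide +kernel)
       (CovZ.n2 (81216, 86976) (by decide +kernel)
        (CovZ.n2 (81216, 86400) (by decide +kernel)
         (CovZ.leaf K3_ok TI_l3790 _)
         (CovZ.leaf K2_ok TI_l3791 _))
        (CovZ.leaf K3_ok TI_l3792 _))
       (CovZ.n1 (81216, 85824) (by decide +kernel)
        (CovZ.n2 (80640, 85824) (by decide +kernel)
         (CovZ.n2 (80928, 86112) (by decide +kernel)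
          (CovZ.leaf K3_ok TI_l3793 _)
          (CovZ.leaf K3_ok TI_l3794 _))
         (CovZ.leaf K3_ok TI_l3795 _))
        (CovZ.n1 (81216, 86400) (by decide +kernel)
         (CovZ.leaf K3_ok TI_l3796 _)
         (CovZ.n1 (80928, 86112) (by decide +kernel)
          (CovZ.leaf K3_ok TI_l3797 _)
          (CovZ.leaf K3_ok TI_l3798 _)))))
      (CovZ.n1 (81792, 87552) (by decide +kernel)
       (CovZ.leaf K3_ok TI_l3799 _)
       (CovZ.n1 (81216, 86976) (by decide +kernel)
        (CovZ.leaf K2_ok TI_l3800 _)
        (CovZ.n1 (81792, 86976) (by decide +kernel)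
         (CovZ.leaf K3_ok TI_l3801 _)
         (CovZ.leaf K3_ok TI_l3802 _)))))
     (CovZ.subM 85184862984707932830639454547896960004 (by decide +kernel)
      (CovZ.n1 (79488, 86400) (by decide +kernel)
       (CovZ.n2 (79488, 87552) (by decide +kernel)
        (CovZ.n2 (80064, 86976) (by decide +kernel)
         (CovZ.n2 (79488, 86976) (by decide +kernel)
          (CovZ.n2 (79776, 87264) (by decide +kernel)
           (CovZ.leaf K3_ok TI_l3803 _)
           (CovZ.leaf K3_ok TI_l3804 _))
          (CovZ.leaf K2_ok TI_l3805 _))
         (CovZ.n1 (80064, 87552) (by decide +kernel)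
          (CovZ.leaf K2_ok TI_l3806 _)
          (CovZ.n1 (79776, 87264) (by decide +kernel)
           (CovZ.leaf K2_ok TI_l3807 _)
           (CovZ.leaf K3_ok TI_l3808 _))))
        (CovZ.subM 85091360917668906882381036030879858688 (by decide +kernel)
         (CovZ.n1 (78912, 86976) (by decide +kernel)
          (CovZ.n2 (78912, 87552) (by decide +kernel)
           (CovZ.leaf K2_ok TI_l3809 _)
           (CovZ.badM (by decide +kernel)))
          (CovZ.n1 (79488, 86976) (by decide +kernel)
           (CovZ.n2 (79200, 86688) (by decide +kernel)
            (CovZ.leaf K2_ok TI_l3810 _)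
            (CovZ.leaf K2_ok TI_l3811 _))
           (CovZ.n1 (79200, 87264) (by decide +kernel)
            (CovZ.leaf K2_ok TI_l3812 _)
            (CovZ.leaf K2_ok TI_l3813 _))))))
       (CovZ.n1 (80640, 86400) (by decide +kernel)
        (CovZ.n2 (80064, 85824) (by decide +kernel)
         (CovZ.n2 (80064, 86400) (by decide +kernel)
          (CovZ.leaf K3_ok TI_l3814 _)
          (CovZ.n1 (79776, 86112) (by decide +kernel)
           (CovZ.leaf K2_ok TI_l3815 _)
           (CovZ.leaf K3_ok TI_l3816 _)))
         (CovZ.n1 (80640, 85824) (by decide +kernel)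
          (CovZ.n2 (80352, 85536) (by decide +kernel)
           (CovZ.leaf K3_ok TI_l3817 _)
           (CovZ.leaf K3_ok TI_l3818 _))
          (CovZ.n1 (80352, 86112) (by decide +kernel)
           (CovZ.leaf K3_ok TI_l3819 _)
           (CovZ.leaf K3_ok TI_l3820 _))))
        (CovZ.n1 (80064, 86976) (by decide +kernel)
         (CovZ.n2 (80640, 86976) (by decide +kernel)
          (CovZ.n2 (80352, 86688) (by decide +kernel)
           (CovZ.leaf K2_ok TI_l3821 _)
           (CovZ.leaf K3_ok TI_l3822 _))
          (CovZ.leaf K3_ok TI_l3823 _))
         (CovZ.n1 (80064, 86400) (by decide +kernel)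
          (CovZ.n2 (79776, 86688) (by decide +kernel)
           (CovZ.leaf K3_ok TI_l3824 _)
           (CovZ.leaf K2_ok TI_l3825 _))
          (CovZ.n1 (80352, 86688) (by decide +kernel)
           (CovZ.leaf K3_ok TI_l3826 _)
           (CovZ.leaf K2_ok TI_l3827 _))))))))))

theorem TI_s1_2 : SqZ TI_M TI_L [0, 7, 6, 1] 78336 73728 4608 1 2 :=
  SqZ.mk (a := 82944) (b := 87552) (c := 82944) (d := 87552) (by norm_num) (by norm_num) (by norm_num) (by norm_num)
    (CovZ.topM TI_LL 252653344896173386238319617235132742157746462431423060119969 (by decide +kernel) (CovZ.n2 (85248, 85248) (by decide +kernel)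
    (CovZ.subM 316912952293123944447943507968 (by decide +kernel)
     (CovZ.n2 (87552, 85248) (by decide +kernel)
      (CovZ.n2 (86400, 84096) (by decide +kernel)
       (CovZ.n2 (86400, 85248) (by decide +kernel)
        (CovZ.leaf K3_ok TI_l6448 _)
        (CovZ.n1 (85824, 84672) (by decide +kernel)
         (CovZ.n2 (85824, 85248) (by decide +kernel)
          (CovZ.leaf K2_ok TI_l6449 _)
          (CovZ.leaf K2_ok TI_l6450 _))
         (CovZ.n1 (86400, 84672) (by decide +kernel)
          (CovZ.n2 (86112, 84384) (by decide +kernel)
           (CovZ.leaf K2_ok TI_l6451 _)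
           (CovZ.leaf K2_ok TI_l6452 _))
          (CovZ.leaf K3_ok TI_l6453 _))))
       (CovZ.n1 (87552, 84096) (by decide +kernel)
        (CovZ.n2 (86976, 83520) (by decide +kernel)
         (CovZ.n2 (86976, 84096) (by decide +kernel)
          (CovZ.badM (by decide +kernel))
          (CovZ.n1 (86688, 83808) (by decide +kernel)
           (CovZ.leaf K2_ok TI_l6454 _)
           (CovZ.badM (by decide +kernel))))
         (CovZ.badM (by decide +kernel)))
        (CovZ.n1 (86976, 84672) (by decide +kernel)
         (CovZ.badM (by decide +kernel))
         (CovZ.n1 (86976, 84096) (by decide +kernel)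
          (CovZ.n2 (86688, 84384) (by decide +kernel)
           (CovZ.badM (by decide +kernel))
           (CovZ.leaf K2_ok TI_l6455 _))
          (CovZ.badM (by decide +kernel))))))
      (CovZ.n1 (86400, 86400) (by decide +kernel)
       (CovZ.n2 (87552, 86400) (by decide +kernel)
        (CovZ.n2 (86976, 85824) (by decide +kernel)
         (CovZ.leaf K2_ok TI_l6456 _)
         (CovZ.badM (by decide +kernel)))
        (CovZ.n1 (86976, 86976) (by decide +kernel)
         (CovZ.badM (by decide +kernel))
         (CovZ.n1 (86976, 86400) (by decide +kernel)
          (CovZ.leaf K3_ok TI_l6457 _)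
          (CovZ.badM (by decide +kernel)))))
       (CovZ.n1 (86400, 85248) (by decide +kernel)
        (CovZ.n2 (85824, 85824) (by decide +kernel)
         (CovZ.n2 (86400, 85824) (by decide +kernel)
          (CovZ.leaf K3_ok TI_l6458 _)
          (CovZ.leaf K3_ok TI_l6459 _))
         (CovZ.n1 (85824, 85248) (by decide +kernel)
          (CovZ.n2 (85536, 85536) (by decide +kernel)
           (CovZ.leaf K2_ok TI_l6460 _)
           (CovZ.leaf K3_ok TI_l6461 _))
          (CovZ.leaf K3_ok TI_l6462 _)))
        (CovZ.n1 (86976, 85824) (by decide +kernel)
         (CovZ.n2 (86976, 85248) (by decide +kernel)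
          (CovZ.leaf K2_ok TI_l6463 _)
          (CovZ.badM (by decide +kernel)))
         (CovZ.leaf K3_ok TI_l6464 _))))))
    (CovZ.n1 (85248, 82944) (by decide +kernel)
     (CovZ.n2 (84096, 84096) (by decide +kernel)
      (CovZ.subM 85102070347239291814967574718153101344 (by decide +kernel)
       (CovZ.n2 (85248, 84096) (by decide +kernel)
        (CovZ.n2 (84672, 83520) (by decide +kernel)
         (CovZ.n2 (84672, 84096) (by decide +kernel)
          (CovZ.leaf K2_ok TI_l6465 _)
          (CovZ.n1 (84384, 83808) (by decide +kernel)
           (CovZ.leaf K3_ok TI_l6466 _)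
           (CovZ.n1 (84672, 83808) (by decide +kernel)
            (CovZ.leaf K2_ok TI_l6467 _)
            (CovZ.leaf K2_ok TI_l6468 _))))
         (CovZ.subM 316912952293123944447943508000 (by decide +kernel)
          (CovZ.n1 (85248, 83520) (by decide +kernel)
           (CovZ.n2 (84960, 83232) (by decide +kernel)
            (CovZ.leaf K2_ok TI_l6469 _)
            (CovZ.n1 (85248, 83232) (by decide +kernel)
             (CovZ.leaf K2_ok TI_l6470 _)
             (CovZ.leaf K2_ok TI_l6471 _)))
           (CovZ.n1 (84960, 83808) (by decide +kernel)
            (CovZ.leaf K2_ok TI_l6472 _)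
            (CovZ.n1 (84960, 83520) (by decide +kernel)
             (CovZ.leaf K2_ok TI_l6473 _)
             (CovZ.leaf K2_ok TI_l6474 _))))))
        (CovZ.n1 (84672, 84672) (by decide +kernel)
         (CovZ.subM 316912952293123944447943508000 (by decide +kernel)
          (CovZ.n2 (85248, 84672) (by decide +kernel)
           (CovZ.n2 (84960, 84384) (by decide +kernel)
            (CovZ.leaf K3_ok TI_l6475 _)
            (CovZ.leaf K3_ok TI_l6476 _))
           (CovZ.n1 (84960, 84960) (by decide +kernel)
            (CovZ.leaf K3_ok TI_l6477 _)
            (CovZ.leaf K3_ok TI_l6478 _))))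
         (CovZ.n1 (84672, 84096) (by decide +kernel)
          (CovZ.n2 (84384, 84384) (by decide +kernel)
           (CovZ.leaf K3_ok TI_l6479 _)
           (CovZ.n1 (84384, 84096) (by decide +kernel)
            (CovZ.leaf K3_ok TI_l6480 _)
            (CovZ.leaf K3_ok TI_l6481 _)))
          (CovZ.n1 (84960, 84384) (by decide +kernel)
           (CovZ.leaf K2_ok TI_l6482 _)
           (CovZ.leaf K3_ok TI_l6483 _))))))
      (CovZ.n1 (84096, 82944) (by decide +kernel)
       (CovZ.n2 (83520, 83520) (by decide +kernel)
        (CovZ.subM 43643240196577702930847442747456080711968 (by decide +kernel)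
         (CovZ.n2 (84096, 83520) (by decide +kernel)
          (CovZ.n2 (83808, 83232) (by decide +kernel)
           (CovZ.n2 (83808, 83520) (by decide +kernel)
            (CovZ.leaf K2_ok TI_l6484 _)
            (CovZ.leaf K2_ok TI_l6485 _))
           (CovZ.n1 (84096, 83232) (by decide +kernel)
            (CovZ.leaf K3_ok TI_l6486 _)
            (CovZ.leaf K3_ok TI_l6487 _)))
          (CovZ.n1 (83808, 83808) (by decide +kernel)
           (CovZ.n2 (84096, 83808) (by decide +kernel)
            (CovZ.leaf K2_ok TI_l6488 _)
            (CovZ.leaf K2_ok TI_l6489 _))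
           (CovZ.n1 (83808, 83520) (by decide +kernel)
            (CovZ.leaf K2_ok TI_l6490 _)
            (CovZ.leaf K3_ok TI_l6491 _)))))
        (CovZ.n1 (83520, 82944) (by decide +kernel)
         (CovZ.n2 (83232, 83232) (by decide +kernel)
          (CovZ.n2 (83520, 83232) (by decide +kernel)
           (CovZ.n2 (83376, 83088) (by decide +kernel)
            (CovZ.leaf K2_ok TI_l6492 _)
            (CovZ.leaf K3_ok TI_l6493 _))
           (CovZ.n1 (83376, 83376) (by decide +kernel)
            (CovZ.leaf K3_ok TI_l6494 _)
            (CovZ.leaf K3_ok TI_l6495 _)))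
          (CovZ.n1 (83232, 82944) (by decide +kernel)
           (CovZ.n2 (83088, 83088) (by decide +kernel)
            (CovZ.leaf K2_ok TI_l6496 _)
            (CovZ.n1 (83088, 82944) (by decide +kernel)
             (CovZ.leaf K3_ok TI_l6497 _)
             (CovZ.leaf K3_ok TI_l6498 _)))
           (CovZ.n1 (83376, 83088) (by decide +kernel)
            (CovZ.leaf K2_ok TI_l6499 _)
            (CovZ.leaf K3_ok TI_l6500 _))))
         (CovZ.subM 43643240196577702930847442747456080711968 (by decide +kernel)
          (CovZ.n1 (83808, 83232) (by decide +kernel)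
           (CovZ.n2 (83808, 82944) (by decide +kernel)
            (CovZ.n2 (83664, 83088) (by decide +kernel)
             (CovZ.leaf K2_ok TI_l6501 _)
             (CovZ.leaf K2_ok TI_l6502 _))
            (CovZ.leaf K2_ok TI_l6503 _))
           (CovZ.leaf K3_ok TI_l6504 _)))))
       (CovZ.subM 85102070347239291814967574718153101344 (by decide +kernel)
        (CovZ.n1 (84672, 83520) (by decide +kernel)
         (CovZ.n2 (84672, 82944) (by decide +kernel)
          (CovZ.n2 (84384, 83232) (by decide +kernel)
           (CovZ.n2 (84672, 83232) (by decide +kernel)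
            (CovZ.leaf K2_ok TI_l6505 _)
            (CovZ.leaf K2_ok TI_l6506 _))
           (CovZ.n1 (84384, 82944) (by decide +kernel)
            (CovZ.leaf K2_ok TI_l6507 _)
            (CovZ.leaf K2_ok TI_l6508 _)))
          (CovZ.n1 (84960, 83232) (by decide +kernel)
           (CovZ.n2 (84960, 82944) (by decide +kernel)
            (CovZ.leaf K2_ok TI_l6509 _)
            (CovZ.leaf K2_ok TI_l6510 _))
           (CovZ.leaf K2_ok TI_l6511 _)))
         (CovZ.n1 (84096, 83520) (by decide +kernel)
          (CovZ.n2 (84384, 83808) (by decide +kernel)
           (CovZ.n2 (84384, 83520) (by decide +kernel)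
            (CovZ.leaf K2_ok TI_l6512 _)
            (CovZ.leaf K2_ok TI_l6513 _))
           (CovZ.leaf K2_ok TI_l6514 _))
          (CovZ.leaf K3_ok TI_l6515 _))))))
     (CovZ.subM 316912952293123944447943507968 (by decide +kernel)
      (CovZ.n1 (86400, 84096) (by decide +kernel)
       (CovZ.n2 (86400, 82944) (by decide +kernel)
        (CovZ.n2 (85824, 83520) (by decide +kernel)
         (CovZ.n2 (86400, 83520) (by decide +kernel)
          (CovZ.n2 (86112, 83232) (by decide +kernel)
           (CovZ.leaf K2_ok TI_l6516 _)
           (CovZ.n1 (86400, 83232) (by decide +kernel)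
            (CovZ.leaf K2_ok TI_l6517 _)
            (CovZ.leaf K2_ok TI_l6518 _)))
          (CovZ.n1 (86112, 83808) (by decide +kernel)
           (CovZ.leaf K2_ok TI_l6519 _)
           (CovZ.leaf K2_ok TI_l6520 _)))
         (CovZ.n1 (85824, 82944) (by decide +kernel)
          (CovZ.n2 (85536, 83232) (by decide +kernel)
           (CovZ.n2 (85824, 83232) (by decide +kernel)
            (CovZ.leaf K2_ok TI_l6521 _)
            (CovZ.leaf K2_ok TI_l6522 _))
           (CovZ.n1 (85536, 82944) (by decide +kernel)
            (CovZ.leaf K2_ok TI_l6523 _)
            (CovZ.leaf K2_ok TI_l6524 _)))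
          (CovZ.n1 (86112, 83232) (by decide +kernel)
           (CovZ.n2 (86112, 82944) (by decide +kernel)
            (CovZ.leaf K2_ok TI_l6525 _)
            (CovZ.leaf K2_ok TI_l6526 _))
           (CovZ.leaf K2_ok TI_l6527 _))))
        (CovZ.n1 (86976, 83520) (by decide +kernel)
         (CovZ.n2 (86976, 82944) (by decide +kernel)
          (CovZ.n2 (86688, 83232) (by decide +kernel)
           (CovZ.badM (by decide +kernel))
           (CovZ.n1 (86688, 82944) (by decide +kernel)
            (CovZ.leaf K2_ok TI_l6528 _)
            (CovZ.badM (by decide +kernel))))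
          (CovZ.badM (by decide +kernel)))
         (CovZ.n1 (86400, 83520) (by decide +kernel)
          (CovZ.n2 (86688, 83808) (by decide +kernel)
           (CovZ.leaf K2_ok TI_l6529 _)
           (CovZ.leaf K2_ok TI_l6530 _))
          (CovZ.leaf K2_ok TI_l6531 _))))
       (CovZ.n1 (85248, 84096) (by decide +kernel)
        (CovZ.n2 (85824, 84672) (by decide +kernel)
         (CovZ.n2 (85824, 84096) (by decide +kernel)
          (CovZ.n2 (85536, 84384) (by decide +kernel)
           (CovZ.leaf K2_ok TI_l6532 _)
           (CovZ.leaf K3_ok TI_l6533 _))
          (CovZ.n1 (86112, 84384) (by decide +kernel)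
           (CovZ.leaf K2_ok TI_l6534 _)
           (CovZ.leaf K3_ok TI_l6535 _)))
         (CovZ.leaf K3_ok TI_l6536 _))
        (CovZ.n1 (85824, 83520) (by decide +kernel)
         (CovZ.n2 (85248, 83520) (by decide +kernel)
          (CovZ.n2 (85536, 83808) (by decide +kernel)
           (CovZ.n2 (85536, 83520) (by decide +kernel)
            (CovZ.leaf K2_ok TI_l6537 _)
            (CovZ.leaf K3_ok TI_l6538 _))
           (CovZ.leaf K3_ok TI_l6539 _))
          (CovZ.leaf K2_ok TI_l6540 _))
         (CovZ.n1 (85824, 84096) (by decide +kernel)
          (CovZ.leaf K2_ok TI_l6541 _)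
          (CovZ.n1 (85536, 83808) (by decide +kernel)
           (CovZ.leaf K3_ok TI_l6542 _)
           (CovZ.leaf K2_ok TI_l6543 _))))))))))
    (CovZ.topM TI_LL 252653344896173386238319617235132742157746462431423060119969 (by decide +kernel) (CovZ.n0 (85248, 85248) (by decide +kernel)
    (CovZ.n2 (82944, 85248) (by decide +kernel)
     (CovZ.n2 (84096, 86400) (by decide +kernel)
      (CovZ.n2 (84096, 85248) (by decide +kernel)
       (CovZ.n2 (83520, 85824) (by decide +kernel)
        (CovZ.n2 (84096, 85824) (by decide +kernel)
         (CovZ.n2 (83808, 85536) (by decide +kernel)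
          (CovZ.leaf K3_ok TI_l6544 _)
          (CovZ.leaf K3_ok TI_l6545 _))
         (CovZ.leaf K2_ok TI_l6546 _))
        (CovZ.n1 (83520, 85248) (by decide +kernel)
         (CovZ.n2 (83232, 85536) (by decide +kernel)
          (CovZ.leaf K3_ok TI_l6547 _)
          (CovZ.leaf K3_ok TI_l6548 _))
         (CovZ.leaf K3_ok TI_l6549 _)))
       (CovZ.n1 (84672, 85824) (by decide +kernel)
        (CovZ.n2 (84672, 85248) (by decide +kernel)
         (CovZ.leaf K3_ok TI_l6550 _)
         (CovZ.leaf K3_ok TI_l6551 _))
        (CovZ.leaf K3_ok TI_l6552 _)))
      (CovZ.n1 (82944, 86400) (by decide +kernel)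
       (CovZ.n2 (83520, 86976) (by decide +kernel)
        (CovZ.n2 (83520, 86400) (by decide +kernel)
         (CovZ.leaf K2_ok TI_l6553 _)
         (CovZ.leaf K2_ok TI_l6554 _))
        (CovZ.leaf K2_ok TI_l6555 _))
       (CovZ.leaf K2_ok TI_l6556 _)))
     (CovZ.n1 (84096, 84096) (by decide +kernel)
      (CovZ.n2 (82944, 84096) (by decide +kernel)
       (CovZ.n2 (83520, 84672) (by decide +kernel)
        (CovZ.n2 (83520, 84096) (by decide +kernel)
         (CovZ.n2 (83232, 84384) (by decide +kernel)
          (CovZ.leaf K2_ok TI_l6557 _)
          (CovZ.n1 (83232, 84096) (by decide +kernel)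
           (CovZ.leaf K2_ok TI_l6558 _)
           (CovZ.leaf K2_ok TI_l6559 _)))
         (CovZ.n1 (83808, 84384) (by decide +kernel)
          (CovZ.n2 (83808, 84096) (by decide +kernel)
           (CovZ.leaf K2_ok TI_l6560 _)
           (CovZ.leaf K2_ok TI_l6561 _))
          (CovZ.leaf K2_ok TI_l6562 _)))
        (CovZ.n1 (82944, 84672) (by decide +kernel)
         (CovZ.n2 (83232, 84960) (by decide +kernel)
          (CovZ.leaf K2_ok TI_l6563 _)
          (CovZ.leaf K2_ok TI_l6564 _))
         (CovZ.leaf K2_ok TI_l6565 _)))
       (CovZ.n1 (83520, 83520) (by decide +kernel)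
        (CovZ.n2 (82944, 83520) (by decide +kernel)
         (CovZ.n2 (83232, 83808) (by decide +kernel)
          (CovZ.n2 (83232, 83520) (by decide +kernel)
           (CovZ.leaf K2_ok TI_l6566 _)
           (CovZ.leaf K2_ok TI_l6567 _))
          (CovZ.leaf K2_ok TI_l6568 _))
         (CovZ.n1 (83232, 83232) (by decide +kernel)
          (CovZ.n2 (82944, 83232) (by decide +kernel)
           (CovZ.n2 (83088, 83376) (by decide +kernel)
            (CovZ.leaf K2_ok TI_l6569 _)
            (CovZ.leaf K2_ok TI_l6570 _))
           (CovZ.leaf K2_ok TI_l6571 _))
          (CovZ.n1 (83232, 83520) (by decide +kernel)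
           (CovZ.leaf K2_ok TI_l6572 _)
           (CovZ.n1 (83088, 83376) (by decide +kernel)
            (CovZ.leaf K2_ok TI_l6573 _)
            (CovZ.leaf K2_ok TI_l6574 _)))))
        (CovZ.n1 (83520, 84096) (by decide +kernel)
         (CovZ.leaf K2_ok TI_l6575 _)
         (CovZ.n1 (83232, 83808) (by decide +kernel)
          (CovZ.leaf K2_ok TI_l6576 _)
          (CovZ.n1 (83520, 83808) (by decide +kernel)
           (CovZ.leaf K2_ok TI_l6577 _)
           (CovZ.leaf K2_ok TI_l6578 _))))))
      (CovZ.n1 (84096, 85248) (by decide +kernel)
       (CovZ.subM 85102070347239291814967574718153101344 (by decide +kernel)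
        (CovZ.n2 (84672, 84672) (by decide +kernel)
         (CovZ.n2 (84096, 84672) (by decide +kernel)
          (CovZ.n2 (84384, 84960) (by decide +kernel)
           (CovZ.leaf K3_ok TI_l6579 _)
           (CovZ.leaf K3_ok TI_l6580 _))
          (CovZ.leaf K2_ok TI_l6581 _))
         (CovZ.n1 (84672, 85248) (by decide +kernel)
          (CovZ.leaf K3_ok TI_l6582 _)
          (CovZ.n1 (84384, 84960) (by decide +kernel)
           (CovZ.leaf K3_ok TI_l6583 _)
           (CovZ.leaf K3_ok TI_l6584 _)))))
       (CovZ.n1 (83520, 84672) (by decide +kernel)
        (CovZ.n2 (83520, 85248) (by decide +kernel)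
         (CovZ.leaf K3_ok TI_l6585 _)
         (CovZ.n1 (83232, 84960) (by decide +kernel)
          (CovZ.leaf K3_ok TI_l6586 _)
          (CovZ.leaf K2_ok TI_l6587 _)))
        (CovZ.subM 43643240196577702930847442747456080711968 (by decide +kernel)
         (CovZ.n1 (84096, 84672) (by decide +kernel)
          (CovZ.n2 (83808, 84384) (by decide +kernel)
           (CovZ.leaf K2_ok TI_l6588 _)
           (CovZ.leaf K2_ok TI_l6589 _))
          (CovZ.n1 (83808, 84960) (by decide +kernel)
           (CovZ.leaf K3_ok TI_l6590 _)
           (CovZ.n1 (83808, 84672) (by decide +kernel)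
            (CovZ.leaf K2_ok TI_l6591 _)
            (CovZ.leaf K2_ok TI_l6592 _)))))))))
    (CovZ.n1 (85248, 87552) (by decide +kernel)
     (CovZ.subM 316912952293123944447943507968 (by decide +kernel)
      (CovZ.n2 (86400, 86400) (by decide +kernel)
       (CovZ.n2 (85248, 86400) (by decide +kernel)
        (CovZ.n2 (85824, 86976) (by decide +kernel)
         (CovZ.n2 (85824, 86400) (by decide +kernel)
          (CovZ.leaf K3_ok TI_l6593 _)
          (CovZ.leaf K2_ok TI_l6594 _))
         (CovZ.leaf K2_ok TI_l6595 _))
        (CovZ.leaf K3_ok TI_l6596 _))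
       (CovZ.n1 (86400, 87552) (by decide +kernel)
        (CovZ.leaf K3_ok TI_l6597 _)
        (CovZ.n1 (85824, 86976) (by decide +kernel)
         (CovZ.leaf K2_ok TI_l6598 _)
         (CovZ.n1 (86400, 86976) (by decide +kernel)
          (CovZ.leaf K2_ok TI_l6599 _)
          (CovZ.leaf K3_ok TI_l6600 _))))))
     (CovZ.n1 (84096, 86400) (by decide +kernel)
      (CovZ.n2 (84096, 87552) (by decide +kernel)
       (CovZ.leaf K3_ok TI_l6601 _)
       (CovZ.n1 (83520, 86976) (by decide +kernel)
        (CovZ.leaf K2_ok TI_l6602 _)
        (CovZ.n1 (84096, 86976) (by decide +kernel)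
         (CovZ.leaf K3_ok TI_l6603 _)
         (CovZ.leaf K3_ok TI_l6604 _))))
      (CovZ.subM 85081301159495667494632107664111439904 (by decide +kernel)
       (CovZ.n1 (85248, 86400) (by decide +kernel)
        (CovZ.n2 (84672, 85824) (by decide +kernel)
         (CovZ.leaf K3_ok TI_l6605 _)
         (CovZ.n1 (85248, 85824) (by decide +kernel)
          (CovZ.n2 (84960, 85536) (by decide +kernel)
           (CovZ.leaf K2_ok TI_l6606 _)
           (CovZ.leaf K3_ok TI_l6607 _))
          (CovZ.leaf K2_ok TI_l6608 _)))
        (CovZ.n1 (84672, 86976) (by decide +kernel)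
         (CovZ.n2 (85248, 86976) (by decide +kernel)
          (CovZ.leaf K2_ok TI_l6609 _)
          (CovZ.leaf K2_ok TI_l6610 _))
         (CovZ.n1 (84672, 86400) (by decide +kernel)
          (CovZ.leaf K2_ok TI_l6611 _)
          (CovZ.leaf K3_ok TI_l6612 _)))))))))

end Pool.Agent.TET
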