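import Pool.Agent.Helper38_TET.RegY
import Pool.Agent.Helper38_TET.TI_S0

/-!
# MP_c7c9bf_co: certificates, family TI
-/

set_option autoImplicit false
set_option maxRecDepth 100000

namespace Pool.Agent.TET

theorem TI_r0 : ∀ i < 2, SqZ TI_M TI_L [0, 7, 6, 1] 78336 73728 4608 i 0
  | 0, _ => TI_s0_0
  | 1, _ => TI_s1_0
  | n + 2, h => absurd h (by omega)

theorem TI_r1 : ∀ i < 2, SqZ TI_M TI_L [0, 7, 6, 1] 78336 73728 4608 i 1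
  | 0, _ => TI_s0_1
  | 1, _ => TI_s1_1
  | n + 2, h => absurd h (by omega)

theorem TI_r2 : ∀ i < 2, SqZ TI_M TI_L [0, 7, 6, 1] 78336 73728 4608 i 2
  | 0, _ => TI_s0_2
  | 1, _ => TI_s1_2
  | n + 2, h => absurd h (by omega)

theorem TI_rows : ∀ j < 3, ∀ i < 2, SqZ TI_M TI_L [0, 7, 6, 1] 78336 73728 4608 i j
  | 0, _ => TI_r0
  | 1, _ => TI_r1
  | 2, _ => TI_r2
  | n + 3, h => absurd h (by omega)

theorem TI_cov (X Y : ℝ) (h1 : ((78336 : ℤ) : ℝ) ≤ X) (h2 : X ≤ (87552 : ℤ)) (h3 : ((73728 : ℤ) : ℝ) ≤ Y)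
    (h4 : Y ≤ (87552 : ℤ)) : Out TI_L X Y ∨ GoodV [0, 7, 6, 1] (TI_M.v X Y) := by
  push_cast at h1 h2 h3 h4
  refine gridZ (by norm_num) (by norm_num) (by norm_num) TI_rows ?_ ?_ ?_ ?_ <;> push_cast <;> linarith

theorem TI_sc : ∀ a : Fin 3, (![3, 3, 3] : Fin 3 → ℝ) a ≠ 0 := by
  intro a
  fin_cases a <;> simp

theorem TI_fr (x y : ℝ) : scl ![3, 3, 3] (swp (VD x y)) =
    TI_M.v (30720 * (((3 : ℤ) : ℝ) * x) / (1 : ℤ)) (30720 * (((3 : ℤ) : ℝ) * y) / (1 : ℤ)) := by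
  funext i j
  fin_cases i <;> fin_cases j <;> simp [scl, swp, VD, FM.v, Z3.ev, TI_M] <;> ring

end Pool.Agent.TET
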