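import Pool.Agent.Helper38_TET.TI_C

/-!
# MP_c7c9bf_co: certificates, family TI
-/

set_option autoImplicit false
set_option maxRecDepth 100000

namespace Pool.Agent.TET

theorem TI_rg0 : ROK [.l ⟨0, 480, 0, -425⟩ ⟨0, 480, 0, 425⟩, .l ⟨0, -480, 0, 434⟩ ⟨0, 480, 0, 434⟩, .l ⟨0, 480, 0, -425⟩ ⟨0, 579, 1201, 1583⟩, .l ⟨0, 480, 0, -434⟩ ⟨0, 579, 1201, 1583⟩, .l ⟨0, 480, 0, -425⟩ ⟨0, -1503, -3707, -15871⟩, .l ⟨0, 480, 0, -434⟩ ⟨0, -1503, -3707, -15871⟩, .l ⟨0, 480, 0, -425⟩ ⟨0, -3422, 2071, -1247⟩, .l ⟨0, 480, 0, -434⟩ ⟨0, -3422, 2071, -1247⟩, .l ⟨0, 480, 0, -425⟩ ⟨0, -3045, -2593, -5155⟩, .l ⟨0, 480, 0, -434⟩ ⟨0, -3045, -2593, -5155⟩] := by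
  refine rok_dys (s := 1) (nlo := 425) (nhi := 434) (q := 480) (by decide) (by decide) (by decide) (by decide) (z := 3) (by decide) TI_sc (k := 1) (by decide) (Q := [(579, 1201, -1583), (-1503, -3707, 15871), (-3422, 2071, 1247), (-3045, -2593, 5155)])
    (P := [⟨-39168000, 480, 0⟩, ⟨39997440, -480, 0⟩, ⟨-145889280, 579, 1201⟩, ⟨1462671360, -1503, -3707⟩, ⟨114923520, -3422, 2071⟩, ⟨475084800, -3045, -2593⟩]) rfl rfl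
    (List.mem_of_getElem? (i := 0) rfl) TI_fr TI_cov ?_
  · intro X Y h
    simp only [List.forall_mem_cons, List.not_mem_nil, false_imp_iff, implies_true, and_true] at h
    push_cast at h ⊢
    obtain ⟨h0, h1, h2, h3, h4, h5⟩ := h
    refine ⟨⟨?_, ?_⟩, ?_, ?_⟩ <;> linarith

theorem TI_rg1 : ROK [.l ⟨0, 480, 0, -421⟩ ⟨0, 480, 0, 421⟩, .l ⟨0, -480, 0, 430⟩ ⟨0, 480, 0, 430⟩, .l ⟨0, 480, 0, -421⟩ ⟨0, 1594, 3669, 4680⟩, .l ⟨0, 480, 0, -430⟩ ⟨0, 1594, 3669, 4680⟩, .l ⟨0, 480, 0, -421⟩ ⟨0, -1594, -3669, -4882⟩, .l ⟨0, 480, 0, -430⟩ ⟨0, -1594, -3669, -4882⟩] := by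
  refine rok_dys (s := 1) (nlo := 421) (nhi := 430) (q := 480) (by decide) (by decide) (by decide) (by decide) (z := 3) (by decide) TI_sc (k := 1) (by decide) (Q := [(1594, 3669, -4680), (-1594, -3669, 4882)])
    (P := [⟨-38799360, 480, 0⟩, ⟨39628800, -480, 0⟩, ⟨-431308800, 1594, 3669⟩, ⟨449925120, -1594, -3669⟩]) rfl rfl
    (List.mem_of_getElem? (i := 1) rfl) TI_fr TI_cov ?_
  · intro X Y h
    simp only [List.forall_mem_cons, List.not_mem_nil, false_imp_iff, implies_true, and_true] at h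
    push_cast at h ⊢
    obtain ⟨h0, h1, h2, h3⟩ := h
    refine ⟨⟨?_, ?_⟩, ?_, ?_⟩ <;> linarith

theorem TI_rg2 : ROK [.l ⟨0, 96, 0, -84⟩ ⟨0, 96, 0, 84⟩, .l ⟨0, -96, 0, 85⟩ ⟨0, 96, 0, 85⟩, .l ⟨0, 96, 0, -84⟩ ⟨0, 1569, 3679, 4667⟩, .l ⟨0, 96, 0, -85⟩ ⟨0, 1569, 3679, 4667⟩, .l ⟨0, 96, 0, -84⟩ ⟨0, -1569, -3679, -4864⟩, .l ⟨0, 96, 0, -85⟩ ⟨0, -1569, -3679, -4864⟩] := by
  refine rok_dys (s := 1) (nlo := 84) (nhi := 85) (q := 96) (by decide) (by decide) (by decide) (by decide) (z := 3) (by decide) TI_sc (k := 1) (by decide) (Q := [(1569, 3679, -4667), (-1569, -3679, 4864)])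
    (P := [⟨-7741440, 96, 0⟩, ⟨7833600, -96, 0⟩, ⟨-430110720, 1569, 3679⟩, ⟨448266240, -1569, -3679⟩]) rfl rfl
    (List.mem_of_getElem? (i := 2) rfl) TI_fr TI_cov ?_
  · intro X Y h
    simp only [List.forall_mem_cons, List.not_mem_nil, false_imp_iff, implies_true, and_true] at h
    push_cast at h ⊢
    obtain ⟨h0, h1, h2, h3⟩ := h
    refine ⟨⟨?_, ?_⟩, ?_, ?_⟩ <;> linarith

theorem TI_rg3 : ROK [.l ⟨0, 960, 0, -848⟩ ⟨0, 960, 0, 848⟩, .l ⟨0, -960, 0, 859⟩ ⟨0, 960, 0, 859⟩, .l ⟨0, 960, 0, -848⟩ ⟨0, 820, 1824, 2351⟩, .l ⟨0, 960, 0, -859⟩ ⟨0, 820, 1824, 2351⟩, .l ⟨0, 960, 0, -848⟩ ⟨0, 1691, -3625, -1929⟩, .l ⟨0, 960, 0, -859⟩ ⟨0, 1691, -3625, -1929⟩] := by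
  refine rok_dys (s := 1) (nlo := 848) (nhi := 859) (q := 960) (by decide) (by decide) (by decide) (by decide) (z := 3) (by decide) TI_sc (k := 1) (by decide) (Q := [(820, 1824, -2351), (1691, -3625, 1929)])
    (P := [⟨-78151680, 960, 0⟩, ⟨79165440, -960, 0⟩, ⟨-216668160, 820, 1824⟩, ⟨177776640, 1691, -3625⟩]) rfl rfl
    (List.mem_of_getElem? (i := 3) rfl) TI_fr TI_cov ?_
  · intro X Y h
    simp only [List.forall_mem_cons, List.not_mem_nil, false_imp_iff, implies_true, and_true] at h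
    push_cast at h ⊢
    obtain ⟨h0, h1, h2, h3⟩ := h
    refine ⟨⟨?_, ?_⟩, ?_, ?_⟩ <;> linarith

theorem TI_rg4 : ROK [.l ⟨0, 480, 0, -425⟩ ⟨0, 480, 0, 425⟩, .l ⟨0, -480, 0, 432⟩ ⟨0, 480, 0, 432⟩, .l ⟨0, 480, 0, -425⟩ ⟨0, 0, 4000, 3201⟩, .l ⟨0, 480, 0, -432⟩ ⟨0, 0, 4000, 3201⟩, .l ⟨0, 480, 0, -425⟩ ⟨0, 0, -4000, -3349⟩, .l ⟨0, 480, 0, -432⟩ ⟨0, 0, -4000, -3349⟩] := by
  refine rok_dys (s := 1) (nlo := 425) (nhi := 432) (q := 480) (by decide) (by decide) (by decide) (by decide) (z := 3) (by decide) TI_sc (k := 1) (by decide) (Q := [(0, 4000, -3201), (0, -4000, 3349)])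
    (P := [⟨-39168000, 480, 0⟩, ⟨39813120, -480, 0⟩, ⟨-295004160, 0, 4000⟩, ⟨308643840, 0, -4000⟩]) rfl rfl
    (List.mem_of_getElem? (i := 4) rfl) TI_fr TI_cov ?_
  · intro X Y h
    simp only [List.forall_mem_cons, List.not_mem_nil, false_imp_iff, implies_true, and_true] at h
    push_cast at h ⊢
    obtain ⟨h0, h1, h2, h3⟩ := h
    refine ⟨⟨?_, ?_⟩, ?_, ?_⟩ <;> linarith

theorem TI_rg5 : ROK [.l ⟨0, 480, 0, -434⟩ ⟨0, 480, 0, 434⟩, .l ⟨0, -480, 0, 441⟩ ⟨0, 480, 0, 441⟩, .l ⟨0, 480, 0, -434⟩ ⟨0, 221, 3994, -8277⟩, .l ⟨0, 480, 0, -441⟩ ⟨0, 221, 3994, -8277⟩, .l ⟨0, 480, 0, -434⟩ ⟨0, -1149, -3831, -4676⟩, .l ⟨0, 480, 0, -441⟩ ⟨0, -1149, -3831, -4676⟩, .l ⟨0, 480, 0, -434⟩ ⟨0, 1617, 3659, 4691⟩, .l ⟨0, 480, 0, -441⟩ ⟨0, 1617, 3659, 4691⟩] := by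
  refine rok_dys (s := 1) (nlo := 434) (nhi := 441) (q := 480) (by decide) (by decide) (by decide) (by decide) (z := 3) (by decide) TI_sc (k := 1) (by decide) (Q := [(221, 3994, 8277), (-1149, -3831, 4676), (1617, 3659, -4691)])
    (P := [⟨-39997440, 480, 0⟩, ⟨40642560, -480, 0⟩, ⟨762808320, 221, 3994⟩, ⟨430940160, -1149, -3831⟩, ⟨-432322560, 1617, 3659⟩]) rfl rfl
    (List.mem_of_getElem? (i := 5) rfl) TI_fr TI_cov ?_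
  · intro X Y h
    simp only [List.forall_mem_cons, List.not_mem_nil, false_imp_iff, implies_true, and_true] at h
    push_cast at h ⊢
    obtain ⟨h0, h1, h2, h3, h4⟩ := h
    refine ⟨⟨?_, ?_⟩, ?_, ?_⟩ <;> linarith

theorem TI_rg6 : ROK [.l ⟨0, 960, 0, -826⟩ ⟨0, 960, 0, 826⟩, .l ⟨0, -960, 0, 837⟩ ⟨0, 960, 0, 837⟩, .l ⟨0, 960, 0, -826⟩ ⟨0, 0, 4000, 3201⟩, .l ⟨0, 960, 0, -837⟩ ⟨0, 0, 4000, 3201⟩, .l ⟨0, 960, 0, -826⟩ ⟨0, 685, -3941, -2700⟩, .l ⟨0, 960, 0, -837⟩ ⟨0, 685, -3941, -2700⟩] := by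
  refine rok_dys (s := 1) (nlo := 826) (nhi := 837) (q := 960) (by decide) (by decide) (by decide) (by decide) (z := 3) (by decide) TI_sc (k := 1) (by decide) (Q := [(0, 4000, -3201), (685, -3941, 2700)])
    (P := [⟨-76124160, 960, 0⟩, ⟨77137920, -960, 0⟩, ⟨-295004160, 0, 4000⟩, ⟨248832000, 685, -3941⟩]) rfl rfl
    (List.mem_of_getElem? (i := 6) rfl) TI_fr TI_cov ?_
  · intro X Y h
    simp only [List.forall_mem_cons, List.not_mem_nil, false_imp_iff, implies_true, and_true] at h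
    push_cast at h ⊢
    obtain ⟨h0, h1, h2, h3⟩ := h
    refine ⟨⟨?_, ?_⟩, ?_, ?_⟩ <;> linarith

theorem TI_rg7 : ROK [.l ⟨0, 480, 0, -424⟩ ⟨0, 480, 0, 424⟩, .l ⟨0, -480, 0, 433⟩ ⟨0, 480, 0, 433⟩, .l ⟨0, 480, 0, -424⟩ ⟨0, -1276, 3791, -9778⟩, .l ⟨0, 480, 0, -433⟩ ⟨0, -1276, 3791, -9778⟩, .l ⟨0, 480, 0, -424⟩ ⟨0, -1477, -3717, -4834⟩, .l ⟨0, 480, 0, -433⟩ ⟨0, -1477, -3717, -4834⟩, .l ⟨0, 480, 0, -424⟩ ⟨0, 1412, 3743, 4584⟩, .l ⟨0, 480, 0, -433⟩ ⟨0, 1412, 3743, 4584⟩] := by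
  refine rok_dys (s := 1) (nlo := 424) (nhi := 433) (q := 480) (by decide) (by decide) (by decide) (by decide) (z := 3) (by decide) TI_sc (k := 1) (by decide) (Q := [(-1276, 3791, 9778), (-1477, -3717, 4834), (1412, 3743, -4584)])
    (P := [⟨-39075840, 480, 0⟩, ⟨39905280, -480, 0⟩, ⟨901140480, -1276, 3791⟩, ⟨445501440, -1477, -3717⟩, ⟨-422461440, 1412, 3743⟩]) rfl rfl
    (List.mem_of_getElem? (i := 7) rfl) TI_fr TI_cov ?_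
  · intro X Y h
    simp only [List.forall_mem_cons, List.not_mem_nil, false_imp_iff, implies_true, and_true] at h
    push_cast at h ⊢
    obtain ⟨h0, h1, h2, h3, h4⟩ := h
    refine ⟨⟨?_, ?_⟩, ?_, ?_⟩ <;> linarith

theorem TI_rg8 : ROK [.l ⟨0, 240, 0, -213⟩ ⟨0, 240, 0, 213⟩, .l ⟨0, -240, 0, 218⟩ ⟨0, 240, 0, 218⟩, .l ⟨0, 240, 0, -213⟩ ⟨0, 1876, 3533, 4811⟩, .l ⟨0, 240, 0, -218⟩ ⟨0, 1876, 3533, 4811⟩, .l ⟨0, 240, 0, -213⟩ ⟨0, -1876, -3533, -5017⟩, .l ⟨0, 240, 0, -218⟩ ⟨0, -1876, -3533, -5017⟩, .l ⟨0, 240, 0, -213⟩ ⟨0, -911, 3895, 2626⟩, .l ⟨0, 240, 0, -218⟩ ⟨0, -911, 3895, 2626⟩] := by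
  refine rok_dys (s := 1) (nlo := 213) (nhi := 218) (q := 240) (by decide) (by decide) (by decide) (by decide) (z := 3) (by decide) TI_sc (k := 1) (by decide) (Q := [(1876, 3533, -4811), (-1876, -3533, 5017), (-911, 3895, -2626)])
    (P := [⟨-19630080, 240, 0⟩, ⟨20090880, -240, 0⟩, ⟨-443381760, 1876, 3533⟩, ⟨462366720, -1876, -3533⟩, ⟨-242012160, -911, 3895⟩]) rfl rfl
    (List.mem_of_getElem? (i := 8) rfl) TI_fr TI_cov ?_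
  · intro X Y h
    simp only [List.forall_mem_cons, List.not_mem_nil, false_imp_iff, implies_true, and_true] at h
    push_cast at h ⊢
    obtain ⟨h0, h1, h2, h3, h4⟩ := h
    refine ⟨⟨?_, ?_⟩, ?_, ?_⟩ <;> linarith

theorem TI_rg9 : ROK [.l ⟨0, 480, 0, -429⟩ ⟨0, 480, 0, 429⟩, .l ⟨0, -480, 0, 437⟩ ⟨0, 480, 0, 437⟩, .l ⟨0, 480, 0, -429⟩ ⟨0, 0, 4000, 3201⟩, .l ⟨0, 480, 0, -437⟩ ⟨0, 0, 4000, 3201⟩, .l ⟨0, 480, 0, -429⟩ ⟨0, 0, -4000, -3349⟩, .l ⟨0, 480, 0, -437⟩ ⟨0, 0, -4000, -3349⟩] := by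
  refine rok_dys (s := 1) (nlo := 429) (nhi := 437) (q := 480) (by decide) (by decide) (by decide) (by decide) (z := 3) (by decide) TI_sc (k := 1) (by decide) (Q := [(0, 4000, -3201), (0, -4000, 3349)])
    (P := [⟨-39536640, 480, 0⟩, ⟨40273920, -480, 0⟩, ⟨-295004160, 0, 4000⟩, ⟨308643840, 0, -4000⟩]) rfl rfl
    (List.mem_of_getElem? (i := 9) rfl) TI_fr TI_cov ?_
  · intro X Y h
    simp only [List.forall_mem_cons, List.not_mem_nil, false_imp_iff, implies_true, and_true] at h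
    push_cast at h ⊢
    obtain ⟨h0, h1, h2, h3⟩ := h
    refine ⟨⟨?_, ?_⟩, ?_, ?_⟩ <;> linarith

theorem TI_rg10 : ROK [.l ⟨0, 160, 0, -140⟩ ⟨0, 160, 0, 140⟩, .l ⟨0, -160, 0, 143⟩ ⟨0, 160, 0, 143⟩, .l ⟨0, 160, 0, -140⟩ ⟨0, 1522, 3699, 4644⟩, .l ⟨0, 160, 0, -143⟩ ⟨0, 1522, 3699, 4644⟩, .l ⟨0, 160, 0, -140⟩ ⟨0, -109, -3999, -3893⟩, .l ⟨0, 160, 0, -143⟩ ⟨0, -109, -3999, -3893⟩] := by
  refine rok_dys (s := 1) (nlo := 140) (nhi := 143) (q := 160) (by decide) (by decide) (by decide) (by decide) (z := 3) (by decide) TI_sc (k := 1) (by decide) (Q := [(1522, 3699, -4644), (-109, -3999, 3893)])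
    (P := [⟨-12902400, 160, 0⟩, ⟨13178880, -160, 0⟩, ⟨-427991040, 1522, 3699⟩, ⟨358778880, -109, -3999⟩]) rfl rfl
    (List.mem_of_getElem? (i := 10) rfl) TI_fr TI_cov ?_
  · intro X Y h
    simp only [List.forall_mem_cons, List.not_mem_nil, false_imp_iff, implies_true, and_true] at h
    push_cast at h ⊢
    obtain ⟨h0, h1, h2, h3⟩ := h
    refine ⟨⟨?_, ?_⟩, ?_, ?_⟩ <;> linarith

theorem TI_rg11 : ROK [.l ⟨0, 960, 0, -849⟩ ⟨0, 960, 0, 849⟩, .l ⟨0, -960, 0, 859⟩ ⟨0, 960, 0, 859⟩, .l ⟨0, 960, 0, -849⟩ ⟨0, -71, 3999, 3138⟩, .l ⟨0, 960, 0, -859⟩ ⟨0, -71, 3999, 3138⟩, .l ⟨0, 960, 0, -849⟩ ⟨0, 71, -3999, -3285⟩, .l ⟨0, 960, 0, -859⟩ ⟨0, 71, -3999, -3285⟩] := by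
  refine rok_dys (s := 1) (nlo := 849) (nhi := 859) (q := 960) (by decide) (by decide) (by decide) (by decide) (z := 3) (by decide) TI_sc (k := 1) (by decide) (Q := [(-71, 3999, -3138), (71, -3999, 3285)])
    (P := [⟨-78243840, 960, 0⟩, ⟨79165440, -960, 0⟩, ⟨-289198080, -71, 3999⟩, ⟨302745600, 71, -3999⟩]) rfl rfl
    (List.mem_of_getElem? (i := 11) rfl) TI_fr TI_cov ?_
  · intro X Y h
    simp only [List.forall_mem_cons, List.not_mem_nil, false_imp_iff, implies_true, and_true] at h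
    push_cast at h ⊢
    obtain ⟨h0, h1, h2, h3⟩ := h
    refine ⟨⟨?_, ?_⟩, ?_, ?_⟩ <;> linarith

theorem TI_rg12 : ROK [.l ⟨0, 80, 0, -71⟩ ⟨0, 80, 0, 71⟩, .l ⟨0, -80, 0, 73⟩ ⟨0, 80, 0, 73⟩, .l ⟨0, 80, 0, -71⟩ ⟨0, 1528, 3697, 4646⟩, .l ⟨0, 80, 0, -73⟩ ⟨0, 1528, 3697, 4646⟩, .l ⟨0, 80, 0, -71⟩ ⟨0, -1528, -3697, -4865⟩, .l ⟨0, 80, 0, -73⟩ ⟨0, -1528, -3697, -4865⟩] := by
  refine rok_dys (s := 1) (nlo := 71) (nhi := 73) (q := 80) (by decide) (by decide) (by decide) (by decide) (z := 3) (by decide) TI_sc (k := 1) (by decide) (Q := [(1528, 3697, -4646), (-1528, -3697, 4865)])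
    (P := [⟨-6543360, 80, 0⟩, ⟨6727680, -80, 0⟩, ⟨-428175360, 1528, 3697⟩, ⟨448358400, -1528, -3697⟩]) rfl rfl
    (List.mem_of_getElem? (i := 12) rfl) TI_fr TI_cov ?_
  · intro X Y h
    simp only [List.forall_mem_cons, List.not_mem_nil, false_imp_iff, implies_true, and_true] at h
    push_cast at h ⊢
    obtain ⟨h0, h1, h2, h3⟩ := h
    refine ⟨⟨?_, ?_⟩, ?_, ?_⟩ <;> linarith

theorem TI_rg13 : ROK [.l ⟨0, 160, 0, -142⟩ ⟨0, 160, 0, 142⟩, .l ⟨0, -160, 0, 145⟩ ⟨0, 160, 0, 145⟩, .l ⟨0, 160, 0, -142⟩ ⟨0, 0, 4000, 3201⟩, .l ⟨0, 160, 0, -145⟩ ⟨0, 0, 4000, 3201⟩, .l ⟨0, 160, 0, -142⟩ ⟨0, 0, -4000, -3349⟩, .l ⟨0, 160, 0, -145⟩ ⟨0, 0, -4000, -3349⟩] := by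
  refine rok_dys (s := 1) (nlo := 142) (nhi := 145) (q := 160) (by decide) (by decide) (by decide) (by decide) (z := 3) (by decide) TI_sc (k := 1) (by decide) (Q := [(0, 4000, -3201), (0, -4000, 3349)])
    (P := [⟨-13086720, 160, 0⟩, ⟨13363200, -160, 0⟩, ⟨-295004160, 0, 4000⟩, ⟨308643840, 0, -4000⟩]) rfl rfl
    (List.mem_of_getElem? (i := 13) rfl) TI_fr TI_cov ?_
  · intro X Y h
    simp only [List.forall_mem_cons, List.not_mem_nil, false_imp_iff, implies_true, and_true] at h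
    push_cast at h ⊢
    obtain ⟨h0, h1, h2, h3⟩ := h
    refine ⟨⟨?_, ?_⟩, ?_, ?_⟩ <;> linarith

theorem TI_rg14 : ROK [.l ⟨0, 80, 0, -69⟩ ⟨0, 80, 0, 69⟩, .l ⟨0, -80, 0, 72⟩ ⟨0, 80, 0, 72⟩, .l ⟨0, 80, 0, -69⟩ ⟨0, 0, 4000, 3201⟩, .l ⟨0, 80, 0, -72⟩ ⟨0, 0, 4000, 3201⟩, .l ⟨0, 80, 0, -69⟩ ⟨0, 0, -4000, -3343⟩, .l ⟨0, 80, 0, -72⟩ ⟨0, 0, -4000, -3343⟩] := by
  refine rok_dys (s := 1) (nlo := 69) (nhi := 72) (q := 80) (by decide) (by decide) (by decide) (by decide) (z := 3) (by decide) TI_sc (k := 1) (by decide) (Q := [(0, 4000, -3201), (0, -4000, 3343)])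
    (P := [⟨-6359040, 80, 0⟩, ⟨6635520, -80, 0⟩, ⟨-295004160, 0, 4000⟩, ⟨308090880, 0, -4000⟩]) rfl rfl
    (List.mem_of_getElem? (i := 14) rfl) TI_fr TI_cov ?_
  · intro X Y h
    simp only [List.forall_mem_cons, List.not_mem_nil, false_imp_iff, implies_true, and_true] at h
    push_cast at h ⊢
    obtain ⟨h0, h1, h2, h3⟩ := h
    refine ⟨⟨?_, ?_⟩, ?_, ?_⟩ <;> linarith

theorem TI_rg15 : ROK [.l ⟨0, 480, 0, -421⟩ ⟨0, 480, 0, 421⟩, .l ⟨0, -480, 0, 430⟩ ⟨0, 480, 0, 430⟩, .l ⟨0, 480, 0, -421⟩ ⟨0, 0, 4000, 3201⟩, .l ⟨0, 480, 0, -430⟩ ⟨0, 0, 4000, 3201⟩, .l ⟨0, 480, 0, -421⟩ ⟨0, 0, -4000, -3349⟩, .l ⟨0, 480, 0, -430⟩ ⟨0, 0, -4000, -3349⟩] := by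
  refine rok_dys (s := 1) (nlo := 421) (nhi := 430) (q := 480) (by decide) (by decide) (by decide) (by decide) (z := 3) (by decide) TI_sc (k := 1) (by decide) (Q := [(0, 4000, -3201), (0, -4000, 3349)])
    (P := [⟨-38799360, 480, 0⟩, ⟨39628800, -480, 0⟩, ⟨-295004160, 0, 4000⟩, ⟨308643840, 0, -4000⟩]) rfl rfl
    (List.mem_of_getElem? (i := 15) rfl) TI_fr TI_cov ?_
  · intro X Y h
    simp only [List.forall_mem_cons, List.not_mem_nil, false_imp_iff, implies_true, and_true] at h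
    push_cast at h ⊢
    obtain ⟨h0, h1, h2, h3⟩ := h
    refine ⟨⟨?_, ?_⟩, ?_, ?_⟩ <;> linarith

theorem TI_rg16 : ROK [.l ⟨0, 40, 0, -35⟩ ⟨0, 40, 0, 35⟩, .l ⟨0, -40, 0, 36⟩ ⟨0, 40, 0, 36⟩, .l ⟨0, 40, 0, -35⟩ ⟨0, 0, 4000, 3201⟩, .l ⟨0, 40, 0, -36⟩ ⟨0, 0, 4000, 3201⟩, .l ⟨0, 40, 0, -35⟩ ⟨0, 0, -4000, -3349⟩, .l ⟨0, 40, 0, -36⟩ ⟨0, 0, -4000, -3349⟩] := by
  refine rok_dys (s := 1) (nlo := 35) (nhi := 36) (q := 40) (by decide) (by decide) (by decide) (by decide) (z := 3) (by decide) TI_sc (k := 1) (by decide) (Q := [(0, 4000, -3201), (0, -4000, 3349)])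
    (P := [⟨-3225600, 40, 0⟩, ⟨3317760, -40, 0⟩, ⟨-295004160, 0, 4000⟩, ⟨308643840, 0, -4000⟩]) rfl rfl
    (List.mem_of_getElem? (i := 16) rfl) TI_fr TI_cov ?_
  · intro X Y h
    simp only [List.forall_mem_cons, List.not_mem_nil, false_imp_iff, implies_true, and_true] at h
    push_cast at h ⊢
    obtain ⟨h0, h1, h2, h3⟩ := h
    refine ⟨⟨?_, ?_⟩, ?_, ?_⟩ <;> linarith

theorem TI_rg17 : ROK [.l ⟨0, 80, 0, -71⟩ ⟨0, 80, 0, 71⟩, .l ⟨0, -80, 0, 74⟩ ⟨0, 80, 0, 74⟩, .l ⟨0, 80, 0, -71⟩ ⟨0, 228, 445, 599⟩, .l ⟨0, 80, 0, -74⟩ ⟨0, 228, 445, 599⟩, .l ⟨0, 80, 0, -71⟩ ⟨0, -1824, -3560, -4997⟩, .l ⟨0, 80, 0, -74⟩ ⟨0, -1824, -3560, -4997⟩] := by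
  refine rok_dys (s := 1) (nlo := 71) (nhi := 74) (q := 80) (by decide) (by decide) (by decide) (by decide) (z := 3) (by decide) TI_sc (k := 1) (by decide) (Q := [(228, 445, -599), (-1824, -3560, 4997)])
    (P := [⟨-6543360, 80, 0⟩, ⟨6819840, -80, 0⟩, ⟨-55203840, 228, 445⟩, ⟨460523520, -1824, -3560⟩]) rfl rfl
    (List.mem_of_getElem? (i := 17) rfl) TI_fr TI_cov ?_
  · intro X Y h
    simp only [List.forall_mem_cons, List.not_mem_nil, false_imp_iff, implies_true, and_true] at h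
    push_cast at h ⊢
    obtain ⟨h0, h1, h2, h3⟩ := h
    refine ⟨⟨?_, ?_⟩, ?_, ?_⟩ <;> linarith

theorem TI_rg18 : ROK [.l ⟨0, 960, 0, -839⟩ ⟨0, 960, 0, 839⟩, .l ⟨0, -960, 0, 849⟩ ⟨0, 960, 0, 849⟩, .l ⟨0, 960, 0, -839⟩ ⟨0, 0, 4000, -4799⟩, .l ⟨0, 960, 0, -849⟩ ⟨0, 0, 4000, -4799⟩, .l ⟨0, 960, 0, -839⟩ ⟨0, 0, -4000, -3349⟩, .l ⟨0, 960, 0, -849⟩ ⟨0, 0, -4000, -3349⟩, .l ⟨0, 960, 0, -839⟩ ⟨0, 2798, 2859, 4767⟩, .l ⟨0, 960, 0, -849⟩ ⟨0, 2798, 2859, 4767⟩] := by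
  refine rok_dys (s := 1) (nlo := 839) (nhi := 849) (q := 960) (by decide) (by decide) (by decide) (by decide) (z := 3) (by decide) TI_sc (k := 1) (by decide) (Q := [(0, 4000, 4799), (0, -4000, 3349), (2798, 2859, -4767)])
    (P := [⟨-77322240, 960, 0⟩, ⟨78243840, -960, 0⟩, ⟨442275840, 0, 4000⟩, ⟨308643840, 0, -4000⟩, ⟨-439326720, 2798, 2859⟩]) rfl rfl
    (List.mem_of_getElem? (i := 18) rfl) TI_fr TI_cov ?_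
  · intro X Y h
    simp only [List.forall_mem_cons, List.not_mem_nil, false_imp_iff, implies_true, and_true] at h
    push_cast at h ⊢
    obtain ⟨h0, h1, h2, h3, h4⟩ := h
    refine ⟨⟨?_, ?_⟩, ?_, ?_⟩ <;> linarith

theorem TI_rg19 : ROK [.l ⟨0, 960, 0, -851⟩ ⟨0, 960, 0, 851⟩, .l ⟨0, -960, 0, 862⟩ ⟨0, 960, 0, 862⟩, .l ⟨0, 960, 0, -851⟩ ⟨0, 0, 800, -1739⟩, .l ⟨0, 960, 0, -862⟩ ⟨0, 0, 800, -1739⟩, .l ⟨0, 960, 0, -851⟩ ⟨0, 0, -4000, -3349⟩, .l ⟨0, 960, 0, -862⟩ ⟨0, 0, -4000, -3349⟩, .l ⟨0, 960, 0, -851⟩ ⟨0, 2620, 3023, 4773⟩, .l ⟨0, 960, 0, -862⟩ ⟨0, 2620, 3023, 4773⟩] := by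
  refine rok_dys (s := 1) (nlo := 851) (nhi := 862) (q := 960) (by decide) (by decide) (by decide) (by decide) (z := 3) (by decide) TI_sc (k := 1) (by decide) (Q := [(0, 800, 1739), (0, -4000, 3349), (2620, 3023, -4773)])
    (P := [⟨-78428160, 960, 0⟩, ⟨79441920, -960, 0⟩, ⟨160266240, 0, 800⟩, ⟨308643840, 0, -4000⟩, ⟨-439879680, 2620, 3023⟩]) rfl rfl
    (List.mem_of_getElem? (i := 19) rfl) TI_fr TI_cov ?_
  · intro X Y h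
    simp only [List.forall_mem_cons, List.not_mem_nil, false_imp_iff, implies_true, and_true] at h
    push_cast at h ⊢
    obtain ⟨h0, h1, h2, h3, h4⟩ := h
    refine ⟨⟨?_, ?_⟩, ?_, ?_⟩ <;> linarith

theorem TI_rg20 : ROK [.l ⟨0, 80, 0, -69⟩ ⟨0, 80, 0, 69⟩, .l ⟨0, -80, 0, 71⟩ ⟨0, 80, 0, 71⟩, .l ⟨0, 80, 0, -69⟩ ⟨0, 0, 4000, 3201⟩, .l ⟨0, 80, 0, -71⟩ ⟨0, 0, 4000, 3201⟩, .l ⟨0, 80, 0, -69⟩ ⟨0, 95, -1330, -1029⟩, .l ⟨0, 80, 0, -71⟩ ⟨0, 95, -1330, -1029⟩] := by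
  refine rok_dys (s := 1) (nlo := 69) (nhi := 71) (q := 80) (by decide) (by decide) (by decide) (by decide) (z := 3) (by decide) TI_sc (k := 1) (by decide) (Q := [(0, 4000, -3201), (95, -1330, 1029)])
    (P := [⟨-6359040, 80, 0⟩, ⟨6543360, -80, 0⟩, ⟨-295004160, 0, 4000⟩, ⟨94832640, 95, -1330⟩]) rfl rfl
    (List.mem_of_getElem? (i := 20) rfl) TI_fr TI_cov ?_
  · intro X Y h
    simp only [List.forall_mem_cons, List.not_mem_nil, false_imp_iff, implies_true, and_true] at h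
    push_cast at h ⊢
    obtain ⟨h0, h1, h2, h3⟩ := h
    refine ⟨⟨?_, ?_⟩, ?_, ?_⟩ <;> linarith

theorem TI_rg21 : ROK [.l ⟨0, 960, 0, -835⟩ ⟨0, 960, 0, 835⟩, .l ⟨0, -960, 0, 846⟩ ⟨0, 960, 0, 846⟩, .l ⟨0, 960, 0, -835⟩ ⟨0, 0, 1000, -2103⟩, .l ⟨0, 960, 0, -846⟩ ⟨0, 0, 1000, -2103⟩, .l ⟨0, 960, 0, -835⟩ ⟨0, 309, -738, -428⟩, .l ⟨0, 960, 0, -846⟩ ⟨0, 309, -738, -428⟩, .l ⟨0, 960, 0, -835⟩ ⟨0, 1357, 3763, 4557⟩, .l ⟨0, 960, 0, -846⟩ ⟨0, 1357, 3763, 4557⟩] := by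
  refine rok_dys (s := 1) (nlo := 835) (nhi := 846) (q := 960) (by decide) (by decide) (by decide) (by decide) (z := 3) (by decide) TI_sc (k := 1) (by decide) (Q := [(0, 1000, 2103), (309, -738, 428), (1357, 3763, -4557)])
    (P := [⟨-76953600, 960, 0⟩, ⟨77967360, -960, 0⟩, ⟨193812480, 0, 1000⟩, ⟨39444480, 309, -738⟩, ⟨-419973120, 1357, 3763⟩]) rfl rfl
    (List.mem_of_getElem? (i := 21) rfl) TI_fr TI_cov ?_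
  · intro X Y h
    simp only [List.forall_mem_cons, List.not_mem_nil, false_imp_iff, implies_true, and_true] at h
    push_cast at h ⊢
    obtain ⟨h0, h1, h2, h3, h4⟩ := h
    refine ⟨⟨?_, ?_⟩, ?_, ?_⟩ <;> linarith

theorem TI_rg22 : ROK [.l ⟨0, 240, 0, -212⟩ ⟨0, 240, 0, 212⟩, .l ⟨0, -240, 0, 217⟩ ⟨0, 240, 0, 217⟩, .l ⟨0, 240, 0, -212⟩ ⟨0, 0, 4000, 3201⟩, .l ⟨0, 240, 0, -217⟩ ⟨0, 0, 4000, 3201⟩, .l ⟨0, 240, 0, -212⟩ ⟨0, 0, -4000, -3349⟩, .l ⟨0, 240, 0, -217⟩ ⟨0, 0, -4000, -3349⟩] := by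
  refine rok_dys (s := 1) (nlo := 212) (nhi := 217) (q := 240) (by decide) (by decide) (by decide) (by decide) (z := 3) (by decide) TI_sc (k := 1) (by decide) (Q := [(0, 4000, -3201), (0, -4000, 3349)])
    (P := [⟨-19537920, 240, 0⟩, ⟨19998720, -240, 0⟩, ⟨-295004160, 0, 4000⟩, ⟨308643840, 0, -4000⟩]) rfl rfl
    (List.mem_of_getElem? (i := 22) rfl) TI_fr TI_cov ?_
  · intro X Y h
    simp only [List.forall_mem_cons, List.not_mem_nil, false_imp_iff, implies_true, and_true] at h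
    push_cast at h ⊢
    obtain ⟨h0, h1, h2, h3⟩ := h
    refine ⟨⟨?_, ?_⟩, ?_, ?_⟩ <;> linarith

theorem TI_rg23 : ROK [.l ⟨0, 40, 0, -34⟩ ⟨0, 40, 0, 34⟩, .l ⟨0, -40, 0, 37⟩ ⟨0, 40, 0, 37⟩, .l ⟨0, 40, 0, -34⟩ ⟨0, 0, 4000, -8277⟩, .l ⟨0, 40, 0, -37⟩ ⟨0, 0, 4000, -8277⟩, .l ⟨0, 40, 0, -34⟩ ⟨0, 0, -4000, -3349⟩, .l ⟨0, 40, 0, -37⟩ ⟨0, 0, -4000, -3349⟩, .l ⟨0, 40, 0, -34⟩ ⟨0, 158, 3997, 3345⟩, .l ⟨0, 40, 0, -37⟩ ⟨0, 158, 3997, 3345⟩, .l ⟨0, 40, 0, -34⟩ ⟨0, 3601, -1742, 1672⟩, .l ⟨0, 40, 0, -37⟩ ⟨0, 3601, -1742, 1672⟩] := by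
  refine rok_dys (s := 1) (nlo := 34) (nhi := 37) (q := 40) (by decide) (by decide) (by decide) (by decide) (z := 3) (by decide) TI_sc (k := 1) (by decide) (Q := [(0, 4000, 8277), (0, -4000, 3349), (158, 3997, -3345), (3601, -1742, -1672)])
    (P := [⟨-3133440, 40, 0⟩, ⟨3409920, -40, 0⟩, ⟨762808320, 0, 4000⟩, ⟨308643840, 0, -4000⟩, ⟨-308275200, 158, 3997⟩, ⟨-154091520, 3601, -1742⟩]) rfl rfl
    (List.mem_of_getElem? (i := 23) rfl) TI_fr TI_cov ?_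
  · intro X Y h
    simp only [List.forall_mem_cons, List.not_mem_nil, false_imp_iff, implies_true, and_true] at h
    push_cast at h ⊢
    obtain ⟨h0, h1, h2, h3, h4, h5⟩ := h
    refine ⟨⟨?_, ?_⟩, ?_, ?_⟩ <;> linarith

end Pool.Agent.TET
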