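import Pool.Agent.Helper38_TET.CovN

/-!
# MP_c7c9bf_co: certificates, family TK
-/

set_option autoImplicit false
set_option maxRecDepth 100000

namespace Pool.Agent.TET

/-- the polygons -/
def TK_L : List (List Z3) :=
  [[⟨-22824960, -1519, 3794⟩, ⟨-22241280, -2489, 2856⟩, ⟨31119360, 2207, -5026⟩, ⟨1812480, 476, 0⟩],
   [⟨-19415040, -1953, 2676⟩, ⟨-3686400, -1277, -223⟩, ⟨17633280, 1192, -2895⟩, ⟨4055040, 1012, -45⟩, ⟨-22824960, -1519, 3794⟩, ⟨14346240, 2002, -1489⟩],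
   [⟨-4147200, -937, 135⟩, ⟨12349440, 63, -2684⟩, ⟨-706560, 756, 793⟩, ⟨-29859840, -1727, 5183⟩]]

/-- the polygons in natural numbers -/
def TK_LN : List (List N6) :=
  [[⟨0, 1519, 3794, 0, 0, 321013760⟩, ⟨0, 2489, 2856, 0, 0, 70344704⟩, ⟨2207, 0, 0, 5026, 400611328, 0⟩, ⟨476, 0, 0, 0, 0, 60577792⟩],
   [⟨0, 1953, 2676, 0, 0, 114180096⟩, ⟨0, 1277, 0, 223, 192921600, 0⟩, ⟨1192, 0, 0, 2895, 240848896, 0⟩, ⟨1012, 0, 0, 45, 0, 122691584⟩, ⟨0, 1519, 3794, 0, 0, 321013760⟩, ⟨2002, 0, 0, 1489, 0, 52893696⟩],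
   [⟨0, 937, 135, 0, 100972544, 0⟩, ⟨63, 0, 0, 2684, 355889152, 0⟩, ⟨756, 0, 793, 0, 0, 203737088⟩, ⟨0, 1727, 5183, 0, 0, 482844672⟩]]

theorem TK_LL : toL TK_LN = TK_L := eqLL_eq (by decide +kernel)

end Pool.Agent.TET
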