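import Pool.Agent.Helper38_TET.TK_M
import Pool.Agent.Helper38_TET.TK_L
import Pool.Agent.Helper38_TET.TK_0
import Pool.Agent.Helper38_TET.TK_1

/-!
# MP_c7c9bf_co: certificates, family TK
-/

set_option autoImplicit false
set_option maxRecDepth 100000

namespace Pool.Agent.TET

theorem TK_u0 : CovZ TK_M (toL (selN TK_LN 7)) [0, 7, 4, 3] (-3808, 4480) (-3792, 4496) (-3808, 4512) :=
    (CovZ.n2 (-3808, 4496) (by decide +kernel)
     (CovZ.n2 (-3800, 4504) (by decide +kernel)
      (CovZ.n2 (-3800, 4496) (by decide +kernel)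
       (CovZ.n2 (-3804, 4500) (by decide +kernel)
        (CovZ.n2 (-3800, 4500) (by decide +kernel)
         (CovZ.n2 (-3802, 4498) (by decide +kernel)
          (CovZ.leaf K3_ok TK_l54 _)
          (CovZ.n1 (-3800, 4498) (by decide +kernel)
           (CovZ.leaf K3_ok TK_l55 _)
           (CovZ.leaf K3_ok TK_l56 _)))
         (CovZ.leaf K3_ok TK_l57 _))
        (CovZ.n1 (-3804, 4496) (by decide +kernel)
         (CovZ.leaf K3_ok TK_l58 _)
         (CovZ.n1 (-3802, 4498) (by decide +kernel)
          (CovZ.n2 (-3802, 4496) (by decide +kernel)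
           (CovZ.leaf K3_ok TK_l59 _)
           (CovZ.leaf K3_ok TK_l60 _))
          (CovZ.leaf K3_ok TK_l61 _))))
       (CovZ.n1 (-3796, 4500) (by decide +kernel)
        (CovZ.n2 (-3796, 4496) (by decide +kernel)
         (CovZ.n2 (-3798, 4498) (by decide +kernel)
          (CovZ.n2 (-3796, 4498) (by decide +kernel)
           (CovZ.n2 (-3797, 4497) (by decide +kernel)
            (CovZ.leaf K3_ok TK_l62 _)
            (CovZ.leaf K3_ok TK_l63 _))
           (CovZ.leaf K3_ok TK_l64 _))
          (CovZ.n1 (-3798, 4496) (by decide +kernel)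
           (CovZ.leaf K3_ok TK_l65 _)
           (CovZ.n1 (-3797, 4497) (by decide +kernel)
            (CovZ.leaf K3_ok TK_l66 _)
            (CovZ.leaf K3_ok TK_l67 _))))
         (CovZ.n1 (-3794, 4498) (by decide +kernel)
          (CovZ.n2 (-3794, 4496) (by decide +kernel)
           (CovZ.leaf K3_ok TK_l68 _)
           (CovZ.n1 (-3793, 4497) (by decide +kernel)
            (CovZ.badM (by decide +kernel))
            (CovZ.leaf K3_ok TK_l69 _)))
          (CovZ.n1 (-3796, 4498) (by decide +kernel)
           (CovZ.n2 (-3795, 4499) (by decide +kernel)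
            (CovZ.leaf K3_ok TK_l70 _)
            (CovZ.leaf K3_ok TK_l71 _))
           (CovZ.leaf K3_ok TK_l72 _))))
        (CovZ.n1 (-3800, 4500) (by decide +kernel)
         (CovZ.n2 (-3798, 4502) (by decide +kernel)
          (CovZ.leaf K3_ok TK_l73 _)
          (CovZ.leaf K3_ok TK_l74 _))
         (CovZ.n1 (-3798, 4498) (by decide +kernel)
          (CovZ.n2 (-3800, 4498) (by decide +kernel)
           (CovZ.leaf K3_ok TK_l75 _)
           (CovZ.leaf K3_ok TK_l76 _))
          (CovZ.leaf K3_ok TK_l77 _)))))
      (CovZ.n1 (-3808, 4504) (by decide +kernel)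
       (CovZ.n2 (-3804, 4508) (by decide +kernel)
        (CovZ.leaf K3_ok TK_l78 _)
        (CovZ.leaf K3_ok TK_l79 _))
       (CovZ.n1 (-3804, 4500) (by decide +kernel)
        (CovZ.n2 (-3808, 4500) (by decide +kernel)
         (CovZ.leaf K3_ok TK_l80 _)
         (CovZ.leaf K3_ok TK_l81 _))
        (CovZ.n1 (-3804, 4504) (by decide +kernel)
         (CovZ.leaf K3_ok TK_l82 _)
         (CovZ.leaf K3_ok TK_l83 _)))))
     (CovZ.n1 (-3800, 4488) (by decide +kernel)
      (CovZ.n2 (-3808, 4488) (by decide +kernel)
       (CovZ.n2 (-3804, 4492) (by decide +kernel)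
        (CovZ.badM (by decide +kernel))
        (CovZ.n1 (-3808, 4492) (by decide +kernel)
         (CovZ.n2 (-3806, 4494) (by decide +kernel)
          (CovZ.n2 (-3806, 4492) (by decide +kernel)
           (CovZ.leaf K3_ok TK_l84 _)
           (CovZ.n1 (-3805, 4493) (by decide +kernel)
            (CovZ.leaf K3_ok TK_l85 _)
            (CovZ.leaf K3_ok TK_l86 _)))
          (CovZ.n1 (-3808, 4494) (by decide +kernel)
           (CovZ.leaf K3_ok TK_l87 _)
           (CovZ.leaf K3_ok TK_l88 _)))
         (CovZ.n1 (-3806, 4490) (by decide +kernel)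
          (CovZ.n2 (-3808, 4490) (by decide +kernel)
           (CovZ.n2 (-3807, 4491) (by decide +kernel)
            (CovZ.badM (by decide +kernel))
            (CovZ.n1 (-3808, 4491) (by decide +kernel)
             (CovZ.leaf K3_ok TK_l89 _)
             (CovZ.badM (by decide +kernel))))
           (CovZ.badM (by decide +kernel)))
          (CovZ.n1 (-3806, 4492) (by decide +kernel)
           (CovZ.badM (by decide +kernel))
           (CovZ.n1 (-3807, 4491) (by decide +kernel)
            (CovZ.leaf K3_ok TK_l90 _)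
            (CovZ.badM (by decide +kernel)))))))
       (CovZ.badM (by decide +kernel)))
      (CovZ.n1 (-3800, 4496) (by decide +kernel)
       (CovZ.n2 (-3796, 4492) (by decide +kernel)
        (CovZ.n2 (-3800, 4492) (by decide +kernel)
         (CovZ.n2 (-3798, 4494) (by decide +kernel)
          (CovZ.badM (by decide +kernel))
          (CovZ.n1 (-3800, 4494) (by decide +kernel)
           (CovZ.n2 (-3799, 4495) (by decide +kernel)
            (CovZ.badM (by decide +kernel))
            (CovZ.leaf K3_ok TK_l92 _))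
           (CovZ.badM (by decide +kernel))))
         (CovZ.badM (by decide +kernel)))
        (CovZ.n1 (-3796, 4496) (by decide +kernel)
         (CovZ.badM (by decide +kernel))
         (CovZ.n1 (-3798, 4494) (by decide +kernel)
          (CovZ.n2 (-3798, 4496) (by decide +kernel)
           (CovZ.n2 (-3797, 4495) (by decide +kernel)
            (CovZ.leaf K3_ok TK_l97 _)
            (CovZ.leaf K3_ok TK_l98 _))
           (CovZ.n1 (-3799, 4495) (by decide +kernel)
            (CovZ.leaf K3_ok TK_l99 _)
            (CovZ.leaf K3_ok TK_l100 _)))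
          (CovZ.badM (by decide +kernel)))))
       (CovZ.n1 (-3804, 4492) (by decide +kernel)
        (CovZ.n2 (-3804, 4496) (by decide +kernel)
         (CovZ.n2 (-3802, 4494) (by decide +kernel)
          (CovZ.n2 (-3804, 4494) (by decide +kernel)
           (CovZ.n2 (-3803, 4495) (by decide +kernel)
            (CovZ.leaf K3_ok TK_l101 _)
            (CovZ.leaf K3_ok TK_l102 _))
           (CovZ.leaf K3_ok TK_l103 _))
          (CovZ.n1 (-3802, 4496) (by decide +kernel)
           (CovZ.leaf K3_ok TK_l104 _)
           (CovZ.n1 (-3803, 4495) (by decide +kernel)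
            (CovZ.leaf K3_ok TK_l105 _)
            (CovZ.leaf K3_ok TK_l106 _))))
         (CovZ.n1 (-3806, 4494) (by decide +kernel)
          (CovZ.leaf K3_ok TK_l107 _)
          (CovZ.n1 (-3804, 4494) (by decide +kernel)
           (CovZ.n2 (-3805, 4493) (by decide +kernel)
            (CovZ.leaf K3_ok TK_l108 _)
            (CovZ.n1 (-3804, 4493) (by decide +kernel)
             (CovZ.leaf K3_ok TK_l109 _)
             (CovZ.leaf K3_ok TK_l110 _)))
           (CovZ.leaf K3_ok TK_l111 _))))
        (CovZ.n1 (-3800, 4492) (by decide +kernel)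
         (CovZ.badM (by decide +kernel))
         (CovZ.n1 (-3802, 4494) (by decide +kernel)
          (CovZ.n2 (-3800, 4494) (by decide +kernel)
           (CovZ.n2 (-3801, 4493) (by decide +kernel)
            (CovZ.leaf K3_ok TK_l112 _)
            (CovZ.badM (by decide +kernel)))
           (CovZ.leaf K3_ok TK_l114 _))
          (CovZ.n1 (-3802, 4492) (by decide +kernel)
           (CovZ.leaf K3_ok TK_l115 _)
           (CovZ.n1 (-3801, 4493) (by decide +kernel)
            (CovZ.badM (by decide +kernel))
            (CovZ.leaf K3_ok TK_l116 _)))))))))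

theorem TK_u1 : CovZ TK_M (toL (selN TK_LN 7)) [0, 7, 4, 3] (-3792, 4496) (-3776, 4512) (-3808, 4512) :=
    (CovZ.n1 (-3792, 4512) (by decide +kernel)
     (CovZ.n2 (-3784, 4504) (by decide +kernel)
      (CovZ.n2 (-3792, 4504) (by decide +kernel)
       (CovZ.n2 (-3788, 4508) (by decide +kernel)
        (CovZ.n2 (-3788, 4504) (by decide +kernel)
         (CovZ.leaf K3_ok TK_l117 _)
         (CovZ.n1 (-3786, 4506) (by decide +kernel)
          (CovZ.leaf K3_ok TK_l118 _)
          (CovZ.leaf K3_ok TK_l119 _)))
        (CovZ.n1 (-3792, 4508) (by decide +kernel)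
         (CovZ.leaf K3_ok TK_l120 _)
         (CovZ.leaf K3_ok TK_l121 _)))
       (CovZ.n1 (-3788, 4500) (by decide +kernel)
        (CovZ.n2 (-3792, 4500) (by decide +kernel)
         (CovZ.n2 (-3790, 4502) (by decide +kernel)
          (CovZ.n2 (-3790, 4500) (by decide +kernel)
           (CovZ.leaf K3_ok TK_l122 _)
           (CovZ.leaf K3_ok TK_l123 _))
          (CovZ.leaf K3_ok TK_l124 _))
         (CovZ.n1 (-3790, 4498) (by decide +kernel)
          (CovZ.n2 (-3792, 4498) (by decide +kernel)
           (CovZ.n2 (-3791, 4499) (by decide +kernel)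
            (CovZ.leaf K3_ok TK_l125 _)
            (CovZ.leaf K3_ok TK_l126 _))
           (CovZ.n1 (-3791, 4497) (by decide +kernel)
            (CovZ.n2 (-3792, 4497) (by decide +kernel)
             (CovZ.leaf K3_ok TK_l127 _)
             (CovZ.badM (by decide +kernel)))
            (CovZ.leaf K3_ok TK_l129 _)))
          (CovZ.n1 (-3790, 4500) (by decide +kernel)
           (CovZ.leaf K3_ok TK_l130 _)
           (CovZ.n1 (-3791, 4499) (by decide +kernel)
            (CovZ.leaf K3_ok TK_l131 _)
            (CovZ.leaf K3_ok TK_l132 _)))))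
        (CovZ.n1 (-3788, 4504) (by decide +kernel)
         (CovZ.n2 (-3786, 4502) (by decide +kernel)
          (CovZ.n2 (-3788, 4502) (by decide +kernel)
           (CovZ.leaf K3_ok TK_l133 _)
           (CovZ.leaf K3_ok TK_l134 _))
          (CovZ.leaf K3_ok TK_l135 _))
         (CovZ.n1 (-3790, 4502) (by decide +kernel)
          (CovZ.leaf K3_ok TK_l136 _)
          (CovZ.n1 (-3788, 4502) (by decide +kernel)
           (CovZ.n2 (-3789, 4501) (by decide +kernel)
            (CovZ.leaf K3_ok TK_l137 _)
            (CovZ.leaf K3_ok TK_l138 _))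
           (CovZ.leaf K3_ok TK_l139 _))))))
      (CovZ.n1 (-3784, 4512) (by decide +kernel)
       (CovZ.n2 (-3780, 4508) (by decide +kernel)
        (CovZ.n2 (-3784, 4508) (by decide +kernel)
         (CovZ.n2 (-3782, 4510) (by decide +kernel)
          (CovZ.leaf K3_ok TK_l140 _)
          (CovZ.leaf K3_ok TK_l141 _))
         (CovZ.leaf K3_ok TK_l142 _))
        (CovZ.n1 (-3780, 4512) (by decide +kernel)
         (CovZ.leaf K3_ok TK_l143 _)
         (CovZ.n1 (-3782, 4510) (by decide +kernel)
          (CovZ.leaf K3_ok TK_l144 _)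
          (CovZ.leaf K3_ok TK_l145 _))))
       (CovZ.n1 (-3788, 4508) (by decide +kernel)
        (CovZ.leaf K3_ok TK_l146 _)
        (CovZ.n1 (-3784, 4508) (by decide +kernel)
         (CovZ.n2 (-3786, 4506) (by decide +kernel)
          (CovZ.leaf K3_ok TK_l147 _)
          (CovZ.n1 (-3784, 4506) (by decide +kernel)
           (CovZ.leaf K3_ok TK_l148 _)
           (CovZ.leaf K3_ok TK_l149 _)))
         (CovZ.leaf K3_ok TK_l150 _)))))
     (CovZ.n1 (-3800, 4504) (by decide +kernel)
      (CovZ.n2 (-3800, 4512) (by decide +kernel)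
       (CovZ.leaf K3_ok TK_l151 _)
       (CovZ.n1 (-3804, 4508) (by decide +kernel)
        (CovZ.leaf K3_ok TK_l152 _)
        (CovZ.n1 (-3800, 4508) (by decide +kernel)
         (CovZ.leaf K3_ok TK_l153 _)
         (CovZ.leaf K3_ok TK_l154 _))))
      (CovZ.n1 (-3792, 4504) (by decide +kernel)
       (CovZ.n2 (-3796, 4500) (by decide +kernel)
        (CovZ.n2 (-3796, 4504) (by decide +kernel)
         (CovZ.leaf K3_ok TK_l155 _)
         (CovZ.n1 (-3798, 4502) (by decide +kernel)
          (CovZ.leaf K3_ok TK_l156 _)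
          (CovZ.leaf K3_ok TK_l157 _)))
        (CovZ.n1 (-3792, 4500) (by decide +kernel)
         (CovZ.n2 (-3794, 4498) (by decide +kernel)
          (CovZ.n2 (-3794, 4500) (by decide +kernel)
           (CovZ.leaf K3_ok TK_l158 _)
           (CovZ.n1 (-3795, 4499) (by decide +kernel)
            (CovZ.leaf K3_ok TK_l159 _)
            (CovZ.leaf K3_ok TK_l160 _)))
          (CovZ.n1 (-3792, 4498) (by decide +kernel)
           (CovZ.n2 (-3793, 4497) (by decide +kernel)
            (CovZ.leaf K3_ok TK_l161 _)
            (CovZ.n1 (-3792, 4497) (by decide +kernel)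
             (CovZ.badM (by decide +kernel))
             (CovZ.leaf K3_ok TK_l162 _)))
           (CovZ.n1 (-3793, 4499) (by decide +kernel)
            (CovZ.leaf K3_ok TK_l163 _)
            (CovZ.leaf K3_ok TK_l164 _))))
         (CovZ.n1 (-3794, 4502) (by decide +kernel)
          (CovZ.n2 (-3792, 4502) (by decide +kernel)
           (CovZ.leaf K3_ok TK_l165 _)
           (CovZ.leaf K3_ok TK_l166 _))
          (CovZ.leaf K3_ok TK_l167 _))))
       (CovZ.n1 (-3796, 4508) (by decide +kernel)
        (CovZ.n2 (-3792, 4508) (by decide +kernel)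
         (CovZ.n2 (-3794, 4506) (by decide +kernel)
          (CovZ.leaf K3_ok TK_l168 _)
          (CovZ.leaf K3_ok TK_l169 _))
         (CovZ.leaf K3_ok TK_l170 _))
        (CovZ.n1 (-3796, 4504) (by decide +kernel)
         (CovZ.leaf K3_ok TK_l171 _)
         (CovZ.n1 (-3794, 4506) (by decide +kernel)
          (CovZ.leaf K3_ok TK_l172 _)
          (CovZ.leaf K3_ok TK_l173 _)))))))

end Pool.Agent.TET
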