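import Pool.Agent.Helper38_TET.TK_M
import Pool.Agent.Helper38_TET.TK_L
import Pool.Agent.Helper38_TET.TK_0
import Pool.Agent.Helper38_TET.TK_1
import Pool.Agent.Helper38_TET.TK_2
import Pool.Agent.Helper38_TET.TK_3
import Pool.Agent.Helper38_TET.TK_4
import Pool.Agent.Helper38_TET.TK_5
import Pool.Agent.Helper38_TET.TK_6
import Pool.Agent.Helper38_TET.TK_7
import Pool.Agent.Helper38_TET.TK_U0

/-!
# MP_c7c9bf_co: certificates, family TK
-/

set_option autoImplicit false
set_option maxRecDepth 100000

namespace Pool.Agent.TET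

theorem TK_s0_0 : SqZ TK_M TK_L [0, 7, 4, 3] (-3808) 4480 32 0 0 :=
  SqZ.mk (a := (-3808)) (b := (-3776)) (c := 4480) (d := 4512) (by norm_num) (by norm_num) (by norm_num) (by norm_num)
    (CovZ.topM TK_LL 7 (by decide +kernel) (CovZ.n2 (-3792, 4496) (by decide +kernel)
    (CovZ.n2 (-3776, 4496) (by decide +kernel)
     (CovZ.badM (by decide +kernel))
     (CovZ.n1 (-3784, 4504) (by decide +kernel)
      (CovZ.n2 (-3776, 4504) (by decide +kernel)
       (CovZ.n2 (-3780, 4500) (by decide +kernel)
        (CovZ.n2 (-3780, 4504) (by decide +kernel)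
         (CovZ.n2 (-3778, 4502) (by decide +kernel)
          (CovZ.n2 (-3780, 4502) (by decide +kernel)
           (CovZ.n2 (-3779, 4503) (by decide +kernel)
            (CovZ.n2 (-3779, 4502) (by decide +kernel)
             (CovZ.leaf K3_ok TK_l0 _)
             (CovZ.leaf K3_ok TK_l1 _))
            (CovZ.leaf K3_ok TK_l2 _))
           (CovZ.n1 (-3779, 4501) (by decide +kernel)
            (CovZ.n2 (-3780, 4501) (by decide +kernel)
             (CovZ.leaf K3_ok TK_l3 _)
             (CovZ.badM (by decide +kernel)))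
            (CovZ.n1 (-3779, 4502) (by decide +kernel)
             (CovZ.leaf K3_ok TK_l4 _)
             (CovZ.leaf K3_ok TK_l5 _))))
          (CovZ.n1 (-3778, 4504) (by decide +kernel)
           (CovZ.leaf K3_ok TK_l6 _)
           (CovZ.n1 (-3779, 4503) (by decide +kernel)
            (CovZ.leaf K3_ok TK_l7 _)
            (CovZ.leaf K3_ok TK_l8 _))))
         (CovZ.n1 (-3782, 4502) (by decide +kernel)
          (CovZ.n2 (-3782, 4504) (by decide +kernel)
           (CovZ.leaf K3_ok TK_l9 _)
           (CovZ.n1 (-3783, 4503) (by decide +kernel)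
            (CovZ.leaf K3_ok TK_l10 _)
            (CovZ.leaf K3_ok TK_l11 _)))
          (CovZ.n1 (-3780, 4502) (by decide +kernel)
           (CovZ.n2 (-3781, 4501) (by decide +kernel)
            (CovZ.leaf K3_ok TK_l12 _)
            (CovZ.n1 (-3780, 4501) (by decide +kernel)
             (CovZ.badM (by decide +kernel))
             (CovZ.leaf K3_ok TK_l13 _)))
           (CovZ.leaf K3_ok TK_l14 _))))
        (CovZ.n1 (-3776, 4500) (by decide +kernel)
         (CovZ.badM (by decide +kernel))
         (CovZ.n1 (-3778, 4502) (by decide +kernel)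
          (CovZ.n2 (-3776, 4502) (by decide +kernel)
           (CovZ.badM (by decide +kernel))
           (CovZ.n1 (-3777, 4503) (by decide +kernel)
            (CovZ.badM (by decide +kernel))
            (CovZ.n1 (-3777, 4502) (by decide +kernel)
             (CovZ.leaf K3_ok TK_l15 _)
             (CovZ.badM (by decide +kernel)))))
          (CovZ.badM (by decide +kernel)))))
       (CovZ.n1 (-3780, 4508) (by decide +kernel)
        (CovZ.n2 (-3776, 4508) (by decide +kernel)
         (CovZ.n2 (-3778, 4506) (by decide +kernel)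
          (CovZ.leaf K3_ok TK_l16 _)
          (CovZ.n1 (-3776, 4506) (by decide +kernel)
           (CovZ.n2 (-3777, 4505) (by decide +kernel)
            (CovZ.leaf K3_ok TK_l17 _)
            (CovZ.leaf K3_ok TK_l18 _))
           (CovZ.leaf K3_ok TK_l19 _)))
         (CovZ.leaf K3_ok TK_l20 _))
        (CovZ.n1 (-3780, 4504) (by decide +kernel)
         (CovZ.n2 (-3782, 4506) (by decide +kernel)
          (CovZ.n2 (-3780, 4506) (by decide +kernel)
           (CovZ.n2 (-3781, 4505) (by decide +kernel)
            (CovZ.leaf K3_ok TK_l21 _)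
            (CovZ.leaf K3_ok TK_l22 _))
           (CovZ.leaf K3_ok TK_l23 _))
          (CovZ.n1 (-3782, 4504) (by decide +kernel)
           (CovZ.leaf K3_ok TK_l24 _)
           (CovZ.leaf K3_ok TK_l25 _)))
         (CovZ.n1 (-3778, 4506) (by decide +kernel)
          (CovZ.n2 (-3778, 4504) (by decide +kernel)
           (CovZ.leaf K3_ok TK_l26 _)
           (CovZ.n1 (-3777, 4505) (by decide +kernel)
            (CovZ.leaf K3_ok TK_l27 _)
            (CovZ.leaf K3_ok TK_l28 _)))
          (CovZ.n1 (-3780, 4506) (by decide +kernel)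
           (CovZ.leaf K3_ok TK_l29 _)
           (CovZ.leaf K3_ok TK_l30 _))))))
      (CovZ.n1 (-3784, 4496) (by decide +kernel)
       (CovZ.n2 (-3788, 4500) (by decide +kernel)
        (CovZ.n2 (-3784, 4500) (by decide +kernel)
         (CovZ.n2 (-3786, 4498) (by decide +kernel)
          (CovZ.n2 (-3786, 4500) (by decide +kernel)
           (CovZ.n2 (-3785, 4499) (by decide +kernel)
            (CovZ.badM (by decide +kernel))
            (CovZ.leaf K3_ok TK_l31 _))
           (CovZ.n1 (-3787, 4499) (by decide +kernel)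
            (CovZ.leaf K3_ok TK_l32 _)
            (CovZ.badM (by decide +kernel))))
          (CovZ.badM (by decide +kernel)))
         (CovZ.n1 (-3786, 4502) (by decide +kernel)
          (CovZ.n2 (-3784, 4502) (by decide +kernel)
           (CovZ.n2 (-3785, 4501) (by decide +kernel)
            (CovZ.leaf K3_ok TK_l33 _)
            (CovZ.leaf K3_ok TK_l34 _))
           (CovZ.leaf K3_ok TK_l35 _))
          (CovZ.n1 (-3786, 4500) (by decide +kernel)
           (CovZ.leaf K3_ok TK_l36 _)
           (CovZ.n1 (-3785, 4501) (by decide +kernel)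
            (CovZ.leaf K3_ok TK_l37 _)
            (CovZ.leaf K3_ok TK_l38 _)))))
        (CovZ.n1 (-3788, 4496) (by decide +kernel)
         (CovZ.n2 (-3790, 4498) (by decide +kernel)
          (CovZ.n2 (-3788, 4498) (by decide +kernel)
           (CovZ.badM (by decide +kernel))
           (CovZ.leaf K3_ok TK_l41 _))
          (CovZ.badM (by decide +kernel)))
         (CovZ.n1 (-3786, 4498) (by decide +kernel)
          (CovZ.badM (by decide +kernel))
          (CovZ.n1 (-3788, 4498) (by decide +kernel)
           (CovZ.n2 (-3787, 4499) (by decide +kernel)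
            (CovZ.badM (by decide +kernel))
            (CovZ.leaf K3_ok TK_l44 _))
           (CovZ.badM (by decide +kernel))))))
       (CovZ.n1 (-3780, 4500) (by decide +kernel)
        (CovZ.badM (by decide +kernel))
        (CovZ.n1 (-3784, 4500) (by decide +kernel)
         (CovZ.n2 (-3782, 4502) (by decide +kernel)
          (CovZ.n2 (-3782, 4500) (by decide +kernel)
           (CovZ.n2 (-3783, 4501) (by decide +kernel)
            (CovZ.n2 (-3782, 4501) (by decide +kernel)
             (CovZ.leaf K3_ok TK_l45 _)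
             (CovZ.leaf K3_ok TK_l46 _))
            (CovZ.n1 (-3783, 4500) (by decide +kernel)
             (CovZ.leaf K3_ok TK_l47 _)
             (CovZ.leaf K3_ok TK_l48 _)))
           (CovZ.n1 (-3781, 4501) (by decide +kernel)
            (CovZ.badM (by decide +kernel))
            (CovZ.n1 (-3782, 4501) (by decide +kernel)
             (CovZ.leaf K3_ok TK_l49 _)
             (CovZ.leaf K3_ok TK_l50 _))))
          (CovZ.n1 (-3784, 4502) (by decide +kernel)
           (CovZ.n2 (-3783, 4503) (by decide +kernel)
            (CovZ.leaf K3_ok TK_l51 _)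
            (CovZ.leaf K3_ok TK_l52 _))
           (CovZ.leaf K3_ok TK_l53 _)))
         (CovZ.badM (by decide +kernel)))))))
    (CovZ.badM (by decide +kernel))))
    (CovZ.topM TK_LL 7 (by decide +kernel) (CovZ.n0 (-3792, 4496) (by decide +kernel)
    TK_u0
    TK_u1))

theorem TK_s1_0 : SqZ TK_M TK_L [0, 7, 4, 3] (-3808) 4480 32 1 0 :=
  SqZ.mk (a := (-3776)) (b := (-3744)) (c := 4480) (d := 4512) (by norm_num) (by norm_num) (by norm_num) (by norm_num)
    (CovZ.topM TK_LL 0 (by decide +kernel) (CovZ.badM (by decide +kernel)))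
    (CovZ.topM TK_LL 7 (by decide +kernel) (CovZ.n0 (-3760, 4496) (by decide +kernel)
    (CovZ.n2 (-3776, 4496) (by decide +kernel)
     (CovZ.n2 (-3768, 4504) (by decide +kernel)
      (CovZ.badM (by decide +kernel))
      (CovZ.n1 (-3776, 4504) (by decide +kernel)
       (CovZ.n2 (-3772, 4508) (by decide +kernel)
        (CovZ.n2 (-3772, 4504) (by decide +kernel)
         (CovZ.n2 (-3774, 4506) (by decide +kernel)
          (CovZ.n2 (-3772, 4506) (by decide +kernel)
           (CovZ.n2 (-3773, 4505) (by decide +kernel)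
            (CovZ.leaf K3_ok TK_l331 _)
            (CovZ.n1 (-3772, 4505) (by decide +kernel)
             (CovZ.badM (by decide +kernel))
             (CovZ.leaf K3_ok TK_l333 _)))
           (CovZ.leaf K3_ok TK_l334 _))
          (CovZ.n1 (-3774, 4504) (by decide +kernel)
           (CovZ.n2 (-3775, 4505) (by decide +kernel)
            (CovZ.leaf K3_ok TK_l335 _)
            (CovZ.leaf K3_ok TK_l336 _))
           (CovZ.n1 (-3773, 4505) (by decide +kernel)
            (CovZ.badM (by decide +kernel))
            (CovZ.leaf K3_ok TK_l339 _))))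
         (CovZ.n1 (-3770, 4506) (by decide +kernel)
          (CovZ.badM (by decide +kernel))
          (CovZ.n1 (-3772, 4506) (by decide +kernel)
           (CovZ.n2 (-3771, 4507) (by decide +kernel)
            (CovZ.leaf K3_ok TK_l340 _)
            (CovZ.leaf K3_ok TK_l341 _))
           (CovZ.leaf K3_ok TK_l342 _))))
        (CovZ.n1 (-3776, 4508) (by decide +kernel)
         (CovZ.n2 (-3774, 4510) (by decide +kernel)
          (CovZ.n2 (-3774, 4508) (by decide +kernel)
           (CovZ.leaf K3_ok TK_l343 _)
           (CovZ.leaf K3_ok TK_l344 _))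
          (CovZ.leaf K3_ok TK_l345 _))
         (CovZ.n1 (-3774, 4506) (by decide +kernel)
          (CovZ.n2 (-3776, 4506) (by decide +kernel)
           (CovZ.leaf K3_ok TK_l346 _)
           (CovZ.leaf K3_ok TK_l347 _))
          (CovZ.n1 (-3774, 4508) (by decide +kernel)
           (CovZ.leaf K3_ok TK_l348 _)
           (CovZ.n1 (-3775, 4507) (by decide +kernel)
            (CovZ.leaf K3_ok TK_l349 _)
            (CovZ.leaf K3_ok TK_l350 _))))))
       (CovZ.badM (by decide +kernel))))
     (CovZ.badM (by decide +kernel)))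
    (CovZ.n1 (-3760, 4512) (by decide +kernel)
     (CovZ.n2 (-3752, 4504) (by decide +kernel)
      (CovZ.n2 (-3760, 4504) (by decide +kernel)
       (CovZ.n2 (-3756, 4508) (by decide +kernel)
        (CovZ.badM (by decide +kernel))
        (CovZ.n1 (-3760, 4508) (by decide +kernel)
         (CovZ.n2 (-3758, 4510) (by decide +kernel)
          (CovZ.badM (by decide +kernel))
          (CovZ.n1 (-3760, 4510) (by decide +kernel)
           (CovZ.n2 (-3759, 4511) (by decide +kernel)
            (CovZ.badM (by decide +kernel))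
            (CovZ.leaf K3_ok TK_l356 _))
           (CovZ.badM (by decide +kernel))))
         (CovZ.badM (by decide +kernel))))
       (CovZ.badM (by decide +kernel)))
      (CovZ.n1 (-3752, 4512) (by decide +kernel)
       (CovZ.badM (by decide +kernel))
       (CovZ.n1 (-3756, 4508) (by decide +kernel)
        (CovZ.n2 (-3756, 4512) (by decide +kernel)
         (CovZ.badM (by decide +kernel))
         (CovZ.n1 (-3758, 4510) (by decide +kernel)
          (CovZ.n2 (-3758, 4512) (by decide +kernel)
           (CovZ.badM (by decide +kernel))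
           (CovZ.n1 (-3759, 4511) (by decide +kernel)
            (CovZ.leaf K3_ok TK_l357 _)
            (CovZ.badM (by decide +kernel))))
          (CovZ.badM (by decide +kernel))))
        (CovZ.badM (by decide +kernel)))))
     (CovZ.n1 (-3768, 4504) (by decide +kernel)
      (CovZ.n2 (-3768, 4512) (by decide +kernel)
       (CovZ.n2 (-3764, 4508) (by decide +kernel)
        (CovZ.n2 (-3768, 4508) (by decide +kernel)
         (CovZ.n2 (-3766, 4510) (by decide +kernel)
          (CovZ.n2 (-3766, 4508) (by decide +kernel)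
           (CovZ.leaf K3_ok TK_l358 _)
           (CovZ.n1 (-3765, 4509) (by decide +kernel)
            (CovZ.leaf K3_ok TK_l359 _)
            (CovZ.leaf K3_ok TK_l360 _)))
          (CovZ.n1 (-3768, 4510) (by decide +kernel)
           (CovZ.leaf K3_ok TK_l361 _)
           (CovZ.leaf K3_ok TK_l362 _)))
         (CovZ.n1 (-3766, 4506) (by decide +kernel)
          (CovZ.n2 (-3768, 4506) (by decide +kernel)
           (CovZ.n2 (-3767, 4507) (by decide +kernel)
            (CovZ.badM (by decide +kernel))
            (CovZ.n1 (-3768, 4507) (by decide +kernel)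
             (CovZ.leaf K3_ok TK_l363 _)
             (CovZ.badM (by decide +kernel))))
           (CovZ.badM (by decide +kernel)))
          (CovZ.n1 (-3766, 4508) (by decide +kernel)
           (CovZ.badM (by decide +kernel))
           (CovZ.n1 (-3767, 4507) (by decide +kernel)
            (CovZ.leaf K3_ok TK_l366 _)
            (CovZ.badM (by decide +kernel))))))
        (CovZ.n1 (-3764, 4512) (by decide +kernel)
         (CovZ.n2 (-3762, 4510) (by decide +kernel)
          (CovZ.n2 (-3764, 4510) (by decide +kernel)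
           (CovZ.n2 (-3763, 4511) (by decide +kernel)
            (CovZ.leaf K3_ok TK_l368 _)
            (CovZ.leaf K3_ok TK_l369 _))
           (CovZ.n1 (-3763, 4509) (by decide +kernel)
            (CovZ.leaf K3_ok TK_l370 _)
            (CovZ.leaf K3_ok TK_l371 _)))
          (CovZ.n1 (-3762, 4512) (by decide +kernel)
           (CovZ.leaf K3_ok TK_l372 _)
           (CovZ.n1 (-3763, 4511) (by decide +kernel)
            (CovZ.leaf K3_ok TK_l373 _)
            (CovZ.leaf K3_ok TK_l374 _))))
         (CovZ.n1 (-3766, 4510) (by decide +kernel)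
          (CovZ.leaf K3_ok TK_l375 _)
          (CovZ.n1 (-3764, 4510) (by decide +kernel)
           (CovZ.n2 (-3765, 4509) (by decide +kernel)
            (CovZ.leaf K3_ok TK_l376 _)
            (CovZ.leaf K3_ok TK_l377 _))
           (CovZ.leaf K3_ok TK_l378 _)))))
       (CovZ.n1 (-3772, 4508) (by decide +kernel)
        (CovZ.n2 (-3772, 4512) (by decide +kernel)
         (CovZ.leaf K3_ok TK_l379 _)
         (CovZ.n1 (-3774, 4510) (by decide +kernel)
          (CovZ.leaf K3_ok TK_l380 _)
          (CovZ.n1 (-3772, 4510) (by decide +kernel)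
           (CovZ.leaf K3_ok TK_l381 _)
           (CovZ.leaf K3_ok TK_l382 _))))
        (CovZ.n1 (-3768, 4508) (by decide +kernel)
         (CovZ.n2 (-3770, 4506) (by decide +kernel)
          (CovZ.n2 (-3770, 4508) (by decide +kernel)
           (CovZ.leaf K3_ok TK_l383 _)
           (CovZ.n1 (-3771, 4507) (by decide +kernel)
            (CovZ.leaf K3_ok TK_l384 _)
            (CovZ.leaf K3_ok TK_l385 _)))
          (CovZ.n1 (-3768, 4506) (by decide +kernel)
           (CovZ.badM (by decide +kernel))
           (CovZ.leaf K3_ok TK_l386 _)))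
         (CovZ.n1 (-3770, 4510) (by decide +kernel)
          (CovZ.n2 (-3768, 4510) (by decide +kernel)
           (CovZ.n2 (-3769, 4509) (by decide +kernel)
            (CovZ.leaf K3_ok TK_l387 _)
            (CovZ.leaf K3_ok TK_l388 _))
           (CovZ.leaf K3_ok TK_l389 _))
          (CovZ.n1 (-3770, 4508) (by decide +kernel)
           (CovZ.leaf K3_ok TK_l390 _)
           (CovZ.n1 (-3769, 4509) (by decide +kernel)
            (CovZ.leaf K3_ok TK_l391 _)
            (CovZ.leaf K3_ok TK_l392 _)))))))
      (CovZ.n1 (-3760, 4504) (by decide +kernel)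
       (CovZ.badM (by decide +kernel))
       (CovZ.n1 (-3764, 4508) (by decide +kernel)
        (CovZ.n2 (-3760, 4508) (by decide +kernel)
         (CovZ.badM (by decide +kernel))
         (CovZ.n1 (-3762, 4510) (by decide +kernel)
          (CovZ.n2 (-3760, 4510) (by decide +kernel)
           (CovZ.n2 (-3761, 4509) (by decide +kernel)
            (CovZ.n2 (-3761, 4510) (by decide +kernel)
             (CovZ.badM (by decide +kernel))
             (CovZ.leaf K3_ok TK_l393 _))
            (CovZ.badM (by decide +kernel)))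
           (CovZ.n1 (-3761, 4511) (by decide +kernel)
            (CovZ.leaf K3_ok TK_l394 _)
            (CovZ.n1 (-3761, 4510) (by decide +kernel)
             (CovZ.leaf K3_ok TK_l395 _)
             (CovZ.leaf K3_ok TK_l396 _))))
          (CovZ.n1 (-3762, 4508) (by decide +kernel)
           (CovZ.n2 (-3763, 4509) (by decide +kernel)
            (CovZ.n2 (-3762, 4509) (by decide +kernel)
             (CovZ.badM (by decide +kernel))
             (CovZ.leaf K3_ok TK_l397 _))
            (CovZ.badM (by decide +kernel)))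
           (CovZ.n1 (-3761, 4509) (by decide +kernel)
            (CovZ.badM (by decide +kernel))
            (CovZ.n1 (-3762, 4509) (by decide +kernel)
             (CovZ.leaf K3_ok TK_l398 _)
             (CovZ.badM (by decide +kernel)))))))
        (CovZ.badM (by decide +kernel))))))))

theorem TK_s2_0 : SqZ TK_M TK_L [0, 7, 4, 3] (-3808) 4480 32 2 0 :=
  SqZ.mk (a := (-3744)) (b := (-3712)) (c := 4480) (d := 4512) (by norm_num) (by norm_num) (by norm_num) (by norm_num)
    (CovZ.topM TK_LL 0 (by decide +kernel) (CovZ.badM (by decide +kernel)))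
    (CovZ.topM TK_LL 0 (by decide +kernel) (CovZ.badM (by decide +kernel)))

theorem TK_s3_0 : SqZ TK_M TK_L [0, 7, 4, 3] (-3808) 4480 32 3 0 :=
  SqZ.mk (a := (-3712)) (b := (-3680)) (c := 4480) (d := 4512) (by norm_num) (by norm_num) (by norm_num) (by norm_num)
    (CovZ.topM TK_LL 0 (by decide +kernel) (CovZ.badM (by decide +kernel)))
    (CovZ.topM TK_LL 0 (by decide +kernel) (CovZ.badM (by decide +kernel)))

theorem TK_s0_1 : SqZ TK_M TK_L [0, 7, 4, 3] (-3808) 4480 32 0 1 :=
  SqZ.mk (a := (-3808)) (b := (-3776)) (c := 4512) (d := 4544) (by norm_num) (by norm_num) (by norm_num) (by norm_num)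
    (CovZ.topM TK_LL 7 (by decide +kernel) (CovZ.n2 (-3792, 4528) (by decide +kernel)
    (CovZ.n2 (-3776, 4528) (by decide +kernel)
     (CovZ.n2 (-3784, 4520) (by decide +kernel)
      (CovZ.n2 (-3784, 4528) (by decide +kernel)
       (CovZ.leaf K3_ok TK_l174 _)
       (CovZ.n1 (-3788, 4524) (by decide +kernel)
        (CovZ.n2 (-3788, 4528) (by decide +kernel)
         (CovZ.leaf K3_ok TK_l175 _)
         (CovZ.n1 (-3790, 4526) (by decide +kernel)
          (CovZ.leaf K3_ok TK_l176 _)
          (CovZ.leaf K3_ok TK_l177 _)))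
        (CovZ.n1 (-3784, 4524) (by decide +kernel)
         (CovZ.leaf K3_ok TK_l178 _)
         (CovZ.leaf K3_ok TK_l179 _))))
      (CovZ.n1 (-3776, 4520) (by decide +kernel)
       (CovZ.n2 (-3780, 4516) (by decide +kernel)
        (CovZ.leaf K3_ok TK_l180 _)
        (CovZ.n1 (-3776, 4516) (by decide +kernel)
         (CovZ.leaf K3_ok TK_l181 _)
         (CovZ.leaf K3_ok TK_l182 _)))
       (CovZ.leaf K3_ok TK_l183 _)))
     (CovZ.n1 (-3784, 4536) (by decide +kernel)
      (CovZ.n2 (-3776, 4536) (by decide +kernel)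
       (CovZ.n2 (-3780, 4532) (by decide +kernel)
        (CovZ.n2 (-3780, 4536) (by decide +kernel)
         (CovZ.leaf K3_ok TK_l184 _)
         (CovZ.n1 (-3782, 4534) (by decide +kernel)
          (CovZ.badM (by decide +kernel))
          (CovZ.leaf K3_ok TK_l188 _)))
        (CovZ.n1 (-3776, 4532) (by decide +kernel)
         (CovZ.leaf K3_ok TK_l189 _)
         (CovZ.leaf K3_ok TK_l190 _)))
       (CovZ.n1 (-3780, 4540) (by decide +kernel)
        (CovZ.n2 (-3776, 4540) (by decide +kernel)
         (CovZ.n2 (-3778, 4538) (by decide +kernel)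
          (CovZ.badM (by decide +kernel))
          (CovZ.n1 (-3776, 4538) (by decide +kernel)
           (CovZ.leaf K3_ok TK_l193 _)
           (CovZ.badM (by decide +kernel))))
         (CovZ.badM (by decide +kernel)))
        (CovZ.n1 (-3780, 4536) (by decide +kernel)
         (CovZ.badM (by decide +kernel))
         (CovZ.n1 (-3778, 4538) (by decide +kernel)
          (CovZ.leaf K3_ok TK_l204 _)
          (CovZ.badM (by decide +kernel))))))
      (CovZ.n1 (-3784, 4528) (by decide +kernel)
       (CovZ.n2 (-3788, 4532) (by decide +kernel)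
        (CovZ.n2 (-3784, 4532) (by decide +kernel)
         (CovZ.n2 (-3786, 4530) (by decide +kernel)
          (CovZ.leaf K3_ok TK_l208 _)
          (CovZ.leaf K3_ok TK_l209 _))
         (CovZ.n1 (-3786, 4534) (by decide +kernel)
          (CovZ.n2 (-3784, 4534) (by decide +kernel)
           (CovZ.n2 (-3785, 4533) (by decide +kernel)
            (CovZ.badM (by decide +kernel))
            (CovZ.leaf K3_ok TK_l211 _))
           (CovZ.badM (by decide +kernel)))
          (CovZ.n1 (-3786, 4532) (by decide +kernel)
           (CovZ.leaf K3_ok TK_l213 _)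
           (CovZ.leaf K3_ok TK_l214 _))))
        (CovZ.n1 (-3788, 4528) (by decide +kernel)
         (CovZ.n2 (-3790, 4530) (by decide +kernel)
          (CovZ.n2 (-3788, 4530) (by decide +kernel)
           (CovZ.leaf K3_ok TK_l215 _)
           (CovZ.leaf K3_ok TK_l216 _))
          (CovZ.leaf K3_ok TK_l217 _))
         (CovZ.n1 (-3786, 4530) (by decide +kernel)
          (CovZ.leaf K3_ok TK_l218 _)
          (CovZ.n1 (-3788, 4530) (by decide +kernel)
           (CovZ.leaf K3_ok TK_l219 _)
           (CovZ.leaf K3_ok TK_l220 _)))))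
       (CovZ.n1 (-3780, 4532) (by decide +kernel)
        (CovZ.leaf K3_ok TK_l221 _)
        (CovZ.n1 (-3784, 4532) (by decide +kernel)
         (CovZ.n2 (-3782, 4534) (by decide +kernel)
          (CovZ.leaf K3_ok TK_l222 _)
          (CovZ.n1 (-3784, 4534) (by decide +kernel)
           (CovZ.badM (by decide +kernel))
           (CovZ.leaf K3_ok TK_l225 _)))
         (CovZ.leaf K3_ok TK_l226 _))))))
    (CovZ.n1 (-3792, 4512) (by decide +kernel)
     (CovZ.n2 (-3800, 4520) (by decide +kernel)
      (CovZ.n2 (-3792, 4520) (by decide +kernel)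
       (CovZ.n2 (-3796, 4516) (by decide +kernel)
        (CovZ.n2 (-3796, 4520) (by decide +kernel)
         (CovZ.leaf K3_ok TK_l227 _)
         (CovZ.n1 (-3798, 4518) (by decide +kernel)
          (CovZ.leaf K3_ok TK_l228 _)
          (CovZ.leaf K3_ok TK_l229 _)))
        (CovZ.leaf K3_ok TK_l230 _))
       (CovZ.n1 (-3796, 4524) (by decide +kernel)
        (CovZ.n2 (-3792, 4524) (by decide +kernel)
         (CovZ.n2 (-3794, 4522) (by decide +kernel)
          (CovZ.leaf K3_ok TK_l231 _)
          (CovZ.leaf K3_ok TK_l232 _))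
         (CovZ.leaf K3_ok TK_l233 _))
        (CovZ.n1 (-3796, 4520) (by decide +kernel)
         (CovZ.leaf K3_ok TK_l234 _)
         (CovZ.n1 (-3794, 4522) (by decide +kernel)
          (CovZ.leaf K3_ok TK_l235 _)
          (CovZ.leaf K3_ok TK_l236 _)))))
      (CovZ.n1 (-3800, 4512) (by decide +kernel)
       (CovZ.n2 (-3804, 4516) (by decide +kernel)
        (CovZ.n2 (-3800, 4516) (by decide +kernel)
         (CovZ.leaf K3_ok TK_l237 _)
         (CovZ.leaf K3_ok TK_l238 _))
        (CovZ.leaf K3_ok TK_l239 _))
       (CovZ.n1 (-3796, 4516) (by decide +kernel)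
        (CovZ.leaf K3_ok TK_l240 _)
        (CovZ.n1 (-3800, 4516) (by decide +kernel)
         (CovZ.n2 (-3798, 4518) (by decide +kernel)
          (CovZ.leaf K3_ok TK_l241 _)
          (CovZ.leaf K3_ok TK_l242 _))
         (CovZ.leaf K3_ok TK_l243 _)))))
     (CovZ.n1 (-3784, 4520) (by decide +kernel)
      (CovZ.n2 (-3784, 4512) (by decide +kernel)
       (CovZ.leaf K3_ok TK_l244 _)
       (CovZ.n1 (-3780, 4516) (by decide +kernel)
        (CovZ.n2 (-3780, 4512) (by decide +kernel)
         (CovZ.leaf K3_ok TK_l245 _)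
         (CovZ.leaf K3_ok TK_l246 _))
        (CovZ.leaf K3_ok TK_l247 _)))
      (CovZ.n1 (-3792, 4520) (by decide +kernel)
       (CovZ.n2 (-3788, 4524) (by decide +kernel)
        (CovZ.leaf K3_ok TK_l248 _)
        (CovZ.n1 (-3792, 4524) (by decide +kernel)
         (CovZ.n2 (-3790, 4526) (by decide +kernel)
          (CovZ.leaf K3_ok TK_l249 _)
          (CovZ.leaf K3_ok TK_l250 _))
         (CovZ.leaf K3_ok TK_l251 _)))
       (CovZ.leaf K3_ok TK_l252 _))))))
    (CovZ.topM TK_LL 3 (by decide +kernel) (CovZ.n0 (-3792, 4528) (by decide +kernel)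
    (CovZ.n2 (-3808, 4528) (by decide +kernel)
     (CovZ.n2 (-3800, 4536) (by decide +kernel)
      (CovZ.n2 (-3800, 4528) (by decide +kernel)
       (CovZ.badM (by decide +kernel))
       (CovZ.n1 (-3796, 4532) (by decide +kernel)
        (CovZ.n2 (-3796, 4528) (by decide +kernel)
         (CovZ.badM (by decide +kernel))
         (CovZ.n1 (-3794, 4530) (by decide +kernel)
          (CovZ.n2 (-3794, 4528) (by decide +kernel)
           (CovZ.leaf K3_ok TK_l257 _)
           (CovZ.n1 (-3793, 4529) (by decide +kernel)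
            (CovZ.leaf K3_ok TK_l258 _)
            (CovZ.leaf K3_ok TK_l259 _)))
          (CovZ.badM (by decide +kernel))))
        (CovZ.badM (by decide +kernel))))
      (CovZ.badM (by decide +kernel)))
     (CovZ.n1 (-3800, 4520) (by decide +kernel)
      (CovZ.n2 (-3808, 4520) (by decide +kernel)
       (CovZ.n2 (-3804, 4524) (by decide +kernel)
        (CovZ.n2 (-3804, 4520) (by decide +kernel)
         (CovZ.n2 (-3806, 4522) (by decide +kernel)
          (CovZ.n2 (-3804, 4522) (by decide +kernel)
           (CovZ.n2 (-3805, 4521) (by decide +kernel)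
            (CovZ.badM (by decide +kernel))
            (CovZ.leaf K3_ok TK_l266 _))
           (CovZ.badM (by decide +kernel)))
          (CovZ.n1 (-3806, 4520) (by decide +kernel)
           (CovZ.leaf K3_ok TK_l267 _)
           (CovZ.n1 (-3805, 4521) (by decide +kernel)
            (CovZ.leaf K3_ok TK_l268 _)
            (CovZ.leaf K3_ok TK_l269 _))))
         (CovZ.n1 (-3802, 4522) (by decide +kernel)
          (CovZ.leaf K3_ok TK_l270 _)
          (CovZ.n1 (-3804, 4522) (by decide +kernel)
           (CovZ.n2 (-3803, 4523) (by decide +kernel)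
            (CovZ.n2 (-3803, 4522) (by decide +kernel)
             (CovZ.badM (by decide +kernel))
             (CovZ.leaf K3_ok TK_l271 _))
            (CovZ.badM (by decide +kernel)))
           (CovZ.leaf K3_ok TK_l272 _))))
        (CovZ.badM (by decide +kernel)))
       (CovZ.n1 (-3804, 4516) (by decide +kernel)
        (CovZ.n2 (-3808, 4516) (by decide +kernel)
         (CovZ.n2 (-3806, 4518) (by decide +kernel)
          (CovZ.leaf K3_ok TK_l273 _)
          (CovZ.n1 (-3808, 4518) (by decide +kernel)
           (CovZ.leaf K3_ok TK_l274 _)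
           (CovZ.leaf K3_ok TK_l275 _)))
         (CovZ.leaf K3_ok TK_l276 _))
        (CovZ.n1 (-3804, 4520) (by decide +kernel)
         (CovZ.leaf K3_ok TK_l277 _)
         (CovZ.n1 (-3806, 4518) (by decide +kernel)
          (CovZ.leaf K3_ok TK_l278 _)
          (CovZ.leaf K3_ok TK_l279 _)))))
      (CovZ.n1 (-3800, 4528) (by decide +kernel)
       (CovZ.n2 (-3796, 4524) (by decide +kernel)
        (CovZ.n2 (-3800, 4524) (by decide +kernel)
         (CovZ.n2 (-3798, 4526) (by decide +kernel)
          (CovZ.leaf K3_ok TK_l280 _)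
          (CovZ.n1 (-3800, 4526) (by decide +kernel)
           (CovZ.n2 (-3799, 4527) (by decide +kernel)
            (CovZ.leaf K3_ok TK_l281 _)
            (CovZ.badM (by decide +kernel)))
           (CovZ.leaf K3_ok TK_l283 _)))
         (CovZ.leaf K3_ok TK_l284 _))
        (CovZ.n1 (-3796, 4528) (by decide +kernel)
         (CovZ.n2 (-3794, 4526) (by decide +kernel)
          (CovZ.n2 (-3796, 4526) (by decide +kernel)
           (CovZ.leaf K3_ok TK_l285 _)
           (CovZ.leaf K3_ok TK_l286 _))
          (CovZ.n1 (-3794, 4528) (by decide +kernel)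
           (CovZ.leaf K3_ok TK_l287 _)
           (CovZ.n1 (-3795, 4527) (by decide +kernel)
            (CovZ.leaf K3_ok TK_l288 _)
            (CovZ.leaf K3_ok TK_l289 _))))
         (CovZ.n1 (-3798, 4526) (by decide +kernel)
          (CovZ.n2 (-3798, 4528) (by decide +kernel)
           (CovZ.leaf K3_ok TK_l290 _)
           (CovZ.n1 (-3799, 4527) (by decide +kernel)
            (CovZ.badM (by decide +kernel))
            (CovZ.leaf K3_ok TK_l291 _)))
          (CovZ.n1 (-3796, 4526) (by decide +kernel)
           (CovZ.leaf K3_ok TK_l292 _)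
           (CovZ.leaf K3_ok TK_l293 _)))))
       (CovZ.n1 (-3804, 4524) (by decide +kernel)
        (CovZ.badM (by decide +kernel))
        (CovZ.n1 (-3800, 4524) (by decide +kernel)
         (CovZ.n2 (-3802, 4522) (by decide +kernel)
          (CovZ.n2 (-3802, 4524) (by decide +kernel)
           (CovZ.leaf K3_ok TK_l294 _)
           (CovZ.n1 (-3803, 4523) (by decide +kernel)
            (CovZ.badM (by decide +kernel))
            (CovZ.leaf K3_ok TK_l296 _)))
          (CovZ.leaf K3_ok TK_l297 _))
         (CovZ.n1 (-3802, 4526) (by decide +kernel)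
          (CovZ.n2 (-3800, 4526) (by decide +kernel)
           (CovZ.n2 (-3801, 4525) (by decide +kernel)
            (CovZ.badM (by decide +kernel))
            (CovZ.leaf K3_ok TK_l299 _))
           (CovZ.badM (by decide +kernel)))
          (CovZ.n1 (-3802, 4524) (by decide +kernel)
           (CovZ.badM (by decide +kernel))
           (CovZ.n1 (-3801, 4525) (by decide +kernel)
            (CovZ.leaf K3_ok TK_l303 _)
            (CovZ.badM (by decide +kernel))))))))))
    (CovZ.n1 (-3792, 4544) (by decide +kernel)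
     (CovZ.n2 (-3784, 4536) (by decide +kernel)
      (CovZ.n2 (-3792, 4536) (by decide +kernel)
       (CovZ.badM (by decide +kernel))
       (CovZ.n1 (-3788, 4532) (by decide +kernel)
        (CovZ.n2 (-3792, 4532) (by decide +kernel)
         (CovZ.badM (by decide +kernel))
         (CovZ.n1 (-3790, 4530) (by decide +kernel)
          (CovZ.n2 (-3792, 4530) (by decide +kernel)
           (CovZ.n2 (-3791, 4531) (by decide +kernel)
            (CovZ.leaf K3_ok TK_l308 _)
            (CovZ.badM (by decide +kernel)))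
           (CovZ.leaf K3_ok TK_l310 _))
          (CovZ.n1 (-3790, 4532) (by decide +kernel)
           (CovZ.leaf K3_ok TK_l311 _)
           (CovZ.n1 (-3791, 4531) (by decide +kernel)
            (CovZ.badM (by decide +kernel))
            (CovZ.leaf K3_ok TK_l313 _)))))
        (CovZ.badM (by decide +kernel))))
      (CovZ.badM (by decide +kernel)))
     (CovZ.n1 (-3800, 4536) (by decide +kernel)
      (CovZ.badM (by decide +kernel))
      (CovZ.n1 (-3792, 4536) (by decide +kernel)
       (CovZ.n2 (-3796, 4532) (by decide +kernel)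
        (CovZ.badM (by decide +kernel))
        (CovZ.n1 (-3792, 4532) (by decide +kernel)
         (CovZ.n2 (-3794, 4530) (by decide +kernel)
          (CovZ.badM (by decide +kernel))
          (CovZ.n1 (-3792, 4530) (by decide +kernel)
           (CovZ.n2 (-3793, 4529) (by decide +kernel)
            (CovZ.leaf K3_ok TK_l328 _)
            (CovZ.leaf K3_ok TK_l329 _))
           (CovZ.badM (by decide +kernel))))
         (CovZ.badM (by decide +kernel))))
       (CovZ.badM (by decide +kernel)))))))

theorem TK_s1_1 : SqZ TK_M TK_L [0, 7, 4, 3] (-3808) 4480 32 1 1 :=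
  SqZ.mk (a := (-3776)) (b := (-3744)) (c := 4512) (d := 4544) (by norm_num) (by norm_num) (by norm_num) (by norm_num)
    (CovZ.topM TK_LL 7 (by decide +kernel) (CovZ.n2 (-3760, 4528) (by decide +kernel)
    (CovZ.n2 (-3744, 4528) (by decide +kernel)
     (CovZ.n2 (-3752, 4520) (by decide +kernel)
      (CovZ.n2 (-3752, 4528) (by decide +kernel)
       (CovZ.n2 (-3748, 4524) (by decide +kernel)
        (CovZ.n2 (-3752, 4524) (by decide +kernel)
         (CovZ.n2 (-3750, 4526) (by decide +kernel)
          (CovZ.leaf K3_ok TK_l399 _)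
          (CovZ.leaf K3_ok TK_l400 _))
         (CovZ.leaf K3_ok TK_l401 _))
        (CovZ.n1 (-3748, 4528) (by decide +kernel)
         (CovZ.leaf K3_ok TK_l402 _)
         (CovZ.n1 (-3750, 4526) (by decide +kernel)
          (CovZ.leaf K3_ok TK_l403 _)
          (CovZ.leaf K3_ok TK_l404 _))))
       (CovZ.n1 (-3756, 4524) (by decide +kernel)
        (CovZ.leaf K3_ok TK_l405 _)
        (CovZ.n1 (-3752, 4524) (by decide +kernel)
         (CovZ.n2 (-3754, 4522) (by decide +kernel)
          (CovZ.leaf K3_ok TK_l406 _)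
          (CovZ.leaf K3_ok TK_l407 _))
         (CovZ.leaf K3_ok TK_l408 _))))
      (CovZ.n1 (-3744, 4520) (by decide +kernel)
       (CovZ.n2 (-3748, 4516) (by decide +kernel)
        (CovZ.n2 (-3748, 4520) (by decide +kernel)
         (CovZ.n2 (-3746, 4518) (by decide +kernel)
          (CovZ.n2 (-3748, 4518) (by decide +kernel)
           (CovZ.n2 (-3747, 4519) (by decide +kernel)
            (CovZ.badM (by decide +kernel))
            (CovZ.leaf K3_ok TK_l409 _))
           (CovZ.badM (by decide +kernel)))
          (CovZ.n1 (-3746, 4520) (by decide +kernel)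
           (CovZ.badM (by decide +kernel))
           (CovZ.n1 (-3747, 4519) (by decide +kernel)
            (CovZ.leaf K3_ok TK_l412 _)
            (CovZ.badM (by decide +kernel)))))
         (CovZ.n1 (-3750, 4518) (by decide +kernel)
          (CovZ.n2 (-3750, 4520) (by decide +kernel)
           (CovZ.leaf K3_ok TK_l414 _)
           (CovZ.n1 (-3751, 4519) (by decide +kernel)
            (CovZ.leaf K3_ok TK_l415 _)
            (CovZ.leaf K3_ok TK_l416 _)))
          (CovZ.n1 (-3748, 4518) (by decide +kernel)
           (CovZ.badM (by decide +kernel))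
           (CovZ.leaf K3_ok TK_l418 _))))
        (CovZ.badM (by decide +kernel)))
       (CovZ.n1 (-3748, 4524) (by decide +kernel)
        (CovZ.n2 (-3744, 4524) (by decide +kernel)
         (CovZ.n2 (-3746, 4522) (by decide +kernel)
          (CovZ.leaf K3_ok TK_l419 _)
          (CovZ.n1 (-3744, 4522) (by decide +kernel)
           (CovZ.n2 (-3745, 4521) (by decide +kernel)
            (CovZ.leaf K3_ok TK_l420 _)
            (CovZ.badM (by decide +kernel)))
           (CovZ.leaf K3_ok TK_l422 _)))
         (CovZ.n1 (-3746, 4526) (by decide +kernel)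
          (CovZ.leaf K3_ok TK_l423 _)
          (CovZ.leaf K3_ok TK_l424 _)))
        (CovZ.n1 (-3748, 4520) (by decide +kernel)
         (CovZ.n2 (-3750, 4522) (by decide +kernel)
          (CovZ.n2 (-3748, 4522) (by decide +kernel)
           (CovZ.n2 (-3749, 4521) (by decide +kernel)
            (CovZ.leaf K3_ok TK_l425 _)
            (CovZ.leaf K3_ok TK_l426 _))
           (CovZ.leaf K3_ok TK_l427 _))
          (CovZ.n1 (-3750, 4520) (by decide +kernel)
           (CovZ.leaf K3_ok TK_l428 _)
           (CovZ.n1 (-3749, 4521) (by decide +kernel)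
            (CovZ.leaf K3_ok TK_l429 _)
            (CovZ.leaf K3_ok TK_l430 _))))
         (CovZ.n1 (-3746, 4522) (by decide +kernel)
          (CovZ.n2 (-3746, 4520) (by decide +kernel)
           (CovZ.leaf K3_ok TK_l431 _)
           (CovZ.n1 (-3745, 4521) (by decide +kernel)
            (CovZ.badM (by decide +kernel))
            (CovZ.leaf K3_ok TK_l433 _)))
          (CovZ.n1 (-3748, 4522) (by decide +kernel)
           (CovZ.leaf K3_ok TK_l434 _)
           (CovZ.leaf K3_ok TK_l435 _)))))))
     (CovZ.n1 (-3752, 4536) (by decide +kernel)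
      (CovZ.n2 (-3744, 4536) (by decide +kernel)
       (CovZ.n2 (-3748, 4532) (by decide +kernel)
        (CovZ.leaf K3_ok TK_l436 _)
        (CovZ.n1 (-3744, 4532) (by decide +kernel)
         (CovZ.n2 (-3746, 4530) (by decide +kernel)
          (CovZ.leaf K3_ok TK_l437 _)
          (CovZ.leaf K3_ok TK_l438 _))
         (CovZ.leaf K3_ok TK_l439 _)))
       (CovZ.leaf K3_ok TK_l440 _))
      (CovZ.n1 (-3752, 4528) (by decide +kernel)
       (CovZ.leaf K3_ok TK_l441 _)
       (CovZ.n1 (-3748, 4532) (by decide +kernel)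
        (CovZ.n2 (-3748, 4528) (by decide +kernel)
         (CovZ.leaf K3_ok TK_l442 _)
         (CovZ.leaf K3_ok TK_l443 _))
        (CovZ.leaf K3_ok TK_l444 _)))))
    (CovZ.n1 (-3760, 4512) (by decide +kernel)
     (CovZ.n2 (-3768, 4520) (by decide +kernel)
      (CovZ.n2 (-3760, 4520) (by decide +kernel)
       (CovZ.n2 (-3764, 4516) (by decide +kernel)
        (CovZ.n2 (-3764, 4520) (by decide +kernel)
         (CovZ.leaf K3_ok TK_l445 _)
         (CovZ.n1 (-3766, 4518) (by decide +kernel)
          (CovZ.leaf K3_ok TK_l446 _)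
          (CovZ.leaf K3_ok TK_l447 _)))
        (CovZ.n1 (-3760, 4516) (by decide +kernel)
         (CovZ.n2 (-3762, 4514) (by decide +kernel)
          (CovZ.leaf K3_ok TK_l448 _)
          (CovZ.n1 (-3760, 4514) (by decide +kernel)
           (CovZ.n2 (-3761, 4513) (by decide +kernel)
            (CovZ.leaf K3_ok TK_l449 _)
            (CovZ.leaf K3_ok TK_l450 _))
           (CovZ.leaf K3_ok TK_l451 _)))
         (CovZ.leaf K3_ok TK_l452 _)))
       (CovZ.n1 (-3764, 4524) (by decide +kernel)
        (CovZ.n2 (-3760, 4524) (by decide +kernel)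
         (CovZ.leaf K3_ok TK_l453 _)
         (CovZ.leaf K3_ok TK_l454 _))
        (CovZ.leaf K3_ok TK_l455 _)))
      (CovZ.n1 (-3768, 4512) (by decide +kernel)
       (CovZ.n2 (-3772, 4516) (by decide +kernel)
        (CovZ.n2 (-3768, 4516) (by decide +kernel)
         (CovZ.n2 (-3770, 4514) (by decide +kernel)
          (CovZ.leaf K3_ok TK_l456 _)
          (CovZ.leaf K3_ok TK_l457 _))
         (CovZ.leaf K3_ok TK_l458 _))
        (CovZ.n1 (-3772, 4512) (by decide +kernel)
         (CovZ.leaf K3_ok TK_l459 _)
         (CovZ.n1 (-3770, 4514) (by decide +kernel)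
          (CovZ.leaf K3_ok TK_l460 _)
          (CovZ.leaf K3_ok TK_l461 _))))
       (CovZ.n1 (-3764, 4516) (by decide +kernel)
        (CovZ.n2 (-3764, 4512) (by decide +kernel)
         (CovZ.n2 (-3766, 4514) (by decide +kernel)
          (CovZ.leaf K3_ok TK_l462 _)
          (CovZ.leaf K3_ok TK_l463 _))
         (CovZ.n1 (-3762, 4514) (by decide +kernel)
          (CovZ.n2 (-3762, 4512) (by decide +kernel)
           (CovZ.leaf K3_ok TK_l464 _)
           (CovZ.n1 (-3761, 4513) (by decide +kernel)
            (CovZ.leaf K3_ok TK_l465 _)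
            (CovZ.leaf K3_ok TK_l466 _)))
          (CovZ.leaf K3_ok TK_l467 _)))
        (CovZ.n1 (-3768, 4516) (by decide +kernel)
         (CovZ.leaf K3_ok TK_l468 _)
         (CovZ.leaf K3_ok TK_l469 _)))))
     (CovZ.n1 (-3752, 4520) (by decide +kernel)
      (CovZ.n2 (-3752, 4512) (by decide +kernel)
       (CovZ.n2 (-3756, 4516) (by decide +kernel)
        (CovZ.n2 (-3752, 4516) (by decide +kernel)
         (CovZ.n2 (-3754, 4514) (by decide +kernel)
          (CovZ.n2 (-3754, 4516) (by decide +kernel)
           (CovZ.n2 (-3753, 4515) (by decide +kernel)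
            (CovZ.leaf K3_ok TK_l470 _)
            (CovZ.leaf K3_ok TK_l471 _))
           (CovZ.n1 (-3755, 4515) (by decide +kernel)
            (CovZ.leaf K3_ok TK_l472 _)
            (CovZ.n1 (-3754, 4515) (by decide +kernel)
             (CovZ.leaf K3_ok TK_l473 _)
             (CovZ.leaf K3_ok TK_l474 _))))
          (CovZ.badM (by decide +kernel)))
         (CovZ.n1 (-3754, 4518) (by decide +kernel)
          (CovZ.n2 (-3752, 4518) (by decide +kernel)
           (CovZ.n2 (-3753, 4517) (by decide +kernel)
            (CovZ.leaf K3_ok TK_l475 _)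
            (CovZ.leaf K3_ok TK_l476 _))
           (CovZ.leaf K3_ok TK_l477 _))
          (CovZ.n1 (-3754, 4516) (by decide +kernel)
           (CovZ.leaf K3_ok TK_l478 _)
           (CovZ.n1 (-3753, 4517) (by decide +kernel)
            (CovZ.leaf K3_ok TK_l479 _)
            (CovZ.leaf K3_ok TK_l480 _)))))
        (CovZ.n1 (-3756, 4512) (by decide +kernel)
         (CovZ.n2 (-3758, 4514) (by decide +kernel)
          (CovZ.n2 (-3756, 4514) (by decide +kernel)
           (CovZ.n2 (-3757, 4513) (by decide +kernel)
            (CovZ.leaf K3_ok TK_l481 _)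
            (CovZ.badM (by decide +kernel)))
           (CovZ.leaf K3_ok TK_l483 _))
          (CovZ.n1 (-3758, 4512) (by decide +kernel)
           (CovZ.leaf K3_ok TK_l484 _)
           (CovZ.n1 (-3757, 4513) (by decide +kernel)
            (CovZ.badM (by decide +kernel))
            (CovZ.leaf K3_ok TK_l485 _))))
         (CovZ.n1 (-3754, 4514) (by decide +kernel)
          (CovZ.badM (by decide +kernel))
          (CovZ.n1 (-3756, 4514) (by decide +kernel)
           (CovZ.n2 (-3755, 4515) (by decide +kernel)
            (CovZ.n2 (-3755, 4514) (by decide +kernel)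
             (CovZ.leaf K3_ok TK_l486 _)
             (CovZ.leaf K3_ok TK_l487 _))
            (CovZ.leaf K3_ok TK_l488 _))
           (CovZ.badM (by decide +kernel))))))
       (CovZ.n1 (-3748, 4516) (by decide +kernel)
        (CovZ.badM (by decide +kernel))
        (CovZ.n1 (-3752, 4516) (by decide +kernel)
         (CovZ.n2 (-3750, 4518) (by decide +kernel)
          (CovZ.badM (by decide +kernel))
          (CovZ.n1 (-3752, 4518) (by decide +kernel)
           (CovZ.n2 (-3751, 4519) (by decide +kernel)
            (CovZ.leaf K3_ok TK_l496 _)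
            (CovZ.leaf K3_ok TK_l497 _))
           (CovZ.leaf K3_ok TK_l498 _)))
         (CovZ.badM (by decide +kernel)))))
      (CovZ.n1 (-3760, 4520) (by decide +kernel)
       (CovZ.n2 (-3756, 4524) (by decide +kernel)
        (CovZ.n2 (-3756, 4520) (by decide +kernel)
         (CovZ.leaf K3_ok TK_l499 _)
         (CovZ.n1 (-3754, 4522) (by decide +kernel)
          (CovZ.leaf K3_ok TK_l500 _)
          (CovZ.leaf K3_ok TK_l501 _)))
        (CovZ.leaf K3_ok TK_l502 _))
       (CovZ.n1 (-3756, 4516) (by decide +kernel)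
        (CovZ.n2 (-3760, 4516) (by decide +kernel)
         (CovZ.n2 (-3758, 4518) (by decide +kernel)
          (CovZ.leaf K3_ok TK_l503 _)
          (CovZ.leaf K3_ok TK_l504 _))
         (CovZ.n1 (-3758, 4514) (by decide +kernel)
          (CovZ.n2 (-3760, 4514) (by decide +kernel)
           (CovZ.leaf K3_ok TK_l505 _)
           (CovZ.leaf K3_ok TK_l506 _))
          (CovZ.n1 (-3758, 4516) (by decide +kernel)
           (CovZ.leaf K3_ok TK_l507 _)
           (CovZ.leaf K3_ok TK_l508 _))))
        (CovZ.n1 (-3756, 4520) (by decide +kernel)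
         (CovZ.n2 (-3754, 4518) (by decide +kernel)
          (CovZ.leaf K3_ok TK_l509 _)
          (CovZ.leaf K3_ok TK_l510 _))
         (CovZ.n1 (-3758, 4518) (by decide +kernel)
          (CovZ.leaf K3_ok TK_l511 _)
          (CovZ.n1 (-3756, 4518) (by decide +kernel)
           (CovZ.leaf K3_ok TK_l512 _)
           (CovZ.leaf K3_ok TK_l513 _))))))))))
    (CovZ.topM TK_LL 7 (by decide +kernel) (CovZ.n0 (-3760, 4528) (by decide +kernel)
    (CovZ.n2 (-3776, 4528) (by decide +kernel)
     (CovZ.n2 (-3768, 4536) (by decide +kernel)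
      (CovZ.n2 (-3768, 4528) (by decide +kernel)
       (CovZ.leaf K3_ok TK_l514 _)
       (CovZ.n1 (-3764, 4532) (by decide +kernel)
        (CovZ.leaf K3_ok TK_l515 _)
        (CovZ.leaf K3_ok TK_l516 _)))
      (CovZ.n1 (-3776, 4536) (by decide +kernel)
       (CovZ.n2 (-3772, 4540) (by decide +kernel)
        (CovZ.n2 (-3772, 4536) (by decide +kernel)
         (CovZ.leaf K3_ok TK_l517 _)
         (CovZ.n1 (-3770, 4538) (by decide +kernel)
          (CovZ.leaf K3_ok TK_l518 _)
          (CovZ.leaf K3_ok TK_l519 _)))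
        (CovZ.n1 (-3776, 4540) (by decide +kernel)
         (CovZ.badM (by decide +kernel))
         (CovZ.n1 (-3774, 4538) (by decide +kernel)
          (CovZ.n2 (-3776, 4538) (by decide +kernel)
           (CovZ.badM (by decide +kernel))
           (CovZ.leaf K3_ok TK_l527 _))
          (CovZ.badM (by decide +kernel)))))
       (CovZ.n1 (-3772, 4532) (by decide +kernel)
        (CovZ.n2 (-3776, 4532) (by decide +kernel)
         (CovZ.leaf K3_ok TK_l530 _)
         (CovZ.leaf K3_ok TK_l531 _))
        (CovZ.n1 (-3772, 4536) (by decide +kernel)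
         (CovZ.leaf K3_ok TK_l532 _)
         (CovZ.n1 (-3774, 4534) (by decide +kernel)
          (CovZ.leaf K3_ok TK_l533 _)
          (CovZ.leaf K3_ok TK_l534 _))))))
     (CovZ.n1 (-3768, 4520) (by decide +kernel)
      (CovZ.n2 (-3776, 4520) (by decide +kernel)
       (CovZ.n2 (-3772, 4524) (by decide +kernel)
        (CovZ.leaf K3_ok TK_l535 _)
        (CovZ.leaf K3_ok TK_l536 _))
       (CovZ.n1 (-3772, 4516) (by decide +kernel)
        (CovZ.n2 (-3776, 4516) (by decide +kernel)
         (CovZ.leaf K3_ok TK_l537 _)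
         (CovZ.leaf K3_ok TK_l538 _))
        (CovZ.leaf K3_ok TK_l539 _)))
      (CovZ.n1 (-3768, 4528) (by decide +kernel)
       (CovZ.leaf K3_ok TK_l540 _)
       (CovZ.n1 (-3772, 4524) (by decide +kernel)
        (CovZ.leaf K3_ok TK_l541 _)
        (CovZ.leaf K3_ok TK_l542 _)))))
    (CovZ.n1 (-3760, 4544) (by decide +kernel)
     (CovZ.n2 (-3752, 4536) (by decide +kernel)
      (CovZ.n2 (-3760, 4536) (by decide +kernel)
       (CovZ.n2 (-3756, 4540) (by decide +kernel)
        (CovZ.leaf K3_ok TK_l543 _)
        (CovZ.n1 (-3760, 4540) (by decide +kernel)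
         (CovZ.leaf K3_ok TK_l544 _)
         (CovZ.leaf K3_ok TK_l545 _)))
       (CovZ.leaf K3_ok TK_l546 _))
      (CovZ.n1 (-3752, 4544) (by decide +kernel)
       (CovZ.leaf K3_ok TK_l547 _)
       (CovZ.n1 (-3756, 4540) (by decide +kernel)
        (CovZ.n2 (-3756, 4544) (by decide +kernel)
         (CovZ.leaf K3_ok TK_l548 _)
         (CovZ.leaf K3_ok TK_l549 _))
        (CovZ.leaf K3_ok TK_l550 _))))
     (CovZ.n1 (-3768, 4536) (by decide +kernel)
      (CovZ.n2 (-3768, 4544) (by decide +kernel)
       (CovZ.n2 (-3764, 4540) (by decide +kernel)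
        (CovZ.n2 (-3768, 4540) (by decide +kernel)
         (CovZ.n2 (-3766, 4542) (by decide +kernel)
          (CovZ.leaf K3_ok TK_l551 _)
          (CovZ.badM (by decide +kernel)))
         (CovZ.leaf K3_ok TK_l553 _))
        (CovZ.n1 (-3764, 4544) (by decide +kernel)
         (CovZ.leaf K3_ok TK_l554 _)
         (CovZ.n1 (-3766, 4542) (by decide +kernel)
          (CovZ.badM (by decide +kernel))
          (CovZ.leaf K3_ok TK_l557 _))))
       (CovZ.n1 (-3772, 4540) (by decide +kernel)
        (CovZ.badM (by decide +kernel))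
        (CovZ.n1 (-3768, 4540) (by decide +kernel)
         (CovZ.n2 (-3770, 4538) (by decide +kernel)
          (CovZ.leaf K3_ok TK_l569 _)
          (CovZ.leaf K3_ok TK_l570 _))
         (CovZ.badM (by decide +kernel)))))
      (CovZ.n1 (-3760, 4536) (by decide +kernel)
       (CovZ.n2 (-3764, 4532) (by decide +kernel)
        (CovZ.leaf K3_ok TK_l574 _)
        (CovZ.leaf K3_ok TK_l575 _))
       (CovZ.n1 (-3764, 4540) (by decide +kernel)
        (CovZ.n2 (-3760, 4540) (by decide +kernel)
         (CovZ.leaf K3_ok TK_l576 _)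
         (CovZ.leaf K3_ok TK_l577 _))
        (CovZ.leaf K3_ok TK_l578 _)))))))

theorem TK_s2_1 : SqZ TK_M TK_L [0, 7, 4, 3] (-3808) 4480 32 2 1 :=
  SqZ.mk (a := (-3744)) (b := (-3712)) (c := 4512) (d := 4544) (by norm_num) (by norm_num) (by norm_num) (by norm_num)
    (CovZ.topM TK_LL 0 (by decide +kernel) (CovZ.badM (by decide +kernel)))
    (CovZ.topM TK_LL 3 (by decide +kernel) (CovZ.n0 (-3728, 4528) (by decide +kernel)
    (CovZ.n2 (-3744, 4528) (by decide +kernel)
     (CovZ.n2 (-3736, 4536) (by decide +kernel)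
      (CovZ.n2 (-3736, 4528) (by decide +kernel)
       (CovZ.n2 (-3740, 4532) (by decide +kernel)
        (CovZ.n2 (-3736, 4532) (by decide +kernel)
         (CovZ.n2 (-3738, 4530) (by decide +kernel)
          (CovZ.leaf K3_ok TK_l666 _)
          (CovZ.leaf K3_ok TK_l667 _))
         (CovZ.leaf K3_ok TK_l668 _))
        (CovZ.n1 (-3740, 4528) (by decide +kernel)
         (CovZ.leaf K3_ok TK_l669 _)
         (CovZ.n1 (-3738, 4530) (by decide +kernel)
          (CovZ.leaf K3_ok TK_l670 _)
          (CovZ.leaf K3_ok TK_l671 _))))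
       (CovZ.n1 (-3732, 4532) (by decide +kernel)
        (CovZ.n2 (-3732, 4528) (by decide +kernel)
         (CovZ.n2 (-3734, 4530) (by decide +kernel)
          (CovZ.n2 (-3732, 4530) (by decide +kernel)
           (CovZ.badM (by decide +kernel))
           (CovZ.leaf K3_ok TK_l674 _))
          (CovZ.badM (by decide +kernel)))
         (CovZ.n1 (-3730, 4530) (by decide +kernel)
          (CovZ.badM (by decide +kernel))
          (CovZ.n1 (-3732, 4530) (by decide +kernel)
           (CovZ.n2 (-3731, 4531) (by decide +kernel)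
            (CovZ.badM (by decide +kernel))
            (CovZ.leaf K3_ok TK_l683 _))
           (CovZ.badM (by decide +kernel)))))
        (CovZ.n1 (-3736, 4532) (by decide +kernel)
         (CovZ.n2 (-3734, 4534) (by decide +kernel)
          (CovZ.leaf K3_ok TK_l685 _)
          (CovZ.leaf K3_ok TK_l686 _))
         (CovZ.leaf K3_ok TK_l687 _))))
      (CovZ.n1 (-3744, 4536) (by decide +kernel)
       (CovZ.n2 (-3740, 4540) (by decide +kernel)
        (CovZ.leaf K3_ok TK_l688 _)
        (CovZ.leaf K3_ok TK_l689 _))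
       (CovZ.n1 (-3740, 4532) (by decide +kernel)
        (CovZ.n2 (-3744, 4532) (by decide +kernel)
         (CovZ.leaf K3_ok TK_l690 _)
         (CovZ.leaf K3_ok TK_l691 _))
        (CovZ.leaf K3_ok TK_l692 _))))
     (CovZ.n1 (-3736, 4520) (by decide +kernel)
      (CovZ.n2 (-3744, 4520) (by decide +kernel)
       (CovZ.n2 (-3740, 4524) (by decide +kernel)
        (CovZ.badM (by decide +kernel))
        (CovZ.n1 (-3744, 4524) (by decide +kernel)
         (CovZ.n2 (-3742, 4526) (by decide +kernel)
          (CovZ.n2 (-3742, 4524) (by decide +kernel)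
           (CovZ.leaf K3_ok TK_l697 _)
           (CovZ.n1 (-3741, 4525) (by decide +kernel)
            (CovZ.leaf K3_ok TK_l698 _)
            (CovZ.leaf K3_ok TK_l699 _)))
          (CovZ.leaf K3_ok TK_l700 _))
         (CovZ.n1 (-3742, 4522) (by decide +kernel)
          (CovZ.n2 (-3744, 4522) (by decide +kernel)
           (CovZ.n2 (-3743, 4523) (by decide +kernel)
            (CovZ.badM (by decide +kernel))
            (CovZ.leaf K3_ok TK_l702 _))
           (CovZ.badM (by decide +kernel)))
          (CovZ.n1 (-3742, 4524) (by decide +kernel)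
           (CovZ.badM (by decide +kernel))
           (CovZ.n1 (-3743, 4523) (by decide +kernel)
            (CovZ.leaf K3_ok TK_l705 _)
            (CovZ.badM (by decide +kernel)))))))
       (CovZ.badM (by decide +kernel)))
      (CovZ.n1 (-3736, 4528) (by decide +kernel)
       (CovZ.badM (by decide +kernel))
       (CovZ.n1 (-3740, 4524) (by decide +kernel)
        (CovZ.n2 (-3740, 4528) (by decide +kernel)
         (CovZ.n2 (-3738, 4526) (by decide +kernel)
          (CovZ.n2 (-3740, 4526) (by decide +kernel)
           (CovZ.leaf K3_ok TK_l713 _)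
           (CovZ.leaf K3_ok TK_l714 _))
          (CovZ.n1 (-3738, 4528) (by decide +kernel)
           (CovZ.leaf K3_ok TK_l715 _)
           (CovZ.leaf K3_ok TK_l716 _)))
         (CovZ.n1 (-3742, 4526) (by decide +kernel)
          (CovZ.leaf K3_ok TK_l717 _)
          (CovZ.n1 (-3740, 4526) (by decide +kernel)
           (CovZ.n2 (-3741, 4525) (by decide +kernel)
            (CovZ.leaf K3_ok TK_l718 _)
            (CovZ.leaf K3_ok TK_l719 _))
           (CovZ.leaf K3_ok TK_l720 _))))
        (CovZ.badM (by decide +kernel))))))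
    (CovZ.n1 (-3728, 4544) (by decide +kernel)
     (CovZ.n2 (-3720, 4536) (by decide +kernel)
      (CovZ.n2 (-3728, 4536) (by decide +kernel)
       (CovZ.n2 (-3724, 4540) (by decide +kernel)
        (CovZ.n2 (-3724, 4536) (by decide +kernel)
         (CovZ.leaf K3_ok TK_l727 _)
         (CovZ.n1 (-3722, 4538) (by decide +kernel)
          (CovZ.badM (by decide +kernel))
          (CovZ.leaf K3_ok TK_l730 _)))
        (CovZ.n1 (-3728, 4540) (by decide +kernel)
         (CovZ.leaf K3_ok TK_l731 _)
         (CovZ.leaf K3_ok TK_l732 _)))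
       (CovZ.n1 (-3724, 4532) (by decide +kernel)
        (CovZ.n2 (-3728, 4532) (by decide +kernel)
         (CovZ.n2 (-3726, 4534) (by decide +kernel)
          (CovZ.badM (by decide +kernel))
          (CovZ.leaf K3_ok TK_l736 _))
         (CovZ.badM (by decide +kernel)))
        (CovZ.n1 (-3724, 4536) (by decide +kernel)
         (CovZ.badM (by decide +kernel))
         (CovZ.n1 (-3726, 4534) (by decide +kernel)
          (CovZ.leaf K3_ok TK_l750 _)
          (CovZ.badM (by decide +kernel))))))
      (CovZ.n1 (-3720, 4544) (by decide +kernel)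
       (CovZ.n2 (-3716, 4540) (by decide +kernel)
        (CovZ.n2 (-3720, 4540) (by decide +kernel)
         (CovZ.n2 (-3718, 4542) (by decide +kernel)
          (CovZ.leaf K3_ok TK_l754 _)
          (CovZ.leaf K3_ok TK_l755 _))
         (CovZ.badM (by decide +kernel)))
        (CovZ.n1 (-3716, 4544) (by decide +kernel)
         (CovZ.leaf K3_ok TK_l757 _)
         (CovZ.n1 (-3718, 4542) (by decide +kernel)
          (CovZ.leaf K3_ok TK_l758 _)
          (CovZ.n1 (-3716, 4542) (by decide +kernel)
           (CovZ.leaf K3_ok TK_l759 _)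
           (CovZ.leaf K3_ok TK_l760 _)))))
       (CovZ.n1 (-3724, 4540) (by decide +kernel)
        (CovZ.n2 (-3724, 4544) (by decide +kernel)
         (CovZ.leaf K3_ok TK_l761 _)
         (CovZ.leaf K3_ok TK_l762 _))
        (CovZ.n1 (-3720, 4540) (by decide +kernel)
         (CovZ.n2 (-3722, 4538) (by decide +kernel)
          (CovZ.leaf K3_ok TK_l763 _)
          (CovZ.badM (by decide +kernel)))
         (CovZ.leaf K3_ok TK_l766 _)))))
     (CovZ.n1 (-3736, 4536) (by decide +kernel)
      (CovZ.n2 (-3736, 4544) (by decide +kernel)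
       (CovZ.leaf K3_ok TK_l767 _)
       (CovZ.n1 (-3740, 4540) (by decide +kernel)
        (CovZ.leaf K3_ok TK_l768 _)
        (CovZ.leaf K3_ok TK_l769 _)))
      (CovZ.n1 (-3728, 4536) (by decide +kernel)
       (CovZ.n2 (-3732, 4532) (by decide +kernel)
        (CovZ.n2 (-3732, 4536) (by decide +kernel)
         (CovZ.leaf K3_ok TK_l770 _)
         (CovZ.n1 (-3734, 4534) (by decide +kernel)
          (CovZ.leaf K3_ok TK_l771 _)
          (CovZ.leaf K3_ok TK_l772 _)))
        (CovZ.n1 (-3728, 4532) (by decide +kernel)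
         (CovZ.n2 (-3730, 4530) (by decide +kernel)
          (CovZ.n2 (-3730, 4532) (by decide +kernel)
           (CovZ.badM (by decide +kernel))
           (CovZ.leaf K3_ok TK_l774 _))
          (CovZ.badM (by decide +kernel)))
         (CovZ.n1 (-3730, 4534) (by decide +kernel)
          (CovZ.n2 (-3728, 4534) (by decide +kernel)
           (CovZ.leaf K3_ok TK_l777 _)
           (CovZ.leaf K3_ok TK_l778 _))
          (CovZ.leaf K3_ok TK_l779 _))))
       (CovZ.n1 (-3732, 4540) (by decide +kernel)
        (CovZ.n2 (-3728, 4540) (by decide +kernel)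
         (CovZ.n2 (-3730, 4538) (by decide +kernel)
          (CovZ.leaf K3_ok TK_l780 _)
          (CovZ.leaf K3_ok TK_l781 _))
         (CovZ.leaf K3_ok TK_l782 _))
        (CovZ.n1 (-3732, 4536) (by decide +kernel)
         (CovZ.leaf K3_ok TK_l783 _)
         (CovZ.n1 (-3730, 4538) (by decide +kernel)
          (CovZ.leaf K3_ok TK_l784 _)
          (CovZ.leaf K3_ok TK_l785 _)))))))))

theorem TK_s3_1 : SqZ TK_M TK_L [0, 7, 4, 3] (-3808) 4480 32 3 1 :=
  SqZ.mk (a := (-3712)) (b := (-3680)) (c := 4512) (d := 4544) (by norm_num) (by norm_num) (by norm_num) (by norm_num)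
    (CovZ.topM TK_LL 0 (by decide +kernel) (CovZ.badM (by decide +kernel)))
    (CovZ.topM TK_LL 0 (by decide +kernel) (CovZ.badM (by decide +kernel)))

theorem TK_s0_2 : SqZ TK_M TK_L [0, 7, 4, 3] (-3808) 4480 32 0 2 :=
  SqZ.mk (a := (-3808)) (b := (-3776)) (c := 4544) (d := 4576) (by norm_num) (by norm_num) (by norm_num) (by norm_num)
    (CovZ.topM TK_LL 0 (by decide +kernel) (CovZ.badM (by decide +kernel)))
    (CovZ.topM TK_LL 0 (by decide +kernel) (CovZ.badM (by decide +kernel)))

theorem TK_s1_2 : SqZ TK_M TK_L [0, 7, 4, 3] (-3808) 4480 32 1 2 :=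
  SqZ.mk (a := (-3776)) (b := (-3744)) (c := 4544) (d := 4576) (by norm_num) (by norm_num) (by norm_num) (by norm_num)
    (CovZ.topM TK_LL 3 (by decide +kernel) (CovZ.n2 (-3760, 4560) (by decide +kernel)
    (CovZ.n2 (-3744, 4560) (by decide +kernel)
     (CovZ.n2 (-3752, 4552) (by decide +kernel)
      (CovZ.badM (by decide +kernel))
      (CovZ.n1 (-3744, 4552) (by decide +kernel)
       (CovZ.n2 (-3748, 4548) (by decide +kernel)
        (CovZ.badM (by decide +kernel))
        (CovZ.n1 (-3744, 4548) (by decide +kernel)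
         (CovZ.leaf K3_ok TK_l587 _)
         (CovZ.leaf K3_ok TK_l588 _)))
       (CovZ.badM (by decide +kernel))))
     (CovZ.badM (by decide +kernel)))
    (CovZ.n1 (-3760, 4544) (by decide +kernel)
     (CovZ.badM (by decide +kernel))
     (CovZ.n1 (-3752, 4552) (by decide +kernel)
      (CovZ.n2 (-3752, 4544) (by decide +kernel)
       (CovZ.n2 (-3756, 4548) (by decide +kernel)
        (CovZ.n2 (-3752, 4548) (by decide +kernel)
         (CovZ.n2 (-3754, 4546) (by decide +kernel)
          (CovZ.badM (by decide +kernel))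
          (CovZ.leaf K3_ok TK_l624 _))
         (CovZ.badM (by decide +kernel)))
        (CovZ.n1 (-3756, 4544) (by decide +kernel)
         (CovZ.leaf K3_ok TK_l627 _)
         (CovZ.n1 (-3754, 4546) (by decide +kernel)
          (CovZ.leaf K3_ok TK_l628 _)
          (CovZ.leaf K3_ok TK_l629 _))))
       (CovZ.n1 (-3748, 4548) (by decide +kernel)
        (CovZ.leaf K3_ok TK_l630 _)
        (CovZ.n1 (-3752, 4548) (by decide +kernel)
         (CovZ.badM (by decide +kernel))
         (CovZ.leaf K3_ok TK_l635 _))))
      (CovZ.badM (by decide +kernel))))))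
    (CovZ.topM TK_LL 0 (by decide +kernel) (CovZ.badM (by decide +kernel)))

theorem TK_s2_2 : SqZ TK_M TK_L [0, 7, 4, 3] (-3808) 4480 32 2 2 :=
  SqZ.mk (a := (-3744)) (b := (-3712)) (c := 4544) (d := 4576) (by norm_num) (by norm_num) (by norm_num) (by norm_num)
    (CovZ.topM TK_LL 3 (by decide +kernel) (CovZ.n2 (-3728, 4560) (by decide +kernel)
    (CovZ.n2 (-3712, 4560) (by decide +kernel)
     (CovZ.n2 (-3720, 4552) (by decide +kernel)
      (CovZ.n2 (-3720, 4560) (by decide +kernel)
       (CovZ.leaf K3_ok TK_l786 _)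
       (CovZ.n1 (-3724, 4556) (by decide +kernel)
        (CovZ.n2 (-3724, 4560) (by decide +kernel)
         (CovZ.leaf K3_ok TK_l787 _)
         (CovZ.leaf K3_ok TK_l788 _))
        (CovZ.leaf K3_ok TK_l789 _)))
      (CovZ.n1 (-3712, 4552) (by decide +kernel)
       (CovZ.n2 (-3716, 4548) (by decide +kernel)
        (CovZ.leaf K3_ok TK_l790 _)
        (CovZ.n1 (-3712, 4548) (by decide +kernel)
         (CovZ.n2 (-3714, 4546) (by decide +kernel)
          (CovZ.leaf K3_ok TK_l791 _)
          (CovZ.leaf K3_ok TK_l792 _))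
         (CovZ.leaf K3_ok TK_l793 _)))
       (CovZ.leaf K3_ok TK_l794 _)))
     (CovZ.n1 (-3720, 4568) (by decide +kernel)
      (CovZ.n2 (-3712, 4568) (by decide +kernel)
       (CovZ.n2 (-3716, 4564) (by decide +kernel)
        (CovZ.badM (by decide +kernel))
        (CovZ.n1 (-3712, 4564) (by decide +kernel)
         (CovZ.leaf K3_ok TK_l798 _)
         (CovZ.badM (by decide +kernel))))
       (CovZ.badM (by decide +kernel)))
      (CovZ.n1 (-3720, 4560) (by decide +kernel)
       (CovZ.badM (by decide +kernel))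
       (CovZ.n1 (-3716, 4564) (by decide +kernel)
        (CovZ.leaf K3_ok TK_l826 _)
        (CovZ.badM (by decide +kernel))))))
    (CovZ.n1 (-3728, 4544) (by decide +kernel)
     (CovZ.n2 (-3736, 4552) (by decide +kernel)
      (CovZ.n2 (-3728, 4552) (by decide +kernel)
       (CovZ.n2 (-3732, 4548) (by decide +kernel)
        (CovZ.leaf K3_ok TK_l831 _)
        (CovZ.leaf K3_ok TK_l832 _))
       (CovZ.n1 (-3732, 4556) (by decide +kernel)
        (CovZ.n2 (-3728, 4556) (by decide +kernel)
         (CovZ.leaf K3_ok TK_l833 _)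
         (CovZ.badM (by decide +kernel)))
        (CovZ.leaf K3_ok TK_l835 _)))
      (CovZ.n1 (-3736, 4544) (by decide +kernel)
       (CovZ.leaf K3_ok TK_l836 _)
       (CovZ.n1 (-3732, 4548) (by decide +kernel)
        (CovZ.leaf K3_ok TK_l837 _)
        (CovZ.leaf K3_ok TK_l838 _))))
     (CovZ.n1 (-3720, 4552) (by decide +kernel)
      (CovZ.n2 (-3720, 4544) (by decide +kernel)
       (CovZ.n2 (-3724, 4548) (by decide +kernel)
        (CovZ.n2 (-3720, 4548) (by decide +kernel)
         (CovZ.leaf K3_ok TK_l839 _)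
         (CovZ.leaf K3_ok TK_l840 _))
        (CovZ.leaf K3_ok TK_l841 _))
       (CovZ.n1 (-3716, 4548) (by decide +kernel)
        (CovZ.n2 (-3716, 4544) (by decide +kernel)
         (CovZ.leaf K3_ok TK_l842 _)
         (CovZ.n1 (-3714, 4546) (by decide +kernel)
          (CovZ.leaf K3_ok TK_l843 _)
          (CovZ.leaf K3_ok TK_l844 _)))
        (CovZ.leaf K3_ok TK_l845 _)))
      (CovZ.n1 (-3728, 4552) (by decide +kernel)
       (CovZ.n2 (-3724, 4556) (by decide +kernel)
        (CovZ.leaf K3_ok TK_l846 _)
        (CovZ.leaf K3_ok TK_l847 _))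
       (CovZ.leaf K3_ok TK_l848 _))))))
    (CovZ.topM TK_LL 3 (by decide +kernel) (CovZ.n0 (-3728, 4560) (by decide +kernel)
    (CovZ.n2 (-3744, 4560) (by decide +kernel)
     (CovZ.badM (by decide +kernel))
     (CovZ.n1 (-3736, 4552) (by decide +kernel)
      (CovZ.n2 (-3744, 4552) (by decide +kernel)
       (CovZ.n2 (-3740, 4556) (by decide +kernel)
        (CovZ.n2 (-3740, 4552) (by decide +kernel)
         (CovZ.badM (by decide +kernel))
         (CovZ.n1 (-3738, 4554) (by decide +kernel)
          (CovZ.leaf K3_ok TK_l869 _)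
          (CovZ.badM (by decide +kernel))))
        (CovZ.badM (by decide +kernel)))
       (CovZ.n1 (-3740, 4548) (by decide +kernel)
        (CovZ.n2 (-3744, 4548) (by decide +kernel)
         (CovZ.leaf K3_ok TK_l877 _)
         (CovZ.leaf K3_ok TK_l878 _))
        (CovZ.n1 (-3740, 4552) (by decide +kernel)
         (CovZ.leaf K3_ok TK_l879 _)
         (CovZ.leaf K3_ok TK_l880 _))))
      (CovZ.n1 (-3736, 4560) (by decide +kernel)
       (CovZ.n2 (-3732, 4556) (by decide +kernel)
        (CovZ.n2 (-3736, 4556) (by decide +kernel)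
         (CovZ.badM (by decide +kernel))
         (CovZ.leaf K3_ok TK_l884 _))
        (CovZ.badM (by decide +kernel)))
       (CovZ.n1 (-3740, 4556) (by decide +kernel)
        (CovZ.badM (by decide +kernel))
        (CovZ.n1 (-3736, 4556) (by decide +kernel)
         (CovZ.n2 (-3738, 4554) (by decide +kernel)
          (CovZ.badM (by decide +kernel))
          (CovZ.leaf K3_ok TK_l899 _))
         (CovZ.badM (by decide +kernel)))))))
    (CovZ.badM (by decide +kernel))))

theorem TK_s3_2 : SqZ TK_M TK_L [0, 7, 4, 3] (-3808) 4480 32 3 2 :=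
  SqZ.mk (a := (-3712)) (b := (-3680)) (c := 4544) (d := 4576) (by norm_num) (by norm_num) (by norm_num) (by norm_num)
    (CovZ.topM TK_LL 2 (by decide +kernel) (CovZ.n2 (-3696, 4560) (by decide +kernel)
    (CovZ.n2 (-3680, 4560) (by decide +kernel)
     (CovZ.n2 (-3688, 4552) (by decide +kernel)
      (CovZ.n2 (-3688, 4560) (by decide +kernel)
       (CovZ.badM (by decide +kernel))
       (CovZ.n1 (-3692, 4556) (by decide +kernel)
        (CovZ.n2 (-3692, 4560) (by decide +kernel)
         (CovZ.badM (by decide +kernel))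
         (CovZ.n1 (-3694, 4558) (by decide +kernel)
          (CovZ.leaf K3_ok TK_l950 _)
          (CovZ.badM (by decide +kernel))))
        (CovZ.badM (by decide +kernel))))
      (CovZ.badM (by decide +kernel)))
     (CovZ.n1 (-3688, 4568) (by decide +kernel)
      (CovZ.n2 (-3680, 4568) (by decide +kernel)
       (CovZ.n2 (-3684, 4564) (by decide +kernel)
        (CovZ.leaf K3_ok TK_l957 _)
        (CovZ.badM (by decide +kernel)))
       (CovZ.leaf K3_ok TK_l962 _))
      (CovZ.n1 (-3688, 4560) (by decide +kernel)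
       (CovZ.n2 (-3692, 4564) (by decide +kernel)
        (CovZ.n2 (-3688, 4564) (by decide +kernel)
         (CovZ.leaf K3_ok TK_l963 _)
         (CovZ.leaf K3_ok TK_l964 _))
        (CovZ.n1 (-3692, 4560) (by decide +kernel)
         (CovZ.leaf K3_ok TK_l965 _)
         (CovZ.leaf K3_ok TK_l966 _)))
       (CovZ.n1 (-3684, 4564) (by decide +kernel)
        (CovZ.badM (by decide +kernel))
        (CovZ.leaf K3_ok TK_l974 _)))))
    (CovZ.n1 (-3696, 4544) (by decide +kernel)
     (CovZ.n2 (-3704, 4552) (by decide +kernel)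
      (CovZ.n2 (-3696, 4552) (by decide +kernel)
       (CovZ.n2 (-3700, 4548) (by decide +kernel)
        (CovZ.n2 (-3700, 4552) (by decide +kernel)
         (CovZ.badM (by decide +kernel))
         (CovZ.n1 (-3702, 4550) (by decide +kernel)
          (CovZ.leaf K3_ok TK_l980 _)
          (CovZ.badM (by decide +kernel))))
        (CovZ.badM (by decide +kernel)))
       (CovZ.n1 (-3700, 4556) (by decide +kernel)
        (CovZ.n2 (-3696, 4556) (by decide +kernel)
         (CovZ.n2 (-3698, 4554) (by decide +kernel)
          (CovZ.leaf K3_ok TK_l983 _)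
          (CovZ.badM (by decide +kernel)))
         (CovZ.leaf K3_ok TK_l986 _))
        (CovZ.n1 (-3700, 4552) (by decide +kernel)
         (CovZ.leaf K3_ok TK_l987 _)
         (CovZ.n1 (-3698, 4554) (by decide +kernel)
          (CovZ.badM (by decide +kernel))
          (CovZ.leaf K3_ok TK_l989 _)))))
      (CovZ.n1 (-3704, 4544) (by decide +kernel)
       (CovZ.n2 (-3708, 4548) (by decide +kernel)
        (CovZ.n2 (-3704, 4548) (by decide +kernel)
         (CovZ.badM (by decide +kernel))
         (CovZ.leaf K3_ok TK_l993 _))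
        (CovZ.badM (by decide +kernel)))
       (CovZ.n1 (-3700, 4548) (by decide +kernel)
        (CovZ.badM (by decide +kernel))
        (CovZ.n1 (-3704, 4548) (by decide +kernel)
         (CovZ.n2 (-3702, 4550) (by decide +kernel)
          (CovZ.badM (by decide +kernel))
          (CovZ.leaf K3_ok TK_l1002 _))
         (CovZ.badM (by decide +kernel))))))
     (CovZ.n1 (-3688, 4552) (by decide +kernel)
      (CovZ.badM (by decide +kernel))
      (CovZ.n1 (-3696, 4552) (by decide +kernel)
       (CovZ.n2 (-3692, 4556) (by decide +kernel)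
        (CovZ.badM (by decide +kernel))
        (CovZ.n1 (-3696, 4556) (by decide +kernel)
         (CovZ.n2 (-3694, 4558) (by decide +kernel)
          (CovZ.badM (by decide +kernel))
          (CovZ.leaf K3_ok TK_l1011 _))
         (CovZ.badM (by decide +kernel))))
       (CovZ.badM (by decide +kernel)))))))
    (CovZ.topM TK_LL 3 (by decide +kernel) (CovZ.n0 (-3696, 4560) (by decide +kernel)
    (CovZ.n2 (-3712, 4560) (by decide +kernel)
     (CovZ.n2 (-3704, 4568) (by decide +kernel)
      (CovZ.n2 (-3704, 4560) (by decide +kernel)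
       (CovZ.leaf K3_ok TK_l1014 _)
       (CovZ.n1 (-3700, 4564) (by decide +kernel)
        (CovZ.leaf K3_ok TK_l1015 _)
        (CovZ.leaf K3_ok TK_l1016 _)))
      (CovZ.n1 (-3712, 4568) (by decide +kernel)
       (CovZ.badM (by decide +kernel))
       (CovZ.n1 (-3708, 4564) (by decide +kernel)
        (CovZ.n2 (-3712, 4564) (by decide +kernel)
         (CovZ.leaf K3_ok TK_l1025 _)
         (CovZ.leaf K3_ok TK_l1026 _))
        (CovZ.n1 (-3708, 4568) (by decide +kernel)
         (CovZ.leaf K3_ok TK_l1027 _)
         (CovZ.leaf K3_ok TK_l1028 _)))))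
     (CovZ.n1 (-3704, 4552) (by decide +kernel)
      (CovZ.n2 (-3712, 4552) (by decide +kernel)
       (CovZ.n2 (-3708, 4556) (by decide +kernel)
        (CovZ.n2 (-3708, 4552) (by decide +kernel)
         (CovZ.leaf K3_ok TK_l1029 _)
         (CovZ.leaf K3_ok TK_l1030 _))
        (CovZ.leaf K3_ok TK_l1031 _))
       (CovZ.n1 (-3708, 4548) (by decide +kernel)
        (CovZ.n2 (-3712, 4548) (by decide +kernel)
         (CovZ.n2 (-3710, 4550) (by decide +kernel)
          (CovZ.leaf K3_ok TK_l1032 _)
          (CovZ.leaf K3_ok TK_l1033 _))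
         (CovZ.leaf K3_ok TK_l1034 _))
        (CovZ.n1 (-3708, 4552) (by decide +kernel)
         (CovZ.leaf K3_ok TK_l1035 _)
         (CovZ.n1 (-3710, 4550) (by decide +kernel)
          (CovZ.leaf K3_ok TK_l1036 _)
          (CovZ.leaf K3_ok TK_l1037 _)))))
      (CovZ.n1 (-3704, 4560) (by decide +kernel)
       (CovZ.n2 (-3700, 4556) (by decide +kernel)
        (CovZ.n2 (-3704, 4556) (by decide +kernel)
         (CovZ.leaf K3_ok TK_l1038 _)
         (CovZ.leaf K3_ok TK_l1039 _))
        (CovZ.leaf K3_ok TK_l1040 _))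
       (CovZ.n1 (-3708, 4556) (by decide +kernel)
        (CovZ.leaf K3_ok TK_l1041 _)
        (CovZ.n1 (-3704, 4556) (by decide +kernel)
         (CovZ.leaf K3_ok TK_l1042 _)
         (CovZ.leaf K3_ok TK_l1043 _))))))
    (CovZ.n1 (-3696, 4576) (by decide +kernel)
     (CovZ.n2 (-3688, 4568) (by decide +kernel)
      (CovZ.n2 (-3696, 4568) (by decide +kernel)
       (CovZ.n2 (-3692, 4572) (by decide +kernel)
        (CovZ.leaf K3_ok TK_l1044 _)
        (CovZ.leaf K3_ok TK_l1045 _))
       (CovZ.leaf K3_ok TK_l1046 _))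
      (CovZ.n1 (-3688, 4576) (by decide +kernel)
       (CovZ.leaf K3_ok TK_l1047 _)
       (CovZ.n1 (-3692, 4572) (by decide +kernel)
        (CovZ.badM (by decide +kernel))
        (CovZ.leaf K3_ok TK_l1050 _))))
     (CovZ.n1 (-3704, 4568) (by decide +kernel)
      (CovZ.badM (by decide +kernel))
      (CovZ.n1 (-3696, 4568) (by decide +kernel)
       (CovZ.n2 (-3700, 4564) (by decide +kernel)
        (CovZ.leaf K3_ok TK_l1071 _)
        (CovZ.leaf K3_ok TK_l1072 _))
       (CovZ.n1 (-3700, 4572) (by decide +kernel)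
        (CovZ.n2 (-3696, 4572) (by decide +kernel)
         (CovZ.leaf K3_ok TK_l1073 _)
         (CovZ.badM (by decide +kernel)))
        (CovZ.leaf K3_ok TK_l1075 _)))))))

end Pool.Agent.TET
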