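import Pool.Agent.Helper38_TET.TK_C

/-!
# MP_c7c9bf_co: certificates, family TK
-/

set_option autoImplicit false
set_option maxRecDepth 100000

namespace Pool.Agent.TET

theorem TK_rg0 : ROK [.q ⟨-47, -56, 71, 32⟩ ⟨-6029, 14266, 15539, -23776⟩, .q ⟨-47, -56, 71, 32⟩ ⟨27422, -4258, 4, -23168⟩, .q ⟨-47, -56, 71, 32⟩ ⟨3131, -17002, -18545, 32416⟩, .q ⟨-47, -56, 71, 32⟩ ⟨-11341, 5264, 4189, 1888⟩] := by
  refine rok_w (v := ⟨-47, -56, 71, 32⟩) (q := 18) (by decide) (by decide) (by decide) TK_sc (k := 1) (by decide) (Q := [(-1519, 3794, -743), (-2489, 2856, -724), (2207, -5026, 1013), (476, 0, 59)])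
    (P := [⟨-22824960, -1519, 3794⟩, ⟨-22241280, -2489, 2856⟩, ⟨31119360, 2207, -5026⟩, ⟨1812480, 476, 0⟩]) rfl rfl
    (List.mem_of_getElem? (i := 0) rfl) TK_fr TK_cov ?_
  · intro X Y h
    simp only [List.forall_mem_cons, List.not_mem_nil, false_imp_iff, implies_true, and_true] at h
    push_cast at h ⊢
    obtain ⟨h0, h1, h2, h3⟩ := h
    refine ⟨⟨?_, ?_⟩, ?_, ?_⟩ <;> linarith

theorem TK_rg1 : ROK [.q ⟨-47, -56, 71, 32⟩ ⟨16690, 238, 3296, -20224⟩, .q ⟨-47, -56, 71, 32⟩ ⟨32640, -16266, -12534, -3840⟩, .q ⟨-47, -56, 71, 32⟩ ⟨3676, -10688, -11356, 18368⟩, .q ⟨-47, -56, 71, 32⟩ ⟨-23610, 10824, 8562, 4224⟩, .q ⟨-47, -56, 71, 32⟩ ⟨-6029, 14266, 15539, -23776⟩, .q ⟨-47, -56, 71, 32⟩ ⟨-31183, 9884, 6355, 14944⟩] := by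
  refine rok_w (v := ⟨-47, -56, 71, 32⟩) (q := 18) (by decide) (by decide) (by decide) TK_sc (k := 1) (by decide) (Q := [(-1953, 2676, -632), (-1277, -223, -120), (1192, -2895, 574), (1012, -45, 132), (-1519, 3794, -743), (2002, -1489, 467)])
    (P := [⟨-19415040, -1953, 2676⟩, ⟨-3686400, -1277, -223⟩, ⟨17633280, 1192, -2895⟩, ⟨4055040, 1012, -45⟩, ⟨-22824960, -1519, 3794⟩, ⟨14346240, 2002, -1489⟩]) rfl rfl
    (List.mem_of_getElem? (i := 1) rfl) TK_fr TK_cov ?_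
  · intro X Y h
    simp only [List.forall_mem_cons, List.not_mem_nil, false_imp_iff, implies_true, and_true] at h
    push_cast at h ⊢
    obtain ⟨h0, h1, h2, h3, h4, h5⟩ := h
    refine ⟨⟨?_, ?_⟩, ?_, ?_⟩ <;> linarith

theorem TK_rg2 : ROK [.q ⟨-47, -56, 71, 32⟩ ⟨20781, -9306, -7155, -4320⟩, .q ⟨-47, -56, 71, 32⟩ ⟨28284, -21378, -19770, 12864⟩, .q ⟨-47, -56, 71, 32⟩ ⟨-26801, 14896, 12641, -736⟩, .q ⟨-47, -56, 71, 32⟩ ⟨-16524, 23346, 24282, -31104⟩] := by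
  refine rok_w (v := ⟨-47, -56, 71, 32⟩) (q := 18) (by decide) (by decide) (by decide) TK_sc (k := 1) (by decide) (Q := [(-937, 135, -135), (63, -2684, 402), (756, 793, -23), (-1727, 5183, -972)])
    (P := [⟨-4147200, -937, 135⟩, ⟨12349440, 63, -2684⟩, ⟨-706560, 756, 793⟩, ⟨-29859840, -1727, 5183⟩]) rfl rfl
    (List.mem_of_getElem? (i := 2) rfl) TK_fr TK_cov ?_
  · intro X Y h
    simp only [List.forall_mem_cons, List.not_mem_nil, false_imp_iff, implies_true, and_true] at h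
    push_cast at h ⊢
    obtain ⟨h0, h1, h2, h3⟩ := h
    refine ⟨⟨?_, ?_⟩, ?_, ?_⟩ <;> linarith

end Pool.Agent.TET
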