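import Pool.Agent.Helper38_TET.CovN

/-!
# MP_c7c9bf_co: certificates, family TL
-/

set_option autoImplicit false
set_option maxRecDepth 100000

namespace Pool.Agent.TET

/-- the polygons -/
def TL_L : List (List Z3) :=
  [[⟨-3133440, 3406, -2548⟩, ⟨19537920, 2040, 3355⟩, ⟨6789120, -3292, 3291⟩, ⟨-22917120, 829, -5693⟩, ⟨-19476480, -3259, -2743⟩]]

/-- the polygons in natural numbers -/
def TL_LN : List (List N6) :=
  [[⟨3406, 0, 0, 2548, 0, 115593216⟩, ⟨2040, 0, 3355, 0, 0, 687595520⟩, ⟨0, 3292, 3291, 0, 6920192, 0⟩, ⟨829, 0, 0, 5693, 614617088, 0⟩, ⟨0, 3259, 0, 2743, 767217664, 0⟩]]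

theorem TL_LL : toL TL_LN = TL_L := eqLL_eq (by decide +kernel)

end Pool.Agent.TET
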