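import Pool.Agent.Helper38_TET.TL_M
import Pool.Agent.Helper38_TET.TL_L
import Pool.Agent.Helper38_TET.TL_9
import Pool.Agent.Helper38_TET.TL_10
import Pool.Agent.Helper38_TET.TL_11

/-!
# MP_c7c9bf_co: certificates, family TL
-/

set_option autoImplicit false
set_option maxRecDepth 100000

namespace Pool.Agent.TET

theorem TL_u0 : CovZ TL_M (toL (selN TL_LN 1)) [0, 7, 4, 3] (-2336, -4352) (-2352, -4368) (-2336, -4384) :=
    (CovZ.n2 (-2336, -4368) (by decide +kernel)
     (CovZ.n2 (-2344, -4376) (by decide +kernel)
      (CovZ.n2 (-2344, -4368) (by decide +kernel)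
       (CovZ.n2 (-2340, -4372) (by decide +kernel)
        (CovZ.n2 (-2344, -4372) (by decide +kernel)
         (CovZ.n2 (-2342, -4370) (by decide +kernel)
          (CovZ.leaf K2_ok TL_l1476 _)
          (CovZ.n1 (-2344, -4370) (by decide +kernel)
           (CovZ.leaf K2_ok TL_l1477 _)
           (CovZ.leaf K2_ok TL_l1478 _)))
         (CovZ.n1 (-2342, -4374) (by decide +kernel)
          (CovZ.leaf K2_ok TL_l1479 _)
          (CovZ.leaf K2_ok TL_l1480 _)))
        (CovZ.n1 (-2340, -4368) (by decide +kernel)
         (CovZ.n2 (-2338, -4370) (by decide +kernel)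
          (CovZ.leaf K2_ok TL_l1481 _)
          (CovZ.leaf K2_ok TL_l1482 _))
         (CovZ.n1 (-2342, -4370) (by decide +kernel)
          (CovZ.n2 (-2342, -4368) (by decide +kernel)
           (CovZ.leaf K2_ok TL_l1483 _)
           (CovZ.n1 (-2343, -4369) (by decide +kernel)
            (CovZ.leaf K2_ok TL_l1484 _)
            (CovZ.leaf K2_ok TL_l1485 _)))
          (CovZ.n1 (-2340, -4370) (by decide +kernel)
           (CovZ.leaf K2_ok TL_l1486 _)
           (CovZ.leaf K2_ok TL_l1487 _)))))
       (CovZ.n1 (-2348, -4372) (by decide +kernel)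
        (CovZ.n2 (-2348, -4368) (by decide +kernel)
         (CovZ.n2 (-2346, -4370) (by decide +kernel)
          (CovZ.n2 (-2348, -4370) (by decide +kernel)
           (CovZ.n2 (-2347, -4369) (by decide +kernel)
            (CovZ.leaf K2_ok TL_l1488 _)
            (CovZ.n1 (-2348, -4369) (by decide +kernel)
             (CovZ.leaf K2_ok TL_l1489 _)
             (CovZ.leaf K2_ok TL_l1490 _)))
           (CovZ.leaf K2_ok TL_l1491 _))
          (CovZ.n1 (-2346, -4368) (by decide +kernel)
           (CovZ.n2 (-2345, -4369) (by decide +kernel)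
            (CovZ.n2 (-2346, -4369) (by decide +kernel)
             (CovZ.leaf K2_ok TL_l1492 _)
             (CovZ.leaf K2_ok TL_l1493 _))
            (CovZ.leaf K2_ok TL_l1494 _))
           (CovZ.n1 (-2347, -4369) (by decide +kernel)
            (CovZ.leaf K2_ok TL_l1495 _)
            (CovZ.n1 (-2346, -4369) (by decide +kernel)
             (CovZ.leaf K2_ok TL_l1496 _)
             (CovZ.leaf K2_ok TL_l1497 _)))))
         (CovZ.n1 (-2350, -4370) (by decide +kernel)
          (CovZ.badM (by decide +kernel))
          (CovZ.n1 (-2348, -4370) (by decide +kernel)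
           (CovZ.n2 (-2349, -4371) (by decide +kernel)
            (CovZ.leaf K2_ok TL_l1499 _)
            (CovZ.n1 (-2348, -4371) (by decide +kernel)
             (CovZ.leaf K2_ok TL_l1500 _)
             (CovZ.leaf K2_ok TL_l1501 _)))
           (CovZ.n1 (-2349, -4369) (by decide +kernel)
            (CovZ.n2 (-2348, -4369) (by decide +kernel)
             (CovZ.leaf K2_ok TL_l1502 _)
             (CovZ.leaf K2_ok TL_l1503 _))
            (CovZ.n1 (-2349, -4370) (by decide +kernel)
             (CovZ.leaf K2_ok TL_l1504 _)
             (CovZ.leaf K2_ok TL_l1505 _))))))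
        (CovZ.n1 (-2344, -4372) (by decide +kernel)
         (CovZ.n2 (-2346, -4374) (by decide +kernel)
          (CovZ.leaf K2_ok TL_l1506 _)
          (CovZ.n1 (-2344, -4374) (by decide +kernel)
           (CovZ.leaf K2_ok TL_l1507 _)
           (CovZ.leaf K2_ok TL_l1508 _)))
         (CovZ.n1 (-2346, -4370) (by decide +kernel)
          (CovZ.n2 (-2344, -4370) (by decide +kernel)
           (CovZ.n2 (-2345, -4371) (by decide +kernel)
            (CovZ.leaf K2_ok TL_l1509 _)
            (CovZ.leaf K2_ok TL_l1510 _))
           (CovZ.leaf K2_ok TL_l1511 _))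
          (CovZ.leaf K2_ok TL_l1512 _)))))
      (CovZ.n1 (-2336, -4376) (by decide +kernel)
       (CovZ.n2 (-2340, -4380) (by decide +kernel)
        (CovZ.n2 (-2340, -4376) (by decide +kernel)
         (CovZ.leaf K2_ok TL_l1513 _)
         (CovZ.leaf K2_ok TL_l1514 _))
        (CovZ.leaf K2_ok TL_l1515 _))
       (CovZ.n1 (-2340, -4372) (by decide +kernel)
        (CovZ.n2 (-2336, -4372) (by decide +kernel)
         (CovZ.leaf K2_ok TL_l1516 _)
         (CovZ.n1 (-2338, -4370) (by decide +kernel)
          (CovZ.leaf K2_ok TL_l1517 _)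
          (CovZ.leaf K2_ok TL_l1518 _)))
        (CovZ.n1 (-2340, -4376) (by decide +kernel)
         (CovZ.leaf K2_ok TL_l1519 _)
         (CovZ.leaf K2_ok TL_l1520 _)))))
     (CovZ.n1 (-2344, -4360) (by decide +kernel)
      (CovZ.n2 (-2336, -4360) (by decide +kernel)
       (CovZ.n2 (-2340, -4364) (by decide +kernel)
        (CovZ.badM (by decide +kernel))
        (CovZ.n1 (-2336, -4364) (by decide +kernel)
         (CovZ.n2 (-2338, -4366) (by decide +kernel)
          (CovZ.n2 (-2338, -4364) (by decide +kernel)
           (CovZ.leaf K2_ok TL_l1521 _)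
           (CovZ.n1 (-2339, -4365) (by decide +kernel)
            (CovZ.badM (by decide +kernel))
            (CovZ.leaf K2_ok TL_l1523 _)))
          (CovZ.n1 (-2336, -4366) (by decide +kernel)
           (CovZ.leaf K2_ok TL_l1524 _)
           (CovZ.leaf K2_ok TL_l1525 _)))
         (CovZ.badM (by decide +kernel))))
       (CovZ.badM (by decide +kernel)))
      (CovZ.n1 (-2344, -4368) (by decide +kernel)
       (CovZ.n2 (-2348, -4364) (by decide +kernel)
        (CovZ.n2 (-2344, -4364) (by decide +kernel)
         (CovZ.n2 (-2346, -4366) (by decide +kernel)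
          (CovZ.badM (by decide +kernel))
          (CovZ.n1 (-2344, -4366) (by decide +kernel)
           (CovZ.n2 (-2345, -4367) (by decide +kernel)
            (CovZ.n2 (-2345, -4366) (by decide +kernel)
             (CovZ.leaf K2_ok TL_l1532 _)
             (CovZ.leaf K2_ok TL_l1533 _))
            (CovZ.leaf K2_ok TL_l1534 _))
           (CovZ.badM (by decide +kernel))))
         (CovZ.badM (by decide +kernel)))
        (CovZ.n1 (-2348, -4368) (by decide +kernel)
         (CovZ.badM (by decide +kernel))
         (CovZ.n1 (-2346, -4366) (by decide +kernel)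
          (CovZ.n2 (-2346, -4368) (by decide +kernel)
           (CovZ.n2 (-2347, -4367) (by decide +kernel)
            (CovZ.n2 (-2346, -4367) (by decide +kernel)
             (CovZ.leaf K2_ok TL_l1535 _)
             (CovZ.badM (by decide +kernel)))
            (CovZ.leaf K2_ok TL_l1536 _))
           (CovZ.n1 (-2345, -4367) (by decide +kernel)
            (CovZ.leaf K2_ok TL_l1537 _)
            (CovZ.n1 (-2346, -4367) (by decide +kernel)
             (CovZ.leaf K2_ok TL_l1538 _)
             (CovZ.leaf K2_ok TL_l1539 _))))
          (CovZ.n1 (-2348, -4366) (by decide +kernel)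
           (CovZ.badM (by decide +kernel))
           (CovZ.n1 (-2347, -4367) (by decide +kernel)
            (CovZ.badM (by decide +kernel))
            (CovZ.badM (by decide +kernel)))))))
       (CovZ.n1 (-2340, -4364) (by decide +kernel)
        (CovZ.n2 (-2340, -4368) (by decide +kernel)
         (CovZ.n2 (-2342, -4366) (by decide +kernel)
          (CovZ.n2 (-2340, -4366) (by decide +kernel)
           (CovZ.n2 (-2341, -4367) (by decide +kernel)
            (CovZ.leaf K2_ok TL_l1540 _)
            (CovZ.leaf K2_ok TL_l1541 _))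
           (CovZ.badM (by decide +kernel)))
          (CovZ.n1 (-2342, -4368) (by decide +kernel)
           (CovZ.n2 (-2343, -4367) (by decide +kernel)
            (CovZ.n2 (-2342, -4367) (by decide +kernel)
             (CovZ.leaf K2_ok TL_l1545 _)
             (CovZ.leaf K2_ok TL_l1546 _))
            (CovZ.leaf K2_ok TL_l1547 _))
           (CovZ.leaf K2_ok TL_l1548 _)))
         (CovZ.n1 (-2338, -4366) (by decide +kernel)
          (CovZ.leaf K2_ok TL_l1549 _)
          (CovZ.n1 (-2340, -4366) (by decide +kernel)
           (CovZ.n2 (-2339, -4365) (by decide +kernel)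
            (CovZ.leaf K2_ok TL_l1550 _)
            (CovZ.badM (by decide +kernel)))
           (CovZ.leaf K2_ok TL_l1553 _))))
        (CovZ.n1 (-2344, -4364) (by decide +kernel)
         (CovZ.badM (by decide +kernel))
         (CovZ.n1 (-2342, -4366) (by decide +kernel)
          (CovZ.n2 (-2344, -4366) (by decide +kernel)
           (CovZ.badM (by decide +kernel))
           (CovZ.n1 (-2343, -4367) (by decide +kernel)
            (CovZ.leaf K2_ok TL_l1556 _)
            (CovZ.leaf K2_ok TL_l1557 _)))
          (CovZ.badM (by decide +kernel))))))))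

theorem TL_u1 : CovZ TL_M (toL (selN TL_LN 1)) [0, 7, 4, 3] (-2352, -4368) (-2368, -4384) (-2336, -4384) :=
    (CovZ.n1 (-2352, -4384) (by decide +kernel)
     (CovZ.n2 (-2360, -4376) (by decide +kernel)
      (CovZ.n2 (-2352, -4376) (by decide +kernel)
       (CovZ.n2 (-2356, -4380) (by decide +kernel)
        (CovZ.n2 (-2356, -4376) (by decide +kernel)
         (CovZ.n2 (-2354, -4378) (by decide +kernel)
          (CovZ.n2 (-2356, -4378) (by decide +kernel)
           (CovZ.n2 (-2355, -4377) (by decide +kernel)
            (CovZ.leaf K2_ok TL_l1562 _)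
            (CovZ.badM (by decide +kernel)))
           (CovZ.n1 (-2355, -4379) (by decide +kernel)
            (CovZ.n2 (-2356, -4379) (by decide +kernel)
             (CovZ.leaf K2_ok TL_l1564 _)
             (CovZ.leaf K2_ok TL_l1565 _))
            (CovZ.leaf K2_ok TL_l1566 _)))
          (CovZ.n1 (-2354, -4376) (by decide +kernel)
           (CovZ.leaf K2_ok TL_l1567 _)
           (CovZ.leaf K2_ok TL_l1568 _)))
         (CovZ.n1 (-2358, -4378) (by decide +kernel)
          (CovZ.badM (by decide +kernel))
          (CovZ.n1 (-2356, -4378) (by decide +kernel)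
           (CovZ.n2 (-2357, -4379) (by decide +kernel)
            (CovZ.badM (by decide +kernel))
            (CovZ.leaf K2_ok TL_l1571 _))
           (CovZ.badM (by decide +kernel)))))
        (CovZ.n1 (-2352, -4380) (by decide +kernel)
         (CovZ.n2 (-2354, -4382) (by decide +kernel)
          (CovZ.n2 (-2354, -4380) (by decide +kernel)
           (CovZ.leaf K2_ok TL_l1575 _)
           (CovZ.leaf K2_ok TL_l1576 _))
          (CovZ.n1 (-2352, -4382) (by decide +kernel)
           (CovZ.leaf K2_ok TL_l1577 _)
           (CovZ.leaf K2_ok TL_l1578 _)))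
         (CovZ.n1 (-2354, -4378) (by decide +kernel)
          (CovZ.leaf K2_ok TL_l1579 _)
          (CovZ.n1 (-2354, -4380) (by decide +kernel)
           (CovZ.n2 (-2355, -4379) (by decide +kernel)
            (CovZ.leaf K2_ok TL_l1580 _)
            (CovZ.leaf K2_ok TL_l1581 _))
           (CovZ.leaf K2_ok TL_l1582 _)))))
       (CovZ.n1 (-2356, -4372) (by decide +kernel)
        (CovZ.n2 (-2352, -4372) (by decide +kernel)
         (CovZ.n2 (-2354, -4374) (by decide +kernel)
          (CovZ.badM (by decide +kernel))
          (CovZ.n1 (-2352, -4374) (by decide +kernel)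
           (CovZ.n2 (-2353, -4375) (by decide +kernel)
            (CovZ.leaf K2_ok TL_l1586 _)
            (CovZ.leaf K2_ok TL_l1587 _))
           (CovZ.n1 (-2353, -4373) (by decide +kernel)
            (CovZ.n2 (-2352, -4373) (by decide +kernel)
             (CovZ.leaf K2_ok TL_l1588 _)
             (CovZ.badM (by decide +kernel)))
            (CovZ.leaf K2_ok TL_l1590 _))))
         (CovZ.badM (by decide +kernel)))
        (CovZ.n1 (-2356, -4376) (by decide +kernel)
         (CovZ.badM (by decide +kernel))
         (CovZ.n1 (-2354, -4374) (by decide +kernel)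
          (CovZ.n2 (-2354, -4376) (by decide +kernel)
           (CovZ.badM (by decide +kernel))
           (CovZ.leaf K2_ok TL_l1594 _))
          (CovZ.badM (by decide +kernel))))))
      (CovZ.n1 (-2360, -4384) (by decide +kernel)
       (CovZ.badM (by decide +kernel))
       (CovZ.n1 (-2356, -4380) (by decide +kernel)
        (CovZ.n2 (-2356, -4384) (by decide +kernel)
         (CovZ.n2 (-2358, -4382) (by decide +kernel)
          (CovZ.n2 (-2356, -4382) (by decide +kernel)
           (CovZ.n2 (-2357, -4383) (by decide +kernel)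
            (CovZ.leaf K2_ok TL_l1595 _)
            (CovZ.leaf K2_ok TL_l1596 _))
           (CovZ.n1 (-2357, -4381) (by decide +kernel)
            (CovZ.leaf K2_ok TL_l1597 _)
            (CovZ.leaf K2_ok TL_l1598 _)))
          (CovZ.n1 (-2358, -4384) (by decide +kernel)
           (CovZ.n2 (-2359, -4383) (by decide +kernel)
            (CovZ.leaf K2_ok TL_l1599 _)
            (CovZ.leaf K2_ok TL_l1600 _))
           (CovZ.n1 (-2357, -4383) (by decide +kernel)
            (CovZ.leaf K2_ok TL_l1601 _)
            (CovZ.n1 (-2358, -4383) (by decide +kernel)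
             (CovZ.leaf K2_ok TL_l1602 _)
             (CovZ.leaf K2_ok TL_l1603 _)))))
         (CovZ.n1 (-2354, -4382) (by decide +kernel)
          (CovZ.n2 (-2354, -4384) (by decide +kernel)
           (CovZ.leaf K2_ok TL_l1604 _)
           (CovZ.leaf K2_ok TL_l1605 _))
          (CovZ.n1 (-2356, -4382) (by decide +kernel)
           (CovZ.leaf K2_ok TL_l1606 _)
           (CovZ.leaf K2_ok TL_l1607 _))))
        (CovZ.n1 (-2360, -4380) (by decide +kernel)
         (CovZ.n2 (-2358, -4378) (by decide +kernel)
          (CovZ.n2 (-2358, -4380) (by decide +kernel)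
           (CovZ.badM (by decide +kernel))
           (CovZ.n1 (-2357, -4379) (by decide +kernel)
            (CovZ.leaf K2_ok TL_l1610 _)
            (CovZ.badM (by decide +kernel))))
          (CovZ.badM (by decide +kernel)))
         (CovZ.n1 (-2358, -4382) (by decide +kernel)
          (CovZ.n2 (-2360, -4382) (by decide +kernel)
           (CovZ.n2 (-2359, -4381) (by decide +kernel)
            (CovZ.leaf K2_ok TL_l1613 _)
            (CovZ.badM (by decide +kernel)))
           (CovZ.n1 (-2359, -4383) (by decide +kernel)
            (CovZ.badM (by decide +kernel))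
            (CovZ.n1 (-2359, -4382) (by decide +kernel)
             (CovZ.leaf K2_ok TL_l1616 _)
             (CovZ.badM (by decide +kernel)))))
          (CovZ.n1 (-2358, -4380) (by decide +kernel)
           (CovZ.n2 (-2357, -4381) (by decide +kernel)
            (CovZ.leaf K2_ok TL_l1618 _)
            (CovZ.leaf K2_ok TL_l1619 _))
           (CovZ.n1 (-2359, -4381) (by decide +kernel)
            (CovZ.badM (by decide +kernel))
            (CovZ.leaf K2_ok TL_l1620 _))))))))
     (CovZ.n1 (-2344, -4376) (by decide +kernel)
      (CovZ.n2 (-2344, -4384) (by decide +kernel)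
       (CovZ.n2 (-2348, -4380) (by decide +kernel)
        (CovZ.n2 (-2344, -4380) (by decide +kernel)
         (CovZ.leaf K2_ok TL_l1621 _)
         (CovZ.leaf K2_ok TL_l1622 _))
        (CovZ.n1 (-2348, -4384) (by decide +kernel)
         (CovZ.n2 (-2350, -4382) (by decide +kernel)
          (CovZ.leaf K2_ok TL_l1623 _)
          (CovZ.leaf K2_ok TL_l1624 _))
         (CovZ.n1 (-2346, -4382) (by decide +kernel)
          (CovZ.leaf K2_ok TL_l1625 _)
          (CovZ.leaf K2_ok TL_l1626 _))))
       (CovZ.n1 (-2340, -4380) (by decide +kernel)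
        (CovZ.leaf K2_ok TL_l1627 _)
        (CovZ.n1 (-2344, -4380) (by decide +kernel)
         (CovZ.leaf K2_ok TL_l1628 _)
         (CovZ.leaf K2_ok TL_l1629 _))))
      (CovZ.n1 (-2352, -4376) (by decide +kernel)
       (CovZ.n2 (-2348, -4372) (by decide +kernel)
        (CovZ.n2 (-2348, -4376) (by decide +kernel)
         (CovZ.n2 (-2350, -4374) (by decide +kernel)
          (CovZ.n2 (-2348, -4374) (by decide +kernel)
           (CovZ.leaf K2_ok TL_l1630 _)
           (CovZ.leaf K2_ok TL_l1631 _))
          (CovZ.leaf K2_ok TL_l1632 _))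
         (CovZ.n1 (-2346, -4374) (by decide +kernel)
          (CovZ.leaf K2_ok TL_l1633 _)
          (CovZ.n1 (-2348, -4374) (by decide +kernel)
           (CovZ.leaf K2_ok TL_l1634 _)
           (CovZ.leaf K2_ok TL_l1635 _))))
        (CovZ.n1 (-2352, -4372) (by decide +kernel)
         (CovZ.n2 (-2350, -4370) (by decide +kernel)
          (CovZ.n2 (-2350, -4372) (by decide +kernel)
           (CovZ.n2 (-2351, -4371) (by decide +kernel)
            (CovZ.n2 (-2350, -4371) (by decide +kernel)
             (CovZ.leaf K2_ok TL_l1636 _)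
             (CovZ.badM (by decide +kernel)))
            (CovZ.leaf K2_ok TL_l1638 _))
           (CovZ.n1 (-2349, -4371) (by decide +kernel)
            (CovZ.leaf K2_ok TL_l1639 _)
            (CovZ.n1 (-2350, -4371) (by decide +kernel)
             (CovZ.leaf K2_ok TL_l1640 _)
             (CovZ.leaf K2_ok TL_l1641 _))))
          (CovZ.badM (by decide +kernel)))
         (CovZ.n1 (-2350, -4374) (by decide +kernel)
          (CovZ.n2 (-2352, -4374) (by decide +kernel)
           (CovZ.n2 (-2351, -4373) (by decide +kernel)
            (CovZ.leaf K2_ok TL_l1643 _)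
            (CovZ.n1 (-2352, -4373) (by decide +kernel)
             (CovZ.leaf K2_ok TL_l1644 _)
             (CovZ.leaf K2_ok TL_l1645 _)))
           (CovZ.n1 (-2351, -4375) (by decide +kernel)
            (CovZ.leaf K2_ok TL_l1646 _)
            (CovZ.leaf K2_ok TL_l1647 _)))
          (CovZ.n1 (-2350, -4372) (by decide +kernel)
           (CovZ.leaf K2_ok TL_l1648 _)
           (CovZ.n1 (-2351, -4373) (by decide +kernel)
            (CovZ.leaf K2_ok TL_l1649 _)
            (CovZ.leaf K2_ok TL_l1650 _))))))
       (CovZ.n1 (-2348, -4380) (by decide +kernel)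
        (CovZ.n2 (-2352, -4380) (by decide +kernel)
         (CovZ.n2 (-2350, -4378) (by decide +kernel)
          (CovZ.leaf K2_ok TL_l1651 _)
          (CovZ.leaf K2_ok TL_l1652 _))
         (CovZ.n1 (-2350, -4382) (by decide +kernel)
          (CovZ.n2 (-2352, -4382) (by decide +kernel)
           (CovZ.leaf K2_ok TL_l1653 _)
           (CovZ.leaf K2_ok TL_l1654 _))
          (CovZ.leaf K2_ok TL_l1655 _)))
        (CovZ.n1 (-2348, -4376) (by decide +kernel)
         (CovZ.n2 (-2346, -4378) (by decide +kernel)
          (CovZ.leaf K2_ok TL_l1656 _)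
          (CovZ.leaf K2_ok TL_l1657 _))
         (CovZ.n1 (-2350, -4378) (by decide +kernel)
          (CovZ.leaf K2_ok TL_l1658 _)
          (CovZ.leaf K2_ok TL_l1659 _)))))))

end Pool.Agent.TET
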