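import Pool.Agent.Helper38_TET.TL_M
import Pool.Agent.Helper38_TET.TL_L
import Pool.Agent.Helper38_TET.TL_7
import Pool.Agent.Helper38_TET.TL_9
import Pool.Agent.Helper38_TET.TL_11
import Pool.Agent.Helper38_TET.TL_12
import Pool.Agent.Helper38_TET.TL_13
import Pool.Agent.Helper38_TET.TL_U0

/-!
# MP_c7c9bf_co: certificates, family TL
-/

set_option autoImplicit false
set_option maxRecDepth 100000

namespace Pool.Agent.TET

theorem TL_s0_0 : SqZ TL_M TL_L [0, 7, 4, 3] (-2368) (-4416) 32 0 0 :=
  SqZ.mk (a := (-2368)) (b := (-2336)) (c := (-4416)) (d := (-4384)) (by norm_num) (by norm_num) (by norm_num) (by norm_num)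
    (CovZ.topM TL_LL 1 (by decide +kernel) (CovZ.n2 (-2352, -4400) (by decide +kernel)
    (CovZ.n2 (-2336, -4400) (by decide +kernel)
     (CovZ.n2 (-2344, -4408) (by decide +kernel)
      (CovZ.n2 (-2344, -4400) (by decide +kernel)
       (CovZ.n2 (-2340, -4404) (by decide +kernel)
        (CovZ.badM (by decide +kernel))
        (CovZ.n1 (-2340, -4400) (by decide +kernel)
         (CovZ.n2 (-2338, -4402) (by decide +kernel)
          (CovZ.n2 (-2340, -4402) (by decide +kernel)
           (CovZ.n2 (-2339, -4401) (by decide +kernel)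
            (CovZ.leaf K2_ok TL_l1148 _)
            (CovZ.leaf K2_ok TL_l1149 _))
           (CovZ.badM (by decide +kernel)))
          (CovZ.n1 (-2338, -4400) (by decide +kernel)
           (CovZ.n2 (-2337, -4401) (by decide +kernel)
            (CovZ.leaf K2_ok TL_l1153 _)
            (CovZ.leaf K2_ok TL_l1154 _))
           (CovZ.n1 (-2339, -4401) (by decide +kernel)
            (CovZ.leaf K2_ok TL_l1155 _)
            (CovZ.leaf K2_ok TL_l1156 _))))
         (CovZ.n1 (-2342, -4402) (by decide +kernel)
          (CovZ.leaf K2_ok TL_l1157 _)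
          (CovZ.n1 (-2340, -4402) (by decide +kernel)
           (CovZ.badM (by decide +kernel))
           (CovZ.leaf K2_ok TL_l1161 _)))))
       (CovZ.badM (by decide +kernel)))
      (CovZ.badM (by decide +kernel)))
     (CovZ.n1 (-2344, -4392) (by decide +kernel)
      (CovZ.n2 (-2336, -4392) (by decide +kernel)
       (CovZ.n2 (-2340, -4396) (by decide +kernel)
        (CovZ.n2 (-2340, -4392) (by decide +kernel)
         (CovZ.leaf K2_ok TL_l1174 _)
         (CovZ.leaf K2_ok TL_l1175 _))
        (CovZ.n1 (-2336, -4396) (by decide +kernel)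
         (CovZ.n2 (-2338, -4398) (by decide +kernel)
          (CovZ.leaf K2_ok TL_l1176 _)
          (CovZ.n1 (-2336, -4398) (by decide +kernel)
           (CovZ.n2 (-2337, -4399) (by decide +kernel)
            (CovZ.leaf K2_ok TL_l1177 _)
            (CovZ.leaf K2_ok TL_l1178 _))
           (CovZ.leaf K2_ok TL_l1179 _)))
         (CovZ.leaf K2_ok TL_l1180 _)))
       (CovZ.n1 (-2340, -4388) (by decide +kernel)
        (CovZ.leaf K2_ok TL_l1181 _)
        (CovZ.leaf K2_ok TL_l1182 _)))
      (CovZ.n1 (-2344, -4400) (by decide +kernel)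
       (CovZ.n2 (-2348, -4396) (by decide +kernel)
        (CovZ.n2 (-2344, -4396) (by decide +kernel)
         (CovZ.n2 (-2346, -4398) (by decide +kernel)
          (CovZ.leaf K2_ok TL_l1183 _)
          (CovZ.leaf K2_ok TL_l1184 _))
         (CovZ.leaf K2_ok TL_l1185 _))
        (CovZ.badM (by decide +kernel)))
       (CovZ.n1 (-2340, -4396) (by decide +kernel)
        (CovZ.n2 (-2340, -4400) (by decide +kernel)
         (CovZ.n2 (-2342, -4398) (by decide +kernel)
          (CovZ.n2 (-2340, -4398) (by decide +kernel)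
           (CovZ.leaf K2_ok TL_l1188 _)
           (CovZ.leaf K2_ok TL_l1189 _))
          (CovZ.leaf K2_ok TL_l1190 _))
         (CovZ.n1 (-2338, -4398) (by decide +kernel)
          (CovZ.n2 (-2338, -4400) (by decide +kernel)
           (CovZ.leaf K2_ok TL_l1191 _)
           (CovZ.leaf K2_ok TL_l1192 _))
          (CovZ.n1 (-2340, -4398) (by decide +kernel)
           (CovZ.leaf K2_ok TL_l1193 _)
           (CovZ.leaf K2_ok TL_l1194 _))))
        (CovZ.n1 (-2344, -4396) (by decide +kernel)
         (CovZ.leaf K2_ok TL_l1195 _)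
         (CovZ.n1 (-2342, -4398) (by decide +kernel)
          (CovZ.leaf K2_ok TL_l1196 _)
          (CovZ.leaf K2_ok TL_l1197 _)))))))
    (CovZ.badM (by decide +kernel))))
    (CovZ.topM TL_LL 1 (by decide +kernel) (CovZ.n0 (-2352, -4400) (by decide +kernel)
    (CovZ.badM (by decide +kernel))
    (CovZ.n1 (-2352, -4384) (by decide +kernel)
     (CovZ.n2 (-2344, -4392) (by decide +kernel)
      (CovZ.n2 (-2352, -4392) (by decide +kernel)
       (CovZ.n2 (-2348, -4388) (by decide +kernel)
        (CovZ.n2 (-2348, -4392) (by decide +kernel)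
         (CovZ.leaf K2_ok TL_l1383 _)
         (CovZ.leaf K2_ok TL_l1384 _))
        (CovZ.n1 (-2352, -4388) (by decide +kernel)
         (CovZ.n2 (-2350, -4386) (by decide +kernel)
          (CovZ.leaf K2_ok TL_l1385 _)
          (CovZ.n1 (-2352, -4386) (by decide +kernel)
           (CovZ.leaf K2_ok TL_l1386 _)
           (CovZ.leaf K2_ok TL_l1387 _)))
         (CovZ.n1 (-2350, -4390) (by decide +kernel)
          (CovZ.leaf K2_ok TL_l1388 _)
          (CovZ.leaf K2_ok TL_l1389 _))))
       (CovZ.n1 (-2348, -4396) (by decide +kernel)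
        (CovZ.n2 (-2352, -4396) (by decide +kernel)
         (CovZ.n2 (-2350, -4394) (by decide +kernel)
          (CovZ.leaf K2_ok TL_l1390 _)
          (CovZ.leaf K2_ok TL_l1391 _))
         (CovZ.badM (by decide +kernel)))
        (CovZ.n1 (-2348, -4392) (by decide +kernel)
         (CovZ.leaf K2_ok TL_l1393 _)
         (CovZ.leaf K2_ok TL_l1394 _))))
      (CovZ.n1 (-2344, -4384) (by decide +kernel)
       (CovZ.n2 (-2340, -4388) (by decide +kernel)
        (CovZ.n2 (-2344, -4388) (by decide +kernel)
         (CovZ.leaf K2_ok TL_l1395 _)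
         (CovZ.leaf K2_ok TL_l1396 _))
        (CovZ.leaf K2_ok TL_l1397 _))
       (CovZ.n1 (-2348, -4388) (by decide +kernel)
        (CovZ.n2 (-2348, -4384) (by decide +kernel)
         (CovZ.n2 (-2346, -4386) (by decide +kernel)
          (CovZ.leaf K2_ok TL_l1398 _)
          (CovZ.leaf K2_ok TL_l1399 _))
         (CovZ.leaf K2_ok TL_l1400 _))
        (CovZ.n1 (-2344, -4388) (by decide +kernel)
         (CovZ.leaf K2_ok TL_l1401 _)
         (CovZ.leaf K2_ok TL_l1402 _)))))
     (CovZ.n1 (-2360, -4392) (by decide +kernel)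
      (CovZ.n2 (-2360, -4384) (by decide +kernel)
       (CovZ.n2 (-2356, -4388) (by decide +kernel)
        (CovZ.n2 (-2360, -4388) (by decide +kernel)
         (CovZ.n2 (-2358, -4386) (by decide +kernel)
          (CovZ.n2 (-2358, -4388) (by decide +kernel)
           (CovZ.n2 (-2359, -4387) (by decide +kernel)
            (CovZ.leaf K2_ok TL_l1403 _)
            (CovZ.leaf K2_ok TL_l1404 _))
           (CovZ.n1 (-2357, -4387) (by decide +kernel)
            (CovZ.leaf K2_ok TL_l1405 _)
            (CovZ.n1 (-2358, -4387) (by decide +kernel)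
             (CovZ.leaf K2_ok TL_l1406 _)
             (CovZ.leaf K2_ok TL_l1407 _))))
          (CovZ.n1 (-2360, -4386) (by decide +kernel)
           (CovZ.n2 (-2359, -4385) (by decide +kernel)
            (CovZ.leaf K2_ok TL_l1408 _)
            (CovZ.leaf K2_ok TL_l1409 _))
           (CovZ.n1 (-2359, -4387) (by decide +kernel)
            (CovZ.n2 (-2360, -4387) (by decide +kernel)
             (CovZ.leaf K2_ok TL_l1410 _)
             (CovZ.leaf K2_ok TL_l1411 _))
            (CovZ.leaf K2_ok TL_l1412 _))))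
         (CovZ.n1 (-2358, -4390) (by decide +kernel)
          (CovZ.n2 (-2360, -4390) (by decide +kernel)
           (CovZ.n2 (-2359, -4389) (by decide +kernel)
            (CovZ.leaf K2_ok TL_l1413 _)
            (CovZ.n1 (-2360, -4389) (by decide +kernel)
             (CovZ.leaf K2_ok TL_l1414 _)
             (CovZ.leaf K2_ok TL_l1415 _)))
           (CovZ.badM (by decide +kernel)))
          (CovZ.n1 (-2358, -4388) (by decide +kernel)
           (CovZ.leaf K2_ok TL_l1418 _)
           (CovZ.n1 (-2359, -4389) (by decide +kernel)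
            (CovZ.leaf K2_ok TL_l1419 _)
            (CovZ.leaf K2_ok TL_l1420 _)))))
        (CovZ.n1 (-2356, -4384) (by decide +kernel)
         (CovZ.n2 (-2354, -4386) (by decide +kernel)
          (CovZ.n2 (-2356, -4386) (by decide +kernel)
           (CovZ.n2 (-2355, -4385) (by decide +kernel)
            (CovZ.leaf K2_ok TL_l1421 _)
            (CovZ.leaf K2_ok TL_l1422 _))
           (CovZ.leaf K2_ok TL_l1423 _))
          (CovZ.n1 (-2354, -4384) (by decide +kernel)
           (CovZ.leaf K2_ok TL_l1424 _)
           (CovZ.leaf K2_ok TL_l1425 _)))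
         (CovZ.n1 (-2358, -4386) (by decide +kernel)
          (CovZ.n2 (-2358, -4384) (by decide +kernel)
           (CovZ.n2 (-2357, -4385) (by decide +kernel)
            (CovZ.leaf K2_ok TL_l1426 _)
            (CovZ.leaf K2_ok TL_l1427 _))
           (CovZ.n1 (-2359, -4385) (by decide +kernel)
            (CovZ.leaf K2_ok TL_l1428 _)
            (CovZ.n1 (-2358, -4385) (by decide +kernel)
             (CovZ.leaf K2_ok TL_l1429 _)
             (CovZ.leaf K2_ok TL_l1430 _))))
          (CovZ.n1 (-2356, -4386) (by decide +kernel)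
           (CovZ.leaf K2_ok TL_l1431 _)
           (CovZ.n1 (-2357, -4385) (by decide +kernel)
            (CovZ.leaf K2_ok TL_l1432 _)
            (CovZ.leaf K2_ok TL_l1433 _))))))
       (CovZ.n1 (-2364, -4388) (by decide +kernel)
        (CovZ.badM (by decide +kernel))
        (CovZ.n1 (-2360, -4388) (by decide +kernel)
         (CovZ.n2 (-2362, -4390) (by decide +kernel)
          (CovZ.n2 (-2362, -4388) (by decide +kernel)
           (CovZ.n2 (-2361, -4389) (by decide +kernel)
            (CovZ.badM (by decide +kernel))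
            (CovZ.leaf K2_ok TL_l1436 _))
           (CovZ.badM (by decide +kernel)))
          (CovZ.n1 (-2360, -4390) (by decide +kernel)
           (CovZ.badM (by decide +kernel))
           (CovZ.n1 (-2361, -4389) (by decide +kernel)
            (CovZ.leaf K2_ok TL_l1441 _)
            (CovZ.badM (by decide +kernel)))))
         (CovZ.n1 (-2362, -4386) (by decide +kernel)
          (CovZ.n2 (-2360, -4386) (by decide +kernel)
           (CovZ.n2 (-2361, -4387) (by decide +kernel)
            (CovZ.n2 (-2361, -4386) (by decide +kernel)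
             (CovZ.leaf K2_ok TL_l1443 _)
             (CovZ.leaf K2_ok TL_l1444 _))
            (CovZ.n1 (-2360, -4387) (by decide +kernel)
             (CovZ.leaf K2_ok TL_l1445 _)
             (CovZ.leaf K2_ok TL_l1446 _)))
           (CovZ.n1 (-2361, -4385) (by decide +kernel)
            (CovZ.leaf K2_ok TL_l1447 _)
            (CovZ.leaf K2_ok TL_l1448 _)))
          (CovZ.n1 (-2362, -4388) (by decide +kernel)
           (CovZ.n2 (-2363, -4387) (by decide +kernel)
            (CovZ.leaf K2_ok TL_l1449 _)
            (CovZ.badM (by decide +kernel)))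
           (CovZ.n1 (-2361, -4387) (by decide +kernel)
            (CovZ.leaf K2_ok TL_l1450 _)
            (CovZ.n1 (-2362, -4387) (by decide +kernel)
             (CovZ.leaf K2_ok TL_l1451 _)
             (CovZ.leaf K2_ok TL_l1452 _))))))))
      (CovZ.n1 (-2352, -4392) (by decide +kernel)
       (CovZ.n2 (-2356, -4396) (by decide +kernel)
        (CovZ.n2 (-2356, -4392) (by decide +kernel)
         (CovZ.n2 (-2354, -4394) (by decide +kernel)
          (CovZ.badM (by decide +kernel))
          (CovZ.leaf K2_ok TL_l1455 _))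
         (CovZ.badM (by decide +kernel)))
        (CovZ.n1 (-2352, -4396) (by decide +kernel)
         (CovZ.badM (by decide +kernel))
         (CovZ.n1 (-2354, -4394) (by decide +kernel)
          (CovZ.leaf K2_ok TL_l1461 _)
          (CovZ.badM (by decide +kernel)))))
       (CovZ.n1 (-2356, -4388) (by decide +kernel)
        (CovZ.n2 (-2352, -4388) (by decide +kernel)
         (CovZ.n2 (-2354, -4390) (by decide +kernel)
          (CovZ.leaf K2_ok TL_l1463 _)
          (CovZ.leaf K2_ok TL_l1464 _))
         (CovZ.n1 (-2354, -4386) (by decide +kernel)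
          (CovZ.n2 (-2352, -4386) (by decide +kernel)
           (CovZ.leaf K2_ok TL_l1465 _)
           (CovZ.leaf K2_ok TL_l1466 _))
          (CovZ.leaf K2_ok TL_l1467 _)))
        (CovZ.n1 (-2356, -4392) (by decide +kernel)
         (CovZ.n2 (-2358, -4390) (by decide +kernel)
          (CovZ.n2 (-2356, -4390) (by decide +kernel)
           (CovZ.leaf K2_ok TL_l1468 _)
           (CovZ.n1 (-2357, -4389) (by decide +kernel)
            (CovZ.leaf K2_ok TL_l1469 _)
            (CovZ.leaf K2_ok TL_l1470 _)))
          (CovZ.badM (by decide +kernel)))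
         (CovZ.n1 (-2354, -4390) (by decide +kernel)
          (CovZ.leaf K2_ok TL_l1473 _)
          (CovZ.n1 (-2356, -4390) (by decide +kernel)
           (CovZ.leaf K2_ok TL_l1474 _)
           (CovZ.leaf K2_ok TL_l1475 _))))))))))

theorem TL_s1_0 : SqZ TL_M TL_L [0, 7, 4, 3] (-2368) (-4416) 32 1 0 :=
  SqZ.mk (a := (-2336)) (b := (-2304)) (c := (-4416)) (d := (-4384)) (by norm_num) (by norm_num) (by norm_num) (by norm_num)
    (CovZ.topM TL_LL 0 (by decide +kernel) (CovZ.badM (by decide +kernel)))
    (CovZ.topM TL_LL 1 (by decide +kernel) (CovZ.n0 (-2320, -4400) (by decide +kernel)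
    (CovZ.n2 (-2336, -4400) (by decide +kernel)
     (CovZ.n2 (-2328, -4392) (by decide +kernel)
      (CovZ.badM (by decide +kernel))
      (CovZ.n1 (-2336, -4392) (by decide +kernel)
       (CovZ.n2 (-2332, -4388) (by decide +kernel)
        (CovZ.n2 (-2332, -4392) (by decide +kernel)
         (CovZ.leaf K2_ok TL_l1684 _)
         (CovZ.n1 (-2330, -4390) (by decide +kernel)
          (CovZ.leaf K2_ok TL_l1685 _)
          (CovZ.leaf K2_ok TL_l1686 _)))
        (CovZ.n1 (-2336, -4388) (by decide +kernel)
         (CovZ.leaf K2_ok TL_l1687 _)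
         (CovZ.leaf K2_ok TL_l1688 _)))
       (CovZ.n1 (-2332, -4396) (by decide +kernel)
        (CovZ.n2 (-2336, -4396) (by decide +kernel)
         (CovZ.n2 (-2334, -4394) (by decide +kernel)
          (CovZ.leaf K2_ok TL_l1689 _)
          (CovZ.leaf K2_ok TL_l1690 _))
         (CovZ.n1 (-2334, -4398) (by decide +kernel)
          (CovZ.n2 (-2336, -4398) (by decide +kernel)
           (CovZ.leaf K2_ok TL_l1691 _)
           (CovZ.leaf K2_ok TL_l1692 _))
          (CovZ.n1 (-2334, -4396) (by decide +kernel)
           (CovZ.leaf K2_ok TL_l1693 _)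
           (CovZ.leaf K2_ok TL_l1694 _))))
        (CovZ.n1 (-2332, -4392) (by decide +kernel)
         (CovZ.n2 (-2330, -4394) (by decide +kernel)
          (CovZ.n2 (-2332, -4394) (by decide +kernel)
           (CovZ.leaf K2_ok TL_l1695 _)
           (CovZ.leaf K2_ok TL_l1696 _))
          (CovZ.leaf K2_ok TL_l1697 _))
         (CovZ.n1 (-2334, -4394) (by decide +kernel)
          (CovZ.leaf K2_ok TL_l1698 _)
          (CovZ.n1 (-2332, -4394) (by decide +kernel)
           (CovZ.leaf K2_ok TL_l1699 _)
           (CovZ.leaf K2_ok TL_l1700 _)))))))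
     (CovZ.badM (by decide +kernel)))
    (CovZ.n1 (-2320, -4384) (by decide +kernel)
     (CovZ.badM (by decide +kernel))
     (CovZ.n1 (-2328, -4392) (by decide +kernel)
      (CovZ.n2 (-2328, -4384) (by decide +kernel)
       (CovZ.n2 (-2324, -4388) (by decide +kernel)
        (CovZ.n2 (-2328, -4388) (by decide +kernel)
         (CovZ.n2 (-2326, -4386) (by decide +kernel)
          (CovZ.leaf K2_ok TL_l1706 _)
          (CovZ.leaf K2_ok TL_l1707 _))
         (CovZ.n1 (-2326, -4390) (by decide +kernel)
          (CovZ.leaf K2_ok TL_l1708 _)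
          (CovZ.leaf K2_ok TL_l1709 _)))
        (CovZ.n1 (-2324, -4384) (by decide +kernel)
         (CovZ.n2 (-2322, -4386) (by decide +kernel)
          (CovZ.leaf K2_ok TL_l1710 _)
          (CovZ.leaf K2_ok TL_l1711 _))
         (CovZ.n1 (-2326, -4386) (by decide +kernel)
          (CovZ.leaf K2_ok TL_l1712 _)
          (CovZ.n1 (-2324, -4386) (by decide +kernel)
           (CovZ.leaf K2_ok TL_l1713 _)
           (CovZ.leaf K2_ok TL_l1714 _)))))
       (CovZ.n1 (-2332, -4388) (by decide +kernel)
        (CovZ.leaf K2_ok TL_l1715 _)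
        (CovZ.n1 (-2328, -4388) (by decide +kernel)
         (CovZ.n2 (-2330, -4390) (by decide +kernel)
          (CovZ.leaf K2_ok TL_l1716 _)
          (CovZ.leaf K2_ok TL_l1717 _))
         (CovZ.leaf K2_ok TL_l1718 _))))
      (CovZ.badM (by decide +kernel))))))

theorem TL_s2_0 : SqZ TL_M TL_L [0, 7, 4, 3] (-2368) (-4416) 32 2 0 :=
  SqZ.mk (a := (-2304)) (b := (-2272)) (c := (-4416)) (d := (-4384)) (by norm_num) (by norm_num) (by norm_num) (by norm_num)
    (CovZ.topM TL_LL 0 (by decide +kernel) (CovZ.badM (by decide +kernel)))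
    (CovZ.topM TL_LL 0 (by decide +kernel) (CovZ.badM (by decide +kernel)))

theorem TL_s0_1 : SqZ TL_M TL_L [0, 7, 4, 3] (-2368) (-4416) 32 0 1 :=
  SqZ.mk (a := (-2368)) (b := (-2336)) (c := (-4384)) (d := (-4352)) (by norm_num) (by norm_num) (by norm_num) (by norm_num)
    (CovZ.topM TL_LL 1 (by decide +kernel) (CovZ.n2 (-2352, -4368) (by decide +kernel)
    TL_u0
    TL_u1))
    (CovZ.topM TL_LL 0 (by decide +kernel) (CovZ.badM (by decide +kernel)))

theorem TL_s1_1 : SqZ TL_M TL_L [0, 7, 4, 3] (-2368) (-4416) 32 1 1 :=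
  SqZ.mk (a := (-2336)) (b := (-2304)) (c := (-4384)) (d := (-4352)) (by norm_num) (by norm_num) (by norm_num) (by norm_num)
    (CovZ.topM TL_LL 1 (by decide +kernel) (CovZ.n2 (-2320, -4368) (by decide +kernel)
    (CovZ.n2 (-2304, -4368) (by decide +kernel)
     (CovZ.n2 (-2312, -4376) (by decide +kernel)
      (CovZ.n2 (-2312, -4368) (by decide +kernel)
       (CovZ.n2 (-2308, -4372) (by decide +kernel)
        (CovZ.n2 (-2312, -4372) (by decide +kernel)
         (CovZ.n2 (-2310, -4370) (by decide +kernel)
          (CovZ.n2 (-2310, -4372) (by decide +kernel)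
           (CovZ.leaf K2_ok TL_l1759 _)
           (CovZ.n1 (-2309, -4371) (by decide +kernel)
            (CovZ.leaf K2_ok TL_l1760 _)
            (CovZ.leaf K2_ok TL_l1761 _)))
          (CovZ.leaf K2_ok TL_l1762 _))
         (CovZ.n1 (-2310, -4374) (by decide +kernel)
          (CovZ.n2 (-2312, -4374) (by decide +kernel)
           (CovZ.n2 (-2311, -4373) (by decide +kernel)
            (CovZ.leaf K2_ok TL_l1763 _)
            (CovZ.leaf K2_ok TL_l1764 _))
           (CovZ.leaf K2_ok TL_l1765 _))
          (CovZ.n1 (-2310, -4372) (by decide +kernel)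
           (CovZ.n2 (-2309, -4373) (by decide +kernel)
            (CovZ.leaf K2_ok TL_l1766 _)
            (CovZ.leaf K2_ok TL_l1767 _))
           (CovZ.n1 (-2311, -4373) (by decide +kernel)
            (CovZ.leaf K2_ok TL_l1768 _)
            (CovZ.leaf K2_ok TL_l1769 _)))))
        (CovZ.n1 (-2308, -4368) (by decide +kernel)
         (CovZ.n2 (-2306, -4370) (by decide +kernel)
          (CovZ.n2 (-2308, -4370) (by decide +kernel)
           (CovZ.n2 (-2307, -4369) (by decide +kernel)
            (CovZ.leaf K2_ok TL_l1770 _)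
            (CovZ.leaf K2_ok TL_l1771 _))
           (CovZ.n1 (-2307, -4371) (by decide +kernel)
            (CovZ.n2 (-2308, -4371) (by decide +kernel)
             (CovZ.leaf K2_ok TL_l1772 _)
             (CovZ.leaf K2_ok TL_l1773 _))
            (CovZ.leaf K2_ok TL_l1774 _)))
          (CovZ.n1 (-2306, -4368) (by decide +kernel)
           (CovZ.n2 (-2305, -4369) (by decide +kernel)
            (CovZ.n2 (-2306, -4369) (by decide +kernel)
             (CovZ.leaf K2_ok TL_l1775 _)
             (CovZ.leaf K2_ok TL_l1776 _))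
            (CovZ.leaf K2_ok TL_l1777 _))
           (CovZ.n1 (-2307, -4369) (by decide +kernel)
            (CovZ.leaf K2_ok TL_l1778 _)
            (CovZ.n1 (-2306, -4369) (by decide +kernel)
             (CovZ.leaf K2_ok TL_l1779 _)
             (CovZ.leaf K2_ok TL_l1780 _)))))
         (CovZ.n1 (-2310, -4370) (by decide +kernel)
          (CovZ.leaf K2_ok TL_l1781 _)
          (CovZ.n1 (-2308, -4370) (by decide +kernel)
           (CovZ.n2 (-2309, -4371) (by decide +kernel)
            (CovZ.leaf K2_ok TL_l1782 _)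
            (CovZ.leaf K2_ok TL_l1783 _))
           (CovZ.leaf K2_ok TL_l1784 _)))))
       (CovZ.n1 (-2316, -4372) (by decide +kernel)
        (CovZ.n2 (-2316, -4368) (by decide +kernel)
         (CovZ.leaf K2_ok TL_l1785 _)
         (CovZ.leaf K2_ok TL_l1786 _))
        (CovZ.n1 (-2312, -4372) (by decide +kernel)
         (CovZ.n2 (-2314, -4374) (by decide +kernel)
          (CovZ.leaf K2_ok TL_l1787 _)
          (CovZ.n1 (-2312, -4374) (by decide +kernel)
           (CovZ.n2 (-2313, -4375) (by decide +kernel)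
            (CovZ.leaf K2_ok TL_l1788 _)
            (CovZ.leaf K2_ok TL_l1789 _))
           (CovZ.leaf K2_ok TL_l1790 _)))
         (CovZ.leaf K2_ok TL_l1791 _))))
      (CovZ.badM (by decide +kernel)))
     (CovZ.n1 (-2312, -4360) (by decide +kernel)
      (CovZ.n2 (-2304, -4360) (by decide +kernel)
       (CovZ.n2 (-2308, -4364) (by decide +kernel)
        (CovZ.n2 (-2308, -4360) (by decide +kernel)
         (CovZ.leaf K2_ok TL_l1792 _)
         (CovZ.leaf K2_ok TL_l1793 _))
        (CovZ.n1 (-2304, -4364) (by decide +kernel)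
         (CovZ.n2 (-2306, -4366) (by decide +kernel)
          (CovZ.n2 (-2306, -4364) (by decide +kernel)
           (CovZ.leaf K2_ok TL_l1794 _)
           (CovZ.leaf K2_ok TL_l1795 _))
          (CovZ.n1 (-2304, -4366) (by decide +kernel)
           (CovZ.n2 (-2305, -4367) (by decide +kernel)
            (CovZ.leaf K2_ok TL_l1796 _)
            (CovZ.n1 (-2304, -4367) (by decide +kernel)
             (CovZ.leaf K2_ok TL_l1797 _)
             (CovZ.leaf K2_ok TL_l1798 _)))
           (CovZ.leaf K2_ok TL_l1799 _)))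
         (CovZ.n1 (-2306, -4362) (by decide +kernel)
          (CovZ.leaf K2_ok TL_l1800 _)
          (CovZ.n1 (-2306, -4364) (by decide +kernel)
           (CovZ.leaf K2_ok TL_l1801 _)
           (CovZ.leaf K2_ok TL_l1802 _)))))
       (CovZ.badM (by decide +kernel)))
      (CovZ.n1 (-2312, -4368) (by decide +kernel)
       (CovZ.n2 (-2316, -4364) (by decide +kernel)
        (CovZ.n2 (-2312, -4364) (by decide +kernel)
         (CovZ.leaf K2_ok TL_l1809 _)
         (CovZ.leaf K2_ok TL_l1810 _))
        (CovZ.n1 (-2316, -4368) (by decide +kernel)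
         (CovZ.leaf K2_ok TL_l1811 _)
         (CovZ.leaf K2_ok TL_l1812 _)))
       (CovZ.n1 (-2308, -4364) (by decide +kernel)
        (CovZ.n2 (-2308, -4368) (by decide +kernel)
         (CovZ.n2 (-2310, -4366) (by decide +kernel)
          (CovZ.leaf K2_ok TL_l1813 _)
          (CovZ.n1 (-2310, -4368) (by decide +kernel)
           (CovZ.leaf K2_ok TL_l1814 _)
           (CovZ.leaf K2_ok TL_l1815 _)))
         (CovZ.n1 (-2306, -4366) (by decide +kernel)
          (CovZ.n2 (-2306, -4368) (by decide +kernel)
           (CovZ.leaf K2_ok TL_l1816 _)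
           (CovZ.n1 (-2305, -4367) (by decide +kernel)
            (CovZ.n2 (-2305, -4368) (by decide +kernel)
             (CovZ.leaf K2_ok TL_l1817 _)
             (CovZ.leaf K2_ok TL_l1818 _))
            (CovZ.leaf K2_ok TL_l1819 _)))
          (CovZ.leaf K2_ok TL_l1820 _)))
        (CovZ.n1 (-2312, -4364) (by decide +kernel)
         (CovZ.leaf K2_ok TL_l1821 _)
         (CovZ.leaf K2_ok TL_l1822 _))))))
    (CovZ.n1 (-2320, -4384) (by decide +kernel)
     (CovZ.n2 (-2328, -4376) (by decide +kernel)
      (CovZ.n2 (-2320, -4376) (by decide +kernel)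
       (CovZ.n2 (-2324, -4380) (by decide +kernel)
        (CovZ.leaf K2_ok TL_l1823 _)
        (CovZ.n1 (-2320, -4380) (by decide +kernel)
         (CovZ.n2 (-2322, -4382) (by decide +kernel)
          (CovZ.leaf K2_ok TL_l1824 _)
          (CovZ.leaf K2_ok TL_l1825 _))
         (CovZ.leaf K2_ok TL_l1826 _)))
       (CovZ.n1 (-2324, -4372) (by decide +kernel)
        (CovZ.n2 (-2320, -4372) (by decide +kernel)
         (CovZ.leaf K2_ok TL_l1827 _)
         (CovZ.leaf K2_ok TL_l1828 _))
        (CovZ.leaf K2_ok TL_l1829 _)))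
      (CovZ.n1 (-2328, -4384) (by decide +kernel)
       (CovZ.n2 (-2332, -4380) (by decide +kernel)
        (CovZ.leaf K2_ok TL_l1830 _)
        (CovZ.leaf K2_ok TL_l1831 _))
       (CovZ.n1 (-2324, -4380) (by decide +kernel)
        (CovZ.n2 (-2324, -4384) (by decide +kernel)
         (CovZ.leaf K2_ok TL_l1832 _)
         (CovZ.n1 (-2322, -4382) (by decide +kernel)
          (CovZ.leaf K2_ok TL_l1833 _)
          (CovZ.leaf K2_ok TL_l1834 _)))
        (CovZ.n1 (-2328, -4380) (by decide +kernel)
         (CovZ.leaf K2_ok TL_l1835 _)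
         (CovZ.leaf K2_ok TL_l1836 _)))))
     (CovZ.n1 (-2312, -4376) (by decide +kernel)
      (CovZ.badM (by decide +kernel))
      (CovZ.n1 (-2320, -4376) (by decide +kernel)
       (CovZ.n2 (-2316, -4372) (by decide +kernel)
        (CovZ.n2 (-2316, -4376) (by decide +kernel)
         (CovZ.leaf K2_ok TL_l1852 _)
         (CovZ.n1 (-2314, -4374) (by decide +kernel)
          (CovZ.n2 (-2314, -4376) (by decide +kernel)
           (CovZ.leaf K2_ok TL_l1853 _)
           (CovZ.n1 (-2313, -4375) (by decide +kernel)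
            (CovZ.leaf K2_ok TL_l1854 _)
            (CovZ.leaf K2_ok TL_l1855 _)))
          (CovZ.leaf K2_ok TL_l1856 _)))
        (CovZ.n1 (-2320, -4372) (by decide +kernel)
         (CovZ.leaf K2_ok TL_l1857 _)
         (CovZ.leaf K2_ok TL_l1858 _)))
       (CovZ.n1 (-2316, -4380) (by decide +kernel)
        (CovZ.n2 (-2320, -4380) (by decide +kernel)
         (CovZ.n2 (-2318, -4378) (by decide +kernel)
          (CovZ.n2 (-2318, -4380) (by decide +kernel)
           (CovZ.leaf K2_ok TL_l1859 _)
           (CovZ.leaf K2_ok TL_l1860 _))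
          (CovZ.leaf K2_ok TL_l1861 _))
         (CovZ.n1 (-2318, -4382) (by decide +kernel)
          (CovZ.n2 (-2320, -4382) (by decide +kernel)
           (CovZ.leaf K2_ok TL_l1862 _)
           (CovZ.leaf K2_ok TL_l1863 _))
          (CovZ.n1 (-2318, -4380) (by decide +kernel)
           (CovZ.leaf K2_ok TL_l1864 _)
           (CovZ.leaf K2_ok TL_l1865 _))))
        (CovZ.n1 (-2316, -4376) (by decide +kernel)
         (CovZ.n2 (-2314, -4378) (by decide +kernel)
          (CovZ.n2 (-2316, -4378) (by decide +kernel)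
           (CovZ.leaf K2_ok TL_l1866 _)
           (CovZ.leaf K2_ok TL_l1867 _))
          (CovZ.n1 (-2314, -4376) (by decide +kernel)
           (CovZ.leaf K2_ok TL_l1868 _)
           (CovZ.leaf K2_ok TL_l1869 _)))
         (CovZ.n1 (-2318, -4378) (by decide +kernel)
          (CovZ.leaf K2_ok TL_l1870 _)
          (CovZ.n1 (-2316, -4378) (by decide +kernel)
           (CovZ.leaf K2_ok TL_l1871 _)
           (CovZ.leaf K2_ok TL_l1872 _))))))))))
    (CovZ.topM TL_LL 1 (by decide +kernel) (CovZ.n0 (-2320, -4368) (by decide +kernel)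
    (CovZ.n2 (-2336, -4368) (by decide +kernel)
     (CovZ.n2 (-2328, -4360) (by decide +kernel)
      (CovZ.n2 (-2328, -4368) (by decide +kernel)
       (CovZ.n2 (-2332, -4364) (by decide +kernel)
        (CovZ.n2 (-2328, -4364) (by decide +kernel)
         (CovZ.n2 (-2330, -4366) (by decide +kernel)
          (CovZ.leaf K2_ok TL_l1873 _)
          (CovZ.leaf K2_ok TL_l1874 _))
         (CovZ.badM (by decide +kernel)))
        (CovZ.n1 (-2332, -4368) (by decide +kernel)
         (CovZ.n2 (-2334, -4366) (by decide +kernel)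
          (CovZ.leaf K2_ok TL_l1878 _)
          (CovZ.leaf K2_ok TL_l1879 _))
         (CovZ.n1 (-2330, -4366) (by decide +kernel)
          (CovZ.leaf K2_ok TL_l1880 _)
          (CovZ.leaf K2_ok TL_l1881 _))))
       (CovZ.n1 (-2324, -4364) (by decide +kernel)
        (CovZ.leaf K2_ok TL_l1882 _)
        (CovZ.n1 (-2328, -4364) (by decide +kernel)
         (CovZ.leaf K2_ok TL_l1883 _)
         (CovZ.leaf K2_ok TL_l1884 _))))
      (CovZ.n1 (-2336, -4360) (by decide +kernel)
       (CovZ.badM (by decide +kernel))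
       (CovZ.n1 (-2332, -4364) (by decide +kernel)
        (CovZ.n2 (-2336, -4364) (by decide +kernel)
         (CovZ.badM (by decide +kernel))
         (CovZ.n1 (-2334, -4366) (by decide +kernel)
          (CovZ.n2 (-2336, -4366) (by decide +kernel)
           (CovZ.leaf K2_ok TL_l1889 _)
           (CovZ.leaf K2_ok TL_l1890 _))
          (CovZ.leaf K2_ok TL_l1891 _)))
        (CovZ.badM (by decide +kernel)))))
     (CovZ.n1 (-2328, -4376) (by decide +kernel)
      (CovZ.n2 (-2336, -4376) (by decide +kernel)
       (CovZ.n2 (-2332, -4372) (by decide +kernel)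
        (CovZ.leaf K2_ok TL_l1900 _)
        (CovZ.n1 (-2336, -4372) (by decide +kernel)
         (CovZ.n2 (-2334, -4370) (by decide +kernel)
          (CovZ.leaf K2_ok TL_l1901 _)
          (CovZ.leaf K2_ok TL_l1902 _))
         (CovZ.leaf K2_ok TL_l1903 _)))
       (CovZ.n1 (-2332, -4380) (by decide +kernel)
        (CovZ.n2 (-2336, -4380) (by decide +kernel)
         (CovZ.leaf K2_ok TL_l1904 _)
         (CovZ.leaf K2_ok TL_l1905 _))
        (CovZ.leaf K2_ok TL_l1906 _)))
      (CovZ.n1 (-2328, -4368) (by decide +kernel)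
       (CovZ.n2 (-2324, -4372) (by decide +kernel)
        (CovZ.n2 (-2328, -4372) (by decide +kernel)
         (CovZ.leaf K2_ok TL_l1907 _)
         (CovZ.leaf K2_ok TL_l1908 _))
        (CovZ.leaf K2_ok TL_l1909 _))
       (CovZ.n1 (-2332, -4372) (by decide +kernel)
        (CovZ.n2 (-2332, -4368) (by decide +kernel)
         (CovZ.leaf K2_ok TL_l1910 _)
         (CovZ.leaf K2_ok TL_l1911 _))
        (CovZ.n1 (-2328, -4372) (by decide +kernel)
         (CovZ.leaf K2_ok TL_l1912 _)
         (CovZ.leaf K2_ok TL_l1913 _))))))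
    (CovZ.n1 (-2320, -4352) (by decide +kernel)
     (CovZ.n2 (-2312, -4360) (by decide +kernel)
      (CovZ.n2 (-2320, -4360) (by decide +kernel)
       (CovZ.badM (by decide +kernel))
       (CovZ.n1 (-2316, -4364) (by decide +kernel)
        (CovZ.n2 (-2320, -4364) (by decide +kernel)
         (CovZ.leaf K2_ok TL_l1918 _)
         (CovZ.leaf K2_ok TL_l1919 _))
        (CovZ.n1 (-2316, -4360) (by decide +kernel)
         (CovZ.leaf K2_ok TL_l1920 _)
         (CovZ.leaf K2_ok TL_l1921 _))))
      (CovZ.badM (by decide +kernel)))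
     (CovZ.n1 (-2328, -4360) (by decide +kernel)
      (CovZ.badM (by decide +kernel))
      (CovZ.n1 (-2320, -4360) (by decide +kernel)
       (CovZ.n2 (-2324, -4364) (by decide +kernel)
        (CovZ.n2 (-2324, -4360) (by decide +kernel)
         (CovZ.leaf K2_ok TL_l1942 _)
         (CovZ.n1 (-2326, -4362) (by decide +kernel)
          (CovZ.badM (by decide +kernel))
          (CovZ.leaf K2_ok TL_l1944 _)))
        (CovZ.n1 (-2320, -4364) (by decide +kernel)
         (CovZ.leaf K2_ok TL_l1945 _)
         (CovZ.leaf K2_ok TL_l1946 _)))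
       (CovZ.badM (by decide +kernel)))))))

theorem TL_s2_1 : SqZ TL_M TL_L [0, 7, 4, 3] (-2368) (-4416) 32 2 1 :=
  SqZ.mk (a := (-2304)) (b := (-2272)) (c := (-4384)) (d := (-4352)) (by norm_num) (by norm_num) (by norm_num) (by norm_num)
    (CovZ.topM TL_LL 0 (by decide +kernel) (CovZ.badM (by decide +kernel)))
    (CovZ.topM TL_LL 1 (by decide +kernel) (CovZ.n0 (-2288, -4368) (by decide +kernel)
    (CovZ.n2 (-2304, -4368) (by decide +kernel)
     (CovZ.n2 (-2296, -4360) (by decide +kernel)
      (CovZ.badM (by decide +kernel))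
      (CovZ.n1 (-2304, -4360) (by decide +kernel)
       (CovZ.badM (by decide +kernel))
       (CovZ.n1 (-2300, -4364) (by decide +kernel)
        (CovZ.n2 (-2304, -4364) (by decide +kernel)
         (CovZ.n2 (-2302, -4362) (by decide +kernel)
          (CovZ.n2 (-2302, -4364) (by decide +kernel)
           (CovZ.leaf K2_ok TL_l1976 _)
           (CovZ.badM (by decide +kernel)))
          (CovZ.leaf K2_ok TL_l1978 _))
         (CovZ.n1 (-2302, -4366) (by decide +kernel)
          (CovZ.n2 (-2304, -4366) (by decide +kernel)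
           (CovZ.n2 (-2303, -4365) (by decide +kernel)
            (CovZ.n2 (-2303, -4366) (by decide +kernel)
             (CovZ.leaf K2_ok TL_l1979 _)
             (CovZ.leaf K2_ok TL_l1980 _))
            (CovZ.leaf K2_ok TL_l1981 _))
           (CovZ.n1 (-2303, -4367) (by decide +kernel)
            (CovZ.n2 (-2304, -4367) (by decide +kernel)
             (CovZ.leaf K2_ok TL_l1982 _)
             (CovZ.leaf K2_ok TL_l1983 _))
            (CovZ.leaf K2_ok TL_l1984 _)))
          (CovZ.n1 (-2302, -4364) (by decide +kernel)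
           (CovZ.n2 (-2301, -4365) (by decide +kernel)
            (CovZ.n2 (-2302, -4365) (by decide +kernel)
             (CovZ.badM (by decide +kernel))
             (CovZ.leaf K2_ok TL_l1985 _))
            (CovZ.badM (by decide +kernel)))
           (CovZ.n1 (-2303, -4365) (by decide +kernel)
            (CovZ.leaf K2_ok TL_l1986 _)
            (CovZ.leaf K2_ok TL_l1987 _)))))
        (CovZ.badM (by decide +kernel)))))
     (CovZ.badM (by decide +kernel)))
    (CovZ.badM (by decide +kernel))))

end Pool.Agent.TET
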