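import Pool.Agent.Helper38_TET.TL_C

/-!
# MP_c7c9bf_co: certificates, family TL
-/

set_option autoImplicit false
set_option maxRecDepth 100000

namespace Pool.Agent.TET

theorem TL_rg0 : ROK [.q ⟨47, -27, -60, 40⟩ ⟨-11658, 30002, -14264, -4080⟩, .q ⟨47, -27, -60, 40⟩ ⟨-13268, -852, -11320, 25440⟩, .q ⟨47, -27, -60, 40⟩ ⟨10395, -32303, 13068, 8840⟩, .q ⟨47, -27, -60, 40⟩ ⟨3850, 26774, -784, -29840⟩, .q ⟨47, -27, -60, 40⟩ ⟨18218, -8954, 16096, -25360⟩] := by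
  refine rok_w (v := ⟨47, -27, -60, 40⟩) (q := 8) (by decide) (by decide) (by decide) TL_sc (k := 1) (by decide) (Q := [(3406, -2548, -102), (2040, 3355, 636), (-3292, 3291, 221), (829, -5693, -746), (-3259, -2743, -634)])
    (P := [⟨-3133440, 3406, -2548⟩, ⟨19537920, 2040, 3355⟩, ⟨6789120, -3292, 3291⟩, ⟨-22917120, 829, -5693⟩, ⟨-19476480, -3259, -2743⟩]) rfl rfl
    (List.mem_of_getElem? (i := 0) rfl) TL_fr TL_cov ?_
  · intro X Y h
    simp only [List.forall_mem_cons, List.not_mem_nil, false_imp_iff, implies_true, and_true] at h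
    push_cast at h ⊢
    obtain ⟨h0, h1, h2, h3, h4⟩ := h
    refine ⟨⟨?_, ?_⟩, ?_, ?_⟩ <;> linarith

end Pool.Agent.TET
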